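import Pool.Agent.Lib.D8.UtilB

/-!
# MP_5dcbc3_ag: lifting solutions of linear systems which depend polynomially on a parameter

`PolyV v`: the map `v : k → V` is a polynomial with coefficients in the vector space `V`.
`liftN`: if `L(s)` is a polynomial family of matrices, `L(s) R(s) = s^N (1 + s E(s))` and
`L(s) c(s) = s^(N+1) w(s)`, then `c(0)` is the value at `0` of a polynomial solution of
`L(s) v(s) = 0`.  `lift1` and `lift2` are the cases `N = 0`, `N = 1` for linear maps.
-/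

namespace Pool.Agent.Lib.D13

open Matrix Pool.Agent.Lib Pool.Agent.Lib.D7 Pool.Agent.Lib.Q5dc

variable {k : Type*} [Field k]

/-- polynomial maps from the field to a vector space -/
def PolyV {V : Type*} [AddCommGroup V] [Module k V] (v : k → V) : Prop :=
  ∃ (d : ℕ) (a : ℕ → V), ∀ s, v s = ∑ i ∈ Finset.range d, s ^ i • a i

section PolyV

variable {V W : Type*} [AddCommGroup V] [Module k V] [AddCommGroup W] [Module k W]

theorem PolyV.const (x : V) : PolyV fun _ : k => x :=
  ⟨1, fun _ => x, fun s => by simp⟩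

theorem PolyV.zero : PolyV fun _ : k => (0 : V) := PolyV.const 0

theorem PolyV.extend {v : k → V} (h : PolyV v) : ∃ (d : ℕ) (a : ℕ → V), (∀ s, v s =
    ∑ i ∈ Finset.range d, s ^ i • a i) ∧ ∀ i, d ≤ i → a i = 0 := by
  obtain ⟨d, a, h⟩ := h
  refine ⟨d, fun i => if i < d then a i else 0, fun s => ?_, fun i hi => if_neg (by omega)⟩
  rw [h s]
  refine Finset.sum_congr rfl fun i hi => ?_
  simp only [if_pos (Finset.mem_range.1 hi)]

theorem PolyV.add {v w : k → V} (hv : PolyV v) (hw : PolyV w) : PolyV fun s => v s + w s := by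
  obtain ⟨d, a, h, h0⟩ := hv.extend
  obtain ⟨d', a', h', h0'⟩ := hw.extend
  refine ⟨max d d', fun i => a i + a' i, fun s => ?_⟩
  have e1 : v s = ∑ i ∈ Finset.range (max d d'), s ^ i • a i := by
    rw [h s]
    refine Finset.sum_subset (Finset.range_mono (le_max_left _ _)) fun i _ hi => ?_
    rw [h0 i (by simpa using hi), smul_zero]
  have e2 : w s = ∑ i ∈ Finset.range (max d d'), s ^ i • a' i := by
    rw [h' s]
    refine Finset.sum_subset (Finset.range_mono (le_max_right _ _)) fun i _ hi => ?_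
    rw [h0' i (by simpa using hi), smul_zero]
  simp only [e1, e2, ← Finset.sum_add_distrib, smul_add]

theorem PolyV.map {v : k → V} (hv : PolyV v) (f : V →ₗ[k] W) : PolyV fun s => f (v s) := by
  obtain ⟨d, a, h⟩ := hv
  exact ⟨d, fun i => f (a i), fun s => by simp [h s]⟩

theorem PolyV.neg {v : k → V} (hv : PolyV v) : PolyV fun s => -v s :=
  hv.map (-LinearMap.id)

theorem PolyV.sub {v w : k → V} (hv : PolyV v) (hw : PolyV w) : PolyV fun s => v s - w s := by
  have := hv.add hw.neg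
  simpa [sub_eq_add_neg] using this

theorem PolyV.id_smul {v : k → V} (hv : PolyV v) : PolyV fun s => s • v s := by
  obtain ⟨d, a, h⟩ := hv
  refine ⟨d + 1, fun i => if i = 0 then 0 else a (i - 1), fun s => ?_⟩
  simp only [h s]
  rw [Finset.sum_range_succ', Finset.smul_sum]
  simp [pow_succ', mul_smul]

theorem PolyV.pow_smul {v : k → V} (hv : PolyV v) (j : ℕ) : PolyV fun s => s ^ j • v s := by
  induction j with
  | zero => simpa using hv
  | succ j ih =>
    have := ih.id_smul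
    simpa [pow_succ', mul_smul] using this

theorem PolyV.sum {ι : Type*} (t : Finset ι) {v : ι → k → V} (hv : ∀ i ∈ t, PolyV (v i)) :
    PolyV fun s => ∑ i ∈ t, v i s := by
  classical
  induction t using Finset.induction_on with
  | empty => simpa using (PolyV.zero : PolyV fun _ : k => (0 : V))
  | insert a t ha ih =>
    have := (hv a (Finset.mem_insert_self _ _)).add
      (ih fun i hi => hv i (Finset.mem_insert_of_mem hi))
    simpa [Finset.sum_insert ha] using this

theorem PolyV.isPoly {v : k → k} (hv : PolyV v) : IsPoly v := by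
  obtain ⟨d, a, h⟩ := hv
  refine ⟨∑ i ∈ Finset.range d, Polynomial.X ^ i * Polynomial.C (a i), fun s => ?_⟩
  rw [h s, Polynomial.eval_finsetSum]
  refine Finset.sum_congr rfl fun i _ => ?_
  rw [Polynomial.eval_mul, Polynomial.eval_pow, Polynomial.eval_X, Polynomial.eval_C, smul_eq_mul]

theorem PolyV.of_isPoly {f : k → k} (hf : IsPoly f) : PolyV f := by
  obtain ⟨p, hp⟩ := hf
  refine ⟨p.natDegree + 1, fun i => p.coeff i, fun s => ?_⟩
  rw [hp s, Polynomial.eval_eq_sum_range]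
  exact Finset.sum_congr rfl fun i _ => by rw [smul_eq_mul, mul_comm]

theorem PolyV.smul {f : k → k} (hf : IsPoly f) {v : k → V} (hv : PolyV v) :
    PolyV fun s => f s • v s := by
  obtain ⟨d, a, h⟩ := PolyV.of_isPoly hf
  have : (fun s => f s • v s) = fun s => ∑ i ∈ Finset.range d, s ^ i • (a i • v s) := by
    ext s
    rw [h s, Finset.sum_smul]
    exact Finset.sum_congr rfl fun i _ => by rw [smul_eq_mul, mul_smul]
  rw [this]
  exact PolyV.sum _ fun i _ => (hv.map (a i • LinearMap.id)).pow_smul i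

/-- coordinates -/
theorem PolyV.entry {n m : Type*} {v : k → Matrix m n k} (hv : PolyV v) (x : m) (y : n) :
    IsPoly fun s => v s x y :=
  (hv.map (Matrix.entryLinearMap k k x y)).isPoly

theorem PolyV.of_pi {n : Type*} [Fintype n] [DecidableEq n] {v : k → n → k}
    (hv : ∀ i, IsPoly fun s => v s i) : PolyV v := by
  have : v = fun s => ∑ i, v s i • (Pi.single i 1 : n → k) := by
    ext s j
    simp [Finset.sum_apply, Pi.single_apply]
  rw [this]
  exact PolyV.sum _ fun i _ => PolyV.smul (hv i) (PolyV.const _)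

theorem PolyV.of_matrix {n m : Type*} [Fintype n] [DecidableEq n] [Fintype m] [DecidableEq m]
    {v : k → Matrix m n k} (hv : ∀ i j, IsPoly fun s => v s i j) : PolyV v := by
  have : v = fun s => ∑ i, ∑ j, v s i j • (Matrix.single i j 1 : Matrix m n k) := by
    ext s i j
    simp [Matrix.sum_apply, Matrix.single_apply]
    rw [Finset.sum_eq_single i]
    · simp
    · intro b _ hb
      simp [hb]
    · simp
  rw [this]
  exact PolyV.sum _ fun i _ => PolyV.sum _ fun j _ => PolyV.smul (hv i j) (PolyV.const _)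

end PolyV

/-! ### matrices -/

section Mat

variable {n m l : Type*} [Fintype n] [DecidableEq n] [Fintype m] [DecidableEq m]
  [Fintype l] [DecidableEq l]

theorem isPoly_sum {ι : Type*} (t : Finset ι) {f : ι → k → k} (h : ∀ i ∈ t, IsPoly (f i)) :
    IsPoly fun s => ∑ i ∈ t, f i s := by
  classical
  induction t using Finset.induction_on with
  | empty => simpa using (D7.IsPoly.const (0 : k))
  | insert a t ha ih =>
    have := (h a (Finset.mem_insert_self _ _)).add
      (ih fun i hi => h i (Finset.mem_insert_of_mem hi))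
    simpa [Finset.sum_insert ha] using this

theorem isPoly_prod {ι : Type*} (t : Finset ι) {f : ι → k → k} (h : ∀ i ∈ t, IsPoly (f i)) :
    IsPoly fun s => ∏ i ∈ t, f i s := by
  classical
  induction t using Finset.induction_on with
  | empty => simpa using (D7.IsPoly.const (1 : k))
  | insert a t ha ih =>
    have := (h a (Finset.mem_insert_self _ _)).mul
      (ih fun i hi => h i (Finset.mem_insert_of_mem hi))
    simpa [Finset.prod_insert ha] using this

theorem isPoly_det {D : k → Matrix m m k} (hD : ∀ x y, IsPoly fun s => D s x y) :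
    IsPoly fun s => (D s).det := by
  simp only [Matrix.det_apply]
  refine isPoly_sum _ fun σ _ => ?_
  have h1 : IsPoly fun s => ∏ i, D s (σ i) i := isPoly_prod _ fun i _ => hD _ _
  rcases Int.units_eq_one_or (Equiv.Perm.sign σ) with h | h
  · simpa [h] using h1
  · simpa [h] using h1.neg

theorem isPoly_adjugate {D : k → Matrix m m k} (hD : ∀ x y, IsPoly fun s => D s x y) (x y : m) :
    IsPoly fun s => (D s).adjugate x y := by
  simp only [Matrix.adjugate_apply]
  refine isPoly_det fun i j => ?_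
  by_cases h : i = y
  · subst h
    simp only [Matrix.updateRow_self]
    exact D7.IsPoly.const _
  · simp only [Matrix.updateRow_ne h]
    exact hD _ _

omit [DecidableEq n] in
/-- **Lifting lemma** (`N` steps). -/
theorem liftN (L : k → Matrix m n k) (N : ℕ) (R : k → Matrix n m k)
    (hR : ∀ x y, IsPoly fun s => R s x y) (E : k → Matrix m m k)
    (hE : ∀ x y, IsPoly fun s => E s x y) (hLR : ∀ s, L s * R s = s ^ N • (1 + s • E s))
    (c : k → n → k) (hc : ∀ i, IsPoly fun s => c s i) (w : k → m → k)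
    (hw : ∀ i, IsPoly fun s => w s i) (h : ∀ s, L s *ᵥ c s = s ^ (N + 1) • w s) :
    ∃ v : k → n → k, (∀ i, IsPoly fun s => v s i) ∧ v 0 = c 0 ∧ ∀ s, L s *ᵥ v s = 0 := by
  have hD : ∀ x y, IsPoly fun s => (1 + s • E s) x y := fun x y =>
    (D7.IsPoly.const _).add (D7.IsPoly.id.mul (hE x y))
  refine ⟨fun s => (1 + s • E s).det • c s - s • (R s *ᵥ ((1 + s • E s).adjugate *ᵥ w s)),
    fun i => ?_, ?_, fun s => ?_⟩
  · refine ((isPoly_det hD).mul (hc i)).sub (D7.IsPoly.id.mul ?_)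
    simp only [Matrix.mulVec, dotProduct]
    exact isPoly_sum _ fun j _ => (hR i j).mul
      (isPoly_sum _ fun l _ => (isPoly_adjugate hD j l).mul (hw l))
  · simp
  · rw [Matrix.mulVec_sub, Matrix.mulVec_smul, Matrix.mulVec_smul, Matrix.mulVec_mulVec, hLR, h,
      Matrix.smul_mulVec, Matrix.mulVec_mulVec, Matrix.mul_adjugate, Matrix.smul_mulVec,
      Matrix.one_mulVec, pow_succ']
    ext i
    simp only [Pi.sub_apply, Pi.smul_apply, smul_eq_mul, Pi.zero_apply]
    ring

end Mat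

/-! ### linear maps -/

section Lin

variable {V W : Type*} [AddCommGroup V] [Module k V] [AddCommGroup W] [Module k W]
  [FiniteDimensional k V] [FiniteDimensional k W]

/-- **Lifting lemma** for linear maps, `N` steps: `L s` depends polynomially on `s`; for every `w`
there is a polynomial `r` with `L(s) r(s) = s^N w + s^(N+1) (..)`; and `L(s) c(s)` is divisible by
`s^(N+1)`. -/
theorem liftV (L : k → V →ₗ[k] W) (N : ℕ)
    (hLR : ∀ w : W, ∃ r : k → V, PolyV r ∧ ∃ e : k → W, PolyV e ∧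
      ∀ s, L s (r s) = s ^ N • (w + s • e s))
    (c : k → V) (hc : PolyV c) (w : k → W) (hw : PolyV w)
    (h : ∀ s, L s (c s) = s ^ (N + 1) • w s) :
    ∃ v : k → V, PolyV v ∧ v 0 = c 0 ∧ ∀ s, L s (v s) = 0 := by
  classical
  let bV := Module.finBasis k V
  let bW := Module.finBasis k W
  choose r hr e he hre using hLR
  have key := liftN (k := k) (fun s => LinearMap.toMatrix bV bW (L s)) N
    (fun s => Matrix.of fun i j => bV.repr (r (bW j) s) i)
    (fun x y => by
      simpa using ((hr (bW y)).map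
        (Finsupp.lapply x ∘ₗ (bV.repr : V →ₗ[k] _))).isPoly)
    (fun s => Matrix.of fun i j => bW.repr (e (bW j) s) i)
    (fun x y => by
      simpa using ((he (bW y)).map
        (Finsupp.lapply x ∘ₗ (bW.repr : W →ₗ[k] _))).isPoly)
    (fun s => by
      ext i j
      have h1 : (LinearMap.toMatrix bV bW (L s) *
          Matrix.of fun i j => bV.repr (r (bW j) s) i) i j =
          bW.repr (L s (r (bW j) s)) i := by
        rw [← LinearMap.toMatrix_mulVec_repr bV bW (L s) (r (bW j) s)]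
        rfl
      rw [h1, hre]
      simp only [map_smul, map_add, Module.Basis.repr_self, Finsupp.smul_apply, Finsupp.add_apply,
        smul_eq_mul, Matrix.smul_apply, Matrix.add_apply, Matrix.one_apply, Matrix.of_apply,
        Finsupp.single_apply, eq_comm (a := j)])
    (fun s i => bV.repr (c s) i)
    (fun i => by
      simpa using (hc.map (Finsupp.lapply i ∘ₗ (bV.repr : V →ₗ[k] _))).isPoly)
    (fun s i => bW.repr (w s) i)
    (fun i => by
      simpa using (hw.map (Finsupp.lapply i ∘ₗ (bW.repr : W →ₗ[k] _))).isPoly)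
    (fun s => by
      have h1 := LinearMap.toMatrix_mulVec_repr bV bW (L s) (c s)
      rw [h s] at h1
      rw [show (fun i => bV.repr (c s) i) = ⇑(bV.repr (c s)) from rfl, h1]
      ext i
      simp)
  obtain ⟨v, hv, hv0, hv1⟩ := key
  refine ⟨fun s => ∑ i, v s i • bV i, PolyV.sum _ fun i _ => PolyV.smul (hv i) (PolyV.const _),
    ?_, fun s => ?_⟩
  · simp only [hv0]
    exact bV.sum_repr (c 0)
  · have h1 := LinearMap.toMatrix_mulVec_repr bV bW (L s) (∑ i, v s i • bV i)
    have h2 : ⇑(bV.repr (∑ i, v s i • bV i)) = v s := by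
      rw [bV.repr_sum_self]
    rw [h2, hv1 s] at h1
    apply bW.repr.injective
    ext i
    rw [← congrFun h1 i]
    simp

/-- one step: `L(s) = L₀ + s L₁ + s² L₂`, `L₀` is onto -/
theorem lift1 (L₀ L₁ L₂ : V →ₗ[k] W) (h : ∀ w, ∃ v, L₀ v = w) {c : V} (hc : L₀ c = 0) :
    ∃ v : k → V, PolyV v ∧ v 0 = c ∧ ∀ s : k, L₀ (v s) + s • L₁ (v s) + s ^ 2 • L₂ (v s) = 0 := by
  refine liftV (fun s => L₀ + s • L₁ + s ^ 2 • L₂) 0 (fun w => ?_) (fun _ => c) (PolyV.const c)
    (fun s => L₁ c + s • L₂ c) ((PolyV.const _).add (PolyV.const _).id_smul) (fun s => ?_)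
  · obtain ⟨v, hv⟩ := h w
    refine ⟨fun _ => v, PolyV.const v, fun s => L₁ v + s • L₂ v,
      (PolyV.const _).add (PolyV.const _).id_smul, fun s => ?_⟩
    simp [hv, pow_two, mul_smul, smul_add, add_assoc]
  · simp [hc, pow_two, mul_smul, smul_add]

/-- two steps: `L(s) = L₀ + s L₁ + s² L₂`, `L₁ (ker L₀) + range L₀ = W`, `L₀ c = 0` and `L₁ c` is
in the range of `L₀` -/
theorem lift2 (L₀ L₁ L₂ : V →ₗ[k] W) (h : ∀ w, ∃ u v, L₀ u = 0 ∧ L₁ u + L₀ v = w) {c c₁ : V}
    (hc : L₀ c = 0) (hc1 : L₁ c + L₀ c₁ = 0) :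
    ∃ v : k → V, PolyV v ∧ v 0 = c ∧ ∀ s : k, L₀ (v s) + s • L₁ (v s) + s ^ 2 • L₂ (v s) = 0 := by
  have key := liftV (fun s => L₀ + s • L₁ + s ^ 2 • L₂) 1 (fun w => ?_) (fun s => c + s • c₁)
    ((PolyV.const c).add (PolyV.const _).id_smul)
    (fun s => (L₁ c₁ + L₂ c) + s • L₂ c₁) ((PolyV.const _).add (PolyV.const _).id_smul)
    (fun s => ?_)
  · obtain ⟨v, h1, h2, h3⟩ := key
    exact ⟨v, h1, by simpa using h2, h3⟩
  · obtain ⟨u, v, hu, huv⟩ := h w
    refine ⟨fun s => u + s • v, (PolyV.const u).add (PolyV.const _).id_smul,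
      fun s => (L₁ v + L₂ u) + s • L₂ v, (PolyV.const _).add (PolyV.const _).id_smul,
      fun s => ?_⟩
    simp only [LinearMap.add_apply, LinearMap.smul_apply, map_add, map_smul, hu, ← huv]
    module
  · simp only [LinearMap.add_apply, LinearMap.smul_apply, map_add, map_smul, hc]
    have : L₁ c = -L₀ c₁ := by rw [eq_neg_iff_add_eq_zero, hc1]
    rw [this]
    module

end Lin

/-! ### commuting matrices -/

section Comm

variable {n : Type*} [Fintype n] [DecidableEq n]

/-- commutator with `B`, from the space `V` to the space `W` of matrices -/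
def bra (V W : Submodule k (Matrix n n k)) {B : Matrix n n k}
    (hB : ∀ X ∈ V, B * X - X * B ∈ W) : V →ₗ[k] W where
  toFun X := ⟨B * X - X * B, hB X X.2⟩
  map_add' X Y := by
    ext i j
    simp only [Submodule.coe_add, mul_add, add_mul, Matrix.sub_apply, Matrix.add_apply]
    ring
  map_smul' r X := by
    ext i j
    simp only [Submodule.coe_smul, Matrix.mul_smul, Matrix.smul_mul, Matrix.sub_apply,
      Matrix.smul_apply, RingHom.id_apply, smul_eq_mul]
    ring

theorem bra_coe (V W : Submodule k (Matrix n n k)) {B : Matrix n n k}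
    (hB : ∀ X ∈ V, B * X - X * B ∈ W) (X : V) :
    ((bra V W hB X : W) : Matrix n n k) = B * X - X * B := rfl

/-- if every element of `W` is a commutator `[B, X]` with `X ∈ V` then `C` follows every linear
move `B + s B₁` -/
theorem comm1 (V W : Submodule k (Matrix n n k)) {B B₁ C : Matrix n n k}
    (hB : ∀ X ∈ V, B * X - X * B ∈ W) (hB₁ : ∀ X ∈ V, B₁ * X - X * B₁ ∈ W) (hC : C ∈ V)
    (hBC : B * C = C * B) (h : ∀ w ∈ W, ∃ X ∈ V, B * X - X * B = w) :
    ∃ C' : k → Matrix n n k, (∀ x y, D7.IsPoly fun s => C' s x y) ∧ C' 0 = C ∧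
      (∀ s, C' s ∈ V) ∧ ∀ s, (B + s • B₁) * C' s = C' s * (B + s • B₁) := by
  obtain ⟨v, hv, hv0, hv1⟩ := lift1 (bra V W hB) (bra V W hB₁) 0
    (fun w => by
      obtain ⟨X, hX, hw⟩ := h w w.2
      exact ⟨⟨X, hX⟩, Subtype.ext hw⟩)
    (c := ⟨C, hC⟩) (Subtype.ext (by rw [bra_coe]; simp [hBC]))
  refine ⟨fun s => v s, fun x y => ?_, by simp only [hv0], fun s => (v s).2, fun s => ?_⟩
  · exact (hv.map V.subtype).entry x y
  · have h1 := congrArg (Subtype.val) (hv1 s)
    simp only [Submodule.coe_add, Submodule.coe_smul, bra_coe, LinearMap.zero_apply, smul_zero,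
      add_zero, Submodule.coe_zero] at h1
    rw [← sub_eq_zero, ← h1]
    ext i j
    simp only [add_mul, mul_add, Matrix.smul_mul, Matrix.mul_smul, Matrix.sub_apply,
      Matrix.add_apply, Matrix.smul_apply, smul_eq_mul]
    ring

/-- two steps: every element of `W` is `[B₁, X] + [B, Y]` with `X, Y ∈ V`, `[B, X] = 0`, and
`[B₁, C] + [B, C₁] = 0` for some `C₁ ∈ V`; then `C` follows the linear move `B + s B₁` -/
theorem comm2 (V W : Submodule k (Matrix n n k)) {B B₁ C C₁ : Matrix n n k}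
    (hB : ∀ X ∈ V, B * X - X * B ∈ W) (hB₁ : ∀ X ∈ V, B₁ * X - X * B₁ ∈ W) (hC : C ∈ V)
    (hC₁ : C₁ ∈ V) (hBC : B * C = C * B) (h1 : (B₁ * C - C * B₁) + (B * C₁ - C₁ * B) = 0)
    (h : ∀ w ∈ W, ∃ X ∈ V, ∃ Y ∈ V, B * X = X * B ∧ (B₁ * X - X * B₁) + (B * Y - Y * B) = w) :
    ∃ C' : k → Matrix n n k, (∀ x y, D7.IsPoly fun s => C' s x y) ∧ C' 0 = C ∧
      (∀ s, C' s ∈ V) ∧ ∀ s, (B + s • B₁) * C' s = C' s * (B + s • B₁) := by
  obtain ⟨v, hv, hv0, hv1⟩ := lift2 (bra V W hB) (bra V W hB₁) 0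
    (fun w => by
      obtain ⟨X, hX, Y, hY, hw1, hw2⟩ := h w w.2
      refine ⟨⟨X, hX⟩, ⟨Y, hY⟩, Subtype.ext ?_, Subtype.ext ?_⟩
      · rw [bra_coe]; simp [hw1]
      · simpa [bra_coe] using hw2)
    (c := ⟨C, hC⟩) (c₁ := ⟨C₁, hC₁⟩) (Subtype.ext (by rw [bra_coe]; simp [hBC]))
    (Subtype.ext (by simpa [bra_coe] using h1))
  refine ⟨fun s => v s, fun x y => ?_, by simp only [hv0], fun s => (v s).2, fun s => ?_⟩
  · exact (hv.map V.subtype).entry x y
  · have h1 := congrArg (Subtype.val) (hv1 s)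
    simp only [Submodule.coe_add, Submodule.coe_smul, bra_coe, LinearMap.zero_apply, smul_zero,
      add_zero, Submodule.coe_zero] at h1
    rw [← sub_eq_zero, ← h1]
    ext i j
    simp only [add_mul, mul_add, Matrix.smul_mul, Matrix.mul_smul, Matrix.sub_apply,
      Matrix.add_apply, Matrix.smul_apply, smul_eq_mul]
    ring

variable {ρ : ℕ → ℕ}

theorem MaxR.lift_fam [Infinite k] {A B B₁ C : Matrix n n k} (hT : MaxR ρ ![A, B, C])
    {C' : k → Matrix n n k} (hp : ∀ x y, D7.IsPoly fun s => C' s x y) (h0 : C' 0 = C)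
    (hcn : ∀ s, CN ![A, B + s • B₁, C' s]) :
    ∃ E : Set k, E.Finite ∧ ∀ s ∉ E, MaxR ρ ![A, B + s • B₁, C' s] := by
  refine hT.deform (fun s => ![A, B + s • B₁, C' s]) ?_ ?_ Set.finite_empty fun s _ => hcn s
  · intro i x y
    fin_cases i
    · exact D7.IsPoly.const _
    · exact (D7.IsPoly.const (B x y)).add (D7.IsPoly.id.mul (D7.IsPoly.const (B₁ x y)))
    · exact hp x y
  · simp [h0]

/-- lifting lemma, one step, for maximal triples: `V` = a linear space of nilpotent matrices which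
commute with `A` -/
theorem MaxR.move1 [Infinite k] {A B B₁ C : Matrix n n k} (hT : MaxR ρ ![A, B, C])
    (V W : Submodule k (Matrix n n k)) (hVA : ∀ X ∈ V, A * X = X * A)
    (hVn : ∀ X ∈ V, IsNilpotent X) (hVW : ∀ X ∈ V, ∀ Y ∈ V, X * Y - Y * X ∈ W)
    (hB : B ∈ V) (hB₁ : B₁ ∈ V) (hC : C ∈ V) (h : ∀ w ∈ W, ∃ X ∈ V, B * X - X * B = w) :
    ∃ C' : k → Matrix n n k, (∀ x y, D7.IsPoly fun s => C' s x y) ∧ C' 0 = C ∧
      (∀ s, C' s ∈ V) ∧ (∀ s, (B + s • B₁) * C' s = C' s * (B + s • B₁)) ∧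
      ∃ E : Set k, E.Finite ∧ ∀ s ∉ E, MaxR ρ ![A, B + s • B₁, C' s] := by
  obtain ⟨C', h1, h2, h3, h4⟩ := comm1 V W (fun X hX => hVW B hB X hX)
    (fun X hX => hVW B₁ hB₁ X hX) hC (hT.cn.1 1 2) h
  refine ⟨C', h1, h2, h3, h4, MaxR.lift_fam hT h1 h2 fun s => ?_⟩
  have hBs : B + s • B₁ ∈ V := V.add_mem hB (V.smul_mem s hB₁)
  exact D8.cn3 (hVA _ hBs) (hVA _ (h3 s)) (h4 s) (hT.cn.2 0) (hVn _ hBs) (hVn _ (h3 s))

/-- lifting lemma, two steps, for maximal triples -/
theorem MaxR.move2 [Infinite k] {A B B₁ C C₁ : Matrix n n k} (hT : MaxR ρ ![A, B, C])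
    (V W : Submodule k (Matrix n n k)) (hVA : ∀ X ∈ V, A * X = X * A)
    (hVn : ∀ X ∈ V, IsNilpotent X) (hVW : ∀ X ∈ V, ∀ Y ∈ V, X * Y - Y * X ∈ W)
    (hB : B ∈ V) (hB₁ : B₁ ∈ V) (hC : C ∈ V) (hC₁ : C₁ ∈ V)
    (h1 : (B₁ * C - C * B₁) + (B * C₁ - C₁ * B) = 0)
    (h : ∀ w ∈ W, ∃ X ∈ V, ∃ Y ∈ V, B * X = X * B ∧ (B₁ * X - X * B₁) + (B * Y - Y * B) = w) :
    ∃ C' : k → Matrix n n k, (∀ x y, D7.IsPoly fun s => C' s x y) ∧ C' 0 = C ∧
      (∀ s, C' s ∈ V) ∧ (∀ s, (B + s • B₁) * C' s = C' s * (B + s • B₁)) ∧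
      ∃ E : Set k, E.Finite ∧ ∀ s ∉ E, MaxR ρ ![A, B + s • B₁, C' s] := by
  obtain ⟨C', h1, h2, h3, h4⟩ := comm2 V W (fun X hX => hVW B hB X hX)
    (fun X hX => hVW B₁ hB₁ X hX) hC hC₁ (hT.cn.1 1 2) h1 h
  refine ⟨C', h1, h2, h3, h4, MaxR.lift_fam hT h1 h2 fun s => ?_⟩
  have hBs : B + s • B₁ ∈ V := V.add_mem hB (V.smul_mem s hB₁)
  exact D8.cn3 (hVA _ hBs) (hVA _ (h3 s)) (h4 s) (hT.cn.2 0) (hVn _ hBs) (hVn _ (h3 s))

end Comm

end Pool.Agent.Lib.D13
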