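import Pool.Agent.Lib.D13.Fdc
import Pool.Agent.Lib.D13.Lift

/-!
# MP_5dcbc3_ag: one certificate for all graded triples with a surjective commutation map

`GR al be` is the graded triple on `V1 + V2 + V3` with the maps `al i : V1 → V2`,
`be i : V2 → V3`. If the commutation map `d ↦ d_(i+1) al_(i+2) - d_(i+2) al_(i+1)` is onto at the
base point, then every commuting graded triple with the same property is a limit of curvilinear
triples: it is joined with the base point by a polynomial curve of commuting graded triples.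
-/

namespace Pool.Agent.Lib.D13

open Matrix Pool.Agent.Lib.Q5dc Pool.Agent.Lib.D7

variable {k : Type*} [Field k]

/-- graded triple with three levels -/
def GR {I J L : Type*} (al : Fin 3 → Matrix J I k) (be : Fin 3 → Matrix L J k) (i : Fin 3) :
    Matrix (I ⊕ (J ⊕ L)) (I ⊕ (J ⊕ L)) k :=
  Matrix.of fun x y => match x, y with
    | .inr (.inl b), .inl a => al i b a
    | .inr (.inr c), .inr (.inl b) => be i c b
    | _, _ => 0

/-- the level function -/
def lv3 {I J L : Type*} : I ⊕ (J ⊕ L) → ℕ
  | .inl _ => 0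
  | .inr (.inl _) => 1
  | .inr (.inr _) => 2

/-- the commutation map is onto -/
def Sj {I J : Type*} [Fintype J] (al : Fin 3 → Matrix J I k) : Prop :=
  ∀ g : Fin 3 → I → k, ∃ d : Fin 3 → J → k,
    ∀ i, d (i + 1) ᵥ* al (i + 2) - d (i + 2) ᵥ* al (i + 1) = g i

section

variable {I J L : Type*} [Fintype I] [Fintype J] [Fintype L] [DecidableEq I] [DecidableEq J]
  [DecidableEq L]

/-- commutation map -/
def Phi (al : Fin 3 → Matrix J I k) : (Fin 3 → Matrix L J k) →ₗ[k] (Fin 3 → Matrix L I k) where
  toFun be i := be (i + 1) * al (i + 2) - be (i + 2) * al (i + 1)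
  map_add' b b' := by
    funext i
    simp only [Pi.add_apply, Matrix.add_mul]
    abel
  map_smul' r b := by
    funext i
    simp only [Pi.smul_apply, Matrix.smul_mul, RingHom.id_apply, smul_sub]

omit [Fintype I] [Fintype L] [DecidableEq I] [DecidableEq J] [DecidableEq L] in
theorem phi_eq_zero {al : Fin 3 → Matrix J I k} {be : Fin 3 → Matrix L J k} :
    Phi al be = 0 ↔ ∀ i j, be i * al j = be j * al i := by
  constructor
  · intro h i j
    have h0 : be 1 * al 2 - be 2 * al 1 = 0 := congrFun h 0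
    have h1 : be 2 * al 0 - be 0 * al 2 = 0 := congrFun h 1
    have h2 : be 0 * al 1 - be 1 * al 0 = 0 := congrFun h 2
    rw [sub_eq_zero] at h0 h1 h2
    fin_cases i <;> fin_cases j <;>
      first | rfl | exact h0 | exact h1 | exact h2 | exact h0.symm | exact h1.symm | exact h2.symm
  · intro h
    funext i
    change be (i + 1) * al (i + 2) - be (i + 2) * al (i + 1) = 0
    rw [h (i + 1) (i + 2), sub_self]

omit [Fintype I] [Fintype L] [DecidableEq I] [DecidableEq J] [DecidableEq L] in
theorem phi_onto {al : Fin 3 → Matrix J I k} (h : Sj al) (g : Fin 3 → Matrix L I k) :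
    ∃ be : Fin 3 → Matrix L J k, Phi al be = g := by
  choose d hd using fun l => h fun i => g i l
  refine ⟨fun i => Matrix.of fun l => d l i, ?_⟩
  funext i
  ext l a
  have h1 := congrFun (hd l i) a
  rw [← h1]
  rfl

theorem isPoly_flip {f : k → k} (h : IsPoly f) : IsPoly fun s => f (1 - s) := by
  obtain ⟨p, hp⟩ := h
  exact ⟨p.comp (1 - Polynomial.X), fun s => by simp [hp]⟩

omit [DecidableEq I] [DecidableEq J] [DecidableEq L] in
/-- joining two commuting graded triples -/
theorem join {al0 al1 : Fin 3 → Matrix J I k} {be0 be1 : Fin 3 → Matrix L J k}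
    (h0 : Phi al0 be0 = 0) (h1 : Phi al1 be1 = 0) (s0 : Sj al0) (s1 : Sj al1) :
    ∃ be : k → Fin 3 → Matrix L J k, (∀ i x y, IsPoly fun s => be s i x y) ∧ be 0 = be0 ∧
      be 1 = be1 ∧ ∀ s, Phi (al0 + s • (al1 - al0)) (be s) = 0 := by
  have lin : ∀ (a b : Fin 3 → Matrix J I k) (s : k) (be : Fin 3 → Matrix L J k),
      Phi (a + s • b) be = Phi a be + s • Phi b be + s ^ 2 • (0 : (Fin 3 → Matrix L J k) →ₗ[k]
        (Fin 3 → Matrix L I k)) be := by
    intro a b s be
    funext i
    change be (i + 1) * (a (i + 2) + s • b (i + 2)) - be (i + 2) * (a (i + 1) + s • b (i + 1)) =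
      be (i + 1) * a (i + 2) - be (i + 2) * a (i + 1) +
        s • (be (i + 1) * b (i + 2) - be (i + 2) * b (i + 1)) + s ^ 2 • (0 : Matrix L I k)
    rw [Matrix.mul_add, Matrix.mul_add, Matrix.mul_smul, Matrix.mul_smul, smul_zero, smul_sub]
    abel
  obtain ⟨v, hv, hv0, hvs⟩ := lift1 (Phi al0) (Phi (al1 - al0)) 0 (phi_onto s0) h0
  obtain ⟨w, hw, hw0, hws⟩ := lift1 (Phi al1) (Phi (al0 - al1)) 0 (phi_onto s1) h1
  have pe : ∀ (u : k → Fin 3 → Matrix L J k), PolyV u → ∀ i x y, IsPoly fun s => u s i x y := by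
    intro u hu i x y
    exact (hu.map ((Matrix.entryLinearMap k k x y) ∘ₗ (LinearMap.proj i))).isPoly
  refine ⟨fun s => (1 - s) • v s + s • w (1 - s), ?_, ?_, ?_, ?_⟩
  · intro i x y
    exact (((D7.IsPoly.const 1).sub D7.IsPoly.id).mul (pe v hv i x y)).add
      (D7.IsPoly.id.mul (isPoly_flip (pe w hw i x y)))
  · simp [hv0]
  · simp [hw0]
  · intro s
    have e1 : Phi (al0 + s • (al1 - al0)) (v s) = 0 := by rw [lin, hvs]
    have e2 : Phi (al0 + s • (al1 - al0)) (w (1 - s)) = 0 := by
      have h3 : al0 + s • (al1 - al0) = al1 + (1 - s) • (al0 - al1) := by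
        module
      rw [h3, lin, hws]
    rw [map_add, map_smul, map_smul, e1, e2, smul_zero, smul_zero, add_zero]

omit [DecidableEq I] [DecidableEq J] [DecidableEq L] in
theorem GR_mul (al al' : Fin 3 → Matrix J I k) (be be' : Fin 3 → Matrix L J k) (i j : Fin 3) :
    GR al be i * GR al' be' j = Matrix.of fun x y => match x, y with
      | .inr (.inr c), .inl a => (be i * al' j) c a
      | _, _ => 0 := by
  ext x y
  rw [Matrix.mul_apply, Fintype.sum_sum_type, Fintype.sum_sum_type]
  rcases x with x | (x | x) <;> rcases y with y | (y | y) <;> simp [GR, Matrix.mul_apply]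

omit [DecidableEq I] [DecidableEq J] [DecidableEq L] in
theorem GR_comm {al : Fin 3 → Matrix J I k} {be : Fin 3 → Matrix L J k}
    (h : ∀ i j, be i * al j = be j * al i) (i j : Fin 3) :
    GR al be i * GR al be j = GR al be j * GR al be i := by
  rw [GR_mul, GR_mul, h]

/-- one base point with a certificate is enough for all commuting graded triples whose commutation
map is onto -/
theorem cl_GR_of_cert [Infinite k] {N0 : Matrix (I ⊕ (J ⊕ L)) (I ⊕ (J ⊕ L)) k}
    (h1 : N0 ^ Fintype.card (I ⊕ (J ⊕ L)) = 0) (h2 : N0 ^ (Fintype.card (I ⊕ (J ⊕ L)) - 1) ≠ 0)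
    {X : Fin 3 → Matrix (I ⊕ (J ⊕ L)) (I ⊕ (J ⊕ L)) k}
    (hX : ∀ i, ∃ p : Polynomial k, p.coeff 0 = 0 ∧ X i = Polynomial.aeval N0 p)
    (hdeg : ∀ i c a, X i (.inr (.inr c)) (.inl a) = 0) (cert : Cert lv3 N0 X 1)
    (hs0 : Sj fun i => Matrix.of fun b a => X i (.inr (.inl b)) (.inl a))
    (al : Fin 3 → Matrix J I k) (be : Fin 3 → Matrix L J k)
    (hc : ∀ i j, be i * al j = be j * al i) (hs : Sj al) : Cl (GR al be) := by
  set al0 : Fin 3 → Matrix J I k := fun i => Matrix.of fun b a => X i (.inr (.inl b)) (.inl a)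
    with hal0
  set be0 : Fin 3 → Matrix L J k := fun i => Matrix.of fun c b => X i (.inr (.inr c))
    (.inr (.inl b)) with hbe0
  have hXX : ∀ i j, X i * X j = X j * X i := by
    intro i j
    obtain ⟨p, -, hp⟩ := hX i
    obtain ⟨q, -, hq⟩ := hX j
    rw [hp, hq, ← map_mul, ← map_mul, mul_comm]
  have hent : ∀ i j c a, (X i * X j) (.inr (.inr c)) (.inl a) = (be0 i * al0 j) c a := by
    intro i j c a
    rw [Matrix.mul_apply, Fintype.sum_sum_type, Fintype.sum_sum_type, Matrix.mul_apply]
    simp only [hdeg, zero_mul, mul_zero, Finset.sum_const_zero, zero_add, add_zero]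
    rfl
  have h0 : Phi al0 be0 = 0 := by
    rw [phi_eq_zero]
    intro i j
    ext c a
    rw [← hent, ← hent, hXX]
  obtain ⟨b, hb, hb0, hb1, hbs⟩ := join h0 (phi_eq_zero.2 hc) hs0 hs
  have key := fdc_graded (w := lv3) h1 h2 hX (by
    intro i x y hxy
    rcases x with x | (x | x) <;> rcases y with y | (y | y) <;>
      first | exact hdeg i x y | (exfalso; simp only [lv3] at hxy; omega)) cert
    (fun s => GR (al0 + s • (al - al0)) (b s)) (by
      intro i x y
      rcases x with x | (x | x) <;> rcases y with y | (y | y)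
      · exact D7.IsPoly.const 0
      · exact D7.IsPoly.const 0
      · exact D7.IsPoly.const 0
      · exact (D7.IsPoly.const (al0 i x y)).add (D7.IsPoly.id.mul
          (D7.IsPoly.const (al i x y - al0 i x y)))
      · exact D7.IsPoly.const 0
      · exact D7.IsPoly.const 0
      · exact D7.IsPoly.const 0
      · exact hb i x y
      · exact D7.IsPoly.const 0)
    (fun s => GR_comm (phi_eq_zero.1 (hbs s))) (by
      intro s i x y hxy
      rcases x with x | (x | x) <;> rcases y with y | (y | y) <;>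
        first | rfl | (exfalso; apply hxy; rfl)) (by
      intro i x y hxy
      rcases x with x | (x | x) <;> rcases y with y | (y | y) <;>
        first
        | (exfalso; simp only [lv3] at hxy; omega)
        | (simp [GR, hal0, hb0, hbe0])) 1
  have e1 : al0 + (1 : k) • (al - al0) = al := by
    rw [one_smul, add_sub_cancel]
  simp only [e1, hb1] at key
  exact key

end

section Reindex

variable {ι κ : Type*} [Fintype ι] [DecidableEq ι] [Fintype κ] [DecidableEq κ]

theorem Cert.reindex {w : ι → ℕ} {N0 : Matrix ι ι k} {X : Fin 3 → Matrix ι ι k} {m : ℕ}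
    (h : Cert w N0 X m) (e : κ ≃ ι) :
    Cert (fun x => w (e x)) (N0.submatrix e e) (fun i => (X i).submatrix e e) m := by
  intro E hE hE2
  have hsub : ∀ i, ((E i).submatrix e.symm e.symm).submatrix e e = E i := by
    intro i
    rw [Matrix.submatrix_submatrix]
    simp
  have hXE : ∀ A B : Matrix ι ι k, (A * B).submatrix e e = A.submatrix e e * B.submatrix e e :=
    fun A B => (Matrix.submatrix_mul_equiv A B e e e).symm
  obtain ⟨N, a, ha, hNa⟩ := h (fun i => (E i).submatrix e.symm e.symm) (by
    intro i x y hxy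
    exact hE i (e.symm x) (e.symm y) (by simpa using hxy)) (by
    intro i j x z hxz
    have h1 := hE2 i j (e.symm x) (e.symm z) (by simpa using hxz)
    have h2 : ((X i * (E j).submatrix e.symm e.symm + (E i).submatrix e.symm e.symm * X j -
        X j * (E i).submatrix e.symm e.symm - (E j).submatrix e.symm e.symm * X i).submatrix e e)
        (e.symm x) (e.symm z) = 0 := by
      rw [Matrix.submatrix_sub, Matrix.submatrix_sub, Matrix.submatrix_add]
      simp only [Pi.sub_apply, Pi.add_apply, hXE, hsub]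
      exact h1
    simpa using h2)
  refine ⟨N.submatrix e e, fun i => (a i).submatrix e e, ?_, ?_⟩
  · intro i
    obtain ⟨p, hp0, hp⟩ := ha i
    refine ⟨p, hp0, ?_⟩
    have h1 : ∀ M : Matrix ι ι k, (Matrix.reindexAlgEquiv k k e.symm) M = M.submatrix e e := by
      intro M
      rfl
    change (a i).submatrix e e = _
    rw [hp, ← h1, ← h1, Polynomial.aeval_algEquiv]
    rfl
  · intro i x y hxy
    have h1 := hNa i (e x) (e y) hxy
    have h2 : (X i * N - N * X i + a i).submatrix e e x y =
        ((E i).submatrix e.symm e.symm).submatrix e e x y := h1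
    rw [hsub, Matrix.submatrix_add, Matrix.submatrix_sub] at h2
    simp only [Pi.sub_apply, Pi.add_apply, hXE] at h2
    exact h2

end Reindex

section

variable {I J L : Type*} [Fintype I] [Fintype J] [Fintype L] [DecidableEq I] [DecidableEq J]
  [DecidableEq L] {ι : Type*} [Fintype ι] [DecidableEq ι]

/-- the criterion for a base point on an arbitrary index type -/
theorem cl_GR_of_cert' [Infinite k] (e : I ⊕ (J ⊕ L) ≃ ι) {w : ι → ℕ} (hw : ∀ x, w (e x) = lv3 x)
    {N0 : Matrix ι ι k} (h1 : N0 ^ Fintype.card ι = 0) (h2 : N0 ^ (Fintype.card ι - 1) ≠ 0)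
    {X : Fin 3 → Matrix ι ι k}
    (hX : ∀ i, ∃ p : Polynomial k, p.coeff 0 = 0 ∧ X i = Polynomial.aeval N0 p)
    (hdeg : ∀ i x y, w y + 2 ≤ w x → X i x y = 0) (cert : Cert w N0 X 1)
    (hs0 : Sj fun i => Matrix.of fun b a => X i (e (.inr (.inl b))) (e (.inl a)))
    (al : Fin 3 → Matrix J I k) (be : Fin 3 → Matrix L J k)
    (hc : ∀ i j, be i * al j = be j * al i) (hs : Sj al) : Cl (GR al be) := by
  have hr : ∀ M : Matrix ι ι k, (Matrix.reindexAlgEquiv k k e.symm) M = M.submatrix e e := by
    intro M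
    rfl
  have hcard : Fintype.card (I ⊕ (J ⊕ L)) = Fintype.card ι := Fintype.card_congr e
  have hcert : Cert lv3 (N0.submatrix e e) (fun i => (X i).submatrix e e) 1 := by
    have h3 := cert.reindex e
    have h4 : (fun x => w (e x)) = lv3 := funext hw
    rwa [h4] at h3
  refine cl_GR_of_cert (N0 := N0.submatrix e e) ?_ ?_ ?_ ?_ hcert hs0 al be hc hs
  · rw [hcard, ← hr, ← map_pow, h1, map_zero]
  · rw [hcard, ← hr, ← map_pow]
    intro h
    exact h2 ((map_eq_zero_iff _ (Matrix.reindexAlgEquiv k k e.symm).injective).1 h)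
  · intro i
    obtain ⟨p, hp0, hp⟩ := hX i
    refine ⟨p, hp0, ?_⟩
    simp only [hp]
    rw [← hr, ← hr, Polynomial.aeval_algEquiv]
    rfl
  · intro i c a
    exact hdeg i _ _ (by rw [hw, hw]; simp [lv3])

end

end Pool.Agent.Lib.D13
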