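import Pool.Agent.Lib.D13.C253
import Pool.Agent.Lib.D13.Surj
import Pool.Agent.Lib.D10.FamsC

/-!
# MP_5dcbc3_ag: all triples `TR 3 R` are limits of curvilinear triples
-/

namespace Pool.Agent.Lib.D13

open Matrix Pool.Agent.Lib.Q5dc Pool.Agent.Lib.D7 Pool.Agent.Lib.D9.DensX Pool.Agent.Lib.D10

namespace ClTRAux

/-- the basis of the base point -/
def ex : Fin 2 ⊕ (Fin 5 ⊕ Fin 3) ≃ Fin (9 + 1) where
  toFun := Sum.elim ![0, 1] (Sum.elim ![2, 3, 4, 6, 8] ![5, 7, 9])
  invFun := ![.inl 0, .inl 1, .inr (.inl 0), .inr (.inl 1), .inr (.inl 2), .inr (.inr 0),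
    .inr (.inl 3), .inr (.inr 1), .inr (.inl 4), .inr (.inr 2)]
  left_inv := by
    intro x
    rcases x with x | (x | x) <;> fin_cases x <;> rfl
  right_inv := by
    intro x
    fin_cases x <;> rfl

variable {k : Type*} [Field k]

/-- the maps `V0 → V1` -/
def al (k : Type*) [Field k] (i : Fin 3) : Matrix (Fin 5) (Fin 2) k :=
  Matrix.of fun a b => if a = ra i b then 1 else 0

/-- the maps `V1 → V2` -/
def be {c : ℕ} (R : Fin 9 × Fin c → k) (i : Fin 3) : Matrix (Fin c) (Fin 5) k :=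
  Matrix.of fun m j => R (rb i j, m)

theorem TR_eq {c : ℕ} (R : Fin 9 × Fin c → k) : TR c R = GR (al k) (be R) := by
  funext i
  ext x y
  rcases x with x | (x | x) <;> rcases y with y | (y | y) <;> rfl

theorem al_comm {c : ℕ} (R : Fin 9 × Fin c → k) (i j : Fin 3) :
    be R i * al k j = be R j * al k i := by
  ext m l
  simp only [Matrix.mul_apply, be, al, Matrix.of_apply, mul_ite, mul_one, mul_zero,
    Finset.sum_ite_eq', Finset.mem_univ, if_true]
  congr 2
  fin_cases i <;> fin_cases j <;> fin_cases l <;> rfl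

theorem al_sj : Sj (al k) := by
  intro g
  refine ⟨![![0, 0, 0, 0, 0], ![-g 2 0, -g 2 1, g 0 1, 0, g 0 0], ![g 1 0, g 1 1, 0, 0, 0]],
    fun i => ?_⟩
  funext l
  simp only [Pi.sub_apply, Matrix.vecMul, dotProduct, Fin.sum_univ_five, al, Matrix.of_apply]
  fin_cases i <;> fin_cases l <;> simp [ra]

theorem base_sj : Sj fun i => Matrix.of fun b a => (Sh k 9 ^ C253.av i) (ex (.inr (.inl b)))
    (ex (.inl a)) := by
  intro g
  refine ⟨![![g 2 0, -g 1 0, -g 1 1, 0, 0], ![-g 1 0 - g 2 1, g 0 0, g 0 1, 0, 0],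
    ![0, 0, 0, 0, 0]], fun i => ?_⟩
  funext l
  simp only [Pi.sub_apply, Matrix.vecMul, dotProduct, Fin.sum_univ_five, Matrix.of_apply, Sh_pow]
  fin_cases i <;> fin_cases l <;> simp [ex, C253.av]

end ClTRAux

open ClTRAux in
/-- all triples `TR 3 R` are limits of curvilinear triples -/
theorem cl_TR3 {k : Type*} [Field k] [CharZero k] (R : Fin 9 × Fin 3 → k) : Cl (TR 3 R) := by
  rw [TR_eq]
  refine cl_GR_of_cert' ex (w := C253.w) ?_ sh_card sh_card'
    (X := fun i => Sh k 9 ^ C253.av i) ?_ ?_ C253.cert1 base_sj _ _ (al_comm R) al_sj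
  · intro x
    rcases x with x | (x | x) <;> fin_cases x <;> rfl
  · intro i
    refine ⟨Polynomial.X ^ C253.av i, ?_, by simp⟩
    rw [Polynomial.coeff_X_pow, if_neg]
    fin_cases i <;> decide
  · intro i x y hxy
    rw [Sh_pow, Matrix.of_apply, if_neg]
    revert hxy
    revert i x y
    decide

end Pool.Agent.Lib.D13
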