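import Pool.Agent.Lib.D13.Axis

/-!
# MP_5dcbc3_ag: coextensions by a special element of the socle

`T_i + s g ⊗ ψ_i` with `T_i g = 0`, `ψ_i g = 0`, `ψ_i T_j = ψ_j T_i`: if `ρ 4 = 0` and `g ≠ 0`, then `ψ_i T_j T_l T_m = 0`
for a maximal triple.
-/

set_option autoImplicit false

namespace Pool.Agent.Lib.D13

open Matrix Pool.Agent.Lib.Q5dc Pool.Agent.Lib.D7

variable {k n : Type*} [Field k] [Fintype n] [DecidableEq n] {ρ : ℕ → ℕ}

/-- polarization in a commutative algebra -/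
theorem h23_polar4c {R : Type*} [CommRing R] [Algebra k R] [CharZero k] (a b c d : R)
    (h : ∀ x y z t : k, (x • a + y • b + z • c + t • d) ^ 4 = 0) : a * b * c * d = 0 := by
  have e1 := h 1 1 1 1
  have e2 := h 1 1 1 0
  have e3 := h 1 1 0 1
  have e4 := h 1 0 1 1
  have e5 := h 0 1 1 1
  have e6 := h 1 1 0 0
  have e7 := h 1 0 1 0
  have e8 := h 1 0 0 1
  have e9 := h 0 1 1 0
  have e10 := h 0 1 0 1
  have e11 := h 0 0 1 1
  have e12 := h 1 0 0 0
  have e13 := h 0 1 0 0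
  have e14 := h 0 0 1 0
  have e15 := h 0 0 0 1
  simp only [one_smul, zero_smul, add_zero, zero_add]
    at e1 e2 e3 e4 e5 e6 e7 e8 e9 e10 e11 e12 e13 e14 e15
  have e0 : (24 : k) • (a * b * c * d) = 24 * (a * b * c * d) := by
    rw [Algebra.smul_def, map_ofNat]
  have e : (24 : k) • (a * b * c * d) = 0 := by
    rw [e0]
    linear_combination e1 - e2 - e3 - e4 - e5 + e6 + e7 + e8 + e9 + e10 + e11 - e12 - e13 - e14 -
      e15
  have h24 : (24 : k) ≠ 0 := by norm_num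
  exact (smul_eq_zero.1 e).resolve_left h24

/-- polarization -/
theorem h23_polar4 {A : Type*} [Ring A] [Algebra k A] [CharZero k] {a b c d : A}
    (hab : a * b = b * a) (hac : a * c = c * a) (had : a * d = d * a) (hbc : b * c = c * b)
    (hbd : b * d = d * b) (hcd : c * d = d * c)
    (h : ∀ x y z t : k, (x • a + y • b + z • c + t • d) ^ 4 = 0) : a * b * c * d = 0 := by
  have hcomm : ∀ x ∈ ({a, b, c, d} : Set A), ∀ y ∈ ({a, b, c, d} : Set A), x * y = y * x := by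
    rintro x (rfl | rfl | rfl | rfl) y (rfl | rfl | rfl | rfl)
    all_goals first | rfl | assumption | (symm; assumption)
  set R := Algebra.adjoin k ({a, b, c, d} : Set A) with hR
  let inst : CommRing R := Algebra.adjoinCommRingOfComm k hcomm
  let a' : R := ⟨a, Algebra.subset_adjoin (by simp)⟩
  let b' : R := ⟨b, Algebra.subset_adjoin (by simp)⟩
  let c' : R := ⟨c, Algebra.subset_adjoin (by simp)⟩
  let d' : R := ⟨d, Algebra.subset_adjoin (by simp)⟩
  have h' : ∀ x y z t : k, (x • a' + y • b' + z • c' + t • d') ^ 4 = 0 := by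
    intro x y z t
    exact Subtype.ext (h x y z t)
  exact congrArg Subtype.val (h23_polar4c (k := k) a' b' c' d' h')

/-- if `ρ 4 = 0`, the products of four elements vanish -/
theorem h23_mul4 [Infinite k] [CharZero k] {T : Fin 3 → Matrix n n k} (hT : MaxR ρ T) (h4 : ρ 4 = 0)
    (i j l m : Fin 3) : T i * T j * T l * T m = 0 := by
  refine h23_polar4 (k := k) (hT.cn.1 i j) (hT.cn.1 i l) (hT.cn.1 i m) (hT.cn.1 j l) (hT.cn.1 j m)
    (hT.cn.1 l m) fun x y z t => ?_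
  refine hT.pow_eq_zero ?_ h4
  exact add_mem (add_mem (add_mem (SMulMemClass.smul_mem _ (mem_adj T i))
    (SMulMemClass.smul_mem _ (mem_adj T j))) (SMulMemClass.smul_mem _ (mem_adj T l)))
    (SMulMemClass.smul_mem _ (mem_adj T m))

/-- the family `T_i + s g ⊗ ψ_i` -/
theorem cn_coext {T : Fin 3 → Matrix n n k} (hT : CN T) {ψ : Fin 3 → n → k} {g : n → k}
    (hTg : ∀ i, T i *ᵥ g = 0) (hψg : ∀ i, ψ i ⬝ᵥ g = 0)
    (hψ : ∀ i j, ψ i ᵥ* T j = ψ j ᵥ* T i) (s : k) :
    CN fun i => T i + s • vecMulVec g (ψ i) := by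
  refine ⟨fun i j => ?_, fun i => ?_⟩
  · show (T i + s • vecMulVec g (ψ i)) * (T j + s • vecMulVec g (ψ j)) =
      (T j + s • vecMulVec g (ψ j)) * (T i + s • vecMulVec g (ψ i))
    simp only [add_mul, mul_add, smul_mul_assoc, mul_smul_comm, vmm, mvm, vmv, hTg, hψg, hψ i j,
      hT.1 i j]
    simp
  · obtain ⟨N, hN⟩ := hT.2 i
    have key : ∀ m, (T i + s • vecMulVec g (ψ i)) ^ (m + 1) =
        T i ^ (m + 1) + s • vecMulVec g (ψ i ᵥ* T i ^ m) := by
      intro m
      induction m with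
      | zero => simp
      | succ m ih =>
        rw [pow_succ', ih]
        simp only [add_mul, mul_add, smul_mul_assoc, mul_smul_comm, vmm, mvm, vmv, hTg, hψg]
        simp [pow_succ']
    refine ⟨N + 1, ?_⟩
    rw [key N, pow_succ, hN]
    simp

/-- COEXTENSION LEMMA, `ρ 4 = 0` -/
theorem coext4 [Infinite k] [CharZero k] {T : Fin 3 → Matrix n n k} (hT : MaxR ρ T)
    (h4 : ρ 4 = 0) {ψ : Fin 3 → n → k} {g : n → k} (hg : g ≠ 0)
    (hTg : ∀ i, T i *ᵥ g = 0) (hψg : ∀ i, ψ i ⬝ᵥ g = 0)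
    (hψ : ∀ i j, ψ i ᵥ* T j = ψ j ᵥ* T i) (i j l m : Fin 3) :
    ψ i ᵥ* (T j * T l * T m) = 0 := by
  obtain ⟨E', hE', h1⟩ := hT.deform (fun s i => T i + s • vecMulVec g (ψ i))
    (PolyFam.line T fun i => vecMulVec g (ψ i)) (by simp) Set.finite_empty
    (fun s _ => cn_coext hT.cn hTg hψg hψ s)
  obtain ⟨s, hs⟩ := (hE'.union (Set.finite_singleton (0 : k))).exists_notMem
  rw [Set.mem_union, not_or, Set.mem_singleton_iff] at hs
  have h2 := h23_mul4 (h1 s hs.1) h4 i j l m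
  have h3 := h23_mul4 hT h4 i j l m
  have z1 : ψ i ᵥ* T j ⬝ᵥ g = 0 := by rw [← Matrix.dotProduct_mulVec, hTg, dotProduct_zero]
  have z2 : ψ i ᵥ* (T j * T l) ⬝ᵥ g = 0 := by
    rw [← Matrix.dotProduct_mulVec, ← Matrix.mulVec_mulVec, hTg, Matrix.mulVec_zero,
      dotProduct_zero]
  simp only [add_mul, mul_add, smul_mul_assoc, mul_smul_comm, vmm, mvm, vmv, hTg, hψg, h3,
    ← Matrix.mulVec_mulVec] at h2
  simp [z1, z2] at h2
  exact (h2.resolve_left hs.2).resolve_left hg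

end Pool.Agent.Lib.D13
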