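import Pool.Agent.Lib.D13.Refl

/-!
# MP_5dcbc3_ag: density certificates, levels (3,5,4), d = 12: x, y, z = t + t^2, t^4, t^5, generators 1, t, t^2
-/

namespace Pool.Agent.Lib.D13.R354

open Refl

set_option maxRecDepth 100000

/-- the base point -/
def bs : Base where
  lev := [0, 0, 0, 1, 1, 1, 1, 1, 2, 2, 2, 2]
  pw := [[[(0, 1)], [(1, 1)], [(2, 1)], [(3, 1)], [(4, 1)], [(5, 1)], [(6, 1)], [(7, 1)], [(8, 1)],
      [(9, 1)], [(10, 1)], [(11, 1)]],
    [[], [(0, 1)], [(1, 1)], [(2, 1)], [(3, 1)], [(4, 1)], [(5, 1)], [(6, 1)], [(7, 1)], [(8,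
      1)], [(9, 1)], [(10, 1)]],
    [[], [], [(0, 1)], [(1, 1)], [(2, 1)], [(3, 1)], [(4, 1)], [(5, 1)], [(6, 1)], [(7, 1)],
      [(8, 1)], [(9, 1)]],
    [[], [], [], [(0, 1)], [(1, 1)], [(2, 1)], [(3, 1)], [(4, 1)], [(5, 1)], [(6, 1)], [(7,
      1)], [(8, 1)]],
    [[], [], [], [], [(0, 1)], [(1, 1)], [(2, 1)], [(3, 1)], [(4, 1)], [(5, 1)], [(6, 1)], [(7,
      1)]],
    [[], [], [], [], [], [(0, 1)], [(1, 1)], [(2, 1)], [(3, 1)], [(4, 1)], [(5, 1)], [(6, 1)]],
    [[], [], [], [], [], [], [(0, 1)], [(1, 1)], [(2, 1)], [(3, 1)], [(4, 1)], [(5, 1)]],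
    [[], [], [], [], [], [], [], [(0, 1)], [(1, 1)], [(2, 1)], [(3, 1)], [(4, 1)]],
    [[], [], [], [], [], [], [], [], [(0, 1)], [(1, 1)], [(2, 1)], [(3, 1)]],
    [[], [], [], [], [], [], [], [], [], [(0, 1)], [(1, 1)], [(2, 1)]],
    [[], [], [], [], [], [], [], [], [], [], [(0, 1)], [(1, 1)]],
    [[], [], [], [], [], [], [], [], [], [], [], [(0, 1)]]]
  xc := [[(1, 1), (2, 1)], [(4, 1)], [(5, 1)]]
  X := [[[], [(0, 1)], [(0, 1), (1, 1)], [(1, 1), (2, 1)], [(2, 1), (3, 1)], [(3, 1), (4, 1)], [(4,
      1), (5, 1)], [(5, 1), (6, 1)], [(6, 1), (7, 1)], [(7, 1), (8, 1)], [(8, 1), (9, 1)], [(9,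
      1), (10, 1)]],
    [[], [], [], [], [(0, 1)], [(1, 1)], [(2, 1)], [(3, 1)], [(4, 1)], [(5, 1)], [(6, 1)], [(7,
      1)]],
    [[], [], [], [], [], [(0, 1)], [(1, 1)], [(2, 1)], [(3, 1)], [(4, 1)], [(5, 1)], [(6, 1)]]]

theorem bs_ck : bs.ck 12 = true := by decide +kernel

/-- certificate -/
def ce1 : Cer where
  den := 8
  N := [[[(348, 8)],
      [(206, -4), (258, 4), (336, -4), (349, 8), (362, 4), (401, -4), (427, 4)],
      [(194, 8), (246, -8), (324, 8), (337, -16), (389, 8)],
      [],
      [],
      [],
      [],
      [],
      [],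
      [],
      [],
      []],
    [[(204, 8), (256, 8)],
      [(36, -8), (37, 8), (100, 8), (115, -8), (127, 8), (139, -8), (192, -8), (204, 8), (217,
      -8), (228, 8), (244, -8), (256, 8), (257, 8), (267, -8), (268, -8), (269, -8), (270, 8),
      (281, 8), (283, 8), (348, 8), (372, 8), (384, -8), (385, -8), (387, 8), (413, -8), (423,
      8), (426, -8)],
      [(362, 8), (427, 8)],
      [],
      [],
      [],
      [],
      [],
      [],
      [],
      [],
      []],
    [[(72, 3), (86, 3), (100, -2), (101, 4), (112, -3), (113, 6), (114, -4), (126, 6), (137,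
      -3), (139, 2), (217, 4), (228, -8), (240, -3), (243, -4), (254, 3), (267, 2), (268, 2),
      (279, 3), (281, -2), (372, 8), (373, -4), (384, 8), (399, 4), (408, -3), (410, -6), (411,
      -8), (421, 3), (423, -2)],
      [(36, -4), (100, -2), (101, 6), (127, -2), (139, 2), (204, 4), (217, 8), (228, -2), (243,
      -4), (256, 4), (267, 2), (268, 2), (269, 2), (281, -2), (372, 4), (384, 2), (385, -4),
      (386, -4), (399, 4), (423, -2)],
      [(50, 8), (115, -8), (192, -8), (257, 8), (270, 8), (283, 8), (348, 8), (386, -8), (399,
      8), (413, -8), (426, -8)],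
      [],
      [],
      [],
      [],
      [],
      [],
      [],
      [],
      []],
    [[(72, -6), (86, -6), (100, 4), (112, 6), (113, -4), (126, 4), (137, 6), (139, -4), (228,
      16), (240, 6), (254, 2), (267, -12), (268, -4), (279, -6), (281, 4), (384, -8), (408, 6),
      (410, 4), (421, -6), (423, 4)],
      [(72, 2), (86, 2), (100, -4), (112, -2), (113, 4), (126, 4), (137, -2), (139, 4), (228,
      -8), (240, -2), (254, 2), (267, 4), (268, 4), (279, 2), (281, -4), (384, 8), (385, 8),
      (408, -2), (410, -4), (411, -8), (421, 2), (423, -4)],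
      [(36, -8), (100, 4), (101, 4), (127, 4), (139, -4), (204, 8), (228, 4), (256, 8), (267,
      -4), (268, -4), (269, -4), (281, 4), (372, 8), (384, -4), (385, -8), (423, 4)],
      [(192, -8), (244, -8), (348, 8), (387, 8)],
      [(180, -8), (206, 4), (258, 4), (336, -4), (362, -4), (401, -4), (427, -4)],
      [(194, -4), (246, 4), (324, -12), (337, 8), (350, 4), (389, -4), (415, 4)],
      [(325, -8), (338, 4), (403, 4)],
      [(326, -4), (391, 4)],
      [],
      [],
      [],
      []],
    [[(72, 4), (86, 12), (112, 4), (125, 8), (137, -4), (228, -8), (240, 4), (254, -4), (266,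
      -8), (279, 4), (384, 8), (408, -4), (410, -8), (421, 4)],
      [(61, 8), (72, -4), (86, -4), (100, 8), (112, 4), (113, -8), (137, 4), (139, -8), (228,
      16), (240, 4), (254, 4), (267, -16), (268, -8), (279, -4), (281, 8), (384, -16), (385, -8),
      (408, 4), (410, 8), (411, 8), (421, -4), (423, 8)],
      [(36, 8), (62, 8), (72, 1), (86, 1), (100, -6), (101, -4), (112, -1), (113, 2), (114, -4),
      (126, 2), (127, -8), (137, -1), (139, 6), (204, -8), (217, 4), (228, -8), (240, -1), (243,
      -4), (254, 1), (267, 6), (268, 6), (269, 8), (279, 1), (281, -6), (372, -8), (373, -4),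
      (384, 8), (385, 8), (399, 4), (408, -1), (410, -2), (421, 1), (423, -6)],
      [(36, -4), (100, 2), (101, 2), (127, 2), (139, -2), (204, 4), (228, 2), (243, 4), (256, 4),
      (267, -2), (268, -2), (269, -2), (281, 2), (372, 4), (384, -2), (385, -4), (386, -4), (399,
      4), (423, 2)],
      [(192, -8), (348, 8)],
      [(336, -8)],
      [(194, -4), (246, 4), (324, -4), (350, 4), (389, -4), (415, 4)],
      [(338, -4), (403, 4)],
      [],
      [],
      [],
      []],
    [[(72, -8), (86, -24), (98, 8), (99, -16), (111, 8), (112, -16), (124, 16), (125, -24),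
      (137, 16), (228, 8), (240, 8), (252, 8), (254, 16), (266, 8), (267, 16), (278, -8), (279,
      -16), (384, -8), (408, 8), (410, 8), (421, -8)],
      [(72, -8), (86, 8), (112, 8), (137, 8), (240, 8), (254, -8), (266, -8), (408, 8), (409, 8),
      (421, -8), (422, -8)],
      [(72, -2), (86, -2), (100, 4), (112, 2), (113, -4), (126, 4), (137, 2), (139, -4), (228,
      8), (240, 2), (254, 6), (267, -12), (268, -4), (279, -2), (281, 4), (384, -8), (408, 2),
      (410, 4), (421, -2), (423, 4)],
      [],
      [(256, 8)],
      [],
      [(206, -4), (258, 4), (336, -4), (362, 4), (401, -4), (427, 4)],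
      [(194, 4), (246, -4), (324, 4), (337, -8), (350, -4), (389, 4), (415, 4)],
      [],
      [],
      [],
      []],
    [[(72, 8), (84, 8), (86, 16), (124, -8), (125, 16), (137, -16), (228, -16), (240, -8), (252,
      -8), (266, -8), (278, 8), (279, 16), (384, 16), (408, -8), (410, -16), (421, 8)],
      [(72, -8), (86, -16), (98, 8), (99, -16), (111, 8), (112, -16), (124, 16), (125, -16),
      (137, 8), (240, 8), (252, 8), (254, 16), (267, 16), (278, -8), (279, -8)],
      [(72, -4), (86, 4), (112, 4), (137, 4), (240, 4), (254, -4), (279, -4), (408, 4), (421,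
      -4)],
      [],
      [(36, 8), (62, 8), (72, -1), (74, -8), (86, -1), (100, -2), (101, -4), (112, 1), (113, -2),
      (114, -4), (126, 6), (127, -8), (137, 1), (139, 2), (204, -8), (217, 4), (240, 1), (243,
      -4), (254, 7), (267, -6), (268, 2), (269, 8), (279, -1), (281, -2), (372, -8), (373, -4),
      (385, 8), (399, 4), (408, 1), (410, 2), (421, -1), (423, -2)],
      [(36, -4), (100, -2), (101, 6), (127, -2), (139, 2), (204, 4), (228, -2), (243, -4), (256,
      4), (267, 2), (268, 2), (269, 2), (281, -2), (372, 4), (384, 2), (385, -4), (386, -4),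
      (399, 4), (423, -2)],
      [(270, 8), (413, -8)],
      [(427, 8)],
      [],
      [],
      [],
      []],
    [[(72, -16), (84, -8), (86, -64), (96, 8), (97, -16), (98, 32), (99, -64), (109, 8), (110,
      -16), (111, 32), (112, -64), (122, 8), (123, -16), (124, 48), (125, -64), (135, 8), (136,
      -8), (137, 32), (240, 16), (252, 24), (254, 64), (266, 16), (267, 64), (278, -24), (279,
      -32)],
      [],
      [(86, -8), (98, 8), (99, -16), (111, 8), (112, -16), (124, 8), (125, -8), (228, -8), (254,
      16), (267, 16), (384, 8), (410, -8)],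
      [],
      [(72, -6), (86, -6), (100, 4), (112, 6), (113, -4), (126, 4), (137, 6), (139, -4), (228,
      8), (240, 6), (254, 2), (267, -12), (268, -4), (279, -6), (281, 4), (384, -8), (408, 6),
      (410, 4), (421, -6), (423, 4)],
      [(36, 8), (62, 8), (72, -2), (74, -8), (86, -2), (100, -4), (112, 2), (113, -4), (114, -8),
      (126, 12), (127, -8), (137, 2), (139, -4), (204, -8), (217, 8), (240, 2), (243, -8), (254,
      14), (267, -12), (268, -4), (269, 8), (279, -2), (281, 4), (372, -8), (373, -8), (385, 8),
      (399, 8), (408, 2), (410, -4), (421, -2), (423, 4)],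
      [(100, -4), (101, 4), (127, -4), (139, 4), (217, 8), (228, -4), (243, -8), (267, 4), (268,
      4), (269, 4), (281, -4), (373, -8), (384, 4), (399, 8), (423, -4)],
      [(270, 8), (283, 8), (413, -8), (426, -8)],
      [],
      [],
      [],
      []],
    [[(72, -8), (84, 8), (86, 48), (96, -8), (97, 24), (98, -48), (99, 80), (108, 8), (109,
      -16), (110, 24), (111, -32), (112, 80), (121, 8), (122, -8), (123, 8), (124, -40), (125,
      48), (228, 32), (240, 8), (252, -32), (254, -80), (266, -8), (267, -80), (278, 32), (384,
      -32), (408, 32), (410, 32), (421, -32)],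
      [(72, -8), (86, -40), (97, -8), (98, 24), (99, -56), (109, 8), (110, -16), (111, 32), (112,
      -56), (122, 8), (123, -16), (124, 32), (125, -40), (135, 8), (136, -8), (137, 16), (228,
      -16), (240, 8), (252, 8), (254, 56), (266, 8), (267, 56), (278, -8), (279, -16), (384, 16),
      (410, -16)],
      [(86, -8), (97, -8), (98, 8), (99, -8), (112, -8), (124, 8), (125, -8), (252, 8), (254, 8),
      (267, 8), (278, -8), (408, -8), (421, 8)],
      [(72, -8), (86, -8), (99, -8), (111, 8), (112, -8), (124, 8), (125, -8), (137, 8), (240,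
      8), (254, 8), (267, 8), (279, -8), (408, 8), (421, -8)],
      [(72, 4), (86, 4), (99, -8), (112, -4), (137, -4), (228, -8), (240, -4), (254, 4), (267,
      8), (279, 4), (384, 8), (408, -4), (410, -8), (421, 4)],
      [(72, -4), (86, -4), (112, 4), (137, 4), (228, 8), (240, 4), (254, -4), (267, -8), (279,
      -4), (384, -8), (408, 4), (410, 8), (421, -4)],
      [(36, 8), (62, 8), (72, -3), (74, -8), (86, -3), (100, -6), (101, -4), (112, 3), (113, -6),
      (114, -4), (126, 10), (127, -8), (137, 3), (139, -2), (204, -8), (217, 4), (240, 3), (243,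
      -4), (254, 13), (267, -10), (268, -2), (269, 8), (279, -3), (281, 2), (372, -8), (373, -4),
      (385, 8), (399, 4), (408, 3), (410, -2), (421, -3), (423, 2)],
      [(36, -4), (100, 2), (101, 2), (127, 2), (139, -2), (204, 4), (228, 2), (243, -4), (256,
      4), (267, -2), (268, -2), (269, -2), (281, 2), (372, 4), (384, -2), (385, -4), (386, -4),
      (399, 4), (423, 2)],
      [(192, -8), (244, -8), (348, 8)],
      [(180, -8), (206, 4), (258, 4), (336, -4), (362, -4), (388, -8), (401, -4), (427, -4)],
      [(194, -8), (246, 8), (324, -16), (337, 16), (350, 8), (389, -16), (415, 8)],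
      [(182, 8), (247, -8), (325, -8), (403, 8)]],
    [[(84, -8), (86, -96), (96, 8), (97, -32), (98, 80), (99, -160), (108, -8), (109, 24), (110,
      -48), (111, 80), (112, -160), (120, 8), (121, -16), (122, 24), (123, -32), (124, 80), (125,
      -96), (133, 8), (134, -8), (135, 8), (136, -8), (137, 16), (228, -64), (252, 40), (254,
      160), (266, 16), (267, 160), (278, -40), (279, -16), (384, 64), (408, -32), (410, -64),
      (421, 32)],
      [(72, -8), (86, 16), (97, 8), (98, -24), (99, 48), (109, -8), (110, 16), (111, -24), (112,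
      48), (121, 8), (122, -8), (123, 8), (124, -16), (125, 16), (137, 8), (228, 32), (240, 8),
      (252, -8), (254, -48), (267, -48), (278, 8), (279, -8), (384, -32), (408, 16), (410, 32),
      (421, -16)],
      [(72, -16), (86, -32), (98, 8), (99, -32), (110, -8), (111, 24), (112, -32), (122, 8),
      (123, -16), (124, 24), (125, -32), (135, 8), (136, -8), (137, 24), (240, 16), (254, 32),
      (266, 8), (267, 32), (279, -24), (408, 16), (421, -16)],
      [(72, 8), (86, -8), (97, -8), (98, 16), (99, -24), (110, -8), (111, 8), (112, -24), (124,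
      8), (125, -8), (137, -8), (228, -16), (240, -8), (252, 8), (254, 24), (267, 24), (278, -8),
      (279, 8), (384, 16), (408, -16), (410, -16), (421, 16)],
      [(72, -8), (86, -8), (124, 8), (125, -8), (137, 8), (228, 8), (240, 8), (279, -8), (384,
      -8), (408, 8), (410, 8), (421, -8)],
      [(99, -8), (112, -8), (228, -8), (254, 8), (267, 8), (384, 8), (410, -8)],
      [(72, -2), (86, -2), (100, 4), (112, 2), (113, -4), (126, 4), (137, 2), (139, -4), (228,
      8), (240, 2), (254, -2), (267, -12), (268, -4), (279, -2), (281, 4), (384, -8), (408, 2),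
      (410, 4), (421, -2), (423, 4)],
      [(36, 8), (62, 8), (72, -4), (74, -8), (86, -4), (100, -8), (112, 4), (113, -8), (114, -8),
      (126, 8), (127, -8), (137, 4), (204, -8), (217, 8), (240, 4), (243, -8), (254, 12), (267,
      -8), (269, 8), (279, -4), (372, -8), (373, -8), (385, 8), (399, 8), (408, 4), (421, -4)],
      [],
      [(257, -8)],
      [(336, -8), (401, -8)],
      [(194, -8), (246, 8), (324, -8), (337, 8), (350, 8), (389, -8), (402, -8), (415, 8)]],
    [[(84, 8), (86, 96), (96, -8), (97, 32), (98, -80), (99, 160), (108, 8), (109, -24), (110,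
      48), (111, -80), (112, 160), (120, -8), (121, 16), (122, -24), (123, 32), (124, -80), (125,
      96), (132, 8), (133, -8), (134, 8), (135, -8), (136, 8), (137, -16), (228, 64), (252, -40),
      (254, -160), (266, -16), (267, -160), (278, 40), (279, 16), (384, -64), (408, 32), (410,
      64), (421, -32)],
      [(72, -8), (86, -48), (97, -8), (98, 32), (99, -80), (109, 8), (110, -24), (111, 48), (112,
      -80), (121, -8), (122, 16), (123, -24), (124, 40), (125, -48), (133, 8), (134, -8), (135,
      8), (136, -8), (137, 16), (228, -32), (240, 8), (252, 8), (254, 80), (266, 8), (267, 80),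
      (278, -8), (279, -16), (384, 32), (410, -32)],
      [],
      [(72, -16), (86, -24), (99, -8), (111, 8), (112, -8), (123, -8), (124, 16), (125, -24),
      (135, 8), (136, -8), (137, 24), (228, 16), (240, 16), (254, 8), (266, 8), (267, 8), (279,
      -24), (384, -16), (408, 16), (410, 16), (421, -16)],
      [(86, -16), (97, -8), (98, 16), (99, -32), (110, -8), (111, 16), (112, -32), (123, -8),
      (124, 16), (125, -16), (228, -16), (252, 8), (254, 32), (267, 32), (278, -8), (384, 16),
      (408, -8), (410, -16), (421, 8)],
      [],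
      [(72, -4), (86, -4), (99, -8), (112, -4), (125, -8), (137, 4), (240, 4), (254, 4), (267,
      8), (279, -4), (408, 4), (421, -4)],
      [(267, -8)],
      [(36, 8), (62, 8), (72, -5), (74, -8), (86, -5), (100, -2), (101, -4), (112, 5), (113,
      -10), (114, -4), (126, 6), (127, -8), (137, 5), (139, -6), (204, -8), (217, 4), (228, 8),
      (240, 5), (243, -4), (254, 11), (267, -14), (268, -6), (269, 8), (279, -5), (281, 6), (372,
      -8), (373, -4), (384, -8), (385, 8), (399, 4), (408, 5), (410, 2), (421, -5), (423, 6)],
      [(36, -4), (100, -2), (101, 6), (127, -2), (139, 2), (204, 4), (228, -2), (243, -4), (256,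
      4), (267, 2), (268, 2), (269, -6), (281, -2), (372, 4), (384, 2), (385, -4), (386, -4),
      (399, 4), (423, -2)],
      [(413, -8)],
      [(206, 4), (258, 4), (271, -8), (336, -4), (362, -4), (401, -4), (427, 4)]],
    [[],
      [],
      [],
      [(72, -16), (86, -32), (98, 8), (99, -32), (110, -8), (111, 24), (112, -32), (122, 8),
      (123, -16), (124, 24), (125, -32), (134, -8), (135, 8), (136, -8), (137, 24), (240, 16),
      (254, 32), (266, 8), (267, 32), (279, -24), (408, 16), (421, -16)],
      [],
      [(72, -8), (86, -32), (97, -8), (98, 16), (99, -32), (110, -8), (111, 16), (112, -32),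
      (123, -8), (124, 24), (125, -32), (136, -8), (137, 16), (240, 8), (252, 8), (254, 32),
      (266, 8), (267, 32), (278, -8), (279, -16)],
      [(86, 8), (125, 8), (137, -8), (228, -8), (266, -8), (279, 8), (384, 8), (410, -8)],
      [(86, -8), (99, -8), (112, -8), (125, -8), (254, 8), (266, 8), (267, 8), (279, -8)],
      [(72, 2), (86, 2), (100, -4), (112, -2), (113, 4), (126, -4), (137, -2), (139, 4), (228,
      -8), (240, -2), (254, -6), (267, 4), (268, 4), (279, 2), (281, -4), (384, 8), (408, -2),
      (410, 4), (421, 2), (423, -12)],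
      [(36, 8), (62, 8), (72, -6), (74, -8), (86, -6), (100, -4), (112, 6), (113, -12), (114,
      -8), (126, 12), (127, -8), (137, 6), (139, -12), (204, -8), (217, 8), (228, 8), (240, 6),
      (243, -8), (254, 18), (267, -20), (268, -4), (269, 8), (279, -6), (281, 4), (372, -8),
      (373, -8), (384, -8), (385, 8), (399, 8), (408, 6), (410, -4), (421, -6), (423, 12)],
      [(100, -4), (101, 4), (127, -4), (139, 4), (217, 8), (228, -4), (243, -8), (267, 4), (268,
      4), (269, 4), (281, -4), (282, -8), (373, -8), (384, 4), (399, 8), (423, -4)],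
      [(270, 8), (413, -8), (426, -8)]]]
  A := [[[(103, 8), (180, -8), (192, -8), (206, 4), (244, -8), (258, 4), (270, -8), (283, -8), (336,
      -4), (348, 8), (362, -4), (388, -8), (401, -4), (413, 8), (426, 8), (427, -12)],
      [(36, 4), (100, -2), (101, -2), (115, 8), (127, -2), (139, 2), (204, -4), (228, -2), (243,
      4), (256, -4), (257, -8), (267, 2), (268, 2), (269, 2), (270, -8), (281, -2), (283, -8),
      (372, -4), (384, 2), (385, 4), (386, 4), (399, -4), (413, 8), (423, -2), (426, 8)],
      [(72, -1), (86, -1), (100, 2), (112, 1), (113, -2), (114, 4), (126, -2), (127, 4), (137,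
      1), (139, -2), (217, -4), (228, 4), (240, 1), (243, 4), (254, -1), (267, -2), (268, -2),
      (269, -4), (279, -1), (281, 2), (373, 4), (384, -4), (399, -4), (408, 1), (410, 2), (421,
      -1), (423, 2)],
      [],
      [],
      [],
      [],
      [],
      [],
      [],
      []],
    [[(182, 8), (325, -8), (338, 4), (403, 4)],
      [(194, -4), (246, 12), (324, -12), (337, 16), (350, 4), (389, -12), (415, 4)],
      [(206, 4), (258, 4), (336, -4), (362, -4), (401, -4), (427, -4)],
      [],
      [],
      [(72, -4), (86, -4), (112, 4), (113, -8), (137, 4), (139, -8), (228, 8), (240, 4), (254,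
      4), (267, -8), (279, -4), (281, 8), (384, -8), (408, 4), (421, -4), (423, 8)],
      [],
      [(86, -8), (99, -8), (112, -8), (125, -8), (254, 8), (266, 8), (267, 8)],
      [(86, 16), (98, -8), (99, 16), (111, -8), (112, 16), (124, -8), (125, 16), (137, -8), (254,
      -16), (266, -8), (267, -16), (278, 8), (279, 8)],
      [(72, -8), (86, -32), (97, -8), (98, 16), (99, -32), (110, -8), (111, 16), (112, -32),
      (123, -8), (124, 24), (125, -32), (136, -8), (137, 16), (240, 8), (252, 8), (254, 32),
      (266, 8), (267, 32), (277, 8), (278, -8), (279, -16)],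
      [(72, 16), (84, 8), (86, 64), (96, -8), (97, 16), (98, -32), (99, 64), (109, -8), (110,
      16), (111, -32), (112, 64), (122, -8), (123, 16), (124, -48), (125, 64), (135, -8), (136,
      8), (137, -32), (240, -16), (252, -24), (254, -64), (266, -16), (267, -64), (276, 8), (278,
      24), (279, 32)]],
    [[(326, 4), (391, 4)],
      [(338, 4), (403, 4)],
      [(194, -4), (246, 4), (324, -4), (337, 8), (350, 4), (389, -4), (415, 4)],
      [],
      [],
      [(36, 4), (100, -2), (101, -2), (127, -2), (139, 2), (204, -4), (228, -2), (243, -4), (256,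
      -4), (267, 2), (268, 2), (269, 2), (281, -2), (372, -4), (384, 2), (385, 4), (386, 4),
      (399, 4), (423, -2)],
      [(36, 8), (62, 8), (72, -5), (74, -8), (86, -5), (100, -2), (101, -4), (112, 5), (113,
      -10), (114, -4), (126, 6), (127, -8), (137, 5), (139, -6), (204, -8), (217, 4), (228, 8),
      (240, 5), (243, -4), (254, 11), (267, -14), (268, -6), (269, 8), (279, -5), (281, 6), (372,
      -8), (373, -4), (384, -8), (385, 8), (399, 4), (408, 5), (410, 2), (411, 8), (421, -5),
      (423, 6)],
      [(72, 2), (86, 2), (100, -4), (112, -2), (113, 4), (126, -4), (137, -2), (139, 4), (228,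
      -8), (240, -2), (254, -6), (267, 4), (268, 4), (279, 2), (281, -4), (384, 8), (408, -2),
      (410, 4), (421, 2), (423, -4)],
      [(72, 4), (86, -12), (99, -8), (112, -12), (125, -8), (137, -4), (240, -4), (254, 12),
      (266, 8), (267, 8), (279, -4), (408, -4), (421, 4), (422, 8)],
      [(72, 8), (86, 24), (98, -8), (99, 16), (111, -8), (112, 16), (124, -16), (125, 24), (137,
      -16), (228, -8), (240, -8), (252, -8), (254, -16), (266, -8), (267, -16), (278, 8), (279,
      16), (384, 8), (410, -8), (421, 8)],
      [(72, -16), (84, -8), (86, -48), (97, -8), (98, 16), (99, -32), (110, -8), (111, 16), (112,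
      -32), (123, -8), (124, 32), (125, -48), (136, -8), (137, 32), (228, 16), (240, 16), (252,
      16), (254, 32), (266, 16), (267, 32), (278, -16), (279, -32), (384, -16), (408, 8), (410,
      16), (420, 8), (421, -8)]]]
  W := [[[],
      [],
      [],
      [[],
       [],
       [(242, -8), (254, 8), (396, -8)]],
      [[(240, -8), (252, -8), (265, -8), (266, -8), (408, 8)],
       [(240, -8), (253, -8), (266, -8), (408, 8)]],
      [[(264, -8), (276, 8)]],
      [[],
       [(96, -8), (108, -8), (121, -8), (122, -8), (252, 8), (264, 8), (265, 8), (276, -8), (278,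
      8), (420, -8)]],
      [[],
       [(108, -8), (120, -8), (133, -8), (264, 8), (276, -8)]],
      [[],
       [],
       [],
       [],
       [],
       [],
       [(96, 8), (97, -8), (98, 8), (109, 8), (110, -8), (122, 8), (240, 8), (252, -8), (253, 8),
      (254, -8), (265, -8), (266, 8), (278, -8), (396, 8), (408, -8), (420, 8), (422, 8)]],
      [],
      [],
      [[],
       [],
       [],
       [],
       [],
       [],
       [(96, -8), (108, -8), (121, -8), (122, -8), (252, 8), (264, 8), (276, -8), (277, 8), (278,
      8), (420, -8)]]],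
    [[],
      [],
      [],
      [[],
       [(385, -8)]],
      [[],
       [(397, -8)]],
      [[],
       [(96, -8), (97, 8), (98, -8), (109, -8), (110, 8), (122, -8), (240, -8), (241, 8), (252,
      8), (253, -8), (254, 8), (265, 8), (266, -8), (278, 8), (396, -8), (408, 8), (409, -8),
      (420, -8), (422, -8)]],
      [[(240, -8), (266, -8), (278, 8), (408, 8), (420, -8)],
       [],
       [(254, 8), (396, -8), (422, -8)]],
      [[],
       [(97, 8), (122, 8), (240, -8), (253, -8), (266, -8), (408, 8)],
       [(96, -8), (97, 8), (109, -8), (110, 8), (122, -8), (240, -8), (252, 8), (253, -8), (265,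
      8), (266, -8), (278, 8), (408, 8), (420, -8)]],
      [[],
       [(96, -8), (122, -8), (252, 8), (265, 8), (278, 8), (420, -8)],
       [(122, 8)],
       [],
       [],
       [(384, 8)]],
      [[],
       [(108, -8), (264, 8), (276, -8)],
       [],
       [(96, -8), (97, 8), (109, -8), (240, -8), (252, 8), (253, -8), (265, 8), (266, -8), (278,
      8), (408, 8), (420, -8)],
       [],
       [],
       [],
       [(398, 8)]],
      [[(132, 8)],
       [(120, -8)]],
      [[],
       [],
       [],
       [],
       [(96, -8), (108, -8), (121, -8), (122, -8), (134, -8), (252, 8), (264, 8), (276, -8), (277,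
      8), (278, 8), (420, -8)]]],
    [[],
      [],
      [],
      [],
      [],
      [],
      [[(240, 8)],
       [(96, -8), (97, 8), (98, -8), (109, -8), (110, 8), (122, -8), (240, -8), (241, 8), (252,
      8), (253, -8), (254, 8), (265, 8), (266, -8), (278, 8), (396, -8), (408, 8), (420, -8),
      (422, -8)]],
      [[],
       [],
       [(254, 8), (396, -8)]],
      [[],
       [],
       [],
       [],
       [],
       [],
       [(386, -8)]],
      [[(276, 8)],
       [(265, 8)],
       [(240, 8), (266, 8), (408, -8)],
       [],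
       [(396, -8)]],
      [[],
       [],
       [],
       [],
       [(240, 8), (408, -8)],
       [],
       [(410, -8)]],
      [[],
       [],
       [],
       [],
       [(240, 8), (266, 8), (278, -8), (408, -8)],
       [(421, -8)]]]]

theorem ce1_ck : ce1.ck bs 12 1 = true := by decide +kernel

/-- certificate -/
def ce2 : Cer where
  den := 1
  N := [[],
    [],
    [],
    [[(241, 1), (254, 1), (384, 1), (397, -1)],
      [(242, -1), (385, 1), (398, -1)],
      [],
      [],
      [],
      [],
      [],
      [],
      [],
      [],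
      [],
      []],
    [[(253, -1), (266, 1), (396, 1), (409, -1)],
      [(241, 1)],
      [],
      [],
      [],
      [],
      [],
      [],
      [],
      [],
      [],
      []],
    [[(265, -1), (278, 1), (408, 1), (421, -1)],
      [],
      [],
      [],
      [],
      [],
      [],
      [],
      [],
      [],
      [],
      []],
    [[(96, 1), (108, -1), (121, -1), (122, 1)],
      [],
      [],
      [],
      [],
      [],
      [],
      [],
      [],
      [],
      [],
      []],
    [[(108, 1), (121, 1), (122, -1)],
      [(109, 1)],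
      [],
      [],
      [],
      [],
      [],
      [],
      [],
      [],
      [],
      []],
    [[],
      [],
      [],
      [(97, -1), (109, 1), (110, 1), (252, -1), (265, -1), (278, 1), (408, 1), (421, -1)],
      [(240, -1), (253, -1), (266, 2), (396, 1), (409, -2)],
      [],
      [(242, -1)],
      [(386, -1)],
      [],
      [],
      [],
      []],
    [[],
      [(121, 1), (122, -1)],
      [],
      [],
      [(252, -1), (265, -1), (278, 1), (408, 1), (421, -1)],
      [(253, -1), (266, 1), (409, -1)],
      [(254, -1)],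
      [],
      [],
      [],
      [],
      []],
    [[(120, -1), (121, 1), (122, -1), (132, 1), (133, -1), (134, 1)],
      [(120, -1)],
      [],
      [(122, -1)],
      [],
      [(265, -1)],
      [(409, -1)],
      [(241, -1), (254, -1), (397, 1), (410, -1)],
      [],
      [],
      [],
      []],
    [[],
      [],
      [(120, -1), (121, 1), (122, -1), (133, -1), (134, 1)],
      [(134, -1)],
      [],
      [(96, -1), (108, 1), (109, 1), (121, 1), (122, -1), (264, 1), (277, -1)],
      [(278, -1)],
      [(422, -1)],
      [],
      [],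
      [],
      []]]
  A := [[[],
      [],
      [],
      [],
      [],
      [(97, -1), (98, 1), (109, 1), (110, 1), (240, -1), (252, -1), (253, -1), (265, -1), (266,
      2), (278, 1), (396, 1), (408, 1), (409, -2), (421, -1)],
      [(110, 1), (252, -1), (265, -1), (278, 1), (408, 1), (421, -1)],
      [],
      [],
      [],
      []],
    [[],
      [],
      [],
      [],
      [],
      [],
      [],
      [(266, 1), (409, -1)],
      [],
      [(96, -1), (108, 1), (121, 1), (122, -1), (264, 1)],
      [(108, -1), (121, -1), (122, 1), (276, 1)]],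
    [[],
      [],
      [],
      [],
      [],
      [],
      [(398, 1)],
      [(241, -1), (254, -1), (397, 1)],
      [],
      [(278, -1), (421, 1)],
      [(96, -2), (108, 2), (109, 1), (121, 2), (122, -2), (264, 1), (277, -1), (420, 1)]]]
  W := [[[],
      [],
      [],
      [],
      [],
      [],
      [],
      [],
      [],
      [],
      [],
      []],
    [[],
      [],
      [],
      [],
      [],
      [],
      [],
      [],
      [],
      [],
      [],
      []],
    [[],
      [],
      [],
      [],
      [],
      [],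
      [],
      [],
      [],
      [],
      [],
      []]]

theorem ce2_ck : ce2.ck bs 12 2 = true := by decide +kernel

end Pool.Agent.Lib.D13.R354
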