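import Pool.Agent.Lib.D13.SurjR
import Pool.Agent.Lib.D13.R363

/-!
# MP_5dcbc3_ag: density theorem, levels `(3, 6, 3)`

All commuting triples on three levels of dimensions `3, 6, 3`, with arbitrary parts from the first
to the third level, whose commutation map is onto are limits of curvilinear triples.
-/

namespace Pool.Agent.Lib.D13

open Matrix Pool.Agent.Lib.Q5dc Pool.Agent.Lib.D7 Refl

/-- solutions of the commutation equations at the base point -/
def S363 : List (List (List (List ℤ))) :=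
   [[[[0, 1, -1, -1, 1, 0], [0, 0, 0, 0, 0, 0], [0, -1, 0, 0, 0, 0]],
     [[0, 0, 0, 0, 0, 0], [0, 0, 0, 1, -1, 0], [0, 0, 0, 0, 0, 0]],
     [[0, 0, 0, 0, 0, 0], [0, 0, 0, 0, 1, 0], [0, 0, 0, 0, 0, 0]]],
    [[[0, 0, 0, 0, 0, 0], [0, 0, 0, 0, 0, 0], [1, 0, 0, 0, 0, 0]],
     [[0, 1, -1, -1, 1, 0], [0, 0, 0, 0, 0, 0], [0, 0, 0, 0, 0, 0]],
     [[0, 0, 1, 0, -1, 0], [0, 0, 0, 0, 0, 0], [0, 0, 0, 0, 0, 0]]],
    [[[0, 1, 0, 0, 0, 0], [0, 0, 0, 0, 0, 0], [0, 0, 0, 0, 0, 0]],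
     [[0, 0, 1, 0, 0, 0], [0, 0, 0, 0, 0, 0], [0, 0, 0, 0, 0, 0]],
     [[0, 0, 0, 0, 0, 1], [0, 0, 0, 0, 0, 0], [0, 0, 0, 0, 0, 0]]]]

theorem cl_GRD_363 {k : Type*} [Field k] [CharZero k] {I J L : Type*} [Fintype I] [Fintype J]
    [Fintype L] [DecidableEq I] [DecidableEq J] [DecidableEq L] (hI : Fintype.card I = 3)
    (hJ : Fintype.card J = 6) (hL : Fintype.card L = 3) (al : Fin 3 → Matrix J I k)
    (be : Fin 3 → Matrix L J k) (D : Fin 3 → Matrix L I k) (hc : ∀ i j, be i * al j = be j * al i)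
    (hs : Sj al) : Cl (fun i => GR al be i + TL D i) := by
  refine cl_GRD_of_ck (B := R363.bs) (a := 3) (b := 6) (c := 3) (by omega) R363.bs_ck
    R363.ce1_ck R363.ce2_ck (by decide +kernel)
    (fun i x j z => (((S363.getD i []).getD x []).getD j []).getD z 0) (den := 1) (by omega)
    (by decide +kernel) hI hJ hL al be D hc hs

end Pool.Agent.Lib.D13
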