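import Pool.Agent.Lib.D13.Fdc
import Pool.Agent.Lib.D9.DensX

/-!
# MP_5dcbc3_ag: the density criterion at monomial base points

`k[t] / t ^ (n + 1)` with the basis `t ^ x`, operators `t ^ (a i)`, levels `w`.
-/

namespace Pool.Agent.Lib.D13

open Matrix Pool.Agent.Lib.Q5dc Pool.Agent.Lib.D7 Pool.Agent.Lib.D9.DensX

variable {k : Type*} [Field k] {n : ℕ}

theorem sh_mul (a : ℕ) (M : Matrix (Fin (n + 1)) (Fin (n + 1)) k) (x y : Fin (n + 1)) :
    (Sh k n ^ a * M) x y = if h : a ≤ (x : ℕ) then M ⟨(x : ℕ) - a, by omega⟩ y else 0 := by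
  rw [Matrix.mul_apply]
  simp only [Sh_pow, Matrix.of_apply]
  by_cases h : a ≤ (x : ℕ)
  · rw [dif_pos h, Finset.sum_eq_single (⟨(x : ℕ) - a, by omega⟩ : Fin (n + 1))]
    · rw [if_pos (by simp only; omega), one_mul]
    · intro b _ hb
      rw [if_neg (fun h2 => hb (Fin.ext (by simp only; omega))), zero_mul]
    · simp
  · rw [dif_neg h]
    refine Finset.sum_eq_zero fun b _ => ?_
    rw [if_neg (by omega), zero_mul]

theorem mul_sh (a : ℕ) (M : Matrix (Fin (n + 1)) (Fin (n + 1)) k) (x y : Fin (n + 1)) :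
    (M * Sh k n ^ a) x y = if h : (y : ℕ) + a < n + 1 then M x ⟨(y : ℕ) + a, h⟩ else 0 := by
  rw [Matrix.mul_apply]
  simp only [Sh_pow, Matrix.of_apply]
  by_cases h : (y : ℕ) + a < n + 1
  · rw [dif_pos h, Finset.sum_eq_single (⟨(y : ℕ) + a, h⟩ : Fin (n + 1))]
    · rw [if_pos rfl, mul_one]
    · intro b _ hb
      rw [if_neg (fun h2 => hb (Fin.ext h2)), mul_zero]
    · simp
  · rw [dif_neg h]
    refine Finset.sum_eq_zero fun b _ => ?_
    rw [if_neg (by omega), mul_zero]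

theorem mu_poly {a : Fin (n + 1) → k} (h : a 0 = 0) :
    ∃ p : Polynomial k, p.coeff 0 = 0 ∧ mu a = Polynomial.aeval (Sh k n) p := by
  refine ⟨∑ m : Fin (n + 1), Polynomial.C (a m) * Polynomial.X ^ (m : ℕ), ?_, ?_⟩
  · rw [Polynomial.finsetSum_coeff]
    refine Finset.sum_eq_zero fun m _ => ?_
    rw [Polynomial.coeff_C_mul, Polynomial.coeff_X_pow]
    by_cases hm : (0 : ℕ) = (m : ℕ)
    · have : m = 0 := Fin.ext hm.symm
      rw [this, h, zero_mul]
    · rw [if_neg hm, mul_zero]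
  · rw [map_sum, mu]
    refine Finset.sum_congr rfl fun m _ => ?_
    rw [map_mul, Polynomial.aeval_C, map_pow, Polynomial.aeval_X, ← Algebra.smul_def]

theorem sh_card : Sh k n ^ Fintype.card (Fin (n + 1)) = 0 := by
  rw [Fintype.card_fin, Sh_pow]
  ext x y
  have hx := x.2
  rw [Matrix.of_apply, if_neg (by omega), Matrix.zero_apply]

theorem sh_card' : Sh k n ^ (Fintype.card (Fin (n + 1)) - 1) ≠ 0 := by
  rw [Fintype.card_fin, Nat.add_sub_cancel, Sh_pow]
  intro h0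
  have h1 := congrFun (congrFun h0 (Fin.last n)) 0
  simp at h1

/-- multiplication by `t ^ a` from the left -/
def shL (a : ℕ) (M : Matrix (Fin (n + 1)) (Fin (n + 1)) k) (x y : Fin (n + 1)) : k :=
  if h : a ≤ (x : ℕ) then M ⟨(x : ℕ) - a, by omega⟩ y else 0

/-- multiplication by `t ^ a` from the right -/
def shR (a : ℕ) (M : Matrix (Fin (n + 1)) (Fin (n + 1)) k) (x y : Fin (n + 1)) : k :=
  if h : (y : ℕ) + a < n + 1 then M x ⟨(y : ℕ) + a, h⟩ else 0

/-- entry of a multiplication matrix -/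
def muE (a : Fin (n + 1) → k) (x y : Fin (n + 1)) : k :=
  if (y : ℕ) ≤ x then a ⟨(x : ℕ) - y, by omega⟩ else 0

/-- certificates at monomial base points, in coordinates -/
theorem cert_mono (w : Fin (n + 1) → ℕ) (av : Fin 3 → ℕ) (κ : ℕ)
    (N : (Fin 3 → Matrix (Fin (n + 1)) (Fin (n + 1)) k) → Matrix (Fin (n + 1)) (Fin (n + 1)) k)
    (α : (Fin 3 → Matrix (Fin (n + 1)) (Fin (n + 1)) k) → Fin 3 → Fin (n + 1) → k)
    (h0 : ∀ e i, α e i 0 = 0)
    (H : ∀ e : Fin 3 → Matrix (Fin (n + 1)) (Fin (n + 1)) k,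
      (∀ i x y, w x < w y + κ → e i x y = 0) →
      (∀ i j x z, w z + κ + 1 ≤ w x → shL (av i) (e j) x z + shR (av j) (e i) x z -
        shL (av j) (e i) x z - shR (av i) (e j) x z = 0) →
      ∀ i x y, w y + κ ≤ w x → shL (av i) (N e) x y - shR (av i) (N e) x y + muE (α e i) x y =
        e i x y) :
    Cert w (Sh k n) (fun i => Sh k n ^ av i) κ := by
  intro e hz hc
  refine ⟨N e, fun i => mu (α e i), fun i => mu_poly (h0 e i), ?_⟩
  intro i x y hxy
  have h1 := H e hz (by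
    intro i j x z hxz
    have h2 := hc i j x z hxz
    simp only [Matrix.add_apply, Matrix.sub_apply, sh_mul, mul_sh] at h2
    exact h2) i x y hxy
  simp only [Matrix.add_apply, Matrix.sub_apply, sh_mul, mul_sh, mu_apply]
  exact h1

/-- graded families through a monomial base point -/
theorem fdc_mono_graded [Infinite k] (w : Fin (n + 1) → ℕ) (av : Fin 3 → ℕ)
    (hav : ∀ i, av i ≠ 0)
    (hdeg : ∀ i (x y : Fin (n + 1)), w y + 2 ≤ w x → (x : ℕ) ≠ (y : ℕ) + av i)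
    (cert : Cert w (Sh k n) (fun i => Sh k n ^ av i) 1)
    (c : k → Fin 3 → Matrix (Fin (n + 1)) (Fin (n + 1)) k) (hc : PolyFam c)
    (hcomm : ∀ s i j, c s i * c s j = c s j * c s i)
    (hgr : ∀ s i x y, w x ≠ w y + 1 → c s i x y = 0)
    (h0 : ∀ i x y, w x = w y + 1 → c 0 i x y = if (x : ℕ) = (y : ℕ) + av i then 1 else 0)
    (s : k) : Cl (c s) := by
  refine fdc_graded sh_card sh_card' (X := fun i => Sh k n ^ av i) (fun i =>
    ⟨Polynomial.X ^ av i, ?_, by simp⟩) ?_ cert c hc hcomm hgr ?_ s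
  · rw [Polynomial.coeff_X_pow, if_neg (hav i).symm]
  · intro i x y hxy
    rw [Sh_pow, Matrix.of_apply, if_neg (hdeg i x y hxy)]
  · intro i x y hxy
    rw [Sh_pow, Matrix.of_apply, h0 i x y hxy]

/-- strictly triangular families through a monomial base point -/
theorem fdc_mono [Infinite k] (w : Fin (n + 1) → ℕ) (av : Fin 3 → ℕ)
    (hav : ∀ i, av i ≠ 0)
    (hdeg : ∀ i (x y : Fin (n + 1)), w y + 2 ≤ w x → (x : ℕ) ≠ (y : ℕ) + av i)
    (cert : ∀ κ, 1 ≤ κ → Cert w (Sh k n) (fun i => Sh k n ^ av i) κ)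
    (c : k → Fin 3 → Matrix (Fin (n + 1)) (Fin (n + 1)) k) (hc : PolyFam c)
    (hcomm : ∀ s i j, c s i * c s j = c s j * c s i)
    (hlow : ∀ s i x y, w x ≤ w y → c s i x y = 0)
    (h0 : ∀ i x y, w x = w y + 1 → c 0 i x y = if (x : ℕ) = (y : ℕ) + av i then 1 else 0)
    (s : k) : Cl (c s) := by
  refine fdc sh_card sh_card' (X := fun i => Sh k n ^ av i) (fun i =>
    ⟨Polynomial.X ^ av i, ?_, by simp⟩) ?_ cert c hc hcomm hlow ?_ s
  · rw [Polynomial.coeff_X_pow, if_neg (hav i).symm]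
  · intro i x y hxy
    rw [Sh_pow, Matrix.of_apply, if_neg (hdeg i x y hxy)]
  · intro i x y hxy
    rw [Sh_pow, Matrix.of_apply, h0 i x y hxy]

/-- above the number of levels there is nothing to prove -/
theorem cert_top {ι : Type*} [Fintype ι] [DecidableEq ι] {w : ι → ℕ} {N0 : Matrix ι ι k}
    {X : Fin 3 → Matrix ι ι k} {κ : ℕ} (h : ∀ x, w x < κ) : Cert w N0 X κ := by
  intro e _ _
  refine ⟨0, fun _ => 0, fun _ => ⟨0, by simp, by simp⟩, ?_⟩
  intro i x y hxy
  have := h x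
  omega

end Pool.Agent.Lib.D13
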