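import Pool.Agent.Lib.D13.Surj
import Pool.Agent.Lib.D13.FdcMono
import Pool.Agent.Lib.Q5dc.Sum2

/-!
# MP_5dcbc3_ag: graded triples with a surjective commutation map, with tails

As `D13/Surj.lean`, but arbitrary maps `V1 → V3` may be added to the three operators. Besides the
certificate in degree `1` the base point needs the one in degree `2`.
-/

namespace Pool.Agent.Lib.D13

open Matrix Pool.Agent.Lib.Q5dc Pool.Agent.Lib.D7

variable {k : Type*} [Field k]

/-- maps from the first to the third level -/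
def TL {I J L : Type*} (D : Fin 3 → Matrix L I k) (i : Fin 3) :
    Matrix (I ⊕ (J ⊕ L)) (I ⊕ (J ⊕ L)) k :=
  Matrix.of fun x y => match x, y with
    | .inr (.inr c), .inl a => D i c a
    | _, _ => 0

section

variable {I J L : Type*} [Fintype I] [Fintype J] [Fintype L] [DecidableEq I] [DecidableEq J]
  [DecidableEq L]

omit [DecidableEq I] [DecidableEq J] [DecidableEq L] in
theorem GR_mul_TL (al : Fin 3 → Matrix J I k) (be : Fin 3 → Matrix L J k)
    (D : Fin 3 → Matrix L I k) (i j : Fin 3) : GR al be i * TL D j = 0 := by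
  ext x y
  rw [Matrix.mul_apply, Fintype.sum_sum_type, Fintype.sum_sum_type]
  rcases x with x | (x | x) <;> rcases y with y | (y | y) <;> simp [GR, TL]

omit [DecidableEq I] [DecidableEq J] [DecidableEq L] in
theorem TL_mul_GR (al : Fin 3 → Matrix J I k) (be : Fin 3 → Matrix L J k)
    (D : Fin 3 → Matrix L I k) (i j : Fin 3) : TL D i * GR al be j = 0 := by
  ext x y
  rw [Matrix.mul_apply, Fintype.sum_sum_type, Fintype.sum_sum_type]
  rcases x with x | (x | x) <;> rcases y with y | (y | y) <;> simp [GR, TL]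

omit [DecidableEq I] [DecidableEq J] [DecidableEq L] in
theorem TL_mul_TL (D D' : Fin 3 → Matrix L I k) (i j : Fin 3) :
    (TL D i : Matrix (I ⊕ (J ⊕ L)) (I ⊕ (J ⊕ L)) k) * TL D' j = 0 := by
  ext x y
  rw [Matrix.mul_apply, Fintype.sum_sum_type, Fintype.sum_sum_type]
  rcases x with x | (x | x) <;> rcases y with y | (y | y) <;> simp [TL]

omit [DecidableEq I] [DecidableEq J] [DecidableEq L] in
theorem GRD_comm {al : Fin 3 → Matrix J I k} {be : Fin 3 → Matrix L J k}
    (h : ∀ i j, be i * al j = be j * al i) (D : Fin 3 → Matrix L I k) (i j : Fin 3) :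
    (GR al be i + TL D i) * (GR al be j + TL D j) =
      (GR al be j + TL D j) * (GR al be i + TL D i) := by
  simp only [Matrix.add_mul, Matrix.mul_add, GR_mul_TL, TL_mul_GR, TL_mul_TL, add_zero]
  exact GR_comm h i j

/-- one base point with certificates in degrees `1` and `2` is enough for all commuting triples with
tails whose commutation map is onto -/
theorem cl_GRD_of_cert [Infinite k] {N0 : Matrix (I ⊕ (J ⊕ L)) (I ⊕ (J ⊕ L)) k}
    (h1 : N0 ^ Fintype.card (I ⊕ (J ⊕ L)) = 0) (h2 : N0 ^ (Fintype.card (I ⊕ (J ⊕ L)) - 1) ≠ 0)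
    {X : Fin 3 → Matrix (I ⊕ (J ⊕ L)) (I ⊕ (J ⊕ L)) k}
    (hX : ∀ i, ∃ p : Polynomial k, p.coeff 0 = 0 ∧ X i = Polynomial.aeval N0 p)
    (hdeg : ∀ i c a, X i (.inr (.inr c)) (.inl a) = 0) (cert : Cert lv3 N0 X 1)
    (cert2 : Cert lv3 N0 X 2)
    (hs0 : Sj fun i => Matrix.of fun b a => X i (.inr (.inl b)) (.inl a))
    (al : Fin 3 → Matrix J I k) (be : Fin 3 → Matrix L J k) (D : Fin 3 → Matrix L I k)
    (hc : ∀ i j, be i * al j = be j * al i) (hs : Sj al) : Cl (fun i => GR al be i + TL D i) := by
  set al0 : Fin 3 → Matrix J I k := fun i => Matrix.of fun b a => X i (.inr (.inl b)) (.inl a)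
    with hal0
  set be0 : Fin 3 → Matrix L J k := fun i => Matrix.of fun c b => X i (.inr (.inr c))
    (.inr (.inl b)) with hbe0
  have hXX : ∀ i j, X i * X j = X j * X i := by
    intro i j
    obtain ⟨p, -, hp⟩ := hX i
    obtain ⟨q, -, hq⟩ := hX j
    rw [hp, hq, ← map_mul, ← map_mul, mul_comm]
  have hent : ∀ i j c a, (X i * X j) (.inr (.inr c)) (.inl a) = (be0 i * al0 j) c a := by
    intro i j c a
    rw [Matrix.mul_apply, Fintype.sum_sum_type, Fintype.sum_sum_type, Matrix.mul_apply]
    simp only [hdeg, zero_mul, mul_zero, Finset.sum_const_zero, zero_add, add_zero]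
    rfl
  have h0 : Phi al0 be0 = 0 := by
    rw [phi_eq_zero]
    intro i j
    ext c a
    rw [← hent, ← hent, hXX]
  obtain ⟨b, hb, hb0, hb1, hbs⟩ := join h0 (phi_eq_zero.2 hc) hs0 hs
  have key := fdc (w := lv3) h1 h2 hX (by
    intro i x y hxy
    rcases x with x | (x | x) <;> rcases y with y | (y | y) <;>
      first | exact hdeg i x y | (exfalso; simp only [lv3] at hxy; omega)) (by
    intro κ hκ
    rcases Nat.lt_or_ge κ 2 with h | h
    · have e : κ = 1 := by omega
      rw [e]
      exact cert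
    · rcases Nat.lt_or_ge κ 3 with h | h
      · have e : κ = 2 := by omega
        rw [e]
        exact cert2
      · refine cert_top fun x => ?_
        rcases x with x | (x | x) <;> simp only [lv3] <;> omega)
    (fun s i => GR (al0 + s • (al - al0)) (b s) i + TL (s • D) i) (by
      intro i x y
      rcases x with x | (x | x) <;> rcases y with y | (y | y)
      · exact D7.IsPoly.const (0 + 0 : k)
      · exact D7.IsPoly.const (0 + 0 : k)
      · exact D7.IsPoly.const (0 + 0 : k)
      · exact ((D7.IsPoly.const (al0 i x y)).add (D7.IsPoly.id.mul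
          (D7.IsPoly.const (al i x y - al0 i x y)))).add (D7.IsPoly.const (0 : k))
      · exact D7.IsPoly.const (0 + 0 : k)
      · exact D7.IsPoly.const (0 + 0 : k)
      · exact (D7.IsPoly.const (0 : k)).add (D7.IsPoly.id.mul (D7.IsPoly.const (D i x y)))
      · exact (hb i x y).add (D7.IsPoly.const (0 : k))
      · exact D7.IsPoly.const (0 + 0 : k))
    (fun s => GRD_comm (phi_eq_zero.1 (hbs s)) _) (by
      intro s i x y hxy
      rcases x with x | (x | x) <;> rcases y with y | (y | y) <;>
        first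
        | (exfalso; simp only [lv3] at hxy; omega)
        | (simp [GR, TL])) (by
      intro i x y hxy
      rcases x with x | (x | x) <;> rcases y with y | (y | y) <;>
        first
        | (exfalso; simp only [lv3] at hxy; omega)
        | (simp [GR, TL, hal0, hb0, hbe0])) 1
  have e1 : al0 + (1 : k) • (al - al0) = al := by
    rw [one_smul, add_sub_cancel]
  have e2 : (1 : k) • D = D := one_smul _ _
  rw [e1, e2, hb1] at key
  exact key

end

section

variable {I J L : Type*} [Fintype I] [Fintype J] [Fintype L] [DecidableEq I] [DecidableEq J]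
  [DecidableEq L] {ι : Type*} [Fintype ι] [DecidableEq ι]

/-- the criterion for a base point on an arbitrary index type -/
theorem cl_GRD_of_cert' [Infinite k] (e : I ⊕ (J ⊕ L) ≃ ι) {w : ι → ℕ} (hw : ∀ x, w (e x) = lv3 x)
    {N0 : Matrix ι ι k} (h1 : N0 ^ Fintype.card ι = 0) (h2 : N0 ^ (Fintype.card ι - 1) ≠ 0)
    {X : Fin 3 → Matrix ι ι k}
    (hX : ∀ i, ∃ p : Polynomial k, p.coeff 0 = 0 ∧ X i = Polynomial.aeval N0 p)
    (hdeg : ∀ i x y, w y + 2 ≤ w x → X i x y = 0) (cert : Cert w N0 X 1) (cert2 : Cert w N0 X 2)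
    (hs0 : Sj fun i => Matrix.of fun b a => X i (e (.inr (.inl b))) (e (.inl a)))
    (al : Fin 3 → Matrix J I k) (be : Fin 3 → Matrix L J k) (D : Fin 3 → Matrix L I k)
    (hc : ∀ i j, be i * al j = be j * al i) (hs : Sj al) :
    Cl (fun i => GR al be i + TL D i) := by
  have hr : ∀ M : Matrix ι ι k, (Matrix.reindexAlgEquiv k k e.symm) M = M.submatrix e e := by
    intro M
    rfl
  have hcard : Fintype.card (I ⊕ (J ⊕ L)) = Fintype.card ι := Fintype.card_congr e
  have h4 : (fun x => w (e x)) = lv3 := funext hw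
  have hcert : Cert lv3 (N0.submatrix e e) (fun i => (X i).submatrix e e) 1 := by
    have h3 := cert.reindex e
    rwa [h4] at h3
  have hcert2 : Cert lv3 (N0.submatrix e e) (fun i => (X i).submatrix e e) 2 := by
    have h3 := cert2.reindex e
    rwa [h4] at h3
  refine cl_GRD_of_cert (N0 := N0.submatrix e e) ?_ ?_ ?_ ?_ hcert hcert2 hs0 al be D hc hs
  · rw [hcard, ← hr, ← map_pow, h1, map_zero]
  · rw [hcard, ← hr, ← map_pow]
    intro h
    exact h2 ((map_eq_zero_iff _ (Matrix.reindexAlgEquiv k k e.symm).injective).1 h)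
  · intro i
    obtain ⟨p, hp0, hp⟩ := hX i
    refine ⟨p, hp0, ?_⟩
    simp only [hp]
    rw [← hr, ← hr, Polynomial.aeval_algEquiv]
    rfl
  · intro i c a
    exact hdeg i _ _ (by rw [hw, hw]; simp [lv3])

end

end Pool.Agent.Lib.D13
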