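import Pool.Agent.Lib.D7.Api

/-!
# Moves by dimension count

A common zero of fewer equations than unknowns over an algebraically closed field is never
isolated (Krull's height theorem); consequences for maximal bad triples.
-/

set_option autoImplicit false

namespace Pool.Agent.Lib.D13

open MvPolynomial

section alg

variable {k ι κ : Type*} [Field k] [Fintype ι] [Fintype κ]

/-- translation of the variables -/
noncomputable def trans (v : ι → k) : MvPolynomial ι k ≃ₐ[k] MvPolynomial ι k :=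
  AlgEquiv.ofAlgHom (aeval fun i => X i + C (v i)) (aeval fun i => X i - C (v i))
    (by ext i; simp) (by ext i; simp)

omit [Fintype ι] in
theorem aev (z : ι → k) (p : MvPolynomial ι k) : aeval z p = eval z p := rfl

omit [Fintype ι] in
theorem eval_trans (v x : ι → k) (p : MvPolynomial ι k) :
    eval x (trans v p) = eval (fun i => x i + v i) p := by
  have h1 : ((aeval x : MvPolynomial ι k →ₐ[k] k).comp (trans v).toAlgHom) =
      (aeval (fun i => x i + v i) : MvPolynomial ι k →ₐ[k] k) := by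
    apply MvPolynomial.algHom_ext
    intro i
    simp [trans]
  have h2 := congrArg (fun f => f p) h1
  simpa using h2

variable [IsAlgClosed k]

theorem height_point (x : ι → k) :
    (Fintype.card ι : ℕ∞) ≤ (vanishingIdeal k {x} : Ideal (MvPolynomial ι k)).height := by
  have hd : ringKrullDim (MvPolynomial ι k) = (Fintype.card ι : ℕ) := by
    rw [MvPolynomial.ringKrullDim_of_isNoetherianRing, ringKrullDim_eq_zero_of_field, zero_add,
      Nat.card_eq_fintype_card]
  have : FiniteRingKrullDim (MvPolynomial ι k) := by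
    rw [finiteRingKrullDim_iff_ne_bot_and_top]
    rw [hd]
    refine ⟨by exact_mod_cast WithBot.coe_ne_bot, ?_⟩
    intro h
    have h1 : ((Fintype.card ι : ℕ∞) : WithBot ℕ∞) = ((⊤ : ℕ∞) : WithBot ℕ∞) := h
    rw [WithBot.coe_inj] at h1
    exact ENat.natCast_ne_top _ h1
  obtain ⟨p, hp, hpd⟩ := Ideal.exists_isMaximal_height (R := MvPolynomial ι k)
  obtain ⟨y, rfl⟩ := isMaximal_iff_eq_vanishingIdeal_singleton.1 hp
  have h1 : (vanishingIdeal k {x} : Ideal (MvPolynomial ι k)) =
      (vanishingIdeal k {y} : Ideal (MvPolynomial ι k)).comap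
        (trans (fun i => x i - y i)).toRingEquiv := by
    ext q
    rw [Ideal.mem_comap, mem_vanishingIdeal_singleton_iff, mem_vanishingIdeal_singleton_iff]
    have h2 := eval_trans (fun i => x i - y i) y q
    have h3 : (fun i => y i + (x i - y i)) = x := by funext i; ring
    rw [h3] at h2
    rw [aev, aev, ← h2]
    rfl
  rw [h1, RingEquiv.height_comap]
  rw [hd] at hpd
  have h4 : ((vanishingIdeal k {y} : Ideal (MvPolynomial ι k)).height : WithBot ℕ∞) =
      ((Fintype.card ι : ℕ∞) : WithBot ℕ∞) := hpd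
  rw [WithBot.coe_inj] at h4
  rw [h4]

/-- A common zero of fewer equations than unknowns is not isolated. -/
theorem infinite_zeros (hc : Fintype.card κ < Fintype.card ι) (F : κ → MvPolynomial ι k)
    (h : MvPolynomial ι k) (x₀ : ι → k) (h0 : ∀ j, eval x₀ (F j) = 0) (hh : eval x₀ h ≠ 0) :
    {x : ι → k | (∀ j, eval x (F j) = 0) ∧ eval x h ≠ 0}.Infinite := by
  classical
  intro hfin
  -- a polynomial vanishing at the other points
  obtain ⟨g, hg0, hg⟩ : ∃ g : MvPolynomial ι k, eval x₀ g ≠ 0 ∧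
      ∀ x, (∀ j, eval x (F j) = 0) → eval x g ≠ 0 → x = x₀ := by
    have key : ∀ y : ι → k, ∃ g : MvPolynomial ι k, (y ≠ x₀ → eval y g = 0) ∧ eval x₀ g ≠ 0 := by
      intro y
      by_cases hy : y = x₀
      · exact ⟨1, fun h => absurd hy h, by simp⟩
      · obtain ⟨i, hi⟩ : ∃ i, y i ≠ x₀ i := by
          by_contra hcon
          push Not at hcon
          exact hy (funext hcon)
        exact ⟨X i - C (y i), fun _ => by simp, by simpa [sub_eq_zero] using fun h => hi h.symm⟩
    choose gg hgg1 hgg2 using key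
    refine ⟨h * ∏ y ∈ hfin.toFinset, gg y, ?_, ?_⟩
    · rw [map_mul, map_prod]
      exact mul_ne_zero hh (Finset.prod_ne_zero_iff.2 fun y _ => hgg2 y)
    · intro x hx hxg
      rw [map_mul, map_prod] at hxg
      by_contra hne
      apply hxg
      have h1 : x ∈ hfin.toFinset := by
        rw [Set.Finite.mem_toFinset]
        exact ⟨hx, left_ne_zero_of_mul hxg⟩
      rw [Finset.prod_eq_zero h1 (hgg1 x hne), mul_zero]
  have hle : Ideal.span (Set.range F) ≤ (vanishingIdeal k {x₀} : Ideal (MvPolynomial ι k)) := by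
    rw [Ideal.span_le]
    rintro _ ⟨j, rfl⟩
    exact (mem_vanishingIdeal_singleton_iff x₀ (F j)).2 (by rw [aev]; exact h0 j)
  obtain ⟨p, hp, hple⟩ := Ideal.exists_minimalPrimes_le hle
  have hpp : p.IsPrime := hp.1.1
  have hgp : g ∉ p := fun hgp => hg0 (by
    have := (mem_vanishingIdeal_singleton_iff x₀ g).1 (hple hgp)
    rwa [aev] at this)
  have hpx : p = vanishingIdeal k {x₀} := by
    refine le_antisymm hple fun q hq => ?_
    have h1 : q * g ∈ p := by
      rw [← MvPolynomial.IsPrime.vanishingIdeal_zeroLocus (K := k) p]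
      intro x hx
      rw [map_mul]
      by_cases hxg : aeval x g = 0
      · rw [hxg, mul_zero]
      · have h2 : x = x₀ := by
          refine hg x (fun j => ?_) (by rwa [aev] at hxg)
          have := hx (F j) (hp.1.2 (Ideal.subset_span ⟨j, rfl⟩))
          rwa [aev] at this
        rw [h2, (mem_vanishingIdeal_singleton_iff x₀ q).1 hq, zero_mul]
    exact (hpp.mem_or_mem h1).resolve_right hgp
  have h3 : p.height ≤ (Set.range F).ncard :=
    Ideal.height_le_card_of_mem_minimalPrimes_span (Set.finite_range F) hp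
  have h4 : (Set.range F).ncard ≤ Fintype.card κ := by
    rw [← Set.image_univ]
    refine (Set.ncard_image_le Set.finite_univ).trans ?_
    rw [Set.ncard_univ, Nat.card_eq_fintype_card]
  have h5 := height_point x₀
  rw [← hpx] at h5
  have h6 : (Fintype.card ι : ℕ∞) ≤ (Fintype.card κ : ℕ∞) :=
    h5.trans (h3.trans (by exact_mod_cast h4))
  have h7 : Fintype.card ι ≤ Fintype.card κ := by exact_mod_cast h6
  omega

end alg

/-! ### polynomial functions of several variables -/

open Matrix Pool.Agent.Lib.Q5dc Pool.Agent.Lib.D7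

/-- polynomial functions of several variables -/
def MP {k ι : Type*} [Field k] (f : (ι → k) → k) : Prop :=
  ∃ p : MvPolynomial ι k, ∀ x, f x = MvPolynomial.eval x p

section mp

variable {k ι ι' : Type*} [Field k]

theorem MP.const (a : k) : MP fun _ : ι → k => a := ⟨MvPolynomial.C a, fun x => by simp⟩

theorem MP.coord (i : ι) : MP fun x : ι → k => x i := ⟨MvPolynomial.X i, fun x => by simp⟩

theorem MP.add {f g : (ι → k) → k} (hf : MP f) (hg : MP g) : MP fun x => f x + g x := by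
  obtain ⟨p, hp⟩ := hf
  obtain ⟨q, hq⟩ := hg
  exact ⟨p + q, fun x => by rw [map_add, ← hp, ← hq]⟩

theorem MP.sub {f g : (ι → k) → k} (hf : MP f) (hg : MP g) : MP fun x => f x - g x := by
  obtain ⟨p, hp⟩ := hf
  obtain ⟨q, hq⟩ := hg
  exact ⟨p - q, fun x => by rw [map_sub, ← hp, ← hq]⟩

theorem MP.mul {f g : (ι → k) → k} (hf : MP f) (hg : MP g) : MP fun x => f x * g x := by
  obtain ⟨p, hp⟩ := hf
  obtain ⟨q, hq⟩ := hg
  exact ⟨p * q, fun x => by rw [map_mul, ← hp, ← hq]⟩

theorem MP.neg {f : (ι → k) → k} (hf : MP f) : MP fun x => -f x := by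
  obtain ⟨p, hp⟩ := hf
  exact ⟨-p, fun x => by rw [map_neg, ← hp]⟩

theorem MP.pow {f : (ι → k) → k} (hf : MP f) (i : ℕ) : MP fun x => f x ^ i := by
  obtain ⟨p, hp⟩ := hf
  exact ⟨p ^ i, fun x => by rw [map_pow, ← hp]⟩

theorem MP.sum {α : Type*} (s : Finset α) {f : α → (ι → k) → k} (hf : ∀ a ∈ s, MP (f a)) :
    MP fun x => ∑ a ∈ s, f a x := by
  classical
  induction s using Finset.induction_on with
  | empty => simpa using MP.const (ι := ι) (0 : k)
  | insert a s ha ih =>
    simp only [Finset.sum_insert ha]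
    exact (hf a (Finset.mem_insert_self a s)).add
      (ih fun b hb => hf b (Finset.mem_insert_of_mem hb))

theorem MP.prod {α : Type*} (s : Finset α) {f : α → (ι → k) → k} (hf : ∀ a ∈ s, MP (f a)) :
    MP fun x => ∏ a ∈ s, f a x := by
  classical
  induction s using Finset.induction_on with
  | empty => simpa using MP.const (ι := ι) (1 : k)
  | insert a s ha ih =>
    simp only [Finset.prod_insert ha]
    exact (hf a (Finset.mem_insert_self a s)).mul
      (ih fun b hb => hf b (Finset.mem_insert_of_mem hb))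

/-- composition with a polynomial map -/
theorem MP.comp {f : (ι → k) → k} (hf : MP f) {σ : (ι' → k) → ι → k}
    (hσ : ∀ i, MP fun y => σ y i) : MP fun y => f (σ y) := by
  obtain ⟨p, hp⟩ := hf
  choose q hq using hσ
  refine ⟨MvPolynomial.aeval q p, fun y => ?_⟩
  have h1 : ((MvPolynomial.aeval y : MvPolynomial ι' k →ₐ[k] k).comp (MvPolynomial.aeval q)) =
      (MvPolynomial.aeval (σ y) : MvPolynomial ι k →ₐ[k] k) := by
    apply MvPolynomial.algHom_ext
    intro i
    simp only [AlgHom.comp_apply, MvPolynomial.aeval_X]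
    exact (hq i y).symm
  have h2 := congrArg (fun φ => φ p) h1
  exact (hp _).trans h2.symm

/-- polynomial along polynomial curves -/
theorem MP.curve {f : (ι → k) → k} (hf : MP f) {σ : k → ι → k}
    (hσ : ∀ i, IsPoly fun s => σ s i) : IsPoly fun s => f (σ s) := by
  obtain ⟨p, hp⟩ := hf
  choose q hq using hσ
  refine ⟨MvPolynomial.aeval q p, fun s => ?_⟩
  have h1 : ((Polynomial.aeval s : Polynomial k →ₐ[k] k).comp (MvPolynomial.aeval q)) =
      (MvPolynomial.aeval (σ s) : MvPolynomial ι k →ₐ[k] k) := by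
    apply MvPolynomial.algHom_ext
    intro i
    simp only [AlgHom.comp_apply, MvPolynomial.aeval_X, Polynomial.coe_aeval_eq_eval]
    exact (hq i s).symm
  have h2 := congrArg (fun φ => φ p) h1
  exact (hp _).trans h2.symm

theorem MP.det {n : Type*} [Fintype n] [DecidableEq n] {M : (ι → k) → Matrix n n k}
    (hM : ∀ a b, MP fun x => M x a b) : MP fun x => (M x).det := by
  simp only [Matrix.det_apply']
  exact MP.sum _ fun σ _ => (MP.const _).mul (MP.prod _ fun i _ => hM _ _)

theorem MP.matMul {n : Type*} [Fintype n] {M N : (ι → k) → Matrix n n k}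
    (hM : ∀ a b, MP fun x => M x a b) (hN : ∀ a b, MP fun x => N x a b) (a b : n) :
    MP fun x => (M x * N x) a b := by
  simp only [Matrix.mul_apply]
  exact MP.sum _ fun i _ => (hM _ _).mul (hN _ _)

theorem MP.matPow {n : Type*} [Fintype n] [DecidableEq n] {M : (ι → k) → Matrix n n k}
    (hM : ∀ a b, MP fun x => M x a b) (i : ℕ) : ∀ a b, MP fun x => (M x ^ i) a b := by
  induction i with
  | zero => intro a b; simp only [pow_zero]; exact MP.const _
  | succ i ih => intro a b; simp only [pow_succ]; exact MP.matMul ih hM a b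

end mp

/-! ### neighbourhoods of maximal bad triples -/

section maxr

variable {k ι κ n : Type*} [Field k] [Fintype n] [DecidableEq n]
  {ρ : ℕ → ℕ}

/-- elements of `adj` in polynomial families -/
theorem adj_mp {c : (ι → k) → Fin 3 → Matrix n n k} (hc : ∀ i a b, MP fun x => c x i a b)
    {x₀ : ι → k} {M : Matrix n n k} (hM : M ∈ adj (c x₀)) :
    ∃ M' : (ι → k) → Matrix n n k, M' x₀ = M ∧ (∀ x, M' x ∈ adj (c x)) ∧
      ∀ a b, MP fun x => M' x a b := by
  obtain ⟨f, hf1, hf2, -⟩ := exists_free hM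
  refine ⟨fun x => FreeAlgebra.lift k (c x) f, hf1, fun x => hf2 _, fun a b => ?_⟩
  choose p hp using hc
  refine ⟨(FreeAlgebra.lift k (fun i => (Matrix.of fun a b => p i a b :
    Matrix n n (MvPolynomial ι k))) f) a b, fun x => ?_⟩
  have h1 : ((MvPolynomial.aeval x : MvPolynomial ι k →ₐ[k] k).mapMatrix.comp
      (FreeAlgebra.lift k (fun i => (Matrix.of fun a b => p i a b :
        Matrix n n (MvPolynomial ι k))))) = FreeAlgebra.lift k (c x) := by
    apply FreeAlgebra.hom_ext
    funext j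
    simp only [Function.comp_apply, AlgHom.comp_apply, FreeAlgebra.lift_ι_apply]
    ext a b
    simp only [AlgHom.mapMatrix_apply, Matrix.map_apply, Matrix.of_apply]
    exact (hp j a b x).symm
  have h2 := congrArg (fun φ => φ f a b) h1
  simp only [AlgHom.comp_apply, AlgHom.mapMatrix_apply, Matrix.map_apply] at h2
  exact h2.symm

/-- in a polynomial family of commuting nilpotent triples the maximal bad ones form an open set -/
theorem nbhd (c : (ι → k) → Fin 3 → Matrix n n k)
    (hc : ∀ i a b, MP fun x => c x i a b) {x₀ : ι → k} (hT : MaxR ρ (c x₀)) :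
    ∃ g : (ι → k) → k, MP g ∧ g x₀ ≠ 0 ∧ ∀ x, g x ≠ 0 → CN (c x) → MaxR ρ (c x) := by
  classical
  obtain ⟨A, hA, hr⟩ := hT.att
  obtain ⟨M, hM0, hM, hMp⟩ := adj_mp hc hA
  obtain ⟨F, hF, hF0⟩ : ∃ F : MvPolynomial (Fin 3 × n × n) k,
      (∀ T' : Fin 3 → Matrix n n k, Curv T' → MvPolynomial.eval (co T') F = 0) ∧
        MvPolynomial.eval (co (c x₀)) F ≠ 0 := by
    have h := hT.ncl
    unfold Cl at h
    push Not at h
    exact h
  choose f g hfg using fun i : ℕ => PolyAux.exists_minor (M x₀ ^ (i + 1))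
  refine ⟨fun x => MvPolynomial.eval (co (c x)) F *
    ∏ i ∈ Finset.range (Fintype.card n), ((M x ^ (i + 1)).submatrix (f i) (g i)).det,
    ?_, ?_, ?_⟩
  · refine MP.mul ?_ (MP.prod _ fun i _ => MP.det fun a b => MP.matPow hMp _ _ _)
    have h1 : MP fun y : Fin 3 × n × n → k => MvPolynomial.eval y F := ⟨F, fun _ => rfl⟩
    exact h1.comp fun z => hc z.1 z.2.1 z.2.2
  · exact mul_ne_zero hF0 (Finset.prod_ne_zero_iff.2 fun i _ => hfg i)
  · intro x hx hcn
    have hx1 := left_ne_zero_of_mul hx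
    have hx2 := Finset.prod_ne_zero_iff.1 (right_ne_zero_of_mul hx)
    have hncl : ¬ Cl (c x) := fun h => hx1 (h F hF)
    refine ⟨hcn, hncl, ⟨M x, hM x, ?_⟩, hT.max⟩
    refine rank_eq_of_sum (hT.cn.nilp hA) hr (hcn.nilp (hM x)) (hT.max _ hcn hncl _ (hM x))
      fun i hi => ?_
    rw [← hM0]
    exact le_rank_of_minor _ (f i) (g i) (hx2 i hi)

variable [Fintype ι] [Fintype κ]

/-- **Krull tool**: if fewer equations than parameters guarantee commuting nilpotent triples, then
there are infinitely many maximal bad triples in the family -/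
theorem krull [IsAlgClosed k] (hcard : Fintype.card κ < Fintype.card ι)
    (c : (ι → k) → Fin 3 → Matrix n n k) (hc : ∀ i a b, MP fun x => c x i a b)
    (F : κ → (ι → k) → k) (hF : ∀ j, MP (F j)) (q : (ι → k) → k) (hq : MP q)
    (hcn : ∀ x, (∀ j, F j x = 0) → q x ≠ 0 → CN (c x)) {x₀ : ι → k}
    (h0 : ∀ j, F j x₀ = 0) (hq0 : q x₀ ≠ 0) (hT : MaxR ρ (c x₀)) :
    {x | (∀ j, F j x = 0) ∧ q x ≠ 0 ∧ MaxR ρ (c x)}.Infinite := by
  obtain ⟨g, hg, hg0, hg1⟩ := nbhd c hc hT
  choose P hP using hF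
  obtain ⟨Q, hQ⟩ := hq.mul hg
  refine (infinite_zeros hcard P Q x₀ (fun j => by rw [← hP]; exact h0 j)
    (by rw [← hQ]; exact mul_ne_zero hq0 hg0)).mono ?_
  rintro x ⟨h1, h2⟩
  rw [← hQ] at h2
  have h3 : ∀ j, F j x = 0 := fun j => by rw [hP]; exact h1 j
  exact ⟨h3, left_ne_zero_of_mul h2, hg1 x (right_ne_zero_of_mul h2)
    (hcn x h3 (left_ne_zero_of_mul h2))⟩

/-- Krull tool, moving out of the bad locus `g = 0`: it is enough that the given point is
an isolated point of the bad locus of the family -/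
theorem krull_iso [IsAlgClosed k] (hcard : Fintype.card κ < Fintype.card ι)
    (c : (ι → k) → Fin 3 → Matrix n n k) (hc : ∀ i a b, MP fun x => c x i a b)
    (F : κ → (ι → k) → k) (hF : ∀ j, MP (F j)) (q : (ι → k) → k) (hq : MP q)
    (hcn : ∀ x, (∀ j, F j x = 0) → q x ≠ 0 → CN (c x)) {x₀ : ι → k}
    (h0 : ∀ j, F j x₀ = 0) (hq0 : q x₀ ≠ 0) (hT : MaxR ρ (c x₀)) (bad : (ι → k) → Prop)
    (hbad : ∀ x, (∀ j, F j x = 0) → q x ≠ 0 → MaxR ρ (c x) → bad x → x = x₀) :
    ∃ x, (∀ j, F j x = 0) ∧ q x ≠ 0 ∧ MaxR ρ (c x) ∧ ¬ bad x := by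
  obtain ⟨x, ⟨h1, h2, h3⟩, h4⟩ :=
    ((krull hcard c hc F hF q hq hcn h0 hq0 hT).sdiff (Set.finite_singleton x₀)).nonempty
  exact ⟨x, h1, h2, h3, fun h => h4 (hbad x h1 h2 h3 h)⟩

end maxr

/-! ### first order -/

section der

variable {k ι : Type*} [Field k]

/-- `d` is the derivative of `f` at `x` in the direction `v` -/
def HasD (f : (ι → k) → k) (x v : ι → k) (d : k) : Prop :=
  ∃ R : k → k, IsPoly R ∧ ∀ s, f (x + s • v) = f x + s * d + s ^ 2 * R s

theorem HasD.const (a : k) (x v : ι → k) : HasD (fun _ => a) x v 0 :=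
  ⟨fun _ => 0, D7.IsPoly.const 0, fun s => by ring⟩

theorem HasD.coord (i : ι) (x v : ι → k) : HasD (fun y => y i) x v (v i) :=
  ⟨fun _ => 0, D7.IsPoly.const 0, fun s => by
    simp only [Pi.add_apply, Pi.smul_apply, smul_eq_mul]; ring⟩

theorem HasD.add {f g : (ι → k) → k} {x v : ι → k} {d e : k} (hf : HasD f x v d)
    (hg : HasD g x v e) : HasD (fun y => f y + g y) x v (d + e) := by
  obtain ⟨R, hR, h1⟩ := hf
  obtain ⟨Q, hQ, h2⟩ := hg
  refine ⟨fun s => R s + Q s, hR.add hQ, fun s => ?_⟩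
  show f (x + s • v) + g (x + s • v) = _
  rw [h1, h2]
  ring

theorem HasD.sub {f g : (ι → k) → k} {x v : ι → k} {d e : k} (hf : HasD f x v d)
    (hg : HasD g x v e) : HasD (fun y => f y - g y) x v (d - e) := by
  obtain ⟨R, hR, h1⟩ := hf
  obtain ⟨Q, hQ, h2⟩ := hg
  refine ⟨fun s => R s - Q s, hR.sub hQ, fun s => ?_⟩
  show f (x + s • v) - g (x + s • v) = _
  rw [h1, h2]
  ring

theorem HasD.neg {f : (ι → k) → k} {x v : ι → k} {d : k} (hf : HasD f x v d) :
    HasD (fun y => - f y) x v (-d) := by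
  obtain ⟨R, hR, h1⟩ := hf
  refine ⟨fun s => - R s, hR.neg, fun s => ?_⟩
  show - f (x + s • v) = _
  rw [h1]
  ring

theorem HasD.mul {f g : (ι → k) → k} {x v : ι → k} {d e : k} (hf : HasD f x v d)
    (hg : HasD g x v e) : HasD (fun y => f y * g y) x v (d * g x + f x * e) := by
  obtain ⟨R, hR, h1⟩ := hf
  obtain ⟨Q, hQ, h2⟩ := hg
  refine ⟨fun s => d * e + f x * Q s + R s * g x + s * (d * Q s + R s * e) +
    s ^ 2 * (R s * Q s), ?_, fun s => ?_⟩
  · exact ((((D7.IsPoly.const _).add ((D7.IsPoly.const _).mul hQ)).add (hR.mul (D7.IsPoly.const _))).add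
      (D7.IsPoly.id.mul (((D7.IsPoly.const _).mul hQ).add (hR.mul (D7.IsPoly.const _))))).add
      ((D7.IsPoly.id.pow 2).mul (hR.mul hQ))
  · show f (x + s • v) * g (x + s • v) = _
    rw [h1, h2]
    ring

theorem HasD.sum {α : Type*} (S : Finset α) {f : α → (ι → k) → k} {x v : ι → k} {d : α → k}
    (hf : ∀ a ∈ S, HasD (f a) x v (d a)) :
    HasD (fun y => ∑ a ∈ S, f a y) x v (∑ a ∈ S, d a) := by
  classical
  induction S using Finset.induction_on with
  | empty => simpa using HasD.const (0 : k) x v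
  | insert a s ha ih =>
    simp only [Finset.sum_insert ha]
    exact (hf a (Finset.mem_insert_self a s)).add
      (ih fun b hb => hf b (Finset.mem_insert_of_mem hb))

theorem HasD.congr {f g : (ι → k) → k} {x v : ι → k} {d e : k} (hf : HasD f x v d)
    (h : ∀ y, g y = f y) (he : d = e) : HasD g x v e := by
  subst he
  obtain ⟨R, hR, h1⟩ := hf
  exact ⟨R, hR, fun s => by rw [h, h, h1]⟩

/-- polynomial functions have derivatives, given by Taylor coefficients -/
theorem taylor [Fintype ι] {f : (ι → k) → k} (hf : MP f) (x₀ : ι → k) :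
    ∃ G : ι → (ι → k) → k, (∀ i, MP (G i)) ∧ ∀ x, f x = f x₀ + ∑ i, G i x * (x i - x₀ i) := by
  classical
  obtain ⟨p, hp⟩ := hf
  have key : ∀ p : MvPolynomial ι k, ∃ G : ι → (ι → k) → k, (∀ i, MP (G i)) ∧
      ∀ x, MvPolynomial.eval x p = MvPolynomial.eval x₀ p + ∑ i, G i x * (x i - x₀ i) := by
    intro p
    induction p using MvPolynomial.induction_on with
    | C a => exact ⟨fun _ _ => 0, fun _ => MP.const 0, fun x => by simp⟩
    | add p q hp hq =>
      obtain ⟨G, hG, h1⟩ := hp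
      obtain ⟨H, hH, h2⟩ := hq
      refine ⟨fun i x => G i x + H i x, fun i => (hG i).add (hH i), fun x => ?_⟩
      rw [map_add, map_add, h1, h2]
      simp only [add_mul, Finset.sum_add_distrib]
      ring
    | mul_X p j hp =>
      obtain ⟨G, hG, h1⟩ := hp
      refine ⟨fun i x => G i x * x j + (if i = j then MvPolynomial.eval x₀ p else 0),
        fun i => ((hG i).mul (MP.coord j)).add (MP.const _), fun x => ?_⟩
      rw [map_mul, map_mul, MvPolynomial.eval_X, MvPolynomial.eval_X, h1]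
      simp only [add_mul, Finset.sum_add_distrib, ite_mul, zero_mul, Finset.sum_ite_eq',
        Finset.mem_univ, if_true]
      have h2 : ∑ i, G i x * x j * (x i - x₀ i) = (∑ i, G i x * (x i - x₀ i)) * x j := by
        rw [Finset.sum_mul]
        exact Finset.sum_congr rfl fun i _ => by ring
      rw [h2]
      ring
  obtain ⟨G, hG, h1⟩ := key p
  exact ⟨G, hG, fun x => by rw [hp, hp, h1]⟩

/-- the derivative of a Taylor expansion -/
theorem taylor_der [Infinite k] [Fintype ι] {f : (ι → k) → k} {x₀ : ι → k}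
    {G : ι → (ι → k) → k} (hG : ∀ i, MP (G i))
    (h : ∀ x, f x = f x₀ + ∑ i, G i x * (x i - x₀ i)) {v : ι → k} {d : k}
    (hd : HasD f x₀ v d) : d = ∑ i, G i x₀ * v i := by
  obtain ⟨R, hR, h1⟩ := hd
  have h2 : ∀ s : k, s ≠ 0 → d + s * R s = ∑ i, G i (x₀ + s • v) * v i := by
    intro s hs
    have h3 := h1 s
    rw [h (x₀ + s • v)] at h3
    have h4 : ∑ i, G i (x₀ + s • v) * ((x₀ + s • v) i - x₀ i) =
        s * ∑ i, G i (x₀ + s • v) * v i := by
      rw [Finset.mul_sum]
      refine Finset.sum_congr rfl fun i _ => ?_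
      simp only [Pi.add_apply, Pi.smul_apply, smul_eq_mul]
      ring
    rw [h4] at h3
    have h5 : s * (∑ i, G i (x₀ + s • v) * v i) = s * (d + s * R s) := by
      linear_combination h3
    exact (mul_left_cancel₀ hs h5).symm
  have hp1 : IsPoly fun s => d + s * R s := (D7.IsPoly.const d).add (D7.IsPoly.id.mul hR)
  have hp2 : IsPoly fun s : k => ∑ i, G i (x₀ + s • v) * v i := by
    have h6 : MP fun x : ι → k => ∑ i, G i x * v i :=
      MP.sum _ fun i _ => (hG i).mul (MP.const _)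
    refine h6.curve (σ := fun s => x₀ + s • v) fun i => ?_
    exact (D7.IsPoly.const _).add (D7.IsPoly.id.mul (D7.IsPoly.const _))
  by_contra hne
  have h7 := (hp1.sub hp2).finite (s₁ := 0) (by
    simp only [zero_mul, add_zero, zero_smul]
    exact sub_ne_zero.2 hne)
  obtain ⟨s, hs⟩ := (h7.union (Set.finite_singleton (0 : k))).exists_notMem
  simp only [Set.mem_union, not_or, Set.mem_singleton_iff] at hs
  exact hs.1 (sub_eq_zero.2 (h2 s hs.2))

/-- existence of derivatives -/
theorem MP.hasD [Fintype ι] {f : (ι → k) → k} (hf : MP f) (x₀ v : ι → k) :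
    ∃ d, HasD f x₀ v d := by
  obtain ⟨G, hG, h⟩ := taylor hf x₀
  have h6 : MP fun x : ι → k => ∑ i, G i x * v i :=
    MP.sum _ fun i _ => (hG i).mul (MP.const _)
  have h7 : IsPoly fun s : k => ∑ i, G i (x₀ + s • v) * v i := by
    refine h6.curve (σ := fun s => x₀ + s • v) fun i => ?_
    exact (D7.IsPoly.const _).add (D7.IsPoly.id.mul (D7.IsPoly.const _))
  obtain ⟨p, hp⟩ := h7
  refine ⟨p.coeff 0, fun s => p.divX.eval s, ⟨_, fun _ => rfl⟩, fun s => ?_⟩
  rw [h (x₀ + s • v)]
  have h4 : ∑ i, G i (x₀ + s • v) * ((x₀ + s • v) i - x₀ i) =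
      s * ∑ i, G i (x₀ + s • v) * v i := by
    rw [Finset.mul_sum]
    refine Finset.sum_congr rfl fun i _ => ?_
    simp only [Pi.add_apply, Pi.smul_apply, smul_eq_mul]
    ring
  have h5 := hp s
  simp only at h5
  rw [h4, h5]
  have h8 : p.eval s = p.divX.eval s * s + p.coeff 0 := by
    conv_lhs => rw [← Polynomial.divX_mul_X_add p]
    simp
  rw [h8]
  ring

/-- isolated zeros: as many equations as unknowns, nonsingular Jacobian matrix -/
theorem isolated [Infinite k] [Fintype ι] [DecidableEq ι] (F : ι → (ι → k) → k)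
    (hF : ∀ i, MP (F i)) (x₀ : ι → k) (h0 : ∀ i, F i x₀ = 0) (J : Matrix ι ι k)
    (hJ : ∀ i j, HasD (F i) x₀ (Pi.single j 1) (J i j)) (hJ0 : J.det ≠ 0) :
    ∃ h : (ι → k) → k, MP h ∧ h x₀ ≠ 0 ∧ ∀ x, (∀ i, F i x = 0) → h x ≠ 0 → x = x₀ := by
  choose G hG h1 using fun i => taylor (hF i) x₀
  have h2 : ∀ i j, J i j = G i j x₀ := by
    intro i j
    have := taylor_der (hG i) (h1 i) (hJ i j)
    rw [this, Finset.sum_eq_single j]
    · simp
    · intro b _ hb
      simp [hb]
    · simp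
  refine ⟨fun x => (Matrix.of fun i j => G i j x).det, ?_, ?_, fun x hx hne => ?_⟩
  · exact MP.det fun i j => hG i j
  · have h3 : (Matrix.of fun i j => G i j x₀) = J := by
      ext i j
      exact (h2 i j).symm
    simp only [h3]
    exact hJ0
  · have h4 : (Matrix.of fun i j => G i j x) *ᵥ (x - x₀) = 0 := by
      funext i
      have h5 := h1 i x
      rw [hx i, h0 i, zero_add] at h5
      rw [Pi.zero_apply, h5]
      rfl
    have h6 := Matrix.eq_zero_of_mulVec_eq_zero hne h4
    exact sub_eq_zero.1 h6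

end der

section smooth

variable {k ι κ μ n : Type*} [Field k] [Fintype n] [DecidableEq n] [Fintype ι] [Fintype κ]
  [DecidableEq κ] [Fintype μ] {ρ : ℕ → ℕ}

/-- **Smooth tool**: at a point where the equations have independent differentials every first
order move is allowed. `r`: directions on which the Jacobian matrix `J` of the equations is
nonsingular; `v`: a direction tangent to all equations; `g`: functions vanishing at the given point
with nonzero derivatives in the direction `v`. -/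
theorem smooth [IsAlgClosed k]
    (c : (ι → k) → Fin 3 → Matrix n n k) (hc : ∀ i a b, MP fun x => c x i a b)
    (F : κ → (ι → k) → k) (hF : ∀ j, MP (F j)) (q : (ι → k) → k) (hq : MP q)
    (hcn : ∀ x, (∀ j, F j x = 0) → q x ≠ 0 → CN (c x)) {x₀ : ι → k}
    (h0 : ∀ j, F j x₀ = 0) (hq0 : q x₀ ≠ 0) (hT : MaxR ρ (c x₀))
    (r : κ → ι → k) (J : Matrix κ κ k) (hJ : ∀ j i, HasD (F j) x₀ (r i) (J j i))
    (hJ0 : J.det ≠ 0) (v : ι → k) (hv : ∀ j, HasD (F j) x₀ v 0)
    (g : μ → (ι → k) → k) (hg : ∀ a, MP (g a)) (hg0 : ∀ a, g a x₀ = 0)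
    (d : μ → k) (hgd : ∀ a, HasD (g a) x₀ v (d a)) (hd : ∀ a, d a ≠ 0) :
    ∃ x, (∀ j, F j x = 0) ∧ q x ≠ 0 ∧ (∀ a, g a x ≠ 0) ∧ MaxR ρ (c x) := by
  classical
  -- the slice
  let σ : (κ ⊕ Unit → k) → ι → k := fun y =>
    x₀ + (∑ j, y (Sum.inl j) • r j) + y (Sum.inr ()) • v
  have hσ : ∀ i, MP fun y => σ y i := by
    intro i
    have h1 : (fun y : κ ⊕ Unit → k => σ y i) =
        fun y => x₀ i + (∑ j, y (Sum.inl j) * r j i) + y (Sum.inr ()) * v i := by
      funext y
      simp only [σ, Pi.add_apply, Finset.sum_apply, Pi.smul_apply, smul_eq_mul]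
    rw [h1]
    exact ((MP.const _).add (MP.sum _ fun j _ => (MP.coord _).mul (MP.const _))).add
      ((MP.coord _).mul (MP.const _))
  have hσ0 : σ 0 = x₀ := by simp [σ]
  have hσl : ∀ j (s : k), σ (0 + s • Pi.single (Sum.inl j) 1) = x₀ + s • r j := by
    intro j s
    simp only [σ, zero_add, Pi.smul_apply, smul_eq_mul]
    rw [Finset.sum_eq_single j]
    · simp
    · intro b _ hb
      simp [hb]
    · simp
  have hσr : ∀ s : k, σ (0 + s • Pi.single (Sum.inr ()) 1) = x₀ + s • v := by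
    intro s
    simp [σ]
  have hcomp : ∀ (f : (ι → k) → k) (w : κ ⊕ Unit) (u : ι → k) (e : k),
      (∀ s : k, σ (0 + s • Pi.single w 1) = x₀ + s • u) → HasD f x₀ u e →
      HasD (fun y => f (σ y)) 0 (Pi.single w 1) e := by
    rintro f w u e h1 ⟨R, hR, h2⟩
    refine ⟨R, hR, fun s => ?_⟩
    show f (σ (0 + s • Pi.single w 1)) = f (σ 0) + s * e + s ^ 2 * R s
    rw [h1, hσ0, h2]
  -- isolating functions
  have hiso : ∀ a, ∃ h : (κ ⊕ Unit → k) → k, MP h ∧ h 0 ≠ 0 ∧
      ∀ y, (∀ j, F j (σ y) = 0) → g a (σ y) = 0 → h y ≠ 0 → y = 0 := by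
    intro a
    choose e he using fun i => (hg a).hasD x₀ (r i)
    obtain ⟨h, h1, h2, h3⟩ := isolated (k := k) (ι := κ ⊕ Unit)
      (fun w y => Sum.elim (fun j => F j (σ y)) (fun _ => g a (σ y)) w)
      (by
        rintro (j | u)
        · exact (hF j).comp hσ
        · exact (hg a).comp hσ)
      0
      (by
        rintro (j | u)
        · simp only [Sum.elim_inl, hσ0]; exact h0 j
        · simp only [Sum.elim_inr, hσ0]; exact hg0 a)
      (Matrix.fromBlocks J 0 (Matrix.of fun _ i => e i) (Matrix.of fun _ _ => d a))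
      (by
        rintro (j | u) (i | w)
        · exact hcomp _ _ _ _ (hσl i) (hJ j i)
        · exact hcomp _ _ _ _ hσr (hv j)
        · exact hcomp _ _ _ _ (hσl i) (he i)
        · exact hcomp _ _ _ _ hσr (hgd a))
      (by
        rw [Matrix.det_fromBlocks_zero₁₂]
        refine mul_ne_zero hJ0 ?_
        rw [Matrix.det_unique]
        exact hd a)
    refine ⟨h, h1, h2, fun y hy1 hy2 hy3 => h3 y ?_ hy3⟩
    rintro (j | u)
    · exact hy1 j
    · exact hy2
  choose h hh1 hh2 hh3 using hiso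
  have hT' : MaxR ρ (c (σ 0)) := by rw [hσ0]; exact hT
  have hinf := krull (k := k) (ι := κ ⊕ Unit) (κ := κ) (by simp)
    (fun y => c (σ y)) (fun i a b => (hc i a b).comp hσ) (fun j y => F j (σ y))
    (fun j => (hF j).comp hσ) (fun y => q (σ y) * ∏ a, h a y)
    ((hq.comp hσ).mul (MP.prod _ fun a _ => hh1 a))
    (fun y hy hy' => hcn _ hy (left_ne_zero_of_mul hy')) (x₀ := 0)
    (fun j => by simp only [hσ0]; exact h0 j)
    (mul_ne_zero (by simp only [hσ0]; exact hq0) (Finset.prod_ne_zero_iff.2 fun a _ => hh2 a)) hT'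
  obtain ⟨y, ⟨hy1, hy2, hy3⟩, hy4⟩ := (hinf.sdiff (Set.finite_singleton 0)).nonempty
  refine ⟨σ y, hy1, left_ne_zero_of_mul hy2, fun a ha => hy4 ?_, hy3⟩
  exact hh3 a y hy1 ha (Finset.prod_ne_zero_iff.1 (right_ne_zero_of_mul hy2) a (Finset.mem_univ a))

/-- Smooth tool, surjective form: all values of the differential are attained. -/
theorem smooth' [IsAlgClosed k]
    (c : (ι → k) → Fin 3 → Matrix n n k) (hc : ∀ i a b, MP fun x => c x i a b)
    (F : κ → (ι → k) → k) (hF : ∀ j, MP (F j)) (q : (ι → k) → k) (hq : MP q)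
    (hcn : ∀ x, (∀ j, F j x = 0) → q x ≠ 0 → CN (c x)) {x₀ : ι → k}
    (h0 : ∀ j, F j x₀ = 0) (hq0 : q x₀ ≠ 0) (hT : MaxR ρ (c x₀))
    (hs : ∀ i : κ, ∃ r : ι → k, ∀ j, HasD (F j) x₀ r (if j = i then 1 else 0))
    (v : ι → k) (hv : ∀ j, HasD (F j) x₀ v 0)
    (g : μ → (ι → k) → k) (hg : ∀ a, MP (g a)) (hg0 : ∀ a, g a x₀ = 0)
    (d : μ → k) (hgd : ∀ a, HasD (g a) x₀ v (d a)) (hd : ∀ a, d a ≠ 0) :
    ∃ x, (∀ j, F j x = 0) ∧ q x ≠ 0 ∧ (∀ a, g a x ≠ 0) ∧ MaxR ρ (c x) := by
  choose r hr using hs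
  refine smooth c hc F hF q hq hcn h0 hq0 hT r 1 (fun j i => ?_) (by simp) v hv g hg hg0 d hgd hd
  have h1 := hr i j
  rw [Matrix.one_apply]
  exact h1

end smooth

section raise

variable {k ι κ n : Type*} [Field k] [Fintype n] [DecidableEq n] [Fintype ι] [Fintype κ]
  {ρ : ℕ → ℕ}

/-- the minors of size `ρ i + 1` of `M ^ i` vanish for `M` in `adj T`, `T` maximal -/
theorem minor_eq_zero [Infinite k] {T : Fin 3 → Matrix n n k} (hT : MaxR ρ T)
    {M : Matrix n n k} (hM : M ∈ adj T) (i : ℕ) {r : ℕ} (hr : ρ i < r) (f g : Fin r → n) :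
    ((M ^ i).submatrix f g).det = 0 := by
  by_contra h
  have h1 := le_rank_of_minor (M ^ i) f g h
  have h2 := hT.rank_le hM i
  omega

/-- raise with the smooth tool: a minor which is too large has a nonzero derivative -/
theorem smooth_raise [IsAlgClosed k] [DecidableEq κ]
    (c : (ι → k) → Fin 3 → Matrix n n k) (hc : ∀ i a b, MP fun x => c x i a b)
    (F : κ → (ι → k) → k) (hF : ∀ j, MP (F j)) (q : (ι → k) → k) (hq : MP q)
    (hcn : ∀ x, (∀ j, F j x = 0) → q x ≠ 0 → CN (c x)) {x₀ : ι → k}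
    (h0 : ∀ j, F j x₀ = 0) (hq0 : q x₀ ≠ 0) (hT : MaxR ρ (c x₀))
    (r : κ → ι → k) (J : Matrix κ κ k) (hJ : ∀ j i, HasD (F j) x₀ (r i) (J j i))
    (hJ0 : J.det ≠ 0) (v : ι → k) (hv : ∀ j, HasD (F j) x₀ v 0)
    (M : (ι → k) → Matrix n n k) (hM : ∀ x, M x ∈ adj (c x)) (hMp : ∀ a b, MP fun x => M x a b)
    (i : ℕ) {m : ℕ} (hm : ρ i < m) (f g : Fin m → n) {d : k}
    (hgd : HasD (fun x => ((M x ^ i).submatrix f g).det) x₀ v d) (hd : d ≠ 0) : False := by
  obtain ⟨x, -, -, h3, h4⟩ := smooth (μ := Unit) c hc F hF q hq hcn h0 hq0 hT r J hJ hJ0 v hv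
    (fun _ x => ((M x ^ i).submatrix f g).det)
    (fun _ => MP.det fun a b => MP.matPow hMp i (f a) (g b))
    (fun _ => minor_eq_zero hT (hM x₀) i hm f g) (fun _ => d) (fun _ => hgd) (fun _ => hd)
  exact h3 () (minor_eq_zero h4 (hM x) i hm f g)

end raise

end Pool.Agent.Lib.D13
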