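import Pool.Agent.Lib.D13.A1psi0

/-!
# MP_5dcbc3_ag: type (4,3,3,2), levels 1 | 4 | 4 | 3: maximal bad triples in the form `Tr`

`Bad ρ Y Z b b' B B'`: the triple `Tr Y Z P1 b b' c c' B B'` is a maximal bad triple for some
`c`, `c'`.  `Rl` are the relations.  Deformations, changes by polynomials in the Jordan matrix,
changes of bases.
-/

namespace Pool.Agent.Lib.D13.A1

open Matrix Pool.Agent.Lib Pool.Agent.Lib.D7 Pool.Agent.Lib.Q5dc

variable {k : Type*} [Field k]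

/-- reduction modulo the last vector -/
def P1 (k : Type*) [Field k] : Matrix (Fin 3) (Fin 4) k :=
  !![1, 0, 0, 0; 0, 1, 0, 0; 0, 0, 1, 0]

theorem P1_mulVec (u : Fin 4 → k) (i : Fin 3) : (P1 k *ᵥ u) i = u i.castSucc := by
  fin_cases i <;> simp [P1, Matrix.mulVec, dotProduct, Fin.sum_univ_four]

theorem P1_mul (M : Matrix (Fin 4) (Fin 4) k) (i : Fin 3) (j : Fin 4) :
    (P1 k * M) i j = M i.castSucc j := by
  fin_cases i <;> simp [P1, Matrix.mul_apply, Fin.sum_univ_four]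

theorem P1_eq_iff {u v : Fin 4 → k} :
    P1 k *ᵥ u = P1 k *ᵥ v ↔ u 0 = v 0 ∧ u 1 = v 1 ∧ u 2 = v 2 := by
  constructor
  · intro h
    have h0 := congrFun h 0
    have h1 := congrFun h 1
    have h2 := congrFun h 2
    rw [P1_mulVec, P1_mulVec] at h0 h1 h2
    exact ⟨h0, h1, h2⟩
  · rintro ⟨h0, h1, h2⟩
    ext i
    rw [P1_mulVec, P1_mulVec]
    fin_cases i
    · exact h0
    · exact h1
    · exact h2

/-- the relations -/
structure Rl (Y Z : Matrix (Fin 4) (Fin 4) k) (b b' : Fin 4 → k)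
    (B B' : Matrix (Fin 3) (Fin 4) k) : Prop where
  mm : P1 k * (Y * Z) = P1 k * (Z * Y)
  mv : Y *ᵥ (Z *ᵥ e0 k) = Z *ᵥ (Y *ᵥ e0 k)
  l1 : B *ᵥ e0 k = P1 k *ᵥ b
  l2 : B' *ᵥ e0 k = P1 k *ᵥ b'
  l3 : P1 k *ᵥ (Y *ᵥ b') + B *ᵥ (Z *ᵥ e0 k) = P1 k *ᵥ (Z *ᵥ b) + B' *ᵥ (Y *ᵥ e0 k)

theorem mk_nilp (a b : Fin 4 → k) (c : Fin 3 → k) (Y : Matrix (Fin 4) (Fin 4) k)
    (B P : Matrix (Fin 3) (Fin 4) k) : IsNilpotent (mk a b c Y B P) := by
  refine isNilpotent_of_weight _ lv ?_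
  intro i j h
  rcases i with i | i | i | i <;> rcases j with j | j | j | j <;> simp [lv, mk] at h ⊢

theorem mk_inj {a b a' b' : Fin 4 → k} {c c' : Fin 3 → k} {Y Y' : Matrix (Fin 4) (Fin 4) k}
    {B P B' P' : Matrix (Fin 3) (Fin 4) k} (h : mk a b c Y B P = mk a' b' c' Y' B' P') :
    a = a' ∧ b = b' ∧ c = c' ∧ Y = Y' ∧ B = B' ∧ P = P' := by
  have H := fun i j => congrFun (congrFun h i) j
  refine ⟨funext fun i => H (.inr (.inl i)) (.inl ()),
    funext fun i => H (.inr (.inr (.inl i))) (.inl ()),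
    funext fun i => H (.inr (.inr (.inr i))) (.inl ()), ?_, ?_, ?_⟩
  · ext i j
    exact H (.inr (.inr (.inl i))) (.inr (.inl j))
  · ext i j
    exact H (.inr (.inr (.inr i))) (.inr (.inl j))
  · ext i j
    exact H (.inr (.inr (.inr i))) (.inr (.inr (.inl j)))

variable {Y Z : Matrix (Fin 4) (Fin 4) k} {b b' : Fin 4 → k} {B B' : Matrix (Fin 3) (Fin 4) k}
  {ρ : ℕ → ℕ}

theorem Rl.cn (h : Rl Y Z b b' B B') (c c' : Fin 3 → k) :
    CN (Tr Y Z (P1 k) b b' c c' B B') := by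
  refine D8.cn3 ?_ ?_ ?_ (mk_nilp _ _ _ _ _ _) (mk_nilp _ _ _ _ _ _) (mk_nilp _ _ _ _ _ _)
  · refine mk_comm ?_ ?_ ?_
    · rw [Matrix.one_mulVec]
    · rw [Matrix.zero_mulVec, Matrix.mulVec_zero, zero_add, add_zero, h.l1]
    · rw [Matrix.mul_one]
  · refine mk_comm ?_ ?_ ?_
    · rw [Matrix.one_mulVec]
    · rw [Matrix.zero_mulVec, Matrix.mulVec_zero, zero_add, add_zero, h.l2]
    · rw [Matrix.mul_one]
  · refine mk_comm h.mv ?_ ?_
    · rw [← Matrix.mulVec_mulVec, ← Matrix.mulVec_mulVec]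
      exact h.l3
    · rw [Matrix.mul_assoc, Matrix.mul_assoc, h.mm]

/-- maximal bad triples -/
def Bad (ρ : ℕ → ℕ) (Y Z : Matrix (Fin 4) (Fin 4) k) (b b' : Fin 4 → k)
    (B B' : Matrix (Fin 3) (Fin 4) k) : Prop :=
  ∃ c c', MaxR ρ (Tr Y Z (P1 k) b b' c c' B B')

theorem Bad.rl (h : Bad ρ Y Z b b' B B') : Rl Y Z b b' B B' := by
  obtain ⟨c, c', hT⟩ := h
  have h01 := hT.cn.1 0 1
  have h02 := hT.cn.1 0 2
  have h12 := hT.cn.1 1 2
  change mk _ _ _ _ _ _ * mk _ _ _ _ _ _ = mk _ _ _ _ _ _ * mk _ _ _ _ _ _ at h01 h02 h12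
  rw [mk_mul, mk_mul] at h01 h02 h12
  obtain ⟨-, -, g1, -, -, -⟩ := mk_inj h01
  obtain ⟨-, -, g2, -, -, -⟩ := mk_inj h02
  obtain ⟨-, g3, g4, -, g5, -⟩ := mk_inj h12
  refine ⟨?_, g3, ?_, ?_, ?_⟩
  · rw [← Matrix.mul_assoc, ← Matrix.mul_assoc]
    exact g5
  · rw [Matrix.zero_mulVec, Matrix.mulVec_zero, zero_add, add_zero] at g1
    exact g1.symm
  · rw [Matrix.zero_mulVec, Matrix.mulVec_zero, zero_add, add_zero] at g2
    exact g2.symm
  · simpa only [Matrix.mulVec_mulVec] using g4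

/-- deformations -/
theorem Bad.deform [Infinite k] (h : Bad ρ Y Z b b' B B') {Ys Zs : k → Matrix (Fin 4) (Fin 4) k}
    {bs bs' : k → Fin 4 → k} {Bs Bs' : k → Matrix (Fin 3) (Fin 4) k} (hY : PM Ys) (hZ : PM Zs)
    (hb : ∀ i, IsPoly fun s => bs s i) (hb' : ∀ i, IsPoly fun s => bs' s i) (hB : PM Bs)
    (hB' : PM Bs') (y0 : Ys 0 = Y) (z0 : Zs 0 = Z) (b0 : bs 0 = b) (b0' : bs' 0 = b')
    (B0 : Bs 0 = B) (B0' : Bs' 0 = B') (hR : ∀ s, Rl (Ys s) (Zs s) (bs s) (bs' s) (Bs s) (Bs' s)) :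
    ∃ E : Set k, E.Finite ∧ ∀ s ∉ E, Bad ρ (Ys s) (Zs s) (bs s) (bs' s) (Bs s) (Bs' s) := by
  obtain ⟨c, c', hT⟩ := h
  have hei : ∀ i : Fin 4, IsPoly fun _ : k => e0 k i := fun i => D7.IsPoly.const _
  obtain ⟨E, hE, h1⟩ := hT.deform
    (fun s => Tr (Ys s) (Zs s) (P1 k) (bs s) (bs' s) c c' (Bs s) (Bs' s)) (by
      intro i x y
      have hs : PM fun s => Tr (Ys s) (Zs s) (P1 k) (bs s) (bs' s) c c' (Bs s) (Bs' s) i := by
        fin_cases i
        · exact mk_poly hei (fun _ => D7.IsPoly.const _) (fun _ => D7.IsPoly.const _) (PM.const _)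
            (PM.const _) (PM.const _)
        · exact mk_poly (hY.mulVec hei) hb (fun _ => D7.IsPoly.const _) hY hB ((PM.const _).mul hY)
        · exact mk_poly (hZ.mulVec hei) hb' (fun _ => D7.IsPoly.const _) hZ hB'
            ((PM.const _).mul hZ)
      exact hs x y) (by
      show Tr (Ys 0) (Zs 0) (P1 k) (bs 0) (bs' 0) c c' (Bs 0) (Bs' 0) = _
      rw [y0, z0, b0, b0', B0, B0']) Set.finite_empty (fun s _ => (hR s).cn c c')
  exact ⟨E, hE, fun s hs => ⟨c, c', h1 s hs⟩⟩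

/-- one member of the family outside of a finite set -/
theorem Bad.deform1 [Infinite k] (h : Bad ρ Y Z b b' B B')
    {Ys Zs : k → Matrix (Fin 4) (Fin 4) k}
    {bs bs' : k → Fin 4 → k} {Bs Bs' : k → Matrix (Fin 3) (Fin 4) k} (hY : PM Ys) (hZ : PM Zs)
    (hb : ∀ i, IsPoly fun s => bs s i) (hb' : ∀ i, IsPoly fun s => bs' s i) (hB : PM Bs)
    (hB' : PM Bs') (y0 : Ys 0 = Y) (z0 : Zs 0 = Z) (b0 : bs 0 = b) (b0' : bs' 0 = b')
    (B0 : Bs 0 = B) (B0' : Bs' 0 = B') (hR : ∀ s, Rl (Ys s) (Zs s) (bs s) (bs' s) (Bs s) (Bs' s))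
    {F : Set k} (hF : F.Finite) :
    ∃ s ∉ F, Bad ρ (Ys s) (Zs s) (bs s) (bs' s) (Bs s) (Bs' s) := by
  obtain ⟨E, hE, h1⟩ := h.deform hY hZ hb hb' hB hB' y0 z0 b0 b0' B0 B0' hR
  obtain ⟨s, hs⟩ := (hE.union hF).exists_notMem
  simp only [Set.mem_union, not_or] at hs
  exact ⟨s, hs.2, h1 s hs.1⟩

theorem mk_add (a b a' b' : Fin 4 → k) (c c' : Fin 3 → k) (Y Y' : Matrix (Fin 4) (Fin 4) k)
    (B P B' P' : Matrix (Fin 3) (Fin 4) k) : mk a b c Y B P + mk a' b' c' Y' B' P' =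
    mk (a + a') (b + b') (c + c') (Y + Y') (B + B') (P + P') := by
  ext i j
  rcases i with i | i | i | i <;> rcases j with j | j | j | j <;> simp [mk]

theorem mk_smul (s : k) (a b : Fin 4 → k) (c : Fin 3 → k) (Y : Matrix (Fin 4) (Fin 4) k)
    (B P : Matrix (Fin 3) (Fin 4) k) : s • mk a b c Y B P =
    mk (s • a) (s • b) (s • c) (s • Y) (s • B) (s • P) := by
  ext i j
  rcases i with i | i | i | i <;> rcases j with j | j | j | j <;> simp [mk]

/-- subtracting multiples of the Jordan matrix and of its square -/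
theorem Bad.sub (h : Bad ρ Y Z b b' B B') (μ ν γ δ : k) :
    Bad ρ (Y - μ • 1) (Z - ν • 1) (b - γ • e0 k) (b' - δ • e0 k) (B - γ • P1 k)
      (B' - δ • P1 k) := by
  obtain ⟨c, c', hT⟩ := h
  have h1 := D8.MaxR.lin hT 1 0 0 1 (-μ) (-γ) (-ν) (-δ) (by simp)
  refine ⟨c, c', ?_⟩
  have hxx : mk (e0 k) 0 0 1 0 (P1 k) * mk (e0 k) 0 0 1 0 (P1 k) =
      mk 0 (e0 k) 0 0 (P1 k) 0 := by
    rw [mk_mul]
    simp
  have e : (Tr (Y - μ • 1) (Z - ν • 1) (P1 k) (b - γ • e0 k) (b' - δ • e0 k) c c' (B - γ • P1 k)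
      (B' - δ • P1 k)) = ![mk (e0 k) 0 0 1 0 (P1 k),
      (1 : k) • mk (Y *ᵥ e0 k) b c Y B (P1 k * Y) + (0 : k) • mk (Z *ᵥ e0 k) b' c' Z B' (P1 k * Z) +
        (-μ) • mk (e0 k) 0 0 1 0 (P1 k) +
        (-γ) • (mk (e0 k) 0 0 1 0 (P1 k) * mk (e0 k) 0 0 1 0 (P1 k)),
      (0 : k) • mk (Y *ᵥ e0 k) b c Y B (P1 k * Y) + (1 : k) • mk (Z *ᵥ e0 k) b' c' Z B' (P1 k * Z) +
        (-ν) • mk (e0 k) 0 0 1 0 (P1 k) +
        (-δ) • (mk (e0 k) 0 0 1 0 (P1 k) * mk (e0 k) 0 0 1 0 (P1 k))] := by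
    rw [hxx]
    simp only [zero_smul, add_zero, zero_add, one_smul, mk_smul, mk_add, smul_zero]
    unfold Tr
    congr 1
    congr 1
    · congr 1
      · simp only [Matrix.sub_mulVec, Matrix.smul_mulVec, Matrix.one_mulVec]
        module
      · module
      · module
      · module
      · rw [Matrix.mul_sub, Matrix.mul_smul, Matrix.mul_one]
        module
    congr 1
    · congr 1
      · simp only [Matrix.sub_mulVec, Matrix.smul_mulVec, Matrix.one_mulVec]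
        module
      · module
      · module
      · module
      · rw [Matrix.mul_sub, Matrix.mul_smul, Matrix.mul_one]
        module
  rw [e]
  exact h1

/-! ### changes of bases -/

/-- block diagonal matrices -/
def dg (N : Matrix (Fin 3) (Fin 3) k) (M : Matrix (Fin 4) (Fin 4) k) : Matrix IB IB k :=
  Matrix.of fun r s => match r, s with
    | .inl _, .inl _ => 1
    | .inr (.inl i), .inr (.inl j) => M i j
    | .inr (.inr (.inl i)), .inr (.inr (.inl j)) => M i j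
    | .inr (.inr (.inr i)), .inr (.inr (.inr j)) => N i j
    | _, _ => 0

theorem dg_mul (N N' : Matrix (Fin 3) (Fin 3) k) (M M' : Matrix (Fin 4) (Fin 4) k) :
    dg N M * dg N' M' = dg (N * N') (M * M') := by
  ext r s
  rw [Matrix.mul_apply]
  rcases r with r | r | r | r <;> rcases s with s | s | s | s <;>
    simp [dg, Fintype.sum_sum_type, Matrix.mul_apply]

theorem dg_one : dg (1 : Matrix (Fin 3) (Fin 3) k) 1 = 1 := by
  ext r s
  rcases r with r | r | r | r <;> rcases s with s | s | s | s <;>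
    simp [dg, Matrix.one_apply]

theorem dg_mk (N : Matrix (Fin 3) (Fin 3) k) (M : Matrix (Fin 4) (Fin 4) k) (a b : Fin 4 → k)
    (c : Fin 3 → k) (Y : Matrix (Fin 4) (Fin 4) k) (B P : Matrix (Fin 3) (Fin 4) k) :
    dg N M * mk a b c Y B P = mk (M *ᵥ a) (M *ᵥ b) (N *ᵥ c) (M * Y) (N * B) (N * P) := by
  ext r s
  rw [Matrix.mul_apply]
  rcases r with r | r | r | r <;> rcases s with s | s | s | s <;>
    simp [dg, mk, Fintype.sum_sum_type, Matrix.mul_apply, Matrix.mulVec, dotProduct]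

theorem mk_dg (N : Matrix (Fin 3) (Fin 3) k) (M : Matrix (Fin 4) (Fin 4) k) (a b : Fin 4 → k)
    (c : Fin 3 → k) (Y : Matrix (Fin 4) (Fin 4) k) (B P : Matrix (Fin 3) (Fin 4) k) :
    mk a b c Y B P * dg N M = mk a b c (Y * M) (B * M) (P * M) := by
  ext r s
  rw [Matrix.mul_apply]
  rcases r with r | r | r | r <;> rcases s with s | s | s | s <;>
    simp [dg, mk, Fintype.sum_sum_type, Matrix.mul_apply, Matrix.mulVec, dotProduct]

/-- the matrix which acts by `N` on the first three vectors and fixes the last -/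
def up (N : Matrix (Fin 3) (Fin 3) k) : Matrix (Fin 4) (Fin 4) k :=
  !![N 0 0, N 0 1, N 0 2, 0; N 1 0, N 1 1, N 1 2, 0; N 2 0, N 2 1, N 2 2, 0; 0, 0, 0, 1]

theorem up_mul (N N' : Matrix (Fin 3) (Fin 3) k) : up N * up N' = up (N * N') := by
  ext i j
  fin_cases i <;> fin_cases j <;>
    simp [up, Matrix.mul_apply, Fin.sum_univ_four, Fin.sum_univ_three]

theorem up_one : up (1 : Matrix (Fin 3) (Fin 3) k) = 1 := by
  ext i j
  fin_cases i <;> fin_cases j <;> simp [up, Matrix.one_apply]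

theorem P1_up (N : Matrix (Fin 3) (Fin 3) k) : P1 k * up N = N * P1 k := by
  ext i j
  rw [P1_mul]
  fin_cases i <;> fin_cases j <;>
    simp [up, P1, Matrix.mul_apply, Fin.sum_univ_three]

/-- change of basis -/
theorem Bad.conj (h : Bad ρ Y Z b b' B B') {N N' : Matrix (Fin 3) (Fin 3) k} (h1 : N * N' = 1)
    (h2 : N' * N = 1) (h3 : ∀ i, N i 0 = if i = 0 then 1 else 0) :
    Bad ρ (up N * Y * up N') (up N * Z * up N') (up N *ᵥ b) (up N *ᵥ b') (N * B * up N')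
      (N * B' * up N') := by
  obtain ⟨c, c', hT⟩ := h
  have h4 : up N *ᵥ e0 k = e0 k := by
    rw [mulVec_e0]
    ext i
    fin_cases i <;> simp [up, e0, h3]
  have h6 : N' *ᵥ (fun i => if i = 0 then (1 : k) else 0) = fun i => if i = 0 then 1 else 0 := by
    have h7 : N *ᵥ (fun i => if i = 0 then (1 : k) else 0) = fun i => if i = 0 then 1 else 0 := by
      ext i
      simp [Matrix.mulVec, dotProduct, h3]
    calc N' *ᵥ (fun i => if i = 0 then (1 : k) else 0)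
        = N' *ᵥ (N *ᵥ (fun i => if i = 0 then (1 : k) else 0)) := by rw [h7]
      _ = _ := by rw [Matrix.mulVec_mulVec, h2, Matrix.one_mulVec]
  have h5 : up N' *ᵥ e0 k = e0 k := by
    rw [mulVec_e0]
    have h8 : ∀ i, N' i 0 = if i = 0 then 1 else 0 := by
      intro i
      have h9 := congrFun h6 i
      simpa [Matrix.mulVec, dotProduct] using h9
    ext i
    fin_cases i <;> simp [up, e0, h8]
  have u1 : up N * up N' = 1 := by rw [up_mul, h1, up_one]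
  have u2 : up N' * up N = 1 := by rw [up_mul, h2, up_one]
  have h10 := hT.conj (dg N (up N)) (dg N' (up N')) (by rw [dg_mul, h1, u1, dg_one])
    (by rw [dg_mul, h2, u2, dg_one])
  refine ⟨N *ᵥ c, N *ᵥ c', ?_⟩
  have e : (fun i => dg N (up N) * Tr Y Z (P1 k) b b' c c' B B' i * dg N' (up N')) =
      Tr (up N * Y * up N') (up N * Z * up N') (P1 k) (up N *ᵥ b) (up N *ᵥ b') (N *ᵥ c)
        (N *ᵥ c') (N * B * up N') (N * B' * up N') := by
    funext i
    fin_cases i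
    · show dg N (up N) * mk _ _ _ _ _ _ * dg N' (up N') = mk _ _ _ _ _ _
      rw [dg_mk, mk_dg, h4, Matrix.mulVec_zero, Matrix.mulVec_zero, Matrix.mul_one, u1,
        Matrix.mul_zero, Matrix.zero_mul, ← P1_up, Matrix.mul_assoc, u1, Matrix.mul_one]
    · show dg N (up N) * mk _ _ _ _ _ _ * dg N' (up N') = mk _ _ _ _ _ _
      rw [dg_mk, mk_dg]
      congr 1
      · rw [← Matrix.mulVec_mulVec _ _ (up N'), h5, ← Matrix.mulVec_mulVec]
      · rw [← Matrix.mul_assoc, ← Matrix.mul_assoc, ← Matrix.mul_assoc, P1_up]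
    · show dg N (up N) * mk _ _ _ _ _ _ * dg N' (up N') = mk _ _ _ _ _ _
      rw [dg_mk, mk_dg]
      congr 1
      · rw [← Matrix.mulVec_mulVec _ _ (up N'), h5, ← Matrix.mulVec_mulVec]
      · rw [← Matrix.mul_assoc, ← Matrix.mul_assoc, ← Matrix.mul_assoc, P1_up]
  rwa [e] at h10

end Pool.Agent.Lib.D13.A1
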