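import Pool.Agent.Lib.D7.Api

/-!
# MP_5dcbc3_ag: matrices with a cyclic vector

Every square matrix over an algebraically closed field commutes with a matrix which has a cyclic
vector; what commutes with such a matrix is a polynomial in it; in a polynomial family, one
matrix with a cyclic vector implies the same for all but finitely many parameters.
-/

namespace Pool.Agent.Lib.D13.CycGen

open Polynomial Matrix Pool.Agent.Lib.D7

variable {k : Type*} [Field k]

/-- `ζ` is a cyclic vector of `g` -/
def IsCyc {V : Type*} [AddCommGroup V] [Module k V] (g : Module.End k V) (ζ : V) : Prop :=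
  ∀ x, ∃ p : k[X], aeval g p ζ = x

theorem exists_cyc [IsAlgClosed k] {V : Type*} [AddCommGroup V] [Module k V]
    [FiniteDimensional k V] (f : Module.End k V) :
    ∃ (g : Module.End k V) (ζ : V), (∀ v, g (f v) = f (g v)) ∧ IsCyc g ζ := by
  classical
  have htor : Module.IsTorsion k[X] (Module.AEval' f) :=
    Module.AEval.isTorsion_of_finiteDimensional k V f
  obtain ⟨ι, hι, p, hp, e, ⟨E⟩⟩ := Module.equiv_directSum_of_isTorsion htor
  have hroot : ∀ i, ∃ l : k, Associated (X - C l) (p i) := by
    intro i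
    have h1 : (p i).degree = 1 := IsAlgClosed.degree_eq_one_of_irreducible k (hp i)
    obtain ⟨l, hl⟩ := exists_root_of_degree_eq_one h1
    refine ⟨l, ?_⟩
    refine associated_of_dvd_of_degree_eq (dvd_iff_isRoot.2 hl) ?_
    rw [h1, degree_X_sub_C]
  choose l hl using hroot
  have : Infinite k := IsAlgClosed.instInfinite
  let d : ι ↪ k := (Fintype.equivFin ι).toEmbedding.trans
    (Fin.valEmbedding.trans (Infinite.natEmbedding k))
  let c : ι → k := fun i => d i - l i
  let E' : Module.AEval' f ≃ₗ[k[X]] (∀ i, k[X] ⧸ Submodule.span k[X] {p i ^ e i}) :=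
    E.trans (DirectSum.linearEquivFunOnFintype _ _ _)
  let Ψ : (∀ i, k[X] ⧸ Submodule.span k[X] {p i ^ e i}) →ₗ[k[X]]
      (∀ i, k[X] ⧸ Submodule.span k[X] {p i ^ e i}) :=
    LinearMap.pi fun i => (X + C (c i)) • LinearMap.proj i
  let g0 : Module.AEval' f →ₗ[k[X]] Module.AEval' f :=
    E'.symm.toLinearMap ∘ₗ Ψ ∘ₗ E'.toLinearMap
  let g : Module.End k V := (Module.AEval'.of f).symm.toLinearMap ∘ₗ
    (g0.restrictScalars k) ∘ₗ (Module.AEval'.of f).toLinearMap
  have hg : ∀ v, g v = (Module.AEval'.of f).symm (g0 (Module.AEval'.of f v)) := fun v => rfl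
  let z : ∀ i, k[X] ⧸ Submodule.span k[X] {p i ^ e i} := fun i => Submodule.Quotient.mk 1
  let ζ : V := (Module.AEval'.of f).symm (E'.symm z)
  refine ⟨g, ζ, ?_, ?_⟩
  · intro v
    rw [hg, hg, ← Module.AEval'.X_smul_of, map_smul, Module.AEval'.of_symm_X_smul]
  · have key : ∀ q : k[X], E' (Module.AEval'.of f (aeval g q ζ)) = fun i =>
        Submodule.Quotient.mk (q.comp (X + C (c i))) := by
      intro q
      induction q using Polynomial.induction_on with
      | C a =>
        rw [aeval_C, Module.algebraMap_end_apply, map_smul]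
        have h1 : a • (Module.AEval'.of f ζ) = C a • (Module.AEval'.of f ζ) := by
          rw [Module.AEval.C_smul]
        rw [h1, map_smul]
        have h2 : E' (Module.AEval'.of f ζ) = z := by
          show E' (Module.AEval'.of f ((Module.AEval'.of f).symm (E'.symm z))) = z
          rw [LinearEquiv.apply_symm_apply, LinearEquiv.apply_symm_apply]
        rw [h2]
        funext i
        change C a • (Submodule.Quotient.mk (1 : k[X]) : k[X] ⧸ Submodule.span k[X] {p i ^ e i}) = _
        rw [← Submodule.Quotient.mk_smul, C_comp, smul_eq_mul, mul_one]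
      | add q r hq hr =>
        rw [map_add, LinearMap.add_apply, map_add, map_add, hq, hr]
        funext i
        rw [Pi.add_apply, ← Submodule.Quotient.mk_add, add_comp]
      | monomial n a h =>
        have h1 : C a * X ^ (n + 1) = X * (C a * X ^ n) := by ring
        rw [h1, map_mul, aeval_X, Module.End.mul_apply, hg, LinearEquiv.apply_symm_apply]
        have h2 : ∀ m, E' (g0 m) = Ψ (E' m) := by
          intro m
          show E' (E'.symm (Ψ (E' m))) = Ψ (E' m)
          rw [LinearEquiv.apply_symm_apply]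
        rw [h2, h]
        funext i
        change (X + C (c i)) • (Submodule.Quotient.mk ((C a * X ^ n).comp (X + C (c i))) :
          k[X] ⧸ Submodule.span k[X] {p i ^ e i}) = _
        have h3 : (X * (C a * X ^ n)).comp (X + C (c i)) =
            (X + C (c i)) * (C a * X ^ n).comp (X + C (c i)) := by
          rw [mul_comp X (C a * X ^ n), X_comp]
        rw [← Submodule.Quotient.mk_smul, smul_eq_mul, h3]
    intro x
    have hmk : ∀ i, ∃ h : k[X], (Submodule.Quotient.mk h :
        k[X] ⧸ Submodule.span k[X] {p i ^ e i}) = E' (Module.AEval'.of f x) i := fun i =>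
      Submodule.Quotient.mk_surjective _ _
    choose h hh using hmk
    have hcrt := IsDedekindDomain.exists_forall_sub_mem_ideal (s := (Finset.univ : Finset ι))
      (fun i => Ideal.span {X - C (d i)}) e ?_ ?_ (fun i => (h i).comp (X - C (c i)))
    · obtain ⟨q, hq⟩ := hcrt
      refine ⟨q, ?_⟩
      apply (Module.AEval'.of f).injective
      apply E'.injective
      rw [key]
      funext i
      rw [← hh i, Submodule.Quotient.eq]
      have h1 := hq i (Finset.mem_univ i)
      rw [Ideal.span_singleton_pow, Ideal.mem_span_singleton] at h1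
      obtain ⟨r, hr⟩ := h1
      have h2 : q.comp (X + C (c i)) - h i = (X - C (l i)) ^ e i * r.comp (X + C (c i)) := by
        have h3 := congrArg (fun t : k[X] => t.comp (X + C (c i))) hr
        simp only [sub_comp, mul_comp, pow_comp, comp_assoc, X_comp, C_comp] at h3
        have h4 : (X : k[X]) + C (c i) - C (c i) = X := by ring
        have h5 : (X : k[X]) + C (c i) - C (d i) = X - C (l i) := by
          show X + C (d i - l i) - C (d i) = _
          rw [map_sub]
          ring
        rw [h4, h5, comp_X] at h3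
        exact h3
      rw [h2]
      obtain ⟨t, ht⟩ := (hl i).symm.dvd
      refine Submodule.mem_span_singleton.2 ⟨t ^ e i * r.comp (X + C (c i)), ?_⟩
      rw [ht, mul_pow, smul_eq_mul]
      ring
    · intro i _
      have h1 : (Ideal.span {(X : k[X]) - C (d i)}).IsPrime :=
        (Ideal.span_singleton_prime (X_sub_C_ne_zero _)).2 (prime_X_sub_C _)
      exact Ideal.prime_of_isPrime (by
        rw [Ne, Ideal.span_singleton_eq_bot]
        exact X_sub_C_ne_zero _) h1
    · intro i _ j _ hij heq
      rw [Ideal.span_singleton_eq_span_singleton] at heq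
      have h1 := (heq.dvd_iff_dvd_right (a := X - C (d i))).1 dvd_rfl
      rw [dvd_iff_isRoot, IsRoot.def, eval_sub, eval_X, eval_C, sub_eq_zero] at h1
      exact hij (d.injective h1)

/-! ### matrices -/

/-- `ζ` is a cyclic vector of `R` -/
def Cyc {ι : Type*} [Fintype ι] [DecidableEq ι] (R : Matrix ι ι k) (ζ : ι → k) : Prop :=
  ∀ x, ∃ p : k[X], aeval R p *ᵥ ζ = x

theorem exists_commute_cyc [IsAlgClosed k] {ι : Type*} [Fintype ι] [DecidableEq ι]
    (N : Matrix ι ι k) : ∃ (R : Matrix ι ι k) (ζ : ι → k), R * N = N * R ∧ Cyc R ζ := by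
  obtain ⟨g, ζ, h1, h2⟩ := exists_cyc (Matrix.toLinAlgEquiv' N)
  refine ⟨Matrix.toLinAlgEquiv'.symm g, ζ, ?_, ?_⟩
  · apply Matrix.toLinAlgEquiv'.injective
    rw [map_mul, map_mul, AlgEquiv.apply_symm_apply]
    exact LinearMap.ext fun v => h1 v
  · intro x
    obtain ⟨p, hp⟩ := h2 x
    refine ⟨p, ?_⟩
    have h3 : aeval g p = Matrix.toLinAlgEquiv' (aeval (Matrix.toLinAlgEquiv'.symm g) p) := by
      have h4 := Polynomial.aeval_algHom_apply (Matrix.toLinAlgEquiv' : Matrix ι ι k ≃ₐ[k] _).toAlgHom
        (Matrix.toLinAlgEquiv'.symm g) p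
      have h5 : (Matrix.toLinAlgEquiv' : Matrix ι ι k ≃ₐ[k] _).toAlgHom
        (Matrix.toLinAlgEquiv'.symm g) = g := AlgEquiv.apply_symm_apply _ _
      rw [h5] at h4
      exact h4
    rw [h3] at hp
    exact hp

section

variable {n : ℕ}

theorem Cyc.poly {R Z : Matrix (Fin n) (Fin n) k} {ζ : Fin n → k} (h : Cyc R ζ)
    (hc : Z * R = R * Z) : ∃ p : k[X], Z = aeval R p := by
  obtain ⟨p, hp⟩ := h (Z *ᵥ ζ)
  refine ⟨p, ?_⟩
  have hcom : ∀ q : k[X], Z * aeval R q = aeval R q * Z := by
    intro q
    induction q using Polynomial.induction_on with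
    | C a => rw [aeval_C, Algebra.commutes]
    | add q r hq hr => rw [map_add, mul_add, add_mul, hq, hr]
    | monomial m a h =>
      have h1 : C a * X ^ (m + 1) = (C a * X ^ m) * X := by ring
      rw [h1, map_mul, aeval_X, ← mul_assoc, h, mul_assoc, hc, ← mul_assoc]
  have hcom2 : ∀ q : k[X], aeval R p * aeval R q = aeval R q * aeval R p := by
    intro q
    rw [← map_mul, mul_comm, map_mul]
  have key : ∀ x : Fin n → k, Z *ᵥ x = aeval R p *ᵥ x := by
    intro x
    obtain ⟨q, hq⟩ := h x
    rw [← hq, Matrix.mulVec_mulVec, Matrix.mulVec_mulVec, hcom, hcom2, ← Matrix.mulVec_mulVec,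
      ← Matrix.mulVec_mulVec, hp]
  ext i j
  have h1 := congrFun (key (Pi.single j 1)) i
  simpa using h1

/-- the Krylov matrix -/
def Kr (R : Matrix (Fin n) (Fin n) k) (ζ : Fin n → k) : Matrix (Fin n) (Fin n) k :=
  Matrix.of fun i j => (R ^ (j : ℕ) *ᵥ ζ) i

theorem Kr_mulVec (R : Matrix (Fin n) (Fin n) k) (ζ a : Fin n → k) :
    Kr R ζ *ᵥ a = ∑ j : Fin n, a j • (R ^ (j : ℕ) *ᵥ ζ) := by
  ext i
  rw [Finset.sum_apply]
  simp only [Matrix.mulVec, dotProduct, Kr, Matrix.of_apply, Pi.smul_apply, smul_eq_mul]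
  exact Finset.sum_congr rfl fun j _ => mul_comm _ _

theorem Cyc.det_ne {R : Matrix (Fin (n + 1)) (Fin (n + 1)) k} {ζ : Fin (n + 1) → k}
    (h : Cyc R ζ) : (Kr R ζ).det ≠ 0 := by
  have h1 : ∀ x, ∃ a, Kr R ζ *ᵥ a = x := by
    intro x
    obtain ⟨p, hp⟩ := h x
    have h2 : aeval R (p %ₘ R.charpoly) = aeval R p := by
      have h3 := congrArg (aeval R) (modByMonic_add_div p R.charpoly)
      rw [map_add, map_mul, Matrix.aeval_self_charpoly, zero_mul, add_zero] at h3
      exact h3
    have h3 : (p %ₘ R.charpoly).natDegree < n + 1 := by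
      have h4 := natDegree_modByMonic_lt p (Matrix.charpoly_monic R) (by
        intro h5
        have h6 := Matrix.charpoly_natDegree_eq_dim R
        rw [h5, natDegree_one, Fintype.card_fin] at h6
        omega)
      rwa [Matrix.charpoly_natDegree_eq_dim, Fintype.card_fin] at h4
    refine ⟨fun j => (p %ₘ R.charpoly).coeff j, ?_⟩
    rw [Kr_mulVec, ← hp, ← h2, aeval_eq_sum_range' h3, Finset.sum_range, Matrix.sum_mulVec]
    exact Finset.sum_congr rfl fun j _ => (Matrix.smul_mulVec _ _ _).symm
  choose a ha using h1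
  have h2 : Kr R ζ * Matrix.of (fun i j => a (Pi.single j 1) i) = 1 := by
    ext i j
    have h3 := congrFun (ha (Pi.single j 1)) i
    rw [Matrix.mul_apply]
    simp only [Matrix.mulVec, dotProduct] at h3
    simp only [Matrix.of_apply]
    rw [h3, Matrix.one_apply, Pi.single_apply]
  intro h3
  have h4 := congrArg Matrix.det h2
  rw [Matrix.det_mul, h3, zero_mul, Matrix.det_one] at h4
  exact zero_ne_one h4

theorem cyc_of_det {R : Matrix (Fin n) (Fin n) k} {ζ : Fin n → k} (h : (Kr R ζ).det ≠ 0) :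
    Cyc R ζ := by
  intro x
  have h1 : Kr R ζ *ᵥ ((Kr R ζ)⁻¹ *ᵥ x) = x := by
    rw [Matrix.mulVec_mulVec, Matrix.mul_nonsing_inv _ (isUnit_iff_ne_zero.2 h),
      Matrix.one_mulVec]
  refine ⟨∑ j : Fin n, C (((Kr R ζ)⁻¹ *ᵥ x) j) * X ^ (j : ℕ), ?_⟩
  rw [map_sum, Matrix.sum_mulVec]
  conv_rhs => rw [← h1, Kr_mulVec]
  refine Finset.sum_congr rfl fun j _ => ?_
  rw [map_mul, aeval_C, map_pow, aeval_X, ← Algebra.smul_def, Matrix.smul_mulVec]

end

end Pool.Agent.Lib.D13.CycGen
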