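import Pool.Agent.Lib.D13.Refl

/-!
# MP_5dcbc3_ag: density certificates, h = (1,4,4,3) (type 4332, four lines), d = 12: `x, y, z = t, t ^ 3, t ^ 4`
-/

namespace Pool.Agent.Lib.D13.R1443

open Refl

/-- the base point -/
def bs : Base where
  lev := [0, 1, 1, 1, 1, 2, 2, 2, 2, 3, 3, 3]
  pw := [[[(0, 1)], [(1, 1)], [(2, 1)], [(3, 1)], [(4, 1)], [(5, 1)], [(6, 1)], [(7, 1)], [(8, 1)],
      [(9, 1)], [(10, 1)], [(11, 1)]],
    [[], [(0, 1)], [(1, 1)], [(2, 1)], [(3, 1)], [(4, 1)], [(5, 1)], [(6, 1)], [(7, 1)], [(8,
      1)], [(9, 1)], [(10, 1)]],
    [[], [], [(0, 1)], [(1, 1)], [(2, 1)], [(3, 1)], [(4, 1)], [(5, 1)], [(6, 1)], [(7, 1)],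
      [(8, 1)], [(9, 1)]],
    [[], [], [], [(0, 1)], [(1, 1)], [(2, 1)], [(3, 1)], [(4, 1)], [(5, 1)], [(6, 1)], [(7,
      1)], [(8, 1)]],
    [[], [], [], [], [(0, 1)], [(1, 1)], [(2, 1)], [(3, 1)], [(4, 1)], [(5, 1)], [(6, 1)], [(7,
      1)]],
    [[], [], [], [], [], [(0, 1)], [(1, 1)], [(2, 1)], [(3, 1)], [(4, 1)], [(5, 1)], [(6, 1)]],
    [[], [], [], [], [], [], [(0, 1)], [(1, 1)], [(2, 1)], [(3, 1)], [(4, 1)], [(5, 1)]],
    [[], [], [], [], [], [], [], [(0, 1)], [(1, 1)], [(2, 1)], [(3, 1)], [(4, 1)]],
    [[], [], [], [], [], [], [], [], [(0, 1)], [(1, 1)], [(2, 1)], [(3, 1)]],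
    [[], [], [], [], [], [], [], [], [], [(0, 1)], [(1, 1)], [(2, 1)]],
    [[], [], [], [], [], [], [], [], [], [], [(0, 1)], [(1, 1)]],
    [[], [], [], [], [], [], [], [], [], [], [], [(0, 1)]]]
  xc := [[(1, 1)], [(3, 1)], [(4, 1)]]
  X := [[[], [(0, 1)], [(1, 1)], [(2, 1)], [(3, 1)], [(4, 1)], [(5, 1)], [(6, 1)], [(7, 1)], [(8,
      1)], [(9, 1)], [(10, 1)]],
    [[], [], [], [(0, 1)], [(1, 1)], [(2, 1)], [(3, 1)], [(4, 1)], [(5, 1)], [(6, 1)], [(7,
      1)], [(8, 1)]],
    [[], [], [], [], [(0, 1)], [(1, 1)], [(2, 1)], [(3, 1)], [(4, 1)], [(5, 1)], [(6, 1)], [(7,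
      1)]]]

theorem bs_ck : bs.ck 12 = true := by decide +kernel

/-- certificate -/
def ce1 : Cer where
  den := 12
  N := [[[(180, 12), (219, 12)],
      [],
      [],
      [],
      [],
      [],
      [],
      [],
      [],
      [],
      [],
      []],
    [[(192, 12), (244, -12), (387, 12)],
      [(12, -12), (116, 12), (180, 12), (219, 12), (232, -12), (258, -12), (271, -12), (388, 12),
      (414, 12)],
      [(207, -12), (220, 12), (350, 12), (363, 12), (376, -12), (428, -12)],
      [(208, -4), (260, 4), (312, -4), (351, 12), (403, -4), (416, -4)],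
      [(300, -8), (352, 4), (404, 4)],
      [],
      [],
      [],
      [],
      [],
      [],
      []],
    [[(75, 12), (88, 24), (114, 12), (140, 12), (269, 12), (282, -12), (360, 12), (399, -12)],
      [(24, -12), (63, 9), (76, 3), (192, 12), (218, -3), (231, -3), (244, -6), (374, 3), (387,
      6)],
      [(206, 12), (258, -12), (401, 12)],
      [(324, -4), (363, 12), (376, -4), (428, -4)],
      [(208, 4), (260, -4), (312, -8), (403, 4), (416, 4)],
      [],
      [],
      [],
      [],
      [],
      [],
      []],
    [[(48, 12), (87, -24), (113, 12), (255, -12), (268, 12), (385, 12), (411, -12)],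
      [(75, 12), (88, 12), (114, 12), (140, 12), (269, 12), (282, -12), (373, 12), (399, -12)],
      [(63, 6), (76, -6), (218, 6), (231, -6), (374, 6)],
      [(219, 12)],
      [(324, -8), (376, 4), (428, 4)],
      [],
      [],
      [],
      [],
      [],
      [],
      []],
    [[(60, 12), (73, 12)],
      [(87, -12), (113, 12), (255, -12), (268, 12), (385, 12), (411, -12)],
      [(75, 12), (88, 12), (114, 12), (386, 12), (399, -12)],
      [(63, 3), (76, -3), (218, 3), (231, 3), (244, -6), (374, -3), (387, 6)],
      [(232, 12), (271, 12), (414, -12)],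
      [],
      [],
      [],
      [],
      [],
      [],
      []],
    [[(72, 12), (137, 12), (409, 12), (422, -12)],
      [(73, 12)],
      [(87, -12), (113, 12), (242, 12), (255, -12)],
      [(75, 12), (88, 12)],
      [],
      [(258, -12), (401, 12)],
      [(207, -12), (220, 12), (324, 4), (363, 12), (376, -8), (428, -8)],
      [],
      [(300, -4), (352, -4), (404, 8)],
      [],
      [],
      []],
    [[(110, 12), (123, 24), (136, 24), (252, 12), (278, -12)],
      [(137, 12), (409, 12), (422, -12)],
      [],
      [],
      [(88, 12)],
      [(63, 9), (76, -9), (218, -3), (231, -3), (244, 6), (374, 3), (387, -6)],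
      [],
      [],
      [(208, -4), (260, 4), (312, -4), (403, -4), (416, 8)],
      [],
      [],
      []],
    [[(135, 12), (264, 12), (277, -12)],
      [(110, 12), (123, 24), (136, 12), (252, 12), (278, -12), (408, -12), (421, 12)],
      [],
      [(125, -12), (254, -12), (267, 12)],
      [],
      [],
      [(63, 6), (76, -6), (218, 6), (231, -6), (374, -6)],
      [(271, 12), (414, -12)],
      [(324, -4), (376, -4), (428, 8)],
      [],
      [],
      []],
    [[(108, 12), (121, 12)],
      [],
      [(110, 12), (123, 12), (136, 12)],
      [(98, -12)],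
      [(125, -12), (138, -12), (254, -12), (280, 12)],
      [(229, 12), (268, -12), (385, -12), (411, 12)],
      [(140, -12), (269, -12), (282, 12)],
      [(63, 3), (76, -3), (218, 3), (231, 3), (244, -6), (374, -3), (387, -6)],
      [(232, 12), (271, 12), (388, -12), (414, -12)],
      [],
      [],
      []],
    [[(120, 12)],
      [(121, 12)],
      [(109, -12)],
      [(123, 12), (136, 12)],
      [(98, -12), (111, -12)],
      [(112, -12), (125, -12), (138, -12), (254, -12), (280, 12)],
      [(87, 12), (113, -12), (229, 12), (268, -12), (385, -12), (411, 12)],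
      [(114, -12), (140, -12), (269, -12), (282, 12)],
      [(400, -12)],
      [(258, -12)],
      [(220, 12), (259, -12), (324, 8), (376, -4), (428, -4)],
      [(208, 4), (260, -4), (312, 4), (403, -8), (416, 4)]],
    [[],
      [],
      [],
      [(109, -12), (122, -12)],
      [(136, 12)],
      [(98, -12), (111, -12), (124, -12)],
      [(112, -12), (125, -24), (138, -12), (254, -12), (280, 12)],
      [(87, 12), (113, -12), (229, 12), (255, 12), (268, -24), (385, -12), (411, 12)],
      [(75, -12), (114, -12), (140, -12), (217, 12), (269, -24), (282, 12), (373, -12), (399,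
      12)],
      [(63, 9), (76, -9), (218, -3), (231, -3), (244, 6), (374, 3), (387, -6), (413, -12)],
      [(414, -12)],
      [(220, 12), (272, -12), (324, 4), (376, -8), (428, 4)]],
    [[],
      [],
      [(133, -12)],
      [(134, -12)],
      [(109, -12), (122, -12), (135, -12)],
      [],
      [(98, -12), (111, -12), (124, -12), (137, -12)],
      [(112, -12), (125, -24), (138, -24), (254, -12), (280, 12)],
      [(87, 24), (113, -12), (139, -12), (229, 12), (255, 12), (268, -24), (385, -12), (411,
      12)],
      [(75, -12), (114, -12), (140, -24), (217, 12), (269, -24), (282, 12), (373, -12), (399,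
      12)],
      [(63, 6), (76, -6), (218, 6), (231, -6), (374, -6), (426, -12)],
      [(232, 12), (271, 12), (284, -12), (388, -12), (414, -12)]]]
  A := [[[(116, 12), (232, -12), (258, -12), (271, -12), (388, 12), (414, 12)],
      [(63, 9), (76, 3), (218, -3), (231, -3), (244, 6), (374, 3), (387, -6)],
      [],
      [(87, 12)],
      [],
      [],
      [],
      [],
      [],
      [],
      [(132, 12)]],
    [[(208, 8), (260, 4), (312, 8), (403, -4), (416, -4)],
      [(220, 12), (324, 8), (376, -4), (428, -4)],
      [],
      [(63, 3), (76, -3), (218, 3), (231, 3), (244, 6), (374, -3), (387, -6)],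
      [(75, -12), (114, -12), (140, -12), (217, 12), (269, -12), (282, 12), (373, -12), (399,
      12)],
      [(87, 12), (113, -12), (229, 12), (255, 12), (268, -12), (385, -12), (411, 12)],
      [(112, -12), (125, -12), (138, -12), (280, 12)],
      [(98, -12), (111, -12), (124, -12), (266, 12)],
      [(110, -12), (123, -12), (136, -12), (278, 12)],
      [(109, -12), (122, -12), (135, -12), (277, 12)],
      [(108, -12), (121, -12), (134, -12), (276, 12)]],
    [[(300, 4), (352, 4), (404, 4)],
      [(208, 4), (260, -4), (312, 4), (403, 4), (416, 4)],
      [(324, 4), (376, 4), (428, 4)],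
      [],
      [],
      [(75, -12), (88, -12), (114, -12), (140, -12), (269, -12), (282, 12), (399, 12)],
      [(87, 12), (113, -12), (229, 12), (255, 12), (268, -24), (385, -12), (411, 24)],
      [(112, -12), (125, -12), (138, -24), (267, -12), (280, 12), (423, 12)],
      [(98, -12), (111, -12), (124, -12), (137, -12), (422, 12)],
      [(110, -12), (123, -24), (136, -12), (252, -12), (278, 12), (408, 12)],
      [(109, -12), (122, -12), (135, -24), (264, -12), (277, 12), (420, 12)]]]
  W := [[[],
      [],
      [],
      [[(228, -12)]],
      [],
      [[],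
       [(110, 12), (123, 12), (253, -12), (266, -12)],
       [(254, -12)],
       [],
       [(256, -12)]],
      [[],
       [],
       [(110, -12)]],
      [[(276, -12)],
       [(277, -12)],
       [(122, -12)]],
      [[(132, -12)],
       [(120, -12), (133, -12), (276, 12)],
       [],
       [(135, -12)],
       [(84, -12), (240, 12), (408, -12)]],
      [[],
       [],
       [],
       [],
       [],
       [],
       [],
       [(255, 12)]],
      [[],
       [],
       [],
       [],
       [],
       [],
       [(123, 12)],
       [(72, -12), (124, 12), (228, 12), (396, -12)],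
       [(268, 12)]],
      []],
    [[],
      [[(348, -12)]],
      [[(360, -12)]],
      [],
      [],
      [[(72, 12), (228, -12)],
       [(60, -12)]],
      [[(84, 12)]],
      [[(96, 12), (109, 12), (135, 12)],
       [],
       [(72, 12), (124, -12), (228, -12), (267, 12), (280, 12), (396, 12), (422, -12)]],
      [[(108, 12), (121, 12), (277, -12)],
       [(109, 12)],
       [],
       [(72, 12), (111, 12), (228, -12), (396, 12)]],
      [[],
       [(121, 12), (277, -12)],
       [],
       [],
       [(72, 12), (228, -12), (396, 12)],
       [(112, -12), (255, 12)]],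
      [[],
       [(120, -12), (276, 12)],
       [],
       [],
       [],
       [],
       [(410, 12)]],
      [[],
       [],
       [],
       [(134, -12)],
       [],
       [(84, 12), (136, -12), (240, -12), (408, 12)],
       [],
       [(423, 12)]]],
    [[],
      [],
      [],
      [],
      [[(372, 12), (411, 12)]],
      [[(384, 12)],
       [(204, -12), (256, -12), (372, 12), (411, 12)]],
      [[],
       [(216, -12), (384, 12)],
       [(398, 12)],
       [],
       [(400, 12)]],
      [[(84, 12), (408, 12)],
       [],
       [],
       [(411, 12)]],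
      [[(122, -12), (252, 12), (265, 12), (278, 12)]],
      [[(264, 12)],
       [(122, -12), (265, 12), (278, 12)],
       [(110, -12), (123, -12), (266, 12)],
       [],
       [],
       [],
       [(399, -12)]],
      [[],
       [],
       [(122, -12), (278, 12)],
       [],
       [(72, -12), (124, 12), (228, 12), (267, -12), (396, -12)],
       [],
       [],
       [(412, -12)]],
      [[],
       [],
       [],
       [],
       [(279, -12)],
       [(72, -12), (124, 12), (228, 12), (267, -12), (280, -12), (396, -12)],
       [],
       [(424, -12)]]]]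

theorem ce1_ck : ce1.ck bs 12 1 = true := by decide +kernel

/-- certificate -/
def ce2 : Cer where
  den := 1
  N := [[],
    [],
    [[(360, 1)],
      [],
      [],
      [],
      [],
      [],
      [],
      [],
      [],
      [],
      [],
      []],
    [],
    [[(384, 1)],
      [],
      [],
      [],
      [],
      [],
      [],
      [],
      [],
      [],
      [],
      []],
    [[(111, -1), (124, 1), (240, 2), (266, -1), (279, -1), (396, -1), (422, 1)],
      [(228, -1), (254, -1), (267, -1), (384, 1), (397, 1), (410, 1)],
      [(216, -1), (255, -1), (268, 2), (372, 2), (398, 1)],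
      [],
      [(348, -1)],
      [],
      [],
      [],
      [],
      [],
      [],
      []],
    [[(110, 1), (123, 2), (136, 1), (252, 1), (278, -1)],
      [(111, -1), (124, 1), (240, 1), (253, 1), (266, -1), (279, -1), (396, -1), (422, 1)],
      [(228, -1), (267, -1), (384, 1), (410, 1)],
      [(216, -1), (268, 1), (372, 1)],
      [],
      [],
      [],
      [],
      [],
      [],
      [],
      []],
    [[(135, 1), (264, 1), (277, -1)],
      [(110, 1), (123, 2), (252, 1), (278, -1), (408, -1), (421, 1)],
      [(240, 1), (279, -1), (396, -1), (422, 1)],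
      [(228, -1), (384, 1)],
      [(372, -1)],
      [],
      [],
      [],
      [],
      [],
      [],
      []],
    [[(108, 1), (121, -1)],
      [],
      [(110, 1), (123, 1)],
      [],
      [],
      [],
      [],
      [],
      [],
      [],
      [],
      []],
    [[],
      [],
      [(109, -1)],
      [(123, 1)],
      [],
      [(228, -1), (254, -1), (267, -1), (384, 1), (410, 1)],
      [(216, -1), (255, -1), (268, 2), (372, 2)],
      [(399, -1)],
      [(348, -1), (400, -1)],
      [],
      [],
      []],
    [[],
      [(120, -1)],
      [],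
      [(109, -1), (122, -1)],
      [],
      [(111, 1), (124, -1)],
      [(228, -1), (267, -1), (384, 1)],
      [],
      [(412, -1)],
      [],
      [],
      []],
    [[],
      [],
      [(120, -1), (133, -1)],
      [(121, 1), (134, -1)],
      [(109, -1), (122, -1), (135, -1)],
      [(136, -1)],
      [(111, 1), (124, -1), (240, -1), (266, 1), (396, 1), (422, -1)],
      [(228, -1), (384, 1), (423, -1)],
      [(372, -1), (424, -1)],
      [],
      [],
      []]]
  A := [[[],
      [],
      [],
      [],
      [(112, 1), (228, -1), (254, -1), (267, -1), (384, 1), (410, 1)],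
      [(111, 1)],
      [],
      [],
      [(121, 1)],
      [],
      [(132, 1)]],
    [[],
      [],
      [],
      [],
      [(256, 1), (399, -1)],
      [(268, 1), (372, 1)],
      [],
      [(111, 1), (124, -1), (240, -1), (266, 1), (279, 1), (396, 1), (422, -1)],
      [(110, -1), (123, -1), (136, -1), (278, 1)],
      [(109, -1), (122, -1), (135, -1), (277, 1)],
      [(108, -1), (121, 2), (134, -1), (276, 1)]],
    [[],
      [],
      [],
      [],
      [],
      [],
      [],
      [],
      [(111, 1), (124, -1), (240, -2), (266, 1), (279, 1), (396, 2), (422, -1)],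
      [(110, -1), (123, -2), (136, -1), (252, -1), (278, 1), (408, 1)],
      [(109, -1), (122, -1), (135, -2), (264, -1), (277, 1), (420, 1)]]]
  W := [[[],
      [],
      [],
      [],
      [],
      [[(252, -1)]],
      [[(108, -1)]],
      [[(276, -1)]],
      [[(132, -1)]],
      [],
      [],
      []],
    [[],
      [],
      [],
      [],
      [],
      [[(396, -1)]],
      [],
      [],
      [],
      [],
      [[],
       [(120, -1), (276, 1)]],
      [[],
       [],
       [],
       [],
       [(420, 1)]]],
    [[],
      [],
      [],
      [],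
      [],
      [],
      [],
      [],
      [],
      [],
      [[],
       [(108, 1), (264, -1)],
       [],
       [(408, -1)]],
      []]]

theorem ce2_ck : ce2.ck bs 12 2 = true := by decide +kernel

/-- certificate -/
def ce3 : Cer where
  den := 1
  N := [[],
    [],
    [],
    [],
    [],
    [[(396, 1)],
      [],
      [],
      [],
      [],
      [],
      [],
      [],
      [],
      [],
      [],
      []],
    [],
    [],
    [],
    [],
    [[],
      [],
      [],
      [(264, -1)],
      [(408, -1)],
      [],
      [],
      [],
      [],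
      [],
      [],
      []],
    [[],
      [(132, -1)],
      [],
      [],
      [],
      [],
      [],
      [],
      [],
      [],
      [],
      []]]
  A := [[[],
      [],
      [],
      [],
      [],
      [],
      [],
      [],
      [(108, 1)],
      [(120, 1)],
      []],
    [[],
      [],
      [],
      [],
      [],
      [],
      [],
      [],
      [(252, 1)],
      [],
      [(276, 1)]],
    [[],
      [],
      [],
      [],
      [],
      [],
      [],
      [],
      [],
      [],
      [(420, 1)]]]
  W := [[[],
      [],
      [],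
      [],
      [],
      [],
      [],
      [],
      [],
      [],
      [],
      []],
    [[],
      [],
      [],
      [],
      [],
      [],
      [],
      [],
      [],
      [],
      [],
      []],
    [[],
      [],
      [],
      [],
      [],
      [],
      [],
      [],
      [],
      [],
      [],
      []]]

theorem ce3_ck : ce3.ck bs 12 3 = true := by decide +kernel

/-- all certificates -/
theorem cert {k : Type*} [Field k] [CharZero k] (κ : ℕ) (hκ : 1 ≤ κ) :
    Cert (fun x : Fin 12 => bs.w x) (Mt k 12 (nth [] bs.pw 1)) (XX k bs 12) κ := by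
  have hB : bs.ckPow 12 = true := by
    have h := bs_ck
    simp only [Base.ck, Bool.and_eq_true] at h
    exact h.1.1
  rcases Nat.lt_or_ge 3 κ with h | h
  · exact cert_large (L := 3) (by decide) h
  · interval_cases κ
    · exact cert_of_ck bs (by norm_num) hB ce1 ce1_ck
    · exact cert_of_ck bs (by norm_num) hB ce2 ce2_ck
    · exact cert_of_ck bs (by norm_num) hB ce3 ce3_ck

end Pool.Agent.Lib.D13.R1443
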