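import Pool.Agent.Lib.D13.LiftAt
import Pool.Agent.Lib.D13.CycGen
import Pool.Agent.Lib.D13.R1443

/-!
# MP_5dcbc3_ag: type (4,3,3,2), triples of positive degree for the levels 1 | 4 | 4 | 3

`mk a b c Y B P`: `a` from level 0 to 1, `b` 0 to 2, `c` 0 to 3, `Y` 1 to 2, `B` 1 to 3, `P` 2 to 3.
-/

namespace Pool.Agent.Lib.D13.A1

open Matrix Pool.Agent.Lib Pool.Agent.Lib.D7 Pool.Agent.Lib.Q5dc

/-- the index type -/
abbrev IB := Unit ⊕ (Fin 4 ⊕ (Fin 4 ⊕ Fin 3))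

variable {k : Type*} [Field k]

/-- a matrix of positive degree -/
def mk (a b : Fin 4 → k) (c : Fin 3 → k) (Y : Matrix (Fin 4) (Fin 4) k)
    (B P : Matrix (Fin 3) (Fin 4) k) : Matrix IB IB k :=
  Matrix.of fun r s => match r, s with
    | .inr (.inl i), .inl _ => a i
    | .inr (.inr (.inl i)), .inl _ => b i
    | .inr (.inr (.inr i)), .inl _ => c i
    | .inr (.inr (.inl i)), .inr (.inl j) => Y i j
    | .inr (.inr (.inr i)), .inr (.inl j) => B i j
    | .inr (.inr (.inr i)), .inr (.inr (.inl j)) => P i j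
    | _, _ => 0

section

variable (a b : Fin 4 → k) (c : Fin 3 → k) (Y : Matrix (Fin 4) (Fin 4) k)
  (B P : Matrix (Fin 3) (Fin 4) k) (a' b' : Fin 4 → k) (c' : Fin 3 → k)
  (Y' : Matrix (Fin 4) (Fin 4) k) (B' P' : Matrix (Fin 3) (Fin 4) k)

theorem mk_mul : mk a b c Y B P * mk a' b' c' Y' B' P' =
    mk 0 (Y *ᵥ a') (P *ᵥ b' + B *ᵥ a') 0 (P * Y') 0 := by
  ext r s
  rw [Matrix.mul_apply]
  rcases r with r | r | r | r <;> rcases s with s | s | s | s <;>
    simp [mk, Fintype.sum_sum_type, Matrix.mulVec, dotProduct, Matrix.mul_apply, add_comm]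

variable {a b c Y B P a' b' c' Y' B' P'}

theorem mk_comm (h1 : Y *ᵥ a' = Y' *ᵥ a) (h2 : P *ᵥ b' + B *ᵥ a' = P' *ᵥ b + B' *ᵥ a)
    (h3 : P * Y' = P' * Y) :
    mk a b c Y B P * mk a' b' c' Y' B' P' = mk a' b' c' Y' B' P' * mk a b c Y B P := by
  rw [mk_mul, mk_mul, h1, h2, h3]

theorem mk_poly {a b : k → Fin 4 → k} {c : k → Fin 3 → k} {Y : k → Matrix (Fin 4) (Fin 4) k}
    {B P : k → Matrix (Fin 3) (Fin 4) k} (ha : ∀ i, IsPoly fun s => a s i)
    (hb : ∀ i, IsPoly fun s => b s i) (hc : ∀ i, IsPoly fun s => c s i) (hY : PM Y) (hB : PM B)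
    (hP : PM P) : PM fun s => mk (a s) (b s) (c s) (Y s) (B s) (P s) := by
  intro r s
  rcases r with r | r | r | r <;> rcases s with s | s | s | s <;>
    first
    | exact ha _
    | exact hb _
    | exact hc _
    | exact hY _ _
    | exact hB _ _
    | exact hP _ _
    | exact D7.IsPoly.const _

end

/-- the levels -/
def lv : IB → ℕ
  | .inl _ => 0
  | .inr (.inl _) => 1
  | .inr (.inr (.inl _)) => 2
  | .inr (.inr (.inr _)) => 3

/-- the power of `t` -/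
def tf : IB → Fin 12
  | .inl _ => 0
  | .inr (.inl i) => ⟨4 - i, by omega⟩
  | .inr (.inr (.inl i)) => ⟨8 - i, by omega⟩
  | .inr (.inr (.inr i)) => ⟨11 - i, by omega⟩

/-- the inverse -/
def tg (x : Fin 12) : IB :=
  if h0 : (x : ℕ) = 0 then .inl ()
  else if h1 : (x : ℕ) ≤ 4 then .inr (.inl ⟨4 - x, by omega⟩)
  else if h2 : (x : ℕ) ≤ 8 then .inr (.inr (.inl ⟨8 - x, by omega⟩))
  else .inr (.inr (.inr ⟨11 - x, by omega⟩))

/-- the bijection -/
def te : IB ≃ Fin 12 where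
  toFun := tf
  invFun := tg
  left_inv := by decide
  right_inv := by decide

theorem lv_te (r : IB) : R1443.bs.w (te r : Fin 12) = lv r := by
  revert r
  decide

/-- nilpotent matrix of the base point -/
def N0 (k : Type*) [Field k] : Matrix (Fin 4) (Fin 4) k :=
  !![0, 0, 0, 0; 1, 0, 0, 0; 0, 1, 0, 0; 0, 0, 1, 0]

/-- its third power -/
def N3 (k : Type*) [Field k] : Matrix (Fin 4) (Fin 4) k :=
  !![0, 0, 0, 0; 0, 0, 0, 0; 0, 0, 0, 0; 1, 0, 0, 0]

/-- multiplication by x at the base point, last step -/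
def P0 (k : Type*) [Field k] : Matrix (Fin 3) (Fin 4) k :=
  !![0, 1, 0, 0; 0, 0, 1, 0; 0, 0, 0, 1]

theorem N0_pow : N0 k ^ 3 = N3 k := by
  rw [pow_succ, pow_two]
  ext i j
  fin_cases i <;> fin_cases j <;> simp [N0, N3, Matrix.mul_apply, Fin.sum_univ_four]

end Pool.Agent.Lib.D13.A1
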