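import Pool.Agent.Lib.D13.A1bad

/-!
# MP_5dcbc3_ag: type (4,3,3,2), levels 1 | 4 | 4 | 3: moves which leave `Y e₀ = Z e₀ = 0`
-/

namespace Pool.Agent.Lib.D13.A1

open Matrix Pool.Agent.Lib Pool.Agent.Lib.D7 Pool.Agent.Lib.Q5dc

variable {k : Type*} [Field k] {ρ : ℕ → ℕ}

/-- the members of the stratum satisfy `Y e₀, Z e₀ ∈ k e₀` -/
def H2a (k : Type*) [Field k] (ρ : ℕ → ℕ) : Prop :=
  ∀ (Y Z : Matrix (Fin 4) (Fin 4) k) (b b' : Fin 4 → k) (B B' : Matrix (Fin 3) (Fin 4) k),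
    Bad ρ Y Z b b' B B' → ∀ i, i ≠ 0 → Y i 0 = 0 ∧ Z i 0 = 0

theorem vv {m n : Type*} [Fintype n] (u : m → k) (v w : n → k) :
    vecMulVec u v *ᵥ w = (v ⬝ᵥ w) • u := by
  ext i
  simp only [Matrix.mulVec, dotProduct, vecMulVec_apply, Pi.smul_apply, smul_eq_mul,
    Finset.sum_mul]
  exact Finset.sum_congr rfl fun j _ => by ring

theorem dot_e0 (ζ : Fin 4 → k) : ζ ⬝ᵥ e0 k = ζ 0 := by
  simp [e0, dotProduct, Fin.sum_univ_four]

theorem e0_dot (ζ : Fin 4 → k) : e0 k ⬝ᵥ ζ = ζ 0 := by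
  simp [e0, dotProduct, Fin.sum_univ_four]

variable {Y Z : Matrix (Fin 4) (Fin 4) k} {b b' : Fin 4 → k} {B B' : Matrix (Fin 3) (Fin 4) k}

theorem rl2 (hY0 : Y *ᵥ e0 k = 0) (hZ0 : Z *ᵥ e0 k = 0) (mm : P1 k * (Y * Z) = P1 k * (Z * Y))
    (l1 : B *ᵥ e0 k = P1 k *ᵥ b) (l2 : B' *ᵥ e0 k = P1 k *ᵥ b')
    (l3 : P1 k *ᵥ (Y *ᵥ b') = P1 k *ᵥ (Z *ᵥ b)) : Rl Y Z b b' B B' := by
  refine ⟨mm, ?_, l1, l2, ?_⟩
  · rw [hY0, hZ0, Matrix.mulVec_zero, Matrix.mulVec_zero]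
  · rw [hY0, hZ0, Matrix.mulVec_zero, Matrix.mulVec_zero, add_zero, add_zero, l3]

theorem Rl.l3' (h : Rl Y Z b b' B B') (hY0 : Y *ᵥ e0 k = 0) (hZ0 : Z *ᵥ e0 k = 0) :
    P1 k *ᵥ (Y *ᵥ b') = P1 k *ᵥ (Z *ᵥ b) := by
  have := h.l3
  rwa [hY0, hZ0, Matrix.mulVec_zero, Matrix.mulVec_zero, add_zero, add_zero] at this

/-- the linear system of the move `T1` -/
theorem T1sys (Y Z : Matrix (Fin 4) (Fin 4) k) (B B' : Matrix (Fin 3) (Fin 4) k)
    (ζ : Fin 4 → k) : ∃ y z c d : Fin 4 → k, (y, z) ≠ 0 ∧ ζ ⬝ᵥ y = 0 ∧ ζ ⬝ᵥ z = 0 ∧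
      Y *ᵥ z = Z *ᵥ y ∧ P1 k *ᵥ (Y *ᵥ c - Z *ᵥ d) + (B *ᵥ z - B' *ᵥ y) = 0 := by
  classical
  set I0 : Submodule k (Fin 4 → k) := LinearMap.range Y.mulVecLin ⊔ LinearMap.range Z.mulVecLin
    with hI0
  set J0 : Submodule k (Fin 3 → k) := I0.map (P1 k).mulVecLin with hJ0
  let Φ : ((Fin 4 → k) × (Fin 4 → k)) →ₗ[k] (k × k) × (I0 × ((Fin 3 → k) ⧸ J0)) :=
    { toFun := fun u => ((ζ ⬝ᵥ u.1, ζ ⬝ᵥ u.2), (⟨Y *ᵥ u.2 - Z *ᵥ u.1, by
        refine sub_mem (Submodule.mem_sup_left ⟨u.2, rfl⟩) (Submodule.mem_sup_right ⟨u.1, rfl⟩)⟩,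
        J0.mkQ (B *ᵥ u.2 - B' *ᵥ u.1)))
      map_add' := fun u v => by
        refine Prod.ext (Prod.ext ?_ ?_) (Prod.ext ?_ ?_)
        · simp [dotProduct_add]
        · simp [dotProduct_add]
        · refine Subtype.ext ?_
          simp only [Prod.fst_add, Prod.snd_add, Matrix.mulVec_add, Submodule.coe_add]
          abel
        · simp only [Prod.fst_add, Prod.snd_add, Matrix.mulVec_add, ← map_add]
          congr 1
          abel
      map_smul' := fun c u => by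
        refine Prod.ext (Prod.ext ?_ ?_) (Prod.ext ?_ ?_)
        · simp
        · simp
        · refine Subtype.ext ?_
          simp [Matrix.mulVec_smul, smul_sub]
        · simp only [Prod.smul_fst, Prod.smul_snd, Matrix.mulVec_smul, ← smul_sub, map_smul,
            RingHom.id_apply] }
  have hd : Module.finrank k ((k × k) × (I0 × ((Fin 3 → k) ⧸ J0))) <
      Module.finrank k ((Fin 4 → k) × (Fin 4 → k)) := by
    have h1 := LinearMap.finrank_range_add_finrank_ker ((P1 k).mulVecLin.domRestrict I0)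
    have h2 : LinearMap.range ((P1 k).mulVecLin.domRestrict I0) = J0 := by
      rw [LinearMap.range_domRestrict]
    rw [h2] at h1
    have h3 : Module.finrank k (LinearMap.ker ((P1 k).mulVecLin.domRestrict I0)) ≤ 1 := by
      let g : LinearMap.ker ((P1 k).mulVecLin.domRestrict I0) →ₗ[k] k :=
        (LinearMap.proj 3).comp (I0.subtype.comp (Submodule.subtype _))
      have hg : Function.Injective g := by
        intro u v huv
        have h6 : u.1.1 3 = v.1.1 3 := huv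
        have h5 : P1 k *ᵥ u.1.1 = 0 := u.2
        have h7 : P1 k *ᵥ v.1.1 = 0 := v.2
        obtain ⟨t0, t1, t2⟩ := P1_eq_iff.1 (h5.trans h7.symm)
        refine Subtype.ext (Subtype.ext ?_)
        ext i
        fin_cases i
        · exact t0
        · exact t1
        · exact t2
        · exact h6
      have := LinearMap.finrank_le_finrank_of_injective hg
      simpa using this
    have h4 := J0.finrank_quotient_add_finrank
    rw [Module.finrank_prod, Module.finrank_prod, Module.finrank_prod, Module.finrank_prod]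
    simp only [Module.finrank_self, Module.finrank_fin_fun] at h4 ⊢
    omega
  obtain ⟨u, hu, hu0⟩ := Submodule.exists_mem_ne_zero_of_ne_bot
    (LinearMap.ker_ne_bot_of_finrank_lt (f := Φ) hd)
  have hΦ : Φ u = 0 := hu
  have g1 : ζ ⬝ᵥ u.1 = 0 := congrArg (fun t => t.1.1) hΦ
  have g2 : ζ ⬝ᵥ u.2 = 0 := congrArg (fun t => t.1.2) hΦ
  have g3 : Y *ᵥ u.2 - Z *ᵥ u.1 = 0 := congrArg (fun t => (t.2.1 : Fin 4 → k)) hΦ
  have g4 : J0.mkQ (B *ᵥ u.2 - B' *ᵥ u.1) = 0 := congrArg (fun t => t.2.2) hΦ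
  rw [Submodule.mkQ_apply, Submodule.Quotient.mk_eq_zero] at g4
  obtain ⟨x, hx, hx2⟩ := g4
  obtain ⟨x1, ⟨c, hc⟩, x2, ⟨d, hd2⟩, hx3⟩ := Submodule.mem_sup.1 hx
  refine ⟨u.1, u.2, -c, d, hu0, g1, g2, sub_eq_zero.1 g3, ?_⟩
  have hx4 : P1 k *ᵥ x = B *ᵥ u.2 - B' *ᵥ u.1 := hx2
  have hc' : Y *ᵥ c = x1 := hc
  have hd' : Z *ᵥ d = x2 := hd2
  rw [← hx4, ← hx3, ← hc', ← hd', ← Matrix.mulVec_add]
  rw [Matrix.mulVec_neg]
  have : -(Y *ᵥ c) - Z *ᵥ d + (Y *ᵥ c + Z *ᵥ d) = 0 := by abel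
  rw [this, Matrix.mulVec_zero]

/-- move `T1` -/
theorem T1a [Infinite k] (h2a : H2a k ρ) (h : Bad ρ Y Z b b' B B') (hY0 : Y *ᵥ e0 k = 0)
    (hZ0 : Z *ᵥ e0 k = 0) {ζ : Fin 4 → k} (hζY : ζ ᵥ* Y = 0) (hζZ : ζ ᵥ* Z = 0)
    (hζ0 : ζ 0 = 1) (hb : ζ ⬝ᵥ b = 0) (hb' : ζ ⬝ᵥ b' = 0) : False := by
  obtain ⟨y, z, c, d, hyz, g1, g2, g3, g4⟩ := T1sys Y Z B B' ζ
  have hR := h.rl
  have hE := hR.l3' hY0 hZ0
  -- correct c, d
  set c' := c - (ζ ⬝ᵥ c) • e0 k with hc'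
  set d' := d - (ζ ⬝ᵥ d) • e0 k with hd'
  have k1 : ζ ⬝ᵥ c' = 0 := by
    rw [hc', dotProduct_sub, dotProduct_smul, dot_e0, hζ0, smul_eq_mul, mul_one, sub_self]
  have k2 : ζ ⬝ᵥ d' = 0 := by
    rw [hd', dotProduct_sub, dotProduct_smul, dot_e0, hζ0, smul_eq_mul, mul_one, sub_self]
  have k3 : P1 k *ᵥ (Y *ᵥ c' - Z *ᵥ d') + (B *ᵥ z - B' *ᵥ y) = 0 := by
    have m1 : ∀ (M : Matrix (Fin 4) (Fin 4) k) (v : Fin 4 → k) (t : k), M *ᵥ e0 k = 0 →
        M *ᵥ (v - t • e0 k) = M *ᵥ v := by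
      intro M v t hM
      rw [Matrix.mulVec_sub, Matrix.mulVec_smul, hM, smul_zero, sub_zero]
    rw [hc', hd', m1 _ _ _ hY0, m1 _ _ _ hZ0]
    exact g4
  have hex : ∃ i : Fin 4, i ≠ 0 ∧ (y i ≠ 0 ∨ z i ≠ 0) := by
    by_contra hne
    push Not at hne
    have hy : y = y 0 • e0 k := by
      ext i
      fin_cases i
      · simp [e0]
      · simpa [e0] using (hne 1 (by decide)).1
      · simpa [e0] using (hne 2 (by decide)).1
      · simpa [e0] using (hne 3 (by decide)).1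
    have hz : z = z 0 • e0 k := by
      ext i
      fin_cases i
      · simp [e0]
      · simpa [e0] using (hne 1 (by decide)).2
      · simpa [e0] using (hne 2 (by decide)).2
      · simpa [e0] using (hne 3 (by decide)).2
    rw [hy, dotProduct_smul, dot_e0, hζ0, smul_eq_mul, mul_one] at g1
    rw [hz, dotProduct_smul, dot_e0, hζ0, smul_eq_mul, mul_one] at g2
    apply hyz
    rw [hy, hz, g1, g2, zero_smul]
    rfl
  have hc1 : ∀ v : Fin 4 → k, ∀ i : Fin 4, IsPoly fun _ : k => v i := fun v i =>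
    D7.IsPoly.const _
  have hl : ∀ (u v : Fin 4 → k) (i : Fin 4), IsPoly fun s : k => (u + s • v) i := fun u v i =>
    (D7.IsPoly.const (u i)).add (D7.IsPoly.id.mul (D7.IsPoly.const (v i)))
  obtain ⟨s, hs, h1⟩ := h.deform1
    (Ys := fun s => Y + s • vecMulVec y ζ) (Zs := fun s => Z + s • vecMulVec z ζ)
    (bs := fun s => b + s • d') (bs' := fun s => b' + s • c')
    (Bs := fun s => B + s • vecMulVec (P1 k *ᵥ d') ζ)
    (Bs' := fun s => B' + s • vecMulVec (P1 k *ᵥ c') ζ)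
    ((PM.const _).add ((PM.const _).smul D7.IsPoly.id))
    ((PM.const _).add ((PM.const _).smul D7.IsPoly.id))
    (hl _ _) (hl _ _)
    ((PM.const _).add ((PM.const _).smul D7.IsPoly.id))
    ((PM.const _).add ((PM.const _).smul D7.IsPoly.id))
    (by simp) (by simp) (by simp) (by simp) (by simp) (by simp) (by
      intro s
      have a1 : (Y + s • vecMulVec y ζ) *ᵥ e0 k = s • y := by
        rw [Matrix.add_mulVec, hY0, Matrix.smul_mulVec, vv, dot_e0, hζ0, one_smul, zero_add]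
      have a2 : (Z + s • vecMulVec z ζ) *ᵥ e0 k = s • z := by
        rw [Matrix.add_mulVec, hZ0, Matrix.smul_mulVec, vv, dot_e0, hζ0, one_smul, zero_add]
      have a3 : ∀ (u w : Fin 4 → k), ζ ⬝ᵥ w = 0 → ∀ M : Matrix (Fin 4) (Fin 4) k,
          (M + s • vecMulVec u ζ) *ᵥ w = M *ᵥ w := by
        intro u w hw M
        rw [Matrix.add_mulVec, Matrix.smul_mulVec, vv, hw, zero_smul, smul_zero, add_zero]
      have a4 : ∀ (u : Fin 3 → k) (w : Fin 4 → k), ζ ⬝ᵥ w = 0 → ∀ M : Matrix (Fin 3) (Fin 4) k,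
          (M + s • vecMulVec u ζ) *ᵥ w = M *ᵥ w := by
        intro u w hw M
        rw [Matrix.add_mulVec, Matrix.smul_mulVec, vv, hw, zero_smul, smul_zero, add_zero]
      have a5 : ζ ⬝ᵥ (b + s • d') = 0 := by rw [dotProduct_add, dotProduct_smul, hb, k2]; simp
      have a6 : ζ ⬝ᵥ (b' + s • c') = 0 := by rw [dotProduct_add, dotProduct_smul, hb', k1]; simp
      refine ⟨?_, ?_, ?_, ?_, ?_⟩
      · have b1 : (Y + s • vecMulVec y ζ) * (Z + s • vecMulVec z ζ) =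
            Y * Z + s • vecMulVec (Y *ᵥ z) ζ := by
          rw [Matrix.add_mul, Matrix.mul_add, Matrix.mul_smul, mul_vecMulVec, Matrix.smul_mul,
            Matrix.mul_add, vecMulVec_mul, hζZ, Matrix.mul_smul, vecMulVec_mul_vecMulVec, g2,
            zero_smul]
          simp
        have b2 : (Z + s • vecMulVec z ζ) * (Y + s • vecMulVec y ζ) =
            Z * Y + s • vecMulVec (Z *ᵥ y) ζ := by
          rw [Matrix.add_mul, Matrix.mul_add, Matrix.mul_smul, mul_vecMulVec, Matrix.smul_mul,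
            Matrix.mul_add, vecMulVec_mul, hζY, Matrix.mul_smul, vecMulVec_mul_vecMulVec, g1,
            zero_smul]
          simp
        rw [b1, b2, Matrix.mul_add, Matrix.mul_add, hR.mm, g3]
      · rw [a1, a2, Matrix.mulVec_smul, Matrix.mulVec_smul, a3 _ _ g2, a3 _ _ g1, g3]
      · rw [Matrix.add_mulVec, hR.l1, Matrix.smul_mulVec, vv, dot_e0, hζ0, one_smul,
          Matrix.mulVec_add, Matrix.mulVec_smul]
      · rw [Matrix.add_mulVec, hR.l2, Matrix.smul_mulVec, vv, dot_e0, hζ0, one_smul,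
          Matrix.mulVec_add, Matrix.mulVec_smul]
      · rw [a1, a2, Matrix.mulVec_smul, Matrix.mulVec_smul, a4 _ _ g2, a4 _ _ g1, a3 _ _ a6,
          a3 _ _ a5]
        rw [Matrix.mulVec_add, Matrix.mulVec_add, Matrix.mulVec_add, Matrix.mulVec_add, hE,
          Matrix.mulVec_smul, Matrix.mulVec_smul, Matrix.mulVec_smul, Matrix.mulVec_smul]
        rw [Matrix.mulVec_sub] at k3
        have k4 : P1 k *ᵥ (Y *ᵥ c') + B *ᵥ z = P1 k *ᵥ (Z *ᵥ d') + B' *ᵥ y := by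
          rw [← sub_eq_zero, ← k3]
          abel
        rw [add_assoc, add_assoc, ← smul_add, ← smul_add, k4])
    (Set.finite_singleton (0 : k))
  have hs0 : s ≠ 0 := hs
  obtain ⟨i, hi, hi2⟩ := hex
  obtain ⟨h3, h4⟩ := h2a _ _ _ _ _ _ h1 i hi
  have y0 : Y i 0 = 0 := by
    have := congrFun hY0 i
    rwa [mulVec_e0] at this
  have z0 : Z i 0 = 0 := by
    have := congrFun hZ0 i
    rwa [mulVec_e0] at this
  simp only [Matrix.add_apply, Matrix.smul_apply, vecMulVec_apply, hζ0, mul_one, smul_eq_mul,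
    y0, z0, zero_add, mul_eq_zero, hs0, false_or] at h3 h4
  exact hi2.elim (fun t => t h3) fun t => t h4

/-- move `T1` -/
theorem T1 [Infinite k] (h2a : H2a k ρ) (h : Bad ρ Y Z b b' B B') (hY0 : Y *ᵥ e0 k = 0)
    (hZ0 : Z *ᵥ e0 k = 0) {ζ : Fin 4 → k} (hζY : ζ ᵥ* Y = 0) (hζZ : ζ ᵥ* Z = 0)
    (hζ0 : ζ 0 ≠ 0) : False := by
  set ξ := (ζ 0)⁻¹ • ζ with hξ
  have h1 := h.sub 0 0 (ξ ⬝ᵥ b) (ξ ⬝ᵥ b')
  rw [zero_smul, sub_zero, sub_zero] at h1
  have hξ0 : ξ 0 = 1 := by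
    rw [hξ, Pi.smul_apply, smul_eq_mul, inv_mul_cancel₀ hζ0]
  refine T1a h2a h1 hY0 hZ0 (ζ := ξ) ?_ ?_ hξ0 ?_ ?_
  · rw [hξ, Matrix.smul_vecMul, hζY, smul_zero]
  · rw [hξ, Matrix.smul_vecMul, hζZ, smul_zero]
  · rw [dotProduct_sub, dotProduct_smul, dot_e0, hξ0, smul_eq_mul, mul_one, sub_self]
  · rw [dotProduct_sub, dotProduct_smul, dot_e0, hξ0, smul_eq_mul, mul_one, sub_self]

end Pool.Agent.Lib.D13.A1
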