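import Pool.Agent.Lib.D13.A1mv1

/-!
# MP_5dcbc3_ag: type (4,3,3,2), levels 1 | 4 | 4 | 3: the move of the vector `e₀`
-/

namespace Pool.Agent.Lib.D13.A1

open Matrix Pool.Agent.Lib Pool.Agent.Lib.D7 Pool.Agent.Lib.Q5dc

variable {k : Type*} [Field k] {ρ : ℕ → ℕ}
variable {Y Z : Matrix (Fin 4) (Fin 4) k} {b b' : Fin 4 → k} {B B' : Matrix (Fin 3) (Fin 4) k}

/-- a linear map into `k ^ 3` which is not annihilated by a covector is onto -/
theorem onto3 {V : Type*} [AddCommGroup V] [Module k V] (f : V →ₗ[k] (Fin 3 → k))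
    (h : ∀ ζ : Fin 3 → k, (∀ v, ζ ⬝ᵥ f v = 0) → ζ = 0) (w : Fin 3 → k) : ∃ v, f v = w := by
  have h1 : LinearMap.range f = ⊤ := by
    by_contra hne
    obtain ⟨g, hg, hle⟩ := Submodule.exists_le_ker_of_lt_top _ (lt_top_iff_ne_top.2 hne)
    apply hg
    have h2 : ∀ u, g u = (fun i => g (Pi.single i 1)) ⬝ᵥ u := by
      intro u
      conv_lhs => rw [← Finset.univ_sum_single u]
      rw [map_sum]
      simp only [dotProduct]
      refine Finset.sum_congr rfl fun i _ => ?_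
      have h3 : Pi.single i (u i) = u i • (Pi.single i (1 : k) : Fin 3 → k) := by
        rw [← Pi.single_smul, smul_eq_mul, mul_one]
      rw [h3, map_smul, smul_eq_mul, mul_comm]
    have h4 := h (fun i => g (Pi.single i 1)) fun v => by
      rw [← h2]
      exact hle ⟨v, rfl⟩
    ext u
    rw [LinearMap.comp_apply, h2, h4]
    simp
  have h5 : w ∈ LinearMap.range f := h1 ▸ Submodule.mem_top
  exact h5

/-- in the commutator only the last row is not zero -/
theorem comm_row {Y Z : Matrix (Fin 4) (Fin 4) k} (hm : P1 k * (Y * Z) = P1 k * (Z * Y))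
    (u : Fin 4 → k) (i : Fin 4) (hi : i ≠ 3) : ((Y * Z - Z * Y) *ᵥ u) i = 0 := by
  have h1 : P1 k *ᵥ ((Y * Z - Z * Y) *ᵥ u) = P1 k *ᵥ 0 := by
    rw [Matrix.mulVec_mulVec, Matrix.mul_sub, hm, sub_self, Matrix.zero_mulVec,
      Matrix.mulVec_zero]
  obtain ⟨h2, h3, h4⟩ := P1_eq_iff.1 h1
  fin_cases i
  · exact h2
  · exact h3
  · exact h4
  · exact absurd rfl hi

/-- existence of the direction of the move -/
theorem r0dir (hR : Rl Y Z b b' B B') (hf : ∀ ζ : Fin 3 → k, ζ ᵥ* (P1 k * Y) = 0 →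
      ζ ᵥ* (P1 k * Z) = 0 → ζ = 0) :
    ∃ u : Fin 4 → k, (Y * Z - Z * Y) *ᵥ u = 0 ∧ ∃ i, i ≠ 0 ∧ ((Y *ᵥ u) i ≠ 0 ∨
      (Z *ᵥ u) i ≠ 0) := by
  classical
  by_contra hne
  push Not at hne
  set C := Y * Z - Z * Y with hC
  -- a covector of length four
  have key : ∀ ξ : Fin 4 → k, ξ ᵥ* Y = 0 → ξ ᵥ* Z = 0 → ξ 3 = 0 → ξ = 0 := by
    intro ξ h1 h2 h3
    have h4 : ∀ M : Matrix (Fin 4) (Fin 4) k, ξ ᵥ* M = 0 →
        (fun i : Fin 3 => ξ i.castSucc) ᵥ* (P1 k * M) = 0 := by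
      intro M hM
      ext j
      have h5 := congrFun hM j
      simp only [Matrix.vecMul, dotProduct, Fin.sum_univ_four, h3, zero_mul, add_zero,
        Pi.zero_apply] at h5
      simp only [Matrix.vecMul, dotProduct, Fin.sum_univ_three, P1_mul, Pi.zero_apply]
      exact h5
    have h5 := hf _ (h4 Y h1) (h4 Z h2)
    ext i
    fin_cases i
    · exact congrFun h5 0
    · exact congrFun h5 1
    · exact congrFun h5 2
    · exact h3
  by_cases hC0 : ∃ j, C *ᵥ (Pi.single j 1) ≠ 0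
  · obtain ⟨j, hj⟩ := hC0
    set ε : Fin 4 → k := Pi.single j 1 with hε
    set c := (C *ᵥ ε) 3 with hc
    have hCu : ∀ u, C *ᵥ u = (C *ᵥ u) 3 • ![0, 0, 0, 1] := by
      intro u
      ext i
      by_cases hi : i = 3
      · subst hi
        simp
      · rw [comm_row hR.mm u i hi]
        fin_cases i
        · simp
        · simp
        · simp
        · exact absurd rfl hi
    have hc0 : c ≠ 0 := by
      intro h0
      apply hj
      rw [hCu, ← hc, h0, zero_smul]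
    let Φ : (Fin 4 → k) →ₗ[k] (Fin 3 → k) :=
      { toFun := fun ξ => ![ξ 0, ξ ⬝ᵥ (Y *ᵥ ε), ξ ⬝ᵥ (Z *ᵥ ε)]
        map_add' := fun u v => by
          ext i
          fin_cases i <;> simp [add_dotProduct]
        map_smul' := fun c u => by
          ext i
          fin_cases i <;> simp [smul_dotProduct] }
    have hd : Module.finrank k (Fin 3 → k) < Module.finrank k (Fin 4 → k) := by simp
    obtain ⟨ξ, hξ, hξ0⟩ := Submodule.exists_mem_ne_zero_of_ne_bot
      (LinearMap.ker_ne_bot_of_finrank_lt (f := Φ) hd)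
    have hΦ : Φ ξ = 0 := hξ
    have g0 : ξ 0 = 0 := congrFun hΦ 0
    have g1 : ξ ⬝ᵥ (Y *ᵥ ε) = 0 := congrFun hΦ 1
    have g2 : ξ ⬝ᵥ (Z *ᵥ ε) = 0 := congrFun hΦ 2
    -- decomposition of an arbitrary vector
    have dec : ∀ u : Fin 4 → k, C *ᵥ (u - ((C *ᵥ u) 3 / c) • ε) = 0 := by
      intro u
      rw [Matrix.mulVec_sub, Matrix.mulVec_smul, hCu u, hCu ε, ← hc, smul_smul,
        div_mul_cancel₀ _ hc0, hCu u]
      simp
    have hz : ∀ (M : Matrix (Fin 4) (Fin 4) k), ξ ⬝ᵥ (M *ᵥ ε) = 0 →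
        (∀ u, C *ᵥ u = 0 → ∀ i, i ≠ 0 → (M *ᵥ u) i = 0) → ξ ᵥ* M = 0 := by
      intro M hM hM2
      have h1 : ∀ u, ξ ⬝ᵥ (M *ᵥ u) = 0 := by
        intro u
        have h2 := dec u
        have h3 : u = (u - ((C *ᵥ u) 3 / c) • ε) + ((C *ᵥ u) 3 / c) • ε := by
          rw [sub_add_cancel]
        rw [h3, Matrix.mulVec_add, Matrix.mulVec_smul, dotProduct_add, dotProduct_smul, hM,
          smul_zero, add_zero]
        have h4 := hM2 _ h2
        simp only [dotProduct, Fin.sum_univ_four]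
        rw [g0, h4 1 (by decide), h4 2 (by decide), h4 3 (by decide)]
        simp
      ext i
      have h2 := h1 (Pi.single i 1)
      rw [Matrix.dotProduct_mulVec] at h2
      simpa using h2
    have hY := hz Y g1 fun u hu i hi => (hne u hu i hi).1
    have hZ := hz Z g2 fun u hu i hi => (hne u hu i hi).2
    have h3 : ξ 3 = 0 := by
      have h4 : ξ ⬝ᵥ (C *ᵥ ε) = 0 := by
        rw [hC, Matrix.dotProduct_mulVec, Matrix.vecMul_sub, ← Matrix.vecMul_vecMul,
          ← Matrix.vecMul_vecMul, hY, hZ]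
        simp
      rw [hCu, ← hc] at h4
      simp only [dotProduct, Fin.sum_univ_four] at h4
      simpa [hc0] using h4
    exact hξ0 (key ξ hY hZ h3)
  · push Not at hC0
    have hC1 : C = 0 := by
      ext i j
      have h1 := congrFun (hC0 j) i
      simpa using h1
    have h1 : ∀ u, C *ᵥ u = 0 := fun u => by rw [hC1, Matrix.zero_mulVec]
    have h2 : (![0, 1, 0, 0] : Fin 4 → k) = 0 := by
      refine key _ ?_ ?_ ?_
      · ext j
        have h3 := (hne (Pi.single j 1) (h1 _) 1 (by decide)).1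
        simpa [Matrix.vecMul, dotProduct, Fin.sum_univ_four] using h3
      · ext j
        have h3 := (hne (Pi.single j 1) (h1 _) 1 (by decide)).2
        simpa [Matrix.vecMul, dotProduct, Fin.sum_univ_four] using h3
      · rfl
    have h3 := congrFun h2 1
    simp at h3

/-- the move of `e₀` -/
theorem r0 [Infinite k] (h2a : H2a k ρ) (h : Bad ρ Y Z b b' B B') (hY0 : Y *ᵥ e0 k = 0)
    (hZ0 : Z *ᵥ e0 k = 0) (hf : ∀ ζ : Fin 3 → k, ζ ᵥ* (P1 k * Y) = 0 →
      ζ ᵥ* (P1 k * Z) = 0 → ζ = 0) : False := by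
  have hR := h.rl
  obtain ⟨u', hu', i, hi, hi2⟩ := r0dir hR hf
  -- normalise the first coordinate
  set u := u' - u' 0 • e0 k with hu
  have u0 : u 0 = 0 := by
    show u' 0 - u' 0 * 1 = 0
    ring
  have hCe : (Y * Z - Z * Y) *ᵥ e0 k = 0 := by
    rw [Matrix.sub_mulVec, ← Matrix.mulVec_mulVec, ← Matrix.mulVec_mulVec, hY0, hZ0,
      Matrix.mulVec_zero, Matrix.mulVec_zero, sub_zero]
  have hCu : (Y * Z - Z * Y) *ᵥ u = 0 := by
    rw [hu, Matrix.mulVec_sub, hu', Matrix.mulVec_smul, hCe, smul_zero, sub_zero]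
  have hYu : Y *ᵥ u' = Y *ᵥ u := by
    rw [hu, Matrix.mulVec_sub, Matrix.mulVec_smul, hY0, smul_zero, sub_zero]
  have hZu : Z *ᵥ u' = Z *ᵥ u := by
    rw [hu, Matrix.mulVec_sub, Matrix.mulVec_smul, hZ0, smul_zero, sub_zero]
  rw [hYu, hZu] at hi2
  set n := vecMulVec u (e0 k) with hn
  have hnn : n * n = 0 := by
    rw [hn, vecMulVec_mul_vecMulVec, e0_dot, u0, zero_smul]
    ext i j
    simp [vecMulVec_apply]
  have hC : (Y * Z - Z * Y) = 0 + (Y * Z - Z * Y) := by rw [zero_add]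
  have hnC : n * (Y * Z - Z * Y) = 0 := by
    rw [hn, vecMulVec_mul]
    have h1 : e0 k ᵥ* (Y * Z - Z * Y) = 0 := by
      ext j
      have h2 := comm_row hR.mm (Pi.single j 1) 0 (by decide)
      simpa [Matrix.vecMul, dotProduct, Fin.sum_univ_four, e0] using h2
    rw [h1]
    ext i j
    simp [vecMulVec_apply]
  have hne0 : n *ᵥ e0 k = u := by
    rw [hn, vv]
    simp [e0]
  set Ys : k → Matrix (Fin 4) (Fin 4) k := fun s => (1 - s • n) * Y * (1 + s • n) with hYs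
  set Zs : k → Matrix (Fin 4) (Fin 4) k := fun s => (1 - s • n) * Z * (1 + s • n) with hZs
  have p1 : PM fun s : k => (1 : Matrix (Fin 4) (Fin 4) k) - s • n :=
    (PM.const _).sub ((PM.const _).smul D7.IsPoly.id)
  have p2 : PM fun s : k => (1 : Matrix (Fin 4) (Fin 4) k) + s • n :=
    (PM.const _).add ((PM.const _).smul D7.IsPoly.id)
  have pY : PM Ys := (p1.mul (PM.const Y)).mul p2
  have pZ : PM Zs := (p1.mul (PM.const Z)).mul p2
  have y0 : Ys 0 = Y := by simp [hYs]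
  have z0 : Zs 0 = Z := by simp [hZs]
  obtain ⟨bs, bs', Bs, Bs', hb, hb', hB, hB', c1, c2, c3, c4, hc⟩ :=
    lift_low (π := fun _ => P1 k) pY pZ (PM.const _) 0 (by
      rw [y0, z0]
      rintro ⟨t1, t2, t3⟩
      let f : ((Fin 4 → k) × (Fin 4 → k)) →ₗ[k] (Fin 3 → k) :=
        { toFun := fun v => P1 k *ᵥ (Y *ᵥ v.2) - P1 k *ᵥ (Z *ᵥ v.1)
          map_add' := fun v w => by
            simp only [Prod.fst_add, Prod.snd_add, Matrix.mulVec_add]
            abel
          map_smul' := fun c v => by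
            simp only [Prod.smul_fst, Prod.smul_snd, Matrix.mulVec_smul, ← smul_sub,
              RingHom.id_apply] }
      obtain ⟨⟨d, d'⟩, hd⟩ := onto3 f (fun ζ hζ => hf ζ (by
        ext j
        have h2 : ζ ⬝ᵥ (P1 k *ᵥ (Y *ᵥ Pi.single j 1) - P1 k *ᵥ (Z *ᵥ (0 : Fin 4 → k))) = 0 :=
          hζ (0, Pi.single j 1)
        rw [Matrix.mulVec_zero, Matrix.mulVec_zero, sub_zero, Matrix.mulVec_mulVec,
          Matrix.dotProduct_mulVec] at h2
        simpa using h2) (by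
        ext j
        have h2 : ζ ⬝ᵥ (P1 k *ᵥ (Y *ᵥ (0 : Fin 4 → k)) - P1 k *ᵥ (Z *ᵥ Pi.single j 1)) = 0 :=
          hζ (Pi.single j 1, 0)
        rw [Matrix.mulVec_zero, Matrix.mulVec_zero, zero_sub, Matrix.mulVec_mulVec,
          dotProduct_neg, neg_eq_zero, Matrix.dotProduct_mulVec] at h2
        simpa using h2)) t3
      have hd2 : P1 k *ᵥ (Y *ᵥ d') - P1 k *ᵥ (Z *ᵥ d) = t3 := hd
      refine ⟨((d, d'), (vecMulVec (t1 + P1 k *ᵥ d) (e0 k), vecMulVec (t2 + P1 k *ᵥ d') (e0 k))),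
        ?_⟩
      show (_, (_, _)) = _
      have h3 : ∀ t : Fin 3 → k, vecMulVec t (e0 k) *ᵥ e0 k = t := by
        intro t
        rw [vv]
        simp [e0]
      rw [hY0, hZ0, Matrix.mulVec_zero, Matrix.mulVec_zero, add_zero, add_zero]
      simp only [h3, add_sub_cancel_right]
      rw [hd2]) (b := b) (b' := b') (B := B) (B' := B') hR.l1 hR.l2 (by
        rw [y0, z0]
        exact hR.l3)
  have hg : ∀ s : k, (1 + s • n) * (1 - s • n) = 1 := by
    intro s
    rw [Matrix.add_mul, Matrix.mul_sub, Matrix.mul_sub, Matrix.smul_mul, Matrix.smul_mul,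
      Matrix.mul_smul, Matrix.mul_smul, hnn]
    simp
  have hprod : ∀ (s : k) (M M' : Matrix (Fin 4) (Fin 4) k),
      ((1 - s • n) * M * (1 + s • n)) * ((1 - s • n) * M' * (1 + s • n)) =
      (1 - s • n) * (M * M') * (1 + s • n) := by
    intro s M M'
    calc _ = (1 - s • n) * M * ((1 + s • n) * (1 - s • n)) * M' * (1 + s • n) := by
          simp only [Matrix.mul_assoc]
      _ = _ := by
          rw [hg, Matrix.mul_one]
          simp only [Matrix.mul_assoc]
  have hcm : ∀ s, Ys s * Zs s - Zs s * Ys s = (Y * Z - Z * Y) * (1 + s • n) := by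
    intro s
    simp only [hYs, hZs, hprod]
    rw [← Matrix.sub_mul, ← Matrix.mul_sub]
    congr 1
    rw [Matrix.sub_mul, Matrix.smul_mul, hnC, smul_zero, sub_zero, Matrix.one_mul]
  obtain ⟨s, hs, h1⟩ := h.deform1 pY pZ hb hb' hB hB' y0 z0 c1 c2 c3 c4 (fun s => by
    refine ⟨?_, ?_, (hc s).1, (hc s).2.1, (hc s).2.2⟩
    · rw [← sub_eq_zero, ← Matrix.mul_sub, hcm, ← Matrix.mul_assoc, Matrix.mul_sub, hR.mm,
        sub_self, Matrix.zero_mul]
    · rw [← sub_eq_zero, Matrix.mulVec_mulVec, Matrix.mulVec_mulVec, ← Matrix.sub_mulVec, hcm,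
        ← Matrix.mulVec_mulVec, Matrix.add_mulVec, Matrix.one_mulVec, Matrix.smul_mulVec, hne0,
        Matrix.mulVec_add, hCe, Matrix.mulVec_smul, hCu]
      simp)
    (F := {0, (Y *ᵥ u) i / (u i * (Y *ᵥ u) 0), (Z *ᵥ u) i / (u i * (Z *ᵥ u) 0)})
    (by simp)
  simp only [Set.mem_insert_iff, Set.mem_singleton_iff, not_or] at hs
  obtain ⟨s0, s1, s2⟩ := hs
  obtain ⟨h3, h4⟩ := h2a _ _ _ _ _ _ h1 i hi
  have hen : ∀ (M : Matrix (Fin 4) (Fin 4) k), M *ᵥ e0 k = 0 →
      ((1 - s • n) * M * (1 + s • n)) i 0 = s * ((M *ᵥ u) i - s * (u i * (M *ᵥ u) 0)) := by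
    intro M hM
    have h5 : ((1 - s • n) * M * (1 + s • n)) *ᵥ e0 k = s • (M *ᵥ u - s • ((M *ᵥ u) 0 • u)) := by
      rw [← Matrix.mulVec_mulVec, ← Matrix.mulVec_mulVec, Matrix.add_mulVec, Matrix.one_mulVec,
        Matrix.smul_mulVec, hne0, Matrix.mulVec_add, hM, zero_add, Matrix.mulVec_smul,
        Matrix.mulVec_smul, Matrix.sub_mulVec, Matrix.one_mulVec, Matrix.smul_mulVec, hn, vv,
        e0_dot]
    have h6 := congrFun h5 i
    rw [mulVec_e0] at h6
    refine Eq.trans h6 ?_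
    simp only [Pi.smul_apply, Pi.sub_apply, smul_eq_mul]
    ring
  have fin : ∀ α β : k, α ≠ 0 → s ≠ α / β → s * (α - s * β) ≠ 0 := by
    intro α β hα hs h0
    rcases mul_eq_zero.1 h0 with h5 | h5
    · exact s0 h5
    · have hβ : β ≠ 0 := by
        rintro rfl
        rw [mul_zero, sub_zero] at h5
        exact hα h5
      apply hs
      field_simp
      linear_combination -h5
  rcases hi2 with hi2 | hi2
  · have h5 := hen Y hY0
    rw [show ((1 - s • n) * Y * (1 + s • n)) i 0 = 0 from h3] at h5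
    exact fin _ _ hi2 s1 h5.symm
  · have h5 := hen Z hZ0
    rw [show ((1 - s • n) * Z * (1 + s • n)) i 0 = 0 from h4] at h5
    exact fin _ _ hi2 s2 h5.symm

end Pool.Agent.Lib.D13.A1
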