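import Pool.Agent.Lib.D13.A1mv2

/-!
# MP_5dcbc3_ag: type (4,3,3,2), levels 1 | 4 | 4 | 3: the move `Y + s β ⊗ e₁`
-/

namespace Pool.Agent.Lib.D13.A1

open Matrix Pool.Agent.Lib Pool.Agent.Lib.D7 Pool.Agent.Lib.Q5dc

variable {k : Type*} [Field k] {ρ : ℕ → ℕ}
variable {Y Z : Matrix (Fin 4) (Fin 4) k} {b b' : Fin 4 → k} {B B' : Matrix (Fin 3) (Fin 4) k}

/-- the second coordinate -/
def e1 (k : Type*) [Field k] : Fin 4 → k := ![0, 1, 0, 0]

theorem e1_dot (v : Fin 4 → k) : e1 k ⬝ᵥ v = v 1 := by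
  simp [e1, dotProduct, Fin.sum_univ_four]

theorem e0_e0 (t : Fin 3 → k) : vecMulVec t (e0 k) *ᵥ e0 k = t := by
  rw [vv]
  simp [e0]

theorem e1_vecMul (M : Matrix (Fin 4) (Fin 4) k) : e1 k ᵥ* M = M 1 := by
  ext j
  simp [e1, Matrix.vecMul, dotProduct, Fin.sum_univ_four]

/-- move of the lower parts inside the stratum -/
theorem bmove [Infinite k] (h : Bad ρ Y Z b b' B B') (hY0 : Y *ᵥ e0 k = 0)
    (hZ0 : Z *ᵥ e0 k = 0) {d d' : Fin 4 → k} (hd : P1 k *ᵥ (Y *ᵥ d') = P1 k *ᵥ (Z *ᵥ d))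
    {F : Set k} (hF : F.Finite) :
    ∃ s ∉ F, Bad ρ Y Z (b + s • d) (b' + s • d') (B + s • vecMulVec (P1 k *ᵥ d) (e0 k))
      (B' + s • vecMulVec (P1 k *ᵥ d') (e0 k)) := by
  have hR := h.rl
  have hl : ∀ (u v : Fin 4 → k) (i : Fin 4), IsPoly fun s : k => (u + s • v) i := fun u v i =>
    (D7.IsPoly.const (u i)).add (D7.IsPoly.id.mul (D7.IsPoly.const (v i)))
  refine h.deform1 (Ys := fun _ => Y) (Zs := fun _ => Z)
    (bs := fun s => b + s • d) (bs' := fun s => b' + s • d')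
    (Bs := fun s => B + s • vecMulVec (P1 k *ᵥ d) (e0 k))
    (Bs' := fun s => B' + s • vecMulVec (P1 k *ᵥ d') (e0 k)) (PM.const _) (PM.const _)
    (hl _ _) (hl _ _) ((PM.const _).add ((PM.const _).smul D7.IsPoly.id))
    ((PM.const _).add ((PM.const _).smul D7.IsPoly.id))
    rfl rfl (by simp) (by simp) (by simp) (by simp) (fun s => ?_) hF
  refine rl2 hY0 hZ0 hR.mm ?_ ?_ ?_
  · rw [Matrix.add_mulVec, hR.l1, Matrix.smul_mulVec, e0_e0, Matrix.mulVec_add,
      Matrix.mulVec_smul]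
  · rw [Matrix.add_mulVec, hR.l2, Matrix.smul_mulVec, e0_e0, Matrix.mulVec_add,
      Matrix.mulVec_smul]
  · rw [Matrix.mulVec_add, Matrix.mulVec_add, Matrix.mulVec_add, Matrix.mulVec_add,
      hR.l3' hY0 hZ0, Matrix.mulVec_smul, Matrix.mulVec_smul, Matrix.mulVec_smul,
      Matrix.mulVec_smul, hd]

/-- the family `λ Y + s β ⊗ e₁` -/
theorem bfam [Infinite k] (h : Bad ρ Y Z b b' B B') (hY0 : Y *ᵥ e0 k = 0)
    (hZ0 : Z *ᵥ e0 k = 0) (hY1 : Y 1 = 0) (hZ1 : Z 1 = 0) {lam : k → k} {β β' : k → Fin 4 → k}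
    (hl : IsPoly lam) (hβ : ∀ i, IsPoly fun s => β s i) (hβ' : ∀ i, IsPoly fun s => β' s i)
    (l0 : lam 0 = 1) (β0 : β 0 = b) (β0' : β' 0 = b') (h1 : ∀ s, β s 1 = lam s * b 1)
    (h1' : ∀ s, β' s 1 = lam s * b' 1)
    (h2 : ∀ s, P1 k *ᵥ (Y *ᵥ β' s - Z *ᵥ β s + s • (b' 1 • β s - b 1 • β' s)) = 0)
    {F : Set k} (hF : F.Finite) :
    ∃ s ∉ F, ∃ C C', Bad ρ (lam s • Y + s • vecMulVec (β s) (e1 k))
      (lam s • Z + s • vecMulVec (β' s) (e1 k)) (β s) (β' s) C C' := by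
  have hR := h.rl
  have e10 : e1 k ⬝ᵥ e0 k = 0 := by rw [e1_dot]; simp [e0]
  have pv : ∀ {γ : k → Fin 4 → k}, (∀ i, IsPoly fun s => γ s i) → ∀ v : Fin 4 → k,
      PM fun s => vecMulVec (γ s) v := fun hγ v x y => (hγ x).mul (D7.IsPoly.const _)
  have hP : ∀ {γ : k → Fin 4 → k} {c : Fin 4 → k}, (∀ i, IsPoly fun s => γ s i) →
      PM fun s => vecMulVec (P1 k *ᵥ (γ s - c)) (e0 k) := by
    intro γ c hγ x y
    exact ((PM.const (P1 k)).mulVec (v := fun s => γ s - c)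
      (fun i => (hγ i).sub (D7.IsPoly.const _)) x).mul (D7.IsPoly.const _)
  obtain ⟨s, hs, h3⟩ := h.deform1
    (Ys := fun s => lam s • Y + s • vecMulVec (β s) (e1 k))
    (Zs := fun s => lam s • Z + s • vecMulVec (β' s) (e1 k)) (bs := β) (bs' := β')
    (Bs := fun s => B + vecMulVec (P1 k *ᵥ (β s - b)) (e0 k))
    (Bs' := fun s => B' + vecMulVec (P1 k *ᵥ (β' s - b')) (e0 k))
    (((PM.const Y).smul hl).add ((pv hβ _).smul D7.IsPoly.id))
    (((PM.const Z).smul hl).add ((pv hβ' _).smul D7.IsPoly.id)) hβ hβ'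
    ((PM.const _).add (hP hβ)) ((PM.const _).add (hP hβ'))
    (by simp [l0]) (by simp [l0]) β0 β0' (by
      ext i j
      simp [β0, vecMulVec_apply]) (by
      ext i j
      simp [β0', vecMulVec_apply]) (fun s => by
      have a1 : ∀ (M : Matrix (Fin 4) (Fin 4) k) (γ : Fin 4 → k), M *ᵥ e0 k = 0 →
          (lam s • M + s • vecMulVec γ (e1 k)) *ᵥ e0 k = 0 := by
        intro M γ hM
        rw [Matrix.add_mulVec, Matrix.smul_mulVec, hM, Matrix.smul_mulVec, vv, e10, zero_smul,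
          smul_zero, smul_zero, add_zero]
      have a2 : ∀ (M M' : Matrix (Fin 4) (Fin 4) k) (γ γ' : Fin 4 → k), M' 1 = 0 →
          (lam s • M + s • vecMulVec γ (e1 k)) * (lam s • M' + s • vecMulVec γ' (e1 k)) =
          (lam s * lam s) • (M * M') + s • vecMulVec (lam s • (M *ᵥ γ') + (s * γ' 1) • γ)
            (e1 k) := by
        intro M M' γ γ' hM'
        rw [Matrix.add_mul, Matrix.mul_add, Matrix.mul_add, Matrix.smul_mul, Matrix.smul_mul,
          Matrix.smul_mul, Matrix.smul_mul, Matrix.mul_smul, Matrix.mul_smul, Matrix.mul_smul,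
          Matrix.mul_smul, mul_vecMulVec, vecMulVec_mul, e1_vecMul, hM',
          vecMulVec_mul_vecMulVec, e1_dot]
        ext i j
        simp only [Matrix.add_apply, Matrix.smul_apply, vecMulVec_apply, Pi.add_apply,
          Pi.smul_apply, smul_eq_mul, Pi.zero_apply]
        ring
      have a3 : ∀ γ : Fin 4 → k, P1 k *ᵥ γ = 0 → P1 k * vecMulVec γ (e1 k) = 0 := by
        intro γ hγ
        rw [mul_vecMulVec, hγ]
        ext i j
        simp [vecMulVec_apply]
      refine rl2 (a1 _ _ hY0) (a1 _ _ hZ0) ?_ ?_ ?_ ?_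
      · rw [← sub_eq_zero, ← Matrix.mul_sub, a2 _ _ _ _ hZ1, a2 _ _ _ _ hY1]
        have b1 : (lam s * lam s) • (Y * Z) + s • vecMulVec (lam s • (Y *ᵥ β' s) +
            (s * β' s 1) • β s) (e1 k) - ((lam s * lam s) • (Z * Y) + s • vecMulVec
            (lam s • (Z *ᵥ β s) + (s * β s 1) • β' s) (e1 k)) =
            (lam s * lam s) • (Y * Z - Z * Y) + (s * lam s) • vecMulVec
            (Y *ᵥ β' s - Z *ᵥ β s + s • (b' 1 • β s - b 1 • β' s)) (e1 k) := by
          rw [h1, h1']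
          ext i j
          simp only [Matrix.sub_apply, Matrix.add_apply, Matrix.smul_apply, vecMulVec_apply,
            Pi.add_apply, Pi.sub_apply, Pi.smul_apply, smul_eq_mul]
          ring
        rw [b1, Matrix.mul_add, Matrix.mul_smul, Matrix.mul_smul, a3 _ (h2 s), Matrix.mul_sub,
          hR.mm, sub_self, smul_zero, smul_zero, add_zero]
      · rw [Matrix.add_mulVec, hR.l1, e0_e0, Matrix.mulVec_sub]
        abel
      · rw [Matrix.add_mulVec, hR.l2, e0_e0, Matrix.mulVec_sub]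
        abel
      · rw [← sub_eq_zero, ← Matrix.mulVec_sub]
        have b1 : (lam s • Y + s • vecMulVec (β s) (e1 k)) *ᵥ β' s -
            (lam s • Z + s • vecMulVec (β' s) (e1 k)) *ᵥ β s =
            lam s • (Y *ᵥ β' s - Z *ᵥ β s + s • (b' 1 • β s - b 1 • β' s)) := by
          rw [Matrix.add_mulVec, Matrix.add_mulVec, Matrix.smul_mulVec, Matrix.smul_mulVec,
            Matrix.smul_mulVec, Matrix.smul_mulVec, vv, vv, e1_dot, e1_dot, h1, h1']
          ext i
          simp only [Pi.add_apply, Pi.sub_apply, Pi.smul_apply, smul_eq_mul]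
          ring
        rw [b1, Matrix.mulVec_smul, h2, smul_zero]) hF
  exact ⟨s, hs, _, _, h3⟩

/-- two coordinates of a vector of length 4 -/
def c02 (v : Fin 4 → k) : Fin 2 → k := ![v 0, v 2]

/-- a linear map into `k ^ 2` which is not annihilated by a covector is onto -/
theorem onto2 {V : Type*} [AddCommGroup V] [Module k V] (f : V →ₗ[k] (Fin 2 → k))
    (h : ∀ x y : k, (∀ v, x * f v 0 + y * f v 1 = 0) → x = 0 ∧ y = 0) (w : Fin 2 → k) :
    ∃ v, f v = w := by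
  have h1 : LinearMap.range f = ⊤ := by
    by_contra hne
    obtain ⟨g, hg, hle⟩ := Submodule.exists_le_ker_of_lt_top _ (lt_top_iff_ne_top.2 hne)
    apply hg
    have h2 : ∀ u : Fin 2 → k, g u = g (Pi.single 0 1) * u 0 + g (Pi.single 1 1) * u 1 := by
      intro u
      conv_lhs => rw [← Finset.univ_sum_single u]
      rw [map_sum, Fin.sum_univ_two]
      have h3 : ∀ i : Fin 2, Pi.single i (u i) = u i • (Pi.single i (1 : k) : Fin 2 → k) := by
        intro i
        rw [← Pi.single_smul, smul_eq_mul, mul_one]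
      rw [h3, h3, map_smul, map_smul, smul_eq_mul, smul_eq_mul]
      ring
    obtain ⟨h4, h5⟩ := h (g (Pi.single 0 1)) (g (Pi.single 1 1)) fun v => by
      rw [← h2]
      exact hle ⟨v, rfl⟩
    ext u
    rw [LinearMap.comp_apply, h2, h4, h5]
    simp
  have h5 : w ∈ LinearMap.range f := h1 ▸ Submodule.mem_top
  exact h5

end Pool.Agent.Lib.D13.A1
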