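import Pool.Agent.Lib.D13.A1mv3

/-!
# MP_5dcbc3_ag: type (4,3,3,2), levels 1 | 4 | 4 | 3: the cases solved by `Y + s β ⊗ e₁`
-/

namespace Pool.Agent.Lib.D13.A1

open Matrix Pool.Agent.Lib Pool.Agent.Lib.D7 Pool.Agent.Lib.Q5dc

variable {k : Type*} [Field k] {ρ : ℕ → ℕ}
variable {Y Z : Matrix (Fin 4) (Fin 4) k} {b b' : Fin 4 → k} {B B' : Matrix (Fin 3) (Fin 4) k}

theorem col0 {M : Matrix (Fin 4) (Fin 4) k} (h : M *ᵥ e0 k = 0) (i : Fin 4) : M i 0 = 0 := by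
  have := congrFun h i
  rwa [mulVec_e0] at this

theorem mv4 (M : Matrix (Fin 4) (Fin 4) k) (v : Fin 4 → k) (i : Fin 4) :
    (M *ᵥ v) i = M i 0 * v 0 + M i 1 * v 1 + M i 2 * v 2 + M i 3 * v 3 := by
  simp only [Matrix.mulVec, dotProduct, Fin.sum_univ_four]

/-- the linear map of the move -/
def LB (Y Z : Matrix (Fin 4) (Fin 4) k) (x x' : k) (s : k) :
    (k × ((Fin 4 → k) × (Fin 4 → k))) →ₗ[k] (Fin 4 → k) where
  toFun u := Y *ᵥ u.2.2 - Z *ᵥ u.2.1 + s • (x' • u.2.1 - x • u.2.2)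
  map_add' u v := by
    ext i
    simp only [Prod.snd_add, Prod.fst_add, Matrix.mulVec_add, Pi.add_apply, Pi.sub_apply,
      Pi.smul_apply, smul_eq_mul]
    ring
  map_smul' c u := by
    ext i
    simp only [Prod.smul_snd, Prod.smul_fst, Matrix.mulVec_smul, Pi.add_apply, Pi.sub_apply,
      Pi.smul_apply, smul_eq_mul, RingHom.id_apply]
    ring

theorem LB_apply (Y Z : Matrix (Fin 4) (Fin 4) k) (x x' s : k)
    (u : k × ((Fin 4 → k) × (Fin 4 → k))) :
    LB Y Z x x' s u = Y *ᵥ u.2.2 - Z *ᵥ u.2.1 + s • (x' • u.2.1 - x • u.2.2) := rfl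

theorem LB_poly (Y Z : Matrix (Fin 4) (Fin 4) k) (x x' : k)
    (u : k × ((Fin 4 → k) × (Fin 4 → k))) (i : Fin 4) : IsPoly fun s => LB Y Z x x' s u i := by
  have e : (fun s => LB Y Z x x' s u i) =
      fun s => (Y *ᵥ u.2.2 - Z *ᵥ u.2.1) i + s * (x' • u.2.1 - x • u.2.2) i := rfl
  rw [e]
  exact (D7.IsPoly.const _).add (D7.IsPoly.id.mul (D7.IsPoly.const _))

/-- the linear system, first form -/
def LC (Y Z : Matrix (Fin 4) (Fin 4) k) (x x' : k) (s : k) :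
    (k × ((Fin 4 → k) × (Fin 4 → k))) →ₗ[k] (k × k) × (Fin 2 → k) where
  toFun u := ((u.2.1 1 - u.1 * x, u.2.2 1 - u.1 * x'),
    ![LB Y Z x x' s u 0, LB Y Z x x' s u 2])
  map_add' u v := by
    rw [map_add]
    refine Prod.ext (Prod.ext ?_ ?_) ?_
    · simp only [Prod.fst_add, Prod.snd_add, Pi.add_apply]
      ring
    · simp only [Prod.fst_add, Prod.snd_add, Pi.add_apply]
      ring
    · ext i
      fin_cases i <;> simp
  map_smul' c u := by
    rw [map_smul]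
    refine Prod.ext (Prod.ext ?_ ?_) ?_
    · simp only [Prod.smul_fst, Prod.smul_snd, Pi.smul_apply, smul_eq_mul, RingHom.id_apply]
      ring
    · simp only [Prod.smul_fst, Prod.smul_snd, Pi.smul_apply, smul_eq_mul, RingHom.id_apply]
      ring
    · ext i
      fin_cases i <;> simp

/-- the linear system, second form -/
def LD (Y Z : Matrix (Fin 4) (Fin 4) k) (x x' : k) (s : k) :
    (k × ((Fin 4 → k) × (Fin 4 → k))) →ₗ[k] (k × k) × ((k × k) × k) where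
  toFun u := ((u.2.1 1 - u.1 * x, u.2.2 1 - u.1 * x'), ((u.2.1 0, u.2.2 0),
    LB Y Z x x' s u 2))
  map_add' u v := by
    rw [map_add]
    refine Prod.ext (Prod.ext ?_ ?_) (Prod.ext (Prod.ext ?_ ?_) ?_)
    · simp only [Prod.fst_add, Prod.snd_add, Pi.add_apply]
      ring
    · simp only [Prod.fst_add, Prod.snd_add, Pi.add_apply]
      ring
    · rfl
    · rfl
    · rfl
  map_smul' c u := by
    rw [map_smul]
    refine Prod.ext (Prod.ext ?_ ?_) (Prod.ext (Prod.ext ?_ ?_) ?_)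
    · simp only [Prod.smul_fst, Prod.smul_snd, Pi.smul_apply, smul_eq_mul, RingHom.id_apply]
      ring
    · simp only [Prod.smul_fst, Prod.smul_snd, Pi.smul_apply, smul_eq_mul, RingHom.id_apply]
      ring
    · rfl
    · rfl
    · rfl

/-- rows 0 and 2 of `Y β' - Z β` on vectors with two nonzero coordinates -/
def F2 (Y Z : Matrix (Fin 4) (Fin 4) k) : ((k × k) × (k × k)) →ₗ[k] (Fin 2 → k) where
  toFun u := ![Y 0 2 * u.2.1 + Y 0 3 * u.2.2 - (Z 0 2 * u.1.1 + Z 0 3 * u.1.2),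
    Y 2 2 * u.2.1 + Y 2 3 * u.2.2 - (Z 2 2 * u.1.1 + Z 2 3 * u.1.2)]
  map_add' u v := by
    ext i
    fin_cases i
    · simp
      ring
    · simp
      ring
  map_smul' c u := by
    ext i
    fin_cases i
    · simp
      ring
    · simp
      ring

theorem F2_onto (hf : ∀ x y : k, x * Y 0 2 + y * Y 2 2 = 0 → x * Y 0 3 + y * Y 2 3 = 0 →
      x * Z 0 2 + y * Z 2 2 = 0 → x * Z 0 3 + y * Z 2 3 = 0 → x = 0 ∧ y = 0) (w : Fin 2 → k) :
    ∃ u, F2 Y Z u = w := by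
  refine onto2 _ (fun x y h => hf x y ?_ ?_ ?_ ?_) w
  · have := h ((0, 0), (1, 0))
    simpa [F2] using this
  · have := h ((0, 0), (0, 1))
    simpa [F2] using this
  · have := h ((1, 0), (0, 0))
    simp only [F2, LinearMap.coe_mk, AddHom.coe_mk, mul_zero, mul_one, add_zero, zero_sub,
      Matrix.cons_val_zero, Matrix.cons_val_one] at this
    linear_combination -this
  · have := h ((0, 1), (0, 0))
    simp only [F2, LinearMap.coe_mk, AddHom.coe_mk, mul_zero, mul_one, add_zero, zero_add,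
      zero_sub, Matrix.cons_val_zero, Matrix.cons_val_one] at this
    linear_combination -this

theorem row1 {M : Matrix (Fin 4) (Fin 4) k} (h : M 1 = 0) (v : Fin 4 → k) : (M *ᵥ v) 1 = 0 := by
  rw [mv4, h]
  simp

/-- first case, `b₁` not zero -/
theorem beta2a [Infinite k] (h2a : H2a k ρ) (h : Bad ρ Y Z b b' B B') (hY0 : Y *ᵥ e0 k = 0)
    (hZ0 : Z *ᵥ e0 k = 0) (hY1 : Y 1 = 0) (hZ1 : Z 1 = 0)
    (hf : ∀ x y : k, x * Y 0 2 + y * Y 2 2 = 0 → x * Y 0 3 + y * Y 2 3 = 0 →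
      x * Z 0 2 + y * Z 2 2 = 0 → x * Z 0 3 + y * Z 2 3 = 0 → x = 0 ∧ y = 0)
    (hb : b 1 ≠ 0 ∨ b' 1 ≠ 0) : False := by
  have hR := h.rl
  obtain ⟨r0', -, r2'⟩ := P1_eq_iff.1 (hR.l3' hY0 hZ0)
  obtain ⟨v, hv, hv0, hv1⟩ := lift_at (LC Y Z (b 1) (b' 1)) (fun u => by
      refine PolyV.prod (PolyV.const _) (PolyV.of_pi fun i => ?_)
      fin_cases i
      · exact LB_poly _ _ _ _ _ _
      · exact LB_poly _ _ _ _ _ _) 0 (by
      rintro ⟨⟨w0, w1⟩, w2⟩
      obtain ⟨⟨⟨x2, x3⟩, ⟨x2', x3'⟩⟩, hx⟩ := F2_onto hf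
        (w2 - ![Y 0 1 * w1 - Z 0 1 * w0, Y 2 1 * w1 - Z 2 1 * w0])
      refine ⟨(0, (![0, w0, x2, x3], ![0, w1, x2', x3'])), ?_⟩
      refine Prod.ext (Prod.ext ?_ ?_) ?_
      · simp [LC]
      · simp [LC]
      · have g0 := congrFun hx 0
        have g1 := congrFun hx 1
        simp only [F2, LinearMap.coe_mk, AddHom.coe_mk, Matrix.cons_val_zero,
          Matrix.cons_val_one, Pi.sub_apply] at g0 g1
        ext i
        fin_cases i
        · show LB Y Z (b 1) (b' 1) 0 _ 0 = w2 0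
          rw [LB_apply, zero_smul, add_zero, Pi.sub_apply, mv4, mv4]
          simp only [Matrix.cons_val_zero, Matrix.cons_val_one, Matrix.cons_val]
          linear_combination g0
        · show LB Y Z (b 1) (b' 1) 0 _ 2 = w2 1
          rw [LB_apply, zero_smul, add_zero, Pi.sub_apply, mv4, mv4]
          simp only [Matrix.cons_val_zero, Matrix.cons_val_one, Matrix.cons_val]
          linear_combination g1) (c := (1, (b, b'))) (by
      refine Prod.ext (Prod.ext ?_ ?_) ?_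
      · simp [LC]
      · simp [LC]
      · ext i
        fin_cases i
        · show LB Y Z (b 1) (b' 1) 0 _ 0 = 0
          rw [LB_apply, zero_smul, add_zero, Pi.sub_apply]
          exact sub_eq_zero.2 r0'
        · show LB Y Z (b 1) (b' 1) 0 _ 2 = 0
          rw [LB_apply, zero_smul, add_zero, Pi.sub_apply]
          exact sub_eq_zero.2 r2')
  have e1' : ∀ s, (v s).2.1 1 = (v s).1 * b 1 := fun s =>
    sub_eq_zero.1 (congrArg (fun t => t.1.1) (hv1 s))
  have e2' : ∀ s, (v s).2.2 1 = (v s).1 * b' 1 := fun s =>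
    sub_eq_zero.1 (congrArg (fun t => t.1.2) (hv1 s))
  have e3 : ∀ s, LB Y Z (b 1) (b' 1) s (v s) 0 = 0 := fun s =>
    congrArg (fun t => t.2 0) (hv1 s)
  have e4 : ∀ s, LB Y Z (b 1) (b' 1) s (v s) 2 = 0 := fun s =>
    congrArg (fun t => t.2 1) (hv1 s)
  have hl : IsPoly fun s => (v s).1 := (hv.map (LinearMap.fst k _ _)).isPoly
  have l0 : (v 0).1 = 1 := by rw [hv0]
  obtain ⟨s, hs, C, C', h3⟩ := bfam h hY0 hZ0 hY1 hZ1 (lam := fun s => (v s).1)
    (β := fun s => (v s).2.1) (β' := fun s => (v s).2.2) hl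
    (fun i => (hv.map ((LinearMap.proj i).comp
      ((LinearMap.fst k _ _).comp (LinearMap.snd k _ _)))).isPoly)
    (fun i => (hv.map ((LinearMap.proj i).comp
      ((LinearMap.snd k _ _).comp (LinearMap.snd k _ _)))).isPoly)
    l0 (by simp only [hv0]) (by simp only [hv0]) e1' e2' (fun s => by
      rw [← Matrix.mulVec_zero (P1 k)]
      refine P1_eq_iff.2 ⟨e3 s, ?_, e4 s⟩
      rw [Pi.add_apply, Pi.sub_apply, row1 hY1, row1 hZ1]
      simp only [Pi.smul_apply, Pi.sub_apply, smul_eq_mul, e1', e2', Pi.zero_apply]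
      ring)
    (F := {0} ∪ {s | (v s).1 = 0}) ((Set.finite_singleton 0).union
      (hl.finite (s₁ := 0) (by rw [l0]; exact one_ne_zero)))
  simp only [Set.mem_union, Set.mem_singleton_iff, Set.mem_ofPred_eq, not_or] at hs
  obtain ⟨s0, s1⟩ := hs
  have e10 : e1 k ⬝ᵥ e0 k = 0 := by rw [e1_dot]; simp [e0]
  have a1 : ∀ (M : Matrix (Fin 4) (Fin 4) k) (γ : Fin 4 → k), M *ᵥ e0 k = 0 →
      ((v s).1 • M + s • vecMulVec γ (e1 k)) *ᵥ e0 k = 0 := by
    intro M γ hM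
    rw [Matrix.add_mulVec, Matrix.smul_mulVec, hM, Matrix.smul_mulVec, vv, e10, zero_smul,
      smul_zero, smul_zero, add_zero]
  refine r0 h2a h3 (a1 _ _ hY0) (a1 _ _ hZ0) (fun ζ hζ hζ' => ?_)
  have a2 : ∀ (M : Matrix (Fin 4) (Fin 4) k) (γ : Fin 4 → k), M 1 = 0 →
      ζ ᵥ* (P1 k * ((v s).1 • M + s • vecMulVec γ (e1 k))) = 0 →
      ζ 0 * M 0 2 + ζ 2 * M 2 2 = 0 ∧ ζ 0 * M 0 3 + ζ 2 * M 2 3 = 0 ∧
      ζ 0 * ((v s).1 * M 0 1 + s * γ 0) + ζ 1 * (s * γ 1) +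
        ζ 2 * ((v s).1 * M 2 1 + s * γ 2) = 0 := by
    intro M γ hM hz
    have m1 : ∀ j, M 1 j = 0 := fun j => congrFun hM j
    have g : ∀ j, _ := fun j => congrFun hz j
    simp only [Matrix.vecMul, dotProduct, Fin.sum_univ_three, P1_mul, Pi.zero_apply,
      Matrix.add_apply, Matrix.smul_apply, vecMulVec_apply, smul_eq_mul] at g
    have g1 := g 1
    have g2 := g 2
    have g3 := g 3
    have hc2 : (Fin.castSucc (2 : Fin 3) : Fin 4) = 2 := rfl
    simp only [Fin.castSucc_zero, Fin.castSucc_one, hc2, m1, e1, Matrix.cons_val_zero,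
      Matrix.cons_val_one, Matrix.cons_val, mul_zero, mul_one, add_zero, zero_add] at g1 g2 g3
    refine ⟨?_, ?_, g1⟩
    · refine (mul_eq_zero.1 ?_).resolve_left s1
      linear_combination g2
    · refine (mul_eq_zero.1 ?_).resolve_left s1
      linear_combination g3
  obtain ⟨y2, y3, y1⟩ := a2 Y _ hY1 hζ
  obtain ⟨z2, z3, z1⟩ := a2 Z _ hZ1 hζ'
  obtain ⟨x0, x2⟩ := hf _ _ y2 y3 z2 z3
  rw [x0, x2, zero_mul, zero_mul, zero_add, add_zero] at y1 z1
  rw [e1'] at y1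
  rw [e2'] at z1
  have x1 : ζ 1 = 0 := by
    rcases hb with hb | hb
    · simpa [s0, s1, hb] using y1
    · simpa [s0, s1, hb] using z1
  ext i
  fin_cases i
  · exact x0
  · exact x1
  · exact x2

/-- first case -/
theorem beta2 [Infinite k] (h2a : H2a k ρ) (h : Bad ρ Y Z b b' B B') (hY0 : Y *ᵥ e0 k = 0)
    (hZ0 : Z *ᵥ e0 k = 0) (hY1 : Y 1 = 0) (hZ1 : Z 1 = 0)
    (hf : ∀ x y : k, x * Y 0 2 + y * Y 2 2 = 0 → x * Y 0 3 + y * Y 2 3 = 0 →
      x * Z 0 2 + y * Z 2 2 = 0 → x * Z 0 3 + y * Z 2 3 = 0 → x = 0 ∧ y = 0) : False := by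
  by_cases hb : b 1 ≠ 0 ∨ b' 1 ≠ 0
  · exact beta2a h2a h hY0 hZ0 hY1 hZ1 hf hb
  · push Not at hb
    obtain ⟨⟨⟨x2, x3⟩, ⟨x2', x3'⟩⟩, hx⟩ := F2_onto hf ![Z 0 1, Z 2 1]
    have g0 := congrFun hx 0
    have g1 := congrFun hx 1
    simp only [F2, LinearMap.coe_mk, AddHom.coe_mk, Matrix.cons_val_zero,
      Matrix.cons_val_one] at g0 g1
    obtain ⟨s, hs, h1⟩ := bmove h hY0 hZ0 (d := ![0, 1, x2, x3]) (d' := ![0, 0, x2', x3']) (by
      refine P1_eq_iff.2 ⟨?_, ?_, ?_⟩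
      · rw [mv4, mv4]
        simp only [Matrix.cons_val_zero, Matrix.cons_val_one, Matrix.cons_val]
        linear_combination g0
      · rw [row1 hY1, row1 hZ1]
      · rw [mv4, mv4]
        simp only [Matrix.cons_val_zero, Matrix.cons_val_one, Matrix.cons_val]
        linear_combination g1) (Set.finite_singleton (0 : k))
    refine beta2a h2a h1 hY0 hZ0 hY1 hZ1 hf (Or.inl ?_)
    have hs0 : s ≠ 0 := hs
    simpa [hb.1] using hs0

end Pool.Agent.Lib.D13.A1
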