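import Pool.Agent.Lib.D13.A1mv4

/-!
# MP_5dcbc3_ag: type (4,3,3,2), levels 1 | 4 | 4 | 3: the remaining moves
-/

namespace Pool.Agent.Lib.D13.A1

open Matrix Pool.Agent.Lib Pool.Agent.Lib.D7 Pool.Agent.Lib.Q5dc

variable {k : Type*} [Field k] {ρ : ℕ → ℕ}
variable {Y Z : Matrix (Fin 4) (Fin 4) k} {b b' : Fin 4 → k} {B B' : Matrix (Fin 3) (Fin 4) k}

/-- one linear equation -/
theorem F1_onto (hq : Y 2 2 ≠ 0 ∨ Y 2 3 ≠ 0 ∨ Z 2 2 ≠ 0 ∨ Z 2 3 ≠ 0) (w : k) :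
    ∃ x2 x3 x2' x3' : k, Y 2 2 * x2' + Y 2 3 * x3' - (Z 2 2 * x2 + Z 2 3 * x3) = w := by
  rcases hq with h | h | h | h
  · exact ⟨0, 0, w / Y 2 2, 0, by field_simp; ring⟩
  · exact ⟨0, 0, 0, w / Y 2 3, by field_simp; ring⟩
  · exact ⟨-w / Z 2 2, 0, 0, 0, by field_simp; ring⟩
  · exact ⟨0, -w / Z 2 3, 0, 0, by field_simp; ring⟩

/-- second case, `b₁` not zero, `b₀ = 0` -/
theorem beta1a [Infinite k] (h2a : H2a k ρ) (h : Bad ρ Y Z b b' B B') (hY0 : Y *ᵥ e0 k = 0)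
    (hZ0 : Z *ᵥ e0 k = 0) (hY1 : Y 1 = 0) (hZ1 : Z 1 = 0)
    (hY2 : Y 0 2 = 0) (hY3 : Y 0 3 = 0) (hZ2 : Z 0 2 = 0) (hZ3 : Z 0 3 = 0)
    (hq : Y 2 2 ≠ 0 ∨ Y 2 3 ≠ 0 ∨ Z 2 2 ≠ 0 ∨ Z 2 3 ≠ 0) (hp : Y 0 1 ≠ 0 ∨ Z 0 1 ≠ 0)
    (b0 : b 0 = 0) (b0' : b' 0 = 0) (hb : b 1 ≠ 0 ∨ b' 1 ≠ 0) : False := by
  have hR := h.rl
  obtain ⟨r0', -, r2'⟩ := P1_eq_iff.1 (hR.l3' hY0 hZ0)
  have r0'' : Y 0 1 * b' 1 = Z 0 1 * b 1 := by
    rw [mv4, mv4, hY2, hY3, hZ2, hZ3, b0, b0'] at r0'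
    linear_combination r0'
  obtain ⟨v, hv, hv0, hv1⟩ := lift_at (LD Y Z (b 1) (b' 1)) (fun u =>
      PolyV.prod (PolyV.const _) (PolyV.prod (PolyV.const _)
        (PolyV.of_isPoly (LB_poly _ _ _ _ _ _)))) 0 (by
      rintro ⟨⟨w0, w1⟩, ⟨w2, w3⟩, w4⟩
      obtain ⟨x2, x3, x2', x3', hx⟩ := F1_onto (Y := Y) (Z := Z) hq
        (w4 - (Y 2 1 * w1 - Z 2 1 * w0))
      refine ⟨(0, (![w2, w0, x2, x3], ![w3, w1, x2', x3'])), ?_⟩
      refine Prod.ext (Prod.ext ?_ ?_) (Prod.ext (Prod.ext ?_ ?_) ?_)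
      · simp [LD]
      · simp [LD]
      · rfl
      · rfl
      · show LB Y Z (b 1) (b' 1) 0 _ 2 = w4
        rw [LB_apply, zero_smul, add_zero, Pi.sub_apply, mv4, mv4, col0 hY0, col0 hZ0]
        simp only [Matrix.cons_val_zero, Matrix.cons_val_one, Matrix.cons_val]
        linear_combination hx) (c := (1, (b, b'))) (by
      refine Prod.ext (Prod.ext ?_ ?_) (Prod.ext (Prod.ext ?_ ?_) ?_)
      · simp [LD]
      · simp [LD]
      · exact b0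
      · exact b0'
      · show LB Y Z (b 1) (b' 1) 0 _ 2 = 0
        rw [LB_apply, zero_smul, add_zero, Pi.sub_apply]
        exact sub_eq_zero.2 r2')
  have e1' : ∀ s, (v s).2.1 1 = (v s).1 * b 1 := fun s =>
    sub_eq_zero.1 (congrArg (fun t => t.1.1) (hv1 s))
  have e2' : ∀ s, (v s).2.2 1 = (v s).1 * b' 1 := fun s =>
    sub_eq_zero.1 (congrArg (fun t => t.1.2) (hv1 s))
  have e3 : ∀ s, (v s).2.1 0 = 0 := fun s => congrArg (fun t => t.2.1.1) (hv1 s)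
  have e3' : ∀ s, (v s).2.2 0 = 0 := fun s => congrArg (fun t => t.2.1.2) (hv1 s)
  have e4 : ∀ s, LB Y Z (b 1) (b' 1) s (v s) 2 = 0 := fun s =>
    congrArg (fun t => t.2.2) (hv1 s)
  have hl : IsPoly fun s => (v s).1 := (hv.map (LinearMap.fst k _ _)).isPoly
  have l0 : (v 0).1 = 1 := by rw [hv0]
  obtain ⟨s, hs, C, C', h3⟩ := bfam h hY0 hZ0 hY1 hZ1 (lam := fun s => (v s).1)
    (β := fun s => (v s).2.1) (β' := fun s => (v s).2.2) hl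
    (fun i => (hv.map ((LinearMap.proj i).comp
      ((LinearMap.fst k _ _).comp (LinearMap.snd k _ _)))).isPoly)
    (fun i => (hv.map ((LinearMap.proj i).comp
      ((LinearMap.snd k _ _).comp (LinearMap.snd k _ _)))).isPoly)
    l0 (by simp only [hv0]) (by simp only [hv0]) e1' e2' (fun s => by
      rw [← Matrix.mulVec_zero (P1 k)]
      refine P1_eq_iff.2 ⟨?_, ?_, e4 s⟩
      · rw [Pi.add_apply, Pi.sub_apply, mv4, mv4, hY2, hY3, hZ2, hZ3]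
        simp only [Pi.smul_apply, Pi.sub_apply, smul_eq_mul, e1', e2', e3, e3', Pi.zero_apply]
        linear_combination (v s).1 * r0''
      · rw [Pi.add_apply, Pi.sub_apply, row1 hY1, row1 hZ1]
        simp only [Pi.smul_apply, Pi.sub_apply, smul_eq_mul, e1', e2', Pi.zero_apply]
        ring)
    (F := {0} ∪ {s | (v s).1 = 0}) ((Set.finite_singleton 0).union
      (hl.finite (s₁ := 0) (by rw [l0]; exact one_ne_zero)))
  simp only [Set.mem_union, Set.mem_singleton_iff, Set.mem_ofPred_eq, not_or] at hs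
  obtain ⟨s0, s1⟩ := hs
  have e10 : e1 k ⬝ᵥ e0 k = 0 := by rw [e1_dot]; simp [e0]
  have a1 : ∀ (M : Matrix (Fin 4) (Fin 4) k) (γ : Fin 4 → k), M *ᵥ e0 k = 0 →
      ((v s).1 • M + s • vecMulVec γ (e1 k)) *ᵥ e0 k = 0 := by
    intro M γ hM
    rw [Matrix.add_mulVec, Matrix.smul_mulVec, hM, Matrix.smul_mulVec, vv, e10, zero_smul,
      smul_zero, smul_zero, add_zero]
  -- the covector
  have a2 : ∀ (x y : k) (M : Matrix (Fin 4) (Fin 4) k) (γ : Fin 4 → k), M 1 = 0 →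
      M *ᵥ e0 k = 0 → M 0 2 = 0 → M 0 3 = 0 → γ 0 = 0 →
      x * ((v s).1 * M 0 1) + y * (s * γ 1) = 0 →
      (![x, y, 0, 0] : Fin 4 → k) ᵥ* ((v s).1 • M + s • vecMulVec γ (e1 k)) = 0 := by
    intro x y M γ hM hM0 hM2 hM3 hγ hxy
    have m1 : ∀ j, M 1 j = 0 := fun j => congrFun hM j
    have m0 := col0 hM0
    ext j
    simp only [Matrix.vecMul, dotProduct, Fin.sum_univ_four, Pi.zero_apply,
      Matrix.add_apply, Matrix.smul_apply, vecMulVec_apply, smul_eq_mul, Matrix.cons_val_zero,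
      Matrix.cons_val_one, Matrix.cons_val, zero_mul, add_zero, m1, mul_zero, zero_add, hγ]
    fin_cases j
    · simp [m0, e1]
    · simpa [e1] using hxy
    · simp [hM2, e1]
    · simp [hM3, e1]
  by_cases hy : Y 0 1 = 0
  · have hz : Z 0 1 ≠ 0 := hp.resolve_left fun t => t hy
    have hb1 : b 1 = 0 := by
      rw [hy, zero_mul] at r0''
      exact (mul_eq_zero.1 r0''.symm).resolve_left hz
    have hb1' : b' 1 ≠ 0 := hb.resolve_left fun t => t hb1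
    refine T1 h2a h3 (a1 _ _ hY0) (a1 _ _ hZ0) (ζ := ![s * b' 1, -Z 0 1, 0, 0])
      (a2 _ _ _ _ hY1 hY0 hY2 hY3 (e3 s) ?_) (a2 _ _ _ _ hZ1 hZ0 hZ2 hZ3 (e3' s) ?_) ?_
    · rw [e1', hy, hb1]
      ring
    · rw [e2']
      ring
    · exact mul_ne_zero s0 hb1'
  · have hb1 : b 1 ≠ 0 := by
      intro h0
      rw [h0, mul_zero] at r0''
      have h1 := (mul_eq_zero.1 r0'').resolve_left hy
      exact hb.elim (fun t => t h0) fun t => t h1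
    refine T1 h2a h3 (a1 _ _ hY0) (a1 _ _ hZ0) (ζ := ![s * b 1, -Y 0 1, 0, 0])
      (a2 _ _ _ _ hY1 hY0 hY2 hY3 (e3 s) ?_) (a2 _ _ _ _ hZ1 hZ0 hZ2 hZ3 (e3' s) ?_) ?_
    · rw [e1']
      ring
    · rw [e2']
      linear_combination -(s * (v s).1) * r0''
    · exact mul_ne_zero s0 hb1

/-- second case -/
theorem beta1 [Infinite k] (h2a : H2a k ρ) (h : Bad ρ Y Z b b' B B') (hY0 : Y *ᵥ e0 k = 0)
    (hZ0 : Z *ᵥ e0 k = 0) (hY1 : Y 1 = 0) (hZ1 : Z 1 = 0)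
    (hY2 : Y 0 2 = 0) (hY3 : Y 0 3 = 0) (hZ2 : Z 0 2 = 0) (hZ3 : Z 0 3 = 0)
    (hq : Y 2 2 ≠ 0 ∨ Y 2 3 ≠ 0 ∨ Z 2 2 ≠ 0 ∨ Z 2 3 ≠ 0) (hp : Y 0 1 ≠ 0 ∨ Z 0 1 ≠ 0) :
    False := by
  have h' := h.sub 0 0 (b 0) (b' 0)
  rw [zero_smul, sub_zero, sub_zero] at h'
  have c0 : (b - b 0 • e0 k) 0 = 0 := by simp [e0]
  have c0' : (b' - b' 0 • e0 k) 0 = 0 := by simp [e0]
  by_cases hb : (b - b 0 • e0 k) 1 ≠ 0 ∨ (b' - b' 0 • e0 k) 1 ≠ 0
  · exact beta1a h2a h' hY0 hZ0 hY1 hZ1 hY2 hY3 hZ2 hZ3 hq hp c0 c0' hb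
  · push Not at hb
    obtain ⟨x2, x3, x2', x3', hx⟩ := F1_onto (Y := Y) (Z := Z) hq
      (Z 2 1 * Y 0 1 - Y 2 1 * Z 0 1)
    obtain ⟨s, hs, h1⟩ := bmove h' hY0 hZ0 (d := ![0, Y 0 1, x2, x3])
      (d' := ![0, Z 0 1, x2', x3']) (by
      refine P1_eq_iff.2 ⟨?_, ?_, ?_⟩
      · rw [mv4, mv4, hY2, hY3, hZ2, hZ3]
        simp only [Matrix.cons_val_zero, Matrix.cons_val_one, Matrix.cons_val]
        ring
      · rw [row1 hY1, row1 hZ1]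
      · rw [mv4, mv4]
        simp only [Matrix.cons_val_zero, Matrix.cons_val_one, Matrix.cons_val]
        linear_combination hx) (Set.finite_singleton (0 : k))
    have hs0 : s ≠ 0 := hs
    refine beta1a h2a h1 hY0 hZ0 hY1 hZ1 hY2 hY3 hZ2 hZ3 hq hp ?_ ?_ ?_
    · rw [Pi.add_apply, c0]
      simp
    · rw [Pi.add_apply, c0']
      simp
    · rcases hp with hp | hp
      · left
        rw [Pi.add_apply, hb.1]
        simpa [hs0] using hp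
      · right
        rw [Pi.add_apply, hb.2]
        simpa [hs0] using hp

end Pool.Agent.Lib.D13.A1
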