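import Pool.Agent.Lib.D13.A1mv5

/-!
# MP_5dcbc3_ag: type (4,3,3,2), levels 1 | 4 | 4 | 3: shears, the moves with fixed lower parts
-/

namespace Pool.Agent.Lib.D13.A1

open Matrix Pool.Agent.Lib Pool.Agent.Lib.D7 Pool.Agent.Lib.Q5dc

variable {k : Type*} [Field k] {ρ : ℕ → ℕ}
variable {Y Z : Matrix (Fin 4) (Fin 4) k} {b b' : Fin 4 → k} {B B' : Matrix (Fin 3) (Fin 4) k}

/-- shear -/
def sN (t : k) : Matrix (Fin 3) (Fin 3) k := !![1, 0, -t; 0, 1, 0; 0, 0, 1]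

theorem sN_mul (t u : k) : sN t * sN u = sN (t + u) := by
  ext i j
  fin_cases i <;> fin_cases j <;>
    simp [sN, Matrix.mul_apply, Fin.sum_univ_three]

theorem sN_zero : sN (0 : k) = 1 := by
  ext i j
  fin_cases i <;> fin_cases j <;> simp [sN]

theorem sN_conj (t : k) (M : Matrix (Fin 4) (Fin 4) k) (hM : M *ᵥ e0 k = 0) (i j : Fin 4) :
    (up (sN t) * M * up (sN (-t))) i j = if i = 0 then M 0 j - t * M 2 j else M i j := by
  have m0 := col0 hM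
  have h1 : ∀ i j, (M * up (sN (-t))) i j = M i j := by
    intro i j
    rw [Matrix.mul_apply, Fin.sum_univ_four, m0]
    fin_cases j <;> simp [up, sN, m0]
  rw [Matrix.mul_assoc, Matrix.mul_apply, Fin.sum_univ_four]
  simp only [h1]
  fin_cases i
  · simp [up, sN]
    ring
  · simp [up, sN]
  · simp [up, sN]
  · simp [up, sN]

/-- shear of the data -/
theorem Bad.shear (h : Bad ρ Y Z b b' B B') (t : k) :
    ∃ c c' C C', Bad ρ (up (sN t) * Y * up (sN (-t))) (up (sN t) * Z * up (sN (-t)))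
      c c' C C' := by
  refine ⟨_, _, _, _, h.conj (N := sN t) (N' := sN (-t)) ?_ ?_ ?_⟩
  · rw [sN_mul, add_neg_cancel, sN_zero]
  · rw [sN_mul, neg_add_cancel, sN_zero]
  · intro i
    fin_cases i <;> simp [sN]

/-- a change of basis of the two middle vectors -/
def gN (a b c d : k) : Matrix (Fin 3) (Fin 3) k := !![1, 0, 0; 0, a, b; 0, c, d]

theorem gN_mul {a b c d : k} (h : a * d - b * c ≠ 0) :
    gN a b c d * gN (d / (a * d - b * c)) (-b / (a * d - b * c)) (-c / (a * d - b * c))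
      (a / (a * d - b * c)) = 1 := by
  ext i j
  fin_cases i <;> fin_cases j <;>
    simp [gN, Matrix.mul_apply, Fin.sum_univ_three]
  · field_simp
    ring
  · field_simp
    ring
  · field_simp
    ring
  · rw [mul_div_assoc', mul_div_assoc', ← add_div, div_eq_one_iff_eq h]
    ring

theorem gN_e0 (a b c d : k) : up (gN a b c d) *ᵥ e0 k = e0 k := by
  rw [mulVec_e0]
  ext i
  fin_cases i <;> simp [up, gN, e0]

theorem Bad.gl (h : Bad ρ Y Z b b' B B') {p q r s : k} (hd : p * s - q * r ≠ 0) :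
    ∃ c c' C C', Bad ρ (up (gN p q r s) * Y * up (gN (s / (p * s - q * r))
      (-q / (p * s - q * r)) (-r / (p * s - q * r)) (p / (p * s - q * r))))
      (up (gN p q r s) * Z * up (gN (s / (p * s - q * r))
      (-q / (p * s - q * r)) (-r / (p * s - q * r)) (p / (p * s - q * r)))) c c' C C' := by
  refine ⟨_, _, _, _, h.conj (N := gN p q r s) (gN_mul hd) (mul_eq_one_comm.1 (gN_mul hd)) ?_⟩
  intro i
  fin_cases i <;> simp [gN]

theorem conj0 {M N N' : Matrix (Fin 4) (Fin 4) k} (hM : M *ᵥ e0 k = 0) (hN : N' *ᵥ e0 k = e0 k) :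
    (N * M * N') *ᵥ e0 k = 0 := by
  rw [← Matrix.mulVec_mulVec, hN, ← Matrix.mulVec_mulVec, hM, Matrix.mulVec_zero]

theorem sN_e0 (t : k) : up (sN t) *ᵥ e0 k = e0 k := by
  rw [mulVec_e0]
  ext i
  fin_cases i <;> simp [up, sN, e0]

/-- the move `v + s u` in the image -/
theorem Umove [Infinite k] (h2a : H2a k ρ) (h : Bad ρ Y Z b b' B B') (hY0 : Y *ᵥ e0 k = 0)
    (hZ0 : Z *ᵥ e0 k = 0) (hY1 : Y 1 = 0) (hZ1 : Z 1 = 0) (hY2 : Y 2 = 0) (hZ2 : Z 2 = 0)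
    {u : Fin 4 → k} (u0 : u 0 = 0) (hu : (Y 0 ⬝ᵥ u) • Z 0 = (Z 0 ⬝ᵥ u) • Y 0)
    (hu12 : u 1 ≠ 0 ∨ u 2 ≠ 0) : False := by
  have hR := h.rl
  obtain ⟨r0', -, -⟩ := P1_eq_iff.1 (hR.l3' hY0 hZ0)
  have r0'' : Y 0 ⬝ᵥ b' = Z 0 ⬝ᵥ b := r0'
  have PYu : ∀ (M : Matrix (Fin 4) (Fin 4) k), M 1 = 0 → M 2 = 0 → ∀ w : Fin 4 → k,
      P1 k *ᵥ (M *ᵥ w) = (M 0 ⬝ᵥ w) • (P1 k *ᵥ e0 k) := by
    intro M h1 h2 w
    rw [← Matrix.mulVec_smul]
    refine P1_eq_iff.2 ⟨?_, ?_, ?_⟩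
    · simp [e0, Matrix.mulVec]
    · rw [row1 h1]
      simp [e0]
    · rw [mv4, h2]
      simp [e0]
  have rowp : ∀ (M M' : Matrix (Fin 4) (Fin 4) k), M *ᵥ e0 k = 0 → M' 1 = 0 → M' 2 = 0 →
      M 0 ᵥ* M' = (M 0 3) • M' 3 := by
    intro M M' h0 h1 h2
    ext j
    simp only [Matrix.vecMul, dotProduct, Fin.sum_univ_four, col0 h0, h1, h2, Pi.zero_apply,
      mul_zero, zero_mul, add_zero, zero_add, Pi.smul_apply, smul_eq_mul]
  have hmm0 : (Y 0 3) • Z 3 = (Z 0 3) • Y 3 := by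
    have h1 : (P1 k * (Y * Z)) 0 = (P1 k * (Z * Y)) 0 := by rw [hR.mm]
    have h2 : ∀ (M M' : Matrix (Fin 4) (Fin 4) k), (P1 k * (M * M')) 0 = M 0 ᵥ* M' := by
      intro M M'
      ext j
      rw [P1_mul, Matrix.mul_apply']
      rfl
    rw [h2, h2, rowp _ _ hY0 hZ1 hZ2, rowp _ _ hZ0 hY1 hY2] at h1
    exact h1
  have hl : ∀ (M N : Matrix (Fin 4) (Fin 4) k), PM fun s : k => M + s • N := fun M N =>
    (PM.const _).add ((PM.const _).smul D7.IsPoly.id)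
  have yd : Y 0 ⬝ᵥ e0 k = 0 := by rw [dot_e0]; exact col0 hY0 0
  have zd : Z 0 ⬝ᵥ e0 k = 0 := by rw [dot_e0]; exact col0 hZ0 0
  obtain ⟨s, hs, h1⟩ := h.deform1
    (Ys := fun s => Y + s • vecMulVec u (Y 0)) (Zs := fun s => Z + s • vecMulVec u (Z 0))
    (bs := fun _ => b) (bs' := fun _ => b') (Bs := fun _ => B) (Bs' := fun _ => B')
    (hl _ _) (hl _ _) (fun _ => D7.IsPoly.const _) (fun _ => D7.IsPoly.const _) (PM.const _)
    (PM.const _) (by simp) (by simp) rfl rfl rfl rfl (by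
      intro s
      have a1 : ∀ (M : Matrix (Fin 4) (Fin 4) k) (γ : Fin 4 → k), M *ᵥ e0 k = 0 →
          γ ⬝ᵥ e0 k = 0 → (M + s • vecMulVec u γ) *ᵥ e0 k = 0 := by
        intro M γ hM hγ
        rw [Matrix.add_mulVec, hM, Matrix.smul_mulVec, vv, hγ, zero_smul, smul_zero, add_zero]
      refine rl2 (a1 _ _ hY0 yd) (a1 _ _ hZ0 zd) ?_ hR.l1 hR.l2 ?_
      · have b1 : (Y + s • vecMulVec u (Y 0)) * (Z + s • vecMulVec u (Z 0)) -
            (Z + s • vecMulVec u (Z 0)) * (Y + s • vecMulVec u (Y 0)) =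
            (Y * Z - Z * Y) + s • (vecMulVec (Y *ᵥ u) (Z 0) - vecMulVec (Z *ᵥ u) (Y 0)) +
            s • (vecMulVec u (Y 0 ᵥ* Z) - vecMulVec u (Z 0 ᵥ* Y)) +
            (s * s) • (vecMulVec u ((Y 0 ⬝ᵥ u) • Z 0) - vecMulVec u ((Z 0 ⬝ᵥ u) • Y 0)) := by
          simp only [Matrix.add_mul, Matrix.mul_add, Matrix.smul_mul, Matrix.mul_smul]
          rw [vecMulVec_mul_vecMulVec, vecMulVec_mul_vecMulVec, mul_vecMulVec, mul_vecMulVec,
            vecMulVec_mul, vecMulVec_mul]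
          module
        rw [← sub_eq_zero, ← Matrix.mul_sub, b1, rowp _ _ hY0 hZ1 hZ2, rowp _ _ hZ0 hY1 hY2,
          hmm0, hu, sub_self, sub_self, smul_zero, smul_zero, add_zero, add_zero,
          Matrix.mul_add, Matrix.mul_sub, hR.mm, sub_self, zero_add, Matrix.mul_smul,
          Matrix.mul_sub, mul_vecMulVec, mul_vecMulVec, PYu _ hY1 hY2, PYu _ hZ1 hZ2]
        have b2 : vecMulVec ((Y 0 ⬝ᵥ u) • (P1 k *ᵥ e0 k)) (Z 0) =
            vecMulVec ((Z 0 ⬝ᵥ u) • (P1 k *ᵥ e0 k)) (Y 0) := by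
          rw [smul_vecMulVec, smul_vecMulVec, ← vecMulVec_smul, ← vecMulVec_smul, hu]
        rw [b2, sub_self, smul_zero]
      · rw [Matrix.add_mulVec, Matrix.add_mulVec, Matrix.smul_mulVec, Matrix.smul_mulVec, vv, vv,
          r0'', Matrix.mulVec_add, Matrix.mulVec_add, hR.l3' hY0 hZ0])
    (Set.finite_singleton (0 : k))
  have hs0 : s ≠ 0 := hs
  have a1 : ∀ (M : Matrix (Fin 4) (Fin 4) k) (γ : Fin 4 → k), M *ᵥ e0 k = 0 →
      γ ⬝ᵥ e0 k = 0 → (M + s • vecMulVec u γ) *ᵥ e0 k = 0 := by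
    intro M γ hM hγ
    rw [Matrix.add_mulVec, hM, Matrix.smul_mulVec, vv, hγ, zero_smul, smul_zero, add_zero]
  have a2 : ∀ M : Matrix (Fin 4) (Fin 4) k, M 1 = 0 → M 2 = 0 →
      (![s * u 1, -1, 0, 0] : Fin 4 → k) ᵥ* (M + s • vecMulVec u (M 0)) = 0 := by
    intro M h1 h2
    ext j
    simp only [Matrix.vecMul, dotProduct, Fin.sum_univ_four, Matrix.add_apply, h1, h2,
      Matrix.smul_apply, vecMulVec_apply, u0, Pi.zero_apply, smul_eq_mul, Matrix.cons_val_zero,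
      Matrix.cons_val_one, Matrix.cons_val]
    ring
  have a3 : ∀ M : Matrix (Fin 4) (Fin 4) k, M 1 = 0 → M 2 = 0 →
      (![s * u 2, 0, -1, 0] : Fin 4 → k) ᵥ* (M + s • vecMulVec u (M 0)) = 0 := by
    intro M h1 h2
    ext j
    simp only [Matrix.vecMul, dotProduct, Fin.sum_univ_four, Matrix.add_apply, h1, h2,
      Matrix.smul_apply, vecMulVec_apply, u0, Pi.zero_apply, smul_eq_mul, Matrix.cons_val_zero,
      Matrix.cons_val_one, Matrix.cons_val]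
    ring
  rcases hu12 with hu1 | hu1
  · exact T1 h2a h1 (a1 _ _ hY0 yd) (a1 _ _ hZ0 zd) (a2 _ hY1 hY2) (a2 _ hZ1 hZ2)
      (mul_ne_zero hs0 hu1)
  · exact T1 h2a h1 (a1 _ _ hY0 yd) (a1 _ _ hZ0 zd) (a3 _ hY1 hY2) (a3 _ hZ1 hZ2)
      (mul_ne_zero hs0 hu1)

end Pool.Agent.Lib.D13.A1
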