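import Pool.Agent.Lib.D13.A1mv6

/-!
# MP_5dcbc3_ag: type (4,3,3,2), levels 1 | 4 | 4 | 3: the stratum `Y e₀ = Z e₀ = 0` is empty
-/

namespace Pool.Agent.Lib.D13.A1

open Matrix Pool.Agent.Lib Pool.Agent.Lib.D7 Pool.Agent.Lib.Q5dc

variable {k : Type*} [Field k] {ρ : ℕ → ℕ}
variable {Y Z : Matrix (Fin 4) (Fin 4) k} {b b' : Fin 4 → k} {B B' : Matrix (Fin 3) (Fin 4) k}

/-- rows 1 and 2 vanish, row 0 is a dual basis -/
theorem Z2a [Infinite k] (h2a : H2a k ρ) (h : Bad ρ Y Z b b' B B') (hY0 : Y *ᵥ e0 k = 0)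
    (hZ0 : Z *ᵥ e0 k = 0) (hY1 : Y 1 = 0) (hZ1 : Z 1 = 0) (hY2 : Y 2 = 0) (hZ2 : Z 2 = 0)
    (hY : Y 0 = ![0, 1, 0, 0]) (hZ : Z 0 = ![0, 0, 1, 0]) (hb : b 1 ≠ 0) : False := by
  have hR := h.rl
  obtain ⟨r0', -, -⟩ := P1_eq_iff.1 (hR.l3' hY0 hZ0)
  have r0'' : b' 1 = b 2 := by
    rw [mv4, mv4, hY, hZ] at r0'
    simpa using r0'
  have hl : ∀ (M N : Matrix (Fin 4) (Fin 4) k), PM fun s : k => M + s • N := fun M N =>
    (PM.const _).add ((PM.const _).smul D7.IsPoly.id)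
  have a0 : (![0, b 2, -b 1, 0] : Fin 4 → k) ⬝ᵥ e0 k = 0 := by rw [dot_e0]; rfl
  have a1 : ∀ s : k, (Z + s • vecMulVec ![0, 0, 1, 0] ![0, b 2, -b 1, 0]) *ᵥ e0 k = 0 := by
    intro s
    rw [Matrix.add_mulVec, hZ0, Matrix.smul_mulVec, vv, a0, zero_smul, smul_zero, add_zero]
  obtain ⟨s, hs, h1⟩ := h.deform1
    (Ys := fun _ => Y) (Zs := fun s => Z + s • vecMulVec ![0, 0, 1, 0] ![0, b 2, -b 1, 0])
    (bs := fun _ => b) (bs' := fun _ => b') (Bs := fun _ => B) (Bs' := fun _ => B')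
    (PM.const _) (hl _ _) (fun _ => D7.IsPoly.const _) (fun _ => D7.IsPoly.const _) (PM.const _)
    (PM.const _) rfl (by simp) rfl rfl rfl rfl (by
      intro s
      refine rl2 hY0 (a1 s) ?_ hR.l1 hR.l2 ?_
      · rw [Matrix.mul_add, Matrix.add_mul, Matrix.mul_add, Matrix.mul_add, hR.mm,
          Matrix.mul_smul, Matrix.smul_mul, mul_vecMulVec, vecMulVec_mul]
        have b1 : (![0, b 2, -b 1, 0] : Fin 4 → k) ᵥ* Y = 0 := by
          ext j
          simp [Matrix.vecMul, dotProduct, Fin.sum_univ_four, hY1, hY2]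
        have b2 : P1 k *ᵥ (Y *ᵥ ![0, 0, 1, 0]) = P1 k *ᵥ 0 := by
          refine P1_eq_iff.2 ⟨?_, ?_, ?_⟩
          · rw [mv4, hY]
            simp
          · rw [mv4, hY1]
            simp
          · rw [mv4, hY2]
            simp
        rw [b1, Matrix.mul_smul, mul_vecMulVec, b2, Matrix.mulVec_zero]
        ext i j
        simp [Matrix.mul_apply]
      · rw [Matrix.add_mulVec, Matrix.smul_mulVec, vv]
        have b1 : (![0, b 2, -b 1, 0] : Fin 4 → k) ⬝ᵥ b = 0 := by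
          simp [dotProduct, Fin.sum_univ_four]
          ring
        rw [b1, zero_smul, smul_zero, add_zero, hR.l3' hY0 hZ0])
    (Set.finite_singleton (0 : k))
  have hs0 : s ≠ 0 := hs
  set Z' := Z + s • vecMulVec ![0, 0, 1, 0] ![0, b 2, -b 1, 0] with hZ'
  have zz : ∀ i j, Z' i j = Z i j + s * (![0, 0, 1, 0] i * ![0, b 2, -b 1, 0] j) :=
    fun _ _ => rfl
  have z0 : ∀ j, Z' 0 j = ![0, 0, 1, 0] j := by
    intro j
    rw [zz, hZ]
    simp
  have z1 : ∀ j, Z' 1 j = 0 := by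
    intro j
    rw [zz, hZ1]
    simp
  have z2 : ∀ j, Z' 2 j = s * ![0, b 2, -b 1, 0] j := by
    intro j
    rw [zz, hZ2]
    simp
  have y0 : ∀ j, Y 0 j = ![0, 1, 0, 0] j := fun j => by rw [hY]
  have y2 : ∀ j, Y 2 j = 0 := fun j => by rw [hY2]; rfl
  have y1 : ∀ j, Y 1 j = 0 := fun j => by rw [hY1]; rfl
  obtain ⟨c, c', C, C', h3⟩ := h1.shear (-(s * b 1)⁻¹)
  have hZ0' : Z' *ᵥ e0 k = 0 := a1 s
  refine beta1 h2a h3 (conj0 hY0 (sN_e0 _)) (conj0 hZ0' (sN_e0 _)) ?_ ?_ ?_ ?_ ?_ ?_ ?_ ?_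
  · ext j
    rw [sN_conj _ _ hY0]
    simp [y1]
  · ext j
    rw [sN_conj _ _ hZ0']
    simp [z1]
  · rw [sN_conj _ _ hY0]
    simp [y0, y2]
  · rw [sN_conj _ _ hY0]
    simp [y0, y2]
  · rw [sN_conj _ _ hZ0']
    simp [z0, z2]
    field_simp
    ring
  · rw [sN_conj _ _ hZ0']
    simp [z0, z2]
  · right
    right
    left
    rw [sN_conj _ _ hZ0']
    simp [z2, hs0, hb]
  · left
    rw [sN_conj _ _ hY0]
    simp [y0, y2]

/-- rows 1 and 2 vanish, row 0 is a dual basis -/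
theorem Z2b [Infinite k] (h2a : H2a k ρ) (h : Bad ρ Y Z b b' B B') (hY0 : Y *ᵥ e0 k = 0)
    (hZ0 : Z *ᵥ e0 k = 0) (hY1 : Y 1 = 0) (hZ1 : Z 1 = 0) (hY2 : Y 2 = 0) (hZ2 : Z 2 = 0)
    (hY : Y 0 = ![0, 1, 0, 0]) (hZ : Z 0 = ![0, 0, 1, 0]) : False := by
  by_cases hb : b 1 ≠ 0
  · exact Z2a h2a h hY0 hZ0 hY1 hZ1 hY2 hZ2 hY hZ hb
  · push Not at hb
    obtain ⟨s, hs, h1⟩ := bmove h hY0 hZ0 (d := ![0, 1, 0, 0]) (d' := 0) (by
      refine P1_eq_iff.2 ⟨?_, ?_, ?_⟩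
      · rw [mv4, mv4, hY, hZ]
        simp
      · rw [mv4, mv4, hY1, hZ1]
        simp
      · rw [mv4, mv4, hY2, hZ2]
        simp) (Set.finite_singleton (0 : k))
    have hs0 : s ≠ 0 := hs
    refine Z2a h2a h1 hY0 hZ0 hY1 hZ1 hY2 hZ2 hY hZ ?_
    rw [Pi.add_apply, hb]
    simpa using hs0

theorem gN_conj {p q r s : k} {p' q' r' s' : k} (M : Matrix (Fin 4) (Fin 4) k) (i j : Fin 4) :
    (up (gN p q r s) * M * up (gN p' q' r' s')) i j =
      (fun w : Fin 4 → k => ![w 0, w 1 * p' + w 2 * r', w 1 * q' + w 2 * s', w 3] j)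
        (![M 0, p • M 1 + q • M 2, r • M 1 + s • M 2, M 3] i) := by
  have h1 : ∀ (L : Matrix (Fin 4) (Fin 4) k) i j, (L * up (gN p' q' r' s')) i j =
      ![L i 0, L i 1 * p' + L i 2 * r', L i 1 * q' + L i 2 * s', L i 3] j := by
    intro L i j
    rw [Matrix.mul_apply, Fin.sum_univ_four]
    fin_cases j <;> simp [up, gN]
  have h2 : ∀ (L : Matrix (Fin 4) (Fin 4) k) i j, (up (gN p q r s) * L) i j =
      (![L 0, p • L 1 + q • L 2, r • L 1 + s • L 2, L 3] i) j := by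
    intro L i j
    rw [Matrix.mul_apply, Fin.sum_univ_four]
    fin_cases i <;> simp [up, gN]
  rw [h1]
  simp only [h2]

/-- rows 1 and 2 vanish -/
theorem rows12 [Infinite k] (h2a : H2a k ρ) (h : Bad ρ Y Z b b' B B') (hY0 : Y *ᵥ e0 k = 0)
    (hZ0 : Z *ᵥ e0 k = 0) (hY1 : Y 1 = 0) (hZ1 : Z 1 = 0) (hY2 : Y 2 = 0) (hZ2 : Z 2 = 0) :
    False := by
  have y0 := col0 hY0 0
  have z0 := col0 hZ0 0
  by_cases hp : Y 0 1 * Z 0 2 = Y 0 2 * Z 0 1 ∧ Y 0 1 * Z 0 3 = Y 0 3 * Z 0 1 ∧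
    Y 0 2 * Z 0 3 = Y 0 3 * Z 0 2
  · obtain ⟨p1, p2, p3⟩ := hp
    refine Umove h2a h hY0 hZ0 hY1 hZ1 hY2 hZ2 (u := ![0, 1, 0, 0]) rfl ?_ (Or.inl ?_)
    · have e1 : Y 0 ⬝ᵥ ![0, 1, 0, 0] = Y 0 1 := by simp [dotProduct, Fin.sum_univ_four]
      have e2 : Z 0 ⬝ᵥ ![0, 1, 0, 0] = Z 0 1 := by simp [dotProduct, Fin.sum_univ_four]
      rw [e1, e2]
      ext j
      simp only [Pi.smul_apply, smul_eq_mul]
      fin_cases j
      · show Y 0 1 * Z 0 0 = Z 0 1 * Y 0 0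
        rw [y0, z0, mul_zero, mul_zero]
      · show Y 0 1 * Z 0 1 = Z 0 1 * Y 0 1
        ring
      · show Y 0 1 * Z 0 2 = Z 0 1 * Y 0 2
        linear_combination p1
      · show Y 0 1 * Z 0 3 = Z 0 1 * Y 0 3
        linear_combination p2
    · simp
  · by_cases hc : Y 0 2 * Z 0 3 - Y 0 3 * Z 0 2 ≠ 0 ∨ Y 0 3 * Z 0 1 - Y 0 1 * Z 0 3 ≠ 0
    · refine Umove h2a h hY0 hZ0 hY1 hZ1 hY2 hZ2 (u := ![0, Y 0 2 * Z 0 3 - Y 0 3 * Z 0 2,
        Y 0 3 * Z 0 1 - Y 0 1 * Z 0 3, Y 0 1 * Z 0 2 - Y 0 2 * Z 0 1]) rfl ?_ hc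
      have e1 : Y 0 ⬝ᵥ ![0, Y 0 2 * Z 0 3 - Y 0 3 * Z 0 2,
        Y 0 3 * Z 0 1 - Y 0 1 * Z 0 3, Y 0 1 * Z 0 2 - Y 0 2 * Z 0 1] = 0 := by
        simp [dotProduct, Fin.sum_univ_four]
        ring
      have e2 : Z 0 ⬝ᵥ ![0, Y 0 2 * Z 0 3 - Y 0 3 * Z 0 2,
        Y 0 3 * Z 0 1 - Y 0 1 * Z 0 3, Y 0 1 * Z 0 2 - Y 0 2 * Z 0 1] = 0 := by
        simp [dotProduct, Fin.sum_univ_four]
        ring
      rw [e1, e2, zero_smul, zero_smul]
    · push Not at hc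
      obtain ⟨c1, c2⟩ := hc
      have hD : Y 0 1 * Z 0 2 - Y 0 2 * Z 0 1 ≠ 0 := by
        intro h0
        exact hp ⟨sub_eq_zero.1 h0, by linear_combination -c2, sub_eq_zero.1 c1⟩
      have y3 : Y 0 3 = 0 := by
        refine (mul_eq_zero.1 ?_).resolve_right hD
        linear_combination -(Y 0 1) * c1 - Y 0 2 * c2
      have z3 : Z 0 3 = 0 := by
        refine (mul_eq_zero.1 ?_).resolve_right hD
        linear_combination -(Z 0 1) * c1 - Z 0 2 * c2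
      obtain ⟨c, c', C, C', h3⟩ := h.gl hD
      refine Z2b h2a h3 (conj0 hY0 (gN_e0 _ _ _ _)) (conj0 hZ0 (gN_e0 _ _ _ _)) ?_ ?_ ?_ ?_ ?_ ?_
      · ext j
        rw [gN_conj]
        simp only [Matrix.cons_val_one, Matrix.cons_val_zero, hY1, hY2, smul_zero, add_zero]
        fin_cases j <;> simp
      · ext j
        rw [gN_conj]
        simp only [Matrix.cons_val_one, Matrix.cons_val_zero, hZ1, hZ2, smul_zero, add_zero]
        fin_cases j <;> simp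
      · ext j
        rw [gN_conj]
        simp only [Matrix.cons_val, hY1, hY2, smul_zero, add_zero]
        fin_cases j <;> simp
      · ext j
        rw [gN_conj]
        simp only [Matrix.cons_val, hZ1, hZ2, smul_zero, add_zero]
        fin_cases j <;> simp
      · ext j
        rw [gN_conj]
        simp only [Matrix.cons_val_zero]
        fin_cases j
        · simpa using y0
        · show Y 0 1 * (Z 0 2 / _) + Y 0 2 * (-Z 0 1 / _) = 1
          rw [mul_div_assoc', mul_div_assoc', ← add_div, div_eq_one_iff_eq hD]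
          ring
        · show Y 0 1 * (-Y 0 2 / _) + Y 0 2 * (Y 0 1 / _) = 0
          rw [mul_div_assoc', mul_div_assoc', ← add_div, div_eq_zero_iff]
          left
          ring
        · simpa using y3
      · ext j
        rw [gN_conj]
        simp only [Matrix.cons_val_zero]
        fin_cases j
        · simpa using z0
        · show Z 0 1 * (Z 0 2 / _) + Z 0 2 * (-Z 0 1 / _) = 0
          rw [mul_div_assoc', mul_div_assoc', ← add_div, div_eq_zero_iff]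
          left
          ring
        · show Z 0 1 * (-Y 0 2 / _) + Z 0 2 * (Y 0 1 / _) = 1
          rw [mul_div_assoc', mul_div_assoc', ← add_div, div_eq_one_iff_eq hD]
          ring
        · simpa using z3

end Pool.Agent.Lib.D13.A1
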