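import Pool.Agent.Lib.D13.A1mv7

/-!
# MP_5dcbc3_ag: type (4,3,3,2), levels 1 | 4 | 4 | 3: the stratum `Y e₀ = Z e₀ = 0` is empty
-/

namespace Pool.Agent.Lib.D13.A1

open Matrix Pool.Agent.Lib Pool.Agent.Lib.D7 Pool.Agent.Lib.Q5dc

variable {k : Type*} [Field k] {ρ : ℕ → ℕ}
variable {Y Z : Matrix (Fin 4) (Fin 4) k} {b b' : Fin 4 → k} {B B' : Matrix (Fin 3) (Fin 4) k}

/-- the third coordinate -/
def e2 (k : Type*) [Field k] : Fin 4 → k := ![0, 0, 1, 0]

theorem e2_dot (v : Fin 4 → k) : e2 k ⬝ᵥ v = v 2 := by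
  simp [e2, dotProduct, Fin.sum_univ_four]

theorem e2_vecMul (M : Matrix (Fin 4) (Fin 4) k) : e2 k ᵥ* M = M 2 := by
  ext j
  simp [e2, Matrix.vecMul, dotProduct, Fin.sum_univ_four]

/-- the column which is moved -/
def kp (M : Matrix (Fin 4) (Fin 4) k) : Fin 4 → k := ![0, 0, M 2 1, M 3 1]

/-- the linear system -/
def LF (Y Z : Matrix (Fin 4) (Fin 4) k) (s : k) :
    ((Fin 4 → k) × (Fin 4 → k)) →ₗ[k] (Fin 4 → k) where
  toFun u := (Y + s • vecMulVec (kp Y) (e2 k)) *ᵥ u.2 - (Z + s • vecMulVec (kp Z) (e2 k)) *ᵥ u.1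
  map_add' u v := by
    simp only [Prod.fst_add, Prod.snd_add, Matrix.mulVec_add]
    abel
  map_smul' c u := by
    simp only [Prod.smul_fst, Prod.smul_snd, Matrix.mulVec_smul, ← smul_sub, RingHom.id_apply]

theorem LF_apply (Y Z : Matrix (Fin 4) (Fin 4) k) (s : k) (u : (Fin 4 → k) × (Fin 4 → k)) :
    LF Y Z s u = (Y + s • vecMulVec (kp Y) (e2 k)) *ᵥ u.2 -
      (Z + s • vecMulVec (kp Z) (e2 k)) *ᵥ u.1 := rfl

/-- two rows of it -/
def LG (Y Z : Matrix (Fin 4) (Fin 4) k) (s : k) :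
    ((Fin 4 → k) × (Fin 4 → k)) →ₗ[k] (Fin 2 → k) where
  toFun u := ![LF Y Z s u 0, LF Y Z s u 2]
  map_add' u v := by
    rw [map_add]
    ext i
    fin_cases i <;> simp
  map_smul' c u := by
    rw [map_smul]
    ext i
    fin_cases i <;> simp

/-- the matrices of the family -/
def fs (Y : Matrix (Fin 4) (Fin 4) k) (s : k) : Matrix (Fin 4) (Fin 4) k :=
  Y + s • vecMulVec (kp Y) (e2 k)

theorem fs_apply (Y : Matrix (Fin 4) (Fin 4) k) (s : k) (i j : Fin 4) :
    fs Y s i j = Y i j + s * (kp Y i * e2 k j) := rfl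

theorem fs_poly (Y : Matrix (Fin 4) (Fin 4) k) : PM fun s => fs Y s :=
  (PM.const _).add ((PM.const _).smul D7.IsPoly.id)

theorem fs_e0 {Y : Matrix (Fin 4) (Fin 4) k} (hY0 : Y *ᵥ e0 k = 0) (s : k) :
    fs Y s *ᵥ e0 k = 0 := by
  have e20 : e2 k ⬝ᵥ e0 k = 0 := by rw [e2_dot]; simp [e0]
  rw [fs, Matrix.add_mulVec, hY0, Matrix.smul_mulVec, vv, e20, zero_smul, smul_zero, add_zero]

/-- the family -/
theorem ffam [Infinite k] (h : Bad ρ Y Z b b' B B') (hY0 : Y *ᵥ e0 k = 0)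
    (hZ0 : Z *ᵥ e0 k = 0) (hY1 : Y 1 = 0) (hZ1 : Z 1 = 0)
    (hY2 : Y 2 2 = 0) (hY3 : Y 2 3 = 0) (hZ2 : Z 2 2 = 0) (hZ3 : Z 2 3 = 0)
    (hc : ∀ x y : k, (∀ j, x * Y 0 j + y * Y 2 j = 0) → (∀ j, x * Z 0 j + y * Z 2 j = 0) →
      x = 0 ∧ y = 0) {F : Set k} (hF : F.Finite) :
    ∃ s ∉ F, ∃ c c' C C', Bad ρ (fs Y s) (fs Z s) c c' C C' := by
  have hR := h.rl
  obtain ⟨r0', -, r2'⟩ := P1_eq_iff.1 (hR.l3' hY0 hZ0)
  obtain ⟨v, hv, hv0, hv1⟩ := lift_at (LG Y Z) (fun u => by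
      refine PolyV.of_pi fun i => ?_
      have hp : ∀ i : Fin 4, IsPoly fun s => LF Y Z s u i := by
        intro i
        exact ((fs_poly Y).mulVec (v := fun _ => u.2) (fun _ => D7.IsPoly.const _) i).sub
          ((fs_poly Z).mulVec (v := fun _ => u.1) (fun _ => D7.IsPoly.const _) i)
      fin_cases i
      · exact hp 0
      · exact hp 2) 0 (by
      intro w
      refine onto2 _ (fun x y hxy => ?_) w
      have h1 : ∀ u, x * (Y *ᵥ u) 0 + y * (Y *ᵥ u) 2 = 0 := by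
        intro u
        have h2 : x * LF Y Z 0 (0, u) 0 + y * LF Y Z 0 (0, u) 2 = 0 := hxy (0, u)
        rw [LF_apply, zero_smul, zero_smul, add_zero, add_zero, Matrix.mulVec_zero, sub_zero] at h2
        exact h2
      have h1' : ∀ u, x * (Z *ᵥ u) 0 + y * (Z *ᵥ u) 2 = 0 := by
        intro u
        have h2 : x * LF Y Z 0 (u, 0) 0 + y * LF Y Z 0 (u, 0) 2 = 0 := hxy (u, 0)
        rw [LF_apply, zero_smul, zero_smul, add_zero, add_zero, Matrix.mulVec_zero, zero_sub,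
          Pi.neg_apply, Pi.neg_apply] at h2
        linear_combination -h2
      refine hc x y (fun j => ?_) (fun j => ?_)
      · simpa using h1 (Pi.single j 1)
      · simpa using h1' (Pi.single j 1)) (c := (b, b')) (by
      ext i
      fin_cases i
      · show LF Y Z 0 (b, b') 0 = 0
        rw [LF_apply, zero_smul, zero_smul, add_zero, add_zero, Pi.sub_apply]
        exact sub_eq_zero.2 r0'
      · show LF Y Z 0 (b, b') 2 = 0
        rw [LF_apply, zero_smul, zero_smul, add_zero, add_zero, Pi.sub_apply]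
        exact sub_eq_zero.2 r2')
  have e3 : ∀ s, LF Y Z s (v s) 0 = 0 := fun s => congrFun (hv1 s) 0
  have e4 : ∀ s, LF Y Z s (v s) 2 = 0 := fun s => congrFun (hv1 s) 1
  have hP : ∀ {γ : k → Fin 4 → k} {c : Fin 4 → k}, (∀ i, IsPoly fun s => γ s i) →
      PM fun s => vecMulVec (P1 k *ᵥ (γ s - c)) (e0 k) := by
    intro γ c hγ x y
    exact ((PM.const (P1 k)).mulVec (v := fun s => γ s - c)
      (fun i => (hγ i).sub (D7.IsPoly.const _)) x).mul (D7.IsPoly.const _)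
  have hb1 : ∀ i, IsPoly fun s => (v s).1 i := fun i =>
    (hv.map ((LinearMap.proj i).comp (LinearMap.fst k _ _))).isPoly
  have hb2 : ∀ i, IsPoly fun s => (v s).2 i := fun i =>
    (hv.map ((LinearMap.proj i).comp (LinearMap.snd k _ _))).isPoly
  -- kp
  have hk : ∀ {M : Matrix (Fin 4) (Fin 4) k}, M 1 = 0 → kp M = M *ᵥ e1 k - M 0 1 • e0 k := by
    intro M hM
    ext i
    rw [Pi.sub_apply, mv4]
    fin_cases i
    · simp [kp, e1, e0]
    · simp [kp, e1, e0, hM]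
    · simp [kp, e1, e0]
    · simp [kp, e1, e0]
  have hk2 : ∀ {M M' : Matrix (Fin 4) (Fin 4) k}, M' 1 = 0 → M *ᵥ e0 k = 0 →
      M *ᵥ kp M' = M *ᵥ (M' *ᵥ e1 k) := by
    intro M M' hM' hM
    rw [hk hM', Matrix.mulVec_sub, Matrix.mulVec_smul, hM, smul_zero, sub_zero]
  have hrow : ∀ {M : Matrix (Fin 4) (Fin 4) k}, M *ᵥ e0 k = 0 → M 2 2 = 0 → M 2 3 = 0 →
      M 2 = M 2 1 • e1 k := by
    intro M h0 h2 h3
    ext j
    fin_cases j
    · simpa [e1] using col0 h0 2
    · simp [e1]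
    · simpa [e1] using h2
    · simpa [e1] using h3
  obtain ⟨s, hs, h1⟩ := h.deform1 (Ys := fun s => fs Y s) (Zs := fun s => fs Z s)
    (bs := fun s => (v s).1) (bs' := fun s => (v s).2)
    (Bs := fun s => B + vecMulVec (P1 k *ᵥ ((v s).1 - b)) (e0 k))
    (Bs' := fun s => B' + vecMulVec (P1 k *ᵥ ((v s).2 - b')) (e0 k))
    (fs_poly Y) (fs_poly Z) hb1 hb2 ((PM.const _).add (hP hb1)) ((PM.const _).add (hP hb2))
    (by simp [fs]) (by simp [fs]) (by simp only [hv0]) (by simp only [hv0])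
    (by
      ext i j
      simp [hv0]) (by
      ext i j
      simp [hv0]) (fun s => by
      refine rl2 (fs_e0 hY0 s) (fs_e0 hZ0 s) ?_ ?_ ?_ ?_
      · have b1 : fs Y s * fs Z s - fs Z s * fs Y s = (Y * Z - Z * Y) +
            s • vecMulVec (Y *ᵥ (Z *ᵥ e1 k) - Z *ᵥ (Y *ᵥ e1 k)) (e2 k) +
            s • vecMulVec (Z 2 1 • kp Y - Y 2 1 • kp Z) (e1 k) +
            (s * s) • vecMulVec (Z 2 1 • kp Y - Y 2 1 • kp Z) (e2 k) := by
          simp only [fs, Matrix.add_mul, Matrix.mul_add, Matrix.smul_mul, Matrix.mul_smul]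
          rw [vecMulVec_mul_vecMulVec, vecMulVec_mul_vecMulVec, mul_vecMulVec, mul_vecMulVec,
            vecMulVec_mul, vecMulVec_mul, e2_vecMul, e2_vecMul, hrow hY0 hY2 hY3,
            hrow hZ0 hZ2 hZ3, e2_dot, e2_dot, hk2 hZ1 hY0, hk2 hY1 hZ0]
          have t1 : kp Z 2 = Z 2 1 := rfl
          have t2 : kp Y 2 = Y 2 1 := rfl
          rw [t1, t2]
          ext i j
          simp only [Matrix.sub_apply, Matrix.add_apply, Matrix.smul_apply, vecMulVec_apply,
            Pi.sub_apply, Pi.smul_apply, smul_eq_mul]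
          have e11 : e1 k 1 = 1 := by simp [e1]
          rw [e11]
          ring
        have b2 : P1 k *ᵥ (Z 2 1 • kp Y - Y 2 1 • kp Z) = P1 k *ᵥ 0 := by
          refine P1_eq_iff.2 ⟨?_, ?_, ?_⟩
          · simp [kp]
          · simp [kp]
          · simp [kp]
            ring
        have b3 : P1 k *ᵥ (Y *ᵥ (Z *ᵥ e1 k) - Z *ᵥ (Y *ᵥ e1 k)) = 0 := by
          rw [Matrix.mulVec_mulVec, Matrix.mulVec_mulVec, ← Matrix.sub_mulVec,
            Matrix.mulVec_mulVec, Matrix.mul_sub, hR.mm, sub_self, Matrix.zero_mulVec]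
        rw [← sub_eq_zero, ← Matrix.mul_sub, b1, Matrix.mul_add, Matrix.mul_add, Matrix.mul_add,
          Matrix.mul_smul, Matrix.mul_smul, Matrix.mul_smul, mul_vecMulVec, mul_vecMulVec,
          mul_vecMulVec, b2, b3, Matrix.mul_sub, hR.mm, sub_self, Matrix.mulVec_zero]
        ext i j
        simp
      · rw [Matrix.add_mulVec, hR.l1, e0_e0, Matrix.mulVec_sub]
        abel
      · rw [Matrix.add_mulVec, hR.l2, e0_e0, Matrix.mulVec_sub]
        abel
      · rw [← sub_eq_zero, ← Matrix.mulVec_sub, ← Matrix.mulVec_zero (P1 k)]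
        refine P1_eq_iff.2 ⟨e3 s, ?_, e4 s⟩
        rw [Pi.sub_apply, mv4, mv4]
        simp [fs_apply, kp, hY1, hZ1]) hF
  exact ⟨s, hs, _, _, _, _, h1⟩

/-- row 2 has one nonzero entry, row 1 vanishes -/
theorem fmove [Infinite k] (h2a : H2a k ρ) (h : Bad ρ Y Z b b' B B') (hY0 : Y *ᵥ e0 k = 0)
    (hZ0 : Z *ᵥ e0 k = 0) (hY1 : Y 1 = 0) (hZ1 : Z 1 = 0)
    (hY2 : Y 2 2 = 0) (hY3 : Y 2 3 = 0) (hZ2 : Z 2 2 = 0) (hZ3 : Z 2 3 = 0)
    (hc : ∀ x y : k, (∀ j, x * Y 0 j + y * Y 2 j = 0) → (∀ j, x * Z 0 j + y * Z 2 j = 0) →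
      x = 0 ∧ y = 0) : False := by
  have hR := h.rl
  -- one of the entries is not zero
  have h21 : Y 2 1 ≠ 0 ∨ Z 2 1 ≠ 0 := by
    by_contra hne
    push Not at hne
    have h1 := (hc 0 1 (fun j => by
      rw [zero_mul, zero_add, one_mul]
      fin_cases j
      · exact col0 hY0 2
      · exact hne.1
      · exact hY2
      · exact hY3) (fun j => by
      rw [zero_mul, zero_add, one_mul]
      fin_cases j
      · exact col0 hZ0 2
      · exact hne.2
      · exact hZ2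
      · exact hZ3)).2
    exact one_ne_zero h1
  have r1 : ∀ {M : Matrix (Fin 4) (Fin 4) k}, M 1 = 0 → ∀ s, fs M s 1 = 0 := by
    intro M hM s
    ext j
    rw [fs_apply, hM]
    simp [kp]
  have q0 : ∀ (M : Matrix (Fin 4) (Fin 4) k) s j, fs M s 0 j = M 0 j := by
    intro M s j
    rw [fs_apply]
    simp [kp]
  have q2 : ∀ {M : Matrix (Fin 4) (Fin 4) k}, M 2 2 = 0 → ∀ s, fs M s 2 2 = s * M 2 1 := by
    intro M hM s
    rw [fs_apply, hM]
    simp [kp, e2]
  have q3 : ∀ {M : Matrix (Fin 4) (Fin 4) k}, M 2 3 = 0 → ∀ s, fs M s 2 3 = 0 := by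
    intro M hM s
    rw [fs_apply, hM]
    simp [kp, e2]
  have q1 : ∀ (M : Matrix (Fin 4) (Fin 4) k), ∀ s, fs M s 2 1 = M 2 1 := by
    intro M s
    rw [fs_apply]
    simp [kp, e2]
  by_cases h03 : Y 0 3 ≠ 0 ∨ Z 0 3 ≠ 0
  · obtain ⟨s, hs, c, c', C, C', h1⟩ := ffam h hY0 hZ0 hY1 hZ1 hY2 hY3 hZ2 hZ3 hc
      (Set.finite_singleton (0 : k))
    have hs0 : s ≠ 0 := hs
    refine beta2 h2a h1 (fs_e0 hY0 s) (fs_e0 hZ0 s) (r1 hY1 s) (r1 hZ1 s)
      (fun x y g1 g2 g3 g4 => ?_)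
    rw [q0, q2 hY2] at g1
    rw [q0, q3 hY3] at g2
    rw [q0, q2 hZ2] at g3
    rw [q0, q3 hZ3] at g4
    have hx : x = 0 := by
      rcases h03 with h | h
      · simpa [h] using g2
      · simpa [h] using g4
    refine ⟨hx, ?_⟩
    rw [hx, zero_mul, zero_add] at g1 g3
    rcases h21 with h | h
    · simpa [h, hs0] using g1
    · simpa [h, hs0] using g3
  · push Not at h03
    -- proportionality
    obtain ⟨c, hc1, hc2⟩ : ∃ c, Y 0 2 = c * Y 2 1 ∧ Z 0 2 = c * Z 2 1 := by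
      have h1 : (P1 k * (Y * Z)) 0 1 = (P1 k * (Z * Y)) 0 1 := by rw [hR.mm]
      rw [P1_mul, P1_mul, Matrix.mul_apply, Matrix.mul_apply, Fin.sum_univ_four,
        Fin.sum_univ_four] at h1
      simp only [Fin.castSucc_zero, col0 hY0, col0 hZ0, hY1, hZ1, h03.1, h03.2, zero_mul,
        Pi.zero_apply, mul_zero, zero_add, add_zero] at h1
      rcases h21 with h | h
      · refine ⟨Y 0 2 / Y 2 1, by field_simp, ?_⟩
        field_simp
        linear_combination -h1
      · refine ⟨Z 0 2 / Z 2 1, ?_, by field_simp⟩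
        field_simp
        linear_combination h1
    obtain ⟨s, hs, d, d', C, C', h1⟩ := ffam h hY0 hZ0 hY1 hZ1 hY2 hY3 hZ2 hZ3 hc
      (F := {0, c * Y 2 1 / Y 0 1, c * Z 2 1 / Z 0 1}) (by simp)
    simp only [Set.mem_insert_iff, Set.mem_singleton_iff, not_or] at hs
    obtain ⟨hs0, hs1, hs2⟩ := hs
    obtain ⟨f, f', G, G', h3⟩ := h1.shear (c / s)
    have hYs := fs_e0 hY0 s
    have hZs := fs_e0 hZ0 s
    refine beta1 h2a h3 (conj0 hYs (sN_e0 _)) (conj0 hZs (sN_e0 _)) ?_ ?_ ?_ ?_ ?_ ?_ ?_ ?_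
    · ext j
      rw [sN_conj _ _ hYs]
      simp [r1 hY1]
    · ext j
      rw [sN_conj _ _ hZs]
      simp [r1 hZ1]
    · rw [sN_conj _ _ hYs, if_pos rfl, q0, q2 hY2, hc1]
      field_simp
      ring
    · rw [sN_conj _ _ hYs, if_pos rfl, q0, q3 hY3, h03.1]
      ring
    · rw [sN_conj _ _ hZs, if_pos rfl, q0, q2 hZ2, hc2]
      field_simp
      ring
    · rw [sN_conj _ _ hZs, if_pos rfl, q0, q3 hZ3, h03.2]
      ring
    · rcases h21 with h | h
      · left
        rw [sN_conj _ _ hYs, if_neg (by decide), q2 hY2]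
        exact mul_ne_zero hs0 h
      · right
        right
        left
        rw [sN_conj _ _ hZs, if_neg (by decide), q2 hZ2]
        exact mul_ne_zero hs0 h
    · by_contra hne
      push Not at hne
      obtain ⟨g1, g2⟩ := hne
      rw [sN_conj _ _ hYs, if_pos rfl, q0, q1] at g1
      rw [sN_conj _ _ hZs, if_pos rfl, q0, q1] at g2
      have g3 : s * Y 0 1 = c * Y 2 1 := by
        field_simp at g1
        linear_combination g1
      have g4 : s * Z 0 1 = c * Z 2 1 := by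
        field_simp at g2
        linear_combination g2
      have hy01 : Y 0 1 = 0 := by
        by_contra hy
        exact hs1 (by field_simp; linear_combination g3)
      have hz01 : Z 0 1 = 0 := by
        by_contra hz
        exact hs2 (by field_simp; linear_combination g4)
      rw [hy01, mul_zero] at g3
      rw [hz01, mul_zero] at g4
      have hc0 : c = 0 := by
        rcases h21 with h | h
        · exact (mul_eq_zero.1 g3.symm).resolve_right h
        · exact (mul_eq_zero.1 g4.symm).resolve_right h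
      have h4 := (hc 1 0 (fun j => by
        rw [one_mul, zero_mul, add_zero]
        fin_cases j
        · exact col0 hY0 0
        · exact hy01
        · show Y 0 2 = 0
          rw [hc1, hc0, zero_mul]
        · exact h03.1) (fun j => by
        rw [one_mul, zero_mul, add_zero]
        fin_cases j
        · exact col0 hZ0 0
        · exact hz01
        · show Z 0 2 = 0
          rw [hc2, hc0, zero_mul]
        · exact h03.2)).1
      exact one_ne_zero h4

end Pool.Agent.Lib.D13.A1
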