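import Pool.Agent.Lib.D13.A1mv8

/-!
# MP_5dcbc3_ag: type (4,3,3,2), levels 1 | 4 | 4 | 3: if all maximal bad triples of this form
satisfy `Y e₀, Z e₀ ∈ k e₀` then there are none; the commuting case
-/

namespace Pool.Agent.Lib.D13.A1

open Matrix Pool.Agent.Lib Pool.Agent.Lib.D7 Pool.Agent.Lib.Q5dc

variable {k : Type*} [Field k] {ρ : ℕ → ℕ}
variable {Y Z : Matrix (Fin 4) (Fin 4) k} {b b' : Fin 4 → k} {B B' : Matrix (Fin 3) (Fin 4) k}

/-- row 1 vanishes, row 2 has at most one nonzero entry -/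
theorem rows_b [Infinite k] (h2a : H2a k ρ) (h : Bad ρ Y Z b b' B B') (hY0 : Y *ᵥ e0 k = 0)
    (hZ0 : Z *ᵥ e0 k = 0) (hY1 : Y 1 = 0) (hZ1 : Z 1 = 0)
    (hY2 : Y 2 2 = 0) (hY3 : Y 2 3 = 0) (hZ2 : Z 2 2 = 0) (hZ3 : Z 2 3 = 0) : False := by
  by_cases hc : ∀ x y : k, (∀ j, x * Y 0 j + y * Y 2 j = 0) →
      (∀ j, x * Z 0 j + y * Z 2 j = 0) → x = 0 ∧ y = 0
  · exact fmove h2a h hY0 hZ0 hY1 hZ1 hY2 hY3 hZ2 hZ3 hc
  · push Not at hc
    obtain ⟨x, y, g1, g2, g3⟩ := hc
    by_cases hx : x = 0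
    · have hy : y ≠ 0 := g3 hx
      subst hx
      refine rows12 h2a h hY0 hZ0 hY1 hZ1 ?_ ?_
      · ext j
        have := g1 j
        rw [zero_mul, zero_add] at this
        exact (mul_eq_zero.1 this).resolve_left hy
      · ext j
        have := g2 j
        rw [zero_mul, zero_add] at this
        exact (mul_eq_zero.1 this).resolve_left hy
    · refine T1 h2a h hY0 hZ0 (ζ := ![x, 0, y, 0]) ?_ ?_ hx
      · ext j
        have := g1 j
        simpa [Matrix.vecMul, dotProduct, Fin.sum_univ_four] using this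
      · ext j
        have := g2 j
        simpa [Matrix.vecMul, dotProduct, Fin.sum_univ_four] using this

/-- row 1 vanishes -/
theorem rows_a [Infinite k] (h2a : H2a k ρ) (h : Bad ρ Y Z b b' B B') (hY0 : Y *ᵥ e0 k = 0)
    (hZ0 : Z *ᵥ e0 k = 0) (hY1 : Y 1 = 0) (hZ1 : Z 1 = 0) : False := by
  by_cases hf : ∀ x y : k, x * Y 0 2 + y * Y 2 2 = 0 → x * Y 0 3 + y * Y 2 3 = 0 →
      x * Z 0 2 + y * Z 2 2 = 0 → x * Z 0 3 + y * Z 2 3 = 0 → x = 0 ∧ y = 0
  · exact beta2 h2a h hY0 hZ0 hY1 hZ1 hf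
  · push Not at hf
    obtain ⟨x, y, g1, g2, g3, g4, g5⟩ := hf
    by_cases hx : x = 0
    · have hy : y ≠ 0 := g5 hx
      subst hx
      rw [zero_mul, zero_add] at g1 g2 g3 g4
      exact rows_b h2a h hY0 hZ0 hY1 hZ1 ((mul_eq_zero.1 g1).resolve_left hy)
        ((mul_eq_zero.1 g2).resolve_left hy) ((mul_eq_zero.1 g3).resolve_left hy)
        ((mul_eq_zero.1 g4).resolve_left hy)
    · obtain ⟨c, c', C, C', h1⟩ := h.shear (-y / x)
      have hY0' := conj0 (N := up (sN (-y / x))) hY0 (sN_e0 (-(-y / x)))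
      have hZ0' := conj0 (N := up (sN (-y / x))) hZ0 (sN_e0 (-(-y / x)))
      have hY1' : (up (sN (-y / x)) * Y * up (sN (-(-y / x)))) 1 = 0 := by
        ext j
        rw [sN_conj _ _ hY0, hY1]
        simp
      have hZ1' : (up (sN (-y / x)) * Z * up (sN (-(-y / x)))) 1 = 0 := by
        ext j
        rw [sN_conj _ _ hZ0, hZ1]
        simp
      have k1 : (up (sN (-y / x)) * Y * up (sN (-(-y / x)))) 0 2 = 0 := by
        rw [sN_conj _ _ hY0, if_pos rfl]
        field_simp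
        linear_combination g1
      have k2 : (up (sN (-y / x)) * Y * up (sN (-(-y / x)))) 0 3 = 0 := by
        rw [sN_conj _ _ hY0, if_pos rfl]
        field_simp
        linear_combination g2
      have k3 : (up (sN (-y / x)) * Z * up (sN (-(-y / x)))) 0 2 = 0 := by
        rw [sN_conj _ _ hZ0, if_pos rfl]
        field_simp
        linear_combination g3
      have k4 : (up (sN (-y / x)) * Z * up (sN (-(-y / x)))) 0 3 = 0 := by
        rw [sN_conj _ _ hZ0, if_pos rfl]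
        field_simp
        linear_combination g4
      set Y' := up (sN (-y / x)) * Y * up (sN (-(-y / x))) with hY'
      set Z' := up (sN (-y / x)) * Z * up (sN (-(-y / x))) with hZ'
      by_cases hq : Y' 2 2 ≠ 0 ∨ Y' 2 3 ≠ 0 ∨ Z' 2 2 ≠ 0 ∨ Z' 2 3 ≠ 0
      · by_cases hp : Y' 0 1 ≠ 0 ∨ Z' 0 1 ≠ 0
        · exact beta1 h2a h1 hY0' hZ0' hY1' hZ1' k1 k2 k3 k4 hq hp
        · push Not at hp
          refine T1 h2a h1 hY0' hZ0' (ζ := e0 k) ?_ ?_ (by simp [e0])
          · ext j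
            have : (e0 k ᵥ* Y') j = Y' 0 j := by
              simp [Matrix.vecMul, dotProduct, Fin.sum_univ_four, e0]
            rw [this]
            fin_cases j
            · exact col0 hY0' 0
            · exact hp.1
            · exact k1
            · exact k2
          · ext j
            have : (e0 k ᵥ* Z') j = Z' 0 j := by
              simp [Matrix.vecMul, dotProduct, Fin.sum_univ_four, e0]
            rw [this]
            fin_cases j
            · exact col0 hZ0' 0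
            · exact hp.2
            · exact k3
            · exact k4
      · push Not at hq
        exact rows_b h2a h1 hY0' hZ0' hY1' hZ1' hq.1 hq.2.1 hq.2.2.1 hq.2.2.2

/-- the stratum `Y e₀ = Z e₀ = 0` -/
theorem no_2b [Infinite k] (h2a : H2a k ρ) (h : Bad ρ Y Z b b' B B') (hY0 : Y *ᵥ e0 k = 0)
    (hZ0 : Z *ᵥ e0 k = 0) : False := by
  by_cases hf : ∀ ζ : Fin 3 → k, ζ ᵥ* (P1 k * Y) = 0 → ζ ᵥ* (P1 k * Z) = 0 → ζ = 0
  · exact r0 h2a h hY0 hZ0 hf
  · push Not at hf
    obtain ⟨ζ, g1, g2, g3⟩ := hf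
    rw [← Matrix.vecMul_vecMul] at g1 g2
    have hξ : ζ ᵥ* P1 k = ![ζ 0, ζ 1, ζ 2, 0] := by
      ext j
      fin_cases j <;> simp [P1, Matrix.vecMul, dotProduct, Fin.sum_univ_three]
    rw [hξ] at g1 g2
    by_cases h0 : ζ 0 = 0
    · rw [h0] at g1 g2
      have hrow : ∀ (p q r s : k) (p' q' r' s' : k) (M : Matrix (Fin 4) (Fin 4) k),
          ![0, p, q, 0] ᵥ* M = 0 → (up (gN p q r s) * M * up (gN p' q' r' s')) 1 = 0 := by
        intro p q r s p' q' r' s' M hM
        have h5 : p • M 1 + q • M 2 = 0 := by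
          rw [← hM]
          ext j
          simp [Matrix.vecMul, dotProduct, Fin.sum_univ_four]
        ext j
        rw [gN_conj]
        simp only [Matrix.cons_val_one, Matrix.cons_val_zero, h5]
        fin_cases j <;> simp
      by_cases h1 : ζ 1 = 0
      · have h2 : ζ 2 ≠ 0 := by
          intro h2
          apply g3
          ext i
          fin_cases i
          · exact h0
          · exact h1
          · exact h2
        obtain ⟨c, c', C, C', h3⟩ := h.gl (p := ζ 1) (q := ζ 2) (r := 1) (s := 0)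
          (by simpa using h2)
        exact rows_a h2a h3 (conj0 hY0 (gN_e0 _ _ _ _)) (conj0 hZ0 (gN_e0 _ _ _ _))
          (hrow _ _ _ _ _ _ _ _ _ g1) (hrow _ _ _ _ _ _ _ _ _ g2)
      · obtain ⟨c, c', C, C', h3⟩ := h.gl (p := ζ 1) (q := ζ 2) (r := 0) (s := 1)
          (by simpa using h1)
        exact rows_a h2a h3 (conj0 hY0 (gN_e0 _ _ _ _)) (conj0 hZ0 (gN_e0 _ _ _ _))
          (hrow _ _ _ _ _ _ _ _ _ g1) (hrow _ _ _ _ _ _ _ _ _ g2)
    · exact T1 h2a h hY0 hZ0 g1 g2 h0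

/-- if `Y e₀, Z e₀ ∈ k e₀` for all maximal bad triples of this form then there are none -/
theorem no_bad [Infinite k] (h2a : H2a k ρ) : ¬ Bad ρ Y Z b b' B B' := by
  intro h
  have h1 := h.sub (Y 0 0) (Z 0 0) 0 0
  have key := h2a _ _ _ _ _ _ h
  refine no_2b h2a h1 ?_ ?_
  · rw [mulVec_e0]
    ext i
    rw [Matrix.sub_apply, Matrix.smul_apply]
    by_cases hi : i = 0
    · subst hi
      simp
    · simp [hi, (key i hi).1]
  · rw [mulVec_e0]
    ext i
    rw [Matrix.sub_apply, Matrix.smul_apply]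
    by_cases hi : i = 0
    · subst hi
      simp
    · simp [hi, (key i hi).2]

/-- the commuting case -/
theorem Bad.comm [IsAlgClosed k] [CharZero k] (h : Bad ρ Y Z b b' B B') (hc : Y * Z = Z * Y)
    (i : Fin 4) (hi : i ≠ 0) : Y i 0 = 0 ∧ Z i 0 = 0 := by
  have hR := h.rl
  obtain ⟨c, c', hT⟩ := h
  by_contra hne
  rw [not_and_or] at hne
  exact hT.ncl (cl_comm hc ⟨i, hi, hne⟩ hR.l1 hR.l2 hR.l3)

/-- reduction to the noncommuting case with `Y e₀` or `Z e₀` not in `k e₀` -/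
theorem no_bad_of [IsAlgClosed k] [CharZero k]
    (h : ∀ (Y Z : Matrix (Fin 4) (Fin 4) k) (b b' : Fin 4 → k) (B B' : Matrix (Fin 3) (Fin 4) k)
      (i : Fin 4), Bad ρ Y Z b b' B B' → Y * Z ≠ Z * Y → i ≠ 0 → (Y i 0 ≠ 0 ∨ Z i 0 ≠ 0) → False) :
    ¬ Bad ρ Y Z b b' B B' := by
  have hinf : Infinite k := IsAlgClosed.instInfinite
  refine no_bad fun Y Z b b' B B' hB i hi => ?_
  by_cases hc : Y * Z = Z * Y
  · exact hB.comm hc i hi
  · by_contra hne
    rw [not_and_or] at hne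
    exact h Y Z b b' B B' i hB hc hi hne

end Pool.Agent.Lib.D13.A1
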