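import Pool.Agent.Lib.D13.A1mk

/-!
# MP_5dcbc3_ag: type (4,3,3,2), levels 1 | 4 | 4 | 3, commuting graded part: limits of curvilinear
-/

namespace Pool.Agent.Lib.D13.A1

open Matrix Pool.Agent.Lib Pool.Agent.Lib.D7 Pool.Agent.Lib.Q5dc

variable {k : Type*} [Field k]

/-- the first basis vector -/
def e0 (k : Type*) [Field k] : Fin 4 → k := ![1, 0, 0, 0]

theorem mulVec_e0 {m : Type*} (M : Matrix m (Fin 4) k) : M *ᵥ e0 k = fun i => M i 0 := by
  ext i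
  simp [Matrix.mulVec, dotProduct, e0, Fin.sum_univ_four]

/-- the linear conditions on the lower parts -/
def Lm (Y Z : Matrix (Fin 4) (Fin 4) k) (π : Matrix (Fin 3) (Fin 4) k) :
    (((Fin 4 → k) × (Fin 4 → k)) × (Matrix (Fin 3) (Fin 4) k × Matrix (Fin 3) (Fin 4) k)) →ₗ[k]
      (Fin 3 → k) × ((Fin 3 → k) × (Fin 3 → k)) where
  toFun u := (u.2.1 *ᵥ e0 k - π *ᵥ u.1.1, (u.2.2 *ᵥ e0 k - π *ᵥ u.1.2,
    π *ᵥ (Y *ᵥ u.1.2) + u.2.1 *ᵥ (Z *ᵥ e0 k) - (π *ᵥ (Z *ᵥ u.1.1) + u.2.2 *ᵥ (Y *ᵥ e0 k))))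
  map_add' u v := by
    simp only [Prod.fst_add, Prod.snd_add, Matrix.add_mulVec, Matrix.mulVec_add, Prod.mk_add_mk]
    refine Prod.ext ?_ (Prod.ext ?_ ?_)
    · simp only
      abel
    · simp only
      abel
    · simp only
      abel
  map_smul' c u := by
    simp only [Prod.smul_fst, Prod.smul_snd, Matrix.smul_mulVec, Matrix.mulVec_smul,
      RingHom.id_apply, Prod.smul_mk, smul_sub, smul_add]

/-- a matrix with two nonzero columns -/
def Cm (i : Fin 4) (a b : Fin 3 → k) : Matrix (Fin 3) (Fin 4) k :=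
  Matrix.of fun r c => if c = 0 then a r else if c = i then b r else 0

theorem Cm_mulVec {i : Fin 4} (hi : i ≠ 0) (a b : Fin 3 → k) (M : Matrix (Fin 4) (Fin 4) k)
    (r : Fin 3) : (Cm i a b *ᵥ (M *ᵥ e0 k)) r = a r * M 0 0 + b r * M i 0 := by
  rw [mulVec_e0]
  simp only [Cm, Matrix.mulVec, dotProduct, Fin.sum_univ_four, Matrix.of_apply]
  fin_cases i
  · exact absurd rfl hi
  · simp
  · simp
  · simp

theorem Cm_e0 (i : Fin 4) (a b : Fin 3 → k) : Cm i a b *ᵥ e0 k = a := by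
  rw [mulVec_e0]
  ext r
  simp [Cm]

theorem Lm_surj {Y Z : Matrix (Fin 4) (Fin 4) k} {π : Matrix (Fin 3) (Fin 4) k}
    (h : ∃ i : Fin 4, i ≠ 0 ∧ (Y i 0 ≠ 0 ∨ Z i 0 ≠ 0)) (w) : ∃ u, Lm Y Z π u = w := by
  obtain ⟨t1, t2, t3⟩ := w
  obtain ⟨i, hi, hh⟩ := h
  rcases hh with hh | hh
  · refine ⟨((0, 0), (Cm i t1 0, Cm i t2 fun r =>
      (Y i 0)⁻¹ * (t1 r * Z 0 0 - t2 r * Y 0 0 - t3 r))), ?_⟩
    show (_, (_, _)) = _
    simp only [Cm_e0, Matrix.mulVec_zero, sub_zero, zero_add]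
    refine Prod.ext rfl (Prod.ext rfl ?_)
    ext r
    simp only [Pi.sub_apply, Cm_mulVec hi, Pi.zero_apply]
    field_simp
    ring
  · refine ⟨((0, 0), (Cm i t1 fun r => (Z i 0)⁻¹ * (t3 r + t2 r * Y 0 0 - t1 r * Z 0 0),
      Cm i t2 0)), ?_⟩
    show (_, (_, _)) = _
    simp only [Cm_e0, Matrix.mulVec_zero, sub_zero, zero_add]
    refine Prod.ext rfl (Prod.ext rfl ?_)
    ext r
    simp only [Pi.sub_apply, Cm_mulVec hi, Pi.zero_apply]
    field_simp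
    ring

/-- lifting of the lower parts along a polynomial family of graded parts -/
theorem lift_low {Y Z : k → Matrix (Fin 4) (Fin 4) k} {π : k → Matrix (Fin 3) (Fin 4) k}
    (hY : PM Y) (hZ : PM Z) (hπ : PM π) (s₁ : k)
    (h : ∀ w, ∃ u, Lm (Y s₁) (Z s₁) (π s₁) u = w)
    {b b' : Fin 4 → k} {B B' : Matrix (Fin 3) (Fin 4) k}
    (e1 : B *ᵥ e0 k = π s₁ *ᵥ b) (e2 : B' *ᵥ e0 k = π s₁ *ᵥ b')
    (e3 : π s₁ *ᵥ (Y s₁ *ᵥ b') + B *ᵥ (Z s₁ *ᵥ e0 k) =
      π s₁ *ᵥ (Z s₁ *ᵥ b) + B' *ᵥ (Y s₁ *ᵥ e0 k)) :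
    ∃ (bs bs' : k → Fin 4 → k) (Bs Bs' : k → Matrix (Fin 3) (Fin 4) k),
      (∀ i, IsPoly fun s => bs s i) ∧ (∀ i, IsPoly fun s => bs' s i) ∧ PM Bs ∧ PM Bs' ∧
      bs s₁ = b ∧ bs' s₁ = b' ∧ Bs s₁ = B ∧ Bs' s₁ = B' ∧ ∀ s,
      Bs s *ᵥ e0 k = π s *ᵥ bs s ∧ Bs' s *ᵥ e0 k = π s *ᵥ bs' s ∧
      π s *ᵥ (Y s *ᵥ bs' s) + Bs s *ᵥ (Z s *ᵥ e0 k) =
        π s *ᵥ (Z s *ᵥ bs s) + Bs' s *ᵥ (Y s *ᵥ e0 k) := by
  have hc : ∀ (x : Fin 4 → k) (i : Fin 4), IsPoly fun _ : k => x i := fun x i => D7.IsPoly.const _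
  have hL : ∀ v, PolyV fun s => Lm (Y s) (Z s) (π s) v := by
    intro u
    refine PolyV.prod ?_ (PolyV.prod ?_ ?_)
    · refine PolyV.of_pi fun i => ?_
      exact ((PM.const u.2.1).mulVec (hc _) i).sub (hπ.mulVec (hc _) i)
    · refine PolyV.of_pi fun i => ?_
      exact ((PM.const u.2.2).mulVec (hc _) i).sub (hπ.mulVec (hc _) i)
    · refine PolyV.of_pi fun i => ?_
      exact ((hπ.mulVec (hY.mulVec (hc _)) i).add ((PM.const u.2.1).mulVec (hZ.mulVec (hc _)) i)).sub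
        ((hπ.mulVec (hZ.mulVec (hc _)) i).add ((PM.const u.2.2).mulVec (hY.mulVec (hc _)) i))
  obtain ⟨v, hv, hv1, hv2⟩ := lift_at (fun s => Lm (Y s) (Z s) (π s)) hL s₁ h
    (c := ((b, b'), (B, B'))) (by
      show (_, (_, _)) = _
      simp only [e1, e2, e3, sub_self]
      rfl)
  refine ⟨fun s => (v s).1.1, fun s => (v s).1.2, fun s => (v s).2.1, fun s => (v s).2.2,
    fun i => ?_, fun i => ?_, fun x y => ?_, fun x y => ?_, by simp only [hv1],
    by simp only [hv1], by simp only [hv1], by simp only [hv1], fun s => ?_⟩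
  · exact (hv.map ((LinearMap.proj i).comp
      ((LinearMap.fst k _ _).comp (LinearMap.fst k _ _)))).isPoly
  · exact (hv.map ((LinearMap.proj i).comp
      ((LinearMap.snd k _ _).comp (LinearMap.fst k _ _)))).isPoly
  · exact (hv.map ((LinearMap.fst k _ _).comp (LinearMap.snd k _ _))).entry x y
  · exact (hv.map ((LinearMap.snd k _ _).comp (LinearMap.snd k _ _))).entry x y
  · have h1 := hv2 s
    have h2 := congrArg Prod.fst h1
    have h3 := congrArg (fun t => t.2.1) h1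
    have h4 := congrArg (fun t => t.2.2) h1
    exact ⟨sub_eq_zero.1 h2, sub_eq_zero.1 h3, sub_eq_zero.1 h4⟩

/-- the triple -/
def Tr (Y Z : Matrix (Fin 4) (Fin 4) k) (π : Matrix (Fin 3) (Fin 4) k) (b b' : Fin 4 → k)
    (c c' : Fin 3 → k) (B B' : Matrix (Fin 3) (Fin 4) k) : Fin 3 → Matrix IB IB k :=
  ![mk (e0 k) 0 0 1 0 π, mk (Y *ᵥ e0 k) b c Y B (π * Y), mk (Z *ᵥ e0 k) b' c' Z B' (π * Z)]

theorem Tr_comm {Y Z : Matrix (Fin 4) (Fin 4) k} {π : Matrix (Fin 3) (Fin 4) k}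
    {b b' : Fin 4 → k} {c c' : Fin 3 → k} {B B' : Matrix (Fin 3) (Fin 4) k}
    (hYZ : Y * Z = Z * Y) (e1 : B *ᵥ e0 k = π *ᵥ b) (e2 : B' *ᵥ e0 k = π *ᵥ b')
    (e3 : π *ᵥ (Y *ᵥ b') + B *ᵥ (Z *ᵥ e0 k) = π *ᵥ (Z *ᵥ b) + B' *ᵥ (Y *ᵥ e0 k)) (i j : Fin 3) :
    Tr Y Z π b b' c c' B B' i * Tr Y Z π b b' c c' B B' j =
      Tr Y Z π b b' c c' B B' j * Tr Y Z π b b' c c' B B' i := by
  have h01 : Tr Y Z π b b' c c' B B' 0 * Tr Y Z π b b' c c' B B' 1 =
      Tr Y Z π b b' c c' B B' 1 * Tr Y Z π b b' c c' B B' 0 := by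
    refine mk_comm ?_ ?_ ?_
    · rw [Matrix.one_mulVec]
    · rw [Matrix.zero_mulVec, Matrix.mulVec_zero, zero_add, add_zero, e1]
    · rw [Matrix.mul_one]
  have h02 : Tr Y Z π b b' c c' B B' 0 * Tr Y Z π b b' c c' B B' 2 =
      Tr Y Z π b b' c c' B B' 2 * Tr Y Z π b b' c c' B B' 0 := by
    refine mk_comm ?_ ?_ ?_
    · rw [Matrix.one_mulVec]
    · rw [Matrix.zero_mulVec, Matrix.mulVec_zero, zero_add, add_zero, e2]
    · rw [Matrix.mul_one]
  have h12 : Tr Y Z π b b' c c' B B' 1 * Tr Y Z π b b' c c' B B' 2 =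
      Tr Y Z π b b' c c' B B' 2 * Tr Y Z π b b' c c' B B' 1 := by
    refine mk_comm ?_ ?_ ?_
    · rw [Matrix.mulVec_mulVec, Matrix.mulVec_mulVec, hYZ]
    · rw [← Matrix.mulVec_mulVec, ← Matrix.mulVec_mulVec]
      exact e3
    · rw [Matrix.mul_assoc, Matrix.mul_assoc, hYZ]
  fin_cases i <;> fin_cases j
  · rfl
  · exact h01
  · exact h02
  · exact h01.symm
  · rfl
  · exact h12
  · exact h02.symm
  · exact h12.symm
  · rfl

theorem cl_reindex {T : Fin 3 → Matrix IB IB k}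
    (h : Cl fun i => (T i).submatrix te.symm te.symm) : Cl T := by
  have h1 := Cl.mapEquiv (Matrix.reindexAlgEquiv k k te.symm) (Fintype.card_congr te.symm) h
  have h2 : (fun i => (Matrix.reindexAlgEquiv k k te.symm) ((T i).submatrix te.symm te.symm)) =
      T := by
    funext i
    ext r s
    simp [Matrix.reindex_apply]
  rwa [h2] at h1

/-- the order `t`, `t ^ 3`, `t ^ 4` -/
def rv : Fin 3 → Fin 3 := ![2, 1, 0]

/-- the exponents -/
def ex : Fin 3 → ℕ := ![1, 3, 4]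

theorem base_tab : ∀ (i : Fin 3) (r q : IB), lv r = lv q + 1 →
    R1443.bs.Xe i (te r) (te q) = if (te r : ℕ) = (te q : ℕ) + ex i then 1 else 0 := by
  decide +kernel

theorem base_eq {b b' : Fin 4 → k} {c c' : Fin 3 → k} {B B' : Matrix (Fin 3) (Fin 4) k}
    (i : Fin 3) (r q : IB) (h : lv r = lv q + 1) :
    Tr (N0 k) (N3 k) (P0 k) b b' c c' B B' (rv i) r q =
      Refl.XX k R1443.bs 12 i (te r) (te q) := by
  have h1 : Refl.XX k R1443.bs 12 i (te r) (te q) =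
      ((R1443.bs.Xe i (te r) (te q) : ℤ) : k) := rfl
  rw [h1, base_tab i r q h]
  rcases r with r | r | r | r <;> rcases q with q | q | q | q <;>
    first
    | (exfalso; simp only [lv] at h; omega)
    | skip
  · fin_cases i <;> fin_cases r <;>
      simp [Tr, rv, mk, te, tf, ex, N0, N3, e0, Matrix.mulVec, dotProduct, Fin.sum_univ_four]
  · fin_cases i <;> fin_cases r <;> fin_cases q <;>
      simp [Tr, rv, mk, te, tf, ex, N0, N3]
  · fin_cases i <;> fin_cases r <;> fin_cases q <;>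
      simp [Tr, rv, mk, te, tf, ex, N0, N3, P0, Matrix.mul_apply, Fin.sum_univ_four]

/-- the case `Z` a polynomial in `Y` -/
theorem cl_poly [CharZero k] {Y Z : Matrix (Fin 4) (Fin 4) k} {π : Matrix (Fin 3) (Fin 4) k}
    {b b' : Fin 4 → k} {c c' : Fin 3 → k} {B B' : Matrix (Fin 3) (Fin 4) k}
    (hZ : ∃ p : Polynomial k, Z = Polynomial.aeval Y p)
    (h : ∃ i : Fin 4, i ≠ 0 ∧ (Y i 0 ≠ 0 ∨ Z i 0 ≠ 0))
    (e1 : B *ᵥ e0 k = π *ᵥ b) (e2 : B' *ᵥ e0 k = π *ᵥ b')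
    (e3 : π *ᵥ (Y *ᵥ b') + B *ᵥ (Z *ᵥ e0 k) = π *ᵥ (Z *ᵥ b) + B' *ᵥ (Y *ᵥ e0 k)) :
    Cl (Tr Y Z π b b' c c' B B') := by
  obtain ⟨p, hp⟩ := hZ
  set Ys : k → Matrix (Fin 4) (Fin 4) k := fun s => (1 - s) • N0 k + s • Y with hYs
  set Zs : k → Matrix (Fin 4) (Fin 4) k := fun s =>
    (1 - s) • Polynomial.aeval (Ys s) (Polynomial.X ^ 3 : Polynomial k) +
      s • Polynomial.aeval (Ys s) p with hZs
  set πs : k → Matrix (Fin 3) (Fin 4) k := fun s => (1 - s) • P0 k + s • π with hπs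
  have i1 : IsPoly fun s : k => 1 - s := (D7.IsPoly.const 1).sub D7.IsPoly.id
  have hY : PM Ys := ((PM.const (N0 k)).smul i1).add ((PM.const Y).smul D7.IsPoly.id)
  have hZ : PM Zs := ((hY.aeval _).smul i1).add ((hY.aeval p).smul D7.IsPoly.id)
  have hπ : PM πs := ((PM.const (P0 k)).smul i1).add ((PM.const π).smul D7.IsPoly.id)
  have y1 : Ys 1 = Y := by simp [hYs]
  have z1 : Zs 1 = Z := by
    rw [hp]
    simp only [hZs, y1, sub_self, zero_smul, one_smul, zero_add]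
  have p1 : πs 1 = π := by simp [hπs]
  have y0 : Ys 0 = N0 k := by simp [hYs]
  have z0 : Zs 0 = N3 k := by
    simp only [hZs, y0, sub_zero, zero_smul, one_smul, add_zero]
    rw [map_pow, Polynomial.aeval_X, N0_pow]
  have p0 : πs 0 = P0 k := by simp [hπs]
  have hYZ : ∀ s, Ys s * Zs s = Zs s * Ys s := by
    intro s
    have h1 : ∀ q : Polynomial k, Ys s * Polynomial.aeval (Ys s) q =
        Polynomial.aeval (Ys s) q * Ys s := by
      intro q
      have h2 : Polynomial.aeval (Ys s) (Polynomial.X * q) =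
        Polynomial.aeval (Ys s) (q * Polynomial.X) := by rw [mul_comm]
      rwa [map_mul, map_mul, Polynomial.aeval_X] at h2
    simp only [hZs, Matrix.mul_add, Matrix.add_mul, Matrix.mul_smul, Matrix.smul_mul, h1]
  obtain ⟨bs, bs', Bs, Bs', hb, hb', hB, hB', c1, c2, c3, c4, hc⟩ :=
    lift_low hY hZ hπ 1 (by
      rw [y1, z1, p1]
      exact Lm_surj h) (b := b) (b' := b') (B := B) (B' := B')
      (by rw [p1]; exact e1) (by rw [p1]; exact e2) (by rw [y1, z1, p1]; exact e3)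
  -- the family, order t, t^3, t^4
  have hei : ∀ i : Fin 4, IsPoly fun _ : k => e0 k i := fun i => D7.IsPoly.const _
  have hcl : ∀ s, Cl fun i => Tr (Ys s) (Zs s) (πs s) (bs s) (bs' s) c c' (Bs s) (Bs' s)
      (rv i) := by
    intro s
    apply cl_reindex
    have hs : ∀ (i : Fin 3), PM fun s => Tr (Ys s) (Zs s) (πs s) (bs s) (bs' s) c c'
        (Bs s) (Bs' s) i := by
      intro i
      fin_cases i
      · exact mk_poly hei (fun _ => D7.IsPoly.const _) (fun _ => D7.IsPoly.const _) (PM.const _)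
          (PM.const _) hπ
      · exact mk_poly (hY.mulVec hei) hb (fun _ => D7.IsPoly.const _) hY hB (hπ.mul hY)
      · exact mk_poly (hZ.mulVec hei) hb' (fun _ => D7.IsPoly.const _) hZ hB' (hπ.mul hZ)
    refine Refl.fdc_ck R1443.bs (by norm_num) R1443.bs_ck R1443.cert
      (fun s i => (Tr (Ys s) (Zs s) (πs s) (bs s) (bs' s) c c' (Bs s) (Bs' s)
      (rv i)).submatrix te.symm te.symm) ?_ ?_ ?_ ?_ s
    · intro i x y
      exact hs (rv i) _ _
    · intro s i j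
      rw [Matrix.submatrix_mul_equiv, Matrix.submatrix_mul_equiv]
      congr 1
      obtain ⟨h1, h2, h3⟩ := hc s
      exact Tr_comm (hYZ s) h1 h2 h3 _ _
    · intro s i x y hxy
      obtain ⟨r, rfl⟩ := te.surjective x
      obtain ⟨q, rfl⟩ := te.surjective y
      rw [lv_te, lv_te] at hxy
      simp only [Matrix.submatrix_apply, Equiv.symm_apply_apply]
      rcases r with r | r | r | r <;> rcases q with q | q | q | q <;>
        first
        | (exfalso; simp only [lv] at hxy; omega)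
        | (fin_cases i <;> rfl)
    · intro i x y hxy
      obtain ⟨r, rfl⟩ := te.surjective x
      obtain ⟨q, rfl⟩ := te.surjective y
      rw [lv_te, lv_te] at hxy
      simp only [Matrix.submatrix_apply, Equiv.symm_apply_apply]
      rw [y0, z0, p0]
      exact base_eq i r q hxy
  refine D7.cl_of_adj (T' := fun i => Tr (Ys 1) (Zs 1) (πs 1) (bs 1) (bs' 1) c c' (Bs 1) (Bs' 1)
    (rv i)) ?_ (hcl 1)
  rw [y1, z1, p1, c1, c2, c3, c4]
  intro i
  fin_cases i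
  · exact NonUnitalAlgebra.subset_adjoin _ ⟨2, rfl⟩
  · exact NonUnitalAlgebra.subset_adjoin _ ⟨1, rfl⟩
  · exact NonUnitalAlgebra.subset_adjoin _ ⟨0, rfl⟩

/-- commuting graded part, `Y e₀` or `Z e₀` not in `k e₀` -/
theorem cl_comm [IsAlgClosed k] [CharZero k] {Y Z : Matrix (Fin 4) (Fin 4) k}
    {π : Matrix (Fin 3) (Fin 4) k}
    {b b' : Fin 4 → k} {c c' : Fin 3 → k} {B B' : Matrix (Fin 3) (Fin 4) k}
    (hYZ : Y * Z = Z * Y)
    (h : ∃ i : Fin 4, i ≠ 0 ∧ (Y i 0 ≠ 0 ∨ Z i 0 ≠ 0))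
    (e1 : B *ᵥ e0 k = π *ᵥ b) (e2 : B' *ᵥ e0 k = π *ᵥ b')
    (e3 : π *ᵥ (Y *ᵥ b') + B *ᵥ (Z *ᵥ e0 k) = π *ᵥ (Z *ᵥ b) + B' *ᵥ (Y *ᵥ e0 k)) :
    Cl (Tr Y Z π b b' c c' B B') := by
  obtain ⟨R, ζ, hRZ, hζ⟩ := CycGen.exists_commute_cyc Z
  set Ys : k → Matrix (Fin 4) (Fin 4) k := fun s => Y + s • (R - Y) with hYs
  have hY : PM Ys := (PM.const Y).add ((PM.const (R - Y)).smul D7.IsPoly.id)
  have y0 : Ys 0 = Y := by simp [hYs]
  have y1 : Ys 1 = R := by simp [hYs]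
  have hcom : ∀ s, Ys s * Z = Z * Ys s := by
    intro s
    simp only [hYs, Matrix.add_mul, Matrix.mul_add, Matrix.smul_mul, Matrix.mul_smul,
      Matrix.sub_mul, Matrix.mul_sub, hYZ, hRZ]
  obtain ⟨bs, bs', Bs, Bs', hb, hb', hB, hB', c1, c2, c3, c4, hc⟩ :=
    lift_low (Z := fun _ => Z) (π := fun _ => π) hY (PM.const Z) (PM.const π) 0 (by
      rw [y0]
      exact Lm_surj h) (b := b) (b' := b') (B := B) (B' := B') e1 e2 (by rw [y0]; exact e3)
  by_contra hcl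
  have hei : ∀ i : Fin 4, IsPoly fun _ : k => e0 k i := fun i => D7.IsPoly.const _
  have hfam : PolyFam fun s => Tr (Ys s) Z π (bs s) (bs' s) c c' (Bs s) (Bs' s) := by
    intro i x y
    have hs : PM fun s => Tr (Ys s) Z π (bs s) (bs' s) c c' (Bs s) (Bs' s) i := by
      fin_cases i
      · exact mk_poly hei (fun _ => D7.IsPoly.const _) (fun _ => D7.IsPoly.const _) (PM.const _)
          (PM.const _) (PM.const _)
      · exact mk_poly (hY.mulVec hei) hb (fun _ => D7.IsPoly.const _) hY hB ((PM.const _).mul hY)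
      · exact mk_poly ((PM.const Z).mulVec hei) hb' (fun _ => D7.IsPoly.const _) (PM.const _) hB'
          (PM.const _)
    exact hs x y
  have hf := D7.finite_cl _ hfam (by
    rw [y0, c1, c2, c3, c4]
    exact hcl)
  have hdet : IsPoly fun s => (CycGen.Kr (Ys s) ζ).det := by
    refine isPoly_det fun x y => ?_
    have h1 : PM fun s => Ys s ^ (y : ℕ) := fun a b => isPoly_pow hY _ a b
    exact h1.mulVec (v := fun _ => ζ) (fun i => D7.IsPoly.const (ζ i)) x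
  have hf1 := hdet.finite (s₁ := 1) (by
    rw [y1]
    exact CycGen.Cyc.det_ne hζ)
  have hf2 : {s : k | ¬ ∃ i : Fin 4, i ≠ 0 ∧ (Ys s i 0 ≠ 0 ∨ Z i 0 ≠ 0)}.Finite := by
    obtain ⟨i, hi, h1⟩ := h
    rcases h1 with h1 | h1
    · refine ((hY i 0).finite (s₁ := 0) (by rwa [y0])).subset fun s hs => ?_
      by_contra h2
      exact hs ⟨i, hi, Or.inl h2⟩
    · refine Set.finite_empty.subset fun s hs => ?_
      exact absurd ⟨i, hi, Or.inr h1⟩ hs
  have hinf : Infinite k := IsAlgClosed.instInfinite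
  obtain ⟨s, hs⟩ := ((hf.union hf1).union hf2).exists_notMem
  simp only [Set.mem_union, not_or] at hs
  obtain ⟨⟨g1, g2⟩, g3⟩ := hs
  apply g1
  obtain ⟨h1, h2, h3⟩ := hc s
  refine cl_poly ?_ (not_not.1 g3) h1 h2 h3
  exact (CycGen.cyc_of_det g2).poly (hcom s).symm

end Pool.Agent.Lib.D13.A1
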