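import Pool.Agent.Lib.D13.PB

/-!
# MP_5dcbc3_ag: nilpotent matrices with Jordan blocks of sizes `b + δ`, `b`, `1`

The matrices commuting with them, as matrices of polynomials.
-/

namespace Pool.Agent.Lib.D13

open Matrix Polynomial Pool.Agent.Lib.Q5dc Pool.Agent.Lib.D7 Pool.Agent.Lib.D8

namespace PB

variable {k : Type*} [Field k] {N : ℕ}

/-- the polynomial matrix of `e1 -> c e1 + r e2 + t p`, `e2 -> X^δ f e1 + q e2 + u p`,
`p -> g s1 + h s2` -/
noncomputable def Mx (b δ : ℕ) (c f q r : k[X]) (t u g h : k) : Matrix (Fin 3) (Fin 3) k[X] :=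
  !![c, X ^ δ * f, X ^ (b + δ - 1) * C g;
     r, q, X ^ (b - 1) * C h;
     C t, C u, 0]

/-- the conditions for two such matrices with `c = 0` to commute -/
structure Rels (b δ : ℕ) (f q r : k[X]) (t u g h : k) (f' q' r' : k[X]) (t' u' g' h' : k) :
    Prop where
  r11 : X ^ b ∣ (f * r' - f' * r) + X ^ (b - 1) * C (g * t' - g' * t)
  r12 : X ^ b ∣ (f * q' - f' * q) + X ^ (b - 1) * C (g * u' - g' * u)
  r21 : X ^ b ∣ (q * r' - q' * r) + X ^ (b - 1) * C (h * t' - h' * t)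
  r22 : X ^ b ∣ X ^ δ * (r * f' - r' * f) + X ^ (b - 1) * C (h * u' - h' * u)
  p1 : u * r'.coeff 0 = u' * r.coeff 0
  p1' : h * f'.coeff 0 = h' * f.coeff 0
  p2 : δ = 0 → t * f'.coeff 0 = t' * f.coeff 0
  p2' : δ = 0 → g * r'.coeff 0 = g' * r.coeff 0

variable {A : Matrix (Fin N) (Fin N) k} {w : Fin 3 → Fin N → k} {b δ : ℕ}

/-- blocks of sizes `b + δ`, `b`, `1` -/
abbrev Bl (A : Matrix (Fin N) (Fin N) k) (w : Fin 3 → Fin N → k) (b δ : ℕ) : Prop :=
  BlkB A w ![b + δ, b, 1]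

theorem adm_iff (P : Matrix (Fin 3) (Fin 3) k[X]) (hb : 1 ≤ b) :
    Adm ![b + δ, b, 1] P ↔ X ^ δ ∣ P 0 1 ∧ X ^ (b + δ - 1) ∣ P 0 2 ∧ X ^ (b - 1) ∣ P 1 2 := by
  have hX : ∀ e : ℕ, (X : k[X]) ^ e ≠ 0 := fun e => pow_ne_zero e X_ne_zero
  have h3 : ∀ e p, 1 ≤ e → ((X : k[X]) ^ e ∣ X ^ 1 * p ↔ X ^ (e - 1) ∣ p) := by
    intro e p he
    obtain ⟨e', rfl⟩ : ∃ e', e = 1 + e' := ⟨e - 1, by omega⟩
    rw [pow_add, mul_dvd_mul_iff_left (hX 1)]
    simp
  have h2 : ∀ p, ((X : k[X]) ^ (b + δ) ∣ X ^ b * p ↔ X ^ δ ∣ p) := by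
    intro p
    rw [pow_add, mul_dvd_mul_iff_left (hX b)]
  constructor
  · intro h
    refine ⟨?_, ?_, ?_⟩
    · have := h 0 1
      simpa [h2] using this
    · have := h 0 2
      change X ^ (b + δ) ∣ X ^ 1 * P 0 2 at this
      rwa [h3 _ _ (by omega)] at this
    · have := h 1 2
      change X ^ b ∣ X ^ 1 * P 1 2 at this
      rwa [h3 _ _ hb] at this
  · rintro ⟨h01, h02, h12⟩ i j
    have hle : ∀ e e' : ℕ, e ≤ e' → ∀ p : k[X], X ^ e ∣ X ^ e' * p := fun e e' he p =>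
      (pow_dvd_pow X he).mul_right p
    fin_cases i <;> fin_cases j
    · exact hle _ _ le_rfl _
    · show X ^ (b + δ) ∣ X ^ b * P 0 1
      rwa [h2]
    · show X ^ (b + δ) ∣ X ^ 1 * P 0 2
      rwa [h3 _ _ (by omega)]
    · exact hle _ _ (by simp) _
    · exact hle _ _ le_rfl _
    · show X ^ b ∣ X ^ 1 * P 1 2
      rwa [h3 _ _ hb]
    · exact hle _ _ (show 1 ≤ b + δ by omega) _
    · exact hle _ _ (show 1 ≤ b from hb) _
    · exact hle _ _ le_rfl _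

theorem adm_mx (hb : 1 ≤ b) (c f q r : k[X]) (t u g h : k) :
    Adm ![b + δ, b, 1] (Mx b δ c f q r t u g h) := by
  rw [adm_iff _ hb]
  exact ⟨Dvd.intro _ rfl, Dvd.intro _ rfl, Dvd.intro _ rfl⟩

theorem exists_mx (hA : Bl A w b δ) (hb : 1 ≤ b) (c f q r : k[X]) (t u g h : k) :
    ∃ B, Rep A w B (Mx b δ c f q r t u g h) :=
  exists_of_rep hA _ (adm_mx hb _ _ _ _ _ _ _ _)

theorem ker_iff (P : Matrix (Fin 3) (Fin 3) k[X]) :
    Ker ![b + δ, b, 1] P ↔ (X ^ (b + δ) ∣ P 0 0 ∧ X ^ (b + δ) ∣ P 0 1 ∧ X ^ (b + δ) ∣ P 0 2) ∧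
      (X ^ b ∣ P 1 0 ∧ X ^ b ∣ P 1 1 ∧ X ^ b ∣ P 1 2) ∧
      (X ∣ P 2 0 ∧ X ∣ P 2 1 ∧ X ∣ P 2 2) := by
  constructor
  · intro h
    refine ⟨⟨h 0 0, h 0 1, h 0 2⟩, ⟨h 1 0, h 1 1, h 1 2⟩, ?_, ?_, ?_⟩
    · simpa using h 2 0
    · simpa using h 2 1
    · simpa using h 2 2
  · rintro ⟨⟨h00, h01, h02⟩, ⟨h10, h11, h12⟩, h20, h21, h22⟩ i j
    fin_cases i <;> fin_cases j
    · exact h00
    · exact h01
    · exact h02
    · exact h10
    · exact h11
    · exact h12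
    · simpa using h20
    · simpa using h21
    · simpa using h22

theorem dvd_X_C_mul_iff {e : ℕ} {p : k[X]} :
    X ^ (e + 1) ∣ X ^ e * p ↔ p.coeff 0 = 0 := by
  rw [pow_succ, mul_dvd_mul_iff_left (pow_ne_zero e X_ne_zero), X_dvd_iff]

/-- two matrices of this form commute if and only if the relations hold -/
theorem comm_mx (hA : Bl A w b δ) (hb : 2 ≤ b) {B C' : Matrix (Fin N) (Fin N) k}
    {f q r f' q' r' : k[X]} {t u g h t' u' g' h' : k} (hq : X ∣ q) (hq' : X ∣ q')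
    (hB : Rep A w B (Mx b δ 0 f q r t u g h)) (hC : Rep A w C' (Mx b δ 0 f' q' r' t' u' g' h')) :
    B * C' = C' * B ↔ Rels b δ f q r t u g h f' q' r' t' u' g' h' := by
  rw [comm_iff hA hB hC, ker_iff]
  obtain ⟨b', rfl⟩ : ∃ b', b = b' + 1 + 1 := ⟨b - 2, by omega⟩
  have hb1 : b' + 1 + 1 - 1 = b' + 1 := by omega
  have hb2 : b' + 1 + 1 + δ - 1 = δ + (b' + 1) := by omega
  have hb3 : b' + 1 + 1 + δ = δ + (b' + 1 + 1) := by omega
  have hX : ∀ e : ℕ, (X : k[X]) ^ e ≠ 0 := fun e => pow_ne_zero e X_ne_zero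
  have e00 : (Mx (b' + 1 + 1) δ 0 f q r t u g h * Mx (b' + 1 + 1) δ 0 f' q' r' t' u' g' h' -
      Mx (b' + 1 + 1) δ 0 f' q' r' t' u' g' h' * Mx (b' + 1 + 1) δ 0 f q r t u g h) 0 0 =
      X ^ δ * ((f * r' - f' * r) + X ^ (b' + 1) * C (g * t' - g' * t)) := by
    simp only [Mx, hb1, hb2, Matrix.sub_apply, Matrix.mul_apply, Fin.sum_univ_three]
    simp
    ring
  have e01 : (Mx (b' + 1 + 1) δ 0 f q r t u g h * Mx (b' + 1 + 1) δ 0 f' q' r' t' u' g' h' -
      Mx (b' + 1 + 1) δ 0 f' q' r' t' u' g' h' * Mx (b' + 1 + 1) δ 0 f q r t u g h) 0 1 =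
      X ^ δ * ((f * q' - f' * q) + X ^ (b' + 1) * C (g * u' - g' * u)) := by
    simp only [Mx, hb1, hb2, Matrix.sub_apply, Matrix.mul_apply, Fin.sum_univ_three]
    simp
    ring
  have e02 : (Mx (b' + 1 + 1) δ 0 f q r t u g h * Mx (b' + 1 + 1) δ 0 f' q' r' t' u' g' h' -
      Mx (b' + 1 + 1) δ 0 f' q' r' t' u' g' h' * Mx (b' + 1 + 1) δ 0 f q r t u g h) 0 2 =
      X ^ (δ + (b' + 1)) * (f * C h' - f' * C h) := by
    simp only [Mx, hb1, hb2, Matrix.sub_apply, Matrix.mul_apply, Fin.sum_univ_three]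
    simp
    ring
  have e10 : (Mx (b' + 1 + 1) δ 0 f q r t u g h * Mx (b' + 1 + 1) δ 0 f' q' r' t' u' g' h' -
      Mx (b' + 1 + 1) δ 0 f' q' r' t' u' g' h' * Mx (b' + 1 + 1) δ 0 f q r t u g h) 1 0 =
      (q * r' - q' * r) + X ^ (b' + 1) * C (h * t' - h' * t) := by
    simp only [Mx, hb1, hb2, Matrix.sub_apply, Matrix.mul_apply, Fin.sum_univ_three]
    simp
    ring
  have e11 : (Mx (b' + 1 + 1) δ 0 f q r t u g h * Mx (b' + 1 + 1) δ 0 f' q' r' t' u' g' h' -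
      Mx (b' + 1 + 1) δ 0 f' q' r' t' u' g' h' * Mx (b' + 1 + 1) δ 0 f q r t u g h) 1 1 =
      X ^ δ * (r * f' - r' * f) + X ^ (b' + 1) * C (h * u' - h' * u) := by
    simp only [Mx, hb1, hb2, Matrix.sub_apply, Matrix.mul_apply, Fin.sum_univ_three]
    simp
    ring
  have e12 : (Mx (b' + 1 + 1) δ 0 f q r t u g h * Mx (b' + 1 + 1) δ 0 f' q' r' t' u' g' h' -
      Mx (b' + 1 + 1) δ 0 f' q' r' t' u' g' h' * Mx (b' + 1 + 1) δ 0 f q r t u g h) 1 2 =
      X ^ (b' + 1) * (X ^ δ * (r * C g' - r' * C g) + (q * C h' - q' * C h)) := by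
    simp only [Mx, hb1, hb2, Matrix.sub_apply, Matrix.mul_apply, Fin.sum_univ_three]
    simp
    ring
  have e20 : (Mx (b' + 1 + 1) δ 0 f q r t u g h * Mx (b' + 1 + 1) δ 0 f' q' r' t' u' g' h' -
      Mx (b' + 1 + 1) δ 0 f' q' r' t' u' g' h' * Mx (b' + 1 + 1) δ 0 f q r t u g h) 2 0 =
      C u * r' - C u' * r := by
    simp only [Mx, hb1, hb2, Matrix.sub_apply, Matrix.mul_apply, Fin.sum_univ_three]
    simp
  have e21 : (Mx (b' + 1 + 1) δ 0 f q r t u g h * Mx (b' + 1 + 1) δ 0 f' q' r' t' u' g' h' -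
      Mx (b' + 1 + 1) δ 0 f' q' r' t' u' g' h' * Mx (b' + 1 + 1) δ 0 f q r t u g h) 2 1 =
      X ^ δ * (C t * f' - C t' * f) + (C u * q' - C u' * q) := by
    simp only [Mx, hb1, hb2, Matrix.sub_apply, Matrix.mul_apply, Fin.sum_univ_three]
    simp
    ring
  have e22 : (Mx (b' + 1 + 1) δ 0 f q r t u g h * Mx (b' + 1 + 1) δ 0 f' q' r' t' u' g' h' -
      Mx (b' + 1 + 1) δ 0 f' q' r' t' u' g' h' * Mx (b' + 1 + 1) δ 0 f q r t u g h) 2 2 =
      X * (X ^ b' * (X ^ δ * (C t * C g' - C t' * C g) + (C u * C h' - C u' * C h))) := by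
    simp only [Mx, hb1, hb2, Matrix.sub_apply, Matrix.mul_apply, Fin.sum_univ_three]
    simp
    ring
  rw [e00, e01, e02, e10, e11, e12, e20, e21, e22, hb3]
  have hd : ∀ p : k[X], X ^ (δ + (b' + 1 + 1)) ∣ X ^ δ * p ↔ X ^ (b' + 1 + 1) ∣ p := by
    intro p
    rw [pow_add, mul_dvd_mul_iff_left (hX δ)]
  have hd2 : ∀ p : k[X], X ^ (δ + (b' + 1 + 1)) ∣ X ^ (δ + (b' + 1)) * p ↔ p.coeff 0 = 0 := by
    intro p
    rw [← add_assoc δ (b' + 1) 1]
    exact dvd_X_C_mul_iff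
  have hd3 : ∀ p : k[X], X ^ (b' + 1 + 1) ∣ X ^ (b' + 1) * p ↔ p.coeff 0 = 0 := by
    intro p
    exact dvd_X_C_mul_iff
  rw [hd, hd, hd2, hd3, X_dvd_iff, X_dvd_iff]
  have hq0 : q.coeff 0 = 0 := X_dvd_iff.1 hq
  have hq0' : q'.coeff 0 = 0 := X_dvd_iff.1 hq'
  have c02 : (f * C h' - f' * C h).coeff 0 = f.coeff 0 * h' - f'.coeff 0 * h := by
    rw [coeff_sub, mul_coeff_zero, mul_coeff_zero, coeff_C_zero, coeff_C_zero]
  have c20 : (C u * r' - C u' * r).coeff 0 = u * r'.coeff 0 - u' * r.coeff 0 := by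
    rw [coeff_sub, mul_coeff_zero, mul_coeff_zero, coeff_C_zero, coeff_C_zero]
  have c12 : (X ^ δ * (r * C g' - r' * C g) + (q * C h' - q' * C h)).coeff 0 =
      (X ^ δ : k[X]).coeff 0 * (r.coeff 0 * g' - r'.coeff 0 * g) := by
    simp only [coeff_sub, coeff_add, mul_coeff_zero, coeff_C_zero, hq0, hq0']
    ring
  have c21 : (X ^ δ * (C t * f' - C t' * f) + (C u * q' - C u' * q)).coeff 0 =
      (X ^ δ : k[X]).coeff 0 * (t * f'.coeff 0 - t' * f.coeff 0) := by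
    simp only [coeff_sub, coeff_add, mul_coeff_zero, coeff_C_zero, hq0, hq0']
    ring
  rw [c02, c20, c12, c21]
  have hcoef : (X ^ δ : k[X]).coeff 0 = if δ = 0 then 1 else 0 := by
    rw [coeff_X_pow]
    by_cases hδ : δ = 0
    · rw [if_pos hδ.symm, if_pos hδ]
    · rw [if_neg (fun h => hδ h.symm), if_neg hδ]
  rw [hcoef]
  constructor
  · rintro ⟨⟨h1, h2, h3⟩, ⟨h4, h5, h6⟩, h7, h8, -⟩
    refine ⟨h1, h2, h4, h5, ?_, ?_, ?_, ?_⟩
    · linear_combination h7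
    · linear_combination -h3
    · intro hδ
      rw [if_pos hδ, one_mul] at h8
      linear_combination h8
    · intro hδ
      rw [if_pos hδ, one_mul] at h6
      linear_combination -h6
  · rintro ⟨h1, h2, h4, h5, h7, h3, h8, h6⟩
    refine ⟨⟨h1, h2, ?_⟩, ⟨h4, h5, ?_⟩, ?_, ?_, Dvd.intro _ rfl⟩
    · linear_combination -h3
    · by_cases hδ : δ = 0
      · rw [if_pos hδ, one_mul]
        linear_combination -(h6 hδ)
      · rw [if_neg hδ, zero_mul]
    · linear_combination h7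
    · by_cases hδ : δ = 0
      · rw [if_pos hδ, one_mul]
        linear_combination h8 hδ
      · rw [if_neg hδ, zero_mul]

/-- nilpotency -/
theorem nilp_mx (hA : Bl A w b δ) (hb : 2 ≤ b) {B : Matrix (Fin N) (Fin N) k}
    {c f q r : k[X]} {t u g h : k} (hc : X ∣ c) (hq : X ∣ q)
    (hfr : δ = 0 → f.coeff 0 * r.coeff 0 = 0) (hB : Rep A w B (Mx b δ c f q r t u g h)) :
    IsNilpotent B := by
  refine nilp_const hA hB (e := 3) ?_
  let ev : k[X] →+* k := evalRingHom 0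
  have hev : ∀ p : k[X], X ∣ p ↔ ev p = 0 := fun p => by
    rw [X_dvd_iff, coeff_zero_eq_eval_zero]
    rfl
  have hev' : ∀ p : k[X], ev p = p.coeff 0 := fun p => by
    rw [coeff_zero_eq_eval_zero]
    rfl
  set P := Mx b δ c f q r t u g h with hP
  have h1 : ∀ i j, ev (P i j) = (!![0, (X ^ δ : k[X]).coeff 0 * f.coeff 0, 0;
      r.coeff 0, 0, 0; t, u, 0] : Matrix (Fin 3) (Fin 3) k) i j := by
    have hc0 : c.coeff 0 = 0 := X_dvd_iff.1 hc
    have hq0 : q.coeff 0 = 0 := X_dvd_iff.1 hq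
    have hx : ∀ e : ℕ, e ≠ 0 → ((X : k[X]) ^ e).coeff 0 = 0 := fun e he => by
      rw [coeff_X_pow, if_neg (fun h => he h.symm)]
    intro i j
    rw [hev']
    fin_cases i <;> fin_cases j
    · simpa [hP, Mx] using hc0
    · simp [hP, Mx, mul_coeff_zero]
    · show (X ^ (b + δ - 1) * C g : k[X]).coeff 0 = 0
      rw [mul_coeff_zero, hx _ (by omega), zero_mul]
    · simp [hP, Mx]
    · simpa [hP, Mx] using hq0
    · show (X ^ (b - 1) * C h : k[X]).coeff 0 = 0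
      rw [mul_coeff_zero, hx _ (by omega), zero_mul]
    · simp [hP, Mx]
    · simp [hP, Mx]
    · simp [hP, Mx]
  have h2 : (X ^ δ : k[X]).coeff 0 * f.coeff 0 * r.coeff 0 = 0 := by
    by_cases hδ : δ = 0
    · rw [mul_assoc, hfr hδ, mul_zero]
    · rw [coeff_X_pow, if_neg (fun h => hδ h.symm), zero_mul, zero_mul]
  intro i j
  rw [hev, pow_succ, pow_two, Matrix.mul_apply, map_sum]
  have h3 : ∀ x, ev ((P * P) i x * P x j) = ∑ y, ev (P i y) * ev (P y x) * ev (P x j) := by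
    intro x
    rw [map_mul, Matrix.mul_apply, map_sum, Finset.sum_mul]
    refine Finset.sum_congr rfl fun y _ => ?_
    rw [map_mul]
  simp only [h3, h1, Fin.sum_univ_three]
  generalize hφ : (X ^ δ : k[X]).coeff 0 * f.coeff 0 = φ at h2 ⊢
  rcases mul_eq_zero.1 h2 with h | h
  · rw [h]
    fin_cases i <;> fin_cases j <;> simp
  · rw [h]
    fin_cases i <;> fin_cases j <;> simp

/-- constant terms -/
theorem coeff_of_dvd {e : ℕ} (he : 1 ≤ e) {p : k[X]} (hp : X ^ e ∣ p) : p.coeff 0 = 0 :=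
  X_dvd_iff.1 ((dvd_pow_self X (by omega)).trans hp)

/-- a nilpotent matrix commuting with `A` is of the form `Mx` -/
theorem mx_of_comm (hA : Bl A w b δ) (hb : 2 ≤ b) {B : Matrix (Fin N) (Fin N) k}
    (hAB : A * B = B * A) (hB : IsNilpotent B) :
    ∃ (c f q r : k[X]) (t u g h : k), Rep A w B (Mx b δ c f q r t u g h) := by
  obtain ⟨P, hP, hPA⟩ := rep_of_comm hA hAB
  rw [adm_iff _ (by omega)] at hPA
  obtain ⟨⟨f, hf⟩, ⟨g, hg⟩, h, hh⟩ := hPA
  -- the last diagonal entry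
  have h22 : (P 2 2).coeff 0 = 0 := by
    obtain ⟨e, he⟩ := hB
    have h1 := ((hP.pow e).eq_zero_iff hA).1 he
    have key : ∀ i : ℕ, ((P ^ i) 2 2).coeff 0 = (P 2 2).coeff 0 ^ i ∧
        ((P ^ i) 0 2).coeff 0 = 0 ∧ ((P ^ i) 1 2).coeff 0 = 0 := by
      intro i
      have p02 : (P 0 2).coeff 0 = 0 := by
        rw [hg, mul_coeff_zero, coeff_X_pow, if_neg (by omega), zero_mul]
      have p12 : (P 1 2).coeff 0 = 0 := by
        rw [hh, mul_coeff_zero, coeff_X_pow, if_neg (by omega), zero_mul]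
      induction i with
      | zero => refine ⟨?_, ?_, ?_⟩ <;> simp
      | succ i ih =>
        obtain ⟨i1, i2, i3⟩ := ih
        rw [pow_succ']
        refine ⟨?_, ?_, ?_⟩
        · rw [Matrix.mul_apply, Fin.sum_univ_three]
          simp only [coeff_add, mul_coeff_zero, i1, i2, i3, pow_succ']
          ring
        · rw [Matrix.mul_apply, Fin.sum_univ_three]
          simp only [coeff_add, mul_coeff_zero, i2, i3, p02]
          ring
        · rw [Matrix.mul_apply, Fin.sum_univ_three]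
          simp only [coeff_add, mul_coeff_zero, i2, i3, p12]
          ring
    have h2 : ((P ^ e) 2 2).coeff 0 = 0 := coeff_of_dvd le_rfl (h1 2 2)
    rw [(key e).1] at h2
    have he0 : e ≠ 0 := by
      rintro rfl
      rw [pow_zero] at h2
      exact one_ne_zero h2
    exact (pow_eq_zero_iff he0).1 h2
  refine ⟨P 0 0, f, P 1 1, P 1 0, (P 2 0).coeff 0, (P 2 1).coeff 0, g.coeff 0, h.coeff 0,
    hP.of_ker hA ?_⟩
  have hC : ∀ p : k[X], X ∣ p - C (p.coeff 0) := fun p => by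
    rw [X_dvd_iff, coeff_sub, coeff_C_zero, sub_self]
  have hC' : ∀ (e : ℕ) (p : k[X]), 1 ≤ e → X ^ e ∣ X ^ (e - 1) * p - X ^ (e - 1) * C (p.coeff 0) := by
    intro e p he
    obtain ⟨e', rfl⟩ : ∃ e', e = e' + 1 := ⟨e - 1, by omega⟩
    rw [← mul_sub, Nat.add_sub_cancel, pow_succ]
    exact mul_dvd_mul_left _ (hC p)
  rw [ker_iff]
  refine ⟨⟨?_, ?_, ?_⟩, ⟨?_, ?_, ?_⟩, ?_, ?_, ?_⟩
  · simp [Mx]
  · simp [Mx, hf]
  · show X ^ (b + δ) ∣ P 0 2 - X ^ (b + δ - 1) * C (g.coeff 0)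
    rw [hg]
    exact hC' _ _ (by omega)
  · simp [Mx]
  · simp [Mx]
  · show X ^ b ∣ P 1 2 - X ^ (b - 1) * C (h.coeff 0)
    rw [hh]
    exact hC' _ _ (by omega)
  · exact hC _
  · exact hC _
  · show X ∣ P 2 2 - 0
    rw [sub_zero, X_dvd_iff, h22]

/-- the constant terms of a nilpotent matrix -/
theorem const_of_nilp (hA : Bl A w b δ) (hb : 2 ≤ b) {B : Matrix (Fin N) (Fin N) k}
    {c f q r : k[X]} {t u g h : k} (hR : Rep A w B (Mx b δ c f q r t u g h))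
    (hB : IsNilpotent B) : (!![c.coeff 0, (X ^ δ : k[X]).coeff 0 * f.coeff 0;
      r.coeff 0, q.coeff 0] : Matrix (Fin 2) (Fin 2) k) ^ 2 = 0 := by
  obtain ⟨e, he⟩ := hB
  have h1 := ((hR.pow e).eq_zero_iff hA).1 he
  set M : Matrix (Fin 2) (Fin 2) k := !![c.coeff 0, (X ^ δ : k[X]).coeff 0 * f.coeff 0;
      r.coeff 0, q.coeff 0] with hM
  set P := Mx b δ c f q r t u g h with hP
  have p02 : (P 0 2).coeff 0 = 0 := by
    show (X ^ (b + δ - 1) * C g : k[X]).coeff 0 = 0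
    rw [mul_coeff_zero, coeff_X_pow, if_neg (by omega), zero_mul]
  have p12 : (P 1 2).coeff 0 = 0 := by
    show (X ^ (b - 1) * C h : k[X]).coeff 0 = 0
    rw [mul_coeff_zero, coeff_X_pow, if_neg (by omega), zero_mul]
  have m00 : (P 0 0).coeff 0 = M 0 0 := rfl
  have m01 : (P 0 1).coeff 0 = M 0 1 := by
    show (X ^ δ * f : k[X]).coeff 0 = _
    rw [mul_coeff_zero]
    rfl
  have m10 : (P 1 0).coeff 0 = M 1 0 := rfl
  have m11 : (P 1 1).coeff 0 = M 1 1 := rfl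
  have key : ∀ i : ℕ, ((P ^ i) 0 0).coeff 0 = (M ^ i) 0 0 ∧ ((P ^ i) 0 1).coeff 0 = (M ^ i) 0 1 ∧
      ((P ^ i) 1 0).coeff 0 = (M ^ i) 1 0 ∧ ((P ^ i) 1 1).coeff 0 = (M ^ i) 1 1 := by
    intro i
    induction i with
    | zero => refine ⟨?_, ?_, ?_, ?_⟩ <;> simp
    | succ i ih =>
      obtain ⟨i1, i2, i3, i4⟩ := ih
      rw [pow_succ', pow_succ']
      refine ⟨?_, ?_, ?_, ?_⟩
      · rw [Matrix.mul_apply, Matrix.mul_apply, Fin.sum_univ_three, Fin.sum_univ_two]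
        simp only [coeff_add, mul_coeff_zero, i1, i3, p02, m00, m01]
        ring
      · rw [Matrix.mul_apply, Matrix.mul_apply, Fin.sum_univ_three, Fin.sum_univ_two]
        simp only [coeff_add, mul_coeff_zero, i2, i4, p02, m00, m01]
        ring
      · rw [Matrix.mul_apply, Matrix.mul_apply, Fin.sum_univ_three, Fin.sum_univ_two]
        simp only [coeff_add, mul_coeff_zero, i1, i3, p12, m10, m11]
        ring
      · rw [Matrix.mul_apply, Matrix.mul_apply, Fin.sum_univ_three, Fin.sum_univ_two]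
        simp only [coeff_add, mul_coeff_zero, i2, i4, p12, m10, m11]
        ring
  have hMe : M ^ e = 0 := by
    obtain ⟨k1, k2, k3, k4⟩ := key e
    refine Matrix.ext fun i j => ?_
    have d00 := coeff_of_dvd (show 1 ≤ b + δ by omega) (h1 0 0)
    have d01 := coeff_of_dvd (show 1 ≤ b + δ by omega) (h1 0 1)
    have d10 := coeff_of_dvd (show 1 ≤ b by omega) (h1 1 0)
    have d11 := coeff_of_dvd (show 1 ≤ b by omega) (h1 1 1)
    fin_cases i <;> fin_cases j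
    · show (M ^ e) 0 0 = 0
      rw [← k1]; exact d00
    · show (M ^ e) 0 1 = 0
      rw [← k2]; exact d01
    · show (M ^ e) 1 0 = 0
      rw [← k3]; exact d10
    · show (M ^ e) 1 1 = 0
      rw [← k4]; exact d11
  have h3 := pow_card_eq_zero (M := M) ⟨e, hMe⟩
  rwa [Fintype.card_fin] at h3

/-- subtraction of a polynomial in `A` -/
theorem mx_sub (hA : Bl A w b δ) {B : Matrix (Fin N) (Fin N) k} {c f q r : k[X]} {t u g h : k}
    (hR : Rep A w B (Mx b δ c f q r t u g h)) (p : k[X]) (hp : X ∣ p) :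
    Rep A w (B - aeval A p) (Mx b δ (c - p) f (q - p) r t u g h) := by
  refine (hR.sub (Rep.aeval p)).of_ker hA ?_
  rw [ker_iff]
  refine ⟨⟨?_, ?_, ?_⟩, ⟨?_, ?_, ?_⟩, ?_, ?_, ?_⟩
  · simp [Mx]
  · simp [Mx]
  · simp [Mx]
  · simp [Mx]
  · simp [Mx]
  · simp [Mx]
  · simp [Mx]
  · simp [Mx]
  · simpa [Mx] using hp

/-- linear combinations -/
theorem mx_add_smul {B B' : Matrix (Fin N) (Fin N) k}
    {c f q r c' f' q' r' : k[X]} {t u g h t' u' g' h' : k}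
    (hR : Rep A w B (Mx b δ c f q r t u g h)) (hR' : Rep A w B' (Mx b δ c' f' q' r' t' u' g' h'))
    (s : k) : Rep A w (B + s • B') (Mx b δ (c + C s * c') (f + C s * f') (q + C s * q')
      (r + C s * r') (t + s * t') (u + s * u') (g + s * g') (h + s * h')) := by
  refine (hR.add (hR'.smul s)).congr ?_
  refine Matrix.ext fun i j => ?_
  have hs : ∀ p : k[X], s • p = C s * p := fun p => by rw [smul_eq_C_mul]
  fin_cases i <;> fin_cases j
  · show c + s • c' = _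
    rw [hs]; rfl
  · show X ^ δ * f + s • (X ^ δ * f') = X ^ δ * (f + C s * f')
    rw [hs]; ring
  · show X ^ (b + δ - 1) * C g + s • (X ^ (b + δ - 1) * C g') = X ^ (b + δ - 1) * C (g + s * g')
    rw [hs, C_add, C_mul]; ring
  · show r + s • r' = _
    rw [hs]; rfl
  · show q + s • q' = _
    rw [hs]; rfl
  · show X ^ (b - 1) * C h + s • (X ^ (b - 1) * C h') = X ^ (b - 1) * C (h + s * h')
    rw [hs, C_add, C_mul]; ring
  · show C t + s • C t' = C (t + s * t')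
    rw [hs, C_add, C_mul]
  · show C u + s • C u' = C (u + s * u')
    rw [hs, C_add, C_mul]
  · show (0 : k[X]) + s • 0 = 0
    rw [smul_zero, add_zero]

/-- subtraction of a multiple of another matrix -/
theorem mx_sub_mul (hA : Bl A w b δ) (hb : 1 ≤ b) {B B' : Matrix (Fin N) (Fin N) k}
    {c f q r c' f' q' r' : k[X]} {t u g h t' u' g' h' : k}
    (hR : Rep A w B (Mx b δ c f q r t u g h)) (hR' : Rep A w B' (Mx b δ c' f' q' r' t' u' g' h'))
    (p : k[X]) : Rep A w (B' - aeval A p * B) (Mx b δ (c' - p * c) (f' - p * f) (q' - p * q)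
      (r' - p * r) (t' - p.coeff 0 * t) (u' - p.coeff 0 * u) (g' - p.coeff 0 * g)
      (h' - p.coeff 0 * h)) := by
  refine (hR'.sub (hR.polysmul p)).of_ker hA ?_
  obtain ⟨p', hp'⟩ : ∃ p', p = C (p.coeff 0) + X * p' := by
    have : X ∣ p - C (p.coeff 0) := by
      rw [X_dvd_iff, coeff_sub, coeff_C_zero, sub_self]
    obtain ⟨p', h⟩ := this
    exact ⟨p', by linear_combination h⟩
  generalize hs : p.coeff 0 = s at hp' ⊢
  subst hp'
  have h1 : (X : k[X]) ^ (b + δ) = X ^ (b + δ - 1) * X := by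
    rw [← pow_succ]
    congr 1
    omega
  have h2 : (X : k[X]) ^ b = X ^ (b - 1) * X := by
    rw [← pow_succ]
    congr 1
    omega
  rw [ker_iff]
  refine ⟨⟨?_, ?_, ?_⟩, ⟨?_, ?_, ?_⟩, ?_, ?_, ?_⟩
  · simp [Mx]
  · have : (Mx b δ c' f' q' r' t' u' g' h' - (C s + X * p') • Mx b δ c f q r t u g h -
        Mx b δ (c' - (C s + X * p') * c) (f' - (C s + X * p') * f) (q' - (C s + X * p') * q)
        (r' - (C s + X * p') * r) (t' - s * t) (u' - s * u) (g' - s * g) (h' - s * h)) 0 1 = 0 := by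
      simp [Mx]
      ring
    rw [this]
    exact dvd_zero _
  · refine ⟨-(p' * C g), ?_⟩
    rw [h1]
    simp [Mx]
    ring
  · simp [Mx]
  · simp [Mx]
  · refine ⟨-(p' * C h), ?_⟩
    rw [h2]
    simp [Mx]
    ring
  · refine ⟨-(p' * C t), ?_⟩
    simp [Mx]
    ring
  · refine ⟨-(p' * C u), ?_⟩
    simp [Mx]
    ring
  · simp [Mx]

end PB

end Pool.Agent.Lib.D13
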