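import Pool.Agent.Lib.D13.Ab1S

/-!
# MP_5dcbc3_ag: Jordan blocks of sizes `b + δ`, `b`, `1`: the case `r(0) ≠ 0`

Normal form `B : e1 -> e2`, `e2 -> X^δ f e1 + X q e2 + u p`, `p -> g s1 + h s2`,
`C : e1 -> t' p`, `e2 -> t' g s1 + t' h s2`, `p -> g' s1 + h' s2`, with the relations
`f(0) t' h = g' u`, `[δ = 0] g t' = h' u`, `f(0) h' = 0`, `[δ = 0] f(0) = 0, g' = 0`. For `u ≠ 0` the matrix
`C` is a polynomial in `A` and `B`; the other triples with `f(0) ≠ 0` or `δ = 0` are limits along lines.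
-/

namespace Pool.Agent.Lib.D13

open Matrix Polynomial Pool.Agent.Lib.Q5dc Pool.Agent.Lib.D7 Pool.Agent.Lib.D8

namespace PB

namespace AlphaAux

variable {k : Type*} [Field k] {N : ℕ} {A : Matrix (Fin N) (Fin N) k} {w : Fin 3 → Fin N → k}
  {b δ : ℕ}

/-- the normal form of the case `r(0) ≠ 0` -/
def NF (A : Matrix (Fin N) (Fin N) k) (w : Fin 3 → Fin N → k) (b δ : ℕ) (f q : k[X])
    (u g h t' g' h' : k) : Prop :=
  ∀ B C' : Matrix (Fin N) (Fin N) k, Rep A w B (Mx b δ 0 f (X * q) 1 0 u g h) →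
    Rep A w C' (Mx b δ 0 (X ^ (b - 1) * C (t' * g)) (X ^ (b - 1) * C (t' * h)) 0 t' 0 g' h') →
    Cl ![A, B, C']

theorem nf_u [IsAlgClosed k] [CharZero k] (hA : Bl A w b δ) (hb : 4 ≤ b) (hP : PairS k b δ)
    {f q : k[X]} {u g h t' g' h' : k} (hf : δ = 0 → f.coeff 0 = 0) (hu : u ≠ 0)
    (r1 : f.coeff 0 * (t' * h) = g' * u) (r2 : (X ^ δ : k[X]).coeff 0 * (g * t') = h' * u) :
    NF A w b δ f q u g h t' g' h' := by
  intro B C' hB hC
  have hAB := comm_A hA hB
  have hN : IsNilpotent B := nilp_mx hA (by omega) (dvd_zero X) (dvd_mul_right X q)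
    (fun hδ => by rw [hf hδ, zero_mul]) hB
  have hcl := hP N A B w hA hAB hN
  have hXf : (X ^ δ * f : k[X]).coeff 0 = 0 := by
    rw [mul_coeff_zero, coeff_X_pow]
    by_cases hδ : δ = 0
    · rw [hf hδ, mul_zero]
    · rw [if_neg (fun h => hδ h.symm), zero_mul]
  have hcu : (C (t' / u) * C u : k[X]) = C t' := by rw [← C_mul, div_mul_cancel₀ _ hu]
  have key : C' = (t' / u) • (B * B - aeval A (X * q) * B - aeval A (X ^ δ * f)) := by
    have hR := (((hB.mul hB).sub (hB.polysmul (X * q))).sub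
      (Rep.aeval (X ^ δ * f))).smul (t' / u)
    refine (hC.eq_iff hA hR).2 ?_
    rw [ker_iff]
    obtain ⟨b', rfl⟩ : ∃ b', b = b' + 1 + 1 := ⟨b - 2, by omega⟩
    have hb1 : b' + 1 + 1 - 1 = b' + 1 := by omega
    have hb2 : b' + 1 + 1 + δ - 1 = δ + (b' + 1) := by omega
    have hb3 : b' + 1 + 1 + δ = δ + (b' + 1) + 1 := by omega
    have hs : ∀ (c : k) (p : k[X]), c • p = C c * p := fun c p => by rw [smul_eq_C_mul]
    set M := Mx (b' + 1 + 1) δ 0 (X ^ (b' + 1 + 1 - 1) * C (t' * g))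
      (X ^ (b' + 1 + 1 - 1) * C (t' * h)) 0 t' 0 g' h' -
      (t' / u) • (Mx (b' + 1 + 1) δ 0 f (X * q) 1 0 u g h *
        Mx (b' + 1 + 1) δ 0 f (X * q) 1 0 u g h -
        (X * q) • Mx (b' + 1 + 1) δ 0 f (X * q) 1 0 u g h -
        (X ^ δ * f) • (1 : Matrix (Fin 3) (Fin 3) k[X])) with hM
    have e00 : M 0 0 = 0 := by
      simp only [hM, Mx, hb1, hb2, Matrix.sub_apply, Matrix.smul_apply, Matrix.mul_apply,
        Fin.sum_univ_three, hs]
      simp
    have e01 : M 0 1 = 0 := by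
      simp only [hM, Mx, hb1, hb2, Matrix.sub_apply, Matrix.smul_apply, Matrix.mul_apply,
        Fin.sum_univ_three, hs]
      simp
      linear_combination -(X ^ (δ + (b' + 1)) * C g) * hcu
    have e02 : M 0 2 = X ^ (δ + (b' + 1)) * (C g' - C (t' / u) * (f * C h - X * q * C g)) := by
      simp only [hM, Mx, hb1, hb2, Matrix.sub_apply, Matrix.smul_apply, Matrix.mul_apply,
        Fin.sum_univ_three, hs]
      simp
      ring
    have e10 : M 1 0 = 0 := by
      simp only [hM, Mx, hb1, hb2, Matrix.sub_apply, Matrix.smul_apply, Matrix.mul_apply,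
        Fin.sum_univ_three, hs]
      simp
    have e11 : M 1 1 = 0 := by
      simp only [hM, Mx, hb1, hb2, Matrix.sub_apply, Matrix.smul_apply, Matrix.mul_apply,
        Fin.sum_univ_three, hs]
      simp
      linear_combination -(X ^ (b' + 1) * C h) * hcu
    have e12 : M 1 2 = X ^ (b' + 1) * (C h' - C (t' / u) * (X ^ δ * C g)) := by
      simp only [hM, Mx, hb1, hb2, Matrix.sub_apply, Matrix.smul_apply, Matrix.mul_apply,
        Fin.sum_univ_three, hs]
      simp
      ring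
    have e20 : M 2 0 = 0 := by
      simp only [hM, Mx, hb1, hb2, Matrix.sub_apply, Matrix.smul_apply, Matrix.mul_apply,
        Fin.sum_univ_three, hs]
      simp
      linear_combination -hcu
    have e21 : M 2 1 = 0 := by
      simp only [hM, Mx, hb1, hb2, Matrix.sub_apply, Matrix.smul_apply, Matrix.mul_apply,
        Fin.sum_univ_three, hs]
      simp
      right
      ring
    have e22 : M 2 2 = - (C (t' / u) * (C u * (X ^ (b' + 1) * C h) - X ^ δ * f)) := by
      simp only [hM, Mx, hb1, hb2, Matrix.sub_apply, Matrix.smul_apply, Matrix.mul_apply,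
        Fin.sum_univ_three, hs]
      simp
    rw [e00, e01, e02, e10, e11, e12, e20, e21, e22]
    refine ⟨⟨dvd_zero _, dvd_zero _, ?_⟩, ⟨dvd_zero _, dvd_zero _, ?_⟩, dvd_zero _, dvd_zero _, ?_⟩
    · rw [hb3, dvd_X_C_mul_iff]
      simp only [coeff_sub, mul_coeff_zero, coeff_C_zero, coeff_X_zero, zero_mul, sub_zero]
      field_simp
      linear_combination -r1
    · rw [dvd_X_C_mul_iff]
      simp only [coeff_sub, mul_coeff_zero, coeff_C_zero]
      field_simp
      linear_combination -r2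
    · rw [X_dvd_iff]
      simp only [coeff_neg, coeff_sub, mul_coeff_zero, coeff_C_zero] at hXf ⊢
      rw [hXf, coeff_X_pow, if_neg (by omega)]
      ring
  have m0 : A ∈ adj ![A, B, 0] := mem_adj ![A, B, 0] 0
  have m1 : B ∈ adj ![A, B, 0] := mem_adj ![A, B, 0] 1
  refine cl_of_adj (T' := ![A, B, 0]) (fun i => ?_) hcl
  fin_cases i
  · exact m0
  · exact m1
  · show C' ∈ adj ![A, B, 0]
    rw [key]
    refine SMulMemClass.smul_mem _ (sub_mem (sub_mem (mul_mem m1 m1) ?_) ?_)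
    · exact Two.aeval_mul_mem m0 m1 _
    · exact Two.aeval_mem m0 _ (X_dvd_iff.2 hXf)

theorem nf_zero (hA : Bl A w b δ) (hb : 4 ≤ b) (hP : PairS k b δ)
    {f q : k[X]} {u g h : k} (hf : δ = 0 → f.coeff 0 = 0) :
    NF A w b δ f q u g h 0 0 0 := by
  intro B C' hB hC
  have hN : IsNilpotent B := nilp_mx hA (by omega) (dvd_zero X) (dvd_mul_right X q)
    (fun hδ => by rw [hf hδ, zero_mul]) hB
  have h0 : C' = 0 := by
    refine (hC.eq_zero_iff hA).2 ?_
    rw [ker_iff]
    simp [Mx]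
  rw [h0]
  exact hP N A B w hA (comm_A hA hB) hN

/-- lines -/
theorem nf_line [Infinite k] (hA : Bl A w b δ) (hb : 4 ≤ b)
    {f q : k[X]} {u g h t' g' h' : k} (du dg dh dt dg' dh' : k) (h1 : dt * dg = 0)
    (h2 : dt * dh = 0)
    (H : ∀ s : k, s ≠ 0 → NF A w b δ f q (u + s * du) (g + s * dg) (h + s * dh) (t' + s * dt)
      (g' + s * dg') (h' + s * dh')) : NF A w b δ f q u g h t' g' h' := by
  intro B C' hB hC
  obtain ⟨D, hD⟩ := exists_mx hA (by omega) (0 : k[X]) 0 0 0 0 du dg dh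
  obtain ⟨E, hE⟩ := exists_mx hA (by omega) (0 : k[X]) (X ^ (b - 1) * C (t' * dg + dt * g))
    (X ^ (b - 1) * C (t' * dh + dt * h)) 0 dt 0 dg' dh'
  refine cl_of_line (D := D) (E := E) (Set.finite_singleton (0 : k)) ?_
  intro s hs
  refine H s hs _ _ ?_ ?_
  · refine (mx_add_smul hB hD s).congr ?_
    congr 1 <;> simp
  · refine (mx_add_smul hC hE s).congr ?_
    congr 1
    · simp
    · rw [mul_left_comm, ← mul_add, ← C_mul, ← C_add]
      congr 2
      linear_combination -s ^ 2 * h1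
    · rw [mul_left_comm, ← mul_add, ← C_mul, ← C_add]
      congr 2
      linear_combination -s ^ 2 * h2
    · simp
    · simp

/-- all normal forms -/
theorem nf_all [IsAlgClosed k] [CharZero k] (hA : Bl A w b δ) (hb : 4 ≤ b) (hP : PairS k b δ)
    (hI : 1 ≤ δ → GenIS k b δ) {f q : k[X]} {u g h t' g' h' : k}
    (hf : δ = 0 → f.coeff 0 = 0) (hg : δ = 0 → g' = 0)
    (r1 : f.coeff 0 * (t' * h) = g' * u) (r2 : (X ^ δ : k[X]).coeff 0 * (g * t') = h' * u)
    (r3 : h' * f.coeff 0 = 0) : NF A w b δ f q u g h t' g' h' := by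
  by_cases hu : u = 0
  swap
  · exact nf_u hA hb hP hf hu r1 r2
  subst hu
  rw [mul_zero] at r1 r2
  rcases Nat.eq_zero_or_pos δ with hδ | hδ
  · -- δ = 0
    have hf0 := hf hδ
    have hg0 := hg hδ
    subst hg0
    have hX : (X ^ δ : k[X]).coeff 0 = 1 := by rw [hδ, pow_zero, coeff_one_zero]
    rw [hX, one_mul] at r2
    -- the case `g ≠ 0`, `t' = 0`
    have case1 : ∀ g h h' : k, g ≠ 0 → NF A w b δ f q 0 g h 0 0 h' := by
      intro g h h' hg0
      refine nf_line hA hb 1 0 0 (h' / g) 0 0 (by ring) (by ring) fun s hs => ?_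
      refine nf_u hA hb hP hf ?_ ?_ ?_
      · simpa using hs
      · rw [hf0]; ring
      · rw [hX]
        field_simp
        ring
    by_cases hgz : g = 0
    · subst hgz
      by_cases ht : t' = 0
      · subst ht
        refine nf_line hA hb 0 1 0 0 0 0 (by ring) (by ring) fun s hs => ?_
        have := case1 (0 + s * 1) (h + s * 0) (h' + s * 0) (by simpa using hs)
        simpa using this
      · refine nf_line hA hb t' h' 0 0 0 0 (by ring) (by ring) fun s hs => ?_
        refine nf_u hA hb hP hf ?_ ?_ ?_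
        · simpa using ⟨hs, ht⟩
        · rw [hf0]; ring
        · rw [hX]; ring
    · have ht : t' = 0 := by
        rcases mul_eq_zero.1 r2 with h | h
        · exact absurd h hgz
        · exact h
      subst ht
      exact case1 g h h' hgz
  · -- δ ≥ 1
    have hX : (X ^ δ : k[X]).coeff 0 = 0 := by
      rw [coeff_X_pow, if_neg (by omega)]
    by_cases hf0 : f.coeff 0 = 0
    · -- family (I)
      obtain ⟨f₁, hf1⟩ := X_dvd_iff.2 hf0
      intro B C' hB hC
      subst hf1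
      exact hI hδ N A B C' w f₁ q t' g h g' h' hA hB hC
    · have hh' : h' = 0 := by
        rcases mul_eq_zero.1 r3 with h | h
        · exact h
        · exact absurd h hf0
      subst hh'
      have case1 : ∀ h : k, h ≠ 0 → NF A w b δ f q 0 g h 0 g' 0 := by
        intro h hh
        refine nf_line hA hb 1 0 0 (g' / (f.coeff 0 * h)) 0 0 (by ring) (by ring) fun s hs => ?_
        refine nf_u hA hb hP hf ?_ ?_ ?_
        · simpa using hs
        · field_simp
          ring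
        · rw [hX]; ring
      by_cases hh : h = 0
      · subst hh
        by_cases ht : t' = 0
        · subst ht
          refine nf_line hA hb 0 0 1 0 0 0 (by ring) (by ring) fun s hs => ?_
          have := case1 (0 + s * 1) (by simpa using hs)
          simpa using this
        · refine nf_line hA hb (f.coeff 0 * t') 0 g' 0 0 0 (by ring) (by ring) fun s hs => ?_
          refine nf_u hA hb hP hf ?_ ?_ ?_
          · simpa using ⟨hs, hf0, ht⟩
          · ring
          · rw [hX]; ring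
      · have ht : t' = 0 := by
          rcases mul_eq_zero.1 r1 with h1 | h1
          · exact absurd h1 hf0
          · rcases mul_eq_zero.1 h1 with h2 | h2
            · exact h2
            · exact absurd h2 hh
        subst ht
        exact case1 h hh

/-- the case `r = 1`, `t = 0`, `r' = 0` -/
theorem cl_one [IsAlgClosed k] [CharZero k] (hA : Bl A w b δ) (hb : 4 ≤ b) (hP : PairS k b δ)
    (hI : 1 ≤ δ → GenIS k b δ) {B C' : Matrix (Fin N) (Fin N) k} {f q f' q' : k[X]}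
    {u g h t' u' g' h' : k} (hB : Rep A w B (Mx b δ 0 f (X * q) 1 0 u g h))
    (hC : Rep A w C' (Mx b δ 0 f' (X * q') 0 t' u' g' h')) (hf : δ = 0 → f.coeff 0 = 0)
    (hBC : B * C' = C' * B) : Cl ![A, B, C'] := by
  have hR := (comm_mx hA (by omega) (dvd_mul_right X q) (dvd_mul_right X q') hB hC).1 hBC
  obtain ⟨b', rfl⟩ : ∃ b', b = b' + 1 + 1 := ⟨b - 2, by omega⟩
  have hb1 : b' + 1 + 1 - 1 = b' + 1 := by omega
  obtain ⟨h11, h12, h21, h22, p1, p1', p2, p2'⟩ := hR
  rw [hb1] at h11 h12 h21 h22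
  have hu' : u' = 0 := by
    rw [coeff_zero, mul_zero, coeff_one_zero, mul_one] at p1
    exact p1.symm
  subst hu'
  -- `f'` and `q'`
  have hf' : X ^ (b' + 1 + 1) ∣ f' - X ^ (b' + 1) * C (t' * g) := by
    have : f' - X ^ (b' + 1) * C (t' * g) = -((f * 0 - f' * 1) + X ^ (b' + 1) *
        C (g * t' - g' * 0)) := by
      simp only [mul_zero, sub_zero, mul_comm g t']
      ring
    rw [this]
    exact h11.neg_right
  have hq' : X ^ (b' + 1 + 1) ∣ X * q' - X ^ (b' + 1) * C (t' * h) := by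
    have : X * q' - X ^ (b' + 1) * C (t' * h) = -((X * q * 0 - X * q' * 1) + X ^ (b' + 1) *
        C (h * t' - h' * 0)) := by
      simp only [mul_zero, sub_zero, mul_comm h t']
      ring
    rw [this]
    exact h21.neg_right
  have hf0 : f'.coeff 0 = 0 := by
    have h1 := coeff_of_dvd (by omega) hf'
    rw [coeff_sub, mul_coeff_zero, coeff_X_pow, if_neg (by omega), zero_mul, sub_zero] at h1
    exact h1
  have hC' : Rep A w C' (Mx (b' + 1 + 1) δ 0 (X ^ (b' + 1 + 1 - 1) * C (t' * g))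
      (X ^ (b' + 1 + 1 - 1) * C (t' * h)) 0 t' 0 g' h') := by
    refine hC.of_ker hA ?_
    rw [ker_iff, hb1]
    refine ⟨⟨?_, ?_, ?_⟩, ⟨?_, ?_, ?_⟩, ?_, ?_, ?_⟩
    · simp [Mx]
    · have : (Mx (b' + 1 + 1) δ 0 f' (X * q') 0 t' 0 g' h' -
          Mx (b' + 1 + 1) δ 0 (X ^ (b' + 1) * C (t' * g)) (X ^ (b' + 1) * C (t' * h)) 0 t' 0 g' h')
          0 1 = X ^ δ * (f' - X ^ (b' + 1) * C (t' * g)) := by
        simp [Mx]
        ring
      rw [this, add_comm (b' + 1 + 1) δ, pow_add]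
      exact mul_dvd_mul_left _ hf'
    · simp [Mx]
    · simp [Mx]
    · have : (Mx (b' + 1 + 1) δ 0 f' (X * q') 0 t' 0 g' h' -
          Mx (b' + 1 + 1) δ 0 (X ^ (b' + 1) * C (t' * g)) (X ^ (b' + 1) * C (t' * h)) 0 t' 0 g' h')
          1 1 = X * q' - X ^ (b' + 1) * C (t' * h) := by
        simp [Mx]
      rw [this]
      exact hq'
    · simp [Mx]
    · simp [Mx]
    · simp [Mx]
    · simp [Mx]
  refine nf_all hA hb hP hI hf ?_ ?_ ?_ ?_ B C' hB hC'
  · intro hδ
    have := p2' hδ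
    rw [coeff_zero, mul_zero, coeff_one_zero, mul_one] at this
    exact this.symm
  · -- `f(0) t' h = g' u`
    have h1 : X ^ (b' + 1 + 1) ∣ X ^ (b' + 1) * (f * C (t' * h) - C (t' * g) * (X * q) +
        C (g * 0 - g' * u)) := by
      have h2 : X ^ (b' + 1) * (f * C (t' * h) - C (t' * g) * (X * q) + C (g * 0 - g' * u)) =
          ((f * (X * q') - f' * (X * q)) + X ^ (b' + 1) * C (g * 0 - g' * u)) -
          f * (X * q' - X ^ (b' + 1) * C (t' * h)) +
          (f' - X ^ (b' + 1) * C (t' * g)) * (X * q) := by ring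
      rw [h2]
      exact dvd_add (dvd_sub h12 (hq'.mul_left _)) (hf'.mul_right _)
    rw [dvd_X_C_mul_iff] at h1
    simp only [coeff_add, coeff_sub, mul_coeff_zero, coeff_C_zero, coeff_X_zero, zero_mul,
      mul_zero, sub_zero, zero_sub] at h1
    linear_combination h1
  · have h1 : X ^ (b' + 1 + 1) ∣ X ^ (b' + 1) * (X ^ δ * C (t' * g) + C (h * 0 - h' * u)) := by
      have h2 : X ^ (b' + 1) * (X ^ δ * C (t' * g) + C (h * 0 - h' * u)) =
          (X ^ δ * (1 * f' - 0 * f) + X ^ (b' + 1) * C (h * 0 - h' * u)) -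
          X ^ δ * (f' - X ^ (b' + 1) * C (t' * g)) := by ring
      rw [h2]
      exact dvd_sub h22 (hf'.mul_left _)
    rw [dvd_X_C_mul_iff] at h1
    simp only [coeff_add, mul_coeff_zero, coeff_C_zero, mul_zero, zero_sub] at h1
    linear_combination h1
  · rw [hf0, mul_zero] at p1'
    exact p1'.symm

/-- inverse modulo a power of `X` -/
theorem exists_inv {r : k[X]} (hr : r.coeff 0 ≠ 0) (e : ℕ) : ∃ ρ : k[X], X ^ e ∣ r * ρ - 1 := by
  have h1 : IsCoprime (X ^ e : k[X]) r := by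
    refine IsCoprime.pow_left ?_
    rw [(irreducible_X (R := k)).coprime_iff_not_dvd, X_dvd_iff]
    exact hr
  obtain ⟨a, c, h⟩ := h1
  exact ⟨c, -a, by linear_combination h⟩

end AlphaAux

open AlphaAux in
theorem alpha {k : Type*} [Field k] [IsAlgClosed k] [CharZero k] {b δ : ℕ} (hb : 4 ≤ b)
    (hP : PairS k b δ) (hI : 1 ≤ δ → GenIS k b δ) : AlphaS k b δ := by
  intro N A B C₀ w f q r f₀ q₀ r₀ t u g h t₀ u₀ g₀ h₀ hA hB hC₀ hf hBC₀ hr
  obtain ⟨ρ, hρ⟩ := exists_inv hr b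
  -- make `r' = 0`
  have hBC : B * (C₀ - aeval A (r₀ * ρ) * B) = (C₀ - aeval A (r₀ * ρ) * B) * B := by
    have h1 : A * B = B * A := comm_A hA hB
    have h2 : B * aeval A (r₀ * ρ) = aeval A (r₀ * ρ) * B := by
      rw [aeval_eq_sum_range, Finset.mul_sum, Finset.sum_mul]
      refine Finset.sum_congr rfl fun i _ => ?_
      rw [mul_smul_comm, smul_mul_assoc, (Commute.pow_right (show Commute B A from h1.symm) i).eq]
    rw [mul_sub, sub_mul, hBC₀, ← mul_assoc, h2]
  refine Two.cl_sub_mul (r₀ * ρ) ?_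
  have hC₁ := mx_sub_mul hA (by omega) hB hC₀ (r₀ * ρ)
  set C₁ := C₀ - aeval A (r₀ * ρ) * B with hC₁'
  generalize ht' : t₀ - (r₀ * ρ).coeff 0 * t = t' at hC₁
  generalize hu' : u₀ - (r₀ * ρ).coeff 0 * u = u' at hC₁
  generalize hg' : g₀ - (r₀ * ρ).coeff 0 * g = g' at hC₁
  generalize hh' : h₀ - (r₀ * ρ).coeff 0 * h = h' at hC₁
  generalize hf' : f₀ - r₀ * ρ * f = f' at hC₁
  obtain ⟨q', hq'⟩ : ∃ q', q' = q₀ - r₀ * ρ * q := ⟨_, rfl⟩
  have hC₂ : Rep A w C₁ (Mx b δ 0 f' (X * q') 0 t' u' g' h') := by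
    refine hC₁.of_ker hA ?_
    rw [ker_iff]
    refine ⟨⟨?_, ?_, ?_⟩, ⟨?_, ?_, ?_⟩, ?_, ?_, ?_⟩
    · simp [Mx]
    · simp [Mx]
    · simp [Mx]
    · have : (Mx b δ (0 - r₀ * ρ * 0) f' (X * q₀ - r₀ * ρ * (X * q)) (r₀ - r₀ * ρ * r) t' u' g' h' -
          Mx b δ 0 f' (X * q') 0 t' u' g' h') 1 0 = -(r₀ * (r * ρ - 1)) := by
        simp [Mx]
        ring
      rw [this]
      exact (hρ.mul_left _).neg_right
    · have : (Mx b δ (0 - r₀ * ρ * 0) f' (X * q₀ - r₀ * ρ * (X * q)) (r₀ - r₀ * ρ * r) t' u' g' h' -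
          Mx b δ 0 f' (X * q') 0 t' u' g' h') 1 1 = 0 := by
        simp [Mx, hq']
        ring
      rw [this]
      exact dvd_zero _
    · simp [Mx]
    · simp [Mx]
    · simp [Mx]
    · simp [Mx]
  -- the new generators
  obtain ⟨b', rfl⟩ : ∃ b', b = b' + 1 + 1 := ⟨b - 2, by omega⟩
  have hb1 : b' + 1 + 1 - 1 = b' + 1 := by omega
  have hb2 : b' + 1 + 1 + δ - 1 = δ + (b' + 1) := by omega
  have hb3 : b' + 1 + 1 + δ = δ + (b' + 1) + 1 := by omega
  set G : Matrix (Fin 3) (Fin 3) k[X] := !![1, 0, 0; 0, r, 0; 0, C t, 1] with hG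
  have hAG : Adm ![b' + 1 + 1 + δ, b' + 1 + 1, 1] G := by
    rw [adm_iff _ (by omega)]
    simp [hG]
  have hGH : Ker ![b' + 1 + 1 + δ, b' + 1 + 1, 1]
      (G * !![1, 0, 0; 0, ρ, 0; 0, -(C t * ρ), 1] - 1) := by
    rw [ker_iff]
    refine ⟨⟨?_, ?_, ?_⟩, ⟨?_, ?_, ?_⟩, ?_, ?_, ?_⟩
    · simp [hG, Matrix.mul_apply, Fin.sum_univ_three]
    · simp [hG, Matrix.mul_apply, Fin.sum_univ_three]
    · simp [hG, Matrix.mul_apply, Fin.sum_univ_three]
    · simp [hG, Matrix.mul_apply, Fin.sum_univ_three]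
    · simpa [hG, Matrix.mul_apply, Fin.sum_univ_three] using hρ
    · simp [hG, Matrix.mul_apply, Fin.sum_univ_three]
    · simp [hG, Matrix.mul_apply, Fin.sum_univ_three]
    · simp [hG, Matrix.mul_apply, Fin.sum_univ_three]
    · simp [hG, Matrix.mul_apply, Fin.sum_univ_three]
  have hA' := hA.change hAG hGH
  have hr0 : r = C (r.coeff 0) + X * divX r := by
    have := divX_mul_X_add r
    linear_combination -this
  -- change of the generators
  have chg : ∀ (D : Matrix (Fin N) (Fin N) k) (f q : k[X]) (c t₁ u g h : k),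
      Rep A w D (Mx (b' + 1 + 1) δ 0 f (X * q) (C c * r) t₁ u g h) →
      Rep A (fun j => pi A w fun i => G i j) D (Mx (b' + 1 + 1) δ 0
        (f * r + X ^ (b' + 1) * C (g * t)) (X * (q + ρ * (X ^ b' * C (h * t)))) (C c) (t₁ - c * t)
        (u * r.coeff 0) g (h / r.coeff 0)) := by
    intro D f q c t₁ u g h hD
    refine hD.change hA ?_
    set P : Matrix (Fin 3) (Fin 3) k[X] := Mx (b' + 1 + 1) δ 0 f (X * q) (C c * r) t₁ u g h * G -
      G * Mx (b' + 1 + 1) δ 0 (f * r + X ^ (b' + 1) * C (g * t))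
        (X * (q + ρ * (X ^ b' * C (h * t)))) (C c) (t₁ - c * t) (u * r.coeff 0) g
        (h / r.coeff 0) with hP
    have e00 : P 0 0 = 0 := by
      simp only [hP, hG, Mx, hb1, hb2, Matrix.sub_apply, Matrix.mul_apply, Fin.sum_univ_three]
      simp
    have e01 : P 0 1 = 0 := by
      simp only [hP, hG, Mx, hb1, hb2, Matrix.sub_apply, Matrix.mul_apply, Fin.sum_univ_three]
      simp
      ring
    have e02 : P 0 2 = 0 := by
      simp only [hP, hG, Mx, hb1, hb2, Matrix.sub_apply, Matrix.mul_apply, Fin.sum_univ_three]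
      simp
    have e10 : P 1 0 = 0 := by
      simp only [hP, hG, Mx, hb1, hb2, Matrix.sub_apply, Matrix.mul_apply, Fin.sum_univ_three]
      simp
      ring
    have e11 : P 1 1 = -((r * ρ - 1) * (X ^ (b' + 1) * C (h * t))) := by
      simp only [hP, hG, Mx, hb1, hb2, Matrix.sub_apply, Matrix.mul_apply, Fin.sum_univ_three]
      simp
      ring
    have e12 : P 1 2 = X ^ (b' + 1) * (C h - r * C (h / r.coeff 0)) := by
      simp only [hP, hG, Mx, hb1, hb2, Matrix.sub_apply, Matrix.mul_apply, Fin.sum_univ_three]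
      simp
      ring
    have e20 : P 2 0 = 0 := by
      simp only [hP, hG, Mx, hb1, hb2, Matrix.sub_apply, Matrix.mul_apply, Fin.sum_univ_three]
      simp
      ring
    have e21 : P 2 1 = X * (C u * divX r - C t * (q + ρ * (X ^ b' * C (h * t)))) := by
      simp only [hP, hG, Mx, hb1, hb2, Matrix.sub_apply, Matrix.mul_apply, Fin.sum_univ_three]
      simp
      linear_combination C u * hr0
    have e22 : P 2 2 = X * -(X ^ b' * (C t * C (h / r.coeff 0))) := by
      simp only [hP, hG, Mx, hb1, hb2, Matrix.sub_apply, Matrix.mul_apply, Fin.sum_univ_three]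
      simp
      ring
    rw [ker_iff, e00, e01, e02, e10, e11, e12, e20, e21, e22]
    refine ⟨⟨dvd_zero _, dvd_zero _, dvd_zero _⟩, ⟨dvd_zero _, ?_, ?_⟩, dvd_zero _,
      Dvd.intro _ rfl, Dvd.intro _ rfl⟩
    · exact (hρ.mul_right _).neg_right
    · rw [dvd_X_C_mul_iff, coeff_sub, mul_coeff_zero, coeff_C_zero, coeff_C_zero,
        mul_div_cancel₀ _ hr, sub_self]
  -- the matrix `B`
  have hB1 : Rep A (fun j => pi A w fun i => G i j) B (Mx (b' + 1 + 1) δ 0
      (f * r + X ^ (b' + 1) * C (g * t)) (X * (q + ρ * (X ^ b' * C (h * t)))) 1 0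
      (u * r.coeff 0) g (h / r.coeff 0)) := by
    have := chg B f q 1 t u g h (by rwa [C_1, one_mul])
    rwa [C_1, one_mul, sub_self] at this
  -- the matrix `C₁`
  have hC3 : Rep A (fun j => pi A w fun i => G i j) C₁ (Mx (b' + 1 + 1) δ 0
      (f' * r + X ^ (b' + 1) * C (g' * t)) (X * (q' + ρ * (X ^ b' * C (h' * t)))) 0 t'
      (u' * r.coeff 0) g' (h' / r.coeff 0)) := by
    have := chg C₁ f' q' 0 t' u' g' h' (by rwa [C_0, zero_mul])
    rwa [C_0, zero_mul, sub_zero] at this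
  refine cl_one hA' hb hP hI hB1 hC3 ?_ hBC
  intro hδ
  rw [coeff_add, mul_coeff_zero, (hf hδ).1, zero_mul, zero_add, mul_coeff_zero, coeff_X_pow,
    if_neg (by omega), zero_mul]

end PB

end Pool.Agent.Lib.D13
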