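import Pool.Agent.Lib.D13.Ab1Non

/-!
# MP_5dcbc3_ag: Jordan blocks of sizes `b + δ`, `b`, `1`: different eigenvalues
-/

namespace Pool.Agent.Lib.D13

open Matrix Polynomial Pool.Agent.Lib.Q5dc Pool.Agent.Lib.D7 Pool.Agent.Lib.D8

namespace PB

universe v

variable {k : Type v} [Field k] {N : ℕ} {A : Matrix (Fin N) (Fin N) k} {w : Fin 3 → Fin N → k}
  {b δ : ℕ}

/-! ### the generic point -/

/-- rank one -/
theorem rank_one {t t' g g' : k} (h : g * t' = g' * t) :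
    ∃ a e c d : k, t = a * c ∧ t' = e * c ∧ g = a * d ∧ g' = e * d := by
  by_cases ht : t = 0
  · by_cases ht' : t' = 0
    · exact ⟨g, g', 0, 1, by rw [ht, mul_zero], by rw [ht', mul_zero], by rw [mul_one],
        by rw [mul_one]⟩
    · refine ⟨t, t', 1, g' / t', by rw [mul_one], by rw [mul_one], ?_, ?_⟩
      · rw [ht, zero_mul]
        rw [ht, mul_zero] at h
        exact (mul_eq_zero.1 h).resolve_right ht'
      · field_simp
  · refine ⟨t, t', 1, g / t, by rw [mul_one], by rw [mul_one], ?_, ?_⟩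
    · field_simp
    · field_simp
      linear_combination -h

/-- a linear combination of matrices of the form `Mx` -/
theorem exists_fam (hA : Bl A w b δ) (hb : 1 ≤ b) (f q r f1 q1 r1 : k[X]) :
    ∃ (B0 Et Eu Eg Eh Ef Eq Er : Matrix (Fin N) (Fin N) k), ∀ t u g h x y z : k,
      Rep A w (B0 + t • Et + u • Eu + g • Eg + h • Eh + x • Ef + y • Eq + z • Er)
        (Mx b δ 0 (f + C x * f1) (q + C y * q1) (r + C z * r1) t u g h) := by
  obtain ⟨B0, h0⟩ := exists_mx hA hb 0 f q r 0 0 0 0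
  obtain ⟨Et, ht⟩ := exists_mx hA hb 0 0 0 0 1 0 0 0
  obtain ⟨Eu, hu⟩ := exists_mx hA hb 0 0 0 0 0 1 0 0
  obtain ⟨Eg, hg⟩ := exists_mx hA hb 0 0 0 0 0 0 1 0
  obtain ⟨Eh, hh⟩ := exists_mx hA hb 0 0 0 0 0 0 0 1
  obtain ⟨Ef, hf⟩ := exists_mx hA hb 0 f1 0 0 0 0 0 0
  obtain ⟨Eq, hq⟩ := exists_mx hA hb 0 0 q1 0 0 0 0 0
  obtain ⟨Er, hr⟩ := exists_mx hA hb 0 0 0 r1 0 0 0 0
  refine ⟨B0, Et, Eu, Eg, Eh, Ef, Eq, Er, fun t u g h x y z => ?_⟩
  have h1 := mx_add_smul (mx_add_smul (mx_add_smul (mx_add_smul (mx_add_smul (mx_add_smul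
    (mx_add_smul h0 ht t) hu u) hg g) hh h) hf x) hq y) hr z
  simpa only [mul_zero, add_zero, zero_add, mul_one] using h1

/-- the family with `f = r = 0` in the first and `q = 0` in the second matrix -/
theorem cl_fam [CharZero k] (hb : 4 ≤ b) (hG : GenAS k b δ) (hA : Bl A w b δ)
    {B C' : Matrix (Fin N) (Fin N) k} {κ φ ρ : k[X]} {t u g h t' u' g' h' : k}
    (hB : Rep A w B (Mx b δ 0 0 (X * κ) 0 t u g h))
    (hC : Rep A w C' (Mx b δ 0 (X ^ (b - 2) * φ) 0 (X ^ (b - 2) * ρ) t' u' g' h'))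
    (hκ : κ.coeff 0 ≠ 0) (h1 : g * t' = g' * t) (h2 : h * u' = h' * u)
    (h3 : φ.coeff 0 * κ.coeff 0 = g * u' - g' * u)
    (h4 : ρ.coeff 0 * κ.coeff 0 = t * h' - t' * h) : Cl ![A, B, C'] := by
  obtain ⟨a, e, c, d, rfl, rfl, rfl, rfl⟩ := rank_one h1
  obtain ⟨a', e', c', d', rfl, rfl, rfl, rfl⟩ := rank_one h2
  obtain ⟨B0, Et, Eu, Eg, Eh, Ef, Eq, Er, hfam⟩ := exists_fam hA (by omega) 0 (X * κ) 0 0 0 0
  obtain ⟨C0, Ft, Fu, Fg, Fh, Ff, Fq, Fr, hfam'⟩ := exists_fam hA (by omega)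
    (X ^ (b - 2) * φ) 0 (X ^ (b - 2) * ρ) (X ^ (b - 2)) 0 (X ^ (b - 2))
  have : Infinite k := inferInstance
  -- the parameters
  obtain ⟨pa, ha0, ha1, hpa⟩ : ∃ p : k → k, p 0 = a ∧ p 1 = 1 ∧ D7.IsPoly p :=
    ⟨fun s => a + s * (1 - a), by simp, by simp,
      (D7.IsPoly.const _).add (D7.IsPoly.id.mul (D7.IsPoly.const _))⟩
  obtain ⟨pe, he0, he1, hpe⟩ : ∃ p : k → k, p 0 = e ∧ p 1 = 1 ∧ D7.IsPoly p :=
    ⟨fun s => e + s * (1 - e), by simp, by simp,
      (D7.IsPoly.const _).add (D7.IsPoly.id.mul (D7.IsPoly.const _))⟩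
  obtain ⟨pc, hc0, hc1, hpc⟩ : ∃ p : k → k, p 0 = c ∧ p 1 = 1 ∧ D7.IsPoly p :=
    ⟨fun s => c + s * (1 - c), by simp, by simp,
      (D7.IsPoly.const _).add (D7.IsPoly.id.mul (D7.IsPoly.const _))⟩
  obtain ⟨pd, hd0, hd1, hpd⟩ : ∃ p : k → k, p 0 = d ∧ p 1 = 1 ∧ D7.IsPoly p :=
    ⟨fun s => d + s * (1 - d), by simp, by simp,
      (D7.IsPoly.const _).add (D7.IsPoly.id.mul (D7.IsPoly.const _))⟩
  obtain ⟨pa', ha0', ha1', hpa'⟩ : ∃ p : k → k, p 0 = a' ∧ p 1 = 1 ∧ D7.IsPoly p :=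
    ⟨fun s => a' + s * (1 - a'), by simp, by simp,
      (D7.IsPoly.const _).add (D7.IsPoly.id.mul (D7.IsPoly.const _))⟩
  obtain ⟨pe', he0', he1', hpe'⟩ : ∃ p : k → k, p 0 = e' ∧ p 1 = 2 ∧ D7.IsPoly p :=
    ⟨fun s => e' + s * (2 - e'), by simp, by simp,
      (D7.IsPoly.const _).add (D7.IsPoly.id.mul (D7.IsPoly.const _))⟩
  obtain ⟨pc', hc0', hc1', hpc'⟩ : ∃ p : k → k, p 0 = c' ∧ p 1 = 1 ∧ D7.IsPoly p :=
    ⟨fun s => c' + s * (1 - c'), by simp, by simp,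
      (D7.IsPoly.const _).add (D7.IsPoly.id.mul (D7.IsPoly.const _))⟩
  obtain ⟨pd', hd0', hd1', hpd'⟩ : ∃ p : k → k, p 0 = d' ∧ p 1 = 1 ∧ D7.IsPoly p :=
    ⟨fun s => d' + s * (1 - d'), by simp, by simp,
      (D7.IsPoly.const _).add (D7.IsPoly.id.mul (D7.IsPoly.const _))⟩
  obtain ⟨Δ, hΔ, hΔp⟩ : ∃ Δ : k → k, (∀ s, Δ s = pa s * pe' s - pe s * pa' s) ∧ D7.IsPoly Δ :=
    ⟨_, fun _ => rfl, (hpa.mul hpe').sub (hpe.mul hpa')⟩
  obtain ⟨px, hx, hpx⟩ : ∃ p : k → k, (∀ s, p s = (pd s * pc' s * Δ s) * (κ.coeff 0)⁻¹ -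
      φ.coeff 0) ∧ D7.IsPoly p :=
    ⟨_, fun _ => rfl, (((hpd.mul hpc').mul hΔp).mul (D7.IsPoly.const _)).sub (D7.IsPoly.const _)⟩
  obtain ⟨pz, hz, hpz⟩ : ∃ p : k → k, (∀ s, p s = (pd' s * pc s * Δ s) * (κ.coeff 0)⁻¹ -
      ρ.coeff 0) ∧ D7.IsPoly p :=
    ⟨_, fun _ => rfl, (((hpd'.mul hpc).mul hΔp).mul (D7.IsPoly.const _)).sub (D7.IsPoly.const _)⟩
  have hki : (κ.coeff 0)⁻¹ * κ.coeff 0 = 1 := inv_mul_cancel₀ hκ
  have hx0 : px 0 = 0 := by
    rw [hx, hΔ, ha0, he0, ha0', he0', hd0, hc0']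
    have h5 : d * c' * (a * e' - e * a') = φ.coeff 0 * κ.coeff 0 := by
      rw [h3]
      ring
    rw [h5, mul_assoc, mul_inv_cancel₀ hκ, mul_one, sub_self]
  have hz0 : pz 0 = 0 := by
    rw [hz, hΔ, ha0, he0, ha0', he0', hd0', hc0]
    have h5 : d' * c * (a * e' - e * a') = ρ.coeff 0 * κ.coeff 0 := by
      rw [h4]
      ring
    rw [h5, mul_assoc, mul_inv_cancel₀ hκ, mul_one, sub_self]
  set FB : k → Matrix (Fin N) (Fin N) k := fun s => B0 + (pa s * pc s) • Et +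
    (pa' s * pc' s) • Eu + (pa s * pd s) • Eg + (pa' s * pd' s) • Eh + (0 : k) • Ef +
    (0 : k) • Eq + (0 : k) • Er with hFB
  set FC : k → Matrix (Fin N) (Fin N) k := fun s => C0 + (pe s * pc s) • Ft +
    (pe' s * pc' s) • Fu + (pe s * pd s) • Fg + (pe' s * pd' s) • Fh + px s • Ff +
    (0 : k) • Fq + pz s • Fr with hFC
  have hfamB : ∀ s, Rep A w (FB s) (Mx b δ 0 0 (X * κ) 0 (pa s * pc s) (pa' s * pc' s)
      (pa s * pd s) (pa' s * pd' s)) := by
    intro s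
    have h5 := hfam (pa s * pc s) (pa' s * pc' s) (pa s * pd s) (pa' s * pd' s) 0 0 0
    simpa only [C_0, mul_zero, zero_mul, add_zero] using h5
  have hfamC : ∀ s, Rep A w (FC s) (Mx b δ 0 (X ^ (b - 2) * (φ + C (px s))) 0
      (X ^ (b - 2) * (ρ + C (pz s))) (pe s * pc s) (pe' s * pc' s)
      (pe s * pd s) (pe' s * pd' s)) := by
    intro s
    have h5 := hfam' (pe s * pc s) (pe' s * pc' s) (pe s * pd s) (pe' s * pd' s) (px s) 0 (pz s)
    have e1 : X ^ (b - 2) * (φ + C (px s)) = X ^ (b - 2) * φ + C (px s) * X ^ (b - 2) := by ring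
    have e2 : X ^ (b - 2) * (ρ + C (pz s)) = X ^ (b - 2) * ρ + C (pz s) * X ^ (b - 2) := by ring
    rw [e1, e2]
    simpa only [C_0, mul_zero, zero_mul, add_zero] using h5
  have hB0 : B = FB 0 := by
    refine Rep.eq hA hB ?_
    have h5 := hfamB 0
    rw [ha0, hc0, ha0', hc0', hd0, hd0'] at h5
    exact h5
  have hC0 : C' = FC 0 := by
    refine Rep.eq hA hC ?_
    have h5 := hfamC 0
    rw [he0, hc0, he0', hc0', hd0, hd0', hx0, hz0, C_0, add_zero, add_zero] at h5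
    exact h5
  by_contra hcon
  have hPF : PolyFam (fun s => ![A, FB s, FC s]) := by
    intro i x y
    have hmul : ∀ (p : k → k) (M : Matrix (Fin N) (Fin N) k), D7.IsPoly p →
        D7.IsPoly fun s => (p s • M) x y := fun p M hp => hp.mul (D7.IsPoly.const (M x y))
    fin_cases i
    · exact D7.IsPoly.const _
    · show D7.IsPoly fun s => FB s x y
      exact ((((((((D7.IsPoly.const _).add (hmul _ _ (hpa.mul hpc))).add
        (hmul _ _ (hpa'.mul hpc'))).add (hmul _ _ (hpa.mul hpd))).add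
        (hmul _ _ (hpa'.mul hpd'))).add (hmul _ _ (D7.IsPoly.const 0))).add
        (hmul _ _ (D7.IsPoly.const 0))).add (hmul _ _ (D7.IsPoly.const 0)))
    · show D7.IsPoly fun s => FC s x y
      exact ((((((((D7.IsPoly.const _).add (hmul _ _ (hpe.mul hpc))).add
        (hmul _ _ (hpe'.mul hpc'))).add (hmul _ _ (hpe.mul hpd))).add
        (hmul _ _ (hpe'.mul hpd'))).add (hmul _ _ hpx)).add
        (hmul _ _ (D7.IsPoly.const 0))).add (hmul _ _ hpz))
  have hfin := finite_cl (fun s => ![A, FB s, FC s]) hPF (by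
    show ¬ Cl ![A, FB 0, FC 0]
    rw [← hB0, ← hC0]
    exact hcon)
  have hQ : D7.IsPoly fun s => pa s * pe s * pc s * pd s * pa' s * pe' s * pc' s * pd' s * Δ s :=
    ((((((((hpa.mul hpe).mul hpc).mul hpd).mul hpa').mul hpe').mul hpc').mul hpd').mul hΔp)
  have hQ1 := hQ.finite (s₁ := 1) (by
    rw [hΔ, ha1, he1, hc1, hd1, ha1', he1', hc1', hd1']
    have h3 : (1 * 2 - 1 * 1 : k) = 1 := by norm_num
    rw [h3]
    simp)
  obtain ⟨s, hs⟩ := (hfin.union hQ1).exists_notMem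
  simp only [Set.mem_union, not_or, Set.mem_ofPred_eq] at hs
  obtain ⟨hs1, hs2⟩ := hs
  have hs3 := hs2
  simp only [mul_eq_zero, not_or] at hs3
  obtain ⟨⟨⟨⟨⟨⟨⟨⟨na, ne⟩, nc⟩, nd⟩, na'⟩, ne'⟩, nc'⟩, nd'⟩, nΔ⟩ := hs3
  apply hs1
  show Cl ![A, FB s, FC s]
  have hγ : pd s / pc s ≠ 0 := div_ne_zero nd nc
  have hη : pd' s / pc' s ≠ 0 := div_ne_zero nd' nc'
  refine hG N A (FB s) (FC s) w κ (ρ + C (pz s)) (φ + C (px s)) (pa s * pc s) (pa' s * pc' s)
    (pe s * pc s) (pe' s * pc' s) (pd s / pc s) (pd' s / pc' s) hA ?_ ?_ ?_ ?_ hκ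
    (mul_ne_zero na nc) (mul_ne_zero na' nc') (mul_ne_zero ne nc) (mul_ne_zero ne' nc') hγ hη ?_
  · have e1 : pd s / pc s * (pa s * pc s) = pa s * pd s := by field_simp
    have e2 : pd' s / pc' s * (pa' s * pc' s) = pa' s * pd' s := by field_simp
    rw [e1, e2]
    exact hfamB s
  · have e1 : pd s / pc s * (pe s * pc s) = pe s * pd s := by field_simp
    have e2 : pd' s / pc' s * (pe' s * pc' s) = pe' s * pd' s := by field_simp
    rw [e1, e2]
    exact hfamC s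
  · rw [coeff_add, coeff_C_zero, hx]
    have e3 : pd s / pc s * (pa s * pc s * (pe' s * pc' s) - pe s * pc s * (pa' s * pc' s)) =
        pd s * pc' s * Δ s := by
      rw [hΔ]
      field_simp
    rw [e3]
    linear_combination pd s * pc' s * Δ s * hki
  · rw [coeff_add, coeff_C_zero, hz]
    have e3 : pd' s / pc' s * (pa s * pc s * (pe' s * pc' s) - pe s * pc s * (pa' s * pc' s)) =
        pd' s * pc s * Δ s := by
      rw [hΔ]
      field_simp
    rw [e3]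
    linear_combination pd' s * pc s * Δ s * hki
  · have e3 : pa s * pc s * (pe' s * pc' s) - pe s * pc s * (pa' s * pc' s) =
        pc s * pc' s * Δ s := by
      rw [hΔ]
      ring
    rw [e3]
    exact mul_ne_zero (mul_ne_zero nc nc') nΔ

/-! ### change of generators -/

theorem adm_G1 (hb : 1 ≤ b) (α : k[X]) :
    Adm ![b + δ, b, 1] (!![1, 0, 0; α, 1, 0; 0, 0, 1] : Matrix (Fin 3) (Fin 3) k[X]) := by
  rw [adm_iff _ hb]
  refine ⟨?_, ?_, ?_⟩
  · show X ^ δ ∣ (0 : k[X])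
    exact dvd_zero _
  · show X ^ (b + δ - 1) ∣ (0 : k[X])
    exact dvd_zero _
  · show X ^ (b - 1) ∣ (0 : k[X])
    exact dvd_zero _

theorem adm_G2 (hb : 1 ≤ b) (β : k[X]) :
    Adm ![b + δ, b, 1] (!![1, X ^ δ * β, 0; 0, 1, 0; 0, 0, 1] : Matrix (Fin 3) (Fin 3) k[X]) := by
  rw [adm_iff _ hb]
  refine ⟨?_, ?_, ?_⟩
  · show X ^ δ ∣ X ^ δ * β
    exact Dvd.intro _ rfl
  · show X ^ (b + δ - 1) ∣ (0 : k[X])
    exact dvd_zero _
  · show X ^ (b - 1) ∣ (0 : k[X])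
    exact dvd_zero _

/-- `e1 + α e2` as a new generator -/
theorem change1 (hA : Bl A w b δ) (hb : 1 ≤ b) (α : k[X]) :
    ∃ w' : Fin 3 → Fin N → k, Bl A w' b δ ∧ ∀ (B : Matrix (Fin N) (Fin N) k) (f q r : k[X])
      (t u g h : k), X ∣ f → Rep A w B (Mx b δ 0 f q r t u g h) →
      Rep A w' (B - aeval A (X ^ δ * (α * f))) (Mx b δ 0 f (q - 2 * (X ^ δ * (α * f)))
        (r + α * q - X ^ δ * (α * (α * f))) (t + α.coeff 0 * u) u g
        (h - (X ^ δ * α : k[X]).coeff 0 * g)) := by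
  set G : Matrix (Fin 3) (Fin 3) k[X] := !![1, 0, 0; α, 1, 0; 0, 0, 1] with hG
  set H : Matrix (Fin 3) (Fin 3) k[X] := !![1, 0, 0; -α, 1, 0; 0, 0, 1] with hH
  have hGH : G * H = 1 := by
    rw [hG, hH]
    refine Matrix.ext fun i j => ?_
    fin_cases i <;> fin_cases j <;> simp [Matrix.mul_apply, Fin.sum_univ_three]
  have hbl : Bl A (fun j => pi A w fun i => G i j) b δ :=
    hA.change (adm_G1 hb α) (H := H) (by
      rw [hGH, sub_self]
      exact fun _ _ => dvd_zero _)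
  refine ⟨_, hbl, fun B f q r t u g h hf hB => ?_⟩
  obtain ⟨α', hα'⟩ : ∃ α', α = C (α.coeff 0) + X * α' := by
    have : X ∣ α - C (α.coeff 0) := by
      rw [X_dvd_iff, coeff_sub, coeff_C_zero, sub_self]
    obtain ⟨α', h⟩ := this
    exact ⟨α', by linear_combination h⟩
  obtain ⟨ε, hε⟩ : ∃ ε, X ^ δ * α = C ((X ^ δ * α : k[X]).coeff 0) + X * ε := by
    have : X ∣ X ^ δ * α - C ((X ^ δ * α : k[X]).coeff 0) := by
      rw [X_dvd_iff, coeff_sub, coeff_C_zero, sub_self]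
    obtain ⟨ε, h⟩ := this
    exact ⟨ε, by linear_combination h⟩
  generalize (X ^ δ * α : k[X]).coeff 0 = cε at hε ⊢
  have e1 : (X : k[X]) ^ b = X ^ (b - 1) * X := by
    rw [← pow_succ]
    congr 1
    omega
  have e2 : (X : k[X]) ^ (b + δ - 1) = X ^ δ * X ^ (b - 1) := by
    rw [← pow_add]
    congr 1
    omega
  have h1 : Rep A (fun j => pi A w fun i => G i j) B (Mx b δ (X ^ δ * (α * f)) f
      (q - X ^ δ * (α * f)) (r + α * q - X ^ δ * (α * (α * f))) (t + α.coeff 0 * u) u g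
      (h - cε * g)) := by
    refine hB.change hA ?_
    rw [ker_iff]
    refine ⟨⟨?_, ?_, ?_⟩, ⟨?_, ?_, ?_⟩, ?_, ?_, ?_⟩
    · refine ⟨0, ?_⟩
      simp only [hG, Mx, Matrix.sub_apply, Matrix.mul_apply, Fin.sum_univ_three]
      simp
      ring
    · refine ⟨0, ?_⟩
      simp only [hG, Mx, Matrix.sub_apply, Matrix.mul_apply, Fin.sum_univ_three]
      simp
    · refine ⟨0, ?_⟩
      simp only [hG, Mx, Matrix.sub_apply, Matrix.mul_apply, Fin.sum_univ_three]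
      simp
    · refine ⟨0, ?_⟩
      simp only [hG, Mx, Matrix.sub_apply, Matrix.mul_apply, Fin.sum_univ_three]
      simp
      ring
    · refine ⟨0, ?_⟩
      simp only [hG, Mx, Matrix.sub_apply, Matrix.mul_apply, Fin.sum_univ_three]
      simp
      ring
    · refine ⟨-(ε * C g), ?_⟩
      simp only [hG, Mx, Matrix.sub_apply, Matrix.mul_apply, Fin.sum_univ_three]
      rw [e1, e2]
      simp
      linear_combination (-X ^ (b - 1) * C g) * hε
    · refine ⟨α' * C u, ?_⟩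
      simp only [hG, Mx, Matrix.sub_apply, Matrix.mul_apply, Fin.sum_univ_three]
      simp
      linear_combination (C u) * hα'
    · refine ⟨0, ?_⟩
      simp only [hG, Mx, Matrix.sub_apply, Matrix.mul_apply, Fin.sum_univ_three]
      simp
    · refine ⟨0, ?_⟩
      simp only [hG, Mx, Matrix.sub_apply, Matrix.mul_apply, Fin.sum_univ_three]
      simp
  have h2 := mx_sub hbl h1 (X ^ δ * (α * f)) ((hf.mul_left α).mul_left _)
  rw [sub_self] at h2
  have e3 : q - X ^ δ * (α * f) - X ^ δ * (α * f) = q - 2 * (X ^ δ * (α * f)) := by ring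
  rw [e3] at h2
  exact h2

/-- `e2 + X^δ β e1` as a new generator -/
theorem change2 (hA : Bl A w b δ) (hb : 1 ≤ b) (β : k[X]) :
    ∃ w' : Fin 3 → Fin N → k, Bl A w' b δ ∧ ∀ (B : Matrix (Fin N) (Fin N) k) (f q r : k[X])
      (t u g h : k), X ∣ r → Rep A w B (Mx b δ 0 f q r t u g h) →
      Rep A w' (B - aeval A (-(X ^ δ * (β * r)))) (Mx b δ 0 (f - β * q - X ^ δ * (β * (β * r)))
        (q + 2 * (X ^ δ * (β * r))) r t (u + (X ^ δ * β : k[X]).coeff 0 * t)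
        (g - β.coeff 0 * h) h) := by
  set G : Matrix (Fin 3) (Fin 3) k[X] := !![1, X ^ δ * β, 0; 0, 1, 0; 0, 0, 1] with hG
  set H : Matrix (Fin 3) (Fin 3) k[X] := !![1, -(X ^ δ * β), 0; 0, 1, 0; 0, 0, 1] with hH
  have hGH : G * H = 1 := by
    rw [hG, hH]
    refine Matrix.ext fun i j => ?_
    fin_cases i <;> fin_cases j <;> simp [Matrix.mul_apply, Fin.sum_univ_three]
  have hbl : Bl A (fun j => pi A w fun i => G i j) b δ :=
    hA.change (adm_G2 hb β) (H := H) (by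
      rw [hGH, sub_self]
      exact fun _ _ => dvd_zero _)
  refine ⟨_, hbl, fun B f q r t u g h hr hB => ?_⟩
  obtain ⟨β', hβ'⟩ : ∃ β', β = C (β.coeff 0) + X * β' := by
    have : X ∣ β - C (β.coeff 0) := by
      rw [X_dvd_iff, coeff_sub, coeff_C_zero, sub_self]
    obtain ⟨β', h⟩ := this
    exact ⟨β', by linear_combination h⟩
  obtain ⟨ε, hε⟩ : ∃ ε, X ^ δ * β = C ((X ^ δ * β : k[X]).coeff 0) + X * ε := by
    have : X ∣ X ^ δ * β - C ((X ^ δ * β : k[X]).coeff 0) := by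
      rw [X_dvd_iff, coeff_sub, coeff_C_zero, sub_self]
    obtain ⟨ε, h⟩ := this
    exact ⟨ε, by linear_combination h⟩
  generalize (X ^ δ * β : k[X]).coeff 0 = cε at hε ⊢
  have e1 : (X : k[X]) ^ (b + δ) = X ^ δ * X ^ (b - 1) * X := by
    rw [← pow_add, ← pow_succ]
    congr 1
    omega
  have e2 : (X : k[X]) ^ (b + δ - 1) = X ^ δ * X ^ (b - 1) := by
    rw [← pow_add]
    congr 1
    omega
  have h1 : Rep A (fun j => pi A w fun i => G i j) B (Mx b δ (-(X ^ δ * (β * r)))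
      (f - β * q - X ^ δ * (β * (β * r))) (q + X ^ δ * (β * r)) r t
      (u + cε * t) (g - β.coeff 0 * h) h) := by
    refine hB.change hA ?_
    rw [ker_iff]
    refine ⟨⟨?_, ?_, ?_⟩, ⟨?_, ?_, ?_⟩, ?_, ?_, ?_⟩
    · refine ⟨0, ?_⟩
      simp only [hG, Mx, Matrix.sub_apply, Matrix.mul_apply, Fin.sum_univ_three]
      simp
      ring
    · refine ⟨0, ?_⟩
      simp only [hG, Mx, Matrix.sub_apply, Matrix.mul_apply, Fin.sum_univ_three]
      simp
      ring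
    · refine ⟨-(β' * C h), ?_⟩
      simp only [hG, Mx, Matrix.sub_apply, Matrix.mul_apply, Fin.sum_univ_three]
      rw [e1, e2]
      simp
      linear_combination (-X ^ δ * X ^ (b - 1) * C h) * hβ'
    · refine ⟨0, ?_⟩
      simp only [hG, Mx, Matrix.sub_apply, Matrix.mul_apply, Fin.sum_univ_three]
      simp
    · refine ⟨0, ?_⟩
      simp only [hG, Mx, Matrix.sub_apply, Matrix.mul_apply, Fin.sum_univ_three]
      simp
      ring
    · refine ⟨0, ?_⟩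
      simp only [hG, Mx, Matrix.sub_apply, Matrix.mul_apply, Fin.sum_univ_three]
      simp
    · refine ⟨0, ?_⟩
      simp only [hG, Mx, Matrix.sub_apply, Matrix.mul_apply, Fin.sum_univ_three]
      simp
    · refine ⟨ε * C t, ?_⟩
      simp only [hG, Mx, Matrix.sub_apply, Matrix.mul_apply, Fin.sum_univ_three]
      simp
      linear_combination (C t) * hε
    · refine ⟨0, ?_⟩
      simp only [hG, Mx, Matrix.sub_apply, Matrix.mul_apply, Fin.sum_univ_three]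
      simp
  have h2 := mx_sub hbl h1 (-(X ^ δ * (β * r))) ((hr.mul_left β).mul_left _).neg_right
  rw [sub_self] at h2
  have e3 : q + X ^ δ * (β * r) - -(X ^ δ * (β * r)) = q + 2 * (X ^ δ * (β * r)) := by ring
  rw [e3] at h2
  exact h2

/-- the entries matter only modulo `X^b` -/
theorem mx_congr (hA : Bl A w b δ) {B : Matrix (Fin N) (Fin N) k} {c f q r f1 q1 r1 : k[X]}
    {t u g h : k} (hB : Rep A w B (Mx b δ c f q r t u g h)) (hf : X ^ b ∣ f - f1)
    (hq : X ^ b ∣ q - q1) (hr : X ^ b ∣ r - r1) : Rep A w B (Mx b δ c f1 q1 r1 t u g h) := by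
  refine hB.of_ker hA ?_
  rw [ker_iff]
  refine ⟨⟨?_, ?_, ?_⟩, ⟨?_, ?_, ?_⟩, ?_, ?_, ?_⟩
  · simp [Mx]
  · obtain ⟨z, hz⟩ := hf
    refine ⟨z, ?_⟩
    show X ^ δ * f - X ^ δ * f1 = X ^ (b + δ) * z
    rw [pow_add]
    linear_combination X ^ δ * hz
  · simp [Mx]
  · exact hr
  · exact hq
  · simp [Mx]
  · simp [Mx]
  · simp [Mx]
  · simp [Mx]

theorem comm_aeval {A B : Matrix (Fin N) (Fin N) k} (h : A * B = B * A) (p : k[X]) :
    aeval A p * B = B * aeval A p := by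
  rw [aeval_eq_sum_range, Finset.mul_sum, Finset.sum_mul]
  refine Finset.sum_congr rfl fun i _ => ?_
  rw [mul_smul_comm, smul_mul_assoc, (Commute.pow_right (show Commute B A from h.symm) i).eq]

theorem comm_sub {A B C : Matrix (Fin N) (Fin N) k} (hAB : A * B = B * A) (hAC : A * C = C * A)
    (hBC : B * C = C * B) (p q : k[X]) :
    (B - aeval A p) * (C - aeval A q) = (C - aeval A q) * (B - aeval A p) := by
  have h1 := comm_aeval hAB q
  have h2 := comm_aeval hAC p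
  have h3 : aeval A p * aeval A q = aeval A q * aeval A p := by
    rw [← map_mul, ← map_mul, mul_comm]
  rw [sub_mul, mul_sub, mul_sub, sub_mul, mul_sub, mul_sub, hBC, h2, h3, h1]
  abel

/-- different eigenvalues -/
theorem dist [IsAlgClosed k] [CharZero k] (hb : 4 ≤ b) (hG : GenAS k b δ) : DistS k b δ := by
  intro N A B C' w f q r f' q' r' t u g h t' u' g' h' hA hB hC hBC hd
  have hb1 : 1 ≤ b := by omega
  have hX2 : ∀ p : k[X], X ∣ X ^ (b - 2) * p := fun p =>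
    (dvd_pow_self X (by omega)).mul_right p
  have hAB := comm_A hA hB
  have hAC := comm_A hA hC
  set c : k := (X ^ δ * f : k[X]).coeff 0 with hc
  have hc' : c = (X ^ δ : k[X]).coeff 0 * f.coeff 0 := by rw [hc, mul_coeff_zero]
  have hd' : q.coeff 0 ^ 2 + 4 * (c * r.coeff 0) ≠ 0 := by
    rw [hc', mul_assoc]
    exact hd
  -- the eigenvalue
  obtain ⟨T, hT, hT1⟩ : ∃ T : k, c * T ^ 2 + (-q).coeff 0 * T + (-r).coeff 0 = 0 ∧
      2 * c * T + (-q).coeff 0 ≠ 0 := by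
    have hex : ∃ T : k, c * T ^ 2 + (-q).coeff 0 * T + (-r).coeff 0 = 0 := by
      by_cases h0 : c = 0
      · have hq0 : q.coeff 0 ≠ 0 := by
          intro h1
          apply hd'
          rw [h0, h1]
          ring
        refine ⟨-(r.coeff 0) / q.coeff 0, ?_⟩
        rw [h0, coeff_neg, coeff_neg]
        field_simp
        ring
      · obtain ⟨T, hT⟩ := IsAlgClosed.exists_root (C c * X ^ 2 + C ((-q).coeff 0) * X +
          C ((-r).coeff 0)) (by
            rw [degree_quadratic h0]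
            decide)
        refine ⟨T, ?_⟩
        rw [IsRoot.def] at hT
        simpa using hT
    obtain ⟨T, hT⟩ := hex
    refine ⟨T, hT, fun h1 => hd' ?_⟩
    rw [coeff_neg] at hT h1
    rw [coeff_neg] at hT
    have h2 : (2 * c * T + -q.coeff 0) ^ 2 = q.coeff 0 ^ 2 + 4 * (c * r.coeff 0) := by
      linear_combination 4 * c * hT
    rw [← h2, h1]
    ring
  obtain ⟨α, hα, a1, ha1⟩ := D8.hensel (X ^ δ * f) (-q) (-r) T hT hT1 b
  obtain ⟨w1, hA1, hw1⟩ := change1 hA hb1 α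
  have hB1 := hw1 B (X * f) (X * q) (X * r) t u g h (Dvd.intro _ rfl) hB
  have hC1 := hw1 C' (X ^ (b - 2) * f') (X ^ (b - 2) * q') (X ^ (b - 2) * r') t' u' g' h'
    (hX2 _) hC
  have hBC1 := comm_sub hAB hAC hBC (X ^ δ * (α * (X * f))) (X ^ δ * (α * (X ^ (b - 2) * f')))
  refine Two.cl_sub (f := X ^ δ * (α * (X * f))) (g := X ^ δ * (α * (X ^ (b - 2) * f')))
    (((Dvd.intro _ rfl).mul_left _).mul_left _) (((hX2 _).mul_left _).mul_left _) ?_
  generalize B - aeval A (X ^ δ * (α * (X * f))) = B1 at hB1 hBC1 ⊢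
  generalize C' - aeval A (X ^ δ * (α * (X ^ (b - 2) * f'))) = C1 at hC1 hBC1 ⊢
  generalize t + α.coeff 0 * u = t1 at hB1
  generalize h - (X ^ δ * α : k[X]).coeff 0 * g = h1 at hB1
  generalize t' + α.coeff 0 * u' = t1' at hC1
  generalize h' - (X ^ δ * α : k[X]).coeff 0 * g' = h1' at hC1
  obtain ⟨κ, hκ⟩ : ∃ κ, κ = q - 2 * (X ^ δ * (α * f)) := ⟨_, rfl⟩
  have hκ0 : κ.coeff 0 ≠ 0 := by
    intro h0
    apply hT1
    have h2 : κ = q - 2 * (α * (X ^ δ * f)) := by rw [hκ]; ring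
    have h3 : ((2 : k[X]).coeff 0 : k) = 2 := by
      have : (2 : k[X]) = C 2 := (map_ofNat C 2).symm
      rw [this, coeff_C_zero]
    rw [h2, coeff_sub, mul_coeff_zero, mul_coeff_zero, hα, ← hc, h3] at h0
    rw [coeff_neg]
    linear_combination -h0
  have hB1' : Rep A w1 B1 (Mx b δ 0 (X * f) (X * κ) 0 t1 u g h1) := by
    refine mx_congr hA1 hB1 ?_ ?_ ?_
    · rw [sub_self]; exact dvd_zero _
    · rw [hκ]
      refine ⟨0, ?_⟩
      ring
    · refine ⟨-(X * a1), ?_⟩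
      linear_combination -X * ha1
  obtain ⟨q1', hq1'⟩ : ∃ q1', q1' = q' - 2 * (X ^ δ * (α * f')) := ⟨_, rfl⟩
  obtain ⟨r1', hr1'⟩ : ∃ r1', r1' = r' + α * q' - X ^ δ * (α * (α * f')) := ⟨_, rfl⟩
  have hC1' : Rep A w1 C1 (Mx b δ 0 (X ^ (b - 2) * f') (X ^ (b - 2) * q1') (X ^ (b - 2) * r1')
      t1' u' g' h1') := by
    refine mx_congr hA1 hC1 ?_ ?_ ?_
    · rw [sub_self]; exact dvd_zero _
    · rw [hq1']
      refine ⟨0, ?_⟩
      ring
    · rw [hr1']
      refine ⟨0, ?_⟩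
      ring
  -- the second generator
  obtain ⟨G, e, hGe⟩ := NA.inv_mod hκ0 b
  obtain ⟨w2, hA2, hw2⟩ := change2 hA1 hb1 (f * G)
  have hB2 := hw2 B1 (X * f) (X * κ) 0 t1 u g h1 (dvd_zero _) hB1'
  have hC2 := hw2 C1 (X ^ (b - 2) * f') (X ^ (b - 2) * q1') (X ^ (b - 2) * r1') t1' u' g' h1'
    (hX2 _) hC1'
  have hAB1 := comm_A hA1 hB1'
  have hAC1 := comm_A hA1 hC1'
  have hBC2 := comm_sub hAB1 hAC1 hBC1 (-(X ^ δ * (f * G * 0)))
    (-(X ^ δ * (f * G * (X ^ (b - 2) * r1'))))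
  refine Two.cl_sub (f := -(X ^ δ * (f * G * 0))) (g := -(X ^ δ * (f * G * (X ^ (b - 2) * r1'))))
    ?_ ?_ ?_
  · rw [mul_zero, mul_zero, neg_zero]; exact dvd_zero _
  · exact (((hX2 _).mul_left _).mul_left _).neg_right
  generalize B1 - aeval A (-(X ^ δ * (f * G * 0))) = B2 at hB2 hBC2 ⊢
  generalize C1 - aeval A (-(X ^ δ * (f * G * (X ^ (b - 2) * r1')))) = C2 at hC2 hBC2 ⊢
  generalize u + (X ^ δ * (f * G) : k[X]).coeff 0 * t1 = u2 at hB2
  generalize g - (f * G).coeff 0 * h1 = g2 at hB2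
  generalize u' + (X ^ δ * (f * G) : k[X]).coeff 0 * t1' = u2' at hC2
  generalize g' - (f * G).coeff 0 * h1' = g2' at hC2
  have hB2' : Rep A w2 B2 (Mx b δ 0 0 (X * κ) 0 t1 u2 g2 h1) := by
    refine mx_congr hA2 hB2 ?_ ?_ ?_
    · refine ⟨-(X * f * e), ?_⟩
      linear_combination -X * f * hGe
    · refine ⟨0, ?_⟩
      ring
    · rw [sub_self]; exact dvd_zero _
  obtain ⟨φ, hφ⟩ : ∃ φ, φ = f' - f * G * q1' - X ^ δ * (f * G * (f * G * r1')) := ⟨_, rfl⟩
  obtain ⟨q2', hq2'⟩ : ∃ q2', q2' = q1' + 2 * (X ^ δ * (f * G * r1')) := ⟨_, rfl⟩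
  have hC2' : Rep A w2 C2 (Mx b δ 0 (X ^ (b - 2) * φ) (X ^ (b - 2) * q2') (X ^ (b - 2) * r1')
      t1' u2' g2' h1') := by
    refine mx_congr hA2 hC2 ?_ ?_ ?_
    · rw [hφ]
      refine ⟨0, ?_⟩
      ring
    · rw [hq2']
      refine ⟨0, ?_⟩
      ring
    · rw [sub_self]; exact dvd_zero _
  -- the last subtraction
  have hm0 : (X ^ (b - 3) * (q2' * G) : k[X]).coeff 0 = 0 := by
    rw [mul_coeff_zero, coeff_X_pow, if_neg (by omega), zero_mul]
  have hC3 := mx_sub_mul hA2 hb1 hB2' hC2' (X ^ (b - 3) * (q2' * G))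
  rw [hm0] at hC3
  have hBC3 : B2 * (C2 - aeval A (X ^ (b - 3) * (q2' * G)) * B2) =
      (C2 - aeval A (X ^ (b - 3) * (q2' * G)) * B2) * B2 := by
    have h5 := comm_aeval (comm_A hA2 hB2') (X ^ (b - 3) * (q2' * G))
    rw [mul_sub, sub_mul, hBC2, ← mul_assoc, ← h5, mul_assoc]
  refine Two.cl_sub_mul (X ^ (b - 3) * (q2' * G)) ?_
  generalize C2 - aeval A (X ^ (b - 3) * (q2' * G)) * B2 = C3 at hC3 hBC3 ⊢
  have e3 : (X ^ (b - 2) : k[X]) = X ^ (b - 3) * X := by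
    rw [← pow_succ]
    congr 1
    omega
  have hC3' : Rep A w2 C3 (Mx b δ 0 (X ^ (b - 2) * φ) 0 (X ^ (b - 2) * r1') t1' u2' g2' h1') := by
    have h6 : (0 : k[X]) - X ^ (b - 3) * (q2' * G) * 0 = 0 := by ring
    rw [h6] at hC3
    simp only [zero_mul, sub_zero] at hC3
    refine mx_congr hA2 hC3 ?_ ?_ ?_
    · refine ⟨0, ?_⟩
      ring
    · refine ⟨-(X ^ (b - 3) * X * q2' * e), ?_⟩
      rw [e3]
      linear_combination -X ^ (b - 3) * X * q2' * hGe
    · refine ⟨0, ?_⟩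
      ring
  have hr := (comm_mx hA2 (by omega) (Dvd.intro _ rfl) (dvd_zero _) hB2' hC3').1 hBC3
  have e4 : (X ^ (b - 1) : k[X]) = X ^ (b - 2) * X := by
    rw [← pow_succ]
    congr 1
    omega
  refine cl_fam hb hG hA2 hB2' hC3' hκ0 ?_ ?_ ?_ ?_
  · have h7 := NA.coeff_div (b := b) hb1 0 (g2 * t1' - g2' * t1) (by
      have := hr.r11
      convert this using 2
      ring)
    rw [coeff_zero] at h7
    linear_combination h7
  · have h7 := NA.coeff_div (b := b) hb1 0 (h1 * u2' - h1' * u2) (by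
      have := hr.r22
      convert this using 2
      ring)
    rw [coeff_zero] at h7
    linear_combination h7
  · have h7 := NA.coeff_div (b := b) hb1 (-(φ * κ)) (g2 * u2' - g2' * u2) (by
      have := hr.r12
      convert this using 2
      rw [e4]
      ring)
    rw [coeff_neg, mul_coeff_zero] at h7
    linear_combination -h7
  · have h7 := NA.coeff_div (b := b) hb1 (κ * r1') (h1 * t1' - h1' * t1) (by
      have := hr.r21
      convert this using 2
      rw [e4]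
      ring)
    rw [mul_coeff_zero] at h7
    linear_combination h7

end PB

end Pool.Agent.Lib.D13
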