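import Pool.Agent.Lib.D13.PlEv

/-!
# MP_5dcbc3_ag: the planar normal forms `(3, 3, 3)` and `(p, 3, 3)`, `p ≥ 4`
-/

namespace Pool.Agent.Lib.D13.Pl

open Matrix Pool.Agent.Lib.Q5dc Pool.Agent.Lib.D7 Pool.Agent.Lib.D8

variable {k : Type*} [Field k] {N : ℕ}

/-- Theorem B for two polynomials in the matrices -/
theorem cl_ev_B [IsAlgClosed k] [CharZero k]
    (φ : MvPolynomial (Fin 2) k →ₐ[k] Matrix (Fin N) (Fin N) k) {v : Fin N → k}
    (hT : CN ![φ (MvPolynomial.X 0), φ (MvPolynomial.X 1), 0])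
    (hg : Gen (φ (MvPolynomial.X 0)) (φ (MvPolynomial.X 1)) v) {A B : MvPolynomial (Fin 2) k}
    {a b e : ℕ} (ha : 2 ≤ a) (hb : 2 ≤ b) (hN : a * (b + 1) + e = N)
    (hgens : (∀ i, ![φ (MvPolynomial.X 0), φ (MvPolynomial.X 1), 0] i ∈ adj ![φ A, φ B, 0]) ∧
      φ A ∈ adj ![φ (MvPolynomial.X 0), φ (MvPolynomial.X 1), 0] ∧
      φ B ∈ adj ![φ (MvPolynomial.X 0), φ (MvPolynomial.X 1), 0])
    (hAB : φ (A ^ a * B) = 0) (hA : φ (A ^ (a + e)) = 0) {κ : k} (hκ : κ ≠ 0)
    {W : MvPolynomial (Fin 2) k} (hB : φ (MvPolynomial.C κ * B ^ (b + 1)) = φ (A * W)) :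
    Cl ![φ (MvPolynomial.X 0), φ (MvPolynomial.X 1), 0] := by
  obtain ⟨h1, h2, h3⟩ := hgens
  refine cl_of_adj h1 (cl_B ha hb hN (ev_comm φ A B) ?_ (hT.nilp h3)
    (hg.of_adj (h1 0) (h1 1)) ?_ ?_)
  · rw [← map_pow]
    exact hA
  · rw [← map_pow, ← map_mul]
    exact hAB
  · intro w
    refine ⟨κ⁻¹ • φ W *ᵥ w, ?_⟩
    rw [ev_C, map_mul] at hB
    rw [← map_pow, Matrix.mulVec_smul, Matrix.mulVec_mulVec, ← hB, Matrix.smul_mulVec, smul_smul,
      inv_mul_cancel₀ hκ, one_smul]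

/-- the normal forms `(p, 3, 3)`, `p ≥ 4` -/
theorem nf_p33 [IsAlgClosed k] [CharZero k] {q : ℕ} {X Y : Matrix (Fin N) (Fin N) k}
    {v : Fin N → k} {a b c : k} (h : NF (q + 4) 3 3 X Y v a b c) : Cl ![X, Y, 0] := by
  obtain ⟨φ, h1, h2, hf, hg⟩ := h.ev
  have hT : CN ![X, Y, 0] := cn_pair h.comm h.nilX h.nilY
  have hG : Gen X Y v := h.cyc.gen
  rw [← h1, ← h2] at hT hG ⊢
  -- the parameters
  obtain ⟨r, hr⟩ := IsAlgClosed.exists_eq_mul_self b
  obtain ⟨t, ht⟩ := IsAlgClosed.exists_eq_mul_self (-c)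
  have ht0 : t ≠ 0 := by
    rintro rfl
    apply h.hc
    linear_combination -ht
  have hr0 : r ≠ 0 := by
    rintro rfl
    apply h.hb
    linear_combination hr
  obtain ⟨l, hl0, hl⟩ : ∃ l : k, l ≠ 0 ∧ (r - l) * (r - l) = -c := by
    by_cases h0 : r - t = 0
    · refine ⟨r + t, ?_, by linear_combination -ht⟩
      intro h3
      apply ht0
      have h4 : (2 : k) * t = 0 := by linear_combination h3 - h0
      exact (mul_eq_zero.1 h4).resolve_left two_ne_zero
    · exact ⟨r - t, h0, by linear_combination -ht⟩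
  have hrl : r - l ≠ 0 := by
    intro h0
    apply h.hc
    linear_combination hl - (r - l) * h0
  obtain ⟨e, he⟩ : ∃ e : k, l * l * e = a :=
    ⟨a / (l * l), by field_simp⟩
  -- the polynomials
  set x : MvPolynomial (Fin 2) k := MvPolynomial.X 0 with hx
  set y : MvPolynomial (Fin 2) k := MvPolynomial.X 1 with hy
  have hCb : (MvPolynomial.C b : MvPolynomial (Fin 2) k) = MvPolynomial.C r * MvPolynomial.C r := by
    rw [hr, MvPolynomial.C_mul]
  have hCc : (MvPolynomial.C c : MvPolynomial (Fin 2) k) =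
      -((MvPolynomial.C r - MvPolynomial.C l) * (MvPolynomial.C r - MvPolynomial.C l)) := by
    rw [← MvPolynomial.C_sub, ← MvPolynomial.C_mul, hl, MvPolynomial.C_neg, neg_neg]
  have hCa : (MvPolynomial.C a : MvPolynomial (Fin 2) k) =
      MvPolynomial.C l * MvPolynomial.C l * MvPolynomial.C e := by
    rw [← he, MvPolynomial.C_mul, MvPolynomial.C_mul]
  have hinv : ∀ {z : k}, z ≠ 0 → (MvPolynomial.C z⁻¹ : MvPolynomial (Fin 2) k) *
      MvPolynomial.C z = 1 := by
    intro z hz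
    rw [← MvPolynomial.C_mul, inv_mul_cancel₀ hz, MvPolynomial.C_1]
  obtain ⟨hs1, hs2, hs3⟩ := soc (r₁ := q + 2) (r₂ := 1) (r₃ := 1) φ.toRingHom x y
    (MvPolynomial.C a) (MvPolynomial.C b) (MvPolynomial.C c) _ _ _ hf hg (hinv h.ha) (hinv h.hb)
    (hinv h.hc)
  have hs1' : φ (y ^ (q + 2 + 3) * (x + y)) = 0 := hs1
  have hs2' : φ (x ^ (1 + 3) * (x + y)) = 0 := hs2
  have hs3' : φ (x ^ (1 + 3) * y) = 0 := hs3
  set L := MvPolynomial.C r * x + MvPolynomial.C l * y with hL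
  set B := x + MvPolynomial.C e * (y ^ (q + 1) * (x + y)) with hB
  refine cl_ev_B φ hT hG (A := L) (B := B) (a := 2) (b := 2) (e := q + 4) le_rfl le_rfl ?_ ?_ ?_ ?_
    (κ := r * l * (r - l)) (mul_ne_zero (mul_ne_zero hr0 hl0) hrl)
    (W := MvPolynomial.C r * (MvPolynomial.C r - MvPolynomial.C l) * MvPolynomial.C e ^ 3 *
      (y ^ (3 * q + 4) * (x + y)) + MvPolynomial.C l * (MvPolynomial.C r - MvPolynomial.C l) *
      (x * (x + y)) - MvPolynomial.C r * MvPolynomial.C l * (x * y)) ?_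
  · have := h.sum
    omega
  · refine ev_gens φ hT (a₁ := r) (a₂ := l) (b₁ := 1) (b₂ := 0) 0 0
      (MvPolynomial.C e * y ^ (q + 1)) (MvPolynomial.C e * y ^ (q + 1)) (by simp) (by simp)
      (by simp [hy]) (by simp [hy]) ?_ ?_ ?_
    · rw [hL]
      ring
    · rw [hB, MvPolynomial.C_1, MvPolynomial.C_0]
      ring
    · intro h0
      apply hl0
      linear_combination -h0
  · refine ev_zero φ hf hg (MvPolynomial.C l ^ 2 + MvPolynomial.C e * y ^ q *
      (MvPolynomial.C r ^ 2 * x + 2 * MvPolynomial.C r * MvPolynomial.C l * y)) 1 ?_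
    rw [hCa, hCb, hCc, hL, hB]
    show _ = _ + 1 * (_ * (y ^ (q + 3) * (x + y)) + _ * (x ^ 2 * (x + y)) + _ * (x ^ 2 * y))
    ring
  · obtain ⟨V, hV⟩ := lin_pow x y (MvPolynomial.C r) (MvPolynomial.C l) (q + 4)
    have h3 : L ^ (2 + (q + 4)) = MvPolynomial.C l ^ (q + 4 + 2) * (y ^ (q + 2 + 3) * (x + y)) +
        MvPolynomial.C r ^ (q + 4 + 2) * x ^ (q + 1) * (x ^ (1 + 3) * (x + y)) -
        (MvPolynomial.C r - MvPolynomial.C l) ^ (q + 4 + 2) * x ^ (q + 1) * (x ^ (1 + 3) * y) +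
        V * (x * y * (x + y)) := by
      rw [show 2 + (q + 4) = q + 4 + 2 by ring, hL, hV]
      ring
    rw [h3, map_add, map_sub, map_add, map_mul φ _ (y ^ (q + 2 + 3) * (x + y)),
      map_mul φ _ (x ^ (1 + 3) * (x + y)), map_mul φ _ (x ^ (1 + 3) * y), hs1', hs2', hs3',
      map_mul φ V, hf, mul_zero, mul_zero, mul_zero, mul_zero, add_zero, sub_zero, add_zero]
  · have h3 : MvPolynomial.C (r * l * (r - l)) * B ^ (2 + 1) = L * (MvPolynomial.C r *
        (MvPolynomial.C r - MvPolynomial.C l) * MvPolynomial.C e ^ 3 *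
        (y ^ (3 * q + 4) * (x + y)) + MvPolynomial.C l * (MvPolynomial.C r - MvPolynomial.C l) *
        (x * (x + y)) - MvPolynomial.C r * MvPolynomial.C l * (x * y)) +
        (MvPolynomial.C r * MvPolynomial.C l * (MvPolynomial.C r - MvPolynomial.C l) *
          (3 * MvPolynomial.C e * y ^ q * x + 3 * MvPolynomial.C e ^ 2 * y ^ (2 * q + 1) *
          (x + y)) + MvPolynomial.C r * (MvPolynomial.C r - MvPolynomial.C l) *
          MvPolynomial.C e ^ 3 * y ^ (3 * q + 2) * (MvPolynomial.C l * x +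
          (2 * MvPolynomial.C l - MvPolynomial.C r) * y) + MvPolynomial.C l ^ 3) *
        (x * y * (x + y)) := by
      rw [MvPolynomial.C_mul, MvPolynomial.C_mul, MvPolynomial.C_sub, hL, hB]
      ring
    rw [h3, map_add, map_mul φ _ (x * y * (x + y)), hf, mul_zero, add_zero]

/-- the normal form `(3, 3, 3)` -/
theorem nf_333 [IsAlgClosed k] [CharZero k] {X Y : Matrix (Fin N) (Fin N) k}
    {v : Fin N → k} {a b c : k} (h : NF 3 3 3 X Y v a b c) : Cl ![X, Y, 0] := by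
  obtain ⟨φ, h1, h2, hf, hg⟩ := h.ev
  have hT : CN ![X, Y, 0] := cn_pair h.comm h.nilX h.nilY
  have hG : Gen X Y v := h.cyc.gen
  rw [← h1, ← h2] at hT hG ⊢
  -- the root
  obtain ⟨t, ht⟩ : ∃ t : k, a * t ^ 2 * (t - 1) ^ 2 - b * (t - 1) ^ 2 - c * t ^ 2 = 0 := by
    let P : Polynomial k := Polynomial.C a * Polynomial.X ^ 2 * (Polynomial.X - 1) ^ 2 -
      Polynomial.C b * (Polynomial.X - 1) ^ 2 - Polynomial.C c * Polynomial.X ^ 2
    have hP : P = Polynomial.C a * Polynomial.X ^ 4 + (Polynomial.C (-2 * a) * Polynomial.X ^ 3 +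
        Polynomial.C (a - b - c) * Polynomial.X ^ 2 + Polynomial.C (2 * b) * Polynomial.X +
        Polynomial.C (-b)) := by
      simp only [P, map_mul, map_sub, map_neg, Polynomial.C_ofNat]
      ring
    have hd : P.degree ≠ 0 := by
      have h3 : (Polynomial.C (-2 * a) * Polynomial.X ^ 3 +
        Polynomial.C (a - b - c) * Polynomial.X ^ 2 + Polynomial.C (2 * b) * Polynomial.X +
        Polynomial.C (-b)).degree < 4 := lt_of_le_of_lt Polynomial.degree_cubic_le (by norm_num)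
      have h4 : (Polynomial.C a * Polynomial.X ^ 4).degree = 4 :=
        Polynomial.degree_C_mul_X_pow 4 h.ha
      rw [hP, Polynomial.degree_add_eq_left_of_degree_lt (by rw [h4]; exact h3), h4]
      norm_num
    obtain ⟨t, ht⟩ := IsAlgClosed.exists_root P hd
    refine ⟨t, ?_⟩
    have h3 := Polynomial.IsRoot.def.1 ht
    simp only [P, Polynomial.eval_sub, Polynomial.eval_mul, Polynomial.eval_pow,
      Polynomial.eval_C, Polynomial.eval_X, Polynomial.eval_one] at h3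
    exact h3
  have ht0 : t ≠ 0 := by
    rintro rfl
    apply h.hb
    linear_combination -ht
  have ht1 : t - 1 ≠ 0 := by
    intro h0
    have h3 : t = 1 := by linear_combination h0
    subst h3
    apply h.hc
    linear_combination -ht
  obtain ⟨m, hm⟩ : ∃ m : k, m * t ^ 2 = b := ⟨b / t ^ 2, by field_simp⟩
  have hmc : (m - a) * (t - 1) ^ 2 = -c := by
    have h3 : t ^ 2 * ((m - a) * (t - 1) ^ 2 + c) = 0 := by
      linear_combination -ht + (t - 1) ^ 2 * hm
    have h4 := (mul_eq_zero.1 h3).resolve_left (pow_ne_zero 2 ht0)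
    linear_combination h4
  -- the polynomials
  set x : MvPolynomial (Fin 2) k := MvPolynomial.X 0 with hx
  set y : MvPolynomial (Fin 2) k := MvPolynomial.X 1 with hy
  have hCb : (MvPolynomial.C b : MvPolynomial (Fin 2) k) =
      MvPolynomial.C m * MvPolynomial.C t ^ 2 := by
    rw [← hm, MvPolynomial.C_mul, MvPolynomial.C_pow]
  have hCc : (MvPolynomial.C c : MvPolynomial (Fin 2) k) =
      -((MvPolynomial.C m - MvPolynomial.C a) * (MvPolynomial.C t - 1) ^ 2) := by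
    rw [← MvPolynomial.C_1, ← MvPolynomial.C_sub, ← MvPolynomial.C_sub, ← MvPolynomial.C_pow,
      ← MvPolynomial.C_mul, hmc, MvPolynomial.C_neg, neg_neg]
  have hinv : ∀ {z : k}, z ≠ 0 → (MvPolynomial.C z⁻¹ : MvPolynomial (Fin 2) k) *
      MvPolynomial.C z = 1 := by
    intro z hz
    rw [← MvPolynomial.C_mul, inv_mul_cancel₀ hz, MvPolynomial.C_1]
  obtain ⟨hs1, hs2, hs3⟩ := soc (r₁ := 1) (r₂ := 1) (r₃ := 1) φ.toRingHom x y
    (MvPolynomial.C a) (MvPolynomial.C b) (MvPolynomial.C c) _ _ _ hf hg (hinv h.ha) (hinv h.hb)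
    (hinv h.hc)
  have hs1' : φ (y ^ (1 + 3) * (x + y)) = 0 := hs1
  have hs2' : φ (x ^ (1 + 3) * (x + y)) = 0 := hs2
  have hs3' : φ (x ^ (1 + 3) * y) = 0 := hs3
  set L := MvPolynomial.C t * x + 1 * y with hL
  set B := MvPolynomial.C m * x + MvPolynomial.C a * y with hB
  have hAB : φ (L ^ 2 * B) = 0 := by
    refine ev_zero φ hf hg ((2 * MvPolynomial.C t - 1) * MvPolynomial.C a + MvPolynomial.C m) 1 ?_
    rw [hCb, hCc, hL, hB]
    show _ = _ + 1 * (_ * (y ^ 2 * (x + y)) + _ * (x ^ 2 * (x + y)) + _ * (x ^ 2 * y))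
    ring
  by_cases hdet : t * a - 1 * m = 0
  · -- the third power of `L` vanishes
    have hm' : m = t * a := by linear_combination -hdet
    have hL3 : φ (L ^ 3) = 0 := by
      have h3 : L ^ 2 * B = MvPolynomial.C a * L ^ 3 := by
        rw [hL, hB, hm', MvPolynomial.C_mul]
        ring
      rw [h3, ev_C] at hAB
      exact (smul_eq_zero.1 hAB).resolve_left h.ha
    refine cl_ev_B φ hT hG (A := L) (B := x) (a := 3) (b := 2) (e := 0) (by norm_num) le_rfl ?_ ?_
      ?_ hL3 (κ := t * (t - 1)) (mul_ne_zero ht0 ht1)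
      (W := (MvPolynomial.C t - 1) * (x * (x + y)) - MvPolynomial.C t * (x * y)) ?_
    · have := h.sum
      omega
    · refine ev_gens φ hT (a₁ := t) (a₂ := 1) (b₁ := 1) (b₂ := 0) 0 0 0 0 (by simp) (by simp)
        (by simp) (by simp) ?_ ?_ ?_
      · rw [hL, MvPolynomial.C_1]
        ring
      · rw [MvPolynomial.C_1, MvPolynomial.C_0]
        ring
      · rw [mul_zero, zero_sub, mul_one]
        exact neg_ne_zero.2 one_ne_zero
    · rw [map_mul, hL3, zero_mul]
    · have h3 : MvPolynomial.C (t * (t - 1)) * x ^ (2 + 1) = L * ((MvPolynomial.C t - 1) *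
          (x * (x + y)) - MvPolynomial.C t * (x * y)) + 1 * (x * y * (x + y)) := by
        rw [MvPolynomial.C_mul, MvPolynomial.C_sub, MvPolynomial.C_1, hL]
        ring
      rw [h3, map_add, map_mul φ _ (x * y * (x + y)), hf, mul_zero, add_zero]
  · refine cl_ev_B φ hT hG (A := L) (B := B) (a := 2) (b := 2) (e := 3) le_rfl le_rfl ?_ ?_ hAB ?_
      (κ := t * (t - 1)) (mul_ne_zero ht0 ht1)
      (W := MvPolynomial.C t * (MvPolynomial.C t - 1) * MvPolynomial.C a ^ 3 * (y * (x + y)) +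
        (MvPolynomial.C t - 1) * MvPolynomial.C m ^ 3 * (x * (x + y)) -
        MvPolynomial.C t * (MvPolynomial.C m - MvPolynomial.C a) ^ 3 * (x * y)) ?_
    · have := h.sum
      omega
    · refine ev_gens φ hT (a₁ := t) (a₂ := 1) (b₁ := m) (b₂ := a) 0 0 0 0 (by simp) (by simp)
        (by simp) (by simp) ?_ ?_ hdet
      · rw [hL, MvPolynomial.C_1]
        ring
      · rw [hB]
        ring
    · obtain ⟨V, hV⟩ := lin_pow x y (MvPolynomial.C t) 1 3
      have h3 : L ^ (2 + 3) = 1 ^ (3 + 2) * (y ^ (1 + 3) * (x + y)) +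
          MvPolynomial.C t ^ (3 + 2) * (x ^ (1 + 3) * (x + y)) -
          (MvPolynomial.C t - 1) ^ (3 + 2) * (x ^ (1 + 3) * y) + V * (x * y * (x + y)) := hV
      rw [h3, map_add, map_sub, map_add, map_mul φ _ (y ^ (1 + 3) * (x + y)),
        map_mul φ _ (x ^ (1 + 3) * (x + y)), map_mul φ _ (x ^ (1 + 3) * y), hs1', hs2', hs3',
        map_mul φ V, hf, mul_zero, mul_zero, mul_zero, mul_zero, add_zero, sub_zero, add_zero]
    · have h3 : MvPolynomial.C (t * (t - 1)) * B ^ (2 + 1) = L * (MvPolynomial.C t *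
          (MvPolynomial.C t - 1) * MvPolynomial.C a ^ 3 * (y * (x + y)) +
          (MvPolynomial.C t - 1) * MvPolynomial.C m ^ 3 * (x * (x + y)) -
          MvPolynomial.C t * (MvPolynomial.C m - MvPolynomial.C a) ^ 3 * (x * y)) +
          (3 * MvPolynomial.C t * (MvPolynomial.C t - 1) * MvPolynomial.C m ^ 2 *
            MvPolynomial.C a - MvPolynomial.C t ^ 2 * (MvPolynomial.C t - 1) *
            MvPolynomial.C a ^ 3 - (MvPolynomial.C t ^ 2 - 1) * MvPolynomial.C m ^ 3 +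
            MvPolynomial.C t ^ 2 * (MvPolynomial.C m - MvPolynomial.C a) ^ 3) *
          (x * y * (x + y)) := by
        rw [MvPolynomial.C_mul, MvPolynomial.C_sub, MvPolynomial.C_1, hL, hB]
        ring
      rw [h3, map_add, map_mul φ _ (x * y * (x + y)), hf, mul_zero, add_zero]

end Pool.Agent.Lib.D13.Pl
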