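import Pool.Agent.Lib.D13.PlLines

/-!
# MP_5dcbc3_ag: planar pairs in normal form: permutations of the three lines, changes of generators
-/

namespace Pool.Agent.Lib.D13.Pl

open Matrix Polynomial Pool.Agent.Lib.Q5dc Pool.Agent.Lib.D7 Pool.Agent.Lib.D8.Two

variable {k : Type*} [Field k] {N : ℕ}

theorem cn_of {X Y : Matrix (Fin N) (Fin N) k} (hc : X * Y = Y * X) (hX : IsNilpotent X)
    (hY : IsNilpotent Y) : CN ![X, Y, 0] := by
  refine ⟨fun i j => ?_, fun i => ?_⟩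
  · fin_cases i <;> fin_cases j <;> simp [hc]
  · fin_cases i
    · exact hX
    · exact hY
    · exact IsNilpotent.zero

theorem xyy {X Y : Matrix (Fin N) (Fin N) k} (hc : X * Y = Y * X) (h : X * Y * (X + Y) = 0) :
    X * Y * Y = -(X * X * Y) := by
  rw [mul_add] at h
  have h1 : X * Y * X = X * X * Y := by rw [mul_assoc, ← hc, mul_assoc]
  rw [h1] at h
  exact eq_neg_of_add_eq_zero_right h

theorem pow_swap {X Y : Matrix (Fin N) (Fin N) k} (hc : X * Y = Y * X)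
    (h : X * Y * (X + Y) = 0) (n : ℕ) :
    X * Y ^ (n + 1) = (-1 : k) ^ n • (X ^ (n + 1) * Y) := by
  induction n with
  | zero => simp
  | succ n ih =>
    rw [pow_succ Y (n + 1), ← mul_assoc, ih, smul_mul_assoc, pow_succ X n, mul_assoc (X ^ n),
      mul_assoc (X ^ n), xyy hc h, pow_succ (-1 : k) n, pow_succ X (n + 1), pow_succ X n,
      mul_neg, smul_neg, mul_neg_one, neg_smul]
    simp only [mul_assoc]

theorem pow_sum_mul {X Y : Matrix (Fin N) (Fin N) k} (hc : X * Y = Y * X)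
    (h : X * Y * (X + Y) = 0) (n : ℕ) :
    (X + Y) ^ (n + 1) * Y = (X + Y) * Y ^ (n + 1) := by
  have hcc : Commute X Y := hc
  have hc2 : Commute (X + Y) (X * Y) :=
    ((Commute.refl X).add_left hcc.symm).mul_right (hcc.add_left (Commute.refl Y))
  have h1 : (X + Y) * X * Y = 0 := by
    rw [mul_assoc, hc2.eq, h]
  have h2 : (X + Y) * (X + Y) * Y = (X + Y) * Y * Y := by
    rw [mul_add (X + Y) X Y, add_mul, h1, zero_add]
  induction n with
  | zero => simp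
  | succ n ih =>
    rw [pow_succ' (X + Y) (n + 1), mul_assoc, ih, pow_succ' Y n, pow_succ' Y (n + 1),
      pow_succ' Y n, ← mul_assoc, ← mul_assoc, ← mul_assoc, ← mul_assoc, h2]

theorem NF.swap {p1 p2 p3 : ℕ} {X Y : Matrix (Fin N) (Fin N) k} {v : Fin N → k} {a b c : k}
    (h : NF p1 p2 p3 X Y v a b c) : NF p2 p1 p3 Y X v b a ((-1) ^ (p3 - 2) * c) where
  comm := h.comm.symm
  nilX := h.nilY
  nilY := h.nilX
  cyc := cyc_of_adj h.comm.symm (mem_adj ![Y, X, 0] 1) (mem_adj ![Y, X, 0] 0) h.cyc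
  rel := by rw [← h.comm, add_comm Y X]; exact h.rel
  relg := by
    obtain ⟨m, hm⟩ : ∃ m, p3 = m + 2 := ⟨p3 - 2, by have := h.h3; omega⟩
    have h1 := h.relg
    subst hm
    have e : m + 2 - 1 = m + 1 := by omega
    have e2 : m + 2 - 2 = m := by omega
    rw [e] at h1 ⊢
    rw [e2]
    have hc : Commute X Y := h.comm
    rw [← (hc.pow_right (m + 1)).eq, pow_swap h.comm h.rel, smul_smul, mul_comm ((-1) ^ m) c,
      mul_assoc, ← mul_pow, neg_one_mul, neg_neg, one_pow, mul_one, add_comm Y X,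
      add_comm (b • _)]
    exact h1
  ha := h.hb
  hb := h.ha
  hc := mul_ne_zero (pow_ne_zero _ (neg_ne_zero.2 one_ne_zero)) h.hc
  h1 := h.h2
  h2 := h.h1
  h3 := h.h3
  sum := by rw [add_comm p2 p1]; exact h.sum

theorem NF.swap23 {p1 p2 p3 : ℕ} {X Y : Matrix (Fin N) (Fin N) k} {v : Fin N → k} {a b c : k}
    (h : NF p1 p2 p3 X Y v a b c) : NF p1 p3 p2 X (-(X + Y)) v ((-1) ^ p1 * a) (-c) (-b) := by
  have hc : Commute X Y := h.comm
  have hXW : X * -(X + Y) = -(X + Y) * X := by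
    rw [mul_neg, neg_mul, mul_add, add_mul, h.comm]
  have hT := cn_of h.comm h.nilX h.nilY
  have mX : X ∈ adj ![X, -(X + Y), 0] := mem_adj ![X, -(X + Y), 0] 0
  have mW : -(X + Y) ∈ adj ![X, -(X + Y), 0] := mem_adj ![X, -(X + Y), 0] 1
  have mY : Y ∈ adj ![X, -(X + Y), 0] := by
    have e := sub_mem (neg_mem mW) mX
    rwa [neg_neg, add_sub_cancel_left] at e
  have eY : X + -(X + Y) = -Y := by rw [neg_add, ← add_assoc, add_neg_cancel, zero_add]
  refine ⟨hXW, h.nilX, ?_, cyc_of_adj hXW mX mY h.cyc, ?_, ?_, ?_, ?_, ?_, h.h1, h.h3, h.h2, ?_⟩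
  · exact hT.nilp (neg_mem (add_mem (mem_adj ![X, Y, 0] 0) (mem_adj ![X, Y, 0] 1)))
  · rw [eY, mul_neg, mul_neg, neg_mul, neg_neg]
    have hcom : Commute (X + Y) Y := hc.add_left (Commute.refl Y)
    rw [mul_assoc, hcom.eq, ← mul_assoc, h.rel]
  · obtain ⟨m, hm⟩ : ∃ m, p1 = m + 2 := ⟨p1 - 2, by have := h.h1; omega⟩
    have h1 := h.relg
    subst hm
    have e : m + 2 - 1 = m + 1 := by omega
    rw [e] at h1 ⊢
    have hcom : Commute (X + Y) Y := hc.add_left (Commute.refl Y)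
    have hp : (-(X + Y)) ^ (m + 1) * -Y = (-1 : k) ^ (m + 2) • (Y ^ (m + 1) * (X + Y)) := by
      rw [← neg_one_smul k (X + Y), _root_.smul_pow, smul_mul_assoc, mul_neg, pow_sum_mul h.comm h.rel,
        (hcom.pow_right (m + 1)).eq, pow_succ (-1 : k) (m + 1), mul_neg_one, neg_smul, smul_neg]
    rw [eY, hp, smul_smul, mul_comm _ a, mul_assoc, ← mul_pow, neg_one_mul, neg_neg, one_pow,
      mul_one, ← h1]
    simp only [mul_neg, neg_smul, smul_neg, neg_neg]
    abel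
  · exact mul_ne_zero (pow_ne_zero _ (neg_ne_zero.2 one_ne_zero)) h.ha
  · exact neg_ne_zero.2 h.hc
  · exact neg_ne_zero.2 h.hb
  · have := h.sum; omega

theorem cl_swap {X Y : Matrix (Fin N) (Fin N) k} (h : Cl ![Y, X, 0]) : Cl ![X, Y, 0] := by
  refine cl_of_adj (fun i => ?_) h
  fin_cases i
  · exact mem_adj ![Y, X, 0] 1
  · exact mem_adj ![Y, X, 0] 0
  · exact zero_mem _

theorem cl_swap23 {X Y : Matrix (Fin N) (Fin N) k} (h : Cl ![X, -(X + Y), 0]) :
    Cl ![X, Y, 0] := by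
  have mX : X ∈ adj ![X, -(X + Y), 0] := mem_adj ![X, -(X + Y), 0] 0
  have mW : -(X + Y) ∈ adj ![X, -(X + Y), 0] := mem_adj ![X, -(X + Y), 0] 1
  refine cl_of_adj (fun i => ?_) h
  fin_cases i
  · exact mX
  · show Y ∈ _
    have e := sub_mem (neg_mem mW) mX
    rwa [neg_neg, add_sub_cancel_left] at e
  · exact zero_mem _

/-- it is enough to treat the sorted exponents -/
theorem nf_sort (H : ∀ (p1 p2 p3 : ℕ) (X Y : Matrix (Fin N) (Fin N) k) (v : Fin N → k)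
      (a b c : k), NF p1 p2 p3 X Y v a b c → p3 ≤ p2 → p2 ≤ p1 → Cl ![X, Y, 0])
    {p1 p2 p3 : ℕ} {X Y : Matrix (Fin N) (Fin N) k} {v : Fin N → k} {a b c : k}
    (h : NF p1 p2 p3 X Y v a b c) : Cl ![X, Y, 0] := by
  rcases le_total p1 p2 with h12 | h12
  · rcases le_total p1 p3 with h13 | h13
    · rcases le_total p2 p3 with h23 | h23
      · -- p1 ≤ p2 ≤ p3
        exact cl_swap (cl_swap23 (cl_swap (H _ _ _ _ _ _ _ _ _ h.swap.swap23.swap h12 h23)))
      · -- p1 ≤ p3 ≤ p2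
        exact cl_swap (cl_swap23 (H _ _ _ _ _ _ _ _ _ h.swap.swap23 h13 h23))
    · -- p3 ≤ p1 ≤ p2
      exact cl_swap (H _ _ _ _ _ _ _ _ _ h.swap h13 h12)
  · rcases le_total p2 p3 with h23 | h23
    · rcases le_total p1 p3 with h13 | h13
      · -- p2 ≤ p1 ≤ p3
        exact cl_swap23 (cl_swap (H _ _ _ _ _ _ _ _ _ h.swap23.swap h12 h13))
      · -- p2 ≤ p3 ≤ p1
        exact cl_swap23 (H _ _ _ _ _ _ _ _ _ h.swap23 h23 h13)
    · exact H _ _ _ _ _ _ _ _ _ h h23 h12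

/-- the generators may be changed by products -/
theorem cl_of_mod {X Y X' Y' : Matrix (Fin N) (Fin N) k} (hT : CN ![X, Y, 0])
    (mX : X' ∈ adj ![X, Y, 0]) (mY : Y' ∈ adj ![X, Y, 0])
    (h1 : X - X' ∈ Submodule.span k {M : Matrix (Fin N) (Fin N) k |
        ∃ P ∈ adj ![X, Y, 0], ∃ Q ∈ adj ![X, Y, 0], M = P * Q})
    (h2 : Y - Y' ∈ Submodule.span k {M : Matrix (Fin N) (Fin N) k |
        ∃ P ∈ adj ![X, Y, 0], ∃ Q ∈ adj ![X, Y, 0], M = P * Q})
    (h : Cl ![X', Y', 0]) : Cl ![X, Y, 0] := by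
  have hnak := adj_nak (T := ![X, Y, 0]) (T' := ![X', Y', 0]) hT (by
    intro i
    fin_cases i
    · exact mX
    · exact mY
    · exact zero_mem _) (by
    intro i
    fin_cases i
    · exact ⟨X', mem_adj ![X', Y', 0] 0, h1⟩
    · exact ⟨Y', mem_adj ![X', Y', 0] 1, h2⟩
    · refine ⟨0, zero_mem _, ?_⟩
      show (0 : Matrix (Fin N) (Fin N) k) - 0 ∈ _
      rw [sub_zero]
      exact zero_mem _)
  exact cl_of_adj hnak h

end Pool.Agent.Lib.D13.Pl
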