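import Pool.Agent.Lib.D13.PlB
import Pool.Agent.Lib.D13.PlPerm
import Pool.Agent.Lib.D9.CycAx

/-!
# MP_5dcbc3_ag: planar pairs in normal form with exponents `(4, 4, 4)`
-/

namespace Pool.Agent.Lib.D13.Pl

open Matrix Polynomial Pool.Agent.Lib.Q5dc Pool.Agent.Lib.D7 Pool.Agent.Lib.D8.Two

variable {k : Type*} [Field k] {N : ℕ}

namespace N444

/-- the parameter of the special line -/
theorem exists_t [IsAlgClosed k] {a b c : k} (ha : a ≠ 0) (hb : b ≠ 0) (hc : c ≠ 0) :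
    ∃ t : k, t ≠ 0 ∧ t - 1 ≠ 0 ∧ (t - 1) ^ 3 * (b - a * t ^ 3) + c * t ^ 3 = 0 := by
  set P : k[X] := C (-a) * X ^ 6 + C (3 * a) * X ^ 5 + C (-(3 * a)) * X ^ 4 + C (a + b + c) * X ^ 3
    + C (-(3 * b)) * X ^ 2 + C (3 * b) * X + C (-b) with hP
  have hdeg : P.natDegree = 6 := by
    rw [hP]
    compute_degree!
  have hd0 : P.degree ≠ 0 := by
    intro h
    have h1 := natDegree_eq_zero_iff_degree_le_zero.2 h.le
    omega
  obtain ⟨t, ht⟩ := IsAlgClosed.exists_root P hd0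
  have hev : (t - 1) ^ 3 * (b - a * t ^ 3) + c * t ^ 3 = 0 := by
    rw [IsRoot, hP] at ht
    simp only [eval_add, eval_mul, eval_pow, eval_X, eval_C] at ht
    linear_combination ht
  refine ⟨t, ?_, ?_, hev⟩
  · rintro rfl
    apply hb
    linear_combination -hev
  · intro h1
    rw [h1] at hev
    have ht1 : t = 1 := sub_eq_zero.1 h1
    rw [ht1] at hev
    apply hc
    linear_combination hev

variable {R : Type*} [CommRing R] {x y a b c : R}

theorem deg5 {a' b' c' : R} (hf : x * y * (x + y) = 0)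
    (hg : a * (y ^ 3 * (x + y)) + b * (x ^ 3 * (x + y)) + c * (x ^ 3 * y) = 0)
    (ha : a' * a = 1) (hb : b' * b = 1) (hc : c' * c = 1) :
    x ^ 6 = 0 ∧ x ^ 5 * y = 0 ∧ y ^ 6 = 0 := by
  have h1 : x ^ 4 * y ^ 2 = 0 := by
    linear_combination (c' * x * y) * hg - (c' * a * y ^ 3 + c' * b * x ^ 3) * hf
      - (x ^ 4 * y ^ 2) * hc
  have h2 : x ^ 5 * y = 0 := by linear_combination x ^ 3 * hf - h1
  have h3 : x ^ 6 = 0 := by
    linear_combination (b' * x ^ 2) * hg - (b' * a * x * y ^ 2) * hf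
      - (x ^ 6 + x ^ 5 * y) * hb - (b' * c + 1) * h2
  refine ⟨h3, h2, ?_⟩
  have h4 : x ^ 3 * y ^ 3 = 0 := by linear_combination x ^ 2 * y * hf - h1
  have h5 : x ^ 2 * y ^ 4 = 0 := by linear_combination x * y ^ 2 * hf - h4
  have h6 : x * y ^ 5 = 0 := by linear_combination y ^ 3 * hf - h5
  linear_combination (a' * y ^ 2) * hg - (a' * b * x ^ 2 * y) * hf
      - (y ^ 6 + x * y ^ 5) * ha - (a' * c) * h4 - h6

/-- all monomials of degree six vanish -/
theorem pow6 (hf : x * y * (x + y) = 0) (h1 : x ^ 6 = 0) (h2 : x ^ 5 * y = 0) (h3 : y ^ 6 = 0)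
    (t : R) : (t * x + y) ^ 6 = 0 := by
  have h4 : x ^ 4 * y ^ 2 = 0 := by linear_combination x ^ 3 * hf - h2
  have h5 : x ^ 3 * y ^ 3 = 0 := by linear_combination x ^ 2 * y * hf - h4
  have h6 : x ^ 2 * y ^ 4 = 0 := by linear_combination x * y ^ 2 * hf - h5
  have h7 : x * y ^ 5 = 0 := by linear_combination y ^ 3 * hf - h6
  linear_combination t ^ 6 * h1 + 6 * t ^ 5 * h2 + 15 * t ^ 4 * h4 + 20 * t ^ 3 * h5 +
    15 * t ^ 2 * h6 + 6 * t * h7 + h3

theorem cube (hf : x * y * (x + y) = 0) (t : R) :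
    t * (t - 1) * x ^ 3 = (t * x + y) * (-(x ^ 2 + x * (t * x + y) - 2 * t * x ^ 2)) := by
  linear_combination hf

theorem prod (hf : x * y * (x + y) = 0) {t β : R}
    (hg : a * (y ^ 3 * (x + y)) + b * (x ^ 3 * (x + y)) + c * (x ^ 3 * y) = 0)
    (hβ : t ^ 3 * β = b) (ht : (t - 1) ^ 3 * (β - a) + c = 0) :
    (t * x + y) ^ 3 * (β * x + a * y) = 0 := by
  linear_combination hg + ((3 * t ^ 2 * β + t ^ 3 * a - b - c) * x + (β + 3 * t * a - a) * y) * hf
    + (x ^ 4 - x ^ 2 * y ^ 2) * hβ + x ^ 2 * y ^ 2 * ht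

end N444

theorem nf_444 [IsAlgClosed k] [CharZero k] {X Y : Matrix (Fin N) (Fin N) k} {v : Fin N → k}
    {a b c : k} (h : NF 4 4 4 X Y v a b c) : Cl ![X, Y, 0] := by
  obtain ⟨t, ht0, ht1, ht⟩ := N444.exists_t h.ha h.hb h.hc
  have hT : CN ![X, Y, 0] := cn_of h.comm h.nilX h.nilY
  obtain ⟨R, _, _, ρ, x, y, z, hρ, rfl, rfl, -⟩ := D9.exists_ring hT
  set α := algebraMap k R with hα
  have hαi : ∀ s : k, s ≠ 0 → α s⁻¹ * α s = 1 := by
    intro s hs
    rw [← map_mul, inv_mul_cancel₀ hs, map_one]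
  have hf : x * y * (x + y) = 0 := by
    apply hρ
    rw [map_mul, map_mul, map_add, map_zero]
    exact h.rel
  have hg : α a * (y ^ 3 * (x + y)) + α b * (x ^ 3 * (x + y)) + α c * (x ^ 3 * y) = 0 := by
    rw [hα, ← Algebra.smul_def, ← Algebra.smul_def, ← Algebra.smul_def]
    apply hρ
    simp only [map_add, map_smul, map_mul, map_pow, map_zero]
    exact h.relg
  set β : k := b / t ^ 3 with hβ
  have hβ1 : t ^ 3 * β = b := by rw [hβ]; field_simp
  have hβ2 : (t - 1) ^ 3 * (β - a) + c = 0 := by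
    have h3 : t ^ 3 ≠ 0 := pow_ne_zero 3 ht0
    apply mul_left_cancel₀ h3
    rw [mul_zero, ← ht]
    linear_combination (t - 1) ^ 3 * hβ1
  obtain ⟨h6, h51, h06⟩ := N444.deg5 hf hg (hαi a h.ha) (hαi b h.hb) (hαi c h.hc)
  have hp6 := N444.pow6 hf h6 h51 h06 (α t)
  have hcube := N444.cube hf (α t)
  have hprod := N444.prod hf (t := α t) (β := α β) hg (by rw [← map_pow, ← map_mul, hβ1])
    (by
      rw [← map_one α, ← map_sub, ← map_sub, ← map_pow, ← map_mul, ← map_add, hβ2, map_zero])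
  -- the cube of `x`
  obtain ⟨q, hq⟩ : ∃ q : R, x ^ 3 = (α t * x + y) * q := by
    have hs : t * (t - 1) ≠ 0 := mul_ne_zero ht0 ht1
    have h1 := hαi _ hs
    rw [map_mul α t (t - 1), map_sub, map_one] at h1
    refine ⟨α (t * (t - 1))⁻¹ * (-(x ^ 2 + x * (α t * x + y) - 2 * α t * x ^ 2)), ?_⟩
    linear_combination α (t * (t - 1))⁻¹ * hcube - x ^ 3 * h1
  have mX : ρ x ∈ adj ![ρ x, ρ y, 0] := mem_adj ![ρ x, ρ y, 0] 0
  have mY : ρ y ∈ adj ![ρ x, ρ y, 0] := mem_adj ![ρ x, ρ y, 0] 1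
  have eX' : ρ (α t * x + y) = t • ρ x + ρ y := by
    rw [map_add, hα, ← Algebra.smul_def, map_smul]
  have mX' : t • ρ x + ρ y ∈ adj ![ρ x, ρ y, 0] := add_mem (SMulMemClass.smul_mem _ mX) mY
  have hN : N = 12 := h.sum.symm
  by_cases hc : t * a - β = 0
  · -- `(t x + y) ^ 4 = 0`
    have hp4 : (α t * x + y) ^ 4 = 0 := by
      have e : α β = α t * α a := by rw [← map_mul, ← sub_eq_zero.1 hc]
      rw [e] at hprod
      linear_combination α a⁻¹ * hprod - (α t * x + y) ^ 4 * hαi a h.ha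
    have mX1 : t • ρ x + ρ y ∈ adj ![t • ρ x + ρ y, ρ x, 0] :=
      mem_adj ![t • ρ x + ρ y, ρ x, 0] 0
    have mX2 : ρ x ∈ adj ![t • ρ x + ρ y, ρ x, 0] := mem_adj ![t • ρ x + ρ y, ρ x, 0] 1
    have mY2 : ρ y ∈ adj ![t • ρ x + ρ y, ρ x, 0] := by
      have := sub_mem mX1 (SMulMemClass.smul_mem t mX2)
      rwa [add_sub_cancel_left] at this
    have hcc : (t • ρ x + ρ y) * ρ x = ρ x * (t • ρ x + ρ y) := hT.comm mX' mX
    have hcl : Cl ![t • ρ x + ρ y, ρ x, 0] := by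
      refine cl_B (v := v) (a := 4) (b := 2) (e := 0) (by norm_num) (by norm_num) (by omega)
        hcc ?_ h.nilX (cyc_of_adj hcc mX2 mY2 h.cyc).gen ?_ ?_
      · rw [← eX', ← map_pow, hp4, map_zero]
      · rw [← eX', ← map_pow, hp4, map_zero, zero_mul]
      · intro w
        refine ⟨ρ q *ᵥ w, ?_⟩
        rw [← eX', Matrix.mulVec_mulVec, ← map_mul, ← hq, map_pow]
    refine cl_of_adj (fun i => ?_) hcl
    fin_cases i
    · exact mX2
    · exact mY2
    · exact zero_mem _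
  · -- the line `β x + a y`
    set y' := α β * x + α a * y with hy'
    have eY' : ρ y' = β • ρ x + a • ρ y := by
      rw [hy', map_add, hα, ← Algebra.smul_def, ← Algebra.smul_def, map_smul, map_smul]
    have mY' : β • ρ x + a • ρ y ∈ adj ![ρ x, ρ y, 0] :=
      add_mem (SMulMemClass.smul_mem _ mX) (SMulMemClass.smul_mem _ mY)
    obtain ⟨q', hq'⟩ : ∃ q' : R, y' ^ 3 = (α t * x + y) * q' := by
      refine ⟨(α β - α a * α t) ^ 3 * q + (3 * (α β - α a * α t) ^ 2 * x ^ 2 * α a +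
        3 * (α β - α a * α t) * x * α a ^ 2 * (α t * x + y) + α a ^ 3 * (α t * x + y) ^ 2), ?_⟩
      rw [hy']
      linear_combination (α β - α a * α t) ^ 3 * hq
    have mX1 : t • ρ x + ρ y ∈ adj ![t • ρ x + ρ y, β • ρ x + a • ρ y, 0] :=
      mem_adj ![t • ρ x + ρ y, β • ρ x + a • ρ y, 0] 0
    have mY1 : β • ρ x + a • ρ y ∈ adj ![t • ρ x + ρ y, β • ρ x + a • ρ y, 0] :=
      mem_adj ![t • ρ x + ρ y, β • ρ x + a • ρ y, 0] 1
    have mX2 : ρ x ∈ adj ![t • ρ x + ρ y, β • ρ x + a • ρ y, 0] := by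
      have e : ρ x = (t * a - β)⁻¹ • (a • (t • ρ x + ρ y) - (β • ρ x + a • ρ y)) := by
        have e1 : a • (t • ρ x + ρ y) - (β • ρ x + a • ρ y) = (t * a - β) • ρ x := by
          module
        rw [e1, smul_smul, inv_mul_cancel₀ hc, one_smul]
      have := SMulMemClass.smul_mem (t * a - β)⁻¹ (sub_mem (SMulMemClass.smul_mem a mX1) mY1)
      rwa [← e] at this
    have mY2 : ρ y ∈ adj ![t • ρ x + ρ y, β • ρ x + a • ρ y, 0] := by
      have := sub_mem mX1 (SMulMemClass.smul_mem t mX2)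
      rwa [add_sub_cancel_left] at this
    have hcc : (t • ρ x + ρ y) * (β • ρ x + a • ρ y) = (β • ρ x + a • ρ y) * (t • ρ x + ρ y) :=
      hT.comm mX' mY'
    have hcl : Cl ![t • ρ x + ρ y, β • ρ x + a • ρ y, 0] := by
      refine cl_B (v := v) (a := 3) (b := 2) (e := 3) (by norm_num) (by norm_num) (by omega)
        hcc ?_ (hT.nilp mY') (cyc_of_adj hcc mX2 mY2 h.cyc).gen ?_ ?_
      · rw [← eX', ← map_pow, hp6, map_zero]
      · rw [← eX', ← eY', ← map_pow, ← map_mul, hprod, map_zero]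
      · intro w
        refine ⟨ρ q' *ᵥ w, ?_⟩
        rw [← eX', ← eY', Matrix.mulVec_mulVec, ← map_mul, ← hq', map_pow]
    refine cl_of_adj (fun i => ?_) hcl
    fin_cases i
    · exact mX2
    · exact mY2
    · exact zero_mem _

end Pool.Agent.Lib.D13.Pl
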