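import Pool.Agent.Lib.D8.Axes
import Pool.Agent.Lib.D7.Adj

/-!
# MP_5dcbc3_ag: computing with commuting matrices in a commutative ring

For commuting matrices `A`, `B`, `C` the algebra they generate is a commutative ring, and if the
vector `v` is cyclic then identities between polynomials in `A`, `B`, `C` can be checked on `v`.
-/

namespace Pool.Agent.Lib.D13

open Matrix Polynomial Pool.Agent.Lib.Q5dc Pool.Agent.Lib.D7

universe u w

variable {k : Type u} [Field k] {n : Type w} [Fintype n] [DecidableEq n]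

/-- the commutative algebra generated by commuting matrices -/
theorem exists_alg {A B C : Matrix n n k} (hAB : A * B = B * A) (hAC : A * C = C * A)
    (hBC : B * C = C * B) :
    ∃ (R : Type (max w u)) (_ : CommRing R) (_ : Algebra k R) (ψ : R →ₐ[k] Matrix n n k) (x y z : R),
      Function.Injective ψ ∧ ψ x = A ∧ ψ y = B ∧ ψ z = C ∧
      ∀ r : R, ∃ c : k, ψ (r - algebraMap k R c) ∈ adj ![A, B, C] := by
  have hcomm : ∀ a ∈ ({A, B, C} : Set (Matrix n n k)), ∀ b ∈ ({A, B, C} : Set (Matrix n n k)),
      a * b = b * a := by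
    intro a ha b hb
    simp only [Set.mem_insert_iff, Set.mem_singleton_iff] at ha hb
    rcases ha with rfl | rfl | rfl <;> rcases hb with rfl | rfl | rfl <;>
      first | rfl | assumption | (symm; assumption)
  have hmem : ∀ a ∈ ({A, B, C} : Set (Matrix n n k)), a ∈ Algebra.adjoin k ({A, B, C} : Set (Matrix n n k)) :=
    fun a ha => Algebra.subset_adjoin ha
  let _ : CommRing (Algebra.adjoin k ({A, B, C} : Set (Matrix n n k))) :=
    { (Algebra.adjoin k ({A, B, C} : Set (Matrix n n k))).toRing with
      mul_comm := fun a b => (Algebra.isMulCommutative_adjoin k hcomm).is_comm.comm a b }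
  refine ⟨Algebra.adjoin k ({A, B, C} : Set (Matrix n n k)), inferInstance, inferInstance,
    (Algebra.adjoin k ({A, B, C} : Set (Matrix n n k))).val, ⟨A, hmem A (by simp)⟩,
    ⟨B, hmem B (by simp)⟩, ⟨C, hmem C (by simp)⟩, Subtype.val_injective, rfl, rfl, rfl, ?_⟩
  rintro ⟨r, hr⟩
  have key : ∀ M ∈ Algebra.adjoin k ({A, B, C} : Set (Matrix n n k)), ∃ c : k,
      M - algebraMap k (Matrix n n k) c ∈ adj ![A, B, C] := by
    intro M hM
    induction hM using Algebra.adjoin_induction with
    | mem a ha =>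
      refine ⟨0, ?_⟩
      rw [map_zero, sub_zero]
      simp only [Set.mem_insert_iff, Set.mem_singleton_iff] at ha
      rcases ha with rfl | rfl | rfl
      · exact mem_adj ![a, B, C] 0
      · exact mem_adj ![A, a, C] 1
      · exact mem_adj ![A, B, a] 2
    | algebraMap c => exact ⟨c, by rw [sub_self]; exact zero_mem _⟩
    | add a b _ _ ha hb =>
      obtain ⟨c, hc⟩ := ha
      obtain ⟨d, hd⟩ := hb
      refine ⟨c + d, ?_⟩
      rw [map_add, add_sub_add_comm]
      exact add_mem hc hd
    | mul a b _ _ ha hb =>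
      obtain ⟨c, hc⟩ := ha
      obtain ⟨d, hd⟩ := hb
      refine ⟨c * d, ?_⟩
      have h1 : a * b - algebraMap k (Matrix n n k) (c * d) =
          (a - algebraMap k _ c) * (b - algebraMap k _ d) + d • (a - algebraMap k _ c) +
            c • (b - algebraMap k _ d) := by
        have e1 := Algebra.commutes d a
        have e2 := Algebra.commutes d (algebraMap k (Matrix n n k) c)
        simp only [map_mul, Algebra.smul_def, sub_mul, mul_sub]
        rw [e1, e2]
        abel
      rw [h1]
      exact add_mem (add_mem (mul_mem hc hd) (SMulMemClass.smul_mem _ hc))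
        (SMulMemClass.smul_mem _ hd)
  obtain ⟨c, hc⟩ := key r hr
  exact ⟨c, hc⟩

/-- the polynomials without constant term in three matrices whose products are zero -/
theorem adj_span {X Y Z : Matrix n n k} (hXY : X * Y = 0) (hYX : Y * X = 0) (hXZ : X * Z = 0)
    (hZX : Z * X = 0) (hYZ : Y * Z = 0) (hZY : Z * Y = 0) {M : Matrix n n k}
    (hM : M ∈ adj ![X, Y, Z]) :
    M ∈ Submodule.span k ({M : Matrix n n k | ∃ i : ℕ, M = X ^ (i + 1)} ∪
      {M | ∃ i : ℕ, M = Y ^ (i + 1)} ∪ {M | ∃ i : ℕ, M = Z ^ (i + 1)}) := by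
  set S := Submodule.span k ({M : Matrix n n k | ∃ i : ℕ, M = X ^ (i + 1)} ∪
      {M | ∃ i : ℕ, M = Y ^ (i + 1)} ∪ {M | ∃ i : ℕ, M = Z ^ (i + 1)}) with hS
  have hz : ∀ (P Q : Matrix n n k) (i j : ℕ), P * Q = 0 → P ^ (i + 1) * Q ^ (j + 1) = 0 := by
    intro P Q i j h
    rw [pow_succ, pow_succ', mul_assoc, ← mul_assoc P Q, h, zero_mul, mul_zero]
  have hmul : ∀ a ∈ S, ∀ b ∈ S, a * b ∈ S := by
    intro a ha b hb
    induction ha using Submodule.span_induction with
    | zero => rw [zero_mul]; exact zero_mem _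
    | add a a' _ _ h h' => rw [add_mul]; exact add_mem h h'
    | smul c a _ h => rw [smul_mul_assoc]; exact Submodule.smul_mem _ _ h
    | mem a ha =>
      induction hb using Submodule.span_induction with
      | zero => rw [mul_zero]; exact zero_mem _
      | add a a' _ _ h h' => rw [mul_add]; exact add_mem h h'
      | smul c a _ h => rw [mul_smul_comm]; exact Submodule.smul_mem _ _ h
      | mem b hb =>
        rcases ha with (⟨i, rfl⟩ | ⟨i, rfl⟩) | ⟨i, rfl⟩ <;>
          rcases hb with (⟨j, rfl⟩ | ⟨j, rfl⟩) | ⟨j, rfl⟩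
        · rw [← pow_add]
          exact Submodule.subset_span (Or.inl (Or.inl ⟨i + 1 + j, by ring_nf⟩))
        · rw [hz _ _ _ _ hXY]; exact zero_mem _
        · rw [hz _ _ _ _ hXZ]; exact zero_mem _
        · rw [hz _ _ _ _ hYX]; exact zero_mem _
        · rw [← pow_add]
          exact Submodule.subset_span (Or.inl (Or.inr ⟨i + 1 + j, by ring_nf⟩))
        · rw [hz _ _ _ _ hYZ]; exact zero_mem _
        · rw [hz _ _ _ _ hZX]; exact zero_mem _
        · rw [hz _ _ _ _ hZY]; exact zero_mem _
        · rw [← pow_add]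
          exact Submodule.subset_span (Or.inr ⟨i + 1 + j, by ring_nf⟩)
  have hM' : M ∈ NonUnitalAlgebra.adjoin k (Set.range ![X, Y, Z]) := hM
  induction hM' using NonUnitalAlgebra.adjoin_induction with
  | mem x hx =>
    obtain ⟨i, rfl⟩ := hx
    fin_cases i
    · exact Submodule.subset_span (Or.inl (Or.inl ⟨0, by simp⟩))
    · exact Submodule.subset_span (Or.inl (Or.inr ⟨0, by simp⟩))
    · exact Submodule.subset_span (Or.inr ⟨0, by simp⟩)
  | zero => exact zero_mem _
  | add x y hx hy h h' => exact add_mem (h hx) (h' hy)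
  | mul x y hx hy h h' => exact hmul _ (h hx) _ (h' hy)
  | smul r x hx h => exact Submodule.smul_mem _ _ (h hx)

end Pool.Agent.Lib.D13
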