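import Pool.Agent.Lib.D13.PlB
import Pool.Agent.Lib.D13.AlgR

/-!
# MP_5dcbc3_ag: planar commuting nilpotent triples: the normal forms (4, 4, 3) and (5, 4, 3)
-/

namespace Pool.Agent.Lib.D13.Pl

open Matrix Polynomial Pool.Agent.Lib.Q5dc Pool.Agent.Lib.D7 Pool.Agent.Lib.D8

variable {k : Type*} [Field k] {N : ℕ}

/-- a subspace stable under the generators is stable under `adj` -/
theorem stable_adj {X Y : Matrix (Fin N) (Fin N) k} {S : Submodule k (Fin N → k)}
    (hX : ∀ w ∈ S, X *ᵥ w ∈ S) (hY : ∀ w ∈ S, Y *ᵥ w ∈ S) {M : Matrix (Fin N) (Fin N) k}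
    (hM : M ∈ adj ![X, Y, 0]) : ∀ w ∈ S, M *ᵥ w ∈ S := by
  refine adj_induction (p := fun M => ∀ w ∈ S, M *ᵥ w ∈ S) ?_ ?_ ?_ ?_ ?_ hM
  · intro i
    fin_cases i
    · exact hX
    · exact hY
    · intro w _
      show (0 : Matrix (Fin N) (Fin N) k) *ᵥ w ∈ S
      rw [Matrix.zero_mulVec]
      exact zero_mem _
  · intro w _
    rw [Matrix.zero_mulVec]
    exact zero_mem _
  · intro x _ y _ hx hy w hw
    rw [Matrix.add_mulVec]
    exact add_mem (hx w hw) (hy w hw)
  · intro x _ y _ hx hy w hw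
    rw [← Matrix.mulVec_mulVec]
    exact hx _ (hy w hw)
  · intro r x _ hx w hw
    rw [Matrix.smul_mulVec]
    exact Submodule.smul_mem _ _ (hx w hw)

theorem Gen.of_adj43 {X Y X' Y' : Matrix (Fin N) (Fin N) k} {v : Fin N → k} (h : Gen X Y v)
    (hX : X ∈ adj ![X', Y', 0]) (hY : Y ∈ adj ![X', Y', 0]) : Gen X' Y' v := by
  intro S hv hX' hY' w
  exact h S hv (stable_adj hX' hY' hX) (stable_adj hX' hY' hY) w

theorem cl_of_adj2 {X Y X' Y' : Matrix (Fin N) (Fin N) k} (hX : X ∈ adj ![X', Y', 0])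
    (hY : Y ∈ adj ![X', Y', 0]) (h : Cl ![X', Y', 0]) : Cl ![X, Y, 0] := by
  refine cl_of_adj (fun i => ?_) h
  fin_cases i
  · exact hX
  · exact hY
  · exact zero_mem _

theorem cn3 {X Y : Matrix (Fin N) (Fin N) k} (hc : X * Y = Y * X) (hX : IsNilpotent X)
    (hY : IsNilpotent Y) : CN ![X, Y, 0] := by
  constructor
  · intro i j
    fin_cases i <;> fin_cases j
    · rfl
    · exact hc
    · show X * 0 = 0 * X
      rw [mul_zero, zero_mul]
    · exact hc.symm
    · rfl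
    · show Y * 0 = 0 * Y
      rw [mul_zero, zero_mul]
    · show 0 * X = X * 0
      rw [mul_zero, zero_mul]
    · show 0 * Y = Y * 0
      rw [mul_zero, zero_mul]
    · rfl
  · intro i
    fin_cases i
    · exact hX
    · exact hY
    · exact IsNilpotent.zero

/-- a root of `b u^5 = -a` different from `0` and `-1` -/
theorem exists_u [IsAlgClosed k] [CharZero k] {a b : k} (ha : a ≠ 0) (hb : b ≠ 0) :
    ∃ u : k, b * u ^ 5 = -a ∧ u ≠ 0 ∧ 1 + u ≠ 0 := by
  obtain ⟨u, hu⟩ := IsAlgClosed.exists_pow_nat_eq (-a / b) (show 0 < 5 by norm_num)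
  have hu' : b * u ^ 5 = -a := by
    rw [hu]
    field_simp
  have key : ∀ w : k, b * w ^ 5 = -a → w ≠ 0 := by
    rintro w hw rfl
    apply ha
    linear_combination hw
  obtain ⟨ζ, hζ⟩ : ∃ ζ : k, ζ ^ 5 = 1 ∧ ζ ≠ 1 := by
    have : NeZero ((5 : ℕ) : k) := ⟨by norm_num⟩
    obtain ⟨ζ, hζ⟩ := HasEnoughRootsOfUnity.exists_primitiveRoot k 5
    exact ⟨ζ, hζ.pow_eq_one, hζ.ne_one (by norm_num)⟩
  by_cases h2 : 1 + u = 0
  · have h4 : b * (u * ζ) ^ 5 = -a := by rw [mul_pow, hζ.1, mul_one, hu']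
    refine ⟨u * ζ, h4, key _ h4, fun h3 => hζ.2 ?_⟩
    linear_combination ζ * h2 - h3
  · exact ⟨u, hu', key u hu', h2⟩

/-- the ring identities for (4, 4, 3) -/
theorem alg_443 {R : Type*} [CommRing R] {x y a b c u bi ci ui m : R}
    (hb : b * bi = 1) (hc : c * ci = 1) (hu : u * ui = 1) (hm : (1 + u) * m = 1)
    (hu5 : b * u ^ 5 = -a) (hf : x * y * (x + y) = 0)
    (hg : a * (y ^ 3 * (x + y)) + b * (x ^ 3 * (x + y)) + c * (x ^ 2 * y) = 0) :
    (x - u * y) ^ 5 = 0 ∧ (∃ r, (x - u * y) * y ^ 2 = (x - u * y) ^ 2 * r) ∧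
      ∃ r, y ^ 3 = (x - u * y) * r := by
  have k0 : c * (x ^ 4 * y) = 0 := by
    linear_combination (a * y ^ 3 + b * x ^ 3 + c * x ^ 2) * hf - x * y * hg
  have k1 : x ^ 4 * y = 0 := by
    linear_combination ci * k0 - x ^ 4 * y * hc
  have k2 : x ^ 3 * y ^ 2 = 0 := by linear_combination x ^ 2 * hf - k1
  have k3 : x ^ 2 * y ^ 3 = 0 := by linear_combination x * y * hf - k2
  have k4 : x * y ^ 4 = 0 := by linear_combination y ^ 2 * hf - k3
  have k5 : b * x ^ 5 + c * (x ^ 3 * y) = 0 := by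
    linear_combination x * hg - a * y ^ 2 * hf - b * k1
  have k6 : a * y ^ 5 - c * (x ^ 3 * y) = 0 := by
    linear_combination y * hg - a * k4 - b * x ^ 2 * hf - c * x * hf
  have e0 : b * (x - u * y) ^ 5 = 0 := by
    linear_combination k5 + k6 - 5 * u * b * k1 + 10 * u ^ 2 * b * k2 - 10 * u ^ 3 * b * k3 +
      5 * u ^ 4 * b * k4 - y ^ 5 * hu5
  refine ⟨?_, ?_, ui * m * (-(x - u * y) * y - (2 * u + 1) * y ^ 2), ?_⟩
  · linear_combination bi * e0 - (x - u * y) ^ 5 * hb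
  · obtain ⟨e, rfl⟩ : ∃ e, x = e + u * y := ⟨x - u * y, by ring⟩
    have he : e + u * y - u * y = e := by ring
    rw [he]
    obtain ⟨w, hw⟩ : ∃ w, w = ui * m := ⟨_, rfl⟩
    have hw1 : u * (1 + u) * w = 1 := by
      rw [hw]
      linear_combination (1 + u) * m * hu + hm
    obtain ⟨r1, hr1⟩ : ∃ r1, r1 = -w * (e * y + (2 * u + 1) * y ^ 2) := ⟨_, rfl⟩
    obtain ⟨r2, hr2⟩ : ∃ r2, r2 = -w * (y ^ 2 + (2 * u + 1) * r1) := ⟨_, rfl⟩
    have c3 : y ^ 3 = -w * (e ^ 2 * y + (2 * u + 1) * (e * y ^ 2)) := by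
      linear_combination w * hf - y ^ 3 * hw1
    have c4 : e * y ^ 3 = e ^ 2 * r1 := by
      rw [hr1]
      linear_combination e * c3
    have c5 : y ^ 4 = e ^ 2 * r2 := by
      rw [hr2]
      linear_combination y * c3 - w * (2 * u + 1) * c4
    obtain ⟨G, hG⟩ : ∃ G, G = a * (r1 + (1 + u) * r2) + b * (e ^ 2 + (4 * u + 1) * e * y +
      (6 * u ^ 2 + 3 * u) * y ^ 2 + (4 * u ^ 3 + 3 * u ^ 2) * r1 + u ^ 3 * (1 + u) * r2) + c * y :=
      ⟨_, rfl⟩
    have c6 : c * (2 * u * (e * y ^ 2) + u ^ 2 * y ^ 3) = -(e ^ 2 * G) := by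
      rw [hG]
      linear_combination hg - (a + b * (4 * u ^ 3 + 3 * u ^ 2)) * c4 -
        (a * (1 + u) + b * (u ^ 3 * (1 + u))) * c5
    have c7 : c * u * (e * y ^ 2) = (1 + u) * (-(e ^ 2 * G)) + c * u * (e ^ 2 * y) := by
      linear_combination (1 + u) * c6 - c * u ^ 2 * (1 + u) * c3 +
        c * u * (e ^ 2 * y + (2 * u + 1) * (e * y ^ 2)) * hw1
    refine ⟨y - ci * ui * (1 + u) * G, ?_⟩
    linear_combination ci * ui * c7 + (e ^ 2 * y - e * y ^ 2) * (u * ui) * hc +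
      (e ^ 2 * y - e * y ^ 2) * hu
  · linear_combination ui * m * hf - y ^ 3 * ((1 + u) * m) * hu - y ^ 3 * hm

/-- the normal form (4, 4, 3) -/
theorem nf_443 [IsAlgClosed k] [CharZero k] {X Y : Matrix (Fin N) (Fin N) k} {v : Fin N → k}
    {a b c : k} (h : NF 4 4 3 X Y v a b c) : Cl ![X, Y, 0] := by
  obtain ⟨R, _, _, ψ, x, y, z, hψ, hx, hy, hz, -⟩ :=
    exists_alg h.comm (show X * 0 = 0 * X by rw [mul_zero, zero_mul])
      (show Y * 0 = 0 * Y by rw [mul_zero, zero_mul])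
  obtain ⟨u, hu5, hu0, hu1⟩ := exists_u h.ha h.hb
  have key : ∀ w : k, w ≠ 0 → algebraMap k R w * algebraMap k R w⁻¹ = 1 := by
    intro w hw
    rw [← map_mul, mul_inv_cancel₀ hw, map_one]
  have hf : x * y * (x + y) = 0 := by
    apply hψ
    rw [map_mul, map_mul, map_add, hx, hy, map_zero]
    exact h.rel
  have hg : algebraMap k R a * (y ^ 3 * (x + y)) + algebraMap k R b * (x ^ 3 * (x + y)) +
      algebraMap k R c * (x ^ 2 * y) = 0 := by
    apply hψ
    rw [← Algebra.smul_def, ← Algebra.smul_def, ← Algebra.smul_def, map_add, map_add, map_smul,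
      map_smul, map_smul, map_mul, map_mul, map_mul, map_add, map_pow, map_pow, map_pow, hx, hy,
      map_zero]
    exact h.relg
  have hu5' : algebraMap k R b * algebraMap k R u ^ 5 = -algebraMap k R a := by
    rw [← map_pow, ← map_mul, hu5, map_neg]
  have hm : (1 + algebraMap k R u) * algebraMap k R (1 + u)⁻¹ = 1 := by
    rw [← map_one (algebraMap k R), ← map_add, key _ hu1, map_one]
  obtain ⟨e1, ⟨r, hr⟩, ⟨s, hs⟩⟩ := alg_443 (key b h.hb) (key c h.hc) (key u hu0) hm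
    hu5' hf hg
  have hX' : ψ (x - algebraMap k R u * y) = X - u • Y := by
    rw [← Algebra.smul_def, map_sub, map_smul, hx, hy]
  have hmem : X - u • Y ∈ adj ![X - u • Y, Y, 0] := mem_adj ![X - u • Y, Y, 0] 0
  have hmemY : Y ∈ adj ![X - u • Y, Y, 0] := mem_adj ![X - u • Y, Y, 0] 1
  have hmemX : X ∈ adj ![X - u • Y, Y, 0] := by
    have := add_mem hmem (SMulMemClass.smul_mem u hmemY)
    rwa [sub_add_cancel] at this
  refine cl_of_adj2 hmemX hmemY ?_
  refine cl_D (a := 5) (v := v) (by norm_num) (by have := h.sum; omega) ?_ ?_ h.nilY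
    (h.cyc.gen.of_adj43 hmemX hmemY) ?_ ?_
  · rw [sub_mul, mul_sub, h.comm, smul_mul_assoc, mul_smul_comm]
  · rw [← hX', ← map_pow, e1, map_zero]
  · refine ⟨ψ r *ᵥ v, ?_⟩
    have h1 := congrArg ψ hr
    rw [map_mul, map_mul, map_pow, map_pow, hX', hy] at h1
    rw [Matrix.mulVec_mulVec, h1, Matrix.mulVec_mulVec]
  · intro w
    refine ⟨ψ s *ᵥ w, ?_⟩
    have h1 := congrArg ψ hs
    rw [map_mul, map_pow, hX', hy] at h1
    rw [Matrix.mulVec_mulVec, h1]

/-- the ring identities for (5, 4, 3) -/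
theorem alg_543 {R : Type*} [CommRing R] {x y a b c bi ci al ali be : R} (hb : b * bi = 1)
    (hc : c * ci = 1) (hal : al * ali = 1) (h1 : c * al ^ 2 = a) (h2 : c * be = b)
    (hf : x * y * (x + y) = 0)
    (hg : a * (y ^ 4 * (x + y)) + b * (x ^ 3 * (x + y)) + c * (x ^ 2 * y) = 0) :
    (x + al * (y * (x + y))) ^ 2 * (y + be * (x * (x + y))) = 0 ∧
    (x + al * (y * (x + y))) ^ 6 = 0 ∧
    ∃ r, (y + be * (x * (x + y))) ^ 4 = (x + al * (y * (x + y))) * r := by
  have k0 : c * (x ^ 4 * y) = 0 := by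
    linear_combination (a * y ^ 4 + b * x ^ 3 + c * x ^ 2) * hf - x * y * hg
  have k1 : x ^ 4 * y = 0 := by
    linear_combination ci * k0 - x ^ 4 * y * hc
  have k2 : x ^ 3 * y ^ 2 = 0 := by linear_combination x ^ 2 * hf - k1
  have k3 : x ^ 2 * y ^ 3 = 0 := by linear_combination x * y * hf - k2
  have k5 : b * x ^ 6 = 0 := by
    linear_combination x ^ 2 * hg - a * x * y ^ 3 * hf - c * k1 - b * x * k1
  have k6 : x ^ 6 = 0 := by
    linear_combination bi * k5 - x ^ 6 * hb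
  have k7 : a * (y ^ 6 * (x + y)) = 0 := by
    linear_combination y ^ 2 * hg - b * x ^ 2 * y * hf - c * k3
  have k8 : y ^ 6 * (x + y) = 0 := by
    have k9 : c * al ^ 2 * (y ^ 6 * (x + y)) = 0 := by rw [h1, k7]
    have k10 : al ^ 2 * (y ^ 6 * (x + y)) = 0 := by
      linear_combination ci * k9 - al ^ 2 * (y ^ 6 * (x + y)) * hc
    linear_combination ali ^ 2 * k10 - (al * ali + 1) * (y ^ 6 * (x + y)) * hal
  have e0 : c * ((x + al * (y * (x + y))) ^ 2 * (y + be * (x * (x + y)))) = 0 := by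
    linear_combination hg + y ^ 4 * (x + y) * h1 + x ^ 3 * (x + y) * h2 +
      c * (2 * al * (y + be * (x * (x + y))) + al ^ 2 * y ^ 2 + al ^ 2 * be * y * (x + y) ^ 2) * hf
  have q2 : (x + al * (y * (x + y))) ^ 2 = x ^ 2 + al ^ 2 * (y ^ 3 * (x + y)) := by
    linear_combination (2 * al + al ^ 2 * y) * hf
  have q4 : (x + al * (y * (x + y))) ^ 4 = x ^ 4 := by
    have : (x + al * (y * (x + y))) ^ 4 = ((x + al * (y * (x + y))) ^ 2) ^ 2 := by ring
    rw [this, q2]
    linear_combination 2 * al ^ 2 * x * y ^ 2 * hf + al ^ 4 * (x + y) * k8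
  have p2 : (y + be * (x * (x + y))) ^ 2 = y ^ 2 + be ^ 2 * (x ^ 3 * (x + y)) := by
    linear_combination (2 * be + be ^ 2 * x) * hf
  have p4 : (y + be * (x * (x + y))) ^ 4 = y ^ 4 := by
    have : (y + be * (x * (x + y))) ^ 4 = ((y + be * (x * (x + y))) ^ 2) ^ 2 := by ring
    rw [this, p2]
    linear_combination 2 * be ^ 2 * x ^ 2 * y * hf + be ^ 4 * (x + y) ^ 2 * k6
  refine ⟨?_, ?_, ali * (y * (x + al * (y * (x + y)) + y)) - y ^ 3, ?_⟩
  · linear_combination ci * e0 - (x + al * (y * (x + y))) ^ 2 * (y + be * (x * (x + y))) * hc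
  · have : (x + al * (y * (x + y))) ^ 6 =
        (x + al * (y * (x + y))) ^ 4 * (x + al * (y * (x + y))) ^ 2 := by ring
    rw [this, q4, q2]
    linear_combination k6 + al ^ 2 * x ^ 3 * y ^ 2 * hf
  · rw [p4]
    linear_combination -(ali * (1 + al * y) ^ 2) * hf -
      (y ^ 4 + (x + al * (y * (x + y))) * y ^ 3) * hal

/-- the normal form (5, 4, 3) -/
theorem nf_543 [IsAlgClosed k] [CharZero k] {X Y : Matrix (Fin N) (Fin N) k} {v : Fin N → k}
    {a b c : k} (h : NF 5 4 3 X Y v a b c) : Cl ![X, Y, 0] := by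
  obtain ⟨R, _, _, ψ, x, y, z, hψ, hx, hy, hz, -⟩ :=
    exists_alg h.comm (show X * 0 = 0 * X by rw [mul_zero, zero_mul])
      (show Y * 0 = 0 * Y by rw [mul_zero, zero_mul])
  have key : ∀ w : k, w ≠ 0 → algebraMap k R w * algebraMap k R w⁻¹ = 1 := by
    intro w hw
    rw [← map_mul, mul_inv_cancel₀ hw, map_one]
  obtain ⟨al, hal⟩ := IsAlgClosed.exists_pow_nat_eq (a / c) (show 0 < 2 by norm_num)
  have hal' : c * al ^ 2 = a := by
    rw [hal]
    have := h.hc
    field_simp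
  have hal0 : al ≠ 0 := by
    rintro rfl
    apply h.ha
    linear_combination -hal'
  have hbe : c * (b / c) = b := by
    have := h.hc
    field_simp
  have hf : x * y * (x + y) = 0 := by
    apply hψ
    rw [map_mul, map_mul, map_add, hx, hy, map_zero]
    exact h.rel
  have hg : algebraMap k R a * (y ^ 4 * (x + y)) + algebraMap k R b * (x ^ 3 * (x + y)) +
      algebraMap k R c * (x ^ 2 * y) = 0 := by
    apply hψ
    rw [← Algebra.smul_def, ← Algebra.smul_def, ← Algebra.smul_def, map_add, map_add, map_smul,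
      map_smul, map_smul, map_mul, map_mul, map_mul, map_add, map_pow, map_pow, map_pow, hx, hy,
      map_zero]
    exact h.relg
  have g1 : algebraMap k R c * algebraMap k R al ^ 2 = algebraMap k R a := by
    rw [← map_pow, ← map_mul, hal']
  have g2 : algebraMap k R c * algebraMap k R (b / c) = algebraMap k R b := by
    rw [← map_mul, hbe]
  obtain ⟨e1, e2, ⟨r, hr⟩⟩ := alg_543 (key b h.hb) (key c h.hc) (key al hal0) g1 g2 hf hg
  have hX' : ψ (x + algebraMap k R al * (y * (x + y))) = X + al • (Y * (X + Y)) := by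
    rw [← Algebra.smul_def, map_add, map_smul, map_mul, map_add, hx, hy]
  have hY' : ψ (y + algebraMap k R (b / c) * (x * (x + y))) = Y + (b / c) • (X * (X + Y)) := by
    rw [← Algebra.smul_def, map_add, map_smul, map_mul, map_add, hx, hy]
  have hmX : X ∈ adj ![X, Y, 0] := mem_adj ![X, Y, 0] 0
  have hmY : Y ∈ adj ![X, Y, 0] := mem_adj ![X, Y, 0] 1
  set X' := X + al • (Y * (X + Y)) with hX'd
  set Y' := Y + (b / c) • (X * (X + Y)) with hY'd
  have hmX' : X' ∈ adj ![X, Y, 0] :=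
    add_mem hmX (SMulMemClass.smul_mem _ (mul_mem hmY (add_mem hmX hmY)))
  have hmY' : Y' ∈ adj ![X, Y, 0] :=
    add_mem hmY (SMulMemClass.smul_mem _ (mul_mem hmX (add_mem hmX hmY)))
  have hnak : ∀ i, ![X, Y, 0] i ∈ adj ![X', Y', 0] := by
    refine adj_nak (cn3 h.comm h.nilX h.nilY) ?_ ?_
    · intro i
      fin_cases i
      · exact hmX'
      · exact hmY'
      · exact zero_mem _
    · intro i
      fin_cases i
      · refine ⟨X', mem_adj ![X', Y', 0] 0, ?_⟩
        show X - X' ∈ _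
        rw [hX'd, sub_add_cancel_left]
        exact neg_mem (Submodule.smul_mem _ _ (Submodule.subset_span
          ⟨Y, hmY, X + Y, add_mem hmX hmY, rfl⟩))
      · refine ⟨Y', mem_adj ![X', Y', 0] 1, ?_⟩
        show Y - Y' ∈ _
        rw [hY'd, sub_add_cancel_left]
        exact neg_mem (Submodule.smul_mem _ _ (Submodule.subset_span
          ⟨X, hmX, X + Y, add_mem hmX hmY, rfl⟩))
      · refine ⟨0, zero_mem _, ?_⟩
        show (0 : Matrix (Fin N) (Fin N) k) - 0 ∈ _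
        rw [sub_zero]
        exact zero_mem _
  have hcn : CN ![X', Y', 0] := (cn3 h.comm h.nilX h.nilY).of_adj (by
    intro i
    fin_cases i
    · exact hmX'
    · exact hmY'
    · exact zero_mem _)
  refine cl_of_adj2 (hnak 0) (hnak 1) ?_
  refine cl_B (a := 2) (b := 3) (e := 4) (v := v) (by norm_num) (by norm_num)
    (by have := h.sum; omega) (hcn.1 0 1) ?_ (hcn.2 1) (h.cyc.gen.of_adj43 (hnak 0) (hnak 1)) ?_ ?_
  · rw [← hX', ← map_pow, e2, map_zero]
  · rw [← hX', ← hY', ← map_pow, ← map_mul, e1, map_zero]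
  · intro w
    refine ⟨ψ r *ᵥ w, ?_⟩
    have h1 := congrArg ψ hr
    rw [map_mul, map_pow, hX', hY'] at h1
    rw [Matrix.mulVec_mulVec, ← h1]

end Pool.Agent.Lib.D13.Pl
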