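import Pool.Agent.Lib.D13.PlClass
import Pool.Agent.Lib.D13.PlN444
import Pool.Agent.Lib.D13.PlNf43
import Pool.Agent.Lib.D13.PlFam3

/-!
# MP_5dcbc3_ag: planar commuting nilpotent triples of size at most 12 whose first matrix has corank
at most 3 are limits of curvilinear triples
-/

namespace Pool.Agent.Lib.D13.Pl

open Matrix Pool.Agent.Lib.Q5dc Pool.Agent.Lib.D7

variable {k : Type*} [Field k] {N : ℕ}

theorem sortedCl [IsAlgClosed k] [CharZero k] (h12 : N ≤ 12) : SortedCl k N := by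
  intro p1 p2 p3 X Y v a b c h h23 h12'
  have h1 := h.h1
  have h2 := h.h2
  have h3 := h.h3
  have hs := h.sum
  have hcases : (p1 = 3 ∧ p2 = 3 ∧ p3 = 3) ∨ (p2 = 3 ∧ p3 = 3 ∧ 4 ≤ p1) ∨
      (p1 = 4 ∧ p2 = 4 ∧ p3 = 3) ∨ (p1 = 5 ∧ p2 = 4 ∧ p3 = 3) ∨ (p1 = 4 ∧ p2 = 4 ∧ p3 = 4) := by
    omega
  rcases hcases with ⟨rfl, rfl, rfl⟩ | ⟨rfl, rfl, h4⟩ | ⟨rfl, rfl, rfl⟩ | ⟨rfl, rfl, rfl⟩ |
    ⟨rfl, rfl, rfl⟩
  · exact nf_333 h
  · obtain ⟨q, rfl⟩ : ∃ q, p1 = q + 4 := ⟨p1 - 4, by omega⟩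
    exact nf_p33 h
  · exact nf_443 h
  · exact nf_543 h
  · exact nf_444 h

/-- planar triples of size at most 12 whose first matrix has corank at most 3 are in the closure of
the curvilinear ones -/
theorem cl_planar [IsAlgClosed k] [CharZero k] (hN : 0 < N) (h12 : N ≤ 12)
    {A B : Matrix (Fin N) (Fin N) k} (hT : CN ![A, B, 0]) (hr : N ≤ A.rank + 3) :
    Cl ![A, B, 0] :=
  cl_planar_of hN (linesNF hN) (sortedCl h12) hT hr

/-- the same for a triple with an element of corank at most 3 in its algebra, when the algebra is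
generated by two matrices -/
theorem cl_planar' [IsAlgClosed k] [CharZero k] (hN : 0 < N) (h12 : N ≤ 12)
    {T : Fin 3 → Matrix (Fin N) (Fin N) k} (hT : CN T) {A B : Matrix (Fin N) (Fin N) k}
    (hA : A ∈ adj T) (hB : B ∈ adj T) (hg : ∀ i, T i ∈ adj ![A, B, 0]) (hr : N ≤ A.rank + 3) :
    Cl T := by
  refine cl_of_adj hg (cl_planar hN h12 (cn_of (hT.comm hA hB) (hT.nilp hA) (hT.nilp hB)) hr)

end Pool.Agent.Lib.D13.Pl
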