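import Pool.Agent.Lib.D13.Ab1Main
import Pool.Agent.Lib.D13.PlMain

/-!
# MP_5dcbc3_ag: the Jordan types `(a, b, 1)` with `b ≥ 4` and `a + b + 1 ≤ 12`
-/

namespace Pool.Agent.Lib.D13

open Matrix Polynomial Pool.Agent.Lib.Q5dc Pool.Agent.Lib.D7 Pool.Agent.Lib.D8

variable {k : Type*} [Field k]

/-- the Jordan type `(b + δ, b, 1)` with `4 ≤ b` and at most `12` boxes is not bad -/
theorem not_bad_ab1 [IsAlgClosed k] [CharZero k] {b δ : ℕ} (hb : 4 ≤ b)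
    (h12 : b + δ + b + 1 ≤ 12) : ¬ Bad k [b + δ, b, 1] :=
  PB.not_bad_ab1 hb (PB.pairS_of fun _ _ hT hr => Pl.cl_planar (by omega) h12 hT hr)

theorem not_bad_541 [IsAlgClosed k] [CharZero k] : ¬ Bad k [5, 4, 1] :=
  not_bad_ab1 (b := 4) (δ := 1) (by norm_num) (by norm_num)

theorem not_bad_641 [IsAlgClosed k] [CharZero k] : ¬ Bad k [6, 4, 1] :=
  not_bad_ab1 (b := 4) (δ := 2) (by norm_num) (by norm_num)

theorem not_bad_741 [IsAlgClosed k] [CharZero k] : ¬ Bad k [7, 4, 1] :=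
  not_bad_ab1 (b := 4) (δ := 3) (by norm_num) (by norm_num)

theorem not_bad_551 [IsAlgClosed k] [CharZero k] : ¬ Bad k [5, 5, 1] :=
  not_bad_ab1 (b := 5) (δ := 0) (by norm_num) (by norm_num)

theorem not_bad_651 [IsAlgClosed k] [CharZero k] : ¬ Bad k [6, 5, 1] :=
  not_bad_ab1 (b := 5) (δ := 1) (by norm_num) (by norm_num)

end Pool.Agent.Lib.D13
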