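import Pool.Agent.Lib.D13.PBdual

/-!
# MP_5dcbc3_ag: Jordan blocks of sizes `b + δ`, `b`, `1`: the assembly
-/

namespace Pool.Agent.Lib.D13

open Matrix Polynomial Pool.Agent.Lib.Q5dc Pool.Agent.Lib.D7 Pool.Agent.Lib.D8

namespace PB

variable {k : Type*} [Field k] {N : ℕ}
variable {A : Matrix (Fin N) (Fin N) k} {w : Fin 3 → Fin N → k} {b δ : ℕ}

theorem coeff_sub_of_X_dvd {p q : k[X]} {e : ℕ} (he : 1 ≤ e) (h : X ^ e ∣ p - q) :
    p.coeff 0 = q.coeff 0 := by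
  have := coeff_of_dvd he h
  rw [coeff_sub] at this
  linear_combination this

/-- the constant terms of commuting matrices commute -/
theorem const_comm (hA : Bl A w b δ) (hb : 2 ≤ b) {B C' : Matrix (Fin N) (Fin N) k}
    {c f q r c' f' q' r' : k[X]} {t u g h t' u' g' h' : k}
    (hB : Rep A w B (Mx b δ c f q r t u g h)) (hC : Rep A w C' (Mx b δ c' f' q' r' t' u' g' h'))
    (hBC : B * C' = C' * B) :
    (!![c.coeff 0, (X ^ δ : k[X]).coeff 0 * f.coeff 0; r.coeff 0, q.coeff 0] :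
      Matrix (Fin 2) (Fin 2) k) * !![c'.coeff 0, (X ^ δ : k[X]).coeff 0 * f'.coeff 0;
        r'.coeff 0, q'.coeff 0] =
    !![c'.coeff 0, (X ^ δ : k[X]).coeff 0 * f'.coeff 0; r'.coeff 0, q'.coeff 0] *
      !![c.coeff 0, (X ^ δ : k[X]).coeff 0 * f.coeff 0; r.coeff 0, q.coeff 0] := by
  have h1 := (comm_iff hA hB hC).1 hBC
  have e1 : ((X : k[X]) ^ (b + δ - 1)).coeff 0 = 0 := by
    rw [coeff_X_pow, if_neg (by omega)]
  have e2 : ((X : k[X]) ^ (b - 1)).coeff 0 = 0 := by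
    rw [coeff_X_pow, if_neg (by omega)]
  have d00 := coeff_of_dvd (show 1 ≤ b + δ by omega) (h1 0 0)
  have d01 := coeff_of_dvd (show 1 ≤ b + δ by omega) (h1 0 1)
  have d10 := coeff_of_dvd (show 1 ≤ b by omega) (h1 1 0)
  have d11 := coeff_of_dvd (show 1 ≤ b by omega) (h1 1 1)
  rw [Matrix.sub_apply, Matrix.mul_apply, Matrix.mul_apply, Fin.sum_univ_three,
    Fin.sum_univ_three] at d00 d01 d10 d11
  simp only [Mx, Matrix.of_apply, Matrix.cons_val', Matrix.cons_val_zero, Matrix.cons_val_one,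
    Matrix.cons_val_fin_one, Matrix.cons_val, coeff_sub, coeff_add, mul_coeff_zero,
    coeff_C_zero, e1, e2] at d00 d01 d10 d11
  refine Matrix.ext fun i j => ?_
  rw [Matrix.mul_apply, Matrix.mul_apply, Fin.sum_univ_two, Fin.sum_univ_two]
  fin_cases i <;> fin_cases j
  · show c.coeff 0 * c'.coeff 0 + (X ^ δ : k[X]).coeff 0 * f.coeff 0 * r'.coeff 0 =
      c'.coeff 0 * c.coeff 0 + (X ^ δ : k[X]).coeff 0 * f'.coeff 0 * r.coeff 0
    linear_combination d00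
  · show c.coeff 0 * ((X ^ δ : k[X]).coeff 0 * f'.coeff 0) +
      (X ^ δ : k[X]).coeff 0 * f.coeff 0 * q'.coeff 0 =
      c'.coeff 0 * ((X ^ δ : k[X]).coeff 0 * f.coeff 0) +
      (X ^ δ : k[X]).coeff 0 * f'.coeff 0 * q.coeff 0
    linear_combination d01
  · show r.coeff 0 * c'.coeff 0 + q.coeff 0 * r'.coeff 0 =
      r'.coeff 0 * c.coeff 0 + q'.coeff 0 * r.coeff 0
    linear_combination d10
  · show r.coeff 0 * ((X ^ δ : k[X]).coeff 0 * f'.coeff 0) + q.coeff 0 * q'.coeff 0 =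
      r'.coeff 0 * ((X ^ δ : k[X]).coeff 0 * f.coeff 0) + q'.coeff 0 * q.coeff 0
    linear_combination d11

/-- constant 2 x 2 matrices as 3 x 3 matrices of polynomials -/
noncomputable def c3 (G : Matrix (Fin 2) (Fin 2) k) : Matrix (Fin 3) (Fin 3) k[X] :=
  !![C (G 0 0), C (G 0 1), 0; C (G 1 0), C (G 1 1), 0; 0, 0, 1]

theorem c3_mul {G H : Matrix (Fin 2) (Fin 2) k} (hGH : G * H = 1) : c3 G * c3 H = 1 := by
  have g00 := congrFun (congrFun hGH 0) 0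
  have g01 := congrFun (congrFun hGH 0) 1
  have g10 := congrFun (congrFun hGH 1) 0
  have g11 := congrFun (congrFun hGH 1) 1
  rw [Matrix.mul_apply, Fin.sum_univ_two] at g00 g01 g10 g11
  rw [Matrix.one_apply_eq] at g00 g11
  rw [Matrix.one_apply_ne (by decide)] at g01 g10
  have k00 := congrArg (C : k → k[X]) g00
  have k01 := congrArg (C : k → k[X]) g01
  have k10 := congrArg (C : k → k[X]) g10
  have k11 := congrArg (C : k → k[X]) g11
  rw [C_add, C_mul, C_mul] at k00 k01 k10 k11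
  rw [C_1] at k00 k11
  rw [C_0] at k01 k10
  refine Matrix.ext fun i j => ?_
  rw [Matrix.mul_apply, Fin.sum_univ_three]
  fin_cases i <;> fin_cases j
  · show C (G 0 0) * C (H 0 0) + C (G 0 1) * C (H 1 0) + 0 * 0 = (1 : k[X])
    linear_combination k00
  · show C (G 0 0) * C (H 0 1) + C (G 0 1) * C (H 1 1) + 0 * 0 = (0 : k[X])
    linear_combination k01
  · show C (G 0 0) * 0 + C (G 0 1) * 0 + 0 * 1 = (0 : k[X])
    ring
  · show C (G 1 0) * C (H 0 0) + C (G 1 1) * C (H 1 0) + 0 * 0 = (0 : k[X])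
    linear_combination k10
  · show C (G 1 0) * C (H 0 1) + C (G 1 1) * C (H 1 1) + 0 * 0 = (1 : k[X])
    linear_combination k11
  · show C (G 1 0) * 0 + C (G 1 1) * 0 + 0 * 1 = (0 : k[X])
    ring
  · show 0 * C (H 0 0) + 0 * C (H 1 0) + 1 * 0 = (0 : k[X])
    ring
  · show 0 * C (H 0 1) + 0 * C (H 1 1) + 1 * 0 = (0 : k[X])
    ring
  · show 0 * 0 + 0 * 0 + 1 * 1 = (1 : k[X])
    ring

theorem c3_conj (G H M : Matrix (Fin 2) (Fin 2) k) (P : Matrix (Fin 3) (Fin 3) k[X])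
    (h00 : (P 0 0).coeff 0 = M 0 0) (h01 : (P 0 1).coeff 0 = M 0 1)
    (h10 : (P 1 0).coeff 0 = M 1 0) (h11 : (P 1 1).coeff 0 = M 1 1) :
    ((c3 H * P * c3 G) 0 1).coeff 0 = (H * M * G) 0 1 := by
  have e1 : (c3 H * P * c3 G) 0 1 = (C (H 0 0) * P 0 0 + C (H 0 1) * P 1 0) * C (G 0 1) +
      (C (H 0 0) * P 0 1 + C (H 0 1) * P 1 1) * C (G 1 1) := by
    rw [Matrix.mul_apply, Fin.sum_univ_three, Matrix.mul_apply, Matrix.mul_apply,
      Matrix.mul_apply, Fin.sum_univ_three, Fin.sum_univ_three, Fin.sum_univ_three]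
    show (C (H 0 0) * P 0 0 + C (H 0 1) * P 1 0 + 0 * P 2 0) * C (G 0 1) +
      (C (H 0 0) * P 0 1 + C (H 0 1) * P 1 1 + 0 * P 2 1) * C (G 1 1) +
      (C (H 0 0) * P 0 2 + C (H 0 1) * P 1 2 + 0 * P 2 2) * 0 = _
    ring
  have e2 : (H * M * G) 0 1 = (H 0 0 * M 0 0 + H 0 1 * M 1 0) * G 0 1 +
      (H 0 0 * M 0 1 + H 0 1 * M 1 1) * G 1 1 := by
    rw [Matrix.mul_apply, Fin.sum_univ_two, Matrix.mul_apply, Matrix.mul_apply, Fin.sum_univ_two,
      Fin.sum_univ_two]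
  rw [e1, e2]
  simp only [coeff_add, mul_coeff_zero, coeff_C_zero, h00, h01, h10, h11]

/-- constant change of generators -/
theorem exists_tri (hA : Bl A w b δ) (hb : 2 ≤ b) {B C' : Matrix (Fin N) (Fin N) k}
    (hAB : A * B = B * A) (hAC : A * C' = C' * A) (hBC : B * C' = C' * B)
    (hB : IsNilpotent B) (hC : IsNilpotent C') :
    ∃ (w' : Fin 3 → Fin N → k) (c f q r c' f' q' r' : k[X]) (t u g h t' u' g' h' : k),
      Bl A w' b δ ∧ Rep A w' B (Mx b δ c f q r t u g h) ∧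
      Rep A w' C' (Mx b δ c' f' q' r' t' u' g' h') ∧
      (X ^ δ : k[X]).coeff 0 * f.coeff 0 = 0 ∧ (X ^ δ : k[X]).coeff 0 * f'.coeff 0 = 0 := by
  obtain ⟨c, f, q, r, t, u, g, h, hR⟩ := mx_of_comm hA hb hAB hB
  obtain ⟨c', f', q', r', t', u', g', h', hR'⟩ := mx_of_comm hA hb hAC hC
  by_cases hδ : δ = 0
  swap
  · have e : (X ^ δ : k[X]).coeff 0 = 0 := by
      rw [coeff_X_pow, if_neg (fun h => hδ h.symm)]
    exact ⟨w, c, f, q, r, c', f', q', r', t, u, g, h, t', u', g', h', hA, hR, hR',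
      by rw [e, zero_mul], by rw [e, zero_mul]⟩
  subst hδ
  have m1 := const_of_nilp hA hb hR hB
  have m2 := const_of_nilp hA hb hR' hC
  have m3 := const_comm hA hb hR hR' hBC
  rw [pow_two] at m1 m2
  have ex : (X ^ 0 : k[X]).coeff 0 = 1 := by simp
  rw [ex, one_mul] at m1 m2
  rw [ex, one_mul, one_mul] at m3
  obtain ⟨G, H, hGH, hHG, hG1, hG2⟩ := Two.exists_g m1 m2 m3
  have hA' := BlkB.change hA (G := c3 G) (H := c3 H) (by
    rw [adm_iff _ (by omega)]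
    refine ⟨?_, ?_, ?_⟩
    · rw [pow_zero]
      exact one_dvd _
    · exact dvd_zero _
    · exact dvd_zero _) (by
    rw [c3_mul hGH, sub_self]
    exact fun _ _ => dvd_zero _)
  have key : ∀ (P : Matrix (Fin 3) (Fin 3) k[X]) (B' : Matrix (Fin N) (Fin N) k),
      Rep A w B' P → Rep A (fun j => pi A w fun i => c3 G i j) B' (c3 H * P * c3 G) := by
    intro P B' hP
    refine hP.change hA ?_
    have e : P * c3 G - c3 G * (c3 H * P * c3 G) = 0 := by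
      rw [← Matrix.mul_assoc, ← Matrix.mul_assoc, c3_mul hGH, Matrix.one_mul, sub_self]
    rw [e]
    exact fun _ _ => dvd_zero _
  obtain ⟨c₁, f₁, q₁, r₁, t₁, u₁, g₁, h₁, hR₁⟩ := mx_of_comm hA' hb hAB hB
  obtain ⟨c₂, f₂, q₂, r₂, t₂, u₂, g₂, h₂, hR₂⟩ := mx_of_comm hA' hb hAC hC
  have e1 := (key _ _ hR).eq_iff hA' hR₁ |>.1 rfl
  have e2 := (key _ _ hR').eq_iff hA' hR₂ |>.1 rfl
  have d1 := coeff_sub_of_X_dvd (show 1 ≤ b + 0 by omega) (e1 0 1)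
  have d2 := coeff_sub_of_X_dvd (show 1 ≤ b + 0 by omega) (e2 0 1)
  have ex' : ∀ f : k[X], ((X ^ 0 : k[X]) * f).coeff 0 = f.coeff 0 := fun f => by
    rw [pow_zero, one_mul]
  refine ⟨_, c₁, f₁, q₁, r₁, c₂, f₂, q₂, r₂, t₁, u₁, g₁, h₁, t₂, u₂, g₂, h₂, hA', hR₁, hR₂,
    ?_, ?_⟩
  · rw [ex, one_mul]
    have e3 : (Mx b 0 c₁ f₁ q₁ r₁ t₁ u₁ g₁ h₁ 0 1).coeff 0 = f₁.coeff 0 := ex' f₁
    rw [← e3, ← d1, ← hG1]
    exact c3_conj G H _ _ rfl (ex' f) rfl rfl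
  · rw [ex, one_mul]
    have e3 : (Mx b 0 c₂ f₂ q₂ r₂ t₂ u₂ g₂ h₂ 0 1).coeff 0 = f₂.coeff 0 := ex' f₂
    rw [← e3, ← d2, ← hG2]
    exact c3_conj G H _ _ rfl (ex' f') rfl rfl

/-- the reduced form -/
theorem exists_red (hA : Bl A w b δ) (hb : 2 ≤ b) {B C' : Matrix (Fin N) (Fin N) k}
    (hAB : A * B = B * A) (hAC : A * C' = C' * A) (hBC : B * C' = C' * B)
    (hB : IsNilpotent B) (hC : IsNilpotent C') :
    ∃ (w' : Fin 3 → Fin N → k) (c f q r c' f' q' r' : k[X]) (t u g h t' u' g' h' : k),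
      Bl A w' b δ ∧ X ∣ c ∧ X ∣ c' ∧ Rep A w' (B - aeval A c) (Mx b δ 0 f (X * q) r t u g h) ∧
      Rep A w' (C' - aeval A c') (Mx b δ 0 f' (X * q') r' t' u' g' h') ∧
      (δ = 0 → f.coeff 0 = 0 ∧ f'.coeff 0 = 0) := by
  obtain ⟨w', c, f, q, r, c', f', q', r', t, u, g, h, t', u', g', h', hA', hR, hR', hf, hf'⟩ :=
    exists_tri hA hb hAB hAC hBC hB hC
  have m1 := const_of_nilp hA' hb hR hB
  have m2 := const_of_nilp hA' hb hR' hC
  rw [pow_two] at m1 m2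
  obtain ⟨hc0, hq0⟩ := Two.lt_of_sq m1 hf
  obtain ⟨hc0', hq0'⟩ := Two.lt_of_sq m2 hf'
  have hc0 : c.coeff 0 = 0 := hc0
  have hq0 : q.coeff 0 = 0 := hq0
  have hc0' : c'.coeff 0 = 0 := hc0'
  have hq0' : q'.coeff 0 = 0 := hq0'
  have x1 : X ∣ c := X_dvd_iff.2 hc0
  have x2 : X ∣ c' := X_dvd_iff.2 hc0'
  obtain ⟨q₁, hq₁⟩ : X ∣ q - c := dvd_sub (X_dvd_iff.2 hq0) x1
  obtain ⟨q₂, hq₂⟩ : X ∣ q' - c' := dvd_sub (X_dvd_iff.2 hq0') x2
  have h1 := mx_sub hA' hR c x1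
  have h2 := mx_sub hA' hR' c' x2
  rw [sub_self, hq₁] at h1
  rw [sub_self, hq₂] at h2
  refine ⟨w', c, f, q₁, r, c', f', q₂, r', t, u, g, h, t', u', g', h', hA', x1, x2, h1, h2, ?_⟩
  rintro rfl
  have ex : (X ^ 0 : k[X]).coeff 0 = 1 := by simp
  rw [ex, one_mul] at hf hf'
  exact ⟨hf, hf'⟩

theorem sub_comm_sub {B C' : Matrix (Fin N) (Fin N) k} (hAB : A * B = B * A)
    (hAC : A * C' = C' * A) (hBC : B * C' = C' * B) (c c' : k[X]) :
    (B - aeval A c) * (C' - aeval A c') = (C' - aeval A c') * (B - aeval A c) := by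
  have h1 : ∀ (p : k[X]) (M : Matrix (Fin N) (Fin N) k), A * M = M * A →
      aeval A p * M = M * aeval A p := by
    intro p M hM
    rw [Polynomial.aeval_eq_sum_range, Finset.mul_sum, Finset.sum_mul]
    refine Finset.sum_congr rfl fun i _ => ?_
    rw [mul_smul_comm, smul_mul_assoc, (Commute.pow_left (show Commute A M from hM) i).eq]
  have h2 := h1 c C' hAC
  have h3 := h1 c' B hAB
  have h4 : aeval A c * aeval A c' = aeval A c' * aeval A c := by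
    rw [← map_mul, ← map_mul, mul_comm]
  rw [sub_mul, mul_sub, mul_sub, sub_mul, mul_sub, mul_sub, hBC, h2, h3, h4]
  abel

/-- all cases together -/
theorem full (hb : 4 ≤ b) (hAl : AlphaS k b δ) (hN : NonAlphaS k b δ) : FullS k b δ := by
  intro N A B C' w hA hAB hAC hBC hB hC
  obtain ⟨w', c, f, q, r, c', f', q', r', t, u, g, h, t', u', g', h', hA', x1, x2, hR, hR', hf⟩ :=
    exists_red hA (by omega) hAB hAC hBC hB hC
  refine Two.cl_sub x1 x2 ?_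
  have hcm := sub_comm_sub hAB hAC hBC c c'
  generalize B - aeval A c = B₁ at hR hcm ⊢
  generalize C' - aeval A c' = C₁ at hR' hcm ⊢
  by_cases hr : r.coeff 0 = 0
  swap
  · exact hAl N A B₁ C₁ w' f q r f' q' r' t u g h t' u' g' h' hA' hR hR' hf hcm hr
  by_cases hr' : r'.coeff 0 = 0
  swap
  · exact Two.cl_swap (hAl N A C₁ B₁ w' f' q' r' f q r t' u' g' h' t u g h hA' hR' hR
      (fun hδ => (hf hδ).symm) hcm.symm hr')
  obtain ⟨w'', hA'', hdual⟩ := mx_dual hA' (by omega)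
  have htr : ∀ B₂ C₂ : Matrix (Fin N) (Fin N) k, Cl ![Aᵀ, B₂ᵀ, C₂ᵀ] → Cl ![A, B₂, C₂] := by
    intro B₂ C₂ h
    have h1 := h.transpose
    have h2 : (fun i => (![Aᵀ, B₂ᵀ, C₂ᵀ] i)ᵀ) = ![A, B₂, C₂] := by
      funext i
      fin_cases i <;> simp
    rwa [h2] at h1
  by_cases hf0 : f.coeff 0 = 0
  swap
  · have hδ : δ ≠ 0 := fun hδ => hf0 (hf hδ).1
    refine htr _ _ (hAl N Aᵀ B₁ᵀ C₁ᵀ w'' r q f r' q' f' g h t u g' h' t' u' hA''
      (hdual _ _ _ _ _ _ _ _ _ hR) (hdual _ _ _ _ _ _ _ _ _ hR') (fun h => absurd h hδ) ?_ hf0)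
    rw [← Matrix.transpose_mul, ← Matrix.transpose_mul, hcm]
  by_cases hf0' : f'.coeff 0 = 0
  swap
  · have hδ : δ ≠ 0 := fun hδ => hf0' (hf hδ).2
    refine Two.cl_swap (htr _ _ (hAl N Aᵀ C₁ᵀ B₁ᵀ w'' r' q' f' r q f g' h' t' u' g h t u hA''
      (hdual _ _ _ _ _ _ _ _ _ hR') (hdual _ _ _ _ _ _ _ _ _ hR) (fun h => absurd h hδ) ?_ hf0'))
    rw [← Matrix.transpose_mul, ← Matrix.transpose_mul, hcm]
  obtain ⟨f₁, rfl⟩ : X ∣ f := X_dvd_iff.2 hf0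
  obtain ⟨f₂, rfl⟩ : X ∣ f' := X_dvd_iff.2 hf0'
  obtain ⟨r₁, rfl⟩ : X ∣ r := X_dvd_iff.2 hr
  obtain ⟨r₂, rfl⟩ : X ∣ r' := X_dvd_iff.2 hr'
  exact hN N A B₁ C₁ w' f₁ q r₁ f₂ q' r₂ t u g h t' u' g' h' hA' hR hR' hcm

end PB

end Pool.Agent.Lib.D13
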