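import Pool.Agent.Lib.D13.GenA0
import Pool.Agent.Lib.D8.TwoB

/-!
# MP_5dcbc3_ag: the generic commuting nilpotent triples of type (a, b, 1): from the module to
matrices
-/

namespace Pool.Agent.Lib.D13.GenA

open Matrix Pool.Agent.Lib.Q5dc Pool.Agent.Lib.D7 Pool.Agent.Lib.D8

universe u v

set_option linter.deprecated false in
/-- three commuting matrices are in a commutative algebra -/
theorem exists_comm_alg {k : Type u} {ι : Type v} [Field k] [Fintype ι] [DecidableEq ι]
    (T : Fin 3 → Matrix ι ι k) (h : ∀ i j, T i * T j = T j * T i) :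
    ∃ (S : Type (max u v)) (_ : CommRing S) (_ : Algebra k S) (φ : S →ₐ[k] Matrix ι ι k),
      Function.Injective φ ∧ ∃ s : Fin 3 → S, ∀ i, φ (s i) = T i := by
  have hc : ∀ a ∈ Set.range T, ∀ b ∈ Set.range T, a * b = b * a := by
    rintro _ ⟨i, rfl⟩ _ ⟨j, rfl⟩
    exact h i j
  refine ⟨Algebra.adjoin k (Set.range T), Algebra.adjoinCommRingOfComm k hc,
    (Algebra.adjoin k (Set.range T)).algebra, (Algebra.adjoin k (Set.range T)).val,
    Subtype.val_injective, fun i => ⟨T i, Algebra.subset_adjoin ⟨i, rfl⟩⟩, fun i => rfl⟩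

/-- the module structure -/
@[instance_reducible] def modS {k S : Type*} [Field k] [CommRing S] [Algebra k S] {N : ℕ}
    (φ : S →ₐ[k] Matrix (Fin N) (Fin N) k) : Module S (Fin N → k) where
  smul s v := φ s *ᵥ v
  one_smul v := by
    show φ 1 *ᵥ v = v
    rw [map_one, Matrix.one_mulVec]
  mul_smul s t v := by
    show φ (s * t) *ᵥ v = φ s *ᵥ (φ t *ᵥ v)
    rw [map_mul, Matrix.mulVec_mulVec]
  smul_zero s := Matrix.mulVec_zero _
  smul_add s v w := Matrix.mulVec_add _ _ _
  add_smul s t v := by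
    show φ (s + t) *ᵥ v = φ s *ᵥ v + φ t *ᵥ v
    rw [map_add, Matrix.add_mulVec]
  zero_smul v := by
    show φ 0 *ᵥ v = 0
    rw [map_zero, Matrix.zero_mulVec]

/-- membership in `adj` by induction -/
theorem adj_ind {k ι : Type*} [Field k] [Fintype ι] [DecidableEq ι] {T : Fin 3 → Matrix ι ι k}
    (U : Submodule k (ι → k)) (hU : ∀ i, ∀ v ∈ U, T i *ᵥ v ∈ U) {M : Matrix ι ι k}
    (hM : M ∈ adj T) : ∀ v ∈ U, M *ᵥ v ∈ U := by
  refine adj_induction (p := fun M => ∀ v ∈ U, M *ᵥ v ∈ U) hU ?_ ?_ ?_ ?_ hM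
  · intro v _
    rw [Matrix.zero_mulVec]
    exact zero_mem _
  · intro x y _ _ hx hy v hv
    rw [Matrix.add_mulVec]
    exact add_mem (hx v hv) (hy v hv)
  · intro x y _ _ hx hy v hv
    rw [← Matrix.mulVec_mulVec]
    exact hx _ (hy v hv)
  · intro r x _ hx v hv
    rw [Matrix.smul_mulVec]
    exact Submodule.smul_mem _ _ (hx v hv)

theorem pow_mem {R : Type*} [Field R] {ι : Type*} [Fintype ι] [DecidableEq ι]
    (U : NonUnitalSubalgebra R (Matrix ι ι R)) {M : Matrix ι ι R} (hM : M ∈ U) (i : ℕ) :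
    M ^ (i + 1) ∈ U := by
  induction i with
  | zero => rwa [zero_add, pow_one]
  | succ i ih =>
    rw [pow_succ]
    exact mul_mem ih hM

/-- the core -/
theorem core {k : Type*} [Field k] [IsAlgClosed k] [CharZero k] {m n N : ℕ}
    (hN : N = (m + 4) + (n + 4) + 1) {S : Type*} [CommRing S] [Algebra k S]
    (φ : S →ₐ[k] Matrix (Fin N) (Fin N) k) (hφ : Function.Injective φ)
    [Module S (Fin N → k)] (hsm : ∀ (s : S) (v : Fin N → k), s • v = φ s *ᵥ v)
    {x y z R F : S} {τ ω γ η ρ1 φ1 κ1 κ2 : k} {e1 e2 p : Fin N → k}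
    (D : Dat m n x y z R F (algebraMap k S τ) (algebraMap k S ω) (algebraMap k S γ)
      (algebraMap k S η) (algebraMap k S ρ1) (algebraMap k S φ1) (algebraMap k S κ1)
      (algebraMap k S κ2) e1 e2 p)
    (hgen : ∀ v : Fin N → k, ∃ (c1 c2 c3 : k) (w : Fin N → k),
      v = c1 • e1 + c2 • e2 + c3 • p + x • w)
    (hx : IsNilpotent x) (hγ : γ ≠ 0) (hη : η ≠ 0)
    (T : Fin 3 → Matrix (Fin N) (Fin N) k) (hT : ∀ i, T i ∈ adj ![φ x, φ y, φ z]) : Cl T := by
  have halg : ∀ (c : k) (v : Fin N → k), algebraMap k S c • v = c • v := by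
    intro c v
    rw [hsm, AlgHom.commutes, Algebra.algebraMap_eq_smul_one, Matrix.smul_mulVec,
      Matrix.one_mulVec]
  -- descending induction
  have hdesc : ∀ U : Submodule k (Fin N → k), (∀ v ∈ U, x • v ∈ U) →
      (∀ v : Fin N → k, ∃ u ∈ U, ∃ w : Fin N → k, v = u + x • w) → ∀ v, v ∈ U := by
    intro U hU h v
    obtain ⟨e, he⟩ := hx
    have key : ∀ i : ℕ, ∀ v : Fin N → k, ∃ u ∈ U, ∃ w : Fin N → k, v = u + x ^ i • w := by
      intro i
      induction i with
      | zero =>
        intro v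
        exact ⟨0, zero_mem _, v, by rw [pow_zero, one_smul, zero_add]⟩
      | succ i ih =>
        intro v
        obtain ⟨u, hu, w, hw⟩ := ih v
        obtain ⟨u', hu', w', hw'⟩ := h w
        refine ⟨u + x ^ i • u', add_mem hu ?_, w', ?_⟩
        · have : ∀ j : ℕ, x ^ j • u' ∈ U := by
            intro j
            induction j with
            | zero => rw [pow_zero, one_smul]; exact hu'
            | succ j ih => rw [pow_succ', mul_smul]; exact hU _ ih
          exact this i
        · rw [hw, hw', smul_add, pow_succ, mul_smul]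
          abel
    obtain ⟨u, hu, w, hw⟩ := key e v
    rw [he, zero_smul, add_zero] at hw
    rwa [hw]
  -- faithful
  have hf : ∀ s : S, s • e1 = 0 → s • e2 = 0 → s • p = 0 → s = 0 := by
    intro s h1 h2 h3
    let U : Submodule k (Fin N → k) :=
      { carrier := {v | s • v = 0}
        zero_mem' := smul_zero s
        add_mem' := by
          intro a b ha hb
          show s • (a + b) = 0
          rw [smul_add, show s • a = 0 from ha, show s • b = 0 from hb, add_zero]
        smul_mem' := by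
          intro c v hv
          show s • (c • v) = 0
          rw [← halg, smul_comm, show s • v = 0 from hv, smul_zero] }
    have hU : ∀ v, v ∈ U := by
      refine hdesc U ?_ ?_
      · intro v hv
        show s • x • v = 0
        rw [smul_comm, show s • v = 0 from hv, smul_zero]
      · intro v
        obtain ⟨c1, c2, c3, w, hw⟩ := hgen v
        exact ⟨c1 • e1 + c2 • e2 + c3 • p, add_mem (add_mem (U.smul_mem c1 h1)
          (U.smul_mem c2 h2)) (U.smul_mem c3 h3), w, hw⟩
    apply hφ
    rw [map_zero]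
    have h4 : ∀ v, φ s *ᵥ v = 0 := by
      intro v
      rw [← hsm]
      exact hU v
    have h8 : Matrix.toLin' (φ s) = Matrix.toLin' 0 := by
      rw [map_zero]
      exact LinearMap.ext h4
    exact Matrix.toLin'.injective h8
  -- the normal form
  obtain ⟨a1, ha1⟩ : ∃ a : k, algebraMap k S a = -algebraMap k S φ1 +
      algebraMap k S τ * algebraMap k S κ2 + algebraMap k S γ * (algebraMap k S τ -
      algebraMap k S ω) * (if m = 0 then algebraMap k S γ * (algebraMap k S τ -
      algebraMap k S ω) ^ 2 else 0) - algebraMap k S η * (algebraMap k S τ - algebraMap k S ω) *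
      (if n = 0 then -(algebraMap k S τ * algebraMap k S γ * (algebraMap k S τ -
      algebraMap k S ω)) else 0) := by
    refine ⟨-φ1 + τ * κ2 + γ * (τ - ω) * (if m = 0 then γ * (τ - ω) ^ 2 else 0)
      - η * (τ - ω) * (if n = 0 then -(τ * γ * (τ - ω)) else 0), ?_⟩
    split_ifs <;> simp only [map_add, map_sub, map_neg, map_mul, map_pow, map_zero]
  obtain ⟨a2, ha2⟩ : ∃ a : k, algebraMap k S a = algebraMap k S ρ1 +
      algebraMap k S ω * algebraMap k S κ1 + algebraMap k S γ * (algebraMap k S τ -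
      algebraMap k S ω) * (if m = 0 then algebraMap k S ω * algebraMap k S η *
      (algebraMap k S τ - algebraMap k S ω) else 0) - algebraMap k S η * (algebraMap k S τ -
      algebraMap k S ω) * (if n = 0 then algebraMap k S η * (algebraMap k S τ -
      algebraMap k S ω) ^ 2 else 0) := by
    refine ⟨ρ1 + ω * κ1 + γ * (τ - ω) * (if m = 0 then ω * η * (τ - ω) else 0)
      - η * (τ - ω) * (if n = 0 then η * (τ - ω) ^ 2 else 0), ?_⟩
    split_ifs <;> simp only [map_add, map_sub, map_mul, map_pow, map_zero]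
  obtain ⟨X, Y, Z, E1, E2, P, hXY, hXZ, hYZ, hXE2, hYE1, hZE1, hZE2, hX1, hY2, hZP, ⟨w1, hw1⟩,
    ⟨w2, hw2⟩, ⟨w3, hw3⟩, hz, hy, hx'⟩ := D.fin hf ha1 ha2
  have hXm : φ X ∈ adj ![φ X, φ Y, φ Z] := mem_adj ![φ X, φ Y, φ Z] 0
  have hYm : φ Y ∈ adj ![φ X, φ Y, φ Z] := mem_adj ![φ X, φ Y, φ Z] 1
  have hZm : φ Z ∈ adj ![φ X, φ Y, φ Z] := mem_adj ![φ X, φ Y, φ Z] 2
  have hal : ∀ (c : k) (s : S), φ (algebraMap k S c * s) = c • φ s := by
    intro c s
    rw [map_mul, AlgHom.commutes, Algebra.algebraMap_eq_smul_one, smul_mul_assoc, one_mul]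
  have hzm : φ z ∈ adj ![φ X, φ Y, φ Z] := by
    have h1 : z = Z + algebraMap k S a1 * X ^ (m + 3) - algebraMap k S a2 * Y ^ (n + 3)
        - algebraMap k S (γ * (τ - ω)) * X ^ (m + 2) - algebraMap k S (η * (τ - ω)) * Y ^ (n + 2) := by
      rw [map_mul, map_mul, map_sub]
      exact hz
    rw [h1, map_sub, map_sub, map_sub, map_add, hal, hal, hal, hal, map_pow, map_pow, map_pow,
      map_pow]
    exact sub_mem (sub_mem (sub_mem (add_mem hZm (SMulMemClass.smul_mem _ (pow_mem _ hXm (m + 2))))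
      (SMulMemClass.smul_mem _ (pow_mem _ hYm (n + 2))))
      (SMulMemClass.smul_mem _ (pow_mem _ hXm (m + 1))))
      (SMulMemClass.smul_mem _ (pow_mem _ hYm (n + 1)))
  have hym : φ y ∈ adj ![φ X, φ Y, φ Z] := by
    have h1 : y = Y - algebraMap k S (τ ^ 2 * κ2) * X ^ (m + 3) + algebraMap k S τ * z := by
      rw [map_mul, map_pow]
      exact hy
    rw [h1, map_add, map_sub, hal, hal, map_pow]
    exact add_mem (sub_mem hYm (SMulMemClass.smul_mem _ (pow_mem _ hXm (m + 2))))
      (SMulMemClass.smul_mem _ hzm)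
  have hxm : φ x ∈ adj ![φ X, φ Y, φ Z] := by
    have h1 : x = X - algebraMap k S (ω ^ 2 * κ1) * Y ^ (n + 3) + y - algebraMap k S ω * z := by
      rw [map_mul, map_pow]
      exact hx'
    rw [h1, map_sub, map_add, map_sub, hal, hal, map_pow]
    exact sub_mem (add_mem (sub_mem hXm (SMulMemClass.smul_mem _ (pow_mem _ hYm (n + 2)))) hym)
      (SMulMemClass.smul_mem _ hzm)
  -- the triple X, Y, Z
  have hcl : ∀ lam : Fin 3 → Fin 3 → k, Cl fun i => lam i 0 • φ X + lam i 1 • φ Y + lam i 2 • φ Z := by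
    have hc : ∀ s t : S, s * t = 0 → φ s * φ t = 0 := by
      intro s t h
      rw [← map_mul, h, map_zero]
    have h2 : (2 : k) ≠ 0 := two_ne_zero
    have e1' : φ X *ᵥ E2 = 0 := by rw [← hsm]; exact hXE2
    have e2' : φ Y *ᵥ E1 = 0 := by rw [← hsm]; exact hYE1
    have e3' : φ Z *ᵥ E1 = P := by rw [← hsm]; exact hZE1
    have e4' : φ Z *ᵥ E2 = P := by rw [← hsm]; exact hZE2
    refine cl_axes3_two (φ X) (φ Y) (φ Z) (E1 + E2) E1 (p := m + 3) (q := n + 3) (r := 2)
      (a := -(η / γ)) (b := 1 / (2 * γ)) (l₀ := 1) (l₁ := 0) (l₂ := 1 / 2)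
      (by omega) (by omega) (by omega)
      (by rw [Fintype.card_fin, hN]; ring) (hc _ _ hXY) (hc _ _ (by rw [mul_comm, hXY]))
      (hc _ _ hXZ) (hc _ _ (by rw [mul_comm, hXZ])) (hc _ _ hYZ)
      (hc _ _ (by rw [mul_comm, hYZ])) (neg_ne_zero.2 (div_ne_zero hη hγ))
      (one_div_ne_zero (mul_ne_zero h2 hγ)) ?_ (by norm_num) (by norm_num) (by norm_num) ?_ ?_ ?_ ?_
    · -- the relation
      have r1 : φ X ^ (m + 3) *ᵥ (E1 + E2) = x ^ (m + 3) • e1 := by
        have : φ X ^ (m + 3) *ᵥ E2 = 0 := by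
          rw [pow_succ, ← Matrix.mulVec_mulVec, e1', Matrix.mulVec_zero]
        rw [Matrix.mulVec_add, this, add_zero, ← map_pow, ← hsm]
        exact hX1
      have r2 : φ Y ^ (n + 3) *ᵥ (E1 + E2) = x ^ (n + 3) • e2 := by
        have : φ Y ^ (n + 3) *ᵥ E1 = 0 := by
          rw [pow_succ, ← Matrix.mulVec_mulVec, e2', Matrix.mulVec_zero]
        rw [Matrix.mulVec_add, this, zero_add, ← map_pow, ← hsm]
        exact hY2
      have r3 : φ Z ^ 2 *ᵥ (E1 + E2) = (2 : k) • (γ • x ^ (m + 3) • e1 + η • x ^ (n + 3) • e2) := by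
        have h5 : φ Z *ᵥ P = γ • x ^ (m + 3) • e1 + η • x ^ (n + 3) • e2 := by
          rw [← hsm, hZP, halg, halg]
        rw [pow_two, ← Matrix.mulVec_mulVec, Matrix.mulVec_add, e3', e4', Matrix.mulVec_add, h5,
          two_smul]
      rw [r1, r2, r3]
      have h6 : (1 / (2 * γ)) * 2 * γ = 1 := by field_simp
      have h7 : -(η / γ) + (1 / (2 * γ)) * 2 * η = 0 := by field_simp; ring
      have h8 : (-(η / γ)) • x ^ (n + 3) • e2 + (1 / (2 * γ)) • (2 : k) • (γ • x ^ (m + 3) • e1 +
          η • x ^ (n + 3) • e2) = ((1 / (2 * γ)) * 2 * γ) • x ^ (m + 3) • e1 +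
          (-(η / γ) + (1 / (2 * γ)) * 2 * η) • x ^ (n + 3) • e2 := by
        generalize x ^ (m + 3) • e1 = s1
        generalize x ^ (n + 3) • e2 = s2
        module
      rw [h8, h6, h7, one_smul, zero_smul, add_zero]
    · rw [Matrix.mulVec_add, e1', add_zero, one_smul]
    · rw [e2', zero_smul]
    · rw [Matrix.mulVec_add, e3', e4', ← two_smul k P, smul_smul]
      norm_num
    · -- generation
      set U : Submodule k (Fin N → k) := Submodule.span k ({E1 + E2} ∪ {E1} ∪
        {v | ∃ i, v = φ X ^ (i + 1) *ᵥ (E1 + E2)} ∪ {v | ∃ i, v = φ Y ^ (i + 1) *ᵥ (E1 + E2)} ∪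
        {v | ∃ i, v = φ Z ^ (i + 1) *ᵥ (E1 + E2)}) with hUdef
      have uv : E1 + E2 ∈ U := Submodule.subset_span (Or.inl (Or.inl (Or.inl (Or.inl rfl))))
      have uu : E1 ∈ U := Submodule.subset_span (Or.inl (Or.inl (Or.inl (Or.inr rfl))))
      have uX : ∀ i, φ X ^ (i + 1) *ᵥ (E1 + E2) ∈ U := fun i =>
        Submodule.subset_span (Or.inl (Or.inl (Or.inr ⟨i, rfl⟩)))
      have uY : ∀ i, φ Y ^ (i + 1) *ᵥ (E1 + E2) ∈ U := fun i =>
        Submodule.subset_span (Or.inl (Or.inr ⟨i, rfl⟩))
      have uZ : ∀ i, φ Z ^ (i + 1) *ᵥ (E1 + E2) ∈ U := fun i =>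
        Submodule.subset_span (Or.inr ⟨i, rfl⟩)
      have hstep : ∀ (s t : S), s * t = 0 → ∀ i : ℕ, φ s *ᵥ (φ t ^ (i + 1) *ᵥ (E1 + E2)) = 0 := by
        intro s t h i
        rw [Matrix.mulVec_mulVec, pow_succ', ← mul_assoc, hc _ _ h, zero_mul, Matrix.zero_mulVec]
      have hself : ∀ (s : S) (i : ℕ), φ s *ᵥ (φ s ^ (i + 1) *ᵥ (E1 + E2)) =
          φ s ^ (i + 1 + 1) *ᵥ (E1 + E2) := by
        intro s i
        rw [Matrix.mulVec_mulVec, ← pow_succ']
      have hXst : ∀ v ∈ U, φ X *ᵥ v ∈ U := by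
        intro v hv
        rw [hUdef] at hv
        induction hv using Submodule.span_induction with
        | mem v hv =>
          rcases hv with (((hv | hv) | ⟨i, rfl⟩) | ⟨i, rfl⟩) | ⟨i, rfl⟩
          · rw [Set.mem_singleton_iff] at hv
            rw [hv]
            simpa using uX 0
          · rw [Set.mem_singleton_iff] at hv
            rw [hv]
            have h9 := uX 0
            rw [zero_add, pow_one, Matrix.mulVec_add, e1', add_zero] at h9
            exact h9
          · rw [hself]; exact uX _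
          · rw [hstep X Y hXY]; exact zero_mem _
          · rw [hstep X Z hXZ]; exact zero_mem _
        | zero => rw [Matrix.mulVec_zero]; exact zero_mem _
        | add a b _ _ ha hb => rw [Matrix.mulVec_add]; exact add_mem ha hb
        | smul c a _ ha => rw [Matrix.mulVec_smul]; exact U.smul_mem c ha
      have hYst : ∀ v ∈ U, φ Y *ᵥ v ∈ U := by
        intro v hv
        rw [hUdef] at hv
        induction hv using Submodule.span_induction with
        | mem v hv =>
          rcases hv with (((hv | hv) | ⟨i, rfl⟩) | ⟨i, rfl⟩) | ⟨i, rfl⟩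
          · rw [Set.mem_singleton_iff] at hv
            rw [hv]
            simpa using uY 0
          · rw [Set.mem_singleton_iff] at hv
            rw [hv, e2']
            exact zero_mem _
          · rw [hstep Y X (by rw [mul_comm, hXY])]; exact zero_mem _
          · rw [hself]; exact uY _
          · rw [hstep Y Z hYZ]; exact zero_mem _
        | zero => rw [Matrix.mulVec_zero]; exact zero_mem _
        | add a b _ _ ha hb => rw [Matrix.mulVec_add]; exact add_mem ha hb
        | smul c a _ ha => rw [Matrix.mulVec_smul]; exact U.smul_mem c ha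
      have hZst : ∀ v ∈ U, φ Z *ᵥ v ∈ U := by
        intro v hv
        rw [hUdef] at hv
        induction hv using Submodule.span_induction with
        | mem v hv =>
          rcases hv with (((hv | hv) | ⟨i, rfl⟩) | ⟨i, rfl⟩) | ⟨i, rfl⟩
          · rw [Set.mem_singleton_iff] at hv
            rw [hv]
            simpa using uZ 0
          · rw [Set.mem_singleton_iff] at hv
            rw [hv]
            have h9 := U.smul_mem (1 / 2 : k) (uZ 0)
            rw [zero_add, pow_one, Matrix.mulVec_add, e3', e4', ← two_smul k P, smul_smul] at h9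
            rw [e3']
            have h10 : (1 / 2 : k) * 2 = 1 := by norm_num
            rwa [h10, one_smul] at h9
          · rw [hstep Z X (by rw [mul_comm, hXZ])]; exact zero_mem _
          · rw [hstep Z Y (by rw [mul_comm, hYZ])]; exact zero_mem _
          · rw [hself]; exact uZ _
        | zero => rw [Matrix.mulVec_zero]; exact zero_mem _
        | add a b _ _ ha hb => rw [Matrix.mulVec_add]; exact add_mem ha hb
        | smul c a _ ha => rw [Matrix.mulVec_smul]; exact U.smul_mem c ha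
      have hadj : ∀ M ∈ adj ![φ X, φ Y, φ Z], ∀ v ∈ U, M *ᵥ v ∈ U := by
        intro M hM
        refine adj_ind U ?_ hM
        intro i
        fin_cases i
        · exact hXst
        · exact hYst
        · exact hZst
      have hxU : ∀ v ∈ U, x • v ∈ U := by
        intro v hv
        rw [hsm]
        exact hadj _ hxm v hv
      have uE2 : E2 ∈ U := by
        have := sub_mem uv uu
        rwa [add_sub_cancel_left] at this
      have uzE1 : z • E1 ∈ U := by
        rw [hsm]
        exact hadj _ hzm _ uu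
      intro v _
      refine hdesc U hxU ?_ v
      intro v
      obtain ⟨c1, c2, c3, w, hw⟩ := hgen v
      refine ⟨c1 • E1 + c2 • E2 + c3 • (z • E1), add_mem (add_mem (U.smul_mem c1 uu)
        (U.smul_mem c2 uE2)) (U.smul_mem c3 uzE1), c1 • w1 + c2 • w2 + c3 • w3 + w, ?_⟩
      have hcs : ∀ (c : k) (v : Fin N → k), x • c • v = c • x • v := by
        intro c v
        rw [← halg, ← halg, smul_comm]
      rw [smul_add, smul_add, smul_add, hcs, hcs, hcs]
      conv_lhs => rw [hw, hw1, hw2, hw3]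
      rw [smul_add, smul_add, smul_add]
      abel
  have hcl1 : Cl ![φ X, φ Y, φ Z] := by
    have h := hcl fun i j => if i = j then 1 else 0
    have e : (fun i : Fin 3 => (if i = 0 then (1 : k) else 0) • φ X + (if i = 1 then (1 : k) else 0) •
        φ Y + (if i = 2 then (1 : k) else 0) • φ Z) = ![φ X, φ Y, φ Z] := by
      funext i
      fin_cases i <;> simp
    rwa [e] at h
  refine cl_of_adj (T' := ![φ x, φ y, φ z]) hT (cl_of_adj (T' := ![φ X, φ Y, φ Z]) ?_ hcl1)
  intro i
  fin_cases i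
  · exact hxm
  · exact hym
  · exact hzm

end Pool.Agent.Lib.D13.GenA
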