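import Pool.Agent.Lib.D13.Ab1S
import Pool.Agent.Lib.D13.GenA1

/-!
# MP_5dcbc3_ag: Jordan blocks of sizes `b + δ`, `b`, `1`: the generic members of family (A) are
limits of curvilinear triples
-/

namespace Pool.Agent.Lib.D13

open Matrix Polynomial Pool.Agent.Lib.Q5dc Pool.Agent.Lib.D7 Pool.Agent.Lib.D8

namespace PB

/-- inverses modulo powers of `X` -/
theorem h5_exists_inv {k : Type*} [Field k] {κ : k[X]} (hκ : κ.coeff 0 ≠ 0) (M : ℕ) :
    ∃ σ : k[X], X ^ M ∣ κ * σ - 1 := by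
  induction M with
  | zero => exact ⟨0, by rw [pow_zero]; exact one_dvd _⟩
  | succ M ih =>
    obtain ⟨σ, g, hg⟩ := ih
    refine ⟨σ - C (g.coeff 0 / κ.coeff 0) * X ^ M, ?_⟩
    have h1 : κ * (σ - C (g.coeff 0 / κ.coeff 0) * X ^ M) - 1 =
        X ^ M * (g - κ * C (g.coeff 0 / κ.coeff 0)) := by
      linear_combination hg
    rw [h1, pow_succ]
    refine mul_dvd_mul_left _ ?_
    rw [X_dvd_iff, coeff_sub, mul_coeff_zero, coeff_C_zero, mul_div_cancel₀ _ hκ, sub_self]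

theorem eq_C_add {k : Type*} [Field k] (g : k[X]) : ∃ g1 : k[X], g = C (g.coeff 0) + X * g1 := by
  have : X ∣ g - C (g.coeff 0) := by
    rw [X_dvd_iff, coeff_sub, coeff_C_zero, sub_self]
  obtain ⟨g1, h⟩ := this
  exact ⟨g1, by linear_combination h⟩

theorem coeff0_pow {k : Type*} [Field k] (g : k[X]) (i : ℕ) :
    (g ^ i).coeff 0 = g.coeff 0 ^ i := by
  rw [coeff_zero_eq_eval_zero, coeff_zero_eq_eval_zero, eval_pow]

theorem mx_apply {k : Type*} [Field k] {N b δ : ℕ} {A B : Matrix (Fin N) (Fin N) k}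
    {w : Fin 3 → Fin N → k} {c f q r : k[X]} {t u g h : k}
    (hB : Rep A w B (Mx b δ c f q r t u g h)) :
    B *ᵥ w 0 = aeval A c *ᵥ w 0 + aeval A r *ᵥ w 1 + t • w 2 ∧
    B *ᵥ w 1 = aeval A (X ^ δ * f) *ᵥ w 0 + aeval A q *ᵥ w 1 + u • w 2 ∧
    B *ᵥ w 2 = g • (A ^ (b + δ - 1) *ᵥ w 0) + h • (A ^ (b - 1) *ᵥ w 1) := by
  have hpi : ∀ z : Fin 3 → k[X], pi A w z =
      aeval A (z 0) *ᵥ w 0 + aeval A (z 1) *ᵥ w 1 + aeval A (z 2) *ᵥ w 2 := by
    intro z
    unfold pi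
    rw [Fin.sum_univ_three]
  have hCv : ∀ (c : k) (v : Fin N → k), aeval A (C c : k[X]) *ᵥ v = c • v := by
    intro c v
    rw [aeval_C, Algebra.algebraMap_eq_smul_one, Matrix.smul_mulVec, Matrix.one_mulVec]
  have hXC : ∀ (i : ℕ) (c : k) (v : Fin N → k), aeval A (X ^ i * C c : k[X]) *ᵥ v =
      c • (A ^ i *ᵥ v) := by
    intro i c v
    rw [mul_comm, map_mul, ← Matrix.mulVec_mulVec, hCv, map_pow, aeval_X]
  refine ⟨?_, ?_, ?_⟩
  · rw [hB.apply 0, hpi, ← hCv t]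
    rfl
  · rw [hB.apply 1, hpi, ← hCv u]
    rfl
  · rw [hB.apply 2, hpi, ← hXC, ← hXC]
    have h0 : aeval A (Mx b δ c f q r t u g h 2 2) *ᵥ w 2 = 0 := by
      show aeval A (0 : k[X]) *ᵥ w 2 = 0
      rw [map_zero, Matrix.zero_mulVec]
    rw [h0, add_zero]
    rfl

theorem genA {k : Type*} [Field k] [IsAlgClosed k] [CharZero k] {b δ : ℕ} (hb : 4 ≤ b) :
    GenAS k b δ := by
  intro N A B C' w κ ρ φ t u t' u' γ η hA hB hC hφκ hρκ hκ _ _ ht' hu' hγ hη _
  obtain ⟨n, rfl⟩ : ∃ n, b = n + 4 := ⟨b - 4, by omega⟩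
  obtain ⟨m, hm⟩ : ∃ m, n + 4 + δ = m + 4 := ⟨n + δ, by omega⟩
  have hN : N = (m + 4) + (n + 4) + 1 := by
    rw [hA.card, Fin.sum_univ_three]
    show n + 4 + δ + (n + 4) + 1 = _
    rw [hm]
  have eb2 : n + 4 - 2 = n + 2 := by omega
  have eb1 : n + 4 - 1 = n + 3 := by omega
  have ebd1 : n + 4 + δ - 1 = m + 3 := by omega
  have ebd2 : δ + (n + 2) = m + 2 := by omega
  rw [eb2] at hC
  -- the commutation
  have hcomm : B * C' = C' * B := by
    rw [comm_mx hA (by omega) (Dvd.intro _ rfl) (dvd_zero _) hB hC]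
    have hx0 : ((X : k[X]) ^ (n + 2)).coeff 0 = 0 := by
      rw [coeff_X_pow, if_neg (by omega)]
    have hfac : ∀ p q : k[X], p.coeff 0 = q.coeff 0 → X ^ (n + 4) ∣ X ^ (n + 3) * p - X ^ (n + 3) * q := by
      intro p q hpq
      rw [← mul_sub, show n + 4 = n + 3 + 1 from rfl, pow_succ]
      refine mul_dvd_mul_left _ ?_
      rw [X_dvd_iff, coeff_sub, hpq, sub_self]
    refine ⟨?_, ?_, ?_, ?_, ?_, ?_, ?_, ?_⟩
    · have e : (0 * (X ^ (n + 2) * ρ) - X ^ (n + 2) * φ * 0) +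
          X ^ (n + 4 - 1) * C (γ * t * t' - γ * t' * t) = (0 : k[X]) := by
        rw [show γ * t * t' - γ * t' * t = 0 by ring]
        simp
      rw [e]
      exact dvd_zero _
    · have e : (0 * 0 - X ^ (n + 2) * φ * (X * κ)) + X ^ (n + 4 - 1) * C (γ * t * u' - γ * t' * u) =
          X ^ (n + 3) * C (γ * t * u' - γ * t' * u) - X ^ (n + 3) * (φ * κ) := by
        rw [eb1]
        ring
      rw [e]
      refine hfac _ _ ?_
      rw [coeff_C_zero, mul_coeff_zero, hφκ]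
      ring
    · have e : (X * κ * (X ^ (n + 2) * ρ) - 0 * 0) + X ^ (n + 4 - 1) * C (η * u * t' - η * u' * t) =
          X ^ (n + 3) * (κ * ρ) - X ^ (n + 3) * C (η * t * u' - η * t' * u) := by
        rw [eb1, show η * u * t' - η * u' * t = -(η * t * u' - η * t' * u) by ring, C_neg]
        ring
      rw [e]
      refine hfac _ _ ?_
      rw [coeff_C_zero, mul_coeff_zero, mul_comm, hρκ]
      ring
    · have e : X ^ δ * (0 * (X ^ (n + 2) * φ) - X ^ (n + 2) * ρ * 0) +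
          X ^ (n + 4 - 1) * C (η * u * u' - η * u' * u) = (0 : k[X]) := by
        rw [show η * u * u' - η * u' * u = 0 by ring]
        simp
      rw [e]
      exact dvd_zero _
    · rw [mul_coeff_zero, hx0, zero_mul, mul_zero, coeff_zero, mul_zero]
    · rw [mul_coeff_zero, hx0, zero_mul, mul_zero, coeff_zero, mul_zero]
    · intro _
      rw [mul_coeff_zero, hx0, zero_mul, mul_zero, coeff_zero, mul_zero]
    · intro _
      rw [mul_coeff_zero, hx0, zero_mul, mul_zero, coeff_zero, mul_zero]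
  have hAB : A * B = B * A := comm_A hA hB
  have hAC : A * C' = C' * A := comm_A hA hC
  -- the commutative algebra
  obtain ⟨S, iS, iA, Φ, hΦ, s, hs⟩ := GenA.exists_comm_alg ![A, B, C'] (by
    intro i j
    fin_cases i <;> fin_cases j
    · rfl
    · exact hAB
    · exact hAC
    · exact hAB.symm
    · rfl
    · exact hcomm
    · exact hAC.symm
    · exact hcomm.symm
    · rfl)
  let _ : Module S (Fin N → k) := GenA.modS Φ
  have hsm : ∀ (s : S) (v : Fin N → k), s • v = Φ s *ᵥ v := fun _ _ => rfl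
  obtain ⟨a, ha⟩ : ∃ a : S, Φ a = A := ⟨s 0, hs 0⟩
  obtain ⟨y, hy⟩ : ∃ a : S, Φ a = B := ⟨s 1, hs 1⟩
  obtain ⟨z, hz⟩ : ∃ a : S, Φ a = C' := ⟨s 2, hs 2⟩
  have hpol : ∀ g : k[X], Φ (aeval a g) = aeval A g := by
    intro g
    rw [← ha, ← Polynomial.aeval_algHom_apply]
  have hpv : ∀ (g : k[X]) (v : Fin N → k), aeval a g • v = aeval A g *ᵥ v := by
    intro g v
    rw [hsm, hpol]
  have halg : ∀ (c : k) (v : Fin N → k), algebraMap k S c • v = c • v := by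
    intro c v
    rw [hsm, AlgHom.commutes, Algebra.algebraMap_eq_smul_one, Matrix.smul_mulVec,
      Matrix.one_mulVec]
  obtain ⟨ki, hki⟩ := h5_exists_inv hκ (n + 4 + δ)
  have hki0 : κ.coeff 0 * ki.coeff 0 = 1 := by
    have h1 := coeff_of_dvd (by omega) hki
    rw [coeff_sub, mul_coeff_zero, coeff_one_zero, sub_eq_zero] at h1
    exact h1
  have hann0 : A ^ (m + 4) *ᵥ w 0 = 0 := by rw [← hm]; exact hA.ann 0
  have hann1 : A ^ (n + 4) *ᵥ w 1 = 0 := hA.ann 1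
  have hann2 : A *ᵥ w 2 = 0 := by
    have h1 : A ^ 1 *ᵥ w 2 = 0 := hA.ann 2
    rwa [pow_one] at h1
  -- the inverse of `κ`
  have hKK : (aeval a κ : S) * aeval a ki = 1 := by
    apply hΦ
    rw [← map_mul, hpol, map_one]
    have h1 : Rep A w (aeval A (κ * ki)) 1 := by
      refine (Rep.aeval (κ * ki)).of_ker hA ?_
      have h2 : (κ * ki) • (1 : Matrix (Fin 3) (Fin 3) k[X]) - 1 = (κ * ki - 1) • 1 := by
        rw [sub_smul, one_smul]
      rw [h2]
      intro i j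
      rw [Matrix.smul_apply, smul_eq_mul]
      refine Dvd.dvd.mul_right ((pow_dvd_pow X ?_).trans hki) _
      fin_cases i
      · exact le_rfl
      · show n + 4 ≤ n + 4 + δ
        omega
      · show 1 ≤ n + 4 + δ
        omega
    exact Rep.eq hA h1 Rep.one
  obtain ⟨x, hx⟩ : ∃ x : S, x = a * aeval a κ := ⟨_, rfl⟩
  have hxk : x * aeval a ki = a := by
    rw [hx, mul_assoc, hKK, mul_one]
  -- the vectors
  obtain ⟨e1, he1⟩ : ∃ e : Fin N → k, e = t'⁻¹ • w 0 := ⟨_, rfl⟩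
  obtain ⟨e2, he2⟩ : ∃ e : Fin N → k, e = u'⁻¹ • w 1 := ⟨_, rfl⟩
  have hw0 : w 0 = t' • e1 := by rw [he1, smul_smul, mul_inv_cancel₀ ht', one_smul]
  have hw1 : w 1 = u' • e2 := by rw [he2, smul_smul, mul_inv_cancel₀ hu', one_smul]
  have hcs : ∀ (s : S) (c : k) (v : Fin N → k), s • c • v = c • s • v := by
    intro s c v
    rw [hsm, hsm, Matrix.mulVec_smul]
  have hpow : ∀ (i : ℕ) (v : Fin N → k), a ^ i • v = A ^ i *ᵥ v := by
    intro i v
    rw [hsm, map_pow, ha]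
  have hx1 : x ^ (m + 4) • e1 = 0 := by
    rw [hx, mul_pow, mul_comm, mul_smul, hpow, he1, Matrix.mulVec_smul, hann0, smul_zero, smul_zero]
  have hx2 : x ^ (n + 4) • e2 = 0 := by
    rw [hx, mul_pow, mul_comm, mul_smul, hpow, he2, Matrix.mulVec_smul, hann1, smul_zero, smul_zero]
  have ha2 : a • w 2 = 0 := by
    rw [hsm, ha]; exact hann2
  have hxp : x • w 2 = 0 := by
    rw [hx, mul_comm, mul_smul, ha2, smul_zero]
  -- polynomials on the last vectors
  have hexp : ∀ g : k[X], ∃ g1 : k[X], ∀ (i : ℕ) (e : Fin N → k),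
      (x ^ i * aeval a g) • e = g.coeff 0 • x ^ i • e + (x ^ (i + 1) * aeval a g1) • e := by
    intro g
    obtain ⟨g1, hg1⟩ := eq_C_add g
    refine ⟨ki * g1, fun i e => ?_⟩
    have h1 : (aeval a g : S) = algebraMap k S (g.coeff 0) + a * aeval a g1 := by
      conv_lhs => rw [hg1]
      rw [map_add, aeval_C, map_mul, aeval_X]
    have h2 : x ^ i * aeval a g = algebraMap k S (g.coeff 0) * x ^ i +
        x ^ (i + 1) * aeval a (ki * g1) := by
      rw [map_mul]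
      linear_combination x ^ i * h1 - (x ^ i * aeval a g1) * hxk
    rw [h2, add_smul, mul_smul, halg]
  have hlast : ∀ (i : ℕ) (e : Fin N → k), x ^ (i + 1) • e = 0 → ∀ g : k[X],
      (x ^ i * aeval a g) • e = g.coeff 0 • x ^ i • e := by
    intro i e he g
    obtain ⟨g1, hg1⟩ := hexp g
    rw [hg1, mul_comm (x ^ (i + 1)), mul_smul, he, smul_zero, add_zero]
  have hlast2 : ∀ (i : ℕ) (e : Fin N → k), x ^ (i + 2) • e = 0 → ∀ g : k[X],
      ∃ c : k, (x ^ i * aeval a g) • e = g.coeff 0 • x ^ i • e + c • x ^ (i + 1) • e := by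
    intro i e he g
    obtain ⟨g1, hg1⟩ := hexp g
    exact ⟨g1.coeff 0, by rw [hg1, hlast (i + 1) e he]⟩
  have hax : ∀ i : ℕ, a ^ i = x ^ i * aeval a (ki ^ i) := by
    intro i
    rw [map_pow, ← mul_pow, hxk]
  -- the coefficients
  obtain ⟨Rp, hRp⟩ : ∃ g : k[X], g = C (u' / t') * (ki ^ (n + 2) * ρ) := ⟨_, rfl⟩
  obtain ⟨Fp, hFp⟩ : ∃ g : k[X], g = C (t' / u') * (ki ^ (m + 2) * φ) := ⟨_, rfl⟩
  have hκi : ∀ i : ℕ, κ.coeff 0 ^ i ≠ 0 := fun i => pow_ne_zero i hκ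
  have hkv : ki.coeff 0 = (κ.coeff 0)⁻¹ := by
    exact eq_inv_of_mul_eq_one_right hki0
  have hRp0 : Rp.coeff 0 = (η * u' ^ 2 / κ.coeff 0 ^ (n + 3)) * (t / t' - u / u') := by
    rw [hRp, mul_coeff_zero, coeff_C_zero, mul_coeff_zero, coeff0_pow, hkv]
    have h1 : ρ.coeff 0 = η * (t * u' - t' * u) / κ.coeff 0 := by
      rw [eq_div_iff hκ]; exact hρκ
    rw [h1]
    have h2 := hκi (n + 2)
    rw [inv_pow, pow_succ (κ.coeff 0) (n + 2)]
    field_simp
  have hFp0 : Fp.coeff 0 = (γ * t' ^ 2 / κ.coeff 0 ^ (m + 3)) * (t / t' - u / u') := by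
    rw [hFp, mul_coeff_zero, coeff_C_zero, mul_coeff_zero, coeff0_pow, hkv]
    have h1 : φ.coeff 0 = γ * (t * u' - t' * u) / κ.coeff 0 := by
      rw [eq_div_iff hκ]; exact hφκ
    rw [h1]
    have h2 := hκi (m + 2)
    rw [inv_pow, pow_succ (κ.coeff 0) (m + 2)]
    field_simp
  -- the action
  have hs1 : A ^ (m + 3) *ᵥ w 0 = (t' / κ.coeff 0 ^ (m + 3)) • x ^ (m + 3) • e1 := by
    have h1 : x ^ (m + 3) • e1 = κ.coeff 0 ^ (m + 3) • a ^ (m + 3) • e1 := by
      have h3 : a ^ (m + 3) • e1 = (ki ^ (m + 3)).coeff 0 • x ^ (m + 3) • e1 := by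
        rw [hax, hlast _ _ hx1]
      rw [h3, coeff0_pow, smul_smul, ← mul_pow, hki0, one_pow, one_smul]
    have h4 := hκi (m + 3)
    rw [h1, ← hpow, hw0, hcs, smul_smul, div_mul_cancel₀ _ h4]
  have hs2 : A ^ (n + 3) *ᵥ w 1 = (u' / κ.coeff 0 ^ (n + 3)) • x ^ (n + 3) • e2 := by
    have h1 : x ^ (n + 3) • e2 = κ.coeff 0 ^ (n + 3) • a ^ (n + 3) • e2 := by
      have h3 : a ^ (n + 3) • e2 = (ki ^ (n + 3)).coeff 0 • x ^ (n + 3) • e2 := by
        rw [hax, hlast _ _ hx2]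
      rw [h3, coeff0_pow, smul_smul, ← mul_pow, hki0, one_pow, one_smul]
    have h4 := hκi (n + 3)
    rw [h1, ← hpow, hw1, hcs, smul_smul, div_mul_cancel₀ _ h4]
  obtain ⟨hB0', hB1', hB2'⟩ := mx_apply hB
  obtain ⟨hC0', hC1', hC2'⟩ := mx_apply hC
  rw [ebd1, eb1] at hB2' hC2'
  have hB0 : y • w 0 = t • w 2 := by
    rw [hsm, hy, hB0', map_zero, Matrix.zero_mulVec, Matrix.zero_mulVec, zero_add, zero_add]
  have hB1 : y • w 1 = x • w 1 + u • w 2 := by
    rw [hsm, hy, hB1', mul_zero, map_zero, Matrix.zero_mulVec, zero_add, hx, hsm, map_mul,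
      map_mul, ha, hpol, aeval_X]
  have hB2 : y • w 2 = (γ * t) • (A ^ (m + 3) *ᵥ w 0) + (η * u) • (A ^ (n + 3) *ᵥ w 1) := by
    rw [hsm, hy, hB2']
  have hC0 : z • w 0 = (x ^ (n + 2) * (aeval a (ki ^ (n + 2) * ρ))) • w 1 + t' • w 2 := by
    rw [hsm z, hz, hC0', map_zero, Matrix.zero_mulVec, zero_add, map_mul (aeval a), ← mul_assoc,
      ← hax, hsm, map_mul Φ, map_pow, ha, hpol, map_mul, map_pow, aeval_X]
  have hC1 : z • w 1 = (x ^ (m + 2) * (aeval a (ki ^ (m + 2) * φ))) • w 0 + u' • w 2 := by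
    rw [hsm z, hz, hC1', map_zero, Matrix.zero_mulVec, add_zero, map_mul (aeval a),
      ← mul_assoc (x ^ (m + 2)), ← hax,
      hsm, map_mul Φ, map_pow, ha, hpol, ← mul_assoc (X ^ δ), ← pow_add, ebd2, map_mul, map_pow,
      aeval_X]
  have hC2 : z • w 2 = (γ * t') • (A ^ (m + 3) *ᵥ w 0) + (η * u') • (A ^ (n + 3) *ᵥ w 1) := by
    rw [hsm, hz, hC2']
  obtain ⟨ρ1, hρ1⟩ := hlast2 (n + 2) e2 hx2 Rp
  obtain ⟨φ1, hφ1⟩ := hlast2 (m + 2) e1 hx1 Fp
  have hCm : ∀ (c : k) (g : k[X]) (s : S) (v : Fin N → k),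
      (s * aeval a (C c * g)) • v = c • (s * aeval a g) • v := by
    intro c g s v
    have h1 : s * aeval a (C c * g) = algebraMap k S c * (s * aeval a g) := by
      rw [map_mul, aeval_C]
      ring
    rw [h1, mul_smul, halg]
  have D : GenA.Dat m n x y z (aeval a Rp) (aeval a Fp) (algebraMap k S (t / t'))
      (algebraMap k S (u / u')) (algebraMap k S (γ * t' ^ 2 / κ.coeff 0 ^ (m + 3)))
      (algebraMap k S (η * u' ^ 2 / κ.coeff 0 ^ (n + 3))) (algebraMap k S ρ1)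
      (algebraMap k S φ1) (algebraMap k S (((X * κ) ^ m * (Rp * Fp)).coeff 0))
      (algebraMap k S (((X * κ) ^ n * (Rp * Fp)).coeff 0)) e1 e2 (w 2) := by
    have hxm : ∀ i : ℕ, x ^ i = aeval a ((X * κ) ^ i) := by
      intro i
      rw [map_pow, map_mul, aeval_X, hx]
    refine ⟨hx1, hx2, hxp, ?_, ?_, ?_, ?_, ?_, ?_, ?_, ?_, ?_, ?_⟩
    · rw [halg, he1, hcs, hB0, smul_smul]
      congr 1
      field_simp
    · rw [halg, he2, hcs, hB1, hcs, smul_add, smul_smul]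
      congr 2
      field_simp
    · rw [← map_mul, ← map_mul, halg, halg, hB2, hs1, hs2, smul_smul, smul_smul]
      congr 2
      · field_simp
      · field_simp
    · rw [hRp, hCm, he1, hcs, hC0, hw1, hcs, smul_add, smul_smul, smul_smul,
        inv_mul_cancel₀ ht', one_smul]
      congr 2
      field_simp
    · rw [hFp, hCm, he2, hcs, hC1, hw0, hcs, smul_add, smul_smul, smul_smul,
        inv_mul_cancel₀ hu', one_smul]
      congr 2
      field_simp
    · rw [halg, halg, hC2, hs1, hs2, smul_smul, smul_smul]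
      congr 2
      · field_simp
      · field_simp
    · rw [← map_sub, ← map_mul, halg, halg, hρ1, hRp0]
    · rw [← map_sub, ← map_mul, halg, halg, hφ1, hFp0]
    · rw [halg, ← hlast (n + 3) e2 hx2, map_mul (aeval a) ((X * κ) ^ m), ← hxm, map_mul]
      congr 1
      ring
    · rw [halg, ← hlast (m + 3) e1 hx1, map_mul (aeval a) ((X * κ) ^ n), ← hxm, map_mul]
      congr 1
      ring
  refine GenA.core hN Φ hΦ hsm D ?_ ?_ ?_ ?_ ![A, B, C'] ?_
  · -- generation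
    intro v
    obtain ⟨g, hg⟩ := hA.span v
    rw [pi, Fin.sum_univ_three] at hg
    have h1 : ∀ (g : k[X]) (v : Fin N → k), ∃ v', aeval A g *ᵥ v = g.coeff 0 • v + x • v' := by
      intro g v
      obtain ⟨g1, hg1⟩ := hexp g
      refine ⟨aeval a g1 • v, ?_⟩
      have h2 := hg1 0 v
      rw [pow_zero, one_mul, one_smul, zero_add, pow_one, hpv, mul_smul] at h2
      exact h2
    obtain ⟨v0, hv0⟩ := h1 (g 0) (w 0)
    obtain ⟨v1, hv1⟩ := h1 (g 1) (w 1)
    obtain ⟨v2, hv2⟩ := h1 (g 2) (w 2)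
    refine ⟨(g 0).coeff 0 * t', (g 1).coeff 0 * u', (g 2).coeff 0, v0 + v1 + v2, ?_⟩
    rw [hg, hv0, hv1, hv2, smul_add, smul_add, mul_smul, mul_smul, ← hw0, ← hw1]
    abel
  · -- nilpotency
    obtain ⟨e, he⟩ := nilp_A hA
    refine ⟨e, ?_⟩
    apply hΦ
    rw [hx, mul_pow, map_mul, map_pow, ha, he, zero_mul, map_zero]
  · exact div_ne_zero (mul_ne_zero hγ (pow_ne_zero _ ht')) (hκi _)
  · exact div_ne_zero (mul_ne_zero hη (pow_ne_zero _ hu')) (hκi _)
  · -- the matrices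
    have m0 : Φ x ∈ adj ![Φ x, Φ y, Φ z] := mem_adj ![Φ x, Φ y, Φ z] 0
    have m1 : Φ y ∈ adj ![Φ x, Φ y, Φ z] := mem_adj ![Φ x, Φ y, Φ z] 1
    have m2 : Φ z ∈ adj ![Φ x, Φ y, Φ z] := mem_adj ![Φ x, Φ y, Φ z] 2
    intro i
    fin_cases i
    · show A ∈ adj ![Φ x, Φ y, Φ z]
      obtain ⟨e, he⟩ := nilp_A hA
      have h1 := desc (M := Matrix (Fin N) (Fin N) k) (aeval A : k[X] →ₐ[k] _).toLinearMap e
        (by
          intro p
          show aeval A (X ^ e * p) = 0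
          rw [map_mul, map_pow, aeval_X, he, zero_mul])
        (adj ![Φ x, Φ y, Φ z]).toSubmodule 1
        (by
          intro i hi
          refine ⟨κ ^ i, by rw [coeff0_pow]; exact hκi i, ?_⟩
          show aeval A (X ^ i * κ ^ i) ∈ adj ![Φ x, Φ y, Φ z]
          have h2 : aeval A (X ^ i * κ ^ i) = Φ x ^ i := by
            rw [← mul_pow, map_pow, ← hpol, map_mul, aeval_X, ← hx]
          obtain ⟨j, rfl⟩ : ∃ j, i = j + 1 := ⟨i - 1, by omega⟩
          rw [h2]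
          exact GenA.pow_mem _ m0 j) 1 le_rfl 1
      have h3 : aeval A (X ^ 1 * 1 : k[X]) ∈ adj ![Φ x, Φ y, Φ z] := h1
      rwa [mul_one, pow_one, aeval_X] at h3
    · show B ∈ adj ![Φ x, Φ y, Φ z]
      rw [← hy]
      exact m1
    · show C' ∈ adj ![Φ x, Φ y, Φ z]
      rw [← hz]
      exact m2

end PB

end Pool.Agent.Lib.D13
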