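import Pool.Agent.Lib.D13.AlgR
import Pool.Agent.Lib.D8.TwoB

/-!
# MP_5dcbc3_ag: cyclic commuting triples of type `(a, b, 1)` which are limits of curvilinear ones

The generic member of the family (I) of the plan for the Jordan types `(a, b, 1)`: the algebra
`x z = 0`, `y^2 = x q(x) y + x^(e+2) f(x)`, `y z`, `z^2` in the socle, is a union of three axes.
-/

namespace Pool.Agent.Lib.D13

open Matrix Polynomial Pool.Agent.Lib.Q5dc Pool.Agent.Lib.D7

namespace CoreI

section ring

variable {R : Type*} [CommRing R]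

/-- elements which become three axes after a correction of higher order -/
structure Ax (P Q z : R) (m l : ℕ) (c c' a a' : R) : Prop where
  h1 : P * Q = -(c' * P ^ (m + 3)) - c * Q ^ (l + 3)
  h2 : P * z = -(a * P ^ (m + 3))
  h3 : Q * z = -(a' * Q ^ (l + 3))
  k1 : P ^ (m + 4) = 0
  k2 : Q ^ (l + 4) = 0
  k3 : P ^ (m + 3) * Q = 0
  k4 : P * Q ^ (l + 3) = 0
  k5 : P ^ (m + 3) * z = 0
  k6 : Q ^ (l + 3) * z = 0

variable {P Q z : R} {m l : ℕ} {c c' a a' : R}

namespace Ax

theorem PPQ (h : Ax P Q z m l c c' a a') : P * P * Q = 0 := by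
  have h1 := h.h1
  have h2 := h.k1
  have h3 := h.k4
  rw [pow_succ] at h2
  linear_combination P * h1 - c' * h2 - c * h3

theorem PQQ (h : Ax P Q z m l c c' a a') : P * Q * Q = 0 := by
  have h1 := h.h1
  have h2 := h.k2
  have h3 := h.k3
  rw [pow_succ] at h2
  linear_combination Q * h1 - c * h2 - c' * h3

theorem PPz (h : Ax P Q z m l c c' a a') : P * P * z = 0 := by
  have h1 := h.h2
  have h2 := h.k1
  rw [pow_succ] at h2
  linear_combination P * h1 - a * h2

theorem QQz (h : Ax P Q z m l c c' a a') : Q * Q * z = 0 := by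
  have h1 := h.h3
  have h2 := h.k2
  rw [pow_succ] at h2
  linear_combination Q * h1 - a' * h2

theorem PQpow (h : Ax P Q z m l c c' a a') : P * Q ^ (l + 2) = 0 := by
  have h1 := h.PQQ
  linear_combination Q ^ l * h1

theorem PpowQ (h : Ax P Q z m l c c' a a') : P ^ (m + 2) * Q = 0 := by
  have h1 := h.PPQ
  linear_combination P ^ m * h1

theorem Ppowz (h : Ax P Q z m l c c' a a') : P ^ (m + 2) * z = 0 := by
  have h1 := h.PPz
  linear_combination P ^ m * h1

theorem Qpowz (h : Ax P Q z m l c c' a a') : Q ^ (l + 2) * z = 0 := by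
  have h1 := h.QQz
  linear_combination Q ^ l * h1

theorem XY (h : Ax P Q z m l c c' a a') :
    (P + c * Q ^ (l + 2)) * (Q + c' * P ^ (m + 2)) = 0 := by
  have h1 := h.h1
  have h2 := h.PQpow
  linear_combination h1 + (c * c' * P ^ (m + 1)) * h2

theorem XZ (h : Ax P Q z m l c c' a a') :
    (P + c * Q ^ (l + 2)) * (z + a * P ^ (m + 2) + a' * Q ^ (l + 2)) = 0 := by
  have h1 := h.h2
  have h2 := h.PQpow
  have h3 := h.Qpowz
  have h4 := h.k2
  linear_combination h1 + (a' + c * a * P ^ (m + 1)) * h2 + c * h3 + c * a' * Q ^ l * h4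

theorem YZ (h : Ax P Q z m l c c' a a') :
    (Q + c' * P ^ (m + 2)) * (z + a * P ^ (m + 2) + a' * Q ^ (l + 2)) = 0 := by
  have h1 := h.h3
  have h2 := h.PpowQ
  have h3 := h.Ppowz
  have h4 := h.k1
  linear_combination h1 + (a + c' * a' * Q ^ (l + 1)) * h2 + c' * h3 + c' * a * P ^ m * h4

theorem Xpow (h : Ax P Q z m l c c' a a') (j : ℕ) :
    (P + c * Q ^ (l + 2)) ^ (j + 2) = P ^ (j + 2) := by
  induction j with
  | zero =>
    have h2 := h.PQpow
    have h4 := h.k2
    linear_combination (2 * c) * h2 + c ^ 2 * Q ^ l * h4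
  | succ j ih =>
    have h2 := h.PQpow
    rw [show j + 1 + 2 = (j + 2) + 1 from rfl, pow_succ, ih]
    linear_combination c * P ^ (j + 1) * h2

theorem Ypow (h : Ax P Q z m l c c' a a') (j : ℕ) :
    (Q + c' * P ^ (m + 2)) ^ (j + 2) = Q ^ (j + 2) := by
  induction j with
  | zero =>
    have h2 := h.PpowQ
    have h4 := h.k1
    linear_combination (2 * c') * h2 + c' ^ 2 * P ^ m * h4
  | succ j ih =>
    have h2 := h.PpowQ
    rw [show j + 1 + 2 = (j + 2) + 1 from rfl, pow_succ, ih]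
    linear_combination c' * Q ^ (j + 1) * h2

theorem Zsq (h : Ax P Q z m l c c' a a') :
    (z + a * P ^ (m + 2) + a' * Q ^ (l + 2)) ^ 2 = z ^ 2 := by
  have h1 := h.Ppowz
  have h2 := h.Qpowz
  have h3 := h.k1
  have h4 := h.k2
  have h5 := h.PQpow
  linear_combination (2 * a) * h1 + (2 * a') * h2 + a ^ 2 * P ^ m * h3 + a' ^ 2 * Q ^ l * h4 +
    2 * a * a' * P ^ (m + 1) * h5

end Ax

/-- the two branches `p`, `r` of the planar part -/
structure Br (x w p r z σ σ' : R) : Prop where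
  pr : p * r = 0
  rp : r = p - x * w
  pz : p * z = σ
  rz : r * z = σ
  zz : z * z = σ'
  sp : σ * p = 0
  sr : σ * r = 0
  sz : σ * z = 0
  tp : σ' * p = 0
  tr : σ' * r = 0
  tz : σ' * z = 0

variable {x w p r σ σ' : R}

namespace Br

theorem p_pow (h : Br x w p r z σ σ') (j : ℕ) : p ^ (j + 1) = (x * w) ^ j * p := by
  induction j with
  | zero => simp
  | succ j ih =>
    have h1 := h.pr
    have h2 := h.rp
    rw [pow_succ, ih]
    linear_combination (x * w) ^ j * (h1 - p * h2)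

theorem r_pow (h : Br x w p r z σ σ') (j : ℕ) : r ^ (j + 1) = (-(x * w)) ^ j * r := by
  induction j with
  | zero => simp
  | succ j ih =>
    have h1 := h.pr
    have h2 := h.rp
    rw [pow_succ, ih]
    linear_combination (-(x * w)) ^ j * (h1 + r * h2)

theorem P_pow (h : Br x w p r z σ σ') (μ : R) (j : ℕ) : (p - μ * z) ^ (j + 3) = p ^ (j + 3) := by
  have h1 : p * p * z = 0 := by
    have e1 := h.pz
    have e2 := h.sp
    linear_combination p * e1 + e2
  induction j with
  | zero =>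
    have e1 := h.zz
    have e2 := h.tz
    have e3 := h.tp
    linear_combination (-3 * μ) * h1 + (3 * μ ^ 2 * p - μ ^ 3 * z) * e1 + 3 * μ ^ 2 * e3 -
      μ ^ 3 * e2
  | succ j ih =>
    rw [show j + 1 + 3 = (j + 3) + 1 from rfl, pow_succ, ih]
    linear_combination (-μ * p ^ (j + 1)) * h1

theorem Q_pow (h : Br x w p r z σ σ') (μ : R) (j : ℕ) : (r - μ * z) ^ (j + 3) = r ^ (j + 3) := by
  have h1 : r * r * z = 0 := by
    have e1 := h.rz
    have e2 := h.sr
    linear_combination r * e1 + e2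
  induction j with
  | zero =>
    have e1 := h.zz
    have e2 := h.tz
    have e3 := h.tr
    linear_combination (-3 * μ) * h1 + (3 * μ ^ 2 * r - μ ^ 3 * z) * e1 + 3 * μ ^ 2 * e3 -
      μ ^ 3 * e2
  | succ j ih =>
    rw [show j + 1 + 3 = (j + 3) + 1 from rfl, pow_succ, ih]
    linear_combination (-μ * r ^ (j + 1)) * h1

end Br

theorem pow_mul_of_kill {w s w₀ : R} (h : w * s = w₀ * s) (j : ℕ) : w ^ j * s = w₀ ^ j * s := by
  induction j with
  | zero => rw [pow_zero, pow_zero]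
  | succ j ih => rw [pow_succ, pow_succ]; linear_combination w ^ j * h + w₀ * ih

/-- the two top powers -/
theorem top_powers {x y z T Ep w w₀ E ε d : R} {m e : ℕ}
    (hbr : Br x w (y - x ^ (e + 1) * Ep) (y - x * T) z σ σ')
    (hTs : T * x ^ (m + e + 3) = E * x ^ (m + e + 3))
    (hEs : Ep * x ^ (m + e + 3) = ε * x ^ (m + e + 3))
    (hw1 : w * x ^ (m + e + 3) = w₀ * x ^ (m + e + 3))
    (hw2 : w * (x ^ (m + 2) * y) = w₀ * (x ^ (m + 2) * y))
    (hd : x ^ (m + e + 2) * y = d * (x ^ (m + 2) * y)) (μ μ' : R) :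
    (y - x ^ (e + 1) * Ep - μ * z) ^ (m + 3) =
        w₀ ^ (m + 2) * (x ^ (m + 2) * y - ε * x ^ (m + e + 3)) ∧
      (y - x * T - μ' * z) ^ (m + e + 3) =
        (-w₀) ^ (m + e + 2) * (d * (x ^ (m + 2) * y) - E * x ^ (m + e + 3)) := by
  have e1 := pow_mul_of_kill hw1 (m + 2)
  have e2 := pow_mul_of_kill hw2 (m + 2)
  have e3 := pow_mul_of_kill hw1 (m + e + 2)
  have e4 := pow_mul_of_kill hw2 (m + e + 2)
  constructor
  · rw [hbr.P_pow, show m + 3 = (m + 2) + 1 from rfl, hbr.p_pow, mul_pow]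
    have h1 : x ^ (m + 2) * w ^ (m + 2) * (y - x ^ (e + 1) * Ep) =
        w ^ (m + 2) * (x ^ (m + 2) * y) - w ^ (m + 2) * (Ep * x ^ (m + e + 3)) := by
      have : x ^ (m + e + 3) = x ^ (m + 2) * x ^ (e + 1) := by rw [← pow_add]; congr 1; omega
      rw [this]
      ring
    rw [h1, hEs, e2]
    linear_combination (-ε) * e1
  · rw [hbr.Q_pow, show m + e + 3 = (m + e + 2) + 1 from rfl, hbr.r_pow]
    have h1 : (-(x * w)) ^ (m + e + 2) * (y - x * T) =
        (-1) ^ (m + e + 2) * (w ^ (m + e + 2) * (x ^ (m + e + 2) * y) -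
          w ^ (m + e + 2) * (T * x ^ (m + e + 2 + 1))) := by
      have : -(x * w) = (-1) * (x * w) := by ring
      rw [this, mul_pow, mul_pow]
      ring
    rw [h1, hTs, hd]
    have h2 : (-w₀) ^ (m + e + 2) = (-1) ^ (m + e + 2) * w₀ ^ (m + e + 2) := by
      rw [← mul_pow]; congr 1; ring
    rw [h2]
    linear_combination (-1) ^ (m + e + 2) * d * e4 - (-1) ^ (m + e + 2) * E * e3

end ring

section alg

variable {k R : Type*} [Field k] [CommRing R] [Algebra k R]

theorem solve {W V w₀ E ε d : k} (hW : W ≠ 0) (hV : V ≠ 0) (hw : w₀ = E - d * ε) (hw0 : w₀ ≠ 0)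
    (u₁ u₂ : k) : ∃ s t : k, -(s * W * ε) - t * V * E = u₁ ∧ s * W + t * V * d = u₂ ∧
      s * W * w₀ = E * u₂ + d * u₁ ∧ t * V * w₀ = -(u₁ + ε * u₂) := by
  refine ⟨(E * u₂ + d * u₁) / (W * w₀), -(u₁ + ε * u₂) / (V * w₀), ?_, ?_, ?_, ?_⟩
  · field_simp
    rw [hw]
    ring
  · field_simp
    rw [hw]
    ring
  · field_simp
  · field_simp

/-- the generic member of the family is a union of three axes -/
theorem ring_main {x y z T Ep Q F : R} {m e : ℕ} {g h g' h' E ε d : k}
    (R1 : x ^ (m + e + 4) = 0) (R2 : x ^ (m + 3) * y = 0) (R3 : x * z = 0)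
    (R4 : y * y = x * Q * y + x ^ (e + 2) * F)
    (R5 : y * z = algebraMap k R g * x ^ (m + e + 3) + algebraMap k R h * (x ^ (m + 2) * y))
    (R6 : z * z = algebraMap k R g' * x ^ (m + e + 3) + algebraMap k R h' * (x ^ (m + 2) * y))
    (hT : T * T - Q * T - x ^ e * F = 0) (hTE : T * Ep = -F) (hU : ∃ U, T * U = 1)
    (hTs : ∀ s, x * s = 0 → T * s = algebraMap k R E * s)
    (hEs : ∀ s, x * s = 0 → Ep * s = algebraMap k R ε * s)
    (hxe : ∀ s, x * s = 0 → x ^ e * s = algebraMap k R d * s)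
    (hd : x ^ (m + e + 2) * y = algebraMap k R d * (x ^ (m + 2) * y))
    (hw : E - d * ε ≠ 0) (h1 : g' + ε * h' ≠ 0) (h2 : d * g' + E * h' ≠ 0) :
    ∃ μ μ' c c' a a' A B : k, A ≠ 0 ∧ B ≠ 0 ∧
      Ax (y - x ^ (e + 1) * Ep - algebraMap k R μ * z) (y - x * T - algebraMap k R μ' * z) z m
        (m + e) (algebraMap k R c) (algebraMap k R c') (algebraMap k R a) (algebraMap k R a') ∧
      z * z = algebraMap k R A * (y - x ^ (e + 1) * Ep - algebraMap k R μ * z) ^ (m + 3) +
        algebraMap k R B * (y - x * T - algebraMap k R μ' * z) ^ (m + e + 3) := by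
  have xs1 : x * x ^ (m + e + 3) = 0 := by rw [← pow_succ']; exact R1
  have xs2 : x * (x ^ (m + 2) * y) = 0 := by linear_combination R2
  have ys1 : y * x ^ (m + e + 3) = 0 := by
    have : x ^ (m + e + 3) = x ^ (m + 3) * x ^ e := by rw [← pow_add]; congr 1; omega
    rw [this]
    linear_combination x ^ e * R2
  have ys2 : y * (x ^ (m + 2) * y) = 0 := by
    have e1 : x ^ (m + 2) * x ^ (e + 2) = x ^ (m + e + 4) := by rw [← pow_add]; congr 1; omega
    linear_combination x ^ (m + 2) * R4 + Q * R2 + F * e1 + F * R1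
  have zs1 : z * x ^ (m + e + 3) = 0 := by linear_combination x ^ (m + e + 2) * R3
  have zs2 : z * (x ^ (m + 2) * y) = 0 := by linear_combination x ^ (m + 1) * y * R3
  obtain ⟨U, hU⟩ := hU
  have hQ : Q = T + x ^ e * Ep := by
    have : T * (T - Q + x ^ e * Ep) = 0 := by linear_combination hT + x ^ e * hTE
    linear_combination (-U) * this + (T - Q + x ^ e * Ep) * hU
  set s₁ := x ^ (m + e + 3) with hs₁
  set s₂ := x ^ (m + 2) * y with hs₂
  set w := T - x ^ e * Ep with hwdef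
  have hbr : Br x w (y - x ^ (e + 1) * Ep) (y - x * T) z (y * z) (z * z) := by
    have e5 : y * y * z = 0 := by linear_combination z * R4 + (Q * y + x ^ (e + 1) * F) * R3
    have e6 : y * z * z = 0 := by
      linear_combination y * R6 + algebraMap k R g' * ys1 + algebraMap k R h' * ys2
    have e7 : z * z * z = 0 := by
      linear_combination z * R6 + algebraMap k R g' * zs1 + algebraMap k R h' * zs2
    refine ⟨?_, ?_, ?_, ?_, rfl, ?_, ?_, ?_, ?_, ?_, ?_⟩
    · linear_combination R4 + x ^ (e + 2) * hTE + x * y * hQ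
    · rw [hwdef]; ring
    · linear_combination (-(x ^ e * Ep)) * R3
    · linear_combination (-T) * R3
    · linear_combination e5 - x ^ e * Ep * y * R3
    · linear_combination e5 - T * y * R3
    · linear_combination e6
    · linear_combination e6 - x ^ e * Ep * z * R3
    · linear_combination e6 - T * z * R3
    · linear_combination e7
  have hws : ∀ s, x * s = 0 → w * s = algebraMap k R (E - d * ε) * s := by
    intro s hs
    have e1 := hTs s hs
    have e2 := hEs s hs
    have e3 := hxe s hs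
    rw [map_sub, map_mul]
    rw [hwdef]
    linear_combination e1 - x ^ e * e2 - algebraMap k R ε * e3
  -- constants
  set W : k := (E - d * ε) ^ (m + 2) with hW
  set V : k := (-(E - d * ε)) ^ (m + e + 2) with hV
  have hW0 : W ≠ 0 := pow_ne_zero _ hw
  have hV0 : V ≠ 0 := pow_ne_zero _ (neg_ne_zero.2 hw)
  set μ : k := (g + ε * h) / (g' + ε * h') with hμ
  set μ' : k := (d * g + E * h) / (d * g' + E * h') with hμ'
  obtain ⟨PX, QY⟩ := top_powers (m := m) hbr (hTs s₁ xs1) (hEs s₁ xs1) (hws s₁ xs1) (hws s₂ xs2) hd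
    (algebraMap k R μ) (algebraMap k R μ')
  rw [← map_pow, ← hW] at PX
  rw [← map_neg, ← map_pow, ← hV] at QY
  obtain ⟨c1, c2, c3, c4, c5, c6⟩ := solve hW0 hV0 rfl hw (-(μ + μ') * g + μ * μ' * g')
    (-(μ + μ') * h + μ * μ' * h')
  obtain ⟨a1, a2, a3, a4, a5, a6⟩ := solve hW0 hV0 rfl hw (g - μ * g') (h - μ * h')
  obtain ⟨b1, b2, b3, b4, b5, b6⟩ := solve hW0 hV0 rfl hw (g - μ' * g') (h - μ' * h')
  obtain ⟨z1, z2, z3, z4, z5, z6⟩ := solve hW0 hV0 rfl hw g' h'
  have ha2 : a2 = 0 := by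
    have : a2 * V * (E - d * ε) = 0 := by
      rw [a6, hμ]
      field_simp
      ring
    exact (mul_eq_zero.1 ((mul_eq_zero.1 this).resolve_right hw)).resolve_right hV0
  have hb1 : b1 = 0 := by
    have : b1 * W * (E - d * ε) = 0 := by
      rw [b5, hμ']
      field_simp
      ring
    exact (mul_eq_zero.1 ((mul_eq_zero.1 this).resolve_right hw)).resolve_right hW0
  have hz1 : z1 ≠ 0 := by
    rintro rfl
    apply h2
    rw [zero_mul, zero_mul] at z5
    linear_combination -z5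
  have hz2 : z2 ≠ 0 := by
    rintro rfl
    apply h1
    rw [zero_mul, zero_mul] at z6
    linear_combination z6
  have key : ∀ {s t u₁ u₂ : k}, -(s * W * ε) - t * V * E = u₁ → s * W + t * V * d = u₂ →
      algebraMap k R u₁ * s₁ + algebraMap k R u₂ * s₂ =
        algebraMap k R s * (y - x ^ (e + 1) * Ep - algebraMap k R μ * z) ^ (m + 3) +
        algebraMap k R t * (y - x * T - algebraMap k R μ' * z) ^ (m + e + 3) := by
    intro s t u₁ u₂ e1 e2
    rw [PX, QY, ← e1, ← e2]
    simp only [map_add, map_sub, map_mul, map_neg]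
    ring
  have kP : ∀ s, x * s = 0 → y * s = 0 → z * s = 0 →
      (y - x ^ (e + 1) * Ep - algebraMap k R μ * z) * s = 0 := by
    intro s hx hy hz
    linear_combination hy - x ^ e * Ep * hx - algebraMap k R μ * hz
  have kQ : ∀ s, x * s = 0 → y * s = 0 → z * s = 0 →
      (y - x * T - algebraMap k R μ' * z) * s = 0 := by
    intro s hx hy hz
    linear_combination hy - T * hx - algebraMap k R μ' * hz
  have kc := key c3 c4
  have ka := key a3 a4
  have kb := key b3 b4
  have kz := key z3 z4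
  rw [ha2, map_zero, zero_mul, add_zero] at ka
  rw [hb1, map_zero, zero_mul, zero_add] at kb
  simp only [map_add, map_sub, map_mul, map_neg] at kc ka kb kz
  refine ⟨μ, μ', -c2, -c1, -a1, -b2, z1, z2, hz1, hz2, ⟨?_, ?_, ?_, ?_, ?_, ?_, ?_, ?_, ?_⟩, ?_⟩
  · have e1 := hbr.pr
    have e2 := hbr.pz
    have e3 := hbr.rz
    rw [map_neg, map_neg]
    linear_combination e1 - algebraMap k R μ' * e2 - algebraMap k R μ * e3 + kc +
      (-(algebraMap k R μ + algebraMap k R μ')) * R5 + algebraMap k R μ * algebraMap k R μ' * R6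
  · have e2 := hbr.pz
    rw [map_neg]
    linear_combination e2 + R5 - algebraMap k R μ * R6 + ka
  · have e3 := hbr.rz
    rw [map_neg]
    linear_combination e3 + R5 - algebraMap k R μ' * R6 + kb
  · rw [show m + 4 = (m + 3) + 1 from rfl, pow_succ', PX]
    linear_combination (algebraMap k R W) * (kP _ xs2 ys2 zs2 -
      algebraMap k R ε * kP _ xs1 ys1 zs1)
  · rw [show m + e + 4 = (m + e + 3) + 1 from rfl, pow_succ', QY]
    linear_combination (algebraMap k R V) * (algebraMap k R d * kQ _ xs2 ys2 zs2 -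
      algebraMap k R E * kQ _ xs1 ys1 zs1)
  · rw [PX]
    linear_combination (algebraMap k R W) * (kQ _ xs2 ys2 zs2 -
      algebraMap k R ε * kQ _ xs1 ys1 zs1)
  · rw [QY]
    linear_combination (algebraMap k R V) * (algebraMap k R d * kP _ xs2 ys2 zs2 -
      algebraMap k R E * kP _ xs1 ys1 zs1)
  · rw [PX]
    linear_combination (algebraMap k R W) * (zs2 - algebraMap k R ε * zs1)
  · rw [QY]
    linear_combination (algebraMap k R V) * (algebraMap k R d * zs2 - algebraMap k R E * zs1)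
  · linear_combination R6 + kz

end alg

section mat

universe u w

variable {k : Type u} [Field k] {n : Type w} [Fintype n] [DecidableEq n]

/-- the spanning condition for three axes -/
theorem span_axes {X Y Z : Matrix n n k} {v : n → k} (hXY : X * Y = 0) (hYX : Y * X = 0)
    (hXZ : X * Z = 0) (hZX : Z * X = 0) (hYZ : Y * Z = 0) (hZY : Z * Y = 0)
    (h : ∀ u : n → k, ∃ (c : k) (M : Matrix n n k), M ∈ adj ![X, Y, Z] ∧ u = c • v + M *ᵥ v) :
    ⊤ ≤ Submodule.span k ({v} ∪ {x | ∃ i, x = X ^ (i + 1) *ᵥ v} ∪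
      {x | ∃ i, x = Y ^ (i + 1) *ᵥ v} ∪ {x | ∃ i, x = Z ^ (i + 1) *ᵥ v}) := by
  rintro u -
  obtain ⟨c, M, hM, rfl⟩ := h u
  refine add_mem (Submodule.smul_mem _ _ (Submodule.subset_span (Or.inl (Or.inl (Or.inl rfl))))) ?_
  have h1 := adj_span hXY hYX hXZ hZX hYZ hZY hM
  clear hM h
  induction h1 using Submodule.span_induction with
  | zero => rw [Matrix.zero_mulVec]; exact zero_mem _
  | add a b _ _ ha hb => rw [Matrix.add_mulVec]; exact add_mem ha hb
  | smul c a _ ha => rw [Matrix.smul_mulVec]; exact Submodule.smul_mem _ _ ha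
  | mem a ha =>
    rcases ha with (⟨i, rfl⟩ | ⟨i, rfl⟩) | ⟨i, rfl⟩
    · exact Submodule.subset_span (Or.inl (Or.inl (Or.inr ⟨i, rfl⟩)))
    · exact Submodule.subset_span (Or.inl (Or.inr ⟨i, rfl⟩))
    · exact Submodule.subset_span (Or.inr ⟨i, rfl⟩)

theorem aeval_kill {R : Type*} [CommRing R] [Algebra k R] {x s : R} (hs : x * s = 0) (P : k[X]) :
    aeval x P * s = algebraMap k R (P.coeff 0) * s := by
  conv_lhs => rw [← Polynomial.divX_mul_X_add P]
  rw [map_add, map_mul, aeval_X, aeval_C]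
  linear_combination aeval x P.divX * hs

/-- the generic members of family (I) are limits of curvilinear triples -/
theorem coreI [IsAlgClosed k] {A B C' : Matrix n n k} {v : n → k} {m e : ℕ}
    (hn : Fintype.card n = 2 * m + e + 8)
    (hAB : A * B = B * A) (hAC : A * C' = C' * A) (hBC : B * C' = C' * B)
    (hA : A ^ (m + e + 4) *ᵥ v = 0) (hAB0 : A ^ (m + 3) *ᵥ (B *ᵥ v) = 0)
    (hAC0 : A *ᵥ (C' *ᵥ v) = 0) {q f : k[X]} {g h g' h' : k}
    (hBB : B *ᵥ (B *ᵥ v) = aeval A (X * q) *ᵥ (B *ᵥ v) + aeval A (X ^ (e + 2) * f) *ᵥ v)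
    (hBCv : B *ᵥ (C' *ᵥ v) = g • (A ^ (m + e + 3) *ᵥ v) + h • (A ^ (m + 2) *ᵥ (B *ᵥ v)))
    (hCC : C' *ᵥ (C' *ᵥ v) = g' • (A ^ (m + e + 3) *ᵥ v) + h' • (A ^ (m + 2) *ᵥ (B *ᵥ v)))
    (hsp : ∀ u : n → k, ∃ (p r : k[X]) (c : k),
      u = aeval A p *ᵥ v + aeval A r *ᵥ (B *ᵥ v) + c • (C' *ᵥ v))
    {E d : k} (hd : d = if e = 0 then 1 else 0)
    (hE : E ^ 2 - q.coeff 0 * E - d * f.coeff 0 = 0) (hE0 : E ≠ 0)
    (hE2 : 2 * E - q.coeff 0 ≠ 0) (h1 : E * g' - f.coeff 0 * h' ≠ 0)
    (h2 : d * g' + E * h' ≠ 0) : Cl ![A, B, C'] := by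
  obtain ⟨R, _, _, ψ, x, y, z, hinj, hx, hy, hz, hR⟩ := exists_alg hAB hAC hBC
  have hψ : ∀ P : k[X], ψ (aeval x P) = aeval A P := by
    intro P
    rw [← hx, Polynomial.aeval_algHom_apply]
  have hal : ∀ c : k, ψ (algebraMap k R c) = c • (1 : Matrix n n k) := by
    intro c
    rw [AlgHom.commutes, Algebra.algebraMap_eq_smul_one]
  -- the vector is cyclic
  have hsurj : ∀ u : n → k, ∃ r : R, u = ψ r *ᵥ v := by
    intro u
    obtain ⟨p, r, c, rfl⟩ := hsp u
    refine ⟨aeval x p + aeval x r * y + algebraMap k R c * z, ?_⟩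
    rw [map_add, map_add, map_mul, map_mul, hψ, hψ, hal, hy, hz, Matrix.add_mulVec,
      Matrix.add_mulVec, ← Matrix.mulVec_mulVec, ← Matrix.mulVec_mulVec, Matrix.smul_mulVec,
      Matrix.one_mulVec]
  have hff : ∀ r : R, ψ r *ᵥ v = 0 → r = 0 := by
    intro r hr
    apply hinj
    rw [map_zero]
    apply Matrix.toLin'.injective
    rw [map_zero]
    refine LinearMap.ext fun u => ?_
    obtain ⟨r', rfl⟩ := hsurj u
    rw [Matrix.toLin'_apply, LinearMap.zero_apply, Matrix.mulVec_mulVec, ← map_mul, mul_comm,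
      map_mul, ← Matrix.mulVec_mulVec, hr, Matrix.mulVec_zero]
  have heq : ∀ r r' : R, ψ r *ᵥ v = ψ r' *ᵥ v → r = r' := by
    intro r r' h
    rw [← sub_eq_zero]
    apply hff
    rw [map_sub, Matrix.sub_mulVec, h, sub_self]
  have R1 : x ^ (m + e + 4) = 0 := hff _ (by rw [map_pow, hx]; exact hA)
  have R2 : x ^ (m + 3) * y = 0 := hff _ (by
    rw [map_mul, map_pow, hx, hy, ← Matrix.mulVec_mulVec]; exact hAB0)
  have R3 : x * z = 0 := hff _ (by rw [map_mul, hx, hz, ← Matrix.mulVec_mulVec]; exact hAC0)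
  have R4 : y * y = x * aeval x q * y + x ^ (e + 2) * aeval x f := heq _ _ (by
    have e1 : x * aeval x q = aeval x (X * q) := by rw [map_mul, aeval_X]
    have e2 : x ^ (e + 2) * aeval x f = aeval x (X ^ (e + 2) * f) := by
      rw [map_mul, map_pow, aeval_X]
    rw [e1, e2, map_mul, map_add, map_mul, hψ, hψ, hy, Matrix.add_mulVec, ← Matrix.mulVec_mulVec,
      ← Matrix.mulVec_mulVec]
    exact hBB)
  have R5 : y * z = algebraMap k R g * x ^ (m + e + 3) + algebraMap k R h * (x ^ (m + 2) * y) :=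
    heq _ _ (by
      rw [map_mul, map_add, map_mul, map_mul, map_mul, map_pow, map_pow, hal, hal, hx, hy, hz,
        Matrix.add_mulVec, smul_mul_assoc, smul_mul_assoc, one_mul, one_mul, Matrix.smul_mulVec,
        Matrix.smul_mulVec, ← Matrix.mulVec_mulVec, ← Matrix.mulVec_mulVec]
      exact hBCv)
  have R6 : z * z = algebraMap k R g' * x ^ (m + e + 3) + algebraMap k R h' * (x ^ (m + 2) * y) :=
    heq _ _ (by
      rw [map_mul, map_add, map_mul, map_mul, map_mul, map_pow, map_pow, hal, hal, hx, hy, hz,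
        Matrix.add_mulVec, smul_mul_assoc, smul_mul_assoc, one_mul, one_mul, Matrix.smul_mulVec,
        Matrix.smul_mulVec, ← Matrix.mulVec_mulVec, ← Matrix.mulVec_mulVec]
      exact hCC)
  -- Hensel
  have hXe : ((X : k[X]) ^ e).coeff 0 = d := by
    rw [hd, coeff_X_pow]
    by_cases he : e = 0
    · rw [if_pos he, if_pos he.symm]
    · rw [if_neg he, if_neg (Ne.symm he)]
  obtain ⟨T₁, hT0, hT1⟩ := D8.hensel 1 (-q) (-(X ^ e * f)) E (by
      rw [coeff_one_zero, coeff_neg, coeff_neg, mul_coeff_zero, hXe]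
      linear_combination hE) (by
      rw [coeff_one_zero, coeff_neg]
      intro h0
      apply hE2
      linear_combination h0) (m + e + 4)
  obtain ⟨E₁, hE0', hE1⟩ := D8.hensel 0 T₁ f (-(f.coeff 0) / E) (by
      rw [coeff_zero, hT0]
      field_simp
      ring) (by
      rw [coeff_zero, hT0]
      simpa using hE0) (m + e + 4)
  obtain ⟨U₁, _, hU1⟩ := D8.hensel 0 T₁ (-1) (1 / E) (by
      rw [coeff_zero, hT0, coeff_neg, coeff_one_zero]
      field_simp
      ring) (by
      rw [coeff_zero, hT0]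
      simpa using hE0) (m + e + 4)
  have hdvd : ∀ P : k[X], X ^ (m + e + 4) ∣ P → aeval x P = 0 := by
    rintro _ ⟨P, rfl⟩
    rw [map_mul, map_pow, aeval_X, R1, zero_mul]
  have hT := hdvd _ hT1
  have hTE := hdvd _ hE1
  have hTU := hdvd _ hU1
  simp only [map_add, map_mul, map_neg, map_one, map_pow, aeval_X, one_mul, zero_mul,
    zero_add] at hT hTE hTU
  have hxe : ∀ s, x * s = 0 → x ^ e * s = algebraMap k R d * s := by
    intro s hs
    have := aeval_kill hs ((X : k[X]) ^ e)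
    rwa [map_pow, aeval_X, hXe] at this
  have hdd : x ^ (m + e + 2) * y = algebraMap k R d * (x ^ (m + 2) * y) := by
    have := hxe (x ^ (m + 2) * y) (by linear_combination R2)
    rw [← this, ← mul_assoc, ← pow_add]
    congr 2
    omega
  have hwE : E * (E - d * (-(f.coeff 0) / E)) = E * (2 * E - q.coeff 0) := by
    field_simp
    linear_combination -hE
  have hw0 : E - d * (-(f.coeff 0) / E) ≠ 0 := by
    intro h0
    rw [h0, mul_zero] at hwE
    exact hE2 ((mul_eq_zero.1 hwE.symm).resolve_left hE0)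
  obtain ⟨μ, μ', c, c', a, a', α, β, hα, hβ, hax, hzz⟩ := ring_main (T := aeval x T₁)
    (Ep := aeval x E₁) (Q := aeval x q) (F := aeval x f) (E := E) (ε := -(f.coeff 0) / E) (d := d)
    R1 R2 R3 R4 R5 R6 (by linear_combination hT) (by linear_combination hTE)
    ⟨aeval x U₁, by linear_combination hTU⟩
    (fun s hs => by rw [aeval_kill hs, hT0]) (fun s hs => by rw [aeval_kill hs, hE0']) hxe hdd hw0
    (by
      intro h0
      apply h1
      have : E * (g' + -(f.coeff 0) / E * h') = E * g' - f.coeff 0 * h' := by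
        field_simp
        ring
      rw [← this, h0, mul_zero]) h2
  set w₀ : k := E - d * (-(f.coeff 0) / E) with hw₀
  set P : R := y - x ^ (e + 1) * aeval x E₁ - algebraMap k R μ * z with hP
  set Q : R := y - x * aeval x T₁ - algebraMap k R μ' * z with hQ
  set X' : R := P + algebraMap k R c * Q ^ (m + e + 2) with hX'
  set Y' : R := Q + algebraMap k R c' * P ^ (m + 2) with hY'
  set Z' : R := z + algebraMap k R a * P ^ (m + 2) + algebraMap k R a' * Q ^ (m + e + 2) with hZ'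
  have hXY : X' * Y' = 0 := hax.XY
  have hXZ : X' * Z' = 0 := hax.XZ
  have hYZ : Y' * Z' = 0 := hax.YZ
  have hXp : X' ^ (m + 3) = P ^ (m + 3) := hax.Xpow (m + 1)
  have hYp : Y' ^ (m + e + 3) = Q ^ (m + e + 3) := hax.Ypow (m + e + 1)
  have hZp : Z' ^ 2 = z ^ 2 := hax.Zsq
  -- the ideal of the elements without constant term
  let I : R → Prop := fun r => ψ r ∈ adj ![A, B, C']
  have hIx : I x := by
    show ψ x ∈ _
    rw [hx]
    exact mem_adj ![A, B, C'] 0
  have hIy : I y := by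
    show ψ y ∈ _
    rw [hy]
    exact mem_adj ![A, B, C'] 1
  have hIz : I z := by
    show ψ z ∈ _
    rw [hz]
    exact mem_adj ![A, B, C'] 2
  have hIadd : ∀ r s, I r → I s → I (r + s) := by
    intro r s hr hs
    show ψ (r + s) ∈ _
    rw [map_add]
    exact add_mem hr hs
  have hImul : ∀ r s, I s → I (r * s) := by
    intro r s hs
    obtain ⟨c, hc⟩ := hR r
    have h3 : r * s = (r - algebraMap k R c) * s + algebraMap k R c * s := by ring
    show ψ (r * s) ∈ _
    rw [h3, map_add, map_mul, map_mul, hal, smul_mul_assoc, one_mul]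
    exact add_mem (mul_mem hc hs) (SMulMemClass.smul_mem _ hs)
  have hIneg : ∀ s, I s → I (-s) := by
    intro s hs
    rw [← neg_one_mul]
    exact hImul _ _ hs
  have hIsub : ∀ r s, I r → I s → I (r - s) := by
    intro r s hr hs
    rw [sub_eq_add_neg]
    exact hIadd _ _ hr (hIneg _ hs)
  have hIP : I P := by
    have h3 : P = y - (x ^ e * aeval x E₁) * x - algebraMap k R μ * z := by rw [hP]; ring
    rw [h3]
    exact hIsub _ _ (hIsub _ _ hIy (hImul _ _ hIx)) (hImul _ _ hIz)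
  have hIQ : I Q := by
    have h3 : Q = y - aeval x T₁ * x - algebraMap k R μ' * z := by rw [hQ]; ring
    rw [h3]
    exact hIsub _ _ (hIsub _ _ hIy (hImul _ _ hIx)) (hImul _ _ hIz)
  have hIpow : ∀ r (j : ℕ), I r → I (r ^ (j + 1)) := by
    intro r j hr
    rw [pow_succ]
    exact hImul _ _ hr
  have hIX : I X' := hIadd _ _ hIP (hImul _ _ (hIpow _ _ hIQ))
  have hIY : I Y' := hIadd _ _ hIQ (hImul _ _ (hIpow _ _ hIP))
  have hIZ : I Z' := hIadd _ _ (hIadd _ _ hIz (hImul _ _ (hIpow _ _ hIP)))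
    (hImul _ _ (hIpow _ _ hIQ))
  -- nilpotency
  have hnx : IsNilpotent A := ⟨m + e + 4, by rw [← hx, ← map_pow, R1, map_zero]⟩
  have hny : IsNilpotent B := by
    refine ⟨2 * (m + e + 4), ?_⟩
    have h3 : y * y = x * (aeval x q * y + x ^ (e + 1) * aeval x f) := by linear_combination R4
    rw [← hy, ← map_pow, pow_mul, pow_two, h3, mul_pow, R1, zero_mul, map_zero]
  have hnz : IsNilpotent C' := by
    refine ⟨2 * (m + e + 4), ?_⟩
    have h3 : z * z = x * (algebraMap k R g' * x ^ (m + e + 2) +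
        algebraMap k R h' * (x ^ (m + 1) * y)) := by linear_combination R6
    rw [← hz, ← map_pow, pow_mul, pow_two, h3, mul_pow, R1, zero_mul, map_zero]
  have hT : CN ![A, B, C'] := by
    refine ⟨fun i j => ?_, fun i => ?_⟩
    · fin_cases i <;> fin_cases j <;> first | rfl | assumption | (symm; assumption)
    · fin_cases i <;> assumption
  -- products of two elements
  let J : R → Prop := fun r => ψ r ∈ Submodule.span k {M : Matrix n n k |
    ∃ P ∈ adj ![A, B, C'], ∃ Q ∈ adj ![A, B, C'], M = P * Q}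
  have hJmul : ∀ r s, I r → I s → J (r * s) := by
    intro r s hr hs
    refine Submodule.subset_span ⟨ψ r, hr, ψ s, hs, ?_⟩
    rw [map_mul]
  have hJadd : ∀ r s, J r → J s → J (r + s) := by
    intro r s hr hs
    show ψ (r + s) ∈ _
    rw [map_add]
    exact add_mem hr hs
  have hJsm : ∀ (c : k) s, J s → J (algebraMap k R c * s) := by
    intro c s hs
    show ψ (algebraMap k R c * s) ∈ _
    rw [map_mul, hal, smul_mul_assoc, one_mul]
    exact Submodule.smul_mem _ _ hs
  have hJP : J (P ^ (m + 2)) := by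
    rw [pow_succ]
    exact hJmul _ _ (hIpow _ _ hIP) hIP
  have hJQ : J (Q ^ (m + e + 2)) := by
    rw [pow_succ]
    exact hJmul _ _ (hIpow _ _ hIQ) hIQ
  have hJz : J (z - Z') := by
    have h3 : z - Z' = algebraMap k R (-a) * P ^ (m + 2) +
        algebraMap k R (-a') * Q ^ (m + e + 2) := by
      rw [hZ', map_neg, map_neg]
      ring
    rw [h3]
    exact hJadd _ _ (hJsm _ _ hJP) (hJsm _ _ hJQ)
  -- the unit `w`
  have hIw : I (algebraMap k R w₀ - (aeval x T₁ - x ^ e * aeval x E₁)) := by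
    have h3 : aeval x T₁ - x ^ e * aeval x E₁ = aeval x (T₁ - X ^ e * E₁) := by
      rw [map_sub, map_mul, map_pow, aeval_X]
    have h4 : (T₁ - X ^ e * E₁).coeff 0 = w₀ := by
      rw [coeff_sub, mul_coeff_zero, hXe, hT0, hE0', hw₀]
    have h5 : aeval x (T₁ - X ^ e * E₁) = aeval x (T₁ - X ^ e * E₁).divX * x +
        algebraMap k R w₀ := by
      conv_lhs => rw [← Polynomial.divX_mul_X_add (T₁ - X ^ e * E₁)]
      rw [map_add, map_mul, aeval_X, aeval_C, h4]
    rw [h3, h5]
    have h6 : algebraMap k R w₀ - (aeval x (T₁ - X ^ e * E₁).divX * x + algebraMap k R w₀) =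
        -(aeval x (T₁ - X ^ e * E₁).divX * x) := by ring
    rw [h6]
    exact hIneg _ (hImul _ _ hIx)
  have hww : algebraMap k R w₀⁻¹ * algebraMap k R w₀ = 1 := by
    rw [← map_mul, inv_mul_cancel₀ hw0, map_one]
  set Nx : R := algebraMap k R w₀⁻¹ * (X' - Y' - algebraMap k R (μ' - μ) * Z') with hNx
  have hJx : J (x - Nx) := by
    have h3 : x - Nx = algebraMap k R w₀⁻¹ *
        (x * (algebraMap k R w₀ - (aeval x T₁ - x ^ e * aeval x E₁)) +
          (algebraMap k R (-c) * Q ^ (m + e + 2) + algebraMap k R c' * P ^ (m + 2) +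
            algebraMap k R (-(μ' - μ)) * (z - Z'))) := by
      rw [hNx, hX', hY', hP, hQ, map_neg, map_neg, map_sub]
      linear_combination (-x) * hww
    rw [h3]
    exact hJsm _ _ (hJadd _ _ (hJmul _ _ hIx hIw)
      (hJadd _ _ (hJadd _ _ (hJsm _ _ hJQ) (hJsm _ _ hJP)) (hJsm _ _ hJz)))
  set η : k := d * (-(f.coeff 0) / E) with hη
  have hIe : I (x ^ e * aeval x E₁ - algebraMap k R η) := by
    have h3 : x ^ e * aeval x E₁ = aeval x (X ^ e * E₁) := by
      rw [map_mul, map_pow, aeval_X]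
    have h4 : (X ^ e * E₁).coeff 0 = η := by
      rw [mul_coeff_zero, hXe, hE0', hη]
    have h5 : aeval x (X ^ e * E₁) = aeval x (X ^ e * E₁).divX * x + algebraMap k R η := by
      conv_lhs => rw [← Polynomial.divX_mul_X_add (X ^ e * E₁)]
      rw [map_add, map_mul, aeval_X, aeval_C, h4]
    rw [h3, h5, add_sub_cancel_right]
    exact hImul _ _ hIx
  set Ny : R := X' + algebraMap k R η * Nx + algebraMap k R μ * Z' with hNy
  have hJy : J (y - Ny) := by
    have h3 : y - Ny = x * (x ^ e * aeval x E₁ - algebraMap k R η) +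
        (algebraMap k R η * (x - Nx) + (algebraMap k R μ * (z - Z') +
          algebraMap k R (-c) * Q ^ (m + e + 2))) := by
      rw [hNy, hX', hP, map_neg]
      ring
    rw [h3]
    exact hJadd _ _ (hJmul _ _ hIx hIe) (hJadd _ _ (hJsm _ _ hJx)
      (hJadd _ _ (hJsm _ _ hJz) (hJsm _ _ hJQ)))
  -- membership in the algebra of the axes
  have hT'mem : ∀ i, ![ψ X', ψ Y', ψ Z'] i ∈ adj ![A, B, C'] := by
    intro i
    fin_cases i
    · exact hIX
    · exact hIY
    · exact hIZ
  have hX'' : ψ X' ∈ adj ![ψ X', ψ Y', ψ Z'] := mem_adj ![ψ X', ψ Y', ψ Z'] 0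
  have hY'' : ψ Y' ∈ adj ![ψ X', ψ Y', ψ Z'] := mem_adj ![ψ X', ψ Y', ψ Z'] 1
  have hZ'' : ψ Z' ∈ adj ![ψ X', ψ Y', ψ Z'] := mem_adj ![ψ X', ψ Y', ψ Z'] 2
  have hNx' : ψ Nx ∈ adj ![ψ X', ψ Y', ψ Z'] := by
    rw [hNx, map_mul, map_sub, map_sub, map_mul, hal, hal, smul_mul_assoc, one_mul,
      smul_mul_assoc, one_mul]
    exact SMulMemClass.smul_mem _ (sub_mem (sub_mem hX'' hY'') (SMulMemClass.smul_mem _ hZ''))
  have h3add : ∀ (p q r : R) (s t : k), ψ (p + algebraMap k R s * q + algebraMap k R t * r) =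
      ψ p + s • ψ q + t • ψ r := by
    intro p q r s t
    rw [map_add, map_add, map_mul, map_mul, hal, hal, smul_mul_assoc, one_mul,
      smul_mul_assoc, one_mul]
  have hNy' : ψ Ny ∈ adj ![ψ X', ψ Y', ψ Z'] := by
    rw [hNy, h3add X' Nx Z' η μ]
    exact add_mem (add_mem hX'' (SMulMemClass.smul_mem _ hNx')) (SMulMemClass.smul_mem _ hZ'')
  have hback : ∀ i, ![A, B, C'] i ∈ adj ![ψ X', ψ Y', ψ Z'] := by
    refine adj_nak hT hT'mem fun i => ?_
    fin_cases i
    · refine ⟨ψ Nx, hNx', ?_⟩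
      have h4 : A - ψ Nx = ψ (x - Nx) := by rw [map_sub, hx]
      show A - ψ Nx ∈ _
      rw [h4]
      exact hJx
    · refine ⟨ψ Ny, hNy', ?_⟩
      have h4 : B - ψ Ny = ψ (y - Ny) := by rw [map_sub, hy]
      show B - ψ Ny ∈ _
      rw [h4]
      exact hJy
    · refine ⟨ψ Z', hZ'', ?_⟩
      have h4 : C' - ψ Z' = ψ (z - Z') := by rw [map_sub, hz]
      show C' - ψ Z' ∈ _
      rw [h4]
      exact hJz
  refine cl_of_adj hback ?_
  have h0 : ∀ r s : R, r * s = 0 → ψ r * ψ s = 0 := by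
    intro r s h
    rw [← map_mul, h, map_zero]
  have hXYm := h0 _ _ hXY
  have hYXm := h0 _ _ (show Y' * X' = 0 by rw [mul_comm]; exact hXY)
  have hXZm := h0 _ _ hXZ
  have hZXm := h0 _ _ (show Z' * X' = 0 by rw [mul_comm]; exact hXZ)
  have hYZm := h0 _ _ hYZ
  have hZYm := h0 _ _ (show Z' * Y' = 0 by rw [mul_comm]; exact hYZ)
  have hαα : algebraMap k R α⁻¹ * algebraMap k R α = 1 := by
    rw [← map_mul, inv_mul_cancel₀ hα, map_one]
  have hrel : X' ^ (m + 3) = algebraMap k R (-(β * α⁻¹)) * Y' ^ (m + e + 3) +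
      algebraMap k R α⁻¹ * Z' ^ 2 := by
    rw [hXp, hYp, hZp, map_neg, map_mul]
    linear_combination (-(algebraMap k R α⁻¹)) * hzz - P ^ (m + 3) * hαα
  have hcl := D8.cl_axes3 (ψ X') (ψ Y') (ψ Z') v (p := m + 3) (q := m + e + 3) (r := 2)
    (by omega) (by omega) (by omega) (by rw [hn]; omega) hXYm hYXm hXZm hZXm hYZm hZYm
    (a := -(β * α⁻¹)) (b := α⁻¹) (neg_ne_zero.2 (mul_ne_zero hβ (inv_ne_zero hα)))
    (inv_ne_zero hα) (by
      have h3 := congrArg (fun r => ψ r *ᵥ v) hrel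
      simp only [map_add, map_mul, map_pow, hal, smul_mul_assoc, one_mul, Matrix.add_mulVec,
        Matrix.smul_mulVec] at h3
      exact h3) (span_axes hXYm hYXm hXZm hZXm hYZm hZYm fun u => by
      obtain ⟨r, rfl⟩ := hsurj u
      obtain ⟨c, hc⟩ := hR r
      refine ⟨c, ψ (r - algebraMap k R c), adj_le hback hc, ?_⟩
      rw [map_sub, hal, Matrix.sub_mulVec, Matrix.smul_mulVec, Matrix.one_mulVec]
      abel) (fun i j => if i = j then 1 else 0)
  have h3 : (fun i : Fin 3 => (if i = 0 then (1 : k) else 0) • ψ X' +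
      (if i = 1 then (1 : k) else 0) • ψ Y' + (if i = 2 then (1 : k) else 0) • ψ Z') =
      ![ψ X', ψ Y', ψ Z'] := by
    funext i
    fin_cases i <;> simp
  rw [h3] at hcl
  exact hcl

end mat

end CoreI

end Pool.Agent.Lib.D13
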