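import Pool.Agent.Lib.D13.Ab1S
import Pool.Agent.Lib.D13.CoreI

/-!
# MP_5dcbc3_ag: Jordan blocks of sizes `b + δ`, `b`, `1`: family (I) is in the closure
-/

namespace Pool.Agent.Lib.D13

open Matrix Polynomial Pool.Agent.Lib.Q5dc Pool.Agent.Lib.D7 Pool.Agent.Lib.D8

namespace PB

variable {k : Type*} [Field k] {N : ℕ}
variable {A : Matrix (Fin N) (Fin N) k} {w : Fin 3 → Fin N → k} {b δ : ℕ}

theorem pi_three (z : Fin 3 → k[X]) :
    pi A w z = aeval A (z 0) *ᵥ w 0 + aeval A (z 1) *ᵥ w 1 + aeval A (z 2) *ᵥ w 2 := by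
  rw [pi, Fin.sum_univ_three]

/-- the action of a matrix of the form `Mx` on the first generator -/
theorem mx_apply0 {B : Matrix (Fin N) (Fin N) k} {c f q r : k[X]} {t u g h : k}
    (hB : Rep A w B (Mx b δ c f q r t u g h)) :
    B *ᵥ w 0 = aeval A c *ᵥ w 0 + aeval A r *ᵥ w 1 + t • w 2 := by
  rw [hB.apply 0, pi_three]
  show aeval A c *ᵥ w 0 + aeval A r *ᵥ w 1 + aeval A (C t) *ᵥ w 2 = _
  rw [aeval_C, Algebra.algebraMap_eq_smul_one, Matrix.smul_mulVec, Matrix.one_mulVec]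

/-- the action of a matrix of the form `Mx` on the second generator -/
theorem mx_apply1 {B : Matrix (Fin N) (Fin N) k} {c f q r : k[X]} {t u g h : k}
    (hB : Rep A w B (Mx b δ c f q r t u g h)) :
    B *ᵥ w 1 = aeval A (X ^ δ * f) *ᵥ w 0 + aeval A q *ᵥ w 1 + u • w 2 := by
  rw [hB.apply 1, pi_three]
  show aeval A (X ^ δ * f) *ᵥ w 0 + aeval A q *ᵥ w 1 + aeval A (C u) *ᵥ w 2 = _
  rw [aeval_C, Algebra.algebraMap_eq_smul_one, Matrix.smul_mulVec, Matrix.one_mulVec]

/-- the action of a matrix of the form `Mx` on the third generator -/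
theorem mx_apply2 {B : Matrix (Fin N) (Fin N) k} {c f q r : k[X]} {t u g h : k}
    (hB : Rep A w B (Mx b δ c f q r t u g h)) :
    B *ᵥ w 2 = g • (A ^ (b + δ - 1) *ᵥ w 0) + h • (A ^ (b - 1) *ᵥ w 1) := by
  rw [hB.apply 2, pi_three]
  show aeval A (X ^ (b + δ - 1) * C g) *ᵥ w 0 + aeval A (X ^ (b - 1) * C h) *ᵥ w 1 +
    aeval A 0 *ᵥ w 2 = _
  rw [map_zero, Matrix.zero_mulVec, add_zero, map_mul, map_mul, map_pow, map_pow, aeval_X, aeval_C,
    aeval_C, Algebra.algebraMap_eq_smul_one, Algebra.algebraMap_eq_smul_one, mul_smul_comm,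
    mul_smul_comm, mul_one, mul_one, Matrix.smul_mulVec, Matrix.smul_mulVec]

/-- the relations of family (I) -/
theorem relsI (hb : 2 ≤ b) (hδ : 1 ≤ δ) (f q : k[X]) (t' g h g' h' : k) :
    Rels b δ (X * f) (X * q) 1 0 0 g h (X ^ (b - 1) * C (t' * g)) (X ^ (b - 1) * C (t' * h)) 0
      t' 0 g' h' := by
  have hXb : (X : k[X]) ^ b = X ^ (b - 1) * X := by
    rw [← pow_succ]
    congr 1
    omega
  have hc0 : ∀ p : k[X], (X ^ (b - 1) * p).coeff 0 = 0 := fun p => by
    rw [mul_coeff_zero, coeff_X_pow, if_neg (by omega), zero_mul]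
  refine ⟨?_, ?_, ?_, ?_, ?_, ?_, ?_, ?_⟩
  · rw [C_sub, C_mul, C_mul, C_mul, C_0]
    convert dvd_zero _ using 1
    ring
  · refine ⟨f * C (t' * h) - C (t' * g) * q, ?_⟩
    rw [hXb, C_sub, C_mul, C_mul, C_mul, C_mul, C_0]
    ring
  · rw [C_sub, C_mul, C_mul, C_mul, C_0]
    convert dvd_zero _ using 1
    ring
  · obtain ⟨e, rfl⟩ : ∃ e, δ = e + 1 := ⟨δ - 1, by omega⟩
    refine ⟨X ^ e * C (t' * g), ?_⟩
    rw [hXb, C_sub, C_mul, C_mul, C_mul, C_0]
    ring
  · simp
  · rw [hc0, mul_coeff_zero, coeff_X_zero, zero_mul, mul_zero, mul_zero]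
  · intro h0
    omega
  · intro h0
    omega

/-- the generic members with `t' = 1` -/
theorem genI_aux [IsAlgClosed k] (hb : 3 ≤ b) (hδ : 1 ≤ δ) {B C' : Matrix (Fin N) (Fin N) k}
    {f q : k[X]} {g h g' h' : k} (hA : Bl A w b δ)
    (hB : Rep A w B (Mx b δ 0 (X * f) (X * q) 1 0 0 g h))
    (hC : Rep A w C' (Mx b δ 0 (X ^ (b - 1) * C (1 * g)) (X ^ (b - 1) * C (1 * h)) 0 1 0 g' h'))
    {E d : k} (hd : d = if δ = 1 then 1 else 0)
    (hE : E ^ 2 - q.coeff 0 * E - d * f.coeff 0 = 0) (hE0 : E ≠ 0)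
    (hE2 : 2 * E - q.coeff 0 ≠ 0) (h1 : E * g' - f.coeff 0 * h' ≠ 0)
    (h2 : d * g' + E * h' ≠ 0) : Cl ![A, B, C'] := by
  obtain ⟨m, rfl⟩ : ∃ m, b = m + 3 := ⟨b - 3, by omega⟩
  obtain ⟨e, rfl⟩ : ∃ e, δ = e + 1 := ⟨δ - 1, by omega⟩
  have hBC := (comm_mx hA (by omega) (Dvd.intro _ rfl)
    (by
      rw [show m + 3 - 1 = (m + 1) + 1 by omega, pow_succ']
      exact ⟨X ^ (m + 1) * C (1 * h), by ring⟩) hB hC).2
    (relsI (by omega) (by omega) f q 1 g h g' h')
  have hBv : B *ᵥ w 0 = w 1 := by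
    rw [mx_apply0 hB, map_zero, Matrix.zero_mulVec, zero_add, map_one, Matrix.one_mulVec, zero_smul,
      add_zero]
  have hCv : C' *ᵥ w 0 = w 2 := by
    rw [mx_apply0 hC, map_zero, Matrix.zero_mulVec, zero_add, Matrix.zero_mulVec, zero_add, one_smul]
  have e1 : m + 3 + (e + 1) - 1 = m + e + 3 := by omega
  have e2 : m + 3 - 1 = m + 2 := by omega
  have hd' : d = if e = 0 then 1 else 0 := by
    rw [hd]
    congr 1
    exact propext ⟨fun h => by omega, fun h => by omega⟩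
  refine CoreI.coreI (v := w 0) (m := m) (e := e) (q := q) (f := f) (g := g) (h := h) (g' := g')
    (h' := h') ?_ (comm_A hA hB) (comm_A hA hC) hBC ?_ ?_ ?_ ?_ ?_ ?_ ?_ hd' hE hE0 hE2 h1 h2
  · rw [Fintype.card_fin, hA.card, Fin.sum_univ_three]
    show m + 3 + (e + 1) + (m + 3) + 1 = 2 * m + e + 8
    omega
  · have := hA.ann 0
    rwa [show (![m + 3 + (e + 1), m + 3, 1] : Fin 3 → ℕ) 0 = m + e + 4 from by
      show m + 3 + (e + 1) = m + e + 4
      omega] at this
  · rw [hBv]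
    exact hA.ann 1
  · rw [hCv]
    have := hA.ann 2
    rwa [show (![m + 3 + (e + 1), m + 3, 1] : Fin 3 → ℕ) 2 = 1 from rfl, pow_one] at this
  · rw [hBv, mx_apply1 hB, zero_smul, add_zero, add_comm]
    congr 3
    ring
  · rw [hCv, mx_apply2 hB, e1, e2, hBv]
  · rw [hCv, mx_apply2 hC, e1, e2, hBv]
  · intro u
    obtain ⟨z, rfl⟩ := hA.span u
    refine ⟨z 0, z 1, (z 2).coeff 0, ?_⟩
    rw [hBv, hCv, pi_three]
    congr 1
    have h3 : aeval A (z 2 - C ((z 2).coeff 0)) *ᵥ w 2 = 0 := by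
      refine act_of_dvd (e := 1) (hA.ann 2) ?_
      rw [pow_one, X_dvd_iff, coeff_sub, coeff_C_zero, sub_self]
    rw [map_sub, aeval_C, Algebra.algebraMap_eq_smul_one, Matrix.sub_mulVec, Matrix.smul_mulVec,
      Matrix.one_mulVec, sub_eq_zero] at h3
    exact h3

/-- the parameters are generic outside a finite set -/
theorem exI [IsAlgClosed k] (q0 f0 g' h' : k) (P : Prop) [Decidable P] :
    ∃ F : Set k, F.Finite ∧ ∀ s ∉ F, ∃ E : k,
      E ^ 2 - (q0 + s) * E - (if P then 1 else 0) * f0 = 0 ∧ E ≠ 0 ∧ 2 * E - (q0 + s) ≠ 0 ∧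
      E * (g' + s) - f0 * (h' + s) ≠ 0 ∧ (if P then 1 else 0) * (g' + s) + E * (h' + s) ≠ 0 := by
  by_cases hP : P
  · simp only [if_pos hP]
    let p : k[X] := ((X + C q0) ^ 2 + C (4 * f0)) *
      ((X + C g') ^ 2 + (X + C q0) * (X + C g') * (X + C h') - C f0 * (X + C h') ^ 2)
    have hm1 : ((X + C q0) ^ 2 + C (4 * f0) : k[X]).Monic := by
      monicity!
    have hm2 : ((X + C g') ^ 2 + (X + C q0) * (X + C g') * (X + C h') -
        C f0 * (X + C h') ^ 2 : k[X]).Monic := by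
      monicity!
    have hp0 : p ≠ 0 := (hm1.mul hm2).ne_zero
    refine ⟨{s | p.IsRoot s}, Polynomial.finite_setOfPred_isRoot hp0, fun s hs => ?_⟩
    have hs' : p.eval s ≠ 0 := hs
    have hev : p.eval s = ((s + q0) ^ 2 + 4 * f0) *
        ((s + g') ^ 2 + (s + q0) * (s + g') * (s + h') - f0 * (s + h') ^ 2) := by
      simp [p]
    rw [hev] at hs'
    have hD := left_ne_zero_of_mul hs'
    have hG := right_ne_zero_of_mul hs'
    -- a nonzero root
    obtain ⟨E, hE, hE0⟩ : ∃ E : k, E ^ 2 - (q0 + s) * E - 1 * f0 = 0 ∧ E ≠ 0 := by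
      by_cases hf0 : f0 = 0
      · refine ⟨q0 + s, by rw [hf0]; ring, fun h0 => hD ?_⟩
        rw [hf0]
        linear_combination (q0 + s) * h0
      · have hdeg : (X ^ 2 - C (q0 + s) * X - C f0 : k[X]).degree ≠ 0 := by
          have : (X ^ 2 - C (q0 + s) * X - C f0 : k[X]).degree = 2 := by
            compute_degree!
          rw [this]
          decide
        obtain ⟨E, hE⟩ := IsAlgClosed.exists_root _ hdeg
        have hE' : E ^ 2 - (q0 + s) * E - f0 = 0 := by
          simpa [IsRoot] using hE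
        refine ⟨E, by linear_combination hE', ?_⟩
        rintro rfl
        apply hf0
        linear_combination -hE'
    have hfE : f0 = E ^ 2 - (q0 + s) * E := by linear_combination -hE
    refine ⟨E, hE, hE0, ?_, ?_, ?_⟩
    · intro h0
      apply hD
      rw [hfE]
      linear_combination (2 * E - (q0 + s)) * h0
    · intro h0
      apply hG
      have h3 : (g' + s) - (E - (q0 + s)) * (h' + s) = 0 := by
        apply mul_left_cancel₀ hE0
        rw [hfE] at h0
        linear_combination h0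
      rw [hfE]
      linear_combination ((g' + s) + E * (h' + s)) * h3
    · intro h0
      apply hG
      rw [hfE]
      linear_combination ((g' + s) - (E - (q0 + s)) * (h' + s)) * h0
  · simp only [if_neg hP]
    let p : k[X] := (X + C q0) * ((X + C q0) * (X + C g') - C f0 * (X + C h')) * (X + C h')
    have hm2 : ((X + C q0) * (X + C g') - C f0 * (X + C h') : k[X]).Monic := by
      monicity!
    have hp0 : p ≠ 0 := (((monic_X_add_C q0).mul hm2).mul (monic_X_add_C h')).ne_zero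
    refine ⟨{s | p.IsRoot s}, Polynomial.finite_setOfPred_isRoot hp0, fun s hs => ?_⟩
    have hs' : p.eval s ≠ 0 := hs
    have hev : p.eval s = (s + q0) * ((s + q0) * (s + g') - f0 * (s + h')) * (s + h') := by
      simp [p]
    rw [hev] at hs'
    have h3 := right_ne_zero_of_mul hs'
    have h4 := left_ne_zero_of_mul hs'
    have h5 := left_ne_zero_of_mul h4
    have h6 := right_ne_zero_of_mul h4
    refine ⟨q0 + s, by ring, by rwa [add_comm], ?_, ?_, ?_⟩
    · intro h0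
      apply h5
      linear_combination h0
    · intro h0
      apply h6
      linear_combination h0
    · rw [zero_mul, zero_add]
      exact mul_ne_zero (by rwa [add_comm]) (by rwa [add_comm])

/-- the members with `t' = 1` -/
theorem genI_one [IsAlgClosed k] (hb : 3 ≤ b) (hδ : 1 ≤ δ)
    {B C' : Matrix (Fin N) (Fin N) k} {f q : k[X]} {g h g' h' : k} (hA : Bl A w b δ)
    (hB : Rep A w B (Mx b δ 0 (X * f) (X * q) 1 0 0 g h))
    (hC : Rep A w C' (Mx b δ 0 (X ^ (b - 1) * C (1 * g)) (X ^ (b - 1) * C (1 * h)) 0 1 0 g' h')) :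
    Cl ![A, B, C'] := by
  obtain ⟨F, hF, hF'⟩ := exI (q.coeff 0) (f.coeff 0) g' h' (δ = 1)
  obtain ⟨D, hD⟩ := exists_mx hA (by omega) 0 0 X 0 0 0 0 0
  obtain ⟨D', hD'⟩ := exists_mx hA (by omega) 0 0 0 0 0 0 1 1
  have : Infinite k := IsAlgClosed.instInfinite
  refine cl_of_line (D := D) (E := D') hF fun s hs => ?_
  obtain ⟨E, hE, hE0, hE2, h1, h2⟩ := hF' s hs
  have hBs : Rep A w (B + s • D) (Mx b δ 0 (X * f) (X * (q + C s)) 1 0 0 g h) := by
    refine (mx_add_smul hB hD s).congr ?_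
    congr 1 <;> ring
  have hCs : Rep A w (C' + s • D') (Mx b δ 0 (X ^ (b - 1) * C (1 * g)) (X ^ (b - 1) * C (1 * h))
      0 1 0 (g' + s) (h' + s)) := by
    refine (mx_add_smul hC hD' s).congr ?_
    congr 1 <;> ring
  have hq : (q + C s).coeff 0 = q.coeff 0 + s := by rw [coeff_add, coeff_C_zero]
  refine genI_aux hb hδ hA hBs hCs (E := E) rfl ?_ hE0 ?_ h1 h2
  · rw [hq]; exact hE
  · rw [hq]; exact hE2

/-- family (I) is in the closure -/
theorem genI [IsAlgClosed k] (hb : 4 ≤ b) (hδ : 1 ≤ δ) : GenIS k b δ := by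
  intro N A B C' w f q t' g h g' h' hA hB hC
  have key : ∀ (C' : Matrix (Fin N) (Fin N) k) (t' g' h' : k), t' ≠ 0 →
      Rep A w C' (Mx b δ 0 (X ^ (b - 1) * C (t' * g)) (X ^ (b - 1) * C (t' * h)) 0 t' 0 g' h') →
      Cl ![A, B, C'] := by
    intro C' t' g' h' ht hC
    have h1 : Rep A w (t'⁻¹ • C') (Mx b δ 0 (X ^ (b - 1) * C (1 * g)) (X ^ (b - 1) * C (1 * h))
        0 1 0 (t'⁻¹ * g') (t'⁻¹ * h')) := by
      have h2 := mx_add_smul (Rep.zero.congr (show (0 : Matrix (Fin 3) (Fin 3) k[X]) =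
        Mx b δ 0 0 0 0 0 0 0 0 by
          refine Matrix.ext fun i j => ?_
          fin_cases i <;> fin_cases j <;> simp [Mx])) hC t'⁻¹
      rw [zero_add] at h2
      refine h2.congr ?_
      have hC1 : C t'⁻¹ * C t' = (1 : k[X]) := by
        rw [← C_mul, inv_mul_cancel₀ ht, C_1]
      congr 1
      · ring
      · rw [C_mul, C_mul, C_1]
        linear_combination (X ^ (b - 1) * C g) * hC1
      · rw [C_mul, C_mul, C_1]
        linear_combination (X ^ (b - 1) * C h) * hC1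
      · ring
      · rw [zero_add, inv_mul_cancel₀ ht]
      · ring
      · ring
      · ring
    refine cl_of_adj (T' := ![A, B, t'⁻¹ • C']) (fun i => ?_) (genI_one (by omega) hδ hA hB h1)
    fin_cases i
    · exact mem_adj ![A, B, t'⁻¹ • C'] 0
    · exact mem_adj ![A, B, t'⁻¹ • C'] 1
    · have h3 := SMulMemClass.smul_mem t' (mem_adj ![A, B, t'⁻¹ • C'] 2)
      have h4 : t' • ![A, B, t'⁻¹ • C'] 2 = C' := by
        show t' • t'⁻¹ • C' = C'
        rw [smul_smul, mul_inv_cancel₀ ht, one_smul]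
      rw [h4] at h3
      exact h3
  by_cases ht : t' = 0
  · subst ht
    obtain ⟨D', hD'⟩ := exists_mx hA (by omega) 0 (X ^ (b - 1) * C g) (X ^ (b - 1) * C h) 0 1 0 0 0
    have : Infinite k := IsAlgClosed.instInfinite
    refine cl_of_line (D := 0) (E := D') (Set.finite_singleton (0 : k)) fun s hs => ?_
    rw [smul_zero, add_zero]
    refine key (C' + s • D') s g' h' (fun h0 => hs h0) ?_
    refine (mx_add_smul hC hD' s).congr ?_
    congr 1
    · ring
    · rw [zero_mul, C_0, C_mul]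
      ring
    · rw [zero_mul, C_0, C_mul]
      ring
    · ring
    · ring
    · ring
    · ring
    · ring
  · exact key C' t' g' h' ht hC

end PB

end Pool.Agent.Lib.D13
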