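import Pool.Agent.Lib.D13.Shapes

/-!
# MP_5dcbc3_ag: the Jordan types which have to be excluded one by one

`rest N` is the list of the decreasing lists of sum `N` which are not covered by the general theorems
(at most two blocks; blocks of size at most two; hooks; `(a, 2, 1)` with `a` at least `5`). If none of
them is bad, all commuting nilpotent triples of `N x N` matrices are limits of curvilinear ones.
-/

namespace Pool.Agent.Lib.D13

open Matrix Pool.Agent.Lib.Q5dc Pool.Agent.Lib.D7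

variable {k : Type*} [Field k]

/-- the types covered by the general theorems -/
def easy (l : List ℕ) : Bool :=
  decide (l.length ≤ 2) || l.all (fun a => decide (a ≤ 2)) ||
    match l with
    | [] => true
    | a :: t => (decide (3 ≤ a) && decide (2 ≤ t.length) && t.all (fun b => decide (b = 1))) ||
        (decide (5 ≤ a) && decide (t = [2, 1]))

theorem not_bad_easy [IsAlgClosed k] [CharZero k] {l : List ℕ} (h : easy l = true)
    (h0 : 0 < l.sum) : ¬ Bad k l := by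
  unfold easy at h
  rw [Bool.or_eq_true, Bool.or_eq_true] at h
  rcases h with (h | h) | h
  · exact not_bad_short (of_decide_eq_true h) h0
  · refine not_bad_two (fun a ha => ?_) h0
    rw [List.all_eq_true] at h
    exact of_decide_eq_true (h a ha)
  · cases l with
    | nil => simp at h0
    | cons a t =>
      simp only [Bool.or_eq_true, Bool.and_eq_true, decide_eq_true_eq, List.all_eq_true] at h
      rcases h with ⟨⟨h1, h2⟩, h3⟩ | ⟨h1, h2⟩
      · have h4 : t = List.replicate t.length 1 := List.eq_replicate_of_mem h3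
        rw [h4]
        exact not_bad_hook h1 h2
      · obtain ⟨m, rfl⟩ : ∃ m, a = m + 5 := ⟨a - 5, by omega⟩
        rw [h2]
        exact not_bad_a21

/-- the types of size `N` which are not covered by the general theorems -/
def rest (N : ℕ) : List (List ℕ) := (parts N).filter fun l => !easy l

theorem sum_partsAux : ∀ (f m n : ℕ), ∀ l ∈ partsAux f m n, l.sum = n := by
  intro f
  induction f with
  | zero =>
    intro m n l hl
    cases n with
    | zero =>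
      simp only [partsAux, List.mem_singleton] at hl
      rw [hl, List.sum_nil]
    | succ n => simp [partsAux] at hl
  | succ f ih =>
    intro m n l hl
    cases n with
    | zero =>
      simp only [partsAux, List.mem_singleton] at hl
      rw [hl, List.sum_nil]
    | succ n =>
      simp only [partsAux, List.mem_flatMap, List.mem_range, List.mem_map] at hl
      obtain ⟨i, hi, t, ht, rfl⟩ := hl
      rw [List.sum_cons, ih _ _ t ht]
      omega

/-- if none of the types in `rest N` is bad, every commuting nilpotent triple is a limit of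
curvilinear ones -/
theorem cl_of_rest [IsAlgClosed k] [CharZero k] {N : ℕ} (hN : 0 < N)
    (h : ∀ l ∈ rest N, ¬ Bad k l) {T : Fin 3 → Matrix (Fin N) (Fin N) k} (hT : CN T) : Cl T := by
  have : Infinite k := IsAlgClosed.instInfinite
  refine cl_of_parts (fun l hl => ?_) hT
  by_cases he : easy l = true
  · exact not_bad_easy he (by rw [sum_partsAux N N N l hl]; exact hN)
  · exact h l (List.mem_filter.2 ⟨hl, by simpa using he⟩)

/-- the form in which a type is excluded: `J` is the Jordan matrix on any index type `m`, `τ` places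
the elements of `m` in the boxes of `l` -/
theorem not_bad_of [Infinite k] {l : List ℕ} {m : Type*} [Fintype m] [DecidableEq m]
    (J : Matrix m m k) (τ : m → IxL l) (hτ : Function.Injective τ) (hc : Fintype.card m = l.sum)
    (hJ : ∀ i j, J i j = if (τ i).1 = (τ j).1 ∧ ((τ i).2 : ℕ) = (τ j).2 + 1 then 1 else 0)
    (h : ∀ (ρ : ℕ → ℕ) (T : Fin 3 → Matrix m m k), MaxR ρ T → (∀ i, ρ i = (J ^ i).rank) →
      T 0 = J → False) : ¬ Bad k l := by
  intro hb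
  obtain ⟨ρ, T, hT, hρ, h0⟩ := hb.bridge J τ hτ hc hJ
  exact h ρ T hT hρ h0

/-- the form in which a type `(3^e, 2^u, 1^p)` is excluded -/
theorem not_bad_321 [Infinite k] {e u p : ℕ}
    (h : ∀ (ρ : ℕ → ℕ) (T : Fin 3 → Matrix (D9.Ix e u p) (D9.Ix e u p) k), MaxR ρ T →
      (∀ i, ρ i = (D9.JX k e u p ^ i).rank) → T 0 = D9.JX k e u p → False) :
    ¬ Bad k (L321 e u p) := by
  intro hb
  obtain ⟨ρ, T, hT, hρ, h0⟩ := bridge321 hb
  exact h ρ T hT hρ h0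

theorem rest_eq8 : rest 8 = [[3, 2, 1, 1, 1], [3, 2, 2, 1], [3, 3, 1, 1], [3, 3, 2], [4, 2, 1, 1],
    [4, 2, 2], [4, 3, 1]] := by
  decide +kernel

theorem rest_eq9 : rest 9 = [[3, 2, 1, 1, 1, 1], [3, 2, 2, 1, 1], [3, 2, 2, 2], [3, 3, 1, 1, 1],
    [3, 3, 2, 1], [3, 3, 3], [4, 2, 1, 1, 1], [4, 2, 2, 1], [4, 3, 1, 1], [4, 3, 2], [4, 4, 1],
    [5, 2, 1, 1], [5, 2, 2], [5, 3, 1]] := by
  decide +kernel

theorem rest_eq10 : rest 10 = [[3, 2, 1, 1, 1, 1, 1], [3, 2, 2, 1, 1, 1], [3, 2, 2, 2, 1],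
    [3, 3, 1, 1, 1, 1], [3, 3, 2, 1, 1], [3, 3, 2, 2], [3, 3, 3, 1], [4, 2, 1, 1, 1, 1],
    [4, 2, 2, 1, 1], [4, 2, 2, 2], [4, 3, 1, 1, 1], [4, 3, 2, 1], [4, 3, 3], [4, 4, 1, 1], [4, 4, 2],
    [5, 2, 1, 1, 1], [5, 2, 2, 1], [5, 3, 1, 1], [5, 3, 2], [5, 4, 1], [6, 2, 1, 1], [6, 2, 2],
    [6, 3, 1]] := by
  decide +kernel

theorem rest_eq11 : rest 11 = [[3, 2, 1, 1, 1, 1, 1, 1], [3, 2, 2, 1, 1, 1, 1], [3, 2, 2, 2, 1, 1],
    [3, 2, 2, 2, 2], [3, 3, 1, 1, 1, 1, 1], [3, 3, 2, 1, 1, 1], [3, 3, 2, 2, 1], [3, 3, 3, 1, 1],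
    [3, 3, 3, 2], [4, 2, 1, 1, 1, 1, 1], [4, 2, 2, 1, 1, 1], [4, 2, 2, 2, 1], [4, 3, 1, 1, 1, 1],
    [4, 3, 2, 1, 1], [4, 3, 2, 2], [4, 3, 3, 1], [4, 4, 1, 1, 1], [4, 4, 2, 1], [4, 4, 3],
    [5, 2, 1, 1, 1, 1], [5, 2, 2, 1, 1], [5, 2, 2, 2], [5, 3, 1, 1, 1], [5, 3, 2, 1], [5, 3, 3],
    [5, 4, 1, 1], [5, 4, 2], [5, 5, 1], [6, 2, 1, 1, 1], [6, 2, 2, 1], [6, 3, 1, 1], [6, 3, 2],
    [6, 4, 1], [7, 2, 1, 1], [7, 2, 2], [7, 3, 1]] := by
  decide +kernel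

theorem rest_eq12 : rest 12 = [[3, 2, 1, 1, 1, 1, 1, 1, 1], [3, 2, 2, 1, 1, 1, 1, 1],
    [3, 2, 2, 2, 1, 1, 1], [3, 2, 2, 2, 2, 1], [3, 3, 1, 1, 1, 1, 1, 1], [3, 3, 2, 1, 1, 1, 1],
    [3, 3, 2, 2, 1, 1], [3, 3, 2, 2, 2], [3, 3, 3, 1, 1, 1], [3, 3, 3, 2, 1], [3, 3, 3, 3],
    [4, 2, 1, 1, 1, 1, 1, 1], [4, 2, 2, 1, 1, 1, 1], [4, 2, 2, 2, 1, 1], [4, 2, 2, 2, 2],
    [4, 3, 1, 1, 1, 1, 1], [4, 3, 2, 1, 1, 1], [4, 3, 2, 2, 1], [4, 3, 3, 1, 1], [4, 3, 3, 2],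
    [4, 4, 1, 1, 1, 1], [4, 4, 2, 1, 1], [4, 4, 2, 2], [4, 4, 3, 1], [4, 4, 4],
    [5, 2, 1, 1, 1, 1, 1], [5, 2, 2, 1, 1, 1], [5, 2, 2, 2, 1], [5, 3, 1, 1, 1, 1],
    [5, 3, 2, 1, 1], [5, 3, 2, 2], [5, 3, 3, 1], [5, 4, 1, 1, 1], [5, 4, 2, 1], [5, 4, 3],
    [5, 5, 1, 1], [5, 5, 2], [6, 2, 1, 1, 1, 1], [6, 2, 2, 1, 1], [6, 2, 2, 2], [6, 3, 1, 1, 1],
    [6, 3, 2, 1], [6, 3, 3], [6, 4, 1, 1], [6, 4, 2], [6, 5, 1], [7, 2, 1, 1, 1], [7, 2, 2, 1],
    [7, 3, 1, 1], [7, 3, 2], [7, 4, 1], [8, 2, 1, 1], [8, 2, 2], [8, 3, 1]] := by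
  decide +kernel

end Pool.Agent.Lib.D13
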