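import Pool.Agent.Lib.D13.PB
import Pool.Agent.Lib.D13.Frame

/-!
# MP_5dcbc3_ag: polynomial matrices and the exclusion of Jordan types
-/

namespace Pool.Agent.Lib.D13

open Matrix Polynomial Pool.Agent.Lib.Q5dc Pool.Agent.Lib.D7 Pool.Agent.Lib.D8

namespace PB

variable {k : Type*} [Field k] {N : ℕ}

/-- the Jordan matrix of a list, on the index type `Fin N` -/
theorem blk_of_jordan {l : List ℕ} (hl : ∀ a, 0 < l.get a) (τ : Fin N ≃ IxL l)
    (A : Matrix (Fin N) (Fin N) k)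
    (hA : ∀ i j, A i j = if (τ i).1 = (τ j).1 ∧ ((τ i).2 : ℕ) = (τ j).2 + 1 then 1 else 0) :
    BlkB A (fun a => Pi.single (τ.symm ⟨a, ⟨0, hl a⟩⟩) 1) l.get := by
  have hcol : ∀ j : Fin N, A *ᵥ Pi.single j 1 = fun i => A i j := by
    intro j
    exact Matrix.mulVec_single_one A j
  have hstep : ∀ (a : Fin l.length) (j : ℕ) (hj : j + 1 < l.get a),
      A *ᵥ (Pi.single (τ.symm ⟨a, ⟨j, by omega⟩⟩) (1 : k)) =
        Pi.single (τ.symm ⟨a, ⟨j + 1, hj⟩⟩) 1 := by
    intro a j hj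
    rw [hcol]
    funext i
    rw [hA, Pi.single_apply, τ.apply_symm_apply]
    have h1 : ((τ i).1 = a ∧ ((τ i).2 : ℕ) = j + 1) ↔ i = τ.symm ⟨a, ⟨j + 1, hj⟩⟩ := by
      rw [Equiv.eq_symm_apply]
      constructor
      · rintro ⟨h1, h2⟩
        exact JordanUAux.sigma_ext _ _ h1 h2
      · intro h
        rw [h]
        exact ⟨rfl, rfl⟩
    simp only [h1]
  have hend : ∀ (a : Fin l.length) (j : ℕ) (hj : j < l.get a), j + 1 = l.get a →
      A *ᵥ (Pi.single (τ.symm ⟨a, ⟨j, hj⟩⟩) (1 : k)) = 0 := by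
    intro a j hj h
    rw [hcol]
    funext i
    rw [hA, τ.apply_symm_apply, if_neg]
    · rfl
    · rintro ⟨h1, h2⟩
      have h3 : ((τ i).2 : ℕ) = j + 1 := h2
      have h4 := (τ i).2.isLt
      have h5 : l.get (τ i).1 = l.get a := by rw [h1]
      omega
  have hpow : ∀ (a : Fin l.length) (j : ℕ) (hj : j < l.get a),
      A ^ j *ᵥ (Pi.single (τ.symm ⟨a, ⟨0, hl a⟩⟩) (1 : k)) =
        Pi.single (τ.symm ⟨a, ⟨j, hj⟩⟩) 1 := by
    intro a j
    induction j with
    | zero => intro _; rw [pow_zero, Matrix.one_mulVec]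
    | succ j ih =>
      intro hj
      rw [pow_succ', ← Matrix.mulVec_mulVec, ih (by omega), hstep a j hj]
  refine ⟨?_, fun a => ?_, fun x => ?_⟩
  · have h1 := Fintype.card_congr τ
    rw [Fintype.card_fin, Fintype.card_sigma] at h1
    rw [h1]
    exact Finset.sum_congr rfl fun a _ => Fintype.card_fin _
  · obtain ⟨e, he⟩ : ∃ e, l.get a = e + 1 := ⟨l.get a - 1, by have := hl a; omega⟩
    have h2 : A ^ l.get a = A * A ^ e := by rw [he, pow_succ']
    rw [h2, ← Matrix.mulVec_mulVec, hpow a e (by omega)]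
    exact hend a e (by omega) he.symm
  · -- the representable vectors form a subspace
    let S : Submodule k (Fin N → k) :=
      { carrier := {x | ∃ z, x = pi A (fun a => Pi.single (τ.symm ⟨a, ⟨0, hl a⟩⟩) 1) z}
        zero_mem' := ⟨0, pi_zero.symm⟩
        add_mem' := by
          rintro _ _ ⟨z, rfl⟩ ⟨z', rfl⟩
          exact ⟨z + z', (pi_add z z').symm⟩
        smul_mem' := by
          rintro r _ ⟨z, rfl⟩
          exact ⟨r • z, (pi_csmul r z).symm⟩ }
    have hsingle : ∀ i : Fin N, Pi.single i (1 : k) ∈ S := by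
      intro i
      refine ⟨Pi.single (τ i).1 (X ^ ((τ i).2 : ℕ)), ?_⟩
      rw [pi_single, map_pow, aeval_X, hpow _ _ (τ i).2.isLt]
      congr 1
      rw [Equiv.eq_symm_apply]
    have h3 : x = ∑ i, x i • (Pi.single i (1 : k) : Fin N → k) := by
      funext j
      rw [Finset.sum_apply, Finset.sum_eq_single j]
      · simp
      · intro i _ hij
        simp [Ne.symm hij]
      · intro h; exact absurd (Finset.mem_univ j) h
    have h4 : x ∈ S := by
      rw [h3]
      exact Submodule.sum_mem _ fun i _ => Submodule.smul_mem _ _ (hsingle i)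
    exact h4

/-- the form in which a type is excluded: with maximality -/
theorem not_bad_of_blk' [Infinite k] {l : List ℕ} (hl : ∀ a, 0 < l.get a)
    (h : ∀ (ρ : ℕ → ℕ) (N : ℕ) (A B C' : Matrix (Fin N) (Fin N) k)
      (w : Fin l.length → Fin N → k), BlkB A w l.get → MaxR ρ ![A, B, C'] →
      (∀ i, ρ i = (A ^ i).rank) → False) : ¬ Bad k l := by
  obtain ⟨τ⟩ : Nonempty (Fin l.sum ≃ IxL l) :=
    ⟨(Fintype.equivOfCardEq (by rw [Fintype.card_fin, card_IxL]))⟩
  refine not_bad_of (m := Fin l.sum) (Matrix.of fun i j =>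
    if (τ i).1 = (τ j).1 ∧ ((τ i).2 : ℕ) = (τ j).2 + 1 then 1 else 0) τ τ.injective
    (Fintype.card_fin _) (fun i j => rfl) fun ρ T hT hρ h0 => ?_
  have h1 := blk_of_jordan hl τ (T 0) (fun i j => by rw [h0]; rfl)
  have h2 : T = ![T 0, T 1, T 2] := by
    funext i
    fin_cases i <;> rfl
  rw [h2] at hT
  exact h ρ _ _ _ _ _ h1 hT (fun i => by rw [hρ, h0])

/-- the form in which a type is excluded -/
theorem not_bad_of_blk [Infinite k] {l : List ℕ} (hl : ∀ a, 0 < l.get a)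
    (h : ∀ (N : ℕ) (A B C' : Matrix (Fin N) (Fin N) k)
      (w : Fin l.length → Fin N → k), BlkB A w l.get → A * B = B * A → A * C' = C' * A →
      B * C' = C' * B → IsNilpotent B → IsNilpotent C' → Cl ![A, B, C']) : ¬ Bad k l := by
  refine not_bad_of_blk' hl fun ρ N A B C' w hA hT _ => ?_
  exact hT.ncl (h N A B C' w hA (hT.cn.1 0 1) (hT.cn.1 0 2) (hT.cn.1 1 2) (hT.cn.2 1) (hT.cn.2 2))

end PB

end Pool.Agent.Lib.D13
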