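import Pool.Agent.Lib.D13.Ab1Full
import Pool.Agent.Lib.D13.Ab1GenA
import Pool.Agent.Lib.D13.Ab1GenI
import Pool.Agent.Lib.D13.Ab1Alpha
import Pool.Agent.Lib.D13.Ab1Dist
import Pool.Agent.Lib.D13.PBframe

/-!
# MP_5dcbc3_ag: Jordan blocks of sizes `b + δ`, `b`, `1` with `b ≥ 4`: the result

From the case of pairs.
-/

namespace Pool.Agent.Lib.D13

open Matrix Polynomial Pool.Agent.Lib.Q5dc Pool.Agent.Lib.D7 Pool.Agent.Lib.D8

namespace PB

variable {k : Type*} [Field k] {N r : ℕ}

/-- the corank of a matrix with `r` blocks -/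
theorem le_rank {A : Matrix (Fin N) (Fin N) k} {w : Fin r → Fin N → k} {l : Fin r → ℕ}
    (h : BlkB A w l) : N ≤ A.rank + r := by
  have h1 : LinearMap.range A.mulVecLin ⊔ Submodule.span k (Set.range w) = ⊤ := by
    rw [eq_top_iff]
    intro x _
    obtain ⟨z, rfl⟩ := h.span x
    unfold pi
    refine Submodule.sum_mem _ fun i _ => ?_
    obtain ⟨p, hp⟩ : X ∣ z i - C ((z i).coeff 0) := by
      rw [X_dvd_iff, coeff_sub, coeff_C_zero, sub_self]
    have h2 : z i = X * p + C ((z i).coeff 0) := by linear_combination hp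
    rw [h2, map_add, Matrix.add_mulVec]
    refine Submodule.add_mem_sup ?_ ?_
    · refine ⟨aeval A p *ᵥ w i, ?_⟩
      rw [Matrix.mulVecLin_apply, Matrix.mulVec_mulVec, map_mul, aeval_X]
    · rw [aeval_C, Algebra.algebraMap_eq_smul_one, Matrix.smul_mulVec, Matrix.one_mulVec]
      exact Submodule.smul_mem _ _ (Submodule.subset_span ⟨i, rfl⟩)
  have h2 := Submodule.finrank_add_le_finrank_add_finrank (LinearMap.range A.mulVecLin)
    (Submodule.span k (Set.range w))
  rw [h1, finrank_top, Module.finrank_fin_fun] at h2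
  have h3 : Module.finrank k (Submodule.span k (Set.range w)) ≤ r := by
    have := finrank_range_le_card (R := k) w
    rwa [Fintype.card_fin] at this
  have h4 : Module.finrank k (LinearMap.range A.mulVecLin) = A.rank := rfl
  omega

/-- pairs, from the theorem on pairs of corank at most `3` -/
theorem pairS_of {b δ : ℕ} (hpl : ∀ A B : Matrix (Fin (b + δ + b + 1)) (Fin (b + δ + b + 1)) k,
    CN ![A, B, 0] → b + δ + b + 1 ≤ A.rank + 3 → Cl ![A, B, 0]) : PairS k b δ := by
  intro N A B w hA hAB hB
  have hN : N = b + δ + b + 1 := by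
    have := hA.card
    rw [Fin.sum_univ_three] at this
    exact this
  subst hN
  refine hpl A B (cn3 hA hAB (by simp) (by simp) hB IsNilpotent.zero) (le_rank hA)

variable {b δ : ℕ}

theorem fullS [IsAlgClosed k] [CharZero k] (hb : 4 ≤ b) (hP : PairS k b δ) : FullS k b δ := by
  have : Infinite k := IsAlgClosed.instInfinite
  exact full hb (alpha hb hP fun hδ => genI hb hδ) (nonAlpha hb (dist hb (genA hb)))

/-- the Jordan type `(b + δ, b, 1)` is not bad -/
theorem not_bad_ab1 [IsAlgClosed k] [CharZero k] (hb : 4 ≤ b) (hP : PairS k b δ) :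
    ¬ Bad k [b + δ, b, 1] := by
  have : Infinite k := IsAlgClosed.instInfinite
  refine not_bad_of_blk (fun a => ?_) fun N A B C' w hA hAB hAC hBC hB hC => ?_
  · have h : ∀ a : Fin 3, 0 < [b + δ, b, 1].get a := by
      intro a
      fin_cases a
      · show 0 < b + δ
        omega
      · show 0 < b
        omega
      · show 0 < 1
        omega
    exact h a
  · have h1 : ([b + δ, b, 1] : List ℕ).get = ![b + δ, b, 1] := by
      have : ∀ a : Fin 3, ([b + δ, b, 1] : List ℕ).get a = (![b + δ, b, 1] : Fin 3 → ℕ) a := by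
        intro a
        fin_cases a <;> rfl
      exact funext this
    have h2 : BlkB A (r := 3) w ![b + δ, b, 1] := by
      rw [h1] at hA
      exact hA
    exact fullS hb hP N A B C' w h2 hAB hAC hBC hB hC

end PB

end Pool.Agent.Lib.D13
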