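import Mathlib

/-!
# MP_5dcbc3_ag, types `(a, b, 1)`: the case without unit entries, steps N1 - N3, on the level of data
-/

set_option autoImplicit false

namespace Pool.Agent.Lib.D13.NA

open Polynomial

universe v

/-- the data of a matrix commuting with the Jordan matrix of type `(a, b, 1)` -/
@[ext] structure Dat (k : Type v) [Field k] where
  f : k[X]
  q : k[X]
  r : k[X]
  t : k
  u : k
  g : k
  h : k

variable {k : Type v} [Field k]

/-- a linear family of data -/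
noncomputable def Dat.line (D E : Dat k) (s : k) : Dat k :=
  ⟨D.f + C s * E.f, D.q + C s * E.q, D.r + C s * E.r, D.t + s * E.t, D.u + s * E.u,
    D.g + s * E.g, D.h + s * E.h⟩

/-- subtraction of a multiple by a polynomial in `x` -/
noncomputable def Dat.subm (D' D : Dat k) (m : k[X]) : Dat k :=
  ⟨D'.f - m * D.f, D'.q - m * D.q, D'.r - m * D.r, D'.t - m.coeff 0 * D.t,
    D'.u - m.coeff 0 * D.u, D'.g - m.coeff 0 * D.g, D'.h - m.coeff 0 * D.h⟩

/-- the four commutation relations -/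
structure Rl (b d : ℕ) (D D' : Dat k) : Prop where
  h11 : X ^ b ∣ (D.f * D'.r - D'.f * D.r) + X ^ (b - 1) * C (D.g * D'.t - D'.g * D.t)
  h12 : X ^ b ∣ (D.f * D'.q - D'.f * D.q) + X ^ (b - 1) * C (D.g * D'.u - D'.g * D.u)
  h21 : X ^ b ∣ (D.q * D'.r - D'.q * D.r) + X ^ (b - 1) * C (D.h * D'.t - D'.h * D.t)
  h22 : X ^ b ∣ X ^ d * (D.r * D'.f - D'.r * D.f) + X ^ (b - 1) * C (D.h * D'.u - D'.h * D.u)

/-- the constant relations of the normal form -/
structure Cr (d : ℕ) (f q r f' q' r' t u g h t' u' g' h' : k) : Prop where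
  h11 : f * r' - f' * r + (g * t' - g' * t) = 0
  h12 : f * q' - f' * q + (g * u' - g' * u) = 0
  h21 : q * r' - q' * r + (h * t' - h' * t) = 0
  h22 : (if d = 0 then r * f' - r' * f else 0) + (h * u' - h' * u) = 0

/-- the properties of the predicate to be proved -/
structure Prd (G : Dat k → Dat k → Prop) : Prop where
  line : ∀ D D' E E' : Dat k, {s : k | G (D.line E s) (D'.line E' s)}.Infinite → G D D'
  adj : ∀ (D D' : Dat k) (m : k[X]), G D (D'.subm D m) → G D D'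
  swap : ∀ D D' : Dat k, G D' D → G D D'

/-- the condition on the eigenvalues -/
def Dist (d : ℕ) (f q r : k) : Prop := (if d = 0 then q * q + 4 * (f * r) else q) ≠ 0

/-- the conclusion of the second half: the normal form with two different eigenvalues -/
def HA (b d : ℕ) (G : Dat k → Dat k → Prop) : Prop :=
  ∀ (F Q R F' Q' R' : k[X]) (t u g h t' u' g' h' : k),
    Cr d (F.coeff 0) (Q.coeff 0) (R.coeff 0) (F'.coeff 0) (Q'.coeff 0) (R'.coeff 0)
      t u g h t' u' g' h' →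
    Dist d (F.coeff 0) (Q.coeff 0) (R.coeff 0) →
    G ⟨X * F, X * Q, X * R, t, u, g, h⟩
      ⟨X ^ (b - 2) * F', X ^ (b - 2) * Q', X ^ (b - 2) * R', t', u', g', h'⟩

theorem coeff_div {b : ℕ} (hb : 1 ≤ b) (p : k[X]) (c : k) (h : X ^ b ∣ X ^ (b - 1) * p +
    X ^ (b - 1) * C c) : p.coeff 0 + c = 0 := by
  rw [X_pow_dvd_iff] at h
  have h1 := h (b - 1) (by omega)
  rw [coeff_add, coeff_X_pow_mul', coeff_X_pow_mul', if_pos (le_refl _), if_pos (le_refl _),
    Nat.sub_self, coeff_C_zero] at h1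
  exact h1

theorem X_dvd_of {p : k[X]} (h : p.coeff 0 = 0) : X ∣ p := X_dvd_iff.2 h

/-- inverses modulo powers of `X` -/
theorem inv_mod {F : k[X]} (hF : F.coeff 0 ≠ 0) (n : ℕ) : ∃ G : k[X], X ^ n ∣ F * G - 1 := by
  have h1 : IsCoprime F X := by
    obtain ⟨F1, hF1⟩ := X_dvd_of (p := F - C (F.coeff 0)) (by simp)
    refine ⟨C (F.coeff 0)⁻¹, -(C (F.coeff 0)⁻¹ * F1), ?_⟩
    have h2 : (C (F.coeff 0)⁻¹ * C (F.coeff 0) : k[X]) = 1 := by
      rw [← C_mul, inv_mul_cancel₀ hF, C_1]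
    linear_combination C (F.coeff 0)⁻¹ * hF1 + h2
  obtain ⟨x, y, hxy⟩ := h1.pow_right (n := n)
  refine ⟨x, ⟨-y, ?_⟩⟩
  linear_combination hxy

/-- proportional vectors modulo a power of `X` -/
theorem prop_mod (V W : Fin 3 → k[X]) (i : Fin 3) (hi : (V i).coeff 0 ≠ 0) (n : ℕ)
    (h : ∀ j, X ^ n ∣ V i * (X * W j) - X * W i * V j) :
    ∃ m : k[X], ∀ j, X ^ n ∣ X * W j - m * (X * V j) := by
  obtain ⟨G, c, hG⟩ := inv_mod hi n
  refine ⟨W i * G, fun j => ?_⟩
  obtain ⟨e, he⟩ := h j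
  refine ⟨G * e - c * (X * W j), ?_⟩
  linear_combination G * he - (X * W j) * hG

/-- the order of a vector of polynomials -/
theorem exists_order (W : Fin 3 → k[X]) : ∃ (e : k[X]) (V : Fin 3 → k[X]) (i : Fin 3),
    (V i).coeff 0 ≠ 0 ∧ ∀ j, W j = e * V j := by
  classical
  by_cases hW : ∀ j, W j = 0
  · exact ⟨0, fun _ => 1, 0, by simp, fun j => by rw [hW j, zero_mul]⟩
  push Not at hW
  obtain ⟨i0, hi0⟩ := hW
  obtain ⟨n, hn, hn'⟩ : ∃ n : ℕ, (∀ j, X ^ n ∣ W j) ∧ ¬ ∀ j, X ^ (n + 1) ∣ W j := by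
    by_contra hcon
    push Not at hcon
    have h1 : ∀ n : ℕ, ∀ j, X ^ n ∣ W j := by
      intro n
      induction n with
      | zero => intro j; rw [pow_zero]; exact one_dvd _
      | succ n ih => exact hcon n ih
    have h2 := natDegree_le_of_dvd (h1 ((W i0).natDegree + 1) i0) hi0
    rw [natDegree_X_pow] at h2
    omega
  choose V hV using hn
  refine ⟨X ^ n, V, ?_⟩
  by_contra hcon
  push Not at hcon
  apply hn'
  intro j
  by_cases hj : (V j).coeff 0 = 0
  · obtain ⟨c, hc⟩ := X_dvd_of hj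
    exact ⟨c, by rw [hV j, hc, pow_succ]; ring⟩
  · obtain ⟨j', hj'⟩ := hcon j hj
    exact absurd (hV j') hj'

section

variable [Infinite k] {b d : ℕ} {G : Dat k → Dat k → Prop}

theorem infinite_ne (c : k) : {s : k | s + c ≠ 0}.Infinite := by
  have h : {s : k | s + c ≠ 0} = {-c}ᶜ := by
    ext s
    simp only [Set.mem_ofPred_eq, Set.mem_compl_iff, Set.mem_singleton_iff, ne_eq]
    rw [not_iff_not]
    constructor
    · intro h; linear_combination h
    · intro h; rw [h]; ring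
  rw [h]
  exact (Set.finite_singleton _).infinite_compl

theorem infinite_quad (a b c : k) : {s : k | s * s + a * s + b + c * s ≠ 0}.Infinite := by
  have h : {s : k | s * s + a * s + b + c * s ≠ 0} =
      {s : k | (X ^ 2 + C (a + c) * X + C b : k[X]).IsRoot s}ᶜ := by
    ext s
    simp only [Set.mem_ofPred_eq, Set.mem_compl_iff, IsRoot.def, eval_add, eval_mul, eval_pow,
      eval_X, eval_C, ne_eq]
    rw [not_iff_not]
    constructor
    · intro h; linear_combination h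
    · intro h; linear_combination h
  rw [h]
  apply Set.Finite.infinite_compl
  apply Polynomial.finite_setOfPred_isRoot
  intro h0
  have h1 := congrArg (fun p => p.coeff 2) h0
  simp at h1

/-- with `q` moved, the eigenvalues become different -/
theorem infinite_dist (d : ℕ) (f q r α : k) :
    {s : k | Dist d (f + s * α) (q + s) r}.Infinite := by
  by_cases hd : d = 0
  · have h : {s : k | Dist d (f + s * α) (q + s) r} =
        {s : k | s * s + 2 * q * s + (q * q + 4 * (f * r)) + 4 * (α * r) * s ≠ 0} := by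
      ext s
      simp only [Dist, if_pos hd, Set.mem_ofPred_eq]
      rw [not_iff_not]
      constructor
      · intro h; linear_combination h
      · intro h; linear_combination h
    rw [h]
    exact infinite_quad _ _ _
  · have h : {s : k | Dist d (f + s * α) (q + s) r} = {s : k | s + q ≠ 0} := by
      ext s
      simp only [Dist, if_neg hd, Set.mem_ofPred_eq, add_comm]
    rw [h]
    exact infinite_ne _

/-- the normal form with `r'(0) = 0`, `r(0) ≠ 0` -/
theorem step_r (hG : Prd G) (hA : HA b d G) (F Q R F' Q' R' : k[X]) (t u g h t' u' g' h' : k)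
    (hc : Cr d (F.coeff 0) (Q.coeff 0) (R.coeff 0) (F'.coeff 0) (Q'.coeff 0) (R'.coeff 0)
      t u g h t' u' g' h') (hR : R.coeff 0 ≠ 0) (hR' : R'.coeff 0 = 0) :
    G ⟨X * F, X * Q, X * R, t, u, g, h⟩
      ⟨X ^ (b - 2) * F', X ^ (b - 2) * Q', X ^ (b - 2) * R', t', u', g', h'⟩ := by
  by_cases hQ' : Q'.coeff 0 = 0
  · refine hG.line _ _ ⟨0, X, 0, 0, (R.coeff 0)⁻¹ * t, 0, 0⟩
      ⟨0, 0, 0, 0, (R.coeff 0)⁻¹ * t', 0, 0⟩ ((infinite_dist d (F.coeff 0) (Q.coeff 0)
        (R.coeff 0) 0).mono fun s hs => ?_)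
    have h1 := hA F (Q + C s) R F' Q' R' t (u + s * ((R.coeff 0)⁻¹ * t)) g h t'
      (u' + s * ((R.coeff 0)⁻¹ * t')) g' h' ?_ ?_
    · have e1 : Dat.line (⟨X * F, X * Q, X * R, t, u, g, h⟩ : Dat k)
          ⟨0, X, 0, 0, (R.coeff 0)⁻¹ * t, 0, 0⟩ s =
          ⟨X * F, X * (Q + C s), X * R, t, u + s * ((R.coeff 0)⁻¹ * t), g, h⟩ := by
        unfold Dat.line
        ext1 <;> ring
      have e2 : Dat.line (⟨X ^ (b - 2) * F', X ^ (b - 2) * Q', X ^ (b - 2) * R', t', u', g', h'⟩ :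
          Dat k) ⟨0, 0, 0, 0, (R.coeff 0)⁻¹ * t', 0, 0⟩ s =
          ⟨X ^ (b - 2) * F', X ^ (b - 2) * Q', X ^ (b - 2) * R', t',
            u' + s * ((R.coeff 0)⁻¹ * t'), g', h'⟩ := by
        unfold Dat.line
        ext1 <;> ring
      show G (Dat.line _ _ s) (Dat.line _ _ s)
      rw [e1, e2]
      exact h1
    · rw [hR', hQ'] at hc ⊢
      have h11 := hc.h11
      have h12 := hc.h12
      have h21 := hc.h21
      have h22 := hc.h22
      have hi : (R.coeff 0)⁻¹ * R.coeff 0 = 1 := inv_mul_cancel₀ hR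
      refine ⟨?_, ?_, ?_, ?_⟩
      · linear_combination h11
      · rw [coeff_add, coeff_C_zero]
        linear_combination h12 + s * (R.coeff 0)⁻¹ * h11 + s * F'.coeff 0 * hi
      · rw [coeff_add, coeff_C_zero]
        linear_combination h21
      · linear_combination h22 + s * (R.coeff 0)⁻¹ * h21
    · have h2 : Dist d (F.coeff 0 + s * 0) (Q.coeff 0 + s) (R.coeff 0) := hs
      rw [mul_zero, add_zero] at h2
      rw [coeff_add, coeff_C_zero]
      exact h2
  · refine hG.line _ _ ⟨X * C (F'.coeff 0 * (Q'.coeff 0)⁻¹), X, 0, 0, 0, 0, 0⟩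
      ⟨0, 0, 0, 0, 0, 0, 0⟩ ((infinite_dist d (F.coeff 0) (Q.coeff 0)
        (R.coeff 0) (F'.coeff 0 * (Q'.coeff 0)⁻¹)).mono fun s hs => ?_)
    have h1 := hA (F + C (s * (F'.coeff 0 * (Q'.coeff 0)⁻¹))) (Q + C s) R F' Q' R' t u g h t'
      u' g' h' ?_ ?_
    · have e1 : Dat.line (⟨X * F, X * Q, X * R, t, u, g, h⟩ : Dat k)
          ⟨X * C (F'.coeff 0 * (Q'.coeff 0)⁻¹), X, 0, 0, 0, 0, 0⟩ s =
          ⟨X * (F + C (s * (F'.coeff 0 * (Q'.coeff 0)⁻¹))), X * (Q + C s), X * R, t, u, g, h⟩ := by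
        unfold Dat.line
        rw [C_mul (a := s)]
        ext1 <;> ring
      have e2 : Dat.line (⟨X ^ (b - 2) * F', X ^ (b - 2) * Q', X ^ (b - 2) * R', t', u', g', h'⟩ :
          Dat k) ⟨0, 0, 0, 0, 0, 0, 0⟩ s =
          ⟨X ^ (b - 2) * F', X ^ (b - 2) * Q', X ^ (b - 2) * R', t', u', g', h'⟩ := by
        unfold Dat.line
        ext1 <;> ring
      show G (Dat.line _ _ s) (Dat.line _ _ s)
      rw [e1, e2]
      exact h1
    · have hi : (Q'.coeff 0)⁻¹ * Q'.coeff 0 = 1 := inv_mul_cancel₀ hQ'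
      rw [hR'] at hc ⊢
      have h11 := hc.h11
      have h12 := hc.h12
      have h21 := hc.h21
      have h22 := hc.h22
      refine ⟨?_, ?_, ?_, ?_⟩
      · rw [coeff_add, coeff_C_zero]
        linear_combination h11
      · rw [coeff_add, coeff_C_zero, coeff_add, coeff_C_zero]
        linear_combination h12 + s * F'.coeff 0 * hi
      · rw [coeff_add, coeff_C_zero]
        linear_combination h21
      · rw [coeff_add, coeff_C_zero]
        have e3 : (0 : k) * (F.coeff 0 + s * (F'.coeff 0 * (Q'.coeff 0)⁻¹)) =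
          0 * F.coeff 0 := by ring
        rw [e3]
        exact h22
    · rw [coeff_add, coeff_C_zero, coeff_add, coeff_C_zero]
      exact hs

/-- the normal form with `f'(0) = 0`, `f(0) ≠ 0` -/
theorem step_f (hG : Prd G) (hA : HA b d G) (F Q R F' Q' R' : k[X]) (t u g h t' u' g' h' : k)
    (hc : Cr d (F.coeff 0) (Q.coeff 0) (R.coeff 0) (F'.coeff 0) (Q'.coeff 0) (R'.coeff 0)
      t u g h t' u' g' h') (hF : F.coeff 0 ≠ 0) (hF' : F'.coeff 0 = 0) :
    G ⟨X * F, X * Q, X * R, t, u, g, h⟩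
      ⟨X ^ (b - 2) * F', X ^ (b - 2) * Q', X ^ (b - 2) * R', t', u', g', h'⟩ := by
  have hsymm : ∀ x y z : k, Dist d x y z ↔ Dist d z y x := by
    intro x y z
    unfold Dist
    rw [mul_comm x z]
  by_cases hQ' : Q'.coeff 0 = 0
  · refine hG.line _ _ ⟨0, X, 0, 0, 0, 0, (F.coeff 0)⁻¹ * g⟩
      ⟨0, 0, 0, 0, 0, 0, (F.coeff 0)⁻¹ * g'⟩ ((infinite_dist d (F.coeff 0) (Q.coeff 0)
        (R.coeff 0) 0).mono fun s hs => ?_)
    have h1 := hA F (Q + C s) R F' Q' R' t u g (h + s * ((F.coeff 0)⁻¹ * g)) t'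
      u' g' (h' + s * ((F.coeff 0)⁻¹ * g')) ?_ ?_
    · have e1 : Dat.line (⟨X * F, X * Q, X * R, t, u, g, h⟩ : Dat k)
          ⟨0, X, 0, 0, 0, 0, (F.coeff 0)⁻¹ * g⟩ s =
          ⟨X * F, X * (Q + C s), X * R, t, u, g, h + s * ((F.coeff 0)⁻¹ * g)⟩ := by
        unfold Dat.line
        ext1 <;> ring
      have e2 : Dat.line (⟨X ^ (b - 2) * F', X ^ (b - 2) * Q', X ^ (b - 2) * R', t', u', g', h'⟩ :
          Dat k) ⟨0, 0, 0, 0, 0, 0, (F.coeff 0)⁻¹ * g'⟩ s =
          ⟨X ^ (b - 2) * F', X ^ (b - 2) * Q', X ^ (b - 2) * R', t',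
            u', g', h' + s * ((F.coeff 0)⁻¹ * g')⟩ := by
        unfold Dat.line
        ext1 <;> ring
      show G (Dat.line _ _ s) (Dat.line _ _ s)
      rw [e1, e2]
      exact h1
    · rw [hF', hQ'] at hc ⊢
      have h11 := hc.h11
      have h12 := hc.h12
      have h21 := hc.h21
      have h22 := hc.h22
      have hi : (F.coeff 0)⁻¹ * F.coeff 0 = 1 := inv_mul_cancel₀ hF
      refine ⟨?_, ?_, ?_, ?_⟩
      · linear_combination h11
      · rw [coeff_add, coeff_C_zero]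
        linear_combination h12
      · rw [coeff_add, coeff_C_zero]
        linear_combination h21 + s * (F.coeff 0)⁻¹ * h11 - s * R'.coeff 0 * hi
      · linear_combination h22 + s * (F.coeff 0)⁻¹ * h12
    · have h2 : Dist d (F.coeff 0 + s * 0) (Q.coeff 0 + s) (R.coeff 0) := hs
      rw [mul_zero, add_zero] at h2
      rw [coeff_add, coeff_C_zero]
      exact h2
  · refine hG.line _ _ ⟨0, X, X * C (R'.coeff 0 * (Q'.coeff 0)⁻¹), 0, 0, 0, 0⟩
      ⟨0, 0, 0, 0, 0, 0, 0⟩ ((infinite_dist d (R.coeff 0) (Q.coeff 0)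
        (F.coeff 0) (R'.coeff 0 * (Q'.coeff 0)⁻¹)).mono fun s hs => ?_)
    have h1 := hA F (Q + C s) (R + C (s * (R'.coeff 0 * (Q'.coeff 0)⁻¹))) F' Q' R' t u g h t'
      u' g' h' ?_ ?_
    · have e1 : Dat.line (⟨X * F, X * Q, X * R, t, u, g, h⟩ : Dat k)
          ⟨0, X, X * C (R'.coeff 0 * (Q'.coeff 0)⁻¹), 0, 0, 0, 0⟩ s =
          ⟨X * F, X * (Q + C s), X * (R + C (s * (R'.coeff 0 * (Q'.coeff 0)⁻¹))), t, u, g, h⟩ := by
        unfold Dat.line
        rw [C_mul (a := s)]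
        ext1 <;> ring
      have e2 : Dat.line (⟨X ^ (b - 2) * F', X ^ (b - 2) * Q', X ^ (b - 2) * R', t', u', g', h'⟩ :
          Dat k) ⟨0, 0, 0, 0, 0, 0, 0⟩ s =
          ⟨X ^ (b - 2) * F', X ^ (b - 2) * Q', X ^ (b - 2) * R', t', u', g', h'⟩ := by
        unfold Dat.line
        ext1 <;> ring
      show G (Dat.line _ _ s) (Dat.line _ _ s)
      rw [e1, e2]
      exact h1
    · have hi : (Q'.coeff 0)⁻¹ * Q'.coeff 0 = 1 := inv_mul_cancel₀ hQ'
      rw [hF'] at hc ⊢
      have h11 := hc.h11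
      have h12 := hc.h12
      have h21 := hc.h21
      have h22 := hc.h22
      refine ⟨?_, ?_, ?_, ?_⟩
      · rw [coeff_add, coeff_C_zero]
        linear_combination h11
      · rw [coeff_add, coeff_C_zero]
        linear_combination h12
      · rw [coeff_add, coeff_C_zero, coeff_add, coeff_C_zero]
        linear_combination h21 - s * R'.coeff 0 * hi
      · rw [coeff_add, coeff_C_zero]
        have e3 : (R.coeff 0 + s * (R'.coeff 0 * (Q'.coeff 0)⁻¹)) * (0 : k) =
          R.coeff 0 * 0 := by ring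
        rw [e3]
        exact h22
    · rw [coeff_add, coeff_C_zero, coeff_add, coeff_C_zero]
      exact (hsymm _ _ _).1 hs

/-- subtraction of `c x ^ (b - 3)` times the first matrix from the second -/
theorem subm_form (hb : 4 ≤ b) (F Q R F' Q' R' : k[X]) (t u g h t' u' g' h' c : k) :
    Dat.subm (⟨X ^ (b - 2) * F', X ^ (b - 2) * Q', X ^ (b - 2) * R', t', u', g', h'⟩ : Dat k)
      ⟨X * F, X * Q, X * R, t, u, g, h⟩ (C c * X ^ (b - 3)) =
      ⟨X ^ (b - 2) * (F' - C c * F), X ^ (b - 2) * (Q' - C c * Q), X ^ (b - 2) * (R' - C c * R),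
        t', u', g', h'⟩ := by
  have h1 : (C c * X ^ (b - 3) : k[X]).coeff 0 = 0 := by
    rw [mul_coeff_zero, coeff_X_pow, if_neg (by omega), mul_zero]
  have h2 : (X ^ (b - 2) : k[X]) = X ^ (b - 3) * X := by
    rw [← pow_succ]
    congr 1
    omega
  unfold Dat.subm
  rw [h1, h2]
  ext1 <;> ring

/-- step N3 -/
theorem step3 (hb : 4 ≤ b) (hG : Prd G) (hA : HA b d G) (F Q R F' Q' R' : k[X])
    (t u g h t' u' g' h' : k)
    (hc : Cr d (F.coeff 0) (Q.coeff 0) (R.coeff 0) (F'.coeff 0) (Q'.coeff 0) (R'.coeff 0)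
      t u g h t' u' g' h') (hV : F.coeff 0 ≠ 0 ∨ Q.coeff 0 ≠ 0 ∨ R.coeff 0 ≠ 0) :
    G ⟨X * F, X * Q, X * R, t, u, g, h⟩
      ⟨X ^ (b - 2) * F', X ^ (b - 2) * Q', X ^ (b - 2) * R', t', u', g', h'⟩ := by
  have hcr : ∀ c : k, Cr d (F.coeff 0) (Q.coeff 0) (R.coeff 0) ((F' - C c * F).coeff 0)
      ((Q' - C c * Q).coeff 0) ((R' - C c * R).coeff 0) t u g h t' u' g' h' := by
    intro c
    have h11 := hc.h11
    have h12 := hc.h12
    have h21 := hc.h21
    have h22 := hc.h22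
    simp only [coeff_sub, coeff_C_mul]
    refine ⟨by linear_combination h11, by linear_combination h12, by linear_combination h21, ?_⟩
    refine Eq.trans ?_ h22
    split_ifs
    · ring
    · rfl
  by_cases hR : R.coeff 0 = 0
  · by_cases hF : F.coeff 0 = 0
    · have hQ : Q.coeff 0 ≠ 0 := by
        rcases hV with h | h | h
        · exact absurd hF h
        · exact h
        · exact absurd hR h
      refine hA F Q R F' Q' R' t u g h t' u' g' h' hc ?_
      unfold Dist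
      rw [hR, hF]
      split_ifs
      · rw [mul_zero, mul_zero, add_zero]
        exact mul_ne_zero hQ hQ
      · exact hQ
    · refine hG.adj _ _ (C (F'.coeff 0 * (F.coeff 0)⁻¹) * X ^ (b - 3)) ?_
      rw [subm_form hb]
      refine step_f hG hA _ _ _ _ _ _ _ _ _ _ _ _ _ _ (hcr _) hF ?_
      rw [coeff_sub, coeff_C_mul, mul_assoc, inv_mul_cancel₀ hF, mul_one, sub_self]
  · refine hG.adj _ _ (C (R'.coeff 0 * (R.coeff 0)⁻¹) * X ^ (b - 3)) ?_
    rw [subm_form hb]
    refine step_r hG hA _ _ _ _ _ _ _ _ _ _ _ _ _ _ (hcr _) hR ?_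
    rw [coeff_sub, coeff_C_mul, mul_assoc, inv_mul_cancel₀ hR, mul_one, sub_self]

theorem Rl.subm {D D' : Dat k} (hr : Rl b d D D') (m : k[X]) : Rl b d D (D'.subm D m) := by
  obtain ⟨h11, h12, h21, h22⟩ := hr
  refine ⟨?_, ?_, ?_, ?_⟩
  · convert h11 using 2
    · simp only [Dat.subm]; ring
    · simp only [Dat.subm]; congr 2; ring
  · convert h12 using 2
    · simp only [Dat.subm]; ring
    · simp only [Dat.subm]; congr 2; ring
  · convert h21 using 2
    · simp only [Dat.subm]; ring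
    · simp only [Dat.subm]; congr 2; ring
  · convert h22 using 2
    · simp only [Dat.subm]; ring
    · simp only [Dat.subm]; congr 2; ring

theorem Rl.swap {D D' : Dat k} (hr : Rl b d D D') : Rl b d D' D := by
  obtain ⟨h11, h12, h21, h22⟩ := hr
  refine ⟨?_, ?_, ?_, ?_⟩
  · rw [← dvd_neg]; convert h11 using 1; simp only [C_sub, C_mul]; ring
  · rw [← dvd_neg]; convert h12 using 1; simp only [C_sub, C_mul]; ring
  · rw [← dvd_neg]; convert h21 using 1; simp only [C_sub, C_mul]; ring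
  · rw [← dvd_neg]; convert h22 using 1; simp only [C_sub, C_mul]; ring

/-- the constant relations from the relations -/
theorem cr_of_rl (hb : 4 ≤ b) (F Q R F' Q' R' : k[X]) (t u g h t' u' g' h' : k)
    (hr : Rl b d ⟨X * F, X * Q, X * R, t, u, g, h⟩
      ⟨X ^ (b - 2) * F', X ^ (b - 2) * Q', X ^ (b - 2) * R', t', u', g', h'⟩) :
    Cr d (F.coeff 0) (Q.coeff 0) (R.coeff 0) (F'.coeff 0) (Q'.coeff 0) (R'.coeff 0)
      t u g h t' u' g' h' := by
  obtain ⟨h11, h12, h21, h22⟩ := hr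
  simp only at h11 h12 h21 h22
  have h2 : (X ^ (b - 1) : k[X]) = X ^ (b - 2) * X := by
    rw [← pow_succ]
    congr 1
    omega
  have e : ∀ (P Q' P' Q : k[X]) (c : k), X ^ b ∣ (X * P * (X ^ (b - 2) * Q') -
      X ^ (b - 2) * P' * (X * Q)) + X ^ (b - 1) * C c →
      P.coeff 0 * Q'.coeff 0 - P'.coeff 0 * Q.coeff 0 + c = 0 := by
    intro P Q' P' Q c h
    have h3 := coeff_div (b := b) (by omega) (P * Q' - P' * Q) c (by
      convert h using 2
      rw [h2]
      ring)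
    rwa [coeff_sub, mul_coeff_zero, mul_coeff_zero] at h3
  refine ⟨e _ _ _ _ _ h11, e _ _ _ _ _ h12, e _ _ _ _ _ h21, ?_⟩
  have h4 := coeff_div (b := b) (by omega) (X ^ d * (R * F' - R' * F)) (h * u' - h' * u) (by
    convert h22 using 2
    rw [h2]
    ring)
  rw [mul_coeff_zero, coeff_X_pow] at h4
  refine Eq.trans ?_ h4
  by_cases hd : d = 0
  · rw [if_pos hd, if_pos hd.symm, one_mul, coeff_sub, mul_coeff_zero, mul_coeff_zero]
  · rw [if_neg hd, if_neg (fun h => hd h.symm), zero_mul]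

/-- step N2 -/
theorem step2 (hb : 4 ≤ b) (hG : Prd G) (hA : HA b d G) (V W : Fin 3 → k[X]) (i : Fin 3)
    (hi : (V i).coeff 0 ≠ 0) (t u g h t' u' g' h' : k)
    (hr : Rl b d ⟨X * V 0, X * V 1, X * V 2, t, u, g, h⟩
      ⟨X * W 0, X * W 1, X * W 2, t', u', g', h'⟩) :
    G ⟨X * V 0, X * V 1, X * V 2, t, u, g, h⟩ ⟨X * W 0, X * W 1, X * W 2, t', u', g', h'⟩ := by
  have hb1 : (X ^ b : k[X]) = X ^ (b - 2) * X * X := by
    rw [← pow_succ, ← pow_succ]
    congr 1
    omega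
  have hb2 : (X ^ (b - 1) : k[X]) = X ^ (b - 2) * X := by
    rw [← pow_succ]
    congr 1
    omega
  have hX : (X : k[X]) ≠ 0 := X_ne_zero
  have e : ∀ (P Q' P' Q : k[X]) (c : k), X ^ b ∣ (X * P * (X * Q') -
      X * P' * (X * Q)) + X ^ (b - 1) * C c → X ^ (b - 2) ∣ P * (X * Q') - P' * (X * Q) := by
    intro P Q' P' Q c h
    obtain ⟨z, hz⟩ := h
    refine ⟨X * z - C c, ?_⟩
    apply mul_left_cancel₀ hX
    rw [hb1, hb2] at hz
    linear_combination hz
  have h01 := e _ _ _ _ _ hr.h12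
  have h02 := e _ _ _ _ _ hr.h11
  have h12 := e _ _ _ _ _ hr.h21
  have hall : ∀ j, X ^ (b - 2) ∣ V i * (X * W j) - X * W i * V j := by
    intro j
    have n01 : X ^ (b - 2) ∣ V 1 * (X * W 0) - X * W 1 * V 0 := by
      obtain ⟨z, hz⟩ := h01
      exact ⟨-z, by linear_combination -hz⟩
    have n02 : X ^ (b - 2) ∣ V 2 * (X * W 0) - X * W 2 * V 0 := by
      obtain ⟨z, hz⟩ := h02
      exact ⟨-z, by linear_combination -hz⟩
    have n12 : X ^ (b - 2) ∣ V 2 * (X * W 1) - X * W 2 * V 1 := by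
      obtain ⟨z, hz⟩ := h12
      exact ⟨-z, by linear_combination -hz⟩
    have p01 : X ^ (b - 2) ∣ V 0 * (X * W 1) - X * W 0 * V 1 := by
      obtain ⟨z, hz⟩ := h01
      exact ⟨z, by linear_combination hz⟩
    have p02 : X ^ (b - 2) ∣ V 0 * (X * W 2) - X * W 0 * V 2 := by
      obtain ⟨z, hz⟩ := h02
      exact ⟨z, by linear_combination hz⟩
    have p12 : X ^ (b - 2) ∣ V 1 * (X * W 2) - X * W 1 * V 2 := by
      obtain ⟨z, hz⟩ := h12
      exact ⟨z, by linear_combination hz⟩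
    have hself : ∀ l, X ^ (b - 2) ∣ V l * (X * W l) - X * W l * V l :=
      fun l => ⟨0, by ring⟩
    fin_cases i <;> fin_cases j
    · exact hself 0
    · exact p01
    · exact p02
    · exact n01
    · exact hself 1
    · exact p12
    · exact n02
    · exact n12
    · exact hself 2
  obtain ⟨m, hm⟩ := prop_mod V W i hi (b - 2) hall
  choose Z hZ using hm
  refine hG.adj _ _ m ?_
  have hr' := hr.subm m
  have hs : Dat.subm (⟨X * W 0, X * W 1, X * W 2, t', u', g', h'⟩ : Dat k)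
      ⟨X * V 0, X * V 1, X * V 2, t, u, g, h⟩ m =
      ⟨X ^ (b - 2) * Z 0, X ^ (b - 2) * Z 1, X ^ (b - 2) * Z 2, t' - m.coeff 0 * t,
        u' - m.coeff 0 * u, g' - m.coeff 0 * g, h' - m.coeff 0 * h⟩ := by
    unfold Dat.subm
    rw [← hZ 0, ← hZ 1, ← hZ 2]
  rw [hs] at hr' ⊢
  refine step3 hb hG hA _ _ _ _ _ _ _ _ _ _ _ _ _ _ (cr_of_rl hb _ _ _ _ _ _ _ _ _ _ _ _ _ _ hr') ?_
  fin_cases i
  · exact Or.inl hi
  · exact Or.inr (Or.inl hi)
  · exact Or.inr (Or.inr hi)

/-- all pairs without unit entries -/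
theorem nonalpha (hb : 4 ≤ b) (hG : Prd G) (hA : HA b d G) (D D' : Dat k) (hr : Rl b d D D')
    (hf : D.f.coeff 0 = 0) (hq : D.q.coeff 0 = 0) (hrr : D.r.coeff 0 = 0)
    (hf' : D'.f.coeff 0 = 0) (hq' : D'.q.coeff 0 = 0) (hrr' : D'.r.coeff 0 = 0) : G D D' := by
  obtain ⟨F, hF⟩ := X_dvd_of hf
  obtain ⟨Q, hQ⟩ := X_dvd_of hq
  obtain ⟨R, hR⟩ := X_dvd_of hrr
  obtain ⟨F', hF'⟩ := X_dvd_of hf'
  obtain ⟨Q', hQ'⟩ := X_dvd_of hq'
  obtain ⟨R', hR'⟩ := X_dvd_of hrr'
  obtain ⟨f, q, r, t, u, g, h⟩ := D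
  obtain ⟨f', q', r', t', u', g', h'⟩ := D'
  simp only at hF hQ hR hF' hQ' hR' hf hq hrr hf' hq' hrr'
  subst hF hQ hR hF' hQ' hR'
  obtain ⟨e, V, i, hi, hV⟩ := exists_order ![F', Q', R']
  have hV0 : F' = e * V 0 := hV 0
  have hV1 : Q' = e * V 1 := hV 1
  have hV2 : R' = e * V 2 := hV 2
  refine hG.line _ _ ⟨X * V 0, X * V 1, X * V 2, 0, 0, 0, 0⟩ ⟨0, 0, 0, 0, 0, 0, 0⟩ ?_
  have hinf : {s : k | (![F, Q, R] i + C s * V i).coeff 0 ≠ 0}.Infinite := by
    have h1 : {s : k | (![F, Q, R] i + C s * V i).coeff 0 ≠ 0} =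
        {s : k | s + (![F, Q, R] i).coeff 0 * ((V i).coeff 0)⁻¹ ≠ 0} := by
      ext s
      simp only [Set.mem_ofPred_eq, coeff_add, coeff_C_mul]
      rw [not_iff_not]
      constructor
      · intro h
        field_simp
        linear_combination h
      · intro h
        field_simp at h
        linear_combination h
    rw [h1]
    exact infinite_ne _
  refine hinf.mono fun s hs => ?_
  show G (Dat.line _ _ s) (Dat.line _ _ s)
  have e1 : Dat.line (⟨X * F, X * Q, X * R, t, u, g, h⟩ : Dat k)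
      ⟨X * V 0, X * V 1, X * V 2, 0, 0, 0, 0⟩ s =
      ⟨X * ![F + C s * V 0, Q + C s * V 1, R + C s * V 2] 0,
        X * ![F + C s * V 0, Q + C s * V 1, R + C s * V 2] 1,
        X * ![F + C s * V 0, Q + C s * V 1, R + C s * V 2] 2, t, u, g, h⟩ := by
    unfold Dat.line
    simp only [Matrix.cons_val_zero, Matrix.cons_val_one, Matrix.cons_val]
    ext1 <;> ring
  have e2 : Dat.line (⟨X * F', X * Q', X * R', t', u', g', h'⟩ : Dat k)
      ⟨0, 0, 0, 0, 0, 0, 0⟩ s = ⟨X * ![F', Q', R'] 0, X * ![F', Q', R'] 1, X * ![F', Q', R'] 2,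
        t', u', g', h'⟩ := by
    unfold Dat.line
    simp only [Matrix.cons_val_zero, Matrix.cons_val_one, Matrix.cons_val]
    ext1 <;> ring
  rw [e1, e2]
  refine step2 hb hG hA _ _ i ?_ _ _ _ _ _ _ _ _ ?_
  · have h2 : ![F + C s * V 0, Q + C s * V 1, R + C s * V 2] i = ![F, Q, R] i + C s * V i := by
      fin_cases i <;> rfl
    rw [h2]
    exact hs
  · obtain ⟨h11, h12, h21, h22⟩ := hr
    simp only [Matrix.cons_val_zero, Matrix.cons_val_one, Matrix.cons_val]
    refine ⟨?_, ?_, ?_, ?_⟩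
    · convert h11 using 2
      simp only
      rw [hV0, hV2]
      ring
    · convert h12 using 2
      simp only
      rw [hV0, hV1]
      ring
    · convert h21 using 2
      simp only
      rw [hV1, hV2]
      ring
    · convert h22 using 2
      simp only
      rw [hV0, hV2]
      ring

end

end Pool.Agent.Lib.D13.NA
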