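import Pool.Agent.Lib.D13.Ab1S
import Pool.Agent.Lib.D13.NA
import Pool.Agent.Lib.D8.TwoD

/-!
# MP_5dcbc3_ag: Jordan blocks of sizes `b + δ`, `b`, `1`: no unit entries
-/

namespace Pool.Agent.Lib.D13

open Matrix Polynomial Pool.Agent.Lib.Q5dc Pool.Agent.Lib.D7 Pool.Agent.Lib.D8

namespace PB

universe v

variable {k : Type v} [Field k] {N : ℕ} {A : Matrix (Fin N) (Fin N) k} {w : Fin 3 → Fin N → k}
  {b δ : ℕ}

/-- the predicate on data -/
def GN (A : Matrix (Fin N) (Fin N) k) (w : Fin 3 → Fin N → k) (b δ : ℕ) (D D' : NA.Dat k) : Prop :=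
  ∀ B C' : Matrix (Fin N) (Fin N) k, Rep A w B (Mx b δ 0 D.f D.q D.r D.t D.u D.g D.h) →
    Rep A w C' (Mx b δ 0 D'.f D'.q D'.r D'.t D'.u D'.g D'.h) → Cl ![A, B, C']

theorem cl_of_line' [Infinite k] {A B C D E : Matrix (Fin N) (Fin N) k}
    (h : {s : k | Cl ![A, B + s • D, C + s • E]}.Infinite) : Cl ![A, B, C] := by
  by_contra h0
  have hl : ∀ s : k, ![A, B, C] + s • ![0, D, E] = ![A, B + s • D, C + s • E] := by
    intro s
    funext i
    fin_cases i <;> simp
  have h1 := finite_cl (fun s => ![A, B, C] + s • ![0, D, E]) (PolyFam.line _ _) (by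
    show ¬ Cl (![A, B, C] + (0 : k) • ![0, D, E])
    rwa [zero_smul, add_zero])
  refine h (h1.subset fun s hs => ?_)
  show Cl (![A, B, C] + s • ![0, D, E])
  rw [hl]
  exact hs

theorem cl_swap {A B C : Matrix (Fin N) (Fin N) k} (h : Cl ![A, C, B]) : Cl ![A, B, C] := by
  refine cl_of_adj (fun i => ?_) h
  fin_cases i
  · exact mem_adj ![A, C, B] 0
  · exact mem_adj ![A, C, B] 2
  · exact mem_adj ![A, C, B] 1

theorem prd [Infinite k] (hA : Bl A w b δ) (hb : 1 ≤ b) : NA.Prd (GN A w b δ) := by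
  refine ⟨fun D D' E E' h B C' hB hC => ?_, fun D D' m h B C' hB hC => ?_,
    fun D D' h B C' hB hC => ?_⟩
  · obtain ⟨B1, hB1⟩ := exists_mx hA hb 0 E.f E.q E.r E.t E.u E.g E.h
    obtain ⟨C1, hC1⟩ := exists_mx hA hb 0 E'.f E'.q E'.r E'.t E'.u E'.g E'.h
    refine cl_of_line' (D := B1) (E := C1) (h.mono ?_)
    intro s hs
    have hs' : GN A w b δ (D.line E s) (D'.line E' s) := hs
    refine hs' _ _ ?_ ?_
    · have h1 := mx_add_smul hB hB1 s
      rw [mul_zero, add_zero] at h1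
      exact h1
    · have h1 := mx_add_smul hC hC1 s
      rw [mul_zero, add_zero] at h1
      exact h1
  · refine Two.cl_sub_mul m (h B _ hB ?_)
    have h1 := mx_sub_mul hA hb hB hC m
    rw [mul_zero, sub_zero] at h1
    exact h1
  · exact cl_swap (h C' B hC hB)

theorem nonAlpha [Infinite k] (hb : 4 ≤ b) (hD : DistS k b δ) : NonAlphaS k b δ := by
  intro N A B C' w f q r f' q' r' t u g h t' u' g' h' hA hB hC hBC
  have hX : ∀ p : k[X], (X * p).coeff 0 = 0 := fun p => by simp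
  have hr := (comm_mx hA (by omega) (Dvd.intro _ rfl) (Dvd.intro _ rfl) hB hC).1 hBC
  refine NA.nonalpha (b := b) (d := δ) hb (prd hA (by omega)) ?_
    ⟨X * f, X * q, X * r, t, u, g, h⟩ ⟨X * f', X * q', X * r', t', u', g', h'⟩
    ⟨hr.r11, hr.r12, hr.r21, hr.r22⟩ (hX _) (hX _) (hX _) (hX _) (hX _) (hX _) B C' hB hC
  intro F Q R F' Q' R' t u g h t' u' g' h' hc hd B C' hB hC
  have hb2 : X ∣ (X ^ (b - 2) : k[X]) := dvd_pow_self X (by omega)
  have hX2 : ∀ p : k[X], (X ^ (b - 2) * p).coeff 0 = 0 := fun p =>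
    X_dvd_iff.1 (hb2.mul_right p)
  refine hD N A B C' w F Q R F' Q' R' t u g h t' u' g' h' hA hB hC ?_ ?_
  · rw [comm_mx hA (by omega) (Dvd.intro _ rfl) (hb2.mul_right _) hB hC]
    have e1 : (X ^ b : k[X]) = X ^ (b - 1) * X := by
      rw [← pow_succ]
      congr 1
      omega
    have e2 : (X ^ (b - 1) : k[X]) = X ^ (b - 2) * X := by
      rw [← pow_succ]
      congr 1
      omega
    have key : ∀ (P Q' P' Q : k[X]) (c : k), P.coeff 0 * Q'.coeff 0 - P'.coeff 0 * Q.coeff 0 + c = 0 →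
        X ^ b ∣ (X * P * (X ^ (b - 2) * Q') - X ^ (b - 2) * P' * (X * Q)) +
          X ^ (b - 1) * C c := by
      intro P Q' P' Q c h0
      have h1 : X ∣ P * Q' - P' * Q + C c := by
        rw [X_dvd_iff, coeff_add, coeff_sub, mul_coeff_zero, mul_coeff_zero, coeff_C_zero, h0]
      obtain ⟨z, hz⟩ := h1
      refine ⟨z, ?_⟩
      rw [e1, e2]
      linear_combination X ^ (b - 2) * X * hz
    refine ⟨key _ _ _ _ _ hc.h11, key _ _ _ _ _ hc.h12, key _ _ _ _ _ hc.h21, ?_, ?_, ?_, ?_, ?_⟩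
    · have h1 : X ∣ X ^ δ * (R * F' - R' * F) + C (h * u' - h' * u) := by
        rw [X_dvd_iff, coeff_add, mul_coeff_zero, coeff_sub, mul_coeff_zero, mul_coeff_zero,
          coeff_C_zero, coeff_X_pow]
        refine Eq.trans ?_ hc.h22
        by_cases hδ : δ = 0
        · rw [if_pos hδ.symm, if_pos hδ, one_mul]
        · rw [if_neg (fun h => hδ h.symm), if_neg hδ, zero_mul]
      obtain ⟨z, hz⟩ := h1
      refine ⟨z, ?_⟩
      rw [e1, e2]
      linear_combination X ^ (b - 2) * X * hz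
    · rw [hX, hX2, mul_zero, mul_zero]
    · rw [hX, hX2, mul_zero, mul_zero]
    · intro _
      rw [hX, hX2, mul_zero, mul_zero]
    · intro _
      rw [hX, hX2, mul_zero, mul_zero]
  · unfold NA.Dist at hd
    rw [coeff_X_pow]
    by_cases hδ : δ = 0
    · rw [if_pos hδ] at hd
      rw [if_pos hδ.symm, one_mul, pow_two]
      exact hd
    · rw [if_neg hδ] at hd
      rw [if_neg (fun h => hδ h.symm), zero_mul, mul_zero, add_zero]
      exact pow_ne_zero 2 hd

end PB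

end Pool.Agent.Lib.D13
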