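import Pool.Agent.Lib.D13.Ab1

/-!
# MP_5dcbc3_ag: Jordan blocks of sizes `b + δ`, `b`, `1`: the statements of the parts of the proof
-/

namespace Pool.Agent.Lib.D13

open Matrix Polynomial Pool.Agent.Lib.Q5dc Pool.Agent.Lib.D7 Pool.Agent.Lib.D8

namespace PB

/-- pairs are in the closure -/
def PairS (k : Type*) [Field k] (b δ : ℕ) : Prop :=
  ∀ (N : ℕ) (A B : Matrix (Fin N) (Fin N) k) (w : Fin 3 → Fin N → k), Bl A w b δ →
    A * B = B * A → IsNilpotent B → Cl ![A, B, 0]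

/-- family (I) is in the closure -/
def GenIS (k : Type*) [Field k] (b δ : ℕ) : Prop :=
  ∀ (N : ℕ) (A B C' : Matrix (Fin N) (Fin N) k) (w : Fin 3 → Fin N → k) (f q : k[X])
    (t' g h g' h' : k), Bl A w b δ → Rep A w B (Mx b δ 0 (X * f) (X * q) 1 0 0 g h) →
    Rep A w C' (Mx b δ 0 (X ^ (b - 1) * C (t' * g)) (X ^ (b - 1) * C (t' * h)) 0 t' 0 g' h') →
    Cl ![A, B, C']

/-- the generic members of family (A) are in the closure -/
def GenAS (k : Type*) [Field k] (b δ : ℕ) : Prop :=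
  ∀ (N : ℕ) (A B C' : Matrix (Fin N) (Fin N) k) (w : Fin 3 → Fin N → k) (κ ρ φ : k[X])
    (t u t' u' γ η : k), Bl A w b δ →
    Rep A w B (Mx b δ 0 0 (X * κ) 0 t u (γ * t) (η * u)) →
    Rep A w C' (Mx b δ 0 (X ^ (b - 2) * φ) 0 (X ^ (b - 2) * ρ) t' u' (γ * t') (η * u')) →
    φ.coeff 0 * κ.coeff 0 = γ * (t * u' - t' * u) →
    ρ.coeff 0 * κ.coeff 0 = η * (t * u' - t' * u) →
    κ.coeff 0 ≠ 0 → t ≠ 0 → u ≠ 0 → t' ≠ 0 → u' ≠ 0 → γ ≠ 0 → η ≠ 0 → t * u' - t' * u ≠ 0 →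
    Cl ![A, B, C']

/-- different eigenvalues -/
def DistS (k : Type*) [Field k] (b δ : ℕ) : Prop :=
  ∀ (N : ℕ) (A B C' : Matrix (Fin N) (Fin N) k) (w : Fin 3 → Fin N → k)
    (f q r f' q' r' : k[X]) (t u g h t' u' g' h' : k), Bl A w b δ →
    Rep A w B (Mx b δ 0 (X * f) (X * q) (X * r) t u g h) →
    Rep A w C' (Mx b δ 0 (X ^ (b - 2) * f') (X ^ (b - 2) * q') (X ^ (b - 2) * r') t' u' g' h') →
    B * C' = C' * B →
    q.coeff 0 ^ 2 + 4 * ((X ^ δ : k[X]).coeff 0 * (f.coeff 0 * r.coeff 0)) ≠ 0 →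
    Cl ![A, B, C']

/-- all constant terms are zero -/
def NonAlphaS (k : Type*) [Field k] (b δ : ℕ) : Prop :=
  ∀ (N : ℕ) (A B C' : Matrix (Fin N) (Fin N) k) (w : Fin 3 → Fin N → k)
    (f q r f' q' r' : k[X]) (t u g h t' u' g' h' : k), Bl A w b δ →
    Rep A w B (Mx b δ 0 (X * f) (X * q) (X * r) t u g h) →
    Rep A w C' (Mx b δ 0 (X * f') (X * q') (X * r') t' u' g' h') →
    B * C' = C' * B → Cl ![A, B, C']

/-- the case `r(0) ≠ 0` -/
def AlphaS (k : Type*) [Field k] (b δ : ℕ) : Prop :=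
  ∀ (N : ℕ) (A B C' : Matrix (Fin N) (Fin N) k) (w : Fin 3 → Fin N → k)
    (f q r f' q' r' : k[X]) (t u g h t' u' g' h' : k), Bl A w b δ →
    Rep A w B (Mx b δ 0 f (X * q) r t u g h) →
    Rep A w C' (Mx b δ 0 f' (X * q') r' t' u' g' h') →
    (δ = 0 → f.coeff 0 = 0 ∧ f'.coeff 0 = 0) →
    B * C' = C' * B → r.coeff 0 ≠ 0 → Cl ![A, B, C']

/-- all commuting nilpotent triples -/
def FullS (k : Type*) [Field k] (b δ : ℕ) : Prop :=
  ∀ (N : ℕ) (A B C' : Matrix (Fin N) (Fin N) k) (w : Fin 3 → Fin N → k), Bl A w b δ →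
    A * B = B * A → A * C' = C' * A → B * C' = C' * B → IsNilpotent B → IsNilpotent C' →
    Cl ![A, B, C']

end PB

end Pool.Agent.Lib.D13
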