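import Pool.Agent.Lib.D7.Api

/-!
# MP_5dcbc3_ag: type (6,4,2), case alpha, relations in coordinates

`Pt` : the coefficients of `f, g, h, r, t, q, u, w`; `Rel` : the relations of two commuting ones.
`Op B` : a set of pairs stable under polynomial families (outside of finite sets) and linear changes.
-/

set_option autoImplicit false

namespace Pool.Agent.Lib.D13.Al

open Pool.Agent.Lib.D7

variable {k : Type*} [Field k]

/-- coefficients -/
@[ext] structure Pt (k : Type*) where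
  (f1 f2 f3 g1 g2 g3 h1 h2 h3 r0 r1 t0 t1 q0 q1 u0 u1 w1 : k)

/-- linear combination -/
def Pt.comb (a b : k) (p p' : Pt k) : Pt k :=
  ⟨a * p.f1 + b * p'.f1, a * p.f2 + b * p'.f2, a * p.f3 + b * p'.f3,
   a * p.g1 + b * p'.g1, a * p.g2 + b * p'.g2, a * p.g3 + b * p'.g3,
   a * p.h1 + b * p'.h1, a * p.h2 + b * p'.h2, a * p.h3 + b * p'.h3,
   a * p.r0 + b * p'.r0, a * p.r1 + b * p'.r1, a * p.t0 + b * p'.t0, a * p.t1 + b * p'.t1,
   a * p.q0 + b * p'.q0, a * p.q1 + b * p'.q1, a * p.u0 + b * p'.u0, a * p.u1 + b * p'.u1,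
   a * p.w1 + b * p'.w1⟩

/-- transposition -/
def Pt.du (p : Pt k) : Pt k :=
  ⟨p.g1, p.g2, p.g3, p.f1, p.f2, p.f3, p.h1, p.h2, p.h3, p.q0, p.q1, p.u0, p.u1,
   p.r0, p.r1, p.t0, p.t1, p.w1⟩

/-- the relations -/
structure Rel (p p' : Pt k) : Prop where
  a1 : p.t0 * p'.u0 - p'.t0 * p.u0 = 0
  a2 : (p.h1 - p.w1) * p'.t0 - (p'.h1 - p'.w1) * p.t0 = 0
  a3 : (p.h1 - p.w1) * p'.u0 - (p'.h1 - p'.w1) * p.u0 = 0
  c2 : p.f1 * p'.t0 - p'.f1 * p.t0 + (p.r0 * p'.w1 - p'.r0 * p.w1) = 0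
  c3 : p.g1 * p'.u0 - p'.g1 * p.u0 + (p.q0 * p'.w1 - p'.q0 * p.w1) = 0
  c4 : p.f1 * p'.h1 - p'.f1 * p.h1 + (p.r0 * p'.u0 - p'.r0 * p.u0) = 0
  c5 : p.h1 * p'.g1 - p'.h1 * p.g1 + (p.t0 * p'.q0 - p'.t0 * p.q0) = 0
  c6 : p.f1 * p'.g1 - p'.f1 * p.g1 + (p.r0 * p'.q0 - p'.r0 * p.q0) = 0
  b1 : p.f1 * p'.g2 - p'.f1 * p.g2 + (p.f2 * p'.g1 - p'.f2 * p.g1) +
    (p.r0 * p'.q1 - p'.r0 * p.q1) + (p.r1 * p'.q0 - p'.r1 * p.q0) = 0
  b2 : p.f1 * p'.h2 - p'.f1 * p.h2 + (p.f2 * p'.h1 - p'.f2 * p.h1) +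
    (p.r0 * p'.u1 - p'.r0 * p.u1) + (p.r1 * p'.u0 - p'.r1 * p.u0) = 0
  b4 : p.h1 * p'.g2 - p'.h1 * p.g2 + (p.h2 * p'.g1 - p'.h2 * p.g1) +
    (p.t0 * p'.q1 - p'.t0 * p.q1) + (p.t1 * p'.q0 - p'.t1 * p.q0) = 0
  b5 : p.t0 * p'.u1 - p'.t0 * p.u1 + (p.t1 * p'.u0 - p'.t1 * p.u0) = 0

theorem Rel.comb {p p' : Pt k} (h : Rel p p') (a b c d : k) :
    Rel (Pt.comb a b p p') (Pt.comb c d p p') := by
  constructor
  · simp only [Pt.comb]
    linear_combination (a * d - b * c) * h.a1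
  · simp only [Pt.comb]
    linear_combination (a * d - b * c) * h.a2
  · simp only [Pt.comb]
    linear_combination (a * d - b * c) * h.a3
  · simp only [Pt.comb]
    linear_combination (a * d - b * c) * h.c2
  · simp only [Pt.comb]
    linear_combination (a * d - b * c) * h.c3
  · simp only [Pt.comb]
    linear_combination (a * d - b * c) * h.c4
  · simp only [Pt.comb]
    linear_combination (a * d - b * c) * h.c5
  · simp only [Pt.comb]
    linear_combination (a * d - b * c) * h.c6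
  · simp only [Pt.comb]
    linear_combination (a * d - b * c) * h.b1
  · simp only [Pt.comb]
    linear_combination (a * d - b * c) * h.b2
  · simp only [Pt.comb]
    linear_combination (a * d - b * c) * h.b4
  · simp only [Pt.comb]
    linear_combination (a * d - b * c) * h.b5

theorem Rel.du {p p' : Pt k} (h : Rel p p') : Rel p.du p'.du := by
  constructor
  · simp only [Pt.du]
    linear_combination -h.a1
  · simp only [Pt.du]
    exact h.a3
  · simp only [Pt.du]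
    exact h.a2
  · simp only [Pt.du]
    exact h.c3
  · simp only [Pt.du]
    exact h.c2
  · simp only [Pt.du]
    linear_combination -h.c5
  · simp only [Pt.du]
    linear_combination -h.c4
  · simp only [Pt.du]
    linear_combination -h.c6
  · simp only [Pt.du]
    linear_combination -h.b1
  · simp only [Pt.du]
    linear_combination -h.b4
  · simp only [Pt.du]
    linear_combination -h.b2
  · simp only [Pt.du]
    linear_combination -h.b5

theorem Pt.du_du (p : Pt k) : p.du.du = p := rfl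

/-- polynomial families -/
structure PolyPt (P : k → Pt k) : Prop where
  f1 : IsPoly fun s => (P s).f1
  f2 : IsPoly fun s => (P s).f2
  f3 : IsPoly fun s => (P s).f3
  g1 : IsPoly fun s => (P s).g1
  g2 : IsPoly fun s => (P s).g2
  g3 : IsPoly fun s => (P s).g3
  h1 : IsPoly fun s => (P s).h1
  h2 : IsPoly fun s => (P s).h2
  h3 : IsPoly fun s => (P s).h3
  r0 : IsPoly fun s => (P s).r0
  r1 : IsPoly fun s => (P s).r1
  t0 : IsPoly fun s => (P s).t0
  t1 : IsPoly fun s => (P s).t1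
  q0 : IsPoly fun s => (P s).q0
  q1 : IsPoly fun s => (P s).q1
  u0 : IsPoly fun s => (P s).u0
  u1 : IsPoly fun s => (P s).u1
  w1 : IsPoly fun s => (P s).w1

/-- sets of pairs stable under deformations and linear changes -/
structure Op (B : Pt k → Pt k → Prop) : Prop where
  rel : ∀ p p', B p p' → Rel p p'
  move : ∀ P P' : k → Pt k, PolyPt P → PolyPt P' → (∀ s, Rel (P s) (P' s)) → B (P 0) (P' 0) →
    {s | ¬ B (P s) (P' s)}.Finite
  lin : ∀ p p', ∀ a b c d : k, a * d - b * c ≠ 0 → B p p' → B (Pt.comb a b p p') (Pt.comb c d p p')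

/-- the dual set -/
def Du (B : Pt k → Pt k → Prop) : Pt k → Pt k → Prop := fun p p' => B p.du p'.du

theorem PolyPt.du {P : k → Pt k} (h : PolyPt P) : PolyPt fun s => (P s).du :=
  ⟨h.g1, h.g2, h.g3, h.f1, h.f2, h.f3, h.h1, h.h2, h.h3, h.q0, h.q1, h.u0, h.u1, h.r0, h.r1,
    h.t0, h.t1, h.w1⟩

theorem Op.du {B : Pt k → Pt k → Prop} (h : Op B) : Op (Du B) where
  rel := fun p p' hB => (h.rel _ _ hB).du
  move := fun P P' hP hP' hR h0 =>
    h.move (fun s => (P s).du) (fun s => (P' s).du) hP.du hP'.du (fun s => (hR s).du) h0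
  lin := fun p p' a b c d hd hB => h.lin p.du p'.du a b c d hd hB

theorem Op.one {B : Pt k → Pt k → Prop} [Infinite k] (h : Op B) (P P' : k → Pt k)
    (hP : PolyPt P) (hP' : PolyPt P') (hR : ∀ s, Rel (P s) (P' s)) (h0 : B (P 0) (P' 0))
    {F : Set k} (hF : F.Finite) : ∃ s, s ∉ F ∧ B (P s) (P' s) := by
  obtain ⟨s, hs⟩ := ((h.move P P' hP hP' hR h0).union hF).infinite_compl.nonempty
  rw [Set.mem_compl_iff, Set.mem_union, not_or] at hs
  exact ⟨s, hs.2, by simpa using hs.1⟩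

end Pool.Agent.Lib.D13.Al
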