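import Pool.Agent.Lib.D13.Al

/-!
# MP_5dcbc3_ag: type (6,4,2), case alpha, the chart `t = (1, 0)`
-/

set_option autoImplicit false

namespace Pool.Agent.Lib.D13.Al

open Pool.Agent.Lib.D7

variable {k : Type*} [Field k]

/-- coordinates of the chart `t = (1, 0)` -/
structure CT (k : Type*) where
  (om rp gp De Ft Qt w h r g Gp Ga Hp La Ph E Rp H T Tp G R f3 g3 h3 f3p g3p h3p : k)

/-- first element -/
def CT.y (x : CT k) : Pt k where
  f1 := x.Ft + x.r * x.h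
  f2 := x.Ph + x.r * x.H + x.h * x.R
  f3 := x.f3
  g1 := x.g
  g2 := x.G
  g3 := x.g3
  h1 := x.h
  h2 := x.H
  h3 := x.h3
  r0 := x.r
  r1 := x.R + x.r * x.T
  t0 := 1
  t1 := x.T
  q0 := x.Qt + x.w * x.g
  q1 := x.w * x.G - x.Ga
  u0 := x.De + x.h * x.w
  u1 := x.w * x.H - x.La
  w1 := x.w

/-- second element -/
def CT.z (x : CT k) : Pt k where
  f1 := x.r * x.om - x.rp * x.w
  f2 := x.E + x.r * x.Hp - x.w * x.Rp + x.om * x.R
  f3 := x.f3p
  g1 := x.gp
  g2 := x.Gp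
  g3 := x.g3p
  h1 := x.om
  h2 := x.Hp
  h3 := x.h3p
  r0 := x.rp
  r1 := x.Rp + x.r * x.Tp
  t0 := 0
  t1 := x.Tp
  q0 := x.om * x.g - x.h * x.gp
  q1 := -(x.h * x.Gp - x.om * x.G + (x.H * x.gp - x.Hp * x.g) +
    (x.T * (x.om * x.g - x.h * x.gp) - x.Tp * (x.Qt + x.w * x.g)))
  u0 := 0
  u1 := (x.De + x.h * x.w) * x.Tp
  w1 := x.om

/-- the remaining relations -/
structure RC (x : CT k) : Prop where
  e1 : x.om * x.Ft - x.rp * x.De = 0
  e2 : x.gp * x.Ft - x.rp * x.Qt = 0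
  e3 : x.om * x.Qt - x.gp * x.De = 0
  b1 : x.Ft * x.Gp + x.rp * x.Ga + x.gp * x.Ph - x.g * x.E - x.Qt * x.Rp = 0
  b2 : x.Ft * x.Hp + x.rp * x.La + x.om * x.Ph - x.h * x.E - x.De * x.Rp = 0

theorem rel_of_rc {x : CT k} (h : RC x) : Rel x.y x.z := by
  constructor
  · simp only [CT.y, CT.z]
    ring
  · simp only [CT.y, CT.z]
    ring
  · simp only [CT.y, CT.z]
    ring
  · simp only [CT.y, CT.z]
    ring
  · simp only [CT.y, CT.z]
    linear_combination h.e3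
  · simp only [CT.y, CT.z]
    linear_combination h.e1
  · simp only [CT.y, CT.z]
    ring
  · simp only [CT.y, CT.z]
    linear_combination h.e2
  · simp only [CT.y, CT.z]
    linear_combination h.b1
  · simp only [CT.y, CT.z]
    linear_combination h.b2
  · simp only [CT.y, CT.z]
    ring
  · simp only [CT.y, CT.z]
    ring

theorem exists_ct {p p' : Pt k} (h : Rel p p') (ht : p.t0 = 1) (ht' : p'.t0 = 0) :
    ∃ x : CT k, RC x ∧ x.y = p ∧ x.z = p' := by
  have a1 := h.a1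
  have a2 := h.a2
  have c2 := h.c2
  have c3 := h.c3
  have c4 := h.c4
  have c5 := h.c5
  have c6 := h.c6
  have b1 := h.b1
  have b2 := h.b2
  have b4 := h.b4
  have b5 := h.b5
  rw [ht, ht'] at a1 a2 c2 b4 b5
  rw [ht, ht'] at c5
  have u0 : p'.u0 = 0 := by linear_combination a1
  have h1 : p'.h1 = p'.w1 := by linear_combination -a2
  rw [u0] at b5 c3 c4 b2
  have f1 : p'.f1 = p.r0 * p'.w1 - p'.r0 * p.w1 := by linear_combination -c2
  have q0 : p'.q0 = p'.w1 * p.g1 - p.h1 * p'.g1 := by linear_combination c5 + p.g1 * h1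
  have u1 : p'.u1 = p.u0 * p'.t1 := by linear_combination b5
  have q1 : p'.q1 = -(p.h1 * p'.g2 - p'.w1 * p.g2 + (p.h2 * p'.g1 - p'.h2 * p.g1) +
      (p.t1 * p'.q0 - p'.t1 * p.q0)) := by linear_combination b4 + p.g2 * h1
  let x : CT k := ⟨p'.w1, p'.r0, p'.g1, p.u0 - p.h1 * p.w1, p.f1 - p.r0 * p.h1,
    p.q0 - p.w1 * p.g1, p.w1, p.h1, p.r0, p.g1, p'.g2, p.w1 * p.g2 - p.q1, p'.h2,
    p.w1 * p.h2 - p.u1, p.f2 - p.r0 * p.h2 - p.h1 * (p.r1 - p.r0 * p.t1),
    p'.f2 - p.r0 * p'.h2 + p.w1 * (p'.r1 - p.r0 * p'.t1) - p'.w1 * (p.r1 - p.r0 * p.t1),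
    p'.r1 - p.r0 * p'.t1, p.h2, p.t1, p'.t1, p.g2, p.r1 - p.r0 * p.t1,
    p.f3, p.g3, p.h3, p'.f3, p'.g3, p'.h3⟩
  have ey : x.y = p := by
    ext
    all_goals simp only [CT.y, x]
    all_goals first
      | exact ht.symm
      | ring
  have ez : x.z = p' := by
    ext
    all_goals simp only [CT.z, x]
    · rw [f1]
    · ring
    · rw [h1]
    · ring
    · rw [ht']
    · rw [q0]
    · rw [q1, q0]; ring
    · rw [u0]
    · rw [u1]
      ring
  refine ⟨x, ?_, ey, ez⟩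
  have hr : Rel x.y x.z := by
    rw [ey, ez]
    exact h
  have d3 := hr.c3
  have d4 := hr.c4
  have d6 := hr.c6
  have d1 := hr.b1
  have d2 := hr.b2
  simp only [CT.y, CT.z] at d3 d4 d6 d1 d2
  constructor
  · linear_combination d4
  · linear_combination d6
  · linear_combination d3
  · linear_combination d1
  · linear_combination d2

end Pool.Agent.Lib.D13.Al
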