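import Pool.Agent.Lib.D13.Al9

/-!
# MP_5dcbc3_ag: type (6,4,2), case alpha, the generic member is in the closure
-/

set_option autoImplicit false

namespace Pool.Agent.Lib.D13.Al

open Matrix Polynomial Pool.Agent.Lib.Q5dc Pool.Agent.Lib.D7 Pool.Agent.Lib.D8
  Pool.Agent.Lib.D13.PB

variable {k : Type*} [Field k] {N : ℕ} {A Y Z : Matrix (Fin N) (Fin N) k}
  {v : Fin 3 → Fin N → k}

theorem pi3_add (a b c a' b' c' : k[X]) :
    pi A v ![a, b, c] + pi A v ![a', b', c'] = pi A v ![a + a', b + b', c + c'] := by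
  rw [← pi_add]
  congr 1
  funext i
  fin_cases i <;> simp

theorem pi3_smul (s : k) (a b c : k[X]) :
    s • pi A v ![a, b, c] = pi A v ![C s * a, C s * b, C s * c] := by
  rw [← pi_csmul]
  congr 1
  funext i
  fin_cases i <;> simp [smul_eq_C_mul]

theorem A_pow_v0 (a : ℕ) : A ^ a *ᵥ v 0 = pi A v ![X ^ a, 0, 0] := by
  induction a with
  | zero => rw [pow_zero, one_mulVec, pow_zero, ← v0_eq]
  | succ a ih =>
    rw [pow_succ', ← mulVec_mulVec, ih, A_pi3]
    exact pi3_congr (by ring) (by ring) (by ring)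

theorem gen_aux {m : ℕ} {M : Submodule k (Fin N → k)} (hM : FL A v (m + 1) ≤ M)
    (h0 : pi A v ![X ^ o m 0, 0, 0] ∈ M) (h1 : pi A v ![0, X ^ o m 1, 0] ∈ M)
    (h2 : pi A v ![0, 0, X ^ o m 2] ∈ M) : FL A v m ≤ M := by
  rintro x ⟨z, rfl, hz⟩
  choose z' hz' using hz
  have hz2 : ∀ j, z j = C ((z' j).coeff 0) * X ^ o m j + X ^ (o m j + 1) * (z' j).divX := by
    intro j
    have h3 := Polynomial.divX_mul_X_add (z' j)
    calc z j = X ^ o m j * z' j := hz' j
      _ = X ^ o m j * ((z' j).divX * X + C ((z' j).coeff 0)) := by rw [h3]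
      _ = _ := by ring
  have e : pi A v z = (z' 0).coeff 0 • pi A v ![X ^ o m 0, 0, 0] +
      (z' 1).coeff 0 • pi A v ![0, X ^ o m 1, 0] + (z' 2).coeff 0 • pi A v ![0, 0, X ^ o m 2] +
      pi A v ![X ^ (o m 0 + 1) * (z' 0).divX, X ^ (o m 1 + 1) * (z' 1).divX,
        X ^ (o m 2 + 1) * (z' 2).divX] := by
    rw [pi3_smul, pi3_smul, pi3_smul, pi3_add, pi3_add, pi3_add, eta3 z]
    refine pi3_congr ?_ ?_ ?_
    · show z 0 = _
      rw [hz2 0]
      ring
    · show z 1 = _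
      rw [hz2 1]
      ring
    · show z 2 = _
      rw [hz2 2]
      ring
  rw [e]
  refine add_mem (add_mem (add_mem (M.smul_mem _ h0) (M.smul_mem _ h1)) (M.smul_mem _ h2))
    (hM (mem3 (a := o m 0 + 1) (b := o m 1 + 1) (c := o m 2 + 1) ?_ ?_ ?_ (dvn rfl) (dvn rfl)
      (dvn rfl)))
  · show (min (m + 1) 16 + 2) / 3 ≤ (min m 16 + 2) / 3 + 1
    omega
  · show (min (m + 1) 16 + 4) / 5 ≤ (min m 16 + 4) / 5 + 1
    omega
  · show min ((min (m + 1) 16 + 4) / 5 - 1) 2 ≤ min ((min m 16 + 4) / 5 - 1) 2 + 1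
    omega

theorem two_dirs {M : Submodule k (Fin N → k)} {H T : k} (hT : T ≠ 0) (a : ℕ)
    (h1 : pi A v ![0, C H * X ^ (a + 1), C T * X ^ a] ∈ M)
    (h2 : pi A v ![0, C (1 - H) * X ^ (a + 1), C (-T) * X ^ a] ∈ M) :
    pi A v ![0, X ^ (a + 1), 0] ∈ M ∧ pi A v ![0, 0, X ^ a] ∈ M := by
  have h3 : pi A v ![0, X ^ (a + 1), 0] ∈ M := by
    have h4 := add_mem h1 h2
    rw [pi3_add] at h4
    have e : pi A v ![(0 : k[X]) + 0, C H * X ^ (a + 1) + C (1 - H) * X ^ (a + 1),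
        C T * X ^ a + C (-T) * X ^ a] = pi A v ![0, X ^ (a + 1), 0] := by
      refine pi3_congr (by ring) ?_ ?_
      · rw [C_sub, C_1]
        ring
      · rw [C_neg]
        ring
    rwa [e] at h4
  refine ⟨h3, ?_⟩
  have h5 := M.smul_mem T⁻¹ (sub_mem h1 (M.smul_mem H h3))
  rw [pi3_sub, pi3_smul] at h5
  have e : pi A v ![C T⁻¹ * (0 - C H * 0), C T⁻¹ * (C H * X ^ (a + 1) - C H * X ^ (a + 1)),
      C T⁻¹ * (C T * X ^ a - C H * 0)] = pi A v ![0, 0, X ^ a] := by
    refine pi3_congr (by ring) (by ring) ?_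
    have h6 : C T⁻¹ * C T = (1 : k[X]) := by rw [← C_mul, inv_mul_cancel₀ hT, C_1]
    linear_combination X ^ a * h6
  rwa [e] at h5

theorem mem_of_sub {M : Submodule k (Fin N → k)} {x y : Fin N → k} {s : k} (hs : s ≠ 0)
    (hx : x ∈ M) (h : x - s • y ∈ M) : y ∈ M := by
  have h1 := M.smul_mem s⁻¹ (sub_mem hx h)
  rwa [sub_sub_cancel, smul_smul, inv_mul_cancel₀ hs, one_smul] at h1

variable {f g h r t q u w f' g' h' r' t' q' u' w' : k[X]} {H T U γ γ' : k}

theorem ld_nf (hA : Bz A v 4 2) (hY : Rep A v Y (Mx f g h r t q u w))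
    (hZ : Rep A v Z (Mx f' g' h' r' t' q' u' w')) (hYZ : Y * Z = Z * Y)
    (hL : Ld f h r t u w H T U (1 - H) γ) (hL' : Ld f' h' r' t' u' w' (1 - H) (-T) (-U) H γ')
    (hT : T ≠ 0) (hU : U ≠ 0) (hg : γ ≠ 0) (hg' : γ' ≠ 0)
    (kap : H * (g'.coeff 0 * (1 - H) + q'.coeff 0 * -T) -
      (1 - H) * (g.coeff 0 * H + q.coeff 0 * T) ≠ 0) :
    ∃ c : Fin 3 → k, Lead.LD (FL A v) ![A, Y, Z] (v 0) ![3, 5, 5] ![5, 3, 3] 15 c 1 := by
  have hH0 : H * (1 - H) ≠ 0 := by
    rw [hL.hp]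
    exact mul_ne_zero hT hU
  have hH : H ≠ 0 := left_ne_zero_of_mul hH0
  have hH1 : 1 - H ≠ 0 := right_ne_zero_of_mul hH0
  set κ1 := g.coeff 0 * H + q.coeff 0 * T with hκ1
  set κ2 := g'.coeff 0 * (1 - H) + q'.coeff 0 * -T with hκ2
  have cY : A * Y = Y * A := comm_A hA hY
  have cZ : A * Z = Z * A := comm_A hA hZ
  have act : ∀ (i : Fin 3) m w, w ∈ FL A v m →
      (![A, Y, Z] : Fin 3 → Matrix (Fin N) (Fin N) k) i *ᵥ w ∈
        FL A v (m + (![3, 5, 5] : Fin 3 → ℕ) i) := by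
    intro i m w hw
    fin_cases i
    · exact actA hw
    · exact actY hY hw
    · exact actY hZ hw
  have hv0 : v 0 ∈ FL A v 0 := by
    have h1 : pi A v ![1, 0, 0] ∈ FL A v 0 := mem3 (a := 0) (b := 0) (c := 0) (by decide)
      (by decide) (by decide) (by simp) (by simp) (by simp)
    rwa [← v0_eq] at h1
  have pA : A ^ 5 *ᵥ v 0 = pi A v ![X ^ 5, 0, 0] := A_pow_v0 5
  have pY : Y ^ 3 *ᵥ v 0 = γ • pi A v ![C κ1 * X ^ 5, C H * X ^ 3, 0] := by
    rw [← y3 hA hY hL, pow_succ, pow_succ, pow_one, ← mulVec_mulVec, ← mulVec_mulVec]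
  have pZ : Z ^ 3 *ᵥ v 0 = γ' • pi A v ![C κ2 * X ^ 5, C (1 - H) * X ^ 3, 0] := by
    rw [← y3 hA hZ hL', pow_succ, pow_succ, pow_one, ← mulVec_mulVec, ← mulVec_mulVec]
  have ind0 : ∀ a b : k, pi A v ![C a * X ^ 5, C b * X ^ 3, 0] = 0 → a = 0 ∧ b = 0 := by
    intro a b h1
    rw [pi_eq_zero hA] at h1
    have h2 : (X : k[X]) ^ 6 ∣ C a * X ^ 5 := h1 0
    have h3 : (X : k[X]) ^ 4 ∣ C b * X ^ 3 := h1 1
    rw [X_pow_dvd_iff] at h2 h3
    have h4 := h2 5 (by norm_num)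
    have h5 := h3 3 (by norm_num)
    simp at h4 h5
    exact ⟨h4, h5⟩
  have mA : ∀ a : k, a • (A ^ 5 *ᵥ v 0) = pi A v ![C a * X ^ 5, C 0 * X ^ 3, 0] := by
    intro a
    rw [pA, pi3_smul]
    exact pi3_congr (by ring) (by simp) (by ring)
  have mY : ∀ a : k, a • (Y ^ 3 *ᵥ v 0) =
      pi A v ![C (a * γ * κ1) * X ^ 5, C (a * γ * H) * X ^ 3, 0] := by
    intro a
    rw [pY, smul_smul, pi3_smul]
    exact pi3_congr (by simp only [C_mul]; ring) (by simp only [C_mul]; ring) (by ring)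
  have mZ : ∀ a : k, a • (Z ^ 3 *ᵥ v 0) =
      pi A v ![C (a * γ' * κ2) * X ^ 5, C (a * γ' * (1 - H)) * X ^ 3, 0] := by
    intro a
    rw [pZ, smul_smul, pi3_smul]
    exact pi3_congr (by simp only [C_mul]; ring) (by simp only [C_mul]; ring) (by ring)
  have sub' : ∀ a b a' b' : k, pi A v ![C a * X ^ 5, C b * X ^ 3, 0] =
      pi A v ![C a' * X ^ 5, C b' * X ^ 3, 0] → a = a' ∧ b = b' := by
    intro a b a' b' h1
    have h2 : pi A v ![C (a - a') * X ^ 5, C (b - b') * X ^ 3, 0] = 0 := by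
      have h3 : pi A v ![C a * X ^ 5, C b * X ^ 3, 0] -
          (1 : k) • pi A v ![C a' * X ^ 5, C b' * X ^ 3, 0] = 0 := by rw [h1, one_smul, sub_self]
      rw [pi3_sub] at h3
      rw [← h3]
      exact pi3_congr (by simp only [C_sub, C_1]; ring) (by simp only [C_sub, C_1]; ring)
        (by ring)
    obtain ⟨h3, h4⟩ := ind0 _ _ h2
    exact ⟨sub_eq_zero.1 h3, sub_eq_zero.1 h4⟩
  refine ⟨![-(γ * γ' * ((1 - H) * κ1 - H * κ2)), (1 - H) * γ', -(H * γ)], ?_⟩
  refine ⟨?_, fun m => FL_anti (Nat.le_succ m), FL_top hA, act, ?_, ?_, ?_, ?_, ?_, ?_, ?_, ?_⟩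
  · intro i j
    fin_cases i <;> fin_cases j
    · rfl
    · exact cY
    · exact cZ
    · exact cY.symm
    · rfl
    · exact hYZ
    · exact cZ.symm
    · exact hYZ.symm
    · rfl
  · intro i
    have := act i 0 (v 0) hv0
    rwa [zero_add] at this
  · -- generation
    intro m hm1 hm15
    set S := Submodule.span k {w | ∃ (i : Fin 3) (a : ℕ), 1 ≤ a ∧
      a * (![3, 5, 5] : Fin 3 → ℕ) i = m ∧
      w = (![A, Y, Z] : Fin 3 → Matrix (Fin N) (Fin N) k) i ^ a *ᵥ v 0} with hS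
    have inA : ∀ a : ℕ, 1 ≤ a → a * 3 = m → A ^ a *ᵥ v 0 ∈ S ⊔ FL A v (m + 1) := by
      intro a h1 h2
      exact Submodule.mem_sup_left (Submodule.subset_span ⟨0, a, h1, h2, rfl⟩)
    have inY : ∀ a : ℕ, 1 ≤ a → a * 5 = m → Y ^ a *ᵥ v 0 ∈ S ⊔ FL A v (m + 1) := by
      intro a h1 h2
      exact Submodule.mem_sup_left (Submodule.subset_span ⟨1, a, h1, h2, rfl⟩)
    have inZ : ∀ a : ℕ, 1 ≤ a → a * 5 = m → Z ^ a *ᵥ v 0 ∈ S ⊔ FL A v (m + 1) := by
      intro a h1 h2
      exact Submodule.mem_sup_left (Submodule.subset_span ⟨2, a, h1, h2, rfl⟩)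
    have two : m % 5 = 0 → pi A v ![0, X ^ o m 1, 0] ∈ S ⊔ FL A v (m + 1) ∧
        pi A v ![0, 0, X ^ o m 2] ∈ S ⊔ FL A v (m + 1) := by
      intro h5
      have hm : m = 5 ∨ m = 10 ∨ m = 15 := by omega
      rcases hm with rfl | rfl | rfl
      · have h6 : E A v H T ∈ S ⊔ FL A v 6 := mem_of_sub hg
          (by simpa using inY 1 le_rfl rfl) (Submodule.mem_sup_right (y1 hY hL))
        have h7 : E A v (1 - H) (-T) ∈ S ⊔ FL A v 6 := mem_of_sub hg'
          (by simpa using inZ 1 le_rfl rfl) (Submodule.mem_sup_right (y1 hZ hL'))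
        have h8 := two_dirs (A := A) (v := v) (M := S ⊔ FL A v 6) (H := H) (T := T) hT 0
          (by simpa [E] using h6) (by simpa [E] using h7)
        exact h8
      · have h6 : A *ᵥ E A v H T ∈ S ⊔ FL A v 11 := mem_of_sub hg
          (by
            have := inY 2 (by norm_num) rfl
            rwa [pow_two, ← mulVec_mulVec] at this) (Submodule.mem_sup_right (y2 hY hL))
        have h7 : A *ᵥ E A v (1 - H) (-T) ∈ S ⊔ FL A v 11 := mem_of_sub hg'
          (by
            have := inZ 2 (by norm_num) rfl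
            rwa [pow_two, ← mulVec_mulVec] at this) (Submodule.mem_sup_right (y2 hZ hL'))
        rw [E, A_pi3] at h6 h7
        have e1 : ∀ a b : k, pi A v ![X * (0 : k[X]), X * (C a * X), X * C b] =
            pi A v ![0, C a * X ^ (1 + 1), C b * X ^ 1] := by
          intro a b
          exact pi3_congr (by ring) (by ring) (by ring)
        rw [e1] at h6 h7
        exact two_dirs hT 1 h6 h7
      · constructor
        · have h6 := inA 5 (by norm_num) rfl
          have h7 := inY 3 (by norm_num) rfl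
          rw [pY] at h7
          rw [pA] at h6
          have h8 := sub_mem ((S ⊔ FL A v (15 + 1)).smul_mem (γ * H)⁻¹ h7)
            ((S ⊔ FL A v (15 + 1)).smul_mem (κ1 * H⁻¹) h6)
          rw [smul_smul, pi3_smul, pi3_sub] at h8
          have e1 : pi A v ![C ((γ * H)⁻¹ * γ) * (C κ1 * X ^ 5) - C (κ1 * H⁻¹) * X ^ 5,
              C ((γ * H)⁻¹ * γ) * (C H * X ^ 3) - C (κ1 * H⁻¹) * 0,
              C ((γ * H)⁻¹ * γ) * 0 - C (κ1 * H⁻¹) * 0] = pi A v ![0, X ^ 3, 0] := by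
            have h9 : (γ * H)⁻¹ * γ = H⁻¹ := by
              field_simp
            have h10 : C H⁻¹ * C H = (1 : k[X]) := by rw [← C_mul, inv_mul_cancel₀ hH, C_1]
            rw [h9, C_mul]
            refine pi3_congr (by ring) ?_ (by ring)
            linear_combination X ^ 3 * h10
          rw [e1] at h8
          exact h8
        · exact Submodule.mem_sup_right (mem3 (a := 16) (b := 16) (c := 2) (by decide) (by decide)
            (by decide) (by simp) (by simp) (dvd_refl _))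
    refine gen_aux le_sup_right ?_ ?_ ?_
    · by_cases h3 : m % 3 = 0
      · have h4 : o m 0 = m / 3 := by
          show (min m 16 + 2) / 3 = m / 3
          omega
        rw [h4, ← A_pow_v0]
        exact inA _ (by omega) (by omega)
      · refine Submodule.mem_sup_right (mem3 (a := o m 0) (b := 16) (c := 16) ?_ ?_ ?_ (dvd_refl _)
          (by simp) (by simp))
        · show (min (m + 1) 16 + 2) / 3 ≤ (min m 16 + 2) / 3
          omega
        · show (min (m + 1) 16 + 4) / 5 ≤ 16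
          omega
        · show min ((min (m + 1) 16 + 4) / 5 - 1) 2 ≤ 16
          omega
    · by_cases h5 : m % 5 = 0
      · exact (two h5).1
      · refine Submodule.mem_sup_right (mem3 (a := 16) (b := o m 1) (c := 16) ?_ ?_ ?_ (by simp)
          (dvd_refl _) (by simp))
        · show (min (m + 1) 16 + 2) / 3 ≤ 16
          omega
        · show (min (m + 1) 16 + 4) / 5 ≤ (min m 16 + 4) / 5
          omega
        · show min ((min (m + 1) 16 + 4) / 5 - 1) 2 ≤ 16
          omega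
    · by_cases h5 : m % 5 = 0
      · exact (two h5).2
      · refine Submodule.mem_sup_right (mem3 (a := 16) (b := 16) (c := o m 2) ?_ ?_ ?_ (by simp)
          (by simp) (dvd_refl _))
        · show (min (m + 1) 16 + 2) / 3 ≤ 16
          omega
        · show (min (m + 1) 16 + 4) / 5 ≤ 16
          omega
        · show min ((min (m + 1) 16 + 4) / 5 - 1) 2 ≤ min ((min m 16 + 4) / 5 - 1) 2
          omega
  · intro i
    fin_cases i
    · show 1 ≤ 3
      norm_num
    · show 1 ≤ 5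
      norm_num
    · show 1 ≤ 5
      norm_num
  · intro i
    fin_cases i <;> rfl
  · -- relation
    rw [Fin.sum_univ_three]
    show _ • (A ^ 5 *ᵥ v 0) + _ • (Y ^ 3 *ᵥ v 0) + _ • (Z ^ 3 *ᵥ v 0) = 0
    rw [mA, mY, mZ, pi3_add, pi3_add]
    have e : pi A v ![(0 : k[X]), 0, 0] = 0 := by
      have h1 : (![0, 0, 0] : Fin 3 → k[X]) = 0 := by
        funext i
        fin_cases i <;> rfl
      rw [h1, pi_zero]
    rw [← e]
    refine pi3_congr ?_ ?_ (by ring)
    · simp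
      ring
    · simp
      ring
  · intro i
    fin_cases i
    · refine neg_ne_zero.2 (mul_ne_zero (mul_ne_zero hg hg') ?_)
      intro h0
      exact kap (by linear_combination -h0)
    · exact mul_ne_zero hH1 hg'
    · exact neg_ne_zero.2 (mul_ne_zero hH hg)
  · -- independence
    have i1 : ∀ a b : k, a • (A ^ 5 *ᵥ v 0) = b • (Y ^ 3 *ᵥ v 0) → a = 0 ∧ b = 0 := by
      intro a b h1
      rw [mA, mY] at h1
      obtain ⟨h2, h3⟩ := sub' _ _ _ _ h1
      have hb : b = 0 := by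
        have h4 := mul_eq_zero.1 h3.symm
        exact (mul_eq_zero.1 (h4.resolve_right hH)).resolve_right hg
      rw [hb] at h2
      exact ⟨by linear_combination h2, hb⟩
    have i2 : ∀ a b : k, a • (A ^ 5 *ᵥ v 0) = b • (Z ^ 3 *ᵥ v 0) → a = 0 ∧ b = 0 := by
      intro a b h1
      rw [mA, mZ] at h1
      obtain ⟨h2, h3⟩ := sub' _ _ _ _ h1
      have hb : b = 0 := by
        have h4 := mul_eq_zero.1 h3.symm
        exact (mul_eq_zero.1 (h4.resolve_right hH1)).resolve_right hg'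
      rw [hb] at h2
      exact ⟨by linear_combination h2, hb⟩
    have i3 : ∀ a b : k, a • (Y ^ 3 *ᵥ v 0) = b • (Z ^ 3 *ᵥ v 0) → a = 0 ∧ b = 0 := by
      intro a b h1
      rw [mY, mZ] at h1
      obtain ⟨h2, h3⟩ := sub' _ _ _ _ h1
      constructor
      · have h4 : a * γ * (H * κ2 - (1 - H) * κ1) = 0 := by
          linear_combination κ2 * h3 - (1 - H) * h2
        exact (mul_eq_zero.1 ((mul_eq_zero.1 h4).resolve_right kap)).resolve_right hg
      · have h4 : b * γ' * (H * κ2 - (1 - H) * κ1) = 0 := by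
          linear_combination κ1 * h3 - H * h2
        exact (mul_eq_zero.1 ((mul_eq_zero.1 h4).resolve_right kap)).resolve_right hg'
    intro i j hij a b h1
    fin_cases i <;> fin_cases j
    · exact absurd rfl hij
    · exact (i1 a b h1).1
    · exact (i2 a b h1).1
    · exact (i1 b a h1.symm).2
    · exact absurd rfl hij
    · exact (i3 a b h1).1
    · exact (i2 b a h1.symm).2
    · exact (i3 b a h1.symm).2
    · exact absurd rfl hij
  · -- products
    have m1 : ∀ {f g h r t q u w : k[X]} {Y : Matrix (Fin N) (Fin N) k},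
        Rep A v Y (Mx f g h r t q u w) → A *ᵥ (Y *ᵥ v 0) ∈ FL A v 9 := by
      intro f g h r t q u w Y hY
      rw [y_v0 hY, A_pi3]
      exact mem3 (a := 16) (b := 2) (c := 1) (by decide) (by decide) (by decide) (by simp)
        (dvn (p := f) (by ring)) (dvn (p := r) (by ring))
    have s1 : Y *ᵥ (A *ᵥ v 0) = A *ᵥ (Y *ᵥ v 0) := by
      rw [mulVec_mulVec, mulVec_mulVec, cY]
    have s2 : Z *ᵥ (A *ᵥ v 0) = A *ᵥ (Z *ᵥ v 0) := by
      rw [mulVec_mulVec, mulVec_mulVec, cZ]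
    have s3 : Y *ᵥ (Z *ᵥ v 0) = Z *ᵥ (Y *ᵥ v 0) := by
      rw [mulVec_mulVec, mulVec_mulVec, hYZ]
    have m2 : Z *ᵥ (Y *ᵥ v 0) ∈ FL A v 11 := yz hY hL hZ hL'
    intro i j hij
    fin_cases i <;> fin_cases j
    · exact absurd rfl hij
    · exact m1 hY
    · exact m1 hZ
    · show Y *ᵥ (A *ᵥ v 0) ∈ FL A v 9
      rw [s1]
      exact m1 hY
    · exact absurd rfl hij
    · show Y *ᵥ (Z *ᵥ v 0) ∈ FL A v 11
      rw [s3]
      exact m2
    · show Z *ᵥ (A *ᵥ v 0) ∈ FL A v 9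
      rw [s2]
      exact m1 hZ
    · exact m2
    · exact absurd rfl hij

theorem cl_nf [IsAlgClosed k] (hA : Bz A v 4 2) (hY : Rep A v Y (Mx f g h r t q u w))
    (hZ : Rep A v Z (Mx f' g' h' r' t' q' u' w')) (hYZ : Y * Z = Z * Y)
    (hL : Ld f h r t u w H T U (1 - H) γ) (hL' : Ld f' h' r' t' u' w' (1 - H) (-T) (-U) H γ')
    (hT : T ≠ 0) (hU : U ≠ 0) (hg : γ ≠ 0) (hg' : γ' ≠ 0) (hgg : γ ≠ γ')
    (kap : H * (g'.coeff 0 * (1 - H) + q'.coeff 0 * -T) -
      (1 - H) * (g.coeff 0 * H + q.coeff 0 * T) ≠ 0) : Cl ![A, Y, Z] := by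
  obtain ⟨c, hc⟩ := ld_nf hA hY hZ hYZ hL hL' hT hU hg hg' kap
  refine cl_lead2 hc le_rfl ?_ ?_ (u := v 1) (l := ![0, γ⁻¹, γ'⁻¹]) ?_ ?_ ?_
  · intro i
    fin_cases i
    · show 2 ≤ 5
      norm_num
    · show 2 ≤ 3
      norm_num
    · show 2 ≤ 3
      norm_num
  · rw [Fintype.card_fin]
    have := hA.card
    rw [Fin.sum_univ_three] at this
    exact this
  · have a1 := inv_ne_zero hg
    have a2 := inv_ne_zero hg'
    have a3 : γ⁻¹ ≠ γ'⁻¹ := fun h0 => hgg (inv_injective h0)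
    intro i j hij
    fin_cases i <;> fin_cases j
    · rfl
    · exact absurd hij.symm a1
    · exact absurd hij.symm a2
    · exact absurd hij a1
    · rfl
    · exact absurd hij a3
    · exact absurd hij a2
    · exact absurd hij.symm a3
    · rfl
  · intro i
    fin_cases i
    · show A *ᵥ v 1 - (0 : k) • (A *ᵥ v 0) ∈ FL A v 4
      rw [zero_smul, sub_zero, v1_eq (A := A) (v := v), A_pi3]
      exact mem3 (a := 16) (b := 1) (c := 16) (by decide) (by decide) (by decide) (by simp)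
        (dvn (p := 1) (by ring)) (by simp)
    · show Y *ᵥ v 1 - γ⁻¹ • (Y *ᵥ v 0) ∈ FL A v 6
      have h1 := y4 hY hL
      have h2 := (FL A v 6).smul_mem γ⁻¹ (y1 hY hL)
      have e : Y *ᵥ v 1 - γ⁻¹ • (Y *ᵥ v 0) = (Y *ᵥ v 1 - E A v H T) -
          γ⁻¹ • (Y *ᵥ v 0 - γ • E A v H T) := by
        rw [smul_sub, smul_smul, inv_mul_cancel₀ hg, one_smul]
        abel
      rw [e]
      exact sub_mem h1 h2
    · show Z *ᵥ v 1 - γ'⁻¹ • (Z *ᵥ v 0) ∈ FL A v 6
      have h1 := y4 hZ hL'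
      have h2 := (FL A v 6).smul_mem γ'⁻¹ (y1 hZ hL')
      have e : Z *ᵥ v 1 - γ'⁻¹ • (Z *ᵥ v 0) = (Z *ᵥ v 1 - E A v (1 - H) (-T)) -
          γ'⁻¹ • (Z *ᵥ v 0 - γ' • E A v (1 - H) (-T)) := by
        rw [smul_sub, smul_smul, inv_mul_cancel₀ hg', one_smul]
        abel
      rw [e]
      exact sub_mem h1 h2
  · rintro x -
    obtain ⟨z, rfl⟩ := hA.span x
    have e : pi A v z = (z 0).coeff 0 • v 0 + (z 1).coeff 0 • v 1 +
        pi A v ![X * (z 0).divX, X * (z 1).divX, z 2] := by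
      rw [v0_eq (A := A) (v := v), v1_eq (A := A) (v := v), pi3_smul, pi3_smul, pi3_add, pi3_add,
        eta3 z]
      refine pi3_congr ?_ ?_ ?_
      · show z 0 = _
        have h3 := Polynomial.divX_mul_X_add (z 0)
        show z 0 = C ((z 0).coeff 0) * 1 + C ((z 1).coeff 0) * 0 + X * (z 0).divX
        linear_combination -h3
      · have h3 := Polynomial.divX_mul_X_add (z 1)
        show z 1 = C ((z 0).coeff 0) * 0 + C ((z 1).coeff 0) * 1 + X * (z 1).divX
        linear_combination -h3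
      · show z 2 = C ((z 0).coeff 0) * 0 + C ((z 1).coeff 0) * 0 + z 2
        ring
    rw [e]
    refine add_mem (Submodule.mem_sup_left (add_mem (Submodule.mem_sup_left
      (Submodule.smul_mem _ _ (Submodule.mem_span_singleton_self _)))
      (Submodule.mem_sup_right (Submodule.smul_mem _ _ (Submodule.mem_span_singleton_self _)))))
      (Submodule.mem_sup_right (mem3 (a := 1) (b := 1) (c := 0) (by decide) (by decide) (by decide)
        (dvn (p := (z 0).divX) (by ring)) (dvn (p := (z 1).divX) (by ring)) (by simp)))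

end Pool.Agent.Lib.D13.Al
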