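import Pool.Agent.Lib.D13.Al7
import Pool.Agent.Lib.D13.Al10
import Pool.Agent.Lib.D8.UtilB

/-!
# MP_5dcbc3_ag: type (6,4,2), case alpha: no maximal bad triples
-/

set_option autoImplicit false

namespace Pool.Agent.Lib.D13.Al

open Matrix Polynomial Pool.Agent.Lib.Q5dc Pool.Agent.Lib.D7 Pool.Agent.Lib.D8
  Pool.Agent.Lib.D13.PB

variable {k : Type*} [Field k] {N : ℕ} {A : Matrix (Fin N) (Fin N) k}
  {v : Fin 3 → Fin N → k}

/-- polynomials of a point -/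
noncomputable def p3 (a b c : k) : k[X] := C a + C b * X + C c * X ^ 2

/-- polynomials of a point -/
noncomputable def p2 (a b : k) : k[X] := C a + C b * X

theorem p3_0 (a b c : k) : (p3 a b c).coeff 0 = a := by simp [p3]

theorem p3_1 (a b c : k) : (p3 a b c).coeff 1 = b := by simp [p3, coeff_X, coeff_C]

theorem p2_0 (a b : k) : (p2 a b).coeff 0 = a := by simp [p2]

theorem p2_1 (a b : k) : (p2 a b).coeff 1 = b := by simp [p2, coeff_C]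

/-- matrix of a point -/
noncomputable def Pt.mat (p : Pt k) : Matrix (Fin 3) (Fin 3) k[X] :=
  Mx (p3 p.f1 p.f2 p.f3) (p3 p.g1 p.g2 p.g3) (p3 p.h1 p.h2 p.h3) (p2 p.r0 p.r1) (p2 p.t0 p.t1)
    (p2 p.q0 p.q1) (p2 p.u0 p.u1) (C p.w1)

theorem exists_yp (hA : Bz A v 4 2) (p : Pt k) : ∃ B, Rep A v B p.mat :=
  exists_mz hA (by norm_num) _ _ _ _ _ _ _ _

/-- the matrix of a point -/
noncomputable def Yp (hA : Bz A v 4 2) (p : Pt k) : Matrix (Fin N) (Fin N) k :=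
  Classical.choose (exists_yp hA p)

theorem yp_rep (hA : Bz A v 4 2) (p : Pt k) : Rep A v (Yp hA p) p.mat :=
  Classical.choose_spec (exists_yp hA p)

theorem yp_comb (hA : Bz A v 4 2) (a b : k) (p p' : Pt k) :
    Yp hA (Pt.comb a b p p') = a • Yp hA p + b • Yp hA p' := by
  refine (yp_rep hA _).eq hA ((((yp_rep hA p).smul a).add ((yp_rep hA p').smul b)).congr ?_)
  refine Matrix.ext fun i j => ?_
  fin_cases i <;> fin_cases j <;>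
    simp [Pt.mat, Pt.comb, Mx, Mz, p3, p2, smul_eq_C_mul] <;> ring

theorem yp_mv (hA : Bz A v 4 2) (s : k) (p n : Pt k) :
    Yp hA (p.mv s n) = Yp hA p + s • Yp hA n := by
  have e : p.mv s n = Pt.comb 1 s p n := by
    ext <;> simp [Pt.mv, Pt.comb]
  rw [e, yp_comb, one_smul]

theorem yp_z (hA : Bz A v 4 2) : Yp hA (Pt.z : Pt k) = 0 := by
  have h := yp_comb hA 0 0 (Pt.z : Pt k) Pt.z
  have e : Pt.comb 0 0 (Pt.z : Pt k) Pt.z = Pt.z := by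
    ext <;> simp [Pt.z, Pt.comb]
  rw [e] at h
  rw [h]
  simp

theorem pt_eq (p : Pt k) : p = (((((((((((((((((((Pt.z : Pt k).mv p.f1 { Pt.z with f1 := 1 }).mv p.f2 { Pt.z with f2 := 1 }).mv p.f3 { Pt.z with f3 := 1 }).mv p.g1 { Pt.z with g1 := 1 }).mv p.g2 { Pt.z with g2 := 1 }).mv p.g3 { Pt.z with g3 := 1 }).mv p.h1 { Pt.z with h1 := 1 }).mv p.h2 { Pt.z with h2 := 1 }).mv p.h3 { Pt.z with h3 := 1 }).mv p.r0 { Pt.z with r0 := 1 }).mv p.r1 { Pt.z with r1 := 1 }).mv p.t0 { Pt.z with t0 := 1 }).mv p.t1 { Pt.z with t1 := 1 }).mv p.q0 { Pt.z with q0 := 1 }).mv p.q1 { Pt.z with q1 := 1 }).mv p.u0 { Pt.z with u0 := 1 }).mv p.u1 { Pt.z with u1 := 1 }).mv p.w1 { Pt.z with w1 := 1 }) := by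
  ext <;> simp [Pt.mv, Pt.z]

theorem yp_eq (hA : Bz A v 4 2) (p : Pt k) : Yp hA p = p.f1 • Yp hA { (Pt.z : Pt k) with f1 := 1 } + p.f2 • Yp hA { (Pt.z : Pt k) with f2 := 1 } + p.f3 • Yp hA { (Pt.z : Pt k) with f3 := 1 } + p.g1 • Yp hA { (Pt.z : Pt k) with g1 := 1 } + p.g2 • Yp hA { (Pt.z : Pt k) with g2 := 1 } + p.g3 • Yp hA { (Pt.z : Pt k) with g3 := 1 } + p.h1 • Yp hA { (Pt.z : Pt k) with h1 := 1 } + p.h2 • Yp hA { (Pt.z : Pt k) with h2 := 1 } + p.h3 • Yp hA { (Pt.z : Pt k) with h3 := 1 } + p.r0 • Yp hA { (Pt.z : Pt k) with r0 := 1 } + p.r1 • Yp hA { (Pt.z : Pt k) with r1 := 1 } + p.t0 • Yp hA { (Pt.z : Pt k) with t0 := 1 } + p.t1 • Yp hA { (Pt.z : Pt k) with t1 := 1 } + p.q0 • Yp hA { (Pt.z : Pt k) with q0 := 1 } + p.q1 • Yp hA { (Pt.z : Pt k) with q1 := 1 } + p.u0 • Yp hA { (Pt.z : Pt k) with u0 := 1 } + p.u1 • Yp hA { (Pt.z : Pt k) with u1 := 1 }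 + p.w1 • Yp hA { (Pt.z : Pt k) with w1 := 1 } := by
  conv_lhs => rw [pt_eq p]
  simp only [yp_mv, yp_z, zero_add]

theorem yp_poly (hA : Bz A v 4 2) {P : k → Pt k} (hP : PolyPt P) (x y : Fin N) :
    D7.IsPoly fun s => Yp hA (P s) x y := by
  have e : (fun s => Yp hA (P s) x y) = fun s => (P s).f1 * Yp hA { (Pt.z : Pt k) with f1 := 1 } x y + (P s).f2 * Yp hA { (Pt.z : Pt k) with f2 := 1 } x y + (P s).f3 * Yp hA { (Pt.z : Pt k) with f3 := 1 } x y + (P s).g1 * Yp hA { (Pt.z : Pt k) with g1 := 1 } x y + (P s).g2 * Yp hA { (Pt.z : Pt k) with g2 := 1 } x y + (P s).g3 * Yp hA { (Pt.z : Pt k) with g3 := 1 } x y + (P s).h1 * Yp hA { (Pt.z : Pt k) with h1 := 1 } x y + (P s).h2 * Yp hA { (Pt.z : Pt k) with h2 := 1 } x y + (P s).h3 * Yp hA { (Pt.z : Pt k) with h3 := 1 } x y + (P s).r0 * Yp hA { (Pt.z : Pt k) with r0 := 1 } x y + (P s).r1 * Yp hA { (Pt.z : Pt k)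 with r1 := 1 } x y + (P s).t0 * Yp hA { (Pt.z : Pt k) with t0 := 1 } x y + (P s).t1 * Yp hA { (Pt.z : Pt k) with t1 := 1 } x y + (P s).q0 * Yp hA { (Pt.z : Pt k) with q0 := 1 } x y + (P s).q1 * Yp hA { (Pt.z : Pt k) with q1 := 1 } x y + (P s).u0 * Yp hA { (Pt.z : Pt k) with u0 := 1 } x y + (P s).u1 * Yp hA { (Pt.z : Pt k) with u1 := 1 } x y + (P s).w1 * Yp hA { (Pt.z : Pt k) with w1 := 1 } x y := by
    funext s
    rw [yp_eq hA (P s)]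
    simp only [Matrix.add_apply, Matrix.smul_apply, smul_eq_mul]
  rw [e]
  have m : ∀ {f : k → k} (c : k), D7.IsPoly f → D7.IsPoly fun s => f s * c := fun c hf =>
    D7.IsPoly.mul hf (D7.IsPoly.const c)
  exact D7.IsPoly.add (D7.IsPoly.add (D7.IsPoly.add (D7.IsPoly.add (D7.IsPoly.add (D7.IsPoly.add (D7.IsPoly.add (D7.IsPoly.add (D7.IsPoly.add (D7.IsPoly.add (D7.IsPoly.add (D7.IsPoly.add (D7.IsPoly.add (D7.IsPoly.add (D7.IsPoly.add (D7.IsPoly.add (D7.IsPoly.add (m _ hP.f1) (m _ hP.f2)) (m _ hP.f3)) (m _ hP.g1)) (m _ hP.g2)) (m _ hP.g3)) (m _ hP.h1)) (m _ hP.h2)) (m _ hP.h3)) (m _ hP.r0)) (m _ hP.r1)) (m _ hP.t0)) (m _ hP.t1)) (m _ hP.q0)) (m _ hP.q1)) (m _ hP.u0)) (m _ hP.u1)) (m _ hP.w1)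

theorem dvd2_iff (p : k[X]) : X ^ 2 ∣ p ↔ p.coeff 0 = 0 ∧ p.coeff 1 = 0 := by
  rw [X_pow_dvd_iff]
  constructor
  · intro h
    exact ⟨h 0 (by norm_num), h 1 (by norm_num)⟩
  · rintro ⟨h0, h1⟩ d hd
    interval_cases d
    · exact h0
    · exact h1

theorem dvd4_iff (p q : k[X]) (h : q = X ^ 2 * p) : X ^ 4 ∣ q ↔ p.coeff 0 = 0 ∧ p.coeff 1 = 0 := by
  rw [h, pow_dvd_mul_left' (e' := 2) rfl, dvd2_iff]

theorem dvd1_iff (p q : k[X]) (h : q = X * p) : X ^ 2 ∣ q ↔ p.coeff 0 = 0 := by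
  rw [h, pow_two, mul_dvd_mul_iff_left X_ne_zero, X_dvd_iff]

theorem rel_iff (hA : Bz A v 4 2) (p p' : Pt k) :
    Yp hA p * Yp hA p' = Yp hA p' * Yp hA p ↔ Rel p p' := by
  rw [comm_mz hA le_rfl (yp_rep hA p) (yp_rep hA p')]
  constructor
  · rintro ⟨e11, e12, e21, e22, e31, e13, e32, e23⟩
    rw [dvd4_iff ((p3 p.f1 p.f2 p.f3 * p3 p'.g1 p'.g2 p'.g3 - p3 p'.f1 p'.f2 p'.f3 *
      p3 p.g1 p.g2 p.g3) + (p2 p.r0 p.r1 * p2 p'.q0 p'.q1 - p2 p'.r0 p'.r1 * p2 p.q0 p.q1)) _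
      (by ring)] at e11
    rw [dvd4_iff ((p3 p.h1 p.h2 p.h3 * p3 p'.g1 p'.g2 p'.g3 - p3 p'.h1 p'.h2 p'.h3 *
      p3 p.g1 p.g2 p.g3) + (p2 p.t0 p.t1 * p2 p'.q0 p'.q1 - p2 p'.t0 p'.t1 * p2 p.q0 p.q1)) _
      (by ring)] at e12
    rw [dvd4_iff ((p3 p.f1 p.f2 p.f3 * p3 p'.h1 p'.h2 p'.h3 - p3 p'.f1 p'.f2 p'.f3 *
      p3 p.h1 p.h2 p.h3) + (p2 p.r0 p.r1 * p2 p'.u0 p'.u1 - p2 p'.r0 p'.r1 * p2 p.u0 p.u1)) _
      (by ring)] at e21
    rw [dvd4_iff (X ^ 2 * (p3 p.f1 p.f2 p.f3 * p3 p'.g1 p'.g2 p'.g3 - p3 p'.f1 p'.f2 p'.f3 *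
      p3 p.g1 p.g2 p.g3) + (p2 p.u0 p.u1 * p2 p'.t0 p'.t1 - p2 p'.u0 p'.u1 * p2 p.t0 p.t1)) _
      (by ring)] at e22
    rw [dvd1_iff ((p3 p.f1 p.f2 p.f3 * p2 p'.t0 p'.t1 - p3 p'.f1 p'.f2 p'.f3 * p2 p.t0 p.t1) +
      (p2 p.r0 p.r1 * C p'.w1 - p2 p'.r0 p'.r1 * C p.w1)) _ (by ring)] at e31
    rw [dvd1_iff ((p3 p.g1 p.g2 p.g3 * p2 p'.u0 p'.u1 - p3 p'.g1 p'.g2 p'.g3 * p2 p.u0 p.u1) +
      (p2 p.q0 p.q1 * C p'.w1 - p2 p'.q0 p'.q1 * C p.w1)) _ (by ring)] at e13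
    rw [dvd1_iff (X ^ 2 * (p2 p.r0 p.r1 * p3 p'.g1 p'.g2 p'.g3 - p2 p'.r0 p'.r1 *
      p3 p.g1 p.g2 p.g3) + (p2 p.t0 p.t1 * p3 p'.h1 p'.h2 p'.h3 - p2 p'.t0 p'.t1 *
      p3 p.h1 p.h2 p.h3) + (C p.w1 * p2 p'.t0 p'.t1 - C p'.w1 * p2 p.t0 p.t1)) _
      (by ring)] at e32
    rw [dvd1_iff (X ^ 2 * (p3 p.f1 p.f2 p.f3 * p2 p'.q0 p'.q1 - p3 p'.f1 p'.f2 p'.f3 *
      p2 p.q0 p.q1) + (p3 p.h1 p.h2 p.h3 * p2 p'.u0 p'.u1 - p3 p'.h1 p'.h2 p'.h3 *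
      p2 p.u0 p.u1) + (p2 p.u0 p.u1 * C p'.w1 - p2 p'.u0 p'.u1 * C p.w1)) _
      (by ring)] at e23
    simp only [coeff_add, coeff_sub, mul_coeff_zero, mul_coeff_one, p3_0, p3_1, p2_0, p2_1,
      coeff_C_zero, coeff_X_pow, Nat.reduceEqDiff, if_false, zero_mul, reduceCtorEq,
      OfNat.zero_ne_ofNat, OfNat.one_ne_ofNat, zero_add] at e11 e12 e21 e22 e31 e13 e32 e23
    constructor
    · linear_combination -e22.1
    · linear_combination -e32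
    · linear_combination e23
    · linear_combination e31
    · linear_combination e13
    · linear_combination e21.1
    · linear_combination e12.1
    · linear_combination e11.1
    · linear_combination e11.2
    · linear_combination e21.2
    · linear_combination e12.2
    · linear_combination -e22.2
  · intro h
    constructor
    · rw [dvd4_iff ((p3 p.f1 p.f2 p.f3 * p3 p'.g1 p'.g2 p'.g3 - p3 p'.f1 p'.f2 p'.f3 *
        p3 p.g1 p.g2 p.g3) + (p2 p.r0 p.r1 * p2 p'.q0 p'.q1 - p2 p'.r0 p'.r1 * p2 p.q0 p.q1)) _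
        (by ring)]
      simp only [coeff_add, coeff_sub, mul_coeff_zero, mul_coeff_one, p3_0, p3_1, p2_0, p2_1]
      exact ⟨by linear_combination h.c6, by linear_combination h.b1⟩
    · rw [dvd4_iff ((p3 p.h1 p.h2 p.h3 * p3 p'.g1 p'.g2 p'.g3 - p3 p'.h1 p'.h2 p'.h3 *
        p3 p.g1 p.g2 p.g3) + (p2 p.t0 p.t1 * p2 p'.q0 p'.q1 - p2 p'.t0 p'.t1 * p2 p.q0 p.q1)) _
        (by ring)]
      simp only [coeff_add, coeff_sub, mul_coeff_zero, mul_coeff_one, p3_0, p3_1, p2_0, p2_1]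
      exact ⟨by linear_combination h.c5, by linear_combination h.b4⟩
    · rw [dvd4_iff ((p3 p.f1 p.f2 p.f3 * p3 p'.h1 p'.h2 p'.h3 - p3 p'.f1 p'.f2 p'.f3 *
        p3 p.h1 p.h2 p.h3) + (p2 p.r0 p.r1 * p2 p'.u0 p'.u1 - p2 p'.r0 p'.r1 * p2 p.u0 p.u1)) _
        (by ring)]
      simp only [coeff_add, coeff_sub, mul_coeff_zero, mul_coeff_one, p3_0, p3_1, p2_0, p2_1]
      exact ⟨by linear_combination h.c4, by linear_combination h.b2⟩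
    · rw [dvd4_iff (X ^ 2 * (p3 p.f1 p.f2 p.f3 * p3 p'.g1 p'.g2 p'.g3 - p3 p'.f1 p'.f2 p'.f3 *
        p3 p.g1 p.g2 p.g3) + (p2 p.u0 p.u1 * p2 p'.t0 p'.t1 - p2 p'.u0 p'.u1 * p2 p.t0 p.t1)) _
        (by ring)]
      simp only [coeff_add, coeff_sub, mul_coeff_zero, mul_coeff_one, p3_0, p3_1, p2_0, p2_1,
        coeff_X_pow, Nat.reduceEqDiff, if_false, zero_mul, reduceCtorEq, OfNat.zero_ne_ofNat,
        OfNat.one_ne_ofNat, zero_add]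
      exact ⟨by linear_combination -h.a1, by linear_combination -h.b5⟩
    · rw [dvd1_iff ((p3 p.f1 p.f2 p.f3 * p2 p'.t0 p'.t1 - p3 p'.f1 p'.f2 p'.f3 * p2 p.t0 p.t1) +
        (p2 p.r0 p.r1 * C p'.w1 - p2 p'.r0 p'.r1 * C p.w1)) _ (by ring)]
      simp only [coeff_add, coeff_sub, mul_coeff_zero, p3_0, p2_0, coeff_C_zero]
      linear_combination h.c2
    · rw [dvd1_iff ((p3 p.g1 p.g2 p.g3 * p2 p'.u0 p'.u1 - p3 p'.g1 p'.g2 p'.g3 * p2 p.u0 p.u1) +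
        (p2 p.q0 p.q1 * C p'.w1 - p2 p'.q0 p'.q1 * C p.w1)) _ (by ring)]
      simp only [coeff_add, coeff_sub, mul_coeff_zero, p3_0, p2_0, coeff_C_zero]
      linear_combination h.c3
    · rw [dvd1_iff (X ^ 2 * (p2 p.r0 p.r1 * p3 p'.g1 p'.g2 p'.g3 - p2 p'.r0 p'.r1 *
        p3 p.g1 p.g2 p.g3) + (p2 p.t0 p.t1 * p3 p'.h1 p'.h2 p'.h3 - p2 p'.t0 p'.t1 *
        p3 p.h1 p.h2 p.h3) + (C p.w1 * p2 p'.t0 p'.t1 - C p'.w1 * p2 p.t0 p.t1)) _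
        (by ring)]
      simp only [coeff_add, coeff_sub, mul_coeff_zero, p3_0, p2_0, coeff_C_zero, coeff_X_pow,
        Nat.reduceEqDiff, if_false, zero_mul, reduceCtorEq, OfNat.zero_ne_ofNat, zero_add]
      linear_combination -h.a2
    · rw [dvd1_iff (X ^ 2 * (p3 p.f1 p.f2 p.f3 * p2 p'.q0 p'.q1 - p3 p'.f1 p'.f2 p'.f3 *
        p2 p.q0 p.q1) + (p3 p.h1 p.h2 p.h3 * p2 p'.u0 p'.u1 - p3 p'.h1 p'.h2 p'.h3 *
        p2 p.u0 p.u1) + (p2 p.u0 p.u1 * C p'.w1 - p2 p'.u0 p'.u1 * C p.w1)) _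
        (by ring)]
      simp only [coeff_add, coeff_sub, mul_coeff_zero, p3_0, p2_0, coeff_C_zero, coeff_X_pow,
        Nat.reduceEqDiff, if_false, zero_mul, reduceCtorEq, OfNat.zero_ne_ofNat, zero_add]
      linear_combination h.a3

theorem yp_cn (hA : Bz A v 4 2) {p p' : Pt k} (h : Rel p p') :
    CN ![A, Yp hA p, Yp hA p'] := by
  have n : ∀ q : Pt k, IsNilpotent (Yp hA q) := fun q =>
    nilp_mz hA (by norm_num) (Dvd.intro _ rfl) (Dvd.intro _ rfl) (fun h => absurd h (by norm_num))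
      (yp_rep hA q)
  exact cn3 hA (comm_A hA (yp_rep hA p)) (comm_A hA (yp_rep hA p')) ((rel_iff hA p p').2 h) (n p)
    (n p')

theorem op_inst [Infinite k] (hA : Bz A v 4 2) (ρ : ℕ → ℕ) :
    Op fun p p' : Pt k => MaxR ρ ![A, Yp hA p, Yp hA p'] where
  rel := fun p p' h => (rel_iff hA p p').1 (h.cn.1 1 2)
  move := by
    intro P P' hP hP' hR h0
    obtain ⟨E', hE', h1⟩ := h0.deform (fun s => ![A, Yp hA (P s), Yp hA (P' s)]) (by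
      intro i x y
      fin_cases i
      · exact D7.IsPoly.const _
      · exact yp_poly hA hP x y
      · exact yp_poly hA hP' x y) rfl (E := ∅) Set.finite_empty (fun s _ => yp_cn hA (hR s))
    exact hE'.subset fun s hs => by_contra fun h2 => hs (h1 s h2)
  lin := by
    intro p p' a b c d hd h
    have h1 := Pool.Agent.Lib.D8.MaxR.lin h a b c d 0 0 0 0 hd
    simp only [zero_smul, add_zero] at h1
    rw [← yp_comb, ← yp_comb] at h1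
    exact h1

/-- no maximal bad triples in case alpha -/
theorem no_alpha [IsAlgClosed k] [CharZero k] (hA : Bz A v 4 2) {ρ : ℕ → ℕ}
    {B C' : Matrix (Fin N) (Fin N) k} (hM : MaxR ρ ![A, B, C'])
    {f g h r t q u w f' g' h' r' t' q' u' w' : k[X]}
    (hB : Rep A v B (Mz 4 2 f g h r t q u w)) (hC : Rep A v C' (Mz 4 2 f' g' h' r' t' q' u' w'))
    (hf : X ∣ f) (hg : X ∣ g) (hh : X ∣ h) (hw : X ∣ w)
    (hf' : X ∣ f') (hg' : X ∣ g') (hh' : X ∣ h') (hw' : X ∣ w') : False := by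
  have : Infinite k := IsAlgClosed.instInfinite
  have h2k : (2 : k) ≠ 0 := two_ne_zero
  have d3 : ∀ p : k[X], X ∣ p → X ^ 4 ∣ p - X * p3 (p.coeff 1) (p.coeff 2) (p.coeff 3) := by
    intro p hp
    rw [X_pow_dvd_iff]
    have h0 := X_dvd_iff.1 hp
    intro d hd
    interval_cases d
    · simp [p3, h0]
    · simp [p3, coeff_X_mul, coeff_C, coeff_X]
    · simp [p3, coeff_X_mul, coeff_C, coeff_X]
    · simp [p3, coeff_X_mul, coeff_C, coeff_X]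
  have d2 : ∀ p : k[X], X ^ 2 ∣ p - p2 (p.coeff 0) (p.coeff 1) := by
    intro p
    rw [dvd2_iff]
    simp [p2, coeff_C]
  have d1 : ∀ p : k[X], X ∣ p → X ^ 2 ∣ p - X * C (p.coeff 1) := by
    intro p hp
    rw [dvd2_iff]
    have h0 := X_dvd_iff.1 hp
    simp [h0, coeff_X_mul]
  have key : ∀ (B : Matrix (Fin N) (Fin N) k) (f g h r t q u w : k[X]),
      Rep A v B (Mz 4 2 f g h r t q u w) → X ∣ f → X ∣ g → X ∣ h → X ∣ w →
      ∃ p : Pt k, B = Yp hA p := by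
    intro B f g h r t q u w hB hf hg hh hw
    refine ⟨⟨f.coeff 1, f.coeff 2, f.coeff 3, g.coeff 1, g.coeff 2, g.coeff 3, h.coeff 1,
      h.coeff 2, h.coeff 3, r.coeff 0, r.coeff 1, t.coeff 0, t.coeff 1, q.coeff 0, q.coeff 1,
      u.coeff 0, u.coeff 1, w.coeff 1⟩, ?_⟩
    refine Rep.eq hA ?_ (yp_rep hA _)
    exact mz_congr hA (by norm_num) hB (d3 f hf) (d3 g hg) (d3 h hh) (d2 r) (d2 t) (d2 q) (d2 u)
      (d1 w hw)
  obtain ⟨p, rfl⟩ := key B f g h r t q u w hB hf hg hh hw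
  obtain ⟨p', rfl⟩ := key C' f' g' h' r' t' q' u' w' hC hf' hg' hh' hw'
  obtain ⟨q, q', γ, γ', h1, hN⟩ := nf_all h2k (op_inst hA ρ) hM
  refine h1.ncl (cl_nf hA (yp_rep hA q) (yp_rep hA q') (h1.cn.1 1 2) (H := q.h1) (T := q.t0)
    (U := q.u0) (γ := γ) (γ' := γ') ?_ ?_ hN.t0 hN.u0 hN.g hN.g' hN.gg ?_)
  · refine ⟨by ring, hN.idem, ?_, ?_, ?_, ?_, ?_, ?_⟩
    · rw [p3_0, hN.f1]
    · rw [p2_0, hN.r0]
    · rw [p3_0]
    · rw [p2_0]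
    · rw [p2_0]
    · rw [coeff_C_zero, hN.w1]
  · refine ⟨by ring, ?_, ?_, ?_, ?_, ?_, ?_, ?_⟩
    · linear_combination hN.idem
    · rw [p3_0, hN.f1']
    · rw [p2_0, hN.r0']
      ring
    · rw [p3_0, hN.h1']
    · rw [p2_0, hN.t0']
    · rw [p2_0, hN.u0']
    · rw [coeff_C_zero, hN.w1']
  · rw [p3_0, p2_0, p3_0, p2_0]
    intro h0
    exact hN.kap (by linear_combination h0)

end Pool.Agent.Lib.D13.Al
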