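import Pool.Agent.Lib.D13.Al1

/-!
# MP_5dcbc3_ag: type (6,4,2), case alpha, moves to the chart `B(z) = 1`
-/

set_option autoImplicit false

namespace Pool.Agent.Lib.D13.Al

open Pool.Agent.Lib.D7

variable {k : Type*} [Field k]

/-- the goal: a member with `B(z)` a nonzero scalar -/
def Om (B : Pt k → Pt k → Prop) : Prop :=
  ∃ p p', B p p' ∧ p'.t0 = 0 ∧ p'.u0 = 0 ∧ p'.h1 = p'.w1 ∧ p'.w1 ≠ 0

/-- `B(z) = 0` -/
structure Zr (p : Pt k) : Prop where
  t0 : p.t0 = 0
  u0 : p.u0 = 0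
  h1 : p.h1 = 0
  w1 : p.w1 = 0

theorem Om.du {B : Pt k → Pt k → Prop} (h : Om (Du B)) : Om B := by
  obtain ⟨p, p', hB, h1, h2, h3, h4⟩ := h
  exact ⟨p.du, p'.du, hB, h2, h1, h3, h4⟩

theorem Zr.du {p : Pt k} (h : Zr p) : Zr p.du := ⟨h.u0, h.t0, h.h1, h.w1⟩

theorem polyPt_const (p : Pt k) : PolyPt fun _ : k => p := by
  constructor <;> exact D7.IsPoly.const _

/-- `B(z) = 0`, `B(y)` invertible -/
theorem r1a [Infinite k] {B : Pt k → Pt k → Prop} (hB : Op B) {p p' : Pt k} (h : B p p')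
    (hz : Zr p') (hd : p.h1 * p.w1 - p.t0 * p.u0 ≠ 0) : Om B := by
  have hr := hB.rel _ _ h
  have c2 := hr.c2
  have c3 := hr.c3
  have c4 := hr.c4
  have c5 := hr.c5
  have b1 := hr.b1
  have b2 := hr.b2
  have b4 := hr.b4
  have b5 := hr.b5
  rw [hz.t0, hz.w1] at c2
  rw [hz.u0, hz.w1] at c3
  rw [hz.u0, hz.h1] at c4
  rw [hz.t0, hz.h1] at c5
  rw [hz.t0, hz.u0] at b5
  have f1 : p'.f1 = 0 := by
    have : (p.h1 * p.w1 - p.t0 * p.u0) * p'.f1 = 0 := by
      linear_combination p.u0 * c2 - p.w1 * c4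
    exact (mul_eq_zero.1 this).resolve_left hd
  have r0 : p'.r0 = 0 := by
    have : (p.h1 * p.w1 - p.t0 * p.u0) * p'.r0 = 0 := by
      linear_combination p.t0 * c4 - p.h1 * c2
    exact (mul_eq_zero.1 this).resolve_left hd
  have g1 : p'.g1 = 0 := by
    have : (p.h1 * p.w1 - p.t0 * p.u0) * p'.g1 = 0 := by
      linear_combination p.w1 * c5 + p.t0 * c3
    exact (mul_eq_zero.1 this).resolve_left hd
  have q0 : p'.q0 = 0 := by
    have : (p.h1 * p.w1 - p.t0 * p.u0) * p'.q0 = 0 := by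
      linear_combination -p.h1 * c3 - p.u0 * c5
    exact (mul_eq_zero.1 this).resolve_left hd
  rw [f1, g1, r0, q0] at b1
  rw [f1, hz.h1, r0, hz.u0] at b2
  rw [g1, hz.h1, q0, hz.t0] at b4
  set δ := p.h1 * p.w1 - p.t0 * p.u0 with hδ
  set a1 := p.w1 * p.f1 - p.u0 * p.r0 with ha1
  set a2 := -p.t0 * p.f1 + p.h1 * p.r0 with ha2
  set d1 := p.g1 * p.w1 - p.q0 * p.t0 with hd1
  set d2 := -p.g1 * p.u0 + p.q0 * p.h1 with hd2
  set m1 := δ * p.f2 - (p.h2 * a1 + p.u1 * a2) with hm1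
  set m2 := δ * p.r1 - p.t1 * a1 with hm2
  set n1 := δ * p.g2 - (d1 * p.h2 + d2 * p.t1) with hn1
  set n2 := δ * p.q1 - d1 * p.u1 with hn2
  let P' : k → Pt k := fun s =>
    { f1 := s * (δ * a1)
      f2 := p'.f2 + s * (p.w1 * m1 - p.u0 * m2)
      f3 := p'.f3
      g1 := s * (δ * d1)
      g2 := p'.g2 + s * (n1 * p.w1 - n2 * p.t0)
      g3 := p'.g3
      h1 := s * (δ * δ)
      h2 := p'.h2
      h3 := p'.h3
      r0 := s * (δ * a2)
      r1 := p'.r1 + s * (-p.t0 * m1 + p.h1 * m2)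
      t0 := 0
      t1 := p'.t1
      q0 := s * (δ * d2)
      q1 := p'.q1 + s * (-n1 * p.u0 + n2 * p.h1)
      u0 := 0
      u1 := p'.u1
      w1 := s * (δ * δ) }
  have hP' : PolyPt P' := by
    constructor <;> dsimp only [P'] <;>
    (repeat' first
      | exact D7.IsPoly.const _
      | exact D7.IsPoly.id
      | refine D7.IsPoly.add ?_ ?_
      | refine D7.IsPoly.sub ?_ ?_
      | refine D7.IsPoly.mul ?_ ?_
      | refine D7.IsPoly.neg ?_)
  have h0 : P' 0 = p' := by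
    ext <;> simp [P', f1, g1, r0, q0, hz.t0, hz.u0, hz.h1, hz.w1]
  have hR : ∀ s, Rel p (P' s) := by
    intro s
    constructor
    · simp only [P']
      ring
    · simp only [P']
      ring
    · simp only [P']
      ring
    · simp only [P', ha1, ha2, hδ]
      ring
    · simp only [P', hd1, hd2, hδ]
      ring
    · simp only [P', ha1, ha2, hδ]
      ring
    · simp only [P', hd1, hd2, hδ]
      ring
    · simp only [P', ha1, ha2, hd1, hd2]
      ring
    · simp only [P']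
      rw [hm1, hm2, hn1, hn2, ha1, ha2, hd1, hd2, hδ]
      linear_combination b1
    · simp only [P']
      rw [hm1, hm2, ha1, ha2, hδ]
      linear_combination b2
    · simp only [P']
      rw [hn1, hn2, hd1, hd2, hδ]
      linear_combination b4
    · simp only [P']
      linear_combination b5
  obtain ⟨s, hs, h1⟩ := hB.one (fun _ => p) P' (polyPt_const p) hP' hR (by rw [h0]; exact h)
    (Set.finite_singleton (0 : k))
  rw [Set.mem_singleton_iff] at hs
  exact ⟨p, P' s, h1, rfl, rfl, rfl, mul_ne_zero hs (mul_ne_zero hd hd)⟩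

end Pool.Agent.Lib.D13.Al
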