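import Pool.Agent.Lib.D13.Al2

/-!
# MP_5dcbc3_ag: type (6,4,2), case alpha, `t ≠ 0`
-/

set_option autoImplicit false

namespace Pool.Agent.Lib.D13.Al

open Pool.Agent.Lib.D7

variable {k : Type*} [Field k]

/-- end of the moves in the chart -/
theorem ct_end [Infinite k] {B : Pt k → Pt k → Prop} (hB : Op B) (X : k → CT k)
    (hP : PolyPt fun s => (X s).y) (hP' : PolyPt fun s => (X s).z) (hR : ∀ s, RC (X s))
    (h0 : B (X 0).y (X 0).z) {la mu : k} (hl : ¬ (la = 0 ∧ mu = 0))
    (ho : ∀ s, (X s).om = s * la) (hD : ∀ s, (X s).De = s * mu) : Om B := by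
  obtain ⟨s, hs, h1⟩ := hB.one _ _ hP hP' (fun s => rel_of_rc (hR s)) h0
    (Set.finite_singleton (0 : k))
  rw [Set.mem_singleton_iff] at hs
  by_cases hla : la = 0
  · have hmu : mu ≠ 0 := fun h => hl ⟨hla, h⟩
    have e : (X s).om = 0 := by rw [ho, hla, mul_zero]
    refine r1a hB h1 ⟨rfl, rfl, e, e⟩ ?_
    have e2 : (X s).y.h1 * (X s).y.w1 - (X s).y.t0 * (X s).y.u0 = -(X s).De := by
      simp only [CT.y]
      ring
    rw [e2, hD]
    exact neg_ne_zero.2 (mul_ne_zero hs hmu)
  · exact ⟨_, _, h1, rfl, rfl, rfl, by
      show (X s).om ≠ 0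
      rw [ho]
      exact mul_ne_zero hs hla⟩

theorem setA [Infinite k] {B : Pt k → Pt k → Prop} (hB : Op B) {p p' : Pt k} (h : B p p')
    (ht : p.t0 = 1) (hz : Zr p') (hd : p.h1 * p.w1 - p.t0 * p.u0 = 0) : Om B := by
  obtain ⟨x, hx, rfl, rfl⟩ := exists_ct (hB.rel _ _ h) ht hz.t0
  have hom : x.om = 0 := hz.w1
  have hDe : x.De = 0 := by
    have h1 : x.h * x.w - 1 * (x.De + x.h * x.w) = 0 := hd
    linear_combination -h1
  have e1 := hx.e1
  have e2 := hx.e2
  have e3 := hx.e3
  have b1 := hx.b1
  have b2 := hx.b2
  rw [hom, hDe] at e1 e3 b2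
  by_cases hc : x.rp = 0 ∧ x.Ft = 0
  · obtain ⟨hrp, hFt⟩ := hc
    by_cases hc2 : x.gp = 0 ∧ x.Qt = 0
    · obtain ⟨hgp, hQt⟩ := hc2
      rw [hrp, hFt, hgp, hQt] at b1
      rw [hrp, hFt] at b2
      obtain ⟨la, mu, hl, hlm⟩ : ∃ la mu : k, ¬ (la = 0 ∧ mu = 0) ∧ la * x.Ph = mu * x.Rp := by
        by_cases hz' : x.Rp = 0 ∧ x.Ph = 0
        · exact ⟨1, 0, fun h => one_ne_zero h.1, by rw [hz'.2]; ring⟩
        · exact ⟨x.Rp, x.Ph, hz', mul_comm _ _⟩
      refine ct_end hB (fun s => { x with om := s * la, De := s * mu }) ?_ ?_ ?_ ?_ hl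
        (fun s => rfl) (fun s => rfl)
      · constructor <;> dsimp only [CT.y] <;>
        (repeat' first
      | exact D7.IsPoly.const _
      | exact D7.IsPoly.id
      | refine D7.IsPoly.add ?_ ?_
      | refine D7.IsPoly.sub ?_ ?_
      | refine D7.IsPoly.mul ?_ ?_
      | refine D7.IsPoly.neg ?_)
      · constructor <;> dsimp only [CT.z] <;>
        (repeat' first
      | exact D7.IsPoly.const _
      | exact D7.IsPoly.id
      | refine D7.IsPoly.add ?_ ?_
      | refine D7.IsPoly.sub ?_ ?_
      | refine D7.IsPoly.mul ?_ ?_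
      | refine D7.IsPoly.neg ?_)
      · intro s
        constructor
        · simp only [hrp, hFt]
          ring
        · simp only [hrp, hFt]
          ring
        · simp only [hgp, hQt]
          ring
        · simp only [hrp, hFt, hgp, hQt]
          linear_combination b1
        · simp only [hrp, hFt]
          linear_combination b2 + s * hlm
      · have e : ({ x with om := (0 : k) * la, De := (0 : k) * mu } : CT k) = x := by
          rw [zero_mul, zero_mul]
          cases x
          simp only at hom hDe
          rw [hom, hDe]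
        simp only [e]
        exact h
    · rw [hrp, hFt] at b1 b2
      refine ct_end hB (fun s => { x with om := s * x.gp, De := s * x.Qt, h := x.h + s * x.g })
        ?_ ?_ ?_ ?_ hc2 (fun s => rfl) (fun s => rfl)
      · constructor <;> dsimp only [CT.y] <;>
        (repeat' first
      | exact D7.IsPoly.const _
      | exact D7.IsPoly.id
      | refine D7.IsPoly.add ?_ ?_
      | refine D7.IsPoly.sub ?_ ?_
      | refine D7.IsPoly.mul ?_ ?_
      | refine D7.IsPoly.neg ?_)
      · constructor <;> dsimp only [CT.z] <;>
        (repeat' first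
      | exact D7.IsPoly.const _
      | exact D7.IsPoly.id
      | refine D7.IsPoly.add ?_ ?_
      | refine D7.IsPoly.sub ?_ ?_
      | refine D7.IsPoly.mul ?_ ?_
      | refine D7.IsPoly.neg ?_)
      · intro s
        constructor
        · simp only [hrp, hFt]
          ring
        · simp only [hrp, hFt]
          ring
        · simp only []
          ring
        · simp only [hrp, hFt]
          linear_combination b1
        · simp only [hrp, hFt]
          linear_combination b2 + s * b1
      · have e : ({ x with om := (0 : k) * x.gp, De := (0 : k) * x.Qt, h := x.h + 0 * x.g } :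
            CT k) = x := by
          rw [zero_mul, zero_mul, zero_mul, add_zero]
          cases x
          simp only at hom hDe
          rw [hom, hDe]
        simp only [e]
        exact h
  · refine ct_end hB (fun s => { x with om := s * x.rp, De := s * x.Ft, La := x.La - s * x.Ph, Hp := x.Hp + s * x.Rp })
      ?_ ?_ ?_ ?_ hc (fun s => rfl) (fun s => rfl)
    · constructor <;> dsimp only [CT.y] <;>
      (repeat' first
      | exact D7.IsPoly.const _
      | exact D7.IsPoly.id
      | refine D7.IsPoly.add ?_ ?_
      | refine D7.IsPoly.sub ?_ ?_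
      | refine D7.IsPoly.mul ?_ ?_
      | refine D7.IsPoly.neg ?_)
    · constructor <;> dsimp only [CT.z] <;>
      (repeat' first
      | exact D7.IsPoly.const _
      | exact D7.IsPoly.id
      | refine D7.IsPoly.add ?_ ?_
      | refine D7.IsPoly.sub ?_ ?_
      | refine D7.IsPoly.mul ?_ ?_
      | refine D7.IsPoly.neg ?_)
    · intro s
      constructor
      · simp only []
        ring
      · simp only []
        linear_combination e2
      · simp only []
        linear_combination -s * e2
      · simp only []
        linear_combination b1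
      · simp only []
        linear_combination b2
    · have e : ({ x with om := (0 : k) * x.rp, De := (0 : k) * x.Ft, La := x.La - 0 * x.Ph, Hp := x.Hp + 0 * x.Rp } :
          CT k) = x := by
        simp only [zero_mul, sub_zero, add_zero]
        cases x
        simp only at hom hDe
        rw [hom, hDe]
      simp only [e]
      exact h

end Pool.Agent.Lib.D13.Al
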