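import Pool.Agent.Lib.D13.AlL

/-!
# MP_5dcbc3_ag: type (6,4,2), case alpha, diagonal `B`
-/

set_option autoImplicit false

namespace Pool.Agent.Lib.D13.Al

open Pool.Agent.Lib.D7

variable {k : Type*} [Field k]

theorem comb_10 (p p' : Pt k) : Pt.comb 1 0 p p' = p := by
  ext <;> simp [Pt.comb]

theorem comb_01 (p p' : Pt k) : Pt.comb 0 1 p p' = p' := by
  ext <;> simp [Pt.comb]

theorem Op.swap {B : Pt k → Pt k → Prop} (hB : Op B) {p p' : Pt k} (h : B p p') : B p' p := by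
  have h1 := hB.lin p p' 0 1 1 0 (by simp) h
  rwa [comb_01, comb_10] at h1

/-- `t = (1, 0)` -/
theorem caseT1 [Infinite k] {B : Pt k → Pt k → Prop} (hB : Op B) {p p' : Pt k} (h : B p p')
    (ht : p.t0 = 1) (ht' : p'.t0 = 0) : Om B := by
  have hr := hB.rel _ _ h
  have a1 := hr.a1
  have a2 := hr.a2
  rw [ht, ht'] at a1 a2
  have u0 : p'.u0 = 0 := by linear_combination a1
  have h1 : p'.h1 = p'.w1 := by linear_combination -a2
  by_cases hw : p'.w1 = 0
  · have hz : Zr p' := ⟨ht', u0, h1.trans hw, hw⟩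
    by_cases hd : p.h1 * p.w1 - p.t0 * p.u0 = 0
    · exact setA hB h ht hz hd
    · exact r1a hB h hz hd
  · exact ⟨p, p', h, ht', u0, h1, hw⟩

theorem caseT2 [Infinite k] {B : Pt k → Pt k → Prop} (hB : Op B) {p p' : Pt k} (h : B p p')
    (ht : p.t0 ≠ 0) : Om B := by
  refine caseT1 hB (hB.lin p p' (p.t0)⁻¹ 0 (-p'.t0) p.t0 ?_ h) ?_ ?_
  · rw [inv_mul_cancel₀ ht, zero_mul, sub_zero]
    exact one_ne_zero
  · show (p.t0)⁻¹ * p.t0 + 0 * p'.t0 = 1
    rw [inv_mul_cancel₀ ht, zero_mul, add_zero]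
  · show -p'.t0 * p.t0 + p.t0 * p'.t0 = 0
    ring

theorem caseT [Infinite k] {B : Pt k → Pt k → Prop} (hB : Op B) {p p' : Pt k} (h : B p p')
    (ht : p.t0 ≠ 0 ∨ p'.t0 ≠ 0) : Om B := by
  rcases ht with ht | ht
  · exact caseT2 hB h ht
  · exact caseT2 hB (hB.swap h) ht

theorem caseU [Infinite k] {B : Pt k → Pt k → Prop} (hB : Op B) {p p' : Pt k} (h : B p p')
    (hu : p.u0 ≠ 0 ∨ p'.u0 ≠ 0) : Om B :=
  Om.du (caseT hB.du (p := p.du) (p' := p'.du) h hu)

/-- diagonal, independent -/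
theorem caseInd {B : Pt k → Pt k → Prop} (hB : Op B) {p p' : Pt k} (h : B p p')
    (ht : p.t0 = 0) (hu : p.u0 = 0) (ht' : p'.t0 = 0) (hu' : p'.u0 = 0)
    (hd : p.h1 * p'.w1 - p'.h1 * p.w1 ≠ 0) : Om B := by
  set δ := p.h1 * p'.w1 - p'.h1 * p.w1 with hδ
  set c := (p'.w1 - p'.h1) / δ with hc
  set d := (p.h1 - p.w1) / δ with hd'
  have e1 : c * p.h1 + d * p'.h1 = 1 := by
    rw [hc, hd']
    field_simp
    rw [hδ]
    ring
  have e2 : c * p.w1 + d * p'.w1 = 1 := by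
    rw [hc, hd']
    field_simp
    rw [hδ]
    ring
  obtain ⟨a, b, hab⟩ : ∃ a b : k, a * d - b * c ≠ 0 := by
    by_cases hd0 : d = 0
    · refine ⟨0, -1, ?_⟩
      intro h0
      have hc0 : c = 0 := by linear_combination h0
      rw [hc0, hd0] at e1
      exact zero_ne_one (by linear_combination e1)
    · exact ⟨1, 0, by simpa using hd0⟩
  refine ⟨_, _, hB.lin p p' a b c d hab h, ?_, ?_, ?_, ?_⟩
  · show c * p.t0 + d * p'.t0 = 0
    rw [ht, ht']
    ring
  · show c * p.u0 + d * p'.u0 = 0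
    rw [hu, hu']
    ring
  · show c * p.h1 + d * p'.h1 = c * p.w1 + d * p'.w1
    rw [e1, e2]
  · show c * p.w1 + d * p'.w1 ≠ 0
    rw [e2]
    exact one_ne_zero

/-- `B(z) = 0`, `B(y) = diag (h, 0)` -/
theorem caseH [Infinite k] {B : Pt k → Pt k → Prop} (hB : Op B) {p p' : Pt k} (h : B p p')
    (ht : p.t0 = 0) (hu : p.u0 = 0) (hw : p.w1 = 0) (hh : p.h1 ≠ 0) (hz : Zr p') : Om B := by
  have hr := hB.rel _ _ h
  have a1 := hr.a1
  have c4 := hr.c4
  have c5 := hr.c5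
  have c6 := hr.c6
  have b1 := hr.b1
  have b2 := hr.b2
  have b4 := hr.b4
  have b5 := hr.b5
  rw [hz.h1, hz.u0, hu] at c4
  rw [hz.h1, hz.t0, ht] at c5
  have f1 : p'.f1 = 0 := by
    have : p.h1 * p'.f1 = 0 := by linear_combination -c4
    exact (mul_eq_zero.1 this).resolve_left hh
  have g1 : p'.g1 = 0 := by
    have : p.h1 * p'.g1 = 0 := by linear_combination c5
    exact (mul_eq_zero.1 this).resolve_left hh
  rw [f1, g1] at c6
  -- the general move
  have key : ∀ n n' : k, p.r0 * n' - p'.r0 * n = 0 → p.q0 * n' - p'.q0 * n = 0 →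
      ∃ s : k, s ≠ 0 ∧ B (p.mv s { Pt.z with w1 := n }) (p'.mv s { Pt.z with w1 := n' }) := by
    intro n n' h1 h2
    refine hB.ln1 h _ _ ?_ ?_
    · constructor
      · simp only [Fa1, Pt.z]
        ring
      · simp only [Fa2, Pt.z, ht, hz.t0]
        ring
      · simp only [Fa3, Pt.z, hu, hz.u0]
        ring
      · simp only [Fc2, Pt.z]
        linear_combination h1
      · simp only [Fc3, Pt.z]
        linear_combination h2
      · simp only [Fc4, Pt.z]
        ring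
      · simp only [Fc5, Pt.z]
        ring
      · simp only [Fc6, Pt.z]
        ring
      · simp only [Fb1, Pt.z]
        ring
      · simp only [Fb2, Pt.z]
        ring
      · simp only [Fb4, Pt.z]
        ring
      · simp only [Fb5, Pt.z]
        ring
    · constructor <;> simp only [Pt.z] <;> ring
  by_cases hrq : p'.r0 = 0 ∧ p'.q0 = 0
  · obtain ⟨s, hs, h3⟩ := key 1 0 (by rw [hrq.1]; ring) (by rw [hrq.2]; ring)
    refine r1a hB h3 ⟨?_, ?_, ?_, ?_⟩ ?_
    · simp only [Pt.mv, Pt.z, hz.t0]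
      ring
    · simp only [Pt.mv, Pt.z, hz.u0]
      ring
    · simp only [Pt.mv, Pt.z, hz.h1]
      ring
    · simp only [Pt.mv, Pt.z, hz.w1]
      ring
    · have e : (p.h1 + s * 0) * (p.w1 + s * 1) - (p.t0 + s * 0) * (p.u0 + s * 0) = p.h1 * s := by
        rw [ht, hw]
        ring
      simp only [Pt.mv, Pt.z]
      rw [e]
      exact mul_ne_zero hh hs
  · obtain ⟨n, n', hn', h1, h2⟩ : ∃ n n' : k, n' ≠ 0 ∧ p.r0 * n' - p'.r0 * n = 0 ∧
        p.q0 * n' - p'.q0 * n = 0 := by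
      by_cases hr0 : p'.r0 = 0
      · refine ⟨p.q0, p'.q0, fun h0 => hrq ⟨hr0, h0⟩, ?_, by ring⟩
        linear_combination c6
      · refine ⟨p.r0, p'.r0, hr0, by ring, ?_⟩
        linear_combination -c6
    obtain ⟨s, hs, h3⟩ := key n n' h1 h2
    refine caseInd hB h3 ?_ ?_ ?_ ?_ ?_
    · simp only [Pt.mv, Pt.z, ht]
      ring
    · simp only [Pt.mv, Pt.z, hu]
      ring
    · simp only [Pt.mv, Pt.z, hz.t0]
      ring
    · simp only [Pt.mv, Pt.z, hz.u0]
      ring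
    · have e : (p.h1 + s * 0) * (p'.w1 + s * n') - (p'.h1 + s * 0) * (p.w1 + s * n) =
          p.h1 * (s * n') := by
        rw [hz.h1, hz.w1]
        ring
      simp only [Pt.mv, Pt.z]
      rw [e]
      exact mul_ne_zero hh (mul_ne_zero hs hn')

end Pool.Agent.Lib.D13.Al
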