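import Pool.Agent.Lib.D13.Al4

/-!
# MP_5dcbc3_ag: type (6,4,2), case alpha, `B(z) = 0`, `B(y) = diag (0, w)`
-/

set_option autoImplicit false

namespace Pool.Agent.Lib.D13.Al

open Pool.Agent.Lib.D7

variable {k : Type*} [Field k]

/-- the situation `B(z) = 0`, `B(y) = diag (0, w)` -/
structure WS (p p' : Pt k) : Prop where
  t0 : p.t0 = 0
  u0 : p.u0 = 0
  h1 : p.h1 = 0
  w1 : p.w1 ≠ 0
  z : Zr p'
  r0' : p'.r0 = 0
  q0' : p'.q0 = 0
  c6 : p.f1 * p'.g1 - p'.f1 * p.g1 = 0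
  b1 : p.f1 * p'.g2 - p'.f1 * p.g2 + (p.f2 * p'.g1 - p'.f2 * p.g1) + p.r0 * p'.q1 -
    p'.r1 * p.q0 = 0
  b2 : p.f1 * p'.h2 - p'.f1 * p.h2 + p.r0 * p'.u1 = 0
  b4 : p.h2 * p'.g1 - p'.h2 * p.g1 - p'.t1 * p.q0 = 0

theorem WS.mk' {p p' : Pt k} (hr : Rel p p') (ht : p.t0 = 0) (hu : p.u0 = 0) (hh : p.h1 = 0)
    (hw : p.w1 ≠ 0) (hz : Zr p') : WS p p' := by
  have c2 := hr.c2
  have c3 := hr.c3
  have c6 := hr.c6
  have b1 := hr.b1
  have b2 := hr.b2
  have b4 := hr.b4
  rw [hz.t0, ht, hz.w1] at c2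
  rw [hz.u0, hu, hz.w1] at c3
  have r0 : p'.r0 = 0 := by
    have : p'.r0 * p.w1 = 0 := by linear_combination -c2
    exact (mul_eq_zero.1 this).resolve_right hw
  have q0 : p'.q0 = 0 := by
    have : p'.q0 * p.w1 = 0 := by linear_combination -c3
    exact (mul_eq_zero.1 this).resolve_right hw
  rw [r0, q0] at c6
  rw [r0, q0] at b1
  rw [r0, hz.h1, hh, hz.u0, hu] at b2
  rw [ht, hz.t0, hz.h1, hh, q0] at b4
  refine ⟨ht, hu, hh, hw, hz, r0, q0, ?_, ?_, ?_, ?_⟩
  · linear_combination c6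
  · linear_combination b1
  · linear_combination b2
  · linear_combination b4

theorem WS.du {p p' : Pt k} (h : WS p p') : WS p.du p'.du := by
  refine ⟨h.u0, h.t0, h.h1, h.w1, h.z.du, h.q0', h.r0', ?_, ?_, ?_, ?_⟩
  · simp only [Pt.du]
    linear_combination -h.c6
  · simp only [Pt.du]
    linear_combination -h.b1
  · simp only [Pt.du]
    linear_combination -h.b4
  · simp only [Pt.du]
    linear_combination -h.b2

/-- the general move -/
theorem lineW [Infinite k] {B : Pt k → Pt k → Prop} (hB : Op B) {p p' : Pt k} (h : B p p')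
    (hs : WS p p') (φ ψ ν ν' η η' υ τ κ : k)
    (e1 : p.f1 * ν' - p'.f1 * ν = 0) (e2 : p.g1 * ν' - p'.g1 * ν = 0)
    (e3 : φ * (ν * p'.g2 - ν' * p.g2) + ψ * (p.f2 * ν' - p'.f2 * ν) + p.r0 * κ = 0)
    (e4 : φ * (ν * p'.h2 - ν' * p.h2) + p.f1 * η' - p'.f1 * η + p.f2 * ν' - p'.f2 * ν +
      p.r0 * υ = 0)
    (e4' : φ * (ν * η' - ν' * η) = 0)
    (e5 : ν * p'.g2 - ν' * p.g2 + ψ * (p.h2 * ν' - p'.h2 * ν) + η * p'.g1 - η' * p.g1 -
      τ * p.q0 = 0)
    (e5' : ψ * (ν * η' - ν' * η) = 0) :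
    ∃ s : k, s ≠ 0 ∧
      B (p.mv s { Pt.z with h1 := ν, h2 := η, f1 := φ * ν, g1 := ψ * ν })
      (p'.mv s { Pt.z with h1 := ν', h2 := η', f1 := φ * ν', g1 := ψ * ν', u1 := υ, t1 := τ,
                           q1 := κ }) := by
  refine hB.ln1 h _ _ ?_ ?_
  · constructor
    · simp only [Fa1, Pt.z]
      ring
    · simp only [Fa2, Pt.z, hs.t0, hs.z.t0]
      ring
    · simp only [Fa3, Pt.z, hs.u0, hs.z.u0]
      ring
    · simp only [Fc2, Pt.z, hs.t0, hs.z.t0]
      ring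
    · simp only [Fc3, Pt.z, hs.u0, hs.z.u0]
      ring
    · simp only [Fc4, Pt.z, hs.h1, hs.z.h1]
      linear_combination e1
    · simp only [Fc5, Pt.z, hs.h1, hs.z.h1]
      linear_combination -e2
    · simp only [Fc6, Pt.z]
      linear_combination ψ * e1 - φ * e2
    · simp only [Fb1, Pt.z]
      linear_combination e3
    · simp only [Fb2, Pt.z, hs.h1, hs.z.h1, hs.z.u0, hs.u0]
      linear_combination e4
    · simp only [Fb4, Pt.z, hs.h1, hs.z.h1, hs.q0', hs.t0]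
      linear_combination e5
    · simp only [Fb5, Pt.z, hs.t0, hs.u0]
      ring
  · constructor
    · simp only [Pt.z]
      ring
    · simp only [Pt.z]
      ring
    · simp only [Pt.z]
      ring
    · simp only [Pt.z]
      ring
    · simp only [Pt.z]
      ring
    · simp only [Pt.z]
      ring
    · simp only [Pt.z]
      ring
    · simp only [Pt.z]
      ring
    · simp only [Pt.z]
      ring
    · simp only [Pt.z]
      linear_combination e4'
    · simp only [Pt.z]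
      linear_combination -e5'
    · simp only [Pt.z]
      ring

/-- the general move with `(ν, ν') ≠ 0` ends -/
theorem endW [Infinite k] {B : Pt k → Pt k → Prop} (hB : Op B) {p p' : Pt k} (h : B p p')
    (hs : WS p p') (φ ψ ν ν' η η' υ τ κ : k) (hν : ν ≠ 0 ∨ ν' ≠ 0)
    (e1 : p.f1 * ν' - p'.f1 * ν = 0) (e2 : p.g1 * ν' - p'.g1 * ν = 0)
    (e3 : φ * (ν * p'.g2 - ν' * p.g2) + ψ * (p.f2 * ν' - p'.f2 * ν) + p.r0 * κ = 0)
    (e4 : φ * (ν * p'.h2 - ν' * p.h2) + p.f1 * η' - p'.f1 * η + p.f2 * ν' - p'.f2 * ν +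
      p.r0 * υ = 0)
    (e4' : φ * (ν * η' - ν' * η) = 0)
    (e5 : ν * p'.g2 - ν' * p.g2 + ψ * (p.h2 * ν' - p'.h2 * ν) + η * p'.g1 - η' * p.g1 -
      τ * p.q0 = 0)
    (e5' : ψ * (ν * η' - ν' * η) = 0) : Om B := by
  obtain ⟨s, hs0, h3⟩ := lineW hB h hs φ ψ ν ν' η η' υ τ κ e1 e2 e3 e4 e4' e5 e5'
  by_cases hn : ν' = 0
  · have hν0 : ν ≠ 0 := hν.resolve_right (fun h0 => h0 hn)
    refine r1a hB h3 ⟨?_, ?_, ?_, ?_⟩ ?_
    · simp only [Pt.mv, Pt.z, hs.z.t0]
      ring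
    · simp only [Pt.mv, Pt.z, hs.z.u0]
      ring
    · simp only [Pt.mv, Pt.z, hs.z.h1, hn]
      ring
    · simp only [Pt.mv, Pt.z, hs.z.w1]
      ring
    · have e : (p.h1 + s * ν) * (p.w1 + s * 0) - (p.t0 + s * 0) * (p.u0 + s * 0) =
          (s * ν) * p.w1 := by
        rw [hs.h1, hs.t0, hs.u0]
        ring
      simp only [Pt.mv, Pt.z]
      rw [e]
      exact mul_ne_zero (mul_ne_zero hs0 hν0) hs.w1
  · refine caseInd hB h3 ?_ ?_ ?_ ?_ ?_
    · simp only [Pt.mv, Pt.z, hs.t0]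
      ring
    · simp only [Pt.mv, Pt.z, hs.u0]
      ring
    · simp only [Pt.mv, Pt.z, hs.z.t0]
      ring
    · simp only [Pt.mv, Pt.z, hs.z.u0]
      ring
    · have e : (p.h1 + s * ν) * (p'.w1 + s * 0) - (p'.h1 + s * ν') * (p.w1 + s * 0) =
          -(s * ν' * p.w1) := by
        rw [hs.z.h1, hs.z.w1]
        ring
      simp only [Pt.mv, Pt.z]
      rw [e]
      exact neg_ne_zero.2 (mul_ne_zero (mul_ne_zero hs0 hn) hs.w1)

/-- `r0, q0 ≠ 0` -/
theorem caseW1 [Infinite k] {B : Pt k → Pt k → Prop} (hB : Op B) {p p' : Pt k} (h : B p p')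
    (hs : WS p p') (hr : p.r0 ≠ 0) (hq : p.q0 ≠ 0) : Om B := by
  obtain ⟨ν, ν', hν, e1, e2⟩ : ∃ ν ν' : k, (ν ≠ 0 ∨ ν' ≠ 0) ∧ p.f1 * ν' - p'.f1 * ν = 0 ∧
      p.g1 * ν' - p'.g1 * ν = 0 := by
    by_cases h1 : p.f1 = 0 ∧ p'.f1 = 0
    · by_cases h2 : p.g1 = 0 ∧ p'.g1 = 0
      · exact ⟨1, 0, Or.inl one_ne_zero, by rw [h1.1, h1.2]; ring, by rw [h2.1, h2.2]; ring⟩
      · refine ⟨p.g1, p'.g1, ?_, by rw [h1.1, h1.2]; ring, by ring⟩
        by_contra h3
        push Not at h3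
        exact h2 h3
    · refine ⟨p.f1, p'.f1, ?_, by ring, by linear_combination -hs.c6⟩
      by_contra h3
      push Not at h3
      exact h1 h3
  refine endW hB h hs 0 0 ν ν' 0 0 (-(p.f2 * ν' - p'.f2 * ν) / p.r0)
    ((ν * p'.g2 - ν' * p.g2) / p.q0) 0 hν e1 e2 ?_ ?_ ?_ ?_ ?_
  · ring
  · field_simp
    ring
  · ring
  · field_simp
    ring
  · ring

/-- `r0 ≠ 0`, `q0 = 0` -/
theorem caseW2 [Infinite k] {B : Pt k → Pt k → Prop} (hB : Op B) {p p' : Pt k} (h : B p p')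
    (hs : WS p p') (hr : p.r0 ≠ 0) (hq : p.q0 = 0) : Om B := by
  by_cases hg : p.g1 = 0 ∧ p'.g1 = 0
  · by_cases hf : p.f1 = 0 ∧ p'.f1 = 0
    · obtain ⟨ν, ν', hν, e1⟩ : ∃ ν ν' : k, (ν ≠ 0 ∨ ν' ≠ 0) ∧ ν * p'.g2 - ν' * p.g2 = 0 := by
        by_cases h2 : p.g2 = 0 ∧ p'.g2 = 0
        · exact ⟨1, 0, Or.inl one_ne_zero, by rw [h2.1, h2.2]; ring⟩
        · refine ⟨p.g2, p'.g2, ?_, by ring⟩
          by_contra h3
          push Not at h3
          exact h2 h3
      refine endW hB h hs 0 0 ν ν' 0 0 (-(p.f2 * ν' - p'.f2 * ν) / p.r0) 0 0 hν ?_ ?_ ?_ ?_ ?_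
        ?_ ?_
      · rw [hf.1, hf.2]
        ring
      · rw [hg.1, hg.2]
        ring
      · ring
      · rw [hf.1, hf.2]
        field_simp
        ring
      · ring
      · rw [hq]
        linear_combination e1
      · ring
    · have hf' : p.f1 ≠ 0 ∨ p'.f1 ≠ 0 := by
        by_contra h3
        push Not at h3
        exact hf h3
      have end0 : ∀ q q' : Pt k, B q q' → WS q q' → q.r0 = p.r0 → q.q0 = 0 → q.g1 = 0 →
          q'.g1 = 0 → (q.f1 ≠ 0 ∨ q'.f1 ≠ 0) →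
          (q.f1 * q'.g2 - q'.f1 * q.g2 = 0 ∨ q.f1 * q'.h2 - q'.f1 * q.h2 ≠ 0) → Om B := by
        intro q q' hBq hsq hr' hq' hg' hg'' hf'' hK
        rw [← hr'] at hr
        rcases hK with hK | hK
        · refine endW hB hBq hsq 0 0 q.f1 q'.f1 0 0 (-(q.f2 * q'.f1 - q'.f2 * q.f1) / q.r0) 0 0
            hf'' ?_ ?_ ?_ ?_ ?_ ?_ ?_
          · ring
          · rw [hg', hg'']
            ring
          · ring
          · field_simp
            ring
          · ring
          · rw [hq']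
            linear_combination hK
          · ring
        · set M := q.f1 * q'.h2 - q'.f1 * q.h2 with hM
          refine endW hB hBq hsq 0 ((q.f1 * q'.g2 - q'.f1 * q.g2) / M) q.f1 q'.f1 0 0
            (-(q.f2 * q'.f1 - q'.f2 * q.f1) / q.r0) 0
            (-((q.f1 * q'.g2 - q'.f1 * q.g2) / M * (q.f2 * q'.f1 - q'.f2 * q.f1)) / q.r0)
            hf'' ?_ ?_ ?_ ?_ ?_ ?_ ?_
          · ring
          · rw [hg', hg'']
            ring
          · field_simp
            ring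
          · field_simp
            ring
          · ring
          · have e : (q.f1 * q'.g2 - q'.f1 * q.g2) / M * M = q.f1 * q'.g2 - q'.f1 * q.g2 :=
              div_mul_cancel₀ _ hK
            rw [hq', hg', hg'']
            linear_combination (-1 : k) * e +
              (q.f1 * q'.g2 - q'.f1 * q.g2) / M * hM
          · ring
      by_cases hM : p.f1 * p'.h2 - p'.f1 * p.h2 = 0
      · obtain ⟨η, η', hη⟩ : ∃ η η' : k, p.f1 * η' - p'.f1 * η ≠ 0 := by
          rcases hf' with h1 | h1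
          · exact ⟨0, 1, by simpa using h1⟩
          · exact ⟨-1, 0, by simpa using h1⟩
        obtain ⟨s, hs0, h3⟩ := lineW hB h hs 0 0 0 0 η η'
          (-(p.f1 * η' - p'.f1 * η) / p.r0) 0 0 (by ring) (by ring) (by ring)
          (by field_simp; ring) (by ring) (by rw [hq, hg.1, hg.2]; ring) (by ring)
        refine end0 _ _ h3 (WS.mk' (hB.rel _ _ h3) ?_ ?_ ?_ ?_ ⟨?_, ?_, ?_, ?_⟩) ?_ ?_ ?_ ?_ ?_
          (Or.inr ?_)
        · simp only [Pt.mv, Pt.z, hs.t0]
          ring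
        · simp only [Pt.mv, Pt.z, hs.u0]
          ring
        · simp only [Pt.mv, Pt.z, hs.h1]
          ring
        · simp only [Pt.mv, Pt.z, mul_zero, add_zero]
          exact hs.w1
        · simp only [Pt.mv, Pt.z, hs.z.t0]
          ring
        · simp only [Pt.mv, Pt.z, hs.z.u0]
          ring
        · simp only [Pt.mv, Pt.z, hs.z.h1]
          ring
        · simp only [Pt.mv, Pt.z, hs.z.w1]
          ring
        · simp only [Pt.mv, Pt.z, mul_zero, add_zero]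
        · simp only [Pt.mv, Pt.z, hq, mul_zero, add_zero]
        · simp only [Pt.mv, Pt.z, hg.1, mul_zero, add_zero]
        · simp only [Pt.mv, Pt.z, hg.2, mul_zero, add_zero]
        · simp only [Pt.mv, Pt.z, mul_zero, add_zero]
          exact hf'
        · have e : (p.f1 + s * (0 * 0)) * (p'.h2 + s * η') - (p'.f1 + s * (0 * 0)) *
              (p.h2 + s * η) = s * (p.f1 * η' - p'.f1 * η) := by
            linear_combination hM
          simp only [Pt.mv, Pt.z]
          rw [e]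
          exact mul_ne_zero hs0 hη
      · exact end0 p p' h hs rfl hq hg.1 hg.2 hf' (Or.inr hM)
  · have hg' : p.g1 ≠ 0 ∨ p'.g1 ≠ 0 := by
      by_contra h3
      push Not at h3
      exact hg h3
    obtain ⟨η, η', hη⟩ : ∃ η η' : k, p.g1 * p'.g2 - p'.g1 * p.g2 + η * p'.g1 - η' * p.g1 = 0 := by
      exact ⟨p.g2, p'.g2, by ring⟩
    refine endW hB h hs 0 0 p.g1 p'.g1 η η'
      (-(p.f1 * η' - p'.f1 * η + p.f2 * p'.g1 - p'.f2 * p.g1) / p.r0) 0 0 hg' ?_ ?_ ?_ ?_ ?_ ?_ ?_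
    · linear_combination hs.c6
    · ring
    · ring
    · field_simp
      ring
    · ring
    · rw [hq]
      linear_combination hη
    · ring

/-- `r0 = q0 = 0` -/
theorem caseW3 [Infinite k] {B : Pt k → Pt k → Prop} (hB : Op B) {p p' : Pt k} (h : B p p')
    (hs : WS p p') (hr : p.r0 = 0) (hq : p.q0 = 0) : Om B := by
  have b1 := hs.b1
  rw [hr, hq] at b1
  by_cases hf : p.f1 = 0 ∧ p'.f1 = 0
  · by_cases hg : p.g1 = 0 ∧ p'.g1 = 0
    · have end0 : ∀ q q' : Pt k, B q q' → WS q q' → q.r0 = 0 → q.q0 = 0 → q.g1 = 0 →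
          q'.g1 = 0 → q.f1 = 0 → q'.f1 = 0 → (q.h2 ≠ 0 ∨ q'.h2 ≠ 0) → Om B := by
        intro q q' hBq hsq hr' hq' hg' hg'' hf' hf'' hh
        obtain ⟨ν, ν', hM⟩ : ∃ ν ν' : k, ν * q'.h2 - ν' * q.h2 ≠ 0 := by
          rcases hh with h1 | h1
          · exact ⟨0, -1, by simpa using h1⟩
          · exact ⟨1, 0, by simpa using h1⟩
        have hν : ν ≠ 0 ∨ ν' ≠ 0 := by
          by_contra h3
          push Not at h3
          rw [h3.1, h3.2] at hM
          exact hM (by ring)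
        set M := ν * q'.h2 - ν' * q.h2 with hM0
        set X := q.f2 * ν' - q'.f2 * ν with hX
        set Y := ν * q'.g2 - ν' * q.g2 with hY
        have e : X / M * M = X := div_mul_cancel₀ _ hM
        have e' : Y / M * M = Y := div_mul_cancel₀ _ hM
        refine endW hB hBq hsq (-(X / M)) (Y / M) ν ν' 0 0 0 0 0 hν ?_ ?_ ?_ ?_ ?_ ?_ ?_
        · rw [hf', hf'']
          ring
        · rw [hg', hg'']
          ring
        · rw [← hY, ← hX, hr']
          ring
        · rw [← hM0, hf', hf'']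
          linear_combination (-1 : k) * e + hX
        · ring
        · rw [hg', hg'', hq']
          linear_combination (-1 : k) * e' + Y / M * hM0 - hY
        · ring
      by_cases hh : p.h2 = 0 ∧ p'.h2 = 0
      · obtain ⟨s, hs0, h3⟩ := lineW hB h hs 0 0 0 0 1 0 0 0 0 (by ring) (by ring) (by ring)
          (by rw [hf.1, hf.2]; ring) (by ring) (by rw [hq, hg.1, hg.2]; ring) (by ring)
        refine end0 _ _ h3 (WS.mk' (hB.rel _ _ h3) ?_ ?_ ?_ ?_ ⟨?_, ?_, ?_, ?_⟩) ?_ ?_ ?_ ?_ ?_ ?_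
          (Or.inl ?_)
        · simp only [Pt.mv, Pt.z, hs.t0]
          ring
        · simp only [Pt.mv, Pt.z, hs.u0]
          ring
        · simp only [Pt.mv, Pt.z, hs.h1]
          ring
        · simp only [Pt.mv, Pt.z, mul_zero, add_zero]
          exact hs.w1
        · simp only [Pt.mv, Pt.z, hs.z.t0]
          ring
        · simp only [Pt.mv, Pt.z, hs.z.u0]
          ring
        · simp only [Pt.mv, Pt.z, hs.z.h1]
          ring
        · simp only [Pt.mv, Pt.z, hs.z.w1]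
          ring
        · simp only [Pt.mv, Pt.z, hr, mul_zero, add_zero]
        · simp only [Pt.mv, Pt.z, hq, mul_zero, add_zero]
        · simp only [Pt.mv, Pt.z, hg.1, mul_zero, add_zero]
        · simp only [Pt.mv, Pt.z, hg.2, mul_zero, add_zero]
        · simp only [Pt.mv, Pt.z, hf.1, mul_zero, add_zero]
        · simp only [Pt.mv, Pt.z, hf.2, mul_zero, add_zero]
        · simp only [Pt.mv, Pt.z, hh.1, zero_add, mul_one]
          exact hs0
      · refine end0 p p' h hs hr hq hg.1 hg.2 hf.1 hf.2 ?_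
        by_contra h3
        push Not at h3
        exact hh h3
    · have hg' : p.g1 ≠ 0 ∨ p'.g1 ≠ 0 := by
        by_contra h3
        push Not at h3
        exact hg h3
      rw [hf.1, hf.2] at b1
      refine endW hB h hs 0 0 p.g1 p'.g1 p.g2 p'.g2 0 0 0 hg' ?_ ?_ ?_ ?_ ?_ ?_ ?_
      · rw [hf.1, hf.2]
        ring
      · ring
      · ring
      · rw [hf.1, hf.2]
        linear_combination b1
      · ring
      · ring
      · ring
  · have hf' : p.f1 ≠ 0 ∨ p'.f1 ≠ 0 := by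
      by_contra h3
      push Not at h3
      exact hf h3
    refine endW hB h hs 0 0 p.f1 p'.f1 p.f2 p'.f2 0 0 0 hf' ?_ ?_ ?_ ?_ ?_ ?_ ?_
    · ring
    · linear_combination -hs.c6
    · ring
    · ring
    · ring
    · linear_combination b1
    · ring

/-- `B(z) = 0`, `B(y) = diag (0, w)` -/
theorem caseW [Infinite k] {B : Pt k → Pt k → Prop} (hB : Op B) {p p' : Pt k} (h : B p p')
    (ht : p.t0 = 0) (hu : p.u0 = 0) (hh : p.h1 = 0) (hw : p.w1 ≠ 0) (hz : Zr p') : Om B := by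
  have hs := WS.mk' (hB.rel _ _ h) ht hu hh hw hz
  by_cases hr : p.r0 = 0
  · by_cases hq : p.q0 = 0
    · exact caseW3 hB h hs hr hq
    · have h' : Du B p.du p'.du := h
      exact Om.du (caseW2 hB.du h' hs.du hq hr)
  · by_cases hq : p.q0 = 0
    · exact caseW2 hB h hs hr hq
    · exact caseW1 hB h hs hr hq

end Pool.Agent.Lib.D13.Al
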