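import Pool.Agent.Lib.D13.Al5

/-!
# MP_5dcbc3_ag: type (6,4,2), case alpha, the chart `B(z) = 1` is reached
-/

set_option autoImplicit false

namespace Pool.Agent.Lib.D13.Al

open Pool.Agent.Lib.D7

variable {k : Type*} [Field k]

theorem Op.gl {B : Pt k → Pt k → Prop} (hB : Op B) {p p' : Pt k} (h : B p p') {x y : k}
    (hxy : x ≠ 0 ∨ y ≠ 0) :
    ∃ a b : k, a * x + b * y = 1 ∧ B (Pt.comb a b p p') (Pt.comb (-y) x p p') := by
  obtain ⟨a, b, hab⟩ : ∃ a b : k, a * x + b * y = 1 := by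
    rcases hxy with h1 | h1
    · exact ⟨x⁻¹, 0, by rw [inv_mul_cancel₀ h1]; ring⟩
    · exact ⟨0, y⁻¹, by rw [inv_mul_cancel₀ h1]; ring⟩
  refine ⟨a, b, hab, hB.lin p p' a b (-y) x ?_ h⟩
  have e : a * x - b * -y = 1 := by linear_combination hab
  rw [e]
  exact one_ne_zero

/-- `B ≠ 0` -/
theorem bne [Infinite k] {B : Pt k → Pt k → Prop} (hB : Op B) {p p' : Pt k} (h : B p p')
    (hn : ¬ (Zr p ∧ Zr p')) : Om B := by
  by_cases ht : p.t0 ≠ 0 ∨ p'.t0 ≠ 0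
  · exact caseT hB h ht
  by_cases hu : p.u0 ≠ 0 ∨ p'.u0 ≠ 0
  · exact caseU hB h hu
  push Not at ht hu
  by_cases hd : p.h1 * p'.w1 - p'.h1 * p.w1 = 0
  · obtain ⟨x, y, hxy, e1, e2, hne⟩ : ∃ x y : k, (x ≠ 0 ∨ y ≠ 0) ∧ x * p'.h1 - y * p.h1 = 0 ∧
        x * p'.w1 - y * p.w1 = 0 ∧ ((x = p.h1 ∧ y = p'.h1) ∨ (x = p.w1 ∧ y = p'.w1)) := by
      by_cases h1 : p.h1 = 0 ∧ p'.h1 = 0
      · by_cases h2 : p.w1 = 0 ∧ p'.w1 = 0
        · exact absurd ⟨⟨ht.1, hu.1, h1.1, h2.1⟩, ⟨ht.2, hu.2, h1.2, h2.2⟩⟩ hn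
        · refine ⟨p.w1, p'.w1, ?_, by rw [h1.1, h1.2]; ring, by ring, Or.inr ⟨rfl, rfl⟩⟩
          by_contra h3
          push Not at h3
          exact h2 h3
      · refine ⟨p.h1, p'.h1, ?_, by ring, hd, Or.inl ⟨rfl, rfl⟩⟩
        by_contra h3
        push Not at h3
        exact h1 h3
    obtain ⟨a, b, hab, h3⟩ := hB.gl h hxy
    have hz : Zr (Pt.comb (-y) x p p') := by
      refine ⟨?_, ?_, ?_, ?_⟩
      · simp only [Pt.comb, ht.1, ht.2]
        ring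
      · simp only [Pt.comb, hu.1, hu.2]
        ring
      · simp only [Pt.comb]
        linear_combination e1
      · simp only [Pt.comb]
        linear_combination e2
    have ht3 : (Pt.comb a b p p').t0 = 0 := by
      simp only [Pt.comb, ht.1, ht.2]
      ring
    have hu3 : (Pt.comb a b p p').u0 = 0 := by
      simp only [Pt.comb, hu.1, hu.2]
      ring
    have hne3 : (Pt.comb a b p p').h1 ≠ 0 ∨ (Pt.comb a b p p').w1 ≠ 0 := by
      rcases hne with ⟨h1, h2⟩ | ⟨h1, h2⟩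
      · left
        rw [h1, h2] at hab
        show a * p.h1 + b * p'.h1 ≠ 0
        rw [hab]
        exact one_ne_zero
      · right
        rw [h1, h2] at hab
        show a * p.w1 + b * p'.w1 ≠ 0
        rw [hab]
        exact one_ne_zero
    by_cases hw : (Pt.comb a b p p').w1 = 0
    · exact caseH hB h3 ht3 hu3 hw (hne3.resolve_right (fun h4 => h4 hw)) hz
    · by_cases hh : (Pt.comb a b p p').h1 = 0
      · exact caseW hB h3 ht3 hu3 hh hw hz
      · refine r1a hB h3 hz ?_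
        rw [ht3, zero_mul, sub_zero]
        exact mul_ne_zero hh hw
  · exact caseInd hB h ht.1 hu.1 ht.2 hu.2 hd

/-- the situation `B(y) = B(z) = 0` -/
structure ZS (p p' : Pt k) : Prop where
  z : Zr p
  z' : Zr p'
  c6 : p.f1 * p'.g1 - p'.f1 * p.g1 + (p.r0 * p'.q0 - p'.r0 * p.q0) = 0

theorem ZS.du {p p' : Pt k} (h : ZS p p') : ZS p.du p'.du := by
  refine ⟨h.z.du, h.z'.du, ?_⟩
  simp only [Pt.du]
  linear_combination -h.c6

theorem ZS.comb {p p' : Pt k} (h : ZS p p') (a b c d : k) :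
    ZS (Pt.comb a b p p') (Pt.comb c d p p') := by
  refine ⟨⟨?_, ?_, ?_, ?_⟩, ⟨?_, ?_, ?_, ?_⟩, ?_⟩
  · simp only [Pt.comb, h.z.t0, h.z'.t0]
    ring
  · simp only [Pt.comb, h.z.u0, h.z'.u0]
    ring
  · simp only [Pt.comb, h.z.h1, h.z'.h1]
    ring
  · simp only [Pt.comb, h.z.w1, h.z'.w1]
    ring
  · simp only [Pt.comb, h.z.t0, h.z'.t0]
    ring
  · simp only [Pt.comb, h.z.u0, h.z'.u0]
    ring
  · simp only [Pt.comb, h.z.h1, h.z'.h1]
    ring
  · simp only [Pt.comb, h.z.w1, h.z'.w1]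
    ring
  · simp only [Pt.comb]
    linear_combination (a * d - b * c) * h.c6

theorem zeq {x n s : k} (h : x = 0) (hn : x + s * n = 0) (hs : s ≠ 0) : n = 0 := by
  rw [h, zero_add] at hn
  exact (mul_eq_zero.1 hn).resolve_left hs

/-- `B = 0`, `r0 q0' = r0' q0` -/
theorem caseR1 [Infinite k] {B : Pt k → Pt k → Prop} (hB : Op B) {p p' : Pt k} (h : B p p')
    (hs : ZS p p') (hd : p.r0 * p'.q0 - p'.r0 * p.q0 = 0) : Om B := by
  obtain ⟨ν, ν', hν, e1, e2⟩ : ∃ ν ν' : k, (ν ≠ 0 ∨ ν' ≠ 0) ∧ p.r0 * ν' - p'.r0 * ν = 0 ∧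
      p.q0 * ν' - p'.q0 * ν = 0 := by
    by_cases h1 : p.r0 = 0 ∧ p'.r0 = 0
    · by_cases h2 : p.q0 = 0 ∧ p'.q0 = 0
      · exact ⟨1, 0, Or.inl one_ne_zero, by rw [h1.1, h1.2]; ring, by rw [h2.1, h2.2]; ring⟩
      · refine ⟨p.q0, p'.q0, ?_, by rw [h1.1, h1.2]; ring, by ring⟩
        by_contra h3
        push Not at h3
        exact h2 h3
    · refine ⟨p.r0, p'.r0, ?_, by ring, by linear_combination -hd⟩
      by_contra h3
      push Not at h3
      exact h1 h3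
  obtain ⟨s, hs0, h3⟩ := hB.ln1 h { Pt.z with w1 := ν } { Pt.z with w1 := ν' } (by
    constructor
    · simp only [Fa1, Pt.z]
      ring
    · simp only [Fa2, Pt.z, hs.z.t0, hs.z'.t0]
      ring
    · simp only [Fa3, Pt.z, hs.z.u0, hs.z'.u0]
      ring
    · simp only [Fc2, Pt.z]
      linear_combination e1
    · simp only [Fc3, Pt.z]
      linear_combination e2
    · simp only [Fc4, Pt.z]
      ring
    · simp only [Fc5, Pt.z]
      ring
    · simp only [Fc6, Pt.z]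
      ring
    · simp only [Fb1, Pt.z]
      ring
    · simp only [Fb2, Pt.z]
      ring
    · simp only [Fb4, Pt.z]
      ring
    · simp only [Fb5, Pt.z]
      ring) (by constructor <;> simp only [Pt.z] <;> ring)
  refine bne hB h3 ?_
  rintro ⟨h4, h5⟩
  have h6 : p.w1 + s * ν = 0 := h4.w1
  have h7 : p'.w1 + s * ν' = 0 := h5.w1
  rcases hν with h8 | h8
  · exact h8 (zeq hs.z.w1 h6 hs0)
  · exact h8 (zeq hs.z'.w1 h7 hs0)

/-- `B = 0`, `<r, q> ≠ 0`, `g' = q' = 0` -/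
theorem caseR2' [Infinite k] {B : Pt k → Pt k → Prop} (hB : Op B) {p p' : Pt k} (h : B p p')
    (hs : ZS p p') (hg : p'.g1 = 0) (hq : p'.q0 = 0) (hf : p'.f1 ≠ 0) (hg0 : p.g1 ≠ 0)
    (hq0 : p.q0 ≠ 0) : Om B := by
  have c6 := hs.c6
  rw [hg, hq] at c6
  obtain ⟨m1, m2, hm, em⟩ : ∃ m1 m2 : k, (m1 ≠ 0 ∨ m2 ≠ 0) ∧
      m2 * (p.g1 * p'.u1) - m1 * (p.q0 * p'.t1) = 0 := by
    by_cases h1 : p.g1 * p'.u1 = 0 ∧ p.q0 * p'.t1 = 0
    · exact ⟨1, 0, Or.inl one_ne_zero, by rw [h1.1, h1.2]; ring⟩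
    · refine ⟨p.g1 * p'.u1, p.q0 * p'.t1, ?_, by ring⟩
      by_contra h3
      push Not at h3
      exact h1 h3
  set η := (p.f1 * (m1 * p'.g2 + m2 * p'.q1) - m1 * (p'.f2 * p.g1 + p'.r1 * p.q0)) / p'.f1
    with hη
  have e6 : p'.f1 * η = p.f1 * (m1 * p'.g2 + m2 * p'.q1) - m1 * (p'.f2 * p.g1 + p'.r1 * p.q0) := by
    rw [hη, mul_div_cancel₀ _ hf]
  obtain ⟨s, hs0, h3⟩ := hB.ln1 h
      { Pt.z with h1 := m1 * p.g1, u0 := m1 * p.q0, t0 := m2 * p.g1, w1 := m2 * p.q0, h2 := η }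
      { Pt.z with h2 := m1 * p'.g2 + m2 * p'.q1 } (by
    constructor
    · simp only [Fa1, Pt.z, hs.z'.t0, hs.z'.u0]
      ring
    · simp only [Fa2, Pt.z, hs.z'.t0, hs.z'.w1, hs.z'.h1]
      ring
    · simp only [Fa3, Pt.z, hs.z'.u0, hs.z'.w1, hs.z'.h1]
      ring
    · simp only [Fc2, Pt.z]
      linear_combination m2 * c6
    · simp only [Fc3, Pt.z, hg, hq]
      ring
    · simp only [Fc4, Pt.z]
      linear_combination m1 * c6
    · simp only [Fc5, Pt.z, hg, hq]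
      ring
    · simp only [Fc6, Pt.z]
      ring
    · simp only [Fb1, Pt.z]
      ring
    · simp only [Fb2, Pt.z]
      linear_combination -e6
    · simp only [Fb4, Pt.z, hg]
      ring
    · simp only [Fb5, Pt.z]
      linear_combination em) (by constructor <;> simp only [Pt.z] <;> ring)
  refine bne hB h3 ?_
  rintro ⟨h4, _⟩
  rcases hm with h8 | h8
  · exact mul_ne_zero h8 hg0 (zeq hs.z.h1 h4.h1 hs0)
  · exact mul_ne_zero h8 hq0 (zeq hs.z.w1 h4.w1 hs0)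

/-- `B = 0`, `<r, q> ≠ 0`, `<g, q> = 0` -/
theorem caseR2 [Infinite k] {B : Pt k → Pt k → Prop} (hB : Op B) {p p' : Pt k} (h : B p p')
    (hs : ZS p p') (hd : p.r0 * p'.q0 - p'.r0 * p.q0 ≠ 0)
    (hgq : p.g1 * p'.q0 - p'.g1 * p.q0 = 0) : Om B := by
  have hq : p.q0 ≠ 0 ∨ p'.q0 ≠ 0 := by
    by_contra h3
    push Not at h3
    exact hd (by rw [h3.1, h3.2]; ring)
  obtain ⟨a, b, hab, h3⟩ := hB.gl h hq
  have hs3 := hs.comb a b (-p'.q0) p.q0
  have e1 : (Pt.comb (-p'.q0) p.q0 p p').g1 = 0 := by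
    simp only [Pt.comb]
    linear_combination -hgq
  have e2 : (Pt.comb (-p'.q0) p.q0 p p').q0 = 0 := by
    simp only [Pt.comb]
    ring
  have e3 : (Pt.comb a b p p').q0 = 1 := hab
  have e4 : (Pt.comb (-p'.q0) p.q0 p p').r0 ≠ 0 := by
    simp only [Pt.comb]
    intro h0
    exact hd (by linear_combination -h0)
  have c6 := hs3.c6
  rw [e1, e2, e3] at c6
  have e5 : (Pt.comb (-p'.q0) p.q0 p p').f1 * (Pt.comb a b p p').g1 ≠ 0 := by
    intro h0
    exact e4 (by linear_combination -c6 - h0)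
  refine caseR2' hB h3 hs3 e1 e2 (left_ne_zero_of_mul e5) (right_ne_zero_of_mul e5) ?_
  rw [e3]
  exact one_ne_zero

/-- `B = 0`, orthogonal basis -/
theorem caseR3' [Infinite k] {B : Pt k → Pt k → Prop} (hB : Op B) {p p' : Pt k} (h : B p p')
    (hs : ZS p p') (o1 : p.g1 * p'.f1 + p.q0 * p'.r0 = 0) (o2 : p'.g1 * p.f1 + p'.q0 * p.r0 = 0)
    (hfr : p.f1 * p'.r0 - p'.f1 * p.r0 ≠ 0) (hgq : p.g1 * p'.q0 - p'.g1 * p.q0 ≠ 0)
    (hL : p.f1 * p'.g1 - p'.f1 * p.g1 ≠ 0) : Om B := by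
  obtain ⟨x, y, hxy, exy⟩ : ∃ x y : k, (x ≠ 0 ∨ y ≠ 0) ∧
      x * (p.r0 * p.g1 * p'.u1 - p'.t1 * p.f1 * p.q0) -
        y * (p'.r0 * p'.g1 * p.u1 - p.t1 * p'.f1 * p'.q0) = 0 := by
    by_cases h1 : p'.r0 * p'.g1 * p.u1 - p.t1 * p'.f1 * p'.q0 = 0 ∧
        p.r0 * p.g1 * p'.u1 - p'.t1 * p.f1 * p.q0 = 0
    · exact ⟨1, 0, Or.inl one_ne_zero, by rw [h1.1, h1.2]; ring⟩
    · refine ⟨p'.r0 * p'.g1 * p.u1 - p.t1 * p'.f1 * p'.q0,
        p.r0 * p.g1 * p'.u1 - p'.t1 * p.f1 * p.q0, ?_, by ring⟩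
      by_contra h3
      push Not at h3
      exact h1 h3
  obtain ⟨η, η', e4, e5⟩ : ∃ η η' : k,
      p.f1 * η' - p'.f1 * η + (p.f2 * (y * (p'.f1 * p'.g1)) - p'.f2 * (x * (p.f1 * p.g1)) +
        (p.r1 * (y * (p'.f1 * p'.q0)) - p'.r1 * (x * (p.f1 * p.q0)))) = 0 ∧
      η * p'.g1 - η' * p.g1 + (x * (p.f1 * p.g1) * p'.g2 - y * (p'.f1 * p'.g1) * p.g2 +
        (x * (p.r0 * p.g1) * p'.q1 - y * (p'.r0 * p'.g1) * p.q1)) = 0 := by
    set α := p.f2 * (y * (p'.f1 * p'.g1)) - p'.f2 * (x * (p.f1 * p.g1)) +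
        (p.r1 * (y * (p'.f1 * p'.q0)) - p'.r1 * (x * (p.f1 * p.q0)))
    set β := x * (p.f1 * p.g1) * p'.g2 - y * (p'.f1 * p'.g1) * p.g2 +
        (x * (p.r0 * p.g1) * p'.q1 - y * (p'.r0 * p'.g1) * p.q1)
    set Λ := p.f1 * p'.g1 - p'.f1 * p.g1 with hΛ
    refine ⟨-(p.g1 * α + p.f1 * β) / Λ, -(p'.g1 * α + p'.f1 * β) / Λ, ?_, ?_⟩
    · field_simp
      rw [hΛ]
      ring
    · field_simp
      rw [hΛ]
      ring
  obtain ⟨s, hs0, h3⟩ := hB.ln1 h
      { Pt.z with h1 := x * (p.f1 * p.g1), u0 := x * (p.f1 * p.q0), t0 := x * (p.r0 * p.g1),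
                  w1 := x * (p.r0 * p.q0), h2 := η }
      { Pt.z with h1 := y * (p'.f1 * p'.g1), u0 := y * (p'.f1 * p'.q0),
                  t0 := y * (p'.r0 * p'.g1), w1 := y * (p'.r0 * p'.q0), h2 := η' } (by
    constructor
    · simp only [Fa1, Pt.z, hs.z.t0, hs.z.u0, hs.z'.t0, hs.z'.u0]
      ring
    · simp only [Fa2, Pt.z, hs.z.t0, hs.z.w1, hs.z.h1, hs.z'.t0, hs.z'.w1, hs.z'.h1]
      ring
    · simp only [Fa3, Pt.z, hs.z.u0, hs.z.w1, hs.z.h1, hs.z'.u0, hs.z'.w1, hs.z'.h1]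
      ring
    · simp only [Fc2, Pt.z]
      linear_combination y * p'.r0 * o2 - x * p.r0 * o1
    · simp only [Fc3, Pt.z]
      linear_combination y * p'.q0 * o1 - x * p.q0 * o2
    · simp only [Fc4, Pt.z]
      linear_combination y * p'.f1 * o2 - x * p.f1 * o1
    · simp only [Fc5, Pt.z]
      linear_combination x * p.g1 * o2 - y * p'.g1 * o1
    · simp only [Fc6, Pt.z]
      ring
    · simp only [Fb1, Pt.z]
      ring
    · simp only [Fb2, Pt.z]
      linear_combination e4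
    · simp only [Fb4, Pt.z]
      linear_combination e5
    · simp only [Fb5, Pt.z]
      linear_combination exy) (by
    constructor
    · simp only [Pt.z]
      linear_combination x * y * p.r0 * p'.q0 * o1 - x * y * p'.r0 * p.q0 * o2
    · simp only [Pt.z]
      linear_combination x * y * p'.r0 * p.g1 * o2 - x * y * p.r0 * p'.g1 * o1
    · simp only [Pt.z]
      linear_combination x * y * p.f1 * p'.q0 * o1 - x * y * p'.f1 * p.q0 * o2
    · simp only [Pt.z]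
      ring
    · simp only [Pt.z]
      ring
    · simp only [Pt.z]
      ring
    · simp only [Pt.z]
      ring
    · simp only [Pt.z]
      ring
    · simp only [Pt.z]
      ring
    · simp only [Pt.z]
      ring
    · simp only [Pt.z]
      ring
    · simp only [Pt.z]
      ring)
  refine bne hB h3 ?_
  rintro ⟨h4, h5⟩
  rcases hxy with h8 | h8
  · have k1 := (mul_eq_zero.1 (zeq hs.z.h1 h4.h1 hs0)).resolve_left h8
    have k2 := (mul_eq_zero.1 (zeq hs.z.u0 h4.u0 hs0)).resolve_left h8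
    have k3 := (mul_eq_zero.1 (zeq hs.z.t0 h4.t0 hs0)).resolve_left h8
    have k4 := (mul_eq_zero.1 (zeq hs.z.w1 h4.w1 hs0)).resolve_left h8
    by_cases hf : p.f1 = 0
    · have hr : p.r0 ≠ 0 := by
        intro h0
        exact hfr (by rw [hf, h0]; ring)
      exact hgq (by rw [(mul_eq_zero.1 k3).resolve_left hr, (mul_eq_zero.1 k4).resolve_left hr]
                    ring)
    · exact hgq (by rw [(mul_eq_zero.1 k1).resolve_left hf, (mul_eq_zero.1 k2).resolve_left hf]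
                    ring)
  · have k1 := (mul_eq_zero.1 (zeq hs.z'.h1 h5.h1 hs0)).resolve_left h8
    have k2 := (mul_eq_zero.1 (zeq hs.z'.u0 h5.u0 hs0)).resolve_left h8
    have k3 := (mul_eq_zero.1 (zeq hs.z'.t0 h5.t0 hs0)).resolve_left h8
    have k4 := (mul_eq_zero.1 (zeq hs.z'.w1 h5.w1 hs0)).resolve_left h8
    by_cases hf : p'.f1 = 0
    · have hr : p'.r0 ≠ 0 := by
        intro h0
        exact hfr (by rw [hf, h0]; ring)
      exact hgq (by rw [(mul_eq_zero.1 k3).resolve_left hr, (mul_eq_zero.1 k4).resolve_left hr]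
                    ring)
    · exact hgq (by rw [(mul_eq_zero.1 k1).resolve_left hf, (mul_eq_zero.1 k2).resolve_left hf]
                    ring)

/-- `B = 0`, general position -/
theorem caseR3 [Infinite k] (h2k : (2 : k) ≠ 0) {B : Pt k → Pt k → Prop} (hB : Op B)
    {p p' : Pt k} (h : B p p')
    (hs : ZS p p') (hfr : p.f1 * p'.r0 - p'.f1 * p.r0 ≠ 0)
    (hgq : p.g1 * p'.q0 - p'.g1 * p.q0 ≠ 0) (hL : p.f1 * p'.g1 - p'.f1 * p.g1 ≠ 0) : Om B := by
  obtain ⟨a, b, c, d, hd, ho⟩ : ∃ a b c d : k, a * d - b * c ≠ 0 ∧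
      a * c * (p.g1 * p.f1 + p.q0 * p.r0) + (a * d + b * c) * (p.g1 * p'.f1 + p.q0 * p'.r0) +
        b * d * (p'.g1 * p'.f1 + p'.q0 * p'.r0) = 0 := by
    by_cases h1 : p.g1 * p.f1 + p.q0 * p.r0 = 0
    · by_cases h2 : p'.g1 * p'.f1 + p'.q0 * p'.r0 = 0
      · refine ⟨1, 1, 1, -1, ?_, ?_⟩
        · intro h0
          exact h2k (by linear_combination -h0)
        · rw [h1, h2]
          ring
      · refine ⟨p'.g1 * p'.f1 + p'.q0 * p'.r0, -(p.g1 * p'.f1 + p.q0 * p'.r0), 0, 1, ?_, ?_⟩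
        · rw [mul_one, mul_zero, sub_zero]
          exact h2
        · ring
    · refine ⟨1, 0, -(p.g1 * p'.f1 + p.q0 * p'.r0), p.g1 * p.f1 + p.q0 * p.r0, ?_, ?_⟩
      · rw [one_mul, zero_mul, sub_zero]
        exact h1
      · ring
  have c6 := hs.c6
  refine caseR3' hB (hB.lin p p' a b c d hd h) (hs.comb a b c d) ?_ ?_ ?_ ?_ ?_
  · simp only [Pt.comb]
    linear_combination ho + b * c * c6
  · simp only [Pt.comb]
    linear_combination ho + a * d * c6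
  · simp only [Pt.comb]
    have e : (a * p.f1 + b * p'.f1) * (c * p.r0 + d * p'.r0) - (c * p.f1 + d * p'.f1) *
        (a * p.r0 + b * p'.r0) = (a * d - b * c) * (p.f1 * p'.r0 - p'.f1 * p.r0) := by ring
    rw [e]
    exact mul_ne_zero hd hfr
  · simp only [Pt.comb]
    have e : (a * p.g1 + b * p'.g1) * (c * p.q0 + d * p'.q0) - (c * p.g1 + d * p'.g1) *
        (a * p.q0 + b * p'.q0) = (a * d - b * c) * (p.g1 * p'.q0 - p'.g1 * p.q0) := by ring
    rw [e]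
    exact mul_ne_zero hd hgq
  · simp only [Pt.comb]
    have e : (a * p.f1 + b * p'.f1) * (c * p.g1 + d * p'.g1) - (c * p.f1 + d * p'.f1) *
        (a * p.g1 + b * p'.g1) = (a * d - b * c) * (p.f1 * p'.g1 - p'.f1 * p.g1) := by ring
    rw [e]
    exact mul_ne_zero hd hL

/-- the chart `B(z)` scalar is always reached -/
theorem om_all [Infinite k] (h2k : (2 : k) ≠ 0) {B : Pt k → Pt k → Prop} (hB : Op B)
    {p p' : Pt k} (h : B p p') : Om B := by
  by_cases hz : Zr p ∧ Zr p'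
  · have hs : ZS p p' := ⟨hz.1, hz.2, (hB.rel _ _ h).c6⟩
    by_cases hd : p.r0 * p'.q0 - p'.r0 * p.q0 = 0
    · exact caseR1 hB h hs hd
    · by_cases hgq : p.g1 * p'.q0 - p'.g1 * p.q0 = 0
      · exact caseR2 hB h hs hd hgq
      · by_cases hfr : p.f1 * p'.r0 - p'.f1 * p.r0 = 0
        · refine Om.du (caseR2 hB.du (p := p.du) (p' := p'.du) h hs.du ?_ ?_)
          · simp only [Pt.du]
            intro h0
            exact hd (by linear_combination -h0)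
          · simp only [Pt.du]
            exact hfr
        · refine caseR3 h2k hB h hs hfr hgq ?_
          intro h0
          exact hd (by linear_combination hs.c6 - h0)
  · exact bne hB h hz

end Pool.Agent.Lib.D13.Al
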