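import Pool.Agent.Lib.D13.Al6

/-!
# MP_5dcbc3_ag: type (6,4,2), case alpha, the chart `B(z) = 1` and its generic member
-/

set_option autoImplicit false

namespace Pool.Agent.Lib.D13.Al

open Pool.Agent.Lib.D7

variable {k : Type*} [Field k]

/-- parameters of the chart -/
@[ext] structure CP (k : Type*) where
  (h w fp gp a m1 m2 b c n1 n2 d Fp Gp Hp Rp Qp H T U f3 g3 h3 f3p g3p h3p : k)

/-- second element -/
def CP.z (x : CP k) : Pt k where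
  f1 := x.fp
  f2 := x.Fp
  f3 := x.f3p
  g1 := x.gp
  g2 := x.Gp
  g3 := x.g3p
  h1 := 1
  h2 := x.Hp
  h3 := x.h3p
  r0 := x.a * x.m1
  r1 := x.Rp
  t0 := 0
  t1 := x.d * x.n1
  q0 := x.a * x.m2
  q1 := x.Qp
  u0 := 0
  u1 := x.d * x.n2
  w1 := 1

/-- first element -/
def CP.y (x : CP k) : Pt k where
  f1 := x.h * x.fp + x.c * x.n2 * (x.a * x.m1)
  f2 := x.h * x.Fp + x.c * x.n2 * x.Rp + (x.H * x.fp + x.U * (x.a * x.m1)) -
    (x.Hp * (x.h * x.fp + x.c * x.n2 * (x.a * x.m1)) +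
      x.d * x.n2 * (x.c * x.n1 * x.fp + x.w * (x.a * x.m1)))
  f3 := x.f3
  g1 := x.h * x.gp + x.c * x.n1 * (x.a * x.m2)
  g2 := x.h * x.Gp + x.c * x.n1 * x.Qp + (x.H * x.gp + x.T * (x.a * x.m2)) -
    (x.Hp * (x.h * x.gp + x.c * x.n1 * (x.a * x.m2)) +
      x.d * x.n1 * (x.c * x.n2 * x.gp + x.w * (x.a * x.m2)))
  g3 := x.g3
  h1 := x.h
  h2 := x.H
  h3 := x.h3
  r0 := x.c * x.n1 * x.fp + x.w * (x.a * x.m1)
  r1 := x.b * x.m1 + x.w * x.Rp + x.c * x.n1 * x.Fp + x.fp * x.T -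
    x.fp * (x.c * x.n1 * x.Hp + x.w * (x.d * x.n1))
  t0 := x.c * x.n1
  t1 := x.T
  q0 := x.c * x.n2 * x.gp + x.w * (x.a * x.m2)
  q1 := x.b * x.m2 + x.w * x.Qp + x.c * x.n2 * x.Gp + x.gp * x.U -
    x.gp * (x.c * x.n2 * x.Hp + x.w * (x.d * x.n2))
  u0 := x.c * x.n2
  u1 := x.U
  w1 := x.w

theorem rel_cp (x : CP k) : Rel x.y x.z := by
  constructor <;> simp only [CP.y, CP.z] <;> ring

theorem rk1 {x1 x2 y1 y2 : k} (h : x1 * y2 - x2 * y1 = 0) :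
    ∃ a b m1 m2 : k, x1 = a * m1 ∧ x2 = a * m2 ∧ y1 = b * m1 ∧ y2 = b * m2 := by
  by_cases h1 : x1 = 0
  · by_cases h2 : x2 = 0
    · exact ⟨0, 1, y1, y2, by rw [h1]; ring, by rw [h2]; ring, by ring, by ring⟩
    · refine ⟨1, y2 / x2, x1, x2, by ring, by ring, ?_, ?_⟩
      · rw [h1, mul_zero]
        rw [h1] at h
        have h3 : x2 * y1 = 0 := by linear_combination -h
        exact (mul_eq_zero.1 h3).resolve_left h2
      · field_simp
  · refine ⟨1, y1 / x1, x1, x2, by ring, by ring, ?_, ?_⟩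
    · field_simp
    · field_simp
      linear_combination h

theorem exists_cp {p p' : Pt k} (h : Rel p p') (ht' : p'.t0 = 0) (hu' : p'.u0 = 0)
    (hh' : p'.h1 = 1) (hw' : p'.w1 = 1) : ∃ x : CP k, x.y = p ∧ x.z = p' := by
  have c2 := h.c2
  have c3 := h.c3
  have c4 := h.c4
  have c5 := h.c5
  have b1 := h.b1
  have b2 := h.b2
  have b4 := h.b4
  have b5 := h.b5
  rw [ht', hw'] at c2
  rw [hu', hw'] at c3
  rw [hu', hh'] at c4 b2
  rw [ht', hh'] at c5 b4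
  rw [ht', hu'] at b5
  have hr0 : p.r0 = p.t0 * p'.f1 + p.w1 * p'.r0 := by linear_combination c2
  have hq0 : p.q0 = p.u0 * p'.g1 + p.w1 * p'.q0 := by linear_combination c3
  have hf1 : p.f1 = p.h1 * p'.f1 + p.u0 * p'.r0 := by linear_combination c4
  have hg1 : p.g1 = p.h1 * p'.g1 + p.t0 * p'.q0 := by linear_combination -c5
  have hf2 : p.f2 = p.h1 * p'.f2 + p.u0 * p'.r1 + (p.h2 * p'.f1 + p.u1 * p'.r0) -
      (p'.h2 * p.f1 + p'.u1 * p.r0) := by linear_combination b2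
  have hg2 : p.g2 = p.h1 * p'.g2 + p.t0 * p'.q1 + (p.h2 * p'.g1 + p.t1 * p'.q0) -
      (p'.h2 * p.g1 + p'.t1 * p.q0) := by linear_combination -b4
  have hb5 : p.t0 * p'.u1 - p.u0 * p'.t1 = 0 := by linear_combination b5
  obtain ⟨c, d, n1, n2, e1, e2, e3, e4⟩ := rk1 hb5
  set RR := p.r1 - (p.w1 * p'.r1 + p.t0 * p'.f2 + p'.f1 * p.t1 -
    p'.f1 * (p.t0 * p'.h2 + p.w1 * p'.t1)) with hRR
  set QQ := p.q1 - (p.w1 * p'.q1 + p.u0 * p'.g2 + p'.g1 * p.u1 -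
    p'.g1 * (p.u0 * p'.h2 + p.w1 * p'.u1)) with hQQ
  have hRQ : p'.r0 * QQ - p'.q0 * RR = 0 := by
    rw [hf2, hg2, hf1, hg1, hr0, hq0] at b1
    rw [hRR, hQQ]
    linear_combination -b1 - p'.f1 * p'.g1 * hb5
  obtain ⟨a, b, m1, m2, e5, e6, e7, e8⟩ := rk1 hRQ
  refine ⟨⟨p.h1, p.w1, p'.f1, p'.g1, a, m1, m2, b, c, n1, n2, d, p'.f2, p'.g2, p'.h2, p'.r1,
    p'.q1, p.h2, p.t1, p.u1, p.f3, p.g3, p.h3, p'.f3, p'.g3, p'.h3⟩, ?_, ?_⟩
  · ext
    all_goals simp only [CP.y, ← e1, ← e2, ← e3, ← e4, ← e5, ← e6, ← e7, ← e8]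
    · exact hf1.symm
    · rw [← hf1, ← hr0]
      exact hf2.symm
    · exact hg1.symm
    · rw [← hg1, ← hq0]
      exact hg2.symm
    · exact hr0.symm
    · rw [hRR]
      ring
    · exact hq0.symm
    · rw [hQQ]
      ring
  · ext
    all_goals simp only [CP.z, ← e1, ← e2, ← e3, ← e4, ← e5, ← e6, ← e7, ← e8]
    · exact hh'.symm
    · exact ht'.symm
    · exact hu'.symm
    · exact hw'.symm

/-- generic members of the chart -/
structure Gn (p p' : Pt k) : Prop where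
  t0' : p'.t0 = 0
  u0' : p'.u0 = 0
  h1' : p'.h1 = 1
  w1' : p'.w1 = 1
  t0 : p.t0 ≠ 0
  u0 : p.u0 ≠ 0
  dc : (p.h1 - p.w1) * (p.h1 - p.w1) + 4 * (p.t0 * p.u0) ≠ 0
  r0' : p'.r0 ≠ 0
  q0' : p'.q0 ≠ 0
  cc : p'.f1 * p.r0 - p'.r0 * p.f1 ≠ 0

theorem gen_all [Infinite k] (h2k : (2 : k) ≠ 0) {B : Pt k → Pt k → Prop} (hB : Op B)
    {p p' : Pt k} (h : B p p') : ∃ q q', B q q' ∧ Gn q q' := by
  obtain ⟨p1, p1', h1, ht', hu', hhw, hw0⟩ := om_all h2k hB h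
  have h2 := hB.lin p1 p1' 1 0 0 (p1'.w1)⁻¹ (by
    rw [one_mul, mul_zero, sub_zero]
    exact inv_ne_zero hw0) h1
  obtain ⟨x, ey, ez⟩ := exists_cp (hB.rel _ _ h2) (by
      simp only [Pt.comb, ht']
      ring) (by
      simp only [Pt.comb, hu']
      ring) (by
      simp only [Pt.comb, hhw]
      rw [inv_mul_cancel₀ hw0]
      ring) (by
      simp only [Pt.comb]
      rw [inv_mul_cancel₀ hw0]
      ring)
  rw [← ey, ← ez] at h2
  let Y : k → CP k := fun s =>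
    { x with h := x.h * (1 - s), w := x.w * (1 - s), fp := x.fp * (1 - s), gp := x.gp * (1 - s),
             a := x.a * (1 - s) + s, m1 := x.m1 * (1 - s) + s, m2 := x.m2 * (1 - s) + s,
             c := x.c * (1 - s) + s, n1 := x.n1 * (1 - s) + s, n2 := x.n2 * (1 - s) + s }
  have hPy : PolyPt fun s => (Y s).y := by
    constructor <;> dsimp only [Y, CP.y] <;>
    (repeat' first
      | exact D7.IsPoly.const _
      | exact D7.IsPoly.id
      | refine D7.IsPoly.add ?_ ?_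
      | refine D7.IsPoly.sub ?_ ?_
      | refine D7.IsPoly.mul ?_ ?_)
  have hPz : PolyPt fun s => (Y s).z := by
    constructor <;> dsimp only [Y, CP.z] <;>
    (repeat' first
      | exact D7.IsPoly.const _
      | exact D7.IsPoly.id
      | refine D7.IsPoly.add ?_ ?_
      | refine D7.IsPoly.sub ?_ ?_
      | refine D7.IsPoly.mul ?_ ?_)
  have h0 : Y 0 = x := by
    ext <;> simp [Y]
  have hD : D7.IsPoly fun s => (Y s).y.t0 * (Y s).y.u0 *
      (((Y s).y.h1 - (Y s).y.w1) * ((Y s).y.h1 - (Y s).y.w1) + 4 * ((Y s).y.t0 * (Y s).y.u0)) *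
      (Y s).z.r0 * (Y s).z.q0 * ((Y s).z.f1 * (Y s).y.r0 - (Y s).z.r0 * (Y s).y.f1) := by
    refine D7.IsPoly.mul (D7.IsPoly.mul (D7.IsPoly.mul (D7.IsPoly.mul (D7.IsPoly.mul hPy.t0 hPy.u0)
      ?_) hPz.r0) hPz.q0) ?_
    · exact D7.IsPoly.add (D7.IsPoly.mul (D7.IsPoly.sub hPy.h1 hPy.w1)
        (D7.IsPoly.sub hPy.h1 hPy.w1)) (D7.IsPoly.mul (D7.IsPoly.const _)
        (D7.IsPoly.mul hPy.t0 hPy.u0))
    · exact D7.IsPoly.sub (D7.IsPoly.mul hPz.f1 hPy.r0) (D7.IsPoly.mul hPz.r0 hPy.f1)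
  have hfin := hD.finite (s₁ := 1) (by
    simp only [Y, CP.y, CP.z]
    have e : (4 : k) = 2 * 2 := by norm_num
    have e4 : (4 : k) ≠ 0 := by
      rw [e]
      exact mul_ne_zero h2k h2k
    simpa using e4)
  obtain ⟨s, hs, h3⟩ := hB.one _ _ hPy hPz (fun s => rel_cp (Y s)) (by
    simp only [h0]
    exact h2) hfin
  rw [Set.mem_setOf_eq] at hs
  refine ⟨_, _, h3, rfl, rfl, rfl, rfl, ?_, ?_, ?_, ?_, ?_, ?_⟩
  · exact fun h4 => hs (by rw [h4]; ring)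
  · exact fun h4 => hs (by rw [h4]; ring)
  · exact fun h4 => hs (by rw [h4]; ring)
  · exact fun h4 => hs (by rw [h4]; ring)
  · exact fun h4 => hs (by rw [h4]; ring)
  · exact fun h4 => hs (by rw [h4]; ring)

/-- the normal form: `B(y)`, `B(z)` complementary projections -/
structure NF (p p' : Pt k) (γ γ' : k) : Prop where
  w1 : p.w1 = 1 - p.h1
  h1' : p'.h1 = 1 - p.h1
  w1' : p'.w1 = p.h1
  t0' : p'.t0 = -p.t0
  u0' : p'.u0 = -p.u0
  idem : p.h1 * (1 - p.h1) = p.t0 * p.u0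
  t0 : p.t0 ≠ 0
  u0 : p.u0 ≠ 0
  f1 : p.f1 = γ * p.h1
  r0 : p.r0 = γ * p.t0
  f1' : p'.f1 = γ' * (1 - p.h1)
  r0' : p'.r0 = -(γ' * p.t0)
  g : γ ≠ 0
  g' : γ' ≠ 0
  gg : γ ≠ γ'
  kap : p.h1 * (p'.g1 * (1 - p.h1) - p'.q0 * p.t0) - (1 - p.h1) * (p.g1 * p.h1 + p.q0 * p.t0) ≠ 0

theorem nf_of {p p' : Pt k} (hr : Rel p p') (w1 : p.w1 = 1 - p.h1) (h1' : p'.h1 = 1 - p.h1)
    (w1' : p'.w1 = p.h1) (t0' : p'.t0 = -p.t0) (u0' : p'.u0 = -p.u0)
    (idem : p.h1 * (1 - p.h1) = p.t0 * p.u0) (t0 : p.t0 ≠ 0) (u0 : p.u0 ≠ 0)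
    (hcc : p'.f1 * p.r0 - p'.r0 * p.f1 ≠ 0) (hrr : p.r0 + p'.r0 ≠ 0) (hqq : p.q0 + p'.q0 ≠ 0) :
    ∃ γ γ', NF p p' γ γ' := by
  have c2 := hr.c2
  have c3 := hr.c3
  have c4 := hr.c4
  have c5 := hr.c5
  rw [t0', w1', w1] at c2
  rw [u0', w1', w1] at c3
  rw [u0', h1'] at c4
  rw [t0', h1'] at c5
  have a2 : p.h1 * p.r0 - p.t0 * p.f1 = 0 := by
    linear_combination (p.r0 + p'.r0) * idem - p.t0 * c4 + p.h1 * c2
  have a2' : p.t0 * p'.f1 + (1 - p.h1) * p'.r0 = 0 := by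
    linear_combination a2 - c2
  have b2 : -p.g1 * p.u0 + p.q0 * p.h1 = 0 := by
    linear_combination (p.q0 + p'.q0) * idem + p.h1 * c3 + p.u0 * c5
  have b2' : p'.g1 * p.u0 + p'.q0 * (1 - p.h1) = 0 := by
    linear_combination b2 - c3
  obtain ⟨it, hit⟩ : ∃ it : k, it * p.t0 = 1 := ⟨p.t0⁻¹, inv_mul_cancel₀ t0⟩
  have f1 : p.f1 = p.r0 * it * p.h1 := by
    linear_combination -it * a2 - p.f1 * hit
  have r0 : p.r0 = p.r0 * it * p.t0 := by
    linear_combination -p.r0 * hit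
  have f1' : p'.f1 = -(p'.r0 * it) * (1 - p.h1) := by
    linear_combination it * a2' - p'.f1 * hit
  have r0' : p'.r0 = -(-(p'.r0 * it) * p.t0) := by
    linear_combination -p'.r0 * hit
  have hg : p.r0 * it * (-(p'.r0 * it)) ≠ 0 := by
    intro h0
    apply hcc
    have : p'.f1 * p.r0 - p'.r0 * p.f1 = p.r0 * it * (-(p'.r0 * it)) * p.t0 := by
      rw [f1', f1]
      linear_combination (p'.r0 * p.r0 * it) * hit
    rw [this, h0, zero_mul]
  refine ⟨p.r0 * it, -(p'.r0 * it), ⟨w1, h1', w1', t0', u0', idem, t0, u0, f1, r0, f1', r0',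
    left_ne_zero_of_mul hg, right_ne_zero_of_mul hg, ?_, ?_⟩⟩
  · intro h0
    apply hrr
    linear_combination p.t0 * h0 - (p.r0 + p'.r0) * hit
  · intro h0
    apply mul_ne_zero t0 hqq
    linear_combination (p'.g1 - p.g1) * idem + p.t0 * b2 + p.t0 * b2' - h0

theorem nf_all [IsAlgClosed k] (h2k : (2 : k) ≠ 0) {B : Pt k → Pt k → Prop} (hB : Op B)
    {p p' : Pt k} (h : B p p') : ∃ q q' γ γ', B q q' ∧ NF q q' γ γ' := by
  haveI : Infinite k := IsAlgClosed.instInfinite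
  obtain ⟨y, z, h1, hG⟩ := gen_all h2k hB h
  -- eigenvalues of `B(y)`
  obtain ⟨δ, hδ⟩ : ∃ δ : k, (y.h1 - y.w1) * (y.h1 - y.w1) + 4 * (y.t0 * y.u0) = δ * δ :=
    IsAlgClosed.exists_eq_mul_self _
  have hδ0 : δ ≠ 0 := by
    rintro rfl
    exact hG.dc (by rw [hδ]; ring)
  obtain ⟨i2, hi2⟩ : ∃ i2 : k, i2 * 2 = 1 := ⟨2⁻¹, inv_mul_cancel₀ h2k⟩
  obtain ⟨e, he⟩ : ∃ e : k, e * δ = 1 := ⟨δ⁻¹, inv_mul_cancel₀ hδ0⟩
  have he0 : e ≠ 0 := left_ne_zero_of_mul (by rw [he]; exact one_ne_zero)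
  set l1 := (y.h1 + y.w1 + δ) * i2 with hl1
  set l2 := (y.h1 + y.w1 - δ) * i2 with hl2
  have s1 : l1 + l2 = y.h1 + y.w1 := by
    rw [hl1, hl2]
    linear_combination (y.h1 + y.w1) * hi2
  have s2 : l1 - l2 = δ := by
    rw [hl1, hl2]
    linear_combination δ * hi2
  have s3 : l1 * l2 = y.h1 * y.w1 - y.t0 * y.u0 := by
    have h4 : l1 * l2 = ((y.h1 + y.w1) * (y.h1 + y.w1) - δ * δ) * (i2 * i2) := by
      rw [hl1, hl2]
      ring
    rw [h4, ← hδ]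
    linear_combination (y.h1 * y.w1 - y.t0 * y.u0) * (2 * i2 + 1) * hi2
  have h3 := hB.lin y z e (-l2 * e) (-e) (l1 * e) (by
    have h5 : e * (l1 * e) - -l2 * e * -e = e := by
      linear_combination e * e * s2 + e * he
    rw [h5]
    exact he0) h1
  obtain ⟨γ, γ', hN⟩ := nf_of (hB.rel _ _ h3) (by
      simp only [Pt.comb, hG.h1', hG.w1']
      linear_combination -e * s1 + e * s2 + he) (by
      simp only [Pt.comb, hG.h1', hG.w1']
      linear_combination e * s2 + he) (by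
      simp only [Pt.comb, hG.h1', hG.w1']
      linear_combination e * s1) (by
      simp only [Pt.comb, hG.t0']
      ring) (by
      simp only [Pt.comb, hG.u0']
      ring) (by
      simp only [Pt.comb, hG.h1', hG.w1', hG.t0', hG.u0']
      have h6 : 1 = e * (l1 - l2) := by
        rw [s2, he]
      have h7 : 1 - (e * y.h1 + -l2 * e * 1) = e * (l1 - y.h1) := by
        linear_combination h6
      rw [h7]
      linear_combination e * e * y.h1 * s1 - e * e * s3) (by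
      simp only [Pt.comb, hG.t0', mul_zero, add_zero]
      exact mul_ne_zero he0 hG.t0) (by
      simp only [Pt.comb, hG.u0', mul_zero, add_zero]
      exact mul_ne_zero he0 hG.u0) (by
      simp only [Pt.comb]
      intro h0
      apply mul_ne_zero he0 hG.cc
      linear_combination h0 - e * e * (z.f1 * y.r0 - z.r0 * y.f1) * s2 -
        e * (z.f1 * y.r0 - z.r0 * y.f1) * he) (by
      simp only [Pt.comb]
      intro h0
      apply hG.r0'
      linear_combination h0 - e * z.r0 * s2 - z.r0 * he) (by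
      simp only [Pt.comb]
      intro h0
      apply hG.q0'
      linear_combination h0 - e * z.q0 * s2 - z.q0 * he)
  exact ⟨_, _, γ, γ', h3, hN⟩

end Pool.Agent.Lib.D13.Al
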