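import Pool.Agent.Lib.D7.Adj
import Pool.Agent.Lib.D8.Axes

/-!
# MP_5dcbc3_ag: three axes up to terms of higher weight

`X 0, X 1, X 2` commuting matrices with weights `d i`, a filtration `F m` with `X i F m ⊆ F (m + d i)`
which is spanned by the vectors `X i ^ a v` (of weight `a d i`) and vanishes above `L = p i * d i`.
If `X i X j v` has weight greater than `d i + d j` for `i ≠ j`, then changes `X i -> X i - ..` by terms
of higher weight lead to `X i X j v = 0` (`normA`). With a second generator `u`, `X i u = l i X i v`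
up to terms of higher weight, the triple is a limit of curvilinear triples (`cl_lead2`); with one
generator: `cl_lead1`.
-/

set_option autoImplicit false

namespace Pool.Agent.Lib.D13

open Matrix Pool.Agent.Lib.Q5dc Pool.Agent.Lib.D7

namespace Lead

variable {k : Type*} [Field k] {n : Type*} [Fintype n] [DecidableEq n]

/-- axes up to terms of higher weight -/
structure LD (F : ℕ → Submodule k (n → k)) (X : Fin 3 → Matrix n n k) (v : n → k)
    (d p : Fin 3 → ℕ) (L : ℕ) (c : Fin 3 → k) (κ : ℕ) : Prop where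
  comm : ∀ i j, X i * X j = X j * X i
  anti : ∀ m, F (m + 1) ≤ F m
  top : F (L + 1) = ⊥
  act : ∀ i m w, w ∈ F m → X i *ᵥ w ∈ F (m + d i)
  av : ∀ i, X i *ᵥ v ∈ F (d i)
  gen : ∀ m, 1 ≤ m → m ≤ L → F m ≤
    Submodule.span k {w | ∃ i a, 1 ≤ a ∧ a * d i = m ∧ w = X i ^ a *ᵥ v} ⊔ F (m + 1)
  dpos : ∀ i, 1 ≤ d i
  pd : ∀ i, p i * d i = L
  rel : ∑ i, c i • (X i ^ p i *ᵥ v) = 0
  c0 : ∀ i, c i ≠ 0
  ind : ∀ i j, i ≠ j → ∀ a b : k, a • (X i ^ p i *ᵥ v) = b • (X j ^ p j *ᵥ v) → a = 0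
  prod : ∀ i j, i ≠ j → X i *ᵥ (X j *ᵥ v) ∈ F (d i + d j + κ)

/-- the power of weight `s` of the axis `j` -/
def Q (X : Fin 3 → Matrix n n k) (d : Fin 3 → ℕ) (j : Fin 3) (s : ℕ) : Matrix n n k :=
  if d j ∣ s then X j ^ (s / d j) else 0

variable {F : ℕ → Submodule k (n → k)} {X : Fin 3 → Matrix n n k} {v : n → k}
  {d p : Fin 3 → ℕ} {L : ℕ} {c : Fin 3 → k} {κ : ℕ}

section Basic

variable (h : LD F X v d p L c κ)
include h

theorem mono {m m' : ℕ} (hm : m ≤ m') : F m' ≤ F m := by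
  induction m', hm using Nat.le_induction with
  | base => exact le_rfl
  | succ m' _ ih => exact (h.anti m').trans ih

theorem big {m : ℕ} (hm : L < m) {w : n → k} (hw : w ∈ F m) : w = 0 := by
  have h1 : w ∈ F (L + 1) := mono h (by omega) hw
  rwa [h.top, Submodule.mem_bot] at h1

theorem pow_act (i : Fin 3) (a : ℕ) {m : ℕ} {w : n → k} (hw : w ∈ F m) :
    X i ^ a *ᵥ w ∈ F (m + a * d i) := by
  induction a with
  | zero => simpa using hw
  | succ a ih =>
    rw [pow_succ', ← mulVec_mulVec]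
    have h1 := h.act i _ _ ih
    have h2 : m + (a + 1) * d i = m + a * d i + d i := by ring
    rwa [h2]

theorem pow_of {u : n → k} (hu : ∀ i, X i *ᵥ u ∈ F (d i)) (i : Fin 3) {a : ℕ} (ha : 1 ≤ a) :
    X i ^ a *ᵥ u ∈ F (a * d i) := by
  obtain ⟨a, rfl⟩ : ∃ b, a = b + 1 := ⟨a - 1, by omega⟩
  rw [pow_succ, ← mulVec_mulVec]
  have h1 := pow_act h i a (hu i)
  have h2 : (a + 1) * d i = d i + a * d i := by ring
  rwa [h2]

theorem cm (i j : Fin 3) : Commute (X i) (X j) := h.comm i j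

theorem mix {i j : Fin 3} (hij : i ≠ j) {a b : ℕ} (ha : 1 ≤ a) (hb : 1 ≤ b) :
    X i ^ a *ᵥ (X j ^ b *ᵥ v) ∈ F (a * d i + b * d j + κ) := by
  obtain ⟨a, rfl⟩ : ∃ c, a = c + 1 := ⟨a - 1, by omega⟩
  obtain ⟨b, rfl⟩ : ∃ c, b = c + 1 := ⟨b - 1, by omega⟩
  have e : X i ^ (a + 1) *ᵥ (X j ^ (b + 1) *ᵥ v) =
      X i ^ a *ᵥ (X j ^ b *ᵥ (X i *ᵥ (X j *ᵥ v))) := by
    rw [mulVec_mulVec, mulVec_mulVec, mulVec_mulVec, mulVec_mulVec]
    congr 1
    rw [pow_succ, pow_succ, mul_assoc, mul_assoc, ← mul_assoc (X i) (X j ^ b) (X j),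
      ((cm h i j).pow_right b).eq]
    simp only [mul_assoc]
  rw [e]
  have h1 := pow_act h i a (pow_act h j b (h.prod i j hij))
  have h2 : (a + 1) * d i + (b + 1) * d j + κ = d i + d j + κ + b * d j + a * d i := by ring
  rwa [h2]

theorem Q_eq {j : Fin 3} {a : ℕ} : Q X d j (a * d j) = X j ^ a := by
  rw [Q, if_pos (dvd_mul_left _ _), Nat.mul_div_cancel _ (h.dpos j)]

omit h in
theorem Q_of_not {j : Fin 3} {s : ℕ} (hs : ¬ d j ∣ s) : Q X d j s = 0 := if_neg hs

theorem Q_act (j : Fin 3) {s m : ℕ} {w : n → k} (hw : w ∈ F m) :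
    Q X d j s *ᵥ w ∈ F (m + s) := by
  by_cases hs : d j ∣ s
  · obtain ⟨a, rfl⟩ := hs
    rw [mul_comm (d j) a, Q_eq h]
    exact pow_act h j a hw
  · rw [Q_of_not hs, zero_mulVec]
    exact zero_mem _

theorem Q_of {u : n → k} (hu : ∀ i, X i *ᵥ u ∈ F (d i)) (j : Fin 3) {s : ℕ} (hs : 1 ≤ s) :
    Q X d j s *ᵥ u ∈ F s := by
  by_cases hd : d j ∣ s
  · obtain ⟨a, rfl⟩ := hd
    rw [mul_comm (d j) a, Q_eq h]
    refine pow_of h hu j ?_
    by_contra hc
    have : a = 0 := by omega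
    subst this
    omega
  · rw [Q_of_not hd, zero_mulVec]
    exact zero_mem _

theorem Q_mix {i j : Fin 3} (hij : i ≠ j) {a s : ℕ} (ha : 1 ≤ a) (hs : 1 ≤ s) :
    X i ^ a *ᵥ (Q X d j s *ᵥ v) ∈ F (a * d i + s + κ) := by
  by_cases hd : d j ∣ s
  · obtain ⟨b, rfl⟩ := hd
    rw [mul_comm (d j) b, Q_eq h]
    refine mix h hij ha ?_
    by_contra hc
    have : b = 0 := by omega
    subst this
    omega
  · rw [Q_of_not hd, zero_mulVec, mulVec_zero]
    exact zero_mem _

theorem mul_Q (j : Fin 3) (s : ℕ) : X j * Q X d j s = Q X d j (s + d j) := by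
  by_cases hd : d j ∣ s
  · obtain ⟨b, rfl⟩ := hd
    have : d j * b + d j = (b + 1) * d j := by ring
    rw [this, mul_comm (d j) b, Q_eq h, Q_eq h, pow_succ']
  · have h2 : ¬ d j ∣ s + d j := fun h3 => hd ((Nat.dvd_add_left (dvd_refl _)).1 h3)
    rw [Q_of_not hd, Q_of_not h2, mul_zero]

theorem Q_comm (i j : Fin 3) (s : ℕ) : X i * Q X d j s = Q X d j s * X i := by
  rw [Q]
  split_ifs
  · exact ((cm h i j).pow_right _).eq
  · rw [mul_zero, zero_mul]

theorem Q_adj {X' : Fin 3 → Matrix n n k} {j : Fin 3} (hj : X j ∈ adj X') {s : ℕ}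
    (hs : 1 ≤ s) : Q X d j s ∈ adj X' := by
  by_cases hd : d j ∣ s
  · obtain ⟨b, rfl⟩ := hd
    rw [mul_comm (d j) b, Q_eq h]
    obtain ⟨b, rfl⟩ : ∃ c, b = c + 1 := by
      refine ⟨b - 1, ?_⟩
      have : b ≠ 0 := by
        rintro rfl
        omega
      omega
    clear hs
    induction b with
    | zero => simpa using hj
    | succ b ih =>
      rw [pow_succ]
      exact mul_mem ih hj
  · rw [Q_of_not hd]
    exact zero_mem _

/-- leading terms -/
theorem lead {m : ℕ} (hm : 1 ≤ m) {w : n → k} (hw : w ∈ F m) :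
    ∃ α : Fin 3 → k, w - ∑ j, α j • (Q X d j m *ᵥ v) ∈ F (m + 1) := by
  by_cases hL : m ≤ L
  · obtain ⟨y, hy, z, hz, rfl⟩ := Submodule.mem_sup.1 (h.gen m hm hL hw)
    have h1 : y ∈ Submodule.span k (Set.range fun j : Fin 3 => Q X d j m *ᵥ v) := by
      refine Submodule.span_mono ?_ hy
      rintro x ⟨i, a, -, rfl, rfl⟩
      exact ⟨i, by simp only [Q_eq h]⟩
    obtain ⟨α, hα⟩ := (Submodule.mem_span_range_iff_exists_fun k).1 h1
    refine ⟨α, ?_⟩
    rw [hα, add_sub_cancel_left]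
    exact hz
  · refine ⟨0, ?_⟩
    rw [big h (by omega) hw]
    simp

theorem sum3 {M : Type*} [AddCommMonoid M] {i j l : Fin 3} (hij : i ≠ j) (hil : i ≠ l)
    (hjl : j ≠ l) (f : Fin 3 → M) : ∑ t, f t = f i + (f j + f l) := by
  have h1 : (Finset.univ : Finset (Fin 3)) = {i, j, l} := by
    revert i j l
    decide
  rw [h1, Finset.sum_insert (by simp [hij, hil]), Finset.sum_insert (by simp [hjl]),
    Finset.sum_singleton]

theorem xx (i j : Fin 3) (w : n → k) : X i *ᵥ (X j *ᵥ w) = X j *ᵥ (X i *ᵥ w) := by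
  rw [mulVec_mulVec, mulVec_mulVec, h.comm]

theorem Q_top (i : Fin 3) : Q X d i L = X i ^ p i := by
  rw [← h.pd i, Q_eq h]

theorem slide (hκ : 1 ≤ κ) {i j l : Fin 3} (hil : i ≠ l) (hjl : j ≠ l) {s : ℕ}
    (hL : d i + d j + κ + (s + 1) * d l = L) :
    ∃ b : k, X l ^ (s + 1) *ᵥ (X i *ᵥ (X j *ᵥ v)) = b • (X i ^ p i *ᵥ v) := by
  have e : X l ^ (s + 1) *ᵥ (X i *ᵥ (X j *ᵥ v)) =
      X l ^ s *ᵥ (X i *ᵥ (X j *ᵥ (X l *ᵥ v))) := by
    rw [pow_succ, ← mulVec_mulVec, xx h l i, xx h l j]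
  set m := d j + d l + κ with hm
  obtain ⟨β, hβ⟩ := lead h (m := m) (by have := h.dpos j; omega) (h.prod j l hjl)
  have hmul : (s + 1) * d l = s * d l + d l := by ring
  have key : ∀ t, ∃ b : k, X l ^ s *ᵥ (X i *ᵥ (Q X d t m *ᵥ v)) = b • (X i ^ p i *ᵥ v) := by
    intro t
    by_cases hti : t = i
    · subst hti
      rw [mulVec_mulVec v, mul_Q h]
      rcases Nat.eq_zero_or_pos s with rfl | hs
      · refine ⟨1, ?_⟩
        have h2 : m + d t = L := by omega
        rw [pow_zero, one_mulVec, one_smul, h2, Q_top h]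
      · refine ⟨0, ?_⟩
        rw [zero_smul]
        refine big h ?_ (Q_mix h (Ne.symm hil) hs (by have := h.dpos j; omega))
        omega
    · refine ⟨0, ?_⟩
      rw [zero_smul]
      have h2 := Q_mix h (Ne.symm hti) (a := 1) (s := m) le_rfl (by have := h.dpos j; omega)
      rw [pow_one] at h2
      refine big h ?_ (pow_act h l s h2)
      omega
  choose b hb using key
  refine ⟨∑ t, β t * b t, ?_⟩
  rw [e]
  have h3 : X l ^ s *ᵥ (X i *ᵥ (X j *ᵥ (X l *ᵥ v) - ∑ t, β t • (Q X d t m *ᵥ v))) = 0 :=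
    big h (by omega) (pow_act h l s (h.act i _ _ hβ))
  rw [mulVec_sub, mulVec_sub, sub_eq_zero] at h3
  rw [h3, mulVec_sum, mulVec_sum, Finset.sum_smul]
  refine Finset.sum_congr rfl fun t _ => ?_
  rw [mulVec_smul, mulVec_smul, hb, smul_smul]

theorem two (hκ : 1 ≤ κ) {i j l : Fin 3} (hij : i ≠ j) (hil : i ≠ l) (hjl : j ≠ l) :
    ∃ A B : k, X i *ᵥ (X j *ᵥ v) - A • (Q X d j (d i + d j + κ) *ᵥ v) -
      B • (Q X d i (d i + d j + κ) *ᵥ v) ∈ F (d i + d j + κ + 1) := by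
  set m := d i + d j + κ with hm
  have hm1 : 1 ≤ m := by have := h.dpos i; omega
  have hw := h.prod i j hij
  rw [← hm] at hw
  obtain ⟨α, hα⟩ := lead h hm1 hw
  rw [sum3 h hij hil hjl] at hα
  rcases lt_trichotomy m L with hL | hL | hL
  · have h0 : α l • (Q X d l m *ᵥ v) = 0 := by
      by_cases hd : d l ∣ m
      · obtain ⟨a, ha⟩ := hd
        rw [mul_comm] at ha
        have hlt : a < p l := by
          have h1 := h.pd l
          have h2 := h.dpos l
          by_contra hc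
          have h3 : p l * d l ≤ a * d l := Nat.mul_le_mul_right _ (by omega)
          omega
        obtain ⟨s, hs⟩ : ∃ s, p l = a + (s + 1) := ⟨p l - a - 1, by omega⟩
        have hLs : m + (s + 1) * d l = L := by
          rw [← h.pd l, hs, ha]
          ring
        obtain ⟨b, hb⟩ := slide h hκ (s := s) hil hjl hLs
        have h5 : X l ^ (s + 1) *ᵥ (X i *ᵥ (X j *ᵥ v) - (α i • (Q X d i m *ᵥ v) +
            (α j • (Q X d j m *ᵥ v) + α l • (Q X d l m *ᵥ v)))) = 0 :=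
          big h (by omega) (pow_act h l (s + 1) hα)
        have h6 : ∀ t, t ≠ l → X l ^ (s + 1) *ᵥ (Q X d t m *ᵥ v) = 0 := by
          intro t ht
          refine big h ?_ (Q_mix h (Ne.symm ht) (by omega) hm1)
          omega
        have h7 : X l ^ (s + 1) *ᵥ (Q X d l m *ᵥ v) = X l ^ p l *ᵥ v := by
          rw [ha, Q_eq h, mulVec_mulVec, ← pow_add, hs, add_comm]
        rw [mulVec_sub, sub_eq_zero, mulVec_add, mulVec_add, mulVec_smul, mulVec_smul,
          mulVec_smul, h6 i hil, h6 j hjl, h7, smul_zero, smul_zero, zero_add, zero_add, hb] at h5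
        rw [h.ind l i (Ne.symm hil) (α l) b h5.symm, zero_smul]
      · rw [Q_of_not hd, zero_mulVec, smul_zero]
    refine ⟨α j, α i, ?_⟩
    rw [h0, add_zero] at hα
    have e : X i *ᵥ (X j *ᵥ v) - α j • (Q X d j m *ᵥ v) - α i • (Q X d i m *ᵥ v) =
        X i *ᵥ (X j *ᵥ v) - (α i • (Q X d i m *ᵥ v) + α j • (Q X d j m *ᵥ v)) := by abel
    rw [e]
    exact hα
  · have hr := h.rel
    rw [sum3 h hij hil hjl, ← Q_top h i, ← Q_top h j, ← Q_top h l, ← hL] at hr
    refine ⟨α j - α l * (c l)⁻¹ * c j, α i - α l * (c l)⁻¹ * c i, ?_⟩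
    have e : α l • (Q X d l m *ᵥ v) = -(α l * (c l)⁻¹ * c i) • (Q X d i m *ᵥ v) -
        (α l * (c l)⁻¹ * c j) • (Q X d j m *ᵥ v) := by
      have h1 : c l • (Q X d l m *ᵥ v) = -(c i • (Q X d i m *ᵥ v)) - c j • (Q X d j m *ᵥ v) := by
        rw [eq_sub_iff_add_eq, eq_neg_iff_add_eq_zero, ← hr]
        abel
      have h2 : α l • (Q X d l m *ᵥ v) = (α l * (c l)⁻¹) • (c l • (Q X d l m *ᵥ v)) := by
        rw [smul_smul, mul_assoc, inv_mul_cancel₀ (h.c0 l), mul_one]
      rw [h2, h1]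
      module
    have e2 : X i *ᵥ (X j *ᵥ v) - (α j - α l * (c l)⁻¹ * c j) • (Q X d j m *ᵥ v) -
        (α i - α l * (c l)⁻¹ * c i) • (Q X d i m *ᵥ v) =
        X i *ᵥ (X j *ᵥ v) - (α i • (Q X d i m *ᵥ v) +
          (α j • (Q X d j m *ᵥ v) + α l • (Q X d l m *ᵥ v))) := by
      rw [e]
      module
    rw [e2]
    exact hα
  · refine ⟨0, 0, ?_⟩
    rw [big h hL hw]
    simp

theorem p_pos (j : Fin 3) : 1 ≤ p j := by
  by_contra hc'
  have h0 : p j = 0 := by omega
  have h1 := h.pd j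
  rw [h0, zero_mul] at h1
  have hne : ∀ j : Fin 3, j ≠ j + 1 := by decide
  have h6 : p (j + 1) = 0 := by
    have h5 := h.pd (j + 1)
    rw [← h1] at h5
    rcases Nat.mul_eq_zero.1 h5 with h6 | h6
    · exact h6
    · have := h.dpos (j + 1)
      omega
  have h7 := h.ind j (j + 1) (hne j) 1 1 (by rw [h0, h6, pow_zero, pow_zero])
  exact absurd h7 one_ne_zero

/-- change of one of the matrices by terms of higher weight -/
theorem upd (hκ : 1 ≤ κ) (i : Fin 3) (E : Matrix n n k) (hc : ∀ j, X j * E = E * X j)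
    (hE : ∀ m w, w ∈ F m → E *ᵥ w ∈ F (m + d i + 1)) (hv : E *ᵥ v ∈ F (d i + 1))
    (hp : ∀ j, j ≠ i → E *ᵥ (X j *ᵥ v) ∈ F (d i + d j + κ)) :
    LD F (Function.update X i (X i - E)) v d p L c κ ∧
      (∀ j a, 1 ≤ a → Function.update X i (X i - E) j ^ a *ᵥ v - X j ^ a *ᵥ v ∈
        F (a * d j + 1)) := by
  set X' := Function.update X i (X i - E) with hX'
  have hi : X' i = X i - E := by rw [hX', Function.update_self]
  have hj : ∀ j, j ≠ i → X' j = X j := fun j hj => by rw [hX', Function.update_of_ne hj]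
  have act' : ∀ j m w, w ∈ F m → X' j *ᵥ w ∈ F (m + d j) := by
    intro j m w hw
    by_cases hji : j = i
    · subst hji
      rw [hi, sub_mulVec]
      exact sub_mem (h.act j m w hw) (h.anti _ (hE m w hw))
    · rw [hj j hji]
      exact h.act j m w hw
  have av' : ∀ j, X' j *ᵥ v ∈ F (d j) := by
    intro j
    by_cases hji : j = i
    · subst hji
      rw [hi, sub_mulVec]
      exact sub_mem (h.av j) (h.anti _ hv)
    · rw [hj j hji]
      exact h.av j
  have near : ∀ j a, 1 ≤ a → X' j ^ a *ᵥ v - X j ^ a *ᵥ v ∈ F (a * d j + 1) := by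
    intro j a ha
    by_cases hji : j = i
    · subst hji
      induction a, ha using Nat.le_induction with
      | base =>
        rw [pow_one, pow_one, hi, sub_mulVec, one_mul, sub_sub_cancel_left]
        exact neg_mem hv
      | succ a ha ih =>
        have e : X' j ^ (a + 1) *ᵥ v - X j ^ (a + 1) *ᵥ v =
            X' j *ᵥ (X' j ^ a *ᵥ v - X j ^ a *ᵥ v) - E *ᵥ (X j ^ a *ᵥ v) := by
          rw [pow_succ', pow_succ', ← mulVec_mulVec, ← mulVec_mulVec, mulVec_sub, hi]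
          simp only [sub_mulVec]
          abel
        rw [e]
        have h1 := act' j _ _ ih
        have h2 := hE _ _ (pow_of h h.av j ha)
        have e1 : (a + 1) * d j + 1 = a * d j + 1 + d j := by ring
        have e2 : (a + 1) * d j + 1 = a * d j + d j + 1 := by ring
        refine sub_mem ?_ ?_
        · rw [e1]
          exact h1
        · rw [e2]
          exact h2
    · rw [hj j hji, sub_self]
      exact zero_mem _
  have hp1 := p_pos h
  have sg : ∀ j, X' j ^ p j *ᵥ v = X j ^ p j *ᵥ v := by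
    intro j
    have h1 := near j (p j) (hp1 j)
    rw [h.pd j] at h1
    exact sub_eq_zero.1 (big h (Nat.lt_succ_self L) h1)
  refine ⟨⟨?_, h.anti, h.top, act', av', ?_, h.dpos, h.pd, ?_, h.c0, ?_, ?_⟩, near⟩
  · intro a b
    have hcE : ∀ j, X' j * E = E * X' j := by
      intro j
      by_cases hji : j = i
      · subst hji
        rw [hi, sub_mul, mul_sub, hc]
      · rw [hj j hji, hc]
    by_cases ha : a = i
    · subst ha
      by_cases hb : b = a
      · subst hb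
        rfl
      · rw [hi, hj b hb, sub_mul, mul_sub, h.comm, hc b]
    · by_cases hb : b = i
      · subst hb
        rw [hi, hj a ha, sub_mul, mul_sub, h.comm, hc a]
      · rw [hj a ha, hj b hb, h.comm]
  · intro m hm hmL
    refine (h.gen m hm hmL).trans (sup_le (Submodule.span_le.2 ?_) le_sup_right)
    rintro x ⟨j, a, ha, rfl, rfl⟩
    have h1 : X j ^ a *ᵥ v = X' j ^ a *ᵥ v - (X' j ^ a *ᵥ v - X j ^ a *ᵥ v) := by abel
    rw [h1]
    exact sub_mem (Submodule.mem_sup_left (Submodule.subset_span ⟨j, a, ha, rfl, rfl⟩))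
      (Submodule.mem_sup_right (near j a ha))
  · rw [← h.rel]
    exact Finset.sum_congr rfl fun j _ => by rw [sg]
  · intro a b hab x y hxy
    rw [sg, sg] at hxy
    exact h.ind a b hab x y hxy
  · intro a b hab
    have key : ∀ b, b ≠ i → X' i *ᵥ (X' b *ᵥ v) ∈ F (d i + d b + κ) := by
      intro b hb
      rw [hi, hj b hb, sub_mulVec]
      exact sub_mem (h.prod i b (Ne.symm hb)) (hp b hb)
    by_cases ha : a = i
    · subst ha
      exact key b (Ne.symm hab)
    · by_cases hb : b = i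
      · subst hb
        have h1 := key a ha
        have h2 : X' b * X' a = X' a * X' b := by
          rw [hi, hj a ha, sub_mul, mul_sub, h.comm, hc a]
        rw [mulVec_mulVec, ← h2, ← mulVec_mulVec, add_comm (d a)]
        exact h1
      · rw [hj a ha, hj b hb]
        exact h.prod a b hab

theorem Q_near {X' : Fin 3 → Matrix n n k} {t : Fin 3}
    (hn : ∀ a, 1 ≤ a → X' t ^ a *ᵥ v - X t ^ a *ᵥ v ∈ F (a * d t + 1)) {s : ℕ} (hs : 1 ≤ s) :
    Q X' d t s *ᵥ v - Q X d t s *ᵥ v ∈ F (s + 1) := by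
  by_cases hd : d t ∣ s
  · obtain ⟨a, rfl⟩ := hd
    have h0 := h.dpos t
    have ha : 1 ≤ a := by
      by_contra hc
      have : a = 0 := by omega
      subst this
      omega
    have e : ∀ Y : Fin 3 → Matrix n n k, Q Y d t (d t * a) = Y t ^ a := by
      intro Y
      rw [Q, if_pos (dvd_mul_right _ _), Nat.mul_div_cancel_left _ h0]
    rw [e, e, mul_comm]
    exact hn a ha
  · rw [Q_of_not hd, Q_of_not hd, sub_self]
    exact zero_mem _

end Basic

/-- the product `X i X j v` up to terms of higher weight -/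
def R (F : ℕ → Submodule k (n → k)) (X : Fin 3 → Matrix n n k) (v : n → k) (d : Fin 3 → ℕ)
    (κ : ℕ) (i j : Fin 3) (A B : k) : Prop :=
  X i *ᵥ (X j *ᵥ v) - A • (Q X d j (d i + d j + κ) *ᵥ v) -
    B • (Q X d i (d i + d j + κ) *ᵥ v) ∈ F (d i + d j + κ + 1)

/-- closeness -/
def Near (F : ℕ → Submodule k (n → k)) (d : Fin 3 → ℕ) (X X' : Fin 3 → Matrix n n k) : Prop :=
  ∀ u, (∀ t, X t *ᵥ u ∈ F (d t)) → ∀ t, X' t *ᵥ u - X t *ᵥ u ∈ F (d t + 1)

section Upd

variable (h : LD F X v d p L c κ)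
include h

theorem R.symm {i j : Fin 3} {A B : k} (hR : R F X v d κ i j A B) : R F X v d κ j i B A := by
  rw [R, xx h j i, add_comm (d j) (d i)]
  rw [R] at hR
  have e : X i *ᵥ (X j *ᵥ v) - B • (Q X d i (d i + d j + κ) *ᵥ v) -
      A • (Q X d j (d i + d j + κ) *ᵥ v) = X i *ᵥ (X j *ᵥ v) -
      A • (Q X d j (d i + d j + κ) *ᵥ v) - B • (Q X d i (d i + d j + κ) *ᵥ v) := by abel
  rw [e]
  exact hR

theorem updR (hκ : 1 ≤ κ) {i j l : Fin 3} (hij : i ≠ j) (hil : i ≠ l) (hjl : j ≠ l)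
    {A B A' B' A'' B'' : k} (h1 : R F X v d κ i j A B) (h2 : R F X v d κ i l A' B')
    (h3 : R F X v d κ j l A'' B'') :
    ∃ X' : Fin 3 → Matrix n n k, LD F X' v d p L c κ ∧ R F X' v d κ i j 0 B ∧
      R F X' v d κ i l 0 B' ∧ R F X' v d κ j l A'' B'' ∧ (∀ t, X t ∈ adj X') ∧
      Near F d X X' := by
  set E := A • Q X d j (d i + κ) + A' • Q X d l (d i + κ) with hE
  have hc : ∀ t, X t * E = E * X t := by
    intro t
    rw [hE, mul_add, add_mul, mul_smul_comm, mul_smul_comm, smul_mul_assoc, smul_mul_assoc,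
      Q_comm h, Q_comm h]
  have hs : 1 ≤ d i + κ := by omega
  have EF : ∀ m w, w ∈ F m → E *ᵥ w ∈ F (m + d i + 1) := by
    intro m w hw
    rw [hE, add_mulVec, smul_mulVec, smul_mulVec]
    refine mono h (m := m + d i + 1) (m' := m + (d i + κ)) (by omega) ?_
    exact add_mem (Submodule.smul_mem _ _ (Q_act h j hw)) (Submodule.smul_mem _ _ (Q_act h l hw))
  have Eu : ∀ u, (∀ t, X t *ᵥ u ∈ F (d t)) → E *ᵥ u ∈ F (d i + 1) := by
    intro u hu
    rw [hE, add_mulVec, smul_mulVec, smul_mulVec]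
    refine mono h (m := d i + 1) (m' := d i + κ) (by omega) ?_
    exact add_mem (Submodule.smul_mem _ _ (Q_of h hu j hs)) (Submodule.smul_mem _ _ (Q_of h hu l hs))
  have Ev := Eu v h.av
  -- `Q t s (X t' v)` for different `t`, `t'`
  have hm : ∀ t t', t ≠ t' → Q X d t (d i + κ) *ᵥ (X t' *ᵥ v) ∈ F (d i + d t' + κ + κ) := by
    intro t t' htt
    have h4 := Q_mix h (Ne.symm htt) (a := 1) le_rfl hs
    rw [pow_one, mulVec_mulVec, Q_comm h, ← mulVec_mulVec] at h4
    have e : d i + d t' + κ + κ = 1 * d t' + (d i + κ) + κ := by ring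
    rw [e]
    exact h4
  have hq : ∀ t, Q X d t (d i + κ) *ᵥ (X t *ᵥ v) = Q X d t (d i + d t + κ) *ᵥ v := by
    intro t
    rw [mulVec_mulVec, ← Q_comm h, mul_Q h]
    congr 2
    ring
  have EXj : E *ᵥ (X j *ᵥ v) - A • (Q X d j (d i + d j + κ) *ᵥ v) ∈ F (d i + d j + κ + 1) := by
    rw [hE, add_mulVec, smul_mulVec, smul_mulVec, hq, add_sub_cancel_left]
    exact Submodule.smul_mem _ _ (mono h (by omega) (hm l j (Ne.symm hjl)))
  have EXl : E *ᵥ (X l *ᵥ v) - A' • (Q X d l (d i + d l + κ) *ᵥ v) ∈ F (d i + d l + κ + 1) := by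
    rw [hE, add_mulVec, smul_mulVec, smul_mulVec, hq, add_sub_cancel_right]
    exact Submodule.smul_mem _ _ (mono h (by omega) (hm j l hjl))
  have hp' : ∀ t, t ≠ i → E *ᵥ (X t *ᵥ v) ∈ F (d i + d t + κ) := by
    have all : ∀ i j l t : Fin 3, i ≠ j → i ≠ l → j ≠ l → t ≠ i → t = j ∨ t = l := by decide
    intro t ht
    rcases all i j l t hij hil hjl ht with rfl | rfl
    · have h5 := add_mem (h.anti _ EXj) (Submodule.smul_mem _ A (Q_of h h.av t
        (s := d i + d t + κ) (by omega)))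
      rwa [sub_add_cancel] at h5
    · have h5 := add_mem (h.anti _ EXl) (Submodule.smul_mem _ A' (Q_of h h.av t
        (s := d i + d t + κ) (by omega)))
      rwa [sub_add_cancel] at h5
  obtain ⟨hLD, near⟩ := upd h hκ i E hc EF Ev hp'
  set X' := Function.update X i (X i - E) with hX'
  have hi : X' i = X i - E := by rw [hX', Function.update_self]
  have ho : ∀ t, t ≠ i → X' t = X t := fun t ht => by rw [hX', Function.update_of_ne ht]
  have hQ : ∀ t, t ≠ i → ∀ s, Q X' d t s = Q X d t s := by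
    intro t ht s
    rw [Q, Q, ho t ht]
  refine ⟨X', hLD, ?_, ?_, ?_, ?_, ?_⟩
  · rw [R, hi, ho j (Ne.symm hij), zero_smul, sub_zero, sub_mulVec]
    rw [R] at h1
    have h4 := Q_near h (near i) (s := d i + d j + κ) (by omega)
    have h5 := sub_mem (sub_mem h1 EXj) (Submodule.smul_mem _ B h4)
    have e : X i *ᵥ (X j *ᵥ v) - E *ᵥ (X j *ᵥ v) - B • (Q X' d i (d i + d j + κ) *ᵥ v) =
        X i *ᵥ (X j *ᵥ v) - A • (Q X d j (d i + d j + κ) *ᵥ v) -
        B • (Q X d i (d i + d j + κ) *ᵥ v) -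
        (E *ᵥ (X j *ᵥ v) - A • (Q X d j (d i + d j + κ) *ᵥ v)) -
        B • (Q X' d i (d i + d j + κ) *ᵥ v - Q X d i (d i + d j + κ) *ᵥ v) := by
      rw [smul_sub]
      abel
    rw [e]
    exact h5
  · rw [R, hi, ho l (Ne.symm hil), zero_smul, sub_zero, sub_mulVec]
    rw [R] at h2
    have h4 := Q_near h (near i) (s := d i + d l + κ) (by omega)
    have h5 := sub_mem (sub_mem h2 EXl) (Submodule.smul_mem _ B' h4)
    have e : X i *ᵥ (X l *ᵥ v) - E *ᵥ (X l *ᵥ v) - B' • (Q X' d i (d i + d l + κ) *ᵥ v) =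
        X i *ᵥ (X l *ᵥ v) - A' • (Q X d l (d i + d l + κ) *ᵥ v) -
        B' • (Q X d i (d i + d l + κ) *ᵥ v) -
        (E *ᵥ (X l *ᵥ v) - A' • (Q X d l (d i + d l + κ) *ᵥ v)) -
        B' • (Q X' d i (d i + d l + κ) *ᵥ v - Q X d i (d i + d l + κ) *ᵥ v) := by
      rw [smul_sub]
      abel
    rw [e]
    exact h5
  · rw [R, ho j (Ne.symm hij), ho l (Ne.symm hil), hQ j (Ne.symm hij), hQ l (Ne.symm hil)]
    exact h3
  · have hj : X j ∈ adj X' := by
      have := mem_adj X' j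
      rwa [ho j (Ne.symm hij)] at this
    have hl : X l ∈ adj X' := by
      have := mem_adj X' l
      rwa [ho l (Ne.symm hil)] at this
    intro t
    by_cases ht : t = i
    · subst ht
      have h4 := mem_adj X' t
      rw [hi] at h4
      have h5 : E ∈ adj X' := add_mem (SMulMemClass.smul_mem A (Q_adj h hj hs))
        (SMulMemClass.smul_mem A' (Q_adj h hl hs))
      have h6 := add_mem h4 h5
      rwa [sub_add_cancel] at h6
    · have h4 := mem_adj X' t
      rwa [ho t ht] at h4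
  · intro u hu t
    by_cases ht : t = i
    · subst ht
      rw [hi, sub_mulVec, sub_sub_cancel_left]
      exact neg_mem (Eu u hu)
    · rw [ho t ht, sub_self]
      exact zero_mem _

theorem Near.of {X' : Fin 3 → Matrix n n k} (hn : Near F d X X') {u : n → k}
    (hu : ∀ t, X t *ᵥ u ∈ F (d t)) (t : Fin 3) : X' t *ᵥ u ∈ F (d t) := by
  have h1 := add_mem (h.anti _ (hn u hu t)) (hu t)
  rwa [sub_add_cancel] at h1

theorem Near.trans {X' X'' : Fin 3 → Matrix n n k} (hn : Near F d X X') (hn' : Near F d X' X'') :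
    Near F d X X'' := by
  intro u hu t
  have h1 := add_mem (hn' u (fun t => Near.of h hn hu t) t) (hn u hu t)
  rwa [sub_add_sub_cancel] at h1

theorem step (hκ : 1 ≤ κ) : ∃ X' : Fin 3 → Matrix n n k, LD F X' v d p L c (κ + 1) ∧
    (∀ t, X t ∈ adj X') ∧ Near F d X X' := by
  obtain ⟨a01, a10, h01⟩ := two h hκ (i := 0) (j := 1) (l := 2) (by decide) (by decide)
    (by decide)
  obtain ⟨a02, a20, h02⟩ := two h hκ (i := 0) (j := 2) (l := 1) (by decide) (by decide)
    (by decide)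
  obtain ⟨a12, a21, h12⟩ := two h hκ (i := 1) (j := 2) (l := 0) (by decide) (by decide)
    (by decide)
  obtain ⟨X₁, k1, r01, r02, r12, j1, n1⟩ := updR h hκ (i := 0) (j := 1) (l := 2) (by decide)
    (by decide) (by decide) h01 h02 h12
  obtain ⟨X₂, k2, s10, s12, s02, j2, n2⟩ := updR k1 hκ (i := 1) (j := 0) (l := 2) (by decide)
    (by decide) (by decide) (R.symm k1 r01) r12 r02
  obtain ⟨X₃, k3, t20, t21, t01, j3, n3⟩ := updR k2 hκ (i := 2) (j := 0) (l := 1) (by decide)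
    (by decide) (by decide) (R.symm k2 s02) (R.symm k2 s12) (R.symm k2 s10)
  have z : ∀ i j, R F X₃ v d κ i j 0 0 → X₃ i *ᵥ (X₃ j *ᵥ v) ∈ F (d i + d j + (κ + 1)) := by
    intro i j hR
    rw [R, zero_smul, zero_smul, sub_zero, sub_zero] at hR
    exact hR
  have tr : ∀ {Y Z : Fin 3 → Matrix n n k}, (∀ t, Y t ∈ adj Z) → ∀ M, M ∈ adj Y → M ∈ adj Z := by
    intro Y Z hYZ M hM
    refine NonUnitalAlgebra.adjoin_le (S := adj Z) ?_ hM
    rintro _ ⟨t, rfl⟩
    exact hYZ t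
  refine ⟨X₃, ⟨k3.comm, k3.anti, k3.top, k3.act, k3.av, k3.gen, k3.dpos, k3.pd, k3.rel, k3.c0,
    k3.ind, ?_⟩, fun t => tr j3 _ (tr j2 _ (j1 t)), ?_⟩
  · intro i j hij
    fin_cases i <;> fin_cases j
    · exact absurd rfl hij
    · exact z _ _ t01
    · exact z _ _ (R.symm k3 t20)
    · exact z _ _ (R.symm k3 t01)
    · exact absurd rfl hij
    · exact z _ _ (R.symm k3 t21)
    · exact z _ _ t20
    · exact z _ _ t21
    · exact absurd rfl hij
  · exact Near.trans h n1 (Near.trans k1 n2 n3)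

omit h in
theorem adj_trans' {Y Z : Fin 3 → Matrix n n k} (hYZ : ∀ t, Y t ∈ adj Z) {M : Matrix n n k}
    (hM : M ∈ adj Y) : M ∈ adj Z := by
  refine NonUnitalAlgebra.adjoin_le (S := adj Z) ?_ hM
  rintro _ ⟨t, rfl⟩
  exact hYZ t

omit h in
theorem Near.refl (h : LD F X v d p L c κ) : Near F d X X := by
  intro u _ t
  rw [sub_self]
  exact zero_mem _

omit h in
theorem norm (N : ℕ) : ∀ {X : Fin 3 → Matrix n n k} {κ : ℕ}, LD F X v d p L c κ → 1 ≤ κ →
    κ + N = L + 1 → ∃ X' : Fin 3 → Matrix n n k, LD F X' v d p L c (L + 1) ∧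
      (∀ t, X t ∈ adj X') ∧ Near F d X X' := by
  induction N with
  | zero =>
    intro X κ h hκ he
    rw [add_zero] at he
    subst he
    exact ⟨X, h, fun t => mem_adj X t, Near.refl h⟩
  | succ N ih =>
    intro X κ h hκ he
    obtain ⟨X₁, h1, j1, n1⟩ := step h hκ
    obtain ⟨X₂, h2, j2, n2⟩ := ih h1 (by omega) (by omega)
    exact ⟨X₂, h2, fun t => adj_trans' j2 (j1 t), Near.trans h n1 n2⟩

/-- the filtration is spanned by the powers -/
theorem pure (N : ℕ) : ∀ m, 1 ≤ m → L + 1 ≤ m + N → F m ≤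
    Submodule.span k {w | ∃ i a, 1 ≤ a ∧ m ≤ a * d i ∧ w = X i ^ a *ᵥ v} := by
  induction N with
  | zero =>
    intro m _ hm' w hw
    rw [big h (by omega) hw]
    exact zero_mem _
  | succ N ih =>
    intro m hm hm'
    by_cases hL : m ≤ L
    · refine (h.gen m hm hL).trans (sup_le (Submodule.span_mono ?_)
        ((ih (m + 1) (by omega) (by omega)).trans (Submodule.span_mono ?_)))
      · rintro w ⟨i, a, ha, ham, rfl⟩
        exact ⟨i, a, ha, ham.ge, rfl⟩
      · rintro w ⟨i, a, ha, ham, rfl⟩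
        exact ⟨i, a, ha, by omega, rfl⟩
    · intro w hw
      rw [big h (by omega) hw]
      exact zero_mem _

theorem mul_pow_v {M : Matrix n n k} (hM : ∀ t, X t * M = M * X t) (hv : M *ᵥ v = 0) {m : ℕ}
    (hm : 1 ≤ m) {w : n → k} (hw : w ∈ F m) : M *ᵥ w = 0 := by
  have h1 := pure h L m hm (by omega) hw
  clear hw
  induction h1 using Submodule.span_induction with
  | mem x hx =>
    obtain ⟨i, a, -, -, rfl⟩ := hx
    have hc : Commute (X i) M := hM i
    rw [mulVec_mulVec, ← (hc.pow_left a).eq, ← mulVec_mulVec, hv, mulVec_zero]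
  | zero => exact mulVec_zero M
  | add x y _ _ hx hy => rw [mulVec_add, hx, hy, add_zero]
  | smul r x _ hx => rw [mulVec_smul, hx, smul_zero]

omit h in
theorem zero_of {κ : ℕ} (h : LD F X v d p L c κ) (hκ : L + 1 ≤ κ) {i j : Fin 3} (hij : i ≠ j) :
    X i *ᵥ (X j *ᵥ v) = 0 :=
  big h (by omega) (h.prod i j hij)

theorem prod_zero (hκ : L + 1 ≤ κ) {i j : Fin 3} (hij : i ≠ j) {m : ℕ} (hm : 1 ≤ m)
    {w : n → k} (hw : w ∈ F m) : X i *ᵥ (X j *ᵥ w) = 0 := by
  rw [mulVec_mulVec]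
  refine mul_pow_v h ?_ ?_ hm hw
  · intro t
    rw [← mul_assoc, h.comm t i, mul_assoc, h.comm t j, mul_assoc]
  · rw [← mulVec_mulVec]
    exact zero_of h hκ hij

/-- relation in the form needed -/
theorem rel' : X 0 ^ p 0 *ᵥ v = (-(c 0)⁻¹ * c 1) • (X 1 ^ p 1 *ᵥ v) +
    (-(c 0)⁻¹ * c 2) • (X 2 ^ p 2 *ᵥ v) := by
  have h1 := h.rel
  rw [Fin.sum_univ_three] at h1
  have h2 : (c 0)⁻¹ • (c 0 • (X 0 ^ p 0 *ᵥ v) + c 1 • (X 1 ^ p 1 *ᵥ v) +
      c 2 • (X 2 ^ p 2 *ᵥ v)) = 0 := by rw [h1, smul_zero]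
  rw [smul_add, smul_add, smul_smul, smul_smul, smul_smul, inv_mul_cancel₀ (h.c0 0), one_smul] at h2
  have h3 : X 0 ^ p 0 *ᵥ v = (X 0 ^ p 0 *ᵥ v + ((c 0)⁻¹ * c 1) • (X 1 ^ p 1 *ᵥ v) +
      ((c 0)⁻¹ * c 2) • (X 2 ^ p 2 *ᵥ v)) - ((c 0)⁻¹ * c 1) • (X 1 ^ p 1 *ᵥ v) -
      ((c 0)⁻¹ * c 2) • (X 2 ^ p 2 *ᵥ v) := by abel
  rw [h3, h2]
  module

section U

variable {u : n → k} {l : Fin 3 → k}

theorem xi_comm (hκ : L + 1 ≤ κ) {i j : Fin 3} (hij : i ≠ j) :
    X j *ᵥ (X i *ᵥ u - l i • (X i *ᵥ v)) = X i *ᵥ (X j *ᵥ u - l j • (X j *ᵥ v)) := by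
  rw [mulVec_sub, mulVec_sub, mulVec_smul, mulVec_smul, zero_of h hκ hij,
    zero_of h hκ (Ne.symm hij), smul_zero, smul_zero, sub_zero, sub_zero, xx h]

theorem xi_coef (hκ : L + 1 ≤ κ) {s : ℕ} (hs : 1 ≤ s)
    (hU : ∀ i, X i *ᵥ u - l i • (X i *ᵥ v) ∈ F (min (d i + s) L)) {i : Fin 3}
    (hi : d i + s < L) {b : Fin 3 → k} (hb : X i *ᵥ u - l i • (X i *ᵥ v) -
      ∑ j, b j • (Q X d j (d i + s) *ᵥ v) ∈ F (d i + s + 1)) {j : Fin 3} (hij : i ≠ j) :
    b j • (Q X d j (d i + s) *ᵥ v) = 0 := by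
  have hdi := h.dpos i
  have hdj := h.dpos j
  have hL1 : 1 ≤ L := by omega
  have hQ0 : ∀ (t t' : Fin 3), t ≠ t' → ∀ a m, 1 ≤ a → 1 ≤ m →
      X t ^ a *ᵥ (Q X d t' m *ᵥ v) = 0 := by
    intro t t' htt a m ha hm
    exact big h (by omega) (Q_mix h htt ha hm)
  by_cases hd : d j ∣ d i + s
  · obtain ⟨a, ha⟩ := hd
    rw [mul_comm] at ha
    have hlt : a < p j := by
      have h1 := h.pd j
      by_contra hc
      have h3 : p j * d j ≤ a * d j := Nat.mul_le_mul_right _ (by omega)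
      omega
    obtain ⟨r, hr⟩ : ∃ r, p j = a + (r + 1) := ⟨p j - a - 1, by omega⟩
    have hLs : d i + s + (r + 1) * d j = L := by
      rw [← h.pd j, hr, ha]
      ring
    have h5 : X j ^ (r + 1) *ᵥ (X i *ᵥ u - l i • (X i *ᵥ v) -
        ∑ t, b t • (Q X d t (d i + s) *ᵥ v)) = 0 := big h (by omega) (pow_act h j (r + 1) hb)
    have h6 : X j ^ (r + 1) *ᵥ (∑ t, b t • (Q X d t (d i + s) *ᵥ v)) =
        b j • (X j ^ p j *ᵥ v) := by
      rw [mulVec_sum, Finset.sum_eq_single j]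
      · rw [mulVec_smul, ha, Q_eq h, mulVec_mulVec, ← pow_add, hr, add_comm]
      · intro t _ ht
        rw [mulVec_smul, hQ0 j t (Ne.symm ht) _ _ (by omega) (by omega), smul_zero]
      · intro hj
        exact absurd (Finset.mem_univ j) hj
    rw [mulVec_sub, h6, sub_eq_zero] at h5
    have h7 : ∃ β : k, X j ^ (r + 1) *ᵥ (X i *ᵥ u - l i • (X i *ᵥ v)) =
        β • (X i ^ p i *ᵥ v) := by
      rw [pow_succ, ← mulVec_mulVec, xi_comm h hκ hij]
      have hmin : 1 ≤ min (d j + s) L := by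
        rw [le_min_iff]
        omega
      rcases Nat.eq_zero_or_pos r with rfl | hr0
      · have hmin' : min (d j + s) L = d j + s := min_eq_left (by omega)
        have hUj := hU j
        rw [hmin'] at hUj
        obtain ⟨β, hβ⟩ := lead h (m := d j + s) (by omega) hUj
        refine ⟨β i, ?_⟩
        have h8 : X i *ᵥ (X j *ᵥ u - l j • (X j *ᵥ v) -
            ∑ t, β t • (Q X d t (d j + s) *ᵥ v)) = 0 := big h (by omega) (h.act i _ _ hβ)
        rw [mulVec_sub, sub_eq_zero] at h8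
        rw [pow_zero, one_mulVec, h8, mulVec_sum, Finset.sum_eq_single i]
        · have h9 : d j + s + d i = L := by omega
          rw [mulVec_smul, mulVec_mulVec, mul_Q h, h9, Q_top h]
        · intro t _ ht
          have h10 := hQ0 i t (Ne.symm ht) 1 (d j + s) le_rfl (by omega)
          rw [pow_one] at h10
          rw [mulVec_smul, h10, smul_zero]
        · intro hj
          exact absurd (Finset.mem_univ i) hj
      · obtain ⟨r, rfl⟩ : ∃ r', r = r' + 1 := ⟨r - 1, by omega⟩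
        refine ⟨0, ?_⟩
        rw [pow_succ, ← mulVec_mulVec, prod_zero h hκ (Ne.symm hij) hmin (hU j), mulVec_zero,
          zero_smul]
    obtain ⟨β, hβ⟩ := h7
    rw [hβ] at h5
    rw [h.ind j i (Ne.symm hij) (b j) β h5.symm, zero_smul]
  · rw [Q_of_not hd, zero_mulVec, smul_zero]

theorem stepU (hκ : L + 1 ≤ κ) {s : ℕ} (hs : 1 ≤ s)
    (hU : ∀ i, X i *ᵥ u - l i • (X i *ᵥ v) ∈ F (min (d i + s) L)) :
    ∃ u' : n → k, u' - u ∈ F 1 ∧
      ∀ i, X i *ᵥ u' - l i • (X i *ᵥ v) ∈ F (min (d i + (s + 1)) L) := by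
  have hg : ∀ i, ∃ g : k, (d i + s < L → X i *ᵥ u - l i • (X i *ᵥ v) -
      g • (Q X d i (d i + s) *ᵥ v) ∈ F (d i + s + 1)) ∧ (L ≤ d i + s → g = 0) := by
    intro i
    by_cases hi : d i + s < L
    · have h1 := hU i
      rw [min_eq_left (by omega)] at h1
      obtain ⟨b, hb⟩ := lead h (m := d i + s) (by have := h.dpos i; omega) h1
      refine ⟨b i, fun _ => ?_, fun h2 => absurd hi (by omega)⟩
      have h3 : ∑ j, b j • (Q X d j (d i + s) *ᵥ v) = b i • (Q X d i (d i + s) *ᵥ v) := by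
        rw [Finset.sum_eq_single i]
        · intro t _ ht
          exact xi_coef h hκ hs hU hi hb (Ne.symm ht)
        · intro hj
          exact absurd (Finset.mem_univ i) hj
      rw [h3] at hb
      exact hb
    · exact ⟨0, fun h2 => absurd h2 hi, fun _ => rfl⟩
  choose g hg1 hg2 using hg
  refine ⟨u - ∑ t, g t • (Q X d t s *ᵥ v), ?_, fun i => ?_⟩
  · rw [sub_sub_cancel_left]
    exact neg_mem (Submodule.sum_mem _ fun t _ => Submodule.smul_mem _ _
      (mono h hs (Q_of h h.av t hs)))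
  · have e : X i *ᵥ (u - ∑ t, g t • (Q X d t s *ᵥ v)) - l i • (X i *ᵥ v) =
        X i *ᵥ u - l i • (X i *ᵥ v) - g i • (Q X d i (d i + s) *ᵥ v) := by
      have h1 : X i *ᵥ (∑ t, g t • (Q X d t s *ᵥ v)) = g i • (Q X d i (d i + s) *ᵥ v) := by
        rw [mulVec_sum, Finset.sum_eq_single i]
        · rw [mulVec_smul, mulVec_mulVec, mul_Q h, add_comm s]
        · intro t _ ht
          have h2 := Q_mix h (Ne.symm ht) (a := 1) le_rfl hs
          rw [pow_one] at h2
          rw [mulVec_smul, big h (by omega) h2, smul_zero]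
        · intro hj
          exact absurd (Finset.mem_univ i) hj
      rw [mulVec_sub, h1]
      abel
    rw [e]
    by_cases hi : d i + s < L
    · rw [min_eq_left (by omega)]
      exact hg1 i hi
    · rw [hg2 i (by omega), zero_smul, sub_zero, min_eq_right (by omega)]
      have h1 := hU i
      rwa [min_eq_right (by omega)] at h1

omit h in
theorem normU (h : LD F X v d p L c κ) (hκ : L + 1 ≤ κ) (N : ℕ) : ∀ {s : ℕ} {u : n → k}, 1 ≤ s → L ≤ s + N →
    (∀ i, X i *ᵥ u - l i • (X i *ᵥ v) ∈ F (min (d i + s) L)) →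
    ∃ u' : n → k, u' - u ∈ F 1 ∧ ∀ i, X i *ᵥ u' - l i • (X i *ᵥ v) ∈ F L := by
  induction N with
  | zero =>
    intro s u hs hN hU
    refine ⟨u, by rw [sub_self]; exact zero_mem _, fun i => ?_⟩
    have h1 := hU i
    rwa [min_eq_right (by omega)] at h1
  | succ N ih =>
    intro s u hs hN hU
    obtain ⟨u₁, h1, h2⟩ := stepU h hκ hs hU
    obtain ⟨u₂, h3, h4⟩ := ih (s := s + 1) (by omega) (by omega) h2
    refine ⟨u₂, ?_, h4⟩
    have h5 := add_mem h3 h1
    rwa [sub_add_sub_cancel] at h5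

theorem topU (hκ : L + 1 ≤ κ) (hp : ∀ i, 2 ≤ p i)
    (hU : ∀ i, X i *ᵥ u - l i • (X i *ᵥ v) ∈ F L) :
    ∃ (u' : n → k) (b : Fin 3 → Fin 3 → k), u' - u ∈ F 1 ∧ (∀ i, b i i = 0) ∧
      ∀ i, X i *ᵥ u' - l i • (X i *ᵥ v) = ∑ t, b i t • (X t ^ p t *ᵥ v) := by
  have hL1 : 1 ≤ L := by
    have h1 := h.pd 0
    have h2 := h.dpos 0
    have h3 := hp 0
    nlinarith
  have hb : ∀ i, ∃ b : Fin 3 → k, X i *ᵥ u - l i • (X i *ᵥ v) = ∑ t, b t • (X t ^ p t *ᵥ v) := by
    intro i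
    obtain ⟨b, hb⟩ := lead h hL1 (hU i)
    refine ⟨b, ?_⟩
    have h1 := big h (Nat.lt_succ_self L) hb
    rw [sub_eq_zero] at h1
    rw [h1]
    exact Finset.sum_congr rfl fun t _ => by rw [Q_top h]
  choose b hb using hb
  refine ⟨u - ∑ t, b t t • (X t ^ (p t - 1) *ᵥ v), fun i t => if t = i then 0 else b i t, ?_,
    fun i => if_pos rfl, fun i => ?_⟩
  · rw [sub_sub_cancel_left]
    refine neg_mem (Submodule.sum_mem _ fun t _ => Submodule.smul_mem _ _ ?_)
    have h1 := hp t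
    have h2 := h.dpos t
    have h3 : 1 ≤ (p t - 1) * d t := Nat.mul_pos (by omega) h2
    exact mono h h3 (pow_of h h.av t (by omega))
  · have h1 : X i *ᵥ (∑ t, b t t • (X t ^ (p t - 1) *ᵥ v)) = b i i • (X i ^ p i *ᵥ v) := by
      rw [mulVec_sum, Finset.sum_eq_single i]
      · have h2 : X i ^ p i = X i * X i ^ (p i - 1) := by
          rw [← pow_succ']
          congr 1
          have := hp i
          omega
        rw [mulVec_smul, mulVec_mulVec, ← h2]
      · intro t _ ht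
        have h3 := mix h (Ne.symm ht) (a := 1) (b := p t - 1) le_rfl (by have := hp t; omega)
        rw [pow_one] at h3
        rw [mulVec_smul, big h (by omega) h3, smul_zero]
      · intro hj
        exact absurd (Finset.mem_univ i) hj
    rw [mulVec_sub, h1]
    have h2 : ∑ t, (if t = i then 0 else b i t) • (X t ^ p t *ᵥ v) =
        ∑ t, b i t • (X t ^ p t *ᵥ v) - b i i • (X i ^ p i *ᵥ v) := by
      rw [← Finset.sum_erase_eq_sub (Finset.mem_univ i), ← Finset.add_sum_erase _ _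
        (Finset.mem_univ i), if_pos rfl, zero_smul, zero_add]
      refine Finset.sum_congr rfl fun t ht => ?_
      rw [if_neg (Finset.ne_of_mem_erase ht)]
    rw [h2, ← hb]
    abel

theorem updU (hκ : L + 1 ≤ κ) (hp : ∀ i, 2 ≤ p i) (hl : Function.Injective l)
    (hU : ∀ i, X i *ᵥ u - l i • (X i *ᵥ v) ∈ F L) (i : Fin 3) {b : Fin 3 → k} (hbi : b i = 0)
    (hb : X i *ᵥ u - l i • (X i *ᵥ v) = ∑ t, b t • (X t ^ p t *ᵥ v)) :
    ∃ X' : Fin 3 → Matrix n n k, LD F X' v d p L c κ ∧ (∀ t, X t ∈ adj X') ∧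
      X' i *ᵥ u - l i • (X' i *ᵥ v) = 0 ∧ (∀ t, t ≠ i → X' t = X t) ∧
      ∀ t, X' t ^ p t *ᵥ v = X t ^ p t *ᵥ v := by
  set η : Fin 3 → k := fun t => if t = i then 0 else b t / (l t - l i) with hη
  set E : Matrix n n k := ∑ t, η t • X t ^ p t with hE
  have hpd : ∀ t, d t + 1 ≤ L := by
    intro t
    have h1 := h.pd t
    have h2 := h.dpos t
    have h3 := hp t
    nlinarith
  have hc : ∀ j, X j * E = E * X j := by
    intro j
    rw [hE, Finset.mul_sum, Finset.sum_mul]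
    refine Finset.sum_congr rfl fun t _ => ?_
    rw [mul_smul_comm, smul_mul_assoc, ((cm h j t).pow_right _).eq]
  have Ew : ∀ w, E *ᵥ w = ∑ t, η t • (X t ^ p t *ᵥ w) := by
    intro w
    rw [hE, sum_mulVec]
    exact Finset.sum_congr rfl fun t _ => smul_mulVec _ _ _
  have hEF : ∀ m w, w ∈ F m → E *ᵥ w ∈ F (m + L) := by
    intro m w hw
    rw [Ew]
    refine Submodule.sum_mem _ fun t _ => Submodule.smul_mem _ _ ?_
    have h1 := pow_act h t (p t) hw
    rwa [h.pd t] at h1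
  have hEv : E *ᵥ v ∈ F L := by
    rw [Ew]
    refine Submodule.sum_mem _ fun t _ => Submodule.smul_mem _ _ ?_
    have h1 := pow_of h h.av t (p_pos h t)
    rwa [h.pd t] at h1
  have hEu : E *ᵥ u = ∑ t, (η t * l t) • (X t ^ p t *ᵥ v) := by
    rw [Ew]
    refine Finset.sum_congr rfl fun t _ => ?_
    have h1 : X t ^ p t *ᵥ u = l t • (X t ^ p t *ᵥ v) := by
      have h2 : X t ^ p t = X t ^ (p t - 1) * X t := by
        rw [← pow_succ]
        congr 1
        have := hp t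
        omega
      have h3 : X t ^ (p t - 1) *ᵥ (X t *ᵥ u - l t • (X t *ᵥ v)) = 0 := by
        have h4 := pow_act h t (p t - 1) (hU t)
        have h5 : 0 < (p t - 1) * d t := Nat.mul_pos (by have := hp t; omega) (h.dpos t)
        exact big h (by omega) h4
      rw [mulVec_sub, sub_eq_zero, mulVec_smul, mulVec_mulVec, mulVec_mulVec, ← h2] at h3
      exact h3
    rw [h1, smul_smul]
  obtain ⟨hLD, near⟩ := upd h (by omega) i E hc
    (fun m w hw => mono h (by have := hpd i; omega) (hEF m w hw))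
    (mono h (hpd i) hEv) (fun j _ => by
      rw [big h (by have := h.dpos j; omega) (hEF _ _ (h.av j))]
      exact zero_mem _)
  set X' := Function.update X i (X i - E) with hX'
  have hi : X' i = X i - E := by rw [hX', Function.update_self]
  have ho : ∀ t, t ≠ i → X' t = X t := fun t ht => by rw [hX', Function.update_of_ne ht]
  refine ⟨X', hLD, ?_, ?_, ho, ?_⟩
  · intro t
    by_cases ht : t = i
    · subst ht
      have h4 := mem_adj X' t
      rw [hi] at h4
      have h5 : E ∈ adj X' := by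
        rw [hE]
        refine sum_mem fun j _ => ?_
        by_cases hj : j = t
        · rw [hη]
          simp only [hj, if_true, zero_smul]
          exact zero_mem _
        · refine SMulMemClass.smul_mem _ ?_
          have h6 := mem_adj X' j
          rw [ho j hj] at h6
          have h7 := Q_adj h h6 (s := L) (by have := hpd t; omega)
          rwa [Q_top h] at h7
      have h6 := add_mem h4 h5
      rwa [sub_add_cancel] at h6
    · have h4 := mem_adj X' t
      rwa [ho t ht] at h4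
  · rw [hi, sub_mulVec, sub_mulVec, hEu, Ew v]
    have e : X i *ᵥ u - ∑ t, (η t * l t) • (X t ^ p t *ᵥ v) -
        l i • (X i *ᵥ v - ∑ t, η t • (X t ^ p t *ᵥ v)) =
        (X i *ᵥ u - l i • (X i *ᵥ v)) - ∑ t, (η t * l t) • (X t ^ p t *ᵥ v) +
        l i • ∑ t, η t • (X t ^ p t *ᵥ v) := by
      rw [smul_sub]
      abel
    rw [e, hb, Finset.smul_sum, ← Finset.sum_sub_distrib, ← Finset.sum_add_distrib]
    refine Finset.sum_eq_zero fun t _ => ?_
    rw [smul_smul, ← sub_smul, ← add_smul]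
    have h1 : b t - η t * l t + l i * η t = 0 := by
      by_cases ht : t = i
      · rw [hη]
        simp [ht, hbi]
      · have h2 : l t - l i ≠ 0 := sub_ne_zero.2 fun h3 => ht (hl h3)
        rw [hη]
        simp only [ht, if_false]
        field_simp
        ring
    rw [h1, zero_smul]
  · intro t
    have h1 := near t (p t) (p_pos h t)
    rw [h.pd t] at h1
    exact sub_eq_zero.1 (big h (Nat.lt_succ_self L) h1)

end U

end Upd

theorem lam_one (X : Fin 3 → Matrix n n k) : (fun i : Fin 3 =>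
    (if i = 0 then (1 : k) else 0) • X 0 + (if i = 1 then (1 : k) else 0) • X 1 +
    (if i = 2 then (1 : k) else 0) • X 2) = X := by
  funext i
  fin_cases i <;> simp

end Lead

open Lead

/-- three axes with one generator, up to terms of higher weight -/
theorem cl_lead1 {k : Type*} [Field k] [IsAlgClosed k] {n : Type*} [Fintype n] [DecidableEq n]
    {F : ℕ → Submodule k (n → k)} {X : Fin 3 → Matrix n n k} {v : n → k} {d p : Fin 3 → ℕ} {L : ℕ}
    {c : Fin 3 → k} {κ : ℕ} (h : LD F X v d p L c κ) (hκ : 1 ≤ κ) (hp : 2 ≤ p 0)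
    (hn : Fintype.card n = p 0 + p 1 + p 2) (tot : ⊤ ≤ Submodule.span k {v} ⊔ F 1) : Cl X := by
  wlog hκL : κ ≤ L + 1 generalizing κ with H
  · exact H (κ := L + 1) ⟨h.comm, h.anti, h.top, h.act, h.av, h.gen, h.dpos, h.pd, h.rel, h.c0,
      h.ind, fun i j hij => mono h (by omega) (h.prod i j hij)⟩ (by omega) le_rfl
  obtain ⟨X', h', ja, -⟩ := norm (L + 1 - κ) h hκ (by omega)
  have hz : ∀ {i j : Fin 3}, i ≠ j → X' i * X' j = 0 := by
    intro i j hij
    have h1 : ∀ w, (X' i * X' j) *ᵥ w = 0 := by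
      intro w
      have hc : ∀ t, X' t * (X' i * X' j) = X' i * X' j * X' t := by
        intro t
        rw [← mul_assoc, h'.comm t i, mul_assoc, h'.comm t j, mul_assoc]
      have hv : (X' i * X' j) *ᵥ v = 0 := by
        rw [← mulVec_mulVec]
        exact zero_of h' le_rfl hij
      obtain ⟨y, hy, z, hz, rfl⟩ := Submodule.mem_sup.1 (tot (Submodule.mem_top (x := w)))
      obtain ⟨a, rfl⟩ := Submodule.mem_span_singleton.1 hy
      rw [mulVec_add, mulVec_smul, hv, smul_zero, zero_add]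
      exact mul_pow_v h' hc hv le_rfl hz
    ext a b
    have h2 := congrFun (h1 (Pi.single b 1)) a
    simpa using h2
  have h2 := D8.cl_axes3 (X' 0) (X' 1) (X' 2) v hp (p_pos h' 1) (p_pos h' 2) hn
    (hz (by decide)) (hz (by decide)) (hz (by decide)) (hz (by decide)) (hz (by decide))
    (hz (by decide)) (a := -(c 0)⁻¹ * c 1) (b := -(c 0)⁻¹ * c 2)
    (mul_ne_zero (neg_ne_zero.2 (inv_ne_zero (h'.c0 0))) (h'.c0 1))
    (mul_ne_zero (neg_ne_zero.2 (inv_ne_zero (h'.c0 0))) (h'.c0 2)) (rel' h') (by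
      refine tot.trans (sup_le (Submodule.span_mono ?_) ((pure h' L 1 le_rfl (by omega)).trans
        (Submodule.span_mono ?_)))
      · intro x hx
        exact Or.inl (Or.inl (Or.inl hx))
      · rintro x ⟨i, a, ha, -, rfl⟩
        obtain ⟨a, rfl⟩ : ∃ b, a = b + 1 := ⟨a - 1, by omega⟩
        fin_cases i
        · exact Or.inl (Or.inl (Or.inr ⟨a, rfl⟩))
        · exact Or.inl (Or.inr ⟨a, rfl⟩)
        · exact Or.inr ⟨a, rfl⟩) (fun i j => if i = j then 1 else 0)
  rw [lam_one] at h2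
  exact cl_of_adj ja h2

/-- three axes with two generators, up to terms of higher weight -/
theorem cl_lead2 {k : Type*} [Field k] [IsAlgClosed k] {n : Type*} [Fintype n] [DecidableEq n]
    {F : ℕ → Submodule k (n → k)} {X : Fin 3 → Matrix n n k} {v : n → k} {d p : Fin 3 → ℕ} {L : ℕ}
    {c : Fin 3 → k} {κ : ℕ} (h : LD F X v d p L c κ) (hκ : 1 ≤ κ) (hp : ∀ i, 2 ≤ p i)
    (hn : Fintype.card n = p 0 + p 1 + p 2 + 1) {u : n → k} {l : Fin 3 → k}
    (hl : Function.Injective l) (hu : ∀ i, X i *ᵥ u - l i • (X i *ᵥ v) ∈ F (d i + 1))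
    (tot : ⊤ ≤ Submodule.span k {v} ⊔ Submodule.span k {u} ⊔ F 1) : Cl X := by
  wlog hκL : κ ≤ L + 1 generalizing κ with H
  · exact H (κ := L + 1) ⟨h.comm, h.anti, h.top, h.act, h.av, h.gen, h.dpos, h.pd, h.rel, h.c0,
      h.ind, fun i j hij => mono h (by omega) (h.prod i j hij)⟩ (by omega) le_rfl
  obtain ⟨X₁, h1, j1, n1⟩ := norm (L + 1 - κ) h hκ (by omega)
  have hpd : ∀ t, d t + 1 ≤ L := by
    intro t
    have h1 := h.pd t
    have h2 := h.dpos t
    have h3 := hp t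
    nlinarith
  have hu0 : ∀ i, X i *ᵥ u ∈ F (d i) := by
    intro i
    have h2 := add_mem (h.anti _ (hu i)) (Submodule.smul_mem _ (l i) (h.av i))
    rwa [sub_add_cancel] at h2
  have hu1 : ∀ i, X₁ i *ᵥ u - l i • (X₁ i *ᵥ v) ∈ F (min (d i + 1) L) := by
    intro i
    rw [min_eq_left (hpd i)]
    have h2 := sub_mem (add_mem (n1 u hu0 i) (hu i))
      (Submodule.smul_mem _ (l i) (n1 v h.av i))
    have e : X₁ i *ᵥ u - l i • (X₁ i *ᵥ v) = X₁ i *ᵥ u - X i *ᵥ u +
        (X i *ᵥ u - l i • (X i *ᵥ v)) - l i • (X₁ i *ᵥ v - X i *ᵥ v) := by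
      rw [smul_sub]
      abel
    rw [e]
    exact h2
  obtain ⟨u₁, hu₁, hU₁⟩ := normU h1 le_rfl L (s := 1) le_rfl (by omega) hu1
  obtain ⟨u₂, b, hu₂, hb0, hU₂⟩ := topU h1 le_rfl hp hU₁
  have hL1 : 1 ≤ L := by have := hpd 0; omega
  have hsg : ∀ t, X₁ t ^ p t *ᵥ v ∈ F L := by
    intro t
    have h2 := pow_of h1 h1.av t (p_pos h1 t)
    rwa [h1.pd t] at h2
  have hUL : ∀ i, X₁ i *ᵥ u₂ - l i • (X₁ i *ᵥ v) ∈ F L := by
    intro i
    rw [hU₂]
    exact Submodule.sum_mem _ fun t _ => Submodule.smul_mem _ _ (hsg t)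
  obtain ⟨X₂, h2, j2, z2, o2, s2⟩ := updU h1 le_rfl hp hl hUL 0 (hb0 0) (hU₂ 0)
  have hUL2 : ∀ i, X₂ i *ᵥ u₂ - l i • (X₂ i *ᵥ v) ∈ F L := by
    intro i
    by_cases hi : i = 0
    · subst hi
      rw [z2]
      exact zero_mem _
    · rw [o2 i hi]
      exact hUL i
  obtain ⟨X₃, h3, j3, z3, o3, s3⟩ := updU h2 le_rfl hp hl hUL2 1 (hb0 1) (by
    rw [o2 1 (by decide), hU₂ 1]
    exact Finset.sum_congr rfl fun t _ => by rw [s2])
  have hUL3 : ∀ i, X₃ i *ᵥ u₂ - l i • (X₃ i *ᵥ v) ∈ F L := by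
    intro i
    by_cases hi : i = 1
    · subst hi
      rw [z3]
      exact zero_mem _
    · rw [o3 i hi]
      exact hUL2 i
  obtain ⟨X₄, h4, j4, z4, o4, s4⟩ := updU h3 le_rfl hp hl hUL3 2 (hb0 2) (by
    rw [o3 2 (by decide), o2 2 (by decide), hU₂ 2]
    exact Finset.sum_congr rfl fun t _ => by rw [s3, s2])
  have e0 : X₄ 0 *ᵥ u₂ = l 0 • (X₄ 0 *ᵥ v) := by
    rw [o4 0 (by decide), o3 0 (by decide)]
    exact sub_eq_zero.1 z2
  have e1 : X₄ 1 *ᵥ u₂ = l 1 • (X₄ 1 *ᵥ v) := by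
    rw [o4 1 (by decide)]
    exact sub_eq_zero.1 z3
  have e2 : X₄ 2 *ᵥ u₂ = l 2 • (X₄ 2 *ᵥ v) := sub_eq_zero.1 z4
  have e : ∀ i, X₄ i *ᵥ u₂ = l i • (X₄ i *ᵥ v) := by
    intro i
    fin_cases i
    · exact e0
    · exact e1
    · exact e2
  -- the space is spanned
  have tot' : ⊤ ≤ Submodule.span k {v} ⊔ Submodule.span k {u₂} ⊔ F 1 := by
    refine tot.trans (sup_le (sup_le (le_sup_left.trans le_sup_left) ?_) le_sup_right)
    rw [Submodule.span_le, Set.singleton_subset_iff]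
    have h5 : u = u₂ - ((u₂ - u₁) + (u₁ - u)) := by abel
    rw [h5]
    exact sub_mem (Submodule.mem_sup_left (Submodule.mem_sup_right
      (Submodule.mem_span_singleton_self u₂))) (Submodule.mem_sup_right (add_mem hu₂ hu₁))
  have hz : ∀ {i j : Fin 3}, i ≠ j → X₄ i * X₄ j = 0 := by
    intro i j hij
    have h5 : ∀ w, (X₄ i * X₄ j) *ᵥ w = 0 := by
      intro w
      have hv : (X₄ i * X₄ j) *ᵥ v = 0 := by
        rw [← mulVec_mulVec]
        exact zero_of h4 le_rfl hij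
      have hu' : (X₄ i * X₄ j) *ᵥ u₂ = 0 := by
        rw [← mulVec_mulVec, e j, mulVec_smul, zero_of h4 le_rfl hij, smul_zero]
      obtain ⟨y, hy, z, hz, rfl⟩ := Submodule.mem_sup.1 (tot' (Submodule.mem_top (x := w)))
      obtain ⟨y1, hy1, y2, hy2, rfl⟩ := Submodule.mem_sup.1 hy
      obtain ⟨a, rfl⟩ := Submodule.mem_span_singleton.1 hy1
      obtain ⟨a', rfl⟩ := Submodule.mem_span_singleton.1 hy2
      rw [mulVec_add, mulVec_add, mulVec_smul, mulVec_smul, hv, hu', smul_zero, smul_zero,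
        zero_add, zero_add, ← mulVec_mulVec]
      exact prod_zero h4 le_rfl hij le_rfl hz
    ext a b
    have h6 := congrFun (h5 (Pi.single b 1)) a
    simpa using h6
  have h5 := D8.cl_axes3_two (X₄ 0) (X₄ 1) (X₄ 2) v u₂ (hp 0) (p_pos h4 1) (p_pos h4 2) hn
    (hz (by decide)) (hz (by decide)) (hz (by decide)) (hz (by decide)) (hz (by decide))
    (hz (by decide)) (a := -(c 0)⁻¹ * c 1) (b := -(c 0)⁻¹ * c 2)
    (mul_ne_zero (neg_ne_zero.2 (inv_ne_zero (h4.c0 0))) (h4.c0 1))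
    (mul_ne_zero (neg_ne_zero.2 (inv_ne_zero (h4.c0 0))) (h4.c0 2)) (rel' h4)
    (l₀ := l 0) (l₁ := l 1) (l₂ := l 2) (fun h6 => absurd (hl h6) (by decide))
    (fun h6 => absurd (hl h6) (by decide)) (fun h6 => absurd (hl h6) (by decide)) e0 e1 e2 (by
      refine tot'.trans (sup_le (sup_le (Submodule.span_mono ?_) (Submodule.span_mono ?_))
        ((pure h4 L 1 le_rfl (by omega)).trans (Submodule.span_mono ?_)))
      · intro x hx
        exact Or.inl (Or.inl (Or.inl (Or.inl hx)))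
      · intro x hx
        exact Or.inl (Or.inl (Or.inl (Or.inr hx)))
      · rintro x ⟨i, a, ha, -, rfl⟩
        obtain ⟨a, rfl⟩ : ∃ b, a = b + 1 := ⟨a - 1, by omega⟩
        fin_cases i
        · exact Or.inl (Or.inl (Or.inr ⟨a, rfl⟩))
        · exact Or.inl (Or.inr ⟨a, rfl⟩)
        · exact Or.inr ⟨a, rfl⟩) (fun i j => if i = j then 1 else 0)
  rw [lam_one] at h5
  exact cl_of_adj (fun t => adj_trans' j4 (adj_trans' j3 (adj_trans' j2 (j1 t)))) h5

end Pool.Agent.Lib.D13
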