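import Pool.Agent.Lib.D13.L42
import Pool.Agent.Lib.D13.Lead

/-!
# MP_5dcbc3_ag: type (6,4,2), case alpha, the generic member

Levels: `v0, v1 : 0`, `A^i v0 : 3 i`, `A^i v1 : 5 i`, `A^i v2 : 5 + 5 i`, top level `15`.
-/

set_option autoImplicit false

namespace Pool.Agent.Lib.D13.Al

open Matrix Polynomial Pool.Agent.Lib.Q5dc Pool.Agent.Lib.D7 Pool.Agent.Lib.D8
  Pool.Agent.Lib.D13.PB

variable {k : Type*} [Field k] {N : ℕ} {A Y Z : Matrix (Fin N) (Fin N) k}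
  {v : Fin 3 → Fin N → k}

/-- the orders -/
def o (m : ℕ) : Fin 3 → ℕ :=
  ![(min m 16 + 2) / 3, (min m 16 + 4) / 5, min ((min m 16 + 4) / 5 - 1) 2]

/-- the levels -/
noncomputable def FL (A : Matrix (Fin N) (Fin N) k) (v : Fin 3 → Fin N → k) (m : ℕ) :
    Submodule k (Fin N → k) where
  carrier := {x | ∃ z : Fin 3 → k[X], x = pi A v z ∧ ∀ j, (X : k[X]) ^ o m j ∣ z j}
  add_mem' := by
    rintro x y ⟨z, rfl, hz⟩ ⟨z', rfl, hz'⟩
    exact ⟨z + z', (pi_add z z').symm, fun j => dvd_add (hz j) (hz' j)⟩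
  zero_mem' := ⟨0, pi_zero.symm, fun j => dvd_zero _⟩
  smul_mem' := by
    rintro c x ⟨z, rfl, hz⟩
    refine ⟨c • z, (pi_csmul c z).symm, fun j => ?_⟩
    rw [Pi.smul_apply, smul_eq_C_mul]
    exact (hz j).mul_left _

theorem mem_FL {m : ℕ} {z : Fin 3 → k[X]} (h : ∀ j, (X : k[X]) ^ o m j ∣ z j) :
    pi A v z ∈ FL A v m := ⟨z, rfl, h⟩

theorem mem3 {m a b c : ℕ} {p0 p1 p2 : k[X]} (ha : o m 0 ≤ a) (hb : o m 1 ≤ b) (hc : o m 2 ≤ c)
    (h0 : X ^ a ∣ p0) (h1 : X ^ b ∣ p1) (h2 : X ^ c ∣ p2) : pi A v ![p0, p1, p2] ∈ FL A v m := by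
  refine mem_FL fun j => ?_
  fin_cases j
  · exact (pow_dvd_pow X ha).trans h0
  · exact (pow_dvd_pow X hb).trans h1
  · exact (pow_dvd_pow X hc).trans h2

theorem o_mono {m m' : ℕ} (h : m ≤ m') (j : Fin 3) : o m j ≤ o m' j := by
  fin_cases j
  · show (min m 16 + 2) / 3 ≤ (min m' 16 + 2) / 3
    omega
  · show (min m 16 + 4) / 5 ≤ (min m' 16 + 4) / 5
    omega
  · show min ((min m 16 + 4) / 5 - 1) 2 ≤ min ((min m' 16 + 4) / 5 - 1) 2
    omega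

theorem FL_anti {m m' : ℕ} (h : m ≤ m') : FL A v m' ≤ FL A v m := by
  rintro x ⟨z, rfl, hz⟩
  exact ⟨z, rfl, fun j => (pow_dvd_pow X (o_mono h j)).trans (hz j)⟩

theorem FL_top (hA : Bz A v 4 2) : FL A v 16 = ⊥ := by
  rw [eq_bot_iff]
  rintro x ⟨z, rfl, hz⟩
  rw [Submodule.mem_bot]
  refine (pi_eq_zero hA z).2 fun j => ?_
  have := hz j
  fin_cases j
  · exact this
  · exact this
  · exact this

theorem A_pi (z : Fin 3 → k[X]) : A *ᵥ pi A v z = pi A v fun i => X * z i := by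
  have h1 := pi_smul (A := A) (w := v) X z
  rw [aeval_X] at h1
  rw [← h1]
  rfl

theorem actA {m : ℕ} {x : Fin N → k} (hx : x ∈ FL A v m) : A *ᵥ x ∈ FL A v (m + 3) := by
  obtain ⟨z, rfl, hz⟩ := hx
  rw [A_pi]
  refine mem_FL fun j => ?_
  have h1 : o (m + 3) j ≤ 1 + o m j := by
    fin_cases j
    · show (min (m + 3) 16 + 2) / 3 ≤ 1 + (min m 16 + 2) / 3
      omega
    · show (min (m + 3) 16 + 4) / 5 ≤ 1 + (min m 16 + 4) / 5
      omega
    · show min ((min (m + 3) 16 + 4) / 5 - 1) 2 ≤ 1 + min ((min m 16 + 4) / 5 - 1) 2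
      omega
  refine (pow_dvd_pow X h1).trans ?_
  rw [pow_add, pow_one]
  exact mul_dvd_mul_left X (hz j)

/-- the matrices -/
noncomputable abbrev Mx (f g h r t q u w : k[X]) : Matrix (Fin 3) (Fin 3) k[X] :=
  Mz 4 2 (X * f) (X * g) (X * h) r t q u (X * w)

theorem mx_mulVec (f g h r t q u w z0 z1 z2 : k[X]) : Mx f g h r t q u w *ᵥ ![z0, z1, z2] =
    ![X ^ 3 * (g * z1) + X ^ 4 * (q * z2), X * (f * z0) + X * (h * z1) + X ^ 2 * (u * z2),
      r * z0 + t * z1 + X * (w * z2)] := by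
  funext i
  fin_cases i <;> simp [Mz, Matrix.mulVec, dotProduct, Fin.sum_univ_three] <;> ring

theorem eta3 (z : Fin 3 → k[X]) : z = ![z 0, z 1, z 2] := by
  funext i
  fin_cases i <;> rfl

theorem actY {f g h r t q u w : k[X]} (hY : Rep A v Y (Mx f g h r t q u w)) {m : ℕ}
    {x : Fin N → k} (hx : x ∈ FL A v m) : Y *ᵥ x ∈ FL A v (m + 5) := by
  obtain ⟨z, rfl, hz⟩ := hx
  rw [hY z, eta3 z, mx_mulVec]
  have h0 := hz 0
  have h1 := hz 1
  have h2 := hz 2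
  have d : ∀ {a b c : ℕ} {p p' : k[X]}, c ≤ a + b → X ^ b ∣ p → X ^ c ∣ X ^ a * (p' * p) := by
    intro a b c p p' hc hp
    refine (pow_dvd_pow X hc).trans ?_
    rw [pow_add]
    exact mul_dvd_mul_left _ (hp.mul_left _)
  have d1 : ∀ {b c : ℕ} {p p' : k[X]}, c ≤ 1 + b → X ^ b ∣ p → X ^ c ∣ X * (p' * p) := by
    intro b c p p' hc hp
    have := d (p' := p') (a := 1) hc hp
    rwa [pow_one] at this
  have d0 : ∀ {b c : ℕ} {p p' : k[X]}, c ≤ b → X ^ b ∣ p → X ^ c ∣ p' * p := by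
    intro b c p p' hc hp
    exact ((pow_dvd_pow X hc).trans hp).mul_left _
  refine mem3 le_rfl le_rfl le_rfl ?_ ?_ ?_
  · refine dvd_add (d ?_ h1) (d ?_ h2)
    · show (min (m + 5) 16 + 2) / 3 ≤ 3 + (min m 16 + 4) / 5
      omega
    · show (min (m + 5) 16 + 2) / 3 ≤ 4 + min ((min m 16 + 4) / 5 - 1) 2
      omega
  · refine dvd_add (dvd_add (d1 ?_ h0) (d1 ?_ h1)) (d ?_ h2)
    · show (min (m + 5) 16 + 4) / 5 ≤ 1 + (min m 16 + 2) / 3
      omega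
    · show (min (m + 5) 16 + 4) / 5 ≤ 1 + (min m 16 + 4) / 5
      omega
    · show (min (m + 5) 16 + 4) / 5 ≤ 2 + min ((min m 16 + 4) / 5 - 1) 2
      omega
  · refine dvd_add (dvd_add (d0 ?_ h0) (d0 ?_ h1)) (d1 ?_ h2)
    · show min ((min (m + 5) 16 + 4) / 5 - 1) 2 ≤ (min m 16 + 2) / 3
      omega
    · show min ((min (m + 5) 16 + 4) / 5 - 1) 2 ≤ (min m 16 + 4) / 5
      omega
    · show min ((min (m + 5) 16 + 4) / 5 - 1) 2 ≤ 1 + min ((min m 16 + 4) / 5 - 1) 2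
      omega

end Pool.Agent.Lib.D13.Al
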