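import Pool.Agent.Lib.D13.Al8

/-!
# MP_5dcbc3_ag: type (6,4,2), case alpha, leading terms
-/

set_option autoImplicit false

namespace Pool.Agent.Lib.D13.Al

open Matrix Polynomial Pool.Agent.Lib.Q5dc Pool.Agent.Lib.D7 Pool.Agent.Lib.D8
  Pool.Agent.Lib.D13.PB

variable {k : Type*} [Field k] {N : ℕ} {A Y Z : Matrix (Fin N) (Fin N) k}
  {v : Fin 3 → Fin N → k}

theorem v0_eq : v 0 = pi A v ![1, 0, 0] := by
  have h : (![1, 0, 0] : Fin 3 → k[X]) = Pi.single 0 1 := by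
    funext i
    fin_cases i <;> simp
  rw [h, pi_single, map_one, one_mulVec]

theorem v1_eq : v 1 = pi A v ![0, 1, 0] := by
  have h : (![0, 1, 0] : Fin 3 → k[X]) = Pi.single 1 1 := by
    funext i
    fin_cases i <;> simp
  rw [h, pi_single, map_one, one_mulVec]

theorem pi3_congr {a b c a' b' c' : k[X]} (h0 : a = a') (h1 : b = b') (h2 : c = c') :
    pi A v ![a, b, c] = pi A v ![a', b', c'] := by rw [h0, h1, h2]

theorem pi3_sub (a b c a' b' c' : k[X]) (s : k) :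
    pi A v ![a, b, c] - s • pi A v ![a', b', c'] =
      pi A v ![a - C s * a', b - C s * b', c - C s * c'] := by
  rw [← pi_csmul, ← pi_sub]
  congr 1
  funext i
  fin_cases i <;> simp [smul_eq_C_mul]

theorem A_pi3 (a b c : k[X]) : A *ᵥ pi A v ![a, b, c] = pi A v ![X * a, X * b, X * c] := by
  rw [A_pi]
  congr 1
  funext i
  fin_cases i <;> rfl

theorem dvX {a : ℕ} {p q : k[X]} (h : q = X ^ a * p) (h0 : p.coeff 0 = 0) : X ^ (a + 1) ∣ q := by
  rw [h, pow_succ]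
  exact mul_dvd_mul_left _ (X_dvd_iff.2 h0)

theorem dvn {a : ℕ} {p q : k[X]} (h : q = X ^ a * p) : X ^ a ∣ q := ⟨p, h⟩

variable {f g h r t q u w : k[X]} {H T U W γ : k}

/-- the leading vector -/
noncomputable def E (A : Matrix (Fin N) (Fin N) k) (v : Fin 3 → Fin N → k) (H T : k) :
    Fin N → k := pi A v ![0, C H * X, C T]

/-- leading coefficients -/
structure Ld (f h r t u w : k[X]) (H T U W γ : k) : Prop where
  hs : H + W = 1
  hp : H * W = T * U
  f0 : f.coeff 0 = γ * H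
  r0 : r.coeff 0 = γ * T
  h0 : h.coeff 0 = H
  t0 : t.coeff 0 = T
  u0 : u.coeff 0 = U
  w0 : w.coeff 0 = W

theorem y_v0 (hY : Rep A v Y (Mx f g h r t q u w)) : Y *ᵥ v 0 = pi A v ![0, X * f, r] := by
  conv_lhs => rw [v0_eq (A := A) (v := v)]
  rw [hY, mx_mulVec]
  exact pi3_congr (by ring) (by ring) (by ring)

theorem y_v1 (hY : Rep A v Y (Mx f g h r t q u w)) :
    Y *ᵥ v 1 = pi A v ![X ^ 3 * g, X * h, t] := by
  conv_lhs => rw [v1_eq (A := A) (v := v)]
  rw [hY, mx_mulVec]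
  exact pi3_congr (by ring) (by ring) (by ring)

theorem y1 (hY : Rep A v Y (Mx f g h r t q u w)) (hL : Ld f h r t u w H T U W γ) :
    Y *ᵥ v 0 - γ • E A v H T ∈ FL A v 6 := by
  rw [y_v0 hY, E, pi3_sub]
  refine mem3 (a := 2) (b := 2) (c := 1) (by decide) (by decide) (by decide) ?_ ?_ ?_
  · simp
  · refine dvX (p := f - C γ * C H) (by ring) ?_
    simp [hL.f0]
  · refine dvX (a := 0) (p := r - C γ * C T) (by ring) ?_
    simp [hL.r0]

theorem y4 (hY : Rep A v Y (Mx f g h r t q u w)) (hL : Ld f h r t u w H T U W γ) :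
    Y *ᵥ v 1 - E A v H T ∈ FL A v 6 := by
  have e : Y *ᵥ v 1 - E A v H T = Y *ᵥ v 1 - (1 : k) • E A v H T := by rw [one_smul]
  rw [e, y_v1 hY, E, pi3_sub]
  refine mem3 (a := 2) (b := 2) (c := 1) (by decide) (by decide) (by decide) ?_ ?_ ?_
  · exact dvn (p := X * g) (by ring)
  · refine dvX (p := h - C H) (by simp; ring) ?_
    simp [hL.h0]
  · refine dvX (a := 0) (p := t - C T) (by simp) ?_
    simp [hL.t0]

theorem y2 (hY : Rep A v Y (Mx f g h r t q u w)) (hL : Ld f h r t u w H T U W γ) :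
    Y *ᵥ (Y *ᵥ v 0) - γ • (A *ᵥ E A v H T) ∈ FL A v 11 := by
  rw [y_v0 hY, hY, mx_mulVec, E, A_pi3, pi3_sub]
  refine mem3 (a := 4) (b := 3) (c := 2) (by decide) (by decide) (by decide) ?_ ?_ ?_
  · exact dvn (p := g * f + q * r) (by ring)
  · refine dvX (p := h * f + u * r - C γ * C H) (by ring) ?_
    simp [hL.f0, hL.h0, hL.u0, hL.r0]
    linear_combination γ * H * hL.hs - γ * hL.hp
  · refine dvX (a := 1) (p := t * f + w * r - C γ * C T) (by ring) ?_
    simp [hL.f0, hL.t0, hL.w0, hL.r0]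
    linear_combination γ * T * hL.hs

theorem y3 (hA : Bz A v 4 2) (hY : Rep A v Y (Mx f g h r t q u w))
    (hL : Ld f h r t u w H T U W γ) :
    Y *ᵥ (Y *ᵥ (Y *ᵥ v 0)) =
      γ • pi A v ![C (g.coeff 0 * H + q.coeff 0 * T) * X ^ 5, C H * X ^ 3, 0] := by
  rw [← sub_eq_zero, y_v0 hY, hY, mx_mulVec, hY, mx_mulVec, pi3_sub, pi_eq_zero hA]
  have i0 : (![4 + 2, 4, 2] : Fin 3 → ℕ) 0 = 5 + 1 := rfl
  have i1 : (![4 + 2, 4, 2] : Fin 3 → ℕ) 1 = 3 + 1 := rfl
  have i2 : (![4 + 2, 4, 2] : Fin 3 → ℕ) 2 = 1 + 1 := rfl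
  have b1 : (h * f + u * r).coeff 0 = γ * H := by
    simp [hL.f0, hL.h0, hL.u0, hL.r0]
    linear_combination γ * H * hL.hs - γ * hL.hp
  have b2 : (t * f + w * r).coeff 0 = γ * T := by
    simp [hL.f0, hL.t0, hL.w0, hL.r0]
    linear_combination γ * T * hL.hs
  intro j
  fin_cases j
  · show X ^ (5 + 1) ∣ _
    refine dvX (p := g * (h * f + u * r) + q * (t * f + w * r) -
      C γ * C (g.coeff 0 * H + q.coeff 0 * T)) (by simp; ring) ?_
    rw [coeff_sub, coeff_add, mul_coeff_zero, mul_coeff_zero q, b1, b2, ← C_mul, coeff_C_zero]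
    ring
  · show X ^ (3 + 1) ∣ _
    refine dvX (p := f * (X * (X * (g * f + q * r))) + h * (h * f + u * r) + u * (t * f + w * r) -
      C γ * C H) (by simp; ring) ?_
    rw [coeff_sub, coeff_add, coeff_add, mul_coeff_zero f, mul_coeff_zero X, coeff_X_zero,
      mul_coeff_zero h, mul_coeff_zero u (t * f + w * r), b1, b2, ← C_mul, coeff_C_zero, hL.h0,
      hL.u0]
    linear_combination γ * H * hL.hs - γ * hL.hp
  · show X ^ (1 + 1) ∣ _
    exact dvn (p := r * (X ^ 2 * (g * f + q * r)) + t * (h * f + u * r) + w * (t * f + w * r))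
      (by simp; ring)

theorem yz (hY : Rep A v Y (Mx f g h r t q u w)) (hL : Ld f h r t u w H T U W γ)
    {f' g' h' r' t' q' u' w' : k[X]} {γ' : k} (hZ : Rep A v Z (Mx f' g' h' r' t' q' u' w'))
    (hL' : Ld f' h' r' t' u' w' W (-T) (-U) H γ') :
    Z *ᵥ (Y *ᵥ v 0) ∈ FL A v 11 := by
  rw [y_v0 hY, hZ, mx_mulVec]
  refine mem3 (a := 4) (b := 3) (c := 2) (by decide) (by decide) (by decide) ?_ ?_ ?_
  · exact dvn (p := g' * f + q' * r) (by ring)
  · refine dvX (p := h' * f + u' * r) (by ring) ?_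
    simp [hL.f0, hL'.h0, hL'.u0, hL.r0]
    linear_combination γ * hL.hp
  · refine dvX (a := 1) (p := t' * f + w' * r) (by ring) ?_
    simp [hL.f0, hL'.t0, hL'.w0, hL.r0]
    ring

end Pool.Agent.Lib.D13.Al
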