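import Pool.Agent.Lib.D13.Al3

/-!
# MP_5dcbc3_ag: type (6,4,2), case alpha, lines
-/

set_option autoImplicit false

namespace Pool.Agent.Lib.D13.Al

open Pool.Agent.Lib.D7

variable {k : Type*} [Field k]

/-- bilinear form of the relation `a1` -/
def Fa1 (p p' : Pt k) : k := (p.t0 * p'.u0 - p'.t0 * p.u0)

/-- bilinear form of the relation `a2` -/
def Fa2 (p p' : Pt k) : k := (p.h1 * p'.t0 - p'.h1 * p.t0) - (p.w1 * p'.t0 - p'.w1 * p.t0)

/-- bilinear form of the relation `a3` -/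
def Fa3 (p p' : Pt k) : k := (p.h1 * p'.u0 - p'.h1 * p.u0) - (p.w1 * p'.u0 - p'.w1 * p.u0)

/-- bilinear form of the relation `c2` -/
def Fc2 (p p' : Pt k) : k := (p.f1 * p'.t0 - p'.f1 * p.t0) + (p.r0 * p'.w1 - p'.r0 * p.w1)

/-- bilinear form of the relation `c3` -/
def Fc3 (p p' : Pt k) : k := (p.g1 * p'.u0 - p'.g1 * p.u0) + (p.q0 * p'.w1 - p'.q0 * p.w1)

/-- bilinear form of the relation `c4` -/
def Fc4 (p p' : Pt k) : k := (p.f1 * p'.h1 - p'.f1 * p.h1) + (p.r0 * p'.u0 - p'.r0 * p.u0)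

/-- bilinear form of the relation `c5` -/
def Fc5 (p p' : Pt k) : k := (p.h1 * p'.g1 - p'.h1 * p.g1) + (p.t0 * p'.q0 - p'.t0 * p.q0)

/-- bilinear form of the relation `c6` -/
def Fc6 (p p' : Pt k) : k := (p.f1 * p'.g1 - p'.f1 * p.g1) + (p.r0 * p'.q0 - p'.r0 * p.q0)

/-- bilinear form of the relation `b1` -/
def Fb1 (p p' : Pt k) : k := (p.f1 * p'.g2 - p'.f1 * p.g2) + (p.f2 * p'.g1 - p'.f2 * p.g1) + (p.r0 * p'.q1 - p'.r0 * p.q1) + (p.r1 * p'.q0 - p'.r1 * p.q0)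

/-- bilinear form of the relation `b2` -/
def Fb2 (p p' : Pt k) : k := (p.f1 * p'.h2 - p'.f1 * p.h2) + (p.f2 * p'.h1 - p'.f2 * p.h1) + (p.r0 * p'.u1 - p'.r0 * p.u1) + (p.r1 * p'.u0 - p'.r1 * p.u0)

/-- bilinear form of the relation `b4` -/
def Fb4 (p p' : Pt k) : k := (p.h1 * p'.g2 - p'.h1 * p.g2) + (p.h2 * p'.g1 - p'.h2 * p.g1) + (p.t0 * p'.q1 - p'.t0 * p.q1) + (p.t1 * p'.q0 - p'.t1 * p.q0)

/-- bilinear form of the relation `b5` -/
def Fb5 (p p' : Pt k) : k := (p.t0 * p'.u1 - p'.t0 * p.u1) + (p.t1 * p'.u0 - p'.t1 * p.u0)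

/-- zero -/
def Pt.z : Pt k := ⟨0, 0, 0, 0, 0, 0, 0, 0, 0, 0, 0, 0, 0, 0, 0, 0, 0, 0⟩

/-- sum -/
def Pt.ad (p n : Pt k) : Pt k :=
  ⟨p.f1 + n.f1, p.f2 + n.f2, p.f3 + n.f3, p.g1 + n.g1, p.g2 + n.g2, p.g3 + n.g3,
   p.h1 + n.h1, p.h2 + n.h2, p.h3 + n.h3, p.r0 + n.r0, p.r1 + n.r1, p.t0 + n.t0, p.t1 + n.t1,
   p.q0 + n.q0, p.q1 + n.q1, p.u0 + n.u0, p.u1 + n.u1, p.w1 + n.w1⟩

/-- `p + s n` -/
def Pt.mv (p : Pt k) (s : k) (n : Pt k) : Pt k :=
  ⟨p.f1 + s * n.f1, p.f2 + s * n.f2, p.f3 + s * n.f3, p.g1 + s * n.g1, p.g2 + s * n.g2,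
   p.g3 + s * n.g3, p.h1 + s * n.h1, p.h2 + s * n.h2, p.h3 + s * n.h3, p.r0 + s * n.r0,
   p.r1 + s * n.r1, p.t0 + s * n.t0, p.t1 + s * n.t1, p.q0 + s * n.q0, p.q1 + s * n.q1,
   p.u0 + s * n.u0, p.u1 + s * n.u1, p.w1 + s * n.w1⟩

theorem polyPt_mv (p n : Pt k) : PolyPt fun s : k => p.mv s n := by
  constructor <;>
  exact D7.IsPoly.add (D7.IsPoly.const _) (D7.IsPoly.mul D7.IsPoly.id (D7.IsPoly.const _))

theorem Pt.mv_zero (p n : Pt k) : p.mv 0 n = p := by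
  cases p
  simp [Pt.mv]

/-- the line `(p + s n, p' + s n')` satisfies the relations to first order -/
structure Lin (p p' n n' : Pt k) : Prop where
  a1 : Fa1 p n' + Fa1 n p' = 0
  a2 : Fa2 p n' + Fa2 n p' = 0
  a3 : Fa3 p n' + Fa3 n p' = 0
  c2 : Fc2 p n' + Fc2 n p' = 0
  c3 : Fc3 p n' + Fc3 n p' = 0
  c4 : Fc4 p n' + Fc4 n p' = 0
  c5 : Fc5 p n' + Fc5 n p' = 0
  c6 : Fc6 p n' + Fc6 n p' = 0
  b1 : Fb1 p n' + Fb1 n p' = 0
  b2 : Fb2 p n' + Fb2 n p' = 0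
  b4 : Fb4 p n' + Fb4 n p' = 0
  b5 : Fb5 p n' + Fb5 n p' = 0

theorem rel_mv {p p' n n' : Pt k} (h : Rel p p') (h1 : Lin p p' n n') (h2 : Rel n n') (s : k) :
    Rel (p.mv s n) (p'.mv s n') := by
  constructor
  · have e := h1.a1
    simp only [Fa1] at e
    simp only [Pt.mv]
    linear_combination h.a1 + s * e + s * s * h2.a1
  · have e := h1.a2
    simp only [Fa2] at e
    simp only [Pt.mv]
    linear_combination h.a2 + s * e + s * s * h2.a2
  · have e := h1.a3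
    simp only [Fa3] at e
    simp only [Pt.mv]
    linear_combination h.a3 + s * e + s * s * h2.a3
  · have e := h1.c2
    simp only [Fc2] at e
    simp only [Pt.mv]
    linear_combination h.c2 + s * e + s * s * h2.c2
  · have e := h1.c3
    simp only [Fc3] at e
    simp only [Pt.mv]
    linear_combination h.c3 + s * e + s * s * h2.c3
  · have e := h1.c4
    simp only [Fc4] at e
    simp only [Pt.mv]
    linear_combination h.c4 + s * e + s * s * h2.c4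
  · have e := h1.c5
    simp only [Fc5] at e
    simp only [Pt.mv]
    linear_combination h.c5 + s * e + s * s * h2.c5
  · have e := h1.c6
    simp only [Fc6] at e
    simp only [Pt.mv]
    linear_combination h.c6 + s * e + s * s * h2.c6
  · have e := h1.b1
    simp only [Fb1] at e
    simp only [Pt.mv]
    linear_combination h.b1 + s * e + s * s * h2.b1
  · have e := h1.b2
    simp only [Fb2] at e
    simp only [Pt.mv]
    linear_combination h.b2 + s * e + s * s * h2.b2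
  · have e := h1.b4
    simp only [Fb4] at e
    simp only [Pt.mv]
    linear_combination h.b4 + s * e + s * s * h2.b4
  · have e := h1.b5
    simp only [Fb5] at e
    simp only [Pt.mv]
    linear_combination h.b5 + s * e + s * s * h2.b5

theorem Op.ln [Infinite k] {B : Pt k → Pt k → Prop} (hB : Op B) {p p' : Pt k} (h : B p p')
    (n n' : Pt k) (h1 : Lin p p' n n') (h2 : Rel n n') {F : Set k} (hF : F.Finite) :
    ∃ s, s ∉ F ∧ B (p.mv s n) (p'.mv s n') := by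
  refine hB.one (fun s => p.mv s n) (fun s => p'.mv s n') (polyPt_mv _ _) (polyPt_mv _ _)
    (fun s => rel_mv (hB.rel _ _ h) h1 h2 s) ?_ hF
  simp only [Pt.mv_zero]
  exact h

theorem Op.ln1 [Infinite k] {B : Pt k → Pt k → Prop} (hB : Op B) {p p' : Pt k} (h : B p p')
    (n n' : Pt k) (h1 : Lin p p' n n') (h2 : Rel n n') :
    ∃ s, s ≠ 0 ∧ B (p.mv s n) (p'.mv s n') := by
  obtain ⟨s, hs, h3⟩ := hB.ln h n n' h1 h2 (Set.finite_singleton (0 : k))
  exact ⟨s, hs, h3⟩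

end Pool.Agent.Lib.D13.Al
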