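import Pool.Agent.Lib.D7.Defs

/-!
# MP_5dcbc3_ag: the purity theorem, definitions

A commuting nilpotent indecomposable triple in the closure of the triples `(A, p(A), q(A))` lies in
an irreducible family of commuting nilpotent triples of dimension at least `d ^ 2 + d - 2`.
-/

namespace Pool.Agent.Lib.D13

open Matrix MvPolynomial Pool.Agent.Lib.Q5dc Pool.Agent.Lib.D7

universe u

/-- the closure of the triples `(A, p(A), q(A))` -/
def PCl {k : Type*} [Field k] {n : Type*} [Fintype n] [DecidableEq n]
    (T : Fin 3 → Matrix n n k) : Prop :=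
  ∀ F : MvPolynomial (Fin 3 × n × n) k,
    (∀ (A : Matrix n n k) (p q : Polynomial k),
      MvPolynomial.eval (co ![A, Polynomial.aeval A p, Polynomial.aeval A q]) F = 0) →
    MvPolynomial.eval (co T) F = 0

/-- no nontrivial idempotent commutes with the triple -/
def Indec {k : Type*} [Field k] {n : Type*} [Fintype n] [DecidableEq n]
    (T : Fin 3 → Matrix n n k) : Prop :=
  ∀ e : Matrix n n k, e * e = e → (∀ i, e * T i = T i * e) → e = 0 ∨ e = 1

/-- polynomial functions of triples, evaluated at a triple over a `k`-algebra -/
noncomputable def evA {k : Type*} [Field k] {n : Type*} {S : Type*} [CommRing S] [Algebra k S]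
    (A : Fin 3 → Matrix n n S) : MvPolynomial (Fin 3 × n × n) k →ₐ[k] S :=
  MvPolynomial.aeval fun x => A x.1 x.2.1 x.2.2

/-- a family of commuting triples over a `k`-algebra `S`, integral over the subalgebra generated
by the entries, with a `k`-point at which the triple is `T` -/
structure Fam {k : Type*} [Field k] {n : Type*} [Fintype n] [DecidableEq n]
    (T : Fin 3 → Matrix n n k) (S : Type*) [CommRing S] [Algebra k S] where
  A : Fin 3 → Matrix n n S
  comm : ∀ i j, A i * A j = A j * A i
  φ : S →ₐ[k] k
  spec : ∀ i, (A i).map φ = T i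
  int : ((evA A : MvPolynomial (Fin 3 × n × n) k →ₐ[k] S) :
    MvPolynomial (Fin 3 × n × n) k →+* S).IsIntegral

/-- the joint eigenvalues are in the list `L` (choice functions `c`: one of the three matrices for
every eigenvalue) -/
def Spec {n : Type*} [Fintype n] [DecidableEq n] {S : Type*} [CommRing S]
    (A : Fin 3 → Matrix n n S) (L : List (Fin 3 → S)) (m : ℕ) : Prop :=
  ∀ c : (Fin 3 → S) → Fin 3,
    (L.map fun l => (A (c l) - l (c l) • (1 : Matrix n n S)) ^ m).prod = 0

end Pool.Agent.Lib.D13
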