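import Mathlib

/-!
# MP_5dcbc3_ag: dimensions of finitely generated domains over a field
-/

namespace Pool.Agent.Lib.D13.Pur

open Polynomial

/-- the maximal ideals of a polynomial ring in `n` variables over a field have height `n` -/
theorem mv_height {k : Type*} [Field k] (n : ℕ) (P : Ideal (MvPolynomial (Fin n) k))
    [P.IsMaximal] : P.height = n := by
  induction n with
  | zero =>
    have h1 := Ideal.height_le_ringKrullDim_of_ne_top (I := P) Ideal.IsPrime.ne_top'
    rw [ringKrullDim_mvPolynomial_of_isEmpty, ringKrullDim_eq_zero_of_field] at h1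
    have h2 : P.height ≤ 0 := by exact_mod_cast h1
    rw [Nat.cast_zero]
    exact nonpos_iff_eq_zero.1 h2
  | succ n ih =>
    let e : Polynomial (MvPolynomial (Fin n) k) ≃+* MvPolynomial (Fin (n + 1)) k :=
      (MvPolynomial.finSuccEquiv k n).symm.toRingEquiv
    have hmax : (P.comap (e : Polynomial (MvPolynomial (Fin n) k) →+* _)).IsMaximal :=
      Ideal.comap_isMaximal_of_equiv e
    have hh : (P.comap (e : Polynomial (MvPolynomial (Fin n) k) →+* _)).height = P.height :=
      RingEquiv.height_comap e P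
    set Q := P.comap (e : Polynomial (MvPolynomial (Fin n) k) →+* _) with hQ
    have hmax' : (Q.comap (C : MvPolynomial (Fin n) k →+* _)).IsMaximal :=
      Polynomial.isMaximal_comap_C_of_isJacobsonRing Q
    have hlo : Q.LiesOver (Q.comap (C : MvPolynomial (Fin n) k →+* _)) := ⟨rfl⟩
    rw [← hh, Polynomial.height_eq_height_add_one (Q.comap (C : MvPolynomial (Fin n) k →+* _)) Q,
      ih]
    push_cast
    rfl

/-- integral extensions do not raise the dimension -/
theorem dim_le_int {R S : Type*} [CommRing R] [CommRing S] [Algebra R S]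
    [Algebra.IsIntegral R S] : ringKrullDim S ≤ ringKrullDim R := by
  refine Order.krullDim_le_of_strictMono (PrimeSpectrum.comap (algebraMap R S)) ?_
  intro p q h
  exact Ideal.IsIntegral.comap_lt_comap h

/-- a maximal ideal of an integral extension domain of a normal noetherian domain has at least the
height of its contraction -/
theorem height_le_of_goingDown {R S : Type*} [CommRing R] [CommRing S] [Algebra R S]
    [IsNoetherianRing R] [IsNoetherianRing S] [Algebra.HasGoingDown R S] (P : Ideal S)
    [P.IsPrime] : (P.comap (algebraMap R S)).height ≤ P.height := by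
  have h1 : (P.comap (algebraMap R S)).IsPrime := inferInstance
  have h2 : P.LiesOver (P.comap (algebraMap R S)) := ⟨rfl⟩
  rw [Ideal.height_eq_height_add_of_liesOver_of_hasGoingDown (P.comap (algebraMap R S)) P]
  exact le_self_add

/-- **maximal ideals of a domain which is integral over a polynomial ring** -/
theorem height_maximal {k S : Type*} [Field k] {n : ℕ} [CommRing S] [IsDomain S]
    [Algebra (MvPolynomial (Fin n) k) S] [Algebra.IsIntegral (MvPolynomial (Fin n) k) S]
    [IsNoetherianRing S] (hinj : Function.Injective (algebraMap (MvPolynomial (Fin n) k) S)) :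
    ringKrullDim S = n ∧ ∀ P : Ideal S, P.IsMaximal → P.height = n := by
  have hfs : FaithfulSMul (MvPolynomial (Fin n) k) S :=
    (faithfulSMul_iff_algebraMap_injective _ _).2 hinj
  have hdim : ringKrullDim (MvPolynomial (Fin n) k) = n := by
    rw [MvPolynomial.ringKrullDim_of_isNoetherianRing, ringKrullDim_eq_zero_of_field, zero_add,
      Nat.card_eq_fintype_card, Fintype.card_fin]
  have hle : ringKrullDim S ≤ n := by
    rw [← hdim]
    exact dim_le_int
  have hge : ∀ P : Ideal S, P.IsMaximal → (n : ℕ∞) ≤ P.height := by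
    intro P hP
    have h1 : (P.comap (algebraMap (MvPolynomial (Fin n) k) S)).IsMaximal :=
      Ideal.isMaximal_comap_of_isIntegral_of_isMaximal P
    have h2 := mv_height n (P.comap (algebraMap (MvPolynomial (Fin n) k) S))
    rw [← h2]
    exact height_le_of_goingDown P
  have hP : ∀ P : Ideal S, P.IsMaximal → P.height = n := by
    intro P hP
    refine le_antisymm ?_ (hge P hP)
    have h1 := Ideal.height_le_ringKrullDim_of_ne_top (I := P) Ideal.IsPrime.ne_top'
    exact_mod_cast h1.trans hle
  refine ⟨le_antisymm hle ?_, hP⟩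
  obtain ⟨P, hPm⟩ := Ideal.exists_maximal S
  have h1 := Ideal.height_le_ringKrullDim_of_ne_top (I := P) Ideal.IsPrime.ne_top'
  rw [hP P hPm] at h1
  exact_mod_cast h1

/-- **maximal ideals of finitely generated domains** -/
theorem height_maximal_of_finiteType (k : Type*) {S : Type*} [Field k] [CommRing S] [IsDomain S]
    [Algebra k S] [Algebra.FiniteType k S] :
    ∃ n : ℕ, ringKrullDim S = n ∧ ∀ P : Ideal S, P.IsMaximal → P.height = n := by
  obtain ⟨n, g, hg, hgi⟩ := exists_integral_inj_algHom_of_fg k S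
  let _ : Algebra (MvPolynomial (Fin n) k) S := g.toRingHom.toAlgebra
  have h1 : Algebra.IsIntegral (MvPolynomial (Fin n) k) S := ⟨hgi⟩
  have h2 : IsNoetherianRing S := Algebra.FiniteType.isNoetherianRing k S
  exact ⟨n, height_maximal hg⟩

/-- an integral extension of finitely generated domains does not change the dimension -/
theorem dim_eq_int (k : Type*) {A B : Type*} [Field k] [CommRing A] [IsDomain A]
    [Algebra k A] [Algebra.FiniteType k A] [CommRing B] [IsDomain B] [Algebra A B]
    [Algebra.IsIntegral A B] [IsNoetherianRing B] (hinj : Function.Injective (algebraMap A B)) :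
    ∃ n : ℕ, (ringKrullDim A = n ∧ ∀ P : Ideal A, P.IsMaximal → P.height = n) ∧
      (ringKrullDim B = n ∧ ∀ P : Ideal B, P.IsMaximal → P.height = n) := by
  obtain ⟨n, g, hg, hgi⟩ := exists_integral_inj_algHom_of_fg k A
  let _ : Algebra (MvPolynomial (Fin n) k) A := g.toRingHom.toAlgebra
  let _ : Algebra (MvPolynomial (Fin n) k) B := ((algebraMap A B).comp g.toRingHom).toAlgebra
  have h1 : Algebra.IsIntegral (MvPolynomial (Fin n) k) A := ⟨hgi⟩
  have h2 : Algebra.IsIntegral (MvPolynomial (Fin n) k) B :=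
    ⟨RingHom.IsIntegral.trans _ _ hgi (algebraMap_isIntegral_iff.2 inferInstance)⟩
  have h3 : IsNoetherianRing A := Algebra.FiniteType.isNoetherianRing k A
  exact ⟨n, height_maximal hg, height_maximal (hinj.comp hg)⟩

/-- the dimension of a hypersurface -/
theorem dim_quot_prime {k : Type*} [Field k] {n : ℕ} {π : MvPolynomial (Fin n) k}
    (hπ : Prime π) : ringKrullDim (MvPolynomial (Fin n) k ⧸ Ideal.span {π}) + 1 = n := by
  have hdim : ringKrullDim (MvPolynomial (Fin n) k) = n := by
    rw [MvPolynomial.ringKrullDim_of_isNoetherianRing, ringKrullDim_eq_zero_of_field, zero_add,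
      Nat.card_eq_fintype_card, Fintype.card_fin]
  have hne : Ideal.span {π} ≠ ⊤ := by
    rw [Ne, Ideal.span_singleton_eq_top]
    exact hπ.not_isUnit
  refine le_antisymm ?_ ?_
  · rw [← hdim]
    exact ringKrullDim_quotient_succ_le_of_nonZeroDivisor
      (mem_nonZeroDivisors_of_ne_zero hπ.ne_zero)
  · obtain ⟨P, hPm, hP⟩ := Ideal.exists_le_maximal _ hne
    have h1 := Ideal.height_le_ringKrullDim_quotient_add_one (r := π) (p := P)
      (hP (Ideal.mem_span_singleton_self π))
    rw [mv_height n P] at h1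
    exact h1

/-- **(b') a prime over a principal prime has codimension one** -/
theorem dim_quot_of_comap {k S : Type*} [Field k] {n : ℕ} [CommRing S]
    [Algebra (MvPolynomial (Fin n) k) S] [Algebra.IsIntegral (MvPolynomial (Fin n) k) S]
    [IsNoetherianRing S] {q : Ideal S} [q.IsPrime] {π : MvPolynomial (Fin n) k} (hπ : Prime π)
    (hq : q.comap (algebraMap (MvPolynomial (Fin n) k) S) = Ideal.span {π}) :
    ∃ m : ℕ, m + 1 = n ∧ ringKrullDim (S ⧸ q) = m ∧
      ∀ P : Ideal (S ⧸ q), P.IsMaximal → P.height = m := by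
  let A := MvPolynomial (Fin n) k ⧸ Ideal.span {π}
  have hp : (Ideal.span {π}).IsPrime := (Ideal.span_singleton_prime hπ.ne_zero).2 hπ
  let φ : A →+* S ⧸ q := Ideal.quotientMap q (algebraMap (MvPolynomial (Fin n) k) S) hq.ge
  have hφ : Function.Injective φ := Ideal.quotientMap_injective' hq.le
  have hφi : φ.IsIntegral := by
    refine RingHom.IsIntegral.tower_top (Ideal.Quotient.mk (Ideal.span {π})) φ ?_
    have h1 : φ.comp (Ideal.Quotient.mk (Ideal.span {π})) =
        (Ideal.Quotient.mk q).comp (algebraMap (MvPolynomial (Fin n) k) S) :=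
      Ideal.quotientMap_comp_mk _
    rw [h1]
    exact RingHom.IsIntegral.trans _ _ (algebraMap_isIntegral_iff.2 inferInstance)
      (RingHom.isIntegral_of_surjective _ Ideal.Quotient.mk_surjective)
  let _ : Algebra A (S ⧸ q) := φ.toAlgebra
  have h2 : Algebra.IsIntegral A (S ⧸ q) := ⟨hφi⟩
  obtain ⟨m, ⟨hm1, -⟩, hm2, hm3⟩ := dim_eq_int k (A := A) (B := S ⧸ q) hφ
  refine ⟨m, ?_, hm2, hm3⟩
  have h3 := dim_quot_prime hπ
  rw [hm1] at h3
  exact_mod_cast h3

/-! ### further forms -/

theorem dim_le_of_integral {R S : Type*} [CommRing R] [CommRing S] (f : R →+* S)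
    (hf : f.IsIntegral) : ringKrullDim S ≤ ringKrullDim R := by
  let _ : Algebra R S := f.toAlgebra
  have h1 : Algebra.IsIntegral R S := ⟨hf⟩
  exact dim_le_int

theorem dim_eq_of_integral {R S : Type*} [CommRing R] [CommRing S] (f : R →+* S)
    (hf : f.IsIntegral) (hi : Function.Injective f) : ringKrullDim S = ringKrullDim R := by
  refine le_antisymm (dim_le_of_integral f hf) ?_
  let _ : Algebra R S := f.toAlgebra
  have h1 : Algebra.IsIntegral R S := ⟨hf⟩
  refine iSup_le fun l => ?_
  obtain ⟨P, hP⟩ := hf.comap_surjective hi l.head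
  have h2 : P.asIdeal.LiesOver l.head.asIdeal := ⟨by rw [← hP]; rfl⟩
  obtain ⟨L, hL, -, -⟩ := Ideal.exists_ltSeries_of_hasGoingUp (R := R) (S := S) l P.asIdeal
  rw [← hL]
  exact Order.LTSeries.length_le_krullDim L

/-- all maximal ideals of a finitely generated domain have the same height -/
theorem height_eq {k S : Type*} [Field k] [CommRing S] [IsDomain S] [Algebra k S]
    [Algebra.FiniteType k S] (m : Ideal S) [hm : m.IsMaximal] :
    (m.height : WithBot ℕ∞) = ringKrullDim S := by
  obtain ⟨n, h1, h2⟩ := height_maximal_of_finiteType k (S := S)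
  rw [h1, h2 m hm]
  rfl

/-- the dimension drops by at most one -/
theorem dim_quot {k S : Type*} [Field k] [CommRing S] [Algebra k S]
    [Algebra.FiniteType k S] {N : ℕ} [Algebra (MvPolynomial (Fin N) k) S]
    [Algebra.IsIntegral (MvPolynomial (Fin N) k) S] (q : Ideal S) [q.IsPrime]
    (π : MvPolynomial (Fin N) k) (hπ : Prime π)
    (hq : q.comap (algebraMap (MvPolynomial (Fin N) k) S) = Ideal.span {π}) :
    ringKrullDim S ≤ ringKrullDim (S ⧸ q) + 1 := by
  have h2 : IsNoetherianRing S := Algebra.FiniteType.isNoetherianRing k S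
  obtain ⟨m, hm, hm2, -⟩ := dim_quot_of_comap hπ hq
  have hdim : ringKrullDim (MvPolynomial (Fin N) k) = N := by
    rw [MvPolynomial.ringKrullDim_of_isNoetherianRing, ringKrullDim_eq_zero_of_field, zero_add,
      Nat.card_eq_fintype_card, Fintype.card_fin]
  have h3 : ringKrullDim S ≤ N := by
    rw [← hdim]
    exact dim_le_int
  rw [hm2]
  refine h3.trans ?_
  rw [← hm]
  push_cast
  exact le_rfl

/-- the transcendence degree of a finitely generated domain -/
theorem trdeg_eq_dim (k : Type*) {S : Type*} [Field k] [CommRing S] [IsDomain S]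
    [Algebra k S] [Algebra.FiniteType k S] :
    ∃ n : ℕ, ringKrullDim S = n ∧ Algebra.trdeg k S = n := by
  obtain ⟨n, g, hg, hgi⟩ := exists_integral_inj_algHom_of_fg k S
  let _ : Algebra (MvPolynomial (Fin n) k) S := g.toRingHom.toAlgebra
  have h1 : Algebra.IsIntegral (MvPolynomial (Fin n) k) S := ⟨hgi⟩
  have h2 : IsNoetherianRing S := Algebra.FiniteType.isNoetherianRing k S
  have hfs : FaithfulSMul (MvPolynomial (Fin n) k) S :=
    (faithfulSMul_iff_algebraMap_injective _ _).2 hg
  have hst : IsScalarTower k (MvPolynomial (Fin n) k) S :=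
    IsScalarTower.of_algebraMap_eq fun c => (g.commutes c).symm
  refine ⟨n, (height_maximal hg).1, ?_⟩
  have h3 := lift_trdeg_add_eq k (MvPolynomial (Fin n) k) S
  rw [MvPolynomial.trdeg_of_isDomain, trdeg_eq_zero] at h3
  simpa using h3.symm

/-- algebraically independent elements -/
theorem card_le_dim {k S ι : Type*} [Field k] [CommRing S] [IsDomain S] [Algebra k S]
    [Algebra.FiniteType k S] [Fintype ι] (f : MvPolynomial ι k →ₐ[k] S)
    (hf : Function.Injective f) :
    ((Fintype.card ι : ℕ) : WithBot ℕ∞) ≤ ringKrullDim S := by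
  obtain ⟨n, h1, h2⟩ := trdeg_eq_dim k (S := S)
  have h3 := lift_trdeg_le_of_injective f hf
  rw [MvPolynomial.trdeg_of_isDomain, h2] at h3
  rw [h1]
  have h4 : Fintype.card ι ≤ n := by simpa using h3
  exact_mod_cast h4

/-- cutting by finitely many functions vanishing at a point -/
theorem cut {k σ : Type*} [Field k] [Finite σ] (I : Ideal (MvPolynomial σ k))
    [I.IsPrime] (x : σ → k) (hx : ∀ F ∈ I, MvPolynomial.eval x F = 0) {m : ℕ}
    (l : Fin m → MvPolynomial σ k) (hl : ∀ i, MvPolynomial.eval x (l i) = 0) {N : ℕ}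
    (hN : ((N + m : ℕ) : WithBot ℕ∞) ≤ ringKrullDim (MvPolynomial σ k ⧸ I)) :
    ∃ q : Ideal (MvPolynomial σ k), q.IsPrime ∧ I ≤ q ∧ (∀ i, l i ∈ q) ∧
      (∀ F ∈ q, MvPolynomial.eval x F = 0) ∧
      (N : WithBot ℕ∞) ≤ ringKrullDim (MvPolynomial σ k ⧸ q) := by
  classical
  let A := MvPolynomial σ k ⧸ I
  let mx : Ideal (MvPolynomial σ k) := RingHom.ker (MvPolynomial.eval x)
  have hmx : mx.IsMaximal :=
    RingHom.ker_isMaximal_of_surjective _ fun c => ⟨MvPolynomial.C c, MvPolynomial.eval_C c⟩
  have hI : I ≤ mx := fun F hF => RingHom.mem_ker.2 (hx F hF)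
  have hcm : (mx.map (Ideal.Quotient.mk I)).comap (Ideal.Quotient.mk I) = mx := by
    rw [Ideal.comap_map_of_surjective _ Ideal.Quotient.mk_surjective, ← RingHom.ker_eq_comap_bot,
      Ideal.mk_ker, sup_eq_left.2 hI]
  have hM : (mx.map (Ideal.Quotient.mk I)).IsMaximal := by
    rcases Ideal.map_eq_top_or_isMaximal_of_surjective (Ideal.Quotient.mk I)
      Ideal.Quotient.mk_surjective hmx with h | h
    · exfalso
      apply hmx.ne_top
      rw [← hcm, h, Ideal.comap_top]
    · exact h
  set M := mx.map (Ideal.Quotient.mk I) with hMd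
  let s : Set A := Set.range fun i => Ideal.Quotient.mk I (l i)
  have hsM : s ⊆ (M : Set A) := by
    rintro _ ⟨i, rfl⟩
    exact Ideal.mem_map_of_mem _ (RingHom.mem_ker.2 (hl i))
  have hs : s.encard ≤ m := by
    have h1 := Set.encard_image_le (fun i => Ideal.Quotient.mk I (l i)) Set.univ
    rw [Set.image_univ] at h1
    refine h1.trans ?_
    rw [Set.encard_univ]
    simp
  have h1 := Ideal.height_le_height_add_encard_of_subset s hsM
  have hsp : Ideal.span s ≤ M := Ideal.span_le.2 hsM
  have hp : (M.map (Ideal.Quotient.mk (Ideal.span s))).IsPrime :=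
    Ideal.isPrime_map_quotientMk_of_isPrime hsp
  obtain ⟨L, hL, hlen⟩ :=
    (M.map (Ideal.Quotient.mk (Ideal.span s))).exists_ltSeries_length_eq_height
  let ψ : MvPolynomial σ k →+* A ⧸ Ideal.span s :=
    (Ideal.Quotient.mk (Ideal.span s)).comp (Ideal.Quotient.mk I)
  have hψ : Function.Surjective ψ :=
    Ideal.Quotient.mk_surjective.comp Ideal.Quotient.mk_surjective
  let L' : LTSeries (PrimeSpectrum (MvPolynomial σ k)) :=
    L.map (PrimeSpectrum.comap ψ) (RingHom.strictMono_comap_of_surjective hψ)
  have hlast : L'.last.asIdeal = mx := by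
    show (L.last.asIdeal).comap ψ = mx
    rw [hL]
    show ((M.map (Ideal.Quotient.mk (Ideal.span s))).comap
      (Ideal.Quotient.mk (Ideal.span s))).comap (Ideal.Quotient.mk I) = mx
    rw [Ideal.comap_map_of_surjective _ Ideal.Quotient.mk_surjective, ← RingHom.ker_eq_comap_bot,
      Ideal.mk_ker, sup_eq_left.2 hsp, hcm]
  refine ⟨L'.head.asIdeal, L'.head.isPrime, ?_, ?_, ?_, ?_⟩
  · intro F hF
    show ψ F ∈ L.head.asIdeal
    have h2 : ψ F = 0 := by
      show Ideal.Quotient.mk (Ideal.span s) (Ideal.Quotient.mk I F) = 0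
      rw [Ideal.Quotient.eq_zero_iff_mem.2 hF, map_zero]
    rw [h2]
    exact zero_mem _
  · intro i
    show ψ (l i) ∈ L.head.asIdeal
    have h2 : ψ (l i) = 0 :=
      Ideal.Quotient.eq_zero_iff_mem.2 (Ideal.subset_span ⟨i, rfl⟩)
    rw [h2]
    exact zero_mem _
  · intro F hF
    have h2 : L'.head ≤ L'.last := L'.head_le_last
    have h3 : F ∈ L'.last.asIdeal := h2 hF
    rw [hlast] at h3
    exact RingHom.mem_ker.1 h3
  · have h2 : ringKrullDim (MvPolynomial σ k ⧸ L'.head.asIdeal) =
        (Order.coheight L'.head : WithBot ℕ∞) := by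
      rw [ringKrullDim_quotient, Order.coheight_eq_krullDim_Ici]
      have h3 : PrimeSpectrum.zeroLocus (L'.head.asIdeal : Set (MvPolynomial σ k)) =
          Set.Ici L'.head := by
        ext q
        exact Iff.rfl
      rw [h3]
    rw [h2]
    have h4 : (L'.length : ℕ∞) ≤ Order.coheight L'.head := Order.length_le_coheight le_rfl
    have h5 : L'.length = L.length := rfl
    rw [h5, hlen] at h4
    have h6 : ((N + m : ℕ) : ℕ∞) ≤ M.height := by
      rw [← height_eq (k := k) M] at hN
      exact_mod_cast hN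
    have h7 : ((N + m : ℕ) : ℕ∞) ≤ (M.map (Ideal.Quotient.mk (Ideal.span s))).height + m :=
      h6.trans (h1.trans (by gcongr))
    have h8 : (N : ℕ∞) ≤ (M.map (Ideal.Quotient.mk (Ideal.span s))).height := by
      push_cast at h7
      exact (ENat.add_le_add_iff_right (ENat.natCast_ne_top m)).1 h7
    exact_mod_cast h8.trans h4

end Pool.Agent.Lib.D13.Pur
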