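import Mathlib
import Pool.Agent.Lib.D13.PurDefs
import Pool.Agent.Lib.D13.PurDim

/-!
# MP_5dcbc3_ag: the start of the purity theorem

`pur_start`: a triple in the closure of the triples `(A, p(A), q(A))` is a special member of an
irreducible family of dimension at least `d ^ 2 + 2 d` of commuting triples over a domain which
contains the joint eigenvalues.
-/

set_option linter.unusedSectionVars false

namespace Pool.Agent.Lib.D13

open Matrix MvPolynomial Pool.Agent.Lib.Q5dc Pool.Agent.Lib.D7

universe u

namespace PurStart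

section list

theorem prod_dvd {α R : Type*} [CommMonoid R] (L : List α) (f g : α → R)
    (h : ∀ a ∈ L, f a ∣ g a) : (L.map f).prod ∣ (L.map g).prod := by
  induction L with
  | nil => simp
  | cons a L ih =>
    rw [List.map_cons, List.map_cons, List.prod_cons, List.prod_cons]
    exact mul_dvd_mul (h a (by simp)) (ih fun b hb => h b (by simp [hb]))

end list

section mat

variable {n : Type*} [Fintype n] [DecidableEq n]

theorem aeval_map {R S : Type*} [CommRing R] [CommRing S] (φ : R →+* S) (A : Matrix n n R)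
    (r : Polynomial R) :
    (Polynomial.aeval A r).map φ = Polynomial.aeval (A.map φ) (r.map φ) := by
  induction r using Polynomial.induction_on' with
  | add p q hp hq =>
    rw [map_add, Matrix.map_add _ (map_add φ), hp, hq, Polynomial.map_add, map_add]
  | monomial m a =>
    rw [Polynomial.aeval_monomial, Polynomial.map_monomial, Polynomial.aeval_monomial,
      ← Algebra.smul_def, ← Algebra.smul_def]
    ext i j
    rw [Matrix.map_apply, Matrix.smul_apply, Matrix.smul_apply, smul_eq_mul, smul_eq_mul, map_mul]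
    congr 1
    have h2 := map_pow (RingHom.mapMatrix φ : Matrix n n R →+* Matrix n n S) A m
    exact congrFun (congrFun h2 i) j

variable {Ω : Type*} [Field Ω]

/-- the joint eigenvalues -/
theorem prod_zero (M : Matrix n n Ω) (r : Fin 3 → Polynomial Ω) {α : Type*} (L : List α)
    (v : α → Ω) (hL : M.charpoly = (L.map fun a => Polynomial.X - Polynomial.C (v a)).prod)
    (c : α → Fin 3) :
    (L.map fun a => Polynomial.aeval M (r (c a)) -
      ((r (c a)).eval (v a)) • (1 : Matrix n n Ω)).prod = 0 := by
  have h1 : (L.map fun a => Polynomial.aeval M (r (c a)) -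
      ((r (c a)).eval (v a)) • (1 : Matrix n n Ω)).prod
      = Polynomial.aeval M
        (L.map fun a => r (c a) - Polynomial.C ((r (c a)).eval (v a))).prod := by
    rw [map_list_prod, List.map_map]
    congr 1
    refine List.map_congr_left fun a _ => ?_
    rw [Function.comp_apply, map_sub, Polynomial.aeval_C, Algebra.algebraMap_eq_smul_one]
  have h2 : M.charpoly ∣ (L.map fun a => r (c a) - Polynomial.C ((r (c a)).eval (v a))).prod := by
    rw [hL]
    exact prod_dvd L _ _ fun a _ => Polynomial.X_sub_C_dvd_sub_C_eval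
  obtain ⟨H, hH⟩ := h2
  rw [h1, hH, map_mul, Matrix.aeval_self_charpoly, zero_mul]

/-- the values of a polynomial at the eigenvalues are eigenvalues -/
theorem charpoly_root (M : Matrix n n Ω) (r : Polynomial Ω) {a : Ω}
    (ha : M.charpoly.IsRoot a) : (Polynomial.aeval M r).charpoly.IsRoot (r.eval a) := by
  obtain ⟨H, hH⟩ := Polynomial.X_sub_C_dvd_sub_C_eval (a := a) (p := r)
  have h1 : Polynomial.aeval M r - (r.eval a) • (1 : Matrix n n Ω)
      = (M - a • (1 : Matrix n n Ω)) * Polynomial.aeval M H := by
    have h2 := congrArg (Polynomial.aeval M) hH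
    rw [map_sub, Polynomial.aeval_C, map_mul, map_sub, Polynomial.aeval_X, Polynomial.aeval_C,
      Algebra.algebraMap_eq_smul_one, Algebra.algebraMap_eq_smul_one] at h2
    exact h2
  rw [Polynomial.IsRoot, Matrix.eval_charpoly] at ha ⊢
  have h3 : ∀ (B : Matrix n n Ω) (c : Ω), (Matrix.scalar n c - B).det = 0 ↔
      (B - c • (1 : Matrix n n Ω)).det = 0 := by
    intro B c
    rw [← neg_sub B, Matrix.det_neg, Matrix.scalar_apply, ← Matrix.smul_one_eq_diagonal]
    rw [mul_eq_zero, or_iff_right]
    exact pow_ne_zero _ (neg_ne_zero.2 one_ne_zero)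
  rw [h3] at ha ⊢
  rw [h1, Matrix.det_mul, ha, zero_mul]

end mat

/-- the family over the algebra generated by the entries and the joint eigenvalues -/
theorem start_aux {k Ω : Type u} [Field k] [IsAlgClosed k] [Field Ω] [IsAlgClosed Ω]
    [Algebra k Ω] {n : Type} [Fintype n] [DecidableEq n] (M : Matrix n n Ω)
    (r : Fin 3 → Polynomial Ω) {T : Fin 3 → Matrix n n k}
    (hT : ∀ F : MvPolynomial (Fin 3 × n × n) k,
      evA (fun c => Polynomial.aeval M (r c)) F = 0 → eval (co T) F = 0) :
    ∃ (S : Type u) (_ : CommRing S) (_ : IsDomain S) (_ : Algebra k S)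
      (_ : Algebra.FiniteType k S) (F : Fam T S) (L : List (Fin 3 → S)) (v : S →ₐ[k] Ω),
      L.length ≤ Fintype.card n ∧ Spec F.A L 1 ∧ Function.Injective v ∧
      ∀ c, (F.A c).map v = Polynomial.aeval M (r c) := by
  classical
  -- the eigenvalues
  set Λ : List Ω := M.charpoly.roots.toList with hΛ
  have hroot : ∀ a : {a // a ∈ Λ}, M.charpoly.IsRoot a.1 := fun a =>
    (Polynomial.mem_roots'.1 (Multiset.mem_toList.1 a.2)).2
  have hprod : M.charpoly = (Λ.attach.map fun a => Polynomial.X - Polynomial.C a.1).prod := by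
    have h1 : (Λ.attach.map fun a => Polynomial.X - Polynomial.C a.1)
        = Λ.map fun a => Polynomial.X - Polynomial.C a := by
      conv_rhs => rw [← List.attach_map_subtype_val Λ]
      rw [List.map_map]
      rfl
    rw [h1, ← Multiset.prod_coe, ← Multiset.map_coe, hΛ, Multiset.coe_toList]
    exact (IsAlgClosed.splits M.charpoly).eq_prod_roots_of_monic (Matrix.charpoly_monic M)
  have hlen : Λ.attach.length ≤ Fintype.card n := by
    rw [List.length_attach, hΛ, Multiset.length_toList, ← Matrix.charpoly_natDegree_eq_dim M]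
    exact Polynomial.card_roots' _
  -- the algebra
  let G1 : Fin 3 × n × n → Ω := fun x => (Polynomial.aeval M (r x.1)) x.2.1 x.2.2
  let G2 : {a // a ∈ Λ} × Fin 3 → Ω := fun y => (r y.2).eval y.1.1
  have hfin : (Set.range G1 ∪ Set.range G2).Finite :=
    (Set.finite_range G1).union (Set.finite_range G2)
  let S : Subalgebra k Ω := Algebra.adjoin k (Set.range G1 ∪ Set.range G2)
  have hft : Algebra.FiniteType k ↥S := by
    rw [← Subalgebra.fg_iff_finiteType]
    exact Subalgebra.fg_def.2 ⟨_, hfin, rfl⟩
  have hG1 : ∀ x, G1 x ∈ S := fun x => Algebra.subset_adjoin (Or.inl ⟨x, rfl⟩)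
  have hG2 : ∀ y, G2 y ∈ S := fun y => Algebra.subset_adjoin (Or.inr ⟨y, rfl⟩)
  let A : Fin 3 → Matrix n n ↥S := fun c => Matrix.of fun i j => ⟨G1 (c, i, j), hG1 _⟩
  have hA : ∀ c, (A c).map S.val = Polynomial.aeval M (r c) := fun c => by
    ext i j
    rfl
  have hinj : Function.Injective S.val := Subtype.val_injective
  have hmapinj : ∀ B B' : Matrix n n ↥S, B.map S.val = B'.map S.val → B = B' := by
    intro B B' h
    ext i j
    exact congrFun (congrFun h i) j
  have hmap : ∀ B B' : Matrix n n ↥S, (B * B').map S.val = B.map S.val * B'.map S.val :=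
    fun B B' => Matrix.map_mul
  -- the polynomials
  have hev : ∀ F : MvPolynomial (Fin 3 × n × n) k,
      S.val (evA A F) = evA (fun c => Polynomial.aeval M (r c)) F := by
    intro F
    rw [evA, evA, ← AlgHom.comp_apply, MvPolynomial.comp_aeval]
    rfl
  have hint : ((evA A : MvPolynomial (Fin 3 × n × n) k →ₐ[k] ↥S) :
      MvPolynomial (Fin 3 × n × n) k →+* ↥S).IsIntegral := by
    set E : MvPolynomial (Fin 3 × n × n) k →+* Ω :=
      ((evA (fun c => Polynomial.aeval M (r c)) : MvPolynomial (Fin 3 × n × n) k →ₐ[k] Ω) :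
        MvPolynomial (Fin 3 × n × n) k →+* Ω) with hE
    have hEX : ∀ x, E (X x) = G1 x := fun x => by
      rw [hE, RingHom.coe_coe, evA, aeval_X]
    have h1 : ∀ x ∈ S, E.IsIntegralElem x := by
      intro x hx
      induction hx using Algebra.adjoin_induction with
      | mem x hx =>
        rcases hx with ⟨y, rfl⟩ | ⟨⟨a, c⟩, rfl⟩
        · rw [← hEX]
          exact E.isIntegralElem_map
        · refine ⟨(Matrix.of fun i j => (X (c, i, j) : MvPolynomial (Fin 3 × n × n) k)).charpoly,
            Matrix.charpoly_monic _, ?_⟩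
          rw [← Polynomial.eval_map, ← Matrix.charpoly_map]
          have h2 : (Matrix.of fun i j => (X (c, i, j) : MvPolynomial (Fin 3 × n × n) k)).map E
              = Polynomial.aeval M (r c) := by
            ext i j
            rw [Matrix.map_apply, Matrix.of_apply, hEX]
          rw [h2]
          exact charpoly_root M (r c) (hroot a)
      | algebraMap c =>
        have h2 : algebraMap k Ω c = E (C c) := by
          rw [hE, RingHom.coe_coe, evA, aeval_C]
        rw [h2]
        exact E.isIntegralElem_map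
      | add x y _ _ hx hy => exact hx.add E hy
      | mul x y _ _ hx hy => exact hx.mul E hy
    intro x
    obtain ⟨P, hP, hP0⟩ := h1 x.1 x.2
    refine ⟨P, hP, hinj ?_⟩
    rw [map_zero, ← hP0]
    have h3 := Polynomial.hom_eval₂ P ((evA A : MvPolynomial (Fin 3 × n × n) k →ₐ[k] ↥S) :
      MvPolynomial (Fin 3 × n × n) k →+* ↥S) (S.val : ↥S →+* Ω) x
    have h4 : (S.val : ↥S →+* Ω).comp ((evA A : MvPolynomial (Fin 3 × n × n) k →ₐ[k] ↥S) :
      MvPolynomial (Fin 3 × n × n) k →+* ↥S) = E := RingHom.ext fun F => hev F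
    rw [h4] at h3
    exact h3
  have hφ : ∃ φ : ↥S →ₐ[k] k, ∀ i, (A i).map φ = T i := by
    let _ : Algebra (MvPolynomial (Fin 3 × n × n) k) ↥S :=
      ((evA A : MvPolynomial (Fin 3 × n × n) k →ₐ[k] ↥S) :
        MvPolynomial (Fin 3 × n × n) k →+* ↥S).toAlgebra
    have hii : Algebra.IsIntegral (MvPolynomial (Fin 3 × n × n) k) ↥S := ⟨hint⟩
    have hmax : (RingHom.ker (eval (co T))).IsMaximal :=
      RingHom.ker_isMaximal_of_surjective _ fun c => ⟨C c, eval_C c⟩
    have hp := hmax.isPrime
    obtain ⟨Q, -, hQp, hQ⟩ := Ideal.exists_ideal_over_prime_of_isIntegral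
      (RingHom.ker (eval (co T))) (⊥ : Ideal ↥S) (by
        intro F hF
        rw [Ideal.mem_comap, Ideal.mem_bot] at hF
        rw [RingHom.mem_ker]
        refine hT F ?_
        rw [← hev, show evA A F = 0 from hF, map_zero])
    have hQm : Q.IsMaximal :=
      Ideal.isMaximal_of_isIntegral_of_isMaximal_comap (R := MvPolynomial (Fin 3 × n × n) k) Q
        (by rw [hQ]; exact hmax)
    let _ : Field (↥S ⧸ Q) := Ideal.Quotient.field Q
    have hft' : Algebra.FiniteType k (↥S ⧸ Q) :=
      Algebra.FiniteType.of_surjective (Ideal.Quotient.mkₐ k Q) (Ideal.Quotient.mkₐ_surjective k Q)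
    have hfin' : Module.Finite k (↥S ⧸ Q) := finite_of_finite_type_of_isJacobsonRing k (↥S ⧸ Q)
    have hb : Function.Bijective (algebraMap k (↥S ⧸ Q)) :=
      IsAlgClosed.algebraMap_bijective_of_isIntegral
    let e : k ≃ₐ[k] (↥S ⧸ Q) := AlgEquiv.ofBijective (Algebra.ofId k _) hb
    refine ⟨(e.symm : (↥S ⧸ Q) →ₐ[k] k).comp (Ideal.Quotient.mkₐ k Q), fun i => ?_⟩
    ext a b
    rw [Matrix.map_apply, AlgHom.comp_apply]
    have h1 : (X (i, a, b) - C (T i a b) : MvPolynomial (Fin 3 × n × n) k) ∈
        RingHom.ker (eval (co T)) := by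
      rw [RingHom.mem_ker, map_sub, eval_X, eval_C, co, sub_self]
    rw [← hQ, Ideal.mem_comap, map_sub] at h1
    have h2 : algebraMap (MvPolynomial (Fin 3 × n × n) k) ↥S (X (i, a, b)) = A i a b := by
      change evA A (X (i, a, b)) = A i a b
      rw [evA, aeval_X]
    have h3 : algebraMap (MvPolynomial (Fin 3 × n × n) k) ↥S (C (T i a b))
        = algebraMap k ↥S (T i a b) := by
      change evA A (C (T i a b)) = algebraMap k ↥S (T i a b)
      rw [evA, aeval_C]
    rw [h2, h3] at h1
    have h4 : Ideal.Quotient.mkₐ k Q (A i a b) = e (T i a b) := by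
      have h5 := Ideal.Quotient.eq.2 h1
      exact h5
    change e.symm (Ideal.Quotient.mkₐ k Q (A i a b)) = T i a b
    rw [h4, AlgEquiv.symm_apply_apply]
  obtain ⟨φ, hφ⟩ := hφ
  refine ⟨↥S, inferInstance, inferInstance, inferInstance, hft, ⟨A, ?_, φ, hφ, hint⟩,
    Λ.attach.map fun a => fun c => ⟨G2 (a, c), hG2 _⟩, S.val, ?_, ?_, hinj, hA⟩
  · intro i j
    apply hmapinj
    rw [hmap, hmap, hA, hA, ← map_mul, ← map_mul, mul_comm]
  · rw [List.length_map]
    exact hlen
  · intro c
    apply hmapinj
    have h0 : ((0 : Matrix n n ↥S).map S.val) = 0 := Matrix.map_zero _ (map_zero _)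
    rw [h0, List.map_map]
    have h1 := prod_zero M r Λ.attach (fun a => a.1) hprod
      (fun a => c fun c => ⟨G2 (a, c), hG2 _⟩)
    have h2 : ∀ B : Matrix n n ↥S, B.map S.val =
      (RingHom.mapMatrix (S.val : ↥S →+* Ω) : Matrix n n ↥S →+* Matrix n n Ω) B := fun B => rfl
    rw [h2, map_list_prod, List.map_map]
    rw [← h1]
    congr 1
    refine List.map_congr_left fun a _ => ?_
    rw [Function.comp_apply, Function.comp_apply, pow_one, map_sub, ← h2, hA]
    congr 1
    ext i j
    rw [RingHom.mapMatrix_apply, Matrix.map_apply, Matrix.smul_apply, Matrix.smul_apply,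
      smul_eq_mul, smul_eq_mul, map_mul]
    congr 1
    by_cases hij : i = j
    · rw [hij, Matrix.one_apply_eq, Matrix.one_apply_eq, map_one]
    · rw [Matrix.one_apply_ne hij, Matrix.one_apply_ne hij, map_zero]

section gen

variable (k : Type u) [Field k] (n : Type) [Fintype n] [DecidableEq n]

/-- the entries of a matrix and the coefficients of two polynomials -/
abbrev Ix := (n × n) ⊕ (Fin 2 × Fin (Fintype.card n))

/-- the polynomial ring in the entries of a matrix and the coefficients of two polynomials -/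
abbrev PP := MvPolynomial (Ix n) k

/-- the generic matrix -/
noncomputable def gA : Matrix n n (PP k n) := Matrix.of fun i j => X (Sum.inl (i, j))

/-- the generic polynomials -/
noncomputable def gp (c : Fin 2) : Polynomial (PP k n) :=
  ∑ l : Fin (Fintype.card n), Polynomial.C (X (Sum.inr (c, l))) * Polynomial.X ^ (l : ℕ)

/-- the three generic polynomials -/
noncomputable def gr : Fin 3 → Polynomial (PP k n) := ![Polynomial.X, gp k n 0, gp k n 1]

/-- the generic triple -/
noncomputable def gT (c : Fin 3) : Matrix n n (PP k n) := Polynomial.aeval (gA k n) (gr k n c)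

variable {k n}

/-- the polynomial with given coefficients -/
noncomputable def pol {R : Type*} [CommRing R] {d : ℕ} (y : Fin d → R) : Polynomial R :=
  ∑ l : Fin d, Polynomial.C (y l) * Polynomial.X ^ (l : ℕ)

theorem pol_map {R R' : Type*} [CommRing R] [CommRing R'] {d : ℕ} (φ : R →+* R')
    (y : Fin d → R) : (pol y).map φ = pol fun l => φ (y l) := by
  rw [pol, pol, Polynomial.map_sum]
  refine Finset.sum_congr rfl fun l _ => ?_
  rw [Polynomial.map_mul, Polynomial.map_C, Polynomial.map_pow, Polynomial.map_X]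

theorem coeff_pol {R : Type*} [CommRing R] {d : ℕ} (y : Fin d → R) (m : ℕ) :
    (pol y).coeff m = if h : m < d then y ⟨m, h⟩ else 0 := by
  rw [pol, Polynomial.finsetSum_coeff]
  split_ifs with h
  · rw [Finset.sum_eq_single ⟨m, h⟩]
    · rw [Polynomial.coeff_C_mul, Polynomial.coeff_X_pow, if_pos rfl, mul_one]
    · intro l _ hl
      rw [Polynomial.coeff_C_mul, Polynomial.coeff_X_pow, if_neg, mul_zero]
      intro h1
      exact hl (Fin.ext h1.symm)
    · intro h1
      exact absurd (Finset.mem_univ _) h1
  · refine Finset.sum_eq_zero fun l _ => ?_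
    rw [Polynomial.coeff_C_mul, Polynomial.coeff_X_pow, if_neg, mul_zero]
    intro h1
    exact h (h1 ▸ l.2)

/-- every polynomial in a matrix is a polynomial of small degree in it -/
theorem exists_pol (A : Matrix n n k) (p : Polynomial k) :
    ∃ y : Fin (Fintype.card n) → k, Polynomial.aeval A p = Polynomial.aeval A (pol y) := by
  by_cases hn : Nonempty n
  · refine ⟨fun l => (p %ₘ A.charpoly).coeff l, ?_⟩
    have h1 : pol (fun l : Fin (Fintype.card n) => (p %ₘ A.charpoly).coeff l)
        = p %ₘ A.charpoly := by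
      ext m
      rw [coeff_pol]
      split_ifs with h
      · rfl
      · symm
        apply Polynomial.coeff_eq_zero_of_degree_lt
        refine lt_of_lt_of_le (Polynomial.degree_modByMonic_lt p (Matrix.charpoly_monic A)) ?_
        rw [Matrix.charpoly_degree_eq_dim]
        exact_mod_cast not_lt.1 h
    rw [h1]
    have h2 := congrArg (Polynomial.aeval A) (Polynomial.modByMonic_add_div p A.charpoly)
    rw [map_add, map_mul, Matrix.aeval_self_charpoly, zero_mul, add_zero] at h2
    exact h2.symm
  · rw [not_nonempty_iff] at hn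
    exact ⟨0, by ext i; exact (hn.false i).elim⟩

/-- specialization of the generic triple -/
noncomputable def sp (A : Matrix n n k) (y : Fin 2 → Fin (Fintype.card n) → k) :
    PP k n →ₐ[k] k :=
  aeval (Sum.elim (fun x => A x.1 x.2) fun z => y z.1 z.2)

theorem gA_map (A : Matrix n n k) (y : Fin 2 → Fin (Fintype.card n) → k) :
    (gA k n).map (sp A y : PP k n →+* k) = A := by
  ext i j
  rw [Matrix.map_apply, gA, Matrix.of_apply, RingHom.coe_coe, sp, aeval_X, Sum.elim_inl]

theorem gp_map (A : Matrix n n k) (y : Fin 2 → Fin (Fintype.card n) → k) (c : Fin 2) :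
    (gp k n c).map (sp A y : PP k n →+* k) = pol (y c) := by
  have h1 : gp k n c = pol fun l => X (Sum.inr (c, l)) := rfl
  rw [h1, pol_map]
  congr 1
  funext l
  rw [RingHom.coe_coe, sp, aeval_X, Sum.elim_inr]

theorem gT_map (A : Matrix n n k) (y : Fin 2 → Fin (Fintype.card n) → k) (c : Fin 3) :
    (gT k n c).map (sp A y : PP k n →+* k)
      = ![A, Polynomial.aeval A (pol (y 0)), Polynomial.aeval A (pol (y 1))] c := by
  rw [gT, aeval_map, gA_map]
  fin_cases c
  · change Polynomial.aeval A (Polynomial.map _ Polynomial.X) = A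
    rw [Polynomial.map_X, Polynomial.aeval_X]
  · change Polynomial.aeval A (Polynomial.map _ (gp k n 0)) = _
    rw [gp_map]
    rfl
  · change Polynomial.aeval A (Polynomial.map _ (gp k n 1)) = _
    rw [gp_map]
    rfl

theorem sp_ev (A : Matrix n n k) (y : Fin 2 → Fin (Fintype.card n) → k)
    (F : MvPolynomial (Fin 3 × n × n) k) :
    sp A y (evA (gT k n) F) = eval (co ![A, Polynomial.aeval A (pol (y 0)),
      Polynomial.aeval A (pol (y 1))]) F := by
  have h1 : (sp A y).comp (evA (gT k n)) = aeval (co ![A, Polynomial.aeval A (pol (y 0)),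
      Polynomial.aeval A (pol (y 1))]) := by
    rw [evA, MvPolynomial.comp_aeval]
    congr 1
    funext x
    exact congrFun (congrFun (gT_map A y x.1) x.2.1) x.2.2
  have h2 := congrArg (fun f => f F) h1
  exact h2

/-- the polynomials vanishing at the generic triple vanish at the triples of the closure -/
theorem pcl_ev {T : Fin 3 → Matrix n n k} (hT : PCl T) {F : MvPolynomial (Fin 3 × n × n) k}
    (hF : evA (gT k n) F = 0) : eval (co T) F = 0 := by
  refine hT F fun A p q => ?_
  obtain ⟨y, hy⟩ := exists_pol A p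
  obtain ⟨z, hz⟩ := exists_pol A q
  rw [hy, hz]
  have h1 := sp_ev A ![y, z] F
  rw [hF, map_zero] at h1
  exact h1.symm

/-- the Krylov matrix of the vector `(1, …, 1)` -/
noncomputable def Kr {R : Type*} [CommRing R] (A : Matrix n n R) :
    Matrix (Fin (Fintype.card n)) (Fin (Fintype.card n)) R :=
  Matrix.of fun a l => ∑ j, (A ^ (l : ℕ)) ((Fintype.equivFin n).symm a) j

theorem Kr_map {R R' : Type*} [CommRing R] [CommRing R'] (φ : R →+* R') (A : Matrix n n R) :
    (Kr A).map φ = Kr (A.map φ) := by
  ext a l
  rw [Matrix.map_apply, Kr, Kr, Matrix.of_apply, Matrix.of_apply, map_sum]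
  refine Finset.sum_congr rfl fun j _ => ?_
  have h2 := map_pow (RingHom.mapMatrix φ : Matrix n n R →+* Matrix n n R') A l
  exact congrFun (congrFun h2 _) j

/-- the row sums of a polynomial in a matrix -/
theorem rowsum_pol {R : Type*} [CommRing R] (A : Matrix n n R)
    (y : Fin (Fintype.card n) → R) (i : n) :
    ∑ j, (Polynomial.aeval A (pol y)) i j = (Kr A *ᵥ y) (Fintype.equivFin n i) := by
  have h1 : Polynomial.aeval A (pol y) = ∑ l : Fin (Fintype.card n), y l • A ^ (l : ℕ) := by
    rw [pol, map_sum]
    refine Finset.sum_congr rfl fun l _ => ?_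
    rw [map_mul, Polynomial.aeval_C, map_pow, Polynomial.aeval_X, ← Algebra.smul_def]
  rw [h1, Matrix.mulVec, dotProduct]
  simp only [Matrix.sum_apply]
  rw [Finset.sum_comm]
  refine Finset.sum_congr rfl fun l _ => ?_
  rw [Kr, Matrix.of_apply, Equiv.symm_apply_apply, Finset.sum_mul]
  refine Finset.sum_congr rfl fun j _ => ?_
  rw [Matrix.smul_apply, smul_eq_mul, mul_comm]

/-- the matrix and the row sums of the other two matrices -/
abbrev Jx (n : Type) := (n × n) ⊕ (Fin 2 × n)

/-- the entries of the matrix and the row sums of the other two, as a map of polynomial rings -/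
noncomputable def rs {S : Type*} [CommRing S] [Algebra k S] (A : Fin 3 → Matrix n n S) :
    MvPolynomial (Jx n) k →ₐ[k] S :=
  aeval (Sum.elim (fun x => A 0 x.1 x.2) fun z => ∑ j, A z.1.succ z.2 j)

theorem rs_map {S S' : Type*} [CommRing S] [Algebra k S] [CommRing S'] [Algebra k S']
    (φ : S →ₐ[k] S') (A : Fin 3 → Matrix n n S) (F : MvPolynomial (Jx n) k) :
    φ (rs A F) = rs (fun c => (A c).map φ) F := by
  have h1 : φ.comp (rs A) = rs (fun c => (A c).map φ) := by
    rw [rs, rs, MvPolynomial.comp_aeval]
    congr 1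
    funext x
    rcases x with x | z
    · rfl
    · change φ (∑ j, A z.1.succ z.2 j) = ∑ j, φ (A z.1.succ z.2 j)
      rw [map_sum]
  exact congrArg (fun f => f F) h1

theorem Kr_ne [CharZero k] : ∃ A : Matrix n n k, (Kr A).det ≠ 0 := by
  refine ⟨Matrix.diagonal fun i => ((Fintype.equivFin n i : ℕ) : k), ?_⟩
  have h1 : Kr (Matrix.diagonal fun i : n => ((Fintype.equivFin n i : ℕ) : k))
      = Matrix.vandermonde fun a : Fin (Fintype.card n) => ((a : ℕ) : k) := by
    ext a l
    rw [Kr, Matrix.of_apply, Matrix.vandermonde_apply, Matrix.diagonal_pow,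
      Finset.sum_eq_single ((Fintype.equivFin n).symm a)]
    · rw [Matrix.diagonal_apply_eq, Pi.pow_apply, Equiv.apply_symm_apply]
    · intro j _ hj
      rw [Matrix.diagonal_apply_ne _ hj.symm]
    · intro h
      exact absurd (Finset.mem_univ _) h
  rw [h1]
  refine Matrix.det_vandermonde_ne_zero_iff.2 fun a b hab => ?_
  exact Fin.ext (Nat.cast_injective hab)

/-- the entries of the generic matrix and the row sums of the other two are independent -/
theorem rs_inj [CharZero k] : Function.Injective (rs (gT k n) : MvPolynomial (Jx n) k →ₐ[k] _) := by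
  rw [injective_iff_map_eq_zero]
  intro F hF
  let gA' : Matrix n n (MvPolynomial (Jx n) k) := Matrix.of fun i j => X (Sum.inl (i, j))
  have hmul : F * (Kr gA').det = 0 := by
    refine MvPolynomial.funext fun x => ?_
    rw [map_mul, map_zero]
    let A : Matrix n n k := Matrix.of fun i j => x (Sum.inl (i, j))
    have hA : gA'.map (eval x) = A := by
      ext i j
      change eval x (X (Sum.inl (i, j))) = x (Sum.inl (i, j))
      rw [eval_X]
    have hdet : eval x (Kr gA').det = (Kr A).det := by
      rw [RingHom.map_det, RingHom.mapMatrix_apply, Kr_map, hA]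
    by_cases h0 : (Kr A).det = 0
    · rw [hdet, h0, mul_zero]
    · have hu : IsUnit (Kr A).det := isUnit_iff_ne_zero.2 h0
      let y : Fin 2 → Fin (Fintype.card n) → k := fun c =>
        (Kr A)⁻¹ *ᵥ fun a => x (Sum.inr (c, (Fintype.equivFin n).symm a))
      have hy : ∀ c i, (Kr A *ᵥ y c) (Fintype.equivFin n i) = x (Sum.inr (c, i)) := by
        intro c i
        rw [Matrix.mulVec_mulVec, Matrix.mul_nonsing_inv _ hu, Matrix.one_mulVec,
          Equiv.symm_apply_apply]
      have h1 := rs_map (sp A y) (gT k n) F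
      rw [hF, map_zero] at h1
      have h2 : (rs (fun c => (gT k n c).map (sp A y)) : MvPolynomial (Jx n) k →ₐ[k] k)
          = aeval x := by
        rw [rs]
        congr 1
        funext z
        rcases z with ⟨i, j⟩ | ⟨c, i⟩
        · rw [Sum.elim_inl]
          have h3 := gT_map A y 0
          exact congrFun (congrFun h3 i) j
        · rw [Sum.elim_inr, ← hy, ← rowsum_pol]
          refine Finset.sum_congr rfl fun j _ => ?_
          have h3 := gT_map A y c.succ
          have h4 : (![A, Polynomial.aeval A (pol (y 0)), Polynomial.aeval A (pol (y 1))] :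
              Fin 3 → Matrix n n k) c.succ = Polynomial.aeval A (pol (y c)) := by
            fin_cases c <;> rfl
          rw [h4] at h3
          exact congrFun (congrFun h3 i) j
      rw [h2] at h1
      have h3 : eval x F = 0 := h1.symm
      rw [h3, zero_mul]
  rcases mul_eq_zero.1 hmul with h | h
  · exact h
  · exfalso
    obtain ⟨A, hA⟩ := Kr_ne (k := k) (n := n)
    apply hA
    have h1 := congrArg (eval (Sum.elim (fun x => A x.1 x.2) fun _ => (0 : k)) :
      MvPolynomial (Jx n) k → k) h
    rw [map_zero, RingHom.map_det, RingHom.mapMatrix_apply, Kr_map] at h1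
    have h2 : gA'.map (eval (Sum.elim (fun x => A x.1 x.2) fun _ => (0 : k))) = A := by
      ext i j
      change eval _ (X (Sum.inl (i, j))) = A i j
      rw [eval_X]
      rfl
    rwa [h2] at h1

end gen

end PurStart

open PurStart in
/-- **the start of the purity theorem** -/
theorem pur_start {k : Type u} [Field k] [IsAlgClosed k] [CharZero k] {n : Type} [Fintype n]
    [DecidableEq n] {T : Fin 3 → Matrix n n k} (hT : PCl T) :
    ∃ (S : Type u) (_ : CommRing S) (_ : IsDomain S) (_ : Algebra k S)
      (_ : Algebra.FiniteType k S) (F : Fam T S) (L : List (Fin 3 → S)),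
      L.length ≤ Fintype.card n ∧ Spec F.A L 1 ∧
      ((Fintype.card n * Fintype.card n + 2 * Fintype.card n : ℕ) : WithBot ℕ∞) ≤
        ringKrullDim S := by
  let Ω : Type u := AlgebraicClosure (FractionRing (PP k n))
  let ι : PP k n →ₐ[k] Ω := (IsScalarTower.toAlgHom k (FractionRing (PP k n)) Ω).comp
    (IsScalarTower.toAlgHom k (PP k n) (FractionRing (PP k n)))
  have hι : Function.Injective ι :=
    (algebraMap (FractionRing (PP k n)) Ω).injective.comp
      (IsFractionRing.injective (PP k n) (FractionRing (PP k n)))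
  have hM : ∀ c, Polynomial.aeval ((gA k n).map (ι : PP k n →+* Ω))
      ((gr k n c).map (ι : PP k n →+* Ω)) = (gT k n c).map ι := fun c =>
    (aeval_map (ι : PP k n →+* Ω) (gA k n) (gr k n c)).symm
  obtain ⟨S, hS1, hS2, hS3, hS4, F, L, v, hL, hsp, hv, hF⟩ :=
    start_aux (T := T) ((gA k n).map (ι : PP k n →+* Ω))
      (fun c => (gr k n c).map (ι : PP k n →+* Ω)) (fun F hF => by
        refine pcl_ev hT (hι ?_)
        rw [map_zero, ← hF]
        rw [evA, evA, ← AlgHom.comp_apply, MvPolynomial.comp_aeval]
        congr 2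
        funext x
        exact (congrFun (congrFun (hM x.1) x.2.1) x.2.2).symm)
  refine ⟨S, hS1, hS2, hS3, hS4, F, L, hL, hsp, ?_⟩
  have hinj : Function.Injective (rs F.A : MvPolynomial (Jx n) k →ₐ[k] S) := by
    rw [injective_iff_map_eq_zero]
    intro G hG
    have h1 := rs_map v F.A G
    rw [hG, map_zero] at h1
    have h2 := rs_map ι (gT k n) G
    have h3 : (fun c => (F.A c).map v) = fun c => (gT k n c).map ι := by
      funext c
      rw [hF c, hM c]
    rw [h3, ← h2] at h1
    have h4 : rs (gT k n) G = 0 := hι (by rw [map_zero]; exact h1.symm)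
    exact (injective_iff_map_eq_zero _).1 rs_inj G h4
  have h5 := Pur.card_le_dim (rs F.A : MvPolynomial (Jx n) k →ₐ[k] S) hinj
  have h6 : Fintype.card (Jx n) = Fintype.card n * Fintype.card n + 2 * Fintype.card n := by
    rw [Fintype.card_sum, Fintype.card_prod, Fintype.card_prod, Fintype.card_fin]
  rwa [h6] at h5

end Pool.Agent.Lib.D13
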