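import Pool.Agent.Lib.D13.AutoExt
import Pool.Agent.Lib.D13.PurStart

/-!
# MP_5dcbc3_ag: the irreducible family of the pairs (triple `(A, p(A), q(A))`, three rows)
-/

namespace Pool.Agent.Lib.D13

open Matrix MvPolynomial Pool.Agent.Lib.Q5dc Pool.Agent.Lib.D7 Pur PurStart

universe u

namespace Auto

variable {k : Type u} [Field k] {n : Type} [Fintype n] [DecidableEq n]

/-- the generic triple and free rows -/
noncomputable def Th : MvPolynomial (Sg n) k →ₐ[k]
    MvPolynomial (Fin 3 × (n ⊕ Unit)) (PP k n) :=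
  aeval (Sum.elim (fun c => C (gT k n c.1 c.2.1 c.2.2)) fun c => X c)

/-- evaluation of the rows -/
noncomputable def spr (z : Sg n → k) : MvPolynomial (Sg n) k →ₐ[k]
    MvPolynomial (Fin 3 × n × n) k :=
  aeval (Sum.elim (fun c => X c) fun c => C (z (Sum.inr c)))

theorem eval_spr (z : Sg n → k) (F : MvPolynomial (Sg n) k) :
    eval (co (mT z)) (spr z F) = eval z F := by
  have h1 : ((aeval (co (mT z)) : MvPolynomial (Fin 3 × n × n) k →ₐ[k] k).comp (spr z)) =
      (aeval z : MvPolynomial (Sg n) k →ₐ[k] k) := by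
    apply MvPolynomial.algHom_ext
    rintro (⟨i, a, b⟩ | c)
    · rw [AlgHom.comp_apply, spr, aeval_X, aeval_X, Sum.elim_inl, aeval_X]
      rfl
    · rw [AlgHom.comp_apply, spr, aeval_X, aeval_X, Sum.elim_inr, aeval_C]
      rfl
  exact congrArg (fun f => f F) h1

theorem evA_spr (z : Sg n → k) (F : MvPolynomial (Sg n) k) :
    evA (gT k n) (spr z F) =
      aeval (fun c => algebraMap k (PP k n) (z (Sum.inr c))) (Th F) := by
  have h1 : ((evA (gT k n)).comp (spr z)) =
      ((aeval (fun c => algebraMap k (PP k n) (z (Sum.inr c))) :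
        MvPolynomial (Fin 3 × (n ⊕ Unit)) (PP k n) →ₐ[PP k n] PP k n).restrictScalars k).comp
        Th := by
    apply MvPolynomial.algHom_ext
    rintro (⟨i, a, b⟩ | c)
    · rw [AlgHom.comp_apply, AlgHom.comp_apply, spr, Th, aeval_X, aeval_X, Sum.elim_inl,
        Sum.elim_inl, evA, aeval_X, AlgHom.restrictScalars_apply, aeval_C]
      rfl
    · rw [AlgHom.comp_apply, AlgHom.comp_apply, spr, Th, aeval_X, aeval_X, Sum.elim_inr,
        Sum.elim_inr, evA, AlgHom.restrictScalars_apply, aeval_X, ← algebraMap_eq,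
        AlgHom.commutes]
  exact congrArg (fun f => f F) h1

theorem evA_zero [Infinite k] {F : MvPolynomial (Fin 3 × n × n) k}
    (hF : ∀ (A : Matrix n n k) (p q : Polynomial k),
      eval (co ![A, Polynomial.aeval A p, Polynomial.aeval A q]) F = 0) :
    evA (gT k n) F = 0 := by
  refine MvPolynomial.funext fun x => ?_
  have h1 := sp_ev (k := k) (n := n) (Matrix.of fun i j => x (Sum.inl (i, j)))
    (fun c l => x (Sum.inr (c, l))) F
  rw [hF] at h1
  rw [map_zero]
  have h2 : (fun y => Sum.elim (fun x_1 : n × n => (Matrix.of fun i j => x (Sum.inl (i, j)) :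
      Matrix n n k) x_1.1 x_1.2) (fun z : Fin 2 × Fin (Fintype.card n) => x (Sum.inr (z.1, z.2))) y)
      = x := by
    funext y
    rcases y with y | y <;> rfl
  rw [← h2]
  exact h1

/-- the independent elements -/
noncomputable def ind : MvPolynomial ((Fin 3 × (n ⊕ Unit)) ⊕ Jx n) k →ₐ[k]
    MvPolynomial (Sg n) k :=
  aeval (Sum.elim (fun c => X (Sum.inr c))
    (Sum.elim (fun c => X (Sum.inl (0, c.1, c.2))) fun c => ∑ j, X (Sum.inl (c.1.succ, c.2, j))))

theorem ind_inj [CharZero k] : Function.Injective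
    ((Th (k := k) (n := n)).comp (ind (k := k) (n := n))) := by
  have h1 : (Th (k := k) (n := n)).comp ind =
      (mapAlgHom (rs (gT k n) : MvPolynomial (Jx n) k →ₐ[k] PP k n)).comp
        (sumAlgEquiv k (Fin 3 × (n ⊕ Unit)) (Jx n)).toAlgHom := by
    apply MvPolynomial.algHom_ext
    rintro (c | c | c)
    · rw [AlgHom.comp_apply, AlgHom.comp_apply, ind, aeval_X, Sum.elim_inl, Th, aeval_X,
        Sum.elim_inr]
      simp
    · rw [AlgHom.comp_apply, AlgHom.comp_apply, ind, aeval_X, Sum.elim_inr, Sum.elim_inl, Th,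
        aeval_X, Sum.elim_inl]
      simp [rs]
    · rw [AlgHom.comp_apply, AlgHom.comp_apply, ind, aeval_X, Sum.elim_inr, Sum.elim_inr, Th,
        map_sum]
      simp [rs]
  rw [h1]
  exact (map_injective _ rs_inj).comp (sumAlgEquiv k (Fin 3 × (n ⊕ Unit)) (Jx n)).injective

/-- **the irreducible family** -/
theorem start [Infinite k] [CharZero k] :
    ∃ I : Ideal (MvPolynomial (Sg n) k), I.IsPrime ∧
      (∀ z : Sg n → k, PCl (mT z) → ∀ F ∈ I, eval z F = 0) ∧
      (∀ F : MvPolynomial (Fin 3 × n × n) k,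
        (∀ (A : Matrix n n k) (p q : Polynomial k),
          eval (co ![A, Polynomial.aeval A p, Polynomial.aeval A q]) F = 0) →
        rename (Sum.inl : Fin 3 × n × n → Sg n) F ∈ I) ∧
      ((Fintype.card n * Fintype.card n + 2 * Fintype.card n + 3 * (Fintype.card n + 1) : ℕ) :
        WithBot ℕ∞) ≤ ringKrullDim (MvPolynomial (Sg n) k ⧸ I) := by
  have hp : (RingHom.ker (Th (k := k) (n := n))).IsPrime := RingHom.ker_isPrime _
  refine ⟨RingHom.ker (Th (k := k) (n := n)), hp, ?_, ?_, ?_⟩
  · intro z hz F hF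
    rw [← eval_spr]
    refine pcl_ev hz ?_
    rw [evA_spr, RingHom.mem_ker.1 hF, map_zero]
  · intro F hF
    rw [RingHom.mem_ker]
    have h1 : ∀ G : MvPolynomial (Fin 3 × n × n) k,
        Th (rename (Sum.inl : Fin 3 × n × n → Sg n) G) = C (evA (gT k n) G) := by
      intro G
      have h2 : (Th (k := k) (n := n)).comp (rename Sum.inl) =
          ((Algebra.ofId (PP k n)
            (MvPolynomial (Fin 3 × (n ⊕ Unit)) (PP k n))).restrictScalars k).comp
            (evA (gT k n)) := by
        apply MvPolynomial.algHom_ext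
        intro c
        rw [AlgHom.comp_apply, AlgHom.comp_apply, rename_X, Th, aeval_X, Sum.elim_inl, evA,
          aeval_X]
        rfl
      exact congrArg (fun f => f G) h2
    rw [h1, evA_zero hF, map_zero]
  · have hd : IsDomain (MvPolynomial (Sg n) k ⧸ RingHom.ker (Th (k := k) (n := n))) :=
      Ideal.Quotient.isDomain _
    have h1 := card_le_dim ((Ideal.Quotient.mkₐ k (RingHom.ker (Th (k := k) (n := n)))).comp
      (ind (k := k) (n := n))) (by
      rw [injective_iff_map_eq_zero]
      intro F hF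
      rw [AlgHom.comp_apply, Ideal.Quotient.mkₐ_eq_mk, Ideal.Quotient.eq_zero_iff_mem,
        RingHom.mem_ker] at hF
      exact (injective_iff_map_eq_zero _).1 ind_inj F hF)
    have h2 : Fintype.card ((Fin 3 × (n ⊕ Unit)) ⊕ Jx n) =
        Fintype.card n * Fintype.card n + 2 * Fintype.card n + 3 * (Fintype.card n + 1) := by
      rw [Fintype.card_sum, Fintype.card_prod, Fintype.card_sum, Fintype.card_sum,
        Fintype.card_prod, Fintype.card_prod, Fintype.card_fin, Fintype.card_fin,
        Fintype.card_unit]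
      ring
    rwa [h2] at h1

end Auto

end Pool.Agent.Lib.D13
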