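import Pool.Agent.Lib.D13.PurCut

/-!
# MP_5dcbc3_ag: changing the index type in the purity theorem
-/

namespace Pool.Agent.Lib.D13

open Matrix MvPolynomial Pool.Agent.Lib.Q5dc Pool.Agent.Lib.D7 Pur

universe u

namespace Auto

section

variable {k : Type u} [Field k] {n : Type} [Fintype n] [DecidableEq n] {m : Type} [Fintype m]
  [DecidableEq m]

/-- matrices with all columns in the kernel of `M` -/
theorem finrank_ker_mul (M : Matrix n n k) :
    Module.finrank k (LinearMap.ker (LinearMap.mulLeft k M)) =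
      Fintype.card n * Module.finrank k (LinearMap.ker M.mulVecLin) := by
  let e : LinearMap.ker (LinearMap.mulLeft k M) ≃ₗ[k] (n → LinearMap.ker M.mulVecLin) :=
    { toFun := fun X j => ⟨fun i => X.1 i j, by
        have h1 : M * X.1 = 0 := X.2
        rw [LinearMap.mem_ker]
        funext i
        exact congrFun (congrFun h1 i) j⟩
      map_add' := fun _ _ => rfl
      map_smul' := fun _ _ => rfl
      invFun := fun Y => ⟨Matrix.of fun i j => (Y j).1 i, by
        rw [LinearMap.mem_ker]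
        ext i j
        have h1 : M *ᵥ (Y j).1 = 0 := (Y j).2
        exact congrFun h1 i⟩
      left_inv := fun _ => rfl
      right_inv := fun _ => rfl }
  rw [e.finrank_eq, Module.finrank_pi_fintype, Finset.sum_const, Finset.card_univ, smul_eq_mul]

/-- algebra isomorphisms preserve the rank -/
theorem rank_map (Φ : Matrix n n k ≃ₐ[k] Matrix m m k) (hc : Fintype.card n = Fintype.card m)
    (M : Matrix n n k) : (Φ M).rank = M.rank := by
  have h1 : Module.finrank k (LinearMap.ker (LinearMap.mulLeft k M)) =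
      Module.finrank k (LinearMap.ker (LinearMap.mulLeft k (Φ M))) := by
    have h2 : (LinearMap.ker (LinearMap.mulLeft k M)).map Φ.toLinearEquiv.toLinearMap =
        LinearMap.ker (LinearMap.mulLeft k (Φ M)) := by
      ext Y
      constructor
      · rintro ⟨X, hX, rfl⟩
        have hX' : M * X = 0 := hX
        show Φ M * Φ X = 0
        rw [← map_mul, hX', map_zero]
      · intro hY
        have hY' : Φ M * Y = 0 := hY
        refine ⟨Φ.symm Y, ?_, Φ.apply_symm_apply Y⟩
        show M * Φ.symm Y = 0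
        apply Φ.injective
        rw [map_mul, Φ.apply_symm_apply, hY', map_zero]
    rw [← h2]
    exact (LinearEquiv.finrank_map_eq Φ.toLinearEquiv _).symm
  rw [finrank_ker_mul, finrank_ker_mul, ← hc] at h1
  rcases Nat.eq_zero_or_pos (Fintype.card n) with h0 | h0
  · have h2 := (Φ M).rank_le_card_width
    have h3 := M.rank_le_card_width
    omega
  · have h2 := Nat.eq_of_mul_eq_mul_left h0 h1
    have h3 := LinearMap.finrank_range_add_finrank_ker M.mulVecLin
    have h4 := LinearMap.finrank_range_add_finrank_ker (Φ M).mulVecLin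
    rw [Module.finrank_fintype_fun_eq_card] at h3 h4
    have h5 : M.rank = Module.finrank k (LinearMap.range M.mulVecLin) := rfl
    have h6 : (Φ M).rank = Module.finrank k (LinearMap.range (Φ M).mulVecLin) := rfl
    omega

theorem cn_map (Φ : Matrix n n k ≃ₐ[k] Matrix m m k) {T : Fin 3 → Matrix n n k} (hT : CN T) :
    CN fun i => Φ (T i) := by
  refine ⟨fun i j => ?_, fun i => (hT.2 i).map Φ⟩
  show Φ (T i) * Φ (T j) = Φ (T j) * Φ (T i)
  rw [← map_mul, hT.1 i j, map_mul]

theorem maxR_map (Φ : Matrix n n k ≃ₐ[k] Matrix m m k) (hc : Fintype.card n = Fintype.card m)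
    {ρ : ℕ → ℕ} {T : Fin 3 → Matrix n n k} (hT : MaxR ρ T) : MaxR ρ fun i => Φ (T i) := by
  refine ⟨cn_map Φ hT.cn, fun h => hT.ncl ?_, ?_, ?_⟩
  · have h1 := h.mapEquiv Φ.symm hc.symm
    simpa using h1
  · obtain ⟨A, hA, hr⟩ := hT.att
    refine ⟨Φ A, mem_adj_map ((Φ : Matrix n n k →ₐ[k] Matrix m m k) :
      Matrix n n k →ₙₐ[k] Matrix m m k) hA, fun i => ?_⟩
    rw [← map_pow, rank_map Φ hc, hr]
  · intro T' hT' hncl M hM
    have h1 : ¬ Cl fun i => Φ.symm (T' i) := by
      intro h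
      apply hncl
      have h2 := h.mapEquiv Φ hc
      simpa using h2
    have h2 := hT.max (fun i => Φ.symm (T' i)) (cn_map Φ.symm hT') h1 (Φ.symm M)
      (mem_adj_map ((Φ.symm : Matrix m m k →ₐ[k] Matrix n n k) :
        Matrix m m k →ₙₐ[k] Matrix n n k) hM)
    rw [← hc]
    refine le_trans (le_of_eq ?_) h2
    rw [rks, rks, hc]
    refine Finset.sum_congr rfl fun i _ => ?_
    rw [← map_pow, rank_map Φ.symm hc.symm]

/-- the change of variables belonging to an isomorphism -/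
noncomputable def chg (Φ : Matrix n n k ≃ₐ[k] Matrix m m k) :
    MvPolynomial (Fin 3 × m × m) k →ₐ[k] MvPolynomial (Fin 3 × n × n) k :=
  aeval fun s => ∑ t : n × n,
    C (Φ (Matrix.single t.1 t.2 1) s.2.1 s.2.2) * X (s.1, t.1, t.2)

theorem eval_chg (Φ : Matrix n n k ≃ₐ[k] Matrix m m k) (T : Fin 3 → Matrix n n k)
    (F : MvPolynomial (Fin 3 × m × m) k) :
    eval (co T) (chg Φ F) = eval (co fun i => Φ (T i)) F := by
  have h1 : ((aeval (co T) : MvPolynomial (Fin 3 × n × n) k →ₐ[k] k).comp (chg Φ)) =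
      (aeval (co fun i => Φ (T i)) : MvPolynomial (Fin 3 × m × m) k →ₐ[k] k) := by
    apply MvPolynomial.algHom_ext
    rintro ⟨i, a, b⟩
    rw [AlgHom.comp_apply, chg, aeval_X, aeval_X, map_sum]
    simp only [map_mul, aeval_X, aeval_C]
    show _ = Φ (T i) a b
    have h2 : T i = ∑ t : n × n, T i t.1 t.2 • (Matrix.single t.1 t.2 (1 : k) : Matrix n n k) := by
      rw [← Finset.univ_product_univ, Finset.sum_product]
      conv_lhs => rw [Matrix.matrix_eq_sum_single (T i)]
      refine Finset.sum_congr rfl fun c _ => Finset.sum_congr rfl fun d _ => ?_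
      rw [Matrix.smul_single, smul_eq_mul, mul_one]
    conv_rhs => rw [h2]
    rw [map_sum, Matrix.sum_apply]
    refine Finset.sum_congr rfl fun t _ => ?_
    rw [map_smul, Matrix.smul_apply, smul_eq_mul, mul_comm]
    rfl
  exact congrArg (fun φ => φ F) h1

theorem chg_chg [Infinite k] (Φ : Matrix n n k ≃ₐ[k] Matrix m m k)
    (F : MvPolynomial (Fin 3 × n × n) k) : chg Φ (chg Φ.symm F) = F := by
  refine MvPolynomial.funext fun x => ?_
  rw [← co_tr x, eval_chg, eval_chg]
  simp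

theorem chg_chg' [Infinite k] (Φ : Matrix n n k ≃ₐ[k] Matrix m m k)
    (F : MvPolynomial (Fin 3 × m × m) k) : chg Φ.symm (chg Φ F) = F := by
  refine MvPolynomial.funext fun x => ?_
  rw [← co_tr x, eval_chg, eval_chg]
  simp

/-- the conclusion of the purity theorem -/
def Concl (ρ : ℕ → ℕ) (T : Fin 3 → Matrix n n k) (N : ℕ) : Prop :=
  ∀ g : MvPolynomial (Fin 3 × n × n) k, eval (co T) g ≠ 0 →
    ∃ q : Ideal (MvPolynomial (Fin 3 × n × n) k), q.IsPrime ∧ (∀ F ∈ q, eval (co T) F = 0) ∧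
      (∀ T' : Fin 3 → Matrix n n k, (∀ F ∈ q, eval (co T') F = 0) → CN T' ∧ T' 0 = T 0) ∧
      (∀ F : MvPolynomial (Fin 3 × n × n) k,
        (∀ T' : Fin 3 → Matrix n n k, MaxR ρ T' → T' 0 = T 0 → eval (co T') g ≠ 0 →
          eval (co T') F = 0) → F ∈ q) ∧
      (N : WithBot ℕ∞) ≤ ringKrullDim (MvPolynomial (Fin 3 × n × n) k ⧸ q)

/-- the conclusion does not depend on the basis -/
theorem Concl.transport [Infinite k] (Φ : Matrix n n k ≃ₐ[k] Matrix m m k)
    (hc : Fintype.card n = Fintype.card m) {ρ : ℕ → ℕ} {T : Fin 3 → Matrix n n k} {N : ℕ}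
    (h : Concl ρ (fun i => Φ (T i)) N) : Concl ρ T N := by
  intro g hg
  obtain ⟨q', hq', hqT, hqC, hqF, hqd⟩ := h (chg Φ.symm g) (by
    rw [eval_chg]
    simpa using hg)
  let E : MvPolynomial (Fin 3 × n × n) k ≃ₐ[k] MvPolynomial (Fin 3 × m × m) k :=
    AlgEquiv.ofAlgHom (chg Φ.symm) (chg Φ) (AlgHom.ext fun F => chg_chg' Φ F)
      (AlgHom.ext fun F => chg_chg Φ F)
  have hE : ∀ F, E F = chg Φ.symm F := fun _ => rfl
  let q : Ideal (MvPolynomial (Fin 3 × n × n) k) := q'.comap (chg Φ.symm)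
  have hmem : ∀ F, F ∈ q ↔ chg Φ.symm F ∈ q' := fun F => Iff.rfl
  refine ⟨q, inferInstanceAs (q'.comap (chg Φ.symm)).IsPrime, ?_, ?_, ?_, ?_⟩
  · intro F hF
    have h1 := hqT _ ((hmem F).1 hF)
    rw [eval_chg] at h1
    simpa using h1
  · intro T' hT'
    have h1 := hqC (fun i => Φ (T' i)) fun G hG => by
      have h2 : chg Φ G ∈ q := by
        rw [hmem, chg_chg']
        exact hG
      have h3 := hT' _ h2
      rwa [eval_chg] at h3
    refine ⟨?_, Φ.injective h1.2⟩
    have h2 := cn_map Φ.symm h1.1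
    simpa using h2
  · intro F hF
    rw [hmem]
    refine hqF _ fun T' hT' h0 hg' => ?_
    rw [eval_chg] at hg' ⊢
    refine hF _ (maxR_map Φ.symm hc.symm hT') ?_ hg'
    show Φ.symm (T' 0) = T 0
    rw [h0, Φ.symm_apply_apply]
  · refine hqd.trans (le_of_eq ?_)
    have hmap : q' = q.map (E.toRingEquiv : MvPolynomial (Fin 3 × n × n) k →+*
        MvPolynomial (Fin 3 × m × m) k) := by
      apply le_antisymm
      · intro G hG
        have h1 : E (chg Φ G) = G := chg_chg' Φ G
        rw [← h1]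
        refine Ideal.mem_map_of_mem _ ?_
        rw [hmem, chg_chg']
        exact hG
      · rw [Ideal.map_le_iff_le_comap]
        intro F hF
        exact hF
    exact ringKrullDim_eq_of_ringEquiv (Ideal.quotientEquiv q q' E.toRingEquiv hmap).symm

/-- a common kernel vector -/
theorem exists_ker [Nonempty n] {T : Fin 3 → Matrix n n k} (hT : CN T) :
    ∃ e : n → k, e ≠ 0 ∧ ∀ i, T i *ᵥ e = 0 := by
  classical
  have key : ∀ (P A : Matrix n n k), P ≠ 0 → IsNilpotent A → ∃ a : ℕ, P * A ^ a ≠ 0 ∧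
      P * A ^ (a + 1) = 0 := by
    intro P A hP hA
    obtain ⟨e, he⟩ := hA
    have h1 : ∃ a, P * A ^ a = 0 := ⟨e, by rw [he, mul_zero]⟩
    have h2 := Nat.find_spec h1
    have h3 : Nat.find h1 ≠ 0 := by
      intro h0
      rw [h0, pow_zero, mul_one] at h2
      exact hP h2
    refine ⟨Nat.find h1 - 1, Nat.find_min h1 (by omega), ?_⟩
    rw [Nat.sub_add_cancel (by omega)]
    exact h2
  obtain ⟨a, ha1, ha2⟩ := key 1 (T 0) one_ne_zero (hT.2 0)
  obtain ⟨b, hb1, hb2⟩ := key _ (T 1) ha1 (hT.2 1)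
  obtain ⟨c, hc1, hc2⟩ := key _ (T 2) hb1 (hT.2 2)
  have c01 : Commute (T 0) (T 1) := hT.1 0 1
  have c02 : Commute (T 0) (T 2) := hT.1 0 2
  have c12 : Commute (T 1) (T 2) := hT.1 1 2
  set M := 1 * T 0 ^ a * T 1 ^ b * T 2 ^ c with hM
  have m0 : T 0 * M = 0 := by
    have h1 : T 0 * M = 1 * T 0 ^ (a + 1) * T 1 ^ b * T 2 ^ c := by
      rw [hM, one_mul, one_mul, pow_succ']
      simp only [mul_assoc]
    rw [h1, ha2, zero_mul, zero_mul]
  have m1 : T 1 * M = 0 := by
    have h1 : T 1 * M = 1 * T 0 ^ a * T 1 ^ (b + 1) * T 2 ^ c := by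
      rw [hM, one_mul, pow_succ', ← mul_assoc, ← mul_assoc, ← mul_assoc,
        (c01.symm.pow_right a).eq]
    rw [h1, hb2, zero_mul]
  have m2 : T 2 * M = 0 := by
    have h1 : T 2 * M = 1 * T 0 ^ a * T 1 ^ b * T 2 ^ (c + 1) := by
      rw [hM, one_mul, pow_succ', ← mul_assoc, ← mul_assoc, ← mul_assoc,
        (c02.symm.pow_right a).eq, mul_assoc (T 0 ^ a) (T 2) (T 1 ^ b),
        (c12.symm.pow_right b).eq, ← mul_assoc]
    rw [h1, hc2]
  obtain ⟨x, y, hxy⟩ : ∃ x y, M x y ≠ 0 := by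
    by_contra h
    push Not at h
    exact hc1 (Matrix.ext h)
  refine ⟨fun i => M i y, fun h => hxy (congrFun h x), fun i => ?_⟩
  have h1 : T i * M = 0 := by
    fin_cases i
    · exact m0
    · exact m1
    · exact m2
  funext z
  exact congrFun (congrFun h1 z) y

/-- the common kernel vector as the last basis vector -/
theorem exists_flag {T : Fin 3 → Matrix n n k} (hT : CN T) {d : ℕ}
    (hd : Fintype.card n = d + 1) :
    ∃ Φ : Matrix n n k ≃ₐ[k] Matrix (Fin d ⊕ Unit) (Fin d ⊕ Unit) k,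
      ∀ i, Φ (T i) *ᵥ Pi.single (Sum.inr ()) 1 = 0 := by
  classical
  have hne : Nonempty n := Fintype.card_pos_iff.1 (by omega)
  obtain ⟨e, he, hTe⟩ := exists_ker hT
  obtain ⟨Q, hQ⟩ := Submodule.exists_isCompl (k ∙ e)
  have hf : Module.finrank k Q = d := by
    have h1 := Submodule.finrank_add_eq_of_isCompl hQ
    rw [finrank_span_singleton he, Module.finrank_fintype_fun_eq_card, hd] at h1
    omega
  let bP : Module.Basis Unit k (k ∙ e) :=
    (Module.Basis.singleton Unit k).map (LinearEquiv.toSpanNonzeroSingleton k (n → k) e he)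
  let bQ : Module.Basis (Fin d) k Q := (Module.finBasis k Q).reindex (finCongr hf)
  let b : Module.Basis (Fin d ⊕ Unit) k (n → k) :=
    (bQ.prod bP).map (Q.prodEquivOfIsCompl (k ∙ e) hQ.symm)
  have hb : b (Sum.inr ()) = e := by
    simp [b, bP]
  let Φ : Matrix n n k ≃ₐ[k] Matrix (Fin d ⊕ Unit) (Fin d ⊕ Unit) k :=
    (Matrix.toLinAlgEquiv' : Matrix n n k ≃ₐ[k] ((n → k) →ₗ[k] (n → k))).trans
      (LinearMap.toMatrixAlgEquiv b)
  have hΦ : ∀ M x y, Φ M x y = b.repr (M *ᵥ b y) x := by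
    intro M x y
    show LinearMap.toMatrixAlgEquiv b (Matrix.toLinAlgEquiv' M) x y = _
    rw [LinearMap.toMatrixAlgEquiv_apply]
    rfl
  refine ⟨Φ, fun i => ?_⟩
  funext x
  rw [Matrix.mulVec_single_one]
  show Φ (T i) x (Sum.inr ()) = 0
  rw [hΦ, hb, hTe, map_zero]
  rfl

end

end Auto

end Pool.Agent.Lib.D13
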