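import Pool.Agent.Lib.D13.GenRk
import Pool.Agent.Lib.D7.Api

/-!
# Transfer of maximal bad triples to a generic point (MP_5dcbc3_ag)

Let `K` be an algebraically closed extension of the algebraically closed field `k`. A commuting
nilpotent triple `T'` over `K` which specialises to a maximal bad triple `T` over `k` is maximal bad
with the same ranks.
-/

namespace Pool.Agent.Lib.D13

open Matrix MvPolynomial Pool.Agent.Lib.Q5dc Pool.Agent.Lib.D7

universe u v w x

variable {k : Type u} {K : Type v} [Field k] [Field K] [Algebra k K]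
  {n : Type w} [Fintype n] [DecidableEq n]

/-- `T'` specialises to `T` -/
def Spz (T' : Fin 3 → Matrix n n K) (T : Fin 3 → Matrix n n k) : Prop :=
  ∀ F : MvPolynomial (Fin 3 × n × n) k, aeval (co T') F = 0 → eval (co T) F = 0

namespace GenAux

/-- a point of a finitely generated subalgebra where a given element does not vanish -/
theorem exists_hom [IsAlgClosed k] (S : Subalgebra k K) (hS : S.FG) (g : S) (h0 : g ≠ 0) :
    ∃ θ : S →ₐ[k] k, θ g ≠ 0 := by
  obtain ⟨s, rfl⟩ := hS
  let φ : MvPolynomial s k →ₐ[k] K := aeval ((↑) : s → K)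
  have hr : φ.range = Algebra.adjoin k (s : Set K) := by
    have h1 := Algebra.adjoin_range_eq_range_aeval k ((↑) : s → K)
    rw [← h1]
    congr 1
    ext x
    simp
  have hφ : ∀ x, φ x ∈ Algebra.adjoin k (s : Set K) := fun x => by
    rw [← hr]
    exact ⟨x, rfl⟩
  let f : MvPolynomial s k →ₐ[k] Algebra.adjoin k (s : Set K) := φ.codRestrict _ hφ
  have hf : Function.Surjective f := by
    rintro ⟨x, hx⟩
    rw [← hr] at hx
    obtain ⟨y, hy⟩ := hx
    exact ⟨y, Subtype.ext hy⟩
  have hP : (RingHom.ker f.toRingHom).IsPrime := RingHom.ker_isPrime _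
  obtain ⟨G, hG⟩ := hf g
  have hGP : G ∉ RingHom.ker f.toRingHom := by
    intro h
    exact h0 (hG.symm.trans h)
  rw [← IsPrime.vanishingIdeal_zeroLocus (K := k) (RingHom.ker f.toRingHom),
    mem_vanishingIdeal_iff] at hGP
  push Not at hGP
  obtain ⟨y, hy, hGy⟩ := hGP
  have hk : RingHom.ker f.toRingHom ≤ RingHom.ker (aeval y : MvPolynomial s k →ₐ[k] k).toRingHom := by
    intro p hp
    exact hy p hp
  refine ⟨AlgHom.liftOfSurjective f hf (aeval y) hk, ?_⟩
  rw [← hG, AlgHom.liftOfSurjective_apply]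
  exact hGy

/-- ranks do not drop when a suitable element is not mapped to zero -/
theorem exists_rank {S L : Type*} [CommRing S] [Field L] (A : Matrix n n S) (v : S →+* L) :
    ∃ h : S, v h ≠ 0 ∧ ∀ {L' : Type u} [Field L'] (θ : S →+* L'), θ h ≠ 0 →
      (v.mapMatrix A).rank ≤ (θ.mapMatrix A).rank := by
  obtain ⟨f, g, hfg⟩ := PolyAux.exists_minor (v.mapMatrix A)
  refine ⟨(A.submatrix f g).det, ?_, fun {L'} _ θ hθ => ?_⟩
  · rw [RingHom.map_det]
    exact hfg
  · rw [RingHom.map_det] at hθ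
    exact le_rank_of_minor _ f g hθ

/-- the same for the first powers -/
theorem exists_ranks {S L : Type*} [CommRing S] [IsDomain S] [Field L] (A : Matrix n n S)
    (v : S →+* L) (N : ℕ) :
    ∃ h : S, v h ≠ 0 ∧ ∀ {L' : Type u} [Field L'] (θ : S →+* L'), θ h ≠ 0 →
      ∀ i < N, ((v.mapMatrix A) ^ i).rank ≤ ((θ.mapMatrix A) ^ i).rank := by
  choose h h1 h2 using fun i : ℕ => exists_rank (A ^ i) v
  refine ⟨∏ i ∈ Finset.range N, h i, ?_, fun {L'} _ θ hθ i hi => ?_⟩
  · rw [map_prod]
    exact Finset.prod_ne_zero_iff.2 fun i _ => h1 i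
  · rw [map_prod] at hθ
    have h3 := h2 i θ (Finset.prod_ne_zero_iff.1 hθ i (Finset.mem_range.2 hi))
    rwa [map_pow, map_pow] at h3

/-- lifting of an element of `adj T` to a ring of coefficients -/
theorem adj_lift {L : Type v} [Field L] {T : Fin 3 → Matrix n n L} {A : Matrix n n L}
    (hA : A ∈ adj T) :
    ∃ C : Set L, C.Finite ∧ ∀ {R : Type x} [CommRing R] (v : R →+* L)
      (U : Fin 3 → Matrix n n R), (∀ i, v.mapMatrix (U i) = T i) → C ⊆ Set.range v →
      ∃ B : Matrix n n R, v.mapMatrix B = A ∧ ∀ {L' : Type u} [Field L'] (θ : R →+* L'),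
        θ.mapMatrix B ∈ adj fun i => θ.mapMatrix (U i) := by
  refine adj_induction (T := T) (p := fun A => ∃ C : Set L, C.Finite ∧
    ∀ {R : Type x} [CommRing R] (v : R →+* L)
      (U : Fin 3 → Matrix n n R), (∀ i, v.mapMatrix (U i) = T i) → C ⊆ Set.range v →
      ∃ B : Matrix n n R, v.mapMatrix B = A ∧ ∀ {L' : Type u} [Field L'] (θ : R →+* L'),
        θ.mapMatrix B ∈ adj fun i => θ.mapMatrix (U i)) ?_ ?_ ?_ ?_ ?_ hA
  · intro i
    refine ⟨∅, Set.finite_empty, fun {R} _ v U hU _ => ⟨U i, hU i, fun {L'} _ θ => ?_⟩⟩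
    exact mem_adj (fun i => θ.mapMatrix (U i)) i
  · refine ⟨∅, Set.finite_empty, fun {R} _ v U hU _ => ⟨0, map_zero _, fun {L'} _ θ => ?_⟩⟩
    rw [map_zero]
    exact zero_mem _
  · rintro x - y - ⟨C, hC, hx⟩ ⟨D, hD, hy⟩
    refine ⟨C ∪ D, hC.union hD, fun {R} _ v U hU hv => ?_⟩
    obtain ⟨B, hB, hB'⟩ := hx v U hU (Set.subset_union_left.trans hv)
    obtain ⟨B₁, hB₁, hB₁'⟩ := hy v U hU (Set.subset_union_right.trans hv)
    refine ⟨B + B₁, by rw [map_add, hB, hB₁], fun {L'} _ θ => ?_⟩
    rw [map_add]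
    exact add_mem (hB' θ) (hB₁' θ)
  · rintro x - y - ⟨C, hC, hx⟩ ⟨D, hD, hy⟩
    refine ⟨C ∪ D, hC.union hD, fun {R} _ v U hU hv => ?_⟩
    obtain ⟨B, hB, hB'⟩ := hx v U hU (Set.subset_union_left.trans hv)
    obtain ⟨B₁, hB₁, hB₁'⟩ := hy v U hU (Set.subset_union_right.trans hv)
    refine ⟨B * B₁, by rw [map_mul, hB, hB₁], fun {L'} _ θ => ?_⟩
    rw [map_mul]
    exact mul_mem (hB' θ) (hB₁' θ)
  · rintro r x - ⟨C, hC, hx⟩
    refine ⟨insert r C, hC.insert r, fun {R} _ v U hU hv => ?_⟩
    obtain ⟨B, hB, hB'⟩ := hx v U hU ((Set.subset_insert r C).trans hv)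
    obtain ⟨s, hs⟩ := hv (Set.mem_insert r C)
    refine ⟨s • B, ?_, fun {L'} _ θ => ?_⟩
    · ext i j
      have h1 := congrArg (fun M => M i j) hB
      simp only [RingHom.mapMatrix_apply, Matrix.map_apply, Matrix.smul_apply, smul_eq_mul,
        map_mul] at h1 ⊢
      rw [h1, hs]
    · have h2 : θ.mapMatrix (s • B) = θ s • θ.mapMatrix B := by
        ext i j
        simp only [RingHom.mapMatrix_apply, Matrix.map_apply, Matrix.smul_apply, smul_eq_mul,
          map_mul]
      rw [h2]
      exact SMulMemClass.smul_mem _ (hB' θ)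

section

variable {S L : Type*} [CommRing S] [CommRing L]

theorem map_aevalM (v : S →+* L) (N : Matrix n n S) (q : Polynomial S) :
    v.mapMatrix (Polynomial.aeval N q) = Polynomial.aeval (v.mapMatrix N) (q.map v) := by
  refine Polynomial.map_aeval_eq_aeval_map (ψ := v.mapMatrix) (φ := v) ?_ q N
  refine RingHom.ext fun s => ?_
  ext i j
  simp only [RingHom.coe_comp, Function.comp_apply, Matrix.algebraMap_matrix_apply,
    RingHom.mapMatrix_apply, Matrix.map_apply]
  by_cases h : i = j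
  · rw [if_pos h, if_pos h]
    rfl
  · rw [if_neg h, if_neg h, map_zero]

theorem map_aevalF [Algebra k S] [Algebra k L] (v : S →ₐ[k] L) (U : Fin 3 → Matrix n n S)
    (F : MvPolynomial (Fin 3 × n × n) k) :
    v (aeval (fun z : Fin 3 × n × n => U z.1 z.2.1 z.2.2) F) =
      aeval (fun z : Fin 3 × n × n => (v : S →+* L).mapMatrix (U z.1) z.2.1 z.2.2) F := by
  rw [MvPolynomial.comp_aeval_apply]
  rfl

end

/-- polynomials over `k` vanishing on the curvilinear triples over `k` vanish on those over `K` -/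
theorem vanish_K [IsAlgClosed k] (F : MvPolynomial (Fin 3 × n × n) k)
    (hF : ∀ T : Fin 3 → Matrix n n k, Curv T → eval (co T) F = 0)
    (T₁ : Fin 3 → Matrix n n K) (hT : Curv T₁) : aeval (co T₁) F = 0 := by
  classical
  by_contra hne
  obtain ⟨N, hN1, hN2, hp⟩ := hT
  choose p hp0 hp1 using hp
  obtain ⟨a, b, hab⟩ : ∃ a b, (N ^ (Fintype.card n - 1)) a b ≠ 0 := by
    by_contra hc
    push Not at hc
    exact hN2 (Matrix.ext hc)
  let C : Set K := (Set.range fun z : n × n => N z.1 z.2) ∪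
    ⋃ i : Fin 3, ((p i).coeffs : Set K)
  have hC : C.Finite := (Set.finite_range _).union
    (Set.finite_iUnion fun i => Finset.finite_toSet _)
  let S : Subalgebra k K := Algebra.adjoin k C
  have hS : S.FG := ⟨hC.toFinset, by rw [hC.coe_toFinset]⟩
  let v : S →ₐ[k] K := S.val
  have hv : Function.Injective v := Subtype.val_injective
  have hvM : Function.Injective ((v : S →+* K).mapMatrix : Matrix n n S →+* Matrix n n K) := by
    intro A B hAB
    ext i j
    exact congrArg (fun M => M i j) hAB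
  let NS : Matrix n n S := Matrix.of fun i j =>
    ⟨N i j, Algebra.subset_adjoin (Or.inl ⟨(i, j), rfl⟩)⟩
  have hNS : (v : S →+* K).mapMatrix NS = N := by
    ext i j
    rfl
  have hl : ∀ i, ∃ q : Polynomial S, q.map (v : S →+* K) = p i := by
    intro i
    have h1 : p i ∈ Polynomial.lifts (v : S →+* K) := by
      rw [Polynomial.lifts_iff_coeff_lifts]
      intro j
      by_cases hj : (p i).coeff j = 0
      · rw [hj]
        exact ⟨0, map_zero _⟩
      · exact ⟨⟨(p i).coeff j, Algebra.subset_adjoin (Or.inr (Set.mem_iUnion.2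
          ⟨i, Polynomial.coeff_mem_coeffs hj⟩))⟩, rfl⟩
    exact (Polynomial.mem_lifts _).1 h1
  choose q hq using hl
  let U : Fin 3 → Matrix n n S := fun i => Polynomial.aeval NS (q i)
  have hU : ∀ i, (v : S →+* K).mapMatrix (U i) = T₁ i := by
    intro i
    rw [map_aevalM, hNS, hq, hp1]
  let g : S := (NS ^ (Fintype.card n - 1)) a b *
    aeval (fun z : Fin 3 × n × n => U z.1 z.2.1 z.2.2) F
  have hg : g ≠ 0 := by
    intro h0
    have h1 : v g = 0 := by rw [h0, map_zero]
    rw [map_mul, map_aevalF] at h1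
    have h2 : v ((NS ^ (Fintype.card n - 1)) a b) = (N ^ (Fintype.card n - 1)) a b := by
      have h3 : (v : S →+* K).mapMatrix (NS ^ (Fintype.card n - 1)) =
          N ^ (Fintype.card n - 1) := by rw [map_pow, hNS]
      exact congrArg (fun M => M a b) h3
    have h4 : (fun z : Fin 3 × n × n => (v : S →+* K).mapMatrix (U z.1) z.2.1 z.2.2) =
        co T₁ := by
      funext z
      rw [hU]
      rfl
    rw [h2, h4] at h1
    exact (mul_ne_zero hab hne) h1
  obtain ⟨θ, hθ⟩ := exists_hom S hS g hg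
  rw [map_mul, map_aevalF] at hθ
  refine right_ne_zero_of_mul hθ (hF (fun i => (θ : S →+* k).mapMatrix (U i)) ?_)
  have hz : NS ^ Fintype.card n = 0 := by
    apply hvM
    rw [map_pow, hNS, hN1, map_zero]
  refine ⟨(θ : S →+* k).mapMatrix NS, ?_, ?_, fun i => ⟨(q i).map (θ : S →+* k), ?_, ?_⟩⟩
  · rw [← map_pow, hz, map_zero]
  · rw [← map_pow]
    intro h0
    exact left_ne_zero_of_mul hθ (congrArg (fun M => M a b) h0)
  · rw [Polynomial.coeff_map]
    have h5 : (q i).coeff 0 = 0 := by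
      apply hv
      have h6 := congrArg (fun r => r.coeff 0) (hq i)
      simp only [Polynomial.coeff_map, hp0] at h6
      rw [map_zero]
      exact h6
    rw [h5, map_zero]
  · exact map_aevalM _ _ _

/-- the closure over `K` is defined over `k` -/
theorem cl_of_k (T₁ : Fin 3 → Matrix n n K)
    (h : ∀ F : MvPolynomial (Fin 3 × n × n) k,
      (∀ T : Fin 3 → Matrix n n k, Curv T → eval (co T) F = 0) → aeval (co T₁) F = 0) :
    Cl T₁ := by
  classical
  intro F hF
  let b := Module.Basis.ofVectorSpace k K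
  let G : _ → MvPolynomial (Fin 3 × n × n) k := fun j =>
    ∑ m ∈ F.support, monomial m (b.repr (F.coeff m) j)
  have hG : ∀ j, aeval (co T₁) (G j) = 0 := by
    intro j
    refine h (G j) fun T hT => ?_
    -- the triple over `K`
    have hT' : Curv fun i => (algebraMap k K).mapMatrix (T i) := by
      obtain ⟨N, hN1, hN2, hp⟩ := hT
      refine ⟨(algebraMap k K).mapMatrix N, ?_, ?_, fun i => ?_⟩
      · rw [← map_pow, hN1, map_zero]
      · rw [← map_pow]
        intro h0
        apply hN2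
        ext i j
        apply (algebraMap k K).injective
        have := congrArg (fun M => M i j) h0
        rw [Matrix.zero_apply, map_zero]
        exact this
      · obtain ⟨p, hp0, hp1⟩ := hp i
        refine ⟨p.map (algebraMap k K), ?_, ?_⟩
        · rw [Polynomial.coeff_map, hp0, map_zero]
        · change (algebraMap k K).mapMatrix (T i) = _
          rw [hp1, map_aevalM]
    have h1 := hF _ hT'
    rw [MvPolynomial.eval_eq] at h1
    have h2 : (∑ m ∈ F.support, F.coeff m *
        algebraMap k K (∏ i ∈ m.support, co T i ^ m i)) = 0 := by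
      rw [← h1]
      refine Finset.sum_congr rfl fun m _ => ?_
      rw [map_prod]
      congr 1
      refine Finset.prod_congr rfl fun i _ => ?_
      rw [map_pow]
      rfl
    have h3 := congrArg (fun x => b.repr x j) h2
    simp only [map_sum, map_zero, Finsupp.coe_zero, Pi.zero_apply, Finsupp.coe_finsetSum,
      Finset.sum_apply] at h3
    simp only [G, map_sum]
    rw [← h3]
    refine Finset.sum_congr rfl fun m _ => ?_
    rw [MvPolynomial.eval_monomial, mul_comm (F.coeff m), ← Algebra.smul_def, map_smul,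
      Finsupp.smul_apply, smul_eq_mul, mul_comm]
    rfl
  rw [MvPolynomial.eval_eq]
  let J := F.support.biUnion fun m => (b.repr (F.coeff m)).support
  have h4 : ∀ m ∈ F.support, F.coeff m = ∑ j ∈ J, b.repr (F.coeff m) j • b j := by
    intro m hm
    have h5 := b.linearCombination_repr (F.coeff m)
    rw [Finsupp.linearCombination_apply, Finsupp.sum] at h5
    conv_lhs => rw [← h5]
    refine Finset.sum_subset (fun j hj => Finset.mem_biUnion.2 ⟨m, hm, hj⟩) fun j _ hj => ?_
    rw [Finsupp.notMem_support_iff.1 hj, zero_smul]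
  have h6 : ∀ j, aeval (co T₁) (G j) = ∑ m ∈ F.support,
      algebraMap k K (b.repr (F.coeff m) j) * ∏ i ∈ m.support, co T₁ i ^ m i := by
    intro j
    simp only [G, map_sum]
    refine Finset.sum_congr rfl fun m _ => ?_
    rw [MvPolynomial.aeval_monomial]
    rfl
  calc ∑ m ∈ F.support, F.coeff m * ∏ i ∈ m.support, co T₁ i ^ m i
      = ∑ m ∈ F.support, ∑ j ∈ J, b j * (algebraMap k K (b.repr (F.coeff m) j) *
          ∏ i ∈ m.support, co T₁ i ^ m i) := by
        refine Finset.sum_congr rfl fun m hm => ?_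
        conv_lhs => rw [h4 m hm]
        rw [Finset.sum_mul]
        refine Finset.sum_congr rfl fun j _ => ?_
        rw [Algebra.smul_def]
        ring
    _ = ∑ j ∈ J, b j * aeval (co T₁) (G j) := by
        rw [Finset.sum_comm]
        refine Finset.sum_congr rfl fun j _ => ?_
        rw [h6, Finset.mul_sum]
    _ = 0 := Finset.sum_eq_zero fun j _ => by rw [hG, mul_zero]

end GenAux

open GenAux

theorem exists_F {T : Fin 3 → Matrix n n k} (h : ¬ Cl T) :
    ∃ F : MvPolynomial (Fin 3 × n × n) k,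
      (∀ T : Fin 3 → Matrix n n k, Curv T → eval (co T) F = 0) ∧ eval (co T) F ≠ 0 := by
  unfold Cl at h
  push Not at h
  exact h

/-- over `K` the closure of the curvilinear triples is given by the equations over `k` -/
theorem cl_iff [IsAlgClosed k] (T₁ : Fin 3 → Matrix n n K) :
    Cl T₁ ↔ ∀ F : MvPolynomial (Fin 3 × n × n) k,
      (∀ T : Fin 3 → Matrix n n k, Curv T → eval (co T) F = 0) → aeval (co T₁) F = 0 := by
  refine ⟨fun h F hF => ?_, cl_of_k T₁⟩
  have h1 := h (F.map (algebraMap k K)) fun T' hT' => by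
    rw [MvPolynomial.eval_map]
    exact vanish_K F hF T' hT'
  rw [MvPolynomial.eval_map] at h1
  exact h1

theorem Spz.not_cl [IsAlgClosed k] {T : Fin 3 → Matrix n n k} {T' : Fin 3 → Matrix n n K}
    (hs : Spz T' T) (h : ¬ Cl T) : ¬ Cl T' := by
  intro h'
  obtain ⟨F, hF, hne⟩ := exists_F h
  exact hne (hs F ((cl_iff T').1 h' F hF))

/-- the sum of the ranks over `K` is bounded by that over `k` -/
theorem max_K [IsAlgClosed k] {N : ℕ}
    (h : ∀ T' : Fin 3 → Matrix n n k, CN T' → ¬ Cl T' → ∀ M ∈ adj T', rks M ≤ N)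
    (T₁ : Fin 3 → Matrix n n K) (hc : CN T₁) (hn : ¬ Cl T₁) (M : Matrix n n K)
    (hM : M ∈ adj T₁) : rks M ≤ N := by
  obtain ⟨F, hF, hne⟩ : ∃ F : MvPolynomial (Fin 3 × n × n) k,
      (∀ T : Fin 3 → Matrix n n k, Curv T → eval (co T) F = 0) ∧ aeval (co T₁) F ≠ 0 := by
    by_contra hcon
    push Not at hcon
    exact hn (cl_of_k T₁ hcon)
  obtain ⟨C, hC, hlift⟩ := adj_lift hM
  let C' : Set K := C ∪ Set.range (co T₁)
  have hC' : C'.Finite := hC.union (Set.finite_range _)
  let S : Subalgebra k K := Algebra.adjoin k C'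
  have hS : S.FG := ⟨hC'.toFinset, by rw [hC'.coe_toFinset]⟩
  let v : S →ₐ[k] K := S.val
  have hv : Function.Injective v := Subtype.val_injective
  have hvM : Function.Injective ((v : S →+* K).mapMatrix : Matrix n n S →+* Matrix n n K) := by
    intro A B hAB
    ext i j
    exact congrArg (fun M => M i j) hAB
  let U : Fin 3 → Matrix n n S := fun i => Matrix.of fun a b =>
    ⟨T₁ i a b, Algebra.subset_adjoin (Or.inr ⟨(i, a, b), rfl⟩)⟩
  have hU : ∀ i, (v : S →+* K).mapMatrix (U i) = T₁ i := fun i => rfl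
  obtain ⟨B, hB, hB'⟩ := hlift (v : S →+* K) U hU fun c hc =>
    ⟨⟨c, Algebra.subset_adjoin (Or.inl hc)⟩, rfl⟩
  obtain ⟨r, hr, hr'⟩ := exists_ranks B (v : S →+* K) (Fintype.card n + 1)
  let g : S := aeval (fun z : Fin 3 × n × n => U z.1 z.2.1 z.2.2) F * r
  have hg : g ≠ 0 := by
    intro h0
    have h1 : v g = 0 := by rw [h0, map_zero]
    rw [map_mul, map_aevalF] at h1
    exact (mul_ne_zero hne hr) h1
  obtain ⟨θ, hθ⟩ := exists_hom S hS g hg
  rw [map_mul, map_aevalF] at hθ
  have hle := hr' (θ : S →+* k) (right_ne_zero_of_mul hθ)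
  have hcn : CN fun i => (θ : S →+* k).mapMatrix (U i) := by
    refine ⟨fun i j => ?_, fun i => ⟨Fintype.card n, ?_⟩⟩
    · have h1 : U i * U j = U j * U i := by
        apply hvM
        rw [map_mul, map_mul, hU, hU]
        exact hc.1 i j
      rw [← map_mul, h1, map_mul]
    · have h1 : U i ^ Fintype.card n = 0 := by
        apply hvM
        rw [map_pow, hU, pow_card_eq_zero (hc.2 i), map_zero]
      rw [← map_pow, h1, map_zero]
  have hncl : ¬ Cl fun i => (θ : S →+* k).mapMatrix (U i) := fun hcl =>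
    left_ne_zero_of_mul hθ (hcl F hF)
  refine le_trans ?_ (h _ hcn hncl _ (hB' (θ : S →+* k)))
  unfold rks
  refine Finset.sum_le_sum fun i hi => ?_
  have h2 := hle (i + 1) (by have := Finset.mem_range.1 hi; omega)
  rwa [hB] at h2

/-- transfer of maximal bad triples -/
theorem MaxR.transfer [IsAlgClosed k] {ρ : ℕ → ℕ} {T : Fin 3 → Matrix n n k}
    {T' : Fin 3 → Matrix n n K} (hT : MaxR ρ T) (hs : Spz T' T) (hc : CN T') : MaxR ρ T' := by
  refine ⟨hc, hs.not_cl hT.ncl, ?_, max_K hT.max⟩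
  obtain ⟨A, hA, hr⟩ := hT.att
  obtain ⟨C, -, hlift⟩ := adj_lift hA
  let U : Fin 3 → Matrix n n (MvPolynomial (Fin 3 × n × n) k) := fun i => Matrix.of fun a b =>
    X (i, a, b)
  obtain ⟨B, hB, hB'⟩ := hlift (eval (co T)) U (fun i => by
    ext a b
    simp [U, co]) fun c _ => ⟨MvPolynomial.C c, by simp⟩
  have hU' : (fun i => ((aeval (co T') : _ →ₐ[k] K) : _ →+* K).mapMatrix (U i)) = T' := by
    funext i
    ext a b
    simp [U, co]
  obtain ⟨r, hr1, hr2⟩ := exists_ranks B (eval (co T)) (Fintype.card n + 1)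
  have hle := hr2 ((aeval (co T') : _ →ₐ[k] K) : _ →+* K) fun h0 => hr1 (hs r h0)
  have hmem := hB' ((aeval (co T') : _ →ₐ[k] K) : _ →+* K)
  rw [hU'] at hmem
  refine ⟨_, hmem, ?_⟩
  rw [hB] at hle
  have h1 := max_K hT.max T' hc (hs.not_cl hT.ncl) _ hmem
  have h2 : ∀ i ∈ Finset.range (Fintype.card n), ρ (i + 1) ≤
      (((aeval (co T') : _ →ₐ[k] K) : _ →+* K).mapMatrix B ^ (i + 1)).rank := by
    intro i hi
    rw [← hr]
    exact hle (i + 1) (by have := Finset.mem_range.1 hi; omega)
  have h3 : ∑ i ∈ Finset.range (Fintype.card n), ρ (i + 1) =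
      ∑ i ∈ Finset.range (Fintype.card n),
        (((aeval (co T') : _ →ₐ[k] K) : _ →+* K).mapMatrix B ^ (i + 1)).rank :=
    le_antisymm (Finset.sum_le_sum h2) h1
  intro i
  rcases Nat.eq_zero_or_pos i with rfl | hi
  · rw [← hr 0, pow_zero, pow_zero, Matrix.rank_one, Matrix.rank_one]
  obtain ⟨j, rfl⟩ : ∃ j, i = j + 1 := ⟨i - 1, by omega⟩
  by_cases hj : j < Fintype.card n
  · exact (((Finset.sum_eq_sum_iff_of_le h2).1 h3) j (Finset.mem_range.2 hj)).symm
  · obtain ⟨l, hl⟩ : ∃ l, j + 1 = Fintype.card n + l := ⟨j + 1 - Fintype.card n, by omega⟩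
    rw [← hr, hl, pow_add, pow_card_eq_zero (hc.nilp hmem), zero_mul, pow_add,
      pow_card_eq_zero (hT.cn.nilp hA), zero_mul, Matrix.rank_zero, Matrix.rank_zero]

omit [Fintype n] [DecidableEq n] in
/-- a point which specialises to `x₀` gives a triple which specialises to that of `x₀` -/
theorem spec_of_point {ι : Type*} (c : Fin 3 → n → n → MvPolynomial ι k) (x₀ : ι → k)
    (x : ι → K) (hx : ∀ f : MvPolynomial ι k, aeval x f = 0 → eval x₀ f = 0) :
    Spz (fun i => Matrix.of fun a b => aeval x (c i a b))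
      (fun i => Matrix.of fun a b => eval x₀ (c i a b)) := by
  intro F hF
  have h1 : aeval x (aeval (fun z : Fin 3 × n × n => c z.1 z.2.1 z.2.2) F) = 0 := by
    rw [MvPolynomial.comp_aeval_apply]
    exact hF
  have h2 := hx _ h1
  have h3 : eval x₀ (aeval (fun z : Fin 3 × n × n => c z.1 z.2.1 z.2.2) F) =
      (aeval x₀ : MvPolynomial ι k →ₐ[k] k)
        (aeval (fun z : Fin 3 × n × n => c z.1 z.2.1 z.2.2) F) := rfl
  rw [h3, MvPolynomial.comp_aeval_apply] at h2
  exact h2

end Pool.Agent.Lib.D13
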