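import Pool.Agent.Lib.D13.PurIdem

/-!
# MP_5dcbc3_ag: joint eigenvalues of families of commuting triples

A family of commuting triples over a domain whose joint eigenvalues are in the base ring can be
specialised to a family with only one joint eigenvalue; the dimension drops by at most the number of
joint eigenvalues minus one.
-/

namespace Pool.Agent.Lib.D13.Pur

open Matrix Pool.Agent.Lib.D13

universe u v w

section core

variable {S B : Type*} [CommRing S] [CommRing B] [Algebra S B] (x : Fin 3 → B)

/-- one factor -/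
theorem core_one (l l' : Fin 3 → S) (i : Fin 3) (m : ℕ) :
    ∃ R W : B, (x i - algebraMap S B (l' i)) ^ m * R =
      algebraMap S B (l i - l' i) ^ (m * m) + (x i - algebraMap S B (l i)) ^ m * W := by
  let y : B := x i - algebraMap S B (l i)
  let δ : B := algebraMap S B (l i - l' i)
  have h1 : x i - algebraMap S B (l' i) = δ - -y := by
    simp only [y, δ, map_sub]
    ring
  let R : B := ∑ j ∈ Finset.range m, δ ^ j * (-y) ^ (m - 1 - j)
  have h2 : R * (δ - -y) = δ ^ m - (-y) ^ m := geom_sum₂_mul δ (-y) m
  obtain ⟨W, hW⟩ : (-y) ^ m ∣ (δ ^ m) ^ m - (δ ^ m - (-y) ^ m) ^ m := by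
    have h3 := sub_dvd_pow_sub_pow (δ ^ m) (δ ^ m - (-y) ^ m) m
    rwa [sub_sub_cancel] at h3
  refine ⟨R ^ m, -((-1) ^ m * W), ?_⟩
  have h4 : (x i - algebraMap S B (l' i)) ^ m * R ^ m = (δ ^ m - (-y) ^ m) ^ m := by
    rw [h1, ← mul_pow, mul_comm, h2]
  have h5 : (-y) ^ m = (-1) ^ m * y ^ m := by rw [neg_pow]
  rw [h4, pow_mul]
  have h6 : (δ ^ m - (-y) ^ m) ^ m = (δ ^ m) ^ m - (-y) ^ m * W := by
    rw [← hW]
    ring
  rw [h6, h5]
  ring

/-- the denominators -/
noncomputable def den (l : Fin 3 → S) (L : List (Fin 3 → S)) (m : ℕ) (c : (Fin 3 → S) → Fin 3) :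
    S :=
  (L.map fun l' => (l (c l') - l' (c l')) ^ (m * m)).prod

/-- the products over the other eigenvalues -/
noncomputable def Qp (L : List (Fin 3 → S)) (m : ℕ) (c : (Fin 3 → S) → Fin 3) : B :=
  (L.map fun l' => (x (c l') - algebraMap S B (l' (c l'))) ^ m).prod

theorem core (l : Fin 3 → S) (L : List (Fin 3 → S)) (m : ℕ)
    (h : ∀ i c, (x i - algebraMap S B (l i)) ^ m * Qp x L m c = 0) (c : (Fin 3 → S) → Fin 3) :
    ∃ R : B, ∀ c', (Qp x L m c * R - algebraMap S B (den l L m c)) * Qp x L m c' = 0 := by
  choose R W hRW using fun (l' : Fin 3 → S) (i : Fin 3) => core_one x l l' i m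
  let J : Ideal B := Ideal.span (Set.range fun i => (x i - algebraMap S B (l i)) ^ m)
  have hJ : ∀ b ∈ J, ∀ c', b * Qp x L m c' = 0 := by
    intro b hb c'
    refine Submodule.span_induction ?_ ?_ ?_ ?_ hb
    · rintro _ ⟨i, rfl⟩
      exact h i c'
    · rw [zero_mul]
    · intro a b _ _ ha hb
      rw [add_mul, ha, hb, add_zero]
    · intro a b _ hb
      rw [smul_eq_mul, mul_assoc, hb, mul_zero]
  refine ⟨(L.map fun l' => R l' (c l')).prod, fun c' => hJ _ ?_ c'⟩
  rw [← Ideal.Quotient.eq, Qp, den, ← List.prod_map_mul, map_list_prod, map_list_prod,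
    map_list_prod, List.map_map, List.map_map, List.map_map]
  congr 1
  refine List.map_congr_left fun l' _ => ?_
  simp only [Function.comp_apply]
  rw [hRW, Ideal.Quotient.eq, map_pow, add_sub_cancel_left]
  exact Ideal.mul_mem_right _ _ (Ideal.subset_span ⟨_, rfl⟩)

end core

section mat

variable {n : Type v} [Fintype n] [DecidableEq n] {S : Type w} [CommRing S]
  {A : Fin 3 → Matrix n n S}

/-- the commutative algebra generated by the matrices -/
theorem exists_comm (hA : ∀ i j, A i * A j = A j * A i) :
    ∃ (B : Type (max v w)) (_ : CommRing B) (_ : Algebra S B) (x : Fin 3 → B)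
      (ι : B →ₐ[S] Matrix n n S), Function.Injective ι ∧ ∀ i, ι (x i) = A i := by
  let _ : CommRing (Algebra.adjoin S (Set.range A)) := Algebra.adjoinCommRingOfComm S (by
    rintro _ ⟨i, rfl⟩ _ ⟨j, rfl⟩
    exact hA i j)
  exact ⟨Algebra.adjoin S (Set.range A), inferInstance, inferInstance,
    fun i => ⟨A i, Algebra.subset_adjoin ⟨i, rfl⟩⟩, (Algebra.adjoin S (Set.range A)).val,
    Subtype.val_injective, fun i => rfl⟩

theorem map_Qp {B : Type*} [CommRing B] [Algebra S B] (x : Fin 3 → B)
    (ι : B →ₐ[S] Matrix n n S) (hx : ∀ i, ι (x i) = A i) (L : List (Fin 3 → S)) (m : ℕ)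
    (c : (Fin 3 → S) → Fin 3) :
    ι (Qp x L m c) = (L.map fun l => (A (c l) - l (c l) • (1 : Matrix n n S)) ^ m).prod := by
  rw [Qp, map_list_prod, List.map_map]
  congr 1
  refine List.map_congr_left fun l _ => ?_
  simp only [Function.comp_apply]
  rw [map_pow, map_sub, hx, AlgHom.commutes, Algebra.algebraMap_eq_smul_one]

theorem spec_iff {B : Type*} [CommRing B] [Algebra S B] (x : Fin 3 → B)
    (ι : B →ₐ[S] Matrix n n S) (hi : Function.Injective ι) (hx : ∀ i, ι (x i) = A i)
    (L : List (Fin 3 → S)) (m : ℕ) : Spec A L m ↔ ∀ c, Qp x L m c = 0 := by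
  refine forall_congr' fun c => ?_
  rw [← map_Qp x ι hx]
  constructor
  · intro h
    exact hi (by rw [h, map_zero])
  · intro h
    rw [h, map_zero]

/-- dropping a repeated eigenvalue -/
theorem spec_drop (hA : ∀ i j, A i * A j = A j * A i) {l : Fin 3 → S} {L : List (Fin 3 → S)}
    {m : ℕ} (hl : l ∈ L) (h : Spec A (l :: L) m) : Spec A L (m + m) := by
  obtain ⟨B, _, _, x, ι, hi, hx⟩ := exists_comm hA
  rw [spec_iff x ι hi hx] at h ⊢
  intro c
  have h1 : Qp x L (m + m) c = Qp x L m c * Qp x L m c := by
    rw [Qp, Qp, ← List.prod_map_mul]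
    simp only [pow_add]
  have h2 : (x (c l) - algebraMap S B (l (c l))) ^ m ∣ Qp x L m c :=
    List.dvd_prod (List.mem_map.2 ⟨l, hl, rfl⟩)
  obtain ⟨W, hW⟩ := h2
  have h3 := h c
  rw [Qp, List.map_cons, List.prod_cons] at h3
  have h4 : (x (c l) - algebraMap S B (l (c l))) ^ m * Qp x L m c = 0 := h3
  rw [h1]
  nth_rw 1 [hW]
  rw [mul_right_comm, h4, zero_mul]

/-- images of families -/
theorem spec_map {S' : Type*} [CommRing S'] (f : S →+* S') {L : List (Fin 3 → S)} {m : ℕ}
    (h : Spec A L m) : Spec (fun i => (A i).map f) (L.map fun l => f ∘ l) m := by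
  intro c
  have h1 := congrArg (fun M : Matrix n n S => f.mapMatrix M) (h fun l => c (f ∘ l))
  simp only [map_list_prod, List.map_map, map_zero] at h1
  rw [List.map_map, ← h1]
  congr 1
  refine List.map_congr_left fun l _ => ?_
  simp only [Function.comp_apply, map_pow, map_sub]
  congr 2
  ext x y
  simp [Matrix.smul_apply, Matrix.one_apply, apply_ite f]

end mat

section mat2

variable {n : Type v} [Fintype n] [DecidableEq n] {S : Type w} [CommRing S]
  {A : Fin 3 → Matrix n n S}

theorem core_mat (hA : ∀ i j, A i * A j = A j * A i) {l : Fin 3 → S} {L : List (Fin 3 → S)}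
    {m : ℕ} (hl : l ∉ L) (h : Spec A (l :: L) m) :
    ∃ E : ((Fin 3 → S) → Fin 3) → Matrix n n S,
      (∀ c c', E c * E c' = den l L m c • E c') ∧
      (∀ c c', den l L m c • E c' = den l L m c' • E c) ∧
      (∀ c i, (A i - l i • (1 : Matrix n n S)) ^ m * E c = 0) ∧
      (∀ c i, E c * A i = A i * E c) ∧
      (∀ c, E c = 0 → ∀ c' : (Fin 3 → S) → Fin 3, den l L m c •
        (L.map fun l => (A (c' l) - l (c' l) • (1 : Matrix n n S)) ^ m).prod = 0) := by
  classical
  obtain ⟨B, _, _, x, ι, hi, hx⟩ := exists_comm hA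
  rw [spec_iff x ι hi hx] at h
  have h' : ∀ i c, (x i - algebraMap S B (l i)) ^ m * Qp x L m c = 0 := by
    intro i c
    have h1 := h (Function.update c l i)
    rw [Qp, List.map_cons, List.prod_cons, Function.update_self] at h1
    rw [← h1]
    congr 1
    rw [Qp]
    congr 1
    refine List.map_congr_left fun l' hl' => ?_
    have h2 : l' ≠ l := fun h3 => hl (h3 ▸ hl')
    rw [Function.update_of_ne h2]
  choose R hR using core x l L m h'
  have h1 : ∀ c c', (Qp x L m c * R c) * (Qp x L m c' * R c') =
      algebraMap S B (den l L m c) * (Qp x L m c' * R c') := by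
    intro c c'
    have h2 := hR c c'
    rw [sub_mul, sub_eq_zero] at h2
    rw [← mul_assoc, h2, mul_assoc]
  refine ⟨fun c => ι (Qp x L m c * R c), ?_, ?_, ?_, ?_, ?_⟩
  · intro c c'
    rw [← map_mul, h1, map_mul, AlgHom.commutes, Algebra.algebraMap_eq_smul_one, smul_mul_assoc,
      one_mul]
  · intro c c'
    have h2 : algebraMap S B (den l L m c) * (Qp x L m c' * R c') =
        algebraMap S B (den l L m c') * (Qp x L m c * R c) := by
      rw [← h1, ← h1, mul_comm]
    have h3 := congrArg ι h2
    rw [map_mul ι (algebraMap S B _) (Qp x L m c' * R c'),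
      map_mul ι (algebraMap S B _) (Qp x L m c * R c), AlgHom.commutes, AlgHom.commutes,
      Algebra.algebraMap_eq_smul_one, Algebra.algebraMap_eq_smul_one, smul_mul_assoc, one_mul,
      smul_mul_assoc, one_mul] at h3
    exact h3
  · intro c i
    have h2 : (A i - l i • (1 : Matrix n n S)) ^ m = ι ((x i - algebraMap S B (l i)) ^ m) := by
      rw [map_pow, map_sub, hx, AlgHom.commutes, Algebra.algebraMap_eq_smul_one]
    rw [h2, ← map_mul, ← mul_assoc, h', zero_mul, map_zero]
  · intro c i
    rw [← hx i, ← map_mul, ← map_mul, mul_comm]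
  · intro c hc c'
    have h2 : Qp x L m c * R c = 0 := hi (by rw [map_zero]; exact hc)
    have h3 := hR c c'
    rw [h2, zero_sub, neg_mul, neg_eq_zero] at h3
    rw [← map_Qp x ι hx L m c']
    have h4 := congrArg ι h3
    rwa [map_mul, AlgHom.commutes, Algebra.algebraMap_eq_smul_one, smul_mul_assoc, one_mul,
      map_zero] at h4

end mat2

/-- the induction -/
theorem spectral {k : Type u} [Field k] [IsAlgClosed k] [CharZero k] {n : Type} [Fintype n]
    [DecidableEq n] {T : Fin 3 → Matrix n n k} (hT : Indec T) (r : ℕ) :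
    ∀ (S : Type u) [CommRing S] [IsDomain S] [Algebra k S] [Algebra.FiniteType k S] (F : Fam T S)
      (L : List (Fin 3 → S)), L.length ≤ r + 1 → ∀ m : ℕ, Spec F.A L m → ∀ N : ℕ,
      ((N + r : ℕ) : WithBot ℕ∞) ≤ ringKrullDim S →
    ∃ (S₁ : Type u) (_ : CommRing S₁) (_ : IsDomain S₁) (_ : Algebra k S₁)
      (_ : Algebra.FiniteType k S₁) (F₁ : Fam T S₁) (l : Fin 3 → S₁) (m₁ : ℕ),
      (∀ i, (F₁.A i - l i • (1 : Matrix n n S₁)) ^ m₁ = 0) ∧
      (N : WithBot ℕ∞) ≤ ringKrullDim S₁ := by
  classical
  induction r with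
  | zero =>
    intro S _ _ _ _ F L hL m hm N hN
    refine ⟨S, inferInstance, inferInstance, inferInstance, inferInstance, F, ?_⟩
    rcases L with _ | ⟨l, L⟩
    · refine ⟨0, 0, fun i => ?_, by simpa using hN⟩
      have h1 : (1 : Matrix n n S) = 0 := by simpa using hm fun _ => 0
      rw [pow_zero, h1]
    · have h2 : L = [] := by
        rw [List.length_cons] at hL
        exact List.length_eq_zero_iff.1 (by omega)
      subst h2
      refine ⟨l, m, fun i => ?_, by simpa using hN⟩
      simpa using hm fun _ => i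
  | succ r ih =>
    intro S _ _ _ _ F L hL m hm N hN
    have hN' : ((N + r : ℕ) : WithBot ℕ∞) ≤ ringKrullDim S := by
      refine le_trans ?_ hN
      exact_mod_cast Nat.le_succ _
    have hN'' : (N : WithBot ℕ∞) ≤ ringKrullDim S := by
      refine le_trans ?_ hN
      exact_mod_cast Nat.le_add_right _ _
    rcases L with _ | ⟨l, L⟩
    · refine ⟨S, inferInstance, inferInstance, inferInstance, inferInstance, F, 0, 0,
        fun i => ?_, hN''⟩
      have h1 : (1 : Matrix n n S) = 0 := by simpa using hm fun _ => 0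
      rw [pow_zero, h1]
    have hL' : L.length ≤ r + 1 := by
      rw [List.length_cons] at hL
      omega
    by_cases hl : l ∈ L
    · exact ih S F L hL' (m + m) (spec_drop F.comm hl hm) N hN'
    obtain ⟨E, hE1, hE2, hE3, hE4, hE5⟩ := core_mat F.comm hl hm
    -- a choice function with a nonzero denominator
    have hne : ∀ l' : Fin 3 → S, ∃ i, l' ∈ L → l i ≠ l' i := by
      intro l'
      by_cases h1 : l' ∈ L
      · have h2 : l ≠ l' := fun h3 => hl (h3 ▸ h1)
        obtain ⟨i, hi⟩ := Function.ne_iff.1 h2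
        exact ⟨i, fun _ => hi⟩
      · exact ⟨0, fun h2 => absurd h2 h1⟩
    choose a ha using hne
    have hden : den l L m a ≠ 0 := by
      rw [den, Ne, List.prod_eq_zero_iff]
      intro h1
      obtain ⟨l', hl', h2⟩ := List.mem_map.1 h1
      exact pow_ne_zero _ (sub_ne_zero.2 (ha l' hl')) h2
    let K := FractionRing S
    have hinj : Function.Injective (algebraMap S K) := IsFractionRing.injective S K
    have hdK : algebraMap S K (den l L m a) ≠ 0 := fun h1 => hden (hinj (by rw [h1, map_zero]))
    have htf : ∀ X : Matrix n n S, den l L m a • X = 0 → X = 0 := by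
      intro X hX
      ext x y
      have h1 := congrArg (fun M : Matrix n n S => M x y) hX
      simp only [Matrix.smul_apply, smul_eq_mul, Matrix.zero_apply] at h1
      exact (mul_eq_zero.1 h1).resolve_left hden
    let e : Matrix n n K := (algebraMap S K (den l L m a))⁻¹ • (E a).map (algebraMap S K)
    have hsm : ∀ (r : S) (X : Matrix n n S), (r • X).map (algebraMap S K) =
        algebraMap S K r • X.map (algebraMap S K) := by
      intro r X
      ext x y
      simp
    have hde : ∀ c, algebraMap S K (den l L m c) • e = (E c).map (algebraMap S K) := by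
      intro c
      have h1 : algebraMap S K (den l L m c) • (E a).map (algebraMap S K) =
          algebraMap S K (den l L m a) • (E c).map (algebraMap S K) := by
        rw [← hsm, ← hsm, hE2]
      change algebraMap S K (den l L m c) • ((algebraMap S K (den l L m a))⁻¹ •
        (E a).map (algebraMap S K)) = _
      rw [smul_comm, h1, smul_smul, inv_mul_cancel₀ hdK, one_smul]
    by_cases h0 : e = 0
    · have h1 : E a = 0 := by
        have h2 := hde a
        rw [h0, smul_zero] at h2
        apply Matrix.map_injective hinj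
        change (E a).map (algebraMap S K) = (0 : Matrix n n S).map (algebraMap S K)
        rw [← h2]
        ext x y
        simp
      exact ih S F L hL' m (fun c' => htf _ (hE5 a h1 c')) N hN'
    by_cases h1 : e = 1
    · have h2 : E a = den l L m a • (1 : Matrix n n S) := by
        have h3 := hde a
        rw [h1] at h3
        apply Matrix.map_injective hinj
        change (E a).map (algebraMap S K) = (den l L m a • (1 : Matrix n n S)).map (algebraMap S K)
        rw [← h3, hsm]
        congr 1
        rw [Matrix.map_one _ (map_zero _) (map_one _)]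
      refine ⟨S, inferInstance, inferInstance, inferInstance, inferInstance, F, l, m,
        fun i => htf _ ?_, hN''⟩
      have h3 := hE3 a i
      rwa [h2, mul_smul_comm, mul_one] at h3
    have he : e * e = e := by
      change ((algebraMap S K (den l L m a))⁻¹ • (E a).map (algebraMap S K)) *
        ((algebraMap S K (den l L m a))⁻¹ • (E a).map (algebraMap S K)) = _
      rw [smul_mul_assoc, mul_smul_comm, ← Matrix.map_mul, hE1, hsm, smul_smul, smul_smul,
        mul_assoc, inv_mul_cancel₀ hdK, mul_one]
    obtain ⟨S₁, _, _, _, _, F₁, f, hf, hdim, hfr⟩ := pur_step hT F e he h0 h1 (by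
      intro i
      change ((algebraMap S K (den l L m a))⁻¹ • (E a).map (algebraMap S K)) * _ = _ *
        ((algebraMap S K (den l L m a))⁻¹ • (E a).map (algebraMap S K))
      rw [smul_mul_assoc, mul_smul_comm, ← Matrix.map_mul, ← Matrix.map_mul, hE4])
    have hex : ∃ l' ∈ L, ∀ i, f (l i) = f (l' i) := by
      by_contra hcon
      push Not at hcon
      have hch : ∀ l' : Fin 3 → S, ∃ i, l' ∈ L → f (l i) ≠ f (l' i) := by
        intro l'
        by_cases h2 : l' ∈ L
        · obtain ⟨i, hi⟩ := hcon l' h2
          exact ⟨i, fun _ => hi⟩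
        · exact ⟨0, fun h3 => absurd h3 h2⟩
      choose c hc using hch
      have h2 : f (den l L m c) = 0 := hfr _ ⟨E c, (hde c).symm⟩
      rw [den, map_list_prod, List.map_map, List.prod_eq_zero_iff] at h2
      obtain ⟨l', hl', h3⟩ := List.mem_map.1 h2
      simp only [Function.comp_apply, map_pow, map_sub] at h3
      exact pow_ne_zero _ (sub_ne_zero.2 (hc l' hl')) h3
    obtain ⟨l', hl', hll⟩ := hex
    have hspec : Spec F₁.A ((l :: L).map fun l => f ∘ l) m := by
      have h2 := spec_map (f : S →+* S₁) hm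
      have h3 : (fun i => (F.A i).map (f : S →+* S₁)) = F₁.A := by
        funext i
        rw [hf i]
        rfl
      rw [h3] at h2
      exact h2
    rw [List.map_cons] at hspec
    have hmem : f ∘ l ∈ L.map fun l => f ∘ l := by
      have h2 : f ∘ l = f ∘ l' := funext hll
      rw [h2]
      exact List.mem_map.2 ⟨l', hl', rfl⟩
    refine ih S₁ F₁ (L.map fun l => f ∘ l) (by rw [List.length_map]; exact hL') (m + m)
      (spec_drop F₁.comm hmem hspec) N (hdim _ ?_)
    have h2 : N + (r + 1) = N + r + 1 := by omega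
    rw [← h2]
    exact hN

end Pool.Agent.Lib.D13.Pur
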