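import Pool.Agent.Lib.D13.PurFamA
import Pool.Agent.Lib.D13.PurSpec
import Pool.Agent.Lib.D13.PurStart

/-!
# MP_5dcbc3_ag: the purity theorem
-/

set_option autoImplicit false

namespace Pool.Agent.Lib.D13

open Matrix MvPolynomial Pool.Agent.Lib.Q5dc Pool.Agent.Lib.D7

universe u

/-- the purity theorem -/
theorem purity {k : Type u} [Field k] [IsAlgClosed k] [CharZero k] {n : Type} [Fintype n]
    [DecidableEq n] {T : Fin 3 → Matrix n n k} (hT : CN T) (hi : Indec T) (hP : PCl T)
    (hn : 2 ≤ Fintype.card n) :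
    ∃ I : Ideal (MvPolynomial (Fin 3 × n × n) k), I.IsPrime ∧ (∀ F ∈ I, eval (co T) F = 0) ∧
      (∀ T' : Fin 3 → Matrix n n k, (∀ F ∈ I, eval (co T') F = 0) → CN T') ∧
      ((Fintype.card n * Fintype.card n + Fintype.card n - 2 : ℕ) : WithBot ℕ∞) ≤
        ringKrullDim (MvPolynomial (Fin 3 × n × n) k ⧸ I) := by
  have hne : Nonempty n := Fintype.card_pos_iff.1 (by omega)
  obtain ⟨S, _, _, _, _, F, L, hL, hm, hS⟩ := pur_start hP
  obtain ⟨S₁, _, _, _, _, F₁, l, m₁, h1, h2⟩ := Pur.spectral hi (Fintype.card n - 1) S F L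
    (by omega) 1 hm (Fintype.card n * Fintype.card n + Fintype.card n + 1) (by
      rw [show Fintype.card n * Fintype.card n + Fintype.card n + 1 + (Fintype.card n - 1) =
        Fintype.card n * Fintype.card n + 2 * Fintype.card n by omega]
      exact hS)
  refine Pur.of_fam hT F₁ l m₁ h1 _ ?_
  rw [show Fintype.card n * Fintype.card n + Fintype.card n - 2 + 3 =
    Fintype.card n * Fintype.card n + Fintype.card n + 1 by
      have : 0 ≤ Fintype.card n * Fintype.card n := Nat.zero_le _
      omega]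
  exact h2

end Pool.Agent.Lib.D13
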