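import Mathlib.Algebra.DualNumber
import Pool.Agent.Lib.P166ae0.JordanBasis

/-!
# MP_5dcbc3_ag: the tangent space of the orbit of a nilpotent matrix

`orbit_tangent`: a direction `a` such that the derivative of `A ^ i` at `J` in the direction `a` maps
the kernel of `J ^ i` into the image of `J ^ i` for all `i` is a commutator with `J` (Jordan basis).
`orbit_tangent'`: this condition follows from the polynomial functions vanishing at the matrices `A`
with `rank (A ^ i) ≤ rank (J ^ i)` (minors of `A ^ i` in suitable bases).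
-/

namespace Pool.Agent.Lib.D13

open Matrix MvPolynomial

namespace PurOrbAux

variable {k : Type*} [Field k] {n : Type*} [Fintype n] [DecidableEq n]

/-- the derivative of `A ^ i` at `J` in the direction `a` -/
def dpow (J a : Matrix n n k) (i : ℕ) : Matrix n n k :=
  ∑ p ∈ Finset.range i, J ^ p * a * J ^ (i - 1 - p)

theorem dpow_zero (J a : Matrix n n k) : dpow J a 0 = 0 := by simp [dpow]

theorem dpow_succ (J a : Matrix n n k) (i : ℕ) :
    dpow J a (i + 1) = J * dpow J a i + a * J ^ i := by
  rw [dpow, Finset.sum_range_succ', dpow, Finset.mul_sum]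
  congr 1
  · refine Finset.sum_congr rfl fun p hp => ?_
    have hp' := Finset.mem_range.1 hp
    have e : i + 1 - 1 - (p + 1) = i - 1 - p := by omega
    rw [e, pow_succ']
    simp only [mul_assoc]
  · simp

end PurOrbAux

open PurOrbAux in
/-- `J` nilpotent; if the derivative of `A ^ i` at `J` in the direction `a` maps the kernel of
`J ^ i` to the image of `J ^ i` for all `i`, then `a` is a commutator with `J` -/
theorem orbit_tangent {k : Type*} [Field k] {n : Type*} [Fintype n] [DecidableEq n]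
    {J a : Matrix n n k} (hJ : IsNilpotent J)
    (h : ∀ i v, (J ^ i) *ᵥ v = 0 → ∃ w, (J ^ i) *ᵥ w =
      (∑ p ∈ Finset.range i, J ^ p * a * J ^ (i - 1 - p)) *ᵥ v) :
    ∃ g : Matrix n n k, a = g * J - J * g := by
  obtain ⟨p, hp⟩ := hJ
  have hD : (Matrix.toLin' J) ^ p = 0 := by rw [← Matrix.toLin'_pow, hp, map_zero]
  obtain ⟨r, m, b, hm, hb⟩ := P166ae0.exists_jordan_basis (Matrix.toLin' J) p hD
  have hb' : ∀ (x : Fin r) (i : Fin (m x)),
      J *ᵥ (b ⟨x, i⟩) = if h : (i : ℕ) + 1 < m x then b ⟨x, ⟨(i : ℕ) + 1, h⟩⟩ else 0 := by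
    intro x i
    rw [← hb x i, Matrix.toLin'_apply]
  -- the generators
  let v : Fin r → (n → k) := fun x => b ⟨x, ⟨0, (hm x).1⟩⟩
  have hv : ∀ (x : Fin r) (j : ℕ) (hj : j < m x), (J ^ j) *ᵥ v x = b ⟨x, ⟨j, hj⟩⟩ := by
    intro x j
    induction j with
    | zero => intro hj; simp [v]
    | succ j ih =>
      intro hj
      have hj' : j < m x := by omega
      have h1 := hb' x ⟨j, hj'⟩
      rw [dif_pos hj] at h1
      rw [pow_succ', ← Matrix.mulVec_mulVec, ih hj', h1]
  have hv0 : ∀ x, (J ^ m x) *ᵥ v x = 0 := by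
    intro x
    have h0 := (hm x).1
    obtain ⟨j, hj⟩ : ∃ j, m x = j + 1 := ⟨m x - 1, by omega⟩
    have h1 := hb' x ⟨j, by omega⟩
    rw [dif_neg (by simp [hj])] at h1
    rw [hj, pow_succ', ← Matrix.mulVec_mulVec, hv x j (by omega), h1]
  choose w hw using fun x => h (m x) (v x) (hv0 x)
  have hw' : ∀ x, (J ^ m x) *ᵥ w x = dpow J a (m x) *ᵥ v x := hw
  -- the matrix g
  let gl : (n → k) →ₗ[k] (n → k) :=
    b.constr k fun y => dpow J a y.2 *ᵥ v y.1 - (J ^ (y.2 : ℕ)) *ᵥ w y.1
  have hgl : ∀ y, gl (b y) = dpow J a y.2 *ᵥ v y.1 - (J ^ (y.2 : ℕ)) *ᵥ w y.1 :=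
    fun y => b.constr_basis k _ y
  refine ⟨LinearMap.toMatrix' gl, ?_⟩
  apply Matrix.toLin'.injective
  rw [map_sub, Matrix.toLin'_mul, Matrix.toLin'_mul, Matrix.toLin'_toMatrix']
  refine b.ext fun y => ?_
  obtain ⟨x, j⟩ := y
  rw [LinearMap.sub_apply, LinearMap.comp_apply, LinearMap.comp_apply, Matrix.toLin'_apply,
    Matrix.toLin'_apply, Matrix.toLin'_apply, hgl, hb']
  have e0 : b ⟨x, j⟩ = (J ^ (j : ℕ)) *ᵥ v x := (hv x j j.2).symm
  have e1 : J *ᵥ (dpow J a j *ᵥ v x - (J ^ (j : ℕ)) *ᵥ w x) =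
      dpow J a (j + 1) *ᵥ v x - (J ^ ((j : ℕ) + 1)) *ᵥ w x - a *ᵥ b ⟨x, j⟩ := by
    rw [Matrix.mulVec_sub, Matrix.mulVec_mulVec, Matrix.mulVec_mulVec, ← pow_succ', e0,
      Matrix.mulVec_mulVec, dpow_succ, Matrix.add_mulVec]
    abel
  by_cases hj : (j : ℕ) + 1 < m x
  · rw [dif_pos hj, hgl]
    change _ = (dpow J a (j + 1) *ᵥ v x - (J ^ ((j : ℕ) + 1)) *ᵥ w x) -
      J *ᵥ (dpow J a j *ᵥ v x - (J ^ (j : ℕ)) *ᵥ w x)
    rw [e1]
    abel
  · rw [dif_neg hj, map_zero]
    change _ = 0 - J *ᵥ (dpow J a j *ᵥ v x - (J ^ (j : ℕ)) *ᵥ w x)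
    have hm' : (j : ℕ) + 1 = m x := by have := j.2; omega
    rw [e1, hm', hw' x]
    abel

namespace PurOrbAux

variable {k : Type*} [Field k] {n : Type*} [Fintype n] [DecidableEq n]

/-- a matrix over the dual numbers without infinitesimal part -/
def iL {l m : Type*} (A : Matrix l m k) : Matrix l m (DualNumber k) :=
  Matrix.of fun x y => TrivSqZeroExt.inl (A x y)

/-- an infinitesimal matrix -/
def iR {l m : Type*} (A : Matrix l m k) : Matrix l m (DualNumber k) :=
  Matrix.of fun x y => TrivSqZeroExt.inr (A x y)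

@[simp] theorem iL_fst {l m : Type*} (A : Matrix l m k) (x : l) (y : m) :
    TrivSqZeroExt.fst (iL A x y) = A x y := rfl

@[simp] theorem iL_snd {l m : Type*} (A : Matrix l m k) (x : l) (y : m) :
    TrivSqZeroExt.snd (iL A x y) = 0 := rfl

@[simp] theorem iR_fst {l m : Type*} (A : Matrix l m k) (x : l) (y : m) :
    TrivSqZeroExt.fst (iR A x y) = 0 := rfl

@[simp] theorem iR_snd {l m : Type*} (A : Matrix l m k) (x : l) (y : m) :
    TrivSqZeroExt.snd (iR A x y) = A x y := rfl

theorem dual_ext {l m : Type*} {A B : Matrix l m (DualNumber k)}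
    (h1 : ∀ x y, TrivSqZeroExt.fst (A x y) = TrivSqZeroExt.fst (B x y))
    (h2 : ∀ x y, TrivSqZeroExt.snd (A x y) = TrivSqZeroExt.snd (B x y)) : A = B := by
  apply Matrix.ext
  intro x y
  exact TrivSqZeroExt.ext (h1 x y) (h2 x y)

theorem fst_mul_apply {l m o : Type*} [Fintype m] (A : Matrix l m (DualNumber k))
    (B : Matrix m o (DualNumber k)) (x : l) (y : o) : TrivSqZeroExt.fst ((A * B) x y) =
      ∑ j, TrivSqZeroExt.fst (A x j) * TrivSqZeroExt.fst (B j y) := by
  rw [Matrix.mul_apply]
  exact (TrivSqZeroExt.fst_sum _ _).trans (Finset.sum_congr rfl fun j _ =>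
    TrivSqZeroExt.fst_mul _ _)

theorem snd_mul_apply {l m o : Type*} [Fintype m] (A : Matrix l m (DualNumber k))
    (B : Matrix m o (DualNumber k)) (x : l) (y : o) : TrivSqZeroExt.snd ((A * B) x y) =
      ∑ j, (TrivSqZeroExt.fst (A x j) * TrivSqZeroExt.snd (B j y) +
        TrivSqZeroExt.snd (A x j) * TrivSqZeroExt.fst (B j y)) := by
  rw [Matrix.mul_apply]
  exact (TrivSqZeroExt.snd_sum _ _).trans (Finset.sum_congr rfl fun j _ =>
    DualNumber.snd_mul _ _)

/-- the differential is the second component over the dual numbers -/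
theorem snd_aeval {σ : Type*} [Fintype σ] (x v : σ → k) (F : MvPolynomial σ k) :
    (aeval (fun s => (TrivSqZeroExt.inl (x s) + TrivSqZeroExt.inr (v s) : DualNumber k)) F).fst =
      eval x F ∧
    (aeval (fun s => (TrivSqZeroExt.inl (x s) + TrivSqZeroExt.inr (v s) : DualNumber k)) F).snd =
      ∑ s, eval x (pderiv s F) * v s := by
  classical
  induction F using MvPolynomial.induction_on with
  | C c =>
    simp [TrivSqZeroExt.algebraMap_eq_inl]
  | add p q hp hq =>
    refine ⟨by rw [map_add, TrivSqZeroExt.fst_add, hp.1, hq.1, map_add], ?_⟩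
    rw [map_add, TrivSqZeroExt.snd_add, hp.2, hq.2, ← Finset.sum_add_distrib]
    refine Finset.sum_congr rfl fun s _ => ?_
    rw [map_add, map_add, add_mul]
  | mul_X p t hp =>
    refine ⟨by rw [map_mul, TrivSqZeroExt.fst_mul, hp.1, map_mul]; simp, ?_⟩
    rw [map_mul, TrivSqZeroExt.snd_mul, hp.1, hp.2, aeval_X]
    have h1 : ∀ s, eval x (pderiv s (p * X t)) * v s =
        eval x (pderiv s p) * v s * x t + (if s = t then eval x p * v t else 0) := by
      intro s
      rw [Derivation.leibniz, smul_eq_mul, smul_eq_mul, pderiv_X, map_add, map_mul, map_mul,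
        eval_X]
      by_cases hst : s = t
      · subst hst
        simp
        ring
      · have : (Pi.single s (1 : MvPolynomial σ k) : σ → MvPolynomial σ k) t = 0 :=
          Pi.single_eq_of_ne (Ne.symm hst) _
        rw [this, if_neg hst]
        simp
        ring
    simp only [h1, Finset.sum_add_distrib, Finset.sum_ite_eq', Finset.mem_univ, if_true,
      ← Finset.sum_mul]
    simp
    ring

theorem mul_inl_inl {l m o : Type*} [Fintype m] (A : Matrix l m k) (B : Matrix m o k) :
    iL A * iL B = iL (A * B) := by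
  refine dual_ext (fun x y => ?_) fun x y => ?_
  · rw [fst_mul_apply, iL_fst, Matrix.mul_apply]
    rfl
  · rw [snd_mul_apply, iL_snd]
    simp

theorem mul_inl_inr {l m o : Type*} [Fintype m] (A : Matrix l m k) (B : Matrix m o k) :
    iL A * iR B = iR (A * B) := by
  refine dual_ext (fun x y => ?_) fun x y => ?_
  · rw [fst_mul_apply, iR_fst]
    simp
  · rw [snd_mul_apply, iR_snd, Matrix.mul_apply]
    simp

theorem mul_inr_inl {l m o : Type*} [Fintype m] (A : Matrix l m k) (B : Matrix m o k) :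
    iR A * iL B = iR (A * B) := by
  refine dual_ext (fun x y => ?_) fun x y => ?_
  · rw [fst_mul_apply, iR_fst]
    simp
  · rw [snd_mul_apply, iR_snd, Matrix.mul_apply]
    simp

theorem mul_inr_inr {l m o : Type*} [Fintype m] (A : Matrix l m k) (B : Matrix m o k) :
    iR A * iR B = 0 := by
  refine dual_ext (fun x y => ?_) fun x y => ?_
  · rw [fst_mul_apply]
    simp
  · rw [snd_mul_apply]
    simp

/-- powers over the dual numbers -/
theorem pow_dual (J a : Matrix n n k) (i : ℕ) :
    (iL J + iR a) ^ i = iL (J ^ i) + iR (dpow J a i) := by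
  induction i with
  | zero =>
    rw [pow_zero, pow_zero, dpow_zero]
    refine dual_ext (fun x y => ?_) fun x y => ?_
    · by_cases h : x = y
      · subst h; simp
      · simp [h]
    · by_cases h : x = y
      · subst h; simp
      · simp [h]
  | succ i ih =>
    rw [pow_succ', ih, Matrix.add_mul, Matrix.mul_add, Matrix.mul_add, mul_inl_inl, mul_inl_inr,
      mul_inr_inl, mul_inr_inr, dpow_succ, pow_succ', add_zero, add_assoc]
    congr 1
    refine dual_ext (fun x y => ?_) fun x y => ?_
    · simp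
    · simp

/-- first order term of a determinant -/
theorem det_dual {r : ℕ} (D N : Matrix (Fin r ⊕ Unit) (Fin r ⊕ Unit) k)
    (hD : D = Matrix.fromBlocks 1 0 0 0) :
    TrivSqZeroExt.snd (iL D + iR N).det = N (.inr ()) (.inr ()) := by
  set M : Matrix (Fin r ⊕ Unit) (Fin r ⊕ Unit) (DualNumber k) := iL D + iR N with hM
  let u : Fin r ⊕ Unit → DualNumber k := fun x => TrivSqZeroExt.inl (N (.inr ()) x)
  have h1 : M = M.updateRow (.inr ()) ((TrivSqZeroExt.inr 1 : DualNumber k) • u) := by
    ext x y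
    · by_cases hx : x = .inr ()
      · subst hx
        rw [Matrix.updateRow_self]
        rcases y with y | y <;> simp [hM, hD, u]
      · rw [Matrix.updateRow_ne hx]
    · by_cases hx : x = .inr ()
      · subst hx
        rw [Matrix.updateRow_self]
        rcases y with y | y <;> simp [hM, hD, u]
      · rw [Matrix.updateRow_ne hx]
  rw [h1, Matrix.det_updateRow_smul]
  have h2 : ((TrivSqZeroExt.inr 1 : DualNumber k) * (M.updateRow (.inr ()) u).det).snd =
      (M.updateRow (.inr ()) u).det.fst := by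
    simp
  rw [h2]
  have h3 : (M.updateRow (.inr ()) u).det.fst =
      ((M.updateRow (.inr ()) u).map (TrivSqZeroExt.fstHom k k k)).det := by
    exact AlgHom.map_det (TrivSqZeroExt.fstHom k k k) (M.updateRow (.inr ()) u)
  rw [h3]
  have h4 : (M.updateRow (.inr ()) u).map (TrivSqZeroExt.fstHom k k k) =
      Matrix.fromBlocks 1 0 (Matrix.of fun _ y => N (.inr ()) (.inl y))
        (Matrix.of fun _ _ => N (.inr ()) (.inr ())) := by
    ext x y
    rcases x with x | x
    · rw [Matrix.map_apply, Matrix.updateRow_ne (by simp)]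
      rcases y with y | y <;> simp [hM, hD]
    · rw [Matrix.map_apply]
      have hx : (Sum.inr x : Fin r ⊕ Unit) = .inr () := rfl
      rw [hx, Matrix.updateRow_self]
      rcases y with y | y <;> simp [u]
  rw [h4, Matrix.det_fromBlocks_zero₁₂]
  simp

end PurOrbAux

open PurOrbAux in
/-- the condition of `orbit_tangent` follows from the polynomial functions vanishing on the matrices
with the same ranks of powers: `F` runs through all polynomial functions on matrices which vanish
at all `A` with `rank (A ^ i) ≤ rank (J ^ i)` for all `i` -/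
theorem orbit_tangent' {k : Type*} [Field k] [Infinite k] {n : Type*} [Fintype n] [DecidableEq n]
    {J a : Matrix n n k} (hJ : IsNilpotent J)
    (h : ∀ F : MvPolynomial (n × n) k,
      (∀ A : Matrix n n k, (∀ i, (A ^ i).rank ≤ (J ^ i).rank) →
        eval (fun x => A x.1 x.2) F = 0) →
      ∑ x, eval (fun x => J x.1 x.2) (pderiv x F) * a x.1 x.2 = 0) :
    ∃ g : Matrix n n k, a = g * J - J * g := by
  refine orbit_tangent hJ fun i v hv => ?_
  by_contra hcon
  change ¬ ∃ w, (J ^ i) *ᵥ w = dpow J a i *ᵥ v at hcon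
  set y : n → k := dpow J a i *ᵥ v with hy
  -- the range of `J ^ i` and a functional
  let R : Submodule k (n → k) := LinearMap.range (Matrix.mulVecLin (J ^ i))
  have hyR : y ∉ R := fun ⟨w, hw⟩ => hcon ⟨w, hw⟩
  obtain ⟨φ, hφy, hφR⟩ := Submodule.exists_dual_map_eq_bot_of_notMem (p := R) hyR inferInstance
  have hφ : ∀ w, φ ((J ^ i) *ᵥ w) = 0 := fun w => by
    have : φ ((J ^ i) *ᵥ w) ∈ R.map φ := ⟨_, ⟨w, rfl⟩, rfl⟩
    rwa [hφR] at this
  -- a basis of the range
  let bR := Module.finBasis k R
  set r := Module.finrank k R with hr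
  have hrank : (J ^ i).rank = r := rfl
  choose q hq using fun j => (bR j).2
  obtain ⟨s, hs⟩ := R.subtype.exists_leftInverse_of_injective R.ker_subtype
  let P0 : Fin r → ((n → k) →ₗ[k] k) := fun j => bR.coord j ∘ₗ s
  have hP0 : ∀ j l, P0 j ((J ^ i) *ᵥ q l) = if j = l then 1 else 0 := by
    intro j l
    have h1 : s ((J ^ i) *ᵥ q l) = bR l := by
      have h2 : (J ^ i) *ᵥ q l = R.subtype (bR l) := hq l
      rw [h2]
      exact LinearMap.congr_fun hs (bR l)
    change bR.coord j (s _) = _
    rw [h1, Module.Basis.coord_apply, Module.Basis.repr_self, Finsupp.single_apply]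
    simp [eq_comm]
  let P : Matrix (Fin r ⊕ Unit) n k := Matrix.of fun x t =>
    Sum.elim (fun j => P0 j (Pi.single t 1)) (fun _ => φ (Pi.single t 1)) x
  let Q : Matrix n (Fin r ⊕ Unit) k := Matrix.of fun t x => Sum.elim (fun j => q j t) (fun _ => v t) x
  have hrow : ∀ (ψ : (n → k) →ₗ[k] k) (z : n → k), ∑ t, ψ (Pi.single t 1) * z t = ψ z := by
    intro ψ z
    conv_rhs => rw [← Finset.univ_sum_single z]
    rw [map_sum]
    refine Finset.sum_congr rfl fun t _ => ?_
    have : (Pi.single t (z t) : n → k) = z t • (Pi.single t 1 : n → k) := by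
      rw [← Pi.single_smul, smul_eq_mul, mul_one]
    rw [this, map_smul, smul_eq_mul, mul_comm]
  have hPQ : ∀ (A : Matrix n n k) (x y : Fin r ⊕ Unit), (P * A * Q) x y =
      (Sum.elim P0 (fun _ => φ) x) (A *ᵥ (Sum.elim q (fun _ => v) y)) := by
    intro A x y
    rw [Matrix.mul_assoc, Matrix.mul_apply]
    have h1 : ∀ t, (A * Q) t y = (A *ᵥ (Sum.elim q (fun _ => v) y)) t := by
      intro t
      rw [Matrix.mul_apply]
      change _ = ∑ s, A t s * (Sum.elim q (fun _ => v) y) s
      refine Finset.sum_congr rfl fun s _ => ?_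
      rcases y with y | y <;> rfl
    simp only [h1]
    rw [← hrow (Sum.elim P0 (fun _ => φ) x)]
    refine Finset.sum_congr rfl fun t _ => ?_
    rcases x with x | x <;> rfl
  -- the polynomial function
  let PC : Matrix (Fin r ⊕ Unit) n (MvPolynomial (n × n) k) := Matrix.of fun x t => C (P x t)
  let QC : Matrix n (Fin r ⊕ Unit) (MvPolynomial (n × n) k) := Matrix.of fun x t => C (Q x t)
  let F : MvPolynomial (n × n) k := (PC * (Matrix.mvPolynomialX n n k) ^ i * QC).det
  have hF0 : ∀ A : Matrix n n k, (∀ i, (A ^ i).rank ≤ (J ^ i).rank) →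
      eval (fun x => A x.1 x.2) F = 0 := by
    intro A hA
    have h1 : eval (fun x => A x.1 x.2) F = (P * A ^ i * Q).det := by
      change eval (fun x : n × n => A x.1 x.2) (Matrix.det _) = _
      rw [RingHom.map_det]
      congr 1
      rw [RingHom.mapMatrix_apply, Matrix.map_mul, Matrix.map_mul]
      have e1 : PC.map
          (eval fun x => A x.1 x.2) = P := by
        ext x y; exact eval_C _
      have e2 : QC.map
          (eval fun x => A x.1 x.2) = Q := by
        ext x y; exact eval_C _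
      have e3 : ((Matrix.mvPolynomialX n n k) ^ i).map (eval fun x => A x.1 x.2) = A ^ i := by
        have e4 : ((Matrix.mvPolynomialX n n k)).map (eval fun x => A x.1 x.2) = A := by
          ext x y; simp
        have e5 := map_pow (RingHom.mapMatrix (eval fun x : n × n => A x.1 x.2))
          (Matrix.mvPolynomialX n n k) i
        rw [RingHom.mapMatrix_apply, RingHom.mapMatrix_apply, e4] at e5
        exact e5
      rw [e1, e2, e3]
    rw [h1]
    by_contra hdet
    have h2 := Matrix.rank_of_isUnit _ ((Matrix.isUnit_iff_isUnit_det _).2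
      (isUnit_iff_ne_zero.2 hdet))
    have h3 : (P * A ^ i * Q).rank ≤ (A ^ i).rank :=
      (Matrix.rank_mul_le_left _ _).trans (Matrix.rank_mul_le_right _ _)
    have h4 := hA i
    rw [hrank] at h4
    rw [Fintype.card_sum, Fintype.card_fin, Fintype.card_unit] at h2
    omega
  have h1 := h F hF0
  rw [← (snd_aeval (fun x : n × n => J x.1 x.2) (fun x => a x.1 x.2) F).2] at h1
  have h2 : aeval (fun s : n × n => (TrivSqZeroExt.inl (J s.1 s.2) +
      TrivSqZeroExt.inr (a s.1 s.2) : DualNumber k)) F =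
      (iL (P * J ^ i * Q) + iR (P * dpow J a i * Q)).det := by
    change aeval _ (Matrix.det _) = _
    rw [AlgHom.map_det]
    congr 1
    rw [AlgHom.mapMatrix_apply, Matrix.map_mul, Matrix.map_mul]
    have e1 : PC.map
        (aeval fun s : n × n => (TrivSqZeroExt.inl (J s.1 s.2) +
          TrivSqZeroExt.inr (a s.1 s.2) : DualNumber k)) = iL P := by
      refine dual_ext (fun x y => ?_) fun x y => ?_ <;> simp [PC, TrivSqZeroExt.algebraMap_eq_inl]
    have e2 : QC.map
        (aeval fun s : n × n => (TrivSqZeroExt.inl (J s.1 s.2) +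
          TrivSqZeroExt.inr (a s.1 s.2) : DualNumber k)) = iL Q := by
      refine dual_ext (fun x y => ?_) fun x y => ?_ <;> simp [QC, TrivSqZeroExt.algebraMap_eq_inl]
    have e3 : ((Matrix.mvPolynomialX n n k) ^ i).map
        (aeval fun s : n × n => (TrivSqZeroExt.inl (J s.1 s.2) +
          TrivSqZeroExt.inr (a s.1 s.2) : DualNumber k)) =
        iL (J ^ i) + iR (dpow J a i) := by
      have e4 : ((Matrix.mvPolynomialX n n k)).map
          (aeval fun s : n × n => (TrivSqZeroExt.inl (J s.1 s.2) +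
            TrivSqZeroExt.inr (a s.1 s.2) : DualNumber k)) =
          iL J + iR a := by
        refine dual_ext (fun x y => ?_) fun x y => ?_ <;> simp
      have e5 := map_pow (AlgHom.mapMatrix (aeval fun s : n × n =>
        (TrivSqZeroExt.inl (J s.1 s.2) + TrivSqZeroExt.inr (a s.1 s.2) : DualNumber k)))
        (Matrix.mvPolynomialX n n k) i
      rw [AlgHom.mapMatrix_apply, AlgHom.mapMatrix_apply, e4, pow_dual] at e5
      exact e5
    rw [e1, e2, e3, Matrix.mul_add, Matrix.add_mul, mul_inl_inl, mul_inl_inl, mul_inl_inr,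
      mul_inr_inl]
  rw [h2, det_dual] at h1
  · rw [hPQ] at h1
    exact hφy h1
  · ext x y
    rw [hPQ]
    rcases x with x | x <;> rcases y with y | y
    · simp only [Sum.elim_inl]
      rw [hP0, Matrix.fromBlocks_apply₁₁, Matrix.one_apply]
    · simp only [Sum.elim_inl, Sum.elim_inr]
      rw [hv, map_zero, Matrix.fromBlocks_apply₁₂]
      rfl
    · simp only [Sum.elim_inl, Sum.elim_inr]
      rw [hφ, Matrix.fromBlocks_apply₂₁]
      rfl
    · simp only [Sum.elim_inr]
      rw [hφ, Matrix.fromBlocks_apply₂₂]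
      rfl

end Pool.Agent.Lib.D13
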