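import Pool.Agent.Lib.D13.PurGen
import Pool.Agent.Lib.D13.PurFam
import Pool.Agent.Lib.D13.PurOrb

/-!
# MP_5dcbc3_ag: how to use the purity theorem

`T` a maximal bad triple whose first matrix has ranks of powers `ρ`, in the closure of the
triples `(A, p(A), q(A))`: there is a large family of commuting nilpotent triples through `T` with
the same first matrix.
-/

namespace Pool.Agent.Lib.D13

open Matrix MvPolynomial Pool.Agent.Lib.Q5dc Pool.Agent.Lib.D7 Pur

universe u

/-- generic form: the family `q`, with the same first matrix, contains every polynomial which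
vanishes at the maximal bad triples with the same first matrix and with `g ≠ 0` -/
theorem purity_gen {k : Type u} [Field k] [IsAlgClosed k] [CharZero k] {n : Type} [Fintype n]
    [DecidableEq n] {ρ : ℕ → ℕ} {T : Fin 3 → Matrix n n k} (hT : MaxR ρ T)
    (hr : ∀ i, (T 0 ^ i).rank = ρ i) (hi : Indec T) (hP : PCl T) (hn : 2 ≤ Fintype.card n)
    (g : MvPolynomial (Fin 3 × n × n) k) (hg : eval (co T) g ≠ 0) :
    ∃ q : Ideal (MvPolynomial (Fin 3 × n × n) k), q.IsPrime ∧ (∀ F ∈ q, eval (co T) F = 0) ∧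
      (∀ T' : Fin 3 → Matrix n n k, (∀ F ∈ q, eval (co T') F = 0) → CN T' ∧ T' 0 = T 0) ∧
      (∀ F : MvPolynomial (Fin 3 × n × n) k,
        (∀ T' : Fin 3 → Matrix n n k, MaxR ρ T' → T' 0 = T 0 → eval (co T') g ≠ 0 →
          eval (co T') F = 0) → F ∈ q) ∧
      ((Module.finrank k (cen (T 0)) + Fintype.card n - 2 : ℕ) : WithBot ℕ∞) ≤
        ringKrullDim (MvPolynomial (Fin 3 × n × n) k ⧸ q) := by
  have : Infinite k := IsAlgClosed.instInfinite
  obtain ⟨I, hI, hIT, hIC, hId⟩ := purity hT.cn hi hP hn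
  exact gen_of hT hr hn (fun a h => orbit_tangent' (hT.cn.2 0) h) I hIT hIC hId g hg

/-- tangent form: if near `T` all the maximal bad triples with the same first matrix satisfy the
equations `F j = 0`, then the solution space of the linear equations is large -/
theorem purity_use {k : Type u} [Field k] [IsAlgClosed k] [CharZero k] {n : Type} [Fintype n]
    [DecidableEq n] {ρ : ℕ → ℕ} {T : Fin 3 → Matrix n n k} (hT : MaxR ρ T)
    (hr : ∀ i, (T 0 ^ i).rank = ρ i) (hi : Indec T) (hP : PCl T) (hn : 2 ≤ Fintype.card n)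
    {κ : Type*} (F : κ → MvPolynomial (Fin 3 × n × n) k) (g : MvPolynomial (Fin 3 × n × n) k)
    (hg : eval (co T) g ≠ 0)
    (hF : ∀ T' : Fin 3 → Matrix n n k, MaxR ρ T' → T' 0 = T 0 → eval (co T') g ≠ 0 →
      ∀ j, eval (co T') (F j) = 0)
    (V : Submodule k (Matrix n n k × Matrix n n k))
    (hV : ∀ b c, T 0 * b = b * T 0 → T 0 * c = c * T 0 →
      b * T 2 + T 1 * c = c * T 1 + T 2 * b → (∀ j, dif (F j) T b c = 0) → (b, c) ∈ V) :
    Module.finrank k (cen (T 0)) + Fintype.card n ≤ Module.finrank k V + 2 := by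
  obtain ⟨q, hq, hqT, hqC, hqF, hqd⟩ := purity_gen hT hr hi hP hn g hg
  have h1 := use_of q hqT hqC F (fun j => hqF _ fun T' h1 h2 h3 => hF T' h1 h2 h3 j) V hV
  have h2 : Module.finrank k (cen (T 0)) + Fintype.card n - 2 ≤ Module.finrank k V := by
    exact_mod_cast hqd.trans h1
  omega

/-- **P5K** generic point form of the purity theorem -/
theorem purity_point {k : Type u} [Field k] [IsAlgClosed k] [CharZero k] {n : Type} [Fintype n]
    [DecidableEq n] {T : Fin 3 → Matrix n n k} (hT : CN T) (hi : Indec T) (hP : PCl T)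
    (hn : 2 ≤ Fintype.card n) :
    ∃ (K : Type u) (_ : Field K) (_ : IsAlgClosed K) (_ : Algebra k K)
      (T' : Fin 3 → Matrix n n K), CN T' ∧
      (∀ F : MvPolynomial (Fin 3 × n × n) k, aeval (co T') F = 0 → eval (co T) F = 0) ∧
      ((Fintype.card n * Fintype.card n + Fintype.card n - 2 : ℕ) : ℕ∞) ≤
        rk k (Set.range (co T')) := by
  obtain ⟨I, hI, hIT, hIC, hId⟩ := purity hT hi hP hn
  obtain ⟨K, i1, i2, i3, T', h1, h2, h3⟩ := exists_generic I hIC hId
  exact ⟨K, i1, i2, i3, T', h1, fun F hF => hIT F ((h3 F).1 hF), h2⟩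

/-- **P5J** generic point form with a fixed first matrix -/
theorem purity_pointJ {k : Type u} [Field k] [IsAlgClosed k] [CharZero k] {n : Type} [Fintype n]
    [DecidableEq n] {ρ : ℕ → ℕ} {T : Fin 3 → Matrix n n k} (hT : MaxR ρ T)
    (hr : ∀ i, (T 0 ^ i).rank = ρ i) (hi : Indec T) (hP : PCl T) (hn : 2 ≤ Fintype.card n)
    (g : MvPolynomial (Fin 3 × n × n) k) (hg : eval (co T) g ≠ 0) :
    ∃ (K : Type u) (_ : Field K) (_ : IsAlgClosed K) (_ : Algebra k K)
      (T' : Fin 3 → Matrix n n K), CN T' ∧ T' 0 = (T 0).map (algebraMap k K) ∧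
      (∀ F : MvPolynomial (Fin 3 × n × n) k, aeval (co T') F = 0 → eval (co T) F = 0) ∧
      (∀ F : MvPolynomial (Fin 3 × n × n) k,
        (∀ T' : Fin 3 → Matrix n n k, MaxR ρ T' → T' 0 = T 0 → eval (co T') g ≠ 0 →
          eval (co T') F = 0) → aeval (co T') F = 0) ∧
      ((Module.finrank k (cen (T 0)) + Fintype.card n - 2 : ℕ) : ℕ∞) ≤
        rk k (Set.range (co T')) := by
  obtain ⟨q, hq, hqT, hqC, hqF, hqd⟩ := purity_gen hT hr hi hP hn g hg
  obtain ⟨K, i1, i2, i3, T', h1, h2, h3⟩ := exists_generic q (fun T' h => (hqC T' h).1) hqd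
  exact ⟨K, i1, i2, i3, T', h1, generic_fst hqC h3, fun F hF => hqT F ((h3 F).1 hF),
    fun F hF => (h3 F).2 (hqF F hF), h2⟩

end Pool.Agent.Lib.D13
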