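import Pool.Agent.Lib.D13.AutoNP
import Pool.Agent.Lib.D13.AutoTr
import Pool.Agent.Lib.D13.AutoStart
import Pool.Agent.Lib.D13.PurUse
import Pool.Agent.Lib.D13.GenTr

/-!
# MP_5dcbc3_ag: the purity theorem without the splitting hypothesis

`T` a maximal bad triple of minimal size whose first matrix has ranks of powers `ρ` and at most
`d / 2` Jordan blocks: there is a large family of commuting nilpotent triples through `T` with the
same first matrix.
-/

namespace Pool.Agent.Lib.D13

open Matrix MvPolynomial Pool.Agent.Lib.Q5dc Pool.Agent.Lib.D7 Pur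

universe u

namespace Auto

section

variable {k : Type u} [Field k] {n : Type} [Fintype n] [DecidableEq n] {m : Type} [Fintype m]
  [DecidableEq m]

/-- algebra isomorphisms preserve the dimension of the centralizer -/
theorem finrank_cen_map (Φ : Matrix n n k ≃ₐ[k] Matrix m m k) (M : Matrix n n k) :
    Module.finrank k (cen (Φ M)) = Module.finrank k (cen M) := by
  have h2 : (cen M).map Φ.toLinearEquiv.toLinearMap = cen (Φ M) := by
    ext Y
    constructor
    · rintro ⟨X, hX, rfl⟩
      have hX' : M * X = X * M := hX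
      show Φ M * Φ X = Φ X * Φ M
      rw [← map_mul, hX', map_mul]
    · intro hY
      have hY' : Φ M * Y = Y * Φ M := hY
      refine ⟨Φ.symm Y, ?_, Φ.apply_symm_apply Y⟩
      show M * Φ.symm Y = Φ.symm Y * M
      apply Φ.injective
      rw [map_mul, map_mul, Φ.apply_symm_apply, hY']
  rw [← h2]
  exact LinearEquiv.finrank_map_eq Φ.toLinearEquiv _

/-- the common kernel of the small triple -/
theorem finrank_cker_le {T : Fin 3 → Matrix (n ⊕ Unit) (n ⊕ Unit) k}
    (he : ∀ i, T i *ᵥ lv = 0) :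
    Module.finrank k (cker (mT (cz T))) + (T 0).rank ≤ Fintype.card n + 1 := by
  have h0 : cker (mT (cz T)) ≤ LinearMap.ker (mT (cz T) 0).mulVecLin := by
    intro u hu
    exact hu 0
  have h1 := Submodule.finrank_mono h0
  have h2 := LinearMap.finrank_range_add_finrank_ker (mT (cz T) 0).mulVecLin
  rw [Module.finrank_fintype_fun_eq_card] at h2
  let π : (n ⊕ Unit → k) →ₗ[k] (n → k) := LinearMap.funLeft k k Sum.inl
  let φ := π.domRestrict (LinearMap.range (T 0).mulVecLin)
  have h3 := LinearMap.finrank_range_add_finrank_ker φ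
  have h4 : LinearMap.range φ ≤ LinearMap.range (mT (cz T) 0).mulVecLin := by
    rintro _ ⟨⟨_, v, rfl⟩, rfl⟩
    refine ⟨fun a => v (Sum.inl a), ?_⟩
    funext a
    show (mT (cz T) 0 *ᵥ fun a => v (Sum.inl a)) a = (T 0 *ᵥ v) (Sum.inl a)
    have h5 := col_of_lv (he 0) (Sum.inl a)
    simp only [Matrix.mulVec, dotProduct, Fintype.sum_sum_type, Finset.univ_unique,
      Finset.sum_singleton]
    have h6 : T 0 (Sum.inl a) (Sum.inr default) = 0 := h5
    rw [h6, zero_mul, add_zero]
    rfl
  have h5 := Submodule.finrank_mono h4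
  have h6 : Module.finrank k (LinearMap.ker φ) ≤ 1 := by
    let θ : LinearMap.ker φ →ₗ[k] k :=
      { toFun := fun v => v.1.1 (Sum.inr ())
        map_add' := fun _ _ => rfl
        map_smul' := fun _ _ => rfl }
    have h7 : Function.Injective θ := by
      rw [injective_iff_map_eq_zero]
      rintro ⟨⟨v, hv⟩, hv'⟩ hv0
      have h8 : v (Sum.inr ()) = 0 := hv0
      have h9 : φ ⟨v, hv⟩ = 0 := hv'
      have h10 : v = 0 := by
        funext a
        rcases a with a | a
        · exact congrFun h9 a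
        · exact h8
      subst h10
      rfl
    have h8 := LinearMap.finrank_le_finrank_of_injective h7
    rwa [Module.finrank_self] at h8
  have h7 : (T 0).rank = Module.finrank k (LinearMap.range (T 0).mulVecLin) := rfl
  omega

end

section

variable {k : Type u} [Field k] [IsAlgClosed k] {n : Type} [Fintype n] [DecidableEq n]

/-- tangent form -/
theorem Concl.use {ρ : ℕ → ℕ} {T : Fin 3 → Matrix n n k} {N : ℕ} (h : Concl ρ T N)
    {κ : Type*} (F : κ → MvPolynomial (Fin 3 × n × n) k) (g : MvPolynomial (Fin 3 × n × n) k)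
    (hg : eval (co T) g ≠ 0)
    (hF : ∀ T' : Fin 3 → Matrix n n k, MaxR ρ T' → T' 0 = T 0 → eval (co T') g ≠ 0 →
      ∀ j, eval (co T') (F j) = 0)
    (V : Submodule k (Matrix n n k × Matrix n n k))
    (hV : ∀ b c, T 0 * b = b * T 0 → T 0 * c = c * T 0 →
      b * T 2 + T 1 * c = c * T 1 + T 2 * b → (∀ j, dif (F j) T b c = 0) → (b, c) ∈ V) :
    N ≤ Module.finrank k V := by
  obtain ⟨q, hq, hqT, hqC, hqF, hqd⟩ := h g hg
  have h1 := use_of q hqT hqC F (fun j => hqF _ fun T' h1 h2 h3 => hF T' h1 h2 h3 j) V hV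
  exact_mod_cast hqd.trans h1

/-- generic point form -/
theorem Concl.point {ρ : ℕ → ℕ} {T : Fin 3 → Matrix n n k} {N : ℕ} (h : Concl ρ T N)
    (g : MvPolynomial (Fin 3 × n × n) k) (hg : eval (co T) g ≠ 0) :
    ∃ (K : Type u) (_ : Field K) (_ : IsAlgClosed K) (_ : Algebra k K)
      (T' : Fin 3 → Matrix n n K), CN T' ∧ T' 0 = (T 0).map (algebraMap k K) ∧
      (∀ F : MvPolynomial (Fin 3 × n × n) k, aeval (co T') F = 0 → eval (co T) F = 0) ∧
      (∀ F : MvPolynomial (Fin 3 × n × n) k,
        (∀ T' : Fin 3 → Matrix n n k, MaxR ρ T' → T' 0 = T 0 → eval (co T') g ≠ 0 →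
          eval (co T') F = 0) → aeval (co T') F = 0) ∧
      (N : ℕ∞) ≤ rk k (Set.range (co T')) := by
  obtain ⟨q, hq, hqT, hqC, hqF, hqd⟩ := h g hg
  obtain ⟨K, i1, i2, i3, T', h1, h2, h3⟩ := exists_generic q (fun T' h => (hqC T' h).1) hqd
  exact ⟨K, i1, i2, i3, T', h1, generic_fst hqC h3, fun F hF => hqT F ((h3 F).1 hF),
    fun F hF => (h3 F).2 (hqF F hF), h2⟩

end

/-- **splitting is automatic** -/
theorem concl {k : Type u} [Field k] [IsAlgClosed k] [CharZero k] {n : Type} [Fintype n]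
    [DecidableEq n] (hall : HALL k (Fintype.card n)) {ρ : ℕ → ℕ} {T : Fin 3 → Matrix n n k}
    (hT : MaxR ρ T) (hr : ∀ i, (T 0 ^ i).rank = ρ i) (hn : 2 ≤ Fintype.card n)
    (hb : 2 * (Fintype.card n - ρ 1) ≤ Fintype.card n) :
    Concl ρ T (Module.finrank k (cen (T 0)) + Fintype.card n - 2) := by
  classical
  have hinf : Infinite k := IsAlgClosed.instInfinite
  by_cases hP : PCl T
  · intro g hg
    exact purity_gen hT hr (MaxR.isIndec hall hT) hP hn g hg
  · obtain ⟨d, hd⟩ : ∃ d, Fintype.card n = d + 1 := ⟨Fintype.card n - 1, by omega⟩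
    obtain ⟨Φ, hΦ⟩ := exists_flag hT.cn hd
    have hc : Fintype.card n = Fintype.card (Fin d ⊕ Unit) := by simp [hd]
    refine Concl.transport Φ hc ?_
    rw [← finrank_cen_map Φ (T 0)]
    have hT2 : MaxR ρ fun i => Φ (T i) := maxR_map Φ hc hT
    have hr2 : ∀ i, (Φ (T 0) ^ i).rank = ρ i := by
      intro i
      rw [← map_pow, rank_map Φ hc, hr]
    have hlv : (Pi.single (Sum.inr ()) 1 : Fin d ⊕ Unit → k) = lv := by
      funext a
      rcases a with a | a
      · simp [lv]
      · cases a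
        simp [lv]
    have he : ∀ i, Φ (T i) *ᵥ lv = 0 := by
      intro i
      rw [← hlv]
      exact hΦ i
    have hP2 : ¬ PCl fun i => Φ (T i) := by
      intro h
      apply hP
      have h1 := h.mapEquiv Φ.symm
      simpa using h1
    obtain ⟨I, hI, hI1, hI2, hI3⟩ := start (k := k) (n := Fin d)
    have hrk : (Φ (T 0)).rank = ρ 1 := by
      have h1 := hr2 1
      rwa [pow_one] at h1
    have hs := finrank_cker_le (T := fun i => Φ (T i)) he
    have hs' : Module.finrank k (cker (mT (cz fun i => Φ (T i)))) ≤ Fintype.card n - ρ 1 := by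
      have h1 : (Φ (T 0)).rank ≤ Fintype.card (Fin d ⊕ Unit) := Matrix.rank_le_card_width _
      simp only [Fintype.card_fin] at hs
      omega
    obtain ⟨J, hJ, hJT, hJC, hJd⟩ := not_pcl_family (n := Fin d) (by rw [← hc]; exact hall) I
      hI1 hI2 hI3 (by rw [Fintype.card_fin]; omega) hT2.cn he hP2
      (s := Fintype.card n - ρ 1) (N := d * d + 3 * d - (Fintype.card n - ρ 1)) hs' (by
        rw [Fintype.card_fin]
        have h1 : Fintype.card n - ρ 1 ≤ d * d + 3 * d := by omega
        omega)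
    have hlv0 : (lv : Fin d ⊕ Unit → k) ≠ 0 := by
      intro h
      have h1 := congrFun h (Sum.inr ())
      simp [lv] at h1
    have hk := finrank_kil hlv0 (he 0)
    rw [hrk, ← hc, hd] at hk
    intro g hg
    exact gen_ofW hT2 hr2 (fun a h => orbit_tangent' (hT2.cn.2 0) h) (kil lv) J hJT
      (fun T' h => (hJC T' h).1) (fun T' h => (hJC T' h).2 0) (by
        refine le_trans ?_ hJd
        have h1 : (Φ (T 0)).rank ≤ Fintype.card (Fin d ⊕ Unit) := Matrix.rank_le_card_width _
        rw [hrk, ← hc, hd] at h1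
        have h2 : (d + 1) * (d + 1) = d * d + 2 * d + 1 := by ring
        rw [h2] at hk
        rw [hd] at hb ⊢
        norm_cast
        omega) g hg

end Auto

section

variable {k : Type u} [Field k] [IsAlgClosed k] [CharZero k] {n : Type} [Fintype n]
  [DecidableEq n]

/-- generic form: the family `q`, with the same first matrix, contains every polynomial which
vanishes at the maximal bad triples with the same first matrix and with `g ≠ 0` -/
theorem auto_gen (hall : HALL k (Fintype.card n)) {ρ : ℕ → ℕ} {T : Fin 3 → Matrix n n k}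
    (hT : MaxR ρ T) (hr : ∀ i, (T 0 ^ i).rank = ρ i) (hn : 2 ≤ Fintype.card n)
    (hb : 2 * (Fintype.card n - ρ 1) ≤ Fintype.card n)
    (g : MvPolynomial (Fin 3 × n × n) k) (hg : eval (co T) g ≠ 0) :
    ∃ q : Ideal (MvPolynomial (Fin 3 × n × n) k), q.IsPrime ∧ (∀ F ∈ q, eval (co T) F = 0) ∧
      (∀ T' : Fin 3 → Matrix n n k, (∀ F ∈ q, eval (co T') F = 0) → CN T' ∧ T' 0 = T 0) ∧
      (∀ F : MvPolynomial (Fin 3 × n × n) k,
        (∀ T' : Fin 3 → Matrix n n k, MaxR ρ T' → T' 0 = T 0 → eval (co T') g ≠ 0 →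
          eval (co T') F = 0) → F ∈ q) ∧
      ((Module.finrank k (cen (T 0)) + Fintype.card n - 2 : ℕ) : WithBot ℕ∞) ≤
        ringKrullDim (MvPolynomial (Fin 3 × n × n) k ⧸ q) :=
  Auto.concl hall hT hr hn hb g hg

/-- tangent form: if near `T` all the maximal bad triples with the same first matrix satisfy the
equations `F j = 0`, then the solution space of the linear equations is large -/
theorem auto_use (hall : HALL k (Fintype.card n)) {ρ : ℕ → ℕ} {T : Fin 3 → Matrix n n k}
    (hT : MaxR ρ T) (hr : ∀ i, (T 0 ^ i).rank = ρ i) (hn : 2 ≤ Fintype.card n)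
    (hb : 2 * (Fintype.card n - ρ 1) ≤ Fintype.card n)
    {κ : Type*} (F : κ → MvPolynomial (Fin 3 × n × n) k) (g : MvPolynomial (Fin 3 × n × n) k)
    (hg : eval (co T) g ≠ 0)
    (hF : ∀ T' : Fin 3 → Matrix n n k, MaxR ρ T' → T' 0 = T 0 → eval (co T') g ≠ 0 →
      ∀ j, eval (co T') (F j) = 0)
    (V : Submodule k (Matrix n n k × Matrix n n k))
    (hV : ∀ b c, T 0 * b = b * T 0 → T 0 * c = c * T 0 →
      b * T 2 + T 1 * c = c * T 1 + T 2 * b → (∀ j, dif (F j) T b c = 0) → (b, c) ∈ V) :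
    Module.finrank k (cen (T 0)) + Fintype.card n ≤ Module.finrank k V + 2 := by
  have h1 := (Auto.concl hall hT hr hn hb).use F g hg hF V hV
  omega

/-- generic point form with a fixed first matrix -/
theorem auto_point (hall : HALL k (Fintype.card n)) {ρ : ℕ → ℕ} {T : Fin 3 → Matrix n n k}
    (hT : MaxR ρ T) (hr : ∀ i, (T 0 ^ i).rank = ρ i) (hn : 2 ≤ Fintype.card n)
    (hb : 2 * (Fintype.card n - ρ 1) ≤ Fintype.card n)
    (g : MvPolynomial (Fin 3 × n × n) k) (hg : eval (co T) g ≠ 0) :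
    ∃ (K : Type u) (_ : Field K) (_ : IsAlgClosed K) (_ : Algebra k K)
      (T' : Fin 3 → Matrix n n K), CN T' ∧ T' 0 = (T 0).map (algebraMap k K) ∧
      (∀ F : MvPolynomial (Fin 3 × n × n) k, aeval (co T') F = 0 → eval (co T) F = 0) ∧
      (∀ F : MvPolynomial (Fin 3 × n × n) k,
        (∀ T' : Fin 3 → Matrix n n k, MaxR ρ T' → T' 0 = T 0 → eval (co T') g ≠ 0 →
          eval (co T') F = 0) → aeval (co T') F = 0) ∧
      ((Module.finrank k (cen (T 0)) + Fintype.card n - 2 : ℕ) : ℕ∞) ≤
        rk k (Set.range (co T')) :=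
  (Auto.concl hall hT hr hn hb).point g hg

/-- generic point form, the generic point is a maximal bad triple -/
theorem auto_maxR (hall : HALL k (Fintype.card n)) {ρ : ℕ → ℕ} {T : Fin 3 → Matrix n n k}
    (hT : MaxR ρ T) (hr : ∀ i, (T 0 ^ i).rank = ρ i) (hn : 2 ≤ Fintype.card n)
    (hb : 2 * (Fintype.card n - ρ 1) ≤ Fintype.card n) :
    ∃ (K : Type u) (_ : Field K) (_ : IsAlgClosed K) (_ : CharZero K) (_ : Algebra k K)
      (T' : Fin 3 → Matrix n n K), MaxR ρ T' ∧ T' 0 = (T 0).map (algebraMap k K) ∧ Spz T' T ∧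
      ((Module.finrank k (cen (T 0)) + Fintype.card n - 2 : ℕ) : ℕ∞) ≤
        rk k (Set.range (co T')) := by
  obtain ⟨K, i1, i2, i3, T', h1, h2, h3, -, h5⟩ := auto_point hall hT hr hn hb 1 (by simp)
  exact ⟨K, i1, i2, charZero_of_injective_algebraMap (algebraMap k K).injective, i3, T',
    MaxR.transfer hT h3 h1, h2, h3, h5⟩

end

end Pool.Agent.Lib.D13
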