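import Pool.Agent.Lib.D13.PurCut

/-!
# MP_5dcbc3_ag: families of maximal bad triples with a fixed first matrix, in a linear subspace
-/

namespace Pool.Agent.Lib.D13

open Matrix MvPolynomial Pool.Agent.Lib.Q5dc Pool.Agent.Lib.D7 Pur

universe u

namespace Auto

section

variable {k : Type u} [Field k] {n : Type} [Fintype n] [DecidableEq n]

/-- linear forms separating the points of a subspace -/
theorem exists_forms (R : Submodule k (Matrix n n k)) :
    ∃ l : Fin (Module.finrank k R) → (Matrix n n k →ₗ[k] k),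
      ∀ a ∈ R, (∀ j, l j a = 0) → a = 0 := by
  obtain ⟨π, hπ⟩ := LinearMap.exists_leftInverse_of_injective R.subtype (Submodule.ker_subtype _)
  let b := Module.finBasis k R
  refine ⟨fun j => (b.coord j).comp π, ?_⟩
  intro a ha hl
  have h1 : π a = ⟨a, ha⟩ := by
    have := congrArg (fun φ => φ (⟨a, ha⟩ : R)) hπ
    exact this
  have h2 : (⟨a, ha⟩ : R) = 0 := by
    refine b.ext_elem fun j => ?_
    have h3 := hl j
    simp only [LinearMap.comp_apply, h1, Module.Basis.coord_apply] at h3
    rw [h3, map_zero]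
    rfl
  exact congrArg Subtype.val h2

/-- linear forms cutting out a subspace -/
theorem exists_eqs (W : Submodule k (Matrix n n k)) :
    ∃ (m : ℕ) (l : Fin m → (Matrix n n k →ₗ[k] k)), (∀ j, ∀ a ∈ W, l j a = 0) ∧
      ∀ a, (∀ j, l j a = 0) → a ∈ W := by
  let b := Module.finBasis k (Matrix n n k ⧸ W)
  refine ⟨_, fun j => (b.coord j).comp W.mkQ, ?_, ?_⟩
  · intro j a ha
    rw [LinearMap.comp_apply, Submodule.mkQ_apply, (Submodule.Quotient.mk_eq_zero W).2 ha,
      map_zero]
  · intro a ha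
    rw [← Submodule.Quotient.mk_eq_zero W]
    refine b.ext_elem fun j => ?_
    have h3 := ha j
    simp only [LinearMap.comp_apply, Submodule.mkQ_apply, Module.Basis.coord_apply] at h3
    rw [h3, map_zero]
    rfl

/-- `Pur.gen_of` for families whose first matrix lies in a subspace `W` -/
theorem gen_ofW [IsAlgClosed k] {ρ : ℕ → ℕ} {T : Fin 3 → Matrix n n k} (hT : MaxR ρ T)
    (hr : ∀ i, (T 0 ^ i).rank = ρ i)
    (horb : ∀ a : Matrix n n k, (∀ F : MvPolynomial (n × n) k,
      (∀ A : Matrix n n k, (∀ i, (A ^ i).rank ≤ (T 0 ^ i).rank) →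
        eval (fun x => A x.1 x.2) F = 0) →
      ∑ x, eval (fun x => T 0 x.1 x.2) (pderiv x F) * a x.1 x.2 = 0) →
      ∃ g : Matrix n n k, a = g * T 0 - T 0 * g)
    (W : Submodule k (Matrix n n k))
    (I : Ideal (MvPolynomial (Fin 3 × n × n) k)) [hI : I.IsPrime]
    (hIT : ∀ F ∈ I, eval (co T) F = 0)
    (hIC : ∀ T' : Fin 3 → Matrix n n k, (∀ F ∈ I, eval (co T') F = 0) → CN T')
    (hIW : ∀ T' : Fin 3 → Matrix n n k, (∀ F ∈ I, eval (co T') F = 0) → T' 0 ∈ W) {N : ℕ}
    (hId : ((N + Module.finrank k (LinearMap.range (adm (T 0)) ⊓ W : Submodule k _) : ℕ) :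
      WithBot ℕ∞) ≤ ringKrullDim (MvPolynomial (Fin 3 × n × n) k ⧸ I))
    (g : MvPolynomial (Fin 3 × n × n) k) (hg : eval (co T) g ≠ 0) :
    ∃ q : Ideal (MvPolynomial (Fin 3 × n × n) k), q.IsPrime ∧ (∀ F ∈ q, eval (co T) F = 0) ∧
      (∀ T' : Fin 3 → Matrix n n k, (∀ F ∈ q, eval (co T') F = 0) → CN T' ∧ T' 0 = T 0) ∧
      (∀ F : MvPolynomial (Fin 3 × n × n) k,
        (∀ T' : Fin 3 → Matrix n n k, MaxR ρ T' → T' 0 = T 0 → eval (co T') g ≠ 0 →
          eval (co T') F = 0) → F ∈ q) ∧
      (N : WithBot ℕ∞) ≤ ringKrullDim (MvPolynomial (Fin 3 × n × n) k ⧸ q) := by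
  classical
  obtain ⟨H, hH0, hH⟩ := nbhd0 hT hr
  obtain ⟨l, hl⟩ := exists_forms (LinearMap.range (adm (T 0)) ⊓ W)
  obtain ⟨mW, lW, hlW, hlW'⟩ := exists_eqs W
  let f : n × n → Fin 3 × n × n := fun s => (0, s.1, s.2)
  have hef : ∀ (T' : Fin 3 → Matrix n n k) (F : MvPolynomial (n × n) k),
      eval (co T') (rename f F) = eval (fun s => T' 0 s.1 s.2) F := by
    intro T' F
    rw [eval_rename]
    rfl
  obtain ⟨q, hq, hIq, hlq, hqT, hqd⟩ := cut I (co T) hIT
    (fun j => rename f (lform (T 0) (l j)))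
    (fun j => by rw [hef]; exact eval_lform _ _) hId
  have hqC : ∀ T' : Fin 3 → Matrix n n k, (∀ F ∈ q, eval (co T') F = 0) → CN T' :=
    fun T' h => hIC T' fun F hF => h F (hIq hF)
  have hqW : ∀ T' : Fin 3 → Matrix n n k, (∀ F ∈ q, eval (co T') F = 0) → T' 0 ∈ W :=
    fun T' h => hIW T' fun F hF => h F (hIq hF)
  have hHq : H ∉ q := fun h => hH0 (hqT H h)
  have hgq : g ∉ q := fun h => hg (hqT g h)
  have hTW : T 0 ∈ W := hqW T hqT
  -- linear forms vanishing on `W`
  have hle : ∀ (A : Matrix n n k) (l : Matrix n n k →ₗ[k] k),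
      eval (fun s => A s.1 s.2) (lform (T 0) l) = l (A - T 0) := by
    intro A l
    rw [lform, map_sum]
    conv_rhs => rw [Matrix.matrix_eq_sum_single (A - T 0)]
    rw [map_sum, ← Finset.univ_product_univ, Finset.sum_product]
    refine Finset.sum_congr rfl fun i _ => ?_
    rw [map_sum]
    refine Finset.sum_congr rfl fun j _ => ?_
    have h2 : Matrix.single i j ((A - T 0) i j) =
        (A - T 0) i j • (Matrix.single i j (1 : k) : Matrix n n k) := by
      rw [Matrix.smul_single, smul_eq_mul, mul_one]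
    rw [h2, map_smul, smul_eq_mul, mul_comm, map_mul, map_sub, eval_X, eval_C, eval_C,
      Matrix.sub_apply, mul_comm]
  have hWq : ∀ j, rename f (lform (T 0) (lW j)) ∈ q := by
    intro j
    refine mem_of_zeros q fun x hx => ?_
    rw [← co_tr x] at hx ⊢
    rw [hef, hle]
    exact hlW j _ (W.sub_mem (hqW _ hx) hTW)
  -- rank conditions on the first matrix
  have hrank : ∀ F : MvPolynomial (n × n) k,
      (∀ A : Matrix n n k, (∀ i, (A ^ i).rank ≤ (T 0 ^ i).rank) →
        eval (fun x => A x.1 x.2) F = 0) → rename f F ∈ q := by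
    intro F hF
    have h1 : H * rename f F ∈ q := by
      refine mem_of_zeros q fun x hx => ?_
      rw [← co_tr x] at hx ⊢
      rw [map_mul]
      by_cases hHx : eval (co (tr x)) H = 0
      · rw [hHx, zero_mul]
      · obtain ⟨-, h2⟩ := hH (tr x) hHx (hqC _ hx)
        rw [hef, hF (tr x 0) (fun i => by rw [h2, hr]), mul_zero]
    exact (hq.mem_or_mem h1).resolve_left hHq
  -- the first matrix is constant
  have hfix : ∀ s : n × n, X (f s) - C (co T (f s)) ∈ q := by
    intro s
    refine isolated_point q (co T) hqT f ?_ s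
    intro v hv
    have h1 : (Matrix.of fun x y => v (x, y) : Matrix n n k) = 0 := by
      refine hl _ ⟨?_, ?_⟩ fun j => ?_
      · obtain ⟨g, hg⟩ := horb (Matrix.of fun x y => v (x, y)) (by
          intro F hF
          exact hv F (hrank F hF))
        exact ⟨g, hg.symm⟩
      · refine hlW' _ fun j => ?_
        have h2 := hv (lform (T 0) (lW j)) (hWq j)
        rw [← dlform (T 0) (Matrix.of fun x y => v (x, y)) (lW j)]
        exact h2
      · have h2 := hv (lform (T 0) (l j)) (hlq j)
        rw [← dlform (T 0) (Matrix.of fun x y => v (x, y)) (l j)]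
        exact h2
    funext s
    exact congrFun (congrFun h1 s.1) s.2
  refine ⟨q, hq, hqT, ?_, ?_, hqd⟩
  · intro T' hT'
    refine ⟨hqC T' hT', ?_⟩
    ext a b
    have h1 := hT' _ (hfix (a, b))
    rw [map_sub, eval_X, eval_C, sub_eq_zero] at h1
    exact h1
  · intro F hF
    have h1 : H * (g * F) ∈ q := by
      refine mem_of_zeros q fun x hx => ?_
      rw [← co_tr x] at hx ⊢
      rw [map_mul, map_mul]
      by_cases hHx : eval (co (tr x)) H = 0
      · rw [hHx, zero_mul]
      by_cases hgx : eval (co (tr x)) g = 0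
      · rw [hgx, zero_mul, mul_zero]
      have h2 : tr x 0 = T 0 := by
        ext a b
        have h1 := hx _ (hfix (a, b))
        rw [map_sub, eval_X, eval_C, sub_eq_zero] at h1
        exact h1
      rw [hF (tr x) (hH (tr x) hHx (hqC _ hx)).1 h2 hgx, mul_zero, mul_zero]
    exact (hq.mem_or_mem ((hq.mem_or_mem h1).resolve_left hHq)).resolve_left hgq

/-- matrices killing a vector -/
def kil (e : n → k) : Submodule k (Matrix n n k) where
  carrier := {a | a *ᵥ e = 0}
  add_mem' {a b} ha hb := by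
    simp only [Set.mem_ofPred_eq] at *
    rw [Matrix.add_mulVec, ha, hb, add_zero]
  zero_mem' := by simp
  smul_mem' c a ha := by
    simp only [Set.mem_ofPred_eq] at *
    rw [Matrix.smul_mulVec, ha, smul_zero]

theorem mem_kil {e : n → k} {a : Matrix n n k} : a ∈ kil e ↔ a *ᵥ e = 0 := Iff.rfl

/-- the tangent space of the orbit of `J` intersected with the matrices killing `e` -/
theorem finrank_kil {J : Matrix n n k} {e : n → k} (he : e ≠ 0) (hJ : J *ᵥ e = 0) :
    Module.finrank k (LinearMap.range (adm J) ⊓ kil e : Submodule k _) +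
      Module.finrank k (cen J) + J.rank ≤ Fintype.card n * Fintype.card n := by
  -- the matrices `g` with `g e ∈ ker J`
  let φ : Matrix n n k →ₗ[k] (n → k) :=
    { toFun := fun g => J *ᵥ (g *ᵥ e)
      map_add' := fun a b => by rw [Matrix.add_mulVec, Matrix.mulVec_add]
      map_smul' := fun c a => by rw [Matrix.smul_mulVec, Matrix.mulVec_smul]; rfl }
  have hφ : LinearMap.range φ = LinearMap.range J.mulVecLin := by
    apply le_antisymm
    · rintro _ ⟨g, rfl⟩
      exact ⟨g *ᵥ e, rfl⟩
    · rintro _ ⟨v, rfl⟩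
      obtain ⟨i, hi⟩ := Function.ne_iff.1 he
      rw [Pi.zero_apply] at hi
      refine ⟨Matrix.of fun x y => if y = i then (e i)⁻¹ * v x else 0, ?_⟩
      show J *ᵥ ((Matrix.of fun x y => if y = i then (e i)⁻¹ * v x else 0) *ᵥ e) = J *ᵥ v
      congr 1
      funext x
      simp only [Matrix.mulVec, dotProduct, Matrix.of_apply, ite_mul, zero_mul,
        Finset.sum_ite_eq', Finset.mem_univ, if_true]
      field_simp
  have h1 := LinearMap.finrank_range_add_finrank_ker φ
  rw [hφ, Module.finrank_matrix, Module.finrank_self, mul_one] at h1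
  have h2 : Module.finrank k (LinearMap.range J.mulVecLin) = J.rank := rfl
  rw [h2] at h1
  -- restriction of `adm J`
  let ψ := (adm J).domRestrict (LinearMap.ker φ)
  have h3 := LinearMap.finrank_range_add_finrank_ker ψ
  have h4 : LinearMap.range (adm J) ⊓ kil e ≤ LinearMap.range ψ := by
    rintro a ⟨⟨g, hg⟩, ha⟩
    refine ⟨⟨g, ?_⟩, hg⟩
    rw [LinearMap.mem_ker]
    show J *ᵥ (g *ᵥ e) = 0
    have h5 : a *ᵥ e = 0 := ha
    rw [← hg] at h5
    have h6 : (g * J - J * g) *ᵥ e = 0 := h5
    rw [Matrix.sub_mulVec, ← Matrix.mulVec_mulVec, ← Matrix.mulVec_mulVec, hJ,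
      Matrix.mulVec_zero, zero_sub, neg_eq_zero] at h6
    exact h6
  have h5 : Module.finrank k (cen J) ≤ Module.finrank k (LinearMap.ker ψ) := by
    let θ : cen J →ₗ[k] LinearMap.ker ψ :=
      { toFun := fun a => ⟨⟨a.1, by
          rw [LinearMap.mem_ker]
          show J *ᵥ (a.1 *ᵥ e) = 0
          have h6 : J * a.1 = a.1 * J := a.2
          rw [Matrix.mulVec_mulVec, h6, ← Matrix.mulVec_mulVec, hJ, Matrix.mulVec_zero]⟩, by
          rw [LinearMap.mem_ker]
          show a.1 * J - J * a.1 = 0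
          have h6 : J * a.1 = a.1 * J := a.2
          rw [h6, sub_self]⟩
        map_add' := fun a b => rfl
        map_smul' := fun c a => rfl }
    refine LinearMap.finrank_le_finrank_of_injective (f := θ) ?_
    intro a b hab
    have h6 := congrArg (fun z => (z.1.1 : Matrix n n k)) hab
    exact Subtype.ext h6
  have h6 := Submodule.finrank_mono h4
  omega

end

end Auto

end Pool.Agent.Lib.D13
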