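import Pool.Agent.Lib.D13.GenRk

/-!
# Counting of parameters (MP_5dcbc3_ag)

`FF k t` is the algebraic closure of `k(t)` in `K`; a set in `FF k t` has at most the rank `rk k t`.
-/

namespace Pool.Agent.Lib.D13

open Matrix

variable {k K : Type*} [Field k] [Field K] [Algebra k K]

variable (k) in
/-- the elements of `K` which are algebraic over `k(t)` -/
noncomputable def FF (t : Set K) : IntermediateField k K :=
  (algebraicClosure (IntermediateField.adjoin k t) K).restrictScalars k

theorem mem_FF {t : Set K} {a : K} :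
    a ∈ FF k t ↔ IsAlgebraic (IntermediateField.adjoin k t) a :=
  mem_algebraicClosure_iff

theorem mem_FF' {t : Set K} {a : K} : a ∈ FF k t ↔ IsAlgebraic (Algebra.adjoin k t) a := by
  rw [mem_FF]
  open scoped IntermediateField.algebraAdjoinAdjoin in
  exact (IsFractionRing.isAlgebraic_iff (Algebra.adjoin k t) (IntermediateField.adjoin k t) K).symm

theorem coe_FF (t : Set K) : (FF k t : Set K) = (AlgebraicIndependent.matroid k K).closure t := by
  rw [AlgebraicIndependent.matroid_closure_eq]
  ext a
  exact mem_FF'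

theorem subset_FF (t : Set K) : t ⊆ FF k t := by
  intro a ha
  exact mem_FF'.2 (isAlgebraic_algebraMap (⟨a, Algebra.subset_adjoin ha⟩ : Algebra.adjoin k t))

theorem FF_mono {s t : Set K} (h : s ⊆ t) : FF k s ≤ FF k t := by
  intro a ha
  rw [← SetLike.mem_coe, coe_FF] at ha ⊢
  exact (AlgebraicIndependent.matroid k K).closure_mono h ha

theorem FF_le {s t : Set K} (h : s ⊆ FF k t) : FF k s ≤ FF k t := by
  intro a ha
  rw [← SetLike.mem_coe, coe_FF] at ha ⊢
  rw [coe_FF] at h
  exact (AlgebraicIndependent.matroid k K).closure_subset_closure_of_subset_closure h ha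

theorem mem_FF_self {t : Set K} {a : K} (h : a ∈ t) : a ∈ FF k t := subset_FF t h

theorem rk_mono {s t : Set K} (h : s ⊆ t) : rk k s ≤ rk k t :=
  (AlgebraicIndependent.matroid k K).eRk_mono h

theorem rk_le_encard (s : Set K) : rk k s ≤ s.encard :=
  (AlgebraicIndependent.matroid k K).eRk_le_encard s

theorem rk_FF (s : Set K) : rk k (FF k s : Set K) = rk k s := by
  unfold rk
  rw [coe_FF]
  exact (AlgebraicIndependent.matroid k K).eRk_closure_eq s

/-- a set in `FF k t` has at most the rank of `t` -/
theorem rk_le {s t : Set K} (h : s ⊆ FF k t) : rk k s ≤ rk k t := by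
  rw [← rk_FF (k := k) t]
  exact rk_mono h

theorem rk_union_le (s t : Set K) : rk k (s ∪ t) ≤ rk k s + rk k t :=
  (AlgebraicIndependent.matroid k K).eRk_union_le_eRk_add_eRk s t

theorem rk_union_le_encard (s t : Set K) : rk k (s ∪ t) ≤ rk k s + t.encard :=
  (AlgebraicIndependent.matroid k K).eRk_union_le_eRk_add_encard s t

theorem rk_insert_le (a : K) (s : Set K) : rk k (insert a s) ≤ rk k s + 1 :=
  (AlgebraicIndependent.matroid k K).eRk_insert_le_add_one a s

/-- a set in `FF k (t ∪ u)` -/
theorem rk_le_add {s t u : Set K} (h : s ⊆ FF k (t ∪ u)) : rk k s ≤ rk k t + u.encard :=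
  (rk_le h).trans (rk_union_le_encard t u)

/-- a set in `FF k (range u)` with `u` indexed by a finite type -/
theorem rk_le_card {ι : Type*} [Fintype ι] {s : Set K} (u : ι → K)
    (h : s ⊆ FF k (Set.range u)) : rk k s ≤ Fintype.card ι := by
  refine (rk_le h).trans ((rk_le_encard _).trans ?_)
  rw [← Set.image_univ]
  refine (Set.encard_image_le _ _).trans ?_
  rw [Set.encard_univ, ENat.card_eq_coe_fintype_card]

/-- the same relative to `t` -/
theorem rk_le_add_card {ι : Type*} [Fintype ι] {s t : Set K} (u : ι → K)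
    (h : s ⊆ FF k (t ∪ Set.range u)) : rk k s ≤ rk k t + Fintype.card ι := by
  refine (rk_le_add h).trans ?_
  gcongr
  rw [← Set.image_univ]
  refine (Set.encard_image_le _ _).trans ?_
  rw [Set.encard_univ, ENat.card_eq_coe_fintype_card]

/-- roots of polynomials over `FF k t` -/
theorem root_mem_FF {t : Set K} {a : K} (p : Polynomial K) (hp : ∀ i, p.coeff i ∈ FF k t)
    (h0 : p ≠ 0) (ha : p.eval a = 0) : a ∈ FF k t := by
  have h1 : p ∈ Polynomial.lifts (FF k t).val.toRingHom := by
    rw [Polynomial.lifts_iff_coeff_lifts]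
    intro i
    exact ⟨⟨p.coeff i, hp i⟩, rfl⟩
  obtain ⟨q, hq⟩ := (Polynomial.mem_lifts _).1 h1
  have h2 : IsAlgebraic (FF k t) a := by
    refine ⟨q, ?_, ?_⟩
    · rintro rfl
      exact h0 (by rw [← hq, Polynomial.map_zero])
    · rw [Polynomial.aeval_def, Polynomial.eval₂_eq_eval_map]
      have h3 : q.map (algebraMap (FF k t) K) = p := hq
      rw [h3, ha]
  have h4 : a ∈ FF k (FF k t : Set K) := by
    rw [mem_FF]
    have h5 : IntermediateField.adjoin k (FF k t : Set K) = FF k t :=
      IntermediateField.adjoin_self k (FF k t)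
    rw [h5]
    exact h2
  exact FF_le (le_refl _) h4

/-- a power in `FF k t` -/
theorem of_pow_mem_FF {t : Set K} {a : K} {i : ℕ} (hi : 0 < i) (h : a ^ i ∈ FF k t) :
    a ∈ FF k t := by
  refine root_mem_FF (Polynomial.X ^ i - Polynomial.C (a ^ i)) (fun j => ?_) ?_ ?_
  · rw [Polynomial.coeff_sub, Polynomial.coeff_X_pow, Polynomial.coeff_C]
    refine sub_mem ?_ ?_
    · split_ifs
      · exact one_mem _
      · exact zero_mem _
    · split_ifs
      · exact h
      · exact zero_mem _
  · exact Polynomial.X_pow_sub_C_ne_zero hi _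
  · rw [Polynomial.eval_sub, Polynomial.eval_pow, Polynomial.eval_X, Polynomial.eval_C, sub_self]

/-! ### linear equations -/

section

variable {L : IntermediateField k K}

theorem det_mem {m : Type*} [Fintype m] [DecidableEq m] {A : Matrix m m K}
    (hA : ∀ i j, A i j ∈ L) : A.det ∈ L := by
  rw [Matrix.det_apply]
  refine sum_mem fun σ _ => ?_
  rw [Units.smul_def]
  exact zsmul_mem (prod_mem fun i _ => hA _ _) _

theorem inv_mem_of {m : Type*} [Fintype m] [DecidableEq m] {A : Matrix m m K}
    (hA : ∀ i j, A i j ∈ L) : ∀ i j, A⁻¹ i j ∈ L := by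
  intro i j
  rw [Matrix.inv_def, Matrix.smul_apply, smul_eq_mul, Matrix.adjugate_apply,
    Ring.inverse_eq_inv']
  refine mul_mem (inv_mem (det_mem hA)) (det_mem fun a b => ?_)
  rw [Matrix.updateRow_apply]
  split_ifs
  · rw [Pi.single_apply]
    split_ifs
    · exact one_mem _
    · exact zero_mem _
  · exact hA a b

end

theorem exists_sub' {V ι : Type*} [AddCommGroup V] [Module K V] [Finite ι] (v : ι → V) (r : ℕ)
    (hr : Module.finrank K (Submodule.span K (Set.range v)) = r) :
    ∃ f : Fin r → ι, LinearIndependent K (v ∘ f) := by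
  obtain ⟨κ, a, ha, hsp, hli⟩ := exists_linearIndependent' K v
  have : Finite κ := Finite.of_injective a ha
  have := Fintype.ofFinite κ
  have hcard : Fintype.card κ = r := by
    rw [linearIndependent_iff_card_eq_finrank_span.mp hli, Set.finrank, hsp, hr]
  let e : Fin r ≃ κ := (finCongr hcard.symm).trans (Fintype.equivFin κ).symm
  exact ⟨a ∘ e, hli.comp e e.injective⟩

/-- a nonsingular minor of the size of the rank -/
theorem exists_minor' {m n : Type*} [Fintype m] [Fintype n] (M : Matrix m n K) :
    ∃ (f : Fin M.rank → m) (g : Fin M.rank → n), (M.submatrix f g).det ≠ 0 := by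
  obtain ⟨f, hf⟩ := exists_sub' (K := K) M.row M.rank M.rank_eq_finrank_span_row.symm
  have hN : (M.submatrix f id).rank = M.rank := by
    have h1 : LinearIndependent K (M.submatrix f id).row := hf
    rw [h1.rank_matrix, Fintype.card_fin]
  obtain ⟨g, hg⟩ := exists_sub' (K := K) (M.submatrix f id).col M.rank
    ((M.submatrix f id).rank_eq_finrank_span_cols.symm.trans hN)
  refine ⟨f, g, ?_⟩
  have h2 : LinearIndependent K (M.submatrix f g).col := hg
  exact isUnit_iff_ne_zero.1 ((Matrix.isUnit_iff_isUnit_det _).1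
    (linearIndependent_cols_iff_isUnit.1 h2))

/-- the solutions of a system of linear equations over `FF k t` with a nonsingular minor -/
theorem rk_linear_minor {m n : Type*} [Fintype n] [DecidableEq n] {r : ℕ}
    {t : Set K} (A : Matrix m n K) (v : n → K) (f : Fin r → m) (g : Fin r → n)
    (hfg : (A.submatrix f g).det ≠ 0)
    (hA : ∀ i j, A i j ∈ FF k t) (hw : ∀ i, (A *ᵥ v) i ∈ FF k t) :
    rk k (t ∪ Set.range v) + r ≤ rk k t + Fintype.card n := by
  classical
  have hg : Function.Injective g := by
    intro a b hab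
    by_contra hne
    exact hfg (Matrix.det_zero_of_column_eq hne fun i => by simp [hab])
  let u : {j // j ∉ Set.range g} → K := fun j => v j
  have hcard : Fintype.card {j // j ∉ Set.range g} + r = Fintype.card n := by
    have h1 := Fintype.card_subtype_compl (fun j => j ∈ Set.range g)
    have h2 : Fintype.card {j // j ∈ Set.range g} = r := by
      have := Fintype.card_congr (Equiv.ofInjective g hg)
      rw [Fintype.card_fin] at this
      exact this.symm
    have h3 := Fintype.card_subtype_le (fun j => j ∈ Set.range g)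
    omega
  have hsub : t ⊆ FF k (t ∪ Set.range u) := Set.subset_union_left.trans (subset_FF _)
  have hAu : ∀ i j, A i j ∈ FF k (t ∪ Set.range u) := fun i j =>
    FF_mono Set.subset_union_left (hA i j)
  have hwu : ∀ i, (A *ᵥ v) i ∈ FF k (t ∪ Set.range u) := fun i =>
    FF_mono Set.subset_union_left (hw i)
  have hvu : ∀ j, j ∉ Set.range g → v j ∈ FF k (t ∪ Set.range u) := fun j hj =>
    mem_FF_self (Or.inr ⟨⟨j, hj⟩, rfl⟩)
  have hs : (A.submatrix f g) *ᵥ (v ∘ g) =
      fun i => (A *ᵥ v) (f i) - ∑ j ∈ Finset.univ.filter (fun j => j ∉ Set.range g),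
        A (f i) j * v j := by
    funext i
    simp only [Matrix.mulVec, dotProduct, Matrix.submatrix_apply, Function.comp_apply]
    rw [eq_sub_iff_add_eq, ← Finset.sum_filter_add_sum_filter_not Finset.univ
      (fun j => j ∈ Set.range g) fun j => A (f i) j * v j]
    congr 1
    have h4 : Finset.univ.filter (fun j => j ∈ Set.range g) = Finset.univ.image g := by
      ext j
      simp
    rw [h4, Finset.sum_image fun a _ b _ hab => hg hab]
  have hv : v ∘ g = (A.submatrix f g)⁻¹ *ᵥ fun i => (A *ᵥ v) (f i) -
      ∑ j ∈ Finset.univ.filter (fun j => j ∉ Set.range g), A (f i) j * v j := by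
    rw [← hs, Matrix.mulVec_mulVec, Matrix.nonsing_inv_mul _ (isUnit_iff_ne_zero.2 hfg),
      Matrix.one_mulVec]
  have hvg : ∀ l, v (g l) ∈ FF k (t ∪ Set.range u) := by
    intro l
    have h5 : v (g l) = (v ∘ g) l := rfl
    rw [h5, hv]
    simp only [Matrix.mulVec, dotProduct]
    refine sum_mem fun i _ => mul_mem (inv_mem_of (fun a b => hAu _ _) l i) ?_
    refine sub_mem ?_ (sum_mem fun j hj => mul_mem (hAu _ _)
      (hvu j (Finset.mem_filter.1 hj).2))
    exact hwu (f i)
  have hrange : t ∪ Set.range v ⊆ FF k (t ∪ Set.range u) := by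
    refine Set.union_subset hsub ?_
    rintro _ ⟨j, rfl⟩
    by_cases hj : j ∈ Set.range g
    · obtain ⟨l, rfl⟩ := hj
      exact hvg l
    · exact hvu j hj
  have h6 := rk_le_add_card (k := k) u hrange
  calc rk k (t ∪ Set.range v) + r ≤ rk k t + Fintype.card {j // j ∉ Set.range g} + r := by
        gcongr
    _ = rk k t + Fintype.card n := by
        rw [← hcard, add_assoc, Nat.cast_add]

/-- the solutions of a system of linear equations over `FF k t` -/
theorem rk_linear {m n : Type*} [Fintype m] [Fintype n] [DecidableEq n]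
    {t : Set K} (A : Matrix m n K) (v : n → K)
    (hA : ∀ i j, A i j ∈ FF k t) (hw : ∀ i, (A *ᵥ v) i ∈ FF k t) :
    rk k (t ∪ Set.range v) + A.rank ≤ rk k t + Fintype.card n := by
  obtain ⟨f, g, h⟩ := exists_minor' A
  exact rk_linear_minor A v f g h hA hw

end Pool.Agent.Lib.D13
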