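import Pool.Agent.Lib.D13.Decomp
import Pool.Agent.Lib.D13.PurDefs

/-!
# MP_5dcbc3_ag: the closure of the triples of polynomials in one matrix
-/

set_option autoImplicit false

namespace Pool.Agent.Lib.D13

open Matrix Pool.Agent.Lib.Q5dc Pool.Agent.Lib.D7
open Polynomial (aeval)

variable {k : Type*} [Field k] {m n : Type*} [Fintype m] [DecidableEq m] [Fintype n]
  [DecidableEq n]

theorem PCl.gen (A : Matrix n n k) (p q : Polynomial k) : PCl ![A, aeval A p, aeval A q] :=
  fun _ h => h A p q

namespace PClAux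

theorem isPoly_eval {ι : Type*} (c : k → ι → k) (hc : ∀ i, D7.IsPoly fun s => c s i)
    (F : MvPolynomial ι k) : D7.IsPoly fun s => MvPolynomial.eval (c s) F := by
  induction F using MvPolynomial.induction_on with
  | C a =>
    simp only [MvPolynomial.eval_C]
    exact D7.IsPoly.const a
  | add f g hf hg =>
    simp only [map_add]
    exact hf.add hg
  | mul_X f i hf =>
    simp only [map_mul, MvPolynomial.eval_X]
    exact hf.mul (hc i)

end PClAux

open PClAux

/-- limits along curves -/
theorem PCl.curve {c : k → Fin 3 → Matrix n n k} (hc : PolyFam c)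
    (h : {s | PCl (c s)}.Infinite) : PCl (c 0) := by
  intro F hF
  by_contra h0
  have hp : D7.IsPoly fun s => MvPolynomial.eval (co (c s)) F :=
    isPoly_eval (fun s => co (c s)) (fun z => hc z.1 z.2.1 z.2.2) F
  exact h ((hp.finite (s₁ := 0) h0).subset fun s hs => hs F hF)

theorem PCl.of_line {T D : Fin 3 → Matrix n n k} (h : {s : k | PCl (T + s • D)}.Infinite) :
    PCl T := by
  have h1 := PCl.curve (PolyFam.line T D) h
  simpa using h1

/-- maps with polynomial coordinates -/
theorem pcl_poly (c : Fin 3 × n × n → MvPolynomial (Fin 3 × m × m) k)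
    (g : (Fin 3 → Matrix m m k) → Fin 3 → Matrix n n k)
    (hg : ∀ S z, co (g S) z = MvPolynomial.eval (co S) (c z))
    (h : ∀ (A : Matrix m m k) (p q : Polynomial k), PCl (g ![A, aeval A p, aeval A q]))
    {S : Fin 3 → Matrix m m k} (hS : PCl S) : PCl (g S) := by
  intro F hF
  have hev : ∀ S, MvPolynomial.eval (co (g S)) F =
      MvPolynomial.eval (co S) (MvPolynomial.aeval c F) := by
    intro S
    have h1 : ((MvPolynomial.aeval (co S) : MvPolynomial (Fin 3 × m × m) k →ₐ[k] k).comp
        (MvPolynomial.aeval c)) =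
        (MvPolynomial.aeval (co (g S)) : MvPolynomial (Fin 3 × n × n) k →ₐ[k] k) := by
      apply MvPolynomial.algHom_ext
      intro z
      rw [AlgHom.comp_apply, MvPolynomial.aeval_X, MvPolynomial.aeval_X, hg]
      rfl
    have h2 := congrArg (fun f => f F) h1
    simp only [AlgHom.comp_apply] at h2
    exact h2.symm
  rw [hev]
  exact hS _ fun A p q => by
    rw [← hev]
    exact h A p q F hF

/-! ### a generator of `k[A]` -/

namespace PClAux

open Polynomial

theorem isPoly_lin (g : k[X]) (i : ℕ) (L : k[X] →ₗ[k] k) :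
    D7.IsPoly fun t => L ((X + C t * g) ^ i) := by
  induction i generalizing L with
  | zero =>
    simp only [pow_zero]
    exact D7.IsPoly.const _
  | succ i ih =>
    have h1 := ih (L.comp (LinearMap.mulLeft k X))
    have h2 := ih (L.comp (LinearMap.mulLeft k g))
    have h3 := h1.add (D7.IsPoly.id.mul h2)
    have e : (fun t => L ((X + C t * g) ^ (i + 1))) = fun t =>
        (L.comp (LinearMap.mulLeft k X)) ((X + C t * g) ^ i) +
          t * (L.comp (LinearMap.mulLeft k g)) ((X + C t * g) ^ i) := by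
      funext t
      simp only [LinearMap.comp_apply, LinearMap.mulLeft_apply]
      have e2 : (X + C t * g) ^ (i + 1) = X * (X + C t * g) ^ i +
          t • (g * (X + C t * g) ^ i) := by
        rw [smul_eq_C_mul, pow_succ]
        ring
      rw [e2, map_add, map_smul, smul_eq_mul]
    rw [e]
    exact h3

/-- `A + t g(A)` generates `k[A]` for almost all `t` -/
theorem gen_of_line (A : Matrix n n k) (g : k[X]) :
    {t : k | ¬ ∃ r : k[X], aeval (A + t • aeval A g) r = A}.Finite := by
  have hint : IsIntegral k A := Algebra.IsIntegral.isIntegral A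
  have hmon := minpoly.monic hint
  set μ := minpoly k A with hμ
  set d := μ.natDegree with hd
  let D : k → Matrix (Fin d) (Fin d) k := fun t =>
    Matrix.of fun i j => (((X + C t * g) ^ (i : ℕ)) %ₘ μ).coeff j
  have hD : ∀ x y, D7.IsPoly fun t => D t x y := by
    intro x y
    exact isPoly_lin g x ((lcoeff k (y : ℕ)).comp (modByMonicHom μ))
  have h0 : (D 0).det ≠ 0 := by
    have h1 : D 0 = 1 := by
      ext i j
      show (((X + C 0 * g) ^ (i : ℕ)) %ₘ μ).coeff j = _
      rw [C_0, zero_mul, add_zero, (modByMonic_eq_self_iff hmon).2, coeff_X_pow,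
        Matrix.one_apply]
      · simp only [Fin.ext_iff, eq_comm]
      · rw [degree_X_pow, degree_eq_natDegree hmon.ne_zero]
        exact_mod_cast i.2
    rw [h1, Matrix.det_one]
    exact one_ne_zero
  have hdet : D7.IsPoly fun t => (D t).det := by
    have := PolyAux.det_poly D hD id id
    simpa using this
  refine (hdet.finite h0).subset fun t ht => ?_
  by_contra hne
  apply ht
  have hne' : (D t).det ≠ 0 := hne
  let x : Fin d → k := fun j => (X %ₘ μ).coeff j
  let c : Fin d → k := x ᵥ* (D t)⁻¹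
  have hc : c ᵥ* D t = x := by
    show (x ᵥ* (D t)⁻¹) ᵥ* D t = x
    rw [Matrix.vecMul_vecMul, Matrix.nonsing_inv_mul _ (isUnit_iff_ne_zero.2 hne'),
      Matrix.vecMul_one]
  refine ⟨∑ i, C (c i) * X ^ (i : ℕ), ?_⟩
  have h2 : μ ∣ (∑ i : Fin d, C (c i) * (X + C t * g) ^ (i : ℕ)) - X := by
    rw [← modByMonic_eq_zero_iff_dvd hmon, sub_modByMonic, sub_eq_zero]
    ext j
    by_cases hj : j < d
    · have h3 := congrFun hc ⟨j, hj⟩
      rw [Matrix.vecMul, dotProduct] at h3
      have h4 : ((∑ i : Fin d, C (c i) * (X + C t * g) ^ (i : ℕ)) %ₘ μ).coeff j =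
          ∑ i, c i * D t i ⟨j, hj⟩ := by
        have h5 : (∑ i : Fin d, C (c i) * (X + C t * g) ^ (i : ℕ)) %ₘ μ =
            modByMonicHom μ (∑ i : Fin d, C (c i) * (X + C t * g) ^ (i : ℕ)) := rfl
        rw [h5, map_sum, finsetSum_coeff]
        refine Finset.sum_congr rfl fun i _ => ?_
        rw [← smul_eq_C_mul, map_smul, coeff_smul, smul_eq_mul]
        rfl
      rw [h4]
      exact h3
    · have h6 : ∀ p : k[X], (p %ₘ μ).coeff j = 0 := by
        intro p
        apply coeff_eq_zero_of_degree_lt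
        refine lt_of_lt_of_le (degree_modByMonic_lt p hmon) ?_
        rw [degree_eq_natDegree hmon.ne_zero]
        exact_mod_cast not_lt.1 hj
      rw [h6, h6]
  obtain ⟨e, he⟩ := h2
  have h7 := congrArg (aeval A) he
  rw [map_mul, hμ, minpoly.aeval, zero_mul, map_sub, aeval_X, sub_eq_zero, map_sum] at h7
  rw [map_sum]
  refine Eq.trans (Finset.sum_congr rfl fun i _ => ?_) h7
  rw [map_mul, map_mul, aeval_C, aeval_C, map_pow, map_pow, aeval_X, map_add, aeval_X, map_mul,
    aeval_C, Algebra.smul_def t]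

end PClAux

open Polynomial in
/-- triples of polynomials in one matrix -/
theorem PCl.aeval3 [Infinite k] (A : Matrix n n k) (g : Fin 3 → Polynomial k) :
    PCl fun i => aeval A (g i) := by
  have hbad := gen_of_line A (g 0)
  refine PCl.of_line (D := ![A, 0, 0]) ?_
  have hinf : (({0} ∪ (fun t => t⁻¹) '' {t : k | ¬ ∃ r : k[X], aeval (A + t • aeval A (g 0)) r =
      A})ᶜ : Set k).Infinite := ((Set.finite_singleton 0).union (hbad.image _)).infinite_compl
  refine hinf.mono fun s hs => ?_
  simp only [Set.mem_compl_iff, Set.mem_union, Set.mem_singleton_iff, not_or] at hs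
  obtain ⟨hs0, hs1⟩ := hs
  have h1 : ∃ r : k[X], aeval (A + s⁻¹ • aeval A (g 0)) r = A := by
    by_contra h
    exact hs1 ⟨s⁻¹, h, inv_inv s⟩
  obtain ⟨r, hr⟩ := h1
  set M := aeval A (g 0) + s • A with hM
  have hM' : s⁻¹ • M = A + s⁻¹ • aeval A (g 0) := by
    rw [hM, smul_add, smul_smul, inv_mul_cancel₀ hs0, one_smul, add_comm]
  have hr' : aeval M (r.comp (C s⁻¹ * X)) = A := by
    rw [aeval_comp, map_mul, aeval_C, aeval_X, ← Algebra.smul_def, hM', hr]
  have h2 : (fun i => aeval A (g i)) + s • ![A, 0, 0] =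
      ![M, aeval M ((g 1).comp (r.comp (C s⁻¹ * X))), aeval M ((g 2).comp (r.comp (C s⁻¹ * X)))] := by
    rw [aeval_comp (p := g 1), aeval_comp (p := g 2), hr']
    funext i
    fin_cases i
    · rfl
    · simp
    · simp
  show PCl ((fun i => aeval A (g i)) + s • ![A, 0, 0])
  rw [h2]
  exact PCl.gen _ _ _

/-- images under isomorphisms of matrix algebras -/
theorem PCl.mapEquiv (φ : Matrix m m k ≃ₐ[k] Matrix n n k) {T : Fin 3 → Matrix m m k}
    (h : PCl T) : PCl fun i => φ (T i) := by
  refine pcl_poly (fun z => ∑ x : m, ∑ y : m,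
    MvPolynomial.C (φ (Matrix.single x y (1 : k)) z.2.1 z.2.2) * MvPolynomial.X (z.1, x, y))
    (fun S i => φ (S i)) ?_ ?_ h
  · rintro S ⟨i, x', y'⟩
    have h2 : φ (S i) = ∑ x : m, ∑ y : m, S i x y • φ (Matrix.single x y (1 : k)) := by
      conv_lhs => rw [Matrix.matrix_eq_sum_single (S i)]
      rw [map_sum]
      refine Finset.sum_congr rfl fun x _ => ?_
      rw [map_sum]
      refine Finset.sum_congr rfl fun y _ => ?_
      rw [← map_smul]
      congr 1
      simp
    show φ (S i) x' y' = _
    rw [h2]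
    simp only [Matrix.sum_apply, Matrix.smul_apply, smul_eq_mul, map_sum, map_mul,
      MvPolynomial.eval_C, MvPolynomial.eval_X]
    refine Finset.sum_congr rfl fun x _ => ?_
    refine Finset.sum_congr rfl fun y _ => ?_
    have h5 : co S (i, x, y) = S i x y := rfl
    rw [h5, mul_comm]
  · intro A p q
    have h1 : ∀ p : Polynomial k, φ (aeval A p) = aeval (φ A) p := fun p =>
      (Polynomial.aeval_algHom_apply (φ : Matrix m m k →ₐ[k] Matrix n n k) A p).symm
    have h2 : (fun i => φ ((![A, aeval A p, aeval A q] : Fin 3 → Matrix m m k) i)) =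
        ![φ A, aeval (φ A) p, aeval (φ A) q] := by
      funext i
      fin_cases i
      · rfl
      · exact h1 p
      · exact h1 q
    rw [h2]
    exact PCl.gen _ _ _

theorem PCl.conj {T : Fin 3 → Matrix n n k} (hT : PCl T) (g h : Matrix n n k) (hg : g * h = 1)
    (hh : h * g = 1) : PCl fun i => g * T i * h := by
  let φ : Matrix n n k ≃ₐ[k] Matrix n n k := AlgEquiv.ofAlgHom (conjHom g h hg hh)
    (conjHom h g hh hg) (by
      apply AlgHom.ext
      intro M
      show g * (h * M * g) * h = M
      calc g * (h * M * g) * h = (g * h) * M * (g * h) := by simp only [Matrix.mul_assoc]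
        _ = M := by rw [hg, one_mul, mul_one]) (by
      apply AlgHom.ext
      intro M
      show h * (g * M * h) * g = M
      calc h * (g * M * h) * g = (h * g) * M * (h * g) := by simp only [Matrix.mul_assoc]
        _ = M := by rw [hh, one_mul, mul_one])
  exact PCl.mapEquiv φ hT

/-- polynomial maps given by elements of the free algebra -/
theorem PCl.free [Infinite k] (f : Fin 3 → FreeAlgebra k (Fin 3)) {T : Fin 3 → Matrix n n k}
    (hT : PCl T) : PCl fun i => FreeAlgebra.lift k T (f i) := by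
  let G : Fin 3 → Matrix n n (MvPolynomial (Fin 3 × n × n) k) :=
    fun i => Matrix.of fun x y => MvPolynomial.X (i, x, y)
  let Φ : Fin 3 → Matrix n n (MvPolynomial (Fin 3 × n × n) k) :=
    fun i => FreeAlgebra.lift k G (f i)
  refine pcl_poly (fun z => Φ z.1 z.2.1 z.2.2) (fun S i => FreeAlgebra.lift k S (f i)) ?_ ?_ hT
  · rintro S ⟨i, x, y⟩
    have h1 : ((MvPolynomial.aeval (co S) : MvPolynomial (Fin 3 × n × n) k →ₐ[k] k).mapMatrix.comp
        (FreeAlgebra.lift k G)) = FreeAlgebra.lift k S := by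
      apply FreeAlgebra.hom_ext
      funext j
      simp only [Function.comp_apply, AlgHom.comp_apply, FreeAlgebra.lift_ι_apply]
      ext a b
      simp [G, co]
    have h2 := congrArg (fun φ => φ (f i) x y) h1
    simp only [AlgHom.comp_apply, AlgHom.mapMatrix_apply, Matrix.map_apply] at h2
    exact h2.symm
  · intro A p q
    have h1 : ∀ x : FreeAlgebra k (Fin 3),
        FreeAlgebra.lift k (![A, aeval A p, aeval A q] : Fin 3 → Matrix n n k) x =
          aeval A (FreeAlgebra.lift k (![Polynomial.X, p, q] : Fin 3 → Polynomial k) x) := by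
      intro x
      have h2 : FreeAlgebra.lift k (![A, aeval A p, aeval A q] : Fin 3 → Matrix n n k) =
          (aeval A : Polynomial k →ₐ[k] Matrix n n k).comp
            (FreeAlgebra.lift k (![Polynomial.X, p, q] : Fin 3 → Polynomial k)) := by
        apply FreeAlgebra.hom_ext
        funext j
        simp only [Function.comp_apply, AlgHom.comp_apply, FreeAlgebra.lift_ι_apply]
        fin_cases j
        · simp
        · rfl
        · rfl
      rw [h2]
      rfl
    have h3 : (fun i => FreeAlgebra.lift k (![A, aeval A p, aeval A q] : Fin 3 → Matrix n n k)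
        (f i)) = fun i => aeval A (FreeAlgebra.lift k
          (![Polynomial.X, p, q] : Fin 3 → Polynomial k) (f i)) := funext fun i => h1 _
    rw [h3]
    exact PCl.aeval3 A _

/-- if all matrices of `T` are polynomials in those of `T'` -/
theorem PCl.of_adj [Infinite k] {T T' : Fin 3 → Matrix n n k} (h : ∀ i, T i ∈ adj T')
    (hT : PCl T') : PCl T := by
  choose f hf _ _ using fun i => exists_free (h i)
  have h1 := hT.free f
  have h2 : (fun i => FreeAlgebra.lift k T' (f i)) = T := funext hf
  rwa [h2] at h1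

theorem PCl.translate [Infinite k] {T : Fin 3 → Matrix n n k} (hT : PCl T) (c : Fin 3 → k) :
    PCl fun i => T i + c i • 1 := by
  have h1 := hT.free fun i => FreeAlgebra.ι k i + algebraMap k _ (c i)
  have h2 : (fun i => FreeAlgebra.lift k T (FreeAlgebra.ι k i + algebraMap k _ (c i))) =
      fun i => T i + c i • 1 := by
    funext i
    rw [map_add, FreeAlgebra.lift_ι_apply, AlgHom.commutes, Algebra.algebraMap_eq_smul_one]
  rwa [h2] at h1

/-- limits of curvilinear triples -/
theorem PCl.of_cl [Infinite k] {T : Fin 3 → Matrix n n k} (hT : Cl T) : PCl T := by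
  intro F hF
  refine hT F fun T' hT' => ?_
  obtain ⟨N, -, -, h3⟩ := hT'
  choose p hp using h3
  have h1 : T' = fun i => aeval N (p i) := funext fun i => (hp i).2
  rw [h1]
  exact PCl.aeval3 N p F hF

/-! ### direct sums -/

namespace PClAux

open Polynomial

theorem aeval_dsum (A : Matrix m m k) (B : Matrix n n k) (p : k[X]) :
    aeval (Matrix.fromBlocks A 0 0 B) p = Matrix.fromBlocks (aeval A p) 0 0 (aeval B p) := by
  induction p using Polynomial.induction_on' with
  | add p q hp hq =>
    rw [map_add, map_add, map_add, hp, hq, Matrix.fromBlocks_add]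
    simp
  | monomial i a =>
    rw [← C_mul_X_pow_eq_monomial, map_mul, map_mul, map_mul, aeval_C, aeval_C, aeval_C, map_pow,
      map_pow, map_pow, aeval_X, aeval_X, aeval_X, DecompAux.dsum_pow, ← Algebra.smul_def,
      ← Algebra.smul_def, ← Algebra.smul_def, Matrix.fromBlocks_smul, smul_zero, smul_zero]

/-- interpolation -/
theorem exists_crt {A : Matrix m m k} {B : Matrix n n k}
    (h : IsCoprime A.charpoly B.charpoly) (p q : k[X]) :
    ∃ P : k[X], aeval A P = aeval A p ∧ aeval B P = aeval B q := by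
  obtain ⟨u, v, huv⟩ := h
  refine ⟨p * (v * B.charpoly) + q * (u * A.charpoly), ?_, ?_⟩
  · have h1 : p * (v * B.charpoly) + q * (u * A.charpoly) =
        p + (q - p) * u * A.charpoly := by
      linear_combination p * huv
    rw [h1, map_add, map_mul _ _ A.charpoly, Matrix.aeval_self_charpoly, mul_zero, add_zero]
  · have h1 : p * (v * B.charpoly) + q * (u * A.charpoly) =
        q + (p - q) * v * B.charpoly := by
      linear_combination q * huv
    rw [h1, map_add, map_mul _ _ B.charpoly, Matrix.aeval_self_charpoly, mul_zero, add_zero]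

theorem charpoly_add (A : Matrix m m k) (s a : k) :
    (A + s • 1).charpoly.eval a = A.charpoly.eval (a - s) := by
  rw [Matrix.eval_charpoly, Matrix.eval_charpoly]
  congr 1
  rw [map_sub]
  have h1 : Matrix.scalar m s = s • (1 : Matrix m m k) := by
    rw [Matrix.smul_one_eq_diagonal]
    rfl
  rw [h1]
  abel

theorem finite_not_coprime [IsAlgClosed k] (A : Matrix m m k) (B : Matrix n n k) :
    {s : k | ¬ IsCoprime (A + s • 1).charpoly B.charpoly}.Finite := by
  have h1 : {s : k | ∃ α ∈ A.charpoly.rootSet k, ∃ β ∈ B.charpoly.rootSet k, β - α = s}.Finite :=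
    Set.Finite.image2 (fun α β => β - α) (A.charpoly.rootSet_finite k) (B.charpoly.rootSet_finite k)
  refine h1.subset fun s hs => ?_
  by_contra hcon
  apply hs
  rw [Polynomial.isCoprime_iff_aeval_ne_zero_of_isAlgClosed k k]
  intro a
  by_contra hne
  rw [not_or, not_not, not_not, coe_aeval_eq_eval, charpoly_add] at hne
  apply hcon
  refine ⟨a - s, ?_, a, ?_, by ring⟩
  · rw [mem_rootSet]
    exact ⟨A.charpoly_monic.ne_zero, by rw [coe_aeval_eq_eval]; exact hne.1⟩
  · rw [mem_rootSet]
    exact ⟨B.charpoly_monic.ne_zero, by rw [coe_aeval_eq_eval]; exact hne.2⟩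

theorem sum_gen [IsAlgClosed k] (A : Matrix m m k) (p q : k[X]) (B : Matrix n n k)
    (p' q' : k[X]) :
    PCl (dsum ![A, aeval A p, aeval A q] ![B, aeval B p', aeval B q']) := by
  have : Infinite k := IsAlgClosed.instInfinite
  refine PCl.of_line (D := ![Matrix.fromBlocks 1 0 0 0, 0, 0]) ?_
  refine ((finite_not_coprime A B).infinite_compl).mono fun s hs => ?_
  have hs' : IsCoprime (A + s • 1).charpoly B.charpoly := not_not.1 hs
  obtain ⟨P, hP1, hP2⟩ := exists_crt hs' (p.comp (X - C s)) p'
  obtain ⟨Q, hQ1, hQ2⟩ := exists_crt hs' (q.comp (X - C s)) q'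
  have hA : ∀ r : k[X], aeval (A + s • 1) (r.comp (X - C s)) = aeval A r := by
    intro r
    rw [aeval_comp, map_sub, aeval_X, aeval_C, Algebra.algebraMap_eq_smul_one, add_sub_cancel_right]
  rw [hA] at hP1 hQ1
  have h2 : dsum ![A, aeval A p, aeval A q] ![B, aeval B p', aeval B q'] +
      s • ![Matrix.fromBlocks 1 0 0 0, 0, 0] =
      ![Matrix.fromBlocks (A + s • 1) 0 0 B, aeval (Matrix.fromBlocks (A + s • 1) 0 0 B) P,
        aeval (Matrix.fromBlocks (A + s • 1) 0 0 B) Q] := by
    rw [aeval_dsum, aeval_dsum, hP1, hP2, hQ1, hQ2]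
    funext i
    fin_cases i
    · show Matrix.fromBlocks A 0 0 B + s • Matrix.fromBlocks 1 0 0 0 = _
      rw [Matrix.fromBlocks_smul, Matrix.fromBlocks_add]
      simp
    · show Matrix.fromBlocks (aeval A p) 0 0 (aeval B p') + s • 0 = _
      rw [smul_zero, add_zero]
      rfl
    · show Matrix.fromBlocks (aeval A q) 0 0 (aeval B q') + s • 0 = _
      rw [smul_zero, add_zero]
      rfl
  show PCl (dsum ![A, aeval A p, aeval A q] ![B, aeval B p', aeval B q'] +
      s • ![Matrix.fromBlocks 1 0 0 0, 0, 0])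
  rw [h2]
  exact PCl.gen _ _ _

end PClAux

/-- direct sums -/
theorem PCl.sum [IsAlgClosed k] {S : Fin 3 → Matrix m m k} {T : Fin 3 → Matrix n n k}
    (hS : PCl S) (hT : PCl T) : PCl (dsum S T) := by
  have h1 : ∀ (A : Matrix n n k) (p q : Polynomial k),
      PCl (dsum S ![A, aeval A p, aeval A q]) := by
    intro A p q
    refine pcl_poly (fun z => match z with
      | (i, Sum.inl x, Sum.inl y) => MvPolynomial.X (i, x, y)
      | (i, Sum.inr x, Sum.inr y) => MvPolynomial.C ((![A, aeval A p, aeval A q] :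
          Fin 3 → Matrix n n k) i x y)
      | (_, _, _) => 0) (fun S => dsum S ![A, aeval A p, aeval A q]) ?_ (fun B p' q' =>
        sum_gen B p' q' A p q) hS
    rintro S ⟨i, x | x, y | y⟩ <;> simp [co, dsum]
  refine pcl_poly (fun z => match z with
      | (i, Sum.inl x, Sum.inl y) => MvPolynomial.C (S i x y)
      | (i, Sum.inr x, Sum.inr y) => MvPolynomial.X (i, x, y)
      | (_, _, _) => 0) (fun T => dsum S T) ?_ h1 hT
  rintro T ⟨i, x | x, y | y⟩ <;> simp [co, dsum]

/-! ### decompositions -/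

/-- the hypothesis of the induction: all commuting nilpotent triples of smaller sizes are limits of
curvilinear ones -/
def HALL (k : Type*) [Field k] (d : ℕ) : Prop :=
  ∀ r : ℕ, 0 < r → r < d → ∀ T : Fin 3 → Matrix (Fin r) (Fin r) k, CN T → Cl T

/-- a decomposition into two nonzero stable subspaces -/
theorem pcl_of_isCompl [IsAlgClosed k]
    (hall : ∀ r : ℕ, 0 < r → r < Fintype.card n → ∀ T : Fin 3 → Matrix (Fin r) (Fin r) k,
      (∀ i j, T i * T j = T j * T i) → PCl T)
    {T : Fin 3 → Matrix n n k} (hT : ∀ i j, T i * T j = T j * T i) {P Q : Submodule k (n → k)}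
    (h : IsCompl P Q)
    (hP : ∀ i, ∀ v ∈ P, T i *ᵥ v ∈ P) (hQ : ∀ i, ∀ v ∈ Q, T i *ᵥ v ∈ Q)
    (hP0 : P ≠ ⊥) (hQ0 : Q ≠ ⊥) : PCl T := by
  have hr : 0 < Module.finrank k P := by
    rw [Nat.pos_iff_ne_zero]
    intro h1
    exact hP0 (Submodule.finrank_eq_zero.1 h1)
  have hs : 0 < Module.finrank k Q := by
    rw [Nat.pos_iff_ne_zero]
    intro h1
    exact hQ0 (Submodule.finrank_eq_zero.1 h1)
  have hrs : Module.finrank k P + Module.finrank k Q = Fintype.card n := by
    rw [Submodule.finrank_add_eq_of_isCompl h]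
    simp
  let b : Module.Basis (Fin (Module.finrank k P) ⊕ Fin (Module.finrank k Q)) k (n → k) :=
    ((Module.finBasis k P).prod (Module.finBasis k Q)).map (P.prodEquivOfIsCompl Q h)
  have b1 : ∀ x, b (Sum.inl x) ∈ P := by
    intro x
    simp [b]
  have b2 : ∀ x, b (Sum.inr x) ∈ Q := by
    intro x
    simp [b]
  have c1 : ∀ v ∈ P, ∀ y, b.repr v (Sum.inr y) = 0 := by
    intro v hv y
    have h2 := (Submodule.prodEquivOfIsCompl_symm_apply_snd_eq_zero P Q h).2 hv
    rw [Submodule.prodEquivOfIsCompl_symm_apply] at h2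
    simp only at h2
    simp [b, h2]
  have c2 : ∀ v ∈ Q, ∀ y, b.repr v (Sum.inl y) = 0 := by
    intro v hv y
    have h2 := (Submodule.prodEquivOfIsCompl_symm_apply_fst_eq_zero P Q h).2 hv
    rw [Submodule.prodEquivOfIsCompl_symm_apply] at h2
    simp only at h2
    simp [b, h2]
  let Φ : Matrix n n k ≃ₐ[k] Matrix (Fin (Module.finrank k P) ⊕ Fin (Module.finrank k Q))
      (Fin (Module.finrank k P) ⊕ Fin (Module.finrank k Q)) k :=
    (Matrix.toLinAlgEquiv' : Matrix n n k ≃ₐ[k] ((n → k) →ₗ[k] (n → k))).trans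
      (LinearMap.toMatrixAlgEquiv b)
  have hΦ : ∀ M x y, Φ M x y = b.repr (M *ᵥ b y) x := by
    intro M x y
    show LinearMap.toMatrixAlgEquiv b (Matrix.toLinAlgEquiv' M) x y = _
    rw [LinearMap.toMatrixAlgEquiv_apply]
    rfl
  have hD : (fun i => Φ (T i)) = dsum (fun i => (Φ (T i)).toBlocks₁₁)
      (fun i => (Φ (T i)).toBlocks₂₂) := by
    funext i
    rw [← Matrix.fromBlocks_toBlocks (Φ (T i))]
    show _ = Matrix.fromBlocks _ 0 0 _
    rw [Matrix.fromBlocks_inj]
    refine ⟨by simp, ?_, ?_, by simp⟩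
    · ext x y
      show Φ (T i) (Sum.inl x) (Sum.inr y) = 0
      rw [hΦ]
      exact c2 _ (hQ i _ (b2 y)) x
    · ext x y
      show Φ (T i) (Sum.inr x) (Sum.inl y) = 0
      rw [hΦ]
      exact c1 _ (hP i _ (b1 y)) x
  have hc : ∀ i j, Φ (T i) * Φ (T j) = Φ (T j) * Φ (T i) := by
    intro i j
    rw [← map_mul, hT i j, map_mul]
  have h3 : ∀ i j, dsum (fun i => (Φ (T i)).toBlocks₁₁) (fun i => (Φ (T i)).toBlocks₂₂) i *
      dsum (fun i => (Φ (T i)).toBlocks₁₁) (fun i => (Φ (T i)).toBlocks₂₂) j =
      dsum (fun i => (Φ (T i)).toBlocks₁₁) (fun i => (Φ (T i)).toBlocks₂₂) j *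
      dsum (fun i => (Φ (T i)).toBlocks₁₁) (fun i => (Φ (T i)).toBlocks₂₂) i := by
    intro i j
    rw [← hD]
    exact hc i j
  simp only [dsum, Matrix.fromBlocks_multiply, Matrix.fromBlocks_inj, Matrix.mul_zero,
    Matrix.zero_mul, add_zero, zero_add] at h3
  have h1 := PCl.sum (hall _ hr (by omega) (fun i => (Φ (T i)).toBlocks₁₁) fun i j => (h3 i j).1)
    (hall _ hs (by omega) (fun i => (Φ (T i)).toBlocks₂₂) fun i j => (h3 i j).2.2.2)
  rw [← hD] at h1
  have h2 := PCl.mapEquiv Φ.symm h1
  simpa using h2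

/-- some matrix of the triple has two different eigenvalues -/
def Split (T : Fin 3 → Matrix n n k) : Prop := ∃ i, ∀ c : k, ¬ IsNilpotent (T i - c • 1)

theorem pcl_of_split' [IsAlgClosed k]
    (hall : ∀ r : ℕ, 0 < r → r < Fintype.card n → ∀ T : Fin 3 → Matrix (Fin r) (Fin r) k,
      (∀ i j, T i * T j = T j * T i) → PCl T)
    {T : Fin 3 → Matrix n n k} (hT : ∀ i j, T i * T j = T j * T i) (hs : Split T) : PCl T := by
  obtain ⟨i, hi⟩ := hs
  have hn : Nonempty n := by
    by_contra hcon
    rw [not_nonempty_iff] at hcon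
    exact hi 0 ⟨1, by ext x; exact hcon.elim x⟩
  obtain ⟨c, hc⟩ := IsAlgClosed.exists_root (T i).charpoly (by
    rw [Matrix.charpoly_degree_eq_dim]
    exact_mod_cast Fintype.card_ne_zero)
  set M := T i - c • (1 : Matrix n n k) with hM
  have hdet : M.det = 0 := by
    rw [Polynomial.IsRoot.def, Matrix.eval_charpoly] at hc
    have h1 : Matrix.scalar n c - T i = -M := by
      rw [hM, neg_sub]
      congr 1
      rw [Matrix.smul_one_eq_diagonal]
      rfl
    rw [h1, Matrix.det_neg] at hc
    exact (mul_eq_zero.1 hc).resolve_left (pow_ne_zero _ (neg_ne_zero.2 one_ne_zero))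
  have hcomm : ∀ j, Commute M (T j) := by
    intro j
    show M * T j = T j * M
    rw [hM, Matrix.sub_mul, Matrix.mul_sub, hT i j, Matrix.smul_mul, Matrix.mul_smul,
      Matrix.one_mul, Matrix.mul_one]
  have hfit := (Matrix.toLin' M).eventually_isCompl_ker_pow_range_pow
  obtain ⟨e, he⟩ := Filter.eventually_atTop.1 hfit
  have hc1 := he (e + 1) (by omega)
  rw [← Matrix.toLin'_pow] at hc1
  have hcomm' : ∀ j, M ^ (e + 1) * T j = T j * M ^ (e + 1) := fun j => ((hcomm j).pow_left _).eq
  refine pcl_of_isCompl hall hT hc1 ?_ ?_ ?_ ?_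
  · intro j v hv
    rw [LinearMap.mem_ker, Matrix.toLin'_apply] at hv ⊢
    rw [Matrix.mulVec_mulVec, hcomm', ← Matrix.mulVec_mulVec, hv, Matrix.mulVec_zero]
  · rintro j _ ⟨v, rfl⟩
    refine ⟨T j *ᵥ v, ?_⟩
    rw [Matrix.toLin'_apply, Matrix.toLin'_apply, Matrix.mulVec_mulVec, Matrix.mulVec_mulVec,
      hcomm']
  · obtain ⟨v, hv, hv'⟩ := Matrix.exists_mulVec_eq_zero_iff.2 hdet
    intro h
    apply hv
    have h1 : v ∈ LinearMap.ker (Matrix.toLin' (M ^ (e + 1))) := by
      rw [LinearMap.mem_ker, Matrix.toLin'_apply, pow_succ, ← Matrix.mulVec_mulVec, hv',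
        Matrix.mulVec_zero]
    rw [h, Submodule.mem_bot] at h1
    exact h1
  · intro h
    rw [LinearMap.range_eq_bot] at h
    apply hi c
    refine ⟨e + 1, ?_⟩
    apply Matrix.toLin'.injective
    rw [h, map_zero]

/-- all commuting triples of smaller sizes -/
theorem pcl_of_lt [IsAlgClosed k] {d : ℕ} (hall : HALL k d) : ∀ r : ℕ, 0 < r → r < d →
    ∀ T : Fin 3 → Matrix (Fin r) (Fin r) k, (∀ i j, T i * T j = T j * T i) → PCl T := by
  have : Infinite k := IsAlgClosed.instInfinite
  intro r
  induction r using Nat.strong_induction_on with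
  | _ r ih =>
    intro hr hrd T hT
    by_cases hs : Split T
    · refine pcl_of_split' (fun r' hr' hrr' T' hT' => ?_) hT hs
      rw [Fintype.card_fin] at hrr'
      exact ih r' hrr' hr' (by omega) T' hT'
    · unfold Split at hs
      push Not at hs
      choose c hc using hs
      have h1 : CN fun i => T i - c i • (1 : Matrix (Fin r) (Fin r) k) := by
        refine ⟨fun i j => ?_, hc⟩
        simp only [Matrix.sub_mul, Matrix.mul_sub, Matrix.smul_mul, Matrix.mul_smul,
          Matrix.one_mul, Matrix.mul_one, hT i j, smul_sub, smul_smul, mul_comm (c i) (c j)]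
        abel
      have h2 := (PCl.of_cl (hall r hr hrd _ h1)).translate c
      simpa using h2

/-- commuting triples with two different joint eigenvalues -/
theorem pcl_of_split [IsAlgClosed k] (hall : HALL k (Fintype.card n))
    {T : Fin 3 → Matrix n n k} (hT : ∀ i j, T i * T j = T j * T i) (hs : Split T) : PCl T :=
  pcl_of_split' (pcl_of_lt hall) hT hs

/-- limits of commuting triples with two different joint eigenvalues -/
theorem pcl_of_family [IsAlgClosed k] (hall : HALL k (Fintype.card n))
    {c : k → Fin 3 → Matrix n n k} (hc : PolyFam c)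
    (h : {s | (∀ i j, c s i * c s j = c s j * c s i) ∧ Split (c s)}.Infinite) : PCl (c 0) :=
  PCl.curve hc (h.mono fun _ hs => pcl_of_split hall hs.1 hs.2)

/-- a maximal bad triple of minimal size is indecomposable -/
theorem MaxR.isIndec [IsAlgClosed k] [CharZero k] (hall : HALL k (Fintype.card n)) {ρ : ℕ → ℕ}
    {T : Fin 3 → Matrix n n k} (hT : MaxR ρ T) : Indec T :=
  fun _ he hc => MaxR.indec hall hT he hc

end Pool.Agent.Lib.D13
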