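import Pool.Agent.Lib.D13.Surj

/-!
# MP_5dcbc3_ag: joining strictly triangular commuting triples with a base point

`lift_exact`: lifting lemma for exact complexes: if `J(s) L(s) = 0`, everything is polynomial in `s`
and the complex is exact at `s = 0`, then every element of the kernel of `L(0)` is the value at `0`
of a polynomial element of the kernel of `L(s)`.

`cl_tower`: `w` is a level function with top level `Lm`. Base point with a certificate, and the
exactness condition `EXr` (Koszul homology on the levels `≤ Lm - 2`) for the parts of degree `1` of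
the base point and of `T`: then `T` is a limit of curvilinear triples.
-/

namespace Pool.Agent.Lib.D13

open Matrix Pool.Agent.Lib.Q5dc Pool.Agent.Lib.D7

variable {k : Type*} [Field k]

section Lift

variable {n m p : Type*} [Fintype n] [DecidableEq n] [Fintype m] [DecidableEq m]
  [Fintype p] [DecidableEq p]

/-- generalised inverse -/
theorem geninv (A : Matrix m n k) : ∃ B : Matrix n m k, A * B * A = A := by
  have h1 : Function.Surjective (Matrix.toLin' A).rangeRestrict :=
    LinearMap.surjective_rangeRestrict _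
  obtain ⟨σ, hσ⟩ := (Matrix.toLin' A).rangeRestrict.exists_rightInverse_of_surjective
    (LinearMap.range_eq_top.2 h1)
  obtain ⟨g, hg⟩ := LinearMap.exists_extend σ
  refine ⟨LinearMap.toMatrix' g, ?_⟩
  apply Matrix.toLin'.injective
  rw [Matrix.toLin'_mul, Matrix.toLin'_mul, Matrix.toLin'_toMatrix']
  ext1 x
  ext1
  simp only [LinearMap.comp_apply]
  have h2 : ∀ v, Matrix.toLin' A (g (Matrix.toLin' A v)) = Matrix.toLin' A v := by
    intro v
    have h3 : g (Matrix.toLin' A v) = σ ((Matrix.toLin' A).rangeRestrict v) := by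
      rw [← hg]
      rfl
    rw [h3]
    have h4 := congrArg (fun f => (f ((Matrix.toLin' A).rangeRestrict v) : m → k)) hσ
    simpa using h4
  exact h2 _

/-- contracting homotopy of an exact pair -/
theorem homotopy (L : Matrix m n k) (J : Matrix p m k)
    (ex : ∀ ω : m → k, J *ᵥ ω = 0 → ∃ φ : n → k, L *ᵥ φ = ω) :
    ∃ (h : Matrix n m k) (h' : Matrix m p k), L * h + h' * J = 1 := by
  obtain ⟨g, hg⟩ := geninv L
  obtain ⟨g', hg'⟩ := geninv J
  refine ⟨g * (1 - g' * J), g', ?_⟩
  have h1 : L * (g * (1 - g' * J)) = 1 - g' * J := by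
    apply Matrix.ext_of_mulVec_single
    intro i
    have h2 : J *ᵥ ((1 - g' * J) *ᵥ Pi.single i 1) = 0 := by
      rw [Matrix.mulVec_mulVec, Matrix.mul_sub, Matrix.mul_one, ← Matrix.mul_assoc, hg', sub_self,
        Matrix.zero_mulVec]
    obtain ⟨φ, hφ⟩ := ex _ h2
    rw [← Matrix.mul_assoc, ← Matrix.mulVec_mulVec, ← hφ, Matrix.mulVec_mulVec, hg]
  rw [h1, sub_add_cancel]

/-- the dual of an exact pair -/
theorem dual_exact (L : Matrix m n k) (J : Matrix p m k)
    (ex : ∀ ω : m → k, J *ᵥ ω = 0 → ∃ φ : n → k, L *ᵥ φ = ω) (ψ : m → k) (hψ : ψ ᵥ* L = 0) :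
    ∃ χ : p → k, χ ᵥ* J = ψ := by
  obtain ⟨h, h', hh⟩ := homotopy L J ex
  refine ⟨ψ ᵥ* h', ?_⟩
  rw [Matrix.vecMul_vecMul]
  have h1 : ψ ᵥ* (L * h + h' * J) = ψ := by rw [hh, Matrix.vecMul_one]
  rw [Matrix.vecMul_add, ← Matrix.vecMul_vecMul, hψ, Matrix.zero_vecMul, zero_add] at h1
  exact h1

omit [Fintype p] [DecidableEq p] in
theorem isPoly_mulm {M : k → Matrix p n k} {N : k → Matrix n m k}
    (hM : ∀ x y, IsPoly fun s => M s x y) (hN : ∀ x y, IsPoly fun s => N s x y) :
    ∀ x y, IsPoly fun s => (M s * N s) x y := by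
  intro x y
  simp only [Matrix.mul_apply]
  exact isPoly_sum _ fun j _ => (hM x j).mul (hN j y)

/-- a polynomial function which vanishes where another one does not vanish is zero -/
theorem isPoly_zero [Infinite k] {f g : k → k} (hf : IsPoly f) (hg : IsPoly g) (h : g 0 ≠ 0)
    (hfg : ∀ s, g s * f s = 0) (s : k) : f s = 0 := by
  obtain ⟨P, hP⟩ := hf
  obtain ⟨Q, hQ⟩ := hg
  have h1 : Q * P = 0 := Polynomial.funext fun s => by
    rw [Polynomial.eval_mul, ← hP, ← hQ, hfg, Polynomial.eval_zero]
  rcases mul_eq_zero.1 h1 with h2 | h2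
  · exact absurd (by rw [hQ, h2, Polynomial.eval_zero]) h
  · rw [hP, h2, Polynomial.eval_zero]

/-- **Lifting lemma for exact complexes.** -/
theorem lift_exact [Infinite k] (L : k → Matrix m n k) (J : k → Matrix p m k)
    (hL : ∀ x y, IsPoly fun s => L s x y) (hJ : ∀ x y, IsPoly fun s => J s x y)
    (hJL : ∀ s, J s * L s = 0)
    (ex : ∀ ω : m → k, J 0 *ᵥ ω = 0 → ∃ φ : n → k, L 0 *ᵥ φ = ω)
    (c : n → k) (hc : L 0 *ᵥ c = 0) :
    ∃ v : k → n → k, (∀ i, IsPoly fun s => v s i) ∧ v 0 = c ∧ ∀ s, L s *ᵥ v s = 0 := by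
  obtain ⟨h, h0, hh⟩ := homotopy (L 0) (J 0) ex
  set Q := h0 * J 0 with hQ
  have hQQ : Q * Q = Q := by
    have h1 : Q * (L 0 * h + Q) = Q := by rw [hQ, hh, Matrix.mul_one]
    rw [Matrix.mul_add, ← Matrix.mul_assoc, hQ, Matrix.mul_assoc h0, hJL, Matrix.mul_zero,
      Matrix.zero_mul, zero_add] at h1
    exact h1
  set h' := Q * h0 with hh'
  have hQh' : Q * h' = h' := by rw [hh', ← Matrix.mul_assoc, hQQ]
  have hh1 : L 0 * h + h' * J 0 = 1 := by
    rw [hh', Matrix.mul_assoc, ← hQ, hQQ, hh]
  set D : k → Matrix m m k := fun s => L s * h + h' * J s with hD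
  have hJ'p : ∀ x y, IsPoly fun s => (h' * J s) x y :=
    isPoly_mulm (M := fun _ => h') (fun x y => D7.IsPoly.const _) hJ
  have hDp : ∀ x y, IsPoly fun s => D s x y := fun x y =>
    (isPoly_mulm (N := fun _ => h) hL (fun x y => D7.IsPoly.const _) x y).add (hJ'p x y)
  have hD0 : D 0 = 1 := hh1
  have hJ'L : ∀ s, h' * J s * L s = 0 := fun s => by
    rw [Matrix.mul_assoc, hJL, Matrix.mul_zero]
  have hJ'D : ∀ s, h' * J s * D s = h' * J s * (h' * J s) := fun s => by
    rw [hD]
    dsimp only
    rw [Matrix.mul_add, ← Matrix.mul_assoc, hJ'L, Matrix.zero_mul, zero_add]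
  have hY : ∀ s, h' * J s * (D s).adjugate * L s = 0 := by
    intro s
    set Y : k → Matrix m n k := fun s => h' * J s * (D s).adjugate * L s with hYdef
    have hYp : ∀ x y, IsPoly fun s => Y s x y :=
      isPoly_mulm (isPoly_mulm hJ'p (isPoly_adjugate hDp)) hL
    have hJY : ∀ s, h' * J s * Y s = 0 := by
      intro s
      rw [hYdef]
      dsimp only
      rw [← Matrix.mul_assoc, ← Matrix.mul_assoc, ← hJ'D, Matrix.mul_assoc (h' * J s),
        Matrix.mul_adjugate, Matrix.mul_smul, Matrix.mul_one, Matrix.smul_mul, hJ'L, smul_zero]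
    have hQY : ∀ s, Q * Y s = Y s := by
      intro s
      rw [hYdef]
      dsimp only
      simp only [← Matrix.mul_assoc]
      rw [hQh']
    set M : k → Matrix m m k := fun s => h' * J s * Q + (1 - Q) with hM
    have hMp : ∀ x y, IsPoly fun s => M s x y := fun x y =>
      (isPoly_mulm (N := fun _ => Q) hJ'p (fun x y => D7.IsPoly.const _) x y).add
        (D7.IsPoly.const _)
    have hM0 : M 0 = 1 := by
      rw [hM]
      dsimp only
      rw [hh', Matrix.mul_assoc Q, ← hQ, hQQ, hQQ, add_sub_cancel]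
    have hMY : ∀ s, M s * Y s = 0 := by
      intro s
      rw [hM]
      dsimp only
      rw [Matrix.add_mul, Matrix.sub_mul, Matrix.one_mul, Matrix.mul_assoc (h' * J s), hQY, hJY,
        sub_self, add_zero]
    ext x y
    refine isPoly_zero (g := fun s => (M s).det) (hYp x y) (isPoly_det hMp) ?_ (fun s => ?_) s
    · rw [hM0, Matrix.det_one]
      exact one_ne_zero
    · have h1 : (M s).adjugate * (M s * Y s) = 0 := by rw [hMY, Matrix.mul_zero]
      rw [← Matrix.mul_assoc, Matrix.adjugate_mul, Matrix.smul_mul, Matrix.one_mul] at h1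
      exact congrFun (congrFun h1 x) y
  refine ⟨fun s => (D s).det • c - h *ᵥ ((D s).adjugate *ᵥ (L s *ᵥ c)), fun i => ?_, ?_,
    fun s => ?_⟩
  · refine ((isPoly_det hDp).mul (D7.IsPoly.const _)).sub ?_
    simp only [Matrix.mulVec, dotProduct]
    exact isPoly_sum _ fun j _ => (D7.IsPoly.const _).mul
      (isPoly_sum _ fun l _ => (isPoly_adjugate hDp j l).mul
        (isPoly_sum _ fun q _ => (hL l q).mul (D7.IsPoly.const _)))
  · dsimp only
    rw [hD0, hc, Matrix.mulVec_zero, Matrix.mulVec_zero, Matrix.det_one, one_smul, sub_zero]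
  · have h1 : L s * h = D s - h' * J s := by
      rw [hD]
      dsimp only
      rw [add_sub_cancel_right]
    rw [Matrix.mulVec_sub, Matrix.mulVec_smul, Matrix.mulVec_mulVec, h1, Matrix.sub_mulVec,
      Matrix.mulVec_mulVec, Matrix.mul_adjugate, Matrix.smul_mulVec, Matrix.one_mulVec,
      sub_sub_cancel, Matrix.mulVec_mulVec, Matrix.mulVec_mulVec, hY, Matrix.zero_mulVec]

end Lift

section Tower

variable {ι : Type*} [Fintype ι]

/-- commutation defect of a row -/
def Ph (T : Fin 3 → Matrix ι ι k) (φ : Fin 3 → ι → k) (i : Fin 3) : ι → k :=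
  φ (i + 1) ᵥ* T (i + 2) - φ (i + 2) ᵥ* T (i + 1)

/-- the map which vanishes on the commutation defects -/
def Jh (T : Fin 3 → Matrix ι ι k) (ω : Fin 3 → ι → k) : ι → k := ∑ i, ω i ᵥ* T i

theorem Jh_Ph {T : Fin 3 → Matrix ι ι k} (hc : ∀ i j, T i * T j = T j * T i)
    (φ : Fin 3 → ι → k) : Jh T (Ph T φ) = 0 := by
  have h : ∀ i j l : Fin 3, φ i ᵥ* T j ᵥ* T l = φ i ᵥ* T l ᵥ* T j := by
    intro i j l
    rw [Matrix.vecMul_vecMul, Matrix.vecMul_vecMul, hc]
  simp only [Jh, Ph, Fin.sum_univ_three, Matrix.sub_vecMul]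
  have e0 : (0 : Fin 3) + 1 = 1 := rfl
  have e1 : (0 : Fin 3) + 2 = 2 := rfl
  have e2 : (1 : Fin 3) + 1 = 2 := rfl
  have e3 : (1 : Fin 3) + 2 = 0 := rfl
  have e4 : (2 : Fin 3) + 1 = 0 := rfl
  have e5 : (2 : Fin 3) + 2 = 1 := rfl
  rw [e0, e1, e2, e3, e4, e5, h 1 2 0, h 2 1 0, h 0 2 1]
  abel

theorem Ph_add (T : Fin 3 → Matrix ι ι k) (φ φ' : Fin 3 → ι → k) :
    Ph T (φ + φ') = Ph T φ + Ph T φ' := by
  funext i
  simp only [Ph, Pi.add_apply, Matrix.add_vecMul]
  abel

theorem Ph_smul (T : Fin 3 → Matrix ι ι k) (r : k) (φ : Fin 3 → ι → k) :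
    Ph T (r • φ) = r • Ph T φ := by
  funext i
  simp only [Ph, Pi.smul_apply, Matrix.smul_vecMul, smul_sub]

theorem Jh_sub (T : Fin 3 → Matrix ι ι k) (ω ω' : Fin 3 → ι → k) :
    Jh T (ω - ω') = Jh T ω - Jh T ω' := by
  simp only [Jh, Pi.sub_apply, Matrix.sub_vecMul, Finset.sum_sub_distrib]

/-- exactness of the Koszul complex of the part of degree `1` on the level `a`, in terms of rows -/
def EXr (w : ι → ℕ) (T : Fin 3 → Matrix ι ι k) (a : ℕ) : Prop :=
  ∀ ω : Fin 3 → ι → k, (∀ i z, w z ≠ a → ω i z = 0) →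
    (∀ u, w u + 1 = a → Jh T ω u = 0) →
    ∃ φ : Fin 3 → ι → k, (∀ i y, w y ≠ a + 1 → φ i y = 0) ∧ ∀ i z, w z = a → Ph T φ i z = ω i z

theorem vecMul_congr {φ : ι → k} {A B : Matrix ι ι k} {z : ι}
    (h : ∀ y, φ y ≠ 0 → A y z = B y z) : (φ ᵥ* A) z = (φ ᵥ* B) z := by
  simp only [Matrix.vecMul, dotProduct]
  refine Finset.sum_congr rfl fun y _ => ?_
  by_cases h1 : φ y = 0
  · rw [h1, zero_mul, zero_mul]
  · rw [h y h1]

theorem EXr.congr {w : ι → ℕ} {T T' : Fin 3 → Matrix ι ι k} {a : ℕ} (h : EXr w T a)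
    (hT : ∀ i x y, w x = w y + 1 → w x ≤ a + 1 → T i x y = T' i x y) : EXr w T' a := by
  intro ω h1 h2
  obtain ⟨φ, h3, h4⟩ := h ω h1 (by
    intro u hu
    rw [← h2 u hu]
    simp only [Jh, Finset.sum_apply]
    refine Finset.sum_congr rfl fun i _ => ?_
    refine vecMul_congr fun y hy => ?_
    by_cases h5 : w y = a
    · exact hT i y u (by omega) (by omega)
    · exact absurd (h1 i y h5) hy)
  refine ⟨φ, h3, fun i z hz => ?_⟩
  rw [← h4 i z hz]
  simp only [Ph, Pi.sub_apply]
  have key : ∀ i j, (φ i ᵥ* T' j) z = (φ i ᵥ* T j) z := by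
    intro i j
    refine vecMul_congr fun y hy => ?_
    by_cases h5 : w y = a + 1
    · exact (hT j y z (by omega) (by omega)).symm
    · exact absurd (h3 i y h5) hy
  rw [key, key]

theorem vecMul_zero_of {φ : ι → k} {A : Matrix ι ι k} {z : ι}
    (h : ∀ y, φ y = 0 ∨ A y z = 0) : (φ ᵥ* A) z = 0 := by
  simp only [Matrix.vecMul, dotProduct]
  refine Finset.sum_eq_zero fun y _ => ?_
  rcases h y with h1 | h1
  · rw [h1, zero_mul]
  · rw [h1, mul_zero]

/-- exactness of the filtered complex -/
theorem filt_exact {w : ι → ℕ} {T : Fin 3 → Matrix ι ι k} (hc : ∀ i j, T i * T j = T j * T i)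
    (hlow : ∀ i x y, w x ≤ w y → T i x y = 0) (l : ℕ) (hex : ∀ a < l, EXr w T a) :
    ∀ b ≤ l, ∀ ω : Fin 3 → ι → k, (∀ i z, b ≤ w z → ω i z = 0) → Jh T ω = 0 →
      ∃ φ : Fin 3 → ι → k, (∀ i y, b < w y → φ i y = 0) ∧ Ph T φ = ω := by
  intro b
  induction b with
  | zero =>
    intro _ ω hω _
    refine ⟨0, fun _ _ _ => rfl, ?_⟩
    funext i z
    rw [hω i z (Nat.zero_le _)]
    simp [Ph]
  | succ b ih =>
    intro hb ω hω hJ
    classical
    set ω' : Fin 3 → ι → k := fun i z => if w z = b then ω i z else 0 with hω'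
    obtain ⟨φ, h1, h2⟩ := hex b (by omega) ω' (fun i z h => by
        rw [hω']
        exact if_neg h) (by
      intro u hu
      have hJu : Jh T ω u = 0 := congrFun hJ u
      rw [← hJu]
      simp only [Jh, Finset.sum_apply]
      refine Finset.sum_congr rfl fun i _ => ?_
      simp only [Matrix.vecMul, dotProduct]
      refine Finset.sum_congr rfl fun z _ => ?_
      rw [hω']
      dsimp only
      by_cases h3 : w z = b
      · rw [if_pos h3]
      · rw [if_neg h3, zero_mul]
        by_cases h4 : b + 1 ≤ w z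
        · rw [hω i z h4, zero_mul]
        · rw [hlow i z u (by omega), mul_zero])
    have h3 : ∀ i z, b ≤ w z → (ω - Ph T φ) i z = 0 := by
      intro i z hz
      simp only [Pi.sub_apply]
      rcases Nat.eq_or_lt_of_le hz with h4 | h4
      · rw [h2 i z h4.symm, hω']
        dsimp only
        rw [if_pos h4.symm, sub_self]
      · rw [hω i z h4]
        have key : ∀ i j, (φ i ᵥ* T j) z = 0 := by
          intro i j
          refine vecMul_zero_of fun y => ?_
          by_cases h5 : w y = b + 1
          · exact Or.inr (hlow j y z (by omega))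
          · exact Or.inl (h1 i y h5)
        simp only [Ph, Pi.sub_apply, key, sub_zero]
    obtain ⟨φ', h4, h5⟩ := ih (by omega) (ω - Ph T φ) h3 (by
      rw [Jh_sub, hJ, Jh_Ph hc, sub_zero])
    refine ⟨φ + φ', fun i y hy => ?_, ?_⟩
    · rw [Pi.add_apply, Pi.add_apply, h1 i y (by omega), h4 i y (by omega), add_zero]
    · rw [Ph_add, h5, add_sub_cancel]

variable [DecidableEq ι]

/-- lifting of a row -/
theorem row_lift [Infinite k] {w : ι → ℕ} {c : k → Fin 3 → Matrix ι ι k} (hp : PolyFam c)
    (hcm : ∀ s i j, c s i * c s j = c s j * c s i)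
    (hlow : ∀ s i x y, w x ≤ w y → c s i x y = 0) (l : ℕ)
    (hrow : ∀ s i x y, l < w x → c s i x y = 0) (hex : ∀ a < l, EXr w (c 0) a)
    (φ₀ : Fin 3 → ι → k) (h0 : Ph (c 0) φ₀ = 0) :
    ∃ φ : k → Fin 3 → ι → k, (∀ i y, IsPoly fun s => φ s i y) ∧ φ 0 = φ₀ ∧
      ∀ s, Ph (c s) (φ s) = 0 := by
  set L : k → Matrix (Fin 3 × ι) (Fin 3 × ι) k := fun s => Matrix.of fun a b =>
    (if b.1 = a.1 + 1 then c s (a.1 + 2) b.2 a.2 else 0) -
      (if b.1 = a.1 + 2 then c s (a.1 + 1) b.2 a.2 else 0) with hL
  set J : k → Matrix (ι ⊕ (Fin 3 × ι)) (Fin 3 × ι) k := fun s => Matrix.of fun u a =>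
    match u with
    | .inl u => c s a.1 a.2 u
    | .inr q => if q = a ∧ l ≤ w q.2 then 1 else 0 with hJ
  have hLφ : ∀ s (φ : Fin 3 × ι → k) i z, (L s *ᵥ φ) (i, z) = Ph (c s) (fun i y => φ (i, y)) i z := by
    intro s φ i z
    simp only [hL, Matrix.mulVec, dotProduct, Matrix.of_apply, Fintype.sum_prod_type, sub_mul,
      Finset.sum_sub_distrib, ite_mul, zero_mul, Ph, Pi.sub_apply, Matrix.vecMul]
    congr 1
    · rw [Finset.sum_eq_single (i + 1)]
      · simp [mul_comm]
      · intro j _ hj
        simp [hj]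
      · simp
    · rw [Finset.sum_eq_single (i + 2)]
      · simp [mul_comm]
      · intro j _ hj
        simp [hj]
      · simp
  have hJω : ∀ s (ω : Fin 3 × ι → k) u, (J s *ᵥ ω) (.inl u) =
      Jh (c s) (fun i y => ω (i, y)) u := by
    intro s ω u
    simp only [hJ, Matrix.mulVec, dotProduct, Matrix.of_apply, Fintype.sum_prod_type, Jh,
      Finset.sum_apply, Matrix.vecMul]
    exact Finset.sum_congr rfl fun i _ => Finset.sum_congr rfl fun z _ => mul_comm _ _
  have hJω' : ∀ s (ω : Fin 3 × ι → k) q, (J s *ᵥ ω) (.inr q) = if l ≤ w q.2 then ω q else 0 := by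
    intro s ω q
    simp only [hJ, Matrix.mulVec, dotProduct, Matrix.of_apply]
    rw [Finset.sum_eq_single q]
    · by_cases h : l ≤ w q.2 <;> simp [h]
    · intro a _ ha
      simp [Ne.symm ha]
    · simp
  have hPz : ∀ s (φ : Fin 3 → ι → k) i z, l ≤ w z → Ph (c s) φ i z = 0 := by
    intro s φ i z hz
    have key : ∀ i j, (φ i ᵥ* c s j) z = 0 := by
      intro i j
      refine vecMul_zero_of fun y => Or.inr ?_
      by_cases h5 : l < w y
      · exact hrow s j y z h5
      · exact hlow s j y z (by omega)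
    simp only [Ph, Pi.sub_apply, key, sub_zero]
  obtain ⟨v, hv, hv0, hvs⟩ := lift_exact L J (by
      intro x y
      simp only [hL, Matrix.of_apply]
      refine D7.IsPoly.sub ?_ ?_
      · by_cases h : y.1 = x.1 + 1
        · simpa [h] using hp _ _ _
        · simpa [h] using D7.IsPoly.const (0 : k)
      · by_cases h : y.1 = x.1 + 2
        · simpa [h] using hp _ _ _
        · simpa [h] using D7.IsPoly.const (0 : k)) (by
      intro x y
      rcases x with x | x
      · exact hp _ _ _
      · exact D7.IsPoly.const _) (by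
      intro s
      apply Matrix.ext_of_mulVec_single
      intro q
      rw [← Matrix.mulVec_mulVec, Matrix.zero_mulVec]
      set φ := (Pi.single q 1 : Fin 3 × ι → k)
      funext u
      rcases u with u | ⟨i, z⟩
      · rw [hJω]
        have h1 : (fun i y => (L s *ᵥ φ) (i, y)) = Ph (c s) (fun i y => φ (i, y)) := by
          funext i y
          exact hLφ s φ i y
        rw [h1, Jh_Ph (hcm s)]
        rfl
      · rw [hJω']
        by_cases h : l ≤ w z
        · rw [if_pos h, hLφ, hPz s _ i z h]
          rfl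
        · rw [if_neg h]
          rfl) (by
      intro ω hω
      have h1 : Jh (c 0) (fun i y => ω (i, y)) = 0 := by
        funext u
        rw [← hJω, hω]
        rfl
      have h2 : ∀ i z, l ≤ w z → ω (i, z) = 0 := by
        intro i z hz
        have h3 := hJω' 0 ω (i, z)
        rw [hω, if_pos hz] at h3
        exact h3.symm
      obtain ⟨φ, -, hφ⟩ := filt_exact (hcm 0) (hlow 0) l hex l le_rfl (fun i y => ω (i, y)) h2 h1
      refine ⟨fun q => φ q.1 q.2, ?_⟩
      funext q
      obtain ⟨i, z⟩ := q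
      rw [hLφ]
      exact congrFun (congrFun hφ i) z) (fun q => φ₀ q.1 q.2) (by
      funext q
      obtain ⟨i, z⟩ := q
      rw [hLφ]
      exact congrFun (congrFun h0 i) z)
  refine ⟨fun s i y => v s (i, y), fun i y => hv (i, y), ?_, fun s => ?_⟩
  · funext i y
    exact congrFun hv0 (i, y)
  · funext i z
    rw [← hLφ, hvs]
    rfl

/-- a commuting strictly triangular triple is joined with another one by a polynomial family -/
theorem path [Infinite k] {w : ι → ℕ} {T₀ T : Fin 3 → Matrix ι ι k}
    (c0 : ∀ i j, T₀ i * T₀ j = T₀ j * T₀ i) (c1 : ∀ i j, T i * T j = T j * T i)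
    (l0 : ∀ i x y, w x ≤ w y → T₀ i x y = 0) (l1 : ∀ i x y, w x ≤ w y → T i x y = 0)
    (Lm : ℕ) (hw : ∀ x, w x ≤ Lm) (e0 : ∀ a, a + 2 ≤ Lm → EXr w T₀ a)
    (e1 : ∀ a, a + 2 ≤ Lm → EXr w T a) :
    ∃ c : k → Fin 3 → Matrix ι ι k, PolyFam c ∧ (∀ s i j, c s i * c s j = c s j * c s i) ∧
      (∀ s i x y, w x ≤ w y → c s i x y = 0) ∧ c 0 = T₀ ∧ c 1 = T := by
  have main : ∀ l, l ≤ Lm → ∃ c : k → Fin 3 → Matrix ι ι k, PolyFam c ∧
      (∀ s i j, c s i * c s j = c s j * c s i) ∧ (∀ s i x y, w x ≤ w y → c s i x y = 0) ∧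
      (∀ s i x y, l < w x → c s i x y = 0) ∧ (∀ i x y, w x ≤ l → c 0 i x y = T₀ i x y) ∧
      (∀ i x y, w x ≤ l → c 1 i x y = T i x y) := by
    intro l
    induction l with
    | zero =>
      intro _
      refine ⟨fun _ _ => 0, fun i x y => D7.IsPoly.const _, fun _ _ _ => rfl, fun _ _ _ _ _ => rfl,
        fun _ _ _ _ _ => rfl, fun i x y h => ?_, fun i x y h => ?_⟩
      · rw [l0 i x y (by omega)]
        rfl
      · rw [l1 i x y (by omega)]
        rfl
    | succ l ih =>
      intro hl
      obtain ⟨c, hp, hcm, hlow, hrow, h0, h1⟩ := ih (by omega)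
      have hx : ∀ x, w x = l + 1 → ∃ v : k → Fin 3 → ι → k, (∀ i y, IsPoly fun s => v s i y) ∧
          v 0 = (fun i => T₀ i x) ∧ v 1 = (fun i => T i x) ∧ ∀ s, Ph (c s) (v s) = 0 := by
        intro x hx
        have hrowT : ∀ (T' : Fin 3 → Matrix ι ι k) (c' : Fin 3 → Matrix ι ι k)
            (hcT : ∀ i j, T' i * T' j = T' j * T' i) (hl' : ∀ i x y, w x ≤ w y → T' i x y = 0)
            (he : ∀ i x y, w x ≤ l → c' i x y = T' i x y), Ph c' (fun i => T' i x) = 0 := by
          intro T' c' hcT hl' he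
          funext i z
          have key : ∀ i j, (T' i x ᵥ* c' j) z = (T' i * T' j) x z := by
            intro i j
            rw [Matrix.mul_apply]
            simp only [Matrix.vecMul, dotProduct]
            refine Finset.sum_congr rfl fun y _ => ?_
            by_cases h3 : w y ≤ l
            · rw [he j y z h3]
            · rw [hl' i x y (by omega), zero_mul, zero_mul]
          simp only [Ph, Pi.sub_apply, key]
          rw [hcT, sub_self]
          rfl
        obtain ⟨v0, a1, a2, a3⟩ := row_lift hp hcm hlow l hrow (fun a ha =>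
          (e0 a (by omega)).congr fun i x y _ h => (h0 i x y (by omega)).symm) (fun i => T₀ i x)
          (hrowT T₀ (c 0) c0 l0 h0)
        obtain ⟨v1, b1, b2, b3⟩ := row_lift (c := fun s => c (1 - s))
          (fun i x y => isPoly_flip (hp i x y)) (fun s => hcm _) (fun s => hlow _) l
          (fun s => hrow _) (fun a ha =>
          (e1 a (by omega)).congr fun i x y _ h => by
            simp only [sub_zero]
            exact (h1 i x y (by omega)).symm) (fun i => T i x)
          (by
            simp only [sub_zero]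
            exact hrowT T (c 1) c1 l1 h1)
        refine ⟨fun s => (1 - s) • v0 s + s • v1 (1 - s), fun i y => ?_, ?_, ?_, fun s => ?_⟩
        · exact (((D7.IsPoly.const 1).sub D7.IsPoly.id).mul (a1 i y)).add
            (D7.IsPoly.id.mul (isPoly_flip (b1 i y)))
        · simp [a2]
        · simp [b2]
        · have b4 := b3 (1 - s)
          simp only [sub_sub_cancel] at b4
          rw [Ph_add, Ph_smul, Ph_smul, a3, b4, smul_zero, smul_zero, add_zero]
      choose! v hv using hx
      set c' : k → Fin 3 → Matrix ι ι k := fun s i => Matrix.of fun x y =>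
        if w x = l + 1 then (if w y ≤ l then v x s i y else 0) else c s i x y with hc'
      refine ⟨c', ?_, ?_, ?_, ?_, ?_, ?_⟩
      · intro i x y
        simp only [hc', Matrix.of_apply]
        by_cases h3 : w x = l + 1
        · by_cases h4 : w y ≤ l
          · simpa [h3, h4] using (hv x h3).1 i y
          · simpa [h3, h4] using D7.IsPoly.const (0 : k)
        · simpa [h3] using hp i x y
      · intro s i j
        ext x z
        by_cases h3 : w x = l + 1
        · have key : ∀ i j, (c' s i * c' s j) x z = (v x s i ᵥ* c s j) z := by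
            intro i j
            rw [Matrix.mul_apply]
            simp only [Matrix.vecMul, dotProduct]
            refine Finset.sum_congr rfl fun y _ => ?_
            simp only [hc', Matrix.of_apply, if_pos h3]
            by_cases h4 : w y ≤ l
            · rw [if_pos h4, if_neg (by omega)]
            · rw [if_neg h4, zero_mul, hrow s j y z (by omega), mul_zero]
          rw [key, key]
          have h5 := (hv x h3).2.2.2 s
          have h6 : ∀ i, (v x s (i + 1) ᵥ* c s (i + 2)) z = (v x s (i + 2) ᵥ* c s (i + 1)) z := by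
            intro i
            have h7 := congrFun (congrFun h5 i) z
            simp only [Ph, Pi.sub_apply, Pi.zero_apply] at h7
            exact sub_eq_zero.1 h7
          have e0 := h6 0
          have e1 := h6 1
          have e2 := h6 2
          have f0 : (0 : Fin 3) + 1 = 1 := rfl
          have f1 : (0 : Fin 3) + 2 = 2 := rfl
          have f2 : (1 : Fin 3) + 1 = 2 := rfl
          have f3 : (1 : Fin 3) + 2 = 0 := rfl
          have f4 : (2 : Fin 3) + 1 = 0 := rfl
          have f5 : (2 : Fin 3) + 2 = 1 := rfl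
          rw [f0, f1] at e0
          rw [f2, f3] at e1
          rw [f4, f5] at e2
          fin_cases i <;> fin_cases j <;>
            first | rfl | exact e0 | exact e1 | exact e2 | exact e0.symm | exact e1.symm |
              exact e2.symm
        · have key : ∀ i j, (c' s i * c' s j) x z = (c s i * c s j) x z := by
            intro i j
            rw [Matrix.mul_apply, Matrix.mul_apply]
            refine Finset.sum_congr rfl fun y _ => ?_
            simp only [hc', Matrix.of_apply, if_neg h3]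
            by_cases h4 : w y < w x
            · by_cases h5 : l < w x
              · rw [hrow s i x y h5, zero_mul, zero_mul]
              · rw [if_neg (by omega)]
            · rw [hlow s i x y (by omega), zero_mul, zero_mul]
          rw [key, key, hcm]
      · intro s i x y hxy
        simp only [hc', Matrix.of_apply]
        by_cases h3 : w x = l + 1
        · rw [if_pos h3, if_neg (by omega)]
        · rw [if_neg h3, hlow s i x y hxy]
      · intro s i x y hx
        simp only [hc', Matrix.of_apply]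
        rw [if_neg (by omega), hrow s i x y (by omega)]
      · intro i x y hx
        simp only [hc', Matrix.of_apply]
        by_cases h3 : w x = l + 1
        · rw [if_pos h3, (hv x h3).2.1]
          by_cases h4 : w y ≤ l
          · rw [if_pos h4]
          · rw [if_neg h4, l0 i x y (by omega)]
        · rw [if_neg h3, h0 i x y (by omega)]
      · intro i x y hx
        simp only [hc', Matrix.of_apply]
        by_cases h3 : w x = l + 1
        · rw [if_pos h3, (hv x h3).2.2.1]
          by_cases h4 : w y ≤ l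
          · rw [if_pos h4]
          · rw [if_neg h4, l1 i x y (by omega)]
        · rw [if_neg h3, h1 i x y (by omega)]
  obtain ⟨c, hp, hcm, hlow, -, h0, h1⟩ := main Lm le_rfl
  refine ⟨c, hp, hcm, hlow, ?_, ?_⟩
  · funext i
    ext x y
    exact h0 i x y (hw x)
  · funext i
    ext x y
    exact h1 i x y (hw x)

/-- **one base point is enough**: every commuting triple which is strictly triangular for `w` and
satisfies the exactness condition is a limit of curvilinear triples -/
theorem cl_tower [Infinite k] {w : ι → ℕ} {N0 : Matrix ι ι k}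
    (h1 : N0 ^ Fintype.card ι = 0) (h2 : N0 ^ (Fintype.card ι - 1) ≠ 0)
    {X : Fin 3 → Matrix ι ι k}
    (hX : ∀ i, ∃ p : Polynomial k, p.coeff 0 = 0 ∧ X i = Polynomial.aeval N0 p)
    (hdeg : ∀ i x y, w y + 2 ≤ w x → X i x y = 0) (cert : ∀ κ, 1 ≤ κ → Cert w N0 X κ)
    (Lm : ℕ) (hw : ∀ x, w x ≤ Lm) (eX : ∀ a, a + 2 ≤ Lm → EXr w X a)
    {T : Fin 3 → Matrix ι ι k} (hT : ∀ i j, T i * T j = T j * T i)
    (hlow : ∀ i x y, w x ≤ w y → T i x y = 0) (eT : ∀ a, a + 2 ≤ Lm → EXr w T a) : Cl T := by
  have hXX : ∀ i j, X i * X j = X j * X i := by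
    intro i j
    obtain ⟨p, -, hp⟩ := hX i
    obtain ⟨q, -, hq⟩ := hX j
    rw [hp, hq, ← map_mul, ← map_mul, mul_comm]
  set T₀ : Fin 3 → Matrix ι ι k := fun i => Matrix.of fun x y =>
    if w x = w y + 1 then X i x y else 0 with hT₀
  have key : ∀ i j x z, (T₀ i * T₀ j) x z = if w x = w z + 2 then (X i * X j) x z else 0 := by
    intro i j x z
    rw [Matrix.mul_apply]
    simp only [hT₀, Matrix.of_apply]
    split_ifs with h3
    · rw [Matrix.mul_apply]
      refine Finset.sum_congr rfl fun y _ => ?_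
      by_cases h4 : w y = w z + 1
      · rw [if_pos (by omega), if_pos h4]
      · by_cases h5 : w y < w z + 1
        · rw [if_neg (by omega), zero_mul, hdeg i x y (by omega), zero_mul]
        · rw [if_neg h4, mul_zero, hdeg j y z (by omega), mul_zero]
    · refine Finset.sum_eq_zero fun y _ => ?_
      by_cases h4 : w y = w z + 1
      · rw [if_neg (by omega), zero_mul]
      · rw [if_neg h4, mul_zero]
  obtain ⟨c, hp, hcm, hl, h0, hc1⟩ := path (w := w) (T₀ := T₀) (T := T) (by
      intro i j
      ext x z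
      rw [key, key, hXX]) hT (by
      intro i x y hxy
      simp only [hT₀, Matrix.of_apply]
      rw [if_neg (by omega)]) hlow Lm hw (fun a ha => (eX a ha).congr fun i x y hxy _ => by
      simp only [hT₀, Matrix.of_apply]
      rw [if_pos hxy]) eT
  have h3 := fdc h1 h2 hX hdeg cert c hp hcm hl (by
    intro i x y hxy
    rw [h0]
    simp only [hT₀, Matrix.of_apply]
    rw [if_pos hxy]) 1
  rwa [hc1] at h3

end Tower

end Pool.Agent.Lib.D13
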