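import Pool.Agent.Lib.D13.AutoCut
import Pool.Agent.Lib.D13.PCl
import Pool.Agent.Lib.D13.Tower
import Pool.Agent.Lib.D13.GenCnt

/-!
# MP_5dcbc3_ag: extensions of commuting triples by a common eigenvector

The commuting triples `(T', row)` with `T'` in an irreducible family form a family of large
dimension, because the equations satisfy the Koszul relation.
-/

namespace Pool.Agent.Lib.D13

open Matrix MvPolynomial Pool.Agent.Lib.Q5dc Pool.Agent.Lib.D7 Pur

universe u

namespace Auto

/-- coordinates of a triple of matrices together with three rows -/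
abbrev Sg (n : Type) : Type := (Fin 3 × n × n) ⊕ (Fin 3 × (n ⊕ Unit))

section

variable {n : Type} {S : Type*}

/-- the matrices -/
def mT (z : Sg n → S) (i : Fin 3) : Matrix n n S := Matrix.of fun a b => z (Sum.inl (i, a, b))

/-- the rows -/
def rw' (z : Sg n → S) (i : Fin 3) : n → S := fun a => z (Sum.inr (i, Sum.inl a))

/-- the last entries -/
def pt (z : Sg n → S) (i : Fin 3) : S := z (Sum.inr (i, Sum.inr ()))

/-- the extended triple -/
def ex [Zero S] (z : Sg n → S) (i : Fin 3) : Matrix (n ⊕ Unit) (n ⊕ Unit) S :=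
  Matrix.fromBlocks (mT z i) 0 (Matrix.of fun _ a => rw' z i a) (Matrix.of fun _ _ => pt z i)

end

variable {k : Type u} [Field k] {n : Type} [Fintype n] [DecidableEq n]

/-- the matrices minus the eigenvalues -/
def nT (z : Sg n → k) (i : Fin 3) : Matrix n n k := mT z i - pt z i • 1

theorem nT_comm {z : Sg n → k} (h : ∀ i j, mT z i * mT z j = mT z j * mT z i) (i j : Fin 3) :
    nT z i * nT z j = nT z j * nT z i := by
  simp only [nT, Matrix.sub_mul, Matrix.mul_sub, Matrix.smul_mul, Matrix.mul_smul, Matrix.one_mul,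
    Matrix.mul_one, h i j, smul_sub, smul_smul, mul_comm (pt z i) (pt z j)]
  abel

theorem ex_comm_iff {z : Sg n → k} (i j : Fin 3) (h : mT z i * mT z j = mT z j * mT z i) :
    ex z i * ex z j = ex z j * ex z i ↔ rw' z i ᵥ* nT z j = rw' z j ᵥ* nT z i := by
  simp only [ex, Matrix.fromBlocks_multiply, Matrix.fromBlocks_inj, Matrix.mul_zero,
    Matrix.zero_mul, add_zero, zero_add]
  have h3 : (Matrix.of fun _ _ => pt z i : Matrix Unit Unit k) * (Matrix.of fun _ _ => pt z j) =
      (Matrix.of fun _ _ => pt z j) * (Matrix.of fun _ _ => pt z i) := by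
    ext a b
    simp [Matrix.mul_apply, mul_comm]
  constructor
  · rintro ⟨-, -, h1, -⟩
    funext a
    have h2 := congrFun (congrFun h1 ()) a
    simp only [Matrix.add_apply, Matrix.mul_apply, Matrix.of_apply, Finset.univ_unique,
      Finset.sum_singleton] at h2
    simp only [nT, Matrix.vecMul_sub, Matrix.vecMul_smul, Matrix.vecMul_one, Pi.sub_apply,
      Pi.smul_apply, smul_eq_mul]
    simp only [Matrix.vecMul, dotProduct]
    linear_combination h2
  · intro h1
    refine ⟨h, trivial, ?_, h3⟩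
    ext a b
    have h2 := congrFun h1 b
    simp only [nT, Matrix.vecMul_sub, Matrix.vecMul_smul, Matrix.vecMul_one, Pi.sub_apply,
      Pi.smul_apply, smul_eq_mul] at h2
    simp only [Matrix.vecMul, dotProduct] at h2
    simp only [Matrix.add_apply, Matrix.mul_apply, Matrix.of_apply, Finset.univ_unique,
      Finset.sum_singleton]
    linear_combination h2

/-- the defect -/
theorem ex_comm_of {z : Sg n → k} (h : ∀ i j, mT z i * mT z j = mT z j * mT z i)
    (h0 : Ph (nT z) (rw' z) = 0) (i j : Fin 3) : ex z i * ex z j = ex z j * ex z i := by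
  have key : ∀ i, rw' z (i + 1) ᵥ* nT z (i + 2) = rw' z (i + 2) ᵥ* nT z (i + 1) := fun i =>
    sub_eq_zero.1 (congrFun h0 i)
  rw [ex_comm_iff i j (h i j)]
  have e0 := key 0
  have e1 := key 1
  have e2 := key 2
  have f0 : (0 : Fin 3) + 1 = 1 := rfl
  have f1 : (0 : Fin 3) + 2 = 2 := rfl
  have f2 : (1 : Fin 3) + 1 = 2 := rfl
  have f3 : (1 : Fin 3) + 2 = 0 := rfl
  have f4 : (2 : Fin 3) + 1 = 0 := rfl
  have f5 : (2 : Fin 3) + 2 = 1 := rfl
  rw [f0, f1] at e0
  rw [f2, f3] at e1
  rw [f4, f5] at e2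
  fin_cases i <;> fin_cases j <;>
    first | rfl | exact e0 | exact e1 | exact e2 | exact e0.symm | exact e1.symm | exact e2.symm

theorem Ph_of_comm {z : Sg n → k} (h : ∀ i j, mT z i * mT z j = mT z j * mT z i)
    (h0 : ∀ i j, ex z i * ex z j = ex z j * ex z i) : Ph (nT z) (rw' z) = 0 := by
  funext i
  show rw' z (i + 1) ᵥ* nT z (i + 2) - rw' z (i + 2) ᵥ* nT z (i + 1) = 0
  rw [sub_eq_zero]
  exact (ex_comm_iff _ _ (h _ _)).1 (h0 _ _)

theorem mp_coord (s : Sg n) : MP fun z : Sg n → k => z s := MP.coord s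

theorem mp_nT (i : Fin 3) (a b : n) : MP fun z : Sg n → k => nT z i a b := by
  have h1 : (fun z : Sg n → k => nT z i a b) = fun z => z (Sum.inl (i, a, b)) -
      z (Sum.inr (i, Sum.inr ())) * (1 : Matrix n n k) a b := by
    funext z
    rfl
  rw [h1]
  exact (mp_coord _).sub ((mp_coord _).mul (MP.const _))

theorem mp_Ph (i : Fin 3) (a : n) : MP fun z : Sg n → k => Ph (nT z) (rw' z) i a := by
  have h1 : (fun z : Sg n → k => Ph (nT z) (rw' z) i a) = fun z =>
      ∑ b, z (Sum.inr (i + 1, Sum.inl b)) * nT z (i + 2) b a -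
        ∑ b, z (Sum.inr (i + 2, Sum.inl b)) * nT z (i + 1) b a := by
    funext z
    rfl
  rw [h1]
  exact (MP.sum _ fun b _ => (mp_coord _).mul (mp_nT _ _ _)).sub
    (MP.sum _ fun b _ => (mp_coord _).mul (mp_nT _ _ _))

/-- the common kernel -/
def cker (M : Fin 3 → Matrix n n k) : Submodule k (n → k) where
  carrier := {u | ∀ i, M i *ᵥ u = 0}
  add_mem' {a b} ha hb := by
    simp only [Set.mem_ofPred_eq] at *
    intro i
    rw [Matrix.mulVec_add, ha, hb, add_zero]
  zero_mem' := by simp
  smul_mem' c a ha := by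
    simp only [Set.mem_ofPred_eq] at *
    intro i
    rw [Matrix.mulVec_smul, ha, smul_zero]

/-- the matrix of the Koszul relation -/
def KM (M : Fin 3 → Matrix n n k) : Matrix n (Fin 3 × n) k := Matrix.of fun y c => M c.1 c.2 y

theorem KM_rank (M : Fin 3 → Matrix n n k) :
    (KM M).rank + Module.finrank k (cker M) = Fintype.card n := by
  have h1 : LinearMap.ker (KM M)ᵀ.mulVecLin = cker M := by
    ext u
    rw [LinearMap.mem_ker, Matrix.mulVecLin_apply]
    constructor
    · intro h i
      funext x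
      exact congrFun h (i, x)
    · intro h
      funext c
      exact congrFun (h c.1) c.2
  have h2 := LinearMap.finrank_range_add_finrank_ker (KM M)ᵀ.mulVecLin
  rw [h1] at h2
  rw [← Matrix.rank_transpose (KM M)]
  have h3 : Module.finrank k (LinearMap.range (KM M)ᵀ.mulVecLin) = (KM M)ᵀ.rank := rfl
  rw [h3, Module.finrank_fintype_fun_eq_card] at h2
  exact h2

theorem KM_mulVec (M : Fin 3 → Matrix n n k) (ω : Fin 3 → n → k) :
    KM M *ᵥ (fun c => ω c.1 c.2) = Jh M ω := by
  funext y
  have h1 : (KM M *ᵥ (fun c => ω c.1 c.2)) y = ∑ c : Fin 3 × n, M c.1 c.2 y * ω c.1 c.2 := rfl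
  rw [h1, ← Finset.univ_product_univ, Finset.sum_product]
  simp only [Jh, Finset.sum_apply]
  refine Finset.sum_congr rfl fun i _ => ?_
  simp only [Matrix.vecMul, dotProduct]
  exact Finset.sum_congr rfl fun x _ => mul_comm _ _

/-- **the extensions**: `2 card n + s` equations are enough -/
theorem ext_family [IsAlgClosed k] (I : Ideal (MvPolynomial (Sg n) k)) [I.IsPrime]
    (hcm : ∀ z : Sg n → k, (∀ F ∈ I, eval z F = 0) → ∀ i j, mT z i * mT z j = mT z j * mT z i)
    {x : Sg n → k} (hx : ∀ F ∈ I, eval x F = 0) (hcx : ∀ i j, ex x i * ex x j = ex x j * ex x i)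
    {s N : ℕ} (hs : Module.finrank k (cker (nT x)) ≤ s)
    (hN : ((N + (2 * Fintype.card n + s) : ℕ) : WithBot ℕ∞) ≤
      ringKrullDim (MvPolynomial (Sg n) k ⧸ I)) :
    ∃ q : Ideal (MvPolynomial (Sg n) k), q.IsPrime ∧ I ≤ q ∧ (∀ F ∈ q, eval x F = 0) ∧
      (∀ z : Sg n → k, (∀ F ∈ q, eval z F = 0) → ∀ i j, ex z i * ex z j = ex z j * ex z i) ∧
      (N : WithBot ℕ∞) ≤ ringKrullDim (MvPolynomial (Sg n) k ⧸ q) := by
  classical
  obtain ⟨f, g, hfg⟩ := exists_minor' (KM (nT x))
  have hginj : Function.Injective g := by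
    intro a b hab
    by_contra hne
    exact hfg (Matrix.det_zero_of_column_eq hne fun i => by
      rw [Matrix.submatrix_apply, Matrix.submatrix_apply, hab])
  let C := {c : Fin 3 × n // c ∉ Set.range g}
  have hcard : Fintype.card C ≤ 2 * Fintype.card n + s := by
    have h1 : Fintype.card C = Fintype.card (Fin 3 × n) - Fintype.card (Set.range g) := by
      exact Fintype.card_subtype_compl _
    have h2 : Fintype.card (Set.range g) = (KM (nT x)).rank := by
      rw [Set.card_range_of_injective hginj, Fintype.card_fin]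
    have h3 := KM_rank (nT x)
    rw [Fintype.card_prod, Fintype.card_fin] at h1
    omega
  obtain ⟨W, hW⟩ : ∃ W : Fin 3 × n → MvPolynomial (Sg n) k,
      ∀ c z, Ph (nT z) (rw' z) c.1 c.2 = eval z (W c) :=
    ⟨fun c => (mp_Ph (k := k) c.1 c.2).choose, fun c => (mp_Ph (k := k) c.1 c.2).choose_spec⟩
  let e := Fintype.equivFin C
  have hPx : Ph (nT x) (rw' x) = 0 := Ph_of_comm (hcm x hx) hcx
  obtain ⟨q, hq, hIq, hlq, hqx, hqd⟩ := cut I x hx (fun j => W (e.symm j).1)
    (fun j => by rw [← hW, hPx]; rfl) (N := N) (by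
      refine le_trans ?_ hN
      exact_mod_cast Nat.add_le_add_left hcard N)
  have hWq : ∀ c : C, W c.1 ∈ q := by
    intro c
    have := hlq (e c)
    rwa [Equiv.symm_apply_apply] at this
  -- the minor
  obtain ⟨D, hD⟩ : MP fun z : Sg n → k => ((KM (nT z)).submatrix f g).det :=
    MP.det fun a b => mp_nT _ _ _
  have hDq : D ∉ q := by
    intro h
    apply hfg
    have h1 := hqx D h
    rw [← hD] at h1
    exact h1
  have hpt : ∀ z : Sg n → k, (∀ F ∈ q, eval z F = 0) → eval z D ≠ 0 → Ph (nT z) (rw' z) = 0 := by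
    intro z hz hDz
    rw [← hD] at hDz
    have hcz := hcm z fun F hF => hz F (hIq hF)
    have h1 : Jh (nT z) (Ph (nT z) (rw' z)) = 0 := Jh_Ph (nT_comm hcz) _
    rw [← KM_mulVec] at h1
    set w : Fin 3 × n → k := fun c => Ph (nT z) (rw' z) c.1 c.2 with hw
    have hw0 : ∀ c, c ∉ Set.range g → w c = 0 := by
      intro c hc
      have h2 := hz _ (hWq ⟨c, hc⟩)
      rw [← hW] at h2
      exact h2
    have h2 : ((KM (nT z)).submatrix f g) *ᵥ (w ∘ g) = 0 := by
      funext a
      have h3 := congrFun h1 (f a)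
      have h4 : (KM (nT z) *ᵥ w) (f a) = ∑ c, KM (nT z) (f a) c * w c := rfl
      have h5 : (((KM (nT z)).submatrix f g) *ᵥ (w ∘ g)) a =
          ∑ b, KM (nT z) (f a) (g b) * w (g b) := rfl
      rw [h4, Pi.zero_apply] at h3
      rw [h5, Pi.zero_apply, ← h3]
      rw [← Finset.sum_image (s := Finset.univ) (g := g)
        (f := fun c => KM (nT z) (f a) c * w c) (fun a _ b _ hab => hginj hab)]
      refine Finset.sum_subset (Finset.subset_univ _) fun c _ hc => ?_
      rw [hw0 c (by simpa using hc), mul_zero]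
    have h3 := Matrix.eq_zero_of_mulVec_eq_zero hDz h2
    funext i
    funext a
    show w (i, a) = 0
    by_cases hc : (i, a) ∈ Set.range g
    · obtain ⟨b, hb⟩ := hc
      rw [← hb]
      exact congrFun h3 b
    · exact hw0 _ hc
  have hall : ∀ c, W c ∈ q := by
    intro c
    have h1 : D * W c ∈ q := by
      refine mem_of_zeros q fun z hz => ?_
      rw [map_mul]
      by_cases hDz : eval z D = 0
      · rw [hDz, zero_mul]
      · rw [← hW, hpt z hz hDz]
        simp
    exact (hq.mem_or_mem h1).resolve_left hDq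
  refine ⟨q, hq, hIq, hqx, ?_, hqd⟩
  intro z hz
  have hcz := hcm z fun F hF => hz F (hIq hF)
  refine ex_comm_of hcz ?_
  funext i
  funext a
  have h1 := hz _ (hall (i, a))
  rw [← hW] at h1
  exact h1

end Auto

end Pool.Agent.Lib.D13
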