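import Pool.Agent.Lib.D13.AutoExt

/-!
# MP_5dcbc3_ag: triples outside of the closure of the triples `(A, p(A), q(A))`

They lie in large families of commuting nilpotent triples, with a common kernel vector.
-/

namespace Pool.Agent.Lib.D13

open Matrix MvPolynomial Pool.Agent.Lib.Q5dc Pool.Agent.Lib.D7 Pur

universe u

namespace Auto

variable {k : Type u} [Field k] {n : Type} [Fintype n] [DecidableEq n]

/-- the last basis vector -/
def lv : n ⊕ Unit → k := Sum.elim 0 1

/-- coordinates of a triple which kills the last basis vector -/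
def cz (T : Fin 3 → Matrix (n ⊕ Unit) (n ⊕ Unit) k) : Sg n → k :=
  Sum.elim (fun c => T c.1 (Sum.inl c.2.1) (Sum.inl c.2.2)) fun c => T c.1 (Sum.inr ()) c.2

theorem ex_lv (z : Sg n → k) (i : Fin 3) : ex z i *ᵥ lv = pt z i • lv := by
  funext a
  rcases a with a | a
  · simp [ex, lv, Matrix.mulVec, dotProduct, Matrix.fromBlocks]
  · simp [ex, lv, Matrix.mulVec, dotProduct, Matrix.fromBlocks]

theorem col_of_lv {A : Matrix (n ⊕ Unit) (n ⊕ Unit) k} (h : A *ᵥ lv = 0) (a : n ⊕ Unit) :
    A a (Sum.inr ()) = 0 := by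
  have h1 := congrFun h a
  simpa [lv, Matrix.mulVec, dotProduct] using h1

theorem ex_cz {T : Fin 3 → Matrix (n ⊕ Unit) (n ⊕ Unit) k} (h : ∀ i, T i *ᵥ lv = 0) :
    ex (cz T) = T := by
  funext i
  ext a b
  rcases a with a | a <;> rcases b with b | b
  · rfl
  · exact (col_of_lv (h i) _).symm
  · rfl
  · rfl

theorem pt_cz {T : Fin 3 → Matrix (n ⊕ Unit) (n ⊕ Unit) k} (h : ∀ i, T i *ᵥ lv = 0) (i : Fin 3) :
    pt (cz T) i = 0 := col_of_lv (h i) _

/-- substitution of the extended generic triple -/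
noncomputable def sub : MvPolynomial (Fin 3 × (n ⊕ Unit) × (n ⊕ Unit)) k →ₐ[k]
    MvPolynomial (Sg n) k :=
  aeval fun c => ex (X : Sg n → MvPolynomial (Sg n) k) c.1 c.2.1 c.2.2

theorem eval_sub (z : Sg n → k) (F : MvPolynomial (Fin 3 × (n ⊕ Unit) × (n ⊕ Unit)) k) :
    eval z (sub F) = eval (co (ex z)) F := by
  have h1 : ((aeval z : MvPolynomial (Sg n) k →ₐ[k] k).comp sub) =
      (aeval (co (ex z)) : MvPolynomial (Fin 3 × (n ⊕ Unit) × (n ⊕ Unit)) k →ₐ[k] k) := by
    apply MvPolynomial.algHom_ext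
    rintro ⟨i, a, b⟩
    rw [AlgHom.comp_apply, sub, aeval_X, aeval_X]
    rcases a with a | a <;> rcases b with b | b
    · show aeval z (X (Sum.inl (i, a, b))) = z (Sum.inl (i, a, b))
      rw [aeval_X]
    · show aeval z 0 = 0
      rw [map_zero]
    · show aeval z (X (Sum.inr (i, Sum.inl b))) = z (Sum.inr (i, Sum.inl b))
      rw [aeval_X]
    · show aeval z (X (Sum.inr (i, Sum.inr b))) = z (Sum.inr (i, Sum.inr b))
      rw [aeval_X]
  exact congrArg (fun f => f F) h1

theorem sub_surj : Function.Surjective (sub (k := k) (n := n)) := by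
  intro F
  induction F using MvPolynomial.induction_on with
  | C a => exact ⟨C a, by rw [sub, aeval_C]; rfl⟩
  | add p q hp hq =>
    obtain ⟨p', rfl⟩ := hp
    obtain ⟨q', rfl⟩ := hq
    exact ⟨p' + q', map_add _ _ _⟩
  | mul_X p s hp =>
    obtain ⟨p', rfl⟩ := hp
    rcases s with ⟨i, a, b⟩ | ⟨i, b⟩
    · refine ⟨p' * X (i, Sum.inl a, Sum.inl b), ?_⟩
      rw [map_mul]
      congr 1
      rw [sub, aeval_X]
      rfl
    · refine ⟨p' * X (i, Sum.inr (), b), ?_⟩
      rw [map_mul]
      congr 1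
      rw [sub, aeval_X]
      rcases b with b | b
      · rfl
      · rfl

/-- the polynomial functions `z ↦ ((ex z i - pt z i) ^ N) a b` -/
theorem mp_pow (i : Fin 3) (N : ℕ) (a b : n ⊕ Unit) :
    MP fun z : Sg n → k => ((ex z i - pt z i • (1 : Matrix (n ⊕ Unit) (n ⊕ Unit) k)) ^ N) a b := by
  refine MP.matPow (M := fun z : Sg n → k =>
    ex z i - pt z i • (1 : Matrix (n ⊕ Unit) (n ⊕ Unit) k)) ?_ N a b
  intro a b
  have h1 : (fun z : Sg n → k => (ex z i - pt z i • (1 : Matrix (n ⊕ Unit) (n ⊕ Unit) k)) a b) =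
      fun z => ex z i a b - z (Sum.inr (i, Sum.inr ())) * (1 : Matrix (n ⊕ Unit) (n ⊕ Unit) k) a b :=
    rfl
  rw [h1]
  refine MP.sub ?_ ((mp_coord _).mul (MP.const _))
  rcases a with a | a <;> rcases b with b | b
  · exact mp_coord (Sum.inl (i, a, b))
  · exact MP.const 0
  · exact mp_coord (Sum.inr (i, Sum.inl b))
  · exact mp_coord (Sum.inr (i, Sum.inr b))

/-- **large families through triples outside of the closure** -/
theorem not_pcl_family [IsAlgClosed k] (hall : HALL k (Fintype.card (n ⊕ Unit)))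
    (I : Ideal (MvPolynomial (Sg n) k)) [hI : I.IsPrime]
    (hI1 : ∀ z : Sg n → k, PCl (mT z) → ∀ F ∈ I, eval z F = 0)
    (hI2 : ∀ F : MvPolynomial (Fin 3 × n × n) k,
      (∀ (A : Matrix n n k) (p q : Polynomial k),
        eval (co ![A, Polynomial.aeval A p, Polynomial.aeval A q]) F = 0) →
      rename (Sum.inl : Fin 3 × n × n → Sg n) F ∈ I)
    (hI3 : ((Fintype.card n * Fintype.card n + 2 * Fintype.card n + 3 * (Fintype.card n + 1) : ℕ) :
      WithBot ℕ∞) ≤ ringKrullDim (MvPolynomial (Sg n) k ⧸ I))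
    {T : Fin 3 → Matrix (n ⊕ Unit) (n ⊕ Unit) k} (hn : 0 < Fintype.card n)
    (hT : CN T) (he : ∀ i, T i *ᵥ lv = 0) (hP : ¬ PCl T)
    {s N : ℕ} (hs : Module.finrank k (cker (mT (cz T))) ≤ s)
    (hN : N + s ≤ Fintype.card n * Fintype.card n + 3 * Fintype.card n) :
    ∃ J : Ideal (MvPolynomial (Fin 3 × (n ⊕ Unit) × (n ⊕ Unit)) k), J.IsPrime ∧
      (∀ F ∈ J, eval (co T) F = 0) ∧
      (∀ T' : Fin 3 → Matrix (n ⊕ Unit) (n ⊕ Unit) k, (∀ F ∈ J, eval (co T') F = 0) →
        CN T' ∧ ∀ i, T' i *ᵥ lv = 0) ∧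
      (N : WithBot ℕ∞) ≤ ringKrullDim (MvPolynomial (Fin 3 × (n ⊕ Unit) × (n ⊕ Unit)) k ⧸ J) := by
  classical
  have hinf : Infinite k := IsAlgClosed.instInfinite
  -- zeros of `I`
  have hcm : ∀ z : Sg n → k, (∀ F ∈ I, eval z F = 0) →
      ∀ i j, mT z i * mT z j = mT z j * mT z i := by
    intro z hz i j
    ext a b
    have h1 := hz _ (hI2 (cmm i j a b) (by
      intro A p q
      rw [eval_cmm]
      have h2 : ∀ i j, (![A, Polynomial.aeval A p, Polynomial.aeval A q] :
          Fin 3 → Matrix n n k) i * (![A, Polynomial.aeval A p, Polynomial.aeval A q] :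
          Fin 3 → Matrix n n k) j = (![A, Polynomial.aeval A p, Polynomial.aeval A q] :
          Fin 3 → Matrix n n k) j * (![A, Polynomial.aeval A p, Polynomial.aeval A q] :
          Fin 3 → Matrix n n k) i := by
        have h3 : ∀ i, ∃ r : Polynomial k, (![A, Polynomial.aeval A p, Polynomial.aeval A q] :
            Fin 3 → Matrix n n k) i = Polynomial.aeval A r := by
          intro i
          fin_cases i
          · exact ⟨Polynomial.X, by rw [Polynomial.aeval_X]; rfl⟩
          · exact ⟨p, rfl⟩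
          · exact ⟨q, rfl⟩
        intro i j
        obtain ⟨r, hr⟩ := h3 i
        obtain ⟨r', hr'⟩ := h3 j
        rw [hr, hr', ← map_mul, ← map_mul, mul_comm]
      rw [h2 i j, sub_self]
      rfl))
    rw [eval_rename] at h1
    have h2 : (z ∘ Sum.inl : Fin 3 × n × n → k) = co (mT z) := rfl
    rw [h2, eval_cmm, Matrix.sub_apply, sub_eq_zero] at h1
    exact h1
  set x := cz T with hx
  have hexx : ex x = T := ex_cz he
  have hptx : ∀ i, pt x i = 0 := pt_cz he
  -- the small triple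
  have hcmT : ∀ i j, mT x i * mT x j = mT x j * mT x i := by
    intro i j
    have h1 := hT.1 i j
    rw [← hexx] at h1
    simp only [ex, Matrix.fromBlocks_multiply, Matrix.fromBlocks_inj, Matrix.zero_mul,
      Matrix.mul_zero, add_zero] at h1
    exact h1.1
  have hxI : ∀ F ∈ I, eval x F = 0 := by
    refine hI1 x ?_
    have h1 := pcl_of_lt hall (Fintype.card n) hn (by
      rw [Fintype.card_sum, Fintype.card_unit]
      omega) (fun i => Matrix.reindexAlgEquiv k k (Fintype.equivFin n) (mT x i)) (by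
      intro i j
      rw [← map_mul, hcmT i j, map_mul])
    have h2 := h1.mapEquiv (Matrix.reindexAlgEquiv k k (Fintype.equivFin n)).symm
    have h3 : (fun i => (Matrix.reindexAlgEquiv k k (Fintype.equivFin n)).symm
        (Matrix.reindexAlgEquiv k k (Fintype.equivFin n) (mT x i))) = mT x := by
      funext i
      exact AlgEquiv.symm_apply_apply _ _
    rw [h3] at h2
    exact h2
  have hnx : nT x = mT x := by
    funext i
    rw [nT, hptx, zero_smul, sub_zero]
  obtain ⟨q, hq, hIq, hqx, hqc, hqd⟩ := ext_family I hcm hxI (by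
    intro i j
    rw [hexx]
    exact hT.1 i j) (s := s) (N := N + 3) (by rw [hnx]; exact hs) (by
    refine le_trans ?_ hI3
    have h1 : N + 3 + (2 * Fintype.card n + s) ≤ Fintype.card n * Fintype.card n +
        2 * Fintype.card n + 3 * (Fintype.card n + 1) := by omega
    exact_mod_cast h1)
  -- outside of the closure
  obtain ⟨F, hF, hF0⟩ : ∃ F : MvPolynomial (Fin 3 × (n ⊕ Unit) × (n ⊕ Unit)) k,
      (∀ (A : Matrix (n ⊕ Unit) (n ⊕ Unit) k) (p q : Polynomial k),
        eval (co ![A, Polynomial.aeval A p, Polynomial.aeval A q]) F = 0) ∧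
      eval (co T) F ≠ 0 := by
    unfold PCl at hP
    push Not at hP
    exact hP
  have hsF : sub F ∉ q := by
    intro h
    apply hF0
    have h1 := hqx _ h
    rwa [eval_sub, hexx] at h1
  have hnil : ∀ z : Sg n → k, (∀ G ∈ q, eval z G = 0) → eval z (sub F) ≠ 0 → ∀ i,
      (ex z i - pt z i • (1 : Matrix (n ⊕ Unit) (n ⊕ Unit) k)) ^ Fintype.card (n ⊕ Unit) = 0 := by
    intro z hz hFz i
    rw [eval_sub] at hFz
    have h1 : ¬ PCl (ex z) := fun h => hFz (h F hF)
    have h2 : ¬ Split (ex z) := fun h => h1 (pcl_of_split hall (hqc z hz) h)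
    unfold Split at h2
    push Not at h2
    obtain ⟨c, m, hc⟩ := h2 i
    have h3 : ∀ m : ℕ, (ex z i - c • (1 : Matrix (n ⊕ Unit) (n ⊕ Unit) k)) ^ m *ᵥ lv =
        (pt z i - c) ^ m • lv := by
      intro m
      induction m with
      | zero => rw [pow_zero, pow_zero, Matrix.one_mulVec, one_smul]
      | succ m ih =>
        rw [pow_succ', ← Matrix.mulVec_mulVec, ih, Matrix.mulVec_smul, Matrix.sub_mulVec, ex_lv,
          Matrix.smul_mulVec, Matrix.one_mulVec, ← sub_smul, smul_smul, ← pow_succ]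
    have h4 := h3 m
    rw [hc, Matrix.zero_mulVec] at h4
    have h5 := congrFun h4 (Sum.inr ())
    simp only [Pi.zero_apply, Pi.smul_apply, lv, Sum.elim_inr, Pi.one_apply, smul_eq_mul,
      mul_one] at h5
    have h6 : pt z i - c = 0 := by
      by_contra hne
      exact pow_ne_zero m hne h5.symm
    have h7 : IsNilpotent (ex z i - pt z i • (1 : Matrix (n ⊕ Unit) (n ⊕ Unit) k)) := by
      rw [sub_eq_zero.1 h6]
      exact ⟨m, hc⟩
    exact D7.pow_card_eq_zero h7
  obtain ⟨G, hG⟩ : ∃ G : Fin 3 → n ⊕ Unit → n ⊕ Unit → MvPolynomial (Sg n) k,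
      ∀ i a b z, ((ex z i - pt z i • (1 : Matrix (n ⊕ Unit) (n ⊕ Unit) k)) ^
        Fintype.card (n ⊕ Unit)) a b = eval z (G i a b) :=
    ⟨fun i a b => (mp_pow (k := k) i (Fintype.card (n ⊕ Unit)) a b).choose,
      fun i a b => (mp_pow (k := k) i (Fintype.card (n ⊕ Unit)) a b).choose_spec⟩
  have hGq : ∀ i a b, G i a b ∈ q := by
    intro i a b
    have h1 : sub F * G i a b ∈ q := by
      refine mem_of_zeros q fun z hz => ?_
      rw [map_mul]
      by_cases hFz : eval z (sub F) = 0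
      · rw [hFz, zero_mul]
      · rw [← hG, hnil z hz hFz i, Matrix.zero_apply, mul_zero]
    exact (hq.mem_or_mem h1).resolve_left hsF
  -- eigenvalue zero
  obtain ⟨q2, hq2, hqq2, hlq, hq2x, hq2d⟩ := cut q x hqx
    (fun i : Fin 3 => (X (Sum.inr (i, Sum.inr ())) : MvPolynomial (Sg n) k))
    (fun i => by rw [eval_X]; exact hptx i) (N := N) hqd
  have hz2 : ∀ z : Sg n → k, (∀ G ∈ q2, eval z G = 0) →
      CN (ex z) ∧ ∀ i, ex z i *ᵥ lv = 0 := by
    intro z hz
    have hp : ∀ i, pt z i = 0 := by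
      intro i
      have h1 := hz _ (hlq i)
      rwa [eval_X] at h1
    refine ⟨⟨hqc z fun G hG => hz G (hqq2 hG), fun i => ?_⟩, fun i => ?_⟩
    · refine ⟨Fintype.card (n ⊕ Unit), ?_⟩
      ext a b
      have h1 := hz _ (hqq2 (hGq i a b))
      rw [← hG, hp, zero_smul, sub_zero] at h1
      exact h1
    · rw [ex_lv, hp, zero_smul]
  -- the ideal in the coordinates of the triples
  have hJp : (q2.comap (sub (k := k) (n := n) : MvPolynomial (Fin 3 × (n ⊕ Unit) × (n ⊕ Unit)) k →+*
      MvPolynomial (Sg n) k)).IsPrime := Ideal.comap_isPrime _ _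
  refine ⟨q2.comap (sub (k := k) (n := n) : MvPolynomial (Fin 3 × (n ⊕ Unit) × (n ⊕ Unit)) k →+*
      MvPolynomial (Sg n) k), hJp, ?_, ?_, ?_⟩
  · intro H hH
    have h1 := hq2x _ hH
    rw [RingHom.coe_coe, eval_sub, hexx] at h1
    exact h1
  · intro T' hT'
    -- the last column
    have hcol : ∀ i a, T' i a (Sum.inr ()) = 0 := by
      intro i a
      have h1 := hT' (X (i, a, Sum.inr ())) (by
        show sub (X (i, a, Sum.inr ())) ∈ q2
        rw [sub, aeval_X]
        rcases a with a | a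
        · exact q2.zero_mem
        · exact hlq i)
      rw [eval_X] at h1
      exact h1
    have hlv : ∀ i, T' i *ᵥ lv = 0 := by
      intro i
      funext a
      simp [lv, Matrix.mulVec, dotProduct, hcol]
    have hex : ex (cz T') = T' := ex_cz hlv
    have h1 := hz2 (cz T') (by
      intro G hG
      obtain ⟨H, rfl⟩ := sub_surj G
      rw [eval_sub, hex]
      exact hT' H hG)
    rw [hex] at h1
    exact h1
  · refine hq2d.trans ?_
    refine ringKrullDim_le_of_surjective (Ideal.quotientMap q2 (sub (k := k) (n := n) :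
      MvPolynomial (Fin 3 × (n ⊕ Unit) × (n ⊕ Unit)) k →+* MvPolynomial (Sg n) k) le_rfl) ?_
    exact Ideal.quotientMap_surjective sub_surj

end Auto

end Pool.Agent.Lib.D13
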