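import Pool.Agent.Lib.D8.UtilB

/-!
# MP_5dcbc3_ag: rank one deformations of commuting nilpotent triples

* `MaxR.axis`, `MaxR.axis_rank`: `X + s g ⊗ φ` with `Y g = Z g = 0`, `φ Y = φ Z = 0` (and `φ X^i g = 0`)
* `MaxR.ext_rank`, `MaxR.ext_pow`: `T_i + s f_i ⊗ ψ` with `ψ T_i = 0`, `ψ f_i = 0`, `T_i f_j = T_j f_i`
* `MaxR.coext_rank`: `T_i + s g ⊗ ψ_i` with `T_i g = 0`, `ψ_i g = 0`, `ψ_i T_j = ψ_j T_i`
All for an arbitrary index type.
-/

namespace Pool.Agent.Lib.D13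

open Matrix Pool.Agent.Lib.Q5dc Pool.Agent.Lib.D7

variable {k n : Type*} [Field k] [Fintype n] [DecidableEq n] {ρ : ℕ → ℕ}

/-- `(g ⊗ φ) v = φ(v) g` -/
theorem vmv (g φ v : n → k) : vecMulVec g φ *ᵥ v = (φ ⬝ᵥ v) • g := by
  ext i
  simp [Matrix.mulVec, vecMulVec_apply, dotProduct, Finset.mul_sum, mul_comm, mul_left_comm]

theorem vmm (g φ : n → k) (M : Matrix n n k) : vecMulVec g φ * M = vecMulVec g (φ ᵥ* M) := by
  rw [Matrix.vecMulVec_mul]

theorem mvm (g φ : n → k) (M : Matrix n n k) : M * vecMulVec g φ = vecMulVec (M *ᵥ g) φ := by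
  rw [Matrix.mul_vecMulVec]

theorem vv (g φ g' φ' : n → k) :
    vecMulVec g φ * vecMulVec g' φ' = (φ ⬝ᵥ g') • vecMulVec g φ' := by
  rw [Matrix.vecMulVec_mul_vecMulVec]
  ext i j
  simp [vecMulVec_apply, mul_comm, mul_left_comm]

/-- the matrix of rank one raises the rank of `M` if it is nonzero on the kernel of `M` and its
image is not in the image of `M` -/
theorem rank_lt_of_ker {M : Matrix n n k} {f ψ u : n → k} (hu : M *ᵥ u = 0) (hψ : ψ ⬝ᵥ u ≠ 0)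
    (hf : ∀ x, M *ᵥ x ≠ f) {s : k} (hs : s ≠ 0) :
    M.rank < (M + s • vecMulVec f ψ).rank := by
  have hmv : ∀ x, (M + s • vecMulVec f ψ) *ᵥ x = M *ᵥ x + (s * (ψ ⬝ᵥ x)) • f := by
    intro x
    rw [Matrix.add_mulVec, Matrix.smul_mulVec, vmv, smul_smul]
  have hfm : f ∈ LinearMap.range (M + s • vecMulVec f ψ).mulVecLin := by
    refine ⟨(s * (ψ ⬝ᵥ u))⁻¹ • u, ?_⟩
    rw [Matrix.mulVecLin_apply, Matrix.mulVec_smul, hmv, hu, zero_add, smul_smul,
      inv_mul_cancel₀ (mul_ne_zero hs hψ), one_smul]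
  refine Submodule.finrank_lt_finrank_of_lt (lt_of_le_of_ne ?_ ?_)
  · rintro _ ⟨x, rfl⟩
    have h1 : M.mulVecLin x = (M + s • vecMulVec f ψ).mulVecLin x - (s * (ψ ⬝ᵥ x)) • f := by
      rw [Matrix.mulVecLin_apply, Matrix.mulVecLin_apply, hmv, add_sub_cancel_right]
    rw [h1]
    exact sub_mem (LinearMap.mem_range_self _ _) (Submodule.smul_mem _ _ hfm)
  · intro h
    rw [← h] at hfm
    obtain ⟨x, hx⟩ := hfm
    exact hf x hx

/-- powers of `X + s g ⊗ φ` when `φ X^i g = 0` for all `i` -/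
theorem pow_axis {X : Matrix n n k} {g φ : n → k} (h : ∀ i, φ ⬝ᵥ (X ^ i *ᵥ g) = 0) (s : k)
    (v : n → k) (m : ℕ) :
    (X + s • vecMulVec g φ) ^ m *ᵥ v = X ^ m *ᵥ v +
      s • ∑ i ∈ Finset.range m, (φ ⬝ᵥ (X ^ (m - 1 - i) *ᵥ v)) • (X ^ i *ᵥ g) := by
  induction m with
  | zero => simp
  | succ m ih =>
    have h2 : φ ⬝ᵥ (∑ i ∈ Finset.range m, (φ ⬝ᵥ (X ^ (m - 1 - i) *ᵥ v)) • (X ^ i *ᵥ g)) = 0 := by
      rw [dotProduct_sum]
      refine Finset.sum_eq_zero fun i _ => ?_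
      rw [dotProduct_smul, h, smul_zero]
    have h3 : X *ᵥ (∑ i ∈ Finset.range m, (φ ⬝ᵥ (X ^ (m - 1 - i) *ᵥ v)) • (X ^ i *ᵥ g)) =
        ∑ i ∈ Finset.range m, (φ ⬝ᵥ (X ^ (m - 1 - i) *ᵥ v)) • (X ^ (i + 1) *ᵥ g) := by
      rw [Matrix.mulVec_sum]
      refine Finset.sum_congr rfl fun i _ => ?_
      rw [Matrix.mulVec_smul, Matrix.mulVec_mulVec, ← pow_succ']
    rw [pow_succ', ← Matrix.mulVec_mulVec, ih, Matrix.add_mulVec, Matrix.smul_mulVec, vmv,
      Matrix.mulVec_add, Matrix.mulVec_smul, h3, dotProduct_add, dotProduct_smul, h2, smul_zero,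
      add_zero, Matrix.mulVec_mulVec, ← pow_succ', Finset.sum_range_succ']
    have h4 : ∀ i ∈ Finset.range m, (φ ⬝ᵥ (X ^ (m + 1 - 1 - (i + 1)) *ᵥ v)) • (X ^ (i + 1) *ᵥ g) =
        (φ ⬝ᵥ (X ^ (m - 1 - i) *ᵥ v)) • (X ^ (i + 1) *ᵥ g) := by
      intro i _
      have : m + 1 - 1 - (i + 1) = m - 1 - i := by omega
      rw [this]
    rw [Finset.sum_congr rfl h4, pow_zero, Matrix.one_mulVec, smul_add]
    have h5 : m + 1 - 1 - 0 = m := by omega
    rw [h5, add_assoc]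

theorem eq_zero_of_mulVec {M : Matrix n n k} (h : ∀ v, M *ᵥ v = 0) : M = 0 := by
  ext i j
  have := congrFun (h (Pi.single j 1)) i
  simpa using this

/-- `X + s g ⊗ φ` is nilpotent -/
theorem nilp_axis {X : Matrix n n k} {g φ : n → k} (hX : IsNilpotent X)
    (h : ∀ i, φ ⬝ᵥ (X ^ i *ᵥ g) = 0) (s : k) : IsNilpotent (X + s • vecMulVec g φ) := by
  obtain ⟨N, hN⟩ := hX
  refine ⟨N + N, eq_zero_of_mulVec fun v => ?_⟩
  rw [pow_axis h, pow_add, hN, zero_mul, Matrix.zero_mulVec, zero_add]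
  rw [Finset.sum_eq_zero, smul_zero]
  intro i _
  rcases Nat.lt_or_ge i N with hi | hi
  · have : N + N - 1 - i = N + (N - 1 - i) := by omega
    rw [this, pow_add, hN, zero_mul, Matrix.zero_mulVec, dotProduct_zero, zero_smul]
  · obtain ⟨j, rfl⟩ := Nat.exists_eq_add_of_le hi
    rw [pow_add, hN, zero_mul, Matrix.zero_mulVec, smul_zero]

/-- the triple `(X + s g ⊗ φ, Y, Z)` -/
theorem cn_axis {X Y Z : Matrix n n k} (hcn : CN ![X, Y, Z]) {g φ : n → k}
    (hYg : Y *ᵥ g = 0) (hZg : Z *ᵥ g = 0) (hφY : φ ᵥ* Y = 0) (hφZ : φ ᵥ* Z = 0)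
    (hφg : ∀ i, φ ⬝ᵥ (X ^ i *ᵥ g) = 0) (s : k) : CN ![X + s • vecMulVec g φ, Y, Z] := by
  have hXY : X * Y = Y * X := hcn.1 0 1
  have hXZ : X * Z = Z * X := hcn.1 0 2
  have hYZ : Y * Z = Z * Y := hcn.1 1 2
  refine D8.cn3 ?_ ?_ hYZ (nilp_axis (hcn.2 0) hφg s) (hcn.2 1) (hcn.2 2)
  · rw [add_mul, mul_add, hXY, smul_mul_assoc, mul_smul_comm, vmm, mvm, hφY, hYg]
    simp
  · rw [add_mul, mul_add, hXZ, smul_mul_assoc, mul_smul_comm, vmm, mvm, hφZ, hZg]
    simp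

/-- AXIS LEMMA: `X, Y, Z` a coordinate system of `adj T`, `g` killed by `Y, Z`, `φ` a functional
killing the images of `Y, Z` and all `X^i g`; if `φ (X^q v) ≠ 0`, `X^c g ≠ 0` and `ρ (q+1+c) = 0`,
then `T` is not maximal. -/
theorem axis [Infinite k] {T : Fin 3 → Matrix n n k} (hT : MaxR ρ T) {X Y Z : Matrix n n k}
    (hcn : CN ![X, Y, Z]) (hadj : ∀ i, T i ∈ adj ![X, Y, Z]) {g φ : n → k}
    (hYg : Y *ᵥ g = 0) (hZg : Z *ᵥ g = 0) (hφY : φ ᵥ* Y = 0) (hφZ : φ ᵥ* Z = 0)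
    (hφg : ∀ i, φ ⬝ᵥ (X ^ i *ᵥ g) = 0) (v : n → k) {q c : ℕ} (hq : φ ⬝ᵥ (X ^ q *ᵥ v) ≠ 0)
    (hc : X ^ c *ᵥ g ≠ 0) (hρ : ρ (q + 1 + c) = 0) : False := by
  have hT' : MaxR ρ ![X, Y, Z] := hT.change hcn hadj
  -- the greatest exponent
  obtain ⟨c', hcc, hc', hc''⟩ : ∃ c', c ≤ c' ∧ X ^ c' *ᵥ g ≠ 0 ∧ X ^ (c' + 1) *ᵥ g = 0 := by
    by_contra hne
    push Not at hne
    have h1 : ∀ j, X ^ (c + j) *ᵥ g ≠ 0 := by
      intro j
      induction j with
      | zero => simpa using hc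
      | succ j ih => exact hne (c + j) (by omega) ih
    obtain ⟨N, hN⟩ : IsNilpotent X := hcn.2 0
    refine h1 N ?_
    rw [pow_add, hN, mul_zero, Matrix.zero_mulVec]
  have hXm : ∀ m, q + 1 + c ≤ m → X ^ m = 0 := by
    intro m hm
    obtain ⟨j, rfl⟩ := Nat.exists_eq_add_of_le hm
    rw [pow_add, hT'.pow_eq_zero (D8.mem0 X Y Z) hρ, zero_mul]
  refine D8.MaxR.raise0 hT' (vecMulVec g φ) 0 0 (fun s => by
    simpa using cn_axis hcn hYg hZg hφY hφZ hφg s) (q + 1 + c) hρ 1 0 0 ?_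
  have hfin : ({0} : Set k).Finite := Set.finite_singleton 0
  refine hfin.infinite_compl.mono fun s hs h0 => ?_
  have hs0 : s ≠ 0 := hs
  simp only [one_smul, zero_smul, smul_zero, add_zero] at h0
  have h1 : (X + s • vecMulVec g φ) ^ (q + 1 + c') = 0 := by
    obtain ⟨j, rfl⟩ := Nat.exists_eq_add_of_le hcc
    rw [← add_assoc, pow_add, h0, zero_mul]
  have h2 := pow_axis hφg s v (q + 1 + c')
  rw [h1, Matrix.zero_mulVec, hXm _ (by omega), Matrix.zero_mulVec, zero_add] at h2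
  have h3 := smul_eq_zero.1 h2.symm
  have h4 := h3.resolve_left hs0
  -- linear independence by descending induction
  have hli : ∀ j, j ≤ c' → ∀ a : ℕ → k,
      (∑ i ∈ Finset.range (j + 1), a i • (X ^ (c' - j + i) *ᵥ g)) = 0 →
      ∀ i ≤ j, a i = 0 := by
    intro j
    induction j with
    | zero =>
      intro _ a ha i hi
      obtain rfl : i = 0 := by omega
      rw [Finset.sum_range_one] at ha
      simp only [Nat.sub_zero, add_zero] at ha
      exact (smul_eq_zero.1 ha).resolve_right hc'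
    | succ j ih =>
      intro hj a ha i hi
      have ha0 : a 0 = 0 := by
        have h6 := congrArg (fun w => X ^ (j + 1) *ᵥ w) ha
        simp only [Matrix.mulVec_zero, Matrix.mulVec_sum, Matrix.mulVec_smul,
          Matrix.mulVec_mulVec, ← pow_add] at h6
        rw [Finset.sum_eq_single 0] at h6
        · have h7 : j + 1 + (c' - (j + 1) + 0) = c' := by omega
          rw [h7] at h6
          exact (smul_eq_zero.1 h6).resolve_right hc'
        · intro b _ hb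
          obtain ⟨e, he⟩ : ∃ e, j + 1 + (c' - (j + 1) + b) = c' + 1 + e := ⟨b - 1, by omega⟩
          have h8 : X ^ (c' + 1 + e) *ᵥ g = 0 := by
            rw [add_comm (c' + 1) e, pow_add, ← Matrix.mulVec_mulVec, hc'', Matrix.mulVec_zero]
          rw [he, h8, smul_zero]
        · intro h
          exact absurd (Finset.mem_range.2 (by omega)) h
      rcases Nat.eq_zero_or_pos i with rfl | hi0
      · exact ha0
      obtain ⟨i, rfl⟩ : ∃ i', i = i' + 1 := ⟨i - 1, by omega⟩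
      refine ih (by omega) (fun i => a (i + 1)) ?_ i (by omega)
      rw [Finset.sum_range_succ', ha0, zero_smul, add_zero] at ha
      rw [← ha]
      refine Finset.sum_congr rfl fun b _ => ?_
      have : c' - (j + 1) + (b + 1) = c' - j + b := by omega
      rw [this]
  have h9 : ∑ i ∈ Finset.range (c' + 1),
      (φ ⬝ᵥ (X ^ (q + 1 + c' - 1 - i) *ᵥ v)) • (X ^ (c' - c' + i) *ᵥ g) = 0 := by
    rw [← h4]
    have h10 : q + 1 + c' = (c' + 1) + q := by omega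
    rw [h10, Finset.sum_range_add _ (c' + 1) q]
    rw [Finset.sum_eq_zero (s := Finset.range q), add_zero]
    · refine Finset.sum_congr rfl fun i _ => ?_
      rw [Nat.sub_self, zero_add]
    · intro i _
      have h8 : X ^ (c' + 1 + i) *ᵥ g = 0 := by
        rw [add_comm (c' + 1) i, pow_add, ← Matrix.mulVec_mulVec, hc'', Matrix.mulVec_zero]
      rw [h8, smul_zero]
  have h11 := hli c' le_rfl _ h9 c' le_rfl
  have h12 : q + 1 + c' - 1 - c' = q := by omega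
  rw [h12] at h11
  exact hq h11

/-- rank version of the axis lemma -/
theorem axis_rank [Infinite k] {T : Fin 3 → Matrix n n k} (hT : MaxR ρ T) {X Y Z : Matrix n n k}
    (hcn : CN ![X, Y, Z]) (hadj : ∀ i, T i ∈ adj ![X, Y, Z]) {g φ : n → k}
    (hYg : Y *ᵥ g = 0) (hZg : Z *ᵥ g = 0) (hφY : φ ᵥ* Y = 0) (hφZ : φ ᵥ* Z = 0)
    (hφg : ∀ i, φ ⬝ᵥ (X ^ i *ᵥ g) = 0) (hρ : X.rank = ρ 1) {u : n → k} (hu : X *ᵥ u = 0)
    (hφ : φ ⬝ᵥ u ≠ 0) (hg : ∀ x, X *ᵥ x ≠ g) : False := by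
  have hT' : MaxR ρ ![X, Y, Z] := hT.change hcn hadj
  refine hT'.raise (fun s => ![X, Y, Z] + s • ![vecMulVec g φ, 0, 0]) (PolyFam.line _ _) (by simp)
    Set.finite_empty (fun s _ => ?_) 1 (fun s => X + s • vecMulVec g φ) (fun s => ?_) ?_
  · show CN (![X, Y, Z] + s • ![vecMulVec g φ, 0, 0])
    rw [D8.line3_eq]
    simpa using cn_axis hcn hYg hZg hφY hφZ hφg s
  · show _ ∈ adj (![X, Y, Z] + s • ![vecMulVec g φ, 0, 0])
    rw [D8.line3_eq]
    exact D8.mem0 _ _ _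
  · refine (Set.finite_singleton (0 : k)).infinite_compl.mono fun s hs => ?_
    have hs0 : s ≠ 0 := hs
    show ρ 1 < ((X + s • vecMulVec g φ) ^ 1).rank
    rw [← hρ, pow_one]
    exact rank_lt_of_ker hu hφ hg hs0

/-- the family `T_i + s f_i ⊗ ψ` -/
theorem cn_ext {T : Fin 3 → Matrix n n k} (hT : CN T) {f : Fin 3 → n → k} {ψ : n → k}
    (hψT : ∀ i, ψ ᵥ* T i = 0) (hψf : ∀ i, ψ ⬝ᵥ f i = 0)
    (hf : ∀ i j, T i *ᵥ f j = T j *ᵥ f i) (s : k) :
    CN fun i => T i + s • vecMulVec (f i) ψ := by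
  refine ⟨fun i j => ?_, fun i => ?_⟩
  · show (T i + s • vecMulVec (f i) ψ) * (T j + s • vecMulVec (f j) ψ) =
      (T j + s • vecMulVec (f j) ψ) * (T i + s • vecMulVec (f i) ψ)
    simp only [add_mul, mul_add, smul_mul_assoc, mul_smul_comm, vmm, mvm, vmv, hψT, hψf, hf i j,
      hT.1 i j]
    simp
  · obtain ⟨N, hN⟩ := hT.2 i
    have key : ∀ m, (T i + s • vecMulVec (f i) ψ) ^ (m + 1) =
        T i ^ (m + 1) + s • vecMulVec (T i ^ m *ᵥ f i) ψ := by
      intro m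
      induction m with
      | zero => simp
      | succ m ih =>
        rw [pow_succ, ih]
        simp only [add_mul, mul_add, smul_mul_assoc, mul_smul_comm, vmm, mvm, vmv, hψT, hψf]
        simp [pow_succ]
    refine ⟨N + 1, ?_⟩
    rw [key N, pow_succ, hN]
    simp

/-- EXTENSION LEMMA, rank version: `ψ` a functional killing all images and all `f_i`,
`T_i f_j = T_j f_i`; `M` a linear combination of the `T_i` of maximal rank, `f` the same linear
combination of the `f_i`; if `f` is not in the image of `M` and `ψ` is not zero on the kernel of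
`M`, then `T` is not maximal. -/
theorem ext_rank [Infinite k] {T : Fin 3 → Matrix n n k} (hT : MaxR ρ T) {f : Fin 3 → n → k}
    {ψ : n → k} (hψT : ∀ i, ψ ᵥ* T i = 0) (hψf : ∀ i, ψ ⬝ᵥ f i = 0)
    (hf : ∀ i j, T i *ᵥ f j = T j *ᵥ f i) (y : Fin 3 → k) (hρ : (∑ i, y i • T i).rank = ρ 1)
    {u : n → k} (hu : (∑ i, y i • T i) *ᵥ u = 0) (hψ : ψ ⬝ᵥ u ≠ 0)
    (hg : ∀ x, (∑ i, y i • T i) *ᵥ x ≠ ∑ i, y i • f i) : False := by
  refine hT.raise (fun s i => T i + s • vecMulVec (f i) ψ) ?_ (by simp)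
    Set.finite_empty (fun s _ => cn_ext hT.cn hψT hψf hf s) 1
    (fun s => ∑ i, y i • T i + s • vecMulVec (∑ i, y i • f i) ψ) (fun s => ?_) ?_
  · exact PolyFam.line T fun i => vecMulVec (f i) ψ
  · have h1 : ∑ i, y i • T i + s • vecMulVec (∑ i, y i • f i) ψ =
        ∑ i, y i • (T i + s • vecMulVec (f i) ψ) := by
      simp only [smul_add, Finset.sum_add_distrib]
      congr 1
      ext a b
      simp only [Matrix.smul_apply, vecMulVec_apply, Finset.sum_apply, Pi.smul_apply,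
        smul_eq_mul, Matrix.sum_apply, Finset.sum_mul, Finset.mul_sum]
      exact Finset.sum_congr rfl fun i _ => by ring
    rw [h1]
    exact sum_mem fun i _ => SMulMemClass.smul_mem (y i) (mem_adj _ i)
  · refine (Set.finite_singleton (0 : k)).infinite_compl.mono fun s hs => ?_
    have hs0 : s ≠ 0 := hs
    show ρ 1 < ((∑ i, y i • T i + s • vecMulVec (∑ i, y i • f i) ψ) ^ 1).rank
    rw [← hρ, pow_one]
    exact rank_lt_of_ker hu hψ hg hs0

/-- EXTENSION LEMMA, power version: if `T_0 ^ m f_0 ≠ 0`, `ψ u ≠ 0` and `ρ (m + 1) = 0`, then `T` is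
not maximal. -/
theorem ext_pow [Infinite k] {T : Fin 3 → Matrix n n k} (hT : MaxR ρ T) {f : Fin 3 → n → k}
    {ψ : n → k} (hψT : ∀ i, ψ ᵥ* T i = 0) (hψf : ∀ i, ψ ⬝ᵥ f i = 0)
    (hf : ∀ i j, T i *ᵥ f j = T j *ᵥ f i) (i : Fin 3) {m : ℕ} (hm : T i ^ m *ᵥ f i ≠ 0)
    (hψ : ψ ≠ 0) (hρ : ρ (m + 1) = 0) : False := by
  have key : ∀ s : k, ∀ m, (T i + s • vecMulVec (f i) ψ) ^ (m + 1) =
      T i ^ (m + 1) + s • vecMulVec (T i ^ m *ᵥ f i) ψ := by
    intro s m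
    induction m with
    | zero => simp
    | succ m ih =>
      rw [pow_succ, ih]
      simp only [add_mul, mul_add, smul_mul_assoc, mul_smul_comm, vmm, mvm, vmv, hψT, hψf]
      simp [pow_succ]
  obtain ⟨E', hE', h1⟩ := hT.deform (fun s i => T i + s • vecMulVec (f i) ψ)
    (PolyFam.line T fun i => vecMulVec (f i) ψ) (by simp) Set.finite_empty
    (fun s _ => cn_ext hT.cn hψT hψf hf s)
  obtain ⟨s, hs⟩ := (hE'.union (Set.finite_singleton (0 : k))).exists_notMem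
  rw [Set.mem_union, not_or, Set.mem_singleton_iff] at hs
  have h2 := (h1 s hs.1).pow_eq_zero (mem_adj _ i) hρ
  have h3 := hT.pow_eq_zero (mem_adj T i) hρ
  have h4 : (T i + s • vecMulVec (f i) ψ) ^ (m + 1) = 0 := h2
  rw [key, h3, zero_add] at h4
  obtain ⟨a, ha⟩ := Function.ne_iff.1 hm
  obtain ⟨b, hb⟩ := Function.ne_iff.1 hψ
  have h5 := congrFun (congrFun h4 a) b
  simp only [Matrix.smul_apply, vecMulVec_apply, Matrix.zero_apply, smul_eq_mul] at h5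
  exact mul_ne_zero hs.2 (mul_ne_zero ha hb) h5

end Pool.Agent.Lib.D13
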