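import Pool.Agent.Lib.D8.Corank
import Pool.Agent.Lib.D8.UtilB
import Pool.Agent.Lib.Q5dc.Gen

/-!
# MP_5dcbc3_ag: triples with one more axis

If a limit of curvilinear triples has one-dimensional common kernel and one-dimensional common
cokernel, then adding a vector `e` with `z = z + e ⊗ φ + w ⊗ e*` gives again such a limit.
-/

namespace Pool.Agent.Lib.D13.AxC

open Matrix MvPolynomial Pool.Agent.Lib.Q5dc Pool.Agent.Lib.D7

variable {k : Type*} [Field k]

/-- polynomial maps of triples -/
theorem cl_poly {n m : Type*} [Fintype n] [DecidableEq n] [Fintype m] [DecidableEq m]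
    (c : Fin 3 → Matrix m m (MvPolynomial (Fin 3 × n × n) k))
    (hc : ∀ T : Fin 3 → Matrix n n k, Curv T → Cl (fun i => (c i).map (eval (co T))))
    {T : Fin 3 → Matrix n n k} (hT : Cl T) : Cl (fun i => (c i).map (eval (co T))) := by
  intro F hF
  have hev : ∀ T : Fin 3 → Matrix n n k,
      eval (co T) (aeval (fun z : Fin 3 × m × m => c z.1 z.2.1 z.2.2) F) =
        eval (co (fun i => (c i).map (eval (co T)))) F := by
    intro T
    have h1 : ((aeval (co T) : MvPolynomial (Fin 3 × n × n) k →ₐ[k] k).comp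
        (aeval (fun z : Fin 3 × m × m => c z.1 z.2.1 z.2.2))) =
        (aeval (co (fun i => (c i).map (eval (co T)))) :
          MvPolynomial (Fin 3 × m × m) k →ₐ[k] k) := by
      apply MvPolynomial.algHom_ext
      rintro ⟨i, x', y'⟩
      simp only [AlgHom.comp_apply, aeval_X]
      rfl
    have h3 := congrArg (fun f => f F) h1
    simp only [AlgHom.comp_apply] at h3
    exact h3
  rw [← hev]
  refine hT _ fun T' hT' => ?_
  rw [hev]
  exact hc T' hT' F hF

/-- the triple `(x, y, z + e ⊗ φ + w ⊗ e*)` -/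
def axis {n : Type*} (x y z : Matrix n n k) (w φ : n → k) :
    Fin 3 → Matrix (n ⊕ Unit) (n ⊕ Unit) k :=
  ![fromBlocks x 0 0 0, fromBlocks y 0 0 0,
    fromBlocks z (replicateCol Unit w) (replicateRow Unit φ) 0]

variable {n : Type*} [Fintype n] [DecidableEq n]

theorem rank_pow_lt {M : Matrix n n k} (hM : IsNilpotent M) {i : ℕ} (h : M ^ i ≠ 0) :
    (M ^ (i + 1)).rank < (M ^ i).rank := by
  have hle : LinearMap.range (M ^ (i + 1)).mulVecLin ≤ LinearMap.range (M ^ i).mulVecLin := by
    rintro _ ⟨v, rfl⟩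
    refine ⟨M *ᵥ v, ?_⟩
    simp only [Matrix.mulVecLin_apply, Matrix.mulVec_mulVec, pow_succ]
  refine Submodule.finrank_lt_finrank_of_lt (lt_of_le_of_ne hle fun heq => h ?_)
  obtain ⟨p, hp⟩ := hM
  have h2 : ∀ j v, ∃ u, M ^ i *ᵥ v = M ^ (i + j) *ᵥ u := by
    intro j
    induction j with
    | zero => intro v; exact ⟨v, rfl⟩
    | succ j ih =>
      intro v
      obtain ⟨u, hu⟩ := ih v
      have h3 : (M ^ i).mulVecLin u ∈ LinearMap.range (M ^ i).mulVecLin := ⟨u, rfl⟩
      rw [← heq] at h3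
      obtain ⟨u', hu'⟩ := h3
      simp only [Matrix.mulVecLin_apply] at hu'
      refine ⟨u', ?_⟩
      rw [hu, show i + j = j + i from add_comm i j, pow_add, ← Matrix.mulVec_mulVec, ← hu',
        Matrix.mulVec_mulVec, ← pow_add]
      congr 2
      omega
  ext a b
  obtain ⟨u, hu⟩ := h2 p (Pi.single b 1)
  rw [pow_add, hp, mul_zero, Matrix.zero_mulVec, Matrix.mulVec_single_one] at hu
  exact congrFun hu a

theorem rank_of_pow {M : Matrix n n k} (hM : IsNilpotent M)
    (h : M ^ (Fintype.card n - 1) ≠ 0) : Fintype.card n ≤ M.rank + 1 := by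
  have h1 : ∀ j, j + 2 ≤ Fintype.card n → j + 1 ≤ (M ^ (Fintype.card n - 1 - j)).rank := by
    intro j
    induction j with
    | zero =>
      intro _
      rw [Nat.sub_zero, Nat.one_le_iff_ne_zero]
      intro h0
      rw [Matrix.rank, Submodule.finrank_eq_zero, LinearMap.range_eq_bot] at h0
      apply h
      ext a b
      have h5 := congrArg (fun f => f (Pi.single b 1) a) h0
      simpa [Matrix.mulVec_single_one] using h5
    | succ j ih =>
      intro hj
      have h2 := ih (by omega)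
      have h3 : M ^ (Fintype.card n - 1 - (j + 1)) ≠ 0 := by
        intro h0
        apply h
        have : Fintype.card n - 1 = (Fintype.card n - 1 - (j + 1)) + (j + 1) := by omega
        rw [this, pow_add, h0, zero_mul]
      have h4 := rank_pow_lt hM h3
      rw [show Fintype.card n - 1 - (j + 1) + 1 = Fintype.card n - 1 - j from by omega] at h4
      omega
  rcases Nat.lt_or_ge (Fintype.card n) 2 with h2 | h2
  · omega
  · have := h1 (Fintype.card n - 2) (by omega)
    rw [show Fintype.card n - 1 - (Fintype.card n - 2) = 1 from by omega, pow_one] at this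
    omega

/-- corank at most 2, any index type -/
theorem cl_corank' [IsAlgClosed k] [CharZero k] {T : Fin 3 → Matrix n n k}
    (hN : 0 < Fintype.card n) (hT : CN T) {M : Matrix n n k} (hM : M ∈ adj T)
    (hr : Fintype.card n ≤ M.rank + 2) : Cl T := by
  let e : n ≃ Fin (Fintype.card n) := Fintype.equivFin n
  let φ := Matrix.reindexAlgEquiv k k e
  have h1 : CN fun i => φ (T i) := by
    refine ⟨fun i j => ?_, fun i => ?_⟩
    · rw [← map_mul, ← map_mul, hT.1 i j]
    · exact (hT.2 i).map φ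
  have h2 : φ M ∈ adj fun i => φ (T i) := by
    have := mem_adj_map (φ : Matrix n n k →ₙₐ[k] Matrix (Fin (Fintype.card n)) (Fin (Fintype.card n)) k) hM
    exact this
  have h3 : (φ M).rank = M.rank := Matrix.rank_reindex e e M
  have h4 := D8.cl_corank hN h1 h2 (by rw [h3]; exact hr)
  have h5 := Cl.mapEquiv φ.symm (by simp) h4
  have h6 : (fun i => φ.symm (φ (T i))) = T := by
    funext i
    exact φ.symm_apply_apply _
  rwa [h6] at h5

theorem rank_inl (A : Matrix n n k) :
    A.rank ≤ (fromBlocks A 0 0 0 : Matrix (n ⊕ Unit) (n ⊕ Unit) k).rank := by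
  have h1 : A = (fromCols (1 : Matrix n n k) (0 : Matrix n Unit k)) *
      (fromBlocks A 0 0 0 : Matrix (n ⊕ Unit) (n ⊕ Unit) k) *
      (fromRows (1 : Matrix n n k) (0 : Matrix Unit n k)) := by
    rw [fromCols_mul_fromBlocks, fromCols_mul_fromRows]
    simp
  conv_lhs => rw [h1]
  exact (Matrix.rank_mul_le_left _ _).trans (Matrix.rank_mul_le_right _ _)

theorem axis_cn {x y z : Matrix n n k} {w φ : n → k} (hxy : x * y = y * x) (hxz : x * z = z * x)
    (hyz : y * z = z * y) (hx : IsNilpotent x) (hy : IsNilpotent y) (hz : IsNilpotent z)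
    (hxw : x *ᵥ w = 0) (hyw : y *ᵥ w = 0) (hzw : z *ᵥ w = 0) (hφx : φ ᵥ* x = 0)
    (hφy : φ ᵥ* y = 0) (hφz : φ ᵥ* z = 0) (hφw : φ ⬝ᵥ w = 0) : CN (axis x y z w φ) := by
  have h1 : ∀ m : Matrix n n k, m *ᵥ w = 0 → m * replicateCol Unit w = 0 := by
    intro m hm
    ext a b
    exact congrFun hm a
  have h2 : ∀ m : Matrix n n k, φ ᵥ* m = 0 → replicateRow Unit φ * m = 0 := by
    intro m hm
    ext a b
    exact congrFun hm b
  have h3 : replicateRow Unit φ * replicateCol Unit w = 0 := by
    ext a b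
    exact hφw
  have hb : ∀ (m : Matrix n n k), IsNilpotent m →
      IsNilpotent (fromBlocks m 0 0 0 : Matrix (n ⊕ Unit) (n ⊕ Unit) k) := by
    rintro m ⟨p, hp⟩
    refine ⟨p + 1, ?_⟩
    have h4 : ∀ q : ℕ, (fromBlocks m 0 0 0 : Matrix (n ⊕ Unit) (n ⊕ Unit) k) ^ (q + 1) =
        fromBlocks (m ^ (q + 1)) 0 0 0 := by
      intro q
      induction q with
      | zero => simp
      | succ q ih =>
        rw [pow_succ, ih, fromBlocks_multiply, pow_succ m (q + 1)]
        simp
    rw [h4, pow_succ, hp, zero_mul]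
    simp
  refine D8.cn3 ?_ ?_ ?_ (hb x hx) (hb y hy) ?_
  · rw [fromBlocks_multiply, fromBlocks_multiply]
    simp [hxy]
  · rw [fromBlocks_multiply, fromBlocks_multiply]
    simp [hxz, h1 x hxw, h2 x hφx]
  · rw [fromBlocks_multiply, fromBlocks_multiply]
    simp [hyz, h1 y hyw, h2 y hφy]
  · have h5 : (fromBlocks z (replicateCol Unit w) (replicateRow Unit φ) 0 :
        Matrix (n ⊕ Unit) (n ⊕ Unit) k) ^ 3 = fromBlocks (z ^ 3) 0 0 0 := by
      rw [pow_succ, pow_two, fromBlocks_multiply, h1 z hzw, h2 z hφz, h3, fromBlocks_multiply]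
      have e1 : (z * z + replicateCol Unit w * replicateRow Unit φ) * z = z ^ 3 := by
        rw [Matrix.add_mul, Matrix.mul_assoc (replicateCol Unit w), h2 z hφz, Matrix.mul_zero,
          add_zero, pow_succ, pow_two]
      have e2 : (z * z + replicateCol Unit w * replicateRow Unit φ) * replicateCol Unit w = 0 := by
        rw [Matrix.add_mul, Matrix.mul_assoc z, h1 z hzw, Matrix.mul_assoc (replicateCol Unit w), h3,
          Matrix.mul_zero, Matrix.mul_zero, add_zero]
      rw [e1, e2]
      simp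
    obtain ⟨p, hp⟩ := hb (z ^ 3) (by
      obtain ⟨p, hp⟩ := hz
      exact ⟨p, by rw [← pow_mul, mul_comm, pow_mul, hp, zero_pow (by norm_num)]⟩)
    exact ⟨3 * p, by rw [pow_mul, h5, hp]⟩

/-- curvilinear triples with one more axis -/
theorem axis_curv [IsAlgClosed k] [CharZero k] (hn : 2 ≤ Fintype.card n) {N : Matrix n n k}
    (hN : N ^ Fintype.card n = 0) (hN' : N ^ (Fintype.card n - 1) ≠ 0) (q : Fin 3 → Polynomial k)
    (hq : ∀ i, (q i).coeff 0 = 0) (v : n → k) {φ : n → k} (hφ : φ ᵥ* N = 0) :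
    Cl (axis (Polynomial.aeval N (q 0)) (Polynomial.aeval N (q 1)) (Polynomial.aeval N (q 2))
      (N ^ (Fintype.card n - 1) *ᵥ v) φ) := by
  have hX : ∀ p : Polynomial k, p.coeff 0 = 0 → p = Polynomial.X * p.divX := by
    intro p hp
    conv_lhs => rw [← Polynomial.X_mul_divX_add p]
    rw [hp]
    simp
  have hXw : ∀ p : Polynomial k, p.coeff 0 = 0 →
      Polynomial.aeval N p *ᵥ (N ^ (Fintype.card n - 1) *ᵥ v) = 0 := by
    intro p hp
    rw [hX p hp, mul_comm, map_mul, Polynomial.aeval_X, Matrix.mulVec_mulVec, Matrix.mul_assoc,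
      ← pow_succ', Nat.sub_add_cancel (by omega), hN, mul_zero, Matrix.zero_mulVec]
  have hXφ : ∀ p : Polynomial k, p.coeff 0 = 0 → φ ᵥ* Polynomial.aeval N p = 0 := by
    intro p hp
    rw [hX p hp, map_mul, Polynomial.aeval_X, ← Matrix.vecMul_vecMul, hφ, Matrix.zero_vecMul]
  have hφw : φ ⬝ᵥ (N ^ (Fintype.card n - 1) *ᵥ v) = 0 := by
    rw [show Fintype.card n - 1 = (Fintype.card n - 2) + 1 from by omega, pow_succ',
      ← Matrix.mulVec_mulVec, Matrix.dotProduct_mulVec, hφ, zero_dotProduct]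
  have hcomm : ∀ p r : Polynomial k, Polynomial.aeval N p * Polynomial.aeval N r =
      Polynomial.aeval N r * Polynomial.aeval N p := by
    intro p r
    rw [← map_mul, ← map_mul, mul_comm]
  have hNn : IsNilpotent N := ⟨_, hN⟩
  have hnil : ∀ p : Polynomial k, p.coeff 0 = 0 → IsNilpotent (Polynomial.aeval N p) := by
    intro p hp
    rw [hX p hp, map_mul, Polynomial.aeval_X]
    refine ⟨Fintype.card n, ?_⟩
    rw [Commute.mul_pow, hN, zero_mul]
    have := hcomm Polynomial.X p.divX
    rw [Polynomial.aeval_X] at this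
    exact this
  by_contra h0
  let c : k → Fin 3 → Matrix (n ⊕ Unit) (n ⊕ Unit) k := fun s =>
    axis (Polynomial.aeval N (q 0 + s • Polynomial.X)) (Polynomial.aeval N (q 1))
      (Polynomial.aeval N (q 2)) (N ^ (Fintype.card n - 1) *ᵥ v) φ
  have hc0 : ∀ s, c s = axis (Polynomial.aeval N (q 0)) (Polynomial.aeval N (q 1))
      (Polynomial.aeval N (q 2)) (N ^ (Fintype.card n - 1) *ᵥ v) φ +
      s • ![fromBlocks N 0 0 0, 0, 0] := by
    intro s
    funext i
    fin_cases i
    · simp only [c, axis, map_add, map_smul, Polynomial.aeval_X]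
      ext a b
      rcases a with a | a <;> rcases b with b | b <;> simp
    · simp [c, axis]
    · simp [c, axis]
  have h1 := finite_cl (fun s => axis (Polynomial.aeval N (q 0)) (Polynomial.aeval N (q 1))
      (Polynomial.aeval N (q 2)) (N ^ (Fintype.card n - 1) *ᵥ v) φ +
      s • ![fromBlocks N 0 0 0, 0, 0]) (PolyFam.line _ _) (by simpa using h0)
  obtain ⟨s, hs⟩ := (h1.union (Set.finite_singleton (-(q 0).coeff 1))).exists_notMem
  simp only [Set.mem_union, not_or, Set.mem_singleton_iff, Set.mem_ofPred_eq] at hs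
  obtain ⟨hs1, hs2⟩ := hs
  apply hs1
  rw [← hc0]
  have hp0 : (q 0 + s • Polynomial.X).coeff 0 = 0 := by simp [hq]
  have hcn : CN (c s) := axis_cn (hcomm _ _) (hcomm _ _) (hcomm _ _) (hnil _ hp0)
    (hnil _ (hq 1)) (hnil _ (hq 2)) (hXw _ hp0) (hXw _ (hq 1)) (hXw _ (hq 2)) (hXφ _ hp0)
    (hXφ _ (hq 1)) (hXφ _ (hq 2)) hφw
  refine cl_corank' (by rw [Fintype.card_sum]; omega) hcn (mem_adj (c s) 0) ?_
  have h2 : Fintype.card n ≤ (Polynomial.aeval N (q 0 + s • Polynomial.X)).rank + 1 := by
    refine rank_of_pow (hnil _ hp0) ?_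
    rw [hX _ hp0, Q5dc.pow_aeval hN]
    refine smul_ne_zero (pow_ne_zero _ ?_) hN'
    rw [Polynomial.coeff_divX]
    intro h2
    apply hs2
    simp at h2
    linear_combination h2
  have h3 := rank_inl (Polynomial.aeval N (q 0 + s • Polynomial.X))
  have h4 : c s 0 = fromBlocks (Polynomial.aeval N (q 0 + s • Polynomial.X)) 0 0 0 := rfl
  rw [h4, Fintype.card_sum, Fintype.card_unit]
  omega

/-- Cramer: the adjugate of a matrix with a kernel vector -/
theorem adj_kill {P : Matrix n n k} {w₀ : n → k} (hw₀ : w₀ ≠ 0) (hP : P *ᵥ w₀ = 0) (u : n → k) :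
    ∃ c : k, P.adjugate *ᵥ u = c • w₀ := by
  have h1 : ∀ ρ : n → k, ρ ⬝ᵥ w₀ = 0 → ρ ⬝ᵥ (P.adjugate *ᵥ u) = 0 := by
    intro ρ hρ
    have h2 : ρ ᵥ* P.adjugate = 0 := by
      funext j
      have h3 : (P.updateRow j ρ).det = 0 := by
        rw [← Matrix.exists_mulVec_eq_zero_iff]
        refine ⟨w₀, hw₀, ?_⟩
        funext i
        by_cases hi : i = j
        · subst hi
          simp only [Matrix.mulVec, Matrix.updateRow_self]
          exact hρ
        · have := congrFun hP i
          simp only [Matrix.mulVec, Matrix.updateRow_ne hi] at this ⊢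
          exact this
      have h4 := Matrix.cramer_transpose_apply P ρ j
      rw [h3, Matrix.cramer_eq_adjugate_mulVec, ← Matrix.adjugate_transpose,
        Matrix.mulVec_transpose] at h4
      exact h4
    rw [Matrix.dotProduct_mulVec, h2, zero_dotProduct]
  obtain ⟨a, ha⟩ : ∃ a, w₀ a ≠ 0 := by
    by_contra h
    push Not at h
    exact hw₀ (funext h)
  refine ⟨(P.adjugate *ᵥ u) a / w₀ a, ?_⟩
  funext b
  have h2 := h1 (w₀ a • Pi.single b 1 - w₀ b • Pi.single a 1) (by
    simp [sub_dotProduct, mul_comm])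
  simp only [sub_dotProduct, smul_dotProduct, single_dotProduct, one_mul, smul_eq_mul] at h2
  simp only [Pi.smul_apply, smul_eq_mul]
  field_simp
  linear_combination h2

theorem adj_proj {w r : n → k} (h : r ⬝ᵥ w = 1) :
    (1 - vecMulVec w r).adjugate *ᵥ w = w := by
  classical
  let W : n → Polynomial k := fun a => Polynomial.C (w a)
  let R : n → Polynomial k := fun a => Polynomial.C (r a)
  let P : Matrix n n (Polynomial k) := 1 + replicateCol Unit ((-Polynomial.X : Polynomial k) • W) *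
    replicateRow Unit R
  have hRW : R ⬝ᵥ W = 1 := by
    have : R ⬝ᵥ W = Polynomial.C (r ⬝ᵥ w) := by
      simp [R, W, dotProduct, map_sum]
    rw [this, h, map_one]
  have h1 : P.det = 1 - Polynomial.X := by
    simp only [P]
    rw [Matrix.det_one_add_replicateCol_mul_replicateRow, dotProduct_smul, hRW]
    simp [sub_eq_add_neg]
  have h2 : P *ᵥ W = (1 - Polynomial.X : Polynomial k) • W := by
    have h3 : replicateRow Unit R *ᵥ W = fun _ => 1 := by
      funext a
      exact hRW
    simp only [P]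
    rw [Matrix.add_mulVec, Matrix.one_mulVec, ← Matrix.mulVec_mulVec, h3]
    funext a
    simp [Matrix.mulVec, dotProduct, sub_eq_add_neg]
    ring
  have h4 : (1 - Polynomial.X : Polynomial k) • (P.adjugate *ᵥ W) =
      (1 - Polynomial.X : Polynomial k) • W := by
    conv_lhs => rw [← Matrix.mulVec_smul, ← h2, Matrix.mulVec_mulVec, Matrix.adjugate_mul, h1,
      Matrix.smul_mulVec, Matrix.one_mulVec]
  have h5 : (1 - Polynomial.X : Polynomial k) ≠ 0 := by
    intro h6
    have h7 := congrArg (Polynomial.eval 0) h6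
    simp at h7
  have h6 : P.adjugate *ᵥ W = W := by
    funext a
    have h7 := congrFun h4 a
    simp only [Pi.smul_apply, smul_eq_mul] at h7
    exact mul_left_cancel₀ h5 h7
  have h7 : (Polynomial.evalRingHom (1 : k)).mapMatrix P = 1 - vecMulVec w r := by
    ext a b
    simp only [P, RingHom.mapMatrix_apply, Matrix.map_apply, Matrix.add_apply, Matrix.sub_apply,
      Matrix.mul_apply, Matrix.vecMulVec_apply]
    by_cases hab : a = b
    · subst hab
      simp [W, R, sub_eq_add_neg]
    · simp [W, R, hab]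
  rw [← h7, ← RingHom.map_adjugate]
  funext a
  have h8 := congrArg (Polynomial.evalRingHom (1 : k)) (congrFun h6 a)
  simp only [Matrix.mulVec, dotProduct, map_sum, map_mul] at h8 ⊢
  simpa [W] using h8

/-- a polynomial vector field in the common kernel -/
theorem exists_ker {T₀ : Fin 3 → Matrix n n k} {w : n → k} (hw : w ≠ 0)
    (hT : ∀ v, (∀ i, T₀ i *ᵥ v = 0) → ∃ c : k, v = c • w) :
    ∃ W : n → MvPolynomial (Fin 3 × n × n) k, (∀ a, eval (co T₀) (W a) = w a) ∧
      ∀ T : Fin 3 → Matrix n n k, ∀ w₀ : n → k, w₀ ≠ 0 → (∀ i, T i *ᵥ w₀ = 0) →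
        ∃ c : k, (fun a => eval (co T) (W a)) = c • w₀ := by
  classical
  obtain ⟨a, ha⟩ : ∃ a, w a ≠ 0 := by
    by_contra h
    push Not at h
    exact hw (funext h)
  let r : n → k := (w a)⁻¹ • Pi.single a 1
  have hr : r ⬝ᵥ w = 1 := by
    simp [r, smul_dotProduct, ha]
  let P₀ : Matrix n n k := 1 - vecMulVec w r
  have hP₀ : P₀ *ᵥ w = 0 := by
    simp only [P₀]
    rw [Matrix.sub_mulVec, Matrix.one_mulVec, Matrix.vecMulVec_mulVec, hr]
    simp
  let L : Fin 3 × n → (n → k) →ₗ[k] k := fun i => (LinearMap.proj i.2).comp (T₀ i.1).mulVecLin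
  have h1 : ∀ b, (LinearMap.proj b).comp P₀.mulVecLin ∈ Submodule.span k (Set.range L) := by
    intro b
    refine mem_span_of_iInf_ker_le_ker fun v hv => ?_
    simp only [Submodule.mem_iInf, LinearMap.mem_ker] at hv
    obtain ⟨c, rfl⟩ := hT v fun i => funext fun x => hv (i, x)
    show (P₀ *ᵥ (c • w)) b = 0
    rw [Matrix.mulVec_smul, hP₀, smul_zero]
    rfl
  choose c hc using fun b => (Submodule.mem_span_range_iff_exists_fun k).1 (h1 b)
  let A : Fin 3 → Matrix n n k := fun i => Matrix.of fun b x => c b (i, x)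
  have hA : ∑ i, A i * T₀ i = P₀ := by
    ext b y
    have h2 := congrArg (fun f => f (Pi.single y 1)) (hc b)
    simp only [L, LinearMap.sum_apply, LinearMap.smul_apply, LinearMap.comp_apply,
      LinearMap.proj_apply, Matrix.mulVecLin_apply, Matrix.mulVec_single_one, Matrix.col_apply,
      smul_eq_mul, Fintype.sum_prod_type] at h2
    rw [Matrix.sum_apply, ← h2]
    refine Finset.sum_congr rfl fun i _ => ?_
    rw [Matrix.mul_apply]
    rfl
  let X' : Fin 3 → Matrix n n (MvPolynomial (Fin 3 × n × n) k) :=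
    fun i => Matrix.of fun x y => X (i, x, y)
  let P : Matrix n n (MvPolynomial (Fin 3 × n × n) k) := ∑ i, (A i).map C * X' i
  have hev : ∀ T : Fin 3 → Matrix n n k, (eval (co T)).mapMatrix P = ∑ i, A i * T i := by
    intro T
    simp only [P, map_sum, map_mul]
    refine Finset.sum_congr rfl fun i _ => ?_
    congr 1
    · ext x y
      simp
    · ext x y
      simp [X', co]
  have hW : ∀ T : Fin 3 → Matrix n n k, (fun a => eval (co T)
      ((P.adjugate *ᵥ fun b => C (w b)) a)) = (∑ i, A i * T i).adjugate *ᵥ w := by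
    intro T
    rw [← hev T, ← RingHom.map_adjugate]
    funext a
    simp only [Matrix.mulVec, dotProduct, map_sum, map_mul, eval_C]
    rfl
  refine ⟨P.adjugate *ᵥ fun b => C (w b), fun b => ?_, fun T w₀ hw₀ h => ?_⟩
  · have h2 := congrFun (hW T₀) b
    rw [hA, adj_proj hr] at h2
    exact h2
  · rw [hW]
    refine adj_kill hw₀ ?_ w
    rw [Matrix.sum_mulVec]
    refine Finset.sum_eq_zero fun i _ => ?_
    rw [← Matrix.mulVec_mulVec, h i, Matrix.mulVec_zero]

/-- one more axis: the common kernel and the common cokernel are one-dimensional -/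
theorem cl_axis [IsAlgClosed k] [CharZero k] (hn : 2 ≤ Fintype.card n) {x y z : Matrix n n k}
    (hcl : Cl ![x, y, z]) {w φ : n → k} (hw : w ≠ 0) (hφ : φ ≠ 0)
    (hker : ∀ v, x *ᵥ v = 0 → y *ᵥ v = 0 → z *ᵥ v = 0 → ∃ c : k, v = c • w)
    (hcok : ∀ v, v ᵥ* x = 0 → v ᵥ* y = 0 → v ᵥ* z = 0 → ∃ c : k, v = c • φ) (a b : k) :
    Cl (axis x y z (b • w) (a • φ)) := by
  obtain ⟨W, hW1, hW2⟩ := exists_ker (T₀ := ![x, y, z]) hw fun v hv => hker v (hv 0) (hv 1) (hv 2)
  obtain ⟨V, hV1, hV2⟩ := exists_ker (T₀ := ![xᵀ, yᵀ, zᵀ]) hφ fun v hv => hcok v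
    (by rw [← Matrix.mulVec_transpose]; exact hv 0) (by rw [← Matrix.mulVec_transpose]; exact hv 1)
    (by rw [← Matrix.mulVec_transpose]; exact hv 2)
  -- transposed variables
  let τ : MvPolynomial (Fin 3 × n × n) k →ₐ[k] MvPolynomial (Fin 3 × n × n) k :=
    aeval fun t : Fin 3 × n × n => X (t.1, t.2.2, t.2.1)
  have hτ : ∀ (T : Fin 3 → Matrix n n k) (F : MvPolynomial (Fin 3 × n × n) k),
      eval (co T) (τ F) = eval (co fun i => (T i)ᵀ) F := by
    intro T F
    have h1 : ((aeval (co T) : MvPolynomial (Fin 3 × n × n) k →ₐ[k] k).comp τ) =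
        (aeval (co fun i => (T i)ᵀ) : MvPolynomial (Fin 3 × n × n) k →ₐ[k] k) := by
      apply MvPolynomial.algHom_ext
      rintro ⟨i, x', y'⟩
      simp only [τ, AlgHom.comp_apply, aeval_X]
      rfl
    have h3 := congrArg (fun f => f F) h1
    simp only [AlgHom.comp_apply] at h3
    exact h3
  let c : Fin 3 → Matrix (n ⊕ Unit) (n ⊕ Unit) (MvPolynomial (Fin 3 × n × n) k) :=
    ![fromBlocks (Matrix.of fun x y => X (0, x, y)) 0 0 0,
      fromBlocks (Matrix.of fun x y => X (1, x, y)) 0 0 0,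
      fromBlocks (Matrix.of fun x y => X (2, x, y)) (replicateCol Unit fun i => C b * W i)
        (replicateRow Unit fun i => C a * τ (V i)) 0]
  have hc : ∀ T : Fin 3 → Matrix n n k, (fun i => (c i).map (eval (co T))) =
      axis (T 0) (T 1) (T 2) (b • fun i => eval (co T) (W i))
        (a • fun i => eval (co fun i => (T i)ᵀ) (V i)) := by
    intro T
    funext i
    fin_cases i
    · ext u v
      rcases u with u | u <;> rcases v with v | v <;> simp [c, axis, co]
    · ext u v
      rcases u with u | u <;> rcases v with v | v <;> simp [c, axis, co]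
    · ext u v
      rcases u with u | u <;> rcases v with v | v <;> simp [c, axis, co, hτ]
  have hcl2 := cl_poly c (fun T hT => ?_) hcl
  · rw [hc] at hcl2
    have h1 : (fun i => eval (co ![x, y, z]) (W i)) = w := funext hW1
    have h2 : (fun i => eval (co fun i => (![x, y, z] i)ᵀ) (V i)) = φ := by
      have h3 : (fun i => (![x, y, z] i)ᵀ) = ![xᵀ, yᵀ, zᵀ] := by
        funext i
        fin_cases i <;> rfl
      rw [h3]
      exact funext hV1
    rw [h1, h2] at hcl2
    exact hcl2
  · rw [hc]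
    obtain ⟨N, hN, hN', hq⟩ := hT
    choose q hq0 hq1 using hq
    have hex : ∃ v : n → k, N ^ (Fintype.card n - 1) *ᵥ v ≠ 0 := by
      by_contra h
      push Not at h
      apply hN'
      ext i j
      have := congrFun (h (Pi.single j 1)) i
      rwa [Matrix.mulVec_single_one] at this
    have hex' : ∃ v : n → k, v ᵥ* N ^ (Fintype.card n - 1) ≠ 0 := by
      by_contra h
      push Not at h
      apply hN'
      ext i j
      have := congrFun (h (Pi.single i 1)) j
      rwa [Matrix.single_one_vecMul] at this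
    obtain ⟨v, hv⟩ := hex
    obtain ⟨v', hv'⟩ := hex'
    have hX : ∀ p : Polynomial k, p.coeff 0 = 0 → p = Polynomial.X * p.divX := by
      intro p hp
      conv_lhs => rw [← Polynomial.X_mul_divX_add p]
      rw [hp]
      simp
    obtain ⟨s, hs⟩ := hW2 T _ hv (by
      intro i
      rw [hq1 i, hX _ (hq0 i), mul_comm, map_mul, Polynomial.aeval_X, Matrix.mulVec_mulVec,
        Matrix.mul_assoc, ← pow_succ', Nat.sub_add_cancel (by omega), hN, mul_zero,
        Matrix.zero_mulVec])
    obtain ⟨t, ht⟩ := hV2 (fun i => (T i)ᵀ) _ hv' (by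
      intro i
      rw [Matrix.mulVec_transpose, hq1 i, hX _ (hq0 i), map_mul, Polynomial.aeval_X,
        Matrix.vecMul_vecMul, ← Matrix.mul_assoc, ← pow_succ, Nat.sub_add_cancel (by omega), hN,
        Matrix.zero_mul, Matrix.vecMul_zero])
    rw [hs, ht, hq1 0, hq1 1, hq1 2, ← Matrix.mulVec_smul, ← Matrix.mulVec_smul]
    refine axis_curv hn hN hN' q hq0 _ ?_
    rw [Matrix.smul_vecMul, Matrix.smul_vecMul, Matrix.vecMul_vecMul, ← pow_succ,
      Nat.sub_add_cancel (by omega), hN, Matrix.vecMul_zero, smul_zero, smul_zero]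

end Pool.Agent.Lib.D13.AxC
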