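import Pool.Agent.Lib.D13.M4321

/-!
# MP_5dcbc3_ag: type `(4, 3, 2, 1)`, case B: `pi = ph = rho = 0`

`c = x v0 + y u0 + w w0` with `X c` in the image of `J`, `J b = X c`: if `B b' = C b` the triple is
raised by `p*`.
-/

set_option autoImplicit false

namespace Pool.Agent.Lib.D13.T4321

open Matrix Pool.Agent.Lib.Q5dc Pool.Agent.Lib.D7

variable {k : Type*} [Field k] {ρ : ℕ → ℕ} {P P' : Par k}

/-- the conditions of case B -/
structure CB (P P' : Par k) : Prop where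
  pi : P.pi = 0
  ph : P.ph = 0
  rho : P.rho = 0
  pi' : P'.pi = 0
  ph' : P'.ph = 0
  rho' : P'.rho = 0

/-- the rank conditions used in case B -/
structure RC (P P' : Par k) : Prop where
  c1 : (P.al0 = 0 ∧ P'.al0 = 0) ∨ (P.be0 = 0 ∧ P'.be0 = 0)
  c2 : (P.e0 = 0 ∧ P'.e0 = 0) ∨ (P.f0 = 0 ∧ P'.f0 = 0)
  c3 : (P.al0 = 0 ∧ P'.al0 = 0) ∨ (P.e0 = 0 ∧ P'.e0 = 0) ∨ (P.de0 = 0 ∧ P'.de0 = 0)

/-- the vector `b` with `J b = X c` -/
def bv (P : Par k) (x y w a b : k) : Fin 10 → k :=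
  ![y * P.be0, x * P.al1 + y * P.q1 + w * P.f0, x * P.g1 + y * P.e1 + w * P.z,
    y * P.be1 + w * P.de0, x * P.al2 + y * P.q2 + w * P.f1, 0, a, y * P.be2 + w * P.de1, b, 0]

theorem J_bv {x y w a b : k} (hp : P.pi = 0) (hp1 : P.ph = 0) (hp2 : P.rho = 0)
    (c1 : x * P.al0 = 0) (c2 : x * P.g0 + y * P.e0 = 0) :
    actJ (bv P x y w a b) = act P ![x, y, w, 0, 0, 0, 0, 0, 0, 0] := by
  funext i
  fin_cases i <;> simp [actJ, act, bv, hp, hp1, hp2]
  · exact (mul_eq_zero.1 c1).symm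
  · linear_combination -c2
  all_goals ring

/-- only three coordinates of `B b' = C b` are not automatic -/
theorem raiseE [Infinite k] (hT : MaxR ρ ![J k, X P, X P']) (h1 : ρ 1 ≤ (J k).rank)
    (hp : CB P P') {x y w : k} (a a' b b' : k) (hne : x ≠ 0 ∨ y ≠ 0 ∨ w ≠ 0)
    (c1 : x * P.al0 = 0) (c1' : x * P'.al0 = 0) (c2 : x * P.g0 + y * P.e0 = 0)
    (c2' : x * P'.g0 + y * P'.e0 = 0)
    (H6 : act P (bv P' x y w a' b') 6 = act P' (bv P x y w a b) 6)
    (H8 : act P (bv P' x y w a' b') 8 = act P' (bv P x y w a b) 8)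
    (H9 : act P (bv P' x y w a' b') 9 = act P' (bv P x y w a b) 9) : False := by
  have e1 := J_bv (w := w) (a := a) (b := b) hp.pi hp.ph hp.rho c1 c2
  have e2 := J_bv (w := w) (a := a') (b := b') hp.pi' hp.ph' hp.rho' c1' c2'
  have hJ : ∀ (P : Par k) (m : Fin 10 → k), actJ (act P m) = act P (actJ m) := by
    intro P m
    funext i
    fin_cases i <;> simp [act, actJ]
  have hc : actJ (act P (bv P' x y w a' b')) = actJ (act P' (bv P x y w a b)) := by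
    rw [hJ, hJ, e1, e2, act_comm (MaxR.rel hT)]
  have g0 := congrFun hc 3
  have g1 := congrFun hc 4
  have g2 := congrFun hc 6
  have g3 := congrFun hc 7
  have g4 := congrFun hc 8
  have g7 := congrFun hc 9
  have h := MaxR.raiseP hT h1 hp.pi hp.ph hp.rho hp.pi' hp.ph' hp.rho'
    (c := ![x, y, w, 0, 0, 0, 0, 0, 0, 0]) (b := bv P x y w a b) (b' := bv P' x y w a' b')
    rfl rfl rfl e1 e2 (by
      funext i
      fin_cases i
      · exact g0
      · exact g1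
      · exact g2
      · exact g3
      · exact g4
      · simp [act, bv, hp.pi, hp.ph, hp.rho, hp.pi', hp.ph', hp.rho']
      · exact H6
      · exact g7
      · exact H8
      · exact H9)
  obtain ⟨h1, h2, h3⟩ := h
  rcases hne with h | h | h
  · exact h h1
  · exact h h2
  · exact h h3

theorem exists_br {f f' : k} (h : f ≠ 0 ∨ f' ≠ 0) (t : k) : ∃ a a' : k, a' * f - a * f' = t := by
  rcases h with h | h
  · exact ⟨0, t / f, by field_simp; ring⟩
  · exact ⟨-t / f', 0, by field_simp; ring⟩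

theorem exists_br2 {f f' d d' : k} (h : d' * f - d * f' ≠ 0) (t t' : k) :
    ∃ a a' : k, a' * f - a * f' = t ∧ a' * d - a * d' = t' := by
  refine ⟨(t' * f - t * d) / -(d' * f - d * f'), (t' * f' - t * d') / -(d' * f - d * f'), ?_, ?_⟩
  · rw [div_mul_eq_mul_div, div_mul_eq_mul_div, ← sub_div, div_eq_iff (neg_ne_zero.2 h)]
    ring
  · rw [div_mul_eq_mul_div, div_mul_eq_mul_div, ← sub_div, div_eq_iff (neg_ne_zero.2 h)]
    ring

theorem exists_lin2 (K L : k) : ∃ y w : k, (y ≠ 0 ∨ w ≠ 0) ∧ y * K + w * L = 0 := by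
  by_cases hK : K = 0
  · exact ⟨1, 0, Or.inl one_ne_zero, by rw [hK]; ring⟩
  · exact ⟨L, -K, Or.inr (neg_ne_zero.2 hK), by ring⟩

theorem exists_lin3 (A B C D E : k) : ∃ x y w : k, (x ≠ 0 ∨ y ≠ 0 ∨ w ≠ 0) ∧
    x * A + y * B = 0 ∧ x * C + y * D + w * E = 0 := by
  by_cases hE : E = 0
  · exact ⟨0, 0, 1, Or.inr (Or.inr one_ne_zero), by ring, by rw [hE]; ring⟩
  · obtain ⟨x, y, h1, h2⟩ := exists_lin2 A B
    refine ⟨x, y, -(x * C + y * D) / E, ?_, h2, ?_⟩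
    · rcases h1 with h | h
      · exact Or.inl h
      · exact Or.inr (Or.inl h)
    · field_simp
      ring

/-- the raise with `c = w0` -/
theorem raiseW [Infinite k] (hT : MaxR ρ ![J k, X P, X P']) (h1 : ρ 1 ≤ (J k).rank)
    (hp : CB P P') (a a' b b' : k)
    (H8 : Br P P' Par.de1 Par.al0 + Br P P' Par.de0 Par.al1 + Br P P' Par.f1 Par.q1 +
      Br P P' Par.f0 Par.q2 + Br P P' Par.z Par.f1 + (a' * P.f0 - a * P'.f0) = 0)
    (H9 : Br P P' Par.f1 Par.be1 + Br P P' Par.f0 Par.be2 + Br P P' Par.z Par.de1 +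
      (a' * P.de0 - a * P'.de0) + (b' * P.be0 - b * P'.be0) = 0) : False := by
  obtain ⟨r1, r2, r3, r4, r5, r6, r7, r8, r9, r10, r11, r12, r13, r14, r15, r16, r17, r18, r19,
    r20⟩ := MaxR.rel hT
  simp only [Br, hp.ph, hp.ph'] at *
  refine raiseE hT h1 hp (x := 0) (y := 0) (w := 1) a a' b b' (Or.inr (Or.inr one_ne_zero))
    (by simp) (by simp) (by simp) (by simp) ?_ ?_ ?_
  · simp [act, bv]
    linear_combination -r2 - r12
  · simp [act, bv]
    linear_combination H8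
  · simp [act, bv]
    linear_combination H9

/-- `be0 ≠ 0`, `f0 ≠ 0` -/
theorem case1a [Infinite k] (hT : MaxR ρ ![J k, X P, X P']) (h1 : ρ 1 ≤ (J k).rank)
    (hp : CB P P') (hb : P.be0 ≠ 0 ∨ P'.be0 ≠ 0) (hf : P.f0 ≠ 0 ∨ P'.f0 ≠ 0) : False := by
  obtain ⟨a, a', ha⟩ := exists_br hf (-(Br P P' Par.de1 Par.al0 + Br P P' Par.de0 Par.al1 +
    Br P P' Par.f1 Par.q1 + Br P P' Par.f0 Par.q2 + Br P P' Par.z Par.f1))
  obtain ⟨b, b', hb⟩ := exists_br hb (-(Br P P' Par.f1 Par.be1 + Br P P' Par.f0 Par.be2 +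
    Br P P' Par.z Par.de1 + (a' * P.de0 - a * P'.de0)))
  refine raiseW hT h1 hp a a' b b' ?_ ?_
  · rw [ha]
    ring
  · rw [hb]
    ring

/-- `f0, de0` independent -/
theorem case2a [Infinite k] (hT : MaxR ρ ![J k, X P, X P']) (h1 : ρ 1 ≤ (J k).rank)
    (hp : CB P P') (hf : Br P P' Par.de0 Par.f0 ≠ 0) : False := by
  obtain ⟨a, a', ha, hb⟩ := exists_br2 hf (-(Br P P' Par.de1 Par.al0 + Br P P' Par.de0 Par.al1 +
    Br P P' Par.f1 Par.q1 + Br P P' Par.f0 Par.q2 + Br P P' Par.z Par.f1))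
    (-(Br P P' Par.f1 Par.be1 + Br P P' Par.f0 Par.be2 + Br P P' Par.z Par.de1))
  refine raiseW hT h1 hp a a' 0 0 ?_ ?_
  · rw [ha]
    ring
  · rw [hb]
    ring

/-- `be0 ≠ 0`, `f0 = 0`, `al0 = 0` -/
theorem case1b [Infinite k] (hT : MaxR ρ ![J k, X P, X P']) (h1 : ρ 1 ≤ (J k).rank)
    (hp : CB P P') (hb : P.be0 ≠ 0 ∨ P'.be0 ≠ 0) (hf : P.f0 = 0) (hf' : P'.f0 = 0)
    (ha : P.al0 = 0) (ha' : P'.al0 = 0) : False := by
  by_cases h : P.e0 = 0 ∧ P'.e0 = 0 ∧ P.g0 = 0 ∧ P'.g0 = 0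
  · obtain ⟨he, he', hg, hg'⟩ := h
    obtain ⟨x, y, w, h0, hx1, hx2⟩ := exists_lin3
      (Br P P' Par.al1 Par.e1 + Br P P' Par.g1 Par.z)
      (Br P P' Par.be0 Par.g1 + Br P P' Par.q1 Par.e1 + Br P P' Par.e1 Par.z)
      (Br P P' Par.al2 Par.q1 + Br P P' Par.al1 Par.q2 + Br P P' Par.g1 Par.f1)
      (Br P P' Par.be1 Par.al1 + Br P P' Par.be0 Par.al2 + Br P P' Par.q2 Par.q1 +
        Br P P' Par.q1 Par.q2 + Br P P' Par.e1 Par.f1)
      (Br P P' Par.de0 Par.al1 + Br P P' Par.f1 Par.q1 + Br P P' Par.z Par.f1)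
    obtain ⟨b, b', hb⟩ := exists_br hb (-(act P (bv P' x y w 0 0) 9 - act P' (bv P x y w 0 0) 9))
    refine raiseE hT h1 hp (x := x) (y := y) (w := w) 0 0 b b' h0 (by rw [ha, mul_zero])
      (by rw [ha', mul_zero]) (by rw [hg, he]; ring) (by rw [hg', he']; ring) ?_ ?_ ?_
    · simp only [Br] at hx1
      simp [act, bv, hf, hf', he, he', hg, hg']
      linear_combination hx1
    · simp only [Br] at hx2
      simp [act, bv, hf, hf', ha, ha']
      linear_combination hx2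
    · simp [act, bv] at hb ⊢
      linear_combination hb
  · have hD : Br P P' Par.de0 Par.al1 + Br P P' Par.f1 Par.q1 + Br P P' Par.z Par.f1 = 0 := by
      obtain ⟨r1, r2, r3, r4, r5, r6, r7, r8, r9, r10, r11, r12, r13, r14, r15, r16, r17, r18,
        r19, r20⟩ := MaxR.rel hT
      clear r3 r10 r19 r20 r8 r14 r18 r11 r1 r15 r6
      simp only [Br, hp.pi, hp.pi', hp.ph, hp.ph', hp.rho, hp.rho', hf, hf', ha, ha', zero_mul,
        mul_zero, sub_zero, zero_add, add_zero] at *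
      grind
    obtain ⟨b, b', hb⟩ := exists_br hb (-(Br P P' Par.f1 Par.be1 + Br P P' Par.f0 Par.be2 +
      Br P P' Par.z Par.de1))
    refine raiseW hT h1 hp 0 0 b b' ?_ ?_
    · simp only [Br, ha, ha', hf, hf'] at hD ⊢
      linear_combination hD
    · rw [hb]
      ring

/-- `be0 = 0`, `f0 ≠ 0`, `e0 = 0`, `de0 = δ f0` -/
theorem case2b [Infinite k] (hT : MaxR ρ ![J k, X P, X P']) (h1 : ρ 1 ≤ (J k).rank)
    (hp : CB P P') (hb : P.be0 = 0) (hb' : P'.be0 = 0) (hf : P.f0 ≠ 0 ∨ P'.f0 ≠ 0)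
    (he : P.e0 = 0) (he' : P'.e0 = 0) {δ : k} (hd : P.de0 = δ * P.f0) (hd' : P'.de0 = δ * P'.f0) :
    False := by
  have hD : Br P P' Par.be1 Par.g0 + Br P P' Par.q1 Par.e1 + Br P P' Par.e1 Par.z = 0 := by
    obtain ⟨r1, r2, r3, r4, r5, r6, r7, r8, r9, r10, r11, r12, r13, r14, r15, r16, r17, r18,
      r19, r20⟩ := MaxR.rel hT
    clear r3 r5 r19 r20 r8 r14 r18 r11 r1 r15 r6 r9 r13
    simp only [Br, hp.pi, hp.pi', hp.ph, hp.ph', hp.rho, hp.rho', hb, hb', he, he', hd, hd',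
      zero_mul, mul_zero, sub_zero, zero_add, add_zero] at *
    grind
  obtain ⟨y, w, h0, hyw⟩ := exists_lin2
    (Br P P' Par.q2 Par.be1 + Br P P' Par.q1 Par.be2 + Br P P' Par.e1 Par.de1 -
      δ * (Br P P' Par.be2 Par.al0 + Br P P' Par.be1 Par.al1 + Br P P' Par.q2 Par.q1 +
        Br P P' Par.q1 Par.q2 + Br P P' Par.e1 Par.f1))
    (Br P P' Par.f1 Par.be1 + Br P P' Par.f0 Par.be2 + Br P P' Par.z Par.de1 -
      δ * (Br P P' Par.de1 Par.al0 + Br P P' Par.de0 Par.al1 + Br P P' Par.f1 Par.q1 +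
        Br P P' Par.f0 Par.q2 + Br P P' Par.z Par.f1))
  obtain ⟨a, a', ha⟩ := exists_br hf (-(act P (bv P' 0 y w 0 0) 8 - act P' (bv P 0 y w 0 0) 8))
  have r := MaxR.rel hT
  have r2 := r.r2
  have r12 := r.r12
  refine raiseE hT h1 hp (x := 0) (y := y) (w := w) a a' 0 0 (Or.inr h0) (by ring) (by ring)
    (by rw [he]; ring) (by rw [he']; ring) ?_ ?_ ?_
  · simp only [Br, hp.pi, hp.pi', hp.ph, hp.ph', hp.rho, hp.rho', hb, hb', he, he'] at hD r2 r12
    simp [act, bv, hb, hb', he, he']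
    linear_combination y * hD - w * r2 - w * r12
  · simp [act, bv] at ha ⊢
    linear_combination ha
  · simp only [Br] at hyw
    simp [act, bv, hb, hb', he, he'] at ha ⊢
    rw [hd, hd'] at *
    linear_combination hyw + δ * ha

/-- `be0 = f0 = 0`, `de0 ≠ 0`, `al0 ≠ 0`, `e0 = 0` -/
theorem case2c [Infinite k] (hT : MaxR ρ ![J k, X P, X P']) (h1 : ρ 1 ≤ (J k).rank)
    (hp : CB P P') (hb : P.be0 = 0) (hb' : P'.be0 = 0) (hf : P.f0 = 0) (hf' : P'.f0 = 0)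
    (hd : P.de0 ≠ 0 ∨ P'.de0 ≠ 0) (ha : P.al0 ≠ 0 ∨ P'.al0 ≠ 0)
    (he : P.e0 = 0) (he' : P'.e0 = 0) : False := by
  have hD : Br P P' Par.be1 Par.g0 + Br P P' Par.q1 Par.e1 + Br P P' Par.e1 Par.z = 0 := by
    obtain ⟨r1, r2, r3, r4, r5, r6, r7, r8, r9, r10, r11, r12, r13, r14, r15, r16, r17, r18,
      r19, r20⟩ := MaxR.rel hT
    clear r3 r5 r19 r20 r8 r14 r18 r11 r1 r15 r6 r9 r13
    simp only [Br, hp.pi, hp.pi', hp.ph, hp.ph', hp.rho, hp.rho', hb, hb', he, he', hf, hf',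
      zero_mul, mul_zero, sub_zero, zero_add, add_zero] at *
    grind
  obtain ⟨y, w, h0, hyw⟩ := exists_lin2
    (Br P P' Par.be2 Par.al0 + Br P P' Par.be1 Par.al1 + Br P P' Par.q2 Par.q1 +
      Br P P' Par.q1 Par.q2 + Br P P' Par.e1 Par.f1)
    (Br P P' Par.de1 Par.al0 + Br P P' Par.de0 Par.al1 + Br P P' Par.f1 Par.q1 +
      Br P P' Par.z Par.f1)
  obtain ⟨a, a', ha⟩ := exists_br hd (-(act P (bv P' 0 y w 0 0) 9 - act P' (bv P 0 y w 0 0) 9))
  have r := MaxR.rel hT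
  have r2 := r.r2
  have r12 := r.r12
  refine raiseE hT h1 hp (x := 0) (y := y) (w := w) a a' 0 0 (Or.inr h0) (by ring) (by ring)
    (by rw [he]; ring) (by rw [he']; ring) ?_ ?_ ?_
  · simp only [Br, hp.pi, hp.pi', hp.ph, hp.ph', hp.rho, hp.rho', hb, hb', he, he'] at hD r2 r12
    simp [act, bv, hb, hb', he, he']
    linear_combination y * hD - w * r2 - w * r12
  · simp only [Br] at hyw
    simp [act, bv, hb, hb', hf, hf'] at ha ⊢
    linear_combination hyw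
  · simp [act, bv] at ha ⊢
    linear_combination ha

/-- `be0 = f0 = de0 = 0`, `al0 ≠ 0`, `e0 ≠ 0` -/
theorem case1iii [Infinite k] (hT : MaxR ρ ![J k, X P, X P']) (h1 : ρ 1 ≤ (J k).rank)
    (hp : CB P P') (hb : P.be0 = 0) (hb' : P'.be0 = 0) (hf : P.f0 = 0) (hf' : P'.f0 = 0)
    (hd : P.de0 = 0) (hd' : P'.de0 = 0) (ha : P.al0 ≠ 0 ∨ P'.al0 ≠ 0)
    (he : P.e0 ≠ 0 ∨ P'.e0 ≠ 0) : False := by
  have hD : Br P P' Par.de1 Par.al0 + Br P P' Par.f1 Par.q1 + Br P P' Par.z Par.f1 = 0 ∧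
      Br P P' Par.f1 Par.be1 + Br P P' Par.z Par.de1 = 0 := by
    obtain ⟨r1, r2, r3, r4, r5, r6, r7, r8, r9, r10, r11, r12, r13, r14, r15, r16, r17, r18,
      r19, r20⟩ := MaxR.rel hT
    clear r3 r5 r19 r20 r8 r14 r18 r11 r1 r15
    simp only [Br, hp.pi, hp.pi', hp.ph, hp.ph', hp.rho, hp.rho', hb, hb', hf, hf', hd, hd',
      zero_mul, mul_zero, sub_zero, zero_add, add_zero] at *
    constructor <;> grind
  refine raiseW hT h1 hp 0 0 0 0 ?_ ?_
  · simp only [Br, hf, hf', hd, hd'] at hD ⊢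
    linear_combination hD.1
  · simp only [Br, hf, hf', hd, hd'] at hD ⊢
    linear_combination hD.2

/-- **case B** with `al0 ≠ 0`, `be0 ≠ 0` or `f0 ≠ 0` -/
theorem caseB [Infinite k] (hT : MaxR ρ ![J k, X P, X P']) (h1 : ρ 1 ≤ (J k).rank)
    (hp : CB P P') (hR : RC P P')
    (hne : (P.al0 ≠ 0 ∨ P'.al0 ≠ 0) ∨ (P.be0 ≠ 0 ∨ P'.be0 ≠ 0) ∨ (P.f0 ≠ 0 ∨ P'.f0 ≠ 0))
    (HF4 : (P.al0 ≠ 0 ∨ P'.al0 ≠ 0) → P.e0 = 0 → P'.e0 = 0 → P.be0 = 0 → P'.be0 = 0 →
      P.f0 = 0 → P'.f0 = 0 → P.de0 = 0 → P'.de0 = 0 → False) : False := by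
  have hor : ∀ a b : k, ¬ (a = 0 ∧ b = 0) → a ≠ 0 ∨ b ≠ 0 := by
    intro a b h
    by_cases ha : a = 0
    · exact Or.inr fun hb => h ⟨ha, hb⟩
    · exact Or.inl ha
  by_cases hb : P.be0 = 0 ∧ P'.be0 = 0
  · obtain ⟨hb, hb'⟩ := hb
    by_cases hf : P.f0 = 0 ∧ P'.f0 = 0
    · obtain ⟨hf, hf'⟩ := hf
      have ha : P.al0 ≠ 0 ∨ P'.al0 ≠ 0 := by
        rcases hne with h | h | h
        · exact h
        · exact absurd h (by simp [hb, hb'])
        · exact absurd h (by simp [hf, hf'])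
      by_cases hd : P.de0 = 0 ∧ P'.de0 = 0
      · obtain ⟨hd, hd'⟩ := hd
        by_cases he : P.e0 = 0 ∧ P'.e0 = 0
        · exact HF4 ha he.1 he.2 hb hb' hf hf' hd hd'
        · exact case1iii hT h1 hp hb hb' hf hf' hd hd' ha (hor _ _ he)
      · have he : P.e0 = 0 ∧ P'.e0 = 0 := by
          rcases hR.c3 with h | h | h
          · exact absurd ha (by simp [h.1, h.2])
          · exact h
          · exact absurd h hd
        exact case2c hT h1 hp hb hb' hf hf' (hor _ _ hd) ha he.1 he.2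
    · have hf := hor _ _ hf
      have he : P.e0 = 0 ∧ P'.e0 = 0 := by
        rcases hR.c2 with h | h
        · exact h
        · exact absurd hf (by simp [h.1, h.2])
      by_cases hd : Br P P' Par.de0 Par.f0 = 0
      · obtain ⟨δ, hδ, hδ'⟩ : ∃ δ, P.de0 = δ * P.f0 ∧ P'.de0 = δ * P'.f0 := by
          simp only [Br] at hd
          rcases hf with h | h
          · refine ⟨P.de0 / P.f0, by field_simp, ?_⟩
            field_simp
            linear_combination hd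
          · refine ⟨P'.de0 / P'.f0, ?_, by field_simp⟩
            field_simp
            linear_combination -hd
        exact case2b hT h1 hp hb hb' hf he.1 he.2 hδ hδ'
      · exact case2a hT h1 hp hd
  · have hb := hor _ _ hb
    by_cases hf : P.f0 = 0 ∧ P'.f0 = 0
    · have ha : P.al0 = 0 ∧ P'.al0 = 0 := by
        rcases hR.c1 with h | h
        · exact h
        · exact absurd hb (by simp [h.1, h.2])
      exact case1b hT h1 hp hb hf.1 hf.2 ha.1 ha.2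
    · exact case1a hT h1 hp hb (hor _ _ hf)

end Pool.Agent.Lib.D13.T4321
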