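import Pool.Agent.Lib.D13.ReflM

/-!
# MP_5dcbc3_ag: certificate at a monomial base point

`k[t] / t ^ 10`, operators `t ^ a` for a = 1, 2, 3, levels of the powers: 0, 1, 1, 1, 2, 2, 2, 3, 2, 3.
-/

namespace Pool.Agent.Lib.D13

open Matrix Pool.Agent.Lib.Q5dc Pool.Agent.Lib.D7 Pool.Agent.Lib.D9.DensX

namespace C1342

open Refl

/-- the levels -/
def w : Fin (9 + 1) → ℕ := ![0, 1, 1, 1, 2, 2, 2, 3, 2, 3]

/-- the exponents -/
def av : Fin 3 → ℕ := ![1, 2, 3]

/-- the tables of the base point -/
def bs : Base where
  lev := [0, 1, 1, 1, 2, 2, 2, 3, 2, 3]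
  pw := [[[(0, 1)], [(1, 1)], [(2, 1)], [(3, 1)], [(4, 1)], [(5, 1)], [(6, 1)], [(7, 1)], [(8, 1)],
      [(9, 1)]],
    [[], [(0, 1)], [(1, 1)], [(2, 1)], [(3, 1)], [(4, 1)], [(5, 1)], [(6, 1)], [(7, 1)], [(8,
      1)]],
    [[], [], [(0, 1)], [(1, 1)], [(2, 1)], [(3, 1)], [(4, 1)], [(5, 1)], [(6, 1)], [(7, 1)]],
    [[], [], [], [(0, 1)], [(1, 1)], [(2, 1)], [(3, 1)], [(4, 1)], [(5, 1)], [(6, 1)]],
    [[], [], [], [], [(0, 1)], [(1, 1)], [(2, 1)], [(3, 1)], [(4, 1)], [(5, 1)]],
    [[], [], [], [], [], [(0, 1)], [(1, 1)], [(2, 1)], [(3, 1)], [(4, 1)]],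
    [[], [], [], [], [], [], [(0, 1)], [(1, 1)], [(2, 1)], [(3, 1)]],
    [[], [], [], [], [], [], [], [(0, 1)], [(1, 1)], [(2, 1)]],
    [[], [], [], [], [], [], [], [], [(0, 1)], [(1, 1)]],
    [[], [], [], [], [], [], [], [], [], [(0, 1)]]]
  xc := [[(1, 1)], [(2, 1)], [(3, 1)]]
  X := [[[], [(0, 1)], [(1, 1)], [(2, 1)], [(3, 1)], [(4, 1)], [(5, 1)], [(6, 1)], [(7, 1)], [(8,
      1)]],
    [[], [], [(0, 1)], [(1, 1)], [(2, 1)], [(3, 1)], [(4, 1)], [(5, 1)], [(6, 1)], [(7, 1)]],
    [[], [], [], [(0, 1)], [(1, 1)], [(2, 1)], [(3, 1)], [(4, 1)], [(5, 1)], [(6, 1)]]]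

theorem bs_pow : bs.ckPow 10 = true := by decide +kernel

theorem bs_mono : bs.ckMono 10 [1, 2, 3] = true := by decide +kernel

/-- certificate -/
def ce1 : Cer where
  den := 4
  N := [[[(142, 4), (153, 4), (230, 4), (252, -4)],
      [],
      [],
      [],
      [],
      [],
      [],
      [],
      [],
      []],
    [[(130, 4), (152, -4), (163, -8), (174, 8), (262, 8), (273, -8)],
      [(142, 4), (153, 4), (241, 4), (252, -4)],
      [(143, -4), (220, -4), (242, 4)],
      [(78, -1), (210, -3), (243, 1), (276, 1), (298, 1)],
      [],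
      [],
      [],
      [],
      [],
      []],
    [[(41, 4), (52, 4), (151, -4), (173, 4), (250, 4), (272, -4)],
      [(152, -4), (163, -4), (174, 8), (251, 4), (262, 4), (273, -8)],
      [(142, 4)],
      [(143, 2), (198, 2), (220, -2), (275, 2)],
      [],
      [],
      [],
      [],
      [],
      []],
    [[(62, 4), (73, 4), (150, 4), (172, -4)],
      [(41, 4)],
      [(163, -4), (174, 4), (262, 4), (273, -4)],
      [],
      [],
      [],
      [],
      [],
      [],
      []],
    [[(50, 4), (83, 4), (171, 4), (182, -4)],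
      [(62, 4), (172, -4), (183, 4), (271, 4), (282, -4)],
      [],
      [],
      [],
      [(143, -2), (198, 2), (220, -2), (275, 2)],
      [(78, -2), (210, -2), (243, -2), (276, 2), (298, 2)],
      [],
      [(278, 4)],
      []],
    [[(60, 4), (71, 4), (82, -8)],
      [(83, 4), (171, 4), (182, -4)],
      [],
      [(52, -4)],
      [],
      [(153, -4)],
      [(176, 4), (198, 4)],
      [],
      [(178, 4)],
      []],
    [[(70, 4), (81, 4), (92, -8)],
      [(71, 4), (82, -4)],
      [],
      [(62, -4)],
      [(52, -4), (96, -4), (283, -4), (294, 4)],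
      [(152, 4), (174, -4), (262, -4), (273, 4)],
      [(142, -4), (153, -4), (252, 4), (263, -4)],
      [],
      [(78, 1), (210, -1), (243, -1), (276, -1), (298, 3)],
      []],
    [[(80, 4), (91, -4)],
      [(81, 4), (92, -4)],
      [],
      [(72, -4)],
      [(62, -4), (73, -4)],
      [(41, -4), (52, -8), (151, 4), (173, -4)],
      [(152, 4), (163, 4), (174, -8), (262, -4), (273, 4)],
      [(153, -4), (175, -4)],
      [(198, 4)],
      [(78, -3), (210, -1), (243, -1), (276, -1), (298, 3)]],
    [[(90, 4)],
      [],
      [],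
      [],
      [(72, -4), (83, -4)],
      [(62, -8), (73, -4), (172, 4), (183, -4)],
      [(41, -4), (52, -12), (151, 4), (173, -4), (272, 4), (283, -4)],
      [],
      [(76, -4), (98, 4), (142, -12), (153, -8), (175, 4), (252, 12), (263, -8), (296, -4)],
      []],
    [[],
      [],
      [],
      [],
      [(82, 4), (93, -4)],
      [(72, -8), (83, -4), (182, 4), (193, -4)],
      [(62, -12), (73, -4), (172, 4), (183, -4), (282, 4), (293, -4)],
      [(41, -4), (52, -12), (96, -4), (151, 4), (173, -4), (272, 4), (283, -4)],
      [(152, 8), (163, 8), (174, -12), (196, -4), (262, -8), (273, 8)],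
      [(142, -8), (153, -8), (252, 8), (263, -4), (296, -4)]]]
  A := [[[(76, 4), (142, 4), (175, -4), (252, -4), (263, 4)],
      [(42, 4), (163, 4), (174, -4), (262, -4), (273, 4)],
      [],
      [],
      [],
      [(82, 4)],
      [(92, 4)],
      [(91, 4)],
      []],
    [[],
      [],
      [(152, 4), (163, 4), (174, -4), (262, -4), (273, 4)],
      [(41, -4), (52, -4), (151, 4)],
      [(62, -4), (73, -4), (172, 4)],
      [(72, -4), (83, -4), (182, 4)],
      [(82, 4), (93, -4), (192, 4)],
      [(81, -4), (92, 4), (191, 4)],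
      [(80, -4), (91, 4), (190, 4)]],
    [[(78, -1), (210, 1), (243, 1), (276, 1), (298, 1)],
      [(143, 2), (198, 2), (220, 2), (275, 2)],
      [(142, -4), (153, -4), (252, 4)],
      [(152, 4), (163, 4), (174, -8), (262, -4), (273, 8)],
      [(41, -4), (52, -8), (151, 4), (173, -4), (272, 4)],
      [(62, -8), (73, -4), (172, 4), (183, -4), (282, 4)],
      [(50, -4), (72, -4), (83, -4), (171, -4), (182, 4), (270, 4)],
      [(71, -4), (82, 8), (93, -4), (291, 4)],
      [(70, -4), (81, -4), (92, 8), (290, 4)]]]
  W := [[[],
      [[(140, -4), (173, -4), (272, 4)]],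
      [[(73, -4), (150, -4), (172, 4), (260, 4)]],
      [[(50, -4), (270, -4)]],
      [[(170, -4), (280, 4)],
       [],
       [],
       [(173, -4), (272, 4)]],
      [[],
       [(60, -4), (71, -4), (170, 4), (280, -4)],
       [],
       [(73, -4), (172, 4)]],
      [[],
       [(70, 4), (92, 4), (180, -4), (191, -4), (290, 4)],
       [],
       [(193, -4)]],
      [[],
       [],
       [],
       [],
       [(50, -4), (160, 4), (171, 4), (193, 4), (270, -4)],
       [(172, 4)]],
      [],
      [[],
       [],
       [],
       [],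
       [(92, 4)],
       [(192, 4)]]],
    [[],
      [[(240, -4)]],
      [[(250, -4)]],
      [],
      [[(270, -4)],
       [(40, -4), (73, 4), (150, 4), (172, -4), (260, -4)]],
      [],
      [[(70, 4)],
       [(60, -4), (170, 4), (280, -4)],
       [(50, 4), (72, 4), (160, -4), (171, -4), (193, -4), (270, 4)]],
      [[(80, 4), (91, 4)]],
      [[(90, 4)],
       [(91, 4)]],
      [[],
       [],
       [],
       [],
       [(93, -4), (192, 4)],
       [(50, 4), (72, 4), (160, -4), (171, -4), (193, -4), (270, 4), (292, 4)]]],
    [[],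
      [],
      [],
      [],
      [[(260, 4)]],
      [[],
       [],
       [],
       [(273, 4)]],
      [[(280, 4)],
       [(50, 4), (160, -4), (193, -4), (270, 4)]],
      [[],
       [],
       [],
       [],
       [(272, -4)]],
      [[(190, 4)],
       [(180, -4)]],
      [[],
       [],
       [(70, -4), (290, -4)],
       [],
       [],
       [(293, -4)]]]]

theorem ce1_ck : ce1.ck bs 10 1 = true := by decide +kernel

/-- certificate -/
def ce2 : Cer where
  den := 2
  N := [[],
    [[(240, 2)],
      [],
      [],
      [],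
      [],
      [],
      [],
      [],
      [],
      []],
    [[(173, 2), (250, 2), (272, -2)],
      [],
      [],
      [],
      [],
      [],
      [],
      [],
      [],
      []],
    [],
    [[(160, 2)],
      [(271, 2)],
      [],
      [],
      [],
      [],
      [],
      [],
      [],
      []],
    [[],
      [(50, -2), (72, 2), (160, 2)],
      [(150, -1), (172, 1)],
      [(173, 2), (272, -2)],
      [],
      [],
      [],
      [],
      [],
      []],
    [[(180, 2), (191, -2)],
      [],
      [],
      [(260, -2)],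
      [],
      [],
      [],
      [],
      [],
      []],
    [[(80, 2)],
      [],
      [(60, 2), (71, -2)],
      [],
      [],
      [(272, -2)],
      [(273, -2)],
      [],
      [],
      []],
    [[],
      [],
      [],
      [(60, 2), (71, -4), (93, 2), (170, 2), (192, -2)],
      [],
      [],
      [],
      [],
      [],
      []],
    [[],
      [(90, -2)],
      [(91, -2)],
      [],
      [(60, 4), (71, -4), (170, 2), (192, -2)],
      [(160, -2), (270, 2), (292, -2)],
      [(260, -2), (293, -2)],
      [],
      [],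
      []]]
  A := [[[],
      [],
      [],
      [(40, 2), (271, 2)],
      [(72, 2)],
      [(60, 2)],
      [(92, 2)],
      [],
      []],
    [[],
      [],
      [],
      [],
      [(150, 1), (172, 1)],
      [],
      [(60, 2), (71, -2), (170, 2)],
      [(191, 2)],
      [(80, -2), (91, -2), (190, 2)]],
    [[],
      [],
      [],
      [],
      [],
      [],
      [(160, -2), (270, 2)],
      [(60, 4), (71, -4), (170, 2), (192, -2), (291, 2)],
      [(180, -2), (191, 2), (290, 2)]]]
  W := [[[],
      [],
      [],
      [],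
      [],
      [],
      [],
      [[(90, -2)],
       [],
       [],
       [(170, 2)]],
      [],
      []],
    [[],
      [],
      [],
      [],
      [[(270, -2)]],
      [],
      [],
      [[],
       [(70, -2)]],
      [],
      [[],
       [],
       [],
       [(290, 2)]]],
    [[],
      [],
      [],
      [],
      [],
      [],
      [],
      [],
      [[(190, 2)]],
      []]]

theorem ce2_ck : ce2.ck bs 10 2 = true := by decide +kernel

/-- certificate -/
def ce3 : Cer where
  den := 1
  N := [[],
    [],
    [],
    [],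
    [],
    [[(170, 1)],
      [],
      [],
      [],
      [],
      [],
      [],
      [],
      [],
      []],
    [],
    [[],
      [(70, -1)],
      [],
      [(270, -1)],
      [],
      [],
      [],
      [],
      [],
      []],
    [],
    [[],
      [],
      [(190, -1)],
      [],
      [],
      [],
      [],
      [],
      [],
      []]]
  A := [[[],
      [],
      [],
      [],
      [],
      [],
      [],
      [],
      [(90, 1)]],
    [],
    [[],
      [],
      [],
      [],
      [],
      [],
      [],
      [],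
      [(290, 1)]]]
  W := [[[],
      [],
      [],
      [],
      [],
      [],
      [],
      [],
      [],
      []],
    [[],
      [],
      [],
      [],
      [],
      [],
      [],
      [],
      [],
      []],
    [[],
      [],
      [],
      [],
      [],
      [],
      [],
      [],
      [],
      []]]

theorem ce3_ck : ce3.ck bs 10 3 = true := by decide +kernel

variable {k : Type*} [Field k] [CharZero k]

theorem cert1 : Cert w (Sh k 9) (fun i => Sh k 9 ^ av i) 1 := by
  refine cert_mono_ck bs_pow bs_mono ce1 ce1_ck ?_ ?_ <;> decide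

theorem cert2 : Cert w (Sh k 9) (fun i => Sh k 9 ^ av i) 2 := by
  refine cert_mono_ck bs_pow bs_mono ce2 ce2_ck ?_ ?_ <;> decide

theorem cert3 : Cert w (Sh k 9) (fun i => Sh k 9 ^ av i) 3 := by
  refine cert_mono_ck bs_pow bs_mono ce3 ce3_ck ?_ ?_ <;> decide

end C1342

end Pool.Agent.Lib.D13
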