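import Pool.Agent.Lib.D13.ReflW

/-!
# MP_5dcbc3_ag: density certificates, types (4, 2, 2, 1), `b = b = 0`
-/

namespace Pool.Agent.Lib.D13.C221_4

open Refl

/-- the base point -/
def bs : Base where
  lev := [0, 2, 4, 6, 3, 3, 3, 6, 6]
  pw := [[[(0, 1)], [(1, 1)], [(2, 1)], [(3, 1)], [(4, 1)], [(5, 1)], [(6, 1)], [(7, 1)], [(8, 1)]],
    [[], [(0, 1), (3, -1), (6, -1)], [(1, 1)], [(2, 1)], [(3, 1), (6, 1)], [(4, 1)], [(5, 1)],
      [(3, -1)], [(7, 1)]],
    [[], [(2, -1), (5, -1)], [(0, 1), (3, -1), (6, -1)], [(1, 1)], [(2, 1), (5, 1)], [(3, 1),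
      (6, 1)], [(4, 1)], [(2, -1)], [(3, -1)]],
    [[], [(1, -1), (4, -1)], [(2, -1), (5, -1)], [(0, 1), (3, -1), (6, -1)], [(1, 1), (4, 1)],
      [(2, 1), (5, 1)], [(3, 1), (6, 1)], [(1, -1)], [(2, -1)]],
    [[], [(0, -1)], [(1, -1), (4, -1)], [(2, -1), (5, -1)], [(0, 1)], [(1, 1), (4, 1)], [(2,
      1), (5, 1)], [(0, -1), (3, 1), (6, 1)], [(1, -1)]],
    [[], [], [(0, -1)], [(1, -1), (4, -1)], [], [(0, 1)], [(1, 1), (4, 1)], [(2, 1), (5, 1)],
      [(0, -1), (3, 1), (6, 1)]],
    [[], [], [], [(0, -1)], [], [], [(0, 1)], [(1, 1), (4, 1)], [(2, 1), (5, 1)]],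
    [[], [], [], [], [], [], [], [(0, 1)], [(1, 1), (4, 1)]],
    [[], [], [], [], [], [], [], [], [(0, 1)]]]
  xc := [[(1, 1)], [(1, 1), (4, 1), (7, 1)], [(2, 1), (5, 1), (8, 1)]]
  X := [[[], [(0, 1), (3, -1), (6, -1)], [(1, 1)], [(2, 1)], [(3, 1), (6, 1)], [(4, 1)], [(5, 1)],
      [(3, -1)], [(7, 1)]],
    [[], [(3, -1), (6, -1)], [(4, -1)], [(5, -1)], [(0, 1), (3, 1), (6, 1)], [(1, 1), (4, 2)],
      [(2, 1), (5, 2)], [(6, 1)], [(4, 1), (7, 1)]],
    [[], [(2, -1), (5, -1)], [(3, -1), (6, -1)], [(4, -1)], [(2, 1), (5, 1)], [(0, 1), (3, 1),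
      (6, 1)], [(1, 1), (4, 2)], [(5, 1)], [(6, 1)]]]

/-- degrees -/
def dl : List ℕ := [2, 3, 3]

theorem bs_ck : bs.ckW dl 9 = true := by decide +kernel

/-- certificate -/
def ce0 : Cer where
  den := 3
  N := [[[(36, -3), (207, 3)],
      [],
      [],
      [],
      [],
      [],
      [],
      [],
      []],
    [[(126, 3)],
      [(9, -2), (19, 1), (29, 1), (36, -4), (69, -2), (113, 1), (117, 5), (150, -2), (154, 2),
      (157, -2), (207, -3), (230, 2), (240, 2)],
      [],
      [],
      [],
      [],
      [],
      [],
      []],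
    [[(135, 3)],
      [(18, -2), (28, 1), (45, 2), (65, -1), (68, -2), (112, 2), (126, 2), (149, 3), (159, -2),
      (195, -2), (226, 2), (229, -4), (239, 2)],
      [(9, -1), (19, -1), (29, 2), (36, -2), (69, -4), (113, 2), (117, 10), (150, -4), (154, 4),
      (157, -4), (207, -9), (230, 4), (240, 4)],
      [],
      [(68, -6), (99, -3), (109, 3), (112, 3), (149, 6), (159, -3), (195, -3), (226, 3), (229,
      -6), (239, 3)],
      [(36, -3), (69, -3), (117, 6), (150, -3), (154, 3), (157, -3), (180, -3), (190, 3), (207,
      -6), (230, 3), (240, 3)],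
      [(27, 3), (33, 3), (77, 3), (108, -3), (114, -6), (135, -3), (145, 3), (148, 6), (158, 6),
      (194, 6), (225, -9), (231, -6), (235, -3), (238, -6)],
      [],
      []],
    [[(36, 3)],
      [(27, -2), (64, -1), (74, -1), (114, 2), (135, 2), (145, -2), (148, -2), (158, -2), (194,
      -2), (225, 2), (231, 2), (235, 2), (238, 1)],
      [(18, -1), (28, -1), (45, 4), (65, -2), (68, -4), (112, 4), (126, 1), (149, 6), (159, -4),
      (195, -4), (226, 4), (229, -8), (239, 4)],
      [(69, -6), (113, 3), (117, 15), (150, -6), (154, 6), (157, -6), (207, -15), (230, 6), (240,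
      6)],
      [(108, -3), (114, -3), (148, 3), (158, 3), (194, 3), (225, -6), (231, -3), (238, -3)],
      [(45, 3), (68, -6), (112, 3), (149, 6), (159, -3), (195, -3), (226, 3), (229, -6), (239,
      3)],
      [(69, -3), (117, 6), (150, -3), (154, 3), (157, -3), (207, -6), (230, 3), (240, 3)],
      [(27, -2), (64, -1), (74, -1), (108, 3), (114, 5), (135, 2), (145, -2), (148, -5), (158,
      -8), (194, -8), (225, 11), (231, 5), (235, 2), (238, 7)],
      [(18, -1), (28, -1), (45, -2), (65, -2), (68, 8), (112, -5), (126, 1), (149, -6), (159, 2),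
      (195, 2), (226, -2), (229, 4), (239, -2)]],
    [[],
      [],
      [],
      [],
      [],
      [(158, 3), (238, -3)],
      [(45, 3), (68, -3), (112, 3), (149, 3), (195, -3), (226, 3), (229, -3)],
      [],
      []],
    [[],
      [(45, -3)],
      [],
      [],
      [],
      [],
      [(148, -3), (225, 3), (231, 3)],
      [],
      []],
    [[],
      [(114, -3), (145, 3), (148, 3), (158, 3), (194, 3), (225, -6), (231, -3), (238, -3)],
      [],
      [],
      [],
      [],
      [(117, -3), (150, 3), (207, 3), (230, -3)],
      [],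
      []],
    [[(45, -3), (68, 3), (78, -3), (112, -3), (149, -6), (153, 3), (159, 3), (195, 3), (226,
      -3), (229, 6), (239, -3)],
      [(117, 6), (150, -3), (154, 3), (157, -3), (207, -6), (230, 3), (240, 3)],
      [(27, 1), (64, -1), (74, 2), (114, -4), (135, -1), (145, 4), (148, 4), (158, 4), (194, 4),
      (225, -4), (231, -4), (235, -4), (238, -2)],
      [(45, -6), (68, 6), (112, -6), (149, -9), (159, 6), (195, 6), (226, -6), (229, 12), (239,
      -6)],
      [],
      [],
      [(45, -3), (68, 3), (112, -3), (149, -6), (159, 3), (195, 3), (226, -3), (229, 6), (239,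
      -3)],
      [(117, 6), (150, -3), (154, 3), (157, -3), (207, -6), (240, 3)],
      [(27, 1), (64, -1), (74, 2), (114, -4), (135, -1), (145, 4), (148, 1), (158, 4), (194, 4),
      (225, -4), (231, -4), (235, -4), (238, -2)]],
    [[],
      [],
      [(36, 3), (63, 3), (73, -3), (117, 12), (150, -6), (154, 6), (157, -6), (207, -12), (230,
      6), (240, 6)],
      [(114, -6), (145, 6), (148, 6), (158, 6), (194, 6), (225, -6), (231, -6), (235, -6), (238,
      -3)],
      [(45, -3), (68, 3), (78, -3), (112, -3), (149, -6), (159, 3), (195, 3), (226, -3), (229,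
      6), (239, -3)],
      [(117, 6), (144, 3), (150, -3), (157, -3), (207, -6), (230, 3), (240, 3)],
      [(114, -3), (145, 3), (148, 3), (158, 3), (194, 3), (225, -3), (231, -3), (235, -3), (238,
      -3)],
      [(45, 3), (68, -3), (78, 3), (112, 3), (149, 3), (159, -3), (195, -3), (226, 3), (229,
      -3)],
      [(36, 3), (63, 3), (73, -3), (117, 3), (144, -3), (154, 6), (157, -3), (207, -3)]]]
  A := [[[(9, 1), (19, 1), (29, 1), (36, 2), (69, -2), (113, 1), (117, 5), (150, -2), (154, 2),
      (157, -2), (207, -6), (230, 2), (240, 2)],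
      [(18, 1), (28, 1), (45, 2), (65, -1), (68, -2), (112, 2), (126, -1), (149, 3), (159, -2),
      (195, -2), (226, 2), (229, -4), (239, 2)],
      [(27, 1), (64, -1), (74, -1), (77, 3), (114, -1), (135, -1), (145, 1), (148, 1), (158, 1),
      (194, 1), (225, -1), (231, -1), (235, -1), (238, -2)],
      [],
      [],
      [(77, 3), (114, -3), (145, 3), (148, 3), (158, 3), (194, 3), (225, -3), (231, -3), (235,
      -3), (238, -3)],
      [(36, 3), (63, 3), (117, 6), (150, -3), (154, 3), (157, -3), (207, -6), (230, 3), (240,
      3)],
      [(45, 3), (68, -3), (72, 3), (78, 3), (112, 3), (149, 6), (153, -3), (159, -3), (195, -3),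
      (226, 3), (229, -6), (239, 3)]],
    [[],
      [(68, -6), (109, 3), (112, 3), (149, 6), (159, -3), (195, -3), (226, 3), (229, -6), (239,
      3)],
      [(114, -3), (148, 3), (158, 3), (194, 3), (225, -6), (231, -3), (238, -3)],
      [(117, 3), (207, -3)],
      [],
      [],
      [(117, 3), (144, 3), (207, -3)],
      []],
    [[],
      [(69, -3), (117, 6), (150, -3), (154, 3), (157, -3), (190, 3), (207, -6), (230, 3), (240,
      3)],
      [(68, -3), (112, 3), (149, 3), (159, -3), (195, -3), (229, -3), (239, 3)],
      [(225, -3)],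
      [],
      [(149, -3), (229, 3)],
      [],
      [(117, 6), (144, 3), (150, -3), (157, -3), (207, -6), (230, 3), (234, 3), (240, 3)]]]
  W := [[[],
      [],
      [],
      [[],
       [],
       [],
       [],
       [(27, 3)],
       [(108, 3)]],
      [],
      [],
      [[(153, -3)]],
      [[],
       [],
       [],
       [],
       [(63, 3), (153, -3)]],
      [[],
       [],
       [],
       [],
       [(72, 3)]]],
    [[],
      [],
      [],
      [],
      [],
      [],
      [],
      [],
      []],
    [[],
      [],
      [],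
      [[(144, -3)],
       [],
       [],
       [],
       [(189, -3)]],
      [[(234, 3)]],
      [],
      [[(225, 3)]],
      [],
      []]]

theorem ce0_ck : ce0.ckW bs dl 9 0 = true := by decide +kernel

/-- certificate -/
def ce1 : Cer where
  den := 1
  N := [[],
    [[(18, 1), (28, 1)],
      [],
      [],
      [],
      [],
      [],
      [],
      [],
      []],
    [[(27, 1), (64, -1)],
      [(28, 1)],
      [],
      [],
      [(31, 1)],
      [(32, 1), (36, 2), (69, -1)],
      [(33, 1), (64, 1), (67, -1)],
      [],
      []],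
    [[],
      [(64, -1)],
      [],
      [],
      [(67, -1)],
      [],
      [(36, 1), (69, -1)],
      [],
      []],
    [],
    [[(67, 1), (108, -1), (145, -1)],
      [(68, -1), (189, 1), (226, 1)],
      [],
      [],
      [],
      [],
      [],
      [],
      []],
    [],
    [[(31, -1), (99, -1), (153, 1)],
      [],
      [],
      [],
      [],
      [],
      [(68, -1)],
      [],
      []],
    [[],
      [(68, 1), (78, 1)],
      [(63, 1), (73, -1)],
      [],
      [],
      [(144, 1), (154, -1)],
      [(77, -1)],
      [],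
      []]]
  A := [[[],
      [],
      [],
      [(36, 1)],
      [],
      [],
      [(36, 1), (63, 1)],
      [(31, 1), (68, 1), (72, 1), (78, 1), (99, 1), (153, -1)]],
    [[],
      [],
      [],
      [],
      [(31, -1), (99, -1)],
      [(145, 1)],
      [(144, 1)],
      []],
    [[],
      [(32, 1), (36, 2), (69, -1), (180, 1)],
      [],
      [],
      [],
      [(189, -1)],
      [(77, -1), (235, 1)],
      [(144, 1), (154, -1), (234, 1)]]]
  W := [[[],
      [],
      [],
      [],
      [],
      [[(144, -1)]],
      [[(63, -1)]],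
      [],
      [[],
       [],
       [],
       [],
       [(72, 1)]]],
    [[],
      [],
      [],
      [[],
       [(27, -1), (144, -1)]],
      [],
      [],
      [],
      [],
      []],
    [[],
      [],
      [],
      [[],
       [(108, -1)]],
      [],
      [],
      [],
      [[(63, -1), (153, 1)]],
      []]]

theorem ce1_ck : ce1.ckW bs dl 9 1 = true := by decide +kernel

/-- certificate -/
def ce2 : Cer where
  den := 1
  N := [[],
    [[(18, 1)],
      [],
      [],
      [],
      [],
      [],
      [],
      [],
      []],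
    [],
    [[(63, -1)],
      [],
      [(28, -1)],
      [],
      [(108, -1)],
      [],
      [],
      [],
      []],
    [],
    [],
    [],
    [[],
      [],
      [(27, -1), (64, -1)],
      [],
      [],
      [(225, -1)],
      [],
      [],
      []],
    [[],
      [(72, -1)],
      [(73, -1)],
      [],
      [],
      [],
      [],
      [],
      []]]
  A := [[[],
      [],
      [(27, 1)],
      [],
      [],
      [],
      [],
      []],
    [[],
      [],
      [],
      [(144, -1)],
      [(153, -1)],
      [],
      [],
      []],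
    [[],
      [],
      [(189, 1)],
      [],
      [],
      [],
      [],
      [(234, 1)]]]
  W := [[[],
      [],
      [],
      [],
      [],
      [],
      [],
      [],
      []],
    [[],
      [],
      [],
      [],
      [],
      [],
      [],
      [],
      []],
    [[],
      [],
      [],
      [],
      [],
      [],
      [],
      [],
      []]]

theorem ce2_ck : ce2.ckW bs dl 9 2 = true := by decide +kernel

/-- certificate -/
def ce3 : Cer where
  den := 1
  N := [[],
    [],
    [],
    [[],
      [(27, -1)],
      [],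
      [],
      [],
      [],
      [],
      [],
      []],
    [],
    [],
    [],
    [],
    [[],
      [],
      [],
      [],
      [],
      [(234, -1)],
      [],
      [],
      []]]
  A := [[[],
      [],
      [],
      [(63, -1)],
      [],
      [],
      [],
      [(72, 1)]],
    [[],
      [],
      [],
      [(144, -1)],
      [],
      [(108, -1)],
      [],
      [(153, 1)]],
    [[],
      [],
      [],
      [],
      [],
      [(189, -1)],
      [(225, 1)],
      []]]
  W := [[[],
      [],
      [],
      [],
      [],
      [],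
      [],
      [],
      []],
    [[],
      [],
      [],
      [],
      [],
      [],
      [],
      [],
      []],
    [[],
      [],
      [],
      [],
      [],
      [],
      [],
      [],
      []]]

theorem ce3_ck : ce3.ckW bs dl 9 3 = true := by decide +kernel

/-- certificate -/
def ce4 : Cer where
  den := 1
  N := [[],
    [],
    [],
    [],
    [],
    [],
    [],
    [[],
      [(63, -1)],
      [],
      [],
      [],
      [],
      [],
      [],
      []],
    []]
  A := [[[],
      [],
      [],
      [],
      [],
      [(27, -1)],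
      [],
      [(72, 1)]],
    [],
    []]
  W := [[[],
      [],
      [],
      [],
      [],
      [],
      [],
      [],
      []],
    [[],
      [],
      [],
      [],
      [],
      [],
      [],
      [],
      []],
    [[],
      [],
      [],
      [],
      [],
      [],
      [],
      [],
      []]]

theorem ce4_ck : ce4.ckW bs dl 9 4 = true := by decide +kernel

end Pool.Agent.Lib.D13.C221_4
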