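import Pool.Agent.Lib.D13.ReflW

/-!
# MP_5dcbc3_ag: density certificates, types (5, 2, 2, 1), `b = b = 0`
-/

namespace Pool.Agent.Lib.D13.C221_5

open Refl

/-- the base point -/
def bs : Base where
  lev := [0, 2, 4, 6, 8, 4, 4, 4, 8, 8]
  pw := [[[(0, 1)], [(1, 1)], [(2, 1)], [(3, 1)], [(4, 1)], [(5, 1)], [(6, 1)], [(7, 1)], [(8, 1)],
      [(9, 1)]],
    [[], [(0, 1), (7, -1)], [(1, 1), (4, -1)], [(2, 1)], [(3, 1)], [(7, 1)], [(4, 1), (5, 1)],
      [(6, 1)], [(4, -1)], [(8, 1)]],
    [[], [(6, -1)], [(0, 1), (3, -1), (7, -1)], [(1, 1), (4, -1)], [(2, 1)], [(6, 1)], [(3, 1),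
      (7, 1)], [(4, 1), (5, 1)], [(3, -1)], [(4, -1)]],
    [[], [(4, -1), (5, -1)], [(2, -1), (6, -1)], [(0, 1), (3, -1), (7, -1)], [(1, 1), (4, -1)],
      [(4, 1), (5, 1)], [(2, 1), (6, 1)], [(3, 1), (7, 1)], [(2, -1)], [(3, -1)]],
    [[], [(3, -1), (7, -1)], [(1, -1), (5, -1)], [(2, -1), (6, -1)], [(0, 1), (3, -1), (7,
      -1)], [(3, 1), (7, 1)], [(1, 1), (5, 1)], [(2, 1), (6, 1)], [(1, -1), (4, 1)], [(2, -1)]],
    [[], [(2, -1), (6, -1)], [(0, -1)], [(1, -1), (5, -1)], [(2, -1), (6, -1)], [(2, 1), (6,
      1)], [(0, 1)], [(1, 1), (5, 1)], [(0, -1), (3, 1), (7, 1)], [(1, -1), (4, 1)]],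
    [[], [(1, -1), (5, -1)], [], [(0, -1)], [(1, -1), (5, -1)], [(1, 1), (5, 1)], [], [(0, 1)],
      [(2, 1), (6, 1)], [(0, -1), (3, 1), (7, 1)]],
    [[], [(0, -1)], [], [], [(0, -1)], [(0, 1)], [], [], [(1, 1), (5, 1)], [(2, 1), (6, 1)]],
    [[], [], [], [], [], [], [], [], [(0, 1)], [(1, 1), (5, 1)]],
    [[], [], [], [], [], [], [], [], [], [(0, 1)]]]
  xc := [[(1, 1)], [(1, 1), (4, 1), (7, 1)], [(2, 1), (5, 1), (8, 1)]]
  X := [[[], [(0, 1), (7, -1)], [(1, 1), (4, -1)], [(2, 1)], [(3, 1)], [(7, 1)], [(4, 1), (5, 1)],
      [(6, 1)], [(4, -1)], [(8, 1)]],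
    [[], [(3, -1), (7, -2)], [(4, -1), (5, -1)], [(6, -1)], [(7, -1)], [(0, 1), (3, 1), (7,
      2)], [(1, 1), (4, 1), (5, 2)], [(2, 1), (6, 2)], [(5, 1)], [(6, 1), (8, 1)]],
    [[], [(2, -1), (6, -2)], [(3, -1), (7, -1)], [(4, -1), (5, -1)], [(6, -1)], [(2, 1), (6,
      2)], [(0, 1), (3, 1), (7, 1)], [(1, 1), (4, 1), (5, 2)], [(7, 1)], [(5, 1)]]]

/-- degrees -/
def dl : List ℕ := [2, 4, 4]

theorem bs_ck : bs.ckW dl 10 = true := by decide +kernel

/-- certificate -/
def ce0 : Cer where
  den := 12
  N := [[[(40, -12), (50, -12), (61, 12), (150, 12), (181, -12)],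
      [],
      [],
      [],
      [],
      [],
      [],
      [],
      [],
      []],
    [[(46, 4), (60, -12), (131, 4), (142, -4), (160, 8), (187, -4), (191, 4), (195, -4), (270,
      4), (282, -4), (286, 4), (297, 4)],
      [(10, -9), (21, 3), (32, 3), (40, -9), (43, 3), (50, -12), (61, 18), (85, -6), (147, 2),
      (150, 10), (181, -8), (185, -2), (246, 1), (260, -1), (287, 2)],
      [],
      [],
      [],
      [],
      [],
      [],
      [],
      []],
    [[(45, 24), (97, 24), (130, 24), (145, -24), (170, 36), (182, 24), (197, 24), (247, 24),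
      (250, -24), (292, -24), (296, -24)],
      [(20, -9), (31, 3), (42, 3), (46, -2), (60, -18), (83, -3), (131, -2), (142, 2), (160, 8),
      (187, -4), (191, 4), (195, -4), (270, 1), (282, 2), (286, 1), (297, 4)],
      [(10, -6), (21, -6), (32, 6), (40, -6), (43, 6), (61, 12), (85, -12), (147, 4), (150, 8),
      (181, -4), (185, -4), (246, 2), (260, -2), (287, 4)],
      [],
      [],
      [(60, -12), (87, -12), (120, -12), (142, 12), (282, 12)],
      [(36, 12), (47, 12), (50, 12), (61, 24), (85, -12)],
      [(30, 12), (37, 12), (45, -12), (130, -24), (141, 24), (145, -12), (197, 12), (247, 12),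
      (250, -12), (281, -12), (296, -12)],
      [],
      []],
    [[(40, 12), (50, 12), (61, -12)],
      [(30, -9), (41, 3), (45, 18), (82, -3), (93, -3), (97, 18), (130, 18), (141, -6), (145,
      -12), (170, 24), (182, 12), (197, 12), (247, 12), (250, -15), (292, -12), (296, -15)],
      [(20, -6), (31, -6), (42, 6), (46, -8), (60, -12), (83, -6), (131, -8), (142, 8), (160, 8),
      (187, -4), (191, 4), (195, -4), (270, -2), (282, 8), (286, -2), (297, 4)],
      [(10, -3), (21, -3), (32, -3), (40, -3), (43, 9), (50, 12), (61, 6), (85, -18), (147, 6),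
      (150, 6), (185, -6), (246, 3), (260, -3), (287, 6)],
      [],
      [(45, 12), (97, 12), (141, 12), (145, -24), (170, 24), (182, 12), (197, 24), (247, 24),
      (250, -24), (281, -12), (292, -12), (296, -24)],
      [(87, -12), (131, -12), (142, 12), (282, 12)],
      [(47, 12), (50, 12), (61, 12), (85, -12)],
      [],
      []],
    [[(60, 12)],
      [],
      [(30, -6), (41, -6), (45, 12), (82, -6), (93, -6), (97, 12), (130, 12), (141, -12), (170,
      12), (250, -6), (296, -6)],
      [(20, -3), (31, -3), (42, -3), (46, -14), (60, -6), (83, -9), (131, -14), (142, 14), (160,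
      8), (187, -4), (191, 4), (195, -4), (270, -5), (282, 14), (286, -5), (297, 4)],
      [(50, 24), (85, -24), (147, 8), (150, 4), (181, 4), (185, -8), (246, 4), (260, -4), (287,
      8)],
      [(50, 12), (85, -12)],
      [(145, -12), (170, 12), (197, 12), (247, 12), (250, -12), (281, -12), (296, -12)],
      [(46, -12), (87, -12), (131, -12), (142, 12), (282, 12)],
      [(30, -6), (41, -6), (45, 12), (82, -6), (93, -6), (97, 12), (130, 12), (141, -12), (145,
      12), (170, -12), (197, -24), (247, -24), (250, 18), (281, 24), (296, 18)],
      [(20, -3), (31, -3), (42, -3), (46, 10), (60, -6), (83, -9), (87, 24), (131, 10), (142,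
      -10), (146, -12), (160, -4), (187, -4), (191, 4), (195, -4), (270, 7), (282, -10), (286,
      -5), (297, 4)]],
    [[],
      [],
      [(141, 12), (145, -12), (170, 12), (182, 12), (197, 12), (247, 12), (250, -12), (281, -12),
      (296, -12)],
      [],
      [],
      [],
      [(170, 12), (250, -12)],
      [(46, 8), (131, 8), (142, -8), (160, 4), (187, 4), (191, 8), (195, -8), (270, -4), (282,
      -8), (286, -4), (297, 8)],
      [],
      []],
    [[(45, -12), (97, -12), (130, -12), (145, 12), (170, -12), (182, -12), (197, -12), (247,
      -12), (250, 12), (292, 12), (296, 12)],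
      [],
      [],
      [],
      [],
      [],
      [(147, 4), (150, 8), (181, -4), (185, -4), (246, -4), (260, -8), (287, 4)],
      [(170, 12), (197, 12), (250, -12), (296, -12)],
      [],
      []],
    [[],
      [],
      [(46, 12), (131, 12), (142, -12)],
      [],
      [],
      [],
      [(46, 4), (131, 4), (142, -4), (160, 8), (187, -4), (191, 4), (195, -4), (270, -8), (282,
      -4), (286, 4), (297, 4)],
      [(147, -4), (150, 4), (181, 4), (185, -8), (246, 4), (260, -4), (287, 8)],
      [],
      []],
    [[],
      [(46, -12), (131, -12), (142, 12), (282, 12)],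
      [(50, 12), (61, -12), (81, -12)],
      [(30, 3), (41, 3), (45, -6), (82, -3), (93, 9), (97, -6), (130, -6), (141, 18), (145, -12),
      (182, 12), (197, 12), (247, 12), (250, -3), (292, -12), (296, -3)],
      [(46, 20), (131, 20), (142, -20), (160, -8), (187, 4), (191, -4), (195, 4), (270, 8), (282,
      -20), (286, 8), (297, -4)],
      [],
      [],
      [],
      [(50, 12), (61, -12), (81, -12), (181, 12), (185, -12)],
      [(30, 3), (41, 3), (45, -6), (82, -3), (93, 9), (97, -6), (130, -6), (141, 18), (145, -12),
      (182, 12), (197, 12), (247, 12), (250, -3), (285, -12), (292, -12), (296, -3)]],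
    [[],
      [],
      [(46, -24), (60, 12), (80, 12), (91, -12), (131, -24), (142, 24), (282, 24)],
      [(50, 24), (61, -24), (81, -12), (92, -12)],
      [(141, 24), (145, -24), (170, 12), (182, 24), (197, 24), (247, 24), (250, -12), (292, -24),
      (296, -12)],
      [(141, 12), (145, -12), (170, 12), (182, 12), (197, 12), (247, 12), (250, -12), (292, -12),
      (296, -12)],
      [(46, -12), (131, -12), (142, 12), (180, 12), (191, -12), (282, 12)],
      [(50, 12), (61, -12), (81, -12), (181, 12), (192, -12)],
      [(46, -4), (60, 12), (80, 12), (91, -12), (131, -4), (142, 4), (160, 4), (180, -12), (187,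
      4), (191, 20), (195, -8), (270, -4), (282, 4), (286, -4), (297, -4)],
      [(81, 12), (92, -12), (147, 4), (150, 8), (181, -16), (185, -4), (192, 24), (196, -12),
      (246, -4), (260, -8), (287, 4)]]]
  A := [[[(10, 3), (21, 3), (32, 3), (40, 3), (43, 3), (50, 12), (61, 6), (85, -6), (147, 2), (150,
      -2), (181, 4), (185, -2), (246, 1), (260, -1), (287, 2)],
      [(20, 3), (31, 3), (42, 3), (46, -6), (60, 6), (83, -3), (131, -6), (142, 6), (270, -3),
      (282, 6), (286, -3)],
      [(30, 3), (41, 3), (45, -6), (82, -3), (93, -3), (97, 6), (130, -6), (141, 6), (250, -3),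
      (296, -3)],
      [(61, 12)],
      [],
      [(97, 12), (141, 12), (145, -12), (170, 12), (182, 12), (197, 12), (247, 12), (250, -12),
      (292, -12), (296, -12)],
      [(50, 12)],
      [(46, -12), (60, 12), (80, 12), (131, -12), (142, 12), (282, 12)],
      [(90, 12), (97, 12), (141, 12), (145, -12), (170, 12), (182, 12), (197, 12), (247, 12),
      (250, -12), (292, -12), (296, -12)]],
    [[],
      [(46, -4), (87, -12), (131, -4), (142, 16), (160, 4), (187, 4), (191, -4), (195, 4), (270,
      -4), (282, 16), (286, -4), (297, -4)],
      [(141, 12), (145, -12), (170, 12), (197, 12), (247, 12), (250, -12), (281, -12), (296,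
      -12)],
      [],
      [(46, -4), (131, -4), (142, 4), (160, 4), (187, 4), (191, -4), (195, 4), (270, -4), (282,
      4), (286, -4), (297, -4)],
      [],
      [(181, 12)],
      [(46, -4), (131, -4), (142, 4), (160, 4), (180, 12), (187, 4), (191, -4), (195, 4), (270,
      -4), (282, 4), (286, -4), (297, -4)],
      [(45, 12), (97, 12), (130, 12), (141, 12), (145, -24), (170, 24), (182, 24), (190, 12),
      (197, 24), (247, 24), (250, -24), (292, -24), (296, -24)]],
    [[],
      [(47, 12), (50, 12), (61, 12), (85, -12), (147, 4), (150, -4), (181, 8), (185, -4), (231,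
      12), (246, -4), (260, 4), (287, 4)],
      [],
      [(281, -12)],
      [(147, 4), (150, -4), (181, 8), (185, -4), (246, -4), (260, 4), (287, 4)],
      [],
      [],
      [(147, 4), (150, 8), (181, 8), (185, -4), (196, -12), (246, -4), (260, -8), (287, 4), (295,
      12)],
      [(46, -12), (131, -12), (142, 12), (180, 12), (191, -12), (282, 12), (290, 12)]]]
  W := [[[],
      [],
      [],
      [[],
       [],
       [],
       [],
       [],
       [(30, 12)]],
      [],
      [[],
       [(191, -12)]],
      [],
      [[(40, 12)],
       [(41, 12)]],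
      [[],
       [],
       [],
       [],
       [],
       [],
       [(81, 12), (191, -12)]],
      [[],
       [],
       [],
       [],
       [],
       [(90, 12)],
       [(91, 12)]]],
    [[],
      [],
      [],
      [],
      [[(80, -12)]],
      [],
      [],
      [],
      [[],
       [],
       [],
       [],
       [],
       [],
       [(280, 12)]],
      []],
    [[],
      [],
      [[(130, 12)]],
      [[(41, -12), (140, 12), (181, -12)]],
      [[(40, -12), (81, 12), (180, -12), (191, -12)],
       [(41, -12), (181, -12)],
       [(141, -12)],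
       [],
       [],
       [(240, -12)]],
      [],
      [],
      [],
      [[(290, 12)]],
      [[],
       [(91, 12), (190, -12), (290, 12)]]]]

theorem ce0_ck : ce0.ckW bs dl 10 0 = true := by decide +kernel

/-- certificate -/
def ce1 : Cer where
  den := 1
  N := [[],
    [],
    [[(30, 1), (41, 1)],
      [],
      [],
      [],
      [],
      [],
      [],
      [],
      [],
      []],
    [[(40, 1), (81, -1)],
      [(41, 1)],
      [(20, 1), (31, -1)],
      [],
      [],
      [(45, 1)],
      [(46, 1), (60, -1), (80, -1), (87, -1), (180, 1)],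
      [(47, 1), (81, 1), (85, -1)],
      [],
      []],
    [[],
      [(81, -1)],
      [],
      [(20, 2), (31, -1), (42, -1)],
      [],
      [(85, -1)],
      [],
      [(60, -1), (80, -1), (87, -1), (180, 1)],
      [],
      []],
    [[(60, 1)],
      [],
      [],
      [],
      [],
      [],
      [],
      [],
      [],
      []],
    [],
    [[(50, 1)],
      [(70, -1)],
      [],
      [],
      [],
      [],
      [],
      [],
      [],
      []],
    [[],
      [(80, -1)],
      [],
      [(82, -1)],
      [],
      [(60, 1), (180, -1)],
      [],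
      [(86, -1)],
      [],
      []],
    [[],
      [(86, 1), (97, 1)],
      [(80, -1), (91, -1)],
      [(92, -1)],
      [],
      [],
      [(60, 1), (95, -1), (180, -1)],
      [(96, -1)],
      [],
      []]]
  A := [[[],
      [(20, 1)],
      [],
      [],
      [],
      [],
      [],
      [],
      [(86, 1), (90, 1), (97, 1)]],
    [[],
      [],
      [(45, 1), (130, 1)],
      [(181, -1)],
      [],
      [],
      [],
      [],
      [(190, 1)]],
    [[],
      [],
      [(60, -1), (80, -1), (87, -1), (180, 1), (241, 1)],
      [],
      [(96, 1), (291, -1)],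
      [],
      [(70, 1), (86, -1), (281, 1)],
      [],
      [(95, -1), (180, -1), (290, 1)]]]
  W := [[[],
      [],
      [],
      [],
      [],
      [],
      [],
      [],
      [],
      []],
    [[],
      [],
      [],
      [],
      [[(80, -1)],
       [(40, -1)]],
      [],
      [],
      [],
      [],
      [[],
       [(90, -1)]]],
    [[],
      [],
      [],
      [[(140, 1)]],
      [[(180, -1)]],
      [],
      [],
      [],
      [[(190, 1)]],
      []]]

theorem ce1_ck : ce1.ckW bs dl 10 1 = true := by decide +kernel

/-- certificate -/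
def ce2 : Cer where
  den := 1
  N := [[],
    [],
    [[(30, 1), (41, 1)],
      [],
      [],
      [],
      [],
      [],
      [],
      [],
      [],
      []],
    [[(40, 1), (81, -1)],
      [(41, 1)],
      [(20, 1), (31, -1)],
      [],
      [],
      [(45, 1)],
      [(46, 1), (60, -1), (80, -1), (87, -1), (180, 1)],
      [(47, 1), (81, 1), (85, -1)],
      [],
      []],
    [[],
      [(81, -1)],
      [],
      [(20, 2), (31, -1), (42, -1)],
      [],
      [(85, -1)],
      [],
      [(60, -1), (80, -1), (87, -1), (180, 1)],
      [],
      []],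
    [[(60, 1)],
      [],
      [],
      [],
      [],
      [],
      [],
      [],
      [],
      []],
    [],
    [[(50, 1)],
      [(70, -1)],
      [],
      [],
      [],
      [],
      [],
      [],
      [],
      []],
    [[],
      [(80, -1)],
      [],
      [(82, -1)],
      [],
      [(60, 1), (180, -1)],
      [],
      [(86, -1)],
      [],
      []],
    [[],
      [(86, 1), (97, 1)],
      [(80, -1), (91, -1)],
      [(92, -1)],
      [],
      [],
      [(60, 1), (95, -1), (180, -1)],
      [(96, -1)],
      [],
      []]]
  A := [[[],
      [(20, 1)],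
      [],
      [],
      [],
      [],
      [],
      [],
      [(86, 1), (90, 1), (97, 1)]],
    [[],
      [],
      [(45, 1), (130, 1)],
      [(181, -1)],
      [],
      [],
      [],
      [],
      [(190, 1)]],
    [[],
      [],
      [(60, -1), (80, -1), (87, -1), (180, 1), (241, 1)],
      [],
      [(96, 1), (291, -1)],
      [],
      [(70, 1), (86, -1), (281, 1)],
      [],
      [(95, -1), (180, -1), (290, 1)]]]
  W := [[[],
      [],
      [],
      [],
      [],
      [],
      [],
      [],
      [],
      []],
    [[],
      [],
      [],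
      [],
      [[(80, -1)],
       [(40, -1)]],
      [],
      [],
      [],
      [],
      [[],
       [(90, -1)]]],
    [[],
      [],
      [],
      [[(140, 1)]],
      [[(180, -1)]],
      [],
      [],
      [],
      [[(190, 1)]],
      []]]

theorem ce2_ck : ce2.ckW bs dl 10 2 = true := by decide +kernel

/-- certificate -/
def ce3 : Cer where
  den := 1
  N := [[],
    [],
    [[(30, 1)],
      [],
      [],
      [],
      [],
      [],
      [],
      [],
      [],
      []],
    [[(40, 1)],
      [],
      [],
      [],
      [],
      [],
      [],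
      [],
      [],
      []],
    [[(80, -1), (91, 1)],
      [],
      [(41, -1)],
      [],
      [],
      [],
      [],
      [],
      [],
      []],
    [],
    [],
    [],
    [[],
      [],
      [(81, -1)],
      [],
      [],
      [],
      [],
      [],
      [],
      []],
    []]
  A := [[[],
      [],
      [],
      [],
      [(91, -1)],
      [],
      [],
      [],
      [(90, 1)]],
    [[],
      [],
      [],
      [(140, 1)],
      [],
      [(190, -1)],
      [],
      [(180, 1)],
      []],
    [[],
      [],
      [],
      [(240, 1)],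
      [],
      [],
      [],
      [(280, 1)],
      [(290, 1)]]]
  W := [[[],
      [],
      [],
      [],
      [],
      [],
      [],
      [],
      [],
      []],
    [[],
      [],
      [],
      [],
      [],
      [],
      [],
      [],
      [],
      []],
    [[],
      [],
      [],
      [],
      [],
      [],
      [],
      [],
      [],
      []]]

theorem ce3_ck : ce3.ckW bs dl 10 3 = true := by decide +kernel

/-- certificate -/
def ce4 : Cer where
  den := 1
  N := [[],
    [],
    [[(30, 1)],
      [],
      [],
      [],
      [],
      [],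
      [],
      [],
      [],
      []],
    [[(40, 1)],
      [],
      [],
      [],
      [],
      [],
      [],
      [],
      [],
      []],
    [[(80, -1), (91, 1)],
      [],
      [(41, -1)],
      [],
      [],
      [],
      [],
      [],
      [],
      []],
    [],
    [],
    [],
    [[],
      [],
      [(81, -1)],
      [],
      [],
      [],
      [],
      [],
      [],
      []],
    []]
  A := [[[],
      [],
      [],
      [],
      [(91, -1)],
      [],
      [],
      [],
      [(90, 1)]],
    [[],
      [],
      [],
      [(140, 1)],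
      [],
      [(190, -1)],
      [],
      [(180, 1)],
      []],
    [[],
      [],
      [],
      [(240, 1)],
      [],
      [],
      [],
      [(280, 1)],
      [(290, 1)]]]
  W := [[[],
      [],
      [],
      [],
      [],
      [],
      [],
      [],
      [],
      []],
    [[],
      [],
      [],
      [],
      [],
      [],
      [],
      [],
      [],
      []],
    [[],
      [],
      [],
      [],
      [],
      [],
      [],
      [],
      [],
      []]]

theorem ce4_ck : ce4.ckW bs dl 10 4 = true := by decide +kernel

/-- certificate -/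
def ce5 : Cer where
  den := 1
  N := [[],
    [],
    [],
    [],
    [],
    [],
    [],
    [],
    [[],
      [(80, -1)],
      [],
      [],
      [],
      [],
      [],
      [],
      [],
      []],
    []]
  A := [[[],
      [],
      [],
      [],
      [],
      [],
      [(40, -1)],
      [],
      [(90, 1)]],
    [],
    []]
  W := [[[],
      [],
      [],
      [],
      [],
      [],
      [],
      [],
      [],
      []],
    [[],
      [],
      [],
      [],
      [],
      [],
      [],
      [],
      [],
      []],
    [[],
      [],
      [],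
      [],
      [],
      [],
      [],
      [],
      [],
      []]]

theorem ce5_ck : ce5.ckW bs dl 10 5 = true := by decide +kernel

/-- certificate -/
def ce6 : Cer where
  den := 1
  N := [[],
    [],
    [],
    [],
    [],
    [],
    [],
    [],
    [[],
      [(80, -1)],
      [],
      [],
      [],
      [],
      [],
      [],
      [],
      []],
    []]
  A := [[[],
      [],
      [],
      [],
      [],
      [],
      [(40, -1)],
      [],
      [(90, 1)]],
    [],
    []]
  W := [[[],
      [],
      [],
      [],
      [],
      [],
      [],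
      [],
      [],
      []],
    [[],
      [],
      [],
      [],
      [],
      [],
      [],
      [],
      [],
      []],
    [[],
      [],
      [],
      [],
      [],
      [],
      [],
      [],
      [],
      []]]

theorem ce6_ck : ce6.ckW bs dl 10 6 = true := by decide +kernel

end Pool.Agent.Lib.D13.C221_5
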