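import Pool.Agent.Lib.D13.ReflW

/-!
# MP_5dcbc3_ag: density certificates, types (6, 2, 2, 1), `b = b = 0`
-/

namespace Pool.Agent.Lib.D13.C221_6

open Refl

/-- the base point -/
def bs : Base where
  lev := [0, 2, 4, 6, 8, 10, 5, 5, 5, 10, 10]
  pw := [[[(0, 1)], [(1, 1)], [(2, 1)], [(3, 1)], [(4, 1)], [(5, 1)], [(6, 1)], [(7, 1)], [(8, 1)],
      [(9, 1)], [(10, 1)]],
    [[], [(0, 1), (8, -1)], [(1, 1)], [(2, 1), (5, -1)], [(3, 1)], [(4, 1)], [(8, 1)], [(6,
      1)], [(5, 1), (7, 1)], [(5, -1)], [(9, 1)]],
    [[], [(5, -1), (7, -1)], [(0, 1), (8, -1)], [(1, 1), (4, -1)], [(2, 1), (5, -1)], [(3, 1)],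
      [(5, 1), (7, 1)], [(8, 1)], [(4, 1), (6, 1)], [(4, -1)], [(5, -1)]],
    [[], [(4, -1), (6, -1)], [(5, -1), (7, -1)], [(0, 1), (3, -1), (8, -1)], [(1, 1), (4, -1)],
      [(2, 1), (5, -1)], [(4, 1), (6, 1)], [(5, 1), (7, 1)], [(3, 1), (8, 1)], [(3, -1)], [(4,
      -1)]],
    [[], [(3, -1), (8, -1)], [(4, -1), (6, -1)], [(2, -1), (7, -1)], [(0, 1), (3, -1), (8,
      -1)], [(1, 1), (4, -1)], [(3, 1), (8, 1)], [(4, 1), (6, 1)], [(2, 1), (7, 1)], [(2, -1),
      (5, 1)], [(3, -1)]],
    [[], [(2, -1), (7, -1)], [(3, -1), (8, -1)], [(1, -1), (6, -1)], [(2, -1), (7, -1)], [(0,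
      1), (3, -1), (8, -1)], [(2, 1), (7, 1)], [(3, 1), (8, 1)], [(1, 1), (6, 1)], [(1, -1), (4,
      1)], [(2, -1), (5, 1)]],
    [[], [(1, -1), (6, -1)], [(2, -1), (7, -1)], [(0, -1)], [(1, -1), (6, -1)], [(2, -1), (7,
      -1)], [(1, 1), (6, 1)], [(2, 1), (7, 1)], [(0, 1)], [(0, -1), (3, 1), (8, 1)], [(1, -1),
      (4, 1)]],
    [[], [(0, -1)], [(1, -1), (6, -1)], [], [(0, -1)], [(1, -1), (6, -1)], [(0, 1)], [(1, 1),
      (6, 1)], [], [(2, 1), (7, 1)], [(0, -1), (3, 1), (8, 1)]],
    [[], [], [(0, -1)], [], [], [(0, -1)], [], [(0, 1)], [], [(1, 1), (6, 1)], [(2, 1), (7,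
      1)]],
    [[], [], [], [], [], [], [], [], [], [(0, 1)], [(1, 1), (6, 1)]],
    [[], [], [], [], [], [], [], [], [], [], [(0, 1)]]]
  xc := [[(1, 1)], [(1, 1), (4, 1), (7, 1), (10, 1)], [(2, 1), (5, 1), (8, 1)]]
  X := [[[], [(0, 1), (8, -1)], [(1, 1)], [(2, 1), (5, -1)], [(3, 1)], [(4, 1)], [(8, 1)], [(6,
      1)], [(5, 1), (7, 1)], [(5, -1)], [(9, 1)]],
    [[], [(3, -1), (8, -2)], [(4, -1), (6, -2)], [(5, -1), (7, -1)], [(8, -1)], [(6, -1)], [(0,
      1), (3, 1), (8, 2)], [(1, 1), (4, 1), (6, 3)], [(2, 1), (5, 1), (7, 2)], [(7, 1)], [(8, 1),
      (9, 1)]],
    [[], [(2, -1), (5, -1), (7, -2)], [(3, -1), (8, -2)], [(4, -1), (6, -1)], [(5, -1), (7,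
      -1)], [(8, -1)], [(2, 1), (5, 1), (7, 2)], [(0, 1), (3, 1), (8, 2)], [(1, 1), (4, 1), (6,
      2)], [(6, 1)], [(7, 1)]]]

/-- degrees -/
def dl : List ℕ := [2, 5, 5]

theorem bs_ck : bs.ckW dl 11 = true := by decide +kernel

/-- certificate -/
def ce0 : Cer where
  den := 60
  N := [[],
    [[(55, -60), (100, 60), (105, -60), (117, -60), (176, 180), (198, 60), (221, 120), (233,
      60)],
      [(11, -48), (23, 12), (35, 12), (44, 15), (47, 12), (56, 15), (59, 12), (101, -3), (113,
      -3), (182, -42), (227, 42), (239, 54), (297, 18), (305, 54), (319, -15), (342, -36), (347,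
      -42), (359, -54)],
      [],
      [],
      [],
      [],
      [],
      [],
      [],
      [],
      []],
    [[(62, -60), (99, 120), (107, 60), (116, -120), (183, 60), (209, 60), (220, -120), (232,
      120), (286, -60), (303, -60)],
      [(22, -48), (34, 12), (46, 12), (55, -48), (58, 12), (100, 36), (103, -12), (105, -72),
      (117, -60), (176, 144), (198, 48), (221, 84), (226, -12), (233, 60)],
      [(11, -36), (23, -36), (35, 24), (44, 30), (47, 24), (56, 30), (59, 24), (101, -6), (113,
      -6), (182, -24), (227, 24), (239, 48), (297, -24), (305, 48), (319, -30), (342, -72), (347,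
      -24), (359, -48)],
      [],
      [],
      [],
      [],
      [],
      [],
      [],
      []],
    [[(182, -120), (227, 120), (239, 120), (297, 120), (305, 120), (319, 60), (347, -120), (359,
      -120)],
      [(33, -48), (45, 12), (57, 12), (62, -72), (99, 168), (102, -12), (107, 72), (111, -24),
      (114, -12), (116, -144), (183, 52), (209, 48), (220, -168), (228, 8), (232, 172), (237,
      -4), (286, -72), (303, -52), (348, -8), (360, -8)],
      [(22, -36), (34, -36), (46, 24), (55, -36), (58, 24), (100, 72), (103, -24), (105, -24),
      (117, -120), (176, 108), (198, 36), (221, -12), (226, -24), (233, 120)],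
      [(11, -24), (23, -24), (35, -24), (44, 60), (47, 36), (56, 60), (59, 36), (101, 36), (113,
      36), (182, 24), (227, -24), (239, 12), (297, -96), (305, 12), (319, -60), (342, -108),
      (347, 24), (359, -12)],
      [],
      [],
      [(62, -120), (99, 240), (107, 120), (116, -240), (154, -60), (166, 60), (220, -240), (232,
      240), (286, -180)],
      [(51, 60), (63, 60), (100, 60), (117, -60), (221, -60), (233, 60)],
      [(44, 60), (52, 60), (61, -60), (165, -120), (177, 120), (182, -60), (227, 60), (239, 60),
      (305, 60), (319, -60), (342, -60), (347, -60), (359, -60)],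
      [],
      []],
    [[(55, 60), (100, -60), (105, 60), (117, 60), (221, 60), (233, -60)],
      [(44, -45), (56, 15), (101, -15), (113, -15), (182, -90), (227, 90), (239, 90), (297, 90),
      (305, 90), (319, 45), (347, -90), (359, -90)],
      [(33, -36), (45, -36), (57, 24), (62, -24), (99, 96), (102, -24), (107, 24), (111, -48),
      (114, -24), (116, -48), (183, 44), (209, 36), (220, -96), (228, 16), (232, 104), (237, -8),
      (286, -24), (303, -44), (348, -16), (360, -16)],
      [(22, -24), (34, -24), (46, -24), (55, -24), (58, 36), (100, 48), (103, -36), (105, 24),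
      (117, -120), (176, 72), (198, 24), (221, -48), (226, -36), (233, 120)],
      [(11, -12), (23, -12), (35, -12), (44, 60), (47, -12), (56, 60), (59, 48), (101, 48), (113,
      48), (182, 12), (227, -12), (239, 36), (297, -108), (305, 36), (319, -60), (342, -144),
      (347, 12), (359, -36)],
      [],
      [(165, -60), (177, 60), (182, -120), (227, 120), (239, 120), (297, 60), (305, 120), (342,
      -60), (347, -120), (359, -120)],
      [(62, -60), (99, 120), (107, 60), (116, -120), (220, -120), (232, 120), (286, -120)],
      [(63, 60), (100, 60), (117, -60), (221, -60), (233, 60)],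
      [],
      []],
    [[(62, 60), (99, -120), (107, -60), (116, 120), (220, 120), (232, -120), (286, 60)],
      [(100, -60), (117, 60), (221, 60), (233, -60)],
      [(44, -30), (56, -30), (101, -30), (113, -30), (182, -60), (227, 60), (239, 60), (297, 60),
      (305, 60), (319, 30), (347, -60), (359, -60)],
      [(33, -24), (45, -24), (57, -24), (62, 24), (99, 24), (102, -36), (107, -24), (111, -72),
      (114, -36), (116, 48), (183, 36), (209, 24), (220, -24), (228, 24), (232, 36), (237, -12),
      (286, 24), (303, -36), (348, -24), (360, -24)],
      [(22, -12), (34, -12), (46, -12), (55, -12), (58, -12), (100, 24), (103, -48), (105, 72),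
      (117, -120), (176, 36), (198, 12), (221, -84), (226, -48), (233, 120)],
      [(44, 60), (56, 60), (101, 60), (113, 60), (239, 60), (297, -120), (305, 60), (319, -60),
      (342, -180), (359, -60)],
      [],
      [(182, -60), (227, 60), (239, 60), (305, 60), (342, -60), (347, -60), (359, -60)],
      [(62, -60), (99, 60), (116, -60), (220, -60), (232, 60), (286, -60)],
      [(33, -24), (45, -24), (57, -24), (62, 144), (99, -96), (102, -36), (107, -24), (111, -72),
      (114, -36), (116, 168), (183, -4), (209, 24), (220, 96), (228, 4), (232, -64), (237, -32),
      (286, 144), (303, -56), (348, -4), (360, -4)],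
      [(22, -12), (34, -12), (46, -12), (55, -12), (58, -12), (100, -96), (103, -48), (105, 72),
      (176, 16), (184, -40), (198, -8), (221, 56), (226, -8), (304, -20), (330, 20), (349, -40)]],
    [[(176, -60), (221, -60)],
      [],
      [(343, 60)],
      [],
      [],
      [],
      [(227, -60), (347, 60)],
      [],
      [(176, 20), (184, -20), (198, 20), (221, 40), (226, -40), (304, 20), (330, -20), (349,
      40)],
      [],
      []],
    [[],
      [],
      [(177, 60), (182, -60), (222, 60), (227, 60), (239, 60), (305, 60), (342, -60), (347, -60),
      (359, -60)],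
      [],
      [],
      [],
      [],
      [],
      [(183, 20), (228, 40), (232, 20), (237, -20), (303, -20), (348, -40), (360, 20)],
      [],
      []],
    [[(182, 60), (227, -60), (239, -60), (297, -60), (305, -60), (347, 60), (359, 60)],
      [],
      [],
      [],
      [],
      [],
      [(183, 40), (228, 20), (232, -20), (237, 20), (303, -40), (348, -20), (360, -20)],
      [(176, 40), (184, 20), (198, 40), (221, 20), (226, -20), (304, -20), (330, -40), (349,
      20)],
      [(239, 60), (359, -60)],
      [],
      []],
    [[(61, -60), (118, -60), (165, -60), (177, 60), (182, -120), (227, 120), (231, 60), (239,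
      120), (297, 120), (305, 120), (347, -120), (359, -120)],
      [],
      [(105, 60), (117, -60), (221, -60), (233, 60)],
      [(44, 15), (56, 15), (101, -15), (113, 45), (182, 30), (227, -30), (239, -30), (297, -30),
      (305, -30), (319, -15), (347, 30), (359, 30)],
      [(33, 12), (45, 12), (57, 12), (62, -72), (99, 48), (102, -12), (107, 72), (111, 96), (114,
      48), (116, -144), (183, -28), (209, -12), (220, -48), (228, -32), (232, 32), (237, 16),
      (286, -72), (303, 28), (348, 32), (360, 32)],
      [(105, -120), (117, 120), (221, 120), (226, 60), (233, -120)],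
      [],
      [],
      [],
      [(44, 15), (56, 15), (101, -15), (113, 45), (182, 30), (227, -90), (239, -30), (297, -30),
      (305, -30), (319, -15), (347, 30), (359, 30)],
      [(33, 12), (45, 12), (57, 12), (62, -72), (99, 48), (102, -12), (107, 72), (111, 96), (114,
      48), (116, -144), (183, -28), (209, -12), (220, -48), (228, -32), (232, 32), (237, 16),
      (286, -72), (303, 28), (348, -28), (360, 32)]],
    [[],
      [],
      [(62, 60), (99, -60), (107, -60), (111, -60), (116, 120), (220, 120), (232, -120), (286,
      60)],
      [(105, 120), (112, -60), (117, -60), (221, -60), (233, 60)],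
      [],
      [(62, -120), (99, 120), (107, 120), (111, 120), (116, -240), (183, -20), (220, -120), (228,
      -40), (232, 100), (237, 20), (286, -120), (303, 20), (348, 40), (360, 40)],
      [(61, -60), (118, -60), (165, -60), (177, 60), (182, -60), (227, 60), (239, 60), (297, 60),
      (305, 60), (347, -60), (359, -60)],
      [(220, 60), (232, -60)],
      [(105, 60), (117, -60)],
      [(112, -60), (117, 60), (176, 40), (184, 20), (198, 40), (221, -40), (226, -20), (233, 60),
      (238, -60), (304, -20), (330, -40), (349, 20)],
      [(61, 120), (118, 120), (165, 120), (177, -120), (182, 120), (227, -120), (239, -120),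
      (297, -120), (305, -120), (347, 120), (359, 60)]]]
  A := [[[(11, 12), (23, 12), (35, 12), (44, 15), (47, 12), (56, 15), (59, 12), (61, -60), (101,
      -3), (113, -3), (165, -60), (177, 60), (182, -42), (227, 42), (239, 54), (297, 18), (305,
      54), (319, -15), (342, -36), (347, -42), (359, -54)],
      [(22, 12), (34, 12), (46, 12), (55, 12), (58, 12), (100, -24), (103, -12), (105, 48), (176,
      -36), (198, -12), (221, -36), (226, -12)],
      [(33, 12), (45, 12), (57, 12), (62, -12), (99, -12), (102, -12), (107, 12), (111, -24),
      (114, -12), (116, 36), (183, -8), (209, -12), (220, 12), (228, 8), (232, -8), (237, -4),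
      (286, -12), (303, 8), (348, -8), (360, -8)],
      [(44, 15), (56, 15), (61, -60), (101, -15), (113, -15), (165, -60), (177, 60), (182, -30),
      (227, 30), (239, 30), (297, 30), (305, 30), (319, -15), (347, -30), (359, -30)],
      [],
      [(62, -60), (99, 60), (107, 60), (116, -60), (220, -60), (232, 60), (286, -60)],
      [(61, -60), (165, -60), (177, 60), (182, -60), (227, 60), (239, 60), (297, 60), (305, 60),
      (347, -60), (359, -60)],
      [(105, 60)],
      [(116, 60), (220, 60), (232, -60)],
      [(110, 60), (118, 60), (182, 60), (227, -60), (231, -60), (239, -60), (297, -60), (305,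
      -60), (347, 60), (359, 60)]],
    [[],
      [],
      [(62, -60), (99, 120), (107, 60), (116, -120), (166, 60), (183, -20), (220, -120), (228,
      20), (232, 100), (237, 20), (286, -120), (303, 20), (348, -20), (360, -20)],
      [(177, 60), (182, -60), (227, 60), (239, 60), (305, 60), (342, -60), (347, -60), (359,
      -60)],
      [(221, -60)],
      [(183, -20), (228, 20), (232, -20), (237, 20), (303, 20), (348, -20), (360, -20)],
      [],
      [],
      [(183, -20), (220, 60), (228, 20), (232, -20), (237, 20), (303, 20), (348, -20), (360,
      -20)],
      []],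
    [[],
      [],
      [(63, 60), (176, -20), (184, 20), (198, -20), (221, -40), (226, -20), (287, 60), (304,
      -20), (330, 20), (349, 20)],
      [],
      [(342, -60)],
      [(176, -20), (184, 20), (198, -20), (221, -40), (226, -20), (304, -20), (330, 20), (349,
      20)],
      [],
      [],
      [(176, 40), (184, 20), (198, 40), (221, 20), (226, -20), (238, -60), (304, -20), (330,
      -40), (349, 20), (358, 60)],
      [(220, 60), (232, -60), (352, 60)]]]
  W := [[[],
      [],
      [],
      [],
      [[],
       [],
       [],
       [],
       [],
       [],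
       [(44, 60), (110, 60)]],
      [],
      [[(55, 60)],
       [(110, 60), (176, 60), (221, -60)]],
      [[(99, -60)],
       [(55, 60), (100, -60), (220, 60)]],
      [[(110, -60)],
       [(111, -60)]],
      [[],
       [],
       [],
       [],
       [],
       [],
       [],
       [(55, 60), (220, 60)]],
      []],
    [[],
      [],
      [],
      [],
      [],
      [[],
       [],
       [(56, -60), (110, 60), (176, 60), (221, -60)]],
      [[(341, -60)]],
      [],
      [],
      [],
      []],
    [[],
      [],
      [],
      [[(99, 60), (165, 60)]],
      [],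
      [[],
       [(110, -60), (176, -60)],
       [(111, -60), (177, -60)]],
      [[(297, -60)]],
      [],
      [],
      [[(352, 60)]],
      [[],
       [(99, 60), (231, -60), (352, 60)],
       [(55, -60), (100, 60), (220, -60), (232, -60)]]]]

theorem ce0_ck : ce0.ckW bs dl 11 0 = true := by decide +kernel

/-- certificate -/
def ce1 : Cer where
  den := 1
  N := [[],
    [[(22, 1), (34, 1), (46, 1), (63, -2), (77, 1), (287, -2)],
      [],
      [],
      [],
      [],
      [],
      [],
      [],
      [],
      [],
      []],
    [[(33, 1), (45, 1), (57, 1), (102, 3)],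
      [(34, 1), (46, 1), (63, -2), (287, -2)],
      [],
      [],
      [],
      [],
      [],
      [],
      [],
      [],
      []],
    [[(44, 1), (56, 1), (101, -1), (113, 3)],
      [(45, 1), (57, 1), (102, 2)],
      [(46, 1), (63, -1), (287, -1)],
      [],
      [],
      [],
      [(50, 1)],
      [(55, -1), (63, -1), (77, -1), (275, -1), (287, -1)],
      [(52, 1), (56, -1), (61, 1), (66, 2), (101, 1), (113, -3), (297, 2)],
      [],
      []],
    [[(55, 1), (63, 1), (77, 1), (287, 1)],
      [(56, 1), (101, -1), (113, 2)],
      [(57, 1), (102, 1)],
      [],
      [],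
      [],
      [(61, 1), (66, 1), (297, 1)],
      [],
      [(287, -1)],
      [],
      []],
    [[],
      [],
      [(101, -1), (113, 1)],
      [],
      [(58, -1), (63, 1), (287, 1)],
      [],
      [],
      [],
      [(62, -1)],
      [],
      []],
    [[],
      [],
      [(67, -1)],
      [],
      [],
      [],
      [],
      [],
      [],
      [],
      []],
    [[(99, -1), (116, 1), (220, 1), (232, -1)],
      [],
      [(66, 1), (118, -1), (297, 1), (342, -1), (354, 1)],
      [],
      [],
      [],
      [],
      [],
      [],
      [],
      []],
    [[(297, -1)],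
      [],
      [(299, -1)],
      [],
      [],
      [],
      [],
      [],
      [],
      [],
      []],
    [[],
      [(62, -2), (67, -1), (99, -1), (107, 1), (116, 1), (178, 1), (232, -1)],
      [(63, 1), (77, 1), (100, -1), (287, 1)],
      [],
      [],
      [],
      [(62, -1), (67, -1), (99, -1), (116, 1), (178, 1), (232, -1)],
      [(176, -1), (221, -1)],
      [(342, -1)],
      [],
      []],
    [[],
      [(66, -1), (118, 1), (231, -1), (297, -2), (342, 1)],
      [(62, -4), (67, -2), (99, -1), (107, 2), (111, -1), (116, 2), (178, 2), (232, -2)],
      [(63, 2), (77, 2), (100, -1), (112, -1), (287, 2)],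
      [],
      [],
      [(231, -1), (297, -1)],
      [(62, -3), (67, -2), (99, -1), (107, 1), (116, 1), (178, 2), (232, -2)],
      [(63, 1), (77, 1), (100, -1), (176, -1), (233, -1), (287, 1), (299, -1)],
      [],
      []]]
  A := [[[],
      [],
      [(102, -1)],
      [(66, 1), (113, -1), (297, 1)],
      [(63, -1), (287, -1)],
      [],
      [(66, 1), (297, 1)],
      [(77, 1)],
      [(62, -2), (67, -1), (107, 1), (116, 1), (178, 1), (232, -1)],
      [(110, 1), (118, 1), (231, -1), (297, -1), (342, 1)]],
    [[],
      [],
      [],
      [(177, 1)],
      [(176, 1)],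
      [(62, 1), (67, 1), (178, -1)],
      [],
      [],
      [],
      []],
    [[],
      [],
      [],
      [(99, -1), (116, 1), (220, 1), (232, -1), (286, 1)],
      [],
      [],
      [],
      [],
      [(176, -1), (221, -1), (341, 1)],
      [(62, -3), (67, -2), (107, 1), (178, 2), (220, -1), (232, -1), (352, 1)]]]
  W := [[[],
      [],
      [],
      [],
      [[],
       [],
       [],
       [],
       [],
       [],
       [],
       [(165, 1)]],
      [],
      [],
      [[],
       [(232, -1)]],
      [[(110, -1)],
       [(177, 1)]],
      [[],
       [],
       [],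
       [],
       [],
       [],
       [(99, 1)],
       [(220, 1)]],
      [[],
       [],
       [],
       [],
       [],
       [],
       [],
       [(111, 1), (177, 1)]]],
    [[],
      [],
      [],
      [[(44, 1), (56, 1), (110, 1)]],
      [[(55, 1)],
       [(56, 1)]],
      [],
      [],
      [],
      [],
      [[],
       [],
       [(100, -1), (220, 1), (232, 1)]],
      []],
    [[],
      [],
      [],
      [],
      [],
      [[],
       [(110, -1), (176, -1)]],
      [],
      [],
      [],
      [[],
       [],
       [(110, 1), (176, 1), (221, -1)]],
      [[],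
       [(111, 1), (177, 1), (231, -1)]]]]

theorem ce1_ck : ce1.ckW bs dl 11 1 = true := by decide +kernel

/-- certificate -/
def ce2 : Cer where
  den := 1
  N := [[],
    [[(22, 1), (34, 1), (46, 1), (77, 2), (100, -1)],
      [],
      [],
      [],
      [],
      [],
      [],
      [],
      [],
      [],
      []],
    [[(33, 1), (45, 1), (57, 1), (102, 3)],
      [(34, 1), (46, 1), (77, 1), (100, -1)],
      [],
      [],
      [],
      [],
      [],
      [],
      [],
      [],
      []],
    [[(44, 1), (56, 1), (101, -1), (113, 3)],
      [(45, 1), (57, 1), (102, 2)],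
      [(46, 1)],
      [],
      [],
      [],
      [],
      [],
      [],
      [],
      []],
    [[(55, 1), (77, 2), (100, -1)],
      [(56, 1), (101, -1), (113, 2)],
      [(57, 1), (102, 1)],
      [],
      [],
      [],
      [(61, 1)],
      [(62, 1)],
      [(63, 1), (100, 1), (105, -1)],
      [],
      []],
    [[],
      [(77, 1), (100, -1)],
      [(101, -1), (113, 1)],
      [],
      [(58, -1)],
      [],
      [(77, 1), (105, -1)],
      [],
      [],
      [],
      []],
    [],
    [[(88, 1)],
      [],
      [],
      [],
      [],
      [],
      [],
      [],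
      [],
      [],
      []],
    [[(66, 1)],
      [],
      [],
      [],
      [],
      [],
      [],
      [],
      [],
      [],
      []],
    [[],
      [(107, 1)],
      [],
      [],
      [],
      [],
      [],
      [],
      [(106, -1)],
      [],
      []],
    [[],
      [(106, 1), (118, 1)],
      [(99, 1), (107, 2), (111, -1)],
      [(77, 1), (112, -1)],
      [],
      [],
      [],
      [(99, 1), (107, 1), (116, -1)],
      [(77, 1), (117, -1)],
      [],
      []]]
  A := [[[],
      [],
      [(102, -1)],
      [(113, -1)],
      [],
      [],
      [],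
      [(77, 1)],
      [(99, 1), (107, 1)],
      [(106, 1), (110, 1), (118, 1)]],
    [[],
      [],
      [],
      [(61, 1), (66, 2), (165, 1), (231, -1)],
      [],
      [(88, 1), (220, -1)],
      [(66, 1), (231, -1)],
      [(221, 1)],
      [],
      []],
    [[],
      [],
      [],
      [],
      [],
      [(77, -1), (117, 1), (353, -1)],
      [(298, -1)],
      [(106, -1), (342, 1)],
      [],
      [(88, -1), (99, 1), (107, 1), (116, -1), (298, -1), (352, 1)]]]
  W := [[[],
      [],
      [],
      [],
      [],
      [],
      [],
      [],
      [],
      [],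
      []],
    [[],
      [],
      [],
      [],
      [],
      [[(99, -1)],
       [(55, -1)]],
      [],
      [],
      [],
      [],
      [[],
       [(110, -1)]]],
    [[],
      [],
      [],
      [],
      [[(176, 1)]],
      [[(220, -1)]],
      [],
      [],
      [],
      [[(231, 1)]],
      []]]

theorem ce2_ck : ce2.ckW bs dl 11 2 = true := by decide +kernel

/-- certificate -/
def ce3 : Cer where
  den := 1
  N := [[],
    [],
    [[(33, 1), (45, 1), (57, -2)],
      [],
      [],
      [],
      [],
      [],
      [],
      [],
      [],
      [],
      []],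
    [[(44, 1), (56, 1), (101, 2)],
      [(45, 1), (57, -1)],
      [],
      [],
      [],
      [],
      [],
      [],
      [],
      [],
      []],
    [[(55, 1), (100, -1)],
      [(56, 1), (101, 1)],
      [],
      [],
      [],
      [],
      [(61, 1)],
      [(62, 1), (88, 1), (298, -1)],
      [(63, 1), (100, 1), (105, -1), (117, -1), (353, 1)],
      [],
      []],
    [[],
      [(100, -1)],
      [],
      [],
      [],
      [],
      [(105, -1), (117, -1), (353, 1)],
      [],
      [(298, -1)],
      [],
      []],
    [[(77, 1)],
      [(66, -1)],
      [],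
      [],
      [],
      [],
      [],
      [],
      [],
      [],
      []],
    [],
    [],
    [[],
      [(88, -1), (107, 1), (298, -1)],
      [],
      [],
      [],
      [],
      [],
      [(117, 1), (353, -1)],
      [(106, -1)],
      [],
      []],
    [[],
      [(106, 1), (118, 1)],
      [(88, -2), (99, 1), (107, 2), (111, -1), (298, -2)],
      [(112, -1)],
      [],
      [],
      [],
      [(99, 1), (107, 1), (116, -1), (298, -1)],
      [(353, -1)],
      [],
      []]]
  A := [[[],
      [],
      [(57, 1), (88, 1)],
      [(101, -1)],
      [],
      [(88, 1)],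
      [],
      [],
      [(99, 1), (107, 1), (298, -1)],
      [(106, 1), (110, 1), (118, 1)]],
    [[],
      [],
      [],
      [(61, 1), (165, 1), (231, -1)],
      [(117, -1), (221, -1), (353, 1)],
      [(220, -1)],
      [(231, -1)],
      [],
      [],
      []],
    [[],
      [],
      [],
      [],
      [],
      [],
      [],
      [(66, 1), (106, -1), (342, 1)],
      [],
      [(99, 1), (107, 1), (116, -1), (298, -1), (352, 1)]]]
  W := [[[],
      [],
      [],
      [],
      [],
      [],
      [],
      [],
      [],
      [],
      []],
    [[],
      [],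
      [],
      [],
      [],
      [[(99, -1)],
       [(55, -1)]],
      [],
      [],
      [],
      [],
      [[],
       [(110, -1)]]],
    [[],
      [],
      [],
      [],
      [[(176, 1)]],
      [[(220, -1)]],
      [],
      [],
      [],
      [[(231, 1)]],
      []]]

theorem ce3_ck : ce3.ckW bs dl 11 3 = true := by decide +kernel

/-- certificate -/
def ce4 : Cer where
  den := 1
  N := [[],
    [],
    [[(33, 1), (45, 1), (57, -2), (99, -1)],
      [],
      [],
      [],
      [],
      [],
      [],
      [],
      [],
      [],
      []],
    [[(44, 1), (56, -1)],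
      [(45, 1), (57, -1)],
      [],
      [],
      [],
      [],
      [],
      [],
      [],
      [],
      []],
    [[(55, 1)],
      [],
      [],
      [],
      [],
      [],
      [],
      [],
      [],
      [],
      []],
    [[(99, -1)],
      [],
      [],
      [],
      [],
      [],
      [],
      [],
      [],
      [],
      []],
    [],
    [],
    [],
    [[(231, 1)],
      [],
      [(100, -1)],
      [(56, -1), (101, -1)],
      [],
      [],
      [(220, -1)],
      [],
      [],
      [],
      []],
    [[],
      [],
      [(111, -1)],
      [(100, -1), (112, -1)],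
      [],
      [],
      [],
      [(352, -1)],
      [],
      [],
      []]]
  A := [[[],
      [],
      [(57, 1)],
      [],
      [],
      [],
      [(56, -1)],
      [],
      [],
      [(56, -1), (110, 1), (231, -1)]],
    [[],
      [],
      [],
      [],
      [(176, 1)],
      [],
      [],
      [],
      [],
      []],
    [[],
      [],
      [],
      [],
      [(297, 1)],
      [],
      [],
      [],
      [(341, 1)],
      []]]
  W := [[[],
      [],
      [],
      [],
      [],
      [],
      [],
      [],
      [],
      [],
      []],
    [[],
      [],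
      [],
      [],
      [],
      [],
      [],
      [],
      [],
      [],
      []],
    [[],
      [],
      [],
      [],
      [],
      [],
      [],
      [],
      [],
      [],
      []]]

theorem ce4_ck : ce4.ckW bs dl 11 4 = true := by decide +kernel

/-- certificate -/
def ce5 : Cer where
  den := 1
  N := [[],
    [],
    [],
    [[(44, 1)],
      [],
      [],
      [],
      [],
      [],
      [],
      [],
      [],
      [],
      []],
    [[(55, 1)],
      [],
      [],
      [],
      [],
      [],
      [],
      [],
      [],
      [],
      []],
    [[(99, -1)],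
      [],
      [(56, -1)],
      [],
      [],
      [],
      [],
      [],
      [],
      [],
      []],
    [],
    [[(220, 1)],
      [],
      [],
      [],
      [],
      [],
      [],
      [],
      [],
      [],
      []],
    [],
    [[],
      [],
      [(100, -1)],
      [],
      [],
      [],
      [],
      [(341, -1)],
      [],
      [],
      []],
    [[],
      [],
      [(111, -1)],
      [],
      [],
      [],
      [(231, -1)],
      [],
      [],
      [],
      []]]
  A := [[[],
      [],
      [],
      [],
      [],
      [],
      [],
      [],
      [],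
      [(110, 1)]],
    [[],
      [],
      [],
      [],
      [(176, 1)],
      [],
      [],
      [],
      [],
      []],
    [[],
      [],
      [],
      [],
      [],
      [],
      [(220, 1), (352, -1)],
      [(297, -1)],
      [],
      []]]
  W := [[[],
      [],
      [],
      [],
      [],
      [],
      [],
      [],
      [],
      [],
      []],
    [[],
      [],
      [],
      [],
      [],
      [],
      [],
      [],
      [],
      [],
      []],
    [[],
      [],
      [],
      [],
      [],
      [],
      [],
      [],
      [],
      [],
      []]]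

theorem ce5_ck : ce5.ckW bs dl 11 5 = true := by decide +kernel

/-- certificate -/
def ce6 : Cer where
  den := 1
  N := [[],
    [],
    [],
    [],
    [[(55, 1)],
      [(44, -1)],
      [],
      [],
      [],
      [],
      [],
      [],
      [],
      [],
      []],
    [[(99, -1), (111, 1)],
      [],
      [(44, -1), (56, -1)],
      [],
      [],
      [],
      [],
      [],
      [],
      [],
      []],
    [],
    [],
    [],
    [[],
      [],
      [(100, -1)],
      [],
      [],
      [],
      [],
      [],
      [],
      [],
      []],
    [[],
      [(110, -1)],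
      [],
      [],
      [],
      [],
      [],
      [],
      [],
      [],
      []]]
  A := [[[],
      [],
      [],
      [],
      [],
      [(111, -1)],
      [],
      [],
      [],
      []],
    [],
    []]
  W := [[[],
      [],
      [],
      [],
      [],
      [],
      [],
      [],
      [],
      [],
      []],
    [[],
      [],
      [],
      [],
      [],
      [],
      [],
      [],
      [],
      [],
      []],
    [[],
      [],
      [],
      [],
      [],
      [],
      [],
      [],
      [],
      [],
      []]]

theorem ce6_ck : ce6.ckW bs dl 11 6 = true := by decide +kernel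

/-- certificate -/
def ce7 : Cer where
  den := 1
  N := [[],
    [],
    [],
    [],
    [],
    [[],
      [(55, -1)],
      [],
      [],
      [],
      [],
      [],
      [],
      [],
      [],
      []],
    [],
    [],
    [],
    [],
    []]
  A := [[[],
      [],
      [],
      [],
      [],
      [],
      [],
      [],
      [(99, 1)],
      [(110, 1)]],
    [],
    []]
  W := [[[],
      [],
      [],
      [],
      [],
      [],
      [],
      [],
      [],
      [],
      []],
    [[],
      [],
      [],
      [],
      [],
      [],
      [],
      [],
      [],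
      [],
      []],
    [[],
      [],
      [],
      [],
      [],
      [],
      [],
      [],
      [],
      [],
      []]]

theorem ce7_ck : ce7.ckW bs dl 11 7 = true := by decide +kernel

/-- certificate -/
def ce8 : Cer where
  den := 1
  N := [[],
    [],
    [],
    [],
    [],
    [[],
      [(55, -1)],
      [],
      [],
      [],
      [],
      [],
      [],
      [],
      [],
      []],
    [],
    [],
    [],
    [],
    []]
  A := [[[],
      [],
      [],
      [],
      [],
      [],
      [],
      [],
      [(99, 1)],
      [(110, 1)]],
    [],
    []]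
  W := [[[],
      [],
      [],
      [],
      [],
      [],
      [],
      [],
      [],
      [],
      []],
    [[],
      [],
      [],
      [],
      [],
      [],
      [],
      [],
      [],
      [],
      []],
    [[],
      [],
      [],
      [],
      [],
      [],
      [],
      [],
      [],
      [],
      []]]

theorem ce8_ck : ce8.ckW bs dl 11 8 = true := by decide +kernel

end Pool.Agent.Lib.D13.C221_6
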