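import Pool.Agent.Lib.D13.ReflW

/-!
# MP_5dcbc3_ag: density certificates, types (7, 2, 2, 1), `b = b = 0`
-/

namespace Pool.Agent.Lib.D13.C221_7

open Refl

/-- the base point -/
def bs : Base where
  lev := [0, 2, 4, 6, 8, 10, 12, 6, 6, 6, 12, 12]
  pw := [[[(0, 1)], [(1, 1)], [(2, 1)], [(3, 1)], [(4, 1)], [(5, 1)], [(6, 1)], [(7, 1)], [(8, 1)],
      [(9, 1)], [(10, 1)], [(11, 1)]],
    [[], [(0, 1), (6, -1), (9, -1)], [(1, 1)], [(2, 1)], [(3, 1), (6, -1)], [(4, 1)], [(5, 1)],
      [(6, 1), (9, 1)], [(7, 1)], [(8, 1)], [(6, -1)], [(10, 1)]],
    [[], [(5, -1), (8, -1)], [(0, 1), (6, -1), (9, -1)], [(1, 1)], [(2, 1), (5, -1)], [(3, 1),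
      (6, -1)], [(4, 1)], [(5, 1), (8, 1)], [(6, 1), (9, 1)], [(7, 1)], [(5, -1)], [(6, -1)]],
    [[], [(4, -1), (7, -1)], [(5, -1), (8, -1)], [(0, 1), (6, -1), (9, -1)], [(1, 1), (4, -1)],
      [(2, 1), (5, -1)], [(3, 1), (6, -1)], [(4, 1), (7, 1)], [(5, 1), (8, 1)], [(6, 1), (9, 1)],
      [(4, -1)], [(5, -1)]],
    [[], [(3, -1), (9, -1)], [(4, -1), (7, -1)], [(5, -1), (8, -1)], [(0, 1), (3, -1), (9,
      -1)], [(1, 1), (4, -1)], [(2, 1), (5, -1)], [(3, 1), (9, 1)], [(4, 1), (7, 1)], [(5, 1),
      (8, 1)], [(3, -1), (6, 1)], [(4, -1)]],
    [[], [(2, -1), (8, -1)], [(3, -1), (9, -1)], [(4, -1), (7, -1)], [(2, -1), (8, -1)], [(0,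
      1), (3, -1), (9, -1)], [(1, 1), (4, -1)], [(2, 1), (8, 1)], [(3, 1), (9, 1)], [(4, 1), (7,
      1)], [(2, -1), (5, 1)], [(3, -1), (6, 1)]],
    [[], [(1, -1), (7, -1)], [(2, -1), (8, -1)], [(3, -1), (9, -1)], [(1, -1), (7, -1)], [(2,
      -1), (8, -1)], [(0, 1), (3, -1), (9, -1)], [(1, 1), (7, 1)], [(2, 1), (8, 1)], [(3, 1), (9,
      1)], [(1, -1), (4, 1)], [(2, -1), (5, 1)]],
    [[], [(0, -1)], [(1, -1), (7, -1)], [(2, -1), (8, -1)], [(0, -1)], [(1, -1), (7, -1)], [(2,
      -1), (8, -1)], [(0, 1)], [(1, 1), (7, 1)], [(2, 1), (8, 1)], [(0, -1), (3, 1), (9, 1)],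
      [(1, -1), (4, 1)]],
    [[], [], [(0, -1)], [(1, -1), (7, -1)], [], [(0, -1)], [(1, -1), (7, -1)], [], [(0, 1)],
      [(1, 1), (7, 1)], [(2, 1), (8, 1)], [(0, -1), (3, 1), (9, 1)]],
    [[], [], [], [(0, -1)], [], [], [(0, -1)], [], [], [(0, 1)], [(1, 1), (7, 1)], [(2, 1), (8,
      1)]],
    [[], [], [], [], [], [], [], [], [], [], [(0, 1)], [(1, 1), (7, 1)]],
    [[], [], [], [], [], [], [], [], [], [], [], [(0, 1)]]]
  xc := [[(1, 1)], [(1, 1), (4, 1), (7, 1), (10, 1)], [(2, 1), (5, 1), (8, 1), (11, 1)]]
  X := [[[], [(0, 1), (6, -1), (9, -1)], [(1, 1)], [(2, 1)], [(3, 1), (6, -1)], [(4, 1)], [(5, 1)],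
      [(6, 1), (9, 1)], [(7, 1)], [(8, 1)], [(6, -1)], [(10, 1)]],
    [[], [(3, -1), (6, -1), (9, -2)], [(4, -1), (7, -2)], [(5, -1), (8, -2)], [(6, -1), (9,
      -1)], [(7, -1)], [(8, -1)], [(0, 1), (3, 1), (6, 1), (9, 2)], [(1, 1), (4, 1), (7, 3)],
      [(2, 1), (5, 1), (8, 3)], [(9, 1)], [(7, 1), (10, 1)]],
    [[], [(2, -1), (5, -1), (8, -2)], [(3, -1), (6, -1), (9, -2)], [(4, -1), (7, -2)], [(5,
      -1), (8, -1)], [(6, -1), (9, -1)], [(7, -1)], [(2, 1), (5, 1), (8, 2)], [(0, 1), (3, 1),
      (6, 1), (9, 2)], [(1, 1), (4, 1), (7, 3)], [(8, 1)], [(9, 1)]]]

/-- degrees -/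
def dl : List ℕ := [2, 6, 6]

theorem bs_ck : bs.ckW dl 12 = true := by decide +kernel

/-- certificate -/
def ce0 : Cer where
  den := 18
  N := [[[(67, 18), (80, 18), (110, 18), (192, 18), (267, 18), (361, -18), (384, 18), (410, -18)],
      [],
      [],
      [],
      [],
      [],
      [],
      [],
      [],
      [],
      [],
      []],
    [[(56, 18), (86, 18), (96, -18), (109, 18), (240, 18), (272, -18), (324, 18), (363, -18),
      (415, 18)],
      [(12, -15), (25, 3), (38, 3), (48, 3), (51, 3), (61, 3), (64, 3), (67, 27), (74, 3), (77,
      3), (80, 27), (110, 28), (192, 27), (218, 1), (228, -2), (267, 28), (273, 1), (277, -1),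
      (283, 1), (361, -37), (367, 3), (384, 17), (410, -27), (416, -1), (429, -1)],
      [],
      [],
      [],
      [],
      [],
      [],
      [],
      [],
      [],
      []],
    [[(72, -24), (85, 18), (108, -42), (121, -6), (193, 6), (216, 6), (219, -6), (225, -6),
      (252, 6), (271, 6), (336, -6), (368, 6), (372, 12), (411, -6), (417, -6)],
      [(24, -15), (37, 3), (50, 3), (56, 13), (60, -2), (63, 3), (69, -5), (73, 3), (76, 3), (79,
      1), (86, 19), (96, -13), (109, 3), (125, -3), (204, 6), (223, -1), (240, 15), (272, -17),
      (279, 6), (285, 1), (324, 13), (363, -13), (369, 1), (409, 6), (415, 14), (422, -6), (428,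
      -1)],
      [(12, -12), (25, -12), (38, 6), (48, 6), (51, 6), (61, 6), (64, 6), (67, 18), (74, 6), (77,
      6), (80, 18), (110, 20), (192, 18), (218, 2), (228, -4), (267, 20), (273, 2), (277, -2),
      (283, 2), (361, -38), (367, 6), (384, 16), (410, -18), (416, -2), (429, -2)],
      [],
      [],
      [],
      [],
      [],
      [],
      [],
      [],
      []],
    [[],
      [(36, -15), (49, 3), (62, 3), (72, -23), (75, 3), (85, 27), (108, -35), (121, -5), (124,
      -3), (134, -6), (137, -3), (193, 8), (216, 8), (219, -8), (225, -5), (252, 5), (271, 5),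
      (278, 9), (284, -3), (336, -8), (368, 5), (372, 10), (411, -8), (417, -5)],
      [(24, -12), (37, -12), (50, 6), (56, 8), (60, -4), (63, 6), (69, -10), (73, 6), (76, 6),
      (79, 2), (86, 20), (96, -8), (109, -12), (125, -6), (204, 12), (223, -2), (240, 12), (272,
      -16), (279, 12), (285, 2), (324, 8), (363, -8), (369, 2), (409, 12), (415, 10), (422, -12),
      (428, -2)],
      [(12, -9), (25, -9), (38, -9), (48, 9), (51, 9), (61, 9), (64, 9), (67, 9), (74, 9), (77,
      9), (80, 9), (110, 12), (192, 9), (218, 3), (228, -6), (267, 12), (273, 3), (277, -3),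
      (283, 3), (361, -39), (367, 9), (384, 15), (410, -9), (416, -3), (429, -3)],
      [],
      [],
      [],
      [(55, 18), (81, 18), (85, 36), (108, -36), (193, -18), (206, 18), (216, -36)],
      [(56, 18), (86, 18), (363, -18)],
      [(48, 18), (57, 18), (110, -18), (192, -18), (267, -18), (361, -18), (410, 18)],
      [],
      []],
    [[(56, -18), (86, -18), (96, -36), (109, 36), (324, -18), (363, 18), (409, -18)],
      [(48, -12), (61, 6), (67, 12), (74, 6), (80, 12), (110, 12), (192, 12), (267, 12), (361,
      -12), (410, -12)],
      [(36, -12), (49, -12), (62, 6), (72, -22), (75, 6), (85, 18), (108, -28), (121, -4), (124,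
      -6), (134, -12), (137, -6), (193, 10), (216, 10), (219, -10), (225, -4), (252, 4), (271,
      4), (278, 18), (284, -6), (336, -10), (368, 4), (372, 8), (411, -10), (417, -4)],
      [(24, -9), (37, -9), (50, -9), (56, -33), (60, -42), (63, 9), (69, -69), (73, 27), (76, 9),
      (79, -51), (86, -69), (96, -75), (109, -9), (125, -9), (204, 18), (223, -3), (240, 9),
      (272, -15), (279, 18), (285, 3), (324, -33), (363, 87), (369, 3), (409, -18), (415, 6),
      (422, -18), (428, -3)],
      [(12, -6), (25, -6), (38, -6), (48, 6), (51, -6), (61, 6), (64, 12), (67, 6), (74, 6), (77,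
      12), (80, 6), (110, 10), (192, 6), (218, 4), (228, -8), (267, 10), (273, 4), (277, -4),
      (283, 4), (361, -46), (367, 12), (384, 14), (410, -6), (416, -4), (429, -4)],
      [],
      [],
      [(67, 18), (80, 18), (361, -18)],
      [(81, 18), (85, 18), (108, -18), (193, -18), (206, 18), (216, -18)],
      [],
      [],
      []],
    [[(72, 18), (85, -18)],
      [(69, 18), (79, 18), (86, 18), (109, 18), (363, -18)],
      [(48, -6), (61, -6), (67, 6), (74, 12), (80, 6), (110, 6), (192, 6), (267, 6), (361, -6),
      (410, -6)],
      [(36, -9), (49, -9), (62, -9), (72, -21), (75, 9), (85, 9), (108, -21), (121, -3), (124,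
      -9), (134, -18), (137, -9), (193, 12), (216, 12), (219, -12), (225, -3), (252, 3), (271,
      3), (278, 27), (284, -9), (336, -12), (368, 3), (372, 6), (411, -12), (417, -3)],
      [(24, -6), (37, -6), (50, -6), (56, -56), (60, -62), (63, -6), (69, -92), (73, 30), (76,
      12), (79, -68), (86, -104), (96, -106), (109, -6), (125, -12), (204, 24), (223, -4), (240,
      6), (272, -14), (279, 24), (285, 4), (324, -56), (363, 128), (369, 4), (409, -30), (415,
      2), (422, -24), (428, -4)],
      [(12, -3), (25, -3), (38, -3), (48, 3), (51, -3), (61, 3), (64, -3), (67, 3), (74, 3), (77,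
      15), (80, 3), (110, 8), (192, 3), (218, 5), (228, -10), (267, 8), (273, 5), (277, -5),
      (283, 5), (361, -53), (367, 15), (384, 13), (410, -3), (416, -5), (429, -5)],
      [],
      [(56, -18), (60, -18), (69, -18), (86, -18), (96, -36), (109, 18), (324, -18), (363, 18),
      (409, -18)],
      [(80, 18), (361, -18)],
      [(81, 18), (85, 18), (108, -18), (216, -18)],
      [],
      []],
    [[(67, -18), (80, -18), (110, -18), (192, -18), (267, -18), (361, 18), (410, 18)],
      [],
      [(56, 18), (60, 18), (69, 36), (73, -18), (79, 36), (86, 54), (96, 36), (324, 18), (363,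
      -54), (409, 18)],
      [],
      [(36, -6), (49, -6), (62, -6), (72, -20), (75, -6), (108, -14), (121, -2), (124, -12),
      (134, -24), (137, -12), (193, 14), (216, 14), (219, -14), (225, -2), (252, 2), (271, 2),
      (278, 36), (284, -12), (336, -14), (368, 2), (372, 4), (411, -14), (417, -2)],
      [(24, -3), (37, -3), (50, -3), (56, -79), (60, -82), (63, -3), (69, -115), (73, 33), (76,
      -3), (79, -85), (86, -139), (96, -137), (109, -3), (125, -15), (204, 30), (223, -5), (240,
      3), (272, -13), (279, 30), (285, 5), (324, -79), (363, 169), (369, 5), (409, -42), (415,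
      -2), (422, -30), (428, -5)],
      [(110, 6), (218, 6), (228, -12), (267, 6), (273, 6), (277, -6), (283, 6), (361, -60), (367,
      18), (384, 12), (416, -6), (429, -6)],
      [(108, -18), (216, -18)],
      [(56, -18), (60, -18), (69, -18), (79, -18), (86, -18), (96, -36), (324, -18), (363, 18),
      (409, -18)],
      [(361, -18)],
      [(36, -6), (49, -6), (62, -6), (72, -26), (75, -6), (108, 16), (121, -8), (124, -12), (134,
      -24), (137, -12), (193, 20), (216, 56), (219, -20), (225, -8), (252, 8), (271, 8), (278,
      36), (284, -12), (336, -20), (368, -10), (372, -2), (411, -20), (417, -8)],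
      [(24, -3), (37, -3), (50, -3), (56, -1), (60, -4), (63, -3), (69, -1), (73, -3), (76, -3),
      (79, 29), (86, 11), (96, 19), (109, -3), (125, -15), (204, 30), (223, -11), (240, 3), (272,
      -7), (279, 30), (285, -7), (324, -1), (363, 19), (369, -7), (409, 30), (415, -8), (422,
      -30), (428, 7)]],
    [[(96, 18), (109, -18)],
      [],
      [],
      [(56, 36), (60, 36), (69, 54), (73, -18), (79, 54), (86, 72), (96, 72), (324, 36), (363,
      -90), (409, 36)],
      [],
      [],
      [],
      [(110, 6), (218, 6), (228, -12), (267, 6), (273, 6), (277, -6), (283, 6), (361, -6), (384,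
      12), (416, -6), (429, -6)],
      [],
      [(56, -6), (60, -6), (69, -6), (79, -6), (86, -6), (96, -12), (223, 6), (272, -6), (285,
      12), (324, -6), (363, 6), (369, -6), (415, 6), (428, -12)],
      [],
      []],
    [[(108, 18)],
      [],
      [(110, -18), (218, -18), (267, -18), (361, 18), (410, 18)],
      [(81, 18), (85, 18), (206, 18), (219, -18)],
      [],
      [],
      [],
      [(56, 6), (60, 6), (69, 6), (79, 6), (86, 6), (96, 12), (223, -6), (272, -12), (285, 6),
      (324, 6), (363, -6), (369, 6), (415, 12), (428, -6)],
      [],
      [(72, 6), (108, 6), (121, 6), (193, -6), (216, -6), (219, 6), (225, -12), (252, -6), (271,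
      -6), (336, 6), (368, 12), (372, 6), (411, 6), (417, 6)],
      [],
      []],
    [[],
      [],
      [],
      [(110, -36), (218, -18), (267, -18), (361, 18), (410, 18)],
      [],
      [],
      [],
      [(72, -6), (108, 12), (121, -6), (193, 6), (216, 6), (219, -6), (225, -6), (252, -12),
      (271, 6), (336, -6), (368, 6), (372, 12), (411, -6), (417, -6)],
      [],
      [(110, -6), (218, -6), (228, -6), (267, -6), (273, 12), (277, 6), (283, -6), (361, 6),
      (384, 6), (416, -12), (429, 6)],
      [],
      []],
    [[],
      [],
      [(85, -18), (121, -18)],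
      [(56, -54), (60, -54), (69, -72), (73, 18), (79, -54), (86, -90), (96, -90), (204, 18),
      (279, 18), (324, -54), (363, 108), (409, -36), (422, -18)],
      [(48, -6), (61, -6), (67, 6), (74, -6), (80, 6), (110, 6), (123, -18), (192, 6), (267, 6),
      (361, -6), (410, -6)],
      [(36, 3), (49, 3), (62, 3), (72, 19), (75, 3), (85, 9), (108, 7), (121, 1), (124, -3),
      (134, 30), (137, 15), (193, -16), (216, -16), (219, 16), (225, 1), (252, -1), (271, -1),
      (278, -45), (284, 15), (336, 16), (368, -1), (372, -2), (411, 16), (417, 1)],
      [(56, 102), (60, 102), (69, 138), (73, -36), (79, 102), (86, 174), (96, 168), (204, -36),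
      (223, 6), (272, 12), (279, -36), (285, -6), (324, 102), (363, -210), (369, -6), (409, 54),
      (415, 6), (422, 36), (428, 6)],
      [(110, -18), (218, -18), (267, -18), (361, 18)],
      [(72, -18), (121, -18), (193, 18), (216, 18), (219, -18), (336, -18), (411, -18)],
      [],
      [(48, -6), (61, -6), (67, 6), (74, -6), (80, 6), (110, 42), (123, -18), (192, 6), (218,
      36), (267, 42), (361, -42), (410, -6), (416, -18)],
      [(36, 3), (49, 3), (62, 3), (72, 67), (75, 3), (85, -27), (108, 19), (121, 13), (124, -3),
      (134, 30), (137, 15), (193, -64), (216, -64), (219, 64), (225, -5), (252, -13), (271, -13),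
      (278, -45), (284, 15), (336, 64), (368, 5), (372, 10), (411, 64), (417, -5)]],
    [[],
      [],
      [(110, 18), (264, 18), (277, -18), (410, -18), (423, 18)],
      [(85, -36), (121, -18), (134, -18)],
      [(56, -72), (60, -72), (69, -90), (73, 18), (79, -72), (86, -126), (96, -126), (109, 18),
      (135, -18), (204, 18), (279, 18), (324, -72), (363, 144), (409, -54), (422, -18)],
      [(48, -12), (61, -12), (67, 12), (74, -12), (80, 12), (110, 12), (123, -18), (136, -18),
      (192, 12), (267, 12), (361, -12), (410, -12)],
      [(72, 18), (85, 18), (134, 36), (193, -18), (216, -18), (219, 18), (278, -54), (284, 18),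
      (336, 18), (411, 18)],
      [(409, 18), (422, -18)],
      [(110, -18), (218, -18), (264, 18), (267, -18), (277, -18), (361, 18)],
      [(85, -18), (121, -18), (278, -18)],
      [(56, -72), (60, -72), (69, -90), (73, 18), (79, -72), (86, -126), (96, -126), (109, 18),
      (135, -18), (204, 18), (279, 18), (324, -72), (363, 144), (409, -72), (422, 18), (428,
      -18)],
      [(48, -12), (61, -12), (67, 12), (74, -12), (80, 12), (110, 78), (123, -18), (136, -18),
      (192, 12), (218, 30), (228, -6), (267, 42), (273, 12), (277, 6), (283, -6), (361, -42),
      (384, 6), (410, -48), (416, -12), (423, 36), (429, -12)]]]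
  A := [[[(12, 3), (25, 3), (38, 3), (48, 3), (51, 3), (61, 3), (64, 3), (67, -9), (74, 3), (77, 3),
      (80, -9), (110, -8), (192, -9), (218, 1), (228, -2), (267, -8), (273, 1), (277, -1), (283,
      1), (361, -1), (367, 3), (384, -1), (410, 9), (416, -1), (429, -1)],
      [(24, 3), (37, 3), (50, 3), (56, -5), (60, -2), (63, 3), (69, -5), (73, 3), (76, 3), (79,
      1), (86, 1), (96, 5), (109, 3), (125, -3), (204, 6), (223, -1), (240, -3), (272, 1), (279,
      6), (285, 1), (324, -5), (363, 5), (369, 1), (409, 6), (415, -4), (422, -6), (428, -1)],
      [(36, 3), (49, 3), (62, 3), (72, 1), (75, 3), (85, 9), (108, 7), (121, 1), (124, -3), (134,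
      -6), (137, -3), (193, 2), (216, 2), (219, -2), (225, 1), (252, -1), (271, -1), (278, 9),
      (284, -3), (336, -2), (368, -1), (372, -2), (411, -2), (417, 1)],
      [(48, 6), (61, 6), (67, -6), (74, 6), (80, -6), (110, -6), (192, -6), (267, -6), (361, 6),
      (410, 6)],
      [(56, 18), (60, 18), (69, 18), (79, 18), (86, 36), (96, 36), (324, 18), (363, -36), (409,
      18)],
      [(85, 18)],
      [],
      [(109, 18)],
      [],
      [(110, 18), (133, 18), (264, 18), (277, -18), (410, -18), (423, 18)],
      [(109, 18), (132, 18)]],
    [[],
      [],
      [(81, 18), (85, 18), (108, -18), (206, 18), (216, -18)],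
      [(110, -12), (218, 6), (228, 6), (267, -12), (273, 6), (277, -6), (283, 6), (361, -6),
      (384, -6), (410, 18), (416, -6), (429, -6)],
      [(56, -12), (60, -12), (69, -12), (79, 6), (86, -12), (96, -6), (204, 18), (223, -6), (272,
      6), (285, 6), (324, -12), (363, 12), (369, 6), (415, -6), (428, -6)],
      [],
      [(110, 6), (218, 6), (228, 6), (267, 6), (273, 6), (277, -6), (283, 6), (361, -6), (384,
      -6), (416, -6), (429, -6)],
      [(56, 6), (60, 6), (69, 6), (79, 6), (86, 6), (96, 12), (223, -6), (272, 6), (285, 6),
      (324, 6), (363, -6), (369, 6), (409, 18), (415, -6), (428, -6)],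
      [],
      [(110, -12), (218, -12), (228, 6), (264, 18), (267, -12), (273, 6), (277, -6), (283, 6),
      (361, 12), (384, -6), (416, -6), (429, -6)],
      [(56, 6), (60, 6), (69, 6), (79, 6), (86, 6), (96, -6), (109, 18), (223, -6), (272, 6),
      (276, 18), (285, 6), (324, 6), (363, -6), (369, 6), (409, 36), (415, -6), (422, -18), (428,
      -6)]],
    [[],
      [],
      [],
      [(72, 24), (81, 18), (108, 6), (121, 6), (193, -24), (206, 18), (216, -24), (219, 6), (225,
      6), (252, -6), (271, -6), (336, 24), (368, -6), (372, 6), (411, 6), (417, 6)],
      [],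
      [],
      [(72, 6), (108, 6), (121, 6), (193, -6), (216, -6), (219, 6), (225, 6), (252, -6), (271,
      -6), (336, 6), (368, -6), (372, 6), (411, 6), (417, 6)],
      [],
      [(409, 18)],
      [(72, -12), (108, -12), (121, -12), (193, 12), (216, 12), (219, -12), (225, 6), (252, 12),
      (271, -6), (284, -18), (336, -12), (368, -6), (372, -12), (411, -12), (417, 6), (427, 18)],
      [(110, -18), (218, -18), (264, 18), (267, -18), (277, -18), (361, 18), (420, 18)]]]
  W := [[[],
      [],
      [],
      [],
      [],
      [[],
       [],
       [],
       [],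
       [],
       [],
       [],
       [],
       [(61, 18)]],
      [],
      [[(60, 18), (73, 18), (122, -18), (265, 18)]],
      [[],
       [(122, 18), (265, -18)],
       [(74, 18)]],
      [],
      [[(60, -18), (73, -18), (122, 18), (132, -18), (265, -18), (278, 18)],
       [],
       [(72, 18), (121, -18), (134, -18), (192, -18), (205, -18), (218, -18), (264, 18), (277,
      18)],
       [],
       [],
       [],
       [],
       [(61, 18), (74, 18), (204, -18), (217, -18), (266, 18)],
       [(192, -18), (205, -18), (218, -18), (264, 18)],
       [(122, 18)]],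
      [[],
       [],
       [],
       [],
       [],
       [],
       [],
       [(278, 18)],
       [(61, -18), (74, -18), (120, 18), (133, 18), (204, 18), (217, 18), (266, -18)],
       [(277, 18)]]],
    [[],
      [],
      [],
      [[(48, 18)]],
      [],
      [[],
       [(73, 18), (122, -18), (265, 18)]],
      [[],
       [(72, -18)],
       [],
       [],
       [],
       [],
       [],
       [],
       [(360, 18)]],
      [],
      [],
      [],
      [[],
       [(61, 18), (74, 18), (120, -18), (204, -18), (217, -18), (266, 18)],
       [(72, 18), (121, -18), (192, -18), (205, -18), (218, -18), (264, 18)]],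
      []],
    [[],
      [],
      [],
      [],
      [[],
       [(205, 18), (218, 18)]],
      [[(60, -18), (73, -18), (122, 18), (216, 18), (265, -18)],
       [(61, 18), (204, -18)],
       [(218, 18)]],
      [[(192, -18), (205, -18), (218, -18)],
       [],
       [(61, 18), (204, -18), (217, -18)]],
      [],
      [],
      [[(408, 18)]],
      [[(420, 18)]],
      [[],
       [(61, -18), (74, -18), (120, 18), (133, 18), (204, 18), (217, 18), (266, -18), (276, -18),
      (420, 18)]]]]

theorem ce0_ck : ce0.ckW bs dl 12 0 = true := by decide +kernel

/-- certificate -/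
def ce1 : Cer where
  den := 1
  N := [[],
    [[(24, 1), (37, 1), (50, 1), (128, 2)],
      [],
      [],
      [],
      [],
      [],
      [],
      [],
      [],
      [],
      [],
      []],
    [[(36, 1), (49, 1), (81, -1)],
      [(37, 1), (50, 1), (128, 1)],
      [],
      [],
      [],
      [],
      [],
      [],
      [],
      [],
      [],
      []],
    [[],
      [(49, 1), (81, -1)],
      [(50, 1)],
      [],
      [],
      [],
      [],
      [],
      [],
      [],
      [],
      []],
    [[(60, 1), (73, 1), (128, 2)],
      [],
      [],
      [],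
      [],
      [],
      [],
      [(80, 1), (84, -1), (192, -1), (205, 1)],
      [(68, 1), (81, -1)],
      [(69, 1), (73, -1), (79, 1)],
      [],
      []],
    [[(72, 1), (81, 1)],
      [(73, 1), (128, 1)],
      [(48, 1), (61, -1)],
      [(62, -1), (81, 1)],
      [(63, -1)],
      [],
      [],
      [(79, 1), (128, 1)],
      [(80, 1)],
      [],
      [],
      []],
    [[],
      [],
      [],
      [(48, 2), (61, -1), (74, -1)],
      [(62, -1), (75, -1), (81, 2)],
      [(63, -1), (76, -1)],
      [],
      [],
      [],
      [],
      [],
      []],
    [[(79, -1), (128, -1), (204, -1), (217, 1)],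
      [],
      [(81, -1), (85, -1)],
      [],
      [],
      [],
      [],
      [],
      [],
      [],
      [],
      []],
    [[(68, -1), (72, -1), (336, -1), (349, 1)],
      [],
      [(80, 1), (205, 1), (218, -1)],
      [],
      [],
      [],
      [],
      [],
      [],
      [],
      [],
      []],
    [[(84, 1)],
      [],
      [(217, 1), (266, 1)],
      [],
      [],
      [],
      [],
      [],
      [],
      [],
      [],
      []],
    [[],
      [],
      [(81, 1), (121, -1)],
      [(122, -1), (128, 1)],
      [(48, -3), (61, 1), (74, 1), (123, -1)],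
      [(62, 1), (75, 1), (81, -3), (124, -1)],
      [],
      [(129, -1)],
      [(127, -1)],
      [],
      [],
      []],
    [[],
      [(217, -1), (266, -1), (409, -1), (422, 1)],
      [(84, -1), (133, -1), (139, 1), (264, 1), (277, -1)],
      [(81, 2), (121, -1), (134, -1)],
      [(122, -1), (128, 2), (135, -1)],
      [(48, -4), (61, 1), (74, 1), (123, -1), (136, -1)],
      [],
      [],
      [(84, -1), (129, -1), (264, 1), (277, -1)],
      [(85, -1), (121, -1), (127, -1), (265, 1), (278, -1)],
      [],
      []]]
  A := [[[],
      [],
      [],
      [(48, 1)],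
      [],
      [(81, -1)],
      [],
      [(128, 1)],
      [],
      [(84, -1), (139, 1), (264, 1), (277, -1)],
      [(128, 1), (132, 1), (217, -1), (266, -1), (409, -1), (422, 1)]],
    [[],
      [],
      [],
      [],
      [],
      [(127, 1), (265, -1)],
      [(80, -1), (205, -1)],
      [(217, -1)],
      [],
      [(80, -1), (84, -1), (129, -1), (205, -1), (264, 1)],
      [(79, 1), (128, 1), (204, 1), (217, -2), (276, 1)]],
    [[],
      [],
      [],
      [(349, 1)],
      [],
      [],
      [],
      [(80, -1), (129, -1), (205, -1), (218, 1), (410, 1)],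
      [(409, 1)],
      [(85, -1), (121, -1), (127, -1), (265, 1), (278, -1), (421, 1)],
      [(80, -1), (84, -2), (129, -2), (205, -1), (218, 1), (264, 1), (277, -1), (410, 1), (420,
      1)]]]
  W := [[[],
      [],
      [],
      [],
      [],
      [[],
       [],
       [],
       [],
       [],
       [],
       [],
       [(60, 1)]],
      [],
      [],
      [[(72, 1)],
       [(73, 1)]],
      [[(204, 1)],
       [(121, -1)]],
      [[(132, -1)]],
      [[],
       [],
       [],
       [],
       [],
       [],
       [],
       [],
       [(133, 1)],
       [(121, -1), (277, 1)]]],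
    [[],
      [],
      [],
      [],
      [],
      [],
      [[(120, -1), (204, -1)]],
      [],
      [],
      [],
      [],
      []],
    [[],
      [],
      [],
      [],
      [],
      [[(73, -1), (216, 1), (265, -1)]],
      [[(72, -1), (264, -1)],
       [(73, -1), (265, -1)],
       [(217, -1)]],
      [],
      [],
      [],
      [[(133, -1), (204, 1), (276, 1)]],
      []]]

theorem ce1_ck : ce1.ckW bs dl 12 1 = true := by decide +kernel

/-- certificate -/
def ce2 : Cer where
  den := 1
  N := [[],
    [[(24, 1), (37, 1), (50, 1), (128, 2)],
      [],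
      [],
      [],
      [],
      [],
      [],
      [],
      [],
      [],
      [],
      []],
    [[(36, 1), (49, 1), (81, -1)],
      [(37, 1), (50, 1), (128, 1)],
      [],
      [],
      [],
      [],
      [],
      [],
      [],
      [],
      [],
      []],
    [[],
      [(49, 1), (81, -1)],
      [(50, 1)],
      [],
      [],
      [],
      [],
      [],
      [],
      [],
      [],
      []],
    [[(60, 1), (73, 1), (128, 2)],
      [],
      [],
      [],
      [],
      [],
      [],
      [(80, 1), (84, -1), (192, -1), (205, 1)],
      [(68, 1), (81, -1)],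
      [(69, 1), (73, -1), (79, 1)],
      [],
      []],
    [[(72, 1), (81, 1)],
      [(73, 1), (128, 1)],
      [(48, 1), (61, -1)],
      [(62, -1), (81, 1)],
      [(63, -1)],
      [],
      [],
      [(79, 1), (128, 1)],
      [(80, 1)],
      [],
      [],
      []],
    [[],
      [],
      [],
      [(48, 2), (61, -1), (74, -1)],
      [(62, -1), (75, -1), (81, 2)],
      [(63, -1), (76, -1)],
      [],
      [],
      [],
      [],
      [],
      []],
    [[(79, -1), (128, -1), (204, -1), (217, 1)],
      [],
      [(81, -1), (85, -1)],
      [],
      [],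
      [],
      [],
      [],
      [],
      [],
      [],
      []],
    [[(68, -1), (72, -1), (336, -1), (349, 1)],
      [],
      [(80, 1), (205, 1), (218, -1)],
      [],
      [],
      [],
      [],
      [],
      [],
      [],
      [],
      []],
    [[(84, 1)],
      [],
      [(217, 1), (266, 1)],
      [],
      [],
      [],
      [],
      [],
      [],
      [],
      [],
      []],
    [[],
      [],
      [(81, 1), (121, -1)],
      [(122, -1), (128, 1)],
      [(48, -3), (61, 1), (74, 1), (123, -1)],
      [(62, 1), (75, 1), (81, -3), (124, -1)],
      [],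
      [(129, -1)],
      [(127, -1)],
      [],
      [],
      []],
    [[],
      [(217, -1), (266, -1), (409, -1), (422, 1)],
      [(84, -1), (133, -1), (139, 1), (264, 1), (277, -1)],
      [(81, 2), (121, -1), (134, -1)],
      [(122, -1), (128, 2), (135, -1)],
      [(48, -4), (61, 1), (74, 1), (123, -1), (136, -1)],
      [],
      [],
      [(84, -1), (129, -1), (264, 1), (277, -1)],
      [(85, -1), (121, -1), (127, -1), (265, 1), (278, -1)],
      [],
      []]]
  A := [[[],
      [],
      [],
      [(48, 1)],
      [],
      [(81, -1)],
      [],
      [(128, 1)],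
      [],
      [(84, -1), (139, 1), (264, 1), (277, -1)],
      [(128, 1), (132, 1), (217, -1), (266, -1), (409, -1), (422, 1)]],
    [[],
      [],
      [],
      [],
      [],
      [(127, 1), (265, -1)],
      [(80, -1), (205, -1)],
      [(217, -1)],
      [],
      [(80, -1), (84, -1), (129, -1), (205, -1), (264, 1)],
      [(79, 1), (128, 1), (204, 1), (217, -2), (276, 1)]],
    [[],
      [],
      [],
      [(349, 1)],
      [],
      [],
      [],
      [(80, -1), (129, -1), (205, -1), (218, 1), (410, 1)],
      [(409, 1)],
      [(85, -1), (121, -1), (127, -1), (265, 1), (278, -1), (421, 1)],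
      [(80, -1), (84, -2), (129, -2), (205, -1), (218, 1), (264, 1), (277, -1), (410, 1), (420,
      1)]]]
  W := [[[],
      [],
      [],
      [],
      [],
      [[],
       [],
       [],
       [],
       [],
       [],
       [],
       [(60, 1)]],
      [],
      [],
      [[(72, 1)],
       [(73, 1)]],
      [[(204, 1)],
       [(121, -1)]],
      [[(132, -1)]],
      [[],
       [],
       [],
       [],
       [],
       [],
       [],
       [],
       [(133, 1)],
       [(121, -1), (277, 1)]]],
    [[],
      [],
      [],
      [],
      [],
      [],
      [[(120, -1), (204, -1)]],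
      [],
      [],
      [],
      [],
      []],
    [[],
      [],
      [],
      [],
      [],
      [[(73, -1), (216, 1), (265, -1)]],
      [[(72, -1), (264, -1)],
       [(73, -1), (265, -1)],
       [(217, -1)]],
      [],
      [],
      [],
      [[(133, -1), (204, 1), (276, 1)]],
      []]]

theorem ce2_ck : ce2.ckW bs dl 12 2 = true := by decide +kernel

/-- certificate -/
def ce3 : Cer where
  den := 1
  N := [[],
    [],
    [[(36, 1)],
      [],
      [],
      [],
      [],
      [],
      [],
      [],
      [],
      [],
      [],
      []],
    [[(48, 1)],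
      [],
      [],
      [],
      [],
      [],
      [],
      [],
      [],
      [],
      [],
      []],
    [[(60, 1), (73, 1), (122, -1)],
      [],
      [],
      [],
      [],
      [],
      [],
      [],
      [],
      [],
      [],
      []],
    [[(49, 1), (72, 1)],
      [(73, 1), (122, -1)],
      [(61, -1)],
      [(49, 1), (62, -1)],
      [],
      [],
      [],
      [(79, 1), (128, -1), (409, 1)],
      [(80, 1), (120, 1), (129, -1), (139, -1)],
      [(49, -1), (81, 1), (127, -1)],
      [],
      []],
    [[],
      [],
      [(122, -1)],
      [(61, -1), (74, -1)],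
      [(49, 2), (62, -1), (75, -1)],
      [],
      [],
      [(127, -1)],
      [(128, -1), (409, 1)],
      [(120, 1), (129, -1), (139, -1)],
      [],
      []],
    [[(96, 1)],
      [],
      [],
      [],
      [],
      [],
      [],
      [],
      [],
      [],
      [],
      []],
    [],
    [[(84, 1)],
      [(108, -1)],
      [],
      [],
      [],
      [],
      [],
      [],
      [],
      [],
      [],
      []],
    [[],
      [],
      [(49, 1), (121, -1)],
      [],
      [(61, 1), (74, 1), (123, -1)],
      [],
      [],
      [(120, -1), (139, 1)],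
      [],
      [(409, -1)],
      [],
      []],
    [[],
      [(79, 1), (96, 2), (128, -1), (141, 1), (204, 1), (276, -1), (409, 2)],
      [(120, 1), (133, -1)],
      [(49, 2), (121, -1), (134, -1)],
      [(135, -1)],
      [],
      [],
      [(79, 1), (96, 2), (128, -1), (204, 1), (276, -1), (409, 1)],
      [],
      [(140, -1)],
      [],
      []]]
  A := [[[],
      [],
      [],
      [],
      [],
      [(49, -1)],
      [],
      [],
      [],
      [(120, 1)],
      [(79, 1), (96, 2), (128, -1), (132, 1), (141, 1), (204, 1), (276, -1), (409, 2)]],
    [[],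
      [],
      [],
      [],
      [],
      [(108, -1), (265, -1)],
      [(84, 1), (120, 1), (139, -1), (264, -1)],
      [(79, -1), (96, -1), (128, 1), (204, -1), (409, -1)],
      [],
      [],
      []],
    [[],
      [],
      [],
      [],
      [],
      [],
      [],
      [(120, -1), (129, 1), (139, 1), (361, -1)],
      [],
      [(108, 1), (140, -1), (421, 1)],
      [(84, -1), (120, -1), (129, 1), (139, 1), (361, -1), (420, 1)]]]
  W := [[[],
      [],
      [],
      [],
      [],
      [],
      [],
      [],
      [],
      [],
      [],
      []],
    [[],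
      [],
      [],
      [],
      [],
      [],
      [[(120, -1)],
       [(72, -1)]],
      [],
      [],
      [],
      [],
      [[],
       [(132, -1)]]],
    [[],
      [],
      [],
      [],
      [],
      [[(216, 1)]],
      [[(264, -1)]],
      [],
      [],
      [],
      [[(276, 1)]],
      []]]

theorem ce3_ck : ce3.ckW bs dl 12 3 = true := by decide +kernel

/-- certificate -/
def ce4 : Cer where
  den := 1
  N := [[],
    [],
    [[(36, 1)],
      [],
      [],
      [],
      [],
      [],
      [],
      [],
      [],
      [],
      [],
      []],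
    [[(48, 1)],
      [],
      [],
      [],
      [],
      [],
      [],
      [],
      [],
      [],
      [],
      []],
    [[(60, 1), (73, 1), (122, -1)],
      [],
      [],
      [],
      [],
      [],
      [],
      [],
      [],
      [],
      [],
      []],
    [[(49, 1), (72, 1)],
      [(73, 1), (122, -1)],
      [(61, -1)],
      [(49, 1), (62, -1)],
      [],
      [],
      [],
      [(79, 1), (128, -1), (409, 1)],
      [(80, 1), (120, 1), (129, -1), (139, -1)],
      [(49, -1), (81, 1), (127, -1)],
      [],
      []],
    [[],
      [],
      [(122, -1)],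
      [(61, -1), (74, -1)],
      [(49, 2), (62, -1), (75, -1)],
      [],
      [],
      [(127, -1)],
      [(128, -1), (409, 1)],
      [(120, 1), (129, -1), (139, -1)],
      [],
      []],
    [[(96, 1)],
      [],
      [],
      [],
      [],
      [],
      [],
      [],
      [],
      [],
      [],
      []],
    [],
    [[(84, 1)],
      [(108, -1)],
      [],
      [],
      [],
      [],
      [],
      [],
      [],
      [],
      [],
      []],
    [[],
      [],
      [(49, 1), (121, -1)],
      [],
      [(61, 1), (74, 1), (123, -1)],
      [],
      [],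
      [(120, -1), (139, 1)],
      [],
      [(409, -1)],
      [],
      []],
    [[],
      [(79, 1), (96, 2), (128, -1), (141, 1), (204, 1), (276, -1), (409, 2)],
      [(120, 1), (133, -1)],
      [(49, 2), (121, -1), (134, -1)],
      [(135, -1)],
      [],
      [],
      [(79, 1), (96, 2), (128, -1), (204, 1), (276, -1), (409, 1)],
      [],
      [(140, -1)],
      [],
      []]]
  A := [[[],
      [],
      [],
      [],
      [],
      [(49, -1)],
      [],
      [],
      [],
      [(120, 1)],
      [(79, 1), (96, 2), (128, -1), (132, 1), (141, 1), (204, 1), (276, -1), (409, 2)]],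
    [[],
      [],
      [],
      [],
      [],
      [(108, -1), (265, -1)],
      [(84, 1), (120, 1), (139, -1), (264, -1)],
      [(79, -1), (96, -1), (128, 1), (204, -1), (409, -1)],
      [],
      [],
      []],
    [[],
      [],
      [],
      [],
      [],
      [],
      [],
      [(120, -1), (129, 1), (139, 1), (361, -1)],
      [],
      [(108, 1), (140, -1), (421, 1)],
      [(84, -1), (120, -1), (129, 1), (139, 1), (361, -1), (420, 1)]]]
  W := [[[],
      [],
      [],
      [],
      [],
      [],
      [],
      [],
      [],
      [],
      [],
      []],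
    [[],
      [],
      [],
      [],
      [],
      [],
      [[(120, -1)],
       [(72, -1)]],
      [],
      [],
      [],
      [],
      [[],
       [(132, -1)]]],
    [[],
      [],
      [],
      [],
      [],
      [[(216, 1)]],
      [[(264, -1)]],
      [],
      [],
      [],
      [[(276, 1)]],
      []]]

theorem ce4_ck : ce4.ckW bs dl 12 4 = true := by decide +kernel

/-- certificate -/
def ce5 : Cer where
  den := 1
  N := [[],
    [],
    [],
    [],
    [[(60, 1)],
      [(61, 1)],
      [],
      [],
      [],
      [],
      [],
      [],
      [],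
      [],
      [],
      []],
    [[(72, 1), (121, -1)],
      [],
      [],
      [],
      [],
      [],
      [],
      [],
      [],
      [],
      [],
      []],
    [[(48, -1), (61, -1)],
      [(121, -1)],
      [(73, -1)],
      [(74, -1)],
      [],
      [],
      [],
      [],
      [(360, -1)],
      [],
      [],
      []],
    [],
    [],
    [],
    [[],
      [],
      [],
      [(73, 1), (122, -1)],
      [],
      [],
      [],
      [],
      [],
      [],
      [],
      []],
    [[],
      [(132, -1)],
      [(48, -1), (61, -1), (120, 1), (133, -1)],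
      [(134, -1)],
      [],
      [],
      [],
      [],
      [],
      [],
      [],
      []]]
  A := [[[],
      [],
      [],
      [],
      [],
      [],
      [],
      [],
      [],
      [(48, -1), (61, -1), (120, 1)],
      []],
    [[],
      [],
      [],
      [],
      [],
      [],
      [],
      [(276, -1)],
      [(216, -1)],
      [(264, 1)],
      []],
    [[],
      [],
      [],
      [],
      [],
      [],
      [],
      [(420, -1)],
      [],
      [(408, 1)],
      []]]
  W := [[[],
      [],
      [],
      [],
      [],
      [],
      [],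
      [],
      [],
      [],
      [],
      []],
    [[],
      [],
      [],
      [],
      [],
      [],
      [],
      [],
      [],
      [],
      [],
      []],
    [[],
      [],
      [],
      [],
      [],
      [],
      [],
      [],
      [],
      [],
      [],
      []]]

theorem ce5_ck : ce5.ckW bs dl 12 5 = true := by decide +kernel

/-- certificate -/
def ce6 : Cer where
  den := 1
  N := [[],
    [],
    [],
    [],
    [[(60, 1)],
      [(61, 1)],
      [],
      [],
      [],
      [],
      [],
      [],
      [],
      [],
      [],
      []],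
    [[(72, 1), (121, -1)],
      [],
      [],
      [],
      [],
      [],
      [],
      [],
      [],
      [],
      [],
      []],
    [[(48, -1), (61, -1)],
      [(121, -1)],
      [(73, -1)],
      [(74, -1)],
      [],
      [],
      [],
      [],
      [(360, -1)],
      [],
      [],
      []],
    [],
    [],
    [],
    [[],
      [],
      [],
      [(73, 1), (122, -1)],
      [],
      [],
      [],
      [],
      [],
      [],
      [],
      []],
    [[],
      [(132, -1)],
      [(48, -1), (61, -1), (120, 1), (133, -1)],
      [(134, -1)],
      [],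
      [],
      [],
      [],
      [],
      [],
      [],
      []]]
  A := [[[],
      [],
      [],
      [],
      [],
      [],
      [],
      [],
      [],
      [(48, -1), (61, -1), (120, 1)],
      []],
    [[],
      [],
      [],
      [],
      [],
      [],
      [],
      [(276, -1)],
      [(216, -1)],
      [(264, 1)],
      []],
    [[],
      [],
      [],
      [],
      [],
      [],
      [],
      [(420, -1)],
      [],
      [(408, 1)],
      []]]
  W := [[[],
      [],
      [],
      [],
      [],
      [],
      [],
      [],
      [],
      [],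
      [],
      []],
    [[],
      [],
      [],
      [],
      [],
      [],
      [],
      [],
      [],
      [],
      [],
      []],
    [[],
      [],
      [],
      [],
      [],
      [],
      [],
      [],
      [],
      [],
      [],
      []]]

theorem ce6_ck : ce6.ckW bs dl 12 6 = true := by decide +kernel

/-- certificate -/
def ce7 : Cer where
  den := 1
  N := [[],
    [],
    [],
    [],
    [[(60, 1)],
      [],
      [],
      [],
      [],
      [],
      [],
      [],
      [],
      [],
      [],
      []],
    [[(72, 1)],
      [],
      [],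
      [],
      [],
      [],
      [],
      [],
      [],
      [],
      [],
      []],
    [[],
      [],
      [(73, -1)],
      [],
      [],
      [],
      [],
      [],
      [],
      [],
      [],
      []],
    [],
    [],
    [],
    [[],
      [(120, -1)],
      [(121, -1)],
      [],
      [],
      [],
      [],
      [],
      [],
      [],
      [],
      []],
    [[],
      [],
      [(120, -1), (133, -1)],
      [],
      [],
      [],
      [],
      [],
      [],
      [],
      [],
      []]]
  A := [[[],
      [],
      [],
      [],
      [],
      [],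
      [],
      [],
      [],
      [],
      [(132, 1)]],
    [],
    []]
  W := [[[],
      [],
      [],
      [],
      [],
      [],
      [],
      [],
      [],
      [],
      [],
      []],
    [[],
      [],
      [],
      [],
      [],
      [],
      [],
      [],
      [],
      [],
      [],
      []],
    [[],
      [],
      [],
      [],
      [],
      [],
      [],
      [],
      [],
      [],
      [],
      []]]

theorem ce7_ck : ce7.ckW bs dl 12 7 = true := by decide +kernel

/-- certificate -/
def ce8 : Cer where
  den := 1
  N := [[],
    [],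
    [],
    [],
    [[(60, 1)],
      [],
      [],
      [],
      [],
      [],
      [],
      [],
      [],
      [],
      [],
      []],
    [[(72, 1)],
      [],
      [],
      [],
      [],
      [],
      [],
      [],
      [],
      [],
      [],
      []],
    [[],
      [],
      [(73, -1)],
      [],
      [],
      [],
      [],
      [],
      [],
      [],
      [],
      []],
    [],
    [],
    [],
    [[],
      [(120, -1)],
      [(121, -1)],
      [],
      [],
      [],
      [],
      [],
      [],
      [],
      [],
      []],
    [[],
      [],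
      [(120, -1), (133, -1)],
      [],
      [],
      [],
      [],
      [],
      [],
      [],
      [],
      []]]
  A := [[[],
      [],
      [],
      [],
      [],
      [],
      [],
      [],
      [],
      [],
      [(132, 1)]],
    [],
    []]
  W := [[[],
      [],
      [],
      [],
      [],
      [],
      [],
      [],
      [],
      [],
      [],
      []],
    [[],
      [],
      [],
      [],
      [],
      [],
      [],
      [],
      [],
      [],
      [],
      []],
    [[],
      [],
      [],
      [],
      [],
      [],
      [],
      [],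
      [],
      [],
      [],
      []]]

theorem ce8_ck : ce8.ckW bs dl 12 8 = true := by decide +kernel

/-- certificate -/
def ce9 : Cer where
  den := 1
  N := [[],
    [],
    [],
    [],
    [],
    [],
    [],
    [],
    [],
    [],
    [[],
      [(120, -1)],
      [],
      [],
      [],
      [],
      [],
      [],
      [],
      [],
      [],
      []],
    []]
  A := [[[],
      [],
      [],
      [],
      [],
      [],
      [],
      [],
      [(72, -1)],
      [],
      [(132, 1)]],
    [],
    []]
  W := [[[],
      [],
      [],
      [],
      [],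
      [],
      [],
      [],
      [],
      [],
      [],
      []],
    [[],
      [],
      [],
      [],
      [],
      [],
      [],
      [],
      [],
      [],
      [],
      []],
    [[],
      [],
      [],
      [],
      [],
      [],
      [],
      [],
      [],
      [],
      [],
      []]]

theorem ce9_ck : ce9.ckW bs dl 12 9 = true := by decide +kernel

/-- certificate -/
def ce10 : Cer where
  den := 1
  N := [[],
    [],
    [],
    [],
    [],
    [],
    [],
    [],
    [],
    [],
    [[],
      [(120, -1)],
      [],
      [],
      [],
      [],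
      [],
      [],
      [],
      [],
      [],
      []],
    []]
  A := [[[],
      [],
      [],
      [],
      [],
      [],
      [],
      [],
      [(72, -1)],
      [],
      [(132, 1)]],
    [],
    []]
  W := [[[],
      [],
      [],
      [],
      [],
      [],
      [],
      [],
      [],
      [],
      [],
      []],
    [[],
      [],
      [],
      [],
      [],
      [],
      [],
      [],
      [],
      [],
      [],
      []],
    [[],
      [],
      [],
      [],
      [],
      [],
      [],
      [],
      [],
      [],
      [],
      []]]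

theorem ce10_ck : ce10.ckW bs dl 12 10 = true := by decide +kernel

end Pool.Agent.Lib.D13.C221_7
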