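import Pool.Agent.Lib.D13.FdcMono

/-!
# MP_5dcbc3_ag: certificate at a monomial base point

`k[t] / t ^ 10`, operators `t ^ a` for a = 3, 2, 1, levels of the powers: 0, 0, 1, 1, 1, 2, 2, 2, 3, 3.
-/

namespace Pool.Agent.Lib.D13

open Matrix Pool.Agent.Lib.Q5dc Pool.Agent.Lib.D7 Pool.Agent.Lib.D9.DensX

namespace C2332

/-- the levels -/
def w : Fin (9 + 1) → ℕ := ![0, 0, 1, 1, 1, 2, 2, 2, 3, 3]

/-- the exponents -/
def av : Fin 3 → ℕ := ![3, 2, 1]

variable {k : Type*} [Field k] [CharZero k]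

/-- the matrix of the certificate -/
def N1 (e : Fin 3 → Matrix (Fin (9 + 1)) (Fin (9 + 1)) k) : Matrix (Fin (9 + 1)) (Fin (9 + 1)) k :=
  !![e 0 3 0 + e 0 6 3 - 2 * e 0 7 4 - 2 * e 0 8 5 + 2 * e 0 9 6 + 2 * e 1 8 6 - 2 * e 1 9 7,
     e 0 3 1 + e 0 6 4 + e 0 9 7, 0, 0, 0, 0, 0, 0, 0, 0;
     e 0 4 0 - e 0 5 1 + e 1 4 1 + (1 / 2) * e 1 7 4 - (1 / 2) * e 1 8 5 + (1 / 2) * e 1 9 6 + e 2 5 3 - (1 / 2) * e 2 6 4 - (1 / 2) * e 2 9 7,
     e 0 4 1 - e 0 7 4 - e 0 8 5 + e 0 9 6 + e 1 8 6 - e 1 9 7, 0, 0, 0, 0, 0, 0, 0, 0;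
     2 * e 0 5 0 - e 0 6 1 - e 0 7 2 - e 1 4 0 + e 1 5 1 + 3 * e 2 6 3 + 2 * e 2 7 4, e 1 4 1,
     e 0 5 2 - e 0 7 4 - e 0 8 5 + e 0 9 6 + e 1 8 6 - e 1 9 7, -e 0 2 0,
     -(2 / 3) * e 0 2 1 + (1 / 3) * e 0 5 4 + (1 / 3) * e 0 8 7, 0, 0, 0, 0, 0;
     e 0 6 0 - 2 * e 0 7 1 + e 0 8 2 + e 1 6 1 - e 1 8 3 + e 2 5 1 + 2 * e 2 7 3,
     e 0 5 0 - e 0 7 2 - e 1 4 0 + e 1 5 1 + 2 * e 2 6 3 + 2 * e 2 7 4,
     e 1 4 1 - (1 / 2) * e 1 7 4 + (1 / 2) * e 1 8 5 - (1 / 2) * e 1 9 6 - e 2 3 1 + (1 / 2) * e 2 6 4 + (1 / 2) * e 2 9 7,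
     e 0 6 3 - e 0 7 4 - e 0 8 5 + e 0 9 6 + e 1 8 6 - e 1 9 7, e 0 6 4 + e 0 9 7, 0, 0, 0, 0, 0;
     e 1 6 0 - e 1 8 2 + e 2 7 2 + e 2 8 3,
     -e 0 7 1 + e 0 8 2 + e 1 6 1 - e 1 8 3 + e 2 5 1 + e 2 7 3,
     e 0 5 0 - e 0 6 1 - e 1 4 0 + e 1 5 1 + 2 * e 2 6 3 + e 2 7 4, 0, 0, 0, 0, 0, 0, 0;
     e 2 6 0, e 1 6 0 - e 1 8 2 - e 2 5 0 + e 2 7 2 + e 2 8 3,
     -e 0 7 1 + e 0 8 2 + e 1 6 1 - e 1 8 3 + e 2 7 3, e 2 6 3 + e 2 7 4,
     -(1 / 2) * e 1 7 4 + (1 / 2) * e 1 8 5 - (1 / 2) * e 1 9 6 - e 2 5 3 + (1 / 2) * e 2 6 4 + (1 / 2) * e 2 9 7,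
     0, -e 0 2 0 - e 0 5 3, -(1 / 3) * e 0 2 1 - (1 / 3) * e 0 5 4 + (2 / 3) * e 0 8 7, 0, 0;
     e 2 7 0, 0, 0, 0, e 2 7 4, -e 1 7 4 + e 1 8 5 - e 1 9 6 - e 2 5 3 + e 2 9 7, 0, e 0 9 7,
     0, 0;
     e 2 8 0, 0, -e 2 7 1, -e 2 7 2, -e 2 7 3, 0,
     -(3 / 2) * e 1 7 4 + (1 / 2) * e 1 8 5 - (1 / 2) * e 1 9 6 - e 2 5 3 + (1 / 2) * e 2 6 4 + (1 / 2) * e 2 9 7,
     e 0 8 5 - e 0 9 6 - e 1 8 6 + e 1 9 7, 0, 0;
     0, 0, -e 2 8 1, e 1 7 0 - e 1 8 1 - e 2 6 0 - e 2 7 1, -e 2 7 2 - e 2 8 3,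
     e 0 7 1 - e 0 8 2 - e 2 5 1 - e 2 7 3, -e 0 5 0 + e 0 7 2 + e 1 4 0 - e 1 8 4 - e 2 6 3,
     -e 1 7 4 - e 1 9 6 - e 2 5 3 + e 2 9 7, e 0 7 4 - e 0 9 6 - e 1 8 6 + e 1 9 7,
     -e 0 2 0 - e 0 5 3 - e 0 8 6;
     0, -e 2 9 0, -e 2 9 1, -e 2 8 1 - e 2 9 2,
     e 1 7 0 - e 1 8 1 - e 2 6 0 - e 2 7 1 - e 2 9 3, -e 2 7 2 - e 2 8 3 - e 2 9 4,
     e 0 7 1 - e 0 8 2 - e 2 5 1 - e 2 7 3 - e 2 9 5,
     -e 0 5 0 + e 0 7 2 + e 1 4 0 - e 1 8 4 - e 2 6 3 - e 2 9 6,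
     -(3 / 2) * e 1 7 4 + (1 / 2) * e 1 8 5 - (3 / 2) * e 1 9 6 - e 2 5 3 + (1 / 2) * e 2 6 4 + (1 / 2) * e 2 9 7,
     e 0 7 4 + e 0 8 5 - 2 * e 0 9 6 - e 1 8 6 + e 1 9 7]

/-- the polynomials of the certificate -/
def a1 (e : Fin 3 → Matrix (Fin (9 + 1)) (Fin (9 + 1)) k) : Fin 3 → Fin (9 + 1) → k :=
  ![![0, (1 / 3) * e 0 2 1 + (1 / 3) * e 0 5 4 + (1 / 3) * e 0 8 7, 0,
     e 0 7 4 + e 0 8 5 - e 0 9 6 - e 1 8 6 + e 1 9 7,
     e 0 5 1 - e 1 4 1 - (1 / 2) * e 1 7 4 + (1 / 2) * e 1 8 5 - (1 / 2) * e 1 9 6 - e 2 5 3 + (1 / 2) * e 2 6 4 + (1 / 2) * e 2 9 7,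
     -e 0 5 0 + e 0 6 1 + e 0 7 2 + e 1 4 0 - e 1 5 1 - 2 * e 2 6 3 - e 2 7 4,
     2 * e 0 7 1 - e 0 8 2 - e 1 6 1 + e 1 8 3 - e 2 5 1 - 2 * e 2 7 3,
     e 0 7 0 - e 1 6 0 + e 1 8 2 - 2 * e 2 7 2 - e 2 8 3,
     e 0 8 0 + e 1 7 0 - e 1 8 1 - 2 * e 2 6 0 - e 2 7 1, e 0 9 0 - e 2 7 0 - e 2 8 1 - e 2 9 2],
    ![0, -e 0 2 0 - e 0 5 3 - e 0 8 6 - e 0 9 7 + e 1 8 7, e 0 7 4 - e 0 9 6 + e 1 9 7, 0,
     -e 0 5 0 + e 0 7 2 + e 1 4 0 - e 2 6 3 - e 2 7 4,
     e 0 7 1 - e 0 8 2 + e 1 8 3 - e 2 5 1 - e 2 7 3, e 1 8 2 - e 2 7 2 - e 2 8 3,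
     e 1 7 0 - e 2 6 0 - e 2 7 1, e 1 8 0 - e 2 7 0 - e 2 8 1, e 1 9 0 - e 2 8 0 - e 2 9 1],
    ![0, e 0 7 4 - e 0 8 5 + e 2 8 7,
     -(1 / 2) * e 1 7 4 + (1 / 2) * e 1 8 5 - (1 / 2) * e 1 9 6 + (1 / 2) * e 2 6 4 + (1 / 2) * e 2 9 7,
     0, 0, 0, 0, 0, 0, 0]]

theorem cert1 : Cert w (Sh k 9) (fun i => Sh k 9 ^ av i) 1 := by
  refine cert_mono w av 1 N1 a1 (fun e i => by fin_cases i <;> rfl) ?_
  intro e hz hc
  have c_0_1_5_0 : e 1 2 0 + e 0 5 2 - e 0 3 0 - e 1 5 3 = 0 := hc 0 1 5 0 (by decide)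
  have c_0_1_5_1 : e 1 2 1 + e 0 5 3 - e 0 3 1 - e 1 5 4 = 0 := hc 0 1 5 1 (by decide)
  have c_0_1_6_0 : e 1 3 0 + e 0 6 2 - e 0 4 0 - e 1 6 3 = 0 := hc 0 1 6 0 (by decide)
  have c_0_1_6_1 : e 1 3 1 + e 0 6 3 - e 0 4 1 - e 1 6 4 = 0 := hc 0 1 6 1 (by decide)
  have c_0_1_7_0 : e 1 4 0 + e 0 7 2 - e 0 5 0 - e 1 7 3 = 0 := hc 0 1 7 0 (by decide)
  have c_0_1_7_1 : e 1 4 1 + e 0 7 3 - e 0 5 1 - e 1 7 4 = 0 := hc 0 1 7 1 (by decide)
  have c_0_1_8_0 : e 1 5 0 + e 0 8 2 - e 0 6 0 - e 1 8 3 = 0 := hc 0 1 8 0 (by decide)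
  have c_0_1_8_1 : e 1 5 1 + e 0 8 3 - e 0 6 1 - e 1 8 4 = 0 := hc 0 1 8 1 (by decide)
  have c_0_1_8_2 : e 1 5 2 + e 0 8 4 - e 0 6 2 - e 1 8 5 = 0 := hc 0 1 8 2 (by decide)
  have c_0_1_8_3 : e 1 5 3 + e 0 8 5 - e 0 6 3 - e 1 8 6 = 0 := hc 0 1 8 3 (by decide)
  have c_0_1_8_4 : e 1 5 4 + e 0 8 6 - e 0 6 4 - e 1 8 7 = 0 := hc 0 1 8 4 (by decide)
  have c_0_1_9_0 : e 1 6 0 + e 0 9 2 - e 0 7 0 - e 1 9 3 = 0 := hc 0 1 9 0 (by decide)
  have c_0_1_9_1 : e 1 6 1 + e 0 9 3 - e 0 7 1 - e 1 9 4 = 0 := hc 0 1 9 1 (by decide)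
  have c_0_1_9_2 : e 1 6 2 + e 0 9 4 - e 0 7 2 - e 1 9 5 = 0 := hc 0 1 9 2 (by decide)
  have c_0_1_9_3 : e 1 6 3 + e 0 9 5 - e 0 7 3 - e 1 9 6 = 0 := hc 0 1 9 3 (by decide)
  have c_0_1_9_4 : e 1 6 4 + e 0 9 6 - e 0 7 4 - e 1 9 7 = 0 := hc 0 1 9 4 (by decide)
  have c_0_2_5_0 : e 2 2 0 + e 0 5 1 - e 0 4 0 - e 2 5 3 = 0 := hc 0 2 5 0 (by decide)
  have c_0_2_5_1 : e 2 2 1 + e 0 5 2 - e 0 4 1 - e 2 5 4 = 0 := hc 0 2 5 1 (by decide)
  have c_0_2_6_0 : e 2 3 0 + e 0 6 1 - e 0 5 0 - e 2 6 3 = 0 := hc 0 2 6 0 (by decide)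
  have c_0_2_6_1 : e 2 3 1 + e 0 6 2 - e 0 5 1 - e 2 6 4 = 0 := hc 0 2 6 1 (by decide)
  have c_0_2_7_0 : e 2 4 0 + e 0 7 1 - e 0 6 0 - e 2 7 3 = 0 := hc 0 2 7 0 (by decide)
  have c_0_2_7_1 : e 2 4 1 + e 0 7 2 - e 0 6 1 - e 2 7 4 = 0 := hc 0 2 7 1 (by decide)
  have c_0_2_8_0 : e 2 5 0 + e 0 8 1 - e 0 7 0 - e 2 8 3 = 0 := hc 0 2 8 0 (by decide)
  have c_0_2_8_1 : e 2 5 1 + e 0 8 2 - e 0 7 1 - e 2 8 4 = 0 := hc 0 2 8 1 (by decide)
  have c_0_2_8_2 : e 2 5 2 + e 0 8 3 - e 0 7 2 - e 2 8 5 = 0 := hc 0 2 8 2 (by decide)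
  have c_0_2_8_3 : e 2 5 3 + e 0 8 4 - e 0 7 3 - e 2 8 6 = 0 := hc 0 2 8 3 (by decide)
  have c_0_2_8_4 : e 2 5 4 + e 0 8 5 - e 0 7 4 - e 2 8 7 = 0 := hc 0 2 8 4 (by decide)
  have c_0_2_9_0 : e 2 6 0 + e 0 9 1 - e 0 8 0 - e 2 9 3 = 0 := hc 0 2 9 0 (by decide)
  have c_0_2_9_1 : e 2 6 1 + e 0 9 2 - e 0 8 1 - e 2 9 4 = 0 := hc 0 2 9 1 (by decide)
  have c_0_2_9_2 : e 2 6 2 + e 0 9 3 - e 0 8 2 - e 2 9 5 = 0 := hc 0 2 9 2 (by decide)
  have c_0_2_9_3 : e 2 6 3 + e 0 9 4 - e 0 8 3 - e 2 9 6 = 0 := hc 0 2 9 3 (by decide)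
  have c_0_2_9_4 : e 2 6 4 + e 0 9 5 - e 0 8 4 - e 2 9 7 = 0 := hc 0 2 9 4 (by decide)
  have c_1_2_5_1 : e 2 3 1 + e 1 5 2 - e 1 4 1 - e 2 5 3 = 0 := hc 1 2 5 1 (by decide)
  have c_1_2_7_0 : e 2 5 0 + e 1 7 1 - e 1 6 0 - e 2 7 2 = 0 := hc 1 2 7 0 (by decide)
  have c_1_2_7_1 : e 2 5 1 + e 1 7 2 - e 1 6 1 - e 2 7 3 = 0 := hc 1 2 7 1 (by decide)
  have c_1_2_8_0 : e 2 6 0 + e 1 8 1 - e 1 7 0 - e 2 8 2 = 0 := hc 1 2 8 0 (by decide)
  have c_1_2_8_3 : e 2 6 3 + e 1 8 4 - e 1 7 3 - e 2 8 5 = 0 := hc 1 2 8 3 (by decide)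
  have c_1_2_9_0 : e 2 7 0 + e 1 9 1 - e 1 8 0 - e 2 9 2 = 0 := hc 1 2 9 0 (by decide)
  have c_1_2_9_1 : e 2 7 1 + e 1 9 2 - e 1 8 1 - e 2 9 3 = 0 := hc 1 2 9 1 (by decide)
  have c_1_2_9_2 : e 2 7 2 + e 1 9 3 - e 1 8 2 - e 2 9 4 = 0 := hc 1 2 9 2 (by decide)
  have c_1_2_9_3 : e 2 7 3 + e 1 9 4 - e 1 8 3 - e 2 9 5 = 0 := hc 1 2 9 3 (by decide)
  have c_1_2_9_4 : e 2 7 4 + e 1 9 5 - e 1 8 4 - e 2 9 6 = 0 := hc 1 2 9 4 (by decide)
  have p_1_2_0 : e 1 2 0 = e 0 3 0 - e 0 5 2 + e 0 6 3 - e 0 8 5 + e 1 8 6 := by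
    linear_combination c_0_1_5_0 + c_0_1_8_3
  have p_1_2_1 : e 1 2 1 = e 0 3 1 - e 0 5 3 + e 0 6 4 - e 0 8 6 + e 1 8 7 := by
    linear_combination c_0_1_5_1 + c_0_1_8_4
  have p_1_3_0 : e 1 3 0 = e 0 4 0 - e 0 5 1 + e 1 7 4 - e 1 8 5 + e 1 9 6 + e 2 3 1 + e 2 5 3 - e 2 6 4 - e 2 9 7 := by
    linear_combination c_0_1_6_0 + c_0_1_9_3 - c_0_2_9_4 + c_0_1_7_1 - c_0_1_8_2 - 2 * c_0_2_6_1 + c_1_2_5_1
  have p_1_3_1 : e 1 3 1 = e 0 4 1 - e 0 6 3 + e 0 7 4 - e 0 9 6 + e 1 9 7 := by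
    linear_combination c_0_1_6_1 + c_0_1_9_4
  have p_1_5_3 : e 1 5 3 = e 0 6 3 - e 0 8 5 + e 1 8 6 := by
    linear_combination c_0_1_8_3
  have p_1_5_4 : e 1 5 4 = e 0 6 4 - e 0 8 6 + e 1 8 7 := by
    linear_combination c_0_1_8_4
  have p_1_6_3 : e 1 6 3 = e 1 7 4 - e 1 8 5 + e 1 9 6 + e 2 5 3 - e 2 9 7 := by
    linear_combination c_0_1_9_3 - c_0_2_9_4 + c_0_1_7_1 - c_0_1_8_2 - c_0_2_6_1 + c_1_2_5_1
  have p_1_6_4 : e 1 6 4 = e 0 7 4 - e 0 9 6 + e 1 9 7 := by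
    linear_combination c_0_1_9_4
  have p_2_2_0 : e 2 2 0 = e 0 4 0 - e 0 5 1 + e 2 5 3 := by
    linear_combination c_0_2_5_0
  have p_2_2_1 : e 2 2 1 = e 0 4 1 - e 0 5 2 + e 0 7 4 - e 0 8 5 + e 2 8 7 := by
    linear_combination c_0_2_5_1 + c_0_2_8_4
  have p_2_5_4 : e 2 5 4 = e 0 7 4 - e 0 8 5 + e 2 8 7 := by
    linear_combination c_0_2_8_4
  have p_0_9_1 : e 0 9 1 = e 0 8 0 - e 2 6 0 + e 2 9 3 := by
    linear_combination c_0_2_9_0
  have p_0_9_5 : e 0 9 5 = e 0 5 1 - e 1 4 1 + e 1 8 5 - e 2 5 3 + e 2 9 7 := by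
    linear_combination c_0_2_9_4 + c_0_1_8_2 + c_0_2_6_1 - c_1_2_5_1
  have p_2_8_2 : e 2 8 2 = -e 1 7 0 + e 1 8 1 + e 2 6 0 := by
    linear_combination -c_1_2_8_0
  have p_1_9_1 : e 1 9 1 = e 1 8 0 - e 2 7 0 + e 2 9 2 := by
    linear_combination c_1_2_9_0
  have p_1_9_2 : e 1 9 2 = e 1 8 1 - e 2 7 1 + e 2 9 3 := by
    linear_combination c_1_2_9_1
  have p_1_7_3 : e 1 7 3 = -e 0 5 0 + e 0 7 2 + e 1 4 0 := by
    linear_combination -c_0_1_7_0
  have p_0_7_3 : e 0 7 3 = e 0 5 1 - e 1 4 1 + e 1 7 4 := by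
    linear_combination c_0_1_7_1
  have p_1_5_0 : e 1 5 0 = e 0 6 0 - e 0 8 2 + e 1 8 3 := by
    linear_combination c_0_1_8_0
  have p_0_8_4 : e 0 8 4 = e 0 5 1 - e 1 4 1 + e 1 8 5 - e 2 5 3 + e 2 6 4 := by
    linear_combination c_0_1_8_2 + c_0_2_6_1 - c_1_2_5_1
  have p_0_9_2 : e 0 9 2 = e 0 7 0 - e 1 6 0 + e 1 8 2 - e 2 7 2 + e 2 9 4 := by
    linear_combination c_0_1_9_0 + c_1_2_9_2
  have p_0_9_3 : e 0 9 3 = e 0 7 1 - e 1 6 1 + e 1 8 3 - e 2 7 3 + e 2 9 5 := by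
    linear_combination c_0_1_9_1 + c_1_2_9_3
  have p_0_9_4 : e 0 9 4 = e 0 6 1 - e 1 5 1 + e 1 8 4 - e 2 6 3 + e 2 9 6 := by
    linear_combination c_0_2_9_3 + c_0_1_8_1
  have p_2_3_0 : e 2 3 0 = e 0 5 0 - e 0 6 1 + e 2 6 3 := by
    linear_combination c_0_2_6_0
  have p_0_6_2 : e 0 6 2 = e 0 5 1 - e 2 3 1 + e 2 6 4 := by
    linear_combination c_0_2_6_1
  have p_2_4_0 : e 2 4 0 = e 0 6 0 - e 0 7 1 + e 2 7 3 := by
    linear_combination c_0_2_7_0
  have p_2_4_1 : e 2 4 1 = e 0 6 1 - e 0 7 2 + e 2 7 4 := by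
    linear_combination c_0_2_7_1
  have p_0_8_1 : e 0 8 1 = e 0 7 0 - e 2 5 0 + e 2 8 3 := by
    linear_combination c_0_2_8_0
  have p_2_8_4 : e 2 8 4 = -e 0 7 1 + e 0 8 2 + e 2 5 1 := by
    linear_combination -c_0_2_8_1
  have p_2_5_2 : e 2 5 2 = e 0 5 0 - e 0 6 1 - e 1 4 0 + e 1 5 1 + e 2 6 3 := by
    linear_combination c_0_2_8_2 - c_1_2_8_3 + c_0_1_7_0 - c_0_1_8_1
  have p_1_5_2 : e 1 5 2 = e 1 4 1 - e 2 3 1 + e 2 5 3 := by
    linear_combination c_1_2_5_1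
  have p_2_8_6 : e 2 8 6 = -e 1 7 4 + e 1 8 5 + e 2 6 4 := by
    linear_combination -c_0_2_8_3 - c_0_1_7_1 + c_0_1_8_2 + c_0_2_6_1 - c_1_2_5_1
  have p_1_7_1 : e 1 7 1 = e 1 6 0 - e 2 5 0 + e 2 7 2 := by
    linear_combination c_1_2_7_0
  have p_1_7_2 : e 1 7 2 = e 1 6 1 - e 2 5 1 + e 2 7 3 := by
    linear_combination c_1_2_7_1
  have p_1_9_3 : e 1 9 3 = e 1 8 2 - e 2 7 2 + e 2 9 4 := by
    linear_combination c_1_2_9_2
  have p_1_9_4 : e 1 9 4 = e 1 8 3 - e 2 7 3 + e 2 9 5 := by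
    linear_combination c_1_2_9_3
  have p_1_9_5 : e 1 9 5 = e 1 8 4 - e 2 7 4 + e 2 9 6 := by
    linear_combination c_1_2_9_4
  have p_2_6_1 : e 2 6 1 = e 1 6 0 - e 1 8 2 - e 2 5 0 + e 2 7 2 + e 2 8 3 := by
    linear_combination c_0_2_9_1 - c_0_1_9_0 + c_0_2_8_0 - c_1_2_9_2
  have p_1_6_2 : e 1 6 2 = -e 0 6 1 + e 0 7 2 + e 1 5 1 + e 2 6 3 - e 2 7 4 := by
    linear_combination -c_0_2_9_3 + c_0_1_9_2 + c_1_2_9_4 - c_0_1_8_1
  have p_2_8_5 : e 2 8 5 = e 0 5 0 - e 0 7 2 - e 1 4 0 + e 1 8 4 + e 2 6 3 := by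
    linear_combination -c_1_2_8_3 + c_0_1_7_0
  have p_0_8_3 : e 0 8 3 = e 0 6 1 - e 1 5 1 + e 1 8 4 := by
    linear_combination c_0_1_8_1
  have p_2_6_2 : e 2 6 2 = -e 0 7 1 + e 0 8 2 + e 1 6 1 - e 1 8 3 + e 2 7 3 := by
    linear_combination c_0_2_9_2 - c_0_1_9_1 - c_1_2_9_3
  have r_0_2_0 : 0 - (-e 0 2 0) + (0) = e 0 2 0 := by ring
  have r_0_2_1 : 0 - (-(2 / 3) * e 0 2 1 + (1 / 3) * e 0 5 4 + (1 / 3) * e 0 8 7) + ((1 / 3) * e 0 2 1 + (1 / 3) * e 0 5 4 + (1 / 3) * e 0 8 7) = e 0 2 1 := by ring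
  have r_0_3_0 : (e 0 3 0 + e 0 6 3 - 2 * e 0 7 4 - 2 * e 0 8 5 + 2 * e 0 9 6 + 2 * e 1 8 6 - 2 * e 1 9 7) - (e 0 6 3 - e 0 7 4 - e 0 8 5 + e 0 9 6 + e 1 8 6 - e 1 9 7) + (e 0 7 4 + e 0 8 5 - e 0 9 6 - e 1 8 6 + e 1 9 7) = e 0 3 0 := by ring
  have r_0_3_1 : (e 0 3 1 + e 0 6 4 + e 0 9 7) - (e 0 6 4 + e 0 9 7) + (0) = e 0 3 1 := by ring
  have r_0_4_0 : (e 0 4 0 - e 0 5 1 + e 1 4 1 + (1 / 2) * e 1 7 4 - (1 / 2) * e 1 8 5 + (1 / 2) * e 1 9 6 + e 2 5 3 - (1 / 2) * e 2 6 4 - (1 / 2) * e 2 9 7) - (0) + (e 0 5 1 - e 1 4 1 - (1 / 2) * e 1 7 4 + (1 / 2) * e 1 8 5 - (1 / 2) * e 1 9 6 - e 2 5 3 + (1 / 2) * e 2 6 4 + (1 / 2) * e 2 9 7) = e 0 4 0 := by ring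
  have r_0_4_1 : (e 0 4 1 - e 0 7 4 - e 0 8 5 + e 0 9 6 + e 1 8 6 - e 1 9 7) - (0) + (e 0 7 4 + e 0 8 5 - e 0 9 6 - e 1 8 6 + e 1 9 7) = e 0 4 1 := by ring
  have r_0_5_0 : (2 * e 0 5 0 - e 0 6 1 - e 0 7 2 - e 1 4 0 + e 1 5 1 + 3 * e 2 6 3 + 2 * e 2 7 4) - (e 2 6 3 + e 2 7 4) + (-e 0 5 0 + e 0 6 1 + e 0 7 2 + e 1 4 0 - e 1 5 1 - 2 * e 2 6 3 - e 2 7 4) = e 0 5 0 := by ring
  have r_0_5_1 : (e 1 4 1) - (-(1 / 2) * e 1 7 4 + (1 / 2) * e 1 8 5 - (1 / 2) * e 1 9 6 - e 2 5 3 + (1 / 2) * e 2 6 4 + (1 / 2) * e 2 9 7) + (e 0 5 1 - e 1 4 1 - (1 / 2) * e 1 7 4 + (1 / 2) * e 1 8 5 - (1 / 2) * e 1 9 6 - e 2 5 3 + (1 / 2) * e 2 6 4 + (1 / 2) * e 2 9 7) = e 0 5 1 := by ring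
  have r_0_5_2 : (e 0 5 2 - e 0 7 4 - e 0 8 5 + e 0 9 6 + e 1 8 6 - e 1 9 7) - (0) + (e 0 7 4 + e 0 8 5 - e 0 9 6 - e 1 8 6 + e 1 9 7) = e 0 5 2 := by ring
  have r_0_5_3 : (-e 0 2 0) - (-e 0 2 0 - e 0 5 3) + (0) = e 0 5 3 := by ring
  have r_0_5_4 : (-(2 / 3) * e 0 2 1 + (1 / 3) * e 0 5 4 + (1 / 3) * e 0 8 7) - (-(1 / 3) * e 0 2 1 - (1 / 3) * e 0 5 4 + (2 / 3) * e 0 8 7) + ((1 / 3) * e 0 2 1 + (1 / 3) * e 0 5 4 + (1 / 3) * e 0 8 7) = e 0 5 4 := by ring
  have r_0_6_0 : (e 0 6 0 - 2 * e 0 7 1 + e 0 8 2 + e 1 6 1 - e 1 8 3 + e 2 5 1 + 2 * e 2 7 3) - (0) + (2 * e 0 7 1 - e 0 8 2 - e 1 6 1 + e 1 8 3 - e 2 5 1 - 2 * e 2 7 3) = e 0 6 0 := by ring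
  have r_0_6_1 : (e 0 5 0 - e 0 7 2 - e 1 4 0 + e 1 5 1 + 2 * e 2 6 3 + 2 * e 2 7 4) - (e 2 7 4) + (-e 0 5 0 + e 0 6 1 + e 0 7 2 + e 1 4 0 - e 1 5 1 - 2 * e 2 6 3 - e 2 7 4) = e 0 6 1 := by ring
  have r_0_6_2 : (e 1 4 1 - (1 / 2) * e 1 7 4 + (1 / 2) * e 1 8 5 - (1 / 2) * e 1 9 6 - e 2 3 1 + (1 / 2) * e 2 6 4 + (1 / 2) * e 2 9 7) - (-e 1 7 4 + e 1 8 5 - e 1 9 6 - e 2 5 3 + e 2 9 7) + (e 0 5 1 - e 1 4 1 - (1 / 2) * e 1 7 4 + (1 / 2) * e 1 8 5 - (1 / 2) * e 1 9 6 - e 2 5 3 + (1 / 2) * e 2 6 4 + (1 / 2) * e 2 9 7) = e 0 6 2 := by rw [p_0_6_2]; ring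
  have r_0_6_3 : (e 0 6 3 - e 0 7 4 - e 0 8 5 + e 0 9 6 + e 1 8 6 - e 1 9 7) - (0) + (e 0 7 4 + e 0 8 5 - e 0 9 6 - e 1 8 6 + e 1 9 7) = e 0 6 3 := by ring
  have r_0_6_4 : (e 0 6 4 + e 0 9 7) - (e 0 9 7) + (0) = e 0 6 4 := by ring
  have r_0_7_0 : (e 1 6 0 - e 1 8 2 + e 2 7 2 + e 2 8 3) - (-e 2 7 2) + (e 0 7 0 - e 1 6 0 + e 1 8 2 - 2 * e 2 7 2 - e 2 8 3) = e 0 7 0 := by ring
  have r_0_7_1 : (-e 0 7 1 + e 0 8 2 + e 1 6 1 - e 1 8 3 + e 2 5 1 + e 2 7 3) - (-e 2 7 3) + (2 * e 0 7 1 - e 0 8 2 - e 1 6 1 + e 1 8 3 - e 2 5 1 - 2 * e 2 7 3) = e 0 7 1 := by ring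
  have r_0_7_2 : (e 0 5 0 - e 0 6 1 - e 1 4 0 + e 1 5 1 + 2 * e 2 6 3 + e 2 7 4) - (0) + (-e 0 5 0 + e 0 6 1 + e 0 7 2 + e 1 4 0 - e 1 5 1 - 2 * e 2 6 3 - e 2 7 4) = e 0 7 2 := by ring
  have r_0_7_3 : (0) - (-(3 / 2) * e 1 7 4 + (1 / 2) * e 1 8 5 - (1 / 2) * e 1 9 6 - e 2 5 3 + (1 / 2) * e 2 6 4 + (1 / 2) * e 2 9 7) + (e 0 5 1 - e 1 4 1 - (1 / 2) * e 1 7 4 + (1 / 2) * e 1 8 5 - (1 / 2) * e 1 9 6 - e 2 5 3 + (1 / 2) * e 2 6 4 + (1 / 2) * e 2 9 7) = e 0 7 3 := by rw [p_0_7_3]; ring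
  have r_0_7_4 : (0) - (e 0 8 5 - e 0 9 6 - e 1 8 6 + e 1 9 7) + (e 0 7 4 + e 0 8 5 - e 0 9 6 - e 1 8 6 + e 1 9 7) = e 0 7 4 := by ring
  have r_0_8_0 : (e 2 6 0) - (e 1 7 0 - e 1 8 1 - e 2 6 0 - e 2 7 1) + (e 0 8 0 + e 1 7 0 - e 1 8 1 - 2 * e 2 6 0 - e 2 7 1) = e 0 8 0 := by ring
  have r_0_8_1 : (e 1 6 0 - e 1 8 2 - e 2 5 0 + e 2 7 2 + e 2 8 3) - (-e 2 7 2 - e 2 8 3) + (e 0 7 0 - e 1 6 0 + e 1 8 2 - 2 * e 2 7 2 - e 2 8 3) = e 0 8 1 := by rw [p_0_8_1]; ring
  have r_0_8_2 : (-e 0 7 1 + e 0 8 2 + e 1 6 1 - e 1 8 3 + e 2 7 3) - (e 0 7 1 - e 0 8 2 - e 2 5 1 - e 2 7 3) + (2 * e 0 7 1 - e 0 8 2 - e 1 6 1 + e 1 8 3 - e 2 5 1 - 2 * e 2 7 3) = e 0 8 2 := by ring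
  have r_0_8_3 : (e 2 6 3 + e 2 7 4) - (-e 0 5 0 + e 0 7 2 + e 1 4 0 - e 1 8 4 - e 2 6 3) + (-e 0 5 0 + e 0 6 1 + e 0 7 2 + e 1 4 0 - e 1 5 1 - 2 * e 2 6 3 - e 2 7 4) = e 0 8 3 := by rw [p_0_8_3]; ring
  have r_0_8_4 : (-(1 / 2) * e 1 7 4 + (1 / 2) * e 1 8 5 - (1 / 2) * e 1 9 6 - e 2 5 3 + (1 / 2) * e 2 6 4 + (1 / 2) * e 2 9 7) - (-e 1 7 4 - e 1 9 6 - e 2 5 3 + e 2 9 7) + (e 0 5 1 - e 1 4 1 - (1 / 2) * e 1 7 4 + (1 / 2) * e 1 8 5 - (1 / 2) * e 1 9 6 - e 2 5 3 + (1 / 2) * e 2 6 4 + (1 / 2) * e 2 9 7) = e 0 8 4 := by rw [p_0_8_4]; ring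
  have r_0_8_5 : (0) - (e 0 7 4 - e 0 9 6 - e 1 8 6 + e 1 9 7) + (e 0 7 4 + e 0 8 5 - e 0 9 6 - e 1 8 6 + e 1 9 7) = e 0 8 5 := by ring
  have r_0_8_6 : (-e 0 2 0 - e 0 5 3) - (-e 0 2 0 - e 0 5 3 - e 0 8 6) + (0) = e 0 8 6 := by ring
  have r_0_8_7 : (-(1 / 3) * e 0 2 1 - (1 / 3) * e 0 5 4 + (2 / 3) * e 0 8 7) - 0 + ((1 / 3) * e 0 2 1 + (1 / 3) * e 0 5 4 + (1 / 3) * e 0 8 7) = e 0 8 7 := by ring
  have r_0_9_0 : (e 2 7 0) - (-e 2 8 1 - e 2 9 2) + (e 0 9 0 - e 2 7 0 - e 2 8 1 - e 2 9 2) = e 0 9 0 := by ring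
  have r_0_9_1 : (0) - (e 1 7 0 - e 1 8 1 - e 2 6 0 - e 2 7 1 - e 2 9 3) + (e 0 8 0 + e 1 7 0 - e 1 8 1 - 2 * e 2 6 0 - e 2 7 1) = e 0 9 1 := by rw [p_0_9_1]; ring
  have r_0_9_2 : (0) - (-e 2 7 2 - e 2 8 3 - e 2 9 4) + (e 0 7 0 - e 1 6 0 + e 1 8 2 - 2 * e 2 7 2 - e 2 8 3) = e 0 9 2 := by rw [p_0_9_2]; ring
  have r_0_9_3 : (0) - (e 0 7 1 - e 0 8 2 - e 2 5 1 - e 2 7 3 - e 2 9 5) + (2 * e 0 7 1 - e 0 8 2 - e 1 6 1 + e 1 8 3 - e 2 5 1 - 2 * e 2 7 3) = e 0 9 3 := by rw [p_0_9_3]; ring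
  have r_0_9_4 : (e 2 7 4) - (-e 0 5 0 + e 0 7 2 + e 1 4 0 - e 1 8 4 - e 2 6 3 - e 2 9 6) + (-e 0 5 0 + e 0 6 1 + e 0 7 2 + e 1 4 0 - e 1 5 1 - 2 * e 2 6 3 - e 2 7 4) = e 0 9 4 := by rw [p_0_9_4]; ring
  have r_0_9_5 : (-e 1 7 4 + e 1 8 5 - e 1 9 6 - e 2 5 3 + e 2 9 7) - (-(3 / 2) * e 1 7 4 + (1 / 2) * e 1 8 5 - (3 / 2) * e 1 9 6 - e 2 5 3 + (1 / 2) * e 2 6 4 + (1 / 2) * e 2 9 7) + (e 0 5 1 - e 1 4 1 - (1 / 2) * e 1 7 4 + (1 / 2) * e 1 8 5 - (1 / 2) * e 1 9 6 - e 2 5 3 + (1 / 2) * e 2 6 4 + (1 / 2) * e 2 9 7) = e 0 9 5 := by rw [p_0_9_5]; ring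
  have r_0_9_6 : (0) - (e 0 7 4 + e 0 8 5 - 2 * e 0 9 6 - e 1 8 6 + e 1 9 7) + (e 0 7 4 + e 0 8 5 - e 0 9 6 - e 1 8 6 + e 1 9 7) = e 0 9 6 := by ring
  have r_0_9_7 : (e 0 9 7) - 0 + (0) = e 0 9 7 := by ring
  have r_1_2_0 : (e 0 3 0 + e 0 6 3 - 2 * e 0 7 4 - 2 * e 0 8 5 + 2 * e 0 9 6 + 2 * e 1 8 6 - 2 * e 1 9 7) - (e 0 5 2 - e 0 7 4 - e 0 8 5 + e 0 9 6 + e 1 8 6 - e 1 9 7) + (e 0 7 4 - e 0 9 6 + e 1 9 7) = e 1 2 0 := by rw [p_1_2_0]; ring
  have r_1_2_1 : (e 0 3 1 + e 0 6 4 + e 0 9 7) - (-e 0 2 0) + (-e 0 2 0 - e 0 5 3 - e 0 8 6 - e 0 9 7 + e 1 8 7) = e 1 2 1 := by rw [p_1_2_1]; ring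
  have r_1_3_0 : (e 0 4 0 - e 0 5 1 + e 1 4 1 + (1 / 2) * e 1 7 4 - (1 / 2) * e 1 8 5 + (1 / 2) * e 1 9 6 + e 2 5 3 - (1 / 2) * e 2 6 4 - (1 / 2) * e 2 9 7) - (e 1 4 1 - (1 / 2) * e 1 7 4 + (1 / 2) * e 1 8 5 - (1 / 2) * e 1 9 6 - e 2 3 1 + (1 / 2) * e 2 6 4 + (1 / 2) * e 2 9 7) + (0) = e 1 3 0 := by rw [p_1_3_0]; ring
  have r_1_3_1 : (e 0 4 1 - e 0 7 4 - e 0 8 5 + e 0 9 6 + e 1 8 6 - e 1 9 7) - (e 0 6 3 - e 0 7 4 - e 0 8 5 + e 0 9 6 + e 1 8 6 - e 1 9 7) + (e 0 7 4 - e 0 9 6 + e 1 9 7) = e 1 3 1 := by rw [p_1_3_1]; ring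
  have r_1_4_0 : (2 * e 0 5 0 - e 0 6 1 - e 0 7 2 - e 1 4 0 + e 1 5 1 + 3 * e 2 6 3 + 2 * e 2 7 4) - (e 0 5 0 - e 0 6 1 - e 1 4 0 + e 1 5 1 + 2 * e 2 6 3 + e 2 7 4) + (-e 0 5 0 + e 0 7 2 + e 1 4 0 - e 2 6 3 - e 2 7 4) = e 1 4 0 := by ring
  have r_1_4_1 : (e 1 4 1) - (0) + (0) = e 1 4 1 := by ring
  have r_1_5_0 : (e 0 6 0 - 2 * e 0 7 1 + e 0 8 2 + e 1 6 1 - e 1 8 3 + e 2 5 1 + 2 * e 2 7 3) - (-e 0 7 1 + e 0 8 2 + e 1 6 1 - e 1 8 3 + e 2 7 3) + (e 0 7 1 - e 0 8 2 + e 1 8 3 - e 2 5 1 - e 2 7 3) = e 1 5 0 := by rw [p_1_5_0]; ring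
  have r_1_5_1 : (e 0 5 0 - e 0 7 2 - e 1 4 0 + e 1 5 1 + 2 * e 2 6 3 + 2 * e 2 7 4) - (e 2 6 3 + e 2 7 4) + (-e 0 5 0 + e 0 7 2 + e 1 4 0 - e 2 6 3 - e 2 7 4) = e 1 5 1 := by ring
  have r_1_5_2 : (e 1 4 1 - (1 / 2) * e 1 7 4 + (1 / 2) * e 1 8 5 - (1 / 2) * e 1 9 6 - e 2 3 1 + (1 / 2) * e 2 6 4 + (1 / 2) * e 2 9 7) - (-(1 / 2) * e 1 7 4 + (1 / 2) * e 1 8 5 - (1 / 2) * e 1 9 6 - e 2 5 3 + (1 / 2) * e 2 6 4 + (1 / 2) * e 2 9 7) + (0) = e 1 5 2 := by rw [p_1_5_2]; ring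
  have r_1_5_3 : (e 0 6 3 - e 0 7 4 - e 0 8 5 + e 0 9 6 + e 1 8 6 - e 1 9 7) - (0) + (e 0 7 4 - e 0 9 6 + e 1 9 7) = e 1 5 3 := by rw [p_1_5_3]; ring
  have r_1_5_4 : (e 0 6 4 + e 0 9 7) - (-e 0 2 0 - e 0 5 3) + (-e 0 2 0 - e 0 5 3 - e 0 8 6 - e 0 9 7 + e 1 8 7) = e 1 5 4 := by rw [p_1_5_4]; ring
  have r_1_6_0 : (e 1 6 0 - e 1 8 2 + e 2 7 2 + e 2 8 3) - (0) + (e 1 8 2 - e 2 7 2 - e 2 8 3) = e 1 6 0 := by ring
  have r_1_6_1 : (-e 0 7 1 + e 0 8 2 + e 1 6 1 - e 1 8 3 + e 2 5 1 + e 2 7 3) - (0) + (e 0 7 1 - e 0 8 2 + e 1 8 3 - e 2 5 1 - e 2 7 3) = e 1 6 1 := by ring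
  have r_1_6_2 : (e 0 5 0 - e 0 6 1 - e 1 4 0 + e 1 5 1 + 2 * e 2 6 3 + e 2 7 4) - (e 2 7 4) + (-e 0 5 0 + e 0 7 2 + e 1 4 0 - e 2 6 3 - e 2 7 4) = e 1 6 2 := by rw [p_1_6_2]; ring
  have r_1_6_3 : (0) - (-e 1 7 4 + e 1 8 5 - e 1 9 6 - e 2 5 3 + e 2 9 7) + (0) = e 1 6 3 := by rw [p_1_6_3]; ring
  have r_1_6_4 : (0) - (0) + (e 0 7 4 - e 0 9 6 + e 1 9 7) = e 1 6 4 := by rw [p_1_6_4]; ring
  have r_1_7_0 : (e 2 6 0) - (-e 2 7 1) + (e 1 7 0 - e 2 6 0 - e 2 7 1) = e 1 7 0 := by ring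
  have r_1_7_1 : (e 1 6 0 - e 1 8 2 - e 2 5 0 + e 2 7 2 + e 2 8 3) - (-e 2 7 2) + (e 1 8 2 - e 2 7 2 - e 2 8 3) = e 1 7 1 := by rw [p_1_7_1]; ring
  have r_1_7_2 : (-e 0 7 1 + e 0 8 2 + e 1 6 1 - e 1 8 3 + e 2 7 3) - (-e 2 7 3) + (e 0 7 1 - e 0 8 2 + e 1 8 3 - e 2 5 1 - e 2 7 3) = e 1 7 2 := by rw [p_1_7_2]; ring
  have r_1_7_3 : (e 2 6 3 + e 2 7 4) - (0) + (-e 0 5 0 + e 0 7 2 + e 1 4 0 - e 2 6 3 - e 2 7 4) = e 1 7 3 := by rw [p_1_7_3]; ring
  have r_1_7_4 : (-(1 / 2) * e 1 7 4 + (1 / 2) * e 1 8 5 - (1 / 2) * e 1 9 6 - e 2 5 3 + (1 / 2) * e 2 6 4 + (1 / 2) * e 2 9 7) - (-(3 / 2) * e 1 7 4 + (1 / 2) * e 1 8 5 - (1 / 2) * e 1 9 6 - e 2 5 3 + (1 / 2) * e 2 6 4 + (1 / 2) * e 2 9 7) + (0) = e 1 7 4 := by ring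
  have r_1_8_0 : (e 2 7 0) - (-e 2 8 1) + (e 1 8 0 - e 2 7 0 - e 2 8 1) = e 1 8 0 := by ring
  have r_1_8_1 : (0) - (e 1 7 0 - e 1 8 1 - e 2 6 0 - e 2 7 1) + (e 1 7 0 - e 2 6 0 - e 2 7 1) = e 1 8 1 := by ring
  have r_1_8_2 : (0) - (-e 2 7 2 - e 2 8 3) + (e 1 8 2 - e 2 7 2 - e 2 8 3) = e 1 8 2 := by ring
  have r_1_8_3 : (0) - (e 0 7 1 - e 0 8 2 - e 2 5 1 - e 2 7 3) + (e 0 7 1 - e 0 8 2 + e 1 8 3 - e 2 5 1 - e 2 7 3) = e 1 8 3 := by ring
  have r_1_8_4 : (e 2 7 4) - (-e 0 5 0 + e 0 7 2 + e 1 4 0 - e 1 8 4 - e 2 6 3) + (-e 0 5 0 + e 0 7 2 + e 1 4 0 - e 2 6 3 - e 2 7 4) = e 1 8 4 := by ring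
  have r_1_8_5 : (-e 1 7 4 + e 1 8 5 - e 1 9 6 - e 2 5 3 + e 2 9 7) - (-e 1 7 4 - e 1 9 6 - e 2 5 3 + e 2 9 7) + (0) = e 1 8 5 := by ring
  have r_1_8_6 : (0) - (e 0 7 4 - e 0 9 6 - e 1 8 6 + e 1 9 7) + (e 0 7 4 - e 0 9 6 + e 1 9 7) = e 1 8 6 := by ring
  have r_1_8_7 : (e 0 9 7) - (-e 0 2 0 - e 0 5 3 - e 0 8 6) + (-e 0 2 0 - e 0 5 3 - e 0 8 6 - e 0 9 7 + e 1 8 7) = e 1 8 7 := by ring
  have r_1_9_0 : (e 2 8 0) - (-e 2 9 1) + (e 1 9 0 - e 2 8 0 - e 2 9 1) = e 1 9 0 := by ring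
  have r_1_9_1 : (0) - (-e 2 8 1 - e 2 9 2) + (e 1 8 0 - e 2 7 0 - e 2 8 1) = e 1 9 1 := by rw [p_1_9_1]; ring
  have r_1_9_2 : (-e 2 7 1) - (e 1 7 0 - e 1 8 1 - e 2 6 0 - e 2 7 1 - e 2 9 3) + (e 1 7 0 - e 2 6 0 - e 2 7 1) = e 1 9 2 := by rw [p_1_9_2]; ring
  have r_1_9_3 : (-e 2 7 2) - (-e 2 7 2 - e 2 8 3 - e 2 9 4) + (e 1 8 2 - e 2 7 2 - e 2 8 3) = e 1 9 3 := by rw [p_1_9_3]; ring
  have r_1_9_4 : (-e 2 7 3) - (e 0 7 1 - e 0 8 2 - e 2 5 1 - e 2 7 3 - e 2 9 5) + (e 0 7 1 - e 0 8 2 + e 1 8 3 - e 2 5 1 - e 2 7 3) = e 1 9 4 := by rw [p_1_9_4]; ring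
  have r_1_9_5 : (0) - (-e 0 5 0 + e 0 7 2 + e 1 4 0 - e 1 8 4 - e 2 6 3 - e 2 9 6) + (-e 0 5 0 + e 0 7 2 + e 1 4 0 - e 2 6 3 - e 2 7 4) = e 1 9 5 := by rw [p_1_9_5]; ring
  have r_1_9_6 : (-(3 / 2) * e 1 7 4 + (1 / 2) * e 1 8 5 - (1 / 2) * e 1 9 6 - e 2 5 3 + (1 / 2) * e 2 6 4 + (1 / 2) * e 2 9 7) - (-(3 / 2) * e 1 7 4 + (1 / 2) * e 1 8 5 - (3 / 2) * e 1 9 6 - e 2 5 3 + (1 / 2) * e 2 6 4 + (1 / 2) * e 2 9 7) + (0) = e 1 9 6 := by ring
  have r_1_9_7 : (e 0 8 5 - e 0 9 6 - e 1 8 6 + e 1 9 7) - (e 0 7 4 + e 0 8 5 - 2 * e 0 9 6 - e 1 8 6 + e 1 9 7) + (e 0 7 4 - e 0 9 6 + e 1 9 7) = e 1 9 7 := by ring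
  have r_2_2_0 : (e 0 4 0 - e 0 5 1 + e 1 4 1 + (1 / 2) * e 1 7 4 - (1 / 2) * e 1 8 5 + (1 / 2) * e 1 9 6 + e 2 5 3 - (1 / 2) * e 2 6 4 - (1 / 2) * e 2 9 7) - (e 1 4 1) + (-(1 / 2) * e 1 7 4 + (1 / 2) * e 1 8 5 - (1 / 2) * e 1 9 6 + (1 / 2) * e 2 6 4 + (1 / 2) * e 2 9 7) = e 2 2 0 := by rw [p_2_2_0]; ring
  have r_2_2_1 : (e 0 4 1 - e 0 7 4 - e 0 8 5 + e 0 9 6 + e 1 8 6 - e 1 9 7) - (e 0 5 2 - e 0 7 4 - e 0 8 5 + e 0 9 6 + e 1 8 6 - e 1 9 7) + (e 0 7 4 - e 0 8 5 + e 2 8 7) = e 2 2 1 := by rw [p_2_2_1]; ring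
  have r_2_3_0 : (2 * e 0 5 0 - e 0 6 1 - e 0 7 2 - e 1 4 0 + e 1 5 1 + 3 * e 2 6 3 + 2 * e 2 7 4) - (e 0 5 0 - e 0 7 2 - e 1 4 0 + e 1 5 1 + 2 * e 2 6 3 + 2 * e 2 7 4) + (0) = e 2 3 0 := by rw [p_2_3_0]; ring
  have r_2_3_1 : (e 1 4 1) - (e 1 4 1 - (1 / 2) * e 1 7 4 + (1 / 2) * e 1 8 5 - (1 / 2) * e 1 9 6 - e 2 3 1 + (1 / 2) * e 2 6 4 + (1 / 2) * e 2 9 7) + (-(1 / 2) * e 1 7 4 + (1 / 2) * e 1 8 5 - (1 / 2) * e 1 9 6 + (1 / 2) * e 2 6 4 + (1 / 2) * e 2 9 7) = e 2 3 1 := by ring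
  have r_2_4_0 : (e 0 6 0 - 2 * e 0 7 1 + e 0 8 2 + e 1 6 1 - e 1 8 3 + e 2 5 1 + 2 * e 2 7 3) - (-e 0 7 1 + e 0 8 2 + e 1 6 1 - e 1 8 3 + e 2 5 1 + e 2 7 3) + (0) = e 2 4 0 := by rw [p_2_4_0]; ring
  have r_2_4_1 : (e 0 5 0 - e 0 7 2 - e 1 4 0 + e 1 5 1 + 2 * e 2 6 3 + 2 * e 2 7 4) - (e 0 5 0 - e 0 6 1 - e 1 4 0 + e 1 5 1 + 2 * e 2 6 3 + e 2 7 4) + (0) = e 2 4 1 := by rw [p_2_4_1]; ring
  have r_2_5_0 : (e 1 6 0 - e 1 8 2 + e 2 7 2 + e 2 8 3) - (e 1 6 0 - e 1 8 2 - e 2 5 0 + e 2 7 2 + e 2 8 3) + (0) = e 2 5 0 := by ring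
  have r_2_5_1 : (-e 0 7 1 + e 0 8 2 + e 1 6 1 - e 1 8 3 + e 2 5 1 + e 2 7 3) - (-e 0 7 1 + e 0 8 2 + e 1 6 1 - e 1 8 3 + e 2 7 3) + (0) = e 2 5 1 := by ring
  have r_2_5_2 : (e 0 5 0 - e 0 6 1 - e 1 4 0 + e 1 5 1 + 2 * e 2 6 3 + e 2 7 4) - (e 2 6 3 + e 2 7 4) + (0) = e 2 5 2 := by rw [p_2_5_2]; ring
  have r_2_5_3 : (0) - (-(1 / 2) * e 1 7 4 + (1 / 2) * e 1 8 5 - (1 / 2) * e 1 9 6 - e 2 5 3 + (1 / 2) * e 2 6 4 + (1 / 2) * e 2 9 7) + (-(1 / 2) * e 1 7 4 + (1 / 2) * e 1 8 5 - (1 / 2) * e 1 9 6 + (1 / 2) * e 2 6 4 + (1 / 2) * e 2 9 7) = e 2 5 3 := by ring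
  have r_2_5_4 : (0) - (0) + (e 0 7 4 - e 0 8 5 + e 2 8 7) = e 2 5 4 := by rw [p_2_5_4]; ring
  have r_2_6_0 : (e 2 6 0) - (0) + (0) = e 2 6 0 := by ring
  have r_2_6_1 : (e 1 6 0 - e 1 8 2 - e 2 5 0 + e 2 7 2 + e 2 8 3) - (0) + (0) = e 2 6 1 := by rw [p_2_6_1]; ring
  have r_2_6_2 : (-e 0 7 1 + e 0 8 2 + e 1 6 1 - e 1 8 3 + e 2 7 3) - (0) + (0) = e 2 6 2 := by rw [p_2_6_2]; ring
  have r_2_6_3 : (e 2 6 3 + e 2 7 4) - (e 2 7 4) + (0) = e 2 6 3 := by ring
  have r_2_6_4 : (-(1 / 2) * e 1 7 4 + (1 / 2) * e 1 8 5 - (1 / 2) * e 1 9 6 - e 2 5 3 + (1 / 2) * e 2 6 4 + (1 / 2) * e 2 9 7) - (-e 1 7 4 + e 1 8 5 - e 1 9 6 - e 2 5 3 + e 2 9 7) + (-(1 / 2) * e 1 7 4 + (1 / 2) * e 1 8 5 - (1 / 2) * e 1 9 6 + (1 / 2) * e 2 6 4 + (1 / 2) * e 2 9 7) = e 2 6 4 := by ring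
  have r_2_7_0 : (e 2 7 0) - (0) + (0) = e 2 7 0 := by ring
  have r_2_7_1 : (0) - (-e 2 7 1) + (0) = e 2 7 1 := by ring
  have r_2_7_2 : (0) - (-e 2 7 2) + (0) = e 2 7 2 := by ring
  have r_2_7_3 : (0) - (-e 2 7 3) + (0) = e 2 7 3 := by ring
  have r_2_7_4 : (e 2 7 4) - (0) + (0) = e 2 7 4 := by ring
  have r_2_8_0 : (e 2 8 0) - (0) + (0) = e 2 8 0 := by ring
  have r_2_8_1 : (0) - (-e 2 8 1) + (0) = e 2 8 1 := by ring
  have r_2_8_2 : (-e 2 7 1) - (e 1 7 0 - e 1 8 1 - e 2 6 0 - e 2 7 1) + (0) = e 2 8 2 := by rw [p_2_8_2]; ring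
  have r_2_8_3 : (-e 2 7 2) - (-e 2 7 2 - e 2 8 3) + (0) = e 2 8 3 := by ring
  have r_2_8_4 : (-e 2 7 3) - (e 0 7 1 - e 0 8 2 - e 2 5 1 - e 2 7 3) + (0) = e 2 8 4 := by rw [p_2_8_4]; ring
  have r_2_8_5 : (0) - (-e 0 5 0 + e 0 7 2 + e 1 4 0 - e 1 8 4 - e 2 6 3) + (0) = e 2 8 5 := by rw [p_2_8_5]; ring
  have r_2_8_6 : (-(3 / 2) * e 1 7 4 + (1 / 2) * e 1 8 5 - (1 / 2) * e 1 9 6 - e 2 5 3 + (1 / 2) * e 2 6 4 + (1 / 2) * e 2 9 7) - (-e 1 7 4 - e 1 9 6 - e 2 5 3 + e 2 9 7) + (-(1 / 2) * e 1 7 4 + (1 / 2) * e 1 8 5 - (1 / 2) * e 1 9 6 + (1 / 2) * e 2 6 4 + (1 / 2) * e 2 9 7) = e 2 8 6 := by rw [p_2_8_6]; ring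
  have r_2_8_7 : (e 0 8 5 - e 0 9 6 - e 1 8 6 + e 1 9 7) - (e 0 7 4 - e 0 9 6 - e 1 8 6 + e 1 9 7) + (e 0 7 4 - e 0 8 5 + e 2 8 7) = e 2 8 7 := by ring
  have r_2_9_0 : (0) - (-e 2 9 0) + (0) = e 2 9 0 := by ring
  have r_2_9_1 : (0) - (-e 2 9 1) + (0) = e 2 9 1 := by ring
  have r_2_9_2 : (-e 2 8 1) - (-e 2 8 1 - e 2 9 2) + (0) = e 2 9 2 := by ring
  have r_2_9_3 : (e 1 7 0 - e 1 8 1 - e 2 6 0 - e 2 7 1) - (e 1 7 0 - e 1 8 1 - e 2 6 0 - e 2 7 1 - e 2 9 3) + (0) = e 2 9 3 := by ring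
  have r_2_9_4 : (-e 2 7 2 - e 2 8 3) - (-e 2 7 2 - e 2 8 3 - e 2 9 4) + (0) = e 2 9 4 := by ring
  have r_2_9_5 : (e 0 7 1 - e 0 8 2 - e 2 5 1 - e 2 7 3) - (e 0 7 1 - e 0 8 2 - e 2 5 1 - e 2 7 3 - e 2 9 5) + (0) = e 2 9 5 := by ring
  have r_2_9_6 : (-e 0 5 0 + e 0 7 2 + e 1 4 0 - e 1 8 4 - e 2 6 3) - (-e 0 5 0 + e 0 7 2 + e 1 4 0 - e 1 8 4 - e 2 6 3 - e 2 9 6) + (0) = e 2 9 6 := by ring
  have r_2_9_7 : (-e 1 7 4 - e 1 9 6 - e 2 5 3 + e 2 9 7) - (-(3 / 2) * e 1 7 4 + (1 / 2) * e 1 8 5 - (3 / 2) * e 1 9 6 - e 2 5 3 + (1 / 2) * e 2 6 4 + (1 / 2) * e 2 9 7) + (-(1 / 2) * e 1 7 4 + (1 / 2) * e 1 8 5 - (1 / 2) * e 1 9 6 + (1 / 2) * e 2 6 4 + (1 / 2) * e 2 9 7) = e 2 9 7 := by ring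
  intro i x y hxy
  fin_cases i
  · fin_cases x
    · fin_cases y
      · exact absurd hxy (by decide)
      · exact absurd hxy (by decide)
      · exact absurd hxy (by decide)
      · exact absurd hxy (by decide)
      · exact absurd hxy (by decide)
      · exact absurd hxy (by decide)
      · exact absurd hxy (by decide)
      · exact absurd hxy (by decide)
      · exact absurd hxy (by decide)
      · exact absurd hxy (by decide)
    · fin_cases y
      · exact absurd hxy (by decide)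
      · exact absurd hxy (by decide)
      · exact absurd hxy (by decide)
      · exact absurd hxy (by decide)
      · exact absurd hxy (by decide)
      · exact absurd hxy (by decide)
      · exact absurd hxy (by decide)
      · exact absurd hxy (by decide)
      · exact absurd hxy (by decide)
      · exact absurd hxy (by decide)
    · fin_cases y
      · exact r_0_2_0
      · exact r_0_2_1
      · exact absurd hxy (by decide)
      · exact absurd hxy (by decide)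
      · exact absurd hxy (by decide)
      · exact absurd hxy (by decide)
      · exact absurd hxy (by decide)
      · exact absurd hxy (by decide)
      · exact absurd hxy (by decide)
      · exact absurd hxy (by decide)
    · fin_cases y
      · exact r_0_3_0
      · exact r_0_3_1
      · exact absurd hxy (by decide)
      · exact absurd hxy (by decide)
      · exact absurd hxy (by decide)
      · exact absurd hxy (by decide)
      · exact absurd hxy (by decide)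
      · exact absurd hxy (by decide)
      · exact absurd hxy (by decide)
      · exact absurd hxy (by decide)
    · fin_cases y
      · exact r_0_4_0
      · exact r_0_4_1
      · exact absurd hxy (by decide)
      · exact absurd hxy (by decide)
      · exact absurd hxy (by decide)
      · exact absurd hxy (by decide)
      · exact absurd hxy (by decide)
      · exact absurd hxy (by decide)
      · exact absurd hxy (by decide)
      · exact absurd hxy (by decide)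
    · fin_cases y
      · exact r_0_5_0
      · exact r_0_5_1
      · exact r_0_5_2
      · exact r_0_5_3
      · exact r_0_5_4
      · exact absurd hxy (by decide)
      · exact absurd hxy (by decide)
      · exact absurd hxy (by decide)
      · exact absurd hxy (by decide)
      · exact absurd hxy (by decide)
    · fin_cases y
      · exact r_0_6_0
      · exact r_0_6_1
      · exact r_0_6_2
      · exact r_0_6_3
      · exact r_0_6_4
      · exact absurd hxy (by decide)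
      · exact absurd hxy (by decide)
      · exact absurd hxy (by decide)
      · exact absurd hxy (by decide)
      · exact absurd hxy (by decide)
    · fin_cases y
      · exact r_0_7_0
      · exact r_0_7_1
      · exact r_0_7_2
      · exact r_0_7_3
      · exact r_0_7_4
      · exact absurd hxy (by decide)
      · exact absurd hxy (by decide)
      · exact absurd hxy (by decide)
      · exact absurd hxy (by decide)
      · exact absurd hxy (by decide)
    · fin_cases y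
      · exact r_0_8_0
      · exact r_0_8_1
      · exact r_0_8_2
      · exact r_0_8_3
      · exact r_0_8_4
      · exact r_0_8_5
      · exact r_0_8_6
      · exact r_0_8_7
      · exact absurd hxy (by decide)
      · exact absurd hxy (by decide)
    · fin_cases y
      · exact r_0_9_0
      · exact r_0_9_1
      · exact r_0_9_2
      · exact r_0_9_3
      · exact r_0_9_4
      · exact r_0_9_5
      · exact r_0_9_6
      · exact r_0_9_7
      · exact absurd hxy (by decide)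
      · exact absurd hxy (by decide)
  · fin_cases x
    · fin_cases y
      · exact absurd hxy (by decide)
      · exact absurd hxy (by decide)
      · exact absurd hxy (by decide)
      · exact absurd hxy (by decide)
      · exact absurd hxy (by decide)
      · exact absurd hxy (by decide)
      · exact absurd hxy (by decide)
      · exact absurd hxy (by decide)
      · exact absurd hxy (by decide)
      · exact absurd hxy (by decide)
    · fin_cases y
      · exact absurd hxy (by decide)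
      · exact absurd hxy (by decide)
      · exact absurd hxy (by decide)
      · exact absurd hxy (by decide)
      · exact absurd hxy (by decide)
      · exact absurd hxy (by decide)
      · exact absurd hxy (by decide)
      · exact absurd hxy (by decide)
      · exact absurd hxy (by decide)
      · exact absurd hxy (by decide)
    · fin_cases y
      · exact r_1_2_0
      · exact r_1_2_1
      · exact absurd hxy (by decide)
      · exact absurd hxy (by decide)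
      · exact absurd hxy (by decide)
      · exact absurd hxy (by decide)
      · exact absurd hxy (by decide)
      · exact absurd hxy (by decide)
      · exact absurd hxy (by decide)
      · exact absurd hxy (by decide)
    · fin_cases y
      · exact r_1_3_0
      · exact r_1_3_1
      · exact absurd hxy (by decide)
      · exact absurd hxy (by decide)
      · exact absurd hxy (by decide)
      · exact absurd hxy (by decide)
      · exact absurd hxy (by decide)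
      · exact absurd hxy (by decide)
      · exact absurd hxy (by decide)
      · exact absurd hxy (by decide)
    · fin_cases y
      · exact r_1_4_0
      · exact r_1_4_1
      · exact absurd hxy (by decide)
      · exact absurd hxy (by decide)
      · exact absurd hxy (by decide)
      · exact absurd hxy (by decide)
      · exact absurd hxy (by decide)
      · exact absurd hxy (by decide)
      · exact absurd hxy (by decide)
      · exact absurd hxy (by decide)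
    · fin_cases y
      · exact r_1_5_0
      · exact r_1_5_1
      · exact r_1_5_2
      · exact r_1_5_3
      · exact r_1_5_4
      · exact absurd hxy (by decide)
      · exact absurd hxy (by decide)
      · exact absurd hxy (by decide)
      · exact absurd hxy (by decide)
      · exact absurd hxy (by decide)
    · fin_cases y
      · exact r_1_6_0
      · exact r_1_6_1
      · exact r_1_6_2
      · exact r_1_6_3
      · exact r_1_6_4
      · exact absurd hxy (by decide)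
      · exact absurd hxy (by decide)
      · exact absurd hxy (by decide)
      · exact absurd hxy (by decide)
      · exact absurd hxy (by decide)
    · fin_cases y
      · exact r_1_7_0
      · exact r_1_7_1
      · exact r_1_7_2
      · exact r_1_7_3
      · exact r_1_7_4
      · exact absurd hxy (by decide)
      · exact absurd hxy (by decide)
      · exact absurd hxy (by decide)
      · exact absurd hxy (by decide)
      · exact absurd hxy (by decide)
    · fin_cases y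
      · exact r_1_8_0
      · exact r_1_8_1
      · exact r_1_8_2
      · exact r_1_8_3
      · exact r_1_8_4
      · exact r_1_8_5
      · exact r_1_8_6
      · exact r_1_8_7
      · exact absurd hxy (by decide)
      · exact absurd hxy (by decide)
    · fin_cases y
      · exact r_1_9_0
      · exact r_1_9_1
      · exact r_1_9_2
      · exact r_1_9_3
      · exact r_1_9_4
      · exact r_1_9_5
      · exact r_1_9_6
      · exact r_1_9_7
      · exact absurd hxy (by decide)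
      · exact absurd hxy (by decide)
  · fin_cases x
    · fin_cases y
      · exact absurd hxy (by decide)
      · exact absurd hxy (by decide)
      · exact absurd hxy (by decide)
      · exact absurd hxy (by decide)
      · exact absurd hxy (by decide)
      · exact absurd hxy (by decide)
      · exact absurd hxy (by decide)
      · exact absurd hxy (by decide)
      · exact absurd hxy (by decide)
      · exact absurd hxy (by decide)
    · fin_cases y
      · exact absurd hxy (by decide)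
      · exact absurd hxy (by decide)
      · exact absurd hxy (by decide)
      · exact absurd hxy (by decide)
      · exact absurd hxy (by decide)
      · exact absurd hxy (by decide)
      · exact absurd hxy (by decide)
      · exact absurd hxy (by decide)
      · exact absurd hxy (by decide)
      · exact absurd hxy (by decide)
    · fin_cases y
      · exact r_2_2_0
      · exact r_2_2_1
      · exact absurd hxy (by decide)
      · exact absurd hxy (by decide)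
      · exact absurd hxy (by decide)
      · exact absurd hxy (by decide)
      · exact absurd hxy (by decide)
      · exact absurd hxy (by decide)
      · exact absurd hxy (by decide)
      · exact absurd hxy (by decide)
    · fin_cases y
      · exact r_2_3_0
      · exact r_2_3_1
      · exact absurd hxy (by decide)
      · exact absurd hxy (by decide)
      · exact absurd hxy (by decide)
      · exact absurd hxy (by decide)
      · exact absurd hxy (by decide)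
      · exact absurd hxy (by decide)
      · exact absurd hxy (by decide)
      · exact absurd hxy (by decide)
    · fin_cases y
      · exact r_2_4_0
      · exact r_2_4_1
      · exact absurd hxy (by decide)
      · exact absurd hxy (by decide)
      · exact absurd hxy (by decide)
      · exact absurd hxy (by decide)
      · exact absurd hxy (by decide)
      · exact absurd hxy (by decide)
      · exact absurd hxy (by decide)
      · exact absurd hxy (by decide)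
    · fin_cases y
      · exact r_2_5_0
      · exact r_2_5_1
      · exact r_2_5_2
      · exact r_2_5_3
      · exact r_2_5_4
      · exact absurd hxy (by decide)
      · exact absurd hxy (by decide)
      · exact absurd hxy (by decide)
      · exact absurd hxy (by decide)
      · exact absurd hxy (by decide)
    · fin_cases y
      · exact r_2_6_0
      · exact r_2_6_1
      · exact r_2_6_2
      · exact r_2_6_3
      · exact r_2_6_4
      · exact absurd hxy (by decide)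
      · exact absurd hxy (by decide)
      · exact absurd hxy (by decide)
      · exact absurd hxy (by decide)
      · exact absurd hxy (by decide)
    · fin_cases y
      · exact r_2_7_0
      · exact r_2_7_1
      · exact r_2_7_2
      · exact r_2_7_3
      · exact r_2_7_4
      · exact absurd hxy (by decide)
      · exact absurd hxy (by decide)
      · exact absurd hxy (by decide)
      · exact absurd hxy (by decide)
      · exact absurd hxy (by decide)
    · fin_cases y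
      · exact r_2_8_0
      · exact r_2_8_1
      · exact r_2_8_2
      · exact r_2_8_3
      · exact r_2_8_4
      · exact r_2_8_5
      · exact r_2_8_6
      · exact r_2_8_7
      · exact absurd hxy (by decide)
      · exact absurd hxy (by decide)
    · fin_cases y
      · exact r_2_9_0
      · exact r_2_9_1
      · exact r_2_9_2
      · exact r_2_9_3
      · exact r_2_9_4
      · exact r_2_9_5
      · exact r_2_9_6
      · exact r_2_9_7
      · exact absurd hxy (by decide)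
      · exact absurd hxy (by decide)

/-- the matrix of the certificate -/
def N2 (e : Fin 3 → Matrix (Fin (9 + 1)) (Fin (9 + 1)) k) : Matrix (Fin (9 + 1)) (Fin (9 + 1)) k :=
  !![0, 0, 0, 0, 0, 0, 0, 0, 0, 0;
     0, 0, 0, 0, 0, 0, 0, 0, 0, 0;
     e 0 5 0 + e 0 6 1 - e 1 5 1 + e 1 8 4, e 0 5 1 + e 0 8 4, 0, 0, 0, 0, 0, 0, 0, 0;
     e 0 6 0, e 0 6 1 + e 1 8 4, 0, 0, 0, 0, 0, 0, 0, 0;
     2 * e 0 7 0 - 2 * e 0 8 1 - e 1 6 0 + e 1 7 1 + e 2 6 1 - e 2 8 3,
     e 0 6 0 - e 0 7 1 - e 1 5 0 + e 1 6 1 + e 2 5 1 - e 2 8 4, 0, 0, 0, 0, 0, 0, 0, 0;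
     e 2 6 0, e 0 7 0 - e 0 8 1 - e 1 6 0 + e 1 7 1 + e 2 6 1 - e 2 8 3,
     e 0 7 1 - e 2 5 1 + e 2 8 4, e 0 6 1 - e 1 5 1 + e 1 8 4, e 0 8 4, 0, 0, 0, 0, 0;
     e 2 7 0, 0, e 0 7 0 - e 0 8 1 - e 1 6 0 + e 1 7 1, 0, e 1 8 4, 0, 0, 0, 0, 0;
     e 2 8 0, 0, -e 2 7 1, 0, e 0 6 0 - 2 * e 0 7 1 - e 1 5 0 + e 1 6 1 + e 2 5 1 - e 2 8 4, 0,
     0, 0, 0, 0;
     0, 0, -e 2 8 1, e 1 7 0 - e 1 8 1 - e 2 6 0 - e 2 7 1, 0, 0, 0, 0, 0, 0;
     0, -e 2 9 0, -e 2 9 1, -e 2 8 1 - e 2 9 2,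
     e 1 7 0 - e 1 8 1 - e 2 6 0 - e 2 7 1 - e 2 9 3, e 2 8 3 - e 2 9 4,
     -e 0 7 1 + e 1 6 1 - e 1 9 4, -e 0 9 4 + e 1 8 4, 0, 0]

/-- the polynomials of the certificate -/
def a2 (e : Fin 3 → Matrix (Fin (9 + 1)) (Fin (9 + 1)) k) : Fin 3 → Fin (9 + 1) → k :=
  ![![0, 0, 0, 0, 0, 0, 0, -e 0 7 0 + 2 * e 0 8 1 + e 1 6 0 - e 1 7 1 - e 2 6 1 + e 2 8 3,
     e 0 8 0 + e 1 7 0 - e 1 8 1 - 2 * e 2 6 0 - e 2 7 1, e 0 9 0 - e 2 7 0 - e 2 8 1 - e 2 9 2],
    ![0, 0, 0, 0, 0, -e 0 6 0 + e 0 7 1 + e 1 5 0 - e 2 5 1 + e 2 8 4,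
     -e 0 7 0 + e 0 8 1 + e 1 6 0 - e 2 6 1 + e 2 8 3, e 1 7 0 - e 2 6 0 - e 2 7 1,
     e 1 8 0 - e 2 7 0 - e 2 8 1, e 1 9 0 - e 2 8 0 - e 2 9 1],
    ![0, 0, 0, 0, -e 0 6 0 + 2 * e 0 7 1 + e 1 5 0 - e 1 6 1 - e 2 5 1 + 2 * e 2 8 4, e 2 8 3,
     0, 0, 0, 0]]

theorem cert2 : Cert w (Sh k 9) (fun i => Sh k 9 ^ av i) 2 := by
  refine cert_mono w av 2 N2 a2 (fun e i => by fin_cases i <;> rfl) ?_
  intro e hz hc
  have c_0_1_8_0 : e 1 5 0 + e 0 8 2 - e 0 6 0 - e 1 8 3 = 0 := hc 0 1 8 0 (by decide)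
  have c_0_1_8_1 : e 1 5 1 + e 0 8 3 - e 0 6 1 - e 1 8 4 = 0 := hc 0 1 8 1 (by decide)
  have c_0_1_9_0 : e 1 6 0 + e 0 9 2 - e 0 7 0 - e 1 9 3 = 0 := hc 0 1 9 0 (by decide)
  have c_0_1_9_1 : e 1 6 1 + e 0 9 3 - e 0 7 1 - e 1 9 4 = 0 := hc 0 1 9 1 (by decide)
  have c_0_2_8_0 : e 2 5 0 + e 0 8 1 - e 0 7 0 - e 2 8 3 = 0 := hc 0 2 8 0 (by decide)
  have c_0_2_8_1 : e 2 5 1 + e 0 8 2 - e 0 7 1 - e 2 8 4 = 0 := hc 0 2 8 1 (by decide)
  have c_0_2_9_0 : e 2 6 0 + e 0 9 1 - e 0 8 0 - e 2 9 3 = 0 := hc 0 2 9 0 (by decide)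
  have c_0_2_9_1 : e 2 6 1 + e 0 9 2 - e 0 8 1 - e 2 9 4 = 0 := hc 0 2 9 1 (by decide)
  have c_1_2_8_0 : e 2 6 0 + e 1 8 1 - e 1 7 0 - e 2 8 2 = 0 := hc 1 2 8 0 (by decide)
  have c_1_2_8_1 : e 2 6 1 + e 1 8 2 - e 1 7 1 - e 2 8 3 = 0 := hc 1 2 8 1 (by decide)
  have c_1_2_9_0 : e 2 7 0 + e 1 9 1 - e 1 8 0 - e 2 9 2 = 0 := hc 1 2 9 0 (by decide)
  have c_1_2_9_1 : e 2 7 1 + e 1 9 2 - e 1 8 1 - e 2 9 3 = 0 := hc 1 2 9 1 (by decide)
  have p_1_8_3 : e 1 8 3 = -e 0 6 0 + e 0 7 1 + e 1 5 0 - e 2 5 1 + e 2 8 4 := by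
    linear_combination -c_0_1_8_0 + c_0_2_8_1
  have p_0_8_3 : e 0 8 3 = e 0 6 1 - e 1 5 1 + e 1 8 4 := by
    linear_combination c_0_1_8_1
  have p_1_9_3 : e 1 9 3 = -e 0 7 0 + e 0 8 1 + e 1 6 0 - e 2 6 1 + e 2 9 4 := by
    linear_combination -c_0_1_9_0 + c_0_2_9_1
  have p_0_9_3 : e 0 9 3 = e 0 7 1 - e 1 6 1 + e 1 9 4 := by
    linear_combination c_0_1_9_1
  have p_2_5_0 : e 2 5 0 = e 0 7 0 - e 0 8 1 + e 2 8 3 := by
    linear_combination c_0_2_8_0
  have p_0_8_2 : e 0 8 2 = e 0 7 1 - e 2 5 1 + e 2 8 4 := by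
    linear_combination c_0_2_8_1
  have p_0_9_1 : e 0 9 1 = e 0 8 0 - e 2 6 0 + e 2 9 3 := by
    linear_combination c_0_2_9_0
  have p_0_9_2 : e 0 9 2 = e 0 8 1 - e 2 6 1 + e 2 9 4 := by
    linear_combination c_0_2_9_1
  have p_2_8_2 : e 2 8 2 = -e 1 7 0 + e 1 8 1 + e 2 6 0 := by
    linear_combination -c_1_2_8_0
  have p_1_8_2 : e 1 8 2 = e 1 7 1 - e 2 6 1 + e 2 8 3 := by
    linear_combination c_1_2_8_1
  have p_1_9_1 : e 1 9 1 = e 1 8 0 - e 2 7 0 + e 2 9 2 := by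
    linear_combination c_1_2_9_0
  have p_1_9_2 : e 1 9 2 = e 1 8 1 - e 2 7 1 + e 2 9 3 := by
    linear_combination c_1_2_9_1
  have r_0_5_0 : (e 0 5 0 + e 0 6 1 - e 1 5 1 + e 1 8 4) - (e 0 6 1 - e 1 5 1 + e 1 8 4) + (0) = e 0 5 0 := by ring
  have r_0_5_1 : (e 0 5 1 + e 0 8 4) - (e 0 8 4) + (0) = e 0 5 1 := by ring
  have r_0_6_0 : (e 0 6 0) - (0) + (0) = e 0 6 0 := by ring
  have r_0_6_1 : (e 0 6 1 + e 1 8 4) - (e 1 8 4) + (0) = e 0 6 1 := by ring
  have r_0_7_0 : (2 * e 0 7 0 - 2 * e 0 8 1 - e 1 6 0 + e 1 7 1 + e 2 6 1 - e 2 8 3) - (0) + (-e 0 7 0 + 2 * e 0 8 1 + e 1 6 0 - e 1 7 1 - e 2 6 1 + e 2 8 3) = e 0 7 0 := by ring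
  have r_0_7_1 : (e 0 6 0 - e 0 7 1 - e 1 5 0 + e 1 6 1 + e 2 5 1 - e 2 8 4) - (e 0 6 0 - 2 * e 0 7 1 - e 1 5 0 + e 1 6 1 + e 2 5 1 - e 2 8 4) + (0) = e 0 7 1 := by ring
  have r_0_8_0 : (e 2 6 0) - (e 1 7 0 - e 1 8 1 - e 2 6 0 - e 2 7 1) + (e 0 8 0 + e 1 7 0 - e 1 8 1 - 2 * e 2 6 0 - e 2 7 1) = e 0 8 0 := by ring
  have r_0_8_1 : (e 0 7 0 - e 0 8 1 - e 1 6 0 + e 1 7 1 + e 2 6 1 - e 2 8 3) - (0) + (-e 0 7 0 + 2 * e 0 8 1 + e 1 6 0 - e 1 7 1 - e 2 6 1 + e 2 8 3) = e 0 8 1 := by ring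
  have r_0_8_2 : (e 0 7 1 - e 2 5 1 + e 2 8 4) - (0) + (0) = e 0 8 2 := by rw [p_0_8_2]; ring
  have r_0_8_3 : (e 0 6 1 - e 1 5 1 + e 1 8 4) - (0) + (0) = e 0 8 3 := by rw [p_0_8_3]; ring
  have r_0_8_4 : (e 0 8 4) - (0) + (0) = e 0 8 4 := by ring
  have r_0_9_0 : (e 2 7 0) - (-e 2 8 1 - e 2 9 2) + (e 0 9 0 - e 2 7 0 - e 2 8 1 - e 2 9 2) = e 0 9 0 := by ring
  have r_0_9_1 : (0) - (e 1 7 0 - e 1 8 1 - e 2 6 0 - e 2 7 1 - e 2 9 3) + (e 0 8 0 + e 1 7 0 - e 1 8 1 - 2 * e 2 6 0 - e 2 7 1) = e 0 9 1 := by rw [p_0_9_1]; ring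
  have r_0_9_2 : (e 0 7 0 - e 0 8 1 - e 1 6 0 + e 1 7 1) - (e 2 8 3 - e 2 9 4) + (-e 0 7 0 + 2 * e 0 8 1 + e 1 6 0 - e 1 7 1 - e 2 6 1 + e 2 8 3) = e 0 9 2 := by rw [p_0_9_2]; ring
  have r_0_9_3 : (0) - (-e 0 7 1 + e 1 6 1 - e 1 9 4) + (0) = e 0 9 3 := by rw [p_0_9_3]; ring
  have r_0_9_4 : (e 1 8 4) - (-e 0 9 4 + e 1 8 4) + (0) = e 0 9 4 := by ring
  have r_1_5_0 : (e 0 6 0) - (e 0 7 1 - e 2 5 1 + e 2 8 4) + (-e 0 6 0 + e 0 7 1 + e 1 5 0 - e 2 5 1 + e 2 8 4) = e 1 5 0 := by ring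
  have r_1_5_1 : (e 0 6 1 + e 1 8 4) - (e 0 6 1 - e 1 5 1 + e 1 8 4) + (0) = e 1 5 1 := by ring
  have r_1_6_0 : (2 * e 0 7 0 - 2 * e 0 8 1 - e 1 6 0 + e 1 7 1 + e 2 6 1 - e 2 8 3) - (e 0 7 0 - e 0 8 1 - e 1 6 0 + e 1 7 1) + (-e 0 7 0 + e 0 8 1 + e 1 6 0 - e 2 6 1 + e 2 8 3) = e 1 6 0 := by ring
  have r_1_6_1 : (e 0 6 0 - e 0 7 1 - e 1 5 0 + e 1 6 1 + e 2 5 1 - e 2 8 4) - (0) + (-e 0 6 0 + e 0 7 1 + e 1 5 0 - e 2 5 1 + e 2 8 4) = e 1 6 1 := by ring
  have r_1_7_0 : (e 2 6 0) - (-e 2 7 1) + (e 1 7 0 - e 2 6 0 - e 2 7 1) = e 1 7 0 := by ring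
  have r_1_7_1 : (e 0 7 0 - e 0 8 1 - e 1 6 0 + e 1 7 1 + e 2 6 1 - e 2 8 3) - (0) + (-e 0 7 0 + e 0 8 1 + e 1 6 0 - e 2 6 1 + e 2 8 3) = e 1 7 1 := by ring
  have r_1_8_0 : (e 2 7 0) - (-e 2 8 1) + (e 1 8 0 - e 2 7 0 - e 2 8 1) = e 1 8 0 := by ring
  have r_1_8_1 : (0) - (e 1 7 0 - e 1 8 1 - e 2 6 0 - e 2 7 1) + (e 1 7 0 - e 2 6 0 - e 2 7 1) = e 1 8 1 := by ring
  have r_1_8_2 : (e 0 7 0 - e 0 8 1 - e 1 6 0 + e 1 7 1) - (0) + (-e 0 7 0 + e 0 8 1 + e 1 6 0 - e 2 6 1 + e 2 8 3) = e 1 8 2 := by rw [p_1_8_2]; ring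
  have r_1_8_3 : (0) - (0) + (-e 0 6 0 + e 0 7 1 + e 1 5 0 - e 2 5 1 + e 2 8 4) = e 1 8 3 := by rw [p_1_8_3]; ring
  have r_1_8_4 : (e 1 8 4) - (0) + (0) = e 1 8 4 := by ring
  have r_1_9_0 : (e 2 8 0) - (-e 2 9 1) + (e 1 9 0 - e 2 8 0 - e 2 9 1) = e 1 9 0 := by ring
  have r_1_9_1 : (0) - (-e 2 8 1 - e 2 9 2) + (e 1 8 0 - e 2 7 0 - e 2 8 1) = e 1 9 1 := by rw [p_1_9_1]; ring
  have r_1_9_2 : (-e 2 7 1) - (e 1 7 0 - e 1 8 1 - e 2 6 0 - e 2 7 1 - e 2 9 3) + (e 1 7 0 - e 2 6 0 - e 2 7 1) = e 1 9 2 := by rw [p_1_9_2]; ring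
  have r_1_9_3 : (0) - (e 2 8 3 - e 2 9 4) + (-e 0 7 0 + e 0 8 1 + e 1 6 0 - e 2 6 1 + e 2 8 3) = e 1 9 3 := by rw [p_1_9_3]; ring
  have r_1_9_4 : (e 0 6 0 - 2 * e 0 7 1 - e 1 5 0 + e 1 6 1 + e 2 5 1 - e 2 8 4) - (-e 0 7 1 + e 1 6 1 - e 1 9 4) + (-e 0 6 0 + e 0 7 1 + e 1 5 0 - e 2 5 1 + e 2 8 4) = e 1 9 4 := by ring
  have r_2_5_0 : (2 * e 0 7 0 - 2 * e 0 8 1 - e 1 6 0 + e 1 7 1 + e 2 6 1 - e 2 8 3) - (e 0 7 0 - e 0 8 1 - e 1 6 0 + e 1 7 1 + e 2 6 1 - e 2 8 3) + (e 2 8 3) = e 2 5 0 := by rw [p_2_5_0]; ring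
  have r_2_5_1 : (e 0 6 0 - e 0 7 1 - e 1 5 0 + e 1 6 1 + e 2 5 1 - e 2 8 4) - (e 0 7 1 - e 2 5 1 + e 2 8 4) + (-e 0 6 0 + 2 * e 0 7 1 + e 1 5 0 - e 1 6 1 - e 2 5 1 + 2 * e 2 8 4) = e 2 5 1 := by ring
  have r_2_6_0 : (e 2 6 0) - (0) + (0) = e 2 6 0 := by ring
  have r_2_6_1 : (e 0 7 0 - e 0 8 1 - e 1 6 0 + e 1 7 1 + e 2 6 1 - e 2 8 3) - (e 0 7 0 - e 0 8 1 - e 1 6 0 + e 1 7 1) + (e 2 8 3) = e 2 6 1 := by ring
  have r_2_7_0 : (e 2 7 0) - (0) + (0) = e 2 7 0 := by ring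
  have r_2_7_1 : (0) - (-e 2 7 1) + (0) = e 2 7 1 := by ring
  have r_2_8_0 : (e 2 8 0) - (0) + (0) = e 2 8 0 := by ring
  have r_2_8_1 : (0) - (-e 2 8 1) + (0) = e 2 8 1 := by ring
  have r_2_8_2 : (-e 2 7 1) - (e 1 7 0 - e 1 8 1 - e 2 6 0 - e 2 7 1) + (0) = e 2 8 2 := by rw [p_2_8_2]; ring
  have r_2_8_3 : (0) - (0) + (e 2 8 3) = e 2 8 3 := by ring
  have r_2_8_4 : (e 0 6 0 - 2 * e 0 7 1 - e 1 5 0 + e 1 6 1 + e 2 5 1 - e 2 8 4) - (0) + (-e 0 6 0 + 2 * e 0 7 1 + e 1 5 0 - e 1 6 1 - e 2 5 1 + 2 * e 2 8 4) = e 2 8 4 := by ring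
  have r_2_9_0 : (0) - (-e 2 9 0) + (0) = e 2 9 0 := by ring
  have r_2_9_1 : (0) - (-e 2 9 1) + (0) = e 2 9 1 := by ring
  have r_2_9_2 : (-e 2 8 1) - (-e 2 8 1 - e 2 9 2) + (0) = e 2 9 2 := by ring
  have r_2_9_3 : (e 1 7 0 - e 1 8 1 - e 2 6 0 - e 2 7 1) - (e 1 7 0 - e 1 8 1 - e 2 6 0 - e 2 7 1 - e 2 9 3) + (0) = e 2 9 3 := by ring
  have r_2_9_4 : (0) - (e 2 8 3 - e 2 9 4) + (e 2 8 3) = e 2 9 4 := by ring
  intro i x y hxy
  fin_cases i
  · fin_cases x
    · fin_cases y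
      · exact absurd hxy (by decide)
      · exact absurd hxy (by decide)
      · exact absurd hxy (by decide)
      · exact absurd hxy (by decide)
      · exact absurd hxy (by decide)
      · exact absurd hxy (by decide)
      · exact absurd hxy (by decide)
      · exact absurd hxy (by decide)
      · exact absurd hxy (by decide)
      · exact absurd hxy (by decide)
    · fin_cases y
      · exact absurd hxy (by decide)
      · exact absurd hxy (by decide)
      · exact absurd hxy (by decide)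
      · exact absurd hxy (by decide)
      · exact absurd hxy (by decide)
      · exact absurd hxy (by decide)
      · exact absurd hxy (by decide)
      · exact absurd hxy (by decide)
      · exact absurd hxy (by decide)
      · exact absurd hxy (by decide)
    · fin_cases y
      · exact absurd hxy (by decide)
      · exact absurd hxy (by decide)
      · exact absurd hxy (by decide)
      · exact absurd hxy (by decide)
      · exact absurd hxy (by decide)
      · exact absurd hxy (by decide)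
      · exact absurd hxy (by decide)
      · exact absurd hxy (by decide)
      · exact absurd hxy (by decide)
      · exact absurd hxy (by decide)
    · fin_cases y
      · exact absurd hxy (by decide)
      · exact absurd hxy (by decide)
      · exact absurd hxy (by decide)
      · exact absurd hxy (by decide)
      · exact absurd hxy (by decide)
      · exact absurd hxy (by decide)
      · exact absurd hxy (by decide)
      · exact absurd hxy (by decide)
      · exact absurd hxy (by decide)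
      · exact absurd hxy (by decide)
    · fin_cases y
      · exact absurd hxy (by decide)
      · exact absurd hxy (by decide)
      · exact absurd hxy (by decide)
      · exact absurd hxy (by decide)
      · exact absurd hxy (by decide)
      · exact absurd hxy (by decide)
      · exact absurd hxy (by decide)
      · exact absurd hxy (by decide)
      · exact absurd hxy (by decide)
      · exact absurd hxy (by decide)
    · fin_cases y
      · exact r_0_5_0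
      · exact r_0_5_1
      · exact absurd hxy (by decide)
      · exact absurd hxy (by decide)
      · exact absurd hxy (by decide)
      · exact absurd hxy (by decide)
      · exact absurd hxy (by decide)
      · exact absurd hxy (by decide)
      · exact absurd hxy (by decide)
      · exact absurd hxy (by decide)
    · fin_cases y
      · exact r_0_6_0
      · exact r_0_6_1
      · exact absurd hxy (by decide)
      · exact absurd hxy (by decide)
      · exact absurd hxy (by decide)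
      · exact absurd hxy (by decide)
      · exact absurd hxy (by decide)
      · exact absurd hxy (by decide)
      · exact absurd hxy (by decide)
      · exact absurd hxy (by decide)
    · fin_cases y
      · exact r_0_7_0
      · exact r_0_7_1
      · exact absurd hxy (by decide)
      · exact absurd hxy (by decide)
      · exact absurd hxy (by decide)
      · exact absurd hxy (by decide)
      · exact absurd hxy (by decide)
      · exact absurd hxy (by decide)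
      · exact absurd hxy (by decide)
      · exact absurd hxy (by decide)
    · fin_cases y
      · exact r_0_8_0
      · exact r_0_8_1
      · exact r_0_8_2
      · exact r_0_8_3
      · exact r_0_8_4
      · exact absurd hxy (by decide)
      · exact absurd hxy (by decide)
      · exact absurd hxy (by decide)
      · exact absurd hxy (by decide)
      · exact absurd hxy (by decide)
    · fin_cases y
      · exact r_0_9_0
      · exact r_0_9_1
      · exact r_0_9_2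
      · exact r_0_9_3
      · exact r_0_9_4
      · exact absurd hxy (by decide)
      · exact absurd hxy (by decide)
      · exact absurd hxy (by decide)
      · exact absurd hxy (by decide)
      · exact absurd hxy (by decide)
  · fin_cases x
    · fin_cases y
      · exact absurd hxy (by decide)
      · exact absurd hxy (by decide)
      · exact absurd hxy (by decide)
      · exact absurd hxy (by decide)
      · exact absurd hxy (by decide)
      · exact absurd hxy (by decide)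
      · exact absurd hxy (by decide)
      · exact absurd hxy (by decide)
      · exact absurd hxy (by decide)
      · exact absurd hxy (by decide)
    · fin_cases y
      · exact absurd hxy (by decide)
      · exact absurd hxy (by decide)
      · exact absurd hxy (by decide)
      · exact absurd hxy (by decide)
      · exact absurd hxy (by decide)
      · exact absurd hxy (by decide)
      · exact absurd hxy (by decide)
      · exact absurd hxy (by decide)
      · exact absurd hxy (by decide)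
      · exact absurd hxy (by decide)
    · fin_cases y
      · exact absurd hxy (by decide)
      · exact absurd hxy (by decide)
      · exact absurd hxy (by decide)
      · exact absurd hxy (by decide)
      · exact absurd hxy (by decide)
      · exact absurd hxy (by decide)
      · exact absurd hxy (by decide)
      · exact absurd hxy (by decide)
      · exact absurd hxy (by decide)
      · exact absurd hxy (by decide)
    · fin_cases y
      · exact absurd hxy (by decide)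
      · exact absurd hxy (by decide)
      · exact absurd hxy (by decide)
      · exact absurd hxy (by decide)
      · exact absurd hxy (by decide)
      · exact absurd hxy (by decide)
      · exact absurd hxy (by decide)
      · exact absurd hxy (by decide)
      · exact absurd hxy (by decide)
      · exact absurd hxy (by decide)
    · fin_cases y
      · exact absurd hxy (by decide)
      · exact absurd hxy (by decide)
      · exact absurd hxy (by decide)
      · exact absurd hxy (by decide)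
      · exact absurd hxy (by decide)
      · exact absurd hxy (by decide)
      · exact absurd hxy (by decide)
      · exact absurd hxy (by decide)
      · exact absurd hxy (by decide)
      · exact absurd hxy (by decide)
    · fin_cases y
      · exact r_1_5_0
      · exact r_1_5_1
      · exact absurd hxy (by decide)
      · exact absurd hxy (by decide)
      · exact absurd hxy (by decide)
      · exact absurd hxy (by decide)
      · exact absurd hxy (by decide)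
      · exact absurd hxy (by decide)
      · exact absurd hxy (by decide)
      · exact absurd hxy (by decide)
    · fin_cases y
      · exact r_1_6_0
      · exact r_1_6_1
      · exact absurd hxy (by decide)
      · exact absurd hxy (by decide)
      · exact absurd hxy (by decide)
      · exact absurd hxy (by decide)
      · exact absurd hxy (by decide)
      · exact absurd hxy (by decide)
      · exact absurd hxy (by decide)
      · exact absurd hxy (by decide)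
    · fin_cases y
      · exact r_1_7_0
      · exact r_1_7_1
      · exact absurd hxy (by decide)
      · exact absurd hxy (by decide)
      · exact absurd hxy (by decide)
      · exact absurd hxy (by decide)
      · exact absurd hxy (by decide)
      · exact absurd hxy (by decide)
      · exact absurd hxy (by decide)
      · exact absurd hxy (by decide)
    · fin_cases y
      · exact r_1_8_0
      · exact r_1_8_1
      · exact r_1_8_2
      · exact r_1_8_3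
      · exact r_1_8_4
      · exact absurd hxy (by decide)
      · exact absurd hxy (by decide)
      · exact absurd hxy (by decide)
      · exact absurd hxy (by decide)
      · exact absurd hxy (by decide)
    · fin_cases y
      · exact r_1_9_0
      · exact r_1_9_1
      · exact r_1_9_2
      · exact r_1_9_3
      · exact r_1_9_4
      · exact absurd hxy (by decide)
      · exact absurd hxy (by decide)
      · exact absurd hxy (by decide)
      · exact absurd hxy (by decide)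
      · exact absurd hxy (by decide)
  · fin_cases x
    · fin_cases y
      · exact absurd hxy (by decide)
      · exact absurd hxy (by decide)
      · exact absurd hxy (by decide)
      · exact absurd hxy (by decide)
      · exact absurd hxy (by decide)
      · exact absurd hxy (by decide)
      · exact absurd hxy (by decide)
      · exact absurd hxy (by decide)
      · exact absurd hxy (by decide)
      · exact absurd hxy (by decide)
    · fin_cases y
      · exact absurd hxy (by decide)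
      · exact absurd hxy (by decide)
      · exact absurd hxy (by decide)
      · exact absurd hxy (by decide)
      · exact absurd hxy (by decide)
      · exact absurd hxy (by decide)
      · exact absurd hxy (by decide)
      · exact absurd hxy (by decide)
      · exact absurd hxy (by decide)
      · exact absurd hxy (by decide)
    · fin_cases y
      · exact absurd hxy (by decide)
      · exact absurd hxy (by decide)
      · exact absurd hxy (by decide)
      · exact absurd hxy (by decide)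
      · exact absurd hxy (by decide)
      · exact absurd hxy (by decide)
      · exact absurd hxy (by decide)
      · exact absurd hxy (by decide)
      · exact absurd hxy (by decide)
      · exact absurd hxy (by decide)
    · fin_cases y
      · exact absurd hxy (by decide)
      · exact absurd hxy (by decide)
      · exact absurd hxy (by decide)
      · exact absurd hxy (by decide)
      · exact absurd hxy (by decide)
      · exact absurd hxy (by decide)
      · exact absurd hxy (by decide)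
      · exact absurd hxy (by decide)
      · exact absurd hxy (by decide)
      · exact absurd hxy (by decide)
    · fin_cases y
      · exact absurd hxy (by decide)
      · exact absurd hxy (by decide)
      · exact absurd hxy (by decide)
      · exact absurd hxy (by decide)
      · exact absurd hxy (by decide)
      · exact absurd hxy (by decide)
      · exact absurd hxy (by decide)
      · exact absurd hxy (by decide)
      · exact absurd hxy (by decide)
      · exact absurd hxy (by decide)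
    · fin_cases y
      · exact r_2_5_0
      · exact r_2_5_1
      · exact absurd hxy (by decide)
      · exact absurd hxy (by decide)
      · exact absurd hxy (by decide)
      · exact absurd hxy (by decide)
      · exact absurd hxy (by decide)
      · exact absurd hxy (by decide)
      · exact absurd hxy (by decide)
      · exact absurd hxy (by decide)
    · fin_cases y
      · exact r_2_6_0
      · exact r_2_6_1
      · exact absurd hxy (by decide)
      · exact absurd hxy (by decide)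
      · exact absurd hxy (by decide)
      · exact absurd hxy (by decide)
      · exact absurd hxy (by decide)
      · exact absurd hxy (by decide)
      · exact absurd hxy (by decide)
      · exact absurd hxy (by decide)
    · fin_cases y
      · exact r_2_7_0
      · exact r_2_7_1
      · exact absurd hxy (by decide)
      · exact absurd hxy (by decide)
      · exact absurd hxy (by decide)
      · exact absurd hxy (by decide)
      · exact absurd hxy (by decide)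
      · exact absurd hxy (by decide)
      · exact absurd hxy (by decide)
      · exact absurd hxy (by decide)
    · fin_cases y
      · exact r_2_8_0
      · exact r_2_8_1
      · exact r_2_8_2
      · exact r_2_8_3
      · exact r_2_8_4
      · exact absurd hxy (by decide)
      · exact absurd hxy (by decide)
      · exact absurd hxy (by decide)
      · exact absurd hxy (by decide)
      · exact absurd hxy (by decide)
    · fin_cases y
      · exact r_2_9_0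
      · exact r_2_9_1
      · exact r_2_9_2
      · exact r_2_9_3
      · exact r_2_9_4
      · exact absurd hxy (by decide)
      · exact absurd hxy (by decide)
      · exact absurd hxy (by decide)
      · exact absurd hxy (by decide)
      · exact absurd hxy (by decide)

/-- the matrix of the certificate -/
def N3 (e : Fin 3 → Matrix (Fin (9 + 1)) (Fin (9 + 1)) k) : Matrix (Fin (9 + 1)) (Fin (9 + 1)) k :=
  !![0, 0, 0, 0, 0, 0, 0, 0, 0, 0;
     0, 0, 0, 0, 0, 0, 0, 0, 0, 0;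
     0, 0, 0, 0, 0, 0, 0, 0, 0, 0;
     0, 0, 0, 0, 0, 0, 0, 0, 0, 0;
     0, 0, 0, 0, 0, 0, 0, 0, 0, 0;
     e 0 8 0 - e 1 8 1, 0, 0, 0, 0, 0, 0, 0, 0, 0;
     e 1 8 0 - e 2 8 1, 0, 0, 0, 0, 0, 0, 0, 0, 0;
     e 2 8 0, 0, 0, 0, 0, 0, 0, 0, 0, 0;
     0, 0, -e 2 8 1, -e 1 8 1, -e 0 8 1, 0, 0, 0, 0, 0;
     0, -e 2 9 0, -e 2 9 1, -e 1 9 1, -e 0 9 1, 0, 0, 0, 0, 0]

/-- the polynomials of the certificate -/
def a3 (e : Fin 3 → Matrix (Fin (9 + 1)) (Fin (9 + 1)) k) : Fin 3 → Fin (9 + 1) → k :=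
  ![![0, 0, 0, 0, 0, 0, 0, 0, 0, e 0 9 0 - e 1 8 0 - e 1 9 1 + e 2 8 1],
    ![0, 0, 0, 0, 0, 0, 0, 0, 0, e 1 9 0 - e 2 8 0 - e 2 9 1],
    ![0, 0, 0, 0, 0, 0, 0, 0, 0, 0]]

theorem cert3 : Cert w (Sh k 9) (fun i => Sh k 9 ^ av i) 3 := by
  refine cert_mono w av 3 N3 a3 (fun e i => by fin_cases i <;> rfl) ?_
  intro e hz hc
  have r_0_8_0 : (e 0 8 0 - e 1 8 1) - (-e 1 8 1) + (0) = e 0 8 0 := by ring
  have r_0_8_1 : (0) - (-e 0 8 1) + (0) = e 0 8 1 := by ring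
  have r_0_9_0 : (e 1 8 0 - e 2 8 1) - (-e 1 9 1) + (e 0 9 0 - e 1 8 0 - e 1 9 1 + e 2 8 1) = e 0 9 0 := by ring
  have r_0_9_1 : (0) - (-e 0 9 1) + (0) = e 0 9 1 := by ring
  have r_1_8_0 : (e 1 8 0 - e 2 8 1) - (-e 2 8 1) + (0) = e 1 8 0 := by ring
  have r_1_8_1 : (0) - (-e 1 8 1) + (0) = e 1 8 1 := by ring
  have r_1_9_0 : (e 2 8 0) - (-e 2 9 1) + (e 1 9 0 - e 2 8 0 - e 2 9 1) = e 1 9 0 := by ring
  have r_1_9_1 : (0) - (-e 1 9 1) + (0) = e 1 9 1 := by ring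
  have r_2_8_0 : (e 2 8 0) - (0) + (0) = e 2 8 0 := by ring
  have r_2_8_1 : (0) - (-e 2 8 1) + (0) = e 2 8 1 := by ring
  have r_2_9_0 : (0) - (-e 2 9 0) + (0) = e 2 9 0 := by ring
  have r_2_9_1 : (0) - (-e 2 9 1) + (0) = e 2 9 1 := by ring
  intro i x y hxy
  fin_cases i
  · fin_cases x
    · fin_cases y
      · exact absurd hxy (by decide)
      · exact absurd hxy (by decide)
      · exact absurd hxy (by decide)
      · exact absurd hxy (by decide)
      · exact absurd hxy (by decide)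
      · exact absurd hxy (by decide)
      · exact absurd hxy (by decide)
      · exact absurd hxy (by decide)
      · exact absurd hxy (by decide)
      · exact absurd hxy (by decide)
    · fin_cases y
      · exact absurd hxy (by decide)
      · exact absurd hxy (by decide)
      · exact absurd hxy (by decide)
      · exact absurd hxy (by decide)
      · exact absurd hxy (by decide)
      · exact absurd hxy (by decide)
      · exact absurd hxy (by decide)
      · exact absurd hxy (by decide)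
      · exact absurd hxy (by decide)
      · exact absurd hxy (by decide)
    · fin_cases y
      · exact absurd hxy (by decide)
      · exact absurd hxy (by decide)
      · exact absurd hxy (by decide)
      · exact absurd hxy (by decide)
      · exact absurd hxy (by decide)
      · exact absurd hxy (by decide)
      · exact absurd hxy (by decide)
      · exact absurd hxy (by decide)
      · exact absurd hxy (by decide)
      · exact absurd hxy (by decide)
    · fin_cases y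
      · exact absurd hxy (by decide)
      · exact absurd hxy (by decide)
      · exact absurd hxy (by decide)
      · exact absurd hxy (by decide)
      · exact absurd hxy (by decide)
      · exact absurd hxy (by decide)
      · exact absurd hxy (by decide)
      · exact absurd hxy (by decide)
      · exact absurd hxy (by decide)
      · exact absurd hxy (by decide)
    · fin_cases y
      · exact absurd hxy (by decide)
      · exact absurd hxy (by decide)
      · exact absurd hxy (by decide)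
      · exact absurd hxy (by decide)
      · exact absurd hxy (by decide)
      · exact absurd hxy (by decide)
      · exact absurd hxy (by decide)
      · exact absurd hxy (by decide)
      · exact absurd hxy (by decide)
      · exact absurd hxy (by decide)
    · fin_cases y
      · exact absurd hxy (by decide)
      · exact absurd hxy (by decide)
      · exact absurd hxy (by decide)
      · exact absurd hxy (by decide)
      · exact absurd hxy (by decide)
      · exact absurd hxy (by decide)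
      · exact absurd hxy (by decide)
      · exact absurd hxy (by decide)
      · exact absurd hxy (by decide)
      · exact absurd hxy (by decide)
    · fin_cases y
      · exact absurd hxy (by decide)
      · exact absurd hxy (by decide)
      · exact absurd hxy (by decide)
      · exact absurd hxy (by decide)
      · exact absurd hxy (by decide)
      · exact absurd hxy (by decide)
      · exact absurd hxy (by decide)
      · exact absurd hxy (by decide)
      · exact absurd hxy (by decide)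
      · exact absurd hxy (by decide)
    · fin_cases y
      · exact absurd hxy (by decide)
      · exact absurd hxy (by decide)
      · exact absurd hxy (by decide)
      · exact absurd hxy (by decide)
      · exact absurd hxy (by decide)
      · exact absurd hxy (by decide)
      · exact absurd hxy (by decide)
      · exact absurd hxy (by decide)
      · exact absurd hxy (by decide)
      · exact absurd hxy (by decide)
    · fin_cases y
      · exact r_0_8_0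
      · exact r_0_8_1
      · exact absurd hxy (by decide)
      · exact absurd hxy (by decide)
      · exact absurd hxy (by decide)
      · exact absurd hxy (by decide)
      · exact absurd hxy (by decide)
      · exact absurd hxy (by decide)
      · exact absurd hxy (by decide)
      · exact absurd hxy (by decide)
    · fin_cases y
      · exact r_0_9_0
      · exact r_0_9_1
      · exact absurd hxy (by decide)
      · exact absurd hxy (by decide)
      · exact absurd hxy (by decide)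
      · exact absurd hxy (by decide)
      · exact absurd hxy (by decide)
      · exact absurd hxy (by decide)
      · exact absurd hxy (by decide)
      · exact absurd hxy (by decide)
  · fin_cases x
    · fin_cases y
      · exact absurd hxy (by decide)
      · exact absurd hxy (by decide)
      · exact absurd hxy (by decide)
      · exact absurd hxy (by decide)
      · exact absurd hxy (by decide)
      · exact absurd hxy (by decide)
      · exact absurd hxy (by decide)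
      · exact absurd hxy (by decide)
      · exact absurd hxy (by decide)
      · exact absurd hxy (by decide)
    · fin_cases y
      · exact absurd hxy (by decide)
      · exact absurd hxy (by decide)
      · exact absurd hxy (by decide)
      · exact absurd hxy (by decide)
      · exact absurd hxy (by decide)
      · exact absurd hxy (by decide)
      · exact absurd hxy (by decide)
      · exact absurd hxy (by decide)
      · exact absurd hxy (by decide)
      · exact absurd hxy (by decide)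
    · fin_cases y
      · exact absurd hxy (by decide)
      · exact absurd hxy (by decide)
      · exact absurd hxy (by decide)
      · exact absurd hxy (by decide)
      · exact absurd hxy (by decide)
      · exact absurd hxy (by decide)
      · exact absurd hxy (by decide)
      · exact absurd hxy (by decide)
      · exact absurd hxy (by decide)
      · exact absurd hxy (by decide)
    · fin_cases y
      · exact absurd hxy (by decide)
      · exact absurd hxy (by decide)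
      · exact absurd hxy (by decide)
      · exact absurd hxy (by decide)
      · exact absurd hxy (by decide)
      · exact absurd hxy (by decide)
      · exact absurd hxy (by decide)
      · exact absurd hxy (by decide)
      · exact absurd hxy (by decide)
      · exact absurd hxy (by decide)
    · fin_cases y
      · exact absurd hxy (by decide)
      · exact absurd hxy (by decide)
      · exact absurd hxy (by decide)
      · exact absurd hxy (by decide)
      · exact absurd hxy (by decide)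
      · exact absurd hxy (by decide)
      · exact absurd hxy (by decide)
      · exact absurd hxy (by decide)
      · exact absurd hxy (by decide)
      · exact absurd hxy (by decide)
    · fin_cases y
      · exact absurd hxy (by decide)
      · exact absurd hxy (by decide)
      · exact absurd hxy (by decide)
      · exact absurd hxy (by decide)
      · exact absurd hxy (by decide)
      · exact absurd hxy (by decide)
      · exact absurd hxy (by decide)
      · exact absurd hxy (by decide)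
      · exact absurd hxy (by decide)
      · exact absurd hxy (by decide)
    · fin_cases y
      · exact absurd hxy (by decide)
      · exact absurd hxy (by decide)
      · exact absurd hxy (by decide)
      · exact absurd hxy (by decide)
      · exact absurd hxy (by decide)
      · exact absurd hxy (by decide)
      · exact absurd hxy (by decide)
      · exact absurd hxy (by decide)
      · exact absurd hxy (by decide)
      · exact absurd hxy (by decide)
    · fin_cases y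
      · exact absurd hxy (by decide)
      · exact absurd hxy (by decide)
      · exact absurd hxy (by decide)
      · exact absurd hxy (by decide)
      · exact absurd hxy (by decide)
      · exact absurd hxy (by decide)
      · exact absurd hxy (by decide)
      · exact absurd hxy (by decide)
      · exact absurd hxy (by decide)
      · exact absurd hxy (by decide)
    · fin_cases y
      · exact r_1_8_0
      · exact r_1_8_1
      · exact absurd hxy (by decide)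
      · exact absurd hxy (by decide)
      · exact absurd hxy (by decide)
      · exact absurd hxy (by decide)
      · exact absurd hxy (by decide)
      · exact absurd hxy (by decide)
      · exact absurd hxy (by decide)
      · exact absurd hxy (by decide)
    · fin_cases y
      · exact r_1_9_0
      · exact r_1_9_1
      · exact absurd hxy (by decide)
      · exact absurd hxy (by decide)
      · exact absurd hxy (by decide)
      · exact absurd hxy (by decide)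
      · exact absurd hxy (by decide)
      · exact absurd hxy (by decide)
      · exact absurd hxy (by decide)
      · exact absurd hxy (by decide)
  · fin_cases x
    · fin_cases y
      · exact absurd hxy (by decide)
      · exact absurd hxy (by decide)
      · exact absurd hxy (by decide)
      · exact absurd hxy (by decide)
      · exact absurd hxy (by decide)
      · exact absurd hxy (by decide)
      · exact absurd hxy (by decide)
      · exact absurd hxy (by decide)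
      · exact absurd hxy (by decide)
      · exact absurd hxy (by decide)
    · fin_cases y
      · exact absurd hxy (by decide)
      · exact absurd hxy (by decide)
      · exact absurd hxy (by decide)
      · exact absurd hxy (by decide)
      · exact absurd hxy (by decide)
      · exact absurd hxy (by decide)
      · exact absurd hxy (by decide)
      · exact absurd hxy (by decide)
      · exact absurd hxy (by decide)
      · exact absurd hxy (by decide)
    · fin_cases y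
      · exact absurd hxy (by decide)
      · exact absurd hxy (by decide)
      · exact absurd hxy (by decide)
      · exact absurd hxy (by decide)
      · exact absurd hxy (by decide)
      · exact absurd hxy (by decide)
      · exact absurd hxy (by decide)
      · exact absurd hxy (by decide)
      · exact absurd hxy (by decide)
      · exact absurd hxy (by decide)
    · fin_cases y
      · exact absurd hxy (by decide)
      · exact absurd hxy (by decide)
      · exact absurd hxy (by decide)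
      · exact absurd hxy (by decide)
      · exact absurd hxy (by decide)
      · exact absurd hxy (by decide)
      · exact absurd hxy (by decide)
      · exact absurd hxy (by decide)
      · exact absurd hxy (by decide)
      · exact absurd hxy (by decide)
    · fin_cases y
      · exact absurd hxy (by decide)
      · exact absurd hxy (by decide)
      · exact absurd hxy (by decide)
      · exact absurd hxy (by decide)
      · exact absurd hxy (by decide)
      · exact absurd hxy (by decide)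
      · exact absurd hxy (by decide)
      · exact absurd hxy (by decide)
      · exact absurd hxy (by decide)
      · exact absurd hxy (by decide)
    · fin_cases y
      · exact absurd hxy (by decide)
      · exact absurd hxy (by decide)
      · exact absurd hxy (by decide)
      · exact absurd hxy (by decide)
      · exact absurd hxy (by decide)
      · exact absurd hxy (by decide)
      · exact absurd hxy (by decide)
      · exact absurd hxy (by decide)
      · exact absurd hxy (by decide)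
      · exact absurd hxy (by decide)
    · fin_cases y
      · exact absurd hxy (by decide)
      · exact absurd hxy (by decide)
      · exact absurd hxy (by decide)
      · exact absurd hxy (by decide)
      · exact absurd hxy (by decide)
      · exact absurd hxy (by decide)
      · exact absurd hxy (by decide)
      · exact absurd hxy (by decide)
      · exact absurd hxy (by decide)
      · exact absurd hxy (by decide)
    · fin_cases y
      · exact absurd hxy (by decide)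
      · exact absurd hxy (by decide)
      · exact absurd hxy (by decide)
      · exact absurd hxy (by decide)
      · exact absurd hxy (by decide)
      · exact absurd hxy (by decide)
      · exact absurd hxy (by decide)
      · exact absurd hxy (by decide)
      · exact absurd hxy (by decide)
      · exact absurd hxy (by decide)
    · fin_cases y
      · exact r_2_8_0
      · exact r_2_8_1
      · exact absurd hxy (by decide)
      · exact absurd hxy (by decide)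
      · exact absurd hxy (by decide)
      · exact absurd hxy (by decide)
      · exact absurd hxy (by decide)
      · exact absurd hxy (by decide)
      · exact absurd hxy (by decide)
      · exact absurd hxy (by decide)
    · fin_cases y
      · exact r_2_9_0
      · exact r_2_9_1
      · exact absurd hxy (by decide)
      · exact absurd hxy (by decide)
      · exact absurd hxy (by decide)
      · exact absurd hxy (by decide)
      · exact absurd hxy (by decide)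
      · exact absurd hxy (by decide)
      · exact absurd hxy (by decide)
      · exact absurd hxy (by decide)

end C2332

end Pool.Agent.Lib.D13
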