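import Pool.Agent.Lib.D13.ReflM

/-!
# MP_5dcbc3_ag: certificate at a monomial base point

`k[t] / t ^ 10`, operators `t ^ a` for a = 1, 2, 3, levels of the powers: 0, 0, 1, 1, 1, 2, 2, 1, 2, 2.
-/

namespace Pool.Agent.Lib.D13

open Matrix Pool.Agent.Lib.Q5dc Pool.Agent.Lib.D7 Pool.Agent.Lib.D9.DensX

namespace C244

open Refl

/-- the levels -/
def w : Fin (9 + 1) → ℕ := ![0, 0, 1, 1, 1, 2, 2, 1, 2, 2]

/-- the exponents -/
def av : Fin 3 → ℕ := ![1, 2, 3]

/-- the tables of the base point -/
def bs : Base where
  lev := [0, 0, 1, 1, 1, 2, 2, 1, 2, 2]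
  pw := [[[(0, 1)], [(1, 1)], [(2, 1)], [(3, 1)], [(4, 1)], [(5, 1)], [(6, 1)], [(7, 1)], [(8, 1)],
      [(9, 1)]],
    [[], [(0, 1)], [(1, 1)], [(2, 1)], [(3, 1)], [(4, 1)], [(5, 1)], [(6, 1)], [(7, 1)], [(8,
      1)]],
    [[], [], [(0, 1)], [(1, 1)], [(2, 1)], [(3, 1)], [(4, 1)], [(5, 1)], [(6, 1)], [(7, 1)]],
    [[], [], [], [(0, 1)], [(1, 1)], [(2, 1)], [(3, 1)], [(4, 1)], [(5, 1)], [(6, 1)]],
    [[], [], [], [], [(0, 1)], [(1, 1)], [(2, 1)], [(3, 1)], [(4, 1)], [(5, 1)]],
    [[], [], [], [], [], [(0, 1)], [(1, 1)], [(2, 1)], [(3, 1)], [(4, 1)]],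
    [[], [], [], [], [], [], [(0, 1)], [(1, 1)], [(2, 1)], [(3, 1)]],
    [[], [], [], [], [], [], [], [(0, 1)], [(1, 1)], [(2, 1)]],
    [[], [], [], [], [], [], [], [], [(0, 1)], [(1, 1)]],
    [[], [], [], [], [], [], [], [], [], [(0, 1)]]]
  xc := [[(1, 1)], [(2, 1)], [(3, 1)]]
  X := [[[], [(0, 1)], [(1, 1)], [(2, 1)], [(3, 1)], [(4, 1)], [(5, 1)], [(6, 1)], [(7, 1)], [(8,
      1)]],
    [[], [], [(0, 1)], [(1, 1)], [(2, 1)], [(3, 1)], [(4, 1)], [(5, 1)], [(6, 1)], [(7, 1)]],
    [[], [], [], [(0, 1)], [(1, 1)], [(2, 1)], [(3, 1)], [(4, 1)], [(5, 1)], [(6, 1)]]]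

theorem bs_pow : bs.ckPow 10 = true := by decide +kernel

theorem bs_mono : bs.ckMono 10 [1, 2, 3] = true := by decide +kernel

/-- certificate -/
def ce1 : Cer where
  den := 3
  N := [[[(164, 3), (230, 3), (263, -3)],
      [(121, 3), (154, -3), (253, 3), (264, 3), (297, 3)],
      [],
      [],
      [],
      [],
      [],
      [],
      [],
      []],
    [[(20, 3)],
      [(131, 3)],
      [],
      [],
      [],
      [],
      [],
      [],
      [],
      []],
    [[(30, 3), (41, 3)],
      [],
      [(120, -3), (164, 3), (230, 3), (263, -3)],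
      [(220, -3)],
      [(221, -2), (254, 1), (287, 1)],
      [],
      [],
      [(257, 3)],
      [],
      []],
    [[(51, 3), (62, 3), (150, 3), (161, -3)],
      [(41, 3)],
      [(20, 3), (53, -3), (64, -3), (240, -3), (262, 3)],
      [],
      [(264, 3), (297, 3)],
      [],
      [],
      [(267, 3)],
      [],
      []],
    [[(50, 6), (61, 6), (160, -3), (182, 3)],
      [(51, 3)],
      [],
      [(53, -3), (64, -3), (141, -3), (163, 3)],
      [],
      [],
      [],
      [(167, 3)],
      [],
      []],
    [[(60, 3), (71, 3)],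
      [(50, 3), (61, 6), (160, -3), (182, 3)],
      [],
      [(52, -3)],
      [(53, -6), (64, -3), (141, -3), (163, 3)],
      [(21, 3), (54, -3), (120, -3), (131, -3), (164, 3), (230, 3), (263, -3)],
      [(220, -3), (253, -3)],
      [(221, -1), (254, -1), (287, 2)],
      [(57, -3), (167, 3)],
      [(157, -3), (267, 3)]],
    [[(70, 3), (81, 3)],
      [(71, 3)],
      [(50, 3), (61, 3), (160, -3), (182, 3)],
      [(62, -3)],
      [(41, -3), (52, -3), (151, 3), (162, -3)],
      [(53, -6), (64, -6), (141, -3), (163, 3)],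
      [(164, -3)],
      [(297, 3)],
      [(67, -3), (221, -1), (254, -1), (287, 2)],
      []],
    [[(80, 3), (91, -3)],
      [(81, 3)],
      [],
      [(83, 3)],
      [(51, -3), (62, -6), (84, 3), (150, -3), (161, 3), (260, 3), (282, -3)],
      [],
      [],
      [],
      [],
      []],
    [[(90, 3)],
      [],
      [],
      [(82, -3)],
      [],
      [(51, -3), (62, -6), (150, -3), (161, 3), (260, 3), (282, -3)],
      [(41, -6), (52, -6), (151, 6), (162, -3), (184, -3)],
      [(20, -3), (53, -9), (64, -6), (141, -6), (163, 6), (240, 3), (284, -3)],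
      [(21, 3), (87, -3), (120, -3), (131, -3), (164, 3), (230, 3), (263, -3)],
      [(154, 3), (187, -3), (220, -3), (253, -3), (264, -3)]],
    [[],
      [],
      [],
      [(92, -3)],
      [(60, -3), (82, -3), (280, 3), (291, -3)],
      [(50, -3), (61, -3), (83, 3), (160, 3), (193, -3)],
      [(51, -6), (62, -9), (84, 3), (150, -3), (161, 6), (194, -3), (260, 3), (282, -3)],
      [(41, -9), (52, -6), (151, 9), (162, -6), (184, -3), (283, 3), (294, -3)],
      [(20, -3), (53, -9), (64, -6), (97, -3), (141, -6), (163, 6), (240, 3), (284, -3)],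
      [(197, -3)]]]
  A := [[[(21, 3), (120, -3), (131, -3), (164, 3), (230, 3), (263, -3)],
      [],
      [],
      [],
      [],
      [],
      [],
      [(91, 3)],
      []],
    [[(154, 3), (220, -3), (253, -3), (264, -3), (297, -3)],
      [],
      [(53, -3), (64, -3), (163, 3)],
      [(41, -3), (52, -3), (151, 3)],
      [(51, -3), (62, -3), (161, 3)],
      [(50, -3), (61, -3), (160, 3)],
      [(60, -3), (71, -3), (170, 3)],
      [(70, -3), (81, -3), (180, 3)],
      [(80, -3), (91, 3), (190, 3)]],
    [[(221, 1), (254, 1), (287, 1)],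
      [],
      [(164, -3), (263, 3)],
      [(20, -3), (53, -3), (64, -3), (141, -3), (163, 3), (240, 3)],
      [(41, -6), (52, -3), (151, 6), (162, -3), (184, -3), (283, 3)],
      [(51, -3), (62, -6), (150, -3), (161, 3), (260, 3)],
      [(50, -3), (61, -6), (160, 3), (182, -3), (281, 3)],
      [(60, -3), (71, -3), (82, -3), (280, 3)],
      [(70, -3), (81, -3), (92, -3), (290, 3)]]]
  W := [[[],
      [],
      [],
      [[],
       [(150, -3), (161, -3)]],
      [[(60, -3)]],
      [],
      [[],
       [],
       [],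
       [(61, 3)]],
      [],
      [],
      [[],
       [],
       [],
       [(190, 3)],
       [(180, 3), (191, 3), (290, -3)]]],
    [[],
      [],
      [],
      [[(260, -3)]],
      [[(50, 3)]],
      [[],
       [],
       [(51, -3), (150, 3), (161, 3)],
       [(151, -3), (250, 3), (261, 3)]],
      [],
      [[],
       [(81, 3)]],
      [[],
       [(80, -3)],
       [],
       [(280, 3)]],
      [[],
       [(90, -3)],
       [(80, -3), (91, -3), (190, 3)]]],
    [[],
      [],
      [],
      [[],
       [(251, 3)]],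
      [[],
       [(261, 3)]],
      [[(61, -3), (160, 3), (281, 3)],
       [(150, -3)],
       [(151, -3), (261, 3)]],
      [[],
       [(281, 3)]],
      [[(180, 3)],
       [(181, 3)]],
      [],
      [[],
       [],
       [(180, 3), (290, -3)],
       [(181, 3), (291, -3)]]]]

theorem ce1_ck : ce1.ck bs 10 1 = true := by decide +kernel

/-- certificate -/
def ce2 : Cer where
  den := 1
  N := [[],
    [],
    [],
    [[(51, -1), (150, 1)],
      [],
      [],
      [],
      [],
      [],
      [],
      [],
      [],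
      []],
    [[(50, 1)],
      [],
      [],
      [],
      [],
      [],
      [],
      [],
      [],
      []],
    [[],
      [],
      [(51, -1)],
      [(250, -1)],
      [],
      [],
      [],
      [],
      [],
      []],
    [[],
      [],
      [(61, -1)],
      [(161, -1)],
      [(261, -1)],
      [],
      [],
      [],
      [],
      []],
    [[(80, 1), (91, 1)],
      [],
      [],
      [],
      [],
      [],
      [],
      [],
      [],
      []],
    [[],
      [(91, 1)],
      [(180, -1)],
      [],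
      [(281, -1)],
      [],
      [],
      [],
      [],
      []],
    [[],
      [(90, -1)],
      [],
      [(191, -1)],
      [(280, 1), (291, -1)],
      [],
      [],
      [],
      [],
      []]]
  A := [[[],
      [],
      [],
      [],
      [],
      [(60, 1)],
      [(81, 1), (180, -1)],
      [],
      []],
    [[],
      [],
      [],
      [(151, 1), (250, -1)],
      [],
      [(50, -1), (61, -1), (160, 1)],
      [(181, 1)],
      [],
      [(80, -1), (91, -1), (190, 1)]],
    [[],
      [],
      [],
      [(251, 1)],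
      [],
      [(51, 1), (150, -1), (161, -1), (260, 1)],
      [],
      [(280, 1)],
      [(191, -1), (290, 1)]]]
  W := [[[],
      [],
      [],
      [],
      [],
      [],
      [],
      [],
      [],
      []],
    [[],
      [],
      [],
      [],
      [],
      [],
      [],
      [],
      [],
      []],
    [[],
      [],
      [],
      [],
      [],
      [],
      [],
      [],
      [],
      []]]

theorem ce2_ck : ce2.ck bs 10 2 = true := by decide +kernel

variable {k : Type*} [Field k] [CharZero k]

theorem cert1 : Cert w (Sh k 9) (fun i => Sh k 9 ^ av i) 1 := by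
  refine cert_mono_ck bs_pow bs_mono ce1 ce1_ck ?_ ?_ <;> decide

theorem cert2 : Cert w (Sh k 9) (fun i => Sh k 9 ^ av i) 2 := by
  refine cert_mono_ck bs_pow bs_mono ce2 ce2_ck ?_ ?_ <;> decide

end C244

end Pool.Agent.Lib.D13
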