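import Pool.Agent.Lib.D13.ReflM

/-!
# MP_5dcbc3_ag: certificate at a monomial base point

`k[t] / t ^ 10`, operators `t ^ a` for a = 1, 2, 3, levels of the powers: 0, 0, 1, 1, 1, 2, 1, 2, 1, 2.
-/

namespace Pool.Agent.Lib.D13

open Matrix Pool.Agent.Lib.Q5dc Pool.Agent.Lib.D7 Pool.Agent.Lib.D9.DensX

namespace C253

open Refl

/-- the levels -/
def w : Fin (9 + 1) → ℕ := ![0, 0, 1, 1, 1, 2, 1, 2, 1, 2]

/-- the exponents -/
def av : Fin 3 → ℕ := ![1, 2, 3]

/-- the tables of the base point -/
def bs : Base where
  lev := [0, 0, 1, 1, 1, 2, 1, 2, 1, 2]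
  pw := [[[(0, 1)], [(1, 1)], [(2, 1)], [(3, 1)], [(4, 1)], [(5, 1)], [(6, 1)], [(7, 1)], [(8, 1)],
      [(9, 1)]],
    [[], [(0, 1)], [(1, 1)], [(2, 1)], [(3, 1)], [(4, 1)], [(5, 1)], [(6, 1)], [(7, 1)], [(8,
      1)]],
    [[], [], [(0, 1)], [(1, 1)], [(2, 1)], [(3, 1)], [(4, 1)], [(5, 1)], [(6, 1)], [(7, 1)]],
    [[], [], [], [(0, 1)], [(1, 1)], [(2, 1)], [(3, 1)], [(4, 1)], [(5, 1)], [(6, 1)]],
    [[], [], [], [], [(0, 1)], [(1, 1)], [(2, 1)], [(3, 1)], [(4, 1)], [(5, 1)]],
    [[], [], [], [], [], [(0, 1)], [(1, 1)], [(2, 1)], [(3, 1)], [(4, 1)]],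
    [[], [], [], [], [], [], [(0, 1)], [(1, 1)], [(2, 1)], [(3, 1)]],
    [[], [], [], [], [], [], [], [(0, 1)], [(1, 1)], [(2, 1)]],
    [[], [], [], [], [], [], [], [], [(0, 1)], [(1, 1)]],
    [[], [], [], [], [], [], [], [], [], [(0, 1)]]]
  xc := [[(1, 1)], [(2, 1)], [(3, 1)]]
  X := [[[], [(0, 1)], [(1, 1)], [(2, 1)], [(3, 1)], [(4, 1)], [(5, 1)], [(6, 1)], [(7, 1)], [(8,
      1)]],
    [[], [], [(0, 1)], [(1, 1)], [(2, 1)], [(3, 1)], [(4, 1)], [(5, 1)], [(6, 1)], [(7, 1)]],
    [[], [], [], [(0, 1)], [(1, 1)], [(2, 1)], [(3, 1)], [(4, 1)], [(5, 1)], [(6, 1)]]]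

theorem bs_pow : bs.ckPow 10 = true := by decide +kernel

theorem bs_mono : bs.ckMono 10 [1, 2, 3] = true := by decide +kernel

/-- certificate -/
def ce1 : Cer where
  den := 4
  N := [[[(120, 4), (153, -4), (252, 4)],
      [(121, 4), (176, 2), (198, 2), (220, -2), (253, 2)],
      [],
      [],
      [],
      [],
      [],
      [],
      [],
      []],
    [[(31, 4), (53, -4), (130, -4), (141, -4), (174, 8), (240, 8), (273, -8)],
      [(131, 4), (153, -4)],
      [],
      [],
      [],
      [],
      [],
      [],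
      [],
      []],
    [[(30, 4), (41, 4)],
      [(31, 4), (53, -4), (130, -4), (174, 4), (240, 4), (273, -4)],
      [(252, 4)],
      [(176, 2), (198, 2), (220, -2), (253, 2)],
      [(56, -1), (78, -1), (221, -3), (254, 1), (276, 1), (298, 1)],
      [],
      [(58, -4), (256, 4), (278, 4)],
      [],
      [(258, 4)],
      []],
    [[(40, 4)],
      [(41, 4)],
      [(130, -4), (174, 4), (240, 4), (273, -4)],
      [],
      [(121, 4), (176, 4), (198, 4), (231, -4), (253, 4)],
      [],
      [(156, 4), (178, 4)],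
      [],
      [(158, 4)],
      []],
    [[],
      [],
      [],
      [],
      [(131, 4), (153, -4), (241, -4)],
      [],
      [(56, 2), (78, -2), (221, -2), (254, -2), (276, 2), (298, 2)],
      [],
      [(278, 4)],
      []],
    [[(71, -4), (93, 4), (280, 4), (291, -4)],
      [],
      [(51, -4)],
      [(52, -4)],
      [],
      [],
      [(176, 4), (198, 4)],
      [(56, -2), (78, -2), (221, -2), (254, -2), (276, 2), (298, 2)],
      [(178, 4)],
      [(58, -4), (278, 4)]],
    [[(70, 4)],
      [],
      [(61, -4), (72, 4), (171, -4), (193, 4), (270, 4), (292, -4)],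
      [(40, -4), (51, -4), (150, 4), (161, -4)],
      [(30, -4), (52, -4), (250, 4), (261, -4)],
      [],
      [(54, -4), (76, 4), (131, 8), (153, -8), (241, -8), (274, -4)],
      [],
      [(56, 1), (78, 1), (221, -1), (254, -1), (276, -1), (298, 3)],
      []],
    [[(80, 4), (91, -4)],
      [],
      [],
      [(61, -4), (72, 4), (171, -8), (193, 8), (270, 8), (292, -8)],
      [(40, -4), (51, -8), (150, 4), (172, -4)],
      [(30, -4), (41, -4), (52, -4), (250, 4), (272, -4)],
      [(31, -4), (53, 4), (130, 4), (141, 4), (174, -8), (240, -4), (273, 4)],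
      [(131, 4), (153, -4), (241, -4), (274, -4)],
      [(198, 4)],
      [(56, 1), (78, -3), (221, -1), (254, -1), (276, -1), (298, 3)]],
    [[],
      [],
      [(81, -4)],
      [(170, 4), (192, -4), (280, -4), (291, 4)],
      [(61, -8), (72, 4), (94, 4), (171, -8), (193, 8), (270, 12), (292, -12)],
      [],
      [(30, -8), (41, -4), (52, -8), (96, 4), (250, 8), (261, -4), (294, -4)],
      [],
      [(54, -8), (76, 4), (98, 4), (131, 12), (153, -12), (241, -12), (274, -4), (296, -4)],
      []],
    [[],
      [],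
      [],
      [(81, -4), (92, -4)],
      [(71, 4), (93, -4), (170, 4), (192, -4), (280, -4), (291, 4)],
      [(61, -8), (72, 8), (171, -12), (193, 12), (270, 16), (292, -16)],
      [(40, -8), (51, -12), (150, 8), (172, -4), (194, -4)],
      [(30, -8), (41, -4), (52, -8), (250, 8), (261, -4), (294, -4)],
      [(31, -8), (53, 8), (130, 8), (141, 8), (174, -12), (196, -4), (240, -8), (273, 8)],
      [(54, -4), (76, 4), (131, 8), (153, -8), (241, -8), (274, -4), (296, -4)]]]
  A := [[[(54, 4), (131, -4), (153, 4), (241, 4)],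
      [(53, 4)],
      [],
      [],
      [(72, 4), (171, -4), (193, 4), (270, 4), (292, -4)],
      [(71, 4)],
      [],
      [(91, 4)],
      [(90, 4)]],
    [[],
      [(153, 4)],
      [(31, -4), (53, 4), (130, 4), (141, 4), (174, -4), (240, -4), (273, 4)],
      [(30, -4), (41, -4), (173, 4), (250, 4), (272, -4)],
      [(40, -4), (51, -4), (150, 4)],
      [(61, -4), (72, 4), (171, -4), (193, 8), (270, 8), (292, -8)],
      [(71, 4), (93, -4), (170, 4), (280, -4), (291, 4)],
      [(70, -4), (81, -4), (180, 4)],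
      [(80, -4), (91, 4), (190, 4)]],
    [[(56, -1), (78, -1), (221, 1), (254, 1), (276, 1), (298, 1)],
      [(176, 2), (198, 2), (220, 2), (253, 2)],
      [],
      [(31, -4), (53, 4), (130, 4), (141, 4), (174, -8), (240, -4), (273, 8)],
      [(30, -4), (41, -4), (52, -4), (250, 4)],
      [(40, -4), (51, -8), (150, 4), (161, 4), (172, -4), (194, -4), (293, 4)],
      [(61, -4), (72, 4), (171, -8), (193, 8), (270, 12), (292, -8)],
      [(71, 4), (93, -4), (170, 4), (192, -4), (280, -4), (291, 8)],
      [(70, -4), (81, -4), (92, -4), (290, 4)]]]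
  W := [[[],
      [],
      [[(150, -4), (271, -4)],
       [(151, -4)]],
      [],
      [],
      [[(70, -4), (290, -4)]],
      [[(190, -4)]],
      [[],
       [],
       [],
       [(71, 4)],
       [(171, 4)]],
      [],
      []],
    [[],
      [],
      [],
      [],
      [[(270, -4)]],
      [[],
       [(50, -4), (270, -4)],
       [(51, -4)],
       [],
       [(251, 4)]],
      [[(290, -4)]],
      [],
      [[],
       [(91, 4)]],
      [[],
       [(90, -4)]]],
    [[],
      [],
      [],
      [[(250, 4)]],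
      [],
      [[],
       [(271, 4)]],
      [[(71, -4), (170, 4), (291, 4)]],
      [[],
       [(291, 4)]],
      [[],
       [(191, 4)]],
      []]]

theorem ce1_ck : ce1.ck bs 10 1 = true := by decide +kernel

/-- certificate -/
def ce2 : Cer where
  den := 1
  N := [[],
    [],
    [[(250, 1)],
      [],
      [],
      [],
      [],
      [],
      [],
      [],
      [],
      []],
    [[(51, -1), (150, 1)],
      [(151, 1)],
      [],
      [],
      [],
      [],
      [],
      [],
      [],
      []],
    [[(50, 1)],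
      [],
      [],
      [],
      [],
      [],
      [],
      [],
      [],
      []],
    [[],
      [],
      [(51, -1)],
      [],
      [],
      [],
      [],
      [],
      [],
      []],
    [],
    [],
    [],
    [[],
      [],
      [],
      [(191, -1)],
      [(291, -1)],
      [],
      [],
      [],
      [],
      []]]
  A := [[[],
      [],
      [],
      [],
      [],
      [(71, 1)],
      [(70, 1)],
      [(91, 1)],
      [(90, 1)]],
    [[],
      [],
      [],
      [],
      [],
      [(171, 1)],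
      [(170, 1)],
      [],
      [(190, 1)]],
    [[],
      [],
      [],
      [(251, 1)],
      [],
      [(271, 1)],
      [(50, -1), (270, 1)],
      [],
      [(191, -1), (290, 1)]]]
  W := [[[],
      [],
      [],
      [],
      [],
      [],
      [],
      [],
      [],
      []],
    [[],
      [],
      [],
      [],
      [],
      [],
      [],
      [],
      [],
      []],
    [[],
      [],
      [],
      [],
      [],
      [],
      [],
      [],
      [],
      []]]

theorem ce2_ck : ce2.ck bs 10 2 = true := by decide +kernel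

variable {k : Type*} [Field k] [CharZero k]

theorem cert1 : Cert w (Sh k 9) (fun i => Sh k 9 ^ av i) 1 := by
  refine cert_mono_ck bs_pow bs_mono ce1 ce1_ck ?_ ?_ <;> decide

theorem cert2 : Cert w (Sh k 9) (fun i => Sh k 9 ^ av i) 2 := by
  refine cert_mono_ck bs_pow bs_mono ce2 ce2_ck ?_ ?_ <;> decide

end C253

end Pool.Agent.Lib.D13
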