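import Pool.Agent.Lib.D13.ReflM

/-!
# MP_5dcbc3_ag: certificate at a monomial base point

`k[t] / t ^ 11`, operators `t ^ a` for a = 1, 4, 5, levels of the powers: 0, 0, 1, 1, 1, 1, 1, 2, 2, 2, 2.
-/

namespace Pool.Agent.Lib.D13

open Matrix Pool.Agent.Lib.Q5dc Pool.Agent.Lib.D7 Pool.Agent.Lib.D9.DensX

namespace C254

open Refl

/-- the levels -/
def w : Fin (10 + 1) → ℕ := ![0, 0, 1, 1, 1, 1, 1, 2, 2, 2, 2]

/-- the exponents -/
def av : Fin 3 → ℕ := ![1, 4, 5]

/-- the tables of the base point -/
def bs : Base where
  lev := [0, 0, 1, 1, 1, 1, 1, 2, 2, 2, 2]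
  pw := [[[(0, 1)], [(1, 1)], [(2, 1)], [(3, 1)], [(4, 1)], [(5, 1)], [(6, 1)], [(7, 1)], [(8, 1)],
      [(9, 1)], [(10, 1)]],
    [[], [(0, 1)], [(1, 1)], [(2, 1)], [(3, 1)], [(4, 1)], [(5, 1)], [(6, 1)], [(7, 1)], [(8,
      1)], [(9, 1)]],
    [[], [], [(0, 1)], [(1, 1)], [(2, 1)], [(3, 1)], [(4, 1)], [(5, 1)], [(6, 1)], [(7, 1)],
      [(8, 1)]],
    [[], [], [], [(0, 1)], [(1, 1)], [(2, 1)], [(3, 1)], [(4, 1)], [(5, 1)], [(6, 1)], [(7,
      1)]],
    [[], [], [], [], [(0, 1)], [(1, 1)], [(2, 1)], [(3, 1)], [(4, 1)], [(5, 1)], [(6, 1)]],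
    [[], [], [], [], [], [(0, 1)], [(1, 1)], [(2, 1)], [(3, 1)], [(4, 1)], [(5, 1)]],
    [[], [], [], [], [], [], [(0, 1)], [(1, 1)], [(2, 1)], [(3, 1)], [(4, 1)]],
    [[], [], [], [], [], [], [], [(0, 1)], [(1, 1)], [(2, 1)], [(3, 1)]],
    [[], [], [], [], [], [], [], [], [(0, 1)], [(1, 1)], [(2, 1)]],
    [[], [], [], [], [], [], [], [], [], [(0, 1)], [(1, 1)]],
    [[], [], [], [], [], [], [], [], [], [], [(0, 1)]]]
  xc := [[(1, 1)], [(4, 1)], [(5, 1)]]
  X := [[[], [(0, 1)], [(1, 1)], [(2, 1)], [(3, 1)], [(4, 1)], [(5, 1)], [(6, 1)], [(7, 1)], [(8,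
      1)], [(9, 1)]],
    [[], [], [], [], [(0, 1)], [(1, 1)], [(2, 1)], [(3, 1)], [(4, 1)], [(5, 1)], [(6, 1)]],
    [[], [], [], [], [], [(0, 1)], [(1, 1)], [(2, 1)], [(3, 1)], [(4, 1)], [(5, 1)]]]

theorem bs_pow : bs.ckPow 11 = true := by decide +kernel

theorem bs_mono : bs.ckMono 11 [1, 4, 5] = true := by decide +kernel

/-- certificate -/
def ce1 : Cer where
  den := 4
  N := [[[(177, -4), (297, 4), (309, 4)],
      [(286, -8), (298, 4), (358, 4)],
      [],
      [],
      [],
      [],
      [],
      [],
      [],
      [],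
      []],
    [[(22, 2), (94, -2), (176, 2), (212, 2), (224, 2), (320, 2), (344, -2)],
      [(309, 4)],
      [],
      [],
      [],
      [],
      [],
      [],
      [],
      [],
      []],
    [[(93, 8), (105, 20), (187, -4), (211, 12), (223, -4), (235, -4), (319, 8), (343, -12),
      (355, 4)],
      [(22, -1), (34, 2), (94, -1), (176, 1), (200, 2), (212, 1), (224, 1), (320, 1), (344, -1)],
      [(177, -4), (201, -4), (213, -4), (225, -4), (309, 4), (321, 4), (333, 4), (345, 4)],
      [(154, -4), (166, 8), (202, -4), (286, 12), (298, -8), (322, 4), (358, -8)],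
      [(155, 4), (203, -4), (275, -8), (287, 2), (323, 4), (347, 2)],
      [(264, -4), (276, 2), (336, 2)],
      [(265, -2), (325, 2)],
      [],
      [],
      [],
      []],
    [[(44, 4), (56, 8), (80, 4), (92, 4), (222, 4), (234, -4), (342, -4), (354, 4)],
      [(45, 4), (93, 4), (105, 16), (187, -4), (211, 12), (223, -4), (235, -4), (319, 4), (343,
      -8), (355, 4)],
      [(200, 4)],
      [(177, -4), (213, -4), (225, -4), (309, 4), (333, 4), (345, 4)],
      [(154, -4), (166, 4), (286, 8), (298, -4), (358, -4)],
      [(275, -4), (287, 2), (347, 2)],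
      [(276, -2), (336, 2)],
      [],
      [],
      [],
      []],
    [[(79, 4), (91, 4), (103, 4), (115, 8), (221, 4), (233, -4), (341, 4), (353, -4)],
      [(56, 8), (80, 4), (92, 4), (222, 4), (234, -4), (342, -4), (354, 4)],
      [(93, 4), (105, 16), (187, -4), (211, 12), (223, -4), (235, -4), (319, 4), (343, -8), (355,
      4)],
      [(22, 1), (34, 2), (94, -3), (176, -1), (200, 2), (212, 3), (224, -1), (320, -1), (344,
      1)],
      [(177, -4), (225, -4), (309, 4), (345, 4)],
      [],
      [(287, -2), (347, 2)],
      [],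
      [],
      [],
      []],
    [[(66, 4), (78, 4), (90, 4), (102, 4), (114, 4)],
      [(79, 4), (91, 4), (103, 4), (115, 4), (221, 4), (233, -4)],
      [(56, 4), (80, 4), (92, 4), (222, 4), (234, -4), (342, -4), (354, 4)],
      [(93, 4), (105, 12), (187, -4), (211, 8), (235, -4), (319, 4), (343, -8), (355, 4)],
      [(22, 2), (94, -2), (176, -2), (212, 2), (224, 2), (320, 2), (344, -2)],
      [(177, -4), (309, 4)],
      [(286, -4), (358, 4)],
      [],
      [],
      [],
      []],
    [[(77, 4), (89, 4), (101, 4)],
      [(78, 4), (90, 4), (102, 4), (114, 4)],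
      [(79, 4), (91, 4), (103, 4)],
      [(80, 4), (92, 4)],
      [(93, 4), (105, 8), (187, -4), (211, 4), (319, 4), (343, -4)],
      [(22, 3), (34, -2), (94, -1), (176, -3), (200, -2), (212, 1), (224, 1), (236, 4), (320, 5),
      (344, -1), (356, -4)],
      [],
      [],
      [],
      [],
      []],
    [[(88, 4), (100, 4)],
      [(89, 4), (101, 4)],
      [(90, 4), (102, 4), (114, 4)],
      [(91, 4), (103, 4)],
      [(92, 4)],
      [(93, 4), (105, 4)],
      [],
      [(177, -4), (201, -4), (213, -4), (225, -4), (309, 4), (333, 4), (345, 4)],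
      [(154, -4), (166, 8), (202, -4), (286, 16), (298, -8), (358, -8)],
      [(155, 4), (203, -4), (275, -8), (287, 4), (347, 4)],
      [(144, 4), (204, -4), (264, -4), (336, 4)]],
    [[(99, 4), (111, 4)],
      [(100, 4)],
      [(101, 4)],
      [(102, 4), (114, 4)],
      [(103, 4)],
      [],
      [(105, 4)],
      [(22, 1), (34, 2), (94, -3), (176, -1), (200, 2), (212, -1), (224, -1), (320, -1), (344,
      1)],
      [(177, -4), (213, -4), (225, -4), (309, 4), (345, 4)],
      [(166, 4), (214, -4), (286, 8), (298, -4), (358, -4)],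
      [(155, 4), (215, -4), (275, -4), (347, 4)]],
    [[],
      [(111, 4)],
      [],
      [],
      [(114, 4)],
      [],
      [(44, -4), (330, 4), (342, -4)],
      [],
      [(22, 2), (94, -2), (176, -2), (212, 2), (224, -2), (320, 2), (344, -2)],
      [(177, -4), (225, -4), (309, 4)],
      [(286, 4), (346, -4)]],
    [[],
      [],
      [],
      [(112, -4)],
      [(113, -4)],
      [],
      [(115, -4)],
      [(44, -4), (56, -4), (330, 4), (354, -4)],
      [(105, -4), (211, -4), (223, 4), (343, 4), (355, -4)],
      [(22, 3), (34, -2), (94, -1), (176, -3), (200, -2), (212, 1), (224, 1), (320, 5), (344,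
      -1), (356, -4)],
      [(177, -4), (309, 4), (357, -4)]]]
  A := [[[(23, 4), (177, -4), (201, -4), (213, -4), (225, -4), (321, 4), (333, 4), (345, 4)],
      [(22, 1), (34, 2), (94, 1), (176, -1), (200, 2), (212, -1), (224, -1), (320, -1), (344,
      1)],
      [],
      [],
      [],
      [],
      [],
      [],
      [],
      [(110, 4)]],
    [[(144, 4), (264, -4), (276, 2), (336, 2)],
      [(155, 4), (275, -4), (287, 2), (347, 2)],
      [(166, 4), (286, 8), (298, -4), (358, -4)],
      [],
      [],
      [(93, -4), (105, -12), (187, 4), (211, -8), (223, 4), (235, 4), (319, -4), (343, 8), (355,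
      -4)],
      [(44, -4), (56, -4), (80, -4), (92, -4), (234, 4), (330, 4), (354, -4)],
      [(79, -4), (91, -4), (103, -4), (115, -4), (233, 4)],
      [(66, -4), (78, -4), (90, -4), (102, -4), (220, 4)],
      [(77, -4), (89, -4), (101, -4), (113, -4), (231, 4)]],
    [[(265, 2), (325, 2)],
      [(276, 2), (336, 2)],
      [(287, 2), (347, 2)],
      [(286, 4)],
      [],
      [(22, 1), (34, -2), (94, 1), (176, -1), (200, -2), (212, -1), (224, -1), (320, 3), (344,
      1)],
      [(93, -4), (105, -16), (187, 4), (211, -12), (223, 4), (235, 4), (319, -4), (343, 12),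
      (355, -4)],
      [(44, -4), (56, -8), (80, -4), (92, -4), (222, -4), (234, 4), (330, 4), (342, 4), (354,
      -4)],
      [(79, -4), (91, -4), (103, -4), (115, -8), (221, -4), (233, 4), (353, 4)],
      [(66, -4), (78, -4), (90, -4), (102, -4), (114, -4), (352, 4)]]]
  W := [[[],
      [],
      [],
      [[(209, -4), (221, -4)]],
      [],
      [[(231, -4)]],
      [[],
       [(111, -4)]],
      [[],
       [],
       [],
       [],
       [(77, 4), (89, 4), (209, -4), (221, -4)],
       [(198, 4), (352, -4)],
       [(199, 4)]],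
      [],
      [[],
       [],
       [],
       [],
       [],
       [(220, 4)]],
      [[],
       [],
       [],
       [],
       [],
       [],
       [(232, 4)]]],
    [[],
      [],
      [[(319, -4)]],
      [],
      [[(341, -4)]],
      [],
      [[],
       [(78, 4), (198, -4), (352, 4)]],
      [[(88, 4), (100, 4), (220, -4)],
       [(89, 4)]],
      [[(99, 4), (231, -4)],
       [(100, 4), (220, -4)]],
      [[],
       [],
       [],
       [],
       [],
       [],
       [(342, 4)]],
      [[],
       [(110, -4)],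
       [],
       [],
       [],
       [],
       [(353, 4)]]],
    [[],
      [],
      [],
      [],
      [],
      [],
      [[(352, 4)]],
      [[],
       [],
       [],
       [],
       [],
       [(320, -4)]],
      [[],
       [(221, 4)],
       [(210, -4)],
       [],
       [(330, -4)],
       [(331, -4)]],
      [],
      []]]

theorem ce1_ck : ce1.ck bs 11 1 = true := by decide +kernel

/-- certificate -/
def ce2 : Cer where
  den := 1
  N := [[],
    [],
    [[],
      [(320, 1)],
      [],
      [],
      [],
      [],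
      [],
      [],
      [],
      [],
      []],
    [[(330, 1)],
      [],
      [],
      [],
      [],
      [],
      [],
      [],
      [],
      [],
      []],
    [[(341, 1), (353, -1)],
      [],
      [],
      [],
      [],
      [],
      [],
      [],
      [],
      [],
      []],
    [],
    [[(231, 1)],
      [(232, 1)],
      [],
      [],
      [],
      [],
      [],
      [],
      [],
      [],
      []],
    [[(88, 1)],
      [],
      [(78, -1), (232, 1)],
      [],
      [(198, -1), (210, 1), (330, 1)],
      [],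
      [],
      [],
      [],
      [],
      []],
    [[(99, 1)],
      [],
      [(77, 1), (89, -1), (231, -1)],
      [],
      [(209, -1), (221, 1), (341, 1), (353, -1)],
      [],
      [(319, 1), (331, -1)],
      [],
      [],
      [],
      []],
    [[(110, 1)],
      [],
      [(100, -1)],
      [],
      [(220, -1)],
      [],
      [(342, -1)],
      [],
      [],
      [],
      []],
    [[],
      [],
      [(111, -1)],
      [],
      [],
      [],
      [],
      [],
      [],
      [],
      []]]
  A := [[[],
      [],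
      [],
      [],
      [],
      [],
      [(77, 1), (231, -1)],
      [],
      [],
      []],
    [[],
      [],
      [],
      [],
      [],
      [(199, 1)],
      [(210, 1)],
      [(221, 1)],
      [],
      []],
    [[],
      [],
      [],
      [],
      [],
      [],
      [(319, 1)],
      [],
      [(353, 1)],
      [(352, 1)]]]
  W := [[[],
      [],
      [],
      [],
      [],
      [],
      [],
      [],
      [],
      [],
      []],
    [[],
      [],
      [],
      [],
      [],
      [],
      [],
      [],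
      [],
      [],
      []],
    [[],
      [],
      [],
      [],
      [],
      [],
      [],
      [],
      [],
      [],
      []]]

theorem ce2_ck : ce2.ck bs 11 2 = true := by decide +kernel

variable {k : Type*} [Field k] [CharZero k]

theorem cert1 : Cert w (Sh k 10) (fun i => Sh k 10 ^ av i) 1 := by
  refine cert_mono_ck bs_pow bs_mono ce1 ce1_ck ?_ ?_ <;> decide

theorem cert2 : Cert w (Sh k 10) (fun i => Sh k 10 ^ av i) 2 := by
  refine cert_mono_ck bs_pow bs_mono ce2 ce2_ck ?_ ?_ <;> decide

end C254

end Pool.Agent.Lib.D13
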