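import Pool.Agent.Lib.D13.ReflM

/-!
# MP_5dcbc3_ag: certificate at a monomial base point

`k[t] / t ^ 10`, operators `t ^ a` for a = 1, 2, 3, levels of the powers: 0, 0, 1, 1, 1, 1, 2, 1, 1, 2.
-/

namespace Pool.Agent.Lib.D13

open Matrix Pool.Agent.Lib.Q5dc Pool.Agent.Lib.D7 Pool.Agent.Lib.D9.DensX

namespace C262

open Refl

/-- the levels -/
def w : Fin (9 + 1) → ℕ := ![0, 0, 1, 1, 1, 1, 2, 1, 1, 2]

/-- the exponents -/
def av : Fin 3 → ℕ := ![1, 2, 3]

/-- the tables of the base point -/
def bs : Base where
  lev := [0, 0, 1, 1, 1, 1, 2, 1, 1, 2]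
  pw := [[[(0, 1)], [(1, 1)], [(2, 1)], [(3, 1)], [(4, 1)], [(5, 1)], [(6, 1)], [(7, 1)], [(8, 1)],
      [(9, 1)]],
    [[], [(0, 1)], [(1, 1)], [(2, 1)], [(3, 1)], [(4, 1)], [(5, 1)], [(6, 1)], [(7, 1)], [(8,
      1)]],
    [[], [], [(0, 1)], [(1, 1)], [(2, 1)], [(3, 1)], [(4, 1)], [(5, 1)], [(6, 1)], [(7, 1)]],
    [[], [], [], [(0, 1)], [(1, 1)], [(2, 1)], [(3, 1)], [(4, 1)], [(5, 1)], [(6, 1)]],
    [[], [], [], [], [(0, 1)], [(1, 1)], [(2, 1)], [(3, 1)], [(4, 1)], [(5, 1)]],
    [[], [], [], [], [], [(0, 1)], [(1, 1)], [(2, 1)], [(3, 1)], [(4, 1)]],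
    [[], [], [], [], [], [], [(0, 1)], [(1, 1)], [(2, 1)], [(3, 1)]],
    [[], [], [], [], [], [], [], [(0, 1)], [(1, 1)], [(2, 1)]],
    [[], [], [], [], [], [], [], [], [(0, 1)], [(1, 1)]],
    [[], [], [], [], [], [], [], [], [], [(0, 1)]]]
  xc := [[(1, 1)], [(2, 1)], [(3, 1)]]
  X := [[[], [(0, 1)], [(1, 1)], [(2, 1)], [(3, 1)], [(4, 1)], [(5, 1)], [(6, 1)], [(7, 1)], [(8,
      1)]],
    [[], [], [(0, 1)], [(1, 1)], [(2, 1)], [(3, 1)], [(4, 1)], [(5, 1)], [(6, 1)], [(7, 1)]],
    [[], [], [], [(0, 1)], [(1, 1)], [(2, 1)], [(3, 1)], [(4, 1)], [(5, 1)], [(6, 1)]]]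

theorem bs_pow : bs.ckPow 10 = true := by decide +kernel

theorem bs_mono : bs.ckMono 10 [1, 2, 3] = true := by decide +kernel

/-- certificate -/
def ce1 : Cer where
  den := 2
  N := [[[(230, 2), (263, 2)],
      [(231, 2), (264, 2), (297, 2)],
      [],
      [],
      [],
      [],
      [],
      [],
      [],
      []],
    [[(20, 2), (31, -2)],
      [(131, 2), (263, 2)],
      [],
      [],
      [],
      [],
      [],
      [],
      [],
      []],
    [[(30, 2), (63, 2), (151, 2), (162, -2)],
      [],
      [(120, -2), (230, 2), (263, 2)],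
      [(220, -2)],
      [(221, -2)],
      [],
      [],
      [],
      [],
      []],
    [[(40, 2), (51, -1), (62, -1)],
      [(63, 2), (151, 2), (162, -2)],
      [],
      [(263, 2)],
      [(264, 2), (297, 2)],
      [(265, 2), (298, 2)],
      [],
      [(267, 2)],
      [(268, 2)],
      []],
    [[],
      [],
      [],
      [(20, -2), (31, 2), (141, -2), (163, 2), (240, 2), (262, -2)],
      [(131, 2), (241, -2), (263, 2)],
      [(121, -2), (165, 2), (220, 2), (231, 2), (264, 2), (297, 4)],
      [],
      [],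
      [(168, 2)],
      []],
    [[],
      [],
      [(51, -1), (62, 1)],
      [(30, -2), (140, 2), (151, -2)],
      [(20, -4), (31, 2), (64, 2), (141, -2), (163, 2), (240, 4), (262, -4)],
      [(21, -2), (65, 2), (120, 2), (131, 2), (230, -2)],
      [],
      [(67, 2), (298, 2)],
      [(68, 2), (167, -2)],
      []],
    [[(70, 2), (81, 2)],
      [],
      [(50, 2), (94, -2), (281, -2), (292, 2)],
      [],
      [(30, -2), (63, -2), (140, 2), (151, -2)],
      [(20, -4), (31, 4), (141, -2), (163, 2), (240, 4), (262, -4)],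
      [],
      [(297, 2)],
      [(298, 2)],
      [(167, -2)]],
    [[(80, 2), (91, 2)],
      [(81, 2)],
      [(60, 2), (71, -2)],
      [(50, 2), (94, -2), (160, 2), (171, -2), (281, -2), (292, 2)],
      [(51, 1), (62, -1), (150, -2), (194, 2), (260, 2), (293, -2)],
      [(30, -4), (63, -2), (140, 2), (151, -4), (195, 2), (250, 2), (294, -2)],
      [],
      [],
      [(121, -2), (198, 2), (220, 2), (231, 2), (264, 2), (297, 2)],
      []],
    [[(90, 2)],
      [(91, 2)],
      [],
      [(60, 2), (71, -2), (170, 2), (181, -2)],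
      [(50, 2), (94, -2), (160, 4), (171, -2), (193, -2), (281, -4), (292, 4)],
      [(40, -2), (95, 2), (260, 2), (293, -2)],
      [],
      [(20, -8), (31, 6), (97, 2), (141, -4), (163, 4), (240, 8), (262, -6), (295, -2)],
      [(21, -2), (98, 2), (120, 2), (131, 2), (197, -2), (230, -2)],
      []],
    [[],
      [],
      [],
      [(92, -2)],
      [(60, 4), (71, -4), (170, 2), (192, -2)],
      [(50, 4), (94, -4), (160, 4), (171, -2), (193, -2), (281, -4), (292, 4)],
      [(40, -2), (51, 1), (62, 1), (260, 2), (293, -2)],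
      [(30, -6), (63, -4), (140, 4), (151, -6), (162, 2), (250, 2), (294, -2)],
      [(20, -8), (31, 8), (141, -4), (163, 4), (240, 8), (262, -6), (295, -2)],
      [(197, -2)]]]
  A := [[[(21, 2), (120, -2), (131, -2), (230, 2)],
      [(31, 2)],
      [],
      [(51, 1), (62, 1)],
      [(50, 2)],
      [(60, 2)],
      [],
      [],
      []],
    [[(121, 2), (220, -2), (231, -2), (264, -2), (297, -2)],
      [],
      [(20, -2), (31, 2), (163, 2), (240, 2), (262, -2)],
      [(30, -2), (63, -2), (140, 2), (151, -2), (162, 2)],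
      [(40, -2), (62, 2), (150, 2)],
      [(50, 2), (94, -2), (160, 2), (281, -2), (292, 2)],
      [(60, 2), (71, -2), (170, 2)],
      [(81, -2), (92, -2), (191, 2)],
      [(80, -2), (91, -2), (190, 2)]],
    [[],
      [],
      [],
      [(20, -4), (31, 4), (141, -2), (163, 2), (240, 4), (262, -2)],
      [(30, -4), (63, -2), (140, 2), (151, -4), (162, 2), (250, 2)],
      [(40, -2), (51, 1), (62, 1), (260, 2)],
      [(50, 2), (94, -2), (160, 4), (171, -2), (193, -2), (281, -2), (292, 4)],
      [(60, 4), (71, -4), (170, 2), (192, -2), (291, 2)],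
      [(70, -2), (81, -2), (92, -2), (290, 2)]]]
  W := [[[],
      [],
      [],
      [],
      [[],
       [(61, -2)]],
      [],
      [[],
       [(191, -2)]],
      [],
      [],
      [[],
       [],
       [],
       [(91, 2)]]],
    [[],
      [],
      [],
      [[(260, -2)]],
      [],
      [],
      [[],
       [(60, -2)],
       [],
       [],
       [(261, 2)]],
      [],
      [[(90, 2)]],
      []],
    [[],
      [],
      [],
      [],
      [],
      [[],
       [(161, 2)]],
      [[],
       [(160, -2)]],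
      [[(290, 2)],
       [(60, -2), (291, 2)]],
      [[(91, -2), (190, 2)]],
      []]]

theorem ce1_ck : ce1.ck bs 10 1 = true := by decide +kernel

/-- certificate -/
def ce2 : Cer where
  den := 1
  N := [[],
    [],
    [],
    [[],
      [(261, 1)],
      [],
      [],
      [],
      [],
      [],
      [],
      [],
      []],
    [[(160, 1)],
      [],
      [],
      [],
      [],
      [],
      [],
      [],
      [],
      []],
    [[(60, 1)],
      [(61, 1)],
      [],
      [],
      [],
      [],
      [],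
      [],
      [],
      []],
    [],
    [[(190, 1)],
      [(191, 1)],
      [],
      [],
      [],
      [],
      [],
      [],
      [],
      []],
    [[(90, 1)],
      [],
      [],
      [],
      [],
      [],
      [],
      [],
      [],
      []],
    []]
  A := [[[],
      [],
      [],
      [],
      [],
      [],
      [],
      [(91, 1)],
      []],
    [[],
      [],
      [],
      [],
      [(161, 1)],
      [],
      [],
      [],
      []],
    [[],
      [],
      [],
      [],
      [],
      [(260, 1)],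
      [],
      [(291, 1)],
      [(290, 1)]]]
  W := [[[],
      [],
      [],
      [],
      [],
      [],
      [],
      [],
      [],
      []],
    [[],
      [],
      [],
      [],
      [],
      [],
      [],
      [],
      [],
      []],
    [[],
      [],
      [],
      [],
      [],
      [],
      [],
      [],
      [],
      []]]

theorem ce2_ck : ce2.ck bs 10 2 = true := by decide +kernel

variable {k : Type*} [Field k] [CharZero k]

theorem cert1 : Cert w (Sh k 9) (fun i => Sh k 9 ^ av i) 1 := by
  refine cert_mono_ck bs_pow bs_mono ce1 ce1_ck ?_ ?_ <;> decide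

theorem cert2 : Cert w (Sh k 9) (fun i => Sh k 9 ^ av i) 2 := by
  refine cert_mono_ck bs_pow bs_mono ce2 ce2_ck ?_ ?_ <;> decide

end C262

end Pool.Agent.Lib.D13
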