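import Pool.Agent.Lib.D13.ReflM

/-!
# MP_5dcbc3_ag: certificate at a monomial base point

`k[t] / t ^ 11`, operators `t ^ a` for a = 1, 3, 4, levels of the powers: 0, 0, 1, 1, 1, 1, 2, 1, 2, 1, 2.
-/

namespace Pool.Agent.Lib.D13

open Matrix Pool.Agent.Lib.Q5dc Pool.Agent.Lib.D7 Pool.Agent.Lib.D9.DensX

namespace C263

open Refl

/-- the levels -/
def w : Fin (10 + 1) → ℕ := ![0, 0, 1, 1, 1, 1, 2, 1, 2, 1, 2]

/-- the exponents -/
def av : Fin 3 → ℕ := ![1, 3, 4]

/-- the tables of the base point -/
def bs : Base where
  lev := [0, 0, 1, 1, 1, 1, 2, 1, 2, 1, 2]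
  pw := [[[(0, 1)], [(1, 1)], [(2, 1)], [(3, 1)], [(4, 1)], [(5, 1)], [(6, 1)], [(7, 1)], [(8, 1)],
      [(9, 1)], [(10, 1)]],
    [[], [(0, 1)], [(1, 1)], [(2, 1)], [(3, 1)], [(4, 1)], [(5, 1)], [(6, 1)], [(7, 1)], [(8,
      1)], [(9, 1)]],
    [[], [], [(0, 1)], [(1, 1)], [(2, 1)], [(3, 1)], [(4, 1)], [(5, 1)], [(6, 1)], [(7, 1)],
      [(8, 1)]],
    [[], [], [], [(0, 1)], [(1, 1)], [(2, 1)], [(3, 1)], [(4, 1)], [(5, 1)], [(6, 1)], [(7,
      1)]],
    [[], [], [], [], [(0, 1)], [(1, 1)], [(2, 1)], [(3, 1)], [(4, 1)], [(5, 1)], [(6, 1)]],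
    [[], [], [], [], [], [(0, 1)], [(1, 1)], [(2, 1)], [(3, 1)], [(4, 1)], [(5, 1)]],
    [[], [], [], [], [], [], [(0, 1)], [(1, 1)], [(2, 1)], [(3, 1)], [(4, 1)]],
    [[], [], [], [], [], [], [], [(0, 1)], [(1, 1)], [(2, 1)], [(3, 1)]],
    [[], [], [], [], [], [], [], [], [(0, 1)], [(1, 1)], [(2, 1)]],
    [[], [], [], [], [], [], [], [], [], [(0, 1)], [(1, 1)]],
    [[], [], [], [], [], [], [], [], [], [], [(0, 1)]]]
  xc := [[(1, 1)], [(3, 1)], [(4, 1)]]
  X := [[[], [(0, 1)], [(1, 1)], [(2, 1)], [(3, 1)], [(4, 1)], [(5, 1)], [(6, 1)], [(7, 1)], [(8,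
      1)], [(9, 1)]],
    [[], [], [], [(0, 1)], [(1, 1)], [(2, 1)], [(3, 1)], [(4, 1)], [(5, 1)], [(6, 1)], [(7,
      1)]],
    [[], [], [], [], [(0, 1)], [(1, 1)], [(2, 1)], [(3, 1)], [(4, 1)], [(5, 1)], [(6, 1)]]]

theorem bs_pow : bs.ckPow 11 = true := by decide +kernel

theorem bs_mono : bs.ckMono 11 [1, 3, 4] = true := by decide +kernel

/-- certificate -/
def ce1 : Cer where
  den := 12
  N := [[[(286, 12)],
      [(155, 12), (191, -12), (275, -24), (359, 24)],
      [],
      [],
      [],
      [],
      [],
      [],
      [],
      [],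
      []],
    [[(297, 12)],
      [],
      [],
      [],
      [],
      [],
      [],
      [],
      [],
      [],
      []],
    [[(33, 24), (69, 24), (93, 24), (176, 12), (212, -12), (308, -24), (320, 24)],
      [(22, -12), (297, 12)],
      [(154, -12), (166, 24), (190, -12), (286, 12), (310, 12)],
      [(311, 12), (359, -12)],
      [(73, -3), (97, -3), (144, -9), (192, 3), (216, 3), (240, 3), (264, -3), (276, 3)],
      [(265, -8), (313, 4), (361, 4)],
      [],
      [(315, 12)],
      [],
      [(317, 12)],
      []],
    [[(44, 24), (56, 12), (68, 12), (187, -12), (199, 12)],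
      [(33, 12), (69, 24), (93, 24), (176, 12), (212, -12), (308, -24), (320, 24)],
      [(22, -24), (177, -12), (189, 12), (297, 24), (309, -12)],
      [(154, -12), (166, 12), (286, 12)],
      [(275, -12), (359, 12)],
      [(73, -3), (97, -3), (144, -9), (192, 3), (216, 3), (240, 3), (264, 9), (276, -9)],
      [],
      [(75, -12), (194, 12), (218, 12)],
      [],
      [(196, 12)],
      []],
    [[(55, 36), (67, 12), (198, -12), (210, 24), (234, -12), (330, -12), (354, 12)],
      [(44, 12), (56, 12), (68, 12), (187, -12), (199, 12)],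
      [(33, 12), (69, 24), (93, 12), (176, 12), (212, -12), (308, -24), (320, 12), (332, 12)],
      [(22, 12), (177, 12), (213, -12), (297, -12), (333, 12)],
      [],
      [(155, 12), (191, -12), (275, -24), (287, -12), (359, 36)],
      [],
      [(265, -4), (313, -4), (337, 12), (361, -4)],
      [],
      [(339, 12)],
      []],
    [[(66, 12), (78, 12)],
      [(55, 24), (67, 12), (198, -12), (210, 24), (234, -12), (330, -12), (354, 12)],
      [(44, 12), (68, 12), (187, -12), (199, 12)],
      [(33, 12), (69, 12), (93, 12), (308, -12), (320, 12)],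
      [],
      [(166, -12), (214, 12), (334, -12)],
      [],
      [(73, 6), (97, -6), (144, -6), (192, -6), (216, 6), (240, 6), (264, 6), (276, -6)],
      [],
      [(218, 12)],
      []],
    [[],
      [(78, 12)],
      [(55, 24), (198, -12), (210, 24), (234, -12), (330, -12), (354, 12)],
      [(44, 12), (187, -12), (199, 12)],
      [(33, 12), (93, 12), (308, -12), (320, 12)],
      [(22, -12), (297, 12), (309, -12)],
      [(154, -12), (166, 24), (190, -12), (286, 12)],
      [],
      [(73, -6), (97, -6), (144, -6), (192, -6), (216, 6), (240, 6), (264, 6), (276, -6)],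
      [(265, -4), (313, -4), (361, 8)],
      [(75, -12), (218, 12)]],
    [[(88, 12), (100, 12)],
      [],
      [],
      [(55, 12), (198, -12), (210, 12)],
      [],
      [(93, 12)],
      [],
      [(23, -12), (95, 12), (154, 12), (166, -24), (190, 12), (286, -12), (310, -12), (334,
      -12)],
      [],
      [(73, 3), (97, 3), (144, -3), (192, -3), (216, -3), (240, 9), (264, 3), (276, -3)],
      []],
    [[(99, 12), (111, -12)],
      [(100, 12)],
      [(77, 12), (89, -12)],
      [(90, -12)],
      [],
      [(44, -12), (187, 12), (235, -12), (331, -12), (355, 12)],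
      [],
      [(22, 12), (177, 12), (213, -12), (297, -12)],
      [(334, -12)],
      [(155, 12), (191, -12), (275, -24), (287, -12), (335, -12), (359, 48)],
      [(73, 3), (97, -9), (144, -3), (192, -3), (216, -3), (240, 9), (264, 3), (276, -3)]],
    [[],
      [],
      [],
      [],
      [(66, -12), (90, -12), (209, 12), (221, -12)],
      [(55, -12), (330, 12), (342, -12)],
      [],
      [(69, -24), (117, 12), (176, -12), (212, 12), (308, 12), (356, -12)],
      [],
      [(23, -24), (95, 12), (119, 12), (154, 24), (166, -36), (190, 24), (238, -12), (286, -24),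
      (310, -24), (334, -12)],
      []],
    [[],
      [(110, -12)],
      [],
      [(112, -12)],
      [(77, 12), (113, -12)],
      [(66, -12), (90, -12), (114, -12), (209, 12), (221, -12)],
      [(55, -12), (67, -12), (330, 12), (354, -12)],
      [(44, -12), (56, -12), (68, -12), (187, 12), (235, -12)],
      [(69, -24), (176, -12), (212, 12), (308, 12), (356, -12)],
      [(22, -12), (297, 12), (309, -12), (357, -12)],
      [(23, -12), (95, 12), (154, 12), (166, -12), (190, 12), (238, -12), (286, -12), (310, -12),
      (334, -12)]]]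
  A := [[[(23, 12), (154, -12), (166, 24), (190, -12), (286, 12), (310, 12)],
      [],
      [],
      [],
      [],
      [],
      [(77, 12)],
      [],
      [(111, 12)],
      []],
    [[(73, -3), (97, -3), (144, 3), (192, 3), (216, 3), (240, 3), (264, -3), (276, 3)],
      [(191, 12), (275, 12), (359, -12)],
      [(166, 12)],
      [(22, 12), (177, 12), (297, -12)],
      [(33, -12), (69, -12), (93, -12), (212, 12), (308, 12), (320, -12)],
      [(44, -12), (56, -12), (68, -12), (187, 12)],
      [(55, -24), (67, -12), (198, 12), (210, -12), (234, 12), (330, 12), (354, -12)],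
      [(66, -12), (78, -12), (90, -12), (209, 12)],
      [(77, 12), (113, -12), (232, 12)],
      [(88, -12), (100, -12), (112, -12), (231, 12)]],
    [[(265, 4), (313, 4), (361, 4)],
      [(73, -3), (97, -3), (144, -9), (192, 3), (216, 3), (240, 3), (264, 9), (276, 3)],
      [(359, 12)],
      [],
      [],
      [(33, -12), (69, -24), (93, -12), (176, -12), (212, 12), (308, 24), (320, -12)],
      [(44, -24), (56, -12), (68, -12), (187, 24), (199, -12), (235, -12), (355, 12)],
      [(55, -36), (67, -12), (198, 12), (210, -24), (234, 12), (330, 24), (354, -12)],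
      [(66, -24), (78, -12), (90, -12), (209, 12), (221, -12), (341, 12)],
      [(77, 12), (113, -12), (352, 12)]]]
  W := [[[],
      [],
      [],
      [[],
       [(67, -12), (187, 12)]],
      [[],
       [(210, -12)]],
      [],
      [[],
       [],
       [],
       [],
       [(187, 12)],
       [(188, 12), (331, -12)]],
      [],
      [[],
       [],
       [],
       [(88, 12)],
       [(209, 12), (352, -12)]],
      [],
      [[],
       [],
       [],
       [],
       [],
       [(232, 12)]]],
    [[],
      [],
      [[(308, -12)]],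
      [],
      [[(330, -12)]],
      [],
      [[],
       [(66, -12)]],
      [],
      [[],
       [],
       [(89, -12), (209, 12), (352, -12)]],
      [[(110, 12)]],
      [[],
       [],
       [(111, -12)],
       [],
       [],
       [(66, -12), (353, 12)]]],
    [[],
      [],
      [],
      [],
      [],
      [[],
       [(331, 12)]],
      [[],
       [],
       [],
       [],
       [(309, -12)]],
      [[(352, 12)]],
      [],
      [],
      [[],
       [(231, -12)]]]]

theorem ce1_ck : ce1.ck bs 11 1 = true := by decide +kernel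

/-- certificate -/
def ce2 : Cer where
  den := 1
  N := [[],
    [],
    [],
    [[(187, 1)],
      [],
      [],
      [],
      [],
      [],
      [],
      [],
      [],
      [],
      []],
    [],
    [],
    [[(352, 1)],
      [],
      [(67, -1)],
      [],
      [(188, -1)],
      [(309, -1)],
      [],
      [],
      [],
      [],
      []],
    [],
    [[],
      [],
      [],
      [(209, -1)],
      [(210, -1)],
      [],
      [],
      [],
      [],
      [],
      []],
    [[(110, 1)],
      [(111, 1)],
      [],
      [],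
      [],
      [],
      [],
      [],
      [],
      [],
      []],
    [[],
      [],
      [],
      [],
      [],
      [(353, -1)],
      [],
      [],
      [],
      [],
      []]]
  A := [[[],
      [],
      [],
      [],
      [],
      [(66, 1)],
      [(89, 1)],
      [(88, 1)],
      [],
      []],
    [[],
      [],
      [],
      [],
      [],
      [],
      [],
      [],
      [(232, 1)],
      [(231, 1)]],
    [[],
      [],
      [],
      [],
      [],
      [(188, -1), (308, 1)],
      [(331, 1)],
      [(210, -1), (330, 1)],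
      [],
      []]]
  W := [[[],
      [],
      [],
      [],
      [],
      [],
      [],
      [],
      [],
      [],
      []],
    [[],
      [],
      [],
      [],
      [],
      [],
      [],
      [],
      [],
      [],
      []],
    [[],
      [],
      [],
      [],
      [],
      [],
      [],
      [],
      [],
      [],
      []]]

theorem ce2_ck : ce2.ck bs 11 2 = true := by decide +kernel

variable {k : Type*} [Field k] [CharZero k]

theorem cert1 : Cert w (Sh k 10) (fun i => Sh k 10 ^ av i) 1 := by
  refine cert_mono_ck bs_pow bs_mono ce1 ce1_ck ?_ ?_ <;> decide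

theorem cert2 : Cert w (Sh k 10) (fun i => Sh k 10 ^ av i) 2 := by
  refine cert_mono_ck bs_pow bs_mono ce2 ce2_ck ?_ ?_ <;> decide

end C263

end Pool.Agent.Lib.D13
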