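import Pool.Agent.Lib.D13.ReflM

/-!
# MP_5dcbc3_ag: certificate at a monomial base point

`k[t] / t ^ 10`, operators `t ^ a` for a = 1, 3, 4, levels of the powers: 0, 0, 0, 1, 1, 1, 1, 2, 2, 2.
-/

namespace Pool.Agent.Lib.D13

open Matrix Pool.Agent.Lib.Q5dc Pool.Agent.Lib.D7 Pool.Agent.Lib.D9.DensX

namespace C343

open Refl

/-- the levels -/
def w : Fin (9 + 1) → ℕ := ![0, 0, 0, 1, 1, 1, 1, 2, 2, 2]

/-- the exponents -/
def av : Fin 3 → ℕ := ![1, 3, 4]

/-- the tables of the base point -/
def bs : Base where
  lev := [0, 0, 0, 1, 1, 1, 1, 2, 2, 2]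
  pw := [[[(0, 1)], [(1, 1)], [(2, 1)], [(3, 1)], [(4, 1)], [(5, 1)], [(6, 1)], [(7, 1)], [(8, 1)],
      [(9, 1)]],
    [[], [(0, 1)], [(1, 1)], [(2, 1)], [(3, 1)], [(4, 1)], [(5, 1)], [(6, 1)], [(7, 1)], [(8,
      1)]],
    [[], [], [(0, 1)], [(1, 1)], [(2, 1)], [(3, 1)], [(4, 1)], [(5, 1)], [(6, 1)], [(7, 1)]],
    [[], [], [], [(0, 1)], [(1, 1)], [(2, 1)], [(3, 1)], [(4, 1)], [(5, 1)], [(6, 1)]],
    [[], [], [], [], [(0, 1)], [(1, 1)], [(2, 1)], [(3, 1)], [(4, 1)], [(5, 1)]],
    [[], [], [], [], [], [(0, 1)], [(1, 1)], [(2, 1)], [(3, 1)], [(4, 1)]],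
    [[], [], [], [], [], [], [(0, 1)], [(1, 1)], [(2, 1)], [(3, 1)]],
    [[], [], [], [], [], [], [], [(0, 1)], [(1, 1)], [(2, 1)]],
    [[], [], [], [], [], [], [], [], [(0, 1)], [(1, 1)]],
    [[], [], [], [], [], [], [], [], [], [(0, 1)]]]
  xc := [[(1, 1)], [(3, 1)], [(4, 1)]]
  X := [[[], [(0, 1)], [(1, 1)], [(2, 1)], [(3, 1)], [(4, 1)], [(5, 1)], [(6, 1)], [(7, 1)], [(8,
      1)]],
    [[], [], [], [(0, 1)], [(1, 1)], [(2, 1)], [(3, 1)], [(4, 1)], [(5, 1)], [(6, 1)]],
    [[], [], [], [], [(0, 1)], [(1, 1)], [(2, 1)], [(3, 1)], [(4, 1)], [(5, 1)]]]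

theorem bs_pow : bs.ckPow 10 = true := by decide +kernel

theorem bs_mono : bs.ckMono 10 [1, 3, 4] = true := by decide +kernel

/-- certificate -/
def ce1 : Cer where
  den := 2
  N := [[[(130, 2), (174, -2), (273, 2)],
      [(131, 1), (142, -1), (230, -1), (241, 1), (252, 1), (296, 1)],
      [(242, 2), (286, -2)],
      [],
      [],
      [],
      [],
      [],
      [],
      []],
    [[(75, -2), (86, 2), (151, 2), (184, -2), (250, 2), (261, -2)],
      [(141, 2), (174, -2)],
      [(252, 2), (296, 2)],
      [],
      [],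
      [],
      [],
      [],
      [],
      []],
    [[(74, 2), (85, 2), (96, -4), (183, -6), (194, 6), (260, 2), (293, -2)],
      [(75, -1), (86, 1), (140, -1), (151, 3), (173, -1), (184, -1), (250, 1), (261, -1)],
      [(141, 2), (152, 2), (174, -4), (251, -2)],
      [],
      [],
      [],
      [],
      [],
      [],
      []],
    [[(40, 2), (51, -2)],
      [(30, -2), (74, 2), (85, 2), (96, -2), (183, -4), (194, 4), (260, 2), (293, -2)],
      [(75, -2), (86, 2), (151, 2), (184, -2), (261, -2), (272, 2)],
      [(273, 2)],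
      [(230, -2)],
      [(231, -2), (286, 2)],
      [(232, -1), (276, 1)],
      [],
      [],
      []],
    [[(72, 2), (83, 2), (94, -4), (181, 2), (192, -2), (280, 2), (291, -2)],
      [],
      [(183, -2), (194, 2), (282, 2), (293, -2)],
      [(75, -1), (86, 1), (140, -1), (151, 1), (173, 1), (184, -1), (250, 1), (261, -1)],
      [],
      [(131, 1), (142, -1), (230, -1), (241, -1), (252, 1), (296, 1)],
      [],
      [],
      [],
      []],
    [[(60, -4), (71, 2), (82, 2), (180, 6), (191, -6)],
      [(72, 2), (83, 2), (94, -4), (181, 2), (192, -2)],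
      [],
      [],
      [],
      [(141, 2), (174, -2), (251, -2)],
      [(296, 2)],
      [],
      [],
      []],
    [[(70, 2), (81, 2), (92, 2)],
      [(60, -4), (71, 2), (82, 2), (180, 4), (191, -4)],
      [(72, 2), (83, 2), (94, -4)],
      [(51, 2), (62, -2)],
      [],
      [(75, 1), (86, -1), (140, -1), (151, 1), (173, -1), (184, 1), (250, 1), (261, -1)],
      [(141, 2), (152, 2), (174, -4), (251, -2), (262, -2)],
      [],
      [],
      []],
    [[(80, 2), (91, 2)],
      [(81, 2), (92, 2)],
      [(60, -2), (82, 2), (180, 2), (191, -2)],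
      [(83, 2), (94, -2)],
      [(51, 4), (62, -2), (73, -2)],
      [(74, -2), (96, 2), (183, 2), (194, -2)],
      [],
      [],
      [(230, -2), (274, -2)],
      [(231, -2), (275, -2), (286, 4)]],
    [[(90, 2)],
      [(91, 2)],
      [(92, 2)],
      [],
      [],
      [(51, 6), (62, -2), (73, -2), (84, -2)],
      [(74, -2), (85, -2), (96, 4), (183, 4), (194, -4)],
      [(75, 1), (86, -1), (140, 1), (151, -1), (173, 1), (184, -1), (250, -1), (261, 1)],
      [(141, 2), (185, -2), (251, -2)],
      [(131, 1), (142, 1), (186, -2), (230, -1), (241, -1), (252, -1), (296, 1)]],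
    [[],
      [],
      [],
      [],
      [],
      [],
      [(51, 8), (62, -2), (73, -2), (84, -2), (95, -2)],
      [(74, -2), (85, -2), (96, 4), (183, 6), (194, -6)],
      [(75, 2), (86, -2), (184, 2), (195, -2)],
      [(141, 2), (152, 2), (174, -2), (196, -2), (251, -2), (262, -2)]]]
  A := [[[(76, 2), (141, -2), (152, -2), (174, 4), (251, 2), (262, 2)],
      [(75, 1), (86, 1), (140, 1), (151, -1), (173, 1), (184, -1), (250, -1), (261, 1)],
      [(96, 2), (183, 2), (194, -2)],
      [(51, 2)],
      [(94, 2)],
      [(60, 2), (180, -2), (191, 2)],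
      [],
      [],
      []],
    [[(132, 2), (231, -2), (242, -2), (286, 4)],
      [(131, 1), (142, 1), (230, -1), (241, -1), (252, -1), (296, -1)],
      [(174, 2)],
      [(75, 1), (86, -1), (140, 1), (151, -1), (173, 1), (184, 1), (250, -1), (261, 1)],
      [(74, -2), (85, -2), (96, 4), (183, 6), (194, -4)],
      [(51, 6), (73, -2), (84, -2), (95, -2), (193, 2)],
      [(72, -2), (83, -2), (94, 4), (192, 2)],
      [(60, 4), (71, -2), (82, -2), (180, -4), (191, 6)],
      [(70, -2), (81, -2), (92, -2), (190, 2)]],
    [[(232, 1), (276, 1)],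
      [(286, 2)],
      [],
      [],
      [(75, 2), (86, -2), (151, -2), (184, 2), (261, 2)],
      [(74, -2), (85, -2), (96, 4), (183, 6), (194, -6), (293, 2)],
      [(51, 8), (62, -2), (73, -2), (84, -2), (95, -2), (292, 2)],
      [(72, -2), (83, -2), (94, 4), (181, -2), (192, 2), (291, 2)],
      [(60, 4), (71, -2), (82, -2), (180, -6), (191, 6), (290, 2)]]]
  W := [[[],
      [],
      [],
      [[],
       [(171, -2)],
       [(172, -2)]],
      [[],
       [(170, -2), (181, -2)],
       [(182, -2), (280, 2)]],
      [[(190, -2)],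
       [],
       [(192, -2)]],
      [[],
       [(91, -2)]],
      [],
      [],
      [[],
       [],
       [],
       [(90, 2)]]],
    [[],
      [],
      [],
      [],
      [],
      [[(290, -2)]],
      [[(70, 2), (81, 2), (92, 2)],
       [(71, 2), (82, 2), (170, -2), (181, -2), (192, -2)],
       [(72, 2), (182, -2), (280, 2)]],
      [[(80, 2), (190, -2)],
       [(81, 2), (92, 2)],
       [(82, 2), (192, -2)],
       [],
       [],
       [(271, 2)],
       [(272, 2)]],
      [[],
       [],
       [(92, 2)]],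
      []],
    [[],
      [],
      [],
      [],
      [[(270, 2)]],
      [],
      [],
      [[(180, 2), (191, 2)],
       [(170, -2)]],
      [[],
       [(191, 2)],
       [],
       [(280, -2)],
       [(281, -2)],
       [(282, -2)]],
      [[],
       [],
       [],
       [],
       [(291, -2)],
       [(292, -2)]]]]

theorem ce1_ck : ce1.ck bs 10 1 = true := by decide +kernel

/-- certificate -/
def ce2 : Cer where
  den := 1
  N := [[],
    [],
    [],
    [[(171, -1), (182, 1), (270, 1), (281, -1)],
      [(271, 1), (282, -1)],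
      [],
      [],
      [],
      [],
      [],
      [],
      [],
      []],
    [[(170, 1)],
      [],
      [],
      [],
      [],
      [],
      [],
      [],
      [],
      []],
    [[(71, -1), (82, -1), (180, 1)],
      [(181, 1)],
      [],
      [],
      [],
      [],
      [],
      [],
      [],
      []],
    [[(70, 1), (81, 1)],
      [],
      [(170, -1), (181, 1), (192, 1), (280, 1), (291, -1)],
      [],
      [],
      [],
      [],
      [],
      [],
      []],
    [[(80, 1)],
      [(81, 1)],
      [(71, -1)],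
      [],
      [(171, -1), (182, 1)],
      [],
      [],
      [],
      [],
      []],
    [[],
      [],
      [],
      [(71, -1), (82, -1)],
      [],
      [],
      [],
      [],
      [],
      []],
    [[],
      [(90, -1)],
      [(91, -1)],
      [(92, -1)],
      [(191, -1)],
      [(170, -1), (181, 1), (280, 1), (291, -1)],
      [(281, 1), (292, -1)],
      [],
      [],
      []]]
  A := [[[],
      [],
      [],
      [],
      [(72, 1), (170, 1), (181, -1), (192, -1), (280, -1), (291, 1)],
      [],
      [],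
      [],
      []],
    [[],
      [],
      [],
      [],
      [(172, 1)],
      [(182, 1)],
      [],
      [],
      [(70, -1), (81, -1), (92, -1), (190, 1)]],
    [[],
      [],
      [],
      [],
      [(272, 1)],
      [(282, 1)],
      [(281, 1)],
      [(170, -1), (280, 1)],
      [(71, 1), (82, 1), (180, -1), (191, -1), (290, 1)]]]
  W := [[[],
      [],
      [],
      [],
      [],
      [],
      [],
      [],
      [],
      []],
    [[],
      [],
      [],
      [],
      [],
      [],
      [],
      [],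
      [],
      []],
    [[],
      [],
      [],
      [],
      [],
      [],
      [],
      [],
      [],
      []]]

theorem ce2_ck : ce2.ck bs 10 2 = true := by decide +kernel

variable {k : Type*} [Field k] [CharZero k]

theorem cert1 : Cert w (Sh k 9) (fun i => Sh k 9 ^ av i) 1 := by
  refine cert_mono_ck bs_pow bs_mono ce1 ce1_ck ?_ ?_ <;> decide

theorem cert2 : Cert w (Sh k 9) (fun i => Sh k 9 ^ av i) 2 := by
  refine cert_mono_ck bs_pow bs_mono ce2 ce2_ck ?_ ?_ <;> decide

end C343

end Pool.Agent.Lib.D13
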