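import Pool.Agent.Lib.D13.ReflM

/-!
# MP_5dcbc3_ag: certificate at a monomial base point

`k[t] / t ^ 11`, operators `t ^ a` for a = 1, 3, 4, levels of the powers: 0, 0, 0, 1, 1, 1, 1, 2, 2, 2, 2.
-/

namespace Pool.Agent.Lib.D13

open Matrix Pool.Agent.Lib.Q5dc Pool.Agent.Lib.D7 Pool.Agent.Lib.D9.DensX

namespace C344

open Refl

/-- the levels -/
def w : Fin (10 + 1) → ℕ := ![0, 0, 0, 1, 1, 1, 1, 2, 2, 2, 2]

/-- the exponents -/
def av : Fin 3 → ℕ := ![1, 3, 4]

/-- the tables of the base point -/
def bs : Base where
  lev := [0, 0, 0, 1, 1, 1, 1, 2, 2, 2, 2]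
  pw := [[[(0, 1)], [(1, 1)], [(2, 1)], [(3, 1)], [(4, 1)], [(5, 1)], [(6, 1)], [(7, 1)], [(8, 1)],
      [(9, 1)], [(10, 1)]],
    [[], [(0, 1)], [(1, 1)], [(2, 1)], [(3, 1)], [(4, 1)], [(5, 1)], [(6, 1)], [(7, 1)], [(8,
      1)], [(9, 1)]],
    [[], [], [(0, 1)], [(1, 1)], [(2, 1)], [(3, 1)], [(4, 1)], [(5, 1)], [(6, 1)], [(7, 1)],
      [(8, 1)]],
    [[], [], [], [(0, 1)], [(1, 1)], [(2, 1)], [(3, 1)], [(4, 1)], [(5, 1)], [(6, 1)], [(7,
      1)]],
    [[], [], [], [], [(0, 1)], [(1, 1)], [(2, 1)], [(3, 1)], [(4, 1)], [(5, 1)], [(6, 1)]],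
    [[], [], [], [], [], [(0, 1)], [(1, 1)], [(2, 1)], [(3, 1)], [(4, 1)], [(5, 1)]],
    [[], [], [], [], [], [], [(0, 1)], [(1, 1)], [(2, 1)], [(3, 1)], [(4, 1)]],
    [[], [], [], [], [], [], [], [(0, 1)], [(1, 1)], [(2, 1)], [(3, 1)]],
    [[], [], [], [], [], [], [], [], [(0, 1)], [(1, 1)], [(2, 1)]],
    [[], [], [], [], [], [], [], [], [], [(0, 1)], [(1, 1)]],
    [[], [], [], [], [], [], [], [], [], [], [(0, 1)]]]
  xc := [[(1, 1)], [(3, 1)], [(4, 1)]]
  X := [[[], [(0, 1)], [(1, 1)], [(2, 1)], [(3, 1)], [(4, 1)], [(5, 1)], [(6, 1)], [(7, 1)], [(8,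
      1)], [(9, 1)]],
    [[], [], [], [(0, 1)], [(1, 1)], [(2, 1)], [(3, 1)], [(4, 1)], [(5, 1)], [(6, 1)], [(7,
      1)]],
    [[], [], [], [], [(0, 1)], [(1, 1)], [(2, 1)], [(3, 1)], [(4, 1)], [(5, 1)], [(6, 1)]]]

theorem bs_pow : bs.ckPow 11 = true := by decide +kernel

theorem bs_mono : bs.ckMono 11 [1, 3, 4] = true := by decide +kernel

/-- certificate -/
def ce1 : Cer where
  den := 3
  N := [[[(286, 3)],
      [(287, 3)],
      [(156, 3), (204, -3), (324, 3)],
      [],
      [],
      [],
      [],
      [],
      [],
      [],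
      []],
    [[(46, -2), (94, 2), (165, 3), (189, -1), (201, 2), (213, -1), (225, -1), (333, -1), (345,
      1)],
      [(154, -3), (166, 3), (286, 3)],
      [(155, -3), (167, 3), (275, 3), (287, 3)],
      [],
      [],
      [],
      [],
      [],
      [],
      [],
      []],
    [[(81, 6), (93, 3), (212, -3), (236, 3), (308, 3), (356, -3)],
      [(46, -1), (94, 1), (177, 3), (189, -2), (201, 1), (213, 1), (225, -2), (333, -2), (345,
      2)],
      [(154, -6), (166, 3), (226, 3), (286, 6), (298, -3), (310, 3), (346, -3)],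
      [],
      [],
      [],
      [],
      [],
      [],
      [],
      []],
    [[(56, 3), (68, 3), (116, 3), (199, -3), (223, 3), (319, 3), (355, -3)],
      [(81, 3), (93, 3), (212, -3), (236, 3), (320, 3), (356, -3)],
      [],
      [],
      [(275, -3)],
      [(276, -3)],
      [(277, -3)],
      [],
      [],
      [],
      []],
    [[(79, 3), (91, 3), (103, 3), (115, 3), (330, 3), (354, -3)],
      [(56, 3), (68, 3)],
      [(57, 3)],
      [(46, -2), (94, 2), (189, -1), (201, 2), (213, -1), (225, -1), (333, -1), (345, 1)],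
      [],
      [],
      [],
      [],
      [],
      [],
      []],
    [[],
      [(67, 3), (79, 3), (91, 3)],
      [(68, 3)],
      [],
      [(46, -1), (94, 1), (189, -2), (201, 1), (213, 1), (225, -2), (333, -2), (345, 2)],
      [(154, -3), (166, 3), (286, 3), (298, -3)],
      [(155, -3), (167, 3), (275, 3), (287, 3), (299, -3)],
      [],
      [],
      [],
      []],
    [[(77, 3)],
      [],
      [(79, 3), (91, 3)],
      [],
      [(81, -3), (224, 3), (236, -3), (344, -3), (356, 3)],
      [(189, -3)],
      [(154, -6), (166, 3), (226, 3), (286, 6), (298, -3), (346, -3)],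
      [],
      [],
      [],
      []],
    [[(88, 3), (100, 3), (112, 3)],
      [],
      [(221, -3), (233, 3), (341, 3), (353, -3)],
      [(91, 3)],
      [(80, -3)],
      [(81, -6), (224, 3), (236, -3), (344, -3), (356, 3)],
      [(46, -2), (94, 2), (189, -1), (201, -1), (213, -1), (225, -1), (333, -1), (345, 1)],
      [(154, 3), (202, -3), (286, -3)],
      [(155, 3), (203, -3), (275, -3), (287, -3)],
      [(276, -3), (324, -3)],
      [(277, -3), (325, -3)]],
    [[(99, 3), (111, -3)],
      [(100, 3), (112, 3)],
      [(89, -3)],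
      [(90, -3), (114, 3), (221, -3), (233, 3), (341, 6), (353, -6)],
      [],
      [(80, -3), (116, -3), (199, 3), (223, -3), (331, -3), (355, 3)],
      [(81, -6), (93, -3), (224, 3), (236, -3), (344, -3), (356, 3)],
      [(46, -1), (94, 1), (189, -2), (201, 1), (213, -2), (225, -2), (333, -2), (345, 2)],
      [(334, -3)],
      [(335, -3)],
      [(336, -3)]],
    [[],
      [],
      [(112, 3)],
      [(89, -3), (101, -3)],
      [(90, -3), (102, -3), (114, 6), (221, -3), (233, 3), (341, 9), (353, -9)],
      [(103, -3)],
      [(56, -3), (68, -3), (80, -3), (199, 3), (223, -3)],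
      [(81, -9), (93, -3), (212, 3), (224, 3), (236, -6), (344, -6), (356, 6)],
      [(189, -3), (225, -3)],
      [(154, -3), (166, 3), (286, 3), (298, -3), (346, -3)],
      [(155, -3), (167, 3), (275, 3), (287, 3), (299, -3), (347, -3)]],
    [[],
      [(110, -3)],
      [],
      [],
      [(89, -3), (101, -3), (113, -3)],
      [(90, -3), (102, -3), (114, 6), (221, -3), (233, 3), (341, 12), (353, -12)],
      [(103, -3), (115, -3)],
      [(56, -3), (68, -3), (80, -3), (116, -3), (199, 3), (223, -3)],
      [(81, -12), (93, -3), (212, 3), (224, 6), (236, -9), (344, -6), (356, 6)],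
      [(46, -2), (94, 2), (189, -1), (201, -1), (213, -1), (225, -1), (237, -3), (333, -1), (345,
      1)],
      [(154, -6), (166, 3), (226, 3), (286, 6), (298, -3), (346, -3), (358, -3)]]]
  A := [[[(83, 3), (154, 9), (166, -3), (202, -3), (226, -3), (286, -9), (298, 3), (346, 3)],
      [(46, 1), (94, 2), (189, -1), (201, 2), (213, -1), (225, -1), (333, -1), (345, 1)],
      [],
      [],
      [],
      [(114, 3), (341, 3), (353, -3)],
      [],
      [],
      [(111, 3)],
      []],
    [[(204, 3), (276, -3), (324, -3)],
      [(155, 3), (275, -3), (287, -3)],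
      [(154, 3), (286, -3)],
      [],
      [(81, -6), (93, -3), (212, 3), (224, 3), (236, -3), (344, -3), (356, 3)],
      [(56, -3), (68, -3), (80, -3), (199, 3)],
      [(67, -3), (79, -3), (91, -3), (210, 3)],
      [(90, -3), (102, -3), (114, 6), (233, 3), (341, 9), (353, -9)],
      [(89, -3), (101, -3), (113, -3), (232, 3)],
      [(88, -3), (100, -3), (112, -3), (231, 3)]],
    [[],
      [],
      [],
      [],
      [(46, 1), (94, -1), (189, -1), (201, -1), (213, -1), (225, -1), (333, 2), (345, 1)],
      [(81, -9), (93, -3), (212, 3), (224, 3), (236, -6), (344, -3), (356, 6)],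
      [(56, -3), (68, -3), (80, -3), (116, -3), (199, 3), (223, -3), (355, 3)],
      [(79, -3), (91, -3), (103, -3), (115, -3), (354, 3)],
      [(90, -3), (102, -3), (114, 6), (221, -3), (233, 3), (341, 12), (353, -9)],
      [(77, -3), (89, -3), (101, -3), (113, -3), (352, 3)]]]
  W := [[[],
      [],
      [],
      [[(198, -3)],
       [(79, 3), (199, -3), (211, -3), (342, 3)],
       [(200, -3), (319, 3)]],
      [[(89, 3), (101, 3), (209, -3), (221, -3), (233, -3)],
       [(78, -3), (90, -3), (353, -3)]],
      [[(220, -3), (232, -3)]],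
      [[(231, -3)]],
      [[],
       [(111, -3)],
       [],
       [],
       [],
       [(79, 3)]],
      [[],
       [],
       [],
       [],
       [(89, 3), (101, 3), (221, -3), (233, -3)]],
      [[],
       [],
       [],
       [],
       [],
       [(221, 3), (233, 3)],
       [(78, -3), (90, -3), (210, 3), (222, 3), (353, -3)]],
      []],
    [[],
      [],
      [],
      [],
      [],
      [[(341, -3)],
       [],
       [(343, -3)]],
      [[(77, 3), (89, 3), (101, 3), (209, -3), (221, -3), (233, -3)],
       [(353, -3)]],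
      [[(88, 3), (220, -3), (232, -3)],
       [],
       [(90, 3)]],
      [[(99, 3), (231, -3)],
       [],
       [(101, 3), (221, -3), (233, -3)],
       [],
       [],
       [(331, 3)],
       [(332, 3)]],
      [[(110, 3)],
       [],
       [(100, -3)]],
      [[],
       [],
       [],
       [(100, -3), (112, -3)],
       [(77, 3), (89, 3), (101, 3), (209, -3), (221, -3), (233, -3), (352, 3)]]],
    [[],
      [],
      [],
      [],
      [[],
       [],
       [(321, 3)]],
      [[(330, 3)]],
      [[],
       [(342, 3)]],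
      [[],
       [],
       [(211, 3)],
       [(319, -3)],
       [(320, -3)]],
      [[],
       [],
       [(78, 3), (90, 3), (210, -3), (353, 3)]],
      [[],
       [(232, 3)],
       [(233, 3)]],
      [[],
       [],
       [],
       [],
       [],
       [(211, 3), (354, -3)]]]]

theorem ce1_ck : ce1.ck bs 11 1 = true := by decide +kernel

/-- certificate -/
def ce2 : Cer where
  den := 1
  N := [[],
    [],
    [],
    [[(199, -1), (211, 1), (319, 1), (331, 1)],
      [(320, 1)],
      [],
      [],
      [],
      [],
      [],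
      [],
      [],
      [],
      []],
    [[(210, -1), (222, -1), (330, 1), (342, 1), (354, 1)],
      [(331, 1)],
      [],
      [],
      [],
      [],
      [],
      [],
      [],
      [],
      []],
    [[(221, -1), (233, 1), (341, 1), (353, -1)],
      [(222, -1), (342, 1), (354, 1)],
      [],
      [],
      [],
      [],
      [],
      [],
      [],
      [],
      []],
    [[(77, 1), (89, 1), (101, 1)],
      [],
      [(354, 1)],
      [],
      [],
      [],
      [],
      [],
      [],
      [],
      []],
    [[(88, 1), (100, 1)],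
      [(89, 1), (101, 1)],
      [],
      [(198, -1), (210, -1), (222, -1), (330, 1), (342, 1), (354, 1)],
      [(199, -1), (211, 1), (331, 1)],
      [],
      [(321, -1)],
      [],
      [],
      [],
      []],
    [[(99, 1)],
      [(100, 1)],
      [(101, 1)],
      [(78, 1), (90, -1)],
      [(210, -1), (222, -1), (342, 1), (354, 1)],
      [],
      [(332, -1)],
      [],
      [],
      [],
      []],
    [[],
      [],
      [],
      [],
      [(78, 1), (90, -1), (209, 1), (233, -1), (341, -1), (353, 1)],
      [(222, -1), (354, 1)],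
      [(343, -1)],
      [],
      [],
      [],
      []],
    [[],
      [(110, -1)],
      [(111, -1)],
      [(112, -1)],
      [(77, -1), (220, 1), (232, -1)],
      [(78, 1), (90, -1), (209, 1), (221, 1), (233, -2), (341, -1), (353, 1)],
      [],
      [],
      [],
      [],
      []]]
  A := [[[],
      [],
      [],
      [],
      [(79, 1), (198, -1), (210, -1), (222, -1), (330, 1), (342, 1)],
      [(78, 1)],
      [],
      [],
      [],
      []],
    [[],
      [],
      [],
      [],
      [(200, 1)],
      [(211, 1)],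
      [],
      [(78, 1), (90, -1), (209, 1), (221, 1), (233, -1), (341, -1), (353, 1)],
      [(77, -1), (89, -1), (101, -1), (220, 1)],
      [(88, -1), (100, -1), (112, -1), (231, 1)]],
    [[],
      [],
      [],
      [],
      [],
      [],
      [],
      [],
      [(78, 1), (90, -1), (209, 1), (221, 1), (233, -2), (341, -1), (353, 2)],
      [(77, -2), (89, -1), (101, -1), (220, 1), (232, -1), (352, 1)]]]
  W := [[[],
      [],
      [],
      [],
      [],
      [],
      [],
      [],
      [],
      [],
      []],
    [[],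
      [],
      [],
      [],
      [],
      [],
      [],
      [],
      [],
      [],
      []],
    [[],
      [],
      [],
      [],
      [],
      [],
      [],
      [],
      [],
      [],
      []]]

theorem ce2_ck : ce2.ck bs 11 2 = true := by decide +kernel

variable {k : Type*} [Field k] [CharZero k]

theorem cert1 : Cert w (Sh k 10) (fun i => Sh k 10 ^ av i) 1 := by
  refine cert_mono_ck bs_pow bs_mono ce1 ce1_ck ?_ ?_ <;> decide

theorem cert2 : Cert w (Sh k 10) (fun i => Sh k 10 ^ av i) 2 := by
  refine cert_mono_ck bs_pow bs_mono ce2 ce2_ck ?_ ?_ <;> decide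

end C344

end Pool.Agent.Lib.D13
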