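import Pool.Agent.Lib.D13.C344

/-!
# MP_5dcbc3_ag: certificate at a monomial base point

`k[t] / t ^ 11`, operators `t ^ a` for a = 1, 3, 4, levels of the powers: 0, 0, 0, 1, 1, 1, 1, 2, 2, 2, 2.
-/

namespace Pool.Agent.Lib.D13

open Matrix Pool.Agent.Lib.Q5dc Pool.Agent.Lib.D7 Pool.Agent.Lib.D9.DensX

namespace C344b

/-- the levels -/
def w : Fin (10 + 1) → ℕ := ![0, 0, 0, 1, 1, 1, 1, 2, 2, 2, 2]

/-- the exponents -/
def av : Fin 3 → ℕ := ![1, 3, 4]

variable {k : Type*} [Field k] [CharZero k]

/-- the certificate for `κ = 1` (see `D13/C344.lean`) -/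
theorem cert1 : Cert w (Sh k 10) (fun i => Sh k 10 ^ av i) 1 := C344.cert1

/-- a row of the matrix of the certificate -/
def R2_0 (e : Fin 3 → Matrix (Fin (10 + 1)) (Fin (10 + 1)) k) : Fin (10 + 1) → k :=
  ![0, 0, 0, 0, 0, 0, 0, 0, 0, 0, 0]

/-- a row of the matrix of the certificate -/
def R2_1 (e : Fin 3 → Matrix (Fin (10 + 1)) (Fin (10 + 1)) k) : Fin (10 + 1) → k :=
  ![0, 0, 0, 0, 0, 0, 0, 0, 0, 0, 0]

/-- a row of the matrix of the certificate -/
def R2_2 (e : Fin 3 → Matrix (Fin (10 + 1)) (Fin (10 + 1)) k) : Fin (10 + 1) → k :=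
  ![0, 0, 0, 0, 0, 0, 0, 0, 0, 0, 0]

/-- a row of the matrix of the certificate -/
def R2_3 (e : Fin 3 → Matrix (Fin (10 + 1)) (Fin (10 + 1)) k) : Fin (10 + 1) → k :=
  ![-e 1 7 1 + e 1 8 2 + e 2 7 0 + e 2 8 1 - e 2 9 2, e 2 7 1, e 2 7 2, 0, 0, 0, 0, 0, 0, 0, 0]

/-- a row of the matrix of the certificate -/
def R2_4 (e : Fin 3 → Matrix (Fin (10 + 1)) (Fin (10 + 1)) k) : Fin (10 + 1) → k :=
  ![-e 1 8 1 + e 1 9 2 + e 2 8 0 + e 2 9 1 - e 2 10 2, e 2 8 1, e 2 8 2, 0, 0, 0, 0, 0, 0, 0, 0]

/-- a row of the matrix of the certificate -/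
def R2_5 (e : Fin 3 → Matrix (Fin (10 + 1)) (Fin (10 + 1)) k) : Fin (10 + 1) → k :=
  ![(1 / 2) * e 0 7 1 - (1 / 2) * e 0 8 2 + (1 / 2) * e 1 8 0 - (1 / 2) * e 1 9 1 + (1 / 2) * e 2 9 0,
    e 2 9 1, e 2 9 2, 0, 0, 0, 0, 0, 0, 0, 0]

/-- a row of the matrix of the certificate -/
def R2_6 (e : Fin 3 → Matrix (Fin (10 + 1)) (Fin (10 + 1)) k) : Fin (10 + 1) → k :=
  ![e 0 7 0 + e 0 8 1,
    (1 / 4) * e 0 7 1 - (1 / 4) * e 0 8 2 + (1 / 4) * e 1 8 0 + (1 / 4) * e 1 9 1 - (1 / 2) * e 1 10 2 - (1 / 4) * e 2 9 0 + (1 / 2) * e 2 10 1,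
    e 2 10 2, 0, 0, 0, 0, 0, 0, 0, 0]

/-- a row of the matrix of the certificate -/
def R2_7 (e : Fin 3 → Matrix (Fin (10 + 1)) (Fin (10 + 1)) k) : Fin (10 + 1) → k :=
  ![e 0 8 0 + e 0 9 1, e 0 8 1, 0,
    -e 1 7 0 - e 1 8 1 + 2 * e 1 9 2 + e 2 8 0 + e 2 9 1 - 2 * e 2 10 2,
    -e 1 7 1 + e 1 8 2 + e 2 8 1 - e 2 9 2, 0, 0, 0, 0, 0, 0]

/-- a row of the matrix of the certificate -/
def R2_8 (e : Fin 3 → Matrix (Fin (10 + 1)) (Fin (10 + 1)) k) : Fin (10 + 1) → k :=
  ![e 0 9 0, e 0 9 1, 0,
    (3 / 4) * e 0 7 1 - (3 / 4) * e 0 8 2 - (1 / 4) * e 1 8 0 - (1 / 4) * e 1 9 1 + (1 / 2) * e 1 10 2 + (1 / 4) * e 2 9 0 - (1 / 2) * e 2 10 1,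
    -e 1 8 1 + e 1 9 2 + e 2 9 1 - e 2 10 2, 0, 0, 0, 0, 0, 0]

/-- a row of the matrix of the certificate -/
def R2_9 (e : Fin 3 → Matrix (Fin (10 + 1)) (Fin (10 + 1)) k) : Fin (10 + 1) → k :=
  ![0, 0, 0, -e 0 9 2,
    (1 / 2) * e 0 7 1 - (1 / 2) * e 0 8 2 + (1 / 2) * e 1 8 0 - (1 / 2) * e 1 9 1 - (1 / 2) * e 2 9 0,
    0, 0, 0, 0, 0, 0]

/-- a row of the matrix of the certificate -/
def R2_10 (e : Fin 3 → Matrix (Fin (10 + 1)) (Fin (10 + 1)) k) : Fin (10 + 1) → k :=
  ![0, -e 0 10 0, -e 0 10 1, -e 0 10 2, -e 0 7 0 - e 0 9 2 + e 1 9 0 - e 1 10 1,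
    (1 / 4) * e 0 7 1 - (1 / 4) * e 0 8 2 + (1 / 4) * e 1 8 0 + (1 / 4) * e 1 9 1 - (1 / 2) * e 1 10 2 - (1 / 4) * e 2 9 0 - (1 / 2) * e 2 10 1,
    0, 0, 0, 0, 0]

/-- the matrix of the certificate -/
def N2 (e : Fin 3 → Matrix (Fin (10 + 1)) (Fin (10 + 1)) k) : Matrix (Fin (10 + 1)) (Fin (10 + 1)) k :=
  Matrix.of ![R2_0 e, R2_1 e, R2_2 e, R2_3 e, R2_4 e, R2_5 e, R2_6 e, R2_7 e, R2_8 e, R2_9 e, R2_10 e]

/-- a polynomial of the certificate -/
def A2_0 (e : Fin 3 → Matrix (Fin (10 + 1)) (Fin (10 + 1)) k) : Fin (10 + 1) → k :=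
  ![0, 0, 0, 0, 0,
    e 0 7 2 - e 1 7 0 - e 1 8 1 + 2 * e 1 9 2 + e 2 8 0 + e 2 9 1 - 3 * e 2 10 2,
    (3 / 4) * e 0 7 1 + (1 / 4) * e 0 8 2 - (1 / 4) * e 1 8 0 - (1 / 4) * e 1 9 1 + (1 / 2) * e 1 10 2 + (1 / 4) * e 2 9 0 - (1 / 2) * e 2 10 1,
    0, 0, 0, 0]

/-- a polynomial of the certificate -/
def A2_1 (e : Fin 3 → Matrix (Fin (10 + 1)) (Fin (10 + 1)) k) : Fin (10 + 1) → k :=
  ![0, 0, 0, 0, 0, e 1 7 2 - e 2 8 2, e 1 8 2 - e 2 9 2, e 1 9 2 - e 2 10 2,
    (1 / 4) * e 0 7 1 - (1 / 4) * e 0 8 2 + (1 / 4) * e 1 8 0 + (1 / 4) * e 1 9 1 + (1 / 2) * e 1 10 2 - (1 / 4) * e 2 9 0 - (1 / 2) * e 2 10 1,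
    -e 0 7 0 - e 0 8 1 - e 0 9 2 + e 1 9 0, -e 0 8 0 - e 0 9 1 - e 0 10 2 + e 1 10 0]

/-- a polynomial of the certificate -/
def A2_2 (e : Fin 3 → Matrix (Fin (10 + 1)) (Fin (10 + 1)) k) : Fin (10 + 1) → k :=
  ![0, 0, 0, 0, 0, 0, 0, 0, 0, 0,
    -2 * e 0 7 0 - e 0 8 1 - e 0 9 2 + e 1 9 0 - e 1 10 1 + e 2 10 0]

/-- the polynomials of the certificate -/
def a2 (e : Fin 3 → Matrix (Fin (10 + 1)) (Fin (10 + 1)) k) : Fin 3 → Fin (10 + 1) → k :=
  ![A2_0 e, A2_1 e, A2_2 e]

theorem cert2 : Cert w (Sh k 10) (fun i => Sh k 10 ^ av i) 2 := by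
  refine cert_mono w av 2 N2 a2 (fun e i => by fin_cases i <;> rfl) ?_
  intro e hz hc
  have r_0_7_0 : (e 0 7 0 + e 0 8 1) - (e 0 8 1) + (0) = e 0 7 0 := by ring
  have r_0_7_1 : ((1 / 4) * e 0 7 1 - (1 / 4) * e 0 8 2 + (1 / 4) * e 1 8 0 + (1 / 4) * e 1 9 1 - (1 / 2) * e 1 10 2 - (1 / 4) * e 2 9 0 + (1 / 2) * e 2 10 1) - (0) + ((3 / 4) * e 0 7 1 + (1 / 4) * e 0 8 2 - (1 / 4) * e 1 8 0 - (1 / 4) * e 1 9 1 + (1 / 2) * e 1 10 2 + (1 / 4) * e 2 9 0 - (1 / 2) * e 2 10 1) = e 0 7 1 := by ring
  have r_0_7_2 : (e 2 10 2) - (-e 1 7 0 - e 1 8 1 + 2 * e 1 9 2 + e 2 8 0 + e 2 9 1 - 2 * e 2 10 2) + (e 0 7 2 - e 1 7 0 - e 1 8 1 + 2 * e 1 9 2 + e 2 8 0 + e 2 9 1 - 3 * e 2 10 2) = e 0 7 2 := by ring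
  have r_0_8_0 : (e 0 8 0 + e 0 9 1) - (e 0 9 1) + (0) = e 0 8 0 := by ring
  have r_0_8_1 : (e 0 8 1) - (0) + (0) = e 0 8 1 := by ring
  have r_0_8_2 : (0) - ((3 / 4) * e 0 7 1 - (3 / 4) * e 0 8 2 - (1 / 4) * e 1 8 0 - (1 / 4) * e 1 9 1 + (1 / 2) * e 1 10 2 + (1 / 4) * e 2 9 0 - (1 / 2) * e 2 10 1) + ((3 / 4) * e 0 7 1 + (1 / 4) * e 0 8 2 - (1 / 4) * e 1 8 0 - (1 / 4) * e 1 9 1 + (1 / 2) * e 1 10 2 + (1 / 4) * e 2 9 0 - (1 / 2) * e 2 10 1) = e 0 8 2 := by ring
  have r_0_9_0 : (e 0 9 0) - (0) + (0) = e 0 9 0 := by ring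
  have r_0_9_1 : (e 0 9 1) - (0) + (0) = e 0 9 1 := by ring
  have r_0_9_2 : (0) - (-e 0 9 2) + (0) = e 0 9 2 := by ring
  have r_0_10_0 : (0) - (-e 0 10 0) + (0) = e 0 10 0 := by ring
  have r_0_10_1 : (0) - (-e 0 10 1) + (0) = e 0 10 1 := by ring
  have r_0_10_2 : (0) - (-e 0 10 2) + (0) = e 0 10 2 := by ring
  have r_1_7_0 : (-e 1 8 1 + e 1 9 2 + e 2 8 0 + e 2 9 1 - e 2 10 2) - (-e 1 7 0 - e 1 8 1 + 2 * e 1 9 2 + e 2 8 0 + e 2 9 1 - 2 * e 2 10 2) + (e 1 9 2 - e 2 10 2) = e 1 7 0 := by ring
  have r_1_7_1 : (e 2 8 1) - (-e 1 7 1 + e 1 8 2 + e 2 8 1 - e 2 9 2) + (e 1 8 2 - e 2 9 2) = e 1 7 1 := by ring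
  have r_1_7_2 : (e 2 8 2) - (0) + (e 1 7 2 - e 2 8 2) = e 1 7 2 := by ring
  have r_1_8_0 : ((1 / 2) * e 0 7 1 - (1 / 2) * e 0 8 2 + (1 / 2) * e 1 8 0 - (1 / 2) * e 1 9 1 + (1 / 2) * e 2 9 0) - ((3 / 4) * e 0 7 1 - (3 / 4) * e 0 8 2 - (1 / 4) * e 1 8 0 - (1 / 4) * e 1 9 1 + (1 / 2) * e 1 10 2 + (1 / 4) * e 2 9 0 - (1 / 2) * e 2 10 1) + ((1 / 4) * e 0 7 1 - (1 / 4) * e 0 8 2 + (1 / 4) * e 1 8 0 + (1 / 4) * e 1 9 1 + (1 / 2) * e 1 10 2 - (1 / 4) * e 2 9 0 - (1 / 2) * e 2 10 1) = e 1 8 0 := by ring
  have r_1_8_1 : (e 2 9 1) - (-e 1 8 1 + e 1 9 2 + e 2 9 1 - e 2 10 2) + (e 1 9 2 - e 2 10 2) = e 1 8 1 := by ring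
  have r_1_8_2 : (e 2 9 2) - (0) + (e 1 8 2 - e 2 9 2) = e 1 8 2 := by ring
  have r_1_9_0 : (e 0 7 0 + e 0 8 1) - (-e 0 9 2) + (-e 0 7 0 - e 0 8 1 - e 0 9 2 + e 1 9 0) = e 1 9 0 := by ring
  have r_1_9_1 : ((1 / 4) * e 0 7 1 - (1 / 4) * e 0 8 2 + (1 / 4) * e 1 8 0 + (1 / 4) * e 1 9 1 - (1 / 2) * e 1 10 2 - (1 / 4) * e 2 9 0 + (1 / 2) * e 2 10 1) - ((1 / 2) * e 0 7 1 - (1 / 2) * e 0 8 2 + (1 / 2) * e 1 8 0 - (1 / 2) * e 1 9 1 - (1 / 2) * e 2 9 0) + ((1 / 4) * e 0 7 1 - (1 / 4) * e 0 8 2 + (1 / 4) * e 1 8 0 + (1 / 4) * e 1 9 1 + (1 / 2) * e 1 10 2 - (1 / 4) * e 2 9 0 - (1 / 2) * e 2 10 1) = e 1 9 1 := by ring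
  have r_1_9_2 : (e 2 10 2) - (0) + (e 1 9 2 - e 2 10 2) = e 1 9 2 := by ring
  have r_1_10_0 : (e 0 8 0 + e 0 9 1) - (-e 0 10 2) + (-e 0 8 0 - e 0 9 1 - e 0 10 2 + e 1 10 0) = e 1 10 0 := by ring
  have r_1_10_1 : (e 0 8 1) - (-e 0 7 0 - e 0 9 2 + e 1 9 0 - e 1 10 1) + (-e 0 7 0 - e 0 8 1 - e 0 9 2 + e 1 9 0) = e 1 10 1 := by ring
  have r_1_10_2 : (0) - ((1 / 4) * e 0 7 1 - (1 / 4) * e 0 8 2 + (1 / 4) * e 1 8 0 + (1 / 4) * e 1 9 1 - (1 / 2) * e 1 10 2 - (1 / 4) * e 2 9 0 - (1 / 2) * e 2 10 1) + ((1 / 4) * e 0 7 1 - (1 / 4) * e 0 8 2 + (1 / 4) * e 1 8 0 + (1 / 4) * e 1 9 1 + (1 / 2) * e 1 10 2 - (1 / 4) * e 2 9 0 - (1 / 2) * e 2 10 1) = e 1 10 2 := by ring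
  have r_2_7_0 : (-e 1 7 1 + e 1 8 2 + e 2 7 0 + e 2 8 1 - e 2 9 2) - (-e 1 7 1 + e 1 8 2 + e 2 8 1 - e 2 9 2) + (0) = e 2 7 0 := by ring
  have r_2_7_1 : (e 2 7 1) - (0) + (0) = e 2 7 1 := by ring
  have r_2_7_2 : (e 2 7 2) - (0) + (0) = e 2 7 2 := by ring
  have r_2_8_0 : (-e 1 8 1 + e 1 9 2 + e 2 8 0 + e 2 9 1 - e 2 10 2) - (-e 1 8 1 + e 1 9 2 + e 2 9 1 - e 2 10 2) + (0) = e 2 8 0 := by ring
  have r_2_8_1 : (e 2 8 1) - (0) + (0) = e 2 8 1 := by ring
  have r_2_8_2 : (e 2 8 2) - (0) + (0) = e 2 8 2 := by ring
  have r_2_9_0 : ((1 / 2) * e 0 7 1 - (1 / 2) * e 0 8 2 + (1 / 2) * e 1 8 0 - (1 / 2) * e 1 9 1 + (1 / 2) * e 2 9 0) - ((1 / 2) * e 0 7 1 - (1 / 2) * e 0 8 2 + (1 / 2) * e 1 8 0 - (1 / 2) * e 1 9 1 - (1 / 2) * e 2 9 0) + (0) = e 2 9 0 := by ring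
  have r_2_9_1 : (e 2 9 1) - (0) + (0) = e 2 9 1 := by ring
  have r_2_9_2 : (e 2 9 2) - (0) + (0) = e 2 9 2 := by ring
  have r_2_10_0 : (e 0 7 0 + e 0 8 1) - (-e 0 7 0 - e 0 9 2 + e 1 9 0 - e 1 10 1) + (-2 * e 0 7 0 - e 0 8 1 - e 0 9 2 + e 1 9 0 - e 1 10 1 + e 2 10 0) = e 2 10 0 := by ring
  have r_2_10_1 : ((1 / 4) * e 0 7 1 - (1 / 4) * e 0 8 2 + (1 / 4) * e 1 8 0 + (1 / 4) * e 1 9 1 - (1 / 2) * e 1 10 2 - (1 / 4) * e 2 9 0 + (1 / 2) * e 2 10 1) - ((1 / 4) * e 0 7 1 - (1 / 4) * e 0 8 2 + (1 / 4) * e 1 8 0 + (1 / 4) * e 1 9 1 - (1 / 2) * e 1 10 2 - (1 / 4) * e 2 9 0 - (1 / 2) * e 2 10 1) + (0) = e 2 10 1 := by ring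
  have r_2_10_2 : (e 2 10 2) - (0) + (0) = e 2 10 2 := by ring
  intro i x y hxy
  fin_cases i
  · fin_cases x
    · fin_cases y
      · exact absurd hxy (by decide)
      · exact absurd hxy (by decide)
      · exact absurd hxy (by decide)
      · exact absurd hxy (by decide)
      · exact absurd hxy (by decide)
      · exact absurd hxy (by decide)
      · exact absurd hxy (by decide)
      · exact absurd hxy (by decide)
      · exact absurd hxy (by decide)
      · exact absurd hxy (by decide)
      · exact absurd hxy (by decide)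
    · fin_cases y
      · exact absurd hxy (by decide)
      · exact absurd hxy (by decide)
      · exact absurd hxy (by decide)
      · exact absurd hxy (by decide)
      · exact absurd hxy (by decide)
      · exact absurd hxy (by decide)
      · exact absurd hxy (by decide)
      · exact absurd hxy (by decide)
      · exact absurd hxy (by decide)
      · exact absurd hxy (by decide)
      · exact absurd hxy (by decide)
    · fin_cases y
      · exact absurd hxy (by decide)
      · exact absurd hxy (by decide)
      · exact absurd hxy (by decide)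
      · exact absurd hxy (by decide)
      · exact absurd hxy (by decide)
      · exact absurd hxy (by decide)
      · exact absurd hxy (by decide)
      · exact absurd hxy (by decide)
      · exact absurd hxy (by decide)
      · exact absurd hxy (by decide)
      · exact absurd hxy (by decide)
    · fin_cases y
      · exact absurd hxy (by decide)
      · exact absurd hxy (by decide)
      · exact absurd hxy (by decide)
      · exact absurd hxy (by decide)
      · exact absurd hxy (by decide)
      · exact absurd hxy (by decide)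
      · exact absurd hxy (by decide)
      · exact absurd hxy (by decide)
      · exact absurd hxy (by decide)
      · exact absurd hxy (by decide)
      · exact absurd hxy (by decide)
    · fin_cases y
      · exact absurd hxy (by decide)
      · exact absurd hxy (by decide)
      · exact absurd hxy (by decide)
      · exact absurd hxy (by decide)
      · exact absurd hxy (by decide)
      · exact absurd hxy (by decide)
      · exact absurd hxy (by decide)
      · exact absurd hxy (by decide)
      · exact absurd hxy (by decide)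
      · exact absurd hxy (by decide)
      · exact absurd hxy (by decide)
    · fin_cases y
      · exact absurd hxy (by decide)
      · exact absurd hxy (by decide)
      · exact absurd hxy (by decide)
      · exact absurd hxy (by decide)
      · exact absurd hxy (by decide)
      · exact absurd hxy (by decide)
      · exact absurd hxy (by decide)
      · exact absurd hxy (by decide)
      · exact absurd hxy (by decide)
      · exact absurd hxy (by decide)
      · exact absurd hxy (by decide)
    · fin_cases y
      · exact absurd hxy (by decide)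
      · exact absurd hxy (by decide)
      · exact absurd hxy (by decide)
      · exact absurd hxy (by decide)
      · exact absurd hxy (by decide)
      · exact absurd hxy (by decide)
      · exact absurd hxy (by decide)
      · exact absurd hxy (by decide)
      · exact absurd hxy (by decide)
      · exact absurd hxy (by decide)
      · exact absurd hxy (by decide)
    · fin_cases y
      · exact r_0_7_0
      · exact r_0_7_1
      · exact r_0_7_2
      · exact absurd hxy (by decide)
      · exact absurd hxy (by decide)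
      · exact absurd hxy (by decide)
      · exact absurd hxy (by decide)
      · exact absurd hxy (by decide)
      · exact absurd hxy (by decide)
      · exact absurd hxy (by decide)
      · exact absurd hxy (by decide)
    · fin_cases y
      · exact r_0_8_0
      · exact r_0_8_1
      · exact r_0_8_2
      · exact absurd hxy (by decide)
      · exact absurd hxy (by decide)
      · exact absurd hxy (by decide)
      · exact absurd hxy (by decide)
      · exact absurd hxy (by decide)
      · exact absurd hxy (by decide)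
      · exact absurd hxy (by decide)
      · exact absurd hxy (by decide)
    · fin_cases y
      · exact r_0_9_0
      · exact r_0_9_1
      · exact r_0_9_2
      · exact absurd hxy (by decide)
      · exact absurd hxy (by decide)
      · exact absurd hxy (by decide)
      · exact absurd hxy (by decide)
      · exact absurd hxy (by decide)
      · exact absurd hxy (by decide)
      · exact absurd hxy (by decide)
      · exact absurd hxy (by decide)
    · fin_cases y
      · exact r_0_10_0
      · exact r_0_10_1
      · exact r_0_10_2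
      · exact absurd hxy (by decide)
      · exact absurd hxy (by decide)
      · exact absurd hxy (by decide)
      · exact absurd hxy (by decide)
      · exact absurd hxy (by decide)
      · exact absurd hxy (by decide)
      · exact absurd hxy (by decide)
      · exact absurd hxy (by decide)
  · fin_cases x
    · fin_cases y
      · exact absurd hxy (by decide)
      · exact absurd hxy (by decide)
      · exact absurd hxy (by decide)
      · exact absurd hxy (by decide)
      · exact absurd hxy (by decide)
      · exact absurd hxy (by decide)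
      · exact absurd hxy (by decide)
      · exact absurd hxy (by decide)
      · exact absurd hxy (by decide)
      · exact absurd hxy (by decide)
      · exact absurd hxy (by decide)
    · fin_cases y
      · exact absurd hxy (by decide)
      · exact absurd hxy (by decide)
      · exact absurd hxy (by decide)
      · exact absurd hxy (by decide)
      · exact absurd hxy (by decide)
      · exact absurd hxy (by decide)
      · exact absurd hxy (by decide)
      · exact absurd hxy (by decide)
      · exact absurd hxy (by decide)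
      · exact absurd hxy (by decide)
      · exact absurd hxy (by decide)
    · fin_cases y
      · exact absurd hxy (by decide)
      · exact absurd hxy (by decide)
      · exact absurd hxy (by decide)
      · exact absurd hxy (by decide)
      · exact absurd hxy (by decide)
      · exact absurd hxy (by decide)
      · exact absurd hxy (by decide)
      · exact absurd hxy (by decide)
      · exact absurd hxy (by decide)
      · exact absurd hxy (by decide)
      · exact absurd hxy (by decide)
    · fin_cases y
      · exact absurd hxy (by decide)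
      · exact absurd hxy (by decide)
      · exact absurd hxy (by decide)
      · exact absurd hxy (by decide)
      · exact absurd hxy (by decide)
      · exact absurd hxy (by decide)
      · exact absurd hxy (by decide)
      · exact absurd hxy (by decide)
      · exact absurd hxy (by decide)
      · exact absurd hxy (by decide)
      · exact absurd hxy (by decide)
    · fin_cases y
      · exact absurd hxy (by decide)
      · exact absurd hxy (by decide)
      · exact absurd hxy (by decide)
      · exact absurd hxy (by decide)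
      · exact absurd hxy (by decide)
      · exact absurd hxy (by decide)
      · exact absurd hxy (by decide)
      · exact absurd hxy (by decide)
      · exact absurd hxy (by decide)
      · exact absurd hxy (by decide)
      · exact absurd hxy (by decide)
    · fin_cases y
      · exact absurd hxy (by decide)
      · exact absurd hxy (by decide)
      · exact absurd hxy (by decide)
      · exact absurd hxy (by decide)
      · exact absurd hxy (by decide)
      · exact absurd hxy (by decide)
      · exact absurd hxy (by decide)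
      · exact absurd hxy (by decide)
      · exact absurd hxy (by decide)
      · exact absurd hxy (by decide)
      · exact absurd hxy (by decide)
    · fin_cases y
      · exact absurd hxy (by decide)
      · exact absurd hxy (by decide)
      · exact absurd hxy (by decide)
      · exact absurd hxy (by decide)
      · exact absurd hxy (by decide)
      · exact absurd hxy (by decide)
      · exact absurd hxy (by decide)
      · exact absurd hxy (by decide)
      · exact absurd hxy (by decide)
      · exact absurd hxy (by decide)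
      · exact absurd hxy (by decide)
    · fin_cases y
      · exact r_1_7_0
      · exact r_1_7_1
      · exact r_1_7_2
      · exact absurd hxy (by decide)
      · exact absurd hxy (by decide)
      · exact absurd hxy (by decide)
      · exact absurd hxy (by decide)
      · exact absurd hxy (by decide)
      · exact absurd hxy (by decide)
      · exact absurd hxy (by decide)
      · exact absurd hxy (by decide)
    · fin_cases y
      · exact r_1_8_0
      · exact r_1_8_1
      · exact r_1_8_2
      · exact absurd hxy (by decide)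
      · exact absurd hxy (by decide)
      · exact absurd hxy (by decide)
      · exact absurd hxy (by decide)
      · exact absurd hxy (by decide)
      · exact absurd hxy (by decide)
      · exact absurd hxy (by decide)
      · exact absurd hxy (by decide)
    · fin_cases y
      · exact r_1_9_0
      · exact r_1_9_1
      · exact r_1_9_2
      · exact absurd hxy (by decide)
      · exact absurd hxy (by decide)
      · exact absurd hxy (by decide)
      · exact absurd hxy (by decide)
      · exact absurd hxy (by decide)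
      · exact absurd hxy (by decide)
      · exact absurd hxy (by decide)
      · exact absurd hxy (by decide)
    · fin_cases y
      · exact r_1_10_0
      · exact r_1_10_1
      · exact r_1_10_2
      · exact absurd hxy (by decide)
      · exact absurd hxy (by decide)
      · exact absurd hxy (by decide)
      · exact absurd hxy (by decide)
      · exact absurd hxy (by decide)
      · exact absurd hxy (by decide)
      · exact absurd hxy (by decide)
      · exact absurd hxy (by decide)
  · fin_cases x
    · fin_cases y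
      · exact absurd hxy (by decide)
      · exact absurd hxy (by decide)
      · exact absurd hxy (by decide)
      · exact absurd hxy (by decide)
      · exact absurd hxy (by decide)
      · exact absurd hxy (by decide)
      · exact absurd hxy (by decide)
      · exact absurd hxy (by decide)
      · exact absurd hxy (by decide)
      · exact absurd hxy (by decide)
      · exact absurd hxy (by decide)
    · fin_cases y
      · exact absurd hxy (by decide)
      · exact absurd hxy (by decide)
      · exact absurd hxy (by decide)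
      · exact absurd hxy (by decide)
      · exact absurd hxy (by decide)
      · exact absurd hxy (by decide)
      · exact absurd hxy (by decide)
      · exact absurd hxy (by decide)
      · exact absurd hxy (by decide)
      · exact absurd hxy (by decide)
      · exact absurd hxy (by decide)
    · fin_cases y
      · exact absurd hxy (by decide)
      · exact absurd hxy (by decide)
      · exact absurd hxy (by decide)
      · exact absurd hxy (by decide)
      · exact absurd hxy (by decide)
      · exact absurd hxy (by decide)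
      · exact absurd hxy (by decide)
      · exact absurd hxy (by decide)
      · exact absurd hxy (by decide)
      · exact absurd hxy (by decide)
      · exact absurd hxy (by decide)
    · fin_cases y
      · exact absurd hxy (by decide)
      · exact absurd hxy (by decide)
      · exact absurd hxy (by decide)
      · exact absurd hxy (by decide)
      · exact absurd hxy (by decide)
      · exact absurd hxy (by decide)
      · exact absurd hxy (by decide)
      · exact absurd hxy (by decide)
      · exact absurd hxy (by decide)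
      · exact absurd hxy (by decide)
      · exact absurd hxy (by decide)
    · fin_cases y
      · exact absurd hxy (by decide)
      · exact absurd hxy (by decide)
      · exact absurd hxy (by decide)
      · exact absurd hxy (by decide)
      · exact absurd hxy (by decide)
      · exact absurd hxy (by decide)
      · exact absurd hxy (by decide)
      · exact absurd hxy (by decide)
      · exact absurd hxy (by decide)
      · exact absurd hxy (by decide)
      · exact absurd hxy (by decide)
    · fin_cases y
      · exact absurd hxy (by decide)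
      · exact absurd hxy (by decide)
      · exact absurd hxy (by decide)
      · exact absurd hxy (by decide)
      · exact absurd hxy (by decide)
      · exact absurd hxy (by decide)
      · exact absurd hxy (by decide)
      · exact absurd hxy (by decide)
      · exact absurd hxy (by decide)
      · exact absurd hxy (by decide)
      · exact absurd hxy (by decide)
    · fin_cases y
      · exact absurd hxy (by decide)
      · exact absurd hxy (by decide)
      · exact absurd hxy (by decide)
      · exact absurd hxy (by decide)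
      · exact absurd hxy (by decide)
      · exact absurd hxy (by decide)
      · exact absurd hxy (by decide)
      · exact absurd hxy (by decide)
      · exact absurd hxy (by decide)
      · exact absurd hxy (by decide)
      · exact absurd hxy (by decide)
    · fin_cases y
      · exact r_2_7_0
      · exact r_2_7_1
      · exact r_2_7_2
      · exact absurd hxy (by decide)
      · exact absurd hxy (by decide)
      · exact absurd hxy (by decide)
      · exact absurd hxy (by decide)
      · exact absurd hxy (by decide)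
      · exact absurd hxy (by decide)
      · exact absurd hxy (by decide)
      · exact absurd hxy (by decide)
    · fin_cases y
      · exact r_2_8_0
      · exact r_2_8_1
      · exact r_2_8_2
      · exact absurd hxy (by decide)
      · exact absurd hxy (by decide)
      · exact absurd hxy (by decide)
      · exact absurd hxy (by decide)
      · exact absurd hxy (by decide)
      · exact absurd hxy (by decide)
      · exact absurd hxy (by decide)
      · exact absurd hxy (by decide)
    · fin_cases y
      · exact r_2_9_0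
      · exact r_2_9_1
      · exact r_2_9_2
      · exact absurd hxy (by decide)
      · exact absurd hxy (by decide)
      · exact absurd hxy (by decide)
      · exact absurd hxy (by decide)
      · exact absurd hxy (by decide)
      · exact absurd hxy (by decide)
      · exact absurd hxy (by decide)
      · exact absurd hxy (by decide)
    · fin_cases y
      · exact r_2_10_0
      · exact r_2_10_1
      · exact r_2_10_2
      · exact absurd hxy (by decide)
      · exact absurd hxy (by decide)
      · exact absurd hxy (by decide)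
      · exact absurd hxy (by decide)
      · exact absurd hxy (by decide)
      · exact absurd hxy (by decide)
      · exact absurd hxy (by decide)
      · exact absurd hxy (by decide)

end C344b

end Pool.Agent.Lib.D13
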