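import Pool.Agent.Lib.D13.RangeLim

/-!
# MP_5dcbc3_ag: Jordan types `(4^e, 2^q)`: shape of the matrices

`E`, `F` are finite types with `e` and `q` elements, `V = E ⊕ F`; index type
`(E ⊕ V) ⊕ (V ⊕ E)`: four levels. With `io : k^E → k^V` and `po : k^V → k^E` the standard maps,
`TT a b c` has the blocks `a io, a, po a` (one level up), `b io, po b` (two levels up) and `c`
(three levels up). `J = TT 1 0 0` has the Jordan type `(4^e, 2^q)`.

`CC a b a' b'`: with `K = a a' - a' a`: `K io = 0`, `po K = 0` and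
`po (a b' - b' a + (b a' - a' b)) io = 0`; this says that `TT a b c`, `TT a' b' c'` commute.

`MaxR.shape42`: a maximal triple with `T 0 = J` has `T 1 = TT a b c`, `T 2 = TT a' b' c'`.
-/

namespace Pool.Agent.Lib.D13.S42

open Matrix Pool.Agent.Lib.Q5dc Pool.Agent.Lib.D7

/-- the index type -/
abbrev I4 (E F : Type*) := (E ⊕ (E ⊕ F)) ⊕ ((E ⊕ F) ⊕ E)

variable {k : Type*} [Field k] {E F : Type*} [Fintype E] [DecidableEq E] [Fintype F] [DecidableEq F]

/-- `k^E → k^(E ⊕ F)` -/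
def io (k E F : Type*) [Field k] [DecidableEq E] : Matrix (E ⊕ F) E k := fromRows 1 0

/-- `k^(E ⊕ F) → k^E` -/
def po (k E F : Type*) [Field k] [DecidableEq E] : Matrix E (E ⊕ F) k := fromCols 1 0

/-- the matrices -/
def TT (a b : Matrix (E ⊕ F) (E ⊕ F) k) (c : Matrix E E k) : Matrix (I4 E F) (I4 E F) k :=
  fromBlocks (fromBlocks 0 0 (a * io k E F) 0) 0 (fromBlocks (b * io k E F) a c (po k E F * b))
    (fromBlocks 0 0 (po k E F * a) 0)

/-- the Jordan matrix -/
def J (k E F : Type*) [Field k] [Fintype E] [DecidableEq E] [Fintype F] [DecidableEq F] :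
    Matrix (I4 E F) (I4 E F) k := TT 1 0 0

@[simp]
theorem mul_io_apply (X : Matrix (E ⊕ F) (E ⊕ F) k) (i : E ⊕ F) (j : E) :
    (X * io k E F) i j = X i (.inl j) := by
  simp [io, Matrix.mul_apply, Matrix.one_apply]

@[simp]
theorem po_mul_apply (X : Matrix (E ⊕ F) (E ⊕ F) k) (i : E) (j : E ⊕ F) :
    (po k E F * X) i j = X (.inl i) j := by
  simp [po, Matrix.mul_apply, Matrix.one_apply]

@[simp]
theorem po_mul_io_apply (X : Matrix (E ⊕ F) (E ⊕ F) k) (i j : E) :
    (po k E F * X * io k E F) i j = X (.inl i) (.inl j) := by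
  simp [io, po, Matrix.mul_apply, Matrix.one_apply, Fintype.sum_sum_type]

theorem po_io : po k E F * io k E F = 1 := by
  rw [po, io, fromCols_mul_fromRows, Matrix.mul_zero, add_zero, Matrix.mul_one]

omit [Fintype E] [Fintype F] [DecidableEq F] in
theorem io_t : (io k E F)ᵀ = po k E F := by
  rw [po, io, transpose_fromRows, Matrix.transpose_one, Matrix.transpose_zero]

omit [Fintype E] [Fintype F] [DecidableEq F] in
theorem po_t : (po k E F)ᵀ = io k E F := by
  rw [po, io, transpose_fromCols, Matrix.transpose_one, Matrix.transpose_zero]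

omit [DecidableEq F] in
theorem TT_add (a b a' b' : Matrix (E ⊕ F) (E ⊕ F) k) (c c' : Matrix E E k) :
    TT a b c + TT a' b' c' = TT (a + a') (b + b') (c + c') := by
  simp only [TT, fromBlocks_add, add_zero, Matrix.add_mul, Matrix.mul_add]

omit [DecidableEq F] in
theorem TT_smul (s : k) (a b : Matrix (E ⊕ F) (E ⊕ F) k) (c : Matrix E E k) :
    s • TT a b c = TT (s • a) (s • b) (s • c) := by
  simp only [TT, fromBlocks_smul, smul_zero, Matrix.smul_mul, Matrix.mul_smul]

omit [DecidableEq F] in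
theorem TT_sub (a b a' b' : Matrix (E ⊕ F) (E ⊕ F) k) (c c' : Matrix E E k) :
    TT a b c - TT a' b' c' = TT (a - a') (b - b') (c - c') := by
  have e : ∀ x : Matrix (I4 E F) (I4 E F) k, -x = (-1 : k) • x := fun x => by simp
  rw [sub_eq_add_neg, e, TT_smul, TT_add]
  simp only [neg_smul, one_smul, sub_eq_add_neg]

omit [DecidableEq F] in
theorem TT_zero : TT (0 : Matrix (E ⊕ F) (E ⊕ F) k) 0 0 = 0 := by
  simp only [TT, Matrix.zero_mul, Matrix.mul_zero, fromBlocks_zero]

omit [DecidableEq F] in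
theorem TT_mul (a b a' b' : Matrix (E ⊕ F) (E ⊕ F) k) (c c' : Matrix E E k) :
    TT a b c * TT a' b' c' = fromBlocks 0 0 (fromBlocks (a * a' * io k E F) 0
      (po k E F * (a * b' + b * a') * io k E F) (po k E F * (a * a'))) 0 := by
  simp only [TT, fromBlocks_multiply, Matrix.zero_mul, Matrix.mul_zero, add_zero, zero_add,
    fromBlocks_zero, fromBlocks_add, Matrix.mul_add, Matrix.add_mul, Matrix.mul_assoc]
  congr 2
  abel

/-- the relations -/
def CC (a b a' b' : Matrix (E ⊕ F) (E ⊕ F) k) : Prop :=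
  (a * a' - a' * a) * io k E F = 0 ∧ po k E F * (a * a' - a' * a) = 0 ∧
    po k E F * (a * b' - b' * a + (b * a' - a' * b)) * io k E F = 0

omit [DecidableEq F] in
theorem CC_iff {a b a' b' : Matrix (E ⊕ F) (E ⊕ F) k} : CC a b a' b' ↔
    a * a' * io k E F = a' * a * io k E F ∧ po k E F * (a * a') = po k E F * (a' * a) ∧
      po k E F * (a * b' + b * a') * io k E F = po k E F * (a' * b + b' * a) * io k E F := by
  have e : po k E F * (a * b' - b' * a + (b * a' - a' * b)) * io k E F =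
      po k E F * (a * b' + b * a') * io k E F - po k E F * (a' * b + b' * a) * io k E F := by
    rw [← Matrix.sub_mul, ← Matrix.mul_sub]
    congr 2
    abel
  rw [CC, e, Matrix.sub_mul, Matrix.mul_sub, sub_eq_zero, sub_eq_zero, sub_eq_zero]

omit [DecidableEq F] in
theorem comm_iff {a b a' b' : Matrix (E ⊕ F) (E ⊕ F) k} {c c' : Matrix E E k} :
    TT a b c * TT a' b' c' = TT a' b' c' * TT a b c ↔ CC a b a' b' := by
  rw [TT_mul, TT_mul, fromBlocks_inj, fromBlocks_inj, CC_iff]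
  tauto

omit [DecidableEq F] in
theorem comm_of_CC {a b a' b' : Matrix (E ⊕ F) (E ⊕ F) k} {c c' : Matrix E E k}
    (h : CC a b a' b') : TT a b c * TT a' b' c' = TT a' b' c' * TT a b c := comm_iff.2 h

theorem J_mul_self : J k E F * J k E F = TT 0 1 0 := by
  rw [J, TT_mul]
  simp [TT]

theorem J_comm (a b : Matrix (E ⊕ F) (E ⊕ F) k) (c : Matrix E E k) :
    J k E F * TT a b c = TT a b c * J k E F := by
  refine comm_of_CC ?_
  rw [CC_iff]
  simp

theorem TT_pow4 (a b : Matrix (E ⊕ F) (E ⊕ F) k) (c : Matrix E E k) : TT a b c ^ 4 = 0 := by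
  have e : TT a b c ^ 4 = (TT a b c * TT a b c) * (TT a b c * TT a b c) := by
    rw [pow_succ, pow_succ, pow_two]
    simp only [Matrix.mul_assoc]
  rw [e, TT_mul, fromBlocks_multiply]
  simp

theorem TT_nil (a b : Matrix (E ⊕ F) (E ⊕ F) k) (c : Matrix E E k) : IsNilpotent (TT a b c) :=
  ⟨4, TT_pow4 a b c⟩

theorem TT_cn {a b a' b' : Matrix (E ⊕ F) (E ⊕ F) k} {c c' : Matrix E E k}
    (h : CC a b a' b') : CN ![J k E F, TT a b c, TT a' b' c'] :=
  D8.cn3 (J_comm a b c) (J_comm a' b' c') (comm_of_CC h) (TT_nil _ _ _) (TT_nil _ _ _)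
    (TT_nil _ _ _)

/-! ### the dual triple -/

/-- the reversal of the levels -/
def rv (E F : Type*) : I4 E F ≃ I4 E F where
  toFun := Sum.elim (Sum.elim (fun i => .inr (.inr i)) fun i => .inr (.inl i))
    (Sum.elim (fun i => .inl (.inr i)) fun i => .inl (.inl i))
  invFun := Sum.elim (Sum.elim (fun i => .inr (.inr i)) fun i => .inr (.inl i))
    (Sum.elim (fun i => .inl (.inr i)) fun i => .inl (.inl i))
  left_inv := by rintro ((i | i) | (i | i)) <;> rfl
  right_inv := by rintro ((i | i) | (i | i)) <;> rfl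

omit [DecidableEq F] in
theorem TT_dual (a b : Matrix (E ⊕ F) (E ⊕ F) k) (c : Matrix E E k) :
    ((TT a b c)ᵀ).submatrix (rv E F) (rv E F) = TT aᵀ bᵀ cᵀ := by
  have e1 : aᵀ * io k E F = (po k E F * a)ᵀ := by rw [Matrix.transpose_mul, po_t]
  have e2 : bᵀ * io k E F = (po k E F * b)ᵀ := by rw [Matrix.transpose_mul, po_t]
  have e3 : po k E F * aᵀ = (a * io k E F)ᵀ := by rw [Matrix.transpose_mul, io_t]
  have e4 : po k E F * bᵀ = (b * io k E F)ᵀ := by rw [Matrix.transpose_mul, io_t]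
  simp only [TT, e1, e2, e3, e4]
  ext ((i | i) | (i | i)) ((j | j) | (j | j)) <;> rfl

theorem key_dual (a b : Matrix (E ⊕ F) (E ⊕ F) k) (c : Matrix E E k) :
    TT a b c = Matrix.reindexAlgEquiv k k (rv E F) (TT aᵀ bᵀ cᵀ)ᵀ := by
  have e := TT_dual aᵀ bᵀ cᵀ
  rw [Matrix.transpose_transpose, Matrix.transpose_transpose, Matrix.transpose_transpose] at e
  rw [← e]
  rfl

theorem key_J : J k E F = Matrix.reindexAlgEquiv k k (rv E F) (J k E F)ᵀ := by
  have e := key_dual (k := k) (E := E) (F := F) 1 0 0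
  rw [Matrix.transpose_one, Matrix.transpose_zero, Matrix.transpose_zero] at e
  exact e

theorem cl_dual {a b a' b' : Matrix (E ⊕ F) (E ⊕ F) k} {c c' : Matrix E E k}
    (h : Cl ![J k E F, TT aᵀ bᵀ cᵀ, TT a'ᵀ b'ᵀ c'ᵀ]) :
    Cl ![J k E F, TT a b c, TT a' b' c'] := by
  have h1 := Cl.mapEquiv (Matrix.reindexAlgEquiv k k (rv E F)) rfl h.transpose
  convert h1 using 1
  funext i
  fin_cases i
  · exact key_J
  · exact key_dual a b c
  · exact key_dual a' b' c'

omit [DecidableEq F] in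
theorem CC_dual {a b a' b' : Matrix (E ⊕ F) (E ⊕ F) k} (h : CC a b a' b') :
    CC aᵀ bᵀ a'ᵀ b'ᵀ := by
  rw [CC_iff] at h ⊢
  obtain ⟨h1, h2, h3⟩ := h
  have e1 := congrArg Matrix.transpose h1
  have e2 := congrArg Matrix.transpose h2
  have e3 := congrArg Matrix.transpose h3
  simp only [Matrix.transpose_mul, Matrix.transpose_add, io_t, po_t] at e1 e2 e3
  refine ⟨?_, ?_, ?_⟩
  · exact e2.symm
  · exact e1.symm
  · rw [← Matrix.mul_assoc, ← Matrix.mul_assoc] at e3
    rw [add_comm (aᵀ * b'ᵀ), add_comm (a'ᵀ * bᵀ)]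
    exact e3.symm

/-! ### shape -/

/-- a matrix which commutes with `J`, is killed by `J ^ 3` and satisfies the condition of first
order on `ker J ^ 2` -/
theorem shape [CharZero k] {B : Matrix (I4 E F) (I4 E F) k} (h : J k E F * B = B * J k E F)
    (h3 : J k E F * J k E F * J k E F * B = 0)
    (h2 : ∀ q, (J k E F * J k E F) *ᵥ q = 0 →
      ∃ m, (J k E F * B + B * J k E F) *ᵥ q = (J k E F * J k E F) *ᵥ m) :
    ∃ a b c, B = TT a b c := by
  have blk : ∃ b00 b01 b10 b11 b02 b03 b12 b13 b20 b21 b30 b31 b22 b23 b32 b33,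
      B = fromBlocks (fromBlocks b00 b01 b10 b11) (fromBlocks b02 b03 b12 b13)
        (fromBlocks b20 b21 b30 b31) (fromBlocks b22 b23 b32 b33) := by
    refine ⟨B.toBlocks₁₁.toBlocks₁₁, B.toBlocks₁₁.toBlocks₁₂, B.toBlocks₁₁.toBlocks₂₁,
      B.toBlocks₁₁.toBlocks₂₂, B.toBlocks₁₂.toBlocks₁₁, B.toBlocks₁₂.toBlocks₁₂,
      B.toBlocks₁₂.toBlocks₂₁, B.toBlocks₁₂.toBlocks₂₂, B.toBlocks₂₁.toBlocks₁₁,
      B.toBlocks₂₁.toBlocks₁₂, B.toBlocks₂₁.toBlocks₂₁, B.toBlocks₂₁.toBlocks₂₂,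
      B.toBlocks₂₂.toBlocks₁₁, B.toBlocks₂₂.toBlocks₁₂, B.toBlocks₂₂.toBlocks₂₁,
      B.toBlocks₂₂.toBlocks₂₂, ?_⟩
    rw [fromBlocks_toBlocks, fromBlocks_toBlocks, fromBlocks_toBlocks, fromBlocks_toBlocks,
      fromBlocks_toBlocks]
  obtain ⟨b00, b01, b10, b11, b02, b03, b12, b13, b20, b21, b30, b31, b22, b23, b32, b33, rfl⟩ :=
    blk
  have hJ3 : J k E F * J k E F * J k E F = fromBlocks 0 0 (fromBlocks 0 0 1 0) 0 := by
    rw [J_mul_self, J, TT_mul]
    simp [po_io]
  rw [hJ3, fromBlocks_multiply] at h3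
  simp only [Matrix.zero_mul, add_zero, fromBlocks_multiply, Matrix.one_mul] at h3
  have h00 : b00 = 0 := by
    have h4 : (toBlocks₂₁ (0 : Matrix (I4 E F) (I4 E F) k)).toBlocks₂₁ = 0 := rfl
    rw [← h3, toBlocks_fromBlocks₂₁, toBlocks_fromBlocks₂₁] at h4
    exact h4
  subst h00
  have hc := h
  simp only [J, TT, fromBlocks_multiply, Matrix.zero_mul, Matrix.mul_zero, add_zero, zero_add,
    Matrix.one_mul, Matrix.mul_one, fromBlocks_add, fromBlocks_inj] at h
  obtain ⟨⟨q1, q2, q3, q4⟩, ⟨q5, q6, q7, q8⟩, ⟨q9, q10, q11, q12⟩, q13, q14, q15, q16⟩ := h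
  have e3 : b03 = 0 := by
    rw [← Matrix.mul_one b03, ← po_io (F := F), ← Matrix.mul_assoc, ← q5, Matrix.zero_mul]
  have e23 : b23 = 0 := by
    rw [← Matrix.mul_one b23, ← po_io (F := F), ← Matrix.mul_assoc, ← q13, ← q4,
      Matrix.mul_assoc, ← q1, Matrix.mul_zero]
  subst e23
  rw [Matrix.zero_mul] at q13
  subst q13
  have e01 : b01 = 0 := by
    rw [← Matrix.one_mul b01, ← po_io (F := F), Matrix.mul_assoc, q4, Matrix.mul_zero]
  have e33 : b33 = 0 := by
    rw [← Matrix.mul_one b33, ← po_io (F := F), ← Matrix.mul_assoc, ← q15, ← q10,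
      Matrix.mul_assoc, ← q3, Matrix.mul_zero]
  subst e3 e01 e33 q2 q9 q10 q12 q14
  rw [Matrix.zero_mul] at q15
  have c1 : ∀ i (j : E), b11 i (.inl j) = 0 := by
    intro i j
    have h0 := congrFun (congrFun q3 i) j
    simp only [Matrix.zero_apply, mul_io_apply] at h0
    exact h0.symm
  have c2 : ∀ (i : E) j, b11 (.inl i) j = 0 := by
    intro i j
    have h0 := congrFun (congrFun q15 i) j
    simp only [Matrix.zero_apply, po_mul_apply] at h0
    exact h0
  have c3 : ∀ i j : F, b11 (.inr i) (.inr j) = 0 := by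
    intro i j
    obtain ⟨m, hm⟩ := h2 (Pi.single (.inl (.inr (.inr j))) 1) (by
      rw [J_mul_self, Matrix.mulVec_single_one]
      ext ((x | x) | (x | x)) <;> simp [TT, po])
    rw [hc, ← two_smul k, smul_mulVec, J_mul_self] at hm
    have h5 := congrFun hm (.inr (.inl (.inr i)))
    have h6 : (TT 0 1 0 *ᵥ m) (.inr (.inl (.inr i))) = 0 := by
      simp [TT, Matrix.mulVec, dotProduct, io]
    rw [h6, Matrix.mulVec_single_one] at h5
    simp only [Pi.smul_apply, smul_eq_mul, Matrix.col_apply] at h5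
    rw [← hc] at h5
    have h7 := (mul_eq_zero.1 h5).resolve_left two_ne_zero
    simpa [J, TT, fromBlocks_multiply] using h7
  have e11 : b11 = 0 := by
    ext (i | i) (j | j)
    · exact c1 _ _
    · exact c2 _ _
    · exact c1 _ _
    · exact c3 _ _
  subst e11
  refine ⟨b21, b20 * po k E F + io k E F * b31 * (1 - io k E F * po k E F), b30, ?_⟩
  have f1 : (b20 * po k E F + io k E F * b31 * (1 - io k E F * po k E F)) * io k E F = b20 := by
    have f0 : (1 - io k E F * po k E F) * io k E F = 0 := by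
      rw [Matrix.sub_mul, Matrix.one_mul, Matrix.mul_assoc, po_io, Matrix.mul_one, sub_self]
    rw [Matrix.add_mul, Matrix.mul_assoc, po_io, Matrix.mul_one,
      Matrix.mul_assoc (io k E F * b31), f0, Matrix.mul_zero, add_zero]
  have f2 : po k E F * (b20 * po k E F + io k E F * b31 * (1 - io k E F * po k E F)) = b31 := by
    rw [Matrix.mul_add, ← Matrix.mul_assoc, q11, ← Matrix.mul_assoc, ← Matrix.mul_assoc, po_io,
      Matrix.one_mul, Matrix.mul_sub, Matrix.mul_one, ← Matrix.mul_assoc]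
    abel
  rw [TT, f1, f2, fromBlocks_zero]

end Pool.Agent.Lib.D13.S42
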