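import Pool.Agent.Lib.D13.GenCnt
import Pool.Agent.Lib.D13.S42

/-!
# MP_5dcbc3_ag, Jordan type (4,4,2,2): counting parameters, basic lemmas

`es X` is the set of the entries of a matrix, `MIn L X` says that they are in `L`. `bb_count`: the
matrices `b`, `b'` contribute at most `24 - 4 + c` parameters, where `c` is the dimension of the
space of the solutions `Y` of `YE a a' Y`.
-/

set_option autoImplicit false

namespace Pool.Agent.Lib.D13.S42

open Matrix

variable {k K : Type*} [Field k] [Field K] [Algebra k K]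

/-- the set of the entries of a matrix -/
def es {m n : Type*} (X : Matrix m n K) : Set K := Set.range fun p : m × n => X p.1 p.2

/-- the entries of a matrix are in `L` -/
def MIn (L : IntermediateField k K) {m n : Type*} (X : Matrix m n K) : Prop := ∀ i j, X i j ∈ L

section MIn

variable {L : IntermediateField k K} {l m n : Type*}

omit [Algebra k K] in
theorem mem_es {X : Matrix m n K} (i : m) (j : n) : X i j ∈ es X := ⟨(i, j), rfl⟩

theorem es_subset {X : Matrix m n K} : es X ⊆ L ↔ MIn L X := by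
  constructor
  · intro h i j
    exact h (mem_es i j)
  · rintro h _ ⟨p, rfl⟩
    exact h _ _

theorem MIn.mono {L' : IntermediateField k K} (h : L ≤ L') {X : Matrix m n K} (hX : MIn L X) :
    MIn L' X := fun i j => h (hX i j)

theorem MIn.es (X : Matrix m n K) {t : Set K} (h : S42.es X ⊆ t) : MIn (FF k t) X :=
  fun i j => mem_FF_self (h (mem_es i j))

theorem MIn.zero : MIn L (0 : Matrix m n K) := fun _ _ => zero_mem _

theorem MIn.one [DecidableEq m] : MIn L (1 : Matrix m m K) := fun i j => by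
  rw [Matrix.one_apply]
  split_ifs
  · exact one_mem _
  · exact zero_mem _

theorem MIn.add {X Y : Matrix m n K} (hX : MIn L X) (hY : MIn L Y) : MIn L (X + Y) :=
  fun i j => add_mem (hX i j) (hY i j)

theorem MIn.sub {X Y : Matrix m n K} (hX : MIn L X) (hY : MIn L Y) : MIn L (X - Y) :=
  fun i j => sub_mem (hX i j) (hY i j)

theorem MIn.neg {X : Matrix m n K} (hX : MIn L X) : MIn L (-X) := fun i j => neg_mem (hX i j)

theorem MIn.smul {X : Matrix m n K} {c : K} (hc : c ∈ L) (hX : MIn L X) : MIn L (c • X) :=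
  fun i j => mul_mem hc (hX i j)

theorem MIn.mul [Fintype m] {X : Matrix l m K} {Y : Matrix m n K} (hX : MIn L X) (hY : MIn L Y) :
    MIn L (X * Y) := fun i j => by
  rw [Matrix.mul_apply]
  exact sum_mem fun x _ => mul_mem (hX i x) (hY x j)

theorem MIn.inv [Fintype m] [DecidableEq m] {X : Matrix m m K} (hX : MIn L X) : MIn L X⁻¹ :=
  inv_mem_of hX

theorem MIn.transpose {X : Matrix m n K} (hX : MIn L X) : MIn L Xᵀ := fun i j => hX j i

theorem MIn.submatrix {m' n' : Type*} {X : Matrix m n K} (hX : MIn L X) (f : m' → m)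
    (g : n' → n) : MIn L (X.submatrix f g) := fun i j => hX (f i) (g j)

theorem MIn.fromBlocks {m' n' : Type*} {A : Matrix m n K} {B : Matrix m n' K}
    {C : Matrix m' n K} {D : Matrix m' n' K} (hA : MIn L A) (hB : MIn L B) (hC : MIn L C)
    (hD : MIn L D) : MIn L (Matrix.fromBlocks A B C D) := by
  rintro (i | i) (j | j)
  · exact hA i j
  · exact hB i j
  · exact hC i j
  · exact hD i j

theorem MIn.vecMulVec {u : m → K} {v : n → K} (hu : ∀ i, u i ∈ L) (hv : ∀ j, v j ∈ L) :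
    MIn L (Matrix.vecMulVec u v) := fun i j => mul_mem (hu i) (hv j)

omit [Algebra k K] in
theorem es_transpose (X : Matrix m n K) : S42.es Xᵀ = S42.es X := by
  ext x
  constructor
  · rintro ⟨p, rfl⟩
    exact ⟨(p.2, p.1), rfl⟩
  · rintro ⟨p, rfl⟩
    exact ⟨(p.2, p.1), rfl⟩

omit [Algebra k K] in
theorem es_neg_subset (X : Matrix m n K) : S42.es (-X) ⊆ (fun x => -x) '' S42.es X := by
  rintro _ ⟨p, rfl⟩
  exact ⟨_, ⟨p, rfl⟩, rfl⟩

end MIn

/-! ### ranks -/

theorem rk_empty : rk k (∅ : Set K) = 0 := by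
  have h := rk_le_encard (k := k) (∅ : Set K)
  rw [Set.encard_empty] at h
  exact le_antisymm h bot_le

theorem rk_union {s t : Set K} {m n : ℕ} (hs : rk k s ≤ m) (ht : rk k t ≤ n) :
    rk k (s ∪ t) ≤ (m + n : ℕ) := by
  rw [Nat.cast_add]
  exact (rk_union_le s t).trans (add_le_add hs ht)

theorem rk_es_le {m n : Type*} [Fintype m] [Fintype n] (X : Matrix m n K) :
    rk k (es X) ≤ (Fintype.card m * Fintype.card n : ℕ) := by
  rw [← Fintype.card_prod]
  exact rk_le_card _ (subset_FF _)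

theorem rk_range_le {m : Type*} [Fintype m] (u : m → K) :
    rk k (Set.range u) ≤ (Fintype.card m : ℕ) := rk_le_card u (subset_FF _)

theorem rk_singleton_le (x : K) : rk k ({x} : Set K) ≤ (1 : ℕ) := by
  have h := rk_le_encard (k := k) ({x} : Set K)
  rwa [Set.encard_singleton] at h

theorem rk_trans {s t : Set K} {n : ℕ} (h : s ⊆ FF k t) (ht : rk k t ≤ n) : rk k s ≤ n :=
  (rk_le h).trans ht

/-- a lower bound of the rank -/
theorem rank_ge {m n : Type*} [Fintype m] [Fintype n] (A : Matrix m n K) {s : ℕ}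
    (ψ : (m → K) →ₗ[K] (Fin s → K)) (h : ∀ z, z ᵥ* A = 0 → ψ z = 0 → z = 0) :
    Fintype.card m ≤ A.rank + s := by
  classical
  have h1 := LinearMap.finrank_range_add_finrank_ker Aᵀ.mulVecLin
  rw [Module.finrank_fintype_fun_eq_card] at h1
  have h2 : Module.finrank K (LinearMap.range Aᵀ.mulVecLin) = A.rank := by
    rw [← Matrix.rank_transpose]
    rfl
  have h3 : Module.finrank K (LinearMap.ker Aᵀ.mulVecLin) ≤ s := by
    have h4 : Function.Injective (ψ.domRestrict (LinearMap.ker Aᵀ.mulVecLin)) := by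
      rw [← LinearMap.ker_eq_bot, LinearMap.ker_eq_bot']
      rintro ⟨z, hz⟩ h0
      have h5 : z ᵥ* A = 0 := by
        rw [← Matrix.mulVec_transpose]
        exact hz
      exact Subtype.ext (h z h5 h0)
    have h6 := LinearMap.finrank_le_finrank_of_injective h4
    rwa [Module.finrank_fintype_fun_eq_card, Fintype.card_fin] at h6
  omega

/-- full row rank -/
theorem rank_ge_of_inj {m n : Type*} [Fintype m] [Fintype n] (A : Matrix m n K)
    (h : ∀ z, z ᵥ* A = 0 → z = 0) : Fintype.card m ≤ A.rank := by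
  have := rank_ge A (0 : (m → K) →ₗ[K] (Fin 0 → K)) fun z hz _ => h z hz
  omega

/-- linear equations in the form in which we use them -/
theorem rk_lin {m n : Type*} [Fintype m] [Fintype n] [DecidableEq n] {t s : Set K} (A : Matrix m n K)
    (v : n → K) (hA : MIn (FF k t) A) (hw : ∀ i, (A *ᵥ v) i ∈ FF k t) {r N q : ℕ}
    (hr : r ≤ A.rank) (ht : rk k t ≤ N) (hs : s ⊆ FF k (t ∪ Set.range v))
    (hq : N + Fintype.card n ≤ q + r) : rk k s ≤ q := by
  have h1 := rk_linear A v hA hw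
  have h2 : rk k (t ∪ Set.range v) + (r : ℕ) ≤ ((q + r : ℕ) : ℕ∞) := by
    calc rk k (t ∪ Set.range v) + (r : ℕ) ≤ rk k (t ∪ Set.range v) + A.rank := by gcongr
      _ ≤ rk k t + Fintype.card n := h1
      _ ≤ N + Fintype.card n := by gcongr
      _ = ((N + Fintype.card n : ℕ) : ℕ∞) := by push_cast; rfl
      _ ≤ _ := by exact_mod_cast hq
  have h3 : rk k (t ∪ Set.range v) ≤ q := by
    rw [Nat.cast_add] at h2
    exact (ENat.add_le_add_iff_right (ENat.coe_ne_top r)).1 h2
  exact (rk_le hs).trans h3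

/-- a multiple of a nonzero vector needs only one parameter -/
theorem exists_norm (v : Fin 2 → K) (hv : v ≠ 0) :
    ∃ c : K, c ≠ 0 ∧ ∃ x, ∀ i, c * v i ∈ FF k {x} := by
  by_cases h0 : v 0 = 0
  · have h1 : v 1 ≠ 0 := fun h => hv (by ext i; fin_cases i <;> assumption)
    refine ⟨(v 1)⁻¹, inv_ne_zero h1, 0, fun i => ?_⟩
    fin_cases i
    · show _ * v 0 ∈ _
      rw [h0, mul_zero]
      exact zero_mem _
    · show _ * v 1 ∈ _
      rw [inv_mul_cancel₀ h1]
      exact one_mem _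
  · refine ⟨(v 0)⁻¹, inv_ne_zero h0, (v 0)⁻¹ * v 1, fun i => ?_⟩
    fin_cases i
    · show _ * v 0 ∈ _
      rw [inv_mul_cancel₀ h0]
      exact one_mem _
    · show _ * v 1 ∈ _
      exact mem_FF_self rfl

/-! ### conjugation -/

/-- the index type of `V` -/
abbrev V2 := Fin 2 ⊕ Fin 2

omit [Algebra k K] in
theorem isUnit_blk {g h : Matrix (Fin 2) (Fin 2) K} (hg : IsUnit g.det) (hh : IsUnit h.det) :
    IsUnit (fromBlocks g 0 0 h).det := by
  rw [Matrix.det_fromBlocks_zero₂₁]
  exact hg.mul hh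

omit [Algebra k K] in
theorem inv_blk {g h : Matrix (Fin 2) (Fin 2) K} (hg : IsUnit g.det) (hh : IsUnit h.det) :
    (fromBlocks g 0 0 h)⁻¹ = fromBlocks g⁻¹ 0 0 h⁻¹ := by
  refine Matrix.inv_eq_right_inv ?_
  rw [fromBlocks_multiply]
  simp only [Matrix.zero_mul, Matrix.mul_zero, add_zero, zero_add]
  rw [Matrix.mul_nonsing_inv _ hg, Matrix.mul_nonsing_inv _ hh, fromBlocks_one]

/-- the parameters after a change of the basis -/
theorem rk_conj {n : Type*} [Fintype n] [DecidableEq n] {g a a' : Matrix n n K} {t : Set K}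
    {r N : ℕ} (hg : IsUnit g.det) (hgt : MIn (FF k t) g) (ht : rk k t ≤ r)
    (h : rk k (es (g⁻¹ * a * g) ∪ es (g⁻¹ * a' * g)) ≤ N) : rk k (es a ∪ es a') ≤ (N + r : ℕ) := by
  refine rk_trans ?_ (rk_union h ht)
  have e : ∀ x : Matrix n n K, x = g * (g⁻¹ * x * g) * g⁻¹ := by
    intro x
    rw [Matrix.mul_assoc g⁻¹, ← Matrix.mul_assoc g, Matrix.mul_nonsing_inv _ hg,
      Matrix.one_mul, Matrix.mul_assoc, Matrix.mul_nonsing_inv _ hg, Matrix.mul_one]
  have hg' := hgt.mono (FF_mono (k := k) (t := es (g⁻¹ * a * g) ∪ es (g⁻¹ * a' * g) ∪ t)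
    Set.subset_union_right)
  refine Set.union_subset (es_subset.2 ?_) (es_subset.2 ?_)
  · have h1 := (hg'.mul (MIn.es (g⁻¹ * a * g) fun x hx => .inl (.inl hx))).mul hg'.inv
    rwa [← e a] at h1
  · have h1 := (hg'.mul (MIn.es (g⁻¹ * a' * g) fun x hx => .inl (.inr hx))).mul hg'.inv
    rwa [← e a'] at h1

/-! ### the matrices `b`, `b'` -/

/-- the positions of the entries of `b` which occur -/
abbrev Bp := (V2 × Fin 2) ⊕ (Fin 2 × Fin 2)

/-- a matrix with given entries -/
def mk (v : Bp → K) : Matrix V2 V2 K := of fun i j =>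
  Sum.elim (fun j => v (.inl (i, j))) (fun j => Sum.elim (fun i => v (.inr (i, j))) (fun _ => 0) i) j

/-- the entries which occur -/
def vv (b : Matrix V2 V2 K) : Bp → K :=
  Sum.elim (fun p => b p.1 (.inl p.2)) (fun p => b (.inl p.1) (.inr p.2))

omit [Algebra k K] in
theorem mk_vv_io (b : Matrix V2 V2 K) : mk (vv b) * io K (Fin 2) (Fin 2) = b * io K (Fin 2) (Fin 2) := by
  ext i j
  rw [mul_io_apply, mul_io_apply]
  rfl

omit [Algebra k K] in
theorem po_mk_vv (b : Matrix V2 V2 K) : po K (Fin 2) (Fin 2) * mk (vv b) = po K (Fin 2) (Fin 2) * b := by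
  ext i (j | j)
  · rw [po_mul_apply, po_mul_apply]
    rfl
  · rw [po_mul_apply, po_mul_apply]
    rfl

/-- the `E E`-block of `[a, b'] + [b, a']` -/
def Om (a a' b b' : Matrix V2 V2 K) : Matrix (Fin 2) (Fin 2) K :=
  po K (Fin 2) (Fin 2) * (a * b' - b' * a + (b * a' - a' * b)) * io K (Fin 2) (Fin 2)

omit [Algebra k K] in
theorem Om_eq (a a' b b' : Matrix V2 V2 K) : Om a a' b b' =
    po K (Fin 2) (Fin 2) * a * (b' * io K (Fin 2) (Fin 2)) -
      po K (Fin 2) (Fin 2) * b' * (a * io K (Fin 2) (Fin 2)) +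
      (po K (Fin 2) (Fin 2) * b * (a' * io K (Fin 2) (Fin 2)) -
        po K (Fin 2) (Fin 2) * a' * (b * io K (Fin 2) (Fin 2))) := by
  simp only [Om, Matrix.mul_add, Matrix.mul_sub, Matrix.add_mul, Matrix.sub_mul, Matrix.mul_assoc]

omit [Algebra k K] in
theorem Om_mk (a a' b b' : Matrix V2 V2 K) : Om a a' (mk (vv b)) (mk (vv b')) = Om a a' b b' := by
  rw [Om_eq, Om_eq, mk_vv_io, mk_vv_io, po_mk_vv, po_mk_vv]

omit [Algebra k K] in
theorem mk_add (v w : Bp → K) : mk (v + w) = mk v + mk w := by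
  ext i (j | j)
  · rfl
  · rcases i with i | i
    · rfl
    · show (0 : K) = 0 + 0
      rw [add_zero]

omit [Algebra k K] in
theorem mk_smul (c : K) (v : Bp → K) : mk (c • v) = c • mk v := by
  ext i (j | j)
  · rfl
  · rcases i with i | i
    · rfl
    · show (0 : K) = c * 0
      rw [mul_zero]

/-- the linear map `(b, b') ↦ Om a a' b b'` -/
def OmL (a a' : Matrix V2 V2 K) : (Bp ⊕ Bp → K) →ₗ[K] (Fin 2 × Fin 2 → K) where
  toFun v p := Om a a' (mk (v ∘ Sum.inl)) (mk (v ∘ Sum.inr)) p.1 p.2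
  map_add' v w := by
    have e1 : (v + w) ∘ Sum.inl = v ∘ Sum.inl + w ∘ Sum.inl := rfl
    have e2 : (v + w) ∘ Sum.inr = v ∘ Sum.inr + w ∘ Sum.inr := rfl
    funext p
    rw [e1, e2, mk_add, mk_add, Om_eq, Om_eq, Om_eq]
    simp only [Matrix.mul_add, Matrix.add_mul, Pi.add_apply, Matrix.add_apply, Matrix.sub_apply]
    ring
  map_smul' c v := by
    have e1 : (c • v) ∘ Sum.inl = c • (v ∘ Sum.inl) := rfl
    have e2 : (c • v) ∘ Sum.inr = c • (v ∘ Sum.inr) := rfl
    funext p
    rw [e1, e2, mk_smul, mk_smul, Om_eq, Om_eq]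
    simp only [Matrix.mul_smul, Matrix.smul_mul, Pi.smul_apply, Matrix.add_apply, Matrix.sub_apply,
      Matrix.smul_apply, smul_eq_mul, RingHom.id_apply]
    ring

/-- the equations for `Y` -/
structure YE (a a' : Matrix V2 V2 K) (Y : Matrix (Fin 2) (Fin 2) K) : Prop where
  n : Y * a.toBlocks₁₁ = a.toBlocks₁₁ * Y
  n' : Y * a'.toBlocks₁₁ = a'.toBlocks₁₁ * Y
  b : Y * a.toBlocks₁₂ = 0
  b' : Y * a'.toBlocks₁₂ = 0
  a : a.toBlocks₂₁ * Y = 0
  a' : a'.toBlocks₂₁ * Y = 0

/-- the only `Y` is zero -/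
def YC (a a' : Matrix V2 V2 K) : Prop := ∀ Y, YE a a' Y → Y = 0

omit [Algebra k K] in
theorem trace_mul_single' {n : Type*} [Fintype n] [DecidableEq n] (X : Matrix n n K) (i j : n) :
    (X * Matrix.single i j 1).trace = X j i := by
  rw [Matrix.trace, Finset.sum_eq_single j]
  · rw [Matrix.diag_apply, Matrix.mul_apply, Finset.sum_eq_single i]
    · simp
    · intro x _ hx
      rw [Matrix.single_apply_of_row_ne (Ne.symm hx), mul_zero]
    · simp
  · intro x _ hx
    rw [Matrix.diag_apply, Matrix.mul_apply, Finset.sum_eq_zero]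
    intro y _
    rw [Matrix.single_apply_of_col_ne _ _ (Ne.symm hx), mul_zero]
  · simp

omit [Algebra k K] in
theorem eq_zero_of_trace {n : Type*} [Fintype n] [DecidableEq n] {X : Matrix n n K}
    (h : ∀ Y : Matrix n n K, (X * Y).trace = 0) : X = 0 := by
  ext i j
  rw [← trace_mul_single' X j i, h]
  rfl

omit [Algebra k K] in
/-- the equations of `Y` as a commutator -/
theorem YE.of_comm {a a' : Matrix V2 V2 K} {Y : Matrix (Fin 2) (Fin 2) K}
    (h : fromBlocks Y 0 0 0 * a = a * fromBlocks Y 0 0 0)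
    (h' : fromBlocks Y 0 0 0 * a' = a' * fromBlocks Y 0 0 0) : YE a a' Y := by
  have key : ∀ x : Matrix V2 V2 K, fromBlocks Y 0 0 0 * x = x * fromBlocks Y 0 0 0 →
      Y * x.toBlocks₁₁ = x.toBlocks₁₁ * Y ∧ Y * x.toBlocks₁₂ = 0 ∧ x.toBlocks₂₁ * Y = 0 := by
    intro x hx
    rw [← fromBlocks_toBlocks x, fromBlocks_multiply, fromBlocks_multiply, fromBlocks_inj] at hx
    simp only [Matrix.zero_mul, Matrix.mul_zero, add_zero] at hx
    exact ⟨hx.1, hx.2.1, hx.2.2.1.symm⟩
  obtain ⟨h1, h2, h3⟩ := key a h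
  obtain ⟨h4, h5, h6⟩ := key a' h'
  exact ⟨h1, h4, h2, h5, h3, h6⟩

omit [Algebra k K] in
theorem io_mul_po (Y : Matrix (Fin 2) (Fin 2) K) :
    io K (Fin 2) (Fin 2) * Y * po K (Fin 2) (Fin 2) = fromBlocks Y 0 0 0 := by
  ext (i | i) (j | j) <;> simp [io, po, Matrix.mul_apply, Matrix.one_apply]

omit [Algebra k K] in
/-- the multipliers of the equations for `(b, b')` -/
theorem YE.of_trace {a a' : Matrix V2 V2 K} {Y : Matrix (Fin 2) (Fin 2) K}
    (h : ∀ b b', (Y * Om a a' b b').trace = 0) : YE a a' Y := by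
  have e : ∀ x y : Matrix V2 V2 K, (Y * (po K (Fin 2) (Fin 2) * (x * y - y * x) *
      io K (Fin 2) (Fin 2))).trace = ((fromBlocks Y 0 0 0 * x - x * fromBlocks Y 0 0 0) * y).trace := by
    intro x y
    rw [← io_mul_po]
    have e1 : (Y * (po K (Fin 2) (Fin 2) * (x * y - y * x) * io K (Fin 2) (Fin 2))).trace =
        (io K (Fin 2) (Fin 2) * Y * po K (Fin 2) (Fin 2) * (x * y - y * x)).trace := by
      rw [← Matrix.mul_assoc, Matrix.trace_mul_comm, ← Matrix.mul_assoc, ← Matrix.mul_assoc]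
    rw [e1, Matrix.mul_sub, Matrix.sub_mul, Matrix.trace_sub, Matrix.trace_sub]
    congr 1
    · rw [Matrix.mul_assoc, Matrix.mul_assoc, Matrix.mul_assoc, Matrix.mul_assoc, Matrix.mul_assoc]
    · rw [← Matrix.mul_assoc, Matrix.trace_mul_comm, ← Matrix.mul_assoc]
  refine YE.of_comm ?_ ?_
  · rw [← sub_eq_zero]
    refine eq_zero_of_trace fun y => ?_
    rw [← e]
    have h1 := h 0 y
    rwa [Om, Matrix.zero_mul, Matrix.mul_zero, sub_self, add_zero] at h1
  · rw [← sub_eq_zero]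
    refine eq_zero_of_trace fun y => ?_
    rw [← e]
    have h1 := h y 0
    rw [Om, Matrix.zero_mul, Matrix.mul_zero, sub_self, zero_add, ← neg_sub, Matrix.mul_neg,
      Matrix.neg_mul, Matrix.mul_neg, Matrix.trace_neg, neg_eq_zero] at h1
    exact h1

/-- the entries of `TT a b c` -/
def ent (a b : Matrix V2 V2 K) (c : Matrix (Fin 2) (Fin 2) K) : Set K :=
  es a ∪ es (b * io K (Fin 2) (Fin 2)) ∪ es (po K (Fin 2) (Fin 2) * b) ∪ es c

omit [Algebra k K] in
theorem ent_subset {a b : Matrix V2 V2 K} {c : Matrix (Fin 2) (Fin 2) K} :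
    ent a b c ⊆ es a ∪ Set.range (vv b) ∪ es c := by
  rintro x (((h | ⟨p, rfl⟩) | ⟨p, rfl⟩) | h)
  · exact .inl (.inl h)
  · refine .inl (.inr ⟨.inl p, ?_⟩)
    show _ = (b * io K (Fin 2) (Fin 2)) p.1 p.2
    rw [mul_io_apply]
    rfl
  · refine .inl (.inr ?_)
    show (po K (Fin 2) (Fin 2) * b) p.1 p.2 ∈ _
    rw [po_mul_apply]
    obtain ⟨i, j | j⟩ := p
    · exact ⟨.inl (.inl i, j), rfl⟩
    · exact ⟨.inr (i, j), rfl⟩
  · exact .inr h

theorem MIn.mk {L : IntermediateField k K} {v : Bp → K} (h : ∀ p, v p ∈ L) : MIn L (S42.mk v) := by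
  rintro i (j | j)
  · exact h _
  · rcases i with i | i
    · exact h _
    · exact zero_mem _

theorem MIn.io {L : IntermediateField k K} : MIn L (io K (Fin 2) (Fin 2)) := by
  rintro (i | i) j
  · exact MIn.one i j
  · exact zero_mem _

theorem MIn.po {L : IntermediateField k K} : MIn L (po K (Fin 2) (Fin 2)) := by
  rintro i (j | j)
  · exact MIn.one i j
  · exact zero_mem _

theorem MIn.Om {L : IntermediateField k K} {a a' b b' : Matrix V2 V2 K} (ha : MIn L a)
    (ha' : MIn L a') (hb : MIn L b) (hb' : MIn L b') : MIn L (S42.Om a a' b b') :=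
  (MIn.po.mul (((ha.mul hb').sub (hb'.mul ha)).add ((hb.mul ha').sub (ha'.mul hb)))).mul MIn.io

/-- counting the parameters of `T` -/
theorem bb_count {a b a' b' : Matrix V2 V2 K} {c c' : Matrix (Fin 2) (Fin 2) K} {N s q : ℕ}
    (hO : Om a a' b b' = 0) (hN : rk k (es a ∪ es a') ≤ N)
    (ψ : Matrix (Fin 2) (Fin 2) K →ₗ[K] (Fin s → K)) (hψ : ∀ Y, YE a a' Y → ψ Y = 0 → Y = 0)
    (hq : N + 28 + s ≤ q) : rk k (ent a b c ∪ ent a' b' c') ≤ q := by
  classical
  set A := LinearMap.toMatrix' (OmL a a') with hA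
  have hmul : ∀ v, A *ᵥ v = OmL a a' v := fun v => LinearMap.toMatrix'_mulVec _ v
  have hO' : ∀ b b' : Matrix V2 V2 K, OmL a a' (Sum.elim (vv b) (vv b')) =
      fun p => Om a a' b b' p.1 p.2 := by
    intro b b'
    funext p
    show Om a a' (S42.mk (vv b)) (S42.mk (vv b')) p.1 p.2 = _
    rw [Om_mk]
  have h1 : Fintype.card (Fin 2 × Fin 2) ≤ A.rank + s := by
    let τ : (Fin 2 × Fin 2 → K) →ₗ[K] Matrix (Fin 2) (Fin 2) K :=
      { toFun := fun z => of fun i j => z (j, i)
        map_add' := fun _ _ => rfl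
        map_smul' := fun _ _ => rfl }
    refine rank_ge A (ψ ∘ₗ τ) fun z hz h0 => ?_
    have h2 : YE a a' (τ z) := by
      refine YE.of_trace fun b b' => ?_
      have h3 : z ⬝ᵥ (A *ᵥ Sum.elim (vv b) (vv b')) = 0 := by
        rw [Matrix.dotProduct_mulVec, hz, zero_dotProduct]
      rw [hmul, hO', dotProduct, Fintype.sum_prod_type] at h3
      rw [Matrix.trace]
      simp only [Matrix.diag_apply, Matrix.mul_apply]
      rw [Finset.sum_comm]
      exact h3
    have h3 := hψ _ h2 h0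
    funext p
    exact congrFun (congrFun h3 p.2) p.1
  have h2 : 4 - s ≤ A.rank := by
    simp only [Fintype.card_prod, Fintype.card_fin] at h1
    omega
  have h3 : rk k (es a ∪ es a' ∪ Set.range (Sum.elim (vv b) (vv b'))) ≤ ((N + 20 + s : ℕ) : ℕ∞) := by
    refine rk_lin (t := es a ∪ es a') A (Sum.elim (vv b) (vv b')) ?_ ?_ h2 hN (subset_FF _) ?_
    · intro p j
      rw [hA, LinearMap.toMatrix'_apply]
      refine MIn.Om (MIn.es _ Set.subset_union_left) (MIn.es _ Set.subset_union_right)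
        (MIn.mk fun q => ?_) (MIn.mk fun q => ?_) p.1 p.2
      · simp only [Function.comp_apply, Pi.single_apply]
        split_ifs
        · exact one_mem _
        · exact zero_mem _
      · simp only [Function.comp_apply, Pi.single_apply]
        split_ifs
        · exact one_mem _
        · exact zero_mem _
    · intro p
      rw [hmul, hO', hO]
      exact zero_mem _
    · simp only [Fintype.card_sum, Fintype.card_prod, Fintype.card_fin]
      omega
  have h4 : rk k (es c ∪ es c') ≤ ((4 + 4 : ℕ) : ℕ∞) := by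
    refine rk_union ?_ ?_
    · simpa using rk_es_le (k := k) c
    · simpa using rk_es_le (k := k) c'
  have h5 : rk k (ent a b c ∪ ent a' b' c') ≤ ((N + 20 + s + (4 + 4) : ℕ) : ℕ∞) := by
    refine rk_trans ?_ (rk_union h3 h4)
    refine Set.Subset.trans ?_ (subset_FF _)
    rintro x (h | h)
    · rcases ent_subset h with (h | ⟨p, rfl⟩) | h
      · exact .inl (.inl (.inl h))
      · exact .inl (.inr ⟨.inl p, rfl⟩)
      · exact .inr (.inl h)
    · rcases ent_subset h with (h | ⟨p, rfl⟩) | h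
      · exact .inl (.inl (.inr h))
      · exact .inl (.inr ⟨.inr p, rfl⟩)
      · exact .inr (.inr h)
  refine h5.trans ?_
  exact_mod_cast (by omega : N + 20 + s + (4 + 4) ≤ q)

/-- the form which is used if `Y = 0` is the only solution -/
theorem bb_count0 {a b a' b' : Matrix V2 V2 K} {c c' : Matrix (Fin 2) (Fin 2) K}
    (hO : Om a a' b b' = 0) (hN : rk k (es a ∪ es a') ≤ (19 : ℕ)) (hY : YC a a') :
    rk k (ent a b c ∪ ent a' b' c') ≤ (47 : ℕ) :=
  bb_count hO hN (0 : _ →ₗ[K] (Fin 0 → K)) (fun Y h _ => hY Y h) (by norm_num)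

end Pool.Agent.Lib.D13.S42
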