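import Pool.Agent.Lib.D13.C42Y

/-!
# MP_5dcbc3_ag, Jordan type (4,4,2,2): the count

`rk k (ent a b c ∪ ent a' b' c') ≤ 49` if `TT a b c` and `TT a' b' c'` commute.
-/

set_option autoImplicit false

namespace Pool.Agent.Lib.D13.S42

open Matrix Module

universe u v

variable {k : Type u} {K : Type v} [Field k] [Field K] [Algebra k K]

theorem es_map {K' : Type*} [Field K'] [Algebra k K'] (f : K →ₐ[k] K') {m n : Type*}
    (X : Matrix m n K) : f '' es X = es (X.map f) := by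
  ext x
  constructor
  · rintro ⟨_, ⟨p, rfl⟩, rfl⟩
    exact ⟨p, rfl⟩
  · rintro ⟨p, rfl⟩
    exact ⟨_, ⟨p, rfl⟩, rfl⟩

/-- the count for pairs, all fields -/
theorem aa_count' {a a' : Matrix V2 V2 K} (h : msk (a * a' - a' * a) = 0) :
    rk k (es a ∪ es a') ≤ (21 : ℕ) := by
  obtain ⟨K', _, _, _, f, hK⟩ := exists_big k K
  refine (rk_map f _).trans ?_
  rw [Set.image_union, es_map, es_map]
  refine aa_count hK ?_
  have h1 : msk (a.map f * a'.map f - a'.map f * a.map f) = (msk (a * a' - a' * a)).map f := by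
    have h2 : a.map f * a'.map f - a'.map f * a.map f = (a * a' - a' * a).map f := by
      rw [Matrix.map_sub f (map_sub f), Matrix.map_mul, Matrix.map_mul]
    rw [h2]
    ext (i | i) (j | j)
    · rfl
    · rfl
    · rfl
    · show (0 : K') = f 0
      rw [map_zero]
  rw [h1, h]
  ext i j
  exact map_zero f

omit [Algebra k K] in
theorem CC_blocks {a b a' b' : Matrix V2 V2 K} (h : CC a b a' b') :
    a * a' - a' * a = fromBlocks 0 0 0 (a * a' - a' * a).toBlocks₂₂ ∧ Om a a' b b' = 0 := by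
  obtain ⟨h1, h2, h3⟩ := h
  refine ⟨?_, h3⟩
  ext (i | i) (j | j)
  · have h4 := congrFun (congrFun h1 (.inl i)) j
    rw [mul_io_apply] at h4
    exact h4
  · have h4 := congrFun (congrFun h2 i) (.inr j)
    rw [po_mul_apply] at h4
    exact h4
  · have h4 := congrFun (congrFun h1 (.inr i)) j
    rw [mul_io_apply] at h4
    exact h4
  · rfl

/-- the statement of the case `Y ≠ 0` -/
def CountY (k : Type u) (K : Type v) [Field k] [Field K] [Algebra k K] : Prop :=
  ∀ (a a' : Matrix V2 V2 K) (ka : Matrix (Fin 2) (Fin 2) K),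
    a * a' - a' * a = fromBlocks 0 0 0 ka → ¬ YC a a' → ∃ s N : ℕ, N + s ≤ 21 ∧
      rk k (es a ∪ es a') ≤ N ∧ ∃ ψ : Matrix (Fin 2) (Fin 2) K →ₗ[K] (Fin s → K),
        ∀ Y, YE a a' Y → ψ Y = 0 → Y = 0

/-- the count, given the case `Y ≠ 0` -/
theorem count49_of (hY : CountY k K) {a b a' b' : Matrix V2 V2 K}
    {c c' : Matrix (Fin 2) (Fin 2) K} (h : CC a b a' b') :
    rk k (ent a b c ∪ ent a' b' c') ≤ (49 : ℕ) := by
  obtain ⟨h1, h2⟩ := CC_blocks h
  by_cases hc : YC a a'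
  · refine bb_count h2 (aa_count' (k := k) ?_) (0 : _ →ₗ[K] (Fin 0 → K)) (fun Y h _ => hc Y h)
      (by norm_num)
    rw [h1]
    ext (i | i) (j | j) <;> rfl
  · obtain ⟨s, N, hN, h3, ψ, hψ⟩ := hY a a' _ h1 hc
    exact bb_count h2 h3 ψ hψ (by omega)

/-- the count -/
theorem count49 [IsAlgClosed K] {a b a' b' : Matrix V2 V2 K} {c c' : Matrix (Fin 2) (Fin 2) K}
    (h : CC a b a' b') : rk k (ent a b c ∪ ent a' b' c') ≤ (49 : ℕ) :=
  count49_of (fun a a' ka h hY => count_Y a a' ka h hY) h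

end Pool.Agent.Lib.D13.S42
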