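import Pool.Agent.Lib.D13.C42Zb

/-!
# MP_5dcbc3_ag, Jordan type (4,4,2,2): the case of a nonzero `Y`
-/

set_option autoImplicit false

namespace Pool.Agent.Lib.D13.S42

open Matrix Module

variable {k K : Type*} [Field k] [Field K] [Algebra k K]

omit [Algebra k K] in
theorem scalar_of_KK {N : Matrix (Fin 2) (Fin 2) K} {β : K}
    (h : finrank K (KK (toLin' N) β) = 2) : N = β • 1 := by
  have h8 : KK (toLin' N) β = ⊤ := Submodule.eq_top_of_finrank_eq (by
    rw [h, finrank_fintype_fun_eq_card, Fintype.card_fin])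
  refine Matrix.ext_of_mulVec_single fun j => ?_
  have h9 : (Pi.single j 1 : Fin 2 → K) ∈ KK (toLin' N) β := by rw [h8]; trivial
  rw [LinearMap.mem_ker] at h9
  simp only [LinearMap.sub_apply, LinearMap.smul_apply, LinearMap.id_apply, toLin'_apply,
    sub_eq_zero] at h9
  rw [h9, Matrix.smul_mulVec, Matrix.one_mulVec]

/-- commuting pairs of two by two matrices -/
theorem comm2 [IsAlgClosed K] {N N' : Matrix (Fin 2) (Fin 2) K} (h : N * N' = N' * N) :
    rk k (es N ∪ es N') ≤ (6 : ℕ) := by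
  obtain ⟨β, hβ⟩ := exists_eig (toLin' N) (by
    rw [finrank_fintype_fun_eq_card, Fintype.card_fin]; norm_num)
  have h1 := finrank_WW (toLin' N) β
  rw [finrank_fintype_fun_eq_card, Fintype.card_fin] at h1
  by_cases h2 : finrank K (KK (toLin' N) β) = 2
  · have h3 := scalar_of_KK h2
    have h4 : rk k ({β} ∪ es N') ≤ (1 + 4 : ℕ) :=
      rk_union (rk_singleton_le _) (by simpa using rk_es_le (k := k) N')
    refine (rk_trans ?_ h4).trans (by exact_mod_cast (by norm_num : (1 + 4 : ℕ) ≤ 6))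
    refine Set.union_subset (es_subset.2 ?_) (Set.Subset.trans (fun x hx => .inr hx) (subset_FF _))
    rw [h3]
    exact MIn.one.smul (mem_FF_self (.inl rfl))
  · have h3 := finrank_cenL_le' (toLin' N) β
    have h4 : finrank K (KK (toLin' N) β) = 1 := by omega
    have h5 : finrank K (WW (toLin' N) β) = 1 := by omega
    rw [h4, h5] at h3
    refine (rk_cen (k := k) (MIn.es _ subset_rfl) h).trans ?_
    have h6 : rk k (es N) ≤ (4 : ℕ) := by simpa using rk_es_le (k := k) N
    calc rk k (es N) + (finrank K (cenL (toLin' N)) : ℕ) ≤ (4 : ℕ) + (2 : ℕ) :=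
          add_le_add h6 (by exact_mod_cast h3)
      _ = (6 : ℕ) := by norm_num

omit [Algebra k K] in
theorem exists_col {Q : Matrix (Fin 2) (Fin 2) K} (h : Q ≠ 0) : ∃ j, (fun i => Q i j) ≠ 0 := by
  by_contra hc
  push Not at hc
  refine h (by ext i j; exact congrFun (hc j) i)

omit [Algebra k K] in
/-- vectors orthogonal to a nonzero vector are proportional -/
theorem prop_of_perp {r x y : Fin 2 → K} (hr : r ≠ 0) (hx : x ≠ 0) (h1 : r ⬝ᵥ x = 0)
    (h2 : r ⬝ᵥ y = 0) : ∃ s : K, y = s • x := by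
  obtain ⟨c, hc⟩ := perp hr h1
  obtain ⟨d, hd⟩ := perp hr h2
  have hc0 : c ≠ 0 := by
    rintro rfl
    rw [zero_smul] at hc
    exact hx hc
  refine ⟨d * c⁻¹, ?_⟩
  rw [hc, smul_smul, mul_assoc, inv_mul_cancel₀ hc0, mul_one]
  exact hd

/-- a matrix killed by a row vector -/
theorem rk_kill {B : Matrix (Fin 2) (Fin 2) K} {ε : Fin 2 → K} (hε : ε ≠ 0) (h : ε ᵥ* B = 0)
    {t : Set K} (ht : ∀ i, ε i ∈ FF k t) : ∃ d : Fin 2 → K, MIn (FF k (t ∪ Set.range d)) B := by
  have hQ : ∀ j, ∃ c : K, (fun i => B i j) = c • ![ε 1, -ε 0] := fun j =>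
    perp hε (congrFun h j)
  choose d hd using hQ
  refine ⟨d, fun i j => ?_⟩
  have h6 : B i j = (d j • ![ε 1, -ε 0]) i := congrFun (hd j) i
  rw [h6]
  exact mul_mem (mem_FF_self (.inr ⟨j, rfl⟩))
    (smul_perp i fun l => FF_mono Set.subset_union_left (ht l))

/-- block upper triangular pairs -/
theorem count_tri [IsAlgClosed K] {a a' : Matrix V2 V2 K} {ka : Matrix (Fin 2) (Fin 2) K}
    (h : a * a' - a' * a = fromBlocks 0 0 0 ka) (hY : ¬ YC a a') (hA : a.toBlocks₂₁ = 0)
    (hA' : a'.toBlocks₂₁ = 0) : ∃ s N : ℕ, N + s ≤ 21 ∧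
      rk k (es a ∪ es a') ≤ N ∧ ∃ ψ : Matrix (Fin 2) (Fin 2) K →ₗ[K] (Fin s → K),
        ∀ Y, YE a a' Y → ψ Y = 0 → Y = 0 := by
  obtain ⟨N, B, G, rfl⟩ : ∃ N B G, a = fromBlocks N B 0 G :=
    ⟨_, _, _, by rw [← hA]; exact (fromBlocks_toBlocks a).symm⟩
  obtain ⟨N', B', G', rfl⟩ : ∃ N B G, a' = fromBlocks N B 0 G :=
    ⟨_, _, _, by rw [← hA']; exact (fromBlocks_toBlocks a').symm⟩
  rw [YC] at hY
  push Not at hY
  obtain ⟨Y, hE, hY0⟩ := hY
  rw [fromBlocks_multiply, fromBlocks_multiply] at h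
  simp only [Matrix.zero_mul, Matrix.mul_zero, add_zero, zero_add] at h
  have hNN : N * N' = N' * N := by
    have h1 := congrArg toBlocks₁₁ h
    have h2 : N * N' - N' * N = 0 := h1
    exact sub_eq_zero.1 h2
  have h4 : ∀ X : Matrix (Fin 2) (Fin 2) K, rk k (es X) ≤ (4 : ℕ) := fun X => by
    simpa using rk_es_le (k := k) X
  have hb : Y * B = 0 := hE.b
  have hb' : Y * B' = 0 := hE.b'
  by_cases hB : B = 0 ∧ B' = 0
  · obtain ⟨rfl, rfl⟩ := hB
    refine ⟨4, 16, by norm_num, ?_, { toFun := fun Z => ![Z 0 0, Z 0 1, Z 1 0, Z 1 1]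
                                      map_add' := ?_
                                      map_smul' := ?_ }, ?_⟩
    · have h5 : rk k ((es N ∪ es G) ∪ (es N' ∪ es G')) ≤ ((4 + 4) + (4 + 4) : ℕ) :=
        rk_union (rk_union (h4 _) (h4 _)) (rk_union (h4 _) (h4 _))
      refine rk_trans ?_ h5
      refine Set.union_subset (es_subset.2 ?_) (es_subset.2 ?_)
      · exact MIn.fromBlocks (MIn.es _ fun x hx => .inl (.inl hx)) MIn.zero MIn.zero
          (MIn.es _ fun x hx => .inl (.inr hx))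
      · exact MIn.fromBlocks (MIn.es _ fun x hx => .inr (.inl hx)) MIn.zero MIn.zero
          (MIn.es _ fun x hx => .inr (.inr hx))
    · intro x y
      funext i
      fin_cases i <;> rfl
    · intro c x
      funext i
      fin_cases i <;> rfl
    · intro Z _ hZ
      ext i j
      fin_cases i <;> fin_cases j
      · exact congrFun hZ 0
      · exact congrFun hZ 1
      · exact congrFun hZ 2
      · exact congrFun hZ 3
  · obtain ⟨i0, hi0⟩ := exists_row hY0
    obtain ⟨c1, hc1, x1, hx1⟩ := exists_norm (k := k) (Y i0) hi0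
    set ε : Fin 2 → K := c1 • Y i0 with hε
    have hε0 : ε ≠ 0 := smul_ne_zero hc1 hi0
    have hrow : ∀ (X Z : Matrix (Fin 2) (Fin 2) K) (i : Fin 2), Z * X = 0 → Z i ᵥ* X = 0 := by
      intro X Z i hX
      funext j
      exact congrFun (congrFun hX i) j
    have hεB : ε ᵥ* B = 0 := by rw [hε, Matrix.smul_vecMul, hrow B Y i0 hb, smul_zero]
    have hεB' : ε ᵥ* B' = 0 := by rw [hε, Matrix.smul_vecMul, hrow B' Y i0 hb', smul_zero]
    have hcol : ∃ r : Fin 2 → K, r ≠ 0 ∧ ∀ y : Fin 2 → K, y ᵥ* B = 0 → y ᵥ* B' = 0 → r ⬝ᵥ y = 0 := by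
      by_cases hB0 : B = 0
      · obtain ⟨j, hj⟩ := exists_col fun h0 => hB ⟨hB0, h0⟩
        exact ⟨_, hj, fun y _ hy => by
          rw [dotProduct_comm]
          exact congrFun hy j⟩
      · obtain ⟨j, hj⟩ := exists_col hB0
        exact ⟨_, hj, fun y hy _ => by
          rw [dotProduct_comm]
          exact congrFun hy j⟩
    obtain ⟨r, hr, hr'⟩ := hcol
    obtain ⟨j0, hj0⟩ := Function.ne_iff.1 hε0
    refine ⟨2, 19, by norm_num, ?_, { toFun := fun Z => ![Z 0 j0, Z 1 j0]
                                      map_add' := ?_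
                                      map_smul' := ?_ }, ?_⟩
    · obtain ⟨d, hd⟩ := rk_kill (k := k) (t := {x1}) hε0 hεB hx1
      obtain ⟨d', hd'⟩ := rk_kill (k := k) (t := {x1}) hε0 hεB' hx1
      have h5 : rk k (({x1} ∪ (Set.range d ∪ Set.range d')) ∪ ((es N ∪ es N') ∪ (es G ∪ es G'))) ≤
          ((1 + (2 + 2)) + (6 + (4 + 4)) : ℕ) := by
        refine rk_union (rk_union (rk_singleton_le _) (rk_union ?_ ?_)) (rk_union (comm2 hNN)
          (rk_union (h4 _) (h4 _)))
        · simpa using rk_range_le (k := k) d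
        · simpa using rk_range_le (k := k) d'
      refine rk_trans ?_ h5
      refine Set.union_subset (es_subset.2 ?_) (es_subset.2 ?_)
      · refine MIn.fromBlocks (MIn.es _ fun x hx => .inr (.inl (.inl hx))) (hd.mono (FF_mono ?_))
          MIn.zero (MIn.es _ fun x hx => .inr (.inr (.inl hx)))
        rintro x (hx | hx)
        · exact .inl (.inl hx)
        · exact .inl (.inr (.inl hx))
      · refine MIn.fromBlocks (MIn.es _ fun x hx => .inr (.inl (.inr hx))) (hd'.mono (FF_mono ?_))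
          MIn.zero (MIn.es _ fun x hx => .inr (.inr (.inr hx)))
        rintro x (hx | hx)
        · exact .inl (.inl hx)
        · exact .inl (.inr (.inr hx))
    · intro x y
      funext i
      fin_cases i <;> rfl
    · intro c x
      funext i
      fin_cases i <;> rfl
    · intro Z hZ hZ0
      have hz : ∀ i, Z i j0 = 0 := by
        intro i
        fin_cases i
        · exact congrFun hZ0 0
        · exact congrFun hZ0 1
      ext i j
      obtain ⟨s, hs⟩ := prop_of_perp hr hε0 (hr' _ hεB hεB')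
        (hr' (Z i) (hrow B Z i hZ.b) (hrow B' Z i hZ.b'))
      have h6 : Z i j0 = s * ε j0 := congrFun hs j0
      rw [hz i] at h6
      have h7 : s = 0 := (mul_eq_zero.1 h6.symm).resolve_right hj0
      rw [hs, h7, zero_smul]
      rfl

omit [Algebra k K] in
theorem YE.transpose {a a' : Matrix V2 V2 K} {Y : Matrix (Fin 2) (Fin 2) K} (h : YE a a' Y) :
    YE aᵀ a'ᵀ Yᵀ := by
  have e : ∀ X Z : Matrix (Fin 2) (Fin 2) K, Yᵀ * Xᵀ = (X * Y)ᵀ ∧ Zᵀ * Yᵀ = (Y * Z)ᵀ :=
    fun X Z => ⟨(Matrix.transpose_mul _ _).symm, (Matrix.transpose_mul _ _).symm⟩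
  refine ⟨?_, ?_, ?_, ?_, ?_, ?_⟩
  · show Yᵀ * a.toBlocks₁₁ᵀ = a.toBlocks₁₁ᵀ * Yᵀ
    rw [← Matrix.transpose_mul, ← Matrix.transpose_mul, h.n]
  · show Yᵀ * a'.toBlocks₁₁ᵀ = a'.toBlocks₁₁ᵀ * Yᵀ
    rw [← Matrix.transpose_mul, ← Matrix.transpose_mul, h.n']
  · show Yᵀ * a.toBlocks₂₁ᵀ = 0
    rw [← Matrix.transpose_mul, h.a, Matrix.transpose_zero]
  · show Yᵀ * a'.toBlocks₂₁ᵀ = 0
    rw [← Matrix.transpose_mul, h.a', Matrix.transpose_zero]
  · show a.toBlocks₁₂ᵀ * Yᵀ = 0
    rw [← Matrix.transpose_mul, h.b, Matrix.transpose_zero]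
  · show a'.toBlocks₁₂ᵀ * Yᵀ = 0
    rw [← Matrix.transpose_mul, h.b', Matrix.transpose_zero]

/-- block lower triangular pairs -/
theorem count_tri' [IsAlgClosed K] {a a' : Matrix V2 V2 K} {ka : Matrix (Fin 2) (Fin 2) K}
    (h : a * a' - a' * a = fromBlocks 0 0 0 ka) (hY : ¬ YC a a') (hA : a.toBlocks₁₂ = 0)
    (hA' : a'.toBlocks₁₂ = 0) : ∃ s N : ℕ, N + s ≤ 21 ∧
      rk k (es a ∪ es a') ≤ N ∧ ∃ ψ : Matrix (Fin 2) (Fin 2) K →ₗ[K] (Fin s → K),
        ∀ Y, YE a a' Y → ψ Y = 0 → Y = 0 := by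
  have h1 : aᵀ * a'ᵀ - a'ᵀ * aᵀ = fromBlocks 0 0 0 (-kaᵀ) := by
    have h2 := congrArg Matrix.transpose h
    rw [Matrix.transpose_sub, Matrix.transpose_mul, Matrix.transpose_mul,
      fromBlocks_transpose, Matrix.transpose_zero] at h2
    rw [← neg_sub, h2, fromBlocks_neg, neg_zero]
  have h2 : ¬ YC aᵀ a'ᵀ := by
    intro hc
    refine hY fun Y hE => ?_
    have h3 := hc _ hE.transpose
    rwa [Matrix.transpose_eq_zero] at h3
  have h3 : aᵀ.toBlocks₂₁ = 0 := by
    show a.toBlocks₁₂ᵀ = 0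
    rw [hA, Matrix.transpose_zero]
  have h3' : a'ᵀ.toBlocks₂₁ = 0 := by
    show a'.toBlocks₁₂ᵀ = 0
    rw [hA', Matrix.transpose_zero]
  obtain ⟨s, N, hN, h4, ψ, hψ⟩ := count_tri (k := k) h1 h2 h3 h3'
  rw [es_transpose, es_transpose] at h4
  refine ⟨s, N, hN, h4, ψ ∘ₗ (Matrix.transposeLinearEquiv (Fin 2) (Fin 2) K K).toLinearMap,
    fun Y hE h0 => ?_⟩
  have h5 := hψ Yᵀ hE.transpose h0
  rwa [Matrix.transpose_eq_zero] at h5

/-- the linear equations -/
def LA (n : K) (f b : Fin 2 → K) (G : Matrix (Fin 2) (Fin 2) K) :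
    Matrix (Unit ⊕ (Fin 2 ⊕ Fin 2)) ((Fin 2 ⊕ Fin 2) ⊕ (Fin 2 × Fin 2)) K :=
  of (Sum.elim (fun _ => Sum.elim (Sum.elim b fun j => -f j) fun _ => 0)
    (Sum.elim
      (fun i => Sum.elim (Sum.elim (fun j => G i j - n * (1 : Matrix (Fin 2) (Fin 2) K) i j)
        fun _ => 0) fun p => -((1 : Matrix (Fin 2) (Fin 2) K) p.1 i * f p.2))
      (fun j => Sum.elim (Sum.elim (fun _ => 0)
        fun l => n * (1 : Matrix (Fin 2) (Fin 2) K) l j - G l j)
        fun p => (1 : Matrix (Fin 2) (Fin 2) K) p.2 j * b p.1)))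

theorem lin13 {n n' : K} {f b f' b' : Fin 2 → K} {G G' : Matrix (Fin 2) (Fin 2) K} {t : Set K}
    {N : ℕ} (ht : rk k t ≤ N) (hn : n ∈ FF k t) (hn' : n' ∈ FF k t) (hf : ∀ i, f i ∈ FF k t)
    (hb : ∀ i, b i ∈ FF k t) (hG : MIn (FF k t) G) (h0 : ¬ (f = 0 ∧ b = 0))
    (h1 : b ⬝ᵥ f' = b' ⬝ᵥ f) (h2 : n' • f + G *ᵥ f' = n • f' + G' *ᵥ f)
    (h3 : n • b' + b ᵥ* G' = n' • b + b' ᵥ* G) :
    rk k (t ∪ (Set.range f' ∪ Set.range b' ∪ es G')) ≤ (N + 5 : ℕ) := by
  set v : (Fin 2 ⊕ Fin 2) ⊕ (Fin 2 × Fin 2) → K :=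
    Sum.elim (Sum.elim f' b') fun p => G' p.1 p.2 with hv
  have hv1 : Set.range f' ∪ Set.range b' ∪ es G' ⊆ Set.range v := by
    rintro x ((⟨i, rfl⟩ | ⟨i, rfl⟩) | ⟨p, rfl⟩)
    · exact ⟨.inl (.inl i), rfl⟩
    · exact ⟨.inl (.inr i), rfl⟩
    · exact ⟨.inr p, rfl⟩
  have key : ∀ z, z ᵥ* LA n f b G = 0 →
      (∀ j, z (.inl ()) * b j + (z (.inr (.inl 0)) * (G 0 j - n * (1 : Matrix (Fin 2) (Fin 2) K) 0 j) +
        z (.inr (.inl 1)) * (G 1 j - n * (1 : Matrix (Fin 2) (Fin 2) K) 1 j)) = 0) ∧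
      (∀ l, -(z (.inl ()) * f l) +
        (z (.inr (.inr 0)) * (n * (1 : Matrix (Fin 2) (Fin 2) K) l 0 - G l 0) +
        z (.inr (.inr 1)) * (n * (1 : Matrix (Fin 2) (Fin 2) K) l 1 - G l 1)) = 0) ∧
      (∀ p q, z (.inr (.inr q)) * b p = z (.inr (.inl p)) * f q) := by
    intro z hz
    refine ⟨fun j => ?_, fun l => ?_, fun p q => ?_⟩
    · have := congrFun hz (.inl (.inl j))
      simpa [LA, Matrix.vecMul, dotProduct, Fintype.sum_sum_type, Fin.sum_univ_two] using this
    · have := congrFun hz (.inl (.inr l))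
      simpa [LA, Matrix.vecMul, dotProduct, Fintype.sum_sum_type, Fin.sum_univ_two] using this
    · have := congrFun hz (.inr (p, q))
      simp only [LA, Matrix.vecMul, dotProduct, Fintype.sum_sum_type, Fin.sum_univ_two,
        of_apply, Sum.elim_inl, Sum.elim_inr, Pi.zero_apply, Finset.univ_unique,
        Finset.sum_singleton, mul_zero, zero_add] at this
      fin_cases p <;> fin_cases q <;> simp [Matrix.one_apply] at this ⊢ <;>
        linear_combination this
  have hrank : 3 ≤ (LA n f b G).rank := by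
    by_cases hb0 : b = 0
    · have hf0 : f ≠ 0 := fun hf0 => h0 ⟨hf0, hb0⟩
      obtain ⟨q0, hq0⟩ := Function.ne_iff.1 hf0
      have h4 := rank_ge (LA n f b G) (s := 2)
        { toFun := fun z => ![z (.inr (.inr 0)), z (.inr (.inr 1))]
          map_add' := by
            intro x y
            funext i
            fin_cases i <;> rfl
          map_smul' := by
            intro c x
            funext i
            fin_cases i <;> rfl } (by
        intro z hz hψ
        obtain ⟨-, k2, k3⟩ := key z hz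
        have e0 : z (.inr (.inr 0)) = 0 := congrFun hψ 0
        have e1 : z (.inr (.inr 1)) = 0 := congrFun hψ 1
        have e2 : ∀ p, z (.inr (.inl p)) = 0 := by
          intro p
          have h5 := k3 p q0
          rw [hb0] at h5
          simp only [Pi.zero_apply, mul_zero] at h5
          exact (mul_eq_zero.1 h5.symm).resolve_right hq0
        have e3 : z (.inl ()) = 0 := by
          have h5 := k2 q0
          rw [e0, e1] at h5
          simp only [zero_mul, add_zero, neg_eq_zero] at h5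
          exact (mul_eq_zero.1 h5).resolve_right hq0
        funext i
        rcases i with i | i | i
        · exact e3
        · exact e2 i
        · fin_cases i
          · exact e0
          · exact e1)
      simp only [Fintype.card_sum, Fintype.card_unit, Fintype.card_fin] at h4
      omega
    · obtain ⟨p0, hp0⟩ := Function.ne_iff.1 hb0
      have h4 := rank_ge (LA n f b G) (s := 2)
        { toFun := fun z => ![z (.inr (.inl 0)), z (.inr (.inl 1))]
          map_add' := by
            intro x y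
            funext i
            fin_cases i <;> rfl
          map_smul' := by
            intro c x
            funext i
            fin_cases i <;> rfl } (by
        intro z hz hψ
        obtain ⟨k1, -, k3⟩ := key z hz
        have e0 : z (.inr (.inl 0)) = 0 := congrFun hψ 0
        have e1 : z (.inr (.inl 1)) = 0 := congrFun hψ 1
        have ep : z (.inr (.inl p0)) = 0 := by
          fin_cases p0
          · exact e0
          · exact e1
        have e2 : ∀ q, z (.inr (.inr q)) = 0 := by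
          intro q
          have h5 := k3 p0 q
          rw [ep, zero_mul] at h5
          exact (mul_eq_zero.1 h5).resolve_right hp0
        have e3 : z (.inl ()) = 0 := by
          have h5 := k1 p0
          rw [e0, e1] at h5
          simp only [zero_mul, add_zero] at h5
          exact (mul_eq_zero.1 h5).resolve_right hp0
        funext i
        rcases i with i | i | i
        · exact e3
        · fin_cases i
          · exact e0
          · exact e1
        · exact e2 i)
      simp only [Fintype.card_sum, Fintype.card_unit, Fintype.card_fin] at h4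
      omega
  have h1F : ∀ i j : Fin 2, (1 : Matrix (Fin 2) (Fin 2) K) i j ∈ FF k t := fun i j => MIn.one i j
  refine rk_lin (t := t) (LA n f b G) v ?_ ?_ hrank ht ?_ ?_
  · rintro (i | i | i) ((j | j) | j)
    · exact hb j
    · exact neg_mem (hf j)
    · exact zero_mem _
    · exact sub_mem (hG i j) (mul_mem hn (h1F i j))
    · exact zero_mem _
    · exact neg_mem (mul_mem (h1F _ _) (hf _))
    · exact zero_mem _
    · exact sub_mem (mul_mem hn (h1F _ _)) (hG _ _)
    · exact mul_mem (h1F _ _) (hb _)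
  · have e1 : b 0 * f' 0 + b 1 * f' 1 = b' 0 * f 0 + b' 1 * f 1 := by
      have := h1
      simpa [dotProduct, Fin.sum_univ_two] using this
    rintro (i | i | i)
    · have h5 : (LA n f b G *ᵥ v) (.inl i) = 0 := by
        simp only [LA, hv, Matrix.mulVec, dotProduct, Fintype.sum_sum_type, Fin.sum_univ_two,
          of_apply, Sum.elim_inl, Sum.elim_inr, zero_mul, Finset.sum_const_zero, add_zero]
        linear_combination e1
      rw [h5]
      exact zero_mem _
    · have h6 := congrFun h2 i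
      have h5 : (LA n f b G *ᵥ v) (.inr (.inl i)) = -(n' * f i) := by
        simp only [Pi.add_apply, Pi.smul_apply, smul_eq_mul, Matrix.mulVec, dotProduct,
          Fin.sum_univ_two] at h6
        simp only [LA, hv, Matrix.mulVec, dotProduct, Fintype.sum_sum_type, Fin.sum_univ_two,
          of_apply, Sum.elim_inl, Sum.elim_inr, Fintype.sum_prod_type]
        fin_cases i <;> simp [Matrix.one_apply] at h6 ⊢ <;> linear_combination h6
      rw [h5]
      exact neg_mem (mul_mem hn' (hf i))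
    · have h6 := congrFun h3 i
      have h5 : (LA n f b G *ᵥ v) (.inr (.inr i)) = n' * b i := by
        simp only [Pi.add_apply, Pi.smul_apply, smul_eq_mul, Matrix.vecMul, dotProduct,
          Fin.sum_univ_two] at h6
        simp only [LA, hv, Matrix.mulVec, dotProduct, Fintype.sum_sum_type, Fin.sum_univ_two,
          of_apply, Sum.elim_inl, Sum.elim_inr, Fintype.sum_prod_type]
        fin_cases i <;> simp [Matrix.one_apply] at h6 ⊢ <;> linear_combination h6
      rw [h5]
      exact mul_mem hn' (hb i)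
  · refine Set.Subset.trans ?_ (subset_FF _)
    rintro x (hx | hx)
    · exact .inl hx
    · exact .inr (hv1 hx)
  · simp only [Fintype.card_sum, Fintype.card_prod, Fintype.card_fin]
    omega

/-- the count after the change of the basis -/
theorem core {p : Fin 4 → K} {N0 N0' B0 B0' A0 A0' G G' : Matrix (Fin 2) (Fin 2) K} {n n' : K}
    {f b f' b' : Fin 2 → K} (hN : MIn (FF k (Set.range p)) N0)
    (hN' : MIn (FF k (Set.range p)) N0') (hn : n ∈ FF k (Set.range p))
    (hn' : n' ∈ FF k (Set.range p)) (hB : MIn (FF k (Set.range b)) B0)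
    (hB' : MIn (FF k (Set.range b')) B0') (hA : MIn (FF k (Set.range f)) A0)
    (hA' : MIn (FF k (Set.range f')) A0') (h1 : b ⬝ᵥ f' = b' ⬝ᵥ f)
    (h2 : n' • f + G *ᵥ f' = n • f' + G' *ᵥ f) (h3 : n • b' + b ᵥ* G' = n' • b + b' ᵥ* G) :
    rk k (es (fromBlocks N0 B0 A0 G) ∪ es (fromBlocks N0' B0' A0' G')) ≤ (17 : ℕ) := by
  have hr : ∀ u : Fin 2 → K, rk k (Set.range u) ≤ (2 : ℕ) := fun u => by
    simpa using rk_range_le (k := k) u
  have hm : ∀ X : Matrix (Fin 2) (Fin 2) K, rk k (es X) ≤ (4 : ℕ) := fun X => by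
    simpa using rk_es_le (k := k) X
  have hp : rk k (Set.range p) ≤ (4 : ℕ) := by simpa using rk_range_le (k := k) p
  by_cases h0 : f = 0 ∧ b = 0
  · obtain ⟨rfl, rfl⟩ := h0
    have hz : ∀ (X : Matrix (Fin 2) (Fin 2) K) (t : Set K),
        MIn (FF k (Set.range (0 : Fin 2 → K))) X → MIn (FF k t) X := by
      intro X t hX
      refine hX.mono (FF_le ?_)
      rintro _ ⟨i, rfl⟩
      exact zero_mem _
    have h5 : rk k (Set.range p ∪ ((es G ∪ es G') ∪ (Set.range f' ∪ Set.range b'))) ≤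
        (4 + ((4 + 4) + (2 + 2)) : ℕ) :=
      rk_union hp (rk_union (rk_union (hm _) (hm _)) (rk_union (hr _) (hr _)))
    refine (rk_trans ?_ h5).trans (by exact_mod_cast (by norm_num : (4 + ((4 + 4) + (2 + 2))) ≤ 17))
    refine Set.union_subset (es_subset.2 ?_) (es_subset.2 ?_)
    · exact MIn.fromBlocks (hN.mono (FF_mono fun x hx => .inl hx)) (hz _ _ hB) (hz _ _ hA)
        (MIn.es _ fun x hx => .inr (.inl (.inl hx)))
    · exact MIn.fromBlocks (hN'.mono (FF_mono fun x hx => .inl hx))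
        (hB'.mono (FF_mono fun x hx => .inr (.inr (.inr hx))))
        (hA'.mono (FF_mono fun x hx => .inr (.inr (.inl hx))))
        (MIn.es _ fun x hx => .inr (.inl (.inr hx)))
  · set t : Set K := Set.range p ∪ ((Set.range f ∪ Set.range b) ∪ es G) with ht
    have ht12 : rk k t ≤ (4 + ((2 + 2) + 4) : ℕ) :=
      rk_union hp (rk_union (rk_union (hr _) (hr _)) (hm _))
    have hpt : FF k (Set.range p) ≤ FF k t := FF_mono Set.subset_union_left
    have h5 := lin13 (k := k) (t := t) (f' := f') (b' := b') (G' := G') ht12 (hpt hn) (hpt hn')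
      (fun i => mem_FF_self (.inr (.inl (.inl ⟨i, rfl⟩))))
      (fun i => mem_FF_self (.inr (.inl (.inr ⟨i, rfl⟩))))
      (MIn.es G fun x hx => .inr (.inr hx)) h0 h1 h2 h3
    refine rk_trans ?_ h5
    refine Set.union_subset (es_subset.2 ?_) (es_subset.2 ?_)
    · exact MIn.fromBlocks (hN.mono (FF_mono fun x hx => .inl (.inl hx)))
        (hB.mono (FF_mono fun x hx => .inl (.inr (.inl (.inr hx)))))
        (hA.mono (FF_mono fun x hx => .inl (.inr (.inl (.inl hx)))))
        (MIn.es _ fun x hx => .inl (.inr (.inr hx)))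
    · exact MIn.fromBlocks (hN'.mono (FF_mono fun x hx => .inl (.inl hx)))
        (hB'.mono (FF_mono fun x hx => .inr (.inl (.inr hx))))
        (hA'.mono (FF_mono fun x hx => .inr (.inl (.inl hx))))
        (MIn.es _ fun x hx => .inr (.inr hx))

omit [Algebra k K] in
/-- a matrix of rank one which commutes with `N` -/
theorem eig_of_comm {Y N : Matrix (Fin 2) (Fin 2) K} {i0 j0 : Fin 2} (h0 : Y i0 j0 ≠ 0)
    (hr : ∀ i j, Y i j = Y i j0 * Y i0 j / Y i0 j0) (h : Y * N = N * Y) :
    ∃ β : K, N *ᵥ (fun i => Y i j0) = β • (fun i => Y i j0) ∧ Y i0 ᵥ* N = β • Y i0 := by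
  have h1 : ∀ i j, (Y i 0 * N 0 j + Y i 1 * N 1 j) = N i 0 * Y 0 j + N i 1 * Y 1 j := by
    intro i j
    have := congrFun (congrFun h i) j
    simpa [Matrix.mul_apply, Fin.sum_univ_two] using this
  have e1 : ∀ i, N i 0 * Y 0 j0 + N i 1 * Y 1 j0 =
      (Y i0 0 * N 0 j0 + Y i0 1 * N 1 j0) / Y i0 j0 * Y i j0 := by
    intro i
    rw [← h1 i j0, hr i 0, hr i 1]
    field_simp
  refine ⟨(Y i0 0 * N 0 j0 + Y i0 1 * N 1 j0) / Y i0 j0, ?_, ?_⟩
  · funext i
    simp only [Matrix.mulVec, dotProduct, Fin.sum_univ_two, Pi.smul_apply, smul_eq_mul]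
    exact e1 i
  · funext j
    simp only [Matrix.vecMul, dotProduct, Fin.sum_univ_two, Pi.smul_apply, smul_eq_mul]
    rw [h1 i0 j, hr 0 j, hr 1 j]
    have e2 := e1 i0
    have e3 : N i0 0 * (Y 0 j0 * Y i0 j / Y i0 j0) + N i0 1 * (Y 1 j0 * Y i0 j / Y i0 j0) =
        (N i0 0 * Y 0 j0 + N i0 1 * Y 1 j0) * (Y i0 j / Y i0 j0) := by ring
    rw [e3, e2]
    field_simp

/-- the main case, after the choice of the two vectors -/
theorem count_main {N B A G N' B' A' G' ka : Matrix (Fin 2) (Fin 2) K}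
    (h : fromBlocks N B A G * fromBlocks N' B' A' G' - fromBlocks N' B' A' G' *
      fromBlocks N B A G = fromBlocks 0 0 0 ka) {e ε : Fin 2 → K} (he : e ≠ 0) (hε : ε ≠ 0)
    {β γ : K} (h1 : N *ᵥ e = β • e) (h2 : ε ᵥ* N = β • ε) (h1' : N' *ᵥ e = γ • e)
    (h2' : ε ᵥ* N' = γ • ε) (h3 : A *ᵥ e = 0) (h3' : A' *ᵥ e = 0) (h4 : ε ᵥ* B = 0)
    (h4' : ε ᵥ* B' = 0) :
    rk k (es (fromBlocks N B A G) ∪ es (fromBlocks N' B' A' G')) ≤ (19 : ℕ) := by
  obtain ⟨c1, hc1, x1, hx1⟩ := exists_norm (k := k) e he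
  obtain ⟨c2, hc2, x2, hx2⟩ := exists_norm (k := k) ε hε
  obtain ⟨u, hu, hu0⟩ : ∃ u, u = c1 • e ∧ u ≠ 0 := ⟨_, rfl, smul_ne_zero hc1 he⟩
  obtain ⟨v, hv, hv0⟩ : ∃ v, v = c2 • ε ∧ v ≠ 0 := ⟨_, rfl, smul_ne_zero hc2 hε⟩
  have hut : ∀ i, u i ∈ FF k {x1} := by
    rw [hu]
    exact hx1
  have hvt : ∀ i, v i ∈ FF k {x2} := by
    rw [hv]
    exact hx2
  have k1 : N *ᵥ u = β • u := by rw [hu, Matrix.mulVec_smul, h1, smul_comm]
  have k1' : N' *ᵥ u = γ • u := by rw [hu, Matrix.mulVec_smul, h1', smul_comm]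
  have k2 : v ᵥ* N = β • v := by rw [hv, Matrix.smul_vecMul, h2, smul_comm]
  have k2' : v ᵥ* N' = γ • v := by rw [hv, Matrix.smul_vecMul, h2', smul_comm]
  have k3 : A *ᵥ u = 0 := by rw [hu, Matrix.mulVec_smul, h3, smul_zero]
  have k3' : A' *ᵥ u = 0 := by rw [hu, Matrix.mulVec_smul, h3', smul_zero]
  have k4 : v ᵥ* B = 0 := by rw [hv, Matrix.smul_vecMul, h4, smul_zero]
  have k4' : v ᵥ* B' = 0 := by rw [hv, Matrix.smul_vecMul, h4', smul_zero]
  clear h1 h1' h2 h2' h3 h3' h4 h4' hx1 hx2 hu hv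
  -- the change of the basis
  have main : ∀ (w : Fin 2 → K) (N0 B0 A0 N0' B0' A0' : Matrix (Fin 2) (Fin 2) K),
      (!![u 0, w 0; u 1, w 1] : Matrix (Fin 2) (Fin 2) K).det ≠ 0 →
      (∀ i, w i ∈ FF k ({x1} ∪ {x2})) →
      N * !![u 0, w 0; u 1, w 1] = !![u 0, w 0; u 1, w 1] * N0 →
      B = !![u 0, w 0; u 1, w 1] * B0 → A * !![u 0, w 0; u 1, w 1] = A0 →
      N' * !![u 0, w 0; u 1, w 1] = !![u 0, w 0; u 1, w 1] * N0' →
      B' = !![u 0, w 0; u 1, w 1] * B0' → A' * !![u 0, w 0; u 1, w 1] = A0' →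
      (fromBlocks N0 B0 A0 G * fromBlocks N0' B0' A0' G' - fromBlocks N0' B0' A0' G' *
        fromBlocks N0 B0 A0 G = fromBlocks 0 0 0 ka →
        rk k (es (fromBlocks N0 B0 A0 G) ∪ es (fromBlocks N0' B0' A0' G')) ≤ (17 : ℕ)) →
      rk k (es (fromBlocks N B A G) ∪ es (fromBlocks N' B' A' G')) ≤ (19 : ℕ) := by
    intro w N0 B0 A0 N0' B0' A0' hd hw e1 e2 e3 e1' e2' e3' hcore
    set g : Matrix (Fin 2) (Fin 2) K := !![u 0, w 0; u 1, w 1] with hg
    have hgu : IsUnit g.det := isUnit_iff_ne_zero.2 hd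
    have hgu' : IsUnit (fromBlocks g 0 0 1 : Matrix V2 V2 K).det :=
      isUnit_blk hgu (by rw [Matrix.det_one]; exact isUnit_one)
    have c1 : fromBlocks N B A G * fromBlocks g 0 0 1 = fromBlocks g 0 0 1 * fromBlocks N0 B0 A0 G := by
      rw [fromBlocks_multiply, fromBlocks_multiply]
      simp only [Matrix.mul_zero, Matrix.zero_mul, add_zero, zero_add, Matrix.mul_one,
        Matrix.one_mul]
      rw [e1, ← e2, e3]
    have c2 : fromBlocks N' B' A' G' * fromBlocks g 0 0 1 =
        fromBlocks g 0 0 1 * fromBlocks N0' B0' A0' G' := by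
      rw [fromBlocks_multiply, fromBlocks_multiply]
      simp only [Matrix.mul_zero, Matrix.zero_mul, add_zero, zero_add, Matrix.mul_one,
        Matrix.one_mul]
      rw [e1', ← e2', e3']
    have d1 : (fromBlocks g 0 0 1)⁻¹ * fromBlocks N B A G * fromBlocks g 0 0 1 =
        fromBlocks N0 B0 A0 G := by
      rw [Matrix.mul_assoc, c1, ← Matrix.mul_assoc, Matrix.nonsing_inv_mul _ hgu', Matrix.one_mul]
    have d2 : (fromBlocks g 0 0 1)⁻¹ * fromBlocks N' B' A' G' * fromBlocks g 0 0 1 =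
        fromBlocks N0' B0' A0' G' := by
      rw [Matrix.mul_assoc, c2, ← Matrix.mul_assoc, Matrix.nonsing_inv_mul _ hgu', Matrix.one_mul]
    have d3 : fromBlocks N0 B0 A0 G * fromBlocks N0' B0' A0' G' - fromBlocks N0' B0' A0' G' *
        fromBlocks N0 B0 A0 G = fromBlocks 0 0 0 ka := by
      have d4 : fromBlocks g 0 0 1 * (fromBlocks N0 B0 A0 G * fromBlocks N0' B0' A0' G' -
          fromBlocks N0' B0' A0' G' * fromBlocks N0 B0 A0 G) =
          fromBlocks g 0 0 1 * fromBlocks 0 0 0 ka := by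
        rw [Matrix.mul_sub, ← Matrix.mul_assoc, ← c1, Matrix.mul_assoc, ← c2,
          ← Matrix.mul_assoc (fromBlocks g 0 0 1) (fromBlocks N0' B0' A0' G'), ← c2,
          Matrix.mul_assoc (fromBlocks N' B' A' G') (fromBlocks g 0 0 1), ← c1,
          ← Matrix.mul_assoc, ← Matrix.mul_assoc, ← Matrix.sub_mul, h, fromBlocks_multiply,
          fromBlocks_multiply]
        simp
      have d5 := congrArg (fun X => (fromBlocks g 0 0 1)⁻¹ * X) d4
      simp only [← Matrix.mul_assoc, Matrix.nonsing_inv_mul _ hgu', Matrix.one_mul] at d5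
      exact d5
    have d6 := hcore d3
    rw [← d1, ← d2] at d6
    have d7 : MIn (FF k ({x1} ∪ {x2})) (fromBlocks g 0 0 1 : Matrix V2 V2 K) := by
      refine MIn.fromBlocks ?_ MIn.zero MIn.zero MIn.one
      intro i j
      fin_cases i <;> fin_cases j
      · exact FF_mono Set.subset_union_left (hut 0)
      · exact hw 0
      · exact FF_mono Set.subset_union_left (hut 1)
      · exact hw 1
    exact rk_conj hgu' d7 (rk_union (rk_singleton_le x1) (rk_singleton_le x2)) d6
  have hmem : ∀ (x : Fin 2 → K), MIn (FF k (Set.range x)) (!![0, x 0; 0, x 1] : Matrix _ _ K) := by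
    intro x i j
    fin_cases i <;> fin_cases j
    · exact zero_mem _
    · exact mem_FF_self ⟨0, rfl⟩
    · exact zero_mem _
    · exact mem_FF_self ⟨1, rfl⟩
  have hAg : ∀ (X : Matrix (Fin 2) (Fin 2) K) (w : Fin 2 → K), X *ᵥ u = 0 →
      X * !![u 0, w 0; u 1, w 1] = !![0, (X *ᵥ w) 0; 0, (X *ᵥ w) 1] := by
    intro X w hX
    have e0 := congrFun hX 0
    have e1 := congrFun hX 1
    simp only [Matrix.mulVec, dotProduct, Fin.sum_univ_two, Pi.zero_apply] at e0 e1
    ext i j
    fin_cases i <;> fin_cases j <;>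
      simp [Matrix.mul_apply, Fin.sum_univ_two, Matrix.mulVec, dotProduct]
    · exact e0
    · exact e1
  by_cases hs : v ⬝ᵥ u = 0
  · obtain ⟨w, hwd, hwt⟩ : ∃ w : Fin 2 → K, (!![u 0, w 0; u 1, w 1] : Matrix _ _ K).det ≠ 0 ∧
        ∀ i, w i ∈ FF k ({x1} ∪ {x2}) := by
      by_cases hu0' : u 0 = 0
      · have hu1 : u 1 ≠ 0 := fun h1 => hu0 (by ext i; fin_cases i <;> assumption)
        refine ⟨![1, 0], ?_, fun i => ?_⟩
        · rw [Matrix.det_fin_two_of]
          simpa using hu1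
        · fin_cases i
          · exact one_mem _
          · exact zero_mem _
      · refine ⟨![0, 1], ?_, fun i => ?_⟩
        · rw [Matrix.det_fin_two_of]
          simpa using hu0'
        · fin_cases i
          · exact zero_mem _
          · exact one_mem _
    have hN : ∀ (X : Matrix (Fin 2) (Fin 2) K) (be : K), X *ᵥ u = be • u → v ᵥ* X = be • v →
        ∃ n1 : K, X * !![u 0, w 0; u 1, w 1] = !![u 0, w 0; u 1, w 1] * !![be, n1; 0, be] := by
      intro X be e1 e2
      obtain ⟨n1, hn1⟩ := prop_of_perp (y := X *ᵥ w - be • w) hv0 hu0 hs (by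
        rw [dotProduct_sub, Matrix.dotProduct_mulVec, e2, smul_dotProduct, dotProduct_smul,
          sub_self])
      refine ⟨n1, ?_⟩
      have e10 := congrFun e1 0
      have e11 := congrFun e1 1
      have e20 := congrFun hn1 0
      have e21 := congrFun hn1 1
      simp only [Matrix.mulVec, dotProduct, Fin.sum_univ_two, Pi.smul_apply, Pi.sub_apply,
        smul_eq_mul] at e10 e11 e20 e21
      ext i j
      fin_cases i <;> fin_cases j <;> simp [Matrix.mul_apply, Fin.sum_univ_two]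
      · linear_combination e10
      · linear_combination e20
      · linear_combination e11
      · linear_combination e21
    obtain ⟨n1, hn1⟩ := hN N β k1 k2
    obtain ⟨n1', hn1'⟩ := hN N' γ k1' k2'
    have hB : ∀ X : Matrix (Fin 2) (Fin 2) K, v ᵥ* X = 0 → ∃ b : Fin 2 → K,
        X = !![u 0, w 0; u 1, w 1] * !![b 0, b 1; 0, 0] := by
      intro X hX
      have hj : ∀ j, ∃ s : K, (fun i => X i j) = s • u := fun j =>
        prop_of_perp hv0 hu0 hs (congrFun hX j)
      choose b hb using hj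
      refine ⟨b, ?_⟩
      ext i j
      have e1 : X i j = b j * u i := congrFun (hb j) i
      rw [e1]
      fin_cases i <;> fin_cases j <;> simp [Matrix.mul_apply, Fin.sum_univ_two] <;> ring
    obtain ⟨b, hb⟩ := hB B k4
    obtain ⟨b', hb'⟩ := hB B' k4'
    refine main w _ _ _ _ _ _ hwd hwt hn1 hb (hAg A w k3) hn1' hb' (hAg A' w k3') fun hh => ?_
    have hmemb : ∀ (x : Fin 2 → K),
        MIn (FF k (Set.range x)) (!![x 0, x 1; 0, 0] : Matrix _ _ K) := by
      intro x i j
      fin_cases i <;> fin_cases j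
      · exact mem_FF_self ⟨0, rfl⟩
      · exact mem_FF_self ⟨1, rfl⟩
      · exact zero_mem _
      · exact zero_mem _
    have hβ : β ∈ FF k (Set.range ![β, γ, n1, n1']) := mem_FF_self ⟨0, rfl⟩
    have hγ : γ ∈ FF k (Set.range ![β, γ, n1, n1']) := mem_FF_self ⟨1, rfl⟩
    have h11 : n1 ∈ FF k (Set.range ![β, γ, n1, n1']) := mem_FF_self ⟨2, rfl⟩
    have h11' : n1' ∈ FF k (Set.range ![β, γ, n1, n1']) := mem_FF_self ⟨3, rfl⟩
    generalize A *ᵥ w = f at hh ⊢
    generalize A' *ᵥ w = f' at hh ⊢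
    refine core (p := ![β, γ, n1, n1']) (n := β) (n' := γ) (f := f) (b := b)
      (f' := f') (b' := b') ?_ ?_ hβ hγ (hmemb b) (hmemb b') (hmem _) (hmem _) ?_ ?_ ?_
    · intro i j
      fin_cases i <;> fin_cases j
      · exact hβ
      · exact h11
      · exact zero_mem _
      · exact hβ
    · intro i j
      fin_cases i <;> fin_cases j
      · exact hγ
      · exact h11'
      · exact zero_mem _
      · exact hγ
    · have e := congrFun (congrFun hh (.inl 0)) (.inl 1)
      rw [fromBlocks_multiply, fromBlocks_multiply] at e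
      simp only [Matrix.sub_apply, fromBlocks_apply₁₁, Matrix.add_apply, Matrix.mul_apply,
        Fin.sum_univ_two] at e
      simp only [dotProduct, Fin.sum_univ_two]
      simp at e
      linear_combination e
    · funext i
      have e := congrFun (congrFun hh (.inr i)) (.inl 1)
      rw [fromBlocks_multiply, fromBlocks_multiply] at e
      simp only [Matrix.sub_apply, fromBlocks_apply₂₁, Matrix.add_apply, Matrix.mul_apply,
        Fin.sum_univ_two] at e
      have e3 : ∀ x : Fin 2 → K, (!![0, x 0; 0, x 1] : Matrix _ _ K) i 1 = x i := by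
        intro x
        fin_cases i <;> rfl
      have e5 : ∀ x : Fin 2 → K, (!![0, x 0; 0, x 1] : Matrix _ _ K) i 0 = 0 := by
        intro x
        fin_cases i <;> rfl
      simp only [e3, e5] at e
      simp at e
      simp only [Pi.add_apply, Pi.smul_apply, smul_eq_mul, Matrix.mulVec, dotProduct,
        Fin.sum_univ_two] at e ⊢
      linear_combination e
    · funext j
      have e := congrFun (congrFun hh (.inl 0)) (.inr j)
      rw [fromBlocks_multiply, fromBlocks_multiply] at e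
      simp only [Matrix.sub_apply, fromBlocks_apply₁₂, Matrix.add_apply, Matrix.mul_apply,
        Fin.sum_univ_two] at e
      have e3 : ∀ x : Fin 2 → K, (!![x 0, x 1; 0, 0] : Matrix _ _ K) 0 j = x j := by
        intro x
        fin_cases j <;> rfl
      have e4 : ∀ x : Fin 2 → K, (!![x 0, x 1; 0, 0] : Matrix _ _ K) 1 j = 0 := by
        intro x
        fin_cases j <;> rfl
      simp only [e3, e4] at e
      simp at e
      simp only [Pi.add_apply, Pi.smul_apply, smul_eq_mul, Matrix.vecMul, dotProduct,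
        Fin.sum_univ_two] at e ⊢
      linear_combination e
  · obtain ⟨w, hw⟩ : ∃ w : Fin 2 → K, w = ![v 1, -v 0] := ⟨_, rfl⟩
    have hvw : v ⬝ᵥ w = 0 := by
      rw [hw, dotProduct, Fin.sum_univ_two]
      simp
      ring
    have hwd : (!![u 0, w 0; u 1, w 1] : Matrix _ _ K).det ≠ 0 := by
      intro hd
      refine hs ?_
      rw [Matrix.det_fin_two_of, hw] at hd
      rw [dotProduct, Fin.sum_univ_two]
      simp at hd
      linear_combination -hd
    have hwt : ∀ i, w i ∈ FF k ({x1} ∪ {x2}) := by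
      intro i
      rw [hw]
      exact smul_perp i fun l => FF_mono Set.subset_union_right (hvt l)
    have hN : ∀ (X : Matrix (Fin 2) (Fin 2) K) (be : K), X *ᵥ u = be • u → v ᵥ* X = be • v →
        ∃ n1 : K, X * !![u 0, w 0; u 1, w 1] = !![u 0, w 0; u 1, w 1] * !![be, 0; 0, n1] := by
      intro X be e1 e2
      obtain ⟨n1, hn1⟩ := perp (y := X *ᵥ w) hv0 (by
        rw [Matrix.dotProduct_mulVec, e2, smul_dotProduct, hvw, smul_zero])
      rw [← hw] at hn1
      refine ⟨n1, ?_⟩
      have e10 := congrFun e1 0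
      have e11 := congrFun e1 1
      have e20 := congrFun hn1 0
      have e21 := congrFun hn1 1
      simp only [Matrix.mulVec, dotProduct, Fin.sum_univ_two, Pi.smul_apply,
        smul_eq_mul] at e10 e11 e20 e21
      ext i j
      fin_cases i <;> fin_cases j <;> simp [Matrix.mul_apply, Fin.sum_univ_two]
      · linear_combination e10
      · linear_combination e20
      · linear_combination e11
      · linear_combination e21
    obtain ⟨n1, hn1⟩ := hN N β k1 k2
    obtain ⟨n1', hn1'⟩ := hN N' γ k1' k2'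
    have hB : ∀ X : Matrix (Fin 2) (Fin 2) K, v ᵥ* X = 0 → ∃ b : Fin 2 → K,
        X = !![u 0, w 0; u 1, w 1] * !![0, 0; b 0, b 1] := by
      intro X hX
      have hj : ∀ j, ∃ s : K, (fun i => X i j) = s • w := fun j => by
        obtain ⟨s, hs⟩ := perp hv0 (congrFun hX j)
        exact ⟨s, by rw [hw]; exact hs⟩
      choose b hb using hj
      refine ⟨b, ?_⟩
      ext i j
      have e1 : X i j = b j * w i := congrFun (hb j) i
      rw [e1]
      fin_cases i <;> fin_cases j <;> simp [Matrix.mul_apply, Fin.sum_univ_two] <;> ring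
    obtain ⟨b, hb⟩ := hB B k4
    obtain ⟨b', hb'⟩ := hB B' k4'
    refine main w _ _ _ _ _ _ hwd hwt hn1 hb (hAg A w k3) hn1' hb' (hAg A' w k3') fun hh => ?_
    have hmemb : ∀ (x : Fin 2 → K),
        MIn (FF k (Set.range x)) (!![0, 0; x 0, x 1] : Matrix _ _ K) := by
      intro x i j
      fin_cases i <;> fin_cases j
      · exact zero_mem _
      · exact zero_mem _
      · exact mem_FF_self ⟨0, rfl⟩
      · exact mem_FF_self ⟨1, rfl⟩
    have hβ : β ∈ FF k (Set.range ![β, γ, n1, n1']) := mem_FF_self ⟨0, rfl⟩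
    have hγ : γ ∈ FF k (Set.range ![β, γ, n1, n1']) := mem_FF_self ⟨1, rfl⟩
    have h11 : n1 ∈ FF k (Set.range ![β, γ, n1, n1']) := mem_FF_self ⟨2, rfl⟩
    have h11' : n1' ∈ FF k (Set.range ![β, γ, n1, n1']) := mem_FF_self ⟨3, rfl⟩
    generalize A *ᵥ w = f at hh ⊢
    generalize A' *ᵥ w = f' at hh ⊢
    refine core (p := ![β, γ, n1, n1']) (n := n1) (n' := n1') (f := f) (b := b)
      (f' := f') (b' := b') ?_ ?_ h11 h11' (hmemb b) (hmemb b') (hmem _) (hmem _) ?_ ?_ ?_
    · intro i j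
      fin_cases i <;> fin_cases j
      · exact hβ
      · exact zero_mem _
      · exact zero_mem _
      · exact h11
    · intro i j
      fin_cases i <;> fin_cases j
      · exact hγ
      · exact zero_mem _
      · exact zero_mem _
      · exact h11'
    · have e := congrFun (congrFun hh (.inl 1)) (.inl 1)
      rw [fromBlocks_multiply, fromBlocks_multiply] at e
      simp only [Matrix.sub_apply, fromBlocks_apply₁₁, Matrix.add_apply, Matrix.mul_apply,
        Fin.sum_univ_two] at e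
      simp only [dotProduct, Fin.sum_univ_two]
      simp at e
      linear_combination e
    · funext i
      have e := congrFun (congrFun hh (.inr i)) (.inl 1)
      rw [fromBlocks_multiply, fromBlocks_multiply] at e
      simp only [Matrix.sub_apply, fromBlocks_apply₂₁, Matrix.add_apply, Matrix.mul_apply,
        Fin.sum_univ_two] at e
      have e3 : ∀ x : Fin 2 → K, (!![0, x 0; 0, x 1] : Matrix _ _ K) i 1 = x i := by
        intro x
        fin_cases i <;> rfl
      have e5 : ∀ x : Fin 2 → K, (!![0, x 0; 0, x 1] : Matrix _ _ K) i 0 = 0 := by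
        intro x
        fin_cases i <;> rfl
      simp only [e3, e5] at e
      simp at e
      simp only [Pi.add_apply, Pi.smul_apply, smul_eq_mul, Matrix.mulVec, dotProduct,
        Fin.sum_univ_two] at e ⊢
      linear_combination e
    · funext j
      have e := congrFun (congrFun hh (.inl 1)) (.inr j)
      rw [fromBlocks_multiply, fromBlocks_multiply] at e
      simp only [Matrix.sub_apply, fromBlocks_apply₁₂, Matrix.add_apply, Matrix.mul_apply,
        Fin.sum_univ_two] at e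
      have e3 : ∀ x : Fin 2 → K, (!![0, 0; x 0, x 1] : Matrix _ _ K) 1 j = x j := by
        intro x
        fin_cases j <;> rfl
      have e4 : ∀ x : Fin 2 → K, (!![0, 0; x 0, x 1] : Matrix _ _ K) 0 j = 0 := by
        intro x
        fin_cases j <;> rfl
      simp only [e3, e4] at e
      simp at e
      simp only [Pi.add_apply, Pi.smul_apply, smul_eq_mul, Matrix.vecMul, dotProduct,
        Fin.sum_univ_two] at e ⊢
      linear_combination e

/-- the case of a nonzero `Y` -/
theorem count_Y [IsAlgClosed K] (a a' : Matrix V2 V2 K) (ka : Matrix (Fin 2) (Fin 2) K)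
    (h : a * a' - a' * a = fromBlocks 0 0 0 ka) (hY : ¬ YC a a') : ∃ s N : ℕ, N + s ≤ 21 ∧
      rk k (es a ∪ es a') ≤ N ∧ ∃ ψ : Matrix (Fin 2) (Fin 2) K →ₗ[K] (Fin s → K),
        ∀ Y, YE a a' Y → ψ Y = 0 → Y = 0 := by
  by_cases hA : a.toBlocks₂₁ = 0 ∧ a'.toBlocks₂₁ = 0
  · exact count_tri h hY hA.1 hA.2
  by_cases hB : a.toBlocks₁₂ = 0 ∧ a'.toBlocks₁₂ = 0
  · exact count_tri' h hY hB.1 hB.2
  have hrow : ∃ r : Fin 2 → K, r ≠ 0 ∧ ∀ Z, YE a a' Z → ∀ i, r ⬝ᵥ Z i = 0 := by
    by_cases hB0 : a.toBlocks₁₂ = 0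
    · obtain ⟨j, hj⟩ := exists_col fun h0 => hB ⟨hB0, h0⟩
      exact ⟨_, hj, fun Z hZ i => by
        rw [dotProduct_comm]
        exact congrFun (congrFun hZ.b' i) j⟩
    · obtain ⟨j, hj⟩ := exists_col hB0
      exact ⟨_, hj, fun Z hZ i => by
        rw [dotProduct_comm]
        exact congrFun (congrFun hZ.b i) j⟩
  have hcol : ∃ r : Fin 2 → K, r ≠ 0 ∧ ∀ Z, YE a a' Z → ∀ j, r ⬝ᵥ (fun i => Z i j) = 0 := by
    by_cases hA0 : a.toBlocks₂₁ = 0
    · obtain ⟨i, hi⟩ := exists_row fun h0 => hA ⟨hA0, h0⟩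
      exact ⟨_, hi, fun Z hZ j => congrFun (congrFun hZ.a' i) j⟩
    · obtain ⟨i, hi⟩ := exists_row hA0
      exact ⟨_, hi, fun Z hZ j => congrFun (congrFun hZ.a i) j⟩
  obtain ⟨r, hr0, hr⟩ := hrow
  obtain ⟨q, hq0, hq⟩ := hcol
  rw [YC] at hY
  push Not at hY
  obtain ⟨Y, hE, hY0⟩ := hY
  obtain ⟨i0, hi0⟩ := exists_row hY0
  obtain ⟨j0, hj0⟩ := Function.ne_iff.1 hi0
  have hj0 : Y i0 j0 ≠ 0 := hj0
  have hrank : ∀ i j, Y i j = Y i j0 * Y i0 j / Y i0 j0 := by
    intro i j
    obtain ⟨s, hs⟩ := prop_of_perp hr0 hi0 (hr Y hE i0) (hr Y hE i)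
    have e1 : Y i j0 = s * Y i0 j0 := congrFun hs j0
    have e2 : Y i j = s * Y i0 j := congrFun hs j
    rw [e1, e2]
    field_simp
  obtain ⟨β, hβ1, hβ2⟩ := eig_of_comm hj0 hrank hE.n
  obtain ⟨γ, hγ1, hγ2⟩ := eig_of_comm hj0 hrank hE.n'
  have he0 : (fun i => Y i j0) ≠ 0 := fun h0 => hj0 (congrFun h0 i0)
  have hmain := count_main (k := k) (ka := ka) (by
    rw [fromBlocks_toBlocks, fromBlocks_toBlocks]
    exact h) he0 hi0 hβ1 hβ2 hγ1 hγ2
    (funext fun i => congrFun (congrFun hE.a i) j0) (funext fun i => congrFun (congrFun hE.a' i) j0)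
    (funext fun j => congrFun (congrFun hE.b i0) j) (funext fun j => congrFun (congrFun hE.b' i0) j)
  rw [fromBlocks_toBlocks, fromBlocks_toBlocks] at hmain
  refine ⟨1, 19, by norm_num, hmain, { toFun := fun Z _ => Z i0 j0
                                       map_add' := fun _ _ => rfl
                                       map_smul' := fun _ _ => rfl }, ?_⟩
  intro Z hZ hZ0
  have hz : Z i0 j0 = 0 := congrFun hZ0 0
  obtain ⟨s, hs⟩ := prop_of_perp hr0 hi0 (hr Y hE i0) (hr Z hZ i0)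
  have e1 : Z i0 j0 = s * Y i0 j0 := congrFun hs j0
  rw [hz] at e1
  have hs0 : s = 0 := (mul_eq_zero.1 e1.symm).resolve_right hj0
  rw [hs0, zero_smul] at hs
  ext i j
  obtain ⟨c, hc⟩ := prop_of_perp hq0 he0 (hq Y hE j0) (hq Z hZ j)
  have e2 : Z i0 j = c * Y i0 j0 := congrFun hc i0
  rw [hs] at e2
  have hc0 : c = 0 := (mul_eq_zero.1 e2.symm).resolve_right hj0
  rw [hc0, zero_smul] at hc
  exact congrFun hc i

end Pool.Agent.Lib.D13.S42
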