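import Mathlib

/-!
# Dimension of centralizers (MP_5dcbc3_ag)

`finrank (cenL f) ≤ g ^ 2 + finrank (cenL (f | W))` with `g = dim ker (f - β)`, `W = im (f - β)`.
-/

set_option autoImplicit false

namespace Pool.Agent.Lib.D13

open Module

variable {K V : Type*} [Field K] [AddCommGroup V] [Module K V]

/-- the centralizer of an endomorphism -/
def cenL (f : V →ₗ[K] V) : Submodule K (V →ₗ[K] V) where
  carrier := {g | ∀ v, g (f v) = f (g v)}
  add_mem' := by
    intro g h hg hh v
    rw [LinearMap.add_apply, LinearMap.add_apply, map_add, hg v, hh v]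
  zero_mem' := by
    intro v
    simp
  smul_mem' := by
    intro c g hg v
    rw [LinearMap.smul_apply, LinearMap.smul_apply, map_smul, hg v]

theorem mem_cenL {f g : V →ₗ[K] V} : g ∈ cenL f ↔ ∀ v, g (f v) = f (g v) := Iff.rfl

section

variable (f : V →ₗ[K] V) (β : K)

/-- `f - β` -/
abbrev sh : V →ₗ[K] V := f - β • LinearMap.id

/-- the image of `f - β` -/
abbrev WW : Submodule K V := LinearMap.range (sh f β)

/-- the kernel of `f - β` -/
abbrev KK : Submodule K V := LinearMap.ker (sh f β)

theorem sh_comm {g : V →ₗ[K] V} (hg : g ∈ cenL f) (v : V) : g (sh f β v) = sh f β (g v) := by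
  simp only [LinearMap.sub_apply, LinearMap.smul_apply, LinearMap.id_apply, map_sub, map_smul]
  rw [mem_cenL.1 hg v]

theorem WW_stable {g : V →ₗ[K] V} (hg : g ∈ cenL f) : ∀ x ∈ WW f β, g x ∈ WW f β := by
  rintro _ ⟨v, rfl⟩
  exact ⟨g v, (sh_comm f β hg v).symm⟩

theorem self_mem_cenL : f ∈ cenL f := fun _ => rfl

/-- the restriction of `f` -/
def fW : WW f β →ₗ[K] WW f β := f.restrict (WW_stable f β (self_mem_cenL f))

/-- restriction of the centralizer -/
def rcen : cenL f →ₗ[K] (WW f β →ₗ[K] WW f β) where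
  toFun g := (g : V →ₗ[K] V).restrict (WW_stable f β g.2)
  map_add' _ _ := LinearMap.ext fun _ => Subtype.ext rfl
  map_smul' _ _ := LinearMap.ext fun _ => Subtype.ext rfl

theorem rcen_range : LinearMap.range (rcen f β) ≤ cenL (fW f β) := by
  rintro _ ⟨g, rfl⟩ v
  exact Subtype.ext (g.2 (v : V))

/-- maps which factor through `V / W` and `ker (f - β)` -/
def Ψcen : ((V ⧸ WW f β) →ₗ[K] KK f β) →ₗ[K] (V →ₗ[K] V) where
  toFun h := (KK f β).subtype ∘ₗ h ∘ₗ (WW f β).mkQ
  map_add' _ _ := LinearMap.ext fun _ => rfl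
  map_smul' _ _ := LinearMap.ext fun _ => rfl

theorem mem_range_Ψcen {g : V →ₗ[K] V} (hg : g ∈ cenL f) (h0 : ∀ x ∈ WW f β, g x = 0) :
    g ∈ LinearMap.range (Ψcen f β) := by
  have h1 : ∀ v, g v ∈ KK f β := by
    intro v
    rw [LinearMap.mem_ker, ← sh_comm f β hg]
    exact h0 _ ⟨v, rfl⟩
  refine ⟨(WW f β).liftQ (g.codRestrict (KK f β) h1) ?_, ?_⟩
  · intro x hx
    rw [LinearMap.mem_ker]
    exact Subtype.ext (h0 x hx)
  · refine LinearMap.ext fun v => ?_
    rfl

/-- the bound of the dimension -/
theorem finrank_cenL_le [FiniteDimensional K V] : finrank K (cenL f) ≤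
    finrank K (KK f β) ^ 2 + finrank K (cenL (fW f β)) := by
  have h1 := LinearMap.finrank_range_add_finrank_ker (rcen f β)
  have h2 : finrank K (LinearMap.range (rcen f β)) ≤ finrank K (cenL (fW f β)) :=
    Submodule.finrank_mono (rcen_range f β)
  have h3 : finrank K (LinearMap.ker (rcen f β)) ≤ finrank K (LinearMap.range (Ψcen f β)) := by
    rw [← Submodule.finrank_map_subtype_eq (cenL f)]
    refine Submodule.finrank_mono ?_
    rintro _ ⟨g, hg, rfl⟩
    refine mem_range_Ψcen f β g.2 fun x hx => ?_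
    exact congrArg Subtype.val (LinearMap.congr_fun (LinearMap.mem_ker.1 hg) ⟨x, hx⟩)
  have h4 : finrank K (V ⧸ WW f β) = finrank K (KK f β) := by
    have h5 := Submodule.finrank_quotient_add_finrank (WW f β)
    have h6 : finrank K (WW f β) + finrank K (KK f β) = finrank K V :=
      LinearMap.finrank_range_add_finrank_ker (sh f β)
    omega
  have h7 : finrank K (LinearMap.range (Ψcen f β)) ≤ finrank K (KK f β) ^ 2 := by
    refine (LinearMap.finrank_range_le _).trans ?_
    rw [finrank_linearMap, h4, ← sq]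
  omega

theorem finrank_cenL_le_sq [FiniteDimensional K V] : finrank K (cenL f) ≤ finrank K V ^ 2 := by
  refine (Submodule.finrank_le _).trans ?_
  rw [finrank_linearMap, sq]

theorem finrank_WW [FiniteDimensional K V] :
    finrank K (WW f β) + finrank K (KK f β) = finrank K V :=
  LinearMap.finrank_range_add_finrank_ker (sh f β)

theorem finrank_KK_fW [FiniteDimensional K V] (β' : K) :
    finrank K (KK (fW f β) β') ≤ finrank K (KK f β') := by
  have h1 : ∀ x : KK (fW f β) β', ((x : WW f β) : V) ∈ KK f β' := by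
    intro x
    have h2 := x.2
    rw [LinearMap.mem_ker] at h2 ⊢
    exact congrArg Subtype.val h2
  let ψ : KK (fW f β) β' →ₗ[K] KK f β' :=
    ((WW f β).subtype.comp (Submodule.subtype _)).codRestrict _ h1
  refine LinearMap.finrank_le_finrank_of_injective (f := ψ) ?_
  intro x y e
  have h2 := congrArg (fun z : KK f β' => (z : V)) e
  exact Subtype.ext (Subtype.ext h2)

/-- bound without iteration -/
theorem finrank_cenL_le' [FiniteDimensional K V] : finrank K (cenL f) ≤
    finrank K (KK f β) ^ 2 + finrank K (WW f β) ^ 2 :=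
  (finrank_cenL_le f β).trans (by gcongr; exact finrank_cenL_le_sq _)

end

theorem exists_eig [IsAlgClosed K] [FiniteDimensional K V] (f : V →ₗ[K] V)
    (h : 0 < finrank K V) : ∃ β, 0 < finrank K (KK f β) := by
  have : Nontrivial V := finrank_pos_iff.1 h
  obtain ⟨β, hβ⟩ := Module.End.exists_eigenvalue f
  obtain ⟨v, hv⟩ := hβ.exists_hasEigenvector
  refine ⟨β, ?_⟩
  have : Nontrivial (KK f β) := by
    refine ⟨⟨v, ?_⟩, 0, fun h0 => hv.2 (congrArg Subtype.val h0)⟩
    rw [LinearMap.mem_ker]
    simp only [LinearMap.sub_apply, LinearMap.smul_apply, LinearMap.id_apply]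
    rw [hv.apply_eq_smul, sub_self]
  exact finrank_pos

/-- all eigenvalues have geometric multiplicity one -/
theorem finrank_cenL_le_of_one [IsAlgClosed K] (n : ℕ) : ∀ (V : Type _) [AddCommGroup V]
    [Module K V] [FiniteDimensional K V] (f : V →ₗ[K] V), finrank K V = n →
    (∀ β, finrank K (KK f β) ≤ 1) → finrank K (cenL f) ≤ n := by
  induction n with
  | zero =>
    intro V _ _ _ f hn _
    have := finrank_cenL_le_sq f
    rw [hn] at this
    simpa using this
  | succ n ih =>
    intro V _ _ _ f hn h1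
    obtain ⟨β, hβ⟩ := exists_eig f (by omega)
    have h2 : finrank K (KK f β) = 1 := le_antisymm (h1 β) hβ
    have h3 := finrank_WW f β
    have h4 := ih (WW f β) (fW f β) (by omega) fun β' => (finrank_KK_fW f β β').trans (h1 β')
    have h5 := finrank_cenL_le f β
    rw [h2] at h5
    omega

/-- dimension four, not scalar and not scalar plus rank one: the centralizer has dimension at
most eight -/
theorem finrank_cenL_le_eight [IsAlgClosed K] [FiniteDimensional K V] (f : V →ₗ[K] V)
    (h4 : finrank K V = 4) (h : ∀ β, finrank K (KK f β) ≤ 2) : finrank K (cenL f) ≤ 8 := by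
  by_cases h1 : ∀ β, finrank K (KK f β) ≤ 1
  · exact (finrank_cenL_le_of_one 4 V f h4 h1).trans (by norm_num)
  · push Not at h1
    obtain ⟨β, hβ⟩ := h1
    have h2 : finrank K (KK f β) = 2 := le_antisymm (h β) hβ
    have h3 := finrank_WW f β
    have h5 : finrank K (WW f β) = 2 := by omega
    have h6 := finrank_cenL_le' f β
    rw [h2, h5] at h6
    omega

end Pool.Agent.Lib.D13
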