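import Pool.Agent.Lib.D13.GenCnt

/-!
# Generic solutions of linear equations (MP_5dcbc3_ag)

If `K` has infinite transcendence degree over `k`, a subspace of `K ^ n` contains a vector whose
entries have the rank `dim` over a given set. `dual_count`: the parameters of a solution `v` of a
system of linear equations are bounded by those of a generic solution of the transposed system.
-/

set_option autoImplicit false

namespace Pool.Agent.Lib.D13

open Matrix

variable {k K : Type*} [Field k] [Field K] [Algebra k K]

theorem exists_fresh (hK : rk k (Set.univ : Set K) = ⊤) {s : Set K} (hs : rk k s ≠ ⊤) (j : ℕ) :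
    ∃ t : Fin j → K, rk k s + j ≤ rk k (s ∪ Set.range t) ∧ rk k (s ∪ Set.range t) ≠ ⊤ := by
  induction j with
  | zero => exact ⟨Fin.elim0, by simp, by simpa using hs⟩
  | succ j ih =>
    obtain ⟨t, ht, hf⟩ := ih
    have h1 : rk k (s ∪ Set.range t) < rk k (Set.univ : Set K) := by
      rw [hK]
      exact lt_top_iff_ne_top.2 hf
    obtain ⟨e, _, he⟩ := Matroid.exists_eRk_insert_eq_add_one_of_lt h1
    have hr : s ∪ Set.range (Fin.cons e t : Fin (j + 1) → K) = insert e (s ∪ Set.range t) := by
      rw [Fin.range_cons, Set.union_insert]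
    refine ⟨Fin.cons e t, ?_, ?_⟩
    · rw [hr]
      calc rk k s + ((j + 1 : ℕ) : ℕ∞) = rk k s + j + 1 := by
            rw [Nat.cast_add, ← add_assoc, Nat.cast_one]
        _ ≤ rk k (s ∪ Set.range t) + 1 := by gcongr
        _ = _ := he.symm
    · rw [hr]
      intro h0
      have h2 : rk k (s ∪ Set.range t) + 1 = ⊤ := he.symm.trans h0
      obtain ⟨N, hN⟩ := ENat.ne_top_iff_exists.1 hf
      rw [← hN] at h2
      exact ENat.natCast_ne_top (N + 1) (by exact_mod_cast h2)

/-- a subspace contains a generic vector -/
theorem exists_generic_mem (hK : rk k (Set.univ : Set K) = ⊤) {n : Type*} [Fintype n]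
    (W : Submodule K (n → K)) {s : Set K} (hs : rk k s ≠ ⊤) :
    ∃ v ∈ W, rk k s + (Module.finrank K W : ℕ) ≤ rk k (s ∪ Set.range v) := by
  classical
  set r := Module.finrank K W with hr
  let b : Module.Basis (Fin r) K W := Module.finBasis K W
  let M : Matrix (Fin r) n K := of fun j i => (b j : n → K) i
  have hM : M.rank = r := by
    have h1 : LinearIndependent K M.row :=
      b.linearIndependent.map' W.subtype (Submodule.ker_subtype W)
    rw [h1.rank_matrix, Fintype.card_fin]
  obtain ⟨f, hf⟩ := exists_sub' (K := K) M.col r (by rw [← Matrix.rank_eq_finrank_span_cols, hM])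
  have hN : IsUnit (M.submatrix id f).det := by
    refine (Matrix.isUnit_iff_isUnit_det _).1 (linearIndependent_cols_iff_isUnit.1 ?_)
    exact hf
  obtain ⟨t, ht, _⟩ := exists_fresh hK hs r
  set c := t ᵥ* (M.submatrix id f)⁻¹ with hc
  have hv : ∀ i, (c ᵥ* M) (f i) = t i := by
    intro i
    have h1 : c ᵥ* (M.submatrix id f) = t := by
      rw [hc, Matrix.vecMul_vecMul, Matrix.nonsing_inv_mul _ hN, Matrix.vecMul_one]
    exact congrFun h1 i
  refine ⟨c ᵥ* M, ?_, ht.trans (rk_mono ?_)⟩
  · have h2 : c ᵥ* M = ∑ j, c j • (b j : n → K) := by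
      funext i
      simp only [Matrix.vecMul, dotProduct, Finset.sum_apply, Pi.smul_apply, smul_eq_mul]
      rfl
    rw [h2]
    exact W.sum_mem fun j _ => W.smul_mem _ (b j).2
  · refine Set.union_subset_union_right _ ?_
    rintro _ ⟨i, rfl⟩
    exact ⟨f i, hv i⟩

/-- the parameters of a solution of linear equations and of the transposed equations -/
theorem dual_count (hK : rk k (Set.univ : Set K) = ⊤) {m n : Type*} [Fintype m] [Fintype n]
    [DecidableEq n] {t : Set K} (ht : rk k t ≠ ⊤) (A : Matrix m n K) (v : n → K)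
    (hA : ∀ i j, A i j ∈ FF k t) (hw : ∀ i, (A *ᵥ v) i ∈ FF k t) :
    ∃ z : m → K, z ᵥ* A = 0 ∧ rk k (t ∪ Set.range v) + (Fintype.card m : ℕ) ≤
      rk k (t ∪ Set.range z) + (Fintype.card n : ℕ) := by
  obtain ⟨z, hz, h1⟩ := exists_generic_mem hK (LinearMap.ker Aᵀ.mulVecLin) ht
  refine ⟨z, ?_, ?_⟩
  · rw [← Matrix.mulVec_transpose]
    exact hz
  · have h2 := rk_linear A v hA hw
    have h3 := LinearMap.finrank_range_add_finrank_ker Aᵀ.mulVecLin
    rw [Module.finrank_fintype_fun_eq_card] at h3
    have h4 : Module.finrank K (LinearMap.range Aᵀ.mulVecLin) = A.rank := by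
      rw [← Matrix.rank_transpose]
      rfl
    rw [h4] at h3
    calc rk k (t ∪ Set.range v) + (Fintype.card m : ℕ)
        = rk k (t ∪ Set.range v) + (A.rank : ℕ) +
          (Module.finrank K (LinearMap.ker Aᵀ.mulVecLin) : ℕ) := by
          rw [← h3, Nat.cast_add, add_assoc]
      _ ≤ rk k t + Fintype.card n + (Module.finrank K (LinearMap.ker Aᵀ.mulVecLin) : ℕ) := by
          gcongr
      _ = rk k t + (Module.finrank K (LinearMap.ker Aᵀ.mulVecLin) : ℕ) + Fintype.card n := by
          rw [add_right_comm]
      _ ≤ _ := by gcongr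

/-! ### a larger field -/

theorem rk_map {K' : Type*} [Field K'] [Algebra k K'] (f : K →ₐ[k] K') (s : Set K) :
    rk k s ≤ rk k (f '' s) := by
  obtain ⟨I, hI⟩ := (AlgebraicIndependent.matroid k K).exists_isBasis' s
  have h1 : rk k s = I.encard := hI.eRk_eq_encard
  have h2 : (AlgebraicIndependent.matroid k K').Indep (f '' I) := by
    rw [AlgebraicIndependent.matroid_indep_iff]
    have h3 := AlgebraicIndependent.matroid_indep_iff.1 hI.indep
    have h3' : AlgebraicIndependent k (f ∘ ((↑) : I → K)) := h3.map' (f := f) f.toRingHom.injective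
    have h4 : AlgebraicIndepOn k id (Set.range (f ∘ ((↑) : I → K))) := h3'.to_subtype_range
    have h5 : Set.range (f ∘ ((↑) : I → K)) = f '' I := by
      rw [Set.range_comp, Subtype.range_coe]
    rwa [h5] at h4
  rw [h1, ← f.toRingHom.injective.encard_image]
  exact h2.encard_le_eRk_of_subset (Set.image_mono hI.subset)

theorem rk_univ_of_infinite {ι : Type*} [Infinite ι] (x : ι → K) (hx : AlgebraicIndependent k x) :
    rk k (Set.univ : Set K) = ⊤ := by
  have h2 : (AlgebraicIndependent.matroid k K).Indep (Set.range x) :=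
    AlgebraicIndependent.matroid_indep_iff.2 hx.to_subtype_range
  have h3 := h2.encard_le_eRk_of_subset (Set.subset_univ _)
  rw [eq_top_iff]
  refine le_trans ?_ h3
  rw [Set.encard_eq_top (Set.infinite_range_of_injective hx.injective)]

universe u v

/-- an algebraically closed extension of infinite transcendence degree -/
theorem exists_big (k : Type u) (K : Type v) [Field k] [Field K] [Algebra k K] :
    ∃ (K' : Type v) (_ : Field K') (_ : Algebra k K') (_ : IsAlgClosed K') (_ : K →ₐ[k] K'),
      rk k (Set.univ : Set K') = ⊤ := by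
  let R := FractionRing (MvPolynomial ℕ K)
  let K' := AlgebraicClosure R
  refine ⟨K', inferInstance, inferInstance, inferInstance, IsScalarTower.toAlgHom k K K', ?_⟩
  have h1 : AlgebraicIndependent k (MvPolynomial.X : ℕ → MvPolynomial ℕ K) :=
    (MvPolynomial.algebraicIndependent_X ℕ K).restrictScalars (algebraMap k K).injective
  have h2 : Function.Injective (algebraMap (MvPolynomial ℕ K) K') := by
    rw [IsScalarTower.algebraMap_eq (MvPolynomial ℕ K) R K']
    exact (algebraMap R K').injective.comp (IsFractionRing.injective (MvPolynomial ℕ K) R)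
  exact rk_univ_of_infinite _
    (h1.map' (f := IsScalarTower.toAlgHom k (MvPolynomial ℕ K) K') h2)

end Pool.Agent.Lib.D13
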