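import Pool.Agent.Lib.D13.C42Base
import Pool.Agent.Lib.D13.GenDual
import Pool.Agent.Lib.D13.CenBd

/-!
# MP_5dcbc3_ag, Jordan type (4,4,2,2): pairs with commutator in the last block

`rk (es a ∪ es a') ≤ 21` if `[a, a']` vanishes outside the `F F`-block.
-/

set_option autoImplicit false

namespace Pool.Agent.Lib.D13.S42

open Matrix

variable {k K : Type*} [Field k] [Field K] [Algebra k K]

/-- a solution of linear equations -/
theorem rk_ker {m n : Type*} [Fintype m] [Fintype n] [DecidableEq n] {t : Set K}
    (Φ : (n → K) →ₗ[K] (m → K)) (hΦ : ∀ j i, Φ (Pi.single j 1) i ∈ FF k t) {v : n → K}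
    (hv : Φ v = 0) :
    rk k (t ∪ Set.range v) ≤ rk k t + (Module.finrank K (LinearMap.ker Φ) : ℕ) := by
  have h1 := rk_linear (k := k) (t := t) (LinearMap.toMatrix' Φ) v (fun i j => by
    rw [LinearMap.toMatrix'_apply]
    exact hΦ j i) (fun i => by
    rw [LinearMap.toMatrix'_mulVec, hv]
    exact zero_mem _)
  have h2 : (LinearMap.toMatrix' Φ).rank + Module.finrank K (LinearMap.ker Φ) = Fintype.card n := by
    have h3 := LinearMap.finrank_range_add_finrank_ker Φ
    rw [Module.finrank_fintype_fun_eq_card] at h3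
    have h4 : (LinearMap.toMatrix' Φ).rank = Module.finrank K (LinearMap.range Φ) := by
      have e : (LinearMap.toMatrix' Φ).mulVecLin = Φ := by
        rw [← Matrix.toLin'_apply', Matrix.toLin'_toMatrix']
      rw [Matrix.rank, e]
    rw [h4, h3]
  have h5 : ((LinearMap.toMatrix' Φ).rank : ℕ∞) ≠ ⊤ := ENat.natCast_ne_top _
  have h6 : rk k (t ∪ Set.range v) + (LinearMap.toMatrix' Φ).rank ≤
      rk k t + (Module.finrank K (LinearMap.ker Φ) : ℕ) + (LinearMap.toMatrix' Φ).rank := by
    refine h1.trans ?_
    rw [← h2, Nat.cast_add, add_assoc, add_comm (Module.finrank K (LinearMap.ker Φ) : ℕ∞)]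
  exact (ENat.add_le_add_iff_right h5).1 h6

/-- matrices commuting with a given one -/
theorem rk_cen {n : Type*} [Fintype n] [DecidableEq n] {t : Set K} {Z X : Matrix n n K}
    (hZ : MIn (FF k t) Z) (h : Z * X = X * Z) :
    rk k (t ∪ es X) ≤ rk k t + (Module.finrank K (cenL (toLin' Z)) : ℕ) := by
  let Φ : (n × n → K) →ₗ[K] (n × n → K) :=
    { toFun := fun x p => (Z * (of fun i j => x (i, j)) - (of fun i j => x (i, j)) * Z) p.1 p.2
      map_add' := by
        intro x y
        have e : (of fun i j => (x + y) (i, j) : Matrix n n K) =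
          (of fun i j => x (i, j)) + of fun i j => y (i, j) := rfl
        funext p
        rw [e, Matrix.mul_add, Matrix.add_mul]
        simp only [Pi.add_apply, Matrix.sub_apply, Matrix.add_apply]
        ring
      map_smul' := by
        intro c x
        have e : (of fun i j => (c • x) (i, j) : Matrix n n K) = c • of fun i j => x (i, j) := rfl
        funext p
        rw [e, Matrix.mul_smul, Matrix.smul_mul]
        simp only [Pi.smul_apply, Matrix.sub_apply, Matrix.smul_apply, smul_eq_mul,
          RingHom.id_apply]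
        ring }
  have h1 := rk_ker (k := k) (t := t) Φ (v := fun p : n × n => X p.1 p.2) (fun q p => by
    refine MIn.sub (hZ.mul ?_) (MIn.mul ?_ hZ) p.1 p.2 <;>
    · intro i j
      simp only [of_apply, Pi.single_apply]
      split_ifs
      · exact one_mem _
      · exact zero_mem _) (by
    funext p
    show (Z * X - X * Z) p.1 p.2 = 0
    rw [h, sub_self]
    rfl)
  refine h1.trans ?_
  gcongr
  let ψ : LinearMap.ker Φ →ₗ[K] cenL (toLin' Z) :=
    { toFun := fun x => ⟨toLin' (of fun i j => (x : n × n → K) (i, j)), by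
        intro v
        have h2 : Z * (of fun i j => (x : n × n → K) (i, j)) =
            (of fun i j => (x : n × n → K) (i, j)) * Z := by
          rw [← sub_eq_zero]
          ext i j
          exact congrFun (LinearMap.mem_ker.1 x.2) (i, j)
        rw [← toLin'_mul_apply, ← toLin'_mul_apply, h2]⟩
      map_add' := by
        intro x y
        refine Subtype.ext ?_
        exact map_add toLin' (of fun i j => (x : n × n → K) (i, j)) (of fun i j => (y : n × n → K) (i, j))
      map_smul' := by
        intro c x
        refine Subtype.ext ?_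
        exact map_smul toLin' c (of fun i j => (x : n × n → K) (i, j)) }
  refine LinearMap.finrank_le_finrank_of_injective (f := ψ) ?_
  intro x y e
  have e1 := toLin'.injective (congrArg Subtype.val e)
  refine Subtype.ext (funext fun p => ?_)
  exact congrFun (congrFun e1 p.1) p.2

/-- without the `F F`-block -/
def msk (Z : Matrix V2 V2 K) : Matrix V2 V2 K :=
  fromBlocks Z.toBlocks₁₁ Z.toBlocks₁₂ Z.toBlocks₂₁ 0

omit [Algebra k K] in
theorem trace_msk (Z W : Matrix V2 V2 K) : (Z * msk W).trace = (msk Z * W).trace := by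
  rw [← fromBlocks_toBlocks Z, ← fromBlocks_toBlocks W]
  simp only [msk, toBlocks_fromBlocks₁₁, toBlocks_fromBlocks₁₂, toBlocks_fromBlocks₂₁,
    fromBlocks_multiply, Matrix.trace, Fintype.sum_sum_type, Matrix.diag_apply,
    fromBlocks_apply₁₁, fromBlocks_apply₂₂, Matrix.mul_zero, Matrix.zero_mul, add_zero]

omit [Algebra k K] in
theorem msk_add (Z W : Matrix V2 V2 K) : msk (Z + W) = msk Z + msk W := by
  ext (i | i) (j | j)
  · rfl
  · rfl
  · rfl
  · show (0 : K) = 0 + 0
    rw [add_zero]

omit [Algebra k K] in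
theorem msk_smul (c : K) (W : Matrix V2 V2 K) : msk (c • W) = c • msk W := by
  ext (i | i) (j | j)
  · rfl
  · rfl
  · rfl
  · show (0 : K) = c * 0
    rw [mul_zero]

theorem MIn.msk {L : IntermediateField k K} {Z : Matrix V2 V2 K} (h : MIn L Z) :
    MIn L (S42.msk Z) := by
  rintro (i | i) (j | j)
  · exact h _ _
  · exact h _ _
  · exact h _ _
  · exact zero_mem _

/-- duality -/
theorem aa_dual (hK : rk k (Set.univ : Set K) = ⊤) {a a' : Matrix V2 V2 K}
    (h : msk (a * a' - a' * a) = 0) :
    ∃ Z : Matrix V2 V2 K, msk Z * a = a * msk Z ∧ rk k (es a ∪ es a') ≤ rk k (es a ∪ es Z) := by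
  let Φ : (V2 × V2 → K) →ₗ[K] (V2 × V2 → K) :=
    { toFun := fun x p => msk (a * (of fun i j => x (i, j)) - (of fun i j => x (i, j)) * a) p.1 p.2
      map_add' := by
        intro x y
        have e : (of fun i j => (x + y) (i, j) : Matrix V2 V2 K) =
          (of fun i j => x (i, j)) + of fun i j => y (i, j) := rfl
        funext p
        rw [e, Matrix.mul_add, Matrix.add_mul, add_sub_add_comm, msk_add]
        rfl
      map_smul' := by
        intro c x
        have e : (of fun i j => (c • x) (i, j) : Matrix V2 V2 K) = c • of fun i j => x (i, j) := rfl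
        funext p
        rw [e, Matrix.mul_smul, Matrix.smul_mul, ← smul_sub, msk_smul]
        rfl }
  have hf : rk k (es a) ≠ ⊤ := ne_top_of_le_ne_top (ENat.natCast_ne_top _) (rk_es_le a)
  obtain ⟨z, hz, h1⟩ := dual_count hK (t := es a) hf (LinearMap.toMatrix' Φ)
    (fun p : V2 × V2 => a' p.1 p.2) (by
      intro p q
      rw [LinearMap.toMatrix'_apply]
      refine (MIn.msk (MIn.sub (MIn.mul (MIn.es a subset_rfl) ?_)
        (MIn.mul ?_ (MIn.es a subset_rfl)))) p.1 p.2 <;>
      · intro i j
        simp only [of_apply, Pi.single_apply]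
        split_ifs
        · exact one_mem _
        · exact zero_mem _) (by
      intro p
      rw [LinearMap.toMatrix'_mulVec]
      show msk (a * a' - a' * a) p.1 p.2 ∈ _
      rw [h]
      exact zero_mem _)
  refine ⟨of fun i j => z (j, i), ?_, ?_⟩
  · rw [← sub_eq_zero]
    refine eq_zero_of_trace fun X => ?_
    have h2 : z ⬝ᵥ (LinearMap.toMatrix' Φ *ᵥ fun p : V2 × V2 => X p.1 p.2) = 0 := by
      rw [Matrix.dotProduct_mulVec, hz, zero_dotProduct]
    rw [LinearMap.toMatrix'_mulVec] at h2
    have h3 : ((of fun i j => z (j, i)) * msk (a * X - X * a)).trace = 0 := by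
      rw [← h2, dotProduct, Fintype.sum_prod_type, Matrix.trace]
      simp only [Matrix.diag_apply, Matrix.mul_apply]
      rw [Finset.sum_comm]
      rfl
    rw [trace_msk, Matrix.mul_sub, Matrix.trace_sub] at h3
    rw [Matrix.sub_mul, Matrix.trace_sub]
    rw [Matrix.mul_assoc, h3.symm]
    congr 1
    rw [Matrix.mul_assoc, Matrix.trace_mul_comm, Matrix.mul_assoc]
  · have h4 : Set.range z = es (of fun i j => z (j, i) : Matrix V2 V2 K) := by
      ext x
      constructor
      · rintro ⟨p, rfl⟩
        exact ⟨(p.2, p.1), rfl⟩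
      · rintro ⟨p, rfl⟩
        exact ⟨(p.2, p.1), rfl⟩
    have h5 : Set.range (fun p : V2 × V2 => a' p.1 p.2) = es a' := rfl
    rw [h4, h5] at h1
    exact (ENat.add_le_add_iff_right (ENat.natCast_ne_top _)).1 h1

end Pool.Agent.Lib.D13.S42
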