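import Pool.Agent.Lib.D13.C42Z

/-!
# MP_5dcbc3_ag, Jordan type (4,4,2,2): matrices without `F F`-block

`rk (es Z) + dim C(Z) ≤ 17` if the `F F`-block of `Z` is zero; `rk (es a ∪ es a') ≤ 21`.
-/

set_option autoImplicit false

namespace Pool.Agent.Lib.D13.S42

open Matrix Module

variable {k K : Type*} [Field k] [Field K] [Algebra k K]

omit [Algebra k K] in
/-- the orthogonal complement of a vector in dimension two -/
theorem perp {r y : Fin 2 → K} (hr : r ≠ 0) (h : r ⬝ᵥ y = 0) : ∃ c : K, y = c • ![r 1, -r 0] := by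
  rw [dotProduct, Fin.sum_univ_two] at h
  by_cases h0 : r 0 = 0
  · have h1 : r 1 ≠ 0 := fun h1 => hr (by ext i; fin_cases i <;> assumption)
    rw [h0, zero_mul, zero_add] at h
    have h2 : y 1 = 0 := (mul_eq_zero.1 h).resolve_left h1
    refine ⟨y 0 * (r 1)⁻¹, ?_⟩
    ext i
    fin_cases i
    · show y 0 = y 0 * (r 1)⁻¹ * r 1
      rw [inv_mul_cancel_right₀ h1]
    · show y 1 = y 0 * (r 1)⁻¹ * -r 0
      rw [h2, h0, neg_zero, mul_zero]
  · refine ⟨-y 1 * (r 0)⁻¹, ?_⟩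
    ext i
    fin_cases i
    · show y 0 = -y 1 * (r 0)⁻¹ * r 1
      field_simp
      linear_combination h
    · show y 1 = -y 1 * (r 0)⁻¹ * -r 0
      field_simp

omit [Algebra k K] in
theorem exists_row {Q : Matrix (Fin 2) (Fin 2) K} (h : Q ≠ 0) : ∃ i, Q i ≠ 0 := by
  by_contra hc
  push Not at hc
  exact h (by ext i j; rw [hc i]; rfl)

omit [Algebra k K] in
/-- the kernel of a nonzero matrix -/
theorem ker_line {R : Matrix (Fin 2) (Fin 2) K} (h : R ≠ 0) {e x : Fin 2 → K} (he : e ≠ 0)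
    (h1 : R *ᵥ e = 0) (h2 : R *ᵥ x = 0) : ∃ s : K, x = s • e := by
  obtain ⟨i, hi⟩ := exists_row h
  obtain ⟨c, hc⟩ := perp hi (congrFun h1 i)
  obtain ⟨d, hd⟩ := perp hi (congrFun h2 i)
  have hc0 : c ≠ 0 := by
    rintro rfl
    rw [zero_smul] at hc
    exact he hc
  refine ⟨d * c⁻¹, ?_⟩
  rw [hc, smul_smul, mul_assoc, inv_mul_cancel₀ hc0, mul_one]
  exact hd

omit [Algebra k K] in
theorem mem_KK {P Q R : Matrix (Fin 2) (Fin 2) K} {β : K} {v : V2 → K} :
    v ∈ KK (toLin' (fromBlocks P Q R 0)) β ↔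
      P *ᵥ (v ∘ Sum.inl) + Q *ᵥ (v ∘ Sum.inr) = β • (v ∘ Sum.inl) ∧
      R *ᵥ (v ∘ Sum.inl) = β • (v ∘ Sum.inr) := by
  rw [LinearMap.mem_ker, LinearMap.sub_apply, LinearMap.smul_apply, LinearMap.id_apply,
    toLin'_apply, fromBlocks_mulVec, sub_eq_zero, Matrix.zero_mulVec, add_zero]
  constructor
  · intro h
    exact ⟨funext fun i => congrFun h (.inl i), funext fun i => congrFun h (.inr i)⟩
  · rintro ⟨h1, h2⟩
    funext i
    rcases i with i | i
    · exact congrFun h1 i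
    · exact congrFun h2 i

omit [Algebra k K] in
/-- a kernel of dimension two is not contained in a line -/
theorem not_line {W : Submodule K (V2 → K)} (h : 2 ≤ finrank K W) (v : V2 → K)
    (hv : ∀ w ∈ W, ∃ s : K, w = s • v) : False := by
  have h1 : W ≤ Submodule.span K {v} := by
    intro w hw
    obtain ⟨s, rfl⟩ := hv w hw
    exact Submodule.smul_mem _ _ (Submodule.mem_span_singleton_self v)
  have h2 := Submodule.finrank_mono h1
  have h3 := finrank_span_le_card (R := K) ({v} : Set (V2 → K))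
  simp only [Set.toFinset_card, Fintype.card_unique] at h3
  omega

/-- projection to the first two coordinates -/
def prE : (V2 → K) →ₗ[K] (Fin 2 → K) where
  toFun v := v ∘ Sum.inl
  map_add' _ _ := rfl
  map_smul' _ _ := rfl

omit [Algebra k K] in
theorem KK_le_two {P Q R : Matrix (Fin 2) (Fin 2) K} {β : K} (hβ : β ≠ 0) :
    finrank K (KK (toLin' (fromBlocks P Q R 0)) β) ≤ 2 := by
  have h1 : Function.Injective (prE.domRestrict (KK (toLin' (fromBlocks P Q R 0)) β)) := by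
    rw [← LinearMap.ker_eq_bot, LinearMap.ker_eq_bot']
    rintro ⟨v, hv⟩ h0
    have h1 : v ∘ Sum.inl = 0 := h0
    have h2 := (mem_KK.1 hv).2
    rw [h1, Matrix.mulVec_zero] at h2
    refine Subtype.ext (funext fun i => ?_)
    rcases i with i | i
    · exact congrFun h1 i
    · have h3 := congrFun h2 i
      exact (mul_eq_zero.1 h3.symm).resolve_left hβ
  have h2 := LinearMap.finrank_le_finrank_of_injective h1
  rwa [finrank_fintype_fun_eq_card, Fintype.card_fin] at h2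

omit [Algebra k K] in
theorem P_eq {P Q R : Matrix (Fin 2) (Fin 2) K} {β : K} (hβ : β ≠ 0)
    (h : finrank K (KK (toLin' (fromBlocks P Q R 0)) β) = 2) :
    P = β • 1 - β⁻¹ • (Q * R) := by
  have h1 : Function.Injective (prE.domRestrict (KK (toLin' (fromBlocks P Q R 0)) β)) := by
    rw [← LinearMap.ker_eq_bot, LinearMap.ker_eq_bot']
    rintro ⟨v, hv⟩ h0
    have h1 : v ∘ Sum.inl = 0 := h0
    have h2 := (mem_KK.1 hv).2
    rw [h1, Matrix.mulVec_zero] at h2
    refine Subtype.ext (funext fun i => ?_)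
    rcases i with i | i
    · exact congrFun h1 i
    · have h3 := congrFun h2 i
      exact (mul_eq_zero.1 h3.symm).resolve_left hβ
  have h2 : Function.Surjective (prE.domRestrict (KK (toLin' (fromBlocks P Q R 0)) β)) := by
    refine (LinearMap.injective_iff_surjective_of_finrank_eq_finrank ?_).1 h1
    rw [finrank_fintype_fun_eq_card, Fintype.card_fin, h]
  refine Matrix.ext_of_mulVec_single fun i => ?_
  obtain ⟨⟨v, hv⟩, hvi⟩ := h2 (Pi.single i 1)
  have hvi' : v ∘ Sum.inl = Pi.single i 1 := hvi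
  obtain ⟨h3, h4⟩ := mem_KK.1 hv
  rw [hvi'] at h3 h4
  have h5 : v ∘ Sum.inr = β⁻¹ • (R *ᵥ Pi.single i 1) := by
    rw [h4, smul_smul, inv_mul_cancel₀ hβ, one_smul]
  rw [h5, Matrix.mulVec_smul] at h3
  rw [Matrix.sub_mulVec, Matrix.smul_mulVec, Matrix.smul_mulVec, Matrix.one_mulVec,
    ← Matrix.mulVec_mulVec, ← h3, add_sub_cancel_right]

theorem smul_perp {e : Fin 2 → K} (j : Fin 2) {L : IntermediateField k K} (he : ∀ i, e i ∈ L) :
    (![e 1, -e 0] : Fin 2 → K) j ∈ L := by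
  fin_cases j
  · exact he 1
  · exact neg_mem (he 0)

/-- counting in the case `β = 0` -/
theorem rk_nil_aux {P Q R : Matrix (Fin 2) (Fin 2) K} {e ε : Fin 2 → K} (he : e ≠ 0) (hε : ε ≠ 0)
    (h1 : R *ᵥ e = 0) (h2 : ε ᵥ* Q = 0) (h3 : ε ⬝ᵥ (P *ᵥ e) = 0) :
    rk k (es (fromBlocks P Q R 0)) ≤ (9 : ℕ) := by
  obtain ⟨c1, hc1, x1, hx1⟩ := exists_norm (k := k) e he
  obtain ⟨c2, hc2, x2, hx2⟩ := exists_norm (k := k) ε hε
  set e' : Fin 2 → K := c1 • e with he'
  set ε' : Fin 2 → K := c2 • ε with hε'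
  have he0 : e' ≠ 0 := smul_ne_zero hc1 he
  have hε0 : ε' ≠ 0 := smul_ne_zero hc2 hε
  have h1' : R *ᵥ e' = 0 := by rw [he', Matrix.mulVec_smul, h1, smul_zero]
  have h2' : ε' ᵥ* Q = 0 := by rw [hε', Matrix.smul_vecMul, h2, smul_zero]
  have h3' : ε' ⬝ᵥ (P *ᵥ e') = 0 := by
    rw [hε', he', Matrix.mulVec_smul, smul_dotProduct, dotProduct_smul, h3, smul_zero, smul_zero]
  have hR : ∀ i, ∃ c : K, R i = c • ![e' 1, -e' 0] := fun i => perp he0 (by
    rw [dotProduct_comm]
    exact congrFun h1' i)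
  have hQ : ∀ j, ∃ c : K, (fun i => Q i j) = c • ![ε' 1, -ε' 0] := fun j =>
    perp hε0 (congrFun h2' j)
  choose c hc using hR
  choose d hd using hQ
  set t : Set K := ({x1} ∪ {x2}) ∪ (Set.range c ∪ Set.range d) with ht
  have ht6 : rk k t ≤ ((1 + 1) + (2 + 2) : ℕ) := by
    refine rk_union (rk_union (rk_singleton_le _) (rk_singleton_le _)) (rk_union ?_ ?_)
    · simpa using rk_range_le (k := k) c
    · simpa using rk_range_le (k := k) d
  have hte : ∀ i, e' i ∈ FF k t := fun i =>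
    FF_mono (fun y hy => .inl (.inl hy)) (hx1 i)
  have htε : ∀ i, ε' i ∈ FF k t := fun i =>
    FF_mono (fun y hy => .inl (.inr hy)) (hx2 i)
  have htR : MIn (FF k t) R := by
    intro i j
    rw [hc i]
    exact mul_mem (mem_FF_self (.inr (.inl ⟨i, rfl⟩))) (smul_perp j hte)
  have htQ : MIn (FF k t) Q := by
    intro i j
    have h5 := congrFun (hd j) i
    have h6 : Q i j = (d j • ![ε' 1, -ε' 0]) i := h5
    rw [h6]
    exact mul_mem (mem_FF_self (.inr (.inr ⟨j, rfl⟩))) (smul_perp i htε)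
  refine rk_lin (t := t) (of fun _ p => ε' p.1 * e' p.2 : Matrix Unit (Fin 2 × Fin 2) K)
    (fun p : Fin 2 × Fin 2 => P p.1 p.2) ?_ ?_ (r := 1) ?_ ht6 ?_ ?_
  · intro _ p
    exact mul_mem (htε _) (hte _)
  · intro i
    have h5 : ((of fun _ p => ε' p.1 * e' p.2 : Matrix Unit (Fin 2 × Fin 2) K) *ᵥ
        fun p : Fin 2 × Fin 2 => P p.1 p.2) i = ε' ⬝ᵥ (P *ᵥ e') := by
      simp only [Matrix.mulVec, dotProduct, Fintype.sum_prod_type, of_apply, Finset.mul_sum]
      refine Finset.sum_congr rfl fun a _ => Finset.sum_congr rfl fun b _ => ?_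
      ring
    rw [h5, h3']
    exact zero_mem _
  · have h5 := rank_ge_of_inj (of fun _ p => ε' p.1 * e' p.2 : Matrix Unit (Fin 2 × Fin 2) K) (by
      intro z hz
      obtain ⟨i, hi⟩ := Function.ne_iff.1 hε0
      obtain ⟨j, hj⟩ := Function.ne_iff.1 he0
      have h6 := congrFun hz (i, j)
      simp only [Matrix.vecMul, dotProduct, of_apply, Finset.univ_unique, Finset.sum_singleton,
        Pi.zero_apply] at h6
      funext u
      exact (mul_eq_zero.1 h6).resolve_right (mul_ne_zero hi hj))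
    simpa using h5
  · refine es_subset.2 (MIn.fromBlocks ?_ ?_ ?_ MIn.zero)
    · intro i j
      exact mem_FF_self (.inr ⟨(i, j), rfl⟩)
    · exact htQ.mono (FF_mono Set.subset_union_left)
    · exact htR.mono (FF_mono Set.subset_union_left)
  · simp

/-- the case `β = 0` -/
theorem rk_nil {P Q R : Matrix (Fin 2) (Fin 2) K}
    (h : 2 ≤ finrank K (KK (toLin' (fromBlocks P Q R 0)) 0)) :
    rk k (es (fromBlocks P Q R 0)) ≤ (9 : ℕ) := by
  have h8 : ∀ X Y : Matrix (Fin 2) (Fin 2) K, rk k (es X ∪ es Y) ≤ (9 : ℕ) := by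
    intro X Y
    have h1 := rk_union (rk_es_le (k := k) X) (rk_es_le (k := k) Y)
    simp only [Fintype.card_fin] at h1
    exact h1.trans (by exact_mod_cast (by norm_num : (2 * 2 + 2 * 2 : ℕ) ≤ 9))
  by_cases hR : R = 0
  · subst hR
    exact rk_trans (es_subset.2 (MIn.fromBlocks (MIn.es _ Set.subset_union_left)
      (MIn.es _ Set.subset_union_right) MIn.zero MIn.zero)) (h8 P Q)
  by_cases hQ : Q = 0
  · subst hQ
    exact rk_trans (es_subset.2 (MIn.fromBlocks (MIn.es _ Set.subset_union_left) MIn.zero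
      (MIn.es _ Set.subset_union_right) MIn.zero)) (h8 P R)
  have hsplit : ∀ w : V2 → K, w = Sum.elim (w ∘ Sum.inl) (w ∘ Sum.inr) := by
    intro w
    funext i
    rcases i with i | i <;> rfl
  obtain ⟨i0, hi0⟩ := exists_row hQ
  have hline : (∀ w ∈ KK (toLin' (fromBlocks P Q R 0)) 0, w ∘ Sum.inl = 0) → False := by
    intro hx
    refine not_line h (Sum.elim 0 ![Q i0 1, -Q i0 0]) fun w hw => ?_
    obtain ⟨h1, _⟩ := mem_KK.1 hw
    rw [hx w hw, Matrix.mulVec_zero, zero_add, smul_zero] at h1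
    obtain ⟨s, hs⟩ := perp hi0 (congrFun h1 i0)
    refine ⟨s, ?_⟩
    rw [hsplit w, hx w hw, hs]
    funext i
    rcases i with i | i
    · show (0 : K) = s * 0
      rw [mul_zero]
    · rfl
  have hRd : R.det = 0 := by
    by_contra hd
    refine hline fun w hw => ?_
    have h1 := (mem_KK.1 hw).2
    rw [zero_smul] at h1
    exact Matrix.eq_zero_of_mulVec_eq_zero hd h1
  obtain ⟨e, he, hRe⟩ := Matrix.exists_mulVec_eq_zero_iff.2 hRd
  have hxe : ∀ w ∈ KK (toLin' (fromBlocks P Q R 0)) 0, ∃ s : K, w ∘ Sum.inl = s • e := by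
    intro w hw
    have h1 := (mem_KK.1 hw).2
    rw [zero_smul] at h1
    exact ker_line hR he hRe h1
  have hQd : Q.det = 0 := by
    by_contra hd
    refine not_line h (Sum.elim e (-(Q⁻¹ *ᵥ (P *ᵥ e)))) fun w hw => ?_
    obtain ⟨s, hs⟩ := hxe w hw
    obtain ⟨h1, _⟩ := mem_KK.1 hw
    rw [hs, zero_smul] at h1
    have h2 : w ∘ Sum.inr = s • -(Q⁻¹ *ᵥ (P *ᵥ e)) := by
      have h3 := congrArg (fun v => Q⁻¹ *ᵥ v) h1
      simp only [Matrix.mulVec_add, Matrix.mulVec_zero] at h3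
      rw [Matrix.mulVec_mulVec (w ∘ Sum.inr), Matrix.nonsing_inv_mul _ (isUnit_iff_ne_zero.2 hd),
        Matrix.one_mulVec, Matrix.mulVec_smul, Matrix.mulVec_smul] at h3
      rw [smul_neg]
      exact eq_neg_of_add_eq_zero_right h3
    refine ⟨s, ?_⟩
    rw [hsplit w, hs, h2]
    funext i
    rcases i with i | i <;> rfl
  obtain ⟨ε, hε, hεQ⟩ := Matrix.exists_vecMul_eq_zero_iff.2 hQd
  refine rk_nil_aux he hε hRe hεQ ?_
  by_contra hne
  refine hline fun w hw => ?_
  obtain ⟨s, hs⟩ := hxe w hw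
  obtain ⟨h1, _⟩ := mem_KK.1 hw
  have h2 := congrArg (fun v => ε ⬝ᵥ v) h1
  simp only [zero_smul, dotProduct_add, dotProduct_zero] at h2
  rw [Matrix.dotProduct_mulVec ε Q, hεQ, zero_dotProduct, add_zero, hs, Matrix.mulVec_smul,
    dotProduct_smul, smul_eq_mul] at h2
  rw [hs, (mul_eq_zero.1 h2).resolve_right hne, zero_smul]

/-- the entries of a vector need one parameter less than its length -/
theorem exists_norm3 (u : V2 → K) (hu : u ≠ 0) :
    ∃ c : K, c ≠ 0 ∧ ∃ x : Fin 3 → K, ∀ i, c * u i ∈ FF k (Set.range x) := by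
  classical
  obtain ⟨i0, hi0⟩ := Function.ne_iff.1 hu
  have h1 : Fintype.card {i : V2 // i ≠ i0} = 3 := by
    rw [Fintype.card_subtype_compl (fun i => i = i0), Fintype.card_subtype_eq, Fintype.card_sum,
      Fintype.card_fin]
  let f : Fin 3 ≃ {i : V2 // i ≠ i0} := (finCongr h1.symm).trans (Fintype.equivFin _).symm
  refine ⟨(u i0)⁻¹, inv_ne_zero hi0, fun j => (u i0)⁻¹ * u (f j), fun i => ?_⟩
  by_cases h : i = i0
  · subst h
    rw [inv_mul_cancel₀ hi0]
    exact one_mem _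
  · refine mem_FF_self ⟨f.symm ⟨i, h⟩, ?_⟩
    simp

/-- rank one -/
theorem rk_one {Z : Matrix V2 V2 K} (h : 3 ≤ finrank K (KK (toLin' Z) 0)) (hZ : Z ≠ 0) :
    rk k (es Z) ≤ (7 : ℕ) := by
  have h1 := finrank_WW (toLin' Z) 0
  rw [finrank_fintype_fun_eq_card, Fintype.card_sum, Fintype.card_fin] at h1
  obtain ⟨j, hj⟩ : ∃ j, Z *ᵥ Pi.single j 1 ≠ 0 := by
    by_contra hc
    push Not at hc
    refine hZ (Matrix.ext_of_mulVec_single fun j => ?_)
    rw [hc j, Matrix.zero_mulVec]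
  have hmem : ∀ v, Z *ᵥ v ∈ WW (toLin' Z) 0 := fun v => ⟨v, by
    simp only [LinearMap.sub_apply, zero_smul, LinearMap.zero_apply, sub_zero, toLin'_apply]⟩
  set u : WW (toLin' Z) 0 := ⟨Z *ᵥ Pi.single j 1, hmem _⟩ with hu
  have hu0 : u ≠ 0 := fun h0 => hj (congrArg Subtype.val h0)
  have h2 : finrank K (WW (toLin' Z) 0) = 1 := by
    have : Nontrivial (WW (toLin' Z) 0) := ⟨u, 0, hu0⟩
    have := finrank_pos (R := K) (M := WW (toLin' Z) 0)
    omega
  have h3 : ∀ i, ∃ c : K, c • (Z *ᵥ Pi.single j 1) = Z *ᵥ Pi.single i 1 := by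
    intro i
    obtain ⟨c, hc⟩ := exists_smul_eq_of_finrank_eq_one h2 hu0 ⟨Z *ᵥ Pi.single i 1, hmem _⟩
    exact ⟨c, congrArg Subtype.val hc⟩
  choose c hc using h3
  obtain ⟨b, hb, x, hx⟩ := exists_norm3 (k := k) (Z *ᵥ Pi.single j 1) hj
  have h4 : rk k (Set.range x ∪ Set.range fun i => b⁻¹ * c i) ≤ (3 + 4 : ℕ) := by
    refine rk_union ?_ ?_
    · simpa using rk_range_le (k := k) x
    · simpa using rk_range_le (k := k) fun i => b⁻¹ * c i
  refine rk_trans (es_subset.2 fun l i => ?_) h4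
  have h5 : Z l i = (b⁻¹ * c i) * (b * (Z *ᵥ Pi.single j 1) l) := by
    have h6 := congrFun (hc i) l
    have h8 : (Z *ᵥ Pi.single i 1) l = Z l i := by
      rw [Matrix.mulVec_single_one]
      rfl
    have h7 : Z l i = c i * (Z *ᵥ Pi.single j 1) l := by
      rw [← h8, ← h6]
      rfl
    rw [h7]
    field_simp
  rw [h5]
  exact mul_mem (mem_FF_self (.inr ⟨i, rfl⟩)) (FF_mono Set.subset_union_left (hx l))

/-- the count -/
theorem z_count [IsAlgClosed K] (P Q R : Matrix (Fin 2) (Fin 2) K) : ∃ N M : ℕ,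
    rk k (es (fromBlocks P Q R 0)) ≤ N ∧ finrank K (cenL (toLin' (fromBlocks P Q R 0))) ≤ M ∧
      N + M ≤ 17 := by
  set Z : Matrix V2 V2 K := fromBlocks P Q R 0 with hZ
  have hV : finrank K (V2 → K) = 4 := by
    rw [finrank_fintype_fun_eq_card, Fintype.card_sum, Fintype.card_fin]
  by_cases h1 : ∀ β, finrank K (KK (toLin' Z) β) ≤ 1
  · refine ⟨4 + (4 + 4), 4, ?_, finrank_cenL_le_of_one 4 _ (toLin' Z) hV h1, by norm_num⟩
    have h2 : rk k (es P ∪ (es Q ∪ es R)) ≤ (4 + (4 + 4) : ℕ) := by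
      refine rk_union ?_ (rk_union ?_ ?_)
      · simpa using rk_es_le (k := k) P
      · simpa using rk_es_le (k := k) Q
      · simpa using rk_es_le (k := k) R
    refine rk_trans (es_subset.2 (MIn.fromBlocks ?_ ?_ ?_ MIn.zero)) h2
    · exact MIn.es _ fun x hx => .inl hx
    · exact MIn.es _ fun x hx => .inr (.inl hx)
    · exact MIn.es _ fun x hx => .inr (.inr hx)
  push Not at h1
  obtain ⟨β, hβ⟩ := h1
  by_cases h3 : 3 ≤ finrank K (KK (toLin' Z) β)
  · have hβ0 : β = 0 := by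
      by_contra h0
      have h4 := KK_le_two (P := P) (Q := Q) (R := R) h0
      exact Nat.not_succ_le_self 2 (h3.trans h4)
    subst hβ0
    by_cases hZ0 : Z = 0
    · refine ⟨0, 16, ?_, ?_, by norm_num⟩
      · rw [hZ0]
        refine rk_trans (t := ∅) (es_subset.2 MIn.zero) ?_
        rw [rk_empty]
        rfl
      · have := finrank_cenL_le_sq (toLin' Z)
        rwa [hV] at this
    · refine ⟨7, 10, rk_one h3 hZ0, ?_, by norm_num⟩
      have h4 := finrank_cenL_le' (toLin' Z) 0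
      have h5 := finrank_WW (toLin' Z) 0
      rw [hV] at h5
      have h6 : finrank K (KK (toLin' Z) 0) ≠ 4 := by
        intro h7
        refine hZ0 ?_
        have h8 : KK (toLin' Z) 0 = ⊤ := Submodule.eq_top_of_finrank_eq (by rw [h7, hV])
        refine Matrix.ext_of_mulVec_single fun j => ?_
        have h9 : (Pi.single j 1 : V2 → K) ∈ KK (toLin' Z) 0 := by rw [h8]; trivial
        rw [LinearMap.mem_ker] at h9
        simp only [LinearMap.sub_apply, zero_smul, LinearMap.zero_apply, sub_zero,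
          toLin'_apply] at h9
        rw [h9, Matrix.zero_mulVec]
      have h7 : finrank K (KK (toLin' Z) 0) = 3 := by omega
      have h8 : finrank K (WW (toLin' Z) 0) = 1 := by omega
      rw [h7, h8] at h4
      exact h4
  · have h4 : finrank K (KK (toLin' Z) β) = 2 := by omega
    refine ⟨9, 8, ?_, ?_, by norm_num⟩
    · by_cases hβ0 : β = 0
      · subst hβ0
        exact rk_nil (by rw [← hZ, h4])
      · have h5 := P_eq (P := P) (Q := Q) (R := R) hβ0 h4
        have h6 : rk k ({β} ∪ (es Q ∪ es R)) ≤ (1 + (4 + 4) : ℕ) := by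
          refine rk_union (rk_singleton_le _) (rk_union ?_ ?_)
          · simpa using rk_es_le (k := k) Q
          · simpa using rk_es_le (k := k) R
        refine rk_trans (es_subset.2 ?_) h6
        have hb : β ∈ FF k ({β} ∪ (es Q ∪ es R)) := mem_FF_self (.inl rfl)
        have hq : MIn (FF k ({β} ∪ (es Q ∪ es R))) Q := MIn.es _ fun x hx => .inr (.inl hx)
        have hr : MIn (FF k ({β} ∪ (es Q ∪ es R))) R := MIn.es _ fun x hx => .inr (.inr hx)
        refine MIn.fromBlocks ?_ hq hr MIn.zero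
        rw [h5]
        exact (MIn.one.smul hb).sub ((hq.mul hr).smul (inv_mem hb))
    · have h5 := finrank_cenL_le' (toLin' Z) β
      have h6 := finrank_WW (toLin' Z) β
      rw [hV] at h6
      have h7 : finrank K (WW (toLin' Z) β) = 2 := by omega
      rw [h4, h7] at h5
      exact h5

/-- the count for pairs -/
theorem aa_count [IsAlgClosed K] (hK : rk k (Set.univ : Set K) = ⊤) {a a' : Matrix V2 V2 K}
    (h : msk (a * a' - a' * a) = 0) : rk k (es a ∪ es a') ≤ (21 : ℕ) := by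
  obtain ⟨Z, hZ, h1⟩ := aa_dual hK h
  obtain ⟨N, M, hN, hM, hNM⟩ := z_count (k := k) Z.toBlocks₁₁ Z.toBlocks₁₂ Z.toBlocks₂₁
  have h2 : rk k (es (msk Z) ∪ es a) ≤ rk k (es (msk Z)) + (finrank K (cenL (toLin' (msk Z))) : ℕ) :=
    rk_cen (MIn.es _ subset_rfl) hZ
  have h3 : rk k (es (msk Z) ∪ es a) ≤ ((N + M : ℕ) : ℕ∞) := by
    refine h2.trans ?_
    rw [Nat.cast_add]
    exact add_le_add hN (by exact_mod_cast hM)
  have h4 : rk k (es (msk Z) ∪ es a ∪ es Z.toBlocks₂₂) ≤ ((N + M + 4 : ℕ) : ℕ∞) := by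
    refine rk_union h3 ?_
    simpa using rk_es_le (k := k) Z.toBlocks₂₂
  have h5 : rk k (es a ∪ es Z) ≤ ((N + M + 4 : ℕ) : ℕ∞) := by
    refine rk_trans ?_ h4
    refine Set.union_subset (Set.Subset.trans (fun x hx => .inl (.inr hx)) (subset_FF _))
      (es_subset.2 ?_)
    rw [← fromBlocks_toBlocks Z]
    have hm : MIn (FF k (es (msk Z) ∪ es a ∪ es Z.toBlocks₂₂)) (msk Z) :=
      MIn.es _ fun x hx => .inl (.inl hx)
    refine MIn.fromBlocks (fun i j => ?_) (fun i j => ?_) (fun i j => ?_)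
      (MIn.es _ fun x hx => .inr hx)
    · exact hm (.inl i) (.inl j)
    · exact hm (.inl i) (.inr j)
    · exact hm (.inr i) (.inl j)
  refine h1.trans (h5.trans ?_)
  exact_mod_cast (by omega : N + M + 4 ≤ 21)

end Pool.Agent.Lib.D13.S42
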