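import Pool.Agent.Lib.D7.Api
import Pool.Agent.Lib.D8.UtilB

/-!
# MP_5dcbc3_ag: moving extension classes

`ψ` is a functional with `ψ T_j = 0`, `f` a cocycle with values in `ker ψ`: then `T_i + s f_i ⊗ ψ`
is a family of commuting nilpotent triples. Consequences for maximal bad triples.
-/

namespace Pool.Agent.Lib.D13

open Matrix Pool.Agent.Lib.Q5dc Pool.Agent.Lib.D7

variable {k n : Type*} [Field k] [Fintype n] [DecidableEq n]
variable {ρ : ℕ → ℕ} {T : Fin 3 → Matrix n n k}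

namespace PsiAux

theorem pow_succ_psi (X : Matrix n n k) (f ψ : n → k) (hψ : ψ ᵥ* X = 0) (hf : ψ ⬝ᵥ f = 0)
    (s : k) (i : ℕ) :
    (X + s • vecMulVec f ψ) ^ (i + 1) = X ^ (i + 1) + s • vecMulVec ((X ^ i) *ᵥ f) ψ := by
  induction i with
  | zero => simp
  | succ i ih =>
    rw [pow_succ', ih]
    have h1 : vecMulVec f ψ * X ^ (i + 1) = 0 := by
      rw [pow_succ', ← mul_assoc, vecMulVec_mul, hψ]
      simp
    have h2 : vecMulVec f ψ * vecMulVec ((X ^ i) *ᵥ f) ψ = 0 := by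
      rw [vecMulVec_mul_vecMulVec]
      have : ψ ⬝ᵥ ((X ^ i) *ᵥ f) = 0 := by
        rw [dotProduct_mulVec]
        rcases Nat.eq_zero_or_pos i with rfl | hi
        · simpa using hf
        · obtain ⟨j, rfl⟩ : ∃ j, i = j + 1 := ⟨i - 1, by omega⟩
          rw [pow_succ', ← vecMul_vecMul, hψ]
          simp
      rw [this]
      simp
    have h3 : X * vecMulVec ((X ^ i) *ᵥ f) ψ = vecMulVec ((X ^ (i + 1)) *ᵥ f) ψ := by
      rw [mul_vecMulVec, mulVec_mulVec, ← pow_succ']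
    rw [add_mul, mul_add, mul_add, smul_mul_assoc, mul_smul_comm, smul_mul_assoc, h1, h3,
      mul_smul_comm, h2, ← pow_succ']
    simp

theorem rank_lt (P : Matrix n n k) (u ψ q : n → k) (hq : P *ᵥ q = 0) (hψq : ψ ⬝ᵥ q ≠ 0)
    (hu : ¬ ∃ m, u = P *ᵥ m) {s : k} (hs : s ≠ 0) :
    P.rank < (P + s • vecMulVec u ψ).rank := by
  have hv : ∀ v, (P + s • vecMulVec u ψ) *ᵥ v = P *ᵥ v + (s * (ψ ⬝ᵥ v)) • u := by
    intro v
    rw [add_mulVec, smul_mulVec, vecMulVec_mulVec]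
    ext a
    simp
    ring
  have hu' : u ∈ LinearMap.range (P + s • vecMulVec u ψ).mulVecLin := by
    refine ⟨(s * (ψ ⬝ᵥ q))⁻¹ • q, ?_⟩
    rw [mulVecLin_apply, hv, mulVec_smul, hq, dotProduct_smul]
    have h : s * (ψ ⬝ᵥ q) ≠ 0 := mul_ne_zero hs hψq
    ext a
    simp
    field_simp
  have hle : LinearMap.range P.mulVecLin ≤ LinearMap.range (P + s • vecMulVec u ψ).mulVecLin := by
    rintro _ ⟨v, rfl⟩
    have h : P *ᵥ v = (P + s • vecMulVec u ψ) *ᵥ v - (s * (ψ ⬝ᵥ v)) • u := by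
      rw [hv]; abel
    rw [mulVecLin_apply, h]
    exact Submodule.sub_mem _ ⟨v, mulVecLin_apply _ _⟩ (Submodule.smul_mem _ _ hu')
  refine Submodule.finrank_lt_finrank_of_lt (lt_of_le_of_ne hle ?_)
  intro he
  rw [← he] at hu'
  obtain ⟨m, hm⟩ := hu'
  exact hu ⟨m, by rw [← hm, mulVecLin_apply]⟩

end PsiAux

open PsiAux

theorem psi_cn (hT : CN T) (ψ : n → k) (hψ : ∀ j, ψ ᵥ* T j = 0) (f : Fin 3 → n → k)
    (hf : ∀ j, ψ ⬝ᵥ f j = 0) (hc : ∀ a b, T a *ᵥ f b = T b *ᵥ f a) (s : k) :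
    CN (fun i => T i + s • vecMulVec (f i) ψ) := by
  refine ⟨fun i j => ?_, fun i => ?_⟩
  · have h1 : ∀ a b, vecMulVec (f a) ψ * T b = 0 := by
      intro a b
      rw [vecMulVec_mul, hψ]
      simp
    have h2 : ∀ a b, vecMulVec (f a) ψ * vecMulVec (f b) ψ = 0 := by
      intro a b
      rw [vecMulVec_mul_vecMulVec, hf]
      simp
    simp only [add_mul, mul_add, smul_mul_assoc, mul_smul_comm, h1, h2, mul_vecMulVec, hc i j,
      hT.1 i j]
  · obtain ⟨m, hm⟩ := hT.2 i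
    refine ⟨m + 1 + 1, ?_⟩
    rw [pow_succ_psi (T i) (f i) ψ (hψ i) (hf i) s (m + 1)]
    have h1 : T i ^ (m + 1) = 0 := by rw [pow_succ, hm, zero_mul]
    rw [pow_succ (T i) (m + 1), h1]
    simp

theorem psi_fam (T : Fin 3 → Matrix n n k) (D : Fin 3 → Matrix n n k) :
    PolyFam (fun s i => T i + s • D i) := by
  have h := PolyFam.line T D
  exact h

/-- (P1), for the matrix `X = ∑ c_j T_j` -/
theorem MaxR.psi [Infinite k] (hT : MaxR ρ T) (c : Fin 3 → k) (i : ℕ)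
    (hρ : ρ (i + 1) ≤ ((∑ j, c j • T j) ^ (i + 1)).rank)
    (ψ : n → k) (hψ : ∀ j, ψ ᵥ* T j = 0) (f : Fin 3 → n → k)
    (hf : ∀ j, ψ ⬝ᵥ f j = 0) (hc : ∀ a b, T a *ᵥ f b = T b *ᵥ f a)
    (q : n → k) (hq : ((∑ j, c j • T j) ^ (i + 1)) *ᵥ q = 0) (hψq : ψ ⬝ᵥ q ≠ 0) :
    ∃ m, ((∑ j, c j • T j) ^ i) *ᵥ (∑ j, c j • f j) = ((∑ j, c j • T j) ^ (i + 1)) *ᵥ m := by
  by_contra hno
  have hX : ∀ s : k, (∑ j, c j • (T j + s • vecMulVec (f j) ψ)) =
      (∑ j, c j • T j) + s • vecMulVec (∑ j, c j • f j) ψ := by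
    intro s
    ext a b
    simp [Fin.sum_univ_three, vecMulVec_apply]
    ring
  refine hT.raise (fun s i => T i + s • vecMulVec (f i) ψ) (psi_fam T _) (by simp)
    Set.finite_empty (fun s _ => psi_cn hT.cn ψ hψ f hf hc s) (i + 1)
    (fun s => ∑ j, c j • (T j + s • vecMulVec (f j) ψ)) (fun s => ?_) ?_
  · exact sum_mem fun j _ => SMulMemClass.smul_mem _
      (mem_adj (fun i => T i + s • vecMulVec (f i) ψ) j)
  · refine (Set.Finite.infinite_compl (Set.finite_singleton (0 : k))).mono fun s hs => ?_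
    have hs' : s ≠ 0 := by simpa using hs
    show ρ (i + 1) < ((∑ j, c j • (T j + s • vecMulVec (f j) ψ)) ^ (i + 1)).rank
    rw [hX, pow_succ_psi _ _ _ ?_ ?_]
    · refine lt_of_le_of_lt hρ (rank_lt _ _ _ q hq hψq ?_ hs')
      rintro ⟨m, hm⟩
      exact hno ⟨m, hm⟩
    · rw [Fin.sum_univ_three]
      simp [vecMul_add, vecMul_smul, hψ]
    · rw [Fin.sum_univ_three]
      simp [dotProduct_add, dotProduct_smul, hf]

/-- (P1) for `T 0` -/
theorem MaxR.psi0 [Infinite k] (hT : MaxR ρ T) (i : ℕ) (hρ : ρ (i + 1) ≤ (T 0 ^ (i + 1)).rank)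
    (ψ : n → k) (hψ : ∀ j, ψ ᵥ* T j = 0) (f : Fin 3 → n → k)
    (hf : ∀ j, ψ ⬝ᵥ f j = 0) (hc : ∀ a b, T a *ᵥ f b = T b *ᵥ f a)
    (q : n → k) (hq : (T 0 ^ (i + 1)) *ᵥ q = 0) (hψq : ψ ⬝ᵥ q ≠ 0) :
    ∃ m, (T 0 ^ i) *ᵥ (f 0) = (T 0 ^ (i + 1)) *ᵥ m := by
  have e1 : (∑ j, (Pi.single 0 1 : Fin 3 → k) j • T j) = T 0 := by
    simp
  have e2 : (∑ j, (Pi.single 0 1 : Fin 3 → k) j • f j) = f 0 := by
    simp
  have h := MaxR.psi hT (Pi.single 0 1) i (by rw [e1]; exact hρ) ψ hψ f hf hc q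
    (by rw [e1]; exact hq) hψq
  rwa [e1, e2] at h

/-- dual form: `φ` in the socle, `g` a cocycle of functionals vanishing on `φ` -/
theorem MaxR.phi [Infinite k] (hT : MaxR ρ T) (c : Fin 3 → k) (i : ℕ)
    (hρ : ρ (i + 1) ≤ ((∑ j, c j • T j) ^ (i + 1)).rank)
    (φ : n → k) (hφ : ∀ j, T j *ᵥ φ = 0) (g : Fin 3 → n → k)
    (hg : ∀ j, g j ⬝ᵥ φ = 0) (hc : ∀ a b, g b ᵥ* T a = g a ᵥ* T b)
    (q : n → k) (hq : q ᵥ* ((∑ j, c j • T j) ^ (i + 1)) = 0) (hφq : q ⬝ᵥ φ ≠ 0) :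
    ∃ m, (∑ j, c j • g j) ᵥ* ((∑ j, c j • T j) ^ i) = m ᵥ* ((∑ j, c j • T j) ^ (i + 1)) := by
  have e : (∑ j, c j • (T j)ᵀ) = (∑ j, c j • T j)ᵀ := by
    simp [Fin.sum_univ_three]
  obtain ⟨m, hm⟩ := MaxR.psi hT.transpose c i (by
      rw [e, ← transpose_pow, rank_transpose]; exact hρ) φ
    (fun j => by rw [vecMul_transpose]; exact hφ j) g
    (fun j => by rw [dotProduct_comm]; exact hg j)
    (fun a b => by rw [mulVec_transpose, mulVec_transpose]; exact hc a b) q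
    (by rw [e, ← transpose_pow, mulVec_transpose]; exact hq) (by rw [dotProduct_comm]; exact hφq)
  refine ⟨m, ?_⟩
  rw [e, ← transpose_pow, ← transpose_pow, mulVec_transpose, mulVec_transpose] at hm
  exact hm

/-- `T_i + c_i u` for a nilpotent matrix `u` commuting with all `T_i` -/
theorem cn_end (hT : CN T) {u : Matrix n n k} (hu : ∀ i, T i * u = u * T i) (hn : IsNilpotent u)
    (c : Fin 3 → k) : CN (fun i => T i + c i • u) := by
  refine ⟨fun i j => ?_, fun i => ?_⟩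
  · simp only [add_mul, mul_add, smul_mul_assoc, mul_smul_comm, hu i, hu j, hT.1 i j]
    rw [smul_add, smul_add, smul_comm (c i) (c j) (u * u)]
    abel
  · exact Commute.isNilpotent_add
      (show Commute (T i) (c i • u) from Commute.smul_right (hu i) _) (hT.2 i)
      (IsNilpotent.smul hn (c i))

/-- (P4) endomorphisms may be added -/
theorem MaxR.end_rank [Infinite k] (hT : MaxR ρ T) {u : Matrix n n k}
    (hu : ∀ i, T i * u = u * T i) (hn : IsNilpotent u) (c : Fin 3 → k) (a : Fin 3 → k) (i : ℕ) :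
    ((∑ j, a j • (T j + c j • u)) ^ i).rank ≤ ρ i := by
  by_contra hlt
  rw [not_le] at hlt
  have hline : ∀ s : k, (∑ j, a j • (T j + s • (c j • u))) =
      (∑ j, a j • T j) + s • (∑ j, a j • (c j • u)) := by
    intro s
    ext x y
    simp [Fin.sum_univ_three]
    ring
  have h0 : (∑ j, a j • (T j + (1 : k) • (c j • u))) = ∑ j, a j • (T j + c j • u) := by simp
  have hfin := rank_semicont (fun s : k => (∑ j, a j • (T j + s • (c j • u))) ^ i)
    (isPoly_pow (fun x y => by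
      have := isPoly_line (∑ j, a j • T j) (∑ j, a j • (c j • u)) x y
      simpa only [hline] using this) i) 1
  refine hT.raise (fun s i => T i + s • (c i • u)) (psi_fam T _) (by simp)
    Set.finite_empty (fun s _ => ?_) i
    (fun s => ∑ j, a j • (T j + s • (c j • u))) (fun s => ?_) ?_
  · have h := cn_end hT.cn hu hn (fun i => s * c i)
    simpa [smul_smul] using h
  · exact sum_mem fun j _ => SMulMemClass.smul_mem _
      (mem_adj (fun i => T i + s • (c i • u)) j)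
  · refine hfin.infinite_compl.mono fun s hs => ?_
    rw [Set.mem_compl_iff, Set.mem_ofPred_eq, not_lt] at hs
    refine lt_of_lt_of_le hlt ?_
    rw [h0] at hs
    exact hs

/-- (G1): `ψ` kills `m M`, `φ` in the socle, `X = ∑ c_j T_j` of maximal rank: `ψ` vanishes on
`ker X` or `φ` lies in the image of `X` -/
theorem MaxR.soc_top [Infinite k] (hT : MaxR ρ T) (c : Fin 3 → k) (hc0 : c ≠ 0)
    (hρ : ρ 1 ≤ (∑ j, c j • T j).rank)
    (ψ : n → k) (hψ : ∀ j, ψ ᵥ* T j = 0) (φ : n → k) (hφ : ∀ j, T j *ᵥ φ = 0)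
    (hψφ : ψ ⬝ᵥ φ = 0) (q : n → k) (hq : (∑ j, c j • T j) *ᵥ q = 0) (hψq : ψ ⬝ᵥ q ≠ 0) :
    ∃ m, φ = (∑ j, c j • T j) *ᵥ m := by
  obtain ⟨l, hl⟩ : ∃ l, c l ≠ 0 := by
    by_contra h
    push Not at h
    exact hc0 (funext h)
  obtain ⟨m, hm⟩ := MaxR.psi hT c 0 (by simpa using hρ) ψ hψ (fun j => if j = l then φ else 0)
    (fun j => by by_cases h : j = l <;> simp [h, hψφ])
    (fun a b => by by_cases ha : a = l <;> by_cases hb : b = l <;> simp [ha, hb, hφ]) q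
    (by simpa using hq) hψq
  refine ⟨(c l)⁻¹ • m, ?_⟩
  have e : (∑ j, c j • (if j = l then φ else 0)) = c l • φ := by
    simp
  rw [e] at hm
  rw [mulVec_smul]
  have hm' : c l • φ = (∑ j, c j • T j) *ᵥ m := by simpa using hm
  rw [← hm', smul_smul, inv_mul_cancel₀ hl, one_smul]

end Pool.Agent.Lib.D13
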