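import Pool.Agent.Lib.D9.BlkMap
import Pool.Agent.Lib.D9.E1b
import Pool.Agent.Lib.D13.Psi

/-!
Module CUB (1.5h). CASE III (`b = b' = 0`, `th = th' = 0`, `et = et' = 0`, `P = im pi + im pi'`) is always a raise.
e, u, p arbitrary. Hypotheses of the theorem: `hP`: a row killing `pi` and `pi'` is 0; `Z, hZ`: a row `x` on `E` with `x Z = 0` is of the form `q a' - q' a` (Z has κ columns); `κ + 3 < e + 3 p`.

PROOF. p ≥ 1 (otherwise κ + 3 < e; if p = 0 the hypothesis κ + 3 < e is still fine only for e > 3; treat p = 0: not needed, hypothesis hp : 0 < p is given). Let `ph` = basis vector `P_0` (index `.inr (.inr i0)`, i0 = 0 in Fin p) : killed by A, B, C since th = et = 0.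
Look for rows `g_A, g_B, g_C` on the whole space with `g_i T_j = g_j T_i`, `g_i ph = 0`; then `T_i(s) := T_i + s ph (x) g_i` (vecMulVec) is CN for all s: `T_i (ph (x) g_j) = 0`, `(ph (x) g_i) T_j = ph (x) (g_i T_j)` symmetric, `(ph (x) g_i)(ph (x) g_j) = 0`; nilpotent by E1bAux.nil_add (X K = 0, K K = 0).
FORM: unknowns g2 : Fin e -> k, g3 : Fin u -> k, gP, sB, sC : Fin p -> k.
 g_A = 0 on E_0, E_1, U_0; g2 on E_2; g3 on U_1; gP on P.
 g_B = 0 on E_0; yB on E_1; zB on E_2; qB on U_0; rB on U_1; sB on P, where (from g_B A = g_A B) yB = g2 M + g3 c + gP w, zB = g2 N + g3 a, rB = g2 d + g3 nu + gP pi.   g_C the same with primes.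
 g_B C = g_C B: column E_1: zB N' + rB a' = zC N + rC a : automatic from relations 2, 3, 4 of BX_comm (b = th = et = 0). Columns E_2, U_1, P: T = 0 there.
   column U_0: (1) zB d' + rB nu' + sB pi' = zC d + rC nu + sC pi  (u equations).
   column E_0: (2) yB N' + zB M' + qB a' + rB c' + sB w' = yC N + zC M + qC a + rC c + sC w: solvable in (qB, qC) iff  [yC N + zC M + rC c + sC w - yB N' - zB M' - rB c' - sB w'] * Z = 0 (κ equations), by hZ.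
   and gP i0 = sB i0 = sC i0 = 0 (3 equations).
 A linear map (k^e x k^u x (k^p)^3) -> (k^u x k^κ x k^3), dimension of the source e + u + 3p > u + κ + 3: nonzero kernel element (LinearMap.ker_ne_bot_of_finrank_lt or exists_ne_zero...).
 RAISE. hT.deform / D8.MaxR.line3: for all s outside a finite set T(s) is MaxR; fix one s ≠ 0. For every pair (t, r) of scalars X := A(s) + t B(s) + r C(s) in adj T(s), rank X^2 ≤ ρ 2 ≤ e. X = X0 + s ph (x) g_X, X0 = A + tB + rC, g_X = g_A + t g_B + r g_C; X^2 = X0^2 + s ph (x) (g_X X0) (X0 ph = 0, g_X ph = 0).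
 Minor: rows E_2 and P_0, columns E_0 and one v in {E_1 j, U_0 j}: X0^2 v = 0 (V2 -> V3 -> 0; X0^2 has entries only in rows E_2, U_1, P and columns E_0: relation b = 0), so the (E_2, v) entries are 0 (ph has no E_2 part) and the (P_0, v) entry is s (g_X X0) v. So det (X0^2)[E_2,E_0] * s * (g_X X0)(v) = 0
 (le_rank_of_minor / BlkRankAux.card_le_rank). Put r = 0, X0 = A + tB: det(t) is a polynomial with value 1 at t = 0 (X0^2[E_2,E_0] = 1 + 2 t N + t^2 (..)), so (g_X X0)(v) = g_A(A v) + 2 t g_A(B v) + t^2 g_B(B v) = 0 for infinitely many t: g_A A v = 0, g_A B v = 0, g_B B v = 0. Same for C and for B + C.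
 So for v in E_1, U_0: g_A A v = 0: g2 = 0, g3 = 0. g_A B v = 0, g_A C v = 0: gP pi = gP pi' = 0, so gP = 0. Then zB = rB = zC = rC = 0; g_B B v = 0: sB pi = 0; sC pi' = 0; (1): sB pi' = sC pi; B + C: sB pi' + sC pi = 0. So sB = sC = 0: contradiction.
-/

namespace Pool.Agent.Lib.D13

open Matrix Pool.Agent.Lib.Q5dc Pool.Agent.Lib.D7 Pool.Agent.Lib.D9

namespace CUBAux

section

variable {k : Type*} [Field k] {e u p : ℕ}

/-- rows on the whole space -/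
def rX (x0 x1 x2 : Fin e → k) (y0 y1 : Fin u → k) (z : Fin p → k) : Ix e u p → k
  | .inl (.inl i) => x0 i
  | .inl (.inr (.inl i)) => x1 i
  | .inl (.inr (.inr i)) => x2 i
  | .inr (.inl (.inl i)) => y0 i
  | .inr (.inl (.inr i)) => y1 i
  | .inr (.inr i) => z i

theorem rX_BX (x0 x1 x2 : Fin e → k) (y0 y1 : Fin u → k) (z : Fin p → k)
    (N M : Matrix (Fin e) (Fin e) k) (a c : Matrix (Fin u) (Fin e) k)
    (w : Matrix (Fin p) (Fin e) k) (b d : Matrix (Fin e) (Fin u) k)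
    (nu : Matrix (Fin u) (Fin u) k) (pi : Matrix (Fin p) (Fin u) k)
    (th : Matrix (Fin e) (Fin p) k) (et : Matrix (Fin u) (Fin p) k) :
    rX x0 x1 x2 y0 y1 z ᵥ* BX N M a c w b d nu pi th et =
      rX (x1 ᵥ* N + x2 ᵥ* M + y0 ᵥ* a + y1 ᵥ* c + z ᵥ* w) (x2 ᵥ* N + y1 ᵥ* a) 0
        (x1 ᵥ* b + x2 ᵥ* d + y1 ᵥ* nu + z ᵥ* pi) (x2 ᵥ* b) (x2 ᵥ* th + y1 ᵥ* et) := by
  ext j
  rcases j with (j | j | j) | ((j | j) | j) <;>
    simp [rX, BX, Matrix.vecMul, dotProduct, Fintype.sum_sum_type, add_assoc]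

theorem rX_JX (x0 x1 x2 : Fin e → k) (y0 y1 : Fin u → k) (z : Fin p → k) :
    rX x0 x1 x2 y0 y1 z ᵥ* JX k e u p = rX x1 x2 0 y1 0 0 := by
  rw [JX, rX_BX]
  simp

theorem rX_add (x0 x1 x2 x0' x1' x2' : Fin e → k) (y0 y1 y0' y1' : Fin u → k) (z z' : Fin p → k) :
    rX x0 x1 x2 y0 y1 z + rX x0' x1' x2' y0' y1' z' =
      rX (x0 + x0') (x1 + x1') (x2 + x2') (y0 + y0') (y1 + y1') (z + z') := by
  ext j
  rcases j with (j | j | j) | ((j | j) | j) <;> rfl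

/-- the vector `P_i` -/
def ph (k : Type*) [Field k] (e u : ℕ) {p : ℕ} (i0 : Fin p) : Ix e u p → k :=
  rX 0 0 0 0 0 (Pi.single i0 1)

theorem BX_ph (N M : Matrix (Fin e) (Fin e) k) (a c : Matrix (Fin u) (Fin e) k)
    (w : Matrix (Fin p) (Fin e) k) (b d : Matrix (Fin e) (Fin u) k)
    (nu : Matrix (Fin u) (Fin u) k) (pi : Matrix (Fin p) (Fin u) k) (i0 : Fin p) :
    BX N M a c w b d nu pi 0 0 *ᵥ ph k e u i0 = 0 := by
  ext j
  rcases j with (j | j | j) | ((j | j) | j) <;>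
    simp [ph, rX, BX, Matrix.mulVec, dotProduct, Fintype.sum_sum_type]

theorem JX_ph (i0 : Fin p) : JX k e u p *ᵥ ph k e u i0 = 0 := BX_ph ..

theorem rX_ph (x0 x1 x2 : Fin e → k) (y0 y1 : Fin u → k) (z : Fin p → k) (i0 : Fin p) :
    rX x0 x1 x2 y0 y1 z ⬝ᵥ ph k e u i0 = z i0 := by
  simp [ph, rX, dotProduct, Fintype.sum_sum_type, Pi.single_apply]

end

variable {k : Type*} [Field k] [CharZero k] {e u p : ℕ} {ρ : ℕ → ℕ}

/-- the determinant of `(1 + t N) ^ 2 + t ^ 2 K` vanishes for finitely many `t` -/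
theorem fin_det (N K : Matrix (Fin e) (Fin e) k) :
    {t : k | ((1 + t • N) * (1 + t • N) + (t * t) • K).det = 0}.Finite := by
  have h : ∀ x y, IsPoly fun t : k => ((1 + t • N) * (1 + t • N) + (t * t) • K) x y := by
    intro x y
    have h1 := isPoly_mul (isPoly_line (1 : Matrix (Fin e) (Fin e) k) N)
      (isPoly_line (1 : Matrix (Fin e) (Fin e) k) N) x y
    have h2 : IsPoly fun t : k => ((t * t) • K) x y := by
      simp only [Matrix.smul_apply, smul_eq_mul]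
      exact (D7.IsPoly.id.mul D7.IsPoly.id).mul (D7.IsPoly.const _)
    simpa using h1.add h2
  have h3 := PolyAux.det_poly (r := e) (fun t : k => ((1 + t • N) * (1 + t • N) + (t * t) • K)) h
    id id
  refine (h3.finite (s₁ := 0) ?_).subset fun t ht => ?_
  · simp
  · simpa using ht

/-- zeros at the values `t` outside a finite set: the coefficients vanish -/
theorem coef0 {a b c : k} {F : Set k} (hF : F.Finite)
    (h : ∀ t : k, t ∉ F → a + b * t + c * t ^ 2 = 0) : a = 0 ∧ b = 0 ∧ c = 0 := by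
  by_contra hne
  have h1 : a ≠ 0 ∨ b ≠ 0 ∨ c ≠ 0 := by tauto
  have h2 := D8.finite_quad h1
  obtain ⟨t, ht⟩ := (hF.union h2).infinite_compl.nonempty
  rw [Set.mem_compl_iff, Set.mem_union, not_or] at ht
  exact ht.2 (h t ht.1)

/-- the columns `E_1` and `U_0` -/
def Good (v : Ix e u p) : Prop := (∃ j, v = .inl (.inr (.inl j))) ∨ (∃ j, v = .inr (.inl (.inl j)))

theorem key {N M : Matrix (Fin e) (Fin e) k} {a c : Matrix (Fin u) (Fin e) k}
    {w : Matrix (Fin p) (Fin e) k} {d : Matrix (Fin e) (Fin u) k}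
    {nu : Matrix (Fin u) (Fin u) k} {pi : Matrix (Fin p) (Fin u) k}
    {C : Matrix (Ix e u p) (Ix e u p) k} (h2 : ρ 2 ≤ e)
    (hT : MaxR ρ ![JX k e u p, BX N M a c w 0 d nu pi 0 0, C]) (i0 : Fin p)
    (hC : C *ᵥ ph k e u i0 = 0) (g0 g1 g2 : Ix e u p → k) (hg0 : g0 ⬝ᵥ ph k e u i0 = 0)
    (hg1 : g1 ⬝ᵥ ph k e u i0 = 0) (hg2 : g2 ⬝ᵥ ph k e u i0 = 0)
    (h01 : g1 ᵥ* JX k e u p = g0 ᵥ* BX N M a c w 0 d nu pi 0 0)
    (h02 : g2 ᵥ* JX k e u p = g0 ᵥ* C)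
    (h12 : g2 ᵥ* BX N M a c w 0 d nu pi 0 0 = g1 ᵥ* C) {v : Ix e u p} (hv : Good v) :
    (g0 ᵥ* JX k e u p) v = 0 ∧ (g0 ᵥ* BX N M a c w 0 d nu pi 0 0) v = 0 ∧
      (g1 ᵥ* BX N M a c w 0 d nu pi 0 0) v = 0 := by
  set A : Matrix (Ix e u p) (Ix e u p) k := JX k e u p with hA
  set B : Matrix (Ix e u p) (Ix e u p) k := BX N M a c w 0 d nu pi 0 0 with hB
  have main : ∀ t : k, t ∉ {t : k | ((1 + t • N) * (1 + t • N) + (t * t) • (d * a)).det = 0} →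
      (g0 ᵥ* A) v + (2 * (g0 ᵥ* B) v) * t + (g1 ᵥ* B) v * t ^ 2 = 0 := by
    intro t ht
    have hdet : ((1 + t • N) * (1 + t • N) + (t * t) • (d * a)).det ≠ 0 := ht
    set D : Matrix (Fin e) (Fin e) k := (1 + t • N) * (1 + t • N) + (t * t) • (d * a) with hD
    have hX : (∑ j, (![1, t, 0] : Fin 3 → k) j • (![A, B, C] : Fin 3 → _) j) =
        BX (1 + t • N) (t • M) (t • a) (t • c) (t • w) 0 (t • d) (1 + t • nu) (t • pi) 0 0 := by
      simp only [Fin.sum_univ_three, Matrix.cons_val_zero, Matrix.cons_val_one, Matrix.cons_val]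
      rw [one_smul, zero_smul, add_zero, hA, hB, JX, BX_smul, BX_add]
      simp
    set X : Matrix (Ix e u p) (Ix e u p) k :=
      ∑ j, (![1, t, 0] : Fin 3 → k) j • (![A, B, C] : Fin 3 → _) j with hXdef
    have hX2 : X ^ (1 + 1) = BX 0 D 0 ((t • a) * (1 + t • N) + (1 + t • nu) * (t • a))
        ((t • pi) * (t • a)) 0 0 0 0 0 0 := by
      rw [pow_succ, pow_one, hX, BX_mul]
      simp [hD, smul_smul]
    have hrk : ρ (1 + 1) ≤ (X ^ (1 + 1)).rank := by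
      refine h2.trans ?_
      have h3 := BlkShapeAux.card_le_rank (X ^ (1 + 1)) (fun i : Fin e => .inl (.inr (.inr i)))
        (fun j : Fin e => .inl (.inl j)) (by
          have h4 : (X ^ (1 + 1)).submatrix (fun i : Fin e => (.inl (.inr (.inr i)) : Ix e u p))
              (fun j : Fin e => (.inl (.inl j) : Ix e u p)) = D := by
            rw [hX2]
            ext i j
            rfl
          rw [h4]
          exact hdet)
      rwa [Fintype.card_fin] at h3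
    obtain ⟨m, hm⟩ := MaxR.phi hT ![1, t, 0] 1 hrk (ph k e u i0)
      (fun j => by
        fin_cases j
        · exact JX_ph i0
        · exact BX_ph ..
        · exact hC) ![g0, g1, g2]
      (fun j => by
        fin_cases j
        · exact hg0
        · exact hg1
        · exact hg2)
      (fun a b => by
        fin_cases a <;> fin_cases b
        · rfl
        · exact h01
        · exact h02
        · exact h01.symm
        · rfl
        · exact h12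
        · exact h02.symm
        · exact h12.symm
        · rfl)
      (rX 0 0 (-((Pi.single i0 1 ᵥ* ((t • pi) * (t • a))) ᵥ* D⁻¹)) 0 0 (Pi.single i0 1))
      (by
        show _ ᵥ* X ^ (1 + 1) = 0
        rw [hX2, rX_BX]
        have h5 : D⁻¹ * D = 1 := Matrix.nonsing_inv_mul _ (isUnit_iff_ne_zero.2 hdet)
        simp only [neg_vecMul, vecMul_vecMul, h5, vecMul_zero, zero_vecMul, zero_add, add_zero,
          Matrix.mul_assoc, Matrix.mul_one, neg_add_cancel]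
        ext j
        rcases j with (j | j | j) | ((j | j) | j) <;> simp [rX])
      (by rw [rX_ph]; simp)
    have hm' := congrFun hm v
    have h6 : (m ᵥ* X ^ (1 + 1)) v = 0 := by
      rw [hX2]
      rcases hv with ⟨j, rfl⟩ | ⟨j, rfl⟩ <;>
        simp [Matrix.vecMul, dotProduct, BX, Fintype.sum_sum_type]
    have h7 : ((∑ j, (![1, t, 0] : Fin 3 → k) j • (![g0, g1, g2] : Fin 3 → _) j) ᵥ*
        (X ^ 1)) v = 0 := hm'.trans h6
    rw [pow_one, hXdef] at h7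
    simp only [Fin.sum_univ_three, Matrix.cons_val_zero, Matrix.cons_val_one, Matrix.cons_val,
      one_smul, zero_smul, add_zero] at h7
    rw [add_vecMul, vecMul_add, vecMul_add, smul_vecMul, smul_vecMul, vecMul_smul, vecMul_smul,
      h01] at h7
    simp only [Pi.add_apply, Pi.smul_apply, smul_eq_mul] at h7
    linear_combination h7
  obtain ⟨h3, h4, h5⟩ := coef0 (fin_det N (d * a)) main
  exact ⟨h3, (mul_eq_zero.1 h4).resolve_left two_ne_zero, h5⟩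


/-- the unknowns -/
abbrev VV (k : Type*) (e u p : ℕ) : Type _ :=
  (Fin e → k) × (Fin u → k) × (Fin p → k) × (Fin p → k) × (Fin p → k)

omit [CharZero k] in
/-- a nonzero solution of the linear system -/
theorem exists_sol {κ : ℕ} (M M' N N' : Matrix (Fin e) (Fin e) k)
    (a c a' c' : Matrix (Fin u) (Fin e) k)
    (w w' : Matrix (Fin p) (Fin e) k) (d d' : Matrix (Fin e) (Fin u) k)
    (nu nu' : Matrix (Fin u) (Fin u) k) (pi pi' : Matrix (Fin p) (Fin u) k)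
    (Z : Matrix (Fin e) (Fin κ) k) (hκ : κ + 3 < e + 3 * p) (i0 : Fin p) :
    ∃ (g2 : Fin e → k) (g3 : Fin u → k) (gP sB sC : Fin p → k),
      ¬ (g2 = 0 ∧ g3 = 0 ∧ gP = 0 ∧ sB = 0 ∧ sC = 0) ∧
      gP i0 = 0 ∧ sB i0 = 0 ∧ sC i0 = 0 ∧
      (g2 ᵥ* N + g3 ᵥ* a) ᵥ* d' + (g2 ᵥ* d + g3 ᵥ* nu + gP ᵥ* pi) ᵥ* nu' + sB ᵥ* pi' =
        (g2 ᵥ* N' + g3 ᵥ* a') ᵥ* d + (g2 ᵥ* d' + g3 ᵥ* nu' + gP ᵥ* pi') ᵥ* nu + sC ᵥ* pi ∧
      (((g2 ᵥ* M' + g3 ᵥ* c' + gP ᵥ* w') ᵥ* N + (g2 ᵥ* N' + g3 ᵥ* a') ᵥ* M +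
        (g2 ᵥ* d' + g3 ᵥ* nu' + gP ᵥ* pi') ᵥ* c + sC ᵥ* w) -
       ((g2 ᵥ* M + g3 ᵥ* c + gP ᵥ* w) ᵥ* N' + (g2 ᵥ* N + g3 ᵥ* a) ᵥ* M' +
        (g2 ᵥ* d + g3 ᵥ* nu + gP ᵥ* pi) ᵥ* c' + sB ᵥ* w')) ᵥ* Z = 0 := by
  let L : VV k e u p →ₗ[k] (k × k × k) × (Fin u → k) × (Fin κ → k) :=
    { toFun := fun x => ((x.2.2.1 i0, x.2.2.2.1 i0, x.2.2.2.2 i0),
        ((x.1 ᵥ* N + x.2.1 ᵥ* a) ᵥ* d' + (x.1 ᵥ* d + x.2.1 ᵥ* nu + x.2.2.1 ᵥ* pi) ᵥ* nu' +
            x.2.2.2.1 ᵥ* pi') -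
          ((x.1 ᵥ* N' + x.2.1 ᵥ* a') ᵥ* d + (x.1 ᵥ* d' + x.2.1 ᵥ* nu' + x.2.2.1 ᵥ* pi') ᵥ* nu +
            x.2.2.2.2 ᵥ* pi),
        (((x.1 ᵥ* M' + x.2.1 ᵥ* c' + x.2.2.1 ᵥ* w') ᵥ* N + (x.1 ᵥ* N' + x.2.1 ᵥ* a') ᵥ* M +
            (x.1 ᵥ* d' + x.2.1 ᵥ* nu' + x.2.2.1 ᵥ* pi') ᵥ* c + x.2.2.2.2 ᵥ* w) -
          ((x.1 ᵥ* M + x.2.1 ᵥ* c + x.2.2.1 ᵥ* w) ᵥ* N' + (x.1 ᵥ* N + x.2.1 ᵥ* a) ᵥ* M' +
            (x.1 ᵥ* d + x.2.1 ᵥ* nu + x.2.2.1 ᵥ* pi) ᵥ* c' + x.2.2.2.1 ᵥ* w')) ᵥ* Z)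
      map_add' := fun x y => by
        simp only [Prod.fst_add, Prod.snd_add, Pi.add_apply, add_vecMul, sub_vecMul,
          Prod.mk_add_mk, Prod.mk.injEq, true_and]
        exact ⟨by abel, by abel⟩
      map_smul' := fun s x => by
        simp only [Prod.smul_fst, Prod.smul_snd, Pi.smul_apply, smul_vecMul, add_vecMul,
          sub_vecMul, Prod.smul_mk, RingHom.id_apply, smul_add, smul_sub] }
  have hlt : Module.finrank k ((k × k × k) × (Fin u → k) × (Fin κ → k)) <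
      Module.finrank k (VV k e u p) := by
    simp only [Module.finrank_prod, Module.finrank_fintype_fun_eq_card, Module.finrank_self,
      Fintype.card_fin]
    omega
  have hk : LinearMap.ker L ≠ ⊥ := LinearMap.ker_ne_bot_of_finrank_lt hlt
  obtain ⟨x, hm, hne⟩ := Submodule.exists_mem_ne_zero_of_ne_bot hk
  obtain ⟨g2, g3, gP, sB, sC⟩ := x
  have h1 := LinearMap.mem_ker.1 hm
  have h2 : L (g2, g3, gP, sB, sC) = ((gP i0, sB i0, sC i0),
      ((g2 ᵥ* N + g3 ᵥ* a) ᵥ* d' + (g2 ᵥ* d + g3 ᵥ* nu + gP ᵥ* pi) ᵥ* nu' + sB ᵥ* pi') -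
        ((g2 ᵥ* N' + g3 ᵥ* a') ᵥ* d + (g2 ᵥ* d' + g3 ᵥ* nu' + gP ᵥ* pi') ᵥ* nu + sC ᵥ* pi),
      (((g2 ᵥ* M' + g3 ᵥ* c' + gP ᵥ* w') ᵥ* N + (g2 ᵥ* N' + g3 ᵥ* a') ᵥ* M +
        (g2 ᵥ* d' + g3 ᵥ* nu' + gP ᵥ* pi') ᵥ* c + sC ᵥ* w) -
       ((g2 ᵥ* M + g3 ᵥ* c + gP ᵥ* w) ᵥ* N' + (g2 ᵥ* N + g3 ᵥ* a) ᵥ* M' +
        (g2 ᵥ* d + g3 ᵥ* nu + gP ᵥ* pi) ᵥ* c' + sB ᵥ* w')) ᵥ* Z) := rfl
  rw [h2] at h1
  simp only [Prod.mk_eq_zero] at h1
  obtain ⟨⟨h3, h4, h5⟩, h6, h7⟩ := h1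
  refine ⟨g2, g3, gP, sB, sC, ?_, h3, h4, h5, sub_eq_zero.1 h6, h7⟩
  rintro ⟨rfl, rfl, rfl, rfl, rfl⟩
  exact hne rfl

omit [CharZero k] in
/-- a row killed by the column orthogonal to `v` is a multiple of `v` -/
theorem exists_mul (v x : Fin 2 → k) (hv : v ≠ 0)
    (h : x ᵥ* (!![-v 1; v 0] : Matrix (Fin 2) (Fin 1) k) = 0) : ∃ s : k, x = s • v := by
  have h1 := congrFun h 0
  simp only [Matrix.vecMul, dotProduct, Fin.sum_univ_two, Matrix.of_apply, Matrix.cons_val_zero,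
    Matrix.cons_val_one, Pi.zero_apply, Matrix.cons_val', Matrix.cons_val_fin_one] at h1
  by_cases h0 : v 0 = 0
  · have h2 : v 1 ≠ 0 := by
      intro h3
      refine hv (funext fun i => ?_)
      fin_cases i
      · exact h0
      · exact h3
    have h3 : x 0 = 0 := by
      rw [h0, mul_zero, add_zero, mul_neg, neg_eq_zero] at h1
      exact (mul_eq_zero.1 h1).resolve_right h2
    refine ⟨x 1 / v 1, funext fun i => ?_⟩
    fin_cases i
    · show x 0 = x 1 / v 1 * v 0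
      rw [h0, h3, mul_zero]
    · show x 1 = x 1 / v 1 * v 1
      rw [div_mul_cancel₀ _ h2]
  · refine ⟨x 0 / v 0, funext fun i => ?_⟩
    fin_cases i
    · show x 0 = x 0 / v 0 * v 0
      rw [div_mul_cancel₀ _ h0]
    · show x 1 = x 0 / v 0 * v 1
      rw [div_mul_eq_mul_div, eq_div_iff h0]
      linear_combination h1

end CUBAux

open CUBAux

/-- type `(3 ^ e, 2 ^ u, 1 ^ p)` with `b = th = et = 0` and `P = im pi + im pi'` -/
theorem no_III {k : Type*} [Field k] [CharZero k] {e u p κ : ℕ} {ρ : ℕ → ℕ} (hp : 0 < p)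
    (h2 : ρ 2 ≤ e)
    {N M N' M' : Matrix (Fin e) (Fin e) k} {a c a' c' : Matrix (Fin u) (Fin e) k}
    {w w' : Matrix (Fin p) (Fin e) k} {d d' : Matrix (Fin e) (Fin u) k}
    {nu nu' : Matrix (Fin u) (Fin u) k} {pi pi' : Matrix (Fin p) (Fin u) k}
    (hT : MaxR ρ ![JX k e u p, BX N M a c w 0 d nu pi 0 0, BX N' M' a' c' w' 0 d' nu' pi' 0 0])
    (hP : ∀ x : Fin p → k, x ᵥ* pi = 0 → x ᵥ* pi' = 0 → x = 0)
    (Z : Matrix (Fin e) (Fin κ) k)
    (hZ : ∀ x : Fin e → k, x ᵥ* Z = 0 → ∃ q q' : Fin u → k, x = q ᵥ* a' - q' ᵥ* a)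
    (hκ : κ + 3 < e + 3 * p) : False := by
  set i0 : Fin p := ⟨0, hp⟩ with hi0
  obtain ⟨g2, g3, gP, sB, sC, hne, hgP, hsB, hsC, e1, e2⟩ :=
    exists_sol M M' N N' a c a' c' w w' d d' nu nu' pi pi' Z hκ i0
  obtain ⟨qB, qC, hq⟩ := hZ _ e2
  obtain ⟨-, b2, b3, b4, -, -, -⟩ := (BX_comm ..).1 (hT.cn.1 1 2)
  simp only [Matrix.zero_mul, add_zero] at b2 b3 b4
  -- the rows
  set A : Matrix (Ix e u p) (Ix e u p) k := JX k e u p with hA
  set B : Matrix (Ix e u p) (Ix e u p) k := BX N M a c w 0 d nu pi 0 0 with hB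
  set C : Matrix (Ix e u p) (Ix e u p) k := BX N' M' a' c' w' 0 d' nu' pi' 0 0 with hC
  set gA : Ix e u p → k := rX 0 0 g2 0 g3 gP with hgA
  set yB := g2 ᵥ* M + g3 ᵥ* c + gP ᵥ* w with hyB
  set zB := g2 ᵥ* N + g3 ᵥ* a with hzB
  set rB := g2 ᵥ* d + g3 ᵥ* nu + gP ᵥ* pi with hrB
  set yC := g2 ᵥ* M' + g3 ᵥ* c' + gP ᵥ* w' with hyC
  set zC := g2 ᵥ* N' + g3 ᵥ* a' with hzC
  set rC := g2 ᵥ* d' + g3 ᵥ* nu' + gP ᵥ* pi' with hrC
  set gB : Ix e u p → k := rX 0 yB zB qB rB sB with hgB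
  set gC : Ix e u p → k := rX 0 yC zC qC rC sC with hgC
  have hAB : gB ᵥ* A = gA ᵥ* B := by
    rw [hgB, hA, rX_JX, hgA, hB, rX_BX]
    simp [hyB, hzB, hrB]
  have hAC : gC ᵥ* A = gA ᵥ* C := by
    rw [hgC, hA, rX_JX, hgA, hC, rX_BX]
    simp [hyC, hzC, hrC]
  have hBC : gC ᵥ* B = gB ᵥ* C := by
    rw [hgB, hgC, hB, hC, rX_BX, rX_BX]
    have k1 : yC ᵥ* N + zC ᵥ* M + qC ᵥ* a + rC ᵥ* c + sC ᵥ* w =
        yB ᵥ* N' + zB ᵥ* M' + qB ᵥ* a' + rB ᵥ* c' + sB ᵥ* w' := by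
      have h := hq
      rw [sub_eq_iff_eq_add] at h
      calc yC ᵥ* N + zC ᵥ* M + qC ᵥ* a + rC ᵥ* c + sC ᵥ* w =
          (yC ᵥ* N + zC ᵥ* M + rC ᵥ* c + sC ᵥ* w) + qC ᵥ* a := by abel
        _ = (qB ᵥ* a' - qC ᵥ* a + (yB ᵥ* N' + zB ᵥ* M' + rB ᵥ* c' + sB ᵥ* w')) + qC ᵥ* a := by
          rw [h]
        _ = _ := by abel
    have k2 : zC ᵥ* N + rC ᵥ* a = zB ᵥ* N' + rB ᵥ* a' := by
      rw [hzC, hzB, hrC, hrB]
      simp only [add_vecMul, vecMul_vecMul]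
      have m2 : g2 ᵥ* (N * N') + g2 ᵥ* (d * a') = g2 ᵥ* (N' * N) + g2 ᵥ* (d' * a) := by
        rw [← vecMul_add, b2, vecMul_add]
      have m3 : g3 ᵥ* (a * N') + g3 ᵥ* (nu * a') = g3 ᵥ* (a' * N) + g3 ᵥ* (nu' * a) := by
        rw [← vecMul_add, b3, vecMul_add]
      rw [b4]
      calc g2 ᵥ* (N' * N) + g3 ᵥ* (a' * N) +
            (g2 ᵥ* (d' * a) + g3 ᵥ* (nu' * a) + gP ᵥ* (pi' * a)) =
          (g2 ᵥ* (N' * N) + g2 ᵥ* (d' * a)) + (g3 ᵥ* (a' * N) + g3 ᵥ* (nu' * a)) +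
            gP ᵥ* (pi' * a) := by abel
        _ = _ := by
          rw [← m2, ← m3]
          abel
    have k3 : zC ᵥ* d + rC ᵥ* nu + sC ᵥ* pi = zB ᵥ* d' + rB ᵥ* nu' + sB ᵥ* pi' := e1.symm
    rw [k1, k2]
    simp only [vecMul_zero, zero_add]
    rw [k3]
  have pA : gA ⬝ᵥ ph k e u i0 = 0 := by rw [hgA, rX_ph, hgP]
  have pB : gB ⬝ᵥ ph k e u i0 = 0 := by rw [hgB, rX_ph, hsB]
  have pC : gC ⬝ᵥ ph k e u i0 = 0 := by rw [hgC, rX_ph, hsC]
  have cB : B *ᵥ ph k e u i0 = 0 := BX_ph ..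
  have cC : C *ᵥ ph k e u i0 = 0 := BX_ph ..
  have K1 := fun v (hv : Good v) => key h2 hT i0 cC gA gB gC pA pB pC hAB hAC hBC (v := v) hv
  have K2 := fun v (hv : Good v) => key h2 (D8.MaxR.swap hT) i0 cB gA gC gB pA pC pB hAC hAB
    hBC.symm (v := v) hv
  have hT3 : MaxR ρ ![A, B + C, C] := by
    have h := D8.MaxR.lin hT 1 1 0 1 0 0 0 0 (by norm_num)
    simpa using h
  have hBC' : B + C = BX (N + N') (M + M') (a + a') (c + c') (w + w') 0 (d + d') (nu + nu')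
      (pi + pi') 0 0 := by
    rw [hB, hC, BX_add]
    simp
  rw [hBC'] at hT3
  have K3 := fun v (hv : Good v) => key h2 hT3 i0 cC gA (gB + gC) gC pA
    (by rw [add_dotProduct, pB, pC, add_zero]) pC
    (by rw [← hBC', add_vecMul, vecMul_add, hAB, hAC]) hAC
    (by rw [← hBC', add_vecMul, vecMul_add, hBC]) (v := v) hv
  rw [← hBC'] at K3
  have gE : ∀ j : Fin e, Good (.inl (.inr (.inl j)) : Ix e u p) := fun j => Or.inl ⟨j, rfl⟩
  have gU : ∀ j : Fin u, Good (.inr (.inl (.inl j)) : Ix e u p) := fun j => Or.inr ⟨j, rfl⟩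
  have z2 : g2 = 0 := by
    funext j
    have h := (K1 _ (gE j)).1
    rwa [hgA, rX_JX] at h
  have z3 : g3 = 0 := by
    funext j
    have h := (K1 _ (gU j)).1
    rwa [hgA, rX_JX] at h
  have zrB : rB = 0 := by
    funext j
    have h := (K1 _ (gU j)).2.1
    rw [hgA, rX_BX] at h
    simpa [rX, hrB] using h
  have zrC : rC = 0 := by
    funext j
    have h := (K2 _ (gU j)).2.1
    rw [hgA, rX_BX] at h
    simpa [rX, hrC] using h
  have zP : gP = 0 := by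
    refine hP _ ?_ ?_
    · simpa [hrB, z2, z3] using zrB
    · simpa [hrC, z2, z3] using zrC
  have zzB : zB = 0 := by rw [hzB, z2, z3]; simp
  have zzC : zC = 0 := by rw [hzC, z2, z3]; simp
  have sBpi : sB ᵥ* pi = 0 := by
    funext j
    have h := (K1 _ (gU j)).2.2
    rw [hgB, rX_BX, zzB, zrB] at h
    simpa [rX] using h
  have sCpi : sC ᵥ* pi' = 0 := by
    funext j
    have h := (K2 _ (gU j)).2.2
    rw [hgC, rX_BX, zzC, zrC] at h
    simpa [rX] using h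
  have sBC : sB ᵥ* pi' + sC ᵥ* pi = 0 := by
    funext j
    have h := (K3 _ (gU j)).2.2
    rw [hBC', hgB, hgC, rX_add, rX_BX, zzB, zrB, zzC, zrC] at h
    simp only [rX, add_zero, vecMul_zero, zero_vecMul, zero_add, add_vecMul, vecMul_add, sBpi,
      sCpi] at h
    simpa [add_comm] using h
  have e3 : sB ᵥ* pi' = sC ᵥ* pi := by
    have h := e1
    change zB ᵥ* d' + rB ᵥ* nu' + sB ᵥ* pi' = zC ᵥ* d + rC ᵥ* nu + sC ᵥ* pi at h
    rw [zzB, zrB, zzC, zrC] at h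
    simpa using h
  rw [e3, ← two_smul k] at sBC
  have e4 : sC ᵥ* pi = 0 := (smul_eq_zero.1 sBC).resolve_left two_ne_zero
  exact hne ⟨z2, z3, zP, hP _ sBpi (e3.trans e4), hP _ e4 sCpi⟩

/-- `e = 2`: if `(a, a') ≠ 0` then `κ = 1` works. -/
theorem no_III2 {k : Type*} [Field k] [CharZero k] {u p : ℕ} {ρ : ℕ → ℕ} (hp : 0 < p)
    (h2 : ρ 2 ≤ 2)
    {N M N' M' : Matrix (Fin 2) (Fin 2) k} {a c a' c' : Matrix (Fin u) (Fin 2) k}
    {w w' : Matrix (Fin p) (Fin 2) k} {d d' : Matrix (Fin 2) (Fin u) k}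
    {nu nu' : Matrix (Fin u) (Fin u) k} {pi pi' : Matrix (Fin p) (Fin u) k}
    (hT : MaxR ρ ![JX k 2 u p, BX N M a c w 0 d nu pi 0 0, BX N' M' a' c' w' 0 d' nu' pi' 0 0])
    (hP : ∀ x : Fin p → k, x ᵥ* pi = 0 → x ᵥ* pi' = 0 → x = 0)
    (ha : ¬ (a = 0 ∧ a' = 0)) : False := by
  by_cases h1 : a = 0
  · obtain ⟨i, j, hij⟩ := E1bAux.exists_entry (fun h3 => ha ⟨h1, h3⟩ : a' ≠ 0)
    refine no_III hp h2 hT hP (!![-a' i 1; a' i 0] : Matrix (Fin 2) (Fin 1) k) (fun x hx => ?_)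
      (by omega)
    obtain ⟨s, hs⟩ := exists_mul (a' i) x (fun h => hij (by rw [h]; rfl)) hx
    refine ⟨s • Pi.single i 1, 0, ?_⟩
    rw [hs, smul_vecMul, zero_vecMul, sub_zero, single_one_vecMul]
    rfl
  · obtain ⟨i, j, hij⟩ := E1bAux.exists_entry h1
    refine no_III hp h2 hT hP (!![-a i 1; a i 0] : Matrix (Fin 2) (Fin 1) k) (fun x hx => ?_)
      (by omega)
    obtain ⟨s, hs⟩ := exists_mul (a i) x (fun h => hij (by rw [h]; rfl)) hx
    refine ⟨0, -(s • Pi.single i 1), ?_⟩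
    rw [hs, neg_vecMul, smul_vecMul, zero_vecMul, zero_sub, neg_neg, single_one_vecMul]
    rfl

end Pool.Agent.Lib.D13
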