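import Pool.Agent.Lib.D10.X2W

/-!
# MP_5dcbc3_ag: types `(3, 3, 2^u, 1^p)`, case I (`b = pi = 0` for both): reduction to `al` injective

Abstract form. `E = k^2`, `G`, `F` finite index types, `I : E -> F`, `J : G -> F` with `(I, J) : E + G -> F`
surjective and `I e + J g = 0` only if `e = 0` (the map `A` on `E_1 + G`). The data `X = (N, al, Ps)` with
`N : E -> E`, `al : E -> G`, `Ps : G -> F`; two such data commute if
`I (N N' - N' N) + J (al N' - al' N) + Ps al' - Ps' al = 0`.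

`Sys I J P`: a property `P` of pairs which implies commutation and is stable under generic members of linear
families of commuting pairs and under linear changes modulo `(1, 0, J)`. Theorem `Sys.no`: if `2 <= |G|`,
`|F| <= 2 |G|` and no pair with `P` has `al` injective, then there is no pair with `P` at all.
-/

namespace Pool.Agent.Lib.D13

open Matrix Pool.Agent.Lib.Q5dc Pool.Agent.Lib.D7 Pool.Agent.Lib.D9 Pool.Agent.Lib.D10

/-- the data `(N, al, Ps)` -/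
abbrev QI (k G F : Type*) : Type _ := Matrix (Fin 2) (Fin 2) k × Matrix G (Fin 2) k × Matrix F G k

section abs

variable {k : Type*} [Field k] {G F : Type*} [Fintype G] [DecidableEq G] [Fintype F] [DecidableEq F]
  {I : Matrix F (Fin 2) k} {J : Matrix F G k}

/-- the commutator -/
def Om (I : Matrix F (Fin 2) k) (J : Matrix F G k) (X Y : QI k G F) : Matrix F (Fin 2) k :=
  I * (X.1 * Y.1 - Y.1 * X.1) + J * (X.2.1 * Y.1 - Y.2.1 * X.1) + (X.2.2 * Y.2.1 - Y.2.2 * X.2.1)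

theorem Om_mulVec (X Y : QI k G F) (x : Fin 2 → k) : Om I J X Y *ᵥ x =
    I *ᵥ (X.1 *ᵥ (Y.1 *ᵥ x) - Y.1 *ᵥ (X.1 *ᵥ x)) + J *ᵥ (X.2.1 *ᵥ (Y.1 *ᵥ x) - Y.2.1 *ᵥ (X.1 *ᵥ x)) +
      (X.2.2 *ᵥ (Y.2.1 *ᵥ x) - Y.2.2 *ᵥ (X.2.1 *ᵥ x)) := by
  simp only [Om, Matrix.add_mulVec, Matrix.sub_mulVec, ← Matrix.mulVec_mulVec, Matrix.mulVec_sub]

theorem vmvCI {m n : Type*} [Fintype n] (a : m → k) (b v : n → k) :
    vecMulVec a b *ᵥ v = (b ⬝ᵥ v) • a := by
  funext i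
  simp only [Matrix.mulVec, dotProduct, vecMulVec_apply, Pi.smul_apply, smul_eq_mul, Finset.sum_mul]
  exact Finset.sum_congr rfl fun j _ => by ring

/-- a basis of `k^2` with its dual basis -/
structure Bas (f h fs hs : Fin 2 → k) : Prop where
  ff : fs ⬝ᵥ f = 1
  fh : fs ⬝ᵥ h = 0
  hf : hs ⬝ᵥ f = 0
  hh : hs ⬝ᵥ h = 1
  ex : ∀ x, x = (fs ⬝ᵥ x) • f + (hs ⬝ᵥ x) • h

theorem exists_bas {f h : Fin 2 → k} (hD : f 0 * h 1 - f 1 * h 0 ≠ 0) : ∃ fs hs, Bas f h fs hs := by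
  obtain ⟨D, hDD⟩ : ∃ D, D = f 0 * h 1 - f 1 * h 0 := ⟨_, rfl⟩
  rw [← hDD] at hD
  have hd : D⁻¹ * (f 0 * h 1 - f 1 * h 0) = 1 := by rw [← hDD, inv_mul_cancel₀ hD]
  refine ⟨![D⁻¹ * h 1, -(D⁻¹ * h 0)], ![-(D⁻¹ * f 1), D⁻¹ * f 0], ?_, ?_, ?_, ?_, ?_⟩
  · simp only [dotProduct, Fin.sum_univ_two, Matrix.cons_val_zero, Matrix.cons_val_one]
    linear_combination hd
  · simp only [dotProduct, Fin.sum_univ_two, Matrix.cons_val_zero, Matrix.cons_val_one]
    ring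
  · simp only [dotProduct, Fin.sum_univ_two, Matrix.cons_val_zero, Matrix.cons_val_one]
    ring
  · simp only [dotProduct, Fin.sum_univ_two, Matrix.cons_val_zero, Matrix.cons_val_one]
    linear_combination hd
  · intro x
    funext i
    simp only [dotProduct, Fin.sum_univ_two, Matrix.cons_val_zero, Matrix.cons_val_one,
      Pi.add_apply, Pi.smul_apply, smul_eq_mul]
    fin_cases i
    · show x 0 = _
      simp only [Fin.zero_eta]
      linear_combination -(x 0) * hd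
    · show x 1 = _
      simp only [Fin.mk_one]
      linear_combination -(x 1) * hd

theorem exists_bas1 {f : Fin 2 → k} (hf : f ≠ 0) : ∃ h fs hs, Bas f h fs hs := by
  by_cases h0 : f 0 = 0
  · have h1 : f 1 ≠ 0 := by
      intro h1
      apply hf
      funext i
      fin_cases i
      · exact h0
      · exact h1
    obtain ⟨fs, hs, h⟩ := exists_bas (f := f) (h := ![1, 0]) (by simpa using h1)
    exact ⟨_, fs, hs, h⟩
  · obtain ⟨fs, hs, h⟩ := exists_bas (f := f) (h := ![0, 1]) (by simpa using h0)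
    exact ⟨_, fs, hs, h⟩

/-- proportional vectors -/
theorem prop_of_det {f h : Fin 2 → k} (hf : f ≠ 0) (hD : f 0 * h 1 - f 1 * h 0 = 0) :
    ∃ c : k, h = c • f := by
  by_cases h0 : f 0 = 0
  · have h1 : f 1 ≠ 0 := by
      intro h1
      apply hf
      funext i
      fin_cases i
      · exact h0
      · exact h1
    refine ⟨h 1 / f 1, ?_⟩
    have h2 : h 0 = 0 := by
      rw [h0, zero_mul, zero_sub, neg_eq_zero] at hD
      exact (mul_eq_zero.1 hD).resolve_left h1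
    funext i
    fin_cases i
    · simp [h0, h2]
    · simp [h1]
  · refine ⟨h 0 / f 0, ?_⟩
    funext i
    fin_cases i
    · simp [h0]
    · simp only [Pi.smul_apply, smul_eq_mul, Fin.mk_one]
      rw [div_mul_eq_mul_div, eq_div_iff h0]
      linear_combination hD

theorem Bas.symm {f h fs hs : Fin 2 → k} (hb : Bas f h fs hs) : Bas h f hs fs :=
  ⟨hb.hh, hb.hf, hb.fh, hb.ff, fun x => by rw [add_comm]; exact hb.ex x⟩

theorem Bas.zero {f h fs hs : Fin 2 → k} (hb : Bas f h fs hs) {m : Type*} {Z : Matrix m (Fin 2) k}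
    (h1 : Z *ᵥ f = 0) (h2 : Z *ᵥ h = 0) : Z = 0 := by
  have h3 : ∀ x, Z *ᵥ x = 0 := by
    intro x
    rw [hb.ex x, Matrix.mulVec_add, Matrix.mulVec_smul, Matrix.mulVec_smul, h1, h2, smul_zero,
      smul_zero, add_zero]
  ext i j
  have h4 := congrFun (h3 (Pi.single j 1)) i
  rw [Matrix.mulVec_single_one] at h4
  exact h4

/-- a property of pairs -/
structure Sys (I : Matrix F (Fin 2) k) (J : Matrix F G k) (P : QI k G F → QI k G F → Prop) : Prop where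
  rel : ∀ {X Y : QI k G F}, P X Y → Om I J X Y = 0
  move : ∀ {X Y : QI k G F} (K L : QI k G F), P X Y → Om I J K Y + Om I J X L = 0 →
    Om I J K L = 0 → ∃ s : k, s ≠ 0 ∧ P (X + s • K) (Y + s • L)
  lin : ∀ {X Y : QI k G F} (x y z t p q : k), P X Y → x * t - y * z ≠ 0 →
    P (x • X + y • Y + p • (1, 0, J)) (z • X + t • Y + q • (1, 0, J))

variable {P : QI k G F → QI k G F → Prop}

theorem Sys.lin0 (hS : Sys I J P) {X Y : QI k G F} (x y z t : k) (hP : P X Y) (h : x * t - y * z ≠ 0) :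
    P (x • X + y • Y) (z • X + t • Y) := by
  have h1 := hS.lin x y z t 0 0 hP h
  rwa [zero_smul, add_zero, add_zero] at h1

theorem Sys.swap (hS : Sys I J P) {X Y : QI k G F} (hP : P X Y) : P Y X := by
  have h1 := hS.lin0 0 1 1 0 hP (by simp)
  rwa [zero_smul, zero_add, one_smul, one_smul, zero_smul, add_zero] at h1

/-- complement of a vector -/
theorem exists_perp (hG : 2 ≤ Fintype.card G) {g : G → k} (hg : g ≠ 0) :
    ∃ (g' p0 : G → k), g' ≠ 0 ∧ p0 ⬝ᵥ g = 1 ∧ p0 ⬝ᵥ g' = 0 := by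
  obtain ⟨i, hi⟩ := Function.ne_iff.1 hg
  rw [Pi.zero_apply] at hi
  have : Nontrivial G := Fintype.one_lt_card_iff_nontrivial.1 (by omega)
  obtain ⟨j, hj⟩ := exists_ne i
  refine ⟨Pi.single j 1, Pi.single i (g i)⁻¹, ?_, ?_, ?_⟩
  · intro h
    have h1 := congrFun h j
    rw [Pi.single_eq_same, Pi.zero_apply] at h1
    exact one_ne_zero h1
  · rw [single_dotProduct, inv_mul_cancel₀ hi]
  · rw [single_dotProduct, Pi.single_eq_of_ne hj.symm, mul_zero]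

/-- **step J**: `al, al'` jointly injective -/
theorem Sys.joint (hS : Sys I J P) (hG : 2 ≤ Fintype.card G)
    (Hinj : ∀ X Y : QI k G F, P X Y → (∀ x, X.2.1 *ᵥ x = 0 → x = 0) → False)
    {X Y : QI k G F} (hP : P X Y) (hK : ∀ x, X.2.1 *ᵥ x = 0 → Y.2.1 *ᵥ x = 0 → x = 0) : False := by
  have n1 : ∃ x, X.2.1 *ᵥ x = 0 ∧ x ≠ 0 := by
    by_contra hc
    push Not at hc
    exact Hinj X Y hP hc
  have n2 : ∃ x, Y.2.1 *ᵥ x = 0 ∧ x ≠ 0 := by
    by_contra hc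
    push Not at hc
    exact Hinj Y X (hS.swap hP) hc
  obtain ⟨x1, a1, b1⟩ := n1
  obtain ⟨x2, a2, b2⟩ := n2
  have c1 : Y.2.1 *ᵥ x1 ≠ 0 := fun h => b1 (hK x1 a1 h)
  have c2 : X.2.1 *ᵥ x2 ≠ 0 := fun h => b2 (hK x2 h a2)
  have hD : x1 0 * x2 1 - x1 1 * x2 0 ≠ 0 := by
    intro h
    obtain ⟨c, hc⟩ := prop_of_det b1 h
    apply c2
    rw [hc, Matrix.mulVec_smul, a1, smul_zero]
  obtain ⟨p1, p2, hb⟩ := exists_bas hD
  -- the images are proportional
  obtain ⟨c, hc0, hc⟩ : ∃ c : k, c ≠ 0 ∧ Y.2.1 *ᵥ x1 = c • X.2.1 *ᵥ x2 := by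
    have n3 : ∃ x, (X.2.1 + Y.2.1) *ᵥ x = 0 ∧ x ≠ 0 := by
      by_contra hc
      push Not at hc
      refine Hinj _ _ (hS.lin0 1 1 0 1 hP (by simp)) ?_
      intro x hx
      apply hc x
      simpa using hx
    obtain ⟨x, hx, hx0⟩ := n3
    have e1 : (X.2.1 + Y.2.1) *ᵥ x = (p2 ⬝ᵥ x) • X.2.1 *ᵥ x2 + (p1 ⬝ᵥ x) • Y.2.1 *ᵥ x1 := by
      conv_lhs => rw [hb.ex x]
      rw [Matrix.add_mulVec, Matrix.mulVec_add, Matrix.mulVec_add, Matrix.mulVec_smul,
        Matrix.mulVec_smul, Matrix.mulVec_smul, Matrix.mulVec_smul, a1, a2, smul_zero, smul_zero,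
        zero_add, add_zero]
    rw [hx] at e1
    have e2 : p1 ⬝ᵥ x ≠ 0 := by
      intro h
      rw [h, zero_smul, add_zero] at e1
      rcases smul_eq_zero.1 e1.symm with h5 | h5
      · apply hx0
        rw [hb.ex x, h, h5, zero_smul, zero_smul, add_zero]
      · exact c2 h5
    have e3 : p2 ⬝ᵥ x ≠ 0 := by
      intro h
      rw [h, zero_smul, zero_add] at e1
      rcases smul_eq_zero.1 e1.symm with h5 | h5
      · exact e2 h5
      · exact c1 h5
    refine ⟨-(p1 ⬝ᵥ x)⁻¹ * (p2 ⬝ᵥ x), mul_ne_zero (neg_ne_zero.2 (inv_ne_zero e2)) e3, ?_⟩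
    have e4 : (p1 ⬝ᵥ x) • Y.2.1 *ᵥ x1 = -((p2 ⬝ᵥ x) • X.2.1 *ᵥ x2) :=
      eq_neg_of_add_eq_zero_right e1.symm
    have e5 : Y.2.1 *ᵥ x1 = (p1 ⬝ᵥ x)⁻¹ • ((p1 ⬝ᵥ x) • Y.2.1 *ᵥ x1) := by
      rw [smul_smul, inv_mul_cancel₀ e2, one_smul]
    rw [e5, e4, smul_neg, smul_smul, neg_mul, neg_smul]
  set γ := X.2.1 *ᵥ x2 with hγ
  obtain ⟨g', p0, g1, g2, g3⟩ := exists_perp hG c2
  -- the move
  obtain ⟨s, hs, h4⟩ := hS.move
    (0, vecMulVec g' p1, vecMulVec (c⁻¹ • (Y.2.2 *ᵥ g' - (p1 ⬝ᵥ (Y.1 *ᵥ x1)) • J *ᵥ g')) p0)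
    (0, 0, vecMulVec ((p1 ⬝ᵥ (Y.1 *ᵥ x2)) • J *ᵥ g') p0) hP
    (by
      refine hb.zero ?_ ?_
      · rw [Matrix.add_mulVec, Om_mulVec, Om_mulVec]
        simp only [Matrix.zero_mulVec, Matrix.mulVec_zero, sub_zero, zero_sub, vmvCI, a1, hc,
          Matrix.mulVec_smul, hb.ff, dotProduct_zero, zero_smul, dotProduct_smul, g2, neg_zero,
          add_zero, zero_add, one_smul, smul_eq_mul, mul_one, smul_smul]
        match_scalars <;> field_simp <;> ring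
      · rw [Matrix.add_mulVec, Om_mulVec, Om_mulVec]
        simp only [Matrix.zero_mulVec, Matrix.mulVec_zero, sub_zero, zero_sub, vmvCI, a2, ← hγ,
          Matrix.mulVec_smul, hb.fh, dotProduct_zero, zero_smul, dotProduct_smul, g2, neg_zero,
          add_zero, zero_add, one_smul, smul_eq_mul, mul_one, smul_smul]
        module)
    (by
      refine hb.zero ?_ ?_
      · rw [Om_mulVec]
        simp only [Matrix.zero_mulVec, Matrix.mulVec_zero, sub_zero, zero_sub, vmvCI, hb.ff, g3,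
          one_smul, zero_smul, neg_zero, add_zero]
      · rw [Om_mulVec]
        simp only [Matrix.zero_mulVec, Matrix.mulVec_zero, sub_zero, zero_sub, vmvCI, hb.fh, g3,
          one_smul, zero_smul, neg_zero, add_zero])
  refine Hinj _ _ h4 ?_
  intro x hx
  have e1 : (X.2.1 + s • vecMulVec g' p1) *ᵥ x = (p2 ⬝ᵥ x) • γ + (s * (p1 ⬝ᵥ x)) • g' := by
    rw [Matrix.add_mulVec, Matrix.smul_mulVec, vmvCI, smul_smul]
    have e2 : X.2.1 *ᵥ x = (p2 ⬝ᵥ x) • γ := by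
      conv_lhs => rw [hb.ex x]
      rw [Matrix.mulVec_add, Matrix.mulVec_smul, Matrix.mulVec_smul, a1, smul_zero, zero_add]
    rw [e2]
  have e2 : (X.2.1 + s • vecMulVec g' p1) *ᵥ x = 0 := hx
  rw [e1] at e2
  have e3 : p2 ⬝ᵥ x = 0 := by
    have h5 := congrArg (fun y => p0 ⬝ᵥ y) e2
    simpa only [dotProduct_add, dotProduct_smul, g2, g3, smul_eq_mul, mul_one, mul_zero, add_zero,
      dotProduct_zero] using h5
  rw [e3, zero_smul, zero_add] at e2
  have e4 : p1 ⬝ᵥ x = 0 := by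
    rcases smul_eq_zero.1 e2 with h5 | h5
    · exact (mul_eq_zero.1 h5).resolve_left hs
    · exact absurd h5 g1
  rw [hb.ex x, e3, e4, zero_smul, zero_smul, add_zero]

/-- **step NE**: `al f = al' f = 0`, `al <> 0`, `f` is not an eigenvector of `N` -/
theorem Sys.ne (hS : Sys I J P) (hIs : ∀ y : F → k, ∃ e g, I *ᵥ e + J *ᵥ g = y)
    (hG : 2 ≤ Fintype.card G)
    (Hj : ∀ X Y : QI k G F, P X Y → (∀ x, X.2.1 *ᵥ x = 0 → Y.2.1 *ᵥ x = 0 → x = 0) → False)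
    {X Y : QI k G F} (hP : P X Y) {f x0 : Fin 2 → k} (h1 : X.2.1 *ᵥ f = 0) (h2 : Y.2.1 *ᵥ f = 0)
    (h3 : X.2.1 *ᵥ x0 ≠ 0) (h4 : f 0 * (X.1 *ᵥ f) 1 - f 1 * (X.1 *ᵥ f) 0 ≠ 0) : False := by
  set h := X.1 *ᵥ f with hh
  obtain ⟨fs, hs, hb⟩ := exists_bas h4
  have h5 : X.2.1 *ᵥ h ≠ 0 := by
    intro h5
    apply h3
    rw [hb.ex x0, Matrix.mulVec_add, Matrix.mulVec_smul, Matrix.mulVec_smul, h1, h5, smul_zero,
      smul_zero, add_zero]
  set γ := X.2.1 *ᵥ h with hγ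
  obtain ⟨b0, p0, g1, g2, -⟩ := exists_perp hG h5
  obtain ⟨e1, g, hE⟩ := hIs (X.2.2 *ᵥ b0)
  obtain ⟨n, hn⟩ : ∃ n, n = vecMulVec e1 hs := ⟨_, rfl⟩
  obtain ⟨b, hbb⟩ : ∃ b, b = vecMulVec b0 fs + vecMulVec g hs := ⟨_, rfl⟩
  have nf : n *ᵥ f = 0 := by rw [hn, vmvCI, hb.hf, zero_smul]
  have nh : n *ᵥ h = e1 := by rw [hn, vmvCI, hb.hh, one_smul]
  have bf : b *ᵥ f = b0 := by
    rw [hbb, Matrix.add_mulVec, vmvCI, vmvCI, hb.hf, hb.ff, zero_smul, one_smul, add_zero]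
  have bh : b *ᵥ h = g := by
    rw [hbb, Matrix.add_mulVec, vmvCI, vmvCI, hb.hh, hb.fh, zero_smul, one_smul, zero_add]
  obtain ⟨z, hz⟩ : ∃ z, z = I *ᵥ (X.1 *ᵥ e1 - n *ᵥ (X.1 *ᵥ h)) +
    J *ᵥ (X.2.1 *ᵥ e1 - b *ᵥ (X.1 *ᵥ h)) + X.2.2 *ᵥ g := ⟨_, rfl⟩
  obtain ⟨s, hs0, h6⟩ := hS.move 0 (n, b, vecMulVec z p0) hP
    (by
      refine hb.zero ?_ ?_
      · rw [Matrix.add_mulVec, Om_mulVec, Om_mulVec]
        simp only [Prod.fst_zero, Prod.snd_zero, Matrix.zero_mulVec, Matrix.mulVec_zero, sub_zero,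
          zero_sub, vmvCI, h1, h2, nf, bf, ← hh, nh, bh, add_zero, zero_add, dotProduct_zero, zero_smul,
          neg_zero]
        rw [← hE, Matrix.mulVec_neg, Matrix.mulVec_neg]
        abel
      · rw [Matrix.add_mulVec, Om_mulVec, Om_mulVec]
        simp only [Prod.fst_zero, Prod.snd_zero, Matrix.zero_mulVec, Matrix.mulVec_zero, sub_zero,
          zero_sub, vmvCI, nh, bh, add_zero, zero_add, ← hγ, g2, one_smul, hz]
        abel)
    (by
      refine hb.zero ?_ ?_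
      · rw [Om_mulVec]
        simp only [Prod.fst_zero, Prod.snd_zero, Matrix.zero_mulVec, Matrix.mulVec_zero, sub_zero,
          add_zero]
      · rw [Om_mulVec]
        simp only [Prod.fst_zero, Prod.snd_zero, Matrix.zero_mulVec, Matrix.mulVec_zero, sub_zero,
          add_zero])
  refine Hj _ _ h6 ?_
  intro x hx hx'
  have k1 : X.2.1 *ᵥ x = 0 := by
    have : (X.2.1 + s • (0 : Matrix G (Fin 2) k)) *ᵥ x = 0 := hx
    simpa using this
  have k2 : (Y.2.1 + s • b) *ᵥ x = 0 := hx'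
  have k3 : hs ⬝ᵥ x = 0 := by
    rw [hb.ex x, Matrix.mulVec_add, Matrix.mulVec_smul, Matrix.mulVec_smul, h1, smul_zero, zero_add,
      ← hγ] at k1
    exact (smul_eq_zero.1 k1).resolve_right h5
  have k4 : x = (fs ⬝ᵥ x) • f := by
    conv_lhs => rw [hb.ex x, k3, zero_smul, add_zero]
  have k5 : fs ⬝ᵥ x = 0 := by
    rw [k4, Matrix.mulVec_smul, Matrix.add_mulVec, Matrix.smul_mulVec, h2, bf, zero_add, smul_smul] at k2
    rcases smul_eq_zero.1 k2 with h7 | h7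
    · exact (mul_eq_zero.1 h7).resolve_right hs0
    · exact absurd h7 g1
  rw [k4, k5, zero_smul]

theorem Bas.det {f h fs hs : Fin 2 → k} (hb : Bas f h fs hs) : f 0 * h 1 - f 1 * h 0 ≠ 0 := by
  intro hD
  have hf : f ≠ 0 := by
    rintro rfl
    have := hb.ff
    rw [dotProduct_zero] at this
    exact zero_ne_one this
  obtain ⟨c, hc⟩ := prop_of_det hf hD
  have h1 := hb.hh
  rw [hc, dotProduct_smul, hb.hf, smul_zero] at h1
  exact zero_ne_one h1

/-- **step EV**: `al f = al' f = 0`, `al <> 0`, `N f = N' f = 0` -/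
theorem Sys.ev (hS : Sys I J P) (hIs : ∀ y : F → k, ∃ e g, I *ᵥ e + J *ᵥ g = y)
    (hI0 : ∀ e g, I *ᵥ e + J *ᵥ g = 0 → e = 0)
    (hG : 2 ≤ Fintype.card G) (hF : Fintype.card F ≤ 2 * Fintype.card G)
    (Hj : ∀ X Y : QI k G F, P X Y → (∀ x, X.2.1 *ᵥ x = 0 → Y.2.1 *ᵥ x = 0 → x = 0) → False)
    {X Y : QI k G F} (hP : P X Y) {f x0 : Fin 2 → k} (hf : f ≠ 0) (h1 : X.2.1 *ᵥ f = 0)
    (h2 : Y.2.1 *ᵥ f = 0) (h3 : X.2.1 *ᵥ x0 ≠ 0) (n1 : X.1 *ᵥ f = 0) (n2 : Y.1 *ᵥ f = 0) : False := by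
  obtain ⟨h, fs, hs, hb⟩ := exists_bas1 hf
  have h5 : X.2.1 *ᵥ h ≠ 0 := by
    intro h5
    apply h3
    rw [hb.ex x0, Matrix.mulVec_add, Matrix.mulVec_smul, Matrix.mulVec_smul, h1, h5, smul_zero,
      smul_zero, add_zero]
  obtain ⟨γ, hγ⟩ : ∃ γ, γ = X.2.1 *ᵥ h := ⟨_, rfl⟩
  rw [← hγ] at h5
  obtain ⟨i0, hi0⟩ := Function.ne_iff.1 h5
  rw [Pi.zero_apply] at hi0
  obtain ⟨B1, hB1⟩ : ∃ B1, B1 = I *ᵥ (X.1 *ᵥ h) + J *ᵥ (X.2.1 *ᵥ h) := ⟨_, rfl⟩
  obtain ⟨C1, hC1⟩ : ∃ C1, C1 = I *ᵥ (Y.1 *ᵥ h) + J *ᵥ (Y.2.1 *ᵥ h) := ⟨_, rfl⟩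
  -- the linear system
  obtain ⟨r, r', g, g', hne, hst, hg0⟩ : ∃ (r r' : k) (g g' : G → k),
      ¬ (r = 0 ∧ r' = 0 ∧ g = 0 ∧ g' = 0) ∧
      r' • B1 + X.2.2 *ᵥ g' = r • C1 + Y.2.2 *ᵥ g ∧ g i0 = 0 := by
    set Λ : (k × k × (G → k) × (G → k)) →ₗ[k] ((F → k) × k) :=
      { toFun := fun v => ((v.2.1 • B1 + X.2.2 *ᵥ v.2.2.2) - (v.1 • C1 + Y.2.2 *ᵥ v.2.2.1), v.2.2.1 i0)
        map_add' := fun v v' => by
          ext1
          · simp only [Prod.fst_add, Prod.snd_add, Matrix.mulVec_add, add_smul]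
            abel
          · rfl
        map_smul' := fun c v => by
          ext1
          · simp only [Prod.smul_fst, Prod.smul_snd, Matrix.mulVec_smul, RingHom.id_apply, smul_eq_mul,
              mul_smul, smul_sub, smul_add]
          · rfl } with hΛ
    have e1 : LinearMap.ker Λ ≠ ⊥ := by
      refine LinearMap.ker_ne_bot_of_finrank_lt ?_
      simp only [Module.finrank_prod, Module.finrank_fintype_fun_eq_card, Module.finrank_self]
      omega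
    obtain ⟨v, hv, hv0⟩ := (Submodule.ne_bot_iff _).1 e1
    rw [LinearMap.mem_ker] at hv
    refine ⟨v.1, v.2.1, v.2.2.1, v.2.2.2, ?_, sub_eq_zero.1 (congrArg Prod.fst hv), congrArg Prod.snd hv⟩
    rintro ⟨q1, q2, q3, q4⟩
    exact hv0 (Prod.ext q1 (Prod.ext q2 (Prod.ext q3 q4)))
  by_cases hgg : g = 0 ∧ g' = 0
  · -- case B
    obtain ⟨rfl, rfl⟩ := hgg
    rw [Matrix.mulVec_zero, Matrix.mulVec_zero, add_zero, add_zero] at hst
    obtain ⟨z, t, hzt⟩ : ∃ z t : k, r' * t - (-r) * z ≠ 0 := by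
      by_cases hr' : r' = 0
      · refine ⟨1, 0, ?_⟩
        have hr : r ≠ 0 := fun hr => hne ⟨hr, hr', rfl, rfl⟩
        simpa using hr
      · exact ⟨0, 1, by simpa using hr'⟩
    have hP1 := hS.lin0 r' (-r) z t hP hzt
    obtain ⟨X1, hX1⟩ : ∃ X1, X1 = r' • X + (-r) • Y := ⟨_, rfl⟩
    obtain ⟨Y1, hY1⟩ : ∃ Y1, Y1 = z • X + t • Y := ⟨_, rfl⟩
    rw [← hX1, ← hY1] at hP1
    have a1 : X1.1 = r' • X.1 + (-r) • Y.1 := by rw [hX1]; rfl
    have a2 : X1.2.1 = r' • X.2.1 + (-r) • Y.2.1 := by rw [hX1]; rfl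
    have a3 : Y1.1 = z • X.1 + t • Y.1 := by rw [hY1]; rfl
    have a4 : Y1.2.1 = z • X.2.1 + t • Y.2.1 := by rw [hY1]; rfl
    have b0 : I *ᵥ (X1.1 *ᵥ h) + J *ᵥ (X1.2.1 *ᵥ h) = 0 := by
      have e : I *ᵥ (X1.1 *ᵥ h) + J *ᵥ (X1.2.1 *ᵥ h) = r' • B1 - r • C1 := by
        rw [a1, a2, hB1, hC1]
        simp only [Matrix.add_mulVec, Matrix.smul_mulVec, Matrix.mulVec_add, Matrix.mulVec_smul]
        module
      rw [e, hst, sub_self]
    have b1 : X1.1 *ᵥ h = 0 := hI0 _ _ b0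
    have b2 : X1.1 *ᵥ f = 0 := by
      rw [a1, Matrix.add_mulVec, Matrix.smul_mulVec, Matrix.smul_mulVec, n1, n2, smul_zero, smul_zero,
        add_zero]
    have b3 : X1.2.1 *ᵥ f = 0 := by
      rw [a2, Matrix.add_mulVec, Matrix.smul_mulVec, Matrix.smul_mulVec, h1, h2, smul_zero, smul_zero,
        add_zero]
    have b4 : Y1.1 *ᵥ f = 0 := by
      rw [a3, Matrix.add_mulVec, Matrix.smul_mulVec, Matrix.smul_mulVec, n1, n2, smul_zero, smul_zero,
        add_zero]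
    have b5 : Y1.2.1 *ᵥ f = 0 := by
      rw [a4, Matrix.add_mulVec, Matrix.smul_mulVec, Matrix.smul_mulVec, h1, h2, smul_zero, smul_zero,
        add_zero]
    obtain ⟨s, hs0, h6⟩ := hS.move 0 (vecMulVec h fs, 0, 0) hP1
      (by
        refine hb.zero ?_ ?_
        · rw [Matrix.add_mulVec, Om_mulVec, Om_mulVec]
          simp only [Prod.fst_zero, Prod.snd_zero, Matrix.zero_mulVec, Matrix.mulVec_zero, sub_zero,
            vmvCI, hb.ff, one_smul, b2, b3, add_zero, zero_add, dotProduct_zero, zero_smul]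
          exact b0
        · rw [Matrix.add_mulVec, Om_mulVec, Om_mulVec]
          simp only [Prod.fst_zero, Prod.snd_zero, Matrix.zero_mulVec, Matrix.mulVec_zero, sub_zero,
            vmvCI, hb.fh, b1, add_zero, dotProduct_zero, zero_smul])
      (by
        refine hb.zero ?_ ?_
        · rw [Om_mulVec]
          simp only [Prod.fst_zero, Prod.snd_zero, Matrix.zero_mulVec, Matrix.mulVec_zero, sub_zero,
            add_zero]
        · rw [Om_mulVec]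
          simp only [Prod.fst_zero, Prod.snd_zero, Matrix.zero_mulVec, Matrix.mulVec_zero, sub_zero,
            add_zero])
    rw [smul_zero, add_zero] at h6
    obtain ⟨Y2, hY2⟩ : ∃ Y2, Y2 = Y1 + s • ((vecMulVec h fs, 0, 0) : QI k G F) := ⟨_, rfl⟩
    rw [← hY2] at h6
    have c1 : Y2.1 *ᵥ f = s • h := by
      have : Y2.1 = Y1.1 + s • vecMulVec h fs := by rw [hY2]; rfl
      rw [this, Matrix.add_mulVec, Matrix.smul_mulVec, vmvCI, hb.ff, one_smul, b4, zero_add]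
    have c2 : Y2.2.1 = Y1.2.1 := by
      have : Y2.2.1 = Y1.2.1 + s • (0 : Matrix G (Fin 2) k) := by rw [hY2]; rfl
      rw [this, smul_zero, add_zero]
    have hdet : f 0 * (s • h) 1 - f 1 * (s • h) 0 ≠ 0 := by
      have e : f 0 * (s • h) 1 - f 1 * (s • h) 0 = s * (f 0 * h 1 - f 1 * h 0) := by
        simp only [Pi.smul_apply, smul_eq_mul]
        ring
      rw [e]
      exact mul_ne_zero hs0 hb.det
    by_cases hy : Y1.2.1 *ᵥ h = 0
    · -- then `X1.2.1 h <> 0`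
      have hx : X1.2.1 *ᵥ h ≠ 0 := by
        intro hx
        apply h5
        rw [a2, Matrix.add_mulVec, Matrix.smul_mulVec, Matrix.smul_mulVec] at hx
        rw [a4, Matrix.add_mulVec, Matrix.smul_mulVec, Matrix.smul_mulVec] at hy
        have e : (r' * t - (-r) * z) • (X.2.1 *ᵥ h) = 0 := by
          have e1 : (r' * t - (-r) * z) • (X.2.1 *ᵥ h) =
              t • (r' • X.2.1 *ᵥ h + (-r) • Y.2.1 *ᵥ h) + r • (z • X.2.1 *ᵥ h + t • Y.2.1 *ᵥ h) := by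
            module
          rw [e1, hx, hy, smul_zero, smul_zero, add_zero]
        rw [hγ]
        exact (smul_eq_zero.1 e).resolve_left hzt
      have hP3 := hS.lin0 1 1 0 1 h6 (by simp)
      refine hS.ne hIs hG Hj hP3 (f := f) (x0 := h) ?_ ?_ ?_ ?_
      · show ((1 : k) • X1.2.1 + (1 : k) • Y2.2.1) *ᵥ f = 0
        rw [c2, one_smul, one_smul, Matrix.add_mulVec, b3, b5, add_zero]
      · show ((0 : k) • X1.2.1 + (1 : k) • Y2.2.1) *ᵥ f = 0
        rw [c2, one_smul, zero_smul, zero_add, b5]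
      · show ((1 : k) • X1.2.1 + (1 : k) • Y2.2.1) *ᵥ h ≠ 0
        rw [c2, one_smul, one_smul, Matrix.add_mulVec, hy, add_zero]
        exact hx
      · have e : ((1 : k) • X1 + (1 : k) • Y2).1 *ᵥ f = s • h := by
          show ((1 : k) • X1.1 + (1 : k) • Y2.1) *ᵥ f = s • h
          rw [one_smul, one_smul, Matrix.add_mulVec, b2, c1, zero_add]
        rw [e]
        exact hdet
    · refine hS.ne hIs hG Hj (hS.swap h6) (f := f) (x0 := h) ?_ b3 ?_ ?_
      · rw [c2, b5]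
      · rw [c2]
        exact hy
      · rw [c1]
        exact hdet
  · -- case A
    obtain ⟨z0, z1, z2⟩ : ∃ z0 : G → k, z0 ⬝ᵥ γ = 1 ∧ z0 ⬝ᵥ g = 0 := by
      refine ⟨Pi.single i0 (γ i0)⁻¹, ?_, ?_⟩
      · rw [single_dotProduct, inv_mul_cancel₀ hi0]
      · rw [single_dotProduct, hg0, mul_zero]
    obtain ⟨W, hW⟩ : ∃ W, W = (fs ⬝ᵥ (X.1 *ᵥ h)) • (r' • I *ᵥ h + J *ᵥ g') -
      (fs ⬝ᵥ (Y.1 *ᵥ h)) • (r • I *ᵥ h + J *ᵥ g) := ⟨_, rfl⟩
    obtain ⟨s, hs0, h6⟩ := hS.move (vecMulVec (r • h) fs, vecMulVec g fs, 0)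
      (vecMulVec (r' • h) fs, vecMulVec g' fs, -vecMulVec W z0) hP
      (by
        refine hb.zero ?_ ?_
        · rw [Matrix.add_mulVec, Om_mulVec, Om_mulVec]
          simp only [Matrix.zero_mulVec, Matrix.mulVec_zero, sub_zero, zero_sub, vmvCI, h1, h2, n1, n2,
            hb.ff, one_smul, dotProduct_zero, zero_smul, Matrix.mulVec_smul, Matrix.mulVec_neg]
          have e1 := sub_eq_zero.2 hst
          rw [hB1, hC1] at e1
          rw [← e1]
          module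
        · rw [Matrix.add_mulVec, Om_mulVec, Om_mulVec]
          simp only [Matrix.zero_mulVec, Matrix.mulVec_zero, sub_zero, zero_sub, vmvCI, ← hγ,
            hb.fh, one_smul, zero_smul, Matrix.mulVec_smul, Matrix.neg_mulVec, z1, hW,
            Matrix.mulVec_neg]
          module)
      (by
        refine hb.zero ?_ ?_
        · rw [Om_mulVec]
          simp only [Matrix.zero_mulVec, sub_zero, zero_sub, vmvCI, hb.ff, one_smul,
            Matrix.neg_mulVec, z2, dotProduct_smul, hb.fh, smul_zero, zero_smul, sub_self,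
            Matrix.mulVec_zero, neg_zero, add_zero]
        · rw [Om_mulVec]
          simp only [Matrix.zero_mulVec, sub_zero, zero_sub, vmvCI, hb.fh, zero_smul,
            Matrix.mulVec_zero, neg_zero, add_zero])
    refine Hj _ _ h6 ?_
    intro x hx hx'
    have k1 : (X.2.1 + s • vecMulVec g fs) *ᵥ x = 0 := hx
    have k2 : (Y.2.1 + s • vecMulVec g' fs) *ᵥ x = 0 := hx'
    rw [Matrix.add_mulVec, Matrix.smul_mulVec, vmvCI] at k1 k2
    have e1 : X.2.1 *ᵥ x = (hs ⬝ᵥ x) • γ := by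
      conv_lhs => rw [hb.ex x]
      rw [Matrix.mulVec_add, Matrix.mulVec_smul, Matrix.mulVec_smul, h1, smul_zero, zero_add, hγ]
    have e2 : Y.2.1 *ᵥ x = (hs ⬝ᵥ x) • (Y.2.1 *ᵥ h) := by
      conv_lhs => rw [hb.ex x]
      rw [Matrix.mulVec_add, Matrix.mulVec_smul, Matrix.mulVec_smul, h2, smul_zero, zero_add]
    rw [e1] at k1
    rw [e2] at k2
    have k3 : hs ⬝ᵥ x = 0 := by
      have h7 := congrFun k1 i0
      simp only [Pi.add_apply, Pi.smul_apply, smul_eq_mul, hg0, mul_zero, add_zero, Pi.zero_apply] at h7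
      exact (mul_eq_zero.1 h7).resolve_right hi0
    rw [k3, zero_smul, zero_add] at k1 k2
    have k4 : fs ⬝ᵥ x = 0 := by
      by_contra hx0
      apply hgg
      constructor
      · exact (smul_eq_zero.1 ((smul_eq_zero.1 k1).resolve_left hs0)).resolve_left hx0
      · exact (smul_eq_zero.1 ((smul_eq_zero.1 k2).resolve_left hs0)).resolve_left hx0
    rw [hb.ex x, k3, k4, zero_smul, zero_smul, add_zero]

theorem Sys.lin1 (hS : Sys I J P) {X Y : QI k G F} (p q : k) (hP : P X Y) :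
    P (X + p • (1, 0, J)) (Y + q • (1, 0, J)) := by
  have h1 := hS.lin 1 0 0 1 p q hP (by simp)
  rwa [one_smul, one_smul, zero_smul, zero_smul, add_zero, zero_add] at h1

/-- **step K1**: `al f = al' f = 0`, `(al, al') <> 0` -/
theorem Sys.k1 (hS : Sys I J P) (hIs : ∀ y : F → k, ∃ e g, I *ᵥ e + J *ᵥ g = y)
    (hI0 : ∀ e g, I *ᵥ e + J *ᵥ g = 0 → e = 0)
    (hG : 2 ≤ Fintype.card G) (hF : Fintype.card F ≤ 2 * Fintype.card G)
    (Hj : ∀ X Y : QI k G F, P X Y → (∀ x, X.2.1 *ᵥ x = 0 → Y.2.1 *ᵥ x = 0 → x = 0) → False)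
    {X Y : QI k G F} (hP : P X Y) {f : Fin 2 → k} (hf : f ≠ 0) (h1 : X.2.1 *ᵥ f = 0)
    (h2 : Y.2.1 *ᵥ f = 0) (h3 : ¬ ((∀ x, X.2.1 *ᵥ x = 0) ∧ ∀ x, Y.2.1 *ᵥ x = 0)) : False := by
  -- the eigenvector case
  by_cases hN : f 0 * (X.1 *ᵥ f) 1 - f 1 * (X.1 *ᵥ f) 0 = 0 ∧
      f 0 * (Y.1 *ᵥ f) 1 - f 1 * (Y.1 *ᵥ f) 0 = 0
  · obtain ⟨m1, m2⟩ := hN
    obtain ⟨c, hc⟩ := prop_of_det hf m1
    obtain ⟨c', hc'⟩ := prop_of_det hf m2
    have hP1 := hS.lin1 (-c) (-c') hP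
    obtain ⟨X1, hX1⟩ : ∃ X1, X1 = X + (-c) • ((1, 0, J) : QI k G F) := ⟨_, rfl⟩
    obtain ⟨Y1, hY1⟩ : ∃ Y1, Y1 = Y + (-c') • ((1, 0, J) : QI k G F) := ⟨_, rfl⟩
    rw [← hX1, ← hY1] at hP1
    have a1 : X1.2.1 = X.2.1 := by
      have : X1.2.1 = X.2.1 + (-c) • (0 : Matrix G (Fin 2) k) := by rw [hX1]; rfl
      rw [this, smul_zero, add_zero]
    have a2 : Y1.2.1 = Y.2.1 := by
      have : Y1.2.1 = Y.2.1 + (-c') • (0 : Matrix G (Fin 2) k) := by rw [hY1]; rfl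
      rw [this, smul_zero, add_zero]
    have a3 : X1.1 *ᵥ f = 0 := by
      have : X1.1 = X.1 + (-c) • (1 : Matrix (Fin 2) (Fin 2) k) := by rw [hX1]; rfl
      rw [this, Matrix.add_mulVec, Matrix.smul_mulVec, Matrix.one_mulVec, hc]
      module
    have a4 : Y1.1 *ᵥ f = 0 := by
      have : Y1.1 = Y.1 + (-c') • (1 : Matrix (Fin 2) (Fin 2) k) := by rw [hY1]; rfl
      rw [this, Matrix.add_mulVec, Matrix.smul_mulVec, Matrix.one_mulVec, hc']
      module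
    by_cases hx : ∃ x0, X.2.1 *ᵥ x0 ≠ 0
    · obtain ⟨x0, hx0⟩ := hx
      exact hS.ev hIs hI0 hG hF Hj hP1 (x0 := x0) hf (by rw [a1, h1]) (by rw [a2, h2])
        (by rw [a1]; exact hx0) a3 a4
    · push Not at hx
      have hy : ∃ x0, Y.2.1 *ᵥ x0 ≠ 0 := by
        by_contra hc
        push Not at hc
        exact h3 ⟨hx, hc⟩
      obtain ⟨x0, hx0⟩ := hy
      exact hS.ev hIs hI0 hG hF Hj (hS.swap hP1) (x0 := x0) hf (by rw [a2, h2]) (by rw [a1, h1])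
        (by rw [a2]; exact hx0) a4 a3
  · -- some combination is good
    have key : ∀ x y : k, (x ≠ 0 ∨ y ≠ 0) → (∃ x0, (x • X.2.1 + y • Y.2.1) *ᵥ x0 ≠ 0) →
        f 0 * ((x • X.1 + y • Y.1) *ᵥ f) 1 - f 1 * ((x • X.1 + y • Y.1) *ᵥ f) 0 ≠ 0 → False := by
      intro x y hxy hx0 hd
      obtain ⟨x0, hx0⟩ := hx0
      have key2 : ∀ z t : k, x * t - y * z ≠ 0 → False := by
        intro z t hzt
        refine hS.ne hIs hG Hj (hS.lin0 x y z t hP hzt) (f := f) (x0 := x0) ?_ ?_ hx0 hd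
        · show (x • X.2.1 + y • Y.2.1) *ᵥ f = 0
          rw [Matrix.add_mulVec, Matrix.smul_mulVec, Matrix.smul_mulVec, h1, h2, smul_zero, smul_zero,
            add_zero]
        · show (z • X.2.1 + t • Y.2.1) *ᵥ f = 0
          rw [Matrix.add_mulVec, Matrix.smul_mulVec, Matrix.smul_mulVec, h1, h2, smul_zero, smul_zero,
            add_zero]
      rcases hxy with h | h
      · exact key2 0 1 (by simpa using h)
      · exact key2 1 0 (by simpa using h)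
    have q10 := key 1 0 (Or.inl one_ne_zero)
    have q01 := key 0 1 (Or.inr one_ne_zero)
    have q11 := key 1 1 (Or.inl one_ne_zero)
    simp only [one_smul, zero_smul, add_zero, zero_add] at q10 q01 q11
    by_cases hx : ∃ x0, X.2.1 *ᵥ x0 ≠ 0
    · have r1 : f 0 * (X.1 *ᵥ f) 1 - f 1 * (X.1 *ᵥ f) 0 = 0 := by
        by_contra hc
        exact q10 hx hc
      have r2 : f 0 * (Y.1 *ᵥ f) 1 - f 1 * (Y.1 *ᵥ f) 0 ≠ 0 := fun h => hN ⟨r1, h⟩
      have r3 : ∀ x0, Y.2.1 *ᵥ x0 = 0 := by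
        by_contra hc
        push Not at hc
        exact q01 hc r2
      obtain ⟨x0, hx0⟩ := hx
      refine q11 ⟨x0, ?_⟩ ?_
      · rw [Matrix.add_mulVec, r3, add_zero]
        exact hx0
      · rw [Matrix.add_mulVec]
        simp only [Pi.add_apply]
        intro h
        apply r2
        linear_combination h - r1
    · push Not at hx
      have hy : ∃ x0, Y.2.1 *ᵥ x0 ≠ 0 := by
        by_contra hc
        push Not at hc
        exact h3 ⟨hx, hc⟩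
      have r2 : f 0 * (Y.1 *ᵥ f) 1 - f 1 * (Y.1 *ᵥ f) 0 = 0 := by
        by_contra hc
        exact q01 hy hc
      have r1 : f 0 * (X.1 *ᵥ f) 1 - f 1 * (X.1 *ᵥ f) 0 ≠ 0 := fun h => hN ⟨h, r2⟩
      obtain ⟨x0, hx0⟩ := hy
      refine q11 ⟨x0, ?_⟩ ?_
      · rw [Matrix.add_mulVec, hx, zero_add]
        exact hx0
      · rw [Matrix.add_mulVec]
        simp only [Pi.add_apply]
        intro h
        apply r1
        linear_combination h - r2

/-- common eigenvector of two commuting matrices -/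
theorem common_eig [IsAlgClosed k] {N N' : Matrix (Fin 2) (Fin 2) k} (h : N * N' = N' * N) :
    ∃ (f : Fin 2 → k) (c c' : k), f ≠ 0 ∧ N *ᵥ f = c • f ∧ N' *ᵥ f = c' • f := by
  have ex : ∀ Z : Matrix (Fin 2) (Fin 2) k, ∃ (c : k) (f : Fin 2 → k), f ≠ 0 ∧ Z *ᵥ f = c • f := by
    intro Z
    obtain ⟨c, hc⟩ := Module.End.exists_eigenvalue (Matrix.toLin' Z)
    obtain ⟨f, hf⟩ := hc.exists_hasEigenvector
    refine ⟨c, f, hf.2, ?_⟩
    have h1 := hf.apply_eq_smul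
    rwa [Matrix.toLin'_apply] at h1
  obtain ⟨c, f, hf, hc⟩ := ex N
  by_cases h1 : f 0 * (N' *ᵥ f) 1 - f 1 * (N' *ᵥ f) 0 = 0
  · obtain ⟨c', hc'⟩ := prop_of_det hf h1
    exact ⟨f, c, c', hf, hc, hc'⟩
  · -- then `N = c`
    obtain ⟨fs, hs, hb⟩ := exists_bas h1
    have h2 : N *ᵥ (N' *ᵥ f) = c • (N' *ᵥ f) := by
      rw [Matrix.mulVec_mulVec, h, ← Matrix.mulVec_mulVec, hc, Matrix.mulVec_smul]
    have h3 : ∀ x, N *ᵥ x = c • x := by
      intro x
      conv_lhs => rw [hb.ex x]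
      conv_rhs => rw [hb.ex x]
      rw [Matrix.mulVec_add, Matrix.mulVec_smul, Matrix.mulVec_smul, hc, h2]
      module
    obtain ⟨c', g, hg, hc'⟩ := ex N'
    exact ⟨g, c, c', hg, h3 g, hc'⟩

/-- **step K2**: `al = al' = 0` -/
theorem Sys.k2 [IsAlgClosed k] (hS : Sys I J P) (hIs : ∀ y : F → k, ∃ e g, I *ᵥ e + J *ᵥ g = y)
    (hI0 : ∀ e g, I *ᵥ e + J *ᵥ g = 0 → e = 0)
    (hG : 2 ≤ Fintype.card G) (hF : Fintype.card F ≤ 2 * Fintype.card G)
    (Hj : ∀ X Y : QI k G F, P X Y → (∀ x, X.2.1 *ᵥ x = 0 → Y.2.1 *ᵥ x = 0 → x = 0) → False)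
    {X Y : QI k G F} (hP : P X Y) (hx : X.2.1 = 0) (hy : Y.2.1 = 0) : False := by
  have hcomm : X.1 * Y.1 = Y.1 * X.1 := by
    have h1 := hS.rel hP
    rw [Om, hx, hy] at h1
    simp only [Matrix.zero_mul, Matrix.mul_zero, sub_zero, add_zero] at h1
    have h2 : ∀ x, (X.1 * Y.1 - Y.1 * X.1) *ᵥ x = 0 := by
      intro x
      refine hI0 _ 0 ?_
      rw [Matrix.mulVec_zero, add_zero, Matrix.mulVec_mulVec, h1, Matrix.zero_mulVec]
    have h3 : X.1 * Y.1 - Y.1 * X.1 = 0 := by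
      ext i j
      have h4 := congrFun (h2 (Pi.single j 1)) i
      rw [Matrix.mulVec_single_one] at h4
      exact h4
    exact sub_eq_zero.1 h3
  obtain ⟨f, c, c', hf, hc, hc'⟩ := common_eig hcomm
  have hP1 := hS.lin1 (-c) (-c') hP
  obtain ⟨X1, hX1⟩ : ∃ X1, X1 = X + (-c) • ((1, 0, J) : QI k G F) := ⟨_, rfl⟩
  obtain ⟨Y1, hY1⟩ : ∃ Y1, Y1 = Y + (-c') • ((1, 0, J) : QI k G F) := ⟨_, rfl⟩
  rw [← hX1, ← hY1] at hP1
  have a1 : X1.2.1 = 0 := by
    have : X1.2.1 = X.2.1 + (-c) • (0 : Matrix G (Fin 2) k) := by rw [hX1]; rfl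
    rw [this, smul_zero, add_zero, hx]
  have a2 : Y1.2.1 = 0 := by
    have : Y1.2.1 = Y.2.1 + (-c') • (0 : Matrix G (Fin 2) k) := by rw [hY1]; rfl
    rw [this, smul_zero, add_zero, hy]
  have a3 : X1.1 *ᵥ f = 0 := by
    have : X1.1 = X.1 + (-c) • (1 : Matrix (Fin 2) (Fin 2) k) := by rw [hX1]; rfl
    rw [this, Matrix.add_mulVec, Matrix.smul_mulVec, Matrix.one_mulVec, hc]
    module
  have a4 : Y1.1 *ᵥ f = 0 := by
    have : Y1.1 = Y.1 + (-c') • (1 : Matrix (Fin 2) (Fin 2) k) := by rw [hY1]; rfl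
    rw [this, Matrix.add_mulVec, Matrix.smul_mulVec, Matrix.one_mulVec, hc']
    module
  obtain ⟨h, fs, hs, hb⟩ := exists_bas1 hf
  -- second substep: `be <> 0`
  have key : ∀ X Y : QI k G F, P X Y → X.2.1 = 0 → Y.2.1 = 0 → X.1 *ᵥ f = 0 → Y.1 *ᵥ f = 0 →
      hs ⬝ᵥ (X.1 *ᵥ h) ≠ 0 → False := by
    intro X Y hP b1 b2 b3 b4 hbe
    obtain ⟨g, g', n, hne, hst⟩ : ∃ (g g' : G → k) (n : k), ¬ (g = 0 ∧ g' = 0 ∧ n = 0) ∧
        (hs ⬝ᵥ (Y.1 *ᵥ h)) • J *ᵥ g - Y.2.2 *ᵥ g + (X.2.2 *ᵥ g' - (hs ⬝ᵥ (X.1 *ᵥ h)) • J *ᵥ g') -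
          (n * (hs ⬝ᵥ (X.1 *ᵥ h))) • I *ᵥ f = 0 := by
      set Λ : ((G → k) × (G → k) × k) →ₗ[k] (F → k) :=
        { toFun := fun v => (hs ⬝ᵥ (Y.1 *ᵥ h)) • J *ᵥ v.1 - Y.2.2 *ᵥ v.1 +
            (X.2.2 *ᵥ v.2.1 - (hs ⬝ᵥ (X.1 *ᵥ h)) • J *ᵥ v.2.1) -
            (v.2.2 * (hs ⬝ᵥ (X.1 *ᵥ h))) • I *ᵥ f
          map_add' := fun v v' => by
            simp only [Prod.fst_add, Prod.snd_add, Matrix.mulVec_add, add_mul]
            module
          map_smul' := fun c v => by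
            simp only [Prod.smul_fst, Prod.smul_snd, Matrix.mulVec_smul, RingHom.id_apply, smul_eq_mul]
            module } with hΛ
      have e1 : LinearMap.ker Λ ≠ ⊥ := by
        refine LinearMap.ker_ne_bot_of_finrank_lt ?_
        simp only [Module.finrank_prod, Module.finrank_fintype_fun_eq_card, Module.finrank_self]
        omega
      obtain ⟨v, hv, hv0⟩ := (Submodule.ne_bot_iff _).1 e1
      rw [LinearMap.mem_ker] at hv
      refine ⟨v.1, v.2.1, v.2.2, ?_, hv⟩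
      rintro ⟨q1, q2, q3⟩
      exact hv0 (Prod.ext q1 (Prod.ext q2 q3))
    have hgg : ¬ (g = 0 ∧ g' = 0) := by
      rintro ⟨rfl, rfl⟩
      simp only [Matrix.mulVec_zero, smul_zero, sub_zero, zero_add, zero_sub, neg_eq_zero] at hst
      have h7 : I *ᵥ f ≠ 0 := by
        intro h7
        exact hf (hI0 f 0 (by rw [h7, Matrix.mulVec_zero, add_zero]))
      have h8 := (smul_eq_zero.1 hst).resolve_right h7
      exact hne ⟨rfl, rfl, (mul_eq_zero.1 h8).resolve_right hbe⟩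
    obtain ⟨s, hs0, h6⟩ := hS.move (0, vecMulVec g hs, 0) (vecMulVec (n • f) hs, vecMulVec g' hs, 0) hP
      (by
        refine hb.zero ?_ ?_
        · rw [Matrix.add_mulVec, Om_mulVec, Om_mulVec]
          simp only [Matrix.zero_mulVec, Matrix.mulVec_zero, sub_zero, zero_sub, vmvCI, b1, b2, b3, b4,
            hb.hf, dotProduct_zero, zero_smul, neg_zero, add_zero]
        · rw [Matrix.add_mulVec, Om_mulVec, Om_mulVec]
          simp only [Matrix.zero_mulVec, Matrix.mulVec_zero, sub_zero, zero_sub, vmvCI, b1, b2, b3,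
            hb.hh, one_smul, Matrix.mulVec_smul, Matrix.mulVec_neg, smul_zero]
          refine Eq.trans ?_ hst
          module)
      (by
        refine hb.zero ?_ ?_
        · rw [Om_mulVec]
          simp only [Matrix.zero_mulVec, Matrix.mulVec_zero, sub_zero, vmvCI, hb.hf, zero_smul,
            dotProduct_zero, add_zero]
        · rw [Om_mulVec]
          simp only [Matrix.zero_mulVec, Matrix.mulVec_zero, sub_zero, vmvCI, hb.hh, one_smul,
            dotProduct_smul, hb.hf, smul_zero, zero_smul, dotProduct_zero, add_zero])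
    refine hS.k1 hIs hI0 hG hF Hj h6 (f := f) hf ?_ ?_ ?_
    · show (X.2.1 + s • vecMulVec g hs) *ᵥ f = 0
      rw [Matrix.add_mulVec, Matrix.smul_mulVec, vmvCI, hb.hf, zero_smul, smul_zero, add_zero, b1,
        Matrix.zero_mulVec]
    · show (Y.2.1 + s • vecMulVec g' hs) *ᵥ f = 0
      rw [Matrix.add_mulVec, Matrix.smul_mulVec, vmvCI, hb.hf, zero_smul, smul_zero, add_zero, b2,
        Matrix.zero_mulVec]
    · rintro ⟨d1, d2⟩
      apply hgg
      constructor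
      · have h7 : (X.2.1 + s • vecMulVec g hs) *ᵥ h = 0 := d1 h
        rw [Matrix.add_mulVec, Matrix.smul_mulVec, vmvCI, hb.hh, one_smul, b1, Matrix.zero_mulVec,
          zero_add] at h7
        exact (smul_eq_zero.1 h7).resolve_left hs0
      · have h7 : (Y.2.1 + s • vecMulVec g' hs) *ᵥ h = 0 := d2 h
        rw [Matrix.add_mulVec, Matrix.smul_mulVec, vmvCI, hb.hh, one_smul, b2, Matrix.zero_mulVec,
          zero_add] at h7
        exact (smul_eq_zero.1 h7).resolve_left hs0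
  by_cases hb1 : hs ⬝ᵥ (X1.1 *ᵥ h) = 0
  · by_cases hb2 : hs ⬝ᵥ (Y1.1 *ᵥ h) = 0
    · -- first substep
      by_cases ht : fs ⬝ᵥ (X1.1 *ᵥ h) = 0 ∧ fs ⬝ᵥ (Y1.1 *ᵥ h) = 0
      · obtain ⟨t1, t2⟩ := ht
        have m1 : X1.1 *ᵥ h = 0 := by rw [hb.ex (X1.1 *ᵥ h), t1, hb1, zero_smul, zero_smul, add_zero]
        have m2 : Y1.1 *ᵥ h = 0 := by rw [hb.ex (Y1.1 *ᵥ h), t2, hb2, zero_smul, zero_smul, add_zero]
        obtain ⟨s, hs0, h6⟩ := hS.move (vecMulVec h hs, 0, 0) 0 hP1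
          (by
            refine hb.zero ?_ ?_
            · rw [Matrix.add_mulVec, Om_mulVec, Om_mulVec]
              simp only [Prod.fst_zero, Prod.snd_zero, Matrix.zero_mulVec, Matrix.mulVec_zero, sub_zero,
                vmvCI, a1, a2, a3, a4, hb.hf, dotProduct_zero, zero_smul, add_zero]
            · rw [Matrix.add_mulVec, Om_mulVec, Om_mulVec]
              simp only [Prod.fst_zero, Prod.snd_zero, Matrix.zero_mulVec, Matrix.mulVec_zero, sub_zero,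
                vmvCI, a1, a2, m1, m2, hb.hh, one_smul, dotProduct_zero, zero_smul, add_zero])
          (by
            refine hb.zero ?_ ?_
            · rw [Om_mulVec]
              simp only [Prod.fst_zero, Prod.snd_zero, Matrix.zero_mulVec, Matrix.mulVec_zero, sub_zero,
                add_zero]
            · rw [Om_mulVec]
              simp only [Prod.fst_zero, Prod.snd_zero, Matrix.zero_mulVec, Matrix.mulVec_zero, sub_zero,
                add_zero])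
        rw [smul_zero, add_zero] at h6
        refine key _ _ h6 ?_ a2 ?_ a4 ?_
        · show X1.2.1 + s • (0 : Matrix G (Fin 2) k) = 0
          rw [a1, smul_zero, add_zero]
        · show (X1.1 + s • vecMulVec h hs) *ᵥ f = 0
          rw [Matrix.add_mulVec, Matrix.smul_mulVec, vmvCI, hb.hf, zero_smul, smul_zero, add_zero, a3]
        · show hs ⬝ᵥ ((X1.1 + s • vecMulVec h hs) *ᵥ h) ≠ 0
          rw [Matrix.add_mulVec, Matrix.smul_mulVec, vmvCI, hb.hh, one_smul, m1, zero_add, dotProduct_smul,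
            hb.hh, smul_eq_mul, mul_one]
          exact hs0
      · have m1 : X1.1 *ᵥ h = (fs ⬝ᵥ (X1.1 *ᵥ h)) • f := by
          conv_lhs => rw [hb.ex (X1.1 *ᵥ h), hb1, zero_smul, add_zero]
        have m2 : Y1.1 *ᵥ h = (fs ⬝ᵥ (Y1.1 *ᵥ h)) • f := by
          conv_lhs => rw [hb.ex (Y1.1 *ᵥ h), hb2, zero_smul, add_zero]
        obtain ⟨t, ht1⟩ : ∃ t, t = fs ⬝ᵥ (X1.1 *ᵥ h) := ⟨_, rfl⟩
        obtain ⟨t', ht2⟩ : ∃ t', t' = fs ⬝ᵥ (Y1.1 *ᵥ h) := ⟨_, rfl⟩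
        rw [← ht1] at m1 ht
        rw [← ht2] at m2 ht
        obtain ⟨s, hs0, h6⟩ := hS.move (vecMulVec (t • h) hs, 0, 0) (vecMulVec (t' • h) hs, 0, 0) hP1
          (by
            refine hb.zero ?_ ?_
            · rw [Matrix.add_mulVec, Om_mulVec, Om_mulVec]
              simp only [Matrix.zero_mulVec, Matrix.mulVec_zero, sub_zero,
                vmvCI, a1, a2, a3, a4, hb.hf, dotProduct_zero, zero_smul, add_zero]
            · rw [Matrix.add_mulVec, Om_mulVec, Om_mulVec]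
              simp only [Matrix.zero_mulVec, Matrix.mulVec_zero, sub_zero, zero_sub,
                vmvCI, a1, a2, m1, m2, hb.hh, hb.hf, one_smul, dotProduct_zero, zero_smul, add_zero,
                Matrix.mulVec_smul, dotProduct_smul, smul_zero, Matrix.mulVec_neg]
              module)
          (by
            refine hb.zero ?_ ?_
            · rw [Om_mulVec]
              simp only [Matrix.zero_mulVec, Matrix.mulVec_zero, sub_zero, vmvCI, hb.hf, zero_smul,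
                dotProduct_zero, add_zero]
            · rw [Om_mulVec]
              simp only [Matrix.zero_mulVec, Matrix.mulVec_zero, sub_zero, vmvCI, hb.hh, one_smul,
                dotProduct_smul, smul_eq_mul, mul_one, smul_smul, add_zero]
              rw [show ((1 * t' * t) • h - (1 * t * t') • h : Fin 2 → k) = 0 by module,
                Matrix.mulVec_zero])
        have e1 : ∀ Z : QI k G F, Z.2.1 = 0 → ∀ r : k, (Z + s • ((vecMulVec (r • h) hs, 0, 0) : QI k G F)).2.1 = 0 := by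
          intro Z hZ r
          show Z.2.1 + s • (0 : Matrix G (Fin 2) k) = 0
          rw [hZ, smul_zero, add_zero]
        have e2 : ∀ Z : QI k G F, Z.1 *ᵥ f = 0 → ∀ r : k, (Z + s • ((vecMulVec (r • h) hs, 0, 0) : QI k G F)).1 *ᵥ f = 0 := by
          intro Z hZ r
          show (Z.1 + s • vecMulVec (r • h) hs) *ᵥ f = 0
          rw [Matrix.add_mulVec, Matrix.smul_mulVec, vmvCI, hb.hf, zero_smul, smul_zero, add_zero, hZ]
        have e3 : ∀ Z : QI k G F, hs ⬝ᵥ (Z.1 *ᵥ h) = 0 → ∀ r : k, r ≠ 0 →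
            hs ⬝ᵥ ((Z + s • ((vecMulVec (r • h) hs, 0, 0) : QI k G F)).1 *ᵥ h) ≠ 0 := by
          intro Z hZ r hr
          show hs ⬝ᵥ ((Z.1 + s • vecMulVec (r • h) hs) *ᵥ h) ≠ 0
          rw [Matrix.add_mulVec, Matrix.smul_mulVec, vmvCI, hb.hh, one_smul, dotProduct_add, hZ, zero_add,
            dotProduct_smul, dotProduct_smul, hb.hh, smul_eq_mul, smul_eq_mul, mul_one]
          exact mul_ne_zero hs0 hr
        by_cases ht0 : t = 0
        · have ht0' : t' ≠ 0 := fun h => ht ⟨ht0, h⟩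
          exact key _ _ (hS.swap h6) (e1 _ a2 _) (e1 _ a1 _) (e2 _ a4 _) (e2 _ a3 _) (e3 _ hb2 _ ht0')
        · exact key _ _ h6 (e1 _ a1 _) (e1 _ a2 _) (e2 _ a3 _) (e2 _ a4 _) (e3 _ hb1 _ ht0)
    · exact key _ _ (hS.swap hP1) a2 a1 a4 a3 hb2
  · exact key _ _ hP1 a1 a2 a3 a4 hb1

/-- **reduction to `(al, al')` jointly injective** -/
theorem Sys.no_joint [IsAlgClosed k] (hS : Sys I J P)
    (hIs : ∀ y : F → k, ∃ e g, I *ᵥ e + J *ᵥ g = y) (hI0 : ∀ e g, I *ᵥ e + J *ᵥ g = 0 → e = 0)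
    (hG : 2 ≤ Fintype.card G) (hF : Fintype.card F ≤ 2 * Fintype.card G)
    (Hj : ∀ X Y : QI k G F, P X Y → (∀ x, X.2.1 *ᵥ x = 0 → Y.2.1 *ᵥ x = 0 → x = 0) → False)
    {X Y : QI k G F} (hP : P X Y) : False := by
  by_cases hK : ∃ f, f ≠ 0 ∧ X.2.1 *ᵥ f = 0 ∧ Y.2.1 *ᵥ f = 0
  · obtain ⟨f, hf, h1, h2⟩ := hK
    by_cases h3 : (∀ x, X.2.1 *ᵥ x = 0) ∧ ∀ x, Y.2.1 *ᵥ x = 0
    · have e : ∀ Z : Matrix G (Fin 2) k, (∀ x, Z *ᵥ x = 0) → Z = 0 := by
        intro Z hZ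
        ext i j
        have h4 := congrFun (hZ (Pi.single j 1)) i
        rw [Matrix.mulVec_single_one] at h4
        exact h4
      exact hS.k2 hIs hI0 hG hF Hj hP (e _ h3.1) (e _ h3.2)
    · exact hS.k1 hIs hI0 hG hF Hj hP hf h1 h2 h3
  · push Not at hK
    refine Hj X Y hP fun x h1 h2 => ?_
    by_contra hx
    exact hK x hx h1 h2

theorem Om_line (X Y K L : QI k G F) (s : k) : Om I J (X + s • K) (Y + s • L) =
    Om I J X Y + s • (Om I J K Y + Om I J X L) + (s * s) • Om I J K L := by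
  simp only [Om, Prod.fst_add, Prod.snd_add, Prod.smul_fst, Prod.smul_snd, Matrix.add_mul,
    Matrix.mul_add, Matrix.smul_mul, Matrix.mul_smul, Matrix.mul_sub]
  module

end abs

/-! ### the triples of case I -/

section inst

variable {k : Type*} [Field k] {u p : ℕ} {ρ : ℕ → ℕ}

/-- `A` on `E_1` -/
def IE (k : Type*) [Field k] (u : ℕ) : Matrix (Fin 2 ⊕ Fin u) (Fin 2) k := fromRows 1 0

/-- `A` on `U_0 + P` -/
def JG (k : Type*) [Field k] (u p : ℕ) : Matrix (Fin 2 ⊕ Fin u) (Fin u ⊕ Fin p) k :=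
  fromBlocks 0 0 1 0

/-- there is a maximal bad triple with these data -/
def PI (ρ : ℕ → ℕ) (X Y : QI k (Fin u ⊕ Fin p) (Fin 2 ⊕ Fin u)) : Prop :=
  ∃ (M : Matrix (Fin 2) (Fin 2) k) (c : Matrix (Fin u) (Fin 2) k) (M' : Matrix (Fin 2) (Fin 2) k)
    (c' : Matrix (Fin u) (Fin 2) k), MaxR ρ (Tr X.1 M X.2.1.toRows₁ c X.2.1.toRows₂
      X.2.2.toBlocks₁₁ X.2.2.toBlocks₂₁ X.2.2.toBlocks₁₂ X.2.2.toBlocks₂₂ Y.1 M' Y.2.1.toRows₁ c'
      Y.2.1.toRows₂ Y.2.2.toBlocks₁₁ Y.2.2.toBlocks₂₁ Y.2.2.toBlocks₁₂ Y.2.2.toBlocks₂₂)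

theorem Om_inl (X Y : QI k (Fin u ⊕ Fin p) (Fin 2 ⊕ Fin u)) (i : Fin 2) (j : Fin 2) :
    Om (IE k u) (JG k u p) X Y (.inl i) j =
      (X.1 * Y.1 + X.2.2.toBlocks₁₁ * Y.2.1.toRows₁ + X.2.2.toBlocks₁₂ * Y.2.1.toRows₂) i j -
      (Y.1 * X.1 + Y.2.2.toBlocks₁₁ * X.2.1.toRows₁ + Y.2.2.toBlocks₁₂ * X.2.1.toRows₂) i j := by
  simp only [Om, IE, JG, Matrix.add_apply, Matrix.sub_apply, Matrix.mul_apply, Fintype.sum_sum_type,
    fromRows_apply_inl, fromBlocks_apply₁₁, fromBlocks_apply₁₂, Matrix.zero_apply, zero_mul,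
    Finset.sum_const_zero, add_zero, Matrix.one_apply, toBlocks₁₁, toBlocks₁₂, toRows₁, toRows₂,
    Matrix.of_apply]
  simp
  ring

theorem Om_inr (X Y : QI k (Fin u ⊕ Fin p) (Fin 2 ⊕ Fin u)) (i : Fin u) (j : Fin 2) :
    Om (IE k u) (JG k u p) X Y (.inr i) j =
      (X.2.1.toRows₁ * Y.1 + X.2.2.toBlocks₂₁ * Y.2.1.toRows₁ + X.2.2.toBlocks₂₂ * Y.2.1.toRows₂) i j -
      (Y.2.1.toRows₁ * X.1 + Y.2.2.toBlocks₂₁ * X.2.1.toRows₁ +
        Y.2.2.toBlocks₂₂ * X.2.1.toRows₂) i j := by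
  simp only [Om, IE, JG, Matrix.add_apply, Matrix.sub_apply, Matrix.mul_apply, Fintype.sum_sum_type,
    fromRows_apply_inr, fromBlocks_apply₂₁, fromBlocks_apply₂₂, Matrix.zero_apply, zero_mul,
    Finset.sum_const_zero, add_zero, Matrix.one_apply, toBlocks₂₁, toBlocks₂₂, toRows₁, toRows₂,
    Matrix.of_apply]
  simp
  ring

theorem Om_eq_zero (X Y : QI k (Fin u ⊕ Fin p) (Fin 2 ⊕ Fin u)) :
    Om (IE k u) (JG k u p) X Y = 0 ↔
      X.1 * Y.1 + X.2.2.toBlocks₁₁ * Y.2.1.toRows₁ + X.2.2.toBlocks₁₂ * Y.2.1.toRows₂ =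
        Y.1 * X.1 + Y.2.2.toBlocks₁₁ * X.2.1.toRows₁ + Y.2.2.toBlocks₁₂ * X.2.1.toRows₂ ∧
      X.2.1.toRows₁ * Y.1 + X.2.2.toBlocks₂₁ * Y.2.1.toRows₁ + X.2.2.toBlocks₂₂ * Y.2.1.toRows₂ =
        Y.2.1.toRows₁ * X.1 + Y.2.2.toBlocks₂₁ * X.2.1.toRows₁ +
          Y.2.2.toBlocks₂₂ * X.2.1.toRows₂ := by
  constructor
  · intro h
    constructor
    · ext i j
      have h1 := congrFun (congrFun h (.inl i)) j
      rw [Om_inl] at h1
      exact sub_eq_zero.1 h1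
    · ext i j
      have h1 := congrFun (congrFun h (.inr i)) j
      rw [Om_inr] at h1
      exact sub_eq_zero.1 h1
  · rintro ⟨h1, h2⟩
    ext i j
    rcases i with i | i
    · rw [Om_inl, h1, sub_self, Matrix.zero_apply]
    · rw [Om_inr, h2, sub_self, Matrix.zero_apply]

theorem sysI [Infinite k] : Sys (IE k u) (JG k u p) (PI (k := k) (u := u) (p := p) ρ) where
  rel := by
    rintro X Y ⟨M, c, M', c', hT⟩
    exact (Om_eq_zero X Y).2 (Tr.rel hT)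
  move := by
    rintro X Y K L ⟨M, c, M', c', hT⟩ h1 h2
    obtain ⟨s, hs, h4⟩ := D8.MaxR.line2 hT
      (BX K.1 0 K.2.1.toRows₁ 0 K.2.1.toRows₂ 0 K.2.2.toBlocks₁₁ K.2.2.toBlocks₂₁ 0
        K.2.2.toBlocks₁₂ K.2.2.toBlocks₂₂)
      (BX L.1 0 L.2.1.toRows₁ 0 L.2.1.toRows₂ 0 L.2.2.toBlocks₁₁ L.2.2.toBlocks₂₁ 0
        L.2.2.toBlocks₁₂ L.2.2.toBlocks₂₂) (fun s => by
        rw [BX_smul, BX_add, BX_smul, BX_add]
        simp only [smul_zero, add_zero]
        have h3 : Om (IE k u) (JG k u p) (X + s • K) (Y + s • L) = 0 := by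
          rw [Om_line, h1, h2, (Om_eq_zero X Y).2 (Tr.rel hT), smul_zero, smul_zero, add_zero,
            add_zero]
        have h4 := (Om_eq_zero (X + s • K) (Y + s • L)).1 h3
        exact Tr.cn h4.1 h4.2) (Set.finite_singleton (0 : k))
    rw [BX_smul, BX_add, BX_smul, BX_add] at h4
    simp only [smul_zero, add_zero] at h4
    exact ⟨s, hs, M, c, M', c', h4⟩
  lin := by
    rintro X Y x y z t p' q ⟨M, c, M', c', hT⟩ h
    refine ⟨x • M + y • M', x • c + y • c', z • M + t • M', z • c + t • c', ?_⟩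
    have h1 := Tr.lin hT x y z t p' q h
    have e1 : ∀ (x y p' : k), (x • X + y • Y + p' • ((1, 0, JG k u p) :
        QI k (Fin u ⊕ Fin p) (Fin 2 ⊕ Fin u))).2.1.toRows₁ =
        x • X.2.1.toRows₁ + y • Y.2.1.toRows₁ := by
      intro x y p'
      ext i j
      show x • X.2.1 (.inl i) j + y • Y.2.1 (.inl i) j + p' • (0 : k) = _
      rw [smul_zero, add_zero]
      rfl
    have e2 : ∀ (x y p' : k), (x • X + y • Y + p' • ((1, 0, JG k u p) :
        QI k (Fin u ⊕ Fin p) (Fin 2 ⊕ Fin u))).2.1.toRows₂ =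
        x • X.2.1.toRows₂ + y • Y.2.1.toRows₂ := by
      intro x y p'
      ext i j
      show x • X.2.1 (.inr i) j + y • Y.2.1 (.inr i) j + p' • (0 : k) = _
      rw [smul_zero, add_zero]
      rfl
    have e3 : ∀ (x y p' : k), (x • X + y • Y + p' • ((1, 0, JG k u p) :
        QI k (Fin u ⊕ Fin p) (Fin 2 ⊕ Fin u))).2.2.toBlocks₁₁ =
        x • X.2.2.toBlocks₁₁ + y • Y.2.2.toBlocks₁₁ := by
      intro x y p'
      ext i j
      show x • X.2.2 (.inl i) (.inl j) + y • Y.2.2 (.inl i) (.inl j) + p' • (0 : k) = _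
      rw [smul_zero, add_zero]
      rfl
    have e4 : ∀ (x y p' : k), (x • X + y • Y + p' • ((1, 0, JG k u p) :
        QI k (Fin u ⊕ Fin p) (Fin 2 ⊕ Fin u))).2.2.toBlocks₁₂ =
        x • X.2.2.toBlocks₁₂ + y • Y.2.2.toBlocks₁₂ := by
      intro x y p'
      ext i j
      show x • X.2.2 (.inl i) (.inr j) + y • Y.2.2 (.inl i) (.inr j) + p' • (0 : k) = _
      rw [smul_zero, add_zero]
      rfl
    have e5 : ∀ (x y p' : k), (x • X + y • Y + p' • ((1, 0, JG k u p) :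
        QI k (Fin u ⊕ Fin p) (Fin 2 ⊕ Fin u))).2.2.toBlocks₂₂ =
        x • X.2.2.toBlocks₂₂ + y • Y.2.2.toBlocks₂₂ := by
      intro x y p'
      ext i j
      show x • X.2.2 (.inr i) (.inr j) + y • Y.2.2 (.inr i) (.inr j) + p' • (0 : k) = _
      rw [smul_zero, add_zero]
      rfl
    rw [e1, e2, e3, e4, e5, e1, e2, e3, e4, e5]
    exact h1

theorem hIs (y : Fin 2 ⊕ Fin u → k) : ∃ e g, IE k u *ᵥ e + JG k u p *ᵥ g = y := by
  refine ⟨y ∘ Sum.inl, Sum.elim (y ∘ Sum.inr) 0, ?_⟩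
  funext x
  rcases x with x | x
  · simp [IE, JG, fromRows_mulVec, fromBlocks_mulVec]
  · simp [IE, JG, fromRows_mulVec, fromBlocks_mulVec]

theorem hI0 (e : Fin 2 → k) (g : Fin u ⊕ Fin p → k) (h : IE k u *ᵥ e + JG k u p *ᵥ g = 0) :
    e = 0 := by
  funext x
  have h1 := congrFun h (.inl x)
  simpa [IE, JG, fromRows_mulVec, fromBlocks_mulVec] using h1

variable {N M N' M' : Matrix (Fin 2) (Fin 2) k}
  {a c a' c' : Matrix (Fin u) (Fin 2) k} {w w' : Matrix (Fin p) (Fin 2) k}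
  {d d' : Matrix (Fin 2) (Fin u) k} {nu nu' : Matrix (Fin u) (Fin u) k}
  {th th' : Matrix (Fin 2) (Fin p) k} {et et' : Matrix (Fin u) (Fin p) k}

/-- there is no maximal bad triple of case I with `(a; w; a'; w')` injective -/
def NoJoint (k : Type*) [Field k] (ρ : ℕ → ℕ) (u p : ℕ) : Prop :=
  ∀ (N M : Matrix (Fin 2) (Fin 2) k) (a c : Matrix (Fin u) (Fin 2) k)
    (w : Matrix (Fin p) (Fin 2) k) (d : Matrix (Fin 2) (Fin u) k) (nu : Matrix (Fin u) (Fin u) k)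
    (th : Matrix (Fin 2) (Fin p) k) (et : Matrix (Fin u) (Fin p) k)
    (N' M' : Matrix (Fin 2) (Fin 2) k) (a' c' : Matrix (Fin u) (Fin 2) k)
    (w' : Matrix (Fin p) (Fin 2) k) (d' : Matrix (Fin 2) (Fin u) k)
    (nu' : Matrix (Fin u) (Fin u) k) (th' : Matrix (Fin 2) (Fin p) k)
    (et' : Matrix (Fin u) (Fin p) k),
    MaxR ρ (Tr N M a c w d nu th et N' M' a' c' w' d' nu' th' et') →
      (∀ x, a *ᵥ x = 0 → w *ᵥ x = 0 → a' *ᵥ x = 0 → w' *ᵥ x = 0 → x = 0) → False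

/-- there is no maximal bad triple of case I with `(a; w)` injective -/
def NoInjA (k : Type*) [Field k] (ρ : ℕ → ℕ) (u p : ℕ) : Prop :=
  ∀ (N M : Matrix (Fin 2) (Fin 2) k) (a c : Matrix (Fin u) (Fin 2) k)
    (w : Matrix (Fin p) (Fin 2) k) (d : Matrix (Fin 2) (Fin u) k) (nu : Matrix (Fin u) (Fin u) k)
    (th : Matrix (Fin 2) (Fin p) k) (et : Matrix (Fin u) (Fin p) k)
    (N' M' : Matrix (Fin 2) (Fin 2) k) (a' c' : Matrix (Fin u) (Fin 2) k)
    (w' : Matrix (Fin p) (Fin 2) k) (d' : Matrix (Fin 2) (Fin u) k)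
    (nu' : Matrix (Fin u) (Fin u) k) (th' : Matrix (Fin 2) (Fin p) k)
    (et' : Matrix (Fin u) (Fin p) k),
    MaxR ρ (Tr N M a c w d nu th et N' M' a' c' w' d' nu' th' et') →
      (∀ x, a *ᵥ x = 0 → w *ᵥ x = 0 → x = 0) → False

theorem toRows_mulVec {al : Matrix (Fin u ⊕ Fin p) (Fin 2) k} {x : Fin 2 → k} :
    al *ᵥ x = 0 ↔ al.toRows₁ *ᵥ x = 0 ∧ al.toRows₂ *ᵥ x = 0 := by
  constructor
  · intro h
    constructor
    · funext i
      exact congrFun h (.inl i)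
    · funext i
      exact congrFun h (.inr i)
  · rintro ⟨h1, h2⟩
    funext i
    rcases i with i | i
    · exact congrFun h1 i
    · exact congrFun h2 i

/-- **case I**: reduction to `ker (a; w)` and `ker (a'; w')` with intersection zero -/
theorem caseI2_joint [IsAlgClosed k] (h1 : 2 ≤ u + p) (h2 : 2 ≤ u + 2 * p)
    (Hj : NoJoint k ρ u p)
    (hT : MaxR ρ (Tr N M a c w d nu th et N' M' a' c' w' d' nu' th' et')) : False := by
  have : Infinite k := IsAlgClosed.instInfinite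
  refine (sysI (k := k) (u := u) (p := p) (ρ := ρ)).no_joint hIs hI0 (by simpa using h1)
    (by simp only [Fintype.card_sum, Fintype.card_fin]; omega) ?_
    (X := (N, fromRows a w, fromBlocks d th nu et)) (Y := (N', fromRows a' w', fromBlocks d' th' nu' et'))
    ⟨M, c, M', c', ?_⟩
  · rintro X Y ⟨M, c, M', c', hT⟩ hx
    refine Hj _ _ _ _ _ _ _ _ _ _ _ _ _ _ _ _ _ _ hT fun x e1 e2 e3 e4 => ?_
    exact hx x (toRows_mulVec.2 ⟨e1, e2⟩) (toRows_mulVec.2 ⟨e3, e4⟩)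
  · exact hT

/-- **case I**: reduction to `(a; w)` injective -/
theorem caseI2_inj [IsAlgClosed k] (h1 : 2 ≤ u + p) (h2 : 2 ≤ u + 2 * p)
    (Hinj : NoInjA k ρ u p)
    (hT : MaxR ρ (Tr N M a c w d nu th et N' M' a' c' w' d' nu' th' et')) : False := by
  have : Infinite k := IsAlgClosed.instInfinite
  refine (sysI (k := k) (u := u) (p := p) (ρ := ρ)).no_joint hIs hI0 (by simpa using h1)
    (by simp only [Fintype.card_sum, Fintype.card_fin]; omega) ?_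
    (X := (N, fromRows a w, fromBlocks d th nu et)) (Y := (N', fromRows a' w', fromBlocks d' th' nu' et'))
    ⟨M, c, M', c', hT⟩
  intro X Y hP hK
  refine sysI.joint (by simpa using h1) ?_ hP hK
  rintro X Y ⟨M, c, M', c', hT⟩ hx
  refine Hinj _ _ _ _ _ _ _ _ _ _ _ _ _ _ _ _ _ _ hT fun x e1 e2 => ?_
  exact hx x (toRows_mulVec.2 ⟨e1, e2⟩)

end inst

end Pool.Agent.Lib.D13
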