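import Pool.Agent.Lib.D13.Fdc

/-!
# MP_5dcbc3_ag: the weighted cell criterion

`w : ι → ℕ` is a level function, `δ i` the weight of the `i`-th matrix. A base point is a curvilinear
triple `X` whose entries `(x, y)` vanish for `w x - w y > δ i`. If the linear condition `CertC` holds
in all relative degrees `κ ≥ 1`, then every commuting triple `T` whose entries `(x, y)` vanish for
`w x - w y < δ i` and agree with those of `X` for `w x - w y = δ i` is a limit of curvilinear triples.
-/

namespace Pool.Agent.Lib.D13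

open Matrix Pool.Agent.Lib.Q5dc Pool.Agent.Lib.D7

variable {k : Type*} [Field k] {ι : Type*} [Fintype ι] [DecidableEq ι]

/-- the linear condition in relative degrees `≥ κ` -/
def CertC (w : ι → ℕ) (δ : Fin 3 → ℕ) (N0 : Matrix ι ι k) (X : Fin 3 → Matrix ι ι k) (κ : ℕ) :
    Prop :=
  ∀ e : Fin 3 → Matrix ι ι k, (∀ i x y, w x < w y + δ i + κ → e i x y = 0) →
    (∀ i j x z, w z + δ i + δ j + κ ≤ w x →
      (X i * e j + e i * X j - X j * e i - e j * X i) x z = 0) →
    ∃ (N : Matrix ι ι k) (a : Fin 3 → Matrix ι ι k),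
      (∀ i, ∃ p : Polynomial k, p.coeff 0 = 0 ∧ a i = Polynomial.aeval N0 p) ∧
      ∀ i x y, w y + δ i + κ ≤ w x → (X i * N - N * X i + a i) x y = e i x y

namespace Cell

open Fdc

/-- the scaled target -/
noncomputable def TT (w : ι → ℕ) (δ : Fin 3 → ℕ) (T : Fin 3 → Matrix ι ι k) (i : Fin 3) :
    Matrix ι ι (Polynomial k) :=
  Matrix.of fun x y => (Polynomial.X : Polynomial k) ^ (w x - (w y + δ i)) * Polynomial.C (T i x y)

/-- the error -/
noncomputable def Dd (w : ι → ℕ) (δ : Fin 3 → ℕ) (T : Fin 3 → Matrix ι ι k)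
    (g : Matrix ι ι (Polynomial k)) (b : Fin 3 → Matrix ι ι (Polynomial k)) (i : Fin 3) (x y : ι) :
    Polynomial k :=
  Fa g (b i) x y - g.det * TT w δ T i x y

/-- approximate solutions -/
structure Apx (w : ι → ℕ) (δ : Fin 3 → ℕ) (N0 : Matrix ι ι k) (X T : Fin 3 → Matrix ι ι k) (κ : ℕ)
    (g : Matrix ι ι (Polynomial k)) (b : Fin 3 → Matrix ι ι (Polynomial k)) : Prop where
  g0 : (Polynomial.evalRingHom 0).mapMatrix g = 1
  bR : ∀ i, b i ∈ Rg N0
  b0 : ∀ i, (Polynomial.evalRingHom 0).mapMatrix (b i) = X i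
  hi : ∀ i x y, w y + δ i ≤ w x → (Polynomial.X : Polynomial k) ^
    (min (w x - (w y + δ i)) κ + 1) ∣ Dd w δ T g b i x y

/-- assumptions on the target -/
structure Tgt (w : ι → ℕ) (δ : Fin 3 → ℕ) (X T : Fin 3 → Matrix ι ι k) : Prop where
  deg : ∀ i x y, w y + δ i < w x → X i x y = 0
  comm : ∀ i j, T i * T j = T j * T i
  low : ∀ i x y, w x < w y + δ i → T i x y = 0
  lead : ∀ i x y, w x = w y + δ i → T i x y = X i x y

variable {w : ι → ℕ} {δ : Fin 3 → ℕ} {N0 : Matrix ι ι k} {X T : Fin 3 → Matrix ι ι k} {κ : ℕ}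
  {g : Matrix ι ι (Polynomial k)} {b : Fin 3 → Matrix ι ι (Polynomial k)}

theorem TT_low (hT : Tgt w δ X T) {i : Fin 3} {x y : ι} (h : w x < w y + δ i) :
    TT w δ T i x y = 0 := by
  rw [TT, Matrix.of_apply, hT.low i x y h, map_zero, mul_zero]

theorem TT_dvd (T : Fin 3 → Matrix ι ι k) (i : Fin 3) (x y : ι) :
    (Polynomial.X : Polynomial k) ^ (w x - (w y + δ i)) ∣ TT w δ T i x y := by
  rw [TT, Matrix.of_apply]
  exact dvd_mul_right _ _

/-- the coefficient of the error -/
noncomputable def er (w : ι → ℕ) (δ : Fin 3 → ℕ) (T : Fin 3 → Matrix ι ι k) (κ : ℕ)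
    (g : Matrix ι ι (Polynomial k)) (b : Fin 3 → Matrix ι ι (Polynomial k)) (i : Fin 3) :
    Matrix ι ι k :=
  Matrix.of fun x y => if w y + δ i + κ ≤ w x then (Dd w δ T g b i x y).coeff κ else 0

theorem det0 (g0 : (Polynomial.evalRingHom 0).mapMatrix g = 1) : g.det.eval 0 = 1 := by
  have h1 : Polynomial.evalRingHom 0 g.det = 1 := by
    rw [RingHom.map_det, g0, Matrix.det_one]
  exact h1

theorem pr_mul_zero {n : ℕ} {f f' : Polynomial k} {a a' : ℕ}
    (h : (Polynomial.X : Polynomial k) ^ a ∣ f) (h' : (Polynomial.X : Polynomial k) ^ a' ∣ f')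
    (ha : n + 1 ≤ a + a') : pr k n f * pr k n f' = 0 := by
  rw [← map_mul, pr_zero]
  refine (pow_dvd_pow _ ha).trans ?_
  rw [pow_add]
  exact mul_dvd_mul h h'

theorem eval_of_dvd {f : Polynomial k} {a : ℕ} (ha : 1 ≤ a)
    (h : (Polynomial.X : Polynomial k) ^ a ∣ f) : f.eval 0 = 0 := by
  have h1 : (Polynomial.X : Polynomial k) ∣ f := (dvd_pow_self _ (by omega)).trans h
  rw [Polynomial.X_dvd_iff, Polynomial.coeff_zero_eq_eval_zero] at h1
  exact h1

theorem er_term (hκ : 1 ≤ κ) (hT : Tgt w δ X T) (h : Apx w δ N0 X T (κ - 1) g b) (i j : Fin 3)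
    (x y z : ι) (hxz : w z + δ i + δ j + κ ≤ w x) :
    pr k κ (Fa g (b i) x y) * pr k κ (Fa g (b j) y z) =
      pr k κ g.det * pr k κ g.det * (pr k κ (TT w δ T i x y) * pr k κ (TT w δ T j y z)) +
      pr k κ (Polynomial.X ^ κ) * (pr k κ (Polynomial.C (er w δ T κ g b i x y)) *
        pr k κ (Polynomial.C (X j y z)) + pr k κ (Polynomial.C (X i x y)) *
        pr k κ (Polynomial.C (er w δ T κ g b j y z))) := by
  set ε := pr k κ (Polynomial.X ^ κ) with hε
  have hε2 : ε * ε = 0 := pr_eps_sq hκ
  set u := Dd w δ T g b i x y with hu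
  set v := Dd w δ T g b j y z with hv
  set t1 := g.det * TT w δ T i x y with ht1
  set t2 := g.det * TT w δ T j y z with ht2
  have e1 : Fa g (b i) x y = t1 + u := by rw [hu, Dd, ht1]; ring
  have e2 : Fa g (b j) y z = t2 + v := by rw [hv, Dd, ht2]; ring
  set ei := er w δ T κ g b i x y with hei
  set ej := er w δ T κ g b j y z with hej
  -- large degree
  have hU : w y + δ i + κ ≤ w x → pr k κ u = ε * pr k κ (Polynomial.C ei) ∧ u.eval 0 = 0 := by
    intro hr
    have h1 := h.hi i x y (by omega)
    have h2 : min (w x - (w y + δ i)) (κ - 1) + 1 = κ := by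
      rw [min_eq_right (by omega)]
      omega
    rw [h2] at h1
    refine ⟨?_, eval_of_dvd hκ h1⟩
    rw [pr_of_dvd h1, hei, er, Matrix.of_apply, if_pos hr]
  have hV : w z + δ j + κ ≤ w y → pr k κ v = ε * pr k κ (Polynomial.C ej) ∧ v.eval 0 = 0 := by
    intro hr
    have h1 := h.hi j y z (by omega)
    have h2 : min (w y - (w z + δ j)) (κ - 1) + 1 = κ := by
      rw [min_eq_right (by omega)]
      omega
    rw [h2] at h1
    refine ⟨?_, eval_of_dvd hκ h1⟩
    rw [pr_of_dvd h1, hej, er, Matrix.of_apply, if_pos hr]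
  have hei0 : ¬ (w y + δ i + κ ≤ w x) → ei = 0 := by
    intro hr
    rw [hei, er, Matrix.of_apply, if_neg hr]
  have hej0 : ¬ (w z + δ j + κ ≤ w y) → ej = 0 := by
    intro hr
    rw [hej, er, Matrix.of_apply, if_neg hr]
  have ht1d : (Polynomial.X : Polynomial k) ^ (w x - (w y + δ i)) ∣ t1 :=
    (TT_dvd T i x y).mul_left _
  have ht2d : (Polynomial.X : Polynomial k) ^ (w y - (w z + δ j)) ∣ t2 :=
    (TT_dvd T j y z).mul_left _
  have ht10 : w x < w y + δ i → t1 = 0 := by
    intro hr
    rw [ht1, TT_low hT hr, mul_zero]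
  have ht20 : w y < w z + δ j → t2 = 0 := by
    intro hr
    rw [ht2, TT_low hT hr, mul_zero]
  have T1 : pr k κ t1 * pr k κ v = ε * (pr k κ (Polynomial.C (t1.eval 0)) * pr k κ (Polynomial.C ej)) := by
    by_cases c1 : w x < w y + δ i
    · rw [ht10 c1]
      simp
    · by_cases c2 : w z + δ j + κ ≤ w y
      · rw [(hV c2).1]
        have := pr_eps_eval (n := κ) t1
        rw [← hε] at this
        linear_combination pr k κ (Polynomial.C ej) * this
      · rw [hej0 c2, map_zero, map_zero, mul_zero, mul_zero]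
        by_cases c3 : w z + δ j ≤ w y
        · refine pr_mul_zero ht1d (h.hi j y z c3) ?_
          omega
        · rw [pr_zero.2 ((pow_dvd_pow _ (by omega)).trans ht1d), zero_mul]
  have T2 : pr k κ u * pr k κ t2 = ε * (pr k κ (Polynomial.C ei) * pr k κ (Polynomial.C (t2.eval 0))) := by
    by_cases c1 : w y < w z + δ j
    · rw [ht20 c1]
      simp
    · by_cases c2 : w y + δ i + κ ≤ w x
      · rw [(hU c2).1]
        have := pr_eps_eval (n := κ) t2
        rw [← hε] at this
        linear_combination pr k κ (Polynomial.C ei) * this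
      · rw [hei0 c2, map_zero, map_zero, zero_mul, mul_zero]
        by_cases c3 : w y + δ i ≤ w x
        · refine pr_mul_zero (h.hi i x y c3) ht2d ?_
          omega
        · rw [pr_zero.2 ((pow_dvd_pow _ (by omega)).trans ht2d), mul_zero]
  have T3 : pr k κ u * pr k κ v = ε * (pr k κ (Polynomial.C ei) * pr k κ (Polynomial.C (v.eval 0)) +
      pr k κ (Polynomial.C (u.eval 0)) * pr k κ (Polynomial.C ej)) := by
    by_cases c1 : w y + δ i + κ ≤ w x
    · by_cases c2 : w z + δ j + κ ≤ w y
      · rw [(hU c1).1, (hV c2).1, (hU c1).2, (hV c2).2, map_zero, map_zero]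
        linear_combination pr k κ (Polynomial.C ei) * pr k κ (Polynomial.C ej) * hε2
      · rw [(hU c1).1, hej0 c2, map_zero, map_zero, mul_zero, add_zero]
        have := pr_eps_eval (n := κ) v
        rw [← hε] at this
        linear_combination pr k κ (Polynomial.C ei) * this
    · rw [hei0 c1, map_zero, map_zero, zero_mul, zero_add]
      by_cases c2 : w z + δ j + κ ≤ w y
      · rw [(hV c2).1]
        have := pr_eps_eval (n := κ) u
        rw [← hε] at this
        linear_combination pr k κ (Polynomial.C ej) * this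
      · rw [hej0 c2, map_zero, map_zero, mul_zero, mul_zero]
        refine pr_mul_zero (h.hi i x y (by omega)) (h.hi j y z (by omega)) ?_
        omega
  have hXi : X i x y = t1.eval 0 + u.eval 0 := by
    rw [← Fa_zero h.g0 (h.b0 i) x y, e1, Polynomial.eval_add]
  have hXj : X j y z = t2.eval 0 + v.eval 0 := by
    rw [← Fa_zero h.g0 (h.b0 j) y z, e2, Polynomial.eval_add]
  rw [e1, e2, hXi, hXj]
  have e3 : pr k κ g.det * pr k κ g.det * (pr k κ (TT w δ T i x y) * pr k κ (TT w δ T j y z)) =
      pr k κ t1 * pr k κ t2 := by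
    rw [ht1, ht2, map_mul, map_mul]
    ring
  rw [e3]
  simp only [map_add]
  linear_combination T1 + T2 + T3

/-- the error satisfies the linearised equations -/
theorem er_comm (hκ : 1 ≤ κ) (hT : Tgt w δ X T) (h : Apx w δ N0 X T (κ - 1) g b) (i j : Fin 3)
    (x z : ι) (hxz : w z + δ i + δ j + κ ≤ w x) :
    (X i * er w δ T κ g b j + er w δ T κ g b i * X j - X j * er w δ T κ g b i -
      er w δ T κ g b j * X i) x z = 0 := by
  set E := er w δ T κ g b with hE
  have key : ∀ i j, w z + δ i + δ j + κ ≤ w x → pr k κ ((Fa g (b i) * Fa g (b j)) x z) =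
      pr k κ g.det * pr k κ g.det * pr k κ ((TT w δ T i * TT w δ T j) x z) +
      pr k κ (Polynomial.X ^ κ) * pr k κ (Polynomial.C ((E i * X j + X i * E j) x z)) := by
    intro i j hij
    rw [Matrix.mul_apply, Matrix.mul_apply, Matrix.add_apply, Matrix.mul_apply, Matrix.mul_apply,
      map_sum, map_sum, map_add, map_add, map_sum, map_sum, map_sum, map_sum, ← Finset.sum_add_distrib,
      Finset.mul_sum, Finset.mul_sum, ← Finset.sum_add_distrib]
    refine Finset.sum_congr rfl fun y _ => ?_
    rw [map_mul, er_term hκ hT h i j x y z hij]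
    simp only [map_mul, hE]
  have hTT : ∀ i j, (TT w δ T i * TT w δ T j) x z =
      Polynomial.X ^ (w x - (w z + (δ i + δ j))) * Polynomial.C ((T i * T j) x z) := by
    intro i j
    rw [Matrix.mul_apply, Matrix.mul_apply, map_sum, Finset.mul_sum]
    refine Finset.sum_congr rfl fun y _ => ?_
    by_cases c1 : w x < w y + δ i
    · rw [TT_low hT c1, hT.low i x y c1]
      simp
    · by_cases c2 : w y < w z + δ j
      · rw [TT_low hT c2, hT.low j y z c2]
        simp
      · rw [TT, TT, Matrix.of_apply, Matrix.of_apply, map_mul]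
        have e1 : w x - (w z + (δ i + δ j)) = (w x - (w y + δ i)) + (w y - (w z + δ j)) := by omega
        rw [e1, pow_add]
        ring
  have h1 := key i j hxz
  have h2 := key j i (by omega)
  rw [Fa_comm (h.bR i) (h.bR j), h2, hTT, hTT, hT.comm i j, add_comm (δ i) (δ j)] at h1
  have h3 : pr k κ (Polynomial.X ^ κ) * pr k κ (Polynomial.C
      ((X i * E j + E i * X j - X j * E i - E j * X i) x z)) = 0 := by
    have e1 : (X i * E j + E i * X j - X j * E i - E j * X i) x z =
        (E i * X j + X i * E j) x z - (E j * X i + X j * E i) x z := by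
      simp only [Matrix.add_apply, Matrix.sub_apply]
      ring
    rw [e1, map_sub, map_sub]
    linear_combination -h1
  exact pr_eps_C h3

/-- the Newton step -/
theorem step (hκ : 1 ≤ κ) (hT : Tgt w δ X T) (cert : CertC w δ N0 X κ)
    (h : Apx w δ N0 X T (κ - 1) g b) : ∃ g' b', Apx w δ N0 X T κ g' b' := by
  obtain ⟨N, a, ha, hNa⟩ := cert (er w δ T κ g b) (by
    intro i x y hxy
    rw [er, Matrix.of_apply, if_neg (by omega)]) (er_comm hκ hT h)
  set C' : Matrix ι ι k → Matrix ι ι (Polynomial k) := fun M => M.map Polynomial.C with hC'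
  set g' := g * (1 + (Polynomial.X : Polynomial k) ^ κ • C' (-N)) with hg'
  set b' : Fin 3 → Matrix ι ι (Polynomial k) := fun i =>
    b i + (Polynomial.X : Polynomial k) ^ κ • C' (-(a i)) with hb'
  have hXn : ((Polynomial.X : Polynomial k) ^ κ).eval 0 = 0 := by
    rw [Polynomial.eval_pow, Polynomial.eval_X, zero_pow (by omega)]
  have hev : ∀ M : Matrix ι ι (Polynomial k), (Polynomial.evalRingHom 0).mapMatrix
      ((Polynomial.X : Polynomial k) ^ κ • M) = 0 := by
    intro M
    ext x y
    simp only [RingHom.mapMatrix_apply, Matrix.map_apply, Matrix.smul_apply, smul_eq_mul,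
      Polynomial.coe_evalRingHom, Polynomial.eval_mul, hXn, zero_mul, Matrix.zero_apply]
  have g0' : (Polynomial.evalRingHom 0).mapMatrix g' = 1 := by
    rw [hg', map_mul, map_add, hev, h.g0, map_one, add_zero, Matrix.one_mul]
  have b0' : ∀ i, (Polynomial.evalRingHom 0).mapMatrix (b' i) = X i := by
    intro i
    rw [hb']
    dsimp only
    rw [map_add, hev, h.b0, add_zero]
  have bR' : ∀ i, b' i ∈ Rg N0 := by
    intro i
    refine Submodule.add_mem _ (h.bR i) (Submodule.smul_mem _ _ (Rg_map ?_))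
    obtain ⟨p, hp, e⟩ := ha i
    exact ⟨-p, by simp [hp], by rw [e, map_neg]⟩
  -- classes modulo `X ^ (κ + 1)`
  set π := pr k κ with hπ
  set ε := π (Polynomial.X ^ κ) with hε
  have hε2 : ε * ε = 0 := pr_eps_sq hκ
  have hmapC : ∀ (M : Matrix ι ι k) x y, π.mapMatrix (C' M) x y = π (Polynomial.C (M x y)) := by
    intro M x y
    rfl
  have hsm : ∀ M : Matrix ι ι (Polynomial k), π.mapMatrix
      ((Polynomial.X : Polynomial k) ^ κ • M) = ε • π.mapMatrix M := by
    intro M
    ext x y
    simp only [RingHom.mapMatrix_apply, Matrix.map_apply, Matrix.smul_apply, smul_eq_mul, map_mul,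
      hε]
  have hev1 : ∀ (M : Matrix ι ι (Polynomial k)) (M0 : Matrix ι ι k),
      (Polynomial.evalRingHom 0).mapMatrix M = M0 →
      ε • π.mapMatrix M = ε • π.mapMatrix (C' M0) := by
    intro M M0 hM
    ext x y
    rw [Matrix.smul_apply, Matrix.smul_apply, smul_eq_mul, smul_eq_mul, hmapC,
      RingHom.mapMatrix_apply, Matrix.map_apply, hε, hπ, pr_eps_eval, ← hM]
    rfl
  have hone : π.mapMatrix (C' 1) = 1 := by
    have : C' 1 = 1 := by
      ext x y
      simp [hC', Matrix.one_apply, Matrix.map_apply]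
    rw [this, map_one]
  have hdet : ε * π g.det = ε := by
    rw [hε, hπ, pr_eps_eval, det0 h.g0, map_one, map_one, mul_one]
  have htr : (π.mapMatrix (C' (-N))).trace = π (Polynomial.C ((-N).trace)) := by
    rw [Matrix.trace, Matrix.trace, map_sum, map_sum]
    rfl
  have hd' : π g'.det = π g.det + ε * π (Polynomial.C ((-N).trace)) := by
    rw [hg', Matrix.det_mul, map_mul, RingHom.map_det π (1 + _), map_add, map_one, hsm,
      det_eps ε hε2, htr]
    linear_combination π (Polynomial.C ((-N).trace)) * hdet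
  have hF : ∀ i, π.mapMatrix (Fa g' (b' i)) = π.mapMatrix (Fa g (b i)) +
      ε • π.mapMatrix (C' ((-N).trace • X i + X i * (-N) - (-N) * X i + -(a i))) := by
    intro i
    have e1 : Fa g' (b' i) = adjugate (1 + (Polynomial.X : Polynomial k) ^ κ • C' (-N)) *
        adjugate g * (b i + (Polynomial.X : Polynomial k) ^ κ • C' (-(a i))) *
        (g * (1 + (Polynomial.X : Polynomial k) ^ κ • C' (-N))) := by
      rw [Fa, hg', Matrix.adjugate_mul_distrib, hb']
    rw [e1, map_mul, map_mul, map_mul, map_mul, RingHom.map_adjugate, map_add, map_add, map_one,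
      hsm, hsm, step_eps ε hε2 (X0 := π.mapMatrix (C' (X i)))]
    · rw [Fa, map_mul, map_mul]
      congr 2
      rw [htr]
      ext x y
      simp only [Matrix.add_apply, Matrix.sub_apply, Matrix.smul_apply, smul_eq_mul,
        Matrix.mul_apply, hmapC, map_add, map_sub, map_sum, map_mul]
    · rw [hev1 g 1 h.g0, hone]
    · have h2 : (Polynomial.evalRingHom 0).mapMatrix (adjugate g) = 1 := by
        rw [RingHom.map_adjugate, h.g0, Matrix.adjugate_one]
      rw [hev1 _ 1 h2, hone]
    · exact hev1 _ _ (h.b0 i)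
  have hF' : ∀ i x y, π (Fa g' (b' i) x y) = π (Fa g (b i) x y) + ε * π (Polynomial.C
      ((-N).trace * X i x y - (X i * N - N * X i + a i) x y)) := by
    intro i x y
    have h1 := congrFun (congrFun (hF i) x) y
    rw [Matrix.add_apply, Matrix.smul_apply, smul_eq_mul, hmapC] at h1
    rw [show π (Fa g' (b' i) x y) = (π.mapMatrix (Fa g' (b' i))) x y from rfl, h1]
    congr 4
    simp only [Matrix.add_apply, Matrix.sub_apply, Matrix.smul_apply, smul_eq_mul, Matrix.mul_neg,
      Matrix.neg_mul, Matrix.neg_apply]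
    ring
  have hchg : ∀ i x y, ∃ u : Polynomial k, π (Dd w δ T g' b' i x y - Dd w δ T g b i x y) =
      ε * π u := by
    intro i x y
    refine ⟨Polynomial.C ((-N).trace * X i x y - (X i * N - N * X i + a i) x y) -
      Polynomial.C ((-N).trace) * TT w δ T i x y, ?_⟩
    have e1 : ∀ f f' : Polynomial k, π (f - f') = π f - π f' := fun f f' => map_sub π f f'
    have e2 : ∀ f f' : Polynomial k, π (f * f') = π f * π f' := fun f f' => map_mul π f f'
    rw [Dd, Dd, e1, e1, e1, e1, e2, e2, e2, hF', hd']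
    ring
  refine ⟨g', b', g0', bR', b0', fun i x y hxy => ?_⟩
  by_cases hr : w y + δ i + κ ≤ w x
  · have hm : min (w x - (w y + δ i)) κ = κ := min_eq_right (by omega)
    rw [hm, ← pr_zero, Dd, map_sub, map_mul]
    rw [← hπ, hF', hd']
    have h0 := h.hi i x y hxy
    have hm' : min (w x - (w y + δ i)) (κ - 1) + 1 = κ := by
      rw [min_eq_right (by omega)]
      omega
    rw [hm'] at h0
    have h1 := pr_of_dvd h0
    rw [Dd, map_sub, map_mul, ← hπ] at h1
    have h2 : (Fa g (b i) x y - g.det * TT w δ T i x y).coeff κ = er w δ T κ g b i x y := by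
      rw [er, Matrix.of_apply, if_pos hr, Dd]
    rw [h2] at h1
    have h3 : ε * π (TT w δ T i x y) = 0 := by
      rw [hε, hπ, pr_eps_eval, eval_of_dvd (a := w x - (w y + δ i)) (by omega) (TT_dvd T i x y),
        map_zero, map_zero, mul_zero]
    rw [hNa i x y hr, hT.deg i x y (by omega), mul_zero, zero_sub, map_neg, map_neg]
    linear_combination h1 - π (Polynomial.C ((-N).trace)) * h3
  · have hm : min (w x - (w y + δ i)) κ = w x - (w y + δ i) := min_eq_left (by omega)
    have hm' : min (w x - (w y + δ i)) (κ - 1) = w x - (w y + δ i) := min_eq_left (by omega)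
    have h0 := h.hi i x y hxy
    rw [hm'] at h0
    rw [hm]
    obtain ⟨u, hu⟩ := hchg i x y
    have h3 := dvd_of_pr hu
    have h5 := dvd_add ((pow_dvd_pow (Polynomial.X : Polynomial k) (by omega)).trans h3) h0
    rwa [sub_add_cancel] at h5

theorem start (hX : ∀ i, ∃ p : Polynomial k, p.coeff 0 = 0 ∧ X i = Polynomial.aeval N0 p)
    (hT : Tgt w δ X T) :
    Apx w δ N0 X T 0 1 (fun i => (X i).map (Polynomial.C : k → Polynomial k)) := by
  have b0 : ∀ i, (Polynomial.evalRingHom 0).mapMatrix
      ((X i).map (Polynomial.C : k → Polynomial k)) = X i := by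
    intro i
    ext x y
    simp
  refine ⟨map_one _, fun i => Rg_map (hX i), b0, fun i x y hxy => ?_⟩
  rw [Nat.min_zero, zero_add, pow_one, Dd, Polynomial.X_dvd_iff,
    Polynomial.coeff_zero_eq_eval_zero, Polynomial.eval_sub, Fa_zero (map_one _) (b0 i),
    Matrix.det_one, one_mul, TT, Matrix.of_apply, Polynomial.eval_mul, Polynomial.eval_C,
    Polynomial.eval_pow, Polynomial.eval_X]
  by_cases h1 : w x = w y + δ i
  · rw [h1, Nat.sub_self, pow_zero, one_mul, hT.lead i x y h1, sub_self]
  · rw [zero_pow (by omega), zero_mul, sub_zero, hT.deg i x y (by omega)]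

end Cell

open Cell Fdc in
/-- **the weighted cell criterion** -/
theorem cl_cell [Infinite k] {w : ι → ℕ} {δ : Fin 3 → ℕ} {N0 : Matrix ι ι k}
    (h1 : N0 ^ Fintype.card ι = 0) (h2 : N0 ^ (Fintype.card ι - 1) ≠ 0)
    {X : Fin 3 → Matrix ι ι k}
    (hX : ∀ i, ∃ p : Polynomial k, p.coeff 0 = 0 ∧ X i = Polynomial.aeval N0 p)
    (hdeg : ∀ i x y, w y + δ i < w x → X i x y = 0) (cert : ∀ κ, 1 ≤ κ → CertC w δ N0 X κ)
    {T : Fin 3 → Matrix ι ι k} (hcomm : ∀ i j, T i * T j = T j * T i)
    (hlow : ∀ i x y, w x < w y + δ i → T i x y = 0)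
    (hlead : ∀ i x y, w x = w y + δ i → T i x y = X i x y) : Cl T := by
  have hT : Tgt w δ X T := ⟨hdeg, hcomm, hlow, hlead⟩
  have hall : ∀ κ, ∃ g b, Apx w δ N0 X T κ g b := by
    intro κ
    induction κ with
    | zero => exact ⟨_, _, start hX hT⟩
    | succ κ ih =>
      obtain ⟨g, b, h⟩ := ih
      exact step (κ := κ + 1) (by omega) hT (cert _ (by omega)) h
  obtain ⟨g, b, h⟩ := hall (Finset.univ.sup w)
  have hu : ∀ i x y, ∃ u : Polynomial k, w y + δ i ≤ w x → Fa g (b i) x y =
      Polynomial.X ^ (w x - (w y + δ i)) *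
        (g.det * Polynomial.C (T i x y) + Polynomial.X * u) := by
    intro i x y
    by_cases hr : w y + δ i ≤ w x
    · have h4 : w x ≤ Finset.univ.sup w := Finset.le_sup (Finset.mem_univ x)
      have h3 := h.hi i x y hr
      rw [min_eq_left (by omega), Dd, TT, Matrix.of_apply] at h3
      obtain ⟨u, hu⟩ := h3
      refine ⟨u, fun _ => ?_⟩
      rw [pow_succ] at hu
      linear_combination hu
    · exact ⟨0, fun h' => absurd h' hr⟩
  choose u hu using hu
  set E : Fin 3 → ι → ι → Polynomial k := fun i x y =>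
    if w y + δ i ≤ w x then g.det * Polynomial.C (T i x y) + Polynomial.X * u i x y
    else Fa g (b i) x y * Polynomial.X ^ (w y + δ i - w x) with hE
  have hd0 : g.det ≠ 0 := by
    intro h'
    have := det0 h.g0
    rw [h', Polynomial.eval_zero] at this
    exact zero_ne_one this
  -- values
  have hcl : ∀ s : k, s ≠ 0 → g.det.eval s ≠ 0 →
      Cl (fun i => Matrix.of fun x y => (E i x y).eval s) := by
    intro s hs0 hs1
    have h3 := Fa_cl h1 h2 h.bR hs1
    have h4 : Cl fun i => (Matrix.diagonal fun a => (s ^ w a)⁻¹) *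
        ((s ^ δ i) • (Polynomial.evalRingHom s).mapMatrix (Fa g (b i))) *
        (Matrix.diagonal fun a => s ^ w a) := by
      refine Cl.conj _ _ ?_ ?_ (D8.cl_smul3 h3 fun i => s ^ δ i)
      · rw [Matrix.diagonal_mul_diagonal, ← Matrix.diagonal_one]
        congr 1
        funext a
        exact inv_mul_cancel₀ (pow_ne_zero _ hs0)
      · rw [Matrix.diagonal_mul_diagonal, ← Matrix.diagonal_one]
        congr 1
        funext a
        exact mul_inv_cancel₀ (pow_ne_zero _ hs0)
    have h5 : (fun i => (Matrix.diagonal fun a => (s ^ w a)⁻¹) *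
        ((s ^ δ i) • (Polynomial.evalRingHom s).mapMatrix (Fa g (b i))) *
        (Matrix.diagonal fun a => s ^ w a)) =
        fun i => Matrix.of fun x y => (E i x y).eval s := by
      funext i
      ext x y
      rw [Matrix.mul_diagonal, Matrix.diagonal_mul, Matrix.smul_apply, smul_eq_mul,
        RingHom.mapMatrix_apply, Matrix.map_apply, Polynomial.coe_evalRingHom, Matrix.of_apply, hE]
      dsimp only
      have hsx : s ^ w x ≠ 0 := pow_ne_zero _ hs0
      by_cases hr : w y + δ i ≤ w x
      · rw [if_pos hr, hu i x y hr]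
        simp only [Polynomial.eval_mul, Polynomial.eval_pow, Polynomial.eval_X, Polynomial.eval_add,
          Polynomial.eval_C]
        have e1 : s ^ w x = s ^ (w x - (w y + δ i)) * s ^ w y * s ^ δ i := by
          rw [← pow_add, ← pow_add]
          congr 1
          omega
        rw [inv_mul_eq_div, div_mul_eq_mul_div, div_eq_iff hsx, e1]
        ring
      · rw [if_neg hr]
        simp only [Polynomial.eval_mul, Polynomial.eval_pow, Polynomial.eval_X]
        have e1 : s ^ δ i * s ^ w y = s ^ (w y + δ i - w x) * s ^ w x := by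
          rw [← pow_add, ← pow_add]
          congr 1
          omega
        rw [inv_mul_eq_div, div_mul_eq_mul_div, div_eq_iff hsx]
        linear_combination (Fa g (b i) x y).eval s * e1
    rw [h5] at h4
    exact h4
  by_contra hn
  have hT0 : (fun i => Matrix.of fun x y => (E i x y).eval 0) = T := by
    funext i
    ext x y
    rw [Matrix.of_apply, hE]
    dsimp only
    by_cases hr : w y + δ i ≤ w x
    · rw [if_pos hr, Polynomial.eval_add, Polynomial.eval_mul, Polynomial.eval_mul,
        Polynomial.eval_X, zero_mul, add_zero, Polynomial.eval_C, det0 h.g0, one_mul]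
    · rw [if_neg hr, Polynomial.eval_mul, Polynomial.eval_pow, Polynomial.eval_X,
        zero_pow (by omega), mul_zero, hlow i x y (by omega)]
  have hfin := finite_cl (fun s => fun i => Matrix.of fun x y => (E i x y).eval s)
    (fun i x y => ⟨E i x y, fun s => rfl⟩) (by
      rw [hT0]
      exact hn)
  have hroot : {s : k | g.det.IsRoot s}.Finite := Polynomial.finite_setOfPred_isRoot hd0
  obtain ⟨s, hs⟩ := ((hfin.union hroot).union (Set.finite_singleton (0 : k))).exists_notMem
  simp only [Set.mem_union, Set.mem_ofPred_eq, Set.mem_singleton_iff, not_or] at hs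
  exact hs.1.1 (hcl s hs.2 hs.1.2)

end Pool.Agent.Lib.D13
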