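import Pool.Agent.Lib.D13.JordanU

/-!
# MP_5dcbc3_ag: a lower bound for the dimension of the centralizer of a nilpotent Jordan matrix
-/

namespace Pool.Agent.Lib.D13

open Matrix

namespace CenLow

variable {k : Type*} [Field k] {l : List ℕ}

/-- the index set of the matrices which commute with `JU k l` -/
abbrev Idx (l : List ℕ) : Type := Σ p : Fin l.length × Fin l.length, Fin (min (l.get p.1) (l.get p.2))

/-- the coefficient of `x ^ t` in the entry `(a, b)` -/
def cf (c : Idx l → k) (a b : Fin l.length) (t : ℕ) : k :=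
  if h : l.get a ≤ t + min (l.get a) (l.get b) ∧ t < l.get a then
    c ⟨(a, b), ⟨t + min (l.get a) (l.get b) - l.get a, by
      have h1 := h.1
      have h2 := h.2
      show t + min (l.get a) (l.get b) - l.get a < min (l.get a) (l.get b)
      omega⟩⟩
  else 0

/-- the matrix with given coefficients -/
def mk (c : Idx l → k) : Matrix (IxL l) (IxL l) k :=
  Matrix.of fun x y => if (y.2 : ℕ) ≤ x.2 then cf c x.1 y.1 (x.2 - y.2) else 0

theorem JU_mul (M : Matrix (IxL l) (IxL l) k) (x y : IxL l) :
    (JU k l * M) x y = if h : 0 < (x.2 : ℕ) then M ⟨x.1, ⟨x.2 - 1, by omega⟩⟩ y else 0 := by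
  rw [Matrix.mul_apply]
  split_ifs with h
  · rw [Finset.sum_eq_single ⟨x.1, ⟨x.2 - 1, by omega⟩⟩]
    · simp only [JU, Matrix.of_apply]
      rw [if_pos ⟨trivial, by omega⟩, one_mul]
    · intro z _ hz
      simp only [JU, Matrix.of_apply]
      rw [if_neg, zero_mul]
      rintro ⟨h1, h2⟩
      apply hz
      refine JordanUAux.sigma_ext _ _ h1.symm ?_
      simp only
      omega
    · intro h1
      exact absurd (Finset.mem_univ _) h1
  · refine Finset.sum_eq_zero fun z _ => ?_
    simp only [JU, Matrix.of_apply]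
    rw [if_neg, zero_mul]
    rintro ⟨_, h2⟩
    omega

theorem mul_JU (M : Matrix (IxL l) (IxL l) k) (x y : IxL l) :
    (M * JU k l) x y =
      if h : (y.2 : ℕ) + 1 < l.get y.1 then M x ⟨y.1, ⟨y.2 + 1, h⟩⟩ else 0 := by
  rw [Matrix.mul_apply]
  split_ifs with h
  · rw [Finset.sum_eq_single ⟨y.1, ⟨y.2 + 1, h⟩⟩]
    · simp only [JU, Matrix.of_apply]
      rw [if_pos ⟨trivial, trivial⟩, mul_one]
    · intro z _ hz
      simp only [JU, Matrix.of_apply]
      rw [if_neg, mul_zero]
      rintro ⟨h1, h2⟩
      exact hz (JordanUAux.sigma_ext _ _ h1 h2)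
    · intro h1
      exact absurd (Finset.mem_univ _) h1
  · refine Finset.sum_eq_zero fun z _ => ?_
    simp only [JU, Matrix.of_apply]
    rw [if_neg, mul_zero]
    rintro ⟨h1, h2⟩
    obtain ⟨z1, z2⟩ := z
    obtain ⟨y1, y2⟩ := y
    dsimp only at h1 h2 h
    subst h1
    have := z2.2
    omega

theorem mk_comm (c : Idx l → k) : JU k l * mk c = mk c * JU k l := by
  ext x y
  rw [JU_mul, mul_JU]
  have hx := x.2.2
  have hy := y.2.2
  by_cases h1 : 0 < (x.2 : ℕ)
  · rw [dif_pos h1]
    by_cases h2 : (y.2 : ℕ) + 1 < l.get y.1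
    · rw [dif_pos h2]
      simp only [mk, Matrix.of_apply]
      by_cases h3 : (y.2 : ℕ) + 1 ≤ x.2
      · rw [if_pos (by omega), if_pos h3]
        congr 1
        omega
      · rw [if_neg (by omega), if_neg h3]
    · rw [dif_neg h2]
      simp only [mk, Matrix.of_apply]
      split_ifs with h3
      · unfold cf
        rw [dif_neg]
        rintro ⟨h4, h5⟩
        omega
      · rfl
  · rw [dif_neg h1]
    by_cases h2 : (y.2 : ℕ) + 1 < l.get y.1
    · rw [dif_pos h2]
      simp only [mk, Matrix.of_apply]
      rw [if_neg (by omega)]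
    · rw [dif_neg h2]

/-- **the centralizer is at least as large as expected** -/
theorem le_finrank (W : Submodule k (Matrix (IxL l) (IxL l) k))
    (hW : ∀ a, JU k l * a = a * JU k l → a ∈ W) :
    ∑ p : Fin l.length × Fin l.length, min (l.get p.1) (l.get p.2) ≤ Module.finrank k W := by
  let f : (Idx l → k) →ₗ[k] W :=
    { toFun := fun c => ⟨mk c, hW _ (mk_comm c)⟩
      map_add' := fun c c' => by
        apply Subtype.ext
        ext x y
        simp only [mk, cf, Matrix.of_apply, Submodule.coe_add, Matrix.add_apply, Pi.add_apply]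
        split_ifs <;> simp
      map_smul' := fun s c => by
        apply Subtype.ext
        ext x y
        simp only [mk, cf, Matrix.of_apply, Submodule.coe_smul, Matrix.smul_apply, Pi.smul_apply,
          RingHom.id_apply]
        split_ifs <;> simp }
  have hf : Function.Injective f := by
    intro c c' h
    have h1 : mk c = mk c' := congrArg Subtype.val h
    funext z
    obtain ⟨⟨a, b⟩, t, ht⟩ := z
    have ht' : t < min (l.get a) (l.get b) := ht
    have hb : 0 < l.get b := by omega
    have h2 := congrFun (congrFun h1 ⟨a, ⟨t + (l.get a - min (l.get a) (l.get b)), by omega⟩⟩)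
      ⟨b, ⟨0, hb⟩⟩
    simp only [mk, cf, Matrix.of_apply] at h2
    rw [if_pos (Nat.zero_le _), if_pos (Nat.zero_le _)] at h2
    have h3 : l.get a ≤ t + (l.get a - min (l.get a) (l.get b)) - 0 + min (l.get a) (l.get b) ∧
        t + (l.get a - min (l.get a) (l.get b)) - 0 < l.get a := by omega
    rw [dif_pos h3, dif_pos h3] at h2
    have h4 : t + (l.get a - min (l.get a) (l.get b)) - 0 + min (l.get a) (l.get b) - l.get a = t := by
      omega
    have h5 : ∀ c : Idx l → k, ∀ s (hs : s < min (l.get a) (l.get b)), s = t →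
        c ⟨(a, b), ⟨s, hs⟩⟩ = c ⟨(a, b), ⟨t, ht⟩⟩ := by
      intro c s hs hst
      subst hst
      rfl
    rw [h5 c _ _ h4, h5 c' _ _ h4] at h2
    exact h2
  have h2 := LinearMap.finrank_le_finrank_of_injective hf
  rw [Module.finrank_fintype_fun_eq_card, Fintype.card_sigma] at h2
  simp only [Fintype.card_fin] at h2
  exact h2

end CenLow

end Pool.Agent.Lib.D13
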