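import Pool.Agent.Lib.D13.JordanU

/-!
# MP_5dcbc3_ag: the matrices commuting with the Jordan matrix of a list, in coordinates
-/

set_option autoImplicit false

namespace Pool.Agent.Lib.D13

open Matrix Pool.Agent.Lib.Q5dc Pool.Agent.Lib.D7

namespace Cert

variable {K : Type*} [Field K] {l : List ℕ}

/-- the entry in the row `(i, m)` and the column `(j, q)`; `0` outside of the range -/
def en (l : List ℕ) (B : Matrix (IxL l) (IxL l) K) (i m j q : ℕ) : K :=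
  if h : ∃ (hi : i < l.length) (hj : j < l.length), m < l.get ⟨i, hi⟩ ∧ q < l.get ⟨j, hj⟩ then
    B ⟨⟨i, h.1⟩, ⟨m, h.2.2.1⟩⟩ ⟨⟨j, h.2.1⟩, ⟨q, h.2.2.2⟩⟩ else 0

theorem en_eq (B : Matrix (IxL l) (IxL l) K) {i m j q : ℕ} (hi : i < l.length) (hj : j < l.length)
    (hm : m < l.get ⟨i, hi⟩) (hq : q < l.get ⟨j, hj⟩) :
    en l B i m j q = B ⟨⟨i, hi⟩, ⟨m, hm⟩⟩ ⟨⟨j, hj⟩, ⟨q, hq⟩⟩ := by
  unfold en
  rw [dif_pos ⟨hi, hj, hm, hq⟩]

theorem en_self (B : Matrix (IxL l) (IxL l) K) (x y : IxL l) :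
    en l B x.1 x.2 y.1 y.2 = B x y :=
  en_eq B x.1.2 y.1.2 x.2.2 y.2.2

theorem en_zero (B : Matrix (IxL l) (IxL l) K) {i m j q : ℕ}
    (h : ¬ ∃ (hi : i < l.length) (hj : j < l.length), m < l.get ⟨i, hi⟩ ∧ q < l.get ⟨j, hj⟩) :
    en l B i m j q = 0 := dif_neg h

theorem JU_mul (B : Matrix (IxL l) (IxL l) K) (i : Fin l.length) (m : ℕ) (hm : m + 1 < l.get i)
    (y : IxL l) : (JU K l * B) ⟨i, ⟨m + 1, hm⟩⟩ y = B ⟨i, ⟨m, by omega⟩⟩ y := by
  rw [Matrix.mul_apply, Finset.sum_eq_single (⟨i, ⟨m, by omega⟩⟩ : IxL l)]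
  · have : JU K l ⟨i, ⟨m + 1, hm⟩⟩ ⟨i, ⟨m, by omega⟩⟩ = 1 := by
      unfold JU
      rw [Matrix.of_apply, if_pos ⟨rfl, rfl⟩]
    rw [this, one_mul]
  · intro z _ hz
    have : JU K l ⟨i, ⟨m + 1, hm⟩⟩ z = 0 := by
      unfold JU
      rw [Matrix.of_apply, if_neg]
      rintro ⟨h1, h2⟩
      have h3 : m + 1 = (z.2 : ℕ) + 1 := h2
      exact hz (JordanUAux.sigma_ext _ _ h1.symm (by show (z.2 : ℕ) = m; omega))
    rw [this, zero_mul]
  · intro h
    exact absurd (Finset.mem_univ _) h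

theorem JU_mul_zero (B : Matrix (IxL l) (IxL l) K) (i : Fin l.length) (hm : 0 < l.get i)
    (y : IxL l) : (JU K l * B) ⟨i, ⟨0, hm⟩⟩ y = 0 := by
  rw [Matrix.mul_apply]
  refine Finset.sum_eq_zero fun z _ => ?_
  have : JU K l ⟨i, ⟨0, hm⟩⟩ z = 0 := by
    unfold JU
    rw [Matrix.of_apply, if_neg]
    rintro ⟨-, h2⟩
    have h3 : 0 = (z.2 : ℕ) + 1 := h2
    omega
  rw [this, zero_mul]

theorem mul_JU (B : Matrix (IxL l) (IxL l) K) (x : IxL l) (j : Fin l.length) (q : ℕ)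
    (hq : q + 1 < l.get j) :
    (B * JU K l) x ⟨j, ⟨q, by omega⟩⟩ = B x ⟨j, ⟨q + 1, hq⟩⟩ := by
  rw [Matrix.mul_apply, Finset.sum_eq_single (⟨j, ⟨q + 1, hq⟩⟩ : IxL l)]
  · have : JU K l ⟨j, ⟨q + 1, hq⟩⟩ ⟨j, ⟨q, by omega⟩⟩ = 1 := by
      unfold JU
      rw [Matrix.of_apply, if_pos ⟨rfl, rfl⟩]
    rw [this, mul_one]
  · intro z _ hz
    have : JU K l z ⟨j, ⟨q, by omega⟩⟩ = 0 := by
      unfold JU
      rw [Matrix.of_apply, if_neg]
      rintro ⟨h1, h2⟩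
      have h3 : (z.2 : ℕ) = q + 1 := h2
      exact hz (JordanUAux.sigma_ext _ _ h1 h3)
    rw [this, mul_zero]
  · intro h
    exact absurd (Finset.mem_univ _) h

theorem mul_JU_zero (B : Matrix (IxL l) (IxL l) K) (x : IxL l) (j : Fin l.length) (q : ℕ)
    (hq : q < l.get j) (h : q + 1 = l.get j) : (B * JU K l) x ⟨j, ⟨q, hq⟩⟩ = 0 := by
  rw [Matrix.mul_apply]
  refine Finset.sum_eq_zero fun z _ => ?_
  have : JU K l z ⟨j, ⟨q, hq⟩⟩ = 0 := by
    unfold JU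
    rw [Matrix.of_apply, if_neg]
    rintro ⟨h1, h2⟩
    have h3 : (z.2 : ℕ) = q + 1 := h2
    have h4 := z.2.isLt
    have h5 : l.get z.1 = l.get j := by rw [h1]
    omega
  rw [this, mul_zero]

/-- the coordinates of a matrix commuting with the Jordan matrix -/
def cf (l : List ℕ) (B : Matrix (IxL l) (IxL l) K) (i j m : ℕ) : K := en l B i m j 0

section

variable {B C : Matrix (IxL l) (IxL l) K} (hB : JU K l * B = B * JU K l)
include hB

theorem toep_aux (q : ℕ) : ∀ (i j m : ℕ) (hi : i < l.length) (hj : j < l.length)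
    (_ : m < l.get ⟨i, hi⟩) (_ : q < l.get ⟨j, hj⟩),
    en l B i m j q = if q ≤ m then cf l B i j (m - q) else 0 := by
  induction q with
  | zero =>
    intro i j m hi hj hm hq
    rw [if_pos (Nat.zero_le m), Nat.sub_zero]
    rfl
  | succ q ih =>
    intro i j m hi hj hm hq
    have h1 : (B * JU K l) ⟨⟨i, hi⟩, ⟨m, hm⟩⟩ ⟨⟨j, hj⟩, ⟨q, by omega⟩⟩ =
        B ⟨⟨i, hi⟩, ⟨m, hm⟩⟩ ⟨⟨j, hj⟩, ⟨q + 1, hq⟩⟩ := mul_JU B _ _ q hq
    rw [en_eq B hi hj hm hq, ← h1, ← hB]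
    cases m with
    | zero =>
      rw [JU_mul_zero, if_neg (by omega)]
    | succ m =>
      rw [JU_mul B ⟨i, hi⟩ m hm]
      have h2 := ih i j m hi hj (by omega) (by omega)
      rw [en_eq B hi hj (by omega) (by omega)] at h2
      rw [h2]
      by_cases h3 : q ≤ m
      · rw [if_pos h3, if_pos (by omega)]
        congr 1
        omega
      · rw [if_neg h3, if_neg (by omega)]

/-- Toeplitz form -/
theorem toep (x y : IxL l) : B x y =
    if (y.2 : ℕ) ≤ x.2 then cf l B x.1 y.1 (x.2 - y.2) else 0 := by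
  rw [← en_self B x y]
  exact toep_aux hB _ _ _ _ x.1.2 y.1.2 x.2.2 y.2.2

/-- the coordinates which are zero -/
theorem cf_zero {i j m : ℕ} (h : m + l.getD j 0 < l.getD i 0) : cf l B i j m = 0 := by
  by_cases hi : i < l.length
  swap
  · exact en_zero B fun ⟨h1, _⟩ => hi h1
  by_cases hj : j < l.length
  swap
  · exact en_zero B fun ⟨_, h1, _⟩ => hj h1
  have gi : l.getD i 0 = l.get ⟨i, hi⟩ := by simp [List.getD_eq_getElem?_getD, hi]
  have gj : l.getD j 0 = l.get ⟨j, hj⟩ := by simp [List.getD_eq_getElem?_getD, hj]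
  rw [gi, gj] at h
  by_cases hj0 : 0 < l.get ⟨j, hj⟩
  swap
  · refine en_zero B ?_
    rintro ⟨_, _, _, h1⟩
    exact hj0 (by omega)
  obtain ⟨q, hq⟩ : ∃ q, l.get ⟨j, hj⟩ = q + 1 := ⟨l.get ⟨j, hj⟩ - 1, by omega⟩
  have h1 : en l B i (m + q) j q = cf l B i j m := by
    rw [toep_aux hB q i j (m + q) hi hj (by omega) (by omega), if_pos (by omega)]
    congr 1
    omega
  rw [← h1, en_eq B hi hj (by omega) (by omega)]
  have h2 : (B * JU K l) ⟨⟨i, hi⟩, ⟨m + q + 1, by omega⟩⟩ ⟨⟨j, hj⟩, ⟨q, by omega⟩⟩ = 0 :=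
    mul_JU_zero B _ _ q _ hq.symm
  rw [← hB, JU_mul B ⟨i, hi⟩ (m + q)] at h2
  exact h2

end

theorem cf_out {B : Matrix (IxL l) (IxL l) K} {i j m : ℕ} (h : l.getD i 0 ≤ m) :
    cf l B i j m = 0 := by
  refine en_zero B ?_
  rintro ⟨hi, _, h1, _⟩
  have gi : l.getD i 0 = l.get ⟨i, hi⟩ := by simp [List.getD_eq_getElem?_getD, hi]
  omega

theorem cf_out' {B : Matrix (IxL l) (IxL l) K} {i j m : ℕ} (h : l.length ≤ j) :
    cf l B i j m = 0 := by
  refine en_zero B ?_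
  rintro ⟨-, hj, -, -⟩
  omega

theorem cf_out'' {B : Matrix (IxL l) (IxL l) K} {i j m : ℕ} (h : l.length ≤ i) :
    cf l B i j m = 0 := by
  refine en_zero B ?_
  rintro ⟨hi, -, -, -⟩
  omega

/-- the product formula -/
theorem cf_mul {B C : Matrix (IxL l) (IxL l) K} (hB : JU K l * B = B * JU K l) {i j m : ℕ}
    (hi : i < l.length) (hj : j < l.length) (hm : m < l.get ⟨i, hi⟩) (h0 : 0 < l.get ⟨j, hj⟩) :
    cf l (B * C) i j m = ∑ a ∈ Finset.range l.length, ∑ u ∈ Finset.range (m + 1),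
      cf l B i a (m - u) * cf l C a j u := by
  have e1 : cf l (B * C) i j m = (B * C) ⟨⟨i, hi⟩, ⟨m, hm⟩⟩ ⟨⟨j, hj⟩, ⟨0, h0⟩⟩ :=
    en_eq _ hi hj hm h0
  rw [e1, Matrix.mul_apply, Fintype.sum_sigma, Finset.sum_range]
  refine Finset.sum_congr rfl fun a _ => ?_
  have e2 : ∀ u : Fin (l.get a), B ⟨⟨i, hi⟩, ⟨m, hm⟩⟩ ⟨a, u⟩ * C ⟨a, u⟩ ⟨⟨j, hj⟩, ⟨0, h0⟩⟩ =
      if (u : ℕ) ≤ m then cf l B i a (m - u) * cf l C a j u else 0 := by
    intro u
    rw [toep hB]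
    have e3 : C ⟨a, u⟩ ⟨⟨j, hj⟩, ⟨0, h0⟩⟩ = cf l C a j u := (en_eq C a.2 hj u.2 h0).symm
    show (if (u : ℕ) ≤ m then cf l B i a (m - u) else 0) * _ = _
    rw [e3]
    split_ifs
    · rfl
    · rw [zero_mul]
  rw [Finset.sum_congr rfl fun u _ => e2 u]
  rw [Fin.sum_univ_eq_sum_range (fun u => if u ≤ m then cf l B i a (m - u) * cf l C a j u else 0)]
  rw [← Finset.sum_filter]
  have e4 : ∀ u ∈ Finset.range (m + 1), u ∉ (Finset.range (l.get a)).filter (fun u => u ≤ m) →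
      cf l B i a (m - u) * cf l C a j u = 0 := by
    intro u hu hu'
    rw [Finset.mem_filter, Finset.mem_range, not_and] at hu'
    rw [Finset.mem_range] at hu
    have h2 : ¬ u < l.get a := fun h => hu' h (by omega)
    have ga : l.getD a 0 = l.get a := by simp [List.getD_eq_getElem?_getD]
    rw [cf_out (B := C) (by omega), mul_zero]
  refine Finset.sum_subset (fun u hu => ?_) e4
  rw [Finset.mem_filter] at hu
  rw [Finset.mem_range]
  omega

theorem cf_add (B C : Matrix (IxL l) (IxL l) K) (i j m : ℕ) :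
    cf l (B + C) i j m = cf l B i j m + cf l C i j m := by
  unfold cf en
  split_ifs
  · rfl
  · rw [add_zero]

theorem cf_sub (B C : Matrix (IxL l) (IxL l) K) (i j m : ℕ) :
    cf l (B - C) i j m = cf l B i j m - cf l C i j m := by
  unfold cf en
  split_ifs
  · rfl
  · rw [sub_zero]

theorem cf_smul (c : K) (B : Matrix (IxL l) (IxL l) K) (i j m : ℕ) :
    cf l (c • B) i j m = c * cf l B i j m := by
  unfold cf en
  split_ifs
  · rfl
  · rw [mul_zero]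

end Cert

end Pool.Agent.Lib.D13
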