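import Pool.Agent.Lib.D13.Mono

/-!
# MP_5dcbc3_ag: the checker for certificates with leading monomials
-/

set_option autoImplicit false

namespace Pool.Agent.Lib.D13.Cert

open Finset Pool.Agent.Lib.D13.Mono

/-- a polynomial: coefficients and lists of codes of the variables -/
abbrev Pol := List (ℤ × List ℕ)

/-- the value -/
def Pol.ev {K : Type*} [Field K] (x : ℕ → K) (p : Pol) : K :=
  (p.map fun t => (t.1 : K) * (t.2.map x).prod).sum

/-- the weight of a monomial -/
def wtm (w : ℕ → ℕ) (m : List ℕ) : ℕ := (m.map w).sum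

/-- the coefficient of a monomial -/
def coefOf (p : Pol) (m : List ℕ) : ℤ := ((p.filter fun t => t.2 = m).map Prod.fst).sum

/-- `m` is the leading monomial of `p` -/
def okLead (w : ℕ → ℕ) (p : Pol) (m : List ℕ) : Bool :=
  (coefOf p m != 0) && p.all fun t => t.2 = m || wtm w t.2 < wtm w m || coefOf p t.2 == 0

theorem ev_eq {K : Type*} [Field K] (x : ℕ → K) (p : Pol) (F : Finset (List ℕ))
    (hF : ∀ t ∈ p, t.2 ∈ F) :
    Pol.ev x p = ∑ m ∈ F, (coefOf p m : K) * (m.map x).prod := by
  classical
  induction p with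
  | nil => simp [Pol.ev, coefOf]
  | cons t p ih =>
    have h1 := ih fun s hs => hF s (List.mem_cons_of_mem _ hs)
    have h2 : Pol.ev x (t :: p) = (t.1 : K) * (t.2.map x).prod + Pol.ev x p := by
      simp [Pol.ev]
    have h3 : ∀ m, coefOf (t :: p) m = (if t.2 = m then t.1 else 0) + coefOf p m := by
      intro m
      unfold coefOf
      rw [List.filter_cons]
      by_cases h : t.2 = m
      · simp [h]
      · simp [h]
    rw [h2, h1]
    simp only [h3]
    have h4 : ∀ m, (((if t.2 = m then t.1 else 0) + coefOf p m : ℤ) : K) * (m.map x).prod =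
        (if t.2 = m then (t.1 : K) * (t.2.map x).prod else 0) +
          (coefOf p m : K) * (m.map x).prod := by
      intro m
      by_cases h : t.2 = m
      · subst h
        simp [add_mul]
      · simp [h]
    simp only [h4, Finset.sum_add_distrib]
    rw [Finset.sum_ite_eq, if_pos (hF t List.mem_cons_self)]

/-- the monomial of a list of variables in `V` -/
theorem mon_count {K : Type*} [Field K] (x : ℕ → K) (V : Finset ℕ) (m : List ℕ)
    (hm : ∀ a ∈ m, a ∈ V) :
    mon (fun a : V => x a) (fun a : V => m.count (a : ℕ)) = (m.map x).prod := by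
  unfold mon
  have h1 : ∏ i : V, (fun a : V => x a) i ^ m.count (i : ℕ) = ∏ a ∈ V, x a ^ m.count a :=
    Finset.prod_coe_sort V fun a => x a ^ m.count a
  rw [h1, Finset.prod_list_map_count m x]
  symm
  refine Finset.prod_subset (fun a ha => hm a (List.mem_toFinset.1 ha)) fun a _ ha => ?_
  rw [List.mem_toFinset] at ha
  rw [List.count_eq_zero.2 ha, pow_zero]

theorem wt_count (w : ℕ → ℕ) (V : Finset ℕ) (m : List ℕ) (hm : ∀ a ∈ m, a ∈ V) :
    wt (fun a : V => w a) (fun a : V => m.count (a : ℕ)) = wtm w m := by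
  unfold wt wtm
  have h1 : ∑ i : V, (fun a : V => w a) i * m.count (i : ℕ) = ∑ a ∈ V, w a * m.count a :=
    Finset.sum_coe_sort V fun a => w a * m.count a
  rw [h1, Finset.sum_list_map_count m w]
  symm
  have h2 : ∀ a, m.count a • w a = w a * m.count a := fun a => by
    rw [smul_eq_mul, mul_comm]
  simp only [h2]
  refine Finset.sum_subset (fun a ha => hm a (List.mem_toFinset.1 ha)) fun a _ ha => ?_
  rw [List.mem_toFinset] at ha
  rw [List.count_eq_zero.2 ha, mul_zero]

/-- the leading monomial is a combination of smaller ones -/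
theorem lead_mem {k K : Type*} [Field k] [Field K] [CharZero K] [Algebra k K] (x : ℕ → K)
    (V : Finset ℕ) (hx : ∀ a, a ∉ V → x a = 0) (w : ℕ → ℕ) (p : Pol) (m : List ℕ)
    (h0 : p.ev x = 0) (hl : okLead w p m = true) (hV : ∀ a ∈ m, a ∈ V) :
    mon (fun a : V => x a) (fun a : V => m.count (a : ℕ)) ∈
      Submodule.span k {y | ∃ e, wt (fun a : V => w a) e <
        wt (fun a : V => w a) (fun a : V => m.count (a : ℕ)) ∧ mon (fun a : V => x a) e = y} := by
  classical
  rw [mon_count x V m hV, wt_count w V m hV]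
  unfold okLead at hl
  rw [Bool.and_eq_true, bne_iff_ne, List.all_eq_true] at hl
  obtain ⟨hc, hall⟩ := hl
  have hk : CharZero k := (algebraMap k K).charZero
  set F : Finset (List ℕ) := insert m (p.map Prod.snd).toFinset with hF
  have hpF : ∀ t ∈ p, t.2 ∈ F := fun t ht =>
    Finset.mem_insert_of_mem (List.mem_toFinset.2 (List.mem_map_of_mem ht))
  have h1 := ev_eq x p F hpF
  rw [h0, hF, ← Finset.insert_erase (Finset.mem_insert_self m _), Finset.sum_insert
    (Finset.notMem_erase _ _)] at h1
  have hc' : (coefOf p m : k) ≠ 0 := by exact_mod_cast hc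
  have h2 : (m.map x).prod = -((coefOf p m : k)⁻¹ • ∑ s ∈ F.erase m,
      (coefOf p s : K) * (s.map x).prod) := by
    have h3 : (coefOf p m : k) • (m.map x).prod = -∑ s ∈ F.erase m,
        (coefOf p s : K) * (s.map x).prod := by
      rw [Algebra.smul_def, map_intCast]
      linear_combination -h1
    rw [← smul_neg, ← h3, inv_smul_smul₀ hc']
  rw [h2]
  refine Submodule.neg_mem _ (Submodule.smul_mem _ _ (Submodule.sum_mem _ fun s hs => ?_))
  rw [Finset.mem_erase, hF, Finset.mem_insert, List.mem_toFinset, List.mem_map] at hs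
  obtain ⟨hne, hs⟩ := hs
  obtain ⟨t, ht, rfl⟩ := hs.resolve_left hne
  have h4 := hall t ht
  rw [Bool.or_eq_true, Bool.or_eq_true, decide_eq_true_eq, decide_eq_true_eq, beq_iff_eq] at h4
  rcases h4 with (h4 | h4) | h4
  · exact absurd h4 hne
  · by_cases hV' : ∀ a ∈ t.2, a ∈ V
    · have h5 : (coefOf p t.2 : K) * (t.2.map x).prod =
          (coefOf p t.2 : k) • (t.2.map x).prod := by
        rw [Algebra.smul_def, map_intCast]
      rw [h5]
      refine Submodule.smul_mem _ _ (Submodule.subset_span ⟨fun a : V => t.2.count (a : ℕ), ?_, ?_⟩)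
      · rw [wt_count w V t.2 hV']
        exact h4
      · exact mon_count x V t.2 hV'
    · push Not at hV'
      obtain ⟨a, ha, haV⟩ := hV'
      have h5 : (t.2.map x).prod = 0 :=
        List.prod_eq_zero (List.mem_map.2 ⟨a, ha, hx a haV⟩)
      rw [h5, mul_zero]
      exact zero_mem _
  · rw [h4, Int.cast_zero, zero_mul]
    exact zero_mem _

/-- **the bound from a certificate** -/
theorem certB {k K : Type*} [Field k] [Field K] [CharZero K] [Algebra k K] (x : ℕ → K)
    (V : Finset ℕ) (hx : ∀ a, a ∉ V → x a = 0) (w : ℕ → ℕ) (hw : ∀ a ∈ V, 0 < w a)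
    (items : List (Pol × List ℕ)) (h0 : ∀ q ∈ items, q.1.ev x = 0)
    (hl : ∀ q ∈ items, okLead w q.1 q.2 = true) (hn : (items.flatMap Prod.snd).Nodup)
    (hne : ∀ q ∈ items, q.2 ≠ []) (hV : ∀ q ∈ items, ∀ a ∈ q.2, a ∈ V) :
    rk k (Set.range fun a : V => x a) + items.length ≤ V.card := by
  classical
  rw [List.nodup_flatMap] at hn
  obtain ⟨hn1, hn2⟩ := hn
  rw [List.pairwise_iff_getElem] at hn2
  -- different leading monomials have no common variable
  have hdis : ∀ i j : Fin items.length, ∀ a, a ∈ (items[i]).2 → a ∈ (items[j]).2 → i = j := by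
    intro i j a hi hj
    by_contra hij
    rcases lt_or_gt_of_ne (fun h => hij (Fin.ext h) : (i : ℕ) ≠ j) with h | h
    · exact hn2 i j i.2 j.2 h hi hj
    · exact hn2 j i j.2 i.2 h hj hi
  -- the bound for independent sets of variables
  have key : ∀ S : Finset V, (∀ i : Fin items.length, ∃ a : V, (a : ℕ) ∈ (items[i]).2 ∧ a ∉ S) →
      S.card + items.length ≤ V.card := by
    intro S hS
    choose a ha1 ha2 using hS
    have hinj : Function.Injective a := by
      intro i j hij
      exact hdis i j _ (ha1 i) (hij ▸ ha1 j)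
    have h1 : Disjoint S (Finset.univ.image a) := by
      rw [Finset.disjoint_left]
      intro b hb hb'
      obtain ⟨i, -, rfl⟩ := Finset.mem_image.1 hb'
      exact ha2 i hb
    have h2 := Finset.card_le_univ (S ∪ Finset.univ.image a)
    rw [Finset.card_union_of_disjoint h1, Finset.card_image_of_injective _ hinj,
      Finset.card_univ, Fintype.card_fin, Fintype.card_coe] at h2
    exact h2
  have hlen : items.length ≤ V.card := by
    have h1 := key ∅ fun i => by
      obtain ⟨a, ha⟩ := List.exists_mem_of_ne_nil _ (hne _ (List.getElem_mem i.2))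
      exact ⟨⟨a, hV _ (List.getElem_mem i.2) a ha⟩, ha, Finset.notMem_empty _⟩
    simpa using h1
  have h1 := rk_le_of_mono (k := k) (fun a : V => x a) (fun a : V => w a) (fun a => hw a a.2)
    (ι := Fin items.length) (fun i a => (items[i]).2.count (a : ℕ)) 1 (V.card - items.length)
    (fun i a => List.nodup_iff_count_le_one.1 (hn1 _ (List.getElem_mem i.2)) a) (fun i => ?_) fun S hS => ?_
  · calc rk k (Set.range fun a : V => x a) + items.length
        ≤ ((V.card - items.length : ℕ) : ℕ∞) + items.length := by gcongr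
      _ = V.card := by
        rw [← Nat.cast_add, Nat.sub_add_cancel hlen]
  · exact lead_mem x V hx w _ _ (h0 _ (List.getElem_mem i.2)) (hl _ (List.getElem_mem i.2))
      (hV _ (List.getElem_mem i.2))
  · by_contra hcon
    push Not at hcon
    have h2 := key S fun i => by
      obtain ⟨a, ha, haS⟩ := hcon i
      exact ⟨a, List.count_pos_iff.1 (Nat.pos_of_ne_zero ha), haS⟩
    omega

end Pool.Agent.Lib.D13.Cert
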