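import Pool.Agent.Lib.D13.CertA
import Pool.Agent.Lib.D13.GenCnt

/-!
# MP_5dcbc3_ag: normal form of a maximal bad triple with given Jordan matrix
-/

set_option autoImplicit false

namespace Pool.Agent.Lib.D13

open Matrix Pool.Agent.Lib.Q5dc Pool.Agent.Lib.D7

namespace Cert

section powers

variable {K : Type*} [Field K] {l : List ℕ}

theorem getD_eq {i : ℕ} (hi : i < l.length) : l.getD i 0 = l.get ⟨i, hi⟩ := by
  simp [List.getD_eq_getElem?_getD, hi]

theorem lt_of_getD {i m : ℕ} (h : m < l.getD i 0) : i < l.length := by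
  by_contra hc
  rw [List.getD_eq_default _ _ (not_lt.1 hc)] at h
  omega

theorem cf_eq (B : Matrix (IxL l) (IxL l) K) {i j m : ℕ} (hi : i < l.length) (hj : j < l.length)
    (hm : m < l.get ⟨i, hi⟩) (hq : 0 < l.get ⟨j, hj⟩) :
    cf l B i j m = B ⟨⟨i, hi⟩, ⟨m, hm⟩⟩ ⟨⟨j, hj⟩, ⟨0, hq⟩⟩ := en_eq B hi hj hm hq

/-- either all the coordinates are the same entry or they are all zero -/
theorem cf_cases (l : List ℕ) (i j m : ℕ) :
    (∃ x y : IxL l, ∀ B : Matrix (IxL l) (IxL l) K, cf l B i j m = B x y) ∨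
      ∀ B : Matrix (IxL l) (IxL l) K, cf l B i j m = 0 := by
  by_cases h : ∃ (hi : i < l.length) (hj : j < l.length), m < l.get ⟨i, hi⟩ ∧ 0 < l.get ⟨j, hj⟩
  · obtain ⟨hi, hj, h1, h2⟩ := h
    exact Or.inl ⟨_, _, fun B => cf_eq B hi hj h1 h2⟩
  · exact Or.inr fun B => en_zero B h

theorem cf_JU_zero (B : Matrix (IxL l) (IxL l) K) (i j : ℕ) : cf l (JU K l * B) i j 0 = 0 := by
  by_cases h : ∃ (hi : i < l.length) (hj : j < l.length), 0 < l.get ⟨i, hi⟩ ∧ 0 < l.get ⟨j, hj⟩
  · obtain ⟨hi, hj, h1, h2⟩ := h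
    rw [cf_eq _ hi hj h1 h2, JU_mul_zero]
  · exact en_zero _ h

theorem cf_JU_succ (B : Matrix (IxL l) (IxL l) K) {i j m : ℕ} (hm : m + 1 < l.getD i 0) :
    cf l (JU K l * B) i j (m + 1) = cf l B i j m := by
  have hi := lt_of_getD hm
  rw [getD_eq hi] at hm
  by_cases h : ∃ (hj : j < l.length), 0 < l.get ⟨j, hj⟩
  · obtain ⟨hj, h2⟩ := h
    rw [cf_eq _ hi hj hm h2, cf_eq _ hi hj (by omega) h2]
    exact JU_mul B ⟨i, hi⟩ m hm _
  · have h0 : ∀ (M : Matrix (IxL l) (IxL l) K) (m : ℕ), cf l M i j m = 0 := fun M m =>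
      en_zero _ fun ⟨_, hj, _, h2⟩ => h ⟨hj, h2⟩
    rw [h0, h0]

theorem cf_one {i j m : ℕ} (hm : m < l.getD i 0) :
    cf l (1 : Matrix (IxL l) (IxL l) K) i j m = if i = j ∧ m = 0 then 1 else 0 := by
  have hi := lt_of_getD hm
  rw [getD_eq hi] at hm
  by_cases h : ∃ (hj : j < l.length), 0 < l.get ⟨j, hj⟩
  · obtain ⟨hj, h2⟩ := h
    rw [cf_eq _ hi hj hm h2, Matrix.one_apply]
    by_cases h3 : i = j ∧ m = 0
    · obtain ⟨rfl, rfl⟩ := h3
      simp
    · rw [if_neg h3, if_neg]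
      intro h4
      apply h3
      have h5 : (⟨i, hi⟩ : Fin l.length) = ⟨j, hj⟩ := congrArg Sigma.fst h4
      have h6 : i = j := congrArg Fin.val h5
      subst h6
      refine ⟨rfl, ?_⟩
      have h7 := eq_of_heq (Sigma.mk.inj h4).2
      exact congrArg Fin.val h7
  · rw [if_neg]
    · exact en_zero _ fun ⟨_, hj, _, h2⟩ => h ⟨hj, h2⟩
    · rintro ⟨rfl, rfl⟩
      exact h ⟨hi, hm⟩

/-- powers of the Jordan matrix -/
theorem cf_pow (q : ℕ) : ∀ {i j m : ℕ}, m < l.getD i 0 →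
    cf l (JU K l ^ q) i j m = if i = j ∧ m = q then 1 else 0 := by
  induction q with
  | zero =>
    intro i j m hm
    rw [pow_zero]
    exact cf_one hm
  | succ q ih =>
    intro i j m hm
    rw [pow_succ']
    cases m with
    | zero => rw [cf_JU_zero, if_neg (by omega)]
    | succ m =>
      rw [cf_JU_succ _ hm, ih (by omega)]
      congr 1
      simp

theorem cf_sum {ι : Type*} (s : Finset ι) (f : ι → Matrix (IxL l) (IxL l) K) (i j m : ℕ) :
    cf l (∑ a ∈ s, f a) i j m = ∑ a ∈ s, cf l (f a) i j m := by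
  rcases cf_cases (K := K) l i j m with ⟨x, y, h⟩ | h
  · simp only [h]
    rw [Matrix.sum_apply]
  · simp only [h, Finset.sum_const_zero]

variable (l) in
/-- the polynomial in the Jordan matrix with the same first block as `B` -/
def pol (B : Matrix (IxL l) (IxL l) K) : Matrix (IxL l) (IxL l) K :=
  ∑ q ∈ Finset.range (l.getD 0 0), cf l B 0 0 q • JU K l ^ q

theorem cf_pol (B : Matrix (IxL l) (IxL l) K) (i j m : ℕ) :
    cf l (pol l B) i j m = if i = j ∧ m < l.getD i 0 then cf l B 0 0 m else 0 := by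
  by_cases hm : m < l.getD i 0
  swap
  · rw [cf_out (by omega), if_neg (by omega)]
  unfold pol
  rw [cf_sum]
  have h1 : ∀ q ∈ Finset.range (l.getD 0 0), cf l (cf l B 0 0 q • JU K l ^ q) i j m =
      if m = q then (if i = j then cf l B 0 0 q else 0) else 0 := by
    intro q _
    rw [cf_smul, cf_pow q hm]
    by_cases h2 : m = q
    · by_cases h3 : i = j
      · rw [if_pos ⟨h3, h2⟩, if_pos h2, if_pos h3, mul_one]
      · rw [if_neg (fun h => h3 h.1), if_pos h2, if_neg h3, mul_zero]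
    · rw [if_neg (fun h => h2 h.2), if_neg h2, mul_zero]
  rw [Finset.sum_congr rfl h1, Finset.sum_ite_eq]
  by_cases h2 : m ∈ Finset.range (l.getD 0 0)
  · rw [if_pos h2]
    by_cases h3 : i = j
    · rw [if_pos h3, if_pos ⟨h3, hm⟩]
    · rw [if_neg h3, if_neg (fun h => h3 h.1)]
  · rw [if_neg h2]
    rw [Finset.mem_range, not_lt] at h2
    rw [cf_out (B := B) (i := 0) h2]
    split_ifs <;> rfl

theorem pol_comm {B M : Matrix (IxL l) (IxL l) K} (hM : JU K l * M = M * JU K l) :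
    Commute (pol l B) M := by
  unfold pol
  refine Commute.sum_left _ _ _ fun q _ => ?_
  exact ((show Commute (JU K l) M from hM).pow_left q).smul_left _

end powers

/-- a generic pencil -/
theorem exists_gen {k K ι : Type*} [Field k] [Infinite k] [Field K] [Algebra k K] [Finite ι]
    (b c : ι → K) : ∃ s : k, ∀ i, b i + algebraMap k K s * c i = 0 → b i = 0 ∧ c i = 0 := by
  classical
  have h1 : ∀ i, {s : k | b i + algebraMap k K s * c i = 0 ∧ ¬ (b i = 0 ∧ c i = 0)}.Finite := by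
    intro i
    by_cases hc : c i = 0
    · refine Set.finite_empty.subset ?_
      rintro s ⟨h1, h2⟩
      rw [hc, mul_zero, add_zero] at h1
      exact (h2 ⟨h1, hc⟩).elim
    · refine Set.Subsingleton.finite ?_
      rintro s ⟨h1, -⟩ s' ⟨h1', -⟩
      have h3 : algebraMap k K s * c i = algebraMap k K s' * c i := by
        linear_combination h1 - h1'
      exact (algebraMap k K).injective (mul_right_cancel₀ hc h3)
  have h2 : (⋃ i, {s : k | b i + algebraMap k K s * c i = 0 ∧ ¬ (b i = 0 ∧ c i = 0)}).Finite :=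
    Set.finite_iUnion h1
  obtain ⟨s, hs⟩ := h2.infinite_compl.nonempty
  refine ⟨s, fun i hi => ?_⟩
  by_contra hc
  exact hs (Set.mem_iUnion.2 ⟨i, hi, hc⟩)

end Cert

end Pool.Agent.Lib.D13
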