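import Pool.Agent.Lib.D13.CertC

/-!
# MP_5dcbc3_ag: normal form of a maximal bad triple with given Jordan matrix, 2
-/

set_option autoImplicit false

namespace Pool.Agent.Lib.D13

open Matrix Pool.Agent.Lib.Q5dc Pool.Agent.Lib.D7

namespace Cert

/-- zeros and relations of the coordinates of a normalised pair -/
structure Rels {K : Type*} [Field K] (l : List ℕ) (b c : ℕ → ℕ → ℕ → K) : Prop where
  out : ∀ i j m, l.getD i 0 ≤ m → b i j m = 0 ∧ c i j m = 0
  outj : ∀ i j m, l.length ≤ j → b i j m = 0 ∧ c i j m = 0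
  low : ∀ i j m, m + l.getD j 0 < l.getD i 0 → b i j m = 0 ∧ c i j m = 0
  lev : ∀ i j, l.getD i 0 = l.getD j 0 → b i j 0 = 0 ∧ c i j 0 = 0
  nrm : ∀ m, b 0 0 m = 0 ∧ c 0 0 m = 0
  syn : ∀ i j m, b i j m = 0 ↔ c i j m = 0
  rel : ∀ i j m, i < l.length → j < l.length → m < l.getD i 0 →
    ∑ a ∈ Finset.range l.length, ∑ u ∈ Finset.range (m + 1), b i a (m - u) * c a j u =
      ∑ a ∈ Finset.range l.length, ∑ u ∈ Finset.range (m + 1), c i a (m - u) * b a j u

variable {K : Type*} [Field K] {l : List ℕ}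

/-- the coordinates of two matrices -/
def coef (l : List ℕ) (B C : Matrix (IxL l) (IxL l) K) : Set K :=
  {a | ∃ i j m, a = cf l B i j m ∨ a = cf l C i j m}

theorem rels_of (hl : ∀ a, 0 < l.get a) {B C : Matrix (IxL l) (IxL l) K}
    (hB : JU K l * B = B * JU K l) (hC : JU K l * C = C * JU K l) (hBC : B * C = C * B)
    (hf : ∀ i j, l.getD i 0 = l.getD j 0 → cf l B i j 0 = 0 ∧ cf l C i j 0 = 0)
    (hn : ∀ m, cf l B 0 0 m = 0 ∧ cf l C 0 0 m = 0)
    (hs : ∀ i j m, cf l B i j m = 0 ↔ cf l C i j m = 0) : Rels l (cf l B) (cf l C) where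
  out i j m h := ⟨cf_out h, cf_out h⟩
  outj i j m h := ⟨cf_out' h, cf_out' h⟩
  low i j m h := ⟨cf_zero hB h, cf_zero hC h⟩
  lev := hf
  nrm := hn
  syn := hs
  rel i j m hi hj hm := by
    rw [getD_eq hi] at hm
    rw [← cf_mul hB hi hj hm (hl _), ← cf_mul hC hi hj hm (hl _), hBC]

/-- normal form of a maximal bad triple -/
theorem exists_nrm {k : Type*} [Field k] [Infinite k] [Algebra k K] {ρ : ℕ → ℕ}
    {T : Fin 3 → Matrix (IxL l) (IxL l) K} (hT : MaxR ρ T) (h0 : T 0 = JU K l)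
    (hfo : ∀ M ∈ adj T, ∀ i j, l.getD i 0 = l.getD j 0 → cf l M i j 0 = 0) :
    ∃ B C : Matrix (IxL l) (IxL l) K, MaxR ρ ![JU K l, B, C] ∧
      (∀ m, cf l B 0 0 m = 0 ∧ cf l C 0 0 m = 0) ∧
      (∀ i j m, cf l B i j m = 0 ↔ cf l C i j m = 0) ∧
      (∀ i j, l.getD i 0 = l.getD j 0 → cf l B i j 0 = 0 ∧ cf l C i j 0 = 0) ∧
      Set.range (co T) ⊆ FF k (coef l B C ∪
        Set.range fun q : Fin 2 × Fin (l.getD 0 0 - 1) => cf l (T q.1.succ) 0 0 (q.2 + 1)) := by
  have hJ : JU K l ∈ adj T := h0 ▸ mem_adj T 0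
  have hJq : ∀ q, JU K l ^ (q + 1) ∈ adj T := by
    intro q
    induction q with
    | zero => rw [zero_add, pow_one]; exact hJ
    | succ q ih => rw [pow_succ]; exact mul_mem ih hJ
  have hpol : ∀ M ∈ adj T, pol l M ∈ adj T := by
    intro M hM
    unfold pol
    refine sum_mem fun q _ => ?_
    cases q with
    | zero => rw [hfo M hM 0 0 rfl, zero_smul]; exact zero_mem _
    | succ q => exact SMulMemClass.smul_mem _ (hJq q)
  have hpn : ∀ (M : Matrix (IxL l) (IxL l) K) m, cf l (M - pol l M) 0 0 m = 0 := by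
    intro M m
    rw [cf_sub, cf_pol]
    by_cases h : m < l.getD 0 0
    · rw [if_pos ⟨rfl, h⟩, sub_self]
    · rw [if_neg (fun h' => h h'.2), sub_zero, cf_out (by omega)]
  obtain ⟨s, hs⟩ := exists_gen (k := k) (fun x : IxL l × IxL l => (T 1 - pol l (T 1)) x.1 x.2)
    (fun x => (T 2 - pol l (T 2)) x.1 x.2)
  set B := (T 1 - pol l (T 1)) + algebraMap k K s • (T 2 - pol l (T 2)) with hBdef
  obtain ⟨t, ht⟩ := exists_gen (k := k) (fun x : IxL l × IxL l => (T 2 - pol l (T 2)) x.1 x.2)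
    (fun x => B x.1 x.2)
  set C := (T 2 - pol l (T 2)) + algebraMap k K t • B with hCdef
  have hB1 : T 1 - pol l (T 1) ∈ adj T := sub_mem (mem_adj T 1) (hpol _ (mem_adj T 1))
  have hC1 : T 2 - pol l (T 2) ∈ adj T := sub_mem (mem_adj T 2) (hpol _ (mem_adj T 2))
  have hB : B ∈ adj T := add_mem hB1 (SMulMemClass.smul_mem _ hC1)
  have hC : C ∈ adj T := add_mem hC1 (SMulMemClass.smul_mem _ hB)
  have hBC : ∀ x y, B x y = 0 ↔ C x y = 0 := by
    intro x y
    constructor
    · intro h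
      have h1 := hs (x, y) h
      show (T 2 - pol l (T 2)) x y + algebraMap k K t * B x y = 0
      rw [h, mul_zero, add_zero]
      exact h1.2
    · intro h
      exact (ht (x, y) h).2
  -- the triple
  have hm : ∀ i, (![JU K l, B, C] : Fin 3 → Matrix (IxL l) (IxL l) K) i ∈ adj T := by
    intro i
    fin_cases i
    · exact hJ
    · exact hB
    · exact hC
  have m0 : JU K l ∈ adj ![JU K l, B, C] := mem_adj ![JU K l, B, C] 0
  have m1 : B ∈ adj ![JU K l, B, C] := mem_adj ![JU K l, B, C] 1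
  have m2 : C ∈ adj ![JU K l, B, C] := mem_adj ![JU K l, B, C] 2
  have hJq' : ∀ q, JU K l ^ (q + 1) ∈ adj ![JU K l, B, C] := by
    intro q
    induction q with
    | zero => rw [zero_add, pow_one]; exact m0
    | succ q ih => rw [pow_succ]; exact mul_mem ih m0
  have hpol' : ∀ M ∈ adj T, pol l M ∈ adj ![JU K l, B, C] := by
    intro M hM
    unfold pol
    refine sum_mem fun q _ => ?_
    cases q with
    | zero => rw [hfo M hM 0 0 rfl, zero_smul]; exact zero_mem _
    | succ q => exact SMulMemClass.smul_mem _ (hJq' q)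
  have hC1' : T 2 - pol l (T 2) ∈ adj ![JU K l, B, C] := by
    have : T 2 - pol l (T 2) = C - algebraMap k K t • B := by rw [hCdef]; abel
    rw [this]
    exact sub_mem m2 (SMulMemClass.smul_mem _ m1)
  have hB1' : T 1 - pol l (T 1) ∈ adj ![JU K l, B, C] := by
    have : T 1 - pol l (T 1) = B - algebraMap k K s • (T 2 - pol l (T 2)) := by rw [hBdef]; abel
    rw [this]
    exact sub_mem m1 (SMulMemClass.smul_mem _ hC1')
  have hmax : MaxR ρ ![JU K l, B, C] := by
    refine hT.change (hT.cn.of_adj hm) fun i => ?_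
    fin_cases i
    · show T 0 ∈ _
      rw [h0]
      exact m0
    · show T 1 ∈ _
      have : T 1 = (T 1 - pol l (T 1)) + pol l (T 1) := by abel
      rw [this]
      exact add_mem hB1' (hpol' _ (mem_adj T 1))
    · show T 2 ∈ _
      have : T 2 = (T 2 - pol l (T 2)) + pol l (T 2) := by abel
      rw [this]
      exact add_mem hC1' (hpol' _ (mem_adj T 2))
  refine ⟨B, C, hmax, fun m => ?_, fun i j m => ?_, fun i j h => ⟨hfo B hB i j h, hfo C hC i j h⟩, ?_⟩
  · have h1 : cf l B 0 0 m = 0 := by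
      rw [hBdef, cf_add, cf_smul, hpn, hpn, mul_zero, add_zero]
    refine ⟨h1, ?_⟩
    rw [hCdef, cf_add, cf_smul, hpn, h1, mul_zero, add_zero]
  · rcases cf_cases (K := K) l i j m with ⟨x, y, h⟩ | h
    · rw [h, h]
      exact hBC x y
    · rw [h, h]
  -- the entries
  set U : Set K := coef l B C ∪
    Set.range fun q : Fin 2 × Fin (l.getD 0 0 - 1) => cf l (T q.1.succ) 0 0 (q.2 + 1) with hU
  have uB : ∀ i j m, cf l B i j m ∈ FF k U := fun i j m =>
    subset_FF U (Or.inl ⟨i, j, m, Or.inl rfl⟩)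
  have uC : ∀ i j m, cf l C i j m ∈ FF k U := fun i j m =>
    subset_FF U (Or.inl ⟨i, j, m, Or.inr rfl⟩)
  have uP : ∀ (a : Fin 2) m, cf l (T a.succ) 0 0 m ∈ FF k U := by
    intro a m
    cases m with
    | zero => rw [hfo _ (mem_adj T _) 0 0 rfl]; exact zero_mem _
    | succ m =>
      by_cases h : m < l.getD 0 0 - 1
      · exact subset_FF U (Or.inr ⟨(a, ⟨m, h⟩), rfl⟩)
      · rw [cf_out (by omega)]
        exact zero_mem _
  have us : algebraMap k K s ∈ FF k U := (FF k U).algebraMap_mem s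
  have ut : algebraMap k K t ∈ FF k U := (FF k U).algebraMap_mem t
  have uC1 : ∀ i j m, cf l (T 2 - pol l (T 2)) i j m ∈ FF k U := by
    intro i j m
    have : T 2 - pol l (T 2) = C - algebraMap k K t • B := by rw [hCdef]; abel
    rw [this, cf_sub, cf_smul]
    exact sub_mem (uC i j m) (mul_mem ut (uB i j m))
  have uB1 : ∀ i j m, cf l (T 1 - pol l (T 1)) i j m ∈ FF k U := by
    intro i j m
    have : T 1 - pol l (T 1) = B - algebraMap k K s • (T 2 - pol l (T 2)) := by rw [hBdef]; abel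
    rw [this, cf_sub, cf_smul]
    exact sub_mem (uB i j m) (mul_mem us (uC1 i j m))
  have uT : ∀ (a : Fin 2) i j m, cf l (T a.succ) i j m ∈ FF k U := by
    intro a i j m
    have h1 : cf l (T a.succ) i j m = cf l (T a.succ - pol l (T a.succ)) i j m +
        cf l (pol l (T a.succ)) i j m := by rw [cf_sub]; ring
    rw [h1]
    refine add_mem ?_ ?_
    · fin_cases a
      · exact uB1 i j m
      · exact uC1 i j m
    · rw [cf_pol]
      split_ifs
      · exact uP a m
      · exact zero_mem _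
  rintro _ ⟨⟨i, x, y⟩, rfl⟩
  show T i x y ∈ FF k U
  by_cases hi : i = 0
  · subst hi
    rw [h0]
    unfold JU
    rw [Matrix.of_apply]
    split_ifs
    · exact one_mem _
    · exact zero_mem _
  · obtain ⟨a, rfl⟩ := Fin.exists_succ_eq.2 hi
    have hc : JU K l * T a.succ = T a.succ * JU K l := by
      have h1 := hT.cn.1 0 a.succ
      rwa [h0] at h1
    have h2 := toep hc x y
    rw [show T a.succ x y = _ from h2]
    split_ifs
    · exact uT a _ _ _
    · exact zero_mem _

end Cert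

end Pool.Agent.Lib.D13
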