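import Pool.Agent.Lib.D13.Fdc

/-!
# MP_5dcbc3_ag: integer certificates for the density criterion

`cert_of_sol`: the condition `Cert w N0 X m` follows from solutions for a set of coordinates which
determine the solutions of the linearised commutation equations.
-/

namespace Pool.Agent.Lib.D13

open Matrix Pool.Agent.Lib.Q5dc Pool.Agent.Lib.D7

variable {k : Type*} [Field k] {ι : Type*} [Fintype ι] [DecidableEq ι]

theorem poly_comm {N0 A B : Matrix ι ι k}
    (hA : ∃ p : Polynomial k, p.coeff 0 = 0 ∧ A = Polynomial.aeval N0 p)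
    (hB : ∃ p : Polynomial k, p.coeff 0 = 0 ∧ B = Polynomial.aeval N0 p) : A * B = B * A := by
  obtain ⟨p, -, rfl⟩ := hA
  obtain ⟨q, -, rfl⟩ := hB
  rw [← map_mul, ← map_mul, mul_comm]

theorem poly_sum {N0 : Matrix ι ι k} {β : Type*} (s : Finset β) (c : β → k)
    (a : β → Matrix ι ι k)
    (h : ∀ b ∈ s, ∃ p : Polynomial k, p.coeff 0 = 0 ∧ a b = Polynomial.aeval N0 p) :
    ∃ p : Polynomial k, p.coeff 0 = 0 ∧ ∑ b ∈ s, c b • a b = Polynomial.aeval N0 p := by
  classical
  induction s using Finset.induction_on with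
  | empty => exact ⟨0, by simp, by simp⟩
  | insert x s hx ih =>
    obtain ⟨p, hp0, hp⟩ := h x (Finset.mem_insert_self _ _)
    obtain ⟨q, hq0, hq⟩ := ih fun b hb => h b (Finset.mem_insert_of_mem hb)
    refine ⟨Polynomial.C (c x) * p + q, by simp [hp0, hq0], ?_⟩
    rw [Finset.sum_insert hx, map_add, map_mul, Polynomial.aeval_C, ← hp, ← hq,
      ← Algebra.smul_def]

/-- solutions for a determining set of coordinates are enough -/
theorem cert_of_sol {w : ι → ℕ} {N0 : Matrix ι ι k} {X : Fin 3 → Matrix ι ι k} {m : ℕ}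
    (hX : ∀ i, ∃ p : Polynomial k, p.coeff 0 = 0 ∧ X i = Polynomial.aeval N0 p)
    (hdeg : ∀ i x y, w y + 2 ≤ w x → X i x y = 0) (Bc : Finset (Fin 3 × ι × ι))
    (inj : ∀ e : Fin 3 → Matrix ι ι k, (∀ i x y, w x < w y + m → e i x y = 0) →
      (∀ i j x z, w z + m + 1 ≤ w x →
        (X i * e j + e i * X j - X j * e i - e j * X i) x z = 0) →
      (∀ b ∈ Bc, e b.1 b.2.1 b.2.2 = 0) → ∀ i x y, w y + m ≤ w x → e i x y = 0)
    (D : k) (hD : D ≠ 0)
    (sol : ∀ b ∈ Bc, ∃ (N : Matrix ι ι k) (a : Fin 3 → Matrix ι ι k),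
      (∀ i, ∃ p : Polynomial k, p.coeff 0 = 0 ∧ a i = Polynomial.aeval N0 p) ∧
      ∀ b' ∈ Bc, (X b'.1 * N - N * X b'.1 + a b'.1) b'.2.1 b'.2.2 = if b' = b then D else 0) :
    Cert w N0 X m := by
  classical
  intro e he hce
  choose! N a ha hs using sol
  set c : Fin 3 × ι × ι → k := fun b => D⁻¹ * e b.1 b.2.1 b.2.2 with hc
  set N' : Matrix ι ι k := ∑ b ∈ Bc, c b • N b with hN'
  set a' : Fin 3 → Matrix ι ι k := fun i => ∑ b ∈ Bc, c b • a b i with ha'
  have ha'' : ∀ i, ∃ p : Polynomial k, p.coeff 0 = 0 ∧ a' i = Polynomial.aeval N0 p := fun i =>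
    poly_sum Bc c (fun b => a b i) fun b hb => ha b hb i
  refine ⟨N', a', ha'', ?_⟩
  set R : Fin 3 → Matrix ι ι k := fun i => X i * N' - N' * X i + a' i with hR
  have hval : ∀ b ∈ Bc, R b.1 b.2.1 b.2.2 = e b.1 b.2.1 b.2.2 := by
    intro b' hb'
    have h1 : R b'.1 = ∑ b ∈ Bc, c b • (X b'.1 * N b - N b * X b'.1 + a b b'.1) := by
      simp only [hR, hN', ha', Matrix.mul_sum, Matrix.sum_mul, Matrix.mul_smul, Matrix.smul_mul,
        smul_add, smul_sub, Finset.sum_add_distrib, Finset.sum_sub_distrib]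
    rw [h1, Matrix.sum_apply, Finset.sum_eq_single b']
    · rw [Matrix.smul_apply, hs b' hb' b' hb', if_pos rfl, smul_eq_mul, hc]
      field_simp
    · intro b hb hbb
      rw [Matrix.smul_apply, hs b hb b' hb', if_neg (Ne.symm hbb), smul_zero]
    · intro h
      exact absurd hb' h
  -- the full matrices satisfy the linearised equations
  have hfull : ∀ i j, X i * R j + R i * X j - X j * R i - R j * X i = 0 := by
    intro i j
    have h1 := poly_comm (hX i) (hX j)
    have h2 := poly_comm (hX i) (ha'' j)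
    have h3 := poly_comm (hX j) (ha'' i)
    have e1 : X i * R j + R i * X j - X j * R i - R j * X i =
        (X i * X j - X j * X i) * N' - N' * (X i * X j - X j * X i) + (X i * a' j - a' j * X i) -
          (X j * a' i - a' i * X j) := by
      simp only [hR]
      noncomm_ring
    rw [e1, h1, h2, h3]
    simp
  set E : Fin 3 → Matrix ι ι k := fun i => Matrix.of fun x y =>
    if w y + m ≤ w x then R i x y - e i x y else 0 with hE
  have hEa : ∀ i x y, E i x y = if w y + m ≤ w x then R i x y - e i x y else 0 := fun _ _ _ => rfl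
  have hE0 := inj E (by
    intro i x y hxy
    rw [hEa, if_neg (by omega)]) (by
    intro i j x z hxz
    have key : ∀ i j, (X i * E j) x z = (X i * R j) x z - (X i * e j) x z := by
      intro i j
      rw [Matrix.mul_apply, Matrix.mul_apply, Matrix.mul_apply, ← Finset.sum_sub_distrib]
      refine Finset.sum_congr rfl fun y _ => ?_
      by_cases h : w y + 2 ≤ w x
      · rw [hdeg i x y h]
        ring
      · rw [hEa, if_pos (by omega)]
        ring
    have key' : ∀ i j, (E i * X j) x z = (R i * X j) x z - (e i * X j) x z := by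
      intro i j
      rw [Matrix.mul_apply, Matrix.mul_apply, Matrix.mul_apply, ← Finset.sum_sub_distrib]
      refine Finset.sum_congr rfl fun y _ => ?_
      by_cases h : w z + 2 ≤ w y
      · rw [hdeg j y z h]
        ring
      · rw [hEa, if_pos (by omega)]
        ring
    have h1 := congrFun (congrFun (hfull i j) x) z
    have h2 := hce i j x z hxz
    simp only [Matrix.sub_apply, Matrix.add_apply, Matrix.zero_apply] at h1 h2 ⊢
    rw [key, key', key, key']
    linear_combination h1 - h2) (by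
    intro b hb
    rw [hEa]
    split_ifs
    · rw [hval b hb, sub_self]
    · rfl)
  intro i x y hxy
  have h1 := hE0 i x y hxy
  rw [hEa, if_pos hxy, sub_eq_zero] at h1
  exact h1

/-! ### integer data -/

section Int

variable {d : ℕ}

/-- matrix given by a list of rows -/
def lm (L : List (List ℤ)) (i j : Fin d) : ℤ := (L.getD i []).getD j 0

/-- value of a sparse solution (`sN`: entries of `N`; `sq`: coefficients of powers of `N0`) -/
def val (Xz : Fin 3 → Fin d → Fin d → ℤ) (Pz : ℕ → Fin d → Fin d → ℤ)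
    (sN : List (Fin d × Fin d × ℤ)) (sq : List (Fin 3 × ℕ × ℤ)) (b : Fin 3 × Fin d × Fin d) : ℤ :=
  (sN.map fun t => (if t.2.1 = b.2.2 then Xz b.1 b.2.1 t.1 * t.2.2 else 0) -
    (if t.1 = b.2.1 then t.2.2 * Xz b.1 t.2.1 b.2.2 else 0)).sum +
  (sq.map fun t => if t.1 = b.1 then t.2.2 * Pz t.2.1 b.2.1 b.2.2 else 0).sum

/-- the matrix of a sparse solution -/
def matN (k : Type*) [Field k] (sN : List (Fin d × Fin d × ℤ)) : Matrix (Fin d) (Fin d) k :=
  (sN.map fun t => Matrix.single t.1 t.2.1 (t.2.2 : k)).sum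

/-- the polynomial part of a sparse solution -/
def matQ (Pk : ℕ → Matrix (Fin d) (Fin d) k) (sq : List (Fin 3 × ℕ × ℤ)) (i : Fin 3) :
    Matrix (Fin d) (Fin d) k :=
  (sq.map fun t => if t.1 = i then (t.2.2 : k) • Pk t.2.1 else 0).sum

/-- the matrix over the field -/
def mk (k : Type*) [Field k] (M : Fin d → Fin d → ℤ) : Matrix (Fin d) (Fin d) k :=
  Matrix.of fun x y => (M x y : k)

theorem mk_mul (A B C : Fin d → Fin d → ℤ) (h : ∀ x y, C x y = ∑ z, A x z * B z y) :
    mk k C = mk k A * mk k B := by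
  ext x y
  rw [Matrix.mul_apply]
  simp only [mk, Matrix.of_apply, h, Int.cast_sum, Int.cast_mul]

theorem val_eq (Xz : Fin 3 → Fin d → Fin d → ℤ) (Pz : ℕ → Fin d → Fin d → ℤ)
    (sN : List (Fin d × Fin d × ℤ)) (sq : List (Fin 3 × ℕ × ℤ)) (b : Fin 3 × Fin d × Fin d) :
    (mk k (Xz b.1) * matN k sN - matN k sN * mk k (Xz b.1) +
      matQ (fun m => mk k (Pz m)) sq b.1) b.2.1 b.2.2 = (val Xz Pz sN sq b : k) := by
  obtain ⟨i, x, y⟩ := b
  have h1 : (mk k (Xz i) * matN k sN - matN k sN * mk k (Xz i)) x y =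
      ((sN.map fun t => (if t.2.1 = y then Xz i x t.1 * t.2.2 else 0) -
        (if t.1 = x then t.2.2 * Xz i t.2.1 y else 0)).sum : ℤ) := by
    induction sN with
    | nil => simp [matN]
    | cons t s ih =>
      have e1 : matN k (t :: s) = Matrix.single t.1 t.2.1 (t.2.2 : k) + matN k s := by
        simp [matN]
      rw [e1, Matrix.mul_add, Matrix.add_mul, add_sub_add_comm, Matrix.add_apply, ih,
        List.map_cons, List.sum_cons, Int.cast_add]
      congr 1
      rw [Matrix.sub_apply]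
      push_cast
      congr 1
      · by_cases h : t.2.1 = y
        · subst h
          rw [Matrix.mul_single_apply_same, if_pos rfl]
          rfl
        · rw [if_neg h, Matrix.mul_single_apply_of_ne _ _ _ _ _ (Ne.symm h)]
      · by_cases h : t.1 = x
        · subst h
          rw [Matrix.single_mul_apply_same, if_pos rfl]
          rfl
        · rw [if_neg h, Matrix.single_mul_apply_of_ne _ _ _ _ _ (Ne.symm h)]
  have h2 : matQ (fun m => mk k (Pz m)) sq i x y =
      ((sq.map fun t => if t.1 = i then t.2.2 * Pz t.2.1 x y else 0).sum : ℤ) := by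
    induction sq with
    | nil => simp [matQ]
    | cons t s ih =>
      have e1 : matQ (fun m => mk k (Pz m)) (t :: s) i =
          (if t.1 = i then (t.2.2 : k) • mk k (Pz t.2.1) else 0) +
            matQ (fun m => mk k (Pz m)) s i := by
        simp [matQ]
      rw [e1, Matrix.add_apply, ih, List.map_cons, List.sum_cons, Int.cast_add]
      congr 1
      by_cases h : t.1 = i
      · rw [if_pos h, if_pos h, Matrix.smul_apply, smul_eq_mul, Int.cast_mul]
        rfl
      · rw [if_neg h, if_neg h]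
        simp
  rw [Matrix.add_apply]
  simp only at h1 h2 ⊢
  rw [h1, h2, val, Int.cast_add]

/-- coefficient of the coordinate `u` in the linearised equation -/
def cEq (Xz : Fin 3 → Fin d → Fin d → ℤ) (i j : Fin 3) (x z : Fin d)
    (u : Fin 3 × Fin d × Fin d) : ℤ :=
  (if u.1 = j ∧ u.2.2 = z then Xz i x u.2.1 else 0) +
  (if u.1 = i ∧ u.2.1 = x then Xz j u.2.2 z else 0) -
  (if u.1 = i ∧ u.2.2 = z then Xz j x u.2.1 else 0) -
  (if u.1 = j ∧ u.2.1 = x then Xz i u.2.2 z else 0)

theorem cEq_eq (Xz : Fin 3 → Fin d → Fin d → ℤ) (i j : Fin 3) (x z : Fin d)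
    (e : Fin 3 → Matrix (Fin d) (Fin d) k) :
    (mk k (Xz i) * e j + e i * mk k (Xz j) - mk k (Xz j) * e i - e j * mk k (Xz i)) x z =
      ∑ u : Fin 3 × Fin d × Fin d, (cEq Xz i j x z u : k) * e u.1 u.2.1 u.2.2 := by
  have h1 : ∀ (A : Fin d → Fin d → ℤ) (j : Fin 3), (mk k A * e j) x z =
      ∑ u : Fin 3 × Fin d × Fin d,
        ((if u.1 = j ∧ u.2.2 = z then A x u.2.1 else 0 : ℤ) : k) * e u.1 u.2.1 u.2.2 := by
    intro A j
    rw [Fintype.sum_prod_type, Finset.sum_eq_single j]
    · rw [Fintype.sum_prod_type, Matrix.mul_apply]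
      refine Finset.sum_congr rfl fun y _ => ?_
      rw [Finset.sum_eq_single z]
      · simp [mk]
      · intro b _ hb
        simp [hb]
      · simp
    · intro b _ hb
      simp [hb]
    · simp
  have h2 : ∀ (A : Fin d → Fin d → ℤ) (j : Fin 3), (e j * mk k A) x z =
      ∑ u : Fin 3 × Fin d × Fin d,
        ((if u.1 = j ∧ u.2.1 = x then A u.2.2 z else 0 : ℤ) : k) * e u.1 u.2.1 u.2.2 := by
    intro A j
    rw [Fintype.sum_prod_type, Finset.sum_eq_single j]
    · rw [Fintype.sum_prod_type, Finset.sum_eq_single x]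
      · rw [Matrix.mul_apply]
        refine Finset.sum_congr rfl fun y _ => ?_
        simp [mk, mul_comm]
      · intro b _ hb
        simp [hb]
      · simp
    · intro b _ hb
      simp [hb]
    · simp
  simp only [Matrix.sub_apply, Matrix.add_apply]
  rw [h1 (Xz i) j, h2 (Xz j) i, h1 (Xz j) i, h2 (Xz i) j, ← Finset.sum_add_distrib,
    ← Finset.sum_sub_distrib, ← Finset.sum_sub_distrib]
  refine Finset.sum_congr rfl fun u _ => ?_
  rw [cEq]
  push_cast
  ring

theorem exists_zip {α β : Type*} {A : List α} {B : List β} (h : A.length = B.length) {a : α}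
    (ha : a ∈ A) : ∃ b, (a, b) ∈ A.zip B := by
  obtain ⟨n, hn, rfl⟩ := List.getElem_of_mem ha
  refine ⟨B[n]'(h ▸ hn), ?_⟩
  rw [List.mem_iff_getElem]
  exact ⟨n, by rw [List.length_zip, ← h, min_self]; exact hn, by simp⟩

/-- **integer certificates** for the density criterion -/
theorem cert_int [CharZero k] (w : Fin d → ℕ) (m : ℕ) (Xz : Fin 3 → Fin d → Fin d → ℤ)
    (Pz : ℕ → Fin d → Fin d → ℤ) (D D' : ℤ) (hD : D ≠ 0) (hD' : D' ≠ 0)
    (hP : ∀ n < d - 1, ∀ x y, Pz (n + 1) x y = ∑ z, Pz n x z * Pz 0 z y)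
    (xc : Fin 3 → List (ℕ × ℤ))
    (hX : ∀ i, (∀ t ∈ xc i, t.1 < d) ∧
      ∀ x y, Xz i x y = ((xc i).map fun t => t.2 * Pz t.1 x y).sum)
    (hdeg : ∀ i x y, w y + 2 ≤ w x → Xz i x y = 0)
    (BL NB : List (Fin 3 × Fin d × Fin d))
    (sols : List (List (Fin d × Fin d × ℤ) × List (Fin 3 × ℕ × ℤ)))
    (deps : List (List (Fin 3 × Fin 3 × Fin d × Fin d × ℤ)))
    (hl : BL.length = sols.length) (hl' : NB.length = deps.length)
    (hs : ∀ p ∈ BL.zip sols, (∀ t ∈ p.2.2, t.2.1 < d) ∧ ∀ b' ∈ BL,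
      val Xz Pz p.2.1 p.2.2 b' = if b' = p.1 then D else 0)
    (hd : ∀ p ∈ NB.zip deps, (∀ t ∈ p.2, w t.2.2.2.1 + m + 1 ≤ w t.2.2.1) ∧ ∀ u ∈ NB,
      (p.2.map fun t => t.2.2.2.2 * cEq Xz t.1 t.2.1 t.2.2.1 t.2.2.2.1 u).sum =
        if u = p.1 then D' else 0)
    (hc : ∀ i x y, w y + m ≤ w x → (i, x, y) ∈ BL ∨ (i, x, y) ∈ NB) :
    (∀ i, ∃ p : Polynomial k, p.coeff 0 = 0 ∧ mk k (Xz i) = Polynomial.aeval (mk k (Pz 0)) p) ∧
    (∀ i x y, w y + 2 ≤ w x → mk k (Xz i) x y = 0) ∧
    Cert w (mk k (Pz 0)) (fun i => mk k (Xz i)) m := by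
  classical
  have hpow : ∀ n < d, mk k (Pz n) = mk k (Pz 0) ^ (n + 1) := by
    intro n hn
    induction n with
    | zero => rw [zero_add, pow_one]
    | succ n ih => rw [mk_mul _ _ _ (hP n (by omega)), ih (by omega), ← pow_succ]
  have hX' : ∀ i, ∃ p : Polynomial k, p.coeff 0 = 0 ∧
      mk k (Xz i) = Polynomial.aeval (mk k (Pz 0)) p := by
    intro i
    obtain ⟨h1, h2⟩ := hX i
    have h3 : mk k (Xz i) = ((xc i).map fun t => (t.2 : k) • mk k (Pz t.1)).sum := by
      ext x y
      have h4 : ((xc i).map fun t => (t.2 : k) • mk k (Pz t.1)).sum x y =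
          (((xc i).map fun t => t.2 * Pz t.1 x y).sum : ℤ) := by
        generalize xc i = l
        induction l with
        | nil => simp
        | cons t s ih =>
          rw [List.map_cons, List.sum_cons, Matrix.add_apply, ih, List.map_cons, List.sum_cons,
            Int.cast_add, Int.cast_mul]
          rfl
      rw [h4, ← h2]
      rfl
    rw [h3]
    generalize xc i = l at h1
    induction l with
    | nil => exact ⟨0, by simp, by simp⟩
    | cons t s ih =>
      obtain ⟨p, hp0, hp⟩ := ih fun t ht => h1 t (List.mem_cons_of_mem _ ht)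
      refine ⟨Polynomial.C (t.2 : k) * Polynomial.X ^ (t.1 + 1) + p, by simp [hp0], ?_⟩
      rw [List.map_cons, List.sum_cons, hp, map_add, map_mul, map_pow, Polynomial.aeval_C,
        Polynomial.aeval_X, hpow t.1 (h1 t List.mem_cons_self), ← Algebra.smul_def]
  have hdeg' : ∀ i x y, w y + 2 ≤ w x → mk k (Xz i) x y = 0 := by
    intro i x y h
    simp only [mk, Matrix.of_apply, hdeg i x y h, Int.cast_zero]
  refine ⟨hX', hdeg', ?_⟩
  refine cert_of_sol hX' hdeg' BL.toFinset ?_ (D : k) (Int.cast_ne_zero.2 hD) ?_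
  · intro e hsup hcom hB i x y hxy
    rcases hc i x y hxy with h | h
    · exact hB _ (List.mem_toFinset.2 h)
    · obtain ⟨dep, hdep⟩ := exists_zip hl' h
      obtain ⟨h1, h2⟩ := hd _ hdep
      have h3 : (dep.map fun t => (t.2.2.2.2 : k) * ∑ u : Fin 3 × Fin d × Fin d,
          (cEq Xz t.1 t.2.1 t.2.2.1 t.2.2.2.1 u : k) * e u.1 u.2.1 u.2.2).sum = 0 := by
        refine List.sum_eq_zero fun v hv => ?_
        obtain ⟨t, ht, rfl⟩ := List.mem_map.1 hv
        rw [← cEq_eq, hcom t.1 t.2.1 t.2.2.1 t.2.2.2.1 (h1 t ht), mul_zero]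
      have h4 : ∀ l : List (Fin 3 × Fin 3 × Fin d × Fin d × ℤ),
          (l.map fun t => (t.2.2.2.2 : k) * ∑ u : Fin 3 × Fin d × Fin d,
            (cEq Xz t.1 t.2.1 t.2.2.1 t.2.2.2.1 u : k) * e u.1 u.2.1 u.2.2).sum =
          ∑ u : Fin 3 × Fin d × Fin d, (((l.map fun t => t.2.2.2.2 *
            cEq Xz t.1 t.2.1 t.2.2.1 t.2.2.2.1 u).sum : ℤ) : k) * e u.1 u.2.1 u.2.2 := by
        intro l
        induction l with
        | nil => simp
        | cons t s ih =>
          rw [List.map_cons, List.sum_cons, ih, Finset.mul_sum, ← Finset.sum_add_distrib]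
          refine Finset.sum_congr rfl fun u _ => ?_
          rw [List.map_cons, List.sum_cons]
          push_cast
          ring
      rw [h4, Finset.sum_eq_single (i, x, y)] at h3
      · rw [h2 _ h, if_pos rfl] at h3
        exact (mul_eq_zero.1 h3).resolve_left (Int.cast_ne_zero.2 hD')
      · intro u _ hu
        by_cases hw : w u.2.2 + m ≤ w u.2.1
        · rcases hc u.1 u.2.1 u.2.2 hw with h' | h'
          · rw [hB _ (List.mem_toFinset.2 h'), mul_zero]
          · rw [h2 _ h', if_neg hu, Int.cast_zero, zero_mul]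
        · rw [hsup u.1 u.2.1 u.2.2 (by omega), mul_zero]
      · intro h'
        exact absurd (Finset.mem_univ _) h'
  · intro b hb
    obtain ⟨sl, hsl⟩ := exists_zip hl (List.mem_toFinset.1 hb)
    obtain ⟨h1, h2⟩ := hs _ hsl
    refine ⟨matN k sl.1, matQ (fun m => mk k (Pz m)) sl.2, ?_, ?_⟩
    · intro i
      simp only at h1
      rw [matQ]
      generalize sl.2 = l at h1
      induction l with
      | nil => exact ⟨0, by simp, by simp⟩
      | cons t s ih =>
        obtain ⟨p, hp0, hp⟩ := ih fun t ht => h1 t (List.mem_cons_of_mem _ ht)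
        rw [List.map_cons, List.sum_cons, hp]
        by_cases h : t.1 = i
        · refine ⟨Polynomial.C (t.2.2 : k) * Polynomial.X ^ (t.2.1 + 1) + p, by simp [hp0], ?_⟩
          rw [if_pos h, map_add, map_mul, map_pow, Polynomial.aeval_C, Polynomial.aeval_X,
            hpow t.2.1 (h1 t List.mem_cons_self), ← Algebra.smul_def]
        · exact ⟨p, hp0, by rw [if_neg h, zero_add]⟩
    · intro b' hb'
      have h3 := h2 b' (List.mem_toFinset.1 hb')
      rw [val_eq, h3]
      split_ifs <;> simp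

/-- the nilpotency of the base point -/
theorem nil_int [CharZero k] (Pz : ℕ → Fin (d + 1) → Fin (d + 1) → ℤ)
    (hP : ∀ n < d, ∀ x y, Pz (n + 1) x y = ∑ z, Pz n x z * Pz 0 z y)
    (h0 : ∀ x y, Pz d x y = 0) (x y : Fin (d + 1)) (h1 : Pz (d - 1) x y ≠ 0) (hd : 1 ≤ d) :
    mk k (Pz 0) ^ Fintype.card (Fin (d + 1)) = 0 ∧
      mk k (Pz 0) ^ (Fintype.card (Fin (d + 1)) - 1) ≠ 0 := by
  have hpow : ∀ n ≤ d, mk k (Pz n) = mk k (Pz 0) ^ (n + 1) := by
    intro n hn
    induction n with
    | zero => rw [zero_add, pow_one]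
    | succ n ih => rw [mk_mul _ _ _ (hP n (by omega)), ih (by omega), ← pow_succ]
  rw [Fintype.card_fin]
  constructor
  · rw [← hpow d le_rfl]
    ext x y
    simp [mk, h0]
  · obtain ⟨e, rfl⟩ : ∃ e, d = e + 1 := ⟨d - 1, by omega⟩
    simp only [Nat.add_sub_cancel] at h1 ⊢
    rw [← hpow e (by omega)]
    intro h
    have h2 := congrFun (congrFun h x) y
    simp only [mk, Matrix.of_apply, Matrix.zero_apply, Int.cast_eq_zero] at h2
    exact h1 h2

end Int

end Pool.Agent.Lib.D13
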