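import Pool.Agent.Lib.D13.Mono

/-!
# MP_5dcbc3_ag: a checker for counting certificates

The unknowns are numbered: `v (2 * i)` is the coordinate with the code `i` of `B` and
`v (2 * i + 1)` the same coordinate of `C`; one of them vanishes if and only if the other one does.
A system consists of quadratic relations. A certificate is a tree: at a node one distinguishes
whether the coordinate `i` vanishes; at a leaf there are base variables, weights for the other ones,
and relations whose leading monomials have pairwise disjoint supports (or a relation with a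
single term, which is not zero). Then the transcendence degree of `k(v)` is at most `N`.
-/

namespace Pool.Agent.Lib.D13

open Matrix

namespace Tree

/-- quadratic relations between the unknowns with codes in `vars`; a term `(i, j, s)` is
`s * v i * v j` -/
structure Sys where
  vars : List ℕ
  rels : List (List (ℕ × ℕ × ℤ))

/-- case trees: `leaf A w ch` has the base variables `A`, the weights `w`, the chosen relations with
their leading terms `ch`; `contra m` is closed by the relation `m`; `node i` has the branches `v ≠ 0`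
and `v = 0` for the coordinate `i` -/
inductive Tr
  | leaf : ℕ → ℕ → List (ℕ × ℕ × ℕ) → Tr
  | contra : ℕ → Tr
  | node : ℕ → Tr → Tr → Tr

/-- positive weights coded in a number -/
def wt (w n : ℕ) : ℕ := (w >>> (10 * n)) % 1024 + 1

/-- the weight of a variable, `0` for base variables -/
def wv (A w n : ℕ) : ℕ := bif Nat.testBit A n then 0 else wt w n

/-- `n`-th entry -/
def nth {α : Type} : List (List α) → ℕ → List α
  | [], _ => []
  | a :: _, 0 => a
  | _ :: l, n + 1 => nth l n

/-- all terms except one term with the indices `(i0, j0)` have smaller weight than this term -/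
def ckR (Z A w i0 j0 : ℕ) : List (ℕ × ℕ × ℤ) → Bool → Bool
  | [], f => f
  | (i, j, s) :: R, f =>
    bif Nat.testBit Z (i / 2) || Nat.testBit Z (j / 2) then ckR Z A w i0 j0 R f else
      bif Nat.beq i i0 && Nat.beq j j0 then
        (!f && !(decide (s = 0)) && ckR Z A w i0 j0 R true)
      else (Nat.blt (wv A w i + wv A w j) (wv A w i0 + wv A w j0) && ckR Z A w i0 j0 R f)

/-- exactly one term remains and it is not zero -/
def ckC (Z U : ℕ) : List (ℕ × ℕ × ℤ) → Bool → Bool
  | [], f => f
  | (i, j, s) :: R, f =>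
    bif Nat.testBit Z (i / 2) || Nat.testBit Z (j / 2) then ckC Z U R f else
      (!f && !(decide (s = 0)) && Nat.testBit U (i / 2) && Nat.testBit U (j / 2) && ckC Z U R true)

/-- the variable `i` is a base variable or does not occur in the leading monomial of `q` -/
def sep (A i : ℕ) (q : ℕ × ℕ × ℕ) : Bool :=
  Nat.testBit A i || (!(Nat.beq i q.2.1) && !(Nat.beq i q.2.2))

/-- the supports of the chosen monomials are disjoint -/
def ckD (A : ℕ) : List (ℕ × ℕ × ℕ) → Bool
  | [] => true
  | (_, i, j) :: L => (L.all fun q => sep A i q && sep A j q) && ckD A L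

/-- the variables -/
def Sys.vs (S : Sys) (Z : ℕ) : List ℕ :=
  (S.vars.filter fun i => !Nat.testBit Z i).flatMap fun i => [2 * i, 2 * i + 1]

/-- a variable of a leading monomial -/
def okv (V : List ℕ) (U A n : ℕ) : Bool :=
  V.contains n && (!Nat.testBit A n || Nat.testBit U (n / 2))

/-- the check of a leaf -/
def Sys.ckLeaf (S : Sys) (N Z U A w : ℕ) (ch : List (ℕ × ℕ × ℕ)) : Bool :=
  Nat.ble (S.vs Z).length (N + ch.length) && ckD A ch &&
    (ch.all fun q => okv (S.vs Z) U A q.2.1 && okv (S.vs Z) U A q.2.2 && !(Nat.beq q.2.1 q.2.2) &&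
      !(Nat.testBit A q.2.1 && Nat.testBit A q.2.2) &&
      ckR Z A w q.2.1 q.2.2 (nth S.rels q.1) false)

/-- the check of a tree -/
def Sys.ck (S : Sys) (N : ℕ) : ℕ → ℕ → Tr → Bool
  | Z, U, .leaf A w ch => S.ckLeaf N Z U A w ch
  | Z, U, .contra m => ckC Z U (nth S.rels m) false
  | Z, U, .node i nz ze => S.ck N Z (U ||| 2 ^ i) nz && S.ck N (Z ||| 2 ^ i) U ze

/-- the check with the coordinates in `Z` equal to zero -/
def Sys.checkZ (S : Sys) (N Z : ℕ) (t : Tr) : Bool := S.ck N Z 0 t

/-- the check -/
def Sys.check (S : Sys) (N : ℕ) (t : Tr) : Bool := S.checkZ N 0 t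

variable {k K : Type*} [Field k] [Field K] [Algebra k K]

/-- the value of a relation -/
def evR (v : ℕ → K) (R : List (ℕ × ℕ × ℤ)) : K :=
  (R.map fun q => (q.2.2 : K) * v q.1 * v q.2.1).sum

section leaf

variable (S : Sys) (Z A w : ℕ) (v : ℕ → K)

/-- the variables with positive weight at a leaf -/
abbrev SF (S : Sys) (Z A : ℕ) : Type :=
  {n : ℕ // n ∈ ((S.vs Z).filter fun n => !Nat.testBit A n).toFinset}

/-- the values of the variables -/
def vx : SF S Z A → K := fun n => v n

/-- the weights of the variables -/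
def vw (w : ℕ) : SF S Z A → ℕ := fun n => wt w n

/-- the base variables -/
def tU : Set K := {y | ∃ n ∈ (S.vs Z).filter fun n => Nat.testBit A n, y = v n}

variable {S Z A w v}

theorem low_smul {D : ℕ} {a y : K} (ha : a ∈ FF k (tU S Z A v))
    (hy : y ∈ Mono.Low (FF k (tU S Z A v)) (vx S Z A v) (vw S Z A w) D) :
    a * y ∈ Mono.Low (FF k (tU S Z A v)) (vx S Z A v) (vw S Z A w) D :=
  (Mono.Low (FF k (tU S Z A v)) (vx S Z A v) (vw S Z A w) D).smul_mem
    (⟨a, ha⟩ : FF k (tU S Z A v)) hy

theorem mem_vs {n : ℕ} : n ∈ S.vs Z ↔ n / 2 ∈ S.vars ∧ Nat.testBit Z (n / 2) = false := by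
  simp only [Sys.vs, List.mem_flatMap, List.mem_filter, Bool.not_eq_true', List.mem_cons,
    List.not_mem_nil, or_false]
  constructor
  · rintro ⟨i, ⟨h1, h2⟩, h3 | h3⟩
    · rw [h3, show 2 * i / 2 = i by omega]
      exact ⟨h1, h2⟩
    · rw [h3, show (2 * i + 1) / 2 = i by omega]
      exact ⟨h1, h2⟩
  · rintro ⟨h1, h2⟩
    exact ⟨n / 2, ⟨h1, h2⟩, by omega⟩

theorem base_mem {n : ℕ} (hn : n ∈ S.vs Z) (hA : Nat.testBit A n = true) :
    v n ∈ FF k (tU S Z A v) :=
  mem_FF_self ⟨n, by simp [hn, hA], rfl⟩

/-- a term of small weight -/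
theorem term_low (hv : ∀ n, n / 2 ∉ S.vars → v n = 0) {i j : ℕ} (s : ℤ) {D : ℕ}
    (hi : Nat.testBit Z (i / 2) = false) (hj : Nat.testBit Z (j / 2) = false)
    (hD : wv A w i + wv A w j < D) :
    (s : K) * v i * v j ∈ Mono.Low (FF k (tU S Z A v)) (vx S Z A v) (vw S Z A w) D := by
  by_cases hiv : i / 2 ∈ S.vars
  swap
  · rw [hv i hiv, mul_zero, zero_mul]
    exact zero_mem _
  by_cases hjv : j / 2 ∈ S.vars
  swap
  · rw [hv j hjv, mul_zero]
    exact zero_mem _
  have hs : (s : K) ∈ FF k (tU S Z A v) := intCast_mem _ s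
  have hi' : i ∈ S.vs Z := mem_vs.2 ⟨hiv, hi⟩
  have hj' : j ∈ S.vs Z := mem_vs.2 ⟨hjv, hj⟩
  have hm : ∀ n, n ∈ S.vs Z → Nat.testBit A n = false →
      n ∈ ((S.vs Z).filter fun n => !Nat.testBit A n).toFinset := fun n h1 h2 => by
    simp [h1, h2]
  rw [mul_assoc]
  refine low_smul hs ?_
  cases hAi : Nat.testBit A i with
  | true =>
    cases hAj : Nat.testBit A j with
    | true =>
      have h1 : v i * v j ∈ FF k (tU S Z A v) := mul_mem (base_mem hi' hAi) (base_mem hj' hAj)
      have h2 := Mono.algebraMap_mem_low (k := FF k (tU S Z A v)) (vx S Z A v) (vw S Z A w)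
        (n := D) (by omega) (⟨_, h1⟩ : FF k (tU S Z A v))
      exact h2
    | false =>
      refine low_smul (base_mem hi' hAi) ?_
      simp only [wv, hAi, hAj, cond_true, cond_false, zero_add] at hD
      exact Mono.var_mem_low (k := FF k (tU S Z A v)) (vx S Z A v) (vw S Z A w)
        ⟨j, hm j hj' hAj⟩ hD
  | false =>
    cases hAj : Nat.testBit A j with
    | true =>
      rw [mul_comm]
      refine low_smul (base_mem hj' hAj) ?_
      simp only [wv, hAi, hAj, cond_true, cond_false, add_zero] at hD
      exact Mono.var_mem_low (k := FF k (tU S Z A v)) (vx S Z A v) (vw S Z A w)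
        ⟨i, hm i hi' hAi⟩ hD
    | false =>
      simp only [wv, hAi, hAj, cond_false] at hD
      exact Mono.mul_mem_low (k := FF k (tU S Z A v)) (vx S Z A v) (vw S Z A w)
        ⟨i, hm i hi' hAi⟩ ⟨j, hm j hj' hAj⟩ hD

omit [Field k] [Algebra k K] in
theorem evR_cons (i j : ℕ) (s : ℤ) (R : List (ℕ × ℕ × ℤ)) :
    evR v ((i, j, s) :: R) = (s : K) * v i * v j + evR v R := by
  simp [evR]

omit [Field k] [Algebra k K] in
theorem term_zero (hZ : ∀ n, Nat.testBit Z (n / 2) = true → v n = 0) {i j : ℕ} (s : ℤ)
    (hz : (Nat.testBit Z (i / 2) || Nat.testBit Z (j / 2)) = true) :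
    (s : K) * v i * v j = 0 := by
  rcases Bool.or_eq_true_iff.1 hz with h1 | h1
  · rw [hZ i h1, mul_zero, zero_mul]
  · rw [hZ j h1, mul_zero]

/-- the relation without the leading term -/
theorem ckR_low (hv : ∀ n, n / 2 ∉ S.vars → v n = 0)
    (hZ : ∀ n, Nat.testBit Z (n / 2) = true → v n = 0) {i0 j0 : ℕ}
    (R : List (ℕ × ℕ × ℤ)) (f : Bool) (h : ckR Z A w i0 j0 R f = true) :
    if f = true then evR v R ∈ Mono.Low (FF k (tU S Z A v)) (vx S Z A v) (vw S Z A w)
      (wv A w i0 + wv A w j0) else
      ∃ s : ℤ, s ≠ 0 ∧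
        evR v R - (s : K) * v i0 * v j0 ∈ Mono.Low (FF k (tU S Z A v)) (vx S Z A v) (vw S Z A w)
          (wv A w i0 + wv A w j0) := by
  induction R generalizing f with
  | nil =>
    rw [ckR] at h
    rw [if_pos h]
    simp [evR]
  | cons q R ih =>
    obtain ⟨i, j, s⟩ := q
    rw [ckR] at h
    rw [evR_cons]
    cases hz : (Nat.testBit Z (i / 2) || Nat.testBit Z (j / 2)) with
    | true =>
      rw [hz, cond_true] at h
      rw [term_zero hZ s hz, zero_add]
      exact ih f h
    | false =>
      rw [hz, cond_false] at h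
      obtain ⟨hzi, hzj⟩ := Bool.or_eq_false_iff.1 hz
      cases hl : (Nat.beq i i0 && Nat.beq j j0) with
      | true =>
        rw [hl, cond_true] at h
        obtain ⟨h1, h2⟩ := Bool.and_eq_true_iff.1 hl
        obtain rfl := Nat.eq_of_beq_eq_true h1
        obtain rfl := Nat.eq_of_beq_eq_true h2
        simp only [Bool.and_eq_true, Bool.not_eq_true', decide_eq_false_iff_not] at h
        obtain ⟨⟨hf, hs⟩, hR⟩ := h
        have h3 := ih true hR
        rw [if_pos rfl] at h3
        rw [if_neg (by simp [hf])]
        refine ⟨s, hs, ?_⟩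
        rw [add_sub_cancel_left]
        exact h3
      | false =>
        rw [hl, cond_false] at h
        simp only [Bool.and_eq_true] at h
        obtain ⟨hw, hR⟩ := h
        have hw' : wv A w i + wv A w j < wv A w i0 + wv A w j0 := by
          simpa [Nat.blt_eq] using hw
        have ht := term_low (k := k) hv s hzi hzj hw'
        have h3 := ih f hR
        cases f with
        | true =>
          rw [if_pos rfl] at h3 ⊢
          exact add_mem ht h3
        | false =>
          rw [if_neg (by simp)] at h3 ⊢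
          obtain ⟨s', hs', h4⟩ := h3
          refine ⟨s', hs', ?_⟩
          rw [add_sub_assoc]
          exact add_mem ht h4

omit [Field k] [Algebra k K] in
/-- a relation with a single term -/
theorem ckC_ne [CharZero K] {U : ℕ} (hZ : ∀ n, Nat.testBit Z (n / 2) = true → v n = 0)
    (hU : ∀ n, Nat.testBit U (n / 2) = true → v n ≠ 0)
    (R : List (ℕ × ℕ × ℤ)) (f : Bool) (h : ckC Z U R f = true) :
    if f = true then evR v R = 0 else evR v R ≠ 0 := by
  induction R generalizing f with
  | nil =>
    rw [ckC] at h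
    rw [if_pos h]
    simp [evR]
  | cons q R ih =>
    obtain ⟨i, j, s⟩ := q
    rw [ckC] at h
    rw [evR_cons]
    cases hz : (Nat.testBit Z (i / 2) || Nat.testBit Z (j / 2)) with
    | true =>
      rw [hz, cond_true] at h
      rw [term_zero hZ s hz, zero_add]
      exact ih f h
    | false =>
      rw [hz, cond_false] at h
      simp only [Bool.and_eq_true, Bool.not_eq_true', decide_eq_false_iff_not] at h
      obtain ⟨⟨⟨⟨hf, hs⟩, hi⟩, hj⟩, hR⟩ := h
      have h3 := ih true hR
      rw [if_pos rfl] at h3
      rw [if_neg (by simp [hf]), h3, add_zero]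
      have hs' : (s : K) ≠ 0 := by exact_mod_cast hs
      exact mul_ne_zero (mul_ne_zero hs' (hU _ hi)) (hU _ hj)

/-- the support of the chosen monomial -/
def supp (S : Sys) (Z A : ℕ) (q : ℕ × ℕ × ℕ) : Finset (SF S Z A) :=
  Finset.univ.filter fun a => (a : ℕ) = q.2.1 ∨ (a : ℕ) = q.2.2

theorem mem_supp {q : ℕ × ℕ × ℕ} {a : SF S Z A} :
    a ∈ supp S Z A q ↔ (a : ℕ) = q.2.1 ∨ (a : ℕ) = q.2.2 := by
  simp [supp]

theorem SF_not (a : SF S Z A) : Nat.testBit A a = false := by
  have h := a.2
  simp only [List.mem_toFinset, List.mem_filter, Bool.not_eq_true'] at h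
  exact h.2

/-- sums and products over the support -/
theorem supp_cases {q : ℕ × ℕ × ℕ} (hi : q.2.1 ∈ S.vs Z) (hj : q.2.2 ∈ S.vs Z)
    (hne : q.2.1 ≠ q.2.2) (hA : ¬ (Nat.testBit A q.2.1 = true ∧ Nat.testBit A q.2.2 = true)) :
    (supp S Z A q).Nonempty ∧
    ∏ a ∈ supp S Z A q, vx S Z A v a = (if Nat.testBit A q.2.1 = true then 1 else v q.2.1) *
      (if Nat.testBit A q.2.2 = true then 1 else v q.2.2) ∧
    ∑ a ∈ supp S Z A q, vw S Z A w a = wv A w q.2.1 + wv A w q.2.2 := by
  have hm : ∀ n, n ∈ S.vs Z → Nat.testBit A n = false →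
      n ∈ ((S.vs Z).filter fun n => !Nat.testBit A n).toFinset := fun n h1 h2 => by
    simp [h1, h2]
  cases hAi : Nat.testBit A q.2.1 with
  | true =>
    have hAj : Nat.testBit A q.2.2 = false := by
      cases h : Nat.testBit A q.2.2 with
      | true => exact absurd ⟨hAi, h⟩ hA
      | false => rfl
    have h1 : supp S Z A q = {⟨q.2.2, hm _ hj hAj⟩} := by
      ext a
      rw [mem_supp, Finset.mem_singleton, Subtype.ext_iff]
      constructor
      · rintro (h | h)
        · have h2 := SF_not a
          rw [h, hAi] at h2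
          exact absurd h2 (by simp)
        · exact h
      · exact Or.inr
    rw [h1]
    refine ⟨Finset.singleton_nonempty _, ?_, ?_⟩
    · rw [Finset.prod_singleton, if_pos rfl, if_neg (by simp [hAj]), one_mul]
      rfl
    · rw [Finset.sum_singleton, wv, hAi, cond_true, zero_add, wv, hAj, cond_false]
      rfl
  | false =>
    cases hAj : Nat.testBit A q.2.2 with
    | true =>
      have h1 : supp S Z A q = {⟨q.2.1, hm _ hi hAi⟩} := by
        ext a
        rw [mem_supp, Finset.mem_singleton, Subtype.ext_iff]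
        constructor
        · rintro (h | h)
          · exact h
          · have h2 := SF_not a
            rw [h, hAj] at h2
            exact absurd h2 (by simp)
        · exact Or.inl
      rw [h1]
      refine ⟨Finset.singleton_nonempty _, ?_, ?_⟩
      · rw [Finset.prod_singleton, if_pos rfl, if_neg (by simp), mul_one]
        rfl
      · rw [Finset.sum_singleton, wv, hAi, cond_false, wv, hAj, cond_true, add_zero]
        rfl
    | false =>
      have h1 : supp S Z A q = {⟨q.2.1, hm _ hi hAi⟩, ⟨q.2.2, hm _ hj hAj⟩} := by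
        ext a
        rw [mem_supp, Finset.mem_insert, Finset.mem_singleton, Subtype.ext_iff, Subtype.ext_iff]
      have h2 : (⟨q.2.1, hm _ hi hAi⟩ : SF S Z A) ≠ ⟨q.2.2, hm _ hj hAj⟩ := by
        intro h
        exact hne (congrArg Subtype.val h)
      rw [h1]
      refine ⟨⟨_, Finset.mem_insert_self _ _⟩, ?_, ?_⟩
      · rw [Finset.prod_pair h2, if_neg (by simp), if_neg (by simp)]
        rfl
      · rw [Finset.sum_pair h2, wv, hAi, cond_false, wv, hAj, cond_false]
        rfl

/-- the chosen monomial times a unit of the base field is a combination of smaller ones -/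
theorem lead_mem [CharZero K] {U : ℕ} (hv : ∀ n, n / 2 ∉ S.vars → v n = 0)
    (hZ : ∀ n, Nat.testBit Z (n / 2) = true → v n = 0)
    (hU : ∀ n, Nat.testBit U (n / 2) = true → v n ≠ 0) {q : ℕ × ℕ × ℕ}
    {R : List (ℕ × ℕ × ℤ)} (hR : evR v R = 0)
    (h1 : okv (S.vs Z) U A q.2.1 = true) (h2 : okv (S.vs Z) U A q.2.2 = true)
    (hne : q.2.1 ≠ q.2.2) (hA : ¬ (Nat.testBit A q.2.1 = true ∧ Nat.testBit A q.2.2 = true))
    (h3 : ckR Z A w q.2.1 q.2.2 R false = true) :
    ∃ u ∈ FF k (tU S Z A v), u ≠ 0 ∧ u * ∏ a ∈ supp S Z A q, vx S Z A v a ∈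
      Mono.Low (FF k (tU S Z A v)) (vx S Z A v) (vw S Z A w)
        (∑ a ∈ supp S Z A q, vw S Z A w a) := by
  have h4 := ckR_low (k := k) (A := A) (w := w) hv hZ R false h3
  rw [if_neg (by simp)] at h4
  obtain ⟨s, hs, h5⟩ := h4
  have hs' : (s : K) ≠ 0 := by exact_mod_cast hs
  rw [hR, zero_sub] at h5
  have h6 : (s : K) * v q.2.1 * v q.2.2 ∈
      Mono.Low (FF k (tU S Z A v)) (vx S Z A v) (vw S Z A w) (wv A w q.2.1 + wv A w q.2.2) := by
    have := neg_mem h5
    rwa [neg_neg] at this
  simp only [okv, Bool.and_eq_true, Bool.or_eq_true, Bool.not_eq_true'] at h1 h2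
  have hi : q.2.1 ∈ S.vs Z := List.contains_iff_mem.1 h1.1
  have hj : q.2.2 ∈ S.vs Z := List.contains_iff_mem.1 h2.1
  obtain ⟨-, h7, h8⟩ := supp_cases (v := v) (w := w) hi hj hne hA
  rw [h7, h8]
  refine ⟨(s : K) * ((if Nat.testBit A q.2.1 = true then v q.2.1 else 1) *
    (if Nat.testBit A q.2.2 = true then v q.2.2 else 1)), ?_, ?_, ?_⟩
  · refine mul_mem (intCast_mem _ s) (mul_mem ?_ ?_)
    · split_ifs with h
      · exact base_mem hi h
      · exact one_mem _
    · split_ifs with h
      · exact base_mem hj h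
      · exact one_mem _
  · refine mul_ne_zero hs' (mul_ne_zero ?_ ?_)
    · split_ifs with h
      · rcases h1.2 with h9 | h9
        · rw [h] at h9
          exact absurd h9 (by simp)
        · exact hU _ h9
      · exact one_ne_zero
    · split_ifs with h
      · rcases h2.2 with h9 | h9
        · rw [h] at h9
          exact absurd h9 (by simp)
        · exact hU _ h9
      · exact one_ne_zero
  · have h9 : (s : K) * ((if Nat.testBit A q.2.1 = true then v q.2.1 else 1) *
        (if Nat.testBit A q.2.2 = true then v q.2.2 else 1)) *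
        ((if Nat.testBit A q.2.1 = true then 1 else v q.2.1) *
        (if Nat.testBit A q.2.2 = true then 1 else v q.2.2)) = (s : K) * v q.2.1 * v q.2.2 := by
      split_ifs <;> ring
    rw [h9]
    exact h6

theorem ckD_pairwise {ch : List (ℕ × ℕ × ℕ)} (h : ckD A ch = true) :
    ch.Pairwise fun q q' => sep A q.2.1 q' = true ∧ sep A q.2.2 q' = true := by
  induction ch with
  | nil => exact List.Pairwise.nil
  | cons q L ih =>
    obtain ⟨m, i, j⟩ := q
    rw [ckD, Bool.and_eq_true, List.all_eq_true] at h
    refine List.Pairwise.cons (fun q' hq' => ?_) (ih h.2)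
    have h1 := h.1 q' hq'
    rwa [Bool.and_eq_true] at h1

theorem supp_disjoint {q q' : ℕ × ℕ × ℕ}
    (h : sep A q.2.1 q' = true ∧ sep A q.2.2 q' = true) :
    Disjoint (supp S Z A q) (supp S Z A q') := by
  rw [Finset.disjoint_left]
  intro a ha ha'
  rw [mem_supp] at ha ha'
  have key : ∀ n, sep A n q' = true → (a : ℕ) = n → False := by
    intro n h1 h2
    simp only [sep, Bool.or_eq_true, Bool.and_eq_true, Bool.not_eq_true'] at h1
    rcases h1 with h1 | ⟨h1, h3⟩
    · have h4 := SF_not a
      rw [h2, h1] at h4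
      exact absurd h4 (by simp)
    · rcases ha' with h4 | h4
      · rw [← h2, h4] at h1
        simp at h1
      · rw [← h2, h4] at h3
        simp at h3
  rcases ha with h1 | h1
  · exact key _ h.1 h1
  · exact key _ h.2 h1

/-- the range of the unknowns -/
theorem range_sub (hv : ∀ n, n / 2 ∉ S.vars → v n = 0)
    (hZ : ∀ n, Nat.testBit Z (n / 2) = true → v n = 0) :
    Set.range v ⊆ FF k (tU S Z A v ∪ Set.range (vx S Z A v)) := by
  rintro y ⟨n, rfl⟩
  by_cases hn : n / 2 ∈ S.vars
  swap
  · rw [hv n hn]
    exact zero_mem (FF k _)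
  cases hz : Nat.testBit Z (n / 2) with
  | true =>
    rw [hZ n hz]
    exact zero_mem (FF k _)
  | false =>
    have h1 : n ∈ S.vs Z := mem_vs.2 ⟨hn, hz⟩
    cases hA : Nat.testBit A n with
    | true => exact mem_FF_self (Or.inl ⟨n, by simp [h1, hA], rfl⟩)
    | false => exact mem_FF_self (Or.inr ⟨⟨n, by simp [h1, hA]⟩, rfl⟩)

omit [Field K] in
theorem tU_encard : (tU S Z A v).encard ≤
    (((S.vs Z).filter fun n => Nat.testBit A n).length : ℕ∞) := by
  have h : tU S Z A v = v '' (((S.vs Z).filter fun n => Nat.testBit A n).toFinset : Set ℕ) := by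
    ext y
    simp only [tU, Set.mem_ofPred_eq, Set.mem_image, Finset.mem_coe, List.mem_toFinset]
    constructor
    · rintro ⟨i, hi, rfl⟩
      exact ⟨i, hi, rfl⟩
    · rintro ⟨i, hi, rfl⟩
      exact ⟨i, hi, rfl⟩
  rw [h]
  refine (Set.encard_image_le _ _).trans ?_
  rw [Set.encard_coe_eq_coe_finsetCard]
  exact_mod_cast List.toFinset_card_le _

theorem filter_len (L : List ℕ) (p : ℕ → Bool) :
    (L.filter p).length + (L.filter fun n => !p n).length = L.length := by
  induction L with
  | nil => rfl
  | cons a L ih =>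
    cases h : p a <;> simp only [List.filter_cons, h, Bool.not_true, Bool.not_false, if_true,
      if_false, List.length_cons, Bool.false_eq_true] <;> omega

theorem nth_mem {α : Type} {L : List (List α)} {m : ℕ} : nth L m ∈ L ∨ nth L m = [] := by
  induction L generalizing m with
  | nil => exact Or.inr (by rw [nth])
  | cons a L ih =>
    cases m with
    | zero => exact Or.inl (by rw [nth]; simp)
    | succ m =>
      rw [nth]
      rcases ih (m := m) with h | h
      · exact Or.inl (List.mem_cons_of_mem _ h)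
      · exact Or.inr h

omit [Field k] [Algebra k K] in
theorem rel_zero (hR : ∀ R ∈ S.rels, evR v R = 0) (m : ℕ) : evR v (nth S.rels m) = 0 := by
  rcases nth_mem (L := S.rels) (m := m) with h1 | h1
  · exact hR _ h1
  · rw [h1]
    simp [evR]

theorem leaf_le [CharZero K] {U : ℕ} (N : ℕ) (ch : List (ℕ × ℕ × ℕ))
    (h : S.ckLeaf N Z U A w ch = true)
    (hv : ∀ n, n / 2 ∉ S.vars → v n = 0)
    (hR : ∀ R ∈ S.rels, evR v R = 0)
    (hZ : ∀ n, Nat.testBit Z (n / 2) = true → v n = 0)
    (hU : ∀ n, Nat.testBit U (n / 2) = true → v n ≠ 0) :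
    rk k (Set.range v) ≤ N := by
  simp only [Sys.ckLeaf, Bool.and_eq_true] at h
  obtain ⟨⟨hN, hD⟩, hch⟩ := h
  rw [List.all_eq_true] at hch
  have hN' := Nat.le_of_ble_eq_true hN
  have hpw := ckD_pairwise hD
  have hch' : ∀ q ∈ ch, okv (S.vs Z) U A q.2.1 = true ∧ okv (S.vs Z) U A q.2.2 = true ∧
      q.2.1 ≠ q.2.2 ∧ ¬ (Nat.testBit A q.2.1 = true ∧ Nat.testBit A q.2.2 = true) ∧
      ckR Z A w q.2.1 q.2.2 (nth S.rels q.1) false = true := by
    intro q hq
    have h1 := hch q hq
    simp only [Bool.and_eq_true] at h1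
    obtain ⟨⟨⟨⟨a1, a2⟩, a3⟩, a4⟩, a5⟩ := h1
    refine ⟨a1, a2, fun h => ?_, fun h => ?_, a5⟩
    · rw [h] at a3
      simp at a3
    · rw [h.1, h.2] at a4
      simp at a4
  have hvs : ∀ q ∈ ch, q.2.1 ∈ S.vs Z ∧ q.2.2 ∈ S.vs Z := by
    intro q hq
    obtain ⟨a1, a2, -⟩ := hch' q hq
    simp only [okv, Bool.and_eq_true] at a1 a2
    exact ⟨List.contains_iff_mem.1 a1.1, List.contains_iff_mem.1 a2.1⟩
  have key := rk_le_leaf (k := k) (tU S Z A v) (vx S Z A v) (vw S Z A w) (by
      intro a
      simp [vw, wt]) (ι := Fin ch.length) (fun i => supp S Z A (ch.get i)) (by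
      intro i
      have h1 := List.get_mem ch i
      obtain ⟨-, -, a3, a4, -⟩ := hch' _ h1
      exact (supp_cases (v := v) (w := w) (hvs _ h1).1 (hvs _ h1).2 a3 a4).1) (by
      intro i j hij
      rcases lt_or_gt_of_ne hij with h1 | h1
      · exact supp_disjoint (List.pairwise_iff_get.1 hpw i j h1)
      · exact (supp_disjoint (List.pairwise_iff_get.1 hpw j i h1)).symm) (by
      intro i
      obtain ⟨a1, a2, a3, a4, a5⟩ := hch' _ (List.get_mem ch i)
      exact lead_mem (k := k) hv hZ hU (rel_zero hR _) a1 a2 a3 a4 a5)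
  rw [Fintype.card_fin] at key
  have h1 : rk k (Set.range v) ≤ rk k (tU S Z A v ∪ Set.range (vx S Z A v)) :=
    rk_le (range_sub hv hZ)
  have h2 : rk k (tU S Z A v) ≤ (((S.vs Z).filter fun n => Nat.testBit A n).length : ℕ∞) :=
    (rk_le_encard _).trans tU_encard
  have h3 : Fintype.card (SF S Z A) ≤ ((S.vs Z).filter fun n => !Nat.testBit A n).length := by
    rw [Fintype.card_coe]
    exact List.toFinset_card_le _
  have h5 : ((S.vs Z).filter fun n => Nat.testBit A n).length +
      ((S.vs Z).filter fun n => !Nat.testBit A n).length = (S.vs Z).length :=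
    filter_len _ _
  have h4 : rk k (Set.range v) + (ch.length : ℕ∞) ≤ (N : ℕ∞) + ch.length := by
    calc rk k (Set.range v) + (ch.length : ℕ∞) ≤
        rk k (tU S Z A v) + Fintype.card (SF S Z A) := (by gcongr : _ ≤ _).trans key
      _ ≤ (((S.vs Z).filter fun n => Nat.testBit A n).length : ℕ∞) +
          (((S.vs Z).filter fun n => !Nat.testBit A n).length : ℕ∞) := by
        refine add_le_add h2 ?_
        exact_mod_cast h3
      _ ≤ (N : ℕ∞) + ch.length := by
        rw [← Nat.cast_add, h5]
        exact_mod_cast hN'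
  exact (ENat.add_le_add_iff_right (ENat.natCast_ne_top _)).1 h4

end leaf

theorem ck_le [CharZero K] (S : Sys) (N : ℕ) (t : Tr) {v : ℕ → K}
    (hv : ∀ n, n / 2 ∉ S.vars → v n = 0)
    (hs : ∀ i, v (2 * i) = 0 ↔ v (2 * i + 1) = 0)
    (hR : ∀ R ∈ S.rels, evR v R = 0) :
    ∀ Z U : ℕ, S.ck N Z U t = true →
    (∀ n, Nat.testBit Z (n / 2) = true → v n = 0) →
    (∀ n, Nat.testBit U (n / 2) = true → v n ≠ 0) →
    rk k (Set.range v) ≤ N := by
  have hpair : ∀ i n, n / 2 = i → (v n = 0 ↔ v (2 * i) = 0) := by
    intro i n h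
    obtain rfl | rfl : n = 2 * i ∨ n = 2 * i + 1 := by omega
    · exact Iff.rfl
    · exact (hs i).symm
  induction t with
  | leaf A w ch =>
    intro Z U h hZ hU
    exact leaf_le N ch h hv hR hZ hU
  | contra m =>
    intro Z U h hZ hU
    have h1 := ckC_ne hZ hU _ _ h
    rw [if_neg (by simp)] at h1
    exact absurd (rel_zero hR m) h1
  | node i nz ze ih1 ih2 =>
    intro Z U h hZ hU
    rw [Sys.ck, Bool.and_eq_true] at h
    by_cases hi : v (2 * i) = 0
    · refine ih2 _ _ h.2 (fun n hn => ?_) hU
      rw [Nat.testBit_or, Bool.or_eq_true, Nat.testBit_two_pow, decide_eq_true_eq] at hn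
      rcases hn with hn | hn
      · exact hZ n hn
      · exact (hpair i n hn.symm).2 hi
    · refine ih1 _ _ h.1 hZ (fun n hn => ?_)
      rw [Nat.testBit_or, Bool.or_eq_true, Nat.testBit_two_pow, decide_eq_true_eq] at hn
      rcases hn with hn | hn
      · exact hU n hn
      · exact fun h0 => hi ((hpair i n hn.symm).1 h0)

/-- soundness of the check with the coordinates in `Z` equal to zero -/
theorem rkZ_le [CharZero K] (S : Sys) (N Z : ℕ) (t : Tr) (h : S.checkZ N Z t = true) {v : ℕ → K}
    (hv : ∀ n, n / 2 ∉ S.vars → v n = 0) (hs : ∀ i, v (2 * i) = 0 ↔ v (2 * i + 1) = 0)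
    (hR : ∀ R ∈ S.rels, evR v R = 0) (hZ : ∀ n, Nat.testBit Z (n / 2) = true → v n = 0) :
    rk k (Set.range v) ≤ N :=
  ck_le S N t hv hs hR Z 0 h hZ (fun n hn => absurd hn (by simp))

/-- soundness of the check -/
theorem rk_le [CharZero K] (S : Sys) (N : ℕ) (t : Tr) (h : S.check N t = true) {v : ℕ → K}
    (hv : ∀ n, n / 2 ∉ S.vars → v n = 0) (hs : ∀ i, v (2 * i) = 0 ↔ v (2 * i + 1) = 0)
    (hR : ∀ R ∈ S.rels, evR v R = 0) : rk k (Set.range v) ≤ N :=
  rkZ_le S N 0 t h hv hs hR (fun n hn => absurd hn (by simp))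

/-- a general combination has zero coordinates only where both are zero -/
theorem exists_sync [Infinite k] {b c : ℕ → K} (F : Finset ℕ)
    (hb : ∀ i, i ∉ F → b i = 0 ∧ c i = 0) :
    ∃ s : k, ∀ i, b i + algebraMap k K s * c i = 0 → b i = 0 ∧ c i = 0 := by
  classical
  have hfin : {s : k | ∃ i ∈ F, c i ≠ 0 ∧ algebraMap k K s = -(b i) / c i}.Finite := by
    have h1 : {s : k | ∃ i ∈ F, c i ≠ 0 ∧ algebraMap k K s = -(b i) / c i} ⊆
        (algebraMap k K) ⁻¹' ((F.image fun i => -(b i) / c i : Finset K) : Set K) := by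
      rintro s ⟨i, hi, -, h⟩
      simp only [Set.mem_preimage, Finset.coe_image, Set.mem_image, Finset.mem_coe]
      exact ⟨i, hi, h.symm⟩
    exact (Set.Finite.preimage (algebraMap k K).injective.injOn (Finset.finite_toSet _)).subset h1
  obtain ⟨s, hs⟩ := hfin.infinite_compl.nonempty
  refine ⟨s, fun i h => ?_⟩
  by_cases hi : i ∈ F
  swap
  · exact hb i hi
  by_cases hc : c i = 0
  · rw [hc, mul_zero, add_zero] at h
    exact ⟨h, hc⟩
  · exfalso
    refine hs ⟨i, hi, hc, ?_⟩
    field_simp
    linear_combination h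

/-! ### the relations of the commutant of a Jordan matrix -/

/-- the length of the block `i` -/
def len (l : List ℕ) (i : ℕ) : ℕ := l.getD i 0

/-- the code of the coordinate `(i, j, r)`: generator of the block `j` to `x ^ r` times the generator
of the block `i` -/
def code (l : List ℕ) (i j r : ℕ) : ℕ := (i * l.length + j) * l.headD 0 + r

/-- the coordinates which can be different from zero -/
def valid (l : List ℕ) (i j r : ℕ) : Bool :=
  Nat.ble (len l i) (len l j + r) && (Nat.blt r (len l i) &&
    (!(Nat.beq (len l i) (len l j) && Nat.beq r 0) && !(Nat.beq i 0 && Nat.beq j 0)))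

/-- the terms of the coefficient `t` of the entry `(i, k)` of the commutator -/
def terms (l : List ℕ) (i k t : ℕ) : List (ℕ × ℕ × ℤ) :=
  (List.range l.length).flatMap fun j => bif Nat.beq i k && Nat.beq i j then [] else
    (List.range (t + 1)).flatMap fun r =>
      bif valid l i j r && valid l j k (t - r) then
        [(2 * code l i j r, 2 * code l j k (t - r) + 1, 1),
          (2 * code l j k (t - r), 2 * code l i j r + 1, -1)] else []

/-- the terms of the second order relation at the blocks `p`, `j` of equal size; `x`, `y` are `0` for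
`B` and `1` for `C` -/
def qterms (l : List ℕ) (p j x y : ℕ) : List (ℕ × ℕ × ℤ) :=
  (List.range l.length).flatMap fun q =>
    (bif Nat.beq (len l q + 1) (len l p) && (valid l p q 1 && valid l q j 0) then
      [(2 * code l p q 1 + x, 2 * code l q j 0 + y, (len l p : ℤ) - 1)] else []) ++
    (bif Nat.beq (len l q) (len l p + 1) && (valid l p q 0 && valid l q j 1) then
      [(2 * code l p q 0 + x, 2 * code l q j 1 + y, -((len l p : ℤ) + 1))] else [])

/-- the system of the list `l`: the relation with the number `(i * l.length + k) * l.headD 0 + t` is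
the coefficient `t` of the entry `(i, k)` of the commutator -/
def sys (l : List ℕ) : Sys where
  vars := (List.range l.length).flatMap fun i => (List.range l.length).flatMap fun j =>
    (List.range (l.headD 0)).flatMap fun r => bif valid l i j r then [code l i j r] else []
  rels := (List.range l.length).flatMap fun i => (List.range l.length).flatMap fun k =>
    (List.range (l.headD 0)).map fun t => bif Nat.blt t (len l i) then terms l i k t else []

/-- the system of the list `l` with the second order relations: these have the numbers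
`l.length ^ 2 * l.headD 0 + 3 * (p * l.length + j) + 0, 1, 2` -/
def sysM (l : List ℕ) : Sys where
  vars := (sys l).vars
  rels := (sys l).rels ++ (List.range l.length).flatMap fun p =>
    (List.range l.length).flatMap fun j => bif Nat.beq (len l p) (len l j) then
      [qterms l p j 0 0, qterms l p j 0 1 ++ qterms l p j 1 0, qterms l p j 1 1] else [[], [], []]

section

variable {l : List ℕ}

theorem mem_vars {n : ℕ} : n ∈ (sys l).vars ↔ ∃ i < l.length, ∃ j < l.length,
    ∃ r < l.headD 0, valid l i j r = true ∧ n = code l i j r := by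
  simp only [sys, List.mem_flatMap, List.mem_range]
  constructor
  · rintro ⟨i, hi, j, hj, r, hr, h⟩
    cases hv : valid l i j r with
    | false => rw [hv, cond_false] at h; simp at h
    | true =>
      rw [hv, cond_true, List.mem_singleton] at h
      exact ⟨i, hi, j, hj, r, hr, hv, h⟩
  · rintro ⟨i, hi, j, hj, r, hr, hv, h⟩
    refine ⟨i, hi, j, hj, r, hr, ?_⟩
    rw [hv, cond_true, List.mem_singleton]
    exact h

theorem digit {m a a' r r' : ℕ} (hr : r < m) (hr' : r' < m) (h : a * m + r = a' * m + r') :
    a = a' ∧ r = r' := by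
  rcases lt_trichotomy a a' with h1 | h1 | h1
  · have := Nat.mul_le_mul_right m (show a + 1 ≤ a' from h1)
    rw [add_mul, one_mul] at this
    omega
  · subst h1
    exact ⟨rfl, by omega⟩
  · have := Nat.mul_le_mul_right m (show a' + 1 ≤ a from h1)
    rw [add_mul, one_mul] at this
    omega

theorem code_inj {i j r i' j' r' : ℕ} (hj : j < l.length) (hj' : j' < l.length)
    (hr : r < l.headD 0) (hr' : r' < l.headD 0) (h : code l i j r = code l i' j' r') :
    i = i' ∧ j = j' ∧ r = r' := by
  obtain ⟨h1, h2⟩ := digit hr hr' h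
  obtain ⟨h3, h4⟩ := digit hj hj' h1
  exact ⟨h3, h4, h2⟩

open Classical in
/-- the values of the coordinates in the order of the codes -/
noncomputable def vals (l : List ℕ) (B : ℕ → ℕ → ℕ → K) (n : ℕ) : K :=
  if h : ∃ p : ℕ × ℕ × ℕ, p.1 < l.length ∧ p.2.1 < l.length ∧ p.2.2 < l.headD 0 ∧
    valid l p.1 p.2.1 p.2.2 = true ∧ n = code l p.1 p.2.1 p.2.2 then
    B h.choose.1 h.choose.2.1 h.choose.2.2 else 0

/-- the values of the variables -/
noncomputable def vv (l : List ℕ) (B C : ℕ → ℕ → ℕ → K) (n : ℕ) : K :=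
  if n % 2 = 0 then vals l B (n / 2) else vals l C (n / 2)

omit [Field k] [Algebra k K] in
theorem vals_code {B : ℕ → ℕ → ℕ → K} {i j r : ℕ} (hi : i < l.length) (hj : j < l.length)
    (hr : r < l.headD 0) (hv : valid l i j r = true) : vals l B (code l i j r) = B i j r := by
  have h : ∃ p : ℕ × ℕ × ℕ, p.1 < l.length ∧ p.2.1 < l.length ∧ p.2.2 < l.headD 0 ∧
      valid l p.1 p.2.1 p.2.2 = true ∧ code l i j r = code l p.1 p.2.1 p.2.2 :=
    ⟨(i, j, r), hi, hj, hr, hv, rfl⟩
  rw [vals, dif_pos h]
  obtain ⟨a1, a2, a3, -, a5⟩ := h.choose_spec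
  obtain ⟨e1, e2, e3⟩ := code_inj hj a2 hr a3 a5
  rw [← e1, ← e2, ← e3]

omit [Field k] [Algebra k K] in
theorem vals_not {B : ℕ → ℕ → ℕ → K} {n : ℕ} (h : n ∉ (sys l).vars) : vals l B n = 0 := by
  rw [vals, dif_neg]
  rintro ⟨p, h1, h2, h3, h4, h5⟩
  exact h (mem_vars.2 ⟨p.1, h1, p.2.1, h2, p.2.2, h3, h4, h5⟩)

omit [Field k] [Algebra k K] in
theorem vv_even (B C : ℕ → ℕ → ℕ → K) (n : ℕ) : vv l B C (2 * n) = vals l B n := by
  rw [vv, if_pos (by omega), show 2 * n / 2 = n by omega]

omit [Field k] [Algebra k K] in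
theorem vv_odd (B C : ℕ → ℕ → ℕ → K) (n : ℕ) : vv l B C (2 * n + 1) = vals l C n := by
  rw [vv, if_neg (by omega), show (2 * n + 1) / 2 = n by omega]

theorem valid_lt {i j r : ℕ} (h : valid l i j r = true) : r < len l i := by
  simp only [valid, Bool.and_eq_true] at h
  simpa [Nat.blt_eq] using h.2.1

omit [Field k] [Algebra k K] in
theorem evR_append (v : ℕ → K) (R R' : List (ℕ × ℕ × ℤ)) :
    evR v (R ++ R') = evR v R + evR v R' := by
  simp [evR]

omit [Field k] [Algebra k K] in
theorem evR_flatMap (v : ℕ → K) (f : ℕ → List (ℕ × ℕ × ℤ)) (n : ℕ) :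
    evR v ((List.range n).flatMap f) = ∑ j ∈ Finset.range n, evR v (f j) := by
  induction n with
  | zero => simp [evR]
  | succ n ih => rw [List.range_succ, List.flatMap_append, evR_append, ih, Finset.sum_range_succ]
                 simp

omit [Field k] [Algebra k K] in
/-- the relations of the system hold for commuting coordinate functions -/
theorem rels_zero {B C : ℕ → ℕ → ℕ → K} (hmax : ∀ i, len l i ≤ l.headD 0)
    (hB : ∀ i j r, i < l.length → j < l.length → valid l i j r = false → B i j r = 0)
    (hC : ∀ i j r, i < l.length → j < l.length → valid l i j r = false → C i j r = 0)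
    (hcomm : ∀ i k t, i < l.length → k < l.length → t < len l i →
      ∑ j ∈ Finset.range l.length, ∑ r ∈ Finset.range (t + 1),
        (B i j r * C j k (t - r) - C i j r * B j k (t - r)) = 0) :
    ∀ R ∈ (sys l).rels, evR (vv l B C) R = 0 := by
  intro R hR
  simp only [sys, List.mem_flatMap, List.mem_range, List.mem_map] at hR
  obtain ⟨i, hi, k', hk, t, ht, rfl⟩ := hR
  cases hti : Nat.blt t (len l i) with
  | false => rw [cond_false]; simp [evR]
  | true =>
    have hti' : t < len l i := by simpa [Nat.blt_eq] using hti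
    rw [cond_true, ← hcomm i k' t hi hk hti', terms, evR_flatMap]
    refine Finset.sum_congr rfl fun j hj => ?_
    rw [Finset.mem_range] at hj
    cases hd : (Nat.beq i k' && Nat.beq i j) with
    | true =>
      rw [cond_true]
      obtain ⟨h1, h2⟩ := Bool.and_eq_true_iff.1 hd
      obtain rfl := Nat.eq_of_beq_eq_true h1
      obtain rfl := Nat.eq_of_beq_eq_true h2
      have h3 : ∑ r ∈ Finset.range (t + 1), B i i r * C i i (t - r) =
          ∑ r ∈ Finset.range (t + 1), C i i r * B i i (t - r) := by
        rw [← Finset.sum_range_reflect]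
        refine Finset.sum_congr rfl fun r hr => ?_
        rw [Finset.mem_range] at hr
        rw [show t + 1 - 1 - r = t - r by omega, show t - (t - r) = r by omega, mul_comm]
      rw [Finset.sum_sub_distrib, h3, sub_self]
      simp [evR]
    | false =>
      rw [cond_false, evR_flatMap]
      refine Finset.sum_congr rfl fun r hr => ?_
      cases hv : (valid l i j r && valid l j k' (t - r)) with
      | true =>
        obtain ⟨h1, h2⟩ := Bool.and_eq_true_iff.1 hv
        have h3 := (valid_lt h1).trans_le (hmax i)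
        have h4 := (valid_lt h2).trans_le (hmax j)
        rw [cond_true, evR_cons, evR_cons, vv_even, vv_odd, vv_even, vv_odd,
          vals_code hi hj h3 h1, vals_code hj hk h4 h2, vals_code hi hj h3 h1,
          vals_code hj hk h4 h2]
        simp only [evR, List.map_nil, List.sum_nil]
        push_cast
        ring
      | false =>
        rw [cond_false]
        have h5 : B i j r * C j k' (t - r) - C i j r * B j k' (t - r) = 0 := by
          rcases Bool.and_eq_false_iff.1 hv with h1 | h1
          · rw [hB i j r hi hj h1, hC i j r hi hj h1]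
            ring
          · rw [hB j k' _ hj hk h1, hC j k' _ hj hk h1]
            ring
        rw [h5]
        simp [evR]

/-- the second order expression -/
noncomputable def quad (l : List ℕ) (X Y : ℕ → ℕ → ℕ → K) (p j : ℕ) : K :=
  ∑ q ∈ Finset.range l.length,
    ((if len l q + 1 = len l p then ((len l p : K) - 1) * X p q 1 * Y q j 0 else 0) -
      (if len l q = len l p + 1 then ((len l p : K) + 1) * X p q 0 * Y q j 1 else 0))

/-- the choice of one of two functions by a number -/
def sel (B C : ℕ → ℕ → ℕ → K) (x : ℕ) : ℕ → ℕ → ℕ → K := if x = 0 then B else C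

omit [Field k] [Algebra k K] in
theorem vv_sel {B C : ℕ → ℕ → ℕ → K} {x : ℕ} (hx : x < 2) (n : ℕ) :
    vv l B C (2 * n + x) = vals l (sel B C x) n := by
  obtain rfl | rfl : x = 0 ∨ x = 1 := by omega
  · exact vv_even B C n
  · exact vv_odd B C n

omit [Field k] [Algebra k K] in
theorem qterms_eq {B C : ℕ → ℕ → ℕ → K} (hmax : ∀ i, len l i ≤ l.headD 0)
    (hB : ∀ i j r, i < l.length → j < l.length → valid l i j r = false → B i j r = 0)
    (hC : ∀ i j r, i < l.length → j < l.length → valid l i j r = false → C i j r = 0)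
    {p j x y : ℕ} (hp : p < l.length) (hj : j < l.length) (hx : x < 2) (hy : y < 2) :
    evR (vv l B C) (qterms l p j x y) = quad l (sel B C x) (sel B C y) p j := by
  have hS : ∀ z i j r, i < l.length → j < l.length → valid l i j r = false →
      sel B C z i j r = 0 := by
    intro z i j r h1 h2 h3
    unfold sel
    split_ifs
    · exact hB i j r h1 h2 h3
    · exact hC i j r h1 h2 h3
  rw [qterms, evR_flatMap, quad]
  refine Finset.sum_congr rfl fun q hq => ?_
  rw [Finset.mem_range] at hq
  have ha : evR (vv l B C) (bif Nat.beq (len l q + 1) (len l p) &&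
      (valid l p q 1 && valid l q j 0) then
      [(2 * code l p q 1 + x, 2 * code l q j 0 + y, (len l p : ℤ) - 1)] else []) =
      if len l q + 1 = len l p then
        ((len l p : K) - 1) * sel B C x p q 1 * sel B C y q j 0 else 0 := by
    by_cases h1 : len l q + 1 = len l p
    · rw [if_pos h1, show Nat.beq (len l q + 1) (len l p) = true by rw [h1]; exact Nat.beq_refl _,
        Bool.true_and]
      cases hv : (valid l p q 1 && valid l q j 0) with
      | true =>
        obtain ⟨h2, h3⟩ := Bool.and_eq_true_iff.1 hv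
        rw [cond_true, evR_cons, vv_sel hx, vv_sel hy,
          vals_code hp hq ((valid_lt h2).trans_le (hmax p)) h2,
          vals_code hq hj ((valid_lt h3).trans_le (hmax q)) h3]
        simp [evR]
      | false =>
        rw [cond_false]
        rcases Bool.and_eq_false_iff.1 hv with h2 | h2
        · rw [hS _ _ _ _ hp hq h2]
          simp [evR]
        · rw [hS _ _ _ _ hq hj h2]
          simp [evR]
    · rw [if_neg h1]
      have h2 : Nat.beq (len l q + 1) (len l p) = false := by
        cases h : Nat.beq (len l q + 1) (len l p) with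
        | false => rfl
        | true => exact absurd (Nat.eq_of_beq_eq_true h) h1
      rw [h2, Bool.false_and, cond_false]
      simp [evR]
  have hb : evR (vv l B C) (bif Nat.beq (len l q) (len l p + 1) &&
      (valid l p q 0 && valid l q j 1) then
      [(2 * code l p q 0 + x, 2 * code l q j 1 + y, -((len l p : ℤ) + 1))] else []) =
      -(if len l q = len l p + 1 then
        ((len l p : K) + 1) * sel B C x p q 0 * sel B C y q j 1 else 0) := by
    by_cases h1 : len l q = len l p + 1
    · rw [if_pos h1, show Nat.beq (len l q) (len l p + 1) = true by rw [h1]; exact Nat.beq_refl _,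
        Bool.true_and]
      cases hv : (valid l p q 0 && valid l q j 1) with
      | true =>
        obtain ⟨h2, h3⟩ := Bool.and_eq_true_iff.1 hv
        rw [cond_true, evR_cons, vv_sel hx, vv_sel hy,
          vals_code hp hq ((valid_lt h2).trans_le (hmax p)) h2,
          vals_code hq hj ((valid_lt h3).trans_le (hmax q)) h3]
        simp only [evR, List.map_nil, List.sum_nil]
        push_cast
        ring
      | false =>
        rw [cond_false]
        rcases Bool.and_eq_false_iff.1 hv with h2 | h2
        · rw [hS _ _ _ _ hp hq h2]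
          simp [evR]
        · rw [hS _ _ _ _ hq hj h2]
          simp [evR]
    · rw [if_neg h1]
      have h2 : Nat.beq (len l q) (len l p + 1) = false := by
        cases h : Nat.beq (len l q) (len l p + 1) with
        | false => rfl
        | true => exact absurd (Nat.eq_of_beq_eq_true h) h1
      rw [h2, Bool.false_and, cond_false]
      simp [evR]
  rw [evR_append, ha, hb, ← sub_eq_add_neg]

omit [Field k] [Algebra k K] in
/-- the relations of the larger system -/
theorem relsM_zero {B C : ℕ → ℕ → ℕ → K} (hmax : ∀ i, len l i ≤ l.headD 0)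
    (hB : ∀ i j r, i < l.length → j < l.length → valid l i j r = false → B i j r = 0)
    (hC : ∀ i j r, i < l.length → j < l.length → valid l i j r = false → C i j r = 0)
    (hcomm : ∀ i k t, i < l.length → k < l.length → t < len l i →
      ∑ j ∈ Finset.range l.length, ∑ r ∈ Finset.range (t + 1),
        (B i j r * C j k (t - r) - C i j r * B j k (t - r)) = 0)
    (hBB : ∀ p j, p < l.length → j < l.length → len l p = len l j → quad l B B p j = 0)
    (hCC : ∀ p j, p < l.length → j < l.length → len l p = len l j → quad l C C p j = 0)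
    (hBC : ∀ p j, p < l.length → j < l.length → len l p = len l j →
      quad l B C p j + quad l C B p j = 0) :
    ∀ R ∈ (sysM l).rels, evR (vv l B C) R = 0 := by
  intro R hR
  rw [sysM] at hR
  simp only [List.mem_append, List.mem_flatMap, List.mem_range] at hR
  rcases hR with hR | ⟨p, hp, j, hj, hR⟩
  · exact rels_zero hmax hB hC hcomm R hR
  · cases he : Nat.beq (len l p) (len l j) with
    | false =>
      rw [he, cond_false] at hR
      simp only [List.mem_cons, List.not_mem_nil, or_false, or_self] at hR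
      rw [hR]
      simp [evR]
    | true =>
      have he' := Nat.eq_of_beq_eq_true he
      rw [he, cond_true] at hR
      simp only [List.mem_cons, List.not_mem_nil, or_false] at hR
      rcases hR with rfl | rfl | rfl
      · rw [qterms_eq hmax hB hC hp hj (by omega) (by omega)]
        exact hBB p j hp hj he'
      · rw [evR_append, qterms_eq hmax hB hC hp hj (by omega) (by omega),
          qterms_eq hmax hB hC hp hj (by omega) (by omega)]
        exact hBC p j hp hj he'
      · rw [qterms_eq hmax hB hC hp hj (by omega) (by omega)]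
        exact hCC p j hp hj he'

theorem rk_aux {S : Sys} (hSv : S.vars = (sys l).vars) [CharZero K]
    (hmax : ∀ i, len l i ≤ l.headD 0) (N Z : ℕ) (t : Tr)
    (h : S.checkZ N Z t = true) {B C : ℕ → ℕ → ℕ → K}
    (hB : ∀ i j r, i < l.length → j < l.length → valid l i j r = false → B i j r = 0)
    (hC : ∀ i j r, i < l.length → j < l.length → valid l i j r = false → C i j r = 0)
    (hs : ∀ i j r, i < l.length → j < l.length → (B i j r = 0 ↔ C i j r = 0))
    (hZ : ∀ i j r, i < l.length → j < l.length → r < l.headD 0 →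
      Nat.testBit Z (code l i j r) = true → B i j r = 0)
    (hR : ∀ R ∈ S.rels, evR (vv l B C) R = 0) :
    rk k ({y | ∃ i < l.length, ∃ j < l.length, ∃ r, y = B i j r} ∪
      {y | ∃ i < l.length, ∃ j < l.length, ∃ r, y = C i j r}) ≤ N := by
  have h2 : ∀ n, n / 2 ∉ S.vars → vv l B C n = 0 := by
    intro n hn
    rw [hSv] at hn
    obtain h3 | h3 : n = 2 * (n / 2) ∨ n = 2 * (n / 2) + 1 := by omega
    · rw [h3, vv_even]
      exact vals_not hn
    · rw [h3, vv_odd]
      exact vals_not hn
  have h3 : ∀ i, vals l B i = 0 ↔ vals l C i = 0 := by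
    intro n
    by_cases hm : n ∈ (sys l).vars
    · obtain ⟨i, hi, j, hj, r, hr, hv, rfl⟩ := mem_vars.1 hm
      rw [vals_code hi hj hr hv, vals_code hi hj hr hv]
      exact hs i j r hi hj
    · rw [vals_not hm, vals_not hm]
  have h1 : rk k (Set.range (vv l B C)) ≤ N := by
    refine rkZ_le S N Z t h h2 (fun i => ?_) hR (fun n hn => ?_)
    · rw [vv_even, vv_odd]
      exact h3 i
    · by_cases hm : n / 2 ∈ (sys l).vars
      swap
      · rw [← hSv] at hm
        exact h2 n hm
      obtain ⟨i, hi, j, hj, r, hr, hv, he⟩ := mem_vars.1 hm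
      rw [he] at hn
      have h4 := hZ i j r hi hj hr hn
      obtain h5 | h5 : n = 2 * (n / 2) ∨ n = 2 * (n / 2) + 1 := by omega
      · rw [h5, vv_even, he, vals_code hi hj hr hv]
        exact h4
      · rw [h5, vv_odd, he, vals_code hi hj hr hv]
        exact (hs i j r hi hj).1 h4
  refine le_trans (D13.rk_le ?_) h1
  have key : ∀ (D : ℕ → ℕ → ℕ → K) (z : ℕ),
      (∀ i j r, i < l.length → j < l.length → valid l i j r = false → D i j r = 0) →
      (∀ n, vals l D n = vv l B C (2 * n + z)) →
      {y | ∃ i < l.length, ∃ j < l.length, ∃ r, y = D i j r} ⊆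
        (FF k (Set.range (vv l B C)) : Set K) := by
    rintro D z hD hsub _ ⟨i, hi, j, hj, r, rfl⟩
    cases hv : valid l i j r with
    | false =>
      rw [hD i j r hi hj hv]
      exact zero_mem (FF k _)
    | true =>
      rw [← vals_code (B := D) hi hj ((valid_lt hv).trans_le (hmax i)) hv, hsub]
      exact mem_FF_self ⟨_, rfl⟩
  exact Set.union_subset (key B 0 hB fun n => (vv_even B C n).symm)
    (key C 1 hC fun n => (vv_odd B C n).symm)

/-- **Counting by a tree.** `B i j r`, `C i j r` are the coordinates of two commuting elements of the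
commutant of the Jordan matrix with blocks `l` (without constants between blocks of equal size and
without the coordinates `(0, 0, r)`), and a coordinate vanishes for `B` if and only if it vanishes
for `C`; `Z` is a set of coordinates which are zero. -/
theorem rk_sysZ [CharZero K] (hmax : ∀ i, len l i ≤ l.headD 0) (N Z : ℕ) (t : Tr)
    (h : (sys l).checkZ N Z t = true) {B C : ℕ → ℕ → ℕ → K}
    (hB : ∀ i j r, i < l.length → j < l.length → valid l i j r = false → B i j r = 0)
    (hC : ∀ i j r, i < l.length → j < l.length → valid l i j r = false → C i j r = 0)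
    (hs : ∀ i j r, i < l.length → j < l.length → (B i j r = 0 ↔ C i j r = 0))
    (hZ : ∀ i j r, i < l.length → j < l.length → r < l.headD 0 →
      Nat.testBit Z (code l i j r) = true → B i j r = 0)
    (hcomm : ∀ i k t, i < l.length → k < l.length → t < len l i →
      ∑ j ∈ Finset.range l.length, ∑ r ∈ Finset.range (t + 1),
        (B i j r * C j k (t - r) - C i j r * B j k (t - r)) = 0) :
    rk k ({y | ∃ i < l.length, ∃ j < l.length, ∃ r, y = B i j r} ∪
      {y | ∃ i < l.length, ∃ j < l.length, ∃ r, y = C i j r}) ≤ N :=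
  rk_aux rfl hmax N Z t h hB hC hs hZ (rels_zero hmax hB hC hcomm)

theorem rk_sys [CharZero K] (hmax : ∀ i, len l i ≤ l.headD 0) (N : ℕ) (t : Tr)
    (h : (sys l).check N t = true) {B C : ℕ → ℕ → ℕ → K}
    (hB : ∀ i j r, i < l.length → j < l.length → valid l i j r = false → B i j r = 0)
    (hC : ∀ i j r, i < l.length → j < l.length → valid l i j r = false → C i j r = 0)
    (hs : ∀ i j r, i < l.length → j < l.length → (B i j r = 0 ↔ C i j r = 0))
    (hcomm : ∀ i k t, i < l.length → k < l.length → t < len l i →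
      ∑ j ∈ Finset.range l.length, ∑ r ∈ Finset.range (t + 1),
        (B i j r * C j k (t - r) - C i j r * B j k (t - r)) = 0) :
    rk k ({y | ∃ i < l.length, ∃ j < l.length, ∃ r, y = B i j r} ∪
      {y | ∃ i < l.length, ∃ j < l.length, ∃ r, y = C i j r}) ≤ N :=
  rk_sysZ hmax N 0 t h hB hC hs (fun i j r _ _ _ h0 => absurd h0 (by simp)) hcomm

/-- counting by a tree with the second order relations -/
theorem rk_sysM [CharZero K] (hmax : ∀ i, len l i ≤ l.headD 0) (N Z : ℕ) (t : Tr)
    (h : (sysM l).checkZ N Z t = true) {B C : ℕ → ℕ → ℕ → K}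
    (hB : ∀ i j r, i < l.length → j < l.length → valid l i j r = false → B i j r = 0)
    (hC : ∀ i j r, i < l.length → j < l.length → valid l i j r = false → C i j r = 0)
    (hs : ∀ i j r, i < l.length → j < l.length → (B i j r = 0 ↔ C i j r = 0))
    (hZ : ∀ i j r, i < l.length → j < l.length → r < l.headD 0 →
      Nat.testBit Z (code l i j r) = true → B i j r = 0)
    (hcomm : ∀ i k t, i < l.length → k < l.length → t < len l i →
      ∑ j ∈ Finset.range l.length, ∑ r ∈ Finset.range (t + 1),
        (B i j r * C j k (t - r) - C i j r * B j k (t - r)) = 0)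
    (hBB : ∀ p j, p < l.length → j < l.length → len l p = len l j → quad l B B p j = 0)
    (hCC : ∀ p j, p < l.length → j < l.length → len l p = len l j → quad l C C p j = 0)
    (hBC : ∀ p j, p < l.length → j < l.length → len l p = len l j →
      quad l B C p j + quad l C B p j = 0) :
    rk k ({y | ∃ i < l.length, ∃ j < l.length, ∃ r, y = B i j r} ∪
      {y | ∃ i < l.length, ∃ j < l.length, ∃ r, y = C i j r}) ≤ N :=
  rk_aux (S := sysM l) rfl hmax N Z t h hB hC hs hZ (relsM_zero hmax hB hC hcomm hBB hCC hBC)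

end

end Tree

end Pool.Agent.Lib.D13
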