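import Pool.Agent.Lib.D7.Api
import Pool.Agent.Lib.D8.UtilB
import Pool.Agent.Lib.D13.Psi

/-!
# MP_5dcbc3_ag: limits of images

If the rank of the polynomial family `M s` is never greater than the rank of `M 0` and `M s u(s) = s^j w(s)`, then
`w 0` lies in the image of `M 0`. Consequences for a maximal bad triple with `A = T 0`, `X` in `adj T`:
conditions of first and second order on `ker A` and `ker A^2`.
-/

namespace Pool.Agent.Lib.D13

open Matrix Pool.Agent.Lib.Q5dc Pool.Agent.Lib.D7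

variable {k n : Type*} [Field k] [Fintype n] [DecidableEq n]

/-- limits of images of constant rank -/
theorem range_lim [Infinite k] (M : k → Matrix n n k) (hM : ∀ x y, IsPoly fun s => M s x y)
    (u w : k → n → k) (hw : ∀ x, IsPoly fun s => w s x) (j : ℕ)
    (h : ∀ s, M s *ᵥ u s = s ^ j • w s) (hr : ∀ s, (M s).rank ≤ (M 0).rank) :
    ∃ m, w 0 = M 0 *ᵥ m := by
  by_contra hno
  have hdet : (M 0).det = 0 := by
    by_contra hd
    exact hno ⟨(M 0)⁻¹ *ᵥ w 0, by
      rw [mulVec_mulVec, Matrix.mul_nonsing_inv _ (isUnit_iff_ne_zero.2 hd), one_mulVec]⟩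
  obtain ⟨q, hq0, hq⟩ := Matrix.exists_mulVec_eq_zero_iff.2 hdet
  obtain ⟨i, hi⟩ : ∃ i, q i ≠ 0 := by
    by_contra hh
    push Not at hh
    exact hq0 (funext hh)
  have hψ : (Pi.single i 1 : n → k) ⬝ᵥ q ≠ 0 := by simpa using hi
  have h1 := PsiAux.rank_lt (M 0) (w 0) (Pi.single i 1) q hq hψ hno (s := 1) one_ne_zero
  rw [one_smul] at h1
  have h2 := rank_semicont (fun s => M s + vecMulVec (w s) (Pi.single i 1 : n → k)) (fun x y => by
    have := (hM x y).add ((hw x).mul (D7.IsPoly.const ((Pi.single i 1 : n → k) y)))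
    simpa [vecMulVec_apply] using this) 0
  have h3 : ({s : k | (M s + vecMulVec (w s) (Pi.single i 1 : n → k)).rank <
      (M 0 + vecMulVec (w 0) (Pi.single i 1 : n → k)).rank} ∪ {0}).Finite :=
    h2.union (Set.finite_singleton 0)
  obtain ⟨s, hs⟩ := h3.infinite_compl.nonempty
  rw [Set.mem_compl_iff, Set.mem_union, not_or] at hs
  obtain ⟨hs1, hs2⟩ := hs
  have hs0 : s ≠ 0 := fun h => hs2 (by simp [h])
  rw [Set.mem_ofPred_eq, not_lt] at hs1
  have h4 : M s + vecMulVec (w s) (Pi.single i 1 : n → k) =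
      M s * (1 + vecMulVec ((s ^ j)⁻¹ • u s) (Pi.single i 1 : n → k)) := by
    rw [mul_add, mul_one, mul_vecMulVec, mulVec_smul, h s, smul_smul,
      inv_mul_cancel₀ (pow_ne_zero _ hs0), one_smul]
  have h5 : (M s + vecMulVec (w s) (Pi.single i 1 : n → k)).rank ≤ (M s).rank := by
    rw [h4]
    exact rank_mul_le_left _ _
  have h6 := hr s
  omega

theorem isPoly_vec (a b : n → k) : ∀ x, IsPoly fun s : k => (a + s • b) x := fun x => by
  have := (D7.IsPoly.const (a x)).add (D7.IsPoly.id.mul (D7.IsPoly.const (b x)))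
  simpa using this

theorem sq_line (A X : Matrix n n k) (s : k) :
    (A + s • X) ^ 2 = A * A + (s • (A * X + X * A) + (s * s) • (X * X)) := by
  rw [pow_two]
  simp only [add_mul, mul_add, smul_mul_assoc, mul_smul_comm, smul_add, smul_smul]
  abel

/-- first order, square -/
theorem sq_first [Infinite k] {A X : Matrix n n k}
    (hr : ∀ s : k, ((A + s • X) ^ 2).rank ≤ (A ^ 2).rank) {q : n → k} (h0 : (A * A) *ᵥ q = 0) :
    ∃ m, (A * X + X * A) *ᵥ q = (A * A) *ᵥ m := by
  obtain ⟨m, hm⟩ := range_lim (fun s => (A + s • X) ^ 2) (isPoly_pow (isPoly_line A X) 2)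
    (fun _ => q) (fun s => (A * X + X * A) *ᵥ q + s • ((X * X) *ᵥ q)) (isPoly_vec _ _) 1
    (fun s => by
      have e := sq_line A X s
      rw [e, add_mulVec, add_mulVec, h0, zero_add, smul_mulVec, smul_mulVec, smul_add, smul_smul]
      simp)
    (fun s => by simpa using hr s)
  refine ⟨m, ?_⟩
  simpa [pow_two] using hm

/-- second order, square -/
theorem sq_second [Infinite k] {A X : Matrix n n k}
    (hr : ∀ s : k, ((A + s • X) ^ 2).rank ≤ (A ^ 2).rank) {q t : n → k} (h0 : (A * A) *ᵥ q = 0)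
    (h1 : (A * X + X * A) *ᵥ q = (A * A) *ᵥ t) :
    ∃ m, (X * X) *ᵥ q - (A * X + X * A) *ᵥ t = (A * A) *ᵥ m := by
  obtain ⟨m, hm⟩ := range_lim (fun s => (A + s • X) ^ 2) (isPoly_pow (isPoly_line A X) 2)
    (fun s => q - s • t)
    (fun s => ((X * X) *ᵥ q - (A * X + X * A) *ᵥ t) + s • (-((X * X) *ᵥ t))) (isPoly_vec _ _) 2
    (fun s => by
      have e := sq_line A X s
      have h2 : ∀ v : n → k, (A * A + (s • (A * X + X * A) + (s * s) • (X * X))) *ᵥ v =
          (A * A) *ᵥ v + (s • ((A * X + X * A) *ᵥ v) + (s * s) • ((X * X) *ᵥ v)) := fun v => by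
        rw [add_mulVec, add_mulVec, smul_mulVec, smul_mulVec]
      rw [e, mulVec_sub, mulVec_smul, h2, h2, h0, h1]
      module)
    (fun s => by simpa using hr s)
  refine ⟨m, ?_⟩
  simpa [pow_two] using hm

/-- first order, rank of the matrix -/
theorem lin_first [Infinite k] {A X : Matrix n n k}
    (hr : ∀ s : k, (A + s • X).rank ≤ A.rank) {q : n → k} (h0 : A *ᵥ q = 0) :
    ∃ m, X *ᵥ q = A *ᵥ m := by
  obtain ⟨m, hm⟩ := range_lim (fun s => A + s • X) (isPoly_line A X)
    (fun _ => q) (fun s => X *ᵥ q + s • (0 : n → k)) (isPoly_vec _ _) 1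
    (fun s => by
      rw [add_mulVec, h0, zero_add, smul_mulVec]
      simp)
    (fun s => by simpa using hr s)
  refine ⟨m, ?_⟩
  simpa using hm

end Pool.Agent.Lib.D13
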