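import Pool.Agent.Lib.D13.JordanU
import Pool.Agent.Lib.D13.RangeLim

/-!
# MP_5dcbc3_ag: matrices commuting with the Jordan matrix of a list, first order rank conditions

Uniform in the list `l` of the sizes of the blocks.
-/

namespace Pool.Agent.Lib.D13

open Matrix Pool.Agent.Lib.Q5dc Pool.Agent.Lib.D7

namespace UShape

variable {k : Type*} [Field k] {l : List ℕ}

/-- the coordinate `(j, p)` of a vector, zero outside of the range -/
def ext (v : IxL l → k) (j : Fin l.length) (p : ℕ) : k :=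
  if h : p < l.get j then v ⟨j, ⟨p, h⟩⟩ else 0

/-- the entry in the row `(j, p)` and the column `(i, q)`, zero outside of the range -/
def en (M : Matrix (IxL l) (IxL l) k) (j : Fin l.length) (p : ℕ) (i : Fin l.length) (q : ℕ) : k :=
  if h : p < l.get j ∧ q < l.get i then M ⟨j, ⟨p, h.1⟩⟩ ⟨i, ⟨q, h.2⟩⟩ else 0

theorem ext_of {v : IxL l → k} {j : Fin l.length} {p : ℕ} (h : p < l.get j) :
    ext v j p = v ⟨j, ⟨p, h⟩⟩ := dif_pos h

theorem en_of {M : Matrix (IxL l) (IxL l) k} {j i : Fin l.length} {p q : ℕ} (h : p < l.get j)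
    (h' : q < l.get i) : en M j p i q = M ⟨j, ⟨p, h⟩⟩ ⟨i, ⟨q, h'⟩⟩ := dif_pos ⟨h, h'⟩

theorem en_out {M : Matrix (IxL l) (IxL l) k} {j i : Fin l.length} {p q : ℕ}
    (h : ¬ (p < l.get j ∧ q < l.get i)) : en M j p i q = 0 := dif_neg h

theorem en_eq (M : Matrix (IxL l) (IxL l) k) (x y : IxL l) : M x y = en M x.1 x.2 y.1 y.2 :=
  (en_of x.2.2 y.2.2).symm

theorem JU_mulVec (v : IxL l → k) (x : IxL l) :
    (JU k l *ᵥ v) x = if 1 ≤ (x.2 : ℕ) then ext v x.1 (x.2 - 1) else 0 := by
  obtain ⟨j, p, hp⟩ := x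
  dsimp only
  rw [mulVec, dotProduct]
  by_cases h : 1 ≤ p
  · rw [if_pos h, ext_of (show p - 1 < l.get j by omega),
      Finset.sum_eq_single (⟨j, ⟨p - 1, by omega⟩⟩ : IxL l)]
    · have : JU k l ⟨j, ⟨p, hp⟩⟩ ⟨j, ⟨p - 1, by omega⟩⟩ = 1 := by
        refine if_pos ⟨rfl, ?_⟩
        show p = p - 1 + 1
        omega
      rw [this, one_mul]
    · rintro ⟨j', p', hp'⟩ _ hne
      have : JU k l ⟨j, ⟨p, hp⟩⟩ ⟨j', ⟨p', hp'⟩⟩ = 0 := by
        refine if_neg ?_
        rintro ⟨h1, h2⟩
        dsimp only at h1 h2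
        subst h1
        apply hne
        congr
        omega
      rw [this, zero_mul]
    · simp
  · rw [if_neg h]
    refine Finset.sum_eq_zero fun y _ => ?_
    have : JU k l ⟨j, ⟨p, hp⟩⟩ y = 0 := by
      refine if_neg ?_
      rintro ⟨-, h2⟩
      dsimp only at h2
      omega
    rw [this, zero_mul]

theorem JU_pow_mulVec (r : ℕ) (v : IxL l → k) (x : IxL l) :
    (JU k l ^ r *ᵥ v) x = if r ≤ (x.2 : ℕ) then ext v x.1 (x.2 - r) else 0 := by
  induction r generalizing x with
  | zero =>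
    obtain ⟨j, p, hp⟩ := x
    rw [pow_zero, one_mulVec, if_pos (Nat.zero_le _)]
    exact (ext_of hp).symm
  | succ r ih =>
    obtain ⟨j, p, hp⟩ := x
    dsimp only at ih ⊢
    rw [pow_succ', ← mulVec_mulVec, JU_mulVec]
    dsimp only
    by_cases h : 1 ≤ p
    · rw [if_pos h, ext_of (show p - 1 < l.get j by omega), ih]
      dsimp only
      by_cases h2 : r + 1 ≤ p
      · rw [if_pos h2, if_pos (by omega), show p - 1 - r = p - (r + 1) by omega]
      · rw [if_neg h2, if_neg (by omega)]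
    · rw [if_neg h, if_neg (by omega)]

/-- an entry of `JU * M` -/
theorem JU_mul_apply (M : Matrix (IxL l) (IxL l) k) {j i : Fin l.length} {p q : ℕ}
    (hp : p < l.get j) (hq : q < l.get i) :
    (JU k l * M) ⟨j, ⟨p, hp⟩⟩ ⟨i, ⟨q, hq⟩⟩ = if 1 ≤ p then en M j (p - 1) i q else 0 := by
  have h1 : (JU k l * M) ⟨j, ⟨p, hp⟩⟩ ⟨i, ⟨q, hq⟩⟩ =
      (JU k l *ᵥ fun y => M y ⟨i, ⟨q, hq⟩⟩) ⟨j, ⟨p, hp⟩⟩ := rfl
  rw [h1, JU_mulVec]
  dsimp only
  by_cases h : 1 ≤ p
  · rw [if_pos h, if_pos h, ext_of (show p - 1 < l.get j by omega),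
      en_of (show p - 1 < l.get j by omega) hq]
  · rw [if_neg h, if_neg h]

/-- an entry of `M * JU` -/
theorem mul_JU_apply (M : Matrix (IxL l) (IxL l) k) {j i : Fin l.length} {p q : ℕ}
    (hp : p < l.get j) (hq : q < l.get i) :
    (M * JU k l) ⟨j, ⟨p, hp⟩⟩ ⟨i, ⟨q, hq⟩⟩ = en M j p i (q + 1) := by
  rw [Matrix.mul_apply]
  by_cases h : q + 1 < l.get i
  · rw [en_of hp h, Finset.sum_eq_single (⟨i, ⟨q + 1, h⟩⟩ : IxL l)]
    · have : JU k l ⟨i, ⟨q + 1, h⟩⟩ ⟨i, ⟨q, hq⟩⟩ = 1 := if_pos ⟨rfl, rfl⟩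
      rw [this, mul_one]
    · rintro ⟨j', p', hp'⟩ _ hne
      have : JU k l ⟨j', ⟨p', hp'⟩⟩ ⟨i, ⟨q, hq⟩⟩ = 0 := by
        refine if_neg ?_
        rintro ⟨h1, h2⟩
        dsimp only at h1 h2
        subst h1
        apply hne
        congr
      rw [this, mul_zero]
    · simp
  · rw [en_out (fun h' => h h'.2)]
    refine Finset.sum_eq_zero fun y _ => ?_
    obtain ⟨j', p', hp'⟩ := y
    have : JU k l ⟨j', ⟨p', hp'⟩⟩ ⟨i, ⟨q, hq⟩⟩ = 0 := by
      refine if_neg ?_
      rintro ⟨h1, h2⟩
      dsimp only at h1 h2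
      subst h1
      omega
    rw [this, mul_zero]

variable {M : Matrix (IxL l) (IxL l) k}

theorem step (hM : JU k l * M = M * JU k l) {j i : Fin l.length} {p q : ℕ} (hp : p < l.get j)
    (hq : q < l.get i) : en M j p i (q + 1) = if 1 ≤ p then en M j (p - 1) i q else 0 := by
  rw [← mul_JU_apply M hp hq, ← hM, JU_mul_apply]

/-- the entries are determined by the first columns of the blocks -/
theorem entry (hM : JU k l * M = M * JU k l) {j i : Fin l.length} :
    ∀ {p q : ℕ}, p < l.get j → q < l.get i →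
      en M j p i q = if q ≤ p then en M j (p - q) i 0 else 0 := by
  intro p q
  induction q generalizing p with
  | zero =>
    intro hp _
    rw [if_pos (Nat.zero_le _)]
    rfl
  | succ q ih =>
    intro hp hq
    rw [step hM hp (by omega)]
    by_cases h : 1 ≤ p
    · rw [if_pos h, ih (by omega) (by omega)]
      by_cases h2 : q + 1 ≤ p
      · rw [if_pos h2, if_pos (by omega), show p - 1 - q = p - (q + 1) by omega]
      · rw [if_neg h2, if_neg (by omega)]
    · rw [if_neg h, if_neg (by omega)]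

/-- the low entries of the first columns vanish -/
theorem low (hM : JU k l * M = M * JU k l) {j i : Fin l.length} {p : ℕ}
    (h : p + l.get i < l.get j) : en M j p i 0 = 0 := by
  by_cases h0 : 0 < l.get i
  · have h1 := entry hM (j := j) (i := i) (p := p + (l.get i - 1)) (q := l.get i - 1) (by omega)
      (by omega)
    rw [if_pos (by omega), Nat.add_sub_cancel] at h1
    have h2 := step hM (j := j) (i := i) (p := p + l.get i) (q := l.get i - 1) h (by omega)
    rw [en_out (by omega), if_pos (by omega),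
      show p + l.get i - 1 = p + (l.get i - 1) by omega] at h2
    rw [← h1, ← h2]
  · exact en_out (by omega)

/-- the coefficients of the products -/
theorem mul_entry {B C : Matrix (IxL l) (IxL l) k} (hB : JU k l * B = B * JU k l)
    {j i : Fin l.length} {e : ℕ} (he : e < l.get j) :
    en (B * C) j e i 0 = ∑ h : Fin l.length, ∑ p ∈ Finset.range (e + 1),
      en B j (e - p) h 0 * en C h p i 0 := by
  by_cases h0 : 0 < l.get i
  · rw [en_of he h0, Matrix.mul_apply, Fintype.sum_sigma]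
    refine Finset.sum_congr rfl fun h _ => ?_
    have h1 : ∀ p : Fin (l.get h), B ⟨j, ⟨e, he⟩⟩ ⟨h, p⟩ * C ⟨h, p⟩ ⟨i, ⟨0, h0⟩⟩ =
        (if (p : ℕ) ≤ e then en B j (e - p) h 0 else 0) * en C h p i 0 := by
      intro p
      rw [en_eq B, en_eq C, entry hB he p.2]
    rw [Finset.sum_congr rfl fun p _ => h1 p,
      Fin.sum_univ_eq_sum_range (fun p => (if p ≤ e then en B j (e - p) h 0 else 0) *
        en C h p i 0) (l.get h)]
    -- both sums are sums over the common range
    have h2 : ∀ N, l.get h ≤ N → e + 1 ≤ N →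
        ∑ p ∈ Finset.range N, (if p ≤ e then en B j (e - p) h 0 else 0) * en C h p i 0 =
        ∑ p ∈ Finset.range (l.get h), (if p ≤ e then en B j (e - p) h 0 else 0) *
          en C h p i 0 := by
      intro N h3 h4
      refine (Finset.sum_subset (Finset.range_mono h3) fun p _ hp => ?_).symm
      rw [Finset.mem_range, not_lt] at hp
      rw [en_out (M := C) (by omega), mul_zero]
    have h3 : ∀ N, l.get h ≤ N → e + 1 ≤ N →
        ∑ p ∈ Finset.range N, (if p ≤ e then en B j (e - p) h 0 else 0) * en C h p i 0 =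
        ∑ p ∈ Finset.range (e + 1), en B j (e - p) h 0 * en C h p i 0 := by
      intro N h3 h4
      rw [← Finset.sum_subset (Finset.range_mono h4) fun p _ hp => ?_]
      · refine Finset.sum_congr rfl fun p hp => ?_
        rw [Finset.mem_range] at hp
        rw [if_pos (by omega)]
      · rw [Finset.mem_range, not_lt] at hp
        rw [if_neg (by omega), zero_mul]
    rw [← h2 (l.get h + (e + 1)) (by omega) (by omega), h3 _ (by omega) (by omega)]
  · rw [en_out (by omega)]
    symm
    refine Finset.sum_eq_zero fun h _ => Finset.sum_eq_zero fun p _ => ?_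
    rw [en_out (M := C) (by omega), mul_zero]

/-- the relations of a commuting pair -/
theorem rel {B C : Matrix (IxL l) (IxL l) k} (hB : JU k l * B = B * JU k l)
    (hC : JU k l * C = C * JU k l) (h : B * C = C * B) {j i : Fin l.length} {e : ℕ}
    (he : e < l.get j) :
    ∑ h : Fin l.length, ∑ p ∈ Finset.range (e + 1), en B j (e - p) h 0 * en C h p i 0 =
    ∑ h : Fin l.length, ∑ p ∈ Finset.range (e + 1), en C j (e - p) h 0 * en B h p i 0 := by
  rw [← mul_entry hB he, ← mul_entry hC he, h]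

/-- first order expansion of a power -/
theorem pow_first {n : Type*} [Fintype n] [DecidableEq n] {J M : Matrix n n k}
    (h : J * M = M * J) (s : ℕ) : ∃ R : k → Matrix n n k, (∀ x y, IsPoly fun t => R t x y) ∧
      ∀ t : k, (J + t • M) ^ (s + 1) =
        J ^ (s + 1) + t • (((s + 1 : ℕ) : k) • (J ^ s * M) + t • R t) := by
  induction s with
  | zero =>
    refine ⟨fun _ => 0, fun x y => D7.IsPoly.const _, fun t => ?_⟩
    simp
  | succ s ih =>
    obtain ⟨R, hR, hR'⟩ := ih
    refine ⟨fun t => R t * J + ((s + 1 : ℕ) : k) • (J ^ s * (M * M)) + t • (R t * M),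
      fun x y => ?_, fun t => ?_⟩
    · have h1 := isPoly_mul hR (fun x y => (D7.IsPoly.const (J x y) : IsPoly fun _ : k => J x y)) x y
      have h2 := isPoly_mul hR (fun x y => (D7.IsPoly.const (M x y) : IsPoly fun _ : k => M x y)) x y
      have h3 := (h1.add (D7.IsPoly.const ((((s + 1 : ℕ) : k) • (J ^ s * (M * M))) x y))).add
        (D7.IsPoly.id.mul h2)
      exact h3
    · have e1 : J ^ s * M * J = J ^ (s + 1) * M := by
        rw [mul_assoc, ← h, ← mul_assoc, ← pow_succ]
      have e2 : J ^ s * M * M = J ^ s * (M * M) := mul_assoc _ _ _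
      rw [pow_succ, hR' t]
      simp only [add_mul, mul_add, smul_mul_assoc, mul_smul_comm, smul_add, e1, e2]
      rw [← pow_succ]
      push_cast
      module

/-- the first order condition: no constants between blocks of equal size -/
theorem levi [CharZero k] {ρ : ℕ → ℕ} {T : Fin 3 → Matrix (IxL l) (IxL l) k} (hT : MaxR ρ T)
    (hρ : ∀ i, ρ i = (JU k l ^ i).rank) (h0 : T 0 = JU k l) (hM : M ∈ adj T)
    {j i : Fin l.length} (hij : l.get j = l.get i) : en M j 0 i 0 = 0 := by
  by_cases hpos : 0 < l.get i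
  · obtain ⟨s, hs⟩ : ∃ s, l.get i = s + 1 := ⟨l.get i - 1, by omega⟩
    have hJ : JU k l ∈ adj T := by
      rw [← h0]
      exact mem_adj T 0
    have hc : JU k l * M = M * JU k l := hT.cn.comm hJ hM
    obtain ⟨R, hR, hR'⟩ := pow_first hc s
    set y0 : IxL l := ⟨i, ⟨0, hpos⟩⟩ with hy0
    have hJy : JU k l ^ (s + 1) *ᵥ (Pi.single y0 1 : IxL l → k) = 0 := by
      ext x
      obtain ⟨j', p, hp⟩ := x
      rw [JU_pow_mulVec]
      dsimp only
      by_cases h1 : s + 1 ≤ p
      · rw [if_pos h1, ext_of (show p - (s + 1) < l.get j' by omega)]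
        have : (⟨j', ⟨p - (s + 1), by omega⟩⟩ : IxL l) ≠ y0 := by
          intro h2
          have h3 : j' = i := congrArg Sigma.fst h2
          subst h3
          omega
        simp [this]
      · rw [if_neg h1]
        rfl
    have hr : ∀ t : k, ((JU k l + t • M) ^ (s + 1)).rank ≤ (JU k l ^ (s + 1)).rank := by
      intro t
      have h1 := hT.rank_le (add_mem hJ (SMulMemClass.smul_mem t hM)) (s + 1)
      rwa [hρ (s + 1)] at h1
    obtain ⟨v, hv⟩ := range_lim (fun t : k => (JU k l + t • M) ^ (s + 1))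
      (isPoly_pow (isPoly_line _ _) _) (fun _ => Pi.single y0 1)
      (fun t => (((s + 1 : ℕ) : k) • (JU k l ^ s * M) + t • R t) *ᵥ (Pi.single y0 1 : IxL l → k))
      (fun x => by
        have h1 := (D7.IsPoly.const ((((s + 1 : ℕ) : k) • (JU k l ^ s * M)) x y0)).add
          (D7.IsPoly.id.mul (hR x y0))
        have h2 : (fun t => ((((s + 1 : ℕ) : k) • (JU k l ^ s * M) + t • R t) *ᵥ
            (Pi.single y0 1 : IxL l → k)) x) = fun t =>
            (((s + 1 : ℕ) : k) • (JU k l ^ s * M)) x y0 + t * R t x y0 := by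
          funext t
          rw [mulVec_single_one]
          rfl
        rw [h2]
        exact h1) 1 (fun t => by
        rw [hR' t, add_mulVec, hJy, zero_add, smul_mulVec, pow_one]) (fun t => by
        simpa using hr t)
    have h1 := congrFun hv ⟨j, ⟨s, by omega⟩⟩
    simp only [zero_smul, add_zero] at h1
    rw [JU_pow_mulVec] at h1
    dsimp only at h1
    rw [if_neg (by omega), mulVec_single_one] at h1
    have h2 : (((s + 1 : ℕ) : k) • (JU k l ^ s * M)) ⟨j, ⟨s, by omega⟩⟩ y0 = 0 := h1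
    rw [Matrix.smul_apply, smul_eq_mul] at h2
    have h3 : (JU k l ^ s * M) ⟨j, ⟨s, by omega⟩⟩ y0 = 0 :=
      (mul_eq_zero.1 h2).resolve_left (by exact_mod_cast Nat.succ_ne_zero s)
    have h4 : (JU k l ^ s * M) ⟨j, ⟨s, by omega⟩⟩ y0 =
        (JU k l ^ s *ᵥ fun y => M y y0) ⟨j, ⟨s, by omega⟩⟩ := rfl
    rw [h4, JU_pow_mulVec] at h3
    dsimp only at h3
    rw [if_pos le_rfl, ext_of (show s - s < l.get j by omega)] at h3
    rw [en_of (show 0 < l.get j by omega) hpos]
    have e1 : (⟨s - s, by omega⟩ : Fin (l.get j)) = ⟨0, by omega⟩ := Fin.ext (Nat.sub_self s)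
    rw [e1] at h3
    exact h3
  · exact en_out (by omega)

end UShape

end Pool.Agent.Lib.D13
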