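import Pool.Agent.Lib.D13.Auto
import Pool.Agent.Lib.D13.UShape
import Pool.Agent.Lib.D13.CertD
import Pool.Agent.Lib.D13.Tree
import Pool.Agent.Lib.D13.CenLow

/-!
# MP_5dcbc3_ag: a bound for the number of parameters excludes a Jordan type
-/

set_option autoImplicit false

namespace Pool.Agent.Lib.D13

open Matrix Pool.Agent.Lib.Q5dc Pool.Agent.Lib.D7

universe u

namespace Cert

/-- the rank does not change under an extension of the field -/
theorem rank_mapK {k K n : Type*} [Field k] [Field K] [Algebra k K] [Fintype n] [DecidableEq n]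
    (A : Matrix n n k) : (A.map (algebraMap k K)).rank = A.rank := by
  have key : ∀ {r : ℕ} (f g : Fin r → n), ((A.map (algebraMap k K)).submatrix f g).det =
      algebraMap k K (A.submatrix f g).det := by
    intro r f g
    rw [RingHom.map_det]
    rfl
  refine le_antisymm ?_ ?_
  · obtain ⟨f, g, h⟩ := PolyAux.exists_minor (A.map (algebraMap k K))
    refine le_rank_of_minor A f g fun h0 => h ?_
    rw [key, h0, map_zero]
  · obtain ⟨f, g, h⟩ := PolyAux.exists_minor A
    refine le_rank_of_minor _ f g fun h0 => h ?_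
    rw [key] at h0
    exact (map_eq_zero _).1 h0

theorem JU_map {k K : Type*} [Field k] [Field K] [Algebra k K] (l : List ℕ) :
    (JU k l).map (algebraMap k K) = JU K l := by
  ext x y
  unfold JU
  rw [Matrix.map_apply, Matrix.of_apply, Matrix.of_apply]
  split_ifs
  · exact map_one _
  · exact map_zero _

theorem rank_JU_pow {k K : Type*} [Field k] [Field K] [Algebra k K] (l : List ℕ) (i : ℕ) :
    (JU K l ^ i).rank = (JU k l ^ i).rank := by
  rw [← rank_mapK (K := K) (JU k l ^ i), ← JU_map (k := k) l]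
  congr 1
  have := map_pow ((algebraMap k K).mapMatrix : Matrix (IxL l) (IxL l) k →+* _) (JU k l) i
  exact this.symm

/-- the rank of the Jordan matrix -/
theorem le_rank {k : Type*} [Field k] {l : List ℕ} (hl : ∀ a, 0 < l.get a) :
    l.sum ≤ (JU k l).rank + l.length := by
  have h1 := LinearMap.finrank_range_add_finrank_ker (JU k l).mulVecLin
  rw [Module.finrank_fintype_fun_eq_card, card_IxL] at h1
  have h2 : Module.finrank k (LinearMap.ker (JU k l).mulVecLin) ≤ l.length := by
    let φ : (IxL l → k) →ₗ[k] (Fin l.length → k) :=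
      LinearMap.pi fun a => LinearMap.proj (⟨a, ⟨l.get a - 1, by have := hl a; omega⟩⟩ : IxL l)
    have hφ : Function.Injective (φ ∘ₗ (LinearMap.ker (JU k l).mulVecLin).subtype) := by
      rw [← LinearMap.ker_eq_bot, LinearMap.ker_eq_bot']
      rintro ⟨v, hv⟩ h
      have hv' : JU k l *ᵥ v = 0 := hv
      apply Subtype.ext
      show v = 0
      funext x
      obtain ⟨a, m, hm⟩ := x
      by_cases hm' : m + 1 < l.get a
      · have h3 := congrFun hv' ⟨a, ⟨m + 1, hm'⟩⟩
        rw [UShape.JU_mulVec, if_pos (by simp)] at h3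
        simp only [Nat.add_sub_cancel] at h3
        rw [UShape.ext_of hm] at h3
        exact h3
      · have h3 := congrFun h a
        have h4 : v ⟨a, ⟨l.get a - 1, by have := hl a; omega⟩⟩ = 0 := h3
        have h5 : m = l.get a - 1 := by omega
        subst h5
        exact h4
    have h3 := LinearMap.finrank_le_finrank_of_injective hφ
    rwa [Module.finrank_fintype_fun_eq_card, Fintype.card_fin] at h3
  have h4 : (JU k l).rank = Module.finrank k (LinearMap.range (JU k l).mulVecLin) := rfl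
  omega

theorem cf_levi {K : Type*} [Field K] [CharZero K] {l : List ℕ} {ρ : ℕ → ℕ}
    {T : Fin 3 → Matrix (IxL l) (IxL l) K} (hT : MaxR ρ T) (hρ : ∀ i, ρ i = (JU K l ^ i).rank)
    (h0 : T 0 = JU K l) {M : Matrix (IxL l) (IxL l) K} (hM : M ∈ adj T) {i j : ℕ}
    (h : l.getD i 0 = l.getD j 0) : cf l M i j 0 = 0 := by
  by_cases hi : i < l.length
  swap
  · exact cf_out'' (not_lt.1 hi)
  by_cases hj : j < l.length
  swap
  · exact cf_out' (not_lt.1 hj)
  rw [getD_eq hi, getD_eq hj] at h
  have h1 := UShape.levi hT hρ h0 hM (j := ⟨i, hi⟩) (i := ⟨j, hj⟩) h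
  by_cases hz : 0 < l.get ⟨i, hi⟩ ∧ 0 < l.get ⟨j, hj⟩
  · rw [cf_eq M hi hj hz.1 hz.2]
    exact (UShape.en_of (M := M) (j := ⟨i, hi⟩) (i := ⟨j, hj⟩) hz.1 hz.2).symm.trans h1
  · exact en_zero _ fun ⟨_, _, h2, h3⟩ => hz ⟨h2, h3⟩

/-- `finrank` of the commutant of the Jordan matrix -/
def zz (l : List ℕ) : ℕ := (l.map fun a => (l.map fun b => min a b).sum).sum

/-- **Counting.** If the normalised maximal bad triples depend on few parameters there are none. -/
theorem not_bad_of {k : Type u} [Field k] [IsAlgClosed k] [CharZero k] {l : List ℕ}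
    (hl : ∀ a, 0 < l.get a) (hall : HALL k l.sum) (h2 : 2 * l.length ≤ l.sum) (h3 : 2 ≤ l.sum)
    (hz : zz l ≤ Module.finrank k (Pur.cen (JU k l))) (N : ℕ)
    (hN : N + 2 * (l.getD 0 0 - 1) + 3 ≤ zz l + l.sum)
    (hcnt : ∀ (K : Type u) [Field K] [IsAlgClosed K] [CharZero K] [Algebra k K]
      (B C : Matrix (IxL l) (IxL l) K), MaxR (fun i => (JU K l ^ i).rank) ![JU K l, B, C] →
        Rels l (cf l B) (cf l C) → rk k (coef l B C) ≤ N) : ¬ Bad k l := by
  rintro ⟨ρ, T, hT, hρ, h0⟩
  have hcard := card_IxL l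
  obtain ⟨K, i1, i2, i3, i4, T', hT', h0', -, hrk⟩ := auto_maxR (hcard.symm ▸ hall) hT
    (fun i => by rw [h0, hρ]) (by omega) (by
      rw [hcard, hρ 1, pow_one]
      have := le_rank (k := k) hl
      omega)
  rw [h0, JU_map] at h0'
  have hρK : ∀ i, ρ i = (JU K l ^ i).rank := fun i => by rw [rank_JU_pow (k := k), hρ]
  obtain ⟨B, C, hM, hn, hs, hf, hsub⟩ := exists_nrm (k := k) hT' h0'
    fun M hM i j h => cf_levi hT' hρK h0' hM h
  have hJB : JU K l * B = B * JU K l := hM.cn.1 0 1
  have hJC : JU K l * C = C * JU K l := hM.cn.1 0 2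
  have hBC : B * C = C * B := hM.cn.1 1 2
  have hR : Rels l (cf l B) (cf l C) := rels_of hl hJB hJC hBC hf hn hs
  have hM' : MaxR (fun i => (JU K l ^ i).rank) ![JU K l, B, C] := by
    have : ρ = fun i => (JU K l ^ i).rank := funext hρK
    rw [← this]
    exact hM
  have h4 := hcnt K B C hM' hR
  have h5 := rk_le_add_card (k := k) (s := Set.range (co T')) (t := coef l B C)
    (fun q : Fin 2 × Fin (l.getD 0 0 - 1) => cf l (T' q.1.succ) 0 0 (q.2 + 1)) hsub
  rw [Fintype.card_prod, Fintype.card_fin, Fintype.card_fin] at h5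
  rw [h0, hcard] at hrk
  have h6 : ((Module.finrank k (Pur.cen (JU k l)) + l.sum - 2 : ℕ) : ℕ∞) ≤
      ((N + 2 * (l.getD 0 0 - 1) : ℕ) : ℕ∞) := by
    refine (hrk.trans h5).trans ?_
    push_cast
    gcongr
  have h7 : Module.finrank k (Pur.cen (JU k l)) + l.sum - 2 ≤ N + 2 * (l.getD 0 0 - 1) := by
    exact_mod_cast h6
  omega

theorem Rels.valid {K : Type*} [Field K] {l : List ℕ} {b c : ℕ → ℕ → ℕ → K} (hR : Rels l b c)
    {i j r : ℕ} (hv : Tree.valid l i j r = false) : b i j r = 0 ∧ c i j r = 0 := by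
  by_contra hne
  have h1 : Tree.len l i ≤ Tree.len l j + r := by
    by_contra h
    unfold Tree.len at h
    exact hne (hR.low i j r (by omega))
  have h2 : r < Tree.len l i := by
    by_contra h
    unfold Tree.len at h
    exact hne (hR.out i j r (by omega))
  have h3 : ¬ (Tree.len l i = Tree.len l j ∧ r = 0) := by
    rintro ⟨h, rfl⟩
    exact hne (hR.lev i j h)
  have h4 : ¬ (i = 0 ∧ j = 0) := by
    rintro ⟨rfl, rfl⟩
    exact hne (hR.nrm r)
  have h5 : Tree.valid l i j r = true := by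
    unfold Tree.valid
    rw [Bool.and_eq_true, Bool.and_eq_true, Bool.and_eq_true, Nat.ble_eq, Nat.blt_eq,
      Bool.not_eq_true', Bool.not_eq_true', ← Bool.not_eq_true, ← Bool.not_eq_true,
      Bool.and_eq_true, Bool.and_eq_true, Nat.beq_eq, Nat.beq_eq, Nat.beq_eq, Nat.beq_eq]
    exact ⟨h1, h2, h3, h4⟩
  rw [h5] at hv
  exact Bool.noConfusion hv

theorem Rels.comm {K : Type*} [Field K] {l : List ℕ} {b c : ℕ → ℕ → ℕ → K} (hR : Rels l b c)
    {i k t : ℕ} (hi : i < l.length) (hk : k < l.length) (ht : t < Tree.len l i) :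
    ∑ j ∈ Finset.range l.length, ∑ r ∈ Finset.range (t + 1),
      (b i j r * c j k (t - r) - c i j r * b j k (t - r)) = 0 := by
  have h := hR.rel i k t hi hk ht
  have e : ∀ (f g : ℕ → ℕ → ℕ → K), ∑ a ∈ Finset.range l.length, ∑ u ∈ Finset.range (t + 1),
      f i a (t - u) * g a k u = ∑ j ∈ Finset.range l.length, ∑ r ∈ Finset.range (t + 1),
        f i j r * g j k (t - r) := by
    intro f g
    refine Finset.sum_congr rfl fun a _ => ?_
    rw [← Finset.sum_flip fun r => f i a r * g a k (t - r)]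
    refine Finset.sum_congr rfl fun u hu => ?_
    rw [Finset.mem_range] at hu
    rw [show t - (t - u) = u by omega]
  rw [e, e] at h
  simp only [Finset.sum_sub_distrib]
  rw [h, sub_self]

/-- the numerical conditions -/
def ok (l : List ℕ) (d N : ℕ) : Bool :=
  l.all (fun a => Nat.blt 0 a) && (l.all (fun a => Nat.ble a (l.headD 0)) &&
    (Nat.beq l.sum d && (Nat.ble 2 d && (Nat.ble (2 * l.length) d &&
      Nat.ble (N + 2 * (l.headD 0 - 1) + 3) (zz l + d)))))

theorem ok_iff {l : List ℕ} {d N : ℕ} (h : ok l d N = true) :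
    (∀ a, 0 < l.get a) ∧ (∀ i, Tree.len l i ≤ l.headD 0) ∧ l.sum = d ∧ 2 ≤ d ∧
      2 * l.length ≤ d ∧ N + 2 * (l.getD 0 0 - 1) + 3 ≤ zz l + d := by
  unfold ok at h
  rw [Bool.and_eq_true, Bool.and_eq_true, Bool.and_eq_true, Bool.and_eq_true, Bool.and_eq_true,
    List.all_eq_true, List.all_eq_true, Nat.beq_eq, Nat.ble_eq, Nat.ble_eq, Nat.ble_eq] at h
  obtain ⟨h1, h2, h3, h4, h5, h6⟩ := h
  refine ⟨fun a => ?_, fun i => ?_, h3, h4, h5, ?_⟩
  · have := h1 _ (l.get_mem a)
    rwa [Nat.blt_eq] at this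
  · unfold Tree.len
    by_cases hi : i < l.length
    · rw [getD_eq hi]
      have := h2 _ (l.get_mem ⟨i, hi⟩)
      rwa [Nat.ble_eq] at this
    · rw [List.getD_eq_default _ _ (not_lt.1 hi)]
      exact Nat.zero_le _
  · have : l.getD 0 0 = l.headD 0 := by cases l <;> rfl
    rw [this]
    exact h6

theorem coef_le {k K : Type*} [Field k] [Field K] [Algebra k K] {l : List ℕ}
    (B C : Matrix (IxL l) (IxL l) K) :
    rk k (coef l B C) ≤ rk k ({y | ∃ i < l.length, ∃ j < l.length, ∃ r, y = cf l B i j r} ∪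
      {y | ∃ i < l.length, ∃ j < l.length, ∃ r, y = cf l C i j r}) := by
  refine D13.rk_le ?_
  rintro _ ⟨i, j, m, rfl | rfl⟩
  · by_cases h : i < l.length ∧ j < l.length
    · exact subset_FF _ (Or.inl ⟨i, h.1, j, h.2, m, rfl⟩)
    · have : cf l B i j m = 0 := by
        by_cases hi : i < l.length
        · exact cf_out' (not_lt.1 fun hj => h ⟨hi, hj⟩)
        · exact cf_out'' (not_lt.1 hi)
      rw [this]
      exact zero_mem (FF k _)
  · by_cases h : i < l.length ∧ j < l.length
    · exact subset_FF _ (Or.inr ⟨i, h.1, j, h.2, m, rfl⟩)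
    · have : cf l C i j m = 0 := by
        by_cases hi : i < l.length
        · exact cf_out' (not_lt.1 fun hj => h ⟨hi, hj⟩)
        · exact cf_out'' (not_lt.1 hi)
      rw [this]
      exact zero_mem (FF k _)

/-- **A certificate excludes a Jordan type.** -/
theorem not_bad_of_tree {k : Type u} [Field k] [IsAlgClosed k] [CharZero k] {l : List ℕ} {d : ℕ}
    (hall : HALL k d) (hz : zz l ≤ Module.finrank k (Pur.cen (JU k l))) (N : ℕ) (t : Tree.Tr)
    (h : (ok l d N && (Tree.sys l).check N t) = true) : ¬ Bad k l := by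
  rw [Bool.and_eq_true] at h
  obtain ⟨hl, hmax, rfl, h3, h2, hN⟩ := ok_iff h.1
  refine not_bad_of hl hall h2 h3 hz N hN fun K _ _ _ _ B C _ hR => ?_
  exact (coef_le B C).trans (Tree.rk_sys (k := k) hmax N t h.2
    (fun i j r _ _ hv => (hR.valid hv).1) (fun i j r _ _ hv => (hR.valid hv).2)
    (fun i j r _ _ => hR.syn i j r) fun i k t hi hk ht => hR.comm hi hk ht)

theorem sum_map_get (l : List ℕ) (g : ℕ → ℕ) : (l.map g).sum = ∑ i : Fin l.length, g (l.get i) := by
  conv_lhs => rw [← List.ofFn_get l]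
  rw [List.map_ofFn, List.sum_ofFn]
  rfl

theorem zz_le {k : Type*} [Field k] (l : List ℕ) :
    zz l ≤ Module.finrank k (Pur.cen (JU k l)) := by
  have h1 : zz l = ∑ p : Fin l.length × Fin l.length, min (l.get p.1) (l.get p.2) := by
    unfold zz
    rw [sum_map_get, Fintype.sum_prod_type]
    exact Finset.sum_congr rfl fun i _ => sum_map_get l fun b => min (l.get i) b
  rw [h1]
  exact CenLow.le_finrank _ fun _ h => h

/-- **A certificate excludes a Jordan type.** -/
theorem row {k : Type u} [Field k] [IsAlgClosed k] [CharZero k] {l : List ℕ} {d : ℕ}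
    (hall : HALL k d) (N : ℕ) (t : Tree.Tr) (h : (ok l d N && (Tree.sys l).check N t) = true) :
    ¬ Bad k l :=
  not_bad_of_tree hall (zz_le l) N t h

end Cert

end Pool.Agent.Lib.D13
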