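import Pool.Agent.Lib.D13.CertRow

/-!
# MP_5dcbc3_ag: a certificate with second order relations excludes a Jordan type
-/

set_option autoImplicit false

namespace Pool.Agent.Lib.D13

open Matrix Pool.Agent.Lib.Q5dc Pool.Agent.Lib.D7

universe u

namespace Cert

/-- the second order relations -/
def Quad2 (K : Type*) [Field K] (l : List ℕ) : Prop :=
  ∀ T : Fin 3 → Matrix (IxL l) (IxL l) K, MaxR (fun i => (JU K l ^ i).rank) T → T 0 = JU K l →
    ∀ M ∈ adj T, ∀ p j, p < l.length → j < l.length → Tree.len l p = Tree.len l j →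
      Tree.quad l (cf l M) (cf l M) p j = 0

theorem quad_add {K : Type*} [Field K] {l : List ℕ} (X Y : ℕ → ℕ → ℕ → K) (p j : ℕ) :
    Tree.quad l (fun a b c => X a b c + Y a b c) (fun a b c => X a b c + Y a b c) p j =
      Tree.quad l X X p j + Tree.quad l Y Y p j +
        (Tree.quad l X Y p j + Tree.quad l Y X p j) := by
  unfold Tree.quad
  rw [← Finset.sum_add_distrib, ← Finset.sum_add_distrib, ← Finset.sum_add_distrib]
  refine Finset.sum_congr rfl fun q _ => ?_
  split_ifs <;> ring

/-- **A certificate excludes a Jordan type.** -/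
theorem rowM_of {k : Type u} [Field k] [IsAlgClosed k] [CharZero k] {l : List ℕ} {d : ℕ}
    (hq : ∀ (K : Type u) [Field K] [IsAlgClosed K] [CharZero K], Quad2 K l)
    (hall : HALL k d) (N : ℕ) (t : Tree.Tr)
    (h : (ok l d N && (Tree.sysM l).checkZ N 0 t) = true) : ¬ Bad k l := by
  rw [Bool.and_eq_true] at h
  obtain ⟨hl, hmax, rfl, h3, h2, hN⟩ := ok_iff h.1
  refine not_bad_of hl hall h2 h3 (zz_le l) N hN fun K _ _ _ _ B C hM hR => ?_
  have hB : B ∈ adj ![JU K l, B, C] := mem_adj ![JU K l, B, C] 1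
  have hC : C ∈ adj ![JU K l, B, C] := mem_adj ![JU K l, B, C] 2
  have qB := hq K _ hM rfl B hB
  have qC := hq K _ hM rfl C hC
  have qS := hq K _ hM rfl (B + C) (add_mem hB hC)
  have e : cf l (B + C) = fun a b c => cf l B a b c + cf l C a b c := by
    funext a b c
    exact cf_add B C a b c
  refine (coef_le B C).trans (Tree.rk_sysM (k := k) hmax N 0 t h.2
    (fun i j r _ _ hv => (hR.valid hv).1) (fun i j r _ _ hv => (hR.valid hv).2)
    (fun i j r _ _ => hR.syn i j r) (fun i j r _ _ _ h0 => absurd h0 (by simp))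
    (fun i k t hi hk ht => hR.comm hi hk ht) qB qC fun p j hp hj he => ?_)
  have h4 := qS p j hp hj he
  rw [e, quad_add, qB p j hp hj he, qC p j hp hj he, zero_add, zero_add] at h4
  exact h4

end Cert

end Pool.Agent.Lib.D13
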