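import Pool.Agent.Lib.D13.CertB

/-!
# MP_5dcbc3_ag: the checker for certificates with leading monomials, with a base field

The letters in `U` belong to the base field `FF k t`, those in `W` are units.
-/

set_option autoImplicit false

namespace Pool.Agent.Lib.D13.Cert

open Finset Pool.Agent.Lib.D13.Mono

/-- the letters of a monomial which are not in the base field -/
def vp (U : Finset ℕ) (m : List ℕ) : List ℕ := m.filter fun a => a ∉ U

/-- `mm` is the leading monomial of `p`; its letters in the base field are units -/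
def okLeadU (U W : Finset ℕ) (w : ℕ → ℕ) (p : Pol) (mm : List ℕ) : Bool :=
  (coefOf p mm != 0) && (mm.all fun a => a ∉ U || a ∈ W) &&
    p.all fun t => t.2 = mm || wtm w (vp U t.2) < wtm w (vp U mm) || coefOf p t.2 == 0

theorem prod_vp {K : Type*} [Field K] (x : ℕ → K) (U : Finset ℕ) (m : List ℕ) :
    (m.map x).prod = ((m.filter fun a => a ∈ U).map x).prod * ((vp U m).map x).prod := by
  induction m with
  | nil => simp [vp]
  | cons a m ih =>
    unfold vp at ih ⊢
    by_cases h : a ∈ U
    · simp only [List.filter_cons, h, decide_true, if_true, not_true_eq_false, decide_false,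
        List.map_cons, List.prod_cons]
      rw [ih]
      simp [mul_assoc]
    · simp only [List.filter_cons, h, decide_false, not_false_eq_true, decide_true, if_true,
        List.map_cons, List.prod_cons]
      rw [ih]
      simp [mul_left_comm]

/-- the leading monomial times a unit is a combination of smaller ones -/
theorem lead_memU {F K : Type*} [Field F] [Field K] [CharZero K] [Algebra F K] (x : ℕ → K)
    (V U W : Finset ℕ) (hx : ∀ a, a ∉ V → a ∉ U → x a = 0) (c : ℕ → F)
    (hc : ∀ a ∈ U, algebraMap F K (c a) = x a) (hW : ∀ a ∈ W, x a ≠ 0) (w : ℕ → ℕ) (p : Pol)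
    (mm : List ℕ) (h0 : p.ev x = 0) (hl : okLeadU U W w p mm = true) :
    ∃ u : F, u ≠ 0 ∧ algebraMap F K u * ((vp U mm).map x).prod ∈
      Low F (fun a : V => x a) (fun a : V => w a) (wtm w (vp U mm)) := by
  classical
  unfold okLeadU at hl
  rw [Bool.and_eq_true, Bool.and_eq_true, bne_iff_ne, List.all_eq_true, List.all_eq_true] at hl
  obtain ⟨⟨hcf, hun⟩, hall⟩ := hl
  have hF0 : CharZero F := (algebraMap F K).charZero
  have hprod : ∀ m : List ℕ, algebraMap F K ((m.filter fun a => a ∈ U).map c).prod =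
      ((m.filter fun a => a ∈ U).map x).prod := by
    intro m
    rw [map_list_prod, List.map_map]
    congr 1
    refine List.map_congr_left fun a ha => ?_
    exact hc a (of_decide_eq_true (List.mem_filter.1 ha).2)
  set S : Finset (List ℕ) := insert mm (p.map Prod.snd).toFinset with hS
  have hpS : ∀ t ∈ p, t.2 ∈ S := fun t ht =>
    Finset.mem_insert_of_mem (List.mem_toFinset.2 (List.mem_map_of_mem ht))
  have h1 := ev_eq x p S hpS
  rw [h0, hS, ← Finset.insert_erase (Finset.mem_insert_self mm _), Finset.sum_insert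
    (Finset.notMem_erase _ _)] at h1
  refine ⟨(coefOf p mm : F) * ((mm.filter fun a => a ∈ U).map c).prod, ?_, ?_⟩
  · refine mul_ne_zero (by exact_mod_cast hcf) ?_
    intro h2
    obtain ⟨a, ha, ha0⟩ := List.mem_map.1 (List.prod_eq_zero_iff.1 h2)
    obtain ⟨ham, haU⟩ := List.mem_filter.1 ha
    have haU' : a ∈ U := of_decide_eq_true haU
    have h3 := hun a ham
    rw [Bool.or_eq_true, decide_eq_true_eq, decide_eq_true_eq] at h3
    refine hW a (h3.resolve_left fun h => h haU') ?_
    rw [← hc a haU', ha0, map_zero]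
  · have h2 : algebraMap F K ((coefOf p mm : F) * ((mm.filter fun a => a ∈ U).map c).prod) *
        ((vp U mm).map x).prod = -∑ s ∈ S.erase mm, (coefOf p s : K) * (s.map x).prod := by
      rw [map_mul, hprod, map_intCast, mul_assoc, ← prod_vp]
      linear_combination -h1
    rw [h2]
    refine Submodule.neg_mem _ (Submodule.sum_mem _ fun s hs => ?_)
    rw [Finset.mem_erase, hS, Finset.mem_insert, List.mem_toFinset, List.mem_map] at hs
    obtain ⟨hne, hs⟩ := hs
    obtain ⟨t, ht, rfl⟩ := hs.resolve_left hne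
    have h4 := hall t ht
    rw [Bool.or_eq_true, Bool.or_eq_true, decide_eq_true_eq, decide_eq_true_eq, beq_iff_eq] at h4
    rcases h4 with (h4 | h4) | h4
    · exact absurd h4 hne
    · by_cases hV' : ∀ a ∈ vp U t.2, a ∈ V
      · have h5 : (coefOf p t.2 : K) * (t.2.map x).prod =
            ((coefOf p t.2 : F) * ((t.2.filter fun a => a ∈ U).map c).prod) •
              ((vp U t.2).map x).prod := by
          rw [Algebra.smul_def, map_mul, hprod, map_intCast, mul_assoc, ← prod_vp]
        rw [h5]
        refine Submodule.smul_mem _ _ ?_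
        rw [← mon_count x V _ hV']
        refine mon_mem_low _ _ ?_
        rw [wt_count w V _ hV']
        exact h4
      · push Not at hV'
        obtain ⟨a, ha, haV⟩ := hV'
        unfold vp at ha
        obtain ⟨ham, haU⟩ := List.mem_filter.1 ha
        have h5 : (t.2.map x).prod = 0 :=
          List.prod_eq_zero (List.mem_map.2 ⟨a, ham, hx a haV (of_decide_eq_true haU)⟩)
        rw [h5, mul_zero]
        exact zero_mem _
    · rw [h4, Int.cast_zero, zero_mul]
      exact zero_mem _

/-- **the bound from a certificate, with a base field**: the letters in `U` are in `FF k t`, those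
in `W` are not zero -/
theorem certU {k K : Type*} [Field k] [Field K] [CharZero K] [Algebra k K] (t : Set K)
    (x : ℕ → K) (V U W : Finset ℕ) (hx : ∀ a, a ∉ V → a ∉ U → x a = 0)
    (hU : ∀ a ∈ U, x a ∈ FF k t) (hW : ∀ a ∈ W, x a ≠ 0) (w : ℕ → ℕ) (hw : ∀ a ∈ V, 0 < w a)
    (items : List (Pol × List ℕ)) (h0 : ∀ q ∈ items, q.1.ev x = 0)
    (hl : ∀ q ∈ items, okLeadU U W w q.1 q.2 = true)
    (hn : (items.flatMap fun q => vp U q.2).Nodup) (hne : ∀ q ∈ items, vp U q.2 ≠ [])
    (hV : ∀ q ∈ items, ∀ a ∈ vp U q.2, a ∈ V) :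
    rk k (t ∪ Set.range fun a : V => x a) + items.length ≤ rk k t + V.card := by
  classical
  rw [List.nodup_flatMap] at hn
  obtain ⟨hn1, hn2⟩ := hn
  rw [List.pairwise_iff_getElem] at hn2
  have h1 := rk_le_leaf (k := k) t (fun a : V => x a) (fun a : V => w a) (fun a => hw a a.2)
    (ι := Fin items.length) (fun i => Finset.univ.filter fun a : V => (a : ℕ) ∈ vp U (items[i]).2)
    (fun i => ?_) (fun i j hij => ?_) fun i => ?_
  · rwa [Fintype.card_fin, Fintype.card_coe] at h1
  · obtain ⟨a, ha⟩ := List.exists_mem_of_ne_nil _ (hne _ (List.getElem_mem i.2))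
    exact ⟨⟨a, hV _ (List.getElem_mem i.2) a ha⟩, Finset.mem_filter.2 ⟨Finset.mem_univ _, ha⟩⟩
  · rw [Finset.disjoint_left]
    intro a ha hb
    have ha' := (Finset.mem_filter.1 ha).2
    have hb' := (Finset.mem_filter.1 hb).2
    rcases lt_or_gt_of_ne (fun h => hij (Fin.ext h) : (i : ℕ) ≠ j) with h | h
    · exact hn2 i j i.2 j.2 h ha' hb'
    · exact hn2 j i j.2 i.2 h hb' ha'
  · have hmem := List.getElem_mem i.2
    obtain ⟨u, hu0, hu⟩ := lead_memU (F := FF k t) x V U W hx
      (fun a => if h : a ∈ U then ⟨x a, hU a h⟩ else 0)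
      (fun a ha => by rw [dif_pos ha]; rfl) hW w (items[i]).1 (items[i]).2 (h0 _ hmem)
      (hl _ hmem)
    have hnd := hn1 _ hmem
    have e1 : ∏ j ∈ Finset.univ.filter (fun a : V => (a : ℕ) ∈ vp U (items[i]).2), x j =
        ((vp U (items[i]).2).map x).prod := by
      refine Eq.trans ?_ (List.prod_toFinset x hnd)
      refine Finset.prod_bij (fun a _ => (a : ℕ)) (fun a ha => ?_) (fun a _ b _ h => Subtype.ext h)
        (fun b hb => ?_) fun a _ => rfl
      · exact List.mem_toFinset.2 (Finset.mem_filter.1 ha).2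
      · have hb' := List.mem_toFinset.1 hb
        exact ⟨⟨b, hV _ hmem b hb'⟩, Finset.mem_filter.2 ⟨Finset.mem_univ _, hb'⟩, rfl⟩
    have e2 : ∑ j ∈ Finset.univ.filter (fun a : V => (a : ℕ) ∈ vp U (items[i]).2), w j =
        wtm w (vp U (items[i]).2) := by
      unfold wtm
      refine Eq.trans ?_ (List.sum_toFinset w hnd)
      refine Finset.sum_bij (fun a _ => (a : ℕ)) (fun a ha => ?_) (fun a _ b _ h => Subtype.ext h)
        (fun b hb => ?_) fun a _ => rfl
      · exact List.mem_toFinset.2 (Finset.mem_filter.1 ha).2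
      · have hb' := List.mem_toFinset.1 hb
        exact ⟨⟨b, hV _ hmem b hb'⟩, Finset.mem_filter.2 ⟨Finset.mem_univ _, hb'⟩, rfl⟩
    refine ⟨(u : K), u.2, fun h => hu0 (Subtype.ext h), ?_⟩
    rw [e1, e2]
    exact hu

end Pool.Agent.Lib.D13.Cert
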