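import Pool.Agent.Lib.D13.Decomp

/-!
# MP_5dcbc3_ag: matrices commuting with a maximal bad triple, and rank one moves
-/

namespace Pool.Agent.Lib.D13

open Matrix Pool.Agent.Lib.Q5dc Pool.Agent.Lib.D7

variable {k : Type*} [Field k] {n : Type*} [Fintype n] [DecidableEq n] {ρ : ℕ → ℕ}
  {T : Fin 3 → Matrix n n k}

namespace CommAux

theorem rank_smul' {s : k} (hs : s ≠ 0) (M : Matrix n n k) : (s • M).rank = M.rank := by
  have h7 : s • M = (Matrix.scalar n s) * M := by simp [Matrix.smul_eq_diagonal_mul]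
  rw [h7]
  refine Matrix.rank_mul_eq_right_of_isUnit_det _ _ ?_
  simp [Matrix.scalar_apply, Matrix.det_diagonal, hs]

/-- ranks of the powers at infinity -/
theorem rank_line_inf [Infinite k] (A M : Matrix n n k) (i : ℕ) :
    {s : k | ((A + s • M) ^ i).rank < (M ^ i).rank}.Finite := by
  have hf2 := rank_semicont (fun s => (M + s • A) ^ i) (isPoly_pow (isPoly_line M A) i) 0
  have hf3 : {s : k | ((M + s⁻¹ • A) ^ i).rank < (M ^ i).rank}.Finite := by
    have h1 : {s : k | ((M + s⁻¹ • A) ^ i).rank < (M ^ i).rank} =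
        (fun s => s⁻¹) ⁻¹' {s : k | ((M + s • A) ^ i).rank < ((M + (0 : k) • A) ^ i).rank} := by
      ext s
      simp
    rw [h1]
    exact hf2.preimage (inv_injective.injOn)
  refine (hf3.union (Set.finite_singleton 0)).subset fun s hs => ?_
  by_cases h3 : s = 0
  · right
    exact h3
  · left
    show ((M + s⁻¹ • A) ^ i).rank < (M ^ i).rank
    have h5 : A + s • M = s • (M + s⁻¹ • A) := by
      rw [smul_add, smul_smul, mul_inv_cancel₀ h3, one_smul, add_comm]
    rw [Set.mem_ofPred_eq, h5, smul_pow, rank_smul' (pow_ne_zero i h3)] at hs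
    exact hs

theorem cn_add {D : Fin 3 → Matrix n n k} (hT : CN T) (hD : CN D)
    (h : ∀ i j, D i * T j = T j * D i) (s : k) : CN (T + s • D) := by
  refine ⟨fun i j => ?_, fun i => ?_⟩
  · show (T i + s • D i) * (T j + s • D j) = (T j + s • D j) * (T i + s • D i)
    have e1 : (T i + s • D i) * (T j + s • D j) =
        T i * T j + s • (T i * D j) + s • (D i * T j) + (s * s) • (D i * D j) := by
      simp only [add_mul, mul_add, smul_add, smul_mul_assoc, mul_smul_comm, smul_smul]
      abel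
    have e2 : (T j + s • D j) * (T i + s • D i) =
        T j * T i + s • (T j * D i) + s • (D j * T i) + (s * s) • (D j * D i) := by
      simp only [add_mul, mul_add, smul_add, smul_mul_assoc, mul_smul_comm, smul_smul]
      abel
    rw [e1, e2, hT.1 i j, h i j, h j i, hD.1 i j]
    abel
  · have hc : Commute (T i) (s • D i) := by
      show T i * (s • D i) = (s • D i) * T i
      rw [mul_smul_comm, smul_mul_assoc, h i i]
    exact hc.isNilpotent_add (hT.2 i) ((hD.2 i).smul s)

theorem cn_single {C : Matrix n n k} (hN : IsNilpotent C) : CN ![C, 0, 0] := by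
  refine ⟨fun i j => ?_, fun i => ?_⟩
  · fin_cases i <;> fin_cases j <;> simp
  · fin_cases i
    · exact hN
    · exact IsNilpotent.zero
    · exact IsNilpotent.zero

omit [DecidableEq n] in
/-- the rank grows by adding a matrix of rank one in a new column and a new row direction -/
theorem rank_add_vecMulVec {A : Matrix n n k} {v w : n → k} (hv : ¬ ∃ x, A *ᵥ x = v)
    {u : n → k} (hu : A *ᵥ u = 0) (hw : w ⬝ᵥ u ≠ 0) :
    A.rank + 1 ≤ (A + Matrix.vecMulVec v w).rank := by
  have h1 : ∀ x, (A + Matrix.vecMulVec v w) *ᵥ x = A *ᵥ x + (w ⬝ᵥ x) • v := by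
    intro x
    rw [Matrix.add_mulVec, Matrix.vecMulVec_mulVec]
    simp
  have hvm : v ∈ LinearMap.range (A + Matrix.vecMulVec v w).mulVecLin := by
    refine ⟨(w ⬝ᵥ u)⁻¹ • u, ?_⟩
    rw [Matrix.mulVecLin_apply, Matrix.mulVec_smul, h1, hu, zero_add, smul_smul,
      inv_mul_cancel₀ hw, one_smul]
  have hlt : LinearMap.range A.mulVecLin <
      LinearMap.range (A + Matrix.vecMulVec v w).mulVecLin := by
    refine lt_of_le_of_ne ?_ ?_
    · rintro _ ⟨x, rfl⟩
      have h2 : A *ᵥ x = (A + Matrix.vecMulVec v w) *ᵥ x - (w ⬝ᵥ x) • v := by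
        rw [h1, add_sub_cancel_right]
      show A *ᵥ x ∈ _
      rw [h2]
      exact sub_mem ⟨x, rfl⟩ (Submodule.smul_mem _ _ hvm)
    · intro h
      rw [← h] at hvm
      exact hv hvm
  exact Submodule.finrank_lt_finrank_of_lt hlt

/-- adding `s P` to a nilpotent `A` with `P A ^ j P = 0` for all `j` -/
theorem nilp_add {A P : Matrix n n k} (hA : IsNilpotent A) (h : ∀ j : ℕ, P * A ^ j * P = 0)
    (s : k) : IsNilpotent (A + s • P) := by
  let W : Submodule k (Matrix n n k) :=
    Submodule.span k {M | ∃ i j : ℕ, M = A ^ i * P * A ^ j}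
  have hW : ∀ R ∈ W, A * R ∈ W ∧ P * R = 0 := by
    intro R hR
    induction hR using Submodule.span_induction with
    | mem x hx =>
      obtain ⟨i, j, rfl⟩ := hx
      refine ⟨Submodule.subset_span ⟨i + 1, j, ?_⟩, ?_⟩
      · rw [pow_succ']
        simp only [Matrix.mul_assoc]
      · have h1 : P * (A ^ i * P * A ^ j) = (P * A ^ i * P) * A ^ j := by
          simp only [Matrix.mul_assoc]
        rw [h1, h, zero_mul]
    | zero => exact ⟨by simp, by simp⟩
    | add x y _ _ hx hy =>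
      rw [mul_add, mul_add, hx.2, hy.2]
      exact ⟨add_mem hx.1 hy.1, by simp⟩
    | smul a x _ hx =>
      rw [mul_smul_comm, mul_smul_comm, hx.2]
      exact ⟨Submodule.smul_mem _ _ hx.1, by simp⟩
  have h1 : ∀ m : ℕ, ∀ R ∈ W, (A + s • P) ^ m * R = A ^ m * R ∧ A ^ m * R ∈ W := by
    intro m
    induction m with
    | zero =>
      intro R hR
      simpa using hR
    | succ m ih =>
      intro R hR
      obtain ⟨h2, h3⟩ := ih R hR
      have h4 := hW _ h3
      rw [pow_succ', Matrix.mul_assoc, h2, add_mul, smul_mul_assoc, h4.2, smul_zero, add_zero,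
        ← Matrix.mul_assoc, ← pow_succ']
      refine ⟨rfl, ?_⟩
      rw [pow_succ', Matrix.mul_assoc]
      exact h4.1
  have h2 : ∀ m : ℕ, ∃ R ∈ W, (A + s • P) ^ m = A ^ m + R := by
    intro m
    induction m with
    | zero => exact ⟨0, zero_mem _, by simp⟩
    | succ m ih =>
      obtain ⟨R, hR, e⟩ := ih
      have h4 := hW _ hR
      refine ⟨s • (A ^ 0 * P * A ^ m) + A * R,
        add_mem (Submodule.smul_mem _ _ (Submodule.subset_span ⟨0, m, rfl⟩)) h4.1, ?_⟩
      rw [pow_succ', e, add_mul, mul_add, mul_add, smul_mul_assoc, smul_mul_assoc, h4.2,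
        pow_succ' A m]
      simp only [pow_zero, one_mul, smul_zero, add_zero]
      abel
  obtain ⟨e, he⟩ := hA
  obtain ⟨R, hR, h3⟩ := h2 e
  refine ⟨e + e, ?_⟩
  rw [pow_add]
  nth_rewrite 2 [h3]
  rw [he, zero_add, (h1 e R hR).1, he, zero_mul]

end CommAux

open CommAux

/-- almost all triples of a line of commuting nilpotent triples through a maximal bad triple are
maximal bad triples -/
theorem MaxR.line [Infinite k] (hT : MaxR ρ T) (D : Fin 3 → Matrix n n k)
    (hcn : ∀ s : k, CN (T + s • D)) : {s : k | ¬ MaxR ρ (T + s • D)}.Finite := by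
  obtain ⟨E, hE, h⟩ := hT.deform (fun s => T + s • D) (PolyFam.line T D) (by simp)
    Set.finite_empty (fun s _ => hcn s)
  exact hE.subset fun s hs => by
    by_contra h1
    exact hs (h s h1)

/-- the direction of a line of commuting nilpotent triples through a maximal bad triple satisfies
the rank bounds -/
theorem MaxR.line_rank [Infinite k] (hT : MaxR ρ T) (D : Fin 3 → Matrix n n k)
    (hcn : ∀ s : k, CN (T + s • D)) (j : Fin 3) (i : ℕ) : (D j ^ i).rank ≤ ρ i := by
  obtain ⟨s, hs⟩ := ((MaxR.line hT D hcn).union (rank_line_inf (T j) (D j) i)).exists_notMem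
  simp only [Set.mem_union, not_or, Set.mem_ofPred_eq, not_not, not_lt] at hs
  exact hs.2.trans (hs.1.rank_le (mem_adj _ j) i)

/-- a nilpotent matrix commuting with a maximal bad triple may be added to its first matrix -/
theorem MaxR.add_comm [Infinite k] (hT : MaxR ρ T) {C : Matrix n n k}
    (hC : ∀ i, C * T i = T i * C) (hN : IsNilpotent C) :
    {s : k | ¬ MaxR ρ (T + s • ![C, 0, 0])}.Finite :=
  MaxR.line hT _ (cn_add hT.cn (cn_single hN) fun i j => by
    fin_cases i
    · exact hC j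
    · simp
    · simp)

/-- nilpotent matrices commuting with a maximal bad triple satisfy the rank bounds -/
theorem MaxR.rank_comm [Infinite k] (hT : MaxR ρ T) {C : Matrix n n k}
    (hC : ∀ i, C * T i = T i * C) (hN : IsNilpotent C) (i : ℕ) : (C ^ i).rank ≤ ρ i :=
  MaxR.line_rank hT ![C, 0, 0] (cn_add hT.cn (cn_single hN) fun i j => by
    fin_cases i
    · exact hC j
    · simp
    · simp) 0 i

/-- matrices commuting with a maximal bad triple of minimal size have one eigenvalue -/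
theorem MaxR.comm_nilp [IsAlgClosed k] [CharZero k]
    (hall : ∀ r : ℕ, 0 < r → r < Fintype.card n → ∀ T : Fin 3 → Matrix (Fin r) (Fin r) k,
      CN T → Cl T) (hT : MaxR ρ T) {C : Matrix n n k} (hC : ∀ i, C * T i = T i * C) :
    ∃ c : k, IsNilpotent (C - c • (1 : Matrix n n k)) := by
  rcases isEmpty_or_nonempty n with hn | hn
  · exact ⟨0, 1, Subsingleton.elim _ _⟩
  obtain ⟨c, hc⟩ := Module.End.exists_eigenvalue (Matrix.mulVecLin C : Module.End k (n → k))
  obtain ⟨v, hv⟩ := hc.exists_hasEigenvector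
  refine ⟨c, ?_⟩
  generalize hD' : C - c • (1 : Matrix n n k) = D
  have hD : ∀ i, D * T i = T i * D := by
    intro i
    rw [← hD', sub_mul, mul_sub, hC, smul_mul_assoc, one_mul, mul_smul_comm, mul_one]
  have hDp : ∀ (m : ℕ) (i : Fin 3), D ^ m * T i = T i * D ^ m := by
    intro m i
    have h1 : Commute D (T i) := hD i
    exact h1.pow_left m
  have hDv : D *ᵥ v = 0 := by
    have h1 : C *ᵥ v = c • v := hv.apply_eq_smul
    rw [← hD', Matrix.sub_mulVec, h1, Matrix.smul_mulVec, Matrix.one_mulVec, sub_self]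
  obtain ⟨m, hm, hm1⟩ := ((LinearMap.eventually_isCompl_ker_pow_range_pow
    (Matrix.mulVecLin D)).and (Filter.eventually_ge_atTop 1)).exists
  have hp : Matrix.mulVecLin D ^ m = Matrix.mulVecLin (D ^ m) :=
    (map_pow (Matrix.toLinAlgEquiv' : Matrix n n k ≃ₐ[k] _) D m).symm
  rw [hp] at hm
  by_contra hN
  refine hT.ncl (cl_of_isCompl hall hT.cn hm ?_ ?_ ?_ ?_)
  · intro i v hv
    rw [LinearMap.mem_ker, Matrix.mulVecLin_apply] at hv ⊢
    rw [Matrix.mulVec_mulVec, hDp, ← Matrix.mulVec_mulVec, hv, Matrix.mulVec_zero]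
  · rintro i _ ⟨v, rfl⟩
    refine ⟨T i *ᵥ v, ?_⟩
    simp only [Matrix.mulVecLin_apply, Matrix.mulVec_mulVec, hDp]
  · intro h
    have h1 : v ∈ LinearMap.ker (Matrix.mulVecLin (D ^ m)) := by
      rw [LinearMap.mem_ker, Matrix.mulVecLin_apply]
      obtain ⟨l, rfl⟩ := Nat.exists_eq_add_of_le' hm1
      rw [pow_succ, ← Matrix.mulVec_mulVec, hDv, Matrix.mulVec_zero]
    rw [h, Submodule.mem_bot] at h1
    exact hv.2 h1
  · intro h
    apply hN
    refine ⟨m, ?_⟩
    apply Matrix.toLin'.injective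
    rw [map_zero]
    exact LinearMap.range_eq_bot.1 h

/-- matrices commuting with a maximal bad triple of minimal size: eigenvalue and rank bounds -/
theorem MaxR.comm_rank [IsAlgClosed k] [CharZero k]
    (hall : ∀ r : ℕ, 0 < r → r < Fintype.card n → ∀ T : Fin 3 → Matrix (Fin r) (Fin r) k,
      CN T → Cl T) (hT : MaxR ρ T) {C : Matrix n n k} (hC : ∀ i, C * T i = T i * C) :
    ∃ c : k, ∀ i, ((C - c • (1 : Matrix n n k)) ^ i).rank ≤ ρ i := by
  obtain ⟨c, hc⟩ := MaxR.comm_nilp hall hT hC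
  refine ⟨c, fun i => MaxR.rank_comm hT (fun j => ?_) hc i⟩
  rw [sub_mul, mul_sub, hC, smul_mul_assoc, one_mul, mul_smul_comm, mul_one]

/-- rank one moves of the first matrix -/
theorem MaxR.rank_one [Infinite k] (hT : MaxR ρ T) (h1 : (T 0).rank = ρ 1) {v w : n → k}
    (hv : ∀ i, i ≠ 0 → T i *ᵥ v = 0) (hw : ∀ i, i ≠ 0 → w ᵥ* T i = 0)
    (hn : ∀ j : ℕ, w ⬝ᵥ ((T 0 ^ j) *ᵥ v) = 0) :
    (∃ x, T 0 *ᵥ x = v) ∨ ∀ u, T 0 *ᵥ u = 0 → w ⬝ᵥ u = 0 := by
  by_contra h
  rw [not_or, not_forall] at h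
  obtain ⟨h2, u, h3⟩ := h
  rw [Classical.not_imp] at h3
  obtain ⟨h3, h4⟩ := h3
  have hP : ∀ j : ℕ, Matrix.vecMulVec v w * T 0 ^ j * Matrix.vecMulVec v w = 0 := by
    intro j
    rw [Matrix.vecMulVec_mul, Matrix.vecMulVec_mul_vecMulVec, ← Matrix.dotProduct_mulVec, hn]
    simp
  have hcn : ∀ s : k, CN (T + s • ![Matrix.vecMulVec v w, 0, 0]) := by
    intro s
    have e0 : (T + s • ![Matrix.vecMulVec v w, 0, 0]) 0 = T 0 + s • Matrix.vecMulVec v w := rfl
    have e1 : ∀ i, i ≠ 0 → (T + s • ![Matrix.vecMulVec v w, 0, 0]) i = T i := by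
      intro i hi
      have h5 : (![Matrix.vecMulVec v w, 0, 0] : Fin 3 → Matrix n n k) i = 0 := by
        fin_cases i
        · exact absurd rfl hi
        · rfl
        · rfl
      show T i + s • (![Matrix.vecMulVec v w, 0, 0] : Fin 3 → Matrix n n k) i = T i
      rw [h5, smul_zero, add_zero]
    have e2 : ∀ i, i ≠ 0 → (T 0 + s • Matrix.vecMulVec v w) * T i =
        T i * (T 0 + s • Matrix.vecMulVec v w) := by
      intro i hi
      rw [add_mul, mul_add, hT.cn.1 0 i, smul_mul_assoc, mul_smul_comm, Matrix.vecMulVec_mul,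
        Matrix.mul_vecMulVec, hv i hi, hw i hi]
      simp
    refine ⟨fun i j => ?_, fun i => ?_⟩
    · by_cases hi : i = 0
      · by_cases hj : j = 0
        · rw [hi, hj]
        · rw [hi, e0, e1 j hj, e2 j hj]
      · by_cases hj : j = 0
        · rw [hj, e0, e1 i hi, e2 i hi]
        · rw [e1 i hi, e1 j hj, hT.cn.1 i j]
    · by_cases hi : i = 0
      · rw [hi, e0]
        exact nilp_add (hT.cn.2 0) hP s
      · rw [e1 i hi]
        exact hT.cn.2 i
  obtain ⟨s, hs⟩ := ((MaxR.line hT _ hcn).union (Set.finite_singleton (0 : k))).exists_notMem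
  simp only [Set.mem_union, not_or, Set.mem_ofPred_eq, not_not, Set.mem_singleton_iff] at hs
  have h5 := hs.1.rank_le (mem_adj _ 0) 1
  have e0 : (T + s • ![Matrix.vecMulVec v w, 0, 0]) 0 = T 0 + Matrix.vecMulVec v (s • w) := by
    rw [Matrix.vecMulVec_smul]
    rfl
  rw [pow_one, e0] at h5
  have h6 := rank_add_vecMulVec h2 (w := s • w) h3 (by
    rw [smul_dotProduct]
    exact mul_ne_zero hs.2 h4)
  omega

/-- socle vectors and cosocle vectors of a maximal bad triple of minimal size -/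
theorem MaxR.socle_range [IsAlgClosed k] [CharZero k]
    (hall : ∀ r : ℕ, 0 < r → r < Fintype.card n → ∀ T : Fin 3 → Matrix (Fin r) (Fin r) k,
      CN T → Cl T) (hT : MaxR ρ T) (hn : 2 ≤ Fintype.card n) {A : Matrix n n k}
    (hA : A ∈ adj T) (hr : A.rank = ρ 1) {v w : n → k} (hv : ∀ i, T i *ᵥ v = 0)
    (hw : ∀ i, w ᵥ* T i = 0) : (∃ x, A *ᵥ x = v) ∨ ∀ u, A *ᵥ u = 0 → w ⬝ᵥ u = 0 := by
  by_contra h
  rw [not_or, not_forall] at h
  obtain ⟨h2, u, h3⟩ := h
  rw [Classical.not_imp] at h3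
  obtain ⟨h3, h4⟩ := h3
  have h5 := rank_add_vecMulVec h2 (w := w) h3 h4
  have h0 : w ⬝ᵥ v = 0 := MaxR.socle hall hT hn hv hw
  have hPT : ∀ i, Matrix.vecMulVec v w * T i = 0 ∧ T i * Matrix.vecMulVec v w = 0 := by
    intro i
    rw [Matrix.vecMulVec_mul, Matrix.mul_vecMulVec, hv, hw]
    simp
  have hPA : ∀ M ∈ adj T, Matrix.vecMulVec v w * M = 0 ∧ M * Matrix.vecMulVec v w = 0 := by
    intro M hM
    unfold adj at hM
    induction hM using NonUnitalAlgebra.adjoin_induction with
    | mem x hx =>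
      obtain ⟨i, rfl⟩ := hx
      exact hPT i
    | zero => simp
    | add x y _ _ hx hy =>
      rw [mul_add, add_mul, hx.1, hx.2, hy.1, hy.2]
      simp
    | mul x y _ _ hx hy =>
      rw [← mul_assoc, hx.1, mul_assoc, hy.2]
      simp
    | smul a x _ hx =>
      rw [mul_smul_comm, smul_mul_assoc, hx.1, hx.2]
      simp
  have hC : ∀ i, (A + Matrix.vecMulVec v w) * T i = T i * (A + Matrix.vecMulVec v w) := by
    intro i
    rw [add_mul, mul_add, (hPT i).1, (hPT i).2, hT.cn.comm hA (mem_adj T i)]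
  have hN : IsNilpotent (A + Matrix.vecMulVec v w) := by
    have hc : Commute A (Matrix.vecMulVec v w) := by
      show A * Matrix.vecMulVec v w = Matrix.vecMulVec v w * A
      rw [(hPA A hA).1, (hPA A hA).2]
    refine hc.isNilpotent_add (hT.cn.nilp hA) ⟨2, ?_⟩
    rw [pow_two, Matrix.vecMulVec_mul_vecMulVec, h0]
    simp
  have h6 := MaxR.rank_comm hT hC hN 1
  rw [pow_one] at h6
  omega

end Pool.Agent.Lib.D13
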