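import Pool.Agent.Lib.D13.Axis
import Pool.Agent.Lib.D13.Comm

/-!
# MP_5dcbc3_ag: vectors in the image of a matrix of maximal rank

`T` maximal, `A`, `X` in `adj T`, `A` of maximal rank: `A a = 0` implies `X a ∈ im A`; `A a = 0` and
`X a = A b` imply `X b ∈ im A`. If `g` is killed by `A`, `B` and `ζ` kills the images of `A`, `B`,
then `g ∈ im A` or `ζ` vanishes on the kernel of `A`.
-/

namespace Pool.Agent.Lib.D13

open Matrix Pool.Agent.Lib.Q5dc Pool.Agent.Lib.D7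

variable {k n : Type*} [Field k] [Fintype n] [DecidableEq n] {ρ : ℕ → ℕ}
  {T : Fin 3 → Matrix n n k}

/-- a vector in the image of `A + s X` for all `s ≠ 0` is in the image of `A` -/
theorem MaxR.im_line [Infinite k] (hT : MaxR ρ T) {A X : Matrix n n k} (hA : A ∈ adj T)
    (hr : A.rank = ρ 1) (hX : X ∈ adj T) {y : n → k}
    (h : ∀ s : k, s ≠ 0 → ∃ x, (A + s • X) *ᵥ x = y) : ∃ x, A *ᵥ x = y := by
  by_contra hy
  obtain ⟨u, hu, hu0⟩ : ∃ u, A *ᵥ u = 0 ∧ u ≠ 0 := by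
    by_contra hno
    push Not at hno
    have hinj : Function.Injective A.mulVecLin := by
      rw [← LinearMap.ker_eq_bot, LinearMap.ker_eq_bot']
      intro m hm
      exact hno m hm
    obtain ⟨x, hx⟩ := LinearMap.injective_iff_surjective.1 hinj y
    exact hy ⟨x, hx⟩
  obtain ⟨i, hi⟩ : ∃ i, u i ≠ 0 := Function.ne_iff.1 hu0
  have h1 : ρ 1 + 1 ≤ (A + vecMulVec y (Pi.single i 1)).rank := by
    rw [← hr]
    exact CommAux.rank_add_vecMulVec hy hu (by simpa using hi)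
  have hf := rank_semicont (fun s => (A + vecMulVec y (Pi.single i 1)) + s • X)
    (isPoly_line _ _) 0
  obtain ⟨s, hs⟩ := (hf.union (Set.finite_singleton 0)).exists_notMem
  simp only [Set.mem_union, not_or, Set.mem_ofPred_eq, not_lt, Set.mem_singleton_iff, zero_smul,
    add_zero] at hs
  obtain ⟨x, hx⟩ := h s hs.2
  have e : A + vecMulVec y (Pi.single i 1) + s • X =
      (A + s • X) * (1 + vecMulVec x (Pi.single i 1)) := by
    rw [mul_add, mul_one, mul_vecMulVec, hx]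
    abel
  have h2 : (A + vecMulVec y (Pi.single i 1) + s • X).rank ≤ (A + s • X).rank := by
    rw [e]
    exact rank_mul_le_left _ _
  have h3 := hT.rank_le (add_mem hA (SMulMemClass.smul_mem s hX)) 1
  rw [pow_one] at h3
  have h4 := hs.1
  omega

/-- first order: `A a = 0` implies `X a ∈ im A` -/
theorem MaxR.rk1 [Infinite k] (hT : MaxR ρ T) {A X : Matrix n n k} (hA : A ∈ adj T)
    (hr : A.rank = ρ 1) (hX : X ∈ adj T) {a : n → k} (ha : A *ᵥ a = 0) :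
    ∃ x, A *ᵥ x = X *ᵥ a := by
  refine MaxR.im_line hT hA hr hX fun s hs => ⟨s⁻¹ • a, ?_⟩
  rw [add_mulVec, mulVec_smul, ha, smul_mulVec, mulVec_smul, smul_smul, mul_inv_cancel₀ hs]
  simp

/-- second order: `A a = 0`, `X a = A b` imply `X b ∈ im A` -/
theorem MaxR.rk2 [Infinite k] (hT : MaxR ρ T) {A X : Matrix n n k} (hA : A ∈ adj T)
    (hr : A.rank = ρ 1) (hX : X ∈ adj T) {a b : n → k} (ha : A *ᵥ a = 0)
    (hb : X *ᵥ a = A *ᵥ b) : ∃ x, A *ᵥ x = X *ᵥ b := by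
  refine MaxR.im_line hT hA hr hX fun s hs => ⟨-(s⁻¹ * s⁻¹) • a + s⁻¹ • b, ?_⟩
  simp only [add_mulVec, mulVec_add, mulVec_smul, smul_mulVec, ha, hb, smul_add, smul_smul,
    zero_add]
  rw [show -(s⁻¹ * s⁻¹) * s = -s⁻¹ by field_simp, inv_mul_cancel₀ hs, one_smul, neg_smul]
  abel

/-- third order -/
theorem MaxR.rk3 [Infinite k] (hT : MaxR ρ T) {A X : Matrix n n k} (hA : A ∈ adj T)
    (hr : A.rank = ρ 1) (hX : X ∈ adj T) {a b c : n → k} (ha : A *ᵥ a = 0)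
    (hb : X *ᵥ a = A *ᵥ b) (hc : X *ᵥ b = A *ᵥ c) : ∃ x, A *ᵥ x = X *ᵥ c := by
  refine MaxR.im_line hT hA hr hX fun s hs =>
    ⟨(s⁻¹ * s⁻¹ * s⁻¹) • a + -(s⁻¹ * s⁻¹) • b + s⁻¹ • c, ?_⟩
  simp only [add_mulVec, mulVec_add, mulVec_smul, smul_mulVec, ha, hb, hc, smul_add, smul_smul,
    zero_add]
  rw [show -(s⁻¹ * s⁻¹) * s = -s⁻¹ by field_simp, inv_mul_cancel₀ hs, one_smul, neg_smul,
    show s⁻¹ * s⁻¹ * s⁻¹ * s = s⁻¹ * s⁻¹ by field_simp, neg_smul]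
  abel

theorem cn_kl {A B C : Matrix n n k} (hT : CN ![A, B, C]) {g ζ : n → k} (hAg : A *ᵥ g = 0)
    (hBg : B *ᵥ g = 0) (hζA : ζ ᵥ* A = 0) (hζB : ζ ᵥ* B = 0)
    (hn : ∀ j : ℕ, ζ ⬝ᵥ (C ^ j *ᵥ g) = 0) (s : k) :
    CN ![A, B, C + s • vecMulVec g ζ] := by
  have hAB : A * B = B * A := hT.1 0 1
  have hAC : A * C = C * A := hT.1 0 2
  have hBC : B * C = C * B := hT.1 1 2
  refine D8.cn3 hAB ?_ ?_ (hT.2 0) (hT.2 1) ?_
  · rw [mul_add, add_mul, hAC, mul_smul_comm, smul_mul_assoc, mul_vecMulVec, vecMulVec_mul, hAg,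
      hζA]
    simp
  · rw [mul_add, add_mul, hBC, mul_smul_comm, smul_mul_assoc, mul_vecMulVec, vecMulVec_mul, hBg,
      hζB]
    simp
  · have hC : IsNilpotent C := hT.2 2
    refine CommAux.nilp_add hC (fun j => ?_) s
    rw [vecMulVec_mul, vecMulVec_mul_vecMulVec, ← dotProduct_mulVec, hn]
    simp

/-- the move of `C` by a matrix of rank one commuting with `A`, `B` -/
theorem MaxR.kl_move [Infinite k] {A B C : Matrix n n k} (hT : MaxR ρ ![A, B, C]) {g ζ : n → k}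
    (hAg : A *ᵥ g = 0) (hBg : B *ᵥ g = 0) (hζA : ζ ᵥ* A = 0) (hζB : ζ ᵥ* B = 0)
    (hn : ∀ j : ℕ, ζ ⬝ᵥ (C ^ j *ᵥ g) = 0) :
    ∃ E : Set k, E.Finite ∧ ∀ s ∉ E, MaxR ρ ![A, B, C + s • vecMulVec g ζ] := by
  have hfam : ∀ s : k, ![A, B, C] + s • ![0, 0, vecMulVec g ζ] =
      ![A, B, C + s • vecMulVec g ζ] := by
    intro s
    rw [D8.line3_eq]
    simp
  obtain ⟨E, hE, h1⟩ := hT.deform (fun s => ![A, B, C] + s • ![0, 0, vecMulVec g ζ])
    (PolyFam.line _ _) (by simp) Set.finite_empty (fun s _ => by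
      rw [hfam]
      exact cn_kl hT.cn hAg hBg hζA hζB hn s)
  exact ⟨E, hE, fun s hs => by
    have h2 := h1 s hs
    rwa [hfam] at h2⟩

/-- `g` killed by `A`, `B`; `ζ` kills the images of `A`, `B`: `g ∈ im A` or `ζ = 0` on `ker A` -/
theorem MaxR.kl [Infinite k] {A B C : Matrix n n k} (hT : MaxR ρ ![A, B, C])
    (hr : A.rank = ρ 1) {g ζ : n → k}
    (hAg : A *ᵥ g = 0) (hBg : B *ᵥ g = 0) (hζA : ζ ᵥ* A = 0) (hζB : ζ ᵥ* B = 0)
    (hn : ∀ j : ℕ, ζ ⬝ᵥ (C ^ j *ᵥ g) = 0) {u : n → k} (hu : A *ᵥ u = 0) (hζu : ζ ⬝ᵥ u ≠ 0) :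
    ∃ x, A *ᵥ x = g := by
  obtain ⟨E, hE, h1⟩ := MaxR.kl_move hT hAg hBg hζA hζB hn
  obtain ⟨s, hs⟩ := (hE.union (Set.finite_singleton 0)).exists_notMem
  simp only [Set.mem_union, not_or, Set.mem_singleton_iff] at hs
  obtain ⟨x, hx⟩ := MaxR.rk1 hT (D8.mem0 _ _ _) hr (D8.mem2 _ _ _) hu
  obtain ⟨y, hy⟩ := MaxR.rk1 (h1 s hs.1) (D8.mem0 _ _ _) hr (D8.mem2 _ _ _) hu
  refine ⟨(s * (ζ ⬝ᵥ u))⁻¹ • (y - x), ?_⟩
  rw [mulVec_smul, mulVec_sub, hx, hy, add_mulVec, smul_mulVec, vmv, add_sub_cancel_left,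
    smul_smul, smul_smul, mul_assoc, inv_mul_cancel₀ (mul_ne_zero hs.2 hζu), one_smul]

end Pool.Agent.Lib.D13
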