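import Pool.Agent.Lib.D13.Refl

/-!
# MP_5dcbc3_ag: density certificates, levels (1,4,4,1), d = 10: `x, y, z = t, t ^ 3, t ^ 4`, `t ^ 2` replaced by `t ^ 2 + t ^ 7`
-/

namespace Pool.Agent.Lib.D13.R1441

open Refl

/-- the base point -/
def bs : Base where
  lev := [0, 1, 1, 1, 1, 2, 2, 2, 2, 3]
  pw := [[[(0, 1)], [(1, 1)], [(2, 1)], [(3, 1)], [(4, 1)], [(5, 1)], [(6, 1)], [(7, 1)], [(8, 1)],
      [(9, 1)]],
    [[], [(0, 1)], [(1, 1)], [(2, 1)], [(3, 1)], [(4, 1)], [(5, 1)], [(1, -1), (6, 1)], [(2,
      1), (7, 1)], [(8, 1)]],
    [[], [], [(0, 1)], [(1, 1)], [(2, 1)], [(3, 1)], [(4, 1)], [(0, -1), (5, 1)], [(6, 1)],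
      [(2, 1), (7, 1)]],
    [[], [], [], [(0, 1)], [(1, 1)], [(2, 1)], [(3, 1)], [(4, 1)], [(5, 1)], [(6, 1)]],
    [[], [], [], [], [(0, 1)], [(1, 1)], [(2, 1)], [(3, 1)], [(4, 1)], [(5, 1)]],
    [[], [], [], [], [], [(0, 1)], [(1, 1)], [(2, 1)], [(3, 1)], [(4, 1)]],
    [[], [], [], [], [], [], [(0, 1)], [(1, 1)], [(2, 1)], [(3, 1)]],
    [[], [], [], [], [], [], [], [(0, 1)], [(1, 1)], [(2, 1)]],
    [[], [], [], [], [], [], [], [], [(0, 1)], [(1, 1)]],
    [[], [], [], [], [], [], [], [], [], [(0, 1)]]]
  xc := [[(1, 1)], [(3, 1)], [(4, 1)]]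
  X := [[[], [(0, 1)], [(1, 1)], [(2, 1)], [(3, 1)], [(4, 1)], [(5, 1)], [(1, -1), (6, 1)], [(2,
      1), (7, 1)], [(8, 1)]],
    [[], [], [], [(0, 1)], [(1, 1)], [(2, 1)], [(3, 1)], [(4, 1)], [(5, 1)], [(6, 1)]],
    [[], [], [], [], [(0, 1)], [(1, 1)], [(2, 1)], [(3, 1)], [(4, 1)], [(5, 1)]]]

theorem bs_ck : bs.ck 10 = true := by decide +kernel

/-- certificate -/
def ce1 : Cer where
  den := 6
  N := [[],
    [[(53, 2), (64, -2), (162, 2), (173, 2), (184, 4), (250, 6), (272, -2), (283, -4)],
      [(130, -6), (152, -6), (163, -6), (251, 6), (262, 6)],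
      [(61, 12), (94, -12), (164, -12), (181, -12), (192, 12), (230, -12), (252, 6), (296, 6)],
      [(40, -2), (62, 2), (110, -4), (171, -2), (193, 2), (198, 2), (253, 2), (270, 2), (292,
      -2), (297, 2)],
      [(210, -4), (254, 2), (298, 2)],
      [],
      [],
      [],
      [],
      []],
    [[(52, 6), (63, -12), (74, 6), (172, -6), (194, 6), (210, -6), (260, 6), (293, -6), (298,
      6)],
      [(53, 6), (64, -6), (184, 6), (261, 6), (283, -6)],
      [(130, -6), (163, -6), (262, 6)],
      [(153, 6), (164, -6), (230, -6), (296, 6)],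
      [(40, -5), (51, -6), (62, -1), (84, 6), (95, 6), (110, 2), (171, 1), (193, -1), (198, -1),
      (253, 2), (270, 5), (292, -5), (297, 8)],
      [],
      [],
      [],
      [],
      []],
    [[(40, 7), (51, 6), (62, 5), (73, 6), (110, -4), (171, 1), (193, -1), (198, 5), (253, 2),
      (270, -1), (292, 1), (297, -4)],
      [(52, 6), (63, -6), (172, -6), (194, 6), (271, 6), (293, -6), (298, 6)],
      [(53, 4), (64, -4), (162, 4), (173, -2), (184, 2), (272, 2), (283, -2)],
      [(130, -6)],
      [(61, -6), (94, 6), (164, 6), (181, 6), (192, -6)],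
      [],
      [],
      [],
      [],
      []],
    [[],
      [(40, 1), (51, 6), (62, 5), (73, 6), (110, -4), (171, 1), (193, -1), (198, 5), (253, 2),
      (270, -1), (292, 1), (297, -4)],
      [(52, 6), (63, -6), (210, -2), (254, -2), (298, 4)],
      [(53, 2), (64, -2), (162, 2), (173, 2), (184, -2), (272, -2), (283, 2)],
      [(130, -6), (174, 6), (273, -6)],
      [],
      [],
      [],
      [],
      []],
    [[(60, 6)],
      [],
      [(62, 6), (73, 6), (110, -6), (198, 6)],
      [],
      [],
      [(130, -6), (152, -6), (163, -6), (262, 6)],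
      [(61, 6), (94, -6), (164, -6), (181, -6), (192, 6), (230, -6), (296, 6)],
      [(40, -1), (62, 1), (110, -2), (171, -1), (193, 1), (198, 1), (253, -2), (270, 1), (292,
      -1), (297, 4)],
      [(210, -2), (254, -2), (298, 4)],
      []],
    [[(53, -6), (64, 6), (70, 6), (81, 6), (92, 6), (250, 6), (261, -6), (283, 6), (294, -6)],
      [],
      [(61, -6), (94, 6), (280, 6), (291, -6)],
      [(40, -2), (62, 2), (73, 6), (110, -4), (171, -2), (193, 2), (198, 2), (253, 2), (270, 2),
      (292, -2), (297, 2)],
      [],
      [(53, 4), (64, -4), (162, -2), (173, -2), (184, 2), (272, 2), (283, -2)],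
      [(130, -6), (163, -6)],
      [],
      [(40, 2), (62, -2), (110, -2), (171, 2), (193, -2), (198, 4), (253, -2), (270, -2), (292,
      2), (297, -2)],
      []],
    [[(52, -6), (63, 12), (74, -6), (80, 6), (172, 6), (194, -6), (210, 6), (260, -6), (293, 6),
      (298, -6)],
      [(53, -12), (64, 6), (81, 6), (92, 6), (184, -6), (261, -6), (283, 12), (294, -6)],
      [(54, -6), (71, -6), (152, 12), (163, 12), (174, 6), (251, -6), (262, -12), (273, -12)],
      [(61, -6), (72, -6), (94, 12), (230, 6), (252, -6), (274, 6), (280, 12), (291, -12), (296,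
      -6)],
      [],
      [(63, 6), (74, -6), (210, 4), (254, -2), (298, -2)],
      [(53, 2), (64, -2), (162, 2), (173, -4), (184, -2), (272, -2), (283, 2)],
      [(130, -6), (273, -6)],
      [(61, -12), (94, 12), (164, 12), (181, 12), (192, -12), (230, 6), (274, -6)],
      []],
    [[],
      [],
      [(53, -6), (92, 6), (184, -6), (283, 6), (294, -6)],
      [(54, 6), (71, -6), (82, -6), (98, -6), (152, 6), (174, -6), (251, -6), (295, 6)],
      [(61, -6), (72, -6), (83, -6), (94, 18), (153, 6), (164, -6), (252, -6), (274, 6), (280,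
      18), (291, -18)],
      [(40, -5), (51, -6), (62, -1), (95, 6), (110, 2), (171, 1), (193, -1), (198, -1), (253, 2),
      (270, 5), (292, -5), (297, 8)],
      [(63, 6), (74, -6), (172, 6), (194, -6), (210, 6), (282, -6), (293, 6)],
      [(184, -6)],
      [(54, -6), (98, 6), (130, -6), (174, 6), (273, -6), (295, -6)],
      []],
    [[],
      [(90, -6)],
      [(52, -6), (63, 12), (74, -6), (91, -6), (172, 6), (194, -6), (210, 6), (298, -6)],
      [],
      [(54, 6), (71, -6), (82, -6), (93, -6), (98, -6), (152, 6), (174, -6), (251, -6), (295,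
      6)],
      [(61, -6), (72, -6), (83, -6), (94, 18), (153, 6), (164, -6), (252, -6), (274, 6), (280,
      24), (291, -24)],
      [(40, -5), (51, -6), (62, -1), (110, 2), (171, 1), (193, -1), (198, -1), (253, 2), (270,
      5), (292, -5), (297, 8)],
      [(52, -6), (63, 12), (74, -6), (172, 6), (194, -6), (210, 6), (298, -6)],
      [(53, -2), (64, 2), (162, -2), (173, -2), (184, -4), (272, 2), (283, 4), (294, -6)],
      [(130, -6), (152, -6), (163, -6), (262, 6), (295, -6)]]]
  A := [[[(54, 6), (152, -6), (163, -6), (174, -6), (262, 6), (273, 6)],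
      [(53, 4), (64, 2), (162, -2), (173, -2), (184, 2), (272, 2), (283, -2)],
      [(63, 6)],
      [],
      [(94, 6), (280, 6), (291, -6)],
      [],
      [],
      [],
      []],
    [[(40, -2), (62, 2), (110, 2), (171, -2), (193, 2), (198, 2), (253, 2), (270, 2), (292, -2),
      (297, 2)],
      [(61, 6), (94, -6), (181, -6), (192, 6)],
      [],
      [],
      [(52, -6), (63, 12), (74, -6), (172, 6), (210, 6), (298, -6)],
      [(40, -3), (51, -6), (62, -3), (73, -6), (110, 6), (171, 3), (193, 3), (198, -3), (270, 3),
      (292, -3), (297, 6)],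
      [(61, -6), (72, -6), (83, -6), (94, 18), (153, 6), (164, -6), (181, 6), (252, -6), (274,
      6), (280, 18), (291, -18)],
      [(54, 6), (60, -6), (71, -6), (82, -6), (98, -6), (152, 6), (174, -6), (180, 6), (251, -6),
      (295, 6)],
      [(53, 6), (64, -6), (70, -6), (81, -6), (92, -6), (190, 6), (250, -6), (261, 6), (283, -6),
      (294, 6)]],
    [[(210, 2), (254, 2), (298, 2)],
      [(40, 1), (62, -1), (110, 2), (171, 1), (193, -1), (198, -1), (253, 2), (270, -1), (292,
      1), (297, 2)],
      [(61, -6), (94, 6), (164, 6), (181, 6), (192, -6), (230, 6)],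
      [],
      [(53, -2), (64, 2), (162, -2), (173, -2), (184, -4), (272, 2), (283, 4)],
      [(52, -6), (63, 12), (74, -6), (172, 6), (194, -6), (210, 6), (293, 6), (298, -6)],
      [(40, -6), (51, -6), (62, -6), (73, -6), (110, 6), (198, -6), (270, 6), (297, 6)],
      [(61, -6), (72, -6), (83, -6), (94, 18), (153, 6), (164, -6), (252, -6), (274, 6), (280,
      24), (291, -18)],
      [(54, 6), (60, -6), (71, -6), (82, -6), (93, -6), (98, -6), (152, 6), (174, -6), (251, -6),
      (290, 6), (295, 6)]]]
  W := [[[],
      [[(150, -6), (270, 6)]],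
      [[(160, -6)]],
      [[(170, -6)]],
      [],
      [[(190, -6)]],
      [],
      [],
      [],
      [[],
       [],
       [],
       [],
       [],
       [],
       [(192, 6)],
       [(193, 6)]]],
    [[],
      [],
      [[(91, 6), (260, -6), (293, -6)]],
      [],
      [[(280, -6)]],
      [[(290, -6)],
       [(50, -6), (160, 6), (280, -6)],
       [],
       [],
       [(180, -6), (191, -6), (250, 6)]],
      [[(70, 6)],
       [(60, -6), (170, 6), (290, -6)]],
      [[(80, 6), (91, -6), (190, -6), (260, 6), (293, 6)]],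
      [[],
       [],
       [(92, 6)],
       [(93, 6), (192, -6)]],
      [[],
       [(90, -6)],
       [],
       [],
       [],
       [(94, -6), (193, 6)],
       [(292, 6)],
       [(91, 6)]]],
    [[],
      [],
      [[(180, 6), (191, 6)]],
      [],
      [[(270, 6)]],
      [],
      [[],
       [],
       [],
       [(91, -6), (293, 6)],
       [(180, -6), (191, -6), (250, 6), (294, 6)]],
      [],
      [[],
       [(191, 6)],
       [],
       [],
       [(194, 6)]],
      []]]

theorem ce1_ck : ce1.ck bs 10 1 = true := by decide +kernel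

/-- certificate -/
def ce2 : Cer where
  den := 2
  N := [[],
    [[(70, -2)],
      [],
      [],
      [],
      [],
      [],
      [],
      [],
      [],
      []],
    [],
    [[(160, 2), (193, -2), (292, 2)],
      [],
      [],
      [],
      [],
      [],
      [],
      [],
      [],
      []],
    [[(170, 2)],
      [],
      [],
      [],
      [],
      [],
      [],
      [],
      [],
      []],
    [[(60, 2)],
      [],
      [],
      [(293, 2)],
      [(70, -1), (250, -1), (294, 1)],
      [],
      [],
      [],
      [],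
      []],
    [[],
      [],
      [(192, 2), (291, -2)],
      [],
      [(260, -2)],
      [],
      [],
      [],
      [],
      []],
    [[(80, 2), (91, -2)],
      [],
      [],
      [],
      [(160, 2), (193, -2), (270, -2), (292, 2)],
      [],
      [],
      [],
      [],
      []],
    [[(90, 2)],
      [],
      [],
      [(60, 2), (180, -2)],
      [(170, 2), (280, -2)],
      [],
      [],
      [],
      [],
      []],
    [[],
      [],
      [],
      [(92, -2)],
      [(60, 2), (93, -2), (180, -2)],
      [(291, -2)],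
      [(292, -2)],
      [],
      [],
      []]]
  A := [[[],
      [],
      [],
      [],
      [(50, 2), (170, -2)],
      [],
      [],
      [(91, 2)],
      []],
    [[],
      [],
      [],
      [],
      [(150, 2), (293, 2)],
      [(193, 2), (292, -2)],
      [],
      [],
      [(92, -2), (190, 2)]],
    [[],
      [],
      [],
      [],
      [(70, 1), (250, 1), (294, 1)],
      [],
      [],
      [],
      [(93, -2), (180, -2), (290, 2)]]]
  W := [[[],
      [],
      [],
      [],
      [],
      [],
      [],
      [],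
      [],
      [[],
       [],
       [],
       [],
       [(190, 2)]]],
    [[],
      [],
      [],
      [],
      [],
      [],
      [],
      [],
      [],
      [[],
       [(90, -2)],
       [],
       [],
       [(290, 2)]]],
    [[],
      [],
      [],
      [],
      [],
      [],
      [],
      [],
      [],
      []]]

theorem ce2_ck : ce2.ck bs 10 2 = true := by decide +kernel

/-- certificate -/
def ce3 : Cer where
  den := 1
  N := [[],
    [],
    [],
    [],
    [],
    [],
    [[(190, 1)],
      [],
      [],
      [],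
      [],
      [],
      [],
      [],
      [],
      []],
    [],
    [],
    [[],
      [],
      [],
      [],
      [(290, -1)],
      [],
      [],
      [],
      [],
      []]]
  A := [[[],
      [],
      [],
      [],
      [],
      [],
      [],
      [],
      [(90, 1)]],
    [],
    []]
  W := [[[],
      [],
      [],
      [],
      [],
      [],
      [],
      [],
      [],
      []],
    [[],
      [],
      [],
      [],
      [],
      [],
      [],
      [],
      [],
      []],
    [[],
      [],
      [],
      [],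
      [],
      [],
      [],
      [],
      [],
      []]]

theorem ce3_ck : ce3.ck bs 10 3 = true := by decide +kernel

end Pool.Agent.Lib.D13.R1441
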