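import Pool.Agent.Lib.D13.Refl

/-!
# MP_5dcbc3_ag: density certificates, levels (1,4,5,1), d = 11: `x, y, z = t + t ^ 3, t ^ 2, t ^ 3 + t ^ 6`
-/

namespace Pool.Agent.Lib.D13.R1451

open Refl

/-- the base point -/
def bs : Base where
  lev := [0, 1, 1, 1, 2, 2, 1, 2, 2, 2, 3]
  pw := [[[(0, 1)], [(1, 1)], [(2, 1)], [(3, 1)], [(4, 1)], [(5, 1)], [(6, 1)], [(7, 1)], [(8, 1)],
      [(9, 1)], [(10, 1)]],
    [[], [(0, 1)], [(1, 1)], [(2, 1)], [(3, 1)], [(4, 1)], [(5, 1)], [(6, 1)], [(7, 1)], [(8,
      1)], [(9, 1)]],
    [[], [], [(0, 1)], [(1, 1)], [(2, 1)], [(3, 1)], [(4, 1)], [(5, 1)], [(6, 1)], [(7, 1)],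
      [(8, 1)]],
    [[], [], [], [(0, 1)], [(1, 1)], [(2, 1)], [(3, 1)], [(4, 1)], [(5, 1)], [(6, 1)], [(7,
      1)]],
    [[], [], [], [], [(0, 1)], [(1, 1)], [(2, 1)], [(3, 1)], [(4, 1)], [(5, 1)], [(6, 1)]],
    [[], [], [], [], [], [(0, 1)], [(1, 1)], [(2, 1)], [(3, 1)], [(4, 1)], [(5, 1)]],
    [[], [], [], [], [], [], [(0, 1)], [(1, 1)], [(2, 1)], [(3, 1)], [(4, 1)]],
    [[], [], [], [], [], [], [], [(0, 1)], [(1, 1)], [(2, 1)], [(3, 1)]],
    [[], [], [], [], [], [], [], [], [(0, 1)], [(1, 1)], [(2, 1)]],
    [[], [], [], [], [], [], [], [], [], [(0, 1)], [(1, 1)]],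
    [[], [], [], [], [], [], [], [], [], [], [(0, 1)]]]
  xc := [[(1, 1), (3, 1)], [(2, 1)], [(3, 1), (6, 1)]]
  X := [[[], [(0, 1)], [(1, 1)], [(0, 1), (2, 1)], [(1, 1), (3, 1)], [(2, 1), (4, 1)], [(3, 1), (5,
      1)], [(4, 1), (6, 1)], [(5, 1), (7, 1)], [(6, 1), (8, 1)], [(7, 1), (9, 1)]],
    [[], [], [(0, 1)], [(1, 1)], [(2, 1)], [(3, 1)], [(4, 1)], [(5, 1)], [(6, 1)], [(7, 1)],
      [(8, 1)]],
    [[], [], [], [(0, 1)], [(1, 1)], [(2, 1)], [(0, 1), (3, 1)], [(1, 1), (4, 1)], [(2, 1), (5,
      1)], [(3, 1), (6, 1)], [(4, 1), (7, 1)]]]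

theorem bs_ck : bs.ck 11 = true := by decide +kernel

/-- certificate -/
def ce1 : Cer where
  den := 4
  N := [[],
    [[(44, -2), (58, -4), (66, 2), (78, -2), (79, -4), (91, 4), (94, 4), (102, 2), (114, -2),
      (116, 2), (154, 8), (165, -2), (168, -4), (178, 4), (210, 4), (222, -4), (223, -4), (226,
      -4), (235, 4), (237, 2), (238, 4), (240, 4), (253, 2), (264, -4), (286, -2), (289, -2),
      (292, 4), (297, 4), (300, 4), (303, -4), (322, 4), (325, -2), (330, -2), (343, 4), (354,
      2), (355, -4), (357, -4), (358, -2), (361, 2)],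
      [(11, -4), (80, -4), (102, 4), (105, 4), (114, -4), (116, 4), (119, 4), (177, 4), (210, 4),
      (222, -4), (237, -4), (253, 4), (289, -4), (292, 4), (322, 4), (342, -4), (354, 4), (358,
      -4)],
      [(44, 4), (46, 4), (58, 6), (66, -4), (78, 4), (79, 2), (91, -2), (94, 2), (102, -4), (114,
      4), (116, -4), (154, -4), (165, -2), (168, -2), (178, -6), (210, -8), (222, 8), (223, 2),
      (226, 2), (235, -2), (237, 2), (238, 2), (240, 2), (264, 2), (297, -2), (300, -2), (303,
      2), (330, 4), (343, -2), (354, -4), (355, 2), (357, 2)],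
      [(44, 1), (66, -1), (78, 1), (102, -1), (114, 1), (116, -1), (165, -1), (210, -2), (222,
      2), (237, 1), (253, -2), (286, -1), (289, 2), (292, -2), (330, 1), (354, -1), (358, 1)],
      [],
      [],
      [(44, -1), (66, 1), (78, -1), (102, 1), (114, -1), (116, 1), (165, 1), (210, 2), (222, -2),
      (237, -1), (253, -1), (286, 1), (289, -1), (292, 2), (325, 1), (330, -1), (354, 1), (358,
      -1), (361, 1)],
      [],
      [],
      [],
      []],
    [[(11, 4), (66, 4), (78, -4), (80, 4), (102, -4), (105, -4), (114, 4), (116, -4), (117, 4),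
      (119, -4), (165, 8), (177, -8), (253, -4), (289, 4), (292, -4), (308, -4), (320, 4), (322,
      -4), (330, -4), (342, 8), (354, -4), (358, 4)],
      [(44, -2), (58, -6), (61, -4), (66, 2), (78, -2), (79, -6), (91, 6), (94, 6), (102, 2),
      (114, -2), (116, 2), (154, 8), (165, -4), (168, -6), (178, 2), (210, 4), (222, -4), (223,
      -6), (226, -6), (235, 6), (237, 4), (238, 6), (240, 6), (253, 2), (264, -6), (286, -6),
      (289, -2), (292, 4), (297, 6), (298, 4), (300, 6), (303, -2), (322, 4), (325, -2), (330,
      -2), (343, 6), (354, 2), (355, -6), (357, -6), (358, -2), (361, 2)],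
      [(143, -4), (215, 2), (239, 2)],
      [(58, -2), (79, 2), (91, -2), (94, -2), (165, 2), (168, 2), (178, 2), (223, 2), (226, 2),
      (235, -2), (237, -2), (238, -2), (240, -2), (264, -2), (297, -2), (300, 2), (303, -2),
      (343, -2), (355, 2), (357, 2)],
      [],
      [],
      [(44, -2), (66, 2), (78, -2), (79, -2), (91, 2), (102, 2), (114, -2), (116, 2), (154, 2),
      (168, -2), (210, 4), (222, -4), (223, -2), (226, -2), (235, 2), (240, 2), (264, -2), (297,
      2), (330, -2), (336, 2), (343, 2), (354, 2), (355, -2), (357, -2)],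
      [],
      [],
      [],
      []],
    [[(56, -8), (61, -8), (66, 4), (78, 8), (80, 16), (90, -8), (102, -8), (114, 4), (116, -8),
      (165, -4), (198, -8), (210, -4), (212, -4), (222, 12), (236, 4), (237, 4), (253, -8), (289,
      8), (292, -16), (298, 8), (303, 8), (322, -16), (325, 8), (330, 4), (354, -4), (358, 8),
      (361, -8)],
      [(11, 4), (66, 4), (78, -4), (80, 4), (102, -4), (105, -4), (114, 4), (116, -4), (117, 4),
      (119, -4), (165, 4), (177, -4), (253, -4), (289, 4), (292, -4), (308, -4), (320, 4), (322,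
      -4), (330, -4), (342, 8), (354, -4), (358, 4)],
      [(44, -2), (58, -4), (66, 2), (78, -2), (79, -4), (91, 4), (94, 4), (102, 2), (114, -2),
      (116, 2), (154, 4), (165, -2), (168, -4), (178, 4), (210, 4), (222, -4), (223, -4), (226,
      -4), (235, 4), (237, 2), (238, 4), (240, 4), (253, 2), (264, -4), (286, -2), (289, -2),
      (292, 4), (297, 4), (300, 4), (303, -4), (322, 4), (325, -2), (330, -2), (343, 4), (354,
      2), (355, -4), (357, -4), (358, -2), (361, 2)],
      [(47, 4), (80, 4), (102, -4), (105, -4), (114, 4), (116, -4), (119, -4), (143, -4), (167,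
      -4), (177, -4), (210, -4), (215, 4), (222, 4), (237, 4), (239, 4), (322, -4), (342, 4),
      (354, -4), (358, 4)],
      [],
      [],
      [(11, -2), (44, -1), (50, 2), (66, 1), (78, -1), (102, 1), (114, -1), (116, 1), (119, 2),
      (143, 2), (165, 1), (167, 2), (210, 2), (215, -2), (222, -2), (237, -1), (239, -2), (253,
      1), (286, 1), (287, -2), (289, -1), (292, -2), (325, 1), (330, -1), (347, 2), (354, 1),
      (358, -1), (361, -1)],
      [],
      [],
      [],
      []],
    [[(44, -8), (66, 8), (78, -8), (102, 8), (114, -8), (116, 8), (154, 4), (165, 8), (210, 16),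
      (211, -4), (222, -16), (223, -4), (226, -4), (235, 8), (237, -8), (319, 4), (330, -8),
      (343, 4), (354, 8), (355, -8)],
      [(44, -2), (56, -4), (61, -4), (66, 2), (78, 6), (80, 12), (90, -4), (102, -6), (114, 2),
      (116, -6), (165, -2), (198, -4), (210, -4), (212, -4), (222, 8), (236, 4), (237, 2), (253,
      -6), (286, 2), (289, 6), (292, -12), (298, 4), (303, 4), (322, -12), (325, 6), (330, 2),
      (354, -2), (358, 6), (361, -6)],
      [],
      [(44, -2), (58, -2), (66, 2), (78, -2), (79, -2), (91, 2), (94, 2), (102, 2), (114, -2),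
      (116, 2), (154, 4), (168, -2), (178, 2), (210, 4), (222, -4), (223, -2), (226, -2), (235,
      2), (238, 2), (240, 2), (253, 2), (264, -2), (286, -2), (289, -2), (292, 4), (297, 2),
      (300, 2), (303, -2), (322, 4), (325, -2), (330, -2), (343, 2), (354, 2), (355, -2), (357,
      -2), (358, -2), (361, 2)],
      [(143, -4), (167, -4), (215, 4), (239, 4)],
      [(44, 4), (58, 4), (66, -4), (78, 4), (94, 4), (102, -4), (114, 4), (116, -4), (154, -4),
      (165, -4), (168, -4), (178, -4), (210, -8), (222, 8), (237, 4), (238, 4), (240, 4), (330,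
      4), (354, -4)],
      [(44, 2), (66, -2), (78, 2), (102, -2), (114, 2), (116, -2), (165, -2), (210, -4), (222,
      4), (237, 2), (286, -2), (330, 2), (354, -2), (358, 2)],
      [(11, -2), (44, -1), (50, -2), (66, 1), (78, -1), (102, 1), (114, -1), (116, 1), (119, 2),
      (143, 2), (165, 1), (167, 2), (210, 2), (215, -2), (222, -2), (237, -1), (239, -2), (253,
      1), (286, 1), (287, -2), (289, -1), (292, 2), (325, 1), (330, -1), (347, 2), (354, 1),
      (358, -1), (361, -1)],
      [(44, -2), (46, 4), (66, 2), (78, -2), (79, 2), (91, -2), (94, -4), (102, 2), (114, -2),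
      (116, 2), (154, 2), (165, 4), (168, 2), (210, 4), (222, -4), (223, 2), (226, 2), (235, -2),
      (237, -4), (238, -4), (240, -2), (264, 2), (288, -4), (297, -2), (330, -2), (336, 2), (343,
      -2), (354, 2), (355, 2), (357, 2)],
      [(44, -1), (66, 1), (78, -1), (102, 1), (114, -1), (116, 1), (165, 1), (210, 2), (222, -2),
      (237, -1), (253, -1), (286, 1), (289, -1), (292, -2), (325, 1), (330, -1), (354, 1), (358,
      -1), (361, 1)],
      []],
    [[(44, 2), (56, 12), (61, 12), (66, -2), (78, -10), (80, -28), (90, 12), (102, 14), (114,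
      -2), (116, 14), (165, 2), (198, 8), (210, 8), (212, 12), (222, -16), (236, -12), (237, -2),
      (253, 14), (286, -2), (289, -14), (292, 28), (298, -12), (303, -12), (322, 28), (325, -14),
      (330, -2), (354, 2), (358, -14), (361, 14)],
      [(44, -8), (66, 4), (78, -4), (89, 4), (101, -4), (102, 4), (114, -4), (116, 8), (154, 8),
      (165, 4), (209, -4), (210, 8), (211, -4), (222, -8), (223, -4), (226, -8), (233, 4), (235,
      8), (237, -4), (330, -4), (341, 4), (343, 8), (353, -4), (354, 4), (355, -8)],
      [(56, -4), (61, -4), (78, 4), (80, 8), (102, -4), (116, -4), (210, -4), (212, -4), (222,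
      4), (236, 4), (253, -4), (289, 4), (292, -8), (298, 4), (303, 4), (322, -8), (325, 4),
      (358, 4), (361, -4)],
      [],
      [(44, -2), (58, -4), (66, 2), (78, -2), (79, -4), (91, 4), (94, 4), (102, 2), (114, -2),
      (116, 2), (154, 4), (165, -2), (168, -4), (210, 4), (222, -4), (223, -4), (226, -4), (235,
      4), (237, 2), (238, 4), (240, 4), (253, 2), (264, -4), (286, -2), (289, -2), (292, 4),
      (297, 4), (300, 4), (303, -4), (322, 4), (325, -2), (330, -2), (343, 4), (354, 2), (355,
      -4), (357, -4), (358, -2), (361, 2)],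
      [(57, -4), (143, -4), (215, 2), (239, 2)],
      [(58, -4), (79, 4), (91, -4), (94, -4), (165, 4), (168, 4), (178, 4), (223, 4), (226, 4),
      (235, -4), (237, -4), (238, -4), (240, -4), (297, -4), (343, -4), (355, 4), (357, 4)],
      [(44, 2), (61, -4), (66, -2), (78, 2), (102, -2), (114, 2), (116, -2), (165, -2), (210,
      -4), (222, 4), (237, 2), (286, -2), (303, 4), (330, 2), (354, -2), (358, 2)],
      [(11, -2), (44, -1), (50, 2), (66, 1), (78, -1), (102, 1), (114, -1), (116, 1), (119, 2),
      (143, 2), (165, 1), (167, 2), (182, -4), (210, 2), (215, -2), (222, -2), (237, -1), (239,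
      -2), (253, 1), (286, 1), (287, -2), (289, -1), (292, -2), (325, 1), (330, -1), (347, 2),
      (354, 1), (358, -1), (361, -1)],
      [(44, -2), (66, 2), (78, -2), (79, -2), (91, 2), (102, 2), (114, -2), (116, 2), (154, 2),
      (168, -2), (210, 4), (222, -4), (223, -2), (226, -2), (235, 2), (240, 2), (264, -2), (297,
      2), (303, -4), (330, -2), (336, 2), (343, 2), (354, 2), (355, -2), (357, -2)],
      []],
    [[(44, 24), (66, -20), (77, 4), (78, 20), (101, 8), (102, -20), (114, 20), (116, -24), (154,
      -20), (165, -20), (209, 4), (210, -40), (211, 12), (222, 40), (223, 12), (226, 20), (233,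
      -4), (235, -24), (237, 20), (319, -4), (330, 20), (341, -4), (343, -20), (353, 4), (354,
      -20), (355, 24)],
      [(44, 2), (56, 8), (61, 8), (66, -2), (78, -6), (80, -20), (90, 8), (102, 10), (114, -2),
      (116, 10), (165, 2), (198, 4), (210, 8), (212, 8), (222, -12), (236, -8), (237, -2), (253,
      10), (286, -2), (289, -10), (292, 20), (298, -8), (303, -8), (322, 20), (325, -10), (330,
      -2), (354, 2), (358, -10), (361, 10)],
      [(44, -4), (66, 4), (78, -4), (102, 4), (114, -4), (116, 4), (154, 4), (165, 4), (210, 8),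
      (222, -8), (223, -4), (226, -4), (235, 4), (237, -4), (330, -4), (343, 4), (354, 4), (355,
      -4)],
      [(56, -4), (61, -4), (78, 4), (80, 8), (90, -4), (102, -4), (114, 4), (116, -4), (165, -4),
      (198, -4), (210, -4), (222, 8), (237, 4), (253, -4), (289, 4), (292, -8), (298, 4), (303,
      4), (322, -8), (325, 4), (330, 4), (354, -4), (358, 4), (361, -4)],
      [],
      [],
      [],
      [],
      [],
      [],
      []],
    [[(44, -8), (56, -36), (61, -36), (66, 8), (78, 28), (80, 88), (88, 4), (90, -36), (100, 4),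
      (102, -44), (112, 4), (114, 8), (116, -44), (165, -12), (198, -24), (210, -24), (212, -36),
      (222, 48), (236, 36), (237, 12), (253, -44), (286, 8), (289, 44), (292, -88), (298, 36),
      (303, 36), (322, -88), (325, 44), (330, 12), (354, -12), (358, 44), (361, -44)],
      [(44, 16), (66, -12), (78, 12), (101, 8), (102, -12), (114, 12), (116, -16), (154, -16),
      (165, -12), (209, 4), (210, -24), (211, 8), (222, 24), (223, 8), (226, 16), (233, -4),
      (235, -16), (237, 12), (330, 12), (341, -4), (343, -16), (353, 4), (354, -12), (355, 16)],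
      [(56, 4), (61, 4), (78, -4), (80, -8), (90, 4), (102, 4), (116, 4), (210, 4), (212, 4),
      (222, -4), (236, -4), (253, 4), (289, -4), (292, 8), (298, -4), (303, -4), (322, 8), (325,
      -4), (358, -4), (361, 4)],
      [],
      [],
      [(11, -4), (46, 4), (66, -4), (78, 4), (79, 4), (80, -4), (91, -4), (102, 4), (105, 4),
      (114, -4), (116, 4), (117, -4), (118, -4), (119, 4), (165, -4), (177, 8), (223, 4), (235,
      -4), (237, -4), (253, 4), (289, -4), (292, 4), (308, 4), (320, -4), (321, -4), (322, 4),
      (330, 4), (342, -8), (343, -4), (354, 4), (355, 4), (357, 4), (358, -4)],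
      [],
      [(11, -4), (44, -2), (66, -2), (78, 2), (102, 2), (105, 4), (114, -2), (116, 2), (119, 4),
      (165, -2), (177, 4), (237, -2), (253, 2), (286, 2), (289, -2), (308, 4), (320, -4), (325,
      2), (330, 2), (342, -4), (354, 2), (358, -2), (361, -2)],
      [(44, 4), (58, 2), (66, -4), (78, 4), (79, 2), (91, -2), (94, -2), (102, -4), (114, 4),
      (116, -4), (118, 4), (154, -4), (165, -2), (168, 2), (178, -2), (210, -8), (222, 8), (223,
      2), (226, 6), (235, -2), (237, 2), (238, -2), (240, -2), (264, 2), (297, -2), (300, -2),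
      (303, 2), (330, 4), (343, -2), (354, -4), (355, 2), (357, 2)],
      [(44, 1), (66, -1), (78, 1), (102, -1), (114, 1), (116, -1), (165, -1), (210, -2), (222,
      2), (237, 1), (286, -1), (292, 2), (325, -2), (330, 1), (354, -1), (358, 1), (361, 2)],
      []],
    [[(66, 4), (78, -4), (99, 4), (102, 4), (111, -4), (114, -4), (165, 4), (210, 8), (222, -8),
      (237, -4), (330, -4), (341, -4), (353, 4), (354, 4)],
      [(44, -6), (56, -24), (61, -24), (66, 6), (78, 18), (80, 60), (90, -24), (100, 4), (102,
      -30), (112, 4), (114, 6), (116, -30), (165, -10), (198, -16), (210, -16), (212, -24), (222,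
      32), (236, 24), (237, 10), (253, -30), (286, 6), (289, 30), (292, -60), (298, 24), (303,
      24), (322, -60), (325, 30), (330, 10), (354, -10), (358, 30), (361, -30)],
      [(44, 8), (66, -8), (78, 8), (101, 4), (102, -8), (114, 8), (116, -8), (154, -8), (165,
      -8), (210, -16), (211, 4), (222, 16), (223, 4), (226, 8), (235, -8), (237, 8), (330, 8),
      (343, -8), (354, -8), (355, 8)],
      [],
      [],
      [],
      [(11, -4), (44, 4), (46, 4), (66, -8), (78, 8), (79, 8), (80, -4), (91, -8), (105, 4),
      (117, -4), (118, -4), (119, 4), (154, -4), (165, -8), (177, 8), (210, -8), (222, 8), (223,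
      8), (226, 4), (235, -8), (253, 4), (289, -4), (292, 4), (308, 4), (320, -4), (321, -4),
      (322, 4), (330, 8), (342, -8), (343, -8), (355, 8), (357, 4), (358, -4)],
      [(44, 4), (58, 2), (66, -4), (78, 4), (79, 2), (91, -2), (94, -2), (102, -4), (114, 4),
      (116, -4), (154, -4), (165, -2), (168, 2), (178, -2), (210, -8), (222, 8), (223, 2), (226,
      2), (235, -2), (237, 2), (238, 2), (240, -2), (264, 2), (297, -2), (300, -2), (303, 2),
      (330, 4), (343, -2), (354, -4), (355, 2), (357, 2)],
      [(215, -2), (239, 2)],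
      [(44, -4), (58, -6), (66, 4), (78, -4), (79, 2), (91, -2), (94, -6), (102, 4), (114, -4),
      (116, 4), (154, 4), (165, 6), (168, 2), (178, 6), (210, 8), (222, -8), (223, 2), (226, 2),
      (235, -2), (237, -6), (238, -6), (240, -2), (264, -2), (297, -2), (300, 2), (303, -2),
      (330, -4), (343, -2), (354, 4), (355, 2), (357, 2)],
      []],
    [[],
      [],
      [(44, -2), (56, -12), (61, -12), (66, 2), (78, 10), (80, 28), (90, -12), (102, -14), (112,
      4), (114, 2), (116, -14), (165, -6), (198, -8), (210, -8), (212, -12), (222, 16), (236,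
      12), (237, 6), (253, -14), (286, 2), (289, 14), (292, -28), (298, 12), (303, 12), (322,
      -28), (325, 14), (330, 6), (354, -6), (358, 14), (361, -14)],
      [],
      [(44, -2), (56, -4), (61, -4), (66, 2), (78, 2), (80, 12), (90, -4), (102, -6), (114, 2),
      (116, -6), (165, -2), (198, -4), (212, -4), (222, 4), (236, 4), (237, 2), (253, -6), (286,
      2), (289, 6), (292, -12), (298, 4), (303, 4), (322, -12), (325, 6), (330, 2), (354, -2),
      (358, 6), (361, -6)],
      [(44, 4), (66, -4), (78, 4), (102, -4), (114, 4), (116, -4), (154, -4), (165, -4), (210,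
      -8), (211, 4), (222, 8), (226, 4), (235, -4), (237, 4), (330, 4), (343, -4), (354, -4),
      (355, 4)],
      [(44, 2), (66, -2), (78, 2), (80, -4), (102, -2), (114, 2), (116, 2), (165, -2), (210, -4),
      (212, 4), (222, 4), (236, -4), (237, 2), (253, 2), (286, -2), (289, -2), (292, 4), (322,
      4), (325, -2), (330, 2), (354, -2), (358, -2), (361, 2)],
      [(11, -4), (44, 6), (46, 4), (66, -10), (78, 10), (79, 8), (80, -8), (91, -8), (102, 2),
      (105, 4), (114, -2), (116, 2), (117, -4), (118, -4), (119, 4), (154, -4), (165, -10), (177,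
      12), (210, -8), (222, 8), (223, 8), (226, 4), (235, -8), (237, -2), (253, 6), (286, -2),
      (289, -6), (292, 8), (308, 4), (320, -4), (321, -4), (322, 8), (325, -2), (330, 10), (342,
      -12), (343, -8), (354, 2), (355, 8), (357, 4), (358, -6), (361, 2)],
      [(226, -4)],
      [(44, -2), (66, 2), (78, -2), (80, 4), (102, -2), (105, -4), (114, 2), (116, -2), (165, 2),
      (177, -4), (237, 2), (253, -2), (286, 2), (289, 2), (292, -4), (322, -4), (325, 2), (330,
      -2), (342, 4), (354, -2), (358, 2), (361, -2)],
      []],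
    [[],
      [(44, -8), (56, -36), (61, -36), (66, 8), (78, 28), (80, 88), (88, 4), (90, -36), (100, 4),
      (102, -44), (110, -4), (112, 4), (114, 8), (116, -44), (165, -12), (198, -24), (210, -24),
      (212, -36), (222, 48), (236, 36), (237, 12), (253, -44), (286, 8), (289, 44), (292, -88),
      (298, 36), (303, 36), (322, -88), (325, 44), (330, 12), (354, -12), (358, 44), (361, -44)],
      [],
      [],
      [(44, -8), (66, 4), (77, -4), (78, -4), (102, 4), (114, -4), (116, 8), (154, 4), (165, 4),
      (210, 8), (211, -4), (222, -8), (223, -4), (226, -4), (235, 8), (237, -4), (319, 4), (330,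
      -4), (341, 4), (343, 4), (353, -4), (354, 4), (355, -8)],
      [(44, -2), (56, -8), (61, -8), (66, 2), (78, 6), (80, 20), (90, -8), (102, -10), (114, 2),
      (116, -10), (165, -6), (198, -8), (210, -4), (212, -8), (222, 12), (236, 8), (237, 6),
      (253, -10), (286, 2), (289, 10), (292, -20), (298, 8), (303, 8), (322, -20), (325, 10),
      (330, 6), (354, -6), (358, 10), (361, -10)],
      [(44, 4), (66, -4), (78, 4), (102, -4), (114, 4), (116, -4), (154, -4), (165, -4), (210,
      -8), (211, 4), (222, 8), (223, 4), (226, 4), (235, -8), (237, 4), (330, 4), (343, -4),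
      (354, -4), (355, 4)],
      [(56, 4), (61, 4), (78, -4), (80, -8), (90, 4), (102, 4), (114, -4), (116, 4), (165, 4),
      (198, 4), (210, 4), (212, 4), (222, -8), (236, -4), (237, -4), (253, 4), (289, -4), (292,
      8), (298, -4), (303, -4), (322, 8), (325, -4), (330, -4), (354, 4), (358, -4), (361, 4)],
      [(11, -8), (44, 4), (46, 4), (66, -12), (78, 12), (79, 8), (80, -8), (91, -8), (102, 4),
      (105, 8), (114, -4), (116, 4), (117, -8), (118, -4), (119, 8), (154, -4), (165, -12), (177,
      16), (210, -8), (222, 8), (223, 8), (226, 4), (235, -8), (237, -4), (253, 8), (289, -8),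
      (292, 8), (308, 8), (320, -8), (321, -4), (322, 8), (330, 12), (342, -16), (343, -8), (354,
      4), (355, 8), (357, 4), (358, -8)],
      [(44, 4), (58, 2), (66, -4), (78, 4), (79, 2), (91, -2), (94, -2), (102, -4), (114, 4),
      (116, -4), (154, -4), (165, -2), (168, 2), (178, -2), (210, -8), (222, 8), (223, 2), (226,
      2), (235, -2), (237, 2), (238, -2), (240, -2), (264, 2), (297, -2), (300, -2), (303, 2),
      (330, 4), (343, -2), (354, -4), (355, 2), (357, 2)],
      []]]
  A := [[[(44, 1), (66, -1), (78, 1), (80, -4), (102, 3), (105, 4), (114, -3), (116, 3), (119, 4),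
      (165, -1), (177, 4), (210, 2), (222, -2), (237, -3), (253, 2), (286, -1), (289, -2), (292,
      2), (322, 4), (330, 1), (342, -4), (354, 3), (358, -3)],
      [],
      [],
      [(44, 2), (56, 4), (58, 2), (61, 4), (66, -2), (78, -2), (79, 2), (80, -4), (90, 4), (91,
      -2), (94, -2), (102, 2), (114, -2), (116, 2), (154, -4), (165, 4), (168, 2), (178, -2),
      (198, 4), (222, -4), (223, 2), (226, 2), (235, -2), (237, -4), (238, -2), (240, -2), (253,
      2), (264, 2), (286, 2), (289, -2), (292, 4), (297, -2), (298, -4), (300, -2), (303, -2),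
      (322, 4), (325, -2), (330, -2), (343, -2), (354, 2), (355, 2), (357, 2), (358, -2), (361,
      2)],
      [(11, -4), (44, 4), (46, 4), (66, -8), (78, 8), (79, 8), (80, -4), (91, -4), (105, 4),
      (117, -4), (118, -4), (119, 4), (154, -4), (165, -8), (177, 8), (210, -8), (222, 8), (223,
      8), (226, 4), (235, -8), (253, 4), (289, -4), (292, 4), (308, 4), (320, -4), (321, -4),
      (322, 4), (330, 8), (342, -8), (343, -8), (355, 8), (357, 4), (358, -4)],
      [],
      [],
      [],
      [(44, -24), (66, 16), (77, -4), (78, -16), (101, -8), (102, 16), (111, 4), (114, -16),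
      (116, 24), (154, 20), (165, 16), (209, -4), (210, 32), (211, -12), (222, -32), (223, -12),
      (226, -20), (233, 4), (235, 24), (237, -16), (319, 4), (330, -16), (341, 8), (343, 20),
      (353, -8), (354, 16), (355, -24)],
      []],
    [[(44, 4), (58, 6), (66, -4), (78, 4), (79, -2), (91, 2), (94, 6), (102, -4), (114, 4),
      (116, -4), (154, -4), (165, -6), (168, -2), (178, -6), (210, -8), (222, 8), (223, -2),
      (226, -2), (235, 2), (237, 6), (238, 6), (240, 6), (264, 2), (297, 2), (300, -2), (303, 2),
      (330, 4), (343, 2), (354, -4), (355, -2), (357, -2)],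
      [(215, 2), (239, 2)],
      [],
      [(11, -4), (66, -4), (78, 4), (80, -4), (102, 4), (105, 4), (114, -4), (116, 4), (117, -4),
      (119, 4), (165, -4), (177, 8), (253, 4), (289, -4), (292, 4), (308, 4), (320, -4), (322,
      4), (330, 4), (342, -8), (354, 4), (358, -4)],
      [(56, 4), (61, 4), (78, -4), (80, -8), (90, 4), (102, 4), (114, -4), (116, 4), (165, 4),
      (198, 4), (210, 4), (212, 4), (222, -8), (237, -4), (253, 4), (289, -4), (292, 8), (298,
      -4), (303, -4), (322, 8), (325, -4), (330, -4), (354, 4), (358, -4), (361, 4)],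
      [(44, 4), (66, -4), (78, 4), (102, -4), (114, 4), (116, -4), (154, -4), (165, -4), (210,
      -8), (211, 4), (222, 8), (223, 4), (226, 4), (235, -4), (237, 4), (330, 4), (343, -4),
      (354, -4), (355, 4)],
      [(44, -2), (56, -8), (61, -8), (66, 2), (78, 6), (80, 20), (90, -8), (102, -10), (114, 2),
      (116, -10), (165, -2), (198, -4), (210, -4), (212, -8), (222, 12), (236, 8), (237, 2),
      (253, -10), (286, 2), (289, 10), (292, -20), (298, 8), (303, 8), (322, -20), (325, 10),
      (330, 2), (354, -2), (358, 10), (361, -10)],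
      [(44, -16), (66, 12), (77, -4), (78, -12), (101, -4), (102, 12), (114, -12), (116, 16),
      (154, 12), (165, 12), (210, 24), (211, -8), (222, -24), (223, -8), (226, -12), (233, 4),
      (235, 16), (237, -12), (319, 4), (330, -12), (341, 4), (343, 12), (353, -4), (354, 12),
      (355, -16)],
      [(44, 6), (56, 24), (61, 24), (66, -6), (78, -18), (80, -60), (88, -4), (90, 24), (100,
      -4), (102, 30), (114, -6), (116, 30), (165, 6), (198, 16), (210, 16), (212, 24), (220, 4),
      (222, -32), (236, -24), (237, -6), (253, 30), (286, -6), (289, -30), (292, 60), (298, -24),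
      (303, -24), (322, 60), (325, -30), (330, -6), (354, 6), (358, -30), (361, 30)],
      [(66, -4), (78, 4), (99, -4), (102, -4), (111, 4), (114, 4), (165, -4), (210, -8), (222,
      8), (231, 4), (237, 4), (330, 4), (341, 4), (353, -4), (354, -4)]],
    [[(253, 1), (289, 1), (325, 1), (361, 1)],
      [(44, -2), (58, -2), (66, 2), (78, -2), (94, -2), (102, 2), (114, -2), (116, 2), (154, 2),
      (165, 2), (178, 2), (210, 4), (222, -4), (237, -2), (238, -2), (300, 2), (303, -2), (330,
      -2), (336, 2), (354, 2)],
      [(11, 2), (44, -1), (50, -2), (66, 1), (78, -1), (80, 4), (102, -3), (105, -4), (114, 3),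
      (116, -3), (119, -2), (143, -2), (165, 1), (167, -2), (177, -4), (210, -2), (215, 2), (222,
      2), (237, 3), (239, 2), (253, -3), (286, 1), (287, 2), (289, 3), (292, -2), (322, -4),
      (325, 1), (330, -1), (342, 4), (347, 2), (354, -3), (358, 3), (361, -1)],
      [(44, 2), (58, 2), (66, -2), (78, 2), (79, 2), (91, -2), (94, -2), (102, -2), (114, 2),
      (116, -2), (154, -4), (168, 2), (178, -2), (210, -4), (222, 4), (223, 2), (226, 2), (235,
      -2), (238, -2), (240, -2), (264, 2), (286, 2), (297, -2), (300, -2), (303, 2), (330, 2),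
      (343, -2), (354, -2), (355, 2), (357, 2), (358, 2)],
      [(11, -4), (58, -4), (66, -4), (78, 4), (79, 4), (80, -4), (91, -4), (94, -4), (102, 4),
      (105, 4), (114, -4), (116, 4), (117, -4), (119, 4), (165, -4), (168, 4), (177, 8), (178,
      4), (223, 4), (226, 4), (235, -4), (237, -4), (238, -4), (240, -4), (253, 4), (289, -4),
      (292, 4), (308, 4), (320, -4), (322, 4), (330, 4), (342, -8), (343, -4), (354, 4), (355,
      4), (357, 4), (358, -4)],
      [(56, 4), (61, 4), (66, -4), (78, -4), (80, -8), (90, 4), (102, 4), (116, 4), (198, 4),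
      (212, 4), (222, -4), (236, -4), (253, 4), (289, -4), (292, 8), (298, -4), (303, -4), (308,
      4), (322, 8), (325, -4), (358, -4), (361, 4)],
      [(44, 10), (58, 4), (66, -10), (78, 10), (79, 4), (91, -4), (94, -4), (102, -10), (114,
      10), (116, -10), (154, -12), (165, -6), (168, 4), (178, -4), (210, -20), (211, 4), (222,
      20), (223, 8), (226, 8), (235, -12), (237, 6), (238, -4), (240, -4), (253, -2), (264, 4),
      (286, 2), (289, 2), (292, -4), (297, -4), (300, -4), (303, 4), (322, -4), (325, 2), (330,
      10), (343, -8), (354, -10), (355, 12), (357, 4), (358, 2), (361, -2)],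
      [(11, -8), (44, 2), (46, 4), (56, -12), (61, -12), (66, -10), (78, 22), (79, 8), (80, 20),
      (90, -12), (91, -8), (102, -10), (105, 8), (114, -2), (116, -10), (117, -8), (118, -4),
      (119, 8), (154, -4), (165, -18), (177, 16), (198, -8), (210, -16), (212, -12), (222, 24),
      (223, 8), (226, 4), (235, -8), (236, 12), (237, 2), (253, -6), (286, 2), (289, 6), (292,
      -20), (298, 12), (303, 12), (308, 8), (320, -8), (321, -4), (322, -20), (325, 14), (330,
      18), (342, -16), (343, -8), (354, 2), (355, 8), (357, 4), (358, 6), (361, -14)],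
      [(44, -22), (56, 8), (61, 8), (66, 14), (77, -4), (78, -26), (80, -20), (90, 8), (101, -8),
      (102, 26), (114, -22), (116, 34), (154, 20), (165, 22), (198, 8), (209, -4), (210, 40),
      (211, -12), (212, 8), (222, -48), (223, -12), (226, -20), (233, 4), (235, 24), (236, -8),
      (237, -22), (253, 10), (286, -2), (289, -10), (292, 20), (298, -8), (303, -8), (319, 4),
      (322, 20), (325, -10), (330, -22), (341, 8), (343, 20), (353, -4), (354, 22), (355, -24),
      (358, -10), (361, 10)],
      [(44, 20), (56, 36), (61, 36), (66, -20), (78, -16), (80, -88), (88, -4), (90, 36), (100,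
      -4), (102, 32), (112, -4), (114, 4), (116, 32), (154, -8), (198, 24), (211, 8), (212, 36),
      (222, -24), (223, 8), (226, 8), (235, -16), (236, -36), (253, 44), (286, -8), (289, -44),
      (292, 88), (298, -36), (303, -36), (319, -4), (322, 88), (325, -44), (343, -8), (352, 4),
      (355, 12), (358, -44), (361, 44)]]]
  W := [[[],
      [],
      [[(176, -4)]],
      [[(88, 4), (112, 4), (220, -4), (234, -4), (330, 4), (352, 4), (354, 4)]],
      [[],
       [(88, 4), (112, 4), (232, -4), (330, 4), (352, 4), (354, 4)]],
      [[(44, -4), (77, -8), (99, -4), (111, -4), (116, 4), (209, 4), (231, 4), (319, -4), (341,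
      -12), (353, 4), (355, 4)]],
      [],
      [[],
       [],
       [],
       [],
       [],
       [],
       [(198, 4)]],
      [],
      [],
      [[],
       [],
       [],
       [(231, 4)],
       [],
       [(44, -4), (77, -4), (113, 4), (116, 4), (209, 4), (319, -4), (341, -4), (353, 4), (355,
      4)]]],
    [[],
      [[(44, 4), (77, 4), (209, -4), (341, 4), (353, -4), (355, -4)]],
      [],
      [],
      [[],
       [(77, 4), (176, 4), (209, -4), (341, 4), (353, -4), (355, -4)],
       [],
       [],
       [],
       [],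
       [(44, 4), (77, 4), (209, -4), (286, 4), (341, 4), (353, -4), (355, -4)]],
      [[(88, 4)],
       [],
       [],
       [(55, -4), (88, -4), (112, -4), (220, 4), (234, 4), (330, -4), (352, -4), (354, -4)]],
      [[(341, -4)]],
      [[],
       [(99, 4), (111, 4), (231, -4), (341, 4)],
       [(112, 4), (352, 4)],
       [(44, 4), (77, 4), (116, -4), (209, -4), (319, 4), (341, 4), (353, -4), (355, -4)],
       [],
       [],
       [(116, 4)]],
      [],
      [[],
       [(99, -4), (341, -4)]],
      [[],
       [(110, -4), (352, -4)],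
       [],
       [(352, 4)]]],
    [[],
      [],
      [],
      [[(165, 4)]],
      [],
      [[],
       [],
       [(55, -4), (88, -4), (112, -4), (165, 4), (220, 4), (234, 4), (297, -4), (330, -4), (352,
      -4), (354, -4)]],
      [],
      [],
      [[],
       [(77, 4), (99, 4), (111, 4), (176, 4), (209, -4), (231, -4), (341, 8), (355, -4)],
       [(88, -4), (330, -4)],
       [(44, 4), (77, 4), (116, -4), (209, -4), (319, 4), (341, 4), (353, -4)]],
      [[],
       [],
       [],
       [(88, -4), (112, -4), (234, 4), (330, -4), (352, -4), (354, -4)]],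
      [[],
       [],
       [],
       [],
       [(88, -4), (112, -4), (330, -4), (352, -4), (354, -4)],
       [],
       [],
       [(198, -4), (237, -4)],
       [(44, -4), (77, -4), (116, -4), (209, 4), (286, -4), (341, -4), (353, 4), (355, 4), (358,
      -4)]]]]

theorem ce1_ck : ce1.ck bs 11 1 = true := by decide +kernel

/-- certificate -/
def ce2 : Cer where
  den := 2
  N := [[],
    [],
    [],
    [[(44, 2)],
      [],
      [],
      [],
      [],
      [],
      [],
      [],
      [],
      [],
      []],
    [[],
      [],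
      [(165, -2), (237, 2), (330, 2)],
      [],
      [],
      [],
      [(286, -1), (319, 1), (355, -1), (358, 1)],
      [],
      [],
      [],
      []],
    [[],
      [],
      [(44, 2), (176, -2)],
      [],
      [],
      [],
      [(297, -2)],
      [],
      [],
      [],
      []],
    [],
    [[(88, 2)],
      [],
      [],
      [],
      [],
      [],
      [(319, -2), (355, 2)],
      [],
      [],
      [],
      []],
    [[(77, -2), (99, 2), (113, 2)],
      [],
      [(209, -1), (233, 1)],
      [],
      [],
      [],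
      [(330, -2)],
      [],
      [],
      [],
      []],
    [[],
      [],
      [(112, 2), (198, 2), (234, -2)],
      [(77, -2), (113, 2)],
      [],
      [],
      [(44, 2), (77, 2), (113, -2), (341, -2)],
      [],
      [],
      [],
      []],
    [[],
      [(88, 2), (110, -2)],
      [(111, -2)],
      [],
      [],
      [(198, 2), (234, -2)],
      [],
      [(353, -2)],
      [],
      [],
      []]]
  A := [[[],
      [],
      [],
      [],
      [(55, 2)],
      [],
      [(77, 2)],
      [],
      [],
      []],
    [[],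
      [],
      [],
      [(237, 2), (330, 2)],
      [],
      [],
      [(198, 2)],
      [(209, 1), (233, 1)],
      [(88, -2), (112, 2), (198, 2), (220, 2), (234, -2)],
      [(77, 2), (99, -2), (111, -2), (113, -2), (231, 2)]],
    [[],
      [],
      [],
      [(286, 1), (319, 1), (355, -1), (358, 1)],
      [],
      [],
      [(355, 2)],
      [],
      [],
      [(88, -2), (352, 2)]]]
  W := [[[],
      [],
      [],
      [],
      [],
      [],
      [],
      [],
      [],
      [],
      [[],
       [],
       [],
       [],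
       [],
       [],
       [(231, 2)]]],
    [[],
      [],
      [],
      [],
      [],
      [],
      [],
      [],
      [],
      [],
      [[],
       [(110, -2)]]],
    [[],
      [],
      [],
      [],
      [],
      [],
      [],
      [],
      [],
      [],
      [[],
       [],
       [(352, -2)]]]]

theorem ce2_ck : ce2.ck bs 11 2 = true := by decide +kernel

/-- certificate -/
def ce3 : Cer where
  den := 1
  N := [[],
    [],
    [],
    [],
    [],
    [],
    [],
    [],
    [[(231, 1)],
      [],
      [],
      [],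
      [],
      [],
      [],
      [],
      [],
      [],
      []],
    [],
    []]
  A := [[[],
      [],
      [],
      [],
      [],
      [],
      [],
      [],
      [],
      [(110, 1)]],
    [],
    [[],
      [],
      [],
      [],
      [],
      [],
      [],
      [],
      [],
      [(352, 1)]]]
  W := [[[],
      [],
      [],
      [],
      [],
      [],
      [],
      [],
      [],
      [],
      []],
    [[],
      [],
      [],
      [],
      [],
      [],
      [],
      [],
      [],
      [],
      []],
    [[],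
      [],
      [],
      [],
      [],
      [],
      [],
      [],
      [],
      [],
      []]]

theorem ce3_ck : ce3.ck bs 11 3 = true := by decide +kernel

end Pool.Agent.Lib.D13.R1451
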