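import Pool.Agent.Lib.D13.Refl

/-!
# MP_5dcbc3_ag: density certificates, levels (1,5,5,1), d = 12: `x, y, z = t, t ^ 3, t ^ 4`
-/

namespace Pool.Agent.Lib.D13.R1551

open Refl

/-- the base point -/
def bs : Base where
  lev := [0, 1, 1, 1, 1, 2, 2, 2, 1, 2, 3, 2]
  pw := [[[(0, 1)], [(1, 1)], [(2, 1)], [(3, 1)], [(4, 1)], [(5, 1)], [(6, 1)], [(7, 1)], [(8, 1)],
      [(9, 1)], [(10, 1)], [(11, 1)]],
    [[], [(0, 1)], [(1, 1)], [(2, 1)], [(3, 1)], [(4, 1)], [(5, 1)], [(6, 1)], [(7, 1)], [(8,
      1)], [(9, 1)], [(10, 1)]],
    [[], [], [(0, 1)], [(1, 1)], [(2, 1)], [(3, 1)], [(4, 1)], [(5, 1)], [(6, 1)], [(7, 1)],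
      [(8, 1)], [(9, 1)]],
    [[], [], [], [(0, 1)], [(1, 1)], [(2, 1)], [(3, 1)], [(4, 1)], [(5, 1)], [(6, 1)], [(7,
      1)], [(8, 1)]],
    [[], [], [], [], [(0, 1)], [(1, 1)], [(2, 1)], [(3, 1)], [(4, 1)], [(5, 1)], [(6, 1)], [(7,
      1)]],
    [[], [], [], [], [], [(0, 1)], [(1, 1)], [(2, 1)], [(3, 1)], [(4, 1)], [(5, 1)], [(6, 1)]],
    [[], [], [], [], [], [], [(0, 1)], [(1, 1)], [(2, 1)], [(3, 1)], [(4, 1)], [(5, 1)]],
    [[], [], [], [], [], [], [], [(0, 1)], [(1, 1)], [(2, 1)], [(3, 1)], [(4, 1)]],
    [[], [], [], [], [], [], [], [], [(0, 1)], [(1, 1)], [(2, 1)], [(3, 1)]],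
    [[], [], [], [], [], [], [], [], [], [(0, 1)], [(1, 1)], [(2, 1)]],
    [[], [], [], [], [], [], [], [], [], [], [(0, 1)], [(1, 1)]],
    [[], [], [], [], [], [], [], [], [], [], [], [(0, 1)]]]
  xc := [[(1, 1)], [(3, 1)], [(4, 1)]]
  X := [[[], [(0, 1)], [(1, 1)], [(2, 1)], [(3, 1)], [(4, 1)], [(5, 1)], [(6, 1)], [(7, 1)], [(8,
      1)], [(9, 1)], [(10, 1)]],
    [[], [], [], [(0, 1)], [(1, 1)], [(2, 1)], [(3, 1)], [(4, 1)], [(5, 1)], [(6, 1)], [(7,
      1)], [(8, 1)]],
    [[], [], [], [], [(0, 1)], [(1, 1)], [(2, 1)], [(3, 1)], [(4, 1)], [(5, 1)], [(6, 1)], [(7,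
      1)]]]

theorem bs_ck : bs.ck 12 = true := by decide +kernel

/-- certificate -/
def ce1 : Cer where
  den := 3
  N := [[],
    [[(63, 9), (76, -9), (192, 6), (231, -3), (270, -3), (348, -3), (413, 3)],
      [(180, 6), (206, -3), (271, -3), (349, 3), (362, 3), (375, -3), (414, 3)],
      [(168, -3), (207, -3), (220, 6), (324, 3), (350, 3), (376, -3), (428, -3)],
      [(92, 3), (156, -3), (273, 3), (312, 1), (364, 1), (416, -2)],
      [(300, -2), (352, 1), (404, 1)],
      [],
      [],
      [],
      [(356, 3)],
      [],
      [],
      []],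
    [[(36, 6), (62, 3), (127, 6), (204, 3), (230, -3), (360, -6), (373, 6), (399, 6), (412,
      -6)],
      [(63, 6), (76, -6), (192, 3), (205, 3), (231, -3), (270, -3), (348, -3), (413, 3)],
      [(180, 3), (271, -3), (362, 3), (375, -3), (414, 3)],
      [(168, -3), (220, 3), (324, 2), (376, -1), (428, -1)],
      [(312, -2), (364, 1), (416, 1)],
      [],
      [],
      [],
      [(368, 3)],
      [],
      [],
      []],
    [[(48, 3), (61, 3), (74, 3)],
      [(36, 3), (62, 3), (127, 6), (204, 3), (230, -3), (360, -6), (373, 6), (399, 6), (412,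
      -6)],
      [(63, 6), (76, -6), (192, 3), (231, -3), (348, -3), (374, 3)],
      [],
      [(324, -2), (376, 1), (428, 1)],
      [],
      [],
      [],
      [(380, 3)],
      [],
      [],
      []],
    [[(60, 6), (73, 3), (86, 6), (228, -3), (267, 3), (397, 3), (410, -3)],
      [(61, 3), (74, 3)],
      [(36, 3), (62, 3), (127, 3), (360, -3), (373, 3), (399, 3), (412, -3)],
      [(63, 3), (76, -3)],
      [(180, -3), (232, 3), (375, -3)],
      [],
      [],
      [],
      [(236, 3), (275, 3)],
      [],
      [],
      []],
    [[(72, 3)],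
      [(60, 3), (73, 3), (86, 6), (228, -3), (267, 3), (397, 3), (410, -3)],
      [(74, 3)],
      [(36, 3), (127, 3), (360, -3), (373, 3), (399, 3), (412, -3)],
      [],
      [(180, 6), (206, -3), (271, -3), (362, 3), (375, -3), (414, 3)],
      [(168, -3), (207, -3), (220, 6), (324, 4), (376, -2), (428, -2)],
      [(92, 3), (208, -3), (273, 3), (312, -1), (364, 2), (416, -1)],
      [(300, -1), (352, -1), (404, 2)],
      [(68, -3), (236, 3), (275, 3)],
      [],
      [(212, -3), (368, 3)]],
    [[(110, 3), (136, -3), (252, 9), (265, -6), (278, -3), (408, -6), (421, 6)],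
      [],
      [(60, 3), (86, 6), (228, -3), (267, 3), (397, 3), (410, -3)],
      [],
      [(36, 3), (360, -3), (373, 3)],
      [],
      [(180, 3), (271, -3), (375, -3), (414, 3)],
      [],
      [(312, -1), (364, -1), (416, 2)],
      [(80, -3), (300, -1), (352, -1), (404, 2)],
      [],
      [(419, 3)]],
    [[],
      [(110, 3), (136, -3), (252, 6), (265, -3), (278, -3), (408, -6), (421, 6)],
      [(85, -3)],
      [(60, 3), (86, 3), (228, -3), (267, 3), (397, 3), (410, -3)],
      [(87, -3)],
      [],
      [(63, -3), (76, 3), (192, -3), (270, 3), (348, 3), (413, -3)],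
      [(375, -3)],
      [(324, -1), (376, -1), (428, 2)],
      [(92, -3), (312, -1), (364, -1), (416, 2)],
      [],
      [(275, 3)]],
    [[(108, 3), (121, 3), (134, 3)],
      [],
      [(110, 3), (136, -3), (252, 3), (265, -3), (408, -3), (421, 3)],
      [(85, -6), (266, -3), (279, 3), (409, 3), (422, -3)],
      [(60, 3), (384, -3), (397, 3)],
      [],
      [],
      [],
      [(64, -6), (116, 3), (129, 3), (180, -15), (206, 6), (232, 6), (271, 3), (362, -6), (375,
      -3), (414, -6)],
      [],
      [],
      []],
    [[(120, 3), (133, 3)],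
      [(121, 3), (134, 3)],
      [(109, -3), (135, 3), (264, 3), (277, -3)],
      [],
      [(85, -6), (111, -3), (266, -3), (279, 3), (409, 3), (422, -3)],
      [],
      [(48, -3), (61, -3), (87, -3), (372, 3), (398, -3)],
      [(62, -3), (127, -3), (204, -3), (230, 3), (360, 3), (399, -6), (412, 3)],
      [(63, -9), (76, 9), (192, -6), (231, 3), (270, 3), (348, 6), (400, -3), (413, -3)],
      [(64, -3), (129, 3), (180, -6), (206, 3), (232, 3), (362, -3), (375, -3), (414, -3)],
      [],
      [(92, 3), (260, -3), (273, 3)]],
    [[],
      [(133, 3)],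
      [(134, 3)],
      [(109, -3), (122, -3), (135, 6), (264, 6), (277, -6)],
      [],
      [(72, -3), (85, -6), (111, -3), (266, -3), (279, 3), (396, 3), (422, -3)],
      [(73, -3), (397, 3), (410, -3)],
      [(48, -3), (61, -3), (74, -3), (87, -3), (372, 3), (411, -3)],
      [(62, -3), (127, -6), (204, -3), (230, 3), (360, 3), (399, -6), (412, 3)],
      [(63, -9), (76, 9), (192, -6), (231, 3), (270, 3), (348, 6), (413, -6)],
      [(180, 3), (271, -3), (375, -3)],
      [(324, 1), (376, 1), (415, -3), (428, 1)]],
    [[],
      [],
      [],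
      [],
      [(109, -3), (122, -3), (135, 6), (264, 9), (277, -9)],
      [(252, -3), (265, 3), (408, 3), (421, -3)],
      [(72, -3), (85, -9), (111, -3), (266, -3), (279, 3), (396, 3), (409, 3), (422, -6)],
      [(73, -3), (86, -3), (397, 3), (423, -3)],
      [(48, -3), (61, -3), (74, -3), (87, -6), (372, 3), (424, -3)],
      [(62, -3), (127, -6), (140, -3), (204, -3), (230, 3), (360, 3), (399, -6), (412, 3)],
      [],
      [(64, -6), (116, 3), (129, 3), (180, -12), (206, 6), (232, 6), (271, 3), (284, -3), (362,
      -6), (375, -3), (414, -6)]]]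
  A := [[[(64, 3), (180, 9), (206, -3), (232, -3), (271, -3), (362, 3), (414, 3)],
      [(76, 3)],
      [],
      [],
      [],
      [],
      [(136, 3), (252, -3), (265, 3), (408, 3), (421, -3)],
      [(135, 3), (264, 3), (277, -3)],
      [],
      [],
      [(132, 3)]],
    [[(92, 3), (273, 3), (312, 1), (364, 1), (416, -2)],
      [(220, 3), (324, 2), (376, -1), (428, -1)],
      [(180, 3)],
      [(63, -6), (76, 6), (192, -3), (231, 3), (270, 3), (348, 3), (413, -3)],
      [(36, -3), (62, -3), (127, -3), (230, 3), (360, 3), (373, -3), (399, -3), (412, 3)],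
      [(48, -3), (61, -3), (87, -3), (255, 3), (372, 3), (398, -3)],
      [(60, -3), (73, -3), (86, -3), (228, 3)],
      [(72, -3), (85, -3), (111, -3), (279, 3), (396, 3), (422, -3)],
      [(110, -3), (136, 3), (252, -6), (265, 6), (278, 3), (408, 6), (421, -6)],
      [(109, -3), (122, -3), (135, 6), (264, 9), (277, -6)],
      [(108, -3), (121, -3), (134, -3), (276, 3)]],
    [[(300, 1), (352, 1), (404, 1)],
      [(312, 1), (364, 1), (416, 1)],
      [(324, 1), (376, 1), (428, 1)],
      [],
      [(63, -9), (76, 9), (192, -6), (231, 3), (270, 3), (348, 6), (413, -3)],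
      [(36, -3), (62, -3), (127, -6), (204, -3), (230, 3), (360, 6), (373, -3), (399, -6), (412,
      6)],
      [(48, -3), (61, -3), (74, -3), (87, -3), (372, 3)],
      [(60, -3), (73, -3), (86, -6), (228, 3), (267, -3), (410, 3)],
      [(72, -3), (85, -6), (111, -3), (266, -3), (279, 3), (396, 3), (409, 3), (422, -3)],
      [(110, -3), (136, 3), (252, -9), (265, 6), (278, 3), (408, 9), (421, -6)],
      [(109, -3), (122, -3), (135, 6), (264, 9), (277, -9), (420, 3)]]]
  W := [[[],
      [[(204, -3), (372, 3)]],
      [[(60, -3)]],
      [],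
      [],
      [],
      [[],
       [],
       [],
       [(267, -3)]],
      [[(276, -3)],
       [],
       [],
       [],
       [(228, 3)]],
      [[(132, -3)]],
      [[],
       [],
       [],
       [],
       [(252, 3)]],
      [[],
       [],
       [],
       [(120, 3), (276, -3)],
       [(264, 3)],
       [(265, 3)],
       [(266, 3)],
       [],
       [(268, 3)],
       [],
       [],
       [(128, 3)]],
      []],
    [[],
      [],
      [],
      [],
      [],
      [],
      [[(123, -3), (266, 3), (408, -3)],
       [(72, -3), (267, -3)],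
       [(410, -3)],
       [(411, -3)],
       [],
       [],
       [],
       [],
       [(416, -3)]],
      [[],
       [(84, -3), (123, -3), (266, 3), (408, -3)]],
      [[(108, 3), (121, 3), (264, -3)]],
      [[],
       [(121, 3), (264, -3)],
       [(122, 3), (265, -3)],
       [],
       [(396, 3)]],
      [[],
       [],
       [],
       [],
       [(123, -3), (266, 3)],
       [(124, -3), (228, -3), (396, 3)],
       [],
       [],
       [(412, 3)]],
      [[],
       [],
       [],
       [],
       [(420, 3)]]],
    [[],
      [],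
      [],
      [],
      [[(372, 3)]],
      [[],
       [],
       [],
       [(348, -3)]],
      [[],
       [(60, 3), (216, -3)],
       [],
       [(360, -3)]],
      [],
      [],
      [],
      [[],
       [],
       [],
       [],
       [],
       [],
       [],
       [],
       [],
       [(272, -3)]],
      []]]

theorem ce1_ck : ce1.ck bs 12 1 = true := by decide +kernel

/-- certificate -/
def ce2 : Cer where
  den := 1
  N := [[],
    [[(348, 1)],
      [],
      [],
      [],
      [],
      [],
      [],
      [],
      [],
      [],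
      [],
      []],
    [],
    [[(372, 1)],
      [],
      [],
      [],
      [],
      [],
      [],
      [],
      [],
      [],
      [],
      []],
    [],
    [[(396, 1)],
      [(60, -1)],
      [],
      [],
      [],
      [],
      [],
      [],
      [],
      [],
      [],
      []],
    [[],
      [(72, -1), (124, 1), (396, 1)],
      [],
      [(411, 1)],
      [],
      [],
      [],
      [],
      [],
      [],
      [],
      []],
    [[],
      [(265, 1)],
      [(266, 1)],
      [(228, -1)],
      [],
      [],
      [],
      [],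
      [],
      [],
      [],
      []],
    [[(108, 1), (121, 1)],
      [],
      [],
      [],
      [],
      [],
      [],
      [],
      [],
      [],
      [],
      []],
    [[],
      [(121, 1)],
      [],
      [(252, -1)],
      [],
      [],
      [],
      [],
      [],
      [],
      [],
      []],
    [[],
      [(120, -1)],
      [],
      [],
      [],
      [],
      [(228, -1), (267, -1)],
      [],
      [(360, 1), (412, -1)],
      [(128, -1)],
      [],
      []],
    [[],
      [],
      [],
      [],
      [(420, -1)],
      [],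
      [],
      [],
      [],
      [],
      [],
      []]]
  A := [[[],
      [],
      [],
      [],
      [],
      [(124, 1)],
      [(84, 1), (265, 1)],
      [(122, 1)],
      [],
      [],
      [(132, 1)]],
    [[],
      [(272, 1)],
      [],
      [],
      [(204, 1)],
      [(216, 1), (372, -1), (411, 1)],
      [],
      [],
      [],
      [(264, 1)],
      [(108, -1), (121, -1), (276, 1)]],
    [[],
      [(416, 1)],
      [],
      [],
      [],
      [(360, 1)],
      [],
      [(228, -1), (267, -1), (410, 1)],
      [],
      [(408, 1)],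
      []]]
  W := [[[],
      [],
      [],
      [],
      [],
      [],
      [],
      [],
      [],
      [],
      [[],
       [],
       [],
       [(120, 1)]],
      []],
    [[],
      [],
      [],
      [],
      [],
      [],
      [],
      [],
      [],
      [],
      [[],
       [],
       [],
       [],
       [(408, 1)]],
      []],
    [[],
      [],
      [],
      [],
      [],
      [],
      [],
      [],
      [],
      [],
      [[],
       [(264, -1)]],
      []]]

theorem ce2_ck : ce2.ck bs 12 2 = true := by decide +kernel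

/-- certificate -/
def ce3 : Cer where
  den := 1
  N := [[],
    [],
    [],
    [],
    [],
    [],
    [[(408, 1)],
      [],
      [],
      [],
      [],
      [],
      [],
      [],
      [],
      [],
      [],
      []],
    [],
    [],
    [],
    [[],
      [],
      [],
      [(264, -1)],
      [],
      [],
      [],
      [],
      [],
      [],
      [],
      []],
    []]
  A := [[[],
      [],
      [],
      [],
      [],
      [],
      [],
      [],
      [],
      [(120, 1)],
      []],
    [],
    []]
  W := [[[],
      [],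
      [],
      [],
      [],
      [],
      [],
      [],
      [],
      [],
      [],
      []],
    [[],
      [],
      [],
      [],
      [],
      [],
      [],
      [],
      [],
      [],
      [],
      []],
    [[],
      [],
      [],
      [],
      [],
      [],
      [],
      [],
      [],
      [],
      [],
      []]]

theorem ce3_ck : ce3.ck bs 12 3 = true := by decide +kernel

end Pool.Agent.Lib.D13.R1551
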