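import Pool.Agent.Lib.D13.Seg
import Pool.Agent.Lib.D13.R1441
import Pool.Agent.Lib.D13.R1451
import Pool.Agent.Lib.D13.R1551

/-!
# MP_5dcbc3_ag: levels of sizes (1,4,4,1), (1,4,5,1), (1,5,4,1), (1,5,5,1)

Commuting triples, strictly triangular for a level function with these sizes, such that the three
vectors `T i v₀` are independent modulo levels `≥ 2` and the three functionals from level `2` to
level `3` are independent, are limits of curvilinear triples.
-/

namespace Pool.Agent.Lib.D13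

open Matrix Pool.Agent.Lib.Q5dc Pool.Agent.Lib.D7

variable {k : Type*} [Field k] {ι : Type*} [Fintype ι] [DecidableEq ι]

namespace Seg

omit [DecidableEq ι] in
theorem exists_lev_equiv {κ : Type*} [Fintype κ] (w : ι → ℕ) (w' : κ → ℕ)
    (h : ∀ a, Fintype.card {x // w x = a} = Fintype.card {x // w' x = a}) :
    ∃ e : ι ≃ κ, ∀ x, w' (e x) = w x := by
  have f : ∀ a, {x // w x = a} ≃ {x // w' x = a} := fun a =>
    Classical.choice ((Fintype.card_eq).1 (h a))
  refine ⟨(Equiv.sigmaFiberEquiv w).symm.trans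
    ((Equiv.sigmaCongrRight f).trans (Equiv.sigmaFiberEquiv w')), fun x => ?_⟩
  show w' ((f (w x) ⟨x, rfl⟩ : {y // w' y = w x}) : κ) = w x
  exact (f (w x) ⟨x, rfl⟩).2

theorem xx_val {B : Refl.Base} {D : ℕ} {i : Fin 3} {x y : Fin D} (n : ℤ) (h : B.Xe i x y = n) :
    Refl.XX k B D i x y = (n : k) := by
  rw [← h]
  rfl

omit [DecidableEq ι] in
/-- the sizes of the levels -/
theorem sizes {D : ℕ} {w : ι → ℕ} {w' : Fin D → ℕ} (hle : ∀ x, w x ≤ 3) (hle' : ∀ x, w' x ≤ 3)
    (n : Fin 4 → ℕ) (h : ∀ a : Fin 4, Fintype.card {x // w x = (a : ℕ)} = n a)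
    (h' : ∀ a : Fin 4, Fintype.card {x : Fin D // w' x = (a : ℕ)} = n a) (a : ℕ) :
    Fintype.card {x // w x = a} = Fintype.card {x // w' x = a} := by
  by_cases ha : a < 4
  · exact (h ⟨a, ha⟩).trans (h' ⟨a, ha⟩).symm
  · rw [Fintype.card_eq_zero_iff.2, Fintype.card_eq_zero_iff.2]
    · exact ⟨fun x => by have h1 := hle' x.1; have h2 := x.2; omega⟩
    · exact ⟨fun x => by have h1 := hle x.1; have h2 := x.2; omega⟩

end Seg

open Seg

theorem cert1441 [CharZero k] (κ : ℕ) (hκ : 1 ≤ κ) :
    Cert (fun x : Fin 10 => R1441.bs.w x) (Refl.Mt k 10 (Refl.nth [] R1441.bs.pw 1))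
      (Refl.XX k R1441.bs 10) κ := by
  have h0 : R1441.bs.ckPow 10 = true := by decide +kernel
  rcases Nat.lt_or_ge 3 κ with h | h
  · exact Refl.cert_large (L := 3) (by decide) h
  · interval_cases κ
    · exact Refl.cert_of_ck _ (by norm_num) h0 _ R1441.ce1_ck
    · exact Refl.cert_of_ck _ (by norm_num) h0 _ R1441.ce2_ck
    · exact Refl.cert_of_ck _ (by norm_num) h0 _ R1441.ce3_ck

/-- **Levels of sizes `1, 4, 4, 1`.** -/
theorem cl_1441 [CharZero k] (w : ι → ℕ) (hle : ∀ x, w x ≤ 3)
    (hn : ∀ a : Fin 4, Fintype.card {x // w x = (a : ℕ)} = ![1, 4, 4, 1] a)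
    (T : Fin 3 → Matrix ι ι k) (hT : ∀ i j, T i * T j = T j * T i)
    (hlow : ∀ i x y, w x ≤ w y → T i x y = 0) (v0 s3 : ι) (hv : w v0 = 0) (hs : w s3 = 3)
    (hu : ∀ c : Fin 3 → k, (∀ x, w x = 1 → ∑ i, c i * T i x v0 = 0) → c = 0)
    (hf : ∀ c : Fin 3 → k, (∀ y, w y = 2 → ∑ i, c i * T i s3 y = 0) → c = 0) : Cl T := by
  have hle' : ∀ x : Fin 10, R1441.bs.w x ≤ 3 := by decide
  obtain ⟨e, he⟩ := exists_lev_equiv w (fun x : Fin 10 => R1441.bs.w x)
    (sizes hle hle' _ hn (by decide))
  refine cl_1mn1 (by norm_num) R1441.bs_ck cert1441 hle' 0 9 (by decide) (by decide) ?_ ?_ e w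
    he T hT hlow v0 s3 hv hs hu hf
  · intro c hc
    have h1 := hc 1 (by decide)
    have h2 := hc 3 (by decide)
    have h3 := hc 4 (by decide)
    rw [Fin.sum_univ_three, xx_val 1 (by decide +kernel), xx_val 0 (by decide +kernel),
      xx_val 0 (by decide +kernel)] at h1
    rw [Fin.sum_univ_three, xx_val 0 (by decide +kernel), xx_val 1 (by decide +kernel),
      xx_val 0 (by decide +kernel)] at h2
    rw [Fin.sum_univ_three, xx_val 0 (by decide +kernel), xx_val 0 (by decide +kernel),
      xx_val 1 (by decide +kernel)] at h3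
    funext i
    fin_cases i
    · simpa using h1
    · simpa using h2
    · simpa using h3
  · intro c hc
    have h1 := hc 8 (by decide)
    have h2 := hc 6 (by decide)
    have h3 := hc 5 (by decide)
    rw [Fin.sum_univ_three, xx_val 1 (by decide +kernel), xx_val 0 (by decide +kernel),
      xx_val 0 (by decide +kernel)] at h1
    rw [Fin.sum_univ_three, xx_val 0 (by decide +kernel), xx_val 1 (by decide +kernel),
      xx_val 0 (by decide +kernel)] at h2
    rw [Fin.sum_univ_three, xx_val 0 (by decide +kernel), xx_val 0 (by decide +kernel),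
      xx_val 1 (by decide +kernel)] at h3
    funext i
    fin_cases i
    · simpa using h1
    · simpa using h2
    · simpa using h3

theorem cert1451 [CharZero k] (κ : ℕ) (hκ : 1 ≤ κ) :
    Cert (fun x : Fin 11 => R1451.bs.w x) (Refl.Mt k 11 (Refl.nth [] R1451.bs.pw 1))
      (Refl.XX k R1451.bs 11) κ := by
  have h0 : R1451.bs.ckPow 11 = true := by decide +kernel
  rcases Nat.lt_or_ge 3 κ with h | h
  · exact Refl.cert_large (L := 3) (by decide) h
  · interval_cases κ
    · exact Refl.cert_of_ck _ (by norm_num) h0 _ R1451.ce1_ck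
    · exact Refl.cert_of_ck _ (by norm_num) h0 _ R1451.ce2_ck
    · exact Refl.cert_of_ck _ (by norm_num) h0 _ R1451.ce3_ck

/-- **Levels of sizes `1, 4, 5, 1`.** -/
theorem cl_1451 [CharZero k] (w : ι → ℕ) (hle : ∀ x, w x ≤ 3)
    (hn : ∀ a : Fin 4, Fintype.card {x // w x = (a : ℕ)} = ![1, 4, 5, 1] a)
    (T : Fin 3 → Matrix ι ι k) (hT : ∀ i j, T i * T j = T j * T i)
    (hlow : ∀ i x y, w x ≤ w y → T i x y = 0) (v0 s3 : ι) (hv : w v0 = 0) (hs : w s3 = 3)
    (hu : ∀ c : Fin 3 → k, (∀ x, w x = 1 → ∑ i, c i * T i x v0 = 0) → c = 0)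
    (hf : ∀ c : Fin 3 → k, (∀ y, w y = 2 → ∑ i, c i * T i s3 y = 0) → c = 0) : Cl T := by
  have hle' : ∀ x : Fin 11, R1451.bs.w x ≤ 3 := by decide
  obtain ⟨e, he⟩ := exists_lev_equiv w (fun x : Fin 11 => R1451.bs.w x)
    (sizes hle hle' _ hn (by decide))
  refine cl_1mn1 (by norm_num) R1451.bs_ck cert1451 hle' 0 10 (by decide) (by decide) ?_ ?_ e w
    he T hT hlow v0 s3 hv hs hu hf
  · intro c hc
    have h1 := hc 1 (by decide)
    have h2 := hc 2 (by decide)
    have h3 := hc 6 (by decide)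
    rw [Fin.sum_univ_three, xx_val 1 (by decide +kernel), xx_val 0 (by decide +kernel),
      xx_val 0 (by decide +kernel)] at h1
    rw [Fin.sum_univ_three, xx_val 0 (by decide +kernel), xx_val 1 (by decide +kernel),
      xx_val 0 (by decide +kernel)] at h2
    rw [Fin.sum_univ_three, xx_val 0 (by decide +kernel), xx_val 0 (by decide +kernel),
      xx_val 1 (by decide +kernel)] at h3
    funext i
    fin_cases i
    · simpa using h1
    · simpa using h2
    · simpa using h3
  · intro c hc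
    have h1 := hc 9 (by decide)
    have h2 := hc 8 (by decide)
    have h3 := hc 4 (by decide)
    rw [Fin.sum_univ_three, xx_val 1 (by decide +kernel), xx_val 0 (by decide +kernel),
      xx_val 0 (by decide +kernel)] at h1
    rw [Fin.sum_univ_three, xx_val 0 (by decide +kernel), xx_val 1 (by decide +kernel),
      xx_val 0 (by decide +kernel)] at h2
    rw [Fin.sum_univ_three, xx_val 0 (by decide +kernel), xx_val 0 (by decide +kernel),
      xx_val 1 (by decide +kernel)] at h3
    funext i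
    fin_cases i
    · simpa using h1
    · simpa using h2
    · simpa using h3

theorem cert1551 [CharZero k] (κ : ℕ) (hκ : 1 ≤ κ) :
    Cert (fun x : Fin 12 => R1551.bs.w x) (Refl.Mt k 12 (Refl.nth [] R1551.bs.pw 1))
      (Refl.XX k R1551.bs 12) κ := by
  have h0 : R1551.bs.ckPow 12 = true := by decide +kernel
  rcases Nat.lt_or_ge 3 κ with h | h
  · exact Refl.cert_large (L := 3) (by decide) h
  · interval_cases κ
    · exact Refl.cert_of_ck _ (by norm_num) h0 _ R1551.ce1_ck
    · exact Refl.cert_of_ck _ (by norm_num) h0 _ R1551.ce2_ck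
    · exact Refl.cert_of_ck _ (by norm_num) h0 _ R1551.ce3_ck

/-- **Levels of sizes `1, 5, 5, 1`.** -/
theorem cl_1551 [CharZero k] (w : ι → ℕ) (hle : ∀ x, w x ≤ 3)
    (hn : ∀ a : Fin 4, Fintype.card {x // w x = (a : ℕ)} = ![1, 5, 5, 1] a)
    (T : Fin 3 → Matrix ι ι k) (hT : ∀ i j, T i * T j = T j * T i)
    (hlow : ∀ i x y, w x ≤ w y → T i x y = 0) (v0 s3 : ι) (hv : w v0 = 0) (hs : w s3 = 3)
    (hu : ∀ c : Fin 3 → k, (∀ x, w x = 1 → ∑ i, c i * T i x v0 = 0) → c = 0)
    (hf : ∀ c : Fin 3 → k, (∀ y, w y = 2 → ∑ i, c i * T i s3 y = 0) → c = 0) : Cl T := by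
  have hle' : ∀ x : Fin 12, R1551.bs.w x ≤ 3 := by decide
  obtain ⟨e, he⟩ := exists_lev_equiv w (fun x : Fin 12 => R1551.bs.w x)
    (sizes hle hle' _ hn (by decide))
  refine cl_1mn1 (by norm_num) R1551.bs_ck cert1551 hle' 0 10 (by decide) (by decide) ?_ ?_ e w
    he T hT hlow v0 s3 hv hs hu hf
  · intro c hc
    have h1 := hc 1 (by decide)
    have h2 := hc 3 (by decide)
    have h3 := hc 4 (by decide)
    rw [Fin.sum_univ_three, xx_val 1 (by decide +kernel), xx_val 0 (by decide +kernel),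
      xx_val 0 (by decide +kernel)] at h1
    rw [Fin.sum_univ_three, xx_val 0 (by decide +kernel), xx_val 1 (by decide +kernel),
      xx_val 0 (by decide +kernel)] at h2
    rw [Fin.sum_univ_three, xx_val 0 (by decide +kernel), xx_val 0 (by decide +kernel),
      xx_val 1 (by decide +kernel)] at h3
    funext i
    fin_cases i
    · simpa using h1
    · simpa using h2
    · simpa using h3
  · intro c hc
    have h1 := hc 9 (by decide)
    have h2 := hc 7 (by decide)
    have h3 := hc 6 (by decide)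
    rw [Fin.sum_univ_three, xx_val 1 (by decide +kernel), xx_val 0 (by decide +kernel),
      xx_val 0 (by decide +kernel)] at h1
    rw [Fin.sum_univ_three, xx_val 0 (by decide +kernel), xx_val 1 (by decide +kernel),
      xx_val 0 (by decide +kernel)] at h2
    rw [Fin.sum_univ_three, xx_val 0 (by decide +kernel), xx_val 0 (by decide +kernel),
      xx_val 1 (by decide +kernel)] at h3
    funext i
    fin_cases i
    · simpa using h1
    · simpa using h2
    · simpa using h3

/-- **Levels of sizes `1, 5, 4, 1`.** -/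
theorem cl_1541 [CharZero k] (w : ι → ℕ) (hle : ∀ x, w x ≤ 3)
    (hn : ∀ a : Fin 4, Fintype.card {x // w x = (a : ℕ)} = ![1, 5, 4, 1] a)
    (T : Fin 3 → Matrix ι ι k) (hT : ∀ i j, T i * T j = T j * T i)
    (hlow : ∀ i x y, w x ≤ w y → T i x y = 0) (v0 s3 : ι) (hv : w v0 = 0) (hs : w s3 = 3)
    (hu : ∀ c : Fin 3 → k, (∀ x, w x = 1 → ∑ i, c i * T i x v0 = 0) → c = 0)
    (hf : ∀ c : Fin 3 → k, (∀ y, w y = 2 → ∑ i, c i * T i s3 y = 0) → c = 0) : Cl T := by
  have hsub : ∀ x a, a ≤ 3 → (3 - w x = a ↔ w x = 3 - a) := fun x a ha => by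
    have h1 := hle x
    omega
  have key : Cl (fun i => (T i).transpose) := by
    refine cl_1451 (fun x => 3 - w x) (fun x => Nat.sub_le _ _) ?_ _ ?_ ?_ s3 v0 ?_ ?_ ?_ ?_
    · intro a
      have h1 : ∀ a : Fin 4, Fintype.card {x // 3 - w x = (a : ℕ)} =
          Fintype.card {x // w x = ((3 - a : Fin 4) : ℕ)} := by
        intro a
        refine Fintype.card_congr (Equiv.subtypeEquivRight fun x => ?_)
        rw [hsub x a (by omega)]
        fin_cases a <;> simp
      rw [h1 a, hn]
      fin_cases a <;> rfl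
    · intro i j
      rw [← Matrix.transpose_mul, ← Matrix.transpose_mul, hT]
    · intro i x y hxy
      have h1 := hle x
      have h2 := hle y
      exact hlow i y x (by omega)
    · show 3 - w s3 = 0
      rw [hs]
    · show 3 - w v0 = 3
      rw [hv]
    · intro c hc
      refine hf c fun y hy => ?_
      exact hc y (by show 3 - w y = 1; rw [hy])
    · intro c hc
      refine hu c fun x hx => ?_
      exact hc x (by show 3 - w x = 2; rw [hx])
  exact Cl.transpose key

end Pool.Agent.Lib.D13
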