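import Pool.Agent.Lib.D13.FdcVia
import Pool.Agent.Lib.D8.UtilB

/-!
# MP_5dcbc3_ag: the W-form of three-step triples

`V0 = k^e`, `V1 = V2 = W = k^w`. `TW io P Q M M'` is the triple `A = (io : V0 -> V1, 1 : V1 -> V2)`,
`B = (P io, P; M : V0 -> V2)`, `C = (Q io, Q; M')`. It commutes iff `(P Q - Q P) io = 0`.
-/

set_option autoImplicit false

namespace Pool.Agent.Lib.D13

open Matrix Pool.Agent.Lib.Q5dc Pool.Agent.Lib.D7

variable {k : Type*} [Field k] {e w : ℕ}

/-- indices of `V0 + (V1 + V2)` -/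
abbrev IW (e w : ℕ) : Type := Fin e ⊕ (Fin w ⊕ Fin w)

/-- one matrix: `al : V0 -> V1`, `M : V0 -> V2`, `P : V1 -> V2` -/
def Wm (al M : Matrix (Fin w) (Fin e) k) (P : Matrix (Fin w) (Fin w) k) :
    Matrix (IW e w) (IW e w) k :=
  Matrix.of fun i j => match i, j with
    | .inr (.inl i), .inl j => al i j
    | .inr (.inr i), .inl j => M i j
    | .inr (.inr i), .inr (.inl j) => P i j
    | _, _ => 0

/-- the triple -/
def TW (io : Matrix (Fin w) (Fin e) k) (P Q : Matrix (Fin w) (Fin w) k)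
    (M M' : Matrix (Fin w) (Fin e) k) : Fin 3 → Matrix (IW e w) (IW e w) k :=
  ![Wm io 0 1, Wm (P * io) M P, Wm (Q * io) M' Q]

/-- the level function -/
def levW : IW e w → ℕ
  | .inl _ => 0
  | .inr (.inl _) => 1
  | .inr (.inr _) => 2

theorem Wm_low {al M : Matrix (Fin w) (Fin e) k} {P : Matrix (Fin w) (Fin w) k} {a b : IW e w}
    (h : levW a ≤ levW b) : Wm al M P a b = 0 := by
  rcases a with a | a | a <;> rcases b with b | b | b <;>
    first
    | rfl
    | (exfalso; revert h; simp [levW])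

theorem Wm_mul (al M al' M' : Matrix (Fin w) (Fin e) k) (P P' : Matrix (Fin w) (Fin w) k) :
    Wm al M P * Wm al' M' P' = Wm 0 (P * al') 0 := by
  ext i j
  rcases i with i | i | i <;> rcases j with j | j | j <;>
    simp [Wm, Matrix.mul_apply, Fintype.sum_sum_type]

theorem Wm_add (al M al' M' : Matrix (Fin w) (Fin e) k) (P P' : Matrix (Fin w) (Fin w) k) :
    Wm al M P + Wm al' M' P' = Wm (al + al') (M + M') (P + P') := by
  ext i j
  rcases i with i | i | i <;> rcases j with j | j | j <;> simp [Wm]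

theorem Wm_smul (s : k) (al M : Matrix (Fin w) (Fin e) k) (P : Matrix (Fin w) (Fin w) k) :
    s • Wm al M P = Wm (s • al) (s • M) (s • P) := by
  ext i j
  rcases i with i | i | i <;> rcases j with j | j | j <;> simp [Wm]

theorem Wm_inj {al M al' M' : Matrix (Fin w) (Fin e) k} {P P' : Matrix (Fin w) (Fin w) k}
    (h : Wm al M P = Wm al' M' P') : al = al' ∧ M = M' ∧ P = P' := by
  have H := fun i j => congrFun (congrFun h i) j
  refine ⟨?_, ?_, ?_⟩
  · ext i j
    exact H (.inr (.inl i)) (.inl j)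
  · ext i j
    exact H (.inr (.inr i)) (.inl j)
  · ext i j
    exact H (.inr (.inr i)) (.inr (.inl j))

theorem Wm_nil (al M : Matrix (Fin w) (Fin e) k) (P : Matrix (Fin w) (Fin w) k) :
    IsNilpotent (Wm al M P) := by
  refine ⟨3, ?_⟩
  rw [pow_succ, pow_two, Wm_mul, Wm_mul]
  ext i j
  rcases i with i | i | i <;> rcases j with j | j | j <;> simp [Wm]

theorem TW_comm {io : Matrix (Fin w) (Fin e) k} {P Q : Matrix (Fin w) (Fin w) k}
    {M M' : Matrix (Fin w) (Fin e) k} (h : P * Q * io = Q * P * io) (i j : Fin 3) :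
    TW io P Q M M' i * TW io P Q M M' j = TW io P Q M M' j * TW io P Q M M' i := by
  fin_cases i <;> fin_cases j <;>
    simp [TW, Wm_mul, ← Matrix.mul_assoc, h]

theorem TW_cn {io : Matrix (Fin w) (Fin e) k} {P Q : Matrix (Fin w) (Fin w) k}
    {M M' : Matrix (Fin w) (Fin e) k} (h : P * Q * io = Q * P * io) : CN (TW io P Q M M') := by
  refine ⟨TW_comm h, fun i => ?_⟩
  fin_cases i
  · exact Wm_nil _ _ _
  · exact Wm_nil _ _ _
  · exact Wm_nil _ _ _

/-- the relation holds for commuting triples -/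
theorem TW_rel {io : Matrix (Fin w) (Fin e) k} {P Q : Matrix (Fin w) (Fin w) k}
    {M M' : Matrix (Fin w) (Fin e) k}
    (h : TW io P Q M M' 1 * TW io P Q M M' 2 = TW io P Q M M' 2 * TW io P Q M M' 1) :
    P * Q * io = Q * P * io := by
  have h1 : Wm (P * io) M P * Wm (Q * io) M' Q = Wm (Q * io) M' Q * Wm (P * io) M P := h
  rw [Wm_mul, Wm_mul] at h1
  rw [Matrix.mul_assoc, Matrix.mul_assoc]
  exact (Wm_inj h1).2.1

theorem isPoly_Wm {al M : k → Matrix (Fin w) (Fin e) k} {P : k → Matrix (Fin w) (Fin w) k}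
    (ha : ∀ i j, IsPoly fun s => al s i j) (hM : ∀ i j, IsPoly fun s => M s i j)
    (hP : ∀ i j, IsPoly fun s => P s i j) : ∀ x y, IsPoly fun s => Wm (al s) (M s) (P s) x y := by
  intro x y
  rcases x with x | x | x <;> rcases y with y | y | y <;>
    first
    | exact ha _ _
    | exact hM _ _
    | exact hP _ _
    | exact D7.IsPoly.const _

theorem isPoly_mulc {m n l : Type*} [Fintype n] {X : k → Matrix m n k}
    (hX : ∀ i j, IsPoly fun s => X s i j) (Y : Matrix n l k) :
    ∀ i j, IsPoly fun s => (X s * Y) i j := by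
  intro i j
  have h : IsPoly fun s => ∑ a, X s i a * Y a j :=
    isPoly_sum _ fun a _ => (hX i a).mul (D7.IsPoly.const _)
  exact h

/-- polynomial families of triples with constant `io` -/
theorem polyFam_TW (io : Matrix (Fin w) (Fin e) k) {P Q : k → Matrix (Fin w) (Fin w) k}
    {M M' : k → Matrix (Fin w) (Fin e) k}
    (hP : ∀ i j, IsPoly fun s => P s i j) (hQ : ∀ i j, IsPoly fun s => Q s i j)
    (hM : ∀ i j, IsPoly fun s => M s i j) (hM' : ∀ i j, IsPoly fun s => M' s i j) :
    PolyFam fun s => TW io (P s) (Q s) (M s) (M' s) := by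
  intro i
  fin_cases i
  · exact fun x y => D7.IsPoly.const _
  · exact isPoly_Wm (isPoly_mulc hP io) hM hP
  · exact isPoly_Wm (isPoly_mulc hQ io) hM' hQ

/-- block diagonal change of basis `(h, g, g)` -/
def GW (h : Matrix (Fin e) (Fin e) k) (g : Matrix (Fin w) (Fin w) k) :
    Matrix (IW e w) (IW e w) k :=
  Matrix.of fun i j => match i, j with
    | .inl i, .inl j => h i j
    | .inr (.inl i), .inr (.inl j) => g i j
    | .inr (.inr i), .inr (.inr j) => g i j
    | _, _ => 0

theorem GW_mul (h h' : Matrix (Fin e) (Fin e) k) (g g' : Matrix (Fin w) (Fin w) k) :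
    GW h g * GW h' g' = GW (h * h') (g * g') := by
  ext i j
  rcases i with i | i | i <;> rcases j with j | j | j <;>
    simp [GW, Matrix.mul_apply, Fintype.sum_sum_type]

theorem GW_one : GW (1 : Matrix (Fin e) (Fin e) k) (1 : Matrix (Fin w) (Fin w) k) = 1 := by
  ext i j
  rcases i with i | i | i <;> rcases j with j | j | j <;> simp [GW, Matrix.one_apply]

theorem GW_conj (h h' : Matrix (Fin e) (Fin e) k) (g g' : Matrix (Fin w) (Fin w) k)
    (al M : Matrix (Fin w) (Fin e) k) (P : Matrix (Fin w) (Fin w) k) :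
    GW h g * Wm al M P * GW h' g' = Wm (g * al * h') (g * M * h') (g * P * g') := by
  ext i j
  rcases i with i | i | i <;> rcases j with j | j | j <;>
    simp [GW, Wm, Matrix.mul_apply, Fintype.sum_sum_type]

/-- change of basis: `W` by `g`, `V0` by `h` -/
theorem MaxR.conjW {ρ : ℕ → ℕ} {io : Matrix (Fin w) (Fin e) k} {P Q : Matrix (Fin w) (Fin w) k}
    {M M' : Matrix (Fin w) (Fin e) k} (hT : MaxR ρ (TW io P Q M M'))
    {h h' : Matrix (Fin e) (Fin e) k} {g g' : Matrix (Fin w) (Fin w) k} (hh : h * h' = 1)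
    (hg : g * g' = 1) :
    MaxR ρ (TW (g * io * h') (g * P * g') (g * Q * g') (g * M * h') (g * M' * h')) := by
  have hh' : h' * h = 1 := mul_eq_one_comm.1 hh
  have hg' : g' * g = 1 := mul_eq_one_comm.1 hg
  have h1 := MaxR.conj hT (GW h g) (GW h' g') (by rw [GW_mul, hh, hg, GW_one])
    (by rw [GW_mul, hh', hg', GW_one])
  have e : (fun i => GW h g * TW io P Q M M' i * GW h' g') =
      TW (g * io * h') (g * P * g') (g * Q * g') (g * M * h') (g * M' * h') := by
    have e1 : ∀ X : Matrix (Fin w) (Fin w) k, g * (X * io) * h' = g * X * g' * (g * io * h') := by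
      intro X
      calc g * (X * io) * h' = g * X * (1 : Matrix (Fin w) (Fin w) k) * io * h' := by
            rw [Matrix.mul_one, Matrix.mul_assoc g X io]
        _ = g * X * (g' * g) * io * h' := by rw [hg']
        _ = _ := by simp only [Matrix.mul_assoc]
    funext i
    fin_cases i
    · show GW h g * Wm io 0 1 * GW h' g' = Wm (g * io * h') 0 1
      rw [GW_conj, Matrix.mul_zero, Matrix.zero_mul, Matrix.mul_one, hg]
    · show GW h g * Wm (P * io) M P * GW h' g' = _
      rw [GW_conj, e1]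
      rfl
    · show GW h g * Wm (Q * io) M' Q * GW h' g' = _
      rw [GW_conj, e1]
      rfl
  rwa [e] at h1

/-! ### normal forms for `w = 4` -/

/-- bidiagonal matrix: `P_ii = a_i`, `P_(i,i+1) = 1` -/
def bid (a : Fin 4 → k) : Matrix (Fin 4) (Fin 4) k :=
  !![a 0, 1, 0, 0; 0, a 1, 1, 0; 0, 0, a 2, 1; 0, 0, 0, a 3]

/-- polynomial of degree at most three in a matrix -/
def pol (f : Fin 4 → k) (P : Matrix (Fin 4) (Fin 4) k) : Matrix (Fin 4) (Fin 4) k :=
  f 0 • 1 + f 1 • P + f 2 • (P * P) + f 3 • (P * P * P)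

/-- the inclusion `k^3 -> k^4` which omits the coordinate `s` -/
def inc (k : Type*) [Field k] (s : Fin 4) : Matrix (Fin 4) (Fin 3) k :=
  Matrix.of fun i j => if i = s.succAbove j then 1 else 0

/-- a solution of `P X - X P = z e_s^*`, `P = bid a`, `z` supported in the indices `< s` -/
def Qz (s : Fin 4) (a z : Fin 4 → k) : Matrix (Fin 4) (Fin 4) k :=
  match s with
  | 0 => 0
  | 1 => !![0, 0, 0, 0; 0, z 0, 0, 0; 0, 0, z 0, 0; 0, 0, 0, z 0]
  | 2 => !![0, 0, 0, 0; 0, 0, z 0, 0; 0, 0, z 0 * (a 2 - a 1) + z 1, z 0;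
      0, 0, 0, z 0 * (a 3 - a 1) + z 1]
  | 3 => !![0, 0, 0, 0; 0, 0, 0, z 0; 0, 0, 0, z 0 * (a 3 - a 1) + z 1;
      0, 0, 0, z 0 * (a 3 - a 1) * (a 3 - a 2) + z 1 * (a 3 - a 2) + z 2]

theorem Qz_comm (s : Fin 4) (a z : Fin 4 → k) (hz : ∀ i, s ≤ i → z i = 0) :
    bid a * Qz s a z - Qz s a z * bid a = vecMulVec z (Pi.single s 1) := by
  have h3 : z 3 = 0 := hz 3 (Fin.le_last s)
  fin_cases s
  · have h0 : z 0 = 0 := hz 0 (by decide)
    have h1 : z 1 = 0 := hz 1 (by decide)
    have h2 : z 2 = 0 := hz 2 (by decide)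
    ext i j
    fin_cases i <;> fin_cases j <;> simp [Qz, vecMulVec_apply, h0, h1, h2, h3]
  · have h1 : z 1 = 0 := hz 1 (by decide)
    have h2 : z 2 = 0 := hz 2 (by decide)
    ext i j
    fin_cases i <;> fin_cases j <;>
      simp [Qz, bid, Matrix.mul_apply, Fin.sum_univ_four, vecMulVec_apply, h1, h2, h3] <;> ring
  · have h2 : z 2 = 0 := hz 2 (by decide)
    ext i j
    fin_cases i <;> fin_cases j <;>
      simp [Qz, bid, Matrix.mul_apply, Fin.sum_univ_four, vecMulVec_apply, h2, h3] <;> ring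
  · ext i j
    fin_cases i <;> fin_cases j <;>
      simp [Qz, bid, Matrix.mul_apply, Fin.sum_univ_four, vecMulVec_apply, h3] <;> ring

end Pool.Agent.Lib.D13
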