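import Pool.Agent.Lib.D13.FdcM
import Pool.Agent.Lib.D13.C344b
import Pool.Agent.Lib.D13.TW

/-!
# MP_5dcbc3_ag: the family of the type 3332

The triples `TW (inc k 0) (bid a) (pol f (bid a)) M M'` are limits of curvilinear triples: straight
line to the monomial base point `k[t] / t ^ 11`, `(t ^ 4, t ^ 3, t)`.
-/

namespace Pool.Agent.Lib.D13

open Matrix Pool.Agent.Lib.Q5dc Pool.Agent.Lib.D7 Pool.Agent.Lib.D9.DensX

namespace Cl3332Aux

/-- the basis of the base point -/
def ex : IW 3 4 ≃ Fin (10 + 1) where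
  toFun := Sum.elim ![0, 1, 2] (Sum.elim ![3, 4, 5, 6] ![7, 8, 9, 10])
  invFun := ![.inl 0, .inl 1, .inl 2, .inr (.inl 0), .inr (.inl 1), .inr (.inl 2), .inr (.inl 3),
    .inr (.inr 0), .inr (.inr 1), .inr (.inr 2), .inr (.inr 3)]
  left_inv := by
    intro x
    rcases x with x | (x | x) <;> fin_cases x <;> rfl
  right_inv := by
    intro x
    fin_cases x <;> rfl

theorem ex_lev (x : IW 3 4) : C344b.w (ex x) = levW x := by
  rcases x with x | (x | x) <;> fin_cases x <;> rfl

variable {k : Type*} [Field k]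

theorem isPoly_mul2 {m n l : Type*} [Fintype n] {X : k → Matrix m n k} {Y : k → Matrix n l k}
    (hX : ∀ i j, IsPoly fun s => X s i j) (hY : ∀ i j, IsPoly fun s => Y s i j) :
    ∀ i j, IsPoly fun s => (X s * Y s) i j := by
  intro i j
  have h : IsPoly fun s => ∑ a, X s i a * Y s a j :=
    isPoly_sum _ fun a _ => (hX i a).mul (hY a j)
  exact h

theorem isPoly_bid (a : Fin 4 → k) : ∀ i j, IsPoly fun s => bid (s • a) i j := by
  intro i j
  have h : ∀ i, IsPoly fun s => (s • a) i := fun i => D7.IsPoly.id.mul (D7.IsPoly.const _)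
  fin_cases i <;> fin_cases j <;>
    first
    | exact h _
    | exact D7.IsPoly.const _

theorem isPoly_pol {f : k → Fin 4 → k} {P : k → Matrix (Fin 4) (Fin 4) k}
    (hf : ∀ i, IsPoly fun s => f s i) (hP : ∀ i j, IsPoly fun s => P s i j) :
    ∀ i j, IsPoly fun s => pol (f s) (P s) i j := by
  intro i j
  have h2 := isPoly_mul2 hP hP
  have h3 := isPoly_mul2 h2 hP
  exact ((((hf 0).mul (D7.IsPoly.const _)).add ((hf 1).mul (hP i j))).add
    ((hf 2).mul (h2 i j))).add ((hf 3).mul (h3 i j))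

theorem pol_comm (f : Fin 4 → k) (P : Matrix (Fin 4) (Fin 4) k) : P * pol f P = pol f P * P := by
  unfold pol
  simp only [Matrix.mul_add, Matrix.add_mul, Matrix.mul_smul, Matrix.smul_mul, Matrix.mul_one,
    Matrix.one_mul, Matrix.mul_assoc]

theorem pol0 : pol ![0, 0, 0, 1] (bid (0 : Fin 4 → k)) =
    !![0, 0, 0, 1; 0, 0, 0, 0; 0, 0, 0, 0; 0, 0, 0, 0] := by
  ext i j
  fin_cases i <;> fin_cases j <;> simp [pol, bid, Matrix.mul_apply, Fin.sum_univ_four]

theorem base (i : Fin 3) (x y : IW 3 4) (h : C344b.w (ex x) = C344b.w (ex y) + 1) :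
    TW (inc k 0) (bid 0) (pol ![0, 0, 0, 1] (bid (0 : Fin 4 → k))) 0 0 i x y =
      if (ex x : ℕ) = (ex y : ℕ) + C344b.av (Equiv.swap (0 : Fin 3) 2 i) then 1 else 0 := by
  rw [ex_lev, ex_lev] at h
  have hs0 : Equiv.swap (0 : Fin 3) 2 0 = 2 := by decide
  have hs1 : Equiv.swap (0 : Fin 3) 2 1 = 1 := by decide
  have hs2 : Equiv.swap (0 : Fin 3) 2 2 = 0 := by decide
  rw [pol0]
  rcases x with x | (x | x) <;> rcases y with y | (y | y) <;>
    first
    | (exfalso; revert h; simp [levW]; done)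
    | skip
  · fin_cases i
    · simp only [Fin.zero_eta, hs0]
      fin_cases x <;> fin_cases y <;>
        simp [TW, Wm, ex, C344b.av, inc, Fin.succAbove]
    · simp only [Fin.mk_one, hs1]
      fin_cases x <;> fin_cases y <;>
        simp [TW, Wm, ex, C344b.av, inc, bid, Matrix.mul_apply, Fin.sum_univ_four, Fin.succAbove]
    · simp only [Fin.reduceFinMk, hs2]
      fin_cases x <;> fin_cases y <;>
        simp [TW, Wm, ex, C344b.av, inc, bid, Matrix.mul_apply, Fin.sum_univ_four, Fin.succAbove]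
  · fin_cases i
    · simp only [Fin.zero_eta, hs0]
      fin_cases x <;> fin_cases y <;>
        simp [TW, Wm, ex, C344b.av, Matrix.one_apply]
    · simp only [Fin.mk_one, hs1]
      fin_cases x <;> fin_cases y <;> simp [TW, Wm, ex, C344b.av, bid]
    · simp only [Fin.reduceFinMk, hs2]
      fin_cases x <;> fin_cases y <;> simp [TW, Wm, ex, C344b.av, bid]

end Cl3332Aux

open Cl3332Aux in
/-- density for the type 3332 -/
theorem cl_3332_0 {k : Type*} [Field k] [CharZero k] (a f : Fin 4 → k)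
    (M M' : Matrix (Fin 4) (Fin 3) k) : Cl (TW (inc k 0) (bid a) (pol f (bid a)) M M') := by
  have hid : ∀ c : k, IsPoly fun s : k => s * c := fun c => D7.IsPoly.id.mul (D7.IsPoly.const c)
  have key := fdc_mono' ex (Equiv.swap (0 : Fin 3) 2) C344b.w C344b.av (by decide) (by decide)
    (fun κ hκ => ?_)
    (fun s => TW (inc k 0) (bid (s • a)) (pol (s • f + (1 - s) • ![0, 0, 0, 1]) (bid (s • a)))
      (s • M) (s • M')) ?_ ?_ ?_ ?_ 1
  · simpa using key
  · rcases Nat.lt_or_ge κ 3 with h | h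
    · interval_cases κ
      · exact C344b.cert1
      · exact C344b.cert2
    · refine cert_top fun x => lt_of_lt_of_le ?_ h
      revert x
      decide
  · refine polyFam_TW _ (isPoly_bid a) (isPoly_pol ?_ (isPoly_bid a)) (fun i j => hid _)
      (fun i j => hid _)
    intro i
    have h1 : IsPoly fun s : k => (1 - s) * (![0, 0, 0, 1] : Fin 4 → k) i := by
      refine ⟨(1 - Polynomial.X) * Polynomial.C ((![0, 0, 0, 1] : Fin 4 → k) i), fun s => ?_⟩
      simp
    exact (hid (f i)).add h1
  · intro s i j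
    refine TW_comm ?_ i j
    rw [pol_comm]
  · intro s i x y hxy
    rw [ex_lev, ex_lev] at hxy
    fin_cases i <;> exact Wm_low hxy
  · intro i x y hxy
    have h1 := base (k := k) i x y hxy
    simpa using h1

end Pool.Agent.Lib.D13
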