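import Pool.Agent.Lib.D13.GenCnt

/-!
# MP_5dcbc3_ag: counting parameters by a certificate

`β i j t` is the coefficient of `e_j -> x ^ t e_i` of the matrix `B` (block `j` to block `i`). The
certificate is a case tree (a coordinate is zero or not) whose leaves name enough coordinates which
are algebraic over the others. Monomials are coded by natural numbers, one prime for each variable.
-/

namespace Pool.Agent.Lib.D13.Cnt

variable {k K : Type*} [Field k] [Field K] [Algebra k K]

/-! ### polynomials -/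

/-- polynomials: lists of codes of monomials with coefficients -/
abbrev Pol := List (ℕ × ℤ)

/-- value of a monomial -/
noncomputable def mv (v : ℕ → K) (m : ℕ) : K := m.factorization.prod fun p e => v p ^ e

/-- value of a polynomial -/
noncomputable def ev (v : ℕ → K) (p : Pol) : K := (p.map fun t => (t.2 : K) * mv v t.1).sum

variable {v : ℕ → K}

theorem mv_one : mv v 1 = 1 := by simp [mv]

theorem mv_mul {m n : ℕ} (hm : m ≠ 0) (hn : n ≠ 0) : mv v (m * n) = mv v m * mv v n := by
  rw [mv, Nat.factorization_mul hm hn, Finsupp.prod_add_index']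
  · rfl
  · intro p
    rw [pow_zero]
  · intro p a b
    rw [pow_add]

theorem mv_prime {p : ℕ} (hp : p.Prime) : mv v p = v p := by
  rw [mv, hp.factorization, Finsupp.prod_single_index (h := fun q e => v q ^ e) (pow_zero _),
    pow_one]

theorem mv_pow {m : ℕ} (hm : m ≠ 0) (e : ℕ) : mv v (m ^ e) = mv v m ^ e := by
  induction e with
  | zero => rw [pow_zero, pow_zero, mv_one]
  | succ e ih => rw [pow_succ, pow_succ, mv_mul (pow_ne_zero _ hm) hm, ih]

theorem mv_ne_of_dvd {m z e : ℕ} (hz : z ≠ 0) (hd : m ∣ z ^ e) (h : mv v z ≠ 0) : mv v m ≠ 0 := by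
  obtain ⟨c, hc⟩ := hd
  have h1 : z ^ e ≠ 0 := pow_ne_zero _ hz
  have hm : m ≠ 0 := fun h0 => h1 (by rw [hc, h0, zero_mul])
  have hc0 : c ≠ 0 := fun h0 => h1 (by rw [hc, h0, mul_zero])
  intro h2
  have h3 : mv v (z ^ e) = 0 := by rw [hc, mv_mul hm hc0, h2, zero_mul]
  rw [mv_pow hz] at h3
  exact pow_ne_zero e h h3

theorem mv_mem {L : IntermediateField k K} {m : ℕ} (h : ∀ p, p.Prime → p ∣ m → v p ∈ L) :
    mv v m ∈ L := by
  rw [mv, Finsupp.prod]
  refine prod_mem fun p hp => ?_
  rw [Nat.support_factorization] at hp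
  exact pow_mem (h p (Nat.prime_of_mem_primeFactors hp) (Nat.dvd_of_mem_primeFactors hp)) _

theorem ev_nil : ev v [] = 0 := rfl

theorem ev_cons (t : ℕ × ℤ) (p : Pol) : ev v (t :: p) = (t.2 : K) * mv v t.1 + ev v p := by
  rw [ev, List.map_cons, List.sum_cons]
  rfl

theorem ev_append (p q : Pol) : ev v (p ++ q) = ev v p + ev v q := by
  rw [ev, List.map_append, List.sum_append]
  rfl

/-- all codes are positive -/
def wf : Pol → Bool
  | [] => true
  | t :: p => Nat.blt 0 t.1 && wf p

/-- multiple by a term -/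
def sm (m : ℕ) (c : ℤ) : Pol → Pol
  | [] => []
  | t :: p => (m * t.1, c * t.2) :: sm m c p

theorem ev_sm {m : ℕ} (hm : m ≠ 0) (c : ℤ) {p : Pol} (hp : wf p = true) :
    ev v (sm m c p) = (c : K) * mv v m * ev v p := by
  induction p with
  | nil => simp [sm, ev_nil]
  | cons t p ih =>
    rw [wf, Bool.and_eq_true] at hp
    have h1 : t.1 ≠ 0 := by
      have := hp.1
      rw [Nat.blt_eq] at this
      omega
    rw [sm, ev_cons, ev_cons, ih hp.2]
    simp only
    rw [mv_mul hm h1]
    push_cast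
    ring

theorem wf_sm {m : ℕ} (hm : m ≠ 0) (c : ℤ) {p : Pol} (hp : wf p = true) :
    wf (sm m c p) = true := by
  induction p with
  | nil => rfl
  | cons t p ih =>
    rw [wf, Bool.and_eq_true, Nat.blt_eq] at hp
    rw [sm, wf, Bool.and_eq_true, Nat.blt_eq]
    exact ⟨Nat.mul_pos (Nat.pos_of_ne_zero hm) hp.1, ih hp.2⟩

/-- sum of two sorted polynomials -/
def mrg : ℕ → Pol → Pol → Pol
  | 0, p, q => p ++ q
  | _ + 1, [], q => q
  | _ + 1, t :: p, [] => t :: p
  | n + 1, t :: p, u :: q =>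
    bif Nat.beq t.1 u.1 then
      (bif Nat.beq (t.2 + u.2).natAbs 0 then mrg n p q else (t.1, t.2 + u.2) :: mrg n p q)
    else bif Nat.blt t.1 u.1 then t :: mrg n p (u :: q) else u :: mrg n (t :: p) q

theorem ev_mrg (n : ℕ) : ∀ p q : Pol, ev v (mrg n p q) = ev v p + ev v q := by
  induction n with
  | zero => intro p q; rw [mrg, ev_append]
  | succ n ih =>
    intro p q
    rcases p with _ | ⟨t, p⟩
    · rw [mrg, ev_nil, zero_add]
    rcases q with _ | ⟨u, q⟩
    · rw [mrg, ev_nil, add_zero]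
    rw [mrg]
    cases h1 : Nat.beq t.1 u.1 with
    | true =>
      have e1 := Nat.eq_of_beq_eq_true h1
      rw [cond_true]
      cases h2 : Nat.beq (t.2 + u.2).natAbs 0 with
      | true =>
        have e2 : t.2 + u.2 = 0 := Int.natAbs_eq_zero.1 (Nat.eq_of_beq_eq_true h2)
        have e3 : (t.2 : K) + u.2 = 0 := by
          rw [← Int.cast_add, e2, Int.cast_zero]
        rw [cond_true, ih, ev_cons, ev_cons, e1]
        linear_combination (- mv v u.1) * e3
      | false =>
        rw [cond_false, ev_cons, ih, ev_cons, ev_cons, e1]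
        push_cast
        ring
    | false =>
      rw [cond_false]
      cases Nat.blt t.1 u.1 with
      | true => rw [cond_true, ev_cons, ih, ev_cons t p]; ring
      | false => rw [cond_false, ev_cons, ih, ev_cons u q]; ring

/-! ### derived relations -/

/-- entry number `i` -/
def nth : List Pol → ℕ → Pol
  | [], _ => []
  | p :: _, 0 => p
  | _ :: E, i + 1 => nth E i

theorem nth_zero {E : List Pol} (h : ∀ p ∈ E, ev v p = 0) (i : ℕ) : ev v (nth E i) = 0 := by
  induction E generalizing i with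
  | nil => simp [nth, ev_nil]
  | cons p E ih =>
    cases i with
    | zero => exact h p (by simp)
    | succ i => exact ih (fun q hq => h q (by simp [hq])) i

theorem nth_wf {E : List Pol} (h : ∀ p ∈ E, wf p = true) (i : ℕ) : wf (nth E i) = true := by
  induction E generalizing i with
  | nil => simp [nth, wf]
  | cons p E ih =>
    cases i with
    | zero => exact h p (by simp)
    | succ i => exact ih (fun q hq => h q (by simp [hq])) i

/-- combination of known relations: index, code, coefficient -/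
def comb (E : List Pol) : List (ℕ × ℕ × ℤ) → Pol
  | [] => []
  | s :: r => mrg 1000 (sm s.2.1 s.2.2 (nth E s.1)) (comb E r)

/-- the codes in a combination are positive -/
def okS : List (ℕ × ℕ × ℤ) → Bool
  | [] => true
  | s :: r => Nat.blt 0 s.2.1 && okS r

theorem comb_zero {E : List Pol} (h : ∀ p ∈ E, ev v p = 0) (hw : ∀ p ∈ E, wf p = true)
    {s : List (ℕ × ℕ × ℤ)} (hs : okS s = true) : ev v (comb E s) = 0 := by
  induction s with
  | nil => rw [comb, ev_nil]
  | cons t s ih =>
    rw [okS, Bool.and_eq_true, Nat.blt_eq] at hs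
    rw [comb, ev_mrg, ev_sm (by omega) _ (nth_wf hw _), nth_zero h, mul_zero, ih hs.2, zero_add]

/-- `m` is a product of the variables in `z` -/
def isU (z m : ℕ) : Bool := Nat.blt 0 m && Nat.beq (z ^ 8 % m) 0

theorem isU_dvd {z m : ℕ} (h : isU z m = true) : m ≠ 0 ∧ m ∣ z ^ 8 := by
  rw [isU, Bool.and_eq_true, Nat.blt_eq] at h
  exact ⟨by omega, Nat.dvd_of_mod_eq_zero (Nat.eq_of_beq_eq_true h.2)⟩

/-- the polynomial has no terms -/
def isNil : Pol → Bool
  | [] => true
  | _ :: _ => false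

/-- `u p` is the given combination, `u` a unit -/
def okD (E : List Pol) (z : ℕ) (p : Pol) (um : ℕ) (uc : ℤ) (s : List (ℕ × ℕ × ℤ)) : Bool :=
  isU z um && !(Nat.beq uc.natAbs 0) && wf p && okS s &&
    isNil (mrg 1000 (sm um (-uc) p) (comb E s))

theorem okD_sound [CharZero K] {E : List Pol} {z : ℕ} {p : Pol} {um : ℕ} {uc : ℤ}
    {s : List (ℕ × ℕ × ℤ)} (h : ∀ p ∈ E, ev v p = 0) (hw : ∀ p ∈ E, wf p = true) (hz : z ≠ 0)
    (hz' : mv v z ≠ 0) (hd : okD E z p um uc s = true) : ev v p = 0 ∧ wf p = true := by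
  rw [okD, Bool.and_eq_true, Bool.and_eq_true, Bool.and_eq_true, Bool.and_eq_true] at hd
  obtain ⟨⟨⟨⟨h1, h2⟩, h3⟩, h4⟩, h5⟩ := hd
  refine ⟨?_, h3⟩
  obtain ⟨hm, hdv⟩ := isU_dvd h1
  have h6 : ev v (mrg 1000 (sm um (-uc) p) (comb E s)) = 0 := by
    cases h7 : mrg 1000 (sm um (-uc) p) (comb E s) with
    | nil => rfl
    | cons a b => rw [h7, isNil] at h5; exact absurd h5 (by simp)
  rw [ev_mrg, comb_zero h hw h4, add_zero, ev_sm hm _ h3, mul_eq_zero] at h6
  refine h6.resolve_left (mul_ne_zero ?_ (mv_ne_of_dvd hz hdv hz'))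
  have h8 : uc ≠ 0 := by
    rintro rfl
    simp at h2
  push_cast
  exact neg_ne_zero.2 (Int.cast_ne_zero.2 h8)

/-! ### leaves -/

/-- the terms of `p` without `x` contain only known variables -/
def okR (kn x : ℕ) : Pol → Bool
  | [] => true
  | t :: p => bif Nat.beq (t.1 % x) 0 then okR kn x p else isU kn t.1 && okR kn x p

/-- the terms of `p` with `x`, divided by `x` -/
def cfx (x : ℕ) : Pol → Pol
  | [] => []
  | t :: p => bif Nat.beq (t.1 % x) 0 then (t.1 / x, t.2) :: cfx x p else cfx x p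

/-- the polynomial is one term, a unit with known variables -/
def okQ (kn z : ℕ) : Pol → Bool
  | [t] => isU kn t.1 && isU z t.1 && !(Nat.beq t.2.natAbs 0)
  | _ => false

/-- the variables which become known by the pivots -/
def okP (vs ws : List ℕ) (E : List Pol) (z : ℕ) : List (ℕ × ℕ) → ℕ → Bool
  | [], kn => vs.all fun x => Nat.beq (kn % x) 0
  | s :: r, kn => ws.elem s.1 && okQ kn z (cfx s.1 (nth E s.2)) && okR kn s.1 (nth E s.2) &&
      okP vs ws E z r (kn * s.1)

/-- product of a list -/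
def prd : List ℕ → ℕ
  | [] => 1
  | x :: r => x * prd r

/-- trial division -/
def isP (p : ℕ) : Bool :=
  Nat.blt 1 p && (List.range p).all fun d => Nat.blt d 2 || !(Nat.beq (p % d) 0)

theorem isP_sound {p : ℕ} (h : isP p = true) : p.Prime := by
  rw [isP, Bool.and_eq_true, Nat.blt_eq, List.all_eq_true] at h
  obtain ⟨h1, h2⟩ := h
  rw [Nat.prime_def_lt]
  refine ⟨h1, fun m hm hd => ?_⟩
  have h3 := h2 m (List.mem_range.2 hm)
  rw [Bool.or_eq_true, Nat.blt_eq] at h3
  rcases h3 with h3 | h3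
  · have h4 : m ≠ 0 := by
      rintro rfl
      have := Nat.eq_zero_of_zero_dvd hd
      omega
    omega
  · exfalso
    have h4 : p % m = 0 := Nat.mod_eq_zero_of_dvd hd
    rw [h4] at h3
    simp at h3

/-- the variable `y` does not occur -/
def nodiv (y : ℕ) : Pol → Bool
  | [] => true
  | t :: p => !(Nat.beq (t.1 % y) 0) && nodiv y p

/-- case trees: free variables and pivots; contradiction; a variable is zero or not; a derived
relation; a new variable for the value of a polynomial -/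
inductive Tr
  | leaf (fr : List ℕ) (pv : List (ℕ × ℕ))
  | con (i : ℕ)
  | spl (x : ℕ) (t0 t1 : Tr)
  | der (p : Pol) (um : ℕ) (uc : ℤ) (s : List (ℕ × ℕ × ℤ)) (t : Tr)
  | new (y : ℕ) (q : Pol) (t : Tr)

/-- the polynomial is one term, a unit -/
def isC (z : ℕ) : Pol → Bool
  | [t] => isU z t.1 && !(Nat.beq t.2.natAbs 0)
  | _ => false

/-- the check of a tree -/
def chk (vs : List ℕ) (n : ℕ) : Tr → List ℕ → List Pol → ℕ → Bool
  | .leaf fr pv, ws, E, z => Nat.ble fr.length n && (fr.all fun x => ws.elem x) &&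
      okP vs ws E z pv (prd fr)
  | .con i, _, E, z => isC z (nth E i)
  | .spl x t0 t1, ws, E, z => ws.elem x && chk vs n t0 ws ([(x, 1)] :: E) z &&
      chk vs n t1 ws E (z * x)
  | .der p um uc s t, ws, E, z => okD E z p um uc s && chk vs n t ws (p :: E) z
  | .new y q t, ws, E, z => isP y && !(ws.elem y) && wf q && nodiv y q && (E.all (nodiv y)) &&
      !(Nat.beq (z % y) 0) && chk vs n t (y :: ws) (mrg 1000 [(y, -1)] q :: E) z

theorem dvd_pow_mem {L : IntermediateField k K} {kn m : ℕ}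
    (hkn : ∀ p, p.Prime → p ∣ kn → v p ∈ L) (h : m ∣ kn ^ 8) : mv v m ∈ L :=
  mv_mem fun p hp hd => hkn p hp (hp.dvd_of_dvd_pow (hd.trans h))

theorem okR_sound {L : IntermediateField k K} {kn x : ℕ}
    (hkn : ∀ p, p.Prime → p ∣ kn → v p ∈ L) (hx : x.Prime) {p : Pol} (hw : wf p = true)
    (h : okR kn x p = true) : ∃ r ∈ L, ev v p = v x * ev v (cfx x p) + r := by
  induction p with
  | nil => exact ⟨0, zero_mem _, by simp [cfx, ev_nil]⟩
  | cons t p ih =>
    rw [wf, Bool.and_eq_true, Nat.blt_eq] at hw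
    rw [okR] at h
    rw [cfx]
    cases h1 : Nat.beq (t.1 % x) 0 with
    | true =>
      rw [h1, cond_true] at h
      obtain ⟨r, hr, hr'⟩ := ih hw.2 h
      refine ⟨r, hr, ?_⟩
      have h2 : x ∣ t.1 := Nat.dvd_of_mod_eq_zero (Nat.eq_of_beq_eq_true h1)
      obtain ⟨m, hm⟩ := h2
      have hx0 : x ≠ 0 := hx.ne_zero
      have hm0 : m ≠ 0 := by
        rintro rfl
        rw [mul_zero] at hm
        omega
      have h3 : t.1 / x = m := by rw [hm, Nat.mul_div_cancel_left _ hx.pos]
      rw [cond_true, ev_cons, ev_cons, hr', h3, hm, mv_mul hx0 hm0, mv_prime hx]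
      ring
    | false =>
      rw [h1, cond_false, Bool.and_eq_true] at h
      obtain ⟨r, hr, hr'⟩ := ih hw.2 h.2
      refine ⟨(t.2 : K) * mv v t.1 + r, ?_, ?_⟩
      · exact add_mem (mul_mem (by
          have := algebraMap_mem L ((t.2 : ℤ) : k)
          simpa using this) (dvd_pow_mem hkn (isU_dvd h.1).2)) hr
      · rw [cond_false, ev_cons, hr']
        ring

theorem okQ_sound [CharZero K] {L : IntermediateField k K} {kn z : ℕ}
    (hkn : ∀ p, p.Prime → p ∣ kn → v p ∈ L) (hz : z ≠ 0) (hz' : mv v z ≠ 0) {p : Pol}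
    (h : okQ kn z p = true) : ev v p ∈ L ∧ ev v p ≠ 0 := by
  rcases p with _ | ⟨t, _ | ⟨u, p⟩⟩
  · simp [okQ] at h
  · rw [okQ, Bool.and_eq_true, Bool.and_eq_true] at h
    obtain ⟨⟨h1, h2⟩, h3⟩ := h
    have h4 : t.2 ≠ 0 := by
      intro h0
      rw [h0] at h3
      simp at h3
    rw [ev_cons, ev_nil, add_zero]
    refine ⟨mul_mem ?_ (dvd_pow_mem hkn (isU_dvd h1).2),
      mul_ne_zero (Int.cast_ne_zero.2 h4) (mv_ne_of_dvd hz (isU_dvd h2).2 hz')⟩
    have := algebraMap_mem L ((t.2 : ℤ) : k)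
    simpa using this
  · simp [okQ] at h

theorem okP_sound [CharZero K] {L : IntermediateField k K} {vs ws : List ℕ} {E : List Pol}
    {z : ℕ} (hvs : ∀ x ∈ vs, x ∈ ws) (hws : ∀ x ∈ ws, x.Prime) (hE : ∀ p ∈ E, ev v p = 0) (hw : ∀ p ∈ E, wf p = true)
    (hz : z ≠ 0) (hz' : mv v z ≠ 0) (pv : List (ℕ × ℕ)) :
    ∀ kn : ℕ, (∀ p, p.Prime → p ∣ kn → v p ∈ L) → okP vs ws E z pv kn = true →
      ∀ x ∈ vs, v x ∈ L := by
  induction pv with
  | nil =>
    intro kn hkn h x hx
    rw [okP, List.all_eq_true] at h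
    exact hkn x (hws x (hvs x hx)) (Nat.dvd_of_mod_eq_zero (Nat.eq_of_beq_eq_true (h x hx)))
  | cons s r ih =>
    intro kn hkn h
    rw [okP, Bool.and_eq_true, Bool.and_eq_true, Bool.and_eq_true] at h
    obtain ⟨⟨⟨h1, h2⟩, h3⟩, h4⟩ := h
    have hs : s.1 ∈ ws := List.elem_iff.1 h1
    have hp := hws _ hs
    refine ih (kn * s.1) (fun p hp' hd => ?_) h4
    rcases (hp'.dvd_mul).1 hd with h5 | h5
    · exact hkn p hp' h5
    · rw [(Nat.prime_dvd_prime_iff_eq hp' hp).1 h5]
      obtain ⟨c, hc, hc'⟩ := okR_sound hkn hp (nth_wf hw s.2) h3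
      obtain ⟨h6, h7⟩ := okQ_sound hkn hz hz' h2
      rw [nth_zero hE] at hc'
      have h8 : v s.1 = - c / ev v (cfx s.1 (nth E s.2)) := by
        rw [eq_div_iff h7]
        linear_combination - hc'
      rw [h8]
      exact div_mem (neg_mem hc) h6

theorem prd_prime {p : ℕ} (hp : p.Prime) : ∀ l : List ℕ, p ∣ prd l → ∃ x ∈ l, p ∣ x := by
  intro l
  induction l with
  | nil =>
    intro h
    rw [prd] at h
    exact absurd (Nat.dvd_one.1 h) hp.ne_one
  | cons a l ih =>
    intro h
    rw [prd] at h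
    rcases (hp.dvd_mul).1 h with h1 | h1
    · exact ⟨a, by simp, h1⟩
    · obtain ⟨x, hx, hx'⟩ := ih h1
      exact ⟨x, by simp [hx], hx'⟩

theorem wf_mrg (n : ℕ) : ∀ p q : Pol, wf p = true → wf q = true → wf (mrg n p q) = true := by
  induction n with
  | zero =>
    intro p q hp hq
    rw [mrg]
    induction p with
    | nil => exact hq
    | cons t p ih =>
      rw [wf, Bool.and_eq_true] at hp
      rw [List.cons_append, wf, Bool.and_eq_true]
      exact ⟨hp.1, ih hp.2⟩
  | succ n ih =>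
    intro p q hp hq
    rcases p with _ | ⟨t, p⟩
    · rw [mrg]
      exact hq
    rcases q with _ | ⟨u, q⟩
    · rw [mrg]
      exact hp
    have hp' := hp
    have hq' := hq
    rw [wf, Bool.and_eq_true] at hp' hq'
    rw [mrg]
    cases Nat.beq t.1 u.1 with
    | true =>
      rw [cond_true]
      cases Nat.beq (t.2 + u.2).natAbs 0 with
      | true => rw [cond_true]; exact ih _ _ hp'.2 hq'.2
      | false =>
        rw [cond_false, wf, Bool.and_eq_true]
        exact ⟨hp'.1, ih _ _ hp'.2 hq'.2⟩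
    | false =>
      rw [cond_false]
      cases Nat.blt t.1 u.1 with
      | true =>
        rw [cond_true, wf, Bool.and_eq_true]
        exact ⟨hp'.1, ih _ _ hp'.2 hq⟩
      | false =>
        rw [cond_false, wf, Bool.and_eq_true]
        exact ⟨hq'.1, ih _ _ hp hq'.2⟩

theorem mv_update {y m : ℕ} (a : K) (h : m % y ≠ 0) :
    mv (Function.update v y a) m = mv v m := by
  rw [mv, mv, Finsupp.prod, Finsupp.prod]
  refine Finset.prod_congr rfl fun p hp => ?_
  rw [Nat.support_factorization] at hp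
  have h1 : p ≠ y := by
    rintro rfl
    exact h (Nat.mod_eq_zero_of_dvd (Nat.dvd_of_mem_primeFactors hp))
  rw [Function.update_of_ne h1]

theorem ev_update {y : ℕ} (a : K) {p : Pol} (h : nodiv y p = true) :
    ev (Function.update v y a) p = ev v p := by
  induction p with
  | nil => rfl
  | cons t p ih =>
    rw [nodiv, Bool.and_eq_true] at h
    have h1 : t.1 % y ≠ 0 := by
      intro h0
      have h2 := h.1
      rw [h0] at h2
      simp at h2
    rw [ev_cons, ev_cons, ih h.2, mv_update a h1]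

theorem chk_sound [CharZero K] {vs : List ℕ} {n : ℕ} (t : Tr) :
    ∀ (v : ℕ → K) (ws : List ℕ) (E : List Pol) (z : ℕ), (∀ x ∈ vs, x ∈ ws) →
      (∀ x ∈ ws, x.Prime) → (∀ p ∈ E, ev v p = 0) → (∀ p ∈ E, wf p = true) → z ≠ 0 →
      mv v z ≠ 0 → chk vs n t ws E z = true →
      ∃ F : Set K, F.encard ≤ n ∧ ∀ x ∈ vs, v x ∈ FF k F := by
  induction t with
  | leaf fr pv =>
    intro v ws E z hvs hws hE hw hz hz' h
    rw [chk, Bool.and_eq_true, Bool.and_eq_true] at h
    obtain ⟨⟨h1, h2⟩, h3⟩ := h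
    rw [List.all_eq_true] at h2
    refine ⟨v '' {x | x ∈ fr}, ?_, ?_⟩
    · refine (Set.encard_image_le _ _).trans ?_
      have h4 : {x | x ∈ fr} = ((fr.toFinset : Finset ℕ) : Set ℕ) := by
        ext x
        simp
      rw [h4, Set.encard_coe_eq_coe_finsetCard]
      exact_mod_cast (List.toFinset_card_le fr).trans (Nat.le_of_ble_eq_true h1)
    · refine okP_sound hvs hws hE hw hz hz' pv (prd fr) (fun p hp hd => ?_) h3
      obtain ⟨x, hx, hx'⟩ := prd_prime hp fr hd
      have h5 := hws x (List.elem_iff.1 (h2 x hx))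
      rw [(Nat.prime_dvd_prime_iff_eq hp h5).1 hx']
      exact mem_FF_self ⟨x, hx, rfl⟩
  | con i =>
    intro v ws E z hvs hws hE hw hz hz' h
    exfalso
    have h : isC z (nth E i) = true := h
    have h1 := nth_zero hE i
    rcases hn : nth E i with _ | ⟨t, _ | ⟨u, p⟩⟩
    · rw [hn] at h
      exact absurd h (by simp [isC])
    · rw [hn] at h h1
      have h : (isU z t.1 && !(Nat.beq t.2.natAbs 0)) = true := h
      rw [Bool.and_eq_true] at h
      have h4 : t.2 ≠ 0 := by
        intro h0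
        rw [h0] at h
        simp at h
      rw [ev_cons, ev_nil, add_zero] at h1
      exact mul_ne_zero (Int.cast_ne_zero.2 h4) (mv_ne_of_dvd hz (isU_dvd h.1).2 hz') h1
    · rw [hn] at h
      exact absurd h (by simp [isC])
  | spl x t0 t1 ih0 ih1 =>
    intro v ws E z hvs hws hE hw hz hz' h
    rw [chk, Bool.and_eq_true, Bool.and_eq_true] at h
    obtain ⟨⟨hx, h0⟩, h1⟩ := h
    have hp := hws x (List.elem_iff.1 hx)
    by_cases hv : mv v x = 0
    · refine ih0 v ws _ z hvs hws ?_ ?_ hz hz' h0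
      · intro p hp'
        rw [List.mem_cons] at hp'
        rcases hp' with rfl | hp'
        · rw [ev_cons, ev_nil, hv, mul_zero, add_zero]
        · exact hE p hp'
      · intro p hp'
        rw [List.mem_cons] at hp'
        rcases hp' with rfl | hp'
        · rw [wf, wf, Bool.and_true, Nat.blt_eq]
          exact hp.pos
        · exact hw p hp'
    · exact ih1 v ws E _ hvs hws hE hw (mul_ne_zero hz hp.ne_zero)
        (by rw [mv_mul hz hp.ne_zero]; exact mul_ne_zero hz' hv) h1
  | der p um uc s t ih =>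
    intro v ws E z hvs hws hE hw hz hz' h
    rw [chk, Bool.and_eq_true] at h
    obtain ⟨h1, h2⟩ := okD_sound hE hw hz hz' h.1
    refine ih v ws (p :: E) z hvs hws ?_ ?_ hz hz' h.2
    · intro q hq
      rw [List.mem_cons] at hq
      rcases hq with rfl | hq
      · exact h1
      · exact hE q hq
    · intro q hq
      rw [List.mem_cons] at hq
      rcases hq with rfl | hq
      · exact h2
      · exact hw q hq
  | new y q t ih =>
    intro v ws E z hvs hws hE hw hz hz' h
    rw [chk, Bool.and_eq_true, Bool.and_eq_true, Bool.and_eq_true, Bool.and_eq_true,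
      Bool.and_eq_true, Bool.and_eq_true] at h
    obtain ⟨⟨⟨⟨⟨⟨h1, h2⟩, h3⟩, h4⟩, h5⟩, h6⟩, h7⟩ := h
    have hy := isP_sound h1
    have hy' : y ∉ ws := by
      intro hc
      rw [List.elem_iff.2 hc] at h2
      simp at h2
    have hzy : z % y ≠ 0 := by
      intro h0
      rw [h0] at h6
      simp at h6
    rw [List.all_eq_true] at h5
    have hu : Function.update v y (ev v q) y = ev v q := Function.update_self _ _ _
    obtain ⟨F, hF, hF'⟩ := ih (Function.update v y (ev v q)) (y :: ws)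
      (mrg 1000 [(y, -1)] q :: E) z (fun x hx => List.mem_cons_of_mem _ (hvs x hx)) (by
        intro x hx
        rw [List.mem_cons] at hx
        rcases hx with rfl | hx
        · exact hy
        · exact hws x hx) (by
        intro p hp
        rw [List.mem_cons] at hp
        rcases hp with rfl | hp
        · rw [ev_mrg, ev_cons, ev_nil, mv_prime hy, hu, ev_update _ h4]
          push_cast
          ring
        · rw [ev_update _ (h5 p hp)]
          exact hE p hp) (by
        intro p hp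
        rw [List.mem_cons] at hp
        rcases hp with rfl | hp
        · refine wf_mrg _ _ _ ?_ h3
          rw [wf, wf, Bool.and_true, Nat.blt_eq]
          exact hy.pos
        · exact hw p hp) hz (by rw [mv_update _ hzy]; exact hz') h7
    refine ⟨F, hF, fun x hx => ?_⟩
    have h8 : x ≠ y := by
      rintro rfl
      exact hy' (hvs x hx)
    have h9 := hF' x hx
    rwa [Function.update_of_ne h8] at h9

/-! ### the variables -/

/-- the admissible coordinates: `e_j -> x ^ t e_i` exists, no constants between blocks of the same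
size, nothing in the first diagonal block -/
def vld (l : List ℕ) (i j t : ℕ) : Bool :=
  decide (i < l.length) && decide (j < l.length) && decide (t < l.getD i 0) &&
    decide (l.getD i 0 ≤ t + l.getD j 0) && !(decide (l.getD i 0 = l.getD j 0) && decide (t = 0)) &&
    !(decide (i = 0) && decide (j = 0))

/-- coordinates of two commuting matrices -/
structure Good (l : List ℕ) (β γ : ℕ → ℕ → ℕ → K) : Prop where
  zb : ∀ i j t, vld l i j t = false → β i j t = 0
  zc : ∀ i j t, vld l i j t = false → γ i j t = 0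
  rel : ∀ i j t, i < l.length → j < l.length → t < l.getD i 0 →
    ∑ a ∈ Finset.range l.length, ∑ r ∈ Finset.range (t + 1), β i a (t - r) * γ a j r =
    ∑ a ∈ Finset.range l.length, ∑ r ∈ Finset.range (t + 1), γ i a (t - r) * β a j r

/-- all coordinates -/
def ents (β γ : ℕ → ℕ → ℕ → K) : Set K := {x | ∃ i j t, x = β i j t ∨ x = γ i j t}

/-- code of a coordinate -/
def key (i j t : ℕ) : ℕ := (i * 32 + j) * 32 + t

/-- the coordinate with the given code -/
def cd (β : ℕ → ℕ → ℕ → K) (c : ℕ) : K := β (c / 1024) (c / 32 % 32) (c % 32)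

theorem cd_key {β : ℕ → ℕ → ℕ → K} {i j t : ℕ} (hj : j < 32) (ht : t < 32) :
    cd β (key i j t) = β i j t := by
  have h1 : key i j t / 1024 = i := by unfold key; omega
  have h2 : key i j t / 32 % 32 = j := by unfold key; omega
  have h3 : key i j t % 32 = t := by unfold key; omega
  rw [cd, h1, h2, h3]

/-- the values of the variables; the table contains code, variable of `B`, variable of `C` -/
noncomputable def vt (β γ : ℕ → ℕ → ℕ → K) : List (ℕ × ℕ × ℕ) → ℕ → K
  | [], _ => 0
  | e :: tab, p => if p = e.2.1 then cd β e.1 else if p = e.2.2 then cd γ e.1 else vt β γ tab p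

/-- the variables of the coordinate with the given code -/
def lk : List (ℕ × ℕ × ℕ) → ℕ → ℕ × ℕ
  | [], _ => (0, 0)
  | e :: tab, c => bif Nat.beq e.1 c then e.2 else lk tab c

/-- the variables increase -/
def srt : ℕ → List (ℕ × ℕ × ℕ) → Bool
  | _, [] => true
  | n, e :: tab => Nat.blt n e.2.1 && Nat.blt e.2.1 e.2.2 && srt e.2.2 tab

theorem lk_sound {β γ : ℕ → ℕ → ℕ → K} {c : ℕ} (tab : List (ℕ × ℕ × ℕ)) :
    ∀ n, srt n tab = true → (lk tab c).1 ≠ 0 →
      n < (lk tab c).1 ∧ (lk tab c).1 < (lk tab c).2 ∧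
      vt β γ tab (lk tab c).1 = cd β c ∧ vt β γ tab (lk tab c).2 = cd γ c ∧
      (lk tab c).1 ∈ tab.flatMap (fun e => [e.2.1, e.2.2]) ∧
      (lk tab c).2 ∈ tab.flatMap (fun e => [e.2.1, e.2.2]) := by
  induction tab with
  | nil => intro n _ h; exact absurd rfl h
  | cons e tab ih =>
    intro n hs h
    rw [srt, Bool.and_eq_true, Bool.and_eq_true, Nat.blt_eq, Nat.blt_eq] at hs
    obtain ⟨⟨h1, h2⟩, h3⟩ := hs
    rw [lk] at h ⊢
    cases h4 : Nat.beq e.1 c with
    | true =>
      have h5 := Nat.eq_of_beq_eq_true h4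
      rw [h4, cond_true] at h
      rw [cond_true]
      refine ⟨h1, h2, ?_, ?_, ?_, ?_⟩
      · rw [vt, if_pos rfl, h5]
      · rw [vt, if_neg (by omega), if_pos rfl, h5]
      · simp
      · simp
    | false =>
      rw [h4, cond_false] at h
      rw [cond_false]
      obtain ⟨g1, g2, g3, g4, g5, g6⟩ := ih _ h3 h
      refine ⟨by omega, g2, ?_, ?_, ?_, ?_⟩
      · rw [vt, if_neg (by omega), if_neg (by omega), g3]
      · rw [vt, if_neg (by omega), if_neg (by omega), g4]
      · rw [List.flatMap_cons]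
        exact List.mem_append_right _ g5
      · rw [List.flatMap_cons]
        exact List.mem_append_right _ g6

/-! ### the relations -/

/-- a product of two variables with sign -/
def tm (b : Bool) (x y : ℕ) (c : ℤ) : Pol := bif b then [(x * y, c)] else []

/-- relation number `(i, j, t)` -/
def relP (l : List ℕ) (tab : List (ℕ × ℕ × ℕ)) (i j t : ℕ) : Pol :=
  (List.range l.length).foldr (fun a P => (List.range (t + 1)).foldr (fun r Q =>
    mrg 1000 (tm (vld l i a (t - r) && vld l a j r) (lk tab (key i a (t - r))).1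
      (lk tab (key a j r)).2 1)
    (mrg 1000 (tm (vld l i a (t - r) && vld l a j r) (lk tab (key i a (t - r))).2
      (lk tab (key a j r)).1 (-1)) Q)) P) []

theorem ev_foldr {f : ℕ → Pol → Pol} {g : ℕ → K} {n : ℕ} {P : Pol}
    (h : ∀ a < n, ∀ Q, ev v (f a Q) = g a + ev v Q) :
    ev v ((List.range n).foldr f P) = ∑ a ∈ Finset.range n, g a + ev v P := by
  induction n generalizing P with
  | zero => simp
  | succ n ih =>
    rw [List.range_succ, List.foldr_append, ih (fun a ha => h a (by omega)), List.foldr_cons,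
      List.foldr_nil, h n (by omega), Finset.sum_range_succ]
    ring

/-- all valid coordinates are in the table -/
def cpl (l : List ℕ) (tab : List (ℕ × ℕ × ℕ)) : Bool :=
  (List.range l.length).all fun i => (List.range l.length).all fun j =>
    (List.range (l.getD i 0)).all fun t => !(vld l i j t) || Nat.blt 0 (lk tab (key i j t)).1

theorem cpl_sound {l : List ℕ} {tab : List (ℕ × ℕ × ℕ)} (h : cpl l tab = true) {i j t : ℕ}
    (hv : vld l i j t = true) : (lk tab (key i j t)).1 ≠ 0 := by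
  have hv' := hv
  unfold vld at hv'
  simp only [Bool.and_eq_true, decide_eq_true_eq] at hv'
  obtain ⟨⟨⟨⟨⟨h1, h2⟩, h3⟩, -⟩, -⟩, -⟩ := hv'
  unfold cpl at h
  simp only [List.all_eq_true, List.mem_range] at h
  have h4 := h i h1 j h2 t h3
  rw [hv, Bool.not_true, Bool.false_or, Nat.blt_eq] at h4
  omega

/-- the list of sizes is small enough for the codes -/
def sml (l : List ℕ) : Bool := Nat.blt l.length 32 && l.all fun a => Nat.blt a 32

theorem vld_lt {l : List ℕ} (hl : sml l = true) {i j t : ℕ} (hv : vld l i j t = true) :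
    j < 32 ∧ t < 32 := by
  unfold vld at hv
  simp only [Bool.and_eq_true, decide_eq_true_eq] at hv
  obtain ⟨⟨⟨⟨⟨h1, h2⟩, h3⟩, -⟩, -⟩, -⟩ := hv
  rw [sml, Bool.and_eq_true, Nat.blt_eq, List.all_eq_true] at hl
  obtain ⟨h4, h5⟩ := hl
  refine ⟨by omega, ?_⟩
  have h6 : l.getD i 0 ∈ l := by
    rw [List.getD_eq_getElem _ _ h1]
    exact List.getElem_mem h1
  have h7 := h5 _ h6
  rw [Nat.blt_eq] at h7
  omega

section

variable {l : List ℕ} {tab : List (ℕ × ℕ × ℕ)} {β γ : ℕ → ℕ → ℕ → K}

theorem lk_val (hl : sml l = true) (hs : srt 1 tab = true) (hc : cpl l tab = true) {i j t : ℕ}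
    (hv : vld l i j t = true) :
    (lk tab (key i j t)).1 ≠ 0 ∧ (lk tab (key i j t)).2 ≠ 0 ∧
    vt β γ tab (lk tab (key i j t)).1 = β i j t ∧ vt β γ tab (lk tab (key i j t)).2 = γ i j t ∧
    (lk tab (key i j t)).1 ∈ tab.flatMap (fun e => [e.2.1, e.2.2]) ∧
    (lk tab (key i j t)).2 ∈ tab.flatMap (fun e => [e.2.1, e.2.2]) := by
  obtain ⟨h1, h2, h3, h4, h5, h6⟩ := lk_sound (β := β) (γ := γ) tab 1 hs (cpl_sound hc hv)
  obtain ⟨h7, h8⟩ := vld_lt hl hv
  rw [cd_key h7 h8] at h3 h4
  exact ⟨by omega, by omega, h3, h4, h5, h6⟩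

theorem ev_tm (hg : Good l β γ) (hl : sml l = true) (hs : srt 1 tab = true)
    (hc : cpl l tab = true) (hp : ∀ x ∈ tab.flatMap (fun e => [e.2.1, e.2.2]), x.Prime)
    (i j t i' j' t' : ℕ) :
    ev (vt β γ tab) (tm (vld l i j t && vld l i' j' t') (lk tab (key i j t)).1
      (lk tab (key i' j' t')).2 1) = β i j t * γ i' j' t' ∧
    ev (vt β γ tab) (tm (vld l i j t && vld l i' j' t') (lk tab (key i j t)).2
      (lk tab (key i' j' t')).1 (-1)) = - (γ i j t * β i' j' t') := by
  cases h1 : vld l i j t with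
  | false => simp [tm, ev_nil, hg.zb _ _ _ h1, hg.zc _ _ _ h1]
  | true =>
    cases h2 : vld l i' j' t' with
    | false => simp [tm, ev_nil, hg.zb _ _ _ h2, hg.zc _ _ _ h2]
    | true =>
      obtain ⟨a1, a2, a3, a4, a5, a6⟩ := lk_val (β := β) (γ := γ) hl hs hc h1
      obtain ⟨b1, b2, b3, b4, b5, b6⟩ := lk_val (β := β) (γ := γ) hl hs hc h2
      rw [Bool.and_true, tm, tm, cond_true, cond_true, ev_cons, ev_cons, ev_nil, mv_mul a1 b2,
        mv_mul a2 b1, mv_prime (hp _ a5), mv_prime (hp _ a6), mv_prime (hp _ b5),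
        mv_prime (hp _ b6), a3, a4, b3, b4]
      constructor <;> push_cast <;> ring

theorem ev_relP (hg : Good l β γ) (hl : sml l = true) (hs : srt 1 tab = true)
    (hc : cpl l tab = true) (hp : ∀ x ∈ tab.flatMap (fun e => [e.2.1, e.2.2]), x.Prime)
    {i j t : ℕ} (hi : i < l.length) (hj : j < l.length) (ht : t < l.getD i 0) :
    ev (vt β γ tab) (relP l tab i j t) = 0 := by
  rw [relP, ev_foldr (g := fun a => ∑ r ∈ Finset.range (t + 1),
    (β i a (t - r) * γ a j r - γ i a (t - r) * β a j r)), ev_nil, add_zero]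
  · simp only [Finset.sum_sub_distrib]
    rw [hg.rel i j t hi hj ht, sub_self]
  · intro a _ Q
    rw [ev_foldr]
    intro r _ Q'
    obtain ⟨e1, e2⟩ := ev_tm hg hl hs hc hp i a (t - r) a j r
    rw [ev_mrg, ev_mrg, e1, e2]
    ring

end

/-! ### the certificate -/

/-- certificates: table, variables, relations with their numbers, cases, last case -/
structure Cert where
  tab : List (ℕ × ℕ × ℕ)
  vs : List ℕ
  R : List ((ℕ × ℕ × ℕ) × Pol)
  ch : List (ℕ × Tr)
  fin : Tr

/-- the relations are the right ones -/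
def okR1 (l : List ℕ) (tab : List (ℕ × ℕ × ℕ)) (s : (ℕ × ℕ × ℕ) × Pol) : Bool :=
  Nat.blt s.1.1 l.length && Nat.blt s.1.2.1 l.length && Nat.blt s.1.2.2 (l.getD s.1.1 0) &&
    wf s.2 && isNil (mrg 1000 (sm 1 (-1) s.2) (relP l tab s.1.1 s.1.2.1 s.1.2.2))

/-- the cases -/
def okCh (tab : List (ℕ × ℕ × ℕ)) (vs : List ℕ) (n : ℕ) (t : Tr) :
    List (ℕ × Tr) → List Pol → Bool
  | [], E => chk vs n t vs E 1
  | s :: r, E => Nat.blt 0 (lk tab s.1).1 &&
      chk vs (n - 1) s.2 vs ([((lk tab s.1).2, 1)] :: E) (lk tab s.1).1 &&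
      okCh tab vs n t r ([((lk tab s.1).1, 1)] :: [((lk tab s.1).2, 1)] :: E)

/-- the check of a certificate -/
def check (l : List ℕ) (n : ℕ) (c : Cert) : Bool :=
  sml l && Nat.blt 0 n && srt 1 c.tab && cpl l c.tab && (c.vs.all isP) &&
    (c.vs == c.tab.flatMap fun e => [e.2.1, e.2.2]) && (c.R.all (okR1 l c.tab)) &&
    okCh c.tab c.vs n c.fin c.ch (c.R.map Prod.snd)

theorem Good.swap {l : List ℕ} {β γ : ℕ → ℕ → ℕ → K} (h : Good l β γ) : Good l γ β :=
  ⟨h.zc, h.zb, fun i j t hi hj ht => (h.rel i j t hi hj ht).symm⟩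

theorem Good.sub {l : List ℕ} {β γ : ℕ → ℕ → ℕ → K} (h : Good l β γ) (s : K) :
    Good l β (fun i j t => γ i j t - s * β i j t) := by
  refine ⟨h.zb, fun i j t hv => ?_, fun i j t hi hj ht => ?_⟩
  · rw [h.zb _ _ _ hv, h.zc _ _ _ hv]
    ring
  · have h1 := h.rel i j t hi hj ht
    have e1 : ∀ a r, β i a (t - r) * (γ a j r - s * β a j r) =
        β i a (t - r) * γ a j r - s * (β i a (t - r) * β a j r) := fun a r => by ring
    have e2 : ∀ a r, (γ i a (t - r) - s * β i a (t - r)) * β a j r =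
        γ i a (t - r) * β a j r - s * (β i a (t - r) * β a j r) := fun a r => by ring
    simp only [e1, e2, Finset.sum_sub_distrib, h1]

theorem mem_FF_of_vs {l : List ℕ} {tab : List (ℕ × ℕ × ℕ)} {β γ : ℕ → ℕ → ℕ → K}
    (hg : Good l β γ) (hl : sml l = true) (hs : srt 1 tab = true) (hc : cpl l tab = true)
    {F : Set K} (hF : ∀ x ∈ tab.flatMap (fun e => [e.2.1, e.2.2]), vt β γ tab x ∈ FF k F)
    (i j t : ℕ) : β i j t ∈ FF k F ∧ γ i j t ∈ FF k F := by
  cases h1 : vld l i j t with
  | false =>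
    rw [hg.zb _ _ _ h1, hg.zc _ _ _ h1]
    exact ⟨zero_mem _, zero_mem _⟩
  | true =>
    obtain ⟨a1, a2, a3, a4, a5, a6⟩ := lk_val (β := β) (γ := γ) hl hs hc h1
    rw [← a3, ← a4]
    exact ⟨hF _ a5, hF _ a6⟩

theorem okCh_sound [CharZero K] {l : List ℕ} {tab : List (ℕ × ℕ × ℕ)} {vs : List ℕ} {n : ℕ}
    {t : Tr} (hl : sml l = true) (hn : 0 < n) (hs : srt 1 tab = true) (hc : cpl l tab = true)
    (hvs : vs = tab.flatMap fun e => [e.2.1, e.2.2]) (hp : ∀ x ∈ vs, x.Prime) (ch : List (ℕ × Tr)) :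
    ∀ (E : List Pol), (∀ p ∈ E, wf p = true) → okCh tab vs n t ch E = true →
      ∀ β γ : ℕ → ℕ → ℕ → K, Good l β γ →
      (∀ β' γ' : ℕ → ℕ → ℕ → K, Good l β' γ' → (∀ c, cd β c = 0 → cd γ c = 0 →
        cd β' c = 0 ∧ cd γ' c = 0) → ∀ p ∈ E, ev (vt β' γ' tab) p = 0) →
      ∃ F : Set K, F.encard ≤ n ∧ ∀ i j t, β i j t ∈ FF k F ∧ γ i j t ∈ FF k F := by
  subst hvs
  induction ch with
  | nil =>
    intro E hw h β γ hg hE
    rw [okCh] at h
    obtain ⟨F, hF, hF'⟩ := chk_sound (k := k) t (vt β γ tab) _ E 1 (fun x hx => hx) hp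
      (hE β γ hg fun c h1 h2 => ⟨h1, h2⟩) hw one_ne_zero (by rw [mv_one]; exact one_ne_zero) h
    exact ⟨F, hF, mem_FF_of_vs hg hl hs hc hF'⟩
  | cons s r ih =>
    intro E hw h β γ hg hE
    rw [okCh, Bool.and_eq_true, Bool.and_eq_true, Nat.blt_eq] at h
    obtain ⟨⟨h1, h2⟩, h3⟩ := h
    have hlk := fun β γ : ℕ → ℕ → ℕ → K =>
      lk_sound (β := β) (γ := γ) (c := s.1) tab 1 hs (by omega)
    have hw1 : ∀ x : ℕ, 0 < x → wf [(x, 1)] = true := by
      intro x hx
      rw [wf, wf, Bool.and_true, Nat.blt_eq]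
      exact hx
    have hpos := (hlk β γ).1
    have hpos2 := (hlk β γ).2.1
    have hpr1 := hp _ (hlk β γ).2.2.2.2.1
    have hpr2 := hp _ (hlk β γ).2.2.2.2.2
    -- the case of a nonzero coordinate of the first matrix
    have key : ∀ β' γ' : ℕ → ℕ → ℕ → K, Good l β' γ' → (∀ c, cd β c = 0 → cd γ c = 0 →
        cd β' c = 0 ∧ cd γ' c = 0) → cd β' s.1 ≠ 0 →
        ∃ F : Set K, F.encard ≤ n ∧ ∀ i j t, β' i j t ∈ FF k F ∧ γ' i j t ∈ FF k F := by
      intro β' γ' hg' hz hne
      set q := cd γ' s.1 / cd β' s.1 with hq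
      have hg2 := hg'.sub q
      obtain ⟨-, -, a3, a4, -, -⟩ := hlk β' (fun i j t => γ' i j t - q * β' i j t)
      have h4 : cd (fun i j t => γ' i j t - q * β' i j t) s.1 = 0 := by
        show cd γ' s.1 - q * cd β' s.1 = 0
        rw [hq, div_mul_cancel₀ _ hne, sub_self]
      obtain ⟨F, hF, hF'⟩ := chk_sound (k := k) s.2
        (vt β' (fun i j t => γ' i j t - q * β' i j t) tab) _ ([((lk tab s.1).2, 1)] :: E)
        (lk tab s.1).1 (fun x hx => hx) hp (by
          intro p hp'
          rw [List.mem_cons] at hp'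
          rcases hp' with rfl | hp'
          · rw [ev_cons, ev_nil, mv_prime hpr2, a4, h4]
            simp
          · refine hE _ _ hg2 (fun c h5 h6 => ?_) p hp'
            obtain ⟨h7, h8⟩ := hz c h5 h6
            refine ⟨h7, ?_⟩
            show cd γ' c - q * cd β' c = 0
            rw [h7, h8]
            ring) (by
          intro p hp'
          rw [List.mem_cons] at hp'
          rcases hp' with rfl | hp'
          · exact hw1 _ (by omega)
          · exact hw p hp') (by omega) (by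
          rw [mv_prime hpr1, a3]
          exact hne) h2
      have hF2 := mem_FF_of_vs hg2 hl hs hc hF'
      refine ⟨insert q F, ?_, fun i j t => ?_⟩
      · refine (Set.encard_insert_le _ _).trans ?_
        calc F.encard + 1 ≤ ((n - 1 : ℕ) : ℕ∞) + 1 := by gcongr
          _ = (n : ℕ∞) := by
            obtain ⟨m, rfl⟩ : ∃ m, n = m + 1 := ⟨n - 1, by omega⟩
            simp
      · have hsub : FF k F ≤ FF k (insert q F) := FF_mono (Set.subset_insert _ _)
        have h5 := hsub (hF2 i j t).1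
        have h6 := hsub (hF2 i j t).2
        have h7 : q ∈ FF k (insert q F) := mem_FF_self (Set.mem_insert _ _)
        refine ⟨h5, ?_⟩
        have h8 : γ' i j t = (γ' i j t - q * β' i j t) + q * β' i j t := by ring
        rw [h8]
        exact add_mem h6 (mul_mem h7 h5)
    by_cases hb : cd β s.1 = 0
    · by_cases hc' : cd γ s.1 = 0
      · refine ih _ ?_ h3 β γ hg ?_
        · intro p hp'
          rw [List.mem_cons, List.mem_cons] at hp'
          rcases hp' with rfl | rfl | hp'
          · exact hw1 _ (by omega)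
          · exact hw1 _ (by omega)
          · exact hw p hp'
        · intro β' γ' hg' hz p hp'
          obtain ⟨h7, h8⟩ := hz s.1 hb hc'
          obtain ⟨-, -, a3, a4, -, -⟩ := hlk β' γ'
          rw [List.mem_cons, List.mem_cons] at hp'
          rcases hp' with rfl | rfl | hp'
          · rw [ev_cons, ev_nil, mv_prime hpr1, a3, h7]
            simp
          · rw [ev_cons, ev_nil, mv_prime hpr2, a4, h8]
            simp
          · exact hE β' γ' hg' hz p hp'
      · obtain ⟨F, hF, hF'⟩ := key γ β hg.swap (fun c h5 h6 => ⟨h6, h5⟩) hc'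
        exact ⟨F, hF, fun i j t => ⟨(hF' i j t).2, (hF' i j t).1⟩⟩
    · exact key β γ hg (fun c h5 h6 => ⟨h5, h6⟩) hb

/-- **The count.** -/
theorem count [CharZero K] {l : List ℕ} {n : ℕ} (c : Cert) (h : check l n c = true)
    {β γ : ℕ → ℕ → ℕ → K} (hg : Good l β γ) : rk k (ents β γ) ≤ n := by
  simp only [check, Bool.and_eq_true] at h
  obtain ⟨⟨⟨⟨⟨⟨⟨h1, h2⟩, h3⟩, h4⟩, h5⟩, h6⟩, h7⟩, h8⟩ := h
  rw [Nat.blt_eq] at h2
  rw [List.all_eq_true] at h5 h7
  have hvs : c.vs = c.tab.flatMap fun e => [e.2.1, e.2.2] := by simpa using h6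
  have hp : ∀ x ∈ c.vs, x.Prime := fun x hx => isP_sound (h5 x hx)
  have hR : ∀ s ∈ c.R, wf s.2 = true ∧ ∀ β' γ' : ℕ → ℕ → ℕ → K, Good l β' γ' →
      ev (vt β' γ' c.tab) s.2 = 0 := by
    intro s hs
    have h9 := h7 s hs
    simp only [okR1, Bool.and_eq_true, Nat.blt_eq] at h9
    obtain ⟨⟨⟨⟨g1, g2⟩, g3⟩, g4⟩, g5⟩ := h9
    refine ⟨g4, fun β' γ' hg' => ?_⟩
    have g6 : ev (vt β' γ' c.tab) (mrg 1000 (sm 1 (-1) s.2)
        (relP l c.tab s.1.1 s.1.2.1 s.1.2.2)) = 0 := by
      cases g7 : mrg 1000 (sm 1 (-1) s.2) (relP l c.tab s.1.1 s.1.2.1 s.1.2.2) with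
      | nil => rfl
      | cons a b => rw [g7, isNil] at g5; exact absurd g5 (by simp)
    rw [ev_mrg, ev_relP hg' h1 h3 h4 (by rw [← hvs]; exact hp) g1 g2 g3, add_zero,
      ev_sm one_ne_zero _ g4, mv_one] at g6
    push_cast at g6
    linear_combination - g6
  obtain ⟨F, hF, hF'⟩ := okCh_sound (k := k) h1 h2 h3 h4 hvs hp c.ch (c.R.map Prod.snd) (by
      intro p hp'
      obtain ⟨s, hs, rfl⟩ := List.mem_map.1 hp'
      exact (hR s hs).1) h8 β γ hg (by
      intro β' γ' hg' _ p hp'
      obtain ⟨s, hs, rfl⟩ := List.mem_map.1 hp'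
      exact (hR s hs).2 β' γ' hg')
  have hsub : ents β γ ⊆ (FF k F : Set K) := by
    rintro x ⟨i, j, t, rfl | rfl⟩
    · exact (hF' i j t).1
    · exact (hF' i j t).2
  exact (rk_le hsub).trans ((rk_le_encard F).trans hF)

end Pool.Agent.Lib.D13.Cnt
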