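import Pool.Agent.Lib.D13.QAlg
import Pool.Agent.Lib.D13.GenCnt
import Pool.Agent.Lib.D7.Poly

/-!
# MP_5dcbc3_ag, types `(l, 3, 2, 1)`, `l ≥ 5`: the count of the parameters

All the coordinates of two matrices `X d`, `X e` satisfying the relations `Rel` and the rank
conditions lie in the algebraic closure of a field generated by 31 elements.
-/

namespace Pool.Agent.Lib.D13.Q

variable {k K : Type*} [Field k] [Field K] [Algebra k K]

/-- the coordinates -/
def Par.co (d : Par K) : Fin 23 → K :=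
  ![d.al0, d.al1, d.al2, d.a0, d.a1, d.om, d.be0, d.be1, d.be2, d.p1, d.p2, d.q0, d.q1, d.pi,
      d.b0, d.b1, d.r0, d.r1, d.n, d.ka, d.th, d.et, d.lam]

/-- all coordinates lie in `L` -/
structure InL (L : IntermediateField k K) (d : Par K) : Prop where
  al0 : d.al0 ∈ L
  al1 : d.al1 ∈ L
  al2 : d.al2 ∈ L
  a0 : d.a0 ∈ L
  a1 : d.a1 ∈ L
  om : d.om ∈ L
  be0 : d.be0 ∈ L
  be1 : d.be1 ∈ L
  be2 : d.be2 ∈ L
  p1 : d.p1 ∈ L
  p2 : d.p2 ∈ L
  q0 : d.q0 ∈ L
  q1 : d.q1 ∈ L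
  pi : d.pi ∈ L
  b0 : d.b0 ∈ L
  b1 : d.b1 ∈ L
  r0 : d.r0 ∈ L
  r1 : d.r1 ∈ L
  n : d.n ∈ L
  ka : d.ka ∈ L
  th : d.th ∈ L
  et : d.et ∈ L
  lam : d.lam ∈ L

theorem InL.co {L : IntermediateField k K} {d : Par K} (h : InL L d) (i : Fin 23) :
    d.co i ∈ L := by
  obtain ⟨h0, h1, h2, h3, h4, h5, h6, h7, h8, h9, h10, h11, h12, h13, h14, h15, h16, h17, h18,
      h19, h20, h21, h22⟩ := h
  fin_cases i
  · exact h0
  · exact h1
  · exact h2
  · exact h3
  · exact h4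
  · exact h5
  · exact h6
  · exact h7
  · exact h8
  · exact h9
  · exact h10
  · exact h11
  · exact h12
  · exact h13
  · exact h14
  · exact h15
  · exact h16
  · exact h17
  · exact h18
  · exact h19
  · exact h20
  · exact h21
  · exact h22

variable (k) in
/-- all coordinates lie in every field containing certain 31 elements -/
def Few (d e : Par K) : Prop :=
  ∃ u : Fin 31 → K, ∀ L : IntermediateField k K, (∀ i, u i ∈ L) → InL L d ∧ InL L e

theorem Few.swap {d e : Par K} (h : Few k d e) : Few k e d := by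
  obtain ⟨u, hu⟩ := h
  exact ⟨u, fun L hL => (hu L hL).symm⟩

theorem Par.dual_dual (d : Par K) : d.dual.dual = d := rfl

theorem InL.dual {L : IntermediateField k K} {d : Par K} (h : InL L d) : InL L d.dual :=
  ⟨h.be0, h.be1, h.be2, h.b0, h.b1, h.th, h.al0, h.al1, h.al2, h.p1, h.p2, h.r0, h.r1, h.et, h.a0,
      h.a1, h.q0, h.q1, h.n, h.lam, h.om, h.pi, h.ka⟩

theorem Few.dual {d e : Par K} (h : Few k d.dual e.dual) : Few k d e := by
  obtain ⟨u, hu⟩ := h
  exact ⟨u, fun L hL => ⟨(hu L hL).1.dual, (hu L hL).2.dual⟩⟩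

theorem Few.rk {d e : Par K} (h : Few k d e) : rk k (Set.range d.co ∪ Set.range e.co) ≤ 31 := by
  obtain ⟨u, hu⟩ := h
  have h1 := hu (FF k (Set.range u)) fun i => mem_FF_self ⟨i, rfl⟩
  refine (rk_le_card (k := k) u ?_).trans (by simp)
  refine Set.union_subset ?_ ?_
  · rintro _ ⟨i, rfl⟩
    exact h1.1.co i
  · rintro _ ⟨i, rfl⟩
    exact h1.2.co i

theorem of_mul {L : IntermediateField k K} {a x y : K} (ha : a ≠ 0) (h1 : a ∈ L) (h2 : y ∈ L)
    (h : a * x = y) : x ∈ L := by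
  have h3 : x = y / a := by
    rw [eq_div_iff ha]
    linear_combination h
  rw [h3]
  exact div_mem h2 h1

variable {c5 : K} {d e : Par K}

theorem Rel.symm' (r : Rel c5 d e) : Rel c5 e d where
  VV1 := r.VV1.symm
  VV2 := r.VV2.symm
  VV3 := r.VV3.symm
  VW1 := r.VW1.symm
  VW2 := r.VW2.symm
  VF1 := r.VF1.symm
  VF2 := r.VF2.symm
  VP := r.VP.symm
  WV1 := r.WV1.symm
  WV2 := r.WV2.symm
  WW1 := r.WW1.symm
  WW2 := r.WW2.symm
  WF := r.WF.symm
  WP := r.WP.symm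
  FV1 := r.FV1.symm
  FV2 := r.FV2.symm
  FW := r.FW.symm
  FF := r.FF.symm
  PV := r.PV.symm
  PW := r.PW.symm

theorem Rel.dual' (r : Rel c5 d e) : Rel c5 d.dual e.dual where
  VV1 := by dsimp only [Par.dual]; linear_combination -r.VV1
  VV2 := by dsimp only [Par.dual]; linear_combination -r.VV2
  VV3 := by dsimp only [Par.dual]; linear_combination -r.VV3
  VW1 := by dsimp only [Par.dual]; linear_combination -r.WV1
  VW2 := by dsimp only [Par.dual]; linear_combination -r.WV2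
  VF1 := by dsimp only [Par.dual]; linear_combination -r.FV1
  VF2 := by dsimp only [Par.dual]; linear_combination -r.FV2
  VP := by dsimp only [Par.dual]; linear_combination -r.PV
  WV1 := by dsimp only [Par.dual]; linear_combination -r.VW1
  WV2 := by dsimp only [Par.dual]; linear_combination -r.VW2
  WW1 := by dsimp only [Par.dual]; linear_combination -r.WW1
  WW2 := by dsimp only [Par.dual]; linear_combination -r.WW2
  WF := by dsimp only [Par.dual]; linear_combination -r.FW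
  WP := by dsimp only [Par.dual]; linear_combination -r.PW
  FV1 := by dsimp only [Par.dual]; linear_combination -r.VF1
  FV2 := by dsimp only [Par.dual]; linear_combination -r.VF2
  FW := by dsimp only [Par.dual]; linear_combination -r.WF
  FF := by dsimp only [Par.dual]; linear_combination -r.FF
  PV := by dsimp only [Par.dual]; linear_combination -r.VP
  PW := by dsimp only [Par.dual]; linear_combination -r.WP

theorem lA (hc : c5 = 0 ∨ c5 = 1) (r : Rel c5 d e) (ha : d.al0 ≠ 0) (hq : d.q0 ≠ 0) (z1 : d.r0 =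
    0) (z2 : e.r0 = 0) : Few k d e := by
  have mc' : ∀ L : IntermediateField k K, c5 ∈ L := fun L => by
    rcases hc with rfl | rfl
    · exact zero_mem L
    · exact one_mem L
  refine ⟨![d.al0, d.al1, d.al2, d.a0, d.a1, d.om, d.be0, d.be1, d.be2, d.p1, d.p2, d.q0, d.q1,
      d.pi, d.b0, d.b1, d.r1, d.n, d.ka, d.th, d.et, d.lam, e.al0, e.al1, e.al2, e.a0, e.a1, e.om,
      e.th, e.et, e.lam], fun L hL => ?_⟩
  have mc := mc' L
  have md_al0 : d.al0 ∈ L := hL 0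
  have md_al1 : d.al1 ∈ L := hL 1
  have md_al2 : d.al2 ∈ L := hL 2
  have md_a0 : d.a0 ∈ L := hL 3
  have md_a1 : d.a1 ∈ L := hL 4
  have md_om : d.om ∈ L := hL 5
  have md_be0 : d.be0 ∈ L := hL 6
  have md_be1 : d.be1 ∈ L := hL 7
  have md_be2 : d.be2 ∈ L := hL 8
  have md_p1 : d.p1 ∈ L := hL 9
  have md_p2 : d.p2 ∈ L := hL 10
  have md_q0 : d.q0 ∈ L := hL 11
  have md_q1 : d.q1 ∈ L := hL 12
  have md_pi : d.pi ∈ L := hL 13
  have md_b0 : d.b0 ∈ L := hL 14
  have md_b1 : d.b1 ∈ L := hL 15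
  have md_r1 : d.r1 ∈ L := hL 16
  have md_n : d.n ∈ L := hL 17
  have md_ka : d.ka ∈ L := hL 18
  have md_th : d.th ∈ L := hL 19
  have md_et : d.et ∈ L := hL 20
  have md_lam : d.lam ∈ L := hL 21
  have me_al0 : e.al0 ∈ L := hL 22
  have me_al1 : e.al1 ∈ L := hL 23
  have me_al2 : e.al2 ∈ L := hL 24
  have me_a0 : e.a0 ∈ L := hL 25
  have me_a1 : e.a1 ∈ L := hL 26
  have me_om : e.om ∈ L := hL 27
  have me_th : e.th ∈ L := hL 28
  have me_et : e.et ∈ L := hL 29
  have me_lam : e.lam ∈ L := hL 30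
  have md_r0 : d.r0 ∈ L := by rw [z1]; exact zero_mem L
  have me_r0 : e.r0 ∈ L := by rw [z2]; exact zero_mem L
  have me_be0 : e.be0 ∈ L := of_mul ha md_al0 (mul_mem md_be0 me_al0) (by
      have h := r.VV1
      linear_combination -h)
  have me_p1 : e.p1 ∈ L := of_mul ha md_al0 (mul_mem md_p1 me_al0) (by
      have h := r.VW1
      simp only [z1, z2, mul_zero, zero_mul, add_zero, zero_add] at h
      linear_combination -h)
  have me_q0 : e.q0 ∈ L := of_mul ha md_al0 (mul_mem md_q0 me_al0) (by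
      have h := r.VF1
      linear_combination -h)
  have me_ka : e.ka ∈ L := of_mul hq md_q0 (mul_mem md_ka me_q0) (by
      have h := r.WP
      linear_combination -h)
  have me_pi : e.pi ∈ L := of_mul ha md_al0 (sub_mem (add_mem (mul_mem md_pi me_al0) (mul_mem
      md_ka me_a0)) (mul_mem me_ka md_a0)) (by
      have h := r.VP
      linear_combination -h)
  have me_b0 : e.b0 ∈ L := of_mul hq md_q0 (sub_mem (add_mem (mul_mem md_be0 me_p1) (mul_mem md_b0
      me_q0)) (mul_mem me_be0 md_p1)) (by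
      have h := r.WV1
      linear_combination -h)
  have me_n : e.n ∈ L := of_mul hq md_q0 (sub_mem (sub_mem (add_mem (add_mem (mul_mem md_q0 me_p1)
      (mul_mem md_n me_q0)) (mul_mem md_lam me_pi)) (mul_mem me_q0 md_p1)) (mul_mem me_lam md_pi))
      (by
      have h := r.WF
      linear_combination -h)
  have me_r1 : e.r1 ∈ L := of_mul hq md_q0 (sub_mem (sub_mem (add_mem (add_mem (mul_mem md_r1
      me_q0) (mul_mem md_et me_pi)) (mul_mem mc (mul_mem md_al0 me_be0))) (mul_mem me_et md_pi))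
      (mul_mem mc (mul_mem me_al0 md_be0))) (by
      have h := r.WW2
      simp only [z1, z2, mul_zero, zero_mul, add_zero, zero_add] at h
      linear_combination -h)
  have me_p2 : e.p2 ∈ L := of_mul ha md_al0 (sub_mem (sub_mem (sub_mem (add_mem (add_mem (add_mem
      (mul_mem md_p1 me_al1) (mul_mem md_p2 me_al0)) (mul_mem md_r1 me_a0)) (mul_mem md_et me_om))
      (mul_mem me_p1 md_al1)) (mul_mem me_r1 md_a0)) (mul_mem me_et md_om)) (by
      have h := r.VW2
      simp only [z1, z2, mul_zero, zero_mul, add_zero, zero_add] at h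
      linear_combination -h)
  have me_q1 : e.q1 ∈ L := of_mul ha md_al0 (sub_mem (sub_mem (sub_mem (add_mem (add_mem (add_mem
      (mul_mem md_q0 me_al1) (mul_mem md_q1 me_al0)) (mul_mem md_n me_a0)) (mul_mem md_lam me_om))
      (mul_mem me_q0 md_al1)) (mul_mem me_n md_a0)) (mul_mem me_lam md_om)) (by
      have h := r.VF2
      linear_combination -h)
  have me_be1 : e.be1 ∈ L := of_mul ha md_al0 (sub_mem (sub_mem (add_mem (add_mem (mul_mem md_be0
      me_al1) (mul_mem md_be1 me_al0)) (mul_mem md_b0 me_a0)) (mul_mem me_be0 md_al1)) (mul_mem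
      me_b0 md_a0)) (by
      have h := r.VV2
      linear_combination -h)
  have me_b1 : e.b1 ∈ L := of_mul hq md_q0 (sub_mem (sub_mem (sub_mem (sub_mem (add_mem (add_mem
      (add_mem (add_mem (mul_mem md_be0 me_p2) (mul_mem md_be1 me_p1)) (mul_mem md_b0 me_q1))
      (mul_mem md_b1 me_q0)) (mul_mem md_th me_pi)) (mul_mem me_be0 md_p2)) (mul_mem me_be1
      md_p1)) (mul_mem me_b0 md_q1)) (mul_mem me_th md_pi)) (by
      have h := r.WV2
      linear_combination -h)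
  have me_be2 : e.be2 ∈ L := of_mul ha md_al0 (sub_mem (sub_mem (sub_mem (sub_mem (sub_mem
      (add_mem (add_mem (add_mem (add_mem (add_mem (mul_mem md_be0 me_al2) (mul_mem md_be1
      me_al1)) (mul_mem md_be2 me_al0)) (mul_mem md_b0 me_a1)) (mul_mem md_b1 me_a0)) (mul_mem
      md_th me_om)) (mul_mem me_be0 md_al2)) (mul_mem me_be1 md_al1)) (mul_mem me_b0 md_a1))
      (mul_mem me_b1 md_a0)) (mul_mem me_th md_om)) (by
      have h := r.VV3
      linear_combination -h)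
  exact ⟨⟨md_al0, md_al1, md_al2, md_a0, md_a1, md_om, md_be0, md_be1, md_be2, md_p1, md_p2,
      md_q0, md_q1, md_pi, md_b0, md_b1, md_r0, md_r1, md_n, md_ka, md_th, md_et, md_lam⟩,
    ⟨me_al0, me_al1, me_al2, me_a0, me_a1, me_om, me_be0, me_be1, me_be2, me_p1, me_p2, me_q0,
        me_q1, me_pi, me_b0, me_b1, me_r0, me_r1, me_n, me_ka, me_th, me_et, me_lam⟩⟩

theorem lB1 (hc : c5 = 0 ∨ c5 = 1) (r : Rel c5 d e) (ha : d.al0 ≠ 0) (hb : d.be0 ≠ 0)
    (z1 : d.q0 = 0) (z2 : e.q0 = 0) (z3 : d.r0 = 0) (z4 : e.r0 = 0) (z5 : d.lam = 0)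
    (z6 : e.lam = 0) : Few k d e := by
  have mc' : ∀ L : IntermediateField k K, c5 ∈ L := fun L => by
    rcases hc with rfl | rfl
    · exact zero_mem L
    · exact one_mem L
  refine ⟨![d.al0, d.al1, d.al2, d.a0, d.a1, d.om, d.be0, d.be1, d.be2, d.p1, d.p2, d.q1, d.pi,
      d.b0, d.b1, d.r1, d.n, d.ka, d.th, d.et, e.al0, e.al1, e.al2, e.a0, e.a1, e.om, e.b0, e.b1,
      e.n, e.ka, e.th], fun L hL => ?_⟩
  have mc := mc' L
  have md_al0 : d.al0 ∈ L := hL 0
  have md_al1 : d.al1 ∈ L := hL 1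
  have md_al2 : d.al2 ∈ L := hL 2
  have md_a0 : d.a0 ∈ L := hL 3
  have md_a1 : d.a1 ∈ L := hL 4
  have md_om : d.om ∈ L := hL 5
  have md_be0 : d.be0 ∈ L := hL 6
  have md_be1 : d.be1 ∈ L := hL 7
  have md_be2 : d.be2 ∈ L := hL 8
  have md_p1 : d.p1 ∈ L := hL 9
  have md_p2 : d.p2 ∈ L := hL 10
  have md_q1 : d.q1 ∈ L := hL 11
  have md_pi : d.pi ∈ L := hL 12
  have md_b0 : d.b0 ∈ L := hL 13
  have md_b1 : d.b1 ∈ L := hL 14
  have md_r1 : d.r1 ∈ L := hL 15
  have md_n : d.n ∈ L := hL 16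
  have md_ka : d.ka ∈ L := hL 17
  have md_th : d.th ∈ L := hL 18
  have md_et : d.et ∈ L := hL 19
  have me_al0 : e.al0 ∈ L := hL 20
  have me_al1 : e.al1 ∈ L := hL 21
  have me_al2 : e.al2 ∈ L := hL 22
  have me_a0 : e.a0 ∈ L := hL 23
  have me_a1 : e.a1 ∈ L := hL 24
  have me_om : e.om ∈ L := hL 25
  have me_b0 : e.b0 ∈ L := hL 26
  have me_b1 : e.b1 ∈ L := hL 27
  have me_n : e.n ∈ L := hL 28
  have me_ka : e.ka ∈ L := hL 29
  have me_th : e.th ∈ L := hL 30
  have md_q0 : d.q0 ∈ L := by rw [z1]; exact zero_mem L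
  have me_q0 : e.q0 ∈ L := by rw [z2]; exact zero_mem L
  have md_r0 : d.r0 ∈ L := by rw [z3]; exact zero_mem L
  have me_r0 : e.r0 ∈ L := by rw [z4]; exact zero_mem L
  have md_lam : d.lam ∈ L := by rw [z5]; exact zero_mem L
  have me_lam : e.lam ∈ L := by rw [z6]; exact zero_mem L
  have me_be0 : e.be0 ∈ L := of_mul ha md_al0 (mul_mem md_be0 me_al0) (by
      have h := r.VV1
      linear_combination -h)
  have me_et : e.et ∈ L := of_mul hb md_be0 (mul_mem me_be0 md_et) (by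
      have h := r.PV
      simp only [z5, z6, mul_zero, zero_mul, add_zero, zero_add] at h
      linear_combination h)
  have me_p1 : e.p1 ∈ L := of_mul ha md_al0 (mul_mem md_p1 me_al0) (by
      have h := r.VW1
      simp only [z3, z4, mul_zero, zero_mul, add_zero, zero_add] at h
      linear_combination -h)
  have me_pi : e.pi ∈ L := of_mul ha md_al0 (sub_mem (add_mem (mul_mem md_pi me_al0) (mul_mem
      md_ka me_a0)) (mul_mem me_ka md_a0)) (by
      have h := r.VP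
      linear_combination -h)
  have me_be1 : e.be1 ∈ L := of_mul ha md_al0 (sub_mem (sub_mem (add_mem (add_mem (mul_mem md_be0
      me_al1) (mul_mem md_be1 me_al0)) (mul_mem md_b0 me_a0)) (mul_mem me_be0 md_al1)) (mul_mem
      me_b0 md_a0)) (by
      have h := r.VV2
      linear_combination -h)
  have me_r1 : e.r1 ∈ L := of_mul hb md_be0 (sub_mem (sub_mem (add_mem (add_mem (mul_mem me_be0
      md_r1) (mul_mem me_b0 md_n)) (mul_mem me_th md_ka)) (mul_mem md_b0 me_n)) (mul_mem md_th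
      me_ka)) (by
      have h := r.FV2
      simp only [z3, z4, mul_zero, zero_mul, add_zero, zero_add] at h
      linear_combination h)
  have me_p2 : e.p2 ∈ L := of_mul ha md_al0 (sub_mem (sub_mem (sub_mem (add_mem (add_mem (add_mem
      (mul_mem md_p1 me_al1) (mul_mem md_p2 me_al0)) (mul_mem md_r1 me_a0)) (mul_mem md_et me_om))
      (mul_mem me_p1 md_al1)) (mul_mem me_r1 md_a0)) (mul_mem me_et md_om)) (by
      have h := r.VW2
      simp only [z3, z4, mul_zero, zero_mul, add_zero, zero_add] at h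
      linear_combination -h)
  have me_q1 : e.q1 ∈ L := of_mul ha md_al0 (sub_mem (add_mem (mul_mem md_q1 me_al0) (mul_mem md_n
      me_a0)) (mul_mem me_n md_a0)) (by
      have h := r.VF2
      simp only [z1, z2, z5, z6, mul_zero, zero_mul, add_zero, zero_add] at h
      linear_combination -h)
  have me_be2 : e.be2 ∈ L := of_mul ha md_al0 (sub_mem (sub_mem (sub_mem (sub_mem (sub_mem
      (add_mem (add_mem (add_mem (add_mem (add_mem (mul_mem md_be0 me_al2) (mul_mem md_be1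
      me_al1)) (mul_mem md_be2 me_al0)) (mul_mem md_b0 me_a1)) (mul_mem md_b1 me_a0)) (mul_mem
      md_th me_om)) (mul_mem me_be0 md_al2)) (mul_mem me_be1 md_al1)) (mul_mem me_b0 md_a1))
      (mul_mem me_b1 md_a0)) (mul_mem me_th md_om)) (by
      have h := r.VV3
      linear_combination -h)
  exact ⟨⟨md_al0, md_al1, md_al2, md_a0, md_a1, md_om, md_be0, md_be1, md_be2, md_p1, md_p2,
      md_q0, md_q1, md_pi, md_b0, md_b1, md_r0, md_r1, md_n, md_ka, md_th, md_et, md_lam⟩,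
    ⟨me_al0, me_al1, me_al2, me_a0, me_a1, me_om, me_be0, me_be1, me_be2, me_p1, me_p2, me_q0,
        me_q1, me_pi, me_b0, me_b1, me_r0, me_r1, me_n, me_ka, me_th, me_et, me_lam⟩⟩

theorem lB2 (hc : c5 = 0 ∨ c5 = 1) (r : Rel c5 d e) (ha : d.al0 ≠ 0) (hb : d.be0 ≠ 0)
    (z1 : d.q0 = 0) (z2 : e.q0 = 0) (z3 : d.r0 = 0) (z4 : e.r0 = 0) (z5 : d.ka = 0)
    (z6 : e.ka = 0) : Few k d e := by
  have mc' : ∀ L : IntermediateField k K, c5 ∈ L := fun L => by
    rcases hc with rfl | rfl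
    · exact zero_mem L
    · exact one_mem L
  refine ⟨![d.al0, d.al1, d.al2, d.a0, d.a1, d.om, d.be0, d.be1, d.be2, d.p1, d.p2, d.q1, d.pi,
      d.b0, d.b1, d.r1, d.n, d.th, d.et, d.lam, e.al0, e.al1, e.al2, e.a0, e.a1, e.om, e.b0, e.b1,
      e.n, e.th, e.lam], fun L hL => ?_⟩
  have mc := mc' L
  have md_al0 : d.al0 ∈ L := hL 0
  have md_al1 : d.al1 ∈ L := hL 1
  have md_al2 : d.al2 ∈ L := hL 2
  have md_a0 : d.a0 ∈ L := hL 3
  have md_a1 : d.a1 ∈ L := hL 4
  have md_om : d.om ∈ L := hL 5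
  have md_be0 : d.be0 ∈ L := hL 6
  have md_be1 : d.be1 ∈ L := hL 7
  have md_be2 : d.be2 ∈ L := hL 8
  have md_p1 : d.p1 ∈ L := hL 9
  have md_p2 : d.p2 ∈ L := hL 10
  have md_q1 : d.q1 ∈ L := hL 11
  have md_pi : d.pi ∈ L := hL 12
  have md_b0 : d.b0 ∈ L := hL 13
  have md_b1 : d.b1 ∈ L := hL 14
  have md_r1 : d.r1 ∈ L := hL 15
  have md_n : d.n ∈ L := hL 16
  have md_th : d.th ∈ L := hL 17
  have md_et : d.et ∈ L := hL 18
  have md_lam : d.lam ∈ L := hL 19
  have me_al0 : e.al0 ∈ L := hL 20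
  have me_al1 : e.al1 ∈ L := hL 21
  have me_al2 : e.al2 ∈ L := hL 22
  have me_a0 : e.a0 ∈ L := hL 23
  have me_a1 : e.a1 ∈ L := hL 24
  have me_om : e.om ∈ L := hL 25
  have me_b0 : e.b0 ∈ L := hL 26
  have me_b1 : e.b1 ∈ L := hL 27
  have me_n : e.n ∈ L := hL 28
  have me_th : e.th ∈ L := hL 29
  have me_lam : e.lam ∈ L := hL 30
  have md_q0 : d.q0 ∈ L := by rw [z1]; exact zero_mem L
  have me_q0 : e.q0 ∈ L := by rw [z2]; exact zero_mem L
  have md_r0 : d.r0 ∈ L := by rw [z3]; exact zero_mem L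
  have me_r0 : e.r0 ∈ L := by rw [z4]; exact zero_mem L
  have md_ka : d.ka ∈ L := by rw [z5]; exact zero_mem L
  have me_ka : e.ka ∈ L := by rw [z6]; exact zero_mem L
  have me_be0 : e.be0 ∈ L := of_mul ha md_al0 (mul_mem md_be0 me_al0) (by
      have h := r.VV1
      linear_combination -h)
  have me_et : e.et ∈ L := of_mul hb md_be0 (sub_mem (add_mem (mul_mem me_be0 md_et) (mul_mem
      me_b0 md_lam)) (mul_mem md_b0 me_lam)) (by
      have h := r.PV
      linear_combination h)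
  have me_p1 : e.p1 ∈ L := of_mul ha md_al0 (mul_mem md_p1 me_al0) (by
      have h := r.VW1
      simp only [z3, z4, mul_zero, zero_mul, add_zero, zero_add] at h
      linear_combination -h)
  have me_pi : e.pi ∈ L := of_mul ha md_al0 (mul_mem md_pi me_al0) (by
      have h := r.VP
      simp only [z5, z6, mul_zero, zero_mul, add_zero, zero_add] at h
      linear_combination -h)
  have me_be1 : e.be1 ∈ L := of_mul ha md_al0 (sub_mem (sub_mem (add_mem (add_mem (mul_mem md_be0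
      me_al1) (mul_mem md_be1 me_al0)) (mul_mem md_b0 me_a0)) (mul_mem me_be0 md_al1)) (mul_mem
      me_b0 md_a0)) (by
      have h := r.VV2
      linear_combination -h)
  have me_r1 : e.r1 ∈ L := of_mul hb md_be0 (sub_mem (add_mem (mul_mem me_be0 md_r1) (mul_mem
      me_b0 md_n)) (mul_mem md_b0 me_n)) (by
      have h := r.FV2
      simp only [z3, z4, z5, z6, mul_zero, zero_mul, add_zero, zero_add] at h
      linear_combination h)
  have me_p2 : e.p2 ∈ L := of_mul ha md_al0 (sub_mem (sub_mem (sub_mem (add_mem (add_mem (add_mem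
      (mul_mem md_p1 me_al1) (mul_mem md_p2 me_al0)) (mul_mem md_r1 me_a0)) (mul_mem md_et me_om))
      (mul_mem me_p1 md_al1)) (mul_mem me_r1 md_a0)) (mul_mem me_et md_om)) (by
      have h := r.VW2
      simp only [z3, z4, mul_zero, zero_mul, add_zero, zero_add] at h
      linear_combination -h)
  have me_q1 : e.q1 ∈ L := of_mul ha md_al0 (sub_mem (sub_mem (add_mem (add_mem (mul_mem md_q1
      me_al0) (mul_mem md_n me_a0)) (mul_mem md_lam me_om)) (mul_mem me_n md_a0)) (mul_mem me_lam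
      md_om)) (by
      have h := r.VF2
      simp only [z1, z2, mul_zero, zero_mul, add_zero, zero_add] at h
      linear_combination -h)
  have me_be2 : e.be2 ∈ L := of_mul ha md_al0 (sub_mem (sub_mem (sub_mem (sub_mem (sub_mem
      (add_mem (add_mem (add_mem (add_mem (add_mem (mul_mem md_be0 me_al2) (mul_mem md_be1
      me_al1)) (mul_mem md_be2 me_al0)) (mul_mem md_b0 me_a1)) (mul_mem md_b1 me_a0)) (mul_mem
      md_th me_om)) (mul_mem me_be0 md_al2)) (mul_mem me_be1 md_al1)) (mul_mem me_b0 md_a1))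
      (mul_mem me_b1 md_a0)) (mul_mem me_th md_om)) (by
      have h := r.VV3
      linear_combination -h)
  exact ⟨⟨md_al0, md_al1, md_al2, md_a0, md_a1, md_om, md_be0, md_be1, md_be2, md_p1, md_p2,
      md_q0, md_q1, md_pi, md_b0, md_b1, md_r0, md_r1, md_n, md_ka, md_th, md_et, md_lam⟩,
    ⟨me_al0, me_al1, me_al2, me_a0, me_a1, me_om, me_be0, me_be1, me_be2, me_p1, me_p2, me_q0,
        me_q1, me_pi, me_b0, me_b1, me_r0, me_r1, me_n, me_ka, me_th, me_et, me_lam⟩⟩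

theorem lC1a (hc : c5 = 0 ∨ c5 = 1) (r : Rel c5 d e) (ha : d.al0 ≠ 0) (hl : d.lam ≠ 0)
    (z1 : d.be0 = 0) (z2 : e.be0 = 0) (z3 : d.q0 = 0) (z4 : e.q0 = 0)
    (z5 : d.ka = 0) (z6 : e.ka = 0) (z7 : d.pi = 0) : Few k d e := by
  have mc' : ∀ L : IntermediateField k K, c5 ∈ L := fun L => by
    rcases hc with rfl | rfl
    · exact zero_mem L
    · exact one_mem L
  refine ⟨![d.al0, d.al1, d.al2, d.a0, d.a1, d.om, d.be1, d.be2, d.p1, d.p2, d.q1, d.b0, d.b1,
      d.r0, d.r1, d.n, d.th, d.et, d.lam, e.al0, e.al1, e.al2, e.a0, e.a1, e.om, e.b1, e.r1, e.n,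
      e.th, e.et, e.lam], fun L hL => ?_⟩
  have mc := mc' L
  have md_al0 : d.al0 ∈ L := hL 0
  have md_al1 : d.al1 ∈ L := hL 1
  have md_al2 : d.al2 ∈ L := hL 2
  have md_a0 : d.a0 ∈ L := hL 3
  have md_a1 : d.a1 ∈ L := hL 4
  have md_om : d.om ∈ L := hL 5
  have md_be1 : d.be1 ∈ L := hL 6
  have md_be2 : d.be2 ∈ L := hL 7
  have md_p1 : d.p1 ∈ L := hL 8
  have md_p2 : d.p2 ∈ L := hL 9
  have md_q1 : d.q1 ∈ L := hL 10
  have md_b0 : d.b0 ∈ L := hL 11
  have md_b1 : d.b1 ∈ L := hL 12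
  have md_r0 : d.r0 ∈ L := hL 13
  have md_r1 : d.r1 ∈ L := hL 14
  have md_n : d.n ∈ L := hL 15
  have md_th : d.th ∈ L := hL 16
  have md_et : d.et ∈ L := hL 17
  have md_lam : d.lam ∈ L := hL 18
  have me_al0 : e.al0 ∈ L := hL 19
  have me_al1 : e.al1 ∈ L := hL 20
  have me_al2 : e.al2 ∈ L := hL 21
  have me_a0 : e.a0 ∈ L := hL 22
  have me_a1 : e.a1 ∈ L := hL 23
  have me_om : e.om ∈ L := hL 24
  have me_b1 : e.b1 ∈ L := hL 25
  have me_r1 : e.r1 ∈ L := hL 26
  have me_n : e.n ∈ L := hL 27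
  have me_th : e.th ∈ L := hL 28
  have me_et : e.et ∈ L := hL 29
  have me_lam : e.lam ∈ L := hL 30
  have md_be0 : d.be0 ∈ L := by rw [z1]; exact zero_mem L
  have me_be0 : e.be0 ∈ L := by rw [z2]; exact zero_mem L
  have md_q0 : d.q0 ∈ L := by rw [z3]; exact zero_mem L
  have me_q0 : e.q0 ∈ L := by rw [z4]; exact zero_mem L
  have md_ka : d.ka ∈ L := by rw [z5]; exact zero_mem L
  have me_ka : e.ka ∈ L := by rw [z6]; exact zero_mem L
  have md_pi : d.pi ∈ L := by rw [z7]; exact zero_mem L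
  have me_b0 : e.b0 ∈ L := of_mul hl md_lam (mul_mem md_b0 me_lam) (by
      have h := r.PV
      simp only [z1, z2, mul_zero, zero_mul, add_zero, zero_add] at h
      linear_combination -h)
  have me_r0 : e.r0 ∈ L := of_mul hl md_lam (mul_mem md_r0 me_lam) (by
      have h := r.PW
      linear_combination -h)
  have me_p1 : e.p1 ∈ L := of_mul ha md_al0 (sub_mem (add_mem (mul_mem md_p1 me_al0) (mul_mem
      md_r0 me_a0)) (mul_mem me_r0 md_a0)) (by
      have h := r.VW1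
      linear_combination -h)
  have me_pi : e.pi ∈ L := of_mul ha md_al0 (zero_mem L) (by
      have h := r.VP
      simp only [z5, z6, z7, mul_zero, zero_mul, add_zero, zero_add] at h
      linear_combination -h)
  have me_be1 : e.be1 ∈ L := of_mul ha md_al0 (sub_mem (add_mem (mul_mem md_be1 me_al0) (mul_mem
      md_b0 me_a0)) (mul_mem me_b0 md_a0)) (by
      have h := r.VV2
      simp only [z1, z2, mul_zero, zero_mul, add_zero, zero_add] at h
      linear_combination -h)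
  have me_p2 : e.p2 ∈ L := of_mul ha md_al0 (sub_mem (sub_mem (sub_mem (sub_mem (add_mem (add_mem
      (add_mem (add_mem (mul_mem md_p1 me_al1) (mul_mem md_p2 me_al0)) (mul_mem md_r0 me_a1))
      (mul_mem md_r1 me_a0)) (mul_mem md_et me_om)) (mul_mem me_p1 md_al1)) (mul_mem me_r0 md_a1))
      (mul_mem me_r1 md_a0)) (mul_mem me_et md_om)) (by
      have h := r.VW2
      linear_combination -h)
  have me_q1 : e.q1 ∈ L := of_mul ha md_al0 (sub_mem (sub_mem (add_mem (add_mem (mul_mem md_q1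
      me_al0) (mul_mem md_n me_a0)) (mul_mem md_lam me_om)) (mul_mem me_n md_a0)) (mul_mem me_lam
      md_om)) (by
      have h := r.VF2
      simp only [z3, z4, mul_zero, zero_mul, add_zero, zero_add] at h
      linear_combination -h)
  have me_be2 : e.be2 ∈ L := of_mul ha md_al0 (sub_mem (sub_mem (sub_mem (sub_mem (add_mem
      (add_mem (add_mem (add_mem (mul_mem md_be1 me_al1) (mul_mem md_be2 me_al0)) (mul_mem md_b0
      me_a1)) (mul_mem md_b1 me_a0)) (mul_mem md_th me_om)) (mul_mem me_be1 md_al1)) (mul_mem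
      me_b0 md_a1)) (mul_mem me_b1 md_a0)) (mul_mem me_th md_om)) (by
      have h := r.VV3
      simp only [z1, z2, mul_zero, zero_mul, add_zero, zero_add] at h
      linear_combination -h)
  exact ⟨⟨md_al0, md_al1, md_al2, md_a0, md_a1, md_om, md_be0, md_be1, md_be2, md_p1, md_p2,
      md_q0, md_q1, md_pi, md_b0, md_b1, md_r0, md_r1, md_n, md_ka, md_th, md_et, md_lam⟩,
    ⟨me_al0, me_al1, me_al2, me_a0, me_a1, me_om, me_be0, me_be1, me_be2, me_p1, me_p2, me_q0,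
        me_q1, me_pi, me_b0, me_b1, me_r0, me_r1, me_n, me_ka, me_th, me_et, me_lam⟩⟩

theorem lC1b (hc : c5 = 0 ∨ c5 = 1) (r : Rel c5 d e) (ha : d.al0 ≠ 0) (hl : d.lam ≠ 0)
    (z1 : d.be0 = 0) (z2 : e.be0 = 0) (z3 : d.q0 = 0) (z4 : e.q0 = 0)
    (z5 : d.ka = 0) (z6 : e.ka = 0) (hp : d.pi ≠ 0) : Few k d e := by
  have mc' : ∀ L : IntermediateField k K, c5 ∈ L := fun L => by
    rcases hc with rfl | rfl
    · exact zero_mem L
    · exact one_mem L
  refine ⟨![d.al0, d.al1, d.al2, d.a0, d.a1, d.om, d.be1, d.be2, d.p1, d.p2, d.q1, d.pi, d.b0,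
      d.b1, d.r0, d.r1, d.n, d.th, d.et, d.lam, e.al0, e.al1, e.al2, e.a0, e.a1, e.om, e.b1, e.r1,
      e.n, e.th, e.et], fun L hL => ?_⟩
  have mc := mc' L
  have md_al0 : d.al0 ∈ L := hL 0
  have md_al1 : d.al1 ∈ L := hL 1
  have md_al2 : d.al2 ∈ L := hL 2
  have md_a0 : d.a0 ∈ L := hL 3
  have md_a1 : d.a1 ∈ L := hL 4
  have md_om : d.om ∈ L := hL 5
  have md_be1 : d.be1 ∈ L := hL 6
  have md_be2 : d.be2 ∈ L := hL 7
  have md_p1 : d.p1 ∈ L := hL 8
  have md_p2 : d.p2 ∈ L := hL 9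
  have md_q1 : d.q1 ∈ L := hL 10
  have md_pi : d.pi ∈ L := hL 11
  have md_b0 : d.b0 ∈ L := hL 12
  have md_b1 : d.b1 ∈ L := hL 13
  have md_r0 : d.r0 ∈ L := hL 14
  have md_r1 : d.r1 ∈ L := hL 15
  have md_n : d.n ∈ L := hL 16
  have md_th : d.th ∈ L := hL 17
  have md_et : d.et ∈ L := hL 18
  have md_lam : d.lam ∈ L := hL 19
  have me_al0 : e.al0 ∈ L := hL 20
  have me_al1 : e.al1 ∈ L := hL 21
  have me_al2 : e.al2 ∈ L := hL 22
  have me_a0 : e.a0 ∈ L := hL 23
  have me_a1 : e.a1 ∈ L := hL 24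
  have me_om : e.om ∈ L := hL 25
  have me_b1 : e.b1 ∈ L := hL 26
  have me_r1 : e.r1 ∈ L := hL 27
  have me_n : e.n ∈ L := hL 28
  have me_th : e.th ∈ L := hL 29
  have me_et : e.et ∈ L := hL 30
  have md_be0 : d.be0 ∈ L := by rw [z1]; exact zero_mem L
  have me_be0 : e.be0 ∈ L := by rw [z2]; exact zero_mem L
  have md_q0 : d.q0 ∈ L := by rw [z3]; exact zero_mem L
  have me_q0 : e.q0 ∈ L := by rw [z4]; exact zero_mem L
  have md_ka : d.ka ∈ L := by rw [z5]; exact zero_mem L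
  have me_ka : e.ka ∈ L := by rw [z6]; exact zero_mem L
  have me_lam : e.lam ∈ L := of_mul ha md_al0 (mul_mem md_lam me_al0) (by
    have h1 := r.WF
    have h2 := r.VP
    simp only [z3, z4, z5, z6, mul_zero, zero_mul, add_zero, zero_add] at h1 h2
    refine mul_left_cancel₀ hp ?_
    linear_combination -d.al0 * h1 - d.lam * h2)
  have me_b0 : e.b0 ∈ L := of_mul hl md_lam (mul_mem md_b0 me_lam) (by
      have h := r.PV
      simp only [z1, z2, mul_zero, zero_mul, add_zero, zero_add] at h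
      linear_combination -h)
  have me_r0 : e.r0 ∈ L := of_mul hl md_lam (mul_mem md_r0 me_lam) (by
      have h := r.PW
      linear_combination -h)
  have me_p1 : e.p1 ∈ L := of_mul ha md_al0 (sub_mem (add_mem (mul_mem md_p1 me_al0) (mul_mem
      md_r0 me_a0)) (mul_mem me_r0 md_a0)) (by
      have h := r.VW1
      linear_combination -h)
  have me_pi : e.pi ∈ L := of_mul ha md_al0 (mul_mem md_pi me_al0) (by
      have h := r.VP
      simp only [z5, z6, mul_zero, zero_mul, add_zero, zero_add] at h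
      linear_combination -h)
  have me_be1 : e.be1 ∈ L := of_mul ha md_al0 (sub_mem (add_mem (mul_mem md_be1 me_al0) (mul_mem
      md_b0 me_a0)) (mul_mem me_b0 md_a0)) (by
      have h := r.VV2
      simp only [z1, z2, mul_zero, zero_mul, add_zero, zero_add] at h
      linear_combination -h)
  have me_p2 : e.p2 ∈ L := of_mul ha md_al0 (sub_mem (sub_mem (sub_mem (sub_mem (add_mem (add_mem
      (add_mem (add_mem (mul_mem md_p1 me_al1) (mul_mem md_p2 me_al0)) (mul_mem md_r0 me_a1))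
      (mul_mem md_r1 me_a0)) (mul_mem md_et me_om)) (mul_mem me_p1 md_al1)) (mul_mem me_r0 md_a1))
      (mul_mem me_r1 md_a0)) (mul_mem me_et md_om)) (by
      have h := r.VW2
      linear_combination -h)
  have me_q1 : e.q1 ∈ L := of_mul ha md_al0 (sub_mem (sub_mem (add_mem (add_mem (mul_mem md_q1
      me_al0) (mul_mem md_n me_a0)) (mul_mem md_lam me_om)) (mul_mem me_n md_a0)) (mul_mem me_lam
      md_om)) (by
      have h := r.VF2
      simp only [z3, z4, mul_zero, zero_mul, add_zero, zero_add] at h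
      linear_combination -h)
  have me_be2 : e.be2 ∈ L := of_mul ha md_al0 (sub_mem (sub_mem (sub_mem (sub_mem (add_mem
      (add_mem (add_mem (add_mem (mul_mem md_be1 me_al1) (mul_mem md_be2 me_al0)) (mul_mem md_b0
      me_a1)) (mul_mem md_b1 me_a0)) (mul_mem md_th me_om)) (mul_mem me_be1 md_al1)) (mul_mem
      me_b0 md_a1)) (mul_mem me_b1 md_a0)) (mul_mem me_th md_om)) (by
      have h := r.VV3
      simp only [z1, z2, mul_zero, zero_mul, add_zero, zero_add] at h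
      linear_combination -h)
  exact ⟨⟨md_al0, md_al1, md_al2, md_a0, md_a1, md_om, md_be0, md_be1, md_be2, md_p1, md_p2,
      md_q0, md_q1, md_pi, md_b0, md_b1, md_r0, md_r1, md_n, md_ka, md_th, md_et, md_lam⟩,
    ⟨me_al0, me_al1, me_al2, me_a0, me_a1, me_om, me_be0, me_be1, me_be2, me_p1, me_p2, me_q0,
        me_q1, me_pi, me_b0, me_b1, me_r0, me_r1, me_n, me_ka, me_th, me_et, me_lam⟩⟩

theorem lC1c (hc : c5 = 0 ∨ c5 = 1) (r : Rel c5 d e) (ha : d.al0 ≠ 0)
    (z1 : d.be0 = 0) (z2 : e.be0 = 0) (z3 : d.q0 = 0) (z4 : e.q0 = 0)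
    (z5 : d.ka = 0) (z6 : e.ka = 0) (z7 : d.lam = 0) (z8 : d.b0 = 0) (z9 : d.r0 = 0) : Few k d e
        := by
  have mc' : ∀ L : IntermediateField k K, c5 ∈ L := fun L => by
    rcases hc with rfl | rfl
    · exact zero_mem L
    · exact one_mem L
  refine ⟨![d.al0, d.al1, d.al2, d.a0, d.a1, d.om, d.be1, d.be2, d.p1, d.p2, d.q1, d.pi, d.b1,
      d.r1, d.n, d.th, d.et, e.al0, e.al1, e.al2, e.a0, e.a1, e.om, e.b0, e.b1, e.r0, e.r1, e.n,
      e.th, e.et, e.lam], fun L hL => ?_⟩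
  have mc := mc' L
  have md_al0 : d.al0 ∈ L := hL 0
  have md_al1 : d.al1 ∈ L := hL 1
  have md_al2 : d.al2 ∈ L := hL 2
  have md_a0 : d.a0 ∈ L := hL 3
  have md_a1 : d.a1 ∈ L := hL 4
  have md_om : d.om ∈ L := hL 5
  have md_be1 : d.be1 ∈ L := hL 6
  have md_be2 : d.be2 ∈ L := hL 7
  have md_p1 : d.p1 ∈ L := hL 8
  have md_p2 : d.p2 ∈ L := hL 9
  have md_q1 : d.q1 ∈ L := hL 10
  have md_pi : d.pi ∈ L := hL 11
  have md_b1 : d.b1 ∈ L := hL 12
  have md_r1 : d.r1 ∈ L := hL 13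
  have md_n : d.n ∈ L := hL 14
  have md_th : d.th ∈ L := hL 15
  have md_et : d.et ∈ L := hL 16
  have me_al0 : e.al0 ∈ L := hL 17
  have me_al1 : e.al1 ∈ L := hL 18
  have me_al2 : e.al2 ∈ L := hL 19
  have me_a0 : e.a0 ∈ L := hL 20
  have me_a1 : e.a1 ∈ L := hL 21
  have me_om : e.om ∈ L := hL 22
  have me_b0 : e.b0 ∈ L := hL 23
  have me_b1 : e.b1 ∈ L := hL 24
  have me_r0 : e.r0 ∈ L := hL 25
  have me_r1 : e.r1 ∈ L := hL 26
  have me_n : e.n ∈ L := hL 27
  have me_th : e.th ∈ L := hL 28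
  have me_et : e.et ∈ L := hL 29
  have me_lam : e.lam ∈ L := hL 30
  have md_be0 : d.be0 ∈ L := by rw [z1]; exact zero_mem L
  have me_be0 : e.be0 ∈ L := by rw [z2]; exact zero_mem L
  have md_q0 : d.q0 ∈ L := by rw [z3]; exact zero_mem L
  have me_q0 : e.q0 ∈ L := by rw [z4]; exact zero_mem L
  have md_ka : d.ka ∈ L := by rw [z5]; exact zero_mem L
  have me_ka : e.ka ∈ L := by rw [z6]; exact zero_mem L
  have md_lam : d.lam ∈ L := by rw [z7]; exact zero_mem L
  have md_b0 : d.b0 ∈ L := by rw [z8]; exact zero_mem L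
  have md_r0 : d.r0 ∈ L := by rw [z9]; exact zero_mem L
  have me_p1 : e.p1 ∈ L := of_mul ha md_al0 (sub_mem (mul_mem md_p1 me_al0) (mul_mem me_r0 md_a0))
      (by
      have h := r.VW1
      simp only [z9, mul_zero, zero_mul, add_zero, zero_add] at h
      linear_combination -h)
  have me_pi : e.pi ∈ L := of_mul ha md_al0 (mul_mem md_pi me_al0) (by
      have h := r.VP
      simp only [z5, z6, mul_zero, zero_mul, add_zero, zero_add] at h
      linear_combination -h)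
  have me_be1 : e.be1 ∈ L := of_mul ha md_al0 (sub_mem (mul_mem md_be1 me_al0) (mul_mem me_b0
      md_a0)) (by
      have h := r.VV2
      simp only [z1, z2, z8, mul_zero, zero_mul, add_zero, zero_add] at h
      linear_combination -h)
  have me_p2 : e.p2 ∈ L := of_mul ha md_al0 (sub_mem (sub_mem (sub_mem (sub_mem (add_mem (add_mem
      (add_mem (mul_mem md_p1 me_al1) (mul_mem md_p2 me_al0)) (mul_mem md_r1 me_a0)) (mul_mem
      md_et me_om)) (mul_mem me_p1 md_al1)) (mul_mem me_r0 md_a1)) (mul_mem me_r1 md_a0)) (mul_mem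
      me_et md_om)) (by
      have h := r.VW2
      simp only [z9, mul_zero, zero_mul, add_zero, zero_add] at h
      linear_combination -h)
  have me_q1 : e.q1 ∈ L := of_mul ha md_al0 (sub_mem (sub_mem (add_mem (mul_mem md_q1 me_al0)
      (mul_mem md_n me_a0)) (mul_mem me_n md_a0)) (mul_mem me_lam md_om)) (by
      have h := r.VF2
      simp only [z3, z4, z7, mul_zero, zero_mul, add_zero, zero_add] at h
      linear_combination -h)
  have me_be2 : e.be2 ∈ L := of_mul ha md_al0 (sub_mem (sub_mem (sub_mem (sub_mem (add_mem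
      (add_mem (add_mem (mul_mem md_be1 me_al1) (mul_mem md_be2 me_al0)) (mul_mem md_b1 me_a0))
      (mul_mem md_th me_om)) (mul_mem me_be1 md_al1)) (mul_mem me_b0 md_a1)) (mul_mem me_b1
      md_a0)) (mul_mem me_th md_om)) (by
      have h := r.VV3
      simp only [z1, z2, z8, mul_zero, zero_mul, add_zero, zero_add] at h
      linear_combination -h)
  exact ⟨⟨md_al0, md_al1, md_al2, md_a0, md_a1, md_om, md_be0, md_be1, md_be2, md_p1, md_p2,
      md_q0, md_q1, md_pi, md_b0, md_b1, md_r0, md_r1, md_n, md_ka, md_th, md_et, md_lam⟩,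
    ⟨me_al0, me_al1, me_al2, me_a0, me_a1, me_om, me_be0, me_be1, me_be2, me_p1, me_p2, me_q0,
        me_q1, me_pi, me_b0, me_b1, me_r0, me_r1, me_n, me_ka, me_th, me_et, me_lam⟩⟩

theorem lC2qa (hc : c5 = 0 ∨ c5 = 1) (r : Rel c5 d e) (ha : d.al0 ≠ 0)
    (z1 : d.be0 = 0) (z2 : e.be0 = 0) (z3 : d.q0 = 0) (z4 : e.q0 = 0)
    (z5 : d.lam = 0) (z6 : e.lam = 0) (hr : d.r0 ≠ 0)
    (hc' : d.r0 * e.al0 - e.r0 * d.al0 ≠ 0) (hk : d.ka ≠ 0) : Few k d e := by
  have mc' : ∀ L : IntermediateField k K, c5 ∈ L := fun L => by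
    rcases hc with rfl | rfl
    · exact zero_mem L
    · exact one_mem L
  refine ⟨![d.al0, d.al1, d.al2, d.a0, d.a1, d.om, d.be1, d.be2, d.p1, d.p2, d.pi, d.b0, d.b1,
      d.r0, d.r1, d.n, d.ka, d.th, d.et, e.al0, e.al1, e.al2, e.a0, e.a1, e.om, e.b0, e.b1, e.r0,
      e.r1, e.ka, e.et], fun L hL => ?_⟩
  have mc := mc' L
  have md_al0 : d.al0 ∈ L := hL 0
  have md_al1 : d.al1 ∈ L := hL 1
  have md_al2 : d.al2 ∈ L := hL 2
  have md_a0 : d.a0 ∈ L := hL 3
  have md_a1 : d.a1 ∈ L := hL 4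
  have md_om : d.om ∈ L := hL 5
  have md_be1 : d.be1 ∈ L := hL 6
  have md_be2 : d.be2 ∈ L := hL 7
  have md_p1 : d.p1 ∈ L := hL 8
  have md_p2 : d.p2 ∈ L := hL 9
  have md_pi : d.pi ∈ L := hL 10
  have md_b0 : d.b0 ∈ L := hL 11
  have md_b1 : d.b1 ∈ L := hL 12
  have md_r0 : d.r0 ∈ L := hL 13
  have md_r1 : d.r1 ∈ L := hL 14
  have md_n : d.n ∈ L := hL 15
  have md_ka : d.ka ∈ L := hL 16
  have md_th : d.th ∈ L := hL 17
  have md_et : d.et ∈ L := hL 18
  have me_al0 : e.al0 ∈ L := hL 19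
  have me_al1 : e.al1 ∈ L := hL 20
  have me_al2 : e.al2 ∈ L := hL 21
  have me_a0 : e.a0 ∈ L := hL 22
  have me_a1 : e.a1 ∈ L := hL 23
  have me_om : e.om ∈ L := hL 24
  have me_b0 : e.b0 ∈ L := hL 25
  have me_b1 : e.b1 ∈ L := hL 26
  have me_r0 : e.r0 ∈ L := hL 27
  have me_r1 : e.r1 ∈ L := hL 28
  have me_ka : e.ka ∈ L := hL 29
  have me_et : e.et ∈ L := hL 30
  have md_be0 : d.be0 ∈ L := by rw [z1]; exact zero_mem L
  have me_be0 : e.be0 ∈ L := by rw [z2]; exact zero_mem L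
  have md_q0 : d.q0 ∈ L := by rw [z3]; exact zero_mem L
  have me_q0 : e.q0 ∈ L := by rw [z4]; exact zero_mem L
  have md_lam : d.lam ∈ L := by rw [z5]; exact zero_mem L
  have me_lam : e.lam ∈ L := by rw [z6]; exact zero_mem L
  have me_p1 : e.p1 ∈ L := of_mul ha md_al0 (sub_mem (add_mem (mul_mem md_p1 me_al0) (mul_mem
      md_r0 me_a0)) (mul_mem me_r0 md_a0)) (by
      have h := r.VW1
      linear_combination -h)
  have me_pi : e.pi ∈ L := of_mul ha md_al0 (sub_mem (add_mem (mul_mem md_pi me_al0) (mul_mem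
      md_ka me_a0)) (mul_mem me_ka md_a0)) (by
      have h := r.VP
      linear_combination -h)
  have me_n : e.n ∈ L := of_mul hr md_r0 (sub_mem (sub_mem (add_mem (add_mem (mul_mem me_p1 md_r0)
      (mul_mem me_r0 md_n)) (mul_mem me_et md_ka)) (mul_mem md_p1 me_r0)) (mul_mem md_et me_ka))
      (by
      have h := r.FW
      linear_combination h)
  have md_q1 : d.q1 ∈ L := of_mul hc' (sub_mem (mul_mem md_r0 me_al0) (mul_mem me_r0 md_al0))
    (add_mem (sub_mem (sub_mem (mul_mem md_al0 (mul_mem me_et md_pi))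
      (mul_mem md_al0 (mul_mem md_et me_pi))) (mul_mem md_r0 (mul_mem md_n me_a0)))
      (mul_mem md_r0 (mul_mem me_n md_a0))) (by
    have h1 := r.WW2
    have h2 := r.VF2
    simp only [z1, z2, z3, z4, z5, z6, mul_zero, zero_mul, add_zero, zero_add] at h1 h2
    linear_combination d.al0 * h1 + d.r0 * h2)
  have me_be1 : e.be1 ∈ L := of_mul ha md_al0 (sub_mem (add_mem (mul_mem md_be1 me_al0) (mul_mem
      md_b0 me_a0)) (mul_mem me_b0 md_a0)) (by
      have h := r.VV2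
      simp only [z1, z2, mul_zero, zero_mul, add_zero, zero_add] at h
      linear_combination -h)
  have me_th : e.th ∈ L := of_mul hk md_ka (sub_mem (sub_mem (add_mem (add_mem (mul_mem md_be1
      me_r0) (mul_mem md_b0 me_n)) (mul_mem md_th me_ka)) (mul_mem me_be1 md_r0)) (mul_mem me_b0
      md_n)) (by
      have h := r.FV2
      simp only [z1, z2, mul_zero, zero_mul, add_zero, zero_add] at h
      linear_combination -h)
  have me_p2 : e.p2 ∈ L := of_mul ha md_al0 (sub_mem (sub_mem (sub_mem (sub_mem (add_mem (add_mem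
      (add_mem (add_mem (mul_mem md_p1 me_al1) (mul_mem md_p2 me_al0)) (mul_mem md_r0 me_a1))
      (mul_mem md_r1 me_a0)) (mul_mem md_et me_om)) (mul_mem me_p1 md_al1)) (mul_mem me_r0 md_a1))
      (mul_mem me_r1 md_a0)) (mul_mem me_et md_om)) (by
      have h := r.VW2
      linear_combination -h)
  have me_q1 : e.q1 ∈ L := of_mul ha md_al0 (sub_mem (add_mem (mul_mem md_q1 me_al0) (mul_mem md_n
      me_a0)) (mul_mem me_n md_a0)) (by
      have h := r.VF2
      simp only [z3, z4, z5, z6, mul_zero, zero_mul, add_zero, zero_add] at h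
      linear_combination -h)
  have me_be2 : e.be2 ∈ L := of_mul ha md_al0 (sub_mem (sub_mem (sub_mem (sub_mem (add_mem
      (add_mem (add_mem (add_mem (mul_mem md_be1 me_al1) (mul_mem md_be2 me_al0)) (mul_mem md_b0
      me_a1)) (mul_mem md_b1 me_a0)) (mul_mem md_th me_om)) (mul_mem me_be1 md_al1)) (mul_mem
      me_b0 md_a1)) (mul_mem me_b1 md_a0)) (mul_mem me_th md_om)) (by
      have h := r.VV3
      simp only [z1, z2, mul_zero, zero_mul, add_zero, zero_add] at h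
      linear_combination -h)
  exact ⟨⟨md_al0, md_al1, md_al2, md_a0, md_a1, md_om, md_be0, md_be1, md_be2, md_p1, md_p2,
      md_q0, md_q1, md_pi, md_b0, md_b1, md_r0, md_r1, md_n, md_ka, md_th, md_et, md_lam⟩,
    ⟨me_al0, me_al1, me_al2, me_a0, me_a1, me_om, me_be0, me_be1, me_be2, me_p1, me_p2, me_q0,
        me_q1, me_pi, me_b0, me_b1, me_r0, me_r1, me_n, me_ka, me_th, me_et, me_lam⟩⟩

theorem lC2qb (hc : c5 = 0 ∨ c5 = 1) (r : Rel c5 d e) (ha : d.al0 ≠ 0)
    (z1 : d.be0 = 0) (z2 : e.be0 = 0) (z3 : d.q0 = 0) (z4 : e.q0 = 0)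
    (z5 : d.lam = 0) (z6 : e.lam = 0) (hr : d.r0 ≠ 0)
    (hc' : d.r0 * e.al0 - e.r0 * d.al0 ≠ 0) (z7 : d.ka = 0) (hk : e.ka ≠ 0) : Few k d e := by
  have mc' : ∀ L : IntermediateField k K, c5 ∈ L := fun L => by
    rcases hc with rfl | rfl
    · exact zero_mem L
    · exact one_mem L
  refine ⟨![d.al0, d.al1, d.al2, d.a0, d.a1, d.om, d.be1, d.be2, d.p1, d.p2, d.pi, d.b0, d.b1,
      d.r0, d.r1, d.n, d.et, e.al0, e.al1, e.al2, e.a0, e.a1, e.om, e.b0, e.b1, e.r0, e.r1, e.ka,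
      e.th, e.et, 0], fun L hL => ?_⟩
  have mc := mc' L
  have md_al0 : d.al0 ∈ L := hL 0
  have md_al1 : d.al1 ∈ L := hL 1
  have md_al2 : d.al2 ∈ L := hL 2
  have md_a0 : d.a0 ∈ L := hL 3
  have md_a1 : d.a1 ∈ L := hL 4
  have md_om : d.om ∈ L := hL 5
  have md_be1 : d.be1 ∈ L := hL 6
  have md_be2 : d.be2 ∈ L := hL 7
  have md_p1 : d.p1 ∈ L := hL 8
  have md_p2 : d.p2 ∈ L := hL 9
  have md_pi : d.pi ∈ L := hL 10
  have md_b0 : d.b0 ∈ L := hL 11
  have md_b1 : d.b1 ∈ L := hL 12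
  have md_r0 : d.r0 ∈ L := hL 13
  have md_r1 : d.r1 ∈ L := hL 14
  have md_n : d.n ∈ L := hL 15
  have md_et : d.et ∈ L := hL 16
  have me_al0 : e.al0 ∈ L := hL 17
  have me_al1 : e.al1 ∈ L := hL 18
  have me_al2 : e.al2 ∈ L := hL 19
  have me_a0 : e.a0 ∈ L := hL 20
  have me_a1 : e.a1 ∈ L := hL 21
  have me_om : e.om ∈ L := hL 22
  have me_b0 : e.b0 ∈ L := hL 23
  have me_b1 : e.b1 ∈ L := hL 24
  have me_r0 : e.r0 ∈ L := hL 25
  have me_r1 : e.r1 ∈ L := hL 26
  have me_ka : e.ka ∈ L := hL 27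
  have me_th : e.th ∈ L := hL 28
  have me_et : e.et ∈ L := hL 29
  have md_be0 : d.be0 ∈ L := by rw [z1]; exact zero_mem L
  have me_be0 : e.be0 ∈ L := by rw [z2]; exact zero_mem L
  have md_q0 : d.q0 ∈ L := by rw [z3]; exact zero_mem L
  have me_q0 : e.q0 ∈ L := by rw [z4]; exact zero_mem L
  have md_lam : d.lam ∈ L := by rw [z5]; exact zero_mem L
  have me_lam : e.lam ∈ L := by rw [z6]; exact zero_mem L
  have md_ka : d.ka ∈ L := by rw [z7]; exact zero_mem L
  have me_p1 : e.p1 ∈ L := of_mul ha md_al0 (sub_mem (add_mem (mul_mem md_p1 me_al0) (mul_mem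
      md_r0 me_a0)) (mul_mem me_r0 md_a0)) (by
      have h := r.VW1
      linear_combination -h)
  have me_pi : e.pi ∈ L := of_mul ha md_al0 (sub_mem (mul_mem md_pi me_al0) (mul_mem me_ka md_a0))
      (by
      have h := r.VP
      simp only [z7, mul_zero, zero_mul, add_zero, zero_add] at h
      linear_combination -h)
  have me_n : e.n ∈ L := of_mul hr md_r0 (sub_mem (sub_mem (add_mem (mul_mem me_p1 md_r0) (mul_mem
      me_r0 md_n)) (mul_mem md_p1 me_r0)) (mul_mem md_et me_ka)) (by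
      have h := r.FW
      simp only [z7, mul_zero, zero_mul, add_zero, zero_add] at h
      linear_combination h)
  have md_q1 : d.q1 ∈ L := of_mul hc' (sub_mem (mul_mem md_r0 me_al0) (mul_mem me_r0 md_al0))
    (add_mem (sub_mem (sub_mem (mul_mem md_al0 (mul_mem me_et md_pi))
      (mul_mem md_al0 (mul_mem md_et me_pi))) (mul_mem md_r0 (mul_mem md_n me_a0)))
      (mul_mem md_r0 (mul_mem me_n md_a0))) (by
    have h1 := r.WW2
    have h2 := r.VF2
    simp only [z1, z2, z3, z4, z5, z6, mul_zero, zero_mul, add_zero, zero_add] at h1 h2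
    linear_combination d.al0 * h1 + d.r0 * h2)
  have me_be1 : e.be1 ∈ L := of_mul ha md_al0 (sub_mem (add_mem (mul_mem md_be1 me_al0) (mul_mem
      md_b0 me_a0)) (mul_mem me_b0 md_a0)) (by
      have h := r.VV2
      simp only [z1, z2, mul_zero, zero_mul, add_zero, zero_add] at h
      linear_combination -h)
  have md_th : d.th ∈ L := of_mul hk me_ka (sub_mem (sub_mem (add_mem (mul_mem me_be1 md_r0)
      (mul_mem me_b0 md_n)) (mul_mem md_be1 me_r0)) (mul_mem md_b0 me_n)) (by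
      have h := r.FV2
      simp only [z1, z2, z7, mul_zero, zero_mul, add_zero, zero_add] at h
      linear_combination h)
  have me_p2 : e.p2 ∈ L := of_mul ha md_al0 (sub_mem (sub_mem (sub_mem (sub_mem (add_mem (add_mem
      (add_mem (add_mem (mul_mem md_p1 me_al1) (mul_mem md_p2 me_al0)) (mul_mem md_r0 me_a1))
      (mul_mem md_r1 me_a0)) (mul_mem md_et me_om)) (mul_mem me_p1 md_al1)) (mul_mem me_r0 md_a1))
      (mul_mem me_r1 md_a0)) (mul_mem me_et md_om)) (by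
      have h := r.VW2
      linear_combination -h)
  have me_q1 : e.q1 ∈ L := of_mul ha md_al0 (sub_mem (add_mem (mul_mem md_q1 me_al0) (mul_mem md_n
      me_a0)) (mul_mem me_n md_a0)) (by
      have h := r.VF2
      simp only [z3, z4, z5, z6, mul_zero, zero_mul, add_zero, zero_add] at h
      linear_combination -h)
  have me_be2 : e.be2 ∈ L := of_mul ha md_al0 (sub_mem (sub_mem (sub_mem (sub_mem (add_mem
      (add_mem (add_mem (add_mem (mul_mem md_be1 me_al1) (mul_mem md_be2 me_al0)) (mul_mem md_b0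
      me_a1)) (mul_mem md_b1 me_a0)) (mul_mem md_th me_om)) (mul_mem me_be1 md_al1)) (mul_mem
      me_b0 md_a1)) (mul_mem me_b1 md_a0)) (mul_mem me_th md_om)) (by
      have h := r.VV3
      simp only [z1, z2, mul_zero, zero_mul, add_zero, zero_add] at h
      linear_combination -h)
  exact ⟨⟨md_al0, md_al1, md_al2, md_a0, md_a1, md_om, md_be0, md_be1, md_be2, md_p1, md_p2,
      md_q0, md_q1, md_pi, md_b0, md_b1, md_r0, md_r1, md_n, md_ka, md_th, md_et, md_lam⟩,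
    ⟨me_al0, me_al1, me_al2, me_a0, me_a1, me_om, me_be0, me_be1, me_be2, me_p1, me_p2, me_q0,
        me_q1, me_pi, me_b0, me_b1, me_r0, me_r1, me_n, me_ka, me_th, me_et, me_lam⟩⟩

theorem lC2qc (hc : c5 = 0 ∨ c5 = 1) (r : Rel c5 d e) (ha : d.al0 ≠ 0)
    (z1 : d.be0 = 0) (z2 : e.be0 = 0) (z3 : d.q0 = 0) (z4 : e.q0 = 0)
    (z5 : d.lam = 0) (z6 : e.lam = 0) (hr : d.r0 ≠ 0)
    (hc' : d.r0 * e.al0 - e.r0 * d.al0 ≠ 0) (z7 : d.ka = 0) (z8 : e.ka = 0) : Few k d e := by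
  have mc' : ∀ L : IntermediateField k K, c5 ∈ L := fun L => by
    rcases hc with rfl | rfl
    · exact zero_mem L
    · exact one_mem L
  refine ⟨![d.al0, d.al1, d.al2, d.a0, d.a1, d.om, d.be1, d.be2, d.p1, d.p2, d.pi, d.b0, d.b1,
      d.r0, d.r1, d.n, d.th, d.et, e.al0, e.al1, e.al2, e.a0, e.a1, e.om, e.b0, e.b1, e.r0, e.r1,
      e.th, e.et, 0], fun L hL => ?_⟩
  have mc := mc' L
  have md_al0 : d.al0 ∈ L := hL 0
  have md_al1 : d.al1 ∈ L := hL 1
  have md_al2 : d.al2 ∈ L := hL 2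
  have md_a0 : d.a0 ∈ L := hL 3
  have md_a1 : d.a1 ∈ L := hL 4
  have md_om : d.om ∈ L := hL 5
  have md_be1 : d.be1 ∈ L := hL 6
  have md_be2 : d.be2 ∈ L := hL 7
  have md_p1 : d.p1 ∈ L := hL 8
  have md_p2 : d.p2 ∈ L := hL 9
  have md_pi : d.pi ∈ L := hL 10
  have md_b0 : d.b0 ∈ L := hL 11
  have md_b1 : d.b1 ∈ L := hL 12
  have md_r0 : d.r0 ∈ L := hL 13
  have md_r1 : d.r1 ∈ L := hL 14
  have md_n : d.n ∈ L := hL 15
  have md_th : d.th ∈ L := hL 16
  have md_et : d.et ∈ L := hL 17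
  have me_al0 : e.al0 ∈ L := hL 18
  have me_al1 : e.al1 ∈ L := hL 19
  have me_al2 : e.al2 ∈ L := hL 20
  have me_a0 : e.a0 ∈ L := hL 21
  have me_a1 : e.a1 ∈ L := hL 22
  have me_om : e.om ∈ L := hL 23
  have me_b0 : e.b0 ∈ L := hL 24
  have me_b1 : e.b1 ∈ L := hL 25
  have me_r0 : e.r0 ∈ L := hL 26
  have me_r1 : e.r1 ∈ L := hL 27
  have me_th : e.th ∈ L := hL 28
  have me_et : e.et ∈ L := hL 29
  have md_be0 : d.be0 ∈ L := by rw [z1]; exact zero_mem L
  have me_be0 : e.be0 ∈ L := by rw [z2]; exact zero_mem L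
  have md_q0 : d.q0 ∈ L := by rw [z3]; exact zero_mem L
  have me_q0 : e.q0 ∈ L := by rw [z4]; exact zero_mem L
  have md_lam : d.lam ∈ L := by rw [z5]; exact zero_mem L
  have me_lam : e.lam ∈ L := by rw [z6]; exact zero_mem L
  have md_ka : d.ka ∈ L := by rw [z7]; exact zero_mem L
  have me_ka : e.ka ∈ L := by rw [z8]; exact zero_mem L
  have me_p1 : e.p1 ∈ L := of_mul ha md_al0 (sub_mem (add_mem (mul_mem md_p1 me_al0) (mul_mem
      md_r0 me_a0)) (mul_mem me_r0 md_a0)) (by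
      have h := r.VW1
      linear_combination -h)
  have me_pi : e.pi ∈ L := of_mul ha md_al0 (mul_mem md_pi me_al0) (by
      have h := r.VP
      simp only [z7, z8, mul_zero, zero_mul, add_zero, zero_add] at h
      linear_combination -h)
  have me_n : e.n ∈ L := of_mul hr md_r0 (sub_mem (add_mem (mul_mem me_p1 md_r0) (mul_mem me_r0
      md_n)) (mul_mem md_p1 me_r0)) (by
      have h := r.FW
      simp only [z7, z8, mul_zero, zero_mul, add_zero, zero_add] at h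
      linear_combination h)
  have md_q1 : d.q1 ∈ L := of_mul hc' (sub_mem (mul_mem md_r0 me_al0) (mul_mem me_r0 md_al0))
    (add_mem (sub_mem (sub_mem (mul_mem md_al0 (mul_mem me_et md_pi))
      (mul_mem md_al0 (mul_mem md_et me_pi))) (mul_mem md_r0 (mul_mem md_n me_a0)))
      (mul_mem md_r0 (mul_mem me_n md_a0))) (by
    have h1 := r.WW2
    have h2 := r.VF2
    simp only [z1, z2, z3, z4, z5, z6, mul_zero, zero_mul, add_zero, zero_add] at h1 h2
    linear_combination d.al0 * h1 + d.r0 * h2)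
  have me_be1 : e.be1 ∈ L := of_mul ha md_al0 (sub_mem (add_mem (mul_mem md_be1 me_al0) (mul_mem
      md_b0 me_a0)) (mul_mem me_b0 md_a0)) (by
      have h := r.VV2
      simp only [z1, z2, mul_zero, zero_mul, add_zero, zero_add] at h
      linear_combination -h)
  have me_p2 : e.p2 ∈ L := of_mul ha md_al0 (sub_mem (sub_mem (sub_mem (sub_mem (add_mem (add_mem
      (add_mem (add_mem (mul_mem md_p1 me_al1) (mul_mem md_p2 me_al0)) (mul_mem md_r0 me_a1))
      (mul_mem md_r1 me_a0)) (mul_mem md_et me_om)) (mul_mem me_p1 md_al1)) (mul_mem me_r0 md_a1))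
      (mul_mem me_r1 md_a0)) (mul_mem me_et md_om)) (by
      have h := r.VW2
      linear_combination -h)
  have me_q1 : e.q1 ∈ L := of_mul ha md_al0 (sub_mem (add_mem (mul_mem md_q1 me_al0) (mul_mem md_n
      me_a0)) (mul_mem me_n md_a0)) (by
      have h := r.VF2
      simp only [z3, z4, z5, z6, mul_zero, zero_mul, add_zero, zero_add] at h
      linear_combination -h)
  have me_be2 : e.be2 ∈ L := of_mul ha md_al0 (sub_mem (sub_mem (sub_mem (sub_mem (add_mem
      (add_mem (add_mem (add_mem (mul_mem md_be1 me_al1) (mul_mem md_be2 me_al0)) (mul_mem md_b0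
      me_a1)) (mul_mem md_b1 me_a0)) (mul_mem md_th me_om)) (mul_mem me_be1 md_al1)) (mul_mem
      me_b0 md_a1)) (mul_mem me_b1 md_a0)) (mul_mem me_th md_om)) (by
      have h := r.VV3
      simp only [z1, z2, mul_zero, zero_mul, add_zero, zero_add] at h
      linear_combination -h)
  exact ⟨⟨md_al0, md_al1, md_al2, md_a0, md_a1, md_om, md_be0, md_be1, md_be2, md_p1, md_p2,
      md_q0, md_q1, md_pi, md_b0, md_b1, md_r0, md_r1, md_n, md_ka, md_th, md_et, md_lam⟩,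
    ⟨me_al0, me_al1, me_al2, me_a0, me_a1, me_om, me_be0, me_be1, me_be2, me_p1, me_p2, me_q0,
        me_q1, me_pi, me_b0, me_b1, me_r0, me_r1, me_n, me_ka, me_th, me_et, me_lam⟩⟩

theorem lC2ra (hc : c5 = 0 ∨ c5 = 1) (r : Rel c5 d e) (ha : d.al0 ≠ 0)
    (z1 : d.be0 = 0) (z2 : e.be0 = 0) (z3 : d.q0 = 0) (z4 : e.q0 = 0)
    (z5 : d.lam = 0) (z6 : e.lam = 0) (hr : d.r0 ≠ 0)
    (hc' : d.r0 * e.al0 - e.r0 * d.al0 = 0) (hk : d.ka ≠ 0) : Few k d e := by
  have mc' : ∀ L : IntermediateField k K, c5 ∈ L := fun L => by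
    rcases hc with rfl | rfl
    · exact zero_mem L
    · exact one_mem L
  refine ⟨![d.al0, d.al1, d.al2, d.a0, d.a1, d.om, d.be1, d.be2, d.p1, d.p2, d.q1, d.pi, d.b0,
      d.b1, d.r0, d.r1, d.n, d.ka, d.th, d.et, e.al0, e.al1, e.al2, e.a0, e.a1, e.om, e.b0, e.b1,
      e.r1, e.ka, e.et], fun L hL => ?_⟩
  have mc := mc' L
  have md_al0 : d.al0 ∈ L := hL 0
  have md_al1 : d.al1 ∈ L := hL 1
  have md_al2 : d.al2 ∈ L := hL 2
  have md_a0 : d.a0 ∈ L := hL 3
  have md_a1 : d.a1 ∈ L := hL 4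
  have md_om : d.om ∈ L := hL 5
  have md_be1 : d.be1 ∈ L := hL 6
  have md_be2 : d.be2 ∈ L := hL 7
  have md_p1 : d.p1 ∈ L := hL 8
  have md_p2 : d.p2 ∈ L := hL 9
  have md_q1 : d.q1 ∈ L := hL 10
  have md_pi : d.pi ∈ L := hL 11
  have md_b0 : d.b0 ∈ L := hL 12
  have md_b1 : d.b1 ∈ L := hL 13
  have md_r0 : d.r0 ∈ L := hL 14
  have md_r1 : d.r1 ∈ L := hL 15
  have md_n : d.n ∈ L := hL 16
  have md_ka : d.ka ∈ L := hL 17
  have md_th : d.th ∈ L := hL 18
  have md_et : d.et ∈ L := hL 19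
  have me_al0 : e.al0 ∈ L := hL 20
  have me_al1 : e.al1 ∈ L := hL 21
  have me_al2 : e.al2 ∈ L := hL 22
  have me_a0 : e.a0 ∈ L := hL 23
  have me_a1 : e.a1 ∈ L := hL 24
  have me_om : e.om ∈ L := hL 25
  have me_b0 : e.b0 ∈ L := hL 26
  have me_b1 : e.b1 ∈ L := hL 27
  have me_r1 : e.r1 ∈ L := hL 28
  have me_ka : e.ka ∈ L := hL 29
  have me_et : e.et ∈ L := hL 30
  have md_be0 : d.be0 ∈ L := by rw [z1]; exact zero_mem L
  have me_be0 : e.be0 ∈ L := by rw [z2]; exact zero_mem L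
  have md_q0 : d.q0 ∈ L := by rw [z3]; exact zero_mem L
  have me_q0 : e.q0 ∈ L := by rw [z4]; exact zero_mem L
  have md_lam : d.lam ∈ L := by rw [z5]; exact zero_mem L
  have me_lam : e.lam ∈ L := by rw [z6]; exact zero_mem L
  have me_r0 : e.r0 ∈ L := of_mul ha md_al0 (mul_mem md_r0 me_al0) (by
    linear_combination -hc')
  have me_p1 : e.p1 ∈ L := of_mul ha md_al0 (sub_mem (add_mem (mul_mem md_p1 me_al0) (mul_mem
      md_r0 me_a0)) (mul_mem me_r0 md_a0)) (by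
      have h := r.VW1
      linear_combination -h)
  have me_pi : e.pi ∈ L := of_mul ha md_al0 (sub_mem (add_mem (mul_mem md_pi me_al0) (mul_mem
      md_ka me_a0)) (mul_mem me_ka md_a0)) (by
      have h := r.VP
      linear_combination -h)
  have me_n : e.n ∈ L := of_mul hr md_r0 (sub_mem (sub_mem (add_mem (add_mem (mul_mem me_p1 md_r0)
      (mul_mem me_r0 md_n)) (mul_mem me_et md_ka)) (mul_mem md_p1 me_r0)) (mul_mem md_et me_ka))
      (by
      have h := r.FW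
      linear_combination h)
  have me_be1 : e.be1 ∈ L := of_mul ha md_al0 (sub_mem (add_mem (mul_mem md_be1 me_al0) (mul_mem
      md_b0 me_a0)) (mul_mem me_b0 md_a0)) (by
      have h := r.VV2
      simp only [z1, z2, mul_zero, zero_mul, add_zero, zero_add] at h
      linear_combination -h)
  have me_th : e.th ∈ L := of_mul hk md_ka (sub_mem (sub_mem (add_mem (add_mem (mul_mem md_be1
      me_r0) (mul_mem md_b0 me_n)) (mul_mem md_th me_ka)) (mul_mem me_be1 md_r0)) (mul_mem me_b0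
      md_n)) (by
      have h := r.FV2
      simp only [z1, z2, mul_zero, zero_mul, add_zero, zero_add] at h
      linear_combination -h)
  have me_p2 : e.p2 ∈ L := of_mul ha md_al0 (sub_mem (sub_mem (sub_mem (sub_mem (add_mem (add_mem
      (add_mem (add_mem (mul_mem md_p1 me_al1) (mul_mem md_p2 me_al0)) (mul_mem md_r0 me_a1))
      (mul_mem md_r1 me_a0)) (mul_mem md_et me_om)) (mul_mem me_p1 md_al1)) (mul_mem me_r0 md_a1))
      (mul_mem me_r1 md_a0)) (mul_mem me_et md_om)) (by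
      have h := r.VW2
      linear_combination -h)
  have me_q1 : e.q1 ∈ L := of_mul ha md_al0 (sub_mem (add_mem (mul_mem md_q1 me_al0) (mul_mem md_n
      me_a0)) (mul_mem me_n md_a0)) (by
      have h := r.VF2
      simp only [z3, z4, z5, z6, mul_zero, zero_mul, add_zero, zero_add] at h
      linear_combination -h)
  have me_be2 : e.be2 ∈ L := of_mul ha md_al0 (sub_mem (sub_mem (sub_mem (sub_mem (add_mem
      (add_mem (add_mem (add_mem (mul_mem md_be1 me_al1) (mul_mem md_be2 me_al0)) (mul_mem md_b0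
      me_a1)) (mul_mem md_b1 me_a0)) (mul_mem md_th me_om)) (mul_mem me_be1 md_al1)) (mul_mem
      me_b0 md_a1)) (mul_mem me_b1 md_a0)) (mul_mem me_th md_om)) (by
      have h := r.VV3
      simp only [z1, z2, mul_zero, zero_mul, add_zero, zero_add] at h
      linear_combination -h)
  exact ⟨⟨md_al0, md_al1, md_al2, md_a0, md_a1, md_om, md_be0, md_be1, md_be2, md_p1, md_p2,
      md_q0, md_q1, md_pi, md_b0, md_b1, md_r0, md_r1, md_n, md_ka, md_th, md_et, md_lam⟩,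
    ⟨me_al0, me_al1, me_al2, me_a0, me_a1, me_om, me_be0, me_be1, me_be2, me_p1, me_p2, me_q0,
        me_q1, me_pi, me_b0, me_b1, me_r0, me_r1, me_n, me_ka, me_th, me_et, me_lam⟩⟩

theorem lC2rb (hc : c5 = 0 ∨ c5 = 1) (r : Rel c5 d e) (ha : d.al0 ≠ 0)
    (z1 : d.be0 = 0) (z2 : e.be0 = 0) (z3 : d.q0 = 0) (z4 : e.q0 = 0)
    (z5 : d.lam = 0) (z6 : e.lam = 0) (hr : d.r0 ≠ 0)
    (hc' : d.r0 * e.al0 - e.r0 * d.al0 = 0) (z7 : d.ka = 0) (hk : e.ka ≠ 0) : Few k d e := by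
  have mc' : ∀ L : IntermediateField k K, c5 ∈ L := fun L => by
    rcases hc with rfl | rfl
    · exact zero_mem L
    · exact one_mem L
  refine ⟨![d.al0, d.al1, d.al2, d.a0, d.a1, d.om, d.be1, d.be2, d.p1, d.p2, d.q1, d.pi, d.b0,
      d.b1, d.r0, d.r1, d.n, d.et, e.al0, e.al1, e.al2, e.a0, e.a1, e.om, e.b0, e.b1, e.r1, e.ka,
      e.th, e.et, 0], fun L hL => ?_⟩
  have mc := mc' L
  have md_al0 : d.al0 ∈ L := hL 0
  have md_al1 : d.al1 ∈ L := hL 1
  have md_al2 : d.al2 ∈ L := hL 2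
  have md_a0 : d.a0 ∈ L := hL 3
  have md_a1 : d.a1 ∈ L := hL 4
  have md_om : d.om ∈ L := hL 5
  have md_be1 : d.be1 ∈ L := hL 6
  have md_be2 : d.be2 ∈ L := hL 7
  have md_p1 : d.p1 ∈ L := hL 8
  have md_p2 : d.p2 ∈ L := hL 9
  have md_q1 : d.q1 ∈ L := hL 10
  have md_pi : d.pi ∈ L := hL 11
  have md_b0 : d.b0 ∈ L := hL 12
  have md_b1 : d.b1 ∈ L := hL 13
  have md_r0 : d.r0 ∈ L := hL 14
  have md_r1 : d.r1 ∈ L := hL 15
  have md_n : d.n ∈ L := hL 16
  have md_et : d.et ∈ L := hL 17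
  have me_al0 : e.al0 ∈ L := hL 18
  have me_al1 : e.al1 ∈ L := hL 19
  have me_al2 : e.al2 ∈ L := hL 20
  have me_a0 : e.a0 ∈ L := hL 21
  have me_a1 : e.a1 ∈ L := hL 22
  have me_om : e.om ∈ L := hL 23
  have me_b0 : e.b0 ∈ L := hL 24
  have me_b1 : e.b1 ∈ L := hL 25
  have me_r1 : e.r1 ∈ L := hL 26
  have me_ka : e.ka ∈ L := hL 27
  have me_th : e.th ∈ L := hL 28
  have me_et : e.et ∈ L := hL 29
  have md_be0 : d.be0 ∈ L := by rw [z1]; exact zero_mem L
  have me_be0 : e.be0 ∈ L := by rw [z2]; exact zero_mem L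
  have md_q0 : d.q0 ∈ L := by rw [z3]; exact zero_mem L
  have me_q0 : e.q0 ∈ L := by rw [z4]; exact zero_mem L
  have md_lam : d.lam ∈ L := by rw [z5]; exact zero_mem L
  have me_lam : e.lam ∈ L := by rw [z6]; exact zero_mem L
  have md_ka : d.ka ∈ L := by rw [z7]; exact zero_mem L
  have me_r0 : e.r0 ∈ L := of_mul ha md_al0 (mul_mem md_r0 me_al0) (by
    linear_combination -hc')
  have me_p1 : e.p1 ∈ L := of_mul ha md_al0 (sub_mem (add_mem (mul_mem md_p1 me_al0) (mul_mem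
      md_r0 me_a0)) (mul_mem me_r0 md_a0)) (by
      have h := r.VW1
      linear_combination -h)
  have me_pi : e.pi ∈ L := of_mul ha md_al0 (sub_mem (mul_mem md_pi me_al0) (mul_mem me_ka md_a0))
      (by
      have h := r.VP
      simp only [z7, mul_zero, zero_mul, add_zero, zero_add] at h
      linear_combination -h)
  have me_n : e.n ∈ L := of_mul hr md_r0 (sub_mem (sub_mem (add_mem (mul_mem me_p1 md_r0) (mul_mem
      me_r0 md_n)) (mul_mem md_p1 me_r0)) (mul_mem md_et me_ka)) (by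
      have h := r.FW
      simp only [z7, mul_zero, zero_mul, add_zero, zero_add] at h
      linear_combination h)
  have me_be1 : e.be1 ∈ L := of_mul ha md_al0 (sub_mem (add_mem (mul_mem md_be1 me_al0) (mul_mem
      md_b0 me_a0)) (mul_mem me_b0 md_a0)) (by
      have h := r.VV2
      simp only [z1, z2, mul_zero, zero_mul, add_zero, zero_add] at h
      linear_combination -h)
  have md_th : d.th ∈ L := of_mul hk me_ka (sub_mem (sub_mem (add_mem (mul_mem me_be1 md_r0)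
      (mul_mem me_b0 md_n)) (mul_mem md_be1 me_r0)) (mul_mem md_b0 me_n)) (by
      have h := r.FV2
      simp only [z1, z2, z7, mul_zero, zero_mul, add_zero, zero_add] at h
      linear_combination h)
  have me_p2 : e.p2 ∈ L := of_mul ha md_al0 (sub_mem (sub_mem (sub_mem (sub_mem (add_mem (add_mem
      (add_mem (add_mem (mul_mem md_p1 me_al1) (mul_mem md_p2 me_al0)) (mul_mem md_r0 me_a1))
      (mul_mem md_r1 me_a0)) (mul_mem md_et me_om)) (mul_mem me_p1 md_al1)) (mul_mem me_r0 md_a1))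
      (mul_mem me_r1 md_a0)) (mul_mem me_et md_om)) (by
      have h := r.VW2
      linear_combination -h)
  have me_q1 : e.q1 ∈ L := of_mul ha md_al0 (sub_mem (add_mem (mul_mem md_q1 me_al0) (mul_mem md_n
      me_a0)) (mul_mem me_n md_a0)) (by
      have h := r.VF2
      simp only [z3, z4, z5, z6, mul_zero, zero_mul, add_zero, zero_add] at h
      linear_combination -h)
  have me_be2 : e.be2 ∈ L := of_mul ha md_al0 (sub_mem (sub_mem (sub_mem (sub_mem (add_mem
      (add_mem (add_mem (add_mem (mul_mem md_be1 me_al1) (mul_mem md_be2 me_al0)) (mul_mem md_b0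
      me_a1)) (mul_mem md_b1 me_a0)) (mul_mem md_th me_om)) (mul_mem me_be1 md_al1)) (mul_mem
      me_b0 md_a1)) (mul_mem me_b1 md_a0)) (mul_mem me_th md_om)) (by
      have h := r.VV3
      simp only [z1, z2, mul_zero, zero_mul, add_zero, zero_add] at h
      linear_combination -h)
  exact ⟨⟨md_al0, md_al1, md_al2, md_a0, md_a1, md_om, md_be0, md_be1, md_be2, md_p1, md_p2,
      md_q0, md_q1, md_pi, md_b0, md_b1, md_r0, md_r1, md_n, md_ka, md_th, md_et, md_lam⟩,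
    ⟨me_al0, me_al1, me_al2, me_a0, me_a1, me_om, me_be0, me_be1, me_be2, me_p1, me_p2, me_q0,
        me_q1, me_pi, me_b0, me_b1, me_r0, me_r1, me_n, me_ka, me_th, me_et, me_lam⟩⟩

theorem lC2rc (hc : c5 = 0 ∨ c5 = 1) (r : Rel c5 d e) (ha : d.al0 ≠ 0)
    (z1 : d.be0 = 0) (z2 : e.be0 = 0) (z3 : d.q0 = 0) (z4 : e.q0 = 0)
    (z5 : d.lam = 0) (z6 : e.lam = 0) (hr : d.r0 ≠ 0)
    (hc' : d.r0 * e.al0 - e.r0 * d.al0 = 0) (z7 : d.ka = 0) (z8 : e.ka = 0) : Few k d e := by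
  have mc' : ∀ L : IntermediateField k K, c5 ∈ L := fun L => by
    rcases hc with rfl | rfl
    · exact zero_mem L
    · exact one_mem L
  refine ⟨![d.al0, d.al1, d.al2, d.a0, d.a1, d.om, d.be1, d.be2, d.p1, d.p2, d.q1, d.pi, d.b0,
      d.b1, d.r0, d.r1, d.n, d.th, d.et, e.al0, e.al1, e.al2, e.a0, e.a1, e.om, e.b0, e.b1, e.r1,
      e.th, e.et, 0], fun L hL => ?_⟩
  have mc := mc' L
  have md_al0 : d.al0 ∈ L := hL 0
  have md_al1 : d.al1 ∈ L := hL 1
  have md_al2 : d.al2 ∈ L := hL 2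
  have md_a0 : d.a0 ∈ L := hL 3
  have md_a1 : d.a1 ∈ L := hL 4
  have md_om : d.om ∈ L := hL 5
  have md_be1 : d.be1 ∈ L := hL 6
  have md_be2 : d.be2 ∈ L := hL 7
  have md_p1 : d.p1 ∈ L := hL 8
  have md_p2 : d.p2 ∈ L := hL 9
  have md_q1 : d.q1 ∈ L := hL 10
  have md_pi : d.pi ∈ L := hL 11
  have md_b0 : d.b0 ∈ L := hL 12
  have md_b1 : d.b1 ∈ L := hL 13
  have md_r0 : d.r0 ∈ L := hL 14
  have md_r1 : d.r1 ∈ L := hL 15
  have md_n : d.n ∈ L := hL 16
  have md_th : d.th ∈ L := hL 17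
  have md_et : d.et ∈ L := hL 18
  have me_al0 : e.al0 ∈ L := hL 19
  have me_al1 : e.al1 ∈ L := hL 20
  have me_al2 : e.al2 ∈ L := hL 21
  have me_a0 : e.a0 ∈ L := hL 22
  have me_a1 : e.a1 ∈ L := hL 23
  have me_om : e.om ∈ L := hL 24
  have me_b0 : e.b0 ∈ L := hL 25
  have me_b1 : e.b1 ∈ L := hL 26
  have me_r1 : e.r1 ∈ L := hL 27
  have me_th : e.th ∈ L := hL 28
  have me_et : e.et ∈ L := hL 29
  have md_be0 : d.be0 ∈ L := by rw [z1]; exact zero_mem L
  have me_be0 : e.be0 ∈ L := by rw [z2]; exact zero_mem L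
  have md_q0 : d.q0 ∈ L := by rw [z3]; exact zero_mem L
  have me_q0 : e.q0 ∈ L := by rw [z4]; exact zero_mem L
  have md_lam : d.lam ∈ L := by rw [z5]; exact zero_mem L
  have me_lam : e.lam ∈ L := by rw [z6]; exact zero_mem L
  have md_ka : d.ka ∈ L := by rw [z7]; exact zero_mem L
  have me_ka : e.ka ∈ L := by rw [z8]; exact zero_mem L
  have me_r0 : e.r0 ∈ L := of_mul ha md_al0 (mul_mem md_r0 me_al0) (by
    linear_combination -hc')
  have me_p1 : e.p1 ∈ L := of_mul ha md_al0 (sub_mem (add_mem (mul_mem md_p1 me_al0) (mul_mem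
      md_r0 me_a0)) (mul_mem me_r0 md_a0)) (by
      have h := r.VW1
      linear_combination -h)
  have me_pi : e.pi ∈ L := of_mul ha md_al0 (mul_mem md_pi me_al0) (by
      have h := r.VP
      simp only [z7, z8, mul_zero, zero_mul, add_zero, zero_add] at h
      linear_combination -h)
  have me_n : e.n ∈ L := of_mul hr md_r0 (sub_mem (add_mem (mul_mem me_p1 md_r0) (mul_mem me_r0
      md_n)) (mul_mem md_p1 me_r0)) (by
      have h := r.FW
      simp only [z7, z8, mul_zero, zero_mul, add_zero, zero_add] at h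
      linear_combination h)
  have me_be1 : e.be1 ∈ L := of_mul ha md_al0 (sub_mem (add_mem (mul_mem md_be1 me_al0) (mul_mem
      md_b0 me_a0)) (mul_mem me_b0 md_a0)) (by
      have h := r.VV2
      simp only [z1, z2, mul_zero, zero_mul, add_zero, zero_add] at h
      linear_combination -h)
  have me_p2 : e.p2 ∈ L := of_mul ha md_al0 (sub_mem (sub_mem (sub_mem (sub_mem (add_mem (add_mem
      (add_mem (add_mem (mul_mem md_p1 me_al1) (mul_mem md_p2 me_al0)) (mul_mem md_r0 me_a1))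
      (mul_mem md_r1 me_a0)) (mul_mem md_et me_om)) (mul_mem me_p1 md_al1)) (mul_mem me_r0 md_a1))
      (mul_mem me_r1 md_a0)) (mul_mem me_et md_om)) (by
      have h := r.VW2
      linear_combination -h)
  have me_q1 : e.q1 ∈ L := of_mul ha md_al0 (sub_mem (add_mem (mul_mem md_q1 me_al0) (mul_mem md_n
      me_a0)) (mul_mem me_n md_a0)) (by
      have h := r.VF2
      simp only [z3, z4, z5, z6, mul_zero, zero_mul, add_zero, zero_add] at h
      linear_combination -h)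
  have me_be2 : e.be2 ∈ L := of_mul ha md_al0 (sub_mem (sub_mem (sub_mem (sub_mem (add_mem
      (add_mem (add_mem (add_mem (mul_mem md_be1 me_al1) (mul_mem md_be2 me_al0)) (mul_mem md_b0
      me_a1)) (mul_mem md_b1 me_a0)) (mul_mem md_th me_om)) (mul_mem me_be1 md_al1)) (mul_mem
      me_b0 md_a1)) (mul_mem me_b1 md_a0)) (mul_mem me_th md_om)) (by
      have h := r.VV3
      simp only [z1, z2, mul_zero, zero_mul, add_zero, zero_add] at h
      linear_combination -h)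
  exact ⟨⟨md_al0, md_al1, md_al2, md_a0, md_a1, md_om, md_be0, md_be1, md_be2, md_p1, md_p2,
      md_q0, md_q1, md_pi, md_b0, md_b1, md_r0, md_r1, md_n, md_ka, md_th, md_et, md_lam⟩,
    ⟨me_al0, me_al1, me_al2, me_a0, me_a1, me_om, me_be0, me_be1, me_be2, me_p1, me_p2, me_q0,
        me_q1, me_pi, me_b0, me_b1, me_r0, me_r1, me_n, me_ka, me_th, me_et, me_lam⟩⟩

theorem lC3 (hc : c5 = 0 ∨ c5 = 1) (r : Rel c5 d e) (ha : d.al0 ≠ 0)
    (z1 : d.be0 = 0) (z2 : e.be0 = 0) (z3 : d.q0 = 0) (z4 : e.q0 = 0)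
    (z5 : d.lam = 0) (z6 : e.lam = 0) (z7 : d.r0 = 0) (hr : e.r0 ≠ 0) : Few k d e := by
  have mc' : ∀ L : IntermediateField k K, c5 ∈ L := fun L => by
    rcases hc with rfl | rfl
    · exact zero_mem L
    · exact one_mem L
  refine ⟨![d.al0, d.al1, d.al2, d.a0, d.a1, d.om, d.be1, d.be2, d.p2, d.pi, d.b0, d.b1, d.r1,
      d.n, d.ka, d.th, d.et, e.al0, e.al1, e.al2, e.a0, e.a1, e.om, e.b0, e.b1, e.r0, e.r1, e.n,
      e.ka, e.th, e.et], fun L hL => ?_⟩
  have mc := mc' L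
  have md_al0 : d.al0 ∈ L := hL 0
  have md_al1 : d.al1 ∈ L := hL 1
  have md_al2 : d.al2 ∈ L := hL 2
  have md_a0 : d.a0 ∈ L := hL 3
  have md_a1 : d.a1 ∈ L := hL 4
  have md_om : d.om ∈ L := hL 5
  have md_be1 : d.be1 ∈ L := hL 6
  have md_be2 : d.be2 ∈ L := hL 7
  have md_p2 : d.p2 ∈ L := hL 8
  have md_pi : d.pi ∈ L := hL 9
  have md_b0 : d.b0 ∈ L := hL 10
  have md_b1 : d.b1 ∈ L := hL 11
  have md_r1 : d.r1 ∈ L := hL 12
  have md_n : d.n ∈ L := hL 13
  have md_ka : d.ka ∈ L := hL 14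
  have md_th : d.th ∈ L := hL 15
  have md_et : d.et ∈ L := hL 16
  have me_al0 : e.al0 ∈ L := hL 17
  have me_al1 : e.al1 ∈ L := hL 18
  have me_al2 : e.al2 ∈ L := hL 19
  have me_a0 : e.a0 ∈ L := hL 20
  have me_a1 : e.a1 ∈ L := hL 21
  have me_om : e.om ∈ L := hL 22
  have me_b0 : e.b0 ∈ L := hL 23
  have me_b1 : e.b1 ∈ L := hL 24
  have me_r0 : e.r0 ∈ L := hL 25
  have me_r1 : e.r1 ∈ L := hL 26
  have me_n : e.n ∈ L := hL 27
  have me_ka : e.ka ∈ L := hL 28
  have me_th : e.th ∈ L := hL 29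
  have me_et : e.et ∈ L := hL 30
  have md_be0 : d.be0 ∈ L := by rw [z1]; exact zero_mem L
  have me_be0 : e.be0 ∈ L := by rw [z2]; exact zero_mem L
  have md_q0 : d.q0 ∈ L := by rw [z3]; exact zero_mem L
  have me_q0 : e.q0 ∈ L := by rw [z4]; exact zero_mem L
  have md_lam : d.lam ∈ L := by rw [z5]; exact zero_mem L
  have me_lam : e.lam ∈ L := by rw [z6]; exact zero_mem L
  have md_r0 : d.r0 ∈ L := by rw [z7]; exact zero_mem L
  have md_p1 : d.p1 ∈ L := of_mul hr me_r0 (sub_mem (add_mem (mul_mem me_r0 md_n) (mul_mem me_et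
      md_ka)) (mul_mem md_et me_ka)) (by
      have h := r.FW
      simp only [z7, mul_zero, zero_mul, add_zero, zero_add] at h
      linear_combination h)
  have me_pi : e.pi ∈ L := of_mul ha md_al0 (sub_mem (add_mem (mul_mem md_pi me_al0) (mul_mem
      md_ka me_a0)) (mul_mem me_ka md_a0)) (by
      have h := r.VP
      linear_combination -h)
  have md_q1 : d.q1 ∈ L := of_mul hr me_r0 (sub_mem (mul_mem md_et me_pi) (mul_mem me_et md_pi))
      (by
      have h := r.WW2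
      simp only [z1, z2, z3, z4, z7, mul_zero, zero_mul, add_zero, zero_add] at h
      linear_combination -h)
  have me_p1 : e.p1 ∈ L := of_mul ha md_al0 (sub_mem (mul_mem md_p1 me_al0) (mul_mem me_r0 md_a0))
      (by
      have h := r.VW1
      simp only [z7, mul_zero, zero_mul, add_zero, zero_add] at h
      linear_combination -h)
  have me_be1 : e.be1 ∈ L := of_mul ha md_al0 (sub_mem (add_mem (mul_mem md_be1 me_al0) (mul_mem
      md_b0 me_a0)) (mul_mem me_b0 md_a0)) (by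
      have h := r.VV2
      simp only [z1, z2, mul_zero, zero_mul, add_zero, zero_add] at h
      linear_combination -h)
  have me_p2 : e.p2 ∈ L := of_mul ha md_al0 (sub_mem (sub_mem (sub_mem (sub_mem (add_mem (add_mem
      (add_mem (mul_mem md_p1 me_al1) (mul_mem md_p2 me_al0)) (mul_mem md_r1 me_a0)) (mul_mem
      md_et me_om)) (mul_mem me_p1 md_al1)) (mul_mem me_r0 md_a1)) (mul_mem me_r1 md_a0)) (mul_mem
      me_et md_om)) (by
      have h := r.VW2
      simp only [z7, mul_zero, zero_mul, add_zero, zero_add] at h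
      linear_combination -h)
  have me_q1 : e.q1 ∈ L := of_mul ha md_al0 (sub_mem (add_mem (mul_mem md_q1 me_al0) (mul_mem md_n
      me_a0)) (mul_mem me_n md_a0)) (by
      have h := r.VF2
      simp only [z3, z4, z5, z6, mul_zero, zero_mul, add_zero, zero_add] at h
      linear_combination -h)
  have me_be2 : e.be2 ∈ L := of_mul ha md_al0 (sub_mem (sub_mem (sub_mem (sub_mem (add_mem
      (add_mem (add_mem (add_mem (mul_mem md_be1 me_al1) (mul_mem md_be2 me_al0)) (mul_mem md_b0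
      me_a1)) (mul_mem md_b1 me_a0)) (mul_mem md_th me_om)) (mul_mem me_be1 md_al1)) (mul_mem
      me_b0 md_a1)) (mul_mem me_b1 md_a0)) (mul_mem me_th md_om)) (by
      have h := r.VV3
      simp only [z1, z2, mul_zero, zero_mul, add_zero, zero_add] at h
      linear_combination -h)
  exact ⟨⟨md_al0, md_al1, md_al2, md_a0, md_a1, md_om, md_be0, md_be1, md_be2, md_p1, md_p2,
      md_q0, md_q1, md_pi, md_b0, md_b1, md_r0, md_r1, md_n, md_ka, md_th, md_et, md_lam⟩,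
    ⟨me_al0, me_al1, me_al2, me_a0, me_a1, me_om, me_be0, me_be1, me_be2, me_p1, me_p2, me_q0,
        me_q1, me_pi, me_b0, me_b1, me_r0, me_r1, me_n, me_ka, me_th, me_et, me_lam⟩⟩

theorem lC4a (hc : c5 = 0 ∨ c5 = 1) (r : Rel c5 d e) (ha : d.al0 ≠ 0)
    (z1 : d.be0 = 0) (z2 : e.be0 = 0) (z3 : d.q0 = 0) (z4 : e.q0 = 0)
    (z5 : d.lam = 0) (z6 : e.lam = 0) (z7 : d.r0 = 0) (z8 : e.r0 = 0)
    (hb : d.b0 ≠ 0) : Few k d e := by
  have mc' : ∀ L : IntermediateField k K, c5 ∈ L := fun L => by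
    rcases hc with rfl | rfl
    · exact zero_mem L
    · exact one_mem L
  refine ⟨![d.al0, d.al1, d.al2, d.a0, d.a1, d.om, d.be1, d.be2, d.p1, d.p2, d.q1, d.pi, d.b0,
      d.b1, d.r1, d.n, d.ka, d.th, d.et, e.al0, e.al1, e.al2, e.a0, e.a1, e.om, e.b0, e.b1, e.r1,
      e.ka, e.th, e.et], fun L hL => ?_⟩
  have mc := mc' L
  have md_al0 : d.al0 ∈ L := hL 0
  have md_al1 : d.al1 ∈ L := hL 1
  have md_al2 : d.al2 ∈ L := hL 2
  have md_a0 : d.a0 ∈ L := hL 3
  have md_a1 : d.a1 ∈ L := hL 4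
  have md_om : d.om ∈ L := hL 5
  have md_be1 : d.be1 ∈ L := hL 6
  have md_be2 : d.be2 ∈ L := hL 7
  have md_p1 : d.p1 ∈ L := hL 8
  have md_p2 : d.p2 ∈ L := hL 9
  have md_q1 : d.q1 ∈ L := hL 10
  have md_pi : d.pi ∈ L := hL 11
  have md_b0 : d.b0 ∈ L := hL 12
  have md_b1 : d.b1 ∈ L := hL 13
  have md_r1 : d.r1 ∈ L := hL 14
  have md_n : d.n ∈ L := hL 15
  have md_ka : d.ka ∈ L := hL 16
  have md_th : d.th ∈ L := hL 17
  have md_et : d.et ∈ L := hL 18
  have me_al0 : e.al0 ∈ L := hL 19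
  have me_al1 : e.al1 ∈ L := hL 20
  have me_al2 : e.al2 ∈ L := hL 21
  have me_a0 : e.a0 ∈ L := hL 22
  have me_a1 : e.a1 ∈ L := hL 23
  have me_om : e.om ∈ L := hL 24
  have me_b0 : e.b0 ∈ L := hL 25
  have me_b1 : e.b1 ∈ L := hL 26
  have me_r1 : e.r1 ∈ L := hL 27
  have me_ka : e.ka ∈ L := hL 28
  have me_th : e.th ∈ L := hL 29
  have me_et : e.et ∈ L := hL 30
  have md_be0 : d.be0 ∈ L := by rw [z1]; exact zero_mem L
  have me_be0 : e.be0 ∈ L := by rw [z2]; exact zero_mem L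
  have md_q0 : d.q0 ∈ L := by rw [z3]; exact zero_mem L
  have me_q0 : e.q0 ∈ L := by rw [z4]; exact zero_mem L
  have md_lam : d.lam ∈ L := by rw [z5]; exact zero_mem L
  have me_lam : e.lam ∈ L := by rw [z6]; exact zero_mem L
  have md_r0 : d.r0 ∈ L := by rw [z7]; exact zero_mem L
  have me_r0 : e.r0 ∈ L := by rw [z8]; exact zero_mem L
  have me_p1 : e.p1 ∈ L := of_mul ha md_al0 (mul_mem md_p1 me_al0) (by
      have h := r.VW1
      simp only [z7, z8, mul_zero, zero_mul, add_zero, zero_add] at h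
      linear_combination -h)
  have me_pi : e.pi ∈ L := of_mul ha md_al0 (sub_mem (add_mem (mul_mem md_pi me_al0) (mul_mem
      md_ka me_a0)) (mul_mem me_ka md_a0)) (by
      have h := r.VP
      linear_combination -h)
  have me_be1 : e.be1 ∈ L := of_mul ha md_al0 (sub_mem (add_mem (mul_mem md_be1 me_al0) (mul_mem
      md_b0 me_a0)) (mul_mem me_b0 md_a0)) (by
      have h := r.VV2
      simp only [z1, z2, mul_zero, zero_mul, add_zero, zero_add] at h
      linear_combination -h)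
  have me_n : e.n ∈ L := of_mul hb md_b0 (sub_mem (add_mem (mul_mem me_b0 md_n) (mul_mem me_th
      md_ka)) (mul_mem md_th me_ka)) (by
      have h := r.FV2
      simp only [z1, z2, z7, z8, mul_zero, zero_mul, add_zero, zero_add] at h
      linear_combination h)
  have me_p2 : e.p2 ∈ L := of_mul ha md_al0 (sub_mem (sub_mem (sub_mem (add_mem (add_mem (add_mem
      (mul_mem md_p1 me_al1) (mul_mem md_p2 me_al0)) (mul_mem md_r1 me_a0)) (mul_mem md_et me_om))
      (mul_mem me_p1 md_al1)) (mul_mem me_r1 md_a0)) (mul_mem me_et md_om)) (by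
      have h := r.VW2
      simp only [z7, z8, mul_zero, zero_mul, add_zero, zero_add] at h
      linear_combination -h)
  have me_q1 : e.q1 ∈ L := of_mul ha md_al0 (sub_mem (add_mem (mul_mem md_q1 me_al0) (mul_mem md_n
      me_a0)) (mul_mem me_n md_a0)) (by
      have h := r.VF2
      simp only [z3, z4, z5, z6, mul_zero, zero_mul, add_zero, zero_add] at h
      linear_combination -h)
  have me_be2 : e.be2 ∈ L := of_mul ha md_al0 (sub_mem (sub_mem (sub_mem (sub_mem (add_mem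
      (add_mem (add_mem (add_mem (mul_mem md_be1 me_al1) (mul_mem md_be2 me_al0)) (mul_mem md_b0
      me_a1)) (mul_mem md_b1 me_a0)) (mul_mem md_th me_om)) (mul_mem me_be1 md_al1)) (mul_mem
      me_b0 md_a1)) (mul_mem me_b1 md_a0)) (mul_mem me_th md_om)) (by
      have h := r.VV3
      simp only [z1, z2, mul_zero, zero_mul, add_zero, zero_add] at h
      linear_combination -h)
  exact ⟨⟨md_al0, md_al1, md_al2, md_a0, md_a1, md_om, md_be0, md_be1, md_be2, md_p1, md_p2,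
      md_q0, md_q1, md_pi, md_b0, md_b1, md_r0, md_r1, md_n, md_ka, md_th, md_et, md_lam⟩,
    ⟨me_al0, me_al1, me_al2, me_a0, me_a1, me_om, me_be0, me_be1, me_be2, me_p1, me_p2, me_q0,
        me_q1, me_pi, me_b0, me_b1, me_r0, me_r1, me_n, me_ka, me_th, me_et, me_lam⟩⟩

theorem lC4b (hc : c5 = 0 ∨ c5 = 1) (r : Rel c5 d e) (ha : d.al0 ≠ 0)
    (z1 : d.be0 = 0) (z2 : e.be0 = 0) (z3 : d.q0 = 0) (z4 : e.q0 = 0)
    (z5 : d.lam = 0) (z6 : e.lam = 0) (z7 : d.r0 = 0) (z8 : e.r0 = 0)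
    (z9 : d.b0 = 0) : Few k d e := by
  have mc' : ∀ L : IntermediateField k K, c5 ∈ L := fun L => by
    rcases hc with rfl | rfl
    · exact zero_mem L
    · exact one_mem L
  refine ⟨![d.al0, d.al1, d.al2, d.a0, d.a1, d.om, d.be1, d.be2, d.p1, d.p2, d.q1, d.pi, d.b1,
      d.r1, d.n, d.ka, d.th, d.et, e.al0, e.al1, e.al2, e.a0, e.a1, e.om, e.b0, e.b1, e.r1, e.n,
      e.ka, e.th, e.et], fun L hL => ?_⟩
  have mc := mc' L
  have md_al0 : d.al0 ∈ L := hL 0
  have md_al1 : d.al1 ∈ L := hL 1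
  have md_al2 : d.al2 ∈ L := hL 2
  have md_a0 : d.a0 ∈ L := hL 3
  have md_a1 : d.a1 ∈ L := hL 4
  have md_om : d.om ∈ L := hL 5
  have md_be1 : d.be1 ∈ L := hL 6
  have md_be2 : d.be2 ∈ L := hL 7
  have md_p1 : d.p1 ∈ L := hL 8
  have md_p2 : d.p2 ∈ L := hL 9
  have md_q1 : d.q1 ∈ L := hL 10
  have md_pi : d.pi ∈ L := hL 11
  have md_b1 : d.b1 ∈ L := hL 12
  have md_r1 : d.r1 ∈ L := hL 13
  have md_n : d.n ∈ L := hL 14
  have md_ka : d.ka ∈ L := hL 15
  have md_th : d.th ∈ L := hL 16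
  have md_et : d.et ∈ L := hL 17
  have me_al0 : e.al0 ∈ L := hL 18
  have me_al1 : e.al1 ∈ L := hL 19
  have me_al2 : e.al2 ∈ L := hL 20
  have me_a0 : e.a0 ∈ L := hL 21
  have me_a1 : e.a1 ∈ L := hL 22
  have me_om : e.om ∈ L := hL 23
  have me_b0 : e.b0 ∈ L := hL 24
  have me_b1 : e.b1 ∈ L := hL 25
  have me_r1 : e.r1 ∈ L := hL 26
  have me_n : e.n ∈ L := hL 27
  have me_ka : e.ka ∈ L := hL 28
  have me_th : e.th ∈ L := hL 29
  have me_et : e.et ∈ L := hL 30
  have md_be0 : d.be0 ∈ L := by rw [z1]; exact zero_mem L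
  have me_be0 : e.be0 ∈ L := by rw [z2]; exact zero_mem L
  have md_q0 : d.q0 ∈ L := by rw [z3]; exact zero_mem L
  have me_q0 : e.q0 ∈ L := by rw [z4]; exact zero_mem L
  have md_lam : d.lam ∈ L := by rw [z5]; exact zero_mem L
  have me_lam : e.lam ∈ L := by rw [z6]; exact zero_mem L
  have md_r0 : d.r0 ∈ L := by rw [z7]; exact zero_mem L
  have me_r0 : e.r0 ∈ L := by rw [z8]; exact zero_mem L
  have md_b0 : d.b0 ∈ L := by rw [z9]; exact zero_mem L
  have me_p1 : e.p1 ∈ L := of_mul ha md_al0 (mul_mem md_p1 me_al0) (by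
      have h := r.VW1
      simp only [z7, z8, mul_zero, zero_mul, add_zero, zero_add] at h
      linear_combination -h)
  have me_pi : e.pi ∈ L := of_mul ha md_al0 (sub_mem (add_mem (mul_mem md_pi me_al0) (mul_mem
      md_ka me_a0)) (mul_mem me_ka md_a0)) (by
      have h := r.VP
      linear_combination -h)
  have me_be1 : e.be1 ∈ L := of_mul ha md_al0 (sub_mem (mul_mem md_be1 me_al0) (mul_mem me_b0
      md_a0)) (by
      have h := r.VV2
      simp only [z1, z2, z9, mul_zero, zero_mul, add_zero, zero_add] at h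
      linear_combination -h)
  have me_p2 : e.p2 ∈ L := of_mul ha md_al0 (sub_mem (sub_mem (sub_mem (add_mem (add_mem (add_mem
      (mul_mem md_p1 me_al1) (mul_mem md_p2 me_al0)) (mul_mem md_r1 me_a0)) (mul_mem md_et me_om))
      (mul_mem me_p1 md_al1)) (mul_mem me_r1 md_a0)) (mul_mem me_et md_om)) (by
      have h := r.VW2
      simp only [z7, z8, mul_zero, zero_mul, add_zero, zero_add] at h
      linear_combination -h)
  have me_q1 : e.q1 ∈ L := of_mul ha md_al0 (sub_mem (add_mem (mul_mem md_q1 me_al0) (mul_mem md_n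
      me_a0)) (mul_mem me_n md_a0)) (by
      have h := r.VF2
      simp only [z3, z4, z5, z6, mul_zero, zero_mul, add_zero, zero_add] at h
      linear_combination -h)
  have me_be2 : e.be2 ∈ L := of_mul ha md_al0 (sub_mem (sub_mem (sub_mem (sub_mem (add_mem
      (add_mem (add_mem (mul_mem md_be1 me_al1) (mul_mem md_be2 me_al0)) (mul_mem md_b1 me_a0))
      (mul_mem md_th me_om)) (mul_mem me_be1 md_al1)) (mul_mem me_b0 md_a1)) (mul_mem me_b1
      md_a0)) (mul_mem me_th md_om)) (by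
      have h := r.VV3
      simp only [z1, z2, z9, mul_zero, zero_mul, add_zero, zero_add] at h
      linear_combination -h)
  exact ⟨⟨md_al0, md_al1, md_al2, md_a0, md_a1, md_om, md_be0, md_be1, md_be2, md_p1, md_p2,
      md_q0, md_q1, md_pi, md_b0, md_b1, md_r0, md_r1, md_n, md_ka, md_th, md_et, md_lam⟩,
    ⟨me_al0, me_al1, me_al2, me_a0, me_a1, me_om, me_be0, me_be1, me_be2, me_p1, me_p2, me_q0,
        me_q1, me_pi, me_b0, me_b1, me_r0, me_r1, me_n, me_ka, me_th, me_et, me_lam⟩⟩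

theorem lI1a (hc : c5 = 0 ∨ c5 = 1) (r : Rel c5 d e) (z1 : d.al0 = 0) (z2 : e.al0 = 0) (z3 : d.be0
    = 0)
    (z4 : e.be0 = 0) (z5 : d.r0 = 0) (z6 : e.r0 = 0) (z7 : d.ka = 0) (z8 : e.ka = 0)
    (hb : d.b0 ≠ 0) (hq : d.q0 ≠ 0) : Few k d e := by
  have mc' : ∀ L : IntermediateField k K, c5 ∈ L := fun L => by
    rcases hc with rfl | rfl
    · exact zero_mem L
    · exact one_mem L
  refine ⟨![d.al1, d.al2, d.a0, d.a1, d.om, d.be1, d.be2, d.p1, d.p2, d.q0, d.q1, d.pi, d.b0,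
      d.b1, d.r1, d.n, d.th, d.et, d.lam, e.al2, e.om, e.be1, e.be2, e.p1, e.p2, e.pi, e.b0, e.b1,
      e.r1, e.th, e.et], fun L hL => ?_⟩
  have mc := mc' L
  have md_al1 : d.al1 ∈ L := hL 0
  have md_al2 : d.al2 ∈ L := hL 1
  have md_a0 : d.a0 ∈ L := hL 2
  have md_a1 : d.a1 ∈ L := hL 3
  have md_om : d.om ∈ L := hL 4
  have md_be1 : d.be1 ∈ L := hL 5
  have md_be2 : d.be2 ∈ L := hL 6
  have md_p1 : d.p1 ∈ L := hL 7
  have md_p2 : d.p2 ∈ L := hL 8
  have md_q0 : d.q0 ∈ L := hL 9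
  have md_q1 : d.q1 ∈ L := hL 10
  have md_pi : d.pi ∈ L := hL 11
  have md_b0 : d.b0 ∈ L := hL 12
  have md_b1 : d.b1 ∈ L := hL 13
  have md_r1 : d.r1 ∈ L := hL 14
  have md_n : d.n ∈ L := hL 15
  have md_th : d.th ∈ L := hL 16
  have md_et : d.et ∈ L := hL 17
  have md_lam : d.lam ∈ L := hL 18
  have me_al2 : e.al2 ∈ L := hL 19
  have me_om : e.om ∈ L := hL 20
  have me_be1 : e.be1 ∈ L := hL 21
  have me_be2 : e.be2 ∈ L := hL 22
  have me_p1 : e.p1 ∈ L := hL 23
  have me_p2 : e.p2 ∈ L := hL 24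
  have me_pi : e.pi ∈ L := hL 25
  have me_b0 : e.b0 ∈ L := hL 26
  have me_b1 : e.b1 ∈ L := hL 27
  have me_r1 : e.r1 ∈ L := hL 28
  have me_th : e.th ∈ L := hL 29
  have me_et : e.et ∈ L := hL 30
  have md_al0 : d.al0 ∈ L := by rw [z1]; exact zero_mem L
  have me_al0 : e.al0 ∈ L := by rw [z2]; exact zero_mem L
  have md_be0 : d.be0 ∈ L := by rw [z3]; exact zero_mem L
  have me_be0 : e.be0 ∈ L := by rw [z4]; exact zero_mem L
  have md_r0 : d.r0 ∈ L := by rw [z5]; exact zero_mem L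
  have me_r0 : e.r0 ∈ L := by rw [z6]; exact zero_mem L
  have md_ka : d.ka ∈ L := by rw [z7]; exact zero_mem L
  have me_ka : e.ka ∈ L := by rw [z8]; exact zero_mem L
  have me_a0 : e.a0 ∈ L := of_mul hb md_b0 (mul_mem me_b0 md_a0) (by
      have h := r.VV2
      simp only [z1, z2, z3, z4, mul_zero, zero_mul, add_zero, zero_add] at h
      linear_combination h)
  have me_q0 : e.q0 ∈ L := of_mul hb md_b0 (mul_mem me_b0 md_q0) (by
      have h := r.WV1
      simp only [z3, z4, mul_zero, zero_mul, add_zero, zero_add] at h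
      linear_combination h)
  have me_n : e.n ∈ L := of_mul hb md_b0 (mul_mem me_b0 md_n) (by
      have h := r.FV2
      simp only [z3, z4, z5, z6, z7, z8, mul_zero, zero_mul, add_zero, zero_add] at h
      linear_combination h)
  have me_lam : e.lam ∈ L := of_mul hb md_b0 (mul_mem me_b0 md_lam) (by
      have h := r.PV
      simp only [z3, z4, mul_zero, zero_mul, add_zero, zero_add] at h
      linear_combination h)
  have me_al1 : e.al1 ∈ L := of_mul hq md_q0 (sub_mem (sub_mem (add_mem (add_mem (mul_mem me_q0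
      md_al1) (mul_mem me_n md_a0)) (mul_mem me_lam md_om)) (mul_mem md_n me_a0)) (mul_mem md_lam
      me_om)) (by
      have h := r.VF2
      simp only [z1, z2, mul_zero, zero_mul, add_zero, zero_add] at h
      linear_combination h)
  have me_a1 : e.a1 ∈ L := of_mul hb md_b0 (sub_mem (sub_mem (sub_mem (add_mem (add_mem (add_mem
      (mul_mem me_be1 md_al1) (mul_mem me_b0 md_a1)) (mul_mem me_b1 md_a0)) (mul_mem me_th md_om))
      (mul_mem md_be1 me_al1)) (mul_mem md_b1 me_a0)) (mul_mem md_th me_om)) (by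
      have h := r.VV3
      simp only [z1, z2, z3, z4, mul_zero, zero_mul, add_zero, zero_add] at h
      linear_combination h)
  have me_q1 : e.q1 ∈ L := of_mul hb md_b0 (sub_mem (sub_mem (sub_mem (add_mem (add_mem (add_mem
      (mul_mem me_be1 md_p1) (mul_mem me_b0 md_q1)) (mul_mem me_b1 md_q0)) (mul_mem me_th md_pi))
      (mul_mem md_be1 me_p1)) (mul_mem md_b1 me_q0)) (mul_mem md_th me_pi)) (by
      have h := r.WV2
      simp only [z3, z4, mul_zero, zero_mul, add_zero, zero_add] at h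
      linear_combination h)
  exact ⟨⟨md_al0, md_al1, md_al2, md_a0, md_a1, md_om, md_be0, md_be1, md_be2, md_p1, md_p2,
      md_q0, md_q1, md_pi, md_b0, md_b1, md_r0, md_r1, md_n, md_ka, md_th, md_et, md_lam⟩,
    ⟨me_al0, me_al1, me_al2, me_a0, me_a1, me_om, me_be0, me_be1, me_be2, me_p1, me_p2, me_q0,
        me_q1, me_pi, me_b0, me_b1, me_r0, me_r1, me_n, me_ka, me_th, me_et, me_lam⟩⟩

theorem lI1b (hc : c5 = 0 ∨ c5 = 1) (r : Rel c5 d e) (z1 : d.al0 = 0) (z2 : e.al0 = 0) (z3 : d.be0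
    = 0)
    (z4 : e.be0 = 0) (z5 : d.r0 = 0) (z6 : e.r0 = 0) (z7 : d.ka = 0) (z8 : e.ka = 0)
    (hb : d.b0 ≠ 0) (z9 : d.q0 = 0) : Few k d e := by
  have mc' : ∀ L : IntermediateField k K, c5 ∈ L := fun L => by
    rcases hc with rfl | rfl
    · exact zero_mem L
    · exact one_mem L
  refine ⟨![d.al1, d.al2, d.a0, d.a1, d.om, d.be1, d.be2, d.p1, d.p2, d.q1, d.pi, d.b0, d.b1,
      d.r1, d.n, d.th, d.et, d.lam, e.al1, e.al2, e.om, e.be1, e.be2, e.p1, e.p2, e.pi, e.b0,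
      e.b1, e.r1, e.th, e.et], fun L hL => ?_⟩
  have mc := mc' L
  have md_al1 : d.al1 ∈ L := hL 0
  have md_al2 : d.al2 ∈ L := hL 1
  have md_a0 : d.a0 ∈ L := hL 2
  have md_a1 : d.a1 ∈ L := hL 3
  have md_om : d.om ∈ L := hL 4
  have md_be1 : d.be1 ∈ L := hL 5
  have md_be2 : d.be2 ∈ L := hL 6
  have md_p1 : d.p1 ∈ L := hL 7
  have md_p2 : d.p2 ∈ L := hL 8
  have md_q1 : d.q1 ∈ L := hL 9
  have md_pi : d.pi ∈ L := hL 10
  have md_b0 : d.b0 ∈ L := hL 11
  have md_b1 : d.b1 ∈ L := hL 12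
  have md_r1 : d.r1 ∈ L := hL 13
  have md_n : d.n ∈ L := hL 14
  have md_th : d.th ∈ L := hL 15
  have md_et : d.et ∈ L := hL 16
  have md_lam : d.lam ∈ L := hL 17
  have me_al1 : e.al1 ∈ L := hL 18
  have me_al2 : e.al2 ∈ L := hL 19
  have me_om : e.om ∈ L := hL 20
  have me_be1 : e.be1 ∈ L := hL 21
  have me_be2 : e.be2 ∈ L := hL 22
  have me_p1 : e.p1 ∈ L := hL 23
  have me_p2 : e.p2 ∈ L := hL 24
  have me_pi : e.pi ∈ L := hL 25
  have me_b0 : e.b0 ∈ L := hL 26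
  have me_b1 : e.b1 ∈ L := hL 27
  have me_r1 : e.r1 ∈ L := hL 28
  have me_th : e.th ∈ L := hL 29
  have me_et : e.et ∈ L := hL 30
  have md_al0 : d.al0 ∈ L := by rw [z1]; exact zero_mem L
  have me_al0 : e.al0 ∈ L := by rw [z2]; exact zero_mem L
  have md_be0 : d.be0 ∈ L := by rw [z3]; exact zero_mem L
  have me_be0 : e.be0 ∈ L := by rw [z4]; exact zero_mem L
  have md_r0 : d.r0 ∈ L := by rw [z5]; exact zero_mem L
  have me_r0 : e.r0 ∈ L := by rw [z6]; exact zero_mem L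
  have md_ka : d.ka ∈ L := by rw [z7]; exact zero_mem L
  have me_ka : e.ka ∈ L := by rw [z8]; exact zero_mem L
  have md_q0 : d.q0 ∈ L := by rw [z9]; exact zero_mem L
  have me_a0 : e.a0 ∈ L := of_mul hb md_b0 (mul_mem me_b0 md_a0) (by
      have h := r.VV2
      simp only [z1, z2, z3, z4, mul_zero, zero_mul, add_zero, zero_add] at h
      linear_combination h)
  have me_q0 : e.q0 ∈ L := of_mul hb md_b0 (zero_mem L) (by
      have h := r.WV1
      simp only [z3, z4, z9, mul_zero, zero_mul, add_zero, zero_add] at h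
      linear_combination h)
  have me_n : e.n ∈ L := of_mul hb md_b0 (mul_mem me_b0 md_n) (by
      have h := r.FV2
      simp only [z3, z4, z5, z6, z7, z8, mul_zero, zero_mul, add_zero, zero_add] at h
      linear_combination h)
  have me_lam : e.lam ∈ L := of_mul hb md_b0 (mul_mem me_b0 md_lam) (by
      have h := r.PV
      simp only [z3, z4, mul_zero, zero_mul, add_zero, zero_add] at h
      linear_combination h)
  have me_a1 : e.a1 ∈ L := of_mul hb md_b0 (sub_mem (sub_mem (sub_mem (add_mem (add_mem (add_mem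
      (mul_mem me_be1 md_al1) (mul_mem me_b0 md_a1)) (mul_mem me_b1 md_a0)) (mul_mem me_th md_om))
      (mul_mem md_be1 me_al1)) (mul_mem md_b1 me_a0)) (mul_mem md_th me_om)) (by
      have h := r.VV3
      simp only [z1, z2, z3, z4, mul_zero, zero_mul, add_zero, zero_add] at h
      linear_combination h)
  have me_q1 : e.q1 ∈ L := of_mul hb md_b0 (sub_mem (sub_mem (sub_mem (add_mem (add_mem (mul_mem
      me_be1 md_p1) (mul_mem me_b0 md_q1)) (mul_mem me_th md_pi)) (mul_mem md_be1 me_p1)) (mul_mem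
      md_b1 me_q0)) (mul_mem md_th me_pi)) (by
      have h := r.WV2
      simp only [z3, z4, z9, mul_zero, zero_mul, add_zero, zero_add] at h
      linear_combination h)
  exact ⟨⟨md_al0, md_al1, md_al2, md_a0, md_a1, md_om, md_be0, md_be1, md_be2, md_p1, md_p2,
      md_q0, md_q1, md_pi, md_b0, md_b1, md_r0, md_r1, md_n, md_ka, md_th, md_et, md_lam⟩,
    ⟨me_al0, me_al1, me_al2, me_a0, me_a1, me_om, me_be0, me_be1, me_be2, me_p1, me_p2, me_q0,
        me_q1, me_pi, me_b0, me_b1, me_r0, me_r1, me_n, me_ka, me_th, me_et, me_lam⟩⟩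

theorem lI3a (hc : c5 = 0 ∨ c5 = 1) (r : Rel c5 d e) (z1 : d.al0 = 0) (z2 : e.al0 = 0) (z3 : d.be0
    = 0)
    (z4 : e.be0 = 0) (z5 : d.r0 = 0) (z6 : e.r0 = 0) (z7 : d.ka = 0) (z8 : e.ka = 0)
    (z9 : d.b0 = 0) (z10 : e.b0 = 0) (hq : d.q0 ≠ 0) (hc' : d.q0 * d.r1 - d.p1 * d.n ≠ 0) : Few k
        d e := by
  have mc' : ∀ L : IntermediateField k K, c5 ∈ L := fun L => by
    rcases hc with rfl | rfl
    · exact zero_mem L
    · exact one_mem L
  refine ⟨![d.al1, d.al2, d.a0, d.a1, d.om, d.be1, d.be2, d.p1, d.p2, d.q0, d.q1, d.pi, d.b1,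
      d.r1, d.n, d.th, d.et, d.lam, e.al2, e.a1, e.om, e.be1, e.be2, e.p1, e.p2, e.q0, e.q1, e.pi,
      e.th, e.et, e.lam], fun L hL => ?_⟩
  have mc := mc' L
  have md_al1 : d.al1 ∈ L := hL 0
  have md_al2 : d.al2 ∈ L := hL 1
  have md_a0 : d.a0 ∈ L := hL 2
  have md_a1 : d.a1 ∈ L := hL 3
  have md_om : d.om ∈ L := hL 4
  have md_be1 : d.be1 ∈ L := hL 5
  have md_be2 : d.be2 ∈ L := hL 6
  have md_p1 : d.p1 ∈ L := hL 7
  have md_p2 : d.p2 ∈ L := hL 8
  have md_q0 : d.q0 ∈ L := hL 9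
  have md_q1 : d.q1 ∈ L := hL 10
  have md_pi : d.pi ∈ L := hL 11
  have md_b1 : d.b1 ∈ L := hL 12
  have md_r1 : d.r1 ∈ L := hL 13
  have md_n : d.n ∈ L := hL 14
  have md_th : d.th ∈ L := hL 15
  have md_et : d.et ∈ L := hL 16
  have md_lam : d.lam ∈ L := hL 17
  have me_al2 : e.al2 ∈ L := hL 18
  have me_a1 : e.a1 ∈ L := hL 19
  have me_om : e.om ∈ L := hL 20
  have me_be1 : e.be1 ∈ L := hL 21
  have me_be2 : e.be2 ∈ L := hL 22
  have me_p1 : e.p1 ∈ L := hL 23
  have me_p2 : e.p2 ∈ L := hL 24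
  have me_q0 : e.q0 ∈ L := hL 25
  have me_q1 : e.q1 ∈ L := hL 26
  have me_pi : e.pi ∈ L := hL 27
  have me_th : e.th ∈ L := hL 28
  have me_et : e.et ∈ L := hL 29
  have me_lam : e.lam ∈ L := hL 30
  have md_al0 : d.al0 ∈ L := by rw [z1]; exact zero_mem L
  have me_al0 : e.al0 ∈ L := by rw [z2]; exact zero_mem L
  have md_be0 : d.be0 ∈ L := by rw [z3]; exact zero_mem L
  have me_be0 : e.be0 ∈ L := by rw [z4]; exact zero_mem L
  have md_r0 : d.r0 ∈ L := by rw [z5]; exact zero_mem L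
  have me_r0 : e.r0 ∈ L := by rw [z6]; exact zero_mem L
  have md_ka : d.ka ∈ L := by rw [z7]; exact zero_mem L
  have me_ka : e.ka ∈ L := by rw [z8]; exact zero_mem L
  have md_b0 : d.b0 ∈ L := by rw [z9]; exact zero_mem L
  have me_b0 : e.b0 ∈ L := by rw [z10]; exact zero_mem L
  have me_r1 : e.r1 ∈ L := of_mul hq md_q0 (sub_mem (add_mem (mul_mem md_r1 me_q0) (mul_mem md_et
      me_pi)) (mul_mem me_et md_pi)) (by
      have h := r.WW2
      simp only [z1, z2, z3, z4, z5, z6, mul_zero, zero_mul, add_zero, zero_add] at h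
      linear_combination -h)
  have me_n : e.n ∈ L := of_mul hq md_q0 (sub_mem (sub_mem (add_mem (add_mem (mul_mem md_q0 me_p1)
      (mul_mem md_n me_q0)) (mul_mem md_lam me_pi)) (mul_mem me_q0 md_p1)) (mul_mem me_lam md_pi))
      (by
      have h := r.WF
      linear_combination -h)
  have me_b1 : e.b1 ∈ L := of_mul hq md_q0 (sub_mem (sub_mem (add_mem (add_mem (mul_mem md_be1
      me_p1) (mul_mem md_b1 me_q0)) (mul_mem md_th me_pi)) (mul_mem me_be1 md_p1)) (mul_mem me_th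
      md_pi)) (by
      have h := r.WV2
      simp only [z3, z4, z9, z10, mul_zero, zero_mul, add_zero, zero_add] at h
      linear_combination -h)
  have me_a0 : e.a0 ∈ L := of_mul hc' (sub_mem (mul_mem md_q0 md_r1) (mul_mem md_p1 md_n))
    (sub_mem (sub_mem (mul_mem md_q0 (add_mem (add_mem (mul_mem me_p1 md_al1)
      (mul_mem me_r1 md_a0)) (mul_mem me_et md_om))) (mul_mem md_q0 (mul_mem md_et me_om)))
      (mul_mem md_p1 (sub_mem (add_mem (add_mem (mul_mem me_q0 md_al1) (mul_mem me_n md_a0))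
      (mul_mem me_lam md_om)) (mul_mem md_lam me_om)))) (by
    have h1 := r.VW2
    have h2 := r.VF2
    simp only [z1, z2, z5, z6, mul_zero, zero_mul, add_zero, zero_add] at h1 h2
    linear_combination d.q0 * h1 - d.p1 * h2)
  have me_al1 : e.al1 ∈ L := of_mul hq md_q0 (sub_mem (sub_mem (add_mem (add_mem (mul_mem me_q0
      md_al1) (mul_mem me_n md_a0)) (mul_mem me_lam md_om)) (mul_mem md_n me_a0)) (mul_mem md_lam
      me_om)) (by
      have h := r.VF2
      simp only [z1, z2, mul_zero, zero_mul, add_zero, zero_add] at h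
      linear_combination h)
  exact ⟨⟨md_al0, md_al1, md_al2, md_a0, md_a1, md_om, md_be0, md_be1, md_be2, md_p1, md_p2,
      md_q0, md_q1, md_pi, md_b0, md_b1, md_r0, md_r1, md_n, md_ka, md_th, md_et, md_lam⟩,
    ⟨me_al0, me_al1, me_al2, me_a0, me_a1, me_om, me_be0, me_be1, me_be2, me_p1, me_p2, me_q0,
        me_q1, me_pi, me_b0, me_b1, me_r0, me_r1, me_n, me_ka, me_th, me_et, me_lam⟩⟩

theorem lI3b (hc : c5 = 0 ∨ c5 = 1) (r : Rel c5 d e) (z1 : d.al0 = 0) (z2 : e.al0 = 0) (z3 : d.be0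
    = 0)
    (z4 : e.be0 = 0) (z5 : d.r0 = 0) (z6 : e.r0 = 0) (z7 : d.ka = 0) (z8 : e.ka = 0)
    (z9 : d.b0 = 0) (z10 : e.b0 = 0) (hq : d.q0 ≠ 0) (hc' : d.q0 * d.r1 - d.p1 * d.n = 0) : Few k
        d e := by
  have mc' : ∀ L : IntermediateField k K, c5 ∈ L := fun L => by
    rcases hc with rfl | rfl
    · exact zero_mem L
    · exact one_mem L
  refine ⟨![d.al1, d.al2, d.a0, d.a1, d.om, d.be1, d.be2, d.p1, d.p2, d.q0, d.q1, d.pi, d.b1, d.n,
      d.th, d.et, d.lam, e.al2, e.a0, e.a1, e.om, e.be1, e.be2, e.p1, e.p2, e.q0, e.q1, e.pi,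
      e.th, e.et, e.lam], fun L hL => ?_⟩
  have mc := mc' L
  have md_al1 : d.al1 ∈ L := hL 0
  have md_al2 : d.al2 ∈ L := hL 1
  have md_a0 : d.a0 ∈ L := hL 2
  have md_a1 : d.a1 ∈ L := hL 3
  have md_om : d.om ∈ L := hL 4
  have md_be1 : d.be1 ∈ L := hL 5
  have md_be2 : d.be2 ∈ L := hL 6
  have md_p1 : d.p1 ∈ L := hL 7
  have md_p2 : d.p2 ∈ L := hL 8
  have md_q0 : d.q0 ∈ L := hL 9
  have md_q1 : d.q1 ∈ L := hL 10
  have md_pi : d.pi ∈ L := hL 11
  have md_b1 : d.b1 ∈ L := hL 12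
  have md_n : d.n ∈ L := hL 13
  have md_th : d.th ∈ L := hL 14
  have md_et : d.et ∈ L := hL 15
  have md_lam : d.lam ∈ L := hL 16
  have me_al2 : e.al2 ∈ L := hL 17
  have me_a0 : e.a0 ∈ L := hL 18
  have me_a1 : e.a1 ∈ L := hL 19
  have me_om : e.om ∈ L := hL 20
  have me_be1 : e.be1 ∈ L := hL 21
  have me_be2 : e.be2 ∈ L := hL 22
  have me_p1 : e.p1 ∈ L := hL 23
  have me_p2 : e.p2 ∈ L := hL 24
  have me_q0 : e.q0 ∈ L := hL 25
  have me_q1 : e.q1 ∈ L := hL 26
  have me_pi : e.pi ∈ L := hL 27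
  have me_th : e.th ∈ L := hL 28
  have me_et : e.et ∈ L := hL 29
  have me_lam : e.lam ∈ L := hL 30
  have md_al0 : d.al0 ∈ L := by rw [z1]; exact zero_mem L
  have me_al0 : e.al0 ∈ L := by rw [z2]; exact zero_mem L
  have md_be0 : d.be0 ∈ L := by rw [z3]; exact zero_mem L
  have me_be0 : e.be0 ∈ L := by rw [z4]; exact zero_mem L
  have md_r0 : d.r0 ∈ L := by rw [z5]; exact zero_mem L
  have me_r0 : e.r0 ∈ L := by rw [z6]; exact zero_mem L
  have md_ka : d.ka ∈ L := by rw [z7]; exact zero_mem L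
  have me_ka : e.ka ∈ L := by rw [z8]; exact zero_mem L
  have md_b0 : d.b0 ∈ L := by rw [z9]; exact zero_mem L
  have me_b0 : e.b0 ∈ L := by rw [z10]; exact zero_mem L
  have md_r1 : d.r1 ∈ L := of_mul hq md_q0 (mul_mem md_p1 md_n) (by linear_combination hc')
  have me_r1 : e.r1 ∈ L := of_mul hq md_q0 (sub_mem (add_mem (mul_mem md_r1 me_q0) (mul_mem md_et
      me_pi)) (mul_mem me_et md_pi)) (by
      have h := r.WW2
      simp only [z1, z2, z3, z4, z5, z6, mul_zero, zero_mul, add_zero, zero_add] at h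
      linear_combination -h)
  have me_n : e.n ∈ L := of_mul hq md_q0 (sub_mem (sub_mem (add_mem (add_mem (mul_mem md_q0 me_p1)
      (mul_mem md_n me_q0)) (mul_mem md_lam me_pi)) (mul_mem me_q0 md_p1)) (mul_mem me_lam md_pi))
      (by
      have h := r.WF
      linear_combination -h)
  have me_b1 : e.b1 ∈ L := of_mul hq md_q0 (sub_mem (sub_mem (add_mem (add_mem (mul_mem md_be1
      me_p1) (mul_mem md_b1 me_q0)) (mul_mem md_th me_pi)) (mul_mem me_be1 md_p1)) (mul_mem me_th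
      md_pi)) (by
      have h := r.WV2
      simp only [z3, z4, z9, z10, mul_zero, zero_mul, add_zero, zero_add] at h
      linear_combination -h)
  have me_al1 : e.al1 ∈ L := of_mul hq md_q0 (sub_mem (sub_mem (add_mem (add_mem (mul_mem me_q0
      md_al1) (mul_mem me_n md_a0)) (mul_mem me_lam md_om)) (mul_mem md_n me_a0)) (mul_mem md_lam
      me_om)) (by
      have h := r.VF2
      simp only [z1, z2, mul_zero, zero_mul, add_zero, zero_add] at h
      linear_combination h)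
  exact ⟨⟨md_al0, md_al1, md_al2, md_a0, md_a1, md_om, md_be0, md_be1, md_be2, md_p1, md_p2,
      md_q0, md_q1, md_pi, md_b0, md_b1, md_r0, md_r1, md_n, md_ka, md_th, md_et, md_lam⟩,
    ⟨me_al0, me_al1, me_al2, me_a0, me_a1, me_om, me_be0, me_be1, me_be2, me_p1, me_p2, me_q0,
        me_q1, me_pi, me_b0, me_b1, me_r0, me_r1, me_n, me_ka, me_th, me_et, me_lam⟩⟩

theorem lI4a (hc : c5 = 0 ∨ c5 = 1) (r : Rel c5 d e) (z1 : d.al0 = 0) (z2 : e.al0 = 0) (z3 : d.be0
    = 0)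
    (z4 : e.be0 = 0) (z5 : d.r0 = 0) (z6 : e.r0 = 0) (z7 : d.ka = 0) (z8 : e.ka = 0)
    (z9 : d.b0 = 0) (z10 : e.b0 = 0) (z11 : d.q0 = 0) (z12 : e.q0 = 0) (hp : d.pi ≠ 0) : Few k d e
        := by
  have mc' : ∀ L : IntermediateField k K, c5 ∈ L := fun L => by
    rcases hc with rfl | rfl
    · exact zero_mem L
    · exact one_mem L
  refine ⟨![d.al1, d.al2, d.a0, d.a1, d.om, d.be1, d.be2, d.p1, d.p2, d.q1, d.pi, d.b1, d.r1, d.n,
      d.th, d.et, d.lam, e.al1, e.al2, e.a0, e.a1, e.om, e.be1, e.be2, e.p1, e.p2, e.q1, e.pi,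
      e.b1, e.r1, e.n], fun L hL => ?_⟩
  have mc := mc' L
  have md_al1 : d.al1 ∈ L := hL 0
  have md_al2 : d.al2 ∈ L := hL 1
  have md_a0 : d.a0 ∈ L := hL 2
  have md_a1 : d.a1 ∈ L := hL 3
  have md_om : d.om ∈ L := hL 4
  have md_be1 : d.be1 ∈ L := hL 5
  have md_be2 : d.be2 ∈ L := hL 6
  have md_p1 : d.p1 ∈ L := hL 7
  have md_p2 : d.p2 ∈ L := hL 8
  have md_q1 : d.q1 ∈ L := hL 9
  have md_pi : d.pi ∈ L := hL 10
  have md_b1 : d.b1 ∈ L := hL 11
  have md_r1 : d.r1 ∈ L := hL 12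
  have md_n : d.n ∈ L := hL 13
  have md_th : d.th ∈ L := hL 14
  have md_et : d.et ∈ L := hL 15
  have md_lam : d.lam ∈ L := hL 16
  have me_al1 : e.al1 ∈ L := hL 17
  have me_al2 : e.al2 ∈ L := hL 18
  have me_a0 : e.a0 ∈ L := hL 19
  have me_a1 : e.a1 ∈ L := hL 20
  have me_om : e.om ∈ L := hL 21
  have me_be1 : e.be1 ∈ L := hL 22
  have me_be2 : e.be2 ∈ L := hL 23
  have me_p1 : e.p1 ∈ L := hL 24
  have me_p2 : e.p2 ∈ L := hL 25
  have me_q1 : e.q1 ∈ L := hL 26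
  have me_pi : e.pi ∈ L := hL 27
  have me_b1 : e.b1 ∈ L := hL 28
  have me_r1 : e.r1 ∈ L := hL 29
  have me_n : e.n ∈ L := hL 30
  have md_al0 : d.al0 ∈ L := by rw [z1]; exact zero_mem L
  have me_al0 : e.al0 ∈ L := by rw [z2]; exact zero_mem L
  have md_be0 : d.be0 ∈ L := by rw [z3]; exact zero_mem L
  have me_be0 : e.be0 ∈ L := by rw [z4]; exact zero_mem L
  have md_r0 : d.r0 ∈ L := by rw [z5]; exact zero_mem L
  have me_r0 : e.r0 ∈ L := by rw [z6]; exact zero_mem L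
  have md_ka : d.ka ∈ L := by rw [z7]; exact zero_mem L
  have me_ka : e.ka ∈ L := by rw [z8]; exact zero_mem L
  have md_b0 : d.b0 ∈ L := by rw [z9]; exact zero_mem L
  have me_b0 : e.b0 ∈ L := by rw [z10]; exact zero_mem L
  have md_q0 : d.q0 ∈ L := by rw [z11]; exact zero_mem L
  have me_q0 : e.q0 ∈ L := by rw [z12]; exact zero_mem L
  have me_et : e.et ∈ L := of_mul hp md_pi (mul_mem md_et me_pi) (by
      have h := r.WW2
      simp only [z1, z2, z3, z4, z5, z6, z11, z12, mul_zero, zero_mul, add_zero, zero_add] at h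
      linear_combination -h)
  have me_lam : e.lam ∈ L := of_mul hp md_pi (mul_mem md_lam me_pi) (by
      have h := r.WF
      simp only [z11, z12, mul_zero, zero_mul, add_zero, zero_add] at h
      linear_combination -h)
  have me_th : e.th ∈ L := of_mul hp md_pi (sub_mem (add_mem (mul_mem md_be1 me_p1) (mul_mem md_th
      me_pi)) (mul_mem me_be1 md_p1)) (by
      have h := r.WV2
      simp only [z3, z4, z9, z10, z11, z12, mul_zero, zero_mul, add_zero, zero_add] at h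
      linear_combination -h)
  exact ⟨⟨md_al0, md_al1, md_al2, md_a0, md_a1, md_om, md_be0, md_be1, md_be2, md_p1, md_p2,
      md_q0, md_q1, md_pi, md_b0, md_b1, md_r0, md_r1, md_n, md_ka, md_th, md_et, md_lam⟩,
    ⟨me_al0, me_al1, me_al2, me_a0, me_a1, me_om, me_be0, me_be1, me_be2, me_p1, me_p2, me_q0,
        me_q1, me_pi, me_b0, me_b1, me_r0, me_r1, me_n, me_ka, me_th, me_et, me_lam⟩⟩

theorem lI4b (hc : c5 = 0 ∨ c5 = 1) (r : Rel c5 d e) (z1 : d.al0 = 0) (z2 : e.al0 = 0) (z3 : d.be0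
    = 0)
    (z4 : e.be0 = 0) (z5 : d.r0 = 0) (z6 : e.r0 = 0) (z7 : d.ka = 0) (z8 : e.ka = 0)
    (z9 : d.b0 = 0) (z10 : e.b0 = 0) (z11 : d.q0 = 0) (z12 : e.q0 = 0) (z13 : d.pi = 0)
    (z14 : e.pi = 0) (hb : d.be1 ≠ 0) : Few k d e := by
  have mc' : ∀ L : IntermediateField k K, c5 ∈ L := fun L => by
    rcases hc with rfl | rfl
    · exact zero_mem L
    · exact one_mem L
  refine ⟨![d.al1, d.al2, d.a0, d.a1, d.om, d.be1, d.be2, d.p1, d.p2, d.q1, d.b1, d.r1, d.n, d.th,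
      d.et, d.lam, e.al1, e.al2, e.a0, e.a1, e.om, e.be1, e.be2, e.p2, e.q1, e.b1, e.r1, e.n,
      e.th, e.et, e.lam], fun L hL => ?_⟩
  have mc := mc' L
  have md_al1 : d.al1 ∈ L := hL 0
  have md_al2 : d.al2 ∈ L := hL 1
  have md_a0 : d.a0 ∈ L := hL 2
  have md_a1 : d.a1 ∈ L := hL 3
  have md_om : d.om ∈ L := hL 4
  have md_be1 : d.be1 ∈ L := hL 5
  have md_be2 : d.be2 ∈ L := hL 6
  have md_p1 : d.p1 ∈ L := hL 7
  have md_p2 : d.p2 ∈ L := hL 8
  have md_q1 : d.q1 ∈ L := hL 9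
  have md_b1 : d.b1 ∈ L := hL 10
  have md_r1 : d.r1 ∈ L := hL 11
  have md_n : d.n ∈ L := hL 12
  have md_th : d.th ∈ L := hL 13
  have md_et : d.et ∈ L := hL 14
  have md_lam : d.lam ∈ L := hL 15
  have me_al1 : e.al1 ∈ L := hL 16
  have me_al2 : e.al2 ∈ L := hL 17
  have me_a0 : e.a0 ∈ L := hL 18
  have me_a1 : e.a1 ∈ L := hL 19
  have me_om : e.om ∈ L := hL 20
  have me_be1 : e.be1 ∈ L := hL 21
  have me_be2 : e.be2 ∈ L := hL 22
  have me_p2 : e.p2 ∈ L := hL 23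
  have me_q1 : e.q1 ∈ L := hL 24
  have me_b1 : e.b1 ∈ L := hL 25
  have me_r1 : e.r1 ∈ L := hL 26
  have me_n : e.n ∈ L := hL 27
  have me_th : e.th ∈ L := hL 28
  have me_et : e.et ∈ L := hL 29
  have me_lam : e.lam ∈ L := hL 30
  have md_al0 : d.al0 ∈ L := by rw [z1]; exact zero_mem L
  have me_al0 : e.al0 ∈ L := by rw [z2]; exact zero_mem L
  have md_be0 : d.be0 ∈ L := by rw [z3]; exact zero_mem L
  have me_be0 : e.be0 ∈ L := by rw [z4]; exact zero_mem L
  have md_r0 : d.r0 ∈ L := by rw [z5]; exact zero_mem L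
  have me_r0 : e.r0 ∈ L := by rw [z6]; exact zero_mem L
  have md_ka : d.ka ∈ L := by rw [z7]; exact zero_mem L
  have me_ka : e.ka ∈ L := by rw [z8]; exact zero_mem L
  have md_b0 : d.b0 ∈ L := by rw [z9]; exact zero_mem L
  have me_b0 : e.b0 ∈ L := by rw [z10]; exact zero_mem L
  have md_q0 : d.q0 ∈ L := by rw [z11]; exact zero_mem L
  have me_q0 : e.q0 ∈ L := by rw [z12]; exact zero_mem L
  have md_pi : d.pi ∈ L := by rw [z13]; exact zero_mem L
  have me_pi : e.pi ∈ L := by rw [z14]; exact zero_mem L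
  have me_p1 : e.p1 ∈ L := of_mul hb md_be1 (mul_mem me_be1 md_p1) (by
      have h := r.WV2
      simp only [z3, z4, z9, z10, z11, z12, z13, z14, mul_zero, zero_mul, add_zero, zero_add] at h
      linear_combination h)
  exact ⟨⟨md_al0, md_al1, md_al2, md_a0, md_a1, md_om, md_be0, md_be1, md_be2, md_p1, md_p2,
      md_q0, md_q1, md_pi, md_b0, md_b1, md_r0, md_r1, md_n, md_ka, md_th, md_et, md_lam⟩,
    ⟨me_al0, me_al1, me_al2, me_a0, me_a1, me_om, me_be0, me_be1, me_be2, me_p1, me_p2, me_q0,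
        me_q1, me_pi, me_b0, me_b1, me_r0, me_r1, me_n, me_ka, me_th, me_et, me_lam⟩⟩

theorem lI4c (hc : c5 = 0 ∨ c5 = 1) (r : Rel c5 d e) (z1 : d.al0 = 0) (z2 : e.al0 = 0) (z3 : d.be0
    = 0)
    (z4 : e.be0 = 0) (z5 : d.r0 = 0) (z6 : e.r0 = 0) (z7 : d.ka = 0) (z8 : e.ka = 0)
    (z9 : d.b0 = 0) (z10 : e.b0 = 0) (z11 : d.q0 = 0) (z12 : e.q0 = 0) (z13 : d.pi = 0)
    (z14 : e.pi = 0) (z15 : d.be1 = 0) : Few k d e := by
  have mc' : ∀ L : IntermediateField k K, c5 ∈ L := fun L => by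
    rcases hc with rfl | rfl
    · exact zero_mem L
    · exact one_mem L
  refine ⟨![d.al1, d.al2, d.a0, d.a1, d.om, d.be2, d.p1, d.p2, d.q1, d.b1, d.r1, d.n, d.th, d.et,
      d.lam, e.al1, e.al2, e.a0, e.a1, e.om, e.be1, e.be2, e.p1, e.p2, e.q1, e.b1, e.r1, e.n,
      e.th, e.et, e.lam], fun L hL => ?_⟩
  have mc := mc' L
  have md_al1 : d.al1 ∈ L := hL 0
  have md_al2 : d.al2 ∈ L := hL 1
  have md_a0 : d.a0 ∈ L := hL 2
  have md_a1 : d.a1 ∈ L := hL 3
  have md_om : d.om ∈ L := hL 4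
  have md_be2 : d.be2 ∈ L := hL 5
  have md_p1 : d.p1 ∈ L := hL 6
  have md_p2 : d.p2 ∈ L := hL 7
  have md_q1 : d.q1 ∈ L := hL 8
  have md_b1 : d.b1 ∈ L := hL 9
  have md_r1 : d.r1 ∈ L := hL 10
  have md_n : d.n ∈ L := hL 11
  have md_th : d.th ∈ L := hL 12
  have md_et : d.et ∈ L := hL 13
  have md_lam : d.lam ∈ L := hL 14
  have me_al1 : e.al1 ∈ L := hL 15
  have me_al2 : e.al2 ∈ L := hL 16
  have me_a0 : e.a0 ∈ L := hL 17
  have me_a1 : e.a1 ∈ L := hL 18
  have me_om : e.om ∈ L := hL 19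
  have me_be1 : e.be1 ∈ L := hL 20
  have me_be2 : e.be2 ∈ L := hL 21
  have me_p1 : e.p1 ∈ L := hL 22
  have me_p2 : e.p2 ∈ L := hL 23
  have me_q1 : e.q1 ∈ L := hL 24
  have me_b1 : e.b1 ∈ L := hL 25
  have me_r1 : e.r1 ∈ L := hL 26
  have me_n : e.n ∈ L := hL 27
  have me_th : e.th ∈ L := hL 28
  have me_et : e.et ∈ L := hL 29
  have me_lam : e.lam ∈ L := hL 30
  have md_al0 : d.al0 ∈ L := by rw [z1]; exact zero_mem L
  have me_al0 : e.al0 ∈ L := by rw [z2]; exact zero_mem L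
  have md_be0 : d.be0 ∈ L := by rw [z3]; exact zero_mem L
  have me_be0 : e.be0 ∈ L := by rw [z4]; exact zero_mem L
  have md_r0 : d.r0 ∈ L := by rw [z5]; exact zero_mem L
  have me_r0 : e.r0 ∈ L := by rw [z6]; exact zero_mem L
  have md_ka : d.ka ∈ L := by rw [z7]; exact zero_mem L
  have me_ka : e.ka ∈ L := by rw [z8]; exact zero_mem L
  have md_b0 : d.b0 ∈ L := by rw [z9]; exact zero_mem L
  have me_b0 : e.b0 ∈ L := by rw [z10]; exact zero_mem L
  have md_q0 : d.q0 ∈ L := by rw [z11]; exact zero_mem L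
  have me_q0 : e.q0 ∈ L := by rw [z12]; exact zero_mem L
  have md_pi : d.pi ∈ L := by rw [z13]; exact zero_mem L
  have me_pi : e.pi ∈ L := by rw [z14]; exact zero_mem L
  have md_be1 : d.be1 ∈ L := by rw [z15]; exact zero_mem L
  exact ⟨⟨md_al0, md_al1, md_al2, md_a0, md_a1, md_om, md_be0, md_be1, md_be2, md_p1, md_p2,
      md_q0, md_q1, md_pi, md_b0, md_b1, md_r0, md_r1, md_n, md_ka, md_th, md_et, md_lam⟩,
    ⟨me_al0, me_al1, me_al2, me_a0, me_a1, me_om, me_be0, me_be1, me_be2, me_p1, me_p2, me_q0,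
        me_q1, me_pi, me_b0, me_b1, me_r0, me_r1, me_n, me_ka, me_th, me_et, me_lam⟩⟩

theorem lIIa (hc : c5 = 0 ∨ c5 = 1) (r : Rel c5 d e) (z1 : d.al0 = 0) (z2 : e.al0 = 0) (z3 : d.be0
    = 0)
    (z4 : e.be0 = 0) (z5 : d.r0 = 0) (z6 : e.r0 = 0) (z7 : d.lam = 0) (z8 : e.lam = 0)
    (hk : d.ka ≠ 0) (hq : d.q0 ≠ 0) : Few k d e := by
  have mc' : ∀ L : IntermediateField k K, c5 ∈ L := fun L => by
    rcases hc with rfl | rfl
    · exact zero_mem L
    · exact one_mem L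
  refine ⟨![d.al1, d.al2, d.a0, d.a1, d.om, d.be1, d.be2, d.p1, d.p2, d.q0, d.q1, d.pi, d.b0,
      d.b1, d.r1, d.n, d.ka, d.th, d.et, e.al1, e.al2, e.a1, e.om, e.be1, e.be2, e.p2, e.q1, e.pi,
      e.b1, e.n, e.ka], fun L hL => ?_⟩
  have mc := mc' L
  have md_al1 : d.al1 ∈ L := hL 0
  have md_al2 : d.al2 ∈ L := hL 1
  have md_a0 : d.a0 ∈ L := hL 2
  have md_a1 : d.a1 ∈ L := hL 3
  have md_om : d.om ∈ L := hL 4
  have md_be1 : d.be1 ∈ L := hL 5
  have md_be2 : d.be2 ∈ L := hL 6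
  have md_p1 : d.p1 ∈ L := hL 7
  have md_p2 : d.p2 ∈ L := hL 8
  have md_q0 : d.q0 ∈ L := hL 9
  have md_q1 : d.q1 ∈ L := hL 10
  have md_pi : d.pi ∈ L := hL 11
  have md_b0 : d.b0 ∈ L := hL 12
  have md_b1 : d.b1 ∈ L := hL 13
  have md_r1 : d.r1 ∈ L := hL 14
  have md_n : d.n ∈ L := hL 15
  have md_ka : d.ka ∈ L := hL 16
  have md_th : d.th ∈ L := hL 17
  have md_et : d.et ∈ L := hL 18
  have me_al1 : e.al1 ∈ L := hL 19
  have me_al2 : e.al2 ∈ L := hL 20
  have me_a1 : e.a1 ∈ L := hL 21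
  have me_om : e.om ∈ L := hL 22
  have me_be1 : e.be1 ∈ L := hL 23
  have me_be2 : e.be2 ∈ L := hL 24
  have me_p2 : e.p2 ∈ L := hL 25
  have me_q1 : e.q1 ∈ L := hL 26
  have me_pi : e.pi ∈ L := hL 27
  have me_b1 : e.b1 ∈ L := hL 28
  have me_n : e.n ∈ L := hL 29
  have me_ka : e.ka ∈ L := hL 30
  have md_al0 : d.al0 ∈ L := by rw [z1]; exact zero_mem L
  have me_al0 : e.al0 ∈ L := by rw [z2]; exact zero_mem L
  have md_be0 : d.be0 ∈ L := by rw [z3]; exact zero_mem L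
  have me_be0 : e.be0 ∈ L := by rw [z4]; exact zero_mem L
  have md_r0 : d.r0 ∈ L := by rw [z5]; exact zero_mem L
  have me_r0 : e.r0 ∈ L := by rw [z6]; exact zero_mem L
  have md_lam : d.lam ∈ L := by rw [z7]; exact zero_mem L
  have me_lam : e.lam ∈ L := by rw [z8]; exact zero_mem L
  have me_a0 : e.a0 ∈ L := of_mul hk md_ka (mul_mem me_ka md_a0) (by
      have h := r.VP
      simp only [z1, z2, mul_zero, zero_mul, add_zero, zero_add] at h
      linear_combination h)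
  have me_q0 : e.q0 ∈ L := of_mul hk md_ka (mul_mem me_ka md_q0) (by
      have h := r.WP
      linear_combination h)
  have me_et : e.et ∈ L := of_mul hk md_ka (mul_mem md_et me_ka) (by
      have h := r.FW
      simp only [z5, z6, mul_zero, zero_mul, add_zero, zero_add] at h
      linear_combination -h)
  have me_b0 : e.b0 ∈ L := of_mul hq md_q0 (mul_mem md_b0 me_q0) (by
      have h := r.WV1
      simp only [z3, z4, mul_zero, zero_mul, add_zero, zero_add] at h
      linear_combination -h)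
  have me_th : e.th ∈ L := of_mul hk md_ka (sub_mem (add_mem (mul_mem md_b0 me_n) (mul_mem md_th
      me_ka)) (mul_mem me_b0 md_n)) (by
      have h := r.FV2
      simp only [z3, z4, z5, z6, mul_zero, zero_mul, add_zero, zero_add] at h
      linear_combination -h)
  have me_r1 : e.r1 ∈ L := of_mul hq md_q0 (sub_mem (add_mem (mul_mem md_r1 me_q0) (mul_mem md_et
      me_pi)) (mul_mem me_et md_pi)) (by
      have h := r.WW2
      simp only [z1, z2, z3, z4, z5, z6, mul_zero, zero_mul, add_zero, zero_add] at h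
      linear_combination -h)
  have me_p1 : e.p1 ∈ L := of_mul hq md_q0 (sub_mem (add_mem (mul_mem me_q0 md_p1) (mul_mem me_n
      md_q0)) (mul_mem md_n me_q0)) (by
      have h := r.WF
      simp only [z7, z8, mul_zero, zero_mul, add_zero, zero_add] at h
      linear_combination h)
  exact ⟨⟨md_al0, md_al1, md_al2, md_a0, md_a1, md_om, md_be0, md_be1, md_be2, md_p1, md_p2,
      md_q0, md_q1, md_pi, md_b0, md_b1, md_r0, md_r1, md_n, md_ka, md_th, md_et, md_lam⟩,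
    ⟨me_al0, me_al1, me_al2, me_a0, me_a1, me_om, me_be0, me_be1, me_be2, me_p1, me_p2, me_q0,
        me_q1, me_pi, me_b0, me_b1, me_r0, me_r1, me_n, me_ka, me_th, me_et, me_lam⟩⟩

theorem lIIaa (hc : c5 = 0 ∨ c5 = 1) (r : Rel c5 d e) (z1 : d.al0 = 0) (z2 : e.al0 = 0) (z3 :
    d.be0 = 0)
    (z4 : e.be0 = 0) (z5 : d.r0 = 0) (z6 : e.r0 = 0) (z7 : d.lam = 0) (z8 : e.lam = 0)
    (hk : d.ka ≠ 0) (z9 : d.q0 = 0) (z10 : e.q0 = 0) (he : d.et ≠ 0)
    (ha : d.a0 ≠ 0) : Few k d e := by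
  have mc' : ∀ L : IntermediateField k K, c5 ∈ L := fun L => by
    rcases hc with rfl | rfl
    · exact zero_mem L
    · exact one_mem L
  refine ⟨![d.al1, d.al2, d.a0, d.a1, d.om, d.be1, d.be2, d.p1, d.p2, d.q1, d.pi, d.b0, d.b1,
      d.r1, d.n, d.ka, d.th, d.et, e.al1, e.al2, e.a1, e.om, e.be1, e.be2, e.p1, e.p2, e.q1, e.b1,
      e.r1, e.n, e.ka], fun L hL => ?_⟩
  have mc := mc' L
  have md_al1 : d.al1 ∈ L := hL 0
  have md_al2 : d.al2 ∈ L := hL 1
  have md_a0 : d.a0 ∈ L := hL 2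
  have md_a1 : d.a1 ∈ L := hL 3
  have md_om : d.om ∈ L := hL 4
  have md_be1 : d.be1 ∈ L := hL 5
  have md_be2 : d.be2 ∈ L := hL 6
  have md_p1 : d.p1 ∈ L := hL 7
  have md_p2 : d.p2 ∈ L := hL 8
  have md_q1 : d.q1 ∈ L := hL 9
  have md_pi : d.pi ∈ L := hL 10
  have md_b0 : d.b0 ∈ L := hL 11
  have md_b1 : d.b1 ∈ L := hL 12
  have md_r1 : d.r1 ∈ L := hL 13
  have md_n : d.n ∈ L := hL 14
  have md_ka : d.ka ∈ L := hL 15
  have md_th : d.th ∈ L := hL 16
  have md_et : d.et ∈ L := hL 17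
  have me_al1 : e.al1 ∈ L := hL 18
  have me_al2 : e.al2 ∈ L := hL 19
  have me_a1 : e.a1 ∈ L := hL 20
  have me_om : e.om ∈ L := hL 21
  have me_be1 : e.be1 ∈ L := hL 22
  have me_be2 : e.be2 ∈ L := hL 23
  have me_p1 : e.p1 ∈ L := hL 24
  have me_p2 : e.p2 ∈ L := hL 25
  have me_q1 : e.q1 ∈ L := hL 26
  have me_b1 : e.b1 ∈ L := hL 27
  have me_r1 : e.r1 ∈ L := hL 28
  have me_n : e.n ∈ L := hL 29
  have me_ka : e.ka ∈ L := hL 30
  have md_al0 : d.al0 ∈ L := by rw [z1]; exact zero_mem L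
  have me_al0 : e.al0 ∈ L := by rw [z2]; exact zero_mem L
  have md_be0 : d.be0 ∈ L := by rw [z3]; exact zero_mem L
  have me_be0 : e.be0 ∈ L := by rw [z4]; exact zero_mem L
  have md_r0 : d.r0 ∈ L := by rw [z5]; exact zero_mem L
  have me_r0 : e.r0 ∈ L := by rw [z6]; exact zero_mem L
  have md_lam : d.lam ∈ L := by rw [z7]; exact zero_mem L
  have me_lam : e.lam ∈ L := by rw [z8]; exact zero_mem L
  have md_q0 : d.q0 ∈ L := by rw [z9]; exact zero_mem L
  have me_q0 : e.q0 ∈ L := by rw [z10]; exact zero_mem L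
  have me_a0 : e.a0 ∈ L := of_mul hk md_ka (mul_mem me_ka md_a0) (by
      have h := r.VP
      simp only [z1, z2, mul_zero, zero_mul, add_zero, zero_add] at h
      linear_combination h)
  have me_et : e.et ∈ L := of_mul hk md_ka (mul_mem md_et me_ka) (by
      have h := r.FW
      simp only [z5, z6, mul_zero, zero_mul, add_zero, zero_add] at h
      linear_combination -h)
  have me_pi : e.pi ∈ L := of_mul hk md_ka (mul_mem me_ka md_pi) (by
    have h1 := r.WW2
    have h2 := r.FW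
    simp only [z1, z2, z3, z4, z5, z6, z9, z10, mul_zero, zero_mul, add_zero, zero_add] at h1 h2
    refine mul_left_cancel₀ he ?_
    linear_combination d.ka * h1 - d.pi * h2)
  have me_b0 : e.b0 ∈ L := of_mul ha md_a0 (mul_mem md_b0 me_a0) (by
      have h := r.VV2
      simp only [z1, z2, z3, z4, mul_zero, zero_mul, add_zero, zero_add] at h
      linear_combination -h)
  have me_th : e.th ∈ L := of_mul hk md_ka (sub_mem (add_mem (mul_mem md_b0 me_n) (mul_mem md_th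
      me_ka)) (mul_mem me_b0 md_n)) (by
      have h := r.FV2
      simp only [z3, z4, z5, z6, mul_zero, zero_mul, add_zero, zero_add] at h
      linear_combination -h)
  exact ⟨⟨md_al0, md_al1, md_al2, md_a0, md_a1, md_om, md_be0, md_be1, md_be2, md_p1, md_p2,
      md_q0, md_q1, md_pi, md_b0, md_b1, md_r0, md_r1, md_n, md_ka, md_th, md_et, md_lam⟩,
    ⟨me_al0, me_al1, me_al2, me_a0, me_a1, me_om, me_be0, me_be1, me_be2, me_p1, me_p2, me_q0,
        me_q1, me_pi, me_b0, me_b1, me_r0, me_r1, me_n, me_ka, me_th, me_et, me_lam⟩⟩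

theorem lIIab (hc : c5 = 0 ∨ c5 = 1) (r : Rel c5 d e) (z1 : d.al0 = 0) (z2 : e.al0 = 0) (z3 :
    d.be0 = 0)
    (z4 : e.be0 = 0) (z5 : d.r0 = 0) (z6 : e.r0 = 0) (z7 : d.lam = 0) (z8 : e.lam = 0)
    (hk : d.ka ≠ 0) (z9 : d.q0 = 0) (z10 : e.q0 = 0) (he : d.et ≠ 0)
    (z12 : d.a0 = 0) : Few k d e := by
  have mc' : ∀ L : IntermediateField k K, c5 ∈ L := fun L => by
    rcases hc with rfl | rfl
    · exact zero_mem L
    · exact one_mem L
  refine ⟨![d.al1, d.al2, d.a1, d.om, d.be1, d.be2, d.p1, d.p2, d.q1, d.pi, d.b0, d.b1, d.r1, d.n,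
      d.ka, d.th, d.et, e.al1, e.al2, e.a1, e.om, e.be1, e.be2, e.p1, e.p2, e.q1, e.b0, e.b1,
      e.r1, e.n, e.ka], fun L hL => ?_⟩
  have mc := mc' L
  have md_al1 : d.al1 ∈ L := hL 0
  have md_al2 : d.al2 ∈ L := hL 1
  have md_a1 : d.a1 ∈ L := hL 2
  have md_om : d.om ∈ L := hL 3
  have md_be1 : d.be1 ∈ L := hL 4
  have md_be2 : d.be2 ∈ L := hL 5
  have md_p1 : d.p1 ∈ L := hL 6
  have md_p2 : d.p2 ∈ L := hL 7
  have md_q1 : d.q1 ∈ L := hL 8
  have md_pi : d.pi ∈ L := hL 9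
  have md_b0 : d.b0 ∈ L := hL 10
  have md_b1 : d.b1 ∈ L := hL 11
  have md_r1 : d.r1 ∈ L := hL 12
  have md_n : d.n ∈ L := hL 13
  have md_ka : d.ka ∈ L := hL 14
  have md_th : d.th ∈ L := hL 15
  have md_et : d.et ∈ L := hL 16
  have me_al1 : e.al1 ∈ L := hL 17
  have me_al2 : e.al2 ∈ L := hL 18
  have me_a1 : e.a1 ∈ L := hL 19
  have me_om : e.om ∈ L := hL 20
  have me_be1 : e.be1 ∈ L := hL 21
  have me_be2 : e.be2 ∈ L := hL 22
  have me_p1 : e.p1 ∈ L := hL 23
  have me_p2 : e.p2 ∈ L := hL 24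
  have me_q1 : e.q1 ∈ L := hL 25
  have me_b0 : e.b0 ∈ L := hL 26
  have me_b1 : e.b1 ∈ L := hL 27
  have me_r1 : e.r1 ∈ L := hL 28
  have me_n : e.n ∈ L := hL 29
  have me_ka : e.ka ∈ L := hL 30
  have md_al0 : d.al0 ∈ L := by rw [z1]; exact zero_mem L
  have me_al0 : e.al0 ∈ L := by rw [z2]; exact zero_mem L
  have md_be0 : d.be0 ∈ L := by rw [z3]; exact zero_mem L
  have me_be0 : e.be0 ∈ L := by rw [z4]; exact zero_mem L
  have md_r0 : d.r0 ∈ L := by rw [z5]; exact zero_mem L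
  have me_r0 : e.r0 ∈ L := by rw [z6]; exact zero_mem L
  have md_lam : d.lam ∈ L := by rw [z7]; exact zero_mem L
  have me_lam : e.lam ∈ L := by rw [z8]; exact zero_mem L
  have md_q0 : d.q0 ∈ L := by rw [z9]; exact zero_mem L
  have me_q0 : e.q0 ∈ L := by rw [z10]; exact zero_mem L
  have md_a0 : d.a0 ∈ L := by rw [z12]; exact zero_mem L
  have me_a0 : e.a0 ∈ L := of_mul hk md_ka (zero_mem L) (by
      have h := r.VP
      simp only [z1, z2, z12, mul_zero, zero_mul, add_zero, zero_add] at h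
      linear_combination h)
  have me_et : e.et ∈ L := of_mul hk md_ka (mul_mem md_et me_ka) (by
      have h := r.FW
      simp only [z5, z6, mul_zero, zero_mul, add_zero, zero_add] at h
      linear_combination -h)
  have me_pi : e.pi ∈ L := of_mul hk md_ka (mul_mem me_ka md_pi) (by
    have h1 := r.WW2
    have h2 := r.FW
    simp only [z1, z2, z3, z4, z5, z6, z9, z10, mul_zero, zero_mul, add_zero, zero_add] at h1 h2
    refine mul_left_cancel₀ he ?_
    linear_combination d.ka * h1 - d.pi * h2)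
  have me_th : e.th ∈ L := of_mul hk md_ka (sub_mem (add_mem (mul_mem md_b0 me_n) (mul_mem md_th
      me_ka)) (mul_mem me_b0 md_n)) (by
      have h := r.FV2
      simp only [z3, z4, z5, z6, mul_zero, zero_mul, add_zero, zero_add] at h
      linear_combination -h)
  exact ⟨⟨md_al0, md_al1, md_al2, md_a0, md_a1, md_om, md_be0, md_be1, md_be2, md_p1, md_p2,
      md_q0, md_q1, md_pi, md_b0, md_b1, md_r0, md_r1, md_n, md_ka, md_th, md_et, md_lam⟩,
    ⟨me_al0, me_al1, me_al2, me_a0, me_a1, me_om, me_be0, me_be1, me_be2, me_p1, me_p2, me_q0,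
        me_q1, me_pi, me_b0, me_b1, me_r0, me_r1, me_n, me_ka, me_th, me_et, me_lam⟩⟩

theorem lIIba (hc : c5 = 0 ∨ c5 = 1) (r : Rel c5 d e) (z1 : d.al0 = 0) (z2 : e.al0 = 0) (z3 :
    d.be0 = 0)
    (z4 : e.be0 = 0) (z5 : d.r0 = 0) (z6 : e.r0 = 0) (z7 : d.lam = 0) (z8 : e.lam = 0)
    (hk : d.ka ≠ 0) (z9 : d.q0 = 0) (z10 : e.q0 = 0) (z11 : d.et = 0)
    (ha : d.a0 ≠ 0) : Few k d e := by
  have mc' : ∀ L : IntermediateField k K, c5 ∈ L := fun L => by
    rcases hc with rfl | rfl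
    · exact zero_mem L
    · exact one_mem L
  refine ⟨![d.al1, d.al2, d.a0, d.a1, d.om, d.be1, d.be2, d.p1, d.p2, d.q1, d.pi, d.b0, d.b1,
      d.r1, d.n, d.ka, d.th, e.al1, e.al2, e.a1, e.om, e.be1, e.be2, e.p1, e.p2, e.q1, e.pi, e.b1,
      e.r1, e.n, e.ka], fun L hL => ?_⟩
  have mc := mc' L
  have md_al1 : d.al1 ∈ L := hL 0
  have md_al2 : d.al2 ∈ L := hL 1
  have md_a0 : d.a0 ∈ L := hL 2
  have md_a1 : d.a1 ∈ L := hL 3
  have md_om : d.om ∈ L := hL 4
  have md_be1 : d.be1 ∈ L := hL 5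
  have md_be2 : d.be2 ∈ L := hL 6
  have md_p1 : d.p1 ∈ L := hL 7
  have md_p2 : d.p2 ∈ L := hL 8
  have md_q1 : d.q1 ∈ L := hL 9
  have md_pi : d.pi ∈ L := hL 10
  have md_b0 : d.b0 ∈ L := hL 11
  have md_b1 : d.b1 ∈ L := hL 12
  have md_r1 : d.r1 ∈ L := hL 13
  have md_n : d.n ∈ L := hL 14
  have md_ka : d.ka ∈ L := hL 15
  have md_th : d.th ∈ L := hL 16
  have me_al1 : e.al1 ∈ L := hL 17
  have me_al2 : e.al2 ∈ L := hL 18
  have me_a1 : e.a1 ∈ L := hL 19
  have me_om : e.om ∈ L := hL 20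
  have me_be1 : e.be1 ∈ L := hL 21
  have me_be2 : e.be2 ∈ L := hL 22
  have me_p1 : e.p1 ∈ L := hL 23
  have me_p2 : e.p2 ∈ L := hL 24
  have me_q1 : e.q1 ∈ L := hL 25
  have me_pi : e.pi ∈ L := hL 26
  have me_b1 : e.b1 ∈ L := hL 27
  have me_r1 : e.r1 ∈ L := hL 28
  have me_n : e.n ∈ L := hL 29
  have me_ka : e.ka ∈ L := hL 30
  have md_al0 : d.al0 ∈ L := by rw [z1]; exact zero_mem L
  have me_al0 : e.al0 ∈ L := by rw [z2]; exact zero_mem L
  have md_be0 : d.be0 ∈ L := by rw [z3]; exact zero_mem L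
  have me_be0 : e.be0 ∈ L := by rw [z4]; exact zero_mem L
  have md_r0 : d.r0 ∈ L := by rw [z5]; exact zero_mem L
  have me_r0 : e.r0 ∈ L := by rw [z6]; exact zero_mem L
  have md_lam : d.lam ∈ L := by rw [z7]; exact zero_mem L
  have me_lam : e.lam ∈ L := by rw [z8]; exact zero_mem L
  have md_q0 : d.q0 ∈ L := by rw [z9]; exact zero_mem L
  have me_q0 : e.q0 ∈ L := by rw [z10]; exact zero_mem L
  have md_et : d.et ∈ L := by rw [z11]; exact zero_mem L
  have me_a0 : e.a0 ∈ L := of_mul hk md_ka (mul_mem me_ka md_a0) (by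
      have h := r.VP
      simp only [z1, z2, mul_zero, zero_mul, add_zero, zero_add] at h
      linear_combination h)
  have me_et : e.et ∈ L := of_mul hk md_ka (zero_mem L) (by
      have h := r.FW
      simp only [z5, z6, z11, mul_zero, zero_mul, add_zero, zero_add] at h
      linear_combination -h)
  have me_b0 : e.b0 ∈ L := of_mul ha md_a0 (mul_mem md_b0 me_a0) (by
      have h := r.VV2
      simp only [z1, z2, z3, z4, mul_zero, zero_mul, add_zero, zero_add] at h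
      linear_combination -h)
  have me_th : e.th ∈ L := of_mul hk md_ka (sub_mem (add_mem (mul_mem md_b0 me_n) (mul_mem md_th
      me_ka)) (mul_mem me_b0 md_n)) (by
      have h := r.FV2
      simp only [z3, z4, z5, z6, mul_zero, zero_mul, add_zero, zero_add] at h
      linear_combination -h)
  exact ⟨⟨md_al0, md_al1, md_al2, md_a0, md_a1, md_om, md_be0, md_be1, md_be2, md_p1, md_p2,
      md_q0, md_q1, md_pi, md_b0, md_b1, md_r0, md_r1, md_n, md_ka, md_th, md_et, md_lam⟩,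
    ⟨me_al0, me_al1, me_al2, me_a0, me_a1, me_om, me_be0, me_be1, me_be2, me_p1, me_p2, me_q0,
        me_q1, me_pi, me_b0, me_b1, me_r0, me_r1, me_n, me_ka, me_th, me_et, me_lam⟩⟩

theorem lIIbb (hc : c5 = 0 ∨ c5 = 1) (r : Rel c5 d e) (z1 : d.al0 = 0) (z2 : e.al0 = 0) (z3 :
    d.be0 = 0)
    (z4 : e.be0 = 0) (z5 : d.r0 = 0) (z6 : e.r0 = 0) (z7 : d.lam = 0) (z8 : e.lam = 0)
    (hk : d.ka ≠ 0) (z9 : d.q0 = 0) (z10 : e.q0 = 0) (z11 : d.et = 0)
    (z12 : d.a0 = 0) : Few k d e := by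
  have mc' : ∀ L : IntermediateField k K, c5 ∈ L := fun L => by
    rcases hc with rfl | rfl
    · exact zero_mem L
    · exact one_mem L
  refine ⟨![d.al1, d.al2, d.a1, d.om, d.be1, d.be2, d.p1, d.p2, d.q1, d.pi, d.b0, d.b1, d.r1, d.n,
      d.ka, d.th, e.al1, e.al2, e.a1, e.om, e.be1, e.be2, e.p1, e.p2, e.q1, e.pi, e.b0, e.b1,
      e.r1, e.n, e.ka], fun L hL => ?_⟩
  have mc := mc' L
  have md_al1 : d.al1 ∈ L := hL 0
  have md_al2 : d.al2 ∈ L := hL 1
  have md_a1 : d.a1 ∈ L := hL 2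
  have md_om : d.om ∈ L := hL 3
  have md_be1 : d.be1 ∈ L := hL 4
  have md_be2 : d.be2 ∈ L := hL 5
  have md_p1 : d.p1 ∈ L := hL 6
  have md_p2 : d.p2 ∈ L := hL 7
  have md_q1 : d.q1 ∈ L := hL 8
  have md_pi : d.pi ∈ L := hL 9
  have md_b0 : d.b0 ∈ L := hL 10
  have md_b1 : d.b1 ∈ L := hL 11
  have md_r1 : d.r1 ∈ L := hL 12
  have md_n : d.n ∈ L := hL 13
  have md_ka : d.ka ∈ L := hL 14
  have md_th : d.th ∈ L := hL 15
  have me_al1 : e.al1 ∈ L := hL 16
  have me_al2 : e.al2 ∈ L := hL 17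
  have me_a1 : e.a1 ∈ L := hL 18
  have me_om : e.om ∈ L := hL 19
  have me_be1 : e.be1 ∈ L := hL 20
  have me_be2 : e.be2 ∈ L := hL 21
  have me_p1 : e.p1 ∈ L := hL 22
  have me_p2 : e.p2 ∈ L := hL 23
  have me_q1 : e.q1 ∈ L := hL 24
  have me_pi : e.pi ∈ L := hL 25
  have me_b0 : e.b0 ∈ L := hL 26
  have me_b1 : e.b1 ∈ L := hL 27
  have me_r1 : e.r1 ∈ L := hL 28
  have me_n : e.n ∈ L := hL 29
  have me_ka : e.ka ∈ L := hL 30
  have md_al0 : d.al0 ∈ L := by rw [z1]; exact zero_mem L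
  have me_al0 : e.al0 ∈ L := by rw [z2]; exact zero_mem L
  have md_be0 : d.be0 ∈ L := by rw [z3]; exact zero_mem L
  have me_be0 : e.be0 ∈ L := by rw [z4]; exact zero_mem L
  have md_r0 : d.r0 ∈ L := by rw [z5]; exact zero_mem L
  have me_r0 : e.r0 ∈ L := by rw [z6]; exact zero_mem L
  have md_lam : d.lam ∈ L := by rw [z7]; exact zero_mem L
  have me_lam : e.lam ∈ L := by rw [z8]; exact zero_mem L
  have md_q0 : d.q0 ∈ L := by rw [z9]; exact zero_mem L
  have me_q0 : e.q0 ∈ L := by rw [z10]; exact zero_mem L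
  have md_et : d.et ∈ L := by rw [z11]; exact zero_mem L
  have md_a0 : d.a0 ∈ L := by rw [z12]; exact zero_mem L
  have me_a0 : e.a0 ∈ L := of_mul hk md_ka (zero_mem L) (by
      have h := r.VP
      simp only [z1, z2, z12, mul_zero, zero_mul, add_zero, zero_add] at h
      linear_combination h)
  have me_et : e.et ∈ L := of_mul hk md_ka (zero_mem L) (by
      have h := r.FW
      simp only [z5, z6, z11, mul_zero, zero_mul, add_zero, zero_add] at h
      linear_combination -h)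
  have me_th : e.th ∈ L := of_mul hk md_ka (sub_mem (add_mem (mul_mem md_b0 me_n) (mul_mem md_th
      me_ka)) (mul_mem me_b0 md_n)) (by
      have h := r.FV2
      simp only [z3, z4, z5, z6, mul_zero, zero_mul, add_zero, zero_add] at h
      linear_combination -h)
  exact ⟨⟨md_al0, md_al1, md_al2, md_a0, md_a1, md_om, md_be0, md_be1, md_be2, md_p1, md_p2,
      md_q0, md_q1, md_pi, md_b0, md_b1, md_r0, md_r1, md_n, md_ka, md_th, md_et, md_lam⟩,
    ⟨me_al0, me_al1, me_al2, me_a0, me_a1, me_om, me_be0, me_be1, me_be2, me_p1, me_p2, me_q0,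
        me_q1, me_pi, me_b0, me_b1, me_r0, me_r1, me_n, me_ka, me_th, me_et, me_lam⟩⟩

theorem cI (hc : c5 = 0 ∨ c5 = 1) (r : Rel c5 d e) (z1 : d.al0 = 0) (z2 : e.al0 = 0) (z3 : d.be0 =
    0)
    (z4 : e.be0 = 0) (z5 : d.r0 = 0) (z6 : e.r0 = 0) (z7 : d.ka = 0) (z8 : e.ka = 0) : Few k d e
        := by
  by_cases hb : d.b0 = 0
  · by_cases hb' : e.b0 = 0
    · by_cases hq : d.q0 = 0
      · by_cases hq' : e.q0 = 0
        · by_cases hp : d.pi = 0
          · by_cases hp' : e.pi = 0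
            · by_cases h1 : d.be1 = 0
              · exact lI4c hc r z1 z2 z3 z4 z5 z6 z7 z8 hb hb' hq hq' hp hp' h1
              · exact lI4b hc r z1 z2 z3 z4 z5 z6 z7 z8 hb hb' hq hq' hp hp' h1
            · exact (lI4a hc r.symm' z2 z1 z4 z3 z6 z5 z8 z7 hb' hb hq' hq hp').swap
          · exact lI4a hc r z1 z2 z3 z4 z5 z6 z7 z8 hb hb' hq hq' hp
        · by_cases h1 : e.q0 * e.r1 - e.p1 * e.n = 0
          · exact (lI3b hc r.symm' z2 z1 z4 z3 z6 z5 z8 z7 hb' hb hq' h1).swap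
          · exact (lI3a hc r.symm' z2 z1 z4 z3 z6 z5 z8 z7 hb' hb hq' h1).swap
      · by_cases h1 : d.q0 * d.r1 - d.p1 * d.n = 0
        · exact lI3b hc r z1 z2 z3 z4 z5 z6 z7 z8 hb hb' hq h1
        · exact lI3a hc r z1 z2 z3 z4 z5 z6 z7 z8 hb hb' hq h1
    · by_cases hq : e.q0 = 0
      · exact (lI1b hc r.symm' z2 z1 z4 z3 z6 z5 z8 z7 hb' hq).swap
      · exact (lI1a hc r.symm' z2 z1 z4 z3 z6 z5 z8 z7 hb' hq).swap
  · by_cases hq : d.q0 = 0
    · exact lI1b hc r z1 z2 z3 z4 z5 z6 z7 z8 hb hq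
    · exact lI1a hc r z1 z2 z3 z4 z5 z6 z7 z8 hb hq

theorem cIIk (hc : c5 = 0 ∨ c5 = 1) (r : Rel c5 d e) (z1 : d.al0 = 0) (z2 : e.al0 = 0) (z3 : d.be0
    = 0)
    (z4 : e.be0 = 0) (z5 : d.r0 = 0) (z6 : e.r0 = 0) (z7 : d.lam = 0) (z8 : e.lam = 0)
    (hk : d.ka ≠ 0) : Few k d e := by
  by_cases hq : d.q0 = 0
  · have hq' : e.q0 = 0 := by
      have h := r.WP
      rw [hq, mul_zero] at h
      exact (mul_eq_zero.1 h).resolve_left hk
    by_cases he : d.et = 0
    · by_cases ha : d.a0 = 0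
      · exact lIIbb hc r z1 z2 z3 z4 z5 z6 z7 z8 hk hq hq' he ha
      · exact lIIba hc r z1 z2 z3 z4 z5 z6 z7 z8 hk hq hq' he ha
    · by_cases ha : d.a0 = 0
      · exact lIIab hc r z1 z2 z3 z4 z5 z6 z7 z8 hk hq hq' he ha
      · exact lIIaa hc r z1 z2 z3 z4 z5 z6 z7 z8 hk hq hq' he ha
  · exact lIIa hc r z1 z2 z3 z4 z5 z6 z7 z8 hk hq

theorem cII (hc : c5 = 0 ∨ c5 = 1) (r : Rel c5 d e) (z1 : d.al0 = 0) (z2 : e.al0 = 0) (z3 : d.be0
    = 0)
    (z4 : e.be0 = 0) (z5 : d.r0 = 0) (z6 : e.r0 = 0) (z7 : d.lam = 0) (z8 : e.lam = 0) : Few k d e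
        := by
  by_cases hk : d.ka = 0
  · by_cases hk' : e.ka = 0
    · exact cI hc r z1 z2 z3 z4 z5 z6 hk hk'
    · exact (cIIk hc r.symm' z2 z1 z4 z3 z6 z5 z8 z7 hk').swap
  · exact cIIk hc r z1 z2 z3 z4 z5 z6 z7 z8 hk

/-- the stratum `al0 = be0 = 0` -/
theorem c0 (hc : c5 = 0 ∨ c5 = 1) (r : Rel c5 d e) (z1 : d.al0 = 0) (z2 : e.al0 = 0)
    (z3 : d.be0 = 0) (z4 : e.be0 = 0)
    (R1 : (d.q0 = 0 ∧ e.q0 = 0) ∨ (d.r0 = 0 ∧ e.r0 = 0))
    (R2 : (d.lam = 0 ∧ e.lam = 0) ∨ (d.ka = 0 ∧ e.ka = 0)) : Few k d e := by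
  rcases R1 with ⟨h1, h2⟩ | ⟨h1, h2⟩
  · rcases R2 with ⟨h3, h4⟩ | ⟨h3, h4⟩
    · exact (cI hc r.dual' z3 z4 z1 z2 h1 h2 h3 h4).dual
    · exact (cII hc r.dual' z3 z4 z1 z2 h1 h2 h3 h4).dual
  · rcases R2 with ⟨h3, h4⟩ | ⟨h3, h4⟩
    · exact cII hc r z1 z2 z3 z4 h1 h2 h3 h4
    · exact cI hc r z1 z2 z3 z4 h1 h2 h3 h4

/-- the stratum `al0 ≠ 0` -/
theorem c1 (hc : c5 = 0 ∨ c5 = 1) (r : Rel c5 d e) (ha : d.al0 ≠ 0)
    (R1 : (d.q0 = 0 ∧ e.q0 = 0) ∨ (d.r0 = 0 ∧ e.r0 = 0))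
    (R2 : (d.lam = 0 ∧ e.lam = 0) ∨ (d.ka = 0 ∧ e.ka = 0)) : Few k d e := by
  by_cases hq : d.q0 = 0
  swap
  · rcases R1 with ⟨h1, h2⟩ | ⟨h1, h2⟩
    · exact absurd h1 hq
    · exact lA hc r ha hq h1 h2
  have hq' : e.q0 = 0 := by
    have h := r.VF1
    rw [hq, zero_mul] at h
    exact (mul_eq_zero.1 h.symm).resolve_right ha
  by_cases hb : d.be0 = 0
  swap
  · by_cases hr : d.r0 = 0
    · have hr' : e.r0 = 0 := by
        have h := r.FV1
        rw [hr, mul_zero] at h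
        exact (mul_eq_zero.1 h).resolve_left hb
      rcases R2 with ⟨h3, h4⟩ | ⟨h3, h4⟩
      · exact lB1 hc r ha hb hq hq' hr hr' h3 h4
      · exact lB2 hc r ha hb hq hq' hr hr' h3 h4
    · exact (lA hc r.dual' hb hr hq hq').dual
  have hb' : e.be0 = 0 := by
    have h := r.VV1
    rw [hb, zero_mul] at h
    exact (mul_eq_zero.1 h.symm).resolve_right ha
  by_cases hl : d.lam = 0
  swap
  · rcases R2 with ⟨h3, h4⟩ | ⟨h3, h4⟩
    · exact absurd h3 hl
    · by_cases hp : d.pi = 0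
      · exact lC1a hc r ha hl hb hb' hq hq' h3 h4 hp
      · exact lC1b hc r ha hl hb hb' hq hq' h3 h4 hp
  by_cases hl' : e.lam = 0
  swap
  · rcases R2 with ⟨h3, h4⟩ | ⟨h3, h4⟩
    · exact absurd h4 hl'
    · refine lC1c hc r ha hb hb' hq hq' h3 h4 hl ?_ ?_
      · have h := r.PV
        simp only [hb, hb', hl, mul_zero, zero_mul, zero_add, add_zero] at h
        exact (mul_eq_zero.1 h).resolve_right hl'
      · have h := r.PW
        rw [hl, mul_zero] at h
        exact (mul_eq_zero.1 h).resolve_right hl'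
  by_cases hr : d.r0 = 0
  · by_cases hr' : e.r0 = 0
    · by_cases hb0 : d.b0 = 0
      · exact lC4b hc r ha hb hb' hq hq' hl hl' hr hr' hb0
      · exact lC4a hc r ha hb hb' hq hq' hl hl' hr hr' hb0
    · exact lC3 hc r ha hb hb' hq hq' hl hl' hr hr'
  · by_cases h1 : d.r0 * e.al0 - e.r0 * d.al0 = 0
    · by_cases hk : d.ka = 0
      · by_cases hk' : e.ka = 0
        · exact lC2rc hc r ha hb hb' hq hq' hl hl' hr h1 hk hk'
        · exact lC2rb hc r ha hb hb' hq hq' hl hl' hr h1 hk hk'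
      · exact lC2ra hc r ha hb hb' hq hq' hl hl' hr h1 hk
    · by_cases hk : d.ka = 0
      · by_cases hk' : e.ka = 0
        · exact lC2qc hc r ha hb hb' hq hq' hl hl' hr h1 hk hk'
        · exact lC2qb hc r ha hb hb' hq hq' hl hl' hr h1 hk hk'
      · exact lC2qa hc r ha hb hb' hq hq' hl hl' hr h1 hk

/-- **the count** -/
theorem few (hc : c5 = 0 ∨ c5 = 1) (r : Rel c5 d e)
    (R1 : (d.q0 = 0 ∧ e.q0 = 0) ∨ (d.r0 = 0 ∧ e.r0 = 0))
    (R2 : (d.lam = 0 ∧ e.lam = 0) ∨ (d.ka = 0 ∧ e.ka = 0)) : Few k d e := by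
  by_cases h1 : d.al0 = 0
  swap
  · exact c1 hc r h1 R1 R2
  by_cases h2 : e.al0 = 0
  swap
  · exact (c1 hc r.symm' h2 (R1.imp And.symm And.symm) (R2.imp And.symm And.symm)).swap
  by_cases h3 : d.be0 = 0
  swap
  · exact (c1 hc r.dual' h3 R1.symm R2.symm).dual
  by_cases h4 : e.be0 = 0
  swap
  · exact ((c1 hc r.symm'.dual' h4 (R1.imp And.symm And.symm).symm
      (R2.imp And.symm And.symm).symm).dual).swap
  exact c0 hc r h1 h2 h3 h4 R1 R2

theorem rank_map_eq {k K : Type*} [Field k] [Field K] [Algebra k K] {n : Type*} [Fintype n]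
    [DecidableEq n] (A : Matrix n n k) : (A.map (algebraMap k K)).rank = A.rank := by
  have hdet : ∀ {r : ℕ} (f g : Fin r → n), ((A.map (algebraMap k K)).submatrix f g).det =
      algebraMap k K (A.submatrix f g).det := by
    intro r f g
    rw [RingHom.map_det]
    rfl
  apply le_antisymm
  · obtain ⟨f, g, h⟩ := exists_minor' (A.map (algebraMap k K))
    refine D7.le_rank_of_minor A f g ?_
    intro h0
    rw [hdet, h0, map_zero] at h
    exact h rfl
  · obtain ⟨f, g, h⟩ := exists_minor' A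
    refine D7.le_rank_of_minor _ f g ?_
    rw [hdet]
    exact (map_ne_zero (algebraMap k K)).2 h

end Pool.Agent.Lib.D13.Q
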