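import Mathlib
import Pool.Agent.Lib.D13.GenCnt

/-!
# MP_5dcbc3_ag: the count of parameters for the types (l, 3, 2, 2), l ≥ 5

The coordinates of a matrix commuting with the nilpotent matrix of type `(l, 3, 2, 2)` (with `r0 = 0`,
`N0 = 0`) are `al0`; `a, c, g, th, th1` in `K ^ 3`; `be2`; `N` in `M_3(K)`. `cnt322`: two commuting
such matrices have coordinates of transcendence degree at most `39 = 52 - 13`.
-/

set_option linter.unusedSectionVars false

namespace Pool.Agent.Lib.D13.C322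

open Matrix

section tools

variable {k K : Type*} [Field k] [Field K] [Algebra k K]

/-- solving a linear equation -/
theorem solve {L : IntermediateField k K} {ι : Type*} [Fintype ι] [DecidableEq ι] {u v : ι → K}
    {j : ι} (huj : u j ≠ 0) (hu : ∀ i, u i ∈ L) (hv : ∀ i, i ≠ j → v i ∈ L)
    (h : ∑ i, u i * v i ∈ L) : v j ∈ L := by
  have h1 : v j = (u j)⁻¹ * (∑ i, u i * v i - ∑ i ∈ Finset.univ.erase j, u i * v i) := by
    rw [← Finset.add_sum_erase _ _ (Finset.mem_univ j), add_sub_cancel_right,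
      inv_mul_cancel_left₀ huj]
  rw [h1]
  exact mul_mem (inv_mem (hu j)) (sub_mem h (sum_mem fun i hi =>
    mul_mem (hu i) (hv i (Finset.mem_erase.1 hi).1)))

/-- eliminated coordinates -/
theorem rk_elim {ι : Type*} [Fintype ι] [DecidableEq ι] (f : ι → K) (E : Finset ι)
    (h : ∀ i ∈ E, f i ∈ FF k (Set.range fun j : {j // j ∉ E} => f j)) {r : ℕ}
    (hr : Fintype.card ι ≤ r + E.card) : rk k (Set.range f) ≤ r := by
  have h1 : rk k (Set.range f) ≤ Fintype.card {j // j ∉ E} := by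
    refine rk_le_card (fun j : {j // j ∉ E} => f j) ?_
    rintro _ ⟨i, rfl⟩
    by_cases hi : i ∈ E
    · exact h i hi
    · exact mem_FF_self ⟨⟨i, hi⟩, rfl⟩
  refine h1.trans ?_
  have h2 : Fintype.card {j // j ∉ E} = Fintype.card ι - E.card := by
    rw [Fintype.card_subtype_compl, Fintype.card_coe]
  rw [h2]
  exact_mod_cast (by omega : Fintype.card ι - E.card ≤ r)

end tools

/-- coordinates of a matrix -/
structure Dat (K : Type*) where
  /-- `al0` -/
  al : K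
  /-- `be2` -/
  be : K
  /-- `(al1, a0)` -/
  a : Fin 3 → K
  /-- `(al2, a1)` -/
  c : Fin 3 → K
  /-- `(p2, q1)` -/
  g : Fin 3 → K
  /-- `(be0, b0)` -/
  th : Fin 3 → K
  /-- `(be1, b1)` -/
  th1 : Fin 3 → K
  /-- `N`, the column `0` is `(p1, q0)` -/
  N : Matrix (Fin 3) (Fin 3) K

/-- index set of the coordinates -/
inductive Ix
  | al | be
  | a (i : Fin 3)
  | c (i : Fin 3)
  | g (i : Fin 3)
  | th (i : Fin 3)
  | th1 (i : Fin 3)
  | N (i j : Fin 3)
  deriving DecidableEq, Fintype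

/-- the coordinates as a function -/
def Dat.get {K : Type*} (x : Dat K) : Ix → K
  | .al => x.al
  | .be => x.be
  | .a i => x.a i
  | .c i => x.c i
  | .g i => x.g i
  | .th i => x.th i
  | .th1 i => x.th1 i
  | .N i j => x.N i j

/-- the relations equivalent to the commutation of two matrices -/
structure Rel {K : Type*} [Field K] (x y : Dat K) : Prop where
  r1 : ∀ i, y.al * x.N i 0 = x.al * y.N i 0
  r2 : ∀ i, y.al * x.g i + ∑ j, x.N i j * y.a j = x.al * y.g i + ∑ j, y.N i j * x.a j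
  r3 : y.al * x.th 0 = x.al * y.th 0
  r4 : y.al * x.th1 0 + ∑ j, x.th j * y.a j = x.al * y.th1 0 + ∑ j, y.th j * x.a j
  r5 : y.al * x.be + ∑ j, x.th1 j * y.a j + ∑ j, x.th j * y.c j =
    x.al * y.be + ∑ j, y.th1 j * x.a j + ∑ j, y.th j * x.c j
  r6 : ∀ m, ∑ j, x.th j * y.N j m = ∑ j, y.th j * x.N j m
  r7 : ∑ j, x.th1 j * y.N j 0 + ∑ j, x.th j * y.g j =
    ∑ j, y.th1 j * x.N j 0 + ∑ j, y.th j * x.g j
  r8 : ∀ i, ∑ j, x.N i j * y.N j 0 = ∑ j, y.N i j * x.N j 0

theorem Rel.swap {K : Type*} [Field K] {x y : Dat K} (h : Rel x y) : Rel y x where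
  r1 i := (h.r1 i).symm
  r2 i := (h.r2 i).symm
  r3 := h.r3.symm
  r4 := h.r4.symm
  r5 := h.r5.symm
  r6 m := (h.r6 m).symm
  r7 := h.r7.symm
  r8 i := (h.r8 i).symm

/-- all coordinates of two matrices -/
def crd {K : Type*} (x y : Dat K) : Ix ⊕ Ix → K := Sum.elim x.get y.get

theorem crd_swap {K : Type*} (x y : Dat K) : Set.range (crd x y) = Set.range (crd y x) := by
  rw [crd, crd, Set.Sum.elim_range, Set.Sum.elim_range, Set.union_comm]

variable {k K : Type*} [Field k] [Field K] [Algebra k K] {x y : Dat K}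

/-- the coordinates eliminated if `al ≠ 0` -/
def E0 : Finset (Ix ⊕ Ix) :=
  {.inr (.N 0 0), .inr (.N 1 0), .inr (.N 2 0), .inr (.g 0), .inr (.g 1), .inr (.g 2),
    .inr (.th 0), .inr (.th1 0), .inr .be}

/-- all coordinates of one matrix are in `L` -/
structure In (L : IntermediateField k K) (x : Dat K) : Prop where
  al : x.al ∈ L
  be : x.be ∈ L
  a : ∀ i, x.a i ∈ L
  c : ∀ i, x.c i ∈ L
  g : ∀ i, x.g i ∈ L
  th : ∀ i, x.th i ∈ L
  th1 : ∀ i, x.th1 i ∈ L
  N : ∀ i j, x.N i j ∈ L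

theorem In.get {L : IntermediateField k K} (h : In L x) (i : Ix) : x.get i ∈ L := by
  cases i
  · exact h.al
  · exact h.be
  · exact h.a _
  · exact h.c _
  · exact h.g _
  · exact h.th _
  · exact h.th1 _
  · exact h.N _ _

/-- the coordinates determined by the others if `al ≠ 0` -/
theorem in_y {L : IntermediateField k K} (h : Rel x y) (hx : x.al ≠ 0) (X : In L x)
    (yal : y.al ∈ L) (ya : ∀ i, y.a i ∈ L) (yc : ∀ i, y.c i ∈ L) (yth : ∀ i, y.th i ∈ L)
    (yth1 : ∀ i, i ≠ 0 → y.th1 i ∈ L) (yN : ∀ i j, y.N i j ∈ L) : In L y := by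
  have hs : ∀ {u v : K}, x.al * u = v → v ∈ L → u ∈ L := by
    intro u v huv hv
    have h1 : u = x.al⁻¹ * v := by rw [← huv, inv_mul_cancel_left₀ hx]
    rw [h1]
    exact mul_mem (inv_mem X.al) hv
  have yth1' : ∀ i, y.th1 i ∈ L := by
    intro i
    by_cases hi : i = 0
    · subst hi
      refine hs (eq_sub_of_add_eq h.r4.symm) (sub_mem (add_mem (mul_mem yal (X.th1 0))
        (sum_mem fun j _ => mul_mem (X.th j) (ya j))) (sum_mem fun j _ => mul_mem (yth j) (X.a j)))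
    · exact yth1 i hi
  refine ⟨yal, ?_, ya, yc, fun i => ?_, yth, yth1', yN⟩
  · have h1 := h.r5.symm
    rw [add_assoc] at h1
    refine hs (eq_sub_of_add_eq h1) (sub_mem (add_mem (add_mem (mul_mem yal X.be)
      (sum_mem fun j _ => mul_mem (X.th1 j) (ya j))) (sum_mem fun j _ => mul_mem (X.th j) (yc j)))
      (add_mem (sum_mem fun j _ => mul_mem (yth1' j) (X.a j))
        (sum_mem fun j _ => mul_mem (yth j) (X.c j))))
  · exact hs (eq_sub_of_add_eq (h.r2 i).symm) (sub_mem (add_mem (mul_mem yal (X.g i))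
      (sum_mem fun j _ => mul_mem (X.N i j) (ya j))) (sum_mem fun j _ => mul_mem (yN i j) (X.a j)))

theorem yN0_mem {L : IntermediateField k K} (h : Rel x y) (hx : x.al ≠ 0) (xal : x.al ∈ L)
    (yal : y.al ∈ L) {i : Fin 3} (hN : x.N i 0 ∈ L) : y.N i 0 ∈ L := by
  have h1 : y.N i 0 = x.al⁻¹ * (y.al * x.N i 0) := by
    rw [h.r1, inv_mul_cancel_left₀ hx]
  rw [h1]
  exact mul_mem (inv_mem xal) (mul_mem yal hN)

theorem yth0_mem {L : IntermediateField k K} (h : Rel x y) (hx : x.al ≠ 0) (xal : x.al ∈ L)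
    (yal : y.al ∈ L) (hth : x.th 0 ∈ L) : y.th 0 ∈ L := by
  have h1 : y.th 0 = x.al⁻¹ * (y.al * x.th 0) := by
    rw [h.r3, inv_mul_cancel_left₀ hx]
  rw [h1]
  exact mul_mem (inv_mem xal) (mul_mem yal hth)

theorem caseI1 (h : Rel x y) (hx : x.al ≠ 0) {m : Fin 3} (hm : m ≠ 0) (hn : x.N m 0 ≠ 0) :
    rk k (Set.range (crd x y)) ≤ 39 := by
  refine rk_elim (crd x y) (E0 ∪ {.inr (.N 0 m), .inr (.N 1 m), .inr (.N 2 m), .inr (.th m)})
    ?_ (by revert hm; fin_cases m <;> decide)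
  set L := FF k (Set.range fun j : {j // j ∉ E0 ∪ {.inr (.N 0 m), .inr (.N 1 m), .inr (.N 2 m),
    .inr (.th m)}} => crd x y j) with hL
  have hin : ∀ i, i ∉ E0 ∪ {.inr (.N 0 m), .inr (.N 1 m), .inr (.N 2 m), .inr (.th m)} →
      crd x y i ∈ L := fun i hi => mem_FF_self ⟨⟨i, hi⟩, rfl⟩
  have X : In L x := ⟨hin (.inl .al) (by simp [E0]), hin (.inl .be) (by simp [E0]),
    fun i => hin (.inl (.a i)) (by simp [E0]), fun i => hin (.inl (.c i)) (by simp [E0]),
    fun i => hin (.inl (.g i)) (by simp [E0]), fun i => hin (.inl (.th i)) (by simp [E0]),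
    fun i => hin (.inl (.th1 i)) (by simp [E0]), fun i j => hin (.inl (.N i j)) (by simp [E0])⟩
  have yal : y.al ∈ L := hin (.inr .al) (by simp [E0])
  have ya : ∀ i, y.a i ∈ L := fun i => hin (.inr (.a i)) (by simp [E0])
  have yc : ∀ i, y.c i ∈ L := fun i => hin (.inr (.c i)) (by simp [E0])
  have yth1 : ∀ i, i ≠ 0 → y.th1 i ∈ L := fun i hi => hin (.inr (.th1 i)) (by simp [E0, hi])
  have yN0 : ∀ i, y.N i 0 ∈ L := fun i => yN0_mem h hx X.al yal (X.N i 0)
  have yN' : ∀ i j, j ≠ m → y.N i j ∈ L := by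
    intro i j hj
    by_cases hj0 : j = 0
    · rw [hj0]; exact yN0 i
    · exact hin (.inr (.N i j)) (by simp [E0, hj, hj0])
  have yN : ∀ i j, y.N i j ∈ L := by
    intro i j
    by_cases hj : j = m
    · subst hj
      refine solve (u := fun j => x.N j 0) (v := fun j => y.N i j) hn (fun j => X.N j 0)
        (fun j hj => yN' i j hj) ?_
      have h1 := h.r8 i
      have h2 : ∑ j, x.N j 0 * y.N i j = ∑ j, x.N i j * y.N j 0 := by
        rw [h1]
        exact Finset.sum_congr rfl fun j _ => mul_comm _ _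
      rw [h2]
      exact sum_mem fun j _ => mul_mem (X.N i j) (yN0 j)
    · exact yN' i j hj
  have yth' : ∀ i, i ≠ m → y.th i ∈ L := by
    intro i hi
    by_cases hi0 : i = 0
    · rw [hi0]; exact yth0_mem h hx X.al yal (X.th 0)
    · exact hin (.inr (.th i)) (by simp [E0, hi, hi0])
  have yth : ∀ i, y.th i ∈ L := by
    intro i
    by_cases hi : i = m
    · subst hi
      refine solve (u := fun j => x.N j 0) (v := y.th) hn (fun j => X.N j 0) yth' ?_
      have h2 : ∑ j, x.N j 0 * y.th j = ∑ j, x.th j * y.N j 0 := by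
        rw [h.r6 0]
        exact Finset.sum_congr rfl fun j _ => mul_comm _ _
      rw [h2]
      exact sum_mem fun j _ => mul_mem (X.th j) (yN0 j)
    · exact yth' i hi
  have Y := in_y h hx X yal ya yc yth yth1 yN
  rintro (i | i) -
  · exact X.get i
  · exact Y.get i

/-- `al ≠ 0`, the column `0` of `N` is a multiple of `e_0`, `th ≠ 0` -/
theorem caseI2 (h : Rel x y) (hx : x.al ≠ 0) (h1 : x.N 1 0 = 0) (h2 : x.N 2 0 = 0) {l : Fin 3}
    (hl : x.th l ≠ 0) : rk k (Set.range (crd x y)) ≤ 39 := by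
  refine rk_elim (crd x y) (E0 ∪ {.inl (.N 1 0), .inl (.N 2 0), .inr (.N l 1), .inr (.N l 2)})
    ?_ (by fin_cases l <;> decide)
  set L := FF k (Set.range fun j : {j // j ∉ E0 ∪ {.inl (.N 1 0), .inl (.N 2 0), .inr (.N l 1),
    .inr (.N l 2)}} => crd x y j) with hL
  have hin : ∀ i, i ∉ E0 ∪ {.inl (.N 1 0), .inl (.N 2 0), .inr (.N l 1), .inr (.N l 2)} →
      crd x y i ∈ L := fun i hi => mem_FF_self ⟨⟨i, hi⟩, rfl⟩
  have xN : ∀ i j, x.N i j ∈ L := by
    intro i j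
    by_cases hj : j = 0
    · subst hj
      by_cases hi : i = 0
      · subst hi; exact hin (.inl (.N 0 0)) (by simp [E0])
      · have h3 : x.N i 0 = 0 := by
          revert hi
          fin_cases i
          · intro hi; exact absurd rfl hi
          · intro _; exact h1
          · intro _; exact h2
        rw [h3]; exact zero_mem _
    · exact hin (.inl (.N i j)) (by simp [E0, hj])
  have X : In L x := ⟨hin (.inl .al) (by simp [E0]), hin (.inl .be) (by simp [E0]),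
    fun i => hin (.inl (.a i)) (by simp [E0]), fun i => hin (.inl (.c i)) (by simp [E0]),
    fun i => hin (.inl (.g i)) (by simp [E0]), fun i => hin (.inl (.th i)) (by simp [E0]),
    fun i => hin (.inl (.th1 i)) (by simp [E0]), xN⟩
  have yal : y.al ∈ L := hin (.inr .al) (by simp [E0])
  have ya : ∀ i, y.a i ∈ L := fun i => hin (.inr (.a i)) (by simp [E0])
  have yc : ∀ i, y.c i ∈ L := fun i => hin (.inr (.c i)) (by simp [E0])
  have yth1 : ∀ i, i ≠ 0 → y.th1 i ∈ L := fun i hi => hin (.inr (.th1 i)) (by simp [E0, hi])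
  have yth : ∀ i, y.th i ∈ L := by
    intro i
    by_cases hi0 : i = 0
    · rw [hi0]; exact yth0_mem h hx X.al yal (X.th 0)
    · exact hin (.inr (.th i)) (by simp [E0, hi0])
  have yN0 : ∀ i, y.N i 0 ∈ L := fun i => yN0_mem h hx X.al yal (X.N i 0)
  have yN' : ∀ i j, i ≠ l → y.N i j ∈ L := by
    intro i j hi
    by_cases hj0 : j = 0
    · rw [hj0]; exact yN0 i
    · exact hin (.inr (.N i j)) (by simp [E0, hi, hj0])
  have yN : ∀ i j, y.N i j ∈ L := by
    intro i j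
    by_cases hi : i = l
    · subst hi
      refine solve (u := x.th) (v := fun i => y.N i j) hl X.th (fun i' hi' => yN' i' j hi') ?_
      rw [h.r6 j]
      exact sum_mem fun j' _ => mul_mem (yth j') (X.N j' j)
    · exact yN' i j hi
  have Y := in_y h hx X yal ya yc yth yth1 yN
  rintro (i | i) -
  · exact X.get i
  · exact Y.get i

/-- `al ≠ 0`, `th = 0`, the column `0` of `N` is a multiple of `e_0` -/
theorem caseI3 (h : Rel x y) (hx : x.al ≠ 0) (h1 : x.N 1 0 = 0) (h2 : x.N 2 0 = 0)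
    (hl : ∀ l, x.th l = 0) : rk k (Set.range (crd x y)) ≤ 39 := by
  refine rk_elim (crd x y) (E0 ∪ {.inl (.N 1 0), .inl (.N 2 0), .inl (.th 0), .inl (.th 1),
    .inl (.th 2)}) ?_ (by decide)
  set L := FF k (Set.range fun j : {j // j ∉ E0 ∪ {.inl (.N 1 0), .inl (.N 2 0), .inl (.th 0),
    .inl (.th 1), .inl (.th 2)}} => crd x y j) with hL
  have hin : ∀ i, i ∉ E0 ∪ {.inl (.N 1 0), .inl (.N 2 0), .inl (.th 0), .inl (.th 1),
    .inl (.th 2)} → crd x y i ∈ L := fun i hi => mem_FF_self ⟨⟨i, hi⟩, rfl⟩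
  have xN : ∀ i j, x.N i j ∈ L := by
    intro i j
    by_cases hj : j = 0
    · subst hj
      by_cases hi : i = 0
      · subst hi; exact hin (.inl (.N 0 0)) (by simp [E0])
      · have h3 : x.N i 0 = 0 := by
          revert hi
          fin_cases i
          · intro hi; exact absurd rfl hi
          · intro _; exact h1
          · intro _; exact h2
        rw [h3]; exact zero_mem _
    · exact hin (.inl (.N i j)) (by simp [E0, hj])
  have X : In L x := ⟨hin (.inl .al) (by simp [E0]), hin (.inl .be) (by simp [E0]),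
    fun i => hin (.inl (.a i)) (by simp [E0]), fun i => hin (.inl (.c i)) (by simp [E0]),
    fun i => hin (.inl (.g i)) (by simp [E0]), fun i => by rw [hl i]; exact zero_mem _,
    fun i => hin (.inl (.th1 i)) (by simp [E0]), xN⟩
  have yal : y.al ∈ L := hin (.inr .al) (by simp [E0])
  have ya : ∀ i, y.a i ∈ L := fun i => hin (.inr (.a i)) (by simp [E0])
  have yc : ∀ i, y.c i ∈ L := fun i => hin (.inr (.c i)) (by simp [E0])
  have yth1 : ∀ i, i ≠ 0 → y.th1 i ∈ L := fun i hi => hin (.inr (.th1 i)) (by simp [E0, hi])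
  have yth : ∀ i, y.th i ∈ L := by
    intro i
    by_cases hi0 : i = 0
    · rw [hi0]; exact yth0_mem h hx X.al yal (X.th 0)
    · exact hin (.inr (.th i)) (by simp [E0, hi0])
  have yN : ∀ i j, y.N i j ∈ L := by
    intro i j
    by_cases hj0 : j = 0
    · rw [hj0]; exact yN0_mem h hx X.al yal (X.N i 0)
    · exact hin (.inr (.N i j)) (by simp [E0, hj0])
  have Y := in_y h hx X yal ya yc yth yth1 yN
  rintro (i | i) -
  · exact X.get i
  · exact Y.get i

/-- **the count if `al ≠ 0`** -/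
theorem caseI (h : Rel x y) (hx : x.al ≠ 0) : rk k (Set.range (crd x y)) ≤ 39 := by
  by_cases h1 : x.N 1 0 = 0
  · by_cases h2 : x.N 2 0 = 0
    · by_cases h3 : ∃ l, x.th l ≠ 0
      · obtain ⟨l, hl⟩ := h3
        exact caseI2 h hx h1 h2 hl
      · push Not at h3
        exact caseI3 h hx h1 h2 h3
    · exact caseI1 h hx (by decide) h2
  · exact caseI1 h hx (by decide) h1

/-! ### `al = 0` -/

theorem card_ne (j : Fin 3) : Fintype.card {i : Fin 3 // i ≠ j} = 2 := by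
  revert j; decide

theorem le_of_add {a b : ℕ∞} {r m s c : ℕ} (h : a + r ≤ b + s) (hb : b ≤ m)
    (hm : m + s ≤ c + r) : a ≤ c := by
  have h1 : a + r ≤ (c : ℕ∞) + r := by
    refine h.trans ((add_le_add_left hb _).trans ?_)
    exact_mod_cast hm
  exact (ENat.add_le_add_iff_right (ENat.natCast_ne_top r)).1 h1

/-- the entries of two matrices -/
def nn (P Q : Matrix (Fin 3) (Fin 3) K) : Set K :=
  (Set.range fun z : Fin 3 × Fin 3 => P z.1 z.2) ∪ Set.range fun z : Fin 3 × Fin 3 => Q z.1 z.2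

theorem nn_sub {P Q : Matrix (Fin 3) (Fin 3) K} {L : IntermediateField k K}
    (hP : ∀ i j, P i j ∈ L) (hQ : ∀ i j, Q i j ∈ L) : nn P Q ⊆ L := by
  rintro _ (⟨z, rfl⟩ | ⟨z, rfl⟩)
  · exact hP _ _
  · exact hQ _ _

theorem nn_transpose (P Q : Matrix (Fin 3) (Fin 3) K) : nn Pᵀ Qᵀ = nn P Q := by
  unfold nn
  congr 1
  · ext a
    constructor
    · rintro ⟨z, rfl⟩; exact ⟨(z.2, z.1), rfl⟩
    · rintro ⟨z, rfl⟩; exact ⟨(z.2, z.1), rfl⟩
  · ext a
    constructor
    · rintro ⟨z, rfl⟩; exact ⟨(z.2, z.1), rfl⟩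
    · rintro ⟨z, rfl⟩; exact ⟨(z.2, z.1), rfl⟩

theorem nn_swap (P Q : Matrix (Fin 3) (Fin 3) K) : nn P Q = nn Q P := Set.union_comm _ _

theorem P_mem (P Q : Matrix (Fin 3) (Fin 3) K) (i j : Fin 3) : P i j ∈ FF k (nn P Q) :=
  mem_FF_self (Or.inl ⟨(i, j), rfl⟩)

theorem Q_mem (P Q : Matrix (Fin 3) (Fin 3) K) (i j : Fin 3) : Q i j ∈ FF k (nn P Q) :=
  mem_FF_self (Or.inr ⟨(i, j), rfl⟩)

/-- the relation `[P, Q] e_0 = 0` eliminates three entries: a column -/
theorem nn_le1 {P Q : Matrix (Fin 3) (Fin 3) K}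
    (h : ∀ i, ∑ j, P i j * Q j 0 = ∑ j, Q i j * P j 0) {m : Fin 3} (hm : m ≠ 0)
    (hq : Q m 0 ≠ 0) : rk k (nn P Q) ≤ 15 := by
  let f : (Fin 3 × Fin 3) ⊕ (Fin 3 × Fin 3) → K :=
    Sum.elim (fun z => P z.1 z.2) fun z => Q z.1 z.2
  have hf : nn P Q = Set.range f := by rw [nn, Set.Sum.elim_range]
  rw [hf]
  refine rk_elim f {.inl (0, m), .inl (1, m), .inl (2, m)} ?_ (by fin_cases m <;> decide)
  set L := FF k (Set.range fun j : {j // j ∉ ({.inl (0, m), .inl (1, m), .inl (2, m)} :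
    Finset ((Fin 3 × Fin 3) ⊕ (Fin 3 × Fin 3)))} => f j) with hL
  have hin : ∀ i, i ∉ ({.inl (0, m), .inl (1, m), .inl (2, m)} :
      Finset ((Fin 3 × Fin 3) ⊕ (Fin 3 × Fin 3))) → f i ∈ L :=
    fun i hi => mem_FF_self ⟨⟨i, hi⟩, rfl⟩
  have hQ : ∀ i j, Q i j ∈ L := fun i j => hin (.inr (i, j)) (by simp)
  have hP : ∀ i j, j ≠ m → P i j ∈ L := fun i j hj => hin (.inl (i, j)) (by simp [hj])
  have hP' : ∀ i j, P i j ∈ L := by
    intro i j
    by_cases hj : j = m
    · subst hj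
      refine solve (u := fun j => Q j 0) (v := fun j => P i j) hq (fun j => hQ j 0)
        (fun j hj => hP i j hj) ?_
      have h2 : ∑ j, Q j 0 * P i j = ∑ j, Q i j * P j 0 := by
        rw [← h i]
        exact Finset.sum_congr rfl fun j _ => mul_comm _ _
      rw [h2]
      exact sum_mem fun j _ => mul_mem (hQ i j) (hP j 0 hm.symm)
    · exact hP i j hj
  rintro (i | i) -
  · exact hP' i.1 i.2
  · exact hQ i.1 i.2

/-- the relation `[P, Q] e_0 = 0` eliminates three entries -/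
theorem nn_le {P Q : Matrix (Fin 3) (Fin 3) K}
    (h : ∀ i, ∑ j, P i j * Q j 0 = ∑ j, Q i j * P j 0) : rk k (nn P Q) ≤ 15 := by
  by_cases h1 : Q 1 0 = 0
  · by_cases h2 : Q 2 0 = 0
    · by_cases h3 : P 1 0 = 0
      · by_cases h4 : P 2 0 = 0
        · let f : (Fin 3 × Fin 3) ⊕ (Fin 3 × Fin 3) → K :=
            Sum.elim (fun z => P z.1 z.2) fun z => Q z.1 z.2
          have hf : nn P Q = Set.range f := by rw [nn, Set.Sum.elim_range]
          rw [hf]
          refine rk_elim f {.inl (1, 0), .inl (2, 0), .inr (1, 0), .inr (2, 0)} ?_ (by decide)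
          intro i hi
          simp only [Finset.mem_insert, Finset.mem_singleton] at hi
          rcases hi with rfl | rfl | rfl | rfl
          · change P 1 0 ∈ _
            rw [h3]; exact zero_mem _
          · change P 2 0 ∈ _
            rw [h4]; exact zero_mem _
          · change Q 1 0 ∈ _
            rw [h1]; exact zero_mem _
          · change Q 2 0 ∈ _
            rw [h2]; exact zero_mem _
        · rw [nn_swap]
          exact nn_le1 (fun i => (h i).symm) (by decide) h4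
      · rw [nn_swap]
        exact nn_le1 (fun i => (h i).symm) (by decide) h3
    · exact nn_le1 h (by decide) h2
  · exact nn_le1 h (by decide) h1

/-- a row is a combination of the others -/
theorem row_mem {L : IntermediateField k K} {P : Matrix (Fin 3) (Fin 3) K} {y : Fin 3 → K}
    {j : Fin 3} (hj : y j ≠ 0) (hy : ∀ i, y i / y j ∈ L) {m : Fin 3}
    (hP : ∀ i, i ≠ j → P i m ∈ L) (h : ∑ i, y i * P i m = 0) : P j m ∈ L := by
  refine solve (u := fun i => y i / y j) (v := fun i => P i m) ?_ hy hP ?_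
  · rw [div_self hj]; exact one_ne_zero
  · have h1 : ∑ i, y i / y j * P i m = (∑ i, y i * P i m) / y j := by
      rw [Finset.sum_div]
      exact Finset.sum_congr rfl fun i _ => by ring
    rw [h1, h, zero_div]
    exact zero_mem _

/-- a relation between the rows eliminates four entries -/
theorem nn_le14 {P Q : Matrix (Fin 3) (Fin 3) K} {y : Fin 3 → K} (hy : y ≠ 0)
    (hP : ∀ m, ∑ i, y i * P i m = 0) (hQ : ∀ m, ∑ i, y i * Q i m = 0) :
    rk k (nn P Q) ≤ 14 := by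
  obtain ⟨j, hj⟩ := Function.ne_iff.1 hy
  have hj' : y j ≠ 0 := hj
  let u : ({i : Fin 3 // i ≠ j} × Fin 3) ⊕ (({i : Fin 3 // i ≠ j} × Fin 3) ⊕
      {i : Fin 3 // i ≠ j}) → K :=
    Sum.elim (fun z => P z.1 z.2) (Sum.elim (fun z => Q z.1 z.2) fun i => y i / y j)
  have h1 : ∀ i, y i / y j ∈ FF k (Set.range u) := by
    intro i
    by_cases hi : i = j
    · rw [hi, div_self hj']; exact one_mem _
    · exact mem_FF_self ⟨.inr (.inr ⟨i, hi⟩), rfl⟩
  have h2 : ∀ i m, P i m ∈ FF k (Set.range u) := by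
    intro i m
    by_cases hi : i = j
    · rw [hi]
      exact row_mem hj' h1 (fun i hi => mem_FF_self ⟨.inl (⟨i, hi⟩, m), rfl⟩) (hP m)
    · exact mem_FF_self ⟨.inl (⟨i, hi⟩, m), rfl⟩
  have h3 : ∀ i m, Q i m ∈ FF k (Set.range u) := by
    intro i m
    by_cases hi : i = j
    · rw [hi]
      exact row_mem hj' h1 (fun i hi => mem_FF_self ⟨.inr (.inl (⟨i, hi⟩, m)), rfl⟩) (hQ m)
    · exact mem_FF_self ⟨.inr (.inl (⟨i, hi⟩, m)), rfl⟩
  refine (rk_le_card (k := k) u (nn_sub h2 h3)).trans ?_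
  have h4 := card_ne j
  rw [Fintype.card_sum, Fintype.card_sum, Fintype.card_prod, Fintype.card_fin, h4]
  norm_num

/-- a relation between the rows and a relation between the columns eliminate six entries -/
theorem nn_le12 {P Q : Matrix (Fin 3) (Fin 3) K} {y z : Fin 3 → K} (hy : y ≠ 0)
    (hz : z ≠ 0) (hP : ∀ m, ∑ i, y i * P i m = 0) (hQ : ∀ m, ∑ i, y i * Q i m = 0)
    (hP' : ∀ i, ∑ m, z m * P i m = 0) (hQ' : ∀ i, ∑ m, z m * Q i m = 0) :
    rk k (nn P Q) ≤ 12 := by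
  obtain ⟨j, hj⟩ := Function.ne_iff.1 hy
  have hj' : y j ≠ 0 := hj
  obtain ⟨l, hl⟩ := Function.ne_iff.1 hz
  have hl' : z l ≠ 0 := hl
  let u : ({i : Fin 3 // i ≠ j} × {i : Fin 3 // i ≠ l}) ⊕
      (({i : Fin 3 // i ≠ j} × {i : Fin 3 // i ≠ l}) ⊕ ({i : Fin 3 // i ≠ j} ⊕
      {i : Fin 3 // i ≠ l})) → K :=
    Sum.elim (fun w => P w.1 w.2) (Sum.elim (fun w => Q w.1 w.2)
      (Sum.elim (fun i => y i / y j) fun i => z i / z l))
  have h1 : ∀ i, y i / y j ∈ FF k (Set.range u) := by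
    intro i
    by_cases hi : i = j
    · rw [hi, div_self hj']; exact one_mem _
    · exact mem_FF_self ⟨.inr (.inr (.inl ⟨i, hi⟩)), rfl⟩
  have h1' : ∀ i, z i / z l ∈ FF k (Set.range u) := by
    intro i
    by_cases hi : i = l
    · rw [hi, div_self hl']; exact one_mem _
    · exact mem_FF_self ⟨.inr (.inr (.inr ⟨i, hi⟩)), rfl⟩
  have h2 : ∀ i m, i ≠ j → P i m ∈ FF k (Set.range u) := by
    intro i m hi
    by_cases hm : m = l
    · rw [hm]
      exact row_mem (P := Pᵀ) hl' h1'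
        (fun m hm => mem_FF_self ⟨.inl (⟨i, hi⟩, ⟨m, hm⟩), rfl⟩) (hP' i)
    · exact mem_FF_self ⟨.inl (⟨i, hi⟩, ⟨m, hm⟩), rfl⟩
  have h2' : ∀ i m, P i m ∈ FF k (Set.range u) := by
    intro i m
    by_cases hi : i = j
    · rw [hi]
      exact row_mem hj' h1 (fun i hi => h2 i m hi) (hP m)
    · exact h2 i m hi
  have h3 : ∀ i m, i ≠ j → Q i m ∈ FF k (Set.range u) := by
    intro i m hi
    by_cases hm : m = l
    · rw [hm]
      exact row_mem (P := Qᵀ) hl' h1'
        (fun m hm => mem_FF_self ⟨.inr (.inl (⟨i, hi⟩, ⟨m, hm⟩)), rfl⟩) (hQ' i)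
    · exact mem_FF_self ⟨.inr (.inl (⟨i, hi⟩, ⟨m, hm⟩)), rfl⟩
  have h3' : ∀ i m, Q i m ∈ FF k (Set.range u) := by
    intro i m
    by_cases hi : i = j
    · rw [hi]
      exact row_mem hj' h1 (fun i hi => h3 i m hi) (hQ m)
    · exact h3 i m hi
  refine (rk_le_card (k := k) u (nn_sub h2' h3')).trans ?_
  have h4 := card_ne j
  have h5 := card_ne l
  rw [Fintype.card_sum, Fintype.card_sum, Fintype.card_sum, Fintype.card_prod, h4, h5]
  norm_num

/-- the matrix of the system `P v' = Q v` for `(v, v')` -/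
def MM (P Q : Matrix (Fin 3) (Fin 3) K) : Matrix (Fin 3) (Fin 3 ⊕ Fin 3) K :=
  Matrix.of fun i => Sum.elim (fun j => - Q i j) fun j => P i j

theorem MM_mulVec (P Q : Matrix (Fin 3) (Fin 3) K) (v w : Fin 3 → K) (i : Fin 3) :
    (MM P Q *ᵥ Sum.elim v w) i = ∑ j, P i j * w j - ∑ j, Q i j * v j := by
  rw [MM, Matrix.mulVec, dotProduct, Fintype.sum_sum_type]
  simp only [Matrix.of_apply, Sum.elim_inl, Sum.elim_inr, neg_mul, Finset.sum_neg_distrib]
  ring

/-- either full rank or a relation between the rows -/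
theorem MM_rank (P Q : Matrix (Fin 3) (Fin 3) K) :
    (MM P Q).rank = 3 ∨ ∃ y : Fin 3 → K, y ≠ 0 ∧ (∀ m, ∑ i, y i * P i m = 0) ∧
      ∀ m, ∑ i, y i * Q i m = 0 := by
  by_cases h : LinearIndependent K (MM P Q).row
  · left
    rw [h.rank_matrix, Fintype.card_fin]
  · right
    rw [Fintype.not_linearIndependent_iff] at h
    obtain ⟨y, hy, i, hi⟩ := h
    refine ⟨y, fun h0 => hi (by rw [h0]; rfl), fun m => ?_, fun m => ?_⟩
    · have h1 := congrFun hy (Sum.inr m)
      simp only [Finset.sum_apply, Pi.smul_apply, smul_eq_mul, Pi.zero_apply] at h1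
      exact h1
    · have h1 := congrFun hy (Sum.inl m)
      simp only [Finset.sum_apply, Pi.smul_apply, smul_eq_mul, Pi.zero_apply] at h1
      have h2 : ∑ i, y i * Q i m = - ∑ i, y i * (MM P Q).row i (Sum.inl m) := by
        rw [← Finset.sum_neg_distrib]
        refine Finset.sum_congr rfl fun i _ => ?_
        have h3 : (MM P Q).row i (Sum.inl m) = - Q i m := rfl
        rw [h3]; ring
      rw [h2, h1, neg_zero]

/-- either a nonsingular minor of size two or few parameters -/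
theorem MM_minor (P Q : Matrix (Fin 3) (Fin 3) K) :
    (∃ (f : Fin 2 → Fin 3) (g : Fin 2 → Fin 3 ⊕ Fin 3), ((MM P Q).submatrix f g).det ≠ 0) ∨
      rk k (nn P Q) ≤ 8 := by
  by_cases h : ∃ (f : Fin 2 → Fin 3) (g : Fin 2 → Fin 3 ⊕ Fin 3),
      ((MM P Q).submatrix f g).det ≠ 0
  · exact Or.inl h
  · right
    push Not at h
    by_cases h0 : ∃ i m, MM P Q i m ≠ 0
    · obtain ⟨i₀, m₀, h0⟩ := h0
      have h1 : ∀ i m, MM P Q i m * MM P Q i₀ m₀ = MM P Q i m₀ * MM P Q i₀ m := by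
        intro i m
        have h2 := h ![i, i₀] ![m, m₀]
        rw [Matrix.det_fin_two] at h2
        simp only [Matrix.submatrix_apply, Matrix.cons_val_zero, Matrix.cons_val_one] at h2
        linear_combination h2
      let u : (Fin 3 ⊕ Fin 3) ⊕ {i : Fin 3 // i ≠ i₀} → K :=
        Sum.elim (fun m => MM P Q i₀ m) fun i => MM P Q i m₀
      have h3 : ∀ m, MM P Q i₀ m ∈ FF k (Set.range u) := fun m =>
        mem_FF_self ⟨.inl m, rfl⟩
      have h4 : ∀ i, MM P Q i m₀ ∈ FF k (Set.range u) := by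
        intro i
        by_cases hi : i = i₀
        · rw [hi]; exact h3 m₀
        · exact mem_FF_self ⟨.inr ⟨i, hi⟩, rfl⟩
      have h5 : ∀ i m, MM P Q i m ∈ FF k (Set.range u) := by
        intro i m
        have h6 : MM P Q i m = MM P Q i m₀ * MM P Q i₀ m / MM P Q i₀ m₀ := by
          rw [← h1, mul_div_cancel_right₀ _ h0]
        rw [h6]
        exact div_mem (mul_mem (h4 i) (h3 m)) (h3 m₀)
      refine (rk_le_card (k := k) u (nn_sub (fun i j => h5 i (Sum.inr j)) fun i j => ?_)).trans ?_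
      · have h6 := neg_mem (h5 i (Sum.inl j))
        have h7 : - MM P Q i (Sum.inl j) = Q i j := neg_neg _
        rwa [h7] at h6
      · have h8 := card_ne i₀
        rw [Fintype.card_sum, Fintype.card_sum, Fintype.card_fin, h8]
        norm_num
    · push Not at h0
      have h1 : nn P Q ⊆ FF k (Set.range (Empty.elim : Empty → K)) := by
        refine nn_sub (fun i j => ?_) fun i j => ?_
        · have h2 : P i j = 0 := h0 i (Sum.inr j)
          rw [h2]; exact zero_mem _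
        · have h2 : - Q i j = 0 := h0 i (Sum.inl j)
          rw [neg_eq_zero.1 h2]; exact zero_mem _
      refine (rk_le_card (k := k) _ h1).trans ?_
      simp

/-- the bounds for `(N, N', a, a')` and `(N, N', a, a', th, th')` -/
theorem t_le {P Q : Matrix (Fin 3) (Fin 3) K}
    (h8 : ∀ i, ∑ j, P i j * Q j 0 = ∑ j, Q i j * P j 0) {a a' th th' : Fin 3 → K}
    (h2 : ∀ i, ∑ j, P i j * a' j = ∑ j, Q i j * a j)
    (h6 : ∀ m, ∑ j, th j * Q j m = ∑ j, th' j * P j m) :
    rk k (nn P Q ∪ Set.range (Sum.elim a a')) ≤ 19 ∧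
    rk k (nn P Q ∪ Set.range (Sum.elim a a') ∪ Set.range (Sum.elim th th')) ≤ 21 := by
  classical
  have hMM : ∀ i m, MM P Q i m ∈ FF k (nn P Q) := by
    intro i m
    rcases m with m | m
    · exact neg_mem (Q_mem P Q i m)
    · exact P_mem P Q i m
  have hMM' : ∀ i m, MM Pᵀ Qᵀ i m ∈ FF k (nn P Q ∪ Set.range (Sum.elim a a')) := by
    intro i m
    refine FF_mono Set.subset_union_left ?_
    rcases m with m | m
    · exact neg_mem (Q_mem P Q m i)
    · exact P_mem P Q m i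
  have hw : ∀ i, (MM P Q *ᵥ Sum.elim a a') i ∈ FF k (nn P Q) := by
    intro i
    rw [MM_mulVec, h2, sub_self]
    exact zero_mem _
  have hw' : ∀ i, (MM Pᵀ Qᵀ *ᵥ Sum.elim th th') i ∈
      FF k (nn P Q ∪ Set.range (Sum.elim a a')) := by
    intro i
    rw [MM_mulVec]
    have h1 : ∑ j, Pᵀ i j * th' j - ∑ j, Qᵀ i j * th j = 0 := by
      rw [sub_eq_zero]
      refine Eq.trans ?_ (Eq.trans (h6 i).symm ?_)
      · exact Finset.sum_congr rfl fun j _ => mul_comm _ _
      · exact Finset.sum_congr rfl fun j _ => mul_comm _ _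
    rw [h1]
    exact zero_mem _
  have hc : Fintype.card (Fin 3 ⊕ Fin 3) = 6 := rfl
  have s1 := rk_linear (k := k) (MM P Q) (Sum.elim a a') hMM hw
  have s2 := rk_linear (k := k) (MM Pᵀ Qᵀ) (Sum.elim th th') hMM' hw'
  rw [hc] at s1 s2
  have s1' : rk k (nn P Q ∪ Set.range (Sum.elim a a')) + (0 : ℕ) ≤ rk k (nn P Q) + (6 : ℕ) :=
    le_trans (by gcongr; exact Nat.zero_le _) s1
  have s2' : rk k (nn P Q ∪ Set.range (Sum.elim a a') ∪ Set.range (Sum.elim th th')) + (0 : ℕ)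
      ≤ rk k (nn P Q ∪ Set.range (Sum.elim a a')) + (6 : ℕ) :=
    le_trans (by gcongr; exact Nat.zero_le _) s2
  have b15 : rk k (nn P Q) ≤ (15 : ℕ) := nn_le h8
  have m1 := MM_minor (k := k) P Q
  have m2 := MM_minor (k := k) Pᵀ Qᵀ
  rw [nn_transpose] at m2
  by_cases h8' : rk k (nn P Q) ≤ (8 : ℕ)
  · have e1 : rk k (nn P Q ∪ Set.range (Sum.elim a a')) ≤ (14 : ℕ) :=
      le_of_add s1' h8' (by norm_num)
    refine ⟨e1.trans (by norm_num), ?_⟩
    exact (le_of_add s2' e1 (by norm_num) : _ ≤ ((20 : ℕ) : ℕ∞)).trans (by norm_num)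
  · obtain ⟨f, g, hfg⟩ := m1.resolve_right h8'
    obtain ⟨f', g', hfg'⟩ := m2.resolve_right h8'
    have q1 := rk_linear_minor (k := k) (MM P Q) (Sum.elim a a') f g hfg hMM hw
    have q2 := rk_linear_minor (k := k) (MM Pᵀ Qᵀ) (Sum.elim th th') f' g' hfg' hMM' hw'
    rw [hc] at q1 q2
    refine ⟨(le_of_add q1 b15 (by norm_num) : _ ≤ ((19 : ℕ) : ℕ∞)), ?_⟩
    rcases MM_rank P Q with r1 | ⟨y, hy, hyP, hyQ⟩
    · rw [r1] at s1
      rcases MM_rank Pᵀ Qᵀ with r2 | ⟨z, hz, hzP, hzQ⟩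
      · rw [r2] at s2
        have e1 : rk k (nn P Q ∪ Set.range (Sum.elim a a')) ≤ (18 : ℕ) :=
          le_of_add s1 b15 (by norm_num)
        exact (le_of_add s2 e1 (by norm_num) : _ ≤ ((21 : ℕ) : ℕ∞))
      · have b14 : rk k (nn P Q) ≤ (14 : ℕ) := by
          rw [← nn_transpose]
          exact nn_le14 hz hzP hzQ
        have e1 : rk k (nn P Q ∪ Set.range (Sum.elim a a')) ≤ (17 : ℕ) :=
          le_of_add s1 b14 (by norm_num)
        exact (le_of_add q2 e1 (by norm_num) : _ ≤ ((21 : ℕ) : ℕ∞))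
    · have b14 : rk k (nn P Q) ≤ (14 : ℕ) := nn_le14 hy hyP hyQ
      rcases MM_rank Pᵀ Qᵀ with r2 | ⟨z, hz, hzP, hzQ⟩
      · rw [r2] at s2
        have e1 : rk k (nn P Q ∪ Set.range (Sum.elim a a')) ≤ (18 : ℕ) :=
          le_of_add q1 b14 (by norm_num)
        exact (le_of_add s2 e1 (by norm_num) : _ ≤ ((21 : ℕ) : ℕ∞))
      · have b12 : rk k (nn P Q) ≤ (12 : ℕ) := nn_le12 hy hz hyP hyQ hzP hzQ
        have e1 : rk k (nn P Q ∪ Set.range (Sum.elim a a')) ≤ (16 : ℕ) :=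
          le_of_add q1 b12 (by norm_num)
        exact (le_of_add q2 e1 (by norm_num) : _ ≤ ((20 : ℕ) : ℕ∞)).trans (by norm_num)

/-- the count if `al = al' = 0` and `th ≠ 0` -/
theorem caseII1 (h : Rel x y) (hx : x.al = 0) (hy : y.al = 0) {l : Fin 3} (hl : x.th l ≠ 0) :
    rk k (Set.range (crd x y)) ≤ 39 := by
  have h2 : ∀ i, ∑ j, x.N i j * y.a j = ∑ j, y.N i j * x.a j := by
    intro i
    have h1 := h.r2 i
    rwa [hx, hy, zero_mul, zero_mul, zero_add, zero_add] at h1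
  obtain ⟨-, ht⟩ := t_le (k := k) h.r8 h2 h.r6
  set t := nn x.N y.N ∪ Set.range (Sum.elim x.a y.a) ∪ Set.range (Sum.elim x.th y.th) with ht'
  let u : Fin 2 ⊕ (Fin 3 ⊕ ({i : Fin 3 // i ≠ l} ⊕ (Fin 3 ⊕ ({i : Fin 3 // i ≠ l} ⊕
      (Fin 3 ⊕ Fin 3))))) → K :=
    Sum.elim ![x.be, y.be] (Sum.elim x.c (Sum.elim (fun i => y.c i) (Sum.elim x.g
      (Sum.elim (fun i => y.g i) (Sum.elim x.th1 y.th1)))))
  have hu : ∀ i, u i ∈ FF k (t ∪ Set.range u) := fun i => mem_FF_self (Or.inr ⟨i, rfl⟩)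
  have hm : ∀ {a : K}, a ∈ t → a ∈ FF k (t ∪ Set.range u) := fun ha => mem_FF_self (Or.inl ha)
  have xN : ∀ i j, x.N i j ∈ FF k (t ∪ Set.range u) := fun i j =>
    hm (Or.inl (Or.inl (Or.inl ⟨(i, j), rfl⟩)))
  have yN : ∀ i j, y.N i j ∈ FF k (t ∪ Set.range u) := fun i j =>
    hm (Or.inl (Or.inl (Or.inr ⟨(i, j), rfl⟩)))
  have xa : ∀ i, x.a i ∈ FF k (t ∪ Set.range u) := fun i => hm (Or.inl (Or.inr ⟨.inl i, rfl⟩))
  have ya : ∀ i, y.a i ∈ FF k (t ∪ Set.range u) := fun i => hm (Or.inl (Or.inr ⟨.inr i, rfl⟩))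
  have xth : ∀ i, x.th i ∈ FF k (t ∪ Set.range u) := fun i => hm (Or.inr ⟨.inl i, rfl⟩)
  have yth : ∀ i, y.th i ∈ FF k (t ∪ Set.range u) := fun i => hm (Or.inr ⟨.inr i, rfl⟩)
  have xbe : x.be ∈ FF k (t ∪ Set.range u) := hu (.inl 0)
  have ybe : y.be ∈ FF k (t ∪ Set.range u) := hu (.inl 1)
  have xc : ∀ i, x.c i ∈ FF k (t ∪ Set.range u) := fun i => hu (.inr (.inl i))
  have xg : ∀ i, x.g i ∈ FF k (t ∪ Set.range u) := fun i => hu (.inr (.inr (.inr (.inl i))))
  have xth1 : ∀ i, x.th1 i ∈ FF k (t ∪ Set.range u) := fun i =>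
    hu (.inr (.inr (.inr (.inr (.inr (.inl i))))))
  have yth1 : ∀ i, y.th1 i ∈ FF k (t ∪ Set.range u) := fun i =>
    hu (.inr (.inr (.inr (.inr (.inr (.inr i))))))
  have yc : ∀ i, y.c i ∈ FF k (t ∪ Set.range u) := by
    intro i
    by_cases hi : i = l
    · subst hi
      refine solve (u := x.th) (v := y.c) hl xth
        (fun j hj => hu (.inr (.inr (.inl ⟨j, hj⟩)))) ?_
      have h1 := h.r5
      rw [hx, hy, zero_mul, zero_mul, zero_add, zero_add] at h1
      rw [eq_sub_of_add_eq' h1]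
      exact sub_mem (add_mem (sum_mem fun j _ => mul_mem (yth1 j) (xa j))
        (sum_mem fun j _ => mul_mem (yth j) (xc j))) (sum_mem fun j _ => mul_mem (xth1 j) (ya j))
    · exact hu (.inr (.inr (.inl ⟨i, hi⟩)))
  have yg : ∀ i, y.g i ∈ FF k (t ∪ Set.range u) := by
    intro i
    by_cases hi : i = l
    · subst hi
      refine solve (u := x.th) (v := y.g) hl xth
        (fun j hj => hu (.inr (.inr (.inr (.inr (.inl ⟨j, hj⟩)))))) ?_
      rw [eq_sub_of_add_eq' h.r7]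
      exact sub_mem (add_mem (sum_mem fun j _ => mul_mem (yth1 j) (xN j 0))
        (sum_mem fun j _ => mul_mem (yth j) (xg j))) (sum_mem fun j _ => mul_mem (xth1 j) (yN j 0))
    · exact hu (.inr (.inr (.inr (.inr (.inl ⟨i, hi⟩)))))
  have X : In (FF k (t ∪ Set.range u)) x := ⟨by rw [hx]; exact zero_mem _, xbe, xa, xc, xg, xth,
    xth1, xN⟩
  have Y : In (FF k (t ∪ Set.range u)) y := ⟨by rw [hy]; exact zero_mem _, ybe, ya, yc, yg, yth,
    yth1, yN⟩
  have h3 : Set.range (crd x y) ⊆ FF k (t ∪ Set.range u) := by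
    rintro _ ⟨i | i, rfl⟩
    · exact X.get i
    · exact Y.get i
  refine (rk_le_add_card (k := k) u h3).trans ?_
  have h4 : Fintype.card (Fin 2 ⊕ (Fin 3 ⊕ ({i : Fin 3 // i ≠ l} ⊕ (Fin 3 ⊕
      ({i : Fin 3 // i ≠ l} ⊕ (Fin 3 ⊕ Fin 3)))))) = 18 := by
    simp only [Fintype.card_sum, Fintype.card_fin, card_ne]
  rw [h4]
  calc rk k t + ((18 : ℕ) : ℕ∞) ≤ 21 + ((18 : ℕ) : ℕ∞) := by gcongr
    _ = 39 := by norm_num

/-- the count if `al = al' = 0`, `th = th' = 0` -/
theorem caseII2 (h : Rel x y) (hx : x.al = 0) (hy : y.al = 0) (hxt : ∀ l, x.th l = 0)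
    (hyt : ∀ l, y.th l = 0) : rk k (Set.range (crd x y)) ≤ 39 := by
  have h2 : ∀ i, ∑ j, x.N i j * y.a j = ∑ j, y.N i j * x.a j := by
    intro i
    have h1 := h.r2 i
    rwa [hx, hy, zero_mul, zero_mul, zero_add, zero_add] at h1
  obtain ⟨ht, -⟩ := t_le (k := k) h.r8 h2 h.r6
  set t := nn x.N y.N ∪ Set.range (Sum.elim x.a y.a) with ht'
  let u : Fin 2 ⊕ (Fin 3 ⊕ (Fin 3 ⊕ (Fin 3 ⊕ (Fin 3 ⊕ (Fin 3 ⊕ Fin 3))))) → K :=
    Sum.elim ![x.be, y.be] (Sum.elim x.c (Sum.elim y.c (Sum.elim x.g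
      (Sum.elim y.g (Sum.elim x.th1 y.th1)))))
  have hu : ∀ i, u i ∈ FF k (t ∪ Set.range u) := fun i => mem_FF_self (Or.inr ⟨i, rfl⟩)
  have hm : ∀ {a : K}, a ∈ t → a ∈ FF k (t ∪ Set.range u) := fun ha => mem_FF_self (Or.inl ha)
  have X : In (FF k (t ∪ Set.range u)) x := ⟨by rw [hx]; exact zero_mem _, hu (.inl 0),
    fun i => hm (Or.inr ⟨.inl i, rfl⟩), fun i => hu (.inr (.inl i)),
    fun i => hu (.inr (.inr (.inr (.inl i)))), fun i => by rw [hxt]; exact zero_mem _,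
    fun i => hu (.inr (.inr (.inr (.inr (.inr (.inl i)))))),
    fun i j => hm (Or.inl (Or.inl ⟨(i, j), rfl⟩))⟩
  have Y : In (FF k (t ∪ Set.range u)) y := ⟨by rw [hy]; exact zero_mem _, hu (.inl 1),
    fun i => hm (Or.inr ⟨.inr i, rfl⟩), fun i => hu (.inr (.inr (.inl i))),
    fun i => hu (.inr (.inr (.inr (.inr (.inl i))))), fun i => by rw [hyt]; exact zero_mem _,
    fun i => hu (.inr (.inr (.inr (.inr (.inr (.inr i)))))),
    fun i j => hm (Or.inl (Or.inr ⟨(i, j), rfl⟩))⟩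
  have h3 : Set.range (crd x y) ⊆ FF k (t ∪ Set.range u) := by
    rintro _ ⟨i | i, rfl⟩
    · exact X.get i
    · exact Y.get i
  refine (rk_le_add_card (k := k) u h3).trans ?_
  have h4 : Fintype.card (Fin 2 ⊕ (Fin 3 ⊕ (Fin 3 ⊕ (Fin 3 ⊕ (Fin 3 ⊕ (Fin 3 ⊕ Fin 3)))))) = 20 :=
    rfl
  rw [h4]
  calc rk k t + ((20 : ℕ) : ℕ∞) ≤ 19 + ((20 : ℕ) : ℕ∞) := by gcongr
    _ = 39 := by norm_num

/-- **the count**: the coordinates of two commuting matrices of type `(l, 3, 2, 2)`, `l ≥ 5` -/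
theorem cnt322 (h : Rel x y) : rk k (Set.range (crd x y)) ≤ 39 := by
  by_cases hx : x.al = 0
  · by_cases hy : y.al = 0
    · by_cases h1 : ∃ l, x.th l ≠ 0
      · obtain ⟨l, hl⟩ := h1
        exact caseII1 h hx hy hl
      · by_cases h2 : ∃ l, y.th l ≠ 0
        · obtain ⟨l, hl⟩ := h2
          rw [crd_swap]
          exact caseII1 h.swap hy hx hl
        · push Not at h1 h2
          exact caseII2 h hx hy h1 h2
    · rw [crd_swap]
      exact caseI h.swap hy
  · exact caseI h hx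

end Pool.Agent.Lib.D13.C322
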