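import Pool.Agent.Lib.D13.L322c
import Pool.Agent.Lib.D13.Cnt322

/-!
# MP_5dcbc3_ag, type 4322: count of parameters

The coordinates of two data `X, X'` over `K ⊇ k` with the relations `Rel 0 X X'` have transcendence degree at
most 39 over `k`.
-/

namespace Pool.Agent.Lib.D13

open Matrix Pool.Agent.Lib.Q5dc Pool.Agent.Lib.D7

variable {k K : Type*} [Field k] [Field K] [Algebra k K]

namespace L322

/-- all coordinates lie in `L` -/
structure XD.In (X : XD K (Fin 3)) (L : IntermediateField k K) : Prop where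
  N : ∀ i j, X.N i j ∈ L
  g : ∀ i, X.g i ∈ L
  t : X.t ∈ L
  a : ∀ i, X.a i ∈ L
  c : ∀ i, X.c i ∈ L
  s : X.s ∈ L
  h : ∀ i, X.h i ∈ L
  th : ∀ i, X.th i ∈ L

namespace Cnt

theorem rk_range {ι : Type*} [Fintype ι] (f : ι → K) : rk k (Set.range f) ≤ Fintype.card ι :=
  rk_le_card f (subset_FF _)

theorem rk_add_range {ι : Type*} [Fintype ι] (S : Set K) (f : ι → K) :
    rk k (S ∪ Set.range f) ≤ rk k S + Fintype.card ι := rk_le_add_card f (subset_FF _)

theorem of_add_le {a : ℕ∞} {m n p : ℕ} (h : a + (m : ℕ∞) ≤ (n : ℕ∞)) (hp : n ≤ p + m) :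
    a ≤ (p : ℕ∞) := by
  have h1 : a + (m : ℕ∞) ≤ (p : ℕ∞) + (m : ℕ∞) := h.trans (by exact_mod_cast hp)
  exact (ENat.add_le_add_iff_right (ENat.coe_ne_top m)).1 h1

/-- `d x = y` -/
theorem mem_of_mul {L : IntermediateField k K} {d x y : K} (hd : d ∈ L) (hd0 : d ≠ 0) (hy : y ∈ L)
    (h : d * x = y) : x ∈ L := by
  have : x = d⁻¹ * y := by rw [← h, inv_mul_cancel_left₀ hd0]
  rw [this]
  exact mul_mem (inv_mem hd) hy

theorem dot_mem {n : ℕ} {L : IntermediateField k K} {u v : Fin n → K} (hu : ∀ i, u i ∈ L)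
    (hv : ∀ i, v i ∈ L) : u ⬝ᵥ v ∈ L := sum_mem fun i _ => mul_mem (hu i) (hv i)

theorem mulVec_mem {n : ℕ} {L : IntermediateField k K} {M : Matrix (Fin n) (Fin n) K}
    {v : Fin n → K} (hM : ∀ i j, M i j ∈ L) (hv : ∀ i, v i ∈ L) (i : Fin n) : (M *ᵥ v) i ∈ L :=
  dot_mem (hM i) hv

theorem vecMul_mem {n : ℕ} {L : IntermediateField k K} {M : Matrix (Fin n) (Fin n) K}
    {v : Fin n → K} (hM : ∀ i j, M i j ∈ L) (hv : ∀ i, v i ∈ L) (i : Fin n) : (v ᵥ* M) i ∈ L :=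
  dot_mem hv fun j => hM j i

/-- one linear equation for `u, v` -/
theorem step6 {S : Set K} {al be u v : Fin 3 → K} (ha : ∀ i, al i ∈ FF k S)
    (hb : ∀ i, be i ∈ FF k S) (hw : al ⬝ᵥ u + be ⬝ᵥ v ∈ FF k S) {i₀ : Fin 3} (h0 : be i₀ ≠ 0) :
    rk k (S ∪ Set.range (Sum.elim u v)) + 1 ≤ rk k S + 6 := by
  have h := rk_linear_minor (k := k) (t := S) (r := 1)
    (Matrix.of fun (_ : Unit) j => Sum.elim al be j) (Sum.elim u v) (fun _ => ())
    (fun _ => Sum.inr i₀) (by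
      rw [Matrix.det_fin_one]
      exact h0) (by
      intro _ j
      rcases j with j | j
      · exact ha j
      · exact hb j) (by
      intro _
      have e : ((Matrix.of fun (_ : Unit) j => Sum.elim al be j) *ᵥ Sum.elim u v) () =
          al ⬝ᵥ u + be ⬝ᵥ v := by
        simp [mulVec, dotProduct]
      rw [e]
      exact hw)
  simpa using h

/-- the matrix `N2` with `th N2 = th2 N` -/
theorem partB {N N2 : Matrix (Fin 3) (Fin 3) K} {th th2 : Fin 3 → K} (sg : K) (h0 : th 0 ≠ 0)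
    (h20 : th2 0 = 0) (h3 : th ᵥ* N2 = th2 ᵥ* N) :
    ∃ (r : ℕ) (f g : Fin r → Fin 3), (N2.submatrix f g).det ≠ 0 ∧ ∃ S : Set K,
      rk k S ≤ ((18 + r : ℕ) : ℕ∞) ∧ (∀ i j, N i j ∈ FF k S) ∧ (∀ i j, N2 i j ∈ FF k S) ∧
        (∀ i, th i ∈ FF k S) ∧ (∀ i, th2 i ∈ FF k S) ∧ sg ∈ FF k S := by
  -- the row `0` of `N2`
  have e3 : ∀ j, th 0 * N2 0 j = th2 1 * N 1 j + th2 2 * N 2 j - th 1 * N2 1 j - th 2 * N2 2 j := by
    intro j
    have := congrFun h3 j
    simp only [vecMul, dotProduct, Fin.sum_univ_three, h20, zero_mul, zero_add] at this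
    linear_combination this
  have row : ∀ L : IntermediateField k K, (∀ i j, N i j ∈ L) → (∀ j, N2 1 j ∈ L) →
      (∀ j, N2 2 j ∈ L) → (∀ i, th i ∈ L) → (∀ i, th2 i ∈ L) → ∀ i j, N2 i j ∈ L := by
    intro L hN h1 h2 ht ht2 i j
    fin_cases i
    · exact mem_of_mul (ht 0) h0 (sub_mem (sub_mem (add_mem (mul_mem (ht2 1) (hN 1 j))
        (mul_mem (ht2 2) (hN 2 j))) (mul_mem (ht 1) (h1 j))) (mul_mem (ht 2) (h2 j))) (e3 j)
    · exact h1 j
    · exact h2 j
  have th2mem : ∀ L : IntermediateField k K, th2 1 ∈ L → th2 2 ∈ L → ∀ i, th2 i ∈ L := by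
    intro L h1 h2 i
    fin_cases i
    · show th2 0 ∈ L
      rw [h20]
      exact zero_mem _
    · exact h1
    · exact h2
  by_cases hN2 : N2 = 0
  · -- `N2 = 0`
    refine ⟨0, Fin.elim0, Fin.elim0, by simp, Set.range (fun p : Fin 3 × Fin 3 => N p.1 p.2) ∪
      Set.range th ∪ Set.range ![th2 1, th2 2, sg], ?_, ?_, ?_, ?_, ?_, ?_⟩
    · refine ((rk_add_range _ _).trans (add_le_add (rk_add_range _ _) le_rfl)).trans ?_
      refine (add_le_add (add_le_add (rk_range _) le_rfl) le_rfl).trans ?_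
      simp only [Fintype.card_prod, Fintype.card_fin]
      norm_cast
    · exact fun i j => mem_FF_self (Or.inl (Or.inl ⟨(i, j), rfl⟩))
    · intro i j
      rw [hN2]
      exact zero_mem _
    · exact fun i => mem_FF_self (Or.inl (Or.inr ⟨i, rfl⟩))
    · exact th2mem _ (mem_FF_self (Or.inr ⟨0, rfl⟩)) (mem_FF_self (Or.inr ⟨1, rfl⟩))
    · exact mem_FF_self (Or.inr ⟨2, rfl⟩)
  obtain ⟨i₀, j₀, hij⟩ : ∃ i j, N2 i j ≠ 0 := by
    by_contra hh
    push Not at hh
    exact hN2 (Matrix.ext hh)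
  by_cases hth2 : th2 1 = 0 ∧ th2 2 = 0
  · -- `th2 = 0`
    refine ⟨1, fun _ => i₀, fun _ => j₀, by rw [Matrix.det_fin_one]; exact hij,
      Set.range (fun p : Fin 3 × Fin 3 => N p.1 p.2) ∪ Set.range th ∪ Set.range (N2 1) ∪
      Set.range (N2 2) ∪ Set.range ![sg], ?_, ?_, ?_, ?_, ?_, ?_⟩
    · refine ((rk_add_range _ _).trans (add_le_add ((rk_add_range _ _).trans (add_le_add
        ((rk_add_range _ _).trans (add_le_add ((rk_add_range _ _).trans
          (add_le_add (rk_range _) le_rfl)) le_rfl)) le_rfl)) le_rfl)).trans ?_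
      simp only [Fintype.card_prod, Fintype.card_fin]
      norm_cast
    · exact fun i j => mem_FF_self (Or.inl (Or.inl (Or.inl (Or.inl ⟨(i, j), rfl⟩))))
    · refine row _ ?_ ?_ ?_ ?_ ?_
      · exact fun i j => mem_FF_self (Or.inl (Or.inl (Or.inl (Or.inl ⟨(i, j), rfl⟩))))
      · exact fun j => mem_FF_self (Or.inl (Or.inl (Or.inr ⟨j, rfl⟩)))
      · exact fun j => mem_FF_self (Or.inl (Or.inr ⟨j, rfl⟩))
      · exact fun i => mem_FF_self (Or.inl (Or.inl (Or.inl (Or.inr ⟨i, rfl⟩))))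
      · refine th2mem _ ?_ ?_
        · rw [hth2.1]; exact zero_mem _
        · rw [hth2.2]; exact zero_mem _
    · exact fun i => mem_FF_self (Or.inl (Or.inl (Or.inl (Or.inr ⟨i, rfl⟩))))
    · refine th2mem _ ?_ ?_
      · rw [hth2.1]; exact zero_mem _
      · rw [hth2.2]; exact zero_mem _
    · exact mem_FF_self (Or.inr ⟨0, rfl⟩)
  by_cases hM : ∀ i j, N2 1 i * N2 2 j = N2 1 j * N2 2 i
  · -- rows 1, 2 dependent
    obtain ⟨u, hu⟩ : ∃ u : Fin 4 → K, ∀ L : IntermediateField k K, (∀ i, u i ∈ L) →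
        (∀ j, N2 1 j ∈ L) ∧ (∀ j, N2 2 j ∈ L) := by
      by_cases hp : ∃ i, N2 1 i ≠ 0
      · obtain ⟨i, hi⟩ := hp
        refine ⟨![N2 1 0, N2 1 1, N2 1 2, N2 2 i], fun L hL => ?_⟩
        have h1 : ∀ j, N2 1 j ∈ L := by
          intro j
          fin_cases j
          · exact hL 0
          · exact hL 1
          · exact hL 2
        refine ⟨h1, fun j => ?_⟩
        exact mem_of_mul (h1 i) hi (mul_mem (h1 j) (hL 3)) (hM i j)
      · push Not at hp
        refine ⟨![N2 2 0, N2 2 1, N2 2 2, 0], fun L hL => ⟨fun j => ?_, fun j => ?_⟩⟩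
        · rw [hp j]
          exact zero_mem _
        · fin_cases j
          · exact hL 0
          · exact hL 1
          · exact hL 2
    refine ⟨1, fun _ => i₀, fun _ => j₀, by rw [Matrix.det_fin_one]; exact hij,
      Set.range (fun p : Fin 3 × Fin 3 => N p.1 p.2) ∪ Set.range th ∪ Set.range u ∪
      Set.range ![th2 1, th2 2, sg], ?_, ?_, ?_, ?_, ?_, ?_⟩
    · refine ((rk_add_range _ _).trans (add_le_add ((rk_add_range _ _).trans (add_le_add
        ((rk_add_range _ _).trans (add_le_add (rk_range _) le_rfl)) le_rfl)) le_rfl)).trans ?_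
      simp only [Fintype.card_prod, Fintype.card_fin]
      norm_cast
    · exact fun i j => mem_FF_self (Or.inl (Or.inl (Or.inl ⟨(i, j), rfl⟩)))
    · have h1 := hu (FF k (Set.range (fun p : Fin 3 × Fin 3 => N p.1 p.2) ∪ Set.range th ∪
        Set.range u ∪ Set.range ![th2 1, th2 2, sg])) (fun i => mem_FF_self (Or.inl (Or.inr ⟨i, rfl⟩)))
      refine row _ ?_ h1.1 h1.2 ?_ ?_
      · exact fun i j => mem_FF_self (Or.inl (Or.inl (Or.inl ⟨(i, j), rfl⟩)))
      · exact fun i => mem_FF_self (Or.inl (Or.inl (Or.inr ⟨i, rfl⟩)))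
      · exact th2mem _ (mem_FF_self (Or.inr ⟨0, rfl⟩)) (mem_FF_self (Or.inr ⟨1, rfl⟩))
    · exact fun i => mem_FF_self (Or.inl (Or.inl (Or.inr ⟨i, rfl⟩)))
    · exact th2mem _ (mem_FF_self (Or.inr ⟨0, rfl⟩)) (mem_FF_self (Or.inr ⟨1, rfl⟩))
    · exact mem_FF_self (Or.inr ⟨2, rfl⟩)
  push Not at hM
  obtain ⟨i, j, hM⟩ := hM
  by_cases hdet : N2.det = 0
  · -- rank 2
    set m : Fin 3 → K := ![N2 1 1 * N2 2 2 - N2 1 2 * N2 2 1, N2 1 2 * N2 2 0 - N2 1 0 * N2 2 2,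
      N2 1 0 * N2 2 1 - N2 1 1 * N2 2 0] with hm
    have hm0 : ∃ l, m l ≠ 0 := by
      by_contra hh
      push Not at hh
      have a0 := hh 0
      have a1 := hh 1
      have a2 := hh 2
      simp only [hm, Matrix.cons_val_zero, Matrix.cons_val_one, Matrix.cons_val] at a0 a1 a2
      apply hM
      fin_cases i <;> fin_cases j <;> simp only [Fin.zero_eta, Fin.mk_one, Fin.reduceFinMk] <;>
        first
          | rfl
          | linear_combination a0
          | linear_combination a1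
          | linear_combination a2
          | linear_combination -a0
          | linear_combination -a1
          | linear_combination -a2
    obtain ⟨l, hl⟩ := hm0
    obtain ⟨c, hc⟩ : ∃ c : Fin 2, th2 c.succ ≠ 0 := by
      by_contra hh
      push Not at hh
      exact hth2 ⟨hh 0, hh 1⟩
    set tt : Set K := Set.range (N2 1) ∪ Set.range (N2 2) ∪ Set.range th ∪
      Set.range ![th2 1, th2 2, sg] ∪ Set.range (N 0) with htt
    have t1 : ∀ j, N2 1 j ∈ FF k tt := fun j => mem_FF_self (Or.inl (Or.inl (Or.inl (Or.inl ⟨j, rfl⟩))))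
    have t2 : ∀ j, N2 2 j ∈ FF k tt := fun j => mem_FF_self (Or.inl (Or.inl (Or.inl (Or.inr ⟨j, rfl⟩))))
    have t3 : ∀ j, th j ∈ FF k tt := fun j => mem_FF_self (Or.inl (Or.inl (Or.inr ⟨j, rfl⟩)))
    have t4 : ∀ j, th2 j ∈ FF k tt := th2mem _ (mem_FF_self (Or.inl (Or.inr ⟨0, rfl⟩)))
      (mem_FF_self (Or.inl (Or.inr ⟨1, rfl⟩)))
    have t5 : sg ∈ FF k tt := mem_FF_self (Or.inl (Or.inr ⟨2, rfl⟩))
    have t6 : ∀ j, N 0 j ∈ FF k tt := fun j => mem_FF_self (Or.inr ⟨j, rfl⟩)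
    have tm : ∀ j, m j ∈ FF k tt := by
      intro j
      fin_cases j
      · exact sub_mem (mul_mem (t1 _) (t2 _)) (mul_mem (t1 _) (t2 _))
      · exact sub_mem (mul_mem (t1 _) (t2 _)) (mul_mem (t1 _) (t2 _))
      · exact sub_mem (mul_mem (t1 _) (t2 _)) (mul_mem (t1 _) (t2 _))
    have hw : ∑ p : Fin 2 × Fin 3, th2 p.1.succ * m p.2 * N p.1.succ p.2 = 0 := by
      rw [Fintype.sum_prod_type]
      simp only [Fin.sum_univ_two, Fin.sum_univ_three, Fin.succ_zero_eq_one, Fin.succ_one_eq_two]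
      rw [Matrix.det_fin_three] at hdet
      have f0 := e3 0
      have f1 := e3 1
      have f2 := e3 2
      simp only [hm, Matrix.cons_val_zero, Matrix.cons_val_one, Matrix.cons_val]
      linear_combination (th 0) * hdet - (N2 1 1 * N2 2 2 - N2 1 2 * N2 2 1) * f0 -
        (N2 1 2 * N2 2 0 - N2 1 0 * N2 2 2) * f1 - (N2 1 0 * N2 2 1 - N2 1 1 * N2 2 0) * f2
    have hr := rk_linear_minor (k := k) (t := tt) (r := 1)
      (Matrix.of fun (_ : Unit) (p : Fin 2 × Fin 3) => th2 p.1.succ * m p.2)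
      (fun p : Fin 2 × Fin 3 => N p.1.succ p.2) (fun _ => ()) (fun _ => (c, l)) (by
        rw [Matrix.det_fin_one]
        exact mul_ne_zero hc hl) (fun _ p => mul_mem (t4 _) (tm _)) (fun _ => by
        have e : ((Matrix.of fun (_ : Unit) (p : Fin 2 × Fin 3) => th2 p.1.succ * m p.2) *ᵥ
            fun p : Fin 2 × Fin 3 => N p.1.succ p.2) () = 0 := hw
        rw [e]
        exact zero_mem _)
    refine ⟨2, ![1, 2], ![i, j], ?_, tt ∪ Set.range (fun p : Fin 2 × Fin 3 => N p.1.succ p.2),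
      ?_, ?_, ?_, ?_, ?_, ?_⟩
    · rw [Matrix.det_fin_two]
      simp only [Matrix.submatrix_apply, Matrix.cons_val_zero, Matrix.cons_val_one]
      intro h
      exact hM (by linear_combination h)
    · have h15 : rk k tt ≤ ((15 : ℕ) : ℕ∞) := by
        refine ((rk_add_range _ _).trans (add_le_add ((rk_add_range _ _).trans (add_le_add
          ((rk_add_range _ _).trans (add_le_add ((rk_add_range _ _).trans
            (add_le_add (rk_range _) le_rfl)) le_rfl)) le_rfl)) le_rfl)).trans ?_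
        simp only [Fintype.card_fin]
        norm_cast
      refine of_add_le (m := 1) (n := 21) ?_ (by omega)
      refine hr.trans ((add_le_add h15 le_rfl).trans ?_)
      simp only [Fintype.card_prod, Fintype.card_fin]
      norm_cast
    · intro a b
      rcases Fin.eq_zero_or_eq_succ a with rfl | ⟨a, rfl⟩
      · exact FF_mono Set.subset_union_left (t6 b)
      · exact mem_FF_self (Or.inr ⟨(a, b), rfl⟩)
    · refine row _ ?_ ?_ ?_ ?_ ?_
      · intro a b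
        rcases Fin.eq_zero_or_eq_succ a with rfl | ⟨a, rfl⟩
        · exact FF_mono Set.subset_union_left (t6 b)
        · exact mem_FF_self (Or.inr ⟨(a, b), rfl⟩)
      · exact fun j => FF_mono Set.subset_union_left (t1 j)
      · exact fun j => FF_mono Set.subset_union_left (t2 j)
      · exact fun j => FF_mono Set.subset_union_left (t3 j)
      · exact fun j => FF_mono Set.subset_union_left (t4 j)
    · exact fun j => FF_mono Set.subset_union_left (t3 j)
    · exact fun j => FF_mono Set.subset_union_left (t4 j)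
    · exact FF_mono Set.subset_union_left t5
  · refine ⟨3, id, id, by simpa using hdet,
      Set.range (fun p : Fin 3 × Fin 3 => N p.1 p.2) ∪ Set.range th ∪ Set.range (N2 1) ∪
      Set.range (N2 2) ∪ Set.range ![th2 1, th2 2, sg], ?_, ?_, ?_, ?_, ?_, ?_⟩
    · refine ((rk_add_range _ _).trans (add_le_add ((rk_add_range _ _).trans (add_le_add
        ((rk_add_range _ _).trans (add_le_add ((rk_add_range _ _).trans
          (add_le_add (rk_range _) le_rfl)) le_rfl)) le_rfl)) le_rfl)).trans ?_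
      simp only [Fintype.card_prod, Fintype.card_fin]
      norm_cast
    · exact fun i j => mem_FF_self (Or.inl (Or.inl (Or.inl (Or.inl ⟨(i, j), rfl⟩))))
    · refine row _ ?_ ?_ ?_ ?_ ?_
      · exact fun i j => mem_FF_self (Or.inl (Or.inl (Or.inl (Or.inl ⟨(i, j), rfl⟩))))
      · exact fun j => mem_FF_self (Or.inl (Or.inl (Or.inr ⟨j, rfl⟩)))
      · exact fun j => mem_FF_self (Or.inl (Or.inr ⟨j, rfl⟩))
      · exact fun i => mem_FF_self (Or.inl (Or.inl (Or.inl (Or.inr ⟨i, rfl⟩))))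
      · exact th2mem _ (mem_FF_self (Or.inr ⟨0, rfl⟩)) (mem_FF_self (Or.inr ⟨1, rfl⟩))
    · exact fun i => mem_FF_self (Or.inl (Or.inl (Or.inl (Or.inr ⟨i, rfl⟩))))
    · exact th2mem _ (mem_FF_self (Or.inr ⟨0, rfl⟩)) (mem_FF_self (Or.inr ⟨1, rfl⟩))
    · exact mem_FF_self (Or.inr ⟨2, rfl⟩)

variable {X X' : XD K (Fin 3)}

/-- the other coordinates if `th ≠ 0` -/
theorem finish (hR : Rel 0 X X') (ht : X.t = 0) (ht' : X'.t = 0) {i₀ : Fin 3} (h0 : X.th i₀ ≠ 0)
    {S : Set K} (hS : rk k S ≤ ((21 : ℕ) : ℕ∞)) (hN : ∀ i j, X.N i j ∈ FF k S)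
    (hN' : ∀ i j, X'.N i j ∈ FF k S) (hth : ∀ i, X.th i ∈ FF k S) (hth' : ∀ i, X'.th i ∈ FF k S)
    (ha : ∀ i, X.a i ∈ FF k S) (ha' : ∀ i, X'.a i ∈ FF k S) :
    ∃ S : Set K, rk k S ≤ ((39 : ℕ) : ℕ∞) ∧ X.In (FF k S) ∧ X'.In (FF k S) := by
  set S2 : Set K := S ∪ Set.range X.h ∪ Set.range X'.h ∪ Set.range ![X.s, X'.s] with hS2
  have i2 : S ⊆ S2 := fun x hx => Or.inl (Or.inl (Or.inl hx))
  have r2 : rk k S2 ≤ ((29 : ℕ) : ℕ∞) := by
    refine ((rk_add_range _ _).trans (add_le_add ((rk_add_range _ _).trans (add_le_add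
      ((rk_add_range _ _).trans (add_le_add hS le_rfl)) le_rfl)) le_rfl)).trans ?_
    simp only [Fintype.card_fin]
    norm_cast
  have mh : ∀ i, X.h i ∈ FF k S2 := fun i => mem_FF_self (Or.inl (Or.inl (Or.inr ⟨i, rfl⟩)))
  have mh' : ∀ i, X'.h i ∈ FF k S2 := fun i => mem_FF_self (Or.inl (Or.inr ⟨i, rfl⟩))
  have ms : X.s ∈ FF k S2 := mem_FF_self (Or.inr ⟨0, rfl⟩)
  have ms' : X'.s ∈ FF k S2 := mem_FF_self (Or.inr ⟨1, rfl⟩)
  have h5 := step6 (k := k) (S := S2) (al := -X'.th) (be := X.th) (u := X.c) (v := X'.c)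
    (fun i => neg_mem (FF_mono i2 (hth' i))) (fun i => FF_mono i2 (hth i)) (by
      have e : -X'.th ⬝ᵥ X.c + X.th ⬝ᵥ X'.c = X'.h ⬝ᵥ X.a - X.h ⬝ᵥ X'.a := by
        have := hR.r5
        rw [ht, ht', mul_zero, mul_zero] at this
        rw [neg_dotProduct]
        linear_combination this
      rw [e]
      exact sub_mem (dot_mem mh' fun i => FF_mono i2 (ha i)) (dot_mem mh fun i => FF_mono i2 (ha' i)))
    h0
  set S3 : Set K := S2 ∪ Set.range (Sum.elim X.c X'.c) with hS3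
  have i3 : S2 ⊆ S3 := Set.subset_union_left
  have i3' : S ⊆ S3 := i2.trans i3
  have r3 : rk k S3 ≤ ((34 : ℕ) : ℕ∞) := by
    refine of_add_le (m := 1) (n := 35) (h5.trans ((add_le_add r2 le_rfl).trans ?_)) (by omega)
    norm_cast
  have h6 := step6 (k := k) (S := S3) (al := -X'.th) (be := X.th) (u := X.g) (v := X'.g)
    (fun i => neg_mem (FF_mono i3' (hth' i))) (fun i => FF_mono i3' (hth i)) (by
      have e : -X'.th ⬝ᵥ X.g + X.th ⬝ᵥ X'.g =
          X'.h ⬝ᵥ (fun i => X.N i 0) - X.h ⬝ᵥ (fun i => X'.N i 0) := by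
        have := hR.r6
        rw [neg_dotProduct]
        linear_combination this
      rw [e]
      exact sub_mem (dot_mem (fun i => FF_mono i3 (mh' i)) fun i => FF_mono i3' (hN i 0))
        (dot_mem (fun i => FF_mono i3 (mh i)) fun i => FF_mono i3' (hN' i 0)))
    h0
  set S4 : Set K := S3 ∪ Set.range (Sum.elim X.g X'.g) with hS4
  have i4 : S3 ⊆ S4 := Set.subset_union_left
  have r4 : rk k S4 ≤ ((39 : ℕ) : ℕ∞) := by
    refine of_add_le (m := 1) (n := 40) (h6.trans ((add_le_add r3 le_rfl).trans ?_)) (by omega)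
    norm_cast
  refine ⟨S4, r4, ⟨fun i j => ?_, fun i => ?_, ?_, fun i => ?_, fun i => ?_, ?_, fun i => ?_,
    fun i => ?_⟩, ⟨fun i j => ?_, fun i => ?_, ?_, fun i => ?_, fun i => ?_, ?_, fun i => ?_,
    fun i => ?_⟩⟩
  · exact FF_mono (i3'.trans i4) (hN i j)
  · exact mem_FF_self (Or.inr ⟨Sum.inl i, rfl⟩)
  · rw [ht]; exact zero_mem _
  · exact FF_mono (i3'.trans i4) (ha i)
  · exact mem_FF_self (Or.inl (Or.inr ⟨Sum.inl i, rfl⟩))
  · exact FF_mono (i3.trans i4) ms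
  · exact FF_mono (i3.trans i4) (mh i)
  · exact FF_mono (i3'.trans i4) (hth i)
  · exact FF_mono (i3'.trans i4) (hN' i j)
  · exact mem_FF_self (Or.inr ⟨Sum.inr i, rfl⟩)
  · rw [ht']; exact zero_mem _
  · exact FF_mono (i3'.trans i4) (ha' i)
  · exact mem_FF_self (Or.inl (Or.inr ⟨Sum.inr i, rfl⟩))
  · exact FF_mono (i3.trans i4) ms'
  · exact FF_mono (i3.trans i4) (mh' i)
  · exact FF_mono (i3'.trans i4) (hth' i)

/-- case B -/
theorem caseB (hR : Rel 0 X X') (ht : X.t = 0) (ht' : X'.t = 0) (h0 : X.th 0 ≠ 0) :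
    ∃ S : Set K, rk k S ≤ ((39 : ℕ) : ℕ∞) ∧ X.In (FF k S) ∧ X'.In (FF k S) := by
  obtain ⟨r1, r2, r3, r4, r5, r6, r7, r8⟩ := id hR
  rw [ht, ht'] at r2 r4
  simp only [zero_smul, add_zero, zero_mul] at r2 r4
  set sg := X'.th 0 / X.th 0 with hsg
  have hsg' : sg * X.th 0 = X'.th 0 := div_mul_cancel₀ _ h0
  set N2 := X'.N - sg • X.N with hN2
  set th2 := X'.th - sg • X.th with hth2
  set a2 := X'.a - sg • X.a with ha2
  have h20 : th2 0 = 0 := by
    simp only [hth2, Pi.sub_apply, Pi.smul_apply, smul_eq_mul, hsg', sub_self]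
  have h3 : X.th ᵥ* N2 = th2 ᵥ* X.N := by
    rw [hN2, hth2, vecMul_sub, sub_vecMul, r3, vecMul_smul, smul_vecMul]
  obtain ⟨r, f, g, hfg, S, hS, mN, mN2, mth, mth2, msg⟩ := partB (k := k) sg h0 h20 h3
  have eN' : X'.N = N2 + sg • X.N := by rw [hN2]; abel
  have eth' : X'.th = th2 + sg • X.th := by rw [hth2]; abel
  have ea' : X'.a = a2 + sg • X.a := by rw [ha2]; abel
  have q4 : X.th 0 • a2 = X.N *ᵥ (fun i => N2 i 0) - N2 *ᵥ (fun i => X.N i 0) := by
    have e1 : (fun i => X'.N i 0) = (fun i => N2 i 0) + sg • (fun i => X.N i 0) := by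
      funext i
      simp [eN']
    rw [e1, eN', ea', ← hsg', mulVec_add, mulVec_smul, add_mulVec, smul_mulVec] at r4
    have e2 : X.th 0 • (a2 + sg • X.a) = X.th 0 • a2 + (sg * X.th 0) • X.a := by
      rw [smul_add, smul_smul, mul_comm]
    rw [e2] at r4
    have e3 : ∀ A B C D E : Fin 3 → K, A + B + C = D + B + (E + C) → E = A - D := by
      intro A B C D E h
      have : A = D + E := by
        have h' : A + B + C - B - C = D + B + (E + C) - B - C := by rw [h]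
        calc A = A + B + C - B - C := by abel
          _ = D + B + (E + C) - B - C := h'
          _ = D + E := by abel
      rw [this]
      abel
    exact e3 _ _ _ _ _ r4
  have q2 : N2 *ᵥ X.a = X.N *ᵥ a2 := by
    rw [ea', eN', mulVec_add, mulVec_smul, add_mulVec, smul_mulVec] at r2
    exact (add_right_cancel r2).symm
  have ma2 : ∀ i, a2 i ∈ FF k S := by
    intro i
    refine mem_of_mul (mth 0) h0 (y := (X.N *ᵥ (fun i => N2 i 0) - N2 *ᵥ (fun i => X.N i 0)) i) ?_ ?_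
    · exact sub_mem (mulVec_mem mN (fun j => mN2 j 0) i) (mulVec_mem mN2 (fun j => mN j 0) i)
    · rw [← q4]
      rfl
  have hr := rk_linear_minor (k := k) (t := S) N2 X.a f g hfg mN2 (fun i => by
    rw [q2]
    exact mulVec_mem mN ma2 i)
  have hS1 : rk k (S ∪ Set.range X.a) ≤ ((21 : ℕ) : ℕ∞) := by
    refine of_add_le (m := r) (n := 21 + r) (hr.trans ((add_le_add hS le_rfl).trans ?_)) le_rfl
    rw [Fintype.card_fin, ← Nat.cast_add]
    exact_mod_cast (by omega : 18 + r + 3 ≤ 21 + r)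
  have i1 : S ⊆ S ∪ Set.range X.a := Set.subset_union_left
  have ma : ∀ i, X.a i ∈ FF k (S ∪ Set.range X.a) := fun i => mem_FF_self (Or.inr ⟨i, rfl⟩)
  refine finish hR ht ht' h0 hS1 (fun i j => FF_mono i1 (mN i j)) (fun i j => ?_)
    (fun i => FF_mono i1 (mth i)) (fun i => ?_) ma (fun i => ?_)
  · rw [eN']
    exact add_mem (FF_mono i1 (mN2 i j)) (mul_mem (FF_mono i1 msg) (FF_mono i1 (mN i j)))
  · rw [eth']
    exact add_mem (FF_mono i1 (mth2 i)) (mul_mem (FF_mono i1 msg) (FF_mono i1 (mth i)))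
  · rw [ea']
    exact add_mem (FF_mono i1 (ma2 i)) (mul_mem (FF_mono i1 msg) (ma i))

theorem Rel.symm (hR : Rel (0 : Fin 3) X X') : Rel 0 X' X :=
  ⟨hR.r1.symm, hR.r2.symm, hR.r3.symm, hR.r4.symm, hR.r5.symm, hR.r6.symm, hR.r7.symm, hR.r8.symm⟩

/-- case I, `t ≠ 0` -/
theorem caseI (hR : Rel 0 X X') (ht : X.t ≠ 0) (h0 : X.th 0 = 0) (h0' : X'.th 0 = 0) :
    ∃ S : Set K, rk k S ≤ ((39 : ℕ) : ℕ∞) ∧ X.In (FF k S) ∧ X'.In (FF k S) := by
  obtain ⟨r1, r2, r3, r4, r5, r6, r7, r8⟩ := id hR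
  -- the entries of `N'` in the rows `1, 2`
  have e7 : ∀ i, X.t * X'.N i 0 = X'.t * X.N i 0 := fun i => (congrFun r7 i).symm
  have e4 : ∀ i : Fin 3, i ≠ 0 → X.t * X'.N i 1 * X.N 1 0 + X.t * X'.N i 2 * X.N 2 0 =
      X'.t * X.N i 1 * X.N 1 0 + X'.t * X.N i 2 * X.N 2 0 := by
    intro i hi
    have h := congrFun r4 i
    simp only [Pi.add_apply, Pi.smul_apply, smul_eq_mul, Pi.single_eq_of_ne hi, mul_zero, add_zero,
      h0, h0', zero_mul, mulVec, dotProduct, Fin.sum_univ_three] at h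
    have f0 := e7 0
    have f1 := e7 1
    have f2 := e7 2
    have f3 := e7 i
    linear_combination (-X.t) * h + X.N i 0 * f0 + X.N i 1 * f1 + X.N i 2 * f2 - X.N 0 0 * f3
  -- generators for `N`, `N'`
  obtain ⟨u, hu⟩ : ∃ u : Fin 13 → K, ∀ L : IntermediateField k K, X.t ∈ L → X'.t ∈ L →
      (∀ i, u i ∈ L) → (∀ i j, X.N i j ∈ L) ∧ (∀ i j, X'.N i j ∈ L) := by
    -- all entries from those of `N` and the rows `1, 2`
    have gen : ∀ L : IntermediateField k K, X.t ∈ L → X'.t ∈ L → (∀ i j, X.N i j ∈ L) →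
        (∀ i j, X'.N i (Fin.succ j) ∈ L) → (∀ i j, X.N i j ∈ L) ∧ (∀ i j, X'.N i j ∈ L) := by
      intro L hl hl' hN h1
      refine ⟨hN, fun i j => ?_⟩
      rcases Fin.eq_zero_or_eq_succ j with rfl | ⟨j, rfl⟩
      · exact mem_of_mul hl ht (mul_mem hl' (hN i 0)) (e7 i)
      · exact h1 i j
    by_cases h1 : X.N 1 0 ≠ 0
    · refine ⟨![X.N 0 0, X.N 0 1, X.N 0 2, X.N 1 0, X.N 1 1, X.N 1 2, X.N 2 0, X.N 2 1, X.N 2 2,
        X'.N 0 1, X'.N 0 2, X'.N 1 2, X'.N 2 2], fun L hl hl' hL => ?_⟩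
      have hN : ∀ i j, X.N i j ∈ L := by
        intro i j
        fin_cases i <;> fin_cases j
        exacts [hL 0, hL 1, hL 2, hL 3, hL 4, hL 5, hL 6, hL 7, hL 8]
      have key : ∀ i : Fin 3, i ≠ 0 → X'.N i 2 ∈ L → X'.N i 1 ∈ L := by
        intro i hi hm
        refine mem_of_mul (mul_mem hl (hN 1 0)) (mul_ne_zero ht h1)
          (y := X'.t * X.N i 1 * X.N 1 0 + X'.t * X.N i 2 * X.N 2 0 - X.t * X'.N i 2 * X.N 2 0)
          ?_ (by linear_combination e4 i hi)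
        exact sub_mem (add_mem (mul_mem (mul_mem hl' (hN _ _)) (hN _ _))
          (mul_mem (mul_mem hl' (hN _ _)) (hN _ _))) (mul_mem (mul_mem hl hm) (hN _ _))
      refine gen L hl hl' hN fun i j => ?_
      fin_cases i <;> fin_cases j
      · exact hL 9
      · exact hL 10
      · exact key 1 (by decide) (hL 11)
      · exact hL 11
      · exact key 2 (by decide) (hL 12)
      · exact hL 12
    rw [not_not] at h1
    by_cases h2 : X.N 2 0 ≠ 0
    · refine ⟨![X.N 0 0, X.N 0 1, X.N 0 2, X.N 1 0, X.N 1 1, X.N 1 2, X.N 2 0, X.N 2 1, X.N 2 2,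
        X'.N 0 1, X'.N 0 2, X'.N 1 1, X'.N 2 1], fun L hl hl' hL => ?_⟩
      have hN : ∀ i j, X.N i j ∈ L := by
        intro i j
        fin_cases i <;> fin_cases j
        exacts [hL 0, hL 1, hL 2, hL 3, hL 4, hL 5, hL 6, hL 7, hL 8]
      have key : ∀ i : Fin 3, i ≠ 0 → X'.N i 1 ∈ L → X'.N i 2 ∈ L := by
        intro i hi hm
        refine mem_of_mul (mul_mem hl (hN 2 0)) (mul_ne_zero ht h2)
          (y := X'.t * X.N i 1 * X.N 1 0 + X'.t * X.N i 2 * X.N 2 0 - X.t * X'.N i 1 * X.N 1 0)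
          ?_ (by linear_combination e4 i hi)
        exact sub_mem (add_mem (mul_mem (mul_mem hl' (hN _ _)) (hN _ _))
          (mul_mem (mul_mem hl' (hN _ _)) (hN _ _))) (mul_mem (mul_mem hl hm) (hN _ _))
      refine gen L hl hl' hN fun i j => ?_
      fin_cases i <;> fin_cases j
      · exact hL 9
      · exact hL 10
      · exact hL 11
      · exact key 1 (by decide) (hL 11)
      · exact hL 12
      · exact key 2 (by decide) (hL 12)
    rw [not_not] at h2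
    refine ⟨![X.N 0 0, X.N 0 1, X.N 0 2, X.N 1 1, X.N 1 2, X.N 2 1, X.N 2 2,
        X'.N 0 1, X'.N 0 2, X'.N 1 1, X'.N 1 2, X'.N 2 1, X'.N 2 2], fun L hl hl' hL => ?_⟩
    refine gen L hl hl' (fun i j => ?_) fun i j => ?_
    · fin_cases i <;> fin_cases j
      · exact hL 0
      · exact hL 1
      · exact hL 2
      · show X.N 1 0 ∈ L
        rw [h1]
        exact zero_mem _
      · exact hL 3
      · exact hL 4
      · show X.N 2 0 ∈ L
        rw [h2]
        exact zero_mem _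
      · exact hL 5
      · exact hL 6
    · fin_cases i <;> fin_cases j
      exacts [hL 7, hL 8, hL 9, hL 10, hL 11, hL 12]
  set S : Set K := Set.range u ∪ Set.range ![X.t, X'.t, X.s] ∪ Set.range X.a ∪ Set.range X'.a ∪
    Set.range X.c ∪ Set.range X'.c ∪ Set.range X.g ∪ Set.range X.h ∪
    Set.range ![X'.h 1, X'.h 2, X.th 1, X.th 2] with hS
  have rS : rk k S ≤ ((39 : ℕ) : ℕ∞) := by
    refine ((rk_add_range _ _).trans (add_le_add ((rk_add_range _ _).trans (add_le_add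
      ((rk_add_range _ _).trans (add_le_add ((rk_add_range _ _).trans (add_le_add
      ((rk_add_range _ _).trans (add_le_add ((rk_add_range _ _).trans (add_le_add
      ((rk_add_range _ _).trans (add_le_add ((rk_add_range _ _).trans
      (add_le_add (rk_range _) le_rfl)) le_rfl)) le_rfl)) le_rfl)) le_rfl)) le_rfl)) le_rfl))
      le_rfl)).trans ?_
    simp only [Fintype.card_fin]
    norm_cast
  have mu : ∀ i, u i ∈ FF k S := fun i =>
    mem_FF_self (Or.inl (Or.inl (Or.inl (Or.inl (Or.inl (Or.inl (Or.inl (Or.inl ⟨i, rfl⟩))))))))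
  have m3 : ∀ i, (![X.t, X'.t, X.s] : Fin 3 → K) i ∈ FF k S := fun i =>
    mem_FF_self (Or.inl (Or.inl (Or.inl (Or.inl (Or.inl (Or.inl (Or.inl (Or.inr ⟨i, rfl⟩))))))))
  have ma : ∀ i, X.a i ∈ FF k S := fun i =>
    mem_FF_self (Or.inl (Or.inl (Or.inl (Or.inl (Or.inl (Or.inl (Or.inr ⟨i, rfl⟩)))))))
  have ma' : ∀ i, X'.a i ∈ FF k S := fun i =>
    mem_FF_self (Or.inl (Or.inl (Or.inl (Or.inl (Or.inl (Or.inr ⟨i, rfl⟩))))))
  have mc : ∀ i, X.c i ∈ FF k S := fun i =>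
    mem_FF_self (Or.inl (Or.inl (Or.inl (Or.inl (Or.inr ⟨i, rfl⟩)))))
  have mc' : ∀ i, X'.c i ∈ FF k S := fun i =>
    mem_FF_self (Or.inl (Or.inl (Or.inl (Or.inr ⟨i, rfl⟩))))
  have mg : ∀ i, X.g i ∈ FF k S := fun i => mem_FF_self (Or.inl (Or.inl (Or.inr ⟨i, rfl⟩)))
  have mh : ∀ i, X.h i ∈ FF k S := fun i => mem_FF_self (Or.inl (Or.inr ⟨i, rfl⟩))
  have m4 : ∀ i, (![X'.h 1, X'.h 2, X.th 1, X.th 2] : Fin 4 → K) i ∈ FF k S := fun i =>
    mem_FF_self (Or.inr ⟨i, rfl⟩)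
  have mt : X.t ∈ FF k S := m3 0
  have mt' : X'.t ∈ FF k S := m3 1
  obtain ⟨mN, mN'⟩ := hu _ mt mt' mu
  have mth : ∀ i, X.th i ∈ FF k S := by
    intro i
    fin_cases i
    · show X.th 0 ∈ FF k S
      rw [h0]
      exact zero_mem _
    · exact m4 2
    · exact m4 3
  have mth' : ∀ i, X'.th i ∈ FF k S := fun i =>
    mem_of_mul mt ht (mul_mem mt' (mth i)) (congrFun r8 i)
  have mg' : ∀ i, X'.g i ∈ FF k S := by
    intro i
    refine mem_of_mul mt ht (y := (X.N *ᵥ X'.a) i + X'.t * X.g i - (X'.N *ᵥ X.a) i) ?_ ?_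
    · exact sub_mem (add_mem (mulVec_mem mN ma' i) (mul_mem mt' (mg i))) (mulVec_mem mN' ma i)
    · have h := congrFun r2 i
      simp only [Pi.add_apply, Pi.smul_apply, smul_eq_mul] at h
      linear_combination -h
  have mh' : ∀ i, X'.h i ∈ FF k S := by
    intro i
    fin_cases i
    · show X'.h 0 ∈ FF k S
      refine mem_of_mul mt ht (y := X.th ⬝ᵥ X'.a + X.h 0 * X'.t - X'.th ⬝ᵥ X.a) ?_ ?_
      · exact sub_mem (add_mem (dot_mem mth ma') (mul_mem (mh 0) mt')) (dot_mem mth' ma)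
      · linear_combination -r1
    · exact m4 0
    · exact m4 1
  have ms' : X'.s ∈ FF k S := by
    refine mem_of_mul mt ht (y := X.s * X'.t + (X.h ⬝ᵥ X'.a + X.th ⬝ᵥ X'.c) -
      (X'.h ⬝ᵥ X.a + X'.th ⬝ᵥ X.c)) ?_ ?_
    · exact sub_mem (add_mem (mul_mem (m3 2) mt') (add_mem (dot_mem mh ma') (dot_mem mth mc')))
        (add_mem (dot_mem mh' ma) (dot_mem mth' mc))
    · linear_combination -r5
  exact ⟨S, rS, ⟨mN, mg, mt, ma, mc, m3 2, mh, mth⟩, ⟨mN', mg', mt', ma', mc', ms', mh', mth'⟩⟩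

/-- the same data in the form of `Cnt322` -/
def dat (X : XD K (Fin 3)) : C322.Dat K := ⟨X.t, X.s, X.a, X.c, X.g, X.th, X.h, X.N⟩

/-- case A -/
theorem caseA (hR : Rel 0 X X') (ht : X.t = 0) (ht' : X'.t = 0) (h0 : X.th 0 = 0)
    (h0' : X'.th 0 = 0) :
    ∃ S : Set K, rk k S ≤ ((39 : ℕ) : ℕ∞) ∧ X.In (FF k S) ∧ X'.In (FF k S) := by
  obtain ⟨r1, r2, r3, r4, r5, r6, r7, r8⟩ := hR
  simp only [ht, ht', h0, h0', zero_smul, add_zero, zero_mul, mul_zero] at r1 r2 r4 r5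
  have hr : C322.Rel (dat X) (dat X') := by
    refine ⟨fun i => ?_, fun i => ?_, ?_, ?_, ?_, fun m => ?_, ?_, fun i => ?_⟩
    · show X'.t * X.N i 0 = X.t * X'.N i 0
      rw [ht, ht', zero_mul, zero_mul]
    · show X'.t * X.g i + ∑ j, X.N i j * X'.a j = X.t * X'.g i + ∑ j, X'.N i j * X.a j
      rw [ht, ht', zero_mul, zero_mul, zero_add, zero_add]
      exact congrFun r2 i
    · show X'.t * X.th 0 = X.t * X'.th 0
      rw [ht, ht', zero_mul, zero_mul]
    · show X'.t * X.h 0 + ∑ j, X.th j * X'.a j = X.t * X'.h 0 + ∑ j, X'.th j * X.a j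
      rw [ht, ht', zero_mul, zero_mul, zero_add, zero_add]
      exact r1
    · show X'.t * X.s + ∑ j, X.h j * X'.a j + ∑ j, X.th j * X'.c j =
        X.t * X'.s + ∑ j, X'.h j * X.a j + ∑ j, X'.th j * X.c j
      rw [ht, ht', zero_mul, zero_mul, zero_add, zero_add]
      rw [zero_add, zero_add] at r5
      exact r5
    · exact congrFun r3 m
    · exact r6
    · exact congrFun r4 i
  have h39 := C322.cnt322 (k := k) hr
  have m1 : ∀ i, (dat X).get i ∈ FF k (Set.range (C322.crd (dat X) (dat X'))) := fun i =>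
    mem_FF_self ⟨Sum.inl i, rfl⟩
  have m2 : ∀ i, (dat X').get i ∈ FF k (Set.range (C322.crd (dat X) (dat X'))) := fun i =>
    mem_FF_self ⟨Sum.inr i, rfl⟩
  refine ⟨_, h39, ⟨fun i j => m1 (.N i j), fun i => m1 (.g i), m1 .al, fun i => m1 (.a i),
    fun i => m1 (.c i), m1 .be, fun i => m1 (.th1 i), fun i => m1 (.th i)⟩,
    ⟨fun i j => m2 (.N i j), fun i => m2 (.g i), m2 .al, fun i => m2 (.a i),
    fun i => m2 (.c i), m2 .be, fun i => m2 (.th1 i), fun i => m2 (.th i)⟩⟩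

end Cnt

/-- the count for `n = 4` -/
theorem cnt4322 {X X' : XD K (Fin 3)} (hR : Rel 0 X X')
    (h : (X.t = 0 ∧ X'.t = 0) ∨ (X.th 0 = 0 ∧ X'.th 0 = 0)) :
    ∃ S : Set K, rk k S ≤ ((39 : ℕ) : ℕ∞) ∧ X.In (FF k S) ∧ X'.In (FF k S) := by
  by_cases ht : X.t = 0 ∧ X'.t = 0
  · by_cases h0 : X.th 0 = 0
    · by_cases h0' : X'.th 0 = 0
      · exact Cnt.caseA hR ht.1 ht.2 h0 h0'
      · obtain ⟨S, a, b, c⟩ := Cnt.caseB (k := k) (Cnt.Rel.symm hR) ht.2 ht.1 h0'
        exact ⟨S, a, c, b⟩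
    · exact Cnt.caseB hR ht.1 ht.2 h0
  · have h1 : X.th 0 = 0 ∧ X'.th 0 = 0 := h.resolve_left ht
    by_cases hX : X.t = 0
    · have hX' : X'.t ≠ 0 := fun e => ht ⟨hX, e⟩
      obtain ⟨S, a, b, c⟩ := Cnt.caseI (k := k) (Cnt.Rel.symm hR) hX' h1.2 h1.1
      exact ⟨S, a, c, b⟩
    · exact Cnt.caseI hR hX h1.1 h1.2

/-- all coordinates -/
def cx (X : XD K (Fin 3)) : Set K :=
  Set.range (fun p : Fin 3 × Fin 3 => X.N p.1 p.2) ∪ Set.range X.g ∪ Set.range X.a ∪
    Set.range X.c ∪ Set.range X.h ∪ Set.range X.th ∪ {X.t, X.s}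

theorem XD.In.cx {X : XD K (Fin 3)} {L : IntermediateField k K} (h : X.In L) :
    L322.cx X ⊆ L := by
  rintro x ((((((⟨i, rfl⟩ | ⟨i, rfl⟩) | ⟨i, rfl⟩) | ⟨i, rfl⟩) | ⟨i, rfl⟩) | ⟨i, rfl⟩) | hx)
  · exact h.N _ _
  · exact h.g _
  · exact h.a _
  · exact h.c _
  · exact h.h _
  · exact h.th _
  · rcases hx with rfl | hx
    · exact h.t
    · rw [Set.mem_singleton_iff] at hx
      rw [hx]
      exact h.s

/-- the count for maximal bad triples, `n = 4` -/
theorem cnt4322M [CharZero K] {ρ : ℕ → ℕ} {X X' : XD K (Fin 3)}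
    (hT : MaxR ρ ![A4 K (0 : Fin 3), XD.mat 0 X, XD.mat 0 X']) (h4 : ρ 4 = 0) :
    rk k (cx X ∪ cx X') ≤ 39 := by
  obtain ⟨S, hS, h1, h2⟩ := cnt4322 (k := k) (rel hT) (t_or hT h4)
  exact (rk_le (Set.union_subset h1.cx h2.cx)).trans hS

end L322

end Pool.Agent.Lib.D13
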