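import Pool.Agent.Lib.D13.GenCnt

/-!
# Counting of parameters of matrices (MP_5dcbc3_ag)

`G k t M`: all entries of the matrix `M` are in `FF k t`, a class, so that membership of matrix
expressions is found by instance search. `Bd k t n`: the rank of `t` is at most `n`.
-/

namespace Pool.Agent.Lib.D13

open Matrix

variable {k K : Type*} [Field k] [Field K] [Algebra k K]

/-- the set of the entries -/
def en {m n : Type*} (M : Matrix m n K) : Set K := Set.range fun z : m × n => M z.1 z.2

omit [Field K] in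
theorem mem_en {m n : Type*} (M : Matrix m n K) (i : m) (j : n) : M i j ∈ en M := ⟨(i, j), rfl⟩

variable (k) in
/-- all entries are algebraic over `k(t)` -/
class G {m n : Type*} (t : Set K) (M : Matrix m n K) : Prop where
  mem : ∀ i j, M i j ∈ FF k t

variable (k) in
/-- the transcendence degree of `k(t)` is at most `n` -/
def Bd (t : Set K) (n : ℕ) : Prop := rk k t ≤ n

section

variable {m n l : Type*} {t s : Set K}

theorem G.mono {M : Matrix m n K} (h : G k t M) (hs : t ⊆ s) : G k s M :=
  ⟨fun i j => FF_mono hs (h.mem i j)⟩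

instance G.right (M : Matrix m n K) : G k (t ∪ en M) M :=
  ⟨fun i j => mem_FF_self (Or.inr (mem_en M i j))⟩

instance G.left (M : Matrix m n K) [h : G k t M] : G k (t ∪ s) M := h.mono Set.subset_union_left

instance G.zero : G k t (0 : Matrix m n K) := ⟨fun _ _ => zero_mem _⟩

instance G.one [DecidableEq m] : G k t (1 : Matrix m m K) := ⟨fun i j => by
  rw [Matrix.one_apply]
  split_ifs
  · exact one_mem _
  · exact zero_mem _⟩

instance G.neg (M : Matrix m n K) [h : G k t M] : G k t (-M) := ⟨fun i j => neg_mem (h.mem i j)⟩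

instance G.add (M N : Matrix m n K) [h : G k t M] [h' : G k t N] : G k t (M + N) :=
  ⟨fun i j => add_mem (h.mem i j) (h'.mem i j)⟩

instance G.sub (M N : Matrix m n K) [h : G k t M] [h' : G k t N] : G k t (M - N) :=
  ⟨fun i j => sub_mem (h.mem i j) (h'.mem i j)⟩

instance G.mul [Fintype n] (M : Matrix m n K) (N : Matrix n l K) [h : G k t M] [h' : G k t N] :
    G k t (M * N) :=
  ⟨fun i j => sum_mem fun a _ => mul_mem (h.mem i a) (h'.mem a j)⟩

instance G.transpose (M : Matrix m n K) [h : G k t M] : G k t Mᵀ := ⟨fun i j => h.mem j i⟩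

instance G.inv [Fintype m] [DecidableEq m] (M : Matrix m m K) [h : G k t M] : G k t M⁻¹ :=
  ⟨inv_mem_of h.mem⟩

theorem G.en_sub {M : Matrix m n K} (h : G k t M) : en M ⊆ FF k t := by
  rintro _ ⟨z, rfl⟩
  exact h.mem _ _

theorem Bd.nil : Bd k (∅ : Set K) 0 := by
  have := rk_le_encard (k := k) (∅ : Set K)
  rw [Set.encard_empty] at this
  simpa [Bd] using this

theorem Bd.add [Fintype m] [Fintype n] {N : ℕ} (h : Bd k t N) (M : Matrix m n K) :
    Bd k (t ∪ en M) (N + Fintype.card m * Fintype.card n) := by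
  have h1 : rk k (t ∪ en M) ≤ rk k t + Fintype.card (m × n) :=
    rk_le_add_card (fun z : m × n => M z.1 z.2) (subset_FF _)
  rw [Fintype.card_prod] at h1
  refine h1.trans ?_
  unfold Bd at h
  push_cast
  gcongr

theorem Bd.mono {N N' : ℕ} (h : Bd k t N) (hN : N ≤ N') : Bd k t N' := by
  unfold Bd at *
  exact h.trans (by exact_mod_cast hN)

theorem Bd.of_sub {N : ℕ} (h : Bd k t N) (hs : s ⊆ FF k t) : Bd k s N :=
  (rk_le hs).trans h

end

/-! ### a frame of a row or a column with two entries -/

/-- `a ≠ 0`: the matrices `(a; xi)` and `(ap, ka)` are inverse to each other -/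
theorem frame {a : Matrix (Fin 1) (Fin 2) K} (ha : a ≠ 0) :
    ∃ (ap ka : Matrix (Fin 2) (Fin 1) K) (xi : Matrix (Fin 1) (Fin 2) K),
      a * ap = 1 ∧ a * ka = 0 ∧ xi * ka = 1 ∧ xi * ap = 0 ∧ ap * a + ka * xi = 1 ∧
      ∀ t : Set K, G k t a → G k t ap ∧ G k t ka ∧ G k t xi := by
  by_cases h0 : a 0 0 = 0
  · have h1 : a 0 1 ≠ 0 := by
      intro h1
      apply ha
      ext i j
      fin_cases i
      fin_cases j
      · exact h0
      · exact h1
    refine ⟨!![0; (a 0 1)⁻¹], !![1; 0], !![1, 0], ?_, ?_, ?_, ?_, ?_, ?_⟩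
    · ext i j
      fin_cases i
      fin_cases j
      simp [Matrix.mul_apply, Fin.sum_univ_two, h1]
    · ext i j
      fin_cases i
      fin_cases j
      simp [Matrix.mul_apply, Fin.sum_univ_two, h0]
    · ext i j
      fin_cases i
      fin_cases j
      simp [Matrix.mul_apply, Fin.sum_univ_two]
    · ext i j
      fin_cases i
      fin_cases j
      simp [Matrix.mul_apply, Fin.sum_univ_two]
    · ext i j
      fin_cases i <;> fin_cases j <;> simp [Matrix.vecMul, dotProduct, h0, h1]
    · intro t ht
      refine ⟨⟨fun i j => ?_⟩, ⟨fun i j => ?_⟩, ⟨fun i j => ?_⟩⟩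
      · fin_cases i <;> fin_cases j
        · exact zero_mem _
        · exact inv_mem (ht.mem 0 1)
      · fin_cases i <;> fin_cases j
        · exact one_mem _
        · exact zero_mem _
      · fin_cases i
        fin_cases j
        · exact one_mem _
        · exact zero_mem _
  · refine ⟨!![(a 0 0)⁻¹; 0], !![-(a 0 0)⁻¹ * a 0 1; 1], !![0, 1], ?_, ?_, ?_, ?_, ?_, ?_⟩
    · ext i j
      fin_cases i
      fin_cases j
      simp [Matrix.mul_apply, Fin.sum_univ_two, h0]
    · ext i j
      fin_cases i
      fin_cases j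
      simp [Matrix.mul_apply, Fin.sum_univ_two, h0]
    · ext i j
      fin_cases i
      fin_cases j
      simp [Matrix.mul_apply, Fin.sum_univ_two]
    · ext i j
      fin_cases i
      fin_cases j
      simp [Matrix.mul_apply, Fin.sum_univ_two]
    · ext i j
      fin_cases i <;> fin_cases j <;> simp [Matrix.vecMul, dotProduct, h0]
    · intro t ht
      refine ⟨⟨fun i j => ?_⟩, ⟨fun i j => ?_⟩, ⟨fun i j => ?_⟩⟩
      · fin_cases i <;> fin_cases j
        · exact inv_mem (ht.mem 0 0)
        · exact zero_mem _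
      · fin_cases i <;> fin_cases j
        · exact mul_mem (neg_mem (inv_mem (ht.mem 0 0))) (ht.mem 0 1)
        · exact one_mem _
      · fin_cases i
        fin_cases j
        · exact zero_mem _
        · exact one_mem _

/-- a column with two entries -/
theorem frameC {b : Matrix (Fin 2) (Fin 1) K} (hb : b ≠ 0) :
    ∃ bp : Matrix (Fin 1) (Fin 2) K, bp * b = 1 ∧ ∀ t : Set K, G k t b → G k t bp := by
  obtain ⟨ap, ka, xi, h1, -, -, -, -, h⟩ := frame (k := k) (a := bᵀ) (by
    intro h
    apply hb
    rw [← transpose_transpose b, h, transpose_zero])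
  refine ⟨apᵀ, ?_, fun t ht => ?_⟩
  · have h2 := congrArg transpose h1
    rwa [transpose_mul, transpose_transpose, transpose_one] at h2
  · have := (h t inferInstance).1
    infer_instance

/-- `1 x 1` matrices -/
theorem inv1 {c : Matrix (Fin 1) (Fin 1) K} (hc : c ≠ 0) : c * c⁻¹ = 1 ∧ c⁻¹ * c = 1 := by
  have h : IsUnit c.det := by
    rw [Matrix.det_fin_one, isUnit_iff_ne_zero]
    intro h
    apply hc
    ext i j
    fin_cases i
    fin_cases j
    exact h
  exact ⟨Matrix.mul_nonsing_inv _ h, Matrix.nonsing_inv_mul _ h⟩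

/-- commuting pairs of `2 x 2` matrices depend on six parameters -/
theorem comm2_cnt {N N' : Matrix (Fin 2) (Fin 2) K} (h : N * N' = N' * N) :
    ∃ t : Set K, Bd k t 6 ∧ G k t N ∧ G k t N' := by
  have e00 := congrFun (congrFun h 0) 0
  have e01 := congrFun (congrFun h 0) 1
  have e10 := congrFun (congrFun h 1) 0
  simp only [Matrix.mul_apply, Fin.sum_univ_two] at e00 e01 e10
  -- N' = c + d N in the nonscalar case
  have key : ∀ c d : K, N' = Matrix.scalar (Fin 2) c + Matrix.scalar (Fin 2) d * N →
      ∃ t : Set K, Bd k t 6 ∧ G k t N ∧ G k t N' := by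
    intro c d e
    refine ⟨∅ ∪ en N ∪ en (!![c] : Matrix (Fin 1) (Fin 1) K) ∪ en (!![d] : Matrix (Fin 1) (Fin 1) K),
      ((Bd.nil.add _).add _).add _, inferInstance, ?_⟩
    have hc : ∀ c' : K, ∀ t : Set K, G k t (!![c'] : Matrix (Fin 1) (Fin 1) K) →
        G k t (Matrix.scalar (Fin 2) c') := by
      intro c' t ht
      refine ⟨fun i j => ?_⟩
      rw [Matrix.scalar_apply, Matrix.diagonal_apply]
      split_ifs
      · exact ht.mem 0 0
      · exact zero_mem _
    have h1 := hc c (∅ ∪ en N ∪ en (!![c] : Matrix (Fin 1) (Fin 1) K) ∪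
      en (!![d] : Matrix (Fin 1) (Fin 1) K)) inferInstance
    have h2 := hc d (∅ ∪ en N ∪ en (!![c] : Matrix (Fin 1) (Fin 1) K) ∪
      en (!![d] : Matrix (Fin 1) (Fin 1) K)) inferInstance
    rw [e]
    infer_instance
  by_cases h01 : N 0 1 = 0
  · by_cases h10 : N 1 0 = 0
    · by_cases h2 : N 0 0 = N 1 1
      · -- N scalar
        refine ⟨∅ ∪ en N' ∪ en (!![N 0 0] : Matrix (Fin 1) (Fin 1) K),
          ((Bd.nil.add _).add _).mono (by simp), ?_, inferInstance⟩
        have h1 : G k (∅ ∪ en N' ∪ en (!![N 0 0] : Matrix (Fin 1) (Fin 1) K))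
          (!![N 0 0] : Matrix (Fin 1) (Fin 1) K) := inferInstance
        refine ⟨fun i j => ?_⟩
        fin_cases i <;> fin_cases j
        · exact h1.mem 0 0
        · show N 0 1 ∈ _
          rw [h01]
          exact zero_mem _
        · show N 1 0 ∈ _
          rw [h10]
          exact zero_mem _
        · show N 1 1 ∈ _
          rw [← h2]
          exact h1.mem 0 0
      · have hne : N 0 0 - N 1 1 ≠ 0 := sub_ne_zero.2 h2
        have f01 : N' 0 1 = 0 := by
          have : (N 0 0 - N 1 1) * N' 0 1 = 0 := by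
            rw [h01] at e01
            linear_combination e01
          exact (mul_eq_zero.1 this).resolve_left hne
        have f10 : N' 1 0 = 0 := by
          have : (N 0 0 - N 1 1) * N' 1 0 = 0 := by
            rw [h10] at e10
            linear_combination -e10
          exact (mul_eq_zero.1 this).resolve_left hne
        refine key (N' 0 0 - (N' 0 0 - N' 1 1) / (N 0 0 - N 1 1) * N 0 0)
          ((N' 0 0 - N' 1 1) / (N 0 0 - N 1 1)) ?_
        ext i j
        fin_cases i <;> fin_cases j <;>
          simp [Matrix.mul_apply, Matrix.scalar_apply, Matrix.diagonal_apply,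
            h01, h10, f01, f10]
        field_simp
        ring
    · refine key (N' 0 0 - N' 1 0 / N 1 0 * N 0 0) (N' 1 0 / N 1 0) ?_
      ext i j
      fin_cases i <;> fin_cases j <;>
        simp [Matrix.mul_apply, Matrix.scalar_apply, Matrix.diagonal_apply]
      · field_simp
        linear_combination -e00
      · field_simp
      · field_simp
        linear_combination -e10
  · refine key (N' 0 0 - N' 0 1 / N 0 1 * N 0 0) (N' 0 1 / N 0 1) ?_
    ext i j
    fin_cases i <;> fin_cases j <;>
      simp [Matrix.mul_apply, Matrix.scalar_apply, Matrix.diagonal_apply]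
    · field_simp
    · field_simp
      linear_combination e00
    · field_simp
      linear_combination e01

/-! ### multiplication by a `1 x 1` matrix -/

/-- multiplication by the entry of a `1 x 1` matrix -/
def sm {m n : Type*} (S : Matrix (Fin 1) (Fin 1) K) (M : Matrix m n K) : Matrix m n K := S 0 0 • M

section

variable {m n l : Type*} {t : Set K} (S : Matrix (Fin 1) (Fin 1) K)

instance G.sm (M : Matrix m n K) [h : G k t S] [h' : G k t M] : G k t (sm S M) :=
  ⟨fun i j => mul_mem (h.mem 0 0) (h'.mem i j)⟩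

theorem mul_row (a : Matrix (Fin 1) n K) : S * a = sm S a := by
  ext i j
  fin_cases i
  simp [sm, Matrix.mul_apply]

theorem col_mul (b : Matrix m (Fin 1) K) : b * S = sm S b := by
  ext i j
  fin_cases j
  simp only [sm, Matrix.mul_apply, Fin.sum_univ_one, Matrix.smul_apply, smul_eq_mul]
  exact mul_comm _ _

theorem sm_mul [Fintype n] (M : Matrix m n K) (N : Matrix n l K) : sm S (M * N) = sm S M * N := by
  rw [sm, sm, Matrix.smul_mul]

theorem mul_sm [Fintype n] (M : Matrix m n K) (N : Matrix n l K) : M * sm S N = sm S (M * N) := by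
  rw [sm, sm, Matrix.mul_smul]

end

/-- cancellation of a nonzero `1 x 1` matrix -/
theorem can_l {n : Type*} {c : Matrix (Fin 1) (Fin 1) K} (hc : c ≠ 0) {x : Matrix (Fin 1) n K}
    (h : c * x = 0) : x = 0 := by
  have h1 : x = c⁻¹ * (c * x) := by rw [← Matrix.mul_assoc, (inv1 hc).2, Matrix.one_mul]
  rw [h1, h, Matrix.mul_zero]

theorem can_r {m : Type*} {c : Matrix (Fin 1) (Fin 1) K} (hc : c ≠ 0) {x : Matrix m (Fin 1) K}
    (h : x * c = 0) : x = 0 := by
  have h1 : x = (x * c) * c⁻¹ := by rw [Matrix.mul_assoc, (inv1 hc).1, Matrix.mul_one]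
  rw [h1, h, Matrix.zero_mul]

theorem div_r {m : Type*} {c : Matrix (Fin 1) (Fin 1) K} (hc : c ≠ 0) {x y : Matrix m (Fin 1) K}
    (h : x * c = y) : x = y * c⁻¹ := by
  rw [← h, Matrix.mul_assoc, (inv1 hc).1, Matrix.mul_one]

end Pool.Agent.Lib.D13
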