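import Pool.Agent.Lib.D13.GenCnt

/-!
# MP_5dcbc3_ag: counting the parameters of the types `(l, m, 1, 1)`

`V a = (c a, q a, b a)`; the commutator of two matrices is the cross product, with terms in `P` only
in the top degree.
-/

set_option autoImplicit false

namespace Pool.Agent.Lib.D13

namespace CntLM

variable {k K : Type*} [Field k] [Field K] [Algebra k K]

theorem encard_range_le {ι : Type*} [Fintype ι] (u : ι → K) :
    (Set.range u).encard ≤ Fintype.card ι := by
  rw [← Set.image_univ]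
  refine (Set.encard_image_le _ _).trans ?_
  rw [Set.encard_univ, ENat.card_eq_coe_fintype_card]

/-- `sum x_i y_i` in the field of the others -/
theorem rk_pair {t : Set K} (x y : Fin 4 → K) (h : ∑ i, x i * y i ∈ FF k (t ∪ Set.range x)) :
    rk k ((t ∪ Set.range x) ∪ Set.range y) ≤ rk k t + 7 := by
  classical
  by_cases hx : x = 0
  · have h1 : (t ∪ Set.range x) ∪ Set.range y ⊆ FF k (t ∪ Set.range y) := by
      refine Set.union_subset (Set.union_subset ?_ ?_) ?_
      · exact Set.subset_union_left.trans (subset_FF _)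
      · rintro _ ⟨i, rfl⟩
        rw [hx]
        exact zero_mem (FF k (t ∪ Set.range y))
      · exact Set.subset_union_right.trans (subset_FF _)
    refine (rk_le_add_card y h1).trans ?_
    gcongr
    rw [Fintype.card_fin]
    exact_mod_cast (by omega : 4 ≤ 7)
  · let A : Matrix (Fin 1) (Fin 4) K := Matrix.of fun _ j => x j
    obtain ⟨j₀, hj⟩ := Function.ne_iff.1 hx
    have h2 := rk_linear_minor (k := k) (t := t ∪ Set.range x) (r := 1) A y id (fun _ => j₀)
      (by rw [Matrix.det_fin_one]; exact hj)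
      (fun i j => mem_FF_self (Or.inr ⟨j, rfl⟩)) (fun i => h)
    rw [Fintype.card_fin] at h2
    have h3 : rk k ((t ∪ Set.range x) ∪ Set.range y) + 1 ≤ rk k (t ∪ Set.range x) + 4 := by
      exact_mod_cast h2
    have h4 : rk k (t ∪ Set.range x) ≤ rk k t + 4 := by
      refine (rk_union_le_encard _ _).trans ?_
      gcongr
      refine (encard_range_le x).trans ?_
      rw [Fintype.card_fin]
      exact le_rfl
    have h5 : rk k ((t ∪ Set.range x) ∪ Set.range y) + 1 ≤ (rk k t + 7) + 1 := by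
      refine h3.trans ?_
      calc rk k (t ∪ Set.range x) + 4 ≤ (rk k t + 4) + 4 := by gcongr
        _ = (rk k t + 7) + 1 := by
          rw [add_assoc, add_assoc]
          norm_num
    exact (WithTop.add_le_add_iff_right (by exact WithTop.one_ne_top)).1 h5

/-- the eight coordinates of one matrix in `P` -/
def pd (om pi th et : Fin 2 → K) : Set K :=
  Set.range om ∪ Set.range pi ∪ (Set.range th ∪ Set.range et)

/-- the sixteen coordinates in `P` satisfy a relation -/
theorem rk_pd {om pi th et om' pi' th' et' : Fin 2 → K}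
    (h : et 0 * pi' 0 + et 1 * pi' 1 - (et' 0 * pi 0 + et' 1 * pi 1) ∈
      FF k (Set.range om ∪ Set.range om' ∪ (Set.range th ∪ Set.range th'))) :
    rk k (pd om pi th et ∪ pd om' pi' th' et') ≤ 15 := by
  let t : Set K := Set.range om ∪ Set.range om' ∪ (Set.range th ∪ Set.range th')
  let x : Fin 4 → K := ![et 0, et 1, et' 0, et' 1]
  let y : Fin 4 → K := ![pi' 0, pi' 1, - pi 0, - pi 1]
  have h1 : ∑ i, x i * y i ∈ FF k (t ∪ Set.range x) := by
    have e : ∑ i, x i * y i = et 0 * pi' 0 + et 1 * pi' 1 - (et' 0 * pi 0 + et' 1 * pi 1) := by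
      rw [Fin.sum_univ_four]
      show et 0 * pi' 0 + et 1 * pi' 1 + et' 0 * (- pi 0) + et' 1 * (- pi 1) = _
      ring
    rw [e]
    exact FF_mono Set.subset_union_left h
  have h2 := rk_pair (k := k) x y h1
  have ht : rk k t ≤ 8 := by
    refine (rk_le_encard _).trans ?_
    refine (Set.encard_union_le _ _).trans ?_
    refine (add_le_add (Set.encard_union_le _ _) (Set.encard_union_le _ _)).trans ?_
    refine (add_le_add (add_le_add (encard_range_le _) (encard_range_le _))
      (add_le_add (encard_range_le _) (encard_range_le _))).trans ?_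
    rw [Fintype.card_fin]
    norm_num
  have h3 : pd om pi th et ∪ pd om' pi' th' et' ⊆
      FF k ((t ∪ Set.range x) ∪ Set.range y) := by
    have hx : ∀ i, x i ∈ FF k ((t ∪ Set.range x) ∪ Set.range y) := fun i =>
      mem_FF_self (Or.inl (Or.inr ⟨i, rfl⟩))
    have hy : ∀ i, y i ∈ FF k ((t ∪ Set.range x) ∪ Set.range y) := fun i =>
      mem_FF_self (Or.inr ⟨i, rfl⟩)
    have ht' : ∀ a ∈ t, a ∈ FF k ((t ∪ Set.range x) ∪ Set.range y) := fun a ha =>
      mem_FF_self (Or.inl (Or.inl ha))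
    rintro a (((⟨i, rfl⟩ | ⟨i, rfl⟩) | (⟨i, rfl⟩ | ⟨i, rfl⟩)) |
      ((⟨i, rfl⟩ | ⟨i, rfl⟩) | (⟨i, rfl⟩ | ⟨i, rfl⟩)))
    · exact ht' _ (Or.inl (Or.inl ⟨i, rfl⟩))
    · fin_cases i
      · have := neg_mem (hy 2)
        simpa [y] using this
      · have := neg_mem (hy 3)
        simpa [y] using this
    · exact ht' _ (Or.inr (Or.inl ⟨i, rfl⟩))
    · fin_cases i
      · exact hx 0
      · exact hx 1
    · exact ht' _ (Or.inl (Or.inr ⟨i, rfl⟩))
    · fin_cases i
      · exact hy 0
      · exact hy 1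
    · exact ht' _ (Or.inr (Or.inr ⟨i, rfl⟩))
    · fin_cases i
      · exact hx 2
      · exact hx 3
  refine (rk_le h3).trans (h2.trans ?_)
  calc rk k t + 7 ≤ 8 + 7 := by gcongr
    _ = 15 := by norm_num

open Finset in
/-- the generators when `V 1 ≠ 0` -/
theorem count_one {m : ℕ} {V V' : ℕ → Fin 3 → K} {P : Set K}
    (hm : 4 ≤ m) (h0 : V 0 = 0) (h0' : V' 0 = 0) (hP : rk k P ≤ 15)
    (h : ∀ e, 2 ≤ e → e < m → ∀ i j, ∑ x ∈ antidiagonal e,
      (V x.1 i * V' x.2 j - V x.1 j * V' x.2 i) ∈ FF k P) {i₀ : Fin 3} (h1 : V 1 i₀ ≠ 0) :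
    ∃ S : Set K, P ⊆ S ∧ rk k S ≤ (4 * m + 13 : ℕ) ∧
      ∀ a < m, ∀ i, V a i ∈ FF k S ∧ V' a i ∈ FF k S := by
  let f : Fin (m - 1) × Fin 3 → K := fun x => V ((x.1 : ℕ) + 1) x.2
  let g : Fin (m - 2) → K := fun x => V' ((x : ℕ) + 1) i₀
  let w : Fin 3 → K := fun i => V' (m - 1) i
  let S : Set K := P ∪ Set.range (Sum.elim f (Sum.elim g w))
  have hS : P ⊆ S := Set.subset_union_left
  have hf : ∀ z, Sum.elim f (Sum.elim g w) z ∈ FF k S := fun z => mem_FF_self (Or.inr ⟨z, rfl⟩)
  have hV : ∀ a < m, ∀ i, V a i ∈ FF k S := by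
    intro a ha i
    rcases Nat.eq_zero_or_pos a with h2 | h2
    · rw [h2, h0]
      exact zero_mem _
    · have h3 := hf (Sum.inl (⟨a - 1, by omega⟩, i))
      simp only [Sum.elim_inl, f] at h3
      rwa [show a - 1 + 1 = a by omega] at h3
  have hw : ∀ i, V' (m - 1) i ∈ FF k S := fun i => hf (Sum.inr (Sum.inr i))
  have hg : ∀ a, 1 ≤ a → a ≤ m - 2 → V' a i₀ ∈ FF k S := by
    intro a ha ha'
    have h3 := hf (Sum.inr (Sum.inl ⟨a - 1, by omega⟩))
    simp only [Sum.elim_inr, Sum.elim_inl, g] at h3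
    rwa [show a - 1 + 1 = a by omega] at h3
  have hV' : ∀ a, a ≤ m - 2 → ∀ j, V' a j ∈ FF k S := by
    intro a
    induction a using Nat.strong_induction_on with
    | _ a ih =>
      intro ha j
      rcases Nat.eq_zero_or_pos a with h2 | h2
      · rw [h2, h0']
        exact zero_mem _
      · have h3 : ∑ x ∈ antidiagonal (a + 1),
            (V x.1 i₀ * V' x.2 j - V x.1 j * V' x.2 i₀) ∈ FF k S :=
          FF_mono hS (h (a + 1) (by omega) (by omega) i₀ j)
        have h4 : (1, a) ∈ antidiagonal (a + 1) := by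
          rw [HasAntidiagonal.mem_antidiagonal]
          omega
        rw [← Finset.add_sum_erase _ _ h4] at h3
        have h5 : ∑ x ∈ (antidiagonal (a + 1)).erase (1, a),
            (V x.1 i₀ * V' x.2 j - V x.1 j * V' x.2 i₀) ∈ FF k S := by
          refine sum_mem fun x hx => ?_
          rw [Finset.mem_erase, HasAntidiagonal.mem_antidiagonal] at hx
          obtain ⟨hx1, hx2⟩ := hx
          rcases Nat.eq_zero_or_pos x.1 with h6 | h6
          · rw [h6, h0]
            simp only [Pi.zero_apply, zero_mul, sub_zero]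
            exact zero_mem _
          · have h7 : x.1 ≠ 1 := by
              intro h8
              apply hx1
              exact Prod.ext h8 (by show x.2 = a; omega)
            have h8 : x.2 < a := by omega
            have h9 : x.1 < m := by omega
            exact sub_mem (mul_mem (hV _ h9 _) (ih x.2 h8 (by omega) _))
              (mul_mem (hV _ h9 _) (ih x.2 h8 (by omega) _))
        have h6 : V 1 i₀ * V' a j ∈ FF k S := by
          have e : V 1 i₀ * V' a j = (V 1 i₀ * V' a j - V 1 j * V' a i₀ +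
              ∑ x ∈ (antidiagonal (a + 1)).erase (1, a),
                (V x.1 i₀ * V' x.2 j - V x.1 j * V' x.2 i₀)) -
              ∑ x ∈ (antidiagonal (a + 1)).erase (1, a),
                (V x.1 i₀ * V' x.2 j - V x.1 j * V' x.2 i₀) + V 1 j * V' a i₀ := by ring
          rw [e]
          exact add_mem (sub_mem h3 h5) (mul_mem (hV 1 (by omega) _) (hg a h2 ha))
        have h7 : V' a j = (V 1 i₀)⁻¹ * (V 1 i₀ * V' a j) := by
          rw [← mul_assoc, inv_mul_cancel₀ h1, one_mul]
        rw [h7]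
        exact mul_mem (inv_mem (hV 1 (by omega) _)) h6
  refine ⟨S, hS, ?_, fun a ha i => ⟨hV a ha i, ?_⟩⟩
  · refine (rk_union_le_encard _ _).trans ?_
    refine (add_le_add hP (encard_range_le _)).trans ?_
    simp only [Fintype.card_sum, Fintype.card_prod, Fintype.card_fin]
    exact_mod_cast (by omega)
  · rcases Nat.lt_or_ge (m - 2) a with h2 | h2
    · have h3 : a = m - 1 := by omega
      rw [h3]
      exact hw i
    · exact hV' a h2 i

open Finset in
/-- **the count** of the coordinates, `m = 4, 5` -/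
theorem count {m : ℕ} {V V' : ℕ → Fin 3 → K} {P : Set K}
    (hm : 4 ≤ m) (hm' : m ≤ 5) (h0 : V 0 = 0) (h0' : V' 0 = 0) (hP : rk k P ≤ 15)
    (h : ∀ e, 2 ≤ e → e < m → ∀ i j, ∑ x ∈ antidiagonal e,
      (V x.1 i * V' x.2 j - V x.1 j * V' x.2 i) ∈ FF k P) :
    ∃ S : Set K, P ⊆ S ∧ rk k S ≤ (4 * m + 13 : ℕ) ∧
      ∀ a < m, ∀ i, V a i ∈ FF k S ∧ V' a i ∈ FF k S := by
  by_cases h1 : ∃ i, V 1 i ≠ 0
  · obtain ⟨i, hi⟩ := h1
    exact count_one hm h0 h0' hP h hi
  by_cases h2 : ∃ i, V' 1 i ≠ 0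
  · obtain ⟨i, hi⟩ := h2
    obtain ⟨S, a1, a2, a3⟩ := count_one (k := k) (V := V') (V' := V) hm h0' h0 hP (by
      intro e he he' i j
      have h3 := h e he he' j i
      have e1 : ∑ x ∈ antidiagonal e, (V' x.1 i * V x.2 j - V' x.1 j * V x.2 i) =
          ∑ x ∈ antidiagonal e, (V x.1 j * V' x.2 i - V x.1 i * V' x.2 j) := by
        rw [← Finset.Nat.sum_antidiagonal_swap]
        refine Finset.sum_congr rfl fun x _ => ?_
        simp only [Prod.fst_swap, Prod.snd_swap]
        ring
      rw [e1]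
      exact h3) hi
    exact ⟨S, a1, a2, fun a ha i => ⟨(a3 a ha i).2, (a3 a ha i).1⟩⟩
  push Not at h1 h2
  let f : Fin (m - 2) × Fin 3 → K := fun x => V ((x.1 : ℕ) + 2) x.2
  let f' : Fin (m - 2) × Fin 3 → K := fun x => V' ((x.1 : ℕ) + 2) x.2
  let S : Set K := P ∪ Set.range (Sum.elim f f')
  have hf : ∀ z, Sum.elim f f' z ∈ FF k S := fun z => mem_FF_self (Or.inr ⟨z, rfl⟩)
  refine ⟨S, Set.subset_union_left, ?_, ?_⟩
  · refine (rk_union_le_encard _ _).trans ?_
    refine (add_le_add hP (encard_range_le _)).trans ?_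
    simp only [Fintype.card_sum, Fintype.card_prod, Fintype.card_fin]
    exact_mod_cast (by omega)
  · intro a ha i
    rcases Nat.lt_or_ge a 2 with h3 | h3
    · rcases Nat.eq_zero_or_pos a with h4 | h4
      · rw [h4, h0, h0']
        exact ⟨zero_mem _, zero_mem _⟩
      · have h5 : a = 1 := by omega
        rw [h5, h1, h2]
        exact ⟨zero_mem _, zero_mem _⟩
    · have h4 := hf (Sum.inl (⟨a - 2, by omega⟩, i))
      have h5 := hf (Sum.inr (⟨a - 2, by omega⟩, i))
      simp only [Sum.elim_inl, Sum.elim_inr, f, f'] at h4 h5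
      rw [show a - 2 + 2 = a by omega] at h4 h5
      exact ⟨h4, h5⟩

end CntLM

end Pool.Agent.Lib.D13
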