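import Pool.Agent.Lib.D13.LM

/-!
# MP_5dcbc3_ag: the shape of a maximal bad triple of type `(l, l, 1^p)`

All matrices of the algebra map the two long blocks to the radical plus `P`: only case II occurs.
-/

set_option autoImplicit false

namespace Pool.Agent.Lib.D13.LL

open Matrix Pool.Agent.Lib.Q5dc Pool.Agent.Lib.D7 LM

variable {k : Type*} [Field k] {l p : ℕ}

/-- if all `A + s X` have `l`-th power zero then `A ^ (l - 1) X = 0` -/
theorem top_zero {n : Type*} [Fintype n] [DecidableEq n] [CharZero k] {A X : Matrix n n k}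
    {l : ℕ} (hAX : A * X = X * A) (h : ∀ s : k, (A + s • X) ^ (l + 1) = 0) : A ^ l * X = 0 := by
  ext i j
  let P : Polynomial k := ∑ m ∈ Finset.range (l + 1 + 1),
    Polynomial.C ((X ^ m * A ^ (l + 1 - m)) i j * ((l + 1).choose m : k)) * Polynomial.X ^ m
  have hP : P = 0 := by
    refine Polynomial.funext fun s => ?_
    have hc : Commute (s • X) A := by
      show (s • X) * A = A * (s • X)
      rw [smul_mul_assoc, mul_smul_comm, hAX]
    have h1 := congrFun (congrFun (h s) i) j
    rw [add_comm, hc.add_pow, Matrix.sum_apply] at h1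
    rw [Polynomial.eval_zero, Polynomial.eval_finsetSum]
    refine Eq.trans (Finset.sum_congr rfl fun m _ => ?_) h1
    have e2 : ∀ (M : Matrix n n k) (N : ℕ), (s ^ m • M * (N : Matrix n n k)) i j =
        M i j * (N : k) * s ^ m := by
      intro M N
      rw [← nsmul_eq_mul', Matrix.smul_apply, Matrix.smul_apply, nsmul_eq_mul, smul_eq_mul]
      ring
    rw [Polynomial.eval_mul, Polynomial.eval_C, Polynomial.eval_pow, Polynomial.eval_X,
      _root_.smul_pow, smul_mul_assoc, e2]
  have h2 : P.coeff 1 = 0 := by rw [hP, Polynomial.coeff_zero]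
  have h3 : P.coeff 1 = (X ^ 1 * A ^ (l + 1 - 1)) i j * ((l + 1).choose 1 : k) := by
    simp only [P]
    rw [Polynomial.finsetSum_coeff, Finset.sum_eq_single 1]
    · rw [Polynomial.coeff_C_mul, Polynomial.coeff_X_pow, if_pos rfl, mul_one]
    · intro b _ hb
      rw [Polynomial.coeff_C_mul, Polynomial.coeff_X_pow, if_neg (fun h => hb h.symm), mul_zero]
    · intro h4
      exact absurd (Finset.mem_range.2 (by omega)) h4
  rw [h3, Nat.choose_one_right, pow_one, Nat.add_sub_cancel] at h2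
  have h4 : ((l + 1 : ℕ) : k) ≠ 0 := Nat.cast_ne_zero.2 (by omega)
  have h5 : (X * A ^ l) i j = 0 := (mul_eq_zero.1 h2).resolve_right h4
  have h6 : A ^ l * X = X * A ^ l := (Commute.pow_left (show Commute A X from hAX) l).eq
  rw [h6, h5]
  rfl

theorem shape_aux' {m : ℕ} (hlm : m ≤ l) (hm : 0 < m) {X : Matrix (IL l m p) (IL l m p) k}
    (hX : JL k l m p * X = X * JL k l m p) (h0 : ∀ i, X (.inl i) (.inl ⟨0, by omega⟩) = 0)
    (hq : X (.inr (.inl ⟨0, hm⟩)) (.inr (.inl ⟨0, hm⟩)) = 0)
    (hκ : ∀ a b, X (.inr (.inr a)) (.inr (.inr b)) = 0) :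
    ∃ (c b q : ℕ → k) (om pi th et : Fin p → k), X = BL l m p c b q om pi th et := by
  have hv : X *ᵥ vv 0 = fun x => X x (.inl ⟨0, by omega⟩) := mulVec_vv X ⟨0, by omega⟩
  have hu : X *ᵥ uu 0 = fun x => X x (.inr (.inl ⟨0, hm⟩)) := mulVec_uu X ⟨0, hm⟩
  have hu0 : ∀ i : Fin l, (i : ℕ) < l - m → X (.inl i) (.inr (.inl ⟨0, hm⟩)) = 0 := by
    intro i hi
    have h1 := comm_uu hX m
    rw [uu_ge le_rfl, mulVec_zero, hu] at h1
    have h2 := congrFun h1 (.inl ⟨i + m, by omega⟩)
    rw [JL_pow_apply_v, dif_pos (by simp)] at h2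
    simp only [Pi.zero_apply, Nat.add_sub_cancel] at h2
    exact h2.symm
  have hp0 : ∀ (i : Fin l) (a : Fin p), (i : ℕ) + 1 < l → X (.inl i) (.inr (.inr a)) = 0 := by
    intro i a hi
    have h1 := comm_pp hX (Pi.single a 1)
    rw [mulVec_pp] at h1
    have h2 := congrFun h1 (.inl ⟨i + 1, hi⟩)
    rw [JL_apply_v, dif_pos (by simp)] at h2
    simpa [Pi.single_apply] using h2
  have hp1 : ∀ (i : Fin m) (a : Fin p), (i : ℕ) + 1 < m → X (.inr (.inl i)) (.inr (.inr a)) = 0 := by
    intro i a hi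
    have h1 := comm_pp hX (Pi.single a 1)
    rw [mulVec_pp] at h1
    have h2 := congrFun h1 (.inr (.inl ⟨i + 1, hi⟩))
    rw [JL_apply_u, dif_pos (by simp)] at h2
    simpa [Pi.single_apply] using h2
  refine ⟨fun i => if h : i < m then X (.inr (.inl ⟨i, h⟩)) (.inl ⟨0, by omega⟩) else 0,
    fun i => if h : l - m + i < l then X (.inl ⟨l - m + i, h⟩) (.inr (.inl ⟨0, hm⟩)) else 0,
    fun i => if h : i < m then X (.inr (.inl ⟨i, h⟩)) (.inr (.inl ⟨0, hm⟩)) else 0,
    fun a => X (.inr (.inr a)) (.inl ⟨0, by omega⟩),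
    fun a => X (.inr (.inr a)) (.inr (.inl ⟨0, hm⟩)),
    fun a => X (.inl ⟨l - 1, by omega⟩) (.inr (.inr a)),
    fun a => X (.inr (.inl ⟨m - 1, by omega⟩)) (.inr (.inr a)), ?_⟩
  ext x y
  rcases y with y | y | y
  · have h1 : X x (.inl y) = (JL k l m p ^ (y : ℕ) *ᵥ (X *ᵥ vv 0)) x := by
      rw [← comm_vv hX, mulVec_vv]
    rw [h1, hv]
    rcases x with x | x | x
    · rw [JL_pow_apply_v]
      simp only [BL, Matrix.of_apply]
      split_ifs
      · exact h0 _
      · rfl
    · rw [JL_pow_apply_u]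
      simp only [BL, Matrix.of_apply]
      by_cases h2 : (y : ℕ) ≤ x
      · rw [dif_pos h2, if_pos h2, dif_pos (by have := x.2; omega)]
      · rw [dif_neg h2, if_neg h2]
    · rw [JL_pow_apply_p]
      simp only [BL, Matrix.of_apply]
  · have h1 : X x (.inr (.inl y)) = (JL k l m p ^ (y : ℕ) *ᵥ (X *ᵥ uu 0)) x := by
      rw [← comm_uu hX, mulVec_uu]
    rw [h1, hu]
    rcases x with x | x | x
    · rw [JL_pow_apply_v]
      simp only [BL, Matrix.of_apply]
      have hx := x.2
      by_cases h2 : l - m + (y : ℕ) ≤ x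
      · rw [dif_pos (by omega), if_pos h2, dif_pos (by omega)]
        congr 3
        omega
      · rw [if_neg h2]
        split_ifs
        · exact hu0 _ (by first | omega | (simp only; omega))
        · rfl
    · rw [JL_pow_apply_u]
      simp only [BL, Matrix.of_apply]
      have hx := x.2
      by_cases h2 : (y : ℕ) < x
      · rw [dif_pos (by omega), if_pos h2, dif_pos (by omega)]
      · rw [if_neg h2]
        split_ifs
        · have h5 : (⟨(x : ℕ) - y, by omega⟩ : Fin m) = ⟨0, hm⟩ :=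
            Fin.ext (by first | omega | (simp only; omega))
          rw [h5]
          exact hq
        · rfl
    · rw [JL_pow_apply_p]
      simp only [BL, Matrix.of_apply]
  · rcases x with x | x | x
    · simp only [BL, Matrix.of_apply]
      split_ifs with h2
      · congr 3
        exact Fin.ext (by simp only; omega)
      · exact hp0 x y (by have := x.2; omega)
    · simp only [BL, Matrix.of_apply]
      split_ifs with h2
      · congr 3
        exact Fin.ext (by first | omega | (simp only; omega))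
      · exact hp1 x y (by have := x.2; omega)
    · simp only [BL, Matrix.of_apply]
      exact hκ x y

variable {ρ : ℕ → ℕ} {T : Fin 3 → Matrix (IL l l p) (IL l l p) k}

/-- the constant terms of an element of `adj T` vanish -/
theorem LL_const [Infinite k] [CharZero k] (hT : MaxR ρ T) (hρ : ρ l = 0)
    (hl : 2 ≤ l) (hA : JL k l l p ∈ adj T) {X : Matrix (IL l l p) (IL l l p) k}
    (hX : X ∈ adj T) :
    X (.inl ⟨0, by omega⟩) (.inl ⟨0, by omega⟩) = 0 ∧
    X (.inr (.inl ⟨0, by omega⟩)) (.inl ⟨0, by omega⟩) = 0 ∧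
    X (.inl ⟨0, by omega⟩) (.inr (.inl ⟨0, by omega⟩)) = 0 ∧
    X (.inr (.inl ⟨0, by omega⟩)) (.inr (.inl ⟨0, by omega⟩)) = 0 := by
  have hcomm : JL k l l p * X = X * JL k l l p := hT.cn.comm hA hX
  have h1 : JL k l l p ^ (l - 1) * X = 0 := by
    refine top_zero hcomm fun s => ?_
    have e : l - 1 + 1 = l := by omega
    rw [e]
    exact hT.pow_eq_zero (add_mem hA (SMulMemClass.smul_mem s hX)) hρ
  have hv : JL k l l p ^ (l - 1) *ᵥ (X *ᵥ vv 0) = 0 := by
    rw [mulVec_mulVec, h1, zero_mulVec]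
  have hu : JL k l l p ^ (l - 1) *ᵥ (X *ᵥ uu 0) = 0 := by
    rw [mulVec_mulVec, h1, zero_mulVec]
  rw [mulVec_v0 _ (by omega)] at hv
  rw [mulVec_u0 _ (by omega)] at hu
  refine ⟨?_, ?_, ?_, ?_⟩
  · have h2 := congrFun hv (.inl ⟨l - 1, by omega⟩)
    rw [JL_pow_apply_v, dif_pos (by simp)] at h2
    simpa using h2
  · have h2 := congrFun hv (.inr (.inl ⟨l - 1, by omega⟩))
    rw [JL_pow_apply_u, dif_pos (by simp)] at h2
    simpa using h2
  · have h2 := congrFun hu (.inl ⟨l - 1, by omega⟩)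
    rw [JL_pow_apply_v, dif_pos (by simp)] at h2
    simpa using h2
  · have h2 := congrFun hu (.inr (.inl ⟨l - 1, by omega⟩))
    rw [JL_pow_apply_u, dif_pos (by simp)] at h2
    simpa using h2

/-- an element of `adj T` is a polynomial in `JL` without constant term plus a matrix `BL` without
constant terms -/
theorem LL_one [Infinite k] [CharZero k] (hT : MaxR ρ T) (h1 : ρ 1 ≤ (l - 1) + (l - 1))
    (hρ : ρ l = 0) (hl : 2 ≤ l) (hA : JL k l l p ∈ adj T) {X : Matrix (IL l l p) (IL l l p) k}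
    (hX : X ∈ adj T) :
    ∃ (a c b q : ℕ → k) (om pi th et : Fin p → k), c 0 = 0 ∧ b 0 = 0 ∧ q 0 = 0 ∧
      X = ∑ i ∈ Finset.range l, a i • JL k l l p ^ (i + 1) + BL l l p c b q om pi th et := by
  have hcomm : ∀ Y ∈ adj T, JL k l l p * Y = Y * JL k l l p := fun Y hY => hT.cn.comm hA hY
  have ha0 := (LL_const hT hρ hl hA hX).1
  let a : ℕ → k := fun i => if h : i + 1 < l then X (.inl ⟨i + 1, h⟩) (.inl ⟨0, by omega⟩) else 0
  let S : Matrix (IL l l p) (IL l l p) k := ∑ i ∈ Finset.range l, a i • JL k l l p ^ (i + 1)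
  have hS : S ∈ adj T := sum_mem fun i _ => SMulMemClass.smul_mem _ (pow_mem_adj hA i)
  have hXS : X - S ∈ adj T := sub_mem hX hS
  have hc := hcomm _ hXS
  have hSv : S *ᵥ vv 0 = fun x => match x with
      | .inl i => X (.inl i) (.inl ⟨0, by omega⟩)
      | _ => 0 := by
    simp only [S]
    rw [Matrix.sum_mulVec]
    simp only [Matrix.smul_mulVec, JL_pow_vv, zero_add]
    funext x
    rw [Finset.sum_apply]
    rcases x with x | x | x
    · simp only [Pi.smul_apply, vv, smul_eq_mul]
      rcases Nat.eq_zero_or_pos (x : ℕ) with h2 | h2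
      · rw [Finset.sum_eq_zero (fun i _ => by rw [if_neg (by omega), mul_zero])]
        have h3 : x = ⟨0, by omega⟩ := Fin.ext h2
        rw [h3, ha0]
      · rw [Finset.sum_eq_single ((x : ℕ) - 1)]
        · rw [if_pos (by omega), mul_one]
          simp only [a]
          have hx := x.2
          rw [dif_pos (by omega)]
          congr 3
          omega
        · intro b _ hb
          rw [if_neg (by omega), mul_zero]
        · intro h3
          exact absurd (Finset.mem_range.2 (by have := x.2; omega)) h3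
    · simp [vv]
    · simp [vv]
  have h0 : ∀ i, (X - S) (.inl i) (.inl ⟨0, by omega⟩) = 0 := by
    intro i
    have h2 : (S *ᵥ vv 0) (.inl i) = S (.inl i) (.inl ⟨0, by omega⟩) := by
      rw [mulVec_v0 _ (by omega)]
    rw [Matrix.sub_apply, ← h2, hSv]
    simp
  obtain ⟨-, hc0, hb0, hq0⟩ := LL_const hT hρ hl hA hXS
  obtain ⟨c, b, q, om, pi, th, et, h2⟩ := shape_aux' le_rfl (by omega) hc h0 hq0
    fun i j => killPL hT h1 hA hXS i j
  have hc1 : c 0 = 0 := by
    rw [h2] at hc0
    simpa [BL] using hc0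
  have hb1 : b 0 = 0 := by
    rw [h2] at hb0
    simpa [BL] using hb0
  refine ⟨a, c, b, fun i => if i = 0 then 0 else q i, om, pi, th, et, hc1, hb1, if_pos rfl, ?_⟩
  have h3 : BL l l p c b (fun i => if i = 0 then 0 else q i) om pi th et =
      BL l l p c b q om pi th et := by
    ext x y
    rcases x with x | x | x <;> rcases y with y | y | y <;> try rfl
    simp only [BL, Matrix.of_apply]
    split_ifs with h4 h5
    · omega
    · rfl
    · rfl
  rw [h3, ← h2]
  simp only [S]
  abel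

/-- the shape of a maximal bad triple of type `(l, l, 1^p)`, `l ≥ 2` -/
theorem shapeLL [Infinite k] [CharZero k] (hT : MaxR ρ T)
    (hρ : ∀ i, ρ i = (JL k l l p ^ i).rank) (h0 : T 0 = JL k l l p) (hl : 2 ≤ l) :
    ∃ (c b q : ℕ → k) (om pi th et : Fin p → k) (c' b' q' : ℕ → k) (om' pi' th' et' : Fin p → k),
      (c 0 = 0 ∧ b 0 = 0 ∧ q 0 = 0) ∧ (c' 0 = 0 ∧ b' 0 = 0 ∧ q' 0 = 0) ∧
      MaxR ρ ![JL k l l p, BL l l p c b q om pi th et, BL l l p c' b' q' om' pi' th' et'] := by
  have hA : JL k l l p ∈ adj T := by rw [← h0]; exact mem_adj T 0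
  have h1 : ρ 1 ≤ (l - 1) + (l - 1) := by
    rw [hρ, pow_one]
    exact JL_rank
  have hl0 : ρ l = 0 := by
    rw [hρ, JL_pow le_rfl (by omega), rank_zero]
  obtain ⟨a, c, b, q, om, pi, th, et, c0, b0, q0, hX⟩ := LL_one hT h1 hl0 hl hA (mem_adj T 1)
  obtain ⟨a', c', b', q', om', pi', th', et', c0', b0', q0', hX'⟩ :=
    LL_one hT h1 hl0 hl hA (mem_adj T 2)
  refine ⟨c, b, q, om, pi, th, et, c', b', q', om', pi', th', et', ⟨c0, b0, q0⟩, ⟨c0', b0', q0'⟩, ?_⟩
  have hmem : ∀ i, (![JL k l l p, BL l l p c b q om pi th et, BL l l p c' b' q' om' pi' th' et'] :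
      Fin 3 → Matrix (IL l l p) (IL l l p) k) i ∈ adj T := by
    intro i
    fin_cases i
    · exact hA
    · have h2 : BL l l p c b q om pi th et = T 1 -
          ∑ i ∈ Finset.range l, a i • JL k l l p ^ (i + 1) := by rw [hX]; abel
      show BL l l p c b q om pi th et ∈ adj T
      rw [h2]
      exact sub_mem (mem_adj T 1) (sum_mem fun i _ => SMulMemClass.smul_mem _ (pow_mem_adj hA i))
    · have h2 : BL l l p c' b' q' om' pi' th' et' = T 2 -
          ∑ i ∈ Finset.range l, a' i • JL k l l p ^ (i + 1) := by rw [hX']; abel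
      show BL l l p c' b' q' om' pi' th' et' ∈ adj T
      rw [h2]
      exact sub_mem (mem_adj T 2) (sum_mem fun i _ => SMulMemClass.smul_mem _ (pow_mem_adj hA i))
  refine MaxR.change hT (hT.cn.of_adj hmem) fun i => ?_
  have m0 := D8.mem0 (JL k l l p) (BL l l p c b q om pi th et) (BL l l p c' b' q' om' pi' th' et')
  have m1 := D8.mem1 (JL k l l p) (BL l l p c b q om pi th et) (BL l l p c' b' q' om' pi' th' et')
  have m2 := D8.mem2 (JL k l l p) (BL l l p c b q om pi th et) (BL l l p c' b' q' om' pi' th' et')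
  fin_cases i
  · show T 0 ∈ _
    rw [h0]
    exact m0
  · show T 1 ∈ _
    rw [hX]
    exact add_mem (sum_mem fun i _ => SMulMemClass.smul_mem _ (pow_mem_adj m0 i)) m1
  · show T 2 ∈ _
    rw [hX']
    exact add_mem (sum_mem fun i _ => SMulMemClass.smul_mem _ (pow_mem_adj m0 i)) m2

end Pool.Agent.Lib.D13.LL
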