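import Pool.Agent.Lib.D13.LMJ
import Pool.Agent.Lib.D13.AxisCl

/-!
# MP_5dcbc3_ag: the type `(l, m, 1, 1)`, `l > m ≥ 2`, case I, `o` and `pi` independent, `b_0 ≠ 0`:
a planar module with one more axis
-/

namespace Pool.Agent.Lib.D13.LM

open Matrix Pool.Agent.Lib.Q5dc Pool.Agent.Lib.D7

variable {k : Type*} [Field k] {l m : ℕ} {ρ : ℕ → ℕ}

namespace LMAAux

/-- the common kernel of the planar module -/
theorem ker_one (h : m < l) (hm : 2 ≤ m) {b q : ℕ → k} {θ η : k} (hb : b 0 ≠ 0) (hη : η ≠ 0)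
    (v : IL l m 1 → k) (h1 : JL k l m 1 *ᵥ v = 0)
    (h2 : YL l m 1 b q (fun _ => 1) (fun _ => θ) (fun _ => η) *ᵥ v = 0) :
    ∃ c : k, v = c • vv (l - 1) := by
  have e1 : ∀ i : Fin l, (i : ℕ) + 1 < l → v (.inl i) = 0 := by
    intro i hi
    have h3 := congrFun h1 (.inl ⟨i + 1, hi⟩)
    rw [JL_apply_v, dif_pos (by simp)] at h3
    simpa using h3
  have e2 : ∀ i : Fin m, (i : ℕ) + 1 < m → v (.inr (.inl i)) = 0 := by
    intro i hi
    have h3 := congrFun h1 (.inr (.inl ⟨i + 1, hi⟩))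
    rw [JL_apply_u, dif_pos (by simp)] at h3
    simpa using h3
  have e3 : v = v (.inl ⟨l - 1, by omega⟩) • vv (l - 1) +
      v (.inr (.inl ⟨m - 1, by omega⟩)) • uu (m - 1) + pp fun a => v (.inr (.inr a)) := by
    funext x
    rcases x with x | x | x
    · simp only [Pi.add_apply, Pi.smul_apply, vv, uu, pp, smul_eq_mul, mul_zero, add_zero]
      have hx := x.2
      by_cases hx1 : (x : ℕ) = l - 1
      · rw [if_pos hx1, mul_one]
        congr 2
        exact Fin.ext hx1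
      · rw [if_neg hx1, mul_zero]
        exact e1 x (by omega)
    · simp only [Pi.add_apply, Pi.smul_apply, vv, uu, pp, smul_eq_mul, mul_zero, add_zero, zero_add]
      have hx := x.2
      by_cases hx1 : (x : ℕ) = m - 1
      · rw [if_pos hx1, mul_one]
        congr 2
        exact congrArg Sum.inl (Fin.ext hx1)
      · rw [if_neg hx1, mul_zero]
        exact e2 x (by omega)
    · simp [vv, uu, pp]
  obtain ⟨α, hα⟩ : ∃ α, α = v (.inl ⟨l - 1, by omega⟩) := ⟨_, rfl⟩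
  obtain ⟨β, hβ⟩ : ∃ β, β = v (.inr (.inl ⟨m - 1, by omega⟩)) := ⟨_, rfl⟩
  obtain ⟨f, hf⟩ : ∃ f : Fin 1 → k, f = fun a => v (.inr (.inr a)) := ⟨_, rfl⟩
  rw [← hα, ← hβ, ← hf] at e3
  rw [e3, mulVec_add, mulVec_add, mulVec_smul, mulVec_smul, YL_vv_top _ _ _ _ _ h hm,
    YL_uu_top _ _ _ _ _ h hm, YL_pp _ _ _ _ _ h hm] at h2
  have h4 := congrFun h2 (.inr (.inl ⟨m - 1, by omega⟩))
  have h5 := congrFun h2 (.inl ⟨l - 1, by omega⟩)
  simp [vv, uu, dotProduct, hη] at h4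
  simp [vv, uu, dotProduct, h4, hb] at h5
  refine ⟨α, ?_⟩
  have hf0 : f = 0 := by
    funext i
    fin_cases i
    exact h4
  rw [e3, h5, hf0, pp_zero, zero_smul, add_zero, add_zero]

theorem dot_vv {p : ℕ} (v : IL l m p → k) (j : Fin l) : v ⬝ᵥ vv (j : ℕ) = v (.inl j) := by
  simp [dotProduct, Fintype.sum_sum_type, vv, Fin.val_inj]

theorem dot_uu {p : ℕ} (v : IL l m p → k) (j : Fin m) : v ⬝ᵥ uu (j : ℕ) = v (.inr (.inl j)) := by
  simp [dotProduct, Fintype.sum_sum_type, uu, Fin.val_inj]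

/-- the common cokernel of the planar module -/
theorem cok_one (h : m < l) (hm : 2 ≤ m) {b q : ℕ → k} {θ η : k}
    (v : IL l m 1 → k) (h1 : v ᵥ* JL k l m 1 = 0)
    (h2 : v ᵥ* YL l m 1 b q (fun _ => 1) (fun _ => θ) (fun _ => η) = 0) :
    ∃ c : k, v = c • vv 0 := by
  have e1 : ∀ j : ℕ, 0 < j → v ⬝ᵥ vv j = 0 := by
    intro j hj
    obtain ⟨i, rfl⟩ : ∃ i, j = i + 1 := ⟨j - 1, by omega⟩
    rw [← JL_vv, dotProduct_mulVec, h1, zero_dotProduct]
  have e2 : ∀ j : ℕ, v ⬝ᵥ uu j = 0 := by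
    intro j
    rw [← YL_vv b q (fun _ => 1) (fun _ => θ) (fun _ => η) h hm j, dotProduct_mulVec, h2,
      zero_dotProduct]
  have e3 : v ⬝ᵥ pp (fun _ => 1) = 0 := by
    have h3 : v ⬝ᵥ (YL l m 1 b q (fun _ => 1) (fun _ => θ) (fun _ => η) *ᵥ uu 0) = 0 := by
      rw [dotProduct_mulVec, h2, zero_dotProduct]
    rw [YL_uu _ _ _ _ _ h hm, if_pos rfl, dotProduct_add, dotProduct_add, dotProduct_sum,
      dotProduct_sum, Finset.sum_eq_zero, Finset.sum_eq_zero, zero_add, zero_add] at h3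
    · exact h3
    · intro a _
      rw [dotProduct_smul, e2, smul_zero]
    · intro a _
      rw [dotProduct_smul, e1 _ (by omega), smul_zero]
  refine ⟨v (.inl ⟨0, by omega⟩), ?_⟩
  funext x
  rcases x with x | x | x
  · simp only [Pi.smul_apply, vv, smul_eq_mul]
    by_cases hx : (x : ℕ) = 0
    · rw [if_pos hx, mul_one]
      congr 2
      exact Fin.ext hx
    · rw [if_neg hx, mul_zero, ← dot_vv v]
      exact e1 _ (by omega)
  · rw [← dot_uu v, e2]
    simp [vv]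
  · have h4 : v ⬝ᵥ pp (fun _ => 1) = v (.inr (.inr x)) := by
      simp [dotProduct, Fintype.sum_sum_type, pp]
      congr 2
      exact congrArg Sum.inr (Subsingleton.elim _ _)
    rw [← h4, e3]
    simp [vv]

/-- the axis as the second element of `P` -/
def eAx (l m : ℕ) : IL l m 1 ⊕ Unit ≃ IL l m 2 where
  toFun x := match x with
    | .inl (.inl i) => .inl i
    | .inl (.inr (.inl i)) => .inr (.inl i)
    | .inl (.inr (.inr _)) => .inr (.inr 0)
    | .inr _ => .inr (.inr 1)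
  invFun x := match x with
    | .inl i => .inl (.inl i)
    | .inr (.inl i) => .inl (.inr (.inl i))
    | .inr (.inr a) => if a = 0 then .inl (.inr (.inr 0)) else .inr ()
  left_inv x := by
    rcases x with (x | x | x) | x
    · rfl
    · rfl
    · have : x = 0 := Subsingleton.elim _ _
      subst this
      rfl
    · rfl
  right_inv x := by
    rcases x with x | x | x
    · rfl
    · rfl
    · fin_cases x <;> rfl

theorem cl_ax [IsAlgClosed k] [CharZero k] (h : m < l) (hm : 2 ≤ m)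
    (ih : ∀ T : Fin 3 → Matrix (IL l m 1) (IL l m 1) k, CN T → Cl T)
    {b q : ℕ → k} {θ η : k} (hb : b 0 ≠ 0) (hη : η ≠ 0) (γ : k) :
    Cl ![JL k l m 2, YL l m 2 b q ![1, 0] ![θ, 0] ![η, 0], ZL l m 2 0 0 ![0, 1] ![0, γ] 0] := by
  have hcn : CN ![JL k l m 1, YL l m 1 b q (fun _ => 1) (fun _ => θ) (fun _ => η), 0] := by
    refine D8.cn3 (BL_comm _ _ _ _ _ _ _ h hm) ?_ ?_ ⟨l, JL_pow h.le (by omega)⟩
      (BL_nil _ _ _ _ _ _ _ h hm) ⟨1, by simp⟩
    · rw [mul_zero, zero_mul]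
    · rw [mul_zero, zero_mul]
  have hl1 : (vv (l - 1) : IL l m 1 → k) ≠ 0 := by
    intro h1
    have h2 := congrFun h1 (.inl ⟨l - 1, by omega⟩)
    simp [vv] at h2
  have hl2 : (vv 0 : IL l m 1 → k) ≠ 0 := by
    intro h1
    have h2 := congrFun h1 (.inl ⟨0, by omega⟩)
    simp [vv] at h2
  have h1 := AxC.cl_axis (by
      simp only [Fintype.card_sum, Fintype.card_fin]
      omega) (ih _ hcn) hl1 hl2
    (fun v h1 h2 _ => ker_one h hm hb hη v h1 h2) (fun v h1 h2 _ => cok_one h hm v h1 h2) 1 γ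
  have h2 := Cl.mapEquiv (Matrix.reindexAlgEquiv k k (eAx l m)) (Fintype.card_congr (eAx l m)) h1
  have h3 : (fun i => (Matrix.reindexAlgEquiv k k (eAx l m)) (AxC.axis (JL k l m 1)
      (YL l m 1 b q (fun _ => 1) (fun _ => θ) (fun _ => η)) 0 (γ • vv (l - 1))
      ((1 : k) • vv 0) i)) = ![JL k l m 2, YL l m 2 b q ![1, 0] ![θ, 0] ![η, 0],
      ZL l m 2 0 0 ![0, 1] ![0, γ] 0] := by
    funext i
    fin_cases i
    · ext x y
      rcases x with x | x | x <;> rcases y with y | y | y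
      all_goals first | rfl | (fin_cases x <;> fin_cases y <;> rfl) | (fin_cases x <;> rfl) |
        (fin_cases y <;> rfl)
    · ext x y
      rcases x with x | x | x <;> rcases y with y | y | y
      · rfl
      · rfl
      · fin_cases y
        · rfl
        · simp [AxC.axis, eAx, YL, BL]
      · rfl
      · rfl
      · fin_cases y
        · rfl
        · simp [AxC.axis, eAx, YL, BL]
      · fin_cases x
        · rfl
        · simp [AxC.axis, eAx, YL, BL]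
      · fin_cases x
        · rfl
        · simp [AxC.axis, eAx, YL, BL]
      · fin_cases x <;> fin_cases y <;> rfl
    · ext x y
      rcases x with x | x | x <;> rcases y with y | y | y
      · rfl
      · simp [AxC.axis, eAx, ZL, BL]
      · fin_cases y
        · simp [AxC.axis, eAx, ZL, BL]
        · have hx := x.2
          by_cases hx1 : (x : ℕ) + 1 = l
          · simp [AxC.axis, eAx, ZL, BL, vv, hx1, show (x : ℕ) = l - 1 by omega]
            omega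
          · simp [AxC.axis, eAx, ZL, BL, vv, hx1, show ¬ (x : ℕ) = l - 1 by omega]
      · simp [AxC.axis, eAx, ZL, BL]
      · simp [AxC.axis, eAx, ZL, BL]
      · fin_cases y <;> simp [AxC.axis, eAx, ZL, BL, vv]
      · fin_cases x <;> simp [AxC.axis, eAx, ZL, BL, vv]
      · fin_cases x <;> simp [AxC.axis, eAx, ZL, BL, vv]
      · fin_cases x <;> fin_cases y <;> simp [AxC.axis, eAx, ZL, BL, vv]
  rw [h3] at h2
  exact h2

/-- `Y^2 - x^(l-m) b(x) - q(x) Y` -/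
def PI (l m p : ℕ) (b q : ℕ → k) (pi th et : Fin p → k) : Matrix (IL l m p) (IL l m p) k :=
  YL l m p b q pi th et * YL l m p b q pi th et -
    ∑ a ∈ Finset.range m, b a • JL k l m p ^ (l - m - 1 + a + 1) -
    ∑ a ∈ Finset.range m, (if a = 0 then 0 else q a) • (JL k l m p ^ a * YL l m p b q pi th et)

theorem PI_mem {p : ℕ} (b q : ℕ → k) (pi th et : Fin p → k)
    (Z : Matrix (IL l m p) (IL l m p) k) :
    PI l m p b q pi th et ∈ adj ![JL k l m p, YL l m p b q pi th et, Z] := by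
  have n0 := D8.mem0 (JL k l m p) (YL l m p b q pi th et) Z
  have n1 := D8.mem1 (JL k l m p) (YL l m p b q pi th et) Z
  refine sub_mem (sub_mem (mul_mem n1 n1) (sum_mem fun a _ => SMulMemClass.smul_mem _
    (pow_mem_adj n0 _))) (sum_mem fun a _ => SMulMemClass.smul_mem _ ?_)
  cases a with
  | zero => simpa using n1
  | succ a => exact mul_mem (pow_mem_adj n0 a) n1

theorem PI_vv (h : m < l) (hm : 2 ≤ m) {p : ℕ} (b q : ℕ → k) (pi th et : Fin p → k) :
    PI l m p b q pi th et *ᵥ vv 0 = pp pi := by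
  have e1 : (∑ a ∈ Finset.range m, b a • JL k l m p ^ (l - m - 1 + a + 1)) *ᵥ vv 0 =
      ∑ a ∈ Finset.range m, b a • (vv (l - m + 0 + a) : IL l m p → k) := by
    rw [Matrix.sum_mulVec]
    refine Finset.sum_congr rfl fun a _ => ?_
    rw [smul_mulVec, JL_pow_vv, show 0 + (l - m - 1 + a + 1) = l - m + 0 + a by omega]
  have e2 : (∑ a ∈ Finset.range m, (if a = 0 then 0 else q a) •
      (JL k l m p ^ a * YL l m p b q pi th et)) *ᵥ vv 0 =
      ∑ a ∈ Finset.range m, (if a = 0 then 0 else q a) • (uu (0 + a) : IL l m p → k) := by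
    rw [Matrix.sum_mulVec]
    refine Finset.sum_congr rfl fun a _ => ?_
    rw [smul_mulVec, ← mulVec_mulVec, YL_vv _ _ _ _ _ h hm, JL_pow_uu]
  rw [PI, sub_mulVec, sub_mulVec, e1, e2, ← mulVec_mulVec, YL_vv _ _ _ _ _ h hm,
    YL_uu _ _ _ _ _ h hm, if_pos rfl]
  abel

theorem PI_pp (h : m < l) (hm : 2 ≤ m) {p : ℕ} (b q : ℕ → k) (pi th et f : Fin p → k) :
    PI l m p b q pi th et *ᵥ pp f = ((et ⬝ᵥ f) * b 0) • vv (l - 1) := by
  have e1 : (∑ a ∈ Finset.range m, b a • JL k l m p ^ (l - m - 1 + a + 1)) *ᵥ pp f = 0 := by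
    rw [Matrix.sum_mulVec]
    refine Finset.sum_eq_zero fun a _ => ?_
    rw [smul_mulVec, JL_pow_pp, smul_zero]
  have e2 : (∑ a ∈ Finset.range m, (if a = 0 then 0 else q a) •
      (JL k l m p ^ a * YL l m p b q pi th et)) *ᵥ pp f = 0 := by
    rw [Matrix.sum_mulVec]
    refine Finset.sum_eq_zero fun a _ => ?_
    by_cases ha : a = 0
    · rw [if_pos ha, zero_smul, zero_mulVec]
    · rw [smul_mulVec, ← mulVec_mulVec, YL_pp _ _ _ _ _ h hm, mulVec_add, mulVec_smul, mulVec_smul,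
        JL_pow_vv, JL_pow_uu, vv_ge (by omega), uu_ge (by omega)]
      simp
  rw [PI, sub_mulVec, sub_mulVec, e1, e2, ← mulVec_mulVec, YL_pp _ _ _ _ _ h hm, mulVec_add,
    mulVec_smul, mulVec_smul, YL_vv_top _ _ _ _ _ h hm, YL_uu_top _ _ _ _ _ h hm, smul_smul]
  simp

/-- the base change -/
def G2 (l m : ℕ) (π ω : Fin 2 → k) (c1 : k) : Matrix (IL l m 2) (IL l m 2) k :=
  Matrix.of fun i j => match i, j with
    | .inl i, .inl j => if i = j then 1 else 0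
    | .inr (.inl i), .inr (.inl j) => if i = j then 1 else 0
    | .inr (.inr a), .inr (.inr b) => if b = 0 then π a else ω a
    | .inr (.inl i), .inr (.inr b) => if (i : ℕ) + 1 = m ∧ b = 1 then c1 else 0
    | _, _ => 0

theorem G2_vv (π ω : Fin 2 → k) (c1 : k) (j : ℕ) : G2 l m π ω c1 *ᵥ vv j = vv j := by
  rcases Nat.lt_or_ge j l with h | h
  · have h1 := mulVec_vv (G2 l m π ω c1) ⟨j, h⟩
    rw [show ((⟨j, h⟩ : Fin l) : ℕ) = j from rfl] at h1
    rw [h1]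
    funext x
    rcases x with x | x | x
    · simp only [G2, vv, Matrix.of_apply, Fin.ext_iff]
    · rfl
    · rfl
  · rw [vv_ge h, mulVec_zero]

theorem G2_uu (π ω : Fin 2 → k) (c1 : k) (j : ℕ) : G2 l m π ω c1 *ᵥ uu j = uu j := by
  rcases Nat.lt_or_ge j m with h | h
  · have h1 := mulVec_uu (G2 l m π ω c1) ⟨j, h⟩
    rw [show ((⟨j, h⟩ : Fin m) : ℕ) = j from rfl] at h1
    rw [h1]
    funext x
    rcases x with x | x | x
    · rfl
    · simp only [G2, uu, Matrix.of_apply, Fin.ext_iff]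
    · rfl
  · rw [uu_ge h, mulVec_zero]

theorem G2_pp (π ω : Fin 2 → k) (c1 : k) (hm : 2 ≤ m) (f : Fin 2 → k) :
    G2 l m π ω c1 *ᵥ pp f = pp (f 0 • π + f 1 • ω) + (f 1 * c1) • uu (m - 1) := by
  rw [mulVec_pp]
  funext x
  rcases x with x | x | x
  · simp [G2, pp, uu, Fin.sum_univ_two]
  · simp only [G2, pp, uu, Fin.sum_univ_two, Matrix.of_apply, Pi.add_apply, Pi.smul_apply,
      smul_eq_mul]
    by_cases hx : (x : ℕ) + 1 = m
    · have e1 : (x : ℕ) = m - 1 := by omega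
      simp only [hx, true_and]
      rw [if_neg (by decide), if_pos trivial, if_pos e1]
      ring
    · have e1 : ¬ (x : ℕ) = m - 1 := by omega
      simp only [hx, false_and, if_false]
      rw [if_neg e1]
      ring
  · simp [G2, pp, uu, Fin.sum_univ_two]
    ring

theorem G2_det {π ω : Fin 2 → k} (c1 : k) (hind : π 0 * ω 1 - π 1 * ω 0 ≠ 0) :
    IsUnit (G2 l m π ω c1).det := by
  rw [isUnit_iff_ne_zero]
  intro h0
  obtain ⟨w, hw, h1⟩ := Matrix.exists_mulVec_eq_zero_iff.2 h0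
  apply hw
  have e1 : ∀ i, w (.inl i) = 0 := by
    intro i
    have h2 := congrFun h1 (.inl i)
    simpa [Matrix.mulVec, dotProduct, Fintype.sum_sum_type, G2] using h2
  have e3 : ∀ a, π a * w (.inr (.inr 0)) + ω a * w (.inr (.inr 1)) = 0 := by
    intro a
    have h2 := congrFun h1 (.inr (.inr a))
    simpa [Matrix.mulVec, dotProduct, Fintype.sum_sum_type, G2, Fin.sum_univ_two] using h2
  have e4 : w (.inr (.inr 0)) = 0 := by
    have h2 : (π 0 * ω 1 - π 1 * ω 0) * w (.inr (.inr 0)) = 0 := by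
      linear_combination ω 1 * e3 0 - ω 0 * e3 1
    exact (mul_eq_zero.1 h2).resolve_left hind
  have e5 : w (.inr (.inr 1)) = 0 := by
    have h2 : (π 0 * ω 1 - π 1 * ω 0) * w (.inr (.inr 1)) = 0 := by
      linear_combination π 0 * e3 1 - π 1 * e3 0
    exact (mul_eq_zero.1 h2).resolve_left hind
  have e2 : ∀ i, w (.inr (.inl i)) = 0 := by
    intro i
    have h2 := congrFun h1 (.inr (.inl i))
    simpa [Matrix.mulVec, dotProduct, Fintype.sum_sum_type, G2, Fin.sum_univ_two, e4, e5] using h2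
  funext x
  rcases x with x | x | x
  · exact e1 x
  · exact e2 x
  · fin_cases x
    · exact e4
    · exact e5

end LMAAux

open LMAAux

/-- case I, `b_0 ≠ 0`, `o` and `pi` independent, `et pi ≠ 0` -/
theorem ax_core [IsAlgClosed k] [CharZero k] (h : m < l) (hm : 2 ≤ m)
    (ih : ∀ T : Fin 3 → Matrix (IL l m 1) (IL l m 1) k, CN T → Cl T)
    {b q : ℕ → k} {pi th et o th' : Fin 2 → k}
    (hT : MaxR ρ ![JL k l m 2, YL l m 2 b q pi th et, ZL l m 2 (th ⬝ᵥ o) (et ⬝ᵥ o) o th' 0])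
    (hb : b 0 ≠ 0) (h1 : th' ⬝ᵥ pi = (et ⬝ᵥ o) * b 0) (hind : o 0 * pi 1 ≠ o 1 * pi 0)
    (hη : et ⬝ᵥ pi ≠ 0) : False := by
  obtain ⟨c3, hc3⟩ : ∃ c3, c3 = -(et ⬝ᵥ o) / (et ⬝ᵥ pi) := ⟨_, rfl⟩
  obtain ⟨c1, hc1⟩ : ∃ c1, c1 = -((th ⬝ᵥ o) + c3 * (th ⬝ᵥ pi)) / b 0 := ⟨_, rfl⟩
  have hc3' : (et ⬝ᵥ o) + c3 * (et ⬝ᵥ pi) = 0 := by rw [hc3]; field_simp; ring
  have hc1' : (th ⬝ᵥ o) + c3 * (th ⬝ᵥ pi) + c1 * b 0 = 0 := by rw [hc1]; field_simp; ring
  set Y := YL l m 2 b q pi th et with hY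
  set Z := ZL l m 2 (th ⬝ᵥ o) (et ⬝ᵥ o) o th' 0 with hZ
  obtain ⟨S, hS⟩ : ∃ S, S = c3 • PI l m 2 b q pi th et + c1 • (JL k l m 2 ^ (m - 1) * Y) := ⟨_, rfl⟩
  have hSmem : ∀ Z', S ∈ adj ![JL k l m 2, Y, Z'] := by
    intro Z'
    rw [hS]
    refine add_mem (SMulMemClass.smul_mem _ (PI_mem _ _ _ _ _ _)) (SMulMemClass.smul_mem _ ?_)
    obtain ⟨m', rfl⟩ : ∃ m', m = m' + 2 := ⟨m - 2, by omega⟩
    exact mul_mem (pow_mem_adj (D8.mem0 _ _ _) _) (D8.mem1 _ _ _)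
  have hN : MaxR ρ ![JL k l m 2, Y, Z + S] := by
    refine D8.MaxR.change3 hT (D8.mem1 _ _ _) (add_mem (D8.mem2 _ _ _) (hSmem _))
      (D8.mem1 _ _ _) ?_
    have h5 := sub_mem (D8.mem2 (JL k l m 2) Y (Z + S)) (hSmem (Z + S))
    rwa [add_sub_cancel_right] at h5
  have hv0 : (Z + S) *ᵥ vv 0 = pp (o + c3 • pi) + c1 • uu (m - 1) := by
    rw [hS, add_mulVec, add_mulVec, smul_mulVec, smul_mulVec, PI_vv h hm, ← mulVec_mulVec, hY,
      YL_vv _ _ _ _ _ h hm, JL_pow_uu, hZ, ZL_vv _ _ _ _ _ h hm, if_pos rfl, pp_add, pp_smul,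
      zero_add]
    abel
  have hJZ : JL k l m 2 * (Z + S) = (Z + S) * JL k l m 2 := hN.cn.1 0 2
  have hYZ : Y * (Z + S) = (Z + S) * Y := hN.cn.1 1 2
  have hu0 : (Z + S) *ᵥ uu 0 = 0 := by
    rw [← YL_vv b q pi th et h hm 0, ← hY, mulVec_mulVec, ← hYZ, ← mulVec_mulVec, hv0, mulVec_add,
      mulVec_smul, hY, YL_pp _ _ _ _ _ h hm, YL_uu_top _ _ _ _ _ h hm, dotProduct_add,
      dotProduct_add, dotProduct_smul, dotProduct_smul, smul_eq_mul, smul_eq_mul, hc3', zero_smul,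
      add_zero, smul_smul, ← add_smul, hc1', zero_smul]
  have hp0 : ∀ f, (Z + S) *ᵥ pp f = ((th' ⬝ᵥ f) + c3 * ((et ⬝ᵥ f) * b 0)) • vv (l - 1) := by
    intro f
    have e1 : (JL k l m 2 ^ (m - 1) * Y) *ᵥ pp f = 0 := by
      rw [← mulVec_mulVec, hY, YL_pp _ _ _ _ _ h hm, mulVec_add, mulVec_smul, mulVec_smul,
        JL_pow_vv, JL_pow_uu, vv_ge (by omega), uu_ge (by omega)]
      simp
    rw [hS, add_mulVec, add_mulVec, smul_mulVec, smul_mulVec, e1, PI_pp h hm, hZ,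
      ZL_pp _ _ _ _ _ h hm, zero_dotProduct]
    module
  have hum : (Z + S) *ᵥ uu (m - 1) = 0 := by
    rw [comm_uu hJZ, hu0, mulVec_zero]
  have hvm : (Z + S) *ᵥ vv (l - 1) = 0 := by
    rw [comm_vv hJZ, hv0, mulVec_add, mulVec_smul, JL_pow_uu, uu_ge (by omega), smul_zero,
      add_zero]
    obtain ⟨l', rfl⟩ : ∃ l', l = l' + 2 := ⟨l - 2, by omega⟩
    exact JL_pow_pp _ _
  obtain ⟨γ, hγ⟩ : ∃ γ, γ = (th' ⬝ᵥ (o + c3 • pi)) + c3 * ((et ⬝ᵥ (o + c3 • pi)) * b 0) := ⟨_, rfl⟩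
  have hcl := cl_ax (l := l) (m := m) h hm ih (b := b) (q := q) (θ := th ⬝ᵥ pi) (η := et ⬝ᵥ pi)
    hb hη γ
  obtain ⟨G, hG⟩ : ∃ G, G = G2 l m pi (o + c3 • pi) c1 := ⟨_, rfl⟩
  have hGd : IsUnit G.det := by
    rw [hG]
    refine G2_det c1 ?_
    intro h5
    apply hind
    simp only [Pi.add_apply, Pi.smul_apply, smul_eq_mul] at h5
    linear_combination -h5
  have g1 : G⁻¹ * G = 1 := Matrix.nonsing_inv_mul G hGd
  have g2 : G * G⁻¹ = 1 := Matrix.mul_nonsing_inv G hGd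
  have hcl2 := hcl.conj G G⁻¹ g2 g1
  refine hN.ncl ?_
  have key : ∀ A B : Matrix (IL l m 2) (IL l m 2) k, A * G = G * B → G * B * G⁻¹ = A := by
    intro A B hAB
    rw [← hAB, mul_assoc, g2, mul_one]
  have hGv : ∀ j, G *ᵥ vv j = vv j := fun j => by rw [hG]; exact G2_vv _ _ _ j
  have hGu : ∀ j, G *ᵥ uu j = uu j := fun j => by rw [hG]; exact G2_uu _ _ _ j
  have hGp : ∀ f, G *ᵥ pp f = pp (f 0 • pi + f 1 • (o + c3 • pi)) + (f 1 * c1) • uu (m - 1) :=
    fun f => by rw [hG]; exact G2_pp _ _ _ hm f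
  have eJ : G * JL k l m 2 * G⁻¹ = JL k l m 2 := by
    refine key _ _ (ext_vup (fun j _ => ?_) (fun j _ => ?_) fun f => ?_)
    · rw [← mulVec_mulVec, ← mulVec_mulVec, hGv, JL_vv, hGv]
    · rw [← mulVec_mulVec, ← mulVec_mulVec, hGu, JL_uu, hGu]
    · rw [← mulVec_mulVec, ← mulVec_mulVec, hGp, JL_pp, mulVec_zero, mulVec_add, JL_pp,
        mulVec_smul, JL_uu, uu_ge (by omega)]
      simp
  have eY : G * YL l m 2 b q ![1, 0] ![th ⬝ᵥ pi, 0] ![et ⬝ᵥ pi, 0] * G⁻¹ = Y := by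
    refine key _ _ (ext_vup (fun j _ => ?_) (fun j _ => ?_) fun f => ?_)
    · rw [← mulVec_mulVec, ← mulVec_mulVec, hGv, hY, YL_vv _ _ _ _ _ h hm,
        YL_vv _ _ _ _ _ h hm, hGu]
    · rw [← mulVec_mulVec, ← mulVec_mulVec, hGu, hY, YL_uu _ _ _ _ _ h hm,
        YL_uu _ _ _ _ _ h hm, mulVec_add, mulVec_add, Matrix.mulVec_sum, Matrix.mulVec_sum]
      simp only [mulVec_smul, hGv, hGu]
      congr 1
      split_ifs
      · rw [hGp]
        simp
      · rw [mulVec_zero]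
    · rw [← mulVec_mulVec, ← mulVec_mulVec, hGp, hY, YL_pp _ _ _ _ _ h hm, mulVec_add,
        mulVec_add, mulVec_smul, mulVec_smul, mulVec_smul, hGv, hGu, YL_pp _ _ _ _ _ h hm,
        YL_uu_top _ _ _ _ _ h hm]
      have e1 : (![th ⬝ᵥ pi, 0] : Fin 2 → k) ⬝ᵥ f = (th ⬝ᵥ pi) * f 0 := by
        simp [dotProduct, Fin.sum_univ_two]
      have e2 : (![et ⬝ᵥ pi, 0] : Fin 2 → k) ⬝ᵥ f = (et ⬝ᵥ pi) * f 0 := by
        simp [dotProduct, Fin.sum_univ_two]
      rw [e1, e2, dotProduct_add, dotProduct_add, dotProduct_smul, dotProduct_smul,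
        dotProduct_smul, dotProduct_smul, dotProduct_add, dotProduct_add, dotProduct_smul,
        dotProduct_smul]
      simp only [smul_eq_mul]
      rw [hc3', mul_zero, add_zero]
      have e3 : c1 * b 0 = -((th ⬝ᵥ o) + c3 * (th ⬝ᵥ pi)) := by linear_combination hc1'
      rw [smul_smul, mul_assoc (f 1) c1 (b 0), e3]
      module
  have eZ : G * ZL l m 2 0 0 ![0, 1] ![0, γ] 0 * G⁻¹ = Z + S := by
    have hJG : JL k l m 2 * G = G * JL k l m 2 := by
      have := congrArg (fun M => M * G) eJ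
      simp only [mul_assoc, g1, mul_one] at this
      exact this.symm
    have hJB : JL k l m 2 * ZL l m 2 0 0 ![0, 1] ![0, γ] 0 =
        ZL l m 2 0 0 ![0, 1] ![0, γ] 0 * JL k l m 2 := BL_comm _ _ _ _ _ _ _ h hm
    have hJ1 : JL k l m 2 * ((Z + S) * G) = ((Z + S) * G) * JL k l m 2 := by
      rw [← mul_assoc, hJZ, mul_assoc, hJG, mul_assoc]
    have hJ2 : JL k l m 2 * (G * ZL l m 2 0 0 ![0, 1] ![0, γ] 0) =
        (G * ZL l m 2 0 0 ![0, 1] ![0, γ] 0) * JL k l m 2 := by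
      rw [← mul_assoc, hJG, mul_assoc, hJB, mul_assoc]
    refine key _ _ (ext_vup (fun j _ => ?_) (fun j _ => ?_) fun f => ?_)
    · rw [comm_vv hJ1, comm_vv hJ2, ← mulVec_mulVec, ← mulVec_mulVec, hGv, hv0,
        ZL_vv _ _ _ _ _ h hm, if_pos rfl, hGp]
      simp
    · rw [comm_uu hJ1, comm_uu hJ2, ← mulVec_mulVec, ← mulVec_mulVec, hGu, hu0,
        ZL_uu _ _ _ _ _ h hm, if_pos rfl]
      simp
    · rw [← mulVec_mulVec, ← mulVec_mulVec, hGp, mulVec_add, mulVec_smul, hum, hp0,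
        ZL_pp _ _ _ _ _ h hm, mulVec_add, mulVec_smul, hGv]
      have e1 : (![0, γ] : Fin 2 → k) ⬝ᵥ f = γ * f 1 := by
        simp [dotProduct, Fin.sum_univ_two]
      have e2 : (th' ⬝ᵥ (f 0 • pi + f 1 • (o + c3 • pi)) +
          c3 * (et ⬝ᵥ (f 0 • pi + f 1 • (o + c3 • pi)) * b 0)) = γ * f 1 := by
        rw [hγ, dotProduct_add, dotProduct_add, dotProduct_smul, dotProduct_smul,
          dotProduct_smul, dotProduct_smul, h1]
        simp only [smul_eq_mul]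
        linear_combination (f 0 * b 0) * hc3'
      rw [e1, e2]
      simp
  have e : (fun i => G * (![JL k l m 2, YL l m 2 b q ![1, 0] ![th ⬝ᵥ pi, 0] ![et ⬝ᵥ pi, 0],
      ZL l m 2 0 0 ![0, 1] ![0, γ] 0] : Fin 3 → Matrix (IL l m 2) (IL l m 2) k) i * G⁻¹) =
      ![JL k l m 2, Y, Z + S] := by
    funext i
    fin_cases i
    · exact eJ
    · exact eY
    · exact eZ
  rw [e] at hcl2
  exact hcl2

/-- case I, `b_0 ≠ 0`, `o` and `pi` independent -/
theorem ax_false [IsAlgClosed k] [CharZero k] (h : m < l) (hm : 2 ≤ m)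
    (ih : ∀ T : Fin 3 → Matrix (IL l m 1) (IL l m 1) k, CN T → Cl T)
    {b q : ℕ → k} {pi th et o th' et' : Fin 2 → k}
    (hT : MaxR ρ ![JL k l m 2, YL l m 2 b q pi th et, ZL l m 2 (th ⬝ᵥ o) (et ⬝ᵥ o) o th' et'])
    (hb : b 0 ≠ 0) (h1 : th' ⬝ᵥ pi = (et ⬝ᵥ o) * b 0) (h3 : b 0 = 0 ∨ et' = 0)
    (hind : o 0 * pi 1 ≠ o 1 * pi 0) : False := by
  have he' : et' = 0 := h3.resolve_left hb
  subst he'
  obtain ⟨d, hd⟩ : ∃ d, d = o 0 * pi 1 - o 1 * pi 0 := ⟨_, rfl⟩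
  have hd0 : d ≠ 0 := by rw [hd]; exact sub_ne_zero.2 hind
  obtain ⟨lam, hlam⟩ : ∃ lam : Fin 2 → k, lam = ![-o 1 / d, o 0 / d] := ⟨_, rfl⟩
  have l1 : lam ⬝ᵥ o = 0 := by
    rw [hlam]
    simp [dotProduct, Fin.sum_univ_two]
    field_simp
    ring
  have l2 : lam ⬝ᵥ pi = 1 := by
    rw [hlam]
    simp [dotProduct, Fin.sum_univ_two]
    field_simp
    rw [hd]
    ring
  obtain ⟨s, hs, h4⟩ := nf_move h hm hT 0 0 0 lam 0 0 (fun s => by
      rw [smul_zero, add_zero, smul_zero, add_zero, add_dotProduct, smul_dotProduct, l1, smul_zero,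
        add_zero, h1]) (fun s => by simp) (fun s => Or.inr (by simp))
    (Set.finite_singleton (-(et ⬝ᵥ pi)))
  simp only [smul_zero, add_zero] at h4
  refine ax_core h hm ih h4 hb ?_ hind ?_
  · rw [add_dotProduct, smul_dotProduct, l1, smul_zero, add_zero, h1]
  · rw [add_dotProduct, smul_dotProduct, l2, smul_eq_mul, mul_one]
    intro h5
    apply hs
    rw [Set.mem_singleton_iff]
    linear_combination h5

end Pool.Agent.Lib.D13.LM
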