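import Pool.Agent.Lib.D13.LMJ

/-!
# MP_5dcbc3_ag: the type `(l, m, 1, 1)`, `l > m ≥ 3`, case I, `o` and `pi` linearly dependent
-/

namespace Pool.Agent.Lib.D13.LM

open Matrix Pool.Agent.Lib.Q5dc Pool.Agent.Lib.D7

variable {k : Type*} [Field k] {l m : ℕ} {ρ : ℕ → ℕ}

namespace LMKAux

theorem exists_perp (o pi : Fin 2 → k) (h : o 0 * pi 1 = o 1 * pi 0) :
    ∃ f : Fin 2 → k, f ≠ 0 ∧ f ⬝ᵥ o = 0 ∧ f ⬝ᵥ pi = 0 := by
  have key : ∀ v w : Fin 2 → k, v ≠ 0 → v 0 * w 1 = v 1 * w 0 →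
      ∃ f : Fin 2 → k, f ≠ 0 ∧ f ⬝ᵥ v = 0 ∧ f ⬝ᵥ w = 0 := by
    intro v w hv hvw
    refine ⟨![-v 1, v 0], ?_, ?_, ?_⟩
    · intro h0
      apply hv
      have h1 := congrFun h0 0
      have h2 := congrFun h0 1
      simp at h1 h2
      funext i
      fin_cases i
      · exact h2
      · exact h1
    · simp [dotProduct, Fin.sum_univ_two]
      ring
    · simp [dotProduct, Fin.sum_univ_two]
      linear_combination hvw
  by_cases ho : o = 0
  · by_cases hp : pi = 0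
    · refine ⟨![1, 0], ?_, ?_, ?_⟩
      · intro h0
        have h1 := congrFun h0 0
        simp at h1
      · rw [ho, dotProduct_zero]
      · rw [hp, dotProduct_zero]
    · obtain ⟨f, h1, h2, h3⟩ := key pi o hp (by rw [ho]; simp)
      exact ⟨f, h1, h3, h2⟩
  · exact key o pi ho h

theorem exists_ne {v : Fin 2 → k} (hv : v ≠ 0) : ∃ e : Fin 2 → k, e ⬝ᵥ v = 1 := by
  by_cases h : v 0 = 0
  · have h1 : v 1 ≠ 0 := by
      intro h1
      apply hv
      funext i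
      fin_cases i
      · exact h
      · exact h1
    refine ⟨![0, (v 1)⁻¹], ?_⟩
    simp [dotProduct, Fin.sum_univ_two, h1]
  · refine ⟨![(v 0)⁻¹, 0], ?_⟩
    simp [dotProduct, Fin.sum_univ_two, h]

theorem perp_span {f v : Fin 2 → k} (hf : f ≠ 0) (h : f ⬝ᵥ v = 0) :
    ∃ c : k, v = c • ![-f 1, f 0] := by
  have h' : f 0 * v 0 + f 1 * v 1 = 0 := by simpa [dotProduct, Fin.sum_univ_two] using h
  by_cases h0 : f 0 = 0
  · have h1 : f 1 ≠ 0 := by
      intro h1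
      apply hf
      funext i
      fin_cases i
      · exact h0
      · exact h1
    have h2 : v 1 = 0 := by
      rw [h0, zero_mul, zero_add] at h'
      exact (mul_eq_zero.1 h').resolve_left h1
    refine ⟨-(v 0 / f 1), ?_⟩
    funext i
    fin_cases i
    · simp
      field_simp
    · simp [h0, h2]
  · refine ⟨v 1 / f 0, ?_⟩
    funext i
    fin_cases i
    · simp
      field_simp
      linear_combination h'
    · simp
      field_simp

end LMKAux

open LMKAux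

/-- `o` and `pi` dependent, `b_0 = 0`, a determinant is not zero -/
theorem dep_core [Infinite k] (hρ : ∀ i, ρ i = (JL k l m 2 ^ i).rank) (h : m < l) (hm : 3 ≤ m)
    {b q : ℕ → k} {pi th et o th' et' : Fin 2 → k}
    (hT : MaxR ρ ![JL k l m 2, YL l m 2 b q pi th et,
      ZL l m 2 (th ⬝ᵥ o) (et ⬝ᵥ o) o th' et'])
    (hb : b 0 = 0) {f e g : Fin 2 → k} (hfo : f ⬝ᵥ o = 0) (hfπ : f ⬝ᵥ pi = 0)
    (hfg : f ⬝ᵥ g = 0) (hfe : f ⬝ᵥ e ≠ 0) (hg : g ≠ 0)
    (hD : (th ⬝ᵥ g) * (et' ⬝ᵥ g) - (th' ⬝ᵥ g) * (et ⬝ᵥ g) ≠ 0) : False := by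
  obtain ⟨A1, hA1⟩ : ∃ A1, A1 = (et' ⬝ᵥ g) * b 1 := ⟨_, rfl⟩
  obtain ⟨A2, hA2⟩ : ∃ A2, A2 = (et' ⬝ᵥ g) * q 1 + (if l = m + 1 then th' ⬝ᵥ g else 0) := ⟨_, rfl⟩
  obtain ⟨D, hDe⟩ : ∃ D, D = (th ⬝ᵥ g) * (et' ⬝ᵥ g) - (th' ⬝ᵥ g) * (et ⬝ᵥ g) := ⟨_, rfl⟩
  rw [← hDe] at hD
  refine psi_raise hρ h hm hT (Or.inl hb) (f := f) (e := e) (g := g)
    (ky := (((th ⬝ᵥ g) * A2 - (et ⬝ᵥ g) * A1) / D) • g)
    (kz := (((th' ⬝ᵥ g) * A2 - (et' ⬝ᵥ g) * A1) / D) • g)
    hfo hfπ hfg hfe hg ?_ ?_ ?_ ?_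
  · rw [dotProduct_smul, hfg, smul_zero]
  · rw [dotProduct_smul, hfg, smul_zero]
  · rw [dotProduct_smul, dotProduct_smul, ← hA1, smul_eq_mul, smul_eq_mul]
    field_simp
    rw [hDe]
    ring
  · rw [dotProduct_smul, dotProduct_smul, smul_eq_mul, smul_eq_mul]
    have e1 : (et' ⬝ᵥ g) * q 1 = A2 - (if l = m + 1 then th' ⬝ᵥ g else 0) := by rw [hA2]; ring
    rw [e1]
    field_simp
    rw [hDe]
    ring

/-- case I with `o` and `pi` linearly dependent is impossible -/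
theorem dep_false [Infinite k] (hρ : ∀ i, ρ i = (JL k l m 2 ^ i).rank) (h : m < l) (hm : 3 ≤ m)
    {b q : ℕ → k} {pi th et o th' et' : Fin 2 → k}
    (hT : MaxR ρ ![JL k l m 2, YL l m 2 b q pi th et,
      ZL l m 2 (th ⬝ᵥ o) (et ⬝ᵥ o) o th' et'])
    (h1 : th' ⬝ᵥ pi = (et ⬝ᵥ o) * b 0) (h2 : et' ⬝ᵥ pi = 0) (h3 : b 0 = 0 ∨ et' = 0)
    (hb1 : l = m + 1 → b 0 = 0) (hdep : o 0 * pi 1 = o 1 * pi 0) : False := by
  obtain ⟨f, hf, hfo, hfπ⟩ := exists_perp o pi hdep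
  obtain ⟨e, he⟩ := exists_ne hf
  have hfe : f ⬝ᵥ e ≠ 0 := by rw [dotProduct_comm, he]; exact one_ne_zero
  obtain ⟨g, hgdef⟩ : ∃ g : Fin 2 → k, g = ![-f 1, f 0] := ⟨_, rfl⟩
  have hfg : f ⬝ᵥ g = 0 := by
    rw [hgdef]
    simp [dotProduct, Fin.sum_univ_two]
    ring
  have hg : g ≠ 0 := by
    intro h0
    apply hf
    rw [hgdef] at h0
    have h4 := congrFun h0 0
    have h5 := congrFun h0 1
    simp at h4 h5
    funext i
    fin_cases i
    · exact h5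
    · exact h4
  by_cases hb : b 0 = 0
  · rw [hb, mul_zero] at h1
    by_cases hz : th' ⬝ᵥ g = 0 ∧ et' ⬝ᵥ g = 0
    · refine psi_raise hρ h hm hT (Or.inl hb) (ky := 0) (kz := 0) hfo hfπ hfg hfe hg
        (dotProduct_zero _) (dotProduct_zero _) ?_ ?_
      · rw [hz.2]
        simp
      · rw [hz.1, hz.2]
        simp
    · have hpi : pi = 0 := by
        obtain ⟨c, hc⟩ := perp_span hf hfπ
        rw [← hgdef] at hc
        have hc0 : c = 0 := by
          by_contra hc0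
          apply hz
          rw [hc, dotProduct_smul] at h1 h2
          exact ⟨(smul_eq_zero.1 h1).resolve_left hc0, (smul_eq_zero.1 h2).resolve_left hc0⟩
        rw [hc, hc0, zero_smul]
      obtain ⟨g', hg'⟩ := exists_ne hg
      by_cases he' : et' ⬝ᵥ g = 0
      · have ht' : th' ⬝ᵥ g ≠ 0 := fun h4 => hz ⟨h4, he'⟩
        obtain ⟨s, hs, h6⟩ := nf_move h (by omega) hT 0 0 0 g' 0 0 (fun s => by
            simp [hpi, hb]) (fun s => by simp [hpi]) (fun s => Or.inl (by simp [hb]))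
          (Set.finite_singleton (-(et ⬝ᵥ g)))
        simp only [smul_zero, add_zero] at h6
        refine dep_core hρ h hm h6 hb hfo hfπ hfg hfe hg ?_
        rw [add_dotProduct, smul_dotProduct, hg', he', mul_zero, zero_sub, neg_ne_zero]
        refine mul_ne_zero ht' fun h7 => hs ?_
        rw [Set.mem_singleton_iff]
        rw [smul_eq_mul, mul_one] at h7
        linear_combination h7
      · obtain ⟨s, hs, h6⟩ := nf_move h (by omega) hT 0 0 g' 0 0 0 (fun s => by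
            simp [hpi, hb]) (fun s => by simp [hpi]) (fun s => Or.inl (by simp [hb]))
          (Set.finite_singleton (-((th ⬝ᵥ g) * (et' ⬝ᵥ g) - (th' ⬝ᵥ g) * (et ⬝ᵥ g)) / (et' ⬝ᵥ g)))
        simp only [smul_zero, add_zero] at h6
        refine dep_core hρ h hm h6 hb hfo hfπ hfg hfe hg ?_
        intro h7
        apply hs
        rw [Set.mem_singleton_iff, eq_div_iff he']
        rw [add_dotProduct, smul_dotProduct, hg', smul_eq_mul, mul_one] at h7
        linear_combination h7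
  · have he' : et' = 0 := h3.resolve_left hb
    have hl : l ≠ m + 1 := fun h4 => hb (hb1 h4)
    refine psi_raise hρ h hm hT h3 (ky := 0) (kz := 0) hfo hfπ hfg hfe hg
        (dotProduct_zero _) (dotProduct_zero _) ?_ ?_
    · rw [he']
      simp
    · rw [he', if_neg hl]
      simp

end Pool.Agent.Lib.D13.LM
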