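import Pool.Agent.Lib.D13.LM4
import Pool.Agent.Lib.D13.LMK
import Pool.Agent.Lib.D13.LMA

/-!
# MP_5dcbc3_ag: the types `(5, 4, 1, 1)` and `(6, 4, 1, 1)`, case I
-/

namespace Pool.Agent.Lib.D13.LM

open Matrix Pool.Agent.Lib.Q5dc Pool.Agent.Lib.D7

variable {k : Type*} [Field k] {ρ : ℕ → ℕ}

theorem det_of_dep {o pi : Fin 2 → k} (h : ¬ o 0 * pi 1 = o 1 * pi 0) :
    pi 0 * o 1 - pi 1 * o 0 ≠ 0 := by
  intro h1
  apply h
  linear_combination -h1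

theorem caseI_core54 [Infinite k] (hρ : ∀ i, ρ i = (JL k 5 4 2 ^ i).rank)
    {c b q : ℕ → k} {om pi th et : Fin 2 → k} {B' : Matrix (IL 5 4 2) (IL 5 4 2) k}
    (hT : MaxR ρ ![JL k 5 4 2, BL 5 4 2 c b q om pi th et, B']) (hc : c 0 ≠ 0) : False := by
  obtain ⟨b, q, pi, th, et, o, th', et', hN, n1, n2, n3⟩ :=
    nf1 hρ (by omega) (by omega) hT hc
  have hb : b 0 = 0 := b0_54 hρ hN
  by_cases hdep : o 0 * pi 1 = o 1 * pi 0
  · exact dep_false hρ (by omega) (by omega) hN n1 n2 n3 (fun _ => hb) hdep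
  · rw [hb, mul_zero] at n1
    exact caseI54 hρ hN hb n1 n2 (det_of_dep hdep)

/-- case I of `(5, 4, 1, 1)` -/
theorem caseI_54 [Infinite k] (hρ : ∀ i, ρ i = (JL k 5 4 2 ^ i).rank)
    {c b q : ℕ → k} {om pi th et : Fin 2 → k} {c' b' q' : ℕ → k} {om' pi' th' et' : Fin 2 → k}
    (hT : MaxR ρ ![JL k 5 4 2, BL 5 4 2 c b q om pi th et, BL 5 4 2 c' b' q' om' pi' th' et'])
    (hc : c 0 ≠ 0 ∨ b 0 ≠ 0 ∨ c' 0 ≠ 0 ∨ b' 0 ≠ 0) : False := by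
  have hsw := D8.MaxR.swap hT
  rcases hc with hc | hc | hc | hc
  · exact caseI_core54 hρ hT hc
  · exact caseI_core54 hρ (MaxR.dualL _ _ _ _ _ _ _ _ _ _ _ _ _ _ (by omega) hT) hc
  · exact caseI_core54 hρ hsw hc
  · exact caseI_core54 hρ (MaxR.dualL _ _ _ _ _ _ _ _ _ _ _ _ _ _ (by omega) hsw) hc

theorem caseI_core64 [IsAlgClosed k] [CharZero k] (hρ : ∀ i, ρ i = (JL k 6 4 2 ^ i).rank)
    (ih : ∀ T : Fin 3 → Matrix (IL 6 4 1) (IL 6 4 1) k, CN T → Cl T)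
    {c b q : ℕ → k} {om pi th et : Fin 2 → k} {B' : Matrix (IL 6 4 2) (IL 6 4 2) k}
    (hT : MaxR ρ ![JL k 6 4 2, BL 6 4 2 c b q om pi th et, B']) (hc : c 0 ≠ 0) : False := by
  obtain ⟨b, q, pi, th, et, o, th', et', hN, n1, n2, n3⟩ :=
    nf1 hρ (by omega) (by omega) hT hc
  by_cases hdep : o 0 * pi 1 = o 1 * pi 0
  · exact dep_false hρ (by omega) (by omega) hN n1 n2 n3 (fun h => by omega) hdep
  · by_cases hb : b 0 = 0
    · rw [hb, mul_zero] at n1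
      exact caseI64 hρ hN hb n1 n2 (det_of_dep hdep)
    · exact ax_false (by omega) (by omega) ih hN hb n1 n3 hdep

/-- case I of `(6, 4, 1, 1)` -/
theorem caseI_64 [IsAlgClosed k] [CharZero k] (hρ : ∀ i, ρ i = (JL k 6 4 2 ^ i).rank)
    (ih : ∀ T : Fin 3 → Matrix (IL 6 4 1) (IL 6 4 1) k, CN T → Cl T)
    {c b q : ℕ → k} {om pi th et : Fin 2 → k} {c' b' q' : ℕ → k} {om' pi' th' et' : Fin 2 → k}
    (hT : MaxR ρ ![JL k 6 4 2, BL 6 4 2 c b q om pi th et, BL 6 4 2 c' b' q' om' pi' th' et'])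
    (hc : c 0 ≠ 0 ∨ b 0 ≠ 0 ∨ c' 0 ≠ 0 ∨ b' 0 ≠ 0) : False := by
  have hsw := D8.MaxR.swap hT
  rcases hc with hc | hc | hc | hc
  · exact caseI_core64 hρ ih hT hc
  · exact caseI_core64 hρ ih (MaxR.dualL _ _ _ _ _ _ _ _ _ _ _ _ _ _ (by omega) hT) hc
  · exact caseI_core64 hρ ih hsw hc
  · exact caseI_core64 hρ ih (MaxR.dualL _ _ _ _ _ _ _ _ _ _ _ _ _ _ (by omega) hsw) hc

end Pool.Agent.Lib.D13.LM
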