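import Mathlib
import Pool.Agent.Lib.D13.PurDim

/-!
# MP_5dcbc3_ag: the Zariski tangent space bounds the height of a point

`height_le_tan`: if `I` is an ideal of the polynomial ring `k[σ]` and `T` a zero of `I`, then the
maximal ideal of `T` in `k[σ] / I` has height at most the dimension of the space of the vectors
`v` with `dF(T) v = 0` for all `F ∈ I`.  `dim_le_tan`: if `I` is prime, the same bound holds for the
dimension of `k[σ] / I`.
-/

namespace Pool.Agent.Lib.D13.Pur

open MvPolynomial

section

variable {σ : Type*} [Fintype σ] {k : Type*} [Field k]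

/-- the ideal of a point -/
noncomputable def mI (T : σ → k) : Ideal (MvPolynomial σ k) := RingHom.ker (eval T)

omit [Fintype σ] in
theorem mem_mI {T : σ → k} {F : MvPolynomial σ k} : F ∈ mI T ↔ eval T F = 0 := RingHom.mem_ker

instance mI_max (T : σ → k) : (mI T).IsMaximal :=
  RingHom.ker_isMaximal_of_surjective _ fun c => ⟨C c, eval_C c⟩

/-- the differential of a polynomial at a point -/
noncomputable def dAt (T : σ → k) : MvPolynomial σ k →ₗ[k] Module.Dual k (σ → k) :=
  ∑ i, ((aeval T : MvPolynomial σ k →ₐ[k] k).toLinearMap ∘ₗ (pderiv i).toLinearMap).smulRight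
    (LinearMap.proj i)

theorem dAt_apply (T : σ → k) (F : MvPolynomial σ k) (v : σ → k) :
    dAt T F v = ∑ i, eval T (pderiv i F) * v i := by
  rw [dAt, LinearMap.sum_apply, LinearMap.sum_apply]
  refine Finset.sum_congr rfl fun i _ => ?_
  rw [LinearMap.smulRight_apply, LinearMap.smul_apply, smul_eq_mul]
  rfl

/-- the Zariski tangent space of `I` at the point `T` -/
noncomputable def tanS (I : Ideal (MvPolynomial σ k)) (T : σ → k) : Submodule k (σ → k) :=
  ((I.restrictScalars k).map (dAt T)).dualCoannihilator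

theorem mem_tanS {I : Ideal (MvPolynomial σ k)} {T v : σ → k} :
    v ∈ tanS I T ↔ ∀ F ∈ I, ∑ i, eval T (pderiv i F) * v i = 0 := by
  rw [tanS, Submodule.mem_dualCoannihilator]
  constructor
  · intro h F hF
    rw [← dAt_apply]
    exact h _ ⟨F, hF, rfl⟩
  · rintro h _ ⟨F, hF, rfl⟩
    rw [dAt_apply]
    exact h F hF

/-- the linear polynomial at `T` of a linear form -/
noncomputable def lin (T : σ → k) : Module.Dual k (σ → k) →ₗ[k] MvPolynomial σ k :=
  open Classical in
  ∑ i, (LinearMap.applyₗ (Pi.single i (1 : k) : σ → k)).smulRight (X i - C (T i))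

theorem lin_apply [DecidableEq σ] (T : σ → k) (w : Module.Dual k (σ → k)) :
    lin T w = ∑ i, w (Pi.single i 1) • (X i - C (T i)) := by
  rw [lin, LinearMap.sum_apply]
  refine Finset.sum_congr rfl fun i _ => ?_
  rw [LinearMap.smulRight_apply, LinearMap.applyₗ_apply_apply]
  have h1 : ∀ d d' : DecidableEq σ, (@Pi.single σ (fun _ => k) _ d i 1)
      = @Pi.single σ (fun _ => k) _ d' i 1 := by
    intro d d'
    rw [Subsingleton.elim d d']
  rw [h1]

theorem lin_proj (T : σ → k) (i : σ) :
    lin T (LinearMap.proj i) = X i - C (T i) := by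
  classical
  rw [lin_apply, Finset.sum_eq_single i]
  · rw [LinearMap.proj_apply, Pi.single_eq_same, one_smul]
  · intro j _ hj
    rw [LinearMap.proj_apply, Pi.single_eq_of_ne hj.symm, zero_smul]
  · intro h
    exact absurd (Finset.mem_univ i) h

omit [Fintype σ] in
theorem X_sub_mem (T : σ → k) (i : σ) : (X i - C (T i) : MvPolynomial σ k) ∈ mI T := by
  rw [mem_mI, map_sub, eval_X, eval_C, sub_self]

omit [Fintype σ] in
theorem C_sub_mem (T : σ → k) (F : MvPolynomial σ k) : F - C (eval T F) ∈ mI T := by
  rw [mem_mI, map_sub, eval_C, sub_self]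

/-- the Taylor expansion of order one -/
theorem taylor (T : σ → k) (F : MvPolynomial σ k) :
    F - C (eval T F) - lin T (dAt T F) ∈ mI T ^ 2 := by
  classical
  have hlin : ∀ F, lin T (dAt T F) = ∑ i, eval T (pderiv i F) • (X i - C (T i)) := by
    intro F
    rw [lin_apply]
    refine Finset.sum_congr rfl fun i _ => ?_
    rw [dAt_apply, Finset.sum_eq_single i]
    · rw [Pi.single_eq_same, mul_one]
    · intro j _ hj
      rw [Pi.single_eq_of_ne hj, mul_zero]
    · intro h
      exact absurd (Finset.mem_univ i) h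
  induction F using MvPolynomial.induction_on with
  | C a =>
    rw [hlin, eval_C, sub_self, zero_sub]
    have h1 : ∑ i, eval T (pderiv i (C a : MvPolynomial σ k)) • (X i - C (T i)) = 0 := by
      refine Finset.sum_eq_zero fun i _ => ?_
      rw [pderiv_C, map_zero, zero_smul]
    rw [h1, neg_zero]
    exact Ideal.zero_mem _
  | add F G hF hG =>
    have h1 : F + G - C (eval T (F + G)) - lin T (dAt T (F + G))
        = (F - C (eval T F) - lin T (dAt T F)) + (G - C (eval T G) - lin T (dAt T G)) := by
      rw [map_add, map_add, map_add, map_add]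
      ring
    rw [h1]
    exact Ideal.add_mem _ hF hG
  | mul_X F i hF =>
    have h1 : lin T (dAt T (F * X i))
        = T i • lin T (dAt T F) + eval T F • (X i - C (T i)) := by
      rw [hlin, hlin, Finset.smul_sum]
      have h2 : ∀ j, eval T (pderiv j (F * X i)) • (X j - C (T j) : MvPolynomial σ k)
          = T i • eval T (pderiv j F) • (X j - C (T j))
            + (if j = i then eval T F • (X j - C (T j)) else 0) := by
        intro j
        rw [pderiv_mul, map_add, map_mul, map_mul, eval_X, add_smul, smul_smul, mul_comm (T i)]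
        congr 1
        by_cases hj : j = i
        · rw [if_pos hj, hj, pderiv_X_self, map_one, mul_one]
        · rw [if_neg hj, pderiv_X_of_ne (Ne.symm hj), map_zero, mul_zero, zero_smul]
      rw [Finset.sum_congr rfl fun j _ => h2 j, Finset.sum_add_distrib, Finset.sum_ite_eq',
        if_pos (Finset.mem_univ i)]
    have h3 : F * X i - C (eval T (F * X i)) - lin T (dAt T (F * X i))
        = (F - C (eval T F)) * (X i - C (T i))
          + C (T i) * (F - C (eval T F) - lin T (dAt T F)) := by
      rw [h1, map_mul, eval_X, map_mul, smul_eq_C_mul, smul_eq_C_mul]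
      ring
    rw [h3]
    refine Ideal.add_mem _ ?_ (Ideal.mul_mem_left _ _ hF)
    rw [pow_two]
    exact Ideal.mul_mem_mul (C_sub_mem T F) (X_sub_mem T i)

/-- the maximal ideal of a zero of `I` is generated by `dim (tanS I T)` elements modulo `I` and its
square -/
theorem exists_gens {I : Ideal (MvPolynomial σ k)} {T : σ → k} (hT : ∀ F ∈ I, eval T F = 0) :
    ∃ s : Set (MvPolynomial σ k), s.Finite ∧ s.ncard ≤ Module.finrank k (tanS I T) ∧
      s ⊆ mI T ∧ mI T ≤ (I ⊔ Ideal.span s) ⊔ mI T ^ 2 := by
  classical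
  obtain ⟨W', hW⟩ := Submodule.exists_isCompl ((I.restrictScalars k).map (dAt T))
  have hdim : Module.finrank k W' = Module.finrank k (tanS I T) := by
    have h1 := Submodule.finrank_add_eq_of_isCompl hW
    have h2 := Subspace.finrank_add_finrank_dualCoannihilator_eq
      ((I.restrictScalars k).map (dAt T))
    rw [Subspace.dual_finrank_eq] at h1
    have h3 : Module.finrank k (tanS I T)
      = Module.finrank k ((I.restrictScalars k).map (dAt T)).dualCoannihilator := rfl
    omega
  have hfree : Module.Free k W' := Module.Free.of_divisionRing k W'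
  let b := Module.finBasis k W'
  have hlm : ∀ w, lin T w ∈ mI T := by
    intro w
    rw [lin_apply]
    exact Ideal.sum_mem _ fun i _ => by
      rw [smul_eq_C_mul]
      exact Ideal.mul_mem_left _ _ (X_sub_mem T i)
  refine ⟨Set.range fun j => lin T (b j), Set.finite_range _, ?_, ?_, ?_⟩
  · rw [← hdim, ← Set.image_univ]
    refine le_trans (Set.ncard_image_le Set.finite_univ) ?_
    rw [Set.ncard_univ, Nat.card_eq_fintype_card, Fintype.card_fin]
  · rintro _ ⟨j, rfl⟩
    exact hlm _
  · have h0 : ∀ w : W', lin T w ∈ Ideal.span (Set.range fun j => lin T (b j)) := by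
      intro w
      rw [← b.sum_repr w]
      rw [Submodule.coe_sum, map_sum]
      refine Ideal.sum_mem _ fun j _ => ?_
      rw [Submodule.coe_smul, map_smul, smul_eq_C_mul]
      exact Ideal.mul_mem_left _ _ (Ideal.subset_span ⟨j, rfl⟩)
    have h1 : ∀ w, lin T w ∈ (I ⊔ Ideal.span (Set.range fun j => lin T (b j))) ⊔ mI T ^ 2 := by
      intro w
      have h2 : w ∈ ((I.restrictScalars k).map (dAt T)) ⊔ W' := by
        rw [hW.sup_eq_top]
        exact Submodule.mem_top
      obtain ⟨_, ⟨F, hF, rfl⟩, w', hw', rfl⟩ := Submodule.mem_sup.1 h2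
      rw [map_add]
      refine Ideal.add_mem _ ?_ ?_
      · have h3 := taylor T F
        rw [hT F hF, map_zero, sub_zero] at h3
        have h4 : lin T (dAt T F) = F - (F - lin T (dAt T F)) := by ring
        rw [h4]
        refine Ideal.sub_mem _ ?_ ?_
        · exact (le_sup_left.trans le_sup_left : I ≤ _) hF
        · exact (le_sup_right : mI T ^ 2 ≤ _) h3
      · exact (le_sup_right.trans le_sup_left : Ideal.span _ ≤ _) (h0 ⟨w', hw'⟩)
    intro F hF
    have h3 := taylor T F
    rw [mem_mI.1 hF, map_zero, sub_zero] at h3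
    have h4 : F = lin T (dAt T F) + (F - lin T (dAt T F)) := by ring
    rw [h4]
    exact Ideal.add_mem _ (h1 _) ((le_sup_right : mI T ^ 2 ≤ _) h3)

/-- **the height of the maximal ideal of `T` in `k[σ] / I` is at most the dimension of the Zariski
tangent space** -/
theorem height_le_tan {I : Ideal (MvPolynomial σ k)} {T : σ → k}
    (hT : ∀ F ∈ I, eval T F = 0) :
    ((mI T).map (Ideal.Quotient.mk I)).height ≤ Module.finrank k (tanS I T) := by
  obtain ⟨s, hs, hcard, hsm, hle⟩ := exists_gens hT
  have hIm : I ≤ mI T := fun F hF => mem_mI.2 (hT F hF)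
  have hker : RingHom.ker (Ideal.Quotient.mk I) ≤ mI T := by rwa [Ideal.mk_ker]
  have hsurj : Function.Surjective (Ideal.Quotient.mk I) := Ideal.Quotient.mk_surjective
  have hmax : ((mI T).map (Ideal.Quotient.mk I)).IsMaximal := by
    rcases Ideal.map_eq_top_or_isMaximal_of_surjective _ hsurj (mI_max T) with h1 | h1
    · exfalso
      have h2 := Ideal.comap_map_of_surjective _ hsurj (mI T)
      rw [h1, Ideal.comap_top] at h2
      have h3 : Ideal.comap (Ideal.Quotient.mk I) ⊥ ≤ mI T := hker
      rw [sup_eq_left.2 h3] at h2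
      exact (mI_max T).ne_top h2.symm
    · exact h1
  obtain ⟨r, hr1, hr2⟩ := Submodule.exists_sub_one_mem_and_smul_le_of_fg_of_le_sup
    (I := mI T) (N := I ⊔ Ideal.span s) (N' := mI T) (P := mI T)
    (IsNoetherian.noetherian (mI T)) le_rfl (by rwa [smul_eq_mul, ← pow_two])
  have hmin : (mI T).map (Ideal.Quotient.mk I) ∈
      (Ideal.span (Ideal.Quotient.mk I '' s)).minimalPrimes := by
    refine ⟨⟨hmax.isPrime, ?_⟩, ?_⟩
    · rw [Ideal.span_le]
      rintro _ ⟨F, hF, rfl⟩
      exact Ideal.mem_map_of_mem _ (hsm hF)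
    · rintro Q ⟨hQ, hJQ⟩ hQm
      rw [Ideal.map_le_iff_le_comap]
      intro F hF
      have h1 : r * F ∈ I ⊔ Ideal.span s :=
        hr2 (Submodule.smul_mem_pointwise_smul F r (mI T) hF)
      have h2 : Ideal.Quotient.mk I (r * F) ∈ Q := by
        have h3 := Ideal.mem_map_of_mem (Ideal.Quotient.mk I) h1
        rw [Ideal.map_sup, Ideal.map_quotient_self, bot_sup_eq, Ideal.map_span] at h3
        exact hJQ h3
      rw [map_mul] at h2
      rcases hQ.mem_or_mem h2 with h3 | h3
      · exfalso
        have h4 := Ideal.mem_map_of_mem (Ideal.Quotient.mk I) hr1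
        rw [map_sub, map_one] at h4
        have h5 := Ideal.sub_mem _ (hQm h3) h4
        rw [sub_sub_cancel] at h5
        exact hmax.ne_top ((Ideal.eq_top_iff_one _).2 h5)
      · exact h3
  refine le_trans (Ideal.height_le_card_of_mem_minimalPrimes_span (hs.image _) hmin) ?_
  exact_mod_cast le_trans (Set.ncard_image_le hs) hcard

omit [Fintype σ] in
/-- the image of the ideal of a zero of `I` in `k[σ] / I` is maximal -/
theorem map_mI_max {I : Ideal (MvPolynomial σ k)} {T : σ → k} (hT : ∀ F ∈ I, eval T F = 0) :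
    ((mI T).map (Ideal.Quotient.mk I)).IsMaximal := by
  have hIm : I ≤ mI T := fun F hF => mem_mI.2 (hT F hF)
  have hsurj : Function.Surjective (Ideal.Quotient.mk I) := Ideal.Quotient.mk_surjective
  rcases Ideal.map_eq_top_or_isMaximal_of_surjective _ hsurj (mI_max T) with h1 | h1
  · exfalso
    have h2 := Ideal.comap_map_of_surjective _ hsurj (mI T)
    rw [h1, Ideal.comap_top] at h2
    have h3 : Ideal.comap (Ideal.Quotient.mk I) ⊥ ≤ mI T := by
      rw [← RingHom.ker_eq_comap_bot, Ideal.mk_ker]
      exact hIm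
    rw [sup_eq_left.2 h3] at h2
    exact (mI_max T).ne_top h2.symm
  · exact h1

/-- **the dimension of an irreducible variety is at most the dimension of its Zariski tangent
space at any point** -/
theorem dim_le_tan {I : Ideal (MvPolynomial σ k)} [I.IsPrime] {T : σ → k}
    (hT : ∀ F ∈ I, eval T F = 0) :
    ringKrullDim (MvPolynomial σ k ⧸ I) ≤ Module.finrank k (tanS I T) := by
  obtain ⟨n, hn, hP⟩ := height_maximal_of_finiteType k (S := MvPolynomial σ k ⧸ I)
  have h1 := height_le_tan hT
  rw [hP _ (map_mI_max hT)] at h1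
  rw [hn]
  exact_mod_cast h1

/-- the dimension is at most the dimension of the tangent space -/
theorem tangent (I : Ideal (MvPolynomial σ k)) [I.IsPrime] (x : σ → k)
    (hx : ∀ F ∈ I, eval x F = 0) (V : Submodule k (σ → k))
    (hV : ∀ v, (∀ F ∈ I, ∑ s, eval x (pderiv s F) * v s = 0) → v ∈ V) :
    ringKrullDim (MvPolynomial σ k ⧸ I) ≤ ((Module.finrank k V : ℕ) : WithBot ℕ∞) := by
  refine (dim_le_tan hx).trans ?_
  exact_mod_cast Submodule.finrank_mono fun v hv => hV v (mem_tanS.1 hv)

/-- the maximal ideal of an isolated point -/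
theorem mI_le_of_tan {I : Ideal (MvPolynomial σ k)} [hI : I.IsPrime] {T : σ → k}
    (hT : ∀ F ∈ I, eval T F = 0)
    (hV : ∀ v : σ → k, (∀ F ∈ I, ∑ s, eval T (pderiv s F) * v s = 0) → v = 0) : mI T ≤ I := by
  obtain ⟨s, hs, hcard, hsm, hle⟩ := exists_gens hT
  have h0 : tanS I T = ⊥ := by
    rw [eq_bot_iff]
    intro v hv
    rw [Submodule.mem_bot]
    exact hV v (mem_tanS.1 hv)
  rw [h0, finrank_bot, Nat.le_zero, Set.ncard_eq_zero hs] at hcard
  subst hcard
  rw [Ideal.span_empty, sup_bot_eq] at hle
  obtain ⟨r, hr1, hr2⟩ := Submodule.exists_sub_one_mem_and_smul_le_of_fg_of_le_sup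
    (I := mI T) (N := I) (N' := mI T) (P := mI T)
    (IsNoetherian.noetherian (mI T)) le_rfl (by rwa [smul_eq_mul, ← pow_two])
  intro F hF
  have h1 : r * F ∈ I := hr2 (Submodule.smul_mem_pointwise_smul F r (mI T) hF)
  rcases hI.mem_or_mem h1 with h2 | h2
  · exfalso
    have h3 : r ∈ mI T := mem_mI.2 (hT r h2)
    have h4 := Ideal.sub_mem _ h3 hr1
    rw [sub_sub_cancel] at h4
    exact (mI_max T).ne_top ((Ideal.eq_top_iff_one _).2 h4)
  · exact h2

end

/-- functions of some of the variables (`τ`) whose differentials in the directions of `τ` have no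
common zero: the point is isolated -/
theorem isolated_point {k σ τ : Type*} [Field k] [Fintype τ]
    (q : Ideal (MvPolynomial σ k)) [q.IsPrime] (x : σ → k) (hx : ∀ F ∈ q, eval x F = 0)
    (f : τ → σ)
    (hT : ∀ v : τ → k, (∀ F : MvPolynomial τ k, rename f F ∈ q →
      ∑ s, eval (x ∘ f) (pderiv s F) * v s = 0) → v = 0) (t : τ) :
    X (f t) - C (x (f t)) ∈ q := by
  have h1 : (X t - C (x (f t)) : MvPolynomial τ k) ∈
      q.comap ((rename f : MvPolynomial τ k →ₐ[k] MvPolynomial σ k) :
        MvPolynomial τ k →+* MvPolynomial σ k) := by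
    refine mI_le_of_tan (T := x ∘ f) ?_ ?_ (X_sub_mem (x ∘ f) t)
    · intro F hF
      have h2 := hx _ hF
      rw [RingHom.coe_coe, eval_rename] at h2
      exact h2
    · intro v hv
      exact hT v fun F hF => hv F hF
  rw [Ideal.mem_comap, map_sub] at h1
  rwa [RingHom.coe_coe, rename_X, rename_C] at h1

end Pool.Agent.Lib.D13.Pur
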