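import Pool.Agent.Lib.D13.PurDefs
import Pool.Agent.Lib.D13.PurTan
import Pool.Agent.Lib.D13.Krull

/-!
# MP_5dcbc3_ag: from the purity theorem to families with a fixed first matrix
-/

namespace Pool.Agent.Lib.D13

open Matrix MvPolynomial Pool.Agent.Lib.Q5dc Pool.Agent.Lib.D7

universe u

namespace Pur

/-- the centralizer of a matrix -/
def cen {k : Type*} [Field k] {n : Type*} [Fintype n] [DecidableEq n] (J : Matrix n n k) :
    Submodule k (Matrix n n k) where
  carrier := {a | J * a = a * J}
  add_mem' {a b} ha hb := by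
    simp only [Set.mem_ofPred_eq] at *
    rw [mul_add, add_mul, ha, hb]
  zero_mem' := by simp
  smul_mem' c a ha := by
    simp only [Set.mem_ofPred_eq] at *
    rw [mul_smul_comm, smul_mul_assoc, ha]

/-- the differential of a polynomial function of triples at `T` in the direction `(0, b, c)` -/
noncomputable def dif {k : Type*} [Field k] {n : Type*} [Fintype n] [DecidableEq n]
    (F : MvPolynomial (Fin 3 × n × n) k) (T : Fin 3 → Matrix n n k) (b c : Matrix n n k) : k :=
  ∑ s, eval (co T) (pderiv s F) * co ![0, b, c] s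

section

variable {k : Type u} [Field k] {n : Type} [Fintype n] [DecidableEq n]

/-- Hilbert's Nullstellensatz for prime ideals -/
theorem mem_of_zeros [IsAlgClosed k] {σ : Type*} [Finite σ] (I : Ideal (MvPolynomial σ k))
    [hI : I.IsPrime] {F : MvPolynomial σ k}
    (h : ∀ x : σ → k, (∀ G ∈ I, eval x G = 0) → eval x F = 0) : F ∈ I := by
  rw [← MvPolynomial.IsPrime.vanishingIdeal_zeroLocus (K := k) I]
  intro x hx
  exact h x fun G hG => hx G hG

/-- the triple with given coordinates -/
def tr (x : Fin 3 × n × n → k) : Fin 3 → Matrix n n k := fun i => Matrix.of fun a b => x (i, a, b)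

omit [Fintype n] [DecidableEq n] [Field k] in
theorem co_tr [Field k] (x : Fin 3 × n × n → k) : co (tr x) = x := rfl

/-- near a maximal bad triple the commuting nilpotent triples are maximal bad, and the first
matrix has the same ranks of powers -/
theorem nbhd0 {ρ : ℕ → ℕ} {T : Fin 3 → Matrix n n k} (hT : MaxR ρ T)
    (hr : ∀ i, (T 0 ^ i).rank = ρ i) :
    ∃ H : MvPolynomial (Fin 3 × n × n) k, eval (co T) H ≠ 0 ∧
      ∀ T' : Fin 3 → Matrix n n k, eval (co T') H ≠ 0 → CN T' →
        MaxR ρ T' ∧ ∀ i, (T' 0 ^ i).rank = ρ i := by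
  classical
  obtain ⟨F, hF, hF0⟩ : ∃ F : MvPolynomial (Fin 3 × n × n) k,
      (∀ T' : Fin 3 → Matrix n n k, Curv T' → eval (co T') F = 0) ∧ eval (co T) F ≠ 0 := by
    have h := hT.ncl
    unfold Cl at h
    push Not at h
    exact h
  choose f g hfg using fun i : ℕ => PolyAux.exists_minor (T 0 ^ (i + 1))
  have hm : MP fun x : Fin 3 × n × n → k => eval x F *
      ∏ i ∈ Finset.range (Fintype.card n), ((tr x 0 ^ (i + 1)).submatrix (f i) (g i)).det := by
    refine MP.mul ⟨F, fun _ => rfl⟩ (MP.prod _ fun i _ => MP.det fun a b => MP.matPow ?_ _ _ _)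
    intro a b
    exact MP.coord (0, a, b)
  obtain ⟨H, hH⟩ := hm
  refine ⟨H, ?_, ?_⟩
  · rw [← hH]
    exact mul_ne_zero hF0 (Finset.prod_ne_zero_iff.2 fun i _ => hfg i)
  · intro T' hT' hcn
    rw [← hH] at hT'
    have hx1 := left_ne_zero_of_mul hT'
    have hx2 := Finset.prod_ne_zero_iff.1 (right_ne_zero_of_mul hT')
    have hncl : ¬ Cl T' := fun h => hx1 (h F hF)
    have hrk : ∀ i, (T' 0 ^ i).rank = ρ i :=
      rank_eq_of_sum (hT.cn.2 0) hr (hcn.2 0) (hT.max _ hcn hncl _ (mem_adj T' 0))
        fun i hi => le_rank_of_minor _ (f i) (g i) (hx2 i hi)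
    exact ⟨⟨hcn, hncl, ⟨T' 0, mem_adj T' 0, hrk⟩, hT.max⟩, hrk⟩

/-- the map `g ↦ g J - J g` -/
def adm (J : Matrix n n k) : Matrix n n k →ₗ[k] Matrix n n k where
  toFun g := g * J - J * g
  map_add' a b := by rw [add_mul, mul_add]; abel
  map_smul' c a := by rw [smul_mul_assoc, mul_smul_comm, RingHom.id_apply, smul_sub]

theorem ker_adm (J : Matrix n n k) : LinearMap.ker (adm J) = cen J := by
  ext a
  rw [LinearMap.mem_ker]
  show a * J - J * a = 0 ↔ J * a = a * J
  rw [sub_eq_zero, eq_comm]

theorem finrank_range_adm (J : Matrix n n k) :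
    Module.finrank k (LinearMap.range (adm J)) + Module.finrank k (cen J) =
      Fintype.card n * Fintype.card n := by
  rw [← ker_adm, LinearMap.finrank_range_add_finrank_ker, Module.finrank_matrix,
    Module.finrank_self, mul_one]

/-- linear forms separating the points of `[gl, J]` -/
theorem exists_forms (J : Matrix n n k) :
    ∃ (m : ℕ) (l : Fin m → (Matrix n n k →ₗ[k] k)),
      m + Module.finrank k (cen J) = Fintype.card n * Fintype.card n ∧
      ∀ a, (∃ g, a = g * J - J * g) → (∀ j, l j a = 0) → a = 0 := by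
  obtain ⟨π, hπ⟩ := LinearMap.exists_leftInverse_of_injective
    (LinearMap.range (adm J)).subtype (Submodule.ker_subtype _)
  let b := Module.finBasis k (LinearMap.range (adm J))
  refine ⟨_, fun j => (b.coord j).comp π, finrank_range_adm J, ?_⟩
  rintro a ⟨g, hg⟩ hl
  have ha : a ∈ LinearMap.range (adm J) := ⟨g, hg.symm⟩
  have h1 : π a = ⟨a, ha⟩ := by
    have := congrArg (fun φ => φ (⟨a, ha⟩ : LinearMap.range (adm J))) hπ
    exact this
  have h2 : (⟨a, ha⟩ : LinearMap.range (adm J)) = 0 := by
    refine b.ext_elem fun j => ?_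
    have h3 := hl j
    simp only [LinearMap.comp_apply, h1, Module.Basis.coord_apply] at h3
    rw [h3, map_zero]
    rfl
  exact congrArg Subtype.val h2

/-- a linear form on matrices as a polynomial vanishing at `J` -/
noncomputable def lform (J : Matrix n n k) (l : Matrix n n k →ₗ[k] k) : MvPolynomial (n × n) k :=
  ∑ s : n × n, C (l (Matrix.single s.1 s.2 1)) * (X s - C (J s.1 s.2))

theorem eval_lform (J : Matrix n n k) (l : Matrix n n k →ₗ[k] k) :
    eval (fun s => J s.1 s.2) (lform J l) = 0 := by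
  rw [lform, map_sum]
  refine Finset.sum_eq_zero fun s _ => ?_
  rw [map_mul, map_sub, eval_X, eval_C, eval_C, sub_self, mul_zero]

theorem dlform (J a : Matrix n n k) (l : Matrix n n k →ₗ[k] k) :
    ∑ s, eval (fun s => J s.1 s.2) (pderiv s (lform J l)) * a s.1 s.2 = l a := by
  have h1 : ∀ s : n × n, pderiv s (lform J l) = C (l (Matrix.single s.1 s.2 1)) := by
    intro s
    rw [lform, map_sum, Finset.sum_eq_single s]
    · rw [Derivation.leibniz, map_sub, pderiv_X_self, pderiv_C, pderiv_C]
      simp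
    · intro t _ hts
      rw [Derivation.leibniz, map_sub, pderiv_X_of_ne hts, pderiv_C, pderiv_C]
      simp
    · intro h
      exact absurd (Finset.mem_univ s) h
  simp only [h1, eval_C]
  conv_rhs => rw [Matrix.matrix_eq_sum_single a]
  rw [map_sum, ← Finset.univ_product_univ, Finset.sum_product]
  refine Finset.sum_congr rfl fun i _ => ?_
  rw [map_sum]
  refine Finset.sum_congr rfl fun j _ => ?_
  have h2 : Matrix.single i j (a i j) = a i j • (Matrix.single i j (1 : k) : Matrix n n k) := by
    rw [Matrix.smul_single, smul_eq_mul, mul_one]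
  rw [h2, map_smul, smul_eq_mul, mul_comm]

/-- **purity with a fixed first matrix**, from a prime ideal as in the purity theorem and the
tangent space of the orbit of a nilpotent matrix -/
theorem gen_of [IsAlgClosed k] {ρ : ℕ → ℕ} {T : Fin 3 → Matrix n n k} (hT : MaxR ρ T)
    (hr : ∀ i, (T 0 ^ i).rank = ρ i) (hn : 2 ≤ Fintype.card n)
    (horb : ∀ a : Matrix n n k, (∀ F : MvPolynomial (n × n) k,
      (∀ A : Matrix n n k, (∀ i, (A ^ i).rank ≤ (T 0 ^ i).rank) →
        eval (fun x => A x.1 x.2) F = 0) →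
      ∑ x, eval (fun x => T 0 x.1 x.2) (pderiv x F) * a x.1 x.2 = 0) →
      ∃ g : Matrix n n k, a = g * T 0 - T 0 * g)
    (I : Ideal (MvPolynomial (Fin 3 × n × n) k)) [hI : I.IsPrime]
    (hIT : ∀ F ∈ I, eval (co T) F = 0)
    (hIC : ∀ T' : Fin 3 → Matrix n n k, (∀ F ∈ I, eval (co T') F = 0) → CN T')
    (hId : ((Fintype.card n * Fintype.card n + Fintype.card n - 2 : ℕ) : WithBot ℕ∞) ≤
        ringKrullDim (MvPolynomial (Fin 3 × n × n) k ⧸ I))
    (g : MvPolynomial (Fin 3 × n × n) k) (hg : eval (co T) g ≠ 0) :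
    ∃ q : Ideal (MvPolynomial (Fin 3 × n × n) k), q.IsPrime ∧ (∀ F ∈ q, eval (co T) F = 0) ∧
      (∀ T' : Fin 3 → Matrix n n k, (∀ F ∈ q, eval (co T') F = 0) → CN T' ∧ T' 0 = T 0) ∧
      (∀ F : MvPolynomial (Fin 3 × n × n) k,
        (∀ T' : Fin 3 → Matrix n n k, MaxR ρ T' → T' 0 = T 0 → eval (co T') g ≠ 0 →
          eval (co T') F = 0) → F ∈ q) ∧
      ((Module.finrank k (cen (T 0)) + Fintype.card n - 2 : ℕ) : WithBot ℕ∞) ≤
        ringKrullDim (MvPolynomial (Fin 3 × n × n) k ⧸ q) := by
  classical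
  obtain ⟨H, hH0, hH⟩ := nbhd0 hT hr
  obtain ⟨m, l, hdim, hl⟩ := exists_forms (T 0)
  let f : n × n → Fin 3 × n × n := fun s => (0, s.1, s.2)
  have hef : ∀ (T' : Fin 3 → Matrix n n k) (F : MvPolynomial (n × n) k),
      eval (co T') (rename f F) = eval (fun s => T' 0 s.1 s.2) F := by
    intro T' F
    rw [eval_rename]
    rfl
  have hcut := cut I (co T) hIT (fun j => rename f (lform (T 0) (l j)))
    (fun j => by rw [hef]; exact eval_lform _ _)
    (N := Module.finrank k (cen (T 0)) + Fintype.card n - 2) (by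
      refine le_trans (le_of_eq ?_) hId
      have h1 : Module.finrank k (cen (T 0)) + Fintype.card n - 2 + m =
          Fintype.card n * Fintype.card n + Fintype.card n - 2 := by omega
      rw [h1])
  obtain ⟨q, hq, hIq, hlq, hqT, hqd⟩ := hcut
  have hqC : ∀ T' : Fin 3 → Matrix n n k, (∀ F ∈ q, eval (co T') F = 0) → CN T' :=
    fun T' h => hIC T' fun F hF => h F (hIq hF)
  have hHq : H ∉ q := fun h => hH0 (hqT H h)
  have hgq : g ∉ q := fun h => hg (hqT g h)
  -- rank conditions on the first matrix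
  have hrank : ∀ F : MvPolynomial (n × n) k,
      (∀ A : Matrix n n k, (∀ i, (A ^ i).rank ≤ (T 0 ^ i).rank) →
        eval (fun x => A x.1 x.2) F = 0) → rename f F ∈ q := by
    intro F hF
    have h1 : H * rename f F ∈ q := by
      refine mem_of_zeros q fun x hx => ?_
      rw [← co_tr x] at hx ⊢
      rw [map_mul]
      by_cases hHx : eval (co (tr x)) H = 0
      · rw [hHx, zero_mul]
      · obtain ⟨-, h2⟩ := hH (tr x) hHx (hqC _ hx)
        rw [hef, hF (tr x 0) (fun i => by rw [h2, hr]), mul_zero]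
    exact (hq.mem_or_mem h1).resolve_left hHq
  -- the first matrix is constant
  have hfix : ∀ s : n × n, X (f s) - C (co T (f s)) ∈ q := by
    intro s
    refine isolated_point q (co T) hqT f ?_ s
    intro v hv
    have h1 : (Matrix.of fun x y => v (x, y) : Matrix n n k) = 0 := by
      refine hl _ (horb _ fun F hF => ?_) fun j => ?_
      · exact hv F (hrank F hF)
      · have h2 := hv (lform (T 0) (l j)) (hlq j)
        rw [← dlform (T 0) (Matrix.of fun x y => v (x, y)) (l j)]
        exact h2
    funext s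
    exact congrFun (congrFun h1 s.1) s.2
  refine ⟨q, hq, hqT, ?_, ?_, hqd⟩
  · intro T' hT'
    refine ⟨hqC T' hT', ?_⟩
    ext a b
    have h1 := hT' _ (hfix (a, b))
    rw [map_sub, eval_X, eval_C, sub_eq_zero] at h1
    exact h1
  · intro F hF
    have h1 : H * (g * F) ∈ q := by
      refine mem_of_zeros q fun x hx => ?_
      rw [← co_tr x] at hx ⊢
      rw [map_mul, map_mul]
      by_cases hHx : eval (co (tr x)) H = 0
      · rw [hHx, zero_mul]
      by_cases hgx : eval (co (tr x)) g = 0
      · rw [hgx, zero_mul, mul_zero]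
      have h2 : tr x 0 = T 0 := by
        ext a b
        have h1 := hx _ (hfix (a, b))
        rw [map_sub, eval_X, eval_C, sub_eq_zero] at h1
        exact h1
      rw [hF (tr x) (hH (tr x) hHx (hqC _ hx)).1 h2 hgx, mul_zero, mul_zero]
    exact (hq.mem_or_mem ((hq.mem_or_mem h1).resolve_left hHq)).resolve_left hgq

/-- the derivative at `x` in the direction `v` -/
noncomputable def dv {σ : Type*} [Fintype σ] (x v : σ → k) (F : MvPolynomial σ k) : k :=
  ∑ s, eval x (pderiv s F) * v s

omit [Fintype n] [DecidableEq n] in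
theorem dv_mul {σ : Type*} [Fintype σ] (x v : σ → k) (F G : MvPolynomial σ k) :
    dv x v (F * G) = dv x v F * eval x G + eval x F * dv x v G := by
  simp only [dv, Derivation.leibniz, smul_eq_mul, map_add, map_mul, add_mul, Finset.sum_mul,
    Finset.mul_sum, ← Finset.sum_add_distrib]
  exact Finset.sum_congr rfl fun s _ => by ring

omit [Fintype n] [DecidableEq n] in
theorem dv_sub {σ : Type*} [Fintype σ] (x v : σ → k) (F G : MvPolynomial σ k) :
    dv x v (F - G) = dv x v F - dv x v G := by
  simp only [dv, map_sub, sub_mul, ← Finset.sum_sub_distrib]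

omit [Fintype n] [DecidableEq n] in
theorem dv_sum {σ α : Type*} [Fintype σ] (x v : σ → k) (A : Finset α)
    (F : α → MvPolynomial σ k) : dv x v (∑ a ∈ A, F a) = ∑ a ∈ A, dv x v (F a) := by
  simp only [dv, map_sum, Finset.sum_mul]
  exact Finset.sum_comm

omit [Fintype n] [DecidableEq n] in
theorem dv_X {σ : Type*} [Fintype σ] (x v : σ → k) (s : σ) : dv x v (X s) = v s := by
  classical
  rw [dv, Finset.sum_eq_single s]
  · rw [pderiv_X_self, map_one, one_mul]
  · intro t _ hts
    rw [pderiv_X_of_ne (Ne.symm hts), map_zero, zero_mul]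
  · intro h
    exact absurd (Finset.mem_univ s) h

omit [Fintype n] [DecidableEq n] in
theorem dv_C {σ : Type*} [Fintype σ] (x v : σ → k) (a : k) : dv x v (C a) = 0 := by
  simp [dv]

/-- entries of the commutators -/
noncomputable def cmm (i j : Fin 3) (a b : n) : MvPolynomial (Fin 3 × n × n) k :=
  ∑ c, X (i, a, c) * X (j, c, b) - ∑ c, X (j, a, c) * X (i, c, b)

omit [DecidableEq n] in
theorem eval_cmm (T : Fin 3 → Matrix n n k) (i j : Fin 3) (a b : n) :
    eval (co T) (cmm i j a b) = (T i * T j - T j * T i) a b := by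
  rw [cmm, map_sub, map_sum, map_sum, Matrix.sub_apply, Matrix.mul_apply, Matrix.mul_apply]
  simp only [map_mul, eval_X]
  rfl

omit [DecidableEq n] in
theorem dv_cmm (T : Fin 3 → Matrix n n k) (v : Fin 3 × n × n → k) (i j : Fin 3) (a b : n) :
    dv (co T) v (cmm i j a b) =
      (tr v i * T j + T i * tr v j - (tr v j * T i + T j * tr v i)) a b := by
  rw [cmm, dv_sub, dv_sum, dv_sum, Matrix.sub_apply, Matrix.add_apply, Matrix.add_apply,
    Matrix.mul_apply, Matrix.mul_apply, Matrix.mul_apply, Matrix.mul_apply]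
  simp only [dv_mul, dv_X, eval_X, Finset.sum_add_distrib]
  rfl

/-- the tangent space bound -/
theorem use_of [IsAlgClosed k] {T : Fin 3 → Matrix n n k}
    (q : Ideal (MvPolynomial (Fin 3 × n × n) k)) [hq : q.IsPrime]
    (hqT : ∀ F ∈ q, eval (co T) F = 0)
    (hqC : ∀ T' : Fin 3 → Matrix n n k, (∀ F ∈ q, eval (co T') F = 0) → CN T' ∧ T' 0 = T 0)
    {κ : Type*} (F : κ → MvPolynomial (Fin 3 × n × n) k) (hF : ∀ j, F j ∈ q)
    (V : Submodule k (Matrix n n k × Matrix n n k))
    (hV : ∀ b c, T 0 * b = b * T 0 → T 0 * c = c * T 0 →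
      b * T 2 + T 1 * c = c * T 1 + T 2 * b → (∀ j, dif (F j) T b c = 0) → (b, c) ∈ V) :
    ringKrullDim (MvPolynomial (Fin 3 × n × n) k ⧸ q) ≤
      ((Module.finrank k V : ℕ) : WithBot ℕ∞) := by
  classical
  -- equations in `q`
  have hfix : ∀ a b, (X (0, a, b) - C (T 0 a b) : MvPolynomial (Fin 3 × n × n) k) ∈ q := by
    intro a b
    refine mem_of_zeros q fun x hx => ?_
    rw [← co_tr x] at hx ⊢
    rw [map_sub, eval_X, eval_C, sub_eq_zero]
    exact congrFun (congrFun (hqC _ hx).2 a) b
  have hcm : ∀ i j a b, cmm i j a b ∈ q := by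
    intro i j a b
    refine mem_of_zeros q fun x hx => ?_
    rw [← co_tr x] at hx ⊢
    rw [eval_cmm, ((hqC _ hx).1.1 i j), sub_self]
    rfl
  -- the embedding
  let E : Matrix n n k × Matrix n n k →ₗ[k] (Fin 3 × n × n → k) :=
    { toFun := fun p => co ![0, p.1, p.2]
      map_add' := by
        intro p q
        funext ⟨i, a, b⟩
        fin_cases i
        · show (0 : k) = 0 + 0
          rw [add_zero]
        · rfl
        · rfl
      map_smul' := by
        intro c p
        funext ⟨i, a, b⟩
        fin_cases i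
        · show (0 : k) = c * 0
          rw [mul_zero]
        · rfl
        · rfl }
  refine (tangent q (co T) hqT (V.map E) ?_).trans ?_
  · intro v hv
    have hv' : ∀ G ∈ q, dv (co T) v G = 0 := hv
    have h0 : tr v 0 = 0 := by
      ext a b
      have h1 := hv' _ (hfix a b)
      rw [dv_sub, dv_X, dv_C, sub_zero] at h1
      exact h1
    have hcomm : ∀ i j, tr v i * T j + T i * tr v j = tr v j * T i + T j * tr v i := by
      intro i j
      ext a b
      have h1 := hv' _ (hcm i j a b)
      rw [dv_cmm, Matrix.sub_apply, sub_eq_zero] at h1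
      exact h1
    have hve : v = E (tr v 1, tr v 2) := by
      funext ⟨i, a, b⟩
      fin_cases i
      · exact congrFun (congrFun h0 a) b
      · rfl
      · rfl
    rw [hve]
    refine ⟨_, hV (tr v 1) (tr v 2) ?_ ?_ ?_ ?_, rfl⟩
    · have h1 := hcomm 0 1
      rw [h0, zero_mul, zero_add, mul_zero, add_zero] at h1
      exact h1
    · have h1 := hcomm 0 2
      rw [h0, zero_mul, zero_add, mul_zero, add_zero] at h1
      exact h1
    · exact hcomm 1 2
    · intro j
      have h1 := hv' _ (hF j)
      rw [hve] at h1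
      exact h1
  · exact_mod_cast Submodule.finrank_map_le E V

end

end Pur

end Pool.Agent.Lib.D13
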