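import Pool.Agent.Lib.D13.PCl
import Pool.Agent.Lib.D13.GenTr

/-!
# MP_5dcbc3_ag: the closure of the triples `(A, p(A), q(A))` and specialisation
-/

set_option autoImplicit false

namespace Pool.Agent.Lib.D13

open Matrix MvPolynomial Pool.Agent.Lib.Q5dc Pool.Agent.Lib.D7

universe u v w

variable {k : Type u} {K : Type v} [Field k] [Field K] [Algebra k K]
  {n : Type w} [Fintype n] [DecidableEq n]

namespace SpzAux

open GenAux

/-- polynomials over `k` vanishing on the triples `(A, p(A), q(A))` over `k` vanish on those over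
`K` -/
theorem vanish_P [IsAlgClosed k] (F : MvPolynomial (Fin 3 × n × n) k)
    (hF : ∀ (A : Matrix n n k) (p q : Polynomial k),
      eval (co ![A, Polynomial.aeval A p, Polynomial.aeval A q]) F = 0)
    (A : Matrix n n K) (p q : Polynomial K) :
    aeval (co ![A, Polynomial.aeval A p, Polynomial.aeval A q]) F = 0 := by
  classical
  by_contra hne
  let C : Set K := (Set.range fun z : n × n => A z.1 z.2) ∪ ((p.coeffs : Set K) ∪ (q.coeffs : Set K))
  have hC : C.Finite := (Set.finite_range _).union
    ((Finset.finite_toSet _).union (Finset.finite_toSet _))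
  let S : Subalgebra k K := Algebra.adjoin k C
  have hS : S.FG := ⟨hC.toFinset, by rw [hC.coe_toFinset]⟩
  let v : S →ₐ[k] K := S.val
  let AS : Matrix n n S := Matrix.of fun i j =>
    ⟨A i j, Algebra.subset_adjoin (Or.inl ⟨(i, j), rfl⟩)⟩
  have hAS : (v : S →+* K).mapMatrix AS = A := by
    ext i j
    rfl
  have hl : ∀ r : Polynomial K, (r.coeffs : Set K) ⊆ C → ∃ r' : Polynomial S,
      r'.map (v : S →+* K) = r := by
    intro r hr
    have h1 : r ∈ Polynomial.lifts (v : S →+* K) := by
      rw [Polynomial.lifts_iff_coeff_lifts]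
      intro j
      by_cases hj : r.coeff j = 0
      · rw [hj]
        exact ⟨0, map_zero _⟩
      · exact ⟨⟨r.coeff j, Algebra.subset_adjoin (hr (Polynomial.coeff_mem_coeffs hj))⟩, rfl⟩
    exact (Polynomial.mem_lifts _).1 h1
  obtain ⟨p', hp'⟩ := hl p fun x hx => Or.inr (Or.inl hx)
  obtain ⟨q', hq'⟩ := hl q fun x hx => Or.inr (Or.inr hx)
  let U : Fin 3 → Matrix n n S := ![AS, Polynomial.aeval AS p', Polynomial.aeval AS q']
  have hU : ∀ i, (v : S →+* K).mapMatrix (U i) =
      (![A, Polynomial.aeval A p, Polynomial.aeval A q] : Fin 3 → Matrix n n K) i := by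
    intro i
    fin_cases i
    · exact hAS
    · show (v : S →+* K).mapMatrix (Polynomial.aeval AS p') = Polynomial.aeval A p
      rw [map_aevalM, hAS, hp']
    · show (v : S →+* K).mapMatrix (Polynomial.aeval AS q') = Polynomial.aeval A q
      rw [map_aevalM, hAS, hq']
  let g : S := aeval (fun z : Fin 3 × n × n => U z.1 z.2.1 z.2.2) F
  have hg : g ≠ 0 := by
    intro h0
    have h1 : v g = 0 := by rw [h0, map_zero]
    rw [map_aevalF] at h1
    have h4 : (fun z : Fin 3 × n × n => (v : S →+* K).mapMatrix (U z.1) z.2.1 z.2.2) =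
        co ![A, Polynomial.aeval A p, Polynomial.aeval A q] := by
      funext z
      rw [hU]
      rfl
    rw [h4] at h1
    exact hne h1
  obtain ⟨θ, hθ⟩ := exists_hom S hS g hg
  apply hθ
  rw [map_aevalF]
  have h5 := hF ((θ : S →+* k).mapMatrix AS) (p'.map (θ : S →+* k)) (q'.map (θ : S →+* k))
  rw [← map_aevalM, ← map_aevalM] at h5
  have h6 : (fun z : Fin 3 × n × n => (θ : S →+* k).mapMatrix (U z.1) z.2.1 z.2.2) =
      co ![(θ : S →+* k).mapMatrix AS, (θ : S →+* k).mapMatrix (Polynomial.aeval AS p'),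
        (θ : S →+* k).mapMatrix (Polynomial.aeval AS q')] := by
    funext z
    obtain ⟨i, a, b⟩ := z
    fin_cases i <;> rfl
  rw [h6]
  exact h5

/-- a bad triple over `K` gives a bad triple over `k` -/
theorem exists_bad [IsAlgClosed k] {T₁ : Fin 3 → Matrix n n K} (hc : CN T₁) (hn : ¬ Cl T₁) :
    ∃ T : Fin 3 → Matrix n n k, CN T ∧ ¬ Cl T := by
  obtain ⟨F, hF, hne⟩ : ∃ F : MvPolynomial (Fin 3 × n × n) k,
      (∀ T : Fin 3 → Matrix n n k, Curv T → eval (co T) F = 0) ∧ aeval (co T₁) F ≠ 0 := by
    by_contra hcon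
    push Not at hcon
    exact hn (cl_of_k T₁ hcon)
  let C' : Set K := Set.range (co T₁)
  have hC' : C'.Finite := Set.finite_range _
  let S : Subalgebra k K := Algebra.adjoin k C'
  have hS : S.FG := ⟨hC'.toFinset, by rw [hC'.coe_toFinset]⟩
  let v : S →ₐ[k] K := S.val
  have hv : Function.Injective v := Subtype.val_injective
  have hvM : Function.Injective ((v : S →+* K).mapMatrix : Matrix n n S →+* Matrix n n K) := by
    intro A B hAB
    ext i j
    exact congrArg (fun M => M i j) hAB
  let U : Fin 3 → Matrix n n S := fun i => Matrix.of fun a b =>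
    ⟨T₁ i a b, Algebra.subset_adjoin ⟨(i, a, b), rfl⟩⟩
  have hU : ∀ i, (v : S →+* K).mapMatrix (U i) = T₁ i := fun i => rfl
  let g : S := aeval (fun z : Fin 3 × n × n => U z.1 z.2.1 z.2.2) F
  have hg : g ≠ 0 := by
    intro h0
    have h1 : v g = 0 := by rw [h0, map_zero]
    rw [map_aevalF] at h1
    exact hne h1
  obtain ⟨θ, hθ⟩ := exists_hom S hS g hg
  rw [map_aevalF] at hθ
  have hcn : CN fun i => (θ : S →+* k).mapMatrix (U i) := by
    refine ⟨fun i j => ?_, fun i => ⟨Fintype.card n, ?_⟩⟩
    · have h1 : U i * U j = U j * U i := by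
        apply hvM
        rw [map_mul, map_mul, hU, hU]
        exact hc.1 i j
      rw [← map_mul, h1, map_mul]
    · have h1 : U i ^ Fintype.card n = 0 := by
        apply hvM
        rw [map_pow, hU, pow_card_eq_zero (hc.2 i), map_zero]
      rw [← map_pow, h1, map_zero]
  exact ⟨_, hcn, fun hcl => hθ (hcl F hF)⟩

end SpzAux

open SpzAux

/-- `PCl` passes to specialisations -/
theorem PCl.spz [IsAlgClosed k] {T : Fin 3 → Matrix n n k} {T' : Fin 3 → Matrix n n K}
    (hs : Spz T' T) (h : PCl T') : PCl T := by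
  intro F hF
  refine hs F ?_
  have h1 := h (F.map (algebraMap k K)) fun A p q => by
    rw [MvPolynomial.eval_map]
    exact vanish_P F hF A p q
  rw [MvPolynomial.eval_map] at h1
  exact h1

/-- the hypothesis of the induction over an extension field -/
theorem HALL.transfer [IsAlgClosed k] {d : ℕ} (h : HALL k d) : HALL K d := by
  intro r hr hrd T hT
  by_contra hn
  obtain ⟨T₀, h1, h2⟩ := exists_bad (k := k) hT hn
  exact h2 (h r hr hrd T₀ h1)

/-- a triple over `K` with two different joint eigenvalues -/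
theorem pcl_of_spz_split [IsAlgClosed k] [IsAlgClosed K] (hall : HALL k (Fintype.card n))
    {T : Fin 3 → Matrix n n k} {T' : Fin 3 → Matrix n n K} (hs : Spz T' T)
    (hc : ∀ i j, T' i * T' j = T' j * T' i) (h : Split T') : PCl T :=
  PCl.spz hs (pcl_of_split hall.transfer hc h)

end Pool.Agent.Lib.D13
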