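import Pool.Agent.Lib.D13.CntLMr
import Pool.Agent.Lib.D13.LL
import Pool.Agent.Lib.D13.LM4F
import Pool.Agent.Lib.D13.PurSpz
import Pool.Agent.Lib.D13.PurCut

/-!
# MP_5dcbc3_ag: the types `(4, 4, 1, 1)`, `(5, 4, 1, 1)`, `(6, 4, 1, 1)`, `(5, 5, 1, 1)`
-/

set_option autoImplicit false

namespace Pool.Agent.Lib.D13

namespace CntLM

open Matrix Pool.Agent.Lib.Q5dc Pool.Agent.Lib.D7 LM LL

universe u

section Shape

variable {K : Type*} [Field K] {l m : ℕ}

theorem BL_q (c b q : ℕ → K) (om pi th et : Fin 2 → K) :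
    BL l m 2 c b (fun i => if i = 0 then 0 else q i) om pi th et =
      BL l m 2 c b q om pi th et := by
  ext x y
  rcases x with x | x | x <;> rcases y with y | y | y <;> try rfl
  simp only [BL, Matrix.of_apply]
  split_ifs with h4 h5
  · omega
  · rfl
  · rfl

/-- the hypothesis on the shape for `m < l`: case I does not occur -/
def NoI (ρ : ℕ → ℕ) (l m : ℕ) (K : Type*) [Field K] : Prop :=
  ∀ (c b q : ℕ → K) (om pi th et : Fin 2 → K) (c' b' q' : ℕ → K) (om' pi' th' et' : Fin 2 → K),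
    MaxR ρ ![JL K l m 2, BL l m 2 c b q om pi th et, BL l m 2 c' b' q' om' pi' th' et'] →
    c 0 = 0 ∧ b 0 = 0 ∧ c' 0 = 0 ∧ b' 0 = 0

/-- the count for maximal bad triples over an extension field -/
theorem count_maxR {k : Type*} [Field k] [Algebra k K] [CharZero K] {ρ : ℕ → ℕ}
    {T : Fin 3 → Matrix (IL l m 2) (IL l m 2) K} (hlm : m ≤ l) (hm : 4 ≤ m) (hm' : m ≤ 5)
    (hT : MaxR ρ T) (hρ : ∀ i, ρ i = (JL K l m 2 ^ i).rank) (h0 : T 0 = JL K l m 2)
    (hI : m < l → NoI ρ l m K) :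
    rk k (Set.range (co T)) ≤ (2 * l + 4 * m + 11 : ℕ) := by
  have hA : JL K l m 2 ∈ adj T := by rw [← h0]; exact mem_adj T 0
  have h1 : ρ 1 ≤ (l - 1) + (m - 1) := by
    rw [hρ, pow_one]
    exact JL_rank
  have hS : ∀ a : ℕ → K, ∑ i ∈ Finset.range l, a i • JL K l m 2 ^ (i + 1) ∈ adj T := fun a =>
    sum_mem fun i _ => SMulMemClass.smul_mem _ (pow_mem_adj hA i)
  have hmem : ∀ {X B : Matrix (IL l m 2) (IL l m 2) K} {a : ℕ → K}, X ∈ adj T →
      X = ∑ i ∈ Finset.range l, a i • JL K l m 2 ^ (i + 1) + B → B ∈ adj T := by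
    intro X B a hX h
    have h2 : B = X - ∑ i ∈ Finset.range l, a i • JL K l m 2 ^ (i + 1) := by rw [h]; abel
    rw [h2]
    exact sub_mem hX (hS a)
  rcases Nat.lt_or_ge m l with h2 | h2
  · obtain ⟨a, c, b, q, om, pi, th, et, hX⟩ := shape_one hT h1 h2 (by omega) hA (mem_adj T 1)
    obtain ⟨a', c', b', q', om', pi', th', et', hX'⟩ :=
      shape_one hT h1 h2 (by omega) hA (mem_adj T 2)
    have m1 := hmem (mem_adj T 1) hX
    have m2 := hmem (mem_adj T 2) hX'
    have hM : MaxR ρ ![JL K l m 2, BL l m 2 c b q om pi th et,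
        BL l m 2 c' b' q' om' pi' th' et'] := by
      refine MaxR.change hT (hT.cn.of_adj fun i => ?_) fun i => ?_
      · fin_cases i
        exacts [hA, m1, m2]
      · have n0 := D8.mem0 (JL K l m 2) (BL l m 2 c b q om pi th et)
          (BL l m 2 c' b' q' om' pi' th' et')
        have n1 := D8.mem1 (JL K l m 2) (BL l m 2 c b q om pi th et)
          (BL l m 2 c' b' q' om' pi' th' et')
        have n2 := D8.mem2 (JL K l m 2) (BL l m 2 c b q om pi th et)
          (BL l m 2 c' b' q' om' pi' th' et')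
        fin_cases i
        · show T 0 ∈ _
          rw [h0]
          exact n0
        · show T 1 ∈ _
          rw [hX]
          exact add_mem (sum_mem fun i _ => SMulMemClass.smul_mem _ (pow_mem_adj n0 i)) n1
        · show T 2 ∈ _
          rw [hX']
          exact add_mem (sum_mem fun i _ => SMulMemClass.smul_mem _ (pow_mem_adj n0 i)) n2
    obtain ⟨c0, b0, c0', b0'⟩ := hI h2 _ _ _ _ _ _ _ _ _ _ _ _ _ _ hM
    rw [← BL_q] at hX hX' m1 m2
    exact count_triple hlm hm hm' c0 b0 (if_pos rfl) c0' b0' (if_pos rfl) h0 hX hX'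
      (hT.cn.comm m1 m2)
  · obtain rfl : m = l := le_antisymm hlm h2
    have hl0 : ρ m = 0 := by
      rw [hρ, JL_pow le_rfl (by omega), rank_zero]
    obtain ⟨a, c, b, q, om, pi, th, et, c0, b0, q0, hX⟩ :=
      LL_one hT h1 hl0 (by omega) hA (mem_adj T 1)
    obtain ⟨a', c', b', q', om', pi', th', et', c0', b0', q0', hX'⟩ :=
      LL_one hT h1 hl0 (by omega) hA (mem_adj T 2)
    exact count_triple hlm hm hm' c0 b0 q0 c0' b0' q0' h0 hX hX'
      (hT.cn.comm (hmem (mem_adj T 1) hX) (hmem (mem_adj T 2) hX'))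

end Shape

variable {k : Type u} [Field k]

/-- a generic point of a large family with the same first matrix, over an extension field -/
def Gen {n : Type} [Fintype n] [DecidableEq n] (T : Fin 3 → Matrix n n k) : Prop :=
  ∃ (K : Type u) (_ : Field K) (_ : IsAlgClosed K) (_ : Algebra k K)
    (T' : Fin 3 → Matrix n n K), CN T' ∧ T' 0 = (T 0).map (algebraMap k K) ∧ Spz T' T ∧
      ((Module.finrank k (Pur.cen (T 0)) + Fintype.card n - 2 : ℕ) : ℕ∞) ≤
        rk k (Set.range (co T'))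

theorem JL_map {K : Type*} [Field K] [Algebra k K] (l m p : ℕ) :
    (JL k l m p).map (algebraMap k K) = JL K l m p := by
  ext x y
  rcases x with x | x | x <;> rcases y with y | y | y <;>
    simp [JL, apply_ite (algebraMap k K)]

/-- **the row**: a maximal bad triple has no generic point as in the purity theorem -/
theorem no_gen [IsAlgClosed k] [CharZero k] {l m : ℕ} {ρ : ℕ → ℕ} (hlm : m ≤ l) (hm : 4 ≤ m)
    (hm' : m ≤ 5) {T : Fin 3 → Matrix (IL l m 2) (IL l m 2) k} (hT : MaxR ρ T)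
    (hρ : ∀ i, ρ i = (JL k l m 2 ^ i).rank) (h0 : T 0 = JL k l m 2)
    (hI : m < l → ∀ (K : Type u) [Field K] [IsAlgClosed K] [CharZero K] [Algebra k K],
      (∀ i, ρ i = (JL K l m 2 ^ i).rank) → NoI ρ l m K)
    (hg : Gen T) : False := by
  obtain ⟨K, _, _, _, T', hcn, hT0, hsp, hrk⟩ := hg
  have hK : CharZero K := charZero_of_injective_algebraMap (algebraMap k K).injective
  have hM : MaxR ρ T' := MaxR.transfer hT hsp hcn
  have h1 : T' 0 = JL K l m 2 := by
    rw [hT0, h0, JL_map]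
  have h2 : ∀ i, ρ i = (JL K l m 2 ^ i).rank := by
    intro i
    rw [← h1]
    have h3 : T' 0 ^ i = (algebraMap k K).mapMatrix (T 0 ^ i) := by
      rw [hT0, map_pow]
      rfl
    refine le_antisymm ?_ (hM.rank_le (mem_adj T' 0) i)
    obtain ⟨r, hr, hr'⟩ := GenAux.exists_rank (T 0 ^ i) (RingHom.id k)
    have h4 := hr' (algebraMap k K) (by simpa using hr)
    rw [h3, hρ i, ← h0]
    simpa using h4
  have h3 := count_maxR (k := k) hlm hm hm' hM h2 h1 fun hl => hI hl K h2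
  have h4 := hrk.trans h3
  have h5 := finrank_cen_ge hlm (by omega) (Pur.cen (T 0)) (fun M hM' => by
    rw [← h0] at hM'
    exact hM')
  have h6 : Module.finrank k (Pur.cen (T 0)) + Fintype.card (IL l m 2) - 2 ≤
      2 * l + 4 * m + 11 := by exact_mod_cast h4
  simp only [Fintype.card_sum, Fintype.card_fin] at h6
  omega

theorem noI_of {K : Type*} [Field K] {ρ : ℕ → ℕ} {l m : ℕ}
    (h : ∀ (c b q : ℕ → K) (om pi th et : Fin 2 → K) (c' b' q' : ℕ → K)
      (om' pi' th' et' : Fin 2 → K),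
      MaxR ρ ![JL K l m 2, BL l m 2 c b q om pi th et, BL l m 2 c' b' q' om' pi' th' et'] →
      (c 0 ≠ 0 ∨ b 0 ≠ 0 ∨ c' 0 ≠ 0 ∨ b' 0 ≠ 0) → False) : NoI ρ l m K := by
  intro c b q om pi th et c' b' q' om' pi' th' et' hM
  by_contra hcon
  refine h _ _ _ _ _ _ _ _ _ _ _ _ _ _ hM ?_
  by_contra h2
  push Not at h2
  exact hcon h2

/-- type `(4, 4, 1, 1)` -/
theorem no_44 [IsAlgClosed k] [CharZero k] {ρ : ℕ → ℕ} {T : Fin 3 → Matrix (IL 4 4 2) (IL 4 4 2) k}
    (hT : MaxR ρ T) (hρ : ∀ i, ρ i = (JL k 4 4 2 ^ i).rank) (h0 : T 0 = JL k 4 4 2)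
    (hg : Gen T) : False :=
  no_gen le_rfl (by omega) (by omega) hT hρ h0 (fun h => absurd h (lt_irrefl _)) hg

/-- type `(5, 5, 1, 1)` -/
theorem no_55 [IsAlgClosed k] [CharZero k] {ρ : ℕ → ℕ} {T : Fin 3 → Matrix (IL 5 5 2) (IL 5 5 2) k}
    (hT : MaxR ρ T) (hρ : ∀ i, ρ i = (JL k 5 5 2 ^ i).rank) (h0 : T 0 = JL k 5 5 2)
    (hg : Gen T) : False :=
  no_gen le_rfl (by omega) (by omega) hT hρ h0 (fun h => absurd h (lt_irrefl _)) hg

/-- type `(5, 4, 1, 1)` -/
theorem no_54 [IsAlgClosed k] [CharZero k] {ρ : ℕ → ℕ} {T : Fin 3 → Matrix (IL 5 4 2) (IL 5 4 2) k}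
    (hT : MaxR ρ T) (hρ : ∀ i, ρ i = (JL k 5 4 2 ^ i).rank) (h0 : T 0 = JL k 5 4 2)
    (hg : Gen T) : False := by
  refine no_gen (by omega) (by omega) (by omega) hT hρ h0 (fun _ K _ _ _ _ h => ?_) hg
  have : Infinite K := IsAlgClosed.instInfinite
  exact noI_of fun c b q om pi th et c' b' q' om' pi' th' et' hM hc => caseI_54 h hM hc

theorem cl_hall {n : Type*} [Fintype n] [DecidableEq n] {d : ℕ} {K : Type*} [Field K]
    (hall : HALL K d) (h1 : 0 < Fintype.card n) (h2 : Fintype.card n < d)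
    {T : Fin 3 → Matrix n n K} (hT : CN T) : Cl T :=
  D9.BlkMapAux.cl_reindex (Fintype.equivFin n)
    (hall _ h1 h2 _ (D9.BlkMapAux.cn_reindex (Fintype.equivFin n) hT))

/-- type `(6, 4, 1, 1)` -/
theorem no_64 [IsAlgClosed k] [CharZero k] {ρ : ℕ → ℕ} {T : Fin 3 → Matrix (IL 6 4 2) (IL 6 4 2) k}
    (hall : HALL k 12)
    (hT : MaxR ρ T) (hρ : ∀ i, ρ i = (JL k 6 4 2 ^ i).rank) (h0 : T 0 = JL k 6 4 2)
    (hg : Gen T) : False := by
  refine no_gen (by omega) (by omega) (by omega) hT hρ h0 (fun _ K _ _ _ _ h => ?_) hg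
  refine noI_of fun c b q om pi th et c' b' q' om' pi' th' et' hM hc => caseI_64 h ?_ hM hc
  exact fun T hT => cl_hall (HALL.transfer (K := K) hall) (by simp) (by simp) hT

end CntLM

end Pool.Agent.Lib.D13
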