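import Pool.Agent.Lib.D13.CntLMf
import Pool.Agent.Lib.D13.Auto
import Pool.Agent.Lib.D13.Frame

/-!
# MP_5dcbc3_ag: the types `(4, 4, 1, 1)`, `(5, 4, 1, 1)`, `(6, 4, 1, 1)`, `(5, 5, 1, 1)` are not bad
-/

set_option autoImplicit false

namespace Pool.Agent.Lib.D13

open Matrix Pool.Agent.Lib.Q5dc Pool.Agent.Lib.D7 LM

namespace CntLM

variable {k : Type*} [Field k]

theorem rank_JL (k : Type*) [Field k] (l m p : ℕ) : (l - 1) + (m - 1) ≤ (JL k l m p).rank := by
  let f : Fin (l - 1) ⊕ Fin (m - 1) → IL l m p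
    | .inl i => .inl ⟨i + 1, by omega⟩
    | .inr i => .inr (.inl ⟨i + 1, by omega⟩)
  let g : Fin (l - 1) ⊕ Fin (m - 1) → IL l m p
    | .inl i => .inl ⟨i, by omega⟩
    | .inr i => .inr (.inl ⟨i, by omega⟩)
  have h1 : (JL k l m p).submatrix f g = 1 := by
    ext i j
    rcases i with i | i <;> rcases j with j | j <;>
      simp [f, g, JL, Matrix.one_apply, Fin.ext_iff]
  have e : (JL k l m p).submatrix f g = (1 : Matrix (IL l m p) (IL l m p) k).submatrix f id *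
      (JL k l m p * (1 : Matrix (IL l m p) (IL l m p) k).submatrix id g) := by
    ext i j
    simp [Matrix.mul_apply, Matrix.one_apply]
  have h2 : ((JL k l m p).submatrix f g).rank = (l - 1) + (m - 1) := by
    rw [h1, rank_one, Fintype.card_sum, Fintype.card_fin, Fintype.card_fin]
  rw [← h2, e]
  exact (rank_mul_le_right _ _).trans (rank_mul_le_left _ _)

end CntLM

open CntLM

universe u

variable {k : Type u} [Field k] [IsAlgClosed k] [CharZero k]

theorem gen_JL {l m : ℕ} (hl : 1 ≤ l) (hm : 1 ≤ m) (hlm : 6 ≤ l + m)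
    (hall : HALL k (Fintype.card (IL l m 2)))
    {ρ : ℕ → ℕ} {T : Fin 3 → Matrix (IL l m 2) (IL l m 2) k} (hT : MaxR ρ T)
    (hρ : ∀ i, ρ i = (JL k l m 2 ^ i).rank) (h0 : T 0 = JL k l m 2) : Gen T := by
  have hc : Fintype.card (IL l m 2) = l + (m + 2) := by
    simp only [Fintype.card_sum, Fintype.card_fin]
  have h1 := rank_JL k l m 2
  obtain ⟨K, i1, i2, _, i3, T', h2, h3, h4, h5⟩ := auto_maxR hall hT
    (fun i => by rw [h0, hρ]) (by omega) (by rw [hρ, pow_one]; omega)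
  exact ⟨K, i1, i2, i3, T', h2.cn, h3, h4, h5⟩

theorem not_bad_4411 (hall : HALL k 10) : ¬ Bad k [4, 4, 1, 1] := by
  have : Infinite k := IsAlgClosed.instInfinite
  refine not_bad_of (JL k 4 4 2)
    (Sum.elim (fun i => ⟨0, i⟩) (Sum.elim (fun i => ⟨1, i⟩) ![⟨2, (0 : Fin 1)⟩, ⟨3, (0 : Fin 1)⟩]))
    (by decide) (by decide) ?_ fun ρ T hT hρ h0 => no_44 hT hρ h0
      (gen_JL (by omega) (by omega) (by omega) hall hT hρ h0)
  rintro (i | i | i) (j | j | j) <;> fin_cases i <;> fin_cases j <;> rfl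

theorem not_bad_5411 (hall : HALL k 11) : ¬ Bad k [5, 4, 1, 1] := by
  have : Infinite k := IsAlgClosed.instInfinite
  refine not_bad_of (JL k 5 4 2)
    (Sum.elim (fun i => ⟨0, i⟩) (Sum.elim (fun i => ⟨1, i⟩) ![⟨2, (0 : Fin 1)⟩, ⟨3, (0 : Fin 1)⟩]))
    (by decide) (by decide) ?_ fun ρ T hT hρ h0 => no_54 hT hρ h0
      (gen_JL (by omega) (by omega) (by omega) hall hT hρ h0)
  rintro (i | i | i) (j | j | j) <;> fin_cases i <;> fin_cases j <;> rfl

theorem not_bad_6411 (hall : HALL k 12) : ¬ Bad k [6, 4, 1, 1] := by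
  have : Infinite k := IsAlgClosed.instInfinite
  refine not_bad_of (JL k 6 4 2)
    (Sum.elim (fun i => ⟨0, i⟩) (Sum.elim (fun i => ⟨1, i⟩) ![⟨2, (0 : Fin 1)⟩, ⟨3, (0 : Fin 1)⟩]))
    (by decide) (by decide) ?_ fun ρ T hT hρ h0 => no_64 hall hT hρ h0
      (gen_JL (by omega) (by omega) (by omega) hall hT hρ h0)
  rintro (i | i | i) (j | j | j) <;> fin_cases i <;> fin_cases j <;> rfl

theorem not_bad_5511 (hall : HALL k 12) : ¬ Bad k [5, 5, 1, 1] := by
  have : Infinite k := IsAlgClosed.instInfinite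
  refine not_bad_of (JL k 5 5 2)
    (Sum.elim (fun i => ⟨0, i⟩) (Sum.elim (fun i => ⟨1, i⟩) ![⟨2, (0 : Fin 1)⟩, ⟨3, (0 : Fin 1)⟩]))
    (by decide) (by decide) ?_ fun ρ T hT hρ h0 => no_55 hT hρ h0
      (gen_JL (by omega) (by omega) (by omega) hall hT hρ h0)
  rintro (i | i | i) (j | j | j) <;> fin_cases i <;> fin_cases j <;> rfl

end Pool.Agent.Lib.D13
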