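import Pool.Agent.Lib.D13.LMb

/-!
# MP_5dcbc3_ag: the dimension of the centralizer of the Jordan matrix of type `(l, m, 1, 1)`
-/

namespace Pool.Agent.Lib.D13.CntLM

open Matrix Pool.Agent.Lib.Q5dc Pool.Agent.Lib.D7 LM

variable {k : Type*} [Field k] {l m p : ℕ}
variable (c b q : ℕ → k) (om pi th et : Fin p → k)

/-- `BL` commutes with `JL` -/
theorem BL_comm' (h : m ≤ l) (hm : 2 ≤ m) :
    JL k l m p * BL l m p c b q om pi th et = BL l m p c b q om pi th et * JL k l m p := by
  refine ext_vup (fun j _ => ?_) (fun j _ => ?_) fun f => ?_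
  · rw [← mulVec_mulVec, ← mulVec_mulVec, JL_vv, BL_vv _ _ _ _ _ _ _ h (by omega),
      BL_vv _ _ _ _ _ _ _ h (by omega), mulVec_add, Matrix.mulVec_sum]
    simp only [mulVec_smul, JL_uu]
    have h1 : JL k l m p *ᵥ (if j = 0 then pp om else 0 : IL l m p → k) = 0 := by
      split_ifs
      · exact JL_pp _
      · exact mulVec_zero _
    rw [h1, if_neg (by omega)]
    congr 1
    refine Finset.sum_congr rfl fun a _ => ?_
    rw [show j + a + 1 = j + 1 + a by omega]
  · rw [← mulVec_mulVec, ← mulVec_mulVec, JL_uu, BL_uu _ _ _ _ _ _ _ h (by omega),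
      BL_uu _ _ _ _ _ _ _ h (by omega), mulVec_add, mulVec_add, Matrix.mulVec_sum,
      Matrix.mulVec_sum]
    simp only [mulVec_smul, JL_uu, JL_vv]
    have h1 : JL k l m p *ᵥ (if j = 0 then pp pi else 0 : IL l m p → k) = 0 := by
      split_ifs
      · exact JL_pp _
      · exact mulVec_zero _
    rw [h1, if_neg (by omega)]
    congr 1
    congr 1
    · refine Finset.sum_congr rfl fun a _ => ?_
      rw [show l - m + j + a + 1 = l - m + (j + 1) + a by omega]
    · refine Finset.sum_congr rfl fun a _ => ?_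
      rw [show j + a + 1 = j + 1 + a by omega]
  · rw [← mulVec_mulVec, ← mulVec_mulVec, JL_pp, mulVec_zero,
      BL_pp _ _ _ _ _ _ _ (by omega) (by omega), mulVec_add, mulVec_smul, mulVec_smul, JL_uu,
      JL_vv, vv_ge (by omega), uu_ge (by omega), smul_zero, smul_zero, add_zero]



/-- diagonal part on `u`, arbitrary part on `P` -/
def EK (l m p : ℕ) (s : k) (κ : Fin p → Fin p → k) : Matrix (IL l m p) (IL l m p) k :=
  Matrix.of fun i j => match i, j with
    | .inr (.inl i), .inr (.inl j) => if i = j then s else 0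
    | .inr (.inr a), .inr (.inr b) => κ a b
    | _, _ => 0

theorem EK_comm (m p : ℕ) (s : k) (κ : Fin p → Fin p → k) :
    JL k l m p * EK l m p s κ = EK l m p s κ * JL k l m p := by
  have e1 : ∀ j, EK l m p s κ *ᵥ vv j = 0 := by
    intro j
    rcases Nat.lt_or_ge j l with h | h
    · have h1 := mulVec_vv (EK l m p s κ) ⟨j, h⟩
      rw [show ((⟨j, h⟩ : Fin l) : ℕ) = j from rfl] at h1
      rw [h1]
      funext x
      rcases x with x | x | x <;> rfl
    · rw [vv_ge h, mulVec_zero]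
  have e2 : ∀ j, EK l m p s κ *ᵥ uu j = s • uu j := by
    intro j
    rcases Nat.lt_or_ge j m with h | h
    · have h1 := mulVec_uu (EK l m p s κ) ⟨j, h⟩
      rw [show ((⟨j, h⟩ : Fin m) : ℕ) = j from rfl] at h1
      rw [h1]
      funext x
      rcases x with x | x | x <;> simp [EK, uu, Fin.ext_iff]
    · rw [uu_ge h, mulVec_zero, smul_zero]
  have e3 : ∀ f, EK l m p s κ *ᵥ pp f = pp (fun a => ∑ b, κ a b * f b) := by
    intro f
    rw [mulVec_pp]
    funext x
    rcases x with x | x | x <;> simp [EK, pp]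
  refine ext_vup (fun j _ => ?_) (fun j _ => ?_) fun f => ?_
  · rw [← mulVec_mulVec, ← mulVec_mulVec, e1, JL_vv, e1, mulVec_zero]
  · rw [← mulVec_mulVec, ← mulVec_mulVec, e2, JL_uu, e2, mulVec_smul, JL_uu]
  · rw [← mulVec_mulVec, ← mulVec_mulVec, e3, JL_pp, JL_pp, mulVec_zero]

theorem entry_v0 (M : Matrix (IL l m p) (IL l m p) k) (h : 0 < l) (x : IL l m p) :
    M x (.inl ⟨0, h⟩) = (M *ᵥ vv 0) x := by
  rw [mulVec_v0 M h]

/-- a finite sequence -/
def sq (c : Fin m → k) : ℕ → k := fun a => if h : a < m then c ⟨a, h⟩ else 0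

theorem sq_add (c c' : Fin m → k) : sq (c + c') = sq c + sq c' := by
  funext a
  simp only [sq, Pi.add_apply]
  split_ifs <;> simp

theorem sq_smul (s : k) (c : Fin m → k) : sq (s • c) = s • sq c := by
  funext a
  simp only [sq, Pi.smul_apply]
  split_ifs <;> simp

/-- parameters -/
abbrev W2 (l m : ℕ) (k : Type*) : Type _ :=
  (Fin l → k) × (Fin 3 → Fin m → k) × (Fin 4 → Fin 2 → k) × (Fin 2 → Fin 2 → k)

/-- the matrices commuting with `JL` -/
def Cm {m : ℕ} (hm : 2 ≤ m) (l : ℕ) (k : Type*) [Field k] : W2 l m k →ₗ[k] Matrix (IL l m 2) (IL l m 2) k where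
  toFun w := ∑ i, w.1 i • JL k l m 2 ^ (i : ℕ) +
    BL l m 2 (sq (w.2.1 0)) (sq (w.2.1 1)) (sq (w.2.1 2)) (w.2.2.1 0) (w.2.2.1 1) (w.2.2.1 2)
      (w.2.2.1 3) + EK l m 2 (w.2.1 2 ⟨0, by omega⟩) w.2.2.2
  map_add' v w := by
    have h1 : EK l m 2 ((v + w).2.1 2 ⟨0, by omega⟩) (v + w).2.2.2 =
        EK l m 2 (v.2.1 2 ⟨0, by omega⟩) v.2.2.2 + EK l m 2 (w.2.1 2 ⟨0, by omega⟩) w.2.2.2 := by
      ext x y
      rcases x with x | x | x <;> rcases y with y | y | y <;> simp [EK]
      split_ifs <;> simp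
    rw [h1]
    simp only [Prod.fst_add, Pi.add_apply, add_smul, Finset.sum_add_distrib, Prod.snd_add,
      ← BL_add, sq_add]
    abel
  map_smul' s w := by
    have h1 : EK l m 2 ((s • w).2.1 2 ⟨0, by omega⟩) (s • w).2.2.2 = s • EK l m 2 (w.2.1 2 ⟨0, by omega⟩) w.2.2.2 := by
      ext x y
      rcases x with x | x | x <;> rcases y with y | y | y <;> simp [EK]
    rw [h1]
    simp only [Prod.smul_fst, Pi.smul_apply, Prod.smul_snd, smul_eq_mul, RingHom.id_apply,
      smul_add, Finset.smul_sum, smul_smul, ← BL_smul, sq_smul]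

theorem Cm_comm (h : m ≤ l) (hm : 2 ≤ m) (w : W2 l m k) : JL k l m 2 * Cm hm l k w = Cm hm l k w * JL k l m 2 := by
  show JL k l m 2 * (_ + _ + _) = (_ + _ + _) * JL k l m 2
  rw [mul_add, mul_add, add_mul, add_mul, BL_comm' _ _ _ _ _ _ _ h hm, EK_comm,
    Finset.mul_sum, Finset.sum_mul]
  congr 2
  refine Finset.sum_congr rfl fun i _ => ?_
  rw [mul_smul_comm, smul_mul_assoc, ← pow_succ', ← pow_succ]

theorem Cm_inj (h : m ≤ l) (hm : 2 ≤ m) : Function.Injective (Cm hm l k) := by
  rw [← LinearMap.ker_eq_bot, LinearMap.ker_eq_bot']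
  rintro ⟨a, c, r, κ⟩ hw
  have hE : ∀ x y, (Cm hm l k (a, c, r, κ)) x y = 0 := by
    intro x y
    rw [hw]
    rfl
  have hC : ∀ x y, (Cm hm l k (a, c, r, κ)) x y = ∑ i, a i * (JL k l m 2 ^ (i : ℕ)) x y +
      BL l m 2 (sq (c 0)) (sq (c 1)) (sq (c 2)) (r 0) (r 1) (r 2) (r 3) x y +
      EK l m 2 (c 2 ⟨0, by omega⟩) κ x y := by
    intro x y
    show (_ + _ + _ : Matrix (IL l m 2) (IL l m 2) k) x y = _
    rw [Matrix.add_apply, Matrix.add_apply, Matrix.sum_apply]
    rfl
  have ha : a = 0 := by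
    funext i
    have h1 := hE (.inl i) (.inl ⟨0, by omega⟩)
    rw [hC, Finset.sum_eq_single i] at h1
    · rw [entry_v0 (JL k l m 2 ^ (i : ℕ)), JL_pow_vv] at h1
      simpa [vv, BL, EK] using h1
    · intro j _ hj
      rw [entry_v0 (JL k l m 2 ^ (j : ℕ)), JL_pow_vv]
      simp only [vv, zero_add]
      rw [if_neg, mul_zero]
      intro h2
      exact hj (Fin.ext h2.symm)
    · intro h2
      exact absurd (Finset.mem_univ _) h2
  subst ha
  simp only [Pi.zero_apply, zero_mul, Finset.sum_const_zero, zero_add] at hC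
  have hc0 : c 0 = 0 := by
    funext x
    have h1 := hE (.inr (.inl x)) (.inl ⟨0, by omega⟩)
    rw [hC] at h1
    simpa [BL, EK, sq] using h1
  have hc1 : c 1 = 0 := by
    funext x
    have h1 := hE (.inl ⟨l - m + x, by omega⟩) (.inr (.inl ⟨0, by omega⟩))
    rw [hC] at h1
    simpa [BL, EK, sq] using h1
  have hm0 : 0 < m := by omega
  have hc2 : c 2 = 0 := by
    funext x
    have h1 := hE (.inr (.inl x)) (.inr (.inl ⟨0, by omega⟩))
    rw [hC] at h1
    rcases Nat.eq_zero_or_pos (x : ℕ) with h2 | h2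
    · have h3 : x = ⟨0, hm0⟩ := Fin.ext h2
      subst h3
      simpa [BL, EK, sq] using h1
    · simp only [BL, EK, Matrix.of_apply] at h1
      rw [if_pos h2, if_neg (by
        intro h3
        have h4 := congrArg Fin.val h3
        simp only at h4
        omega), add_zero] at h1
      simpa [sq] using h1
  have hr0 : r 0 = 0 := by
    funext x
    have h1 := hE (.inr (.inr x)) (.inl ⟨0, by omega⟩)
    rw [hC] at h1
    simpa [BL, EK, sq] using h1
  have hr1 : r 1 = 0 := by
    funext x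
    have h1 := hE (.inr (.inr x)) (.inr (.inl ⟨0, by omega⟩))
    rw [hC] at h1
    simpa [BL, EK, sq] using h1
  have hr2 : r 2 = 0 := by
    funext x
    have h1 := hE (.inl ⟨l - 1, by omega⟩) (.inr (.inr x))
    rw [hC] at h1
    have h2 : l - 1 + 1 = l := by omega
    simpa [BL, EK, sq, h2] using h1
  have hr3 : r 3 = 0 := by
    funext x
    have h1 := hE (.inr (.inl ⟨m - 1, by omega⟩)) (.inr (.inr x))
    have h2 : m - 1 + 1 = m := by omega
    rw [hC] at h1
    simpa [BL, EK, sq, h2] using h1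
  have hκ : κ = 0 := by
    funext x y
    have h1 := hE (.inr (.inr x)) (.inr (.inr y))
    rw [hC] at h1
    simpa [BL, EK, sq] using h1
  have hc : c = 0 := by
    funext i
    fin_cases i
    · exact hc0
    · exact hc1
    · exact hc2
  have hr : r = 0 := by
    funext i
    fin_cases i
    · exact hr0
    · exact hr1
    · exact hr2
    · exact hr3
  rw [hc, hr, hκ]
  rfl


/-- a lower bound for the dimension of the centralizer -/
theorem finrank_cen_ge (h : m ≤ l) (hm : 2 ≤ m) (P : Submodule k (Matrix (IL l m 2) (IL l m 2) k))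
    (hP : ∀ X, JL k l m 2 * X = X * JL k l m 2 → X ∈ P) : l + 3 * m + 12 ≤ Module.finrank k P := by
  have h1 := LinearMap.finrank_le_finrank_of_injective
    (f := (Cm hm l k).codRestrict P fun w => hP _ (Cm_comm h hm w))
    (fun v w hvw => Cm_inj h hm (congrArg Subtype.val hvw))
  have h2 : Module.finrank k (W2 l m k) = l + 3 * m + 12 := by
    simp only [Module.finrank_prod, Module.finrank_pi, Module.finrank_pi_fintype,
      Fintype.card_fin, Finset.sum_const, Finset.card_univ, smul_eq_mul]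
    omega
  omega



end Pool.Agent.Lib.D13.CntLM
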