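import Pool.Agent.Lib.D13.CntLM
import Pool.Agent.Lib.D13.CntLMz
import Pool.Agent.Lib.D13.GenTr

/-!
# MP_5dcbc3_ag: counting the parameters of commuting pairs of type `(l, m, 1, 1)`, `m = 4, 5`
-/

set_option autoImplicit false

namespace Pool.Agent.Lib.D13

namespace CntLM

open Matrix Finset Pool.Agent.Lib.Q5dc Pool.Agent.Lib.D7 LM

section Rel

variable {K : Type*} [Field K] {l m : ℕ}

/-- the convolution -/
def cv (x y : ℕ → K) (e : ℕ) : K := ∑ p ∈ antidiagonal e, x p.1 * y p.2

theorem cv_comm (x y : ℕ → K) (e : ℕ) : cv x y e = cv y x e := by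
  rw [cv, cv, ← Finset.Nat.sum_antidiagonal_swap]
  exact Finset.sum_congr rfl fun p _ => mul_comm _ _

theorem sum_cv (x y : ℕ → K) {n e : ℕ} (he : e < n) :
    ∑ j : Fin n, (if (j : ℕ) ≤ e then x (e - j) else 0) * y j = cv x y e := by
  rw [Fin.sum_univ_eq_sum_range (fun j => (if j ≤ e then x (e - j) else 0) * y j) n, cv_comm, cv,
    Finset.Nat.sum_antidiagonal_eq_sum_range_succ_mk,
    ← Finset.sum_subset (Finset.range_mono (show e + 1 ≤ n by omega))]
  · refine Finset.sum_congr rfl fun j hj => ?_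
    rw [Finset.mem_range] at hj
    simp only
    rw [if_pos (by omega), mul_comm]
  · intro j _ hj
    rw [Finset.mem_range] at hj
    rw [if_neg (by omega), zero_mul]

/-- the shifted convolution -/
theorem sum_cv_shift (x y : ℕ → K) {n e d : ℕ} (he : e + d < n) :
    ∑ j : Fin n, (if (j : ℕ) ≤ e + d then x (e + d - j) else 0) *
      (if d ≤ (j : ℕ) then y (j - d) else 0) = cv x y e := by
  rw [sum_cv x (fun j => if d ≤ j then y (j - d) else 0) he, cv, cv]
  rw [Finset.Nat.sum_antidiagonal_eq_sum_range_succ_mk, Finset.Nat.sum_antidiagonal_eq_sum_range_succ_mk]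
  simp only
  rw [← Finset.sum_subset (Finset.range_mono (show e + 1 ≤ e + d + 1 by omega))]
  · refine Finset.sum_congr rfl fun j hj => ?_
    rw [Finset.mem_range] at hj
    rw [if_pos (by omega)]
    congr 2
    omega
  · intro j hj hj'
    rw [Finset.mem_range] at hj hj'
    rw [if_neg (by omega), mul_zero]

variable {c b q c' b' q' : ℕ → K} {om pi th et om' pi' th' et' : Fin 2 → K}

theorem ent_vv (h : m ≤ l) {e : ℕ} (he : e < m) :
    (BL l m 2 c b q om pi th et * BL l m 2 c' b' q' om' pi' th' et')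
      (.inl ⟨l - m + e, by omega⟩) (.inl ⟨0, by omega⟩) =
      cv b c' e + if e + 1 = m then th 0 * om' 0 + th 1 * om' 1 else 0 := by
  rw [Matrix.mul_apply, Fintype.sum_sum_type, Fintype.sum_sum_type, ← sum_cv b c' he]
  have h1 : ∑ x : Fin l, BL l m 2 c b q om pi th et (.inl ⟨l - m + e, by omega⟩) (.inl x) *
      BL l m 2 c' b' q' om' pi' th' et' (.inl x) (.inl ⟨0, by omega⟩) = 0 :=
    Finset.sum_eq_zero fun x _ => zero_mul _
  rw [h1, zero_add]
  congr 1
  · refine Finset.sum_congr rfl fun x _ => ?_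
    simp only [BL, Matrix.of_apply]
    rw [if_pos (Nat.zero_le _)]
    by_cases h2 : (x : ℕ) ≤ e
    · rw [if_pos (by omega), if_pos h2]
      congr 2
      omega
    · rw [if_neg (by omega), if_neg h2]
      rfl
  · rw [Fin.sum_univ_two]
    simp only [BL, Matrix.of_apply, if_true]
    by_cases h2 : e + 1 = m
    · rw [if_pos (by omega), if_pos (by omega), if_pos h2]
    · rw [if_neg (by omega), if_neg (by omega), if_neg h2]
      ring

theorem ent_vu (h : m ≤ l) (hq : q 0 = 0) {e : ℕ} (he : e < m) :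
    (BL l m 2 c b q om pi th et * BL l m 2 c' b' q' om' pi' th' et')
      (.inr (.inl ⟨e, he⟩)) (.inl ⟨0, by omega⟩) =
      cv q c' e + if e + 1 = m then et 0 * om' 0 + et 1 * om' 1 else 0 := by
  rw [Matrix.mul_apply, Fintype.sum_sum_type, Fintype.sum_sum_type, ← sum_cv q c' he]
  have h1 : ∑ x : Fin l, BL l m 2 c b q om pi th et (.inr (.inl ⟨e, he⟩)) (.inl x) *
      BL l m 2 c' b' q' om' pi' th' et' (.inl x) (.inl ⟨0, by omega⟩) = 0 :=
    Finset.sum_eq_zero fun x _ => mul_zero _
  rw [h1, zero_add]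
  congr 1
  · refine Finset.sum_congr rfl fun x _ => ?_
    simp only [BL, Matrix.of_apply]
    rw [if_pos (Nat.zero_le _)]
    rcases Nat.lt_trichotomy (x : ℕ) e with h2 | h2 | h2
    · rw [if_pos h2, if_pos h2.le]
      rfl
    · rw [if_neg (by omega), if_pos h2.le, h2, Nat.sub_self, hq]
      rfl
    · rw [if_neg (by omega), if_neg (by omega)]
      rfl
  · rw [Fin.sum_univ_two]
    simp only [BL, Matrix.of_apply, if_true]
    by_cases h2 : e + 1 = m
    · rw [if_pos h2, if_pos h2, if_pos h2]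
    · rw [if_neg h2, if_neg h2, if_neg h2]
      ring

theorem ent_uv (h : m ≤ l) (hq' : q' 0 = 0) {e : ℕ} (he : e < m) :
    (BL l m 2 c b q om pi th et * BL l m 2 c' b' q' om' pi' th' et')
      (.inl ⟨l - m + e, by omega⟩) (.inr (.inl ⟨0, by omega⟩)) =
      cv b q' e + if e + 1 = m then th 0 * pi' 0 + th 1 * pi' 1 else 0 := by
  rw [Matrix.mul_apply, Fintype.sum_sum_type, Fintype.sum_sum_type, ← sum_cv b q' he]
  have h1 : ∑ x : Fin l, BL l m 2 c b q om pi th et (.inl ⟨l - m + e, by omega⟩) (.inl x) *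
      BL l m 2 c' b' q' om' pi' th' et' (.inl x) (.inr (.inl ⟨0, by omega⟩)) = 0 :=
    Finset.sum_eq_zero fun x _ => zero_mul _
  rw [h1, zero_add]
  congr 1
  · refine Finset.sum_congr rfl fun x _ => ?_
    simp only [BL, Matrix.of_apply]
    have h3 : (if 0 < (x : ℕ) then q' ((x : ℕ) - 0) else 0) = q' x := by
      by_cases h4 : 0 < (x : ℕ)
      · rw [if_pos h4]
        rfl
      · rw [if_neg h4, show (x : ℕ) = 0 by omega, hq']
    rw [h3]
    by_cases h2 : (x : ℕ) ≤ e
    · rw [if_pos (by omega), if_pos h2]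
      congr 2
      omega
    · rw [if_neg (by omega), if_neg h2]
  · rw [Fin.sum_univ_two]
    simp only [BL, Matrix.of_apply, if_true]
    by_cases h2 : e + 1 = m
    · rw [if_pos (by omega), if_pos (by omega), if_pos h2]
    · rw [if_neg (by omega), if_neg (by omega), if_neg h2]
      ring

theorem ent_uu (h : m ≤ l) (hm : 0 < m) (hq : q 0 = 0) (hq' : q' 0 = 0) :
    (BL l m 2 c b q om pi th et * BL l m 2 c' b' q' om' pi' th' et')
      (.inr (.inl ⟨m - 1, by omega⟩)) (.inr (.inl ⟨0, hm⟩)) =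
      (if l ≤ 2 * m - 1 then cv c b' (2 * m - 1 - l) else 0) + cv q q' (m - 1) +
        (et 0 * pi' 0 + et 1 * pi' 1) := by
  rw [Matrix.mul_apply, Fintype.sum_sum_type, Fintype.sum_sum_type,
    ← sum_cv q q' (show m - 1 < m by omega), add_assoc]
  congr 1
  · by_cases h1 : l ≤ 2 * m - 1
    · rw [if_pos h1, ← sum_cv_shift c b' (n := l) (e := 2 * m - 1 - l) (d := l - m) (by omega)]
      refine Finset.sum_congr rfl fun x _ => ?_
      simp only [BL, Matrix.of_apply, add_zero, Nat.sub_zero]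
      have e1 : 2 * m - 1 - l + (l - m) = m - 1 := by omega
      rw [e1]
    · rw [if_neg h1]
      refine Finset.sum_eq_zero fun x _ => ?_
      simp only [BL, Matrix.of_apply, add_zero, Nat.sub_zero]
      by_cases h2 : (x : ℕ) ≤ m - 1
      · rw [if_neg (show ¬ l - m ≤ (x : ℕ) by omega), mul_zero]
      · rw [if_neg h2, zero_mul]
  · congr 1
    · refine Finset.sum_congr rfl fun x _ => ?_
      simp only [BL, Matrix.of_apply]
      have h3 : (if 0 < (x : ℕ) then q' ((x : ℕ) - 0) else 0) = q' x := by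
        by_cases h4 : 0 < (x : ℕ)
        · rw [if_pos h4]
          rfl
        · rw [if_neg h4, show (x : ℕ) = 0 by omega, hq']
      rw [h3]
      rcases Nat.lt_trichotomy (x : ℕ) (m - 1) with h2 | h2 | h2
      · rw [if_pos h2, if_pos h2.le]
      · rw [if_neg (by omega), if_pos h2.le, h2, Nat.sub_self, hq]
      · rw [if_neg (by omega), if_neg (by omega)]
    · rw [Fin.sum_univ_two]
      simp only [BL, Matrix.of_apply, if_true]
      rw [if_pos (by omega), if_pos (by omega)]

/-- the relations -/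
structure Rels (m : ℕ) (c b q c' b' q' : ℕ → K) (om pi th et om' pi' th' et' : Fin 2 → K) :
    Prop where
  vv : ∀ e < m, cv b c' e - cv b' c e + (if e + 1 = m then
    th 0 * om' 0 + th 1 * om' 1 - (th' 0 * om 0 + th' 1 * om 1) else 0) = 0
  vu : ∀ e < m, cv q c' e - cv q' c e + (if e + 1 = m then
    et 0 * om' 0 + et 1 * om' 1 - (et' 0 * om 0 + et' 1 * om 1) else 0) = 0
  uv : ∀ e < m, cv b q' e - cv b' q e + (if e + 1 = m then
    th 0 * pi' 0 + th 1 * pi' 1 - (th' 0 * pi 0 + th' 1 * pi 1) else 0) = 0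
  uu : et 0 * pi' 0 + et 1 * pi' 1 - (et' 0 * pi 0 + et' 1 * pi 1) = 0 ∨
    et 0 * pi' 0 + et 1 * pi' 1 - (et' 0 * pi 0 + et' 1 * pi 1) =
      - (th 0 * om' 0 + th 1 * om' 1 - (th' 0 * om 0 + th' 1 * om 1))

theorem rels (h : m ≤ l) (hm : 0 < m) (hq : q 0 = 0) (hq' : q' 0 = 0)
    (hcm : BL l m 2 c b q om pi th et * BL l m 2 c' b' q' om' pi' th' et' =
      BL l m 2 c' b' q' om' pi' th' et' * BL l m 2 c b q om pi th et) :
    Rels m c b q c' b' q' om pi th et om' pi' th' et' := by
  have hvv : ∀ e < m, cv b c' e - cv b' c e + (if e + 1 = m then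
      th 0 * om' 0 + th 1 * om' 1 - (th' 0 * om 0 + th' 1 * om 1) else 0) = 0 := by
    intro e he
    have h1 := congrFun (congrFun hcm (.inl ⟨l - m + e, by omega⟩)) (.inl ⟨0, by omega⟩)
    rw [ent_vv h he, ent_vv h he] at h1
    split_ifs at h1 ⊢ <;> linear_combination h1
  refine ⟨hvv, ?_, ?_, ?_⟩
  · intro e he
    have h1 := congrFun (congrFun hcm (.inr (.inl ⟨e, he⟩))) (.inl ⟨0, by omega⟩)
    rw [ent_vu h hq he, ent_vu h hq' he] at h1
    split_ifs at h1 ⊢ <;> linear_combination h1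
  · intro e he
    have h1 := congrFun (congrFun hcm (.inl ⟨l - m + e, by omega⟩)) (.inr (.inl ⟨0, by omega⟩))
    rw [ent_uv h hq' he, ent_uv h hq he] at h1
    split_ifs at h1 ⊢ <;> linear_combination h1
  · have h1 := congrFun (congrFun hcm (.inr (.inl ⟨m - 1, by omega⟩))) (.inr (.inl ⟨0, hm⟩))
    rw [ent_uu h hm hq hq', ent_uu h hm hq' hq, cv_comm q' q] at h1
    by_cases h2 : l ≤ 2 * m - 1
    · rw [if_pos h2, if_pos h2] at h1
      have h3 := hvv (2 * m - 1 - l) (by omega)
      rw [cv_comm b c', cv_comm b' c] at h3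
      by_cases h4 : 2 * m - 1 - l + 1 = m
      · rw [if_pos h4] at h3
        exact Or.inr (by linear_combination h1 + h3)
      · rw [if_neg h4] at h3
        exact Or.inl (by linear_combination h1 + h3)
    · rw [if_neg h2, if_neg h2] at h1
      exact Or.inl (by linear_combination h1)

end Rel

section Count

variable {k K : Type*} [Field k] [Field K] [Algebra k K] {l m : ℕ}
variable {c b q c' b' q' : ℕ → K} {om pi th et om' pi' th' et' : Fin 2 → K}

/-- all the parameters lie in `E` -/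
structure In (E : IntermediateField k K) (m : ℕ) (c b q : ℕ → K) (om pi th et : Fin 2 → K) :
    Prop where
  c : ∀ a < m, c a ∈ E
  b : ∀ a < m, b a ∈ E
  q : ∀ a < m, q a ∈ E
  om : ∀ a, om a ∈ E
  pi : ∀ a, pi a ∈ E
  th : ∀ a, th a ∈ E
  et : ∀ a, et a ∈ E

/-- the count of the parameters -/
theorem count_rels (hm : 4 ≤ m) (hm' : m ≤ 5) (hc : c 0 = 0) (hb : b 0 = 0) (hq : q 0 = 0)
    (hc' : c' 0 = 0) (hb' : b' 0 = 0) (hq' : q' 0 = 0)
    (h : Rels m c b q c' b' q' om pi th et om' pi' th' et') :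
    ∃ S : Set K, rk k S ≤ (4 * m + 13 : ℕ) ∧ In (FF k S) m c b q om pi th et ∧
      In (FF k S) m c' b' q' om' pi' th' et' := by
  let V : ℕ → Fin 3 → K := fun a => ![c a, q a, b a]
  let V' : ℕ → Fin 3 → K := fun a => ![c' a, q' a, b' a]
  let P : Set K := pd om pi th et ∪ pd om' pi' th' et'
  have hV : V 0 = 0 := by
    funext i
    fin_cases i
    exacts [hc, hq, hb]
  have hV' : V' 0 = 0 := by
    funext i
    fin_cases i
    exacts [hc', hq', hb']
  have i1 : ∀ a, om a ∈ FF k P := fun a => mem_FF_self (Or.inl (Or.inl (Or.inl ⟨a, rfl⟩)))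
  have i2 : ∀ a, pi a ∈ FF k P := fun a => mem_FF_self (Or.inl (Or.inl (Or.inr ⟨a, rfl⟩)))
  have i3 : ∀ a, th a ∈ FF k P := fun a => mem_FF_self (Or.inl (Or.inr (Or.inl ⟨a, rfl⟩)))
  have i4 : ∀ a, et a ∈ FF k P := fun a => mem_FF_self (Or.inl (Or.inr (Or.inr ⟨a, rfl⟩)))
  have i1' : ∀ a, om' a ∈ FF k P := fun a => mem_FF_self (Or.inr (Or.inl (Or.inl ⟨a, rfl⟩)))
  have i2' : ∀ a, pi' a ∈ FF k P := fun a => mem_FF_self (Or.inr (Or.inl (Or.inr ⟨a, rfl⟩)))
  have i3' : ∀ a, th' a ∈ FF k P := fun a => mem_FF_self (Or.inr (Or.inr (Or.inl ⟨a, rfl⟩)))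
  have i4' : ∀ a, et' a ∈ FF k P := fun a => mem_FF_self (Or.inr (Or.inr (Or.inr ⟨a, rfl⟩)))
  have hP : rk k P ≤ 15 := by
    refine rk_pd ?_
    have j1 : ∀ a, om a ∈ FF k (Set.range om ∪ Set.range om' ∪ (Set.range th ∪ Set.range th')) :=
      fun a => mem_FF_self (Or.inl (Or.inl ⟨a, rfl⟩))
    have j2 : ∀ a, om' a ∈ FF k (Set.range om ∪ Set.range om' ∪ (Set.range th ∪ Set.range th')) :=
      fun a => mem_FF_self (Or.inl (Or.inr ⟨a, rfl⟩))
    have j3 : ∀ a, th a ∈ FF k (Set.range om ∪ Set.range om' ∪ (Set.range th ∪ Set.range th')) :=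
      fun a => mem_FF_self (Or.inr (Or.inl ⟨a, rfl⟩))
    have j4 : ∀ a, th' a ∈ FF k (Set.range om ∪ Set.range om' ∪ (Set.range th ∪ Set.range th')) :=
      fun a => mem_FF_self (Or.inr (Or.inr ⟨a, rfl⟩))
    rcases h.uu with h1 | h1
    · rw [h1]
      exact zero_mem _
    · rw [h1]
      exact neg_mem (sub_mem (add_mem (mul_mem (j3 _) (j2 _)) (mul_mem (j3 _) (j2 _)))
        (add_mem (mul_mem (j4 _) (j1 _)) (mul_mem (j4 _) (j1 _))))
  have hrel : ∀ e, 2 ≤ e → e < m → ∀ i j, ∑ x ∈ antidiagonal e,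
      (V x.1 i * V' x.2 j - V x.1 j * V' x.2 i) ∈ FF k P := by
    intro e _ he i j
    have e1 : ∑ x ∈ antidiagonal e, (V x.1 i * V' x.2 j - V x.1 j * V' x.2 i) =
        cv (fun a => V a i) (fun a => V' a j) e - cv (fun a => V a j) (fun a => V' a i) e := by
      rw [Finset.sum_sub_distrib]
      rfl
    have m1 : cv b c' e - cv c b' e ∈ FF k P := by
      have h1 := h.vv e he
      rw [cv_comm b' c] at h1
      rw [eq_neg_of_add_eq_zero_left h1]
      refine neg_mem ?_
      split_ifs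
      · exact sub_mem (add_mem (mul_mem (i3 _) (i1' _)) (mul_mem (i3 _) (i1' _)))
          (add_mem (mul_mem (i3' _) (i1 _)) (mul_mem (i3' _) (i1 _)))
      · exact zero_mem _
    have m2 : cv q c' e - cv c q' e ∈ FF k P := by
      have h1 := h.vu e he
      rw [cv_comm q' c] at h1
      rw [eq_neg_of_add_eq_zero_left h1]
      refine neg_mem ?_
      split_ifs
      · exact sub_mem (add_mem (mul_mem (i4 _) (i1' _)) (mul_mem (i4 _) (i1' _)))
          (add_mem (mul_mem (i4' _) (i1 _)) (mul_mem (i4' _) (i1 _)))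
      · exact zero_mem _
    have m3 : cv b q' e - cv q b' e ∈ FF k P := by
      have h1 := h.uv e he
      rw [cv_comm b' q] at h1
      rw [eq_neg_of_add_eq_zero_left h1]
      refine neg_mem ?_
      split_ifs
      · exact sub_mem (add_mem (mul_mem (i3 _) (i2' _)) (mul_mem (i3 _) (i2' _)))
          (add_mem (mul_mem (i3' _) (i2 _)) (mul_mem (i3' _) (i2 _)))
      · exact zero_mem _
    have sw : ∀ {x y x' y' : ℕ → K}, cv x y' e - cv y x' e ∈ FF k P →
        cv y x' e - cv x y' e ∈ FF k P := by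
      intro x y x' y' h
      have := neg_mem h
      rwa [neg_sub] at this
    rw [e1]
    fin_cases i <;> fin_cases j
    · show cv c c' e - cv c c' e ∈ FF k P
      rw [sub_self]
      exact zero_mem _
    · exact sw m2
    · exact sw m1
    · exact m2
    · show cv q q' e - cv q q' e ∈ FF k P
      rw [sub_self]
      exact zero_mem _
    · exact sw m3
    · exact m1
    · exact m3
    · show cv b b' e - cv b b' e ∈ FF k P
      rw [sub_self]
      exact zero_mem _
  obtain ⟨S, hPS, hS, hall⟩ := count hm hm' hV hV' hP hrel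
  exact ⟨S, hS, ⟨fun a ha => (hall a ha 0).1, fun a ha => (hall a ha 2).1,
    fun a ha => (hall a ha 1).1, fun a => FF_mono hPS (i1 a), fun a => FF_mono hPS (i2 a),
    fun a => FF_mono hPS (i3 a), fun a => FF_mono hPS (i4 a)⟩,
    ⟨fun a ha => (hall a ha 0).2, fun a ha => (hall a ha 2).2,
    fun a ha => (hall a ha 1).2, fun a => FF_mono hPS (i1' a), fun a => FF_mono hPS (i2' a),
    fun a => FF_mono hPS (i3' a), fun a => FF_mono hPS (i4' a)⟩⟩

theorem mem_BL {E : IntermediateField k K} (hlm : m ≤ l) (h : In E m c b q om pi th et)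
    (x y : IL l m 2) : BL l m 2 c b q om pi th et x y ∈ E := by
  rcases x with x | x | x <;> rcases y with y | y | y <;> simp only [BL, Matrix.of_apply] <;>
    try exact zero_mem _
  · split_ifs
    · exact h.b _ (by have := x.2; have := y.2; omega)
    · exact zero_mem _
  · split_ifs
    · exact h.th _
    · exact zero_mem _
  · split_ifs
    · exact h.c _ (by have := x.2; omega)
    · exact zero_mem _
  · split_ifs
    · exact h.q _ (by have := x.2; omega)
    · exact zero_mem _
  · split_ifs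
    · exact h.et _
    · exact zero_mem _
  · split_ifs
    · exact h.om _
    · exact zero_mem _
  · split_ifs
    · exact h.pi _
    · exact zero_mem _

theorem mem_JL (E : IntermediateField k K) (i : ℕ) (x y : IL l m 2) :
    (JL K l m 2 ^ i) x y ∈ E := by
  induction i generalizing x y with
  | zero =>
    rw [pow_zero, Matrix.one_apply]
    split_ifs
    · exact one_mem _
    · exact zero_mem _
  | succ i ih =>
    rw [pow_succ, Matrix.mul_apply]
    refine sum_mem fun z _ => mul_mem (ih _ _) ?_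
    rcases z with z | z | z <;> rcases y with y | y | y <;>
      simp only [JL, Matrix.of_apply] <;> try exact zero_mem _
    · split_ifs
      · exact one_mem _
      · exact zero_mem _
    · split_ifs
      · exact one_mem _
      · exact zero_mem _

/-- the count for triples with first matrix `JL` -/
theorem count_triple (hlm : m ≤ l) (hm : 4 ≤ m) (hm' : m ≤ 5) (hc : c 0 = 0) (hb : b 0 = 0)
    (hq : q 0 = 0) (hc' : c' 0 = 0) (hb' : b' 0 = 0) (hq' : q' 0 = 0)
    {T : Fin 3 → Matrix (IL l m 2) (IL l m 2) K} {a a' : ℕ → K} (h0 : T 0 = JL K l m 2)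
    (h1 : T 1 = ∑ i ∈ Finset.range l, a i • JL K l m 2 ^ (i + 1) + BL l m 2 c b q om pi th et)
    (h2 : T 2 = ∑ i ∈ Finset.range l, a' i • JL K l m 2 ^ (i + 1) +
      BL l m 2 c' b' q' om' pi' th' et')
    (hcm : BL l m 2 c b q om pi th et * BL l m 2 c' b' q' om' pi' th' et' =
      BL l m 2 c' b' q' om' pi' th' et' * BL l m 2 c b q om pi th et) :
    rk k (Set.range (co T)) ≤ (2 * l + 4 * m + 11 : ℕ) := by
  obtain ⟨S, hS, j1, j2⟩ := count_rels (k := k) hm hm' hc hb hq hc' hb' hq'
    (rels hlm (by omega) hq hq' hcm)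
  let g : Fin (l - 1) ⊕ Fin (l - 1) → K := Sum.elim (fun i => a i) (fun i => a' i)
  have hsum : ∀ (E : IntermediateField k K) (a : ℕ → K), (∀ i < l - 1, a i ∈ E) →
      ∀ x y, (∑ i ∈ Finset.range l, a i • JL K l m 2 ^ (i + 1)) x y ∈ E := by
    intro E a ha x y
    rw [Matrix.sum_apply]
    refine sum_mem fun i hi => ?_
    rw [Finset.mem_range] at hi
    rw [Matrix.smul_apply, smul_eq_mul]
    rcases Nat.lt_or_ge i (l - 1) with h3 | h3
    · exact mul_mem (ha i h3) (mem_JL E _ _ _)
    · have h4 : i + 1 = l := by omega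
      rw [h4, JL_pow hlm (by omega)]
      rw [Matrix.zero_apply, mul_zero]
      exact zero_mem _
  have h6 : Set.range (co T) ⊆ FF k (S ∪ Set.range g) := by
    have hle : FF k S ≤ FF k (S ∪ Set.range g) := FF_mono Set.subset_union_left
    have hg : ∀ z, g z ∈ FF k (S ∪ Set.range g) := fun z => mem_FF_self (Or.inr ⟨z, rfl⟩)
    have k1 : In (FF k (S ∪ Set.range g)) m c b q om pi th et :=
      ⟨fun a ha => hle (j1.c a ha), fun a ha => hle (j1.b a ha), fun a ha => hle (j1.q a ha),
        fun a => hle (j1.om a), fun a => hle (j1.pi a), fun a => hle (j1.th a),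
        fun a => hle (j1.et a)⟩
    have k2 : In (FF k (S ∪ Set.range g)) m c' b' q' om' pi' th' et' :=
      ⟨fun a ha => hle (j2.c a ha), fun a ha => hle (j2.b a ha), fun a ha => hle (j2.q a ha),
        fun a => hle (j2.om a), fun a => hle (j2.pi a), fun a => hle (j2.th a),
        fun a => hle (j2.et a)⟩
    rintro _ ⟨⟨i, x, y⟩, rfl⟩
    show T i x y ∈ FF k (S ∪ Set.range g)
    fin_cases i
    · show T 0 x y ∈ _
      rw [h0]
      have := mem_JL (l := l) (m := m) (FF k (S ∪ Set.range g)) 1 x y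
      rwa [pow_one] at this
    · show T 1 x y ∈ _
      rw [h1, Matrix.add_apply]
      exact add_mem (hsum _ a (fun i hi => hg (Sum.inl ⟨i, hi⟩)) x y) (mem_BL hlm k1 x y)
    · show T 2 x y ∈ _
      rw [h2, Matrix.add_apply]
      exact add_mem (hsum _ a' (fun i hi => hg (Sum.inr ⟨i, hi⟩)) x y) (mem_BL hlm k2 x y)
  refine (rk_le_add_card g h6).trans ?_
  rw [Fintype.card_sum, Fintype.card_fin]
  refine (add_le_add hS le_rfl).trans ?_
  exact_mod_cast (by omega)

end Count

end CntLM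

end Pool.Agent.Lib.D13
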