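import Pool.Agent.Lib.D13.Cnt
import Pool.Agent.Lib.D13.CertRow

/-!
# MP_5dcbc3_ag: the certificates of `Cnt.lean` exclude Jordan types
-/

set_option autoImplicit false

namespace Pool.Agent.Lib.D13

open Matrix Pool.Agent.Lib.Q5dc Pool.Agent.Lib.D7

universe u

namespace Cnt

variable {K : Type*} [Field K] {l : List ℕ}

/-- the coordinates of a normalised pair are good -/
theorem rels_zero {b c : ℕ → ℕ → ℕ → K} (hR : Cert.Rels l b c)
    (ho : ∀ i j t, l.length ≤ i → b i j t = 0 ∧ c i j t = 0) {i j t : ℕ}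
    (hv : vld l i j t = false) : b i j t = 0 ∧ c i j t = 0 := by
  by_contra hne
  have h1 : i < l.length := by
    by_contra h
    exact hne (ho i j t (by omega))
  have h2 : j < l.length := by
    by_contra h
    exact hne (hR.outj i j t (by omega))
  have h3 : t < l.getD i 0 := by
    by_contra h
    exact hne (hR.out i j t (by omega))
  have h4 : l.getD i 0 ≤ t + l.getD j 0 := by
    by_contra h
    exact hne (hR.low i j t (by omega))
  have h5 : ¬ (l.getD i 0 = l.getD j 0 ∧ t = 0) := by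
    rintro ⟨h, rfl⟩
    exact hne (hR.lev i j h)
  have h6 : ¬ (i = 0 ∧ j = 0) := by
    rintro ⟨rfl, rfl⟩
    exact hne (hR.nrm t)
  have h7 : vld l i j t = true := by
    simp only [vld, Bool.and_eq_true, decide_eq_true_eq, Bool.not_eq_true',
      ← Bool.not_eq_true]
    exact ⟨⟨⟨⟨⟨h1, h2⟩, h3⟩, h4⟩, h5⟩, h6⟩
  rw [h7] at hv
  exact Bool.noConfusion hv

theorem good_of_rels {b c : ℕ → ℕ → ℕ → K} (hR : Cert.Rels l b c)
    (ho : ∀ i j t, l.length ≤ i → b i j t = 0 ∧ c i j t = 0) : Good l b c where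
  zb := fun _ _ _ h => (rels_zero hR ho h).1
  zc := fun _ _ _ h => (rels_zero hR ho h).2
  rel := hR.rel

/-- **A certificate of `Cnt.lean` excludes a Jordan type.** -/
theorem row {k : Type u} [Field k] [IsAlgClosed k] [CharZero k] {l : List ℕ} {d : ℕ}
    (hall : HALL k d) (n : ℕ) (c : Cnt.Cert) (h : (Cert.ok l d n && check l n c) = true) :
    ¬ Bad k l := by
  rw [Bool.and_eq_true] at h
  obtain ⟨hl, -, rfl, h3, h2, hN⟩ := Cert.ok_iff h.1
  refine Cert.not_bad_of hl hall h2 h3 (Cert.zz_le l) n hN fun K _ _ _ _ B C _ hR => ?_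
  refine le_trans ?_ (count (k := k) c h.2 (good_of_rels hR fun i j t hi =>
    ⟨Cert.cf_out'' hi, Cert.cf_out'' hi⟩))
  refine rk_le ?_
  rintro _ ⟨i, j, t, ht⟩
  exact subset_FF _ ⟨i, j, t, ht⟩

end Cnt

end Pool.Agent.Lib.D13
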