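import Pool.Agent.Lib.D13.JordanU

/-!
# MP_5dcbc3_ag: Jordan types `(a | l)`: the first block apart

`Sh k a` is the shift on `Fin a`. A maximal bad triple of type `a :: l` gives one on the index type
`Fin a ⊕ IxL l` whose first matrix is block diagonal with the blocks `Sh k a` and `JU k l`; for
`l = (2^u, 1^p)` also one on `Fin a ⊕ ((Fin u ⊕ Fin u) ⊕ Fin p)`.
-/

namespace Pool.Agent.Lib.D13

open Matrix Pool.Agent.Lib.Q5dc Pool.Agent.Lib.D7

variable {k : Type*} [Field k]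

/-- the shift: `e_i` is mapped to `e_(i+1)` -/
def Sh (k : Type*) [Field k] (a : ℕ) : Matrix (Fin a) (Fin a) k :=
  Matrix.of fun i j => if (i : ℕ) = j + 1 then 1 else 0

/-- the first block apart -/
def consEquiv (a : ℕ) (l : List ℕ) : IxL (a :: l) ≃ Fin a ⊕ IxL l where
  toFun := fun x => match x with
    | ⟨⟨0, _⟩, i⟩ => .inl i
    | ⟨⟨j + 1, h⟩, i⟩ => .inr ⟨⟨j, Nat.lt_of_succ_lt_succ h⟩, i⟩
  invFun := Sum.elim (fun i => ⟨⟨0, Nat.succ_pos _⟩, i⟩)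
    (fun x => ⟨⟨x.1 + 1, Nat.succ_lt_succ x.1.2⟩, x.2⟩)
  left_inv := by rintro ⟨⟨_ | j, h⟩, i⟩ <;> rfl
  right_inv := by rintro (i | ⟨j, i⟩) <;> rfl

theorem Bad.cons [Infinite k] {a : ℕ} {l : List ℕ} (h : Bad k (a :: l)) :
    BadM (Matrix.fromBlocks (Sh k a) 0 0 (JU k l)) := by
  refine BadM.map h (consEquiv a l) _ ?_
  rintro ⟨⟨_ | j, h⟩, i⟩ ⟨⟨_ | j', h'⟩, i'⟩
  · change (if (i : ℕ) = i' + 1 then (1 : k) else 0) =
      if (⟨0, h⟩ : Fin (a :: l).length) = ⟨0, h'⟩ ∧ (i : ℕ) = i' + 1 then 1 else 0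
    by_cases h1 : (i : ℕ) = i' + 1
    · rw [if_pos h1, if_pos ⟨rfl, h1⟩]
    · rw [if_neg h1, if_neg fun h => h1 h.2]
  · change (0 : k) =
      if (⟨0, h⟩ : Fin (a :: l).length) = ⟨j' + 1, h'⟩ ∧ (i : ℕ) = i' + 1 then 1 else 0
    rw [if_neg]
    rintro ⟨h1, -⟩
    exact absurd (congrArg Fin.val h1) (Nat.succ_ne_zero j').symm
  · change (0 : k) =
      if (⟨j + 1, h⟩ : Fin (a :: l).length) = ⟨0, h'⟩ ∧ (i : ℕ) = i' + 1 then 1 else 0
    rw [if_neg]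
    rintro ⟨h1, -⟩
    exact absurd (congrArg Fin.val h1) (Nat.succ_ne_zero j)
  · change (if (⟨j, Nat.lt_of_succ_lt_succ h⟩ : Fin l.length) = ⟨j', Nat.lt_of_succ_lt_succ h'⟩ ∧
        (i : ℕ) = i' + 1 then (1 : k) else 0) =
      if (⟨j + 1, h⟩ : Fin (a :: l).length) = ⟨j' + 1, h'⟩ ∧ (i : ℕ) = i' + 1 then 1 else 0
    refine if_congr (and_congr ?_ Iff.rfl) rfl rfl
    constructor
    · intro h1
      have h2 := congrArg Fin.val h1
      exact Fin.ext (congrArg Nat.succ h2)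
    · intro h1
      have h2 := congrArg Fin.val h1
      exact Fin.ext (Nat.succ_injective h2)

end Pool.Agent.Lib.D13
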