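import Pool.Agent.Lib.D7.Api
import Pool.Agent.Lib.D7.JordanS

/-!
# MP_5dcbc3_ag: nilpotent matrices whose powers have the same ranks are conjugate
-/

namespace Pool.Agent.Lib.D13

open Matrix Pool.Agent.Lib.Q5dc Pool.Agent.Lib.D7

variable {k : Type*} [Field k]

namespace RanksAux

/-- powers on a Jordan basis -/
theorem pow_basis {N r : ℕ} {m : Fin r → ℕ} {A : Matrix (Fin N) (Fin N) k}
    (b : Module.Basis (Σ a : Fin r, Fin (m a)) k (Fin N → k))
    (hb : ∀ (a : Fin r) (i : Fin (m a)),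
      A *ᵥ (b ⟨a, i⟩) = if h : (i : ℕ) + 1 < m a then b ⟨a, ⟨(i : ℕ) + 1, h⟩⟩ else 0) (p : ℕ)
    (a : Fin r) (i : Fin (m a)) :
    A ^ p *ᵥ (b ⟨a, i⟩) = if h : (i : ℕ) + p < m a then b ⟨a, ⟨(i : ℕ) + p, h⟩⟩ else 0 := by
  induction p with
  | zero => simp
  | succ p ih =>
    rw [pow_succ', ← mulVec_mulVec, ih]
    by_cases h : (i : ℕ) + p < m a
    · rw [dif_pos h, hb]
      by_cases h' : (i : ℕ) + (p + 1) < m a
      · rw [dif_pos (show (i : ℕ) + p + 1 < m a from h'), dif_pos h']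
        rfl
      · rw [dif_neg (show ¬ (i : ℕ) + p + 1 < m a from h'), dif_neg h']
    · rw [dif_neg h, mulVec_zero, dif_neg (by omega)]

theorem sum_fin (n p : ℕ) : (∑ i : Fin n, if p ≤ (i : ℕ) then 1 else 0) = n - p := by
  rw [Fin.sum_univ_eq_sum_range (fun i => if p ≤ i then 1 else 0) n]
  induction n with
  | zero => simp
  | succ n ih =>
    rw [Finset.sum_range_succ, ih]
    split_ifs with h <;> omega

/-- the ranks of the powers -/
theorem rank_pow {N r : ℕ} {m : Fin r → ℕ} {A : Matrix (Fin N) (Fin N) k}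
    (b : Module.Basis (Σ a : Fin r, Fin (m a)) k (Fin N → k))
    (hb : ∀ (a : Fin r) (i : Fin (m a)),
      A *ᵥ (b ⟨a, i⟩) = if h : (i : ℕ) + 1 < m a then b ⟨a, ⟨(i : ℕ) + 1, h⟩⟩ else 0) (p : ℕ) :
    (A ^ p).rank = ∑ a, (m a - p) := by
  classical
  have hspan : LinearMap.range (A ^ p).mulVecLin =
      Submodule.span k (Set.range fun x : {x : Σ a : Fin r, Fin (m a) // p ≤ (x.2 : ℕ)} => b x) := by
    apply le_antisymm
    · rw [LinearMap.range_eq_map, ← b.span_eq, Submodule.map_span, Submodule.span_le]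
      rintro _ ⟨_, ⟨⟨a, i⟩, rfl⟩, rfl⟩
      rw [mulVecLin_apply, pow_basis b hb]
      split_ifs with h
      · exact Submodule.subset_span ⟨⟨⟨a, ⟨(i : ℕ) + p, h⟩⟩, Nat.le_add_left _ _⟩, rfl⟩
      · exact Submodule.zero_mem _
    · rw [Submodule.span_le]
      rintro _ ⟨⟨⟨a, i⟩, hi⟩, rfl⟩
      have hi' : p ≤ (i : ℕ) := hi
      refine ⟨b ⟨a, ⟨(i : ℕ) - p, by omega⟩⟩, ?_⟩
      rw [mulVecLin_apply, pow_basis b hb, dif_pos (by
        show (i : ℕ) - p + p < m a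
        omega)]
      have : (⟨(i : ℕ) - p + p, by omega⟩ : Fin (m a)) = i := Fin.ext (by
        show (i : ℕ) - p + p = i
        omega)
      exact congrArg (fun x => b ⟨a, x⟩) this
  rw [Matrix.rank, hspan]
  refine (finrank_span_eq_card (b.linearIndependent.comp
    (fun x : {x : Σ a : Fin r, Fin (m a) // p ≤ (x.2 : ℕ)} => x.1) Subtype.val_injective)).trans ?_
  rw [Fintype.card_subtype, Finset.card_filter, Fintype.sum_sigma]
  exact Finset.sum_congr rfl fun a _ => sum_fin (m a) p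

theorem fiber {r : ℕ} (m : Fin r → ℕ) (v : ℕ) :
    ∑ a, (m a - v) + ∑ a, (m a - (v + 2)) =
      2 * ∑ a, (m a - (v + 1)) + Fintype.card {a // m a = v + 1} := by
  classical
  rw [Fintype.card_subtype, Finset.card_filter, Finset.mul_sum, ← Finset.sum_add_distrib,
    ← Finset.sum_add_distrib]
  refine Finset.sum_congr rfl fun a _ => ?_
  split_ifs with h <;> omega

/-- equal ranks give equal block sizes -/
theorem exists_equiv {r r' : ℕ} {m : Fin r → ℕ} {m' : Fin r' → ℕ} (hm : ∀ a, 0 < m a)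
    (hm' : ∀ a, 0 < m' a) (h : ∀ p, ∑ a, (m a - p) = ∑ a, (m' a - p)) :
    ∃ e : Fin r ≃ Fin r', ∀ a, m a = m' (e a) := by
  classical
  have hc : ∀ v, Nonempty ({a // m a = v} ≃ {a // m' a = v}) := by
    intro v
    rw [← Fintype.card_eq]
    rcases v with _ | v
    · rw [Fintype.card_eq_zero_iff.2 ⟨fun x => absurd x.2 (hm x.1).ne'⟩,
        Fintype.card_eq_zero_iff.2 ⟨fun x => absurd x.2 (hm' x.1).ne'⟩]
    · have h1 := fiber m v
      have h2 := fiber m' v
      rw [h, h, h] at h1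
      omega
  choose e he using fun v => (⟨Classical.choice (hc v), trivial⟩ :
    ∃ _ : {a // m a = v} ≃ {a // m' a = v}, True)
  refine ⟨(Equiv.sigmaFiberEquiv m).symm.trans ((Equiv.sigmaCongrRight e).trans
    (Equiv.sigmaFiberEquiv m')), fun a => ?_⟩
  exact ((e (m a) ⟨a, rfl⟩).2).symm

end RanksAux

open RanksAux

/-- nilpotent matrices whose powers have the same ranks are conjugate -/
theorem conj_of_ranks {N : ℕ} {A B : Matrix (Fin N) (Fin N) k} (hA : IsNilpotent A)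
    (hB : IsNilpotent B) (h : ∀ i, (A ^ i).rank = (B ^ i).rank) :
    ∃ g h : Matrix (Fin N) (Fin N) k, g * h = 1 ∧ h * g = 1 ∧ g * A * h = B := by
  obtain ⟨r, m, b, hb, hm, -, -⟩ := JordanSAux.sorted A hA
  obtain ⟨r', m', b', hb', hm', -, -⟩ := JordanSAux.sorted B hB
  obtain ⟨e, he⟩ := exists_equiv hm hm' fun p => by
    rw [← rank_pow b hb, ← rank_pow b' hb', h]
  have hE : ∀ (a : Fin r) (i : Fin (m a)), b.equiv b' (Equiv.sigmaCongr e fun a => finCongr (he a))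
      (b ⟨a, i⟩) = b' ⟨e a, ⟨i, by rw [← he]; exact i.2⟩⟩ := by
    intro a i
    rw [Module.Basis.equiv_apply]
    rfl
  obtain ⟨φ, hφ⟩ : ∃ φ : (Fin N → k) ≃ₗ[k] (Fin N → k), ∀ (a : Fin r) (i : Fin (m a)),
      φ (b ⟨a, i⟩) = b' ⟨e a, ⟨i, by rw [← he]; exact i.2⟩⟩ := ⟨_, hE⟩
  have hgh : LinearMap.toMatrix' (φ : (Fin N → k) →ₗ[k] (Fin N → k)) *
      LinearMap.toMatrix' (φ.symm : (Fin N → k) →ₗ[k] (Fin N → k)) = 1 := by
    rw [← LinearMap.toMatrix'_comp, LinearEquiv.comp_symm, LinearMap.toMatrix'_id]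
  have hhg : LinearMap.toMatrix' (φ.symm : (Fin N → k) →ₗ[k] (Fin N → k)) *
      LinearMap.toMatrix' (φ : (Fin N → k) →ₗ[k] (Fin N → k)) = 1 := by
    rw [← LinearMap.toMatrix'_comp, LinearEquiv.symm_comp, LinearMap.toMatrix'_id]
  refine ⟨_, _, hgh, hhg, ?_⟩
  have h1 : LinearMap.toMatrix' (φ : (Fin N → k) →ₗ[k] (Fin N → k)) * A =
      B * LinearMap.toMatrix' (φ : (Fin N → k) →ₗ[k] (Fin N → k)) := by
    apply Matrix.toLin'.injective
    refine b.ext ?_
    rintro ⟨a, i⟩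
    rw [Matrix.toLin'_mul, Matrix.toLin'_mul, LinearMap.comp_apply, LinearMap.comp_apply,
      Matrix.toLin'_toMatrix', Matrix.toLin'_apply, Matrix.toLin'_apply, LinearEquiv.coe_coe, hφ, hb,
      hb']
    have hea := he a
    by_cases h : (i : ℕ) + 1 < m a
    · rw [dif_pos h, hφ, dif_pos (show (i : ℕ) + 1 < m' (e a) by omega)]
    · rw [dif_neg h, map_zero, dif_neg (show ¬ (i : ℕ) + 1 < m' (e a) by omega)]
  rw [h1, mul_assoc, hgh, mul_one]

end Pool.Agent.Lib.D13
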