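import Pool.Agent.Lib.D13.M4321
import Pool.Agent.Lib.D13.Ranks

/-!
# MP_5dcbc3_ag: type `(4, 3, 2, 1)`: the dichotomy

If `A ^ 2 M` lies in `k A ^ 3` for every maximal bad triple (with the ranks of `A`), then all cubes of
elements of the algebra are multiples of `A ^ 3`.
-/

namespace Pool.Agent.Lib.D13

open Matrix Pool.Agent.Lib.Q5dc Pool.Agent.Lib.D7

section General

variable {k n : Type*} [Field k] [Fintype n] [DecidableEq n] {ρ : ℕ → ℕ}

/-- for almost all `t` the powers of `A + t B` have the ranks `ρ` -/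
theorem MaxR.line_ranks [Infinite k] {A B C : Matrix n n k} (hT : MaxR ρ ![A, B, C])
    (hρ : ∀ i, ρ i = (A ^ i).rank) : {t : k | ¬ ∀ i, ((A + t • B) ^ i).rank = ρ i}.Finite := by
  refine (finite_exc (isPoly_line A B)).subset fun t ht => ?_
  by_contra hn
  apply ht
  simp only [Set.mem_ofPred_eq, not_exists, not_and, not_lt] at hn
  have hmem : A + t • B ∈ adj ![A, B, C] :=
    add_mem (D8.mem0 A B C) (SMulMemClass.smul_mem t (D8.mem1 A B C))
  refine rank_eq_of_sum (hT.cn.2 0) (fun i => (hρ i).symm) (hT.cn.nilp hmem)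
    (hT.max _ hT.cn hT.ncl _ hmem) fun i hi => ?_
  have h := hn i hi
  rw [zero_smul, add_zero] at h
  exact h

/-- the triple with first matrix `A + t B` -/
theorem MaxR.change_line {A B C : Matrix n n k} (hT : MaxR ρ ![A, B, C]) (t : k) :
    MaxR ρ ![A + t • B, B, C] := by
  refine MaxR.change hT (hT.cn.of_adj fun i => ?_) fun i => ?_
  · fin_cases i
    exacts [add_mem (D8.mem0 A B C) (SMulMemClass.smul_mem t (D8.mem1 A B C)), D8.mem1 A B C,
      D8.mem2 A B C]
  · fin_cases i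
    · have h : A = (A + t • B) - t • B := by simp
      show A ∈ _
      rw [h]
      exact sub_mem (by simpa using D8.mem0 (A + t • B) B C)
        (SMulMemClass.smul_mem t (by simpa using D8.mem1 (A + t • B) B C))
    · exact D8.mem1 (A + t • B) B C
    · exact D8.mem2 (A + t • B) B C

theorem poly_zero [Infinite k] {a b c : k} {F : Set k} (hF : F.Finite)
    (h : ∀ t ∉ F, a * t + b * t ^ 2 + c * t ^ 4 = 0) : a = 0 ∧ b = 0 := by
  have hp : Polynomial.C a * Polynomial.X + Polynomial.C b * Polynomial.X ^ 2 +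
      Polynomial.C c * Polynomial.X ^ 4 = (0 : Polynomial k) := by
    by_contra hne
    refine (hF.infinite_compl.mono ?_) (D8.finite_zeros _ hne)
    intro t ht
    simpa using h t ht
  have h1 := congrArg (fun p => Polynomial.coeff p 1) hp
  have h2 := congrArg (fun p => Polynomial.coeff p 2) hp
  simp [Polynomial.coeff_X_pow] at h1 h2
  exact ⟨h1, h2⟩

/-- the dichotomy -/
theorem MaxR.dich [Infinite k] [CharZero k] {A B C : Matrix n n k} (hT : MaxR ρ ![A, B, C])
    (hρ : ∀ i, ρ i = (A ^ i).rank)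
    (H : ∀ T : Fin 3 → Matrix n n k, MaxR ρ T → (∀ i, (T 0 ^ i).rank = ρ i) →
      ∃ c : k, T 0 ^ 2 * T 1 = c • T 0 ^ 3)
    (hAB : A ^ 2 * B = 0) {i0 j0 : n} (h1 : (A ^ 3) i0 j0 = 1) (i j : n) :
    (A * (B * B)) i j = (A ^ 3) i j * (A * (B * B)) i0 j0 ∧
      (B * (B * B)) i j = (A ^ 3) i j * (B * (B * B)) i0 j0 := by
  have hc : A * B = B * A := hT.cn.1 0 1
  have hAB' : A * A * B = 0 := by rw [← pow_two, hAB]
  have hAB2 : A * B * A = 0 := by rw [mul_assoc, ← hc, ← mul_assoc, hAB']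
  have hAB3 : B * (A * A) = 0 := by
    rw [← mul_assoc, ← hc, mul_assoc, ← hc, ← mul_assoc, hAB']
  have hBAB : B * A * B = A * (B * B) := by rw [← hc, mul_assoc]
  have hBBA : B * B * A = A * (B * B) := by rw [mul_assoc, ← hc, ← mul_assoc, ← hc, mul_assoc]
  set U := A * (B * B) with hU
  set V := B * (B * B) with hV
  have key : ∀ t ∉ {t : k | ¬ ∀ i, ((A + t • B) ^ i).rank = ρ i},
      2 * (U i j - (A ^ 3) i j * U i0 j0) * t + (V i j - (A ^ 3) i j * V i0 j0) * t ^ 2 +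
        (V i j * U i0 j0 - U i j * V i0 j0) * t ^ 4 = 0 := by
    intro t ht
    have ht' : ∀ i, ((A + t • B) ^ i).rank = ρ i := by simpa using ht
    obtain ⟨c, hc'⟩ := H ![A + t • B, B, C] (MaxR.change_line hT t) ht'
    have hc'' : (A + t • B) ^ 2 * B = c • (A + t • B) ^ 3 := by simpa using hc'
    have e2 : (A + t • B) ^ 2 = A * A + (2 * t) • (A * B) + (t ^ 2) • (B * B) := by
      rw [pow_two, add_mul, mul_add, mul_add, smul_mul_assoc, mul_smul_comm, smul_mul_assoc,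
        mul_smul_comm, ← hc]
      module
    have e2B : (A + t • B) ^ 2 * B = (2 * t) • U + (t ^ 2) • V := by
      rw [e2, add_mul, add_mul, smul_mul_assoc, smul_mul_assoc, hAB', zero_add, hU, hV, mul_assoc,
        mul_assoc]
    have e3 : (A + t • B) ^ 3 = A ^ 3 + (3 * t ^ 2) • U + (t ^ 3) • V := by
      have hA3 : A * A * A = A ^ 3 := by
        rw [pow_succ, pow_two]
      rw [pow_succ, mul_add, mul_smul_comm, e2B, e2, add_mul, add_mul, smul_mul_assoc,
        smul_mul_assoc, hAB2, hBBA, hA3, smul_zero]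
      module
    rw [e2B, e3] at hc''
    have a1 := congrFun (congrFun hc'' i) j
    have a2 := congrFun (congrFun hc'' i0) j0
    simp only [Matrix.add_apply, Matrix.smul_apply, smul_eq_mul, h1] at a1 a2
    linear_combination (1 + 3 * t ^ 2 * U i0 j0 + t ^ 3 * V i0 j0) * a1 -
      ((A ^ 3) i j + 3 * t ^ 2 * U i j + t ^ 3 * V i j) * a2
  obtain ⟨k1, k2⟩ := poly_zero (MaxR.line_ranks hT hρ) key
  refine ⟨?_, sub_eq_zero.1 k2⟩
  rcases mul_eq_zero.1 k1 with h | h
  · exact absurd h two_ne_zero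
  · exact sub_eq_zero.1 h

/-- polynomials in the first matrix may be removed from the others -/
theorem MaxR.drop {T : Fin 3 → Matrix n n k} (hT : MaxR ρ T) {A B C : Matrix n n k} (h0 : T 0 = A)
    {b1 b2 b3 c1 c2 c3 : k} (h1 : T 1 = B + b1 • A + b2 • A ^ 2 + b3 • A ^ 3)
    (h2 : T 2 = C + c1 • A + c2 • A ^ 2 + c3 • A ^ 3) : MaxR ρ ![A, B, C] := by
  have sm : ∀ {T : Fin 3 → Matrix n n k} {M : Matrix n n k} (s : k), M ∈ adj T →
      s • M ∈ adj T := fun s hM => SMulMemClass.smul_mem s hM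
  have hp : ∀ {T : Fin 3 → Matrix n n k} {M : Matrix n n k}, M ∈ adj T →
      M ^ 2 ∈ adj T ∧ M ^ 3 ∈ adj T := by
    intro T M hM
    have h2 : M ^ 2 ∈ adj T := by
      rw [pow_two]
      exact mul_mem hM hM
    exact ⟨h2, by rw [pow_succ]; exact mul_mem h2 hM⟩
  have m0 : A ∈ adj T := by
    rw [← h0]
    exact mem_adj T 0
  have n0 := D8.mem0 A B C
  have n1 := D8.mem1 A B C
  have n2 := D8.mem2 A B C
  refine MaxR.change hT (hT.cn.of_adj fun i => ?_) fun i => ?_
  · fin_cases i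
    · exact m0
    · show B ∈ adj T
      have h : B = T 1 - b1 • A - b2 • A ^ 2 - b3 • A ^ 3 := by
        rw [h1]
        abel
      rw [h]
      exact sub_mem (sub_mem (sub_mem (mem_adj T 1) (sm _ m0)) (sm _ (hp m0).1)) (sm _ (hp m0).2)
    · show C ∈ adj T
      have h : C = T 2 - c1 • A - c2 • A ^ 2 - c3 • A ^ 3 := by
        rw [h2]
        abel
      rw [h]
      exact sub_mem (sub_mem (sub_mem (mem_adj T 2) (sm _ m0)) (sm _ (hp m0).1)) (sm _ (hp m0).2)
  · fin_cases i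
    · show T 0 ∈ _
      rw [h0]
      exact n0
    · show T 1 ∈ _
      rw [h1]
      exact add_mem (add_mem (add_mem n1 (sm _ n0)) (sm _ (hp n0).1)) (sm _ (hp n0).2)
    · show T 2 ∈ _
      rw [h2]
      exact add_mem (add_mem (add_mem n2 (sm _ n0)) (sm _ (hp n0).1)) (sm _ (hp n0).2)

end General

namespace T4321.Dich

variable {k : Type*} [Field k] {ρ : ℕ → ℕ} {P P' : Par k}

theorem Jsq_X (ha : P.al0 = 0) (hb : P.be0 = 0) : J k ^ 2 * X P = 0 := by
  refine ext_mulVec fun m => ?_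
  rw [pow_two, ← mulVec_mulVec, ← mulVec_mulVec, X_mulVec, J_mulVec, J_mulVec, zero_mulVec]
  funext i
  fin_cases i <;> simp [act, actJ, ha, hb]

theorem J_four : J k ^ 4 = 0 := by
  refine ext_mulVec fun m => ?_
  rw [pow_succ, pow_succ, pow_two, ← mulVec_mulVec, ← mulVec_mulVec, ← mulVec_mulVec, J_mulVec,
    J_mulVec, J_mulVec, J_mulVec, zero_mulVec]
  funext i
  fin_cases i <;> simp [actJ]

theorem J_cube (i j : Fin 10) : (J k ^ 3) i j = if i = 9 ∧ j = 0 then 1 else 0 := by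
  have h : J k ^ 3 = Matrix.of fun i j => if i = 9 ∧ j = 0 then (1 : k) else 0 := by
    refine ext_mulVec fun m => ?_
    rw [pow_succ, pow_two, ← mulVec_mulVec, ← mulVec_mulVec, J_mulVec, J_mulVec, J_mulVec]
    funext i
    fin_cases i <;> simp [actJ, Matrix.mulVec, dotProduct]
  rw [h, Matrix.of_apply]

/-- the intrinsic form of `al0 = be0 = 0` -/
theorem int_of (Hs : ∀ M : Matrix (Fin 10) (Fin 10) k, M * J k = J k * M → IsNilpotent M →
      ∃ (Q : Par k) (a b c : k), M = X Q + a • J k + b • J k ^ 2 + c • J k ^ 3)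
    (H : ∀ Q Q' : Par k, MaxR ρ ![J k, X Q, X Q'] → Q.al0 = 0 ∧ Q.be0 = 0)
    (hρ : ∀ i, ρ i = (J k ^ i).rank) (T : Fin 3 → Matrix (Fin 10) (Fin 10) k) (hT : MaxR ρ T)
    (h : ∀ i, (T 0 ^ i).rank = ρ i) : ∃ c : k, T 0 ^ 2 * T 1 = c • T 0 ^ 3 := by
  obtain ⟨g, g', hg, hg', hJ⟩ := conj_of_ranks (hT.cn.2 0) J_nil fun i => (h i).trans (hρ i)
  have hT' := hT.conj g g' hg hg'
  obtain ⟨Q, b1, b2, b3, hQ⟩ := Hs (g * T 1 * g') (by
    rw [← hJ]
    exact hT'.cn.1 1 0) (hT'.cn.2 1)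
  obtain ⟨Q', c1, c2, c3, hQ'⟩ := Hs (g * T 2 * g') (by
    rw [← hJ]
    exact hT'.cn.1 2 0) (hT'.cn.2 2)
  obtain ⟨ha, hb⟩ := H Q Q' (MaxR.drop hT' hJ hQ hQ')
  refine ⟨b1, ?_⟩
  have h1 : J k ^ 2 * (g * T 1 * g') = b1 • J k ^ 3 := by
    rw [hQ, mul_add, mul_add, mul_add, Jsq_X ha hb, mul_smul_comm, mul_smul_comm, mul_smul_comm,
      ← pow_add, ← pow_succ, ← pow_add, J_four, show 2 + 3 = 4 + 1 from rfl, pow_succ (J k) 4, J_four]
    simp
  have h2 : g' * (J k ^ 2 * (g * T 1 * g')) * g = T 0 ^ 2 * T 1 := by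
    have e : J k ^ 2 = g * T 0 ^ 2 * g' := by rw [← hJ, conj_pow' g g' hg hg']
    rw [e]
    calc g' * (g * T 0 ^ 2 * g' * (g * T 1 * g')) * g =
        (g' * g) * T 0 ^ 2 * (g' * g) * T 1 * (g' * g) := by simp only [mul_assoc]
      _ = _ := by rw [hg']; simp
  have h3 : g' * (J k ^ 3) * g = T 0 ^ 3 := by
    have e : J k ^ 3 = g * T 0 ^ 3 * g' := by rw [← hJ, conj_pow' g g' hg hg']
    rw [e]
    calc g' * (g * T 0 ^ 3 * g') * g = (g' * g) * T 0 ^ 3 * (g' * g) := by simp only [mul_assoc]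
      _ = _ := by rw [hg']; simp
  rw [← h2, h1, mul_smul_comm, smul_mul_assoc, h3]

/-- M11: the dichotomy -/
theorem dich [Infinite k] [CharZero k]
    (Hs : ∀ M : Matrix (Fin 10) (Fin 10) k, M * J k = J k * M → IsNilpotent M →
      ∃ (Q : Par k) (a b c : k), M = X Q + a • J k + b • J k ^ 2 + c • J k ^ 3)
    (H : ∀ Q Q' : Par k, MaxR ρ ![J k, X Q, X Q'] → Q.al0 = 0 ∧ Q.be0 = 0)
    (hρ : ∀ i, ρ i = (J k ^ i).rank) (hT : MaxR ρ ![J k, X P, X P']) :
    P.g0 * P.f0 = 0 ∧ P.e0 * P.de0 = 0 ∧ P.e0 * P.f0 = 0 ∧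
      (P.al1 * P.e0 + P.g0 * P.z + P.pi * P.zeta) * P.f0 + P.g0 * P.rho * P.eta = 0 ∧
      P.e0 * P.rho * P.th + P.ph * P.zeta * P.de0 = 0 := by
  obtain ⟨ha, hb⟩ := H P P' hT
  have key := MaxR.dich hT hρ (int_of Hs H hρ) (Jsq_X ha hb) (i0 := 9) (j0 := 0)
    (by rw [J_cube]; simp)
  have hz : ∀ i j : Fin 10, ¬ (i = 9 ∧ j = 0) → (J k * (X P * X P)) i j = 0 ∧
      (X P * (X P * X P)) i j = 0 := by
    intro i j hij
    have h := key i j
    rw [J_cube, if_neg hij, zero_mul, zero_mul] at h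
    exact h
  have e1 : ∀ i j : Fin 10, ¬ (i = 9 ∧ j = 0) →
      (actJ (act P (act P (Pi.single j 1)))) i = 0 ∧ (act P (act P (act P (Pi.single j 1)))) i = 0 := by
    intro i j hij
    rw [← X_mulVec, ← X_mulVec, ← X_mulVec, ← J_mulVec, mulVec_mulVec, mulVec_mulVec, mulVec_mulVec,
      mulVec_mulVec]
    simpa [mul_assoc] using hz i j hij
  have a1 := (e1 8 0 (by decide)).1
  have a2 := (e1 9 1 (by decide)).1
  have a3 := (e1 8 1 (by decide)).1
  have a4 := (e1 8 0 (by decide)).2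
  have a5 := (e1 9 1 (by decide)).2
  simp [act, actJ, ha, hb, -mul_eq_zero] at a1 a2 a3 a4 a5
  refine ⟨by linear_combination a1, by linear_combination a2, by linear_combination a3, ?_, ?_⟩
  · linear_combination a4 - P.q1 * a1
  · linear_combination a5 - P.be1 * a3 - (P.z + P.q1) * a2

/-- vanishing of a parameter on the pencil -/
def Z (P P' : Par k) (s : Par k → k) : Prop := s P = 0 ∧ s P' = 0

theorem lin_finite {a b : k} (h : ¬ (a = 0 ∧ b = 0)) : {y : k | a + y * b = 0}.Finite := by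
  have hp : Polynomial.C a + Polynomial.C b * Polynomial.X ≠ (0 : Polynomial k) := by
    intro h0
    apply h
    have h1 := congrArg (fun p => Polynomial.coeff p 0) h0
    have h2 := congrArg (fun p => Polynomial.coeff p 1) h0
    simp at h1 h2
    exact ⟨h1, h2⟩
  refine (D8.finite_zeros _ hp).subset fun y hy => ?_
  have hy' : a + y * b = 0 := hy
  simp only [Set.mem_ofPred_eq, Polynomial.eval_add, Polynomial.eval_mul, Polynomial.eval_C,
    Polynomial.eval_X]
  linear_combination hy'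

/-- a product of three linear forms is zero -/
theorem lin3 [Infinite k] {a a' b b' c c' : k}
    (h : ∀ y : k, (a + y * a') * (b + y * b') * (c + y * c') = 0) :
    (a = 0 ∧ a' = 0) ∨ (b = 0 ∧ b' = 0) ∨ (c = 0 ∧ c' = 0) := by
  by_contra hn
  rw [not_or, not_or] at hn
  obtain ⟨h1, h2, h3⟩ := hn
  obtain ⟨y, hy⟩ := (((lin_finite h1).union (lin_finite h2)).union
    (lin_finite h3)).infinite_compl.nonempty
  simp only [Set.mem_compl_iff, Set.mem_union, Set.mem_ofPred_eq, not_or] at hy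
  exact mul_ne_zero (mul_ne_zero hy.1.1 hy.1.2) hy.2 (h y)

/-- a product of two linear forms is zero -/
theorem lin2 [Infinite k] {a a' b b' : k} (h : ∀ y : k, (a + y * a') * (b + y * b') = 0) :
    (a = 0 ∧ a' = 0) ∨ (b = 0 ∧ b' = 0) := by
  rcases lin3 (a := a) (a' := a') (b := b) (b' := b') (c := 1) (c' := 0)
    (fun y => by rw [h, zero_mul]) with h | h | h
  · exact Or.inl h
  · exact Or.inr h
  · exact absurd h.1 one_ne_zero

/-- the pencil -/
theorem MaxR.pen (hT : MaxR ρ ![J k, X P, X P']) (y : k) :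
    MaxR ρ ![J k, X (line P P' y), X P'] := by
  have h := D8.MaxR.lin hT 1 y 0 1 0 0 0 0 (by simp)
  rw [← X_line]
  simpa using h

/-- M11 on the pencil -/
theorem dich_pencil [Infinite k] [CharZero k]
    (Hs : ∀ M : Matrix (Fin 10) (Fin 10) k, M * J k = J k * M → IsNilpotent M →
      ∃ (Q : Par k) (a b c : k), M = X Q + a • J k + b • J k ^ 2 + c • J k ^ 3)
    (H : ∀ Q Q' : Par k, MaxR ρ ![J k, X Q, X Q'] → Q.al0 = 0 ∧ Q.be0 = 0)
    (hρ : ∀ i, ρ i = (J k ^ i).rank) (hT : MaxR ρ ![J k, X P, X P']) :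
    (Z P P' Par.g0 ∨ Z P P' Par.f0) ∧ (Z P P' Par.e0 ∨ Z P P' Par.de0) ∧
      (Z P P' Par.e0 ∨ Z P P' Par.f0) ∧
      (Z P P' Par.f0 → Z P P' Par.g0 ∨ Z P P' Par.rho ∨ Z P P' Par.eta) ∧
      (Z P P' Par.g0 → Z P P' Par.f0 ∨ Z P P' Par.pi ∨ Z P P' Par.zeta) ∧
      (Z P P' Par.de0 → Z P P' Par.e0 ∨ Z P P' Par.rho ∨ Z P P' Par.th) ∧
      (Z P P' Par.e0 → Z P P' Par.de0 ∨ Z P P' Par.ph ∨ Z P P' Par.zeta) := by
  have key := fun y => dich Hs H hρ (MaxR.pen hT y)
  have hef : Z P P' Par.e0 ∨ Z P P' Par.f0 := lin2 fun y => (key y).2.2.1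
  refine ⟨lin2 fun y => (key y).1, lin2 fun y => (key y).2.1, hef, fun h => ?_, fun h => ?_,
    fun h => ?_, fun h => ?_⟩
  · refine lin3 fun y => ?_
    have h1 := (key y).2.2.2.1
    simp only [line, h.1, h.2] at h1
    linear_combination h1
  · rcases hef with h2 | h2
    · have h3 := lin3 (a := P.f0) (a' := P'.f0) (b := P.pi) (b' := P'.pi) (c := P.zeta)
        (c' := P'.zeta) fun y => by
          have h1 := (key y).2.2.2.1
          simp only [line, h.1, h.2, h2.1, h2.2] at h1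
          linear_combination h1
      exact h3
    · exact Or.inl h2
  · refine lin3 fun y => ?_
    have h1 := (key y).2.2.2.2
    simp only [line, h.1, h.2] at h1
    linear_combination h1
  · refine lin3 fun y => ?_
    have h1 := (key y).2.2.2.2
    simp only [line, h.1, h.2] at h1
    linear_combination h1

end T4321.Dich

end Pool.Agent.Lib.D13
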