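import Pool.Agent.Lib.D8.Corank
import Pool.Agent.Lib.D9.BlkMap

/-!
# MP_5dcbc3_ag: decomposable triples

If all commuting nilpotent triples of smaller sizes are limits of curvilinear ones, so is every
decomposable triple; so a maximal bad triple of minimal size is indecomposable.
-/

namespace Pool.Agent.Lib.D13

open Matrix Pool.Agent.Lib.Q5dc Pool.Agent.Lib.D7

variable {k : Type*} [Field k] {m n : Type*} [Fintype m] [DecidableEq m] [Fintype n]
  [DecidableEq n]

/-- corank at most 2, any index type -/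
theorem cl_corank [IsAlgClosed k] [CharZero k] {T : Fin 3 → Matrix n n k}
    (hn : 0 < Fintype.card n) (hT : CN T) {M : Matrix n n k} (hM : M ∈ adj T)
    (hr : Fintype.card n ≤ M.rank + 2) : Cl T := by
  have f := Fintype.equivFin n
  refine D9.BlkMapAux.cl_reindex f ?_
  refine D8.cl_corank hn (D9.BlkMapAux.cn_reindex f hT) (D9.BlkMapAux.adj_reindex f hM) ?_
  rw [D9.BlkMapAux.rank_reindexAlgEquiv]
  exact hr

/-- corank at least 3 for maximal bad triples, any index type -/
theorem MaxR.corank [IsAlgClosed k] [CharZero k] {ρ : ℕ → ℕ} {T : Fin 3 → Matrix n n k}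
    (hT : MaxR ρ T) (hn : 0 < Fintype.card n) {M : Matrix n n k} (hM : M ∈ adj T) :
    M.rank + 3 ≤ Fintype.card n := by
  by_contra h
  exact hT.ncl (cl_corank hn hT.cn hM (by omega))

namespace DecompAux

theorem card_le_rank {n t : Type*} [Fintype n] [DecidableEq n] [Fintype t] [DecidableEq t]
    (M : Matrix n n k) (f g : t → n)
    (h : (M.submatrix f g).det ≠ 0) : Fintype.card t ≤ M.rank := by
  have h1 : (M.submatrix f g).rank = Fintype.card t :=
    rank_of_isUnit _ ((Matrix.isUnit_iff_isUnit_det _).2 (isUnit_iff_ne_zero.2 h))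
  have e : M.submatrix f g =
      (1 : Matrix n n k).submatrix f id * (M * (1 : Matrix n n k).submatrix id g) := by
    ext i j
    simp [Matrix.mul_apply, Matrix.one_apply]
  rw [e] at h1
  rw [← h1]
  exact (rank_mul_le_right _ _).trans (rank_mul_le_left _ _)

theorem rank_add_le (A : Matrix m m k) (D : Matrix n n k) :
    A.rank + D.rank ≤ (Matrix.fromBlocks A 0 0 D).rank := by
  obtain ⟨f, g, h1⟩ := PolyAux.exists_minor A
  obtain ⟨f', g', h2⟩ := PolyAux.exists_minor D
  have h3 := card_le_rank (Matrix.fromBlocks A 0 0 D)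
    (Sum.elim (fun x => Sum.inl (f x)) fun x => Sum.inr (f' x))
    (Sum.elim (fun x => Sum.inl (g x)) fun x => Sum.inr (g' x)) (by
      have h4 : (Matrix.fromBlocks A 0 0 D).submatrix
          (Sum.elim (fun x => Sum.inl (f x)) fun x => Sum.inr (f' x))
          (Sum.elim (fun x => Sum.inl (g x)) fun x => Sum.inr (g' x)) =
          Matrix.fromBlocks (A.submatrix f g) 0 0 (D.submatrix f' g') := by
        ext x y
        rcases x with x | x <;> rcases y with y | y <;> rfl
      rw [h4, Matrix.det_fromBlocks_zero₂₁]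
      exact mul_ne_zero h1 h2)
  simpa using h3

theorem range_lt {V : Type*} [AddCommGroup V] [Module k V] {f : V →ₗ[k] V}
    (hf : IsNilpotent f) {i : ℕ} (hi : f ^ i ≠ 0) :
    LinearMap.range (f ^ (i + 1)) < LinearMap.range (f ^ i) := by
  refine lt_of_le_of_ne ?_ ?_
  · rw [pow_succ]
    exact LinearMap.range_comp_le_range f (f ^ i)
  · intro h
    have key : ∀ t, LinearMap.range (f ^ (i + t)) = LinearMap.range (f ^ i) := by
      intro t
      induction t with
      | zero => rfl
      | succ t ih =>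
        have h1 : f ^ (i + (t + 1)) = f ∘ₗ f ^ (i + t) := by
          rw [← add_assoc, pow_succ']
          rfl
        have h2 : f ^ (i + 1) = f ∘ₗ f ^ i := by
          rw [pow_succ']
          rfl
        rw [h1, LinearMap.range_comp, ih, ← LinearMap.range_comp, ← h2, h]
    obtain ⟨e, he⟩ := hf
    apply hi
    rw [← LinearMap.range_eq_bot, ← key e, pow_add, he, mul_zero, LinearMap.range_zero]

/-- a nilpotent matrix with a nonzero power of exponent `j` has rank at least `j` -/
theorem le_rank_of_pow {M : Matrix n n k} (hN : IsNilpotent M) {j : ℕ} (hj : M ^ j ≠ 0) :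
    j ≤ M.rank := by
  have h1 : ∀ i, Matrix.mulVecLin (M ^ i) = Matrix.mulVecLin M ^ i := fun i =>
    map_pow (Matrix.toLinAlgEquiv' : Matrix n n k ≃ₐ[k] _) M i
  have hE : IsNilpotent (Matrix.mulVecLin M) := by
    obtain ⟨e, he⟩ := hN
    refine ⟨e, ?_⟩
    rw [← h1, he, Matrix.mulVecLin_zero]
  have h0 : ∀ i ≤ j, Matrix.mulVecLin M ^ i ≠ 0 := by
    intro i hi h2
    apply hj
    have h3 : M ^ i = 0 := by
      apply Matrix.toLin'.injective
      rw [map_zero]
      exact (h1 i).trans h2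
    obtain ⟨t, rfl⟩ := Nat.exists_eq_add_of_le hi
    rw [pow_add, h3, zero_mul]
  have key : ∀ r i, i + r = j → r + 1 ≤ (M ^ i).rank := by
    intro r
    induction r with
    | zero =>
      intro i hi
      rw [Nat.one_le_iff_ne_zero]
      intro h2
      rw [Matrix.rank, Submodule.finrank_eq_zero, LinearMap.range_eq_bot, h1] at h2
      exact h0 i (by omega) h2
    | succ r ih =>
      intro i hi
      have h2 := ih (i + 1) (by omega)
      have h3 := Submodule.finrank_lt_finrank_of_lt (range_lt hE (h0 i (by omega)))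
      rw [← h1, ← h1] at h3
      exact lt_of_le_of_lt h2 h3
  rcases Nat.eq_zero_or_pos j with rfl | hpos
  · exact Nat.zero_le _
  · have h2 := key (j - 1) 1 (by omega)
    rw [pow_one] at h2
    omega

theorem aeval_comm (N : Matrix n n k) (p q : Polynomial k) :
    Polynomial.aeval N p * Polynomial.aeval N q = Polynomial.aeval N q * Polynomial.aeval N p := by
  rw [← map_mul, mul_comm, map_mul]

/-- polynomials without constant term in a nilpotent matrix -/
theorem aeval_nilp {N : Matrix n n k} (hN : IsNilpotent N) {p : Polynomial k}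
    (hp : p.coeff 0 = 0) : IsNilpotent (Polynomial.aeval N p) := by
  obtain ⟨q, rfl⟩ := Polynomial.X_dvd_iff.2 hp
  rw [map_mul, Polynomial.aeval_X]
  have hc : Commute N (Polynomial.aeval N q) := by
    have := aeval_comm N Polynomial.X q
    rwa [Polynomial.aeval_X] at this
  exact hc.isNilpotent_mul_right hN

/-- a polynomial with nonzero linear coefficient in a regular nilpotent matrix -/
theorem aeval_rank {N : Matrix n n k} (hN : IsNilpotent N) {j : ℕ} (hj : N ^ j ≠ 0)
    {p : Polynomial k} (hp : p.coeff 0 = 0) (hp1 : p.coeff 1 ≠ 0) :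
    j ≤ (Polynomial.aeval N p).rank := by
  refine le_rank_of_pow (aeval_nilp hN hp) ?_
  obtain ⟨q, rfl⟩ := Polynomial.X_dvd_iff.2 hp
  have hq : q.coeff 0 ≠ 0 := by simpa using hp1
  have hu : IsUnit (Polynomial.aeval N q) := by
    have h1 : q = Polynomial.C (q.coeff 0) + (q - Polynomial.C (q.coeff 0)) := by ring
    rw [h1, map_add, Polynomial.aeval_C]
    refine IsNilpotent.isUnit_add_left_of_commute (aeval_nilp hN (by simp)) ?_ ?_
    · exact (isUnit_iff_ne_zero.2 hq).map (algebraMap k (Matrix n n k))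
    · exact (Algebra.commutes _ _).symm
  rw [map_mul, Polynomial.aeval_X]
  intro h
  apply hj
  have hc : Commute N (Polynomial.aeval N q) := by
    have := aeval_comm N Polynomial.X q
    rwa [Polynomial.aeval_X] at this
  rw [hc.mul_pow] at h
  exact (hu.pow j).mul_left_eq_zero.1 h

/-- triples of polynomials without constant term in a nilpotent matrix -/
theorem cn_aeval {N : Matrix n n k} (hN : IsNilpotent N) {p : Fin 3 → Polynomial k}
    (hp : ∀ i, (p i).coeff 0 = 0) : CN fun i => Polynomial.aeval N (p i) :=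
  ⟨fun i j => aeval_comm N (p i) (p j), fun i => aeval_nilp hN (hp i)⟩

/-- a map with polynomial coordinates which maps curvilinear triples into the closure maps the
closure into itself -/
theorem cl_poly (c : Fin 3 × n × n → MvPolynomial (Fin 3 × m × m) k)
    (g : (Fin 3 → Matrix m m k) → Fin 3 → Matrix n n k)
    (hg : ∀ S z, co (g S) z = MvPolynomial.eval (co S) (c z))
    (h : ∀ S, Curv S → Cl (g S)) {S : Fin 3 → Matrix m m k} (hS : Cl S) : Cl (g S) := by
  intro F hF
  have hev : ∀ S, MvPolynomial.eval (co (g S)) F =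
      MvPolynomial.eval (co S) (MvPolynomial.aeval c F) := by
    intro S
    have h1 : ((MvPolynomial.aeval (co S) : MvPolynomial (Fin 3 × m × m) k →ₐ[k] k).comp
        (MvPolynomial.aeval c)) =
        (MvPolynomial.aeval (co (g S)) : MvPolynomial (Fin 3 × n × n) k →ₐ[k] k) := by
      apply MvPolynomial.algHom_ext
      intro z
      rw [AlgHom.comp_apply, MvPolynomial.aeval_X, MvPolynomial.aeval_X, hg]
      rfl
    have h2 := congrArg (fun f => f F) h1
    simp only [AlgHom.comp_apply] at h2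
    exact h2.symm
  rw [hev]
  exact hS _ fun S' hS' => by
    rw [← hev]
    exact h S' hS' F hF

theorem dsum_pow (A : Matrix m m k) (D : Matrix n n k) (i : ℕ) :
    (Matrix.fromBlocks A 0 0 D) ^ i = Matrix.fromBlocks (A ^ i) 0 0 (D ^ i) :=
  Matrix.fromBlocks_diagonal_pow A D i

theorem nilp_dsum {A : Matrix m m k} {D : Matrix n n k} :
    IsNilpotent (Matrix.fromBlocks A 0 0 D) ↔ IsNilpotent A ∧ IsNilpotent D := by
  constructor
  · rintro ⟨e, he⟩
    rw [dsum_pow, ← Matrix.fromBlocks_zero, Matrix.fromBlocks_inj] at he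
    exact ⟨⟨e, he.1⟩, ⟨e, he.2.2.2⟩⟩
  · rintro ⟨⟨e, he⟩, ⟨f, hf⟩⟩
    refine ⟨e + f, ?_⟩
    rw [dsum_pow, pow_add, he, zero_mul, pow_add, hf, mul_zero, Matrix.fromBlocks_zero]

end DecompAux

open DecompAux

/-- direct sum of two triples -/
def dsum (S : Fin 3 → Matrix m m k) (T : Fin 3 → Matrix n n k) :
    Fin 3 → Matrix (m ⊕ n) (m ⊕ n) k := fun i => Matrix.fromBlocks (S i) 0 0 (T i)

theorem cn_dsum {S : Fin 3 → Matrix m m k} {T : Fin 3 → Matrix n n k} :
    CN (dsum S T) ↔ CN S ∧ CN T := by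
  have h1 : ∀ i j, dsum S T i * dsum S T j = Matrix.fromBlocks (S i * S j) 0 0 (T i * T j) := by
    intro i j
    simp [dsum, Matrix.fromBlocks_multiply]
  constructor
  · intro h
    refine ⟨⟨fun i j => ?_, fun i => (nilp_dsum.1 (h.2 i)).1⟩,
      ⟨fun i j => ?_, fun i => (nilp_dsum.1 (h.2 i)).2⟩⟩
    · have h2 := h.1 i j
      rw [h1, h1, Matrix.fromBlocks_inj] at h2
      exact h2.1
    · have h2 := h.1 i j
      rw [h1, h1, Matrix.fromBlocks_inj] at h2
      exact h2.2.2.2
  · rintro ⟨hS, hT⟩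
    refine ⟨fun i j => ?_, fun i => nilp_dsum.2 ⟨hS.2 i, hT.2 i⟩⟩
    rw [h1, h1, hS.1 i j, hT.1 i j]

namespace DecompAux

theorem cl_sum_curv [IsAlgClosed k] [CharZero k] {S : Fin 3 → Matrix m m k}
    {T : Fin 3 → Matrix n n k} (hS : Curv S) (hT : Curv T) : Cl (dsum S T) := by
  obtain ⟨N, hN, hN', p, hp⟩ : ∃ N : Matrix m m k, N ^ Fintype.card m = 0 ∧
      N ^ (Fintype.card m - 1) ≠ 0 ∧ ∃ p : Fin 3 → Polynomial k, ∀ i, (p i).coeff 0 = 0 ∧
        S i = Polynomial.aeval N (p i) := by
    obtain ⟨N, h1, h2, h3⟩ := hS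
    choose p hp using h3
    exact ⟨N, h1, h2, p, hp⟩
  obtain ⟨R, hR, hR', q, hq⟩ : ∃ N : Matrix n n k, N ^ Fintype.card n = 0 ∧
      N ^ (Fintype.card n - 1) ≠ 0 ∧ ∃ p : Fin 3 → Polynomial k, ∀ i, (p i).coeff 0 = 0 ∧
        T i = Polynomial.aeval N (p i) := by
    obtain ⟨N, h1, h2, h3⟩ := hT
    choose p hp using h3
    exact ⟨N, h1, h2, p, hp⟩
  have hm : 0 < Fintype.card m := by
    rcases Nat.eq_zero_or_pos (Fintype.card m) with h | h
    · rw [h] at hN hN'
      exact absurd hN hN'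
    · exact h
  have hn : 0 < Fintype.card n := by
    rcases Nat.eq_zero_or_pos (Fintype.card n) with h | h
    · rw [h] at hR hR'
      exact absurd hR hR'
    · exact h
  by_contra h0
  let D : Fin 3 → Matrix (m ⊕ n) (m ⊕ n) k := ![Matrix.fromBlocks N 0 0 R, 0, 0]
  let P : k → Fin 3 → Polynomial k := fun s => ![p 0 + Polynomial.C s * Polynomial.X, p 1, p 2]
  let Q : k → Fin 3 → Polynomial k := fun s => ![q 0 + Polynomial.C s * Polynomial.X, q 1, q 2]
  have hc : ∀ s, dsum S T + s • D = dsum (fun i => Polynomial.aeval N (P s i))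
      (fun i => Polynomial.aeval R (Q s i)) := by
    intro s
    funext i
    have e1 : (dsum S T + s • D) i = dsum S T i + s • D i := rfl
    rw [e1]
    fin_cases i
    · show Matrix.fromBlocks (S 0) 0 0 (T 0) + s • Matrix.fromBlocks N 0 0 R =
        Matrix.fromBlocks (Polynomial.aeval N (p 0 + Polynomial.C s * Polynomial.X)) 0 0
          (Polynomial.aeval R (q 0 + Polynomial.C s * Polynomial.X))
      rw [Matrix.fromBlocks_smul, Matrix.fromBlocks_add, (hp 0).2, (hq 0).2, map_add, map_add,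
        map_mul, map_mul, Polynomial.aeval_C, Polynomial.aeval_C, Polynomial.aeval_X,
        Polynomial.aeval_X, ← Algebra.smul_def, ← Algebra.smul_def, smul_zero, add_zero,
        smul_zero, add_zero]
    · simp [dsum, D, P, Q, hp 1, hq 1]
    · simp [dsum, D, P, Q, hp 2, hq 2]
  have hP : ∀ s i, (P s i).coeff 0 = 0 := by
    intro s i
    fin_cases i
    · simp [P, hp 0]
    · simp [P, hp 1]
    · simp [P, hp 2]
  have hQ : ∀ s i, (Q s i).coeff 0 = 0 := by
    intro s i
    fin_cases i
    · simp [Q, hq 0]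
    · simp [Q, hq 1]
    · simp [Q, hq 2]
  have hf := finite_cl (fun s => dsum S T + s • D) (PolyFam.line _ _) (by
    simpa using h0)
  have hi : ({-(p 0).coeff 1, -(q 0).coeff 1}ᶜ : Set k).Infinite :=
    (Set.toFinite _).infinite_compl
  refine hi (hf.subset fun s hs => ?_)
  simp only [Set.mem_compl_iff, Set.mem_insert_iff, Set.mem_singleton_iff, not_or] at hs
  show Cl (dsum S T + s • D)
  rw [hc]
  refine cl_corank (M := dsum (fun i => Polynomial.aeval N (P s i))
      (fun i => Polynomial.aeval R (Q s i)) 0) (by simp; omega)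
    (cn_dsum.2 ⟨cn_aeval ⟨_, hN⟩ (hP s), cn_aeval ⟨_, hR⟩ (hQ s)⟩) (mem_adj _ 0) ?_
  have r1 : Fintype.card m - 1 ≤ (Polynomial.aeval N (P s 0)).rank :=
    aeval_rank ⟨_, hN⟩ hN' (hP s 0) (by
      have e : (P s 0).coeff 1 = (p 0).coeff 1 + s := by simp [P]
      rw [e]
      intro e2
      exact hs.1 (by linear_combination e2))
  have r2 : Fintype.card n - 1 ≤ (Polynomial.aeval R (Q s 0)).rank :=
    aeval_rank ⟨_, hR⟩ hR' (hQ s 0) (by
      have e : (Q s 0).coeff 1 = (q 0).coeff 1 + s := by simp [Q]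
      rw [e]
      intro e2
      exact hs.2 (by linear_combination e2))
  have r3 := rank_add_le (Polynomial.aeval N (P s 0)) (Polynomial.aeval R (Q s 0))
  have r4 : (dsum (fun i => Polynomial.aeval N (P s i))
      (fun i => Polynomial.aeval R (Q s i)) 0).rank =
      (Matrix.fromBlocks (Polynomial.aeval N (P s 0)) 0 0 (Polynomial.aeval R (Q s 0))).rank := rfl
  rw [r4, Fintype.card_sum]
  omega

end DecompAux

/-- the direct sum of two limits of curvilinear triples is a limit of curvilinear triples -/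
theorem cl_sum [IsAlgClosed k] [CharZero k] {S : Fin 3 → Matrix m m k}
    {T : Fin 3 → Matrix n n k} (hS : Cl S) (hT : Cl T) : Cl (dsum S T) := by
  have h1 : ∀ T : Fin 3 → Matrix n n k, Curv T → Cl (dsum S T) := by
    intro T hT
    refine cl_poly (fun z => match z with
      | (i, Sum.inl x, Sum.inl y) => MvPolynomial.X (i, x, y)
      | (i, Sum.inr x, Sum.inr y) => MvPolynomial.C (T i x y)
      | (_, _, _) => 0) (fun S => dsum S T) ?_ (fun S hS => cl_sum_curv hS hT) hS
    rintro S ⟨i, x | x, y | y⟩ <;> simp [co, dsum]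
  refine cl_poly (fun z => match z with
      | (i, Sum.inl x, Sum.inl y) => MvPolynomial.C (S i x y)
      | (i, Sum.inr x, Sum.inr y) => MvPolynomial.X (i, x, y)
      | (_, _, _) => 0) (fun T => dsum S T) ?_ h1 hT
  rintro T ⟨i, x | x, y | y⟩ <;> simp [co, dsum]

/-- every triple with a decomposition into two nonzero stable subspaces is a limit of curvilinear
ones, if this holds for all triples of smaller sizes -/
theorem cl_of_isCompl [IsAlgClosed k] [CharZero k]
    (hall : ∀ r : ℕ, 0 < r → r < Fintype.card n → ∀ T : Fin 3 → Matrix (Fin r) (Fin r) k,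
      CN T → Cl T)
    {T : Fin 3 → Matrix n n k} (hT : CN T) {P Q : Submodule k (n → k)} (h : IsCompl P Q)
    (hP : ∀ i, ∀ v ∈ P, T i *ᵥ v ∈ P) (hQ : ∀ i, ∀ v ∈ Q, T i *ᵥ v ∈ Q)
    (hP0 : P ≠ ⊥) (hQ0 : Q ≠ ⊥) : Cl T := by
  have hr : 0 < Module.finrank k P := by
    rw [Nat.pos_iff_ne_zero]
    intro h1
    exact hP0 (Submodule.finrank_eq_zero.1 h1)
  have hs : 0 < Module.finrank k Q := by
    rw [Nat.pos_iff_ne_zero]
    intro h1
    exact hQ0 (Submodule.finrank_eq_zero.1 h1)
  have hrs : Module.finrank k P + Module.finrank k Q = Fintype.card n := by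
    rw [Submodule.finrank_add_eq_of_isCompl h]
    simp
  let b : Module.Basis (Fin (Module.finrank k P) ⊕ Fin (Module.finrank k Q)) k (n → k) :=
    ((Module.finBasis k P).prod (Module.finBasis k Q)).map (P.prodEquivOfIsCompl Q h)
  have b1 : ∀ x, b (Sum.inl x) ∈ P := by
    intro x
    simp [b]
  have b2 : ∀ x, b (Sum.inr x) ∈ Q := by
    intro x
    simp [b]
  have c1 : ∀ v ∈ P, ∀ y, b.repr v (Sum.inr y) = 0 := by
    intro v hv y
    have h2 := (Submodule.prodEquivOfIsCompl_symm_apply_snd_eq_zero P Q h).2 hv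
    rw [Submodule.prodEquivOfIsCompl_symm_apply] at h2
    simp only at h2
    simp [b, h2]
  have c2 : ∀ v ∈ Q, ∀ y, b.repr v (Sum.inl y) = 0 := by
    intro v hv y
    have h2 := (Submodule.prodEquivOfIsCompl_symm_apply_fst_eq_zero P Q h).2 hv
    rw [Submodule.prodEquivOfIsCompl_symm_apply] at h2
    simp only at h2
    simp [b, h2]
  let Φ : Matrix n n k ≃ₐ[k] Matrix (Fin (Module.finrank k P) ⊕ Fin (Module.finrank k Q))
      (Fin (Module.finrank k P) ⊕ Fin (Module.finrank k Q)) k :=
    (Matrix.toLinAlgEquiv' : Matrix n n k ≃ₐ[k] ((n → k) →ₗ[k] (n → k))).trans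
      (LinearMap.toMatrixAlgEquiv b)
  have hΦ : ∀ M x y, Φ M x y = b.repr (M *ᵥ b y) x := by
    intro M x y
    show LinearMap.toMatrixAlgEquiv b (Matrix.toLinAlgEquiv' M) x y = _
    rw [LinearMap.toMatrixAlgEquiv_apply]
    rfl
  have hD : (fun i => Φ (T i)) = dsum (fun i => (Φ (T i)).toBlocks₁₁)
      (fun i => (Φ (T i)).toBlocks₂₂) := by
    funext i
    rw [← Matrix.fromBlocks_toBlocks (Φ (T i))]
    show _ = Matrix.fromBlocks _ 0 0 _
    rw [Matrix.fromBlocks_inj]
    refine ⟨by simp, ?_, ?_, by simp⟩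
    · ext x y
      show Φ (T i) (Sum.inl x) (Sum.inr y) = 0
      rw [hΦ]
      exact c2 _ (hQ i _ (b2 y)) x
    · ext x y
      show Φ (T i) (Sum.inr x) (Sum.inl y) = 0
      rw [hΦ]
      exact c1 _ (hP i _ (b1 y)) x
  have hc : CN fun i => Φ (T i) := by
    refine ⟨fun i j => ?_, fun i => (hT.2 i).map Φ⟩
    show Φ (T i) * Φ (T j) = Φ (T j) * Φ (T i)
    rw [← map_mul, hT.1 i j, map_mul]
  rw [hD, cn_dsum] at hc
  have h1 := cl_sum (hall _ hr (by omega) _ hc.1) (hall _ hs (by omega) _ hc.2)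
  rw [← hD] at h1
  have h2 := Cl.mapEquiv Φ.symm (by simp [hrs]) h1
  simpa using h2

/-- no nontrivial idempotents commute with a maximal bad triple of minimal size -/
theorem cl_of_idem [IsAlgClosed k] [CharZero k]
    (hall : ∀ r : ℕ, 0 < r → r < Fintype.card n → ∀ T : Fin 3 → Matrix (Fin r) (Fin r) k,
      CN T → Cl T)
    {T : Fin 3 → Matrix n n k} (hT : CN T) {e : Matrix n n k} (he : e * e = e)
    (hc : ∀ i, e * T i = T i * e) (h0 : e ≠ 0) (h1 : e ≠ 1) : Cl T := by
  have hI : IsIdempotentElem (Matrix.mulVecLin e) := by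
    show Matrix.mulVecLin e * Matrix.mulVecLin e = Matrix.mulVecLin e
    have h2 := Matrix.mulVecLin_mul e e
    rw [he] at h2
    exact h2.symm
  refine cl_of_isCompl hall hT (LinearMap.IsIdempotentElem.isCompl hI) ?_ ?_ ?_ ?_
  · rintro i _ ⟨v, rfl⟩
    refine ⟨T i *ᵥ v, ?_⟩
    simp only [Matrix.mulVecLin_apply, Matrix.mulVec_mulVec, hc]
  · intro i v hv
    rw [LinearMap.mem_ker, Matrix.mulVecLin_apply] at hv ⊢
    rw [Matrix.mulVec_mulVec, hc, ← Matrix.mulVec_mulVec, hv, Matrix.mulVec_zero]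
  · intro h2
    rw [LinearMap.range_eq_bot] at h2
    apply h0
    apply Matrix.toLin'.injective
    rw [map_zero]
    exact h2
  · intro h2
    apply h1
    apply Matrix.toLin'.injective
    apply LinearMap.ext
    intro v
    have h3 : v - e *ᵥ v ∈ LinearMap.ker (Matrix.mulVecLin e) := by
      rw [LinearMap.mem_ker, Matrix.mulVecLin_apply, Matrix.mulVec_sub, Matrix.mulVec_mulVec, he,
        sub_self]
    rw [h2, Submodule.mem_bot, sub_eq_zero] at h3
    rw [Matrix.toLin'_apply, Matrix.toLin'_apply, Matrix.one_mulVec]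
    exact h3.symm

/-- a maximal bad triple of minimal size is indecomposable -/
theorem MaxR.indec [IsAlgClosed k] [CharZero k]
    (hall : ∀ r : ℕ, 0 < r → r < Fintype.card n → ∀ T : Fin 3 → Matrix (Fin r) (Fin r) k,
      CN T → Cl T)
    {ρ : ℕ → ℕ} {T : Fin 3 → Matrix n n k} (hT : MaxR ρ T) {e : Matrix n n k} (he : e * e = e)
    (hc : ∀ i, e * T i = T i * e) : e = 0 ∨ e = 1 := by
  by_contra h
  rw [not_or] at h
  exact hT.ncl (cl_of_idem hall hT.cn he hc h.1 h.2)

/-- socle vectors of a maximal bad triple of minimal size are killed by the socle vectors of the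
transposed triple -/
theorem MaxR.socle [IsAlgClosed k] [CharZero k]
    (hall : ∀ r : ℕ, 0 < r → r < Fintype.card n → ∀ T : Fin 3 → Matrix (Fin r) (Fin r) k,
      CN T → Cl T)
    {ρ : ℕ → ℕ} {T : Fin 3 → Matrix n n k} (hT : MaxR ρ T) (hn : 2 ≤ Fintype.card n)
    {v w : n → k} (hv : ∀ i, T i *ᵥ v = 0) (hw : ∀ i, w ᵥ* T i = 0) : w ⬝ᵥ v = 0 := by
  by_contra h
  have h1 := MaxR.indec hall hT (e := (w ⬝ᵥ v)⁻¹ • Matrix.vecMulVec v w) (by
    rw [Matrix.smul_mul, Matrix.mul_smul, Matrix.vecMulVec_mul_vecMulVec, smul_smul]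
    rw [Matrix.vecMulVec_smul, smul_smul]
    congr 1
    field_simp) (fun i => by
    rw [Matrix.smul_mul, Matrix.mul_smul, Matrix.vecMulVec_mul, Matrix.mul_vecMulVec, hv, hw]
    simp)
  rcases h1 with h1 | h1
  · have h2 := congrArg (fun M => w ⬝ᵥ (M *ᵥ v)) h1
    simp only [Matrix.smul_mulVec, Matrix.vecMulVec_mulVec, Matrix.zero_mulVec,
      dotProduct_zero] at h2
    simp at h2
    exact h h2
  · have h2 := congrArg Matrix.rank h1
    rw [Matrix.rank_one] at h2
    have h3 : ((w ⬝ᵥ v)⁻¹ • Matrix.vecMulVec v w).rank ≤ 1 := by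
      rw [← Matrix.smul_vecMulVec]
      exact Matrix.rank_vecMulVec_le _ _
    omega

end Pool.Agent.Lib.D13
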