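import Pool.Agent.Lib.D9.Blk
import Pool.Agent.Lib.D9.BlkMap
import Pool.Agent.Lib.D9.FamsB

/-!
# MP_5dcbc3_ag: type `(3, 2^u, 1^p)`, `u >= 2`, case `b = 0`, `et = 0`, `th = 0`

`(a, a')` is moved to a pair of independent vectors, then the triple is conjugate to `T1X q c r g`
with `q = u - 2`, `c = 1 + u + p`.
-/

namespace Pool.Agent.Lib.D13

open Matrix Pool.Agent.Lib.Q5dc Pool.Agent.Lib.D7 Pool.Agent.Lib.D9

variable {k : Type*} [Field k]

namespace E1TAux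

/-! ### linear algebra -/

/-- basis vector, as a column -/
def uv (k : Type*) [Field k] {m : ℕ} (i : Fin m) : Matrix (Fin m) (Fin 1) k :=
  Matrix.of fun j _ => if j = i then 1 else 0

theorem mul_uv {l m : ℕ} (M : Matrix (Fin l) (Fin m) k) (j : Fin m) (i : Fin l) (x : Fin 1) :
    (M * uv k j) i x = M i j := by
  rw [Matrix.mul_apply, Finset.sum_eq_single j]
  · simp [uv]
  · intro b _ hb
    simp [uv, hb]
  · simp

theorem exists_perm {n : ℕ} {i0 i1 : Fin (n + 2)} (h : i0 ≠ i1) :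
    ∃ τ : Equiv.Perm (Fin (n + 2)), τ 0 = i0 ∧ τ 1 = i1 := by
  have h01 : (0 : Fin (n + 2)) ≠ 1 := by simp
  refine ⟨Equiv.swap 0 i0 * Equiv.swap 1 (Equiv.swap 0 i0 i1), ?_, ?_⟩
  · rw [Equiv.Perm.mul_apply, Equiv.swap_apply_of_ne_of_ne h01, Equiv.swap_apply_left]
    intro h1
    have h2 := congrArg (Equiv.swap 0 i0) h1
    rw [Equiv.swap_apply_left, Equiv.swap_apply_self] at h2
    exact h h2
  · rw [Equiv.Perm.mul_apply, Equiv.swap_apply_left, Equiv.swap_apply_self]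

/-- two independent vectors are carried to the first two basis vectors -/
theorem exists_two {n : ℕ} (a a' : Matrix (Fin (n + 2)) (Fin 1) k) {i0 i1 : Fin (n + 2)}
    (hi : i0 ≠ i1) (hd : a i0 0 * a' i1 0 - a i1 0 * a' i0 0 ≠ 0) :
    ∃ H H' : Matrix (Fin (n + 2)) (Fin (n + 2)) k, H * H' = 1 ∧
      H * a = uv k (0 : Fin (n + 2)) ∧ H * a' = uv k (1 : Fin (n + 2)) := by
  obtain ⟨τ, h0, h1⟩ := exists_perm hi
  have h01 : (0 : Fin (n + 2)) ≠ 1 := by simp
  obtain ⟨M, hM⟩ : ∃ M : Matrix (Fin (n + 2)) (Fin (n + 2)) k, M = Matrix.of fun i j =>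
      if j = 0 then a i 0 else if j = 1 then a' i 0 else if i = τ j then 1 else 0 := ⟨_, rfl⟩
  have hMa : M * uv k (0 : Fin (n + 2)) = a := by
    ext i j
    rw [mul_uv, hM, Matrix.of_apply, if_pos rfl, Subsingleton.elim j 0]
  have hMa' : M * uv k (1 : Fin (n + 2)) = a' := by
    ext i j
    rw [mul_uv, hM, Matrix.of_apply, if_neg h01.symm, if_pos rfl, Subsingleton.elim j 0]
  have hinj : Function.Injective M.mulVec := by
    rw [← Matrix.coe_mulVecLin, ← LinearMap.ker_eq_bot, LinearMap.ker_eq_bot']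
    intro x hx
    rw [Matrix.mulVecLin_apply] at hx
    have hrow : ∀ i, x 0 * a i 0 + x 1 * a' i 0 +
        (if τ.symm i = 0 ∨ τ.symm i = 1 then 0 else x (τ.symm i)) = 0 := by
      intro i
      have e1 := congrFun hx i
      rw [Matrix.mulVec, dotProduct, Pi.zero_apply] at e1
      have e2 : ∀ j, M i j * x j = (if j = 0 then x 0 * a i 0 else 0) +
          (if j = 1 then x 1 * a' i 0 else 0) +
          (if j = τ.symm i then (if j = 0 ∨ j = 1 then 0 else x j) else 0) := by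
        intro j
        rw [hM, Matrix.of_apply]
        by_cases hj0 : j = 0
        · subst hj0
          simp [h01, mul_comm]
        · by_cases hj1 : j = 1
          · subst hj1
            simp [h01.symm, mul_comm]
          · simp only [hj0, hj1, if_false, or_self, zero_add]
            by_cases hj : i = τ j
            · rw [if_pos hj, if_pos (by rw [hj, Equiv.symm_apply_apply])]
              ring
            · rw [if_neg hj, if_neg (fun h => hj (by rw [h, Equiv.apply_symm_apply]))]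
              ring
      simp only [e2, Finset.sum_add_distrib, Finset.sum_ite_eq', Finset.mem_univ, if_true] at e1
      exact e1
    have r0 := hrow i0
    have r1 := hrow i1
    rw [← h0, Equiv.symm_apply_apply, if_pos (Or.inl rfl), h0] at r0
    rw [← h1, Equiv.symm_apply_apply, if_pos (Or.inr rfl), h1] at r1
    have x0 : x 0 = 0 := by
      have : (a i0 0 * a' i1 0 - a i1 0 * a' i0 0) * x 0 = 0 := by
        linear_combination a' i1 0 * r0 - a' i0 0 * r1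
      exact (mul_eq_zero.1 this).resolve_left hd
    have x1 : x 1 = 0 := by
      have : (a i0 0 * a' i1 0 - a i1 0 * a' i0 0) * x 1 = 0 := by
        linear_combination a i0 0 * r1 - a i1 0 * r0
      exact (mul_eq_zero.1 this).resolve_left hd
    funext j
    by_cases hj0 : j = 0
    · rw [hj0, x0, Pi.zero_apply]
    by_cases hj1 : j = 1
    · rw [hj1, x1, Pi.zero_apply]
    have r2 := hrow (τ j)
    rw [Equiv.symm_apply_apply, if_neg (by simp [hj0, hj1]), x0, x1] at r2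
    simpa using r2
  have hu : IsUnit M.det := by
    rw [← Matrix.isUnit_iff_isUnit_det]
    exact Matrix.mulVec_injective_iff_isUnit.1 hinj
  refine ⟨M⁻¹, M, Matrix.nonsing_inv_mul M hu, ?_, ?_⟩
  · rw [← hMa, ← Matrix.mul_assoc, Matrix.nonsing_inv_mul M hu, Matrix.one_mul]
  · rw [← hMa', ← Matrix.mul_assoc, Matrix.nonsing_inv_mul M hu, Matrix.one_mul]

/-! ### identification with `T1X` -/

/-- rows and columns of the unordered pairs -/
def ri : Fin 6 → Fin 3 := ![0, 0, 0, 1, 1, 2]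

/-- rows and columns of the unordered pairs -/
def ci : Fin 6 → Fin 3 := ![0, 1, 2, 1, 2, 2]

/-- splitting `Fin (q + 2)` -/
def s2 (q : ℕ) : Fin (q + 2) ≃ Fin 2 ⊕ Fin q where
  toFun j := if h : (j : ℕ) < 2 then .inl ⟨j, h⟩ else .inr ⟨(j : ℕ) - 2, by omega⟩
  invFun := Sum.elim (fun j => ⟨j, by omega⟩) (fun j => ⟨(j : ℕ) + 2, by omega⟩)
  left_inv j := by
    by_cases h : (j : ℕ) < 2
    · simp [h]
    · simp only [h, dite_false, Sum.elim_inr]
      ext
      simp only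
      omega
  right_inv j := by
    rcases j with j | j
    · have := j.2
      simp [this]
    · simp

/-- the basis of the level 2 -/
def f2 (q p : ℕ) : Fin 1 ⊕ (Fin (q + 2) ⊕ Fin p) ≃ Fin (1 + (q + 2 + p)) :=
  (Equiv.sumCongr (Equiv.refl _) finSumFinEquiv).trans finSumFinEquiv

/-- the numbering of the basis: inverse direction -/
def fT (q p : ℕ) : Fin 1 ⊕ ((Fin 3 ⊕ Fin q) ⊕ Fin (1 + (q + 2 + p))) → Ix 1 (q + 2) p
  | .inl _ => .inl (.inl 0)
  | .inr (.inl (.inl i)) => ![.inl (.inr (.inl 0)), .inr (.inl (.inl 0)), .inr (.inl (.inl 1))] i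
  | .inr (.inl (.inr l)) => .inr (.inl (.inl ((s2 q).symm (.inr l))))
  | .inr (.inr m) => match (f2 q p).symm m with
    | .inl _ => .inl (.inr (.inr 0))
    | .inr (.inl j) => .inr (.inl (.inr j))
    | .inr (.inr j) => .inr (.inr j)

/-- the numbering of the basis -/
def gT (q p : ℕ) : Ix 1 (q + 2) p → Fin 1 ⊕ ((Fin 3 ⊕ Fin q) ⊕ Fin (1 + (q + 2 + p)))
  | .inl (.inl _) => .inl 0
  | .inl (.inr (.inl _)) => .inr (.inl (.inl 0))
  | .inl (.inr (.inr _)) => .inr (.inr (f2 q p (.inl 0)))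
  | .inr (.inl (.inl j)) => match s2 q j with
    | .inl j => .inr (.inl (.inl (![1, 2] j)))
    | .inr j => .inr (.inl (.inr j))
  | .inr (.inl (.inr j)) => .inr (.inr (f2 q p (.inr (.inl j))))
  | .inr (.inr j) => .inr (.inr (f2 q p (.inr (.inr j))))

theorem gT_fT (q p : ℕ) (x) : gT q p (fT q p x) = x := by
  rcases x with x | ((x | x) | x)
  · simp [gT, fT, Subsingleton.elim x 0]
  · fin_cases x <;> rfl
  · simp [gT, fT]
  · obtain ⟨y, rfl⟩ := (f2 q p).surjective x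
    rcases y with y | (y | y)
    · simp [gT, fT, Subsingleton.elim y 0]
    · simp [gT, fT]
    · simp [gT, fT]

theorem fT_gT (q p : ℕ) (x) : fT q p (gT q p x) = x := by
  rcases x with (x | x | x) | ((x | x) | x)
  · simp [gT, fT, Subsingleton.elim x 0]
  · simp [gT, fT, Subsingleton.elim x 0]
  · simp [gT, fT, Subsingleton.elim x 0]
  · obtain ⟨y, rfl⟩ := (s2 q).symm.surjective x
    rcases y with y | y
    · fin_cases y <;> rfl
    · simp [gT, fT]
  · simp [gT, fT]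
  · simp [gT, fT]

/-- the numbering of the basis -/
def eT (q p : ℕ) : Ix 1 (q + 2) p ≃ Fin 1 ⊕ ((Fin 3 ⊕ Fin q) ⊕ Fin (1 + (q + 2 + p))) :=
  ⟨gT q p, fT q p, fT_gT q p, gT_fT q p⟩

theorem s2_symm_ne0 (q : ℕ) (l : Fin q) : ((s2 q).symm (.inr l)) ≠ 0 := by
  intro h
  have := congrArg Fin.val h
  simp [s2] at this

theorem s2_symm_ne1 (q : ℕ) (l : Fin q) : ((s2 q).symm (.inr l)) ≠ 1 := by
  intro h
  have := congrArg Fin.val h
  simp [s2] at this

section ident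

variable {q p : ℕ} {d d' : Matrix (Fin 1) (Fin (q + 2)) k}
  {nu nu' : Matrix (Fin (q + 2)) (Fin (q + 2)) k} {pi pi' : Matrix (Fin p) (Fin (q + 2)) k}

/-- the triple before the renumbering -/
def Tr (d d' : Matrix (Fin 1) (Fin (q + 2)) k)
    (nu nu' : Matrix (Fin (q + 2)) (Fin (q + 2)) k) (pi pi' : Matrix (Fin p) (Fin (q + 2)) k) :
    Fin 3 → Matrix (Ix 1 (q + 2) p) (Ix 1 (q + 2) p) k :=
  ![JX k 1 (q + 2) p, BX 0 0 (uv k 0) 0 0 0 d nu pi 0 0, BX 0 0 (uv k 1) 0 0 0 d' nu' pi' 0 0]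

theorem ident (h1 : d 0 1 = d' 0 0) (h2 : ∀ i, nu i 1 = nu' i 0) (h3 : ∀ i, pi i 1 = pi' i 0) :
    (fun i => Matrix.reindexAlgEquiv k k (eT q p) (Tr d d' nu nu' pi pi' i)) =
      T1X q (1 + (q + 2 + p))
        (fun x => Tr d d' nu nu' pi pi' (ri x.1) (fT q p (.inr (.inr x.2)))
          (fT q p (.inr (.inl (.inl (ci x.1))))))
        (fun x => Tr d d' nu nu' pi pi' x.1 (fT q p (.inr (.inr x.2.2)))
          (fT q p (.inr (.inl (.inr x.2.1))))) := by
  have n0 := s2_symm_ne0 q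
  have n1 := s2_symm_ne1 q
  have h01 : (0 : Fin (q + 2)) ≠ 1 := by simp
  funext i
  ext x y
  show Tr d d' nu nu' pi pi' i (fT q p x) (fT q p y) = _
  rcases x with x | ((x | x) | x)
  · rcases y with y | ((y | y) | y)
    · fin_cases i <;> simp [Tr, fT, JX, BX, T1X]
    · fin_cases i <;> fin_cases y <;> simp [Tr, fT, JX, BX, T1X]
    · fin_cases i <;> simp [Tr, fT, JX, BX, T1X]
    · obtain ⟨y, rfl⟩ := (f2 q p).surjective y
      rcases y with y | (y | y) <;> fin_cases i <;> simp [Tr, fT, JX, BX, T1X]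
  · rcases y with y | ((y | y) | y)
    · fin_cases i <;> fin_cases x <;> simp [Tr, fT, JX, BX, T1X, uv]
    · fin_cases i <;> fin_cases x <;> fin_cases y <;> simp [Tr, fT, JX, BX, T1X]
    · fin_cases i <;> fin_cases x <;> simp [Tr, fT, JX, BX, T1X]
    · obtain ⟨y, rfl⟩ := (f2 q p).surjective y
      rcases y with y | (y | y) <;> fin_cases i <;> fin_cases x <;> simp [Tr, fT, JX, BX, T1X]
  · rcases y with y | ((y | y) | y)
    · fin_cases i <;> simp [Tr, fT, JX, BX, T1X, uv, n0, n1]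
    · fin_cases i <;> fin_cases y <;> simp [Tr, fT, JX, BX, T1X]
    · fin_cases i <;> simp [Tr, fT, JX, BX, T1X]
    · obtain ⟨y, rfl⟩ := (f2 q p).surjective y
      rcases y with y | (y | y) <;> fin_cases i <;> simp [Tr, fT, JX, BX, T1X]
  · obtain ⟨x, rfl⟩ := (f2 q p).surjective x
    rcases y with y | ((y | y) | y)
    · rcases x with x | (x | x) <;> fin_cases i <;> simp [Tr, fT, JX, BX, T1X]
    · rcases x with x | (x | x) <;> fin_cases i <;> fin_cases y <;>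
        simp [Tr, fT, JX, BX, T1X, ix, ri, ci, uv, Matrix.one_apply, h1, h2, h3]
    · rfl
    · obtain ⟨y, rfl⟩ := (f2 q p).surjective y
      rcases x with x | (x | x) <;> rcases y with y | (y | y) <;> fin_cases i <;>
        simp [Tr, fT, JX, BX, T1X]

end ident

/-! ### the steps -/

variable {ρ : ℕ → ℕ} {q p : ℕ}

/-- final step -/
theorem step4 [Infinite k] {d d' : Matrix (Fin 1) (Fin (q + 2)) k}
    {nu nu' : Matrix (Fin (q + 2)) (Fin (q + 2)) k} {pi pi' : Matrix (Fin p) (Fin (q + 2)) k}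
    (hcl : ∀ (r : Fin 6 × Fin (1 + (q + 2 + p)) → k) (g : Fin 3 × Fin q × Fin (1 + (q + 2 + p)) → k),
      Cl (T1X q (1 + (q + 2 + p)) r g))
    (hT : MaxR ρ ![JX k 1 (q + 2) p, BX 0 0 (uv k 0) 0 0 0 d nu pi 0 0,
      BX 0 0 (uv k 1) 0 0 0 d' nu' pi' 0 0]) : False := by
  obtain ⟨-, r1, r2, r3, -, -, -⟩ := (BX_comm ..).1 (hT.cn.1 1 2)
  simp only [Matrix.zero_mul, Matrix.mul_zero, zero_add, add_zero] at r1 r2 r3
  have h1 : d 0 1 = d' 0 0 := by
    have := congrFun (congrFun r1 0) 0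
    rwa [mul_uv, mul_uv] at this
  have h2 : ∀ i, nu i 1 = nu' i 0 := by
    intro i
    have := congrFun (congrFun r2 i) 0
    rwa [mul_uv, mul_uv] at this
  have h3 : ∀ i, pi i 1 = pi' i 0 := by
    intro i
    have := congrFun (congrFun r3 i) 0
    rwa [mul_uv, mul_uv] at this
  refine hT.ncl (D9.BlkMapAux.cl_reindex (eT q p) ?_)
  have h4 := ident (d := d) (d' := d') (nu := nu) (nu' := nu') (pi := pi) (pi' := pi') h1 h2 h3
  have h5 : (fun i => Matrix.reindexAlgEquiv k k (eT q p)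
      ((![JX k 1 (q + 2) p, BX 0 0 (uv k 0) 0 0 0 d nu pi 0 0,
        BX 0 0 (uv k 1) 0 0 0 d' nu' pi' 0 0] : Fin 3 → Matrix (Ix 1 (q + 2) p) (Ix 1 (q + 2) p) k) i)) =
      (fun i => Matrix.reindexAlgEquiv k k (eT q p) (Tr d d' nu nu' pi pi' i)) := rfl
  rw [h5, h4]
  exact hcl _ _

/-- removal of `c`, `w` -/
theorem step3 [Infinite k] {a a' : Matrix (Fin (q + 2)) (Fin 1) k}
    {c c' : Matrix (Fin (q + 2)) (Fin 1) k} {w w' : Matrix (Fin p) (Fin 1) k}
    {d d' : Matrix (Fin 1) (Fin (q + 2)) k}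
    {nu nu' : Matrix (Fin (q + 2)) (Fin (q + 2)) k} {pi pi' : Matrix (Fin p) (Fin (q + 2)) k}
    (hT : MaxR ρ ![JX k 1 (q + 2) p, BX 0 0 a c w 0 d nu pi 0 0, BX 0 0 a' c' w' 0 d' nu' pi' 0 0])
    (C : Matrix (Fin (q + 2)) (Fin (q + 2)) k) (W : Matrix (Fin p) (Fin (q + 2)) k)
    (e1 : C * a = c) (e2 : C * a' = c') (e3 : W * a = w) (e4 : W * a' = w') :
    MaxR ρ ![JX k 1 (q + 2) p, BX 0 0 a 0 0 0 d nu pi 0 0, BX 0 0 a' 0 0 0 d' nu' pi' 0 0] := by
  obtain ⟨N, hN⟩ : ∃ N : Matrix (Ix 1 (q + 2) p) (Ix 1 (q + 2) p) k,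
    N = BX 0 0 0 0 0 0 0 C W 0 0 := ⟨_, rfl⟩
  have hNN : N * N = 0 := by
    rw [hN, BX_mul]
    simp [BX_zero]
  have hg : (1 - N) * (1 + N) = 1 := by
    rw [sub_mul, mul_add, mul_add, hNN]
    simp
  have key : ∀ (x z : Matrix (Fin (q + 2)) (Fin 1) k) (y : Matrix (Fin p) (Fin 1) k)
      (δ : Matrix (Fin 1) (Fin (q + 2)) k) (ν : Matrix (Fin (q + 2)) (Fin (q + 2)) k)
      (ϖ : Matrix (Fin p) (Fin (q + 2)) k), C * x = z → W * x = y →
      (1 - N) * BX 0 0 x z y 0 δ ν ϖ 0 0 * (1 + N) = BX 0 0 x 0 0 0 δ ν ϖ 0 0 := by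
    intro x z y δ ν ϖ h1 h2
    have h3 : BX 0 0 x z y 0 δ ν ϖ 0 0 * N = 0 := by
      rw [hN, BX_mul]
      simp [BX_zero]
    have h4 : N * BX 0 0 x z y 0 δ ν ϖ 0 0 = BX 0 0 0 z y 0 0 0 0 0 0 := by
      rw [hN, BX_mul]
      simp [h1, h2]
    have h5 : BX 0 0 x z y 0 δ ν ϖ 0 0 =
        BX 0 0 x 0 0 0 δ ν ϖ 0 0 + (BX 0 0 0 z y 0 0 0 0 0 0 : Matrix (Ix 1 (q + 2) p) (Ix 1 (q + 2) p) k) := by
      rw [BX_add]
      simp
    rw [sub_mul, one_mul, h4, mul_add, mul_one, sub_mul, h3]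
    have h6 : (BX 0 0 0 z y 0 0 0 0 0 0 : Matrix (Ix 1 (q + 2) p) (Ix 1 (q + 2) p) k) * N = 0 := by
      rw [hN, BX_mul]
      simp [BX_zero]
    rw [h6, sub_zero, add_zero, h5, add_sub_cancel_right]
  have hJ : (1 - N) * JX k 1 (q + 2) p * (1 + N) = JX k 1 (q + 2) p := by
    have h3 : JX k 1 (q + 2) p * N = 0 := by
      rw [hN, JX_mul_BX]
      exact BX_zero
    have h4 : N * JX k 1 (q + 2) p = 0 := by
      rw [hN, BX_mul_JX]
      exact BX_zero
    rw [sub_mul, one_mul, h4, sub_zero, mul_add, mul_one, h3, add_zero]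
  have h1 := hT.conj _ _ hg (mul_eq_one_comm.1 hg)
  have h2 : (fun i => (1 - N) * ((![JX k 1 (q + 2) p, BX 0 0 a c w 0 d nu pi 0 0,
      BX 0 0 a' c' w' 0 d' nu' pi' 0 0] : Fin 3 → Matrix (Ix 1 (q + 2) p) (Ix 1 (q + 2) p) k) i) *
      (1 + N)) = ![JX k 1 (q + 2) p, BX 0 0 a 0 0 0 d nu pi 0 0,
      BX 0 0 a' 0 0 0 d' nu' pi' 0 0] := by
    funext i
    fin_cases i
    · exact hJ
    · exact key _ _ _ _ _ _ e1 e3
    · exact key _ _ _ _ _ _ e2 e4
  rwa [h2] at h1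

/-- change of basis -/
theorem step2 [Infinite k]
    (hcl : ∀ (r : Fin 6 × Fin (1 + (q + 2 + p)) → k) (g : Fin 3 × Fin q × Fin (1 + (q + 2 + p)) → k),
      Cl (T1X q (1 + (q + 2 + p)) r g))
    {a c a' c' : Matrix (Fin (q + 2)) (Fin 1) k} {w w' : Matrix (Fin p) (Fin 1) k}
    {d d' : Matrix (Fin 1) (Fin (q + 2)) k}
    {nu nu' : Matrix (Fin (q + 2)) (Fin (q + 2)) k} {pi pi' : Matrix (Fin p) (Fin (q + 2)) k}
    (hT : MaxR ρ ![JX k 1 (q + 2) p, BX 0 0 a c w 0 d nu pi 0 0, BX 0 0 a' c' w' 0 d' nu' pi' 0 0])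
    {i0 i1 : Fin (q + 2)} (hi : i0 ≠ i1) (hd : a i0 0 * a' i1 0 - a i1 0 * a' i0 0 ≠ 0) :
    False := by
  obtain ⟨H, H', hH, ha, ha'⟩ := exists_two a a' hi hd
  have h1 := MaxR.conjX (g := 1) (g' := 1) (h := H) (h' := H') (l := 1) (l' := 1) hT (mul_one 1)
    hH (mul_one 1)
  simp only [Matrix.mul_one, Matrix.one_mul, Matrix.mul_zero, Matrix.zero_mul] at h1
  rw [ha, ha'] at h1
  obtain ⟨C, hC⟩ : ∃ C : Matrix (Fin (q + 2)) (Fin (q + 2)) k, C = Matrix.of fun i j =>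
    if j = 0 then (H * c) i 0 else if j = 1 then (H * c') i 0 else 0 := ⟨_, rfl⟩
  obtain ⟨W, hW⟩ : ∃ W : Matrix (Fin p) (Fin (q + 2)) k, W = Matrix.of fun i j =>
    if j = 0 then w i 0 else if j = 1 then w' i 0 else 0 := ⟨_, rfl⟩
  have h10 : (1 : Fin (q + 2)) ≠ 0 := by simp
  have h2 := step3 h1 C W
    (by
      ext i j
      rw [mul_uv, hC, Matrix.of_apply, if_pos rfl, Subsingleton.elim j 0])
    (by
      ext i j
      rw [mul_uv, hC, Matrix.of_apply, if_neg h10, if_pos rfl, Subsingleton.elim j 0])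
    (by
      ext i j
      rw [mul_uv, hW, Matrix.of_apply, if_pos rfl, Subsingleton.elim j 0])
    (by
      ext i j
      rw [mul_uv, hW, Matrix.of_apply, if_neg h10, if_pos rfl, Subsingleton.elim j 0])
  exact step4 hcl h2

/-- deformation of `a` -/
theorem step1 [CharZero k]
    (hcl : ∀ (r : Fin 6 × Fin (1 + (q + 2 + p)) → k) (g : Fin 3 × Fin q × Fin (1 + (q + 2 + p)) → k),
      Cl (T1X q (1 + (q + 2 + p)) r g))
    {a c a' c' : Matrix (Fin (q + 2)) (Fin 1) k} {w w' : Matrix (Fin p) (Fin 1) k}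
    {d d' : Matrix (Fin 1) (Fin (q + 2)) k}
    {nu nu' : Matrix (Fin (q + 2)) (Fin (q + 2)) k} {pi pi' : Matrix (Fin p) (Fin (q + 2)) k}
    (hT : MaxR ρ ![JX k 1 (q + 2) p, BX 0 0 a c w 0 d nu pi 0 0, BX 0 0 a' c' w' 0 d' nu' pi' 0 0])
    {x : Matrix (Fin (q + 2)) (Fin 1) k} {φ : Matrix (Fin 1) (Fin (q + 2)) k} (hφ : φ * a' = 1)
    {i0 i1 : Fin (q + 2)} (hi : i0 ≠ i1) (hx : x i0 0 * a' i1 0 - x i1 0 * a' i0 0 ≠ 0) :
    False := by
  obtain ⟨-, r1, r2, r3, -, -, -⟩ := (BX_comm ..).1 (hT.cn.1 1 2)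
  simp only [Matrix.zero_mul, Matrix.mul_zero, zero_add, add_zero] at r1 r2 r3
  have kB : ∀ s : k, BX 0 0 a c w 0 d nu pi 0 0 +
      s • (BX 0 0 x 0 0 0 (d' * x * φ) (nu' * x * φ) (pi' * x * φ) 0 0 :
        Matrix (Ix 1 (q + 2) p) (Ix 1 (q + 2) p) k) =
      BX 0 0 (a + s • x) c w 0 (d + s • (d' * x * φ)) (nu + s • (nu' * x * φ))
        (pi + s • (pi' * x * φ)) 0 0 := by
    intro s
    rw [BX_smul, BX_add]
    simp only [smul_zero, add_zero]
  have key : ∀ {m : ℕ} (s : k) (D D' : Matrix (Fin m) (Fin (q + 2)) k), D * a' = D' * a →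
      (D + s • (D' * x * φ)) * a' = D' * (a + s • x) := by
    intro m s D D' h
    rw [Matrix.add_mul, Matrix.smul_mul, Matrix.mul_assoc (D' * x), hφ, Matrix.mul_one, h,
      Matrix.mul_add, Matrix.mul_smul]
  obtain ⟨s, hs, h1⟩ := D8.MaxR.line2 hT
    (BX 0 0 x 0 0 0 (d' * x * φ) (nu' * x * φ) (pi' * x * φ) 0 0) 0 (fun s => by
      rw [kB, smul_zero, add_zero]
      refine cnX _ _ _ _ _ _ _ _ _ _ _ _ _ _ _ _ _ _ _ _ _ _ ?_ ?_ ?_ ?_ ?_ ?_ ?_
      · simp
      · simp only [Matrix.zero_mul, Matrix.mul_zero, zero_add, add_zero]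
        exact key s _ _ r1
      · simp only [Matrix.zero_mul, Matrix.mul_zero, zero_add, add_zero]
        exact key s _ _ r2
      · exact key s _ _ r3
      · simp
      · simp
      · simp)
    (D8.finite_quad (a := a i0 0 * a' i1 0 - a i1 0 * a' i0 0)
      (b := x i0 0 * a' i1 0 - x i1 0 * a' i0 0) (c := (0 : k)) (Or.inr (Or.inl hx)))
  rw [kB, smul_zero, add_zero] at h1
  rw [Set.mem_ofPred_eq] at hs
  refine step2 hcl h1 hi ?_
  intro h
  apply hs
  simp only [Matrix.add_apply, Matrix.smul_apply, smul_eq_mul] at h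
  linear_combination h

/-- choice of the vector and of the functional -/
theorem step0 [CharZero k]
    (hcl : ∀ (r : Fin 6 × Fin (1 + (q + 2 + p)) → k) (g : Fin 3 × Fin q × Fin (1 + (q + 2 + p)) → k),
      Cl (T1X q (1 + (q + 2 + p)) r g))
    {a c a' c' : Matrix (Fin (q + 2)) (Fin 1) k} {w w' : Matrix (Fin p) (Fin 1) k}
    {d d' : Matrix (Fin 1) (Fin (q + 2)) k}
    {nu nu' : Matrix (Fin (q + 2)) (Fin (q + 2)) k} {pi pi' : Matrix (Fin p) (Fin (q + 2)) k}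
    (hT : MaxR ρ ![JX k 1 (q + 2) p, BX 0 0 a c w 0 d nu pi 0 0, BX 0 0 a' c' w' 0 d' nu' pi' 0 0])
    (ha : a' ≠ 0) : False := by
  obtain ⟨i1, h1⟩ : ∃ i1, a' i1 0 ≠ 0 := by
    by_contra hne
    push Not at hne
    apply ha
    ext i j
    rw [Subsingleton.elim j 0, hne, Matrix.zero_apply]
  obtain ⟨i0, h0⟩ := exists_ne i1
  refine step1 (x := uv k i0) (φ := Matrix.of fun _ j => if j = i1 then (a' i1 0)⁻¹ else 0)
    hcl hT ?_ h0 ?_
  · ext i j
    rw [Subsingleton.elim i 0, Subsingleton.elim j 0, Matrix.mul_apply,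
      Finset.sum_eq_single i1]
    · simp [h1]
    · intro b _ hb
      simp [hb]
    · simp
  · simp [uv, h0.symm, h1]

end E1TAux

open E1TAux

/-- type `(3, 2^u, 1^p)`, `u = q + 2`, case `b = et = th = 0`: no maximal bad triple, if all triples
`T1X q (1 + u + p)` are limits of curvilinear triples -/
theorem no_III1 {k : Type*} [Field k] [CharZero k] {q u p c₂ : ℕ} (hu : u = q + 2)
    (hc : c₂ = 1 + (u + p)) {ρ : ℕ → ℕ}
    (hcl : ∀ (r : Fin 6 × Fin c₂ → k) (g : Fin 3 × Fin q × Fin c₂ → k), Cl (T1X q c₂ r g))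
    {a c a' c' : Matrix (Fin u) (Fin 1) k} {w w' : Matrix (Fin p) (Fin 1) k}
    {d d' : Matrix (Fin 1) (Fin u) k}
    {nu nu' : Matrix (Fin u) (Fin u) k} {pi pi' : Matrix (Fin p) (Fin u) k}
    (hT : MaxR ρ ![JX k 1 u p, BX 0 0 a c w 0 d nu pi 0 0, BX 0 0 a' c' w' 0 d' nu' pi' 0 0])
    (ha : a ≠ 0 ∨ a' ≠ 0) : False := by
  subst hu hc
  rcases ha with ha | ha
  · exact step0 hcl (D8.MaxR.swap hT) ha
  · exact step0 hcl hT ha

end Pool.Agent.Lib.D13
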