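import Pool.Agent.Lib.D9.E1red
import Pool.Agent.Lib.D9.E1I
import Pool.Agent.Lib.D13.E1T

/-!
# MP_5dcbc3_ag: the types `(3, 2^u, 1^p)`, `u >= 2`
-/

namespace Pool.Agent.Lib.D13

open Matrix Pool.Agent.Lib.Q5dc Pool.Agent.Lib.D7 Pool.Agent.Lib.D9

/-- type `(3, 2^u, 1^p)`, `u >= 2`: there is no maximal bad triple of this type if all the triples
`T1X (u + p - 2) (u + 1)` and `T1X (u - 2) (u + p + 1)` are limits of curvilinear triples -/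
theorem no_E1 {k : Type*} [Field k] [CharZero k] {u p q₁ c₁ q₃ c₃ : ℕ} (hq₁ : u + p = q₁ + 2)
    (hc₁ : c₁ = u + 1) (hq₃ : u = q₃ + 2) (hc₃ : c₃ = 1 + (u + p)) {ρ : ℕ → ℕ}
    (h₁ : ∀ (r : Fin 6 × Fin c₁ → k) (g : Fin 3 × Fin q₁ × Fin c₁ → k), Cl (T1X q₁ c₁ r g))
    (h₃ : ∀ (r : Fin 6 × Fin c₃ → k) (g : Fin 3 × Fin q₃ × Fin c₃ → k), Cl (T1X q₃ c₃ r g))
    {T : Fin 3 → Matrix (Ix 1 u p) (Ix 1 u p) k} (hT : MaxR ρ T)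
    (hρ : ∀ i, ρ i = (JX k 1 u p ^ i).rank) (h0 : T 0 = JX k 1 u p) : False := by
  subst hc₁
  obtain ⟨a, c, w, d, nu, pi, th, et, a', c', w', d', nu', pi', th', et', hM, h⟩ :=
    red1 hT hρ h0
  rcases h with ⟨rfl, rfl⟩ | ⟨ha, rfl, rfl, rfl, rfl⟩
  · exact no_I1 hq₁ h₁ hM
  · exact no_III1 hq₃ hc₃ h₃ hM ha

end Pool.Agent.Lib.D13
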