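import Pool.Agent.Lib.D13.E1T

/-!
# MP_5dcbc3_ag: type `(3, 2, 1^p)`, `p >= 2`, case `b = 0`, `et = 0`, `th = 0`

After a linear change `a' = 0`, so that `C` maps `v0` to the socle and everything else to `0`. A
deformation makes `B ^ 2 v0`, `C v0` independent modulo `A ^ 2 v0`, `A B v0`; then the triple is
conjugate to a triple `T1X 0 (1 + p) r g`.
-/

namespace Pool.Agent.Lib.D13

open Matrix Pool.Agent.Lib.Q5dc Pool.Agent.Lib.D7 Pool.Agent.Lib.D9

variable {k : Type*} [Field k]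

namespace E1UAux

open E1TAux

/-- the basis of the level 2 -/
def f2 (m : ℕ) : Fin 1 ⊕ (Fin 1 ⊕ Fin (m + 1)) ≃ Fin (1 + (1 + (m + 1))) :=
  (Equiv.sumCongr (Equiv.refl _) finSumFinEquiv).trans finSumFinEquiv

/-- the numbering of the basis: inverse direction -/
def fU (m : ℕ) : Fin 1 ⊕ ((Fin 3 ⊕ Fin 0) ⊕ Fin (1 + (1 + (m + 1)))) → Ix 1 1 (m + 2)
  | .inl _ => .inl (.inl 0)
  | .inr (.inl (.inl i)) => ![.inl (.inr (.inl 0)), .inr (.inl (.inl 0)), .inr (.inr 0)] i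
  | .inr (.inl (.inr l)) => l.elim0
  | .inr (.inr x) => match (f2 m).symm x with
    | .inl _ => .inl (.inr (.inr 0))
    | .inr (.inl _) => .inr (.inl (.inr 0))
    | .inr (.inr j) => .inr (.inr j.succ)

/-- the numbering of the basis -/
def gU (m : ℕ) : Ix 1 1 (m + 2) → Fin 1 ⊕ ((Fin 3 ⊕ Fin 0) ⊕ Fin (1 + (1 + (m + 1))))
  | .inl (.inl _) => .inl 0
  | .inl (.inr (.inl _)) => .inr (.inl (.inl 0))
  | .inl (.inr (.inr _)) => .inr (.inr (f2 m (.inl 0)))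
  | .inr (.inl (.inl _)) => .inr (.inl (.inl 1))
  | .inr (.inl (.inr _)) => .inr (.inr (f2 m (.inr (.inl 0))))
  | .inr (.inr j) => Fin.cases (.inr (.inl (.inl 2))) (fun j => .inr (.inr (f2 m (.inr (.inr j))))) j

theorem gU_fU (m : ℕ) (x) : gU m (fU m x) = x := by
  rcases x with x | ((x | x) | x)
  · simp [gU, fU, Subsingleton.elim x 0]
  · fin_cases x <;> rfl
  · exact x.elim0
  · obtain ⟨y, rfl⟩ := (f2 m).surjective x
    rcases y with y | (y | y)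
    · simp [gU, fU, Subsingleton.elim y 0]
    · simp [gU, fU, Subsingleton.elim y 0]
    · simp [gU, fU]

theorem fU_gU (m : ℕ) (x) : fU m (gU m x) = x := by
  rcases x with (x | x | x) | ((x | x) | x)
  · simp [gU, fU, Subsingleton.elim x 0]
  · simp [gU, fU, Subsingleton.elim x 0]
  · simp [gU, fU, Subsingleton.elim x 0]
  · simp [gU, fU, Subsingleton.elim x 0]
  · simp [gU, fU, Subsingleton.elim x 0]
  · refine Fin.cases ?_ (fun j => ?_) x
    · rfl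
    · simp [gU, fU]

/-- the numbering of the basis -/
def eU (m : ℕ) : Ix 1 1 (m + 2) ≃ Fin 1 ⊕ ((Fin 3 ⊕ Fin 0) ⊕ Fin (1 + (1 + (m + 1)))) :=
  ⟨gU m, fU m, fU_gU m, gU_fU m⟩

/-- the triple before the renumbering -/
def Tr (m : ℕ) (d nu : Matrix (Fin 1) (Fin 1) k) :
    Fin 3 → Matrix (Ix 1 1 (m + 2)) (Ix 1 1 (m + 2)) k :=
  ![JX k 1 1 (m + 2), BX 0 0 1 0 0 0 d nu (uv k 1) 0 0, BX 0 0 0 0 (uv k 0) 0 0 0 0 0 0]

theorem ident (m : ℕ) (d nu : Matrix (Fin 1) (Fin 1) k) :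
    (fun i => Matrix.reindexAlgEquiv k k (eU m) (Tr m d nu i)) =
      T1X 0 (1 + (1 + (m + 1)))
        (fun x => Tr m d nu (ri x.1) (fU m (.inr (.inr x.2)))
          (fU m (.inr (.inl (.inl (ci x.1))))))
        (fun _ => 0) := by
  have h01 : (0 : Fin (m + 2)) ≠ 1 := by simp
  funext i
  ext x y
  show Tr m d nu i (fU m x) (fU m y) = _
  rcases x with x | ((x | x) | x)
  · rcases y with y | ((y | y) | y)
    · fin_cases i <;> simp [Tr, fU, JX, BX, T1X]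
    · fin_cases i <;> fin_cases y <;> simp [Tr, fU, JX, BX, T1X]
    · exact y.elim0
    · obtain ⟨y, rfl⟩ := (f2 m).surjective y
      rcases y with y | (y | y) <;> fin_cases i <;> simp [Tr, fU, JX, BX, T1X]
  · rcases y with y | ((y | y) | y)
    · fin_cases i <;> fin_cases x <;> simp [Tr, fU, JX, BX, T1X, uv]
    · fin_cases i <;> fin_cases x <;> fin_cases y <;> simp [Tr, fU, JX, BX, T1X, uv]
    · exact y.elim0
    · obtain ⟨y, rfl⟩ := (f2 m).surjective y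
      rcases y with y | (y | y) <;> fin_cases i <;> fin_cases x <;> simp [Tr, fU, JX, BX, T1X]
  · exact x.elim0
  · obtain ⟨x, rfl⟩ := (f2 m).surjective x
    rcases y with y | ((y | y) | y)
    · rcases x with x | (x | x) <;> fin_cases i <;> simp [Tr, fU, JX, BX, T1X, uv]
    · rcases x with x | (x | x) <;> fin_cases i <;> fin_cases y <;>
        simp [Tr, fU, JX, BX, T1X, ix, ri, ci, uv, Matrix.one_apply]
    · exact y.elim0
    · obtain ⟨y, rfl⟩ := (f2 m).surjective y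
      rcases x with x | (x | x) <;> rcases y with y | (y | y) <;> fin_cases i <;>
        simp [Tr, fU, JX, BX, T1X]

/-! ### the steps -/

variable {ρ : ℕ → ℕ} {m p : ℕ}

/-- final step -/
theorem step4 [Infinite k] {d nu : Matrix (Fin 1) (Fin 1) k}
    (hcl : ∀ (r : Fin 6 × Fin (1 + (1 + (m + 1))) → k)
      (g : Fin 3 × Fin 0 × Fin (1 + (1 + (m + 1))) → k), Cl (T1X 0 (1 + (1 + (m + 1))) r g))
    (hT : MaxR ρ ![JX k 1 1 (m + 2), BX 0 0 1 0 0 0 d nu (uv k 1) 0 0,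
      BX 0 0 0 0 (uv k 0) 0 0 0 0 0 0]) : False := by
  refine hT.ncl (D9.BlkMapAux.cl_reindex (eU m) ?_)
  have h5 : (fun i => Matrix.reindexAlgEquiv k k (eU m)
      ((![JX k 1 1 (m + 2), BX 0 0 1 0 0 0 d nu (uv k 1) 0 0,
        BX 0 0 0 0 (uv k 0) 0 0 0 0 0 0] : Fin 3 → Matrix (Ix 1 1 (m + 2)) (Ix 1 1 (m + 2)) k) i)) =
      (fun i => Matrix.reindexAlgEquiv k k (eU m) (Tr m d nu i)) := rfl
  rw [h5, ident]
  exact hcl _ _

/-- conjugation by `1 + N`, `N = C : U_0 -> U_1`, `W : U_0 -> P`, `E : P -> U_1` -/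
theorem conjN {u : ℕ} {x y z x' y' z' : Matrix (Ix 1 u p) (Ix 1 u p) k}
    (hT : MaxR ρ ![x, y, z]) (N : Matrix (Ix 1 u p) (Ix 1 u p) k) (hN : N * N = 0)
    (h1 : (1 - N) * x * (1 + N) = x') (h2 : (1 - N) * y * (1 + N) = y')
    (h3 : (1 - N) * z * (1 + N) = z') : MaxR ρ ![x', y', z'] := by
  have hg : (1 - N) * (1 + N) = 1 := by
    rw [sub_mul, mul_add, mul_add, hN]
    simp
  have h4 := hT.conj _ _ hg (mul_eq_one_comm.1 hg)
  have h5 : (fun i => (1 - N) * ((![x, y, z] : Fin 3 → Matrix (Ix 1 u p) (Ix 1 u p) k) i) *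
      (1 + N)) = ![x', y', z'] := by
    funext i
    fin_cases i
    · exact h1
    · exact h2
    · exact h3
  rwa [h5] at h4

theorem conj_form {u : ℕ} {N X Y Z : Matrix (Ix 1 u p) (Ix 1 u p) k}
    (h1 : N * X = Y) (h2 : X * N = Z) (h3 : N * Z = 0) :
    (1 - N) * X * (1 + N) = X - Y + Z := by
  rw [sub_mul, one_mul, h1, mul_add, mul_one, sub_mul, h2, ← h1, mul_assoc, h2, h3]
  simp

/-- normalisation of `c`, `w`, `c'` -/
theorem step3 [Infinite k] {d nu c c' : Matrix (Fin 1) (Fin 1) k}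
    {w : Matrix (Fin (m + 2)) (Fin 1) k}
    (hcl : ∀ (r : Fin 6 × Fin (1 + (1 + (m + 1))) → k)
      (g : Fin 3 × Fin 0 × Fin (1 + (1 + (m + 1))) → k), Cl (T1X 0 (1 + (1 + (m + 1))) r g))
    (hT : MaxR ρ ![JX k 1 1 (m + 2), BX 0 0 1 c w 0 d nu (uv k 1) 0 0,
      BX 0 0 0 c' (uv k 0) 0 0 0 0 0 0]) : False := by
  have h01 : (0 : Fin (m + 2)) ≠ 1 := by simp
  -- first step: `c = 0`, `w = 0`
  have h1 : MaxR ρ ![JX k 1 1 (m + 2), BX 0 0 1 0 0 0 d nu (uv k 1) 0 0,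
      BX 0 0 0 c' (uv k 0) 0 0 0 0 0 0] := by
    refine conjN hT (BX 0 0 0 0 0 0 0 c w 0 0) ?_ ?_ ?_ ?_
    · rw [BX_mul]
      simp [BX_zero]
    · rw [conj_form (Y := 0) (Z := 0)]
      · simp
      · rw [BX_mul_JX]
        exact BX_zero
      · rw [JX_mul_BX]
        exact BX_zero
      · rw [mul_zero]
    · rw [conj_form (Y := BX 0 0 0 c w 0 0 0 0 0 0) (Z := 0)]
      · have h5 : BX 0 0 1 c w 0 d nu (uv k 1) 0 0 =
            BX 0 0 1 0 0 0 d nu (uv k 1) 0 0 + (BX 0 0 0 c w 0 0 0 0 0 0 :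
              Matrix (Ix 1 1 (m + 2)) (Ix 1 1 (m + 2)) k) := by
          rw [BX_add]
          simp
        rw [h5, add_zero, add_sub_cancel_right]
      · rw [BX_mul]
        simp
      · rw [BX_mul]
        simp [BX_zero]
      · rw [mul_zero]
    · rw [conj_form (Y := 0) (Z := 0)]
      · simp
      · rw [BX_mul]
        simp [BX_zero]
      · rw [BX_mul]
        simp [BX_zero]
      · rw [mul_zero]
  -- second step: `c' = 0`
  obtain ⟨E, hE⟩ : ∃ E : Matrix (Fin 1) (Fin (m + 2)) k, E = Matrix.of fun _ j =>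
    if j = 0 then c' 0 0 else 0 := ⟨_, rfl⟩
  have hE0 : E * uv k (0 : Fin (m + 2)) = c' := by
    ext i j
    rw [mul_uv, hE, Matrix.of_apply, if_pos rfl, Subsingleton.elim i 0, Subsingleton.elim j 0]
  have hE1 : E * uv k (1 : Fin (m + 2)) = 0 := by
    ext i j
    rw [mul_uv, hE, Matrix.of_apply, if_neg h01.symm, Matrix.zero_apply]
  refine step4 hcl (d := d) (nu := nu) (conjN h1 (BX 0 0 0 0 0 0 0 0 0 0 E) ?_ ?_ ?_ ?_)
  · rw [BX_mul]
    simp [BX_zero]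
  · rw [conj_form (Y := 0) (Z := 0)]
    · simp
    · rw [BX_mul_JX]
      exact BX_zero
    · rw [JX_mul_BX]
      exact BX_zero
    · rw [mul_zero]
  · rw [conj_form (Y := 0) (Z := 0)]
    · simp
    · rw [BX_mul]
      simp [BX_zero, hE1]
    · rw [BX_mul]
      simp [BX_zero]
    · rw [mul_zero]
  · rw [conj_form (Y := BX 0 0 0 c' 0 0 0 0 0 0 0) (Z := 0)]
    · have h5 : BX 0 0 0 c' (uv k 0) 0 0 0 0 0 0 =
          BX 0 0 0 0 (uv k 0) 0 0 0 0 0 0 + (BX 0 0 0 c' 0 0 0 0 0 0 0 :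
            Matrix (Ix 1 1 (m + 2)) (Ix 1 1 (m + 2)) k) := by
        rw [BX_add]
        simp
      rw [h5, add_zero, add_sub_cancel_right]
    · rw [BX_mul]
      simp [hE0]
    · rw [BX_mul]
      simp [BX_zero]
    · rw [mul_zero]

/-- change of the basis of `P` -/
theorem step2 [Infinite k] {a d nu c c' : Matrix (Fin 1) (Fin 1) k}
    {w w' pi : Matrix (Fin (m + 2)) (Fin 1) k} (ha : a ≠ 0)
    (hcl : ∀ (r : Fin 6 × Fin (1 + (1 + (m + 1))) → k)
      (g : Fin 3 × Fin 0 × Fin (1 + (1 + (m + 1))) → k), Cl (T1X 0 (1 + (1 + (m + 1))) r g))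
    (hT : MaxR ρ ![JX k 1 1 (m + 2), BX 0 0 a c w 0 d nu pi 0 0,
      BX 0 0 0 c' w' 0 0 0 0 0 0])
    (hd : w' 0 0 * pi 1 0 - w' 1 0 * pi 0 0 ≠ 0) : False := by
  have h01 : (0 : Fin (m + 2)) ≠ 1 := by simp
  have ha0 : a 0 0 ≠ 0 := by
    intro h
    apply ha
    ext i j
    rw [Subsingleton.elim i 0, Subsingleton.elim j 0, h, Matrix.zero_apply]
  have e1 : (Matrix.of fun _ _ => (a 0 0)⁻¹ : Matrix (Fin 1) (Fin 1) k) * a = 1 := by
    ext i j
    rw [Subsingleton.elim i 0, Subsingleton.elim j 0, Matrix.mul_apply]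
    simp [ha0]
  obtain ⟨H, H', hH, h1, h2⟩ := exists_two w' (pi * a) h01 (by
    rw [Matrix.mul_apply, Matrix.mul_apply]
    simp only [Finset.univ_unique, Fin.default_eq_zero, Finset.sum_singleton]
    intro h
    apply hd
    have : a 0 0 * (w' 0 0 * pi 1 0 - w' 1 0 * pi 0 0) = 0 := by linear_combination h
    exact (mul_eq_zero.1 this).resolve_left ha0)
  have h3 := MaxR.conjX (g := 1) (g' := 1) (h := Matrix.of fun _ _ => (a 0 0)⁻¹) (h' := a)
    (l := H) (l' := H') hT (mul_one 1) e1 hH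
  simp only [Matrix.mul_one, Matrix.one_mul, Matrix.mul_zero, Matrix.zero_mul] at h3
  rw [e1, Matrix.mul_assoc H pi a, h2, h1] at h3
  exact step3 hcl h3

/-- deformation -/
theorem step1 [CharZero k] {a d nu c c' : Matrix (Fin 1) (Fin 1) k}
    {w w' pi : Matrix (Fin (m + 2)) (Fin 1) k} (ha : a ≠ 0)
    (hcl : ∀ (r : Fin 6 × Fin (1 + (1 + (m + 1))) → k)
      (g : Fin 3 × Fin 0 × Fin (1 + (1 + (m + 1))) → k), Cl (T1X 0 (1 + (1 + (m + 1))) r g))
    (hT : MaxR ρ ![JX k 1 1 (m + 2), BX 0 0 a c w 0 d nu pi 0 0,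
      BX 0 0 0 c' w' 0 0 0 0 0 0]) : False := by
  have h01 : (0 : Fin (m + 2)) ≠ 1 := by simp
  have kB : ∀ s : k, BX 0 0 a c w 0 d nu pi 0 0 +
      s • (BX 0 0 0 0 0 0 0 0 (uv k 1) 0 0 : Matrix (Ix 1 1 (m + 2)) (Ix 1 1 (m + 2)) k) =
      BX 0 0 a c w 0 d nu (pi + s • uv k 1) 0 0 := by
    intro s
    rw [BX_smul, BX_add]
    simp only [smul_zero, add_zero]
  have kC : ∀ s : k, BX 0 0 0 c' w' 0 0 0 0 0 0 +
      s • (BX 0 0 0 0 (uv k 0) 0 0 0 0 0 0 : Matrix (Ix 1 1 (m + 2)) (Ix 1 1 (m + 2)) k) =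
      BX 0 0 0 c' (w' + s • uv k 0) 0 0 0 0 0 0 := by
    intro s
    rw [BX_smul, BX_add]
    simp only [smul_zero, add_zero]
  obtain ⟨s, hs, h1⟩ := D8.MaxR.line2 hT (BX 0 0 0 0 0 0 0 0 (uv k 1) 0 0)
    (BX 0 0 0 0 (uv k 0) 0 0 0 0 0 0) (fun s => by
      rw [kB, kC]
      refine cnX _ _ _ _ _ _ _ _ _ _ _ _ _ _ _ _ _ _ _ _ _ _ ?_ ?_ ?_ ?_ ?_ ?_ ?_ <;> simp)
    (D8.finite_quad (a := w' 0 0 * pi 1 0 - w' 1 0 * pi 0 0) (b := w' 0 0 + pi 1 0)
      (c := (1 : k)) (Or.inr (Or.inr one_ne_zero)))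
  rw [kB, kC] at h1
  rw [Set.mem_ofPred_eq] at hs
  refine step2 ha hcl h1 ?_
  intro h
  apply hs
  simp only [Matrix.add_apply, Matrix.smul_apply, smul_eq_mul, uv, Matrix.of_apply, if_true,
    h01, h01.symm, if_false, mul_one, mul_zero, add_zero] at h
  linear_combination h

/-- linear change, `a' = 0` -/
theorem step0 [CharZero k] {a a' d d' nu nu' c c' : Matrix (Fin 1) (Fin 1) k}
    {w w' pi pi' : Matrix (Fin (m + 2)) (Fin 1) k} (ha : a ≠ 0)
    (hcl : ∀ (r : Fin 6 × Fin (1 + (1 + (m + 1))) → k)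
      (g : Fin 3 × Fin 0 × Fin (1 + (1 + (m + 1))) → k), Cl (T1X 0 (1 + (1 + (m + 1))) r g))
    (hT : MaxR ρ ![JX k 1 1 (m + 2), BX 0 0 a c w 0 d nu pi 0 0,
      BX 0 0 a' c' w' 0 d' nu' pi' 0 0]) : False := by
  have ha0 : a 0 0 ≠ 0 := by
    intro h
    apply ha
    ext i j
    rw [Subsingleton.elim i 0, Subsingleton.elim j 0, h, Matrix.zero_apply]
  obtain ⟨t, ht⟩ : ∃ t : k, t = -(a' 0 0 / a 0 0) := ⟨_, rfl⟩
  have h1 := D8.MaxR.lin hT 1 0 t 1 0 0 0 0 (by simp)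
  simp only [one_smul, zero_smul, add_zero] at h1
  rw [BX_smul, BX_add] at h1
  simp only [smul_zero, add_zero] at h1
  have e1 : t • a + a' = 0 := by
    ext i j
    rw [Subsingleton.elim i 0, Subsingleton.elim j 0, Matrix.add_apply, Matrix.smul_apply,
      smul_eq_mul, ht, Matrix.zero_apply]
    field_simp
    ring
  obtain ⟨-, r1, r2, r3, -, -, -⟩ := (BX_comm ..).1 (h1.cn.1 1 2)
  simp only [Matrix.zero_mul, Matrix.mul_zero, zero_add, add_zero] at r1 r2 r3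
  rw [e1] at h1 r1 r2 r3
  have key : ∀ {l : ℕ} {D : Matrix (Fin l) (Fin 1) k}, 0 = D * a → D = 0 := by
    intro l D h
    ext i j
    have h2 := congrFun (congrFun h i) j
    rw [Matrix.mul_apply] at h2
    simp only [Finset.univ_unique, Fin.default_eq_zero, Finset.sum_singleton,
      Matrix.zero_apply] at h2
    rw [Subsingleton.elim j 0] at h2 ⊢
    exact (mul_eq_zero.1 h2.symm).resolve_right ha0
  rw [Matrix.mul_zero] at r1 r2 r3
  rw [key r1, key r2, key r3] at h1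
  exact step1 ha hcl h1

end E1UAux

open E1UAux

/-- type `(3, 2, 1^p)`, `p >= 2`, case `b = et = th = 0`: no maximal bad triple, if all triples
`T1X 0 (1 + p)` are limits of curvilinear triples -/
theorem no_III0 {k : Type*} [Field k] [CharZero k] {p c₂ : ℕ} (hp : 2 ≤ p)
    (hc : c₂ = 1 + p) {ρ : ℕ → ℕ}
    (hcl : ∀ (r : Fin 6 × Fin c₂ → k) (g : Fin 3 × Fin 0 × Fin c₂ → k), Cl (T1X 0 c₂ r g))
    {a c a' c' : Matrix (Fin 1) (Fin 1) k} {w w' : Matrix (Fin p) (Fin 1) k}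
    {d d' : Matrix (Fin 1) (Fin 1) k}
    {nu nu' : Matrix (Fin 1) (Fin 1) k} {pi pi' : Matrix (Fin p) (Fin 1) k}
    (hT : MaxR ρ ![JX k 1 1 p, BX 0 0 a c w 0 d nu pi 0 0, BX 0 0 a' c' w' 0 d' nu' pi' 0 0])
    (ha : a ≠ 0 ∨ a' ≠ 0) : False := by
  obtain ⟨m, rfl⟩ : ∃ m, p = m + 2 := ⟨p - 2, by omega⟩
  obtain rfl : c₂ = 1 + (1 + (m + 1)) := by omega
  rcases ha with ha | ha
  · exact step0 ha hcl hT
  · exact step0 ha hcl (D8.MaxR.swap hT)

end Pool.Agent.Lib.D13
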