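import Pool.Agent.Lib.D13.E1
import Pool.Agent.Lib.D13.E1V
import Pool.Agent.Lib.D10.ClT172
import Pool.Agent.Lib.D11.ClT182
import Pool.Agent.Lib.D12.ClT192
import Pool.Agent.Lib.D10.ClT163
import Pool.Agent.Lib.D10.ClT136
import Pool.Agent.Lib.D10.ClT154
import Pool.Agent.Lib.D10.ClT145
import Pool.Agent.Lib.D11.ClT173
import Pool.Agent.Lib.D11.ClT137
import Pool.Agent.Lib.D11.ClT164
import Pool.Agent.Lib.D11.ClT146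
import Pool.Agent.Lib.D11.ClT155
import Pool.Agent.Lib.D12.ClT183
import Pool.Agent.Lib.D12.ClT138
import Pool.Agent.Lib.D12.ClT174
import Pool.Agent.Lib.D12.ClT147
import Pool.Agent.Lib.D12.ClT165
import Pool.Agent.Lib.D12.ClT156

/-!
# MP_5dcbc3_ag: the types `(3, 2^u, 1^p)`, `u >= 1`, of sizes 10, 11, 12
-/

namespace Pool.Agent.Lib.D13

open Matrix Pool.Agent.Lib.Q5dc Pool.Agent.Lib.D7 Pool.Agent.Lib.D9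

variable {k : Type*} [Field k] [IsAlgClosed k] [CharZero k] {ρ : ℕ → ℕ}

theorem no_322111 {T : Fin 3 → Matrix (Ix 1 2 3) (Ix 1 2 3) k} (hT : MaxR ρ T)
    (hρ : ∀ i, ρ i = (JX k 1 2 3 ^ i).rank) (h0 : T 0 = JX k 1 2 3) : False :=
  no_E1 (u := 2) (p := 3) (q₁ := 3) (c₁ := 3) (q₃ := 0) (c₃ := 6) rfl rfl rfl rfl
    D10.cl_T163 D10.cl_T136 hT hρ h0

theorem no_32221 {T : Fin 3 → Matrix (Ix 1 3 1) (Ix 1 3 1) k} (hT : MaxR ρ T)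
    (hρ : ∀ i, ρ i = (JX k 1 3 1 ^ i).rank) (h0 : T 0 = JX k 1 3 1) : False :=
  no_E1 (u := 3) (p := 1) (q₁ := 2) (c₁ := 4) (q₃ := 1) (c₃ := 5) rfl rfl rfl rfl
    D10.cl_T154 D10.cl_T145 hT hρ h0

theorem no_3221111 {T : Fin 3 → Matrix (Ix 1 2 4) (Ix 1 2 4) k} (hT : MaxR ρ T)
    (hρ : ∀ i, ρ i = (JX k 1 2 4 ^ i).rank) (h0 : T 0 = JX k 1 2 4) : False :=
  no_E1 (u := 2) (p := 4) (q₁ := 4) (c₁ := 3) (q₃ := 0) (c₃ := 7) rfl rfl rfl rfl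
    D11.cl_T173 D11.cl_T137 hT hρ h0

theorem no_322211 {T : Fin 3 → Matrix (Ix 1 3 2) (Ix 1 3 2) k} (hT : MaxR ρ T)
    (hρ : ∀ i, ρ i = (JX k 1 3 2 ^ i).rank) (h0 : T 0 = JX k 1 3 2) : False :=
  no_E1 (u := 3) (p := 2) (q₁ := 3) (c₁ := 4) (q₃ := 1) (c₃ := 6) rfl rfl rfl rfl
    D11.cl_T164 D11.cl_T146 hT hρ h0

theorem no_32222 {T : Fin 3 → Matrix (Ix 1 4 0) (Ix 1 4 0) k} (hT : MaxR ρ T)
    (hρ : ∀ i, ρ i = (JX k 1 4 0 ^ i).rank) (h0 : T 0 = JX k 1 4 0) : False :=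
  no_E1 (u := 4) (p := 0) (q₁ := 2) (c₁ := 5) (q₃ := 2) (c₃ := 5) rfl rfl rfl rfl
    D11.cl_T155 D11.cl_T155 hT hρ h0

theorem no_32211111 {T : Fin 3 → Matrix (Ix 1 2 5) (Ix 1 2 5) k} (hT : MaxR ρ T)
    (hρ : ∀ i, ρ i = (JX k 1 2 5 ^ i).rank) (h0 : T 0 = JX k 1 2 5) : False :=
  no_E1 (u := 2) (p := 5) (q₁ := 5) (c₁ := 3) (q₃ := 0) (c₃ := 8) rfl rfl rfl rfl
    D12.cl_T183 D12.cl_T138 hT hρ h0

theorem no_3222111 {T : Fin 3 → Matrix (Ix 1 3 3) (Ix 1 3 3) k} (hT : MaxR ρ T)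
    (hρ : ∀ i, ρ i = (JX k 1 3 3 ^ i).rank) (h0 : T 0 = JX k 1 3 3) : False :=
  no_E1 (u := 3) (p := 3) (q₁ := 4) (c₁ := 4) (q₃ := 1) (c₃ := 7) rfl rfl rfl rfl
    D12.cl_T174 D12.cl_T147 hT hρ h0

theorem no_322221 {T : Fin 3 → Matrix (Ix 1 4 1) (Ix 1 4 1) k} (hT : MaxR ρ T)
    (hρ : ∀ i, ρ i = (JX k 1 4 1 ^ i).rank) (h0 : T 0 = JX k 1 4 1) : False :=
  no_E1 (u := 4) (p := 1) (q₁ := 3) (c₁ := 5) (q₃ := 2) (c₃ := 6) rfl rfl rfl rfl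
    D12.cl_T165 D12.cl_T156 hT hρ h0

theorem no_3211111 {T : Fin 3 → Matrix (Ix 1 1 5) (Ix 1 1 5) k} (hT : MaxR ρ T)
    (hρ : ∀ i, ρ i = (JX k 1 1 5 ^ i).rank) (h0 : T 0 = JX k 1 1 5) : False :=
  no_E1V (p := 5) (q₁ := 4) (c₃ := 6) (by norm_num) rfl rfl D10.cl_T172 D10.cl_T136 hT hρ h0

theorem no_32111111 {T : Fin 3 → Matrix (Ix 1 1 6) (Ix 1 1 6) k} (hT : MaxR ρ T)
    (hρ : ∀ i, ρ i = (JX k 1 1 6 ^ i).rank) (h0 : T 0 = JX k 1 1 6) : False :=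
  no_E1V (p := 6) (q₁ := 5) (c₃ := 7) (by norm_num) rfl rfl D11.cl_T182 D11.cl_T137 hT hρ h0

theorem no_321111111 {T : Fin 3 → Matrix (Ix 1 1 7) (Ix 1 1 7) k} (hT : MaxR ρ T)
    (hρ : ∀ i, ρ i = (JX k 1 1 7 ^ i).rank) (h0 : T 0 = JX k 1 1 7) : False :=
  no_E1V (p := 7) (q₁ := 6) (c₃ := 8) (by norm_num) rfl rfl D12.cl_T192 D12.cl_T138 hT hρ h0

end Pool.Agent.Lib.D13
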