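import Pool.Agent.Lib.D9.BlkMap
import Pool.Agent.Lib.D9.E1b
import Pool.Agent.Lib.D9.E1mix

/-!
# MP_5dcbc3_ag: mixed cases of the types `(3, 3, 2^u)`

`e = 2`, `p = 0`, `u` arbitrary: in a maximal bad triple `a = a' = 0` or `b = b' = 0`.
-/

namespace Pool.Agent.Lib.D13

open Matrix Pool.Agent.Lib.Q5dc Pool.Agent.Lib.D7 Pool.Agent.Lib.D9

namespace MixP0Aux

section

variable {k : Type*} [Field k]

theorem dual_one {n : ℕ} {v : Fin n → k} (h : v ≠ 0) : ∃ y : Fin n → k, y ⬝ᵥ v = 1 := by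
  obtain ⟨i, hi⟩ : ∃ i, v i ≠ 0 := by
    by_contra hc
    push Not at hc
    exact h (funext hc)
  exact ⟨Pi.single i (v i)⁻¹, by rw [single_dotProduct, inv_mul_cancel₀ hi]⟩

/-- a vector is a multiple of another one or they are separated -/
theorem sep {n : ℕ} (v v' : Fin n → k) :
    (∃ t : k, v = t • v') ∨ ∃ y : Fin n → k, y ⬝ᵥ v = 1 ∧ y ⬝ᵥ v' = 0 := by
  by_cases h' : v' = 0
  · by_cases h : v = 0
    · exact Or.inl ⟨0, by rw [h, zero_smul]⟩
    · obtain ⟨y, hy⟩ := dual_one h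
      exact Or.inr ⟨y, hy, by rw [h', dotProduct_zero]⟩
  obtain ⟨y', hy'⟩ := dual_one h'
  by_cases h : v - (y' ⬝ᵥ v) • v' = 0
  · exact Or.inl ⟨_, sub_eq_zero.1 h⟩
  · obtain ⟨y, hy⟩ := dual_one h
    refine Or.inr ⟨y - (y ⬝ᵥ v') • y', ?_, ?_⟩
    · rw [sub_dotProduct, smul_dotProduct, smul_eq_mul]
      rw [dotProduct_sub, dotProduct_smul, smul_eq_mul] at hy
      linear_combination hy
    · rw [sub_dotProduct, smul_dotProduct, smul_eq_mul, hy', mul_one, sub_self]

/-- the row killing a vector of the plane -/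
def perp (β : Fin 2 → k) : Fin 2 → k := ![β 1, -β 0]

theorem perp_dot (β : Fin 2 → k) : perp β ⬝ᵥ β = 0 := by
  simp [perp, dotProduct, Fin.sum_univ_two]
  ring

theorem perp_ne {β : Fin 2 → k} (h : β ≠ 0) : perp β ≠ 0 := by
  intro h0
  refine h (funext fun i => ?_)
  have e0 := congrFun h0 0
  have e1 := congrFun h0 1
  simp [perp] at e0 e1
  fin_cases i
  exacts [e1, e0]

theorem perp_unique {β r : Fin 2 → k} (h : β ≠ 0) (hr : r ⬝ᵥ β = 0) : ∃ c : k, r = c • perp β := by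
  rw [dotProduct, Fin.sum_univ_two] at hr
  by_cases h0 : β 0 = 0
  · have h1 : β 1 ≠ 0 := fun h1 => h (by funext i; fin_cases i; exacts [h0, h1])
    refine ⟨r 0 / β 1, ?_⟩
    funext i
    fin_cases i
    · simp [perp, h1]
    · rw [h0, mul_zero, zero_add] at hr
      have : r 1 = 0 := (mul_eq_zero.1 hr).resolve_right h1
      simp [perp, h0, this]
  · refine ⟨-(r 1) / β 0, ?_⟩
    funext i
    fin_cases i
    · simp only [perp, Pi.smul_apply, smul_eq_mul, Fin.zero_eta, Matrix.cons_val_zero]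
      field_simp
      linear_combination hr
    · simp only [perp, Pi.smul_apply, smul_eq_mul, Fin.mk_one, Matrix.cons_val_one,
        Matrix.cons_val_fin_one]
      field_simp

theorem perp_unique' {β x : Fin 2 → k} (h : β ≠ 0) (hx : perp β ⬝ᵥ x = 0) :
    ∃ c : k, x = c • β := by
  have h1 : x ⬝ᵥ perp β = 0 := by rw [dotProduct_comm]; exact hx
  obtain ⟨c, hc⟩ := perp_unique (perp_ne h) h1
  refine ⟨-c, ?_⟩
  rw [hc]
  funext i
  fin_cases i <;> simp [perp]

/-- the rows of a matrix killing `β` -/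
theorem rows_perp {m : ℕ} {β : Fin 2 → k} (h : β ≠ 0) {a : Matrix (Fin m) (Fin 2) k}
    (ha : a *ᵥ β = 0) : ∃ al : Fin m → k, a = vecMulVec al (perp β) := by
  choose al hal using fun i => perp_unique h (congrFun ha i)
  refine ⟨al, ?_⟩
  ext i j
  rw [vecMulVec_apply]
  exact congrFun (hal i) j

theorem cols_perp {m : ℕ} {β : Fin 2 → k} (h : β ≠ 0) {b : Matrix (Fin 2) (Fin m) k}
    (hb : perp β ᵥ* b = 0) : ∃ ps : Fin m → k, b = vecMulVec β ps := by
  choose ps hps using fun j => perp_unique' (x := fun i => b i j) h (congrFun hb j)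
  refine ⟨ps, ?_⟩
  ext i j
  rw [vecMulVec_apply, mul_comm]
  exact congrFun (hps j) i

theorem vmv_ne {m n : ℕ} {x : Fin m → k} {y : Fin n → k} (hx : x ≠ 0) (hy : y ≠ 0) :
    vecMulVec x y ≠ 0 := by
  intro h
  obtain ⟨z, hz⟩ := dual_one hx
  have h1 : z ᵥ* vecMulVec x y = y := by
    rw [vecMul_vecMulVec, hz, one_smul]
  rw [h, vecMul_zero] at h1
  exact hy h1.symm

end

variable {k : Type*} [Field k] {e u p : ℕ} {ρ : ℕ → ℕ}

/-- an element commuting with `B` may be added to `C` -/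
theorem addK [CharZero k] {N M N' M' Nk Mk : Matrix (Fin e) (Fin e) k}
    {a c a' c' ak ck : Matrix (Fin u) (Fin e) k}
    {w w' wk : Matrix (Fin p) (Fin e) k} {b d b' d' bk dk : Matrix (Fin e) (Fin u) k}
    {nu nu' nuk : Matrix (Fin u) (Fin u) k} {pi pi' pik : Matrix (Fin p) (Fin u) k}
    {th th' thk : Matrix (Fin e) (Fin p) k} {et et' etk : Matrix (Fin u) (Fin p) k}
    (hT : MaxR ρ ![JX k e u p, BX N M a c w b d nu pi th et,
      BX N' M' a' c' w' b' d' nu' pi' th' et'])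
    (hK : BX N M a c w b d nu pi th et * BX Nk Mk ak ck wk bk dk nuk pik thk etk =
      BX Nk Mk ak ck wk bk dk nuk pik thk etk * BX N M a c w b d nu pi th et) :
    ∃ s : k, s ≠ 0 ∧ MaxR ρ ![JX k e u p, BX N M a c w b d nu pi th et,
      BX N' M' a' c' w' b' d' nu' pi' th' et' +
        s • BX Nk Mk ak ck wk bk dk nuk pik thk etk] := by
  have hinf : Infinite k := inferInstance
  have hc : BX N M a c w b d nu pi th et * BX N' M' a' c' w' b' d' nu' pi' th' et' =
      BX N' M' a' c' w' b' d' nu' pi' th' et' * BX N M a c w b d nu pi th et := hT.cn.1 1 2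
  obtain ⟨s, hs, h⟩ := D8.MaxR.line2 hT 0 (BX Nk Mk ak ck wk bk dk nuk pik thk etk)
    (F := {0}) (fun s => by
      rw [smul_zero, add_zero]
      refine D8.cn3 (JX_comm ..) ?_ ?_ JX_nil (BX_nil ..) ?_
      · rw [BX_smul, BX_add]
        exact JX_comm ..
      · rw [Matrix.mul_add, Matrix.add_mul, hc, Matrix.mul_smul, Matrix.smul_mul, hK]
      · rw [BX_smul, BX_add]
        exact BX_nil ..) (Set.finite_singleton 0)
  rw [smul_zero, add_zero] at h
  exact ⟨s, hs, h⟩

/-- the product of three elements -/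
theorem cube [CharZero k] {T : Fin 3 → Matrix (Ix e u p) (Ix e u p) k} (hT : MaxR ρ T)
    (h3 : ρ 3 = 0)
    {N M N' M' Nk Mk : Matrix (Fin e) (Fin e) k}
    {a c a' c' ak ck : Matrix (Fin u) (Fin e) k}
    {w w' wk : Matrix (Fin p) (Fin e) k} {b d b' d' bk dk : Matrix (Fin e) (Fin u) k}
    {nu nu' nuk : Matrix (Fin u) (Fin u) k} {pi pi' pik : Matrix (Fin p) (Fin u) k}
    {th th' thk : Matrix (Fin e) (Fin p) k} {et et' etk : Matrix (Fin u) (Fin p) k}
    (hX : BX N M a c w b d nu pi th et ∈ adj T)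
    (hY : BX N' M' a' c' w' b' d' nu' pi' th' et' ∈ adj T)
    (hZ : BX Nk Mk ak ck wk bk dk nuk pik thk etk ∈ adj T) :
    b * a' * Nk + (N * b' + b * nu' + th * pi') * ak + b * et' * wk = 0 := by
  have h := D8.mul3 hT h3 hX hY hZ
  rw [BX_mul, BX_mul, ← BX_zero, BX_inj] at h
  simpa using h.2.1

/-- `nu` is free in the directions killed by `a'` and `b'` -/
theorem nuRaise [CharZero k] (h3 : ρ 3 = 0) {N M N' M' : Matrix (Fin e) (Fin e) k}
    {a c a' c' : Matrix (Fin u) (Fin e) k}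
    {w w' : Matrix (Fin p) (Fin e) k} {b d b' d' : Matrix (Fin e) (Fin u) k}
    {nu nu' : Matrix (Fin u) (Fin u) k} {pi pi' : Matrix (Fin p) (Fin u) k}
    {th th' : Matrix (Fin e) (Fin p) k} {et et' : Matrix (Fin u) (Fin p) k}
    (hT : MaxR ρ ![JX k e u p, BX N M a c w b d nu pi th et,
      BX N' M' a' c' w' b' d' nu' pi' th' et']) {D : Matrix (Fin u) (Fin u) k}
    (hD1 : D * a' = 0) (hD2 : b' * D = 0) : b * D * a = 0 := by
  have hinf : Infinite k := inferInstance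
  have hc := (BX_comm ..).1 (hT.cn.1 1 2)
  obtain ⟨c1, c2, c3, c4, c5, c6, c7⟩ := hc
  obtain ⟨s, hs, h⟩ := D8.MaxR.line2 hT (BX 0 0 0 0 0 0 0 D 0 0 0) 0
    (F := {0}) (fun s => by
      rw [smul_zero, add_zero, BX_smul, BX_add]
      simp only [smul_zero, add_zero]
      refine cnX _ _ _ _ _ _ _ _ _ _ _ _ _ _ _ _ _ _ _ _ _ _ c1 c2 ?_ c4 ?_ c6 c7
      · rw [Matrix.add_mul, Matrix.smul_mul, hD1, smul_zero, add_zero]
        exact c3
      · rw [Matrix.mul_add, Matrix.mul_smul, hD2, smul_zero, add_zero]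
        exact c5) (Set.finite_singleton 0)
  rw [smul_zero, add_zero, BX_smul, BX_add] at h
  simp only [smul_zero, add_zero] at h
  have e1 := cube hT h3 (D8.mem1 _ _ _) (D8.mem1 _ _ _) (D8.mem1 _ _ _)
  have e2 := cube h h3 (D8.mem1 _ _ _) (D8.mem1 _ _ _) (D8.mem1 _ _ _)
  have e3 : s • (b * D * a) = 0 := by
    rw [← sub_eq_zero.2 (e2.trans e1.symm)]
    simp only [Matrix.mul_add, Matrix.add_mul, Matrix.mul_smul, Matrix.smul_mul]
    abel
  exact (smul_eq_zero.1 e3).resolve_left hs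

/-- in every basis of the pencil the columns or the rows are proportional -/
theorem dich [CharZero k] (h3 : ρ 3 = 0) {N M N' M' : Matrix (Fin e) (Fin e) k}
    {c c' : Matrix (Fin u) (Fin e) k}
    {w w' : Matrix (Fin p) (Fin e) k} {d d' : Matrix (Fin e) (Fin u) k}
    {nu nu' : Matrix (Fin u) (Fin u) k} {pi pi' : Matrix (Fin p) (Fin u) k}
    {th th' : Matrix (Fin e) (Fin p) k} {et et' : Matrix (Fin u) (Fin p) k}
    {al al' ps ps' : Fin u → k} {ph be : Fin e → k} (hph : ph ≠ 0) (hbe : be ≠ 0)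
    (hT : MaxR ρ ![JX k e u p, BX N M (vecMulVec al ph) c w (vecMulVec be ps) d nu pi th et,
      BX N' M' (vecMulVec al' ph) c' w' (vecMulVec be ps') d' nu' pi' th' et']) :
    (∃ t : k, al = t • al') ∨ ∃ t : k, ps = t • ps' := by
  rcases sep al al' with h | ⟨y, hy, hy'⟩
  · exact Or.inl h
  rcases sep ps ps' with h | ⟨x, hx, hx'⟩
  · exact Or.inr h
  exfalso
  rw [dotProduct_comm] at hx hx'
  have h := nuRaise h3 hT (D := vecMulVec x y) (by
      rw [vecMulVec_mul_vecMulVec, hy', zero_smul]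
      ext i j
      simp [vecMulVec_apply])
    (by
      rw [vecMulVec_mul_vecMulVec, hx', zero_smul]
      ext i j
      simp [vecMulVec_apply])
  rw [vecMulVec_mul_vecMulVec, hx, one_smul, vecMulVec_mul_vecMulVec, hy, one_smul] at h
  exact vmv_ne hbe hph h

/-- `B` with `b = 0`, `C` with `a' = 0` -/
theorem caseQ [CharZero k] (h3 : ρ 3 = 0) {N M N' M' : Matrix (Fin 2) (Fin 2) k}
    {c c' : Matrix (Fin u) (Fin 2) k} {d d' : Matrix (Fin 2) (Fin u) k}
    {nu nu' : Matrix (Fin u) (Fin u) k} {w w' : Matrix (Fin 0) (Fin 2) k}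
    {pi pi' : Matrix (Fin 0) (Fin u) k}
    {th th' : Matrix (Fin 2) (Fin 0) k} {et et' : Matrix (Fin u) (Fin 0) k}
    {al ps : Fin u → k} {be : Fin 2 → k} (hal : al ≠ 0) (hps : ps ≠ 0) (hbe : be ≠ 0)
    (hT : MaxR ρ ![JX k 2 u 0, BX N M (vecMulVec al (perp be)) c w 0 d nu pi th et,
      BX N' M' 0 c' w' (vecMulVec be ps) d' nu' pi' th' et']) : False := by
  have hem : ∀ {m n : ℕ} (X : Matrix (Fin m) (Fin 0) k) (Y : Matrix (Fin 0) (Fin n) k),
      X * Y = 0 := by
    intro m n X Y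
    ext i j
    simp [Matrix.mul_apply]
  obtain ⟨c1, c2, c3, c4, c5, c6, c7⟩ := (BX_comm ..).1 (hT.cn.1 1 2)
  obtain ⟨g, hg⟩ := dual_one hps
  rw [dotProduct_comm] at hg
  obtain ⟨al0, hal0⟩ := dual_one hal
  -- `N be` is a multiple of `be`
  have hN : ∃ μ : k, N *ᵥ be = μ • be := by
    have h := congrArg (fun X => X *ᵥ g) c5
    simp only [hem, Matrix.zero_mul, Matrix.mul_zero, add_zero, zero_add, mul_vecMulVec,
      vecMulVec_mul] at h
    rw [vecMulVec_mulVec, vecMulVec_mulVec, hg] at h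
    refine ⟨(ps ᵥ* nu) ⬝ᵥ g, ?_⟩
    simpa using h
  obtain ⟨μ, hμ⟩ := hN
  obtain ⟨r, hr⟩ := perp_unique hbe (r := perp be ᵥ* N) (by
    rw [← dotProduct_mulVec, hμ, dotProduct_smul, perp_dot, smul_zero])
  obtain ⟨s, hs, h⟩ := addK hT (Nk := 0) (Mk := 0) (ak := vecMulVec g (perp be)) (ck := 0)
    (wk := 0) (bk := 0) (dk := vecMulVec (d *ᵥ g) al0)
    (nuk := vecMulVec (nu *ᵥ g - r • g) al0) (pik := 0) (thk := 0) (etk := 0) (by
      rw [BX_comm]
      refine ⟨by simp, ?_, ?_, Subsingleton.elim _ _, by simp, by simp, by simp⟩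
      · simp only [Matrix.zero_mul, Matrix.mul_zero, add_zero, zero_add]
        rw [mul_vecMulVec, vecMulVec_mul_vecMulVec, hal0, one_smul]
      · simp only [Matrix.zero_mul, Matrix.mul_zero, add_zero, zero_add]
        rw [mul_vecMulVec, vecMulVec_mul_vecMulVec, hal0, one_smul, vecMulVec_mul, hr]
        ext i j
        simp [vecMulVec_apply]
        ring)
  rw [BX_smul, BX_add] at h
  have h4 := ba0X h h3 (D8.mem0 _ _ _) (D8.mem2 _ _ _) (D8.mem2 _ _ _)
  rw [zero_add, smul_zero, add_zero, Matrix.mul_smul, vecMulVec_mul_vecMulVec, hg, one_smul] at h4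
  exact vmv_ne hbe (perp_ne hbe) ((smul_eq_zero.1 h4).resolve_left hs)

/-- factorisation of the mixed parts -/
theorem factor {b : Matrix (Fin 2) (Fin u) k} (hb : b ≠ 0) : ∃ be : Fin 2 → k, be ≠ 0 ∧
      ∀ {m : ℕ} (x : Matrix (Fin m) (Fin 2) k), x * b = 0 → x *ᵥ be = 0 := by
  obtain ⟨E, hE⟩ : ∃ E : Fin u → k, b *ᵥ E ≠ 0 := by
    by_contra hc
    push Not at hc
    refine hb ?_
    ext i j
    have := congrFun (hc (Pi.single j 1)) i
    simpa using this
  exact ⟨b *ᵥ E, hE, fun x hx => by rw [mulVec_mulVec, hx, zero_mulVec]⟩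

end MixP0Aux

open MixP0Aux

theorem mixP0 {k : Type*} [Field k] [CharZero k] {u : ℕ} {ρ : ℕ → ℕ}
    (h2 : ρ 2 ≤ 2) (h3 : ρ 3 = 0)
    {N M N' M' : Matrix (Fin 2) (Fin 2) k} {a c a' c' : Matrix (Fin u) (Fin 2) k}
    {w w' : Matrix (Fin 0) (Fin 2) k} {b d b' d' : Matrix (Fin 2) (Fin u) k}
    {nu nu' : Matrix (Fin u) (Fin u) k} {pi pi' : Matrix (Fin 0) (Fin u) k}
    {th th' : Matrix (Fin 2) (Fin 0) k} {et et' : Matrix (Fin u) (Fin 0) k}
    (hT : MaxR ρ ![JX k 2 u 0, BX N M a c w b d nu pi th et,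
      BX N' M' a' c' w' b' d' nu' pi' th' et']) :
    (a = 0 ∧ a' = 0) ∨ (b = 0 ∧ b' = 0) := by
  have hem : ∀ {m n : ℕ} (X : Matrix (Fin m) (Fin 0) k) (Y : Matrix (Fin 0) (Fin n) k),
      X * Y = 0 := by
    intro m n X Y
    ext i j
    simp [Matrix.mul_apply]
  by_contra hne
  rw [not_or] at hne
  obtain ⟨hna, hnb⟩ := hne
  obtain ⟨c1, c2, c3, c4, c5, c6, c7⟩ := (BX_comm ..).1 (hT.cn.1 1 2)
  have hA := D8.mem0 (JX k 2 u 0) (BX N M a c w b d nu pi th et)
    (BX N' M' a' c' w' b' d' nu' pi' th' et')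
  -- all products `a_i b_j` vanish
  have x1 : a * b = 0 := by
    have h := R1X hT h2 hA (D8.mem1 _ _ _)
    rw [hem] at h
    exact (smul_eq_zero.1 h.symm).resolve_left (by norm_num)
  have x2 : a' * b' = 0 := by
    have h := R1X hT h2 hA (D8.mem2 _ _ _)
    rw [hem] at h
    exact (smul_eq_zero.1 h.symm).resolve_left (by norm_num)
  have x3 : a * b' + a' * b = 0 := by
    have hmem : BX (N + N') (M + M') (a + a') (c + c') (w + w') (b + b') (d + d') (nu + nu')
        (pi + pi') (th + th') (et + et') ∈ adj ![JX k 2 u 0, BX N M a c w b d nu pi th et,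
          BX N' M' a' c' w' b' d' nu' pi' th' et'] := by
      rw [← BX_add]
      exact add_mem (D8.mem1 _ _ _) (D8.mem2 _ _ _)
    have h := R1X hT h2 hA hmem
    rw [hem] at h
    have h' := (smul_eq_zero.1 h.symm).resolve_left (by norm_num : (3 : k) ≠ 0)
    rw [Matrix.add_mul, Matrix.mul_add, Matrix.mul_add, x1, x2] at h'
    simpa using h'
  have x4 : a * b' = 0 := by
    rw [hem, hem, add_zero, add_zero] at c6
    rw [← c6, ← two_smul k] at x3
    exact (smul_eq_zero.1 x3).resolve_left two_ne_zero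
  have x5 : a' * b = 0 := by rw [x4, zero_add] at x3; exact x3
  -- the column `be`
  obtain ⟨be, hbe, hbe'⟩ : ∃ be : Fin 2 → k, be ≠ 0 ∧ (a *ᵥ be = 0 ∧ a' *ᵥ be = 0) := by
    by_cases hb : b = 0
    · have hb' : b' ≠ 0 := fun h => hnb ⟨hb, h⟩
      obtain ⟨be, h1, h2⟩ := factor hb'
      exact ⟨be, h1, h2 a x4, h2 a' x2⟩
    · obtain ⟨be, h1, h2⟩ := factor hb
      exact ⟨be, h1, h2 a x1, h2 a' x5⟩
  obtain ⟨al, rfl⟩ := rows_perp hbe hbe'.1
  obtain ⟨al', rfl⟩ := rows_perp hbe hbe'.2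
  have hann : ∀ y : Matrix (Fin 2) (Fin u) k, vecMulVec al (perp be) * y = 0 →
      vecMulVec al' (perp be) * y = 0 → perp be ᵥ* y = 0 := by
    intro y h h'
    by_cases hal : al = 0
    · have hal' : al' ≠ 0 := by
        intro h0
        refine hna ⟨?_, ?_⟩
        · rw [hal]; ext i j; simp [vecMulVec_apply]
        · rw [h0]; ext i j; simp [vecMulVec_apply]
      obtain ⟨z, hz⟩ := dual_one hal'
      rw [vecMulVec_mul] at h'
      have h5 := congrArg (fun X => z ᵥ* X) h'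
      simp only [vecMul_vecMulVec, hz, one_smul, vecMul_zero] at h5
      exact h5
    · obtain ⟨z, hz⟩ := dual_one hal
      rw [vecMulVec_mul] at h
      have h5 := congrArg (fun X => z ᵥ* X) h
      simp only [vecMul_vecMulVec, hz, one_smul, vecMul_zero] at h5
      exact h5
  obtain ⟨ps, rfl⟩ := cols_perp hbe (hann b x1 x5)
  obtain ⟨ps', rfl⟩ := cols_perp hbe (hann b' x4 x2)
  clear hann hbe' x1 x2 x3 x4 x5 c1 c2 c3 c4 c5 c6 c7 hA
  have zal : ∀ t : Fin u → k, t = 0 → vecMulVec t (perp be) = 0 := by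
    rintro t rfl
    ext i j
    simp [vecMulVec_apply]
  have zps : ∀ t : Fin u → k, t = 0 → vecMulVec be t = 0 := by
    rintro t rfl
    ext i j
    simp [vecMulVec_apply]
  have hna' : ¬ (al = 0 ∧ al' = 0) := fun h => hna ⟨zal _ h.1, zal _ h.2⟩
  have hnb' : ¬ (ps = 0 ∧ ps' = 0) := fun h => hnb ⟨zps _ h.1, zps _ h.2⟩
  clear hna hnb
  -- step 2: `C` without `a'`
  have S2 : ∀ {N M N' M' : Matrix (Fin 2) (Fin 2) k} {c c' : Matrix (Fin u) (Fin 2) k}
      {w w' : Matrix (Fin 0) (Fin 2) k} {d d' : Matrix (Fin 2) (Fin u) k}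
      {nu nu' : Matrix (Fin u) (Fin u) k} {pi pi' : Matrix (Fin 0) (Fin u) k}
      {th th' : Matrix (Fin 2) (Fin 0) k} {et et' : Matrix (Fin u) (Fin 0) k}
      {al ps ps' : Fin u → k}, MaxR ρ ![JX k 2 u 0,
        BX N M (vecMulVec al (perp be)) c w (vecMulVec be ps) d nu pi th et,
        BX N' M' 0 c' w' (vecMulVec be ps') d' nu' pi' th' et'] → al ≠ 0 →
        ¬ (ps = 0 ∧ ps' = 0) → False := by
    intro N M N' M' c c' w w' d d' nu nu' pi pi' th th' et et' al ps ps' h hal hps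
    have h' := h
    rw [← zal 0 rfl] at h'
    rcases dich h3 (perp_ne hbe) hbe h' with ⟨t, ht⟩ | ⟨t, ht⟩
    · rw [smul_zero] at ht
      exact hal ht
    · have h5 := E1mixAux.addl h (-t)
      rw [BX_smul, BX_add] at h5
      have e1 : vecMulVec be ps + -t • vecMulVec be ps' = 0 := by
        rw [ht]
        ext i j
        simp [vecMulVec_apply]
      rw [e1, smul_zero, add_zero] at h5
      refine caseQ h3 hal ?_ hbe h5
      rintro rfl
      exact hps ⟨by rw [ht, smul_zero], rfl⟩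
  -- step 3: `C` without `b'`
  have S3 : ∀ {N M N' M' : Matrix (Fin 2) (Fin 2) k} {c c' : Matrix (Fin u) (Fin 2) k}
      {w w' : Matrix (Fin 0) (Fin 2) k} {d d' : Matrix (Fin 2) (Fin u) k}
      {nu nu' : Matrix (Fin u) (Fin u) k} {pi pi' : Matrix (Fin 0) (Fin u) k}
      {th th' : Matrix (Fin 2) (Fin 0) k} {et et' : Matrix (Fin u) (Fin 0) k}
      {al al' ps : Fin u → k}, MaxR ρ ![JX k 2 u 0,
        BX N M (vecMulVec al (perp be)) c w (vecMulVec be ps) d nu pi th et,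
        BX N' M' (vecMulVec al' (perp be)) c' w' 0 d' nu' pi' th' et'] → ps ≠ 0 →
        ¬ (al = 0 ∧ al' = 0) → False := by
    intro N M N' M' c c' w w' d d' nu nu' pi pi' th th' et et' al al' ps h hps hal
    have h' := h
    rw [← zps 0 rfl] at h'
    rcases dich h3 (perp_ne hbe) hbe h' with ⟨t, ht⟩ | ⟨t, ht⟩
    · have h5 := E1mixAux.addl h (-t)
      rw [BX_smul, BX_add] at h5
      have e1 : vecMulVec al (perp be) + -t • vecMulVec al' (perp be) = 0 := by
        rw [ht]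
        ext i j
        simp [vecMulVec_apply]
      rw [e1, smul_zero, add_zero] at h5
      refine caseQ h3 (al := al') ?_ hps hbe (D8.MaxR.swap h5)
      rintro rfl
      exact hal ⟨by rw [ht, smul_zero], rfl⟩
    · rw [smul_zero] at ht
      exact hps ht
  rcases dich h3 (perp_ne hbe) hbe hT with ⟨t, ht⟩ | ⟨t, ht⟩
  · have h5 := E1mixAux.addl hT (-t)
    rw [BX_smul, BX_add] at h5
    have e1 : vecMulVec al (perp be) + -t • vecMulVec al' (perp be) = 0 := by
      rw [ht]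
      ext i j
      simp [vecMulVec_apply]
    have e2 : vecMulVec be ps + -t • vecMulVec be ps' = vecMulVec be (ps - t • ps') := by
      ext i j
      simp [vecMulVec_apply]
      ring
    rw [e1, e2] at h5
    refine S2 (D8.MaxR.swap h5) ?_ ?_
    · rintro rfl
      exact hna' ⟨by rw [ht, smul_zero], rfl⟩
    · rintro ⟨rfl, h6⟩
      rw [smul_zero, sub_zero] at h6
      exact hnb' ⟨h6, rfl⟩
  · have h5 := E1mixAux.addl hT (-t)
    rw [BX_smul, BX_add] at h5
    have e1 : vecMulVec be ps + -t • vecMulVec be ps' = 0 := by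
      rw [ht]
      ext i j
      simp [vecMulVec_apply]
    have e2 : vecMulVec al (perp be) + -t • vecMulVec al' (perp be) =
        vecMulVec (al - t • al') (perp be) := by
      ext i j
      simp [vecMulVec_apply]
      ring
    rw [e1, e2] at h5
    refine S3 (D8.MaxR.swap h5) ?_ ?_
    · rintro rfl
      exact hnb' ⟨by rw [ht, smul_zero], rfl⟩
    · rintro ⟨rfl, h6⟩
      rw [smul_zero, sub_zero] at h6
      exact hna' ⟨h6, rfl⟩

end Pool.Agent.Lib.D13
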