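import Pool.Agent.Lib.D13.E2Z
import Pool.Agent.Lib.D13.MixP0

/-!
# MP_5dcbc3_ag: types `(3, 3, 2^u)`, `u ≥ 2`, case I (`b = b' = 0`): a raise by a socle cocycle

If the columns of `a` and `a'` span `k^u` then the triple is not maximal bad: there is a cocycle
`Ps` of rows and a socle vector `mm` with `Ps_i mm = 0` and `Ps_i (T_j T_l) ≠ 0`, against
`MaxR.trunc3`.
-/

namespace Pool.Agent.Lib.D13

open Matrix Pool.Agent.Lib.Q5dc Pool.Agent.Lib.D7 Pool.Agent.Lib.D9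

namespace E2R

variable {k : Type*} [Field k] {e u : ℕ}

/-- a row on `Ix e u 0` -/
def Rw (x0 x1 x2 : Fin e → k) (y0 y1 : Fin u → k) : Ix e u 0 → k := fun i => match i with
  | .inl (.inl j) => x0 j
  | .inl (.inr (.inl j)) => x1 j
  | .inl (.inr (.inr j)) => x2 j
  | .inr (.inl (.inl j)) => y0 j
  | .inr (.inl (.inr j)) => y1 j
  | .inr (.inr _) => 0

theorem Rw_inj {x0 x1 x2 z0 z1 z2 : Fin e → k} {y0 y1 w0 w1 : Fin u → k}
    (h : Rw x0 x1 x2 y0 y1 = Rw z0 z1 z2 w0 w1) :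
    x0 = z0 ∧ x1 = z1 ∧ x2 = z2 ∧ y0 = w0 ∧ y1 = w1 :=
  ⟨funext fun j => congrFun h (.inl (.inl j)), funext fun j => congrFun h (.inl (.inr (.inl j))),
    funext fun j => congrFun h (.inl (.inr (.inr j))),
    funext fun j => congrFun h (.inr (.inl (.inl j))),
    funext fun j => congrFun h (.inr (.inl (.inr j)))⟩

theorem Rw_zero {x0 x1 x2 : Fin e → k} {y0 y1 : Fin u → k} (h : Rw x0 x1 x2 y0 y1 = 0) :
    x0 = 0 ∧ x1 = 0 ∧ x2 = 0 ∧ y0 = 0 ∧ y1 = 0 :=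
  ⟨funext fun j => congrFun h (.inl (.inl j)), funext fun j => congrFun h (.inl (.inr (.inl j))),
    funext fun j => congrFun h (.inl (.inr (.inr j))),
    funext fun j => congrFun h (.inr (.inl (.inl j))),
    funext fun j => congrFun h (.inr (.inl (.inr j)))⟩

theorem Rw_mul (x0 x1 x2 : Fin e → k) (y0 y1 : Fin u → k) (N M : Matrix (Fin e) (Fin e) k)
    (a c : Matrix (Fin u) (Fin e) k) (d : Matrix (Fin e) (Fin u) k)
    (nu : Matrix (Fin u) (Fin u) k) :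
    Rw x0 x1 x2 y0 y1 ᵥ* BZ N M a c 0 d nu =
      Rw (x1 ᵥ* N + x2 ᵥ* M + y0 ᵥ* a + y1 ᵥ* c) (x2 ᵥ* N + y1 ᵥ* a) 0 (x2 ᵥ* d + y1 ᵥ* nu) 0 := by
  funext i
  rcases i with (i | i | i) | ((i | i) | i) <;>
    simp [Rw, BZ, BX, Matrix.vecMul, dotProduct, Fintype.sum_sum_type, add_assoc]

theorem Rw_J (x0 x1 x2 : Fin e → k) (y0 y1 : Fin u → k) :
    Rw x0 x1 x2 y0 y1 ᵥ* JX k e u 0 = Rw x1 x2 0 y1 0 := by
  rw [BZ_one, Rw_mul]
  simp

/-- a column in the socle -/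
def Cl2 (v1 : Fin e → k) (v2 : Fin u → k) : Ix e u 0 → k := fun i => match i with
  | .inl (.inl _) => 0
  | .inl (.inr (.inl _)) => 0
  | .inl (.inr (.inr j)) => v1 j
  | .inr (.inl (.inl _)) => 0
  | .inr (.inl (.inr j)) => v2 j
  | .inr (.inr _) => 0

theorem BZ_Cl2 (N M : Matrix (Fin e) (Fin e) k)
    (a c : Matrix (Fin u) (Fin e) k) (d : Matrix (Fin e) (Fin u) k)
    (nu : Matrix (Fin u) (Fin u) k) (v1 : Fin e → k) (v2 : Fin u → k) :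
    BZ N M a c 0 d nu *ᵥ Cl2 v1 v2 = 0 := by
  funext i
  rcases i with (i | i | i) | ((i | i) | i) <;>
    simp [Cl2, BZ, BX, Matrix.mulVec, dotProduct, Fintype.sum_sum_type]

theorem Rw_Cl2 (x0 x1 x2 : Fin e → k) (y0 y1 : Fin u → k) (v1 : Fin e → k) (v2 : Fin u → k) :
    Rw x0 x1 x2 y0 y1 ⬝ᵥ Cl2 v1 v2 = x2 ⬝ᵥ v1 + y1 ⬝ᵥ v2 := by
  simp [Rw, Cl2, dotProduct, Fintype.sum_sum_type]

/-- `x a' - y a` takes every value killing a suitable `z ≠ 0` -/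
theorem exists_z {a a' : Matrix (Fin u) (Fin 2) k} (h : a ≠ 0 ∨ a' ≠ 0) :
    ∃ z : Fin 2 → k, z ≠ 0 ∧ ∀ et : Fin 2 → k, et ⬝ᵥ z = 0 →
      ∃ x y : Fin u → k, x ᵥ* a' - y ᵥ* a = et := by
  have key : ∀ b : Matrix (Fin u) (Fin 2) k, b ≠ 0 → ∃ z : Fin 2 → k, z ≠ 0 ∧
      ∀ et : Fin 2 → k, et ⬝ᵥ z = 0 → ∃ x : Fin u → k, x ᵥ* b = et := by
    intro b hb
    obtain ⟨i, hi⟩ : ∃ i, b i ≠ 0 := by
      by_contra hc
      push Not at hc
      exact hb (by ext i j; exact congrFun (hc i) j)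
    refine ⟨MixP0Aux.perp (b i), MixP0Aux.perp_ne hi, fun et het => ?_⟩
    obtain ⟨c, hc⟩ := MixP0Aux.perp_unique (MixP0Aux.perp_ne hi) het
    refine ⟨Pi.single i (-c), ?_⟩
    rw [hc, Matrix.single_vecMul]
    funext j
    fin_cases j <;> simp [MixP0Aux.perp, Matrix.row]
  rcases h with h | h
  · obtain ⟨z, hz, h1⟩ := key a h
    refine ⟨z, hz, fun et het => ?_⟩
    obtain ⟨x, hx⟩ := h1 et het
    exact ⟨0, -x, by rw [zero_vecMul, neg_vecMul, hx]; simp⟩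
  · obtain ⟨z, hz, h1⟩ := key a' h
    refine ⟨z, hz, fun et het => ?_⟩
    obtain ⟨x, hx⟩ := h1 et het
    exact ⟨x, 0, by rw [zero_vecMul, hx]; simp⟩

end E2R

open E2R

/-- case I with `a`, `a'` jointly onto `k^u` is impossible -/
theorem raiseR {k : Type*} [Field k] [CharZero k] {u : ℕ} (hu : 2 ≤ u) {ρ : ℕ → ℕ}
    (h3 : ρ 3 = 0) {N M N' M' : Matrix (Fin 2) (Fin 2) k} {a c a' c' : Matrix (Fin u) (Fin 2) k}
    {d d' : Matrix (Fin 2) (Fin u) k} {nu nu' : Matrix (Fin u) (Fin u) k}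
    (hT : MaxR ρ ![JX k 2 u 0, BZ N M a c 0 d nu, BZ N' M' a' c' 0 d' nu'])
    (hW : ∀ q : Fin u → k, q ᵥ* a = 0 → q ᵥ* a' = 0 → q = 0) :
    False := by
  obtain ⟨-, e2, e3, -, -⟩ := relZ hT.cn
  rw [Matrix.zero_mul, add_zero, Matrix.zero_mul, add_zero] at e2
  have hne : a ≠ 0 ∨ a' ≠ 0 := by
    by_contra hc
    push Not at hc
    have h1 := hW (Pi.single ⟨0, by omega⟩ 1) (by rw [hc.1, vecMul_zero])
      (by rw [hc.2, vecMul_zero])
    have h2 := congrFun h1 ⟨0, by omega⟩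
    simp at h2
  obtain ⟨z, hz, hxy⟩ := exists_z hne
  -- the functional
  obtain ⟨p, q, hpq, hK, hR⟩ : ∃ (p : Fin 2 → k) (q : Fin u → k), (p ≠ 0 ∨ q ≠ 0) ∧
      p ᵥ* (N * d' + d * nu' - N' * d - d' * nu) +
        q ᵥ* (a * d' + nu * nu' - a' * d - nu' * nu) = 0 ∧
      (p ᵥ* (M' * N + N' * M + d' * c - M * N' - N * M' - d * c') +
        q ᵥ* (c' * N + a' * M + nu' * c - c * N' - a * M' - nu * c')) ⬝ᵥ z = 0 := by
    set L : ((Fin 2 → k) × (Fin u → k)) →ₗ[k] ((Fin u → k) × k) :=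
      { toFun := fun x => (x.1 ᵥ* (N * d' + d * nu' - N' * d - d' * nu) +
          x.2 ᵥ* (a * d' + nu * nu' - a' * d - nu' * nu),
          (x.1 ᵥ* (M' * N + N' * M + d' * c - M * N' - N * M' - d * c') +
            x.2 ᵥ* (c' * N + a' * M + nu' * c - c * N' - a * M' - nu * c')) ⬝ᵥ z)
        map_add' := by
          intro x y
          ext1
          · simp only [Prod.fst_add, Prod.snd_add, add_vecMul]
            abel
          · simp only [Prod.fst_add, Prod.snd_add, add_vecMul, add_dotProduct]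
            ring
        map_smul' := by
          intro s x
          ext1
          · simp only [Prod.smul_fst, Prod.smul_snd, smul_vecMul, smul_add, RingHom.id_apply]
          · simp only [Prod.smul_fst, Prod.smul_snd, smul_vecMul, add_dotProduct,
              smul_dotProduct, smul_add, RingHom.id_apply] } with hL
    have hk : LinearMap.ker L ≠ ⊥ := by
      refine LinearMap.ker_ne_bot_of_finrank_lt ?_
      simp
      omega
    obtain ⟨x, hx, hx0⟩ := (Submodule.ne_bot_iff _).1 hk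
    rw [LinearMap.mem_ker] at hx
    refine ⟨x.1, x.2, ?_, congrArg Prod.fst hx, congrArg Prod.snd hx⟩
    by_contra hc
    push Not at hc
    exact hx0 (Prod.ext hc.1 hc.2)
  obtain ⟨x, y, hxy⟩ := hxy _ hR
  -- the socle vector
  obtain ⟨v1, v2, hv0, g0, g1, g2⟩ : ∃ (v1 : Fin 2 → k) (v2 : Fin u → k), (v1 ≠ 0 ∨ v2 ≠ 0) ∧
      p ⬝ᵥ v1 + q ⬝ᵥ v2 = 0 ∧ (p ᵥ* N + q ᵥ* a) ⬝ᵥ v1 + (p ᵥ* d + q ᵥ* nu) ⬝ᵥ v2 = 0 ∧
      (p ᵥ* N' + q ᵥ* a') ⬝ᵥ v1 + (p ᵥ* d' + q ᵥ* nu') ⬝ᵥ v2 = 0 := by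
    set L : ((Fin 2 → k) × (Fin u → k)) →ₗ[k] (k × k × k) :=
      { toFun := fun v => (p ⬝ᵥ v.1 + q ⬝ᵥ v.2,
          (p ᵥ* N + q ᵥ* a) ⬝ᵥ v.1 + (p ᵥ* d + q ᵥ* nu) ⬝ᵥ v.2,
          (p ᵥ* N' + q ᵥ* a') ⬝ᵥ v.1 + (p ᵥ* d' + q ᵥ* nu') ⬝ᵥ v.2)
        map_add' := by
          intro x y
          simp only [Prod.fst_add, Prod.snd_add, dotProduct_add, Prod.mk_add_mk, Prod.mk.injEq]
          refine ⟨?_, ?_, ?_⟩ <;> ring
        map_smul' := by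
          intro s x
          simp only [Prod.smul_fst, Prod.smul_snd, dotProduct_smul, RingHom.id_apply,
            Prod.smul_mk, smul_add] } with hL
    have hk : LinearMap.ker L ≠ ⊥ := by
      refine LinearMap.ker_ne_bot_of_finrank_lt ?_
      simp
      omega
    obtain ⟨v, hv, hv0⟩ := (Submodule.ne_bot_iff _).1 hk
    rw [LinearMap.mem_ker] at hv
    refine ⟨v.1, v.2, ?_, congrArg Prod.fst hv, congrArg (fun z => z.2.1) hv,
      congrArg (fun z => z.2.2) hv⟩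
    by_contra hc
    push Not at hc
    exact hv0 (Prod.ext hc.1 hc.2)
  have key := MaxR.trunc3 hT h3
    ![Rw 0 0 p 0 q, Rw 0 (p ᵥ* M + q ᵥ* c) (p ᵥ* N + q ᵥ* a) x (p ᵥ* d + q ᵥ* nu),
      Rw 0 (p ᵥ* M' + q ᵥ* c') (p ᵥ* N' + q ᵥ* a') y (p ᵥ* d' + q ᵥ* nu')] (Cl2 v1 v2)
    ?_ ?_ ?_ ?_
  · -- conclusion
    have k0 := key 0 0 0
    have k1 := key 0 0 1
    have k2 := key 0 0 2
    rw [← vecMul_vecMul] at k0 k1 k2
    simp only [Matrix.cons_val_zero, Matrix.cons_val_one, Matrix.cons_val, Rw_J, Rw_mul] at k0 k1 k2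
    obtain ⟨hp, -⟩ := Rw_zero k0
    rw [hp] at k1 k2
    simp only [zero_vecMul, zero_add, add_zero] at k1 k2
    obtain ⟨j1, -⟩ := Rw_zero k1
    obtain ⟨j2, -⟩ := Rw_zero k2
    rcases hpq with h | h
    · exact h hp
    · exact h (hW q j1 j2)
  · -- cocycle
    have r01 : Rw 0 0 p 0 q ᵥ* BZ N M a c 0 d nu =
        Rw 0 (p ᵥ* M + q ᵥ* c) (p ᵥ* N + q ᵥ* a) x (p ᵥ* d + q ᵥ* nu) ᵥ* JX k 2 u 0 := by
      rw [Rw_mul, Rw_J]
      simp only [zero_vecMul, zero_add, add_zero]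
    have r02 : Rw 0 0 p 0 q ᵥ* BZ N' M' a' c' 0 d' nu' =
        Rw 0 (p ᵥ* M' + q ᵥ* c') (p ᵥ* N' + q ᵥ* a') y (p ᵥ* d' + q ᵥ* nu') ᵥ* JX k 2 u 0 := by
      rw [Rw_mul, Rw_J]
      simp only [zero_vecMul, zero_add, add_zero]
    have r12 : Rw 0 (p ᵥ* M + q ᵥ* c) (p ᵥ* N + q ᵥ* a) x (p ᵥ* d + q ᵥ* nu) ᵥ*
        BZ N' M' a' c' 0 d' nu' =
        Rw 0 (p ᵥ* M' + q ᵥ* c') (p ᵥ* N' + q ᵥ* a') y (p ᵥ* d' + q ᵥ* nu') ᵥ*
          BZ N M a c 0 d nu := by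
      rw [Rw_mul, Rw_mul]
      have f0 : (p ᵥ* M + q ᵥ* c) ᵥ* N' + (p ᵥ* N + q ᵥ* a) ᵥ* M' + x ᵥ* a' +
          (p ᵥ* d + q ᵥ* nu) ᵥ* c' = (p ᵥ* M' + q ᵥ* c') ᵥ* N + (p ᵥ* N' + q ᵥ* a') ᵥ* M +
          y ᵥ* a + (p ᵥ* d' + q ᵥ* nu') ᵥ* c := by
        have := hxy
        simp only [vecMul_add, vecMul_sub, add_vecMul, ← vecMul_vecMul] at this ⊢
        rw [← sub_eq_zero] at this ⊢
        rw [← this]
        abel
      have f1 : (p ᵥ* N + q ᵥ* a) ᵥ* N' + (p ᵥ* d + q ᵥ* nu) ᵥ* a' =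
          (p ᵥ* N' + q ᵥ* a') ᵥ* N + (p ᵥ* d' + q ᵥ* nu') ᵥ* a := by
        have i2 := congrArg (fun z => p ᵥ* z) e2
        have i3 := congrArg (fun z => q ᵥ* z) e3
        simp only [vecMul_add, add_vecMul, ← vecMul_vecMul] at i2 i3 ⊢
        rw [← sub_eq_zero] at i2 i3 ⊢
        have i4 := congrArg₂ (fun x y => x + y) i2 i3
        simp only [add_zero] at i4
        rw [← i4]
        abel
      have f3 : (p ᵥ* N + q ᵥ* a) ᵥ* d' + (p ᵥ* d + q ᵥ* nu) ᵥ* nu' =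
          (p ᵥ* N' + q ᵥ* a') ᵥ* d + (p ᵥ* d' + q ᵥ* nu') ᵥ* nu := by
        have := hK
        simp only [vecMul_add, vecMul_sub, add_vecMul, ← vecMul_vecMul] at this ⊢
        rw [← sub_eq_zero]
        rw [← this]
        abel
      rw [f0, f1, f3]
    intro i j
    fin_cases i <;> fin_cases j
    · rfl
    · exact r01
    · exact r02
    · exact r01.symm
    · rfl
    · exact r12
    · exact r02.symm
    · exact r12.symm
    · rfl
  · intro i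
    fin_cases i
    · show JX k 2 u 0 *ᵥ _ = 0
      rw [BZ_one]
      exact BZ_Cl2 _ _ _ _ _ _ _ _
    · exact BZ_Cl2 _ _ _ _ _ _ _ _
    · exact BZ_Cl2 _ _ _ _ _ _ _ _
  · intro i
    fin_cases i
    · exact (Rw_Cl2 _ _ _ _ _ _ _).trans g0
    · exact (Rw_Cl2 _ _ _ _ _ _ _).trans g1
    · exact (Rw_Cl2 _ _ _ _ _ _ _).trans g2
  · intro h
    rcases hv0 with h1 | h1
    · exact h1 (funext fun j => congrFun h (.inl (.inr (.inr j))))
    · exact h1 (funext fun j => congrFun h (.inr (.inl (.inr j))))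

end Pool.Agent.Lib.D13
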