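import Pool.Agent.Lib.D8.UtilB

/-!
# MP_5dcbc3_ag: a maximal bad triple has no new relations of the top degree

`T` a commuting nilpotent triple, `psi 0, psi 1, psi 2` row vectors with
`psi i * T j = psi j * T i` (a class of extensions), `m` a vector of the socle which is killed by
all `psi i`. Then `T i + s m psi i` is a commuting nilpotent triple for every `s`.
If `T` is a maximal bad triple with `rho l = 0`, then the `psi i` vanish on the products of
`l - 1` elements.
-/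

namespace Pool.Agent.Lib.D13

open Matrix Pool.Agent.Lib.Q5dc Pool.Agent.Lib.D7

variable {k n : Type*} [Field k] [Fintype n] [DecidableEq n]

namespace TruncAux

theorem pow_add {A K : Matrix n n k} (h1 : A * K = 0) (h2 : K * K = 0) (s : k) (j : ℕ) :
    (A + s • K) ^ (j + 1) = A ^ (j + 1) + s • (K * A ^ j) := by
  induction j with
  | zero => simp
  | succ j ih =>
    rw [pow_succ', ih, add_mul, mul_add, mul_add, ← pow_succ', mul_smul_comm, smul_mul_assoc,
      smul_mul_smul_comm, ← mul_assoc, h1, ← mul_assoc, h2, zero_mul, smul_zero, add_zero,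
      smul_zero, add_zero, pow_succ' A j]

theorem nil_add {A K : Matrix n n k} (h1 : A * K = 0) (h2 : K * K = 0) (s : k)
    (h : IsNilpotent A) : IsNilpotent (A + s • K) := by
  obtain ⟨N, hN⟩ := h
  refine ⟨N + 1, ?_⟩
  rw [pow_add h1 h2, pow_succ, hN]
  simp

end TruncAux

open TruncAux

variable {ρ : ℕ → ℕ} {T : Fin 3 → Matrix n n k}

/-- changing a triple by a socle vector times a cocycle -/
theorem cn_socle (hT : CN T) (ψ : Fin 3 → n → k) (m : n → k)
    (hψ : ∀ i j, ψ i ᵥ* T j = ψ j ᵥ* T i) (hm : ∀ i, T i *ᵥ m = 0)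
    (hψm : ∀ i, ψ i ⬝ᵥ m = 0) (s : k) : CN (T + s • fun i => vecMulVec m (ψ i)) := by
  have a1 : ∀ i j, T i * vecMulVec m (ψ j) = 0 := by
    intro i j
    rw [mul_vecMulVec, hm, zero_vecMulVec]
  have a2 : ∀ i j, vecMulVec m (ψ i) * vecMulVec m (ψ j) = 0 := by
    intro i j
    rw [vecMulVec_mul_vecMulVec, hψm]
    simp
  refine ⟨fun i j => ?_, fun i => ?_⟩
  · show (T i + s • vecMulVec m (ψ i)) * (T j + s • vecMulVec m (ψ j)) =
      (T j + s • vecMulVec m (ψ j)) * (T i + s • vecMulVec m (ψ i))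
    simp only [add_mul, mul_add, smul_mul_assoc, mul_smul_comm, a1, a2, vecMulVec_mul, hψ j i,
      hT.1 i j, smul_zero, add_zero]
  · exact nil_add (a1 i i) (a2 i i) s (hT.2 i)

/-- a maximal bad triple with `ρ (l + 1) = 0`: cocycles with a common zero in the socle vanish on
the powers `l` -/
theorem MaxR.trunc [Infinite k] (hT : MaxR ρ T) {l : ℕ} (hl : ρ (l + 1) = 0)
    (ψ : Fin 3 → n → k) (m : n → k) (hψ : ∀ i j, ψ i ᵥ* T j = ψ j ᵥ* T i)
    (hm : ∀ i, T i *ᵥ m = 0) (hψm : ∀ i, ψ i ⬝ᵥ m = 0) (hm0 : m ≠ 0) (c : Fin 3 → k) :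
    (∑ i, c i • ψ i) ᵥ* (∑ i, c i • T i) ^ l = 0 := by
  obtain ⟨s, hs, h1⟩ := D8.MaxR.line hT (fun i => vecMulVec m (ψ i))
    (fun s => cn_socle hT.cn ψ m hψ hm hψm s) (Set.finite_singleton (0 : k))
  have hs0 : s ≠ 0 := by simpa using hs
  set A := ∑ i, c i • T i with hA
  set K := vecMulVec m (∑ i, c i • ψ i) with hK
  have hAK : A * K = 0 := by
    rw [hK, mul_vecMulVec, hA, Matrix.sum_mulVec]
    simp [smul_mulVec, hm]
  have hKK : K * K = 0 := by
    rw [hK, vecMulVec_mul_vecMulVec]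
    have : (∑ i, c i • ψ i) ⬝ᵥ m = 0 := by
      rw [sum_dotProduct]
      simp [hψm]
    rw [this]
    simp
  have hA0 : A ^ (l + 1) = 0 := by
    refine hT.pow_eq_zero ?_ hl
    rw [hA]
    exact sum_mem fun i _ => SMulMemClass.smul_mem _ (mem_adj T i)
  have hAs : A + s • K ∈ adj (T + s • fun i => vecMulVec m (ψ i)) := by
    have : A + s • K = ∑ i, c i • (T + s • fun i => vecMulVec m (ψ i)) i := by
      rw [hA, hK]
      ext x y
      simp [Matrix.sum_apply, vecMulVec_apply, Finset.sum_add_distrib, mul_add, Finset.mul_sum]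
      refine Finset.sum_congr rfl fun i _ => ?_
      ring
    rw [this]
    exact sum_mem fun i _ => SMulMemClass.smul_mem _ (mem_adj _ i)
  have h2 := h1.pow_eq_zero hAs hl
  rw [pow_add hAK hKK, hA0, zero_add, smul_eq_zero] at h2
  have h3 := h2.resolve_left hs0
  rw [hK, vecMulVec_mul] at h3
  obtain ⟨x, hx⟩ : ∃ x, m x ≠ 0 := by
    by_contra hcon
    push Not at hcon
    exact hm0 (funext hcon)
  funext y
  have h4 := congrFun (congrFun h3 x) y
  rw [vecMulVec_apply, Matrix.zero_apply] at h4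
  simpa using (mul_eq_zero.1 h4).resolve_left hx

/-- `ρ 3 = 0`: cocycles with a common zero in the socle vanish on products of two elements -/
theorem MaxR.trunc3 [CharZero k] (hT : MaxR ρ T) (h3 : ρ 3 = 0)
    (ψ : Fin 3 → n → k) (m : n → k) (hψ : ∀ i j, ψ i ᵥ* T j = ψ j ᵥ* T i)
    (hm : ∀ i, T i *ᵥ m = 0) (hψm : ∀ i, ψ i ⬝ᵥ m = 0) (hm0 : m ≠ 0) (i j l : Fin 3) :
    ψ i ᵥ* (T j * T l) = 0 := by
  obtain ⟨s, hs, h1⟩ := D8.MaxR.line hT (fun i => vecMulVec m (ψ i))
    (fun s => cn_socle hT.cn ψ m hψ hm hψm s) (Set.finite_singleton (0 : k))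
  have hs0 : s ≠ 0 := by simpa using hs
  have a1 : ∀ i j, T i * vecMulVec m (ψ j) = 0 := by
    intro i j
    rw [mul_vecMulVec, hm, zero_vecMulVec]
  have a2 : ∀ i j, vecMulVec m (ψ i) * vecMulVec m (ψ j) = 0 := by
    intro i j
    rw [vecMulVec_mul_vecMulVec, hψm]
    simp
  have e1 := D8.mul3 h1 h3 (mem_adj _ i) (mem_adj _ j) (mem_adj _ l)
  have e2 := D8.mul3 hT h3 (mem_adj T i) (mem_adj T j) (mem_adj T l)
  have e3 : (T i + s • vecMulVec m (ψ i)) * (T j + s • vecMulVec m (ψ j)) *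
      (T l + s • vecMulVec m (ψ l)) = 0 := e1
  have e4 : s • (vecMulVec m (ψ i) * T j * T l) = 0 := by
    simp only [add_mul, mul_add, smul_mul_assoc, mul_smul_comm, a1, a2, e2, smul_zero, add_zero,
      zero_add, zero_mul, mul_assoc] at e3
    rw [← mul_assoc] at e3
    simpa [mul_assoc] using e3
  have h5 := (smul_eq_zero.1 e4).resolve_left hs0
  rw [mul_assoc, vecMulVec_mul] at h5
  obtain ⟨x, hx⟩ : ∃ x, m x ≠ 0 := by
    by_contra hcon
    push Not at hcon
    exact hm0 (funext hcon)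
  funext y
  have h6 := congrFun (congrFun h5 x) y
  rw [vecMulVec_apply, Matrix.zero_apply] at h6
  simpa using (mul_eq_zero.1 h6).resolve_left hx

/-- dual form: `e i` column vectors with `T j e i = T i e j`, `φ` a row vector with `φ T i = 0`,
`φ (e i) = 0` -/
theorem MaxR.trunc3_dual [CharZero k] (hT : MaxR ρ T) (h3 : ρ 3 = 0)
    (e : Fin 3 → n → k) (φ : n → k) (he : ∀ i j, T j *ᵥ e i = T i *ᵥ e j)
    (hφ : ∀ i, φ ᵥ* T i = 0) (hφe : ∀ i, φ ⬝ᵥ e i = 0) (hφ0 : φ ≠ 0) (i j l : Fin 3) :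
    (T j * T l) *ᵥ e i = 0 := by
  have h := MaxR.trunc3 hT.transpose h3 e φ (fun i j => by
    rw [vecMul_transpose, vecMul_transpose, he]) (fun i => by
    rw [mulVec_transpose, hφ]) (fun i => by rw [dotProduct_comm, hφe]) hφ0 i l j
  rw [← transpose_mul, vecMul_transpose] at h
  exact h

end Pool.Agent.Lib.D13
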