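import Pool.Agent.Lib.D9.BlkRank
import Pool.Agent.Lib.D9.BlkShape
import Pool.Agent.Lib.D13.Trunc

/-!
# MP_5dcbc3_ag: types `(3^e, 2^u)` (no blocks of size one)

`BZ N M a c b d nu = BX N M a c 0 b d nu 0 0 0` on `Ix e u 0`.
-/

namespace Pool.Agent.Lib.D13

open Matrix Pool.Agent.Lib.Q5dc Pool.Agent.Lib.D7 Pool.Agent.Lib.D9

variable {k : Type*} [Field k] {e u : ℕ}

/-- the block matrix without the part `P` -/
def BZ (N M : Matrix (Fin e) (Fin e) k) (a c : Matrix (Fin u) (Fin e) k)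
    (b d : Matrix (Fin e) (Fin u) k) (nu : Matrix (Fin u) (Fin u) k) :
    Matrix (Ix e u 0) (Ix e u 0) k :=
  BX N M a c 0 b d nu 0 0 0

variable {N M N' M' N1 M1 N1' M1' : Matrix (Fin e) (Fin e) k}
    {a c a' c' a1 c1 a1' c1' : Matrix (Fin u) (Fin e) k}
    {b d b' d' b1 d1 b1' d1' : Matrix (Fin e) (Fin u) k}
    {nu nu' nu1 nu1' : Matrix (Fin u) (Fin u) k} {ρ : ℕ → ℕ}

theorem BZ_eq (w : Matrix (Fin 0) (Fin e) k) (pi : Matrix (Fin 0) (Fin u) k)
    (th : Matrix (Fin e) (Fin 0) k) (et : Matrix (Fin u) (Fin 0) k) :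
    BX N M a c w b d nu pi th et = BZ N M a c b d nu := by
  unfold BZ
  congr 1 <;> exact Subsingleton.elim _ _

theorem BZ_add : BZ N M a c b d nu + BZ N' M' a' c' b' d' nu' =
    BZ (N + N') (M + M') (a + a') (c + c') (b + b') (d + d') (nu + nu') := by
  unfold BZ
  rw [BX_add]
  simp

theorem BZ_smul (s : k) : s • BZ N M a c b d nu =
    BZ (s • N) (s • M) (s • a) (s • c) (s • b) (s • d) (s • nu) := by
  unfold BZ
  rw [BX_smul]
  simp

theorem BZ_mul : BZ N M a c b d nu * BZ N' M' a' c' b' d' nu' =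
    BZ (b * a') (N * N' + d * a' + b * c') 0 (a * N' + nu * a') 0 (N * b' + b * nu') (a * b') := by
  unfold BZ
  rw [BX_mul]
  simp

theorem BZ_one : JX k e u 0 = BZ 1 0 0 0 0 0 1 := by
  unfold BZ JX
  rfl

theorem BZ_inj : BZ N M a c b d nu = BZ N' M' a' c' b' d' nu' ↔
    N = N' ∧ M = M' ∧ a = a' ∧ c = c' ∧ b = b' ∧ d = d' ∧ nu = nu' := by
  unfold BZ
  rw [BX_inj]
  simp

/-- the five commutation relations -/
theorem cnZ (h1 : b * a' = b' * a)
    (h2 : N * N' + d * a' + b * c' = N' * N + d' * a + b' * c)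
    (h3 : a * N' + nu * a' = a' * N + nu' * a)
    (h5 : N * b' + b * nu' = N' * b + b' * nu)
    (h6 : a * b' = a' * b) :
    CN ![JX k e u 0, BZ N M a c b d nu, BZ N' M' a' c' b' d' nu'] := by
  unfold BZ
  refine cnX _ _ _ _ _ _ _ _ _ _ _ _ _ _ _ _ _ _ _ _ _ _ h1 ?_ ?_ ?_ ?_ ?_ ?_
  · simpa using h2
  · simpa using h3
  · simp
  · simpa using h5
  · simpa using h6
  · simp

theorem relZ (h : CN ![JX k e u 0, BZ N M a c b d nu, BZ N' M' a' c' b' d' nu']) :
    b * a' = b' * a ∧ N * N' + d * a' + b * c' = N' * N + d' * a + b' * c ∧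
      a * N' + nu * a' = a' * N + nu' * a ∧ N * b' + b * nu' = N' * b + b' * nu ∧
      a * b' = a' * b := by
  have h1 : BZ N M a c b d nu * BZ N' M' a' c' b' d' nu' =
      BZ N' M' a' c' b' d' nu' * BZ N M a c b d nu := h.1 1 2
  rw [BZ_mul, BZ_mul, BZ_inj] at h1
  exact ⟨h1.1, h1.2.1, h1.2.2.2.1, h1.2.2.2.2.2.1, h1.2.2.2.2.2.2⟩

/-- the shape of a maximal bad triple -/
theorem shapeZ [CharZero k] {T : Fin 3 → Matrix (Ix e u 0) (Ix e u 0) k} (hT : MaxR ρ T)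
    (hρ : ∀ i, ρ i = (JX k e u 0 ^ i).rank) (h0 : T 0 = JX k e u 0) :
    ∃ (N M : Matrix (Fin e) (Fin e) k) (a c : Matrix (Fin u) (Fin e) k)
      (b d : Matrix (Fin e) (Fin u) k) (nu : Matrix (Fin u) (Fin u) k)
      (N' M' : Matrix (Fin e) (Fin e) k) (a' c' : Matrix (Fin u) (Fin e) k)
      (b' d' : Matrix (Fin e) (Fin u) k) (nu' : Matrix (Fin u) (Fin u) k),
      MaxR ρ ![JX k e u 0, BZ N M a c b d nu, BZ N' M' a' c' b' d' nu'] := by
  obtain ⟨N, M, a, c, w, b, d, nu, pi, th, et, N', M', a', c', w', b', d', nu', pi', th', et', h⟩ :=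
    shapeX hT hρ h0
  rw [BZ_eq, BZ_eq] at h
  exact ⟨N, M, a, c, b, d, nu, N', M', a', c', b', d', nu', h⟩

/-- deformation along a line -/
theorem lineZ [Infinite k]
    (hT : MaxR ρ ![JX k e u 0, BZ N M a c b d nu, BZ N' M' a' c' b' d' nu'])
    (h1 : ∀ s : k, (b + s • b1) * (a' + s • a1') = (b' + s • b1') * (a + s • a1))
    (h2 : ∀ s : k, (N + s • N1) * (N' + s • N1') + (d + s • d1) * (a' + s • a1') +
        (b + s • b1) * (c' + s • c1') =
      (N' + s • N1') * (N + s • N1) + (d' + s • d1') * (a + s • a1) +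
        (b' + s • b1') * (c + s • c1))
    (h3 : ∀ s : k, (a + s • a1) * (N' + s • N1') + (nu + s • nu1) * (a' + s • a1') =
      (a' + s • a1') * (N + s • N1) + (nu' + s • nu1') * (a + s • a1))
    (h5 : ∀ s : k, (N + s • N1) * (b' + s • b1') + (b + s • b1) * (nu' + s • nu1') =
      (N' + s • N1') * (b + s • b1) + (b' + s • b1') * (nu + s • nu1))
    (h6 : ∀ s : k, (a + s • a1) * (b' + s • b1') = (a' + s • a1') * (b + s • b1))
    {F : Set k} (hF : F.Finite) :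
    ∃ s, s ∉ F ∧ MaxR ρ ![JX k e u 0,
      BZ (N + s • N1) (M + s • M1) (a + s • a1) (c + s • c1) (b + s • b1) (d + s • d1)
        (nu + s • nu1),
      BZ (N' + s • N1') (M' + s • M1') (a' + s • a1') (c' + s • c1') (b' + s • b1')
        (d' + s • d1') (nu' + s • nu1')] := by
  have key : ∀ (s : k), BZ N M a c b d nu + s • BZ N1 M1 a1 c1 b1 d1 nu1 =
      BZ (N + s • N1) (M + s • M1) (a + s • a1) (c + s • c1) (b + s • b1) (d + s • d1)
        (nu + s • nu1) := by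
    intro s
    rw [BZ_smul, BZ_add]
  have key' : ∀ (s : k), BZ N' M' a' c' b' d' nu' + s • BZ N1' M1' a1' c1' b1' d1' nu1' =
      BZ (N' + s • N1') (M' + s • M1') (a' + s • a1') (c' + s • c1') (b' + s • b1')
        (d' + s • d1') (nu' + s • nu1') := by
    intro s
    rw [BZ_smul, BZ_add]
  obtain ⟨s, hs, h⟩ := D8.MaxR.line2 hT (BZ N1 M1 a1 c1 b1 d1 nu1)
    (BZ N1' M1' a1' c1' b1' d1' nu1') (fun s => by
      rw [key, key']
      exact cnZ (h1 s) (h2 s) (h3 s) (h5 s) (h6 s)) hF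
  rw [key, key'] at h
  exact ⟨s, hs, h⟩

/-- change of the bases of `E` and `U` -/
theorem conjZ (hT : MaxR ρ ![JX k e u 0, BZ N M a c b d nu, BZ N' M' a' c' b' d' nu'])
    {g g' : Matrix (Fin e) (Fin e) k} {h h' : Matrix (Fin u) (Fin u) k} (hg : g * g' = 1)
    (hh : h * h' = 1) : MaxR ρ ![JX k e u 0,
      BZ (g * N * g') (g * M * g') (h * a * g') (h * c * g') (g * b * h') (g * d * h')
        (h * nu * h'),
      BZ (g * N' * g') (g * M' * g') (h * a' * g') (h * c' * g') (g * b' * h') (g * d' * h')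
        (h * nu' * h')] := by
  have h1 := MaxR.conjX g g' h h' (1 : Matrix (Fin 0) (Fin 0) k) 1 hT hg hh (one_mul 1)
  rw [BZ_eq, BZ_eq] at h1
  exact h1

/-- duality -/
theorem dualZ (hT : MaxR ρ ![JX k e u 0, BZ N M a c b d nu, BZ N' M' a' c' b' d' nu']) :
    MaxR ρ ![JX k e u 0, BZ Nᵀ Mᵀ bᵀ dᵀ aᵀ cᵀ nuᵀ, BZ N'ᵀ M'ᵀ b'ᵀ d'ᵀ a'ᵀ c'ᵀ nu'ᵀ] := by
  have h1 := MaxR.dualX hT
  rw [BZ_eq, BZ_eq] at h1
  exact h1

/-- linear changes of `B`, `C` and multiples of `A` -/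
theorem linZ (hT : MaxR ρ ![JX k e u 0, BZ N M a c b d nu, BZ N' M' a' c' b' d' nu'])
    (p q r t x y : k) (h : p * t - q * r ≠ 0) :
    MaxR ρ ![JX k e u 0,
      BZ (p • N + q • N' + x • 1) (p • M + q • M') (p • a + q • a') (p • c + q • c')
        (p • b + q • b') (p • d + q • d') (p • nu + q • nu' + x • 1),
      BZ (r • N + t • N' + y • 1) (r • M + t • M') (r • a + t • a') (r • c + t • c')
        (r • b + t • b') (r • d + t • d') (r • nu + t • nu' + y • 1)] := by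
  have h1 := D8.MaxR.lin hT p q r t x 0 y 0 h
  rw [zero_smul, add_zero, add_zero] at h1
  rw [show p • BZ N M a c b d nu + q • BZ N' M' a' c' b' d' nu' + x • JX k e u 0 =
      BZ (p • N + q • N' + x • 1) (p • M + q • M') (p • a + q • a') (p • c + q • c')
        (p • b + q • b') (p • d + q • d') (p • nu + q • nu' + x • 1) by
      rw [BZ_one]
      simp only [BZ_smul, BZ_add, smul_zero, add_zero],
    show r • BZ N M a c b d nu + t • BZ N' M' a' c' b' d' nu' + y • JX k e u 0 =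
      BZ (r • N + t • N' + y • 1) (r • M + t • M') (r • a + t • a') (r • c + t • c')
        (r • b + t • b') (r • d + t • d') (r • nu + t • nu' + y • 1) by
      rw [BZ_one]
      simp only [BZ_smul, BZ_add, smul_zero, add_zero]] at h1
  exact h1

theorem swapZ (hT : MaxR ρ ![JX k e u 0, BZ N M a c b d nu, BZ N' M' a' c' b' d' nu']) :
    MaxR ρ ![JX k e u 0, BZ N' M' a' c' b' d' nu', BZ N M a c b d nu] :=
  D8.MaxR.swap hT

theorem memZ (N M a c b d nu N' M' a' c' b' d' nu') (p q : k) :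
    BZ (e := e) (u := u) (p • N + q • N') (p • M + q • M') (p • a + q • a') (p • c + q • c')
      (p • b + q • b') (p • d + q • d') (p • nu + q • nu') ∈
      adj ![JX k e u 0, BZ N M a c b d nu, BZ N' M' a' c' b' d' nu'] := by
  have h : BZ (e := e) (u := u) (p • N + q • N') (p • M + q • M') (p • a + q • a')
      (p • c + q • c') (p • b + q • b') (p • d + q • d') (p • nu + q • nu') =
      p • BZ N M a c b d nu + q • BZ N' M' a' c' b' d' nu' := by
    simp only [BZ_smul, BZ_add]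
  rw [h]
  exact add_mem (SMulMemClass.smul_mem p (D8.mem1 _ _ _)) (SMulMemClass.smul_mem q (D8.mem2 _ _ _))

/-- `b_i a_j = 0` -/
theorem baZ [CharZero k] (hT : MaxR ρ ![JX k e u 0, BZ N M a c b d nu, BZ N' M' a' c' b' d' nu'])
    (h3 : ρ 3 = 0) : b * a = 0 ∧ b * a' = 0 ∧ b' * a = 0 ∧ b' * a' = 0 := by
  have m0 := D8.mem0 (JX k e u 0) (BZ N M a c b d nu) (BZ N' M' a' c' b' d' nu')
  have m1 := D8.mem1 (JX k e u 0) (BZ N M a c b d nu) (BZ N' M' a' c' b' d' nu')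
  have m2 := D8.mem2 (JX k e u 0) (BZ N M a c b d nu) (BZ N' M' a' c' b' d' nu')
  exact ⟨ba0X hT h3 m0 m1 m1, ba0X hT h3 m0 m1 m2, ba0X hT h3 m0 m2 m1, ba0X hT h3 m0 m2 m2⟩

/-- `a_X b_X = 0` and `a_X N_X b_X = 0` for the elements of the pencil -/
theorem abX [CharZero k] {T : Fin 3 → Matrix (Ix e u 0) (Ix e u 0) k} (hT : MaxR ρ T)
    (h2 : ρ 2 ≤ e) (hA : JX k e u 0 ∈ adj T) (hX : BZ N M a c b d nu ∈ adj T) :
    a * b = 0 ∧ a * N * b = 0 := by
  obtain ⟨e1, e2, -⟩ := BlkRankAux.sq_rank hT h2 hA hX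
  have h1 : a * b = 0 := by
    rw [Matrix.smul_mul, Matrix.mul_smul, smul_smul, Matrix.zero_mul, add_zero] at e1
    have h4 : (3 : k) • (a * b) = 0 := by
      have : (3 : k) • (a * b) = (2 * 2 : k) • (a * b) - a * b := by module
      rw [this, ← e1, sub_self]
    exact (smul_eq_zero.1 h4).resolve_left (by norm_num)
  refine ⟨h1, ?_⟩
  simp only [Matrix.zero_mul, add_zero, Matrix.smul_mul, Matrix.mul_smul, Matrix.mul_add,
    Matrix.add_mul, smul_smul] at e2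
  rw [← Matrix.mul_assoc a b nu, h1, Matrix.zero_mul, Matrix.mul_assoc nu a b, h1,
    Matrix.mul_zero, ← Matrix.mul_assoc a N b] at e2
  have h4 : (4 : k) • (a * N * b) = 0 := by
    have e3 := sub_eq_zero.2 e2.symm
    rw [← e3]
    module
  exact (smul_eq_zero.1 h4).resolve_left (by norm_num)

/-- `a_i b_j = 0` -/
theorem abZ [CharZero k] (hT : MaxR ρ ![JX k e u 0, BZ N M a c b d nu, BZ N' M' a' c' b' d' nu'])
    (h2 : ρ 2 ≤ e) : a * b = 0 ∧ a * b' = 0 ∧ a' * b = 0 ∧ a' * b' = 0 := by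
  have m0 := D8.mem0 (JX k e u 0) (BZ N M a c b d nu) (BZ N' M' a' c' b' d' nu')
  have m1 := D8.mem1 (JX k e u 0) (BZ N M a c b d nu) (BZ N' M' a' c' b' d' nu')
  have m2 := D8.mem2 (JX k e u 0) (BZ N M a c b d nu) (BZ N' M' a' c' b' d' nu')
  have h1 := (abX hT h2 m0 m1).1
  have h4 := (abX hT h2 m0 m2).1
  have m3 := add_mem m1 m2
  rw [BZ_add] at m3
  have h5 := (abX hT h2 m0 m3).1
  rw [Matrix.add_mul, Matrix.mul_add, Matrix.mul_add, h1, h4, zero_add, add_zero] at h5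
  have h6 := (relZ hT.cn).2.2.2.2
  rw [← h6, ← two_smul k, smul_eq_zero] at h5
  have h7 := h5.resolve_left two_ne_zero
  exact ⟨h1, h7, h6 ▸ h7, h4⟩

end Pool.Agent.Lib.D13
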