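import Pool.Agent.Lib.D13.D4321

/-!
# MP_5dcbc3_ag: type `(4, 3, 2, 1)`: the step M13

`H` is the statement that `al0 = be0 = 0` for all maximal bad triples.
-/

namespace Pool.Agent.Lib.D13.T4321.Dich

open Matrix Pool.Agent.Lib.Q5dc Pool.Agent.Lib.D7

variable {k : Type*} [Field k] {ρ : ℕ → ℕ} {P P' : Par k}

/-- a nonzero vector parallel to two parallel vectors -/
theorem exists_par {a a' b b' : k} (h : a' * b - a * b' = 0) :
    ∃ c c' : k, (c ≠ 0 ∨ c' ≠ 0) ∧ a' * c - a * c' = 0 ∧ b' * c - b * c' = 0 := by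
  by_cases ha : a = 0 ∧ a' = 0
  · by_cases hb : b = 0 ∧ b' = 0
    · refine ⟨1, 0, Or.inl one_ne_zero, ?_, ?_⟩
      · rw [ha.1, ha.2]; ring
      · rw [hb.1, hb.2]; ring
    · refine ⟨b, b', ?_, ?_, by ring⟩
      · by_contra hn
        push Not at hn
        exact hb hn
      · rw [ha.1, ha.2]; ring
  · refine ⟨a, a', ?_, by ring, by linear_combination -h⟩
    by_contra hn
    push Not at hn
    exact ha hn

/-- a vector of bracket one with a nonzero vector -/
theorem exists_one {a a' : k} (h : a ≠ 0 ∨ a' ≠ 0) : ∃ x x' : k, x' * a - x * a' = 1 := by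
  rcases h with h | h
  · exact ⟨0, a⁻¹, by field_simp; ring⟩
  · exact ⟨-a'⁻¹, 0, by field_simp; ring⟩

/-- two linear equations in three unknowns -/
theorem exists_sol (a1 a2 a3 b1 b2 b3 : k) : ∃ u v w : k, (u ≠ 0 ∨ v ≠ 0 ∨ w ≠ 0) ∧
    u * a1 + v * a2 + w * a3 = 0 ∧ u * b1 + v * b2 + w * b3 = 0 := by
  obtain ⟨v, hv, h⟩ := (Matrix.exists_mulVec_eq_zero_iff (M := !![a1, a2, a3; b1, b2, b3; 0, 0, 0])).2
    (by simp [Matrix.det_fin_three])
  have h0 := congrFun h 0
  have h1 := congrFun h 1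
  simp [Matrix.mulVec, dotProduct, Fin.sum_univ_three] at h0 h1
  refine ⟨v 0, v 1, v 2, ?_, by linear_combination h0, by linear_combination h1⟩
  by_contra hn
  push Not at hn
  apply hv
  funext i
  fin_cases i
  exacts [hn.1, hn.2.1, hn.2.2]

/-- M13, `de0 ≠ 0` -/
theorem no_M13a [Infinite k]
    (H : ∀ Q Q' : Par k, MaxR ρ ![J k, X Q, X Q'] → Q.al0 = 0 ∧ Q.be0 = 0)
    (hT : MaxR ρ ![J k, X P, X P']) (he : P.e0 = 0) (he' : P'.e0 = 0) (hf : P.f0 = 0)
    (hf' : P'.f0 = 0) (hg : P.g0 = 0) (hg' : P'.g0 = 0) (hz : P.zeta = 0) (hz' : P'.zeta = 0)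
    (ht : P.eta = 0) (ht' : P'.eta = 0) (hd : P.de0 ≠ 0 ∨ P'.de0 ≠ 0) : False := by
  obtain ⟨ha, hb⟩ := H P P' hT
  obtain ⟨ha', hb'⟩ := H P' P (D8.MaxR.swap hT)
  have hR := MaxR.rel hT
  obtain ⟨c, c', hc, hc1, hc2⟩ : ∃ c c' : k, (c ≠ 0 ∨ c' ≠ 0) ∧ P'.al1 * c - P.al1 * c' = 0 ∧
      P'.q1 * c - P.q1 * c' = 0 := by
    refine exists_par ?_
    have h := hR.r5
    simp only [Br, ha, ha', hg, hg', hf, hf', ht, ht'] at h
    linear_combination h
  obtain ⟨x, x', hx⟩ := exists_one hd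
  obtain ⟨s, hs, hM⟩ := MaxR.move hT
    { zero k with
      be0 := c
      g1 := -(P'.al2 * c - P.al2 * c') * x
      e1 := -(P'.q2 * c - P.q2 * c') * x
      z := -(P'.f1 * c - P.f1 * c') * x }
    { zero k with
      be0 := c'
      g1 := -(P'.al2 * c - P.al2 * c') * x'
      e1 := -(P'.q2 * c - P.q2 * c') * x'
      z := -(P'.f1 * c - P.f1 * c') * x' } (fun s => by
    obtain ⟨r1, r2, r3, r4, r5, r6, r7, r8, r9, r10, r11, r12, r13, r14, r15, r16, r17, r18, r19,
      r20⟩ := hR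
    simp only [Br, ha, ha', hb, hb', he, he', hf, hf', hg, hg', ht, ht'] at r3 r5 r10 r16
    constructor <;> simp only [Br, line, zero, ha, ha', hb, hb', he, he', hf, hf', hg, hg', hz, hz',
      ht, ht']
    · ring
    · linear_combination s * hc1
    · linear_combination r3 - s * (P'.al2 * c - P.al2 * c') * hx
    · ring
    · linear_combination r5
    · ring
    · ring
    · ring
    · linear_combination s * hc2
    · linear_combination r10 - s * (P'.q2 * c - P.q2 * c') * hx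
    · ring
    · linear_combination -s * hc1
    · ring
    · ring
    · ring
    · linear_combination r16 - s * (P'.f1 * c - P.f1 * c') * hx
    · ring
    · ring
    · ring
    · ring) (Set.finite_singleton (0 : k))
  have hs0 : s ≠ 0 := by simpa using hs
  obtain ⟨-, h1⟩ := H _ _ hM
  obtain ⟨-, h2⟩ := H _ _ (D8.MaxR.swap hM)
  simp only [line, hb, hb', zero_add] at h1 h2
  rcases hc with h | h
  · exact mul_ne_zero hs0 h h1
  · exact mul_ne_zero hs0 h h2

/-- M13 -/
theorem no_M13 [Infinite k]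
    (H : ∀ Q Q' : Par k, MaxR ρ ![J k, X Q, X Q'] → Q.al0 = 0 ∧ Q.be0 = 0)
    (hT : MaxR ρ ![J k, X P, X P']) (he : P.e0 = 0) (he' : P'.e0 = 0) (hf : P.f0 = 0)
    (hf' : P'.f0 = 0) (hg : P.g0 = 0) (hg' : P'.g0 = 0) (hz : P.zeta = 0) (hz' : P'.zeta = 0)
    (ht : P.eta = 0) (ht' : P'.eta = 0)
    (h : P.de0 ≠ 0 ∨ P'.de0 ≠ 0 ∨ P.rho ≠ 0 ∨ P'.rho ≠ 0) : False := by
  by_cases hd : P.de0 = 0 ∧ P'.de0 = 0
  swap
  · refine no_M13a H hT he he' hf hf' hg hg' hz hz' ht ht' ?_
    by_contra hn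
    push Not at hn
    exact hd hn
  obtain ⟨hd, hd'⟩ := hd
  have hr : P.rho ≠ 0 ∨ P'.rho ≠ 0 := by
    rcases h with h | h | h
    · exact absurd hd h
    · exact absurd hd' h
    · exact h
  obtain ⟨ha, hb⟩ := H P P' hT
  obtain ⟨ha', hb'⟩ := H P' P (D8.MaxR.swap hT)
  have hR := MaxR.rel hT
  obtain ⟨c, c', hc, hc1, hc2⟩ : ∃ c c' : k, (c ≠ 0 ∨ c' ≠ 0) ∧ P'.al1 * c - P.al1 * c' = 0 ∧
      P'.q1 * c - P.q1 * c' = 0 := by
    refine exists_par ?_
    have h := hR.r5
    simp only [Br, ha, ha', hg, hg', hf, hf', ht, ht'] at h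
    linear_combination h
  obtain ⟨x, x', hx⟩ := exists_one hr
  -- `[rho, -x] = 1`
  obtain ⟨β, d, d', hne, h1, h2⟩ := exists_sol
    ((P'.al2 * c - P.al2 * c') + (P'.f1 * c - P.f1 * c') * (P'.pi * x - P.pi * x'))
    (P'.g1 + P'.z * (P'.pi * x - P.pi * x')) (-(P.g1 + P.z * (P'.pi * x - P.pi * x')))
    ((P'.q2 * c - P.q2 * c') + (P'.f1 * c - P.f1 * c') * (P'.ph * x - P.ph * x'))
    (P'.e1 + P'.z * (P'.ph * x - P.ph * x')) (-(P.e1 + P.z * (P'.ph * x - P.ph * x')))
  obtain ⟨s, hs, hM⟩ := MaxR.move hT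
    { zero k with
      be0 := β * c
      de0 := d
      th := (β * (P'.f1 * c - P.f1 * c') + (P'.z * d - P.z * d')) * x }
    { zero k with
      be0 := β * c'
      de0 := d'
      th := (β * (P'.f1 * c - P.f1 * c') + (P'.z * d - P.z * d')) * x' } (fun s => by
    obtain ⟨r1, r2, r3, r4, r5, r6, r7, r8, r9, r10, r11, r12, r13, r14, r15, r16, r17, r18, r19,
      r20⟩ := hR
    simp only [Br, ha, ha', hb, hb', he, he', hf, hf', hg, hg', ht, ht', hd, hd'] at r3 r5 r10 r16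
    constructor <;> simp only [Br, line, zero, ha, ha', hb, hb', he, he', hf, hf', hg, hg', hz, hz',
      ht, ht', hd, hd']
    · ring
    · linear_combination s * β * hc1
    · linear_combination r3 + s * h1
    · ring
    · linear_combination r5
    · ring
    · ring
    · ring
    · linear_combination s * β * hc2
    · linear_combination r10 + s * h2
    · ring
    · linear_combination -s * β * hc1
    · ring
    · ring
    · ring
    · linear_combination r16 - s * (β * (P'.f1 * c - P.f1 * c') + (P'.z * d - P.z * d')) * hx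
    · ring
    · ring
    · ring
    · ring) (Set.finite_singleton (0 : k))
  have hs0 : s ≠ 0 := by simpa using hs
  obtain ⟨-, k1⟩ := H _ _ hM
  obtain ⟨-, k2⟩ := H _ _ (D8.MaxR.swap hM)
  simp only [line, hb, hb', zero_add] at k1 k2
  have hβ : β = 0 := by
    rcases hc with h | h
    · exact ((mul_eq_zero.1 ((mul_eq_zero.1 k1).resolve_left hs0)).resolve_right h)
    · exact ((mul_eq_zero.1 ((mul_eq_zero.1 k2).resolve_left hs0)).resolve_right h)
  have hdd : d ≠ 0 ∨ d' ≠ 0 := by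
    rcases hne with h | h
    · exact absurd hβ h
    · exact h
  refine no_M13a H hM ?_ ?_ ?_ ?_ ?_ ?_ ?_ ?_ ?_ ?_ ?_
  · simp [line, zero, he]
  · simp [line, zero, he']
  · simp [line, zero, hf]
  · simp [line, zero, hf']
  · simp [line, zero, hg]
  · simp [line, zero, hg']
  · simp [line, zero, hz]
  · simp [line, zero, hz']
  · simp [line, zero, ht]
  · simp [line, zero, ht']
  · simp only [line, hd, hd', zero_add]
    rcases hdd with h | h
    · exact Or.inl (mul_ne_zero hs0 h)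
    · exact Or.inr (mul_ne_zero hs0 h)

end Pool.Agent.Lib.D13.T4321.Dich
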