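import Pool.Agent.Lib.D8.UtilB

/-!
# MP_5dcbc3_ag: a raise with two vectors and two functionals

`w = x g` in the socle, `A g = z g = 0`, `G z = h z = 0`, `h A = G x^2`, `G`, `h` vanish on `w`, `g`:
then `(x + s g ⊗ h, A + s (w ⊗ G + g ⊗ G x), z)` is commuting and nilpotent.
-/

namespace Pool.Agent.Lib.D13

open Matrix Pool.Agent.Lib.Q5dc Pool.Agent.Lib.D7

variable {k n : Type*} [Field k] [Fintype n] [DecidableEq n]
variable {ρ : ℕ → ℕ}

namespace ExtAux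

theorem ext_pow {x : Matrix n n k} {w g h : n → k} (hxg : x *ᵥ g = w) (hxw : x *ᵥ w = 0)
    (hhw : h ⬝ᵥ w = 0) (hhg : h ⬝ᵥ g = 0) (s : k) (m : ℕ) :
    (x + s • vecMulVec g h) ^ (m + 2) =
      x ^ (m + 2) + s • vecMulVec g (h ᵥ* x ^ (m + 1)) + s • vecMulVec w (h ᵥ* x ^ m) := by
  induction m with
  | zero =>
    rw [zero_add, pow_two, add_mul, mul_add, mul_add, smul_mul_assoc, smul_mul_assoc,
      mul_smul_comm, mul_smul_comm, mul_vecMulVec, hxg, vecMulVec_mul, vecMulVec_mul_vecMulVec,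
      hhg, pow_two, pow_one, pow_zero, vecMul_one]
    simp only [zero_smul, smul_zero, add_zero, vecMulVec_zero]
    abel
  | succ m ih =>
    rw [pow_succ', ih, add_mul, mul_add, mul_add, mul_add, mul_add, ← pow_succ', smul_mul_assoc,
      smul_mul_assoc, smul_mul_assoc, mul_smul_comm, mul_smul_comm, mul_smul_comm, mul_smul_comm,
      mul_vecMulVec, mul_vecMulVec, hxg, hxw, vecMulVec_mul, vecMulVec_mul_vecMulVec,
      vecMulVec_mul_vecMulVec, hhg, hhw]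
    simp only [zero_smul, smul_zero, add_zero, zero_vecMulVec, vecMulVec_zero]
    abel

omit [DecidableEq n] in
theorem vm_mulVec (a b v : n → k) : vecMulVec a b *ᵥ v = (b ⬝ᵥ v) • a := by
  rw [vecMulVec_mulVec]
  ext i
  simp [mul_comm]

theorem ext_powA {A D : Matrix n n k} (hAD : A * D = 0) (hDD : D * D = 0) (m : ℕ) :
    (A + D) ^ (m + 1) = A ^ (m + 1) + D * A ^ m := by
  induction m with
  | zero => simp
  | succ m ih =>
    rw [pow_succ', ih, add_mul, mul_add, mul_add, ← mul_assoc A D, hAD, ← mul_assoc D D, hDD,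
      ← pow_succ']
    simp

/-- the new triples are commuting and nilpotent -/
theorem ext_cn {x A z : Matrix n n k} (hT : CN ![x, A, z]) {w g G h : n → k}
    (hxg : x *ᵥ g = w) (hxw : x *ᵥ w = 0) (hAg : A *ᵥ g = 0) (hzg : z *ᵥ g = 0)
    (hGz : G ᵥ* z = 0) (hhz : h ᵥ* z = 0) (hhA : h ᵥ* A = G ᵥ* (x * x))
    (hGw : G ⬝ᵥ w = 0) (hGg : G ⬝ᵥ g = 0) (hhw : h ⬝ᵥ w = 0) (hhg : h ⬝ᵥ g = 0) (s : k) :
    CN ![x + s • vecMulVec g h, A + s • (vecMulVec w G + vecMulVec g (G ᵥ* x)), z] := by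
  have hxA : x * A = A * x := hT.1 0 1
  have hxz : x * z = z * x := hT.1 0 2
  have hAz : A * z = z * A := hT.1 1 2
  have hAw : A *ᵥ w = 0 := by
    rw [← hxg, mulVec_mulVec, ← hxA, ← mulVec_mulVec, hAg, mulVec_zero]
  have hzw : z *ᵥ w = 0 := by
    rw [← hxg, mulVec_mulVec, ← hxz, ← mulVec_mulVec, hzg, mulVec_zero]
  have hGxz : (G ᵥ* x) ᵥ* z = 0 := by
    rw [vecMul_vecMul, hxz, ← vecMul_vecMul, hGz, zero_vecMul]
  have hGxw : (G ᵥ* x) ⬝ᵥ w = 0 := by rw [← dotProduct_mulVec, hxw, dotProduct_zero]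
  have hGxg : (G ᵥ* x) ⬝ᵥ g = 0 := by rw [← dotProduct_mulVec, hxg, hGw]
  have hx1 : IsNilpotent (x + s • vecMulVec g h) := by
    obtain ⟨p, hp⟩ := hT.2 0
    have hp' : x ^ p = 0 := hp
    refine ⟨p + 2, ?_⟩
    rw [ext_pow hxg hxw hhw hhg, pow_add, pow_add, hp']
    simp
  have hD : (s • (vecMulVec w G + vecMulVec g (G ᵥ* x))) *
      (s • (vecMulVec w G + vecMulVec g (G ᵥ* x))) = 0 := by
    rw [smul_mul_assoc, mul_smul_comm, add_mul, mul_add, mul_add, vecMulVec_mul_vecMulVec,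
      vecMulVec_mul_vecMulVec, vecMulVec_mul_vecMulVec, vecMulVec_mul_vecMulVec, hGw, hGg, hGxw,
      hGxg]
    simp
  have hAD : A * (s • (vecMulVec w G + vecMulVec g (G ᵥ* x))) = 0 := by
    rw [mul_smul_comm, mul_add, mul_vecMulVec, mul_vecMulVec, hAw, hAg]
    simp
  have hA1 : IsNilpotent (A + s • (vecMulVec w G + vecMulVec g (G ᵥ* x))) := by
    obtain ⟨p, hp⟩ := hT.2 1
    have hp' : A ^ p = 0 := hp
    refine ⟨p + 1, ?_⟩
    rw [ext_powA hAD hD, pow_succ, hp']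
    simp
  refine D8.cn3 ?_ ?_ ?_ hx1 hA1 (hT.2 2)
  · have e1 : vecMulVec g h * A = vecMulVec g (G ᵥ* (x * x)) := by rw [vecMulVec_mul, hhA]
    have e2 : x * vecMulVec w G = 0 := by rw [mul_vecMulVec, hxw]; simp
    have e3 : x * vecMulVec g (G ᵥ* x) = vecMulVec w (G ᵥ* x) := by rw [mul_vecMulVec, hxg]
    have e4 : vecMulVec w G * x = vecMulVec w (G ᵥ* x) := by rw [vecMulVec_mul]
    have e5 : vecMulVec g (G ᵥ* x) * x = vecMulVec g (G ᵥ* (x * x)) := by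
      rw [vecMulVec_mul, vecMul_vecMul]
    have e6 : A * vecMulVec g h = 0 := by rw [mul_vecMulVec, hAg]; simp
    have e7 : vecMulVec g h * vecMulVec w G = 0 := by rw [vecMulVec_mul_vecMulVec, hhw]; simp
    have e8 : vecMulVec g h * vecMulVec g (G ᵥ* x) = 0 := by
      rw [vecMulVec_mul_vecMulVec, hhg]; simp
    have e9 : vecMulVec w G * vecMulVec g h = 0 := by rw [vecMulVec_mul_vecMulVec, hGg]; simp
    have e10 : vecMulVec g (G ᵥ* x) * vecMulVec g h = 0 := by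
      rw [vecMulVec_mul_vecMulVec, hGxg]; simp
    simp only [add_mul, mul_add, smul_mul_assoc, mul_smul_comm, e1, e2, e3, e4, e5, e6, e7, e8, e9,
      e10, hxA, smul_zero, add_zero, zero_add]
    rw [smul_add]
    abel
  · have e1 : vecMulVec g h * z = 0 := by rw [vecMulVec_mul, hhz]; simp
    have e2 : z * vecMulVec g h = 0 := by rw [mul_vecMulVec, hzg]; simp
    simp only [add_mul, mul_add, smul_mul_assoc, mul_smul_comm, e1, e2, hxz, smul_zero, add_zero]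
  · have e1 : vecMulVec w G * z = 0 := by rw [vecMulVec_mul, hGz]; simp
    have e2 : vecMulVec g (G ᵥ* x) * z = 0 := by rw [vecMulVec_mul, hGxz]; simp
    have e3 : z * vecMulVec w G = 0 := by rw [mul_vecMulVec, hzw]; simp
    have e4 : z * vecMulVec g (G ᵥ* x) = 0 := by rw [mul_vecMulVec, hzg]; simp
    simp only [add_mul, mul_add, smul_mul_assoc, mul_smul_comm, e1, e2, e3, e4, hAz, smul_zero,
      add_zero]

end ExtAux

open ExtAux

/-- a maximal bad triple admits no such data with `G A^i ≠ 0`, `ρ (i + 1) = 0` -/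
theorem MaxR.ext [Infinite k] {x A z : Matrix n n k} (hT : MaxR ρ ![x, A, z]) {i : ℕ}
    (hρ : ρ (i + 1) = 0) {w g G h : n → k} (hw : w ≠ 0)
    (hxg : x *ᵥ g = w) (hxw : x *ᵥ w = 0) (hAg : A *ᵥ g = 0) (hzg : z *ᵥ g = 0)
    (hGz : G ᵥ* z = 0) (hhz : h ᵥ* z = 0) (hhA : h ᵥ* A = G ᵥ* (x * x))
    (hGw : G ⬝ᵥ w = 0) (hGg : G ⬝ᵥ g = 0) (hhw : h ⬝ᵥ w = 0) (hhg : h ⬝ᵥ g = 0) (v : n → k) :
    G ⬝ᵥ (A ^ i *ᵥ v) = 0 := by
  have hfam : ∀ s : k, ![x, A, z] + s • ![vecMulVec g h, vecMulVec w G + vecMulVec g (G ᵥ* x), 0] =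
      ![x + s • vecMulVec g h, A + s • (vecMulVec w G + vecMulVec g (G ᵥ* x)), z] := by
    intro s
    rw [D8.line3_eq]
    simp
  obtain ⟨E, hE, h1⟩ := hT.deform (fun s => ![x, A, z] +
      s • ![vecMulVec g h, vecMulVec w G + vecMulVec g (G ᵥ* x), 0]) (PolyFam.line _ _) (by simp)
    Set.finite_empty (fun s _ => by
      rw [hfam]
      exact ext_cn hT.cn hxg hxw hAg hzg hGz hhz hhA hGw hGg hhw hhg s)
  obtain ⟨s, hs⟩ := (hE.union (Set.finite_singleton 0)).exists_notMem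
  simp only [Set.mem_union, not_or, Set.mem_singleton_iff] at hs
  have h2 := h1 s hs.1
  rw [hfam] at h2
  have h3 := h2.pow_eq_zero (D8.mem1 _ _ _) hρ
  have hAx : x * A = A * x := hT.cn.1 0 1
  have hAw : A *ᵥ w = 0 := by
    rw [← hxg, mulVec_mulVec, ← hAx, ← mulVec_mulVec, hAg, mulVec_zero]
  have hGxw : (G ᵥ* x) ⬝ᵥ w = 0 := by rw [← dotProduct_mulVec, hxw, dotProduct_zero]
  have hGxg : (G ᵥ* x) ⬝ᵥ g = 0 := by rw [← dotProduct_mulVec, hxg, hGw]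
  have hD : (s • (vecMulVec w G + vecMulVec g (G ᵥ* x))) *
      (s • (vecMulVec w G + vecMulVec g (G ᵥ* x))) = 0 := by
    rw [smul_mul_assoc, mul_smul_comm, add_mul, mul_add, mul_add, vecMulVec_mul_vecMulVec,
      vecMulVec_mul_vecMulVec, vecMulVec_mul_vecMulVec, vecMulVec_mul_vecMulVec, hGw, hGg, hGxw,
      hGxg]
    simp
  have hAD : A * (s • (vecMulVec w G + vecMulVec g (G ᵥ* x))) = 0 := by
    rw [mul_smul_comm, mul_add, mul_vecMulVec, mul_vecMulVec, hAw, hAg]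
    simp
  rw [ext_powA hAD hD, hT.pow_eq_zero (D8.mem1 _ _ _) hρ, zero_add] at h3
  have h5 : s • ((G ⬝ᵥ (A ^ i *ᵥ v)) • w + ((G ᵥ* x) ⬝ᵥ (A ^ i *ᵥ v)) • g) = 0 := by
    have h6 := congrArg (fun m => m *ᵥ v) h3
    simp only [zero_mulVec, ← mulVec_mulVec, smul_mulVec, add_mulVec, vm_mulVec] at h6
    exact h6
  have h6 : (G ⬝ᵥ (A ^ i *ᵥ v)) • w + ((G ᵥ* x) ⬝ᵥ (A ^ i *ᵥ v)) • g = 0 :=
    (smul_eq_zero.1 h5).resolve_left hs.2
  have h7 : ((G ᵥ* x) ⬝ᵥ (A ^ i *ᵥ v)) • w = 0 := by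
    have h8 := congrArg (fun m => x *ᵥ m) h6
    simpa only [mulVec_add, mulVec_smul, hxw, hxg, smul_zero, zero_add, mulVec_zero] using h8
  rw [(smul_eq_zero.1 h7).resolve_right hw, zero_smul, add_zero] at h6
  exact (smul_eq_zero.1 h6).resolve_right hw

end Pool.Agent.Lib.D13
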