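import Pool.Agent.Lib.D13.FdcM
import Pool.Agent.Lib.D13.C1342
import Pool.Agent.Lib.D13.M4321

/-!
# MP_5dcbc3_ag: type `(4, 3, 2, 1)`, density of the family F2, `h = (1, 3, 4, 2)`

Normal form: `B v0 = u0`, `C v0 = w0`, `B u0 = .. + phi p`, `C w0 = .. + r p`, `phi, r ≠ 0`. Base point
`k[t] / t ^ 10`, `(A, B, C) = (t ^ 3, t, t ^ 2)`.
-/

set_option autoImplicit false

namespace Pool.Agent.Lib.D13.T4321

open Matrix Pool.Agent.Lib.Q5dc Pool.Agent.Lib.D7 Pool.Agent.Lib.D9.DensX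

namespace F2Aux

/-- exponents of the basis -/
def ex : Fin 10 ≃ Fin (9 + 1) where
  toFun := ![0, 1, 2, 3, 4, 8, 5, 6, 7, 9]
  invFun := ![0, 1, 2, 3, 4, 6, 7, 8, 5, 9]
  left_inv := by intro x; fin_cases x <;> rfl
  right_inv := by intro x; fin_cases x <;> rfl

/-- the order of the operators -/
def sg : Fin 3 ≃ Fin 3 where
  toFun := ![2, 0, 1]
  invFun := ![1, 2, 0]
  left_inv := by intro x; fin_cases x <;> rfl
  right_inv := by intro x; fin_cases x <;> rfl

variable {k : Type*} [Field k]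

section

variable (q f F e y Z b hB h' phi r p' r' m2 m mD n2 n nD s : k)

/-- `f0` of `C` -/
def Fs : k := 1 + s * (F - 1)

/-- `be1 / s` -/
def bs : k := s * b - (1 - s) * r

/-- `x / s` -/
def x1 : k := e * Fs F s - s * y * f + s * phi * h'

/-- `D / s` -/
def D1 : k := s * f * f - Fs F s * q - s * Z * f + y * Fs F s - s * r * hB

/-- `th` of `B` -/
def tB : k := -(Fs F s * bs b r s - s * f * x1 f F e y h' phi s + s * Z * x1 f F e y h' phi s -
  s * y * D1 q f F y Z hB r s) * r'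

/-- `th` of `C` -/
def tC : k := s * (f * bs b r s - q * x1 f F e y h' phi s + y * x1 f F e y h' phi s -
  e * D1 q f F y Z hB r s) * p'

/-- the parameters of `B` -/
def PB : Par k where
  al0 := 1
  al1 := 0
  al2 := 0
  g0 := 0
  g1 := 0
  pi := 0
  be0 := 0
  be1 := s * bs b r s
  be2 := s * m2
  q1 := s * q
  q2 := s * n2
  e0 := 0
  e1 := s * e
  ph := s * phi
  de0 := s * x1 f F e y h' phi s
  de1 := s * m
  f0 := s * f
  f1 := s * n
  z := s * y
  rho := 0
  th := tB q f F e y Z b hB h' phi r r' s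
  eta := s * hB
  zeta := 0

/-- the parameters of `C` -/
def PC : Par k where
  al0 := 0
  al1 := 0
  al2 := 0
  g0 := 1
  g1 := 0
  pi := 0
  be0 := 0
  be1 := s * x1 f F e y h' phi s
  be2 := s * m
  q1 := s * f
  q2 := s * n
  e0 := 0
  e1 := s * y
  ph := 0
  de0 := s * D1 q f F y Z hB r s
  de1 := s * mD
  f0 := Fs F s
  f1 := s * nD
  z := s * Z
  rho := s * r
  th := tC q f F e y Z b hB h' phi r p' s
  eta := s * h'
  zeta := 0

theorem rel (hp : phi * p' = 1) (hr : r * r' = 1) :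
    Rel (PB q f F e y Z b hB h' phi r r' m2 m n2 n s) (PC q f F e y Z b hB h' phi r p' m mD n nD s) := by
  constructor
  case r10 =>
    simp only [Br, PB, PC, tC]
    linear_combination (-(s * s) * (f * bs b r s - q * x1 f F e y h' phi s +
      y * x1 f F e y h' phi s - e * D1 q f F y Z hB r s)) * hp
  case r16 =>
    simp only [Br, PB, PC, tB]
    linear_combination (-s * (Fs F s * bs b r s - s * f * x1 f F e y h' phi s +
      s * Z * x1 f F e y h' phi s - s * y * D1 q f F y Z hB r s)) * hr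
  case r12 =>
    simp only [Br, PB, PC, x1]
    ring
  case r17 =>
    simp only [Br, PB, PC, D1]
    ring
  all_goals
    simp only [Br, PB, PC]
    ring

end

theorem isPoly_X {P : k → Par k} (h1 : IsPoly fun s => (P s).al0) (h2 : IsPoly fun s => (P s).al1)
    (h3 : IsPoly fun s => (P s).al2) (h4 : IsPoly fun s => (P s).g0) (h5 : IsPoly fun s => (P s).g1)
    (h6 : IsPoly fun s => (P s).pi) (h7 : IsPoly fun s => (P s).be0)
    (h8 : IsPoly fun s => (P s).be1) (h9 : IsPoly fun s => (P s).be2)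
    (h10 : IsPoly fun s => (P s).q1) (h11 : IsPoly fun s => (P s).q2)
    (h12 : IsPoly fun s => (P s).e0) (h13 : IsPoly fun s => (P s).e1)
    (h14 : IsPoly fun s => (P s).ph) (h15 : IsPoly fun s => (P s).de0)
    (h16 : IsPoly fun s => (P s).de1) (h17 : IsPoly fun s => (P s).f0)
    (h18 : IsPoly fun s => (P s).f1) (h19 : IsPoly fun s => (P s).z)
    (h20 : IsPoly fun s => (P s).rho) (h21 : IsPoly fun s => (P s).th)
    (h22 : IsPoly fun s => (P s).eta) (h23 : IsPoly fun s => (P s).zeta) (x y : Fin 10) :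
    IsPoly fun s => X (P s) x y := by
  have h0 : IsPoly fun _ : k => (0 : k) := D7.IsPoly.const 0
  fin_cases x <;> fin_cases y <;>
    first
    | exact h0
    | exact h1
    | exact h2
    | exact h3
    | exact h4
    | exact h5
    | exact h6
    | exact h7
    | exact h8
    | exact h9
    | exact h10
    | exact h11
    | exact h12
    | exact h13
    | exact h14
    | exact h15
    | exact h16
    | exact h17
    | exact h18
    | exact h19
    | exact h20
    | exact h21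
    | exact h22
    | exact h23

theorem par_ext {P Q : Par k} (h1 : P.al0 = Q.al0) (h2 : P.al1 = Q.al1) (h3 : P.al2 = Q.al2)
    (h4 : P.g0 = Q.g0) (h5 : P.g1 = Q.g1) (h6 : P.pi = Q.pi) (h7 : P.be0 = Q.be0)
    (h8 : P.be1 = Q.be1) (h9 : P.be2 = Q.be2) (h10 : P.q1 = Q.q1) (h11 : P.q2 = Q.q2)
    (h12 : P.e0 = Q.e0) (h13 : P.e1 = Q.e1) (h14 : P.ph = Q.ph) (h15 : P.de0 = Q.de0)
    (h16 : P.de1 = Q.de1) (h17 : P.f0 = Q.f0) (h18 : P.f1 = Q.f1) (h19 : P.z = Q.z)
    (h20 : P.rho = Q.rho) (h21 : P.th = Q.th) (h22 : P.eta = Q.eta) (h23 : P.zeta = Q.zeta) :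
    P = Q := by
  cases P
  cases Q
  simp only at h1 h2 h3 h4 h5 h6 h7 h8 h9 h10 h11 h12 h13 h14 h15 h16 h17 h18 h19 h20 h21 h22 h23
  subst h1 h2 h3 h4 h5 h6 h7 h8 h9 h10 h11 h12 h13 h14 h15 h16 h17 h18 h19 h20 h21 h22 h23
  rfl

theorem low_J (x y : Fin 10) (h : C1342.w (ex x) ≤ C1342.w (ex y)) : J k x y = 0 := by
  fin_cases x <;> fin_cases y <;> first | rfl | exact absurd h (by decide)

theorem low_X {P : Par k} (h1 : P.be0 = 0) (h2 : P.e0 = 0) (h3 : P.zeta = 0) (x y : Fin 10)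
    (h : C1342.w (ex x) ≤ C1342.w (ex y)) : X P x y = 0 := by
  fin_cases x <;> fin_cases y <;>
    first
    | rfl
    | exact h1
    | exact h2
    | exact h3
    | exact absurd h (by decide)

end F2Aux

open F2Aux in
/-- **density of F2** -/
theorem cl_F2 {k : Type*} [Field k] [CharZero k] {P P' : Par k} (h : Rel P P')
    (hal0 : P.al0 = 1) (hal0' : P'.al0 = 0) (hal1 : P.al1 = 0) (hal1' : P'.al1 = 0)
    (hal2 : P.al2 = 0) (hal2' : P'.al2 = 0) (hg0 : P.g0 = 0) (hg0' : P'.g0 = 1)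
    (hg1 : P.g1 = 0) (hg1' : P'.g1 = 0) (hpi : P.pi = 0) (hpi' : P'.pi = 0)
    (hbe0 : P.be0 = 0) (hbe0' : P'.be0 = 0) (he0 : P.e0 = 0) (he0' : P'.e0 = 0)
    (hze : P.zeta = 0) (hze' : P'.zeta = 0) (hph : P.ph ≠ 0) (hph' : P'.ph = 0)
    (hrho : P.rho = 0) (hrho' : P'.rho ≠ 0) : Cl ![J k, X P, X P'] := by
  obtain ⟨r1, r2, r3, r4, r5, r6, r7, r8, r9, r10, r11, r12, r13, r14, r15, r16, r17, r18, r19,
    r20⟩ := h
  simp only [Br, hal0, hal0', hal1, hal1', hal2, hal2', hg0, hg0', hg1, hg1', hpi, hpi', hbe0,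
    hbe0', he0, he0', hze, hze', hph', hrho] at r2 r3 r4 r5 r7 r10 r12 r16 r17
  set phi := P.ph with hphi
  set r := P'.rho with hr
  have hp : phi * phi⁻¹ = 1 := mul_inv_cancel₀ hph
  have hr1 : r * r⁻¹ = 1 := mul_inv_cancel₀ hrho'
  set c : k → Fin 3 → Matrix (Fin 10) (Fin 10) k := fun s =>
    ![J k, X (PB P.q1 P.f0 P'.f0 P.e1 P.z P'.z P.be1 P.eta P'.eta phi r r⁻¹ P.be2 P.de1 P.q2 P.f1 s),
      X (PC P.q1 P.f0 P'.f0 P.e1 P.z P'.z P.be1 P.eta P'.eta phi r phi⁻¹ P.de1 P'.de1 P.f1 P'.f1 s)]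
    with hc
  have hid : ∀ c : k, IsPoly fun s : k => s * c := fun c => D7.IsPoly.id.mul (D7.IsPoly.const c)
  have hcn : ∀ c : k, IsPoly fun _ : k => c := fun c => D7.IsPoly.const c
  have pF : IsPoly fun s : k => Fs P'.f0 s := (hcn 1).add (hid _)
  have psub : ∀ {u v : k → k}, IsPoly u → IsPoly v → IsPoly fun s => u s - v s := by
    intro u v ⟨p, hp⟩ ⟨q, hq⟩
    exact ⟨p - q, fun s => by simp [hp, hq]⟩
  have pb : IsPoly fun s : k => bs P.be1 r s :=
    psub (hid _) ((psub (hcn 1) D7.IsPoly.id).mul (hcn r))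
  have px : IsPoly fun s : k => x1 P.f0 P'.f0 P.e1 P.z P'.eta phi s :=
    (psub ((hcn _).mul pF) ((hid _).mul (hcn _))).add ((hid _).mul (hcn _))
  have pD : IsPoly fun s : k => D1 P.q1 P.f0 P'.f0 P.z P'.z P.eta r s :=
    psub ((psub (psub ((hid _).mul (hcn _)) (pF.mul (hcn _))) ((hid _).mul (hcn _))).add
      ((hcn _).mul pF)) ((hid _).mul (hcn _))
  have pneg : ∀ {u : k → k}, IsPoly u → IsPoly fun s => -(u s) := by
    intro u ⟨p, hp⟩
    exact ⟨-p, fun s => by simp [hp]⟩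
  have ptB : IsPoly fun s : k => tB P.q1 P.f0 P'.f0 P.e1 P.z P'.z P.be1 P.eta P'.eta phi r r⁻¹ s :=
    (pneg (psub ((psub (pF.mul pb) ((hid _).mul px)).add ((hid _).mul px)) ((hid _).mul pD))).mul
      (hcn _)
  have ptC : IsPoly fun s : k => tC P.q1 P.f0 P'.f0 P.e1 P.z P'.z P.be1 P.eta P'.eta phi r phi⁻¹ s :=
    (D7.IsPoly.id.mul (psub ((psub ((hcn _).mul pb) ((hcn _).mul px)).add ((hcn _).mul px))
      ((hcn _).mul pD))).mul (hcn _)
  have key : Cl (c 1) := by
    refine fdc_mono' ex sg C1342.w C1342.av (by decide) (by decide) (fun κ hκ => ?_) c ?_ ?_ ?_ ?_ 1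
    · rcases Nat.lt_or_ge κ 4 with h | h
      · interval_cases κ
        · exact C1342.cert1
        · exact C1342.cert2
        · exact C1342.cert3
      · refine cert_top fun x => lt_of_lt_of_le ?_ h
        revert x
        decide
    · intro i x y
      fin_cases i
      · exact D7.IsPoly.const (J k x y)
      · exact isPoly_X (P := fun s => PB P.q1 P.f0 P'.f0 P.e1 P.z P'.z P.be1 P.eta P'.eta phi r r⁻¹
          P.be2 P.de1 P.q2 P.f1 s) (hcn _) (hcn _) (hcn _) (hcn _) (hcn _) (hcn _) (hcn _)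
          (D7.IsPoly.id.mul pb) (hid _) (hid _) (hid _) (hcn _) (hid _) (hid _)
          (D7.IsPoly.id.mul px) (hid _) (hid _) (hid _) (hid _) (hcn _) ptB (hid _) (hcn _) x y
      · exact isPoly_X (P := fun s => PC P.q1 P.f0 P'.f0 P.e1 P.z P'.z P.be1 P.eta P'.eta phi r
          phi⁻¹ P.de1 P'.de1 P.f1 P'.f1 s) (hcn _) (hcn _) (hcn _) (hcn _) (hcn _) (hcn _) (hcn _)
          (D7.IsPoly.id.mul px) (hid _) (hid _) (hid _) (hcn _) (hid _) (hcn _)
          (D7.IsPoly.id.mul pD) (hid _) pF (hid _) (hid _) (hid _) ptC (hid _) (hcn _) x y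
    · intro s
      exact (cn (rel _ _ _ _ _ _ _ _ _ _ _ _ _ _ _ _ _ _ _ s hp hr1)).1
    · intro s i x y hxy
      fin_cases i
      · exact low_J x y hxy
      · exact low_X rfl rfl rfl x y hxy
      · exact low_X rfl rfl rfl x y hxy
    · intro i x y hxy
      fin_cases i
      · fin_cases x <;> fin_cases y <;>
          first
          | exact absurd hxy (by decide)
          | (simp [hc, J, ex, sg, C1342.av]; done)
      · fin_cases x <;> fin_cases y <;>
          first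
          | exact absurd hxy (by decide)
          | (simp [hc, X, PB, ex, sg, C1342.av, tB, bs, Fs, hr1]; done)
      · fin_cases x <;> fin_cases y <;>
          first
          | exact absurd hxy (by decide)
          | (simp [hc, X, PC, ex, sg, C1342.av, tC, bs, Fs]; done)
  have s2 : P'.be1 = P.de0 := by linear_combination -r2
  have s3 : P'.be2 = P.de1 := by linear_combination -r3
  have s4 : P'.q1 = P.f0 := by linear_combination -r4
  have s5 : P'.q2 = P.f1 := by linear_combination -r5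
  have s7 : P'.e1 = P.z := by linear_combination -r7
  rw [s2, s4, s7] at r10
  rw [s2] at r16
  rw [s2, s7] at r12
  rw [s4] at r17
  have e1 : P.de0 = x1 P.f0 P'.f0 P.e1 P.z P'.eta phi 1 := by
    simp only [x1, Fs]
    linear_combination r12
  have e2 : P'.de0 = D1 P.q1 P.f0 P'.f0 P.z P'.z P.eta r 1 := by
    simp only [D1, Fs]
    linear_combination r17
  have hB : PB P.q1 P.f0 P'.f0 P.e1 P.z P'.z P.be1 P.eta P'.eta phi r r⁻¹ P.be2 P.de1 P.q2 P.f1 1
      = P := by
    refine par_ext hal0.symm hal1.symm hal2.symm hg0.symm hg1.symm hpi.symm hbe0.symm ?_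
      (one_mul _) (one_mul _) (one_mul _) he0.symm (one_mul _) (one_mul _) ?_ (one_mul _)
      (one_mul _) (one_mul _) (one_mul _) hrho.symm ?_ (one_mul _) hze.symm
    · simp [PB, bs]
    · show 1 * x1 P.f0 P'.f0 P.e1 P.z P'.eta phi 1 = P.de0
      rw [← e1, one_mul]
    · show tB P.q1 P.f0 P'.f0 P.e1 P.z P'.z P.be1 P.eta P'.eta phi r r⁻¹ 1 = P.th
      rw [tB, ← e1, ← e2, bs, Fs]
      linear_combination -r⁻¹ * r16 + P.th * hr1
  have hC : PC P.q1 P.f0 P'.f0 P.e1 P.z P'.z P.be1 P.eta P'.eta phi r phi⁻¹ P.de1 P'.de1 P.f1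
      P'.f1 1 = P' := by
    refine par_ext hal0'.symm hal1'.symm hal2'.symm hg0'.symm hg1'.symm hpi'.symm hbe0'.symm ?_
      ?_ ?_ ?_ he0'.symm ?_ hph'.symm ?_ (one_mul _) ?_ (one_mul _) (one_mul _) (one_mul _)
      ?_ (one_mul _) hze'.symm
    · show 1 * x1 P.f0 P'.f0 P.e1 P.z P'.eta phi 1 = P'.be1
      rw [← e1, one_mul, s2]
    · show 1 * P.de1 = P'.be2
      rw [one_mul, s3]
    · show 1 * P.f0 = P'.q1
      rw [one_mul, s4]
    · show 1 * P.f1 = P'.q2
      rw [one_mul, s5]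
    · show 1 * P.z = P'.e1
      rw [one_mul, s7]
    · show 1 * D1 P.q1 P.f0 P'.f0 P.z P'.z P.eta r 1 = P'.de0
      rw [← e2, one_mul]
    · show Fs P'.f0 1 = P'.f0
      simp [Fs]
    · show tC P.q1 P.f0 P'.f0 P.e1 P.z P'.z P.be1 P.eta P'.eta phi r phi⁻¹ 1 = P'.th
      rw [tC, ← e1, ← e2, bs]
      linear_combination phi⁻¹ * r10 + P'.th * hp
  have h2 : c 1 = ![J k, X P, X P'] := by
    rw [hc]
    simp only [hB, hC]
  rwa [h2] at key

end Pool.Agent.Lib.D13.T4321
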