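import Pool.Agent.Lib.D13.F4a

/-!
# MP_5dcbc3_ag: type `(4, 3, 2, 1)`: no maximal triple in the family F4
-/

set_option autoImplicit false
set_option linter.unusedSimpArgs false
set_option linter.unusedSectionVars false

namespace Pool.Agent.Lib.D13.T4321

open Matrix Pool.Agent.Lib.Q5dc Pool.Agent.Lib.D7

variable {k : Type*} [Field k] {ρ : ℕ → ℕ} {P P' : Par k}

/-- moves inside of F4: `be1, e1, th` of `P`, `g0, zeta` of `P'` -/
def dP (k : Type*) [Field k] (b e t : k) : Par k :=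
  { zero k with be1 := b, e1 := e, th := t }

def dP' (P P' : Par k) (b g z : k) : Par k :=
  { zero k with g0 := g, zeta := z, be2 := P'.al1 * b + g * P.de1, q2 := g * P.f1, e1 := g * P.z }

theorem F4.move [Infinite k] (hT : MaxR ρ ![J k, X P, X P']) (h : F4 P P') (b e t g z : k)
    {F : Set k} (hF : F.Finite) :
    ∃ s, s ∉ F ∧ MaxR ρ ![J k, X (line P (dP k b e t) s), X (line P' (dP' P P' b g z) s)] ∧
      F4 (line P (dP k b e t) s) (line P' (dP' P P' b g z) s) := by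
  have key : ∀ s, F4 (line P (dP k b e t) s) (line P' (dP' P P' b g z) s) := by
    intro s
    obtain ⟨al, al', be, be', e, e', f, f', de, de', pi, pi', ph, ph', rho, rho', b1', q1', b2',
      q2', e1'⟩ := h
    constructor <;> simp [line, dP, dP', zero, al, al', be, be', e, e', f, f', de, de', pi, pi',
      ph, ph', rho, rho', b1', q1']
    · rw [b2']; ring
    · rw [q2']; ring
    · rw [e1']; ring
  obtain ⟨s, hs, h1⟩ := MaxR.move hT (dP k b e t) (dP' P P' b g z) (fun s => (key s).rel) hF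
  exact ⟨s, hs, h1, key s⟩

theorem h52_finite_lin {a b : k} (h : a ≠ 0 ∨ b ≠ 0) : {s : k | a + b * s = 0}.Finite := by
  refine (D8.finite_quad (a := a) (b := b) (c := 0) ?_).subset fun s hs => ?_
  · rcases h with h | h
    · exact Or.inl h
    · exact Or.inr (Or.inl h)
  · simpa using hs

/-- no maximal triple in F4 -/
theorem F4.false [IsAlgClosed k] [CharZero k] (hT : MaxR ρ ![J k, X P, X P']) (h4 : ρ 4 = 0)
    (h : F4 P P') : False := by
  haveI : Infinite k := IsAlgClosed.instInfinite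
  -- `zeta' ≠ 0`
  obtain ⟨P1, P1', hT1, h1, hz1⟩ : ∃ P1 P1' : Par k, MaxR ρ ![J k, X P1, X P1'] ∧ F4 P1 P1' ∧
      P1'.zeta ≠ 0 := by
    obtain ⟨s, hs, a, b⟩ := F4.move hT h 0 0 0 0 1 (h52_finite_lin (a := P'.zeta) (b := 1)
      (Or.inr one_ne_zero))
    exact ⟨_, _, a, b, fun h0 => hs (by simpa [line, dP', zero] using h0)⟩
  -- `g0' ≠ 0`
  obtain ⟨P2, P2', hT2, h2, hz2, hg2⟩ : ∃ P1 P1' : Par k, MaxR ρ ![J k, X P1, X P1'] ∧
      F4 P1 P1' ∧ P1'.zeta ≠ 0 ∧ P1'.g0 ≠ 0 := by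
    obtain ⟨s, hs, a, b⟩ := F4.move hT1 h1 0 0 0 1 0 (h52_finite_lin (a := P1'.g0) (b := 1)
      (Or.inr one_ne_zero))
    exact ⟨_, _, a, b, by simpa [line, dP', zero] using hz1,
      fun h0 => hs (by simpa [line, dP', zero] using h0)⟩
  clear hT1 h1 hz1 hT h
  -- `chi ≠ 0`
  obtain ⟨P3, P3', hT3, h3, hz3, hg3, hchi3⟩ : ∃ P P' : Par k, MaxR ρ ![J k, X P, X P'] ∧
      F4 P P' ∧ P'.zeta ≠ 0 ∧ P'.g0 ≠ 0 ∧
      (P.zeta * P'.z - P'.zeta * P.z) ^ 2 + P'.zeta * P.q1 * (P.zeta * P'.z - P'.zeta * P.z) -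
        P'.zeta ^ 2 * P.be1 ≠ 0 := by
    obtain ⟨s, hs, a, b⟩ := F4.move hT2 h2 1 0 0 0 0 (h52_finite_lin
      (a := (P2.zeta * P2'.z - P2'.zeta * P2.z) ^ 2 +
        P2'.zeta * P2.q1 * (P2.zeta * P2'.z - P2'.zeta * P2.z) - P2'.zeta ^ 2 * P2.be1)
      (b := -P2'.zeta ^ 2) (Or.inr (neg_ne_zero.2 (pow_ne_zero 2 hz2))))
    refine ⟨_, _, a, b, by simpa [line, dP', zero] using hz2,
      by simpa [line, dP', zero] using hg2, fun h0 => hs ?_⟩
    simp [line, dP, dP', zero] at h0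
    show _ = _
    linear_combination h0
  clear hT2 h2 hz2 hg2
  -- discriminant
  obtain ⟨P, P', hT, h, hz, hg, hchi, hdis⟩ : ∃ P P' : Par k, MaxR ρ ![J k, X P, X P'] ∧
      F4 P P' ∧ P'.zeta ≠ 0 ∧ P'.g0 ≠ 0 ∧
      (P.zeta * P'.z - P'.zeta * P.z) ^ 2 + P'.zeta * P.q1 * (P.zeta * P'.z - P'.zeta * P.z) -
        P'.zeta ^ 2 * P.be1 ≠ 0 ∧
      P'.g0 * ((P.zeta * P'.z - P'.zeta * P.z) ^ 2 +
        P'.zeta * P.q1 * (P.zeta * P'.z - P'.zeta * P.z) - P'.zeta ^ 2 * P.be1) -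
      P'.z * (-((P'.zeta * P.q1 + (P.zeta * P'.z - P'.zeta * P.z)) *
        (P'.zeta * P.g0 - P.zeta * P'.g0)) +
        P'.zeta * (P'.zeta * P.e1 - P.zeta * P'.e1)) ≠ 0 := by
    obtain ⟨s, hs, a, b⟩ := F4.move hT3 h3 0 1 0 0 0 (h52_finite_lin
      (a := P3'.g0 * ((P3.zeta * P3'.z - P3'.zeta * P3.z) ^ 2 +
        P3'.zeta * P3.q1 * (P3.zeta * P3'.z - P3'.zeta * P3.z) - P3'.zeta ^ 2 * P3.be1) -
      P3'.z * (-((P3'.zeta * P3.q1 + (P3.zeta * P3'.z - P3'.zeta * P3.z)) *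
        (P3'.zeta * P3.g0 - P3.zeta * P3'.g0)) +
        P3'.zeta * (P3'.zeta * P3.e1 - P3.zeta * P3'.e1)))
      (b := -(P3'.z * P3'.zeta ^ 2)) (by
        by_cases hz' : P3'.z = 0
        · left
          rw [hz']
          rw [hz'] at hchi3
          simpa using ⟨hg3, by simpa using hchi3⟩
        · right
          exact neg_ne_zero.2 (mul_ne_zero hz' (pow_ne_zero 2 hz3))))
    refine ⟨_, _, a, b, by simpa [line, dP', zero] using hz3,
      by simpa [line, dP', zero] using hg3, ?_, fun h0 => hs ?_⟩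
    · simpa [line, dP, dP', zero] using hchi3
    · simp [line, dP, dP', zero] at h0
      show _ = _
      linear_combination h0
  clear hT3 h3 hz3 hg3 hchi3
  set c : k := P.zeta * P'.z - P'.zeta * P.z with hc
  set chi : k := c ^ 2 + P'.zeta * P.q1 * c - P'.zeta ^ 2 * P.be1 with hchi'
  set L : k := -((P'.zeta * P.q1 + c) * (P'.zeta * P.g0 - P.zeta * P'.g0)) +
        P'.zeta * (P'.zeta * P.e1 - P.zeta * P'.e1) with hL
  set l2 : k := L / chi with hl2
  have el2 : chi * l2 = L := by rw [hl2]; field_simp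
  set l3 : k := -(c * l2 + (P'.zeta * P.g0 - P.zeta * P'.g0)) / P'.zeta with hl3
  have el3 : P'.zeta * l3 = -(c * l2 + (P'.zeta * P.g0 - P.zeta * P'.g0)) := by
    rw [hl3]; field_simp
  have E1 : P'.zeta * l3 + c * l2 + (P'.zeta * P.g0 - P.zeta * P'.g0) = 0 := by
    rw [el3]; ring
  have E2 : P'.zeta * P.be1 * l2 + (P'.zeta * P.q1 + c) * l3 +
      (P'.zeta * P.e1 - P.zeta * P'.e1) = 0 := by
    have : P'.zeta * (P'.zeta * P.be1 * l2 + (P'.zeta * P.q1 + c) * l3 +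
      (P'.zeta * P.e1 - P.zeta * P'.e1)) = 0 := by
      linear_combination (P'.zeta * P.q1 + c) * el3 - el2 + l2 * hchi' - hL
    exact (mul_eq_zero.1 this).resolve_left hz
  -- the root `t`
  obtain ⟨t, ht⟩ : ∃ t : k, P'.g0 * (P'.z * t ^ 2 + 2 * t) + l2 = 0 := by
    by_cases hz' : P'.z = 0
    · refine ⟨-l2 / (2 * P'.g0), ?_⟩
      rw [hz']
      field_simp
      ring
    · obtain ⟨w, hw⟩ := IsAlgClosed.exists_pow_nat_eq (1 - P'.z * l2 / P'.g0) (n := 2) (by norm_num)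
      refine ⟨(w - 1) / P'.z, ?_⟩
      field_simp
      field_simp at hw
      linear_combination hw
  have htz : 1 + t * P'.z ≠ 0 := by
    intro h0
    apply hdis
    have h1 : P'.g0 = P'.z * l2 := by
      linear_combination (P'.g0 * (1 + t * P'.z)) * h0 - P'.z * ht
    linear_combination chi * h1 + P'.z * el2
  -- `Z r ≠ 0`
  obtain ⟨s, hs, hTs, hFs⟩ := F4.move hT h 0 0 1 0 0 (h52_finite_lin
    (a := chi * (t * P'.zeta * t * P'.f1 - (1 + t * P'.z) * t * P'.eta) +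
      P'.zeta * (t * P'.zeta * (P'.zeta * P.de1 - P.zeta * P'.de1) -
        (1 + t * P'.z) * (P'.zeta * P.th - P.zeta * P'.th)) -
      c * (t * P'.zeta * (P'.zeta * P.f1 - P.zeta * P'.f1) -
        (1 + t * P'.z) * (P'.zeta * P.eta - P.zeta * P'.eta)))
    (b := -(P'.zeta ^ 2 * (1 + t * P'.z))) (Or.inr (neg_ne_zero.2
      (mul_ne_zero (pow_ne_zero 2 hz) htz))))
  set A3 : k := t * P'.zeta * (P'.zeta * P.de1 - P.zeta * P'.de1) -
      (1 + t * P'.z) * (P'.zeta * (P.th + s) - P.zeta * P'.th) with hA3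
  set A2 : k := t * P'.zeta * (P'.zeta * P.f1 - P.zeta * P'.f1) -
      (1 + t * P'.z) * (P'.zeta * P.eta - P.zeta * P'.eta) with hA2
  refine F4.raise hTs h4 hFs (c := c) (chi := chi) (l2 := l2) (l3 := l3) (t := t)
    (r2 := (-(P'.zeta * P.q1 + c) * A3 + P'.zeta * P.be1 * A2) / chi)
    (r3 := (P'.zeta * A3 - c * A2) / chi) ?_ ?_ ?_ ?_ ?_ ?_ ?_ ?_ ?_ ?_
  · simpa [line, dP', zero] using hz
  · simp [line, dP, dP', zero, hc]
  · simpa [line, dP, dP', zero] using E1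
  · simpa [line, dP, dP', zero] using E2
  · simpa [line, dP, dP', zero] using ht
  · simpa [line, dP', zero] using hg
  · simpa [line, dP', zero] using htz
  · simp [line, dP, dP', zero]
    rw [← hA3]
    field_simp
    rw [hchi']
    ring
  · simp [line, dP, dP', zero]
    rw [← hA2]
    field_simp
    rw [hchi']
    ring
  · simp [line, dP, dP', zero]
    intro h0
    apply hs
    show _ = _
    have h1 : chi * (t * P'.zeta * t * P'.f1 - (1 + t * P'.z) * t * P'.eta) +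
        (P'.zeta * A3 - c * A2) = 0 := by
      have := congrArg (fun x => chi * x) h0
      simp only [mul_zero] at this
      rw [← this]
      field_simp
    rw [hA3, hA2] at h1
    linear_combination h1

theorem h52_X_zero : X (zero k) = 0 := by
  refine ext_mulVec fun m => ?_
  rw [X_mulVec, Matrix.zero_mulVec]
  funext i
  fin_cases i <;> simp [act, zero]

/-- the linear combination `a P + b P'` -/
def h52_comb (P P' : Par k) (a b : k) : Par k := line (line (zero k) P a) P' b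

theorem h52_X_comb (P P' : Par k) (a b : k) : X (h52_comb P P' a b) = a • X P + b • X P' := by
  rw [h52_comb, ← X_line, ← X_line, h52_X_zero, zero_add]

theorem F4.of_rel (h : Rel P P') (al : P.al0 = 1) (al' : P'.al0 = 0) (be : P.be0 = 0)
    (be' : P'.be0 = 0) (e : P.e0 = 0) (e' : P'.e0 = 0) (f : P.f0 = 0) (f' : P'.f0 = 0)
    (de : P.de0 = 0) (de' : P'.de0 = 0) (pi : P.pi = 0) (pi' : P'.pi = 0) (ph : P.ph = 0)
    (ph' : P'.ph = 0) (rho : P.rho = 0) (rho' : P'.rho = 0) : F4 P P' := by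
  obtain ⟨r1, r2, r3, r4, r5, r6, r7, r8, r9, r10, r11, r12, r13, r14, r15, r16, r17, r18, r19,
    r20⟩ := h
  simp only [Br, al, al', be, be', e, e', f, f', de, de', pi, pi', ph, ph', rho, rho'] at r2 r3 r4 r5 r7
  have b1' : P'.be1 = 0 := by linear_combination -r2
  have q1' : P'.q1 = 0 := by linear_combination -r4
  refine ⟨al, al', be, be', e, e', f, f', de, de', pi, pi', ph, ph', rho, rho', b1', q1', ?_, ?_,
    ?_⟩
  · linear_combination -r3 - P.al1 * b1'
  · linear_combination -r5 - P.al1 * q1'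
  · linear_combination -r7

/-- **the family F4 of case B is impossible** (the hypothesis `HF4` of `caseB`) -/
theorem no_F4 [IsAlgClosed k] [CharZero k] (hT : MaxR ρ ![J k, X P, X P']) (h4 : ρ 4 = 0)
    (hp : CB P P') (ha : P.al0 ≠ 0 ∨ P'.al0 ≠ 0) (e : P.e0 = 0) (e' : P'.e0 = 0)
    (be : P.be0 = 0) (be' : P'.be0 = 0) (f : P.f0 = 0) (f' : P'.f0 = 0) (de : P.de0 = 0)
    (de' : P'.de0 = 0) : False := by
  obtain ⟨pi, ph, rho, pi', ph', rho'⟩ := hp
  have main : ∀ a b c d : k, a * d - b * c ≠ 0 → a * P.al0 + b * P'.al0 = 1 →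
      c * P.al0 + d * P'.al0 = 0 → False := by
    intro a b c d h0 h1 h2
    have hT' : MaxR ρ ![J k, X (h52_comb P P' a b), X (h52_comb P P' c d)] := by
      have := D8.MaxR.lin hT a b c d 0 0 0 0 h0
      rw [h52_X_comb, h52_X_comb]
      simpa using this
    refine F4.false hT' h4 (F4.of_rel (MaxR.rel hT') ?_ ?_ ?_ ?_ ?_ ?_ ?_ ?_ ?_ ?_ ?_ ?_ ?_ ?_ ?_
      ?_) <;> simp [h52_comb, line, zero, be, be', e, e', f, f', de, de', pi, pi', ph, ph', rho, rho',
        h1, h2]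
  rcases ha with h | h
  · refine main (P.al0)⁻¹ 0 (-(P'.al0 / P.al0)) 1 (by simpa using h) ?_ ?_
    · rw [zero_mul, add_zero, inv_mul_cancel₀ h]
    · field_simp
      ring
  · refine main 0 (P'.al0)⁻¹ 1 (-(P.al0 / P'.al0)) (by simpa using h) ?_ ?_
    · rw [zero_mul, zero_add, inv_mul_cancel₀ h]
    · field_simp
      ring

end Pool.Agent.Lib.D13.T4321
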