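import Pool.Agent.Lib.D9.BlkShape

/-!
# MP_5dcbc3_ag: matrices commuting with a Jordan matrix of type `(4^q, 2^r, 1^p)`

Basis: `E_0, E_1, E_2, E_3` (four copies of `k^q`), `U_0, U_1` (two copies of `k^r`), `P = k^p`.
The Jordan matrix `JX` maps `E_0 -> E_1 -> E_2 -> E_3 -> 0`, `U_0 -> U_1 -> 0`, `P -> 0`.
`BX c`: `E_0`: `x -> N x (E_1) + M x (E_2) + L x (E_3) + a x (U_0) + a1 x (U_1) + w x (P)`,
`U_0`: `x -> b x (E_2) + b1 x (E_3) + nu x (U_1) + pi x (P)`, `P`: `x -> th x (E_3) + et x (U_1)`.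
-/

namespace Pool.Agent.Lib.D13.F42

open Matrix Pool.Agent.Lib.Q5dc Pool.Agent.Lib.D7

/-- indices: `((E_0, E_1, E_2, E_3), (U_0, U_1), P)` -/
abbrev Ix (q r p : ℕ) : Type :=
  (Fin q ⊕ Fin q ⊕ Fin q ⊕ Fin q) ⊕ ((Fin r ⊕ Fin r) ⊕ Fin p)

/-- parameters -/
@[ext] structure Par (k : Type*) (q r p : ℕ) where
  N : Matrix (Fin q) (Fin q) k
  M : Matrix (Fin q) (Fin q) k
  L : Matrix (Fin q) (Fin q) k
  a : Matrix (Fin r) (Fin q) k
  a1 : Matrix (Fin r) (Fin q) k
  w : Matrix (Fin p) (Fin q) k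
  b : Matrix (Fin q) (Fin r) k
  b1 : Matrix (Fin q) (Fin r) k
  nu : Matrix (Fin r) (Fin r) k
  pi : Matrix (Fin p) (Fin r) k
  th : Matrix (Fin q) (Fin p) k
  et : Matrix (Fin r) (Fin p) k

variable {k : Type*} [Field k] {q r p : ℕ}

namespace Par

instance : Zero (Par k q r p) := ⟨⟨0, 0, 0, 0, 0, 0, 0, 0, 0, 0, 0, 0⟩⟩

instance : Add (Par k q r p) := ⟨fun c c' => ⟨c.N + c'.N, c.M + c'.M, c.L + c'.L, c.a + c'.a,
  c.a1 + c'.a1, c.w + c'.w, c.b + c'.b, c.b1 + c'.b1, c.nu + c'.nu, c.pi + c'.pi, c.th + c'.th,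
  c.et + c'.et⟩⟩

instance : SMul k (Par k q r p) := ⟨fun s c => ⟨s • c.N, s • c.M, s • c.L, s • c.a,
  s • c.a1, s • c.w, s • c.b, s • c.b1, s • c.nu, s • c.pi, s • c.th, s • c.et⟩⟩

instance : Mul (Par k q r p) := ⟨fun c c' => ⟨0, c.N * c'.N + c.b * c'.a,
  c.N * c'.M + c.M * c'.N + c.b * c'.a1 + c.b1 * c'.a + c.th * c'.w, 0,
  c.a * c'.N + c.nu * c'.a + c.et * c'.w, c.pi * c'.a, 0, c.N * c'.b + c.b * c'.nu + c.th * c'.pi,
  c.et * c'.pi, 0, c.b * c'.et, 0⟩⟩

/-- the parameters of the Jordan matrix -/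
def J (k : Type*) [Field k] (q r p : ℕ) : Par k q r p := ⟨1, 0, 0, 0, 0, 0, 0, 0, 1, 0, 0, 0⟩

/-- the dual parameters -/
def dual (c : Par k q r p) : Par k q r p := ⟨c.Nᵀ, c.Mᵀ, c.Lᵀ, c.bᵀ, c.b1ᵀ, c.thᵀ, c.aᵀ, c.a1ᵀ,
  c.nuᵀ, c.etᵀ, c.wᵀ, c.piᵀ⟩

/-- conjugated parameters -/
def conj (g g' : Matrix (Fin q) (Fin q) k) (h h' : Matrix (Fin r) (Fin r) k)
    (l l' : Matrix (Fin p) (Fin p) k) (c : Par k q r p) : Par k q r p :=
  ⟨g * c.N * g', g * c.M * g', g * c.L * g', h * c.a * g', h * c.a1 * g', l * c.w * g',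
    g * c.b * h', g * c.b1 * h', h * c.nu * h', l * c.pi * h', g * c.th * l', h * c.et * l'⟩

section

variable (c c' : Par k q r p) (s : k)

@[simp] theorem zero_N : (0 : Par k q r p).N = 0 := rfl
@[simp] theorem zero_M : (0 : Par k q r p).M = 0 := rfl
@[simp] theorem zero_L : (0 : Par k q r p).L = 0 := rfl
@[simp] theorem zero_a : (0 : Par k q r p).a = 0 := rfl
@[simp] theorem zero_a1 : (0 : Par k q r p).a1 = 0 := rfl
@[simp] theorem zero_w : (0 : Par k q r p).w = 0 := rfl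
@[simp] theorem zero_b : (0 : Par k q r p).b = 0 := rfl
@[simp] theorem zero_b1 : (0 : Par k q r p).b1 = 0 := rfl
@[simp] theorem zero_nu : (0 : Par k q r p).nu = 0 := rfl
@[simp] theorem zero_pi : (0 : Par k q r p).pi = 0 := rfl
@[simp] theorem zero_th : (0 : Par k q r p).th = 0 := rfl
@[simp] theorem zero_et : (0 : Par k q r p).et = 0 := rfl

@[simp] theorem add_N : (c + c').N = c.N + c'.N := rfl
@[simp] theorem add_M : (c + c').M = c.M + c'.M := rfl
@[simp] theorem add_L : (c + c').L = c.L + c'.L := rfl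
@[simp] theorem add_a : (c + c').a = c.a + c'.a := rfl
@[simp] theorem add_a1 : (c + c').a1 = c.a1 + c'.a1 := rfl
@[simp] theorem add_w : (c + c').w = c.w + c'.w := rfl
@[simp] theorem add_b : (c + c').b = c.b + c'.b := rfl
@[simp] theorem add_b1 : (c + c').b1 = c.b1 + c'.b1 := rfl
@[simp] theorem add_nu : (c + c').nu = c.nu + c'.nu := rfl
@[simp] theorem add_pi : (c + c').pi = c.pi + c'.pi := rfl
@[simp] theorem add_th : (c + c').th = c.th + c'.th := rfl
@[simp] theorem add_et : (c + c').et = c.et + c'.et := rfl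

@[simp] theorem smul_N : (s • c).N = s • c.N := rfl
@[simp] theorem smul_M : (s • c).M = s • c.M := rfl
@[simp] theorem smul_L : (s • c).L = s • c.L := rfl
@[simp] theorem smul_a : (s • c).a = s • c.a := rfl
@[simp] theorem smul_a1 : (s • c).a1 = s • c.a1 := rfl
@[simp] theorem smul_w : (s • c).w = s • c.w := rfl
@[simp] theorem smul_b : (s • c).b = s • c.b := rfl
@[simp] theorem smul_b1 : (s • c).b1 = s • c.b1 := rfl
@[simp] theorem smul_nu : (s • c).nu = s • c.nu := rfl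
@[simp] theorem smul_pi : (s • c).pi = s • c.pi := rfl
@[simp] theorem smul_th : (s • c).th = s • c.th := rfl
@[simp] theorem smul_et : (s • c).et = s • c.et := rfl

@[simp] theorem mul_N : (c * c').N = 0 := rfl
@[simp] theorem mul_M : (c * c').M = c.N * c'.N + c.b * c'.a := rfl
@[simp] theorem mul_L : (c * c').L =
  c.N * c'.M + c.M * c'.N + c.b * c'.a1 + c.b1 * c'.a + c.th * c'.w := rfl
@[simp] theorem mul_a : (c * c').a = 0 := rfl
@[simp] theorem mul_a1 : (c * c').a1 = c.a * c'.N + c.nu * c'.a + c.et * c'.w := rfl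
@[simp] theorem mul_w : (c * c').w = c.pi * c'.a := rfl
@[simp] theorem mul_b : (c * c').b = 0 := rfl
@[simp] theorem mul_b1 : (c * c').b1 = c.N * c'.b + c.b * c'.nu + c.th * c'.pi := rfl
@[simp] theorem mul_nu : (c * c').nu = c.et * c'.pi := rfl
@[simp] theorem mul_pi : (c * c').pi = 0 := rfl
@[simp] theorem mul_th : (c * c').th = c.b * c'.et := rfl
@[simp] theorem mul_et : (c * c').et = 0 := rfl

@[simp] theorem J_N : (J k q r p).N = 1 := rfl
@[simp] theorem J_M : (J k q r p).M = 0 := rfl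
@[simp] theorem J_L : (J k q r p).L = 0 := rfl
@[simp] theorem J_a : (J k q r p).a = 0 := rfl
@[simp] theorem J_a1 : (J k q r p).a1 = 0 := rfl
@[simp] theorem J_w : (J k q r p).w = 0 := rfl
@[simp] theorem J_b : (J k q r p).b = 0 := rfl
@[simp] theorem J_b1 : (J k q r p).b1 = 0 := rfl
@[simp] theorem J_nu : (J k q r p).nu = 1 := rfl
@[simp] theorem J_pi : (J k q r p).pi = 0 := rfl
@[simp] theorem J_th : (J k q r p).th = 0 := rfl
@[simp] theorem J_et : (J k q r p).et = 0 := rfl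

end

end Par

/-- the matrix with the parameters `c` -/
def BX (c : Par k q r p) : Matrix (Ix q r p) (Ix q r p) k :=
  Matrix.of fun i j => match i, j with
    | .inl (.inr (.inl i)), .inl (.inl j) => c.N i j
    | .inl (.inr (.inr (.inl i))), .inl (.inl j) => c.M i j
    | .inl (.inr (.inr (.inr i))), .inl (.inl j) => c.L i j
    | .inl (.inr (.inr (.inl i))), .inl (.inr (.inl j)) => c.N i j
    | .inl (.inr (.inr (.inr i))), .inl (.inr (.inl j)) => c.M i j
    | .inl (.inr (.inr (.inr i))), .inl (.inr (.inr (.inl j))) => c.N i j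
    | .inr (.inl (.inl i)), .inl (.inl j) => c.a i j
    | .inr (.inl (.inr i)), .inl (.inl j) => c.a1 i j
    | .inr (.inl (.inr i)), .inl (.inr (.inl j)) => c.a i j
    | .inr (.inr i), .inl (.inl j) => c.w i j
    | .inl (.inr (.inr (.inl i))), .inr (.inl (.inl j)) => c.b i j
    | .inl (.inr (.inr (.inr i))), .inr (.inl (.inl j)) => c.b1 i j
    | .inl (.inr (.inr (.inr i))), .inr (.inl (.inr j)) => c.b i j
    | .inr (.inl (.inr i)), .inr (.inl (.inl j)) => c.nu i j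
    | .inr (.inr i), .inr (.inl (.inl j)) => c.pi i j
    | .inl (.inr (.inr (.inr i))), .inr (.inr j) => c.th i j
    | .inr (.inl (.inr i)), .inr (.inr j) => c.et i j
    | _, _ => 0

/-- the Jordan matrix -/
def JX (k : Type*) [Field k] (q r p : ℕ) : Matrix (Ix q r p) (Ix q r p) k := BX (Par.J k q r p)

section

variable (c c' : Par k q r p) (s : k)

theorem BX_mul : BX c * BX c' = BX (c * c') := by
  ext i j
  rcases i with (i | i | i | i) | ((i | i) | i) <;> rcases j with (j | j | j | j) | ((j | j) | j) <;>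
    simp [BX, Matrix.mul_apply, Fintype.sum_sum_type, add_assoc] <;> abel

theorem BX_add : BX c + BX c' = BX (c + c') := by
  ext i j
  rcases i with (i | i | i | i) | ((i | i) | i) <;> rcases j with (j | j | j | j) | ((j | j) | j) <;>
    simp [BX]

theorem BX_smul : s • BX c = BX (s • c) := by
  ext i j
  rcases i with (i | i | i | i) | ((i | i) | i) <;> rcases j with (j | j | j | j) | ((j | j) | j) <;>
    simp [BX]

theorem BX_zero : (BX 0 : Matrix (Ix q r p) (Ix q r p) k) = 0 := by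
  ext i j
  rcases i with (i | i | i | i) | ((i | i) | i) <;> rcases j with (j | j | j | j) | ((j | j) | j) <;>
    simp [BX]

end

theorem BX_inj {c c' : Par k q r p} : BX c = BX c' ↔ c = c' := by
  constructor
  · intro h
    have H := fun i j => congrFun (congrFun h i) j
    apply Par.ext
    · ext i j
      exact H (.inl (.inr (.inl i))) (.inl (.inl j))
    · ext i j
      exact H (.inl (.inr (.inr (.inl i)))) (.inl (.inl j))
    · ext i j
      exact H (.inl (.inr (.inr (.inr i)))) (.inl (.inl j))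
    · ext i j
      exact H (.inr (.inl (.inl i))) (.inl (.inl j))
    · ext i j
      exact H (.inr (.inl (.inr i))) (.inl (.inl j))
    · ext i j
      exact H (.inr (.inr i)) (.inl (.inl j))
    · ext i j
      exact H (.inl (.inr (.inr (.inl i)))) (.inr (.inl (.inl j)))
    · ext i j
      exact H (.inl (.inr (.inr (.inr i)))) (.inr (.inl (.inl j)))
    · ext i j
      exact H (.inr (.inl (.inr i))) (.inr (.inl (.inl j)))
    · ext i j
      exact H (.inr (.inr i)) (.inr (.inl (.inl j)))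
    · ext i j
      exact H (.inl (.inr (.inr (.inr i)))) (.inr (.inr j))
    · ext i j
      exact H (.inr (.inl (.inr i))) (.inr (.inr j))
  · rintro rfl
    rfl

theorem J_mul (c : Par k q r p) : Par.J k q r p * c = ⟨0, c.N, c.M, 0, c.a, 0, 0, c.b, 0, 0, 0, 0⟩ := by
  ext : 1 <;> simp

theorem mul_J (c : Par k q r p) : c * Par.J k q r p = ⟨0, c.N, c.M, 0, c.a, 0, 0, c.b, 0, 0, 0, 0⟩ := by
  ext : 1 <;> simp

theorem JX_comm (c : Par k q r p) : JX k q r p * BX c = BX c * JX k q r p := by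
  rw [JX, BX_mul, BX_mul, J_mul, mul_J]

theorem JX_sq : JX k q r p * JX k q r p = BX ⟨0, 1, 0, 0, 0, 0, 0, 0, 0, 0, 0, 0⟩ := by
  rw [JX, BX_mul, J_mul]
  rfl

theorem JX_cube : JX k q r p ^ 3 = BX ⟨0, 0, 1, 0, 0, 0, 0, 0, 0, 0, 0, 0⟩ := by
  rw [pow_succ, pow_two, JX_sq, JX, BX_mul, mul_J]

theorem JX_four : JX k q r p ^ 4 = 0 := by
  rw [pow_succ, JX_cube, JX, BX_mul, mul_J]
  exact BX_zero

theorem JX_nil : IsNilpotent (JX k q r p) := ⟨4, JX_four⟩

/-- `BX c` commutes with `BX c'` iff eight relations hold -/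
theorem BX_comm {c c' : Par k q r p} : BX c * BX c' = BX c' * BX c ↔
    c.N * c'.N + c.b * c'.a = c'.N * c.N + c'.b * c.a ∧
    c.N * c'.M + c.M * c'.N + c.b * c'.a1 + c.b1 * c'.a + c.th * c'.w =
      c'.N * c.M + c'.M * c.N + c'.b * c.a1 + c'.b1 * c.a + c'.th * c.w ∧
    c.a * c'.N + c.nu * c'.a + c.et * c'.w = c'.a * c.N + c'.nu * c.a + c'.et * c.w ∧
    c.pi * c'.a = c'.pi * c.a ∧
    c.N * c'.b + c.b * c'.nu + c.th * c'.pi = c'.N * c.b + c'.b * c.nu + c'.th * c.pi ∧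
    c.et * c'.pi = c'.et * c.pi ∧
    c.b * c'.et = c'.b * c.et := by
  rw [BX_mul, BX_mul, BX_inj, Par.ext_iff]
  simp

theorem BX_nil (c : Par k q r p) : IsNilpotent (BX c) := by
  refine isNilpotent_of_weight _ (fun i => match i with
    | .inl (.inl _) => 0
    | .inl (.inr (.inl _)) => 2
    | .inl (.inr (.inr (.inl _))) => 4
    | .inl (.inr (.inr (.inr _))) => 6
    | .inr (.inl (.inl _)) => 1
    | .inr (.inl (.inr _)) => 3
    | .inr (.inr _) => 2) ?_
  intro i j h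
  rcases i with (i | i | i | i) | ((i | i) | i) <;> rcases j with (j | j | j | j) | ((j | j) | j) <;>
    simp [BX] at h ⊢

end Pool.Agent.Lib.D13.F42
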