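import Pool.Agent.Lib.D13.F42S

/-!
# MP_5dcbc3_ag: duality and `pi eta = 0` for the type `(4^q, 2^r, 1^p)`
-/

namespace Pool.Agent.Lib.D13.F42

open Matrix Pool.Agent.Lib.Q5dc Pool.Agent.Lib.D7

variable {k : Type*} [Field k] {q r p : ℕ} {ρ : ℕ → ℕ}

/-- vectors -/
def V (e0 e1 e2 e3 : Fin q → k) (u0 u1 : Fin r → k) (π : Fin p → k) : Ix q r p → k :=
  Sum.elim (Sum.elim e0 (Sum.elim e1 (Sum.elim e2 e3))) (Sum.elim (Sum.elim u0 u1) π)

theorem BX_V (c : Par k q r p) (e0 e1 e2 e3 : Fin q → k) (u0 u1 : Fin r → k) (π : Fin p → k) :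
    BX c *ᵥ V e0 e1 e2 e3 u0 u1 π = V 0 (c.N *ᵥ e0) (c.M *ᵥ e0 + c.N *ᵥ e1 + c.b *ᵥ u0)
      (c.L *ᵥ e0 + c.M *ᵥ e1 + c.N *ᵥ e2 + c.b1 *ᵥ u0 + c.b *ᵥ u1 + c.th *ᵥ π)
      (c.a *ᵥ e0) (c.a1 *ᵥ e0 + c.a *ᵥ e1 + c.nu *ᵥ u0 + c.et *ᵥ π)
      (c.w *ᵥ e0 + c.pi *ᵥ u0) := by
  funext i
  rcases i with (i | i | i | i) | ((i | i) | i) <;>
    simp [BX, V, mulVec, dotProduct, Fintype.sum_sum_type, add_assoc]

theorem JX_V (e0 e1 e2 e3 : Fin q → k) (u0 u1 : Fin r → k) (π : Fin p → k) :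
    JX k q r p *ᵥ V e0 e1 e2 e3 u0 u1 π = V 0 e0 e1 e2 0 u0 0 := by
  rw [JX, BX_V]
  simp

theorem V_P {e0 e1 e2 e3 e0' e1' e2' e3' : Fin q → k} {u0 u1 u0' u1' : Fin r → k}
    {π π' : Fin p → k} (h : V e0 e1 e2 e3 u0 u1 π = V e0' e1' e2' e3' u0' u1' π') : π = π' :=
  funext fun i => congrFun h (.inr (.inr i))

theorem V_eta (v : Ix q r p → k) : v = V (fun i => v (.inl (.inl i)))
    (fun i => v (.inl (.inr (.inl i)))) (fun i => v (.inl (.inr (.inr (.inl i)))))
    (fun i => v (.inl (.inr (.inr (.inr i))))) (fun i => v (.inr (.inl (.inl i))))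
    (fun i => v (.inr (.inl (.inr i)))) (fun i => v (.inr (.inr i))) := by
  funext i
  rcases i with (i | i | i | i) | ((i | i) | i) <;> rfl

/-- `pi eta = 0` for the elements of `adj T` -/
theorem pe0 [Infinite k] {T : Fin 3 → Matrix (Ix q r p) (Ix q r p) k} (hT : MaxR ρ T)
    (hr : (JX k q r p).rank = ρ 1) (hA : JX k q r p ∈ adj T) {c : Par k q r p}
    (hX : BX c ∈ adj T) : c.pi * c.et = 0 := by
  have h : ∀ π : Fin p → k, (c.pi * c.et) *ᵥ π = 0 := by
    intro π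
    obtain ⟨x, hx⟩ := MaxR.rk2 hT hA hr hX (a := V 0 0 0 0 0 0 π)
      (b := V 0 0 (c.th *ᵥ π) 0 (c.et *ᵥ π) 0 0) (by
        rw [JX_V]
        funext i
        rcases i with (i | i | i | i) | ((i | i) | i) <;> rfl) (by
        rw [BX_V, JX_V]
        simp)
    rw [V_eta x, JX_V, BX_V] at hx
    have h1 := V_P hx
    rw [← mulVec_mulVec]
    simpa using h1.symm
  ext i j
  have h1 := congrFun (h (Pi.single j 1)) i
  rwa [mulVec_single_one] at h1

/-- the pencil version -/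
theorem pe0' [Infinite k] [CharZero k] {x y : Par k q r p}
    (hT : MaxR ρ ![JX k q r p, BX x, BX y]) (hr : (JX k q r p).rank = ρ 1) :
    x.pi * x.et = 0 ∧ y.pi * y.et = 0 ∧ x.pi * y.et + y.pi * x.et = 0 := by
  have m0 := D8.mem0 (JX k q r p) (BX x) (BX y)
  have m1 := D8.mem1 (JX k q r p) (BX x) (BX y)
  have m2 := D8.mem2 (JX k q r p) (BX x) (BX y)
  have h1 := pe0 hT hr m0 m1
  have h2 := pe0 hT hr m0 m2
  have m3 := add_mem m1 m2
  rw [BX_add] at m3
  have h3 := pe0 hT hr m0 m3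
  refine ⟨h1, h2, ?_⟩
  rw [Par.add_pi, Par.add_et, Matrix.add_mul, Matrix.mul_add, Matrix.mul_add, h1, h2, zero_add,
    add_zero] at h3
  exact h3

/-- for `r = 1` one of the two families vanishes -/
theorem pe_cases {x y : Par k q 1 p} (h1 : x.pi * x.et = 0) (h2 : y.pi * y.et = 0)
    (h3 : x.pi * y.et + y.pi * x.et = 0) :
    (x.pi = 0 ∧ y.pi = 0) ∨ (x.et = 0 ∧ y.et = 0) := by
  have key : ∀ (P : Matrix (Fin p) (Fin 1) k) (Q : Matrix (Fin 1) (Fin p) k), P * Q = 0 →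
      P ≠ 0 → Q = 0 := by
    intro P Q h hP
    obtain ⟨i, hi⟩ : ∃ i, P i 0 ≠ 0 := by
      by_contra hno
      push Not at hno
      apply hP
      ext i j
      fin_cases j
      exact hno i
    ext l j
    fin_cases l
    have h4 := congrFun (congrFun h i) j
    simp only [Matrix.mul_apply, Fin.sum_univ_one, Matrix.zero_apply] at h4
    exact (mul_eq_zero.1 h4).resolve_left hi
  by_cases hx : x.pi = 0
  · by_cases hy : y.pi = 0
    · exact Or.inl ⟨hx, hy⟩
    · rw [hx, Matrix.zero_mul, zero_add] at h3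
      exact Or.inr ⟨key _ _ h3 hy, key _ _ h2 hy⟩
  · have hxe := key _ _ h1 hx
    rw [hxe, Matrix.mul_zero, add_zero] at h3
    exact Or.inr ⟨hxe, key _ _ h3 hx⟩

/-! ### duality -/

/-- the involution exchanging `E_0, E_3`, `E_1, E_2` and `U_0, U_1` -/
def sg : Ix q r p → Ix q r p
  | .inl (.inl i) => .inl (.inr (.inr (.inr i)))
  | .inl (.inr (.inl i)) => .inl (.inr (.inr (.inl i)))
  | .inl (.inr (.inr (.inl i))) => .inl (.inr (.inl i))
  | .inl (.inr (.inr (.inr i))) => .inl (.inl i)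
  | .inr (.inl (.inl i)) => .inr (.inl (.inr i))
  | .inr (.inl (.inr i)) => .inr (.inl (.inl i))
  | .inr (.inr i) => .inr (.inr i)

/-- its permutation matrix -/
def PX (k : Type*) [Field k] (q r p : ℕ) : Matrix (Ix q r p) (Ix q r p) k :=
  Matrix.of fun i j => if i = sg j then 1 else 0

theorem PX_mul_PX : PX k q r p * PX k q r p = 1 := by
  ext i j
  rcases i with (i | i | i | i) | ((i | i) | i) <;> rcases j with (j | j | j | j) | ((j | j) | j) <;>
    simp [PX, sg, Matrix.mul_apply, Matrix.one_apply]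

theorem PX_BX (c : Par k q r p) : PX k q r p * (BX c)ᵀ * PX k q r p = BX c.dual := by
  have h : PX k q r p * (BX c)ᵀ = BX c.dual * PX k q r p := by
    ext i j
    rcases i with (i | i | i | i) | ((i | i) | i) <;>
      rcases j with (j | j | j | j) | ((j | j) | j) <;>
      simp [PX, sg, BX, Par.dual, Matrix.mul_apply, Fintype.sum_sum_type]
  rw [h, mul_assoc, PX_mul_PX, mul_one]

theorem dual_J : (Par.J k q r p).dual = Par.J k q r p := by
  ext : 1 <;> simp [Par.dual]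

theorem dual_dual (c : Par k q r p) : c.dual.dual = c := by
  ext : 1 <;> simp [Par.dual]

/-- duality for maximal triples -/
theorem MaxR.dual42 {x y : Par k q r p} (hT : MaxR ρ ![JX k q r p, BX x, BX y]) :
    MaxR ρ ![JX k q r p, BX x.dual, BX y.dual] := by
  have h1 := hT.transpose.conj _ _ PX_mul_PX PX_mul_PX
  have h2 : (fun i => PX k q r p * ((![JX k q r p, BX x, BX y] :
      Fin 3 → Matrix (Ix q r p) (Ix q r p) k) i)ᵀ * PX k q r p) =
      ![JX k q r p, BX x.dual, BX y.dual] := by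
    funext i
    fin_cases i
    · refine (PX_BX (Par.J k q r p)).trans ?_
      rw [dual_J]
      rfl
    · exact PX_BX ..
    · exact PX_BX ..
  rwa [h2] at h1

/-- duality for commuting pairs -/
theorem comm_dual {x y : Par k q r p} (h : BX x * BX y = BX y * BX x) :
    BX x.dual * BX y.dual = BX y.dual * BX x.dual := by
  have e : ∀ a b : Par k q r p, BX a.dual * BX b.dual = PX k q r p * (BX b * BX a)ᵀ * PX k q r p := by
    intro a b
    rw [← PX_BX, ← PX_BX, Matrix.transpose_mul]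
    calc PX k q r p * (BX a)ᵀ * PX k q r p * (PX k q r p * (BX b)ᵀ * PX k q r p) =
        PX k q r p * (BX a)ᵀ * (PX k q r p * PX k q r p) * (BX b)ᵀ * PX k q r p := by
          simp only [mul_assoc]
      _ = _ := by rw [PX_mul_PX, mul_one, mul_assoc (PX k q r p)]
  rw [e, e, h]

end Pool.Agent.Lib.D13.F42
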