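import Pool.Agent.Lib.D9.BlkMap
import Pool.Agent.Lib.D8.Corank
import Pool.Agent.Lib.D7.FinS0

/-!
# MP_5dcbc3_ag: maximal bad triples of a given Jordan type

For a list `l` of positive integers `JU k l` is the nilpotent Jordan matrix with blocks of the sizes
in `l`, on the index type `IxL l` of the boxes of `l`. `Bad k l` says that there is a maximal bad
triple whose first matrix is `JU k l`. If no decreasing list of sum `N` is bad, all commuting
nilpotent triples of `N x N` matrices are limits of curvilinear ones.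
-/

namespace Pool.Agent.Lib.D13

open Matrix Pool.Agent.Lib.Q5dc Pool.Agent.Lib.D7

variable {k : Type*} [Field k]

/-- the boxes of the list `l`: pairs of the number of a block and a position in this block -/
abbrev IxL (l : List ℕ) : Type := Σ a : Fin l.length, Fin (l.get a)

/-- the nilpotent Jordan matrix with blocks of the sizes in `l`: the basis vector `(a, i)` is mapped
to `(a, i + 1)` -/
def JU (k : Type*) [Field k] (l : List ℕ) : Matrix (IxL l) (IxL l) k :=
  Matrix.of fun x y => if x.1 = y.1 ∧ (x.2 : ℕ) = y.2 + 1 then 1 else 0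

/-- there is a maximal bad triple whose first matrix is `J` -/
def BadM {m : Type*} [Fintype m] [DecidableEq m] (J : Matrix m m k) : Prop :=
  ∃ (ρ : ℕ → ℕ) (T : Fin 3 → Matrix m m k), MaxR ρ T ∧ (∀ i, ρ i = (J ^ i).rank) ∧ T 0 = J

/-- there is a maximal bad triple whose first matrix has the Jordan type `l` -/
def Bad (k : Type*) [Field k] (l : List ℕ) : Prop := BadM (JU k l)

/-- the decreasing lists of positive integers with sum `n` and parts at most `m`; the first argument
bounds the number of parts -/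
def partsAux : ℕ → ℕ → ℕ → List (List ℕ)
  | _, _, 0 => [[]]
  | 0, _, _ + 1 => []
  | f + 1, m, n + 1 => (List.range (min m (n + 1))).flatMap fun i =>
      (partsAux f (i + 1) (n - i)).map (List.cons (i + 1))

/-- the decreasing lists of positive integers with sum `n` -/
def parts (n : ℕ) : List (List ℕ) := partsAux n n n

theorem mem_partsAux : ∀ (f m n : ℕ) (l : List ℕ), l.Pairwise (fun a b => b ≤ a) → (∀ a ∈ l, 0 < a) →
    (∀ a ∈ l, a ≤ m) → l.sum = n → n ≤ f → l ∈ partsAux f m n := by
  intro f
  induction f with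
  | zero =>
    intro m n l _ hpos _ hs hn
    obtain rfl : n = 0 := by omega
    cases l with
    | nil => simp [partsAux]
    | cons a l =>
      have := hpos a (by simp)
      rw [List.sum_cons] at hs
      omega
  | succ f ih =>
    intro m n l hsort hpos hle hs hn
    cases l with
    | nil =>
      rw [List.sum_nil] at hs
      subst hs
      simp [partsAux]
    | cons a l =>
      have ha := hpos a (by simp)
      have ham := hle a (by simp)
      rw [List.sum_cons] at hs
      obtain ⟨n', rfl⟩ : ∃ n', n = n' + 1 := ⟨n - 1, by omega⟩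
      rw [List.pairwise_cons] at hsort
      simp only [partsAux, List.mem_flatMap, List.mem_range, List.mem_map]
      refine ⟨a - 1, by omega, l, ?_, by rw [Nat.sub_add_cancel ha]⟩
      refine ih _ _ l hsort.2 (fun b hb => hpos b (by simp [hb])) (fun b hb => ?_) ?_ (by omega)
      · have := hsort.1 b hb
        omega
      · omega

theorem mem_parts {n : ℕ} {l : List ℕ} (h1 : l.Pairwise (fun a b => b ≤ a)) (h2 : ∀ a ∈ l, 0 < a)
    (h3 : l.sum = n) : l ∈ parts n := by
  refine mem_partsAux n n n l h1 h2 (fun a ha => ?_) h3 le_rfl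
  rw [← h3]
  exact List.le_sum_of_mem ha

theorem card_IxL (l : List ℕ) : Fintype.card (IxL l) = l.sum := by
  rw [Fintype.card_sigma]
  simp only [Fintype.card_fin]
  conv_rhs => rw [← List.ofFn_get l]
  rw [List.sum_ofFn]

namespace JordanUAux

theorem sigma_ext {l : List ℕ} : ∀ x y : IxL l, x.1 = y.1 → (x.2 : ℕ) = (y.2 : ℕ) → x = y := by
  rintro ⟨a, c⟩ ⟨b, d⟩ h1 h2
  dsimp only at h1
  subst h1
  congr
  exact Fin.ext h2

/-- a Jordan basis indexed by a function gives one indexed by a list -/
theorem shapeL {N : ℕ} {A : Matrix (Fin N) (Fin N) k} {l : List ℕ}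
    (b : Module.Basis (IxL l) k (Fin N → k))
    (hb : ∀ (a : Fin l.length) (i : Fin (l.get a)),
      A *ᵥ (b ⟨a, i⟩) = if h : (i : ℕ) + 1 < l.get a then b ⟨a, ⟨(i : ℕ) + 1, h⟩⟩ else 0)
    (f : Fin N ≃ IxL l) :
    ∃ g h : Matrix (Fin N) (Fin N) k, g * h = 1 ∧ h * g = 1 ∧
      Matrix.reindexAlgEquiv k k f (g * A * h) = JU k l := by
  obtain ⟨g, h, h1, h2, h3⟩ := JordanSAux.shape (k := k) (m := l.get) b hb f f.injective
    (Matrix.reindexAlgEquiv k k f.symm (JU k l)) (fun i j => by
      rfl)
  refine ⟨g, h, h1, h2, ?_⟩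
  rw [h3]
  ext x y
  simp

end JordanUAux

open JordanUAux D9.BlkMapAux

/-- a bad triple gives a bad decreasing list -/
theorem exists_bad [Infinite k] {N : ℕ} {T : Fin 3 → Matrix (Fin N) (Fin N) k} (hT : CN T)
    (h : ¬ Cl T) : ∃ l ∈ parts N, Bad k l := by
  obtain ⟨T', hT'⟩ := exists_maxR hT h
  obtain ⟨r, m, b, hb, hpos, hmono, hsum⟩ := JordanSAux.sorted (T' 0) (hT'.cn.2 0)
  obtain ⟨l, hl⟩ : ∃ l : List ℕ, l = List.ofFn m := ⟨_, rfl⟩
  have hlen : l.length = r := by rw [hl, List.length_ofFn]
  subst hlen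
  have hm : m = l.get := by
    have h1 : List.ofFn m = List.ofFn l.get := by
      rw [List.ofFn_get]
      exact hl.symm
    exact List.ofFn_injective h1
  subst hm
  have hcard : Fintype.card (Fin N) = Fintype.card (IxL l) := by
    rw [← Module.finrank_eq_card_basis b, Module.finrank_fin_fun, Fintype.card_fin]
  obtain ⟨f⟩ := Fintype.card_eq.1 hcard
  obtain ⟨g, h', hg, hh, hJ⟩ := shapeL b hb f
  have hM := D9.MaxR.reindex f (hT'.conj g h' hg hh)
  refine ⟨l, ?_, _, _, hM, ?_, hJ⟩
  · refine mem_parts ?_ ?_ ?_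
    · rw [List.pairwise_iff_get]
      intro i j hij
      exact hmono i j hij.le
    · intro a ha
      obtain ⟨i, rfl⟩ := List.get_of_mem ha
      exact hpos i
    · rw [← card_IxL, ← hcard, Fintype.card_fin]
  · intro i
    show (T' 0 ^ i).rank = _
    rw [← hJ, ← map_pow, rank_reindexAlgEquiv, conj_pow' g h' hg hh, rank_conj g h' hg hh]

/-- if no decreasing list of sum `N` is bad, every commuting nilpotent triple is a limit of
curvilinear ones -/
theorem cl_of_parts [Infinite k] {N : ℕ} (h : ∀ l ∈ parts N, ¬ Bad k l)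
    {T : Fin 3 → Matrix (Fin N) (Fin N) k} (hT : CN T) : Cl T := by
  by_contra hn
  obtain ⟨l, hl, hb⟩ := exists_bad hT hn
  exact h l hl hb

/-- transfer to another index type: `f` is a bijection carrying `J` to `J'` -/
theorem BadM.map [Infinite k] {m m' : Type*} [Fintype m] [DecidableEq m] [Fintype m']
    [DecidableEq m'] {J : Matrix m m k} (hb : BadM J) (f : m ≃ m') (J' : Matrix m' m' k)
    (hJ : ∀ x y, J' (f x) (f y) = J x y) : BadM J' := by
  obtain ⟨ρ, T, hT, hρ, h0⟩ := hb
  have h1 : Matrix.reindexAlgEquiv k k f J = J' := by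
    ext x y
    have h2 := hJ (f.symm x) (f.symm y)
    rw [Equiv.apply_symm_apply, Equiv.apply_symm_apply] at h2
    rw [h2]
    simp
  refine ⟨ρ, fun i => Matrix.reindexAlgEquiv k k f (T i), D9.MaxR.reindex f hT, fun i => ?_, ?_⟩
  · rw [hρ, ← h1, ← map_pow, rank_reindexAlgEquiv]
  · show Matrix.reindexAlgEquiv k k f (T 0) = J'
    rw [h0, h1]

/-- transfer of a bad list to the index type `m`: `τ` is an injective map which places the elements
of `m` in the boxes of `l`, `J` maps the element in the box `(a, i)` to the one in `(a, i + 1)` -/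
theorem Bad.bridge [Infinite k] {l : List ℕ} (hb : Bad k l) {m : Type*} [Fintype m]
    [DecidableEq m] (J : Matrix m m k) (τ : m → IxL l) (hτ : Function.Injective τ)
    (hc : Fintype.card m = l.sum)
    (hJ : ∀ i j, J i j = if (τ i).1 = (τ j).1 ∧ ((τ i).2 : ℕ) = (τ j).2 + 1 then 1 else 0) :
    BadM J := by
  have hbij : Function.Bijective τ :=
    (Fintype.bijective_iff_injective_and_card τ).2 ⟨hτ, by rw [hc, card_IxL]⟩
  refine BadM.map hb (Equiv.ofBijective τ hbij).symm J fun x y => ?_
  obtain ⟨x, rfl⟩ := (Equiv.ofBijective τ hbij).surjective x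
  obtain ⟨y, rfl⟩ := (Equiv.ofBijective τ hbij).surjective y
  rw [Equiv.symm_apply_apply, Equiv.symm_apply_apply, hJ]
  rfl

end Pool.Agent.Lib.D13
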