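import Pool.Agent.Lib.D13.F42
import Pool.Agent.Lib.D13.Chain
import Pool.Agent.Lib.D13.JordanU

/-!
# MP_5dcbc3_ag: the shape of the matrices of a maximal triple with the Jordan matrix
`(4^q, 2^r, 1^p)`

`shape`: all of them are `BX c`; `pi eta' = 0` and `eta pi' = 0` for any two of them.
-/

namespace Pool.Agent.Lib.D13.F42

open Matrix Pool.Agent.Lib.Q5dc Pool.Agent.Lib.D7 D9.BlkShapeAux

variable {k : Type*} [Field k] {q r p : ℕ} {ρ : ℕ → ℕ}
  {T : Fin 3 → Matrix (Ix q r p) (Ix q r p) k}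

/-! ### ranks of the Jordan matrix -/

/-- auxiliary factor -/
def rR (k : Type*) [Field k] (q r p : ℕ) : Matrix (Ix q r p) (Fin q ⊕ Fin q ⊕ Fin q ⊕ Fin r) k :=
  Matrix.of fun i j => match i, j with
      | .inl (.inr (.inl i)), .inl j => if i = j then 1 else 0
      | .inl (.inr (.inr (.inl i))), .inr (.inl j) => if i = j then 1 else 0
      | .inl (.inr (.inr (.inr i))), .inr (.inr (.inl j)) => if i = j then 1 else 0
      | .inr (.inl (.inr i)), .inr (.inr (.inr j)) => if i = j then 1 else 0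
      | _, _ => 0

/-- auxiliary factor -/
def cR (k : Type*) [Field k] (q r p : ℕ) : Matrix (Fin q ⊕ Fin q ⊕ Fin q ⊕ Fin r) (Ix q r p) k :=
  Matrix.of fun j i => match i, j with
      | .inl (.inl i), .inl j => if i = j then 1 else 0
      | .inl (.inr (.inl i)), .inr (.inl j) => if i = j then 1 else 0
      | .inl (.inr (.inr (.inl i))), .inr (.inr (.inl j)) => if i = j then 1 else 0
      | .inr (.inl (.inl i)), .inr (.inr (.inr j)) => if i = j then 1 else 0
      | _, _ => 0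

theorem JX_rank : (JX k q r p).rank ≤ 3 * q + r := by
  have h : JX k q r p = rR k q r p * cR k q r p := by
    ext i j
    rcases i with (i | i | i | i) | ((i | i) | i) <;>
      rcases j with (j | j | j | j) | ((j | j) | j) <;>
      simp [JX, BX, rR, cR, Matrix.mul_apply, Fintype.sum_sum_type, Matrix.one_apply]
  rw [h]
  refine (rank_mul_le_left _ _).trans ((rank_le_card_width _).trans ?_)
  simp only [Fintype.card_sum, Fintype.card_fin]
  omega

/-- auxiliary factor -/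
def rR2 (k : Type*) [Field k] (q r p : ℕ) : Matrix (Ix q r p) (Fin q ⊕ Fin q) k :=
  Matrix.of fun i j => match i, j with
      | .inl (.inr (.inr (.inl i))), .inl j => if i = j then 1 else 0
      | .inl (.inr (.inr (.inr i))), .inr j => if i = j then 1 else 0
      | _, _ => 0

/-- auxiliary factor -/
def cR2 (k : Type*) [Field k] (q r p : ℕ) : Matrix (Fin q ⊕ Fin q) (Ix q r p) k :=
  Matrix.of fun j i => match i, j with
      | .inl (.inl i), .inl j => if i = j then 1 else 0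
      | .inl (.inr (.inl i)), .inr j => if i = j then 1 else 0
      | _, _ => 0

theorem JX_rank_sq : (JX k q r p ^ 2).rank ≤ 2 * q := by
  have h : JX k q r p ^ 2 = rR2 k q r p * cR2 k q r p := by
    rw [pow_two, JX_sq]
    ext i j
    rcases i with (i | i | i | i) | ((i | i) | i) <;>
      rcases j with (j | j | j | j) | ((j | j) | j) <;>
      simp [BX, rR2, cR2, Matrix.mul_apply, Fintype.sum_sum_type, Matrix.one_apply]
  rw [h]
  refine (rank_mul_le_left _ _).trans ((rank_le_card_width _).trans ?_)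
  simp only [Fintype.card_sum, Fintype.card_fin]
  omega

/-! ### three vanishing conditions -/

/-- rows `E_1, E_2, E_3, U_1` -/
def fR : Fin q ⊕ Fin q ⊕ Fin q ⊕ Fin r → Ix q r p
  | .inl i => .inl (.inr (.inl i))
  | .inr (.inl i) => .inl (.inr (.inr (.inl i)))
  | .inr (.inr (.inl i)) => .inl (.inr (.inr (.inr i)))
  | .inr (.inr (.inr i)) => .inr (.inl (.inr i))

/-- columns `E_0, E_1, E_2, U_0` -/
def gR : Fin q ⊕ Fin q ⊕ Fin q ⊕ Fin r → Ix q r p
  | .inl i => .inl (.inl i)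
  | .inr (.inl i) => .inl (.inr (.inl i))
  | .inr (.inr (.inl i)) => .inl (.inr (.inr (.inl i)))
  | .inr (.inr (.inr i)) => .inr (.inl (.inl i))

theorem killP [Infinite k] (hT : MaxR ρ T) (h1 : ρ 1 ≤ 3 * q + r) (hA : JX k q r p ∈ adj T)
    {X : Matrix (Ix q r p) (Ix q r p) k} (hX : X ∈ adj T) (i j : Fin p) :
    X (.inr (.inr i)) (.inr (.inr j)) = 0 := by
  refine kill2 (M0 := JX k q r p) (M1 := X) (M2 := 0) (fR (q := q) (r := r) (p := p))
    (gR (q := q) (r := r) (p := p)) _ _ ?_ ?_ ?_ ?_ ?_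
  · intro s
    have h2 := hT.rank_le (add_mem hA (SMulMemClass.smul_mem s hX)) 1
    rw [pow_one] at h2
    rw [smul_zero, add_zero]
    refine (h2.trans h1).trans ?_
    simp only [Fintype.card_sum, Fintype.card_fin]
    omega
  · intro i j
    rcases i with i | i | i | i <;> rcases j with j | j | j | j <;>
      simp [JX, BX, fR, gR, Matrix.one_apply]
  · intro i
    rcases i with i | i | i | i <;> simp [JX, BX, fR]
  · intro i
    rcases i with i | i | i | i <;> simp [JX, BX, gR]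
  · simp [JX, BX]

theorem killU [CharZero k] (hT : MaxR ρ T) (h2 : ρ 2 ≤ 2 * q) (hA : JX k q r p ∈ adj T)
    {X : Matrix (Ix q r p) (Ix q r p) k} (hX : X ∈ adj T) (i j : Fin r) :
    (JX k q r p * X + X * JX k q r p) (.inr (.inl (.inr i))) (.inr (.inl (.inl j))) = 0 := by
  refine kill2 (M0 := JX k q r p * JX k q r p) (M1 := JX k q r p * X + X * JX k q r p)
    (M2 := X * X) (Sum.elim (fun i : Fin q => .inl (.inr (.inr (.inl i))))
      (fun i : Fin q => .inl (.inr (.inr (.inr i)))))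
    (Sum.elim (fun i : Fin q => .inl (.inl i)) (fun i : Fin q => .inl (.inr (.inl i))))
    _ _ ?_ ?_ ?_ ?_ ?_
  · intro s
    have h3 := hT.rank_le (add_mem hA (SMulMemClass.smul_mem s hX)) 2
    have h4 : (JX k q r p + s • X) ^ 2 = JX k q r p * JX k q r p +
        s • (JX k q r p * X + X * JX k q r p) + s ^ 2 • (X * X) := by
      rw [pow_two, add_mul, mul_add, mul_add, smul_mul_assoc, mul_smul_comm, smul_mul_assoc,
        mul_smul_comm, smul_smul, smul_add, pow_two]
      abel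
    rw [← h4]
    refine (h3.trans h2).trans ?_
    simp only [Fintype.card_sum, Fintype.card_fin]
    omega
  · intro i j
    rw [JX_sq]
    rcases i with i | i <;> rcases j with j | j <;> simp [BX, Matrix.one_apply]
  · intro i
    rw [JX_sq]
    rcases i with i | i <;> simp [BX]
  · intro i
    rw [JX_sq]
    rcases i with i | i <;> simp [BX]
  · rw [JX_sq]
    simp [BX]

/-- `A ^ 3 X = 0` for elements of `adj T` if `ρ 4 = 0` -/
theorem mul4 {n : Type*} [Fintype n] [DecidableEq n] [CharZero k] {T : Fin 3 → Matrix n n k}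
    (hT : MaxR ρ T) (h4 : ρ 4 = 0) {A X : Matrix n n k} (hA : A ∈ adj T) (hX : X ∈ adj T) :
    A * (A * (A * X)) = 0 := by
  have h : ∀ Y ∈ adj T, Y * (Y * (Y * Y)) = 0 := by
    intro Y hY
    have h1 := hT.pow_eq_zero hY h4
    rw [← h1, pow_succ, pow_succ, pow_two, mul_assoc, mul_assoc]
  have hc : X * A = A * X := hT.cn.comm hX hA
  have hc' : ∀ Z, X * (A * Z) = A * (X * Z) := by
    intro Z
    rw [← mul_assoc, hc, mul_assoc]
  have hs := fun s : k => h _ (add_mem hA (SMulMemClass.smul_mem s hX))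
  have e1 := hs 1
  have e2 := hs (-1)
  have e3 := hs 2
  have e4 := hs (-2)
  simp only [mul_add, add_mul, smul_mul_assoc, mul_smul_comm, hc, hc', smul_add, smul_smul] at e1 e2 e3 e4
  have e : (48 : k) • (A * (A * (A * X))) = 0 := by
    linear_combination (norm := module) (8 : k) • e1 - (8 : k) • e2 - e3 + e4
  exact (smul_eq_zero.mp e).resolve_left (by norm_num)

/-- the entries of a matrix in `adj T` -/
theorem shape1 [CharZero k] (hT : MaxR ρ T) (h1 : ρ 1 ≤ 3 * q + r) (h2 : ρ 2 ≤ 2 * q)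
    (h4 : ρ 4 = 0) (hA : JX k q r p ∈ adj T)
    {X : Matrix (Ix q r p) (Ix q r p) k} (hX : X ∈ adj T) :
    X = BX ⟨Matrix.of fun i j => X (.inl (.inr (.inl i))) (.inl (.inl j)),
      Matrix.of fun i j => X (.inl (.inr (.inr (.inl i)))) (.inl (.inl j)),
      Matrix.of fun i j => X (.inl (.inr (.inr (.inr i)))) (.inl (.inl j)),
      Matrix.of fun i j => X (.inr (.inl (.inl i))) (.inl (.inl j)),
      Matrix.of fun i j => X (.inr (.inl (.inr i))) (.inl (.inl j)),
      Matrix.of fun i j => X (.inr (.inr i)) (.inl (.inl j)),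
      Matrix.of fun i j => X (.inl (.inr (.inr (.inl i)))) (.inr (.inl (.inl j))),
      Matrix.of fun i j => X (.inl (.inr (.inr (.inr i)))) (.inr (.inl (.inl j))),
      Matrix.of fun i j => X (.inr (.inl (.inr i))) (.inr (.inl (.inl j))),
      Matrix.of fun i j => X (.inr (.inr i)) (.inr (.inl (.inl j))),
      Matrix.of fun i j => X (.inl (.inr (.inr (.inr i)))) (.inr (.inr j)),
      Matrix.of fun i j => X (.inr (.inl (.inr i))) (.inr (.inr j))⟩ := by
  have hc : JX k q r p * X = X * JX k q r p := hT.cn.comm hA hX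
  have h0 : JX k q r p * (JX k q r p * (JX k q r p * X)) = 0 := mul4 hT h4 hA hX
  have HP := fun i j => killP hT h1 hA hX i j
  have HU := fun i j => killU hT h2 hA hX i j
  -- rows and columns of `A`
  have rE0 : ∀ (Y : Matrix (Ix q r p) (Ix q r p) k) (i : Fin q) (c : Ix q r p),
      (JX k q r p * Y) (.inl (.inl i)) c = 0 := by
    intro Y i c
    simp [JX, BX, Matrix.mul_apply, Fintype.sum_sum_type, Matrix.one_apply]
  have rE1 : ∀ (Y : Matrix (Ix q r p) (Ix q r p) k) (i : Fin q) (c : Ix q r p),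
      (JX k q r p * Y) (.inl (.inr (.inl i))) c = Y (.inl (.inl i)) c := by
    intro Y i c
    simp [JX, BX, Matrix.mul_apply, Fintype.sum_sum_type, Matrix.one_apply]
  have rE2 : ∀ (Y : Matrix (Ix q r p) (Ix q r p) k) (i : Fin q) (c : Ix q r p),
      (JX k q r p * Y) (.inl (.inr (.inr (.inl i)))) c = Y (.inl (.inr (.inl i))) c := by
    intro Y i c
    simp [JX, BX, Matrix.mul_apply, Fintype.sum_sum_type, Matrix.one_apply]
  have rE3 : ∀ (Y : Matrix (Ix q r p) (Ix q r p) k) (i : Fin q) (c : Ix q r p),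
      (JX k q r p * Y) (.inl (.inr (.inr (.inr i)))) c = Y (.inl (.inr (.inr (.inl i)))) c := by
    intro Y i c
    simp [JX, BX, Matrix.mul_apply, Fintype.sum_sum_type, Matrix.one_apply]
  have rU0 : ∀ (Y : Matrix (Ix q r p) (Ix q r p) k) (i : Fin r) (c : Ix q r p),
      (JX k q r p * Y) (.inr (.inl (.inl i))) c = 0 := by
    intro Y i c
    simp [JX, BX, Matrix.mul_apply, Fintype.sum_sum_type, Matrix.one_apply]
  have rU1 : ∀ (Y : Matrix (Ix q r p) (Ix q r p) k) (i : Fin r) (c : Ix q r p),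
      (JX k q r p * Y) (.inr (.inl (.inr i))) c = Y (.inr (.inl (.inl i))) c := by
    intro Y i c
    simp [JX, BX, Matrix.mul_apply, Fintype.sum_sum_type, Matrix.one_apply]
  have rP : ∀ (Y : Matrix (Ix q r p) (Ix q r p) k) (i : Fin p) (c : Ix q r p),
      (JX k q r p * Y) (.inr (.inr i)) c = 0 := by
    intro Y i c
    simp [JX, BX, Matrix.mul_apply, Fintype.sum_sum_type, Matrix.one_apply]
  have cE0 : ∀ (z : Ix q r p) (j : Fin q), (X * JX k q r p) z (.inl (.inl j)) = X z (.inl (.inr (.inl j))) := by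
    intro z j
    simp [JX, BX, Matrix.mul_apply, Fintype.sum_sum_type, Matrix.one_apply]
  have cE1 : ∀ (z : Ix q r p) (j : Fin q), (X * JX k q r p) z (.inl (.inr (.inl j))) = X z (.inl (.inr (.inr (.inl j)))) := by
    intro z j
    simp [JX, BX, Matrix.mul_apply, Fintype.sum_sum_type, Matrix.one_apply]
  have cE2 : ∀ (z : Ix q r p) (j : Fin q), (X * JX k q r p) z (.inl (.inr (.inr (.inl j)))) = X z (.inl (.inr (.inr (.inr j)))) := by
    intro z j
    simp [JX, BX, Matrix.mul_apply, Fintype.sum_sum_type, Matrix.one_apply]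
  have cE3 : ∀ (z : Ix q r p) (j : Fin q), (X * JX k q r p) z (.inl (.inr (.inr (.inr j)))) = 0 := by
    intro z j
    simp [JX, BX, Matrix.mul_apply, Fintype.sum_sum_type, Matrix.one_apply]
  have cU0 : ∀ (z : Ix q r p) (j : Fin r), (X * JX k q r p) z (.inr (.inl (.inl j))) = X z (.inr (.inl (.inr j))) := by
    intro z j
    simp [JX, BX, Matrix.mul_apply, Fintype.sum_sum_type, Matrix.one_apply]
  have cU1 : ∀ (z : Ix q r p) (j : Fin r), (X * JX k q r p) z (.inr (.inl (.inr j))) = 0 := by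
    intro z j
    simp [JX, BX, Matrix.mul_apply, Fintype.sum_sum_type, Matrix.one_apply]
  have cP : ∀ (z : Ix q r p) (j : Fin p), (X * JX k q r p) z (.inr (.inr j)) = 0 := by
    intro z j
    simp [JX, BX, Matrix.mul_apply, Fintype.sum_sum_type, Matrix.one_apply]
  have RE0 : ∀ (i : Fin q) (c : Ix q r p), (X * JX k q r p) (.inl (.inl i)) c = 0 := fun i c => by
    rw [← hc, rE0]
  have RE1 : ∀ (i : Fin q) (c : Ix q r p), X (.inl (.inl i)) c = (X * JX k q r p) (.inl (.inr (.inl i))) c :=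
    fun i c => by rw [← hc, rE1]
  have RE2 : ∀ (i : Fin q) (c : Ix q r p), X (.inl (.inr (.inl i))) c = (X * JX k q r p) (.inl (.inr (.inr (.inl i)))) c :=
    fun i c => by rw [← hc, rE2]
  have RE3 : ∀ (i : Fin q) (c : Ix q r p), X (.inl (.inr (.inr (.inl i)))) c = (X * JX k q r p) (.inl (.inr (.inr (.inr i)))) c :=
    fun i c => by rw [← hc, rE3]
  have RU0 : ∀ (i : Fin r) (c : Ix q r p), (X * JX k q r p) (.inr (.inl (.inl i))) c = 0 := fun i c => by
    rw [← hc, rU0]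
  have RU1 : ∀ (i : Fin r) (c : Ix q r p), X (.inr (.inl (.inl i))) c = (X * JX k q r p) (.inr (.inl (.inr i))) c :=
    fun i c => by rw [← hc, rU1]
  have RP : ∀ (i : Fin p) (c : Ix q r p), (X * JX k q r p) (.inr (.inr i)) c = 0 := fun i c => by
    rw [← hc, rP]
  -- blocks
  have n0 : ∀ (i j : Fin q), X (.inl (.inl i)) (.inl (.inl j)) = 0 := by
    intro i j
    have h := congrFun (congrFun h0 (.inl (.inr (.inr (.inr i))))) (.inl (.inl j))
    rw [rE3, rE2, rE1] at h
    exact h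
  have z0 : ∀ (i j : Fin r), X (.inr (.inl (.inl i))) (.inr (.inl (.inl j))) = 0 := by
    intro i j
    have h := HU i j
    rw [← hc, Matrix.add_apply, rU1, ← two_mul] at h
    exact (mul_eq_zero.1 h).resolve_left two_ne_zero
  have xE0E1 : ∀ (i : Fin q) (j : Fin q), X (.inl (.inl i)) (.inl (.inr (.inl j))) = 0 := fun i j => by
    rw [← cE0, RE0]
  have xE0E2 : ∀ (i : Fin q) (j : Fin q), X (.inl (.inl i)) (.inl (.inr (.inr (.inl j)))) = 0 := fun i j => by
    rw [← cE1, RE0]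
  have xE0E3 : ∀ (i : Fin q) (j : Fin q), X (.inl (.inl i)) (.inl (.inr (.inr (.inr j)))) = 0 := fun i j => by
    rw [← cE2, RE0]
  have xE0U1 : ∀ (i : Fin q) (j : Fin r), X (.inl (.inl i)) (.inr (.inl (.inr j))) = 0 := fun i j => by
    rw [← cU0, RE0]
  have xE0P : ∀ (i : Fin q) (j : Fin p), X (.inl (.inl i)) (.inr (.inr j)) = 0 := fun i j => by
    rw [RE1, cP]
  have xE1E1 : ∀ (i : Fin q) (j : Fin q), X (.inl (.inr (.inl i))) (.inl (.inr (.inl j))) = 0 := fun i j => by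
    rw [← cE0, ← RE1, n0]
  have xE1E2 : ∀ (i : Fin q) (j : Fin q), X (.inl (.inr (.inl i))) (.inl (.inr (.inr (.inl j)))) = 0 := fun i j => by
    rw [← cE1, ← RE1, xE0E1]
  have xE1E3 : ∀ (i : Fin q) (j : Fin q), X (.inl (.inr (.inl i))) (.inl (.inr (.inr (.inr j)))) = 0 := fun i j => by
    rw [RE2, cE3]
  have xE1U1 : ∀ (i : Fin q) (j : Fin r), X (.inl (.inr (.inl i))) (.inr (.inl (.inr j))) = 0 := fun i j => by
    rw [RE2, cU1]
  have xE1P : ∀ (i : Fin q) (j : Fin p), X (.inl (.inr (.inl i))) (.inr (.inr j)) = 0 := fun i j => by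
    rw [RE2, cP]
  have xE0U0 : ∀ (i : Fin q) (j : Fin r), X (.inl (.inl i)) (.inr (.inl (.inl j))) = 0 := fun i j => by
    rw [RE1, cU0, xE1U1]
  have xE2E1 : ∀ (i : Fin q) (j : Fin q), X (.inl (.inr (.inr (.inl i)))) (.inl (.inr (.inl j))) = X (.inl (.inr (.inl i))) (.inl (.inl j)) := fun i j => by
    rw [RE2, cE0]
  have xE2E2 : ∀ (i : Fin q) (j : Fin q), X (.inl (.inr (.inr (.inl i)))) (.inl (.inr (.inr (.inl j)))) = 0 := fun i j => by
    rw [← cE1, ← RE2, xE1E1]
  have xE2E3 : ∀ (i : Fin q) (j : Fin q), X (.inl (.inr (.inr (.inl i)))) (.inl (.inr (.inr (.inr j)))) = 0 := fun i j => by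
    rw [RE3, cE3]
  have xE2U1 : ∀ (i : Fin q) (j : Fin r), X (.inl (.inr (.inr (.inl i)))) (.inr (.inl (.inr j))) = 0 := fun i j => by
    rw [RE3, cU1]
  have xE2P : ∀ (i : Fin q) (j : Fin p), X (.inl (.inr (.inr (.inl i)))) (.inr (.inr j)) = 0 := fun i j => by
    rw [RE3, cP]
  have xE1U0 : ∀ (i : Fin q) (j : Fin r), X (.inl (.inr (.inl i))) (.inr (.inl (.inl j))) = 0 := fun i j => by
    rw [RE2, cU0, xE2U1]
  have xE3E1 : ∀ (i : Fin q) (j : Fin q), X (.inl (.inr (.inr (.inr i)))) (.inl (.inr (.inl j))) = X (.inl (.inr (.inr (.inl i)))) (.inl (.inl j)) := fun i j => by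
    rw [RE3, cE0]
  have xE3E2 : ∀ (i : Fin q) (j : Fin q), X (.inl (.inr (.inr (.inr i)))) (.inl (.inr (.inr (.inl j)))) = X (.inl (.inr (.inl i))) (.inl (.inl j)) := fun i j => by
    rw [← cE1, ← RE3, xE2E1]
  have xE3E3 : ∀ (i : Fin q) (j : Fin q), X (.inl (.inr (.inr (.inr i)))) (.inl (.inr (.inr (.inr j)))) = 0 := fun i j => by
    rw [← cE2, ← RE3, xE2E2]
  have xE3U1 : ∀ (i : Fin q) (j : Fin r), X (.inl (.inr (.inr (.inr i)))) (.inr (.inl (.inr j))) = X (.inl (.inr (.inr (.inl i)))) (.inr (.inl (.inl j))) := fun i j => by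
    rw [RE3, cU0]
  have xU0E1 : ∀ (i : Fin r) (j : Fin q), X (.inr (.inl (.inl i))) (.inl (.inr (.inl j))) = 0 := fun i j => by
    rw [← cE0, RU0]
  have xU0E2 : ∀ (i : Fin r) (j : Fin q), X (.inr (.inl (.inl i))) (.inl (.inr (.inr (.inl j)))) = 0 := fun i j => by
    rw [← cE1, RU0]
  have xU0E3 : ∀ (i : Fin r) (j : Fin q), X (.inr (.inl (.inl i))) (.inl (.inr (.inr (.inr j)))) = 0 := fun i j => by
    rw [← cE2, RU0]
  have xU0U1 : ∀ (i : Fin r) (j : Fin r), X (.inr (.inl (.inl i))) (.inr (.inl (.inr j))) = 0 := fun i j => by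
    rw [← cU0, RU0]
  have xU0P : ∀ (i : Fin r) (j : Fin p), X (.inr (.inl (.inl i))) (.inr (.inr j)) = 0 := fun i j => by
    rw [RU1, cP]
  have xU1E1 : ∀ (i : Fin r) (j : Fin q), X (.inr (.inl (.inr i))) (.inl (.inr (.inl j))) = X (.inr (.inl (.inl i))) (.inl (.inl j)) := fun i j => by
    rw [RU1, cE0]
  have xU1E2 : ∀ (i : Fin r) (j : Fin q), X (.inr (.inl (.inr i))) (.inl (.inr (.inr (.inl j)))) = 0 := fun i j => by
    rw [← cE1, ← RU1, xU0E1]
  have xU1E3 : ∀ (i : Fin r) (j : Fin q), X (.inr (.inl (.inr i))) (.inl (.inr (.inr (.inr j)))) = 0 := fun i j => by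
    rw [← cE2, ← RU1, xU0E2]
  have xU1U1 : ∀ (i : Fin r) (j : Fin r), X (.inr (.inl (.inr i))) (.inr (.inl (.inr j))) = 0 := fun i j => by
    rw [← cU0, ← RU1, z0]
  have xPE1 : ∀ (i : Fin p) (j : Fin q), X (.inr (.inr i)) (.inl (.inr (.inl j))) = 0 := fun i j => by
    rw [← cE0, RP]
  have xPE2 : ∀ (i : Fin p) (j : Fin q), X (.inr (.inr i)) (.inl (.inr (.inr (.inl j)))) = 0 := fun i j => by
    rw [← cE1, RP]
  have xPE3 : ∀ (i : Fin p) (j : Fin q), X (.inr (.inr i)) (.inl (.inr (.inr (.inr j)))) = 0 := fun i j => by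
    rw [← cE2, RP]
  have xPU1 : ∀ (i : Fin p) (j : Fin r), X (.inr (.inr i)) (.inr (.inl (.inr j))) = 0 := fun i j => by
    rw [← cU0, RP]
  ext i j
  rcases i with (i | i | i | i) | ((i | i) | i) <;> rcases j with (j | j | j | j) | ((j | j) | j)
  all_goals simp only [BX, Matrix.of_apply, HP, n0, z0, xE0E1, xE0E2, xE0E3, xE0U1, xE0P, xE1E1, xE1E2, xE1E3, xE1U1, xE1P, xE0U0, xE2E1, xE2E2, xE2E3, xE2U1, xE2P, xE1U0, xE3E1, xE3E2, xE3E3, xE3U1, xU0E1, xU0E2, xU0E3, xU0U1, xU0P, xU1E1, xU1E2, xU1E3, xU1U1, xPE1, xPE2, xPE3, xPU1]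

theorem shape2 [CharZero k] (hT : MaxR ρ T) (h1 : ρ 1 ≤ 3 * q + r) (h2 : ρ 2 ≤ 2 * q)
    (h4 : ρ 4 = 0) (hA : JX k q r p ∈ adj T)
    {X : Matrix (Ix q r p) (Ix q r p) k} (hX : X ∈ adj T) : ∃ c : Par k q r p, X = BX c :=
  ⟨_, shape1 hT h1 h2 h4 hA hX⟩

/-- the shape of a maximal triple -/
theorem shape [CharZero k] (hT : MaxR ρ T) (hρ : ∀ i, ρ i = (JX k q r p ^ i).rank)
    (h0 : T 0 = JX k q r p) :
    ∃ x y : Par k q r p, T = ![JX k q r p, BX x, BX y] := by
  have h1 : ρ 1 ≤ 3 * q + r := by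
    rw [hρ, pow_one]
    exact JX_rank
  have h2 : ρ 2 ≤ 2 * q := by
    rw [hρ]
    exact JX_rank_sq
  have h4 : ρ 4 = 0 := by
    rw [hρ, JX_four, Matrix.rank_zero]
  have hA : JX k q r p ∈ adj T := h0 ▸ mem_adj T 0
  obtain ⟨x, e1⟩ := shape2 hT h1 h2 h4 hA (mem_adj T 1)
  obtain ⟨y, e2⟩ := shape2 hT h1 h2 h4 hA (mem_adj T 2)
  refine ⟨x, y, ?_⟩
  funext i
  fin_cases i
  · exact h0
  · exact e1
  · exact e2

end Pool.Agent.Lib.D13.F42
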