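import Pool.Agent.Lib.D13.F42S
import Pool.Agent.Lib.D13.PurCut

/-!
# MP_5dcbc3_ag: the centralizer of the Jordan matrix of type `(4^q, 2^r, 1^p)`
-/

namespace Pool.Agent.Lib.D13.F42

open Matrix Pool.Agent.Lib.Q5dc Pool.Agent.Lib.D7

variable {k : Type*} [Field k] {q r p : ℕ}

/-- the index type of the parameters of the centralizer -/
abbrev DX (q r p : ℕ) : Type :=
  ((Fin 4 × Fin q × Fin q) ⊕ (Fin 2 × Fin r × Fin q) ⊕ (Fin p × Fin q)) ⊕
  ((Fin 2 × Fin q × Fin r) ⊕ (Fin 2 × Fin r × Fin r) ⊕ (Fin p × Fin r)) ⊕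
  ((Fin q × Fin p) ⊕ (Fin r × Fin p) ⊕ (Fin p × Fin p))

/-- the element of the centralizer with the parameters `v` -/
def CX (v : DX q r p → k) : Matrix (Ix q r p) (Ix q r p) k :=
  Matrix.of fun i j => match i, j with
    | .inl (.inl i), .inl (.inl j) => v (.inl (.inl (0, i, j)))
    | .inl (.inr (.inl i)), .inl (.inr (.inl j)) => v (.inl (.inl (0, i, j)))
    | .inl (.inr (.inr (.inl i))), .inl (.inr (.inr (.inl j))) => v (.inl (.inl (0, i, j)))
    | .inl (.inr (.inr (.inr i))), .inl (.inr (.inr (.inr j))) => v (.inl (.inl (0, i, j)))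
    | .inl (.inr (.inl i)), .inl (.inl j) => v (.inl (.inl (1, i, j)))
    | .inl (.inr (.inr (.inl i))), .inl (.inl j) => v (.inl (.inl (2, i, j)))
    | .inl (.inr (.inr (.inr i))), .inl (.inl j) => v (.inl (.inl (3, i, j)))
    | .inl (.inr (.inr (.inl i))), .inl (.inr (.inl j)) => v (.inl (.inl (1, i, j)))
    | .inl (.inr (.inr (.inr i))), .inl (.inr (.inl j)) => v (.inl (.inl (2, i, j)))
    | .inl (.inr (.inr (.inr i))), .inl (.inr (.inr (.inl j))) => v (.inl (.inl (1, i, j)))
    | .inr (.inl (.inl i)), .inl (.inl j) => v (.inl (.inr (.inl (0, i, j))))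
    | .inr (.inl (.inr i)), .inl (.inl j) => v (.inl (.inr (.inl (1, i, j))))
    | .inr (.inl (.inr i)), .inl (.inr (.inl j)) => v (.inl (.inr (.inl (0, i, j))))
    | .inr (.inr i), .inl (.inl j) => v (.inl (.inr (.inr (i, j))))
    | .inl (.inr (.inr (.inl i))), .inr (.inl (.inl j)) => v (.inr (.inl (.inl (0, i, j))))
    | .inl (.inr (.inr (.inr i))), .inr (.inl (.inl j)) => v (.inr (.inl (.inl (1, i, j))))
    | .inl (.inr (.inr (.inr i))), .inr (.inl (.inr j)) => v (.inr (.inl (.inl (0, i, j))))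
    | .inr (.inl (.inl i)), .inr (.inl (.inl j)) => v (.inr (.inl (.inr (.inl (0, i, j)))))
    | .inr (.inl (.inr i)), .inr (.inl (.inr j)) => v (.inr (.inl (.inr (.inl (0, i, j)))))
    | .inr (.inl (.inr i)), .inr (.inl (.inl j)) => v (.inr (.inl (.inr (.inl (1, i, j)))))
    | .inr (.inr i), .inr (.inl (.inl j)) => v (.inr (.inl (.inr (.inr (i, j)))))
    | .inl (.inr (.inr (.inr i))), .inr (.inr j) => v (.inr (.inr (.inl (i, j))))
    | .inr (.inl (.inr i)), .inr (.inr j) => v (.inr (.inr (.inr (.inl (i, j)))))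
    | .inr (.inr i), .inr (.inr j) => v (.inr (.inr (.inr (.inr (i, j)))))
    | _, _ => 0

theorem CX_comm (v : DX q r p → k) : JX k q r p * CX v = CX v * JX k q r p := by
  ext i j
  rcases i with (i | i | i | i) | ((i | i) | i) <;> rcases j with (j | j | j | j) | ((j | j) | j) <;>
    simp [JX, BX, CX, Matrix.mul_apply, Fintype.sum_sum_type, Matrix.one_apply]

theorem CX_add (v w : DX q r p → k) : CX (v + w) = CX v + CX w := by
  ext i j
  rcases i with (i | i | i | i) | ((i | i) | i) <;> rcases j with (j | j | j | j) | ((j | j) | j) <;>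
    simp [CX]

theorem CX_smul (s : k) (v : DX q r p → k) : CX (s • v) = s • CX v := by
  ext i j
  rcases i with (i | i | i | i) | ((i | i) | i) <;> rcases j with (j | j | j | j) | ((j | j) | j) <;>
    simp [CX]

theorem CX_inj {v : DX q r p → k} (h : CX v = 0) : v = 0 := by
  have H := fun i j => congrFun (congrFun h i) j
  funext z
  rcases z with (⟨s, i, j⟩ | ⟨s, i, j⟩ | ⟨i, j⟩) | (⟨s, i, j⟩ | ⟨s, i, j⟩ | ⟨i, j⟩) |
    (⟨i, j⟩ | ⟨i, j⟩ | ⟨i, j⟩)
  · fin_cases s
    · exact H (.inl (.inl i)) (.inl (.inl j))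
    · exact H (.inl (.inr (.inl i))) (.inl (.inl j))
    · exact H (.inl (.inr (.inr (.inl i)))) (.inl (.inl j))
    · exact H (.inl (.inr (.inr (.inr i)))) (.inl (.inl j))
  · fin_cases s
    · exact H (.inr (.inl (.inl i))) (.inl (.inl j))
    · exact H (.inr (.inl (.inr i))) (.inl (.inl j))
  · exact H (.inr (.inr i)) (.inl (.inl j))
  · fin_cases s
    · exact H (.inl (.inr (.inr (.inl i)))) (.inr (.inl (.inl j)))
    · exact H (.inl (.inr (.inr (.inr i)))) (.inr (.inl (.inl j)))
  · fin_cases s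
    · exact H (.inr (.inl (.inl i))) (.inr (.inl (.inl j)))
    · exact H (.inr (.inl (.inr i))) (.inr (.inl (.inl j)))
  · exact H (.inr (.inr i)) (.inr (.inl (.inl j)))
  · exact H (.inl (.inr (.inr (.inr i)))) (.inr (.inr j))
  · exact H (.inr (.inl (.inr i))) (.inr (.inr j))
  · exact H (.inr (.inr i)) (.inr (.inr j))

/-- the dimension of the centralizer -/
theorem finrank_cen : 4 * (q * q) + 4 * (q * r) + 2 * (q * p) + 2 * (r * r) + 2 * (r * p) + p * p ≤
    Module.finrank k (Pur.cen (JX k q r p)) := by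
  let f : (DX q r p → k) →ₗ[k] Pur.cen (JX k q r p) :=
    { toFun := fun v => ⟨CX v, CX_comm v⟩
      map_add' := fun v w => Subtype.ext (CX_add v w)
      map_smul' := fun s v => Subtype.ext (CX_smul s v) }
  have hf : Function.Injective f := by
    rw [injective_iff_map_eq_zero]
    intro v hv
    exact CX_inj (congrArg Subtype.val hv)
  have h := LinearMap.finrank_le_finrank_of_injective hf
  rw [Module.finrank_fintype_fun_eq_card] at h
  simp only [Fintype.card_sum, Fintype.card_prod, Fintype.card_fin] at h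
  refine le_trans (le_of_eq ?_) h
  ring

/-- the rank of the Jordan matrix -/
theorem JX_rank_eq : (JX k q r p).rank = 3 * q + r := by
  refine le_antisymm JX_rank ?_
  have h : (rR k q r p)ᵀ * JX k q r p * (cR k q r p)ᵀ = 1 := by
    ext i j
    rcases i with i | i | i | i <;> rcases j with j | j | j | j <;>
      simp [JX, BX, rR, cR, Matrix.mul_apply, Fintype.sum_sum_type, Matrix.one_apply, eq_comm]
  have h1 : ((rR k q r p)ᵀ * JX k q r p * (cR k q r p)ᵀ).rank ≤ (JX k q r p).rank :=
    (rank_mul_le_left _ _).trans (rank_mul_le_right _ _)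
  rw [h, Matrix.rank_one] at h1
  simp only [Fintype.card_sum, Fintype.card_fin] at h1
  omega

end Pool.Agent.Lib.D13.F42
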