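import Pool.Agent.Lib.D13.Chain
import Pool.Agent.Lib.D9.BlkMap

/-!
# MP_5dcbc3_ag: matrices commuting with the Jordan matrix of type `(4, 3, 2, 1^p)`

Index type `Fin 9 ⊕ Fin p`: `v0, v1, v2, v3 = 0, 1, 2, 3`, `w0, w1, w2 = 4, 5, 6`,
`u0, u1 = 7, 8`, and `Fin p` for the blocks of size one.
`B c`: `v0 -> al0 w0 + al1 w1 + al2 w2 + c0 u0 + c1 u1 + q`,
`w0 -> be0 v1 + be1 v2 + be2 v3 + m1 w1 + m2 w2 + d0 u0 + d1 u1 + r`,
`u0 -> ga0 v2 + ga1 v3 + de0 w1 + de1 w2 + n1 u1 + s`,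
`p -> ph(p) v3 + ch(p) w2 + et(p) u1`.
-/

namespace Pool.Agent.Lib.D13.F432

open Matrix Pool.Agent.Lib.Q5dc Pool.Agent.Lib.D7

abbrev Ix (p : ℕ) := Fin 9 ⊕ Fin p

/-- parameters of a matrix commuting with `J` -/
@[ext] structure Par (k : Type*) (p : ℕ) where
  al0 : k
  al1 : k
  al2 : k
  c0 : k
  c1 : k
  q : Fin p → k
  be0 : k
  be1 : k
  be2 : k
  m1 : k
  m2 : k
  d0 : k
  d1 : k
  r : Fin p → k
  ga0 : k
  ga1 : k
  de0 : k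
  de1 : k
  n1 : k
  s : Fin p → k
  ph : Fin p → k
  ch : Fin p → k
  et : Fin p → k

variable {k : Type*} [Field k] {p : ℕ}

/-- the Jordan matrix of type `(4, 3, 2, 1^p)` -/
def J (k : Type*) [Field k] (p : ℕ) : Matrix (Ix p) (Ix p) k :=
  fromBlocks
    !![0, 0, 0, 0, 0, 0, 0, 0, 0;
       1, 0, 0, 0, 0, 0, 0, 0, 0;
       0, 1, 0, 0, 0, 0, 0, 0, 0;
       0, 0, 1, 0, 0, 0, 0, 0, 0;
       0, 0, 0, 0, 0, 0, 0, 0, 0;
       0, 0, 0, 0, 1, 0, 0, 0, 0;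
       0, 0, 0, 0, 0, 1, 0, 0, 0;
       0, 0, 0, 0, 0, 0, 0, 0, 0;
       0, 0, 0, 0, 0, 0, 0, 1, 0] 0 0 0

/-- the matrix with the parameters `c` -/
def B (c : Par k p) : Matrix (Ix p) (Ix p) k :=
  fromBlocks
    !![0, 0, 0, 0, 0, 0, 0, 0, 0;
       0, 0, 0, 0, c.be0, 0, 0, 0, 0;
       0, 0, 0, 0, c.be1, c.be0, 0, c.ga0, 0;
       0, 0, 0, 0, c.be2, c.be1, c.be0, c.ga1, c.ga0;
       c.al0, 0, 0, 0, 0, 0, 0, 0, 0;
       c.al1, c.al0, 0, 0, c.m1, 0, 0, c.de0, 0;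
       c.al2, c.al1, c.al0, 0, c.m2, c.m1, 0, c.de1, c.de0;
       c.c0, 0, 0, 0, c.d0, 0, 0, 0, 0;
       c.c1, c.c0, 0, 0, c.d1, c.d0, 0, c.n1, 0]
    (of fun i j => ![0, 0, 0, c.ph j, 0, 0, c.ch j, 0, c.et j] i)
    (of fun i j => ![c.q i, 0, 0, 0, c.r i, 0, 0, c.s i, 0] j)
    0

/-- vectors -/
def V (x : Fin 9 → k) (π : Fin p → k) : Ix p → k := Sum.elim x π

theorem V_inj {x y : Fin 9 → k} {π π' : Fin p → k} (h : V x π = V y π') : x = y ∧ π = π' :=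
  ⟨funext fun i => congrFun h (Sum.inl i), funext fun i => congrFun h (Sum.inr i)⟩

theorem V_eta (v : Ix p → k) : v = V (fun i => v (Sum.inl i)) (fun i => v (Sum.inr i)) := by
  funext i
  rcases i with i | i <;> rfl

theorem V_add (x y : Fin 9 → k) (π π' : Fin p → k) : V x π + V y π' = V (x + y) (π + π') := by
  funext i
  rcases i with i | i <;> rfl

theorem V_sub (x y : Fin 9 → k) (π π' : Fin p → k) : V x π - V y π' = V (x - y) (π - π') := by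
  funext i
  rcases i with i | i <;> rfl

theorem V_smul (t : k) (x : Fin 9 → k) (π : Fin p → k) : t • V x π = V (t • x) (t • π) := by
  funext i
  rcases i with i | i <;> rfl

theorem V_zero : (V 0 0 : Ix p → k) = 0 := by
  funext i
  rcases i with i | i <;> rfl

theorem V_dot (x y : Fin 9 → k) (π π' : Fin p → k) :
    V x π ⬝ᵥ V y π' = x ⬝ᵥ y + π ⬝ᵥ π' := by
  simp [V, dotProduct]

theorem J_V (x : Fin 9 → k) (π : Fin p → k) :
    J k p *ᵥ V x π = V ![0, x 0, x 1, x 2, 0, x 4, x 5, 0, x 7] 0 := by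
  unfold J V
  rw [fromBlocks_mulVec]
  congr 1
  · funext i
    fin_cases i <;> simp [mulVec, dotProduct, Fin.sum_univ_succ]
  · simp

theorem B_V (c : Par k p) (x : Fin 9 → k) (π : Fin p → k) :
    B c *ᵥ V x π = V ![0, c.be0 * x 4, c.be1 * x 4 + c.be0 * x 5 + c.ga0 * x 7,
      c.be2 * x 4 + c.be1 * x 5 + c.be0 * x 6 + c.ga1 * x 7 + c.ga0 * x 8 + c.ph ⬝ᵥ π,
      c.al0 * x 0,
      c.al1 * x 0 + c.al0 * x 1 + c.m1 * x 4 + c.de0 * x 7,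
      c.al2 * x 0 + c.al1 * x 1 + c.al0 * x 2 + c.m2 * x 4 + c.m1 * x 5 + c.de1 * x 7 +
        c.de0 * x 8 + c.ch ⬝ᵥ π,
      c.c0 * x 0 + c.d0 * x 4,
      c.c1 * x 0 + c.c0 * x 1 + c.d1 * x 4 + c.d0 * x 5 + c.n1 * x 7 + c.et ⬝ᵥ π]
      (x 0 • c.q + x 4 • c.r + x 7 • c.s) := by
  unfold B V
  rw [fromBlocks_mulVec]
  congr 1
  · funext i
    fin_cases i <;> simp [mulVec, dotProduct, Fin.sum_univ_succ] <;> ring
  · funext i
    simp [mulVec, dotProduct, Fin.sum_univ_succ]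
    ring

theorem V_J (x : Fin 9 → k) (π : Fin p → k) :
    V x π ᵥ* J k p = V ![x 1, x 2, x 3, 0, x 5, x 6, 0, x 8, 0] 0 := by
  unfold J V
  rw [vecMul_fromBlocks]
  congr 1
  · funext i
    rw [Pi.add_apply]
    fin_cases i <;> simp only [vecMul, dotProduct, Fin.sum_univ_succ] <;> simp
  · simp

theorem V_B (c : Par k p) (x : Fin 9 → k) (π : Fin p → k) :
    V x π ᵥ* B c = V ![c.al0 * x 4 + c.al1 * x 5 + c.al2 * x 6 + c.c0 * x 7 + c.c1 * x 8 +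
        π ⬝ᵥ c.q,
      c.al0 * x 5 + c.al1 * x 6 + c.c0 * x 8, c.al0 * x 6, 0,
      c.be0 * x 1 + c.be1 * x 2 + c.be2 * x 3 + c.m1 * x 5 + c.m2 * x 6 + c.d0 * x 7 +
        c.d1 * x 8 + π ⬝ᵥ c.r,
      c.be0 * x 2 + c.be1 * x 3 + c.m1 * x 6 + c.d0 * x 8, c.be0 * x 3,
      c.ga0 * x 2 + c.ga1 * x 3 + c.de0 * x 5 + c.de1 * x 6 + c.n1 * x 8 + π ⬝ᵥ c.s,
      c.ga0 * x 3 + c.de0 * x 6]
      (x 3 • c.ph + x 6 • c.ch + x 8 • c.et) := by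
  unfold B V
  rw [vecMul_fromBlocks]
  congr 1
  · funext i
    rw [Pi.add_apply]
    fin_cases i <;> simp only [vecMul, dotProduct, Fin.sum_univ_succ] <;> simp <;> ring
  · funext i
    rw [Pi.add_apply]
    simp only [vecMul, dotProduct, Fin.sum_univ_succ]
    simp
    ring

/-- two matrices are equal if they agree on all vectors `V x π` -/
theorem ext_V {M N : Matrix (Ix p) (Ix p) k} (h : ∀ x π, M *ᵥ V x π = N *ᵥ V x π) : M = N := by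
  apply sub_eq_zero.1
  refine eq_zero_of_mulVec fun v => ?_
  rw [V_eta v, sub_mulVec, h, sub_self]

/-- two matrices commuting with `J` are equal if they agree on the generators -/
theorem ext_gen {M N : Matrix (Ix p) (Ix p) k} (hM : M * J k p = J k p * M)
    (hN : N * J k p = J k p * N)
    (h0 : M *ᵥ V ![1, 0, 0, 0, 0, 0, 0, 0, 0] 0 = N *ᵥ V ![1, 0, 0, 0, 0, 0, 0, 0, 0] 0)
    (h4 : M *ᵥ V ![0, 0, 0, 0, 1, 0, 0, 0, 0] 0 = N *ᵥ V ![0, 0, 0, 0, 1, 0, 0, 0, 0] 0)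
    (h7 : M *ᵥ V ![0, 0, 0, 0, 0, 0, 0, 1, 0] 0 = N *ᵥ V ![0, 0, 0, 0, 0, 0, 0, 1, 0] 0)
    (hp : ∀ π, M *ᵥ V 0 π = N *ᵥ V 0 π) : M = N := by
  have step : ∀ v, M *ᵥ v = N *ᵥ v → M *ᵥ (J k p *ᵥ v) = N *ᵥ (J k p *ᵥ v) := by
    intro v hv
    rw [mulVec_mulVec, mulVec_mulVec, hM, hN, ← mulVec_mulVec, ← mulVec_mulVec, hv]
  have h1 := step _ h0
  have h5 := step _ h4
  have h8 := step _ h7
  have h2 := step _ h1
  have h3 := step _ h2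
  have h6 := step _ h5
  simp only [J_V] at h1 h2 h3 h5 h6 h8
  refine ext_V fun x π => ?_
  have e : V x π = x 0 • V ![1, 0, 0, 0, 0, 0, 0, 0, 0] 0 +
      x 1 • V ![0, 1, 0, 0, 0, 0, 0, 0, 0] 0 + x 2 • V ![0, 0, 1, 0, 0, 0, 0, 0, 0] 0 +
      x 3 • V ![0, 0, 0, 1, 0, 0, 0, 0, 0] 0 + x 4 • V ![0, 0, 0, 0, 1, 0, 0, 0, 0] 0 +
      x 5 • V ![0, 0, 0, 0, 0, 1, 0, 0, 0] 0 + x 6 • V ![0, 0, 0, 0, 0, 0, 1, 0, 0] 0 +
      x 7 • V ![0, 0, 0, 0, 0, 0, 0, 1, 0] 0 + x 8 • V ![0, 0, 0, 0, 0, 0, 0, 0, 1] 0 +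
      V 0 π := by
    simp only [V_smul, V_add]
    congr 1
    · funext i
      fin_cases i <;> simp
    · simp
  rw [e]
  simp only [mulVec_add, mulVec_smul]
  simp only [Matrix.cons_val] at h1 h2 h3 h5 h6 h8
  rw [h0, h1, h2, h3, h4, h5, h6, h7, h8, hp]

theorem B_comm_J (c : Par k p) : B c * J k p = J k p * B c := by
  refine ext_V fun x π => ?_
  rw [← mulVec_mulVec, ← mulVec_mulVec, J_V, B_V, B_V, J_V]
  congr 1
  · funext i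
    fin_cases i <;> simp
  · funext i
    simp

end Pool.Agent.Lib.D13.F432
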