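import Pool.Agent.Lib.D13.Chain
import Pool.Agent.Lib.D13.RangeLim
import Pool.Agent.Lib.D9.BlkMap

/-!
# MP_5dcbc3_ag: matrices commuting with the Jordan matrix of type `(4, 3, 2, 2, 1)`

Index type `Fin 12`: `v0, v1, v2, v3 = 0, 1, 2, 3`, `u0, u1, u2 = 4, 5, 6`, `w0, w1 = 7, 8`,
`z0, z1 = 9, 10`, `p = 11`. `B c`:
`v0 -> al0 u0 + al1 u1 + al2 u2 + c0 w0 + c1 w1 + e0 z0 + e1 z1 + q p`,
`u0 -> be0 v1 + be1 v2 + be2 v3 + m1 u1 + m2 u2 + d0 w0 + d1 w1 + f0 z0 + f1 z1 + r p`,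
`w0 -> ga0 v2 + ga1 v3 + de0 u1 + de1 u2 + n1 w1 + o1 z1 + s p`,
`z0 -> gb0 v2 + gb1 v3 + db0 u1 + db1 u2 + nb w1 + ob z1 + sb p`,
`p -> ph v3 + ch u2 + et w1 + eb z1`.
-/

set_option autoImplicit false

namespace Pool.Agent.Lib.D13.F43221

open Matrix Pool.Agent.Lib.Q5dc Pool.Agent.Lib.D7

abbrev Ix := Fin 12

/-- parameters of a matrix commuting with `J` -/
@[ext] structure Par (k : Type*) where
  al0 : k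
  al1 : k
  al2 : k
  c0 : k
  c1 : k
  e0 : k
  e1 : k
  q : k
  be0 : k
  be1 : k
  be2 : k
  m1 : k
  m2 : k
  d0 : k
  d1 : k
  f0 : k
  f1 : k
  r : k
  ga0 : k
  ga1 : k
  de0 : k
  de1 : k
  n1 : k
  o1 : k
  s : k
  gb0 : k
  gb1 : k
  db0 : k
  db1 : k
  nb : k
  ob : k
  sb : k
  ph : k
  ch : k
  et : k
  eb : k

variable {k : Type*} [Field k]

/-- the Jordan matrix of type `(4, 3, 2, 2, 1)` -/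
def J (k : Type*) [Field k] : Matrix Ix Ix k :=
  !![0, 0, 0, 0, 0, 0, 0, 0, 0, 0, 0, 0;
     1, 0, 0, 0, 0, 0, 0, 0, 0, 0, 0, 0;
     0, 1, 0, 0, 0, 0, 0, 0, 0, 0, 0, 0;
     0, 0, 1, 0, 0, 0, 0, 0, 0, 0, 0, 0;
     0, 0, 0, 0, 0, 0, 0, 0, 0, 0, 0, 0;
     0, 0, 0, 0, 1, 0, 0, 0, 0, 0, 0, 0;
     0, 0, 0, 0, 0, 1, 0, 0, 0, 0, 0, 0;
     0, 0, 0, 0, 0, 0, 0, 0, 0, 0, 0, 0;
     0, 0, 0, 0, 0, 0, 0, 1, 0, 0, 0, 0;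
     0, 0, 0, 0, 0, 0, 0, 0, 0, 0, 0, 0;
     0, 0, 0, 0, 0, 0, 0, 0, 0, 1, 0, 0;
     0, 0, 0, 0, 0, 0, 0, 0, 0, 0, 0, 0]

/-- the matrix with the parameters `c` -/
def B (c : Par k) : Matrix Ix Ix k :=
  !![0, 0, 0, 0, 0, 0, 0, 0, 0, 0, 0, 0;
     0, 0, 0, 0, c.be0, 0, 0, 0, 0, 0, 0, 0;
     0, 0, 0, 0, c.be1, c.be0, 0, c.ga0, 0, c.gb0, 0, 0;
     0, 0, 0, 0, c.be2, c.be1, c.be0, c.ga1, c.ga0, c.gb1, c.gb0, c.ph;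
     c.al0, 0, 0, 0, 0, 0, 0, 0, 0, 0, 0, 0;
     c.al1, c.al0, 0, 0, c.m1, 0, 0, c.de0, 0, c.db0, 0, 0;
     c.al2, c.al1, c.al0, 0, c.m2, c.m1, 0, c.de1, c.de0, c.db1, c.db0, c.ch;
     c.c0, 0, 0, 0, c.d0, 0, 0, 0, 0, 0, 0, 0;
     c.c1, c.c0, 0, 0, c.d1, c.d0, 0, c.n1, 0, c.nb, 0, c.et;
     c.e0, 0, 0, 0, c.f0, 0, 0, 0, 0, 0, 0, 0;
     c.e1, c.e0, 0, 0, c.f1, c.f0, 0, c.o1, 0, c.ob, 0, c.eb;
     c.q, 0, 0, 0, c.r, 0, 0, c.s, 0, c.sb, 0, 0]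

theorem J_V (x : Ix → k) :
    J k *ᵥ x = ![0, x 0, x 1, x 2, 0, x 4, x 5, 0, x 7, 0, x 9, 0] := by
  unfold J
  funext i
  fin_cases i <;> simp [mulVec, dotProduct, Fin.sum_univ_succ]

theorem B_V (c : Par k) (x : Ix → k) : B c *ᵥ x =
    ![0,
      c.be0 * x 4,
      c.be1 * x 4 + c.be0 * x 5 + c.ga0 * x 7 + c.gb0 * x 9,
      c.be2 * x 4 + c.be1 * x 5 + c.be0 * x 6 + c.ga1 * x 7 + c.ga0 * x 8 + c.gb1 * x 9 + c.gb0 * x 10 + c.ph * x 11,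
      c.al0 * x 0,
      c.al1 * x 0 + c.al0 * x 1 + c.m1 * x 4 + c.de0 * x 7 + c.db0 * x 9,
      c.al2 * x 0 + c.al1 * x 1 + c.al0 * x 2 + c.m2 * x 4 + c.m1 * x 5 + c.de1 * x 7 + c.de0 * x 8 + c.db1 * x 9 + c.db0 * x 10 + c.ch * x 11,
      c.c0 * x 0 + c.d0 * x 4,
      c.c1 * x 0 + c.c0 * x 1 + c.d1 * x 4 + c.d0 * x 5 + c.n1 * x 7 + c.nb * x 9 + c.et * x 11,
      c.e0 * x 0 + c.f0 * x 4,
      c.e1 * x 0 + c.e0 * x 1 + c.f1 * x 4 + c.f0 * x 5 + c.o1 * x 7 + c.ob * x 9 + c.eb * x 11,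
      c.q * x 0 + c.r * x 4 + c.s * x 7 + c.sb * x 9] := by
  unfold B
  funext i
  fin_cases i <;> simp [mulVec, dotProduct, Fin.sum_univ_succ] <;> ring

theorem V_J (x : Ix → k) :
    x ᵥ* J k = ![x 1, x 2, x 3, 0, x 5, x 6, 0, x 8, 0, x 10, 0, 0] := by
  unfold J
  funext i
  fin_cases i <;> simp [vecMul, dotProduct, Fin.sum_univ_succ]

theorem V_B (c : Par k) (x : Ix → k) : x ᵥ* B c =
    ![c.al0 * x 4 + c.al1 * x 5 + c.al2 * x 6 + c.c0 * x 7 + c.c1 * x 8 + c.e0 * x 9 + c.e1 * x 10 + c.q * x 11,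
      c.al0 * x 5 + c.al1 * x 6 + c.c0 * x 8 + c.e0 * x 10,
      c.al0 * x 6,
      0,
      c.be0 * x 1 + c.be1 * x 2 + c.be2 * x 3 + c.m1 * x 5 + c.m2 * x 6 + c.d0 * x 7 + c.d1 * x 8 + c.f0 * x 9 + c.f1 * x 10 + c.r * x 11,
      c.be0 * x 2 + c.be1 * x 3 + c.m1 * x 6 + c.d0 * x 8 + c.f0 * x 10,
      c.be0 * x 3,
      c.ga0 * x 2 + c.ga1 * x 3 + c.de0 * x 5 + c.de1 * x 6 + c.n1 * x 8 + c.o1 * x 10 + c.s * x 11,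
      c.ga0 * x 3 + c.de0 * x 6,
      c.gb0 * x 2 + c.gb1 * x 3 + c.db0 * x 5 + c.db1 * x 6 + c.nb * x 8 + c.ob * x 10 + c.sb * x 11,
      c.gb0 * x 3 + c.db0 * x 6,
      c.ph * x 3 + c.ch * x 6 + c.et * x 8 + c.eb * x 10] := by
  unfold B
  funext i
  fin_cases i <;> simp [vecMul, dotProduct, Fin.sum_univ_succ] <;> ring

/-- two matrices are equal if they agree on all vectors -/
theorem ext_V {M N : Matrix Ix Ix k} (h : ∀ x, M *ᵥ x = N *ᵥ x) : M = N := by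
  apply sub_eq_zero.1
  refine eq_zero_of_mulVec fun v => ?_
  rw [sub_mulVec, h, sub_self]

/-- two matrices commuting with `J` are equal if they agree on the generators -/
theorem ext_gen {M N : Matrix Ix Ix k} (hM : M * J k = J k * M) (hN : N * J k = J k * N)
    (h0 : M *ᵥ ![1, 0, 0, 0, 0, 0, 0, 0, 0, 0, 0, 0] = N *ᵥ ![1, 0, 0, 0, 0, 0, 0, 0, 0, 0, 0, 0])
    (h4 : M *ᵥ ![0, 0, 0, 0, 1, 0, 0, 0, 0, 0, 0, 0] = N *ᵥ ![0, 0, 0, 0, 1, 0, 0, 0, 0, 0, 0, 0])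
    (h7 : M *ᵥ ![0, 0, 0, 0, 0, 0, 0, 1, 0, 0, 0, 0] = N *ᵥ ![0, 0, 0, 0, 0, 0, 0, 1, 0, 0, 0, 0])
    (h9 : M *ᵥ ![0, 0, 0, 0, 0, 0, 0, 0, 0, 1, 0, 0] = N *ᵥ ![0, 0, 0, 0, 0, 0, 0, 0, 0, 1, 0, 0])
    (h11 : M *ᵥ ![0, 0, 0, 0, 0, 0, 0, 0, 0, 0, 0, 1] = N *ᵥ ![0, 0, 0, 0, 0, 0, 0, 0, 0, 0, 0, 1]) : M = N := by
  have step : ∀ v, M *ᵥ v = N *ᵥ v → M *ᵥ (J k *ᵥ v) = N *ᵥ (J k *ᵥ v) := by
    intro v hv
    rw [mulVec_mulVec, mulVec_mulVec, hM, hN, ← mulVec_mulVec, ← mulVec_mulVec, hv]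
  have h1 := step _ h0
  have h5 := step _ h4
  have h8 := step _ h7
  have h10 := step _ h9
  have h2 := step _ h1
  have h3 := step _ h2
  have h6 := step _ h5
  simp only [J_V] at h1 h2 h3 h5 h6 h8 h10
  refine ext_V fun x => ?_
  have e : x = x 0 • ![1, 0, 0, 0, 0, 0, 0, 0, 0, 0, 0, 0] +
      x 1 • ![0, 1, 0, 0, 0, 0, 0, 0, 0, 0, 0, 0] +
      x 2 • ![0, 0, 1, 0, 0, 0, 0, 0, 0, 0, 0, 0] +
      x 3 • ![0, 0, 0, 1, 0, 0, 0, 0, 0, 0, 0, 0] +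
      x 4 • ![0, 0, 0, 0, 1, 0, 0, 0, 0, 0, 0, 0] +
      x 5 • ![0, 0, 0, 0, 0, 1, 0, 0, 0, 0, 0, 0] +
      x 6 • ![0, 0, 0, 0, 0, 0, 1, 0, 0, 0, 0, 0] +
      x 7 • ![0, 0, 0, 0, 0, 0, 0, 1, 0, 0, 0, 0] +
      x 8 • ![0, 0, 0, 0, 0, 0, 0, 0, 1, 0, 0, 0] +
      x 9 • ![0, 0, 0, 0, 0, 0, 0, 0, 0, 1, 0, 0] +
      x 10 • ![0, 0, 0, 0, 0, 0, 0, 0, 0, 0, 1, 0] +
      x 11 • ![0, 0, 0, 0, 0, 0, 0, 0, 0, 0, 0, 1] := by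
    funext i
    fin_cases i <;> simp
  rw [e]
  simp only [mulVec_add, mulVec_smul]
  simp only [Matrix.cons_val] at h1 h2 h3 h5 h6 h8 h10
  rw [h0, h1, h2, h3, h4, h5, h6, h7, h8, h9, h10, h11]

theorem B_comm_J (c : Par k) : B c * J k = J k * B c := by
  refine ext_V fun x => ?_
  rw [← mulVec_mulVec, ← mulVec_mulVec, J_V, B_V, B_V, J_V]
  funext i
  fin_cases i <;> simp

/-! ### matrices with given images of the generators -/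

/-- the matrix commuting with `J` with the images `a, b, c, d, e` of `v0, u0, w0, z0, p` -/
def mk (a b c d e : Ix → k) : Matrix Ix Ix k :=
  (Matrix.of ![a, J k *ᵥ a, J k *ᵥ (J k *ᵥ a), J k *ᵥ (J k *ᵥ (J k *ᵥ a)), b, J k *ᵥ b,
    J k *ᵥ (J k *ᵥ b), c, J k *ᵥ c, d, J k *ᵥ d, e])ᵀ

theorem mk_V (a b c d e x : Ix → k) : mk a b c d e *ᵥ x = x 0 • a + x 1 • (J k *ᵥ a) +
    x 2 • (J k *ᵥ (J k *ᵥ a)) + x 3 • (J k *ᵥ (J k *ᵥ (J k *ᵥ a))) + x 4 • b + x 5 • (J k *ᵥ b) +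
    x 6 • (J k *ᵥ (J k *ᵥ b)) + x 7 • c + x 8 • (J k *ᵥ c) + x 9 • d + x 10 • (J k *ᵥ d) +
    x 11 • e := by
  funext i
  simp only [mk, mulVec, dotProduct, transpose_apply, Matrix.of_apply, Fin.sum_univ_succ]
  simp
  ring

theorem J_four (x : Ix → k) : J k *ᵥ (J k *ᵥ (J k *ᵥ (J k *ᵥ x))) = 0 := by
  simp only [J_V]
  funext i
  fin_cases i <;> rfl

theorem mk_comm {a b c d e : Ix → k} (hb : J k *ᵥ (J k *ᵥ (J k *ᵥ b)) = 0)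
    (hc : J k *ᵥ (J k *ᵥ c) = 0) (hd : J k *ᵥ (J k *ᵥ d) = 0) (he : J k *ᵥ e = 0) :
    mk a b c d e * J k = J k * mk a b c d e := by
  refine ext_V fun x => ?_
  rw [← mulVec_mulVec, ← mulVec_mulVec, mk_V, mk_V, J_V x]
  simp only [mulVec_add, mulVec_smul, J_four, hb, hc, hd, he, smul_zero, add_zero]
  simp

theorem mk_v0 (a b c d e : Ix → k) : mk a b c d e *ᵥ ![1, 0, 0, 0, 0, 0, 0, 0, 0, 0, 0, 0] = a := by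
  rw [mk_V]
  simp

theorem mk_u0 (a b c d e : Ix → k) : mk a b c d e *ᵥ ![0, 0, 0, 0, 1, 0, 0, 0, 0, 0, 0, 0] = b := by
  rw [mk_V]
  simp

theorem mk_w0 (a b c d e : Ix → k) : mk a b c d e *ᵥ ![0, 0, 0, 0, 0, 0, 0, 1, 0, 0, 0, 0] = c := by
  rw [mk_V]
  simp

theorem mk_z0 (a b c d e : Ix → k) : mk a b c d e *ᵥ ![0, 0, 0, 0, 0, 0, 0, 0, 0, 1, 0, 0] = d := by
  rw [mk_V]
  simp

theorem mk_p (a b c d e : Ix → k) : mk a b c d e *ᵥ ![0, 0, 0, 0, 0, 0, 0, 0, 0, 0, 0, 1] = e := by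
  rw [mk_V]
  simp

/-- a matrix commuting with `J` is determined by the images of the generators -/
theorem eq_mk {M : Matrix Ix Ix k} (hM : M * J k = J k * M) : M = mk (M *ᵥ ![1, 0, 0, 0, 0, 0, 0, 0, 0, 0, 0, 0])
    (M *ᵥ ![0, 0, 0, 0, 1, 0, 0, 0, 0, 0, 0, 0]) (M *ᵥ ![0, 0, 0, 0, 0, 0, 0, 1, 0, 0, 0, 0])
    (M *ᵥ ![0, 0, 0, 0, 0, 0, 0, 0, 0, 1, 0, 0]) (M *ᵥ ![0, 0, 0, 0, 0, 0, 0, 0, 0, 0, 0, 1]) := by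
  have hJ : ∀ v, M *ᵥ (J k *ᵥ v) = J k *ᵥ (M *ᵥ v) := fun v => by
    rw [mulVec_mulVec, mulVec_mulVec, hM]
  have z : ∀ v : Ix → k, J k *ᵥ v = 0 → J k *ᵥ (M *ᵥ v) = 0 := fun v hv => by
    rw [← hJ, hv, mulVec_zero]
  refine ext_gen hM (mk_comm ?_ ?_ ?_ ?_) (mk_v0 _ _ _ _ _).symm (mk_u0 _ _ _ _ _).symm
    (mk_w0 _ _ _ _ _).symm (mk_z0 _ _ _ _ _).symm (mk_p _ _ _ _ _).symm
  · rw [← hJ, ← hJ, ← hJ]
    simp only [J_V]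
    rw [← mulVec_zero M]
    congr 1
    funext i
    fin_cases i <;> rfl
  · rw [← hJ, ← hJ]
    simp only [J_V]
    rw [← mulVec_zero M]
    congr 1
    funext i
    fin_cases i <;> rfl
  · rw [← hJ, ← hJ]
    simp only [J_V]
    rw [← mulVec_zero M]
    congr 1
    funext i
    fin_cases i <;> rfl
  · rw [← hJ]
    simp only [J_V]
    rw [← mulVec_zero M]
    congr 1
    funext i
    fin_cases i <;> rfl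

/-- composition on the generators -/
theorem mul_mk {M : Matrix Ix Ix k} (hM : M * J k = J k * M) {a b c d e : Ix → k} :
    M * mk a b c d e = mk (M *ᵥ a) (M *ᵥ b) (M *ᵥ c) (M *ᵥ d) (M *ᵥ e) := by
  have hJ : ∀ v, M *ᵥ (J k *ᵥ v) = J k *ᵥ (M *ᵥ v) := fun v => by
    rw [mulVec_mulVec, mulVec_mulVec, hM]
  refine ext_V fun x => ?_
  rw [← mulVec_mulVec, mk_V, mk_V]
  simp only [mulVec_add, mulVec_smul, hJ]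

end Pool.Agent.Lib.D13.F43221
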