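import Pool.Agent.Lib.D13.F43221R

/-!
# MP_5dcbc3_ag: type `(4, 3, 2, 2, 1)`: linear operations on the parameters, transposition
-/

set_option autoImplicit false

namespace Pool.Agent.Lib.D13.F43221

open Matrix Pool.Agent.Lib.Q5dc Pool.Agent.Lib.D7

variable {k : Type*} [Field k]

instance : Add (Par k) := ⟨fun c d => ⟨c.al0 + d.al0, c.al1 + d.al1, c.al2 + d.al2, c.c0 +
    d.c0, c.c1 + d.c1, c.e0 + d.e0, c.e1 + d.e1, c.q + d.q, c.be0 + d.be0, c.be1 + d.be1, c.be2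
    + d.be2, c.m1 + d.m1, c.m2 + d.m2, c.d0 + d.d0, c.d1 + d.d1, c.f0 + d.f0, c.f1 + d.f1, c.r
    + d.r, c.ga0 + d.ga0, c.ga1 + d.ga1, c.de0 + d.de0, c.de1 + d.de1, c.n1 + d.n1, c.o1 +
    d.o1, c.s + d.s, c.gb0 + d.gb0, c.gb1 + d.gb1, c.db0 + d.db0, c.db1 + d.db1, c.nb + d.nb,
    c.ob + d.ob, c.sb + d.sb, c.ph + d.ph, c.ch + d.ch, c.et + d.et, c.eb + d.eb⟩⟩

instance : SMul k (Par k) := ⟨fun t c => ⟨t * c.al0, t * c.al1, t * c.al2, t * c.c0, t *
    c.c1, t * c.e0, t * c.e1, t * c.q, t * c.be0, t * c.be1, t * c.be2, t * c.m1, t * c.m2, t *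
    c.d0, t * c.d1, t * c.f0, t * c.f1, t * c.r, t * c.ga0, t * c.ga1, t * c.de0, t * c.de1, t
    * c.n1, t * c.o1, t * c.s, t * c.gb0, t * c.gb1, t * c.db0, t * c.db1, t * c.nb, t * c.ob,
    t * c.sb, t * c.ph, t * c.ch, t * c.et, t * c.eb⟩⟩

section simps

variable (c d : Par k) (t : k)

@[simp] theorem add_al0 : (c + d).al0 = c.al0 + d.al0 := rfl
@[simp] theorem add_al1 : (c + d).al1 = c.al1 + d.al1 := rfl
@[simp] theorem add_al2 : (c + d).al2 = c.al2 + d.al2 := rfl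
@[simp] theorem add_c0 : (c + d).c0 = c.c0 + d.c0 := rfl
@[simp] theorem add_c1 : (c + d).c1 = c.c1 + d.c1 := rfl
@[simp] theorem add_e0 : (c + d).e0 = c.e0 + d.e0 := rfl
@[simp] theorem add_e1 : (c + d).e1 = c.e1 + d.e1 := rfl
@[simp] theorem add_q : (c + d).q = c.q + d.q := rfl
@[simp] theorem add_be0 : (c + d).be0 = c.be0 + d.be0 := rfl
@[simp] theorem add_be1 : (c + d).be1 = c.be1 + d.be1 := rfl
@[simp] theorem add_be2 : (c + d).be2 = c.be2 + d.be2 := rfl
@[simp] theorem add_m1 : (c + d).m1 = c.m1 + d.m1 := rfl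
@[simp] theorem add_m2 : (c + d).m2 = c.m2 + d.m2 := rfl
@[simp] theorem add_d0 : (c + d).d0 = c.d0 + d.d0 := rfl
@[simp] theorem add_d1 : (c + d).d1 = c.d1 + d.d1 := rfl
@[simp] theorem add_f0 : (c + d).f0 = c.f0 + d.f0 := rfl
@[simp] theorem add_f1 : (c + d).f1 = c.f1 + d.f1 := rfl
@[simp] theorem add_r : (c + d).r = c.r + d.r := rfl
@[simp] theorem add_ga0 : (c + d).ga0 = c.ga0 + d.ga0 := rfl
@[simp] theorem add_ga1 : (c + d).ga1 = c.ga1 + d.ga1 := rfl
@[simp] theorem add_de0 : (c + d).de0 = c.de0 + d.de0 := rfl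
@[simp] theorem add_de1 : (c + d).de1 = c.de1 + d.de1 := rfl
@[simp] theorem add_n1 : (c + d).n1 = c.n1 + d.n1 := rfl
@[simp] theorem add_o1 : (c + d).o1 = c.o1 + d.o1 := rfl
@[simp] theorem add_s : (c + d).s = c.s + d.s := rfl
@[simp] theorem add_gb0 : (c + d).gb0 = c.gb0 + d.gb0 := rfl
@[simp] theorem add_gb1 : (c + d).gb1 = c.gb1 + d.gb1 := rfl
@[simp] theorem add_db0 : (c + d).db0 = c.db0 + d.db0 := rfl
@[simp] theorem add_db1 : (c + d).db1 = c.db1 + d.db1 := rfl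
@[simp] theorem add_nb : (c + d).nb = c.nb + d.nb := rfl
@[simp] theorem add_ob : (c + d).ob = c.ob + d.ob := rfl
@[simp] theorem add_sb : (c + d).sb = c.sb + d.sb := rfl
@[simp] theorem add_ph : (c + d).ph = c.ph + d.ph := rfl
@[simp] theorem add_ch : (c + d).ch = c.ch + d.ch := rfl
@[simp] theorem add_et : (c + d).et = c.et + d.et := rfl
@[simp] theorem add_eb : (c + d).eb = c.eb + d.eb := rfl
@[simp] theorem smul_al0 : (t • c).al0 = t * c.al0 := rfl
@[simp] theorem smul_al1 : (t • c).al1 = t * c.al1 := rfl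
@[simp] theorem smul_al2 : (t • c).al2 = t * c.al2 := rfl
@[simp] theorem smul_c0 : (t • c).c0 = t * c.c0 := rfl
@[simp] theorem smul_c1 : (t • c).c1 = t * c.c1 := rfl
@[simp] theorem smul_e0 : (t • c).e0 = t * c.e0 := rfl
@[simp] theorem smul_e1 : (t • c).e1 = t * c.e1 := rfl
@[simp] theorem smul_q : (t • c).q = t * c.q := rfl
@[simp] theorem smul_be0 : (t • c).be0 = t * c.be0 := rfl
@[simp] theorem smul_be1 : (t • c).be1 = t * c.be1 := rfl
@[simp] theorem smul_be2 : (t • c).be2 = t * c.be2 := rfl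
@[simp] theorem smul_m1 : (t • c).m1 = t * c.m1 := rfl
@[simp] theorem smul_m2 : (t • c).m2 = t * c.m2 := rfl
@[simp] theorem smul_d0 : (t • c).d0 = t * c.d0 := rfl
@[simp] theorem smul_d1 : (t • c).d1 = t * c.d1 := rfl
@[simp] theorem smul_f0 : (t • c).f0 = t * c.f0 := rfl
@[simp] theorem smul_f1 : (t • c).f1 = t * c.f1 := rfl
@[simp] theorem smul_r : (t • c).r = t * c.r := rfl
@[simp] theorem smul_ga0 : (t • c).ga0 = t * c.ga0 := rfl
@[simp] theorem smul_ga1 : (t • c).ga1 = t * c.ga1 := rfl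
@[simp] theorem smul_de0 : (t • c).de0 = t * c.de0 := rfl
@[simp] theorem smul_de1 : (t • c).de1 = t * c.de1 := rfl
@[simp] theorem smul_n1 : (t • c).n1 = t * c.n1 := rfl
@[simp] theorem smul_o1 : (t • c).o1 = t * c.o1 := rfl
@[simp] theorem smul_s : (t • c).s = t * c.s := rfl
@[simp] theorem smul_gb0 : (t • c).gb0 = t * c.gb0 := rfl
@[simp] theorem smul_gb1 : (t • c).gb1 = t * c.gb1 := rfl
@[simp] theorem smul_db0 : (t • c).db0 = t * c.db0 := rfl
@[simp] theorem smul_db1 : (t • c).db1 = t * c.db1 := rfl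
@[simp] theorem smul_nb : (t • c).nb = t * c.nb := rfl
@[simp] theorem smul_ob : (t • c).ob = t * c.ob := rfl
@[simp] theorem smul_sb : (t • c).sb = t * c.sb := rfl
@[simp] theorem smul_ph : (t • c).ph = t * c.ph := rfl
@[simp] theorem smul_ch : (t • c).ch = t * c.ch := rfl
@[simp] theorem smul_et : (t • c).et = t * c.et := rfl
@[simp] theorem smul_eb : (t • c).eb = t * c.eb := rfl

end simps

theorem B_add (c d : Par k) : B (c + d) = B c + B d := by
  refine ext_V fun x => ?_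
  rw [add_mulVec, B_V, B_V, B_V]
  funext i
  fin_cases i <;> simp <;> ring

theorem B_smul (t : k) (c : Par k) : B (t • c) = t • B c := by
  refine ext_V fun x => ?_
  rw [smul_mulVec, B_V, B_V]
  funext i
  fin_cases i <;> simp <;> ring

theorem B_inj {c d : Par k} (h : B c = B d) : c = d := by
  have key : ∀ x, B c *ᵥ x = B d *ᵥ x := fun x => by rw [h]
  simp only [B_V] at key
  have hv := key ![1, 0, 0, 0, 0, 0, 0, 0, 0, 0, 0, 0]
  have hu := key ![0, 0, 0, 0, 1, 0, 0, 0, 0, 0, 0, 0]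
  have hw := key ![0, 0, 0, 0, 0, 0, 0, 1, 0, 0, 0, 0]
  have hz := key ![0, 0, 0, 0, 0, 0, 0, 0, 0, 1, 0, 0]
  have hp := key ![0, 0, 0, 0, 0, 0, 0, 0, 0, 0, 0, 1]
  refine Par.ext ?_ ?_ ?_ ?_ ?_ ?_ ?_ ?_ ?_ ?_ ?_ ?_ ?_ ?_ ?_ ?_ ?_ ?_ ?_ ?_ ?_ ?_ ?_ ?_ ?_ ?_ ?_ ?_ ?_ ?_ ?_ ?_ ?_ ?_ ?_ ?_
  · simpa using congrFun hv 4
  · simpa using congrFun hv 5
  · simpa using congrFun hv 6
  · simpa using congrFun hv 7
  · simpa using congrFun hv 8
  · simpa using congrFun hv 9
  · simpa using congrFun hv 10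
  · simpa using congrFun hv 11
  · simpa using congrFun hu 1
  · simpa using congrFun hu 2
  · simpa using congrFun hu 3
  · simpa using congrFun hu 5
  · simpa using congrFun hu 6
  · simpa using congrFun hu 7
  · simpa using congrFun hu 8
  · simpa using congrFun hu 9
  · simpa using congrFun hu 10
  · simpa using congrFun hu 11
  · simpa using congrFun hw 2
  · simpa using congrFun hw 3
  · simpa using congrFun hw 5
  · simpa using congrFun hw 6
  · simpa using congrFun hw 8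
  · simpa using congrFun hw 10
  · simpa using congrFun hw 11
  · simpa using congrFun hz 2
  · simpa using congrFun hz 3
  · simpa using congrFun hz 5
  · simpa using congrFun hz 6
  · simpa using congrFun hz 8
  · simpa using congrFun hz 10
  · simpa using congrFun hz 11
  · simpa using congrFun hp 3
  · simpa using congrFun hp 6
  · simpa using congrFun hp 8
  · simpa using congrFun hp 10

/-- the parameters of `J * B c` -/
def sh (c : Par k) : Par k :=
  ⟨0, c.al0, c.al1, 0, c.c0, 0, c.e0, 0, 0, c.be0, c.be1, 0, c.m1, 0, c.d0, 0, c.f0, 0, 0,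
    c.ga0, 0, c.de0, 0, 0, 0, 0, c.gb0, 0, c.db0, 0, 0, 0, 0, 0, 0, 0⟩

theorem J_B (c : Par k) : J k * B c = B (sh c) := by
  refine ext_V fun x => ?_
  rw [← mulVec_mulVec, B_V, B_V, J_V]
  funext i
  fin_cases i <;> simp [sh]

/-- the parameters of the transposed matrix -/
def dual (c : Par k) : Par k :=
  ⟨c.be0, c.be1, c.be2, c.ga0, c.ga1, c.gb0, c.gb1, c.ph, c.al0, c.al1, c.al2, c.m1, c.m2,
    c.de0, c.de1, c.db0, c.db1, c.ch, c.c0, c.c1, c.d0, c.d1, c.n1, c.nb, c.et, c.e0, c.e1,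
    c.f0, c.f1, c.o1, c.ob, c.eb, c.q, c.r, c.s, c.sb⟩

theorem dual_dual (c : Par k) : dual (dual c) = c := rfl

/-- the bijection which reverses the blocks -/
def rev : Ix ≃ Ix where
  toFun := ![3, 2, 1, 0, 6, 5, 4, 8, 7, 10, 9, 11]
  invFun := ![3, 2, 1, 0, 6, 5, 4, 8, 7, 10, 9, 11]
  left_inv := by
    intro i
    fin_cases i <;> rfl
  right_inv := by
    intro i
    fin_cases i <;> rfl

theorem rev_B (c : Par k) :
    Matrix.reindexAlgEquiv k k rev (B c)ᵀ = B (dual c) := by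
  ext i j
  fin_cases i <;> fin_cases j <;> simp [rev, B, dual, transpose_apply]

theorem rev_J : Matrix.reindexAlgEquiv k k rev (J k)ᵀ = J k := by
  ext i j
  fin_cases i <;> fin_cases j <;> simp [rev, J, transpose_apply]

theorem MaxR.dual [Infinite k] {ρ : ℕ → ℕ} {c c' : Par k} (hT : MaxR ρ ![J k, B c, B c']) :
    MaxR ρ ![J k, B (dual c), B (dual c')] := by
  have h := D9.MaxR.reindex rev hT.transpose
  have e : (fun i => Matrix.reindexAlgEquiv k k rev ((![J k, B c, B c'] i)ᵀ)) =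
      ![J k, B (F43221.dual c), B (F43221.dual c')] := by
    funext i
    fin_cases i
    · exact rev_J
    · exact rev_B c
    · exact rev_B c'
  rwa [e] at h

end Pool.Agent.Lib.D13.F43221
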