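import Pool.Agent.Lib.D13.F43221

/-!
# MP_5dcbc3_ag: the relations of type `(4, 3, 2, 2, 1)`

`B c * B c' = B c' * B c` if and only if the 29 relations `Rel c c'` hold; `v_u1` is the coordinate
`u1` of the images of the generator `v0`, and so on.
-/

set_option autoImplicit false

namespace Pool.Agent.Lib.D13.F43221

open Matrix Pool.Agent.Lib.Q5dc Pool.Agent.Lib.D7

variable {k : Type*} [Field k]

/-- the relations equivalent to `B c * B c' = B c' * B c` -/
structure Rel (c c' : Par k) : Prop where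
  v_v1 : c.be0 * c'.al0 = c'.be0 * c.al0
  v_v2 : c.be1 * c'.al0 + c.be0 * c'.al1 + c.ga0 * c'.c0 + c.gb0 * c'.e0 = c'.be1 * c.al0 +
    c'.be0 * c.al1 + c'.ga0 * c.c0 + c'.gb0 * c.e0
  v_v3 : c.be2 * c'.al0 + c.be1 * c'.al1 + c.be0 * c'.al2 + c.ga1 * c'.c0 + c.ga0 * c'.c1 +
    c.gb1 * c'.e0 + c.gb0 * c'.e1 + c.ph * c'.q = c'.be2 * c.al0 + c'.be1 * c.al1 + c'.be0 *
    c.al2 + c'.ga1 * c.c0 + c'.ga0 * c.c1 + c'.gb1 * c.e0 + c'.gb0 * c.e1 + c'.ph * c.q
  v_u1 : c.m1 * c'.al0 + c.de0 * c'.c0 + c.db0 * c'.e0 = c'.m1 * c.al0 + c'.de0 * c.c0 + c'.db0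
    * c.e0
  v_u2 : c.m2 * c'.al0 + c.m1 * c'.al1 + c.de1 * c'.c0 + c.de0 * c'.c1 + c.db1 * c'.e0 + c.db0
    * c'.e1 + c.ch * c'.q = c'.m2 * c.al0 + c'.m1 * c.al1 + c'.de1 * c.c0 + c'.de0 * c.c1 +
    c'.db1 * c.e0 + c'.db0 * c.e1 + c'.ch * c.q
  v_w0 : c.d0 * c'.al0 = c'.d0 * c.al0
  v_w1 : c.d1 * c'.al0 + c.d0 * c'.al1 + c.n1 * c'.c0 + c.nb * c'.e0 + c.et * c'.q = c'.d1 *
    c.al0 + c'.d0 * c.al1 + c'.n1 * c.c0 + c'.nb * c.e0 + c'.et * c.q
  v_z0 : c.f0 * c'.al0 = c'.f0 * c.al0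
  v_z1 : c.f1 * c'.al0 + c.f0 * c'.al1 + c.o1 * c'.c0 + c.ob * c'.e0 + c.eb * c'.q = c'.f1 *
    c.al0 + c'.f0 * c.al1 + c'.o1 * c.c0 + c'.ob * c.e0 + c'.eb * c.q
  v_p : c.r * c'.al0 + c.s * c'.c0 + c.sb * c'.e0 = c'.r * c.al0 + c'.s * c.c0 + c'.sb * c.e0
  u_v2 : c.be0 * c'.m1 + c.ga0 * c'.d0 + c.gb0 * c'.f0 = c'.be0 * c.m1 + c'.ga0 * c.d0 + c'.gb0
    * c.f0
  u_v3 : c.be1 * c'.m1 + c.be0 * c'.m2 + c.ga1 * c'.d0 + c.ga0 * c'.d1 + c.gb1 * c'.f0 + c.gb0
    * c'.f1 + c.ph * c'.r = c'.be1 * c.m1 + c'.be0 * c.m2 + c'.ga1 * c.d0 + c'.ga0 * c.d1 +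
    c'.gb1 * c.f0 + c'.gb0 * c.f1 + c'.ph * c.r
  u_u1 : c.al0 * c'.be0 + c.de0 * c'.d0 + c.db0 * c'.f0 = c'.al0 * c.be0 + c'.de0 * c.d0 +
    c'.db0 * c.f0
  u_u2 : c.al1 * c'.be0 + c.al0 * c'.be1 + c.m1 * c'.m1 + c.de1 * c'.d0 + c.de0 * c'.d1 + c.db1
    * c'.f0 + c.db0 * c'.f1 + c.ch * c'.r = c'.al1 * c.be0 + c'.al0 * c.be1 + c'.m1 * c.m1 +
    c'.de1 * c.d0 + c'.de0 * c.d1 + c'.db1 * c.f0 + c'.db0 * c.f1 + c'.ch * c.r
  u_w1 : c.c0 * c'.be0 + c.d0 * c'.m1 + c.n1 * c'.d0 + c.nb * c'.f0 + c.et * c'.r = c'.c0 *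
    c.be0 + c'.d0 * c.m1 + c'.n1 * c.d0 + c'.nb * c.f0 + c'.et * c.r
  u_z1 : c.e0 * c'.be0 + c.f0 * c'.m1 + c.o1 * c'.d0 + c.ob * c'.f0 + c.eb * c'.r = c'.e0 *
    c.be0 + c'.f0 * c.m1 + c'.o1 * c.d0 + c'.ob * c.f0 + c'.eb * c.r
  u_p : c.s * c'.d0 + c.sb * c'.f0 = c'.s * c.d0 + c'.sb * c.f0
  w_v2 : c.be0 * c'.de0 = c'.be0 * c.de0
  w_v3 : c.be1 * c'.de0 + c.be0 * c'.de1 + c.ga0 * c'.n1 + c.gb0 * c'.o1 + c.ph * c'.s = c'.be1
    * c.de0 + c'.be0 * c.de1 + c'.ga0 * c.n1 + c'.gb0 * c.o1 + c'.ph * c.s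
  w_u2 : c.al0 * c'.ga0 + c.m1 * c'.de0 + c.de0 * c'.n1 + c.db0 * c'.o1 + c.ch * c'.s = c'.al0
    * c.ga0 + c'.m1 * c.de0 + c'.de0 * c.n1 + c'.db0 * c.o1 + c'.ch * c.s
  w_w1 : c.d0 * c'.de0 + c.et * c'.s = c'.d0 * c.de0 + c'.et * c.s
  w_z1 : c.f0 * c'.de0 + c.eb * c'.s = c'.f0 * c.de0 + c'.eb * c.s
  z_v2 : c.be0 * c'.db0 = c'.be0 * c.db0
  z_v3 : c.be1 * c'.db0 + c.be0 * c'.db1 + c.ga0 * c'.nb + c.gb0 * c'.ob + c.ph * c'.sb =
    c'.be1 * c.db0 + c'.be0 * c.db1 + c'.ga0 * c.nb + c'.gb0 * c.ob + c'.ph * c.sb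
  z_u2 : c.al0 * c'.gb0 + c.m1 * c'.db0 + c.de0 * c'.nb + c.db0 * c'.ob + c.ch * c'.sb = c'.al0
    * c.gb0 + c'.m1 * c.db0 + c'.de0 * c.nb + c'.db0 * c.ob + c'.ch * c.sb
  z_w1 : c.d0 * c'.db0 + c.et * c'.sb = c'.d0 * c.db0 + c'.et * c.sb
  z_z1 : c.f0 * c'.db0 + c.eb * c'.sb = c'.f0 * c.db0 + c'.eb * c.sb
  p_v3 : c.be0 * c'.ch + c.ga0 * c'.et + c.gb0 * c'.eb = c'.be0 * c.ch + c'.ga0 * c.et + c'.gb0
    * c.eb
  p_u2 : c.de0 * c'.et + c.db0 * c'.eb = c'.de0 * c.et + c'.db0 * c.eb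

theorem comm_of_rel {c c' : Par k} (h : Rel c c') : B c * B c' = B c' * B c := by
  refine ext_gen ?_ ?_ ?_ ?_ ?_ ?_ ?_
  · rw [mul_assoc, B_comm_J, ← mul_assoc, B_comm_J, mul_assoc]
  · rw [mul_assoc, B_comm_J, ← mul_assoc, B_comm_J, mul_assoc]
  · rw [← mulVec_mulVec, ← mulVec_mulVec, B_V, B_V, B_V, B_V]
    funext i
    fin_cases i <;> simp
    · linear_combination h.v_v1
    · linear_combination h.v_v2
    · linear_combination h.v_v3
    · linear_combination h.v_u1
    · linear_combination h.v_u2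
    · linear_combination h.v_w0
    · linear_combination h.v_w1
    · linear_combination h.v_z0
    · linear_combination h.v_z1
    · linear_combination h.v_p
  · rw [← mulVec_mulVec, ← mulVec_mulVec, B_V, B_V, B_V, B_V]
    funext i
    fin_cases i <;> simp
    · linear_combination h.u_v2
    · linear_combination h.u_v3
    · linear_combination h.u_u1
    · linear_combination h.u_u2
    · linear_combination h.u_w1
    · linear_combination h.u_z1
    · linear_combination h.u_p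
  · rw [← mulVec_mulVec, ← mulVec_mulVec, B_V, B_V, B_V, B_V]
    funext i
    fin_cases i <;> simp
    · linear_combination h.w_v2
    · linear_combination h.w_v3
    · linear_combination h.w_u2
    · linear_combination h.w_w1
    · linear_combination h.w_z1
  · rw [← mulVec_mulVec, ← mulVec_mulVec, B_V, B_V, B_V, B_V]
    funext i
    fin_cases i <;> simp
    · linear_combination h.z_v2
    · linear_combination h.z_v3
    · linear_combination h.z_u2
    · linear_combination h.z_w1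
    · linear_combination h.z_z1
  · rw [← mulVec_mulVec, ← mulVec_mulVec, B_V, B_V, B_V, B_V]
    funext i
    fin_cases i <;> simp
    · linear_combination h.p_v3
    · linear_combination h.p_u2

theorem rel_of_comm {c c' : Par k} (h : B c * B c' = B c' * B c) : Rel c c' := by
  have key : ∀ x, B c *ᵥ (B c' *ᵥ x) = B c' *ᵥ (B c *ᵥ x) := by
    intro x
    rw [mulVec_mulVec, mulVec_mulVec, h]
  simp only [B_V] at key
  have hv := key ![1, 0, 0, 0, 0, 0, 0, 0, 0, 0, 0, 0]
  have hu := key ![0, 0, 0, 0, 1, 0, 0, 0, 0, 0, 0, 0]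
  have hw := key ![0, 0, 0, 0, 0, 0, 0, 1, 0, 0, 0, 0]
  have hz := key ![0, 0, 0, 0, 0, 0, 0, 0, 0, 1, 0, 0]
  have hp := key ![0, 0, 0, 0, 0, 0, 0, 0, 0, 0, 0, 1]
  refine ⟨?_, ?_, ?_, ?_, ?_, ?_, ?_, ?_, ?_, ?_, ?_, ?_, ?_, ?_, ?_, ?_, ?_, ?_, ?_, ?_, ?_, ?_, ?_, ?_, ?_, ?_, ?_, ?_, ?_⟩
  · have := congrFun hv 1
    simp at this
    linear_combination this
  · have := congrFun hv 2
    simp at this
    linear_combination this
  · have := congrFun hv 3
    simp at this
    linear_combination this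
  · have := congrFun hv 5
    simp at this
    linear_combination this
  · have := congrFun hv 6
    simp at this
    linear_combination this
  · have := congrFun hv 7
    simp at this
    linear_combination this
  · have := congrFun hv 8
    simp at this
    linear_combination this
  · have := congrFun hv 9
    simp at this
    linear_combination this
  · have := congrFun hv 10
    simp at this
    linear_combination this
  · have := congrFun hv 11
    simp at this
    linear_combination this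
  · have := congrFun hu 2
    simp at this
    linear_combination this
  · have := congrFun hu 3
    simp at this
    linear_combination this
  · have := congrFun hu 5
    simp at this
    linear_combination this
  · have := congrFun hu 6
    simp at this
    linear_combination this
  · have := congrFun hu 8
    simp at this
    linear_combination this
  · have := congrFun hu 10
    simp at this
    linear_combination this
  · have := congrFun hu 11
    simp at this
    linear_combination this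
  · have := congrFun hw 2
    simp at this
    linear_combination this
  · have := congrFun hw 3
    simp at this
    linear_combination this
  · have := congrFun hw 6
    simp at this
    linear_combination this
  · have := congrFun hw 8
    simp at this
    linear_combination this
  · have := congrFun hw 10
    simp at this
    linear_combination this
  · have := congrFun hz 2
    simp at this
    linear_combination this
  · have := congrFun hz 3
    simp at this
    linear_combination this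
  · have := congrFun hz 6
    simp at this
    linear_combination this
  · have := congrFun hz 8
    simp at this
    linear_combination this
  · have := congrFun hz 10
    simp at this
    linear_combination this
  · have := congrFun hp 3
    simp at this
    linear_combination this
  · have := congrFun hp 6
    simp at this
    linear_combination this

/-- weights of the basis vectors -/
def wt : Ix → ℕ := ![0, 6, 12, 18, 2, 8, 14, 4, 10, 4, 10, 5]

theorem B_nilp (c : Par k) : IsNilpotent (B c) := by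
  refine isNilpotent_of_weight _ wt fun i j hij => ?_
  revert hij
  fin_cases i <;> fin_cases j <;> simp [wt, B]

theorem J_nilp : IsNilpotent (J k) := by
  refine isNilpotent_of_weight _ wt fun i j hij => ?_
  revert hij
  fin_cases i <;> fin_cases j <;> simp [wt, J]

theorem cn_of_rel {c c' : Par k} (h : Rel c c') : CN ![J k, B c, B c'] :=
  D8.cn3 (B_comm_J c).symm (B_comm_J c').symm (comm_of_rel h) J_nilp (B_nilp c) (B_nilp c')

end Pool.Agent.Lib.D13.F43221
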