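import Pool.Agent.Lib.D13.F43221M

/-!
# MP_5dcbc3_ag: type `(4, 3, 2, 2, 1)`: shape lemma, normal form of a maximal triple, ranks
-/

set_option autoImplicit false

namespace Pool.Agent.Lib.D13.F43221

open Matrix Pool.Agent.Lib.Q5dc Pool.Agent.Lib.D7

variable {k : Type*} [Field k]

theorem nil_eig {n : Type*} [Fintype n] [DecidableEq n] {X : Matrix n n k} (hX : IsNilpotent X)
    {v : n → k} (hv : v ≠ 0) {a : k} (h : X *ᵥ v = a • v) : a = 0 := by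
  obtain ⟨N, hN⟩ := hX
  have key : ∀ m : ℕ, (X ^ m) *ᵥ v = a ^ m • v := by
    intro m
    induction m with
    | zero => simp
    | succ m ih => rw [pow_succ', ← mulVec_mulVec, ih, mulVec_smul, h, smul_smul, pow_succ]
  have h1 := key N
  rw [hN, zero_mulVec] at h1
  rcases smul_eq_zero.1 h1.symm with h2 | h2
  · exact eq_zero_of_pow_eq_zero h2
  · exact absurd h2 hv

/-- matrices commuting with `J` -/
theorem shape {X : Matrix Ix Ix k} (hX : X * J k = J k * X) (hn : IsNilpotent X)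
    (hw : ∃ m, J k *ᵥ (X *ᵥ ![0, 0, 0, 0, 0, 0, 0, 1, 0, 0, 0, 0]) = J k *ᵥ (J k *ᵥ m))
    (hz : ∃ m, J k *ᵥ (X *ᵥ ![0, 0, 0, 0, 0, 0, 0, 0, 0, 1, 0, 0]) = J k *ᵥ (J k *ᵥ m))
    (hp : ∃ m, X *ᵥ ![0, 0, 0, 0, 0, 0, 0, 0, 0, 0, 0, 1] = J k *ᵥ m) :
    ∃ (c : Par k) (a1 a2 a3 : k),
      X = a1 • J k + a2 • (J k * J k) + a3 • (J k * (J k * J k)) + B c := by
  have hJ : ∀ v, X *ᵥ (J k *ᵥ v) = J k *ᵥ (X *ᵥ v) := fun v => by
    rw [mulVec_mulVec, mulVec_mulVec, hX]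
  obtain ⟨a, h0⟩ : ∃ a, X *ᵥ ![1, 0, 0, 0, 0, 0, 0, 0, 0, 0, 0, 0] = a := ⟨_, rfl⟩
  obtain ⟨b, h4⟩ : ∃ a, X *ᵥ ![0, 0, 0, 0, 1, 0, 0, 0, 0, 0, 0, 0] = a := ⟨_, rfl⟩
  obtain ⟨c, h7⟩ : ∃ a, X *ᵥ ![0, 0, 0, 0, 0, 0, 0, 1, 0, 0, 0, 0] = a := ⟨_, rfl⟩
  obtain ⟨d, h9⟩ : ∃ a, X *ᵥ ![0, 0, 0, 0, 0, 0, 0, 0, 0, 1, 0, 0] = a := ⟨_, rfl⟩
  obtain ⟨f, h11⟩ : ∃ a, X *ᵥ ![0, 0, 0, 0, 0, 0, 0, 0, 0, 0, 0, 1] = a := ⟨_, rfl⟩
  have z0 : (![0, 0, 0, 0, 0, 0, 0, 0, 0, 0, 0, 0] : Ix → k) = 0 := by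
    funext i
    fin_cases i <;> rfl
  -- the other basis vectors
  have h3 : X *ᵥ ![0, 0, 0, 1, 0, 0, 0, 0, 0, 0, 0, 0] = J k *ᵥ (J k *ᵥ (J k *ᵥ a)) := by
    rw [← h0, ← hJ, ← hJ, ← hJ]
    simp only [J_V]
    simp
  have h6 : X *ᵥ ![0, 0, 0, 0, 0, 0, 1, 0, 0, 0, 0, 0] = J k *ᵥ (J k *ᵥ b) := by
    rw [← h4, ← hJ, ← hJ]
    simp only [J_V]
    simp
  have q4 : J k *ᵥ (J k *ᵥ (J k *ᵥ b)) = 0 := by
    rw [← h4, ← hJ, ← hJ, ← hJ]
    simp only [J_V]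
    simp [z0]
  have q7 : J k *ᵥ (J k *ᵥ c) = 0 := by
    rw [← h7, ← hJ, ← hJ]
    simp only [J_V]
    simp [z0]
  have q9 : J k *ᵥ (J k *ᵥ d) = 0 := by
    rw [← h9, ← hJ, ← hJ]
    simp only [J_V]
    simp [z0]
  have q11 : J k *ᵥ f = 0 := by
    rw [← h11, ← hJ]
    simp only [J_V]
    simp [z0]
  simp only [J_V] at h3 h6 q4 q7 q9 q11
  have b0 : b 0 = 0 := by simpa using congrFun q4 3
  have c0 : c 0 = 0 := by simpa using congrFun q7 2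
  have c1 : c 1 = 0 := by simpa using congrFun q7 3
  have c4 : c 4 = 0 := by simpa using congrFun q7 6
  have d0 : d 0 = 0 := by simpa using congrFun q9 2
  have d1 : d 1 = 0 := by simpa using congrFun q9 3
  have d4 : d 4 = 0 := by simpa using congrFun q9 6
  have f0 : f 0 = 0 := by simpa using congrFun q11 1
  have f1 : f 1 = 0 := by simpa using congrFun q11 2
  have f2 : f 2 = 0 := by simpa using congrFun q11 3
  have f4 : f 4 = 0 := by simpa using congrFun q11 5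
  have f5 : f 5 = 0 := by simpa using congrFun q11 6
  have f7 : f 7 = 0 := by simpa using congrFun q11 8
  have f9 : f 9 = 0 := by simpa using congrFun q11 10
  have c79 : c 7 = 0 ∧ c 9 = 0 := by
    obtain ⟨m, hm⟩ := hw
    rw [h7] at hm
    simp only [J_V] at hm
    exact ⟨by simpa using congrFun hm 8, by simpa using congrFun hm 10⟩
  have d79 : d 7 = 0 ∧ d 9 = 0 := by
    obtain ⟨m, hm⟩ := hz
    rw [h9] at hm
    simp only [J_V] at hm
    exact ⟨by simpa using congrFun hm 8, by simpa using congrFun hm 10⟩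
  have f11 : f 11 = 0 := by
    obtain ⟨m, hm⟩ := hp
    rw [h11] at hm
    simp only [J_V] at hm
    simpa using congrFun hm 11
  have a0 : a 0 = 0 := by
    refine nil_eig hn (v := ![0, 0, 0, 1, 0, 0, 0, 0, 0, 0, 0, 0]) ?_ ?_
    · intro h
      have := congrFun h 3
      simp at this
    · rw [h3]
      funext i
      fin_cases i <;> simp
  have b4 : b 4 = 0 := by
    by_contra hb
    refine hb (nil_eig hn (v := ![0, 0, 0, b 1 / b 4, 0, 0, 1, 0, 0, 0, 0, 0]) ?_ ?_)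
    · intro h
      have := congrFun h 6
      simp at this
    · have e : (![0, 0, 0, b 1 / b 4, 0, 0, 1, 0, 0, 0, 0, 0] : Ix → k) =
          (b 1 / b 4) • ![0, 0, 0, 1, 0, 0, 0, 0, 0, 0, 0, 0] + ![0, 0, 0, 0, 0, 0, 1, 0, 0, 0, 0, 0] := by
        funext i
        fin_cases i <;> simp
      rw [e, mulVec_add, mulVec_smul, h3, h6]
      funext i
      fin_cases i <;> simp [a0, b0]
      field_simp
  refine ⟨⟨a 4, a 5, a 6, a 7, a 8, a 9, a 10, a 11, b 1, b 2, b 3, b 5 - a 1, b 6 - a 2, b 7,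
    b 8, b 9, b 10, b 11, c 2, c 3, c 5, c 6, c 8 - a 1, c 10, c 11, d 2, d 3, d 5, d 6, d 8, d
    10 - a 1, d 11, f 3, f 6, f 8, f 10⟩, a 1, a 2, a 3, ?_⟩
  refine ext_gen hX ?_ ?_ ?_ ?_ ?_ ?_
  · simp only [add_mul, mul_add, smul_mul_assoc, mul_smul_comm, B_comm_J, mul_assoc]
  · rw [h0]
    simp only [add_mulVec, smul_mulVec, ← mulVec_mulVec, J_V, B_V]
    funext i
    fin_cases i <;> simp [a0]
  · rw [h4]
    simp only [add_mulVec, smul_mulVec, ← mulVec_mulVec, J_V, B_V]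
    funext i
    fin_cases i <;> simp [b0, b4]
  · rw [h7]
    simp only [add_mulVec, smul_mulVec, ← mulVec_mulVec, J_V, B_V]
    funext i
    fin_cases i <;> simp [c0, c1, c4, c79.1, c79.2]
  · rw [h9]
    simp only [add_mulVec, smul_mulVec, ← mulVec_mulVec, J_V, B_V]
    funext i
    fin_cases i <;> simp [d0, d1, d4, d79.1, d79.2]
  · rw [h11]
    simp only [add_mulVec, smul_mulVec, ← mulVec_mulVec, J_V, B_V]
    funext i
    fin_cases i <;> simp [f0, f1, f2, f4, f5, f7, f9, f11]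

variable {ρ : ℕ → ℕ}

theorem norm' [CharZero k] {X X' : Matrix Ix Ix k} (hT : MaxR ρ ![J k, X, X'])
    (h1 : (J k).rank = ρ 1) (h2 : (J k ^ 2).rank = ρ 2) :
    ∃ (c c' : Par k) (a1 a2 a3 b1 b2 b3 : k),
      X = a1 • J k + a2 • (J k * J k) + a3 • (J k * (J k * J k)) + B c ∧
      X' = b1 • J k + b2 • (J k * J k) + b3 • (J k * (J k * J k)) + B c' ∧
      MaxR ρ ![J k, B c, B c'] := by
  have z0 : (![0, 0, 0, 0, 0, 0, 0, 0, 0, 0, 0, 0] : Ix → k) = 0 := by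
    funext i
    fin_cases i <;> rfl
  have hP : ∀ Y ∈ adj ![J k, X, X'], ∃ m, Y *ᵥ ![0, 0, 0, 0, 0, 0, 0, 0, 0, 0, 0, 1] = J k *ᵥ m := by
    intro Y hY
    obtain ⟨m, hm⟩ := MaxR.rk1 hT (D8.mem0 _ _ _) h1 hY (a := ![0, 0, 0, 0, 0, 0, 0, 0, 0, 0, 0, 1]) (by
      rw [J_V]
      simp [z0])
    exact ⟨m, hm.symm⟩
  have hQ : ∀ Y ∈ adj ![J k, X, X'], ∀ q : Ix → k, J k *ᵥ (J k *ᵥ q) = 0 →
      ∃ m, J k *ᵥ (Y *ᵥ q) = J k *ᵥ (J k *ᵥ m) := by
    intro Y hY q hq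
    have hr : ∀ s : k, ((J k + s • Y) ^ 2).rank ≤ (J k ^ 2).rank := fun s => by
      rw [h2]
      exact hT.rank_le (add_mem (D8.mem0 _ _ _) (SMulMemClass.smul_mem s hY)) 2
    obtain ⟨m, hm⟩ := sq_first hr (q := q) (by rw [← mulVec_mulVec, hq])
    have hc : Y * J k = J k * Y := hT.cn.comm hY (D8.mem0 _ _ _)
    rw [hc, ← two_smul k, smul_mulVec, ← mulVec_mulVec, ← mulVec_mulVec] at hm
    refine ⟨(2 : k)⁻¹ • m, ?_⟩
    rw [mulVec_smul, mulVec_smul, ← hm, smul_smul, inv_mul_cancel₀ two_ne_zero, one_smul]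
  have hw : J k *ᵥ (J k *ᵥ ![0, 0, 0, 0, 0, 0, 0, 1, 0, 0, 0, 0]) = 0 := by
    simp only [J_V]
    simp [z0]
  have hz : J k *ᵥ (J k *ᵥ ![0, 0, 0, 0, 0, 0, 0, 0, 0, 1, 0, 0]) = 0 := by
    simp only [J_V]
    simp [z0]
  obtain ⟨c, a1, a2, a3, hc⟩ := shape (X := X) (hT.cn.1 1 0) (hT.cn.2 1)
    (hQ _ (D8.mem1 _ _ _) _ hw) (hQ _ (D8.mem1 _ _ _) _ hz) (hP _ (D8.mem1 _ _ _))
  obtain ⟨c', b1, b2, b3, hc'⟩ := shape (X := X') (hT.cn.1 2 0) (hT.cn.2 2)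
    (hQ _ (D8.mem2 _ _ _) _ hw) (hQ _ (D8.mem2 _ _ _) _ hz) (hP _ (D8.mem2 _ _ _))
  refine ⟨c, c', a1, a2, a3, b1, b2, b3, hc, hc', ?_⟩
  have hJ : ∀ Y Y' : Matrix Ix Ix k, ∀ x y z : k, x • J k + y • (J k * J k) +
      z • (J k * (J k * J k)) ∈ adj ![J k, Y, Y'] := by
    intro Y Y' x y z
    have h0 : J k ∈ adj ![J k, Y, Y'] := D8.mem0 _ _ _
    exact add_mem (add_mem (SMulMemClass.smul_mem _ h0)
      (SMulMemClass.smul_mem _ (mul_mem h0 h0)))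
      (SMulMemClass.smul_mem _ (mul_mem h0 (mul_mem h0 h0)))
  refine D8.MaxR.change3 hT ?_ ?_ ?_ ?_
  · have e : B c = X - (a1 • J k + a2 • (J k * J k) + a3 • (J k * (J k * J k))) := by
      rw [hc]
      abel
    rw [e]
    exact sub_mem (D8.mem1 _ _ _) (hJ _ _ _ _ _)
  · have e : B c' = X' - (b1 • J k + b2 • (J k * J k) + b3 • (J k * (J k * J k))) := by
      rw [hc']
      abel
    rw [e]
    exact sub_mem (D8.mem2 _ _ _) (hJ _ _ _ _ _)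
  · rw [hc]
    exact add_mem (hJ _ _ _ _ _) (D8.mem1 _ _ _)
  · rw [hc']
    exact add_mem (hJ _ _ _ _ _) (D8.mem2 _ _ _)

theorem norm [CharZero k] {T : Fin 3 → Matrix Ix Ix k} (hT : MaxR ρ T)
    (h1 : (J k).rank = ρ 1) (h2 : (J k ^ 2).rank = ρ 2) (h0 : T 0 = J k) :
    ∃ c c' : Par k, MaxR ρ ![J k, B c, B c'] := by
  have e : T = ![J k, T 1, T 2] := by
    funext i
    fin_cases i
    · exact h0
    · rfl
    · rfl
  rw [e] at hT
  obtain ⟨c, c', -, -, -, -, -, -, -, -, h⟩ := norm' hT h1 h2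
  exact ⟨c, c', h⟩

theorem MaxR.rel {c c' : Par k} (hT : MaxR ρ ![J k, B c, B c']) : Rel c c' :=
  rel_of_comm (hT.cn.1 1 2)

/-- linear changes -/
theorem MaxR.lin {c c' : Par k} (hT : MaxR ρ ![J k, B c, B c']) (x y z w : k)
    (h : x * w - y * z ≠ 0) :
    MaxR ρ ![J k, B (x • c + y • c'), B (z • c + w • c')] := by
  have e1 : B (x • c + y • c') = x • B c + y • B c' := by rw [B_add, B_smul, B_smul]
  have e2 : B (z • c + w • c') = z • B c + w • B c' := by rw [B_add, B_smul, B_smul]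
  refine D8.MaxR.change3 hT ?_ ?_ ?_ ?_
  · rw [e1]
    exact add_mem (SMulMemClass.smul_mem _ (D8.mem1 _ _ _)) (SMulMemClass.smul_mem _ (D8.mem2 _ _ _))
  · rw [e2]
    exact add_mem (SMulMemClass.smul_mem _ (D8.mem1 _ _ _)) (SMulMemClass.smul_mem _ (D8.mem2 _ _ _))
  · have e : B c = (x * w - y * z)⁻¹ • (w • B (x • c + y • c') - y • B (z • c + w • c')) := by
      rw [e1, e2, eq_inv_smul_iff₀ h]
      module
    nth_rewrite 1 [e]
    exact SMulMemClass.smul_mem _ (sub_mem (SMulMemClass.smul_mem _ (D8.mem1 _ _ _))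
      (SMulMemClass.smul_mem _ (D8.mem2 _ _ _)))
  · have e : B c' = (x * w - y * z)⁻¹ • (x • B (z • c + w • c') - z • B (x • c + y • c')) := by
      rw [e1, e2, eq_inv_smul_iff₀ h]
      module
    nth_rewrite 1 [e]
    exact SMulMemClass.smul_mem _ (sub_mem (SMulMemClass.smul_mem _ (D8.mem2 _ _ _))
      (SMulMemClass.smul_mem _ (D8.mem1 _ _ _)))

theorem MaxR.swap' {c c' : Par k} (hT : MaxR ρ ![J k, B c, B c']) :
    MaxR ρ ![J k, B c', B c] := D8.MaxR.swap hT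

/-- multiples of `J * B c` and `J * J * B c` may be added to the third matrix -/
theorem MaxR.shl {c c' : Par k} (hT : MaxR ρ ![J k, B c, B c']) (x y : k) :
    MaxR ρ ![J k, B c, B (c' + (x • sh c + y • sh (sh c)))] := by
  have e2 : B (c' + (x • sh c + y • sh (sh c))) =
      B c' + (x • (J k * B c) + y • (J k * (J k * B c))) := by
    rw [B_add, B_add, B_smul, B_smul, J_B, J_B]
  have hm : ∀ Y, x • (J k * B c) + y • (J k * (J k * B c)) ∈ adj ![J k, B c, Y] :=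
    fun Y => add_mem (SMulMemClass.smul_mem _ (mul_mem (D8.mem0 _ _ _) (D8.mem1 _ _ _)))
      (SMulMemClass.smul_mem _ (mul_mem (D8.mem0 _ _ _)
        (mul_mem (D8.mem0 _ _ _) (D8.mem1 _ _ _))))
  refine D8.MaxR.change3 hT (D8.mem1 _ _ _) ?_ (D8.mem1 _ _ _) ?_
  · rw [e2]
    exact add_mem (D8.mem2 _ _ _) (hm _)
  · have e : B c' = B (c' + (x • sh c + y • sh (sh c))) -
        (x • (J k * B c) + y • (J k * (J k * B c))) := by
      rw [e2]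
      abel
    nth_rewrite 1 [e]
    exact sub_mem (D8.mem2 _ _ _) (hm _)

/-! ### ranks of the powers of `J` -/

theorem J_eq : J k =
    (!![0, 0, 0, 0, 0, 0, 0;
      1, 0, 0, 0, 0, 0, 0;
      0, 1, 0, 0, 0, 0, 0;
      0, 0, 1, 0, 0, 0, 0;
      0, 0, 0, 0, 0, 0, 0;
      0, 0, 0, 1, 0, 0, 0;
      0, 0, 0, 0, 1, 0, 0;
      0, 0, 0, 0, 0, 0, 0;
      0, 0, 0, 0, 0, 1, 0;
      0, 0, 0, 0, 0, 0, 0;
      0, 0, 0, 0, 0, 0, 1;
      0, 0, 0, 0, 0, 0, 0] : Matrix Ix (Fin 7) k) *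
      (!![1, 0, 0, 0, 0, 0, 0, 0, 0, 0, 0, 0;
      0, 1, 0, 0, 0, 0, 0, 0, 0, 0, 0, 0;
      0, 0, 1, 0, 0, 0, 0, 0, 0, 0, 0, 0;
      0, 0, 0, 0, 1, 0, 0, 0, 0, 0, 0, 0;
      0, 0, 0, 0, 0, 1, 0, 0, 0, 0, 0, 0;
      0, 0, 0, 0, 0, 0, 0, 1, 0, 0, 0, 0;
      0, 0, 0, 0, 0, 0, 0, 0, 0, 1, 0, 0] : Matrix (Fin 7) Ix k) := by
  refine ext_V fun x => ?_
  rw [← mulVec_mulVec]
  simp only [J_V]
  funext i
  fin_cases i <;> simp [mulVec, dotProduct, Fin.sum_univ_succ]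

theorem J_sq : J k ^ 2 =
    (!![0, 0, 0;
      0, 0, 0;
      1, 0, 0;
      0, 1, 0;
      0, 0, 0;
      0, 0, 0;
      0, 0, 1;
      0, 0, 0;
      0, 0, 0;
      0, 0, 0;
      0, 0, 0;
      0, 0, 0] : Matrix Ix (Fin 3) k) *
      (!![1, 0, 0, 0, 0, 0, 0, 0, 0, 0, 0, 0;
      0, 1, 0, 0, 0, 0, 0, 0, 0, 0, 0, 0;
      0, 0, 0, 0, 1, 0, 0, 0, 0, 0, 0, 0] : Matrix (Fin 3) Ix k) := by
  refine ext_V fun x => ?_
  rw [pow_two, ← mulVec_mulVec, ← mulVec_mulVec]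
  simp only [J_V]
  funext i
  fin_cases i <;> simp [mulVec, dotProduct, Fin.sum_univ_succ]

theorem J_cube : J k ^ 3 =
    (!![0;
      0;
      0;
      1;
      0;
      0;
      0;
      0;
      0;
      0;
      0;
      0] : Matrix Ix (Fin 1) k) *
      (!![1, 0, 0, 0, 0, 0, 0, 0, 0, 0, 0, 0] : Matrix (Fin 1) Ix k) := by
  refine ext_V fun x => ?_
  rw [pow_succ, pow_two, ← mulVec_mulVec, ← mulVec_mulVec, ← mulVec_mulVec]
  simp only [J_V]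
  funext i
  fin_cases i <;> simp [mulVec, dotProduct, Fin.sum_univ_succ]

theorem J_pow_four : J k ^ 4 = 0 := by
  refine ext_V fun x => ?_
  rw [pow_succ, pow_succ, pow_two, zero_mulVec, ← mulVec_mulVec, ← mulVec_mulVec, ← mulVec_mulVec,
    J_four]

theorem rank_one_le : (J k).rank ≤ 7 := by
  rw [J_eq]
  exact (Matrix.rank_mul_le_left _ _).trans ((Matrix.rank_le_card_width _).trans (by simp))

theorem rank_two_le : (J k ^ 2).rank ≤ 3 := by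
  rw [J_sq]
  exact (Matrix.rank_mul_le_left _ _).trans ((Matrix.rank_le_card_width _).trans (by simp))

theorem rank_three_le : (J k ^ 3).rank ≤ 1 := by
  rw [J_cube]
  exact (Matrix.rank_mul_le_left _ _).trans ((Matrix.rank_le_card_width _).trans (by simp))

theorem rank_four : (J k ^ 4).rank = 0 := by
  rw [J_pow_four, Matrix.rank_zero]

/-- the hypothesis of the final theorem in usable form -/
theorem rho_facts (hρ : ∀ i, ρ i = (J k ^ i).rank) : (J k).rank = ρ 1 ∧ (J k ^ 2).rank = ρ 2 ∧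
    ρ 1 ≤ 7 ∧ ρ 2 ≤ 3 ∧ ρ 3 ≤ 1 ∧ ρ 4 = 0 := by
  have h1 : (J k).rank = ρ 1 := by rw [hρ 1, pow_one]
  refine ⟨h1, (hρ 2).symm, ?_, ?_, ?_, ?_⟩
  · rw [← h1]
    exact rank_one_le
  · rw [hρ 2]
    exact rank_two_le
  · rw [hρ 3]
    exact rank_three_le
  · rw [hρ 4]
    exact rank_four

/-- the form of the final theorem -/
theorem start [CharZero k] {T : Fin 3 → Matrix Ix Ix k} (hT : MaxR ρ T)
    (hρ : ∀ i, ρ i = (J k ^ i).rank) (h0 : T 0 = J k) :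
    ∃ c c' : Par k, MaxR ρ ![J k, B c, B c'] ∧ Rel c c' := by
  obtain ⟨h1, h2, -⟩ := rho_facts hρ
  obtain ⟨c, c', h⟩ := norm hT h1 h2 h0
  exact ⟨c, c', h, MaxR.rel h⟩

/-! ### automorphisms -/

/-- conjugation by an automorphism `g` of the module, `h` its inverse -/
theorem MaxR.conj' {c c' : Par k} (hT : MaxR ρ ![J k, B c, B c']) {g h : Matrix Ix Ix k}
    (hgh : g * h = 1) (hhg : h * g = 1) (hg : g * J k = J k * g) :
    MaxR ρ ![J k, g * B c * h, g * B c' * h] := by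
  have h1 := hT.conj g h hgh hhg
  have e : (fun i => g * (![J k, B c, B c'] : Fin 3 → Matrix Ix Ix k) i * h) =
      ![J k, g * B c * h, g * B c' * h] := by
    funext i
    fin_cases i
    · show g * J k * h = J k
      rw [hg, Matrix.mul_assoc, hgh, Matrix.mul_one]
    · rfl
    · rfl
  rwa [e] at h1

end Pool.Agent.Lib.D13.F43221
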