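import Pool.Agent.Lib.D13.F432R

/-!
# MP_5dcbc3_ag: type `(4, 3, 2, 1^p)`: shape of the commuting matrices, normal form, transposition
-/

namespace Pool.Agent.Lib.D13.F432

open Matrix Pool.Agent.Lib.Q5dc Pool.Agent.Lib.D7

variable {k : Type*} [Field k] {p : ℕ}

instance : Add (Par k p) := ⟨fun c d => ⟨c.al0 + d.al0, c.al1 + d.al1, c.al2 + d.al2, c.c0 + d.c0,
  c.c1 + d.c1, c.q + d.q, c.be0 + d.be0, c.be1 + d.be1, c.be2 + d.be2, c.m1 + d.m1, c.m2 + d.m2,
  c.d0 + d.d0, c.d1 + d.d1, c.r + d.r, c.ga0 + d.ga0, c.ga1 + d.ga1, c.de0 + d.de0, c.de1 + d.de1,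
  c.n1 + d.n1, c.s + d.s, c.ph + d.ph, c.ch + d.ch, c.et + d.et⟩⟩

instance : SMul k (Par k p) := ⟨fun t c => ⟨t * c.al0, t * c.al1, t * c.al2, t * c.c0, t * c.c1,
  t • c.q, t * c.be0, t * c.be1, t * c.be2, t * c.m1, t * c.m2, t * c.d0, t * c.d1, t • c.r,
  t * c.ga0, t * c.ga1, t * c.de0, t * c.de1, t * c.n1, t • c.s, t • c.ph, t • c.ch, t • c.et⟩⟩

section simps

variable (c d : Par k p) (t : k)

@[simp] theorem add_al0 : (c + d).al0 = c.al0 + d.al0 := rfl
@[simp] theorem add_al1 : (c + d).al1 = c.al1 + d.al1 := rfl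
@[simp] theorem add_al2 : (c + d).al2 = c.al2 + d.al2 := rfl
@[simp] theorem add_c0 : (c + d).c0 = c.c0 + d.c0 := rfl
@[simp] theorem add_c1 : (c + d).c1 = c.c1 + d.c1 := rfl
@[simp] theorem add_q : (c + d).q = c.q + d.q := rfl
@[simp] theorem add_be0 : (c + d).be0 = c.be0 + d.be0 := rfl
@[simp] theorem add_be1 : (c + d).be1 = c.be1 + d.be1 := rfl
@[simp] theorem add_be2 : (c + d).be2 = c.be2 + d.be2 := rfl
@[simp] theorem add_m1 : (c + d).m1 = c.m1 + d.m1 := rfl
@[simp] theorem add_m2 : (c + d).m2 = c.m2 + d.m2 := rfl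
@[simp] theorem add_d0 : (c + d).d0 = c.d0 + d.d0 := rfl
@[simp] theorem add_d1 : (c + d).d1 = c.d1 + d.d1 := rfl
@[simp] theorem add_r : (c + d).r = c.r + d.r := rfl
@[simp] theorem add_ga0 : (c + d).ga0 = c.ga0 + d.ga0 := rfl
@[simp] theorem add_ga1 : (c + d).ga1 = c.ga1 + d.ga1 := rfl
@[simp] theorem add_de0 : (c + d).de0 = c.de0 + d.de0 := rfl
@[simp] theorem add_de1 : (c + d).de1 = c.de1 + d.de1 := rfl
@[simp] theorem add_n1 : (c + d).n1 = c.n1 + d.n1 := rfl
@[simp] theorem add_s : (c + d).s = c.s + d.s := rfl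
@[simp] theorem add_ph : (c + d).ph = c.ph + d.ph := rfl
@[simp] theorem add_ch : (c + d).ch = c.ch + d.ch := rfl
@[simp] theorem add_et : (c + d).et = c.et + d.et := rfl
@[simp] theorem smul_al0 : (t • c).al0 = t * c.al0 := rfl
@[simp] theorem smul_al1 : (t • c).al1 = t * c.al1 := rfl
@[simp] theorem smul_al2 : (t • c).al2 = t * c.al2 := rfl
@[simp] theorem smul_c0 : (t • c).c0 = t * c.c0 := rfl
@[simp] theorem smul_c1 : (t • c).c1 = t * c.c1 := rfl
@[simp] theorem smul_q : (t • c).q = t • c.q := rfl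
@[simp] theorem smul_be0 : (t • c).be0 = t * c.be0 := rfl
@[simp] theorem smul_be1 : (t • c).be1 = t * c.be1 := rfl
@[simp] theorem smul_be2 : (t • c).be2 = t * c.be2 := rfl
@[simp] theorem smul_m1 : (t • c).m1 = t * c.m1 := rfl
@[simp] theorem smul_m2 : (t • c).m2 = t * c.m2 := rfl
@[simp] theorem smul_d0 : (t • c).d0 = t * c.d0 := rfl
@[simp] theorem smul_d1 : (t • c).d1 = t * c.d1 := rfl
@[simp] theorem smul_r : (t • c).r = t • c.r := rfl
@[simp] theorem smul_ga0 : (t • c).ga0 = t * c.ga0 := rfl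
@[simp] theorem smul_ga1 : (t • c).ga1 = t * c.ga1 := rfl
@[simp] theorem smul_de0 : (t • c).de0 = t * c.de0 := rfl
@[simp] theorem smul_de1 : (t • c).de1 = t * c.de1 := rfl
@[simp] theorem smul_n1 : (t • c).n1 = t * c.n1 := rfl
@[simp] theorem smul_s : (t • c).s = t • c.s := rfl
@[simp] theorem smul_ph : (t • c).ph = t • c.ph := rfl
@[simp] theorem smul_ch : (t • c).ch = t • c.ch := rfl
@[simp] theorem smul_et : (t • c).et = t • c.et := rfl

end simps

theorem B_add (c d : Par k p) : B (c + d) = B c + B d := by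
  refine ext_V fun x π => ?_
  rw [add_mulVec, B_V, B_V, B_V, V_add]
  congr 1
  · funext i
    fin_cases i <;> simp <;> ring
  · funext i
    simp
    ring

theorem B_smul (t : k) (c : Par k p) : B (t • c) = t • B c := by
  refine ext_V fun x π => ?_
  rw [smul_mulVec, B_V, B_V, V_smul]
  congr 1
  · funext i
    fin_cases i <;> simp <;> ring
  · funext i
    simp
    ring

/-- the parameters of `J * B c` -/
def sh (c : Par k p) : Par k p :=
  ⟨0, c.al0, c.al1, 0, c.c0, 0, 0, c.be0, c.be1, 0, c.m1, 0, c.d0, 0, 0, c.ga0, 0, c.de0, 0, 0,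
    0, 0, 0⟩

theorem J_B (c : Par k p) : J k p * B c = B (sh c) := by
  refine ext_V fun x π => ?_
  rw [← mulVec_mulVec, B_V, B_V, J_V]
  congr 1
  · funext i
    fin_cases i <;> simp [sh]
  · funext i
    simp [sh]

/-- the parameters of the transposed matrix -/
def dual (c : Par k p) : Par k p :=
  ⟨c.be0, c.be1, c.be2, c.ga0, c.ga1, c.ph, c.al0, c.al1, c.al2, c.m1, c.m2, c.de0, c.de1, c.ch,
    c.c0, c.c1, c.d0, c.d1, c.n1, c.et, c.q, c.r, c.s⟩

/-- the bijection which reverses the blocks -/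
def rev : Ix p ≃ Ix p where
  toFun := Sum.elim ![.inl 3, .inl 2, .inl 1, .inl 0, .inl 6, .inl 5, .inl 4, .inl 8, .inl 7] .inr
  invFun := Sum.elim ![.inl 3, .inl 2, .inl 1, .inl 0, .inl 6, .inl 5, .inl 4, .inl 8, .inl 7] .inr
  left_inv := by
    rintro (i | i)
    · fin_cases i <;> rfl
    · rfl
  right_inv := by
    rintro (i | i)
    · fin_cases i <;> rfl
    · rfl

theorem rev_B (c : Par k p) :
    Matrix.reindexAlgEquiv k k rev (B c)ᵀ = B (dual c) := by
  ext i j
  rcases i with i | i <;> rcases j with j | j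
  · fin_cases i <;> fin_cases j <;> simp [rev, B, dual, transpose_apply]
  · fin_cases i <;> simp [rev, B, dual, transpose_apply]
  · fin_cases j <;> simp [rev, B, dual, transpose_apply]
  · simp [rev, B, transpose_apply]

theorem rev_J : Matrix.reindexAlgEquiv k k rev (J k p)ᵀ = J k p := by
  ext i j
  rcases i with i | i <;> rcases j with j | j
  · fin_cases i <;> fin_cases j <;> simp [rev, J, transpose_apply]
  · fin_cases i <;> simp [rev, J, transpose_apply]
  · fin_cases j <;> simp [rev, J, transpose_apply]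
  · simp [rev, J, transpose_apply]

theorem MaxR.dual [Infinite k] {ρ : ℕ → ℕ} {c c' : Par k p} (hT : MaxR ρ ![J k p, B c, B c']) :
    MaxR ρ ![J k p, B (dual c), B (dual c')] := by
  have h := D9.MaxR.reindex rev hT.transpose
  have e : (fun i => Matrix.reindexAlgEquiv k k rev ((![J k p, B c, B c'] i)ᵀ)) =
      ![J k p, B (F432.dual c), B (F432.dual c')] := by
    funext i
    fin_cases i
    · exact rev_J
    · exact rev_B c
    · exact rev_B c'
  rwa [e] at h

end Pool.Agent.Lib.D13.F432
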