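import Pool.Agent.Lib.D13.F432S

/-!
# MP_5dcbc3_ag: type `(4, 3, 2, 1^p)`: normal forms of maximal triples and rank conditions
-/

namespace Pool.Agent.Lib.D13.F432

open Matrix Pool.Agent.Lib.Q5dc Pool.Agent.Lib.D7

variable {k : Type*} [Field k] {p : ℕ} {ρ : ℕ → ℕ}

theorem ker_P (π : Fin p → k) : J k p *ᵥ V 0 π = 0 := by
  rw [J_V, ← V_zero]
  congr 1
  funext i
  fin_cases i <;> rfl

theorem norm' [Infinite k] {X X' : Matrix (Ix p) (Ix p) k} (hT : MaxR ρ ![J k p, X, X'])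
    (h1 : (J k p).rank = ρ 1) :
    ∃ (c c' : Par k p) (a1 a2 a3 b1 b2 b3 : k),
      X = a1 • J k p + a2 • (J k p * J k p) + a3 • (J k p * (J k p * J k p)) + B c ∧
      X' = b1 • J k p + b2 • (J k p * J k p) + b3 • (J k p * (J k p * J k p)) + B c' ∧
      MaxR ρ ![J k p, B c, B c'] := by
  have hN : ∀ Y ∈ adj ![J k p, X, X'], ∀ π, ∃ x, Y *ᵥ V 0 π = V x 0 := by
    intro Y hY π
    obtain ⟨x, hx⟩ := MaxR.rk1 hT (D8.mem0 _ _ _) h1 hY (ker_P π)
    rw [V_eta x, J_V] at hx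
    exact ⟨_, hx.symm⟩
  obtain ⟨c, a1, a2, a3, hc⟩ := shape (X := X) (hT.cn.1 1 0) (hT.cn.2 1)
    (hN _ (D8.mem1 _ _ _))
  obtain ⟨c', b1, b2, b3, hc'⟩ := shape (X := X') (hT.cn.1 2 0) (hT.cn.2 2)
    (hN _ (D8.mem2 _ _ _))
  refine ⟨c, c', a1, a2, a3, b1, b2, b3, hc, hc', ?_⟩
  have hJ : ∀ Y Y' : Matrix (Ix p) (Ix p) k, ∀ x y z : k, x • J k p + y • (J k p * J k p) +
      z • (J k p * (J k p * J k p)) ∈ adj ![J k p, Y, Y'] := by
    intro Y Y' x y z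
    have h0 : J k p ∈ adj ![J k p, Y, Y'] := D8.mem0 _ _ _
    exact add_mem (add_mem (SMulMemClass.smul_mem _ h0)
      (SMulMemClass.smul_mem _ (mul_mem h0 h0)))
      (SMulMemClass.smul_mem _ (mul_mem h0 (mul_mem h0 h0)))
  refine D8.MaxR.change3 hT ?_ ?_ ?_ ?_
  · have e : B c = X - (a1 • J k p + a2 • (J k p * J k p) + a3 • (J k p * (J k p * J k p))) := by
      rw [hc]
      abel
    rw [e]
    exact sub_mem (D8.mem1 _ _ _) (hJ _ _ _ _ _)
  · have e : B c' = X' - (b1 • J k p + b2 • (J k p * J k p) + b3 • (J k p * (J k p * J k p))) := by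
      rw [hc']
      abel
    rw [e]
    exact sub_mem (D8.mem2 _ _ _) (hJ _ _ _ _ _)
  · rw [hc]
    exact add_mem (hJ _ _ _ _ _) (D8.mem1 _ _ _)
  · rw [hc']
    exact add_mem (hJ _ _ _ _ _) (D8.mem2 _ _ _)

theorem norm [Infinite k] {T : Fin 3 → Matrix (Ix p) (Ix p) k} (hT : MaxR ρ T)
    (h1 : (J k p).rank = ρ 1) (h0 : T 0 = J k p) :
    ∃ c c' : Par k p, MaxR ρ ![J k p, B c, B c'] := by
  have e : T = ![J k p, T 1, T 2] := by
    funext i
    fin_cases i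
    · exact h0
    · rfl
    · rfl
  rw [e] at hT
  obtain ⟨c, c', -, -, -, -, -, -, -, -, h⟩ := norm' hT h1
  exact ⟨c, c', h⟩

theorem MaxR.rel {c c' : Par k p} (hT : MaxR ρ ![J k p, B c, B c']) : Rel c c' :=
  rel_of_comm (hT.cn.1 1 2)

/-- linear changes -/
theorem MaxR.lin {c c' : Par k p} (hT : MaxR ρ ![J k p, B c, B c']) (x y z w : k)
    (h : x * w - y * z ≠ 0) :
    MaxR ρ ![J k p, B (x • c + y • c'), B (z • c + w • c')] := by
  have e1 : B (x • c + y • c') = x • B c + y • B c' := by rw [B_add, B_smul, B_smul]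
  have e2 : B (z • c + w • c') = z • B c + w • B c' := by rw [B_add, B_smul, B_smul]
  refine D8.MaxR.change3 hT ?_ ?_ ?_ ?_
  · rw [e1]
    exact add_mem (SMulMemClass.smul_mem _ (D8.mem1 _ _ _)) (SMulMemClass.smul_mem _ (D8.mem2 _ _ _))
  · rw [e2]
    exact add_mem (SMulMemClass.smul_mem _ (D8.mem1 _ _ _)) (SMulMemClass.smul_mem _ (D8.mem2 _ _ _))
  · have e : B c = (x * w - y * z)⁻¹ • (w • B (x • c + y • c') - y • B (z • c + w • c')) := by
      rw [e1, e2, eq_inv_smul_iff₀ h]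
      module
    nth_rewrite 1 [e]
    exact SMulMemClass.smul_mem _ (sub_mem (SMulMemClass.smul_mem _ (D8.mem1 _ _ _))
      (SMulMemClass.smul_mem _ (D8.mem2 _ _ _)))
  · have e : B c' = (x * w - y * z)⁻¹ • (x • B (z • c + w • c') - z • B (x • c + y • c')) := by
      rw [e1, e2, eq_inv_smul_iff₀ h]
      module
    nth_rewrite 1 [e]
    exact SMulMemClass.smul_mem _ (sub_mem (SMulMemClass.smul_mem _ (D8.mem2 _ _ _))
      (SMulMemClass.smul_mem _ (D8.mem1 _ _ _)))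

theorem MaxR.swap' {c c' : Par k p} (hT : MaxR ρ ![J k p, B c, B c']) :
    MaxR ρ ![J k p, B c', B c] := D8.MaxR.swap hT

/-- multiples of `J * B c` may be added to the third matrix -/
theorem MaxR.shl {c c' : Par k p} (hT : MaxR ρ ![J k p, B c, B c']) (x y : k) :
    MaxR ρ ![J k p, B c, B (c' + (x • sh c + y • sh (sh c)))] := by
  have e2 : B (c' + (x • sh c + y • sh (sh c))) =
      B c' + (x • (J k p * B c) + y • (J k p * (J k p * B c))) := by
    rw [B_add, B_add, B_smul, B_smul, J_B, J_B]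
  have hm : ∀ Y, x • (J k p * B c) + y • (J k p * (J k p * B c)) ∈ adj ![J k p, B c, Y] :=
    fun Y => add_mem (SMulMemClass.smul_mem _ (mul_mem (D8.mem0 _ _ _) (D8.mem1 _ _ _)))
      (SMulMemClass.smul_mem _ (mul_mem (D8.mem0 _ _ _)
        (mul_mem (D8.mem0 _ _ _) (D8.mem1 _ _ _))))
  refine D8.MaxR.change3 hT (D8.mem1 _ _ _) ?_ (D8.mem1 _ _ _) ?_
  · rw [e2]
    exact add_mem (D8.mem2 _ _ _) (hm _)
  · have e : B c' = B (c' + (x • sh c + y • sh (sh c))) -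
        (x • (J k p * B c) + y • (J k p * (J k p * B c))) := by
      rw [e2]
      abel
    nth_rewrite 1 [e]
    exact sub_mem (D8.mem2 _ _ _) (hm _)

theorem mul4 [CharZero k] {n : Type*} [Fintype n] [DecidableEq n] {T : Fin 3 → Matrix n n k}
    (hT : MaxR ρ T) (h4 : ρ 4 = 0) {A X : Matrix n n k} (hA : A ∈ adj T) (hX : X ∈ adj T) :
    A * A * (X * X) = 0 := by
  have hc : Commute A X := hT.cn.comm hA hX
  have key : ∀ s : k, (A + s • X) ^ 4 = 0 := fun s =>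
    hT.pow_eq_zero (add_mem hA (SMulMemClass.smul_mem _ hX)) h4
  have h0 := hT.pow_eq_zero hA h4
  have h5 := hT.pow_eq_zero hX h4
  have ex : ∀ s : k, (A + s • X) ^ 4 = A ^ 4 + (4 * s) • (A ^ 3 * X) +
      (6 * s ^ 2) • (A * A * (X * X)) + (4 * s ^ 3) • (A * X ^ 3) + s ^ 4 • X ^ 4 := by
    intro s
    rw [(hc.smul_right s).add_pow]
    simp only [Finset.sum_range_succ, Finset.sum_range_zero, smul_pow, mul_smul_comm,
      smul_mul_assoc]
    simp [Nat.choose, pow_succ, mul_assoc]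
    have e4 : ∀ M : Matrix n n k, M * 4 = (4 : k) • M := by
      intro M
      have : (4 : Matrix n n k) = (4 : k) • 1 := by
        ext i j
        by_cases h : i = j <;> simp [h, Matrix.ofNat_apply]
      rw [this]
      simp
    have e6 : ∀ M : Matrix n n k, M * 6 = (6 : k) • M := by
      intro M
      have : (6 : Matrix n n k) = (6 : k) • 1 := by
        ext i j
        by_cases h : i = j <;> simp [h, Matrix.ofNat_apply]
      rw [this]
      simp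
    simp only [e4, e6, mul_smul_comm]
    module
  have a1 := (ex 1).symm.trans (key 1)
  have a2 := (ex (-1)).symm.trans (key (-1))
  rw [h0, h5] at a1 a2
  have e : (12 : k) • (A * A * (X * X)) = 0 := by
    have : (12 : k) • (A * A * (X * X)) = (0 + (4 * (1 : k)) • (A ^ 3 * X) +
      (6 * (1 : k) ^ 2) • (A * A * (X * X)) + (4 * (1 : k) ^ 3) • (A * X ^ 3) +
      (1 : k) ^ 4 • 0) + (0 + (4 * (-1 : k)) • (A ^ 3 * X) +
      (6 * (-1 : k) ^ 2) • (A * A * (X * X)) + (4 * (-1 : k) ^ 3) • (A * X ^ 3) +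
      (-1 : k) ^ 4 • 0) := by module
    rw [this, a1, a2, add_zero]
  exact (smul_eq_zero.mp e).resolve_left (by norm_num)

/-- `al0 be0 = 0` for one matrix -/
theorem rc1_one [CharZero k] {T : Fin 3 → Matrix (Ix p) (Ix p) k} (hT : MaxR ρ T) (h4 : ρ 4 = 0)
    (hJ : J k p ∈ adj T) {c : Par k p} (hc : B c ∈ adj T) : c.al0 * c.be0 = 0 := by
  have h := mul4 hT h4 hJ hc
  have h2 := congrArg (· *ᵥ V ![1, 0, 0, 0, 0, 0, 0, 0, 0] 0) h
  simp only [← mulVec_mulVec, B_V, J_V, zero_mulVec] at h2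
  rw [← V_zero] at h2
  have h3 := congrFun (V_inj h2).1 3
  simp at h3
  rcases h3 with h3 | h3 <;> simp [h3]

/-- `al0 = 0` on the pencil or `be0 = 0` on the pencil -/
theorem MaxR.rc1 [CharZero k] {c c' : Par k p} (hT : MaxR ρ ![J k p, B c, B c'])
    (h4 : ρ 4 = 0) : (c.al0 = 0 ∧ c'.al0 = 0) ∨ (c.be0 = 0 ∧ c'.be0 = 0) := by
  have h1 := rc1_one hT h4 (D8.mem0 _ _ _) (c := c) (D8.mem1 _ _ _)
  have h2 := rc1_one hT h4 (D8.mem0 _ _ _) (c := c') (D8.mem2 _ _ _)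
  have h3 := rc1_one hT h4 (D8.mem0 _ _ _) (c := c + c') (by
    rw [B_add]
    exact add_mem (D8.mem1 _ _ _) (D8.mem2 _ _ _))
  have h5 := (MaxR.rel hT).e1
  simp only [add_al0, add_be0] at h3
  have h6 : c.al0 * c'.be0 = 0 := by
    have : 2 * (c.al0 * c'.be0) = 0 := by linear_combination h3 - h1 - h2 - h5
    exact (mul_eq_zero.1 this).resolve_left two_ne_zero
  have h7 : c'.al0 * c.be0 = 0 := by rw [h5, h6]
  rcases mul_eq_zero.1 h1 with a | a
  · rcases mul_eq_zero.1 h7 with b | b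
    · exact Or.inl ⟨a, b⟩
    · rcases mul_eq_zero.1 h2 with d | d
      · exact Or.inl ⟨a, d⟩
      · exact Or.inr ⟨b, d⟩
  · rcases mul_eq_zero.1 h6 with b | b
    · rcases mul_eq_zero.1 h2 with d | d
      · exact Or.inl ⟨b, d⟩
      · exact Or.inr ⟨a, d⟩
    · exact Or.inr ⟨a, b⟩

/-- `et (x) s = 0` for one matrix -/
theorem rc3_one [Infinite k] {T : Fin 3 → Matrix (Ix p) (Ix p) k} (hT : MaxR ρ T)
    (h1 : (J k p).rank = ρ 1) (hJ : J k p ∈ adj T) {c : Par k p} (hc : B c ∈ adj T)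
    (π : Fin p → k) : (c.et ⬝ᵥ π) • c.s = 0 := by
  obtain ⟨x, hx⟩ := MaxR.rk2 hT hJ h1 hc (ker_P π)
    (b := V ![0, 0, c.ph ⬝ᵥ π, 0, 0, c.ch ⬝ᵥ π, 0, c.et ⬝ᵥ π, 0] 0) (by
      rw [B_V, J_V]
      congr 1
      · funext i
        fin_cases i <;> simp
      · simp)
  rw [V_eta x, J_V, B_V] at hx
  simpa using (V_inj hx).2.symm

/-- `s = 0` on the pencil or `et = 0` on the pencil -/
theorem MaxR.rc3 [CharZero k] {c c' : Par k p} (hT : MaxR ρ ![J k p, B c, B c'])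
    (h1 : (J k p).rank = ρ 1) : (c.s = 0 ∧ c'.s = 0) ∨ (c.et = 0 ∧ c'.et = 0) := by
  have a1 := rc3_one hT h1 (D8.mem0 _ _ _) (c := c) (D8.mem1 _ _ _)
  have a2 := rc3_one hT h1 (D8.mem0 _ _ _) (c := c') (D8.mem2 _ _ _)
  have a3 := rc3_one hT h1 (D8.mem0 _ _ _) (c := c + c') (by
    rw [B_add]
    exact add_mem (D8.mem1 _ _ _) (D8.mem2 _ _ _))
  have a4 : ∀ π, (c.et ⬝ᵥ π) • c'.s + (c'.et ⬝ᵥ π) • c.s = 0 := by
    intro π
    have h := a3 π
    simp only [add_et, add_s, add_dotProduct] at h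
    have e : (c.et ⬝ᵥ π) • c'.s + (c'.et ⬝ᵥ π) • c.s =
        (c.et ⬝ᵥ π + c'.et ⬝ᵥ π) • (c.s + c'.s) - (c.et ⬝ᵥ π) • c.s - (c'.et ⬝ᵥ π) • c'.s := by
      module
    rw [e, h, a1, a2]
    simp
  by_cases he : c.et = 0
  · by_cases he' : c'.et = 0
    · exact Or.inr ⟨he, he'⟩
    · obtain ⟨j, hj⟩ := Function.ne_iff.1 he'
      have b : c'.et ⬝ᵥ Pi.single j 1 ≠ 0 := by simpa using hj
      have h2 := (smul_eq_zero.1 (a2 (Pi.single j 1))).resolve_left b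
      have h3 := a4 (Pi.single j 1)
      rw [h2, smul_zero, zero_add] at h3
      exact Or.inl ⟨(smul_eq_zero.1 h3).resolve_left b, h2⟩
  · obtain ⟨j, hj⟩ := Function.ne_iff.1 he
    have b : c.et ⬝ᵥ Pi.single j 1 ≠ 0 := by simpa using hj
    have h2 := (smul_eq_zero.1 (a1 (Pi.single j 1))).resolve_left b
    have h3 := a4 (Pi.single j 1)
    rw [h2, smul_zero, add_zero] at h3
    exact Or.inl ⟨h2, (smul_eq_zero.1 h3).resolve_left b⟩

/-- the zero parameters -/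
def zp : Par k p :=
  ⟨0, 0, 0, 0, 0, 0, 0, 0, 0, 0, 0, 0, 0, 0, 0, 0, 0, 0, 0, 0, 0, 0, 0⟩

/-- change of the generator `w0` -/
def bc (c : Par k p) : Par k p :=
  { (zp : Par k p) with m1 := c.al1, m2 := c.al2, d0 := c.c0, d1 := c.c1, r := c.q }

theorem bc_cube (c : Par k p) : B (bc c) * B (bc c) * B (bc c) = 0 := by
  refine ext_V fun x π => ?_
  rw [← mulVec_mulVec, ← mulVec_mulVec, B_V, B_V, B_V, zero_mulVec, ← V_zero]
  congr 1
  · funext i
    fin_cases i <;> simp [bc, zp]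
  · funext i
    simp [bc, zp]

/-- if `al0 = 1`, a change of the basis makes `B c v0 = w0` -/
theorem MaxR.base [Infinite k] {c c' : Par k p} (hT : MaxR ρ ![J k p, B c, B c'])
    (h1 : (J k p).rank = ρ 1) (hc : c.al0 = 1) :
    ∃ c c' : Par k p, MaxR ρ ![J k p, B c, B c'] ∧ c.al0 = 1 ∧ c.al1 = 0 ∧ c.al2 = 0 ∧
      c.c0 = 0 ∧ c.c1 = 0 ∧ c.q = 0 := by
  have hg : (1 + B (bc c)) * (1 - B (bc c) + B (bc c) * B (bc c)) = 1 := by
    have e : (1 + B (bc c)) * (1 - B (bc c) + B (bc c) * B (bc c)) =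
        1 + B (bc c) * B (bc c) * B (bc c) := by noncomm_ring
    rw [e, bc_cube, add_zero]
  have hh : (1 - B (bc c) + B (bc c) * B (bc c)) * (1 + B (bc c)) = 1 := by
    have e : (1 - B (bc c) + B (bc c) * B (bc c)) * (1 + B (bc c)) =
        1 + B (bc c) * B (bc c) * B (bc c) := by noncomm_ring
    rw [e, bc_cube, add_zero]
  have h2 := hT.conj _ _ hh hg
  have hJ : (1 - B (bc c) + B (bc c) * B (bc c)) * J k p * (1 + B (bc c)) = J k p := by
    have e : (1 - B (bc c) + B (bc c) * B (bc c)) * J k p =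
        J k p * (1 - B (bc c) + B (bc c) * B (bc c)) := by
      simp only [sub_mul, add_mul, mul_sub, mul_add, one_mul, mul_one, mul_assoc, B_comm_J]
      rw [← mul_assoc (B (bc c)) (J k p), B_comm_J, mul_assoc]
    rw [e, mul_assoc, hh, mul_one]
  have e3 : (fun i => (1 - B (bc c) + B (bc c) * B (bc c)) * (![J k p, B c, B c'] i) *
      (1 + B (bc c))) = ![J k p,
        (1 - B (bc c) + B (bc c) * B (bc c)) * B c * (1 + B (bc c)),
        (1 - B (bc c) + B (bc c) * B (bc c)) * B c' * (1 + B (bc c))] := by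
    funext i
    fin_cases i
    · exact hJ
    · rfl
    · rfl
  rw [e3] at h2
  obtain ⟨d, d', a1, a2, a3, b1, b2, b3, e4, -, h5⟩ := norm' h2 h1
  have e5 := congrArg (· *ᵥ V ![1, 0, 0, 0, 0, 0, 0, 0, 0] 0) e4
  simp only [← mulVec_mulVec, add_mulVec, sub_mulVec, smul_mulVec, one_mulVec, B_V, J_V, V_smul,
    V_add, V_sub] at e5
  obtain ⟨e6, e7⟩ := V_inj e5
  have g0 := congrFun e6 4
  have g1 := congrFun e6 5
  have g2 := congrFun e6 6
  have g3 := congrFun e6 7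
  have g4 := congrFun e6 8
  simp [bc, zp, hc] at g0 g1 g2 g3 g4 e7
  refine ⟨d, d', h5, g0.symm, ?_, ?_, g3.symm, ?_, ?_⟩
  · linear_combination -g1
  · linear_combination -g2
  · linear_combination -g4
  · exact e7.symm

/-- normal form in the case `al0 ≠ 0` -/
theorem MaxR.normA [CharZero k] {c c' : Par k p} (hT : MaxR ρ ![J k p, B c, B c'])
    (h1 : (J k p).rank = ρ 1) (h4 : ρ 4 = 0) (ha : c.al0 ≠ 0 ∨ c'.al0 ≠ 0) :
    ∃ c c' : Par k p, MaxR ρ ![J k p, B c, B c'] ∧ c.al0 = 1 ∧ c.al1 = 0 ∧ c.al2 = 0 ∧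
      c.c0 = 0 ∧ c.c1 = 0 ∧ c.q = 0 ∧ c.be0 = 0 ∧ c'.al0 = 0 ∧ c'.al1 = 0 ∧ c'.al2 = 0 ∧
      c'.be0 = 0 := by
  obtain ⟨c1, c1', hT1, e1⟩ : ∃ c c' : Par k p, MaxR ρ ![J k p, B c, B c'] ∧ c.al0 = 1 := by
    rcases ha with ha | ha
    · refine ⟨_, _, MaxR.lin hT (c.al0)⁻¹ 0 0 1 (by simpa using ha), ?_⟩
      simp [ha]
    · refine ⟨_, _, MaxR.lin hT 0 (c'.al0)⁻¹ 1 0 (by simpa using ha), ?_⟩
      simp [ha]
  obtain ⟨c2, c2', hT2, a0, a1, a2, a3, a4, a5⟩ := MaxR.base hT1 h1 e1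
  have hT3 := MaxR.lin hT2 1 0 (-c2'.al0) 1 (by simp)
  have b0 : ((1 : k) • c2 + (0 : k) • c2').al0 = 1 := by simp [a0]
  have b1 : ((1 : k) • c2 + (0 : k) • c2').al1 = 0 := by simp [a1]
  have b2 : ((1 : k) • c2 + (0 : k) • c2').al2 = 0 := by simp [a2]
  have b3 : ((1 : k) • c2 + (0 : k) • c2').c0 = 0 := by simp [a3]
  have b4 : ((1 : k) • c2 + (0 : k) • c2').c1 = 0 := by simp [a4]
  have b5 : ((1 : k) • c2 + (0 : k) • c2').q = 0 := by simp [a5]
  have b6 : (-c2'.al0 • c2 + (1 : k) • c2').al0 = 0 := by simp [a0]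
  generalize (1 : k) • c2 + (0 : k) • c2' = c3 at hT3 b0 b1 b2 b3 b4 b5
  generalize -c2'.al0 • c2 + (1 : k) • c2' = c3' at hT3 b6
  have hT4 := MaxR.shl hT3 (-c3'.al1) (-c3'.al2)
  have d0 : (c3' + (-c3'.al1 • sh c3 + -c3'.al2 • sh (sh c3))).al0 = 0 := by
    simp [sh, b6]
  have d1 : (c3' + (-c3'.al1 • sh c3 + -c3'.al2 • sh (sh c3))).al1 = 0 := by
    simp [sh, b0]
  have d2 : (c3' + (-c3'.al1 • sh c3 + -c3'.al2 • sh (sh c3))).al2 = 0 := by
    simp [sh, b0, b1]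
  generalize c3' + (-c3'.al1 • sh c3 + -c3'.al2 • sh (sh c3)) = c4 at hT4 d0 d1 d2
  rcases MaxR.rc1 hT4 h4 with h | h
  · exact absurd (b0.symm.trans h.1) one_ne_zero
  · exact ⟨c3, c4, hT4, b0, b1, b2, b3, b4, b5, h.1, d0, d1, d2, h.2⟩

end Pool.Agent.Lib.D13.F432
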