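import Pool.Agent.Lib.D13.F432

/-!
# MP_5dcbc3_ag: the relations of type `(4, 3, 2, 1^p)`

`B c * B c' = B c' * B c` if and only if the 20 relations `Rel c c'` hold; transposition.
-/

namespace Pool.Agent.Lib.D13.F432

open Matrix Pool.Agent.Lib.Q5dc Pool.Agent.Lib.D7

variable {k : Type*} [Field k] {p : ℕ}

/-- the relations equivalent to `B c * B c' = B c' * B c` -/
structure Rel (c c' : Par k p) : Prop where
  e1 : c'.al0 * c.be0 = c.al0 * c'.be0
  e2 : c'.al0 * c.be1 + c'.al1 * c.be0 + c'.c0 * c.ga0 =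
    c.al0 * c'.be1 + c.al1 * c'.be0 + c.c0 * c'.ga0
  e3 : c'.al0 * c.be2 + c'.al1 * c.be1 + c'.al2 * c.be0 + c'.c0 * c.ga1 + c'.c1 * c.ga0 +
    c.ph ⬝ᵥ c'.q = c.al0 * c'.be2 + c.al1 * c'.be1 + c.al2 * c'.be0 + c.c0 * c'.ga1 +
    c.c1 * c'.ga0 + c'.ph ⬝ᵥ c.q
  e4 : c'.al0 * c.m1 + c'.c0 * c.de0 = c.al0 * c'.m1 + c.c0 * c'.de0
  e5 : c'.al0 * c.m2 + c'.al1 * c.m1 + c'.c0 * c.de1 + c'.c1 * c.de0 + c.ch ⬝ᵥ c'.q =
    c.al0 * c'.m2 + c.al1 * c'.m1 + c.c0 * c'.de1 + c.c1 * c'.de0 + c'.ch ⬝ᵥ c.q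
  e6 : c'.al0 * c.d0 = c.al0 * c'.d0
  e7 : c'.al0 * c.d1 + c'.al1 * c.d0 + c'.c0 * c.n1 + c.et ⬝ᵥ c'.q =
    c.al0 * c'.d1 + c.al1 * c'.d0 + c.c0 * c'.n1 + c'.et ⬝ᵥ c.q
  e8 : c'.al0 • c.r + c'.c0 • c.s = c.al0 • c'.r + c.c0 • c'.s
  w2 : c'.m1 * c.be0 + c'.d0 * c.ga0 = c.m1 * c'.be0 + c.d0 * c'.ga0
  w3 : c'.m1 * c.be1 + c'.m2 * c.be0 + c'.d0 * c.ga1 + c'.d1 * c.ga0 + c.ph ⬝ᵥ c'.r =
    c.m1 * c'.be1 + c.m2 * c'.be0 + c.d0 * c'.ga1 + c.d1 * c'.ga0 + c'.ph ⬝ᵥ c.r
  w4 : c'.be0 * c.al0 + c'.d0 * c.de0 = c.be0 * c'.al0 + c.d0 * c'.de0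
  w5 : c'.be0 * c.al1 + c'.be1 * c.al0 + c'.d0 * c.de1 + c'.d1 * c.de0 + c.ch ⬝ᵥ c'.r =
    c.be0 * c'.al1 + c.be1 * c'.al0 + c.d0 * c'.de1 + c.d1 * c'.de0 + c'.ch ⬝ᵥ c.r
  w6 : c'.be0 * c.c0 + c'.m1 * c.d0 + c'.d0 * c.n1 + c.et ⬝ᵥ c'.r =
    c.be0 * c'.c0 + c.m1 * c'.d0 + c.d0 * c'.n1 + c'.et ⬝ᵥ c.r
  w7 : c'.d0 • c.s = c.d0 • c'.s
  u1 : c'.de0 * c.be0 = c.de0 * c'.be0
  u2 : c'.de0 * c.be1 + c'.de1 * c.be0 + c'.n1 * c.ga0 + c.ph ⬝ᵥ c'.s =
    c.de0 * c'.be1 + c.de1 * c'.be0 + c.n1 * c'.ga0 + c'.ph ⬝ᵥ c.s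
  u3 : c'.ga0 * c.al0 + c'.de0 * c.m1 + c'.n1 * c.de0 + c.ch ⬝ᵥ c'.s =
    c.ga0 * c'.al0 + c.de0 * c'.m1 + c.n1 * c'.de0 + c'.ch ⬝ᵥ c.s
  u4 : c'.de0 * c.d0 + c.et ⬝ᵥ c'.s = c.de0 * c'.d0 + c'.et ⬝ᵥ c.s
  p1 : c.be0 • c'.ch + c.ga0 • c'.et = c'.be0 • c.ch + c'.ga0 • c.et
  p2 : c.de0 • c'.et = c'.de0 • c.et

theorem comm_of_rel {c c' : Par k p} (h : Rel c c') : B c * B c' = B c' * B c := by
  refine ext_gen ?_ ?_ ?_ ?_ ?_ fun π => ?_
  · rw [mul_assoc, B_comm_J, ← mul_assoc, B_comm_J, mul_assoc]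
  · rw [mul_assoc, B_comm_J, ← mul_assoc, B_comm_J, mul_assoc]
  · rw [← mulVec_mulVec, ← mulVec_mulVec, B_V, B_V, B_V, B_V]
    congr 1
    · funext i
      fin_cases i <;> simp
      · linear_combination h.e1
      · linear_combination h.e2
      · linear_combination h.e3
      · linear_combination h.e4
      · linear_combination h.e5
      · linear_combination h.e6
      · linear_combination h.e7
    · simpa using h.e8
  · rw [← mulVec_mulVec, ← mulVec_mulVec, B_V, B_V, B_V, B_V]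
    congr 1
    · funext i
      fin_cases i <;> simp
      · linear_combination h.w2
      · linear_combination h.w3
      · linear_combination h.w4
      · linear_combination h.w5
      · linear_combination h.w6
    · simpa using h.w7
  · rw [← mulVec_mulVec, ← mulVec_mulVec, B_V, B_V, B_V, B_V]
    congr 1
    · funext i
      fin_cases i <;> simp
      · linear_combination h.u1
      · linear_combination h.u2
      · linear_combination h.u3
      · linear_combination h.u4
    · simp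
  · rw [← mulVec_mulVec, ← mulVec_mulVec, B_V, B_V, B_V, B_V]
    have h1 := congrArg (· ⬝ᵥ π) h.p1
    have h2 := congrArg (· ⬝ᵥ π) h.p2
    simp only [add_dotProduct, smul_dotProduct, smul_eq_mul] at h1 h2
    congr 1
    · funext i
      fin_cases i <;> simp
      · linear_combination h1
      · linear_combination h2
    · simp

theorem rel_of_comm {c c' : Par k p} (h : B c * B c' = B c' * B c) : Rel c c' := by
  have key : ∀ x π, B c *ᵥ (B c' *ᵥ V x π) = B c' *ᵥ (B c *ᵥ V x π) := by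
    intro x π
    rw [mulVec_mulVec, mulVec_mulVec, h]
  simp only [B_V] at key
  have h0 := V_inj (key ![1, 0, 0, 0, 0, 0, 0, 0, 0] 0)
  have h4 := V_inj (key ![0, 0, 0, 0, 1, 0, 0, 0, 0] 0)
  have h7 := V_inj (key ![0, 0, 0, 0, 0, 0, 0, 1, 0] 0)
  have hp : ∀ j, _ := fun j => V_inj (key 0 (Pi.single j 1))
  refine ⟨?_, ?_, ?_, ?_, ?_, ?_, ?_, ?_, ?_, ?_, ?_, ?_, ?_, ?_, ?_, ?_, ?_, ?_, ?_, ?_⟩
  · have := congrFun h0.1 1
    simp at this
    linear_combination this
  · have := congrFun h0.1 2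
    simp at this
    linear_combination this
  · have := congrFun h0.1 3
    simp at this
    linear_combination this
  · have := congrFun h0.1 5
    simp at this
    linear_combination this
  · have := congrFun h0.1 6
    simp at this
    linear_combination this
  · have := congrFun h0.1 7
    simp at this
    linear_combination this
  · have := congrFun h0.1 8
    simp at this
    linear_combination this
  · simpa using h0.2
  · have := congrFun h4.1 2
    simp at this
    linear_combination this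
  · have := congrFun h4.1 3
    simp at this
    linear_combination this
  · have := congrFun h4.1 5
    simp at this
    linear_combination this
  · have := congrFun h4.1 6
    simp at this
    linear_combination this
  · have := congrFun h4.1 8
    simp at this
    linear_combination this
  · simpa using h4.2
  · have := congrFun h7.1 2
    simp at this
    linear_combination this
  · have := congrFun h7.1 3
    simp at this
    linear_combination this
  · have := congrFun h7.1 6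
    simp at this
    linear_combination this
  · have := congrFun h7.1 8
    simp at this
    linear_combination this
  · funext j
    have := congrFun (hp j).1 3
    simp at this
    simp
    linear_combination this
  · funext j
    have := congrFun (hp j).1 6
    simp at this
    simp
    linear_combination this

/-- weights of the basis vectors -/
def wt : Ix p → ℕ := Sum.elim ![0, 6, 12, 18, 2, 8, 14, 4, 10] fun _ => 5

theorem B_nilp (c : Par k p) : IsNilpotent (B c) := by
  refine isNilpotent_of_weight _ wt fun i j hij => ?_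
  rcases i with i | i <;> rcases j with j | j
  · revert hij
    fin_cases i <;> fin_cases j <;> simp [wt, B]
  · revert hij
    fin_cases i <;> simp [wt, B]
  · revert hij
    fin_cases j <;> simp [wt, B]
  · simp [B]

theorem J_nilp : IsNilpotent (J k p) := by
  refine isNilpotent_of_weight _ wt fun i j hij => ?_
  rcases i with i | i <;> rcases j with j | j
  · revert hij
    fin_cases i <;> fin_cases j <;> simp [wt, J]
  · simp [J]
  · simp [J]
  · simp [J]

theorem cn_of_rel {c c' : Par k p} (h : Rel c c') : CN ![J k p, B c, B c'] :=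
  D8.cn3 (B_comm_J c).symm (B_comm_J c').symm (comm_of_rel h) J_nilp (B_nilp c) (B_nilp c')

end Pool.Agent.Lib.D13.F432
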