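import Pool.Agent.Lib.D13.F432M

/-!
# MP_5dcbc3_ag: type `(4, 3, 2, 1^p)`: the shape lemma and the rank conditions
-/

namespace Pool.Agent.Lib.D13.F432

open Matrix Pool.Agent.Lib.Q5dc Pool.Agent.Lib.D7

variable {k : Type*} [Field k] {p : ℕ}

theorem nil_eig {n : Type*} [Fintype n] [DecidableEq n] {X : Matrix n n k} (hX : IsNilpotent X)
    {v : n → k} (hv : v ≠ 0) {a : k} (h : X *ᵥ v = a • v) : a = 0 := by
  obtain ⟨N, hN⟩ := hX
  have key : ∀ m : ℕ, (X ^ m) *ᵥ v = a ^ m • v := by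
    intro m
    induction m with
    | zero => simp
    | succ m ih => rw [pow_succ', ← mulVec_mulVec, ih, mulVec_smul, h, smul_smul, pow_succ]
  have h1 := key N
  rw [hN, zero_mulVec] at h1
  rcases smul_eq_zero.1 h1.symm with h2 | h2
  · exact eq_zero_of_pow_eq_zero h2
  · exact absurd h2 hv

theorem JJJ_comm {X : Matrix (Ix p) (Ix p) k} (h : X * J k p = J k p * X) (v : Ix p → k) :
    X *ᵥ (J k p *ᵥ v) = J k p *ᵥ (X *ᵥ v) := by
  rw [mulVec_mulVec, mulVec_mulVec, h]

/-- matrices commuting with `J` -/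
theorem shape {X : Matrix (Ix p) (Ix p) k} (hX : X * J k p = J k p * X) (hn : IsNilpotent X)
    (hN : ∀ π, ∃ x, X *ᵥ V 0 π = V x 0) :
    ∃ (c : Par k p) (a1 a2 a3 : k),
      X = a1 • J k p + a2 • (J k p * J k p) + a3 • (J k p * (J k p * J k p)) + B c := by
  have hJ := JJJ_comm hX
  obtain ⟨a, q, h0⟩ : ∃ a q, X *ᵥ V ![1, 0, 0, 0, 0, 0, 0, 0, 0] 0 = V a q :=
    ⟨_, _, V_eta _⟩
  obtain ⟨b, r, h4⟩ : ∃ a q, X *ᵥ V ![0, 0, 0, 0, 1, 0, 0, 0, 0] 0 = V a q :=
    ⟨_, _, V_eta _⟩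
  obtain ⟨c, s, h7⟩ : ∃ a q, X *ᵥ V ![0, 0, 0, 0, 0, 0, 0, 1, 0] 0 = V a q :=
    ⟨_, _, V_eta _⟩
  -- the generators
  have h1 := hJ (V ![1, 0, 0, 0, 0, 0, 0, 0, 0] 0)
  rw [h0] at h1
  simp only [J_V] at h1
  have h2 := hJ _ |>.trans (congrArg (J k p *ᵥ ·) h1)
  simp only [J_V] at h2
  have h3 := hJ _ |>.trans (congrArg (J k p *ᵥ ·) h2)
  simp only [J_V] at h3
  have h5 := hJ (V ![0, 0, 0, 0, 1, 0, 0, 0, 0] 0)
  rw [h4] at h5
  simp only [J_V] at h5
  have h6 := hJ _ |>.trans (congrArg (J k p *ᵥ ·) h5)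
  simp only [J_V] at h6
  have h6' := hJ _ |>.trans (congrArg (J k p *ᵥ ·) h6)
  simp only [J_V] at h6'
  have h8 := hJ (V ![0, 0, 0, 0, 0, 0, 0, 1, 0] 0)
  rw [h7] at h8
  simp only [J_V] at h8
  have h8' := hJ _ |>.trans (congrArg (J k p *ᵥ ·) h8)
  simp only [J_V] at h8'
  simp only [Matrix.cons_val] at h1 h2 h3 h5 h6 h6' h8 h8'
  have z9 : (![0, 0, 0, 0, 0, 0, 0, 0, 0] : Fin 9 → k) = 0 := by
    funext i
    fin_cases i <;> rfl
  rw [z9, V_zero, mulVec_zero, ← V_zero] at h6' h8'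
  have e6 := (V_inj h6').1
  have e8 := (V_inj h8').1
  have hb0 : b 0 = 0 := by simpa using (congrFun e6 3).symm
  have hc0 : c 0 = 0 := by simpa using (congrFun e8 2).symm
  have hc1 : c 1 = 0 := by simpa using (congrFun e8 3).symm
  have hc4 : c 4 = 0 := by simpa using (congrFun e8 6).symm
  have ha0 : a 0 = 0 := by
    refine nil_eig hn (v := V ![0, 0, 0, 1, 0, 0, 0, 0, 0] 0) ?_ ?_
    · intro h
      have := congrFun h (Sum.inl 3)
      simp [V] at this
    · rw [h3, V_smul]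
      congr 1
      · funext i
        fin_cases i <;> simp
      · simp
  rw [ha0] at h3
  rw [hb0] at h6
  rw [hc0, hc1, hc4] at h8
  rw [z9, V_zero] at h3
  have hb4 : b 4 = 0 := by
    by_contra hb
    refine hb (nil_eig hn (v := V ![0, 0, 0, b 1 / b 4, 0, 0, 1, 0, 0] 0) ?_ ?_)
    · intro h
      have := congrFun h (Sum.inl 6)
      simp [V] at this
    · have e : V ![0, 0, 0, b 1 / b 4, 0, 0, 1, 0, 0] (0 : Fin p → k) =
          (b 1 / b 4) • V ![0, 0, 0, 1, 0, 0, 0, 0, 0] 0 + V ![0, 0, 0, 0, 0, 0, 1, 0, 0] 0 := by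
        rw [V_smul, V_add]
        congr 1
        · funext i
          fin_cases i <;> simp
        · simp
      rw [e, mulVec_add, mulVec_smul, h3, h6, smul_zero, zero_add, smul_add, smul_smul,
        V_smul, V_smul, V_add]
      congr 1
      · funext i
        fin_cases i <;> simp
        field_simp
      · simp
  rw [hb4] at h6
  have hc7 : c 7 = 0 := by
    by_contra hb
    refine hb (nil_eig hn (v := V ![0, 0, 0, (c 2 + c 5 / c 7 * b 1) / c 7, 0, 0, c 5 / c 7, 0,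
      1] 0) ?_ ?_)
    · intro h
      have := congrFun h (Sum.inl 8)
      simp [V] at this
    · have e : V ![0, 0, 0, (c 2 + c 5 / c 7 * b 1) / c 7, 0, 0, c 5 / c 7, 0, 1]
            (0 : Fin p → k) =
          ((c 2 + c 5 / c 7 * b 1) / c 7) • V ![0, 0, 0, 1, 0, 0, 0, 0, 0] 0 +
          (c 5 / c 7) • V ![0, 0, 0, 0, 0, 0, 1, 0, 0] 0 +
          V ![0, 0, 0, 0, 0, 0, 0, 0, 1] 0 := by
        rw [V_smul, V_smul, V_add, V_add]
        congr 1
        · funext i
          fin_cases i <;> simp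
        · simp
      rw [e, mulVec_add, mulVec_add, mulVec_smul, mulVec_smul, h3, h6, h8, smul_zero, zero_add]
      simp only [V_smul, V_add]
      congr 1
      · funext i
        fin_cases i <;> simp
        · field_simp
          ring
        · field_simp
      · simp
  refine ⟨⟨a 4, a 5, a 6, a 7, a 8, q, b 1, b 2, b 3, b 5 - a 1, b 6 - a 2, b 7, b 8, r, c 2, c 3,
    c 5, c 6, c 8 - a 1, s, fun j => X (Sum.inl 3) (Sum.inr j), fun j => X (Sum.inl 6) (Sum.inr j),
    fun j => X (Sum.inl 8) (Sum.inr j)⟩, a 1, a 2, a 3, ?_⟩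
  refine ext_gen hX ?_ ?_ ?_ ?_ fun π => ?_
  · simp only [add_mul, mul_add, smul_mul_assoc, mul_smul_comm, B_comm_J, mul_assoc]
  · rw [h0]
    simp only [add_mulVec, smul_mulVec, ← mulVec_mulVec, J_V, B_V, V_smul, V_add]
    congr 1
    · funext i
      fin_cases i <;> simp [ha0]
    · simp
  · rw [h4]
    simp only [add_mulVec, smul_mulVec, ← mulVec_mulVec, J_V, B_V, V_smul, V_add]
    congr 1
    · funext i
      fin_cases i <;> simp [hb0, hb4]
    · simp
  · rw [h7]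
    simp only [add_mulVec, smul_mulVec, ← mulVec_mulVec, J_V, B_V, V_smul, V_add]
    congr 1
    · funext i
      fin_cases i <;> simp [hc0, hc1, hc4, hc7]
    · simp
  · obtain ⟨x, hx⟩ := hN π
    have hx' := hJ (V 0 π)
    rw [hx, J_V, J_V] at hx'
    have z9' : (![0, (0 : Fin 9 → k) 0, (0 : Fin 9 → k) 1, (0 : Fin 9 → k) 2, 0,
        (0 : Fin 9 → k) 4, (0 : Fin 9 → k) 5, 0, (0 : Fin 9 → k) 7] : Fin 9 → k) = 0 := by
      funext i
      fin_cases i <;> rfl
    rw [z9', V_zero, mulVec_zero, ← V_zero] at hx'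
    have e := (V_inj hx').1
    have x0 : x 0 = 0 := by simpa using (congrFun e 1).symm
    have x1 : x 1 = 0 := by simpa using (congrFun e 2).symm
    have x2 : x 2 = 0 := by simpa using (congrFun e 3).symm
    have x4 : x 4 = 0 := by simpa using (congrFun e 5).symm
    have x5 : x 5 = 0 := by simpa using (congrFun e 6).symm
    have x7 : x 7 = 0 := by simpa using (congrFun e 8).symm
    have x3 : x 3 = (fun j => X (Sum.inl 3) (Sum.inr j)) ⬝ᵥ π := by
      have := congrFun hx (Sum.inl 3)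
      simp [V, mulVec, dotProduct] at this
      rw [← this]
      rfl
    have x6 : x 6 = (fun j => X (Sum.inl 6) (Sum.inr j)) ⬝ᵥ π := by
      have := congrFun hx (Sum.inl 6)
      simp [V, mulVec, dotProduct] at this
      rw [← this]
      rfl
    have x8 : x 8 = (fun j => X (Sum.inl 8) (Sum.inr j)) ⬝ᵥ π := by
      have := congrFun hx (Sum.inl 8)
      simp [V, mulVec, dotProduct] at this
      rw [← this]
      rfl
    rw [hx]
    simp only [add_mulVec, smul_mulVec, ← mulVec_mulVec, J_V, B_V, V_smul, V_add]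
    congr 1
    · funext i
      fin_cases i <;> simp [x0, x1, x2, x3, x4, x5, x6, x7, x8]
    · simp

end Pool.Agent.Lib.D13.F432
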