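import Pool.Agent.Lib.D13.L332

/-!
# MP_5dcbc3_ag: the relations of a maximal bad triple of type `(4, 3^e, 2)`

Relations of the first three orders in the rank conditions for the pencil.
-/

namespace Pool.Agent.Lib.D13.N4332

open Matrix Pool.Agent.Lib.Q5dc Pool.Agent.Lib.D7 Pool.Agent.Lib.D13

variable {k : Type*} [Field k] {e q : ℕ}

/-- products of four elements -/
theorem mul4 [CharZero k] {n : Type*} [Fintype n] [DecidableEq n] {ρ : ℕ → ℕ}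
    {T : Fin 3 → Matrix n n k} (hT : MaxR ρ T) (h4 : ρ 4 = 0) {A B C D : Matrix n n k}
    (hA : A ∈ adj T) (hB : B ∈ adj T) (hC : C ∈ adj T) (hD : D ∈ adj T) : A * B * C * D = 0 := by
  have hinf : Infinite k := CharZero.infinite k
  -- third powers
  have s1 : ∀ X ∈ adj T, ∀ Y ∈ adj T, X ^ 3 * Y = 0 := by
    intro X hX Y hY
    have hc : X * Y = Y * X := hT.cn.comm hX hY
    have e4 : ∀ Z ∈ adj T, Z ^ 4 = 0 := fun Z hZ => hT.pow_eq_zero hZ h4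
    have ex : ∀ t : k, (X + t • Y) ^ 4 = X ^ 4 + (4 * t) • (X ^ 3 * Y) +
        (6 * t ^ 2) • (X ^ 2 * Y ^ 2) + (4 * t ^ 3) • (X * Y ^ 3) + t ^ 4 • Y ^ 4 := by
      intro t
      have sq : (X + t • Y) * (X + t • Y) = X ^ 2 + (2 * t) • (X * Y) + (t ^ 2) • Y ^ 2 := by
        rw [add_mul, mul_add, mul_add, smul_mul_assoc, smul_mul_assoc, mul_smul_comm, mul_smul_comm,
          ← hc, pow_two, pow_two Y]
        module
      have hc' : Commute X Y := hc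
      have c1 : X * Y * X ^ 2 = X ^ 3 * Y := by
        rw [mul_assoc, ((hc'.pow_left 2).eq).symm, ← mul_assoc, ← pow_succ']
      have c2 : X ^ 2 * (X * Y) = X ^ 3 * Y := by rw [← mul_assoc, ← pow_succ]
      have c3 : X * Y * (X * Y) = X ^ 2 * Y ^ 2 := by
        rw [mul_assoc, ← mul_assoc Y, ← hc, pow_two, pow_two]
        simp only [mul_assoc]
      have c4 : Y ^ 2 * X ^ 2 = X ^ 2 * Y ^ 2 := ((hc'.pow_pow 2 2).eq).symm
      have c5 : X * Y * Y ^ 2 = X * Y ^ 3 := by rw [mul_assoc, ← pow_succ']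
      have c6 : Y ^ 2 * (X * Y) = X * Y ^ 3 := by
        rw [← mul_assoc, ((hc'.pow_right 2).eq).symm, mul_assoc, ← pow_succ]
      have c7 : X ^ 2 * X ^ 2 = X ^ 4 := by rw [← pow_add]
      have c8 : Y ^ 2 * Y ^ 2 = Y ^ 4 := by rw [← pow_add]
      have e4 : (X + t • Y) ^ 4 = ((X + t • Y) * (X + t • Y)) * ((X + t • Y) * (X + t • Y)) := by
        rw [show (4 : ℕ) = 2 + 2 from rfl, pow_add, pow_two]
      rw [e4, sq]
      simp only [add_mul, mul_add, smul_mul_assoc, mul_smul_comm, c1, c2, c3, c4, c5, c6, c7, c8]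
      module
    have hz : ∀ t : k, (4 * t) • (X ^ 3 * Y) + (6 * t ^ 2) • (X ^ 2 * Y ^ 2) +
        (4 * t ^ 3) • (X * Y ^ 3) = 0 := by
      intro t
      have h1 := ex t
      rw [e4 _ (add_mem hX (SMulMemClass.smul_mem t hY)), e4 _ hX, e4 _ hY, smul_zero, add_zero,
        zero_add] at h1
      exact h1.symm
    have h1 := hz 1
    have h2 := hz (-1)
    have h3 := hz 2
    have h4' := hz (-2)
    have e : (48 : k) • (X ^ 3 * Y) = 0 := by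
      have : (48 : k) • (X ^ 3 * Y) = (8 : k) • (((4 * (1 : k)) • (X ^ 3 * Y) +
        (6 * (1 : k) ^ 2) • (X ^ 2 * Y ^ 2) + (4 * (1 : k) ^ 3) • (X * Y ^ 3)) -
        ((4 * (-1 : k)) • (X ^ 3 * Y) +
        (6 * (-1 : k) ^ 2) • (X ^ 2 * Y ^ 2) + (4 * (-1 : k) ^ 3) • (X * Y ^ 3))) -
        (((4 * (2 : k)) • (X ^ 3 * Y) +
        (6 * (2 : k) ^ 2) • (X ^ 2 * Y ^ 2) + (4 * (2 : k) ^ 3) • (X * Y ^ 3)) -
        ((4 * (-2 : k)) • (X ^ 3 * Y) +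
        (6 * (-2 : k) ^ 2) • (X ^ 2 * Y ^ 2) + (4 * (-2 : k) ^ 3) • (X * Y ^ 3))) := by
        module
      rw [this, h1, h2, h3, h4']
      simp
    rw [smul_eq_zero] at e
    exact e.resolve_left (by norm_num)
  -- squares
  have s2 : ∀ X ∈ adj T, ∀ Y ∈ adj T, ∀ Z ∈ adj T, X ^ 2 * Y * Z = 0 := by
    intro X hX Y hY Z hZ
    have hc : X * Y = Y * X := hT.cn.comm hX hY
    have ex : ∀ t : k, (X + t • Y) ^ 3 * Z = X ^ 3 * Z + (3 * t) • (X ^ 2 * Y * Z) +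
        (3 * t ^ 2) • (X * Y ^ 2 * Z) + t ^ 3 • (Y ^ 3 * Z) := by
      intro t
      have h1 := cube_line (J := X) (X := Y) hc.symm t
      rw [h1]
      simp only [add_mul, smul_mul_assoc, smul_add, smul_smul]
      module
    have h1 := ex 1
    have h2 := ex (-1)
    rw [s1 _ (add_mem hX (SMulMemClass.smul_mem _ hY)) Z hZ, s1 X hX Z hZ, s1 Y hY Z hZ] at h1 h2
    have e : (6 : k) • (X ^ 2 * Y * Z) = 0 := by
      have h3 : (6 : k) • (X ^ 2 * Y * Z) = ((0 : Matrix n n k) + (3 * (1 : k)) • (X ^ 2 * Y * Z) +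
        (3 * (1 : k) ^ 2) • (X * Y ^ 2 * Z) + (1 : k) ^ 3 • 0) -
        ((0 : Matrix n n k) + (3 * (-1 : k)) • (X ^ 2 * Y * Z) +
        (3 * (-1 : k) ^ 2) • (X * Y ^ 2 * Z) + (-1 : k) ^ 3 • 0) := by
        module
      rw [h3, ← h1, ← h2, sub_zero]
    rw [smul_eq_zero] at e
    exact e.resolve_left (by norm_num)
  have cAB : A * B = B * A := hT.cn.comm hA hB
  have h1 := s2 _ (add_mem hA hB) C hC D hD
  have h2 : (A + B) ^ 2 * C * D = A ^ 2 * C * D + (2 : k) • (A * B * C * D) + B ^ 2 * C * D := by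
    have : (A + B) ^ 2 = A ^ 2 + (2 : k) • (A * B) + B ^ 2 := by
      rw [pow_two, add_mul, mul_add, mul_add, ← cAB, pow_two, pow_two]
      module
    rw [this]
    simp only [add_mul, smul_mul_assoc]
  rw [h1, s2 A hA C hC D hD, s2 B hB C hC D hD, zero_add, add_zero] at h2
  exact (smul_eq_zero.1 h2.symm).resolve_left (by norm_num)

/-! ### the relations -/

section

variable {ρ : ℕ → ℕ} {T : Fin 3 → Matrix (I2 e q) (I2 e q) k}

theorem nf_v3 (α β γ : k) (f g : Fin e → k) (h m : Fin q → k) :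
    (nf α β γ f g h m : I2 e q → k) (.inl 3) = γ := by
  simp [nf, v2, u2, w2]

theorem J2_nf (α β γ : k) (f g : Fin e → k) (h m : Fin q → k) :
    J2 k e q *ᵥ nf α β γ f g h m = α • v2 2 + β • v2 3 + u2 2 f + w2 1 h := by
  simp only [nf, mulVec_add, mulVec_smul, J2_v, J2_u, J2_w]
  simp

theorem J2sq_nf (α β γ : k) (f g : Fin e → k) (h m : Fin q → k) :
    J2 k e q ^ 2 *ᵥ nf α β γ f g h m = α • v2 3 := by
  simp only [nf, mulVec_add, mulVec_smul, J2_pow_v, J2_pow_u, J2_pow_w]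
  simp

theorem hρ4 (hρ : ∀ i, ρ i = (J2 k e q ^ i).rank) : ρ 4 = 0 := by
  rw [hρ, J2_pow, Matrix.rank_zero]

theorem rk2 [Infinite k] (hT : MaxR ρ T) (hρ : ∀ i, ρ i = (J2 k e q ^ i).rank)
    (hA : J2 k e q ∈ adj T) {x : PN k e q} (hx : B2 x ∈ adj T) (s : k) :
    ((J2 k e q + s • B2 x) ^ 2).rank ≤ (J2 k e q ^ 2).rank := by
  have h1 := hT.rank_le (add_mem hA (SMulMemClass.smul_mem s hx)) 2
  rwa [hρ] at h1

theorem rk3 [Infinite k] (hT : MaxR ρ T) (hρ : ∀ i, ρ i = (J2 k e q ^ i).rank)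
    (hA : J2 k e q ∈ adj T) {x : PN k e q} (hx : B2 x ∈ adj T) (s : k) :
    ((J2 k e q + s • B2 x) ^ 3).rank ≤ (J2 k e q ^ 3).rank := by
  have h1 := hT.rank_le (add_mem hA (SMulMemClass.smul_mem s hx)) 3
  rwa [hρ] at h1

/-- `b0 (a0') = 0` -/
theorem R1 [CharZero k] (hT : MaxR ρ T) (hρ : ∀ i, ρ i = (J2 k e q ^ i).rank)
    (hA : J2 k e q ∈ adj T) {x y : PN k e q} (hx : B2 x ∈ adj T) (hy : B2 y ∈ adj T) :
    x.b0 ⬝ᵥ y.a0 = 0 := by
  have h1 := mul4 hT (hρ4 hρ) hA hA hx hy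
  have h2 := congrFun (congrArg (fun M => M *ᵥ v2 0) h1) (.inl 3)
  simp only [Matrix.mul_assoc] at h2
  rw [← Matrix.mul_assoc, ← pow_two, ← mulVec_mulVec, mul_v, J2sq_nf] at h2
  simpa [v2] using h2

/-- relation of the fourth power -/
theorem R4 [CharZero k] (hT : MaxR ρ T) (hρ : ∀ i, ρ i = (J2 k e q ^ i).rank)
    (hA : J2 k e q ∈ adj T) {x y z : PN k e q} (hx : B2 x ∈ adj T) (hy : B2 y ∈ adj T)
    (hz : B2 z ∈ adj T) :
    x.b0 ⬝ᵥ (y.N1 *ᵥ z.a0 + y.Q0 *ᵥ z.c0) + x.g0 ⬝ᵥ (y.P0 *ᵥ z.a0) = 0 ∧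
      x.Q0 *ᵥ (y.P0 *ᵥ z.a0) = 0 := by
  have h1 := mul4 hT (hρ4 hρ) hA hx hy hz
  have h2 := congrArg (fun M => M *ᵥ v2 0) h1
  simp only [Matrix.mul_assoc] at h2
  rw [← mulVec_mulVec, ← mulVec_mulVec, mul_v, R1 hT hρ hA hy hz] at h2
  simp only [nf, mulVec_add, mulVec_smul, B2_v1, B2_v2, B2_v3, B2_u1, B2_u2, B2_w0, B2_w1, J2_v,
    J2_u, J2_w, zero_smul, smul_zero, mulVec_zero, zero_mulVec, zero_add, add_zero, v2_four,
    u2_three, w2_two, show 1 + 1 = 2 by norm_num, show 2 + 1 = 3 by norm_num,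
    show 3 + 1 = 4 by norm_num, show 0 + 1 = 1 by norm_num] at h2
  constructor
  · have h3 := congrFun h2 (.inl 3)
    simpa [v2, u2, w2] using h3
  · funext i
    have h3 := congrFun h2 (.inr (.inl (2, i)))
    simpa [v2, u2, w2] using h3

/-- relation of the fourth power -/
theorem R4' [CharZero k] (hT : MaxR ρ T) (hρ : ∀ i, ρ i = (J2 k e q ^ i).rank)
    (hA : J2 k e q ∈ adj T) {x y z : PN k e q} (hx : B2 x ∈ adj T) (hy : B2 y ∈ adj T)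
    (hz : B2 z ∈ adj T) (f : Fin e → k) : x.b0 ⬝ᵥ (y.Q0 *ᵥ (z.P0 *ᵥ f)) = 0 := by
  have h1 := mul4 hT (hρ4 hρ) hA hx hy hz
  have h2 := congrArg (fun M => M *ᵥ u2 0 f) h1
  simp only [Matrix.mul_assoc] at h2
  rw [← mulVec_mulVec, ← mulVec_mulVec, mul_u] at h2
  simp only [nf, mulVec_add, mulVec_smul, B2_v1, B2_v2, B2_v3, B2_u1, B2_u2, B2_w0, B2_w1, J2_v,
    J2_u, J2_w, zero_smul, smul_zero, mulVec_zero, zero_mulVec, zero_add, add_zero, v2_four,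
    u2_three, w2_two, show 1 + 1 = 2 by norm_num, show 2 + 1 = 3 by norm_num,
    show 3 + 1 = 4 by norm_num, show 0 + 1 = 1 by norm_num, w2_zero] at h2
  have h3 := congrFun h2 (.inl 3)
  have h4 := R1 hT hρ hA hx hy
  simpa [v2, u2, w2, add_mulVec, vecMulVec_mulVec, dotProduct_add, h4, ← mulVec_mulVec] using h3

/-- second order relation of the square -/
theorem R3 [CharZero k] (hT : MaxR ρ T) (hρ : ∀ i, ρ i = (J2 k e q ^ i).rank)
    (hA : J2 k e q ∈ adj T) {x : PN k e q} (hx : B2 x ∈ adj T) : x.P0 * x.Q0 = 0 := by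
  have hinf : Infinite k := CharZero.infinite k
  refine mulVec_ext fun f => ?_
  rw [zero_mulVec]
  have e1 : (2 : k) • ((J2 k e q * B2 x) *ᵥ w2 0 f) =
      J2 k e q ^ 2 *ᵥ ((2 * (x.g0 ⬝ᵥ f)) • v2 1 + (2 : k) • u2 0 (x.Q0 *ᵥ f)) := by
    rw [← mulVec_mulVec, B2_w0]
    simp only [mulVec_add, mulVec_smul, J2_v, J2_u, J2_w, J2_pow_v, J2_pow_u, smul_add, smul_smul]
    simp
  obtain ⟨m, hm⟩ := sq2 (B2_comm x).symm (rk2 hT hρ hA hx) (z := w2 0 f)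
    (by rw [J2_pow_w, w2_ge (by norm_num)]) e1
  funext i
  have h2 := congrFun hm (.inr (.inr (1, i)))
  have k1 : (J2 k e q * B2 x) *ᵥ v2 1 = u2 2 x.a0 := by
    rw [← mulVec_mulVec, B2_v1]
    simp only [mulVec_add, J2_u, J2_w]
    simp
  have k2 : ∀ g, (J2 k e q * B2 x) *ᵥ u2 0 g = (x.b0 ⬝ᵥ g) • v2 2 + (x.b1 ⬝ᵥ g) • v2 3 +
      u2 2 (x.N1 *ᵥ g) + w2 1 (x.P0 *ᵥ g) := by
    intro g
    rw [← mulVec_mulVec, B2_u0]
    simp only [mulVec_add, mulVec_smul, J2_v, J2_u, J2_w]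
    simp
  rw [J2_pow_apply_w, dif_neg (by norm_num), pow_two, mul_w, mulVec_add,
    mulVec_smul, mulVec_smul, k1, k2] at h2
  have h3 : (-3 : k) * ((x.P0 * x.Q0) *ᵥ f) i = 0 := by
    simp [v2, u2, w2, nf] at h2
    linear_combination h2
  simpa using h3

/-- second order relation of the cube -/
theorem R2 [CharZero k] (hT : MaxR ρ T) (hρ : ∀ i, ρ i = (J2 k e q ^ i).rank)
    (hA : J2 k e q ∈ adj T) {x : PN k e q} (hx : B2 x ∈ adj T) :
    x.Q0 * x.P0 = (2 : k) • vecMulVec x.a0 x.b0 := by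
  have hinf : Infinite k := CharZero.infinite k
  refine mulVec_ext fun f => ?_
  have e1 : (3 : k) • ((J2 k e q ^ 2 * B2 x) *ᵥ u2 0 f) =
      J2 k e q ^ 3 *ᵥ ((3 * (x.b0 ⬝ᵥ f)) • v2 0) := by
    rw [← mulVec_mulVec, B2_u0]
    simp only [mulVec_add, mulVec_smul, J2_pow_v, J2_pow_u, J2_pow_w, smul_add, smul_smul]
    simp
  obtain ⟨m, hm⟩ := cube2 (B2_comm x).symm (rk3 hT hρ hA hx) (z := u2 0 f)
    (by rw [J2_pow_u, u2_ge (by norm_num)]) e1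
  funext i
  have h2 := congrFun hm (.inr (.inl (2, i)))
  rw [J2_pow_apply_u, dif_neg (by norm_num), pow_two (B2 x), ← mulVec_mulVec, mul_u, J2_nf,
    mulVec_smul, ← mulVec_mulVec, B2_v0] at h2
  simp only [mulVec_add, J2_pow_u, J2_pow_w] at h2
  simp [v2, u2, w2, add_mulVec, vecMulVec_mulVec] at h2
  rw [smul_mulVec, vecMulVec_mulVec]
  simp
  linear_combination (1 / 3 : k) * h2

/-- third order relation of the cube (`q = 1`) -/
theorem R7 [CharZero k] {T : Fin 3 → Matrix (I2 e 1) (I2 e 1) k} (hT : MaxR ρ T)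
    (hρ : ∀ i, ρ i = (J2 k e 1 ^ i).rank)
    (hA : J2 k e 1 ∈ adj T) {x : PN k e 1} (hx : B2 x ∈ adj T) (f : Fin e → k) :
    (6 * (x.b0 ⬝ᵥ (x.N1 *ᵥ f)) + 8 * (x.g0 ⬝ᵥ (x.P0 *ᵥ f)) - 2 * x.V1 0 0 * (x.b0 ⬝ᵥ f)) • x.a0 +
      (6 * (x.b0 ⬝ᵥ f)) • (x.N1 *ᵥ x.a0) + (8 * (x.b0 ⬝ᵥ f)) • (x.Q0 *ᵥ x.c0) = 0 := by
  have hinf : Infinite k := CharZero.infinite k
  have r2 := R2 hT hρ hA hx
  have r2f : ∀ f, x.Q0 *ᵥ (x.P0 *ᵥ f) = (2 * (x.b0 ⬝ᵥ f)) • x.a0 := by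
    intro f
    rw [mulVec_mulVec, r2, smul_mulVec, vecMulVec_mulVec]
    simp [smul_smul]
  have hV : ∀ w : Fin 1 → k, x.V1 *ᵥ w = x.V1 0 0 • w := by
    intro w
    funext i
    fin_cases i
    simp [mulVec, dotProduct]
  have e1 : (3 : k) • ((J2 k e 1 ^ 2 * B2 x) *ᵥ u2 0 f) =
      J2 k e 1 ^ 3 *ᵥ ((3 * (x.b0 ⬝ᵥ f)) • v2 0) := by
    rw [← mulVec_mulVec, B2_u0]
    simp only [mulVec_add, mulVec_smul, J2_pow_v, J2_pow_u, J2_pow_w, smul_add, smul_smul]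
    simp
  have e2 : (3 : k) • ((J2 k e 1 * B2 x ^ 2) *ᵥ u2 0 f) - (3 : k) • ((J2 k e 1 ^ 2 * B2 x) *ᵥ
      ((3 * (x.b0 ⬝ᵥ f)) • v2 0)) = J2 k e 1 ^ 3 *ᵥ
        ((3 * (x.b0 ⬝ᵥ (x.N1 *ᵥ f) + x.g0 ⬝ᵥ (x.P0 *ᵥ f))) • v2 0) := by
    rw [pow_two (B2 x), ← mulVec_mulVec, mul_u, J2_nf, mulVec_smul, ← mulVec_mulVec, B2_v0]
    simp only [mulVec_add, mulVec_smul, J2_pow_v, J2_pow_u, J2_pow_w, add_mulVec, vmv,
      ← mulVec_mulVec, r2f, add_dotProduct, ← dotProduct_mulVec, zero_smul, w2_zero, add_zero,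
      zero_add, v2_four, u2_three, w2_two, w2_three, show 1 + 2 = 3 by norm_num,
      show 0 + 2 = 2 by norm_num, show 2 + 2 = 4 by norm_num, u2_four, u2_add, u2_smul,
      show 0 + 3 = 3 by norm_num]
    module
  obtain ⟨m, hm⟩ := cube3 (B2_comm x).symm (rk3 hT hρ hA hx) (z := u2 0 f)
    (by rw [J2_pow_u, u2_ge (by norm_num)]) e1 e2
  funext i
  have h2 := congrFun hm (.inr (.inl (2, i)))
  rw [J2_pow_apply_u, dif_neg (by norm_num), pow_succ', pow_two, ← mulVec_mulVec, mul_u,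
    mulVec_smul, ← mulVec_mulVec, mul_v, J2_nf, mulVec_smul, ← mulVec_mulVec, B2_v0] at h2
  have vmc : vecMulVec x.c0 x.b0 *ᵥ f = (x.b0 ⬝ᵥ f) • x.c0 := by
    rw [vecMulVec_mulVec]
    simp
  simp only [nf, mulVec_add, mulVec_smul, B2_v2, B2_v3, B2_u1, B2_u2, B2_w1,
    J2_pow_u, J2_pow_w, zero_smul, smul_zero, zero_mulVec, zero_add, add_zero,
    w2_zero, add_mulVec, vmv, vmc, ← mulVec_mulVec, r2f, add_dotProduct, ← dotProduct_mulVec, hV,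
    u2_add, u2_smul, w2_add, w2_smul, dotProduct_smul] at h2
  simp [v2, u2, w2] at h2
  simp
  linear_combination -h2

end

end Pool.Agent.Lib.D13.N4332
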