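import Pool.Agent.Lib.D13.F4332
import Pool.Agent.Lib.D9.BlkMap

/-!
# MP_5dcbc3_ag: type `(4, 3, 3, 2)`: linear changes, duality, case split, the case (B)
-/

namespace Pool.Agent.Lib.D13.N4332

open Matrix Pool.Agent.Lib.Q5dc Pool.Agent.Lib.D7 Pool.Agent.Lib.D13

variable {k : Type*} [Field k] {e q : ℕ} {ρ : ℕ → ℕ}

/-! ### linear changes and duality -/

namespace PN

/-- linear combinations -/
def lin (α β : k) (x y : PN k e q) : PN k e q where
  a0 := α • x.a0 + β • y.a0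
  a1 := α • x.a1 + β • y.a1
  a2 := α • x.a2 + β • y.a2
  c0 := α • x.c0 + β • y.c0
  c1 := α • x.c1 + β • y.c1
  b0 := α • x.b0 + β • y.b0
  b1 := α • x.b1 + β • y.b1
  b2 := α • x.b2 + β • y.b2
  N1 := α • x.N1 + β • y.N1
  N2 := α • x.N2 + β • y.N2
  P0 := α • x.P0 + β • y.P0
  P1 := α • x.P1 + β • y.P1
  g0 := α • x.g0 + β • y.g0
  g1 := α • x.g1 + β • y.g1
  Q0 := α • x.Q0 + β • y.Q0
  Q1 := α • x.Q1 + β • y.Q1
  V1 := α • x.V1 + β • y.V1

/-- the parameters of the transposed matrix in the dual basis -/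
def dual (x : PN k e q) : PN k e q where
  a0 := x.b0
  a1 := x.b1
  a2 := x.b2
  c0 := x.g0
  c1 := x.g1
  b0 := x.a0
  b1 := x.a1
  b2 := x.a2
  N1 := x.N1ᵀ
  N2 := x.N2ᵀ
  P0 := x.Q0ᵀ
  P1 := x.Q1ᵀ
  g0 := x.c0
  g1 := x.c1
  Q0 := x.P0ᵀ
  Q1 := x.P1ᵀ
  V1 := x.V1ᵀ

end PN

theorem B2_lin (α β : k) (x y : PN k e q) : B2 (x.lin α β y) = α • B2 x + β • B2 y := by
  ext i j
  rcases i with i | i | i <;> rcases j with j | j | j <;>
    simp only [B2, PN.lin, Matrix.of_apply, Matrix.add_apply, Matrix.smul_apply, Pi.add_apply,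
      Pi.smul_apply, smul_eq_mul, mul_zero, add_zero]
  all_goals split_ifs <;> ring

theorem maxR_lin {x y : PN k e q}
    (hT : MaxR ρ ![J2 k e q, B2 x, B2 y]) (α β γ δ : k) (h : α * δ - β * γ ≠ 0) :
    MaxR ρ ![J2 k e q, B2 (x.lin α β y), B2 (x.lin γ δ y)] := by
  have h1 := D8.MaxR.lin hT α β γ δ 0 0 0 0 h
  simp only [zero_smul, add_zero] at h1
  rw [B2_lin, B2_lin]
  exact h1

/-- the dual basis -/
def sg : I2 e q ≃ I2 e q :=
  Equiv.sumCongr Fin.revPerm (Equiv.sumCongr (Equiv.prodCongr Fin.revPerm (Equiv.refl _))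
    (Equiv.prodCongr Fin.revPerm (Equiv.refl _)))

theorem J2_dual : Matrix.reindexAlgEquiv k k sg (J2 k e q)ᵀ = J2 k e q := by
  ext i j
  rw [Matrix.coe_reindexAlgEquiv, Matrix.reindex_apply, Matrix.submatrix_apply,
    Matrix.transpose_apply]
  rcases i with i | ⟨i, s⟩ | ⟨i, s⟩ <;> rcases j with j | ⟨j, t⟩ | ⟨j, t⟩ <;>
    simp only [sg, Equiv.sumCongr_symm, Equiv.sumCongr_apply, Sum.map_inl, Sum.map_inr,
      Equiv.prodCongr_symm, Equiv.prodCongr_apply, Prod.map, Fin.revPerm_symm, Fin.revPerm_apply,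
      Equiv.refl_symm, Equiv.refl_apply, J2, Matrix.of_apply, Fin.val_rev]
  · have hi := i.2
    have hj := j.2
    by_cases h : (i : ℕ) = j + 1
    · rw [if_pos h, if_pos (by omega)]
    · rw [if_neg h, if_neg (by omega)]
  · have hi := i.2
    have hj := j.2
    by_cases h : s = t ∧ (i : ℕ) = j + 1
    · rw [if_pos h, if_pos ⟨h.1.symm, by omega⟩]
    · rw [if_neg h, if_neg (fun h' => h ⟨h'.1.symm, by omega⟩)]
  · have hi := i.2
    have hj := j.2
    by_cases h : s = t ∧ (i : ℕ) = j + 1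
    · rw [if_pos h, if_pos ⟨h.1.symm, by omega⟩]
    · rw [if_neg h, if_neg (fun h' => h ⟨h'.1.symm, by omega⟩)]

theorem B2_dual (x : PN k e q) :
    Matrix.reindexAlgEquiv k k sg (B2 x)ᵀ = B2 x.dual := by
  ext i j
  rw [Matrix.coe_reindexAlgEquiv, Matrix.reindex_apply, Matrix.submatrix_apply,
    Matrix.transpose_apply]
  rcases i with i | ⟨i, s⟩ | ⟨i, s⟩ <;> rcases j with j | ⟨j, t⟩ | ⟨j, t⟩ <;>
    simp only [sg, Equiv.sumCongr_symm, Equiv.sumCongr_apply, Sum.map_inl, Sum.map_inr,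
      Equiv.prodCongr_symm, Equiv.prodCongr_apply, Prod.map, Fin.revPerm_symm, Fin.revPerm_apply,
      Equiv.refl_symm, Equiv.refl_apply, B2, PN.dual, Matrix.of_apply, Matrix.transpose_apply,
      Fin.val_rev]
  all_goals
    try have hi := i.2
    try have hj := j.2
    split_ifs <;> first | rfl | omega

theorem maxR_dual [Infinite k] {x y : PN k e q}
    (hT : MaxR ρ ![J2 k e q, B2 x, B2 y]) :
    MaxR ρ ![J2 k e q, B2 x.dual, B2 y.dual] := by
  have h1 := D9.MaxR.reindex (sg (e := e) (q := q)) hT.transpose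
  have h2 : (fun i => Matrix.reindexAlgEquiv k k (sg (e := e) (q := q))
      ((![J2 k e q, B2 x, B2 y] : Fin 3 → Matrix (I2 e q) (I2 e q) k) i)ᵀ) =
      ![J2 k e q, B2 x.dual, B2 y.dual] := by
    funext i
    fin_cases i
    exacts [J2_dual, B2_dual x, B2_dual y]
  rwa [h2] at h1

/-! ### the case (B) -/

theorem lin_mem {x y : PN k e q} {T : Fin 3 → Matrix (I2 e q) (I2 e q) k} (hx : B2 x ∈ adj T)
    (hy : B2 y ∈ adj T) (α β : k) : B2 (x.lin α β y) ∈ adj T := by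
  rw [B2_lin]
  exact add_mem (SMulMemClass.smul_mem _ hx) (SMulMemClass.smul_mem _ hy)

theorem B2_mem {x y : PN k e q} : B2 x ∈ adj ![J2 k e q, B2 x, B2 y] ∧
    B2 y ∈ adj ![J2 k e q, B2 x, B2 y] ∧ J2 k e q ∈ adj ![J2 k e q, B2 x, B2 y] :=
  ⟨D8.mem1 _ _ _, D8.mem2 _ _ _, D8.mem0 _ _ _⟩

/-- the case (B) -/
theorem no_B [CharZero k] {x y : PN k e 1} (hT : MaxR ρ ![J2 k e 1, B2 x, B2 y])
    (hρ : ∀ i, ρ i = (J2 k e 1 ^ i).rank) (hax : x.a0 ≠ 0) (hbx : x.b0 ≠ 0)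
    (hay : y.a0 = 0) (hby : y.b0 = 0) (hQy : y.Q0 = 0) (hPy : y.P0 = 0) : False := by
  have hinf : Infinite k := CharZero.infinite k
  obtain ⟨mx, my, mA⟩ := B2_mem (x := x) (y := y)
  have hrel := (cn_iff x y).1 hT.cn
  obtain ⟨i, hi⟩ : ∃ i, x.a0 i ≠ 0 := by
    by_contra h
    push Not at h
    exact hax (funext h)
  obtain ⟨j, hj⟩ : ∃ j, x.b0 j ≠ 0 := by
    by_contra h
    push Not at h
    exact hbx (funext h)
  set f : Fin e → k := Pi.single j (x.b0 j)⁻¹ with hf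
  have hbf : x.b0 ⬝ᵥ f = 1 := by
    rw [hf, dotProduct_single, mul_inv_cancel₀ hj]
  have r2 : x.Q0 *ᵥ (x.P0 *ᵥ f) = (2 : k) • x.a0 := by
    rw [mulVec_mulVec, R2 hT hρ mA mx, smul_mulVec, vmv, hbf, one_smul]
  -- scalars
  set p := (x.P0 *ᵥ f) 0 with hp
  have hPf : x.P0 *ᵥ f = fun _ => p := by
    funext t
    fin_cases t
    rfl
  have hQ : ∀ t : k, x.Q0 *ᵥ (fun _ => t) = (t * p⁻¹ * 2) • x.a0 := by
    intro t
    have hp0 : p ≠ 0 := by
      intro h0
      rw [hPf, h0] at r2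
      have : (fun _ : Fin 1 => (0 : k)) = 0 := rfl
      rw [this, mulVec_zero] at r2
      exact hax ((smul_eq_zero.1 r2.symm).resolve_left (by norm_num))
    have : (fun _ : Fin 1 => t) = (t * p⁻¹) • (fun _ : Fin 1 => p) := by
      funext _
      simp [mul_assoc, inv_mul_cancel₀ hp0]
    rw [this, mulVec_smul, ← hPf, r2, smul_smul]
  have hp0 : p ≠ 0 := by
    intro h0
    rw [hPf, h0] at r2
    have : (fun _ : Fin 1 => (0 : k)) = 0 := rfl
    rw [this, mulVec_zero] at r2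
    exact hax ((smul_eq_zero.1 r2.symm).resolve_left (by norm_num))
  set c := y.c0 0 with hc
  have hcy : y.c0 = fun _ => c := by
    funext t
    fin_cases t
    rfl
  set g := y.g0 0 with hg
  have hgy : y.g0 = fun _ => g := by
    funext t
    fin_cases t
    rfl
  set v := y.V1 0 0 with hv
  have hV : ∀ w : Fin 1 → k, y.V1 *ᵥ w = v • w := by
    intro w
    funext i
    fin_cases i
    simp [mulVec, dotProduct, hv]
  have hdot : ∀ a b : k, (fun _ : Fin 1 => a) ⬝ᵥ (fun _ : Fin 1 => b) = a * b := by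
    intro a b
    simp [dotProduct]
  -- `C4`
  have c4 : y.N1 *ᵥ x.a0 = (c * p⁻¹ * 2) • x.a0 := by
    have h := hrel.C4
    rw [hay, hQy, mulVec_zero, zero_mulVec, zero_add, add_zero, hcy, hQ] at h
    exact h.symm
  have c8 : x.b0 ⬝ᵥ (y.N1 *ᵥ f) = g * p := by
    have h := congrArg (fun w => w ⬝ᵥ f) hrel.C8
    simp only [hPy, hby, vecMul_zero, zero_vecMul, add_zero, zero_add, add_dotProduct,
      ← dotProduct_mulVec, hPf, hgy, hdot] at h
    exact h
  have c12 : (x.P0 *ᵥ (y.N1 *ᵥ f)) 0 = c + v * p := by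
    have h := congrFun (congrArg (fun w => w *ᵥ f) hrel.C12) 0
    simp only [hPy, hby, Matrix.mul_zero, Matrix.zero_mul, add_zero, add_mulVec,
      ← mulVec_mulVec, hPf, hV, hcy, vecMulVec_mulVec] at h
    simpa [hbf] using h
  have c15 : g + v * (p⁻¹ * 2) = c * p⁻¹ * 2 * (p⁻¹ * 2) := by
    have h := congrFun (congrArg (fun w => w *ᵥ (fun _ => (1 : k))) hrel.C15) i
    simp only [hQy, hay, Matrix.mul_zero, Matrix.zero_mul, add_zero, add_mulVec,
      ← mulVec_mulVec, hV, vecMulVec_mulVec, hQ, mulVec_smul, c4] at h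
    rw [hgy] at h
    simp only [hdot, Pi.add_apply, Pi.smul_apply, smul_eq_mul, MulOpposite.smul_eq_mul_unop,
      MulOpposite.unop_op, Pi.zero_apply] at h
    have h2 : (g + v * (p⁻¹ * 2) - c * p⁻¹ * 2 * (p⁻¹ * 2)) * x.a0 i = 0 := by
      linear_combination h
    exact sub_eq_zero.1 ((mul_eq_zero.1 h2).resolve_right hi)
  -- `R2` gives `b0 (N1' f) * 2 = ..`
  have c12' : (x.P0 *ᵥ (y.N1 *ᵥ f)) 0 = p * (g * p) := by
    have h := congrFun (congrArg (fun w => w *ᵥ (y.N1 *ᵥ f)) (R2 hT hρ mA mx)) i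
    simp only [← mulVec_mulVec, smul_mulVec, vmv, c8] at h
    have h1 : x.P0 *ᵥ (y.N1 *ᵥ f) = fun _ => (x.P0 *ᵥ (y.N1 *ᵥ f)) 0 := by
      funext t
      fin_cases t
      rfl
    rw [h1, hQ] at h
    simp only [Pi.smul_apply, smul_eq_mul] at h
    field_simp at h
    linear_combination h
  -- `R7`
  have r7 := R7 hT hρ mA mx f
  have r7' := R7 hT hρ mA (lin_mem mx my 1 1) f
  have key : (6 * (g * p) + 8 * (g * p) - 2 * v) + 6 * (c * p⁻¹ * 2) + 8 * (c * p⁻¹ * 2) = 0 := by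
    have h := congrFun r7' i
    have h0 := congrFun r7 i
    simp only [PN.lin, hay, hby, hQy, hPy, one_smul, add_zero, add_mulVec, mulVec_add,
      dotProduct_add, add_dotProduct, c8, c4, hPf, hcy, hQ, hbf, hgy, hdot, Matrix.add_apply,
      Pi.add_apply, Pi.smul_apply, smul_eq_mul, Pi.zero_apply, smul_add] at h h0
    have h2 : ((6 * (g * p) + 8 * (g * p) - 2 * v) + 6 * (c * p⁻¹ * 2) + 8 * (c * p⁻¹ * 2)) *
        x.a0 i = 0 := by
      linear_combination h - h0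
    exact (mul_eq_zero.1 h2).resolve_right hi
  have hc0 : c = 0 := by
    rw [c12] at c12'
    field_simp at key c15
    have : 54 * c = 0 := by
      linear_combination key - 4 * c15 + 10 * c12'
    exact (mul_eq_zero.1 this).resolve_left (by norm_num)
  have hv0 : v = 0 := by
    rw [c12, hc0] at c12'
    rw [hc0] at c15
    have h3 : 3 * (v * p) = 0 := by
      field_simp at c15
      linear_combination c15 + c12'
    exact (mul_eq_zero.1 ((mul_eq_zero.1 h3).resolve_left (by norm_num))).resolve_right hp0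
  have hg0 : g = 0 := by
    rw [hc0, hv0] at c15
    simpa using c15
  -- the deformation
  have hcy0 : y.c0 = 0 := by rw [hcy, hc0]; rfl
  have hgy0 : y.g0 = 0 := by rw [hgy, hg0]; rfl
  let d : PN k e 1 :=
    { a0 := 0, a1 := 0, a2 := 0, c0 := 0, c1 := 0, b0 := 0, b1 := 0, b2 := 0, N1 := 0, N2 := 0,
      P0 := 0, P1 := 0, g0 := 0, g1 := 0, Q0 := 0, Q1 := 0, V1 := 1 }
  have hcn : ∀ s : k, CN ![J2 k e 1, B2 x + s • B2 d, B2 y + s • (0 : Matrix _ _ k)] := by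
    intro s
    have h1 : B2 x + s • B2 d = B2 (x.lin 1 s d) := by rw [B2_lin, one_smul]
    rw [h1, smul_zero, add_zero, cn_iff]
    have hVy : y.V1 = 0 := by
      ext a b
      fin_cases a
      fin_cases b
      exact hv0
    constructor
    · have h := hrel.C1
      simpa [PN.lin, d, hay, hby, hQy, hPy, hcy0, hgy0, hVy] using h
    · have h := hrel.C2
      simpa [PN.lin, d, hay, hby, hQy, hPy, hcy0, hgy0, hVy] using h
    · have h := hrel.C3
      simpa [PN.lin, d, hay, hby, hQy, hPy, hcy0, hgy0, hVy] using h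
    · have h := hrel.C4
      simpa [PN.lin, d, hay, hby, hQy, hPy, hcy0, hgy0, hVy] using h
    · have h := hrel.C5
      simpa [PN.lin, d, hay, hby, hQy, hPy, hcy0, hgy0, hVy] using h
    · have h := hrel.C6
      simpa [PN.lin, d, hay, hby, hQy, hPy, hcy0, hgy0, hVy] using h
    · have h := hrel.C7
      simpa [PN.lin, d, hay, hby, hQy, hPy, hcy0, hgy0, hVy] using h
    · have h := hrel.C8
      simpa [PN.lin, d, hay, hby, hQy, hPy, hcy0, hgy0, hVy] using h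
    · have h := hrel.C9
      simpa [PN.lin, d, hay, hby, hQy, hPy, hcy0, hgy0, hVy] using h
    · have h := hrel.C10
      simpa [PN.lin, d, hay, hby, hQy, hPy, hcy0, hgy0, hVy] using h
    · have h := hrel.C11
      simpa [PN.lin, d, hay, hby, hQy, hPy, hcy0, hgy0, hVy] using h
    · have h := hrel.C12
      simpa [PN.lin, d, hay, hby, hQy, hPy, hcy0, hgy0, hVy] using h
    · have h := hrel.C13
      simpa [PN.lin, d, hay, hby, hQy, hPy, hcy0, hgy0, hVy] using h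
    · have h := hrel.C14
      simpa [PN.lin, d, hay, hby, hQy, hPy, hcy0, hgy0, hVy] using h
    · have h := hrel.C15
      simpa [PN.lin, d, hay, hby, hQy, hPy, hcy0, hgy0, hVy] using h
    · have h := hrel.C16
      simpa [PN.lin, d, hay, hby, hQy, hPy, hcy0, hgy0, hVy] using h
  obtain ⟨s, hs, h1⟩ := D8.MaxR.line2 hT (B2 d) 0 hcn (Set.finite_singleton (0 : k))
  have h2 : B2 x + s • B2 d = B2 (x.lin 1 s d) := by rw [B2_lin, one_smul]
  rw [h2, smul_zero, add_zero] at h1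
  obtain ⟨mx', my', mA'⟩ := B2_mem (x := x.lin 1 s d) (y := y)
  have r8 := R7 h1 hρ mA' mx' f
  have h := congrFun r8 i
  have h0 := congrFun r7 i
  simp only [PN.lin, d, one_smul, smul_zero, add_zero, hbf, Matrix.add_apply, Matrix.smul_apply,
    Matrix.one_apply_eq, Pi.add_apply, Pi.smul_apply, smul_eq_mul, Pi.zero_apply, mul_one] at h h0
  have h3 : (2 * s) * x.a0 i = 0 := by linear_combination h0 - h
  have h4 := (mul_eq_zero.1 h3).resolve_right hi
  exact hs ((mul_eq_zero.1 h4).resolve_left (by norm_num))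

/-! ### the case split -/

theorem R2pol [CharZero k] {T : Fin 3 → Matrix (I2 e q) (I2 e q) k} (hT : MaxR ρ T)
    (hρ : ∀ i, ρ i = (J2 k e q ^ i).rank)
    (hA : J2 k e q ∈ adj T) {x y : PN k e q} (hx : B2 x ∈ adj T) (hy : B2 y ∈ adj T) :
    (2 : k) • (x.Q0 * y.P0) = vecMulVec x.a0 y.b0 + (3 : k) • vecMulVec y.a0 x.b0 := by
  have h1 := R2 hT hρ hA hx
  have h2 := R2 hT hρ hA hy
  have h3 := R2 hT hρ hA (lin_mem hx hy 1 1)
  have h4 := ((mul_comm_iff x y).1 (hT.cn.comm hx hy)).C10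
  simp only [PN.lin, one_smul, Matrix.add_mul, Matrix.mul_add, add_vecMulVec, vecMulVec_add] at h3
  ext i j
  have h1' := congrFun (congrFun h1 i) j
  have h2' := congrFun (congrFun h2 i) j
  have h3' := congrFun (congrFun h3 i) j
  have h4' := congrFun (congrFun h4 i) j
  simp only [Matrix.add_apply, Matrix.smul_apply, smul_eq_mul] at h1' h2' h3' h4' ⊢
  linear_combination h3' - h1' - h2' + h4'

/-- a point where three nonzero linear forms do not vanish -/
theorem exists_ne3 [CharZero k] {a a' b b' c c' : k} (ha : a ≠ 0 ∨ a' ≠ 0) (hb : b ≠ 0 ∨ b' ≠ 0)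
    (hc : c ≠ 0 ∨ c' ≠ 0) : ∃ t : k, a + t * a' ≠ 0 ∧ b + t * b' ≠ 0 ∧ c + t * c' ≠ 0 := by
  have hinf : Infinite k := CharZero.infinite k
  have fin1 : ∀ {a a' : k}, (a ≠ 0 ∨ a' ≠ 0) → {t : k | a + t * a' = 0}.Finite := by
    intro a a' h
    by_cases h1 : a' = 0
    · have h2 : a ≠ 0 := h.resolve_right (fun h3 => h3 h1)
      refine Set.Finite.subset Set.finite_empty fun t ht => ?_
      rw [Set.mem_ofPred_eq, h1, mul_zero, add_zero] at ht
      exact h2 ht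
    · refine Set.Finite.subset (Set.finite_singleton (-a / a')) fun t ht => ?_
      rw [Set.mem_ofPred_eq] at ht
      rw [Set.mem_singleton_iff, eq_div_iff h1]
      linear_combination ht
  obtain ⟨t, ht⟩ := ((fin1 ha).union ((fin1 hb).union (fin1 hc))).infinite_compl.nonempty
  rw [Set.mem_compl_iff, Set.mem_union, Set.mem_union, not_or, not_or] at ht
  exact ⟨t, ht.1, ht.2.1, ht.2.2⟩

theorem vec_ne {n : Type*} {a a' : n → k} (h : a ≠ 0 ∨ a' ≠ 0) : ∃ i, a i ≠ 0 ∨ a' i ≠ 0 := by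
  by_contra hh
  push Not at hh
  rcases h with h | h
  · exact h (funext fun i => (hh i).1)
  · exact h (funext fun i => (hh i).2)

theorem mat_ne {m n : Type*} {a a' : Matrix m n k} (h : a ≠ 0 ∨ a' ≠ 0) :
    ∃ i j, a i j ≠ 0 ∨ a' i j ≠ 0 := by
  by_contra hh
  push Not at hh
  rcases h with h | h
  · exact h (by ext i j; exact (hh i j).1)
  · exact h (by ext i j; exact (hh i j).2)

/-- the case (A2) (`b0 = Q0 = 0`): `g0 = 0` -/
theorem g_zero [CharZero k] {x y : PN k e 1} (hT : MaxR ρ ![J2 k e 1, B2 x, B2 y])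
    (hρ : ∀ i, ρ i = (J2 k e 1 ^ i).rank) (hbx : x.b0 = 0) (hby : y.b0 = 0)
    (ha : x.a0 ≠ 0 ∨ y.a0 ≠ 0) (hP : x.P0 ≠ 0 ∨ y.P0 ≠ 0) : x.g0 = 0 ∧ y.g0 = 0 := by
  obtain ⟨mx, my, mA⟩ := B2_mem (x := x) (y := y)
  obtain ⟨i, hi⟩ := vec_ne ha
  obtain ⟨r, j, hj⟩ := mat_ne hP
  fin_cases r
  by_contra hg
  have hg1 : x.g0 0 ≠ 0 ∨ y.g0 0 ≠ 0 := by
    by_contra h
    push Not at h
    refine hg ⟨?_, ?_⟩
    · funext s
      fin_cases s
      exact h.1
    · funext s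
      fin_cases s
      exact h.2
  obtain ⟨t, h1, h2, h3⟩ := exists_ne3 hi hj hg1
  have h := congrFun (R7 hT hρ mA (lin_mem mx my 1 t) (Pi.single j 1)) i
  simp only [PN.lin, hbx, hby, smul_zero, add_zero, zero_dotProduct, mul_zero, zero_smul,
    one_smul, zero_add, sub_zero, Matrix.mulVec_single_one, Pi.add_apply, Pi.smul_apply,
    smul_eq_mul, Pi.zero_apply] at h
  have h4 : (8 : k) * ((x.g0 0 + t * y.g0 0) * (x.P0 0 j + t * y.P0 0 j)) *
      (x.a0 i + t * y.a0 i) = 0 := by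
    simpa [dotProduct, Matrix.col] using h
  exact mul_ne_zero (mul_ne_zero (by norm_num) (mul_ne_zero h3 h2)) h1 h4

/-- a product of a column and a row -/
theorem outer_zero {m n : Type*} {A : Matrix m (Fin 1) k} {B : Matrix (Fin 1) n k}
    (h : A * B = 0) : A = 0 ∨ B = 0 := by
  by_contra hh
  rw [not_or] at hh
  obtain ⟨i, r, hi⟩ := mat_ne (a' := 0) (Or.inl hh.1)
  obtain ⟨r', j, hj⟩ := mat_ne (a' := 0) (Or.inl hh.2)
  fin_cases r
  fin_cases r'
  have h1 := congrFun (congrFun h i) j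
  rw [Matrix.mul_apply] at h1
  simp at h1 hi hj
  rcases h1 with h1 | h1
  · exact hi h1
  · exact hj h1

/-- the pencil with `b0 = 0` -/
theorem no_bzero [CharZero k] (hρ : ∀ i, ρ i = (J2 k e 1 ^ i).rank)
    (HA1 : ∀ x y : PN k e 1, MaxR ρ ![J2 k e 1, B2 x, B2 y] → x.b0 = 0 → y.b0 = 0 →
      x.P0 = 0 → y.P0 = 0 → False)
    (HA2 : ∀ x y : PN k e 1, MaxR ρ ![J2 k e 1, B2 x, B2 y] → x.b0 = 0 → y.b0 = 0 →
      x.Q0 = 0 → y.Q0 = 0 → x.g0 = 0 → y.g0 = 0 → (x.a0 ≠ 0 ∨ y.a0 ≠ 0) →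
      (x.P0 ≠ 0 ∨ y.P0 ≠ 0) → False)
    {x y : PN k e 1} (hT : MaxR ρ ![J2 k e 1, B2 x, B2 y]) (hbx : x.b0 = 0) (hby : y.b0 = 0) :
    False := by
  have hinf : Infinite k := CharZero.infinite k
  obtain ⟨mx, my, mA⟩ := B2_mem (x := x) (y := y)
  by_cases hP : x.P0 = 0 ∧ y.P0 = 0
  · exact HA1 x y hT hbx hby hP.1 hP.2
  have hP' : x.P0 ≠ 0 ∨ y.P0 ≠ 0 := by
    by_contra h
    push Not at h
    exact hP h
  have hQP : ∀ z w : PN k e 1, B2 z ∈ adj ![J2 k e 1, B2 x, B2 y] →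
      B2 w ∈ adj ![J2 k e 1, B2 x, B2 y] → z.b0 = 0 → w.b0 = 0 → z.Q0 * w.P0 = 0 := by
    intro z w hz hw h1 h2
    have h3 := R2pol hT hρ mA hz hw
    rw [h1, h2, vecMulVec_zero, vecMulVec_zero, smul_zero, add_zero, smul_eq_zero] at h3
    exact h3.resolve_left (by norm_num)
  have hQ : x.Q0 = 0 ∧ y.Q0 = 0 := by
    rcases hP' with h | h
    · exact ⟨(outer_zero (hQP x x mx mx hbx hbx)).resolve_right h,
        (outer_zero (hQP y x my mx hby hbx)).resolve_right h⟩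
    · exact ⟨(outer_zero (hQP x y mx my hbx hby)).resolve_right h,
        (outer_zero (hQP y y my my hby hby)).resolve_right h⟩
  by_cases ha : x.a0 = 0 ∧ y.a0 = 0
  · refine HA1 _ _ (maxR_dual hT) ha.1 ha.2 ?_ ?_
    · show x.Q0ᵀ = 0
      rw [hQ.1, transpose_zero]
    · show y.Q0ᵀ = 0
      rw [hQ.2, transpose_zero]
  have ha' : x.a0 ≠ 0 ∨ y.a0 ≠ 0 := by
    by_contra h
    push Not at h
    exact ha h
  obtain ⟨hg1, hg2⟩ := g_zero hT hρ hbx hby ha' hP'
  exact HA2 x y hT hbx hby hQ.1 hQ.2 hg1 hg2 ha' hP'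

/-- the case split for `e = 2` -/
theorem split [CharZero k] (hρ : ∀ i, ρ i = (J2 k 2 1 ^ i).rank)
    (HA1 : ∀ x y : PN k 2 1, MaxR ρ ![J2 k 2 1, B2 x, B2 y] → x.b0 = 0 → y.b0 = 0 →
      x.P0 = 0 → y.P0 = 0 → False)
    (HA2 : ∀ x y : PN k 2 1, MaxR ρ ![J2 k 2 1, B2 x, B2 y] → x.b0 = 0 → y.b0 = 0 →
      x.Q0 = 0 → y.Q0 = 0 → x.g0 = 0 → y.g0 = 0 → (x.a0 ≠ 0 ∨ y.a0 ≠ 0) →
      (x.P0 ≠ 0 ∨ y.P0 ≠ 0) → False)
    {x y : PN k 2 1} (hT : MaxR ρ ![J2 k 2 1, B2 x, B2 y]) : False := by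
  have hinf : Infinite k := CharZero.infinite k
  by_cases hb : x.b0 = 0 ∧ y.b0 = 0
  · exact no_bzero hρ HA1 HA2 hT hb.1 hb.2
  by_cases ha : x.a0 = 0 ∧ y.a0 = 0
  · exact no_bzero hρ HA1 HA2 (maxR_dual hT) ha.1 ha.2
  have hb' : x.b0 ≠ 0 ∨ y.b0 ≠ 0 := by
    by_contra h
    push Not at h
    exact hb h
  have ha' : x.a0 ≠ 0 ∨ y.a0 ≠ 0 := by
    by_contra h
    push Not at h
    exact ha h
  -- a member of the pencil with `a0 ≠ 0` and `b0 ≠ 0`
  obtain ⟨i, hi⟩ := vec_ne ha'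
  obtain ⟨j, hj⟩ := vec_ne hb'
  obtain ⟨t, h1, h2, -⟩ := exists_ne3 hi hj hj
  have hT1 := maxR_lin hT 1 t 0 1 (by simp)
  set x1 := x.lin 1 t y with hx1
  set y1 := x.lin 0 1 y with hy1
  have hax : x1.a0 ≠ 0 := fun h => h1 (by simpa [hx1, PN.lin] using congrFun h i)
  have hbx : x1.b0 ≠ 0 := fun h => h2 (by simpa [hx1, PN.lin] using congrFun h j)
  clear_value x1 y1
  obtain ⟨mx, my, mA⟩ := B2_mem (x := x1) (y := y1)
  -- `a0' = u a0`
  have hdim : ∀ {c a a' : Fin 2 → k}, c ≠ 0 → a ≠ 0 → c ⬝ᵥ a = 0 → c ⬝ᵥ a' = 0 →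
      ∃ u : k, a' = u • a := by
    intro c a a' hc ha h h'
    simp only [dotProduct, Fin.sum_univ_two] at h h'
    have hc' : c 0 ≠ 0 ∨ c 1 ≠ 0 := by
      by_contra hh
      push Not at hh
      exact hc (by funext s; fin_cases s; exacts [hh.1, hh.2])
    have hdet : a 0 * a' 1 - a 1 * a' 0 = 0 := by
      rcases hc' with h0 | h0
      · refine (mul_eq_zero.1 (?_ : c 0 * (a 0 * a' 1 - a 1 * a' 0) = 0)).resolve_left h0
        linear_combination a' 1 * h - a 1 * h'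
      · refine (mul_eq_zero.1 (?_ : c 1 * (a 0 * a' 1 - a 1 * a' 0) = 0)).resolve_left h0
        linear_combination a 0 * h' - a' 0 * h
    have ha1 : a 0 ≠ 0 ∨ a 1 ≠ 0 := by
      by_contra hh
      push Not at hh
      exact ha (by funext s; fin_cases s; exacts [hh.1, hh.2])
    rcases ha1 with h0 | h0
    · refine ⟨a' 0 / a 0, ?_⟩
      funext s
      fin_cases s
      · simp [div_mul_cancel₀ _ h0]
      · simp only [Fin.mk_one, Pi.smul_apply, smul_eq_mul]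
        field_simp
        linear_combination hdet
    · refine ⟨a' 1 / a 1, ?_⟩
      funext s
      fin_cases s
      · simp only [Fin.zero_eta, Pi.smul_apply, smul_eq_mul]
        field_simp
        linear_combination -hdet
      · simp [div_mul_cancel₀ _ h0]
  obtain ⟨u, hu⟩ := hdim hbx hax (R1 hT1 hρ mA mx mx) (R1 hT1 hρ mA mx my)
  have hT2 := maxR_lin hT1 1 0 (-u) 1 (by simp)
  set x2 := x1.lin 1 0 y1 with hx2
  set y2 := x1.lin (-u) 1 y1 with hy2
  have hax2 : x2.a0 ≠ 0 := by simpa [hx2, PN.lin] using hax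
  have hbx2 : x2.b0 ≠ 0 := by simpa [hx2, PN.lin] using hbx
  have hay2 : y2.a0 = 0 := by simp [hy2, PN.lin, hu]
  clear_value x2 y2
  obtain ⟨mx', my', mA'⟩ := B2_mem (x := x2) (y := y2)
  have hcomm : ∀ c a : Fin 2 → k, c ⬝ᵥ a = a ⬝ᵥ c := fun c a => dotProduct_comm c a
  obtain ⟨w, hw⟩ := hdim hax2 hbx2 (by rw [hcomm]; exact R1 hT2 hρ mA' mx' mx')
    (by rw [hcomm]; exact R1 hT2 hρ mA' my' mx')
  have r1 := R2pol hT2 hρ mA' mx' mx'
  have r2 := R2pol hT2 hρ mA' mx' my'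
  have r3 := R2pol hT2 hρ mA' my' mx'
  have r4 := R2pol hT2 hρ mA' my' my'
  rw [hay2, zero_vecMulVec, smul_zero, add_zero, smul_eq_zero] at r4
  have r4' := outer_zero (r4.resolve_left (by norm_num))
  have hab : vecMulVec x2.a0 x2.b0 ≠ 0 := by
    obtain ⟨i, hi⟩ := vec_ne (a' := 0) (Or.inl hax2)
    obtain ⟨j, hj⟩ := vec_ne (a' := 0) (Or.inl hbx2)
    intro h
    have := congrFun (congrFun h i) j
    rw [vecMulVec_apply] at this
    simp at hi hj this
    rcases this with h | h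
    · exact hi h
    · exact hj h
  have hQx : x2.Q0 ≠ 0 := by
    intro h
    rw [h, Matrix.zero_mul, smul_zero] at r1
    have : (4 : k) • vecMulVec x2.a0 x2.b0 = 0 := by rw [r1]; module
    exact hab ((smul_eq_zero.1 this).resolve_left (by norm_num))
  have hPx : x2.P0 ≠ 0 := by
    intro h
    rw [h, Matrix.mul_zero, smul_zero] at r1
    have : (4 : k) • vecMulVec x2.a0 x2.b0 = 0 := by rw [r1]; module
    exact hab ((smul_eq_zero.1 this).resolve_left (by norm_num))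
  have hw0 : w = 0 := by
    by_contra hw0
    rw [hay2, zero_vecMulVec, smul_zero, add_zero, hw, vecMulVec_smul] at r2
    rw [hay2, zero_vecMulVec, zero_add, hw, vecMulVec_smul] at r3
    rcases r4' with h | h
    · rw [h, Matrix.zero_mul, smul_zero] at r3
      have h5 : (3 * w) • vecMulVec x2.a0 x2.b0 = 0 := by rw [r3]; module
      exact hab ((smul_eq_zero.1 h5).resolve_left (mul_ne_zero (by norm_num) hw0))
    · rw [h, Matrix.mul_zero, smul_zero] at r2
      exact hab ((smul_eq_zero.1 r2.symm).resolve_left hw0)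
  have hby2 : y2.b0 = 0 := by rw [hw, hw0, zero_smul]
  rw [hay2, hby2, zero_vecMulVec, vecMulVec_zero, smul_zero, add_zero, smul_eq_zero] at r2
  rw [hay2, hby2, zero_vecMulVec, vecMulVec_zero, smul_zero, add_zero, smul_eq_zero] at r3
  exact no_B hT2 hρ hax2 hbx2 hay2 hby2
    ((outer_zero (r3.resolve_left (by norm_num))).resolve_right hPx)
    ((outer_zero (r2.resolve_left (by norm_num))).resolve_left hQx)

end Pool.Agent.Lib.D13.N4332
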