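import Pool.Agent.Lib.D13.F4332B
import Pool.Agent.Lib.D12.A2

/-!
# MP_5dcbc3_ag: type `(4, 3, 3, 2)`: the case (A2) in the basis of the levels 1, 3, 4, 4; transfer of the type
-/

namespace Pool.Agent.Lib.D13.N4332

open Matrix Pool.Agent.Lib.Q5dc Pool.Agent.Lib.D7 Pool.Agent.Lib.D13

variable {k : Type*} [Field k] {ρ : ℕ → ℕ}

/-- from the Jordan basis to the basis of levels 1, 3, 4, 4 -/
def fA : I2 2 1 → D12.A43.IA
  | .inl 0 => .inl ()
  | .inl 1 => .inr (.inl 0)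
  | .inl 2 => .inr (.inr (.inl 0))
  | .inl 3 => .inr (.inr (.inr 0))
  | .inr (.inl (0, s)) => .inr (.inl s.succ)
  | .inr (.inl (1, s)) => .inr (.inr (.inl ⟨s + 1, by omega⟩))
  | .inr (.inl (2, s)) => .inr (.inr (.inr ⟨s + 1, by omega⟩))
  | .inr (.inr (0, _)) => .inr (.inr (.inl 3))
  | .inr (.inr (1, _)) => .inr (.inr (.inr 3))

/-- the inverse -/
def gA : D12.A43.IA → I2 2 1
  | .inl _ => .inl 0
  | .inr (.inl 0) => .inl 1
  | .inr (.inl 1) => .inr (.inl (0, 0))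
  | .inr (.inl 2) => .inr (.inl (0, 1))
  | .inr (.inr (.inl 0)) => .inl 2
  | .inr (.inr (.inl 1)) => .inr (.inl (1, 0))
  | .inr (.inr (.inl 2)) => .inr (.inl (1, 1))
  | .inr (.inr (.inl 3)) => .inr (.inr (0, 0))
  | .inr (.inr (.inr 0)) => .inl 3
  | .inr (.inr (.inr 1)) => .inr (.inl (2, 0))
  | .inr (.inr (.inr 2)) => .inr (.inl (2, 1))
  | .inr (.inr (.inr 3)) => .inr (.inr (1, 0))

/-- the bijection -/
def eA : I2 2 1 ≃ D12.A43.IA where
  toFun := fA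
  invFun := gA
  left_inv := by decide
  right_inv := by decide

/-- `Y` -/
def yA (x : PN k 2 1) : Matrix (Fin 4) (Fin 4) k :=
  !![0, x.b1 0, x.b1 1, x.g1 0;
     x.a0 0, x.N1 0 0, x.N1 0 1, x.Q1 0 0;
     x.a0 1, x.N1 1 0, x.N1 1 1, x.Q1 1 0;
     0, x.P0 0 0, x.P0 0 1, x.V1 0 0]

/-- `B` -/
def bA (x : PN k 2 1) : Matrix (Fin 4) (Fin 3) k :=
  !![0, x.b2 0, x.b2 1;
     x.a1 0, x.N2 0 0, x.N2 0 1;
     x.a1 1, x.N2 1 0, x.N2 1 1;
     x.c0 0, x.P1 0 0, x.P1 0 1]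

theorem J_A : Matrix.reindexAlgEquiv k k eA (J2 k 2 1) = D12.A43.X43 k := by
  ext i j
  show J2 k 2 1 (gA i) (gA j) = D12.A43.TT 1 0 0 i j
  rcases i with i | i | i | i <;> rcases j with j | j | j | j
  · simp [gA, J2, D12.A43.TT, Matrix.one_apply]
  · fin_cases j <;> simp [gA, J2, D12.A43.TT, Matrix.one_apply]
  · fin_cases j <;> simp [gA, J2, D12.A43.TT, Matrix.one_apply]
  · fin_cases j <;> simp [gA, J2, D12.A43.TT, Matrix.one_apply]
  · fin_cases i <;> simp [gA, J2, D12.A43.TT, Matrix.one_apply]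
  · fin_cases i <;> fin_cases j <;> simp [gA, J2, D12.A43.TT, Matrix.one_apply]
  · fin_cases i <;> fin_cases j <;> simp [gA, J2, D12.A43.TT, Matrix.one_apply]
  · fin_cases i <;> fin_cases j <;> simp [gA, J2, D12.A43.TT, Matrix.one_apply]
  · fin_cases i <;> simp [gA, J2, D12.A43.TT, Matrix.one_apply]
  · fin_cases i <;> fin_cases j <;> simp [gA, J2, D12.A43.TT, Matrix.one_apply]
  · fin_cases i <;> fin_cases j <;> simp [gA, J2, D12.A43.TT, Matrix.one_apply]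
  · fin_cases i <;> fin_cases j <;> simp [gA, J2, D12.A43.TT, Matrix.one_apply]
  · fin_cases i <;> simp [gA, J2, D12.A43.TT, Matrix.one_apply]
  · fin_cases i <;> fin_cases j <;> simp [gA, J2, D12.A43.TT, Matrix.one_apply]
  · fin_cases i <;> fin_cases j <;> simp [gA, J2, D12.A43.TT, Matrix.one_apply]
  · fin_cases i <;> fin_cases j <;> simp [gA, J2, D12.A43.TT, Matrix.one_apply]

theorem B_A {x : PN k 2 1} (hb : x.b0 = 0) (hQ : x.Q0 = 0) (hg : x.g0 = 0) :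
    Matrix.reindexAlgEquiv k k eA (B2 x) =
      D12.A43.TT (yA x) (bA x) ![0, x.a2 0, x.a2 1, x.c1 0] := by
  ext i j
  show B2 x (gA i) (gA j) = D12.A43.TT (yA x) (bA x) ![0, x.a2 0, x.a2 1, x.c1 0] i j
  rcases i with i | i | i | i <;> rcases j with j | j | j | j
  · simp [gA, B2, D12.A43.TT]
  · fin_cases j <;> simp [gA, B2, D12.A43.TT]
  · fin_cases j <;> simp [gA, B2, D12.A43.TT]
  · fin_cases j <;> simp [gA, B2, D12.A43.TT]
  · fin_cases i <;> simp [gA, B2, D12.A43.TT, yA]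
  · fin_cases i <;> fin_cases j <;> simp [gA, B2, D12.A43.TT, hb]
  · fin_cases i <;> fin_cases j <;> simp [gA, B2, D12.A43.TT]
  · fin_cases i <;> fin_cases j <;> simp [gA, B2, D12.A43.TT]
  · fin_cases i <;> simp [gA, B2, D12.A43.TT, bA]
  · fin_cases i <;> fin_cases j <;> simp [gA, B2, D12.A43.TT, yA]
  · fin_cases i <;> fin_cases j <;> simp [gA, B2, D12.A43.TT, hb, hg, hQ]
  · fin_cases i <;> fin_cases j <;> simp [gA, B2, D12.A43.TT]
  · fin_cases i <;> simp [gA, B2, D12.A43.TT]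
  · fin_cases i <;> fin_cases j <;> simp [gA, B2, D12.A43.TT, bA]
  · fin_cases i <;> fin_cases j <;> simp [gA, B2, D12.A43.TT, yA]
  · fin_cases i <;> fin_cases j <;> simp [gA, B2, D12.A43.TT, hb, hg, hQ]

/-- the case (A2) is impossible -/
theorem no_A2' [IsAlgClosed k] [CharZero k] (hρ : ∀ i, ρ i = (J2 k 2 1 ^ i).rank)
    (h3 : ρ 3 ≤ 1) (x y : PN k 2 1) (hT : MaxR ρ ![J2 k 2 1, B2 x, B2 y])
    (hbx : x.b0 = 0) (hby : y.b0 = 0) (hQx : x.Q0 = 0) (hQy : y.Q0 = 0) (hgx : x.g0 = 0)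
    (hgy : y.g0 = 0) (ha : x.a0 ≠ 0 ∨ y.a0 ≠ 0) (hP : x.P0 ≠ 0 ∨ y.P0 ≠ 0) : False := by
  have h1 := D9.MaxR.reindex eA hT
  have h2 : (fun i => Matrix.reindexAlgEquiv k k eA
      ((![J2 k 2 1, B2 x, B2 y] : Fin 3 → Matrix (I2 2 1) (I2 2 1) k) i)) =
      ![D12.A43.X43 k, D12.A43.TT (yA x) (bA x) ![0, x.a2 0, x.a2 1, x.c1 0],
        D12.A43.TT (yA y) (bA y) ![0, y.a2 0, y.a2 1, y.c1 0]] := by
    funext i
    fin_cases i
    exacts [J_A, B_A hbx hQx hgx, B_A hby hQy hgy]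
  rw [h2] at h1
  refine D12.A43.no_A2 h1 h3 (hρ4 hρ) (by simp [yA]) (by simp [yA]) ?_ ?_
  · obtain ⟨i, hi⟩ := vec_ne ha
    fin_cases i
    · rcases hi with h | h
      · exact Or.inl h
      · exact Or.inr (Or.inr (Or.inl h))
    · rcases hi with h | h
      · exact Or.inr (Or.inl h)
      · exact Or.inr (Or.inr (Or.inr h))
  · obtain ⟨r, i, hi⟩ := mat_ne hP
    fin_cases r
    fin_cases i
    · rcases hi with h | h
      · exact Or.inl h
      · exact Or.inr (Or.inr (Or.inl h))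
    · rcases hi with h | h
      · exact Or.inr (Or.inl h)
      · exact Or.inr (Or.inr (Or.inr h))

/-! ### transfer of the type -/

/-- the box of a basis vector -/
def tau : I2 2 1 → IxL [4, 3, 3, 2]
  | .inl i => ⟨0, i⟩
  | .inr (.inl (i, 0)) => ⟨1, i⟩
  | .inr (.inl (i, 1)) => ⟨2, i⟩
  | .inr (.inr (i, _)) => ⟨3, i⟩

theorem tau_inj : Function.Injective tau := by decide

theorem J2_apply (x y : I2 2 1) : J2 k 2 1 x y =
    if (tau x).1 = (tau y).1 ∧ ((tau x).2 : ℕ) = (tau y).2 + 1 then 1 else 0 := by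
  rcases x with x | ⟨x, s⟩ | ⟨x, s⟩ <;> rcases y with y | ⟨y, t⟩ | ⟨y, t⟩
  · fin_cases x <;> fin_cases y <;> rfl
  · fin_cases x <;> fin_cases y <;> fin_cases t <;> rfl
  · fin_cases x <;> fin_cases y <;> rfl
  · fin_cases x <;> fin_cases y <;> fin_cases s <;> rfl
  · fin_cases x <;> fin_cases y <;> fin_cases s <;> fin_cases t <;> rfl
  · fin_cases x <;> fin_cases y <;> fin_cases s <;> rfl
  · fin_cases x <;> fin_cases y <;> rfl
  · fin_cases x <;> fin_cases y <;> fin_cases t <;> rfl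
  · fin_cases x <;> fin_cases y <;> fin_cases s <;> fin_cases t <;> rfl

/-- transfer of the type -/
theorem bridge [Infinite k] (hb : Bad k [4, 3, 3, 2]) : BadM (J2 k 2 1) :=
  hb.bridge _ tau tau_inj (by simp) J2_apply

theorem rank3 : (J2 k 2 1 ^ 3).rank ≤ 1 := by
  have h1 : J2 k 2 1 ^ 3 = vecMulVec (v2 3) (v2 0) := by
    refine ext_vuw (fun j hj => ?_) (fun j hj f => ?_) fun j hj f => ?_
    · rw [J2_pow_v, vecMulVec_mulVec]
      obtain rfl | rfl | rfl | rfl : j = 0 ∨ j = 1 ∨ j = 2 ∨ j = 3 := by omega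
      · funext i
        simp [v2, dotProduct, Fintype.sum_sum_type, Fin.sum_univ_four]
      · rw [v2_ge (by norm_num)]
        funext i
        simp [v2, dotProduct, Fintype.sum_sum_type, Fin.sum_univ_four]
      · rw [v2_ge (by norm_num)]
        funext i
        simp [v2, dotProduct, Fintype.sum_sum_type, Fin.sum_univ_four]
      · rw [v2_ge (by norm_num)]
        funext i
        simp [v2, dotProduct, Fintype.sum_sum_type, Fin.sum_univ_four]
    · rw [J2_pow_u, u2_ge (by omega), vecMulVec_mulVec]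
      funext i
      simp [v2, u2, dotProduct, Fintype.sum_sum_type]
    · rw [J2_pow_w, w2_ge (by omega), vecMulVec_mulVec]
      funext i
      simp [v2, w2, dotProduct, Fintype.sum_sum_type]
  rw [h1]
  exact rank_vecMulVec_le _ _

/-- type `(4, 3, 3, 2)`: reduction to the case (A1) -/
theorem not_bad_of_A1 [IsAlgClosed k] [CharZero k]
    (HA1 : ∀ (ρ : ℕ → ℕ), (∀ i, ρ i = (J2 k 2 1 ^ i).rank) → ρ 3 ≤ 1 → ρ 4 = 0 →
      ∀ x y : PN k 2 1, MaxR ρ ![J2 k 2 1, B2 x, B2 y] → x.b0 = 0 → y.b0 = 0 →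
        x.P0 = 0 → y.P0 = 0 → False) : ¬ Bad k [4, 3, 3, 2] := by
  intro hb
  have hinf : Infinite k := CharZero.infinite k
  obtain ⟨ρ, T, hT, hρ, h0⟩ := bridge hb
  obtain ⟨x, y, h1⟩ := shape hT hρ h0
  have h3 : ρ 3 ≤ 1 := by
    rw [hρ]
    exact rank3
  exact split hρ (HA1 ρ hρ h3 (hρ4 hρ)) (no_A2' hρ h3) h1

end Pool.Agent.Lib.D13.N4332
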