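import Pool.Agent.Lib.D13.T432B

/-!
# MP_5dcbc3_ag: type `(4, 3, 2, 1^2)`: the class `al0 = de0 = s = 0`

`A3`: the parameters of the class with the vectors of `k u0 + P = k^3` (`g` = `c0 u0 + q`,
`e` = `d0 u0 + r`, `D = (ga1; ph)`, `F = (de1; ch)`, `Z = (n1; et)`).
-/

namespace Pool.Agent.Lib.D13.F432

open Matrix Pool.Agent.Lib.Q5dc Pool.Agent.Lib.D7

variable {k : Type*} [Field k] {ρ : ℕ → ℕ}

/-- the parameters of the class `al0 = de0 = s = 0` -/
@[ext] structure A3 (k : Type*) where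
  al1 : k
  al2 : k
  c1 : k
  be0 : k
  be1 : k
  be2 : k
  m1 : k
  m2 : k
  d1 : k
  ga0 : k
  g : Fin 3 → k
  e : Fin 3 → k
  D : Fin 3 → k
  F : Fin 3 → k
  Z : Fin 3 → k

namespace A3

instance : Add (A3 k) := ⟨fun a b => ⟨a.al1 + b.al1, a.al2 + b.al2, a.c1 + b.c1, a.be0 + b.be0,
  a.be1 + b.be1, a.be2 + b.be2, a.m1 + b.m1, a.m2 + b.m2, a.d1 + b.d1, a.ga0 + b.ga0,
  a.g + b.g, a.e + b.e, a.D + b.D, a.F + b.F, a.Z + b.Z⟩⟩

instance : SMul k (A3 k) := ⟨fun t a => ⟨t * a.al1, t * a.al2, t * a.c1, t * a.be0, t * a.be1,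
  t * a.be2, t * a.m1, t * a.m2, t * a.d1, t * a.ga0, t • a.g, t • a.e, t • a.D, t • a.F,
  t • a.Z⟩⟩

section simps

variable (a b : A3 k) (t : k)

@[simp] theorem add_al1 : (a + b).al1 = a.al1 + b.al1 := rfl
@[simp] theorem add_al2 : (a + b).al2 = a.al2 + b.al2 := rfl
@[simp] theorem add_c1 : (a + b).c1 = a.c1 + b.c1 := rfl
@[simp] theorem add_be0 : (a + b).be0 = a.be0 + b.be0 := rfl
@[simp] theorem add_be1 : (a + b).be1 = a.be1 + b.be1 := rfl
@[simp] theorem add_be2 : (a + b).be2 = a.be2 + b.be2 := rfl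
@[simp] theorem add_m1 : (a + b).m1 = a.m1 + b.m1 := rfl
@[simp] theorem add_m2 : (a + b).m2 = a.m2 + b.m2 := rfl
@[simp] theorem add_d1 : (a + b).d1 = a.d1 + b.d1 := rfl
@[simp] theorem add_ga0 : (a + b).ga0 = a.ga0 + b.ga0 := rfl
@[simp] theorem add_g : (a + b).g = a.g + b.g := rfl
@[simp] theorem add_e : (a + b).e = a.e + b.e := rfl
@[simp] theorem add_D : (a + b).D = a.D + b.D := rfl
@[simp] theorem add_F : (a + b).F = a.F + b.F := rfl
@[simp] theorem add_Z : (a + b).Z = a.Z + b.Z := rfl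
@[simp] theorem smul_al1 : (t • a).al1 = t * a.al1 := rfl
@[simp] theorem smul_al2 : (t • a).al2 = t * a.al2 := rfl
@[simp] theorem smul_c1 : (t • a).c1 = t * a.c1 := rfl
@[simp] theorem smul_be0 : (t • a).be0 = t * a.be0 := rfl
@[simp] theorem smul_be1 : (t • a).be1 = t * a.be1 := rfl
@[simp] theorem smul_be2 : (t • a).be2 = t * a.be2 := rfl
@[simp] theorem smul_m1 : (t • a).m1 = t * a.m1 := rfl
@[simp] theorem smul_m2 : (t • a).m2 = t * a.m2 := rfl
@[simp] theorem smul_d1 : (t • a).d1 = t * a.d1 := rfl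
@[simp] theorem smul_ga0 : (t • a).ga0 = t * a.ga0 := rfl
@[simp] theorem smul_g : (t • a).g = t • a.g := rfl
@[simp] theorem smul_e : (t • a).e = t • a.e := rfl
@[simp] theorem smul_D : (t • a).D = t • a.D := rfl
@[simp] theorem smul_F : (t • a).F = t • a.F := rfl
@[simp] theorem smul_Z : (t • a).Z = t • a.Z := rfl

end simps

/-- the zero parameters -/
def z3 (k : Type*) [Field k] : A3 k := ⟨0, 0, 0, 0, 0, 0, 0, 0, 0, 0, 0, 0, 0, 0, 0⟩

/-- the parameters in the notation of `F432` -/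
def par (a : A3 k) : Par k 2 where
  al0 := 0
  al1 := a.al1
  al2 := a.al2
  c0 := a.g 0
  c1 := a.c1
  q := ![a.g 1, a.g 2]
  be0 := a.be0
  be1 := a.be1
  be2 := a.be2
  m1 := a.m1
  m2 := a.m2
  d0 := a.e 0
  d1 := a.d1
  r := ![a.e 1, a.e 2]
  ga0 := a.ga0
  ga1 := a.D 0
  de0 := 0
  de1 := a.F 0
  n1 := a.Z 0
  s := 0
  ph := ![a.D 1, a.D 2]
  ch := ![a.F 1, a.F 2]
  et := ![a.Z 1, a.Z 2]

/-- the class coordinates -/
def of (c : Par k 2) : A3 k where
  al1 := c.al1
  al2 := c.al2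
  c1 := c.c1
  be0 := c.be0
  be1 := c.be1
  be2 := c.be2
  m1 := c.m1
  m2 := c.m2
  d1 := c.d1
  ga0 := c.ga0
  g := ![c.c0, c.q 0, c.q 1]
  e := ![c.d0, c.r 0, c.r 1]
  D := ![c.ga1, c.ph 0, c.ph 1]
  F := ![c.de1, c.ch 0, c.ch 1]
  Z := ![c.n1, c.et 0, c.et 1]

theorem par_of {c : Par k 2} (h1 : c.al0 = 0) (h2 : c.de0 = 0) (h3 : c.s = 0) :
    par (of c) = c := by
  ext i
  · exact h1.symm
  all_goals first
    | rfl
    | exact h2.symm
    | (rw [h3]; rfl)
    | (fin_cases i <;> rfl)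

theorem par_add (a b : A3 k) : par (a + b) = par a + par b := by
  ext i
  · simp [par]
  all_goals first
    | rfl
    | (fin_cases i <;> simp [par])
    | simp [par]

theorem par_smul (t : k) (a : A3 k) : par (t • a) = t • par a := by
  ext i
  · simp [par]
  all_goals first
    | rfl
    | (fin_cases i <;> simp [par])
    | simp [par]

end A3

open A3

/-- the relations in the class `al0 = de0 = s = 0` -/
structure Rel3 (a a' : A3 k) : Prop where
  e2 : a'.al1 * a.be0 + a'.g 0 * a.ga0 = a.al1 * a'.be0 + a.g 0 * a'.ga0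
  e3 : a'.al1 * a.be1 + a'.al2 * a.be0 + a'.c1 * a.ga0 + a.D ⬝ᵥ a'.g =
    a.al1 * a'.be1 + a.al2 * a'.be0 + a.c1 * a'.ga0 + a'.D ⬝ᵥ a.g
  e5 : a'.al1 * a.m1 + a.F ⬝ᵥ a'.g = a.al1 * a'.m1 + a'.F ⬝ᵥ a.g
  e7 : a'.al1 * a.e 0 + a.Z ⬝ᵥ a'.g = a.al1 * a'.e 0 + a'.Z ⬝ᵥ a.g
  w2 : a'.m1 * a.be0 + a'.e 0 * a.ga0 = a.m1 * a'.be0 + a.e 0 * a'.ga0
  w3 : a'.m1 * a.be1 + a'.m2 * a.be0 + a'.d1 * a.ga0 + a.D ⬝ᵥ a'.e =
    a.m1 * a'.be1 + a.m2 * a'.be0 + a.d1 * a'.ga0 + a'.D ⬝ᵥ a.e
  w5 : a'.be0 * a.al1 + a.F ⬝ᵥ a'.e = a.be0 * a'.al1 + a'.F ⬝ᵥ a.e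
  w6 : a'.be0 * a.g 0 + a'.m1 * a.e 0 + a.Z ⬝ᵥ a'.e =
    a.be0 * a'.g 0 + a.m1 * a'.e 0 + a'.Z ⬝ᵥ a.e
  up : a.be0 • a'.F + a.ga0 • a'.Z = a'.be0 • a.F + a'.ga0 • a.Z

theorem rel3_iff {a a' : A3 k} : Rel (par a) (par a') ↔ Rel3 a a' := by
  constructor
  · intro h
    refine ⟨?_, ?_, ?_, ?_, ?_, ?_, ?_, ?_, ?_⟩
    · have := h.e2
      simp [par] at this
      linear_combination this
    · have := h.e3
      simp [par, dotProduct, Fin.sum_univ_three] at this ⊢
      linear_combination this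
    · have := h.e5
      simp [par, dotProduct, Fin.sum_univ_three] at this ⊢
      linear_combination this
    · have := h.e7
      simp [par, dotProduct, Fin.sum_univ_three] at this ⊢
      linear_combination this
    · have := h.w2
      simp [par] at this
      linear_combination this
    · have := h.w3
      simp [par, dotProduct, Fin.sum_univ_three] at this ⊢
      linear_combination this
    · have := h.w5
      simp [par, dotProduct, Fin.sum_univ_three] at this ⊢
      linear_combination this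
    · have := h.w6
      simp [par, dotProduct, Fin.sum_univ_three] at this ⊢
      linear_combination this
    · have h2 := h.u2
      have h3 := h.p1
      simp [par] at h2 h3
      funext i
      fin_cases i <;> simp
      · linear_combination h2
      · linear_combination h3.1
      · linear_combination h3.2
  · intro h
    have p0 := congrFun h.up 0
    have p1 := congrFun h.up 1
    have p2 := congrFun h.up 2
    simp at p0 p1 p2
    refine ⟨?_, ?_, ?_, ?_, ?_, ?_, ?_, ?_, ?_, ?_, ?_, ?_, ?_, ?_, ?_, ?_, ?_, ?_, ?_, ?_⟩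
    · simp [par]
    · have := h.e2
      simp [par]
      linear_combination this
    · have := h.e3
      simp [par, dotProduct, Fin.sum_univ_three] at this ⊢
      linear_combination this
    · simp [par]
    · have := h.e5
      simp [par, dotProduct, Fin.sum_univ_three] at this ⊢
      linear_combination this
    · simp [par]
    · have := h.e7
      simp [par, dotProduct, Fin.sum_univ_three] at this ⊢
      linear_combination this
    · simp [par]
    · have := h.w2
      simp [par]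
      linear_combination this
    · have := h.w3
      simp [par, dotProduct, Fin.sum_univ_three] at this ⊢
      linear_combination this
    · simp [par]
    · have := h.w5
      simp [par, dotProduct, Fin.sum_univ_three] at this ⊢
      linear_combination this
    · have := h.w6
      simp [par, dotProduct, Fin.sum_univ_three] at this ⊢
      linear_combination this
    · simp [par]
    · simp [par]
    · simp [par]
      linear_combination p0
    · simp [par]
    · simp [par]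
    · simp only [par]
      funext i
      fin_cases i <;> simp
      · linear_combination p1
      · linear_combination p2
    · simp [par]

/-- `J, B, C` is a maximal bad triple of the class -/
def M3 (ρ : ℕ → ℕ) (a a' : A3 k) : Prop := MaxR ρ ![J k 2, B (par a), B (par a')]

variable {a a' : A3 k}

theorem M3.rel (h : M3 ρ a a') : Rel3 a a' := rel3_iff.1 (MaxR.rel h)

theorem M3.move [Infinite k] (h : M3 ρ a a') (d d' : A3 k)
    (hr : ∀ t : k, Rel3 (a + t • d) (a' + t • d')) {S : Set k} (hS : S.Finite) :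
    ∃ t, t ∉ S ∧ t ≠ 0 ∧ M3 ρ (a + t • d) (a' + t • d') := by
  obtain ⟨E, hE, h1⟩ := MaxR.move h (par d) (par d') (fun t => by
    rw [← par_smul, ← par_smul, ← par_add, ← par_add]
    exact rel3_iff.2 (hr t))
  obtain ⟨t, ht⟩ := ((hE.union hS).union (Set.finite_singleton 0)).infinite_compl.nonempty
  simp only [Set.mem_compl_iff, Set.mem_union, Set.mem_singleton_iff, not_or] at ht
  refine ⟨t, ht.1.2, ht.2, ?_⟩
  have h2 := h1 t ht.1.1
  rw [← par_smul, ← par_smul, ← par_add, ← par_add] at h2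
  exact h2

theorem M3.lin (h : M3 ρ a a') (x y z w : k) (hd : x * w - y * z ≠ 0) :
    M3 ρ (x • a + y • a') (z • a + w • a') := by
  have h1 := MaxR.lin h x y z w hd
  rw [← par_smul, ← par_smul, ← par_smul, ← par_smul, ← par_add, ← par_add] at h1
  exact h1

/-- base change `u0 - t w1` -/
def A3.ub (a : A3 k) (t : k) : A3 k :=
  { a with
    al1 := a.al1 + t * a.g 0
    al2 := a.al2 + t * a.c1
    m1 := a.m1 + t * a.e 0
    m2 := a.m2 + t * a.d1
    ga0 := a.ga0 - t * a.be0
    D := ![a.D 0 - t * a.be1, a.D 1, a.D 2]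
    F := ![a.F 0 - t * a.m1 + t * (a.Z 0 - t * a.e 0), a.F 1 + t * a.Z 1, a.F 2 + t * a.Z 2]
    Z := ![a.Z 0 - t * a.e 0, a.Z 1, a.Z 2] }

/-- `u0 → w1`, `u1 → w2` -/
def ue (k : Type*) [Field k] : Par k 2 := { (zp : Par k 2) with de0 := 1 }

theorem ue_V (x : Fin 9 → k) (π : Fin 2 → k) :
    B (ue k) *ᵥ V x π = V ![0, 0, 0, 0, 0, x 7, x 8, 0, 0] 0 := by
  rw [B_V]
  congr 1
  · funext i
    fin_cases i <;> simp [ue, zp]
  · simp [ue, zp]

theorem ub_B (a : A3 k) (t : k) :
    (1 + t • B (ue k)) * B (par a) * (1 - t • B (ue k)) = B (par (a.ub t)) := by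
  refine ext_V fun x π => ?_
  rw [← mulVec_mulVec, ← mulVec_mulVec, sub_mulVec, one_mulVec, smul_mulVec, ue_V, V_smul, V_sub,
    B_V, add_mulVec, one_mulVec, smul_mulVec, ue_V, V_smul, V_add, B_V]
  congr 1
  · funext i
    fin_cases i <;> simp [par, A3.ub, dotProduct, Fin.sum_univ_two] <;> ring
  · funext i
    fin_cases i <;> simp [par, A3.ub]

theorem ub_J (t : k) :
    (1 + t • B (ue k)) * J k 2 * (1 - t • B (ue k)) = J k 2 := by
  refine ext_V fun x π => ?_
  rw [← mulVec_mulVec, ← mulVec_mulVec, sub_mulVec, one_mulVec, smul_mulVec, ue_V, V_smul, V_sub,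
    J_V, add_mulVec, one_mulVec, smul_mulVec, ue_V, V_smul, V_add, J_V]
  congr 1
  · funext i
    fin_cases i <;> simp
  · simp

theorem ue_sq : B (ue k) * B (ue k) = 0 := by
  refine ext_V fun x π => ?_
  rw [← mulVec_mulVec, ue_V, ue_V, zero_mulVec, ← V_zero]
  congr 1
  funext i
  fin_cases i <;> simp

theorem M3.ub [Infinite k] (h : M3 ρ a a') (t : k) : M3 ρ (a.ub t) (a'.ub t) := by
  have e1 : (1 + t • B (ue k)) * (1 - t • B (ue k)) = 1 := by
    rw [add_mul, mul_sub, mul_sub, one_mul, one_mul, mul_one, smul_mul_smul_comm, ue_sq]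
    simp
  have e2 : (1 - t • B (ue k)) * (1 + t • B (ue k)) = 1 := by
    rw [sub_mul, mul_add, mul_add, one_mul, one_mul, mul_one, smul_mul_smul_comm, ue_sq]
    simp
  have h2 := MaxR.conj h _ _ e1 e2
  have e3 : (fun i => (1 + t • B (ue k)) * (![J k 2, B (par a), B (par a')] i) *
      (1 - t • B (ue k))) = ![J k 2, B (par (a.ub t)), B (par (a'.ub t))] := by
    funext i
    fin_cases i
    · exact ub_J t
    · exact ub_B a t
    · exact ub_B a' t
  rw [e3] at h2
  exact h2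

end Pool.Agent.Lib.D13.F432
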