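import Pool.Agent.Lib.D13.F432M
import Pool.Agent.Lib.D13.Psi

/-!
# MP_5dcbc3_ag: type `(4, 3, 2, 1, 1)`, raises by cocycles

`DC`: a cocycle `e` of columns orthogonal to a row `ζ` which kills the three matrices has
`e 0 ∈ im J`; dual form `DC*`. `lemmaB0`: if `s = s' = 0`, `[de0, r] = 0` then a row `ζ` killing the
three matrices vanishes on `P`.
-/

set_option autoImplicit false

namespace Pool.Agent.Lib.D13.F432

open Matrix Pool.Agent.Lib.Q5dc Pool.Agent.Lib.D7

section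

variable {k : Type*} [Field k] {n : Type*} [Fintype n] [DecidableEq n] {ρ : ℕ → ℕ}

/-- cocycles of columns -/
theorem dc [Infinite k] {T : Fin 3 → Matrix n n k} (hT : MaxR ρ T) (hρ : ρ 1 ≤ (T 0).rank)
    {ζ : n → k} (hζ : ∀ j, ζ ᵥ* T j = 0) {e : Fin 3 → n → k} (he : ∀ j, ζ ⬝ᵥ e j = 0)
    (hc : ∀ a b, T a *ᵥ e b = T b *ᵥ e a) {q : n → k} (hq : T 0 *ᵥ q = 0)
    (hζq : ζ ⬝ᵥ q ≠ 0) : ∃ m, e 0 = T 0 *ᵥ m := by
  obtain ⟨m, hm⟩ := MaxR.psi0 hT 0 (by simpa using hρ) ζ hζ e he hc q (by simpa using hq) hζq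
  exact ⟨m, by simpa using hm⟩

/-- cocycles of rows -/
theorem dc' [Infinite k] {T : Fin 3 → Matrix n n k} (hT : MaxR ρ T) (hρ : ρ 1 ≤ (T 0).rank)
    {m : n → k} (hm : ∀ j, T j *ᵥ m = 0) {g : Fin 3 → n → k} (hg : ∀ j, g j ⬝ᵥ m = 0)
    (hc : ∀ a b, g b ᵥ* T a = g a ᵥ* T b) {q : n → k} (hq : q ᵥ* T 0 = 0)
    (hq0 : q ⬝ᵥ m ≠ 0) : ∃ x, g 0 = x ᵥ* T 0 := by
  have e1 : (∑ j, (Pi.single 0 1 : Fin 3 → k) j • T j) = T 0 := by
    simp
  have e2 : (∑ j, (Pi.single 0 1 : Fin 3 → k) j • g j) = g 0 := by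
    simp
  obtain ⟨x, hx⟩ := MaxR.phi hT (Pi.single 0 1) 0 (by rw [e1]; simpa using hρ) m hm g hg hc q
    (by rw [e1]; simpa using hq) hq0
  rw [e1, e2] at hx
  exact ⟨x, by simpa using hx⟩

/-- a linear map into a space of smaller dimension is not injective -/
theorem exists_kerB {a b : ℕ} (h : b < a) (L : (Fin a → k) →ₗ[k] (Fin b → k)) :
    ∃ v, v ≠ 0 ∧ L v = 0 := by
  have h1 : LinearMap.ker L ≠ ⊥ := LinearMap.ker_ne_bot_of_finrank_lt (by simpa using h)
  obtain ⟨v, hv, hv0⟩ := Submodule.exists_mem_ne_zero_of_ne_bot h1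
  exact ⟨v, hv0, hv⟩

end

variable {k : Type*} [Field k] {ρ : ℕ → ℕ}

namespace B43Aux

/-- the six equations for the cocycle -/
def L (c c' : Par k 2) (zw zu : k) (z : Fin 2 → k) : (Fin 7 → k) →ₗ[k] (Fin 6 → k) where
  toFun v := ![
    c.be2 * (c'.de0 * v 0) + c.be1 * (c'.de1 * v 0 + (c'.ch 0 * v 1 + c'.ch 1 * v 2)) +
        c.ga1 * (c'.n1 * v 0 + (c'.et 0 * v 1 + c'.et 1 * v 2)) + (c.ph 0 * v 5 + c.ph 1 * v 6) -
      (c'.be2 * (c.de0 * v 0) + c'.be1 * (c.de1 * v 0 + (c.ch 0 * v 1 + c.ch 1 * v 2)) +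
        c'.ga1 * (c.n1 * v 0 + (c.et 0 * v 1 + c.et 1 * v 2)) + (c'.ph 0 * v 3 + c'.ph 1 * v 4)),
    c.al1 * (c'.ga0 * v 0) + c.al0 * (c'.ga1 * v 0 + (c'.ph 0 * v 1 + c'.ph 1 * v 2)) +
        c.m2 * (c'.de0 * v 0) + c.m1 * (c'.de1 * v 0 + (c'.ch 0 * v 1 + c'.ch 1 * v 2)) +
        c.de1 * (c'.n1 * v 0 + (c'.et 0 * v 1 + c'.et 1 * v 2)) + (c.ch 0 * v 5 + c.ch 1 * v 6) -
      (c'.al1 * (c.ga0 * v 0) + c'.al0 * (c.ga1 * v 0 + (c.ph 0 * v 1 + c.ph 1 * v 2)) +
        c'.m2 * (c.de0 * v 0) + c'.m1 * (c.de1 * v 0 + (c.ch 0 * v 1 + c.ch 1 * v 2)) +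
        c'.de1 * (c.n1 * v 0 + (c.et 0 * v 1 + c.et 1 * v 2)) + (c'.ch 0 * v 3 + c'.ch 1 * v 4)),
    c.c0 * (c'.ga0 * v 0) + c.d1 * (c'.de0 * v 0) +
        c.d0 * (c'.de1 * v 0 + (c'.ch 0 * v 1 + c'.ch 1 * v 2)) +
        c.n1 * (c'.n1 * v 0 + (c'.et 0 * v 1 + c'.et 1 * v 2)) + (c.et 0 * v 5 + c.et 1 * v 6) -
      (c'.c0 * (c.ga0 * v 0) + c'.d1 * (c.de0 * v 0) +
        c'.d0 * (c.de1 * v 0 + (c.ch 0 * v 1 + c.ch 1 * v 2)) +
        c'.n1 * (c.n1 * v 0 + (c.et 0 * v 1 + c.et 1 * v 2)) + (c'.et 0 * v 3 + c'.et 1 * v 4)),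
    zu * v 0 + (z 0 * v 1 + z 1 * v 2),
    zw * (c.de0 * v 0) + zu * (c.n1 * v 0 + (c.et 0 * v 1 + c.et 1 * v 2)) +
      (z 0 * v 3 + z 1 * v 4),
    zw * (c'.de0 * v 0) + zu * (c'.n1 * v 0 + (c'.et 0 * v 1 + c'.et 1 * v 2)) +
      (z 0 * v 5 + z 1 * v 6)]
  map_add' v w := by
    funext i
    fin_cases i <;> simp <;> ring
  map_smul' t v := by
    funext i
    fin_cases i <;> simp <;> ring

/-- the columns of the cocycle -/
def e1 (c : Par k 2) (u : k) (a b : Fin 2 → k) : Ix 2 → k :=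
  V ![0, c.ga0 * u, c.ga1 * u + c.ph ⬝ᵥ a, 0, c.de0 * u, c.de1 * u + c.ch ⬝ᵥ a, 0,
    c.n1 * u + c.et ⬝ᵥ a, 0] b

theorem J_e1 {c : Par k 2} (hs : c.s = 0) (u : k) (a b : Fin 2 → k) :
    J k 2 *ᵥ e1 c u a b = B c *ᵥ V ![0, 0, 0, 0, 0, 0, 0, u, 0] a := by
  rw [e1, J_V, B_V]
  congr 1
  · funext i
    fin_cases i <;> simp
  · simp [hs]

end B43Aux

open B43Aux in
/-- **Lemma B** -/
theorem lemmaB0 [Infinite k] {c c' : Par k 2} (hT : MaxR ρ ![J k 2, B c, B c'])
    (hρ : ρ 1 = (J k 2).rank) (hs : c.s = 0) (hs' : c'.s = 0) (hr : c'.de0 • c.r = c.de0 • c'.r)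
    {zw zu : k} {z : Fin 2 → k} (hz : z ≠ 0)
    (h1 : c.al0 * zw + c.c0 * zu + z ⬝ᵥ c.q = 0)
    (h1' : c'.al0 * zw + c'.c0 * zu + z ⬝ᵥ c'.q = 0)
    (h2 : c.d0 * zu + z ⬝ᵥ c.r = 0) (h2' : c'.d0 * zu + z ⬝ᵥ c'.r = 0) : False := by
  have hrel := rel_of_comm (hT.cn.1 1 2)
  obtain ⟨v, hv0, hv⟩ := exists_kerB (show 6 < 7 by norm_num) (L c c' zw zu z)
  set ζ : Ix 2 → k := V ![0, 0, 0, 0, zw, 0, 0, zu, 0] z with hζd
  have hζJ : ζ ᵥ* J k 2 = 0 := by
    rw [hζd, V_J, ← V_zero]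
    congr 1
    funext i
    fin_cases i <;> simp
  have hζB : ∀ d : Par k 2, d.s = 0 → d.al0 * zw + d.c0 * zu + z ⬝ᵥ d.q = 0 →
      d.d0 * zu + z ⬝ᵥ d.r = 0 → ζ ᵥ* B d = 0 := by
    intro d hd g1 g2
    rw [hζd, V_B, ← V_zero]
    congr 1
    · funext i
      fin_cases i
      · simpa using g1
      · simp
      · simp
      · simp
      · simpa using g2
      · simp
      · simp
      · simp [hd]
      · simp
    · simp
  have hζ : ∀ j, ζ ᵥ* ![J k 2, B c, B c'] j = 0 := by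
    intro j
    fin_cases j
    · exact hζJ
    · exact hζB c hs h1 h2
    · exact hζB c' hs' h1' h2'
  obtain ⟨i0, hi0⟩ : ∃ i, z i ≠ 0 := Function.ne_iff.1 hz
  have hq : J k 2 *ᵥ V 0 (Pi.single i0 1) = 0 := by
    rw [J_V, ← V_zero]
    congr 1
    funext i
    fin_cases i <;> simp
  have hζq : ζ ⬝ᵥ V 0 (Pi.single i0 1) ≠ 0 := by
    rw [hζd, V_dot]
    simpa using hi0
  have hV := fun i => congrFun hv i
  have l0 := hV 0
  have l1 := hV 1
  have l2 := hV 2
  have l3 := hV 3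
  have l4 := hV 4
  have l5 := hV 5
  simp only [L, LinearMap.coe_mk, AddHom.coe_mk, Matrix.cons_val, Pi.zero_apply] at l0 l1 l2 l3 l4 l5
  set a : Fin 2 → k := ![v 1, v 2] with ha
  set b : Fin 2 → k := ![v 3, v 4] with hb
  set g : Fin 2 → k := ![v 5, v 6] with hg
  have hdot : ∀ (x : Fin 2 → k) (s t : k), x ⬝ᵥ ![s, t] = x 0 * s + x 1 * t := by
    intro x s t
    simp [dotProduct, Fin.sum_univ_two]
  have he0 : ζ ⬝ᵥ V ![0, 0, 0, 0, 0, 0, 0, v 0, 0] a = 0 := by
    rw [hζd, V_dot, ha, hdot]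
    simp [dotProduct, Fin.sum_univ_succ]
    linear_combination l3
  have he1 : ζ ⬝ᵥ e1 c (v 0) a b = 0 := by
    rw [hζd, e1, V_dot, ha, hb, hdot, hdot, hdot, hdot]
    simp [dotProduct, Fin.sum_univ_succ]
    linear_combination l4
  have he2 : ζ ⬝ᵥ e1 c' (v 0) a g = 0 := by
    rw [hζd, e1, V_dot, ha, hg, hdot, hdot, hdot, hdot]
    simp [dotProduct, Fin.sum_univ_succ]
    linear_combination l5
  have h12 : B c *ᵥ e1 c' (v 0) a g = B c' *ᵥ e1 c (v 0) a b := by
    rw [e1, e1, B_V, B_V]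
    have p1 := fun i => congrFun hrel.p1 i
    have p2 := fun i => congrFun hrel.p2 i
    simp only [Pi.add_apply, Pi.smul_apply, smul_eq_mul] at p1 p2
    have u2 := hrel.u2
    have u3 := hrel.u3
    have u4 := hrel.u4
    rw [hs, hs'] at u2 u3 u4
    simp only [dotProduct_zero, add_zero] at u2 u3 u4
    congr 1
    · rw [ha, hb, hg]
      simp only [hdot]
      funext i
      fin_cases i
      · simp
      · simp
        linear_combination (v 0) * hrel.u1
      · simp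
        linear_combination (v 0) * u2 + (v 1) * p1 0 + (v 2) * p1 1
      · simp
        linear_combination l0
      · simp
      · simp
        linear_combination (v 0) * u3 + (v 1) * p2 0 + (v 2) * p2 1
      · simp
        linear_combination l1
      · simp
        linear_combination (v 0) * u4
      · simp
        linear_combination l2
    · rw [hs, hs']
      simp only [smul_zero, add_zero, Matrix.cons_val, zero_smul, zero_add]
      funext i
      have := congrFun hr i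
      simp only [Pi.smul_apply, smul_eq_mul] at this ⊢
      linear_combination (v 0) * this
  by_cases hk : v 0 = 0 ∧ a = 0
  · obtain ⟨hk0, hka⟩ := hk
    have ha1 : v 1 = 0 := by simpa [ha] using congrFun hka 0
    have ha2 : v 2 = 0 := by simpa [ha] using congrFun hka 1
    have hzb : z ⬝ᵥ b = 0 := by
      rw [hb, hdot]
      rw [hk0, ha1, ha2] at l4
      linear_combination l4
    have hzg : z ⬝ᵥ g = 0 := by
      rw [hg, hdot]
      rw [hk0, ha1, ha2] at l5
      linear_combination l5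
    set p0 : Fin 2 → k := ![- z 1, z 0] with hp0
    have hline : ∀ y : Fin 2 → k, z ⬝ᵥ y = 0 → ∃ t : k, y = t • p0 := by
      intro y hy
      simp only [dotProduct, Fin.sum_univ_two] at hy
      by_cases hz0 : z 0 = 0
      · have hz1 : z 1 ≠ 0 := by
          intro h
          apply hz
          funext i
          fin_cases i
          · exact hz0
          · exact h
        rw [hz0, zero_mul, zero_add] at hy
        have hy1 := (mul_eq_zero.1 hy).resolve_left hz1
        refine ⟨- (y 0 / z 1), ?_⟩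
        funext i
        fin_cases i
        · simp [hp0]
          field_simp
        · simp [hp0, hz0, hy1]
      · refine ⟨y 1 / z 0, ?_⟩
        funext i
        fin_cases i
        · simp [hp0]
          field_simp
          linear_combination hy
        · simp [hp0]
          field_simp
    obtain ⟨tb, htb⟩ := hline b hzb
    obtain ⟨tg, htg⟩ := hline g hzg
    have hne : tb ≠ 0 ∨ tg ≠ 0 := by
      by_contra hcon
      rw [not_or, not_not, not_not] at hcon
      rw [hcon.1, zero_smul] at htb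
      rw [hcon.2, zero_smul] at htg
      apply hv0
      funext i
      fin_cases i
      · exact hk0
      · exact ha1
      · exact ha2
      · simpa [hb] using congrFun htb 0
      · simpa [hb] using congrFun htb 1
      · simpa [hg] using congrFun htg 0
      · simpa [hg] using congrFun htg 1
    have hp0ne : p0 ≠ 0 := by
      intro h
      apply hz
      funext i
      fin_cases i
      · simpa [hp0] using congrFun h 1
      · simpa [hp0] using congrFun h 0
    have hee : ∀ (d : Par k 2) (y : Fin 2 → k), e1 d (v 0) a y = V 0 y := by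
      intro d y
      rw [e1, hk0, hka]
      congr 1
      funext i
      fin_cases i <;> simp
    rw [hee, hee, htg, htb] at h12
    have hJp : J k 2 *ᵥ V 0 p0 = 0 := by
      rw [J_V, ← V_zero]
      congr 1
      funext i
      fin_cases i <;> simp
    have hVs : ∀ t : k, (V 0 (t • p0) : Ix 2 → k) = t • V 0 p0 := by
      intro t
      rw [V_smul, smul_zero]
    rw [hVs, hVs, mulVec_smul, mulVec_smul] at h12
    have hzp : ζ ⬝ᵥ V 0 p0 = 0 := by
      rw [hζd, V_dot, hp0, hdot, dotProduct_zero]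
      ring
    have hζc := hζB c hs h1 h2
    have hζc' := hζB c' hs' h1' h2'
    have hfin : ∀ x, J k 2 *ᵥ x ≠ V 0 p0 := by
      intro x hx
      rw [V_eta x, J_V] at hx
      exact hp0ne (V_inj hx).2.symm
    -- the pencil member `tg B c - tb B c'` kills `p0`
    by_cases htg0 : tg = 0
    · have htb0 : tb ≠ 0 := hne.resolve_right (by simpa using htg0)
      rw [htg0, zero_smul] at h12
      have hBp : B c' *ᵥ V 0 p0 = 0 := (smul_eq_zero.1 h12.symm).resolve_left htb0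
      obtain ⟨x, hx⟩ := MaxR.kl (D8.MaxR.swap hT) hρ.symm hJp hBp hζJ hζc' (fun j => by
        rcases j with _ | j
        · simpa using hzp
        · rw [pow_succ', ← mulVec_mulVec, dotProduct_mulVec, hζc, zero_dotProduct]) hq hζq
      exact hfin x hx
    · have hlin := D8.MaxR.lin hT tg (-tb) 0 1 0 0 0 0 (by simpa using htg0)
      simp only [zero_smul, add_zero, one_smul, zero_add] at hlin
      obtain ⟨x, hx⟩ := MaxR.kl hlin hρ.symm hJp (g := V 0 p0) (ζ := ζ) (by
        rw [add_mulVec, smul_mulVec, smul_mulVec, h12, neg_smul, add_neg_cancel]) hζJ (by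
        rw [vecMul_add, vecMul_smul, vecMul_smul, hζc, hζc', smul_zero, smul_zero, add_zero])
        (fun j => by
          rcases j with _ | j
          · simpa using hzp
          · rw [pow_succ', ← mulVec_mulVec, dotProduct_mulVec, hζc', zero_dotProduct]) hq hζq
      exact hfin x hx
  · obtain ⟨m, hm⟩ := dc hT hρ.le hζ
      (e := ![V ![0, 0, 0, 0, 0, 0, 0, v 0, 0] a, e1 c (v 0) a b, e1 c' (v 0) a g]) (by
        intro j
        fin_cases j
        · exact he0
        · exact he1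
        · exact he2) (by
        have j1 := J_e1 hs (v 0) a b
        have j2 := J_e1 hs' (v 0) a g
        intro i j
        fin_cases i <;> fin_cases j
        · rfl
        · exact j1
        · exact j2
        · exact j1.symm
        · rfl
        · exact h12
        · exact j2.symm
        · exact h12.symm
        · rfl) hq hζq
    apply hk
    have hm' : V ![0, 0, 0, 0, 0, 0, 0, v 0, 0] a = J k 2 *ᵥ m := hm
    rw [V_eta m, J_V] at hm'
    obtain ⟨g1, g2⟩ := V_inj hm'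
    exact ⟨by simpa using congrFun g1 7, g2⟩

end Pool.Agent.Lib.D13.F432
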