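import Pool.Agent.Lib.D13.T432B
import Pool.Agent.Lib.D13.F43B

/-!
# MP_5dcbc3_ag: type `(4, 3, 2, 1, 1)`: rank conditions

`K43Aux.rcs`: the rank conditions for a matrix of the pencil.
-/

namespace Pool.Agent.Lib.D13.F432

open Matrix Pool.Agent.Lib.Q5dc Pool.Agent.Lib.D7

variable {k : Type*} [Field k] {p : ℕ} {ρ : ℕ → ℕ}

namespace K43Aux

/-- fourth order -/
theorem rk4 [Infinite k] {n : Type*} [Fintype n] [DecidableEq n] {T : Fin 3 → Matrix n n k}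
    (hT : MaxR ρ T) {A X : Matrix n n k} (hA : A ∈ adj T)
    (hr : A.rank = ρ 1) (hX : X ∈ adj T) {a b c d : n → k} (ha : A *ᵥ a = 0)
    (hb : X *ᵥ a = A *ᵥ b) (hc : X *ᵥ b = A *ᵥ c) (hd : X *ᵥ c = A *ᵥ d) :
    ∃ x, A *ᵥ x = X *ᵥ d := by
  refine MaxR.im_line hT hA hr hX fun s hs =>
    ⟨-(s⁻¹ * s⁻¹ * s⁻¹ * s⁻¹) • a + (s⁻¹ * s⁻¹ * s⁻¹) • b + -(s⁻¹ * s⁻¹) • c + s⁻¹ • d, ?_⟩
  simp only [add_mulVec, mulVec_add, mulVec_smul, smul_mulVec, ha, hb, hc, hd, smul_add, smul_smul,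
    zero_add]
  rw [show -(s⁻¹ * s⁻¹) * s = -s⁻¹ by field_simp, inv_mul_cancel₀ hs, one_smul, neg_smul,
    show s⁻¹ * s⁻¹ * s⁻¹ * s = s⁻¹ * s⁻¹ by field_simp, neg_smul,
    show -(s⁻¹ * s⁻¹ * s⁻¹ * s⁻¹) * s = -(s⁻¹ * s⁻¹ * s⁻¹) by field_simp, neg_smul]
  abel

theorem mul31 [CharZero k] {n : Type*} [Fintype n] [DecidableEq n] {T : Fin 3 → Matrix n n k}
    (hT : MaxR ρ T) (h4 : ρ 4 = 0) {A X : Matrix n n k} (hA : A ∈ adj T) (hX : X ∈ adj T) :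
    A * X ^ 3 = 0 := by
  have hc : Commute A X := hT.cn.comm hA hX
  have key : ∀ s : k, (A + s • X) ^ 4 = 0 := fun s =>
    hT.pow_eq_zero (add_mem hA (SMulMemClass.smul_mem _ hX)) h4
  have h0 := hT.pow_eq_zero hA h4
  have h5 := hT.pow_eq_zero hX h4
  have h22 := mul4 hT h4 hA hX
  have e4 : ∀ M : Matrix n n k, M * 4 = (4 : k) • M := by
    intro M
    have : (4 : Matrix n n k) = (4 : k) • 1 := by
      ext i j
      by_cases h : i = j <;> simp [h, Matrix.ofNat_apply]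
    rw [this]
    simp
  have e6 : ∀ M : Matrix n n k, M * 6 = (6 : k) • M := by
    intro M
    have : (6 : Matrix n n k) = (6 : k) • 1 := by
      ext i j
      by_cases h : i = j <;> simp [h, Matrix.ofNat_apply]
    rw [this]
    simp
  have ex : ∀ s : k, (A + s • X) ^ 4 = A ^ 4 + (4 * s) • (A ^ 3 * X) +
      (6 * s ^ 2) • (A * A * (X * X)) + (4 * s ^ 3) • (A * X ^ 3) + s ^ 4 • X ^ 4 := by
    intro s
    rw [(hc.smul_right s).add_pow]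
    simp only [Finset.sum_range_succ, Finset.sum_range_zero, smul_pow, mul_smul_comm,
      smul_mul_assoc]
    simp [Nat.choose, pow_succ, mul_assoc]
    simp only [e4, e6, mul_smul_comm]
    module
  have a1 := (ex 1).symm.trans (key 1)
  have a2 := (ex 2).symm.trans (key 2)
  rw [h0, h5, h22] at a1 a2
  have e : (24 : k) • (A * X ^ 3) = 0 := by
    have : (24 : k) • (A * X ^ 3) =
      (0 + (4 * (2 : k)) • (A ^ 3 * X) + (6 * (2 : k) ^ 2) • (0 : Matrix n n k) +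
        (4 * (2 : k) ^ 3) • (A * X ^ 3) + (2 : k) ^ 4 • 0) -
      (2 : k) • (0 + (4 * (1 : k)) • (A ^ 3 * X) + (6 * (1 : k) ^ 2) • (0 : Matrix n n k) +
        (4 * (1 : k) ^ 3) • (A * X ^ 3) + (1 : k) ^ 4 • 0) := by
      module
    rw [this, a1, a2, smul_zero, sub_zero]
  exact (smul_eq_zero.mp e).resolve_left (by norm_num)

/-- the rank conditions for one matrix -/
theorem rcs [CharZero k] {T : Fin 3 → Matrix (Ix p) (Ix p) k} (hT : MaxR ρ T)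
    (h1 : (J k p).rank = ρ 1) (h4 : ρ 4 = 0) (hJ : J k p ∈ adj T) {c : Par k p}
    (hc : B c ∈ adj T) (hs : c.s = 0) :
    c.al0 * c.be0 = 0 ∧ c.de0 * c.d0 = 0 ∧ c.al0 * c.d0 * c.ga0 = 0 ∧ c.c0 * c.de0 * c.be0 = 0 ∧
      (∀ π, (c.de0 * (c.et ⬝ᵥ π)) • c.r = 0) ∧
      ∀ π, (c.be0 * c.de0 * (c.et ⬝ᵥ π)) • c.q + (c.al0 * c.ga0 * (c.et ⬝ᵥ π)) • c.r = 0 := by
  have hab := rc1_one hT h4 hJ hc
  have hdd : c.de0 * c.d0 = 0 := by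
    obtain ⟨x, hx⟩ := rk4 hT hJ h1 hc (a := V ![0, 0, 0, 0, 0, 0, 0, 0, 1] 0)
      (b := V ![0, 0, c.ga0, 0, 0, c.de0, 0, 0, 0] 0)
      (c := V ![0, c.be0 * c.de0, c.be1 * c.de0, 0, 0, c.al0 * c.ga0 + c.m1 * c.de0, 0,
        c.d0 * c.de0, 0] 0)
      (d := V ![0, c.be0 * (c.al0 * c.ga0 + c.m1 * c.de0) + c.ga0 * (c.d0 * c.de0),
        c.be1 * (c.al0 * c.ga0 + c.m1 * c.de0) + c.ga1 * (c.d0 * c.de0), 0,
        c.al0 * (c.be0 * c.de0) + c.de0 * (c.d0 * c.de0),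
        c.al1 * (c.be0 * c.de0) + c.al0 * (c.be1 * c.de0) +
          c.m1 * (c.al0 * c.ga0 + c.m1 * c.de0) + c.de1 * (c.d0 * c.de0), 0,
        c.c0 * (c.be0 * c.de0) + c.d0 * (c.al0 * c.ga0 + c.m1 * c.de0) +
          c.n1 * (c.d0 * c.de0), 0] 0)
      (by
        rw [J_V, ← V_zero]
        congr 1
        funext i
        fin_cases i <;> simp)
      (by
        rw [B_V, J_V]
        congr 1
        · funext i
          fin_cases i <;> simp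
        · simp)
      (by
        rw [B_V, J_V]
        congr 1
        · funext i
          fin_cases i <;> simp
        · simp)
      (by
        rw [B_V, J_V]
        congr 1
        · funext i
          fin_cases i <;> simp
        · simp [hs])
    rw [V_eta x, J_V, B_V] at hx
    have h7 := congrFun (V_inj hx).1 7
    simp at h7
    have h8 : (c.de0 * c.d0) ^ 2 = 0 := by
      rcases h7 with h7 | h7
      · simp [h7]
      · linear_combination c.d0 * h7 - c.de0 * c.d0 * hab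
    exact pow_eq_zero_iff (two_ne_zero) |>.1 h8
  have h3 : c.al0 * c.d0 * c.ga0 + c.c0 * c.de0 * c.be0 = 0 := by
    have h := mul31 hT h4 hJ hc
    have h2 := congrArg (· *ᵥ V ![1, 0, 0, 0, 0, 0, 0, 0, 0] 0) h
    simp only [pow_succ, pow_zero, one_mul, ← mulVec_mulVec, B_V, J_V, zero_mulVec] at h2
    rw [← V_zero] at h2
    have h3 := congrFun (V_inj h2).1 3
    simp at h3
    linear_combination h3 - c.m1 * hab
  have h3' : (c.al0 * c.d0 * c.ga0) ^ 2 = 0 := by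
    linear_combination (c.al0 * c.d0 * c.ga0) * h3 - c.al0 * c.ga0 * c.c0 * c.be0 * hdd
  have h3a : c.al0 * c.d0 * c.ga0 = 0 := pow_eq_zero_iff (two_ne_zero) |>.1 h3'
  have h3b : c.c0 * c.de0 * c.be0 = 0 := by linear_combination h3 - h3a
  have he : ∀ π, (c.de0 * (c.et ⬝ᵥ π)) • c.r = 0 := by
    intro π
    obtain ⟨x, hx⟩ := MaxR.rk3 hT hJ h1 hc (ker_P π)
      (b := V ![0, 0, c.ph ⬝ᵥ π, 0, 0, c.ch ⬝ᵥ π, 0, c.et ⬝ᵥ π, 0] 0)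
      (c := V ![0, c.be0 * (c.ch ⬝ᵥ π) + c.ga0 * (c.et ⬝ᵥ π),
        c.be1 * (c.ch ⬝ᵥ π) + c.ga1 * (c.et ⬝ᵥ π), 0, c.de0 * (c.et ⬝ᵥ π),
        c.al0 * (c.ph ⬝ᵥ π) + c.m1 * (c.ch ⬝ᵥ π) + c.de1 * (c.et ⬝ᵥ π), 0,
        c.d0 * (c.ch ⬝ᵥ π) + c.n1 * (c.et ⬝ᵥ π), 0] 0)
      (by
        rw [B_V, J_V]
        congr 1
        · funext i
          fin_cases i <;> simp
        · simp)
      (by
        rw [B_V, J_V]
        congr 1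
        · funext i
          fin_cases i <;> simp
        · simp [hs])
    rw [V_eta x, J_V, B_V] at hx
    have h := (V_inj hx).2
    simp only [cons_val, hs, smul_zero, add_zero, zero_smul, zero_add] at h
    exact h.symm
  refine ⟨hab, hdd, h3a, h3b, he, fun π => ?_⟩
  obtain ⟨x, hx⟩ := rk4 hT hJ h1 hc (ker_P π)
    (b := V ![0, 0, c.ph ⬝ᵥ π, 0, 0, c.ch ⬝ᵥ π, 0, c.et ⬝ᵥ π, 0] 0)
    (c := V ![0, c.be0 * (c.ch ⬝ᵥ π) + c.ga0 * (c.et ⬝ᵥ π),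
      c.be1 * (c.ch ⬝ᵥ π) + c.ga1 * (c.et ⬝ᵥ π), 0, c.de0 * (c.et ⬝ᵥ π),
      c.al0 * (c.ph ⬝ᵥ π) + c.m1 * (c.ch ⬝ᵥ π) + c.de1 * (c.et ⬝ᵥ π), 0,
      c.d0 * (c.ch ⬝ᵥ π) + c.n1 * (c.et ⬝ᵥ π), 0] 0)
    (d := V ![c.be0 * (c.de0 * (c.et ⬝ᵥ π)),
      c.be1 * (c.de0 * (c.et ⬝ᵥ π)) +
        c.be0 * (c.al0 * (c.ph ⬝ᵥ π) + c.m1 * (c.ch ⬝ᵥ π) + c.de1 * (c.et ⬝ᵥ π)) +
        c.ga0 * (c.d0 * (c.ch ⬝ᵥ π) + c.n1 * (c.et ⬝ᵥ π)),
      c.be2 * (c.de0 * (c.et ⬝ᵥ π)) +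
        c.be1 * (c.al0 * (c.ph ⬝ᵥ π) + c.m1 * (c.ch ⬝ᵥ π) + c.de1 * (c.et ⬝ᵥ π)) +
        c.ga1 * (c.d0 * (c.ch ⬝ᵥ π) + c.n1 * (c.et ⬝ᵥ π)), 0,
      c.al0 * (c.be0 * (c.ch ⬝ᵥ π) + c.ga0 * (c.et ⬝ᵥ π)) + c.m1 * (c.de0 * (c.et ⬝ᵥ π)) +
        c.de0 * (c.d0 * (c.ch ⬝ᵥ π) + c.n1 * (c.et ⬝ᵥ π)),
      c.al1 * (c.be0 * (c.ch ⬝ᵥ π) + c.ga0 * (c.et ⬝ᵥ π)) +
        c.al0 * (c.be1 * (c.ch ⬝ᵥ π) + c.ga1 * (c.et ⬝ᵥ π)) + c.m2 * (c.de0 * (c.et ⬝ᵥ π)) +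
        c.m1 * (c.al0 * (c.ph ⬝ᵥ π) + c.m1 * (c.ch ⬝ᵥ π) + c.de1 * (c.et ⬝ᵥ π)) +
        c.de1 * (c.d0 * (c.ch ⬝ᵥ π) + c.n1 * (c.et ⬝ᵥ π)), 0,
      c.c0 * (c.be0 * (c.ch ⬝ᵥ π) + c.ga0 * (c.et ⬝ᵥ π)) + c.d1 * (c.de0 * (c.et ⬝ᵥ π)) +
        c.d0 * (c.al0 * (c.ph ⬝ᵥ π) + c.m1 * (c.ch ⬝ᵥ π) + c.de1 * (c.et ⬝ᵥ π)) +
        c.n1 * (c.d0 * (c.ch ⬝ᵥ π) + c.n1 * (c.et ⬝ᵥ π)), 0] 0)
    (by
      rw [B_V, J_V]
      congr 1
      · funext i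
        fin_cases i <;> simp
      · simp)
    (by
      rw [B_V, J_V]
      congr 1
      · funext i
        fin_cases i <;> simp
      · simp [hs])
    (by
      rw [B_V, J_V]
      congr 1
      · funext i
        fin_cases i <;> simp
        · rcases mul_eq_zero.1 hdd with h | h <;> simp [h]
      · simp only [cons_val, hs, smul_zero, add_zero, zero_smul, zero_add]
        exact he π)
  rw [V_eta x, J_V, B_V] at hx
  have h := (V_inj hx).2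
  simp only [cons_val, hs, smul_zero, add_zero] at h
  have e : (c.al0 * (c.be0 * (c.ch ⬝ᵥ π) + c.ga0 * (c.et ⬝ᵥ π)) + c.m1 * (c.de0 * (c.et ⬝ᵥ π)) +
      c.de0 * (c.d0 * (c.ch ⬝ᵥ π) + c.n1 * (c.et ⬝ᵥ π))) =
      c.al0 * c.ga0 * (c.et ⬝ᵥ π) + (c.m1 + c.n1) * (c.de0 * (c.et ⬝ᵥ π)) := by
    linear_combination (c.ch ⬝ᵥ π) * hab + (c.ch ⬝ᵥ π) * hdd
  rw [e, add_smul, mul_smul (c.m1 + c.n1), he π, smul_zero, add_zero] at h
  rw [← mul_assoc] at h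
  exact h.symm

/-- a member of the pencil on which finitely many nonzero linear forms do not vanish -/
theorem gen [Infinite k] {m : ℕ} (a b : Fin m → k) (h : ∀ i, a i ≠ 0 ∨ b i ≠ 0) :
    ∃ t : k, ∀ i, a i + t * b i ≠ 0 := by
  have hf : ((Set.univ : Set (Fin m)).image fun i => -(a i / b i)).Finite :=
    Set.toFinite _
  obtain ⟨t, ht⟩ := hf.exists_notMem
  refine ⟨t, fun i hi => ?_⟩
  by_cases hb : b i = 0
  · rw [hb, mul_zero, add_zero] at hi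
    exact (h i).elim (fun h => h hi) (fun h => h hb)
  · refine ht ⟨i, Set.mem_univ i, ?_⟩
    simp only
    field_simp
    linear_combination -hi

end K43Aux

end Pool.Agent.Lib.D13.F432
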