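import Pool.Agent.Lib.D13.T432B

/-!
# MP_5dcbc3_ag: type `(4, 3, 2, 1, 1)`: the class `K3` of parameters
-/

namespace Pool.Agent.Lib.D13.F432

open Matrix Pool.Agent.Lib.Q5dc Pool.Agent.Lib.D7

variable {k : Type*} [Field k] {p : ℕ} {ρ : ℕ → ℕ}

/-- the class `al0 = de0 = 0`, `s = 0` -/
structure K3 (c c' : Par k p) : Prop where
  al0 : c.al0 = 0
  al0' : c'.al0 = 0
  de0 : c.de0 = 0
  de0' : c'.de0 = 0
  s : c.s = 0
  s' : c'.s = 0

theorem K3.swap {c c' : Par k p} (h : K3 c c') : K3 c' c :=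
  ⟨h.al0', h.al0, h.de0', h.de0, h.s', h.s⟩

theorem K3.lin {c c' : Par k p} (h : K3 c c') (x y z w : k) :
    K3 (x • c + y • c') (z • c + w • c') :=
  ⟨by simp [h.al0, h.al0'], by simp [h.al0, h.al0'], by simp [h.de0, h.de0'],
    by simp [h.de0, h.de0'], by simp [h.s, h.s'], by simp [h.s, h.s']⟩

theorem K3.add {c c' d d' : Par k p} (h : K3 c c') (g : K3 d d') : K3 (c + d) (c' + d') :=
  ⟨by simp [h.al0, g.al0], by simp [h.al0', g.al0'], by simp [h.de0, g.de0],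
    by simp [h.de0', g.de0'], by simp [h.s, g.s], by simp [h.s', g.s']⟩

theorem K3.smul {c c' : Par k p} (h : K3 c c') (t : k) : K3 (t • c) (t • c') :=
  ⟨by simp [h.al0], by simp [h.al0'], by simp [h.de0], by simp [h.de0'], by simp [h.s],
    by simp [h.s']⟩

end Pool.Agent.Lib.D13.F432
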