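import Pool.Agent.Lib.D13.F43K
import Pool.Agent.Lib.D13.T43211d

/-!
# MP_5dcbc3_ag: type `(4, 3, 2, 1, 1)`: reduction to the class `K3`

`toK3`: from a maximal triple of this type one gets a maximal triple with `al0 = de0 = s = 0` for
both matrices.
-/

namespace Pool.Agent.Lib.D13.F432

open Matrix Pool.Agent.Lib.Q5dc Pool.Agent.Lib.D7

variable {k : Type*} [Field k] {ρ : ℕ → ℕ}

namespace K43Aux

/-- the second matrix may be moved by matrices commuting with the first one -/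
theorem moveK [Infinite k] {p : ℕ} {c c' K : Par k p} (hT : MaxR ρ ![J k p, B c, B c'])
    (hK : Rel c K) :
    ∃ E : Set k, E.Finite ∧ ∀ t ∉ E, MaxR ρ ![J k p, B c, B (c' + t • K)] := by
  have hfam : ∀ t : k, ![J k p, B c, B c'] + t • ![0, 0, B K] =
      ![J k p, B c, B (c' + t • K)] := by
    intro t
    rw [D8.line3_eq, B_add, B_smul]
    simp
  obtain ⟨E, hE, h1⟩ := hT.deform (fun t => ![J k p, B c, B c'] + t • ![0, 0, B K])
    (PolyFam.line _ _) (by simp) Set.finite_empty (fun t _ => by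
      rw [hfam]
      refine cn_of_rel (rel_of_comm ?_)
      rw [B_add, B_smul, mul_add, add_mul, mul_smul_comm, smul_mul_assoc, comm_of_rel hK,
        comm_of_rel (MaxR.rel hT)])
  exact ⟨E, hE, fun t ht => by
    have h2 := h1 t ht
    rwa [hfam] at h2⟩

theorem ex_ne [Infinite k] {E : Set k} (hE : E.Finite) : ∃ t ∉ E, t ≠ 0 := by
  obtain ⟨t, ht⟩ := (hE.union (Set.finite_singleton 0)).exists_notMem
  simp only [Set.mem_union, not_or, Set.mem_singleton_iff] at ht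
  exact ⟨t, ht.1, ht.2⟩

/-- a nonzero vector of `k^2` killed by a functional -/
theorem ker1 (v : Fin 2 → k) : ∃ z : Fin 2 → k, z ≠ 0 ∧ z ⬝ᵥ v = 0 := by
  by_cases h : v = 0
  · refine ⟨![1, 0], fun h => ?_, by simp [h]⟩
    simpa using congrFun h 0
  · refine ⟨![v 1, -v 0], fun h1 => h ?_, by
      simp [dotProduct, Fin.sum_univ_two]
      ring⟩
    have a := congrFun h1 0
    have b := congrFun h1 1
    simp at a b
    funext i
    fin_cases i
    · exact b
    · exact a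

/-- a nonzero functional on `k^2` takes all values -/
theorem onto1 {v : Fin 2 → k} (h : v ≠ 0) (t : k) : ∃ x : Fin 2 → k, v ⬝ᵥ x = t := by
  obtain ⟨i, hi⟩ := Function.ne_iff.1 h
  refine ⟨Pi.single i (t / v i), ?_⟩
  simp only [dotProduct_single]
  exact mul_div_cancel₀ _ hi

/-- two functionals on `k + k^2` -/
theorem ker21 (a a' : k) (v v' : Fin 2 → k) : ∃ (y : k) (z : Fin 2 → k), (y ≠ 0 ∨ z ≠ 0) ∧
    a * y + z ⬝ᵥ v = 0 ∧ a' * y + z ⬝ᵥ v' = 0 := by
  obtain ⟨w, hw, h⟩ := exists_ker (by norm_num)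
    (![![a, v 0, v 1], ![a', v' 0, v' 1]] : Matrix (Fin 2) (Fin 3) k)
  refine ⟨w 0, ![w 1, w 2], ?_, ?_, ?_⟩
  · by_contra hne
    push Not at hne
    apply hw
    have a := congrFun hne.2 0
    have b := congrFun hne.2 1
    simp at a b
    funext i
    fin_cases i
    · exact hne.1
    · exact a
    · exact b
  · have := congrFun h 0
    simp [mulVec, dotProduct, Fin.sum_univ_succ] at this
    simp [dotProduct, Fin.sum_univ_two]
    linear_combination this
  · have := congrFun h 1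
    simp [mulVec, dotProduct, Fin.sum_univ_succ] at this
    simp [dotProduct, Fin.sum_univ_two]
    linear_combination this

end K43Aux

open K43Aux

/-- the class `K2` -/
theorem k2_false [CharZero k] {c c' : Par k 2} (hT : MaxR ρ ![J k 2, B c, B c'])
    (h1 : (J k 2).rank = ρ 1) (b0 : c.be0 = 0) (g0 : c.ga0 = 0) (d0 : c.de0 = 0) (s0 : c.s = 0)
    (b0' : c'.be0 = 0) (g0' : c'.ga0 = 0) (d0' : c'.de0 = 0) (s0' : c'.s = 0)
    (ha : c.al0 ≠ 0 ∨ c'.al0 ≠ 0) : False := by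
  -- normalize `al0 = (1, 0)`
  obtain ⟨e, e', hT2, a1, a1', b1, g1, d1, s1, b1', g1', d1', s1'⟩ : ∃ e e' : Par k 2,
      MaxR ρ ![J k 2, B e, B e'] ∧ e.al0 = 1 ∧ e'.al0 = 0 ∧ e.be0 = 0 ∧ e.ga0 = 0 ∧ e.de0 = 0 ∧
      e.s = 0 ∧ e'.be0 = 0 ∧ e'.ga0 = 0 ∧ e'.de0 = 0 ∧ e'.s = 0 := by
    by_cases h : c.al0 = 0
    · have h' := ha.resolve_left (by simpa using h)
      refine ⟨_, _, MaxR.lin hT 0 (c'.al0)⁻¹ 1 0 (by simpa using h'), ?_, ?_, ?_, ?_, ?_, ?_,
        ?_, ?_, ?_, ?_⟩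
      · simp [h']
      · simp [h]
      all_goals simp [b0, g0, d0, s0, b0', g0', d0', s0']
    · refine ⟨_, _, MaxR.lin hT (c.al0)⁻¹ 0 (-c'.al0) c.al0 (by simpa using h), ?_, ?_, ?_, ?_,
        ?_, ?_, ?_, ?_, ?_, ?_⟩
      · simp [h]
      · simp
        ring
      all_goals simp [b0, g0, d0, s0, b0', g0', d0', s0']
  clear hT b0 g0 d0 s0 b0' g0' d0' s0' ha c c'
  have hR := MaxR.rel hT2
  have e6 := hR.e6
  have e8 := hR.e8
  rw [a1, a1', zero_mul, one_mul] at e6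
  rw [a1, a1', s1, s1', zero_smul, one_smul, smul_zero, smul_zero, add_zero, add_zero] at e8
  have e6' : e'.d0 = 0 := e6.symm
  have e8' : e'.r = 0 := e8.symm
  -- the functional
  obtain ⟨zu, z, hne, k1, k2⟩ := ker21 e'.c0 e.d0 e'.q e.r
  by_cases hz : z = 0
  · rw [hz] at k1 k2 hne
    have hzu : zu ≠ 0 := hne.resolve_right (by simp)
    have c0' : e'.c0 = 0 := by simpa [hzu] using k1
    have d0 : e.d0 = 0 := by simpa [hzu] using k2
    obtain ⟨E, hE, hm⟩ := moveK hT2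
      (K := { (zp : Par k 2) with c0 := 1, be2 := e.ga1, m2 := e.de1, d1 := e.n1 })
      (by constructor <;> simp [zp, a1, b1, g1, d1, s1, d0])
    obtain ⟨t, ht, ht0⟩ := ex_ne hE
    have hT3 := hm t ht
    obtain ⟨z, hz, hzr⟩ := ker1 e.r
    refine lemmaB0 hT3 h1.symm s1 (by simp [zp, s1']) (by simp [zp, d1, d1'])
      (zw := -(e.c0 * (-(z ⬝ᵥ e'.q) / t) + z ⬝ᵥ e.q)) (zu := -(z ⬝ᵥ e'.q) / t) hz ?_ ?_ ?_ ?_
    · rw [a1]
      ring
    · simp [zp, a1', c0']
      field_simp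
      ring
    · rw [d0, hzr]
      ring
    · simp [zp, e6', e8']
  · refine lemmaB0 hT2 h1.symm s1 s1' (by simp [d1, d1']) (zw := -(e.c0 * zu + z ⬝ᵥ e.q))
      (zu := zu) hz ?_ ?_ ?_ ?_
    · rw [a1]
      ring
    · rw [a1']
      linear_combination k1
    · exact k2
    · rw [e6', e8']
      simp

/-- the class `K4`: consequences of Lemma B -/
theorem k4a [Infinite k] {c c' : Par k 2} (hT : MaxR ρ ![J k 2, B c, B c'])
    (h1 : (J k 2).rank = ρ 1) (d0 : c.d0 = 0) (r0 : c.r = 0) (s0 : c.s = 0)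
    (d0' : c'.d0 = 0) (r0' : c'.r = 0) (s0' : c'.s = 0) :
    c.al0 = 0 ∧ c'.al0 = 0 ∧ c.c0 = 0 ∧ c'.c0 = 0 ∧
      ∀ z, z ⬝ᵥ c.q = 0 → z ⬝ᵥ c'.q = 0 → z = 0 := by
  have key : ∀ (zw zu : k) (z : Fin 2 → k), c.al0 * zw + c.c0 * zu + z ⬝ᵥ c.q = 0 →
      c'.al0 * zw + c'.c0 * zu + z ⬝ᵥ c'.q = 0 → z = 0 := by
    intro zw zu z k1 k2
    by_contra hz
    exact lemmaB0 hT h1.symm s0 s0' (by simp [r0, r0']) hz k1 k2 (by simp [d0, r0])
      (by simp [d0', r0'])
  have ha : c.al0 = 0 ∧ c'.al0 = 0 := by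
    obtain ⟨y, z, hne, k1, k2⟩ := ker21 c.al0 c'.al0 c.q c'.q
    have hz := key y 0 z (by rw [mul_zero, add_zero]; exact k1)
      (by rw [mul_zero, add_zero]; exact k2)
    have hy : y ≠ 0 := hne.resolve_right (by simp [hz])
    rw [hz, zero_dotProduct, add_zero] at k1 k2
    exact ⟨(mul_eq_zero.1 k1).resolve_right hy, (mul_eq_zero.1 k2).resolve_right hy⟩
  have hc : c.c0 = 0 ∧ c'.c0 = 0 := by
    obtain ⟨y, z, hne, k1, k2⟩ := ker21 c.c0 c'.c0 c.q c'.q
    have hz := key 0 y z (by rw [mul_zero, zero_add]; exact k1)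
      (by rw [mul_zero, zero_add]; exact k2)
    have hy : y ≠ 0 := hne.resolve_right (by simp [hz])
    rw [hz, zero_dotProduct, add_zero] at k1 k2
    exact ⟨(mul_eq_zero.1 k1).resolve_right hy, (mul_eq_zero.1 k2).resolve_right hy⟩
  refine ⟨ha.1, ha.2, hc.1, hc.2, fun z k1 k2 => key 0 0 z ?_ ?_⟩
  · simp [k1]
  · simp [k2]

/-- the class `K4` with `de0 = (1, 0)`, `et ≠ 0` -/
theorem k4b [CharZero k] {c c' : Par k 2} (hT : MaxR ρ ![J k 2, B c, B c'])
    (h1 : (J k 2).rank = ρ 1) (b0 : c.be0 = 0) (d0 : c.d0 = 0) (r0 : c.r = 0) (s0 : c.s = 0)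
    (b0' : c'.be0 = 0) (d0' : c'.d0 = 0) (r0' : c'.r = 0) (s0' : c'.s = 0) (he : c.de0 = 1)
    (he' : c'.de0 = 0) (ht : c.et ≠ 0) (hne : c'.ph ≠ c.ga0 • c'.ch) : False := by
  obtain ⟨a0, a0', c0, c0', hq⟩ := k4a hT h1 d0 r0 s0 d0' r0' s0'
  have hR := MaxR.rel hT
  have et' : c'.et = 0 := by
    have h := hR.p2
    rwa [he, he', one_smul, zero_smul] at h
  have ga0' : c'.ga0 = 0 := by
    have h := hR.p1
    rw [b0, b0', et', zero_smul, zero_smul, smul_zero, zero_add, zero_add] at h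
    exact (smul_eq_zero.1 h.symm).resolve_right ht
  obtain ⟨x, hx⟩ := onto1 ht c'.n1
  obtain ⟨y, hy⟩ := onto1 (sub_ne_zero.2 hne)
    (-c'.ga1 + c.ph ⬝ᵥ x + c.ga0 * (c'.de1 - c.ch ⬝ᵥ x))
  rw [sub_dotProduct, smul_dotProduct, smul_eq_mul] at hy
  obtain ⟨E, hE, hm⟩ := MaxR.move hT { (zp : Par k 2) with c0 := 1, q := y }
    { (zp : Par k 2) with q := x, c1 := c'.de1 - c.ch ⬝ᵥ x + c'.ch ⬝ᵥ y } (by
      intro t
      constructor <;> simp only [zp, add_al0, add_al1, add_al2, add_c0, add_c1, add_q, add_be0,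
        add_be1, add_be2, add_m1, add_m2, add_d0, add_d1, add_r, add_ga0, add_ga1, add_de0,
        add_de1, add_n1, add_s, add_ph, add_ch, add_et, smul_al0, smul_al1, smul_al2, smul_c0,
        smul_c1, smul_q, smul_be0, smul_be1, smul_be2, smul_m1, smul_m2, smul_d0, smul_d1,
        smul_r, smul_ga0, smul_ga1, smul_de0, smul_de1, smul_n1, smul_s, smul_ph, smul_ch,
        smul_et, mul_zero, add_zero, smul_zero, mul_one]
      · exact hR.e1
      · have h := hR.e2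
        simp only [a0, a0', b0, b0', c0, c0', ga0'] at h ⊢
        linear_combination h
      · have h := hR.e3
        simp only [a0, a0', b0, b0', c0, c0', ga0', dotProduct_add, dotProduct_smul,
          smul_eq_mul] at h ⊢
        linear_combination h - t * hy
      · have h := hR.e4
        simp only [a0, a0', c0, c0', he'] at h ⊢
        linear_combination h
      · have h := hR.e5
        simp only [a0, a0', c0, c0', he, he', dotProduct_add, dotProduct_smul,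
          smul_eq_mul] at h ⊢
        linear_combination h
      · exact hR.e6
      · have h := hR.e7
        simp only [a0, a0', c0, c0', et', dotProduct_add, dotProduct_smul,
          smul_eq_mul, zero_dotProduct] at h ⊢
        linear_combination h + t * hx
      · simp [a0, a0', s0, s0', r0, r0']
      · exact hR.w2
      · exact hR.w3
      · exact hR.w4
      · exact hR.w5
      · simp [b0, b0', d0, d0', r0, r0']
      · exact hR.w7
      · exact hR.u1
      · exact hR.u2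
      · exact hR.u3
      · exact hR.u4
      · exact hR.p1
      · exact hR.p2)
  obtain ⟨t, ht, ht0⟩ := ex_ne hE
  obtain ⟨-, -, c00, -, -⟩ := k4a (hm t ht) h1 (by simp [zp, d0]) (by simp [zp, r0])
    (by simp [zp, s0]) (by simp [zp, d0']) (by simp [zp, r0']) (by simp [zp, s0'])
  simp [zp, c0] at c00
  exact ht0 c00

/-- the class `K4` -/
theorem k4 [CharZero k] {c c' : Par k 2} (hT : MaxR ρ ![J k 2, B c, B c'])
    (h1 : (J k 2).rank = ρ 1) (b0 : c.be0 = 0) (d0 : c.d0 = 0) (r0 : c.r = 0) (s0 : c.s = 0)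
    (b0' : c'.be0 = 0) (d0' : c'.d0 = 0) (r0' : c'.r = 0) (s0' : c'.s = 0) :
    ∃ d d' : Par k 2, MaxR ρ ![J k 2, B d, B d'] ∧ K3 d d' := by
  by_contra hno
  obtain ⟨a0, a0', -, -, -⟩ := k4a hT h1 d0 r0 s0 d0' r0' s0'
  have hde : c.de0 ≠ 0 ∨ c'.de0 ≠ 0 := by
    by_contra h
    push Not at h
    exact hno ⟨c, c', hT, ⟨a0, a0', h.1, h.2, s0, s0'⟩⟩
  obtain ⟨e, e', hT2, he, he', b1, d1, r1, s1, b1', d1', r1', s1'⟩ : ∃ e e' : Par k 2,
      MaxR ρ ![J k 2, B e, B e'] ∧ e.de0 = 1 ∧ e'.de0 = 0 ∧ e.be0 = 0 ∧ e.d0 = 0 ∧ e.r = 0 ∧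
      e.s = 0 ∧ e'.be0 = 0 ∧ e'.d0 = 0 ∧ e'.r = 0 ∧ e'.s = 0 := by
    by_cases h : c.de0 = 0
    · have h' := hde.resolve_left (by simpa using h)
      refine ⟨_, _, MaxR.lin hT 0 (c'.de0)⁻¹ 1 0 (by simpa using h'), ?_, ?_, ?_, ?_, ?_, ?_,
        ?_, ?_, ?_, ?_⟩
      · simp [h']
      · simp [h]
      all_goals simp [b0, d0, r0, s0, b0', d0', r0', s0']
    · refine ⟨_, _, MaxR.lin hT (c.de0)⁻¹ 0 (-c'.de0) c.de0 (by simpa using h), ?_, ?_, ?_, ?_,
        ?_, ?_, ?_, ?_, ?_, ?_⟩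
      · simp [h]
      · simp
        ring
      all_goals simp [b0, d0, r0, s0, b0', d0', r0', s0']
  clear hT b0 d0 r0 s0 b0' d0' r0' s0' a0 a0' hde c c'
  have hR := MaxR.rel hT2
  have et' : e'.et = 0 := by
    have h := hR.p2
    rwa [he, he', one_smul, zero_smul] at h
  have ht : e.et ≠ 0 := by
    intro h
    exact hno ⟨_, _, MaxR.dual hT2, ⟨b1, b1', d1, d1', h, et'⟩⟩
  by_cases hne : e'.ph = e.ga0 • e'.ch
  · obtain ⟨a0, a0', c0, c0', hq⟩ := k4a hT2 h1 d1 r1 s1 d1' r1' s1'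
    obtain ⟨ν, hν, hνq⟩ := ker1 e.q
    obtain ⟨E, hE, hm⟩ := moveK hT2 (K := { (zp : Par k 2) with ph := ν }) (by
      constructor <;> simp [zp, hνq, r1, s1])
    obtain ⟨t, htE, ht0⟩ := ex_ne hE
    refine k4b (hm t htE) h1 b1 d1 r1 s1 (by simp [zp, b1']) (by simp [zp, d1'])
      (by simp [zp, r1']) (by simp [zp, s1']) he (by simp [zp, he']) ht ?_
    simp [zp, hne, ht0, hν]
  · exact k4b hT2 h1 b1 d1 r1 s1 b1' d1' r1' s1' he he' ht hne

theorem toK3_s [CharZero k] {c c' : Par k 2} (hT : MaxR ρ ![J k 2, B c, B c'])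
    (h1 : (J k 2).rank = ρ 1) (h4 : ρ 4 = 0) (s0 : c.s = 0) (s0' : c'.s = 0) :
    ∃ d d' : Par k 2, MaxR ρ ![J k 2, B d, B d'] ∧ K3 d d' := by
  -- the rank conditions on the pencil
  have hrc : ∀ t : k, _ := fun t => rcs hT h1 h4 (D8.mem0 _ _ _) (c := c + t • c') (by
    rw [B_add, B_smul]
    exact add_mem (D8.mem1 _ _ _) (SMulMemClass.smul_mem _ (D8.mem2 _ _ _))) (by
    simp [s0, s0'])
  simp only [add_al0, add_be0, add_ga0, add_de0, add_d0, add_c0, add_r, add_q, add_et, smul_al0,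
    smul_be0, smul_ga0, smul_de0, smul_d0, smul_c0, smul_r, smul_q, smul_et] at hrc
  have cb : (c.de0 = 0 ∧ c'.de0 = 0) ∨ (c.d0 = 0 ∧ c'.d0 = 0) := by
    by_contra h
    simp only [not_or, not_and_or] at h
    obtain ⟨t, ht⟩ := gen ![c.de0, c.d0] ![c'.de0, c'.d0] (by
      intro i
      fin_cases i
      · exact h.1
      · exact h.2)
    exact mul_ne_zero (ht 0) (ht 1) (hrc t).2.1
  have cd : (c.c0 = 0 ∧ c'.c0 = 0) ∨ (c.de0 = 0 ∧ c'.de0 = 0) ∨ (c.be0 = 0 ∧ c'.be0 = 0) := by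
    by_contra h
    simp only [not_or, not_and_or] at h
    obtain ⟨t, ht⟩ := gen ![c.c0, c.de0, c.be0] ![c'.c0, c'.de0, c'.be0] (by
      intro i
      fin_cases i
      · exact h.1
      · exact h.2.1
      · exact h.2.2)
    exact mul_ne_zero (mul_ne_zero (ht 0) (ht 1)) (ht 2) (hrc t).2.2.2.1
  have cc : (c.al0 = 0 ∧ c'.al0 = 0) ∨ (c.d0 = 0 ∧ c'.d0 = 0) ∨ (c.ga0 = 0 ∧ c'.ga0 = 0) := by
    by_contra h
    simp only [not_or, not_and_or] at h
    obtain ⟨t, ht⟩ := gen ![c.al0, c.d0, c.ga0] ![c'.al0, c'.d0, c'.ga0] (by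
      intro i
      fin_cases i
      · exact h.1
      · exact h.2.1
      · exact h.2.2)
    exact mul_ne_zero (mul_ne_zero (ht 0) (ht 1)) (ht 2) (hrc t).2.2.1
  have vec : ∀ {v v' : Fin 2 → k}, ¬ (v = 0 ∧ v' = 0) → ∃ i, v i ≠ 0 ∨ v' i ≠ 0 := by
    intro v v' h
    rcases not_and_or.1 h with h | h
    · obtain ⟨i, hi⟩ := Function.ne_iff.1 h
      exact ⟨i, Or.inl hi⟩
    · obtain ⟨i, hi⟩ := Function.ne_iff.1 h
      exact ⟨i, Or.inr hi⟩
  have ce : (c.de0 = 0 ∧ c'.de0 = 0) ∨ (c.et = 0 ∧ c'.et = 0) ∨ (c.r = 0 ∧ c'.r = 0) := by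
    by_contra h
    simp only [not_or] at h
    obtain ⟨i, hi⟩ := vec h.2.1
    obtain ⟨j, hj⟩ := vec h.2.2
    obtain ⟨t, ht⟩ := gen ![c.de0, c.et i, c.r j] ![c'.de0, c'.et i, c'.r j] (by
      intro l
      fin_cases l
      · exact not_and_or.1 h.1
      · exact hi
      · exact hj)
    have := congrFun ((hrc t).2.2.2.2.1 (Pi.single i 1)) j
    simp only [dotProduct_single, mul_one, Pi.smul_apply, Pi.add_apply, smul_eq_mul,
      Pi.zero_apply] at this
    exact mul_ne_zero (mul_ne_zero (ht 0) (ht 1)) (ht 2) this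
  -- the class `K3*`
  have k3s : c.be0 = 0 ∧ c'.be0 = 0 → c.d0 = 0 ∧ c'.d0 = 0 → c.et = 0 ∧ c'.et = 0 →
      ∃ d d' : Par k 2, MaxR ρ ![J k 2, B d, B d'] ∧ K3 d d' := fun hb hd he =>
    ⟨_, _, MaxR.dual hT, ⟨hb.1, hb.2, hd.1, hd.2, he.1, he.2⟩⟩
  rcases MaxR.rc1 hT h4 with ha | hb
  · -- `al0 = 0`
    by_cases hde : c.de0 = 0 ∧ c'.de0 = 0
    · exact ⟨c, c', hT, ⟨ha.1, ha.2, hde.1, hde.2, s0, s0'⟩⟩
    have hd := cb.resolve_left hde
    have hre := ce.resolve_left hde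
    by_cases hb : c.be0 = 0 ∧ c'.be0 = 0
    · rcases hre with he | hr
      · exact k3s hb hd he
      · exact k4 hT h1 hb.1 hd.1 hr.1 s0 hb.2 hd.2 hr.2 s0'
    have hc : c.c0 = 0 ∧ c'.c0 = 0 := by
      rcases cd with h | h | h
      · exact h
      · exact absurd h hde
      · exact absurd h hb
    by_cases he : c.et = 0 ∧ c'.et = 0
    · -- `K2*`
      by_cases ha' : c.be0 ≠ 0 ∨ c'.be0 ≠ 0
      · exact (k2_false (MaxR.dual hT) h1 ha.1 hc.1 hd.1 he.1 ha.2 hc.2 hd.2 he.2 ha').elim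
      · push Not at ha'
        exact absurd ha' hb
    · have hr := hre.resolve_left he
      have hq : c.q = 0 ∧ c'.q = 0 := by
        by_contra h
        obtain ⟨i, hi⟩ := vec he
        obtain ⟨j, hj⟩ := vec h
        obtain ⟨t, ht⟩ := gen ![c.be0, c.de0, c.et i, c.q j] ![c'.be0, c'.de0, c'.et i, c'.q j] (by
          intro l
          fin_cases l
          · exact not_and_or.1 hb
          · exact not_and_or.1 hde
          · exact hi
          · exact hj)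
        have := congrFun ((hrc t).2.2.2.2.2 (Pi.single i 1)) j
        simp only [dotProduct_single, mul_one, Pi.smul_apply, Pi.add_apply, smul_eq_mul,
          Pi.zero_apply, hr.1, hr.2, mul_zero, add_zero] at this
        exact mul_ne_zero (mul_ne_zero (mul_ne_zero (ht 0) (ht 1)) (ht 2)) (ht 3) this
      refine (lemmaB0 hT h1.symm s0 s0' (by simp [hr.1, hr.2]) (zw := 0) (zu := 0)
        (z := ![1, 0]) (fun h => by simpa using congrFun h 0) ?_ ?_ ?_ ?_).elim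
      · simp [hq.1]
      · simp [hq.2]
      · simp [hr.1]
      · simp [hr.2]
  · -- `be0 = 0`
    by_cases ha : c.al0 = 0 ∧ c'.al0 = 0
    · -- `al0 = be0 = 0`
      by_cases hde : c.de0 = 0 ∧ c'.de0 = 0
      · exact ⟨c, c', hT, ⟨ha.1, ha.2, hde.1, hde.2, s0, s0'⟩⟩
      have hd := cb.resolve_left hde
      rcases ce.resolve_left hde with he | hr
      · exact k3s hb hd he
      · exact k4 hT h1 hb.1 hd.1 hr.1 s0 hb.2 hd.2 hr.2 s0'
    have ha' : c.al0 ≠ 0 ∨ c'.al0 ≠ 0 := not_and_or.1 ha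
    have k2 : c.ga0 = 0 ∧ c'.ga0 = 0 → c.de0 = 0 ∧ c'.de0 = 0 → False := fun hg hd =>
      k2_false hT h1 hb.1 hg.1 hd.1 s0 hb.2 hg.2 hd.2 s0' ha'
    by_cases hd : c.d0 = 0 ∧ c'.d0 = 0
    · by_cases hr : c.r = 0 ∧ c'.r = 0
      · exact k4 hT h1 hb.1 hd.1 hr.1 s0 hb.2 hd.2 hr.2 s0'
      by_cases he : c.et = 0 ∧ c'.et = 0
      · exact k3s hb hd he
      have hde : c.de0 = 0 ∧ c'.de0 = 0 := by
        rcases ce with h | h | h
        · exact h
        · exact absurd h he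
        · exact absurd h hr
      have hg : c.ga0 = 0 ∧ c'.ga0 = 0 := by
        by_contra h
        obtain ⟨i, hi⟩ := vec he
        obtain ⟨j, hj⟩ := vec hr
        obtain ⟨t, ht⟩ := gen ![c.al0, c.ga0, c.et i, c.r j] ![c'.al0, c'.ga0, c'.et i, c'.r j]
          (by
            intro l
            fin_cases l
            · exact ha'
            · exact not_and_or.1 h
            · exact hi
            · exact hj)
        have := congrFun ((hrc t).2.2.2.2.2 (Pi.single i 1)) j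
        simp only [dotProduct_single, mul_one, Pi.smul_apply, Pi.add_apply, smul_eq_mul,
          Pi.zero_apply, hb.1, hb.2, mul_zero, add_zero, zero_mul, zero_add] at this
        exact mul_ne_zero (mul_ne_zero (mul_ne_zero (ht 0) (ht 1)) (ht 2)) (ht 3) this
      exact (k2 hg hde).elim
    · have hde := cb.resolve_right hd
      have hg : c.ga0 = 0 ∧ c'.ga0 = 0 := by
        rcases cc with h | h | h
        · exact absurd h ha
        · exact absurd h hd
        · exact h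
      exact (k2 hg hde).elim

/-- a maximal triple of type `(4, 3, 2, 1, 1)` gives a maximal triple in the class `K3` -/
theorem toK3' [CharZero k] {c c' : Par k 2} (hT : MaxR ρ ![J k 2, B c, B c'])
    (h1 : (J k 2).rank = ρ 1) (h4 : ρ 4 = 0) :
    ∃ d d' : Par k 2, MaxR ρ ![J k 2, B d, B d'] ∧ K3 d d' := by
  rcases MaxR.rc3 hT h1 with h | h
  · exact toK3_s hT h1 h4 h.1 h.2
  · exact toK3_s (MaxR.dual hT) h1 h4 h.1 h.2

theorem J2_four : J k 2 ^ 4 = 0 := by
  refine ext_V fun x π => ?_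
  rw [pow_succ, pow_succ, pow_succ, pow_succ, pow_zero, one_mul, ← mulVec_mulVec,
    ← mulVec_mulVec, ← mulVec_mulVec, J_V, J_V, J_V, J_V, zero_mulVec, ← V_zero]
  congr 1
  funext i
  fin_cases i <;> simp

/-- a maximal triple of type `(4, 3, 2, 1, 1)` gives a maximal triple in the class `K3` -/
theorem toK3 [IsAlgClosed k] [CharZero k] {T : Fin 3 → Matrix (Ix 2) (Ix 2) k} (hT : MaxR ρ T)
    (hρ : ∀ i, ρ i = (J k 2 ^ i).rank) (h0 : T 0 = J k 2) :
    ∃ c c' : Par k 2, MaxR ρ ![J k 2, B c, B c'] ∧ K3 c c' := by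
  have h1 : (J k 2).rank = ρ 1 := by rw [hρ, pow_one]
  have h4 : ρ 4 = 0 := by rw [hρ, J2_four, rank_zero]
  obtain ⟨c, c', hT⟩ := norm hT h1 h0
  exact toK3' hT h1 h4

end Pool.Agent.Lib.D13.F432
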