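import Pool.Agent.Lib.D13.F43A

/-!
# MP_5dcbc3_ag: type `(4, 3, 2, 1^2)`: the class `al0 = de0 = s = 0`, cases `be0 = 0` and `ga0 = 0`
-/

namespace Pool.Agent.Lib.D13.F432

open Matrix Pool.Agent.Lib.Q5dc Pool.Agent.Lib.D7 A3

variable {k : Type*} [Field k] {ρ : ℕ → ℕ}

/-! ### linear algebra -/

theorem sm_solve (x1 x2 y1 y2 : k) (h : x1 * y2 - x2 * y1 ≠ 0) (α β : k) :
    ∃ p1 p2 : k, p1 * x1 + p2 * x2 = α ∧ p1 * y1 + p2 * y2 = β := by
  refine ⟨(α * y2 - β * x2) / (x1 * y2 - x2 * y1), (β * x1 - α * y1) / (x1 * y2 - x2 * y1), ?_, ?_⟩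
  · rw [div_mul_eq_mul_div, div_mul_eq_mul_div, ← add_div, div_eq_iff h]
    ring
  · rw [div_mul_eq_mul_div, div_mul_eq_mul_div, ← add_div, div_eq_iff h]
    ring

theorem sm_ker23 (a b : Fin 3 → k) : ∃ x : Fin 3 → k, x ≠ 0 ∧ a ⬝ᵥ x = 0 ∧ b ⬝ᵥ x = 0 := ker2 a b

theorem sm_dep (x1 x2 y1 y2 : k) (h : x1 * y2 - x2 * y1 = 0) :
    ∃ p1 p2 : k, (p1 ≠ 0 ∨ p2 ≠ 0) ∧ p1 * x1 + p2 * x2 = 0 ∧ p1 * y1 + p2 * y2 = 0 := by
  by_cases hx : x1 = 0 ∧ x2 = 0
  · by_cases hy : y1 = 0 ∧ y2 = 0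
    · exact ⟨1, 0, Or.inl one_ne_zero, by rw [hx.1, hx.2]; ring, by rw [hy.1, hy.2]; ring⟩
    · refine ⟨y2, -y1, ?_, by rw [hx.1, hx.2]; ring, by ring⟩
      by_contra hc
      push Not at hc
      exact hy ⟨neg_eq_zero.1 hc.2, hc.1⟩
  · refine ⟨x2, -x1, ?_, by ring, by linear_combination -h⟩
    by_contra hc
    push Not at hc
    exact hx ⟨neg_eq_zero.1 hc.2, hc.1⟩

/-- a vector independent from a given nonzero vector -/
theorem sm_indep (x1 x2 : k) (h : x1 ≠ 0 ∨ x2 ≠ 0) : ∃ l1 l2 : k, l1 * x2 - l2 * x1 ≠ 0 := by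
  rcases h with h | h
  · exact ⟨0, 1, by simpa using h⟩
  · exact ⟨1, 0, by simpa using h⟩

theorem sm_ne3 {x : Fin 3 → k} (h : x ≠ 0) : x 0 ≠ 0 ∨ x 1 ≠ 0 ∨ x 2 ≠ 0 := by
  by_contra hc
  push Not at hc
  apply h
  funext i
  fin_cases i
  · exact hc.1
  · exact hc.2.1
  · exact hc.2.2

theorem sm_exQ (g e : Fin 3 → k) :
    (∃ mu : Fin 3 → k, mu ⬝ᵥ g = 0 ∧ mu ⬝ᵥ e = 0 ∧ (mu 1 ≠ 0 ∨ mu 2 ≠ 0)) ∨
      (g 0 = 0 ∧ e 0 = 0 ∧ g 1 * e 2 - g 2 * e 1 ≠ 0) := by
  by_cases h0 : g 0 = 0 ∧ e 0 = 0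
  · by_cases hd : g 1 * e 2 - g 2 * e 1 = 0
    · obtain ⟨p1, p2, hp, h1, h2⟩ := sm_dep _ _ _ _ hd
      refine Or.inl ⟨![0, p1, p2], ?_, ?_, hp⟩
      · simp [dotProduct, Fin.sum_univ_three]
        exact h1
      · simp [dotProduct, Fin.sum_univ_three]
        exact h2
    · exact Or.inr ⟨h0.1, h0.2, hd⟩
  · obtain ⟨mu, hmu, h1, h2⟩ := ker2 g e
    refine Or.inl ⟨mu, by rw [dotProduct_comm]; exact h1, by rw [dotProduct_comm]; exact h2, ?_⟩
    by_contra hc
    push Not at hc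
    simp [dotProduct, Fin.sum_univ_three, hc.1, hc.2] at h1 h2
    rcases sm_ne3 hmu with h | h | h
    · exact h0 ⟨h1.resolve_right h, h2.resolve_right h⟩
    · exact h hc.1
    · exact h hc.2

/-! ### good triples -/

/-- the columns `(ch; ch')` and `(et; et')` are linearly independent -/
def Good (a a' : A3 k) : Prop := ∀ b c : k, b * a.F 1 + c * a.Z 1 = 0 →
  b * a.F 2 + c * a.Z 2 = 0 → b * a'.F 1 + c * a'.Z 1 = 0 → b * a'.F 2 + c * a'.Z 2 = 0 →
  b = 0 ∧ c = 0

/-- good triples are not maximal -/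
def GH (k : Type*) [Field k] (ρ : ℕ → ℕ) : Prop := ∀ a a' : A3 k, M3 ρ a a' →
  (a.be0 ≠ 0 ∨ a'.be0 ≠ 0 ∨ a.ga0 ≠ 0 ∨ a'.ga0 ≠ 0) → ¬ Good a a'

theorem sm_det {x1 x2 y1 y2 b c : k} (h : x1 * y2 - x2 * y1 ≠ 0) (h1 : b * x1 + c * y1 = 0)
    (h2 : b * x2 + c * y2 = 0) : b = 0 ∧ c = 0 := by
  constructor
  · have : b * (x1 * y2 - x2 * y1) = 0 := by linear_combination y2 * h1 - y1 * h2
    exact (mul_eq_zero.1 this).resolve_right h
  · have : c * (x1 * y2 - x2 * y1) = 0 := by linear_combination x1 * h2 - x2 * h1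
    exact (mul_eq_zero.1 this).resolve_right h

/-! ### `be0 = 0`, `ga0 = (1, 0)` -/

/-- normal form -/
structure Nb (a a' : A3 k) : Prop where
  be0 : a.be0 = 0
  be0' : a'.be0 = 0
  ga0 : a.ga0 = 1
  ga0' : a'.ga0 = 0

theorem Nb.zero {a a' : A3 k} (hn : Nb a a') (hr : Rel3 a a') :
    a'.g 0 = 0 ∧ a'.e 0 = 0 ∧ a'.Z = 0 := by
  refine ⟨?_, ?_, ?_⟩
  · have := hr.e2
    rw [hn.be0, hn.be0', hn.ga0, hn.ga0'] at this
    linear_combination this
  · have := hr.w2
    rw [hn.be0, hn.be0', hn.ga0, hn.ga0'] at this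
    linear_combination this
  · have := hr.up
    rw [hn.be0, hn.be0', hn.ga0, hn.ga0'] at this
    simpa using this

variable [Infinite k] {a a' : A3 k}

theorem sb_et (G : GH k ρ) (h : M3 ρ a a') (hn : Nb a a') (hZ : a.Z 1 ≠ 0 ∨ a.Z 2 ≠ 0) : False := by
  obtain ⟨g0', e0', Z'⟩ := hn.zero h.rel
  have GG := G a a' h (Or.inr (Or.inr (Or.inl (by rw [hn.ga0]; exact one_ne_zero))))
  by_cases hF' : a'.F 1 = 0 ∧ a'.F 2 = 0
  · by_cases hd : a.F 1 * a.Z 2 - a.F 2 * a.Z 1 = 0
    · obtain ⟨l1, l2, hl⟩ := sm_indep _ _ hZ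
      obtain ⟨y, hy, y1, y2⟩ := ker2 ![a.g 1, a.g 2, -(l1 * a'.g 1 + l2 * a'.g 2)]
        ![a.e 1, a.e 2, -(l1 * a'.e 1 + l2 * a'.e 2)]
      simp [dotProduct, Fin.sum_univ_three] at y1 y2
      obtain ⟨t, -, ht, h2⟩ := h.move
        { (z3 k) with F := ![0, y 2 * l1, y 2 * l2] }
        { (z3 k) with F := ![0, y 0, y 1] } (fun t => by
          obtain ⟨e2, e3, e5, e7, w2, w3, w5, w6, up⟩ := h.rel
          refine ⟨?_, ?_, ?_, ?_, ?_, ?_, ?_, ?_, ?_⟩
          · simpa [z3] using e2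
          · simpa [z3] using e3
          · simp [z3, dotProduct, Fin.sum_univ_three] at e5 ⊢
            linear_combination e5 - t * y1
          · simpa [z3] using e7
          · simpa [z3] using w2
          · simpa [z3] using w3
          · simp [z3, dotProduct, Fin.sum_univ_three] at w5 ⊢
            linear_combination w5 - t * y2
          · simpa [z3] using w6
          · simp [z3, hn.be0, hn.be0', hn.ga0', Z']) Set.finite_empty
      refine G _ _ h2 (Or.inr (Or.inr (Or.inl (by simp [z3, hn.ga0])))) ?_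
      intro b c k1 k2 k3 k4
      simp [z3, hF'.1, hF'.2, Z'] at k1 k2 k3 k4
      by_cases hb : b = 0
      · rw [hb] at k1 k2
        simp at k1 k2
        refine ⟨hb, ?_⟩
        rcases hZ with hZ | hZ
        · exact k1.resolve_right hZ
        · exact k2.resolve_right hZ
      · exfalso
        have q0 : y 0 = 0 := (k3.resolve_left hb).resolve_left ht
        have q1 : y 1 = 0 := (k4.resolve_left hb).resolve_left ht
        have q2 : y 2 ≠ 0 := by
          rcases sm_ne3 hy with h | h | h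
          · exact absurd q0 h
          · exact absurd q1 h
          · exact h
        have : b * (t * y 2 * (l1 * a.Z 2 - l2 * a.Z 1)) = 0 := by
          linear_combination a.Z 2 * k1 - a.Z 1 * k2 - b * hd
        exact (mul_ne_zero hb (mul_ne_zero (mul_ne_zero ht q2) hl)) this
    · exact GG fun b c k1 k2 _ _ => sm_det hd k1 k2
  · refine GG fun b c k1 k2 k3 k4 => ?_
    rw [Z'] at k3 k4
    simp at k3 k4
    have hb : b = 0 := by
      by_contra hb
      exact hF' ⟨k3.resolve_left hb, k4.resolve_left hb⟩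
    rw [hb] at k1 k2
    simp at k1 k2
    refine ⟨hb, ?_⟩
    rcases hZ with hZ | hZ
    · exact k1.resolve_right hZ
    · exact k2.resolve_right hZ

theorem sb (G : GH k ρ) (h : M3 ρ a a') (hn : Nb a a') : False := by
  obtain ⟨g0', e0', Z'⟩ := hn.zero h.rel
  by_cases hZ : a.Z 1 ≠ 0 ∨ a.Z 2 ≠ 0
  · exact sb_et G h hn hZ
  push Not at hZ
  by_cases hd : a'.g 1 * a'.e 2 - a'.g 2 * a'.e 1 = 0
  · obtain ⟨p1, p2, hp, h1, h2⟩ := sm_dep _ _ _ _ hd
    obtain ⟨t, -, ht, h3⟩ := h.move { (z3 k) with Z := ![0, p1, p2] } (z3 k) (fun t => by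
      obtain ⟨e2, e3, e5, e7, w2, w3, w5, w6, up⟩ := h.rel
      refine ⟨?_, ?_, ?_, ?_, ?_, ?_, ?_, ?_, ?_⟩
      · simpa [z3] using e2
      · simpa [z3] using e3
      · simpa [z3] using e5
      · simp [z3, dotProduct, Fin.sum_univ_three] at e7 ⊢
        linear_combination e7 + t * h1
      · simpa [z3] using w2
      · simpa [z3] using w3
      · simpa [z3] using w5
      · simp [z3, dotProduct, Fin.sum_univ_three] at w6 ⊢
        linear_combination w6 + t * h2
      · simp [z3, hn.be0, hn.be0', hn.ga0', Z']) Set.finite_empty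
    refine sb_et G h3 ⟨by simp [z3, hn.be0], by simp [z3, hn.be0'], by simp [z3, hn.ga0],
      by simp [z3, hn.ga0']⟩ ?_
    rcases hp with hp | hp
    · left
      simp [z3, hZ.1, ht, hp]
    · right
      simp [z3, hZ.2, ht, hp]
  -- `q'`, `r'` is a basis
  have e7 := h.rel.e7
  have w6 := h.rel.w6
  simp [dotProduct, Fin.sum_univ_three, hn.be0, hn.be0', g0', e0', Z', hZ.1, hZ.2] at e7 w6
  by_cases hd0 : a.e 0 = 0
  · -- the last step
    have last : ∀ a a' : A3 k, M3 ρ a a' → Nb a a' → a.Z 1 = 0 → a.Z 2 = 0 →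
        a'.g 1 * a'.e 2 - a'.g 2 * a'.e 1 ≠ 0 → a.e 0 = 0 → (a'.al1 ≠ 0 ∨ a'.m1 ≠ 0) → False := by
      intro a a' h hn hZ1 hZ2 hd hd0 hne
      obtain ⟨g0', e0', Z'⟩ := hn.zero h.rel
      obtain ⟨f1, f2, h1, h2⟩ := sm_solve _ _ _ _ hd (-a'.al1) (-a'.m1)
      obtain ⟨p1, p2, h3, h4⟩ := sm_solve _ _ _ _ hd 0 (a'.F 0)
      obtain ⟨t, -, ht, h5⟩ := h.move
        { (z3 k) with e := ![1, 0, 0], Z := ![0, f1, f2], F := ![0, p1, p2] }
        { (z3 k) with d1 := a'.D 0 } (fun t => by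
          obtain ⟨e2, e3, e5, e7, w2, w3, w5, w6, up⟩ := h.rel
          refine ⟨?_, ?_, ?_, ?_, ?_, ?_, ?_, ?_, ?_⟩
          · simpa [z3] using e2
          · simpa [z3] using e3
          · simp [z3, dotProduct, Fin.sum_univ_three, g0'] at e5 ⊢
            linear_combination e5 + t * h3
          · simp [z3, dotProduct, Fin.sum_univ_three, g0', e0', Z', hd0, hZ1, hZ2] at e7 ⊢
            linear_combination t * h1
          · simp [z3, hn.be0, hn.be0', hn.ga0, hn.ga0', e0']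
          · simp [z3, dotProduct, Fin.sum_univ_three, hn.be0, hn.be0', hn.ga0, hn.ga0', e0',
              hd0] at w3 ⊢
            linear_combination w3
          · simp [z3, dotProduct, Fin.sum_univ_three, hn.be0, hn.be0', e0', hd0] at w5 ⊢
            linear_combination w5 + t * h4
          · simp [z3, dotProduct, Fin.sum_univ_three, hn.be0, hn.be0', e0', Z', hd0, hZ1,
              hZ2] at w6 ⊢
            linear_combination t * h2
          · simp [z3, hn.be0, hn.be0', hn.ga0', Z']) Set.finite_empty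
      refine sb_et G h5 ⟨by simp [z3, hn.be0], by simp [z3, hn.be0'], by simp [z3, hn.ga0],
        by simp [z3, hn.ga0']⟩ ?_
      by_contra hc
      push Not at hc
      simp [z3, hZ1, hZ2, ht] at hc
      rw [hc.1, hc.2] at h1 h2
      rcases hne with hne | hne
      · apply hne
        linear_combination h1
      · apply hne
        linear_combination h2
    by_cases hne : a'.al1 ≠ 0 ∨ a'.m1 ≠ 0
    · exact last a a' h hn hZ.1 hZ.2 hd hd0 hne
    push Not at hne
    obtain ⟨p1, p2, h3, h4⟩ := sm_solve _ _ _ _ hd (-a.m1) 0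
    obtain ⟨t, -, ht, h5⟩ := h.move
      { (z3 k) with F := ![0, p1, p2] }
      { (z3 k) with al1 := 1, c1 := -a.be1 } (fun t => by
        obtain ⟨e2, e3, e5, e7, w2, w3, w5, w6, up⟩ := h.rel
        refine ⟨?_, ?_, ?_, ?_, ?_, ?_, ?_, ?_, ?_⟩
        · simp [z3, hn.be0, hn.be0', hn.ga0, hn.ga0', g0']
        · simp [z3, hn.be0, hn.be0', hn.ga0, hn.ga0', hne.1] at e3 ⊢
          linear_combination e3
        · simp [z3, dotProduct, Fin.sum_univ_three, g0', hne.1, hne.2] at e5 ⊢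
          linear_combination e5 + t * h3
        · simp [z3, dotProduct, Fin.sum_univ_three, g0', e0', Z', hd0, hne.1] at e7 ⊢
          linear_combination e7
        · simpa [z3] using w2
        · simpa [z3] using w3
        · simp [z3, dotProduct, Fin.sum_univ_three, hn.be0, hn.be0', e0', hd0] at w5 ⊢
          linear_combination w5 + t * h4
        · simpa [z3] using w6
        · simp [z3, hn.be0, hn.be0', hn.ga0', Z']) Set.finite_empty
    refine last _ _ h5 ⟨by simp [z3, hn.be0], by simp [z3, hn.be0'], by simp [z3, hn.ga0],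
      by simp [z3, hn.ga0']⟩ (by simp [z3, hZ.1]) (by simp [z3, hZ.2]) (by simpa [z3] using hd)
      (by simp [z3, hd0]) (Or.inl (by simp [z3, hne.1, ht]))
  · -- `d0 ≠ 0`
    have ha : a'.al1 = 0 := e7.resolve_right hd0
    have hm : a'.m1 = 0 := w6.resolve_right hd0
    obtain ⟨f1, f2, h1, h2⟩ := sm_solve _ _ _ _ hd (-a.e 0) 0
    obtain ⟨p1, p2, h3, h4⟩ := sm_solve _ _ _ _ hd (-a.m1) 0
    obtain ⟨t, -, ht, h5⟩ := h.move
      { (z3 k) with Z := ![0, f1, f2], F := ![0, p1, p2] }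
      { (z3 k) with al1 := 1, c1 := -a.be1 } (fun t => by
        obtain ⟨e2, e3, e5, e7, w2, w3, w5, w6, up⟩ := h.rel
        refine ⟨?_, ?_, ?_, ?_, ?_, ?_, ?_, ?_, ?_⟩
        · simp [z3, hn.be0, hn.be0', hn.ga0, hn.ga0', g0']
        · simp [z3, hn.be0, hn.be0', hn.ga0, hn.ga0', ha] at e3 ⊢
          linear_combination e3
        · simp [z3, dotProduct, Fin.sum_univ_three, g0', ha, hm] at e5 ⊢
          linear_combination e5 + t * h3
        · simp [z3, dotProduct, Fin.sum_univ_three, g0', e0', Z', ha] at e7 ⊢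
          linear_combination e7 + t * h1
        · simpa [z3] using w2
        · simpa [z3] using w3
        · simp [z3, dotProduct, Fin.sum_univ_three, hn.be0, hn.be0', e0'] at w5 ⊢
          linear_combination w5 + t * h4
        · simp [z3, dotProduct, Fin.sum_univ_three, hn.be0, hn.be0', e0', Z', hm] at w6 ⊢
          linear_combination w6 + t * h2
        · simp [z3, hn.be0, hn.be0', hn.ga0', Z']) Set.finite_empty
    refine sb_et G h5 ⟨by simp [z3, hn.be0], by simp [z3, hn.be0'], by simp [z3, hn.ga0],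
      by simp [z3, hn.ga0']⟩ ?_
    by_contra hc
    push Not at hc
    simp [z3, hZ.1, hZ.2, ht] at hc
    rw [hc.1, hc.2] at h1
    apply hd0
    linear_combination h1

/-! ### `be0 = (1, 0)`, `ga0 = 0` -/

/-- normal form -/
structure Nc (a a' : A3 k) : Prop where
  be0 : a.be0 = 1
  be0' : a'.be0 = 0
  ga0 : a.ga0 = 0
  ga0' : a'.ga0 = 0

omit [Infinite k] in
theorem Nc.zero (hn : Nc a a') (hr : Rel3 a a') : a'.al1 = 0 ∧ a'.m1 = 0 ∧ a'.F = 0 := by
  refine ⟨?_, ?_, ?_⟩
  · have := hr.e2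
    rw [hn.be0, hn.be0', hn.ga0, hn.ga0'] at this
    linear_combination this
  · have := hr.w2
    rw [hn.be0, hn.be0', hn.ga0, hn.ga0'] at this
    linear_combination this
  · have := hr.up
    rw [hn.be0, hn.be0', hn.ga0, hn.ga0'] at this
    simpa using this

theorem sc_ch (G : GH k ρ) (h : M3 ρ a a') (hn : Nc a a') (hF : a.F 1 ≠ 0 ∨ a.F 2 ≠ 0) : False := by
  obtain ⟨al1', m1', F'⟩ := hn.zero h.rel
  have GG := G a a' h (Or.inl (by rw [hn.be0]; exact one_ne_zero))
  by_cases hZ' : a'.Z 1 = 0 ∧ a'.Z 2 = 0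
  · by_cases hd : a.F 1 * a.Z 2 - a.F 2 * a.Z 1 = 0
    · obtain ⟨l1, l2, hl⟩ := sm_indep _ _ hF
      obtain ⟨y, hy, y1, y2⟩ := ker2 ![a.g 1, a.g 2, -(l1 * a'.g 1 + l2 * a'.g 2)]
        ![a.e 1, a.e 2, -(l1 * a'.e 1 + l2 * a'.e 2)]
      simp [dotProduct, Fin.sum_univ_three] at y1 y2
      obtain ⟨t, -, ht, h2⟩ := h.move
        { (z3 k) with Z := ![0, y 2 * l1, y 2 * l2] }
        { (z3 k) with Z := ![0, y 0, y 1] } (fun t => by
          obtain ⟨e2, e3, e5, e7, w2, w3, w5, w6, up⟩ := h.rel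
          refine ⟨?_, ?_, ?_, ?_, ?_, ?_, ?_, ?_, ?_⟩
          · simpa [z3] using e2
          · simpa [z3] using e3
          · simpa [z3] using e5
          · simp [z3, dotProduct, Fin.sum_univ_three] at e7 ⊢
            linear_combination e7 - t * y1
          · simpa [z3] using w2
          · simpa [z3] using w3
          · simpa [z3] using w5
          · simp [z3, dotProduct, Fin.sum_univ_three] at w6 ⊢
            linear_combination w6 - t * y2
          · simp [z3, hn.be0', hn.ga0, hn.ga0', F']) Set.finite_empty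
      refine G _ _ h2 (Or.inl (by simp [z3, hn.be0])) ?_
      intro b c k1 k2 k3 k4
      simp [z3, hZ'.1, hZ'.2, F'] at k1 k2 k3 k4
      by_cases hc : c = 0
      · rw [hc] at k1 k2
        simp at k1 k2
        refine ⟨?_, hc⟩
        rcases hF with hF | hF
        · exact k1.resolve_right hF
        · exact k2.resolve_right hF
      · exfalso
        have q0 : y 0 = 0 := (k3.resolve_left hc).resolve_left ht
        have q1 : y 1 = 0 := (k4.resolve_left hc).resolve_left ht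
        have q2 : y 2 ≠ 0 := by
          rcases sm_ne3 hy with h | h | h
          · exact absurd q0 h
          · exact absurd q1 h
          · exact h
        have : c * (t * y 2 * (l1 * a.F 2 - l2 * a.F 1)) = 0 := by
          linear_combination a.F 2 * k1 - a.F 1 * k2 + c * hd
        exact (mul_ne_zero hc (mul_ne_zero (mul_ne_zero ht q2) hl)) this
    · exact GG fun b c k1 k2 _ _ => sm_det hd k1 k2
  · refine GG fun b c k1 k2 k3 k4 => ?_
    rw [F'] at k3 k4
    simp at k3 k4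
    have hc : c = 0 := by
      by_contra hc
      exact hZ' ⟨k3.resolve_left hc, k4.resolve_left hc⟩
    rw [hc] at k1 k2
    simp at k1 k2
    refine ⟨?_, hc⟩
    rcases hF with hF | hF
    · exact k1.resolve_right hF
    · exact k2.resolve_right hF

theorem sc (G : GH k ρ) (h : M3 ρ a a') (hn : Nc a a') : False := by
  obtain ⟨al1', m1', F'⟩ := hn.zero h.rel
  by_cases hF : a.F 1 ≠ 0 ∨ a.F 2 ≠ 0
  · exact sc_ch G h hn hF
  push Not at hF
  rcases sm_exQ a'.g a'.e with ⟨mu, hg, he, hmu⟩ | ⟨g0', e0', hd⟩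
  · obtain ⟨t, -, ht, h3⟩ := h.move { (z3 k) with F := mu } (z3 k) (fun t => by
      obtain ⟨e2, e3, e5, e7, w2, w3, w5, w6, up⟩ := h.rel
      refine ⟨?_, ?_, ?_, ?_, ?_, ?_, ?_, ?_, ?_⟩
      · simpa [z3] using e2
      · simpa [z3] using e3
      · simp [z3, hg] at e5 ⊢
        linear_combination e5
      · simpa [z3] using e7
      · simpa [z3] using w2
      · simpa [z3] using w3
      · simp [z3, he] at w5 ⊢
        linear_combination w5
      · simpa [z3] using w6
      · simp [z3, hn.be0, hn.be0', hn.ga0, hn.ga0', F']) Set.finite_empty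
    refine sc_ch G h3 ⟨by simp [z3, hn.be0], by simp [z3, hn.be0'], by simp [z3, hn.ga0],
      by simp [z3, hn.ga0']⟩ ?_
    rcases hmu with hp | hp
    · left
      simp [z3, hF.1, ht, hp]
    · right
      simp [z3, hF.2, ht, hp]
  have last : ∀ a a' : A3 k, M3 ρ a a' → Nc a a' → a.F 1 = 0 → a.F 2 = 0 → a'.g 0 = 0 →
      a'.e 0 = 0 → a'.g 1 * a'.e 2 - a'.g 2 * a'.e 1 ≠ 0 → a.F 0 ≠ 0 → False := by
    intro a a' h hn hF1 hF2 g0' e0' hd hne
    obtain ⟨al1', m1', F'⟩ := hn.zero h.rel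
    obtain ⟨f1, f2, h1, h2⟩ := sm_solve _ _ _ _ hd (-a.F 0) 0
    obtain ⟨p1, p2, h3, h4⟩ := sm_solve _ _ _ _ hd (-a.Z 0) 1
    obtain ⟨t, -, ht, h5⟩ := h.move
      { (z3 k) with F := ![0, f1, f2], Z := ![0, p1, p2] }
      { (z3 k) with g := ![1, 0, 0], al2 := -a.D 0 } (fun t => by
        obtain ⟨e2, e3, e5, e7, w2, w3, w5, w6, up⟩ := h.rel
        refine ⟨?_, ?_, ?_, ?_, ?_, ?_, ?_, ?_, ?_⟩
        · simp [z3, hn.be0, hn.be0', hn.ga0, hn.ga0', al1']
        · simp [z3, dotProduct, Fin.sum_univ_three, hn.be0, hn.be0', hn.ga0, hn.ga0',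
            al1', g0'] at e3 ⊢
          linear_combination e3
        · simp [z3, dotProduct, Fin.sum_univ_three, g0', al1', m1', F'] at e5 ⊢
          linear_combination e5 + t * h1
        · simp [z3, dotProduct, Fin.sum_univ_three, g0', e0', al1'] at e7 ⊢
          linear_combination e7 + t * h3
        · simpa [z3] using w2
        · simpa [z3] using w3
        · simp [z3, dotProduct, Fin.sum_univ_three, hn.be0, hn.be0', e0', al1', F'] at w5 ⊢
          linear_combination w5 + t * h2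
        · simp [z3, dotProduct, Fin.sum_univ_three, hn.be0, hn.be0', e0', g0', m1'] at w6 ⊢
          linear_combination w6 + t * h4
        · simp [z3, hn.be0', hn.ga0, hn.ga0', F']) Set.finite_empty
    refine sc_ch G h5 ⟨by simp [z3, hn.be0], by simp [z3, hn.be0'], by simp [z3, hn.ga0],
      by simp [z3, hn.ga0']⟩ ?_
    by_contra hc
    push Not at hc
    simp [z3, hF1, hF2, ht] at hc
    rw [hc.1, hc.2] at h1
    apply hne
    linear_combination h1
  by_cases hne : a.F 0 = 0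
  · obtain ⟨t, -, ht, h5⟩ := h.move { (z3 k) with F := ![1, 0, 0] } (z3 k) (fun t => by
        obtain ⟨e2, e3, e5, e7, w2, w3, w5, w6, up⟩ := h.rel
        refine ⟨?_, ?_, ?_, ?_, ?_, ?_, ?_, ?_, ?_⟩
        · simpa [z3] using e2
        · simpa [z3] using e3
        · simp [z3, dotProduct, Fin.sum_univ_three, g0'] at e5 ⊢
          linear_combination e5
        · simpa [z3] using e7
        · simpa [z3] using w2
        · simpa [z3] using w3
        · simp [z3, dotProduct, Fin.sum_univ_three, e0'] at w5 ⊢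
          linear_combination w5
        · simpa [z3] using w6
        · simp [z3, hn.be0', hn.ga0, hn.ga0', F']) Set.finite_empty
    refine last _ _ h5 ⟨by simp [z3, hn.be0], by simp [z3, hn.be0'], by simp [z3, hn.ga0],
      by simp [z3, hn.ga0']⟩ (by simp [z3, hF.1]) (by simp [z3, hF.2]) (by simp [z3, g0'])
      (by simp [z3, e0']) (by simpa [z3] using hd) (by simp [z3, hne, ht])
  · exact last a a' h hn hF.1 hF.2 g0' e0' hd hne

end Pool.Agent.Lib.D13.F432
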