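import Pool.Agent.Lib.D13.F43M1

/-!
# MP_5dcbc3_ag: type `(4, 3, 2, 1^2)`: the class `al0 = de0 = s = be0 = ga0 = 0`
-/

namespace Pool.Agent.Lib.D13.F432

open Matrix Pool.Agent.Lib.Q5dc Pool.Agent.Lib.D7 A3

variable {k : Type*} [Field k] {ρ : ℕ → ℕ}

/-- `be0 = ga0 = 0` -/
structure Na (a a' : A3 k) : Prop where
  be0 : a.be0 = 0
  be0' : a'.be0 = 0
  ga0 : a.ga0 = 0
  ga0' : a'.ga0 = 0

/-- the good triples of the class: `E = (m1, d0, r)`, `E'` are linearly independent and there is no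
`z` with `G = z E`, `G' = z E'`, where `G = (al1, c0, q)` -/
def AGood (a a' : A3 k) : Prop :=
  (∀ x y : k, x * a.m1 + y * a'.m1 = 0 → x • a.e + y • a'.e = 0 → x = 0 ∧ y = 0) ∧
    ¬ ∃ z : k, a.al1 = z * a.m1 ∧ a.g = z • a.e ∧ a'.al1 = z * a'.m1 ∧ a'.g = z • a'.e

/-- good triples are not maximal -/
def AGH (k : Type*) [Field k] (ρ : ℕ → ℕ) : Prop := ∀ a a' : A3 k, M3 ρ a a' → Na a a' →
  ¬ AGood a a'

variable [Infinite k] {a a' : A3 k}

/-- `E`, `E'` linearly independent -/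
theorem sa_ind (G : AGH k ρ) (h : M3 ρ a a') (hn : Na a a')
    (hE : ∀ x y : k, x * a.m1 + y * a'.m1 = 0 → x • a.e + y • a'.e = 0 → x = 0 ∧ y = 0) :
    False := by
  have h1 := G a a' h hn
  unfold AGood at h1
  rw [not_and, not_not] at h1
  obtain ⟨z, z1, z2, z3, z4⟩ := h1 hE
  obtain ⟨ι, hι, hι0⟩ : ∃ ι : Fin 4, (![a.m1, a.e 0, a.e 1, a.e 2] : Fin 4 → k) ι ≠ 0 ∧ True := by
    by_contra hc
    push Not at hc
    have h2 : ∀ i : Fin 4, (![a.m1, a.e 0, a.e 1, a.e 2] : Fin 4 → k) i = 0 := by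
      intro i
      by_contra hi
      exact hc i hi
    have e0 := h2 0
    have e1 := h2 1
    have e2 := h2 2
    have e3 := h2 3
    simp at e0 e1 e2 e3
    refine one_ne_zero (hE 1 0 (by rw [e0]; ring) ?_).1
    funext i
    fin_cases i <;> simp [e1, e2, e3]
  obtain ⟨x, hx, hk⟩ := exists_ker (by norm_num) (![
    ![-a'.be1, -a'.D 0, -a'.D 1, -a'.D 2, a.be1, a.D 0, a.D 1, a.D 2],
    ![-a'.m1, -a'.F 0, -a'.F 1, -a'.F 2, a.m1, a.F 0, a.F 1, a.F 2],
    ![-a'.e 0, -a'.Z 0, -a'.Z 1, -a'.Z 2, a.e 0, a.Z 0, a.Z 1, a.Z 2],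
    Pi.single (Fin.castLE (by norm_num) ι) 1] : Matrix (Fin 4) (Fin 8) k)
  have k0 := congrFun hk 0
  have k1 := congrFun hk 1
  have k2 := congrFun hk 2
  have k3 := congrFun hk 3
  simp [mulVec, dotProduct, Fin.sum_univ_succ] at k0 k1 k2
  have k3' : x (Fin.castLE (by norm_num) ι) = 0 := by
    have : (Pi.single (Fin.castLE (by norm_num) ι) 1 : Fin 8 → k) ⬝ᵥ x = 0 := k3
    rwa [single_one_dotProduct] at this
  obtain ⟨t, -, ht, h2⟩ := h.move
    { (A3.z3 k) with al1 := x 0, g := ![x 1, x 2, x 3] }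
    { (A3.z3 k) with al1 := x 4, g := ![x 5, x 6, x 7] } (fun t => by
      obtain ⟨e2, e3, e5, e7, w2, w3, w5, w6, up⟩ := h.rel
      refine ⟨?_, ?_, ?_, ?_, ?_, ?_, ?_, ?_, ?_⟩
      · simp [A3.z3, hn.be0, hn.be0', hn.ga0, hn.ga0']
      · simp [A3.z3, dotProduct, Fin.sum_univ_three, hn.be0, hn.be0', hn.ga0, hn.ga0'] at e3 ⊢
        linear_combination e3 + t * k0
      · simp [A3.z3, dotProduct, Fin.sum_univ_three] at e5 ⊢
        linear_combination e5 + t * k1
      · simp [A3.z3, dotProduct, Fin.sum_univ_three] at e7 ⊢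
        linear_combination e7 + t * k2
      · simpa [A3.z3] using w2
      · simpa [A3.z3] using w3
      · simp [A3.z3, hn.be0, hn.be0'] at w5 ⊢
        linear_combination w5
      · simp [A3.z3, hn.be0, hn.be0'] at w6 ⊢
        linear_combination w6
      · simp [A3.z3, hn.be0, hn.be0', hn.ga0, hn.ga0']) Set.finite_empty
  refine G _ _ h2 ⟨by simp [A3.z3, hn.be0], by simp [A3.z3, hn.be0'], by simp [A3.z3, hn.ga0],
    by simp [A3.z3, hn.ga0']⟩ ⟨by simpa [A3.z3] using hE, ?_⟩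
  rintro ⟨y, y1, y2, y3, y4⟩
  have g0 := congrFun y2 0
  have g1 := congrFun y2 1
  have g2 := congrFun y2 2
  have g0' := congrFun y4 0
  have g1' := congrFun y4 1
  have g2' := congrFun y4 2
  simp [A3.z3] at y1 y3 g0 g1 g2 g0' g1' g2'
  have a0 : a.g 0 = z * a.e 0 := by rw [z2]; rfl
  have a1 : a.g 1 = z * a.e 1 := by rw [z2]; rfl
  have a2 : a.g 2 = z * a.e 2 := by rw [z2]; rfl
  have a0' : a'.g 0 = z * a'.e 0 := by rw [z4]; rfl
  have a1' : a'.g 1 = z * a'.e 1 := by rw [z4]; rfl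
  have a2' : a'.g 2 = z * a'.e 2 := by rw [z4]; rfl
  have hy : y = z := by
    have key : ∀ m w : k, m ≠ 0 → z * m + t * w = y * m → w = 0 → y = z := by
      intro m w hm h1 h2
      rw [h2] at h1
      exact mul_right_cancel₀ hm (by linear_combination -h1)
    fin_cases ι
    · refine key a.m1 (x 0) (by simpa using hι) (by linear_combination y1 - z1) ?_
      simpa using k3'
    · refine key (a.e 0) (x 1) (by simpa using hι) (by linear_combination g0 - a0) ?_
      simpa using k3'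
    · refine key (a.e 1) (x 2) (by simpa using hι) (by linear_combination g1 - a1) ?_
      simpa using k3'
    · refine key (a.e 2) (x 3) (by simpa using hι) (by linear_combination g2 - a2) ?_
      simpa using k3'
  subst hy
  have tz : ∀ w : k, t * w = 0 → w = 0 := fun w hw => (mul_eq_zero.1 hw).resolve_left ht
  apply hx
  funext i
  fin_cases i
  · exact tz (x 0) (by linear_combination y1 - z1)
  · exact tz (x 1) (by linear_combination g0 - a0)
  · exact tz (x 2) (by linear_combination g1 - a1)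
  · exact tz (x 3) (by linear_combination g2 - a2)
  · exact tz (x 4) (by linear_combination y3 - z3)
  · exact tz (x 5) (by linear_combination g0' - a0')
  · exact tz (x 6) (by linear_combination g1' - a1')
  · exact tz (x 7) (by linear_combination g2' - a2')

/-- `E' = 0` and `(d0, r) ≠ 0` -/
theorem sa_zero (G : AGH k ρ) (h : M3 ρ a a') (hn : Na a a') (_hm : a'.m1 = 0) (he' : a'.e = 0)
    (he : a.e ≠ 0) : False := by
  obtain ⟨n1, n2, hν⟩ : ∃ n1 n2 : k, (n1 ≠ 0 ∨ n2 ≠ 0) ∧ (a.e 1 = 0 ∧ a.e 2 = 0 ∨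
      n1 * a.e 2 - n2 * a.e 1 ≠ 0) := by
    by_cases h0 : a.e 1 = 0 ∧ a.e 2 = 0
    · exact ⟨1, 0, Or.inl one_ne_zero, Or.inl h0⟩
    · rw [not_and_or] at h0
      obtain ⟨l1, l2, hl⟩ := sm_indep _ _ h0
      refine ⟨l1, l2, ?_, Or.inr hl⟩
      by_contra hc
      push Not at hc
      rw [hc.1, hc.2] at hl
      simp at hl
  obtain ⟨th, hth⟩ : ∃ th : Fin 3 → k, th ⬝ᵥ a.e = 1 := by
    rcases sm_ne3 he with h0 | h0 | h0
    · exact ⟨![(a.e 0)⁻¹, 0, 0], by simp [dotProduct, Fin.sum_univ_three, h0]⟩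
    · exact ⟨![0, (a.e 1)⁻¹, 0], by simp [dotProduct, Fin.sum_univ_three, h0]⟩
    · exact ⟨![0, 0, (a.e 2)⁻¹], by simp [dotProduct, Fin.sum_univ_three, h0]⟩
  obtain ⟨t, -, ht, h2⟩ := h.move (A3.z3 k)
    { (A3.z3 k) with
      e := ![0, n1, n2]
      g := (th ⬝ᵥ a.g) • ![0, n1, n2]
      D := (a.D ⬝ᵥ ![0, n1, n2]) • th
      F := (a.F ⬝ᵥ ![0, n1, n2]) • th
      Z := (a.Z ⬝ᵥ ![0, n1, n2]) • th } (fun t => by
      obtain ⟨e2, e3, e5, e7, w2, w3, w5, w6, up⟩ := h.rel
      rw [he'] at w3 w5 w6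
      refine ⟨?_, ?_, ?_, ?_, ?_, ?_, ?_, ?_, ?_⟩
      · simp [A3.z3, hn.be0, hn.be0', hn.ga0, hn.ga0']
      · simp only [A3.z3, hn.be0, hn.be0', hn.ga0, hn.ga0', A3.add_al1, A3.add_be1, A3.add_al2,
          A3.add_be0, A3.add_c1, A3.add_ga0, A3.add_D, A3.add_g, A3.smul_al1, A3.smul_be1,
          A3.smul_al2, A3.smul_be0, A3.smul_c1, A3.smul_ga0, A3.smul_D, A3.smul_g,
          dotProduct_add, add_dotProduct, dotProduct_smul, smul_dotProduct, smul_eq_mul,
          dotProduct_zero, zero_dotProduct] at e3 ⊢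
        linear_combination e3
      · simp only [A3.z3, A3.add_al1, A3.add_m1, A3.add_F, A3.add_g, A3.smul_al1, A3.smul_m1,
          A3.smul_F, A3.smul_g, dotProduct_add, add_dotProduct, dotProduct_smul,
          smul_dotProduct, smul_eq_mul, dotProduct_zero, zero_dotProduct] at e5 ⊢
        linear_combination e5
      · simp only [A3.z3, A3.add_al1, A3.add_e, A3.add_Z, A3.add_g, A3.smul_al1, A3.smul_e,
          A3.smul_Z, A3.smul_g, dotProduct_add, add_dotProduct, dotProduct_smul,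
          smul_dotProduct, smul_eq_mul, dotProduct_zero, zero_dotProduct, Pi.add_apply,
          Pi.smul_apply, Pi.zero_apply, cons_val_zero] at e7 ⊢
        linear_combination e7
      · simp [A3.z3, hn.be0, hn.be0', hn.ga0, hn.ga0']
      · simp only [A3.z3, hn.be0, hn.be0', hn.ga0, hn.ga0', A3.add_m1, A3.add_be1, A3.add_m2,
          A3.add_be0, A3.add_d1, A3.add_ga0, A3.add_D, A3.add_e, A3.smul_m1, A3.smul_be1,
          A3.smul_m2, A3.smul_be0, A3.smul_d1, A3.smul_ga0, A3.smul_D, A3.smul_e, he',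
          dotProduct_add, add_dotProduct, dotProduct_smul, smul_dotProduct, smul_eq_mul,
          dotProduct_zero, zero_dotProduct] at w3 ⊢
        linear_combination w3 - t * (a.D ⬝ᵥ ![0, n1, n2]) * hth
      · simp only [A3.z3, hn.be0, hn.be0', A3.add_al1,
          A3.add_be0, A3.add_F, A3.add_e, A3.smul_al1,
          A3.smul_be0, A3.smul_F, A3.smul_e, he',
          dotProduct_add, add_dotProduct, dotProduct_smul, smul_dotProduct, smul_eq_mul,
          dotProduct_zero, zero_dotProduct] at w5 ⊢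
        linear_combination w5 - t * (a.F ⬝ᵥ ![0, n1, n2]) * hth
      · simp only [A3.z3, hn.be0, hn.be0', A3.add_m1, A3.add_g,
          A3.add_be0, A3.add_Z, A3.add_e, A3.smul_m1, A3.smul_g,
          A3.smul_be0, A3.smul_Z, A3.smul_e, he',
          dotProduct_add, add_dotProduct, dotProduct_smul, smul_dotProduct, smul_eq_mul,
          dotProduct_zero, zero_dotProduct, Pi.add_apply,
          Pi.smul_apply, Pi.zero_apply, cons_val_zero] at w6 ⊢
        linear_combination w6 - t * (a.Z ⬝ᵥ ![0, n1, n2]) * hth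
      · simp [A3.z3, hn.be0, hn.be0', hn.ga0, hn.ga0']) Set.finite_empty
  refine sa_ind G h2 ⟨by simp [A3.z3, hn.be0], by simp [A3.z3, hn.be0'], by simp [A3.z3, hn.ga0],
    by simp [A3.z3, hn.ga0']⟩ ?_
  intro x y k1 k2
  have r0 := congrFun k2 0
  have r1 := congrFun k2 1
  have r2 := congrFun k2 2
  simp [A3.z3, he'] at r0 r1 r2
  rcases hν.2 with h0 | h0
  · rw [h0.1] at r1
    rw [h0.2] at r2
    simp [ht] at r1 r2
    have he0 : a.e 0 ≠ 0 := by
      rcases sm_ne3 he with h3 | h3 | h3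
      · exact h3
      · exact absurd h0.1 h3
      · exact absurd h0.2 h3
    refine ⟨r0.resolve_right he0, ?_⟩
    rcases hν.1 with h3 | h3
    · exact r1.resolve_right h3
    · exact r2.resolve_right h3
  · have h4 : x * a.e 1 + y * t * n1 = 0 := by linear_combination r1
    have h5 : x * a.e 2 + y * t * n2 = 0 := by linear_combination r2
    have h6 : x * (n1 * a.e 2 - n2 * a.e 1) = 0 := by linear_combination n1 * h5 - n2 * h4
    have h7 : x = 0 := (mul_eq_zero.1 h6).resolve_right h0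
    rw [h7] at h4 h5
    simp [ht] at h4 h5
    refine ⟨h7, ?_⟩
    rcases hν.1 with h3 | h3
    · exact h4.resolve_right h3
    · exact h5.resolve_right h3

/-- `(d0, r) ≠ 0` on the pencil -/
theorem sa_eps (G : AGH k ρ) (h : M3 ρ a a') (hn : Na a a') (he : ¬ (a.e = 0 ∧ a'.e = 0)) :
    False := by
  by_cases hE : ∀ x y : k, x * a.m1 + y * a'.m1 = 0 → x • a.e + y • a'.e = 0 → x = 0 ∧ y = 0
  · exact sa_ind G h hn hE
  push Not at hE
  obtain ⟨x, y, h1, h2, h3⟩ := hE
  by_cases hy : y = 0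
  · have hx : x ≠ 0 := fun hx => h3 hx hy
    have hm : a.m1 = 0 := by
      rw [hy] at h1
      simpa [hx] using h1
    have he0 : a.e = 0 := by
      rw [hy] at h2
      simpa [hx] using h2
    refine sa_zero G (h.lin 0 1 1 0 (by simp)) ⟨by simp [hn.be0'], by simp [hn.be0],
      by simp [hn.ga0'], by simp [hn.ga0]⟩ (by simp [hm]) (by simp [he0]) ?_
    intro h4
    simp at h4
    exact he ⟨he0, h4⟩
  · refine sa_zero G (h.lin 1 0 x y (by simpa using hy)) ⟨by simp [hn.be0],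
      by simp [hn.be0, hn.be0'], by simp [hn.ga0], by simp [hn.ga0, hn.ga0']⟩ (by simpa using h1)
      (by simpa using h2) ?_
    intro h4
    simp at h4
    apply he
    refine ⟨h4, ?_⟩
    rw [h4] at h2
    simpa [hy] using h2

/-- the class `be0 = ga0 = 0` -/
theorem sa (G : AGH k ρ) (h : M3 ρ a a') (hn : Na a a') : False := by
  by_cases he : a.e = 0 ∧ a'.e = 0
  · obtain ⟨x, hx, hk⟩ := exists_ker (by norm_num) (![
      ![-a'.D 1, -a'.D 2, a.D 1, a.D 2],
      ![-a'.F 1, -a'.F 2, a.F 1, a.F 2],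
      ![-a'.Z 1, -a'.Z 2, a.Z 1, a.Z 2]] : Matrix (Fin 3) (Fin 4) k)
    have k0 := congrFun hk 0
    have k1 := congrFun hk 1
    have k2 := congrFun hk 2
    simp [mulVec, dotProduct, Fin.sum_univ_succ] at k0 k1 k2
    obtain ⟨t, -, ht, h2⟩ := h.move { (A3.z3 k) with e := ![0, x 0, x 1] }
      { (A3.z3 k) with e := ![0, x 2, x 3] } (fun t => by
        obtain ⟨e2, e3, e5, e7, w2, w3, w5, w6, up⟩ := h.rel
        rw [he.1, he.2] at w3 w5 w6 e7
        refine ⟨?_, ?_, ?_, ?_, ?_, ?_, ?_, ?_, ?_⟩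
        · simp [A3.z3, hn.be0, hn.be0', hn.ga0, hn.ga0']
        · simpa [A3.z3] using e3
        · simpa [A3.z3] using e5
        · simp [A3.z3, he.1, he.2] at e7 ⊢
          linear_combination e7
        · simp [A3.z3, hn.be0, hn.be0', hn.ga0, hn.ga0']
        · simp [A3.z3, dotProduct, Fin.sum_univ_three, hn.be0, hn.be0', hn.ga0, hn.ga0', he.1,
            he.2] at w3 ⊢
          linear_combination w3 + t * k0
        · simp [A3.z3, dotProduct, Fin.sum_univ_three, hn.be0, hn.be0', he.1, he.2] at w5 ⊢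
          linear_combination t * k1
        · simp [A3.z3, dotProduct, Fin.sum_univ_three, hn.be0, hn.be0', he.1, he.2] at w6 ⊢
          linear_combination t * k2
        · simp [A3.z3, hn.be0, hn.be0', hn.ga0, hn.ga0']) Set.finite_empty
    refine sa_eps G h2 ⟨by simp [A3.z3, hn.be0], by simp [A3.z3, hn.be0'],
      by simp [A3.z3, hn.ga0], by simp [A3.z3, hn.ga0']⟩ ?_
    rintro ⟨c1, c2⟩
    have r1 := congrFun c1 1
    have r2 := congrFun c1 2
    have r3 := congrFun c2 1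
    have r4 := congrFun c2 2
    simp [A3.z3, he.1, he.2, ht] at r1 r2 r3 r4
    apply hx
    funext i
    fin_cases i
    · exact r1
    · exact r2
    · exact r3
    · exact r4
  · exact sa_eps G h hn he

/-- the class in the notation of `F432` -/
theorem al_moves {c c' : Par k 2} (G : AGH k ρ) (hT : MaxR ρ ![J k 2, B c, B c'])
    (h1 : c.al0 = 0) (h1' : c'.al0 = 0) (h2 : c.de0 = 0) (h2' : c'.de0 = 0) (h3 : c.s = 0)
    (h3' : c'.s = 0) (hb : c.be0 = 0) (hb' : c'.be0 = 0) (hg : c.ga0 = 0) (hg' : c'.ga0 = 0) :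
    False := by
  have h : M3 ρ (of c) (of c') := by
    unfold M3
    rw [par_of h1 h2 h3, par_of h1' h2' h3']
    exact hT
  exact sa G h ⟨hb, hb', hg, hg'⟩

end Pool.Agent.Lib.D13.F432
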