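import Pool.Agent.Lib.D13.PairR2
import Pool.Agent.Lib.D13.B4321

/-!
# MP_5dcbc3_ag: type `(4, 3, 2, 1)`, the family F4 of case B

`al0 = 1, al0' = 0`, `be0 = e0 = f0 = de0 = pi = ph = rho = 0`: an affine family; it is raised by a
matrix of rank two commuting with a special pair (`PairR2`).
-/

set_option autoImplicit false
set_option linter.unusedSimpArgs false
set_option linter.unusedSectionVars false

namespace Pool.Agent.Lib.D13.T4321

open Matrix Pool.Agent.Lib.Q5dc Pool.Agent.Lib.D7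

variable {k : Type*} [Field k] {ρ : ℕ → ℕ} {P P' : Par k}

theorem h52_vecMul_zero_of {n : Type*} [Fintype n] [DecidableEq n] {l : n → k} {M : Matrix n n k}
    (h : ∀ v, l ⬝ᵥ (M *ᵥ v) = 0) : l ᵥ* M = 0 := by
  funext j
  have h1 := h (Pi.single j 1)
  rw [Matrix.dotProduct_mulVec] at h1
  simpa using h1

/-- the family F4 -/
structure F4 (P P' : Par k) : Prop where
  al : P.al0 = 1
  al' : P'.al0 = 0
  be : P.be0 = 0
  be' : P'.be0 = 0
  e : P.e0 = 0
  e' : P'.e0 = 0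
  f : P.f0 = 0
  f' : P'.f0 = 0
  de : P.de0 = 0
  de' : P'.de0 = 0
  pi : P.pi = 0
  pi' : P'.pi = 0
  ph : P.ph = 0
  ph' : P'.ph = 0
  rho : P.rho = 0
  rho' : P'.rho = 0
  b1' : P'.be1 = 0
  q1' : P'.q1 = 0
  b2' : P'.be2 = P'.al1 * P.be1 + P'.g0 * P.de1 - P.g0 * P'.de1
  q2' : P'.q2 = P'.al1 * P.q1 + P'.g0 * P.f1 - P.g0 * P'.f1
  e1' : P'.e1 = P'.g0 * P.z - P.g0 * P'.z

theorem F4.rel (h : F4 P P') : Rel P P' := by
  obtain ⟨al, al', be, be', e, e', f, f', de, de', pi, pi', ph, ph', rho, rho', b1', q1', b2',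
    q2', e1'⟩ := h
  constructor <;> simp only [Br, al, al', be, be', e, e', f, f', de, de', pi, pi', ph, ph', rho,
    rho', b1', q1', b2', q2', e1'] <;> ring

/-- the final raise: everything in general position -/
theorem F4.raise [IsAlgClosed k] [CharZero k] (hT : MaxR ρ ![J k, X P, X P']) (h4 : ρ 4 = 0)
    (h : F4 P P') {c chi l2 l3 t r2 r3 : k}
    (hz : P'.zeta ≠ 0)
    (hc : c = P.zeta * P'.z - P'.zeta * P.z)
    (hl3 : P'.zeta * l3 + c * l2 + (P'.zeta * P.g0 - P.zeta * P'.g0) = 0)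
    (hl2 : P'.zeta * P.be1 * l2 + (P'.zeta * P.q1 + c) * l3 +
      (P'.zeta * P.e1 - P.zeta * P'.e1) = 0)
    (ht : P'.g0 * (P'.z * t ^ 2 + 2 * t) + l2 = 0)
    (hg : P'.g0 ≠ 0) (htz : 1 + t * P'.z ≠ 0)
    (hr3 : t * P'.zeta * (P'.zeta * P.de1 - P.zeta * P'.de1) -
      (1 + t * P'.z) * (P'.zeta * P.th - P.zeta * P'.th) + c * r2 + P'.zeta * P.be1 * r3 = 0)
    (hr2 : t * P'.zeta * (P'.zeta * P.f1 - P.zeta * P'.f1) -
      (1 + t * P'.z) * (P'.zeta * P.eta - P.zeta * P'.eta) + P'.zeta * r2 +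
      (P'.zeta * P.q1 + c) * r3 = 0)
    (hne : t * P'.zeta * t * P'.f1 - (1 + t * P'.z) * t * P'.eta + r3 ≠ 0) : False := by
  obtain ⟨al, al', be, be', e, e', f, f', de, de', pi, pi', ph, ph', rho, rho', b1', q1', b2',
    q2', e1'⟩ := h
  -- the coordinate system
  set Y : Matrix (Fin 10) (Fin 10) k := P'.zeta • X P - P.zeta • X P' + c • J k with hY
  set Z : Matrix (Fin 10) (Fin 10) k := J k + t • X P' with hZ
  have m0 := D8.mem0 (J k) (X P) (X P')
  have m1 := D8.mem1 (J k) (X P) (X P')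
  have m2 := D8.mem2 (J k) (X P) (X P')
  have sm : ∀ {T : Fin 3 → Matrix (Fin 10) (Fin 10) k} {M : Matrix (Fin 10) (Fin 10) k} (s : k),
      M ∈ adj T → s • M ∈ adj T := fun s hM => SMulMemClass.smul_mem s hM
  have mY : Y ∈ adj ![J k, X P, X P'] := add_mem (sub_mem (sm _ m1) (sm _ m2)) (sm _ m0)
  have mZ : Z ∈ adj ![J k, X P, X P'] := add_mem m0 (sm _ m2)
  have hcn : CN ![X P', Y, Z] := hT.cn.of_adj fun i => by
    fin_cases i
    exacts [m2, mY, mZ]
  have n0 := D8.mem0 (X P') Y Z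
  have n1 := D8.mem1 (X P') Y Z
  have n2 := D8.mem2 (X P') Y Z
  have nJ : J k ∈ adj ![X P', Y, Z] := by
    have : J k = Z - t • X P' := by rw [hZ]; abel
    rw [this]
    exact sub_mem n2 (sm _ n0)
  have nB : X P ∈ adj ![X P', Y, Z] := by
    have : X P = P'.zeta⁻¹ • (Y + P.zeta • X P' - c • J k) := by
      have : Y + P.zeta • X P' - c • J k = P'.zeta • X P := by rw [hY]; abel
      rw [this, smul_smul, inv_mul_cancel₀ hz, one_smul]
    rw [this]
    exact sm _ (sub_mem (add_mem n1 (sm _ n0)) (sm _ nJ))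
  have hadj : ∀ i, (![J k, X P, X P'] : Fin 3 → _) i ∈ adj ![X P', Y, Z] := by
    intro i
    fin_cases i
    exacts [nJ, nB, n0]
  have aY : ∀ v, Y *ᵥ v = P'.zeta • act P v - P.zeta • act P' v + c • actJ v := by
    intro v
    rw [hY, Matrix.add_mulVec, Matrix.sub_mulVec, Matrix.smul_mulVec, Matrix.smul_mulVec,
      Matrix.smul_mulVec, X_mulVec, X_mulVec, J_mulVec]
  have aZ : ∀ v, Z *ᵥ v = actJ v + t • act P' v := by
    intro v
    rw [hZ, Matrix.add_mulVec, Matrix.smul_mulVec, X_mulVec, J_mulVec]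
  -- the vector and the functional
  set lu : k := -(l3 * (P'.zeta * P.al1 - P.zeta * P'.al1) +
    (P'.zeta * P.g1 - P.zeta * P'.g1)) / P'.zeta with hlu
  set lp : k := (l3 * r3 + l2 * r2) / (1 + t * P'.z) with hlp
  have elu : P'.zeta * lu + l3 * (P'.zeta * P.al1 - P.zeta * P'.al1) +
      (P'.zeta * P.g1 - P.zeta * P'.g1) = 0 := by
    rw [hlu]
    field_simp
    ring
  have elp : (1 + t * P'.z) * lp = l3 * r3 + l2 * r2 := by
    rw [hlp]
    field_simp
  set r : Fin 10 → k := ![0, 0, t * P'.zeta, 0, r3, -(1 + t * P'.z), 0, r2, 0, 0] with hr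
  set l : Fin 10 → k := ![0, lu, 0, 0, l3, lp, 1, l2, 0, 0] with hl
  have hYr : Y *ᵥ r = 0 := by
    rw [aY, hr]
    funext i
    fin_cases i <;> simp [act, actJ, al, al', be, be', e, e', f, f', de, de', pi, pi', ph, ph',
      rho, rho', b1', q1']
    · rw [hc]; ring
    · linear_combination hr2
    · linear_combination hr3
  have hZr : Z *ᵥ r = ![0, 0, 0, 0, 0, 0, 0, 0,
      t * P'.zeta * t * P'.f1 - (1 + t * P'.z) * t * P'.eta + r3,
      t * P'.zeta * t * P'.de1 - (1 + t * P'.z) * t * P'.th + r2] := by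
    rw [aZ, hr]
    funext i
    fin_cases i <;> simp [act, actJ, al, al', be, be', e, e', f, f', de, de', pi, pi', ph, ph',
      rho, rho', b1', q1'] <;> ring
  have hXr : X P' *ᵥ r = ![0, 0, 0, 0, 0, 0, -P'.zeta, 0,
      t * P'.zeta * P'.f1 - (1 + t * P'.z) * P'.eta,
      t * P'.zeta * P'.de1 - (1 + t * P'.z) * P'.th] := by
    rw [X_mulVec, hr]
    funext i
    fin_cases i <;> simp [act, al, al', be, be', e, e', f, f', de, de', pi, pi', ph, ph',
      rho, rho', b1', q1'] <;> ring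
  have hlY : ∀ v, l ⬝ᵥ (Y *ᵥ v) = 0 := by
    intro v
    rw [aY, hl]
    simp [dotProduct, Fin.sum_univ_succ, act, actJ, al, al', be, be', e, e', f, f', de, de', pi,
      pi', ph, ph', rho, rho', b1', q1']
    linear_combination v 0 * elu + v 3 * hl3 + v 1 * hl2 + v 2 * hc
  have hlZ : ∀ v, l ⬝ᵥ (Z *ᵥ (Z *ᵥ v)) = 0 := by
    intro v
    rw [aZ, aZ, hl]
    simp [dotProduct, Fin.sum_univ_succ, act, actJ, al, al', be, be', e, e', f, f', de, de', pi,
      pi', ph, ph', rho, rho', b1', q1']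
    linear_combination v 0 * ht
  have hlZX : ∀ v, l ⬝ᵥ (Z *ᵥ (X P' *ᵥ v)) = P'.g0 * (1 + t * P'.z) * v 0 := by
    intro v
    rw [aZ, X_mulVec, hl]
    simp [dotProduct, Fin.sum_univ_succ, act, actJ, al, al', be, be', e, e', f, f', de, de', pi,
      pi', ph, ph', rho, rho', b1', q1']
    ring
  have hXX : ∀ v, X P' *ᵥ (X P' *ᵥ v) = (P'.g0 * v 0) • ![0, 0, 0, 0, 0, 0, P'.z, 0, P'.f1,
      P'.de1] := by
    intro v
    rw [X_mulVec, X_mulVec]
    funext i
    fin_cases i <;> simp [act, al, al', be, be', e, e', f, f', de, de', pi, pi', ph, ph',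
      rho, rho', b1', q1'] <;> ring
  have eassoc : ∀ (a : Fin 10 → k) (M N : Matrix (Fin 10) (Fin 10) k) v,
      ((a ᵥ* M) ᵥ* N) ⬝ᵥ v = a ⬝ᵥ (M *ᵥ (N *ᵥ v)) := by
    intro a M N v
    rw [← Matrix.dotProduct_mulVec, ← Matrix.dotProduct_mulVec]
  refine pair_raise hT hcn hadj (r := r) (l := l) hYr ?_ (h52_vecMul_zero_of hlY) ?_ ?_ ?_ ?_ ?_ ?_ ?_
    ?_ ?_ (Pi.single 0 1) ?_ h4
  · rw [hZr, aZ]
    funext i
    fin_cases i <;> simp [act, actJ, al, al', be, be', e, e', f, f', de, de', pi, pi', ph, ph',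
      rho, rho', b1', q1']
  · refine h52_vecMul_zero_of fun v => ?_
    rw [← Matrix.dotProduct_mulVec]
    exact hlZ v
  · rw [hl, hr]
    simp [dotProduct, Fin.sum_univ_succ]
    linear_combination -elp
  · rw [hZr, hl]
    simp [dotProduct, Fin.sum_univ_succ]
  · rw [hZr, X_mulVec]
    funext i
    fin_cases i <;> simp [act, al, al', be, be', e, e', f, f', de, de', pi, pi', ph, ph',
      rho, rho', b1', q1']
  · rw [hXX]
    funext i
    fin_cases i <;> simp [hr]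
  · refine h52_vecMul_zero_of fun v => ?_
    rw [eassoc, hXX, aZ, hl]
    simp [dotProduct, Fin.sum_univ_succ, act, actJ, al, al', be, be', e, e', f, f', de, de', pi,
      pi', ph, ph', rho, rho', b1', q1']
  · refine h52_vecMul_zero_of fun v => ?_
    rw [eassoc, hXX, X_mulVec, hl]
    simp [dotProduct, Fin.sum_univ_succ, act, al, al', be, be', e, e', f, f', de, de', pi,
      pi', ph, ph', rho, rho', b1', q1']
  · rw [hXr, hl]
    simp [dotProduct, Fin.sum_univ_succ]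
    exact hz
  · rw [hZr]
    intro h0
    have := congrFun h0 8
    simp at this
    exact hne this
  · rw [← Matrix.dotProduct_mulVec, hlZX]
    simpa using ⟨hg, htz⟩

end Pool.Agent.Lib.D13.T4321
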