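import Pool.Agent.Lib.D13.ReflW

/-!
# MP_5dcbc3_ag: density certificates, type 4321, (2431|3421), d = 10, weighted (2,3,3): x, y, z = t, t/(1-t^3), t^3/(1-t^3)
-/

namespace Pool.Agent.Lib.D13.W4321

open Refl

/-- the base point -/
def bs : Base where
  lev := [0, 0, 3, 2, 3, 3, 6, 4, 6, 6]
  pw := [[[(0, 1)], [(1, 1)], [(2, 1)], [(3, 1)], [(4, 1)], [(5, 1)], [(6, 1)], [(7, 1)], [(8, 1)],
      [(9, 1)]],
    [[(1, 1), (6, -2)], [(4, -1), (5, -1)], [(5, -1), (6, 3)], [(0, 1), (9, -2)], [(2, 1), (4,
      1), (5, 1), (8, -1), (9, 3)], [(4, -1), (5, -1), (8, 1)], [(8, 1)], [(3, 1)], [(9, -1)],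
      [(6, -1), (7, 1)]],
    [[(4, -1), (5, -1), (8, -2)], [(2, -1), (9, -3)], [(4, 1), (5, 1), (8, 2)], [(1, 1), (7,
      -2)], [(2, 1), (5, -1), (7, 3), (9, 4)], [(2, -1), (9, -4)], [(9, -1)], [(0, 1), (9, -2)],
      [(6, 1), (7, -1)], [(3, 1), (8, -1)]],
    [[(2, -1), (9, -1)], [(5, 1), (7, -3)], [(2, 1), (9, 1)], [(3, -2), (4, -1), (5, -1)], [(3,
      3), (4, 1), (6, -1), (7, 4), (8, -1)], [(5, 1), (6, 1), (7, -4)], [(6, 1), (7, -1)], [(1,
      1), (7, -2)], [(3, -1), (8, 1)], [(0, 1), (9, -1)]],
    [[(5, 1), (6, -2), (7, -1)], [(3, -3), (4, -1), (5, -1), (8, 1)], [(5, -1), (6, 2), (7,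
      1)], [(0, -2), (2, -1), (9, 1)], [(0, 3), (2, 1), (3, 4), (4, 1), (5, 1), (8, -2), (9,
      -2)], [(3, -4), (4, -1), (5, -1), (8, 2)], [(3, -1), (8, 1)], [(3, -2), (4, -1), (5, -1)],
      [(0, -1), (9, 1)], [(1, 1), (6, -1), (7, -1)]],
    [[(3, -1), (4, -1), (5, -1), (8, -1)], [(0, -3), (2, -1), (9, 2)], [(3, 1), (4, 1), (5, 1),
      (8, 1)], [(1, -2), (5, 1), (7, 1)], [(0, 4), (1, 3), (2, 1), (5, -1), (6, -1), (7, -2), (9,
      -3)], [(0, -4), (2, -1), (9, 3)], [(0, -1), (9, 1)], [(0, -2), (2, -1), (9, 1)], [(1, -1),
      (6, 1), (7, 1)], [(3, -1), (4, -1), (5, -1), (8, -1)]],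
    [[(0, -1), (2, -1)], [(1, -3), (5, 1), (6, 1), (7, 2)], [(0, 1), (2, 1)], [(3, 1), (4, 1),
      (5, 1), (8, 1)], [(1, 4), (3, -2), (4, -2), (5, -3), (6, -2), (7, -3), (8, -2)], [(1, -4),
      (5, 1), (6, 2), (7, 3)], [(1, -1), (6, 1), (7, 1)], [(1, -2), (5, 1), (7, 1)], [(3, 1), (4,
      1), (5, 1), (8, 1)], [(0, -1), (2, -1)]],
    [[(1, -1), (5, 1), (6, -1)], [(3, 2), (4, 2), (5, 2), (8, 2)], [(1, 1), (5, -1), (6, 1)],
      [(0, 1), (2, 1)], [(0, -2), (2, -2), (3, -3), (4, -3), (5, -3), (8, -3)], [(3, 3), (4, 3),
      (5, 3), (8, 3)], [(3, 1), (4, 1), (5, 1), (8, 1)], [(3, 1), (4, 1), (5, 1), (8, 1)], [(0,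
      1), (2, 1)], [(1, -1), (5, 1), (6, -1)]],
    [[], [(0, 2), (2, 2)], [], [(1, 1), (5, -1), (6, 1)], [(0, -3), (1, -2), (2, -3), (5, 2),
      (6, -2)], [(0, 3), (2, 3)], [(0, 1), (2, 1)], [(0, 1), (2, 1)], [(1, 1), (5, -1), (6, 1)],
      []],
    [[], [(1, 2), (5, -2), (6, 2)], [], [], [(1, -3), (5, 3), (6, -3)], [(1, 3), (5, -3), (6,
      3)], [(1, 1), (5, -1), (6, 1)], [(1, 1), (5, -1), (6, 1)], [], []]]
  xc := [[(1, 1)], [(1, 1), (4, 1), (7, 1)], [(3, 1), (6, 1), (9, 1)]]
  X := [[[(1, 1), (6, -2)], [(4, -1), (5, -1)], [(5, -1), (6, 3)], [(0, 1), (9, -2)], [(2, 1), (4,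
      1), (5, 1), (8, -1), (9, 3)], [(4, -1), (5, -1), (8, 1)], [(8, 1)], [(3, 1)], [(9, -1)],
      [(6, -1), (7, 1)]],
    [[(5, 2), (6, -5), (7, -1)], [(3, -1), (8, 3)], [(1, 1), (5, -3), (6, 6), (7, 1)], [(9,
      -1)], [(0, 1), (3, 1), (4, -1), (5, -1), (8, -6), (9, 1)], [(3, -1), (4, 1), (5, 1), (8,
      6)], [(4, 1), (5, 1), (8, 3)], [(8, 1)], [(2, 1)], [(5, 1), (6, -3)]],
    [[(0, -1), (2, -2), (9, -1)], [(1, -1), (6, 3), (7, -1)], [(0, 1), (2, 2), (9, 1)], [(3,
      -1), (8, 1)], [(1, 1), (3, 1), (4, -1), (6, -6), (7, 1), (8, -3)], [(1, -1), (5, -1), (6,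
      6), (7, -1)], [(5, -1), (6, 3)], [(6, 1), (7, -1)], [(4, 1), (5, 1), (8, 2)], [(2, -1), (9,
      -1)]]]

/-- degrees -/
def dl : List ℕ := [2, 3, 3]

theorem bs_ck : bs.ckW dl 10 = true := by decide +kernel

/-- certificate -/
def ce0 : Cer where
  den := 24
  N := [[[(21, 72), (80, 12), (82, -72), (91, 12), (121, -68), (163, -72), (164, -33), (180, 72),
      (182, -44), (220, 24), (251, -68), (261, 171), (264, 33), (265, -33), (283, 72), (284, 44),
      (290, 72)],
      [(31, 12), (60, 4), (70, -4), (81, -12), (87, 4), (93, -4), (121, -12), (141, -4), (151,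
      -4), (160, -60), (162, 12), (181, -36), (184, 4), (185, -4), (195, 12), (221, 16), (240,
      16), (250, 16), (251, -12), (261, 36), (264, -12), (280, 60), (291, 12), (292, 12), (294,
      -12), (295, 12)],
      [],
      [],
      [],
      [],
      [],
      [],
      [],
      []],
    [[(51, -84), (61, 234), (67, 6), (71, 18), (83, 6), (90, -6), (120, 6), (151, 12), (161,
      -36), (184, 6), (241, -6), (250, -18), (251, -6), (260, 66), (262, 6), (281, -12), (284,
      -6), (285, 6)],
      [(121, -24), (164, -36), (182, -24), (251, -48), (261, 108), (264, 36), (265, -36), (284,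
      24)],
      [],
      [],
      [],
      [],
      [],
      [],
      [],
      []],
    [[(21, -24), (82, 24), (121, 24), (163, 24), (164, 12), (180, -24), (182, 24), (251, 24),
      (261, -60), (264, -12), (265, 12), (283, -24), (284, -24), (290, -24)],
      [(121, 12), (141, 12), (151, 12), (160, 12), (162, 12), (181, 48), (195, -12), (221, -12),
      (251, 12), (261, -36), (264, -12), (280, -12), (291, -12), (292, -12), (294, 12), (295,
      -12)],
      [(182, 24), (284, -24)],
      [(20, -24), (51, 24), (61, -72)],
      [],
      [(141, -24), (151, -24), (162, -24), (181, -72), (221, 24), (264, 24)],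
      [],
      [],
      [],
      []],
    [[(160, -72), (162, 24), (240, 24), (250, 24), (264, -24), (280, 72)],
      [(51, -8), (61, 24), (120, 8), (151, -8), (161, 24), (184, -16), (241, 16), (250, 8), (251,
      16), (260, -16), (281, 32), (284, 16), (285, -16)],
      [],
      [(21, 48), (30, -16), (63, -8), (73, 8), (80, 40), (82, -48), (91, 24), (97, 8), (121,
      -40), (163, -24), (164, -24), (180, 24), (182, -16), (220, 16), (251, -40), (261, 96),
      (264, 24), (265, -24), (283, 24), (284, 16), (290, 24), (292, 8)],
      [],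
      [],
      [],
      [],
      [],
      []],
    [[(51, 24), (61, -72), (160, 24)],
      [],
      [(51, 8), (61, -24), (120, 16), (121, -36), (141, -36), (151, -28), (160, -36), (161, -24),
      (162, -12), (181, -72), (184, -8), (195, 36), (221, 36), (241, 8), (250, 16), (251, -28),
      (260, -56), (261, 108), (264, 12), (280, 36), (281, 16), (284, 8), (285, -8), (291, 36),
      (292, 36), (294, -36), (295, 36)],
      [(21, -24), (31, 48), (40, -24), (60, 16), (70, -16), (80, -72), (81, -144), (82, 48), (84,
      24), (85, -24), (87, 16), (93, -16), (121, 108), (141, 20), (151, 20), (160, -60), (162,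
      84), (163, 48), (164, 6), (180, -48), (181, 96), (182, 24), (184, 16), (185, -16), (195,
      -84), (221, -68), (240, 64), (250, 64), (251, 108), (261, -318), (264, -90), (265, 6),
      (280, 84), (283, -48), (284, -24), (290, -48), (291, -108), (292, -84), (294, 84), (295,
      -84)],
      [],
      [(51, -64), (61, 192), (120, -8), (151, 8), (161, -24), (184, 16), (241, 8), (250, -8),
      (251, 8), (260, 88), (281, -32), (284, -16), (285, 16)],
      [],
      [],
      [],
      []],
    [[(51, -24), (61, 72)],
      [],
      [(51, -8), (61, 24), (120, -16), (151, -8), (161, 24), (184, 8), (241, -8), (250, -16),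
      (251, -8), (260, 56), (281, -16), (284, -8), (285, 8)],
      [(31, -48), (40, 24), (60, -16), (70, 16), (80, 72), (81, 144), (82, -24), (84, -24), (85,
      24), (87, -16), (93, 16), (121, -84), (141, -20), (151, -20), (160, 60), (162, -84), (181,
      -96), (184, -16), (185, 16), (195, 84), (221, 68), (240, -64), (250, -64), (251, -84),
      (261, 252), (264, 84), (280, -84), (283, 24), (290, 24), (291, 108), (292, 84), (294, -84),
      (295, 84)],
      [],
      [],
      [],
      [],
      [],
      []],
    [[],
      [(121, 8), (164, 6), (182, 8), (251, 8), (261, -18), (264, -6), (265, 6), (284, -8)],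
      [],
      [(31, -12), (60, -28), (70, 4), (81, 36), (87, -4), (93, 4), (121, -24), (141, -8), (151,
      -8), (160, 24), (162, -24), (181, -36), (184, -4), (185, 4), (195, 24), (221, 20), (240,
      -16), (250, -16), (251, -24), (261, 72), (264, 24), (280, -24), (291, 24), (292, 24), (294,
      -24), (295, 24)],
      [],
      [(121, -8), (182, -8), (251, -8), (261, 24), (284, 8)],
      [(121, 8), (164, -24), (182, 8), (251, 8), (261, -24), (284, -8)],
      [(63, -24), (80, 12), (91, -12), (121, -4), (164, -3), (182, -4), (251, -4), (261, 9),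
      (264, 3), (265, -3), (284, 4)],
      [(264, -24)],
      [(51, -8), (61, 24), (120, -16), (151, -8), (161, 24), (184, 8), (241, -8), (250, -16),
      (251, -8), (260, 56), (262, 24), (281, -16), (284, -8), (285, 8)]],
    [[(51, -4), (61, 30), (67, -6), (71, -18), (83, -6), (90, 6), (120, 10), (151, -4), (161,
      12), (184, -14), (241, 14), (250, 10), (251, 14), (260, -26), (262, -6), (281, 28), (284,
      14), (285, -14)],
      [],
      [(51, 48), (61, -144), (84, -24), (161, 24), (171, -24), (190, 24), (260, -24), (281, 24)],
      [(31, -12), (60, -12), (70, -12), (81, 36), (87, -12), (93, 12), (121, -36), (141, -12),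
      (151, -12), (160, -36), (162, -12), (181, -36), (184, -12), (185, 12), (195, 36), (221,
      24), (251, -36), (261, 108), (264, 12), (280, 36), (291, 36), (292, 36), (294, -36), (295,
      36)],
      [(21, -24), (31, 24), (60, 8), (70, -8), (81, -48), (84, 24), (85, -24), (87, 8), (93, -8),
      (95, 24), (121, 12), (141, -20), (151, -20), (160, -36), (162, 12), (181, -48), (184, 8),
      (185, -8), (195, -12), (221, -4), (240, 32), (250, 32), (251, 12), (261, -12), (264, -12),
      (271, -24), (280, 36), (290, 24), (291, -60), (292, -12), (294, 12), (295, -12)],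
      [(31, 24), (60, 8), (70, -8), (81, -48), (82, -24), (84, 24), (85, -24), (87, 8), (93, -8),
      (95, 24), (121, 4), (141, -20), (151, -20), (160, -36), (162, 12), (163, -48), (164, 12),
      (180, 48), (181, -48), (182, -8), (184, 8), (185, -8), (195, -12), (221, -4), (240, 32),
      (250, 32), (251, 4), (264, -24), (265, 12), (280, 36), (283, 48), (284, 8), (290, 48),
      (291, -60), (292, -12), (294, 12), (295, -12)],
      [],
      [(21, 24), (30, -8), (63, -16), (73, -8), (80, 44), (82, -24), (91, 12), (97, 16), (121,
      -20), (163, 24), (164, -21), (180, -24), (182, 4), (220, 8), (251, -20), (261, 39), (264,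
      21), (265, -21), (283, -24), (284, -4), (290, -24), (292, 16)],
      [],
      []],
    [[],
      [],
      [(121, 12), (141, 12), (151, 12), (160, 12), (162, 12), (181, 24), (195, -12), (221, -12),
      (251, 12), (261, -36), (264, -12), (280, -12), (291, -12), (292, -12), (294, 12), (295,
      -12)],
      [],
      [],
      [(51, 24), (61, -72), (260, -24), (281, 24)],
      [(51, -8), (61, 24), (120, 8), (151, -8), (161, 24), (184, -16), (241, -8), (250, 8), (251,
      -8), (260, -16), (281, -40), (284, -8), (285, 8)],
      [(51, -4), (61, 6), (67, 18), (71, 6), (83, -6), (90, 6), (120, -14), (151, -4), (161, 12),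
      (184, 10), (241, -10), (250, -14), (251, -10), (260, 46), (262, 18), (281, -20), (284,
      -10), (285, 10)],
      [(284, -24)],
      [(121, 36), (141, 12), (151, 12), (160, 36), (162, 12), (184, 24), (185, -24), (195, -36),
      (221, -12), (251, 36), (261, -108), (264, -12), (280, -36), (291, -36), (292, -36), (294,
      36), (295, -36)]],
    [[(80, -12), (91, -12), (121, -4), (164, -3), (182, -4), (251, -4), (261, 9), (264, 3),
      (265, -3), (284, 4)],
      [(31, -12), (60, -4), (70, 4), (81, 12), (87, -4), (93, 4), (121, -24), (141, -8), (151,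
      -8), (160, 24), (162, -24), (181, -36), (184, -4), (185, 4), (195, 24), (221, 20), (240,
      -16), (250, -16), (251, -24), (261, 72), (264, 24), (280, -24), (291, 24), (292, 24), (294,
      -24), (295, 24)],
      [(163, 24), (164, -6), (180, -24), (261, -6), (264, 6), (265, -6), (283, -24), (290, -24)],
      [(61, 12), (67, -12), (71, -12), (83, -12), (90, -12), (120, 12), (184, -12), (241, 12),
      (250, 12), (251, 12), (260, -36), (262, -12), (281, 24), (284, 12), (285, -12)],
      [(51, 24), (61, -72), (84, -24), (260, -24), (281, 24)],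
      [(51, 24), (61, -72), (84, -24), (121, 24), (141, 24), (151, 24), (162, 24), (181, 72),
      (195, -24), (221, -24), (251, 24), (260, -24), (261, -72), (264, -24), (281, 24), (292,
      -24), (294, 24), (295, -24)],
      [(141, -24), (151, -24), (162, -24), (181, -72), (221, 24), (264, 24), (294, -24), (295,
      24)],
      [(60, 8), (70, -8), (87, -16), (93, -8), (121, -24), (141, -8), (151, -8), (160, -48),
      (184, -16), (185, 16), (195, 24), (221, 8), (240, 8), (250, 8), (251, -24), (261, 72),
      (280, 48), (291, 24), (292, 24), (294, -24), (295, 24)],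
      [(51, -24), (61, 72), (260, 24), (294, -24)],
      [(80, 24), (91, 24), (121, 8), (163, 72), (164, -12), (180, -72), (182, 32), (251, 8),
      (261, -36), (264, 12), (265, -12), (283, -72), (284, -32), (290, -72), (292, 24)]]]
  A := [[[(21, -24), (30, 8), (63, -8), (73, 8), (80, -20), (82, 48), (91, 12), (97, 8), (121, 28),
      (163, 72), (164, 3), (180, -72), (182, 28), (220, -8), (251, 28), (261, -81), (264, -3),
      (265, 3), (283, -72), (284, -28), (290, -72), (292, 8)],
      [(31, 12), (60, -4), (70, 4), (81, -36), (84, 24), (85, -24), (87, -4), (93, 4), (141, -8),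
      (151, -8), (181, -12), (184, -4), (185, 4), (221, -4), (240, 8), (250, 8), (291, -24)],
      [(51, 4), (61, -18), (67, -6), (71, 6), (83, -6), (90, 6), (120, 2), (151, 4), (161, -12),
      (184, 2), (241, -2), (250, 2), (251, -2), (260, -10), (262, -6), (281, -4), (284, -2),
      (285, 2)],
      [(80, -12), (82, 24), (91, 12), (121, 4), (163, 24), (164, -3), (180, -24), (182, 4), (251,
      4), (261, -15), (264, 3), (265, -3), (283, -24), (284, -4), (290, -24)],
      [(31, 12), (60, 4), (70, -4), (81, -36), (84, 24), (85, -24), (87, 4), (93, -4), (121, 12),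
      (141, -4), (151, -4), (160, -12), (162, 12), (181, -12), (184, 4), (185, -4), (195, -12),
      (221, -8), (240, 16), (250, 16), (251, 12), (261, -36), (264, -12), (280, 12), (291, -36),
      (292, -12), (294, 12), (295, -12)],
      [],
      [(82, 24), (163, 24), (164, -6), (180, -24), (261, -6), (264, 6), (265, -6), (283, -24),
      (290, -24)],
      [(84, 24), (85, -24), (121, -12), (141, -12), (151, -12), (160, 12), (162, -12), (181,
      -48), (195, 12), (221, 12), (251, -12), (261, 36), (264, 12), (280, -12), (291, -12), (292,
      12), (294, -12), (295, 12)],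
      [(61, 24)]],
    [[],
      [(21, -24), (31, 24), (60, 8), (70, -8), (81, -48), (84, 24), (85, -24), (87, 8), (93, -8),
      (95, 24), (121, 12), (141, -20), (151, -20), (160, -36), (162, 12), (170, 24), (181, -48),
      (184, 8), (185, -8), (195, -12), (221, -4), (240, 32), (250, 32), (251, 12), (261, -12),
      (264, -12), (271, -24), (280, 36), (290, 24), (291, -60), (292, -12), (294, 12), (295,
      -12)],
      [(51, 64), (61, -192), (84, -24), (120, 8), (151, -8), (161, 24), (184, 8), (190, 24),
      (241, -8), (250, 8), (251, -8), (260, -64), (281, 8), (284, -8), (285, 8)],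
      [(21, -24), (82, 24), (121, 24), (163, 24), (164, 12), (180, -48), (182, 24), (251, 24),
      (261, -60), (264, -12), (265, 12), (283, -24), (284, -24), (290, -24)],
      [],
      [(51, 16), (61, -48), (120, 8), (151, -8), (161, 24), (184, 8), (241, -8), (250, 8), (251,
      -8), (260, -40), (281, -16), (284, -8), (285, 8)],
      [],
      [],
      [(51, 16), (61, -48), (120, 8), (151, -8), (161, 48), (184, 8), (241, -8), (250, 8), (251,
      -8), (260, -40), (281, -16), (284, -8), (285, 8)]],
    [[],
      [(51, 96), (61, -288), (84, -24), (161, 24), (171, -24), (190, 24), (260, -72), (270, 24),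
      (281, 24)],
      [(21, -24), (82, 24), (121, 24), (163, 48), (164, 6), (180, -48), (182, 24), (251, 24),
      (261, -66), (264, -6), (265, 6), (283, -48), (284, -24), (290, -24)],
      [(121, -12), (141, -12), (151, -12), (160, 12), (162, -12), (181, -24), (195, 12), (221,
      12), (251, -12), (261, 36), (264, 12), (280, -12), (291, 12), (292, 12), (294, -12), (295,
      12)],
      [(51, 24), (61, -72), (260, -24)],
      [],
      [],
      [],
      [(121, -24), (164, -24), (182, -24), (251, -24), (261, 72), (264, 24), (265, -24), (284,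
      24)]]]
  W := [[[],
      [],
      [],
      [],
      [[],
       [(181, -24)]],
      [[(180, -24)]],
      [[],
       [],
       [(61, 24), (181, -24)],
       [],
       [(60, 24), (180, -24)],
       [(60, 24), (161, -24), (180, -24)]],
      [],
      [],
      [[],
       [],
       [(91, 24)],
       [],
       [(191, 24)]]],
    [[],
      [],
      [],
      [],
      [[(260, -24), (280, -24)]],
      [[(260, 24)]],
      [[],
       [],
       [],
       [],
       [],
       [(261, -24)]],
      [],
      [[],
       [],
       [],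
       [(80, -24)]],
      [[],
       [(81, -24)],
       [(290, 24)],
       [(90, -24), (180, 24), (191, 24)],
       [(291, 24)]]],
    [[],
      [],
      [],
      [],
      [],
      [],
      [[],
       [],
       [],
       [(61, 24), (160, -24), (180, -24), (181, -24)]],
      [],
      [[],
       [],
       [(281, -24)]],
      [[],
       [],
       [],
       [(91, 24), (190, -24)]]]]

theorem ce0_ck : ce0.ckW bs dl 10 0 = true := by decide +kernel

/-- certificate -/
def ce1 : Cer where
  den := 3
  N := [[],
    [],
    [[],
      [(50, 3), (60, -12), (62, 3), (84, 3), (85, -3), (263, -3), (291, -3)],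
      [],
      [(20, -3)],
      [],
      [],
      [],
      [],
      [],
      []],
    [[(70, 3)],
      [(61, -3), (71, 3), (90, 3)],
      [],
      [],
      [],
      [],
      [],
      [],
      [],
      []],
    [[],
      [],
      [],
      [(40, -3), (80, -9)],
      [],
      [],
      [],
      [],
      [],
      []],
    [[],
      [(51, -3), (61, 9)],
      [],
      [(50, -3)],
      [],
      [],
      [],
      [],
      [],
      []],
    [[],
      [(21, 1), (51, -1), (61, 3)],
      [(61, 3), (64, -3), (65, 3), (84, -3)],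
      [(60, -3)],
      [(160, -3)],
      [(21, -1), (51, 1), (61, -3), (64, 3), (160, -3)],
      [],
      [(63, -3)],
      [],
      []],
    [[(90, 3)],
      [(21, 1), (51, -1), (61, 3), (80, -3), (91, 3)],
      [(61, 3), (64, -3), (65, 3), (84, -3), (92, 3)],
      [],
      [(62, -3), (81, 3), (84, -3), (85, 3), (94, 3)],
      [(21, 2), (51, 1), (61, -3), (62, -3), (64, 3), (81, 3), (84, -3), (85, 3), (95, 3), (180,
      3), (191, 3)],
      [],
      [],
      [],
      []],
    [[],
      [],
      [(62, 3), (160, -3)],
      [],
      [],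
      [(84, 3)],
      [],
      [(83, -3)],
      [],
      []],
    [[(80, -3)],
      [(81, -3)],
      [(21, -3), (180, -3), (191, -3)],
      [],
      [],
      [(62, 3), (84, 3), (85, -3), (160, -3)],
      [],
      [(60, 3), (93, -3)],
      [],
      []]]
  A := [[[],
      [],
      [],
      [],
      [],
      [],
      [],
      [],
      [(61, 3)]],
    [[],
      [(50, 3), (60, -9), (62, -3), (81, 3), (84, -3), (85, 3), (160, 3), (193, 3)],
      [(51, -3), (61, 9), (92, 3), (161, -3), (171, 3)],
      [],
      [],
      [],
      [(180, 3)],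
      [],
      [(51, 3), (61, -6), (64, -3), (65, 3), (84, -3), (161, 3)]],
    [[],
      [(92, 3), (260, -3), (270, 3)],
      [],
      [(50, 3), (60, -12), (160, 3), (263, -3)],
      [],
      [(40, 3), (50, 3), (80, 9), (283, 3)],
      [],
      [(61, 3), (64, -3), (65, 3), (84, -3), (260, 3)],
      [(21, -3), (40, 3), (50, 3), (64, -3), (80, 9), (261, 3), (283, 3)]]]
  W := [[[],
      [],
      [],
      [],
      [[],
       [(160, -3), (181, -3)]],
      [],
      [],
      [],
      [[],
       [],
       [(81, 3)]],
      []],
    [[],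
      [],
      [],
      [],
      [],
      [],
      [[],
       [],
       [],
       [(60, -3)]],
      [[(90, 3)]],
      [[],
       [(61, 3), (160, -3), (181, -3)],
       [],
       [(80, -3), (91, 3)]],
      [[(91, -3)]]],
    [[],
      [],
      [],
      [],
      [],
      [],
      [],
      [[],
       [(81, 3), (180, -3), (191, 3)]],
      [[(160, 3)],
       [(161, 3)]],
      [[(81, 3), (180, -3)],
       [],
       [],
       [(190, -3)]]]]

theorem ce1_ck : ce1.ckW bs dl 10 1 = true := by decide +kernel

/-- certificate -/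
def ce2 : Cer where
  den := 4
  N := [[],
    [],
    [[(180, 4)],
      [(160, -4), (181, 4)],
      [],
      [],
      [],
      [],
      [],
      [],
      [],
      []],
    [[(60, -4), (70, 4)],
      [(61, -4), (71, 4), (90, 4)],
      [],
      [],
      [],
      [],
      [],
      [],
      [],
      []],
    [],
    [],
    [[(260, 1), (281, -1)],
      [],
      [],
      [],
      [],
      [],
      [],
      [(63, -4), (80, -4)],
      [],
      []],
    [[(90, 4), (260, 1), (281, -1)],
      [(91, 4)],
      [],
      [],
      [],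
      [],
      [],
      [],
      [],
      []],
    [[],
      [],
      [],
      [(80, -4)],
      [],
      [],
      [],
      [(83, -4)],
      [],
      []],
    [[],
      [(60, 4), (81, -4)],
      [(191, -4)],
      [],
      [],
      [(160, -4), (181, 4), (280, 4), (291, 4)],
      [],
      [(93, -4)],
      [],
      []]]
  A := [[[],
      [],
      [],
      [],
      [],
      [],
      [],
      [(60, 4)],
      [(61, 4), (260, 1), (281, -1)]],
    [[],
      [],
      [(190, 4), (260, 3), (281, -3)],
      [],
      [(160, -4)],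
      [],
      [],
      [],
      [(161, 4)]],
    [[],
      [],
      [(180, 4), (191, -4), (261, -4), (290, 4)],
      [(280, -4)],
      [],
      [(261, -4)],
      [],
      [(281, 4)],
      []]]
  W := [[[],
      [],
      [],
      [],
      [],
      [],
      [],
      [],
      [],
      []],
    [[],
      [],
      [],
      [],
      [],
      [],
      [],
      [],
      [],
      []],
    [[],
      [],
      [],
      [],
      [],
      [],
      [],
      [],
      [],
      []]]

theorem ce2_ck : ce2.ckW bs dl 10 2 = true := by decide +kernel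

/-- certificate -/
def ce3 : Cer where
  den := 4
  N := [[],
    [],
    [[(180, 4)],
      [(160, -4), (181, 4)],
      [],
      [],
      [],
      [],
      [],
      [],
      [],
      []],
    [],
    [],
    [],
    [[(260, 1)],
      [],
      [],
      [(60, -4)],
      [],
      [(261, 4)],
      [],
      [],
      [],
      []],
    [[],
      [(91, 4)],
      [],
      [],
      [],
      [],
      [],
      [],
      [],
      []],
    [[],
      [],
      [],
      [(80, -4)],
      [],
      [(281, 4)],
      [],
      [],
      [],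
      []],
    [[],
      [(81, -4)],
      [(191, -4)],
      [(90, -4), (260, -1)],
      [],
      [(160, -4), (181, 4), (280, 4), (291, 4)],
      [],
      [],
      [],
      []]]
  A := [[[],
      [],
      [],
      [],
      [],
      [],
      [],
      [],
      [(61, 4), (260, 1)]],
    [[],
      [],
      [(190, 4), (260, 3)],
      [],
      [],
      [],
      [],
      [(160, 4)],
      [(161, 4)]],
    [[],
      [],
      [(180, 4), (191, -4), (290, 4)],
      [],
      [],
      [],
      [(280, 4)],
      [],
      []]]
  W := [[[],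
      [],
      [],
      [],
      [],
      [],
      [],
      [],
      [],
      []],
    [[],
      [],
      [],
      [],
      [],
      [],
      [],
      [],
      [],
      []],
    [[],
      [],
      [],
      [],
      [],
      [],
      [],
      [],
      [],
      []]]

theorem ce3_ck : ce3.ckW bs dl 10 3 = true := by decide +kernel

/-- certificate -/
def ce4 : Cer where
  den := 1
  N := [[],
    [],
    [],
    [],
    [],
    [],
    [[],
      [(91, -1)],
      [],
      [(60, -1)],
      [],
      [],
      [],
      [],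
      [],
      []],
    [[(90, 1)],
      [],
      [],
      [],
      [],
      [],
      [],
      [],
      [],
      []],
    [[],
      [],
      [],
      [(80, -1)],
      [],
      [],
      [],
      [],
      [],
      []],
    [[],
      [(81, -1)],
      [],
      [],
      [],
      [],
      [],
      [],
      [],
      []]]
  A := [[[],
      [],
      [],
      [],
      [],
      [],
      [],
      [],
      [(61, 1)]],
    [],
    []]
  W := [[[],
      [],
      [],
      [],
      [],
      [],
      [],
      [],
      [],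
      []],
    [[],
      [],
      [],
      [],
      [],
      [],
      [],
      [],
      [],
      []],
    [[],
      [],
      [],
      [],
      [],
      [],
      [],
      [],
      [],
      []]]

theorem ce4_ck : ce4.ckW bs dl 10 4 = true := by decide +kernel

/-- all degrees -/
theorem cert (k : Type*) [Field k] [CharZero k] (κ : ℕ) :
    CertW (fun x : Fin 10 => bs.w x) (fun i : Fin 3 => nth 0 dl i) (Mt k 10 (nth [] bs.pw 1))
      (XX k bs 10) κ := by
  have hp : bs.ckPow 10 = true := by
    have h := bs_ck
    simp only [Base.ckW, Bool.and_eq_true] at h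
    exact h.1.1
  match κ with
  | 0 => exact certW_of_ck bs dl (by norm_num) hp ce0 ce0_ck
  | 1 => exact certW_of_ck bs dl (by norm_num) hp ce1 ce1_ck
  | 2 => exact certW_of_ck bs dl (by norm_num) hp ce2 ce2_ck
  | 3 => exact certW_of_ck bs dl (by norm_num) hp ce3 ce3_ck
  | 4 => exact certW_of_ck bs dl (by norm_num) hp ce4 ce4_ck
  | m + 5 =>
    refine certW_top fun i x => ?_
    have h1 : ∀ x : Fin 10, bs.w x ≤ 6 := by decide
    have h2 : ∀ i : Fin 3, 2 ≤ nth 0 dl i := by decide
    have := h1 x
    have := h2 i
    omega

/-- density of the neighbourhood of the base point -/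
theorem cl {k : Type*} [Field k] [CharZero k] (c : k → Fin 3 → Matrix (Fin 10) (Fin 10) k)
    (hc : D7.PolyFam c) (hcomm : ∀ s i j, c s i * c s j = c s j * c s i)
    (hlow : ∀ s (i : Fin 3) (x y : Fin 10), bs.w x < bs.w y + nth 0 dl i → c s i x y = 0)
    (h0 : ∀ (i : Fin 3) (x y : Fin 10), bs.w x = bs.w y + nth 0 dl i →
      c 0 i x y = XX k bs 10 i x y) (s : k) : Q5dc.Cl (c s) :=
  fdcW_ck bs dl (by norm_num) (by decide) bs_ck (cert k) c hc hcomm hlow h0 s

end Pool.Agent.Lib.D13.W4321
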