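import Pool.Agent.Lib.D13.M4321
import Pool.Agent.Lib.D13.W4321

/-!
# MP_5dcbc3_ag: type `(4, 3, 2, 1)`, the family `(2,4,3,1) | (3,4,2,1)`

`al0 = be0 = de0 = f0 = rho = 0`, `e0 = (1, 0)`, `g0 = (0, 1)`, all other parameters arbitrary.
-/

set_option autoImplicit false

namespace Pool.Agent.Lib.D13.T4321

open Matrix Pool.Agent.Lib.Q5dc Pool.Agent.Lib.D7 Refl

variable {k : Type*} [Field k]

/-- the first matrix of the path from the base point to `P, P'` -/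
def h53_pt (P P' : Par k) (s : k) : Par k where
  al0 := 0
  al1 := 1 + s * (P.al1 - 1)
  al2 := s * P.al2
  g0 := 0
  g1 := s * P.g1
  pi := s * P.pi
  be0 := 0
  be1 := s * P.be1
  be2 := s * P.be2
  q1 := s * P.q1
  q2 := s * P.q2
  e0 := 1
  e1 := s * P.e1
  ph := s * P.ph
  de0 := 0
  de1 := -(s * P'.al1 * (s * P.be1) - (1 + s * (P.al1 - 1)) * (s * P'.be1)) -
    (s * P'.pi * (1 + s * (P.th - 1)) - s * P.pi * (s * P'.th))
  f0 := 0
  f1 := -(s * P'.al1 * (s * P.q1) - (1 + s * (P.al1 - 1)) * (1 + s * (P'.q1 - 1))) -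
    (s * P'.pi * (s * P.eta) - s * P.pi * (1 + s * (P'.eta - 1)))
  z := -(s * P'.al1) -
    (s * P'.pi * (1 + s * (P.zeta - 1)) - s * P.pi * (-1 + s * (P'.zeta + 1)))
  rho := 0
  th := 1 + s * (P.th - 1)
  eta := s * P.eta
  zeta := 1 + s * (P.zeta - 1)

/-- the second matrix of the path from the base point to `P, P'` -/
def h53_pt' (P P' : Par k) (s : k) : Par k where
  al0 := 0
  al1 := s * P'.al1
  al2 := s * P'.al2
  g0 := 1
  g1 := s * P'.g1
  pi := s * P'.pi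
  be0 := 0
  be1 := s * P'.be1
  be2 := s * P'.be2
  q1 := 1 + s * (P'.q1 - 1)
  q2 := s * P'.q2
  e0 := 0
  e1 := s * P'.e1
  ph := -1 + s * (P'.ph + 1)
  de0 := 0
  de1 := (1 + s * (P'.q1 - 1)) * (s * P.be1) - s * P.q1 * (s * P'.be1) +
    ((-1 + s * (P'.ph + 1)) * (1 + s * (P.th - 1)) - s * P.ph * (s * P'.th))
  f0 := 0
  f1 := (-1 + s * (P'.ph + 1)) * (s * P.eta) - s * P.ph * (1 + s * (P'.eta - 1))
  z := 1 + s * (P'.q1 - 1) +
    ((-1 + s * (P'.ph + 1)) * (1 + s * (P.zeta - 1)) - s * P.ph * (-1 + s * (P'.zeta + 1)))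
  rho := 0
  th := s * P'.th
  eta := 1 + s * (P'.eta - 1)
  zeta := -1 + s * (P'.zeta + 1)

theorem h53_pt_rel (P P' : Par k) (s : k) : Rel (h53_pt P P' s) (h53_pt' P P' s) := by
  constructor <;> simp only [Br, h53_pt, h53_pt'] <;> ring

theorem h53_X_isPoly {Q : k → Par k} (h1 : IsPoly fun s => (Q s).al0) (h2 : IsPoly fun s => (Q s).al1)
    (h3 : IsPoly fun s => (Q s).al2) (h4 : IsPoly fun s => (Q s).g0)
    (h5 : IsPoly fun s => (Q s).g1) (h6 : IsPoly fun s => (Q s).pi)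
    (h7 : IsPoly fun s => (Q s).be0) (h8 : IsPoly fun s => (Q s).be1)
    (h9 : IsPoly fun s => (Q s).be2) (h10 : IsPoly fun s => (Q s).q1)
    (h11 : IsPoly fun s => (Q s).q2) (h12 : IsPoly fun s => (Q s).e0)
    (h13 : IsPoly fun s => (Q s).e1) (h14 : IsPoly fun s => (Q s).ph)
    (h15 : IsPoly fun s => (Q s).de0) (h16 : IsPoly fun s => (Q s).de1)
    (h17 : IsPoly fun s => (Q s).f0) (h18 : IsPoly fun s => (Q s).f1)
    (h19 : IsPoly fun s => (Q s).z) (h20 : IsPoly fun s => (Q s).rho)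
    (h21 : IsPoly fun s => (Q s).th) (h22 : IsPoly fun s => (Q s).eta)
    (h23 : IsPoly fun s => (Q s).zeta) (x y : Fin 10) : IsPoly fun s => X (Q s) x y := by
  fin_cases x <;> fin_cases y <;> simp [X] <;>
    first | exact D7.IsPoly.const 0 | assumption

theorem h53_pt_poly (P P' : Par k) (x y : Fin 10) : IsPoly fun s => X (h53_pt P P' s) x y := by
  apply h53_X_isPoly <;> simp only [h53_pt] <;> repeat' (first
    | exact D7.IsPoly.const _
    | exact D7.IsPoly.id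
    | refine D7.IsPoly.add ?_ ?_
    | refine D7.IsPoly.sub ?_ ?_
    | refine D7.IsPoly.mul ?_ ?_
    | refine D7.IsPoly.neg ?_)

theorem h53_pt'_poly (P P' : Par k) (x y : Fin 10) : IsPoly fun s => X (h53_pt' P P' s) x y := by
  apply h53_X_isPoly <;> simp only [h53_pt'] <;> repeat' (first
    | exact D7.IsPoly.const _
    | exact D7.IsPoly.id
    | refine D7.IsPoly.add ?_ ?_
    | refine D7.IsPoly.sub ?_ ?_
    | refine D7.IsPoly.mul ?_ ?_
    | refine D7.IsPoly.neg ?_)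

/-- the triple at the h53_start of the path, with integral entries -/
def h53_TZ : Fin 3 → Matrix (Fin 10) (Fin 10) ℤ :=
  ![!![0, 0, 0, 0, 0, 0, 0, 0, 0, 0;
       0, 0, 0, 0, 0, 0, 0, 0, 0, 0;
       0, 0, 0, 0, 0, 0, 0, 0, 0, 0;
       1, 0, 0, 0, 0, 0, 0, 0, 0, 0;
       0, 1, 0, 0, 0, 0, 0, 0, 0, 0;
       0, 0, 0, 0, 0, 0, 0, 0, 0, 0;
       0, 0, 1, 0, 0, 0, 0, 0, 0, 0;
       0, 0, 0, 1, 0, 0, 0, 0, 0, 0;
       0, 0, 0, 0, 1, 0, 0, 0, 0, 0;
       0, 0, 0, 0, 0, 0, 0, 1, 0, 0],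
    !![0, 0, 0, 0, 0, 0, 0, 0, 0, 0;
       0, 0, 0, 0, 0, 0, 0, 0, 0, 0;
       0, 1, 0, 0, 0, 0, 0, 0, 0, 0;
       0, 0, 0, 0, 0, 0, 0, 0, 0, 0;
       1, 0, 0, 0, 0, 0, 0, 0, 0, 0;
       0, 0, 0, 0, 0, 0, 0, 0, 0, 0;
       0, 0, 0, 0, 1, 1, 0, 0, 0, 0;
       0, 0, 0, 0, 0, 0, 0, 0, 0, 0;
       0, 0, 1, 1, 0, 0, 0, 0, 0, 0;
       0, 0, 0, 0, 0, 1, 0, 0, 0, 0],
    !![0, 0, 0, 0, 0, 0, 0, 0, 0, 0;
       0, 0, 0, 0, 0, 0, 0, 0, 0, 0;
       1, 0, 0, 0, 0, 0, 0, 0, 0, 0;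
       0, 0, 0, 0, 0, 0, 0, 0, 0, 0;
       0, 1, 0, 0, 0, 0, 0, 0, 0, 0;
       0, -1, 0, 0, 0, 0, 0, 0, 0, 0;
       0, 0, 0, 1, 0, -1, 0, 0, 0, 0;
       0, 0, 0, 0, 0, 0, 0, 0, 0, 0;
       0, 0, 0, 0, 1, 1, 0, 0, 0, 0;
       0, 0, -1, 0, 0, 0, 0, 0, 0, 0]]

theorem h53_tab : ∀ (i : Fin 3) (x y : Fin 10), W4321.bs.w x = W4321.bs.w y + nth 0 W4321.dl i →
    W4321.bs.Xe i x y = h53_TZ i x y := by
  decide +kernel

theorem h53_start (P P' : Par k) : ∀ (i : Fin 3) (x y : Fin 10),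
    ![J k, X (h53_pt P P' 0), X (h53_pt' P P' 0)] i x y = ((h53_TZ i x y : ℤ) : k) := by
  intro i x y
  fin_cases i <;> fin_cases x <;> fin_cases y <;> simp [h53_TZ, J, X, h53_pt, h53_pt']

/-- the family `(2,4,3,1) | (3,4,2,1)` -/
theorem cl_F5 [CharZero k] {P P' : Par k} (h : Rel P P') (hal : P.al0 = 0) (hal' : P'.al0 = 0)
    (hbe : P.be0 = 0) (hbe' : P'.be0 = 0) (hde : P.de0 = 0) (hde' : P'.de0 = 0)
    (hf : P.f0 = 0) (hf' : P'.f0 = 0) (hr : P.rho = 0) (hr' : P'.rho = 0)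
    (he : P.e0 = 1) (he' : P'.e0 = 0) (hg : P.g0 = 0) (hg' : P'.g0 = 1) :
    Cl ![J k, X P, X P'] := by
  have h1 : h53_pt P P' 1 = P := by
    obtain ⟨r1, r2, r3, r4, r5, r6, r7, r8, r9, r10, r11, r12, r13, r14, r15, r16, r17, r18,
      r19, r20⟩ := h
    simp only [Br, hal, hal', hbe, hbe', hde, hde', hf, hf', he, he', hg, hg'] at r3 r5 r7
    obtain ⟨al0, al1, al2, g0, g1, pi, be0, be1, be2, q1, q2, e0, e1, ph, de0, de1, f0, f1, z, rho,
      th, eta, zeta⟩ := P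
    simp only at *
    subst hal hbe hde hf hr he hg
    rw [h53_pt]
    congr 1
    · ring
    · ring
    · ring
    · ring
    · ring
    · ring
    · ring
    · ring
    · ring
    · ring
    · linear_combination -r3
    · linear_combination -r5
    · linear_combination -r7
    · ring
    · ring
    · ring
  have h2 : h53_pt' P P' 1 = P' := by
    obtain ⟨r1, r2, r3, r4, r5, r6, r7, r8, r9, r10, r11, r12, r13, r14, r15, r16, r17, r18,
      r19, r20⟩ := h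
    simp only [Br, hal, hal', hbe, hbe', hde, hde', hf, hf', he, he', hg,
      hg'] at r10 r12 r13
    obtain ⟨al0, al1, al2, g0, g1, pi, be0, be1, be2, q1, q2, e0, e1, ph, de0, de1, f0, f1, z, rho,
      th, eta, zeta⟩ := P'
    simp only at *
    subst hal' hbe' hde' hf' hr' he' hg'
    rw [h53_pt']
    congr 1
    · ring
    · ring
    · ring
    · ring
    · ring
    · ring
    · ring
    · ring
    · ring
    · ring
    · linear_combination r10
    · linear_combination r12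
    · linear_combination r13
    · ring
    · ring
    · ring
  have key := W4321.cl (k := k) (fun s => ![J k, X (h53_pt P P' s), X (h53_pt' P P' s)]) ?_ ?_ ?_ ?_ 1
  · simpa only [h1, h2] using key
  · intro i x y
    fin_cases i
    · exact D7.IsPoly.const _
    · exact h53_pt_poly P P' x y
    · exact h53_pt'_poly P P' x y
  · intro s
    exact (cn (h53_pt_rel P P' s)).1
  · intro s i x y hxy
    fin_cases i <;> fin_cases x <;> fin_cases y <;> first | rfl | (exfalso; revert hxy; decide)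
  · intro i x y hxy
    refine (h53_start P P' i x y).trans ?_
    rw [← h53_tab i x y hxy]
    rfl

end Pool.Agent.Lib.D13.T4321
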