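import Pool.Agent.Lib.D7.Api
import Pool.Agent.Lib.D8.Degen

/-!
# MP_5dcbc3_ag: a general density criterion

`w : ι → ℕ` is a level function; the degree of the entry `(x, y)` is `w x - w y`. A base point is a
curvilinear triple `X` without parts of degree `≥ 2`. If the linear condition `Cert` holds then every
polynomial family `c` of commuting triples with parts of positive degree only, such that the part of
degree `1` of `c 0` is the one of `X`, consists of limits of curvilinear triples. The proof is a
Newton iteration modulo the powers of the parameter.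
-/

namespace Pool.Agent.Lib.D13

open Matrix Pool.Agent.Lib.Q5dc Pool.Agent.Lib.D7

variable {k : Type*} [Field k] {ι : Type*} [Fintype ι] [DecidableEq ι]

/-- the linear condition on the base point -/
def Cert (w : ι → ℕ) (N0 : Matrix ι ι k) (X : Fin 3 → Matrix ι ι k) (κ : ℕ) : Prop :=
  ∀ e : Fin 3 → Matrix ι ι k, (∀ i x y, w x < w y + κ → e i x y = 0) →
    (∀ i j x z, w z + κ + 1 ≤ w x → (X i * e j + e i * X j - X j * e i - e j * X i) x z = 0) →
    ∃ (N : Matrix ι ι k) (a : Fin 3 → Matrix ι ι k),
      (∀ i, ∃ p : Polynomial k, p.coeff 0 = 0 ∧ a i = Polynomial.aeval N0 p) ∧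
      ∀ i x y, w y + κ ≤ w x → (X i * N - N * X i + a i) x y = e i x y

namespace Fdc

/-! ### truncation -/

theorem cl_of_trunc [Infinite k] (c : Fin 3 → ι → ι → Polynomial k)
    (h : ∀ r : ℕ, ∃ E : Fin 3 → ι → ι → Polynomial k,
      {s : k | Cl (fun i => Matrix.of fun x y => (E i x y).eval s)}.Infinite ∧
      ∀ i x y, (Polynomial.X : Polynomial k) ^ r ∣ E i x y - c i x y) (s₀ : k) :
    Cl (fun i => Matrix.of fun x y => (c i x y).eval s₀) := by
  intro F hF
  have hev : ∀ (c : Fin 3 → ι → ι → Polynomial k) (s : k),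
      (MvPolynomial.aeval (fun z : Fin 3 × ι × ι => c z.1 z.2.1 z.2.2) F).eval s =
      MvPolynomial.eval (co (fun i => Matrix.of fun x y => (c i x y).eval s)) F := by
    intro c s
    have h1 : ((Polynomial.aeval s : Polynomial k →ₐ[k] k).comp
        (MvPolynomial.aeval (fun z : Fin 3 × ι × ι => c z.1 z.2.1 z.2.2))) =
        (MvPolynomial.aeval (co (fun i => Matrix.of fun x y => (c i x y).eval s)) :
          MvPolynomial (Fin 3 × ι × ι) k →ₐ[k] k) := by
      apply MvPolynomial.algHom_ext
      rintro ⟨i, x, y⟩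
      simp [co, Polynomial.coe_aeval_eq_eval]
    have h3 := congrArg (fun f => f F) h1
    simp only [AlgHom.comp_apply, Polynomial.coe_aeval_eq_eval] at h3
    exact h3
  have key : ∀ r : ℕ, (Polynomial.X : Polynomial k) ^ r ∣
      MvPolynomial.aeval (fun z : Fin 3 × ι × ι => c z.1 z.2.1 z.2.2) F := by
    intro r
    obtain ⟨E, hE, hr⟩ := h r
    have hz : MvPolynomial.aeval (fun z : Fin 3 × ι × ι => E z.1 z.2.1 z.2.2) F = 0 := by
      apply Polynomial.eq_zero_of_infinite_isRoot
      refine hE.mono fun s hs => ?_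
      simp only [Set.mem_ofPred_eq, Polynomial.IsRoot.def]
      rw [hev]
      exact hs F hF
    set π := Ideal.Quotient.mkₐ k (Ideal.span {(Polynomial.X : Polynomial k) ^ r}) with hπ
    have h1 : (π.comp (MvPolynomial.aeval (fun z : Fin 3 × ι × ι => c z.1 z.2.1 z.2.2))) =
        π.comp (MvPolynomial.aeval (fun z : Fin 3 × ι × ι => E z.1 z.2.1 z.2.2)) := by
      apply MvPolynomial.algHom_ext
      rintro ⟨i, x, y⟩
      simp only [AlgHom.comp_apply, MvPolynomial.aeval_X]
      rw [hπ, Ideal.Quotient.mkₐ_eq_mk]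
      refine (Ideal.Quotient.eq.2 ?_).symm
      exact Ideal.mem_span_singleton.2 (hr i x y)
    have h2 := congrArg (fun f => f F) h1
    simp only [AlgHom.comp_apply, hz, map_zero] at h2
    rw [hπ, Ideal.Quotient.mkₐ_eq_mk, Ideal.Quotient.eq_zero_iff_mem] at h2
    exact Ideal.mem_span_singleton.1 h2
  have h0 : MvPolynomial.aeval (fun z : Fin 3 × ι × ι => c z.1 z.2.1 z.2.2) F = 0 := by
    by_contra hne
    have h1 := key (Polynomial.natDegree
      (MvPolynomial.aeval (fun z : Fin 3 × ι × ι => c z.1 z.2.1 z.2.2) F) + 1)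
    have h2 := Polynomial.natDegree_le_of_dvd h1 hne
    rw [Polynomial.natDegree_X_pow] at h2
    omega
  rw [← hev, h0, Polynomial.eval_zero]

/-! ### algebra modulo a square zero element -/

section Eps

variable {S : Type*} [CommRing S]

theorem det_eps (ε : S) (hε : ε * ε = 0) (N : Matrix ι ι S) :
    (1 + ε • N).det = 1 + N.trace * ε := by
  rw [Matrix.det_one_add_smul, pow_two, hε, mul_zero, add_zero]

theorem adj_eps (ε : S) (hε : ε * ε = 0) (N : Matrix ι ι S) :
    adjugate (1 + ε • N) = 1 + ε • (N.trace • (1 : Matrix ι ι S) - N) := by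
  have h1 : (1 + ε • N) * (1 - ε • N) = 1 := by
    rw [Matrix.add_mul, Matrix.mul_sub, Matrix.mul_sub, Matrix.one_mul, Matrix.mul_one,
      Matrix.one_mul, Matrix.smul_mul, Matrix.mul_smul, smul_smul, hε, zero_smul]
    abel
  have h2 : adjugate (1 + ε • N) = (adjugate (1 + ε • N) * (1 + ε • N)) * (1 - ε • N) := by
    rw [Matrix.mul_assoc, h1, Matrix.mul_one]
  rw [h2, Matrix.adjugate_mul, det_eps ε hε, Matrix.smul_mul, Matrix.one_mul, smul_sub, smul_smul,
    add_mul, one_mul, mul_assoc, hε, mul_zero, add_zero, add_smul, one_smul, smul_sub, smul_smul,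
    mul_comm ε]
  abel

/-- first-order term -/
theorem step_eps (ε : S) (hε : ε * ε = 0) {G G' B N a X0 : Matrix ι ι S} (hG : ε • G = ε • 1)
    (hG' : ε • G' = ε • 1) (hB : ε • B = ε • X0) :
    adjugate (1 + ε • N) * G' * (B + ε • a) * (G * (1 + ε • N)) =
      G' * B * G + ε • (N.trace • X0 + X0 * N - N * X0 + a) := by
  have h1 : ε • (G' * B * G) = ε • X0 := by
    rw [Matrix.mul_assoc, ← Matrix.smul_mul, hG', Matrix.smul_mul, Matrix.one_mul,
      ← Matrix.smul_mul, hB, Matrix.smul_mul, ← Matrix.mul_smul, hG, Matrix.mul_smul,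
      Matrix.mul_one]
  have h2 : ε • (G' * a * G) = ε • a := by
    rw [Matrix.mul_assoc, ← Matrix.smul_mul, hG', Matrix.smul_mul, Matrix.one_mul,
      ← Matrix.mul_smul, hG, Matrix.mul_smul, Matrix.mul_one]
  have h30 : G' * (B + ε • a) * G = G' * B * G + ε • a := by
    rw [Matrix.mul_add, Matrix.add_mul, Matrix.mul_smul, Matrix.smul_mul, h2]
  have h3 : adjugate (1 + ε • N) * G' * (B + ε • a) * (G * (1 + ε • N)) =
      adjugate (1 + ε • N) * (G' * B * G + ε • a) * (1 + ε • N) := by
    rw [← h30]
    simp only [Matrix.mul_assoc]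
  rw [h3, adj_eps ε hε]
  have h4 : ∀ Y : Matrix ι ι S, ε • (Y * (G' * B * G)) = ε • (Y * X0) := by
    intro Y
    rw [← Matrix.mul_smul, h1, Matrix.mul_smul]
  have h5 : ∀ Y : Matrix ι ι S, ε • ((G' * B * G) * Y) = ε • (X0 * Y) := by
    intro Y
    rw [← Matrix.smul_mul, h1, Matrix.smul_mul]
  set P := G' * B * G with hP
  set U := N.trace • (1 : Matrix ι ι S) - N with hU
  have e1 : (1 + ε • U) * (P + ε • a) * (1 + ε • N) =
      P + ε • a + ε • (P * N) + ε • (U * P) +
      (ε * ε) • (a * N + U * a + U * P * N + ε • (U * a * N)) := by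
    simp only [Matrix.add_mul, Matrix.mul_add, Matrix.one_mul, Matrix.mul_one, Matrix.smul_mul,
      Matrix.mul_smul, smul_smul, smul_add, mul_assoc]
    abel
  rw [e1, hε, zero_smul, add_zero, h5, h4, hU, Matrix.sub_mul, Matrix.smul_mul, Matrix.one_mul]
  simp only [smul_add, smul_sub]
  abel

end Eps

/-! ### families of curvilinear triples -/

/-- combinations of the powers of `N0` -/
noncomputable def Rg (N0 : Matrix ι ι k) : Submodule (Polynomial k) (Matrix ι ι (Polynomial k)) :=
  Submodule.span _ (Set.range fun m : ℕ => (N0 ^ (m + 1)).map Polynomial.C)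

theorem map_C_pow (N0 : Matrix ι ι k) (m : ℕ) :
    (N0 ^ m).map (Polynomial.C : k → Polynomial k) =
      (N0.map (Polynomial.C : k → Polynomial k)) ^ m :=
  map_pow (Polynomial.C : k →+* Polynomial k).mapMatrix N0 m

theorem Rg_comm {N0 : Matrix ι ι k} {b b' : Matrix ι ι (Polynomial k)} (hb : b ∈ Rg N0)
    (hb' : b' ∈ Rg N0) : Commute b b' := by
  refine Submodule.span_induction (p := fun b _ => Commute b b') ?_ ?_ ?_ ?_ hb
  · rintro _ ⟨m, rfl⟩
    refine Submodule.span_induction (p := fun b' _ => Commute _ b') ?_ ?_ ?_ ?_ hb'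
    · rintro _ ⟨m', rfl⟩
      dsimp only
      rw [map_C_pow, map_C_pow]
      exact (Commute.refl _).pow_pow _ _
    · exact Commute.zero_right _
    · exact fun _ _ _ _ h h' => h.add_right h'
    · exact fun r _ _ h => h.smul_right r
  · exact Commute.zero_left _
  · exact fun _ _ _ _ h h' => h.add_left h'
  · exact fun r _ _ h => h.smul_left r

theorem Rg_map {N0 M : Matrix ι ι k}
    (h : ∃ p : Polynomial k, p.coeff 0 = 0 ∧ M = Polynomial.aeval N0 p) :
    M.map (Polynomial.C : k → Polynomial k) ∈ Rg N0 := by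
  obtain ⟨p, hp, rfl⟩ := h
  have h1 : (Polynomial.aeval N0 p).map (Polynomial.C : k → Polynomial k) =
      ∑ i ∈ Finset.range (p.natDegree + 1), Polynomial.C (p.coeff i) •
        (N0 ^ i).map (Polynomial.C : k → Polynomial k) := by
    rw [Polynomial.aeval_eq_sum_range]
    ext x y
    simp only [Matrix.map_apply, Matrix.sum_apply, Matrix.smul_apply, smul_eq_mul, map_sum,
      map_mul]
  rw [h1]
  refine Submodule.sum_mem _ fun i _ => ?_
  rcases i with _ | i
  · rw [hp, map_zero, zero_smul]
    exact Submodule.zero_mem _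
  · exact Submodule.smul_mem _ _ (Submodule.subset_span ⟨i, rfl⟩)

theorem Rg_ev {N0 : Matrix ι ι k} {b : Matrix ι ι (Polynomial k)} (hb : b ∈ Rg N0) (s : k) :
    ∃ p : Polynomial k, p.coeff 0 = 0 ∧
      (Polynomial.evalRingHom s).mapMatrix b = Polynomial.aeval N0 p := by
  refine Submodule.span_induction (p := fun b _ => ∃ p : Polynomial k, p.coeff 0 = 0 ∧
      (Polynomial.evalRingHom s).mapMatrix b = Polynomial.aeval N0 p) ?_ ?_ ?_ ?_ hb
  · rintro _ ⟨m, rfl⟩
    refine ⟨Polynomial.X ^ (m + 1), by simp, ?_⟩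
    rw [map_pow, Polynomial.aeval_X]
    ext x y
    simp
  · exact ⟨0, by simp, by simp⟩
  · rintro b b' _ _ ⟨p, hp, e⟩ ⟨p', hp', e'⟩
    exact ⟨p + p', by simp [hp, hp'], by rw [map_add, e, e', map_add]⟩
  · rintro r b _ ⟨p, hp, e⟩
    refine ⟨Polynomial.C (r.eval s) * p, by simp [hp], ?_⟩
    have h1 : (Polynomial.evalRingHom s).mapMatrix (r • b) =
        r.eval s • (Polynomial.evalRingHom s).mapMatrix b := by
      ext x y
      simp
    rw [h1, e, map_mul, Polynomial.aeval_C, ← Algebra.smul_def]

/-- conjugates, up to a scalar -/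
noncomputable def Fa (g b : Matrix ι ι (Polynomial k)) : Matrix ι ι (Polynomial k) := adjugate g * b * g

theorem Fa_comm {N0 : Matrix ι ι k} {g b b' : Matrix ι ι (Polynomial k)} (hb : b ∈ Rg N0)
    (hb' : b' ∈ Rg N0) : Fa g b * Fa g b' = Fa g b' * Fa g b := by
  have h1 : ∀ b b' : Matrix ι ι (Polynomial k), Fa g b * Fa g b' =
      g.det • (adjugate g * (b * b') * g) := by
    intro b b'
    have h2 : Fa g b * Fa g b' = adjugate g * b * (g * adjugate g) * b' * g := by
      simp only [Fa, Matrix.mul_assoc]
    rw [h2, Matrix.mul_adjugate, Matrix.mul_smul, Matrix.mul_one, Matrix.smul_mul, Matrix.smul_mul]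
    simp only [Matrix.mul_assoc]
  rw [h1, h1, (Rg_comm hb hb').eq]

theorem Fa_cl {N0 : Matrix ι ι k} (h1 : N0 ^ Fintype.card ι = 0)
    (h2 : N0 ^ (Fintype.card ι - 1) ≠ 0) {g : Matrix ι ι (Polynomial k)}
    {b : Fin 3 → Matrix ι ι (Polynomial k)} (hb : ∀ i, b i ∈ Rg N0) {s : k}
    (hs : g.det.eval s ≠ 0) :
    Cl fun i => (Polynomial.evalRingHom s).mapMatrix (Fa g (b i)) := by
  have hc : Cl fun i => (Polynomial.evalRingHom s).mapMatrix (b i) := by
    refine Cl.of_curv ⟨N0, h1, h2, fun i => ?_⟩
    obtain ⟨p, hp, e⟩ := Rg_ev (hb i) s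
    exact ⟨p, hp, e⟩
  set gs := (Polynomial.evalRingHom s).mapMatrix g with hgs
  have hd : gs.det = g.det.eval s := by
    rw [hgs, ← RingHom.map_det]
    rfl
  have hd0 : gs.det ≠ 0 := by rwa [hd]
  have e1 : (gs.det⁻¹ • adjugate gs) * gs = 1 := by
    rw [Matrix.smul_mul, Matrix.adjugate_mul, smul_smul, inv_mul_cancel₀ hd0, one_smul]
  have h3 := D8.cl_smul3 (Cl.conj _ _ e1 (mul_eq_one_comm.1 e1) hc) fun _ => gs.det
  have h4 : (fun i => gs.det • ((gs.det⁻¹ • adjugate gs) *
      (Polynomial.evalRingHom s).mapMatrix (b i) * gs)) =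
      fun i => (Polynomial.evalRingHom s).mapMatrix (Fa g (b i)) := by
    funext i
    rw [Matrix.smul_mul, Matrix.smul_mul, smul_smul, mul_inv_cancel₀ hd0, one_smul, Fa, map_mul,
      map_mul, RingHom.map_adjugate]
  rw [h4] at h3
  exact h3

/-! ### the Newton step -/

/-- the class of a polynomial modulo `X ^ (n + 1)` -/
noncomputable abbrev pr (k : Type*) [Field k] (n : ℕ) :
    Polynomial k →+* Polynomial k ⧸ Ideal.span {(Polynomial.X : Polynomial k) ^ (n + 1)} :=
  Ideal.Quotient.mk _

theorem pr_zero {n : ℕ} {f : Polynomial k} :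
    pr k n f = 0 ↔ (Polynomial.X : Polynomial k) ^ (n + 1) ∣ f := by
  rw [Ideal.Quotient.eq_zero_iff_mem, Ideal.mem_span_singleton]

theorem pr_eq {n : ℕ} {f f' : Polynomial k} :
    pr k n f = pr k n f' ↔ (Polynomial.X : Polynomial k) ^ (n + 1) ∣ f - f' := by
  rw [← sub_eq_zero, ← map_sub, pr_zero]

theorem pr_eps_sq {n : ℕ} (hn : 1 ≤ n) :
    pr k n (Polynomial.X ^ n) * pr k n (Polynomial.X ^ n) = 0 := by
  rw [← map_mul, pr_zero, ← pow_add]
  exact pow_dvd_pow _ (by omega)

theorem pr_eps_eval {n : ℕ} (f : Polynomial k) :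
    pr k n (Polynomial.X ^ n) * pr k n f =
      pr k n (Polynomial.X ^ n) * pr k n (Polynomial.C (f.eval 0)) := by
  rw [← map_mul, ← map_mul, pr_eq, ← mul_sub, pow_succ]
  refine mul_dvd_mul_left _ ?_
  rw [Polynomial.X_dvd_iff, Polynomial.coeff_sub, Polynomial.coeff_C_zero,
    Polynomial.coeff_zero_eq_eval_zero, sub_self]

theorem pr_of_dvd {n : ℕ} {f : Polynomial k} (h : (Polynomial.X : Polynomial k) ^ n ∣ f) :
    pr k n f = pr k n (Polynomial.X ^ n) * pr k n (Polynomial.C (f.coeff n)) := by
  obtain ⟨h, rfl⟩ := h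
  rw [map_mul, pr_eps_eval]
  congr 3
  have := Polynomial.coeff_X_pow_mul h n 0
  rw [zero_add] at this
  rw [this, Polynomial.coeff_zero_eq_eval_zero]

theorem pr_eps_C {n : ℕ} {u : k} (h : pr k n (Polynomial.X ^ n) * pr k n (Polynomial.C u) = 0) :
    u = 0 := by
  rw [← map_mul, pr_zero, pow_succ] at h
  have h1 := (mul_dvd_mul_iff_left (pow_ne_zero n Polynomial.X_ne_zero)).1 h
  rwa [Polynomial.X_dvd_iff, Polynomial.coeff_C_zero] at h1

theorem dvd_of_pr {n : ℕ} {f h : Polynomial k}
    (e : pr k n f = pr k n (Polynomial.X ^ n) * pr k n h) : (Polynomial.X : Polynomial k) ^ n ∣ f := by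
  rw [← map_mul, pr_eq] at e
  have h1 := dvd_add ((pow_dvd_pow (Polynomial.X : Polynomial k) (Nat.le_succ n)).trans e)
    (dvd_mul_right (Polynomial.X ^ n) h)
  rwa [sub_add_cancel] at h1

/-- approximate solutions -/
structure Apx (w : ι → ℕ) (N0 : Matrix ι ι k) (X : Fin 3 → Matrix ι ι k)
    (T : Fin 3 → Matrix ι ι (Polynomial k)) (m κ n : ℕ) (g : Matrix ι ι (Polynomial k))
    (b : Fin 3 → Matrix ι ι (Polynomial k)) : Prop where
  g0 : (Polynomial.evalRingHom 0).mapMatrix g = 1
  bR : ∀ i, b i ∈ Rg N0
  b0 : ∀ i, (Polynomial.evalRingHom 0).mapMatrix (b i) = X i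
  hi : ∀ i x y, w y + κ ≤ w x →
    (Polynomial.X : Polynomial k) ^ n ∣ Fa g (b i) x y - g.det * T i x y
  lo : ∀ i x y, w y < w x → w x < w y + κ →
    (Polynomial.X : Polynomial k) ^ (m * (w x - w y)) ∣ Fa g (b i) x y - g.det * T i x y

/-- assumptions on the target -/
structure Tgt (w : ι → ℕ) (X : Fin 3 → Matrix ι ι k) (T : Fin 3 → Matrix ι ι (Polynomial k))
    (m : ℕ) : Prop where
  t0 : ∀ i x y, w y < w x → (T i x y).eval 0 = X i x y
  low : ∀ i x y, w x ≤ w y → T i x y = 0
  dvd : ∀ i x y, w y < w x → (Polynomial.X : Polynomial k) ^ (m * (w x - w y - 1)) ∣ T i x y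
  comm : ∀ i j, T i * T j = T j * T i

variable {w : ι → ℕ} {N0 : Matrix ι ι k} {X : Fin 3 → Matrix ι ι k}
  {T : Fin 3 → Matrix ι ι (Polynomial k)} {m κ n : ℕ} {g : Matrix ι ι (Polynomial k)}
  {b : Fin 3 → Matrix ι ι (Polynomial k)}

theorem Fa_zero (g0 : (Polynomial.evalRingHom 0).mapMatrix g = 1) {b : Matrix ι ι (Polynomial k)}
    {X : Matrix ι ι k} (b0 : (Polynomial.evalRingHom 0).mapMatrix b = X) (x y : ι) :
    (Fa g b x y).eval 0 = X x y := by
  have h1 : (Polynomial.evalRingHom 0).mapMatrix (Fa g b) = X := by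
    rw [Fa, map_mul, map_mul, RingHom.map_adjugate, g0, b0, Matrix.adjugate_one, Matrix.one_mul,
      Matrix.mul_one]
  rw [← h1]
  rfl

/-- the coefficient of the error -/
noncomputable def er (w : ι → ℕ) (T : Fin 3 → Matrix ι ι (Polynomial k)) (κ n : ℕ)
    (g : Matrix ι ι (Polynomial k)) (b : Fin 3 → Matrix ι ι (Polynomial k)) (i : Fin 3) :
    Matrix ι ι k :=
  Matrix.of fun x y => if w y + κ ≤ w x then (Fa g (b i) x y - g.det * T i x y).coeff n else 0

theorem er_term (hm : 1 ≤ m) (hκ : 1 ≤ κ) (hn : 1 ≤ n) (hκn : κ = 1 ∨ n + 1 ≤ m * κ)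
    (hT : Tgt w X T m)
    (HT : ∀ i x y, w y + κ + 1 ≤ w x → (Polynomial.X : Polynomial k) ^ (n + 1) ∣ T i x y)
    (h : Apx w N0 X T m κ n g b) (i j : Fin 3) (x y z : ι) (hxz : w z + κ + 1 ≤ w x) :
    pr k n (Fa g (b i) x y) * pr k n (Fa g (b j) y z) =
      pr k n g.det * pr k n g.det * (pr k n (T i x y) * pr k n (T j y z)) +
      pr k n (Polynomial.X ^ n) * (pr k n (Polynomial.C (er w T κ n g b i x y)) *
        pr k n (Polynomial.C (X j y z)) + pr k n (Polynomial.C (X i x y)) *
        pr k n (Polynomial.C (er w T κ n g b j y z))) := by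
  set ε := pr k n (Polynomial.X ^ n) with hε
  have hε2 : ε * ε = 0 := pr_eps_sq hn
  -- entries of high degree
  have hhi : ∀ i x y, w y + κ ≤ w x → pr k n (Fa g (b i) x y) =
      pr k n g.det * pr k n (T i x y) + ε * pr k n (Polynomial.C (er w T κ n g b i x y)) := by
    intro i x y hxy
    have h1 := pr_of_dvd (h.hi i x y hxy)
    rw [map_sub, map_mul] at h1
    rw [er, Matrix.of_apply, if_pos hxy, ← h1]
    ring
  have her : ∀ i x y, w x < w y + κ → er w T κ n g b i x y = 0 := by
    intro i x y hxy
    rw [er, Matrix.of_apply, if_neg (by omega)]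
  have hA0 : ∀ i x y, ε * pr k n (Fa g (b i) x y) = ε * pr k n (Polynomial.C (X i x y)) := by
    intro i x y
    rw [hε, pr_eps_eval, Fa_zero h.g0 (h.b0 i)]
  have hT0 : ∀ i x y, w y < w x → ε * pr k n (T i x y) = ε * pr k n (Polynomial.C (X i x y)) := by
    intro i x y hxy
    rw [hε, pr_eps_eval, hT.t0 i x y hxy]
  have hdet : ε * pr k n g.det = ε := by
    rw [hε, pr_eps_eval]
    have : g.det.eval 0 = 1 := by
      have h1 : Polynomial.evalRingHom 0 g.det = 1 := by
        rw [RingHom.map_det, h.g0, Matrix.det_one]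
      exact h1
    rw [this, map_one, map_one, mul_one]
  by_cases c1 : w z + κ ≤ w y
  · -- second factor of high degree
    rw [hhi j y z c1]
    have e1 : pr k n (Fa g (b i) x y) * pr k n (T j y z) =
        pr k n g.det * (pr k n (T i x y) * pr k n (T j y z)) +
        ε * (pr k n (Polynomial.C (er w T κ n g b i x y)) * pr k n (Polynomial.C (X j y z))) := by
      by_cases c2 : w y + κ ≤ w x
      · rw [hhi i x y c2]
        have := hT0 j y z (by omega)
        linear_combination pr k n (Polynomial.C (er w T κ n g b i x y)) * this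
      · rw [her i x y (by omega), map_zero, map_zero, zero_mul, mul_zero, add_zero]
        by_cases c3 : w y < w x
        · have h1 : (Polynomial.X : Polynomial k) ^ (n + 1) ∣
              (Fa g (b i) x y - g.det * T i x y) * T j y z := by
            refine dvd_trans (pow_dvd_pow _ ?_) (b := (Polynomial.X : Polynomial k) ^
              (m * (w x - w y) + m * (w y - w z - 1))) ?_
            · have h2 : n + 1 ≤ m * κ := by
                rcases hκn with h2 | h2
                · omega
                · exact h2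
              rw [← Nat.mul_add]
              exact h2.trans (Nat.mul_le_mul_left m (by omega))
            · rw [pow_add]
              exact mul_dvd_mul (h.lo i x y c3 (by omega)) (hT.dvd j y z (by omega))
          have h3 := pr_zero.2 h1
          rw [map_mul, map_sub, map_mul] at h3
          linear_combination h3
        · have h1 := pr_zero.2 (HT j y z (by omega))
          rw [h1]
          ring
    have e2 := hA0 i x y
    linear_combination pr k n g.det * e1 + pr k n (Polynomial.C (er w T κ n g b j y z)) * e2 +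
      pr k n (Polynomial.C (er w T κ n g b i x y)) * pr k n (Polynomial.C (X j y z)) * hdet
  · rw [her j y z (by omega), map_zero, map_zero, mul_zero, add_zero]
    by_cases c2 : w z < w y
    · -- second factor of middle degree
      have hκ2 : n + 1 ≤ m * κ := by
        rcases hκn with h2 | h2
        · omega
        · exact h2
      have hlo := h.lo j y z c2 (by omega)
      have hTd : pr k n (T i x y) * pr k n (Fa g (b j) y z - g.det * T j y z) = 0 := by
        rw [← map_mul, pr_zero]
        refine dvd_trans (pow_dvd_pow _ ?_) (b := (Polynomial.X : Polynomial k) ^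
          (m * (w x - w y - 1) + m * (w y - w z))) ?_
        · rw [← Nat.mul_add]
          exact hκ2.trans (Nat.mul_le_mul_left m (by omega))
        · rw [pow_add]
          exact mul_dvd_mul (hT.dvd i x y (by omega)) hlo
      by_cases c3 : w y + κ ≤ w x
      · have hεd : ε * pr k n (Fa g (b j) y z - g.det * T j y z) = 0 := by
          rw [hε, ← map_mul, pr_zero, pow_succ]
          refine mul_dvd_mul_left _ (dvd_trans ?_ hlo)
          conv_lhs => rw [← pow_one (Polynomial.X : Polynomial k)]
          refine pow_dvd_pow _ ?_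
          exact Nat.mul_pos (by omega) (by omega)
        have hT1 := hT0 j y z c2
        rw [hhi i x y c3]
        rw [map_sub, map_mul] at hTd hεd
        linear_combination pr k n g.det * hTd +
          pr k n (Polynomial.C (er w T κ n g b i x y)) * hεd +
          pr k n (Polynomial.C (er w T κ n g b i x y)) * pr k n (T j y z) * hdet +
          pr k n (Polynomial.C (er w T κ n g b i x y)) * hT1
      · rw [her i x y (by omega), map_zero, map_zero, zero_mul, mul_zero, add_zero]
        have hlo' := h.lo i x y (by omega) (by omega)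
        have hdT : pr k n (Fa g (b i) x y - g.det * T i x y) * pr k n (T j y z) = 0 := by
          rw [← map_mul, pr_zero]
          refine dvd_trans (pow_dvd_pow _ ?_) (b := (Polynomial.X : Polynomial k) ^
            (m * (w x - w y) + m * (w y - w z - 1))) ?_
          · rw [← Nat.mul_add]
            exact hκ2.trans (Nat.mul_le_mul_left m (by omega))
          · rw [pow_add]
            exact mul_dvd_mul hlo' (hT.dvd j y z (by omega))
        have hdd : pr k n (Fa g (b i) x y - g.det * T i x y) *
            pr k n (Fa g (b j) y z - g.det * T j y z) = 0 := by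
          rw [← map_mul, pr_zero]
          refine dvd_trans (pow_dvd_pow _ ?_) (b := (Polynomial.X : Polynomial k) ^
            (m * (w x - w y) + m * (w y - w z))) ?_
          · rw [← Nat.mul_add]
            exact hκ2.trans (Nat.mul_le_mul_left m (by omega))
          · rw [pow_add]
            exact mul_dvd_mul hlo' hlo
        rw [map_sub, map_mul, map_sub, map_mul] at hdd
        rw [map_sub, map_mul] at hTd hdT
        linear_combination hdd + pr k n g.det * hdT + pr k n g.det * hTd
    · -- second factor of nonpositive degree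
      have h1 := pr_zero.2 (HT i x y (by omega))
      rw [hT.low j y z (by omega), hhi i x y (by omega), h1, map_zero]
      have := hA0 j y z
      linear_combination pr k n (Polynomial.C (er w T κ n g b i x y)) * this

/-- the error satisfies the linearised equations -/
theorem er_comm (hm : 1 ≤ m) (hκ : 1 ≤ κ) (hn : 1 ≤ n) (hκn : κ = 1 ∨ n + 1 ≤ m * κ)
    (hT : Tgt w X T m)
    (HT : ∀ i x y, w y + κ + 1 ≤ w x → (Polynomial.X : Polynomial k) ^ (n + 1) ∣ T i x y)
    (h : Apx w N0 X T m κ n g b) (i j : Fin 3) (x z : ι) (hxz : w z + κ + 1 ≤ w x) :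
    (X i * er w T κ n g b j + er w T κ n g b i * X j - X j * er w T κ n g b i -
      er w T κ n g b j * X i) x z = 0 := by
  set E := er w T κ n g b with hE
  have key : ∀ i j, pr k n ((Fa g (b i) * Fa g (b j)) x z) =
      pr k n g.det * pr k n g.det * pr k n ((T i * T j) x z) +
      pr k n (Polynomial.X ^ n) * pr k n (Polynomial.C ((E i * X j + X i * E j) x z)) := by
    intro i j
    rw [Matrix.mul_apply, Matrix.mul_apply, Matrix.add_apply, Matrix.mul_apply, Matrix.mul_apply,
      map_sum, map_sum, map_add, map_add, map_sum, map_sum, map_sum, map_sum, ← Finset.sum_add_distrib,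
      Finset.mul_sum, Finset.mul_sum, ← Finset.sum_add_distrib]
    refine Finset.sum_congr rfl fun y _ => ?_
    rw [map_mul, er_term hm hκ hn hκn hT HT h i j x y z hxz]
    simp only [map_mul, hE]
  have h1 := key i j
  have h2 := key j i
  rw [Fa_comm (h.bR i) (h.bR j), h2, hT.comm i j] at h1
  have h3 : pr k n (Polynomial.X ^ n) * pr k n (Polynomial.C
      ((X i * E j + E i * X j - X j * E i - E j * X i) x z)) = 0 := by
    have e1 : (X i * E j + E i * X j - X j * E i - E j * X i) x z =
        (E i * X j + X i * E j) x z - (E j * X i + X j * E i) x z := by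
      simp only [Matrix.add_apply, Matrix.sub_apply]
      ring
    rw [e1, map_sub, map_sub]
    linear_combination -h1
  exact pr_eps_C h3

/-- the Newton step -/
theorem step (hm : 1 ≤ m) (hκ : 1 ≤ κ) (hn : 1 ≤ n) (hκn : κ = 1 ∨ n + 1 ≤ m * κ)
    (hκm : m * (κ - 1) ≤ n) (hT : Tgt w X T m) (cert : Cert w N0 X κ)
    (HT : ∀ i x y, w y + κ + 1 ≤ w x → (Polynomial.X : Polynomial k) ^ (n + 1) ∣ T i x y)
    (h : Apx w N0 X T m κ n g b) : ∃ g' b', Apx w N0 X T m κ (n + 1) g' b' := by
  obtain ⟨N, a, ha, hNa⟩ := cert (er w T κ n g b) (by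
    intro i x y hxy
    rw [er, Matrix.of_apply, if_neg (by omega)]) (er_comm hm hκ hn hκn hT HT h)
  set C' : Matrix ι ι k → Matrix ι ι (Polynomial k) := fun M => M.map Polynomial.C with hC'
  set g' := g * (1 + (Polynomial.X : Polynomial k) ^ n • C' (-N)) with hg'
  set b' : Fin 3 → Matrix ι ι (Polynomial k) := fun i =>
    b i + (Polynomial.X : Polynomial k) ^ n • C' (-(a i)) with hb'
  have hXn : ((Polynomial.X : Polynomial k) ^ n).eval 0 = 0 := by
    rw [Polynomial.eval_pow, Polynomial.eval_X, zero_pow (by omega)]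
  have hev : ∀ M : Matrix ι ι (Polynomial k), (Polynomial.evalRingHom 0).mapMatrix
      ((Polynomial.X : Polynomial k) ^ n • M) = 0 := by
    intro M
    ext x y
    simp only [RingHom.mapMatrix_apply, Matrix.map_apply, Matrix.smul_apply, smul_eq_mul,
      Polynomial.coe_evalRingHom, Polynomial.eval_mul, hXn, zero_mul, Matrix.zero_apply]
  have g0' : (Polynomial.evalRingHom 0).mapMatrix g' = 1 := by
    rw [hg', map_mul, map_add, hev, h.g0, map_one, add_zero, Matrix.one_mul]
  have b0' : ∀ i, (Polynomial.evalRingHom 0).mapMatrix (b' i) = X i := by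
    intro i
    rw [hb']
    dsimp only
    rw [map_add, hev, h.b0, add_zero]
  have bR' : ∀ i, b' i ∈ Rg N0 := by
    intro i
    refine Submodule.add_mem _ (h.bR i) (Submodule.smul_mem _ _ (Rg_map ?_))
    obtain ⟨p, hp, e⟩ := ha i
    exact ⟨-p, by simp [hp], by rw [e, map_neg]⟩
  -- classes modulo `X ^ (n + 1)`
  set π := pr k n with hπ
  set ε := π (Polynomial.X ^ n) with hε
  have hε2 : ε * ε = 0 := pr_eps_sq hn
  have hmapC : ∀ (M : Matrix ι ι k) x y, π.mapMatrix (C' M) x y = π (Polynomial.C (M x y)) := by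
    intro M x y
    rfl
  have hsm : ∀ M : Matrix ι ι (Polynomial k), π.mapMatrix
      ((Polynomial.X : Polynomial k) ^ n • M) = ε • π.mapMatrix M := by
    intro M
    ext x y
    simp only [RingHom.mapMatrix_apply, Matrix.map_apply, Matrix.smul_apply, smul_eq_mul, map_mul,
      hε]
  have hev1 : ∀ (M : Matrix ι ι (Polynomial k)) (M0 : Matrix ι ι k),
      (Polynomial.evalRingHom 0).mapMatrix M = M0 →
      ε • π.mapMatrix M = ε • π.mapMatrix (C' M0) := by
    intro M M0 hM
    ext x y
    rw [Matrix.smul_apply, Matrix.smul_apply, smul_eq_mul, smul_eq_mul, hmapC,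
      RingHom.mapMatrix_apply, Matrix.map_apply, hε, hπ, pr_eps_eval, ← hM]
    rfl
  have hone : π.mapMatrix (C' 1) = 1 := by
    have : C' 1 = 1 := by
      ext x y
      simp [hC', Matrix.one_apply, Matrix.map_apply]
    rw [this, map_one]
  have hdet : ε * π g.det = ε := by
    rw [hε, hπ, pr_eps_eval]
    have : g.det.eval 0 = 1 := by
      have h1 : Polynomial.evalRingHom 0 g.det = 1 := by
        rw [RingHom.map_det, h.g0, Matrix.det_one]
      exact h1
    rw [this, map_one, map_one, mul_one]
  have htr : (π.mapMatrix (C' (-N))).trace = π (Polynomial.C ((-N).trace)) := by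
    rw [Matrix.trace, Matrix.trace, map_sum, map_sum]
    rfl
  have hd' : π g'.det = π g.det + ε * π (Polynomial.C ((-N).trace)) := by
    rw [hg', Matrix.det_mul, map_mul, RingHom.map_det π (1 + _), map_add, map_one, hsm,
      det_eps ε hε2, htr]
    linear_combination π (Polynomial.C ((-N).trace)) * hdet
  have hF : ∀ i, π.mapMatrix (Fa g' (b' i)) = π.mapMatrix (Fa g (b i)) +
      ε • π.mapMatrix (C' ((-N).trace • X i + X i * (-N) - (-N) * X i + -(a i))) := by
    intro i
    have e1 : Fa g' (b' i) = adjugate (1 + (Polynomial.X : Polynomial k) ^ n • C' (-N)) *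
        adjugate g * (b i + (Polynomial.X : Polynomial k) ^ n • C' (-(a i))) *
        (g * (1 + (Polynomial.X : Polynomial k) ^ n • C' (-N))) := by
      rw [Fa, hg', Matrix.adjugate_mul_distrib, hb']
    rw [e1, map_mul, map_mul, map_mul, map_mul, RingHom.map_adjugate, map_add, map_add, map_one,
      hsm, hsm, step_eps ε hε2 (X0 := π.mapMatrix (C' (X i)))]
    · rw [Fa, map_mul, map_mul]
      congr 2
      rw [htr]
      ext x y
      simp only [Matrix.add_apply, Matrix.sub_apply, Matrix.smul_apply, smul_eq_mul,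
        Matrix.mul_apply, hmapC, map_add, map_sub, map_sum, map_mul]
    · rw [hev1 g 1 h.g0, hone]
    · have h2 : (Polynomial.evalRingHom 0).mapMatrix (adjugate g) = 1 := by
        rw [RingHom.map_adjugate, h.g0, Matrix.adjugate_one]
      rw [hev1 _ 1 h2, hone]
    · exact hev1 _ _ (h.b0 i)
  have hF' : ∀ i x y, π (Fa g' (b' i) x y) = π (Fa g (b i) x y) + ε * π (Polynomial.C
      ((-N).trace * X i x y - (X i * N - N * X i + a i) x y)) := by
    intro i x y
    have h1 := congrFun (congrFun (hF i) x) y
    rw [Matrix.add_apply, Matrix.smul_apply, smul_eq_mul, hmapC] at h1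
    rw [show π (Fa g' (b' i) x y) = (π.mapMatrix (Fa g' (b' i))) x y from rfl, h1]
    congr 4
    simp only [Matrix.add_apply, Matrix.sub_apply, Matrix.smul_apply, smul_eq_mul, Matrix.mul_neg,
      Matrix.neg_mul, Matrix.neg_apply]
    ring
  have hchg : ∀ i x y, ∃ u : Polynomial k, π ((Fa g' (b' i) x y - g'.det * T i x y) -
      (Fa g (b i) x y - g.det * T i x y)) = ε * π u := by
    intro i x y
    refine ⟨Polynomial.C ((-N).trace * X i x y - (X i * N - N * X i + a i) x y) -
      Polynomial.C ((-N).trace) * T i x y, ?_⟩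
    have e1 : ∀ f f' : Polynomial k, π (f - f') = π f - π f' := fun f f' => map_sub π f f'
    have e2 : ∀ f f' : Polynomial k, π (f * f') = π f * π f' := fun f f' => map_mul π f f'
    rw [e1, e1, e1, e1, e2, e2, e2, hF', hd']
    ring
  refine ⟨g', b', g0', bR', b0', ?_, ?_⟩
  · intro i x y hxy
    rw [← pr_zero, map_sub, map_mul]
    rw [← hπ, hF', hd']
    have h1 := pr_of_dvd (h.hi i x y hxy)
    rw [map_sub, map_mul, ← hπ] at h1
    have h2 : (Fa g (b i) x y - g.det * T i x y).coeff n = er w T κ n g b i x y := by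
      rw [er, Matrix.of_apply, if_pos hxy]
    rw [h2] at h1
    have h3 : ε * π (T i x y) = ε * π (Polynomial.C (X i x y)) := by
      rw [hε, hπ, pr_eps_eval, hT.t0 i x y (by omega)]
    rw [hNa i x y hxy, map_sub, map_sub, map_mul, map_mul]
    linear_combination h1 - π (Polynomial.C ((-N).trace)) * h3
  · intro i x y h1 h2
    obtain ⟨u, hu⟩ := hchg i x y
    have h3 := dvd_of_pr hu
    have h4 : m * (w x - w y) ≤ n :=
      (Nat.mul_le_mul_left m (by omega)).trans hκm
    have h5 := dvd_add ((pow_dvd_pow (Polynomial.X : Polynomial k) h4).trans h3) (h.lo i x y h1 h2)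
    rwa [sub_add_cancel] at h5

/-! ### assembly -/

theorem apx_start (hX : ∀ i, ∃ p : Polynomial k, p.coeff 0 = 0 ∧ X i = Polynomial.aeval N0 p)
    (hT : Tgt w X T m) :
    Apx w N0 X T m 1 1 1 (fun i => (X i).map (Polynomial.C : k → Polynomial k)) := by
  have b0 : ∀ i, (Polynomial.evalRingHom 0).mapMatrix
      ((X i).map (Polynomial.C : k → Polynomial k)) = X i := by
    intro i
    ext x y
    simp
  refine ⟨map_one _, fun i => Rg_map (hX i), b0, ?_, ?_⟩
  · intro i x y hxy
    rw [pow_one, Polynomial.X_dvd_iff, Polynomial.coeff_zero_eq_eval_zero, Polynomial.eval_sub,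
      Fa_zero (map_one _) (b0 i), Matrix.det_one, one_mul, hT.t0 i x y (by omega), sub_self]
  · intro i x y h1 h2
    omega

/-- from approximate solutions to a polynomial family of limits of curvilinear triples -/
theorem final [Infinite k] (h1 : N0 ^ Fintype.card ι = 0) (h2 : N0 ^ (Fintype.card ι - 1) ≠ 0)
    (hm : 1 ≤ m) (c : Fin 3 → ι → ι → Polynomial k) (hc : ∀ i x y, w x ≤ w y → c i x y = 0)
    (hcT : ∀ i x y, w y < w x → T i x y = Polynomial.X ^ (m * (w x - w y - 1)) * c i x y)
    (g0 : (Polynomial.evalRingHom 0).mapMatrix g = 1) (bR : ∀ i, b i ∈ Rg N0)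
    (hap : ∀ i x y, w y < w x →
      (Polynomial.X : Polynomial k) ^ (m * (w x - w y)) ∣ Fa g (b i) x y - g.det * T i x y) :
    ∃ E : Fin 3 → ι → ι → Polynomial k,
      {s : k | Cl (fun i => Matrix.of fun x y => (E i x y).eval s)}.Infinite ∧
      ∀ i x y, (Polynomial.X : Polynomial k) ^ m ∣ E i x y - c i x y := by
  classical
  have hδ : g.det.eval 0 = 1 := by
    have h3 : Polynomial.evalRingHom 0 g.det = 1 := by
      rw [RingHom.map_det, g0, Matrix.det_one]
    exact h3
  -- inverse of the determinant
  obtain ⟨η, hη⟩ : ∃ η : Polynomial k, (Polynomial.X : Polynomial k) ^ m ∣ η * g.det - 1 := by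
    refine ⟨∑ i ∈ Finset.range m, (1 - g.det) ^ i, ?_⟩
    have h3 := geom_sum_mul (1 - g.det) m
    have h4 : (∑ i ∈ Finset.range m, (1 - g.det) ^ i) * g.det - 1 = -(1 - g.det) ^ m := by
      linear_combination -h3
    rw [h4, dvd_neg]
    refine pow_dvd_pow_of_dvd ?_ m
    rw [Polynomial.X_dvd_iff, Polynomial.coeff_zero_eq_eval_zero, Polynomial.eval_sub, hδ]
    simp
  have hu : ∀ i x y, ∃ u : Polynomial k, w y < w x → Fa g (b i) x y =
      Polynomial.X ^ (m * (w x - w y - 1)) * (g.det * c i x y + Polynomial.X ^ m * u) := by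
    intro i x y
    by_cases h : w y < w x
    · obtain ⟨u, hu⟩ := hap i x y h
      refine ⟨u, fun _ => ?_⟩
      rw [hcT i x y h] at hu
      have e1 : m * (w x - w y) = m * (w x - w y - 1) + m := by
        rw [← Nat.mul_succ]
        congr 1
        omega
      rw [e1, pow_add] at hu
      linear_combination hu
    · exact ⟨0, fun h' => absurd h' h⟩
  choose u hu using hu
  set E : Fin 3 → ι → ι → Polynomial k := fun i x y =>
    if w y < w x then η * (g.det * c i x y + Polynomial.X ^ m * u i x y)
    else η * Fa g (b i) x y * Polynomial.X ^ (m * (1 + w y - w x)) with hE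
  refine ⟨E, ?_, ?_⟩
  · -- values
    have hd0 : g.det ≠ 0 := by
      intro h
      rw [h, Polynomial.eval_zero] at hδ
      exact zero_ne_one hδ
    have hfin : {s : k | s = 0 ∨ g.det.eval s = 0}.Finite := by
      have : {s : k | s = 0 ∨ g.det.eval s = 0} ⊆ {0} ∪ {s : k | g.det.IsRoot s} := by
        rintro s (h | h)
        · exact Or.inl h
        · exact Or.inr h
      exact ((Set.finite_singleton _).union (Polynomial.finite_setOfPred_isRoot hd0)).subset this
    refine hfin.infinite_compl.mono fun s hs => ?_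
    have hs' : ¬ (s = 0 ∨ g.det.eval s = 0) := hs
    obtain ⟨hs0, hs1⟩ := not_or.1 hs'
    have h3 := Fa_cl h1 h2 bR hs1
    have h4 : Cl fun i => (Matrix.diagonal fun a => (s ^ (m * w a))⁻¹) *
        ((η.eval s * s ^ m) • (Polynomial.evalRingHom s).mapMatrix (Fa g (b i))) *
        (Matrix.diagonal fun a => s ^ (m * w a)) := by
      refine Cl.conj _ _ ?_ ?_ (D8.cl_smul3 h3 fun _ => η.eval s * s ^ m)
      · rw [Matrix.diagonal_mul_diagonal, ← Matrix.diagonal_one]
        congr 1
        funext a
        exact inv_mul_cancel₀ (pow_ne_zero _ hs0)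
      · rw [Matrix.diagonal_mul_diagonal, ← Matrix.diagonal_one]
        congr 1
        funext a
        exact mul_inv_cancel₀ (pow_ne_zero _ hs0)
    have h5 : (fun i => (Matrix.diagonal fun a => (s ^ (m * w a))⁻¹) *
        ((η.eval s * s ^ m) • (Polynomial.evalRingHom s).mapMatrix (Fa g (b i))) *
        (Matrix.diagonal fun a => s ^ (m * w a))) =
        fun i => Matrix.of fun x y => (E i x y).eval s := by
      funext i
      ext x y
      rw [Matrix.mul_diagonal, Matrix.diagonal_mul, Matrix.smul_apply, smul_eq_mul,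
        RingHom.mapMatrix_apply, Matrix.map_apply, Polynomial.coe_evalRingHom, Matrix.of_apply, hE]
      dsimp only
      have hsx : s ^ (m * w x) ≠ 0 := pow_ne_zero _ hs0
      by_cases h : w y < w x
      · rw [if_pos h, hu i x y h]
        simp only [Polynomial.eval_mul, Polynomial.eval_pow, Polynomial.eval_X, Polynomial.eval_add]
        have e1 : s ^ (m * w x) = s ^ m * s ^ (m * (w x - w y - 1)) * s ^ (m * w y) := by
          rw [← pow_add, ← pow_add]
          congr 1
          have e2 : w x = 1 + (w x - w y - 1) + w y := by omega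
          calc m * w x = m * (1 + (w x - w y - 1) + w y) := by rw [← e2]
            _ = m + m * (w x - w y - 1) + m * w y := by ring
        rw [inv_mul_eq_div, div_mul_eq_mul_div, div_eq_iff hsx, e1]
        ring
      · rw [if_neg h]
        simp only [Polynomial.eval_mul, Polynomial.eval_pow, Polynomial.eval_X]
        have e1 : s ^ m * s ^ (m * w y) = s ^ (m * (1 + w y - w x)) * s ^ (m * w x) := by
          rw [← pow_add, ← pow_add]
          congr 1
          rw [← Nat.mul_add]
          have : m + m * w y = m * (1 + w y) := by ring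
          rw [this]
          congr 1
          omega
        rw [inv_mul_eq_div, div_mul_eq_mul_div, div_eq_iff hsx]
        linear_combination η.eval s * (Fa g (b i) x y).eval s * e1
    rw [h5] at h4
    exact h4
  · intro i x y
    rw [hE]
    dsimp only
    by_cases h : w y < w x
    · rw [if_pos h]
      have e1 : η * (g.det * c i x y + Polynomial.X ^ m * u i x y) - c i x y =
          (η * g.det - 1) * c i x y + Polynomial.X ^ m * (η * u i x y) := by ring
      rw [e1]
      exact dvd_add (hη.mul_right _) (dvd_mul_right _ _)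
    · rw [if_neg h, hc i x y (by omega), sub_zero]
      refine dvd_mul_of_dvd_right (pow_dvd_pow _ ?_) _
      exact Nat.le_mul_of_pos_right m (by omega)

end Fdc

open Fdc in
/-- the density criterion: graded families -/
theorem fdc_graded [Infinite k] {w : ι → ℕ} {N0 : Matrix ι ι k}
    (h1 : N0 ^ Fintype.card ι = 0) (h2 : N0 ^ (Fintype.card ι - 1) ≠ 0)
    {X : Fin 3 → Matrix ι ι k}
    (hX : ∀ i, ∃ p : Polynomial k, p.coeff 0 = 0 ∧ X i = Polynomial.aeval N0 p)
    (hdeg : ∀ i x y, w y + 2 ≤ w x → X i x y = 0) (cert : Cert w N0 X 1)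
    (c : k → Fin 3 → Matrix ι ι k) (hc : PolyFam c)
    (hcomm : ∀ s i j, c s i * c s j = c s j * c s i)
    (hgr : ∀ s i x y, w x ≠ w y + 1 → c s i x y = 0)
    (h0 : ∀ i x y, w x = w y + 1 → c 0 i x y = X i x y) (s : k) : Cl (c s) := by
  choose P hP0 using hc
  have hP : ∀ i x y s, c s i x y = (P i x y).eval s := hP0
  have hPz : ∀ i x y, w x ≠ w y + 1 → P i x y = 0 := by
    intro i x y h
    refine Polynomial.funext fun s => ?_
    rw [← hP, hgr s i x y h, Polynomial.eval_zero]
  set T : Fin 3 → Matrix ι ι (Polynomial k) := fun i => Matrix.of fun x y => P i x y with hTdef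
  have hTgt : ∀ m, Tgt w X T m := by
    intro m
    refine ⟨?_, ?_, ?_, ?_⟩
    · intro i x y h
      rw [hTdef]
      dsimp only [Matrix.of_apply]
      rw [← hP]
      by_cases h3 : w x = w y + 1
      · exact h0 i x y h3
      · rw [hgr 0 i x y h3, hdeg i x y (by omega)]
    · intro i x y h
      exact hPz i x y (by omega)
    · intro i x y h
      by_cases h3 : w x = w y + 1
      · have e1 : m * (w x - w y - 1) = 0 := by
          rw [h3]
          simp
        rw [e1, pow_zero]
        exact one_dvd _
      · have : T i x y = 0 := hPz i x y h3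
        rw [this]
        exact dvd_zero _
    · intro i j
      ext1 x z
      refine Polynomial.funext fun s => ?_
      have h3 := congrFun (congrFun (hcomm s i j) x) z
      rw [Matrix.mul_apply, Matrix.mul_apply] at h3 ⊢
      rw [Polynomial.eval_finsetSum, Polynomial.eval_finsetSum]
      simp only [Polynomial.eval_mul, hTdef, Matrix.of_apply, ← hP]
      exact h3
  have HT : ∀ n i x y, w y + 1 + 1 ≤ w x → (Polynomial.X : Polynomial k) ^ (n + 1) ∣ T i x y := by
    intro n i x y h
    have : T i x y = 0 := hPz i x y (by omega)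
    rw [this]
    exact dvd_zero _
  have hall : ∀ n, 1 ≤ n → ∃ g b, Apx w N0 X T 1 1 n g b := by
    intro n hn
    induction n, hn using Nat.le_induction with
    | base => exact ⟨_, _, apx_start hX (hTgt 1)⟩
    | succ n hn ih =>
      obtain ⟨g, b, h⟩ := ih
      exact step le_rfl le_rfl hn (Or.inl rfl) (by omega) (hTgt 1) cert (HT n) h
  have h3 := cl_of_trunc P (fun r => ?_) s
  · have e1 : (fun i => Matrix.of fun x y => (P i x y).eval s) = c s := by
      funext i
      ext x y
      rw [Matrix.of_apply, hP]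
    rw [e1] at h3
    exact h3
  obtain ⟨g, b, h⟩ := hall ((r + 1) * (Finset.univ.sup w) + 1) (by omega)
  obtain ⟨E, hE1, hE2⟩ := final (w := w) (T := T) (m := r + 1) h1 h2 (by omega) P
    (fun i x y h => hPz i x y (by omega)) (by
      intro i x y hxy
      by_cases h3 : w x = w y + 1
      · have e1 : (r + 1) * (w x - w y - 1) = 0 := by
          rw [h3]
          simp
        rw [e1, pow_zero, one_mul]
        rfl
      · rw [hPz i x y h3, mul_zero]
        exact hPz i x y h3) h.g0 h.bR (by
      intro i x y hxy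
      refine (pow_dvd_pow _ ?_).trans (h.hi i x y (by omega))
      have h4 : w x ≤ Finset.univ.sup w := Finset.le_sup (Finset.mem_univ x)
      have h5 := Nat.mul_le_mul_left (r + 1) ((Nat.sub_le (w x) (w y)).trans h4)
      omega)
  exact ⟨E, hE1, fun i x y => (pow_dvd_pow _ (Nat.le_succ r)).trans (hE2 i x y)⟩

open Fdc in
/-- the density criterion: strictly triangular families -/
theorem fdc [Infinite k] {w : ι → ℕ} {N0 : Matrix ι ι k}
    (h1 : N0 ^ Fintype.card ι = 0) (h2 : N0 ^ (Fintype.card ι - 1) ≠ 0)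
    {X : Fin 3 → Matrix ι ι k}
    (hX : ∀ i, ∃ p : Polynomial k, p.coeff 0 = 0 ∧ X i = Polynomial.aeval N0 p)
    (hdeg : ∀ i x y, w y + 2 ≤ w x → X i x y = 0) (cert : ∀ κ, 1 ≤ κ → Cert w N0 X κ)
    (c : k → Fin 3 → Matrix ι ι k) (hc : PolyFam c)
    (hcomm : ∀ s i j, c s i * c s j = c s j * c s i)
    (hlow : ∀ s i x y, w x ≤ w y → c s i x y = 0)
    (h0 : ∀ i x y, w x = w y + 1 → c 0 i x y = X i x y) (s : k) : Cl (c s) := by
  choose P hP0 using hc
  have hP : ∀ i x y s, c s i x y = (P i x y).eval s := hP0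
  have hPz : ∀ i x y, w x ≤ w y → P i x y = 0 := by
    intro i x y h
    refine Polynomial.funext fun s => ?_
    rw [← hP, hlow s i x y h, Polynomial.eval_zero]
  have h3 := cl_of_trunc P (fun r => ?_) s
  · have e1 : (fun i => Matrix.of fun x y => (P i x y).eval s) = c s := by
      funext i
      ext x y
      rw [Matrix.of_apply, hP]
    rw [e1] at h3
    exact h3
  set m := r + 1 with hm
  set T : Fin 3 → Matrix ι ι (Polynomial k) := fun i => Matrix.of fun x y =>
    Polynomial.X ^ (m * (w x - w y - 1)) * P i x y with hTdef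
  have hTgt : Tgt w X T m := by
    refine ⟨?_, ?_, ?_, ?_⟩
    · intro i x y h
      rw [hTdef]
      dsimp only [Matrix.of_apply]
      rw [Polynomial.eval_mul, ← hP, Polynomial.eval_pow, Polynomial.eval_X]
      by_cases h3 : w x = w y + 1
      · have e1 : m * (w x - w y - 1) = 0 := by
          rw [h3]
          simp
        rw [e1, pow_zero, one_mul]
        exact h0 i x y h3
      · have e1 : 0 < m * (w x - w y - 1) := Nat.mul_pos (by omega) (by omega)
        rw [zero_pow (by omega), zero_mul, hdeg i x y (by omega)]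
    · intro i x y h
      rw [hTdef]
      dsimp only [Matrix.of_apply]
      rw [hPz i x y h, mul_zero]
    · intro i x y h
      exact dvd_mul_right _ _
    · intro i j
      have key : ∀ i j x z, (T i * T j) x z = Polynomial.X ^ (m * (w x - w z - 2)) *
          ∑ y, P i x y * P j y z := by
        intro i j x z
        rw [Matrix.mul_apply, Finset.mul_sum]
        refine Finset.sum_congr rfl fun y _ => ?_
        rw [hTdef]
        dsimp only [Matrix.of_apply]
        by_cases h4 : w y < w x ∧ w z < w y
        · have e1 : m * (w x - w z - 2) = m * (w x - w y - 1) + m * (w y - w z - 1) := by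
            rw [← Nat.mul_add]
            congr 1
            omega
          rw [e1, pow_add]
          ring
        · by_cases h5 : w y < w x
          · rw [hPz j y z (by omega)]
            ring
          · rw [hPz i x y (by omega)]
            ring
      ext1 x z
      rw [key, key]
      congr 1
      refine Polynomial.funext fun s => ?_
      have h3 := congrFun (congrFun (hcomm s i j) x) z
      rw [Matrix.mul_apply, Matrix.mul_apply] at h3
      rw [Polynomial.eval_finsetSum, Polynomial.eval_finsetSum]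
      simp only [Polynomial.eval_mul, ← hP]
      exact h3
  have hstage : ∀ κ, 1 ≤ κ → ∀ n, m * (κ - 1) ≤ n → 1 ≤ n → n ≤ m * κ →
      ∃ g b, Apx w N0 X T m κ n g b := by
    intro κ hκ
    induction κ, hκ using Nat.le_induction with
    | base =>
      intro n _ hn
      induction n, hn using Nat.le_induction with
      | base => exact fun _ => ⟨_, _, apx_start hX hTgt⟩
      | succ n hn ih =>
        intro hn'
        obtain ⟨g, b, h⟩ := ih (by omega) (by omega)
        refine step (by omega) le_rfl hn (Or.inl rfl) (by omega) hTgt (cert 1 le_rfl) ?_ h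
        intro i x y hxy
        refine (pow_dvd_pow _ ?_).trans (hTgt.dvd i x y (by omega))
        exact hn'.trans (Nat.mul_le_mul_left m (by omega))
    | succ κ hκ ih =>
      intro n hn1 hn2
      have hmκ : 1 ≤ m * κ := Nat.mul_pos (by omega) (by omega)
      have hn1' : m * κ ≤ n := by
        simpa using hn1
      induction n, hn1' using Nat.le_induction with
      | base =>
        intro _
        obtain ⟨g, b, h⟩ := ih (m * κ) (Nat.mul_le_mul_left m (by omega)) hmκ le_rfl
        refine ⟨g, b, h.g0, h.bR, h.b0, ?_, ?_⟩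
        · intro i x y hxy
          exact h.hi i x y (by omega)
        · intro i x y h4 h5
          by_cases h6 : w x < w y + κ
          · exact h.lo i x y h4 h6
          · have e1 : w x - w y = κ := by omega
            rw [e1]
            exact h.hi i x y (by omega)
      | succ n hn ih2 =>
        intro hn'
        obtain ⟨g, b, h⟩ := ih2 (by simpa using hn) (hmκ.trans hn) (by omega)
        refine step (by omega) (by omega) (hmκ.trans hn) (Or.inr hn') (by simpa using hn) hTgt
          (cert (κ + 1) (by omega)) ?_ h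
        intro i x y hxy
        refine (pow_dvd_pow _ ?_).trans (hTgt.dvd i x y (by omega))
        exact hn'.trans (Nat.mul_le_mul_left m (by omega))
  set L := Finset.univ.sup w + 1 with hL
  obtain ⟨g, b, h⟩ := hstage (L + 1) (by omega) (m * (L + 1))
    (Nat.mul_le_mul_left m (by omega)) (Nat.mul_pos (by omega) (by omega)) le_rfl
  obtain ⟨E, hE1, hE2⟩ := final (w := w) (T := T) (m := m) h1 h2 (by omega) P hPz
    (fun i x y _ => rfl) h.g0 h.bR (by
      intro i x y hxy
      have h4 : w x ≤ Finset.univ.sup w := Finset.le_sup (Finset.mem_univ x)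
      exact h.lo i x y hxy (by omega))
  exact ⟨E, hE1, fun i x y => (pow_dvd_pow _ (by omega)).trans (hE2 i x y)⟩

end Pool.Agent.Lib.D13
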