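import Pool.Agent.Lib.D13.FdcMono

/-!
# MP_5dcbc3_ag: the density criterion at monomial base points, other index types

As `fdc_mono` (`D13/FdcMono.lean`), for families on another index type and with the operators in
another order.
-/

namespace Pool.Agent.Lib.D13

open Matrix Pool.Agent.Lib.Q5dc Pool.Agent.Lib.D7 Pool.Agent.Lib.D9.DensX

variable {k : Type*} [Field k] {d : ℕ} {n : Type*} [Fintype n] [DecidableEq n]

/-- strictly triangular families through a monomial base point, on another index type -/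
theorem fdc_mono' [Infinite k] (e : n ≃ Fin (d + 1)) (σ : Fin 3 ≃ Fin 3) (w : Fin (d + 1) → ℕ)
    (av : Fin 3 → ℕ) (hav : ∀ i, av i ≠ 0)
    (hdeg : ∀ i (x y : Fin (d + 1)), w y + 2 ≤ w x → (x : ℕ) ≠ (y : ℕ) + av i)
    (cert : ∀ κ, 1 ≤ κ → Cert w (Sh k d) (fun i => Sh k d ^ av i) κ)
    (c : k → Fin 3 → Matrix n n k) (hc : PolyFam c)
    (hcomm : ∀ s i j, c s i * c s j = c s j * c s i)
    (hlow : ∀ s i x y, w (e x) ≤ w (e y) → c s i x y = 0)
    (h0 : ∀ i x y, w (e x) = w (e y) + 1 → c 0 i x y =
      if (e x : ℕ) = (e y : ℕ) + av (σ i) then 1 else 0)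
    (s : k) : Cl (c s) := by
  have key : Cl (fun i => (c s (σ.symm i)).submatrix e.symm e.symm) := by
    refine fdc_mono w av hav hdeg cert (fun s i => (c s (σ.symm i)).submatrix e.symm e.symm)
      ?_ ?_ ?_ ?_ s
    · intro i x y
      exact hc (σ.symm i) (e.symm x) (e.symm y)
    · intro s i j
      rw [Matrix.submatrix_mul_equiv, Matrix.submatrix_mul_equiv, hcomm]
    · intro s i x y hxy
      exact hlow s _ _ _ (by simpa using hxy)
    · intro i x y hxy
      have h1 := h0 (σ.symm i) (e.symm x) (e.symm y) (by simpa using hxy)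
      simpa using h1
  have h1 := Cl.mapEquiv (Matrix.reindexAlgEquiv k k e.symm) (Fintype.card_congr e.symm) key
  refine cl_of_adj (fun i => ?_) h1
  have h2 := mem_adj (fun i => (Matrix.reindexAlgEquiv k k e.symm)
    ((c s (σ.symm i)).submatrix e.symm e.symm)) (σ i)
  have h3 : (Matrix.reindexAlgEquiv k k e.symm) ((c s (σ.symm (σ i))).submatrix e.symm e.symm) =
      c s i := by
    rw [Equiv.symm_apply_apply]
    ext x y
    simp [Matrix.reindexAlgEquiv_apply, Matrix.reindex_apply]
  rwa [h3] at h2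

end Pool.Agent.Lib.D13
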