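import Pool.Agent.Lib.D13.Fdc
import Pool.Agent.Lib.D13.Lift
import Pool.Agent.Lib.Q5dc.Sum2

/-!
# MP_5dcbc3_ag: the density criterion for families on another index type

`P : n × ι`, `Q : ι × n` are inverse to each other and compatible with level functions `lev` on `n` and
`w` on `ι`. The family `c` lives on `n`, the base point `X` (polynomials in a regular nilpotent
matrix) on `ι`.
-/

namespace Pool.Agent.Lib.D13

open Matrix Pool.Agent.Lib.Q5dc Pool.Agent.Lib.D7

variable {k : Type*} [Field k] {ι n : Type*} [Fintype ι] [DecidableEq ι] [Fintype n] [DecidableEq n]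

/-- polynomial families and constant rectangular matrices -/
theorem PolyFam.rect {c : k → Fin 3 → Matrix n n k} (hc : PolyFam c) (Q : Matrix ι n k)
    (P : Matrix n ι k) : PolyFam fun s i => Q * c s i * P := by
  intro i x y
  have h : IsPoly fun s => ∑ b, (∑ a, Q x a * c s i a b) * P b y := by
    refine isPoly_sum _ fun b _ => ?_
    refine (isPoly_sum _ fun a _ => ?_).mul (D7.IsPoly.const _)
    exact (D7.IsPoly.const _).mul (hc i a b)
  obtain ⟨p, hp⟩ := h
  exact ⟨p, fun s => by
    rw [← hp s]
    show (Q * c s i * P) x y = _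
    rw [Matrix.mul_apply]
    refine Finset.sum_congr rfl fun b _ => ?_
    rw [Matrix.mul_apply]⟩

/-- the density criterion, family on another index type -/
theorem fdc_via [Infinite k] {w : ι → ℕ} {N0 : Matrix ι ι k}
    (h1 : N0 ^ Fintype.card ι = 0) (h2 : N0 ^ (Fintype.card ι - 1) ≠ 0)
    {X : Fin 3 → Matrix ι ι k}
    (hX : ∀ i, ∃ p : Polynomial k, p.coeff 0 = 0 ∧ X i = Polynomial.aeval N0 p)
    (hdeg : ∀ i x y, w y + 2 ≤ w x → X i x y = 0) (cert : ∀ κ, 1 ≤ κ → Cert w N0 X κ)
    (P : Matrix n ι k) (Q : Matrix ι n k) (hPQ : P * Q = 1) (hQP : Q * P = 1)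
    (hcard : Fintype.card ι = Fintype.card n) (lev : n → ℕ)
    (hP : ∀ a x, lev a ≠ w x → P a x = 0) (hQ : ∀ x a, lev a ≠ w x → Q x a = 0)
    (c : k → Fin 3 → Matrix n n k) (hc : PolyFam c)
    (hcomm : ∀ s i j, c s i * c s j = c s j * c s i)
    (hlow : ∀ s i a b, lev a ≤ lev b → c s i a b = 0)
    (Y : Fin 3 → Matrix ι ι k) (hY : ∀ i, c 0 i * P = P * Y i)
    (hYX : ∀ i x y, w x = w y + 1 → Y i x y = X i x y) (s : k) : Cl (c s) := by
  have key := fdc h1 h2 hX hdeg cert (fun s i => Q * c s i * P) (PolyFam.rect hc Q P) ?_ ?_ ?_ s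
  · have h := Cl.rect P Q hPQ hQP hcard key
    have e : (fun i => P * (Q * c s i * P) * Q) = c s := by
      funext i
      calc P * (Q * c s i * P) * Q = (P * Q) * c s i * (P * Q) := by
            simp only [Matrix.mul_assoc]
        _ = c s i := by rw [hPQ, Matrix.one_mul, Matrix.mul_one]
    rwa [e] at h
  · intro s i j
    have e : ∀ i j, Q * c s i * P * (Q * c s j * P) = Q * (c s i * c s j) * P := by
      intro i j
      calc Q * c s i * P * (Q * c s j * P) = Q * c s i * (P * Q) * c s j * P := by
            simp only [Matrix.mul_assoc]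
        _ = Q * (c s i * c s j) * P := by
            rw [hPQ, Matrix.mul_one]
            simp only [Matrix.mul_assoc]
    rw [e, e, hcomm]
  · intro s i x y hxy
    rw [Matrix.mul_apply]
    refine Finset.sum_eq_zero fun b _ => ?_
    by_cases hb : lev b = w y
    · have h : (Q * c s i) x b = 0 := by
        rw [Matrix.mul_apply]
        refine Finset.sum_eq_zero fun a _ => ?_
        by_cases ha : lev a = w x
        · rw [hlow s i a b (by omega), mul_zero]
        · rw [hQ x a ha, zero_mul]
      rw [h, zero_mul]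
    · rw [hP b y hb, mul_zero]
  · intro i x y hxy
    show (Q * c 0 i * P) x y = X i x y
    rw [Matrix.mul_assoc, hY i, ← Matrix.mul_assoc, hQP, Matrix.one_mul]
    exact hYX i x y hxy

end Pool.Agent.Lib.D13
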