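import Pool.Agent.Lib.D13.Frame

/-!
# MP_5dcbc3_ag: Jordan matrices on `Fin N`

The boxes of a list `l` are numbered block after block. A type `l` is transferred to the index type
`Fin N`: the Jordan matrix has a one at the places `(c + 1, c)` for which `c + 1` is not the first
number of a block.
-/

namespace Pool.Agent.Lib.D13

open Matrix Pool.Agent.Lib.Q5dc Pool.Agent.Lib.D7

variable {k : Type*} [Field k]

/-- the box with the number `r`: number of the block, position in this block -/
def boxOf : List ℕ → ℕ → ℕ × ℕ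
  | [], r => (0, r)
  | a :: l, r => if r < a then (0, r) else ((boxOf l (r - a)).1 + 1, (boxOf l (r - a)).2)

/-- `r` is the first number of a block which is not the first one (some blocks may be empty) -/
def isStart : List ℕ → ℕ → Bool
  | [], _ => false
  | [_], _ => false
  | a :: b :: l, r => decide (r = a) || (decide (a < r) && isStart (b :: l) (r - a))

theorem boxOf_lt : ∀ (l : List ℕ) (r : ℕ), r < l.sum → ∃ h : (boxOf l r).1 < l.length,
    (boxOf l r).2 < l.get ⟨(boxOf l r).1, h⟩ := by
  intro l
  induction l with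
  | nil => intro r hr; simp at hr
  | cons a l ih =>
    intro r hr
    rw [List.sum_cons] at hr
    by_cases h : r < a
    · have h1 : boxOf (a :: l) r = (0, r) := by rw [boxOf, if_pos h]
      rw [h1]
      exact ⟨by simp, h⟩
    · obtain ⟨h2, h3⟩ := ih (r - a) (by omega)
      have h1 : boxOf (a :: l) r = ((boxOf l (r - a)).1 + 1, (boxOf l (r - a)).2) := by
        rw [boxOf, if_neg h]
      rw [h1]
      exact ⟨by simpa using h2, h3⟩

theorem boxOf_inj : ∀ (l : List ℕ) (r s : ℕ), boxOf l r = boxOf l s → r = s := by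
  intro l
  induction l with
  | nil =>
    intro r s h
    simpa [boxOf] using h
  | cons a l ih =>
    intro r s h
    rw [boxOf, boxOf] at h
    by_cases h1 : r < a <;> by_cases h2 : s < a
    · rw [if_pos h1, if_pos h2] at h
      exact (Prod.ext_iff.1 h).2
    · rw [if_pos h1, if_neg h2] at h
      exact absurd (Prod.ext_iff.1 h).1 (Nat.succ_ne_zero _).symm
    · rw [if_neg h1, if_pos h2] at h
      exact absurd (Prod.ext_iff.1 h).1 (Nat.succ_ne_zero _)
    · rw [if_neg h1, if_neg h2] at h
      have h3 := ih (r - a) (s - a) (Prod.ext (Nat.succ_injective (Prod.ext_iff.1 h).1)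
        (Prod.ext_iff.1 h).2)
      omega

theorem boxOf_zero : ∀ (l : List ℕ), (∀ a ∈ l, 0 < a) → boxOf l 0 = (0, 0) := by
  intro l hl
  cases l with
  | nil => rfl
  | cons a l => rw [boxOf, if_pos (hl a (by simp))]

theorem boxOf_succ : ∀ (l : List ℕ), (∀ a ∈ l, 0 < a) → ∀ r c : ℕ, r < l.sum → c < l.sum →
    (((boxOf l r).1 = (boxOf l c).1 ∧ (boxOf l r).2 = (boxOf l c).2 + 1) ↔
      (r = c + 1 ∧ isStart l r = false)) := by
  intro l
  induction l with
  | nil => intro _ r c hr; simp at hr
  | cons a l ih =>
    intro hl r c hr hc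
    have ha := hl a (by simp)
    have hl' : ∀ a ∈ l, 0 < a := fun b hb => hl b (by simp [hb])
    rw [List.sum_cons] at hr hc
    have hS : isStart (a :: l) r = (decide (r = a) && decide (l ≠ []) ||
        (decide (a < r) && isStart l (r - a))) := by
      cases l with
      | nil => simp [isStart]
      | cons b l => simp [isStart]
    by_cases h1 : r < a <;> by_cases h2 : c < a
    · rw [boxOf, boxOf, if_pos h1, if_pos h2, hS]
      have e1 : ¬ r = a := by omega
      have e2 : ¬ a < r := by omega
      simp [e1, e2]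
    · rw [boxOf, boxOf, if_pos h1, if_neg h2]
      constructor
      · rintro ⟨h, -⟩
        exact absurd h (Nat.succ_ne_zero _).symm
      · rintro ⟨h, -⟩
        omega
    · rw [boxOf, boxOf, if_neg h1, if_pos h2, hS]
      constructor
      · rintro ⟨h, -⟩
        exact absurd h (Nat.succ_ne_zero _)
      · rintro ⟨h, h'⟩
        exfalso
        have e1 : r = a := by omega
        have e2 : l ≠ [] := by
          rintro rfl
          simp only [List.sum_nil] at hr
          omega
        simp [e1, e2] at h'
    · rw [boxOf, boxOf, if_neg h1, if_neg h2, hS]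
      have h3 := ih hl' (r - a) (c - a) (by omega) (by omega)
      simp only [Nat.add_right_cancel_iff]
      rw [h3]
      by_cases e1 : r = a
      · constructor
        · rintro ⟨h, -⟩
          omega
        · rintro ⟨h, -⟩
          omega
      · have e2 : a < r := by omega
        simp only [e1, e2, decide_false, decide_true, Bool.false_and, Bool.false_or, Bool.true_and]
        refine and_congr_left fun _ => ?_
        omega

/-- transfer of the type `l` to `Fin N` -/
theorem Bad.fin [Infinite k] {l : List ℕ} (hb : Bad k l) (hl : ∀ a ∈ l, 0 < a) {N : ℕ}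
    (hN : N = l.sum) (J : Matrix (Fin N) (Fin N) k)
    (hJ : ∀ r c : Fin N, J r c = if (r : ℕ) = c + 1 ∧ isStart l r = false then 1 else 0) :
    BadM J := by
  subst hN
  refine hb.bridge J (fun r => ⟨⟨(boxOf l r).1, (boxOf_lt l r r.2).1⟩,
    ⟨(boxOf l r).2, (boxOf_lt l r r.2).2⟩⟩) ?_ ?_ ?_
  · intro r s h
    have h1 := congrArg (fun x : IxL l => (x.1 : ℕ)) h
    have h2 := congrArg (fun x : IxL l => (x.2 : ℕ)) h
    exact Fin.ext (boxOf_inj l r s (Prod.ext h1 h2))
  · rw [Fintype.card_fin]
  · intro r c
    rw [hJ]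
    refine if_congr ?_ rfl rfl
    rw [← boxOf_succ l hl r c r.2 c.2]
    refine and_congr_left fun _ => ?_
    rw [Fin.ext_iff]

/-- the form in which a type is excluded on `Fin N` -/
theorem not_bad_fin [Infinite k] {l : List ℕ} (hl : ∀ a ∈ l, 0 < a) {N : ℕ}
    (hN : N = l.sum) (J : Matrix (Fin N) (Fin N) k)
    (hJ : ∀ r c : Fin N, J r c = if (r : ℕ) = c + 1 ∧ isStart l r = false then 1 else 0)
    (h : ∀ (ρ : ℕ → ℕ) (T : Fin 3 → Matrix (Fin N) (Fin N) k), MaxR ρ T →
      (∀ i, ρ i = (J ^ i).rank) → T 0 = J → False) : ¬ Bad k l := by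
  intro hb
  obtain ⟨ρ, T, hT, hρ, h0⟩ := hb.fin hl hN J hJ
  exact h ρ T hT hρ h0

end Pool.Agent.Lib.D13
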