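import Pool.Agent.Lib.D13.FormalB

/-!
# MP_5dcbc3_ag: formal submersion criterion

Main theorem `cl_main`. Let `V = k[t] / t ^ (n + 1)` have a basis `P0` indexed by `ι`, with levels
`w`, let `x0` be three elements of `V` without constant term and `T0 i = P0' * mu (x0 i) * P0` the
matrices of the multiplications. Let `lam : Λ → Fin 3 × ι × ι` be a set of entries such that the
linearisation `Lin` at the base point is onto `Λ → k`. Let `Q i a b : k[X]` be polynomials with
`Q i a b = 0` for `w a ≤ w b`, with constant term `T0 i a b` for the entries in `Λ` with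
`w a = w b + 1`. Assume `Λ` contains all entries with `w a > w b + 1`, and that the entries
`w a = w b + 1` of a commuting triple (over any commutative ring) are determined by those in `Λ`.
Then the triple `Q` at `X = 1` is a limit of curvilinear triples.
-/

namespace Pool.Agent.Lib.D13

open Matrix Pool.Agent.Lib.Q5dc Pool.Agent.Lib.D7

namespace Formal

universe u v

theorem aeval_dvd {k σ R : Type*} [CommRing k] [CommRing R] [Algebra k R] (F : MvPolynomial σ k)
    (d : R) (f g : σ → R) (h : ∀ z, d ∣ f z - g z) :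
    d ∣ MvPolynomial.aeval f F - MvPolynomial.aeval g F := by
  induction F using MvPolynomial.induction_on with
  | C a => simp
  | add p q hp hq =>
    rw [map_add, map_add]
    have := dvd_add hp hq
    rwa [show MvPolynomial.aeval f p - MvPolynomial.aeval g p + (MvPolynomial.aeval f q -
      MvPolynomial.aeval g q) = MvPolynomial.aeval f p + MvPolynomial.aeval f q -
      (MvPolynomial.aeval g p + MvPolynomial.aeval g q) by ring] at this
  | mul_X p z hp =>
    rw [map_mul, map_mul, MvPolynomial.aeval_X, MvPolynomial.aeval_X]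
    have := dvd_add (Dvd.dvd.mul_right hp (f z)) (Dvd.dvd.mul_left (h z) (MvPolynomial.aeval g p))
    rwa [show (MvPolynomial.aeval f p - MvPolynomial.aeval g p) * f z + MvPolynomial.aeval g p *
      (f z - g z) = MvPolynomial.aeval f p * f z - MvPolynomial.aeval g p * g z by ring] at this

section Main

variable {k : Type u} [Field k] {ι : Type v} [Fintype ι] [DecidableEq ι] {n : ℕ}

open PowerSeries

theorem cl_line (Q : Fin 3 → ι → ι → Polynomial k)
    (h : ∀ F : MvPolynomial (Fin 3 × ι × ι) k, Van F → ∀ N : ℕ, ∃ C : Fin 3 → Matrix ι ι k⟦X⟧,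
      MvPolynomial.aeval (fun z : Fin 3 × ι × ι => C z.1 z.2.1 z.2.2) F = 0 ∧
      ∀ i a b, (X : k⟦X⟧) ^ N ∣ C i a b - (Q i a b : k⟦X⟧)) :
    Cl fun i => Matrix.of fun a b => (Q i a b).eval 1 := by
  intro F hF
  have hq : MvPolynomial.aeval (fun z : Fin 3 × ι × ι => Q z.1 z.2.1 z.2.2) F = 0 := by
    have h1 : ((MvPolynomial.aeval (fun z : Fin 3 × ι × ι => Q z.1 z.2.1 z.2.2) F :
        Polynomial k) : k⟦X⟧) = MvPolynomial.aeval
          (fun z : Fin 3 × ι × ι => ((Q z.1 z.2.1 z.2.2 : Polynomial k) : k⟦X⟧)) F := by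
      have h2 : (Polynomial.coeToPowerSeries.algHom (R := k) k).comp (MvPolynomial.aeval
          (fun z : Fin 3 × ι × ι => Q z.1 z.2.1 z.2.2)) = MvPolynomial.aeval
          (fun z : Fin 3 × ι × ι => ((Q z.1 z.2.1 z.2.2 : Polynomial k) : k⟦X⟧)) := by
        apply MvPolynomial.algHom_ext
        intro z
        rw [AlgHom.comp_apply, MvPolynomial.aeval_X, MvPolynomial.aeval_X,
          Polynomial.coeToPowerSeries.algHom_apply]
        simp
      have h3 := congrArg (fun f => f F) h2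
      simp only [AlgHom.comp_apply, Polynomial.coeToPowerSeries.algHom_apply] at h3
      rw [← h3]
      simp
    have h4 : ((MvPolynomial.aeval (fun z : Fin 3 × ι × ι => Q z.1 z.2.1 z.2.2) F :
        Polynomial k) : k⟦X⟧) = 0 := by
      ext j
      obtain ⟨C, hC, hd⟩ := h F hF (j + 1)
      have h5 := aeval_dvd F ((X : k⟦X⟧) ^ (j + 1)) (fun z : Fin 3 × ι × ι => C z.1 z.2.1 z.2.2)
        (fun z => ((Q z.1 z.2.1 z.2.2 : Polynomial k) : k⟦X⟧)) fun z => hd _ _ _
      rw [hC, ← h1, zero_sub, dvd_neg, X_pow_dvd_iff] at h5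
      rw [h5 j (by omega), map_zero]
    exact Polynomial.coe_eq_zero_iff.1 h4
  have h6 : MvPolynomial.eval (co fun i => Matrix.of fun a b => (Q i a b).eval 1) F =
      (MvPolynomial.aeval (fun z : Fin 3 × ι × ι => Q z.1 z.2.1 z.2.2) F).eval 1 := by
    have h2 : ((Polynomial.aeval (1 : k) : Polynomial k →ₐ[k] k).comp (MvPolynomial.aeval
        (fun z : Fin 3 × ι × ι => Q z.1 z.2.1 z.2.2))) = MvPolynomial.aeval
          (co fun i => Matrix.of fun a b => (Q i a b).eval 1) := by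
      apply MvPolynomial.algHom_ext
      intro z
      rw [AlgHom.comp_apply, MvPolynomial.aeval_X, MvPolynomial.aeval_X,
        Polynomial.coe_aeval_eq_eval]
      rfl
    have h3 := congrArg (fun f => f F) h2
    simp only [AlgHom.comp_apply, Polynomial.coe_aeval_eq_eval] at h3
    exact h3.symm
  rw [h6, hq, Polynomial.eval_zero]

theorem cl_main [Infinite k] (e : ι ≃ Fin (n + 1)) (w : ι → ℕ)
    (P0 : Matrix (Fin (n + 1)) ι k) (P0' : Matrix ι (Fin (n + 1)) k)
    (h1 : P0' * P0 = 1) (h2 : P0 * P0' = 1) (x0 : Fin 3 → Fin (n + 1) → k)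
    (hx0 : ∀ i, x0 i 0 = 0) {Λ : Type*} (lam : Λ → Fin 3 × ι × ι)
    (cert : ∀ u : Λ → k, ∃ (N : Matrix (Fin (n + 1)) ι k) (y : Fin 3 → Fin (n + 1) → k),
      (∀ i, y i 0 = 0) ∧
      ∀ l, Lin P0 P0' x0 N y (lam l).1 (lam l).2.1 (lam l).2.2 = u l)
    (Q : Fin 3 → ι → ι → Polynomial k)
    (hQ0 : ∀ l, w (lam l).2.1 = w (lam l).2.2 + 1 →
      (Q (lam l).1 (lam l).2.1 (lam l).2.2).coeff 0 =
        T0 P0 P0' x0 (lam l).1 (lam l).2.1 (lam l).2.2)
    (hQ2 : ∀ l, w (lam l).2.2 + 1 < w (lam l).2.1 →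
      T0 P0 P0' x0 (lam l).1 (lam l).2.1 (lam l).2.2 = 0)
    (hlow : ∀ i a b, w a ≤ w b → Q i a b = 0)
    (hcov : ∀ i a b, w b + 1 < w a → ∃ l, lam l = (i, a, b))
    (hstruct : ∀ (R : Type u) [CommRing R] (φ : Polynomial k →+* R) (T : Fin 3 → Matrix ι ι R),
      (∀ i j, T i * T j = T j * T i) →
      (∀ l, T (lam l).1 (lam l).2.1 (lam l).2.2 =
        if w (lam l).2.2 + 1 < w (lam l).2.1 then 0
        else if w (lam l).2.1 = w (lam l).2.2 + 1 then φ (Q (lam l).1 (lam l).2.1 (lam l).2.2)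
        else φ (Polynomial.C (T0 P0 P0' x0 (lam l).1 (lam l).2.1 (lam l).2.2))) →
      ∀ i a b, w a = w b + 1 → T i a b = φ (Q i a b)) :
    Cl fun i => Matrix.of fun a b => (Q i a b).eval 1 := by
  obtain ⟨W, hW⟩ : ∃ W, ∀ a, w a ≤ W :=
    ⟨∑ a, w a, fun a => Finset.single_le_sum (fun _ _ => Nat.zero_le _) (Finset.mem_univ a)⟩
  apply cl_line
  intro F hF N0
  -- work with exponent `N = N0 + 1`
  obtain ⟨N, hN⟩ : ∃ N, N = N0 + 1 := ⟨_, rfl⟩
  set τ : Λ → k⟦X⟧ := fun l =>
    if w (lam l).2.2 + 1 < w (lam l).2.1 then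
      X ^ (N * (w (lam l).2.1 - w (lam l).2.2 - 1)) *
        (Q (lam l).1 (lam l).2.1 (lam l).2.2 : k⟦X⟧)
    else if w (lam l).2.1 = w (lam l).2.2 + 1 then (Q (lam l).1 (lam l).2.1 (lam l).2.2 : k⟦X⟧)
    else (Polynomial.C (T0 P0 P0' x0 (lam l).1 (lam l).2.1 (lam l).2.2) : k⟦X⟧) with hτ
  have hτ0 : ∀ l, constantCoeff (τ l) = T0 P0 P0' x0 (lam l).1 (lam l).2.1 (lam l).2.2 := by
    intro l
    simp only [hτ]
    split_ifs with h3 h4
    · rw [hQ2 l h3, map_mul, map_pow, constantCoeff_X, zero_pow, zero_mul]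
      have h5 : 1 ≤ w (lam l).2.1 - w (lam l).2.2 - 1 := by omega
      have h6 : 1 ≤ N * (w (lam l).2.1 - w (lam l).2.2 - 1) := Nat.mul_pos (by omega) h5
      omega
    · rw [← hQ0 l h4]
      simp
    · simp
  obtain ⟨P, x, hP, hx, hx1, hd⟩ := subm P0 P0' h1 h2 x0 hx0 lam cert τ hτ0 (N * (W + 2))
  obtain ⟨P', hP1, hP2⟩ := exists_inv P0 P0' h1 h2 P hP
  have hd' := hd P' hP1 hP2
  obtain ⟨T, hT⟩ : ∃ T : Fin 3 → Matrix ι ι k⟦X⟧, T = fun i => P' * mu (x i) * P := ⟨_, rfl⟩
  have hTi : ∀ i, P' * mu (x i) * P = T i := fun i => by rw [hT]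
  have hcomm : ∀ i j, T i * T j = T j * T i := by
    have e1 : ∀ i j, T i * T j = P' * (mu (x i) * mu (x j)) * P := by
      intro i j
      rw [hT]
      calc P' * mu (x i) * P * (P' * mu (x j) * P) = P' * mu (x i) * (P * P') * mu (x j) * P := by
            simp only [Matrix.mul_assoc]
        _ = P' * (mu (x i) * mu (x j)) * P := by
            rw [hP2, Matrix.mul_one]
            simp only [Matrix.mul_assoc]
    intro i j
    rw [e1, e1, mu_comm]
  -- the structure lemma modulo `X ^ N`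
  have hst : ∀ i a b, w a = w b + 1 → (X : k⟦X⟧) ^ N ∣ T i a b - (Q i a b : k⟦X⟧) := by
    intro i a b hab
    set I : Ideal k⟦X⟧ := Ideal.span {(X : k⟦X⟧) ^ N} with hI
    have hmk : ∀ f g : k⟦X⟧, Ideal.Quotient.mk I f = Ideal.Quotient.mk I g ↔
        (X : k⟦X⟧) ^ N ∣ f - g := by
      intro f g
      rw [Ideal.Quotient.eq, hI, Ideal.mem_span_singleton]
    set φ : Polynomial k →+* k⟦X⟧ ⧸ I :=
      (Ideal.Quotient.mk I).comp Polynomial.coeToPowerSeries.ringHom with hφ
    have h3 := hstruct (k⟦X⟧ ⧸ I) φ (fun i => (T i).map (Ideal.Quotient.mk I)) (by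
      intro i j
      rw [← Matrix.map_mul, ← Matrix.map_mul, hcomm]) (by
      intro l
      have h4 := hd' l
      rw [hTi] at h4
      have h5 : (X : k⟦X⟧) ^ N ∣ T (lam l).1 (lam l).2.1 (lam l).2.2 - τ l := by
        refine (pow_dvd_pow _ ?_).trans h4
        nlinarith
      rw [← hmk] at h5
      rw [Matrix.map_apply, h5]
      simp only [hτ]
      split_ifs with h6 h7
      · rw [map_mul]
        have h8 : Ideal.Quotient.mk I ((X : k⟦X⟧) ^
            (N * (w (lam l).2.1 - w (lam l).2.2 - 1))) = 0 := by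
          rw [Ideal.Quotient.eq_zero_iff_mem, hI, Ideal.mem_span_singleton]
          refine pow_dvd_pow _ ?_
          have h9 : 1 ≤ w (lam l).2.1 - w (lam l).2.2 - 1 := by omega
          nlinarith
        rw [h8, zero_mul]
      · rfl
      · rfl) i a b hab
    rw [Matrix.map_apply] at h3
    exact (hmk _ _).1 h3
  have hc : ∀ i a b, ∃ c : k⟦X⟧, (X : k⟦X⟧) ^ (N * w a) * c =
      (X : k⟦X⟧) ^ (N * (1 + w b)) * T i a b ∧ (X : k⟦X⟧) ^ N ∣ c - (Q i a b : k⟦X⟧) := by
    intro i a b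
    rcases lt_trichotomy (w a) (w b + 1) with h3 | h3 | h3
    · refine ⟨X ^ (N * (1 + w b - w a)) * T i a b, ?_, ?_⟩
      · rw [← mul_assoc, ← pow_add, ← Nat.mul_add, show w a + (1 + w b - w a) = 1 + w b by omega]
      · rw [hlow i a b (by omega), Polynomial.coe_zero, sub_zero]
        refine Dvd.dvd.mul_right (pow_dvd_pow _ ?_) _
        have h4 : 1 ≤ 1 + w b - w a := by omega
        nlinarith
    · refine ⟨T i a b, ?_, hst i a b h3⟩
      rw [h3, add_comm 1]
    · obtain ⟨l, hl⟩ := hcov i a b h3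
      have h4 := hd' l
      simp only [hτ, hl, hTi] at h4
      rw [if_pos h3] at h4
      obtain ⟨r, hr⟩ := h4
      have h5 : N * (w a - w b - 1) + N ≤ N * (W + 2) + 1 := by
        have h6 := hW a
        have h7 : w a - w b - 1 + 1 ≤ W + 2 := by omega
        nlinarith [Nat.mul_le_mul_left N h7]
      obtain ⟨j, hj⟩ : ∃ j, N * (W + 2) + 1 = N * (w a - w b - 1) + (N + j) :=
        ⟨N * (W + 2) + 1 - (N * (w a - w b - 1) + N), by omega⟩
      refine ⟨(Q i a b : k⟦X⟧) + X ^ (N + j) * r, ?_, ?_⟩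
      · have h8 : T i a b = X ^ (N * (w a - w b - 1)) *
            ((Q i a b : k⟦X⟧) + X ^ (N + j) * r) := by
          rw [hj, pow_add] at hr
          rw [mul_add, ← mul_assoc, ← hr]
          ring
        rw [h8, ← mul_assoc, ← pow_add, ← Nat.mul_add,
          show 1 + w b + (w a - w b - 1) = w a by omega]
      · rw [add_sub_cancel_left, pow_add, mul_assoc]
        exact Dvd.intro _ rfl
  choose Cf hC1 hC2 using hc
  refine ⟨fun i => Matrix.of fun a b => Cf i a b, ?_, ?_⟩
  · refine van_scale e hF P P' hP1 x hx1 w N _ ?_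
    intro i a b
    rw [hTi]
    exact hC1 i a b
  · intro i a b
    refine (pow_dvd_pow _ ?_).trans (hC2 i a b)
    omega

end Main

end Formal

end Pool.Agent.Lib.D13
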