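import Pool.Agent.Lib.D9.DensX

/-!
# MP_5dcbc3_ag: formal submersion criterion, part A

Polynomials vanishing on the curvilinear triples vanish on curvilinear triples over every
commutative `k`-algebra, and on their graded degenerations over `k⟦X⟧`.
-/

namespace Pool.Agent.Lib.D13

open Matrix Pool.Agent.Lib.Q5dc Pool.Agent.Lib.D7

namespace Formal

/-! ### multiplication matrices over a commutative ring -/

section Mu

variable {R : Type*} [CommRing R] {n : ℕ}

/-- the shift -/
def Sh (R : Type*) [CommRing R] (n : ℕ) : Matrix (Fin (n + 1)) (Fin (n + 1)) R :=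
  Matrix.of fun i j => if (i : ℕ) = (j : ℕ) + 1 then 1 else 0

theorem Sh_pow (m : ℕ) : Sh R n ^ m =
    Matrix.of fun (i j : Fin (n + 1)) => if (i : ℕ) = (j : ℕ) + m then (1 : R) else 0 := by
  induction m with
  | zero =>
    ext i j
    rw [pow_zero, Matrix.one_apply, Matrix.of_apply]
    simp [Fin.ext_iff]
  | succ m ih =>
    ext i j
    rw [pow_succ', ih, Matrix.mul_apply, Matrix.of_apply]
    by_cases h : (i : ℕ) = (j : ℕ) + (m + 1)
    · have hi := i.2
      rw [if_pos h, Finset.sum_eq_single (⟨(j : ℕ) + m, by omega⟩ : Fin (n + 1))]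
      · have e1 : Sh R n i ⟨(j : ℕ) + m, by omega⟩ = 1 := by
          rw [Sh, Matrix.of_apply, if_pos (by simp only; omega)]
        rw [e1, one_mul, Matrix.of_apply, if_pos rfl]
      · intro b _ hb
        by_cases h1 : (i : ℕ) = (b : ℕ) + 1
        · rw [Matrix.of_apply, if_neg (fun h2 => hb (Fin.ext (by simp only; omega))), mul_zero]
        · rw [Sh, Matrix.of_apply, if_neg h1, zero_mul]
      · simp
    · rw [if_neg h]
      refine Finset.sum_eq_zero fun b _ => ?_
      by_cases h1 : (i : ℕ) = (b : ℕ) + 1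
      · rw [Matrix.of_apply, if_neg (fun h2 => h (by omega)), mul_zero]
      · rw [Sh, Matrix.of_apply, if_neg h1, zero_mul]

/-- multiplication by `∑ a_m t^m` on `R[t] / t^(n+1)` -/
def mu (a : Fin (n + 1) → R) : Matrix (Fin (n + 1)) (Fin (n + 1)) R :=
  Matrix.of fun i j => if (j : ℕ) ≤ i then a ⟨(i : ℕ) - j, by omega⟩ else 0

theorem mu_apply (a : Fin (n + 1) → R) (i j : Fin (n + 1)) :
    mu a i j = if (j : ℕ) ≤ i then a ⟨(i : ℕ) - j, by omega⟩ else 0 := rfl

theorem mu_eq_sum (a : Fin (n + 1) → R) : mu a = ∑ m, a m • Sh R n ^ (m : ℕ) := by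
  ext i j
  rw [Matrix.sum_apply, mu_apply]
  simp only [Matrix.smul_apply, Sh_pow, Matrix.of_apply, smul_eq_mul, mul_ite, mul_one, mul_zero]
  by_cases h : (j : ℕ) ≤ i
  · have hi := i.2
    rw [if_pos h, Finset.sum_eq_single (⟨(i : ℕ) - j, by omega⟩ : Fin (n + 1))]
    · rw [if_pos (by simp only; omega)]
    · intro b _ hb
      rw [if_neg (fun h2 => hb (Fin.ext (by simp only; omega)))]
    · simp
  · rw [if_neg h]
    symm
    refine Finset.sum_eq_zero fun b _ => ?_
    rw [if_neg (fun h2 => h (by omega))]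

theorem mu_comm (a b : Fin (n + 1) → R) : mu a * mu b = mu b * mu a := by
  have h1 : ∀ m : Fin (n + 1), Commute (mu a) (b m • Sh R n ^ (m : ℕ)) := by
    intro m
    refine Commute.smul_right ?_ _
    rw [mu_eq_sum]
    refine Commute.sum_left _ _ _ fun m' _ => ?_
    refine Commute.smul_left ?_ _
    exact (Commute.refl (Sh R n)).pow_pow _ _
  have h2 : Commute (mu a) (mu b) := by
    rw [mu_eq_sum b]
    exact Commute.sum_right _ _ _ fun m _ => h1 m
  exact h2

theorem mu_add (a b : Fin (n + 1) → R) : mu (fun i => a i + b i) = mu a + mu b := by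
  ext i j
  rw [Matrix.add_apply, mu_apply, mu_apply, mu_apply]
  split_ifs <;> simp

theorem mu_smul (c : R) (a : Fin (n + 1) → R) : mu (fun i => c * a i) = c • mu a := by
  ext i j
  rw [Matrix.smul_apply, mu_apply, mu_apply]
  split_ifs <;> simp

theorem mu_map {S : Type*} [CommRing S] (f : R →+* S) (a : Fin (n + 1) → R) :
    (mu a).map f = mu fun i => f (a i) := by
  ext i j
  rw [Matrix.map_apply, mu_apply, mu_apply]
  split_ifs <;> simp

theorem mu_field {k : Type*} [Field k] (a : Fin (n + 1) → k) : mu a = D9.DensX.mu a := by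
  ext i j
  rw [mu_apply, D9.DensX.mu_apply]

end Mu

/-! ### vanishing over an algebra -/

/-- the polynomial vanishes on the curvilinear triples -/
def Van {k ι : Type*} [Field k] [Fintype ι] [DecidableEq ι]
    (F : MvPolynomial (Fin 3 × ι × ι) k) : Prop :=
  ∀ T' : Fin 3 → Matrix ι ι k, Curv T' → MvPolynomial.eval (co T') F = 0

section Univ

variable {k : Type*} [Field k] {n : ℕ}

/-- variables of the universal curvilinear triple -/
abbrev Vr (n : ℕ) : Type := (Fin (n + 1) × Fin (n + 1)) ⊕ (Fin 3 × Fin (n + 1))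

/-- the universal matrix -/
noncomputable def GU (k : Type*) [Field k] (n : ℕ) :
    Matrix (Fin (n + 1)) (Fin (n + 1)) (MvPolynomial (Vr n) k) :=
  Matrix.of fun i j => MvPolynomial.X (.inl (i, j))

/-- the universal elements -/
noncomputable def aU (k : Type*) [Field k] (n : ℕ) (i : Fin 3) (j : Fin (n + 1)) :
    MvPolynomial (Vr n) k :=
  if j = 0 then 0 else MvPolynomial.X (.inr (i, j))

/-- the universal triple -/
noncomputable def TU (k : Type*) [Field k] (n : ℕ) (i : Fin 3) :
    Matrix (Fin (n + 1)) (Fin (n + 1)) (MvPolynomial (Vr n) k) :=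
  adjugate (GU k n) * mu (aU k n i) * GU k n

theorem TU_map {S : Type*} [CommRing S] (f : MvPolynomial (Vr n) k →+* S) (i : Fin 3) :
    (TU k n i).map f = adjugate ((GU k n).map f) * mu (fun j => f (aU k n i j)) *
      (GU k n).map f := by
  have h1 : ∀ M : Matrix (Fin (n + 1)) (Fin (n + 1)) (MvPolynomial (Vr n) k),
      M.map f = f.mapMatrix M := fun _ => rfl
  rw [h1, TU, map_mul, map_mul, RingHom.map_adjugate, ← h1, ← h1, mu_map]

theorem det_GU_ne : (GU k n).det ≠ 0 := by
  intro h0
  have h1 := congrArg (MvPolynomial.eval (R := k) (Sum.elim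
    (fun p : Fin (n + 1) × Fin (n + 1) => if p.1 = p.2 then 1 else 0) fun _ => 0)) h0
  rw [RingHom.map_det, map_zero] at h1
  have h2 : (MvPolynomial.eval (R := k) (Sum.elim
    (fun p : Fin (n + 1) × Fin (n + 1) => if p.1 = p.2 then 1 else 0) fun _ => 0)).mapMatrix
      (GU k n) = 1 := by
    ext i j
    rw [RingHom.mapMatrix_apply, Matrix.map_apply, GU, Matrix.of_apply, MvPolynomial.eval_X,
      Matrix.one_apply]
    simp
  rw [h2, Matrix.det_one] at h1
  exact one_ne_zero h1

theorem curv_adj (g : Matrix (Fin (n + 1)) (Fin (n + 1)) k) (hg : g.det ≠ 0)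
    (a : Fin 3 → Fin (n + 1) → k) (ha : ∀ i, a i 0 = 0) :
    Curv fun i => adjugate g * mu (a i) * g := by
  have h1 : Curv fun i => D9.DensX.mu fun j => g.det * a i j :=
    D9.DensX.curv_mu _ fun i => by rw [ha, mul_zero]
  have e1 : (g.det⁻¹ • adjugate g) * g = 1 := by
    rw [Matrix.smul_mul, Matrix.adjugate_mul, smul_smul, inv_mul_cancel₀ hg, one_smul]
  have h2 := Curv.mapHom (conjHom _ _ e1 (mul_eq_one_comm.1 e1)) (conjHom_injective _ _ _ _) rfl h1
  have h3 : (fun i => conjHom _ _ e1 (mul_eq_one_comm.1 e1)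
      (D9.DensX.mu fun j => g.det * a i j)) = fun i => adjugate g * mu (a i) * g := by
    funext i
    rw [conjHom_apply, ← mu_field, mu_smul, Matrix.smul_mul, Matrix.mul_smul, smul_smul,
      inv_mul_cancel₀ hg, one_smul]
  rw [h3] at h2
  exact h2

theorem van_univ [Infinite k] {F : MvPolynomial (Fin 3 × Fin (n + 1) × Fin (n + 1)) k}
    (hF : Van F) : MvPolynomial.aeval (fun z => TU k n z.1 z.2.1 z.2.2) F = 0 := by
  have h1 : (GU k n).det * MvPolynomial.aeval (fun z => TU k n z.1 z.2.1 z.2.2) F = 0 := by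
    apply MvPolynomial.funext
    intro ev
    rw [map_mul, map_zero]
    set φ : MvPolynomial (Vr n) k →ₐ[k] k := MvPolynomial.aeval ev with hφ
    have hφ' : ∀ p, MvPolynomial.eval ev p = φ p := by
      intro p
      rfl
    rw [hφ', hφ']
    by_cases hd : φ (GU k n).det = 0
    · rw [hd, zero_mul]
    · have h2 : φ (MvPolynomial.aeval (fun z => TU k n z.1 z.2.1 z.2.2) F) =
          MvPolynomial.eval (co fun i => (TU k n i).map φ) F := by
        rw [← AlgHom.comp_apply]
        have : φ.comp (MvPolynomial.aeval fun z => TU k n z.1 z.2.1 z.2.2) =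
            MvPolynomial.aeval (co fun i => (TU k n i).map φ) := by
          apply MvPolynomial.algHom_ext
          intro z
          rw [AlgHom.comp_apply, MvPolynomial.aeval_X, MvPolynomial.aeval_X]
          rfl
        rw [this]
        rfl
      rw [h2, hF _ ?_, mul_zero]
      have h3 : (fun i => (TU k n i).map φ) = fun i => adjugate ((GU k n).map φ) *
          mu (fun j => φ (aU k n i j)) * (GU k n).map φ := by
        funext i
        exact TU_map φ.toRingHom i
      rw [h3]
      refine curv_adj _ ?_ _ fun i => ?_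
      · have h4 : ((GU k n).map φ).det = φ (GU k n).det := by
          exact (RingHom.map_det φ.toRingHom (GU k n)).symm
        rw [h4]
        exact hd
      · rw [aU, if_pos rfl, map_zero]
  exact (mul_eq_zero.1 h1).resolve_left det_GU_ne

theorem van_mu [Infinite k] {F : MvPolynomial (Fin 3 × Fin (n + 1) × Fin (n + 1)) k}
    (hF : Van F) {R : Type*} [CommRing R] [Algebra k R]
    (g g' : Matrix (Fin (n + 1)) (Fin (n + 1)) R) (h : g' * g = 1)
    (a : Fin 3 → Fin (n + 1) → R) (ha : ∀ i, a i 0 = 0) :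
    MvPolynomial.aeval (fun z : Fin 3 × Fin (n + 1) × Fin (n + 1) =>
      (g' * mu (a z.1) * g) z.2.1 z.2.2) F = 0 := by
  set φ : MvPolynomial (Vr n) k →ₐ[k] R := MvPolynomial.aeval
    (Sum.elim (fun p => g p.1 p.2) fun p => g'.det * a p.1 p.2) with hφ
  have h1 := congrArg φ (van_univ hF)
  rw [map_zero, ← AlgHom.comp_apply] at h1
  rw [← h1]
  congr 1
  apply MvPolynomial.algHom_ext
  intro z
  rw [AlgHom.comp_apply, MvPolynomial.aeval_X, MvPolynomial.aeval_X]
  have h2 : φ (TU k n z.1 z.2.1 z.2.2) = ((TU k n z.1).map φ) z.2.1 z.2.2 := rfl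
  have h3 : (TU k n z.1).map φ = adjugate ((GU k n).map φ) *
      mu (fun j => φ (aU k n z.1 j)) * (GU k n).map φ := TU_map φ.toRingHom z.1
  have h4 : (GU k n).map φ = g := by
    ext i j
    rw [Matrix.map_apply, GU, Matrix.of_apply, hφ, MvPolynomial.aeval_X]
    rfl
  have h5 : (fun j => φ (aU k n z.1 j)) = fun j => g'.det * a z.1 j := by
    funext j
    rw [aU]
    by_cases hj : j = 0
    · rw [if_pos hj, map_zero, hj, ha, mul_zero]
    · rw [if_neg hj, hφ, MvPolynomial.aeval_X]
      rfl
  have h6 : g'.det • adjugate g = g' := by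
    have e1 : g * g' = 1 := mul_eq_one_comm.1 h
    have e2 : g'.det * g.det = 1 := by rw [← Matrix.det_mul, h, Matrix.det_one]
    calc g'.det • adjugate g = g'.det • (adjugate g * (g * g')) := by rw [e1, Matrix.mul_one]
      _ = g'.det • (adjugate g * g * g') := by rw [Matrix.mul_assoc]
      _ = (g'.det * g.det) • g' := by
        rw [Matrix.adjugate_mul, Matrix.smul_mul, Matrix.one_mul, smul_smul]
      _ = g' := by rw [e2, one_smul]
  rw [h2, h3, h4, h5, mu_smul, Matrix.mul_smul, ← Matrix.smul_mul, h6]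

end Univ

end Formal

end Pool.Agent.Lib.D13
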