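import Pool.Agent.Lib.D13.FormalA

/-!
# MP_5dcbc3_ag: formal submersion criterion, part B

Degenerations over `k⟦X⟧`, and the formal submersion theorem.
-/

namespace Pool.Agent.Lib.D13

open Matrix Pool.Agent.Lib.Q5dc Pool.Agent.Lib.D7

namespace Formal

section Iota

variable {k : Type*} [Field k] {ι : Type*} [Fintype ι] [DecidableEq ι] {n : ℕ}

theorem van_iota [Infinite k] (e : ι ≃ Fin (n + 1)) {F : MvPolynomial (Fin 3 × ι × ι) k}
    (hF : Van F) {R : Type*} [CommRing R] [Algebra k R]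
    (g : Matrix (Fin (n + 1)) ι R) (g' : Matrix ι (Fin (n + 1)) R) (h : g' * g = 1)
    (a : Fin 3 → Fin (n + 1) → R) (ha : ∀ i, a i 0 = 0) :
    MvPolynomial.aeval (fun z : Fin 3 × ι × ι => (g' * mu (a z.1) * g) z.2.1 z.2.2) F = 0 := by
  set F' := MvPolynomial.rename (fun z : Fin 3 × ι × ι => (z.1, e z.2.1, e z.2.2)) F with hF'
  have h1 : Van F' := by
    intro T' hT'
    rw [hF', MvPolynomial.eval_rename]
    have h2 : Curv fun i => (Matrix.reindexAlgEquiv k k e.symm).toAlgHom (T' i) :=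
      Curv.mapHom (Matrix.reindexAlgEquiv k k e.symm).toAlgHom
        (Matrix.reindexAlgEquiv k k e.symm).injective (Fintype.card_congr e.symm) hT'
    exact hF _ h2
  have h3 : (g'.submatrix e.symm (Equiv.refl _)) * (g.submatrix (Equiv.refl _) e.symm) = 1 := by
    rw [Matrix.submatrix_mul_equiv, h, Matrix.submatrix_one_equiv]
  have h4 := van_mu h1 _ _ h3 a ha
  rw [hF', MvPolynomial.aeval_rename] at h4
  rw [← h4]
  congr 2
  funext z
  have h5 : (g'.submatrix e.symm (Equiv.refl _)) * mu (a z.1) *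
      (g.submatrix (Equiv.refl _) e.symm) = (g' * mu (a z.1) * g).submatrix e.symm e.symm := by
    rw [← Matrix.submatrix_mul_equiv _ _ _ (Equiv.refl (Fin (n + 1))) _,
      ← Matrix.submatrix_mul_equiv _ _ _ (Equiv.refl (Fin (n + 1))) _]
    rfl
  rw [Function.comp_apply, h5, Matrix.submatrix_apply, Equiv.symm_apply_apply,
    Equiv.symm_apply_apply]

end Iota

section Scale

variable {k : Type*} [Field k] {ι : Type*} [Fintype ι] [DecidableEq ι] {n : ℕ}

theorem van_inj [Infinite k] (e : ι ≃ Fin (n + 1)) {F : MvPolynomial (Fin 3 × ι × ι) k}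
    (hF : Van F) {K L : Type*} [CommRing K] [Algebra k K] [Field L] [Algebra k L]
    (ψ : K →ₐ[k] L) (hinj : Function.Injective ψ) (t : K) (ht : ψ t ≠ 0)
    (P : Matrix (Fin (n + 1)) ι K) (P' : Matrix ι (Fin (n + 1)) K)
    (h : P' * P = 1) (x : Fin 3 → Fin (n + 1) → K) (hx : ∀ i, x i 0 = 0) (w : ι → ℕ) (N : ℕ)
    (C : Fin 3 → Matrix ι ι K)
    (hC : ∀ i a b, t ^ (N * w a) * C i a b = t ^ (N * (1 + w b)) * (P' * mu (x i) * P) a b) :
    MvPolynomial.aeval (fun z : Fin 3 × ι × ι => C z.1 z.2.1 z.2.2) F = 0 := by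
  apply hinj
  rw [map_zero, ← AlgHom.comp_apply]
  have h0 : ∀ i, (P' * mu (x i) * P).map ψ =
      P'.map ψ * mu (fun j => ψ (x i j)) * P.map ψ := by
    intro i
    have e2 := Matrix.map_mul (L := P' * mu (x i)) (M := P) (f := ψ.toRingHom)
    have e3 := Matrix.map_mul (L := P') (M := mu (x i)) (f := ψ.toRingHom)
    have e4 := mu_map ψ.toRingHom (x i)
    rw [e3, e4] at e2
    exact e2
  have hT : ∀ i a b, ((Matrix.diagonal (fun a => (ψ t ^ (N * w a))⁻¹) * P'.map ψ) *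
          mu (fun j => ψ t ^ N * ψ (x i j)) *
          (P.map ψ * Matrix.diagonal (fun a => ψ t ^ (N * w a)))) a b = ψ (C i a b) := by
    intro i a b
    rw [mu_smul]
    have h2 : (Matrix.diagonal (fun a => (ψ t ^ (N * w a))⁻¹) * P'.map ψ) *
          (ψ t ^ N • mu (fun j => ψ (x i j))) *
          (P.map ψ * Matrix.diagonal (fun a => ψ t ^ (N * w a))) =
        Matrix.diagonal (fun a => (ψ t ^ (N * w a))⁻¹) *
          (ψ t ^ N • (P' * mu (x i) * P).map ψ) *
          Matrix.diagonal (fun a => ψ t ^ (N * w a)) := by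
      rw [h0]
      simp only [Matrix.mul_smul, Matrix.smul_mul, Matrix.mul_assoc]
    rw [h2, Matrix.mul_diagonal, Matrix.diagonal_mul, Matrix.smul_apply, Matrix.map_apply,
      smul_eq_mul]
    have h3 := congrArg ψ (hC i a b)
    rw [map_mul, map_mul, map_pow, map_pow] at h3
    have h4 : ψ (C i a b) = (ψ t ^ (N * w a))⁻¹ * (ψ t ^ (N * w a) * ψ (C i a b)) := by
      rw [← mul_assoc, inv_mul_cancel₀ (pow_ne_zero _ ht), one_mul]
    rw [h4, h3, show N * (1 + w b) = N + N * w b by ring, pow_add]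
    ring
  have h5 : P'.map ψ * P.map ψ = 1 := by
    have e2 := Matrix.map_mul (L := P') (M := P) (f := ψ.toRingHom)
    rw [h] at e2
    rw [show P'.map ψ * P.map ψ = (1 : Matrix ι ι K).map ψ from e2.symm]
    exact Matrix.map_one ψ (map_zero ψ) (map_one ψ)
  have h6 : (Matrix.diagonal (fun a => (ψ t ^ (N * w a))⁻¹) * P'.map ψ) *
      (P.map ψ * Matrix.diagonal (fun a => ψ t ^ (N * w a))) = 1 := by
    calc (Matrix.diagonal (fun a => (ψ t ^ (N * w a))⁻¹) * P'.map ψ) *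
      (P.map ψ * Matrix.diagonal (fun a => ψ t ^ (N * w a))) =
      Matrix.diagonal (fun a => (ψ t ^ (N * w a))⁻¹) * (P'.map ψ * P.map ψ) *
        Matrix.diagonal (fun a => ψ t ^ (N * w a)) := by simp only [Matrix.mul_assoc]
    _ = 1 := by
      rw [h5, Matrix.mul_one, Matrix.diagonal_mul_diagonal, ← Matrix.diagonal_one]
      congr 1
      funext a
      exact inv_mul_cancel₀ (pow_ne_zero _ ht)
  have h7 := van_iota e hF _ _ h6 (fun i j => ψ t ^ N * ψ (x i j))
    fun i => by rw [hx, map_zero, mul_zero]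
  rw [← h7]
  congr 1
  apply MvPolynomial.algHom_ext
  intro z
  rw [AlgHom.comp_apply, MvPolynomial.aeval_X, MvPolynomial.aeval_X, hT]

open PowerSeries in
theorem van_scale [Infinite k] (e : ι ≃ Fin (n + 1)) {F : MvPolynomial (Fin 3 × ι × ι) k}
    (hF : Van F) (P : Matrix (Fin (n + 1)) ι k⟦X⟧) (P' : Matrix ι (Fin (n + 1)) k⟦X⟧)
    (h : P' * P = 1) (x : Fin 3 → Fin (n + 1) → k⟦X⟧) (hx : ∀ i, x i 0 = 0) (w : ι → ℕ) (N : ℕ)
    (C : Fin 3 → Matrix ι ι k⟦X⟧)
    (hC : ∀ i a b, (X : k⟦X⟧) ^ (N * w a) * C i a b =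
      (X : k⟦X⟧) ^ (N * (1 + w b)) * (P' * mu (x i) * P) a b) :
    MvPolynomial.aeval (fun z : Fin 3 × ι × ι => C z.1 z.2.1 z.2.2) F = 0 := by
  have hinj : Function.Injective (IsScalarTower.toAlgHom k k⟦X⟧ (FractionRing k⟦X⟧)) :=
    IsFractionRing.injective k⟦X⟧ (FractionRing k⟦X⟧)
  refine van_inj e hF (IsScalarTower.toAlgHom k k⟦X⟧ (FractionRing k⟦X⟧)) hinj X ?_ P P' h x hx
    w N C hC
  intro h0
  rw [← map_zero (IsScalarTower.toAlgHom k k⟦X⟧ (FractionRing k⟦X⟧))] at h0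
  exact PowerSeries.X_ne_zero (hinj h0)

end Scale

/-! ### the formal submersion theorem -/

section Subm

variable {k : Type*} [Field k] {ι : Type*} [Fintype ι] [DecidableEq ι] {n : ℕ}

open PowerSeries

/-- all entries are divisible by `X ^ m` -/
def Dv {α β : Type*} (m : ℕ) (M : Matrix α β k⟦X⟧) : Prop := ∀ a b, (X : k⟦X⟧) ^ m ∣ M a b

theorem Dv.add {α β : Type*} {m : ℕ} {M N : Matrix α β k⟦X⟧} (hM : Dv m M) (hN : Dv m N) :
    Dv m (M + N) := fun a b => dvd_add (hM a b) (hN a b)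

theorem Dv.sub {α β : Type*} {m : ℕ} {M N : Matrix α β k⟦X⟧} (hM : Dv m M) (hN : Dv m N) :
    Dv m (M - N) := fun a b => dvd_sub (hM a b) (hN a b)

theorem Dv.mono {α β : Type*} {m m' : ℕ} {M : Matrix α β k⟦X⟧} (hM : Dv m M) (h : m' ≤ m) :
    Dv m' M := fun a b => (pow_dvd_pow _ h).trans (hM a b)

theorem Dv.smul {α β : Type*} {m : ℕ} {M : Matrix α β k⟦X⟧} (hM : Dv m M) (j : ℕ) :
    Dv (j + m) ((X : k⟦X⟧) ^ j • M) := fun a b => by
  rw [Matrix.smul_apply, smul_eq_mul, pow_add]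
  exact mul_dvd_mul_left _ (hM a b)

theorem Dv.mul_left {α β γ : Type*} [Fintype β] {m : ℕ} {N : Matrix β γ k⟦X⟧}
    (hN : Dv m N) (M : Matrix α β k⟦X⟧) : Dv m (M * N) := fun a b => by
  rw [Matrix.mul_apply]
  exact Finset.dvd_sum fun c _ => Dvd.dvd.mul_left (hN c b) _

theorem Dv.mul_right {α β γ : Type*} [Fintype β] {m : ℕ} {M : Matrix α β k⟦X⟧}
    (hM : Dv m M) (N : Matrix β γ k⟦X⟧) : Dv m (M * N) := fun a b => by
  rw [Matrix.mul_apply]
  exact Finset.dvd_sum fun c _ => Dvd.dvd.mul_right (hM a c) _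

theorem Dv.of_const {α β : Type*} {M : Matrix α β k⟦X⟧}
    (h : ∀ a b, constantCoeff (M a b) = 0) : Dv 1 M := fun a b => by
  rw [pow_one, X_dvd_iff]
  exact h a b

theorem map_cc_add {α β : Type*} (M M' : Matrix α β k⟦X⟧) :
    (M + M').map (constantCoeff (R := k)) =
      M.map (constantCoeff (R := k)) + M'.map (constantCoeff (R := k)) := by
  ext a b
  simp

theorem map_cc_sub {α β : Type*} (M M' : Matrix α β k⟦X⟧) :
    (M - M').map (constantCoeff (R := k)) =
      M.map (constantCoeff (R := k)) - M'.map (constantCoeff (R := k)) := by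
  ext a b
  simp

theorem map_cc_C {α β : Type*} (M : Matrix α β k) :
    (M.map (C (R := k))).map (constantCoeff (R := k)) = M := by
  ext a b
  simp

/-- a matrix with invertible constant term is invertible -/
theorem exists_inv (P0 : Matrix (Fin (n + 1)) ι k) (P0' : Matrix ι (Fin (n + 1)) k)
    (h1 : P0' * P0 = 1) (h2 : P0 * P0' = 1) (P : Matrix (Fin (n + 1)) ι k⟦X⟧)
    (hP : P.map constantCoeff = P0) :
    ∃ P' : Matrix ι (Fin (n + 1)) k⟦X⟧, P' * P = 1 ∧ P * P' = 1 := by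
  set Q : Matrix ι ι k⟦X⟧ := P0'.map C * P with hQ
  have h3 : Q.map constantCoeff = 1 := by
    have e1 := Matrix.map_mul (L := P0'.map (C (R := k))) (M := P)
      (f := constantCoeff (R := k))
    rw [hP] at e1
    have e2 : (P0'.map (C (R := k))).map (constantCoeff (R := k)) = P0' := by
      ext a b
      simp
    rw [e2, h1] at e1
    exact e1
  have h4 : IsUnit Q.det := by
    rw [PowerSeries.isUnit_iff_constantCoeff, RingHom.map_det]
    have e1 : (constantCoeff (R := k)).mapMatrix Q = 1 := h3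
    rw [e1, Matrix.det_one]
    exact isUnit_one
  have h5 : P0.map (C (R := k)) * P0'.map (C (R := k)) = 1 := by
    have e1 := Matrix.map_mul (L := P0) (M := P0') (f := C (R := k))
    rw [h2] at e1
    rw [← e1]
    exact Matrix.map_one _ (map_zero _) (map_one _)
  refine ⟨Q⁻¹ * P0'.map C, ?_, ?_⟩
  · rw [Matrix.mul_assoc, ← hQ]
    exact Matrix.nonsing_inv_mul _ h4
  · calc P * (Q⁻¹ * P0'.map C) = (P0.map C * P0'.map C) * P * (Q⁻¹ * P0'.map C) := by
          rw [h5, Matrix.one_mul]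
      _ = P0.map C * (Q * Q⁻¹) * P0'.map C := by
          rw [hQ]
          simp only [Matrix.mul_assoc]
      _ = 1 := by
          rw [Matrix.mul_nonsing_inv _ h4, Matrix.mul_one, h5]

/-- structure matrices at the base point -/
def T0 (P0 : Matrix (Fin (n + 1)) ι k) (P0' : Matrix ι (Fin (n + 1)) k)
    (x0 : Fin 3 → Fin (n + 1) → k) (i : Fin 3) : Matrix ι ι k := P0' * mu (x0 i) * P0

/-- the linearisation -/
def Lin (P0 : Matrix (Fin (n + 1)) ι k) (P0' : Matrix ι (Fin (n + 1)) k)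
    (x0 : Fin 3 → Fin (n + 1) → k) (N : Matrix (Fin (n + 1)) ι k) (y : Fin 3 → Fin (n + 1) → k)
    (i : Fin 3) : Matrix ι ι k :=
  P0' * (mu (y i) * P0 + mu (x0 i) * N - N * T0 P0 P0' x0 i)

theorem step (P0 : Matrix (Fin (n + 1)) ι k) (P0' : Matrix ι (Fin (n + 1)) k)
    (h2 : P0 * P0' = 1) (x0 : Fin 3 → Fin (n + 1) → k)
    (P : Matrix (Fin (n + 1)) ι k⟦X⟧) (hP : P.map constantCoeff = P0)
    (x : Fin 3 → Fin (n + 1) → k⟦X⟧) (hx : ∀ i j, constantCoeff (x i j) = x0 i j)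
    (N : Matrix (Fin (n + 1)) ι k) (y : Fin 3 → Fin (n + 1) → k) (m : ℕ)
    (P' : Matrix ι (Fin (n + 1)) k⟦X⟧) (hP1 : P' * P = 1) (hP2 : P * P' = 1)
    (P1 : Matrix (Fin (n + 1)) ι k⟦X⟧)
    (hPP : P1 = P + (X : k⟦X⟧) ^ (m + 1) • N.map C)
    (P1' : Matrix ι (Fin (n + 1)) k⟦X⟧) (h3 : P1' * P1 = 1) (h4 : P1 * P1' = 1) (i : Fin 3) :
    Dv (m + 2) (P1' * mu (fun j => x i j + X ^ (m + 1) * C (y i j)) * P1 -
      P' * mu (x i) * P - (X : k⟦X⟧) ^ (m + 1) • (Lin P0 P0' x0 N y i).map C) := by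
  obtain ⟨T, hT⟩ : ∃ T, T = P' * mu (x i) * P := ⟨_, rfl⟩
  rw [← hT]
  obtain ⟨x1, hx1⟩ : ∃ x1 : Fin (n + 1) → k⟦X⟧, x1 = fun j => x i j + X ^ (m + 1) * C (y i j) :=
    ⟨_, rfl⟩
  rw [← hx1]
  have e0 : P * T = mu (x i) * P := by
    rw [hT, ← Matrix.mul_assoc, ← Matrix.mul_assoc, hP2, Matrix.one_mul]
  have ex : mu x1 = mu (x i) + (X : k⟦X⟧) ^ (m + 1) • (mu (y i)).map C := by
    rw [hx1, mu_map, ← mu_smul, ← mu_add]
  have hL : P0 * Lin P0 P0' x0 N y i = mu (y i) * P0 + mu (x0 i) * N - N * T0 P0 P0' x0 i := by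
    rw [Lin, ← Matrix.mul_assoc, h2, Matrix.one_mul]
  have hTc : T.map constantCoeff = T0 P0 P0' x0 i := by
    have e1 : (P * T).map (constantCoeff (R := k)) = (mu (x i) * P).map constantCoeff := by
      rw [e0]
    rw [Matrix.map_mul, Matrix.map_mul, hP, mu_map] at e1
    have e2 : (fun j => constantCoeff (x i j)) = x0 i := funext fun j => hx i j
    rw [e2] at e1
    have e3 : (P'.map constantCoeff) * P0 = 1 := by
      have e4 : (P' * P).map (constantCoeff (R := k)) = (1 : Matrix ι ι k⟦X⟧).map constantCoeff := by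
        rw [hP1]
      rw [Matrix.map_mul, hP] at e4
      rw [e4]
      exact Matrix.map_one _ (map_zero _) (map_one _)
    have e5 : P'.map constantCoeff = P0' := by
      calc P'.map constantCoeff = P'.map constantCoeff * (P0 * P0') := by
            rw [h2, Matrix.mul_one]
        _ = P0' := by rw [← Matrix.mul_assoc, e3, Matrix.one_mul]
    rw [T0, Matrix.mul_assoc, ← e1, ← Matrix.mul_assoc, ← e5, e3, Matrix.one_mul]
  -- the bracket
  have hbr : Dv 1 ((mu (y i)).map C * P + mu (x i) * N.map C - N.map C * T -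
      P1 * (Lin P0 P0' x0 N y i).map C : Matrix (Fin (n + 1)) ι k⟦X⟧) := by
    apply Dv.of_const
    intro a b
    have e1 : ((mu (y i)).map C * P + mu (x i) * N.map C - N.map C * T -
      P1 * (Lin P0 P0' x0 N y i).map C : Matrix (Fin (n + 1)) ι k⟦X⟧).map constantCoeff = 0 := by
      have f4 : P1.map constantCoeff = P0 := by
        rw [hPP, map_cc_add, hP]
        ext a b
        simp
      have e2 : (fun j => constantCoeff (x i j)) = x0 i := funext fun j => hx i j
      have g1 : ((mu (y i)).map C * P).map (constantCoeff (R := k)) = mu (y i) * P0 := by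
        rw [Matrix.map_mul, map_cc_C, hP]
      have g2 : (mu (x i) * N.map C).map (constantCoeff (R := k)) = mu (x0 i) * N := by
        rw [Matrix.map_mul, map_cc_C, mu_map, e2]
      have g3 : (N.map C * T).map (constantCoeff (R := k)) = N * T0 P0 P0' x0 i := by
        rw [Matrix.map_mul, map_cc_C, hTc]
      have g4 : (P1 * (Lin P0 P0' x0 N y i).map C).map (constantCoeff (R := k)) =
          P0 * Lin P0 P0' x0 N y i := by
        rw [Matrix.map_mul, map_cc_C, f4]
      rw [map_cc_sub, map_cc_sub, map_cc_add, g1, g2, g3, g4, hL, sub_self]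
    have e2 := congrFun (congrFun e1 a) b
    exact e2
  have hN : Dv (m + 2) ((X : k⟦X⟧) ^ (m + 1) • ((mu (y i)).map C *
      ((X : k⟦X⟧) ^ (m + 1) • N.map C))) := by
    have e1 : Dv (m + 1) ((X : k⟦X⟧) ^ (m + 1) • N.map C : Matrix (Fin (n + 1)) ι k⟦X⟧) := by
      intro a b
      rw [Matrix.smul_apply, smul_eq_mul]
      exact Dvd.intro _ rfl
    exact ((e1.mul_left _).smul (m + 1)).mono (by omega)
  have hmain : Dv (m + 2) (P1 * (P1' * mu x1 * P1 - T -
      (X : k⟦X⟧) ^ (m + 1) • (Lin P0 P0' x0 N y i).map C)) := by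
    have e1 : P1 * (P1' * mu x1 * P1 - T -
        (X : k⟦X⟧) ^ (m + 1) • (Lin P0 P0' x0 N y i).map C) =
        (X : k⟦X⟧) ^ (m + 1) • ((mu (y i)).map C * P + mu (x i) * N.map C - N.map C * T -
          P1 * (Lin P0 P0' x0 N y i).map C) +
        (X : k⟦X⟧) ^ (m + 1) • ((mu (y i)).map C * ((X : k⟦X⟧) ^ (m + 1) • N.map C)) := by
      rw [Matrix.mul_sub, Matrix.mul_sub, ← Matrix.mul_assoc, ← Matrix.mul_assoc, h4,
        Matrix.one_mul, ex]
      have e2 : P1 * T = mu (x i) * P + (X : k⟦X⟧) ^ (m + 1) • (N.map C * T) := by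
        rw [hPP, Matrix.add_mul, e0, Matrix.smul_mul]
      rw [e2]
      have e3 : (mu (x i) + (X : k⟦X⟧) ^ (m + 1) • (mu (y i)).map C) * P1 =
          mu (x i) * P + (X : k⟦X⟧) ^ (m + 1) • (mu (x i) * N.map C) +
          (X : k⟦X⟧) ^ (m + 1) • ((mu (y i)).map C * P) +
          (X : k⟦X⟧) ^ (m + 1) • ((mu (y i)).map C * ((X : k⟦X⟧) ^ (m + 1) • N.map C)) := by
        rw [hPP]
        simp only [Matrix.add_mul, Matrix.mul_add, Matrix.mul_smul, Matrix.smul_mul, smul_add]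
        abel
      rw [e3]
      simp only [Matrix.mul_smul, smul_sub, smul_add]
      abel
    rw [e1]
    exact ((hbr.smul (m + 1)).mono (by omega)).add hN
  have := hmain.mul_left P1'
  rw [← Matrix.mul_assoc, h3, Matrix.one_mul] at this
  exact this

theorem subm (P0 : Matrix (Fin (n + 1)) ι k) (P0' : Matrix ι (Fin (n + 1)) k)
    (h1 : P0' * P0 = 1) (h2 : P0 * P0' = 1) (x0 : Fin 3 → Fin (n + 1) → k)
    (hx0 : ∀ i, x0 i 0 = 0) {Λ : Type*} (lam : Λ → Fin 3 × ι × ι)
    (cert : ∀ w : Λ → k, ∃ (N : Matrix (Fin (n + 1)) ι k) (y : Fin 3 → Fin (n + 1) → k),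
      (∀ i, y i 0 = 0) ∧
      ∀ l, Lin P0 P0' x0 N y (lam l).1 (lam l).2.1 (lam l).2.2 = w l)
    (τ : Λ → k⟦X⟧)
    (hτ : ∀ l, constantCoeff (τ l) = T0 P0 P0' x0 (lam l).1 (lam l).2.1 (lam l).2.2) (m : ℕ) :
    ∃ (P : Matrix (Fin (n + 1)) ι k⟦X⟧) (x : Fin 3 → Fin (n + 1) → k⟦X⟧),
      P.map constantCoeff = P0 ∧ (∀ i j, constantCoeff (x i j) = x0 i j) ∧ (∀ i, x i 0 = 0) ∧
      ∀ P' : Matrix ι (Fin (n + 1)) k⟦X⟧, P' * P = 1 → P * P' = 1 → ∀ l,
        (X : k⟦X⟧) ^ (m + 1) ∣ (P' * mu (x (lam l).1) * P) (lam l).2.1 (lam l).2.2 - τ l := by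
  induction m with
  | zero =>
    refine ⟨P0.map C, fun i j => C (x0 i j), ?_, ?_, ?_, ?_⟩
    · ext a b
      simp
    · intro i j
      simp
    · intro i
      simp [hx0]
    · intro P' hP1 hP2 l
      have e1 : P' = P0'.map C := by
        have e2 : P0.map (C (R := k)) * P0'.map (C (R := k)) = 1 := by
          have e1 := Matrix.map_mul (L := P0) (M := P0') (f := C (R := k))
          rw [h2] at e1
          rw [← e1]
          exact Matrix.map_one _ (map_zero _) (map_one _)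
        calc P' = P' * (P0.map C * P0'.map C) := by rw [e2, Matrix.mul_one]
          _ = P0'.map C := by rw [← Matrix.mul_assoc, hP1, Matrix.one_mul]
      have e3 : P' * mu (fun j => C (x0 (lam l).1 j)) * P0.map C =
          (T0 P0 P0' x0 (lam l).1).map C := by
        rw [e1, T0, Matrix.map_mul, Matrix.map_mul, mu_map]
      rw [e3, zero_add, pow_one, X_dvd_iff, map_sub, hτ, Matrix.map_apply]
      simp
  | succ m ih =>
    obtain ⟨P, x, hP, hx, hx0', hd⟩ := ih
    obtain ⟨P', hP1, hP2⟩ := exists_inv P0 P0' h1 h2 P hP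
    have hd' := hd P' hP1 hP2
    obtain ⟨N, y, hy, hl⟩ := cert fun l =>
      - coeff (m + 1) ((P' * mu (x (lam l).1) * P) (lam l).2.1 (lam l).2.2 - τ l)
    refine ⟨P + (X : k⟦X⟧) ^ (m + 1) • N.map C, fun i j => x i j + X ^ (m + 1) * C (y i j),
      ?_, ?_, ?_, ?_⟩
    · rw [← hP]
      ext a b
      simp
    · intro i j
      rw [← hx i j]
      simp
    · intro i
      change x i 0 + X ^ (m + 1) * C (y i 0) = 0
      rw [hx0', hy]
      simp
    · intro P1' hP3 hP4 l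
      have hs := step P0 P0' h2 x0 P hP x hx N y m P' hP1 hP2 _ rfl P1' hP3 hP4 (lam l).1
        (lam l).2.1 (lam l).2.2
      rw [Matrix.sub_apply, Matrix.sub_apply, Matrix.smul_apply, Matrix.map_apply, hl,
        smul_eq_mul] at hs
      set D := (P' * mu (x (lam l).1) * P) (lam l).2.1 (lam l).2.2 - τ l with hD
      have h5 : (X : k⟦X⟧) ^ (m + 1 + 1) ∣ D - X ^ (m + 1) * C (coeff (m + 1) D) := by
        rw [X_pow_dvd_iff]
        intro j hj
        rw [map_sub, coeff_X_pow_mul']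
        by_cases h6 : m + 1 ≤ j
        · have h7 : j = m + 1 := by omega
          rw [if_pos h6, h7, Nat.sub_self, coeff_zero_C, sub_self]
        · rw [if_neg h6, sub_zero]
          exact (X_pow_dvd_iff.1 (hd' l)) j (by omega)
      have h6 := dvd_add hs h5
      have h7 : (P1' * mu (fun j => x (lam l).1 j + X ^ (m + 1) * C (y (lam l).1 j)) *
            (P + (X : k⟦X⟧) ^ (m + 1) • N.map C) : Matrix ι ι k⟦X⟧) (lam l).2.1 (lam l).2.2 -
            (P' * mu (x (lam l).1) * P) (lam l).2.1 (lam l).2.2 -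
            X ^ (m + 1) * C (-coeff (m + 1) D) + (D - X ^ (m + 1) * C (coeff (m + 1) D)) =
          (P1' * mu (fun j => x (lam l).1 j + X ^ (m + 1) * C (y (lam l).1 j)) *
            (P + (X : k⟦X⟧) ^ (m + 1) • N.map C) : Matrix ι ι k⟦X⟧) (lam l).2.1 (lam l).2.2 -
            τ l := by
        rw [map_neg, hD]
        ring
      rw [h7] at h6
      exact h6

end Subm

end Formal

end Pool.Agent.Lib.D13
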