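import Pool.Agent.Lib.D13.Comm
import Pool.Agent.Lib.D13.JordanU
import Pool.Agent.Lib.D8.UtilB

/-!
# MP_5dcbc3_ag: Jordan types with more blocks of size one than blocks of size at least two

`not_bad_ones`: if `l` has `p` parts equal to one and `b` parts at least two, `1 ≤ b`, `b + 1 ≤ p`,
then there is no maximal bad triple whose first matrix has the Jordan type `l`.

Proof. `x = JU k l`, `P` the span of the blocks of size one, `F` the others. All elements of `adj T` map
`ker x` into `im x`, so their `P → P` blocks are zero. The determinant of the product `Θ W` of the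
`P → ker x ∩ im x` block and the `F / x F → P` block of `α y + β z` is homogeneous of degree `2 b` in
`(α, β)`, so it has a zero; call this element `y`. There are `v ≠ 0` in `P` and `w ≠ 0` in the dual of
`P` with `Θ v = 0`, `w W = 0`, `w v = 0`. Then `(x, y, z + s v w)` is commuting and nilpotent, but the
`P → P` block of `z + s v w` is not zero.
-/

namespace Pool.Agent.Lib.D13

open Matrix Pool.Agent.Lib.Q5dc Pool.Agent.Lib.D7

variable {k : Type*} [Field k] {n : Type*} [Fintype n] [DecidableEq n] {ρ : ℕ → ℕ}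
  {T : Fin 3 → Matrix n n k}

/-- if the rank does not grow along the line `A + s M`, `M` maps the kernel of `A` into the image -/
theorem ker_coker [Infinite k] {A M : Matrix n n k} (h : ∀ s : k, (A + s • M).rank ≤ A.rank)
    {κ φ : n → k} (hκ : A *ᵥ κ = 0) (hφ : φ ᵥ* A = 0) : φ ⬝ᵥ (M *ᵥ κ) = 0 := by
  by_contra hne
  let N : k → Matrix (n ⊕ Unit) (n ⊕ Unit) k := fun s =>
    fromBlocks (A + s • M) (Matrix.of fun x _ => (M *ᵥ κ) x) (Matrix.of fun _ y => s * (φ ᵥ* M) y)
      (Matrix.of fun _ _ => φ ⬝ᵥ (M *ᵥ κ))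
  have hN : ∀ x y, IsPoly fun s => N s x y := by
    rintro (x | x) (y | y)
    · exact isPoly_line A M x y
    · exact D7.IsPoly.const _
    · exact D7.IsPoly.id.mul (D7.IsPoly.const _)
    · exact D7.IsPoly.const _
  have h1 : ∀ s : k, s ≠ 0 → (N s).rank ≤ A.rank := by
    intro s hs
    let L : Matrix (n ⊕ Unit) n k := fromRows 1 (Matrix.of fun _ y => φ y)
    let R : Matrix n (n ⊕ Unit) k := fromCols 1 (Matrix.of fun x _ => s⁻¹ * κ x)
    have e : N s = L * (A + s • M) * R := by
      have hc : (A + s • M) *ᵥ (s⁻¹ • κ) = M *ᵥ κ := by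
        rw [Matrix.add_mulVec, Matrix.mulVec_smul, hκ, smul_zero, zero_add, Matrix.smul_mulVec,
          Matrix.mulVec_smul, smul_smul, mul_inv_cancel₀ hs, one_smul]
      have hr : φ ᵥ* (A + s • M) = s • (φ ᵥ* M) := by
        rw [Matrix.vecMul_add, hφ, zero_add, Matrix.vecMul_smul]
      have e1 : L * (A + s • M) = fromRows (A + s • M) (Matrix.of fun _ y => s * (φ ᵥ* M) y) := by
        rw [fromRows_mul, Matrix.one_mul]
        congr 1
        ext x y
        exact congrFun hr y
      rw [e1, fromRows_mul_fromCols]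
      show fromBlocks _ _ _ _ = fromBlocks _ _ _ _
      congr 1
      · rw [Matrix.mul_one]
      · ext x y
        exact (congrFun hc x).symm
      · rw [Matrix.mul_one]
      · ext x y
        show φ ⬝ᵥ (M *ᵥ κ) = ∑ j, s * (φ ᵥ* M) j * (s⁻¹ * κ j)
        rw [Matrix.dotProduct_mulVec]
        refine Finset.sum_congr rfl fun j _ => ?_
        field_simp
    rw [e]
    exact (Matrix.rank_mul_le_left _ _).trans ((Matrix.rank_mul_le_right _ _).trans (h s))
  have h2 : A.rank + 1 ≤ (N 0).rank := by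
    have e : N 0 = fromBlocks A 0 0 0 + Matrix.vecMulVec
        (Sum.elim (M *ᵥ κ) fun _ => φ ⬝ᵥ (M *ᵥ κ)) (Sum.elim 0 fun _ => 1) := by
      ext x y
      rcases x with x | x <;> rcases y with y | y <;> simp [N, vecMulVec_apply]
    rw [e]
    refine le_trans ?_ (CommAux.rank_add_vecMulVec (u := Sum.elim 0 fun _ => 1) ?_ ?_ ?_)
    · have e2 : A = (fromCols (1 : Matrix n n k) (0 : Matrix n Unit k)) *
          (fromBlocks A 0 0 0 : Matrix (n ⊕ Unit) (n ⊕ Unit) k) *
          (fromRows (1 : Matrix n n k) (0 : Matrix Unit n k)) := by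
        rw [fromCols_mul_fromBlocks, fromCols_mul_fromRows]
        simp
      have e3 : A.rank ≤ (fromBlocks A 0 0 0 : Matrix (n ⊕ Unit) (n ⊕ Unit) k).rank := by
        conv_lhs => rw [e2]
        exact (Matrix.rank_mul_le_left _ _).trans (Matrix.rank_mul_le_right _ _)
      omega
    · rintro ⟨x, hx⟩
      have h3 := congrFun hx (Sum.inr ())
      apply hne
      simpa [Matrix.mulVec, dotProduct] using h3.symm
    · ext x
      rcases x with x | x <;> simp [Matrix.mulVec, dotProduct]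
    · simp [dotProduct]
  have h3 := rank_semicont N hN 0
  have h4 : (Set.univ : Set k) ⊆ {s | (N s).rank < (N 0).rank} ∪ {0} := by
    intro s _
    by_cases hs : s = 0
    · exact Or.inr hs
    · left
      show (N s).rank < (N 0).rank
      have := h1 s hs
      omega
  exact Set.infinite_univ ((h3.union (Set.finite_singleton 0)).subset h4)

/-- all elements of `adj T` map the kernel of `T 0` into its image if the rank of `T 0` is maximal -/
theorem MaxR.ker_coker [Infinite k] (hT : MaxR ρ T) (hρ : ρ 1 ≤ (T 0).rank) {M : Matrix n n k}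
    (hM : M ∈ adj T) {κ φ : n → k} (hκ : T 0 *ᵥ κ = 0) (hφ : φ ᵥ* T 0 = 0) :
    φ ⬝ᵥ (M *ᵥ κ) = 0 := by
  refine D13.ker_coker (fun s => ?_) hκ hφ
  have h := hT.rank_le (add_mem (mem_adj T 0) (SMulMemClass.smul_mem s hM)) 1
  rw [pow_one] at h
  exact h.trans hρ

/-- `T 2` may be moved by `v w` if `v, w` are killed by `T 0, T 1` -/
theorem MaxR.pencil [Infinite k] (hT : MaxR ρ T) (hρ : ρ 1 ≤ (T 0).rank) {v w κ φ : n → k}
    (h0v : T 0 *ᵥ v = 0) (h1v : T 1 *ᵥ v = 0) (h0w : w ᵥ* T 0 = 0) (h1w : w ᵥ* T 1 = 0)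
    (hwv : w ⬝ᵥ v = 0) (hκ : T 0 *ᵥ κ = 0) (hwκ : w ⬝ᵥ κ ≠ 0) (hφ : φ ᵥ* T 0 = 0)
    (hφv : φ ⬝ᵥ v ≠ 0) : False := by
  have e : T = ![T 0, T 1, T 2] := by
    funext i
    fin_cases i <;> rfl
  have hP : ∀ j : ℕ, Matrix.vecMulVec v w * T 2 ^ j * Matrix.vecMulVec v w = 0 := by
    intro j
    have h1 : w ⬝ᵥ (T 2 ^ j *ᵥ v) = 0 := by
      cases j with
      | zero => simpa using hwv
      | succ j =>
        refine MaxR.ker_coker hT hρ ?_ h0v h0w
        induction j with
        | zero => simpa using mem_adj T 2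
        | succ j ih =>
          rw [pow_succ]
          exact mul_mem ih (mem_adj T 2)
    rw [Matrix.vecMulVec_mul, Matrix.vecMulVec_mul_vecMulVec, ← Matrix.dotProduct_mulVec, h1]
    simp
  have hcn : ∀ s : k, CN ![T 0, T 1 + s • 0, T 2 + s • Matrix.vecMulVec v w] := by
    intro s
    rw [smul_zero, add_zero]
    refine D8.cn3 (hT.cn.1 0 1) ?_ ?_ (hT.cn.2 0) (hT.cn.2 1) (CommAux.nilp_add (hT.cn.2 2) hP s)
    · rw [mul_add, add_mul, hT.cn.1 0 2, mul_smul_comm, smul_mul_assoc, Matrix.vecMulVec_mul,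
        Matrix.mul_vecMulVec, h0v, h0w]
      simp
    · rw [mul_add, add_mul, hT.cn.1 1 2, mul_smul_comm, smul_mul_assoc, Matrix.vecMulVec_mul,
        Matrix.mul_vecMulVec, h1v, h1w]
      simp
  obtain ⟨s, hs, h1⟩ := D8.MaxR.line2 (e ▸ hT) 0 _ hcn (Set.finite_singleton (0 : k))
  have h2 := MaxR.ker_coker h1 hρ (D8.mem2 _ _ _) (κ := κ) (φ := φ) hκ hφ
  have h3 := MaxR.ker_coker hT hρ (mem_adj T 2) hκ hφ
  rw [Matrix.add_mulVec, Matrix.smul_mulVec, Matrix.vecMulVec_mulVec, dotProduct_add, h3,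
    zero_add] at h2
  have h4 : s * ((w ⬝ᵥ κ) * (φ ⬝ᵥ v)) = 0 := by
    simpa [dotProduct_smul] using h2
  have hs' : s ≠ 0 := by simpa using hs
  exact mul_ne_zero hs' (mul_ne_zero hwκ hφv) h4

namespace OnesAux

/-- a determinant of a product of two pencils has a zero -/
theorem exists_sing [IsAlgClosed k] {β π : Type*} [Fintype β] [DecidableEq β] [Nonempty β]
    [Fintype π] (Θ Θ' : Matrix β π k) (W W' : Matrix π β k) :
    ∃ a b : k, (a ≠ 0 ∨ b ≠ 0) ∧ ((a • Θ + b • Θ') * (a • W + b • W')).det = 0 := by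
  have : Infinite k := IsAlgClosed.instInfinite
  by_contra h
  push Not at h
  -- the polynomial of a pencil
  have key : ∀ (Θ Θ' : Matrix β π k) (W W' : Matrix π β k), ∃ p : Polynomial k, ∀ t : k,
      ((Θ + t • Θ') * (W + t • W')).det = p.eval t := by
    intro Θ Θ' W W'
    refine ⟨((Θ.map Polynomial.C + (Polynomial.X : Polynomial k) • Θ'.map Polynomial.C) *
      (W.map Polynomial.C + (Polynomial.X : Polynomial k) • W'.map Polynomial.C)).det,
      fun t => ?_⟩
    rw [← Polynomial.coe_evalRingHom, RingHom.map_det]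
    congr 1
    ext i j
    simp [Matrix.mul_apply, Polynomial.eval_finsetSum, mul_comm t]
  obtain ⟨p, hp⟩ := key Θ Θ' W W'
  obtain ⟨q, hq⟩ := key Θ' Θ W' W
  have hp0 : ∀ t, p.eval t ≠ 0 := by
    intro t
    rw [← hp]
    have := h 1 t (Or.inl one_ne_zero)
    simpa using this
  have hdeg : p.degree = 0 := by
    by_contra hd
    obtain ⟨t, ht⟩ := IsAlgClosed.exists_root p hd
    exact hp0 t ht
  obtain ⟨c, hc⟩ : ∃ c, p = Polynomial.C c := ⟨_, Polynomial.eq_C_of_degree_eq_zero hdeg⟩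
  have hpc : ∀ t, p.eval t = c := fun t => by rw [hc, Polynomial.eval_C]
  have h1 : ∀ s : k, s ≠ 0 → q.eval s = s ^ (2 * Fintype.card β) * c := by
    intro s hs
    have e1 : Θ' + s • Θ = s • (Θ + s⁻¹ • Θ') := by
      rw [smul_add, smul_smul, mul_inv_cancel₀ hs, one_smul, add_comm]
    have e2 : W' + s • W = s • (W + s⁻¹ • W') := by
      rw [smul_add, smul_smul, mul_inv_cancel₀ hs, one_smul, add_comm]
    rw [← hq, e1, e2, Matrix.smul_mul, Matrix.mul_smul, smul_smul, Matrix.det_smul, hp, hpc]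
    ring
  have h2 : q = Polynomial.X ^ (2 * Fintype.card β) * Polynomial.C c := by
    refine Polynomial.eq_of_infinite_eval_eq _ _ ?_
    refine (Set.Finite.infinite_compl (Set.finite_singleton (0 : k))).mono fun s hs => ?_
    have hs' : s ≠ 0 := by simpa using hs
    show q.eval s = _
    rw [h1 s hs', Polynomial.eval_mul, Polynomial.eval_pow, Polynomial.eval_X,
      Polynomial.eval_C]
  have h3 := h 0 1 (Or.inr one_ne_zero)
  apply h3
  have h4 := hq 0
  rw [h2] at h4
  have hb : 0 < Fintype.card β := Fintype.card_pos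
  simpa [hb.ne'] using h4

/-- vectors and covectors killed by singular blocks -/
theorem exists_vw {β π : Type*} [Fintype β] [DecidableEq β] [Fintype π] [DecidableEq π]
    (hc : Fintype.card β < Fintype.card π) (Θ : Matrix β π k) (W : Matrix π β k)
    (h : (Θ * W).det = 0) :
    ∃ v w : π → k, v ≠ 0 ∧ w ≠ 0 ∧ Θ *ᵥ v = 0 ∧ w ᵥ* W = 0 ∧ w ⬝ᵥ v = 0 := by
  have hdim : Module.finrank k (β → k) < Module.finrank k (π → k) := by
    rw [Module.finrank_fintype_fun_eq_card, Module.finrank_fintype_fun_eq_card]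
    exact hc
  have hL : ∀ f : (π → k) →ₗ[k] (β → k), ∃ x, x ≠ 0 ∧ f x = 0 := by
    intro f
    obtain ⟨x, hx, hx0⟩ := (Submodule.ne_bot_iff _).1
      (LinearMap.ker_ne_bot_of_finrank_lt (f := f) hdim)
    exact ⟨x, hx0, LinearMap.mem_ker.1 hx⟩
  obtain ⟨a, ha, hWa⟩ := Matrix.exists_mulVec_eq_zero_iff.2 h
  by_cases h1 : W *ᵥ a = 0
  · obtain ⟨v, hv, hv0⟩ := hL Θ.mulVecLin
    obtain ⟨j, hj⟩ := Function.ne_iff.1 ha
    obtain ⟨w, hw, hw0⟩ := hL (W.updateCol j v).vecMulLinear
    have hw1 : ∀ i, (w ᵥ* (W.updateCol j v)) i = 0 := fun i => congrFun hw0 i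
    have hw2 : w ⬝ᵥ v = 0 := by
      have := hw1 j
      simpa [Matrix.vecMul, dotProduct] using this
    have hw3 : ∀ i, i ≠ j → (w ᵥ* W) i = 0 := by
      intro i hi
      have := hw1 i
      simpa [Matrix.vecMul, dotProduct, hi] using this
    refine ⟨v, w, hv, hw, hv0, ?_, hw2⟩
    have h4 : (w ᵥ* W) ⬝ᵥ a = 0 := by
      rw [← Matrix.dotProduct_mulVec, h1, dotProduct_zero]
    have h5 : (w ᵥ* W) ⬝ᵥ a = (w ᵥ* W) j * a j := by
      rw [dotProduct]
      exact Finset.sum_eq_single j (fun i _ hi => by rw [hw3 i hi, zero_mul])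
        (fun h => absurd (Finset.mem_univ _) h)
    rw [h5] at h4
    have h6 : (w ᵥ* W) j = 0 := (mul_eq_zero.1 h4).resolve_right hj
    ext i
    by_cases hi : i = j
    · rw [hi]
      exact h6
    · exact hw3 i hi
  · obtain ⟨w, hw, hw0⟩ := hL W.vecMulLinear
    refine ⟨W *ᵥ a, w, h1, hw, ?_, hw0, ?_⟩
    · rw [Matrix.mulVec_mulVec]
      exact hWa
    · rw [Matrix.dotProduct_mulVec]
      have : w ᵥ* W = 0 := hw0
      rw [this, zero_dotProduct]

variable (l : List ℕ)

/-- the blocks of size one -/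
abbrev One : Type := {a : Fin l.length // l.get a = 1}

/-- the blocks of size at least two -/
abbrev Big : Type := {a : Fin l.length // 2 ≤ l.get a}

variable {l}

/-- the basis vector of a block of size one -/
def iota (c : One l) : IxL l := ⟨c.1, ⟨0, by rw [c.2]; exact one_pos⟩⟩

/-- the top of a block -/
def top (c : Big l) : IxL l := ⟨c.1, ⟨0, by have := c.2; omega⟩⟩

/-- the bottom of a block -/
def bot (c : Big l) : IxL l := ⟨c.1, ⟨l.get c.1 - 1, by have := c.2; omega⟩⟩

theorem iota_inj : Function.Injective (iota (l := l)) := by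
  intro c d h
  exact Subtype.ext (congrArg Sigma.fst h)

/-- extension of a vector by zero -/
def ext (v : One l → k) (x : IxL l) : k := if h : l.get x.1 = 1 then v ⟨x.1, h⟩ else 0

theorem ext_iota (v : One l → k) (c : One l) : ext v (iota c) = v c := by
  unfold ext iota
  rw [dif_pos c.2]

theorem eq_iota (x : IxL l) (h : l.get x.1 = 1) : x = iota ⟨x.1, h⟩ := by
  obtain ⟨a, i⟩ := x
  unfold iota
  congr
  apply Fin.ext
  have := i.2
  simp only at h ⊢
  omega

theorem sum_ext (v : One l → k) (f : IxL l → k) :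
    ∑ x, f x * ext v x = ∑ c : One l, f (iota c) * v c := by
  refine (Fintype.sum_of_injective iota iota_inj _ _ (fun x hx => ?_) (fun c => ?_)).symm
  · have : ext v x = 0 := by
      unfold ext
      rw [dif_neg]
      intro h
      exact hx ⟨_, (eq_iota x h).symm⟩
    rw [this, mul_zero]
  · rw [ext_iota]

theorem JU_iota (x : IxL l) (c : One l) : JU k l x (iota c) = 0 := by
  show (if x.1 = (iota c).1 ∧ (x.2 : ℕ) = (iota c).2 + 1 then (1 : k) else 0) = 0
  rw [if_neg]
  rintro ⟨h1, h2⟩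
  have h3 : l.get x.1 = 1 := by rw [h1]; exact c.2
  have := x.2.2
  rw [h2] at this
  omega

theorem iota_JU (c : One l) (y : IxL l) : JU k l (iota c) y = 0 := by
  show (if (iota c).1 = y.1 ∧ ((iota c).2 : ℕ) = y.2 + 1 then (1 : k) else 0) = 0
  rw [if_neg]
  rintro ⟨-, h2⟩
  exact absurd h2 (by show ¬ (0 : ℕ) = y.2 + 1; omega)

theorem C_iota {C : Matrix (IxL l) (IxL l) k} (hC : JU k l * C = C * JU k l) (x : IxL l)
    (c : One l) (hx : (x.2 : ℕ) + 1 < l.get x.1) : C x (iota c) = 0 := by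
  have h := congrFun (congrFun hC ⟨x.1, ⟨x.2 + 1, hx⟩⟩) (iota c)
  rw [Matrix.mul_apply, Matrix.mul_apply,
    Finset.sum_eq_zero (f := fun j => C ⟨x.1, ⟨x.2 + 1, hx⟩⟩ j * JU k l j (iota c))
      (fun j _ => by rw [JU_iota, mul_zero]), Finset.sum_eq_single x] at h
  · have e : JU k l ⟨x.1, ⟨x.2 + 1, hx⟩⟩ x = 1 := if_pos ⟨rfl, rfl⟩
    rwa [e, one_mul] at h
  · intro y _ hy
    have e : JU k l ⟨x.1, ⟨x.2 + 1, hx⟩⟩ y = 0 := by
      refine if_neg ?_
      rintro ⟨h1, h2⟩
      apply hy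
      refine (JordanUAux.sigma_ext x y h1 ?_).symm
      have h3 : (x.2 : ℕ) + 1 = y.2 + 1 := h2
      omega
    rw [e, zero_mul]
  · intro h1
    exact absurd (Finset.mem_univ _) h1

theorem iota_C {C : Matrix (IxL l) (IxL l) k} (hC : JU k l * C = C * JU k l) (c : One l)
    (y : IxL l) (hy : (y.2 : ℕ) ≠ 0) : C (iota c) y = 0 := by
  have hy' : (y.2 : ℕ) - 1 < l.get y.1 := by
    have := y.2.2
    omega
  have h := congrFun (congrFun hC (iota c)) ⟨y.1, ⟨(y.2 : ℕ) - 1, hy'⟩⟩
  rw [Matrix.mul_apply, Matrix.mul_apply,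
    Finset.sum_eq_zero (f := fun j => JU k l (iota c) j * C j ⟨y.1, ⟨(y.2 : ℕ) - 1, hy'⟩⟩)
      (fun j _ => by rw [iota_JU, zero_mul]), Finset.sum_eq_single y] at h
  · have e : JU k l y ⟨y.1, ⟨(y.2 : ℕ) - 1, hy'⟩⟩ = 1 :=
      if_pos ⟨rfl, by show (y.2 : ℕ) = (y.2 - 1 : ℕ) + 1; omega⟩
    rw [e, mul_one] at h
    exact h.symm
  · intro x _ hx
    have e : JU k l x ⟨y.1, ⟨(y.2 : ℕ) - 1, hy'⟩⟩ = 0 := by
      refine if_neg ?_
      rintro ⟨h1, h2⟩
      apply hx
      refine JordanUAux.sigma_ext x y h1 ?_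
      have h3 : (x.2 : ℕ) = (y.2 - 1 : ℕ) + 1 := h2
      omega
    rw [e, mul_zero]
  · intro h1
    exact absurd (Finset.mem_univ _) h1

/-- the block from the blocks of size one to the bottoms -/
def TH (C : Matrix (IxL l) (IxL l) k) : Matrix (Big l) (One l) k :=
  Matrix.of fun a c => C (bot a) (iota c)

/-- the block from the tops to the blocks of size one -/
def WW (C : Matrix (IxL l) (IxL l) k) : Matrix (One l) (Big l) k :=
  Matrix.of fun c a => C (iota c) (top a)

theorem main [IsAlgClosed k] (hβ : Nonempty (Big l))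
    (hc : Fintype.card (Big l) < Fintype.card (One l)) : ¬ Bad k l := by
  have : Infinite k := IsAlgClosed.instInfinite
  rintro ⟨ρ, T, hT, hρ, hJ⟩
  have e3 : T = ![T 0, T 1, T 2] := by
    funext i
    fin_cases i <;> rfl
  obtain ⟨a, b, hab, hdet⟩ := exists_sing (TH (T 1)) (TH (T 2)) (WW (T 1)) (WW (T 2))
  obtain ⟨c, d, hcd⟩ : ∃ c d : k, a * d - b * c ≠ 0 := by
    rcases hab with h | h
    · exact ⟨0, 1, by simpa using h⟩
    · exact ⟨1, 0, by simpa using h⟩
  have hM := D8.MaxR.lin (e3 ▸ hT) a b c d 0 0 0 0 hcd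
  simp only [zero_smul, add_zero] at hM
  set Y := a • T 1 + b • T 2 with hY
  have hYJ : JU k l * Y = Y * JU k l := by
    rw [← hJ]
    exact hM.cn.1 0 1
  have hTH : TH Y = a • TH (T 1) + b • TH (T 2) := rfl
  have hWW : WW Y = a • WW (T 1) + b • WW (T 2) := rfl
  rw [← hTH, ← hWW] at hdet
  obtain ⟨v, w, hv, hw, hTv, hwW, hwv⟩ := exists_vw hc _ _ hdet
  have hr : ρ 1 ≤ ((![T 0, Y, c • T 1 + d • T 2] : Fin 3 → Matrix (IxL l) (IxL l) k) 0).rank := by
    show ρ 1 ≤ (T 0).rank
    rw [hρ 1, pow_one, hJ]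
  have k1 : ∀ c : One l, T 0 *ᵥ Pi.single (iota c) 1 = 0 := by
    intro c
    rw [hJ, Matrix.mulVec_single_one]
    ext x
    exact JU_iota x c
  have k2 : ∀ c : One l, Pi.single (iota c) 1 ᵥ* T 0 = 0 := by
    intro c
    rw [hJ, Matrix.single_one_vecMul]
    ext x
    exact iota_JU c x
  have hnu : ∀ c c' : One l, Y (iota c) (iota c') = 0 := by
    intro c c'
    have h := MaxR.ker_coker hM hr (D8.mem1 _ _ _) (k1 c') (k2 c)
    simpa [Matrix.mulVec_single_one] using h
  obtain ⟨c0, hc0⟩ := Function.ne_iff.1 hw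
  obtain ⟨c1, hc1⟩ := Function.ne_iff.1 hv
  refine MaxR.pencil hM hr (v := ext v) (w := ext w) (κ := Pi.single (iota c0) 1)
    (φ := Pi.single (iota c1) 1) ?_ ?_ ?_ ?_ ?_ (k1 c0) ?_ (k2 c1) ?_
  · show T 0 *ᵥ ext v = 0
    rw [hJ]
    ext x
    show ∑ y, JU k l x y * ext v y = 0
    rw [sum_ext]
    exact Finset.sum_eq_zero fun c _ => by rw [JU_iota, zero_mul]
  · show Y *ᵥ ext v = 0
    ext x
    show ∑ y, Y x y * ext v y = 0
    rw [sum_ext]
    by_cases h1 : (x.2 : ℕ) + 1 < l.get x.1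
    · exact Finset.sum_eq_zero fun c _ => by rw [C_iota hYJ x c h1, zero_mul]
    · have h2 := x.2.2
      by_cases h3 : l.get x.1 = 1
      · rw [eq_iota x h3]
        exact Finset.sum_eq_zero fun c _ => by rw [hnu, zero_mul]
      · have h4 : x = bot ⟨x.1, by omega⟩ := by
          refine JordanUAux.sigma_ext _ _ rfl ?_
          show (x.2 : ℕ) = l.get x.1 - 1
          omega
        rw [h4]
        exact congrFun hTv ⟨x.1, by omega⟩
  · show ext w ᵥ* T 0 = 0
    rw [hJ]
    ext y
    show ∑ x, ext w x * JU k l x y = 0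
    simp_rw [mul_comm (ext w _)]
    rw [sum_ext w fun x => JU k l x y]
    exact Finset.sum_eq_zero fun c _ => by rw [iota_JU, zero_mul]
  · show ext w ᵥ* Y = 0
    ext y
    show ∑ x, ext w x * Y x y = 0
    simp_rw [mul_comm (ext w _)]
    rw [sum_ext w fun x => Y x y]
    by_cases h1 : (y.2 : ℕ) = 0
    · have h2 := y.2.2
      by_cases h3 : l.get y.1 = 1
      · rw [eq_iota y h3]
        exact Finset.sum_eq_zero fun c _ => by rw [hnu, zero_mul]
      · have h4 : y = top ⟨y.1, by omega⟩ := JordanUAux.sigma_ext _ _ rfl h1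
        rw [h4]
        simp_rw [mul_comm _ (w _)]
        exact congrFun hwW ⟨y.1, by omega⟩
    · exact Finset.sum_eq_zero fun c _ => by rw [iota_C hYJ c y h1, zero_mul]
  · show ∑ x, ext w x * ext v x = 0
    rw [sum_ext]
    simp_rw [ext_iota]
    exact hwv
  · rw [dotProduct_single, mul_one, ext_iota]
    exact hc0
  · rw [single_dotProduct, one_mul, ext_iota]
    exact hc1

end OnesAux

open OnesAux

/-- more blocks of size one than blocks of size at least two -/
theorem not_bad_ones [IsAlgClosed k] {l : List ℕ} (h1 : 1 ≤ l.countP (fun a => 2 ≤ a))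
    (h2 : l.countP (fun a => 2 ≤ a) < l.countP (fun a => a = 1)) : ¬ Bad k l := by
  have key : ∀ (P : ℕ → Prop) [DecidablePred P] (l : List ℕ),
      Fintype.card {a : Fin l.length // P (l.get a)} = l.countP (fun a => P a) := by
    intro P _ l
    induction l with
    | nil => simp
    | cons b l ih =>
      have h3 : (Finset.univ.filter fun a : Fin (b :: l).length => P ((b :: l).get a)).card =
          if P b then (Finset.univ.filter fun a : Fin l.length => P (l.get a)).card + 1
          else (Finset.univ.filter fun a : Fin l.length => P (l.get a)).card :=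
        Fin.card_filter_univ_succ fun a : Fin (l.length + 1) => P ((b :: l).get a)
      rw [List.countP_cons, ← ih, Fintype.card_subtype, Fintype.card_subtype, h3]
      by_cases h : P b <;> simp [h]
  have hb : Fintype.card (Big l) = _ := key (fun a => 2 ≤ a) l
  have ho : Fintype.card (One l) = _ := key (fun a => a = 1) l
  refine main (Fintype.card_pos_iff.1 (by omega)) (by omega)

end Pool.Agent.Lib.D13
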