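import Pool.Agent.Lib.D13.Frame
import Pool.Agent.Lib.D13.Ones

/-!
# MP_5dcbc3_ag: the Jordan types which have to be excluded one by one, second list

`rest2 N` is the list of the types in `rest N` for which the number of blocks of size one is at most
the number of the other blocks.
-/

namespace Pool.Agent.Lib.D13

open Matrix Pool.Agent.Lib.Q5dc Pool.Agent.Lib.D7

variable {k : Type*} [Field k]

/-- more blocks of size one than other blocks -/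
def manyOnes (l : List ℕ) : Bool :=
  decide (1 ≤ l.countP (fun a => 2 ≤ a)) &&
    decide (l.countP (fun a => 2 ≤ a) < l.countP (fun a => a = 1))

theorem not_bad_manyOnes [IsAlgClosed k] {l : List ℕ} (h : manyOnes l = true) : ¬ Bad k l := by
  unfold manyOnes at h
  rw [Bool.and_eq_true] at h
  exact not_bad_ones (of_decide_eq_true h.1) (of_decide_eq_true h.2)

/-- the types of size `N` which are covered neither by the general theorems nor by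
`not_bad_manyOnes` -/
def rest2 (N : ℕ) : List (List ℕ) := (rest N).filter fun l => !manyOnes l

/-- if none of the types in `rest2 N` is bad, every commuting nilpotent triple is a limit of
curvilinear ones -/
theorem cl_of_rest2 [IsAlgClosed k] [CharZero k] {N : ℕ} (hN : 0 < N)
    (h : ∀ l ∈ rest2 N, ¬ Bad k l) {T : Fin 3 → Matrix (Fin N) (Fin N) k} (hT : CN T) : Cl T := by
  refine cl_of_rest hN (fun l hl => ?_) hT
  by_cases he : manyOnes l = true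
  · exact not_bad_manyOnes he
  · exact h l (List.mem_filter.2 ⟨hl, by simpa using he⟩)

theorem rest2_eq9 : rest2 9 = [[3, 2, 2, 1, 1], [3, 2, 2, 2], [3, 3, 2, 1], [3, 3, 3], [4, 2, 2, 1], [4, 3, 1, 1],
    [4, 3, 2], [4, 4, 1], [5, 2, 1, 1], [5, 2, 2], [5, 3, 1]] := by
  decide +kernel

theorem rest2_eq10 : rest2 10 = [[3, 2, 2, 1, 1, 1], [3, 2, 2, 2, 1], [3, 3, 2, 1, 1], [3, 3, 2, 2], [3, 3, 3, 1],
    [4, 2, 2, 1, 1], [4, 2, 2, 2], [4, 3, 2, 1], [4, 3, 3], [4, 4, 1, 1], [4, 4, 2],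
    [5, 2, 2, 1], [5, 3, 1, 1], [5, 3, 2], [5, 4, 1], [6, 2, 1, 1], [6, 2, 2], [6, 3, 1]] := by
  decide +kernel

theorem rest2_eq11 : rest2 11 = [[3, 2, 2, 2, 1, 1], [3, 2, 2, 2, 2], [3, 3, 2, 1, 1, 1], [3, 3, 2, 2, 1], [3, 3, 3, 1, 1],
    [3, 3, 3, 2], [4, 2, 2, 1, 1, 1], [4, 2, 2, 2, 1], [4, 3, 2, 1, 1], [4, 3, 2, 2],
    [4, 3, 3, 1], [4, 4, 2, 1], [4, 4, 3], [5, 2, 2, 1, 1], [5, 2, 2, 2], [5, 3, 2, 1],
    [5, 3, 3], [5, 4, 1, 1], [5, 4, 2], [5, 5, 1], [6, 2, 2, 1], [6, 3, 1, 1], [6, 3, 2],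
    [6, 4, 1], [7, 2, 1, 1], [7, 2, 2], [7, 3, 1]] := by
  decide +kernel

theorem rest2_eq12 : rest2 12 = [[3, 2, 2, 2, 1, 1, 1], [3, 2, 2, 2, 2, 1], [3, 3, 2, 2, 1, 1], [3, 3, 2, 2, 2],
    [3, 3, 3, 1, 1, 1], [3, 3, 3, 2, 1], [3, 3, 3, 3], [4, 2, 2, 2, 1, 1], [4, 2, 2, 2, 2],
    [4, 3, 2, 1, 1, 1], [4, 3, 2, 2, 1], [4, 3, 3, 1, 1], [4, 3, 3, 2], [4, 4, 2, 1, 1],
    [4, 4, 2, 2], [4, 4, 3, 1], [4, 4, 4], [5, 2, 2, 1, 1, 1], [5, 2, 2, 2, 1],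
    [5, 3, 2, 1, 1], [5, 3, 2, 2], [5, 3, 3, 1], [5, 4, 2, 1], [5, 4, 3], [5, 5, 1, 1],
    [5, 5, 2], [6, 2, 2, 1, 1], [6, 2, 2, 2], [6, 3, 2, 1], [6, 3, 3], [6, 4, 1, 1],
    [6, 4, 2], [6, 5, 1], [7, 2, 2, 1], [7, 3, 1, 1], [7, 3, 2], [7, 4, 1], [8, 2, 1, 1],
    [8, 2, 2], [8, 3, 1]] := by
  decide +kernel

end Pool.Agent.Lib.D13
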