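import Mathlib

/-!
# MP_5dcbc3_ag: the generic commuting nilpotent triples of type (a, b, 1), computations in a module

`x` has blocks of lengths `m + 4`, `n + 4`, `1` generated by `e1`, `e2`, `p`; everything commutes.
-/

namespace Pool.Agent.Lib.D13.GenA

variable {S M : Type*} [CommRing S] [AddCommGroup M] [Module S M]

/-- the data -/
structure Dat (m n : ℕ) (x y z R F τ ω γ η ρ1 φ1 κ1 κ2 : S) (e1 e2 p : M) : Prop where
  h1 : x ^ (m + 4) • e1 = 0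
  h2 : x ^ (n + 4) • e2 = 0
  hp : x • p = 0
  hy1 : y • e1 = τ • p
  hy2 : y • e2 = x • e2 + ω • p
  hyp : y • p = (γ * τ) • x ^ (m + 3) • e1 + (η * ω) • x ^ (n + 3) • e2
  hz1 : z • e1 = (x ^ (n + 2) * R) • e2 + p
  hz2 : z • e2 = (x ^ (m + 2) * F) • e1 + p
  hzp : z • p = γ • x ^ (m + 3) • e1 + η • x ^ (n + 3) • e2
  hR : (x ^ (n + 2) * R) • e2 = (η * (τ - ω)) • x ^ (n + 2) • e2 + ρ1 • x ^ (n + 3) • e2
  hF : (x ^ (m + 2) * F) • e1 = (γ * (τ - ω)) • x ^ (m + 2) • e1 + φ1 • x ^ (m + 3) • e1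
  hκ1 : (x ^ (m + n + 3) * R * F) • e2 = κ1 • x ^ (n + 3) • e2
  hκ2 : (x ^ (m + n + 3) * R * F) • e1 = κ2 • x ^ (m + 3) • e1

variable {m n : ℕ} {x y z R F τ ω γ η ρ1 φ1 κ1 κ2 : S} {e1 e2 p : M}

namespace Dat

variable (D : Dat m n x y z R F τ ω γ η ρ1 φ1 κ1 κ2 e1 e2 p)
include D

theorem z1 (i : ℕ) (f : S) : (x ^ (m + 4 + i) * f) • e1 = 0 := by
  have : (x ^ (m + 4 + i) * f) • e1 = (x ^ i * f) • (x ^ (m + 4) • e1) := by module
  rw [this, D.h1, smul_zero]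

theorem z2 (i : ℕ) (f : S) : (x ^ (n + 4 + i) * f) • e2 = 0 := by
  have : (x ^ (n + 4 + i) * f) • e2 = (x ^ i * f) • (x ^ (n + 4) • e2) := by module
  rw [this, D.h2, smul_zero]

theorem zp (i : ℕ) (f : S) : (x ^ (i + 1) * f) • p = 0 := by
  have : (x ^ (i + 1) * f) • p = (x ^ i * f) • (x • p) := by module
  rw [this, D.hp, smul_zero]

/-- `X e1` -/
theorem X1 : (x - y + ω * z) • e1 = x • e1 + (ω * x ^ (n + 2) * R) • e2 - (τ - ω) • p := by
  linear_combination (norm := module) (-1 : S) • D.hy1 + ω • D.hz1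

theorem X2 : (x - y + ω * z) • e2 = (ω * x ^ (m + 2) * F) • e1 := by
  linear_combination (norm := module) (-1 : S) • D.hy2 + ω • D.hz2

theorem Xp : (x - y + ω * z) • p = -((γ * (τ - ω)) • x ^ (m + 3) • e1) := by
  linear_combination (norm := module) (-1 : S) • D.hyp + ω • D.hzp + D.hp

theorem Y1 : (y - τ * z) • e1 = -((τ * x ^ (n + 2) * R) • e2) := by
  linear_combination (norm := module) D.hy1 - τ • D.hz1

theorem Y2 : (y - τ * z) • e2 = x • e2 - (τ * x ^ (m + 2) * F) • e1 - (τ - ω) • p := by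
  linear_combination (norm := module) D.hy2 - τ • D.hz2

theorem Yp : (y - τ * z) • p = -((η * (τ - ω)) • x ^ (n + 3) • e2) := by
  linear_combination (norm := module) D.hyp - τ • D.hzp

/-- `X s1 = 0` -/
theorem Xs1 : (x - y + ω * z) • x ^ (m + 3) • e1 = 0 := by
  linear_combination (norm := module) (x ^ (m + 3)) • D.X1 + D.h1 + D.z2 (m + 1) (ω * R)
    - D.zp (m + 2) (τ - ω)

theorem Xs2 : (x - y + ω * z) • x ^ (n + 3) • e2 = 0 := by
  linear_combination (norm := module) (x ^ (n + 3)) • D.X2 + D.z1 (n + 1) (ω * F)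

theorem Ys1 : (y - τ * z) • x ^ (m + 3) • e1 = 0 := by
  linear_combination (norm := module) (x ^ (m + 3)) • D.Y1 - D.z2 (m + 1) (τ * R)

theorem Ys2 : (y - τ * z) • x ^ (n + 3) • e2 = 0 := by
  linear_combination (norm := module) (x ^ (n + 3)) • D.Y2 + D.h2 - D.z1 (n + 1) (τ * F)
    - D.zp (n + 2) (τ - ω)

theorem zs1 : z • x ^ (m + 3) • e1 = 0 := by
  linear_combination (norm := module) (x ^ (m + 3)) • D.hz1 + D.z2 (m + 1) R + D.zp (m + 2) 1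

theorem zs2 : z • x ^ (n + 3) • e2 = 0 := by
  linear_combination (norm := module) (x ^ (n + 3)) • D.hz2 + D.z1 (n + 1) F + D.zp (n + 2) 1

/-- `x^3 R` on `e2` etc. -/
theorem R3 : (x ^ (n + 3) * R) • e2 = (η * (τ - ω)) • x ^ (n + 3) • e2 := by
  linear_combination (norm := module) x • D.hR + ρ1 • D.h2

theorem F3 : (x ^ (m + 3) * F) • e1 = (γ * (τ - ω)) • x ^ (m + 3) • e1 := by
  linear_combination (norm := module) x • D.hF + φ1 • D.h1

/-- `X Y = 0` -/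
theorem XY1 : (x - y + ω * z) • (y - τ * z) • e1 = 0 := by
  linear_combination (norm := module) (x - y + ω * z) • D.Y1 - (τ * x ^ (n + 2) * R) • D.X2
    - D.z1 (n) (ω * τ * R * F)

theorem XY2 : (x - y + ω * z) • (y - τ * z) • e2 = 0 := by
  linear_combination (norm := module) (x - y + ω * z) • D.Y2 + x • D.X2
    - (τ * x ^ (m + 2) * F) • D.X1 - (τ - ω) • D.Xp + (ω - τ) • D.F3
    - D.z2 m (τ * ω * R * F) + D.zp (m + 1) (τ * F * (τ - ω))

theorem XYp : (x - y + ω * z) • (y - τ * z) • p = 0 := by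
  linear_combination (norm := module) (x - y + ω * z) • D.Yp - (η * (τ - ω)) • D.Xs2

/-! ### powers of `X` -/

theorem Xq1 : (x - y + ω * z) ^ 2 • e1 = x ^ 2 • e1 +
    (ω * η * (τ - ω)) • x ^ (n + 3) • e2 + (γ * (τ - ω) ^ 2) • x ^ (m + 3) • e1 := by
  linear_combination (norm := module) (x - y + ω * z) • D.X1 + x • D.X1
    + (ω * x ^ (n + 2) * R) • D.X2 - (τ - ω) • D.Xp - (τ - ω) • D.hp + ω • D.R3
    + D.z1 n (ω ^ 2 * F * R)

theorem Xq2 : (x - y + ω * z) ^ 2 • e2 = (ω * γ * (τ - ω)) • x ^ (m + 3) • e1 := by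
  linear_combination (norm := module) (x - y + ω * z) • D.X2 + (ω * x ^ (m + 2) * F) • D.X1
    + ω • D.F3 + D.z2 m (ω ^ 2 * F * R) - D.zp (m + 1) (ω * F * (τ - ω))

theorem Xqp : (x - y + ω * z) ^ 2 • p = 0 := by
  linear_combination (norm := module) (x - y + ω * z) • D.Xp - (γ * (τ - ω)) • D.Xs1

theorem Xc1 (i : ℕ) : (x - y + ω * z) ^ (i + 3) • e1 = x ^ (i + 3) • e1 := by
  induction i with
  | zero =>
    linear_combination (norm := module) (x - y + ω * z) • D.Xq1 + x ^ 2 • D.X1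
      + (ω * η * (τ - ω)) • D.Xs2 + (γ * (τ - ω) ^ 2) • D.Xs1 + D.z2 0 (ω * R)
      - D.zp 1 (τ - ω)
  | succ i ih =>
    linear_combination (norm := module) (x - y + ω * z) • ih + x ^ (i + 3) • D.X1
      + D.z2 (i + 1) (ω * R) - D.zp (i + 2) (τ - ω)

theorem Xc2 (i : ℕ) : (x - y + ω * z) ^ (i + 3) • e2 = 0 := by
  induction i with
  | zero =>
    linear_combination (norm := module) (x - y + ω * z) • D.Xq2 + (ω * γ * (τ - ω)) • D.Xs1
  | succ i ih =>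
    linear_combination (norm := module) (x - y + ω * z) • ih

theorem Xcp (i : ℕ) : (x - y + ω * z) ^ (i + 2) • p = 0 := by
  induction i with
  | zero => exact D.Xqp
  | succ i ih =>
    linear_combination (norm := module) (x - y + ω * z) • ih

/-! ### powers of `Y` -/

theorem Yq2 : (y - τ * z) ^ 2 • e2 = x ^ 2 • e2 -
    (τ * γ * (τ - ω)) • x ^ (m + 3) • e1 + (η * (τ - ω) ^ 2) • x ^ (n + 3) • e2 := by
  linear_combination (norm := module) (y - τ * z) • D.Y2 + x • D.Y2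
    - (τ * x ^ (m + 2) * F) • D.Y1 - (τ - ω) • D.Yp - (τ - ω) • D.hp - τ • D.F3
    + D.z2 m (τ ^ 2 * F * R)

theorem Yq1 : (y - τ * z) ^ 2 • e1 = -((τ * η * (τ - ω)) • x ^ (n + 3) • e2) := by
  linear_combination (norm := module) (y - τ * z) • D.Y1 - (τ * x ^ (n + 2) * R) • D.Y2
    - τ • D.R3 + D.z1 n (τ ^ 2 * F * R) + D.zp (n + 1) (τ * R * (τ - ω))

theorem Yqp : (y - τ * z) ^ 2 • p = 0 := by
  linear_combination (norm := module) (y - τ * z) • D.Yp - (η * (τ - ω)) • D.Ys2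

theorem Yc2 (i : ℕ) : (y - τ * z) ^ (i + 3) • e2 = x ^ (i + 3) • e2 := by
  induction i with
  | zero =>
    linear_combination (norm := module) (y - τ * z) • D.Yq2 + x ^ 2 • D.Y2
      - (τ * γ * (τ - ω)) • D.Ys1 + (η * (τ - ω) ^ 2) • D.Ys2 - D.z1 0 (τ * F)
      - D.zp 1 (τ - ω)
  | succ i ih =>
    linear_combination (norm := module) (y - τ * z) • ih + x ^ (i + 3) • D.Y2
      - D.z1 (i + 1) (τ * F) - D.zp (i + 2) (τ - ω)

theorem Yc1 (i : ℕ) : (y - τ * z) ^ (i + 3) • e1 = 0 := by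
  induction i with
  | zero =>
    linear_combination (norm := module) (y - τ * z) • D.Yq1 - (τ * η * (τ - ω)) • D.Ys2
  | succ i ih =>
    linear_combination (norm := module) (y - τ * z) • ih

theorem Ycp (i : ℕ) : (y - τ * z) ^ (i + 2) • p = 0 := by
  induction i with
  | zero => exact D.Yqp
  | succ i ih =>
    linear_combination (norm := module) (y - τ * z) • ih

/-! ### `X^(m+2) e1`, `Y^(n+2) e2` -/

theorem Xm : (x - y + ω * z) ^ (m + 2) • e1 = x ^ (m + 2) • e1 +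
    (if m = 0 then γ * (τ - ω) ^ 2 else 0) • x ^ (m + 3) • e1 +
    (if m = 0 then ω * η * (τ - ω) else 0) • x ^ (n + 3) • e2 := by
  cases m with
  | zero =>
    rw [if_pos rfl, if_pos rfl]
    linear_combination (norm := module) D.Xq1
  | succ i =>
    rw [if_neg (Nat.succ_ne_zero i), if_neg (Nat.succ_ne_zero i)]
    linear_combination (norm := module) D.Xc1 i

theorem Yn : (y - τ * z) ^ (n + 2) • e2 = x ^ (n + 2) • e2 +
    (if n = 0 then -(τ * γ * (τ - ω)) else 0) • x ^ (m + 3) • e1 +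
    (if n = 0 then η * (τ - ω) ^ 2 else 0) • x ^ (n + 3) • e2 := by
  cases n with
  | zero =>
    rw [if_pos rfl, if_pos rfl]
    linear_combination (norm := module) D.Yq2
  | succ i =>
    rw [if_neg (Nat.succ_ne_zero i), if_neg (Nat.succ_ne_zero i)]
    linear_combination (norm := module) D.Yc2 i

/-! ### `X Z = 0`, `Y Z = 0` -/

theorem Xz1 : (x - y + ω * z) • z • e1 = -((γ * (τ - ω)) • x ^ (m + 3) • e1) := by
  linear_combination (norm := module) z • D.X1 + x • D.hz1 + (ω * x ^ (n + 2) * R) • D.hz2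
    - (τ - ω) • D.hzp + D.R3 + D.hp + D.z1 n (ω * R * F) + D.zp (n + 1) (ω * R)

theorem Xz2 : (x - y + ω * z) • z • e2 = 0 := by
  linear_combination (norm := module) z • D.X2 + (ω * x ^ (m + 2) * F) • D.hz1
    + D.z2 m (ω * R * F) + D.zp (m + 1) (ω * F)

theorem Xzp : (x - y + ω * z) • z • p = 0 := by
  linear_combination (norm := module) z • D.Xp - (γ * (τ - ω)) • D.zs1

theorem Yz1 : (y - τ * z) • z • e1 = 0 := by
  linear_combination (norm := module) z • D.Y1 - (τ * x ^ (n + 2) * R) • D.hz2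
    - D.z1 n (τ * R * F) - D.zp (n + 1) (τ * R)

theorem Yz2 : (y - τ * z) • z • e2 = -((η * (τ - ω)) • x ^ (n + 3) • e2) := by
  linear_combination (norm := module) z • D.Y2 + x • D.hz2 - (τ * x ^ (m + 2) * F) • D.hz1
    - (τ - ω) • D.hzp + D.F3 + D.hp - D.z2 m (τ * R * F) - D.zp (m + 1) (τ * F)

theorem Yzp : (y - τ * z) • z • p = 0 := by
  linear_combination (norm := module) z • D.Yp - (η * (τ - ω)) • D.zs2

theorem XZ1 : (x - y + ω * z) • (z + γ * (τ - ω) * (x - y + ω * z) ^ (m + 2)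
    + η * (τ - ω) * (y - τ * z) ^ (n + 2)) • e1 = 0 := by
  linear_combination (norm := module) D.Xz1 + (γ * (τ - ω)) • D.Xc1 m
    + (η * (τ - ω) * (y - τ * z) ^ (n + 1)) • D.XY1

theorem XZ2 : (x - y + ω * z) • (z + γ * (τ - ω) * (x - y + ω * z) ^ (m + 2)
    + η * (τ - ω) * (y - τ * z) ^ (n + 2)) • e2 = 0 := by
  linear_combination (norm := module) D.Xz2 + (γ * (τ - ω)) • D.Xc2 m
    + (η * (τ - ω) * (y - τ * z) ^ (n + 1)) • D.XY2

theorem XZp : (x - y + ω * z) • (z + γ * (τ - ω) * (x - y + ω * z) ^ (m + 2)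
    + η * (τ - ω) * (y - τ * z) ^ (n + 2)) • p = 0 := by
  linear_combination (norm := module) D.Xzp + (γ * (τ - ω)) • D.Xcp (m + 1)
    + (η * (τ - ω) * (y - τ * z) ^ (n + 1)) • D.XYp

theorem YZ1 : (y - τ * z) • (z + γ * (τ - ω) * (x - y + ω * z) ^ (m + 2)
    + η * (τ - ω) * (y - τ * z) ^ (n + 2)) • e1 = 0 := by
  linear_combination (norm := module) D.Yz1 + (η * (τ - ω)) • D.Yc1 n
    + (γ * (τ - ω) * (x - y + ω * z) ^ (m + 1)) • D.XY1

theorem YZ2 : (y - τ * z) • (z + γ * (τ - ω) * (x - y + ω * z) ^ (m + 2)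
    + η * (τ - ω) * (y - τ * z) ^ (n + 2)) • e2 = 0 := by
  linear_combination (norm := module) D.Yz2 + (η * (τ - ω)) • D.Yc2 n
    + (γ * (τ - ω) * (x - y + ω * z) ^ (m + 1)) • D.XY2

theorem YZp : (y - τ * z) • (z + γ * (τ - ω) * (x - y + ω * z) ^ (m + 2)
    + η * (τ - ω) * (y - τ * z) ^ (n + 2)) • p = 0 := by
  linear_combination (norm := module) D.Yzp + (η * (τ - ω)) • D.Ycp (n + 1)
    + (γ * (τ - ω) * (x - y + ω * z) ^ (m + 1)) • D.XYp

/-! ### the vectors `E1 = e1 + τ x^(n+1) R e2`, `E2 = e2 - ω x^(m+1) F e1` -/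

theorem YE1 : (y - τ * z) • (e1 + (τ * x ^ (n + 1) * R) • e2) =
    -((τ ^ 2 * κ2) • x ^ (m + 3) • e1) := by
  linear_combination (norm := module) D.Y1 + (τ * x ^ (n + 1) * R) • D.Y2
    - τ ^ 2 • D.hκ2 - D.zp n (τ * R * (τ - ω))

theorem XE2 : (x - y + ω * z) • (e2 - (ω * x ^ (m + 1) * F) • e1) =
    -((ω ^ 2 * κ1) • x ^ (n + 3) • e2) := by
  linear_combination (norm := module) D.X2 - (ω * x ^ (m + 1) * F) • D.X1
    - ω ^ 2 • D.hκ1 + D.zp m (ω * F * (τ - ω))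

theorem XpE1 : (x - y + ω * z) ^ (m + 3) • (e1 + (τ * x ^ (n + 1) * R) • e2) =
    x ^ (m + 3) • e1 := by
  linear_combination (norm := module) D.Xc1 m + (τ * x ^ (n + 1) * R) • D.Xc2 m

theorem YpE2 : (y - τ * z) ^ (n + 3) • (e2 - (ω * x ^ (m + 1) * F) • e1) =
    x ^ (n + 3) • e2 := by
  linear_combination (norm := module) D.Yc2 n - (ω * x ^ (m + 1) * F) • D.Yc1 n

/-- `z E1` -/
theorem zE1 : z • (e1 + (τ * x ^ (n + 1) * R) • e2) =
    (x ^ (n + 2) * R) • e2 + p + (τ * κ2) • x ^ (m + 3) • e1 := by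
  linear_combination (norm := module) D.hz1 + (τ * x ^ (n + 1) * R) • D.hz2
    + τ • D.hκ2 + D.zp n (τ * R)

theorem zE2 : z • (e2 - (ω * x ^ (m + 1) * F) • e1) =
    (x ^ (m + 2) * F) • e1 + p - (ω * κ1) • x ^ (n + 3) • e2 := by
  linear_combination (norm := module) D.hz2 - (ω * x ^ (m + 1) * F) • D.hz1
    - ω • D.hκ1 - D.zp m (ω * F)

/-- `z z E1` -/
theorem zzE1 : z • z • (e1 + (τ * x ^ (n + 1) * R) • e2) =
    γ • x ^ (m + 3) • e1 + η • x ^ (n + 3) • e2 := by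
  linear_combination (norm := module) z • D.zE1 + (x ^ (n + 2) * R) • D.hz2 + D.hzp
    + (τ * κ2) • D.zs1 + D.z1 n (R * F) + D.zp (n + 1) R

theorem zzE2 : z • z • (e2 - (ω * x ^ (m + 1) * F) • e1) =
    γ • x ^ (m + 3) • e1 + η • x ^ (n + 3) • e2 := by
  linear_combination (norm := module) z • D.zE2 + (x ^ (m + 2) * F) • D.hz1 + D.hzp
    - (ω * κ1) • D.zs2 + D.z2 m (R * F) + D.zp (m + 1) F

/-- `X^(m+2) E1`, `Y^(n+2) E1`, `X^(m+2) E2`, `Y^(n+2) E2` -/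
theorem XmE1 : (x - y + ω * z) ^ (m + 2) • (e1 + (τ * x ^ (n + 1) * R) • e2) =
    (x - y + ω * z) ^ (m + 2) • e1 := by
  cases m with
  | zero =>
    linear_combination (norm := module) (τ * x ^ (n + 1) * R) • D.Xq2
      + D.z1 n (τ * R * (ω * γ * (τ - ω)))
  | succ i =>
    linear_combination (norm := module) (τ * x ^ (n + 1) * R) • D.Xc2 i

theorem YnE1 : (y - τ * z) ^ (n + 2) • (e1 + (τ * x ^ (n + 1) * R) • e2) = 0 := by
  linear_combination (norm := module) ((y - τ * z) ^ (n + 1)) • D.YE1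
    - (τ ^ 2 * κ2 * (y - τ * z) ^ n) • D.Ys1

theorem YnE2 : (y - τ * z) ^ (n + 2) • (e2 - (ω * x ^ (m + 1) * F) • e1) =
    (y - τ * z) ^ (n + 2) • e2 := by
  cases n with
  | zero =>
    linear_combination (norm := module) (-(ω * x ^ (m + 1) * F)) • D.Yq1
      + D.z2 m (ω * F * (τ * η * (τ - ω)))
  | succ i =>
    linear_combination (norm := module) (-(ω * x ^ (m + 1) * F)) • D.Yc1 i

theorem XmE2 : (x - y + ω * z) ^ (m + 2) • (e2 - (ω * x ^ (m + 1) * F) • e1) = 0 := by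
  linear_combination (norm := module) ((x - y + ω * z) ^ (m + 1)) • D.XE2
    - (ω ^ 2 * κ1 * (x - y + ω * z) ^ m) • D.Xs2

/-- `Z E1 - Z E2` -/
theorem ZE : (z + γ * (τ - ω) * (x - y + ω * z) ^ (m + 2)
      + η * (τ - ω) * (y - τ * z) ^ (n + 2)) • (e1 + (τ * x ^ (n + 1) * R) • e2) =
    (z + γ * (τ - ω) * (x - y + ω * z) ^ (m + 2)
      + η * (τ - ω) * (y - τ * z) ^ (n + 2)) • (e2 - (ω * x ^ (m + 1) * F) • e1) +
    (-φ1 + τ * κ2 + γ * (τ - ω) * (if m = 0 then γ * (τ - ω) ^ 2 else 0)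
      - η * (τ - ω) * (if n = 0 then -(τ * γ * (τ - ω)) else 0)) • x ^ (m + 3) • e1 +
    (ρ1 + ω * κ1 + γ * (τ - ω) * (if m = 0 then ω * η * (τ - ω) else 0)
      - η * (τ - ω) * (if n = 0 then η * (τ - ω) ^ 2 else 0)) • x ^ (n + 3) • e2 := by
  linear_combination (norm := module) D.zE1 - D.zE2 + (γ * (τ - ω)) • D.XmE1
    + (η * (τ - ω)) • D.YnE1 - (γ * (τ - ω)) • D.XmE2 - (η * (τ - ω)) • D.YnE2
    + (γ * (τ - ω)) • D.Xm - (η * (τ - ω)) • D.Yn + D.hR - D.hF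

/-- `Z Z E1`, `Z Z E2` -/
theorem XzE1 : (x - y + ω * z) • z • (e1 + (τ * x ^ (n + 1) * R) • e2) =
    -((γ * (τ - ω)) • x ^ (m + 3) • e1) := by
  linear_combination (norm := module) D.Xz1 + (τ * x ^ (n + 1) * R) • D.Xz2

theorem YzE2 : (y - τ * z) • z • (e2 - (ω * x ^ (m + 1) * F) • e1) =
    -((η * (τ - ω)) • x ^ (n + 3) • e2) := by
  linear_combination (norm := module) D.Yz2 - (ω * x ^ (m + 1) * F) • D.Yz1

theorem zZE1 : z • (z + γ * (τ - ω) * (x - y + ω * z) ^ (m + 2)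
      + η * (τ - ω) * (y - τ * z) ^ (n + 2)) • (e1 + (τ * x ^ (n + 1) * R) • e2) =
    γ • x ^ (m + 3) • e1 + η • x ^ (n + 3) • e2 := by
  linear_combination (norm := module) D.zzE1
    + (γ * (τ - ω) * (x - y + ω * z) ^ (m + 1)) • D.XzE1
    - (γ * (τ - ω) * (γ * (τ - ω)) * (x - y + ω * z) ^ m) • D.Xs1
    + (η * (τ - ω) * z) • D.YnE1

theorem zZE2 : z • (z + γ * (τ - ω) * (x - y + ω * z) ^ (m + 2)
      + η * (τ - ω) * (y - τ * z) ^ (n + 2)) • (e2 - (ω * x ^ (m + 1) * F) • e1) =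
    γ • x ^ (m + 3) • e1 + η • x ^ (n + 3) • e2 := by
  linear_combination (norm := module) D.zzE2
    + (η * (τ - ω) * (y - τ * z) ^ (n + 1)) • D.YzE2
    - (η * (τ - ω) * (η * (τ - ω)) * (y - τ * z) ^ n) • D.Ys2
    + (γ * (τ - ω) * z) • D.XmE2

/-- the final form -/
theorem fin (hf : ∀ s : S, s • e1 = 0 → s • e2 = 0 → s • p = 0 → s = 0) {A1 A2 : S}
    (hA1 : A1 = -φ1 + τ * κ2 + γ * (τ - ω) * (if m = 0 then γ * (τ - ω) ^ 2 else 0)
      - η * (τ - ω) * (if n = 0 then -(τ * γ * (τ - ω)) else 0))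
    (hA2 : A2 = ρ1 + ω * κ1 + γ * (τ - ω) * (if m = 0 then ω * η * (τ - ω) else 0)
      - η * (τ - ω) * (if n = 0 then η * (τ - ω) ^ 2 else 0)) :
    ∃ (X Y Z : S) (E1 E2 P : M), X * Y = 0 ∧ X * Z = 0 ∧ Y * Z = 0 ∧
      X • E2 = 0 ∧ Y • E1 = 0 ∧ Z • E1 = P ∧ Z • E2 = P ∧
      X ^ (m + 3) • E1 = x ^ (m + 3) • e1 ∧ Y ^ (n + 3) • E2 = x ^ (n + 3) • e2 ∧
      Z • P = γ • x ^ (m + 3) • e1 + η • x ^ (n + 3) • e2 ∧
      (∃ w, e1 = E1 + x • w) ∧ (∃ w, e2 = E2 + x • w) ∧ (∃ w, p = z • E1 + x • w) ∧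
      z = Z + A1 * X ^ (m + 3) - A2 * Y ^ (n + 3) - γ * (τ - ω) * X ^ (m + 2)
        - η * (τ - ω) * Y ^ (n + 2) ∧
      y = Y - τ ^ 2 * κ2 * X ^ (m + 3) + τ * z ∧
      x = X - ω ^ 2 * κ1 * Y ^ (n + 3) + y - ω * z := by
  obtain ⟨X, hX⟩ : ∃ X, X = x - y + ω * z := ⟨_, rfl⟩
  obtain ⟨Y, hY⟩ : ∃ Y, Y = y - τ * z := ⟨_, rfl⟩
  obtain ⟨Z, hZ⟩ : ∃ Z, Z = z + γ * (τ - ω) * X ^ (m + 2) + η * (τ - ω) * Y ^ (n + 2) :=
    ⟨_, rfl⟩
  obtain ⟨E1, hE1⟩ : ∃ E1, E1 = e1 + (τ * x ^ (n + 1) * R) • e2 := ⟨_, rfl⟩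
  obtain ⟨E2, hE2⟩ : ∃ E2, E2 = e2 - (ω * x ^ (m + 1) * F) • e1 := ⟨_, rfl⟩
  have hXY : X * Y = 0 := by
    subst hX hY
    exact hf _ (by rw [mul_smul]; exact D.XY1) (by rw [mul_smul]; exact D.XY2)
      (by rw [mul_smul]; exact D.XYp)
  have hXZ : X * Z = 0 := by
    subst hZ
    subst hX hY
    exact hf _ (by rw [mul_smul]; exact D.XZ1) (by rw [mul_smul]; exact D.XZ2)
      (by rw [mul_smul]; exact D.XZp)
  have hYZ : Y * Z = 0 := by
    subst hZ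
    subst hX hY
    exact hf _ (by rw [mul_smul]; exact D.YZ1) (by rw [mul_smul]; exact D.YZ2)
      (by rw [mul_smul]; exact D.YZp)
  have hX4 : X ^ (m + 4) = 0 := by
    subst hX
    exact hf _ (by rw [D.Xc1 (m + 1)]; exact D.h1) (D.Xc2 (m + 1)) (D.Xcp (m + 2))
  have hY4 : Y ^ (n + 4) = 0 := by
    subst hY
    exact hf _ (D.Yc1 (n + 1)) (by rw [D.Yc2 (n + 1)]; exact D.h2) (D.Ycp (n + 2))
  obtain ⟨X', hX'⟩ : ∃ X', X' = X + ω ^ 2 * κ1 * Y ^ (n + 3) := ⟨_, rfl⟩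
  obtain ⟨Y', hY'⟩ : ∃ Y', Y' = Y + τ ^ 2 * κ2 * X ^ (m + 3) := ⟨_, rfl⟩
  obtain ⟨Z', hZ'⟩ : ∃ Z', Z' = Z - A1 * X ^ (m + 3) + A2 * Y ^ (n + 3) := ⟨_, rfl⟩
  have pX : ∀ i, X' ^ (i + 2) = X ^ (i + 2) := by
    intro i
    induction i with
    | zero =>
      rw [hX']
      linear_combination (2 * ω ^ 2 * κ1 * Y ^ (n + 2)) * hXY + (ω ^ 4 * κ1 ^ 2 * Y ^ (n + 2)) * hY4
    | succ i ih =>
      rw [pow_succ, ih, hX']
      linear_combination (ω ^ 2 * κ1 * Y ^ (n + 2) * X ^ (i + 1)) * hXY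
  have pY : ∀ i, Y' ^ (i + 2) = Y ^ (i + 2) := by
    intro i
    induction i with
    | zero =>
      rw [hY']
      linear_combination (2 * τ ^ 2 * κ2 * X ^ (m + 2)) * hXY + (τ ^ 4 * κ2 ^ 2 * X ^ (m + 2)) * hX4
    | succ i ih =>
      rw [pow_succ, ih, hY']
      linear_combination (τ ^ 2 * κ2 * X ^ (m + 2) * Y ^ (i + 1)) * hXY
  -- action on the vectors
  have a1 : X • E2 = -((ω ^ 2 * κ1) • x ^ (n + 3) • e2) := by
    subst hE2 hX; exact D.XE2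
  have a2 : Y • E1 = -((τ ^ 2 * κ2) • x ^ (m + 3) • e1) := by
    subst hE1 hY; exact D.YE1
  have a3 : X ^ (m + 3) • E1 = x ^ (m + 3) • e1 := by
    subst hE1 hX; exact D.XpE1
  have a4 : Y ^ (n + 3) • E2 = x ^ (n + 3) • e2 := by
    subst hE2 hY; exact D.YpE2
  have a5 : Y ^ (n + 3) • E1 = 0 := by
    have h : Y ^ (n + 2) • E1 = 0 := by subst hE1 hY; exact D.YnE1
    linear_combination (norm := module) Y • h
  have a6 : X ^ (m + 3) • E2 = 0 := by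
    have h : X ^ (m + 2) • E2 = 0 := by subst hE2 hX; exact D.XmE2
    linear_combination (norm := module) X • h
  have a7 : Z • E1 = Z • E2 + A1 • x ^ (m + 3) • e1 + A2 • x ^ (n + 3) • e2 := by
    subst hA1 hA2
    subst hZ
    subst hX hY hE1 hE2
    exact D.ZE
  have a8 : z • Z • E1 = γ • x ^ (m + 3) • e1 + η • x ^ (n + 3) • e2 := by
    subst hZ
    subst hX hY hE1
    exact D.zZE1
  have zX : ∀ i, z * X ^ (i + 1) * Z = 0 := by
    intro i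
    linear_combination (z * X ^ i) * hXZ
  refine ⟨X', Y', Z', E1, E2, Z' • E1, ?_, ?_, ?_, ?_, ?_, rfl, ?_, ?_, ?_, ?_, ?_, ?_, ?_,
    ?_, ?_, ?_⟩
  · rw [hX', hY']
    linear_combination hXY + (τ ^ 2 * κ2) * hX4 + (ω ^ 2 * κ1) * hY4
      + (τ ^ 2 * κ2 * ω ^ 2 * κ1 * X ^ (m + 2) * Y ^ (n + 2)) * hXY
  · rw [hX', hZ']
    linear_combination hXZ - A1 * hX4 + (A2 * Y ^ (n + 2)) * hXY
      + (ω ^ 2 * κ1 * Y ^ (n + 2)) * hYZ - (ω ^ 2 * κ1 * A1 * Y ^ (n + 2) * X ^ (m + 2)) * hXY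
      + (ω ^ 2 * κ1 * A2 * Y ^ (n + 2)) * hY4
  · rw [hY', hZ']
    linear_combination hYZ + A2 * hY4 - (A1 * X ^ (m + 2)) * hXY
      + (τ ^ 2 * κ2 * X ^ (m + 2)) * hXZ + (τ ^ 2 * κ2 * A2 * Y ^ (n + 2) * X ^ (m + 2)) * hXY
      - (τ ^ 2 * κ2 * A1 * X ^ (m + 2)) * hX4
  · rw [hX']
    linear_combination (norm := module) a1 + (ω ^ 2 * κ1) • a4
  · rw [hY']
    linear_combination (norm := module) a2 + (τ ^ 2 * κ2) • a3
  · rw [hZ']
    linear_combination (norm := module) (-1 : S) • a7 - A1 • a6 + A2 • a4 + A1 • a3 - A2 • a5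
  · rw [pX (m + 1)]; exact a3
  · rw [pY (n + 1)]; exact a4
  · have h1 : Z' * Z' = z * Z + (γ * (τ - ω) * X ^ (m + 1)) * (X * Z)
        + (η * (τ - ω) * Y ^ (n + 1)) * (Y * Z) + A1 ^ 2 * X ^ (m + 2) * X ^ (m + 4)
        + A2 ^ 2 * Y ^ (n + 2) * Y ^ (n + 4) - 2 * A1 * X ^ (m + 2) * (X * Z)
        + 2 * A2 * Y ^ (n + 2) * (Y * Z) - 2 * A1 * A2 * X ^ (m + 2) * Y ^ (n + 2) * (X * Y) := by
      rw [hZ', hZ]
      ring
    rw [hXZ, hYZ, hXY, hX4, hY4] at h1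
    have h2 : Z' • Z' • E1 = z • Z • E1 := by
      rw [← mul_smul, ← mul_smul, h1]
      congr 1
      ring
    rw [h2, a8]
  · refine ⟨-((τ * x ^ n * R) • e2), ?_⟩
    rw [hE1]
    module
  · refine ⟨(ω * x ^ m * F) • e1, ?_⟩
    rw [hE2]
    module
  · refine ⟨-((x ^ (n + 1) * R) • e2) - (τ * κ2) • x ^ (m + 2) • e1, ?_⟩
    have h := D.zE1
    rw [← hE1] at h
    rw [h]
    module
  · rw [pX (m + 1), pX m, pY (n + 1), pY n, hZ', hZ]
    ring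
  · rw [pX (m + 1), hY', hY]
    ring
  · rw [pY (n + 1), hX', hX]
    ring

end Dat

end Pool.Agent.Lib.D13.GenA
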