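import Pool.Agent.Lib.D13.PurCat

/-!
# MP_5dcbc3_ag: generic points over an extension field
-/

namespace Pool.Agent.Lib.D13.Pur

universe u

open MvPolynomial

/-- finitely many generators of a finitely generated domain contain a transcendence basis; its
number of elements is the dimension -/
theorem exists_indep {k : Type*} [Field k] {σ : Type*} [Fintype σ]
    (p : Ideal (MvPolynomial σ k)) [p.IsPrime] :
    ∃ s : Finset σ, AlgebraicIndependent k (fun i : s => Ideal.Quotient.mk p (X i.1)) ∧
      ringKrullDim (MvPolynomial σ k ⧸ p) = s.card := by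
  classical
  let A := MvPolynomial σ k ⧸ p
  let x : σ → A := fun i => Ideal.Quotient.mk p (X i)
  obtain ⟨n, hn, hn'⟩ := trdeg_eq_dim k (S := A)
  have hadj : Algebra.adjoin k (Set.range x) = ⊤ := by
    have h1 : (⊤ : Subalgebra k A) = (Ideal.Quotient.mkₐ k p).range := by
      rw [eq_comm, AlgHom.range_eq_top]
      exact Ideal.Quotient.mkₐ_surjective k p
    rw [h1, ← Algebra.map_top, ← MvPolynomial.adjoin_range_X, AlgHom.map_adjoin, ← Set.range_comp]
    rfl
  have halg : Algebra.IsAlgebraic (Algebra.adjoin k (Set.range x)) A := by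
    rw [hadj]
    constructor
    intro a
    exact isAlgebraic_algebraMap (A := A) (⟨a, trivial⟩ : (⊤ : Subalgebra k A))
  obtain ⟨t, htx, ht⟩ := exists_isTranscendenceBasis_subset (R := k) (A := A) (Set.range x)
  choose g hg using fun a : t => htx a.2
  have hgi : Function.Injective g := by
    intro a b hab
    apply Subtype.ext
    rw [← hg a, ← hg b, hab]
  have hft : Finite t := Finite.of_injective g hgi
  have := Fintype.ofFinite t
  refine ⟨Finset.univ.image g, ?_, ?_⟩
  · let e : t ≃ (Finset.univ.image g : Finset σ) :=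
      Equiv.ofBijective (fun a => ⟨g a, Finset.mem_image_of_mem g (Finset.mem_univ a)⟩) (by
        constructor
        · intro a b hab
          exact hgi (congrArg Subtype.val hab)
        · rintro ⟨b, hb⟩
          obtain ⟨a, -, rfl⟩ := Finset.mem_image.1 hb
          exact ⟨a, rfl⟩)
    have h1 := ht.1
    rw [← algebraicIndependent_equiv' e]
    · exact h1
    · funext a
      exact hg a
  · rw [hn]
    have h2 := ht.cardinalMk_eq_trdeg
    rw [hn'] at h2
    rw [Finset.card_image_of_injective _ hgi, Finset.card_univ]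
    have h3 : Fintype.card t = n := by
      rw [Cardinal.mk_fintype] at h2
      exact_mod_cast h2
    rw [h3]

/-- **the generic point of a prime ideal** -/
theorem point_of_prime {k : Type u} [Field k] {σ : Type} [Fintype σ]
    (p : Ideal (MvPolynomial σ k)) [p.IsPrime] :
    ∃ (K : Type u) (_ : Field K) (_ : IsAlgClosed K) (_ : Algebra k K) (x : σ → K),
      (∀ f : MvPolynomial σ k, aeval x f = 0 ↔ f ∈ p) ∧
      ∃ s : Finset σ, AlgebraicIndependent k (fun i : s => x i.1) ∧
        ringKrullDim (MvPolynomial σ k ⧸ p) = s.card := by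
  obtain ⟨s, hs, hs'⟩ := exists_indep p
  let A := MvPolynomial σ k ⧸ p
  let L := FractionRing A
  let K := AlgebraicClosure L
  let φ : A →ₐ[k] K := (IsScalarTower.toAlgHom k L K).comp (IsScalarTower.toAlgHom k A L)
  have hφ : Function.Injective φ :=
    (algebraMap L K).injective.comp (IsFractionRing.injective A L)
  refine ⟨K, inferInstance, inferInstance, inferInstance, fun i => φ (Ideal.Quotient.mk p (X i)),
    ?_, s, hs.map' hφ, hs'⟩
  intro f
  have h1 : aeval (fun i => φ (Ideal.Quotient.mk p (X i))) f = φ (Ideal.Quotient.mk p f) := by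
    have h2 : (aeval (fun i => φ (Ideal.Quotient.mk p (X i))) : MvPolynomial σ k →ₐ[k] K) =
        φ.comp (Ideal.Quotient.mkₐ k p) := by
      apply MvPolynomial.algHom_ext
      intro i
      rw [aeval_X]
      rfl
    rw [h2]
    rfl
  rw [h1, ← Ideal.Quotient.eq_zero_iff_mem]
  exact map_eq_zero_iff φ hφ

/-- **G1**: near a common zero of `e` polynomials there is a common zero over an extension field
which specialises to it and whose coordinates have transcendence degree at least `n - e` -/
theorem exists_point_indep {k : Type u} [Field k] {σ : Type} [Fintype σ] {ι : Type*} [Fintype ι]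
    (F : ι → MvPolynomial σ k) (x₀ : σ → k) (h₀ : ∀ i, eval x₀ (F i) = 0) :
    ∃ (K : Type u) (_ : Field K) (_ : IsAlgClosed K) (_ : Algebra k K) (x : σ → K),
      (∀ i, aeval x (F i) = 0) ∧ (∀ f : MvPolynomial σ k, aeval x f = 0 → eval x₀ f = 0) ∧
      ∃ s : Finset σ, AlgebraicIndependent k (fun i : s => x i.1) ∧
        Fintype.card σ ≤ s.card + Fintype.card ι := by
  classical
  let mx : Ideal (MvPolynomial σ k) := RingHom.ker (eval x₀)
  have hmx : mx.IsPrime := RingHom.ker_isPrime _
  have hle : Ideal.span (Set.range F) ≤ mx := by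
    rw [Ideal.span_le]
    rintro _ ⟨i, rfl⟩
    exact RingHom.mem_ker.2 (h₀ i)
  obtain ⟨p, hp, hpm⟩ := Ideal.exists_minimalPrimes_le hle
  have hpp : p.IsPrime := hp.1.1
  have hF : ∀ i, F i ∈ p := fun i => hp.1.2 (Ideal.subset_span ⟨i, rfl⟩)
  have hh : p.height ≤ Fintype.card ι := by
    have h1 : p ∈ (Ideal.span ((Finset.univ.image F : Finset _) :
        Set (MvPolynomial σ k))).minimalPrimes := by
      rwa [Finset.coe_image, Finset.coe_univ, Set.image_univ]
    have h2 := Ideal.height_le_card_of_mem_minimalPrimes_span_finset h1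
    refine h2.trans ?_
    exact_mod_cast (Finset.card_image_le.trans (le_of_eq Finset.card_univ))
  obtain ⟨n, m, h, hn, hm, hh', hmh⟩ := catenary k (S := MvPolynomial σ k) p
  have hdim : n = Fintype.card σ := by
    rw [MvPolynomial.ringKrullDim_of_isNoetherianRing, ringKrullDim_eq_zero_of_field, zero_add,
      Nat.card_eq_fintype_card] at hn
    exact_mod_cast hn.symm
  obtain ⟨K, i1, i2, i3, x, hx, s, hs, hs'⟩ := point_of_prime p
  refine ⟨K, i1, i2, i3, x, fun i => (hx _).2 (hF i), fun f hf =>
    RingHom.mem_ker.1 (hpm ((hx f).1 hf)), s, hs, ?_⟩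
  rw [hm] at hs'
  have h1 : m = s.card := by exact_mod_cast hs'
  rw [hh'] at hh
  have h2 : h ≤ Fintype.card ι := by exact_mod_cast hh
  omega

end Pool.Agent.Lib.D13.Pur
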