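import Mathlib

/-!
# Generic points (MP_5dcbc3_ag)

`rk k s` is the transcendence degree of `k(s)` over `k`. If a system of `e` polynomial equations in
`n` unknowns over an algebraically closed field `k` has the solution `x₀`, it has a solution `x` in an
algebraically closed extension of `k` which specialises to `x₀` and has `rk` at least `n - e`.
-/

namespace Pool.Agent.Lib.D13

open MvPolynomial

/-- the transcendence degree of `k(s)` over `k` -/
noncomputable def rk (k : Type*) {K : Type*} [Field k] [Field K] [Algebra k K] (s : Set K) : ℕ∞ :=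
  (AlgebraicIndependent.matroid k K).eRk s

namespace GenAux

section

variable {k : Type*} [Field k]

theorem trdeg_quot_lt {A : Type*} [CommRing A] [Algebra k A] [Algebra.FiniteType k A]
    {P Q : Ideal A} [P.IsPrime] [Q.IsPrime] (h : P < Q) :
    Algebra.trdeg k (A ⧸ Q) < Algebra.trdeg k (A ⧸ P) := by
  by_contra hc
  push Not at hc
  have : Algebra.FiniteType k (A ⧸ Q) := Algebra.FiniteType.of_surjective
    (Ideal.Quotient.mkₐ k Q) (Ideal.Quotient.mkₐ_surjective k Q)
  have : Algebra.FiniteType k (A ⧸ P) := Algebra.FiniteType.of_surjective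
    (Ideal.Quotient.mkₐ k P) (Ideal.Quotient.mkₐ_surjective k P)
  have : Nontrivial (A ⧸ Q) := Ideal.Quotient.nontrivial_iff.2 (Ideal.IsPrime.ne_top ‹_›)
  have : Nontrivial (A ⧸ P) := Ideal.Quotient.nontrivial_iff.2 (Ideal.IsPrime.ne_top ‹_›)
  obtain ⟨s, hs⟩ := exists_isTranscendenceBasis k (A ⧸ Q)
  let π : (A ⧸ P) →ₐ[k] (A ⧸ Q) := Ideal.Quotient.factorₐ k h.le
  have hπ : Function.Surjective π := Ideal.Quotient.factor_surjective h.le
  choose y hy using fun a : s => hπ a
  have hy' : (π ∘ y) = ((↑) : s → A ⧸ Q) := funext hy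
  have hind : AlgebraicIndependent k y := by
    refine AlgebraicIndependent.of_comp π ?_
    rw [hy']
    exact hs.1
  have hb : IsTranscendenceBasis k y := by
    refine hind.isTranscendenceBasis_of_trdeg_le trdeg_lt_aleph0_of_finiteType ?_
    rw [hs.cardinalMk_eq_trdeg]
    exact hc
  obtain ⟨a, haQ, haP⟩ := Set.exists_of_ssubset h
  let f : A ⧸ P := Ideal.Quotient.mk P a
  have hf : f ≠ 0 := fun h0 => haP (Ideal.Quotient.eq_zero_iff_mem.1 h0)
  have hf0 : π f = 0 := Ideal.Quotient.eq_zero_iff_mem.2 haQ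
  have halg := hb.isAlgebraic
  obtain ⟨r, hr, hd⟩ := (halg.isAlgebraic f).exists_nonzero_dvd (mem_nonZeroDivisors_of_ne_zero hf)
  have hr0 : π (r : A ⧸ P) = 0 := by
    obtain ⟨c, hc⟩ := hd
    have : (r : A ⧸ P) = f * c := hc
    rw [this, map_mul, hf0, zero_mul]
  obtain ⟨p, hp⟩ : ∃ p : MvPolynomial s k, aeval y p = (r : A ⧸ P) := by
    have h1 : (r : A ⧸ P) ∈ (aeval y : MvPolynomial s k →ₐ[k] A ⧸ P).range := by
      rw [← Algebra.adjoin_range_eq_range_aeval]
      exact r.2
    exact h1
  have h2 : aeval (π ∘ y) p = 0 := by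
    rw [← hr0, ← hp]
    exact (MvPolynomial.comp_aeval_apply y π p).symm
  rw [hy'] at h2
  have h3 : p = 0 := hs.1.eq_zero_of_aeval_eq_zero p h2
  rw [h3, map_zero] at hp
  exact hr (Subtype.ext hp.symm)

theorem length_le {A : Type*} [CommRing A] [Algebra k A] [Algebra.FiniteType k A]
    (l : LTSeries (PrimeSpectrum A)) :
    (l.length : Cardinal) ≤ Algebra.trdeg k (A ⧸ l.head.asIdeal) := by
  have key : ∀ i : ℕ, ∀ hi : i < l.length + 1,
      Algebra.trdeg k (A ⧸ (l ⟨i, hi⟩).asIdeal) + i ≤ Algebra.trdeg k (A ⧸ l.head.asIdeal) := by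
    intro i
    induction i with
    | zero =>
      intro hi
      have h1 : l ⟨0, hi⟩ = l.head := rfl
      rw [h1, Nat.cast_zero, add_zero]
    | succ i ih =>
      intro hi
      have h1 := l.step ⟨i, by omega⟩
      have h2 : Algebra.trdeg k (A ⧸ (l ⟨i + 1, hi⟩).asIdeal) <
          Algebra.trdeg k (A ⧸ (l ⟨i, by omega⟩).asIdeal) :=
        trdeg_quot_lt (k := k) h1
      have h3 := Cardinal.add_one_le_of_lt h2
      calc Algebra.trdeg k (A ⧸ (l ⟨i + 1, hi⟩).asIdeal) + ((i + 1 : ℕ) : Cardinal)
          = (Algebra.trdeg k (A ⧸ (l ⟨i + 1, hi⟩).asIdeal) + 1) + i := by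
            push_cast; ring
        _ ≤ Algebra.trdeg k (A ⧸ (l ⟨i, by omega⟩).asIdeal) + i := by gcongr
        _ ≤ _ := ih (by omega)
  have h1 := key l.length (by omega)
  exact le_trans (by simp) h1

end

theorem height_max {k : Type*} [Field k] (ι : Type*) [Finite ι]
    (M : Ideal (MvPolynomial ι k)) (hM : M.IsMaximal) : (Nat.card ι : ℕ∞) ≤ M.height := by
  induction ι using Finite.induction_empty_option with
  | of_equiv e H =>
    rename_i α β
    have e' := (MvPolynomial.renameEquiv k e).symm.toRingEquiv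
    rw [← e'.height_map M, Nat.card_congr e.symm]
    exact H _ (Ideal.map_isMaximal_of_equiv e')
  | h_empty => simp
  | h_option IH =>
    rename_i α _
    have e' := (MvPolynomial.optionEquivLeft k α).toRingEquiv
    rw [← e'.height_map M]
    have hM' : (M.map e').IsMaximal := Ideal.map_isMaximal_of_equiv e'
    have hc : ((M.map e').under (MvPolynomial α k)).IsMaximal :=
      Polynomial.isMaximal_comap_C_of_isJacobsonRing (M.map e')
    rw [Polynomial.height_eq_height_add_one ((M.map e').under (MvPolynomial α k)) (M.map e')]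
    have := IH _ hc
    simp only [Nat.card_eq_fintype_card, Fintype.card_option, Nat.cast_add, Nat.cast_one] at this ⊢
    gcongr

end GenAux

section

variable {k K : Type*} [Field k] [Field K] [Algebra k K]

theorem rk_eq_trdeg {s : Set K} (h : Algebra.IsAlgebraic (Algebra.adjoin k s) K) :
    rk k s = (Algebra.trdeg k K).toENat := by
  unfold rk
  rw [(AlgebraicIndependent.matroid_spanning_iff.2 h).eRk_eq, ← Matroid.toENat_cRank_eq,
    AlgebraicIndependent.matroid_cRank_eq]

end

universe u

theorem exists_point {k : Type u} [Field k] [IsAlgClosed k] {ι : Type} [Fintype ι]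
    (s : Set (MvPolynomial ι k)) (x₀ : ι → k) (hs : ∀ f ∈ s, eval x₀ f = 0) :
    ∃ (K : Type u) (_ : Field K) (_ : Algebra k K) (_ : IsAlgClosed K) (x : ι → K),
      (∀ f ∈ s, aeval x f = 0) ∧ (∀ f : MvPolynomial ι k, aeval x f = 0 → eval x₀ f = 0) ∧
      (Fintype.card ι : ℕ∞) ≤ rk k (Set.range x) + s.encard := by
  classical
  let m : Ideal (MvPolynomial ι k) := RingHom.ker (eval x₀)
  have hm : m.IsMaximal := RingHom.ker_isMaximal_of_surjective _ fun a => ⟨C a, by simp⟩
  have hsm : s ⊆ m := fun f hf => hs f hf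
  have hsm' : Ideal.span s ≤ m := Ideal.span_le.2 hsm
  have h1 := Ideal.height_le_height_add_encard_of_subset s hsm
  have h2 := GenAux.height_max ι m hm
  have hp := Ideal.isPrime_map_quotientMk_of_isPrime hsm'
  obtain ⟨l, hl, hlen⟩ := (m.map (Ideal.Quotient.mk (Ideal.span s))).exists_ltSeries_length_eq_height
  let A := MvPolynomial ι k ⧸ Ideal.span s
  let D := A ⧸ l.head.asIdeal
  let F := FractionRing D
  let K := AlgebraicClosure F
  have hA : Algebra.FiniteType k A := Algebra.FiniteType.of_surjective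
    (Ideal.Quotient.mkₐ k (Ideal.span s)) (Ideal.Quotient.mkₐ_surjective k _)
  have hlt : (l.length : Cardinal) ≤ Algebra.trdeg k D := GenAux.length_le (k := k) l
  let ψ : D →ₐ[k] K := (IsScalarTower.toAlgHom k F K).comp (IsScalarTower.toAlgHom k D F)
  have hψ : Function.Injective ψ :=
    (FaithfulSMul.algebraMap_injective F K).comp (FaithfulSMul.algebraMap_injective D F)
  let φ : MvPolynomial ι k →ₐ[k] K := ψ.comp
    ((Ideal.Quotient.mkₐ k l.head.asIdeal).comp (Ideal.Quotient.mkₐ k (Ideal.span s)))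
  have hφ : ∀ f, aeval (fun i => φ (X i)) f = φ f := fun f =>
    (congrArg (fun g : MvPolynomial ι k →ₐ[k] K => g f) (MvPolynomial.aeval_unique φ)).symm
  refine ⟨K, inferInstance, inferInstance, inferInstance, fun i => φ (X i), ?_, ?_, ?_⟩
  · intro f hf
    rw [hφ]
    have h3 : Ideal.Quotient.mk (Ideal.span s) f = 0 :=
      Ideal.Quotient.eq_zero_iff_mem.2 (Ideal.subset_span hf)
    change ψ (Ideal.Quotient.mk _ (Ideal.Quotient.mk (Ideal.span s) f)) = 0
    rw [h3, map_zero, map_zero]
  · intro f hf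
    rw [hφ] at hf
    have h3 : Ideal.Quotient.mk l.head.asIdeal (Ideal.Quotient.mk (Ideal.span s) f) = 0 :=
      hψ (hf.trans (map_zero ψ).symm)
    have h4 := Ideal.Quotient.eq_zero_iff_mem.1 h3
    have h5 : l.head.asIdeal ≤ m.map (Ideal.Quotient.mk (Ideal.span s)) := by
      have := l.head_le_last
      rw [hl] at this
      exact this
    have h6 := h5 h4
    have h7 : f ∈ (m.map (Ideal.Quotient.mk (Ideal.span s))).comap
        (Ideal.Quotient.mk (Ideal.span s)) := h6
    rw [Ideal.comap_map_quotientMk, sup_eq_right.2 hsm'] at h7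
    exact h7
  · have halg : Algebra.IsAlgebraic (Algebra.adjoin k (Set.range fun i => φ (X i))) K := by
      have h3 : Algebra.adjoin k (Set.range fun i => φ (X i)) = ψ.range := by
        rw [Algebra.adjoin_range_eq_range_aeval]
        ext a
        constructor
        · rintro ⟨f, rfl⟩
          exact ⟨_, (hφ f).symm⟩
        · rintro ⟨d, rfl⟩
          obtain ⟨a, rfl⟩ := Ideal.Quotient.mk_surjective d
          obtain ⟨f, rfl⟩ := Ideal.Quotient.mk_surjective a
          exact ⟨f, hφ f⟩
      rw [h3]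
      have h4 : Algebra.IsAlgebraic D K :=
        (IsFractionRing.comap_isAlgebraic_iff (A := D) (K := F) (C := K)).2 inferInstance
      exact Algebra.IsAlgebraic.ringHom_of_comp_eq (R := D) (A := K) ψ.rangeRestrict
        (RingHom.id K) ((ψ.injective_codRestrict _ _).2 hψ) Function.surjective_id rfl
    rw [rk_eq_trdeg halg]
    have h3 : Algebra.trdeg k D ≤ Algebra.trdeg k K := trdeg_le_of_injective ψ hψ
    have h4 : (l.length : ℕ∞) ≤ (Algebra.trdeg k K).toENat := by
      have := Cardinal.toENat.monotone' (hlt.trans h3)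
      simpa using this
    calc (Fintype.card ι : ℕ∞) = Nat.card ι := by rw [Nat.card_eq_fintype_card]
      _ ≤ m.height := h2
      _ ≤ _ := h1
      _ ≤ _ := by
        rw [← hlen]
        gcongr

end Pool.Agent.Lib.D13
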