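import Mathlib

/-!
# MP_5dcbc3_ag: every matrix commutes with a matrix that has a cyclic row vector

`good`: over an algebraically closed field every `n x n` matrix `Q` commutes with a matrix `R` such that for some row
vector `om` the rows `om R ^ i`, `i < n`, form a basis.  (`W = sum of k[x] / (p_i ^ e_i)`, `R = Q + c_i` on the `i`-th
summand, with all `c_i + (root of p_i)` distinct; Chinese remainder theorem.)
-/

namespace Pool.Agent.Lib.D13

open Matrix Polynomial

variable {k : Type*} [Field k]

/-- a common solution of shifted congruences -/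
theorem good_crt [IsAlgClosed k] {ι : Type*} [Finite ι] (p : ι → k[X]) (hp : ∀ i, Irreducible (p i)) (e : ι → ℕ) :
    ∃ c : ι → k, ∀ y : ι → k[X], ∃ g : k[X], ∀ i, p i ^ e i ∣ g.comp (X + C (c i)) - y i := by
  classical
  have hroot : ∀ i, ∃ a : k, ∃ u : k, u ≠ 0 ∧ p i = C u * (X - C a) := by
    intro i
    have hdeg : (p i).degree = 1 := IsAlgClosed.degree_eq_one_of_irreducible k (hp i)
    obtain ⟨a, ha⟩ := IsAlgClosed.exists_root (p i) (by rw [hdeg]; exact one_ne_zero)
    obtain ⟨q, hq⟩ := dvd_iff_isRoot.2 ha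
    have hq0 : q ≠ 0 := by rintro rfl; simp at hq; exact (hp i).ne_zero hq
    have hdq : q.degree = 0 := by
      have h1 : (p i).natDegree = 1 := natDegree_eq_of_degree_eq_some hdeg
      rw [hq, natDegree_mul (X_sub_C_ne_zero a) hq0, natDegree_X_sub_C] at h1
      rw [degree_eq_natDegree hq0]
      have : q.natDegree = 0 := by omega
      simp [this]
    rw [eq_C_of_degree_eq_zero hdq] at hq hq0
    exact ⟨a, q.coeff 0, fun h => hq0 (by simp [h]), by rw [hq, mul_comm]⟩
  choose a u hu hpa using hroot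
  have := Fintype.ofFinite ι
  obtain ⟨b⟩ : Nonempty (ι ↪ k) := by
    have : Infinite k := IsAlgClosed.instInfinite
    exact ⟨(Fintype.equivFin ι).toEmbedding.trans ((Fin.valEmbedding).trans (Infinite.natEmbedding k))⟩
  refine ⟨fun i => b i - a i, fun y => ?_⟩
  have hcop : Pairwise (Function.onFun IsCoprime fun i => Ideal.span {(X - C (b i)) ^ e i}) := by
    intro i j hij
    simp only [Function.onFun]
    rw [Ideal.isCoprime_span_singleton_iff]
    exact (pairwise_coprime_X_sub_C b.injective hij).pow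
  obtain ⟨g, hg⟩ := Ideal.exists_forall_sub_mem_ideal hcop (fun i => (y i).comp (X - C (b i - a i)))
  refine ⟨g, fun i => ?_⟩
  obtain ⟨q, hq⟩ := Ideal.mem_span_singleton.1 (hg i)
  have h1 : g = (y i).comp (X - C (b i - a i)) + (X - C (b i)) ^ e i * q := by rw [← hq]; ring
  have h2 : g.comp (X + C (b i - a i)) - y i = (X - C (a i)) ^ e i * q.comp (X + C (b i - a i)) := by
    conv_lhs => rw [h1]
    rw [add_comp, mul_comp, pow_comp, comp_assoc]
    simp only [sub_comp, X_comp, C_comp, map_sub, add_sub_cancel_right]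
    rw [comp_X, show (X + (C (b i) - C (a i)) - C (b i) : k[X]) = X - C (a i) by ring]
    ring
  rw [h2, hpa i, mul_pow]
  refine Dvd.dvd.mul_right ?_ _
  refine ⟨C (u i)⁻¹ ^ e i, ?_⟩
  rw [mul_assoc, mul_comm ((X - C (a i)) ^ e i), ← mul_assoc, ← mul_pow, ← C_mul, mul_inv_cancel₀ (hu i)]
  simp

/-- every endomorphism commutes with one that has a cyclic vector -/
theorem good_end [IsAlgClosed k] {n : ℕ} (φ : Module.End k (Fin n → k)) :
    ∃ ψ : Module.End k (Fin n → k), φ * ψ = ψ * φ ∧ ∃ w : Fin n → k, ∀ v : Fin n → k, ∃ g : k[X], aeval ψ g w = v := by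
  classical
  have htor : Module.IsTorsion k[X] (Module.AEval' φ) := Module.AEval.isTorsion_of_finiteDimensional _ _ _
  obtain ⟨ι, _, p, hp, e, ⟨E⟩⟩ := Module.equiv_directSum_of_isTorsion htor
  obtain ⟨c, hc⟩ := good_crt p hp e
  -- the sum as a product
  let L : (DirectSum ι fun i => k[X] ⧸ Submodule.span k[X] {p i ^ e i}) ≃ₗ[k[X]]
      ((i : ι) → k[X] ⧸ Submodule.span k[X] {p i ^ e i}) := DirectSum.linearEquivFunOnFintype k[X] ι _
  let F := E.trans L
  let Rm : ((i : ι) → k[X] ⧸ Submodule.span k[X] {p i ^ e i}) →ₗ[k[X]]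
      ((i : ι) → k[X] ⧸ Submodule.span k[X] {p i ^ e i}) :=
    LinearMap.pi fun i => (X + C (c i)) • LinearMap.proj i
  let S : Module.AEval' φ →ₗ[k[X]] Module.AEval' φ := F.symm.toLinearMap ∘ₗ Rm ∘ₗ F.toLinearMap
  let o := Module.AEval'.of φ
  let ψ : Module.End k (Fin n → k) := o.symm.toLinearMap ∘ₗ (S.restrictScalars k) ∘ₗ o.toLinearMap
  have hψ : ∀ v, o (ψ v) = S (o v) := fun v => by simp [ψ]
  have hF : ∀ v, F (o (ψ v)) = Rm (F (o v)) := fun v => by rw [hψ]; simp [S]
  have hpow : ∀ (g : k[X]) (v : Fin n → k) (i : ι), F (o (aeval ψ g v)) i = g.comp (X + C (c i)) • F (o v) i := by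
    intro g v i
    induction g using Polynomial.induction_on' with
    | add g h hg hh =>
      rw [map_add, LinearMap.add_apply, map_add, map_add, Pi.add_apply, hg, hh, add_comp, add_smul]
    | monomial m a =>
      rw [← C_mul_X_pow_eq_monomial, map_mul, aeval_C, map_pow, aeval_X, mul_comp, C_comp, pow_comp, X_comp]
      have h1 : ∀ m : ℕ, F (o ((ψ ^ m) v)) i = (X + C (c i)) ^ m • F (o v) i := by
        intro m
        induction m with
        | zero => simp
        | succ m ih =>
          rw [pow_succ', Module.End.mul_apply, hF]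
          show (X + C (c i)) • F (o ((ψ ^ m) v)) i = _
          rw [ih, smul_smul, pow_succ']
      rw [Module.End.mul_apply, Module.algebraMap_end_apply]
      have h2 : ∀ (a : k) (v : Fin n → k), F (o (a • v)) i = (C a : k[X]) • F (o v) i := by
        intro a v
        rw [map_smul, ← algebraMap_smul k[X] a (o v), map_smul]
        rfl
      rw [h2, h1, smul_smul]
  refine ⟨ψ, ?_, o.symm (F.symm fun _ => Submodule.Quotient.mk 1), fun v => ?_⟩
  · refine LinearMap.ext fun v => o.injective ?_
    rw [Module.End.mul_apply, Module.End.mul_apply, ← Module.AEval'.X_smul_of, hψ, hψ, ← Module.AEval'.X_smul_of,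
      map_smul]
  · have : ∀ i, ∃ y : k[X], F (o v) i = Submodule.Quotient.mk y := fun i =>
      (Submodule.Quotient.mk_surjective _ (F (o v) i)).imp fun _ h => h.symm
    choose y hy using this
    obtain ⟨g, hg⟩ := hc y
    refine ⟨g, o.injective (F.injective (funext fun i => ?_))⟩
    rw [hpow, hy]
    simp only [LinearEquiv.apply_symm_apply]
    rw [← Submodule.Quotient.mk_smul, smul_eq_mul, mul_one, Submodule.Quotient.eq, Submodule.mem_span_singleton]
    obtain ⟨q, hq⟩ := hg i
    exact ⟨q, by rw [hq, smul_eq_mul, mul_comm]⟩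

/-- every matrix over an algebraically closed field commutes with a matrix that has a cyclic row vector -/
theorem good [IsAlgClosed k] {n : ℕ} (Q : Matrix (Fin n) (Fin n) k) :
    ∃ R : Matrix (Fin n) (Fin n) k, Q * R = R * Q ∧ ∃ om : Fin n → k,
      (Matrix.of fun i : Fin n => om ᵥ* R ^ (i : ℕ)).det ≠ 0 := by
  obtain ⟨ψ, hψ, w, hw⟩ := good_end (Matrix.toLin' Qᵀ)
  set R' : Matrix (Fin n) (Fin n) k := LinearMap.toMatrix' ψ with hR'
  have hψR : ψ = Matrix.toLin' R' := by rw [hR', Matrix.toLin'_toMatrix']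
  have hcomm : Qᵀ * R' = R' * Qᵀ := by
    apply Matrix.toLin'.injective
    rw [Matrix.toLin'_mul, Matrix.toLin'_mul, ← hψR]
    exact hψ
  refine ⟨R'ᵀ, ?_, w, fun hdet => ?_⟩
  · rw [← Matrix.transpose_inj, Matrix.transpose_mul, Matrix.transpose_mul, Matrix.transpose_transpose, hcomm]
  · obtain ⟨x, hx, hx0⟩ := Matrix.exists_mulVec_eq_zero_iff.2 hdet
    apply hx
    have h1 : ∀ i : ℕ, i < n → (R' ^ i *ᵥ w) ⬝ᵥ x = 0 := by
      intro i hi
      have := congrFun hx0 ⟨i, hi⟩
      simp only [Matrix.mulVec, Matrix.of_apply, Pi.zero_apply] at this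
      rw [← Matrix.transpose_pow, Matrix.vecMul_transpose] at this
      exact this
    have h2 : ∀ g : k[X], g.degree < n → (aeval R' g *ᵥ w) ⬝ᵥ x = 0 := by
      intro g hg
      rcases eq_or_ne g 0 with rfl | hg0
      · simp
      rw [aeval_eq_sum_range, Matrix.sum_mulVec, sum_dotProduct]
      refine Finset.sum_eq_zero fun i hi => ?_
      rw [Matrix.smul_mulVec, smul_dotProduct, h1 i, smul_zero]
      rw [degree_eq_natDegree hg0] at hg
      have : g.natDegree < n := by exact_mod_cast hg
      have := Finset.mem_range.1 hi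
      omega
    have h3 : ∀ g : k[X], (aeval R' g *ᵥ w) ⬝ᵥ x = 0 := by
      intro g
      have hm : R'.charpoly.Monic := Matrix.charpoly_monic _
      have h4 : aeval R' g = aeval R' (g %ₘ R'.charpoly) := by
        conv_lhs => rw [← modByMonic_add_div g R'.charpoly]
        rw [map_add, map_mul, Matrix.aeval_self_charpoly, zero_mul, add_zero]
      rw [h4]
      refine h2 _ ?_
      have := degree_modByMonic_lt g hm
      rwa [Matrix.charpoly_degree_eq_dim, Fintype.card_fin] at this
    have h5 : ∀ v : Fin n → k, v ⬝ᵥ x = 0 := by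
      intro v
      obtain ⟨g, hg⟩ := hw v
      rw [← hg, hψR]
      have : aeval (Matrix.toLin' R') g = Matrix.toLin' (aeval R' g) := by
        have := Polynomial.aeval_algHom_apply (Matrix.toLinAlgEquiv' (R := k) (n := Fin n)).toAlgHom R' g
        exact this
      rw [this, Matrix.toLin'_apply]
      exact h3 g
    funext i
    have := h5 (Pi.single i 1)
    simpa using this

end Pool.Agent.Lib.D13
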