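import Pool.Agent.Lib.D7.Api

/-!
# MP_5dcbc3_ag: the ranks of the powers of initial forms of the elements of a maximal bad triple
-/

namespace Pool.Agent.Lib.D13

open Matrix Pool.Agent.Lib.Q5dc Pool.Agent.Lib.D7

variable {k n : Type*} [Field k] [Fintype n] [DecidableEq n]

/-- the part of degree `b` of `B` with respect to the weights `wt` -/
def inPart (wt : n → ℕ) (b : ℕ) (B : Matrix n n k) : Matrix n n k :=
  Matrix.of fun i j => if wt i = wt j + b then B i j else 0

/-- `J` homogeneous of degree `a`, `B` of degrees at least `b ≤ a`: the powers of `J + B_b` have at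
most the ranks `ρ` -/
theorem MaxR.graded [Infinite k] {ρ : ℕ → ℕ} {T : Fin 3 → Matrix n n k} (hT : MaxR ρ T)
    {J B : Matrix n n k} (hJ : J ∈ adj T) (hB : B ∈ adj T) (wt : n → ℕ) (a b : ℕ) (hab : b ≤ a)
    (hJw : ∀ i j, J i j ≠ 0 → wt i = wt j + a) (hBw : ∀ i j, B i j ≠ 0 → wt j + b ≤ wt i)
    (e : ℕ) : ((J + inPart wt b B) ^ e).rank ≤ ρ e := by
  classical
  obtain ⟨c, hc⟩ : ∃ c : k → Matrix n n k,
      c = fun s => Matrix.of fun i j => J i j + s ^ (wt i - (wt j + b)) * B i j := ⟨_, rfl⟩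
  have hp : ∀ x y, IsPoly fun s => c s x y := by
    intro x y
    refine ⟨Polynomial.C (J x y) + Polynomial.X ^ (wt x - (wt y + b)) * Polynomial.C (B x y),
      fun s => ?_⟩
    simp [hc]
    ring
  have h0 : c 0 = J + inPart wt b B := by
    rw [hc]
    ext i j
    show J i j + 0 ^ (wt i - (wt j + b)) * B i j = J i j + if wt i = wt j + b then B i j else 0
    congr 1
    by_cases h : wt i = wt j + b
    · rw [if_pos h, h, Nat.sub_self, pow_zero, one_mul]
    · rw [if_neg h]
      by_cases hz : B i j = 0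
      · rw [hz, mul_zero]
      · have := hBw i j hz
        rw [zero_pow (by omega), zero_mul]
  have hs : ∀ s : k, s ≠ 0 → (c s ^ e).rank ≤ ρ e := by
    intro s hs
    obtain ⟨D, hD⟩ : ∃ D : Matrix n n k, D = Matrix.diagonal fun i => s ^ wt i := ⟨_, rfl⟩
    obtain ⟨D', hD'⟩ : ∃ D' : Matrix n n k, D' = Matrix.diagonal fun i => (s ^ wt i)⁻¹ := ⟨_, rfl⟩
    have h1 : D * D' = 1 := by
      rw [hD, hD', Matrix.diagonal_mul_diagonal, ← Matrix.diagonal_one]
      congr 1
      funext i
      exact mul_inv_cancel₀ (pow_ne_zero _ hs)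
    have h2 : D' * D = 1 := by
      rw [hD, hD', Matrix.diagonal_mul_diagonal, ← Matrix.diagonal_one]
      congr 1
      funext i
      exact inv_mul_cancel₀ (pow_ne_zero _ hs)
    have h3 : s ^ a • c s = D * (J + s ^ (a - b) • B) * D' := by
      rw [hc, hD, hD']
      ext i j
      rw [Matrix.mul_diagonal, Matrix.diagonal_mul, Matrix.smul_apply, Matrix.add_apply,
        Matrix.smul_apply]
      show s ^ a * (J i j + s ^ (wt i - (wt j + b)) * B i j) =
        s ^ wt i * (J i j + s ^ (a - b) * B i j) * (s ^ wt j)⁻¹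
      have hj : s ^ wt j ≠ 0 := pow_ne_zero _ hs
      rw [eq_mul_inv_iff_mul_eq₀ hj]
      have e1 : s ^ a * J i j * s ^ wt j = s ^ wt i * J i j := by
        by_cases hz : J i j = 0
        · rw [hz]; ring
        · rw [hJw i j hz, pow_add]; ring
      have e2 : s ^ a * (s ^ (wt i - (wt j + b)) * B i j) * s ^ wt j =
          s ^ wt i * (s ^ (a - b) * B i j) := by
        by_cases hz : B i j = 0
        · rw [hz]; ring
        · have h := hBw i j hz
          have e3 : s ^ a * s ^ (wt i - (wt j + b)) * s ^ wt j = s ^ wt i * s ^ (a - b) := by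
            rw [← pow_add, ← pow_add, ← pow_add]
            congr 1
            omega
          linear_combination B i j * e3
      linear_combination e1 + e2
    have h4 : (s ^ a • c s) ^ e = D * (J + s ^ (a - b) • B) ^ e * D' := by
      rw [h3, conj_pow' D D' h1 h2]
    have h5 : ((s ^ a • c s) ^ e).rank ≤ ρ e := by
      rw [h4, rank_conj D D' h1 h2]
      exact hT.rank_le (add_mem hJ (SMulMemClass.smul_mem _ hB)) e
    have h6 : c s ^ e = ((s ^ a)⁻¹) ^ e • (s ^ a • c s) ^ e := by
      rw [← _root_.smul_pow, smul_smul, inv_mul_cancel₀ (pow_ne_zero _ hs), one_smul]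
    rw [h6]
    refine le_trans ?_ h5
    have h7 : (((s ^ a)⁻¹) ^ e • (s ^ a • c s) ^ e) =
        (((s ^ a)⁻¹) ^ e • (1 : Matrix n n k)) * (s ^ a • c s) ^ e := by
      rw [smul_mul_assoc, one_mul]
    rw [h7]
    exact Matrix.rank_mul_le_right _ _
  have hf := rank_semicont (fun s => c s ^ e) (isPoly_pow hp e) 0
  obtain ⟨s, hs1⟩ := ((hf.union (Set.finite_singleton (0 : k))).infinite_compl).nonempty
  rw [Set.mem_compl_iff, Set.mem_union, not_or] at hs1
  have h8 : (c 0 ^ e).rank ≤ (c s ^ e).rank := not_lt.1 hs1.1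
  rw [← h0]
  exact h8.trans (hs s hs1.2)

end Pool.Agent.Lib.D13
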