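import Pool.Agent.Lib.D13.N4321
import Pool.Agent.Lib.D7.T32S

/-!
# MP_5dcbc3_ag: type `(4, 3, 2, 1)`: the shape lemma, duality, linear changes, changes of the basis

* `h14_shape`: a nilpotent matrix commuting with `J` is `X P` plus a polynomial in `J`;
* `MaxR.shape`: a maximal bad triple `T` with `T 0 = J` gives one of the form `![J, X P, X P']`;
* `MaxR.lin`, `MaxR.swap`: `GL2` acting on the pair `(X P, X P')`;
* `MaxR.base`: the change of the basis by `1 + X Q` (with a correction by polynomials in `J`);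
* `MaxR.scale`: the change of the basis by a diagonal matrix;
* `MaxR.dual`: duality.
-/

set_option autoImplicit false

namespace Pool.Agent.Lib.D13.T4321

open Matrix Pool.Agent.Lib.Q5dc Pool.Agent.Lib.D7

variable {k : Type*} [Field k]

/-! ### nilpotent lower triangular matrices -/

theorem diag_zero {n : ℕ} {M : Matrix (Fin n) (Fin n) k} (h : ∀ i j, i < j → M i j = 0)
    (hn : IsNilpotent M) (i : Fin n) : M i i = 0 := by
  obtain ⟨N, hN⟩ := hn
  have key : ∀ l : ℕ, (∀ i j, i < j → (M ^ l) i j = 0) ∧ ∀ i, (M ^ l) i i = M i i ^ l := by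
    intro l
    induction l with
    | zero =>
      refine ⟨fun i j hij => ?_, fun i => ?_⟩
      · rw [pow_zero, Matrix.one_apply_ne hij.ne]
      · rw [pow_zero, pow_zero, Matrix.one_apply_eq]
    | succ l ih =>
      refine ⟨fun i j hij => ?_, fun i => ?_⟩
      · rw [pow_succ, Matrix.mul_apply]
        refine Finset.sum_eq_zero fun x _ => ?_
        rcases lt_or_ge i x with hx | hx
        · rw [ih.1 i x hx, zero_mul]
        · rw [h x j (lt_of_le_of_lt hx hij), mul_zero]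
      · rw [pow_succ, Matrix.mul_apply, Finset.sum_eq_single i, ih.2 i, pow_succ]
        · intro x _ hx
          rcases lt_or_gt_of_ne hx with hx | hx
          · rw [h x i hx, mul_zero]
          · rw [ih.1 i x hx, zero_mul]
        · intro hx
          exact absurd (Finset.mem_univ i) hx
  have h1 := (key N).2 i
  rw [hN, Matrix.zero_apply] at h1
  exact eq_zero_of_pow_eq_zero h1.symm

/-! ### the shape lemma -/

/-- polynomials in `J` -/
def pol (c : Fin 3 → k) (m : Fin 10 → k) : Fin 10 → k :=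
  ![0, 0, 0, c 0 * m 0, c 0 * m 1, 0, c 0 * m 2, c 0 * m 3 + c 1 * m 0, c 0 * m 4 + c 1 * m 1,
    c 0 * m 7 + c 1 * m 3 + c 2 * m 0]

/-- polynomials in `J` -/
def PJ (c : Fin 3 → k) : Matrix (Fin 10) (Fin 10) k :=
  c 0 • J k + c 1 • (J k * J k) + c 2 • (J k * J k * J k)

theorem PJ_mulVec (c : Fin 3 → k) (m : Fin 10 → k) : PJ c *ᵥ m = pol c m := by
  simp only [PJ, add_mulVec, smul_mulVec, ← mulVec_mulVec, J_mulVec]
  funext i
  fin_cases i <;> simp [pol, actJ]

theorem J_PJ (c : Fin 3 → k) : J k * PJ c = PJ c * J k := by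
  simp only [PJ, mul_add, add_mul, Matrix.mul_smul, Matrix.smul_mul, Matrix.mul_assoc]

theorem col_eq (B : Matrix (Fin 10) (Fin 10) k) (j : Fin 10) :
    (fun i => B i j) = B *ᵥ Pi.single j 1 := by
  rw [Matrix.mulVec_single_one]
  rfl

theorem J_single : J k *ᵥ Pi.single 0 1 = Pi.single 3 1 ∧ J k *ᵥ Pi.single 3 1 = Pi.single 7 1 ∧
    J k *ᵥ Pi.single 7 1 = Pi.single 9 1 ∧ J k *ᵥ Pi.single 9 1 = 0 ∧
    J k *ᵥ Pi.single 1 1 = Pi.single 4 1 ∧ J k *ᵥ Pi.single 4 1 = Pi.single 8 1 ∧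
    J k *ᵥ Pi.single 8 1 = 0 ∧ J k *ᵥ Pi.single 2 1 = Pi.single 6 1 ∧
    J k *ᵥ Pi.single 6 1 = 0 ∧ J k *ᵥ Pi.single 5 1 = 0 := by
  simp only [J_mulVec]
  refine ⟨?_, ?_, ?_, ?_, ?_, ?_, ?_, ?_, ?_, ?_⟩ <;>
    (funext i; fin_cases i <;> simp [actJ])

/-- a matrix commuting with `J` is determined by four columns -/
theorem ext_gen {B C : Matrix (Fin 10) (Fin 10) k} (hB : J k * B = B * J k)
    (hC : J k * C = C * J k) (h0 : ∀ i, B i 0 = C i 0) (h1 : ∀ i, B i 1 = C i 1)
    (h2 : ∀ i, B i 2 = C i 2) (h5 : ∀ i, B i 5 = C i 5) : B = C := by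
  obtain ⟨s0, s3, s7, s9, s1, s4, s8, s2, s6, s5⟩ := J_single (k := k)
  have step : ∀ {x y : Fin 10 → k}, J k *ᵥ x = y → B *ᵥ x = C *ᵥ x → B *ᵥ y = C *ᵥ y := by
    intro x y hxy h
    rw [← hxy, mulVec_mulVec, mulVec_mulVec, ← hB, ← hC, ← mulVec_mulVec, ← mulVec_mulVec, h]
  have g : ∀ j, (∀ i, B i j = C i j) → B *ᵥ Pi.single j 1 = C *ᵥ Pi.single j 1 := by
    intro j h
    rw [← col_eq, ← col_eq]
    exact funext h
  have k0 := g 0 h0
  have k1 := g 1 h1
  have k2 := g 2 h2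
  have k5 := g 5 h5
  have k3 := step s0 k0
  have k7 := step s3 k3
  have k9 := step s7 k7
  have k4 := step s1 k1
  have k8 := step s4 k4
  have k6 := step s2 k2
  have key : ∀ j, B *ᵥ Pi.single j 1 = C *ᵥ Pi.single j 1 := by
    intro j
    fin_cases j
    exacts [k0, k1, k2, k3, k4, k5, k6, k7, k8, k9]
  ext i j
  have := key j
  rw [← col_eq, ← col_eq] at this
  exact congrFun this i

theorem entry (c : Fin 3 → k) (P : Par k) (i j : Fin 10) : (PJ c + X P) i j =
    pol c (Pi.single j 1) i + act P (Pi.single j 1) i := by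
  have h := congrFun (col_eq (PJ c + X P) j) i
  rw [add_mulVec, PJ_mulVec, X_mulVec] at h
  exact h

theorem h14_shape {B : Matrix (Fin 10) (Fin 10) k} (hc : J k * B = B * J k) (hn : IsNilpotent B) :
    ∃ (P : Par k) (c : Fin 3 → k), B = PJ c + X P := by
  obtain ⟨s0, s3, s7, s9, s1, s4, s8, s2, s6, s5⟩ := J_single (k := k)
  have step : ∀ {i j : Fin 10}, J k *ᵥ Pi.single i 1 = Pi.single j 1 →
      (fun x => B x j) = actJ fun x => B x i := by
    intro i j h
    rw [col_eq, col_eq, ← h, mulVec_mulVec, ← hc, ← mulVec_mulVec, J_mulVec]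
  have step0 : ∀ {i : Fin 10}, J k *ᵥ Pi.single i 1 = 0 →
      (0 : Fin 10 → k) = actJ fun x => B x i := by
    intro i h
    rw [col_eq, ← J_mulVec, mulVec_mulVec, hc, ← mulVec_mulVec, h, mulVec_zero]
  have k3 := fun i => congrFun (step s0) i
  have k7 := fun i => congrFun (step s3) i
  have k9 := fun i => congrFun (step s7) i
  have k4 := fun i => congrFun (step s1) i
  have k8 := fun i => congrFun (step s4) i
  have z8 := fun i => congrFun (step0 s8) i
  have k6 := fun i => congrFun (step s2) i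
  have z6 := fun i => congrFun (step0 s6) i
  have z5 := fun i => congrFun (step0 s5) i
  -- the zero entries of the generators
  have b0 : B 0 1 = 0 := by
    have h1 : (0 : k) = B 7 8 := z8 9
    have h2 : B 7 8 = B 3 4 := k8 7
    have h3 : B 3 4 = B 0 1 := k4 3
    rw [← h3, ← h2, ← h1]
  have c0 : B 0 2 = 0 := by
    have h1 : (0 : k) = B 3 6 := z6 7
    have h2 : B 3 6 = B 0 2 := k6 3
    rw [← h2, ← h1]
  have c3 : B 3 2 = 0 := by
    have h1 : (0 : k) = B 7 6 := z6 9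
    have h2 : B 7 6 = B 3 2 := k6 7
    rw [← h2, ← h1]
  have c1 : B 1 2 = 0 := by
    have h1 : (0 : k) = B 4 6 := z6 8
    have h2 : B 4 6 = B 1 2 := k6 4
    rw [← h2, ← h1]
  have d0 : B 0 5 = 0 := (z5 3).symm
  have d1 : B 1 5 = 0 := (z5 4).symm
  have d2 : B 2 5 = 0 := (z5 6).symm
  have d3 : B 3 5 = 0 := (z5 7).symm
  have d4 : B 4 5 = 0 := (z5 8).symm
  have d7 : B 7 5 = 0 := (z5 9).symm
  have low : ∀ i j : Fin 10, i < j → B i j = 0 := by
    intro i j hij
    have a3 := k3 i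
    have a7 := k7 i
    have a9 := k9 i
    have a4 := k4 i
    have a8 := k8 i
    have a6 := k6 i
    have a33 := k3
    have a77 := k7
    have a44 := k4
    fin_cases j
    · exact absurd hij (by simp)
    · fin_cases i <;> first | exact b0 | (exfalso; revert hij; decide)
    · fin_cases i <;> first | exact c0 | exact c1 | (exfalso; revert hij; decide)
    · fin_cases i <;> first | exact a3 | (exfalso; revert hij; decide)
    · fin_cases i <;> first | exact a4 | exact a4.trans b0 | (exfalso; revert hij; decide)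
    · fin_cases i <;> first | exact d0 | exact d1 | exact d2 | exact d3 | exact d4 |
        (exfalso; revert hij; decide)
    · fin_cases i <;> first | exact a6 | exact a6.trans c0 | exact a6.trans c1 |
        (exfalso; revert hij; decide)
    · fin_cases i <;> first | exact a7 | exact a7.trans (k3 _) | (exfalso; revert hij; decide)
    · fin_cases i <;> first | exact a8 | exact a8.trans (k4 _) |
        exact (a8.trans (k4 _)).trans b0 | (exfalso; revert hij; decide)
    · fin_cases i <;> first | exact a9 | exact a9.trans (k7 _) |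
        exact (a9.trans (k7 _)).trans (k3 _) | (exfalso; revert hij; decide)
  have e0 : B 0 0 = 0 := diag_zero low hn 0
  have e1 : B 1 1 = 0 := diag_zero low hn 1
  have e2 : B 2 2 = 0 := diag_zero low hn 2
  have e5 : B 5 5 = 0 := diag_zero low hn 5
  refine ⟨⟨B 1 0, B 4 0, B 8 0, B 2 0, B 6 0, B 5 0, B 3 1, B 7 1, B 9 1, B 4 1 - B 3 0,
    B 8 1 - B 7 0, B 2 1, B 6 1, B 5 1, B 7 2, B 9 2, B 4 2, B 8 2, B 6 2 - B 3 0, B 5 2,
    B 9 5, B 8 5, B 6 5⟩, ![B 3 0, B 7 0, B 9 0], ?_⟩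
  refine ext_gen hc ?_ ?_ ?_ ?_ ?_
  · rw [mul_add, add_mul, J_PJ, J_comm]
  all_goals
    intro i
    rw [entry]
    fin_cases i <;> simp [pol, act, *]

theorem PJ_mem {A : NonUnitalSubalgebra k (Matrix (Fin 10) (Fin 10) k)} (hJ : J k ∈ A)
    (c : Fin 3 → k) : PJ c ∈ A :=
  add_mem (add_mem (SMulMemClass.smul_mem _ hJ) (SMulMemClass.smul_mem _ (mul_mem hJ hJ)))
    (SMulMemClass.smul_mem _ (mul_mem (mul_mem hJ hJ) hJ))

variable {ρ : ℕ → ℕ} {P P' : Par k}

/-- polynomials in `J` can be removed -/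
theorem MaxR.sub_pol {B C : Matrix (Fin 10) (Fin 10) k} (hT : MaxR ρ ![J k, B, C])
    {c c' : Fin 3 → k} (hB : B = PJ c + X P) (hC : C = PJ c' + X P') :
    MaxR ρ ![J k, X P, X P'] := by
  refine T32SAux.change3 hT ?_ ?_ ?_ ?_
  · have h := sub_mem (T32SAux.m1 (J k) B C) (PJ_mem (T32SAux.m0 (J k) B C) c)
    rwa [show B - PJ c = X P by rw [hB, add_sub_cancel_left]] at h
  · have h := sub_mem (T32SAux.m2 (J k) B C) (PJ_mem (T32SAux.m0 (J k) B C) c')
    rwa [show C - PJ c' = X P' by rw [hC, add_sub_cancel_left]] at h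
  · rw [hB]
    exact add_mem (PJ_mem (T32SAux.m0 _ _ _) c) (T32SAux.m1 _ _ _)
  · rw [hC]
    exact add_mem (PJ_mem (T32SAux.m0 _ _ _) c') (T32SAux.m2 _ _ _)

/-- **the shape lemma** -/
theorem MaxR.shape {T : Fin 3 → Matrix (Fin 10) (Fin 10) k} (hT : MaxR ρ T) (h0 : T 0 = J k) :
    ∃ P P' : Par k, MaxR ρ ![J k, X P, X P'] := by
  have hT' : MaxR ρ ![J k, T 1, T 2] := by
    have e : T = ![J k, T 1, T 2] := by
      funext i
      fin_cases i
      exacts [h0, rfl, rfl]
    rwa [← e]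
  obtain ⟨P, c, hB⟩ := h14_shape (hT'.cn.1 0 1) (hT'.cn.2 1)
  obtain ⟨P', c', hC⟩ := h14_shape (hT'.cn.1 0 2) (hT'.cn.2 2)
  exact ⟨P, P', MaxR.sub_pol hT' hB hC⟩

/-! ### linear changes of the pair -/

/-- `a P + b P'` -/
def lin (a b : k) (P P' : Par k) : Par k where
  al0 := a * P.al0 + b * P'.al0
  al1 := a * P.al1 + b * P'.al1
  al2 := a * P.al2 + b * P'.al2
  g0 := a * P.g0 + b * P'.g0
  g1 := a * P.g1 + b * P'.g1
  pi := a * P.pi + b * P'.pi
  be0 := a * P.be0 + b * P'.be0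
  be1 := a * P.be1 + b * P'.be1
  be2 := a * P.be2 + b * P'.be2
  q1 := a * P.q1 + b * P'.q1
  q2 := a * P.q2 + b * P'.q2
  e0 := a * P.e0 + b * P'.e0
  e1 := a * P.e1 + b * P'.e1
  ph := a * P.ph + b * P'.ph
  de0 := a * P.de0 + b * P'.de0
  de1 := a * P.de1 + b * P'.de1
  f0 := a * P.f0 + b * P'.f0
  f1 := a * P.f1 + b * P'.f1
  z := a * P.z + b * P'.z
  rho := a * P.rho + b * P'.rho
  th := a * P.th + b * P'.th
  eta := a * P.eta + b * P'.eta
  zeta := a * P.zeta + b * P'.zeta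

theorem X_lin (a b : k) (P P' : Par k) : X (lin a b P P') = a • X P + b • X P' := by
  refine ext_mulVec fun m => ?_
  rw [add_mulVec, smul_mulVec, smul_mulVec, X_mulVec, X_mulVec, X_mulVec]
  funext i
  fin_cases i <;> simp [act, lin] <;> ring

/-- `GL2` on the pair -/
theorem MaxR.lin (hT : MaxR ρ ![J k, X P, X P']) {a b c d : k} (h : a * d - b * c ≠ 0) :
    MaxR ρ ![J k, X (lin a b P P'), X (lin c d P P')] := by
  rw [X_lin, X_lin]
  refine T32SAux.change3 hT ?_ ?_ ?_ ?_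
  · exact add_mem (SMulMemClass.smul_mem _ (T32SAux.m1 _ _ _)) (SMulMemClass.smul_mem _ (T32SAux.m2 _ _ _))
  · exact add_mem (SMulMemClass.smul_mem _ (T32SAux.m1 _ _ _)) (SMulMemClass.smul_mem _ (T32SAux.m2 _ _ _))
  · have e : X P = (d / (a * d - b * c)) • (a • X P + b • X P') -
        (b / (a * d - b * c)) • (c • X P + d • X P') := by
      have e1 : d / (a * d - b * c) * a - b / (a * d - b * c) * c = 1 := by
        rw [div_mul_eq_mul_div, div_mul_eq_mul_div, ← sub_div, div_eq_one_iff_eq h]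
        ring
      have e2 : d / (a * d - b * c) * b - b / (a * d - b * c) * d = 0 := by
        rw [div_mul_eq_mul_div, div_mul_eq_mul_div, ← sub_div]
        ring
      calc X P = (d / (a * d - b * c) * a - b / (a * d - b * c) * c) • X P +
            (d / (a * d - b * c) * b - b / (a * d - b * c) * d) • X P' := by
            rw [e1, e2, one_smul, zero_smul, add_zero]
        _ = _ := by module
    have h5 := sub_mem
      (SMulMemClass.smul_mem (d / (a * d - b * c)) (T32SAux.m1 (J k) (a • X P + b • X P')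
        (c • X P + d • X P')))
      (SMulMemClass.smul_mem (b / (a * d - b * c)) (T32SAux.m2 (J k) (a • X P + b • X P')
        (c • X P + d • X P')))
    rwa [← e] at h5
  · have e : X P' = (a / (a * d - b * c)) • (c • X P + d • X P') -
        (c / (a * d - b * c)) • (a • X P + b • X P') := by
      have e1 : a / (a * d - b * c) * c - c / (a * d - b * c) * a = 0 := by
        rw [div_mul_eq_mul_div, div_mul_eq_mul_div, ← sub_div]
        ring
      have e2 : a / (a * d - b * c) * d - c / (a * d - b * c) * b = 1 := by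
        rw [div_mul_eq_mul_div, div_mul_eq_mul_div, ← sub_div, div_eq_one_iff_eq h]
        ring
      calc X P' = (a / (a * d - b * c) * c - c / (a * d - b * c) * a) • X P +
            (a / (a * d - b * c) * d - c / (a * d - b * c) * b) • X P' := by
            rw [e1, e2, one_smul, zero_smul, zero_add]
        _ = _ := by module
    have h5 := sub_mem
      (SMulMemClass.smul_mem (a / (a * d - b * c)) (T32SAux.m2 (J k) (a • X P + b • X P')
        (c • X P + d • X P')))
      (SMulMemClass.smul_mem (c / (a * d - b * c)) (T32SAux.m1 (J k) (a • X P + b • X P')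
        (c • X P + d • X P')))
    rwa [← e] at h5

theorem MaxR.swap (hT : MaxR ρ ![J k, X P, X P']) : MaxR ρ ![J k, X P', X P] :=
  T32SAux.change3 hT (T32SAux.m2 _ _ _) (T32SAux.m1 _ _ _) (T32SAux.m2 _ _ _) (T32SAux.m1 _ _ _)

/-! ### changes of the basis -/

/-- the change of the basis by an invertible matrix commuting with `J` -/
theorem MaxR.conj' (hT : MaxR ρ ![J k, X P, X P']) {R R' : Par k} {c c' : Fin 3 → k}
    {g h : Matrix (Fin 10) (Fin 10) k} (hg : g * h = 1) (hh : h * g = 1)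
    (hJ : J k * g = g * J k) (h1 : g * (PJ c + X R) = X P * g)
    (h2 : g * (PJ c' + X R') = X P' * g) : MaxR ρ ![J k, X R, X R'] := by
  have h3 := hT.conj h g hh hg
  have e : (fun i => h * (![J k, X P, X P'] : Fin 3 → Matrix (Fin 10) (Fin 10) k) i * g) =
      ![J k, PJ c + X R, PJ c' + X R'] := by
    funext i
    fin_cases i
    · show h * J k * g = J k
      rw [Matrix.mul_assoc, hJ, ← Matrix.mul_assoc, hh, Matrix.one_mul]
    · show h * X P * g = _
      rw [Matrix.mul_assoc, ← h1, ← Matrix.mul_assoc, hh, Matrix.one_mul]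
      rfl
    · show h * X P' * g = _
      rw [Matrix.mul_assoc, ← h2, ← Matrix.mul_assoc, hh, Matrix.one_mul]
      rfl
  rw [e] at h3
  exact MaxR.sub_pol h3 rfl rfl

/-- **the change of the basis by `1 + X Q`**: the new vectors are `v0 + X Q v0`, etc. -/
theorem MaxR.base (hT : MaxR ρ ![J k, X P, X P']) (Q R R' : Par k) (c c' : Fin 3 → k)
    (h1 : ∀ m, pol c m + act R m + act Q (pol c m + act R m) = act P m + act P (act Q m))
    (h2 : ∀ m, pol c' m + act R' m + act Q (pol c' m + act R' m) =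
      act P' m + act P' (act Q m)) : MaxR ρ ![J k, X R, X R'] := by
  obtain ⟨u, hu⟩ := (X_nil Q).isUnit_one_add
  have hg : (1 + X Q) * (↑u⁻¹ : Matrix (Fin 10) (Fin 10) k) = 1 := by
    rw [← hu]
    exact u.mul_inv
  have hh : (↑u⁻¹ : Matrix (Fin 10) (Fin 10) k) * (1 + X Q) = 1 := by
    rw [← hu]
    exact u.inv_mul
  refine MaxR.conj' hT (c := c) (c' := c') hg hh ?_ ?_ ?_
  · rw [mul_add, add_mul, mul_one, one_mul, J_comm]
  · refine ext_mulVec fun m => ?_
    rw [← mulVec_mulVec, ← mulVec_mulVec, add_mulVec, add_mulVec, one_mulVec, add_mulVec,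
      one_mulVec, PJ_mulVec, X_mulVec, X_mulVec, X_mulVec, X_mulVec, h1]
    rw [← X_mulVec P, ← X_mulVec P, ← X_mulVec P, mulVec_add]
  · refine ext_mulVec fun m => ?_
    rw [← mulVec_mulVec, ← mulVec_mulVec, add_mulVec, add_mulVec, one_mulVec, add_mulVec,
      one_mulVec, PJ_mulVec, X_mulVec, X_mulVec, X_mulVec, X_mulVec, h2]
    rw [← X_mulVec P', ← X_mulVec P', ← X_mulVec P', mulVec_add]

/-! ### the torus -/

/-- the new basis `s0 v, s1 u, s2 w, s3 p` -/
def Par.scale (s0 s1 s2 s3 : k) (P : Par k) : Par k where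
  al0 := s0 * s1⁻¹ * P.al0
  al1 := s0 * s1⁻¹ * P.al1
  al2 := s0 * s1⁻¹ * P.al2
  g0 := s0 * s2⁻¹ * P.g0
  g1 := s0 * s2⁻¹ * P.g1
  pi := s0 * s3⁻¹ * P.pi
  be0 := s1 * s0⁻¹ * P.be0
  be1 := s1 * s0⁻¹ * P.be1
  be2 := s1 * s0⁻¹ * P.be2
  q1 := P.q1
  q2 := P.q2
  e0 := s1 * s2⁻¹ * P.e0
  e1 := s1 * s2⁻¹ * P.e1
  ph := s1 * s3⁻¹ * P.ph
  de0 := s2 * s0⁻¹ * P.de0
  de1 := s2 * s0⁻¹ * P.de1
  f0 := s2 * s1⁻¹ * P.f0
  f1 := s2 * s1⁻¹ * P.f1
  z := P.z
  rho := s2 * s3⁻¹ * P.rho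
  th := s3 * s0⁻¹ * P.th
  eta := s3 * s1⁻¹ * P.eta
  zeta := s3 * s2⁻¹ * P.zeta

/-- the diagonal -/
def dg (s0 s1 s2 s3 : k) : Fin 10 → k := ![s0, s1, s2, s0, s1, s3, s2, s0, s1, s0]

theorem MaxR.scale (hT : MaxR ρ ![J k, X P, X P']) {s0 s1 s2 s3 : k} (h0 : s0 ≠ 0)
    (h1 : s1 ≠ 0) (h2 : s2 ≠ 0) (h3 : s3 ≠ 0) :
    MaxR ρ ![J k, X (P.scale s0 s1 s2 s3), X (P'.scale s0 s1 s2 s3)] := by
  have hd : ∀ m : Fin 10 → k, diagonal (dg s0 s1 s2 s3) *ᵥ m =
      ![s0 * m 0, s1 * m 1, s2 * m 2, s0 * m 3, s1 * m 4, s3 * m 5, s2 * m 6, s0 * m 7,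
        s1 * m 8, s0 * m 9] := by
    intro m
    funext i
    rw [mulVec_diagonal]
    fin_cases i <;> rfl
  have key : ∀ P : Par k, diagonal (dg s0 s1 s2 s3) * (PJ 0 + X (P.scale s0 s1 s2 s3)) =
      X P * diagonal (dg s0 s1 s2 s3) := by
    intro P
    refine ext_mulVec fun m => ?_
    rw [← mulVec_mulVec, ← mulVec_mulVec, add_mulVec, PJ_mulVec, X_mulVec, X_mulVec, hd, hd]
    funext i
    fin_cases i <;> simp [pol, act, Par.scale] <;> field_simp
  have inv : ∀ i, dg s0 s1 s2 s3 i * dg s0⁻¹ s1⁻¹ s2⁻¹ s3⁻¹ i = 1 := by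
    intro i
    fin_cases i <;> simp [dg, h0, h1, h2, h3]
  refine MaxR.conj' hT (c := 0) (c' := 0) (g := diagonal (dg s0 s1 s2 s3))
    (h := diagonal (dg s0⁻¹ s1⁻¹ s2⁻¹ s3⁻¹)) ?_ ?_ ?_ (key P) (key P')
  · rw [diagonal_mul_diagonal, ← diagonal_one]
    congr 1
    funext i
    exact inv i
  · rw [diagonal_mul_diagonal, ← diagonal_one]
    congr 1
    funext i
    rw [mul_comm]
    exact inv i
  · refine ext_mulVec fun m => ?_
    rw [← mulVec_mulVec, ← mulVec_mulVec, hd, J_mulVec, J_mulVec, hd]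
    funext i
    fin_cases i <;> simp [actJ]

/-! ### duality -/

/-- the reversal of the basis -/
def rv : Fin 10 → Fin 10 := ![9, 8, 6, 7, 4, 5, 2, 3, 1, 0]

/-- the matrix of the reversal -/
def RV (k : Type*) [Field k] : Matrix (Fin 10) (Fin 10) k := fun i j => if j = rv i then 1 else 0

theorem RV_mulVec (m : Fin 10 → k) : RV k *ᵥ m = fun i => m (rv i) := by
  funext i
  simp [RV, mulVec, dotProduct]

theorem RV_RV : RV k * RV k = 1 := by
  refine ext_mulVec fun m => ?_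
  rw [← mulVec_mulVec, RV_mulVec, RV_mulVec, one_mulVec]
  funext i
  fin_cases i <;> rfl

theorem vecMul_X (P : Par k) (m : Fin 10 → k) : (X P)ᵀ *ᵥ (fun i => m (rv i)) =
    fun i => act P.dual m (rv i) := by
  funext i
  fin_cases i <;> simp [X, act, Par.dual, rv, Matrix.mulVec, dotProduct, Fin.sum_univ_succ] <;>
    ring

theorem vecMul_J (m : Fin 10 → k) : (J k)ᵀ *ᵥ (fun i => m (rv i)) =
    fun i => actJ m (rv i) := by
  funext i
  fin_cases i <;> simp [J, actJ, rv, Matrix.mulVec, dotProduct, Fin.sum_univ_succ]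

theorem rv_rv (i : Fin 10) : rv (rv i) = i := by
  fin_cases i <;> rfl

theorem dual_X (P : Par k) : RV k * (X P)ᵀ * RV k = X P.dual := by
  refine ext_mulVec fun m => ?_
  rw [← mulVec_mulVec, ← mulVec_mulVec, RV_mulVec, RV_mulVec, vecMul_X, X_mulVec]
  funext i
  show act P.dual m (rv (rv i)) = _
  rw [rv_rv]

theorem dual_J : RV k * (J k)ᵀ * RV k = J k := by
  refine ext_mulVec fun m => ?_
  rw [← mulVec_mulVec, ← mulVec_mulVec, RV_mulVec, RV_mulVec, vecMul_J, J_mulVec]
  funext i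
  show actJ m (rv (rv i)) = _
  rw [rv_rv]

/-- **duality** -/
theorem MaxR.dual (hT : MaxR ρ ![J k, X P, X P']) : MaxR ρ ![J k, X P.dual, X P'.dual] := by
  have h := hT.transpose.conj (RV k) (RV k) RV_RV RV_RV
  have e : (fun i => RV k * ((![J k, X P, X P'] : Fin 3 → Matrix (Fin 10) (Fin 10) k) i)ᵀ *
      RV k) = ![J k, X P.dual, X P'.dual] := by
    funext i
    fin_cases i
    · exact dual_J
    · exact dual_X P
    · exact dual_X P'
  rwa [e] at h

end Pool.Agent.Lib.D13.T4321
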