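import Pool.Agent.Lib.D13.Frame2
import Pool.Agent.Lib.D13.PCl

/-!
# MP_5dcbc3_ag: the induction on the size

`HALL k d`: all commuting nilpotent triples of sizes smaller than `d` are limits of curvilinear ones.
-/

namespace Pool.Agent.Lib.D13

open Matrix Pool.Agent.Lib.Q5dc Pool.Agent.Lib.D7

variable {k : Type*} [Field k] [IsAlgClosed k] [CharZero k]

/-- the step of the induction -/
theorem HALL.step {N : ℕ} (hN : 0 < N) (hall : HALL k N) (h : ∀ l ∈ rest2 N, ¬ Bad k l) :
    HALL k (N + 1) := by
  intro r hr0 hr T hT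
  rcases Nat.lt_succ_iff_lt_or_eq.1 hr with h1 | rfl
  · exact hall r hr0 h1 T hT
  · exact cl_of_rest2 hN h hT

/-- the step of the induction if there is nothing to check -/
theorem HALL.step0 {N : ℕ} (hN : 0 < N) (h : rest2 N = []) (hall : HALL k N) : HALL k (N + 1) :=
  hall.step hN fun _ hl => absurd (h ▸ hl) (List.not_mem_nil)

/-- the start of the induction -/
theorem hall1 (k : Type*) [Field k] : HALL k 1 := fun _ hr0 hr => absurd hr (by omega)

theorem hall6 (k : Type*) [Field k] [IsAlgClosed k] [CharZero k] : HALL k 6 :=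
  (((((hall1 k).step0 (by norm_num) (by decide +kernel)).step0 (by norm_num)
    (by decide +kernel)).step0 (by norm_num) (by decide +kernel)).step0 (by norm_num)
    (by decide +kernel)).step0 (by norm_num) (by decide +kernel)

theorem rest2_eq6 : rest2 6 = [[3, 2, 1]] := by
  decide +kernel

theorem rest2_eq7 : rest2 7 = [[3, 2, 1, 1], [3, 2, 2], [3, 3, 1], [4, 2, 1]] := by
  decide +kernel

theorem rest2_eq8 : rest2 8 = [[3, 2, 2, 1], [3, 3, 1, 1], [3, 3, 2], [4, 2, 1, 1], [4, 2, 2],
    [4, 3, 1]] := by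
  decide +kernel

end Pool.Agent.Lib.D13
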