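import Pool.Agent.Lib.D13.KerLift
import Pool.Agent.Lib.D13.CertRowM

/-!
# MP_5dcbc3_ag: the quadrics of a maximal bad triple

The rank of `(J + s B) ^ m` is nowhere greater than the rank of `J ^ m`. To the first order this says
that the constant parts of `B` between blocks of the size `m` are zero. To the second order, for the
blocks `p, j` of the size `m`:
`(m - 1) * ∑ B p a 1 * B a j 0 = (m + 1) * ∑ B p a 0 * B a j 1`,
on the left over the blocks `a` of the size `m - 1`, on the right over those of the size `m + 1`.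
-/

set_option autoImplicit false
set_option linter.unusedSectionVars false

namespace Pool.Agent.Lib.D13

open Matrix Pool.Agent.Lib.Q5dc Pool.Agent.Lib.D7

namespace MaxQ

variable {K : Type*} [Field K]

section powers

variable {n : Type*} [Fintype n] [DecidableEq n] {A B : Matrix n n K}

theorem comm_pow (hAB : A * B = B * A) (m : ℕ) : B * A ^ m = A ^ m * B :=
  ((show Commute A B from hAB).pow_left m).eq.symm

theorem poly_mul {M N : K → Matrix n n K} (hM : ∀ x y, IsPoly fun s => M s x y)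
    (hN : ∀ x y, IsPoly fun s => N s x y) : ∀ x y, IsPoly fun s => (M s * N s) x y :=
  isPoly_mul hM hN

theorem poly_sum {ι : Type*} (t : Finset ι) {f : ι → K → K} (h : ∀ i ∈ t, IsPoly (f i)) :
    IsPoly fun s => ∑ i ∈ t, f i s := by
  classical
  induction t using Finset.induction_on with
  | empty => simpa using (D7.IsPoly.const (0 : K))
  | insert a t ha ih =>
    have := (h a (Finset.mem_insert_self _ _)).add
      (ih fun i hi => h i (Finset.mem_insert_of_mem hi))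
    simpa [Finset.sum_insert ha] using this

theorem poly_mulVec {M : K → Matrix n n K} (hM : ∀ x y, IsPoly fun s => M s x y) (r : n → K)
    (x : n) : IsPoly fun s => (M s *ᵥ r) x := by
  simp only [Matrix.mulVec, dotProduct]
  exact poly_sum _ fun y _ => (hM x y).mul (D7.IsPoly.const _)

theorem poly_const (M : Matrix n n K) : ∀ x y, IsPoly fun _ : K => M x y :=
  fun x y => D7.IsPoly.const (M x y)

theorem poly_add {M N : K → Matrix n n K} (hM : ∀ x y, IsPoly fun s => M s x y)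
    (hN : ∀ x y, IsPoly fun s => N s x y) : ∀ x y, IsPoly fun s => (M s + N s) x y :=
  fun x y => (hM x y).add (hN x y)

theorem poly_smul {M : K → Matrix n n K} {c : K → K} (hc : IsPoly c)
    (hM : ∀ x y, IsPoly fun s => M s x y) : ∀ x y, IsPoly fun s => (c s • M s) x y :=
  fun x y => hc.mul (hM x y)

/-- the expansion of a power up to the second order -/
theorem pow_expand (hAB : A * B = B * A) (m : ℕ) : ∃ E : K → Matrix n n K,
    (∀ x y, IsPoly fun s => E s x y) ∧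
    (∀ s : K, (A + s • B) ^ (m + 2) = A ^ (m + 2) + s • (((m : K) + 2) • (A ^ (m + 1) * B)) +
      s ^ 2 • E s) ∧
    E 0 = (((m + 2).choose 2 : ℕ) : K) • (A ^ m * (B * B)) := by
  induction m with
  | zero =>
    refine ⟨fun _ => B * B, poly_const _, fun s => ?_, ?_⟩
    · have h : (A + s • B) ^ 2 = A * A + s • (A * B) + s • (B * A) + (s * s) • (B * B) := by
        rw [pow_two, mul_add, add_mul, add_mul, smul_mul_smul_comm, smul_mul_assoc, mul_smul_comm]
        abel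
      rw [show (0 : ℕ) + 2 = 2 from rfl, h, ← hAB, zero_add, pow_one, pow_two]
      module
    · simp
  | succ m ih =>
    obtain ⟨E, hE, h1, h2⟩ := ih
    refine ⟨fun s => A * E s + ((m : K) + 2) • (A ^ (m + 1) * (B * B)) + s • (B * E s),
      poly_add (poly_add (poly_mul (poly_const A) hE) (poly_const _))
        (poly_smul D7.IsPoly.id (poly_mul (poly_const B) hE)), fun s => ?_, ?_⟩
    · rw [show m + 1 + 2 = (m + 2) + 1 by omega, pow_succ', h1 s]
      have e1 : B * A ^ (m + 2) = A ^ (m + 2) * B := comm_pow hAB _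
      have e2 : B * (A ^ (m + 1) * B) = A ^ (m + 1) * (B * B) := by
        rw [← mul_assoc, comm_pow hAB, mul_assoc]
      have e3 : A * (A ^ (m + 1) * B) = A ^ (m + 2) * B := by
        rw [← mul_assoc, ← pow_succ']
      have e4 : A * A ^ (m + 2) = A ^ (m + 2 + 1) := (pow_succ' A (m + 2)).symm
      rw [add_mul, mul_add, mul_add, mul_add, mul_add]
      simp only [smul_mul_assoc, mul_smul_comm]
      rw [e1, e2, e3, e4]
      push_cast
      module
    · show A * E 0 + ((m : K) + 2) • (A ^ (m + 1) * (B * B)) + (0 : K) • (B * E 0) = _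
      rw [h2, zero_smul, add_zero, mul_smul_comm, ← mul_assoc, ← pow_succ',
        show m + 1 + 2 = (m + 2) + 1 by omega, Nat.choose_succ_succ' (m + 2) 1, Nat.choose_one_right]
      push_cast
      module

end powers

section lift

variable {n : Type*} [Fintype n] [DecidableEq n] {ρ : ℕ → ℕ} {A B C : Matrix n n K}

/-- the ranks of the powers of `A + s B` are nowhere greater than those of `A` -/
structure Rk (A B : Matrix n n K) : Prop where
  comm : A * B = B * A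
  rk : ∀ (s : K) (i : ℕ), ((A + s • B) ^ i).rank ≤ (A ^ i).rank

theorem Rk.of [Infinite K] {T : Fin 3 → Matrix n n K} (hT : MaxR ρ T)
    (hρ : ∀ i, ρ i ≤ (T 0 ^ i).rank) {M : Matrix n n K} (hM : M ∈ adj T) : Rk (T 0) M where
  comm := hT.cn.comm (mem_adj T 0) hM
  rk := fun s i => le_trans (MaxR.rank_le hT
    (add_mem (mem_adj T 0) (SMulMemClass.smul_mem s hM)) i) (hρ i)

variable [Infinite K]

theorem Rk.lift (h : Rk A B) {i : ℕ} (r e : K → n → K) (he : ∀ x, D7.IsPoly fun s => e s x)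
    (m : ℕ) (h1 : ∀ s : K, (A + s • B) ^ i *ᵥ r s = s ^ m • e s) : ∃ v, A ^ i *ᵥ v = e 0 := by
  have h0 : (A + (0 : K) • B) ^ i = A ^ i := by rw [zero_smul, add_zero]
  obtain ⟨v, hv⟩ := rank_lift (fun s => (A + s • B) ^ i) (isPoly_pow (isPoly_line A B) i)
    (fun s => by
      rw [h0]
      exact h.rk s i) r e he m h1
  exact ⟨v, by rw [← h0]; exact hv⟩

/-- the first order -/
theorem lift1 (hT : Rk A B) {m : ℕ}
    {r0 : n → K} (h0 : A ^ (m + 2) *ᵥ r0 = 0) :
    ∃ v, A ^ (m + 2) *ᵥ v = ((m : K) + 2) • ((A ^ (m + 1) * B) *ᵥ r0) := by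
  obtain ⟨E, hE, h1, -⟩ := pow_expand hT.comm m
  obtain ⟨v, hv⟩ := hT.lift (i := m + 2) (fun _ => r0)
    (fun s => ((m : K) + 2) • ((A ^ (m + 1) * B) *ᵥ r0) + s • (E s *ᵥ r0))
    (fun x => (D7.IsPoly.const _).add (D7.IsPoly.id.mul (poly_mulVec hE r0 x))) 1
    (fun s => by
      rw [h1 s, add_mulVec, add_mulVec, h0, smul_mulVec, smul_mulVec, smul_mulVec]
      module)
  refine ⟨v, hv.trans ?_⟩
  simp

/-- the second order -/
theorem lift2 (hT : Rk A B) {m : ℕ}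
    {r0 r1 : n → K} (h0 : A ^ (m + 2) *ᵥ r0 = 0)
    (h1 : ((m : K) + 2) • ((A ^ (m + 1) * B) *ᵥ r0) + A ^ (m + 2) *ᵥ r1 = 0) :
    ∃ v, A ^ (m + 2) *ᵥ v = (((m + 2).choose 2 : ℕ) : K) • ((A ^ m * (B * B)) *ᵥ r0) +
      ((m : K) + 2) • ((A ^ (m + 1) * B) *ᵥ r1) := by
  obtain ⟨E, hE, h2, h3⟩ := pow_expand hT.comm m
  obtain ⟨v, hv⟩ := hT.lift (i := m + 2) (fun s => r0 + s • r1)
    (fun s => E s *ᵥ r0 + ((m : K) + 2) • ((A ^ (m + 1) * B) *ᵥ r1) + s • (E s *ᵥ r1))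
    (fun x => ((poly_mulVec hE r0 x).add (D7.IsPoly.const _)).add
      (D7.IsPoly.id.mul (poly_mulVec hE r1 x))) 2
    (fun s => by
      rw [h2 s, add_mulVec, add_mulVec, mulVec_add, mulVec_add, mulVec_add, mulVec_smul,
        mulVec_smul, mulVec_smul, h0, smul_mulVec, smul_mulVec, smul_mulVec, smul_mulVec,
        smul_mulVec, smul_mulVec]
      linear_combination (norm := module) s • h1)
  refine ⟨v, hv.trans ?_⟩
  rw [h3, smul_mulVec]
  simp

/-- the second order for the first power -/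
theorem lift2' (hT : Rk A B)
    {r0 r1 : n → K} (h0 : A *ᵥ r0 = 0) (h1 : B *ᵥ r0 + A *ᵥ r1 = 0) :
    ∃ v, A *ᵥ v = B *ᵥ r1 := by
  obtain ⟨v, hv⟩ := hT.lift (i := 1) (fun s => r0 + s • r1)
    (fun _ => B *ᵥ r1) (fun x => D7.IsPoly.const _) 2
    (fun s => by
      rw [pow_one, add_mulVec, mulVec_add, mulVec_add, mulVec_smul, mulVec_smul, h0, smul_mulVec,
        smul_mulVec]
      linear_combination (norm := module) s • h1)
  exact ⟨v, by rw [← hv, pow_one]⟩

/-- the first order for the first power -/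
theorem lift1' (hT : Rk A B)
    {r0 : n → K} (h0 : A *ᵥ r0 = 0) : ∃ v, A *ᵥ v = B *ᵥ r0 := by
  obtain ⟨v, hv⟩ := hT.lift (i := 1) (fun _ => r0)
    (fun _ => B *ᵥ r0) (fun x => D7.IsPoly.const _) 1
    (fun s => by
      rw [pow_one, add_mulVec, h0, smul_mulVec]
      module)
  exact ⟨v, by rw [← hv, pow_one]⟩

end lift

section coords

open Cert

variable {l : List ℕ}

theorem getD_eq {i : ℕ} (hi : i < l.length) : l.getD i 0 = l.get ⟨i, hi⟩ := by
  simp [List.getD_eq_getElem?_getD, hi]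

theorem pow_mul_shift (B : Matrix (IxL l) (IxL l) K) (i : Fin l.length) (y : IxL l) (a : ℕ) :
    ∀ (q : ℕ) (hq : q + a < l.get i),
    (JU K l ^ a * B) ⟨i, ⟨q + a, hq⟩⟩ y = B ⟨i, ⟨q, by omega⟩⟩ y := by
  induction a with
  | zero =>
    intro q hq
    rw [pow_zero, one_mul]
    rfl
  | succ a ih =>
    intro q hq
    rw [pow_succ', mul_assoc]
    have h1 := JU_mul (JU K l ^ a * B) i (q + a) (by omega) y
    have h2 := ih q (by omega)
    exact h1.trans h2

theorem pow_mul_low (B : Matrix (IxL l) (IxL l) K) (i : Fin l.length) (y : IxL l) (a : ℕ) :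
    ∀ (q : ℕ) (hq : q < l.get i), q < a → (JU K l ^ a * B) ⟨i, ⟨q, hq⟩⟩ y = 0 := by
  induction a with
  | zero =>
    intro q hq h
    omega
  | succ a ih =>
    intro q hq h
    rw [pow_succ', mul_assoc]
    cases q with
    | zero => exact JU_mul_zero _ i hq y
    | succ q =>
      rw [JU_mul (JU K l ^ a * B) i q hq y]
      exact ih q (by omega) (by omega)

theorem vec_mat (M : Matrix (IxL l) (IxL l) K) (v : IxL l → K) (x y : IxL l) :
    (M *ᵥ v) x = (M * Matrix.of fun z _ => v z) x y := by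
  rw [Matrix.mul_apply]
  rfl

theorem pow_vec_shift (v : IxL l → K) (i : Fin l.length) (a q : ℕ) (hq : q + a < l.get i) :
    (JU K l ^ a *ᵥ v) ⟨i, ⟨q + a, hq⟩⟩ = v ⟨i, ⟨q, by omega⟩⟩ := by
  rw [vec_mat _ _ _ ⟨i, ⟨q, by omega⟩⟩, pow_mul_shift]
  rfl

theorem pow_vec_low (v : IxL l → K) (i : Fin l.length) (a q : ℕ) (hq : q < l.get i) (h : q < a) :
    (JU K l ^ a *ᵥ v) ⟨i, ⟨q, hq⟩⟩ = 0 := by
  rw [vec_mat _ _ _ ⟨i, ⟨q, by omega⟩⟩, pow_mul_low _ _ _ _ _ _ h]

/-- the vector `e_j` -/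
def e0 (l : List ℕ) (j : Fin l.length) (h : 0 < l.get j) : IxL l → K := Pi.single ⟨j, ⟨0, h⟩⟩ 1

theorem mat_e0 (M : Matrix (IxL l) (IxL l) K) (j : Fin l.length) (h : 0 < l.get j) (x : IxL l) :
    (M *ᵥ e0 l j h) x = M x ⟨j, ⟨0, h⟩⟩ := by
  unfold e0
  rw [mulVec_single_one]
  rfl

/-- `e_j` is killed by the power of `J` with exponent the size of the block -/
theorem pow_e0 (j : Fin l.length) (h : 0 < l.get j) (a : ℕ) (ha : l.get j ≤ a) :
    JU K l ^ a *ᵥ e0 l j h = 0 := by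
  funext x
  obtain ⟨i, q⟩ := x
  by_cases hq : (q : ℕ) < a
  · rw [Pi.zero_apply]
    exact pow_vec_low _ i a q q.2 hq
  · have hq2 := q.isLt
    have h1 := pow_vec_shift (K := K) (e0 l j h) i a (q - a) (by omega)
    have h2 : (⟨i, ⟨(q : ℕ) - a + a, by omega⟩⟩ : IxL l) = ⟨i, q⟩ := by
      congr 1
      exact Fin.ext (by show (q : ℕ) - a + a = q; omega)
    rw [h2] at h1
    rw [h1, Pi.zero_apply]
    unfold e0
    rw [Pi.single_eq_of_ne]
    intro h3
    have h4 : i = j := congrArg Sigma.fst h3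
    subst h4
    omega

section quads

variable [CharZero K] {ρ : ℕ → ℕ} {B C : Matrix (IxL l) (IxL l) K}

/-- constant parts between blocks of the same size are zero -/
theorem first (hT : Rk (JU K l) B) {p j : ℕ}
    (hp : p < l.length) (hj : j < l.length) (h : l.getD p 0 = l.getD j 0) :
    cf l B p j 0 = 0 := by
  by_cases h0 : 0 < l.get ⟨j, hj⟩
  swap
  · refine en_zero B ?_
    rintro ⟨_, _, _, h1⟩
    exact h0 h1
  rw [getD_eq hp, getD_eq hj] at h
  have e1 : cf l B p j 0 = B ⟨⟨p, hp⟩, ⟨0, by omega⟩⟩ ⟨⟨j, hj⟩, ⟨0, h0⟩⟩ :=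
    en_eq B hp hj (by omega) h0
  by_cases h2 : l.get ⟨j, hj⟩ = 1
  · have hk : JU K l *ᵥ e0 l ⟨j, hj⟩ h0 = 0 := by
      have := pow_e0 (K := K) ⟨j, hj⟩ h0 1 (by omega)
      rwa [pow_one] at this
    obtain ⟨v, hv⟩ := lift1' hT hk
    have h3 := congrFun hv ⟨⟨p, hp⟩, ⟨0, by omega⟩⟩
    rw [mat_e0, ← e1] at h3
    rw [← h3]
    have h4 := pow_vec_low v ⟨p, hp⟩ 1 0 (by omega) (by omega)
    rwa [pow_one] at h4
  · obtain ⟨m, hm⟩ : ∃ m, l.get ⟨j, hj⟩ = m + 2 := ⟨l.get ⟨j, hj⟩ - 2, by omega⟩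
    obtain ⟨v, hv⟩ := lift1 hT (pow_e0 (K := K) ⟨j, hj⟩ h0 (m + 2) (by omega))
    have h3 := congrFun hv ⟨⟨p, hp⟩, ⟨m + 1, by omega⟩⟩
    rw [pow_vec_low _ _ _ _ _ (by omega), Pi.smul_apply, mat_e0] at h3
    have h4 := pow_mul_shift B ⟨p, hp⟩ ⟨⟨j, hj⟩, ⟨0, h0⟩⟩ (m + 1) 0 (by omega)
    have h5 : (⟨⟨p, hp⟩, ⟨0 + (m + 1), by omega⟩⟩ : IxL l) = ⟨⟨p, hp⟩, ⟨m + 1, by omega⟩⟩ := by
      congr 1
      exact Fin.ext (by show 0 + (m + 1) = m + 1; omega)
    rw [h5] at h4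
    rw [h4, ← e1, smul_eq_mul] at h3
    rcases mul_eq_zero.1 h3.symm with h6 | h6
    · exact absurd h6 (by exact_mod_cast (show m + 2 ≠ 0 by omega))
    · exact h6

/-- the vector of the second order -/
def r1 (l : List ℕ) (B : Matrix (IxL l) (IxL l) K) (j s : ℕ) : IxL l → K := fun x =>
  if s < l.get x.1 then cf l B x.1 j (x.2 + 1) else 0

theorem cf_r1 (j s a : ℕ) (hj : j < l.length) (hj0 : 0 < l.get ⟨j, hj⟩) (ha : a < l.length) :
    cf l (Matrix.of fun z _ => r1 l B j s z) a j 0 =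
      if s < l.getD a 0 then cf l B a j 1 else 0 := by
  rw [getD_eq ha]
  by_cases h : 0 < l.get ⟨a, ha⟩
  · have h1 : cf l (Matrix.of fun z _ => r1 l B j s z) a j 0 = r1 l B j s ⟨⟨a, ha⟩, ⟨0, h⟩⟩ :=
      en_eq _ ha hj h hj0
    rw [h1]
    rfl
  · rw [if_neg (by omega)]
    refine en_zero _ ?_
    rintro ⟨_, _, h1, _⟩
    exact h h1

theorem pow_B (hT : Rk (JU K l) B) {j : ℕ}
    (hj : j < l.length) {t : ℕ} (ht : l.get ⟨j, hj⟩ = t + 1) (h0 : 0 < l.get ⟨j, hj⟩) :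
    (JU K l ^ t * B) *ᵥ e0 l ⟨j, hj⟩ h0 = JU K l ^ (t + 1) *ᵥ r1 l B j (t + 1) := by
  have hB : JU K l * B = B * JU K l := hT.comm
  funext x
  obtain ⟨i, q⟩ := x
  have hq := q.isLt
  rw [mat_e0]
  rcases lt_trichotomy (q : ℕ) t with h | h | h
  · rw [pow_vec_low _ i (t + 1) q hq (by omega)]
    exact pow_mul_low B i _ t q hq h
  · rw [pow_vec_low _ i (t + 1) q hq (by omega)]
    have h4 := pow_mul_shift B i ⟨⟨j, hj⟩, ⟨0, h0⟩⟩ t 0 (by omega)
    have h5 : (⟨i, ⟨0 + t, by omega⟩⟩ : IxL l) = ⟨i, q⟩ := by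
      congr 1
      exact Fin.ext (by show 0 + t = q; omega)
    rw [h5] at h4
    rw [h4]
    have h6 : cf l B i j 0 = B ⟨i, ⟨0, by omega⟩⟩ ⟨⟨j, hj⟩, ⟨0, h0⟩⟩ := en_eq B i.2 hj (by
      show 0 < l.get i
      omega) h0
    rw [← h6]
    by_cases h7 : l.get i = t + 1
    · exact first hT i.2 hj (by
        rw [getD_eq i.2, getD_eq hj, ht]
        exact h7)
    · refine cf_zero hB ?_
      rw [getD_eq i.2, getD_eq hj]
      show 0 + l.get ⟨j, hj⟩ < l.get i
      omega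
  · obtain ⟨q', hq'⟩ : ∃ q', (q : ℕ) = q' + (t + 1) := ⟨q - (t + 1), by omega⟩
    have h5 : (⟨i, ⟨q' + (t + 1), by omega⟩⟩ : IxL l) = ⟨i, q⟩ := by
      congr 1
      exact Fin.ext (by show q' + (t + 1) = q; omega)
    have h6 : (⟨i, ⟨(q' + 1) + t, by omega⟩⟩ : IxL l) = ⟨i, q⟩ := by
      congr 1
      exact Fin.ext (by show (q' + 1) + t = q; omega)
    have h7 := pow_mul_shift B i ⟨⟨j, hj⟩, ⟨0, h0⟩⟩ t (q' + 1) (by omega)
    have h8 := pow_vec_shift (r1 l B j (t + 1)) i (t + 1) q' (by omega)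
    rw [h6] at h7
    rw [h5] at h8
    rw [h7, h8]
    unfold r1
    rw [if_pos (show t + 1 < l.get i by omega)]
    exact (en_eq B i.2 hj (show q' + 1 < l.get i by omega) h0).symm

/-- the sum over the blocks of the size `s - 1` -/
def SF (l : List ℕ) (X Y : Matrix (IxL l) (IxL l) K) (s p j : ℕ) : K :=
  ∑ a ∈ Finset.range l.length, if l.getD a 0 + 1 = s then cf l X p a 1 * cf l Y a j 0 else 0

/-- the sum over the blocks of the size `s + 1` -/
def SA (l : List ℕ) (X Y : Matrix (IxL l) (IxL l) K) (s p j : ℕ) : K :=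
  ∑ a ∈ Finset.range l.length, if l.getD a 0 = s + 1 then cf l X p a 0 * cf l Y a j 1 else 0

theorem B_r1 (hB : JU K l * B = B * JU K l) {p j : ℕ} (hp : p < l.length) (hj : j < l.length)
    (hp0 : 0 < l.get ⟨p, hp⟩) (hj0 : 0 < l.get ⟨j, hj⟩) {s : ℕ} (hs : l.getD j 0 = s) :
    (B *ᵥ r1 l B j s) ⟨⟨p, hp⟩, ⟨0, hp0⟩⟩ = SA l B B s p j := by
  rw [vec_mat _ _ _ ⟨⟨j, hj⟩, ⟨0, hj0⟩⟩]
  have h1 : cf l (B * Matrix.of fun z _ => r1 l B j s z) p j 0 =
      (B * Matrix.of fun z _ => r1 l B j s z) (⟨⟨p, hp⟩, ⟨0, hp0⟩⟩ : IxL l)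
        (⟨⟨j, hj⟩, ⟨0, hj0⟩⟩ : IxL l) :=
    en_eq _ hp hj hp0 hj0
  rw [← h1, cf_mul hB hp hj hp0 hj0]
  refine Finset.sum_congr rfl fun a ha => ?_
  rw [Finset.mem_range] at ha
  rw [Finset.sum_range_one, cf_r1 j s a hj hj0 ha]
  by_cases h2 : l.getD a 0 = s + 1
  · rw [if_pos (by omega), if_pos h2]
  · rw [if_neg h2]
    by_cases h3 : s < l.getD a 0
    · rw [if_pos h3, cf_zero hB (show 1 + l.getD j 0 < l.getD a 0 by omega), mul_zero]
    · rw [if_neg h3, mul_zero]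

theorem B_B (hT : Rk (JU K l) B) {p j : ℕ}
    (hp : p < l.length) (hj : j < l.length) (hp1 : 1 < l.get ⟨p, hp⟩) (hj0 : 0 < l.get ⟨j, hj⟩)
    {s : ℕ} (hs : l.getD j 0 = s) (hps : l.getD p 0 = s) :
    cf l (B * B) p j 1 = SF l B B s p j + SA l B B s p j := by
  have hB : JU K l * B = B * JU K l := hT.comm
  rw [cf_mul hB hp hj hp1 hj0]
  unfold SF SA
  rw [← Finset.sum_add_distrib]
  refine Finset.sum_congr rfl fun a ha => ?_
  rw [Finset.mem_range] at ha
  rw [Finset.sum_range_succ, Finset.sum_range_one, Nat.sub_zero, Nat.sub_self]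
  rcases lt_trichotomy (l.getD a 0) s with h | h | h
  · rw [cf_zero hB (show 0 + l.getD a 0 < l.getD p 0 by omega), zero_mul,
      if_neg (show ¬ l.getD a 0 = s + 1 by omega), add_zero, add_zero]
    by_cases h1 : l.getD a 0 + 1 = s
    · rw [if_pos h1]
    · rw [if_neg h1, cf_zero hB (show 1 + l.getD a 0 < l.getD p 0 by omega), zero_mul]
  · rw [first hT ha hj (by omega), first hT hp ha (by omega),
      if_neg (show ¬ l.getD a 0 + 1 = s by omega), if_neg (show ¬ l.getD a 0 = s + 1 by omega),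
      mul_zero, zero_mul]
  · rw [cf_zero hB (show 0 + l.getD j 0 < l.getD a 0 by omega), mul_zero,
      if_neg (show ¬ l.getD a 0 + 1 = s by omega)]
    by_cases h1 : l.getD a 0 = s + 1
    · rw [if_pos h1]
    · rw [if_neg h1, cf_zero hB (show 1 + l.getD j 0 < l.getD a 0 by omega), mul_zero]

/-- **the quadrics of a maximal bad triple** -/
theorem quad (hT : Rk (JU K l) B) {p j s : ℕ}
    (hp : p < l.length) (hj : j < l.length) (hps : l.getD p 0 = s) (hjs : l.getD j 0 = s)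
    (hs : 0 < s) : ((s : K) - 1) * SF l B B s p j = ((s : K) + 1) * SA l B B s p j := by
  have hB : JU K l * B = B * JU K l := hT.comm
  have gp := getD_eq hp
  have gj := getD_eq hj
  have hp0 : 0 < l.get ⟨p, hp⟩ := by omega
  have hj0 : 0 < l.get ⟨j, hj⟩ := by omega
  obtain ⟨t, rfl⟩ : ∃ t, s = t + 1 := ⟨s - 1, by omega⟩
  have h1 := pow_B hT hj (show l.get ⟨j, hj⟩ = t + 1 by omega) hj0
  have h2 := B_r1 hB hp hj hp0 hj0 hjs
  cases t with
  | zero =>
    have hk : JU K l *ᵥ e0 l ⟨j, hj⟩ hj0 = 0 := by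
      have := pow_e0 (K := K) ⟨j, hj⟩ hj0 1 (by omega)
      rwa [pow_one] at this
    rw [pow_zero, one_mul, zero_add, pow_one] at h1
    obtain ⟨v, hv⟩ := lift2' (r1 := -r1 l B j 1) hT hk (by
      rw [h1, mulVec_neg, add_neg_cancel])
    have h3 := congrFun hv ⟨⟨p, hp⟩, ⟨0, hp0⟩⟩
    have h4 := pow_vec_low v ⟨p, hp⟩ 1 0 hp0 (by omega)
    rw [pow_one] at h4
    rw [h4, mulVec_neg, Pi.neg_apply] at h3
    have h5 : SA l B B (0 + 1) p j = 0 := by
      rw [← h2]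
      show (B *ᵥ r1 l B j 1) ⟨⟨p, hp⟩, ⟨0, hp0⟩⟩ = 0
      rw [← neg_eq_zero, ← h3]
    rw [h5]
    simp
  | succ m =>
    obtain ⟨v, hv⟩ := lift2 (r1 := (-((m : K) + 2)) • r1 l B j (m + 2)) hT
      (pow_e0 (K := K) ⟨j, hj⟩ hj0 (m + 2) (by omega)) (by
        rw [h1, mulVec_smul, show m + 1 + 1 = m + 2 from rfl]
        module)
    have h3 := congrFun hv ⟨⟨p, hp⟩, ⟨m + 1, by omega⟩⟩
    rw [pow_vec_low _ _ _ _ _ (by omega), Pi.add_apply, Pi.smul_apply, Pi.smul_apply, mat_e0,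
      mulVec_smul, Pi.smul_apply, ← mulVec_mulVec] at h3
    have h4 := pow_mul_shift (B * B) ⟨p, hp⟩ ⟨⟨j, hj⟩, ⟨0, hj0⟩⟩ m 1 (by omega)
    have h5 : (⟨⟨p, hp⟩, ⟨1 + m, by omega⟩⟩ : IxL l) = ⟨⟨p, hp⟩, ⟨m + 1, by omega⟩⟩ := by
      congr 1
      exact Fin.ext (by show 1 + m = m + 1; omega)
    have h6 := pow_vec_shift (B *ᵥ r1 l B j (m + 2)) ⟨p, hp⟩ (m + 1) 0 (by omega)
    have h7 : (⟨⟨p, hp⟩, ⟨0 + (m + 1), by omega⟩⟩ : IxL l) = ⟨⟨p, hp⟩, ⟨m + 1, by omega⟩⟩ := by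
      congr 1
      exact Fin.ext (by show 0 + (m + 1) = m + 1; omega)
    rw [h5] at h4
    rw [h7] at h6
    have h8 : (B * B) ⟨⟨p, hp⟩, ⟨1, by omega⟩⟩ ⟨⟨j, hj⟩, ⟨0, hj0⟩⟩ = cf l (B * B) p j 1 :=
      (en_eq _ hp hj (by omega) hj0).symm
    have h9 : (B *ᵥ r1 l B j (m + 2)) ⟨⟨p, hp⟩, ⟨0, by omega⟩⟩ = SA l B B (m + 1 + 1) p j := h2
    rw [h4, h6, h8, h9, B_B hT hp hj (by omega) hj0 hjs hps] at h3
    simp only [smul_eq_mul] at h3
    have h10 : (((m + 2).choose 2 : ℕ) : K) * 2 = ((m : K) + 2) * ((m : K) + 1) := by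
      have h11 : (m + 2).choose 2 * 2 = (m + 2) * (m + 1) := by
        rw [Nat.choose_two_right, show m + 2 - 1 = m + 1 from rfl]
        refine Nat.div_mul_cancel ?_
        have := (Nat.even_mul_succ_self (m + 1)).two_dvd
        rwa [mul_comm] at this
      exact_mod_cast h11
    have h12 : (m : K) + 2 ≠ 0 := by exact_mod_cast (show m + 2 ≠ 0 by omega)
    have h13 : ((m : K) + 2) * ((((m + 1 + 1 : ℕ) : K) - 1) * SF l B B (m + 1 + 1) p j) =
        ((m : K) + 2) * ((((m + 1 + 1 : ℕ) : K) + 1) * SA l B B (m + 1 + 1) p j) := by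
      push_cast
      linear_combination (-2 : K) * h3 - (SF l B B (m + 1 + 1) p j +
        SA l B B (m + 1 + 1) p j) * h10
    exact mul_left_cancel₀ h12 h13

theorem quad_tree (hT : Rk (JU K l) B) {p j : ℕ} (hp : p < l.length) (hj : j < l.length)
    (h : Tree.len l p = Tree.len l j) : Tree.quad l (cf l B) (cf l B) p j = 0 := by
  unfold Tree.quad
  change l.getD p 0 = l.getD j 0 at h
  show (∑ q ∈ Finset.range l.length,
    ((if l.getD q 0 + 1 = l.getD p 0 then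
        (((l.getD p 0 : ℕ) : K) - 1) * cf l B p q 1 * cf l B q j 0 else 0) -
      (if l.getD q 0 = l.getD p 0 + 1 then
        (((l.getD p 0 : ℕ) : K) + 1) * cf l B p q 0 * cf l B q j 1 else 0))) = 0
  by_cases hs : 0 < l.getD p 0
  · have h1 := quad hT hp hj rfl h.symm hs
    unfold SF SA at h1
    rw [Finset.mul_sum, Finset.mul_sum] at h1
    rw [Finset.sum_sub_distrib, sub_eq_zero]
    refine Eq.trans (Finset.sum_congr rfl fun q _ => ?_)
      (h1.trans (Finset.sum_congr rfl fun q _ => ?_))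
    · split_ifs <;> ring
    · split_ifs <;> ring
  · refine Finset.sum_eq_zero fun q _ => ?_
    have e1 : cf l B p q 1 = 0 := cf_out (by omega)
    have e2 : cf l B p q 0 = 0 := cf_out (by omega)
    rw [e1, e2]
    simp

end quads

end coords

end MaxQ

/-- **the quadrics of the maximal bad triples** -/
theorem Cert.quad2 (K : Type*) [Field K] [CharZero K] (l : List ℕ) : Cert.Quad2 K l := by
  intro T hT h0 M hM p j hp hj h
  have h1 : MaxQ.Rk (T 0) M := MaxQ.Rk.of hT (fun i => by rw [h0]) hM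
  rw [h0] at h1
  exact MaxQ.quad_tree h1 hp hj h

universe u

/-- **A certificate with second order relations excludes a Jordan type.** -/
theorem Cert.rowM {k : Type u} [Field k] [IsAlgClosed k] [CharZero k] {l : List ℕ} {d : ℕ}
    (hall : HALL k d) (N : ℕ) (t : Tree.Tr)
    (h : (Cert.ok l d N && (Tree.sysM l).checkZ N 0 t) = true) : ¬ Bad k l :=
  Cert.rowM_of (fun K _ _ _ => Cert.quad2 K l) hall N t h

end Pool.Agent.Lib.D13
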