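import Pool.Agent.Lib.D13.Frame
import Pool.Agent.Lib.D13.E1
import Pool.Agent.Lib.D10.ClT163
import Pool.Agent.Lib.D10.ClT136
import Pool.Agent.Lib.D11.ClT164
import Pool.Agent.Lib.D11.ClT146
import Pool.Agent.Lib.D12.ClT174
import Pool.Agent.Lib.D12.ClT147

/-!
# MP_5dcbc3_ag: the types `(3, 2, 2, 1, 1, 1)`, `(3, 2, 2, 2, 1, 1)`, `(3, 2, 2, 2, 1, 1, 1)` are not
bad
-/

namespace Pool.Agent.Lib.D13

open Matrix Pool.Agent.Lib.Q5dc Pool.Agent.Lib.D7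

variable {k : Type*} [Field k] [IsAlgClosed k] [CharZero k]

theorem not_bad_e322111 : ¬ Bad k [3, 2, 2, 1, 1, 1] := by
  have : Infinite k := IsAlgClosed.instInfinite
  exact not_bad_321 (e := 1) (u := 2) (p := 3) fun _ _ hT hρ h0 =>
    no_E1 (u := 2) (p := 3) (q₁ := 3) (c₁ := 3) (q₃ := 0) (c₃ := 6) rfl rfl rfl rfl
      D10.cl_T163 D10.cl_T136 hT hρ h0

theorem not_bad_e322211 : ¬ Bad k [3, 2, 2, 2, 1, 1] := by
  have : Infinite k := IsAlgClosed.instInfinite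
  exact not_bad_321 (e := 1) (u := 3) (p := 2) fun _ _ hT hρ h0 =>
    no_E1 (u := 3) (p := 2) (q₁ := 3) (c₁ := 4) (q₃ := 1) (c₃ := 6) rfl rfl rfl rfl
      D11.cl_T164 D11.cl_T146 hT hρ h0

theorem not_bad_e3222111 : ¬ Bad k [3, 2, 2, 2, 1, 1, 1] := by
  have : Infinite k := IsAlgClosed.instInfinite
  exact not_bad_321 (e := 1) (u := 3) (p := 3) fun _ _ hT hρ h0 =>
    no_E1 (u := 3) (p := 3) (q₁ := 4) (c₁ := 4) (q₃ := 1) (c₃ := 7) rfl rfl rfl rfl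
      D12.cl_T174 D12.cl_T147 hT hρ h0

end Pool.Agent.Lib.D13
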