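import Pool.Agent.Lib.D13.HAll
import Pool.Agent.Lib.D13.MT10a
import Pool.Agent.Lib.D13.MT10b
import Pool.Agent.Lib.D13.NBE3

/-!
# MP_5dcbc3_ag: all commuting nilpotent triples of matrices of size 10 are limits of curvilinear ones
-/

universe u

namespace Pool.Agent.Lib.D13

open Matrix Pool.Agent.Lib.Q5dc Pool.Agent.Lib.D7

variable {k : Type u} [Field k] [IsAlgClosed k] [CharZero k]

theorem step10
    (hall : HALL k 10) : HALL k 11 := by
  refine hall.step (by norm_num) fun l hl => ?_
  rw [rest2_eq10] at hl
  simp only [List.mem_cons, List.not_mem_nil, or_false] at hl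
  rcases hl with rfl | rfl | rfl | rfl | rfl | rfl | rfl | rfl | rfl | rfl | rfl | rfl | rfl |
    rfl | rfl | rfl | rfl | rfl
  · exact not_bad_e322111
  · exact not_bad_t32221 hall
  · exact not_bad_t33211 hall
  · exact not_bad_t3322 hall
  · exact not_bad_t3331 hall
  · exact not_bad_t42211 hall
  · exact not_bad_t4222 hall
  · exact not_bad_t4321 hall
  · exact not_bad_t433 hall
  · exact not_bad_t4411 hall
  · exact not_bad_t442 hall
  · exact not_bad_t5221 hall
  · exact not_bad_t5311 hall
  · exact not_bad_t532 hall
  · exact not_bad_t541 hall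
  · exact not_bad_t6211 hall
  · exact not_bad_t622 hall
  · exact not_bad_t631 hall

end Pool.Agent.Lib.D13
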