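import Pool.Agent.Lib.D13.CertRow

/-!
# MP_5dcbc3_ag: certificates for types of size 11
-/

universe u

namespace Pool.Agent.Lib.D13

variable {k : Type u} [Field k] [IsAlgClosed k] [CharZero k]

/-- the certificate of the type `[7, 2, 1, 1]` -/
def tr7211 : Tree.Tr :=
  .leaf 0x0
  0x300000000000000000000000000000000000000000000000000000000000000000000000000000000000000000000000000000000000000000000000000000000000000000000000000000000000000000000000000000000000000000000000000000000004000000000000000000000000000000000000300000000000000000000000000000000c00000000000000000000000000000000000000000100003000000000000000000000000000000000000000000000000000000000000000000000000002000000000000000000000000000000000000000000000000000000000000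
  [(5, 24, 57), (6, 54, 169), (29, 56, 73), (20, 86, 25), (36, 182, 101)]

theorem not_bad_t7211 (hall : HALL k 11) : ¬ Bad k [7, 2, 1, 1] :=
  Cert.row hall 21 tr7211 (by decide +kernel)

/-- the certificate of the type `[7, 2, 2]` -/
def tr722 : Tree.Tr :=
  .leaf 0x0
  0xc060000000000000000000000000000000000000000000000000000000000000000000400000000000000000000000000000000000050000000000000000000000000000000000500004000000000000000000000000000000000000000000000000000000000000000000000000000000000000000000000000000000000
  [(20, 24, 73), (43, 42, 101), (6, 44, 25), (22, 58, 43), (13, 100, 39)]

theorem not_bad_t722 (hall : HALL k 11) : ¬ Bad k [7, 2, 2] :=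
  Cert.row hall 19 tr722 (by decide +kernel)

/-- the certificate of the type `[7, 3, 1]` -/
def tr731 : Tree.Tr :=
  .leaf 0x0
  0x100000000000000000000000000000000003000000000000000000000040300000000000000000000000000000000c00004000000000000000000000000000000000000200000000000000000000000000000000000000000000000800008000000000000000000000000000000000000000000000000000000000
  [(13, 22, 61), (22, 42, 59), (6, 44, 25), (12, 58, 23), (30, 74, 99), (23, 84, 75), (42, 98,
  43)]

theorem not_bad_t731 (hall : HALL k 11) : ¬ Bad k [7, 3, 1] :=
  Cert.row hall 17 tr731 (by decide +kernel)

end Pool.Agent.Lib.D13
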