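import Pool.Agent.Lib.D13.Frame
import Pool.Agent.Lib.D10.X21
import Pool.Agent.Lib.D10.T33211

/-!
# MP_5dcbc3_ag: the types `(3, 3, 2, 1^p)` of sizes `10`, `11` are not bad
-/

namespace Pool.Agent.Lib.D13

open Matrix Pool.Agent.Lib.Q5dc Pool.Agent.Lib.D7

variable {k : Type*} [Field k] [IsAlgClosed k] [CharZero k]

theorem not_bad_33211 : ¬ Bad k [3, 3, 2, 1, 1] := by
  have : Infinite k := IsAlgClosed.instInfinite
  exact not_bad_321 (e := 2) (u := 1) (p := 2) fun _ _ hT hρ h0 => D10.no_33211 hT hρ h0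

theorem not_bad_332111 : ¬ Bad k [3, 3, 2, 1, 1, 1] := by
  have : Infinite k := IsAlgClosed.instInfinite
  exact not_bad_321 (e := 2) (u := 1) (p := 3) fun _ _ hT hρ h0 => D10.no_X21 le_rfl hT hρ h0

end Pool.Agent.Lib.D13
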