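import Pool.Agent.Lib.D13.L2Rows

/-!
# MP_5dcbc3_ag: the types `(l, 2^u, 1^p)` with `l ≥ 4`, `u ≥ 1`, `p ≥ 2` are not bad
-/

namespace Pool.Agent.Lib.D13

open Matrix Pool.Agent.Lib.Q5dc Pool.Agent.Lib.D7

variable {k : Type*} [Field k] [IsAlgClosed k] [CharZero k]

theorem not_bad_4211 : ¬ Bad k [4, 2, 1, 1] :=
  not_bad_l2 (by norm_num) (by simp) (by simp) (by simp) (by simp)

theorem not_bad_5211 : ¬ Bad k [5, 2, 1, 1] :=
  not_bad_l2 (by norm_num) (by simp) (by simp) (by simp) (by simp)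

theorem not_bad_42211 : ¬ Bad k [4, 2, 2, 1, 1] :=
  not_bad_l2 (by norm_num) (by simp) (by simp) (by simp) (by simp)

theorem not_bad_6211 : ¬ Bad k [6, 2, 1, 1] :=
  not_bad_l2 (by norm_num) (by simp) (by simp) (by simp) (by simp)

theorem not_bad_422111 : ¬ Bad k [4, 2, 2, 1, 1, 1] :=
  not_bad_l2 (by norm_num) (by simp) (by simp) (by simp) (by simp)

theorem not_bad_52211 : ¬ Bad k [5, 2, 2, 1, 1] :=
  not_bad_l2 (by norm_num) (by simp) (by simp) (by simp) (by simp)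

theorem not_bad_7211 : ¬ Bad k [7, 2, 1, 1] :=
  not_bad_l2 (by norm_num) (by simp) (by simp) (by simp) (by simp)

theorem not_bad_422211 : ¬ Bad k [4, 2, 2, 2, 1, 1] :=
  not_bad_l2 (by norm_num) (by simp) (by simp) (by simp) (by simp)

theorem not_bad_522111 : ¬ Bad k [5, 2, 2, 1, 1, 1] :=
  not_bad_l2 (by norm_num) (by simp) (by simp) (by simp) (by simp)

theorem not_bad_62211 : ¬ Bad k [6, 2, 2, 1, 1] :=
  not_bad_l2 (by norm_num) (by simp) (by simp) (by simp) (by simp)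

theorem not_bad_8211 : ¬ Bad k [8, 2, 1, 1] :=
  not_bad_l2 (by norm_num) (by simp) (by simp) (by simp) (by simp)

end Pool.Agent.Lib.D13
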