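import Pool.Agent.Lib.D13.HAll
import Pool.Agent.Lib.D13.MT11Ma
import Pool.Agent.Lib.D13.MT11a
import Pool.Agent.Lib.D13.MT11b
import Pool.Agent.Lib.D13.MT11c
import Pool.Agent.Lib.D13.MT11d
import Pool.Agent.Lib.D13.MT11e
import Pool.Agent.Lib.D13.NBE3
import Pool.Agent.Lib.D13.NBE2
import Pool.Agent.Lib.D13.NBl2

/-!
# MP_5dcbc3_ag: all commuting nilpotent triples of matrices of size 11 are limits of curvilinear ones
-/

universe u

namespace Pool.Agent.Lib.D13

open Matrix Pool.Agent.Lib.Q5dc Pool.Agent.Lib.D7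

variable {k : Type u} [Field k] [IsAlgClosed k] [CharZero k]

theorem step11
    (hq33221 : ∀ (K : Type u) [Field K] [IsAlgClosed K] [CharZero K], Cert.Quad2 K [3, 3, 2, 2, 1])
    (hall : HALL k 11) : HALL k 12 := by
  refine hall.step (by norm_num) fun l hl => ?_
  rw [rest2_eq11] at hl
  simp only [List.mem_cons, List.not_mem_nil, or_false] at hl
  rcases hl with rfl | rfl | rfl | rfl | rfl | rfl | rfl | rfl | rfl | rfl | rfl | rfl | rfl |
    rfl | rfl | rfl | rfl | rfl | rfl | rfl | rfl | rfl | rfl | rfl | rfl | rfl | rfl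
  · exact not_bad_e322211
  · exact not_bad_t32222 hall
  · exact not_bad_332111
  · exact not_bad_t33221 hq33221 hall
  · exact not_bad_t33311 hall
  · exact not_bad_t3332 hall
  · exact not_bad_422111
  · exact not_bad_t42221 hall
  · exact not_bad_t43211 hall
  · exact not_bad_t4322 hall
  · exact not_bad_t4331 hall
  · exact not_bad_t4421 hall
  · exact not_bad_t443 hall
  · exact not_bad_t52211 hall
  · exact not_bad_t5222 hall
  · exact not_bad_t5321 hall
  · exact not_bad_t533 hall
  · exact not_bad_t5411 hall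
  · exact not_bad_t542 hall
  · exact not_bad_t551 hall
  · exact not_bad_t6221 hall
  · exact not_bad_t6311 hall
  · exact not_bad_t632 hall
  · exact not_bad_t641 hall
  · exact not_bad_t7211 hall
  · exact not_bad_t722 hall
  · exact not_bad_t731 hall

end Pool.Agent.Lib.D13
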