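import Pool.Agent.Lib.D13.HAll
import Pool.Agent.Lib.D13.MT12Ma
import Pool.Agent.Lib.D13.MT12Mb
import Pool.Agent.Lib.D13.MT12Mc
import Pool.Agent.Lib.D13.MT12a
import Pool.Agent.Lib.D13.MT12b
import Pool.Agent.Lib.D13.MT12c
import Pool.Agent.Lib.D13.MT12d
import Pool.Agent.Lib.D13.MT12e
import Pool.Agent.Lib.D13.MT12f
import Pool.Agent.Lib.D13.MT12g
import Pool.Agent.Lib.D13.MT12h
import Pool.Agent.Lib.D13.MT12i
import Pool.Agent.Lib.D13.MT12j
import Pool.Agent.Lib.D13.MT12k
import Pool.Agent.Lib.D13.MT12l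
import Pool.Agent.Lib.D13.NBE3

/-!
# MP_5dcbc3_ag: all commuting nilpotent triples of matrices of size 12 are limits of curvilinear ones
-/

universe u

namespace Pool.Agent.Lib.D13

open Matrix Pool.Agent.Lib.Q5dc Pool.Agent.Lib.D7

variable {k : Type u} [Field k] [IsAlgClosed k] [CharZero k]

theorem step12
    (hq332211 : ∀ (K : Type u) [Field K] [IsAlgClosed K] [CharZero K], Cert.Quad2 K [3, 3, 2, 2, 1, 1])
    (hq43221 : ∀ (K : Type u) [Field K] [IsAlgClosed K] [CharZero K], Cert.Quad2 K [4, 3, 2, 2, 1])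
    (hq4332 : ∀ (K : Type u) [Field K] [IsAlgClosed K] [CharZero K], Cert.Quad2 K [4, 3, 3, 2])
    (h4422 : HALL k 12 → ¬ Bad k [4, 4, 2, 2])
    (hall : HALL k 12) : HALL k 13 := by
  refine hall.step (by norm_num) fun l hl => ?_
  rw [rest2_eq12] at hl
  simp only [List.mem_cons, List.not_mem_nil, or_false] at hl
  rcases hl with rfl | rfl | rfl | rfl | rfl | rfl | rfl | rfl | rfl | rfl | rfl | rfl | rfl |
    rfl | rfl | rfl | rfl | rfl | rfl | rfl | rfl | rfl | rfl | rfl | rfl | rfl | rfl | rfl |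
    rfl | rfl | rfl | rfl | rfl | rfl | rfl | rfl | rfl | rfl | rfl | rfl
  · exact not_bad_e3222111
  · exact not_bad_t322221 hall
  · exact not_bad_t332211 hq332211 hall
  · exact not_bad_t33222 hall
  · exact not_bad_t333111 hall
  · exact not_bad_t33321 hall
  · exact not_bad_t3333 hall
  · exact not_bad_t422211 hall
  · exact not_bad_t42222 hall
  · exact not_bad_t432111 hall
  · exact not_bad_t43221 hq43221 hall
  · exact not_bad_t43311 hall
  · exact not_bad_t4332 hq4332 hall
  · exact not_bad_t44211 hall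
  · exact h4422 hall
  · exact not_bad_t4431 hall
  · exact not_bad_t444 hall
  · exact not_bad_t522111 hall
  · exact not_bad_t52221 hall
  · exact not_bad_t53211 hall
  · exact not_bad_t5322 hall
  · exact not_bad_t5331 hall
  · exact not_bad_t5421 hall
  · exact not_bad_t543 hall
  · exact not_bad_t5511 hall
  · exact not_bad_t552 hall
  · exact not_bad_t62211 hall
  · exact not_bad_t6222 hall
  · exact not_bad_t6321 hall
  · exact not_bad_t633 hall
  · exact not_bad_t6411 hall
  · exact not_bad_t642 hall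
  · exact not_bad_t651 hall
  · exact not_bad_t7221 hall
  · exact not_bad_t7311 hall
  · exact not_bad_t732 hall
  · exact not_bad_t741 hall
  · exact not_bad_t8211 hall
  · exact not_bad_t822 hall
  · exact not_bad_t831 hall

end Pool.Agent.Lib.D13
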