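import Pool.Agent.Lib.D13.CertRow

/-!
# MP_5dcbc3_ag: certificates for types of size 8
-/

universe u

namespace Pool.Agent.Lib.D13

variable {k : Type u} [Field k] [IsAlgClosed k] [CharZero k]

/-- the certificate of the type `[3, 2, 2, 1]` -/
def tr3221 : Tree.Tr :=
  (.leaf 0 0x31889000000000011039000000000004c05000002701700000000001ec3900000000000d0a800000000002dc0c1142c0000005caf0000000000174b600000000001506b00000000002043e138a11a008000000000007ca80043d0000006c470a46000000000000000000000 [(1, 
  24, 9), (8, 84, 23), (25, 56, 25), (5, 8, 33), (13, 38, 49), (2, 14, 51), (28, 78, 69), (16, 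
  44, 79), (36, 48, 85)])

theorem not_bad_t3221 (hall : HALL k 8) : ¬ Bad k [3, 2, 2, 1] :=
  Cert.row hall 27 tr3221 (by decide +kernel)

/-- the certificate of the type `[3, 3, 1, 1]` -/
def tr3311 : Tree.Tr :=
  (.leaf 0 0x100000000000000200000000000000000000000000000000000000001140c00000000001a002000000000000000000000000000000000000000100000000000005f0000000001000000000000001000000000020c000b00200000000000000000000 [(2, 
  26, 9), (14, 40, 49), (5, 16, 55)])

theorem not_bad_t3311 (hall : HALL k 8) : ¬ Bad k [3, 3, 1, 1] :=
  Cert.row hall 25 tr3311 (by decide +kernel)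

/-- the certificate of the type `[3, 3, 2]` -/
def tr332 : Tree.Tr :=
  (.leaf 0 0x228610000000000048470002c0000027c0007000130160300500000194682b4010000013c580000a00000090141b03000000120542289900000000000000000000 [(8, 
  50, 15), (14, 8, 21), (11, 20, 27), (13, 42, 33), (10, 32, 37), (2, 14, 39), (19, 36, 51)])

theorem not_bad_t332 (hall : HALL k 8) : ¬ Bad k [3, 3, 2] :=
  Cert.row hall 23 tr332 (by decide +kernel)

/-- the certificate of the type `[4, 2, 1, 1]` -/
def tr4211 : Tree.Tr :=
  (.leaf 0 0x100000000000000000002000000000000000000000000000000000000000000000000000000017400000000000000000000010000000000000010000000000000000000000000000000000000004000000000000000000020000200026000000000000000000000000000000000000440100001000000000000000000000000000000 [(2, 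
  32, 13), (17, 42, 33), (11, 12, 51), (7, 22, 73), (3, 30, 97)])

theorem not_bad_t4211 (hall : HALL k 8) : ¬ Bad k [4, 2, 1, 1] :=
  Cert.row hall 21 tr4211 (by decide +kernel)

/-- the certificate of the type `[4, 2, 2]` -/
def tr422 : Tree.Tr :=
  (.leaf 0 0x120000000000000002c0b7000000000000000160181e40200000000002e01e000000000000000198250000000000000001a417000211fc091bc0f000000000002c9f08c1f000000000000000000000000000000 [(7, 
  58, 21), (3, 14, 25), (11, 12, 43), (2, 20, 49), (25, 24, 59)])

theorem not_bad_t422 (hall : HALL k 8) : ¬ Bad k [4, 2, 2] :=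
  Cert.row hall 19 tr422 (by decide +kernel)

/-- the certificate of the type `[4, 3, 1]` -/
def tr431 : Tree.Tr :=
  (.leaf 0 0x26cb10000000000000000c88c00000218a6000000000000000234b80580a00000000001f06e238a907c25114440000000000000002e46529061218a70000000000000000000000000 [(7, 
  36, 11), (3, 26, 13), (24, 56, 25), (2, 10, 27), (13, 24, 35), (14, 48, 45), (18, 44, 57)])

theorem not_bad_t431 (hall : HALL k 8) : ¬ Bad k [4, 3, 1] :=
  Cert.row hall 17 tr431 (by decide +kernel)

end Pool.Agent.Lib.D13
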