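import Pool.Agent.Lib.D13.HAll
import Pool.Agent.Lib.D13.MT9a
import Pool.Agent.Lib.D13.NB9b

/-!
# MP_5dcbc3_ag: all commuting nilpotent triples of matrices of size 9 are limits of curvilinear ones
-/

universe u

namespace Pool.Agent.Lib.D13

open Matrix Pool.Agent.Lib.Q5dc Pool.Agent.Lib.D7

variable {k : Type u} [Field k] [IsAlgClosed k] [CharZero k]

theorem step9
    (hall : HALL k 9) : HALL k 10 := by
  refine hall.step (by norm_num) fun l hl => ?_
  rw [rest2_eq9] at hl
  simp only [List.mem_cons, List.not_mem_nil, or_false] at hl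
  rcases hl with rfl | rfl | rfl | rfl | rfl | rfl | rfl | rfl | rfl | rfl | rfl
  · exact not_bad_32211
  · exact not_bad_t3222 hall
  · exact not_bad_t3321 hall
  · exact not_bad_t333 hall
  · exact not_bad_t4221 hall
  · exact not_bad_t4311 hall
  · exact not_bad_t432 hall
  · exact not_bad_t441 hall
  · exact not_bad_t5211 hall
  · exact not_bad_t522 hall
  · exact not_bad_t531 hall

end Pool.Agent.Lib.D13
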