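import Pool.Agent.Lib.D13.Auto
import Pool.Agent.Lib.D13.C42Fin
import Pool.Agent.Lib.D13.RangeLim
import Pool.Agent.Lib.D13.Frame

/-!
# MP_5dcbc3_ag: the Jordan type (4,4,2,2)

`MaxR.shape42`: the matrices of a maximal triple with the Jordan matrix of type `(4^e, 2^q)` are
`TT a b c`. `forty_le`: the centraliser of the Jordan matrix of type `(4,4,2,2)` has dimension at
least `40`. As all the pairs `TT a b c`, `TT a' b' c'` which commute have at most `49` parameters
(`count49`), there is no maximal bad triple with this Jordan matrix (`no_4422`, `not_bad_4422`).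
-/

namespace Pool.Agent.Lib.D13

open Matrix Pool.Agent.Lib.Q5dc Pool.Agent.Lib.D7

namespace S42

universe u

section

variable {k : Type*} [Field k]

/-- `A ^ 3 X = 0` for elements of `adj T` if `ρ 4 = 0` -/
theorem mul_four {n : Type*} [Fintype n] [DecidableEq n] [CharZero k] {ρ : ℕ → ℕ}
    {T : Fin 3 → Matrix n n k} (hT : MaxR ρ T) (h4 : ρ 4 = 0) {A X : Matrix n n k}
    (hA : A ∈ adj T) (hX : X ∈ adj T) : A * (A * (A * X)) = 0 := by
  have h : ∀ Y ∈ adj T, Y * (Y * (Y * Y)) = 0 := by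
    intro Y hY
    have h1 := hT.pow_eq_zero hY h4
    rw [← h1, pow_succ, pow_succ, pow_two, mul_assoc, mul_assoc]
  have hc : X * A = A * X := hT.cn.comm hX hA
  have hc' : ∀ Z, X * (A * Z) = A * (X * Z) := by
    intro Z
    rw [← mul_assoc, hc, mul_assoc]
  have hs := fun s : k => h _ (add_mem hA (SMulMemClass.smul_mem s hX))
  have e1 := hs 1
  have e2 := hs (-1)
  have e3 := hs 2
  have e4 := hs (-2)
  simp only [mul_add, add_mul, smul_mul_assoc, mul_smul_comm, hc, hc', smul_add, smul_smul]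
    at e1 e2 e3 e4
  have e : (48 : k) • (A * (A * (A * X))) = 0 := by
    linear_combination (norm := module) (8 : k) • e1 - (8 : k) • e2 - e3 + e4
  exact (smul_eq_zero.mp e).resolve_left (by norm_num)

variable {E F : Type*} [Fintype E] [DecidableEq E] [Fintype F] [DecidableEq F]

theorem J_pow4 : J k E F ^ 4 = 0 := TT_pow4 1 0 0

/-- the shape of the elements of `adj T` -/
theorem shape_of [CharZero k] {ρ : ℕ → ℕ} {T : Fin 3 → Matrix (I4 E F) (I4 E F) k}
    (hT : MaxR ρ T) (hρ : ∀ i, ρ i = (J k E F ^ i).rank) (hA : J k E F ∈ adj T)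
    {X : Matrix (I4 E F) (I4 E F) k} (hX : X ∈ adj T) : ∃ a b c, X = TT a b c := by
  have : Infinite k := CharZero.infinite k
  have h4 : ρ 4 = 0 := by rw [hρ, J_pow4, Matrix.rank_zero]
  refine shape (hT.cn.comm hA hX) ?_ fun q hq => ?_
  · have h := mul_four hT h4 hA hX
    simpa only [Matrix.mul_assoc] using h
  · refine sq_first (fun s => ?_) hq
    have h := hT.rank_le (add_mem hA (SMulMemClass.smul_mem s hX)) 2
    rwa [hρ] at h

/-- the shape of a maximal triple -/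
theorem shape42 [CharZero k] {ρ : ℕ → ℕ} {T : Fin 3 → Matrix (I4 E F) (I4 E F) k}
    (hT : MaxR ρ T) (hρ : ∀ i, ρ i = (J k E F ^ i).rank) (h0 : T 0 = J k E F) :
    ∃ a b c a' b' c', CC a b a' b' ∧ T = ![J k E F, TT a b c, TT a' b' c'] := by
  have hA : J k E F ∈ adj T := h0 ▸ mem_adj T 0
  obtain ⟨a, b, c, h1⟩ := shape_of hT hρ hA (mem_adj T 1)
  obtain ⟨a', b', c', h2⟩ := shape_of hT hρ hA (mem_adj T 2)
  refine ⟨a, b, c, a', b', c', ?_, ?_⟩
  · refine (comm_iff (c := c) (c' := c')).1 ?_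
    rw [← h1, ← h2]
    exact hT.cn.comm (mem_adj T 1) (mem_adj T 2)
  · funext i
    fin_cases i
    · exact h0
    · exact h1
    · exact h2

/-! ### the centraliser of the Jordan matrix -/

/-- block diagonal matrices -/
def DD (P : Matrix E E k) (Q : Matrix F F k) : Matrix (I4 E F) (I4 E F) k :=
  fromBlocks (fromBlocks P 0 0 (fromBlocks P 0 0 Q)) 0 0
    (fromBlocks (fromBlocks P 0 0 Q) 0 0 P)

omit [Fintype F] [DecidableEq F] [Fintype E] [DecidableEq E] in
theorem DD_add (P P' : Matrix E E k) (Q Q' : Matrix F F k) :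
    DD (P + P') (Q + Q') = DD P Q + DD P' Q' := by
  simp only [DD, fromBlocks_add, add_zero]

omit [Fintype F] [DecidableEq F] [Fintype E] [DecidableEq E] in
theorem DD_smul (s : k) (P : Matrix E E k) (Q : Matrix F F k) :
    DD (s • P) (s • Q) = s • DD P Q := by
  simp only [DD, fromBlocks_smul, smul_zero]

theorem J_DD (P : Matrix E E k) (Q : Matrix F F k) :
    J k E F * DD P Q = DD P Q * J k E F := by
  have e1 : io k E F * P = fromBlocks P 0 0 Q * io k E F := by
    ext (i | i) j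
    · simp [io, Matrix.mul_apply, Matrix.one_apply, Fintype.sum_sum_type]
    · simp [io, Matrix.mul_apply, Matrix.one_apply, Fintype.sum_sum_type]
  have e2 : P * po k E F = po k E F * fromBlocks P 0 0 Q := by
    ext i (j | j)
    · simp [po, Matrix.mul_apply, Matrix.one_apply, Fintype.sum_sum_type]
    · simp [po, Matrix.mul_apply, Matrix.one_apply, Fintype.sum_sum_type]
  simp only [J, TT, DD, fromBlocks_multiply, Matrix.mul_zero, Matrix.zero_mul, add_zero, zero_add,
    Matrix.one_mul, Matrix.mul_one, e1, e2]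

/-- a `40`-dimensional space of matrices commuting with the Jordan matrix -/
def cenMap (k : Type*) [Field k] :
    (Matrix V2 V2 k × (Bp → k) × Matrix (Fin 2) (Fin 2) k × Matrix (Fin 2) (Fin 2) k ×
      Matrix (Fin 2) (Fin 2) k) →ₗ[k] Pur.cen (J k (Fin 2) (Fin 2)) where
  toFun w := ⟨TT w.1 (mk w.2.1) w.2.2.1 + DD w.2.2.2.1 w.2.2.2.2, by
    show J k (Fin 2) (Fin 2) * _ = _ * J k (Fin 2) (Fin 2)
    rw [Matrix.mul_add, Matrix.add_mul, J_comm, J_DD]⟩
  map_add' w w' := by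
    apply Subtype.ext
    show TT (w.1 + w'.1) (mk (w.2.1 + w'.2.1)) (w.2.2.1 + w'.2.2.1) +
      DD (w.2.2.2.1 + w'.2.2.2.1) (w.2.2.2.2 + w'.2.2.2.2) = (TT w.1 (mk w.2.1) w.2.2.1 +
      DD w.2.2.2.1 w.2.2.2.2) + (TT w'.1 (mk w'.2.1) w'.2.2.1 + DD w'.2.2.2.1 w'.2.2.2.2)
    rw [mk_add, ← TT_add, DD_add]
    abel
  map_smul' s w := by
    apply Subtype.ext
    show TT (s • w.1) (mk (s • w.2.1)) (s • w.2.2.1) +
      DD (s • w.2.2.2.1) (s • w.2.2.2.2) = s • (TT w.1 (mk w.2.1) w.2.2.1 +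
      DD w.2.2.2.1 w.2.2.2.2)
    rw [mk_smul, ← TT_smul, DD_smul, smul_add]

theorem cenMap_inj (k : Type*) [Field k] : Function.Injective (cenMap k) := by
  rw [injective_iff_map_eq_zero]
  rintro ⟨a, v, c, P, Q⟩ h
  have h0 : TT a (mk v) c + DD P Q = 0 := congrArg Subtype.val h
  rw [TT, DD, fromBlocks_add] at h0
  obtain ⟨h1, -, h2, -⟩ := fromBlocks_inj.1 (h0.trans fromBlocks_zero.symm)
  rw [fromBlocks_add] at h1
  rw [add_zero] at h2
  obtain ⟨hP, -, -, hPQ⟩ := fromBlocks_inj.1 (h1.trans fromBlocks_zero.symm)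
  obtain ⟨hb, ha, hc, hb'⟩ := fromBlocks_inj.1 (h2.trans fromBlocks_zero.symm)
  rw [zero_add] at hP
  rw [zero_add] at hPQ
  have hQ := (fromBlocks_inj.1 (hPQ.trans fromBlocks_zero.symm)).2.2.2
  have hv : v = 0 := by
    funext p
    rcases p with ⟨i, j⟩ | ⟨i, j⟩
    · have h1 := congrFun (congrFun hb i) j
      rw [mul_io_apply] at h1
      exact h1
    · have h1 := congrFun (congrFun hb' i) (.inr j)
      rw [po_mul_apply] at h1
      exact h1
  rw [hP, hQ, ha, hc, hv]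
  rfl

theorem rank_ext {k K : Type*} [Field k] [Field K] [Algebra k K] {n : Type*} [Fintype n]
    [DecidableEq n] (A : Matrix n n k) : (A.map (algebraMap k K)).rank = A.rank := by
  have key : ∀ {r : ℕ} (f g : Fin r → n), ((A.map (algebraMap k K)).submatrix f g).det =
      algebraMap k K (A.submatrix f g).det := by
    intro r f g
    rw [RingHom.map_det]
    rfl
  refine le_antisymm ?_ ?_
  · obtain ⟨f, g, h⟩ := PolyAux.exists_minor (A.map (algebraMap k K))
    refine le_rank_of_minor A f g fun h0 => h ?_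
    rw [key, h0, map_zero]
  · obtain ⟨f, g, h⟩ := PolyAux.exists_minor A
    refine le_rank_of_minor _ f g fun h0 => h ?_
    rw [key] at h0
    exact (map_eq_zero _).1 h0

theorem forty_le (k : Type*) [Field k] :
    40 ≤ Module.finrank k (Pur.cen (J k (Fin 2) (Fin 2))) := by
  have h := LinearMap.finrank_le_finrank_of_injective (cenMap_inj k)
  refine le_trans (le_of_eq ?_) h
  simp only [Module.finrank_prod, Module.finrank_matrix, Module.finrank_fintype_fun_eq_card,
    Fintype.card_sum, Fintype.card_fin, Fintype.card_prod, Module.finrank_self]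

theorem six_le (k : Type*) [Field k] : 6 ≤ (J k (Fin 2) (Fin 2)).rank := by
  have e : (J k (Fin 2) (Fin 2)).submatrix
      (Sum.elim (fun e => .inl (.inr (.inl e))) (fun v => .inr (.inl v)))
      (Sum.elim (fun e => .inl (.inl e)) (fun v => .inl (.inr v))) =
      (1 : Matrix (Fin 2 ⊕ V2) (Fin 2 ⊕ V2) k) := by
    ext (i | i) (j | j)
    · simp [J, TT, io, Matrix.one_apply]
    · simp [J, TT]
    · simp [J, TT]
    · simp [J, TT, Matrix.one_apply]
  have h := rank_submatrix_le (J k (Fin 2) (Fin 2))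
    (Sum.elim (fun e => .inl (.inr (.inl e))) (fun v => .inr (.inl v)) : Fin 2 ⊕ V2 → _)
    (Sum.elim (fun e => .inl (.inl e)) (fun v => .inl (.inr v)) : Fin 2 ⊕ V2 → _)
  rw [e, Matrix.rank_one] at h
  simpa using h

theorem map_J {k K : Type*} [Field k] [Field K] [Algebra k K] :
    (J k (Fin 2) (Fin 2)).map (algebraMap k K) = J K (Fin 2) (Fin 2) := by
  ext ((i | (i | i)) | ((i | i) | i)) ((j | (j | j)) | ((j | j) | j)) <;>
    simp [J, TT, io, po, Matrix.one_apply]

/-- the entries of the triple -/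
theorem rk_le_ent {k K : Type*} [Field k] [Field K] [Algebra k K] {a b a' b' : Matrix V2 V2 K}
    {c c' : Matrix (Fin 2) (Fin 2) K} :
    rk k (Set.range (co ![J K (Fin 2) (Fin 2), TT a b c, TT a' b' c'])) ≤
      rk k (ent a b c ∪ ent a' b' c') := by
  refine rk_le ?_
  have hT : ∀ (a b : Matrix V2 V2 K) (c : Matrix (Fin 2) (Fin 2) K) (t : Set K), ent a b c ⊆ t →
      ∀ x y, TT a b c x y ∈ FF k t := by
    intro a b c t ht
    have h1 : MIn (FF k t) a := MIn.es _ fun x hx => ht (.inl (.inl (.inl hx)))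
    have h2 : MIn (FF k t) (b * io K (Fin 2) (Fin 2)) :=
      MIn.es _ fun x hx => ht (.inl (.inl (.inr hx)))
    have h3 : MIn (FF k t) (po K (Fin 2) (Fin 2) * b) :=
      MIn.es _ fun x hx => ht (.inl (.inr hx))
    have h4 : MIn (FF k t) c := MIn.es _ fun x hx => ht (.inr hx)
    exact ((MIn.zero.fromBlocks MIn.zero (h1.mul MIn.io) MIn.zero).fromBlocks MIn.zero
      (h2.fromBlocks h1 h4 h3) (MIn.zero.fromBlocks MIn.zero (MIn.po.mul h1) MIn.zero))
  rintro _ ⟨⟨i, x, y⟩, rfl⟩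
  fin_cases i
  · show J K (Fin 2) (Fin 2) x y ∈ _
    have h1 : MIn (FF k (ent a b c ∪ ent a' b' c')) (J K (Fin 2) (Fin 2)) :=
      ((MIn.zero.fromBlocks MIn.zero (MIn.one.mul MIn.io) MIn.zero).fromBlocks MIn.zero
      ((MIn.zero.mul MIn.io).fromBlocks MIn.one MIn.zero (MIn.po.mul MIn.zero))
      (MIn.zero.fromBlocks MIn.zero (MIn.po.mul MIn.one) MIn.zero))
    exact h1 x y
  · exact hT a b c _ Set.subset_union_left x y
  · exact hT a' b' c' _ Set.subset_union_right x y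

end

/-- the type `(4,4,2,2)` is excluded if the commuting pairs have at most `49` parameters -/
theorem no_of_count {k : Type u} [Field k] [IsAlgClosed k] [CharZero k] (hall : HALL k 12)
    (H : ∀ (K : Type u) [Field K] [IsAlgClosed K] [CharZero K] [Algebra k K]
      (a b a' b' : Matrix V2 V2 K) (c c' : Matrix (Fin 2) (Fin 2) K), CC a b a' b' →
      rk k (ent a b c ∪ ent a' b' c') ≤ (49 : ℕ)) {ρ : ℕ → ℕ}
    {T : Fin 3 → Matrix (I4 (Fin 2) (Fin 2)) (I4 (Fin 2) (Fin 2)) k} (hT : MaxR ρ T)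
    (hρ : ∀ i, ρ i = (J k (Fin 2) (Fin 2) ^ i).rank) (h0 : T 0 = J k (Fin 2) (Fin 2)) : False := by
  have hc : Fintype.card (I4 (Fin 2) (Fin 2)) = 12 := by decide
  have h1 : 6 ≤ ρ 1 := by
    rw [hρ, pow_one]
    exact six_le k
  obtain ⟨K, i1, i2, i3, i4, T', h2, h3, -, h4⟩ := auto_maxR (by rw [hc]; exact hall) hT
    (fun i => by rw [hρ, h0]) (by rw [hc]; norm_num) (by rw [hc]; omega)
  rw [h0, map_J] at h3
  have hρ' : ∀ i, ρ i = (J K (Fin 2) (Fin 2) ^ i).rank := by
    intro i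
    rw [hρ, ← map_J (k := k) (K := K), ← Matrix.map_pow, rank_ext]
  obtain ⟨a, b, c, a', b', c', h5, h6⟩ := shape42 h2 hρ' h3
  have h7 := (rk_le_ent (k := k) (a := a) (b := b) (c := c) (a' := a') (b' := b')
    (c' := c')).trans (H K a b a' b' c c' h5)
  rw [← h6] at h7
  have h8 := h4.trans h7
  have h9 := forty_le k
  rw [h0, hc] at h8
  have h10 : Module.finrank k (Pur.cen (J k (Fin 2) (Fin 2))) + 12 - 2 ≤ 49 := by exact_mod_cast h8
  omega

/-- there is no maximal bad triple with the Jordan matrix of type `(4,4,2,2)` -/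
theorem no_4422 {k : Type u} [Field k] [IsAlgClosed k] [CharZero k] (hall : HALL k 12)
    {ρ : ℕ → ℕ} {T : Fin 3 → Matrix (I4 (Fin 2) (Fin 2)) (I4 (Fin 2) (Fin 2)) k}
    (hT : MaxR ρ T) (hρ : ∀ i, ρ i = (J k (Fin 2) (Fin 2) ^ i).rank)
    (h0 : T 0 = J k (Fin 2) (Fin 2)) : False :=
  no_of_count hall (fun _ _ _ _ _ _ _ _ _ _ _ h => count49 h) hT hρ h0

end S42

/-- the type `(4, 4, 2, 2)` is not bad -/
theorem not_bad_4422 {k : Type*} [Field k] [IsAlgClosed k] [CharZero k] (hall : HALL k 12) :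
    ¬ Bad k [4, 4, 2, 2] := by
  have : Infinite k := IsAlgClosed.instInfinite
  refine not_bad_of (S42.J k (Fin 2) (Fin 2))
    (Sum.elim
      (Sum.elim ![⟨0, (0 : Fin 4)⟩, ⟨1, (0 : Fin 4)⟩]
        (Sum.elim ![⟨0, (1 : Fin 4)⟩, ⟨1, (1 : Fin 4)⟩] ![⟨2, (0 : Fin 2)⟩, ⟨3, (0 : Fin 2)⟩]))
      (Sum.elim
        (Sum.elim ![⟨0, (2 : Fin 4)⟩, ⟨1, (2 : Fin 4)⟩] ![⟨2, (1 : Fin 2)⟩, ⟨3, (1 : Fin 2)⟩])
        ![⟨0, (3 : Fin 4)⟩, ⟨1, (3 : Fin 4)⟩]))
    (by decide) (by decide) ?_ fun ρ T hT hρ h0 => S42.no_4422 hall hT hρ h0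
  rintro ((i | (i | i)) | ((i | i) | i)) ((j | (j | j)) | ((j | j) | j)) <;> fin_cases i <;>
    fin_cases j <;> simp [S42.J, S42.TT, S42.io, S42.po]

end Pool.Agent.Lib.D13
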