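import Pool.Agent.Lib.D13.Low
import Pool.Agent.Lib.D13.Step8
import Pool.Agent.Lib.D13.Step9
import Pool.Agent.Lib.D13.Step10
import Pool.Agent.Lib.D13.Step11
import Pool.Agent.Lib.D13.Step12
import Pool.Agent.Lib.D13.MaxQ
import Pool.Agent.Lib.D13.T4422

/-!
# MP_5dcbc3_ag: commuting nilpotent triples of matrices of size at most 12
-/

universe u

namespace Pool.Agent.Lib.D13

open Matrix Pool.Agent.Lib.Q5dc Pool.Agent.Lib.D7

/-- all commuting nilpotent triples of sizes smaller than 13 are limits of curvilinear ones -/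
theorem hall13 (k : Type u) [Field k] [IsAlgClosed k] [CharZero k] : HALL k 13 :=
  step12 (fun K _ _ _ => Cert.quad2 K _) (fun K _ _ _ => Cert.quad2 K _) (fun K _ _ _ => Cert.quad2 K _)
    not_bad_4422 (step11 (fun K _ _ _ => Cert.quad2 K _) (step10 (step9 (step8 (hall8 k)))))

/-- **Every commuting nilpotent triple of size at most 12 is a limit of curvilinear ones.** -/
theorem all_cl_le12 (k : Type u) [Field k] [IsAlgClosed k] [CharZero k] (d : ℕ) (hd : 0 < d)
    (hd' : d ≤ 12) (A : Fin 3 → Matrix (Fin d) (Fin d) k) (hA : ∀ i j, A i * A j = A j * A i)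
    (hn : ∀ i, IsNilpotent (A i)) : Cl A :=
  hall13 k d hd (by omega) A ⟨hA, hn⟩

end Pool.Agent.Lib.D13
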