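import Pool.Agent.Lib.D8.Axes
import Pool.Agent.Lib.D8.UtilB
import Pool.Agent.Lib.D7.Adj
import Pool.Agent.Lib.D7.Poly

/-!
# MP_5dcbc3_ag: nilpotent matrices with Jordan blocks of sizes 5, 4, 2: explicit matrices

Basis `x ^ i e1 (i ≤ 4), x ^ j e2 (j ≤ 3), x ^ l e3 (l ≤ 1)` of `Fin 11`;
`y e1 = e2`, `y e2 = (g1 x² + ..) e1 + (h1 x + ..) e2 + t x e3`, `y e3 = x³ q e1 + x² u e2 + w x e3`,
`z e1 = r e3`, `z e3 = x³ q' e1 + x² u' e2 + w' x e3`.
-/

namespace Pool.Agent.Lib.D13.I542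

open Matrix Pool.Agent.Lib.Q5dc Pool.Agent.Lib.D7

/-- the parameters -/
@[ext] structure Par (k : Type*) where
  (g1 g2 g3 h1 h2 h3 t q0 q1 u0 u1 w r0 r1 a0 a1 b0 b1 c : k)

variable {k : Type*} [Field k]

/-- `J` -/
def J (k : Type*) [Field k] : Matrix (Fin 11) (Fin 11) k :=
  !![0, 0, 0, 0, 0, 0, 0, 0, 0, 0, 0;
     1, 0, 0, 0, 0, 0, 0, 0, 0, 0, 0;
     0, 1, 0, 0, 0, 0, 0, 0, 0, 0, 0;
     0, 0, 1, 0, 0, 0, 0, 0, 0, 0, 0;
     0, 0, 0, 1, 0, 0, 0, 0, 0, 0, 0;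
     0, 0, 0, 0, 0, 0, 0, 0, 0, 0, 0;
     0, 0, 0, 0, 0, 1, 0, 0, 0, 0, 0;
     0, 0, 0, 0, 0, 0, 1, 0, 0, 0, 0;
     0, 0, 0, 0, 0, 0, 0, 1, 0, 0, 0;
     0, 0, 0, 0, 0, 0, 0, 0, 0, 0, 0;
     0, 0, 0, 0, 0, 0, 0, 0, 0, 1, 0]

/-- `y` -/
def Y (p : Par k) : Matrix (Fin 11) (Fin 11) k :=
  !![0, 0, 0, 0, 0, 0, 0, 0, 0, 0, 0;
     0, 0, 0, 0, 0, 0, 0, 0, 0, 0, 0;
     0, 0, 0, 0, 0, p.g1, 0, 0, 0, 0, 0;
     0, 0, 0, 0, 0, p.g2, p.g1, 0, 0, p.q0, 0;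
     0, 0, 0, 0, 0, p.g3, p.g2, p.g1, 0, p.q1, p.q0;
     1, 0, 0, 0, 0, 0, 0, 0, 0, 0, 0;
     0, 1, 0, 0, 0, p.h1, 0, 0, 0, 0, 0;
     0, 0, 1, 0, 0, p.h2, p.h1, 0, 0, p.u0, 0;
     0, 0, 0, 1, 0, p.h3, p.h2, p.h1, 0, p.u1, p.u0;
     0, 0, 0, 0, 0, 0, 0, 0, 0, 0, 0;
     0, 0, 0, 0, 0, p.t, 0, 0, 0, p.w, 0]

/-- `z` -/
def Z (p : Par k) : Matrix (Fin 11) (Fin 11) k :=
  !![0, 0, 0, 0, 0, 0, 0, 0, 0, 0, 0;
     0, 0, 0, 0, 0, 0, 0, 0, 0, 0, 0;
     0, 0, 0, 0, 0, 0, 0, 0, 0, 0, 0;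
     0, 0, 0, 0, 0, p.r0 * p.q0, 0, 0, 0, p.a0, 0;
     0, 0, 0, 0, 0, p.r0 * p.q1 + p.r1 * p.q0, p.r0 * p.q0, 0, 0, p.a1, p.a0;
     0, 0, 0, 0, 0, 0, 0, 0, 0, 0, 0;
     0, 0, 0, 0, 0, 0, 0, 0, 0, 0, 0;
     0, 0, 0, 0, 0, p.r0 * p.u0, 0, 0, 0, p.b0, 0;
     0, 0, 0, 0, 0, p.r0 * p.u1 + p.r1 * p.u0, p.r0 * p.u0, 0, 0, p.b1, p.b0;
     p.r0, 0, 0, 0, 0, 0, 0, 0, 0, 0, 0;
     p.r1, p.r0, 0, 0, 0, p.r0 * p.w, 0, 0, 0, p.c, 0]

/-- `J` on vectors -/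
def actJ (m : Fin 11 → k) : Fin 11 → k :=
  ![0, m 0, m 1, m 2, m 3, 0, m 5, m 6, m 7, 0, m 9]

/-- `Y` on vectors -/
def actY (p : Par k) (m : Fin 11 → k) : Fin 11 → k :=
  ![0, 0, p.g1 * m 5, p.g2 * m 5 + p.g1 * m 6 + p.q0 * m 9,
    p.g3 * m 5 + p.g2 * m 6 + p.g1 * m 7 + p.q1 * m 9 + p.q0 * m 10,
    m 0, m 1 + p.h1 * m 5, m 2 + p.h2 * m 5 + p.h1 * m 6 + p.u0 * m 9,
    m 3 + p.h3 * m 5 + p.h2 * m 6 + p.h1 * m 7 + p.u1 * m 9 + p.u0 * m 10,
    0, p.t * m 5 + p.w * m 9]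

/-- `Z` on vectors -/
def actZ (p : Par k) (m : Fin 11 → k) : Fin 11 → k :=
  ![0, 0, 0, p.r0 * p.q0 * m 5 + p.a0 * m 9,
    (p.r0 * p.q1 + p.r1 * p.q0) * m 5 + p.r0 * p.q0 * m 6 + p.a1 * m 9 + p.a0 * m 10,
    0, 0, p.r0 * p.u0 * m 5 + p.b0 * m 9,
    (p.r0 * p.u1 + p.r1 * p.u0) * m 5 + p.r0 * p.u0 * m 6 + p.b1 * m 9 + p.b0 * m 10,
    p.r0 * m 0, p.r1 * m 0 + p.r0 * m 1 + p.r0 * p.w * m 5 + p.c * m 9]

theorem J_mulVec (m : Fin 11 → k) : J k *ᵥ m = actJ m := by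
  funext i
  fin_cases i <;> simp [J, actJ, Matrix.mulVec, dotProduct, Fin.sum_univ_succ]

theorem Y_mulVec (p : Par k) (m : Fin 11 → k) : Y p *ᵥ m = actY p m := by
  funext i
  fin_cases i <;> simp [Y, actY, Matrix.mulVec, dotProduct, Fin.sum_univ_succ] <;> ring

theorem Z_mulVec (p : Par k) (m : Fin 11 → k) : Z p *ᵥ m = actZ p m := by
  funext i
  fin_cases i <;> simp [Z, actZ, Matrix.mulVec, dotProduct, Fin.sum_univ_succ] <;> ring

theorem ext_mulVec {n : Type*} [Fintype n] [DecidableEq n] {A B : Matrix n n k}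
    (h : ∀ m, A *ᵥ m = B *ᵥ m) : A = B := by
  ext i j
  have := congrFun (h (Pi.single j 1)) i
  simpa using this

/-- the relations -/
structure Rel (p : Par k) : Prop where
  ra : p.r0 * ((p.h1 - p.w) * p.q0 - p.u0 * p.g1) + p.t * p.a0 = 0
  rb : p.t * p.b0 = p.r0 * (p.w * p.u0 + p.q0)
  rc : p.w * p.a0 = p.b0 * p.g1 + p.c * p.q0
  rd : p.a0 = p.b0 * (p.w - p.h1) - p.c * p.u0

theorem comm_JY (p : Par k) : J k * Y p = Y p * J k := by
  refine ext_mulVec fun m => ?_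
  rw [← mulVec_mulVec, ← mulVec_mulVec, Y_mulVec, Y_mulVec, J_mulVec, J_mulVec]
  funext i
  fin_cases i <;> simp [actJ, actY]

theorem comm_JZ (p : Par k) : J k * Z p = Z p * J k := by
  refine ext_mulVec fun m => ?_
  rw [← mulVec_mulVec, ← mulVec_mulVec, Z_mulVec, Z_mulVec, J_mulVec, J_mulVec]
  funext i
  fin_cases i <;> simp [actJ, actZ]

theorem comm_YZ {p : Par k} (h : Rel p) : Y p * Z p = Z p * Y p := by
  obtain ⟨ra, rb, rc, rd⟩ := h
  refine ext_mulVec fun m => ?_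
  rw [← mulVec_mulVec, ← mulVec_mulVec, Z_mulVec, Z_mulVec, Y_mulVec, Y_mulVec]
  funext i
  fin_cases i <;> simp [actY, actZ]
  all_goals try ring1
  · linear_combination (-m 5) * ra - m 9 * rc
  · linear_combination (-m 5) * rb + m 9 * rd

/-- weights -/
def wt : Fin 11 → ℕ := ![0, 2, 4, 6, 8, 1, 3, 5, 7, 1, 3]

theorem J_nil : IsNilpotent (J k) := by
  refine isNilpotent_of_weight _ wt fun i j hij => ?_
  revert hij
  fin_cases i <;> fin_cases j <;> simp [wt, J]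

theorem Y_nil (p : Par k) : IsNilpotent (Y p) := by
  refine isNilpotent_of_weight _ wt fun i j hij => ?_
  revert hij
  fin_cases i <;> fin_cases j <;> simp [wt, Y]

theorem Z_nil (p : Par k) : IsNilpotent (Z p) := by
  refine isNilpotent_of_weight _ wt fun i j hij => ?_
  revert hij
  fin_cases i <;> fin_cases j <;> simp [wt, Z]

/-- the triple -/
def T (p : Par k) : Fin 3 → Matrix (Fin 11) (Fin 11) k := ![J k, Y p, Z p]

theorem cn {p : Par k} (h : Rel p) : CN (T p) :=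
  D8.cn3 (comm_JY p) (comm_JZ p) (comm_YZ h) J_nil (Y_nil p) (Z_nil p)

/-! ### families -/

/-- polynomial families of parameters -/
structure PPoly (p : k → Par k) : Prop where
  g1 : IsPoly fun s => (p s).g1
  g2 : IsPoly fun s => (p s).g2
  g3 : IsPoly fun s => (p s).g3
  h1 : IsPoly fun s => (p s).h1
  h2 : IsPoly fun s => (p s).h2
  h3 : IsPoly fun s => (p s).h3
  t : IsPoly fun s => (p s).t
  q0 : IsPoly fun s => (p s).q0
  q1 : IsPoly fun s => (p s).q1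
  u0 : IsPoly fun s => (p s).u0
  u1 : IsPoly fun s => (p s).u1
  w : IsPoly fun s => (p s).w
  r0 : IsPoly fun s => (p s).r0
  r1 : IsPoly fun s => (p s).r1
  a0 : IsPoly fun s => (p s).a0
  a1 : IsPoly fun s => (p s).a1
  b0 : IsPoly fun s => (p s).b0
  b1 : IsPoly fun s => (p s).b1
  c : IsPoly fun s => (p s).c

theorem entryY (p : Par k) (i j : Fin 11) : Y p i j = actY p (Pi.single j 1) i := by
  rw [← Y_mulVec, Matrix.mulVec_single_one]
  rfl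

theorem entryZ (p : Par k) (i j : Fin 11) : Z p i j = actZ p (Pi.single j 1) i := by
  rw [← Z_mulVec, Matrix.mulVec_single_one]
  rfl

theorem polyFam {p : k → Par k} (h : PPoly p) : PolyFam fun s => T (p s) := by
  intro i x y
  fin_cases i
  · exact D7.IsPoly.const _
  · show IsPoly fun s => Y (p s) x y
    simp only [entryY]
    generalize (Pi.single y 1 : Fin 11 → k) = m
    fin_cases x <;> simp only [actY]
    · exact D7.IsPoly.const _
    · exact D7.IsPoly.const _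
    · exact h.g1.mul (D7.IsPoly.const _)
    · exact ((h.g2.mul (D7.IsPoly.const _)).add (h.g1.mul (D7.IsPoly.const _))).add
        (h.q0.mul (D7.IsPoly.const _))
    · exact ((((h.g3.mul (D7.IsPoly.const _)).add (h.g2.mul (D7.IsPoly.const _))).add
        (h.g1.mul (D7.IsPoly.const _))).add (h.q1.mul (D7.IsPoly.const _))).add
        (h.q0.mul (D7.IsPoly.const _))
    · exact D7.IsPoly.const _
    · exact (D7.IsPoly.const _).add (h.h1.mul (D7.IsPoly.const _))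
    · exact (((D7.IsPoly.const _).add (h.h2.mul (D7.IsPoly.const _))).add
        (h.h1.mul (D7.IsPoly.const _))).add (h.u0.mul (D7.IsPoly.const _))
    · exact (((((D7.IsPoly.const _).add (h.h3.mul (D7.IsPoly.const _))).add
        (h.h2.mul (D7.IsPoly.const _))).add (h.h1.mul (D7.IsPoly.const _))).add
        (h.u1.mul (D7.IsPoly.const _))).add (h.u0.mul (D7.IsPoly.const _))
    · exact D7.IsPoly.const _
    · exact (h.t.mul (D7.IsPoly.const _)).add (h.w.mul (D7.IsPoly.const _))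
  · show IsPoly fun s => Z (p s) x y
    simp only [entryZ]
    generalize (Pi.single y 1 : Fin 11 → k) = m
    fin_cases x <;> simp only [actZ]
    · exact D7.IsPoly.const _
    · exact D7.IsPoly.const _
    · exact D7.IsPoly.const _
    · exact ((h.r0.mul h.q0).mul (D7.IsPoly.const _)).add (h.a0.mul (D7.IsPoly.const _))
    · exact (((((h.r0.mul h.q1).add (h.r1.mul h.q0)).mul (D7.IsPoly.const _)).add
        ((h.r0.mul h.q0).mul (D7.IsPoly.const _))).add (h.a1.mul (D7.IsPoly.const _))).add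
        (h.a0.mul (D7.IsPoly.const _))
    · exact D7.IsPoly.const _
    · exact D7.IsPoly.const _
    · exact ((h.r0.mul h.u0).mul (D7.IsPoly.const _)).add (h.b0.mul (D7.IsPoly.const _))
    · exact (((((h.r0.mul h.u1).add (h.r1.mul h.u0)).mul (D7.IsPoly.const _)).add
        ((h.r0.mul h.u0).mul (D7.IsPoly.const _))).add (h.b1.mul (D7.IsPoly.const _))).add
        (h.b0.mul (D7.IsPoly.const _))
    · exact h.r0.mul (D7.IsPoly.const _)
    · exact (((h.r1.mul (D7.IsPoly.const _)).add (h.r0.mul (D7.IsPoly.const _))).add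
        ((h.r0.mul h.w).mul (D7.IsPoly.const _))).add (h.c.mul (D7.IsPoly.const _))

theorem cl_fam [Infinite k] {p : k → Par k} (h : PPoly p) {E : Set k} (hE : E.Finite)
    (hs : ∀ s ∉ E, Cl (T (p s))) : Cl (T (p 0)) := by
  by_contra h0
  obtain ⟨s, h1⟩ := (hE.union (finite_cl (fun s => T (p s)) (polyFam h) h0)).exists_notMem
  simp only [Set.mem_union, not_or, Set.mem_ofPred_eq] at h1
  exact h1.2 (hs s h1.1)

/-! ### the change `y -> y - c x` -/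

/-- the new parameters -/
def sh (c : k) (p : Par k) : Par k where
  g1 := p.g1 + c * p.h1 - c * c
  g2 := p.g2 + c * p.h2
  g3 := p.g3 + c * p.h3
  h1 := p.h1 - 2 * c
  h2 := p.h2
  h3 := p.h3
  t := p.t
  q0 := p.q0 + c * p.u0
  q1 := p.q1 + c * p.u1
  u0 := p.u0
  u1 := p.u1
  w := p.w - c
  r0 := p.r0
  r1 := p.r1
  a0 := p.a0 + c * p.b0
  a1 := p.a1 + c * p.b1
  b0 := p.b0
  b1 := p.b1
  c := p.c

/-- the change of basis -/
def G (c : k) : Matrix (Fin 11) (Fin 11) k :=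
  !![1, 0, 0, 0, 0, 0, 0, 0, 0, 0, 0;
     0, 1, 0, 0, 0, -c, 0, 0, 0, 0, 0;
     0, 0, 1, 0, 0, 0, -c, 0, 0, 0, 0;
     0, 0, 0, 1, 0, 0, 0, -c, 0, 0, 0;
     0, 0, 0, 0, 1, 0, 0, 0, -c, 0, 0;
     0, 0, 0, 0, 0, 1, 0, 0, 0, 0, 0;
     0, 0, 0, 0, 0, 0, 1, 0, 0, 0, 0;
     0, 0, 0, 0, 0, 0, 0, 1, 0, 0, 0;
     0, 0, 0, 0, 0, 0, 0, 0, 1, 0, 0;
     0, 0, 0, 0, 0, 0, 0, 0, 0, 1, 0;
     0, 0, 0, 0, 0, 0, 0, 0, 0, 0, 1]

/-- `G` on vectors -/
def actG (c : k) (m : Fin 11 → k) : Fin 11 → k :=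
  ![m 0, m 1 - c * m 5, m 2 - c * m 6, m 3 - c * m 7, m 4 - c * m 8, m 5, m 6, m 7, m 8, m 9, m 10]

theorem G_mulVec (c : k) (m : Fin 11 → k) : G c *ᵥ m = actG c m := by
  funext i
  fin_cases i <;> simp [G, actG, Matrix.mulVec, dotProduct, Fin.sum_univ_succ] <;> ring

theorem G_mul (c : k) : G c * G (-c) = 1 := by
  refine ext_mulVec fun m => ?_
  rw [← mulVec_mulVec, G_mulVec, G_mulVec, one_mulVec]
  funext i
  fin_cases i <;> simp [actG]

theorem GJ (c : k) : J k * G c = G c * J k := by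
  refine ext_mulVec fun m => ?_
  rw [← mulVec_mulVec, ← mulVec_mulVec, G_mulVec, G_mulVec, J_mulVec, J_mulVec]
  funext i
  fin_cases i <;> simp [actG, actJ]

theorem GY (c : k) (p : Par k) : (Y p - c • J k) * G c = G c * Y (sh c p) := by
  refine ext_mulVec fun m => ?_
  rw [← mulVec_mulVec, ← mulVec_mulVec, G_mulVec, sub_mulVec, smul_mulVec, J_mulVec, Y_mulVec,
    Y_mulVec, G_mulVec]
  funext i
  fin_cases i <;> simp [actG, actJ, actY, sh] <;> ring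

theorem GZ (c : k) (p : Par k) : Z p * G c = G c * Z (sh c p) := by
  refine ext_mulVec fun m => ?_
  rw [← mulVec_mulVec, ← mulVec_mulVec, G_mulVec, Z_mulVec, Z_mulVec, G_mulVec]
  funext i
  fin_cases i <;> simp [actG, actZ, sh] <;> ring

theorem rel_sh {p : Par k} (h : Rel p) (c : k) : Rel (sh c p) := by
  obtain ⟨ra, rb, rc, rd⟩ := h
  constructor <;> simp only [sh]
  · linear_combination ra + c * rb
  · linear_combination rb
  · linear_combination rc - c * rd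
  · linear_combination rd

theorem cl_conjG {n : Type*} [Fintype n] [DecidableEq n] {T T' : Fin 3 → Matrix n n k}
    {P : Matrix n n k} (hP : IsUnit P) (h : ∀ i, T i * P = P * T' i) (hT : Cl T') : Cl T := by
  obtain ⟨u, rfl⟩ := hP
  have h1 := hT.conj (u : Matrix n n k) (↑u⁻¹ : Matrix n n k) u.mul_inv u.inv_mul
  have h2 : (fun i => (u : Matrix n n k) * T' i * (↑u⁻¹ : Matrix n n k)) = T := by
    funext i
    rw [← h, Matrix.mul_assoc, u.mul_inv, Matrix.mul_one]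
  rwa [h2] at h1

theorem cl_sh {c : k} {p : Par k} (h : Cl (T (sh c p))) : Cl (T p) := by
  have hG : IsUnit (G c) := ⟨⟨G c, G (-c), G_mul c, by
    have := G_mul (-c)
    rwa [neg_neg] at this⟩, rfl⟩
  have h1 : Cl ![J k, Y p - c • J k, Z p] := by
    refine cl_conjG hG (fun i => ?_) h
    fin_cases i
    · exact GJ c
    · exact GY c p
    · exact GZ c p
  refine cl_of_adj (fun i => ?_) h1
  have m0 : J k ∈ adj ![J k, Y p - c • J k, Z p] := mem_adj ![J k, Y p - c • J k, Z p] 0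
  have m1 : Y p - c • J k ∈ adj ![J k, Y p - c • J k, Z p] := mem_adj ![J k, Y p - c • J k, Z p] 1
  fin_cases i
  · exact m0
  · have := add_mem m1 (SMulMemClass.smul_mem c m0)
    rwa [sub_add_cancel] at this
  · exact mem_adj ![J k, Y p - c • J k, Z p] 2

/-- the determinant -/
def dt (p : Par k) : k := p.t * p.c - p.r0 * (p.w * p.w - p.h1 * p.w - p.g1)

theorem dt_sh (c : k) (p : Par k) : dt (sh c p) = dt p := by
  simp only [dt, sh]
  ring

end Pool.Agent.Lib.D13.I542
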