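import Pool.Agent.Lib.D9.CycAx

/-!
# MP_5dcbc3_ag: cyclic modules whose leading part consists of three axes

`cl_lead_cyc`: `T 0`, `T 1`, `T 2` are commuting nilpotent matrices with weights `δ i`, `p i * δ i = L`,
the vectors `v`, `T i ^ m v` (`1 ≤ m ≤ p i`) span, `∑ r i T i ^ p i v = 0` with `r i ≠ 0`, and
`T i (T j v)` (`i ≠ j`) is a combination of vectors `T l ^ m v` of weight greater than `δ i + δ j`.
Then the triple is a limit of curvilinear triples. The proof is a normalisation to `cl_axes3`.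
-/

namespace Pool.Agent.Lib.D13

open Matrix Pool.Agent.Lib.Q5dc Pool.Agent.Lib.D7 Pool.Agent.Lib.D8

variable {k : Type*} [Field k] {n : Type*} [Fintype n] [DecidableEq n]

namespace Lead1

/-- matrices of degree at least `d` -/
def Dg (G : ℕ → Submodule k (n → k)) (d : ℕ) (M : Matrix n n k) : Prop :=
  ∀ m x, x ∈ G m → M *ᵥ x ∈ G (m + d)

/-- the pure power of weight `m` of the `l`-th matrix, applied to `v` -/
noncomputable def pu (δ : Fin 3 → ℕ) (v : n → k) (T : Fin 3 → Matrix n n k) (l : Fin 3) (m : ℕ) :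
    n → k :=
  if δ l ∣ m then T l ^ (m / δ l) *ᵥ v else 0

/-- filtered cyclic module whose leading part is spanned by the pure powers -/
structure Filt (δ p : Fin 3 → ℕ) (L : ℕ) (G : ℕ → Submodule k (n → k)) (v : n → k)
    (T : Fin 3 → Matrix n n k) : Prop where
  cn : CN T
  mem0 : v ∈ G 0
  all0 : ∀ x, x ∈ G 0
  anti : ∀ m, G (m + 1) ≤ G m
  top : ∀ m, L < m → ∀ x ∈ G m, x = 0
  op : ∀ i, Dg G (δ i) (T i)
  gen0 : ∀ x, ∃ c : k, x - c • v ∈ G 1
  gen : ∀ m, 1 ≤ m → m ≤ L → ∀ x ∈ G m, ∃ c : Fin 3 → k, x - ∑ l, c l • pu δ v T l m ∈ G (m + 1)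
  rel : ∃ r : Fin 3 → k, (∀ i, r i ≠ 0) ∧ ∑ i, r i • (T i ^ p i *ᵥ v) = 0
  ind : ∀ (c : Fin 3 → k) (i : Fin 3), c i = 0 → ∑ i, c i • (T i ^ p i *ᵥ v) = 0 → ∀ j, c j = 0

section Dg

variable {G : ℕ → Submodule k (n → k)} {d e : ℕ} {M M' : Matrix n n k}

theorem Dg.mul (h : Dg G d M) (h' : Dg G e M') : Dg G (d + e) (M * M') := by
  intro m x hx
  rw [← Matrix.mulVec_mulVec]
  have := h _ _ (h' _ _ hx)
  rwa [add_assoc, add_comm e d] at this

theorem Dg.pow (h : Dg G d M) (i : ℕ) : Dg G (i * d) (M ^ i) := by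
  induction i with
  | zero =>
    intro m x hx
    rw [pow_zero, Matrix.one_mulVec, zero_mul, add_zero]
    exact hx
  | succ i ih =>
    rw [pow_succ, Nat.succ_mul]
    exact ih.mul h

theorem Dg.add (h : Dg G d M) (h' : Dg G d M') : Dg G d (M + M') := by
  intro m x hx
  rw [Matrix.add_mulVec]
  exact add_mem (h _ _ hx) (h' _ _ hx)

theorem Dg.sub (h : Dg G d M) (h' : Dg G d M') : Dg G d (M - M') := by
  intro m x hx
  rw [Matrix.sub_mulVec]
  exact sub_mem (h _ _ hx) (h' _ _ hx)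

theorem Dg.smul (h : Dg G d M) (c : k) : Dg G d (c • M) := by
  intro m x hx
  rw [Matrix.smul_mulVec]
  exact Submodule.smul_mem _ _ (h _ _ hx)

theorem Dg.zero : Dg G d (0 : Matrix n n k) := by
  intro m x _
  rw [Matrix.zero_mulVec]
  exact zero_mem _

theorem anti_le (h : ∀ m, G (m + 1) ≤ G m) {a b : ℕ} (hab : a ≤ b) : G b ≤ G a :=
  antitone_nat_of_succ_le h hab

theorem Dg.mono (ha : ∀ m, G (m + 1) ≤ G m) (h : Dg G d M) (he : e ≤ d) : Dg G e M :=
  fun m x hx => anti_le ha (by omega) (h m x hx)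

/-- powers of two matrices with the same leading part -/
theorem pow_congr (ha : ∀ m, G (m + 1) ≤ G m) (h : Dg G d M) (h' : Dg G d M')
    (hd : Dg G (d + 1) (M' - M)) {i : ℕ} (hi : 1 ≤ i) : Dg G (i * d + 1) (M' ^ i - M ^ i) := by
  induction i, hi using Nat.le_induction with
  | base => rwa [pow_one, pow_one, one_mul]
  | succ i hi ih =>
    have e1 : M' ^ (i + 1) - M ^ (i + 1) = (M' ^ i - M ^ i) * M' + M ^ i * (M' - M) := by
      rw [pow_succ, pow_succ]
      noncomm_ring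
    rw [e1]
    refine Dg.add ?_ ?_
    · have := ih.mul h'
      refine this.mono ha ?_
      rw [Nat.succ_mul]; omega
    · have := (h.pow i).mul hd
      refine this.mono ha ?_
      rw [Nat.succ_mul]; omega

end Dg

variable {δ p : Fin 3 → ℕ} {L N : ℕ} {G : ℕ → Submodule k (n → k)} {v : n → k}
  {T : Fin 3 → Matrix n n k}

theorem sum3 {M : Type*} [AddCommMonoid M] (f : Fin 3 → M) {i j l : Fin 3} (hij : i ≠ j)
    (hil : i ≠ l) (hjl : j ≠ l) : ∑ a, f a = f i + f j + f l := by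
  rw [Fin.sum_univ_three]
  fin_cases i <;> fin_cases j <;> fin_cases l <;> first
    | exact absurd rfl hij
    | exact absurd rfl hil
    | exact absurd rfl hjl
    | rfl
    | (show f _ + f _ + f _ = f _ + f _ + f _
       ac_rfl)

theorem exists_third {i j : Fin 3} (hij : i ≠ j) : ∃ l, i ≠ l ∧ j ≠ l := by
  revert i j
  decide

/-- a matrix commuting with the triple has the degree of its value at `v` -/
theorem Filt.dg (h : Filt δ p L G v T) (hδ : ∀ i, 1 ≤ δ i) {M : Matrix n n k}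
    (hM : ∀ i, T i * M = M * T i) {d : ℕ} (hv : M *ᵥ v ∈ G d) : Dg G d M := by
  have key : ∀ j m, L < m + j → ∀ x ∈ G m, M *ᵥ x ∈ G (m + d) := by
    intro j
    induction j with
    | zero =>
      intro m hm x hx
      rw [h.top m (by omega) x hx, Matrix.mulVec_zero]
      exact zero_mem _
    | succ j ih =>
      intro m hm x hx
      have hle : G (m + 1 + d) ≤ G (m + d) := anti_le h.anti (by omega)
      rcases Nat.eq_zero_or_pos m with rfl | hm0
      · obtain ⟨c, hc⟩ := h.gen0 x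
        have h1 := hle (ih (0 + 1) (by omega) _ (by simpa using hc))
        rw [Matrix.mulVec_sub, Matrix.mulVec_smul] at h1
        have h2 := add_mem h1 (Submodule.smul_mem (G (0 + d)) c (by rwa [zero_add]))
        rwa [sub_add_cancel] at h2
      · rcases Nat.lt_or_ge L m with hL | hL
        · rw [h.top m hL x hx, Matrix.mulVec_zero]
          exact zero_mem _
        · obtain ⟨c, hc⟩ := h.gen m hm0 hL x hx
          have h1 := hle (ih (m + 1) (by omega) _ hc)
          rw [Matrix.mulVec_sub, Matrix.mulVec_sum] at h1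
          have h2 : ∑ l, M *ᵥ (c l • pu δ v T l m) ∈ G (m + d) := by
            refine Submodule.sum_mem _ fun l _ => ?_
            rw [Matrix.mulVec_smul]
            refine Submodule.smul_mem _ _ ?_
            unfold pu
            split_ifs with hd
            · have hcm : T l ^ (m / δ l) * M = M * T l ^ (m / δ l) :=
                (Commute.pow_left (show Commute (T l) M from hM l) _)
              rw [Matrix.mulVec_mulVec, ← hcm, ← Matrix.mulVec_mulVec]
              have h3 := (h.op l).pow (m / δ l) _ _ hv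
              rwa [Nat.div_mul_cancel hd, add_comm] at h3
            · rw [Matrix.mulVec_zero]; exact zero_mem _
          have h3 := add_mem h1 h2
          rwa [sub_add_cancel] at h3
  intro m x hx
  exact key (L + 1) m (by omega) x hx

theorem Filt.opP (h : Filt δ p L G v T) (hδ : ∀ i, 1 ≤ δ i)
    (hP : ∀ i j, i ≠ j → T i *ᵥ (T j *ᵥ v) ∈ G (δ i + δ j + N)) {i j : Fin 3} (hij : i ≠ j) :
    Dg G (δ i + δ j + N) (T i * T j) := by
  refine h.dg hδ (fun l => ?_) ?_
  · rw [← mul_assoc, h.cn.1 l i, mul_assoc, h.cn.1 l j, mul_assoc]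
  · rw [← Matrix.mulVec_mulVec]
    exact hP i j hij

/-- mixed monomials are small -/
theorem Filt.mixed (h : Filt δ p L G v T) (hδ : ∀ i, 1 ≤ δ i)
    (hP : ∀ i j, i ≠ j → T i *ᵥ (T j *ᵥ v) ∈ G (δ i + δ j + N)) {i j : Fin 3} (hij : i ≠ j)
    {a b : ℕ} (ha : 1 ≤ a) (hb : 1 ≤ b) :
    T i ^ a *ᵥ (T j ^ b *ᵥ v) ∈ G (a * δ i + b * δ j + N) := by
  obtain ⟨a, rfl⟩ : ∃ a', a = a' + 1 := ⟨a - 1, by omega⟩
  obtain ⟨b, rfl⟩ : ∃ b', b = b' + 1 := ⟨b - 1, by omega⟩
  have h1 : T i ^ (a + 1) * T j ^ (b + 1) = T i ^ a * T j ^ b * (T i * T j) := by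
    have hc : T j ^ b * T i = T i * T j ^ b :=
      (Commute.pow_left (show Commute (T j) (T i) from h.cn.1 j i) b)
    calc T i ^ (a + 1) * T j ^ (b + 1) = T i ^ a * (T i * T j ^ b) * T j := by
          rw [pow_succ, pow_succ]; simp only [mul_assoc]
      _ = _ := by rw [← hc]; simp only [mul_assoc]
  rw [Matrix.mulVec_mulVec, h1]
  have h2 := (((h.op i).pow a).mul ((h.op j).pow b)).mul (h.opP hδ hP hij) 0 v h.mem0
  have e : 0 + (a * δ i + b * δ j + (δ i + δ j + N)) = (a + 1) * δ i + (b + 1) * δ j + N := by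
    ring
  rwa [e] at h2

theorem pu_top (hδ : ∀ i, 1 ≤ δ i) (hL : ∀ i, p i * δ i = L) (l : Fin 3) :
    pu δ v T l L = T l ^ p l *ᵥ v := by
  have h1 : L / δ l = p l := by
    rw [← hL l, Nat.mul_div_cancel _ (hδ l)]
  rw [pu, if_pos ⟨p l, by rw [← hL l, mul_comm]⟩, h1]

/-- the component of a product on the third axis vanishes -/
theorem Filt.third (h : Filt δ p L G v T) (hδ : ∀ i, 1 ≤ δ i) (hL : ∀ i, p i * δ i = L)
    (hN : 1 ≤ N) (hP : ∀ i j, i ≠ j → T i *ᵥ (T j *ᵥ v) ∈ G (δ i + δ j + N)) {i j : Fin 3}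
    (hij : i ≠ j) : ∃ a b : k, T i *ᵥ (T j *ᵥ v) - (a • pu δ v T i (δ i + δ j + N) +
      b • pu δ v T j (δ i + δ j + N)) ∈ G (δ i + δ j + N + 1) := by
  obtain ⟨l, hil, hjl⟩ := exists_third hij
  set W := δ i + δ j + N with hW
  rcases Nat.lt_or_ge L W with hWL | hWL
  · refine ⟨0, 0, ?_⟩
    rw [h.top W hWL _ (hP i j hij), zero_smul, zero_smul, add_zero, sub_zero]
    exact zero_mem _
  obtain ⟨c, hc⟩ := h.gen W (by omega) hWL _ (hP i j hij)
  rw [sum3 _ hij hil hjl] at hc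
  -- the third component
  by_cases hd : δ l ∣ W
  swap
  · refine ⟨c i, c j, ?_⟩
    have : pu δ v T l W = 0 := if_neg hd
    rwa [this, smul_zero, add_zero] at hc
  obtain ⟨e, he⟩ := hd
  have he1 : 1 ≤ e := by
    rcases Nat.eq_zero_or_pos e with rfl | h0
    · rw [mul_zero] at he; omega
    · exact h0
  have hpu : pu δ v T l W = T l ^ e *ᵥ v := by
    rw [pu, if_pos ⟨e, he⟩, he, Nat.mul_div_cancel_left _ (hδ l)]
  have hep : e ≤ p l := by
    by_contra hlt
    have h1 : (p l + 1) * δ l ≤ e * δ l := Nat.mul_le_mul_right _ (by omega)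
    have h2 := hL l
    have h3 := hδ l
    rw [mul_comm] at he
    rw [Nat.succ_mul] at h1
    omega
  rcases Nat.lt_or_ge e (p l) with hlt | hge
  · -- the coefficient vanishes
    have hcl : c l = 0 := by
      obtain ⟨a, ha⟩ : ∃ a, p l = e + (a + 1) := ⟨p l - e - 1, by omega⟩
      have hLa : L = W + (a + 1) * δ l := by
        rw [← hL l, ha, he]; ring
      -- multiply by `T l ^ (a + 1)`
      have h1 := (h.op l).pow (a + 1) _ _ hc
      have h1' := h.top _ (by omega) _ h1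
      rw [Matrix.mulVec_sub, Matrix.mulVec_add, Matrix.mulVec_add, Matrix.mulVec_smul,
        Matrix.mulVec_smul, Matrix.mulVec_smul] at h1'
      have hz : ∀ j', j' ≠ l → T l ^ (a + 1) *ᵥ pu δ v T j' W = 0 := by
        intro j' hj'
        unfold pu
        split_ifs with hd'
        · obtain ⟨e', he'⟩ := hd'
          have he1' : 1 ≤ e' := by
            rcases Nat.eq_zero_or_pos e' with rfl | h0
            · rw [mul_zero] at he'; omega
            · exact h0
          rw [he', Nat.mul_div_cancel_left _ (hδ j')]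
          refine h.top _ ?_ _ (h.mixed hδ hP (Ne.symm hj') (by omega) he1')
          rw [mul_comm] at he'
          omega
        · rw [Matrix.mulVec_zero]
      rw [hz i hil, hz j hjl, smul_zero, smul_zero, zero_add, zero_add, hpu,
        Matrix.mulVec_mulVec (M := T l ^ (a + 1)) (N := T l ^ e), ← pow_add,
        show a + 1 + e = p l by omega, sub_eq_zero] at h1'
      rcases Nat.eq_zero_or_pos a with rfl | ha0
      · -- the product of all three matrices
        have h2 := h.gen (δ j + δ l + N) (by omega) (by omega) _ (hP j l hjl)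
        obtain ⟨c', hc'⟩ := h2
        rw [sum3 _ hij hil hjl] at hc'
        have h3 := h.op i _ _ hc'
        have h3' := h.top _ (by omega) _ h3
        have hz' : ∀ j', j' ≠ i → T i *ᵥ pu δ v T j' (δ j + δ l + N) = 0 := by
          intro j' hj'
          unfold pu
          split_ifs with hd'
          · obtain ⟨e', he'⟩ := hd'
            have he1' : 1 ≤ e' := by
              rcases Nat.eq_zero_or_pos e' with rfl | h0
              · rw [mul_zero] at he'; omega
              · exact h0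
            rw [he', Nat.mul_div_cancel_left _ (hδ j')]
            have h4 := h.mixed hδ hP (Ne.symm hj') le_rfl he1'
            rw [pow_one] at h4
            refine h.top _ ?_ _ h4
            rw [mul_comm] at he'
            omega
          · rw [Matrix.mulVec_zero]
        have hpi : 1 ≤ p i := by
          rcases Nat.eq_zero_or_pos (p i) with h0 | h0
          · have := hL i
            rw [h0, zero_mul] at this
            omega
          · exact h0
        have hpu' : T i *ᵥ pu δ v T i (δ j + δ l + N) = T i ^ p i *ᵥ v := by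
          have h5 : δ j + δ l + N = δ i * (p i - 1) := by
            have h6 := hL i
            obtain ⟨q, hq⟩ : ∃ q, p i = q + 1 := ⟨p i - 1, by omega⟩
            rw [hq, Nat.succ_mul] at h6
            rw [hq, Nat.add_sub_cancel, mul_comm (δ i)]
            omega
          rw [pu, if_pos ⟨_, h5⟩, h5, Nat.mul_div_cancel_left _ (hδ i), Matrix.mulVec_mulVec,
            ← pow_succ', Nat.sub_add_cancel hpi]
        rw [Matrix.mulVec_sub, Matrix.mulVec_add, Matrix.mulVec_add, Matrix.mulVec_smul,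
          Matrix.mulVec_smul, Matrix.mulVec_smul, hz' j (Ne.symm hij), hz' l (Ne.symm hil),
          smul_zero, smul_zero, add_zero, add_zero, hpu', sub_eq_zero] at h3'
        have h6 : T l ^ (0 + 1) *ᵥ (T i *ᵥ (T j *ᵥ v)) = T i *ᵥ (T j *ᵥ (T l *ᵥ v)) := by
          rw [zero_add, pow_one]
          simp only [Matrix.mulVec_mulVec]
          congr 1
          rw [← mul_assoc, h.cn.1 l i, mul_assoc, h.cn.1 l j]
        rw [h6, h3'] at h1'
        have h7 := h.ind (fun x => if x = l then c l else if x = i then -c' i else 0) j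
          (by rw [if_neg hjl, if_neg (Ne.symm hij)]) (by
            rw [sum3 _ hij hil hjl]
            simp only [if_neg hil, if_pos, if_neg hjl, if_neg (Ne.symm hij), zero_smul, add_zero]
            rw [← h1', neg_smul, neg_add_cancel]) l
        simpa using h7
      · -- two applications
        have h2 : T l ^ (a + 1) *ᵥ (T i *ᵥ (T j *ᵥ v)) ∈ G (L + 1) := by
          obtain ⟨a, rfl⟩ : ∃ a', a = a' + 1 := ⟨a - 1, by omega⟩
          have h3 := (((h.op l).pow a).mul ((h.opP hδ hP (Ne.symm hil)).mul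
            (h.opP hδ hP (Ne.symm hjl)))) 0 v h.mem0
          have h4 : T l ^ (a + 1 + 1) * (T i * T j) = T l ^ a * (T l * T i * (T l * T j)) := by
            rw [pow_succ, pow_succ]
            have h5 : T l * (T l * (T i * T j)) = T l * T i * (T l * T j) := by
              calc T l * (T l * (T i * T j)) = T l * (T l * T i) * T j := by
                    simp only [mul_assoc]
                _ = T l * (T i * T l) * T j := by rw [h.cn.1 l i]
                _ = _ := by simp only [mul_assoc]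
            calc T l ^ a * T l * T l * (T i * T j) = T l ^ a * (T l * (T l * (T i * T j))) := by
                  simp only [mul_assoc]
              _ = _ := by rw [h5]
          rw [Matrix.mulVec_mulVec, Matrix.mulVec_mulVec, mul_assoc, h4]
          refine anti_le h.anti ?_ h3
          have h5 : (a + 1 + 1) * δ l = a * δ l + δ l + δ l := by ring
          rw [h5] at hLa
          omega
        rw [h.top _ (by omega) _ h2] at h1'
        have h7 := h.ind (fun x => if x = l then c l else 0) i (if_neg hil) (by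
          rw [sum3 _ hij hil hjl]
          simp only [if_neg hil, if_pos, if_neg hjl, zero_smul, zero_add]
          exact h1'.symm) l
        simpa using h7
    refine ⟨c i, c j, ?_⟩
    rwa [hcl, zero_smul, add_zero] at hc
  · -- the top level: use the relation
    have hpl : e = p l := by omega
    have hWL' : W = L := by rw [← hL l, ← hpl, mul_comm]; exact he
    obtain ⟨r, hr, hr0⟩ := h.rel
    rw [sum3 _ hij hil hjl] at hr0
    refine ⟨c i - c l * (r l)⁻¹ * r i, c j - c l * (r l)⁻¹ * r j, ?_⟩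
    rw [hWL', pu_top hδ hL, pu_top hδ hL, pu_top hδ hL] at hc
    rw [hWL', pu_top hδ hL, pu_top hδ hL]
    have h3 : T l ^ p l *ᵥ v = -((r l)⁻¹ * r i) • (T i ^ p i *ᵥ v) +
        -((r l)⁻¹ * r j) • (T j ^ p j *ᵥ v) := by
      have h4 : r l • (T l ^ p l *ᵥ v) = -(r i • (T i ^ p i *ᵥ v)) - r j • (T j ^ p j *ᵥ v) := by
        rw [eq_sub_iff_add_eq, eq_neg_iff_add_eq_zero, ← hr0]
        abel
      have h5 := congrArg (fun x => (r l)⁻¹ • x) h4
      simp only [smul_smul, inv_mul_cancel₀ (hr l), one_smul, smul_sub, smul_neg] at h5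
      rw [h5]
      module
    have h4 : T i *ᵥ (T j *ᵥ v) - ((c i - c l * (r l)⁻¹ * r i) • (T i ^ p i *ᵥ v) +
        (c j - c l * (r l)⁻¹ * r j) • (T j ^ p j *ᵥ v)) = T i *ᵥ (T j *ᵥ v) -
        (c i • (T i ^ p i *ᵥ v) + c j • (T j ^ p j *ᵥ v) + c l • (T l ^ p l *ᵥ v)) := by
      rw [h3]
      module
    rw [h4]
    exact hc

/-- the correction of the `j`-th matrix coming from the `i`-th axis -/
noncomputable def Ec (δ : Fin 3 → ℕ) (N : ℕ) (T : Fin 3 → Matrix n n k) (i j : Fin 3) :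
    Matrix n n k :=
  if δ i ∣ δ i + δ j + N then T i ^ ((δ i + δ j + N) / δ i - 1) else 0

theorem ec_spec (hδ : ∀ i, 1 ≤ δ i) (hN : 1 ≤ N) (i j : Fin 3) :
    Ec δ N T i j = 0 ∨ ∃ e, 1 ≤ e ∧ e * δ i = δ j + N ∧ Ec δ N T i j = T i ^ e ∧
      pu δ v T i (δ i + δ j + N) = T i ^ (e + 1) *ᵥ v := by
  by_cases hd : δ i ∣ δ i + δ j + N
  · right
    obtain ⟨e, he⟩ := hd
    have h2 : 2 ≤ e := by
      by_contra hlt
      have h3 : e = 0 ∨ e = 1 := by omega
      rcases h3 with rfl | rfl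
      · rw [mul_zero] at he; omega
      · rw [mul_one] at he; omega
    obtain ⟨e, rfl⟩ : ∃ e', e = e' + 1 := ⟨e - 1, by omega⟩
    refine ⟨e, by omega, ?_, ?_, ?_⟩
    · rw [Nat.mul_succ, mul_comm] at he
      omega
    · rw [Ec, if_pos ⟨_, he⟩, he, Nat.mul_div_cancel_left _ (hδ i), Nat.add_sub_cancel]
    · rw [pu, if_pos ⟨_, he⟩, he, Nat.mul_div_cancel_left _ (hδ i)]
  · left
    exact if_neg hd

theorem ec_apply (hδ : ∀ i, 1 ≤ δ i) (hN : 1 ≤ N) (i j : Fin 3) :
    T i *ᵥ (Ec δ N T i j *ᵥ v) = pu δ v T i (δ i + δ j + N) := by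
  by_cases hd : δ i ∣ δ i + δ j + N
  · rcases ec_spec (T := T) (v := v) hδ hN i j with h | ⟨e, -, -, h1, h2⟩
    · obtain ⟨e, he⟩ := hd
      have h2 : 1 ≤ e := by
        rcases Nat.eq_zero_or_pos e with rfl | h0
        · rw [mul_zero] at he
          have := hδ i
          omega
        · exact h0
      rw [Ec, if_pos ⟨_, he⟩, he, Nat.mul_div_cancel_left _ (hδ i)] at h
      rw [Ec, if_pos ⟨_, he⟩, he, Nat.mul_div_cancel_left _ (hδ i), pu, if_pos ⟨_, rfl⟩,
        Nat.mul_div_cancel_left _ (hδ i), Matrix.mulVec_mulVec, ← pow_succ', Nat.sub_add_cancel h2]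
    · rw [h1, h2, Matrix.mulVec_mulVec, ← pow_succ']
  · rw [Ec, if_neg hd, pu, if_neg hd, Matrix.zero_mulVec, Matrix.mulVec_zero]

theorem Filt.ec_dg (h : Filt δ p L G v T) (hδ : ∀ i, 1 ≤ δ i) (hN : 1 ≤ N) (i j : Fin 3) :
    Dg G (δ j + N) (Ec δ N T i j) := by
  rcases ec_spec (T := T) (v := v) hδ hN i j with h1 | ⟨e, -, h2, h1, -⟩
  · rw [h1]; exact Dg.zero
  · rw [h1, ← h2]
    exact (h.op i).pow e

theorem Filt.ec_mixed (h : Filt δ p L G v T) (hδ : ∀ i, 1 ≤ δ i) (hN : 1 ≤ N)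
    (hP : ∀ i j, i ≠ j → T i *ᵥ (T j *ᵥ v) ∈ G (δ i + δ j + N)) {i j l : Fin 3} (hil : i ≠ l) :
    T i *ᵥ (Ec δ N T l j *ᵥ v) ∈ G (δ i + δ j + N + 1) := by
  rcases ec_spec (T := T) (v := v) hδ hN l j with h1 | ⟨e, h0, h2, h1, -⟩
  · rw [h1, Matrix.zero_mulVec, Matrix.mulVec_zero]; exact zero_mem _
  · rw [h1]
    have h3 := h.mixed hδ hP hil le_rfl h0
    rw [pow_one, one_mul, h2] at h3
    exact anti_le h.anti (by omega) h3

theorem ec_mem (hδ : ∀ i, 1 ≤ δ i) (hN : 1 ≤ N) (i j : Fin 3) :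
    Ec δ N T i j ∈ adj T := by
  rcases ec_spec (T := T) (v := (0 : n → k)) hδ hN i j with h1 | ⟨e, h0, -, h1, -⟩
  · rw [h1]; exact zero_mem _
  · rw [h1]
    obtain ⟨e, rfl⟩ : ∃ e', e = e' + 1 := ⟨e - 1, by omega⟩
    clear h1 h0
    induction e with
    | zero => rw [zero_add, pow_one]; exact mem_adj T i
    | succ e ih => rw [pow_succ]; exact mul_mem ih (mem_adj T i)

/-- one step of the normalisation -/
theorem Filt.step (h : Filt δ p L G v T) (hδ : ∀ i, 1 ≤ δ i) (hL : ∀ i, p i * δ i = L)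
    (hN : 1 ≤ N) (hP : ∀ i j, i ≠ j → T i *ᵥ (T j *ᵥ v) ∈ G (δ i + δ j + N)) :
    ∃ T' : Fin 3 → Matrix n n k, Filt δ p L G v T' ∧ (∀ i, T' i ∈ adj T) ∧
      ∀ i j, i ≠ j → T' i *ᵥ (T' j *ᵥ v) ∈ G (δ i + δ j + (N + 1)) := by
  -- the coefficients
  have hα : ∃ α : Fin 3 → Fin 3 → k, ∀ i j, i ≠ j → T i *ᵥ (T j *ᵥ v) -
      (α i j • pu δ v T i (δ i + δ j + N) + α j i • pu δ v T j (δ i + δ j + N)) ∈
        G (δ i + δ j + N + 1) := by
    have h1 : ∀ i j : Fin 3, ∃ a b : k, i ≠ j → T i *ᵥ (T j *ᵥ v) -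
        (a • pu δ v T i (δ i + δ j + N) + b • pu δ v T j (δ i + δ j + N)) ∈
          G (δ i + δ j + N + 1) := by
      intro i j
      by_cases hij : i = j
      · exact ⟨0, 0, fun h => absurd hij h⟩
      · obtain ⟨a, b, h⟩ := h.third hδ hL hN hP hij
        exact ⟨a, b, fun _ => h⟩
    choose a b hab using h1
    refine ⟨fun i j => if i < j then a i j else b j i, fun i j hij => ?_⟩
    rcases lt_or_gt_of_ne hij with hlt | hlt
    · simp only [if_pos hlt, if_neg (not_lt.2 hlt.le)]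
      exact hab i j hij
    · simp only [if_pos hlt, if_neg (not_lt.2 hlt.le)]
      have h2 := hab j i hij.symm
      have h3 : T j *ᵥ (T i *ᵥ v) = T i *ᵥ (T j *ᵥ v) := by
        rw [Matrix.mulVec_mulVec, Matrix.mulVec_mulVec, h.cn.1]
      rw [h3, add_comm (δ j) (δ i), add_comm (a j i • _)] at h2
      exact h2
  obtain ⟨α, hα⟩ := hα
  let D : Fin 3 → Matrix n n k := fun j => ∑ i, if i = j then 0 else α i j • Ec δ N T i j
  have hD : ∀ j, D j = ∑ i, if i = j then 0 else α i j • Ec δ N T i j := fun _ => rfl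
  have hD2 : ∀ {i j l : Fin 3}, i ≠ j → i ≠ l → j ≠ l →
      D j = α i j • Ec δ N T i j + α l j • Ec δ N T l j := by
    intro i j l hij hil hjl
    rw [hD, sum3 _ hij hil hjl, if_neg hij, if_pos rfl, if_neg hjl.symm, add_zero]
  have hDd : ∀ j, Dg G (δ j + N) (D j) := by
    intro j
    obtain ⟨i, hij⟩ : ∃ i, i ≠ j := exists_ne j
    obtain ⟨l, hil, hjl⟩ := exists_third hij
    rw [hD2 hij hil hjl]
    exact ((h.ec_dg hδ hN i j).smul _).add ((h.ec_dg hδ hN l j).smul _)
  have hDm : ∀ j, D j ∈ adj T := by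
    intro j
    rw [hD]
    refine sum_mem fun i _ => ?_
    split_ifs
    · exact zero_mem _
    · exact SMulMemClass.smul_mem _ (ec_mem hδ hN i j)
  have hTm : ∀ j, T j - D j ∈ adj T := fun j => sub_mem (mem_adj T j) (hDm j)
  have hd1 : ∀ j, Dg G (δ j + 1) ((T j - D j) - T j) := by
    intro j
    rw [sub_sub_cancel_left]
    have := ((hDd j).smul (-1)).mono h.anti (show δ j + 1 ≤ δ j + N by omega)
    rwa [neg_one_smul] at this
  have hop : ∀ j, Dg G (δ j) (T j - D j) := fun j =>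
    (h.op j).sub ((hDd j).mono h.anti (by omega))
  have hpow : ∀ (l : Fin 3) (e : ℕ), (T l - D l) ^ e *ᵥ v - T l ^ e *ᵥ v ∈ G (e * δ l + 1) := by
    intro l e
    rcases Nat.eq_zero_or_pos e with rfl | he
    · rw [pow_zero, pow_zero, sub_self]; exact zero_mem _
    · have := pow_congr h.anti (h.op l) (hop l) (hd1 l) he 0 v h.mem0
      rwa [zero_add, Matrix.sub_mulVec] at this
  have hpu : ∀ (l : Fin 3) (m : ℕ), pu δ v (fun j => T j - D j) l m - pu δ v T l m ∈ G (m + 1) := by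
    intro l m
    unfold pu
    split_ifs with hd
    · have := hpow l (m / δ l)
      rwa [Nat.div_mul_cancel hd] at this
    · rw [sub_self]; exact zero_mem _
  have htop : ∀ l, (T l - D l) ^ p l *ᵥ v = T l ^ p l *ᵥ v := by
    intro l
    have h1 := hpow l (p l)
    rw [hL l] at h1
    exact sub_eq_zero.1 (h.top _ (by omega) _ h1)
  refine ⟨fun j => T j - D j, ⟨h.cn.of_adj hTm, h.mem0, h.all0, h.anti, h.top, hop, h.gen0, ?_, ?_,
    ?_⟩, hTm, ?_⟩
  · intro m hm hmL x hx
    obtain ⟨c, hc⟩ := h.gen m hm hmL x hx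
    refine ⟨c, ?_⟩
    have h1 : x - ∑ l, c l • pu δ v (fun j => T j - D j) l m = (x - ∑ l, c l • pu δ v T l m) -
        ∑ l, c l • (pu δ v (fun j => T j - D j) l m - pu δ v T l m) := by
      simp only [smul_sub, Finset.sum_sub_distrib]
      abel
    rw [h1]
    exact sub_mem hc (Submodule.sum_mem _ fun l _ => Submodule.smul_mem _ _ (hpu l m))
  · obtain ⟨r, hr, h0⟩ := h.rel
    exact ⟨r, hr, by simpa only [htop] using h0⟩
  · intro c i hi h0
    simp only [htop] at h0
    exact h.ind c i hi h0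
  · intro i j hij
    show (T i - D i) *ᵥ ((T j - D j) *ᵥ v) ∈ G (δ i + δ j + (N + 1))
    obtain ⟨l, hil, hjl⟩ := exists_third hij
    have hc : D i * T j = T j * D i := h.cn.comm (hDm i) (mem_adj T j)
    have h1 : (T i - D i) *ᵥ ((T j - D j) *ᵥ v) = T i *ᵥ (T j *ᵥ v) - T i *ᵥ (D j *ᵥ v) -
        T j *ᵥ (D i *ᵥ v) + D i *ᵥ (D j *ᵥ v) := by
      simp only [Matrix.mulVec_mulVec, ← hc]
      rw [← Matrix.sub_mulVec, ← Matrix.sub_mulVec, ← Matrix.add_mulVec]
      congr 1
      noncomm_ring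
    have h2 : T i *ᵥ (D j *ᵥ v) - α i j • pu δ v T i (δ i + δ j + N) ∈ G (δ i + δ j + N + 1) := by
      rw [hD2 hij hil hjl, Matrix.add_mulVec, Matrix.mulVec_add, Matrix.smul_mulVec,
        Matrix.smul_mulVec, Matrix.mulVec_smul, Matrix.mulVec_smul, ec_apply hδ hN,
        add_sub_cancel_left]
      exact Submodule.smul_mem _ _ (h.ec_mixed hδ hN hP hil)
    have h3 : T j *ᵥ (D i *ᵥ v) - α j i • pu δ v T j (δ i + δ j + N) ∈ G (δ i + δ j + N + 1) := by
      rw [hD2 hij.symm hjl hil, Matrix.add_mulVec, Matrix.mulVec_add, Matrix.smul_mulVec,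
        Matrix.smul_mulVec, Matrix.mulVec_smul, Matrix.mulVec_smul, ec_apply hδ hN,
        add_comm (δ i) (δ j), add_sub_cancel_left]
      exact Submodule.smul_mem _ _ (h.ec_mixed hδ hN hP hjl)
    have h4 : D i *ᵥ (D j *ᵥ v) ∈ G (δ i + δ j + N + 1) := by
      have := hDd i _ _ (hDd j 0 v h.mem0)
      exact anti_le h.anti (by omega) this
    have h5 := add_mem (sub_mem (sub_mem (hα i j hij) h2) h3) h4
    rw [h1, ← add_assoc]
    convert h5 using 1
    abel

/-- all products of different matrices of the triple can be made zero -/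
theorem Filt.normal (h : Filt δ p L G v T) (hδ : ∀ i, 1 ≤ δ i) (hL : ∀ i, p i * δ i = L)
    (hP : ∀ i j, i ≠ j → T i *ᵥ (T j *ᵥ v) ∈ G (δ i + δ j + 1)) :
    ∃ T' : Fin 3 → Matrix n n k, Filt δ p L G v T' ∧ (∀ i, T' i ∈ adj T) ∧
      ∀ i j, i ≠ j → T' i *ᵥ (T' j *ᵥ v) = 0 := by
  have key : ∀ N, 1 ≤ N → ∃ T' : Fin 3 → Matrix n n k, Filt δ p L G v T' ∧ (∀ i, T' i ∈ adj T) ∧
      ∀ i j, i ≠ j → T' i *ᵥ (T' j *ᵥ v) ∈ G (δ i + δ j + N) := by
    intro N hN
    induction N, hN using Nat.le_induction with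
    | base => exact ⟨T, h, fun i => mem_adj T i, hP⟩
    | succ N hN ih =>
      obtain ⟨T₁, h1, h2, h3⟩ := ih
      obtain ⟨T₂, h4, h5, h6⟩ := h1.step hδ hL hN h3
      exact ⟨T₂, h4, fun i => adj_le h2 (h5 i), h6⟩
  obtain ⟨T', h1, h2, h3⟩ := key (L + 1) (by omega)
  exact ⟨T', h1, h2, fun i j hij => h1.top _ (by omega) _ (h3 i j hij)⟩

theorem mm2 (A B C : Matrix n n k) (v : n → k) :
    (A * (B * C)) *ᵥ v = A *ᵥ (B *ᵥ (C *ᵥ v)) := by
  rw [Matrix.mulVec_mulVec, Matrix.mulVec_mulVec, mul_assoc]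

/-- the span of the monomials of weight at least `m` -/
def Mon (δ : Fin 3 → ℕ) (v : n → k) (T : Fin 3 → Matrix n n k) (m : ℕ) : Submodule k (n → k) :=
  Submodule.span k {y | ∃ a b c : ℕ, m ≤ a * δ 0 + b * δ 1 + c * δ 2 ∧
    y = (T 0 ^ a * T 1 ^ b * T 2 ^ c) *ᵥ v}

/-- commuting: the exponents add -/
theorem mon_op (hT : CN T) (i : Fin 3) (a b c : ℕ) :
    T i * (T 0 ^ a * T 1 ^ b * T 2 ^ c) = T 0 ^ (a + if i = 0 then 1 else 0) *
      T 1 ^ (b + if i = 1 then 1 else 0) * T 2 ^ (c + if i = 2 then 1 else 0) := by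
  have h10 : T 1 * T 0 ^ a = T 0 ^ a * T 1 :=
    (Commute.pow_right (show Commute (T 1) (T 0) from hT.1 1 0) a)
  have h20 : T 2 * T 0 ^ a = T 0 ^ a * T 2 :=
    (Commute.pow_right (show Commute (T 2) (T 0) from hT.1 2 0) a)
  have h21 : T 2 * T 1 ^ b = T 1 ^ b * T 2 :=
    (Commute.pow_right (show Commute (T 2) (T 1) from hT.1 2 1) b)
  fin_cases i
  · show T 0 * (T 0 ^ a * T 1 ^ b * T 2 ^ c) = T 0 ^ (a + 1) * T 1 ^ (b + 0) * T 2 ^ (c + 0)
    rw [pow_succ' (T 0) a, add_zero, add_zero]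
    simp only [mul_assoc]
  · show T 1 * (T 0 ^ a * T 1 ^ b * T 2 ^ c) = T 0 ^ (a + 0) * T 1 ^ (b + 1) * T 2 ^ (c + 0)
    rw [pow_succ' (T 1) b, add_zero, add_zero]
    calc T 1 * (T 0 ^ a * T 1 ^ b * T 2 ^ c) = (T 1 * T 0 ^ a) * (T 1 ^ b * T 2 ^ c) := by
          simp only [mul_assoc]
      _ = _ := by rw [h10]; simp only [mul_assoc]
  · show T 2 * (T 0 ^ a * T 1 ^ b * T 2 ^ c) = T 0 ^ (a + 0) * T 1 ^ (b + 0) * T 2 ^ (c + 1)
    rw [pow_succ' (T 2) c, add_zero, add_zero]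
    calc T 2 * (T 0 ^ a * T 1 ^ b * T 2 ^ c) = (T 2 * T 0 ^ a) * (T 1 ^ b * T 2 ^ c) := by
          simp only [mul_assoc]
      _ = T 0 ^ a * (T 2 * T 1 ^ b) * T 2 ^ c := by rw [h20]; simp only [mul_assoc]
      _ = _ := by rw [h21]; simp only [mul_assoc]

theorem mon_dg (hT : CN T) (i : Fin 3) : Dg (Mon δ v T) (δ i) (T i) := by
  intro m x hx
  have h1 : Mon δ v T m ≤ (Mon δ v T (m + δ i)).comap (Matrix.mulVecLin (T i)) := by
    conv_lhs => unfold Mon
    rw [Submodule.span_le]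
    rintro y ⟨a, b, c, hw, rfl⟩
    show T i *ᵥ ((T 0 ^ a * T 1 ^ b * T 2 ^ c) *ᵥ v) ∈ Mon δ v T (m + δ i)
    rw [Matrix.mulVec_mulVec, mon_op hT]
    refine Submodule.subset_span ⟨_, _, _, ?_, rfl⟩
    fin_cases i
    · show m + δ 0 ≤ (a + 1) * δ 0 + (b + 0) * δ 1 + (c + 0) * δ 2
      rw [add_zero, add_zero, Nat.succ_mul]; omega
    · show m + δ 1 ≤ (a + 0) * δ 0 + (b + 1) * δ 1 + (c + 0) * δ 2
      rw [add_zero, add_zero, Nat.succ_mul]; omega
    · show m + δ 2 ≤ (a + 0) * δ 0 + (b + 0) * δ 1 + (c + 1) * δ 2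
      rw [add_zero, add_zero, Nat.succ_mul]; omega
  exact h1 hx

theorem mon_anti (m : ℕ) : Mon δ v T (m + 1) ≤ Mon δ v T m :=
  Submodule.span_mono fun _ ⟨a, b, c, hw, hy⟩ => ⟨a, b, c, by omega, hy⟩

theorem mon_v : v ∈ Mon δ v T 0 :=
  Submodule.subset_span ⟨0, 0, 0, Nat.zero_le _, by simp⟩

theorem mon_pow (hT : CN T) (l : Fin 3) (m : ℕ) : T l ^ m *ᵥ v ∈ Mon δ v T (m * δ l) := by
  have := ((mon_dg (δ := δ) (v := v) hT l).pow m) 0 v mon_v
  rwa [zero_add] at this

/-- the small elements vanish -/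
theorem mon_zero (hT : CN T) {m : ℕ} (hm : Fintype.card n * (δ 0 + δ 1 + δ 2) < m) :
    ∀ x ∈ Mon δ v T m, x = 0 := by
  have h1 : Mon δ v T m ≤ ⊥ := by
    unfold Mon
    rw [Submodule.span_le]
    rintro y ⟨a, b, c, hw, rfl⟩
    show _ = 0
    have h2 : ∀ i e, Fintype.card n ≤ e → T i ^ e = 0 := by
      intro i e he
      obtain ⟨f, rfl⟩ := Nat.exists_eq_add_of_le he
      rw [pow_add, pow_card_eq_zero (hT.2 i), zero_mul]
    by_cases ha : Fintype.card n ≤ a
    · rw [h2 0 a ha, zero_mul, zero_mul, Matrix.zero_mulVec]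
    by_cases hb : Fintype.card n ≤ b
    · rw [h2 1 b hb, mul_zero, zero_mul, Matrix.zero_mulVec]
    by_cases hc : Fintype.card n ≤ c
    · rw [h2 2 c hc, mul_zero, Matrix.zero_mulVec]
    exfalso
    have e1 := Nat.mul_le_mul_right (δ 0) (not_le.1 ha).le
    have e2 := Nat.mul_le_mul_right (δ 1) (not_le.1 hb).le
    have e3 := Nat.mul_le_mul_right (δ 2) (not_le.1 hc).le
    rw [mul_add, mul_add] at hm
    omega
  intro x hx
  exact (Submodule.mem_bot k).1 (h1 hx)

/-- mixed monomials have greater weight -/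
theorem mon_mixed (hT : CN T) (hP : ∀ i j, i ≠ j → T i *ᵥ (T j *ᵥ v) ∈ Mon δ v T (δ i + δ j + 1))
    {a b c : ℕ} (h : (1 ≤ a ∧ 1 ≤ b) ∨ (1 ≤ a ∧ 1 ≤ c) ∨ (1 ≤ b ∧ 1 ≤ c)) :
    (T 0 ^ a * T 1 ^ b * T 2 ^ c) *ᵥ v ∈ Mon δ v T (a * δ 0 + b * δ 1 + c * δ 2 + 1) := by
  have h10 : ∀ x y, T 1 ^ x * T 0 ^ y = T 0 ^ y * T 1 ^ x := fun x y =>
    ((show Commute (T 1) (T 0) from hT.1 1 0).pow_pow x y)
  have h20 : ∀ x y, T 2 ^ x * T 0 ^ y = T 0 ^ y * T 2 ^ x := fun x y =>
    ((show Commute (T 2) (T 0) from hT.1 2 0).pow_pow x y)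
  have h21 : ∀ x y, T 2 ^ x * T 1 ^ y = T 1 ^ y * T 2 ^ x := fun x y =>
    ((show Commute (T 2) (T 1) from hT.1 2 1).pow_pow x y)
  have hd : ∀ a b c : ℕ, Dg (Mon δ v T) (a * δ 0 + b * δ 1 + c * δ 2)
      (T 0 ^ a * T 1 ^ b * T 2 ^ c) := fun a b c =>
    (((mon_dg hT 0).pow a).mul ((mon_dg hT 1).pow b)).mul ((mon_dg hT 2).pow c)
  rcases h with ⟨ha, hb⟩ | ⟨ha, hc⟩ | ⟨hb, hc⟩
  · obtain ⟨a, rfl⟩ : ∃ a', a = a' + 1 := ⟨a - 1, by omega⟩
    obtain ⟨b, rfl⟩ : ∃ b', b = b' + 1 := ⟨b - 1, by omega⟩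
    have e : T 0 ^ (a + 1) * T 1 ^ (b + 1) * T 2 ^ c =
        T 0 ^ a * T 1 ^ b * T 2 ^ c * (T 0 * T 1) := by
      have e1 := h10 b 1
      have e2 := h20 c 1
      have e3 := h21 c 1
      rw [pow_one] at e1 e2 e3
      calc T 0 ^ (a + 1) * T 1 ^ (b + 1) * T 2 ^ c
          = T 0 ^ a * (T 0 * T 1 ^ b) * (T 1 * T 2 ^ c) := by
            rw [pow_succ, pow_succ]; simp only [mul_assoc]
        _ = T 0 ^ a * T 1 ^ b * (T 0 * T 2 ^ c) * T 1 := by
            rw [← e1, ← e3]; simp only [mul_assoc]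
        _ = _ := by rw [← e2]; simp only [mul_assoc]
    rw [e, mm2]
    have := hd a b c _ _ (hP 0 1 (by decide))
    refine anti_le mon_anti ?_ this
    rw [Nat.succ_mul, Nat.succ_mul]; omega
  · obtain ⟨a, rfl⟩ : ∃ a', a = a' + 1 := ⟨a - 1, by omega⟩
    obtain ⟨c, rfl⟩ : ∃ c', c = c' + 1 := ⟨c - 1, by omega⟩
    have e : T 0 ^ (a + 1) * T 1 ^ b * T 2 ^ (c + 1) =
        T 0 ^ a * T 1 ^ b * T 2 ^ c * (T 0 * T 2) := by
      have e1 := h10 b 1
      have e2 := h20 c 1
      rw [pow_one] at e1 e2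
      calc T 0 ^ (a + 1) * T 1 ^ b * T 2 ^ (c + 1)
          = T 0 ^ a * (T 0 * T 1 ^ b) * T 2 ^ c * T 2 := by
            rw [pow_succ, pow_succ]; simp only [mul_assoc]
        _ = T 0 ^ a * T 1 ^ b * (T 0 * T 2 ^ c) * T 2 := by
            rw [← e1]; simp only [mul_assoc]
        _ = _ := by rw [← e2]; simp only [mul_assoc]
    rw [e, mm2]
    have := hd a b c _ _ (hP 0 2 (by decide))
    refine anti_le mon_anti ?_ this
    rw [Nat.succ_mul, Nat.succ_mul]; omega
  · obtain ⟨b, rfl⟩ : ∃ b', b = b' + 1 := ⟨b - 1, by omega⟩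
    obtain ⟨c, rfl⟩ : ∃ c', c = c' + 1 := ⟨c - 1, by omega⟩
    have e : T 0 ^ a * T 1 ^ (b + 1) * T 2 ^ (c + 1) =
        T 0 ^ a * T 1 ^ b * T 2 ^ c * (T 1 * T 2) := by
      have e3 := h21 c 1
      rw [pow_one] at e3
      calc T 0 ^ a * T 1 ^ (b + 1) * T 2 ^ (c + 1)
          = T 0 ^ a * T 1 ^ b * (T 1 * T 2 ^ c) * T 2 := by
            rw [pow_succ, pow_succ]; simp only [mul_assoc]
        _ = _ := by rw [← e3]; simp only [mul_assoc]
    rw [e, mm2]
    have := hd a b c _ _ (hP 1 2 (by decide))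
    refine anti_le mon_anti ?_ this
    rw [Nat.succ_mul, Nat.succ_mul]; omega

/-- the leading part is spanned by the pure powers -/
theorem mon_gen (hT : CN T) (hδ : ∀ i, 1 ≤ δ i)
    (hP : ∀ i j, i ≠ j → T i *ᵥ (T j *ᵥ v) ∈ Mon δ v T (δ i + δ j + 1)) {m : ℕ} (hm : 1 ≤ m) :
    ∀ x ∈ Mon δ v T m, ∃ c : Fin 3 → k, x - ∑ l, c l • pu δ v T l m ∈ Mon δ v T (m + 1) := by
  intro x hx
  unfold Mon at hx
  induction hx using Submodule.span_induction with
  | zero =>
    refine ⟨0, ?_⟩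
    simp only [Pi.zero_apply, zero_smul, Finset.sum_const_zero, sub_zero]
    exact zero_mem _
  | add x y _ _ hx hy =>
    obtain ⟨c, hc⟩ := hx
    obtain ⟨c', hc'⟩ := hy
    refine ⟨c + c', ?_⟩
    have e : x + y - ∑ l, (c + c') l • pu δ v T l m = (x - ∑ l, c l • pu δ v T l m) +
        (y - ∑ l, c' l • pu δ v T l m) := by
      simp only [Pi.add_apply, add_smul, Finset.sum_add_distrib]
      abel
    rw [e]
    exact add_mem hc hc'
  | smul r x _ hx =>
    obtain ⟨c, hc⟩ := hx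
    refine ⟨r • c, ?_⟩
    have e : r • x - ∑ l, (r • c) l • pu δ v T l m = r • (x - ∑ l, c l • pu δ v T l m) := by
      simp only [Pi.smul_apply, smul_sub, Finset.smul_sum, smul_assoc]
    rw [e]
    exact Submodule.smul_mem _ _ hc
  | mem x hx =>
    obtain ⟨a, b, c, hw, rfl⟩ := hx
    rcases Nat.lt_or_ge m (a * δ 0 + b * δ 1 + c * δ 2) with hlt | hge
    · refine ⟨0, ?_⟩
      simp only [Pi.zero_apply, zero_smul, Finset.sum_const_zero, sub_zero]
      exact Submodule.subset_span ⟨a, b, c, hlt, rfl⟩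
    · have hwm : m = a * δ 0 + b * δ 1 + c * δ 2 := by omega
      by_cases hmix : (1 ≤ a ∧ 1 ≤ b) ∨ (1 ≤ a ∧ 1 ≤ c) ∨ (1 ≤ b ∧ 1 ≤ c)
      · refine ⟨0, ?_⟩
        simp only [Pi.zero_apply, zero_smul, Finset.sum_const_zero, sub_zero]
        rw [hwm]
        exact mon_mixed hT hP hmix
      · -- pure
        have hpure : ∀ (l : Fin 3) (e : ℕ), m = e * δ l →
            ∃ c : Fin 3 → k, T l ^ e *ᵥ v - ∑ l, c l • pu δ v T l m ∈ Mon δ v T (m + 1) := by
          intro l e he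
          refine ⟨Pi.single l 1, ?_⟩
          rw [Finset.sum_eq_single l (fun l' _ hl' => by rw [Pi.single_eq_of_ne hl', zero_smul])
            (fun h => absurd (Finset.mem_univ l) h), Pi.single_eq_same, one_smul, pu,
            if_pos ⟨e, by rw [he, mul_comm]⟩, he, Nat.mul_div_cancel _ (hδ l), sub_self]
          exact zero_mem _
        have h3 : (b = 0 ∧ c = 0) ∨ (a = 0 ∧ c = 0) ∨ (a = 0 ∧ b = 0) := by omega
        rcases h3 with ⟨rfl, rfl⟩ | ⟨rfl, rfl⟩ | ⟨rfl, rfl⟩
        · rw [pow_zero, pow_zero, mul_one, mul_one]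
          exact hpure 0 a (by rw [hwm]; ring)
        · rw [pow_zero, pow_zero, mul_one, one_mul]
          exact hpure 1 b (by rw [hwm]; ring)
        · rw [pow_zero, pow_zero, mul_one, one_mul]
          exact hpure 2 c (by rw [hwm]; ring)

/-- the filtration by the monomials -/
theorem filt_mon (hT : CN T) (hδ : ∀ i, 1 ≤ δ i) (hL : ∀ i, p i * δ i = L) (hp : ∀ i, 1 ≤ p i)
    (hcard : Fintype.card n = p 0 + p 1 + p 2)
    (hspan : ⊤ ≤ Submodule.span k ({v} ∪ {y | ∃ i m, 1 ≤ m ∧ m ≤ p i ∧ y = T i ^ m *ᵥ v}))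
    (htop : ∀ i, T i ^ (p i + 1) *ᵥ v = 0)
    (hrel : ∃ r : Fin 3 → k, (∀ i, r i ≠ 0) ∧ ∑ i, r i • (T i ^ p i *ᵥ v) = 0)
    (hP : ∀ i j, i ≠ j → T i *ᵥ (T j *ᵥ v) ∈ Mon δ v T (δ i + δ j + 1)) :
    Filt δ p L (Mon δ v T) v T := by
  have htop' : ∀ i e, p i < e → T i ^ e *ᵥ v = 0 := by
    intro i e he
    obtain ⟨f, hf⟩ : ∃ f, e = f + (p i + 1) := ⟨e - (p i + 1), by omega⟩
    rw [hf, pow_add, ← Matrix.mulVec_mulVec, htop, Matrix.mulVec_zero]
  have hpuL : ∀ l m, L < m → pu δ v T l m = 0 := by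
    intro l m hm
    unfold pu
    split_ifs with hd
    · refine htop' l _ ?_
      rw [Nat.lt_div_iff_mul_lt' hd]
      rw [mul_comm, hL l]
      exact hm
    · rfl
  have h0 : ∀ x, ∃ c : k, x - c • v ∈ Mon δ v T 1 := by
    intro x
    have hx : x ∈ Submodule.span k ({v} ∪ {y | ∃ i m, 1 ≤ m ∧ m ≤ p i ∧ y = T i ^ m *ᵥ v}) :=
      hspan trivial
    induction hx using Submodule.span_induction with
    | zero => exact ⟨0, by rw [zero_smul, sub_zero]; exact zero_mem _⟩
    | add x y _ _ hx hy =>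
      obtain ⟨c, hc⟩ := hx
      obtain ⟨c', hc'⟩ := hy
      refine ⟨c + c', ?_⟩
      have e : x + y - (c + c') • v = (x - c • v) + (y - c' • v) := by module
      rw [e]; exact add_mem hc hc'
    | smul r x _ hx =>
      obtain ⟨c, hc⟩ := hx
      refine ⟨r * c, ?_⟩
      have e : r • x - (r * c) • v = r • (x - c • v) := by module
      rw [e]; exact Submodule.smul_mem _ _ hc
    | mem x hx =>
      rcases hx with rfl | ⟨i, m, hm, -, rfl⟩
      · exact ⟨1, by rw [one_smul, sub_self]; exact zero_mem _⟩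
      · refine ⟨0, ?_⟩
        rw [zero_smul, sub_zero]
        refine anti_le mon_anti ?_ (mon_pow hT i m)
        exact Nat.one_le_iff_ne_zero.2 (Nat.mul_ne_zero (by omega) (by have := hδ i; omega))
  refine ⟨hT, mon_v, fun x => ?_, mon_anti, ?_, fun i => mon_dg hT i, h0,
    fun m hm _ => mon_gen hT hδ hP hm, hrel, ?_⟩
  · obtain ⟨c, hc⟩ := h0 x
    have h1 := add_mem (mon_anti 0 hc) (Submodule.smul_mem _ c (mon_v (δ := δ) (v := v) (T := T)))
    rwa [sub_add_cancel] at h1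
  · intro m hm x hx
    have key : ∀ j m, L < m → Fintype.card n * (δ 0 + δ 1 + δ 2) < m + j →
        ∀ x ∈ Mon δ v T m, x = 0 := by
      intro j
      induction j with
      | zero => intro m _ hj; exact mon_zero hT (by omega)
      | succ j ih =>
        intro m hm hj x hx
        obtain ⟨c, hc⟩ := mon_gen hT hδ hP (by omega) x hx
        have h1 : ∑ l, c l • pu δ v T l m = 0 :=
          Finset.sum_eq_zero fun l _ => by rw [hpuL l m hm, smul_zero]
        rw [h1, sub_zero] at hc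
        exact ih (m + 1) (by omega) (by omega) x hc
    exact key (Fintype.card n * (δ 0 + δ 1 + δ 2) + 1) m hm (by omega) x hx
  · -- linear independence
    obtain ⟨r, hr, hr0⟩ := hrel
    rw [Fin.sum_univ_three] at hr0
    let q : Fin 3 → ℕ := ![p 0, p 1, p 2 - 1]
    let b : Option (Σ l : Fin 3, Fin (q l)) → n → k := fun x =>
      x.elim v fun a => T a.1 ^ ((a.2 : ℕ) + 1) *ᵥ v
    have hb : ∀ (l : Fin 3) (m : ℕ), 1 ≤ m → m ≤ q l →
        T l ^ m *ᵥ v ∈ Submodule.span k (Set.range b) := by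
      intro l m h1 h2
      refine Submodule.subset_span ⟨some ⟨l, ⟨m - 1, by omega⟩⟩, ?_⟩
      show T l ^ (m - 1 + 1) *ᵥ v = _
      rw [Nat.sub_add_cancel h1]
    have hsp : ⊤ ≤ Submodule.span k (Set.range b) := by
      refine hspan.trans (Submodule.span_le.2 ?_)
      rintro x (rfl | ⟨i, m, h1, h2, rfl⟩)
      · exact Submodule.subset_span ⟨none, rfl⟩
      · by_cases hi : m ≤ q i
        · exact hb i m h1 hi
        · have hi2 : i = 2 := by
            fin_cases i
            · exact absurd h2 hi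
            · exact absurd h2 hi
            · rfl
          subst hi2
          have hm : m = p 2 := by
            have : ¬ m ≤ p 2 - 1 := hi
            omega
          rw [hm]
          have e : T 2 ^ p 2 *ᵥ v = -((r 2)⁻¹ * r 0) • (T 0 ^ p 0 *ᵥ v) +
              -((r 2)⁻¹ * r 1) • (T 1 ^ p 1 *ᵥ v) := by
            have h4 : r 2 • (T 2 ^ p 2 *ᵥ v) = -(r 0 • (T 0 ^ p 0 *ᵥ v)) -
                r 1 • (T 1 ^ p 1 *ᵥ v) := by
              rw [eq_sub_iff_add_eq, eq_neg_iff_add_eq_zero, ← hr0]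
              abel
            have h5 := congrArg (fun x => (r 2)⁻¹ • x) h4
            simp only [smul_smul, inv_mul_cancel₀ (hr 2), one_smul, smul_sub, smul_neg] at h5
            rw [h5]
            module
          rw [e]
          exact add_mem (Submodule.smul_mem _ _ (hb 0 (p 0) (hp 0) le_rfl))
            (Submodule.smul_mem _ _ (hb 1 (p 1) (hp 1) le_rfl))
    have hli : LinearIndependent k b := by
      refine linearIndependent_of_top_le_span_of_card_eq_finrank hsp ?_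
      rw [Module.finrank_fintype_fun_eq_card, Fintype.card_option, Fintype.card_sigma,
        Fin.sum_univ_three]
      simp only [Fintype.card_fin]
      show p 0 + p 1 + (p 2 - 1) + 1 = _
      have := hp 2
      omega
    have h01 : ∀ s t : k, s • (T 0 ^ p 0 *ᵥ v) + t • (T 1 ^ p 1 *ᵥ v) = 0 → s = 0 ∧ t = 0 := by
      have h1 : LinearIndependent k ![T 0 ^ p 0 *ᵥ v, T 1 ^ p 1 *ᵥ v] := by
        have h2 := hli.comp (![some ⟨0, ⟨p 0 - 1, by show p 0 - 1 < p 0; have := hp 0; omega⟩⟩,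
          some ⟨1, ⟨p 1 - 1, by show p 1 - 1 < p 1; have := hp 1; omega⟩⟩] :
            Fin 2 → Option (Σ l : Fin 3, Fin (q l))) (by
              intro x y hxy
              fin_cases x <;> fin_cases y
              · rfl
              · exfalso
                have h := Option.some.inj hxy
                have h2 : (0 : Fin 3) = 1 := congrArg Sigma.fst h
                exact absurd h2 (by decide)
              · exfalso
                have h := Option.some.inj hxy
                have h2 : (1 : Fin 3) = 0 := congrArg Sigma.fst h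
                exact absurd h2 (by decide)
              · rfl)
        convert h2 using 1
        funext x
        fin_cases x
        · show T 0 ^ p 0 *ᵥ v = T 0 ^ (p 0 - 1 + 1) *ᵥ v
          rw [Nat.sub_add_cancel (hp 0)]
        · show T 1 ^ p 1 *ᵥ v = T 1 ^ (p 1 - 1 + 1) *ᵥ v
          rw [Nat.sub_add_cancel (hp 1)]
      exact fun s t h => LinearIndependent.pair_iff.1 h1 s t h
    intro c i hi h0
    rw [Fin.sum_univ_three] at h0
    -- eliminate the third vector
    have h2 := h01 (c 0 - c 2 * (r 2)⁻¹ * r 0) (c 1 - c 2 * (r 2)⁻¹ * r 1) (by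
      have h4 : r 2 • (T 2 ^ p 2 *ᵥ v) = -(r 0 • (T 0 ^ p 0 *ᵥ v)) -
          r 1 • (T 1 ^ p 1 *ᵥ v) := by
        rw [eq_sub_iff_add_eq, eq_neg_iff_add_eq_zero, ← hr0]
        abel
      have h5 := congrArg (fun x => (c 2 * (r 2)⁻¹) • x) h4
      simp only [smul_smul] at h5
      rw [mul_assoc, inv_mul_cancel₀ (hr 2), mul_one] at h5
      rw [h5] at h0
      rw [← h0]
      module)
    obtain ⟨h3, h4⟩ := h2
    have hr2 := hr 2
    have h5 : c 0 * r 2 = c 2 * r 0 := by
      have : c 0 = c 2 * (r 2)⁻¹ * r 0 := by linear_combination h3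
      rw [this]; field_simp
    have h6 : c 1 * r 2 = c 2 * r 1 := by
      have : c 1 = c 2 * (r 2)⁻¹ * r 1 := by linear_combination h4
      rw [this]; field_simp
    have hc2 : c 2 = 0 := by
      fin_cases i
      · have hi' : c 0 = 0 := hi
        rw [hi', zero_mul] at h5
        exact (mul_eq_zero.1 h5.symm).resolve_right (hr 0)
      · have hi' : c 1 = 0 := hi
        rw [hi', zero_mul] at h6
        exact (mul_eq_zero.1 h6.symm).resolve_right (hr 1)
      · exact hi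
    rw [hc2, zero_mul] at h5 h6
    intro j
    fin_cases j
    · exact (mul_eq_zero.1 h5).resolve_right hr2
    · exact (mul_eq_zero.1 h6).resolve_right hr2
    · exact hc2

end Lead1

open Lead1

/-- **three axes up to terms of higher weight, cyclic case** -/
theorem cl_lead_cyc [IsAlgClosed k] (p δ : Fin 3 → ℕ) (L : ℕ) (hp : ∀ i, 2 ≤ p i)
    (hδ : ∀ i, 1 ≤ δ i) (hL : ∀ i, p i * δ i = L) (hcard : Fintype.card n = p 0 + p 1 + p 2)
    {T : Fin 3 → Matrix n n k} (hT : CN T) (v : n → k)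
    (hspan : ⊤ ≤ Submodule.span k ({v} ∪ {y | ∃ i m, 1 ≤ m ∧ m ≤ p i ∧ y = T i ^ m *ᵥ v}))
    (htop : ∀ i, T i ^ (p i + 1) *ᵥ v = 0)
    (hrel : ∃ r : Fin 3 → k, (∀ i, r i ≠ 0) ∧ ∑ i, r i • (T i ^ p i *ᵥ v) = 0)
    (hx : ∀ i j, i ≠ j → T i *ᵥ (T j *ᵥ v) ∈ Submodule.span k
      {y | ∃ l m, m ≤ p l ∧ δ i + δ j < m * δ l ∧ y = T l ^ m *ᵥ v}) : Cl T := by
  have hP : ∀ i j, i ≠ j → T i *ᵥ (T j *ᵥ v) ∈ Mon δ v T (δ i + δ j + 1) := by
    intro i j hij
    refine (Submodule.span_le.2 ?_) (hx i j hij)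
    rintro y ⟨l, m, -, hm, rfl⟩
    exact anti_le mon_anti hm (mon_pow hT l m)
  have hF := filt_mon hT hδ hL (fun i => by have := hp i; omega) hcard hspan htop hrel hP
  obtain ⟨T', hF', hm, h0⟩ := hF.normal hδ hL hP
  have hzero : ∀ {M : Matrix n n k}, (∀ i, T' i * M = M * T' i) → M *ᵥ v = 0 → M = 0 := by
    intro M hM hv
    have h1 : Dg (Mon δ v T) (L + 1) M := hF'.dg hδ hM (by rw [hv]; exact zero_mem _)
    have h2 : ∀ x, M *ᵥ x = 0 := fun x => hF'.top _ (by omega) _ (h1 0 x (hF'.all0 x))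
    ext i j
    have := congrFun (h2 (Pi.single j 1)) i
    rwa [Matrix.mulVec_single_one] at this
  have hprod : ∀ i j, i ≠ j → T' i * T' j = 0 := by
    intro i j hij
    refine hzero (fun l => ?_) ?_
    · rw [← mul_assoc, hF'.cn.1 l i, mul_assoc, hF'.cn.1 l j, mul_assoc]
    · rw [← Matrix.mulVec_mulVec]; exact h0 i j hij
  set S := Submodule.span k ({v} ∪ {x | ∃ i, x = T' 0 ^ (i + 1) *ᵥ v} ∪
      {x | ∃ i, x = T' 1 ^ (i + 1) *ᵥ v} ∪ {x | ∃ i, x = T' 2 ^ (i + 1) *ᵥ v}) with hS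
  have hvS : v ∈ S := Submodule.subset_span (Or.inl (Or.inl (Or.inl rfl)))
  have hpS : ∀ l e, 1 ≤ e → T' l ^ e *ᵥ v ∈ S := by
    intro l e he
    obtain ⟨e, rfl⟩ : ∃ e', e = e' + 1 := ⟨e - 1, by omega⟩
    fin_cases l
    · exact Submodule.subset_span (Or.inl (Or.inl (Or.inr ⟨e, rfl⟩)))
    · exact Submodule.subset_span (Or.inl (Or.inr ⟨e, rfl⟩))
    · exact Submodule.subset_span (Or.inr ⟨e, rfl⟩)
  have hGS : ∀ j m, 1 ≤ m → L < m + j → Mon δ v T m ≤ S := by
    intro j
    induction j with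
    | zero =>
      intro m _ hj x hx
      rw [hF'.top m (by omega) x hx]
      exact zero_mem _
    | succ j ih =>
      intro m hm hj x hx
      rcases Nat.lt_or_ge L m with hL' | hL'
      · rw [hF'.top m hL' x hx]
        exact zero_mem _
      · obtain ⟨c, hc⟩ := hF'.gen m hm hL' x hx
        have h1 := ih (m + 1) (by omega) (by omega) hc
        have h2 : ∑ l, c l • pu δ v T' l m ∈ S := by
          refine Submodule.sum_mem _ fun l _ => Submodule.smul_mem _ _ ?_
          unfold pu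
          split_ifs with hd
          · refine hpS l _ ?_
            exact Nat.div_pos (Nat.le_of_dvd hm hd) (hδ l)
          · exact zero_mem _
        have h3 := add_mem h1 h2
        rwa [sub_add_cancel] at h3
  have hST : ∀ x, x ∈ S := by
    intro x
    obtain ⟨c, hc⟩ := hF'.gen0 x
    have h1 := hGS L 1 le_rfl (by omega) hc
    have h2 := add_mem h1 (Submodule.smul_mem _ c hvS)
    rwa [sub_add_cancel] at h2
  -- the original matrices are polynomials in the new ones
  have hrep : ∀ x ∈ S, ∃ (c : k) (M : Matrix n n k), M ∈ adj T' ∧ x = c • v + M *ᵥ v := by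
    intro x hx
    rw [hS] at hx
    induction hx using Submodule.span_induction with
    | zero => exact ⟨0, 0, zero_mem _, by rw [zero_smul, Matrix.zero_mulVec, add_zero]⟩
    | add x y _ _ hx hy =>
      obtain ⟨c, M, hM, rfl⟩ := hx
      obtain ⟨c', M', hM', rfl⟩ := hy
      exact ⟨c + c', M + M', add_mem hM hM', by rw [Matrix.add_mulVec]; module⟩
    | smul r x _ hx =>
      obtain ⟨c, M, hM, rfl⟩ := hx
      exact ⟨r * c, r • M, SMulMemClass.smul_mem _ hM, by rw [Matrix.smul_mulVec]; module⟩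
    | mem x hx =>
      have hpm : ∀ l e, T' l ^ (e + 1) ∈ adj T' := by
        intro l e
        induction e with
        | zero => rw [zero_add, pow_one]; exact mem_adj T' l
        | succ e ih => rw [pow_succ]; exact mul_mem ih (mem_adj T' l)
      rcases hx with ((rfl | ⟨i, rfl⟩) | ⟨i, rfl⟩) | ⟨i, rfl⟩
      · exact ⟨1, 0, zero_mem _, by rw [one_smul, Matrix.zero_mulVec, add_zero]⟩
      · exact ⟨0, _, hpm 0 i, by rw [zero_smul, zero_add]⟩
      · exact ⟨0, _, hpm 1 i, by rw [zero_smul, zero_add]⟩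
      · exact ⟨0, _, hpm 2 i, by rw [zero_smul, zero_add]⟩
  have hne : Nonempty n := by
    rw [← Fintype.card_pos_iff, hcard]
    have := hp 0
    omega
  have hback : ∀ i, T i ∈ adj T' := by
    intro i
    obtain ⟨c, M, hM, hx⟩ := hrep _ (hST (T i *ᵥ v))
    have hMT : M ∈ adj T := adj_le hm hM
    have h1 : T i - (c • 1 + M) = 0 := by
      refine hzero (fun l => ?_) ?_
      · have e1 : T' l * T i = T i * T' l := hF.cn.comm (hm l) (mem_adj T i)
        have e2 : T' l * M = M * T' l := hF.cn.comm (hm l) hMT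
        simp only [mul_sub, sub_mul, mul_add, add_mul, mul_smul_comm, smul_mul_assoc, mul_one,
          one_mul, e1, e2]
      · rw [Matrix.sub_mulVec, Matrix.add_mulVec, Matrix.smul_mulVec, Matrix.one_mulVec, hx,
          sub_self]
    have h2 : T i - M = c • (1 : Matrix n n k) := by
      rw [sub_eq_zero] at h1
      rw [h1]
      abel
    have h3 : IsNilpotent (c • (1 : Matrix n n k)) := by
      rw [← h2]
      exact hF.cn.nilp (sub_mem (mem_adj T i) hMT)
    obtain ⟨e, he⟩ := h3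
    rw [smul_pow, one_pow] at he
    have h4 : c ^ e = 0 := by
      have h5 := congrFun (congrFun he hne.some) hne.some
      simpa using h5
    have hc0 : c = 0 := IsNilpotent.eq_zero ⟨e, h4⟩
    rw [hc0, zero_smul, sub_eq_zero] at h2
    rw [h2]
    exact hM
  obtain ⟨r, hr, hr0⟩ := hF'.rel
  rw [Fin.sum_univ_three] at hr0
  have hXp : T' 0 ^ p 0 *ᵥ v = (-((r 0)⁻¹ * r 1)) • (T' 1 ^ p 1 *ᵥ v) +
      (-((r 0)⁻¹ * r 2)) • (T' 2 ^ p 2 *ᵥ v) := by
    have h4 : r 0 • (T' 0 ^ p 0 *ᵥ v) = -(r 1 • (T' 1 ^ p 1 *ᵥ v)) -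
        r 2 • (T' 2 ^ p 2 *ᵥ v) := by
      rw [eq_sub_iff_add_eq, eq_neg_iff_add_eq_zero, ← hr0]
      abel
    have h5 := congrArg (fun x => (r 0)⁻¹ • x) h4
    simp only [smul_smul, inv_mul_cancel₀ (hr 0), one_smul, smul_sub, smul_neg] at h5
    rw [h5]
    module
  have key := cl_axes3 (T' 0) (T' 1) (T' 2) v (hp 0) (by have := hp 1; omega)
    (by have := hp 2; omega) hcard (hprod 0 1 (by decide)) (hprod 1 0 (by decide))
    (hprod 0 2 (by decide)) (hprod 2 0 (by decide)) (hprod 1 2 (by decide))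
    (hprod 2 1 (by decide))
    (neg_ne_zero.2 (mul_ne_zero (inv_ne_zero (hr 0)) (hr 1)))
    (neg_ne_zero.2 (mul_ne_zero (inv_ne_zero (hr 0)) (hr 2))) hXp
    (fun x _ => hST x) (fun i j => if i = j then 1 else 0)
  have e : (fun i : Fin 3 => (if i = 0 then (1 : k) else 0) • T' 0 +
      (if i = 1 then (1 : k) else 0) • T' 1 + (if i = 2 then (1 : k) else 0) • T' 2) = T' := by
    funext i
    fin_cases i <;> simp
  rw [e] at key
  exact cl_of_adj hback key

end Pool.Agent.Lib.D13
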