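import Pool.Agent.Lib.D13.I542
import Pool.Agent.Lib.D13.Lead1

/-!
# MP_5dcbc3_ag: type (5, 4, 2), the cyclic stratum: three axes with exponents 4, 4, 3
-/

namespace Pool.Agent.Lib.D13.I542

open Matrix Pool.Agent.Lib.Q5dc Pool.Agent.Lib.D7

variable {k : Type*} [Field k]

/-- the axes -/
def Ax (p : Par k) : Fin 3 → Matrix (Fin 11) (Fin 11) k := ![Y p, Y p - p.h1 • J k, Z p]

/-- the generator -/
def v0 (k : Type*) [Field k] : Fin 11 → k := ![1, 0, 0, 0, 0, 0, 0, 0, 0, 0, 0]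

section

variable (p : Par k)

theorem X0 (m : Fin 11 → k) : Ax p 0 *ᵥ m = actY p m := Y_mulVec p m

theorem X1 (m : Fin 11 → k) : Ax p 1 *ᵥ m = actY p m - p.h1 • actJ m := by
  show (Y p - p.h1 • J k) *ᵥ m = _
  rw [sub_mulVec, smul_mulVec, Y_mulVec, J_mulVec]

theorem X2 (m : Fin 11 → k) : Ax p 2 *ᵥ m = actZ p m := Z_mulVec p m

variable {p} (hg : p.g1 = 0)
include hg

theorem p01 : Ax p 0 *ᵥ v0 k = ![0, 0, 0, 0, 0, 1, 0, 0, 0, 0, 0] := by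
  rw [X0]
  funext i
  fin_cases i <;> simp [actY, v0]

theorem p02 : Ax p 0 ^ 2 *ᵥ v0 k = ![0, 0, 0, p.g2, p.g3, 0, p.h1, p.h2, p.h3, 0, p.t] := by
  rw [pow_succ', ← mulVec_mulVec, pow_one, p01 hg, X0]
  funext i
  fin_cases i <;> simp [actY, hg]

theorem p03 : Ax p 0 ^ 3 *ᵥ v0 k = ![0, 0, 0, 0, p.g2 * p.h1 + p.q0 * p.t, 0, 0, p.h1 * p.h1,
    p.g2 + p.h2 * p.h1 + p.h1 * p.h2 + p.u0 * p.t, 0, 0] := by
  rw [pow_succ', ← mulVec_mulVec, p02 hg, X0]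
  funext i
  fin_cases i <;> simp [actY, hg]

theorem p04 : Ax p 0 ^ 4 *ᵥ v0 k = ![0, 0, 0, 0, 0, 0, 0, 0, p.h1 * p.h1 * p.h1, 0, 0] := by
  rw [pow_succ', ← mulVec_mulVec, p03 hg, X0]
  funext i
  fin_cases i <;> simp [actY, hg]
  ring

theorem p05 : Ax p 0 ^ 5 *ᵥ v0 k = 0 := by
  rw [pow_succ', ← mulVec_mulVec, p04 hg, X0]
  funext i
  fin_cases i <;> simp [actY]

theorem p11 : Ax p 1 *ᵥ v0 k = ![0, -p.h1, 0, 0, 0, 1, 0, 0, 0, 0, 0] := by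
  rw [X1]
  funext i
  fin_cases i <;> simp [actY, actJ, v0]

theorem p12 : Ax p 1 ^ 2 *ᵥ v0 k =
    ![0, 0, p.h1 * p.h1, p.g2, p.g3, 0, -p.h1, p.h2, p.h3, 0, p.t] := by
  rw [pow_succ', ← mulVec_mulVec, pow_one, p11 hg, X1]
  funext i
  fin_cases i <;> simp [actY, actJ, hg]

theorem p13 : Ax p 1 ^ 3 *ᵥ v0 k = ![0, 0, 0, -(p.h1 * p.h1 * p.h1),
    -(2 * (p.h1 * p.g2)) + p.q0 * p.t, 0, 0, p.h1 * p.h1,
    p.g2 - p.h1 * p.h2 + p.u0 * p.t, 0, 0] := by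
  rw [pow_succ', ← mulVec_mulVec, p12 hg, X1]
  funext i
  fin_cases i <;> simp [actY, actJ, hg] <;> ring

theorem p14 : Ax p 1 ^ 4 *ᵥ v0 k =
    ![0, 0, 0, 0, p.h1 * p.h1 * p.h1 * p.h1, 0, 0, 0, -(p.h1 * p.h1 * p.h1), 0, 0] := by
  rw [pow_succ', ← mulVec_mulVec, p13 hg, X1]
  funext i
  fin_cases i <;> simp [actY, actJ, hg] <;> ring

theorem p15 : Ax p 1 ^ 5 *ᵥ v0 k = 0 := by
  rw [pow_succ', ← mulVec_mulVec, p14 hg, X1]
  funext i
  fin_cases i <;> simp [actY, actJ]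

omit hg

theorem p21 : Ax p 2 *ᵥ v0 k = ![0, 0, 0, 0, 0, 0, 0, 0, 0, p.r0, p.r1] := by
  rw [X2]
  funext i
  fin_cases i <;> simp [actZ, v0]

theorem p22 : Ax p 2 ^ 2 *ᵥ v0 k = ![0, 0, 0, p.a0 * p.r0, p.a1 * p.r0 + p.a0 * p.r1, 0, 0,
    p.b0 * p.r0, p.b1 * p.r0 + p.b0 * p.r1, 0, p.c * p.r0] := by
  rw [pow_succ', ← mulVec_mulVec, pow_one, p21, X2]
  funext i
  fin_cases i <;> simp [actZ]

theorem p23 : Ax p 2 ^ 3 *ᵥ v0 k = ![0, 0, 0, 0, p.a0 * (p.c * p.r0), 0, 0, 0,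
    p.b0 * (p.c * p.r0), 0, 0] := by
  rw [pow_succ', ← mulVec_mulVec, p22, X2]
  funext i
  fin_cases i <;> simp [actZ]

theorem p24 : Ax p 2 ^ 4 *ᵥ v0 k = 0 := by
  rw [pow_succ', ← mulVec_mulVec, p23, X2]
  funext i
  fin_cases i <;> simp [actZ]

end

/-- the stratum of three axes -/
theorem cl_gen [IsAlgClosed k] {p : Par k} (hR : Rel p) (hg : p.g1 = 0) (hh : p.h1 ≠ 0)
    (hr : p.r0 ≠ 0) (hc : p.c ≠ 0) (ha : p.a0 ≠ 0) (hb : p.a0 + p.h1 * p.b0 ≠ 0) :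
    Cl (T p) := by
  have hcn := cn hR
  -- the vectors of weight at least 8
  have hW : ∀ (S : Submodule k (Fin 11 → k)), Ax p 0 ^ 4 *ᵥ v0 k ∈ S → Ax p 1 ^ 4 *ᵥ v0 k ∈ S →
      Ax p 0 ^ 3 *ᵥ v0 k ∈ S → Ax p 1 ^ 3 *ᵥ v0 k ∈ S → Ax p 2 ^ 2 *ᵥ v0 k ∈ S →
      ∀ a b c d e : k, (![0, 0, 0, a, b, 0, 0, c, d, 0, e] : Fin 11 → k) ∈ S := by
    intro S s1 s2 s3 s4 s5
    rw [p04 hg] at s1
    rw [p14 hg] at s2
    rw [p03 hg] at s3
    rw [p13 hg] at s4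
    rw [p22] at s5
    have t8 : ∀ d : k, (![0, 0, 0, 0, 0, 0, 0, 0, d, 0, 0] : Fin 11 → k) ∈ S := by
      intro d
      have := S.smul_mem (d * (p.h1 * p.h1 * p.h1)⁻¹) s1
      convert this using 1
      funext i
      fin_cases i <;> simp
      field_simp
    have t4 : ∀ b : k, (![0, 0, 0, 0, b, 0, 0, 0, 0, 0, 0] : Fin 11 → k) ∈ S := by
      intro b
      have := add_mem (S.smul_mem (b * (p.h1 * p.h1 * p.h1 * p.h1)⁻¹) s2)
        (t8 (b * p.h1⁻¹))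
      convert this using 1
      funext i
      fin_cases i <;> simp
      · field_simp
      · field_simp
        ring
    have t7 : ∀ c : k, (![0, 0, 0, 0, 0, 0, 0, c, 0, 0, 0] : Fin 11 → k) ∈ S := by
      intro c
      have := sub_mem (sub_mem (S.smul_mem (c * (p.h1 * p.h1)⁻¹) s3)
        (t4 (c * (p.h1 * p.h1)⁻¹ * (p.g2 * p.h1 + p.q0 * p.t))))
        (t8 (c * (p.h1 * p.h1)⁻¹ * (p.g2 + p.h2 * p.h1 + p.h1 * p.h2 + p.u0 * p.t)))
      convert this using 1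
      funext i
      fin_cases i <;> simp
      field_simp
    have t3 : ∀ a : k, (![0, 0, 0, a, 0, 0, 0, 0, 0, 0, 0] : Fin 11 → k) ∈ S := by
      intro a
      have := sub_mem (sub_mem (sub_mem (S.smul_mem (-a * (p.h1 * p.h1 * p.h1)⁻¹) s4)
        (t4 (-a * (p.h1 * p.h1 * p.h1)⁻¹ * (-(2 * (p.h1 * p.g2)) + p.q0 * p.t))))
        (t8 (-a * (p.h1 * p.h1 * p.h1)⁻¹ * (p.g2 - p.h1 * p.h2 + p.u0 * p.t))))
        (t7 (-a * (p.h1 * p.h1 * p.h1)⁻¹ * (p.h1 * p.h1)))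
      convert this using 1
      funext i
      fin_cases i <;> simp
      field_simp
    have t10 : ∀ e : k, (![0, 0, 0, 0, 0, 0, 0, 0, 0, 0, e] : Fin 11 → k) ∈ S := by
      intro e
      have := sub_mem (sub_mem (sub_mem (sub_mem (S.smul_mem (e * (p.c * p.r0)⁻¹) s5)
        (t4 (e * (p.c * p.r0)⁻¹ * (p.a1 * p.r0 + p.a0 * p.r1))))
        (t8 (e * (p.c * p.r0)⁻¹ * (p.b1 * p.r0 + p.b0 * p.r1))))
        (t7 (e * (p.c * p.r0)⁻¹ * (p.b0 * p.r0)))) (t3 (e * (p.c * p.r0)⁻¹ * (p.a0 * p.r0)))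
      convert this using 1
      funext i
      fin_cases i <;> simp
      field_simp
    intro a b c d e
    have := add_mem (add_mem (add_mem (add_mem (t3 a) (t4 b)) (t7 c)) (t8 d)) (t10 e)
    convert this using 1
    funext i
    fin_cases i <;> simp
  have mJ : J k ∈ adj (Ax p) := by
    have h1 := sub_mem (mem_adj (Ax p) 0) (mem_adj (Ax p) 1)
    have h2 : Ax p 0 - Ax p 1 = p.h1 • J k := by
      show Y p - (Y p - p.h1 • J k) = p.h1 • J k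
      abel
    rw [h2] at h1
    have h3 := SMulMemClass.smul_mem p.h1⁻¹ h1
    rwa [smul_smul, inv_mul_cancel₀ hh, one_smul] at h3
  have hX : CN (Ax p) := by
    refine D8.cn3 ?_ (comm_YZ hR) ?_ (Y_nil p) ?_ (Z_nil p)
    · rw [mul_sub, sub_mul, mul_smul_comm, smul_mul_assoc, comm_JY]
    · rw [mul_sub, sub_mul, mul_smul_comm, smul_mul_assoc, comm_JZ, comm_YZ hR]
    · have := hcn.nilp (sub_mem (mem_adj (T p) 1) (SMulMemClass.smul_mem p.h1 (mem_adj (T p) 0)))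
      exact this
  have hcl : Cl (Ax p) := by
    refine cl_lead_cyc ![4, 4, 3] ![3, 3, 4] 12 ?_ ?_ ?_ ?_ hX (v0 k) ?_ ?_ ?_ ?_
    · decide
    · decide
    · decide
    · decide
    · -- the span
      set S := Submodule.span k ({v0 k} ∪ {y | ∃ i m, 1 ≤ m ∧ m ≤ (![4, 4, 3] : Fin 3 → ℕ) i ∧
        y = Ax p i ^ m *ᵥ v0 k}) with hS
      have mem : ∀ (i : Fin 3) (m : ℕ), 1 ≤ m → m ≤ (![4, 4, 3] : Fin 3 → ℕ) i →
          Ax p i ^ m *ᵥ v0 k ∈ S := fun i m h1 h2 =>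
        Submodule.subset_span (Or.inr ⟨i, m, h1, h2, rfl⟩)
      have m0 : v0 k ∈ S := Submodule.subset_span (Or.inl rfl)
      have hw := hW S (mem 0 4 (by decide) (by decide)) (mem 1 4 (by decide) (by decide))
        (mem 0 3 (by decide) (by decide)) (mem 1 3 (by decide) (by decide))
        (mem 2 2 (by decide) (by decide))
      have s01 := mem 0 1 (by decide) (by decide)
      rw [pow_one, p01 hg] at s01
      have s02 := mem 0 2 (by decide) (by decide)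
      rw [p02 hg] at s02
      have s11 := mem 1 1 (by decide) (by decide)
      rw [pow_one, p11 hg] at s11
      have s12 := mem 1 2 (by decide) (by decide)
      rw [p12 hg] at s12
      have s21 := mem 2 1 (by decide) (by decide)
      rw [pow_one, p21] at s21
      intro m _
      have e : m = m 0 • v0 k + (m 5 + m 1 * p.h1⁻¹) • ![0, 0, 0, 0, 0, 1, 0, 0, 0, 0, 0] +
          (-m 1 * p.h1⁻¹) • ![0, -p.h1, 0, 0, 0, 1, 0, 0, 0, 0, 0] +
          (m 9 * p.r0⁻¹) • ![0, 0, 0, 0, 0, 0, 0, 0, 0, p.r0, p.r1] +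
          (m 6 * p.h1⁻¹ + m 2 * (p.h1 * p.h1)⁻¹) •
            ![0, 0, 0, p.g2, p.g3, 0, p.h1, p.h2, p.h3, 0, p.t] +
          (m 2 * (p.h1 * p.h1)⁻¹) •
            ![0, 0, p.h1 * p.h1, p.g2, p.g3, 0, -p.h1, p.h2, p.h3, 0, p.t] +
          ![0, 0, 0, m 3 - (m 6 * p.h1⁻¹ + 2 * (m 2 * (p.h1 * p.h1)⁻¹)) * p.g2,
            m 4 - (m 6 * p.h1⁻¹ + 2 * (m 2 * (p.h1 * p.h1)⁻¹)) * p.g3, 0, 0,
            m 7 - (m 6 * p.h1⁻¹ + 2 * (m 2 * (p.h1 * p.h1)⁻¹)) * p.h2,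
            m 8 - (m 6 * p.h1⁻¹ + 2 * (m 2 * (p.h1 * p.h1)⁻¹)) * p.h3, 0,
            m 10 - (m 6 * p.h1⁻¹ + 2 * (m 2 * (p.h1 * p.h1)⁻¹)) * p.t - m 9 * p.r0⁻¹ * p.r1] := by
        funext i
        fin_cases i <;> simp [v0] <;> field_simp <;> ring
      rw [e]
      exact add_mem (add_mem (add_mem (add_mem (add_mem (add_mem (S.smul_mem _ m0)
        (S.smul_mem _ s01)) (S.smul_mem _ s11)) (S.smul_mem _ s21)) (S.smul_mem _ s02))
        (S.smul_mem _ s12)) (hw _ _ _ _ _)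
    · intro i
      fin_cases i
      · exact p05 hg
      · exact p15 hg
      · exact p24
    · refine ⟨![-(p.r0 * p.c * (p.a0 + p.h1 * p.b0)), -(p.r0 * p.c * p.a0),
        p.h1 * p.h1 * p.h1 * p.h1], ?_, ?_⟩
      · intro i
        fin_cases i
        · exact neg_ne_zero.2 (mul_ne_zero (mul_ne_zero hr hc) hb)
        · exact neg_ne_zero.2 (mul_ne_zero (mul_ne_zero hr hc) ha)
        · exact mul_ne_zero (mul_ne_zero (mul_ne_zero hh hh) hh) hh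
      · rw [Fin.sum_univ_three]
        show (-(p.r0 * p.c * (p.a0 + p.h1 * p.b0))) • (Ax p 0 ^ 4 *ᵥ v0 k) +
          (-(p.r0 * p.c * p.a0)) • (Ax p 1 ^ 4 *ᵥ v0 k) +
          (p.h1 * p.h1 * p.h1 * p.h1) • (Ax p 2 ^ 3 *ᵥ v0 k) = 0
        rw [p04 hg, p14 hg, p23]
        funext i
        fin_cases i <;> simp <;> ring
    · intro i j hij
      set S := Submodule.span k {y | ∃ l m, m ≤ (![4, 4, 3] : Fin 3 → ℕ) l ∧
        (![3, 3, 4] : Fin 3 → ℕ) i + (![3, 3, 4] : Fin 3 → ℕ) j < m * (![3, 3, 4] : Fin 3 → ℕ) l ∧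
        y = Ax p l ^ m *ᵥ v0 k} with hS
      have mem : ∀ (l : Fin 3) (m : ℕ), m ≤ (![4, 4, 3] : Fin 3 → ℕ) l →
          (![3, 3, 4] : Fin 3 → ℕ) i + (![3, 3, 4] : Fin 3 → ℕ) j <
            m * (![3, 3, 4] : Fin 3 → ℕ) l → Ax p l ^ m *ᵥ v0 k ∈ S := fun l m h1 h2 =>
        Submodule.subset_span ⟨l, m, h1, h2, rfl⟩
      have hlt : ∀ m : ℕ, 8 ≤ m → (![3, 3, 4] : Fin 3 → ℕ) i + (![3, 3, 4] : Fin 3 → ℕ) j < m := by
        intro m hm
        refine lt_of_lt_of_le ?_ hm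
        revert hij
        fin_cases i <;> fin_cases j <;> simp
      have hw := hW S (mem 0 4 (by decide) (hlt _ (by decide)))
        (mem 1 4 (by decide) (hlt _ (by decide))) (mem 0 3 (by decide) (hlt _ (by decide)))
        (mem 1 3 (by decide) (hlt _ (by decide))) (mem 2 2 (by decide) (hlt _ (by decide)))
      have key : ∀ m : Fin 11 → k, m 0 = 0 → m 1 = 0 → m 2 = 0 → m 5 = 0 → m 6 = 0 → m 9 = 0 →
          m ∈ S := by
        intro m z0 z1 z2 z5 z6 z9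
        have := hw (m 3) (m 4) (m 7) (m 8) (m 10)
        convert this using 1
        funext i
        fin_cases i
        exacts [z0, z1, z2, rfl, rfl, z5, z6, rfl, rfl, z9, rfl]
      fin_cases i <;> fin_cases j
      · exact absurd rfl hij
      · show Ax p 0 *ᵥ (Ax p 1 *ᵥ v0 k) ∈ S
        rw [p11 hg, X0]
        apply key <;> simp [actY, hg]
      · show Ax p 0 *ᵥ (Ax p 2 *ᵥ v0 k) ∈ S
        rw [p21, X0]
        apply key <;> simp [actY]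
      · show Ax p 1 *ᵥ (Ax p 0 *ᵥ v0 k) ∈ S
        rw [p01 hg, X1]
        apply key <;> simp [actY, actJ, hg]
      · exact absurd rfl hij
      · show Ax p 1 *ᵥ (Ax p 2 *ᵥ v0 k) ∈ S
        rw [p21, X1]
        apply key <;> simp [actY, actJ]
      · show Ax p 2 *ᵥ (Ax p 0 *ᵥ v0 k) ∈ S
        rw [p01 hg, X2]
        apply key <;> simp [actZ]
      · show Ax p 2 *ᵥ (Ax p 1 *ᵥ v0 k) ∈ S
        rw [p11 hg, X2]
        apply key <;> simp [actZ]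
      · exact absurd rfl hij
  refine cl_of_adj (fun i => ?_) hcl
  fin_cases i
  · exact mJ
  · exact mem_adj (Ax p) 0
  · exact mem_adj (Ax p) 2

end Pool.Agent.Lib.D13.I542
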