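import Pool.Agent.Lib.D13.I542L

/-!
# MP_5dcbc3_ag: type (5, 4, 2): the component of the cyclic three axes modules
-/

namespace Pool.Agent.Lib.D13.I542

open Matrix Pool.Agent.Lib.Q5dc Pool.Agent.Lib.D7

variable {k : Type*} [Field k]

theorem isPoly_lin (a b : k) : D7.IsPoly fun s : k => a + s * b :=
  (D7.IsPoly.const a).add (D7.IsPoly.id.mul (D7.IsPoly.const b))

/-- `c ≠ 0`, `g1 = 0`, determinant zero -/
theorem cl_c0 [IsAlgClosed k] {p : Par k} (hR : Rel p) (hg : p.g1 = 0) (hd : dt p = 0)
    (hc : p.c ≠ 0) : Cl (T p) := by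
  obtain ⟨ra, rb, rc, rd⟩ := hR
  set P : k → Par k := fun s =>
    { p with
      r0 := p.r0 + s * (1 - p.r0)
      w := p.w + s * (-p.w)
      h1 := p.h1 + s * (1 - p.h1)
      a0 := p.a0 + s * (1 - p.a0)
      b0 := p.b0 + s * (-p.b0)
      g1 := 0
      t := (p.r0 + s * (1 - p.r0)) * ((p.w + s * (-p.w)) *
        ((p.w + s * (-p.w)) - (p.h1 + s * (1 - p.h1)))) * p.c⁻¹
      q0 := (p.w + s * (-p.w)) * (p.a0 + s * (1 - p.a0)) * p.c⁻¹
      u0 := ((p.b0 + s * (-p.b0)) * ((p.w + s * (-p.w)) - (p.h1 + s * (1 - p.h1))) -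
        (p.a0 + s * (1 - p.a0))) * p.c⁻¹ } with hP
  have hp : PPoly P := by
    refine ⟨D7.IsPoly.const _, D7.IsPoly.const _, D7.IsPoly.const _, isPoly_lin _ _,
      D7.IsPoly.const _, D7.IsPoly.const _, ?_, ?_, D7.IsPoly.const _, ?_, D7.IsPoly.const _,
      isPoly_lin _ _, isPoly_lin _ _, D7.IsPoly.const _, isPoly_lin _ _, D7.IsPoly.const _,
      isPoly_lin _ _, D7.IsPoly.const _, D7.IsPoly.const _⟩
    · exact (((isPoly_lin _ _).mul ((isPoly_lin _ _).mul
        ((isPoly_lin _ _).sub (isPoly_lin _ _))))).mul (D7.IsPoly.const _)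
    · exact ((isPoly_lin _ _).mul (isPoly_lin _ _)).mul (D7.IsPoly.const _)
    · exact (((isPoly_lin _ _).mul ((isPoly_lin _ _).sub (isPoly_lin _ _))).sub
        (isPoly_lin _ _)).mul (D7.IsPoly.const _)
  have h0 : P 0 = p := by
    simp only [dt, hg] at hd
    rw [hg] at rc
    simp only [hP, zero_mul, add_zero]
    ext <;> simp only
    · exact hg.symm
    · field_simp
      linear_combination -hd
    · field_simp
      linear_combination rc
    · field_simp
      linear_combination -rd
  have hRs : ∀ s, Rel (P s) := by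
    intro s
    constructor <;> simp only [hP]
    · field_simp
      ring
    · field_simp
      ring
    · field_simp
      ring
    · field_simp
      ring
  have f1 := (isPoly_lin p.r0 (1 - p.r0)).finite (s₁ := 1) (by simp)
  have f2 := (isPoly_lin p.h1 (1 - p.h1)).finite (s₁ := 1) (by simp)
  have f3 := (isPoly_lin p.a0 (1 - p.a0)).finite (s₁ := 1) (by simp)
  have f4 := ((isPoly_lin p.a0 (1 - p.a0)).add ((isPoly_lin p.h1 (1 - p.h1)).mul
    (isPoly_lin p.b0 (-p.b0)))).finite (s₁ := 1) (by simp)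
  have h1 := cl_fam hp (((f1.union f2).union f3).union f4) (fun s hs => by
    simp only [Set.mem_union, not_or, Set.mem_ofPred_eq] at hs
    exact cl_gen (hRs s) rfl hs.1.1.2 hs.1.1.1 hc hs.1.2 hs.2)
  rwa [h0] at h1

theorem exists_root [IsAlgClosed k] (p : Par k) : ∃ c, (sh c p).g1 = 0 := by
  obtain ⟨c, hc⟩ := IsAlgClosed.exists_root
    (Polynomial.X ^ 2 - Polynomial.C p.h1 * Polynomial.X - Polynomial.C p.g1 : Polynomial k) (by
      have : (Polynomial.X ^ 2 - Polynomial.C p.h1 * Polynomial.X -
          Polynomial.C p.g1 : Polynomial k).degree = 2 := by compute_degree!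
      rw [this]
      decide)
  refine ⟨c, ?_⟩
  simp [Polynomial.IsRoot] at hc
  show p.g1 + c * p.h1 - c * c = 0
  linear_combination -hc

/-- `c ≠ 0`, determinant zero -/
theorem cl_c [IsAlgClosed k] {p : Par k} (hR : Rel p) (hd : dt p = 0) (hc : p.c ≠ 0) :
    Cl (T p) := by
  obtain ⟨a, ha⟩ := exists_root p
  exact cl_sh (cl_c0 (rel_sh hR a) ha (by rw [dt_sh, hd]) hc)

/-- `t ≠ 0`, `g1 = 0`, determinant zero -/
theorem cl_t0 [IsAlgClosed k] {p : Par k} (hR : Rel p) (hg : p.g1 = 0) (hd : dt p = 0)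
    (ht : p.t ≠ 0) : Cl (T p) := by
  obtain ⟨ra, rb, rc, rd⟩ := hR
  set P : k → Par k := fun s =>
    { p with
      r0 := p.r0 + s * (1 - p.r0)
      w := p.w + s * (1 - p.w)
      h1 := p.h1 + s * (-p.h1)
      g1 := 0
      c := (p.r0 + s * (1 - p.r0)) * ((p.w + s * (1 - p.w)) *
        ((p.w + s * (1 - p.w)) - (p.h1 + s * (-p.h1)))) * p.t⁻¹
      a0 := (p.r0 + s * (1 - p.r0)) * ((p.w + s * (1 - p.w)) - (p.h1 + s * (-p.h1))) *
        (p.q0 * p.t⁻¹)
      b0 := (p.r0 + s * (1 - p.r0)) * (p.q0 + (p.w + s * (1 - p.w)) * p.u0) * p.t⁻¹ } with hP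
  have hp : PPoly P := by
    refine ⟨D7.IsPoly.const _, D7.IsPoly.const _, D7.IsPoly.const _, isPoly_lin _ _,
      D7.IsPoly.const _, D7.IsPoly.const _, D7.IsPoly.const _, D7.IsPoly.const _,
      D7.IsPoly.const _, D7.IsPoly.const _, D7.IsPoly.const _,
      isPoly_lin _ _, isPoly_lin _ _, D7.IsPoly.const _, ?_, D7.IsPoly.const _,
      ?_, D7.IsPoly.const _, ?_⟩
    · exact ((isPoly_lin _ _).mul ((isPoly_lin _ _).sub (isPoly_lin _ _))).mul (D7.IsPoly.const _)
    · exact ((isPoly_lin _ _).mul ((D7.IsPoly.const _).add ((isPoly_lin _ _).mul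
        (D7.IsPoly.const _)))).mul (D7.IsPoly.const _)
    · exact (((isPoly_lin _ _).mul ((isPoly_lin _ _).mul
        ((isPoly_lin _ _).sub (isPoly_lin _ _))))).mul (D7.IsPoly.const _)
  have h0 : P 0 = p := by
    simp only [dt, hg] at hd
    rw [hg] at ra
    simp only [hP, zero_mul, add_zero]
    ext <;> simp only
    · exact hg.symm
    · field_simp
      linear_combination -ra
    · field_simp
      linear_combination -rb
    · field_simp
      linear_combination -hd
  have hRs : ∀ s, Rel (P s) := by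
    intro s
    constructor <;> simp only [hP]
    · field_simp
      ring
    · field_simp
      ring
    · field_simp
      ring
    · field_simp
      ring
  have hds : ∀ s, dt (P s) = 0 := by
    intro s
    simp only [hP, dt]
    field_simp
    ring
  have f1 := ((((isPoly_lin p.r0 (1 - p.r0)).mul ((isPoly_lin p.w (1 - p.w)).mul
    ((isPoly_lin p.w (1 - p.w)).sub (isPoly_lin p.h1 (-p.h1)))))).mul
    (D7.IsPoly.const p.t⁻¹)).finite (s₁ := 1) (by simp [ht])
  have h1 := cl_fam hp f1 (fun s hs => by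
    simp only [Set.mem_ofPred_eq] at hs
    exact cl_c (hRs s) (hds s) hs)
  rwa [h0] at h1

/-- `t ≠ 0`, determinant zero -/
theorem cl_t [IsAlgClosed k] {p : Par k} (hR : Rel p) (hd : dt p = 0) (ht : p.t ≠ 0) :
    Cl (T p) := by
  obtain ⟨a, ha⟩ := exists_root p
  exact cl_sh (cl_t0 (rel_sh hR a) ha (by rw [dt_sh, hd]) ht)

/-- determinant zero -/
theorem cl_dt [IsAlgClosed k] {p : Par k} (hR : Rel p) (hd : dt p = 0) : Cl (T p) := by
  by_cases ht : p.t = 0
  swap
  · exact cl_t hR hd ht
  by_cases hc : p.c = 0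
  swap
  · exact cl_c hR hd hc
  obtain ⟨ra, rb, rc, rd⟩ := hR
  simp only [dt, ht, hc, zero_mul, mul_zero, zero_sub, neg_eq_zero] at hd
  rw [ht] at ra rb
  rw [hc] at rc rd
  by_cases hr : p.r0 = 0
  · by_cases hb : p.b0 = 0
    · -- move t
      set P : k → Par k := fun s => { p with t := s } with hP
      have hp : PPoly P :=
        ⟨D7.IsPoly.const _, D7.IsPoly.const _, D7.IsPoly.const _, D7.IsPoly.const _,
          D7.IsPoly.const _, D7.IsPoly.const _, D7.IsPoly.id, D7.IsPoly.const _,
          D7.IsPoly.const _, D7.IsPoly.const _, D7.IsPoly.const _, D7.IsPoly.const _,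
          D7.IsPoly.const _, D7.IsPoly.const _, D7.IsPoly.const _, D7.IsPoly.const _,
          D7.IsPoly.const _, D7.IsPoly.const _, D7.IsPoly.const _⟩
      have h0 : P 0 = p := by
        simp only [hP]
        ext <;> simp only
        exact ht.symm
      have ha : p.a0 = 0 := by
        rw [rd, hb]
        ring
      have h1 := cl_fam hp (Set.finite_singleton 0) (fun s hs => by
        refine cl_t ?_ ?_ (fun h => hs h)
        · constructor <;> simp only [hP, hr, ha, hb, hc] <;> ring
        · simp only [hP, dt, hr, hc]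
          ring)
      rwa [h0] at h1
    · set P : k → Par k := fun s => { p with
        c := s
        a0 := p.a0 + s * (-p.u0)
        g1 := p.g1 + s * (-((p.q0 + p.w * p.u0) * p.b0⁻¹)) } with hP
      have hp : PPoly P :=
        ⟨isPoly_lin _ _, D7.IsPoly.const _, D7.IsPoly.const _, D7.IsPoly.const _,
          D7.IsPoly.const _, D7.IsPoly.const _, D7.IsPoly.const _, D7.IsPoly.const _,
          D7.IsPoly.const _, D7.IsPoly.const _, D7.IsPoly.const _, D7.IsPoly.const _,
          D7.IsPoly.const _, D7.IsPoly.const _, isPoly_lin _ _, D7.IsPoly.const _,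
          D7.IsPoly.const _, D7.IsPoly.const _, D7.IsPoly.id⟩
      have h0 : P 0 = p := by
        simp only [hP, zero_mul, add_zero]
        ext <;> simp only
        exact hc.symm
      have h1 := cl_fam hp (Set.finite_singleton 0) (fun s hs => by
        refine cl_c ?_ ?_ (fun h => hs h)
        · constructor <;> simp only [hP, hr, ht]
          · ring
          · ring
          · field_simp
            linear_combination rc
          · linear_combination rd
        · simp only [hP, dt, hr, ht]
          ring)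
      rwa [h0] at h1
  · have hχ : p.w * p.w - p.h1 * p.w - p.g1 = 0 := by
      rcases mul_eq_zero.1 hd with h | h
      · exact absurd h hr
      · exact h
    have hq : p.q0 = -(p.w * p.u0) := by
      have h1 : p.r0 * (p.w * p.u0 + p.q0) = 0 := by rw [← rb]; ring
      rcases mul_eq_zero.1 h1 with h | h
      · exact absurd h hr
      · linear_combination h
    set P : k → Par k := fun s => { p with
      t := p.r0 * s
      c := s
      q0 := p.q0 + s * p.b0
      a0 := p.a0 + s * (-p.u0)
      g1 := p.g1 + s * s * (-1) } with hP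
    have hp : PPoly P :=
      ⟨(D7.IsPoly.const _).add ((D7.IsPoly.id.mul D7.IsPoly.id).mul (D7.IsPoly.const _)),
        D7.IsPoly.const _, D7.IsPoly.const _, D7.IsPoly.const _,
        D7.IsPoly.const _, D7.IsPoly.const _, (D7.IsPoly.const _).mul D7.IsPoly.id,
        isPoly_lin _ _, D7.IsPoly.const _, D7.IsPoly.const _, D7.IsPoly.const _,
        D7.IsPoly.const _, D7.IsPoly.const _, D7.IsPoly.const _, isPoly_lin _ _,
        D7.IsPoly.const _, D7.IsPoly.const _, D7.IsPoly.const _, D7.IsPoly.id⟩
    have h0 : P 0 = p := by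
      simp only [hP, zero_mul, add_zero, mul_zero]
      ext <;> simp only
      · exact ht.symm
      · exact hc.symm
    have h1 := cl_fam hp (Set.finite_singleton 0) (fun s hs => by
      refine cl_c ?_ ?_ (fun h => hs h)
      · constructor <;> simp only [hP]
        · linear_combination (p.r0 * (p.h1 - p.w)) * hq + p.r0 * p.u0 * hχ + p.r0 * s * rd
        · linear_combination (-p.r0) * hq
        · linear_combination rc - s * hq
        · linear_combination rd
      · simp only [hP, dt]
        linear_combination -p.r0 * hχ)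
    rwa [h0] at h1

/-- determinant not zero -/
theorem zero_of_dt {p : Par k} (hR : Rel p) (hd : dt p ≠ 0) :
    p.q0 = 0 ∧ p.u0 = 0 ∧ p.a0 = 0 ∧ p.b0 = 0 := by
  obtain ⟨ra, rb, rc, rd⟩ := hR
  have key : ∀ x, dt p * x = 0 → x = 0 := fun x hx => (mul_eq_zero.1 hx).resolve_left hd
  refine ⟨key _ ?_, key _ ?_, key _ ?_, key _ ?_⟩ <;> simp only [dt]
  · linear_combination (-p.t) * rc + p.w * ra - p.g1 * rb
  · linear_combination p.t * rd + (p.w - p.h1) * rb - ra
  · linear_combination p.c * ra - p.r0 * (p.w - p.h1) * rc + p.r0 * p.g1 * rd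
  · linear_combination p.c * rb + p.r0 * p.w * rd - p.r0 * rc

end Pool.Agent.Lib.D13.I542
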