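import Pool.Agent.Lib.D13.I542M

/-!
# MP_5dcbc3_ag: type (5, 4, 2): the raise of the modules with `q0 = u0 = q0' = u0' = 0`

The family: `x ^ 5 e1 = σ x ^ 3 e2`.
-/

namespace Pool.Agent.Lib.D13.I542

open Matrix Pool.Agent.Lib.Q5dc Pool.Agent.Lib.D7

variable {k : Type*} [Field k]

/-- `x` -/
def RA (σ : k) : Matrix (Fin 11) (Fin 11) k :=
  !![0, 0, 0, 0, 0, 0, 0, 0, 0, 0, 0;
     1, 0, 0, 0, 0, 0, 0, 0, 0, 0, 0;
     0, 1, 0, 0, 0, 0, 0, 0, 0, 0, 0;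
     0, 0, 1, 0, 0, 0, 0, 0, 0, 0, 0;
     0, 0, 0, 1, 0, 0, 0, 0, 0, 0, 0;
     0, 0, 0, 0, 0, 0, 0, 0, 0, 0, 0;
     0, 0, 0, 0, 0, 1, 0, 0, 0, 0, 0;
     0, 0, 0, 0, 0, 0, 1, 0, 0, 0, 0;
     0, 0, 0, 0, σ, 0, 0, 1, 0, 0, 0;
     0, 0, 0, 0, 0, 0, 0, 0, 0, 0, 0;
     0, 0, 0, 0, 0, 0, 0, 0, 0, 1, 0]

/-- `y` -/
def RB (p : Par k) (σ β : k) : Matrix (Fin 11) (Fin 11) k :=
  !![0, 0, 0, 0, 0, 0, 0, 0, 0, 0, 0;
     0, 0, 0, 0, 0, 0, 0, 0, 0, 0, 0;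
     0, 0, 0, 0, 0, 0, 0, 0, 0, 0, 0;
     0, 0, 0, 0, 0, p.g2, 0, 0, 0, 0, 0;
     0, 0, 0, 0, 0, p.g3, p.g2, 0, 0, p.q1, 0;
     1, 0, 0, 0, 0, 0, 0, 0, 0, 0, 0;
     0, 1, 0, 0, 0, p.h1, 0, 0, 0, 0, 0;
     0, 0, 1, 0, 0, p.h2, p.h1, 0, 0, β, 0;
     0, 0, 0, 1, 0, p.h3, p.h2 + σ * p.g3, p.h1 + σ * p.g2, 0, p.u1, σ * p.q1 + β;
     0, 0, 0, 0, 0, 0, 0, 0, 0, 0, 0;
     0, 0, 0, 0, 0, p.t, 0, 0, 0, p.w, 0]

/-- `z` -/
def RC (p : Par k) (σ β γ : k) : Matrix (Fin 11) (Fin 11) k :=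
  !![0, 0, 0, 0, 0, 0, 0, 0, 0, 0, 0;
     0, 0, 0, 0, 0, 0, 0, 0, 0, 0, 0;
     0, 0, 0, 0, 0, 0, 0, 0, 0, 0, 0;
     0, 0, 0, 0, 0, 0, 0, 0, 0, 0, 0;
     0, 0, 0, 0, 0, p.r0 * p.q1, 0, 0, 0, p.a1, 0;
     0, 0, 0, 0, 0, 0, 0, 0, 0, 0, 0;
     0, 0, 0, 0, 0, 0, 0, 0, 0, 0, 0;
     0, 0, 0, 0, 0, p.r0 * β, 0, 0, 0, γ, 0;
     0, 0, 0, 0, 0, p.r0 * p.u1 + p.r1 * (σ * p.q1 + β), p.r0 * (σ * p.q1 + β), 0, 0, p.b1,
       σ * p.a1 + γ;
     p.r0, 0, 0, 0, 0, 0, 0, 0, 0, 0, 0;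
     p.r1, p.r0, 0, 0, 0, p.r0 * p.w, 0, 0, 0, p.c, 0]

/-- `RA` on vectors -/
def actA (σ : k) (m : Fin 11 → k) : Fin 11 → k :=
  ![0, m 0, m 1, m 2, m 3, 0, m 5, m 6, m 7 + σ * m 4, 0, m 9]

/-- `RB` on vectors -/
def actB (p : Par k) (σ β : k) (m : Fin 11 → k) : Fin 11 → k :=
  ![0, 0, 0, p.g2 * m 5, p.g3 * m 5 + p.g2 * m 6 + p.q1 * m 9,
    m 0, m 1 + p.h1 * m 5, m 2 + p.h2 * m 5 + p.h1 * m 6 + β * m 9,
    m 3 + p.h3 * m 5 + (p.h2 + σ * p.g3) * m 6 + (p.h1 + σ * p.g2) * m 7 + p.u1 * m 9 +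
      (σ * p.q1 + β) * m 10,
    0, p.t * m 5 + p.w * m 9]

/-- `RC` on vectors -/
def actC (p : Par k) (σ β γ : k) (m : Fin 11 → k) : Fin 11 → k :=
  ![0, 0, 0, 0, p.r0 * p.q1 * m 5 + p.a1 * m 9,
    0, 0, p.r0 * β * m 5 + γ * m 9,
    (p.r0 * p.u1 + p.r1 * (σ * p.q1 + β)) * m 5 + p.r0 * (σ * p.q1 + β) * m 6 + p.b1 * m 9 +
      (σ * p.a1 + γ) * m 10,
    p.r0 * m 0, p.r1 * m 0 + p.r0 * m 1 + p.r0 * p.w * m 5 + p.c * m 9]

theorem RA_mulVec (σ : k) (m : Fin 11 → k) : RA σ *ᵥ m = actA σ m := by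
  funext i
  fin_cases i <;> simp [RA, actA, Matrix.mulVec, dotProduct, Fin.sum_univ_succ] <;> ring

theorem RB_mulVec (p : Par k) (σ β : k) (m : Fin 11 → k) : RB p σ β *ᵥ m = actB p σ β m := by
  funext i
  fin_cases i <;> simp [RB, actB, Matrix.mulVec, dotProduct, Fin.sum_univ_succ] <;> ring

theorem RC_mulVec (p : Par k) (σ β γ : k) (m : Fin 11 → k) :
    RC p σ β γ *ᵥ m = actC p σ β γ m := by
  funext i
  fin_cases i <;> simp [RC, actC, Matrix.mulVec, dotProduct, Fin.sum_univ_succ] <;> ring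

/-- the two equations -/
structure RR (p : Par k) (σ β γ : k) : Prop where
  e1 : p.r0 * (p.w + σ * p.g2) * β - p.t * γ = σ * (p.t * p.a1 + p.r0 * (p.h1 - p.w) * p.q1)
  e2 : p.c * β + (p.h1 - p.w + σ * p.g2) * γ = σ * (p.w * p.a1 - p.c * p.q1)

theorem comm_AB (p : Par k) (σ β : k) : RA σ * RB p σ β = RB p σ β * RA σ := by
  refine ext_mulVec fun m => ?_
  rw [← mulVec_mulVec, ← mulVec_mulVec, RB_mulVec, RB_mulVec, RA_mulVec, RA_mulVec]
  funext i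
  fin_cases i <;> simp [actA, actB]
  all_goals ring

theorem comm_AC (p : Par k) (σ β γ : k) : RA σ * RC p σ β γ = RC p σ β γ * RA σ := by
  refine ext_mulVec fun m => ?_
  rw [← mulVec_mulVec, ← mulVec_mulVec, RC_mulVec, RC_mulVec, RA_mulVec, RA_mulVec]
  funext i
  fin_cases i <;> simp [actA, actC]
  all_goals ring

theorem comm_BC {p : Par k} {σ β γ : k} (h : RR p σ β γ) :
    RB p σ β * RC p σ β γ = RC p σ β γ * RB p σ β := by
  obtain ⟨e1, e2⟩ := h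
  refine ext_mulVec fun m => ?_
  rw [← mulVec_mulVec, ← mulVec_mulVec, RC_mulVec, RC_mulVec, RB_mulVec, RB_mulVec]
  funext i
  fin_cases i <;> simp [actB, actC]
  all_goals try ring1
  linear_combination m 5 * e1 + m 9 * e2

/-- weights -/
def wr : Fin 11 → ℕ := ![0, 2, 4, 6, 8, 1, 3, 5, 9, 1, 3]

theorem RA_nil (σ : k) : IsNilpotent (RA σ) := by
  refine isNilpotent_of_weight _ wr fun i j hij => ?_
  revert hij
  fin_cases i <;> fin_cases j <;> simp [wr, RA]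

theorem RB_nil (p : Par k) (σ β : k) : IsNilpotent (RB p σ β) := by
  refine isNilpotent_of_weight _ wr fun i j hij => ?_
  revert hij
  fin_cases i <;> fin_cases j <;> simp [wr, RB]

theorem RC_nil (p : Par k) (σ β γ : k) : IsNilpotent (RC p σ β γ) := by
  refine isNilpotent_of_weight _ wr fun i j hij => ?_
  revert hij
  fin_cases i <;> fin_cases j <;> simp [wr, RC]

/-- the determinant of the two equations -/
def D (p : Par k) (σ : k) : k :=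
  p.r0 * (p.w + σ * p.g2) * (p.h1 - p.w + σ * p.g2) + p.t * p.c

/-- `β` -/
def be (p : Par k) (σ : k) : k :=
  σ * ((p.h1 - p.w + σ * p.g2) * (p.t * p.a1 + p.r0 * (p.h1 - p.w) * p.q1) +
    p.t * (p.w * p.a1 - p.c * p.q1)) * (D p 0)⁻¹

/-- `γ` -/
def ga (p : Par k) (σ : k) : k :=
  σ * (p.r0 * (p.w + σ * p.g2) * (p.w * p.a1 - p.c * p.q1) -
    p.c * (p.t * p.a1 + p.r0 * (p.h1 - p.w) * p.q1)) * (D p 0)⁻¹

/-- the parameters of the family -/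
def pp (p : Par k) (σ : k) : Par k :=
  { p with
    q1 := D p σ * (D p 0)⁻¹ * p.q1
    a1 := D p σ * (D p 0)⁻¹ * p.a1 }

theorem rr (p : Par k) (σ : k) : RR (pp p σ) σ (be p σ) (ga p σ) := by
  constructor
  · show p.r0 * (p.w + σ * p.g2) * be p σ - p.t * ga p σ =
      σ * (p.t * (D p σ * (D p 0)⁻¹ * p.a1) + p.r0 * (p.h1 - p.w) * (D p σ * (D p 0)⁻¹ * p.q1))
    simp only [be, ga]
    generalize (D p 0)⁻¹ = d
    simp only [D]
    ring
  · show p.c * be p σ + (p.h1 - p.w + σ * p.g2) * ga p σ =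
      σ * (p.w * (D p σ * (D p 0)⁻¹ * p.a1) - p.c * (D p σ * (D p 0)⁻¹ * p.q1))
    simp only [be, ga]
    generalize (D p 0)⁻¹ = d
    simp only [D]
    ring

/-- the family -/
def TR (p : Par k) (σ : k) : Fin 3 → Matrix (Fin 11) (Fin 11) k :=
  ![RA σ, RB (pp p σ) σ (be p σ), RC (pp p σ) σ (be p σ) (ga p σ)]

theorem cnR (p : Par k) (σ : k) : CN (TR p σ) :=
  D8.cn3 (comm_AB _ _ _) (comm_AC _ _ _ _) (comm_BC (rr p σ)) (RA_nil σ) (RB_nil _ _ _)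
    (RC_nil _ _ _ _)

theorem pp0 {p : Par k} (hD : D p 0 ≠ 0) : pp p 0 = p := by
  unfold pp
  rw [mul_inv_cancel₀ hD, one_mul, one_mul]

theorem be0 (p : Par k) : be p 0 = 0 := by
  unfold be
  rw [zero_mul, zero_mul]

theorem ga0 (p : Par k) : ga p 0 = 0 := by
  unfold ga
  rw [zero_mul, zero_mul]

theorem RA0 : RA (0 : k) = J k := by
  refine ext_mulVec fun m => ?_
  rw [RA_mulVec, J_mulVec]
  funext i
  fin_cases i <;> simp [actA, actJ]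

theorem RB0 {p : Par k} (hg : p.g1 = 0) (hq : p.q0 = 0) (hu : p.u0 = 0) : RB p 0 0 = Y p := by
  refine ext_mulVec fun m => ?_
  rw [RB_mulVec, Y_mulVec]
  funext i
  fin_cases i <;> simp [actB, actY, hg, hq, hu]

theorem RC0 {p : Par k} (hq : p.q0 = 0) (hu : p.u0 = 0) (ha : p.a0 = 0) (hb : p.b0 = 0) :
    RC p 0 0 0 = Z p := by
  refine ext_mulVec fun m => ?_
  rw [RC_mulVec, Z_mulVec]
  funext i
  fin_cases i <;> simp [actC, actZ, hq, hu, ha, hb]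

theorem TR0 {p : Par k} (hD : D p 0 ≠ 0) (hg : p.g1 = 0) (hq : p.q0 = 0) (hu : p.u0 = 0)
    (ha : p.a0 = 0) (hb : p.b0 = 0) : TR p 0 = T p := by
  unfold TR T
  rw [pp0 hD, be0, ga0, RA0, RB0 hg hq hu, RC0 hq hu ha hb]

theorem entA (σ : k) (i j : Fin 11) : RA σ i j = actA σ (Pi.single j 1) i := by
  rw [← RA_mulVec, Matrix.mulVec_single_one]
  rfl

theorem entB (p : Par k) (σ β : k) (i j : Fin 11) :
    RB p σ β i j = actB p σ β (Pi.single j 1) i := by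
  rw [← RB_mulVec, Matrix.mulVec_single_one]
  rfl

theorem entC (p : Par k) (σ β γ : k) (i j : Fin 11) :
    RC p σ β γ i j = actC p σ β γ (Pi.single j 1) i := by
  rw [← RC_mulVec, Matrix.mulVec_single_one]
  rfl

theorem polyD (p : Par k) : D7.IsPoly fun s => D p s := by
  have c : ∀ a : k, D7.IsPoly fun _ : k => a := D7.IsPoly.const
  have i : D7.IsPoly fun s : k => s := D7.IsPoly.id
  show D7.IsPoly fun s => p.r0 * (p.w + s * p.g2) * (p.h1 - p.w + s * p.g2) + p.t * p.c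
  exact (((c _).mul ((c _).add (i.mul (c _)))).mul ((c _).add (i.mul (c _)))).add (c _)

theorem polyBe (p : Par k) : D7.IsPoly fun s => be p s := by
  have c : ∀ a : k, D7.IsPoly fun _ : k => a := D7.IsPoly.const
  have i : D7.IsPoly fun s : k => s := D7.IsPoly.id
  show D7.IsPoly fun s => s * ((p.h1 - p.w + s * p.g2) *
    (p.t * p.a1 + p.r0 * (p.h1 - p.w) * p.q1) + p.t * (p.w * p.a1 - p.c * p.q1)) * (D p 0)⁻¹
  exact (i.mul ((((c _).add (i.mul (c _))).mul (c _)).add (c _))).mul (c _)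

theorem polyGa (p : Par k) : D7.IsPoly fun s => ga p s := by
  have c : ∀ a : k, D7.IsPoly fun _ : k => a := D7.IsPoly.const
  have i : D7.IsPoly fun s : k => s := D7.IsPoly.id
  show D7.IsPoly fun s => s * (p.r0 * (p.w + s * p.g2) * (p.w * p.a1 - p.c * p.q1) -
    p.c * (p.t * p.a1 + p.r0 * (p.h1 - p.w) * p.q1)) * (D p 0)⁻¹
  exact (i.mul ((((c _).mul ((c _).add (i.mul (c _)))).mul (c _)).sub (c _))).mul (c _)

theorem polyRA (x : Fin 11) (m : Fin 11 → k) : D7.IsPoly fun s => actA s m x := by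
  have c : ∀ a : k, D7.IsPoly fun _ : k => a := D7.IsPoly.const
  have i : D7.IsPoly fun s : k => s := D7.IsPoly.id
  fin_cases x
  · exact c 0
  · exact c (m 0)
  · exact c (m 1)
  · exact c (m 2)
  · exact c (m 3)
  · exact c 0
  · exact c (m 5)
  · exact c (m 6)
  · exact (c (m 7)).add (i.mul (c (m 4)))
  · exact c 0
  · exact c (m 9)

theorem polyRB (p : Par k) (x : Fin 11) (m : Fin 11 → k) :
    D7.IsPoly fun s => actB (pp p s) s (be p s) m x := by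
  have c : ∀ a : k, D7.IsPoly fun _ : k => a := D7.IsPoly.const
  have i : D7.IsPoly fun s : k => s := D7.IsPoly.id
  have hq : D7.IsPoly fun s => D p s * (D p 0)⁻¹ * p.q1 := ((polyD p).mul (c _)).mul (c _)
  fin_cases x
  · exact c 0
  · exact c 0
  · exact c 0
  · exact c (p.g2 * m 5)
  · exact (c (p.g3 * m 5 + p.g2 * m 6)).add (hq.mul (c (m 9)))
  · exact c (m 0)
  · exact c (m 1 + p.h1 * m 5)
  · exact (c (m 2 + p.h2 * m 5 + p.h1 * m 6)).add ((polyBe p).mul (c (m 9)))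
  · exact (((((c (m 3 + p.h3 * m 5)).add (((c p.h2).add (i.mul (c p.g3))).mul (c (m 6)))).add
      (((c p.h1).add (i.mul (c p.g2))).mul (c (m 7)))).add (c (p.u1 * m 9))).add
      (((i.mul hq).add (polyBe p)).mul (c (m 10))))
  · exact c 0
  · exact c (p.t * m 5 + p.w * m 9)

theorem polyRC (p : Par k) (x : Fin 11) (m : Fin 11 → k) :
    D7.IsPoly fun s => actC (pp p s) s (be p s) (ga p s) m x := by
  have c : ∀ a : k, D7.IsPoly fun _ : k => a := D7.IsPoly.const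
  have i : D7.IsPoly fun s : k => s := D7.IsPoly.id
  have hq : D7.IsPoly fun s => D p s * (D p 0)⁻¹ * p.q1 := ((polyD p).mul (c _)).mul (c _)
  have ha : D7.IsPoly fun s => D p s * (D p 0)⁻¹ * p.a1 := ((polyD p).mul (c _)).mul (c _)
  fin_cases x
  · exact c 0
  · exact c 0
  · exact c 0
  · exact c 0
  · exact (((c p.r0).mul hq).mul (c (m 5))).add (ha.mul (c (m 9)))
  · exact c 0
  · exact c 0
  · exact (((c p.r0).mul (polyBe p)).mul (c (m 5))).add ((polyGa p).mul (c (m 9)))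
  · exact (((((c (p.r0 * p.u1)).add ((c p.r1).mul ((i.mul hq).add (polyBe p)))).mul
      (c (m 5))).add (((c p.r0).mul ((i.mul hq).add (polyBe p))).mul (c (m 6)))).add
      (c (p.b1 * m 9))).add (((i.mul ha).add (polyGa p)).mul (c (m 10)))
  · exact c (p.r0 * m 0)
  · exact c (p.r1 * m 0 + p.r0 * m 1 + p.r0 * p.w * m 5 + p.c * m 9)

theorem polyFamR (p : Par k) : PolyFam (TR p) := by
  intro l x y
  fin_cases l
  · show D7.IsPoly fun s => RA s x y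
    simp only [entA]
    exact polyRA x _
  · show D7.IsPoly fun s => RB (pp p s) s (be p s) x y
    simp only [entB]
    exact polyRB p x _
  · show D7.IsPoly fun s => RC (pp p s) s (be p s) (ga p s) x y
    simp only [entC]
    exact polyRC p x _

theorem RA5 {σ : k} (hσ : σ ≠ 0) : RA σ ^ 5 ≠ 0 := by
  intro h
  have h1 : RA σ ^ 5 *ᵥ v0 k = 0 := by rw [h, zero_mulVec]
  have e : RA σ ^ 5 *ᵥ v0 k = ![0, 0, 0, 0, 0, 0, 0, 0, σ, 0, 0] := by
    have e5 : RA σ ^ 5 = RA σ * (RA σ * (RA σ * (RA σ * RA σ))) := by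
      simp only [pow_succ, pow_zero, one_mul, mul_assoc]
    rw [e5]
    simp only [← mulVec_mulVec, RA_mulVec]
    funext i
    fin_cases i <;> simp [actA, v0]
  rw [e] at h1
  exact hσ (by simpa using congrFun h1 8)

/-- no maximal triple of this kind -/
theorem no_u2 [Infinite k] {ρ : ℕ → ℕ} {p : Par k} (hT : MaxR ρ (T p)) (h5 : ρ 5 = 0)
    (hD : D p 0 ≠ 0) (hg : p.g1 = 0) (hq : p.q0 = 0) (hu : p.u0 = 0)
    (ha : p.a0 = 0) (hb : p.b0 = 0) : False := by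
  obtain ⟨E, hE, h1⟩ := hT.deform (TR p) (polyFamR p) (TR0 hD hg hq hu ha hb) Set.finite_empty
    (fun s _ => cnR p s)
  obtain ⟨s, hs⟩ := (hE.union (Set.finite_singleton 0)).exists_notMem
  simp only [Set.mem_union, not_or, Set.mem_singleton_iff] at hs
  exact RA5 hs.2 ((h1 s hs.1).pow_eq_zero (mem_adj (TR p s) 0) h5)

end Pool.Agent.Lib.D13.I542
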