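import Pool.Agent.Lib.D13.PBdual

/-!
# MP_5dcbc3_ag: nilpotent matrices with Jordan blocks of sizes `b + d`, `b`, `2` (`b ≥ 4`)

The matrices commuting with them, as matrices of polynomials. The columns of `Mz` are the images of the
generators: `e1 ↦ f e2 + r e3`, `e2 ↦ X^d g e1 + h e2 + t e3`,
`e3 ↦ X^(b+d-2) q e1 + X^(b-2) u e2 + w e3`.
-/

namespace Pool.Agent.Lib.D13

open Matrix Polynomial Pool.Agent.Lib.Q5dc Pool.Agent.Lib.D7 Pool.Agent.Lib.D8

namespace PB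

variable {k : Type*} [Field k] {N : ℕ}

/-- the matrix of polynomials -/
noncomputable def Mz (b d : ℕ) (f g h r t q u w : k[X]) : Matrix (Fin 3) (Fin 3) k[X] :=
  !![0, X ^ d * g, X ^ (b + d - 2) * q;
     f, h, X ^ (b - 2) * u;
     r, t, w]

/-- the conditions for two such matrices to commute -/
structure RelZ (b d : ℕ) (f g h r t q u w f' g' h' r' t' q' u' w' : k[X]) : Prop where
  e11 : X ^ b ∣ (f * g' - f' * g) + X ^ (b - 2) * (r * q' - r' * q)
  e12 : X ^ b ∣ (h * g' - h' * g) + X ^ (b - 2) * (t * q' - t' * q)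
  e21 : X ^ b ∣ (f * h' - f' * h) + X ^ (b - 2) * (r * u' - r' * u)
  e22 : X ^ b ∣ X ^ d * (f * g' - f' * g) + X ^ (b - 2) * (u * t' - u' * t)
  e31 : X ^ 2 ∣ (f * t' - f' * t) + (r * w' - r' * w)
  e13 : X ^ 2 ∣ (g * u' - g' * u) + (q * w' - q' * w)
  e32 : X ^ 2 ∣ X ^ d * (r * g' - r' * g) + (t * h' - t' * h) + (w * t' - w' * t)
  e23 : X ^ 2 ∣ X ^ d * (f * q' - f' * q) + (h * u' - h' * u) + (u * w' - u' * w)

variable {A : Matrix (Fin N) (Fin N) k} {v : Fin 3 → Fin N → k} {b d : ℕ}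

/-- blocks of sizes `b + d`, `b`, `2` -/
abbrev Bz (A : Matrix (Fin N) (Fin N) k) (v : Fin 3 → Fin N → k) (b d : ℕ) : Prop :=
  BlkB A v ![b + d, b, 2]

theorem pow_dvd_mul_left {e e' : ℕ} {p : k[X]} : (X : k[X]) ^ (e + e') ∣ X ^ e * p ↔ X ^ e' ∣ p := by
  rw [pow_add, mul_dvd_mul_iff_left (pow_ne_zero e X_ne_zero)]

theorem pow_dvd_mul_left' {e e' m : ℕ} (hm : m = e + e') {p : k[X]} :
    (X : k[X]) ^ m ∣ X ^ e * p ↔ X ^ e' ∣ p := by
  rw [hm, pow_dvd_mul_left]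

theorem admz_iff (P : Matrix (Fin 3) (Fin 3) k[X]) (hb : 2 ≤ b) :
    Adm ![b + d, b, 2] P ↔ X ^ d ∣ P 0 1 ∧ X ^ (b + d - 2) ∣ P 0 2 ∧ X ^ (b - 2) ∣ P 1 2 := by
  constructor
  · intro h
    refine ⟨?_, ?_, ?_⟩
    · have h1 : X ^ (b + d) ∣ X ^ b * P 0 1 := h 0 1
      rwa [pow_dvd_mul_left] at h1
    · have h1 : X ^ (b + d) ∣ X ^ 2 * P 0 2 := h 0 2
      rwa [pow_dvd_mul_left' (e' := b + d - 2) (by omega)] at h1
    · have h1 : X ^ b ∣ X ^ 2 * P 1 2 := h 1 2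
      rwa [pow_dvd_mul_left' (e' := b - 2) (by omega)] at h1
  · rintro ⟨h01, h02, h12⟩ i j
    have hle : ∀ e e' : ℕ, e ≤ e' → ∀ p : k[X], X ^ e ∣ X ^ e' * p := fun e e' he p =>
      (pow_dvd_pow X he).mul_right p
    fin_cases i <;> fin_cases j
    · exact hle _ _ le_rfl _
    · show X ^ (b + d) ∣ X ^ b * P 0 1
      rwa [pow_dvd_mul_left]
    · show X ^ (b + d) ∣ X ^ 2 * P 0 2
      rwa [pow_dvd_mul_left' (e' := b + d - 2) (by omega)]
    · exact hle _ _ (by simp) _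
    · exact hle _ _ le_rfl _
    · show X ^ b ∣ X ^ 2 * P 1 2
      rwa [pow_dvd_mul_left' (e' := b - 2) (by omega)]
    · exact hle _ _ (show 2 ≤ b + d by omega) _
    · exact hle _ _ (show 2 ≤ b from hb) _
    · exact hle _ _ le_rfl _

theorem adm_mz (hb : 2 ≤ b) (f g h r t q u w : k[X]) :
    Adm ![b + d, b, 2] (Mz b d f g h r t q u w) := by
  rw [admz_iff _ hb]
  exact ⟨Dvd.intro _ rfl, Dvd.intro _ rfl, Dvd.intro _ rfl⟩

theorem exists_mz (hA : Bz A v b d) (hb : 2 ≤ b) (f g h r t q u w : k[X]) :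
    ∃ B, Rep A v B (Mz b d f g h r t q u w) :=
  exists_of_rep hA _ (adm_mz hb _ _ _ _ _ _ _ _)

theorem kerz_iff (P : Matrix (Fin 3) (Fin 3) k[X]) :
    Ker ![b + d, b, 2] P ↔ (X ^ (b + d) ∣ P 0 0 ∧ X ^ (b + d) ∣ P 0 1 ∧ X ^ (b + d) ∣ P 0 2) ∧
      (X ^ b ∣ P 1 0 ∧ X ^ b ∣ P 1 1 ∧ X ^ b ∣ P 1 2) ∧
      (X ^ 2 ∣ P 2 0 ∧ X ^ 2 ∣ P 2 1 ∧ X ^ 2 ∣ P 2 2) := by
  constructor
  · intro h
    exact ⟨⟨h 0 0, h 0 1, h 0 2⟩, ⟨h 1 0, h 1 1, h 1 2⟩, h 2 0, h 2 1, h 2 2⟩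
  · rintro ⟨⟨h00, h01, h02⟩, ⟨h10, h11, h12⟩, h20, h21, h22⟩ i j
    fin_cases i <;> fin_cases j
    · exact h00
    · exact h01
    · exact h02
    · exact h10
    · exact h11
    · exact h12
    · exact h20
    · exact h21
    · exact h22

/-- two matrices of this form commute if and only if the relations hold -/
theorem comm_mz (hA : Bz A v b d) (hb : 4 ≤ b) {B C' : Matrix (Fin N) (Fin N) k}
    {f g h r t q u w f' g' h' r' t' q' u' w' : k[X]}
    (hB : Rep A v B (Mz b d f g h r t q u w)) (hC : Rep A v C' (Mz b d f' g' h' r' t' q' u' w')) :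
    B * C' = C' * B ↔ RelZ b d f g h r t q u w f' g' h' r' t' q' u' w' := by
  rw [comm_iff hA hB hC, kerz_iff]
  obtain ⟨c, rfl⟩ : ∃ c, b = c + 4 := ⟨b - 4, by omega⟩
  have hb1 : c + 4 - 2 = c + 2 := by omega
  have hb2 : c + 4 + d - 2 = d + (c + 2) := by omega
  have e00 : (Mz (c + 4) d f g h r t q u w * Mz (c + 4) d f' g' h' r' t' q' u' w' -
      Mz (c + 4) d f' g' h' r' t' q' u' w' * Mz (c + 4) d f g h r t q u w) 0 0 =
      X ^ d * -((f * g' - f' * g) + X ^ (c + 2) * (r * q' - r' * q)) := by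
    simp only [Mz, hb1, hb2, Matrix.sub_apply, Matrix.mul_apply, Fin.sum_univ_three]
    simp
    ring
  have e01 : (Mz (c + 4) d f g h r t q u w * Mz (c + 4) d f' g' h' r' t' q' u' w' -
      Mz (c + 4) d f' g' h' r' t' q' u' w' * Mz (c + 4) d f g h r t q u w) 0 1 =
      X ^ d * -((h * g' - h' * g) + X ^ (c + 2) * (t * q' - t' * q)) := by
    simp only [Mz, hb1, hb2, Matrix.sub_apply, Matrix.mul_apply, Fin.sum_univ_three]
    simp
    ring
  have e02 : (Mz (c + 4) d f g h r t q u w * Mz (c + 4) d f' g' h' r' t' q' u' w' -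
      Mz (c + 4) d f' g' h' r' t' q' u' w' * Mz (c + 4) d f g h r t q u w) 0 2 =
      X ^ (d + (c + 2)) * ((g * u' - g' * u) + (q * w' - q' * w)) := by
    simp only [Mz, hb1, hb2, Matrix.sub_apply, Matrix.mul_apply, Fin.sum_univ_three]
    simp
    ring
  have e10 : (Mz (c + 4) d f g h r t q u w * Mz (c + 4) d f' g' h' r' t' q' u' w' -
      Mz (c + 4) d f' g' h' r' t' q' u' w' * Mz (c + 4) d f g h r t q u w) 1 0 =
      -((f * h' - f' * h) + X ^ (c + 2) * (r * u' - r' * u)) := by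
    simp only [Mz, hb1, hb2, Matrix.sub_apply, Matrix.mul_apply, Fin.sum_univ_three]
    simp
    ring
  have e11 : (Mz (c + 4) d f g h r t q u w * Mz (c + 4) d f' g' h' r' t' q' u' w' -
      Mz (c + 4) d f' g' h' r' t' q' u' w' * Mz (c + 4) d f g h r t q u w) 1 1 =
      X ^ d * (f * g' - f' * g) + X ^ (c + 2) * (u * t' - u' * t) := by
    simp only [Mz, hb1, hb2, Matrix.sub_apply, Matrix.mul_apply, Fin.sum_univ_three]
    simp
    ring
  have e12 : (Mz (c + 4) d f g h r t q u w * Mz (c + 4) d f' g' h' r' t' q' u' w' -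
      Mz (c + 4) d f' g' h' r' t' q' u' w' * Mz (c + 4) d f g h r t q u w) 1 2 =
      X ^ (c + 2) * (X ^ d * (f * q' - f' * q) + (h * u' - h' * u) + (u * w' - u' * w)) := by
    simp only [Mz, hb1, hb2, Matrix.sub_apply, Matrix.mul_apply, Fin.sum_univ_three]
    simp
    ring
  have e20 : (Mz (c + 4) d f g h r t q u w * Mz (c + 4) d f' g' h' r' t' q' u' w' -
      Mz (c + 4) d f' g' h' r' t' q' u' w' * Mz (c + 4) d f g h r t q u w) 2 0 =
      -((f * t' - f' * t) + (r * w' - r' * w)) := by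
    simp only [Mz, hb1, hb2, Matrix.sub_apply, Matrix.mul_apply, Fin.sum_univ_three]
    simp
    ring
  have e21 : (Mz (c + 4) d f g h r t q u w * Mz (c + 4) d f' g' h' r' t' q' u' w' -
      Mz (c + 4) d f' g' h' r' t' q' u' w' * Mz (c + 4) d f g h r t q u w) 2 1 =
      X ^ d * (r * g' - r' * g) + (t * h' - t' * h) + (w * t' - w' * t) := by
    simp only [Mz, hb1, hb2, Matrix.sub_apply, Matrix.mul_apply, Fin.sum_univ_three]
    simp
    ring
  have e22 : (Mz (c + 4) d f g h r t q u w * Mz (c + 4) d f' g' h' r' t' q' u' w' -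
      Mz (c + 4) d f' g' h' r' t' q' u' w' * Mz (c + 4) d f g h r t q u w) 2 2 =
      X ^ 2 * (X ^ c * (X ^ d * (r * q' - r' * q) + (t * u' - t' * u))) := by
    simp only [Mz, hb1, hb2, Matrix.sub_apply, Matrix.mul_apply, Fin.sum_univ_three]
    simp
    ring
  rw [e00, e01, e02, e10, e11, e12, e20, e21, e22, pow_dvd_mul_left' (e' := c + 4) (by omega),
    pow_dvd_mul_left' (e' := c + 4) (by omega), pow_dvd_mul_left' (e' := 2) (by omega),
    pow_dvd_mul_left' (e := c + 2) (e' := 2) (by omega), dvd_neg, dvd_neg, dvd_neg, dvd_neg]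
  constructor
  · rintro ⟨⟨h1, h2, h3⟩, ⟨h4, h5, h6⟩, h7, h8, -⟩
    exact ⟨by rw [hb1]; exact h1, by rw [hb1]; exact h2, by rw [hb1]; exact h4,
      by rw [hb1]; exact h5, h7, h3, h8, h6⟩
  · rintro ⟨h1, h2, h4, h5, h7, h3, h8, h6⟩
    rw [hb1] at h1 h2 h4 h5
    exact ⟨⟨h1, h2, h3⟩, ⟨h4, h5, h6⟩, h7, h8, Dvd.intro _ rfl⟩

/-- the constant terms of the entries -/
theorem const_pow {P : Matrix (Fin 3) (Fin 3) k[X]} (e : ℕ) (i j : Fin 3) :
    ((P ^ e) i j).coeff 0 = ((P.map fun p => p.coeff 0) ^ e) i j := by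
  have h : ∀ M : Matrix (Fin 3) (Fin 3) k[X], (M.map fun p => p.coeff 0) =
      (constantCoeff : k[X] →+* k).mapMatrix M := fun M => rfl
  rw [h, ← map_pow]
  rfl

/-- nilpotency, `d ≥ 1` or `f g` without constant term -/
theorem nilp_mz (hA : Bz A v b d) (hb : 3 ≤ b) {B : Matrix (Fin N) (Fin N) k}
    {f g h r t q u w : k[X]} (hh : X ∣ h) (hw : X ∣ w)
    (hfg : d = 0 → f.coeff 0 * g.coeff 0 = 0) (hB : Rep A v B (Mz b d f g h r t q u w)) :
    IsNilpotent B := by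
  refine nilp_const hA hB (e := 3) fun i j => ?_
  rw [X_dvd_iff, const_pow]
  have hh0 : h.coeff 0 = 0 := X_dvd_iff.1 hh
  have hw0 : w.coeff 0 = 0 := X_dvd_iff.1 hw
  have hx : ∀ (e : ℕ) (p : k[X]), e ≠ 0 → (X ^ e * p).coeff 0 = 0 := fun e p he => by
    rw [mul_coeff_zero, coeff_X_pow, if_neg (fun h => he h.symm), zero_mul]
  have hM : ((Mz b d f g h r t q u w).map fun p => p.coeff 0) =
      !![0, (X ^ d * g).coeff 0, 0; f.coeff 0, 0, 0; r.coeff 0, t.coeff 0, 0] := by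
    ext i j
    fin_cases i <;> fin_cases j
    · exact coeff_zero 0
    · rfl
    · exact hx _ _ (by omega)
    · rfl
    · exact hh0
    · exact hx _ _ (by omega)
    · rfl
    · rfl
    · exact hw0
  have h2 : (X ^ d * g).coeff 0 * f.coeff 0 = 0 := by
    by_cases hd : d = 0
    · rw [hd, pow_zero, one_mul, mul_comm, hfg hd]
    · rw [hx d g hd, zero_mul]
  rw [hM, pow_succ, pow_two]
  generalize (X ^ d * g).coeff 0 = x at h2 ⊢
  rcases mul_eq_zero.1 h2 with h3 | h3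
  · rw [h3]
    fin_cases i <;> fin_cases j <;> simp
  · rw [h3]
    fin_cases i <;> fin_cases j <;> simp

/-- a nilpotent matrix commuting with `A`, minus a polynomial in `A` -/
theorem mz_of_comm (hA : Bz A v b d) (hb : 3 ≤ b) (hd : 1 ≤ d) {B : Matrix (Fin N) (Fin N) k}
    (hAB : A * B = B * A) (hB : IsNilpotent B) :
    ∃ (c f g h r t q u w : k[X]), X ∣ c ∧ X ∣ h ∧ X ∣ w ∧
      Rep A v (B - aeval A c) (Mz b d f g h r t q u w) := by
  obtain ⟨P, hP, hPA⟩ := rep_of_comm hA hAB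
  rw [admz_iff _ (by omega)] at hPA
  obtain ⟨⟨g, hg⟩, ⟨q, hq⟩, u, hu⟩ := hPA
  have hx : ∀ (e : ℕ) (p : k[X]), e ≠ 0 → (X ^ e * p).coeff 0 = 0 := fun e p he => by
    rw [mul_coeff_zero, coeff_X_pow, if_neg (fun h => he h.symm), zero_mul]
  set M : Matrix (Fin 3) (Fin 3) k := P.map fun p => p.coeff 0 with hM
  have hMnil : M ^ 3 = 0 := by
    obtain ⟨e, he⟩ := hB
    have h1 := ((hP.pow e).eq_zero_iff hA).1 he
    have h2 : M ^ e = 0 := by
      ext i j
      rw [hM, ← const_pow, Matrix.zero_apply]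
      refine coeff_of_dvd (e := ![b + d, b, 2] i) ?_ (h1 i j)
      fin_cases i
      · show 1 ≤ b + d
        omega
      · show 1 ≤ b
        omega
      · show 1 ≤ 2
        omega
    have h3 := pow_card_eq_zero (M := M) ⟨e, h2⟩
    rwa [Fintype.card_fin] at h3
  have m01 : M 0 1 = 0 := by
    show (P 0 1).coeff 0 = 0
    rw [hg, hx _ _ (by omega)]
  have m02 : M 0 2 = 0 := by
    show (P 0 2).coeff 0 = 0
    rw [hq, hx _ _ (by omega)]
  have m12 : M 1 2 = 0 := by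
    show (P 1 2).coeff 0 = 0
    rw [hu, hx _ _ (by omega)]
  have key : ∀ i, M i i = 0 := by
    intro i
    have h4 : (M ^ 3) i i = M i i ^ 3 := by
      rw [pow_succ, pow_two]
      fin_cases i <;> simp [Matrix.mul_apply, Fin.sum_univ_three, m01, m02, m12] <;> ring
    rw [hMnil, Matrix.zero_apply] at h4
    exact pow_eq_zero_iff (n := 3) (by norm_num) |>.1 h4.symm
  have k0 : X ∣ P 0 0 := X_dvd_iff.2 (key 0)
  have k1 : X ∣ P 1 1 := X_dvd_iff.2 (key 1)
  have k2 : X ∣ P 2 2 := X_dvd_iff.2 (key 2)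
  refine ⟨P 0 0, P 1 0, g, P 1 1 - P 0 0, P 2 0, P 2 1, q, u, P 2 2 - P 0 0, k0,
    dvd_sub k1 k0, dvd_sub k2 k0, (hP.sub (Rep.aeval (P 0 0))).congr ?_⟩
  ext i j : 1
  fin_cases i <;> fin_cases j
  · simp [Mz]
  · simp [Mz, hg]
  · simp [Mz, hq]
  · simp [Mz]
  · simp [Mz]
  · simp [Mz, hu]
  · simp [Mz]
  · simp [Mz]
  · simp [Mz]

/-- linear combinations -/
theorem mz_add_smul {B B' : Matrix (Fin N) (Fin N) k}
    {f g h r t q u w f' g' h' r' t' q' u' w' : k[X]}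
    (hR : Rep A v B (Mz b d f g h r t q u w)) (hR' : Rep A v B' (Mz b d f' g' h' r' t' q' u' w'))
    (s : k) : Rep A v (B + s • B') (Mz b d (f + C s * f') (g + C s * g') (h + C s * h')
      (r + C s * r') (t + C s * t') (q + C s * q') (u + C s * u') (w + C s * w')) := by
  refine (hR.add (hR'.smul s)).congr ?_
  have hs : ∀ p : k[X], s • p = C s * p := fun p => by rw [smul_eq_C_mul]
  refine Matrix.ext fun i j => ?_
  fin_cases i <;> fin_cases j
  · show (0 : k[X]) + s • 0 = 0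
    rw [smul_zero, add_zero]
  · show X ^ d * g + s • (X ^ d * g') = X ^ d * (g + C s * g')
    rw [hs]; ring
  · show X ^ (b + d - 2) * q + s • (X ^ (b + d - 2) * q') = X ^ (b + d - 2) * (q + C s * q')
    rw [hs]; ring
  · show f + s • f' = f + C s * f'
    rw [hs]
  · show h + s • h' = h + C s * h'
    rw [hs]
  · show X ^ (b - 2) * u + s • (X ^ (b - 2) * u') = X ^ (b - 2) * (u + C s * u')
    rw [hs]; ring
  · show r + s • r' = r + C s * r'
    rw [hs]
  · show t + s • t' = t + C s * t'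
    rw [hs]
  · show w + s • w' = w + C s * w'
    rw [hs]

/-- subtraction of a polynomial multiple -/
theorem mz_sub_mul {B B' : Matrix (Fin N) (Fin N) k}
    {f g h r t q u w f' g' h' r' t' q' u' w' : k[X]}
    (hR : Rep A v B (Mz b d f g h r t q u w)) (hR' : Rep A v B' (Mz b d f' g' h' r' t' q' u' w'))
    (p : k[X]) : Rep A v (B' - aeval A p * B) (Mz b d (f' - p * f) (g' - p * g) (h' - p * h)
      (r' - p * r) (t' - p * t) (q' - p * q) (u' - p * u) (w' - p * w)) := by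
  refine (hR'.sub (hR.polysmul p)).congr ?_
  refine Matrix.ext fun i j => ?_
  fin_cases i <;> fin_cases j
  · show (0 : k[X]) - p * 0 = 0
    ring
  · show X ^ d * g' - p * (X ^ d * g) = X ^ d * (g' - p * g)
    ring
  · show X ^ (b + d - 2) * q' - p * (X ^ (b + d - 2) * q) = X ^ (b + d - 2) * (q' - p * q)
    ring
  · rfl
  · rfl
  · show X ^ (b - 2) * u' - p * (X ^ (b - 2) * u) = X ^ (b - 2) * (u' - p * u)
    ring
  · rfl
  · rfl
  · rfl

/-- the entries matter only modulo powers of `X` -/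
theorem mz_congr (hA : Bz A v b d) (hb : 2 ≤ b) {B : Matrix (Fin N) (Fin N) k}
    {f g h r t q u w f' g' h' r' t' q' u' w' : k[X]} (hR : Rep A v B (Mz b d f g h r t q u w))
    (hf : X ^ b ∣ f - f') (hg : X ^ b ∣ g - g') (hh : X ^ b ∣ h - h') (hr : X ^ 2 ∣ r - r')
    (ht : X ^ 2 ∣ t - t') (hq : X ^ 2 ∣ q - q') (hu : X ^ 2 ∣ u - u') (hw : X ^ 2 ∣ w - w') :
    Rep A v B (Mz b d f' g' h' r' t' q' u' w') := by
  refine hR.of_ker hA ?_
  rw [kerz_iff]
  refine ⟨⟨?_, ?_, ?_⟩, ⟨hf, hh, ?_⟩, hr, ht, hw⟩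
  · show X ^ (b + d) ∣ (0 : k[X]) - 0
    rw [sub_zero]
    exact dvd_zero _
  · show X ^ (b + d) ∣ X ^ d * g - X ^ d * g'
    rw [← mul_sub, pow_dvd_mul_left' (e' := b) (by omega)]
    exact hg
  · show X ^ (b + d) ∣ X ^ (b + d - 2) * q - X ^ (b + d - 2) * q'
    rw [← mul_sub, pow_dvd_mul_left' (e' := 2) (by omega)]
    exact hq
  · show X ^ b ∣ X ^ (b - 2) * u - X ^ (b - 2) * u'
    rw [← mul_sub, pow_dvd_mul_left' (e' := 2) (by omega)]
    exact hu

/-- the transposed matrices -/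
theorem mz_dual {v : Fin 3 → Fin N → k} (hA : Bz A v b d) (hb : 2 ≤ b) :
    ∃ v' : Fin 3 → Fin N → k, Bz Aᵀ v' b d ∧
      ∀ (B : Matrix (Fin N) (Fin N) k) (f g h r t q u w : k[X]),
        Rep A v B (Mz b d f g h r t q u w) → Rep Aᵀ v' Bᵀ (Mz b d g f h q u r t w) := by
  obtain ⟨v', h1, h2⟩ := BlkB.dual hA (by
    intro i
    fin_cases i
    · show 1 ≤ b + d
      omega
    · show 1 ≤ b
      omega
    · show 1 ≤ 2
      omega)
  refine ⟨v', h1, fun B f g h r t q u w hB => h2 B _ _ hB ?_⟩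
  have e1 : (X : k[X]) ^ 2 * X ^ (b + d - 2) = X ^ (b + d) := by
    rw [← pow_add]
    congr 1
    omega
  have e2 : (X : k[X]) ^ 2 * X ^ (b - 2) = X ^ b := by
    rw [← pow_add]
    congr 1
    omega
  have key : ∀ i j : Fin 3, (X : k[X]) ^ (![b + d, b, 2] j) * Mz b d f g h r t q u w i j -
      X ^ (![b + d, b, 2] i) * Mz b d g f h q u r t w j i = 0 := by
    intro i j
    fin_cases i <;> fin_cases j
    · show (X : k[X]) ^ (b + d) * 0 - X ^ (b + d) * 0 = 0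
      ring
    · show (X : k[X]) ^ b * (X ^ d * g) - X ^ (b + d) * g = 0
      ring
    · show (X : k[X]) ^ 2 * (X ^ (b + d - 2) * q) - X ^ (b + d) * q = 0
      rw [← mul_assoc, e1, sub_self]
    · show (X : k[X]) ^ (b + d) * f - X ^ b * (X ^ d * f) = 0
      ring
    · show (X : k[X]) ^ b * h - X ^ b * h = 0
      ring
    · show (X : k[X]) ^ 2 * (X ^ (b - 2) * u) - X ^ b * u = 0
      rw [← mul_assoc, e2, sub_self]
    · show (X : k[X]) ^ (b + d) * r - X ^ 2 * (X ^ (b + d - 2) * r) = 0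
      rw [← mul_assoc, e1, sub_self]
    · show (X : k[X]) ^ b * t - X ^ 2 * (X ^ (b - 2) * t) = 0
      rw [← mul_assoc, e2, sub_self]
    · show (X : k[X]) ^ 2 * w - X ^ 2 * w = 0
      ring
  intro i j
  rw [key]
  exact dvd_zero _

/-! ### the frame `e1, B e1, e3` -/

/-- the new generators -/
noncomputable def Gf (f r : k[X]) : Matrix (Fin 3) (Fin 3) k[X] := !![1, 0, 0; 0, f, 0; 0, r, 1]

/-- the matrices in the frame `e1, B e1, e3`; `F f = 1` modulo `X ^ b` -/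
theorem frame (hA : Bz A v b d) (hb : 2 ≤ b) {f r F : k[X]} (hF : X ^ b ∣ F * f - 1) :
    Bz A (fun j => pi A v fun i => Gf f r i j) b d ∧
      ∀ (B : Matrix (Fin N) (Fin N) k) (f' g' h' r' t' q' u' w' : k[X]),
        Rep A v B (Mz b d f' g' h' r' t' q' u' w') →
        Rep A (fun j => pi A v fun i => Gf f r i j) B (Mz b d (F * f')
          (f * g' + X ^ (b - 2) * (r * q')) (h' + X ^ (b - 2) * (F * r * u')) (r' - F * r * f')
          (f * t' + r * w' - r * h' - X ^ (b - 2) * (F * r * r * u')) q' (F * u')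
          (w' - X ^ (b - 2) * (F * r * u'))) := by
  obtain ⟨c, hc⟩ := hF
  have hF2 : X ^ 2 ∣ F * f - 1 := (pow_dvd_pow X hb).trans ⟨c, hc⟩
  have hGadm : Adm ![b + d, b, 2] (Gf f r) := by
    rw [admz_iff _ hb]
    exact ⟨dvd_zero _, dvd_zero _, dvd_zero _⟩
  constructor
  · refine BlkB.change hA (H := !![1, 0, 0; 0, F, 0; 0, -(F * r), 1]) hGadm ?_
    rw [kerz_iff]
    have e11 : (Gf f r * !![1, 0, 0; 0, F, 0; 0, -(F * r), 1] - 1) 1 1 = F * f - 1 := by
      simp only [Gf, Matrix.sub_apply, Matrix.mul_apply, Fin.sum_univ_three]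
      simp
      ring
    refine ⟨⟨?_, ?_, ?_⟩, ⟨?_, ?_, ?_⟩, ?_, ?_, ?_⟩
    · simp [Gf]
    · simp [Gf]
    · simp [Gf]
    · simp [Gf]
    · rw [e11]
      exact ⟨c, hc⟩
    · simp [Gf]
    · simp [Gf]
    · have : (Gf f r * !![1, 0, 0; 0, F, 0; 0, -(F * r), 1] - 1) 2 1 = 0 := by
        simp only [Gf, Matrix.sub_apply, Matrix.mul_apply, Fin.sum_univ_three]
        simp
        ring
      rw [this]
      exact dvd_zero _
    · simp [Gf]
  · intro B f' g' h' r' t' q' u' w' hB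
    refine hB.change hA ?_
    rw [kerz_iff]
    -- the difference `P G - G Q`
    have hFf : F * f = 1 + X ^ b * c := by linear_combination hc
    have e1 : (X : k[X]) ^ (b + d - 2) = X ^ d * X ^ (b - 2) := by
      rw [← pow_add]
      congr 1
      omega
    have e2 : (X : k[X]) ^ b = X ^ (b - 2) * X ^ 2 := by
      rw [← pow_add]
      congr 1
      omega
    refine ⟨⟨?_, ?_, ?_⟩, ⟨?_, ?_, ?_⟩, ?_, ?_, ?_⟩
    · refine ⟨0, ?_⟩
      simp only [Gf, Mz, Matrix.sub_apply, Matrix.mul_apply, Fin.sum_univ_three]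
      simp
    · refine ⟨0, ?_⟩
      simp only [Gf, Mz, Matrix.sub_apply, Matrix.mul_apply, Fin.sum_univ_three, e1]
      simp
      ring
    · refine ⟨0, ?_⟩
      simp only [Gf, Mz, Matrix.sub_apply, Matrix.mul_apply, Fin.sum_univ_three]
      simp
    · refine ⟨-(c * f'), ?_⟩
      simp only [Gf, Mz, Matrix.sub_apply, Matrix.mul_apply, Fin.sum_univ_three]
      simp
      linear_combination -f' * hFf
    · refine ⟨-(c * (X ^ (b - 2) * (r * u'))), ?_⟩
      simp only [Gf, Mz, Matrix.sub_apply, Matrix.mul_apply, Fin.sum_univ_three]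
      simp
      linear_combination -X ^ (b - 2) * r * u' * hFf
    · refine ⟨-(c * (X ^ (b - 2) * u')), ?_⟩
      simp only [Gf, Mz, Matrix.sub_apply, Matrix.mul_apply, Fin.sum_univ_three]
      simp
      linear_combination -X ^ (b - 2) * u' * hFf
    · refine ⟨0, ?_⟩
      simp only [Gf, Mz, Matrix.sub_apply, Matrix.mul_apply, Fin.sum_univ_three]
      simp
      ring
    · refine ⟨0, ?_⟩
      simp only [Gf, Mz, Matrix.sub_apply, Matrix.mul_apply, Fin.sum_univ_three]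
      simp
      ring
    · refine ⟨0, ?_⟩
      simp only [Gf, Mz, Matrix.sub_apply, Matrix.mul_apply, Fin.sum_univ_three]
      simp
      ring

theorem exists_inv {f : k[X]} (hf : f.coeff 0 ≠ 0) (n : ℕ) : ∃ F : k[X], X ^ n ∣ F * f - 1 := by
  have h1 : IsCoprime (X : k[X]) f :=
    (irreducible_X.coprime_iff_not_dvd).2 fun h => hf (X_dvd_iff.1 h)
  obtain ⟨a, F, h2⟩ := h1.pow_left (m := n)
  exact ⟨F, -a, by linear_combination h2⟩

/-- the case `f(0) ≠ 0` of one matrix: `f = 1`, `r = 0`, and the other matrix has `f' = 0` -/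
theorem frame_one (hA : Bz A v b d) (hb : 3 ≤ b) {B C' : Matrix (Fin N) (Fin N) k}
    {f g h r t q u w f' g' h' r' t' q' u' w' : k[X]} (hf : f.coeff 0 ≠ 0) (hh : X ∣ h) (hw : X ∣ w)
    (hh' : X ∣ h') (hw' : X ∣ w')
    (hB : Rep A v B (Mz b d f g h r t q u w)) (hC : Rep A v C' (Mz b d f' g' h' r' t' q' u' w')) :
    ∃ (v1 : Fin 3 → Fin N → k) (p g1 h1 t1 q1 u1 w1 g2 h2 r2 t2 q2 u2 w2 : k[X]),
      Bz A v1 b d ∧ Rep A v1 B (Mz b d 1 g1 h1 0 t1 q1 u1 w1) ∧
      Rep A v1 (C' - aeval A p * B) (Mz b d 0 g2 h2 r2 t2 q2 u2 w2) ∧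
      X ∣ h1 ∧ X ∣ w1 ∧ X ∣ h2 ∧ X ∣ w2 ∧
      g1.coeff 0 = f.coeff 0 * g.coeff 0 ∧ t1.coeff 0 = f.coeff 0 * t.coeff 0 ∧
      (f.coeff 0 * u1.coeff 0 = u.coeff 0) ∧ q1.coeff 0 = q.coeff 0 := by
  obtain ⟨F, hF⟩ := exists_inv hf b
  obtain ⟨h1, h2⟩ := frame (r := r) hA (by omega) hF
  have hF2 : X ^ 2 ∣ F * f - 1 := (pow_dvd_pow X (by omega)).trans hF
  have hx : X ∣ (X : k[X]) ^ (b - 2) := dvd_pow_self X (by omega)
  have c1 := mz_congr (f' := 1) (r' := 0) h1 (by omega) (h2 B f g h r t q u w hB) hF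
    (g' := f * g + X ^ (b - 2) * (r * q)) (h' := h + X ^ (b - 2) * (F * r * u))
    (t' := f * t + r * w - r * h - X ^ (b - 2) * (F * r * r * u)) (q' := q) (u' := F * u)
    (w' := w - X ^ (b - 2) * (F * r * u))
    (by rw [sub_self]; exact dvd_zero _) (by rw [sub_self]; exact dvd_zero _) (by
      obtain ⟨c, hc⟩ := hF2
      exact ⟨-(r * c), by linear_combination -r * hc⟩) (by rw [sub_self]; exact dvd_zero _)
    (by rw [sub_self]; exact dvd_zero _) (by rw [sub_self]; exact dvd_zero _)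
    (by rw [sub_self]; exact dvd_zero _)
  have c2 := mz_sub_mul c1 (h2 C' f' g' h' r' t' q' u' w' hC) (F * f')
  rw [mul_one, sub_self, mul_zero, sub_zero] at c2
  have hF0 : F.coeff 0 * f.coeff 0 = 1 := by
    have h3 := coeff_of_dvd (show 1 ≤ b by omega) hF
    rw [coeff_sub, mul_coeff_zero, coeff_one_zero] at h3
    linear_combination h3
  have hx0 : ∀ p : k[X], (X ^ (b - 2) * p).coeff 0 = 0 := fun p => by
    rw [mul_coeff_zero, X_dvd_iff.1 hx, zero_mul]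
  have hh0 : h.coeff 0 = 0 := X_dvd_iff.1 hh
  have hw0 : w.coeff 0 = 0 := X_dvd_iff.1 hw
  refine ⟨_, F * f', _, _, _, _, _, _, _, _, _, _, _, _, _, h1, c1, c2, ?_, ?_, ?_, ?_, ?_, ?_, ?_,
    rfl⟩
  · exact dvd_add hh (hx.mul_right _)
  · exact dvd_sub hw (hx.mul_right _)
  · exact dvd_sub (dvd_add hh' (hx.mul_right _)) ((dvd_add hh (hx.mul_right _)).mul_left _)
  · exact dvd_sub (dvd_sub hw' (hx.mul_right _)) ((dvd_sub hw (hx.mul_right _)).mul_left _)
  · rw [coeff_add, hx0, add_zero, mul_coeff_zero]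
  · rw [coeff_sub, hx0, sub_zero, coeff_sub, coeff_add, mul_coeff_zero, mul_coeff_zero,
      mul_coeff_zero, hh0, hw0]
    ring
  · rw [mul_coeff_zero]
    linear_combination u.coeff 0 * hF0

end PB

end Pool.Agent.Lib.D13
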