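import Pool.Agent.Lib.D13.I542R
import Pool.Agent.Lib.D13.L42

/-!
# MP_5dcbc3_ag: type (5, 4, 2): from the polynomial matrices to the explicit ones
-/

namespace Pool.Agent.Lib.D13.I542

open Matrix Polynomial Pool.Agent.Lib.Q5dc Pool.Agent.Lib.D7 Pool.Agent.Lib.D13.PB

variable {k : Type*} [Field k]

/-- the vector of polynomials -/
noncomputable def pol (m : Fin 11 → k) : Fin 3 → k[X] :=
  ![C (m 0) + C (m 1) * X + C (m 2) * X ^ 2 + C (m 3) * X ^ 3 + C (m 4) * X ^ 4,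
    C (m 5) + C (m 6) * X + C (m 7) * X ^ 2 + C (m 8) * X ^ 3, C (m 9) + C (m 10) * X]

theorem pol_add (m m' : Fin 11 → k) : pol (m + m') = pol m + pol m' := by
  funext i
  fin_cases i <;> simp [pol] <;> ring

theorem pol_smul (c : k) (m : Fin 11 → k) : pol (c • m) = c • pol m := by
  funext i
  fin_cases i <;> simp [pol, smul_eq_C_mul] <;> ring

/-- `e1, x e1, ..` -/
noncomputable def Phi (A : Matrix (Fin 11) (Fin 11) k) (v : Fin 3 → Fin 11 → k) :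
    (Fin 11 → k) →ₗ[k] (Fin 11 → k) where
  toFun m := PB.pi A v (pol m)
  map_add' m m' := by rw [pol_add, pi_add]
  map_smul' c m := by rw [pol_smul, pi_csmul, RingHom.id_apply]

/-- its matrix -/
noncomputable def W (A : Matrix (Fin 11) (Fin 11) k) (v : Fin 3 → Fin 11 → k) :
    Matrix (Fin 11) (Fin 11) k := LinearMap.toMatrix' (Phi A v)

theorem W_mulVec (A : Matrix (Fin 11) (Fin 11) k) (v : Fin 3 → Fin 11 → k) (m : Fin 11 → k) :
    W A v *ᵥ m = PB.pi A v (pol m) := by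
  unfold W
  rw [LinearMap.toMatrix'_mulVec]
  rfl

theorem coeff_zero_of_dvd {n : ℕ} {p : k[X]} (h : X ^ n ∣ p) {d : ℕ} (hd : d < n) :
    p.coeff d = 0 := X_pow_dvd_iff.1 h d hd

theorem W_unit {A : Matrix (Fin 11) (Fin 11) k} {v : Fin 3 → Fin 11 → k} (hA : Bz A v 4 1) :
    IsUnit (W A v) := by
  rw [← Matrix.mulVec_injective_iff_isUnit]
  refine (injective_iff_map_eq_zero (W A v).mulVecLin).2 fun m hm => ?_
  rw [Matrix.mulVecLin_apply, W_mulVec, pi_eq_zero hA] at hm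
  have h0 : X ^ 5 ∣ C (m 0) + C (m 1) * X + C (m 2) * X ^ 2 + C (m 3) * X ^ 3 +
    C (m 4) * X ^ 4 := hm 0
  have h1 : X ^ 4 ∣ C (m 5) + C (m 6) * X + C (m 7) * X ^ 2 + C (m 8) * X ^ 3 := hm 1
  have h2 : X ^ 2 ∣ C (m 9) + C (m 10) * X := hm 2
  have a0 := coeff_zero_of_dvd h0 (d := 0) (by norm_num)
  have a1 := coeff_zero_of_dvd h0 (d := 1) (by norm_num)
  have a2 := coeff_zero_of_dvd h0 (d := 2) (by norm_num)
  have a3 := coeff_zero_of_dvd h0 (d := 3) (by norm_num)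
  have a4 := coeff_zero_of_dvd h0 (d := 4) (by norm_num)
  have a5 := coeff_zero_of_dvd h1 (d := 0) (by norm_num)
  have a6 := coeff_zero_of_dvd h1 (d := 1) (by norm_num)
  have a7 := coeff_zero_of_dvd h1 (d := 2) (by norm_num)
  have a8 := coeff_zero_of_dvd h1 (d := 3) (by norm_num)
  have a9 := coeff_zero_of_dvd h2 (d := 0) (by norm_num)
  have a10 := coeff_zero_of_dvd h2 (d := 1) (by norm_num)
  simp [coeff_X, coeff_C] at a0 a1 a2 a3 a4 a5 a6 a7 a8 a9 a10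
  funext i
  fin_cases i
  exacts [a0, a1, a2, a3, a4, a5, a6, a7, a8, a9, a10]

theorem piC {A : Matrix (Fin 11) (Fin 11) k} {v : Fin 3 → Fin 11 → k} (hA : Bz A v 4 1)
    {z z' : Fin 3 → k[X]} (h0 : X ^ 5 ∣ z 0 - z' 0) (h1 : X ^ 4 ∣ z 1 - z' 1)
    (h2 : X ^ 2 ∣ z 2 - z' 2) : PB.pi A v z = PB.pi A v z' := by
  rw [← sub_eq_zero, ← pi_sub, pi_eq_zero hA]
  intro i
  fin_cases i
  exacts [h0, h1, h2]

theorem AW {A : Matrix (Fin 11) (Fin 11) k} {v : Fin 3 → Fin 11 → k} (hA : Bz A v 4 1) :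
    A * W A v = W A v * J k := by
  refine ext_mulVec fun m => ?_
  rw [← mulVec_mulVec, ← mulVec_mulVec, J_mulVec, W_mulVec, W_mulVec, repA]
  refine piC hA ?_ ?_ ?_
  · refine ⟨C (m 4), ?_⟩
    simp [pol, actJ, Matrix.smul_mulVec]
    ring
  · refine ⟨C (m 8), ?_⟩
    simp [pol, actJ, Matrix.smul_mulVec]
    ring
  · refine ⟨C (m 10), ?_⟩
    simp [pol, actJ, Matrix.smul_mulVec]
    ring

/-- the polynomials of `y` -/
noncomputable def MY (p : Par k) : Matrix (Fin 3) (Fin 3) k[X] :=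
  Mz 4 1 1 (C p.g1 * X + C p.g2 * X ^ 2 + C p.g3 * X ^ 3)
    (C p.h1 * X + C p.h2 * X ^ 2 + C p.h3 * X ^ 3) 0 (C p.t * X) (C p.q0 + C p.q1 * X)
    (C p.u0 + C p.u1 * X) (C p.w * X)

/-- the polynomials of `z` -/
noncomputable def MZ (p : Par k) : Matrix (Fin 3) (Fin 3) k[X] :=
  Mz 4 1 0 (X ^ 2 * ((C p.r0 + C p.r1 * X) * (C p.q0 + C p.q1 * X)))
    (X ^ 2 * ((C p.r0 + C p.r1 * X) * (C p.u0 + C p.u1 * X))) (C p.r0 + C p.r1 * X)
    ((C p.r0 + C p.r1 * X) * (C p.w * X)) (C p.a0 + C p.a1 * X) (C p.b0 + C p.b1 * X) (C p.c * X)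

theorem BW {A B : Matrix (Fin 11) (Fin 11) k} {v : Fin 3 → Fin 11 → k} (hA : Bz A v 4 1)
    {p : Par k} (hB : Rep A v B (MY p)) : B * W A v = W A v * Y p := by
  refine ext_mulVec fun m => ?_
  rw [← mulVec_mulVec, ← mulVec_mulVec, Y_mulVec, W_mulVec, W_mulVec, hB]
  refine piC hA ?_ ?_ ?_
  · refine ⟨(C p.g1 * C (m 8) + C p.g2 * C (m 7) + C p.g3 * C (m 6) + C p.q1 * C (m 10)) +
      (C p.g2 * C (m 8) + C p.g3 * C (m 7)) * X + C p.g3 * C (m 8) * X ^ 2, ?_⟩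
    simp [pol, actY, MY, Mz, Matrix.mulVec, dotProduct, Fin.sum_univ_three]
    ring
  · refine ⟨C (m 4) + (C p.h1 * C (m 8) + C p.h2 * C (m 7) + C p.h3 * C (m 6)) +
      (C p.h2 * C (m 8) + C p.h3 * C (m 7)) * X + C p.h3 * C (m 8) * X ^ 2 +
      C p.u1 * C (m 10), ?_⟩
    simp [pol, actY, MY, Mz, Matrix.mulVec, dotProduct, Fin.sum_univ_three]
    ring
  · refine ⟨C p.t * (C (m 6) + C (m 7) * X + C (m 8) * X ^ 2) + C p.w * C (m 10), ?_⟩
    simp [pol, actY, MY, Mz, Matrix.mulVec, dotProduct, Fin.sum_univ_three]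
    ring

theorem CW {A B : Matrix (Fin 11) (Fin 11) k} {v : Fin 3 → Fin 11 → k} (hA : Bz A v 4 1)
    {p : Par k} (hB : Rep A v B (MZ p)) : B * W A v = W A v * Z p := by
  refine ext_mulVec fun m => ?_
  rw [← mulVec_mulVec, ← mulVec_mulVec, Z_mulVec, W_mulVec, W_mulVec, hB]
  refine piC hA ?_ ?_ ?_
  · refine ⟨C p.r1 * C p.q1 * (C (m 5) + C (m 6) * X + C (m 7) * X ^ 2 + C (m 8) * X ^ 3) +
      (C p.r0 * C p.q1 + C p.r1 * C p.q0) * (C (m 6) + C (m 7) * X + C (m 8) * X ^ 2) +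
      C p.r0 * C p.q0 * (C (m 7) + C (m 8) * X) + C p.a1 * C (m 10), ?_⟩
    simp [pol, actZ, MZ, Mz, Matrix.mulVec, dotProduct, Fin.sum_univ_three]
    ring
  · refine ⟨C p.r1 * C p.u1 * (C (m 5) + C (m 6) * X + C (m 7) * X ^ 2 + C (m 8) * X ^ 3) +
      (C p.r0 * C p.u1 + C p.r1 * C p.u0) * (C (m 6) + C (m 7) * X + C (m 8) * X ^ 2) +
      C p.r0 * C p.u0 * (C (m 7) + C (m 8) * X) + C p.b1 * C (m 10), ?_⟩
    simp [pol, actZ, MZ, Mz, Matrix.mulVec, dotProduct, Fin.sum_univ_three]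
    ring
  · refine ⟨C p.r0 * (C (m 2) + C (m 3) * X + C (m 4) * X ^ 2) +
      C p.r1 * (C (m 1) + C (m 2) * X + C (m 3) * X ^ 2 + C (m 4) * X ^ 3) +
      C p.r0 * C p.w * (C (m 6) + C (m 7) * X + C (m 8) * X ^ 2) +
      C p.r1 * C p.w * (C (m 5) + C (m 6) * X + C (m 7) * X ^ 2 + C (m 8) * X ^ 3) +
      C p.c * C (m 10), ?_⟩
    simp [pol, actZ, MZ, Mz, Matrix.mulVec, dotProduct, Fin.sum_univ_three]
    ring

end Pool.Agent.Lib.D13.I542
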