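import Pool.Agent.Lib.D13.I542T
import Pool.Agent.Lib.D13.PlMain

/-!
# MP_5dcbc3_ag: type (5, 4, 2): case I (`f(0) ≠ 0` or `g(0) ≠ 0`)
-/

namespace Pool.Agent.Lib.D13.I542

open Matrix Polynomial Pool.Agent.Lib.Q5dc Pool.Agent.Lib.D7 Pool.Agent.Lib.D8
  Pool.Agent.Lib.D13.PB

variable {k : Type*} [Field k]

/-! ### explicit triples -/

theorem rel_of_comm {p : Par k} (h : Y p * Z p = Z p * Y p) : Rel p := by
  have key : ∀ m i, actY p (actZ p m) i = actZ p (actY p m) i := by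
    intro m i
    rw [← Y_mulVec, ← Y_mulVec, ← Z_mulVec, ← Z_mulVec, mulVec_mulVec, mulVec_mulVec, h]
  have h1 := key ![0, 0, 0, 0, 0, 1, 0, 0, 0, 0, 0] 4
  have h2 := key ![0, 0, 0, 0, 0, 1, 0, 0, 0, 0, 0] 8
  have h3 := key ![0, 0, 0, 0, 0, 0, 0, 0, 0, 1, 0] 4
  have h4 := key ![0, 0, 0, 0, 0, 0, 0, 0, 0, 1, 0] 8
  simp [actY, actZ] at h1 h2 h3 h4
  constructor
  · linear_combination -h1
  · linear_combination -h2
  · linear_combination -h3
  · linear_combination h4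

theorem maxR_sh {ρ : ℕ → ℕ} {p : Par k} (hT : MaxR ρ (T p)) (c : k) :
    MaxR ρ (T (sh c p)) := by
  have hR := rel_of_comm (hT.cn.1 1 2)
  have h1 := hT.change (T' := ![J k, Y p - c • J k, Z p]) (by
    refine D8.cn3 ?_ (comm_JZ p) ?_ J_nil ?_ (Z_nil p)
    · rw [mul_sub, sub_mul, mul_smul_comm, smul_mul_assoc, comm_JY]
    · rw [mul_sub, sub_mul, mul_smul_comm, smul_mul_assoc, comm_JZ, comm_YZ hR]
    · exact hT.cn.nilp (sub_mem (mem_adj (T p) 1) (SMulMemClass.smul_mem c (mem_adj (T p) 0))))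
    (fun i => by
      have m0 : J k ∈ adj ![J k, Y p - c • J k, Z p] := mem_adj ![J k, Y p - c • J k, Z p] 0
      have m1 : Y p - c • J k ∈ adj ![J k, Y p - c • J k, Z p] :=
        mem_adj ![J k, Y p - c • J k, Z p] 1
      fin_cases i
      · exact m0
      · have := add_mem m1 (SMulMemClass.smul_mem c m0)
        rwa [sub_add_cancel] at this
      · exact mem_adj ![J k, Y p - c • J k, Z p] 2)
  have e1 : G (-c) * G c = 1 := by
    have := G_mul (-c)
    rwa [neg_neg] at this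
  have h2 := h1.conj (G (-c)) (G c) e1 (G_mul c)
  have e : (fun i => G (-c) * (![J k, Y p - c • J k, Z p] : Fin 3 → _) i * G c) =
      T (sh c p) := by
    funext i
    fin_cases i
    · show G (-c) * J k * G c = J k
      rw [mul_assoc, GJ, ← mul_assoc, e1, one_mul]
    · show G (-c) * (Y p - c • J k) * G c = Y (I542.sh c p)
      rw [mul_assoc, GY, ← mul_assoc, e1, one_mul]
    · show G (-c) * Z p * G c = Z (I542.sh c p)
      rw [mul_assoc, GZ, ← mul_assoc, e1, one_mul]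
  rwa [e] at h2

/-- no maximal triple among the explicit ones -/
theorem no_T [IsAlgClosed k] {ρ : ℕ → ℕ} {p : Par k} (hT : MaxR ρ (T p)) (h5 : ρ 5 = 0) :
    False := by
  have hR := rel_of_comm (hT.cn.1 1 2)
  by_cases hd : dt p = 0
  · exact hT.ncl (cl_dt hR hd)
  · obtain ⟨c, hc⟩ := exists_root p
    have hR' := rel_sh hR c
    have hd' : dt (sh c p) ≠ 0 := by rwa [dt_sh]
    obtain ⟨z1, z2, z3, z4⟩ := zero_of_dt hR' hd'
    refine no_u2 (maxR_sh hT c) h5 ?_ hc z1 z2 z3 z4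
    have e : D (sh c p) 0 = dt (sh c p) := by
      simp only [D, dt]
      rw [hc]
      ring
    rwa [e]

/-! ### polynomials -/

theorem trunc3 {p : k[X]} (h : X ∣ p) :
    X ^ 4 ∣ p - (C (p.coeff 1) * X + C (p.coeff 2) * X ^ 2 + C (p.coeff 3) * X ^ 3) := by
  rw [X_pow_dvd_iff]
  intro d hd
  have h0 : p.coeff 0 = 0 := X_dvd_iff.1 h
  interval_cases d <;> simp [coeff_X, h0]

theorem trunc2 (p : k[X]) : X ^ 2 ∣ p - (C (p.coeff 0) + C (p.coeff 1) * X) := by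
  rw [X_pow_dvd_iff]
  intro d hd
  interval_cases d <;> simp [coeff_X]

theorem trunc1 {p : k[X]} (h : X ∣ p) : X ^ 2 ∣ p - C (p.coeff 1) * X := by
  rw [X_pow_dvd_iff]
  intro d hd
  have h0 : p.coeff 0 = 0 := X_dvd_iff.1 h
  interval_cases d <;> simp [h0]

/-- `A ^ 3 B ^ 2 = 0` if the fifth powers of the line vanish -/
theorem polar5 {n : Type*} [Fintype n] [DecidableEq n] [CharZero k] {A B : Matrix n n k}
    (hAB : B * A = A * B) (h : ∀ s : k, (A + s • B) ^ 5 = 0) :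
    A * (A * (A * (B * B))) = 0 := by
  have hBA : ∀ X : Matrix n n k, B * (A * X) = A * (B * X) := fun X => by
    rw [← Matrix.mul_assoc, hAB, Matrix.mul_assoc]
  have e : ∀ s : k, (A + s • B) ^ 5 = A * (A * (A * (A * A))) +
      (5 * s) • (A * (A * (A * (A * B)))) + (10 * s ^ 2) • (A * (A * (A * (B * B)))) +
      (10 * s ^ 3) • (A * (A * (B * (B * B)))) + (5 * s ^ 4) • (A * (B * (B * (B * B)))) +
      s ^ 5 • (B * (B * (B * (B * B)))) := by
    intro s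
    simp only [pow_succ (A + s • B), pow_zero, one_mul, Matrix.add_mul,
      Matrix.mul_add, smul_mul_assoc, mul_smul_comm, Matrix.mul_assoc, hBA, hAB]
    module
  have e0 := h 0
  have e1 := h 1
  have e2 := h (-1)
  have e3 := h 2
  have e4 := h (-2)
  rw [e] at e0 e1 e2 e3 e4
  set X0 := A * (A * (A * (A * A)))
  set X1 := A * (A * (A * (A * B)))
  set X2 := A * (A * (A * (B * B)))
  set X3 := A * (A * (B * (B * B)))
  set X4 := A * (B * (B * (B * B)))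
  set X5 := B * (B * (B * (B * B)))
  have e5 : X2 = (1 / 15 : k) • ((X0 + (5 * 1 : k) • X1 + (10 * 1 ^ 2 : k) • X2 +
      (10 * 1 ^ 3 : k) • X3 + (5 * 1 ^ 4 : k) • X4 + (1 ^ 5 : k) • X5) +
      (X0 + (5 * -1 : k) • X1 + (10 * (-1) ^ 2 : k) • X2 +
      (10 * (-1) ^ 3 : k) • X3 + (5 * (-1) ^ 4 : k) • X4 + ((-1) ^ 5 : k) • X5)) -
      (1 / 240 : k) • ((X0 + (5 * 2 : k) • X1 + (10 * 2 ^ 2 : k) • X2 +
      (10 * 2 ^ 3 : k) • X3 + (5 * 2 ^ 4 : k) • X4 + (2 ^ 5 : k) • X5) +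
      (X0 + (5 * -2 : k) • X1 + (10 * (-2) ^ 2 : k) • X2 +
      (10 * (-2) ^ 3 : k) • X3 + (5 * (-2) ^ 4 : k) • X4 + ((-2) ^ 5 : k) • X5)) -
      (1 / 8 : k) • (X0 + (5 * 0 : k) • X1 + (10 * 0 ^ 2 : k) • X2 +
      (10 * 0 ^ 3 : k) • X3 + (5 * 0 ^ 4 : k) • X4 + (0 ^ 5 : k) • X5) := by
    match_scalars <;> norm_num
  rw [e0, e1, e2, e3, e4] at e5
  rw [e5]
  simp

end Pool.Agent.Lib.D13.I542
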