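import Pool.Agent.Lib.D13.I542U

/-!
# MP_5dcbc3_ag: type (5, 4, 2): case I, the result
-/

namespace Pool.Agent.Lib.D13.I542

open Matrix Polynomial Pool.Agent.Lib.Q5dc Pool.Agent.Lib.D7 Pool.Agent.Lib.D8
  Pool.Agent.Lib.D13.PB

variable {k : Type*} [Field k]

/-- the corank of a matrix with `r` blocks -/
theorem le_rank_blk {N r : ℕ} {A : Matrix (Fin N) (Fin N) k} {w : Fin r → Fin N → k}
    {l : Fin r → ℕ} (h : BlkB A w l) : N ≤ A.rank + r := by
  have h1 : LinearMap.range A.mulVecLin ⊔ Submodule.span k (Set.range w) = ⊤ := by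
    rw [eq_top_iff]
    intro x _
    obtain ⟨z, rfl⟩ := h.span x
    unfold PB.pi
    refine Submodule.sum_mem _ fun i _ => ?_
    obtain ⟨p, hp⟩ : X ∣ z i - C ((z i).coeff 0) := by
      rw [X_dvd_iff, coeff_sub, coeff_C_zero, sub_self]
    have h2 : z i = X * p + C ((z i).coeff 0) := by linear_combination hp
    rw [h2, map_add, Matrix.add_mulVec]
    refine Submodule.add_mem_sup ?_ ?_
    · refine ⟨aeval A p *ᵥ w i, ?_⟩
      rw [Matrix.mulVecLin_apply, Matrix.mulVec_mulVec, map_mul, aeval_X]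
    · rw [aeval_C, Algebra.algebraMap_eq_smul_one, Matrix.smul_mulVec, Matrix.one_mulVec]
      exact Submodule.smul_mem _ _ (Submodule.subset_span ⟨i, rfl⟩)
  have h2 := Submodule.finrank_add_le_finrank_add_finrank (LinearMap.range A.mulVecLin)
    (Submodule.span k (Set.range w))
  rw [h1, finrank_top, Module.finrank_fin_fun] at h2
  have h3 : Module.finrank k (Submodule.span k (Set.range w)) ≤ r := by
    have := finrank_range_le_card (R := k) w
    rwa [Fintype.card_fin] at this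
  have h4 : Module.finrank k (LinearMap.range A.mulVecLin) = A.rank := rfl
  omega

theorem aeval_comm' {N : ℕ} {A B : Matrix (Fin N) (Fin N) k} (h : A * B = B * A) (p : k[X]) :
    aeval A p * B = B * aeval A p := by
  rw [aeval_eq_sum_range, Finset.mul_sum, Finset.sum_mul]
  refine Finset.sum_congr rfl fun i _ => ?_
  rw [mul_smul_comm, smul_mul_assoc, (Commute.pow_right (show Commute B A from h.symm) i).eq]

/-- the planar case, any `b ≥ 2`, `d = 1` or `X ∣ g` -/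
theorem planar [IsAlgClosed k] [CharZero k] {N b d : ℕ} (hN : N ≤ 12) (hb : 2 ≤ b)
    {A B C' : Matrix (Fin N) (Fin N) k} {v : Fin 3 → Fin N → k} (hA : Bz A v b d)
    (hT : CN ![A, B, C']) {g h t q u w g' h' r' t' q' u' w' : k[X]} (hg : X ∣ X ^ d * g)
    (hB : Rep A v B (Mz b d 1 g h 0 t q u w)) (hC : Rep A v C' (Mz b d 0 g' h' r' t' q' u' w'))
    (ht : t.coeff 0 ≠ 0) : Cl ![A, B, C'] := by
  have hAB : A * B = B * A := hT.1 0 1
  have hAC : A * C' = C' * A := hT.1 0 2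
  have hBC : B * C' = C' * B := hT.1 1 2
  have hN0 : 0 < N := by
    have := hA.card
    rw [Fin.sum_univ_three] at this
    have h3 : N = b + d + b + 2 := this
    omega
  obtain ⟨F, c, hF⟩ := exists_inv ht 2
  obtain ⟨g0, hg0⟩ := hg
  have m0 : A ∈ adj ![A, B, 0] := mem_adj ![A, B, 0] 0
  have m1 : B ∈ adj ![A, B, 0] := mem_adj ![A, B, 0] 1
  set E : Matrix (Fin N) (Fin N) k := B * B - aeval A g0 * A - aeval A h * B with hE
  have mE : E ∈ adj ![A, B, 0] :=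
    sub_mem (sub_mem (mul_mem m1 m1) (Two.aeval_mul_mem m0 m0 g0)) (Two.aeval_mul_mem m0 m1 h)
  have mD : aeval A (r' * F) * E ∈ adj ![A, B, 0] := Two.aeval_mul_mem m0 mE _
  -- the images of the generators
  have b0 : B *ᵥ v 0 = v 1 := by
    rw [hB.apply 0]
    unfold PB.pi
    rw [Fin.sum_univ_three]
    simp [Mz]
  have b1 : B *ᵥ v 1 = aeval A (X ^ d * g) *ᵥ v 0 + aeval A h *ᵥ v 1 + aeval A t *ᵥ v 2 := by
    rw [hB.apply 1]
    unfold PB.pi
    rw [Fin.sum_univ_three]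
    simp [Mz]
  have c0 : C' *ᵥ v 0 = aeval A r' *ᵥ v 2 := by
    rw [hC.apply 0]
    unfold PB.pi
    rw [Fin.sum_univ_three]
    simp [Mz]
  have e0 : E *ᵥ v 0 = aeval A t *ᵥ v 2 := by
    rw [hE, sub_mulVec, sub_mulVec, ← mulVec_mulVec, b0, b1, hg0, ← mulVec_mulVec (v 0) _ B, b0,
      mul_comm X g0, map_mul, aeval_X]
    abel
  have a2 : ∀ p : k[X], aeval A (X ^ 2 * p) *ᵥ v 2 = 0 := fun p =>
    act_of_dvd (hA.ann 2) (Dvd.intro _ rfl)
  have ft : ∀ p : k[X], aeval A (p * F) *ᵥ (aeval A t *ᵥ v 2) = aeval A p *ᵥ v 2 := by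
    intro p
    rw [mulVec_mulVec, ← map_mul]
    have : p * F * t = p + X ^ 2 * (p * c) := by linear_combination p * hF
    rw [this, map_add, add_mulVec, a2, add_zero]
  have hcA : ∀ p : k[X], ∀ M : Matrix (Fin N) (Fin N) k, A * M = M * A →
      aeval A p * M = M * aeval A p := fun p M hM => aeval_comm' hM p
  have hCD : C' = aeval A (r' * F) * E := by
    rw [← sub_eq_zero]
    set M := C' - aeval A (r' * F) * E with hM
    have hc3 : CN ![A, B, 0] := by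
      refine D8.cn3 hAB (by simp) (by simp) (hT.2 0) (hT.2 1) IsNilpotent.zero
    have hMA : A * M = M * A := by
      rw [hM, mul_sub, sub_mul, hAC, hc3.comm m0 mD]
    have hMB : B * M = M * B := by
      rw [hM, mul_sub, sub_mul, hBC, hc3.comm m1 mD]
    have hM0 : M *ᵥ v 0 = 0 := by
      rw [hM, sub_mulVec, c0, ← mulVec_mulVec, e0, ft, sub_self]
    have hM1 : M *ᵥ v 1 = 0 := by
      rw [← b0, mulVec_mulVec, ← hMB, ← mulVec_mulVec, hM0, mulVec_zero]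
    have hMp : ∀ (p : k[X]) (x : Fin N → k), M *ᵥ x = 0 → M *ᵥ (aeval A p *ᵥ x) = 0 := by
      intro p x hx
      rw [mulVec_mulVec, ← hcA p M hMA, ← mulVec_mulVec, hx, mulVec_zero]
    have hM2 : M *ᵥ v 2 = 0 := by
      have h1 : v 2 = aeval A (1 * F) *ᵥ (aeval A t *ᵥ v 2) := by
        rw [ft, map_one, one_mulVec]
      have h2 : M *ᵥ (aeval A t *ᵥ v 2) = 0 := by
        have h3 : aeval A t *ᵥ v 2 = B *ᵥ v 1 - aeval A (X ^ d * g) *ᵥ v 0 - aeval A h *ᵥ v 1 := by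
          rw [b1]
          abel
        rw [h3, mulVec_sub, mulVec_sub, hMp _ _ hM0, hMp _ _ hM1, mulVec_mulVec, ← hMB,
          ← mulVec_mulVec, hM1, mulVec_zero]
        simp
      rw [h1]
      exact hMp _ _ h2
    have h6 : ∀ x, M *ᵥ x = 0 := by
      intro x
      obtain ⟨z, rfl⟩ := hA.span x
      unfold PB.pi
      rw [Fin.sum_univ_three, mulVec_add, mulVec_add, hMp _ _ hM0, hMp _ _ hM1, hMp _ _ hM2]
      simp
    refine ext_mulVec fun x => ?_
    rw [h6, zero_mulVec]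
  refine Pl.cl_planar' hN0 hN hT (mem_adj ![A, B, C'] 0) (mem_adj ![A, B, C'] 1) (fun i => ?_)
    (le_rank_blk hA)
  fin_cases i
  · exact m0
  · exact m1
  · show C' ∈ adj ![A, B, 0]
    rw [hCD]
    exact mD

/-- case I in the frame `e1, B e1, e3` -/
theorem no_frame [IsAlgClosed k] [CharZero k] {ρ : ℕ → ℕ} {A B C' : Matrix (Fin 11) (Fin 11) k}
    {v : Fin 3 → Fin 11 → k} (hA : Bz A v 4 1) (hT : MaxR ρ ![A, B, C']) (h5 : ρ 5 = 0)
    {g h t q u w g' h' r' t' q' u' w' : k[X]}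
    (hB : Rep A v B (Mz 4 1 1 g h 0 t q u w)) (hC : Rep A v C' (Mz 4 1 0 g' h' r' t' q' u' w'))
    (hh : X ∣ h) (hw : X ∣ w) (hw' : X ∣ w') : False := by
  have hrel := (comm_mz hA le_rfl hB hC).1 (hT.cn.1 1 2)
  -- the constant term of `g`
  have hg : X ∣ g := by
    have h1 := polar5 (A := A) (B := B) (hT.cn.1 1 0) (fun s =>
      hT.pow_eq_zero (add_mem (mem_adj ![A, B, C'] 0)
        (SMulMemClass.smul_mem s (mem_adj ![A, B, C'] 1))) h5)
    have h2 := (((repA (A := A) (w := v)).mul ((repA (A := A) (w := v)).mul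
      ((repA (A := A) (w := v)).mul (hB.mul hB)))).eq_zero_iff hA).1 h1 0 0
    have h3 : ((X : k[X]) • (1 : Matrix (Fin 3) (Fin 3) k[X]) *
        ((X : k[X]) • (1 : Matrix (Fin 3) (Fin 3) k[X]) *
        ((X : k[X]) • (1 : Matrix (Fin 3) (Fin 3) k[X]) *
        (Mz 4 1 1 g h 0 t q u w * Mz 4 1 1 g h 0 t q u w)))) 0 0 = X ^ 4 * g := by
      simp only [Matrix.smul_mul, Matrix.one_mul, Matrix.smul_apply, smul_eq_mul,
        Matrix.mul_apply, Fin.sum_univ_three]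
      simp [Mz]
      ring
    rw [h3] at h2
    have h4 : (X : k[X]) ^ 5 ∣ X ^ 4 * g := h2
    rw [pow_succ, mul_dvd_mul_iff_left (pow_ne_zero 4 X_ne_zero)] at h4
    exact h4
  by_cases ht0 : t.coeff 0 = 0
  swap
  · exact hT.ncl (planar (by norm_num) (by norm_num) hA hT.cn (by rw [pow_one]; exact Dvd.intro _ rfl)
      hB hC ht0)
  have ht : X ∣ t := X_dvd_iff.2 ht0
  set p : Par k :=
    { g1 := g.coeff 1, g2 := g.coeff 2, g3 := g.coeff 3
      h1 := h.coeff 1, h2 := h.coeff 2, h3 := h.coeff 3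
      t := t.coeff 1, q0 := q.coeff 0, q1 := q.coeff 1, u0 := u.coeff 0, u1 := u.coeff 1
      w := w.coeff 1, r0 := r'.coeff 0, r1 := r'.coeff 1, a0 := q'.coeff 0, a1 := q'.coeff 1
      b0 := u'.coeff 0, b1 := u'.coeff 1, c := w'.coeff 1 } with hp
  have hBp : Rep A v B (MY p) := by
    unfold MY
    exact mz_congr hA (by norm_num) hB (by rw [sub_self]; exact dvd_zero _) (trunc3 hg) (trunc3 hh)
      (by rw [sub_self]; exact dvd_zero _) (trunc1 ht) (trunc2 q) (trunc2 u) (trunc1 hw)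
  have hR : X ^ 2 ∣ r' - (C p.r0 + C p.r1 * X) := trunc2 r'
  have hQ : X ^ 2 ∣ q - (C p.q0 + C p.q1 * X) := trunc2 q
  have hU : X ^ 2 ∣ u - (C p.u0 + C p.u1 * X) := trunc2 u
  have hW : X ^ 2 ∣ w - C p.w * X := trunc1 hw
  have hCp : Rep A v C' (MZ p) := by
    unfold MZ
    refine mz_congr hA (by norm_num) hC (by rw [sub_self]; exact dvd_zero _) ?_ ?_ hR ?_ (trunc2 q')
      (trunc2 u') (trunc1 hw')
    · obtain ⟨x, hx⟩ := hR
      obtain ⟨y, hy⟩ := hQ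
      obtain ⟨z, hz⟩ := hrel.e11
      refine ⟨z + (x * q + (C p.r0 + C p.r1 * X) * y), ?_⟩
      have hz' : (1 * g' - 0 * g) + X ^ 2 * (0 * q' - r' * q) = X ^ 4 * z := hz
      linear_combination hz' + X ^ 2 * q * hx + X ^ 2 * (C p.r0 + C p.r1 * X) * hy
    · obtain ⟨x, hx⟩ := hR
      obtain ⟨y, hy⟩ := hU
      obtain ⟨z, hz⟩ := hrel.e21
      refine ⟨z + (x * u + (C p.r0 + C p.r1 * X) * y), ?_⟩
      have hz' : (1 * h' - 0 * h) + X ^ 2 * (0 * u' - r' * u) = X ^ 4 * z := hz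
      linear_combination hz' + X ^ 2 * u * hx + X ^ 2 * (C p.r0 + C p.r1 * X) * hy
    · obtain ⟨x, hx⟩ := hR
      obtain ⟨y, hy⟩ := hW
      obtain ⟨z, hz⟩ := hrel.e31
      refine ⟨z + (x * w + (C p.r0 + C p.r1 * X) * y), ?_⟩
      linear_combination hz + w * hx + (C p.r0 + C p.r1 * X) * hy
  obtain ⟨U, hU'⟩ := W_unit hA
  have h1 := hT.conj (↑U⁻¹ : Matrix (Fin 11) (Fin 11) k) (U : Matrix (Fin 11) (Fin 11) k)
    U.inv_mul U.mul_inv
  have e : (fun i => (↑U⁻¹ : Matrix (Fin 11) (Fin 11) k) * (![A, B, C'] : Fin 3 → _) i *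
      (U : Matrix (Fin 11) (Fin 11) k)) = T p := by
    funext i
    fin_cases i
    · show (↑U⁻¹ : Matrix (Fin 11) (Fin 11) k) * A * U = J k
      rw [mul_assoc, hU', AW hA, ← hU', ← mul_assoc, U.inv_mul, one_mul]
    · show (↑U⁻¹ : Matrix (Fin 11) (Fin 11) k) * B * U = Y p
      rw [mul_assoc, hU', BW hA hBp, ← hU', ← mul_assoc, U.inv_mul, one_mul]
    · show (↑U⁻¹ : Matrix (Fin 11) (Fin 11) k) * C' * U = Z p
      rw [mul_assoc, hU', CW hA hCp, ← hU', ← mul_assoc, U.inv_mul, one_mul]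
  rw [e] at h1
  exact no_T h1 h5

theorem no_f [IsAlgClosed k] [CharZero k] {ρ : ℕ → ℕ} {A B C' : Matrix (Fin 11) (Fin 11) k}
    {v : Fin 3 → Fin 11 → k} (hA : Bz A v 4 1) (hT : MaxR ρ ![A, B, C']) (h5 : ρ 5 = 0)
    {f g h r t q u w f' g' h' r' t' q' u' w' : k[X]}
    (hB : Rep A v B (Mz 4 1 f g h r t q u w)) (hC : Rep A v C' (Mz 4 1 f' g' h' r' t' q' u' w'))
    (hh : X ∣ h) (hw : X ∣ w) (hh' : X ∣ h') (hw' : X ∣ w') (hf : f.coeff 0 ≠ 0) : False := by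
  obtain ⟨v1, p, g1, h1, t1, q1, u1, w1, g2, h2, r2, t2, q2, u2, w2, hA1, hB1, hC1, x1, x2, x3,
    x4, -, -, -, -⟩ := frame_one hA (by norm_num) hf hh hw hh' hw' hB hC
  have m0 : A ∈ adj ![A, B, C'] := mem_adj ![A, B, C'] 0
  have m1 : B ∈ adj ![A, B, C'] := mem_adj ![A, B, C'] 1
  have m2 : C' - aeval A p * B ∈ adj ![A, B, C'] :=
    sub_mem (mem_adj ![A, B, C'] 2) (Two.aeval_mul_mem m0 m1 p)
  have hT1 : MaxR ρ ![A, B, C' - aeval A p * B] := by
    refine hT.change (D8.cn3 (hT.cn.comm m0 m1) (hT.cn.comm m0 m2) (hT.cn.comm m1 m2)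
      (hT.cn.nilp m0) (hT.cn.nilp m1) (hT.cn.nilp m2)) fun i => ?_
    have n0 : A ∈ adj ![A, B, C' - aeval A p * B] := mem_adj ![A, B, C' - aeval A p * B] 0
    have n1 : B ∈ adj ![A, B, C' - aeval A p * B] := mem_adj ![A, B, C' - aeval A p * B] 1
    fin_cases i
    · exact n0
    · exact n1
    · have := add_mem (mem_adj ![A, B, C' - aeval A p * B] 2) (Two.aeval_mul_mem n0 n1 p)
      have e : (![A, B, C' - aeval A p * B] : Fin 3 → _) 2 + aeval A p * B = C' := by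
        show C' - aeval A p * B + aeval A p * B = C'
        rw [sub_add_cancel]
      rwa [e] at this
  exact no_frame hA1 hT1 h5 hB1 hC1 x1 x2 x4

/-- **case I of type (5, 4, 2)** -/
theorem no_caseI [IsAlgClosed k] [CharZero k] {N : ℕ} {ρ : ℕ → ℕ}
    {A B C' : Matrix (Fin N) (Fin N) k}
    {v : Fin 3 → Fin N → k} (hA : Bz A v 4 1) (hT : MaxR ρ ![A, B, C']) (h5 : ρ 5 = 0)
    {f g h r t q u w f' g' h' r' t' q' u' w' : k[X]}
    (hB : Rep A v B (Mz 4 1 f g h r t q u w)) (hC : Rep A v C' (Mz 4 1 f' g' h' r' t' q' u' w'))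
    (hh : X ∣ h) (hw : X ∣ w) (hh' : X ∣ h') (hw' : X ∣ w')
    (hf : f.coeff 0 ≠ 0 ∨ f'.coeff 0 ≠ 0 ∨ g.coeff 0 ≠ 0 ∨ g'.coeff 0 ≠ 0) : False := by
  have hN : N = 11 := by
    have := hA.card
    rw [Fin.sum_univ_three] at this
    exact this
  subst hN
  have hswap : ∀ {A B C' : Matrix (Fin 11) (Fin 11) k}, MaxR ρ ![A, B, C'] →
      MaxR ρ ![A, C', B] := by
    intro A B C' hT
    refine hT.change (D8.cn3 (hT.cn.1 0 2) (hT.cn.1 0 1) (hT.cn.1 2 1) (hT.cn.2 0) (hT.cn.2 2)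
      (hT.cn.2 1)) fun i => ?_
    fin_cases i
    · exact mem_adj ![A, C', B] 0
    · exact mem_adj ![A, C', B] 2
    · exact mem_adj ![A, C', B] 1
  have htr : MaxR ρ ![Aᵀ, Bᵀ, C'ᵀ] := by
    have h1 := hT.transpose
    have e : (fun i => ((![A, B, C'] : Fin 3 → _) i)ᵀ) = ![Aᵀ, Bᵀ, C'ᵀ] := by
      funext i
      fin_cases i <;> rfl
    rwa [e] at h1
  obtain ⟨v', hA', hd⟩ := mz_dual hA (by norm_num)
  rcases hf with hf | hf | hf | hf
  · exact no_f hA hT h5 hB hC hh hw hh' hw' hf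
  · exact no_f hA (hswap hT) h5 hC hB hh' hw' hh hw hf
  · exact no_f hA' htr h5 (hd _ _ _ _ _ _ _ _ _ hB) (hd _ _ _ _ _ _ _ _ _ hC) hh hw hh' hw' hf
  · exact no_f hA' (hswap htr) h5 (hd _ _ _ _ _ _ _ _ _ hC) (hd _ _ _ _ _ _ _ _ _ hB) hh' hw'
      hh hw hf

end Pool.Agent.Lib.D13.I542
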