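import Pool.Agent.Lib.D13.PBfam

/-!
# MP_5dcbc3_ag: Jordan blocks of sizes 6, 4, 2, normalised triples with `y v1 = v2`

`x = J`, `y : v1 -> v2, v2 -> x^2 g v1 + h v2 + t v3, v3 -> x^4 q v1 + x^2 u v2 + w v3` with
`t = x t1`, and `z : v1 -> r v3, v3 -> x^4 q' v1 + x^2 u' v2 + w' v3` (`z v2 = y z v1`).
-/

set_option linter.unusedSimpArgs false

namespace Pool.Agent.Lib.D13

open Matrix Polynomial Pool.Agent.Lib.Q5dc Pool.Agent.Lib.D7 Pool.Agent.Lib.D8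

namespace I642

/-- the coefficients; `qq`, `uu`, `ww` are the letters `q'`, `u'`, `w'` of `z` -/
@[ext]
structure Par (k : Type*) where
  r0 : k
  r1 : k
  g0 : k
  g1 : k
  g2 : k
  g3 : k
  h1 : k
  h2 : k
  h3 : k
  t1 : k
  q0 : k
  q1 : k
  u0 : k
  u1 : k
  w1 : k
  qq0 : k
  qq1 : k
  uu0 : k
  uu1 : k
  ww1 : k

variable {k : Type*} [Field k]

/-- the matrix of polynomials of `y` -/
noncomputable def MB (x : Par k) : Matrix (Fin 3) (Fin 3) k[X] :=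
  !![0, X ^ 2 * (C x.g0 + C x.g1 * X + C x.g2 * X ^ 2 + C x.g3 * X ^ 3),
      X ^ 4 * (C x.q0 + C x.q1 * X);
    1, C x.h1 * X + C x.h2 * X ^ 2 + C x.h3 * X ^ 3, X ^ 2 * (C x.u0 + C x.u1 * X);
    0, C x.t1 * X, C x.w1 * X]

/-- the matrix of polynomials of `z` -/
noncomputable def MC (x : Par k) : Matrix (Fin 3) (Fin 3) k[X] :=
  !![0, X ^ 4 * ((C x.r0 + C x.r1 * X) * (C x.q0 + C x.q1 * X)), X ^ 4 * (C x.qq0 + C x.qq1 * X);
    0, X ^ 2 * ((C x.r0 + C x.r1 * X) * (C x.u0 + C x.u1 * X)), X ^ 2 * (C x.uu0 + C x.uu1 * X);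
    C x.r0 + C x.r1 * X, C (x.r0 * x.w1) * X, C x.ww1 * X]

/-- the conditions for these two matrices to commute -/
structure Rel (x : Par k) : Prop where
  a0 : x.r0 * x.u0 * x.g0 = 0
  a1 : x.r0 * ((x.h1 - x.w1) * x.q0 - x.u0 * x.g1 - x.u1 * x.g0) - x.r1 * x.u0 * x.g0 +
    x.t1 * x.qq0 = 0
  b1 : x.t1 * x.uu0 = x.r0 * x.w1 * x.u0
  c0 : x.uu0 * x.g0 = 0
  c1 : x.uu0 * x.g1 + x.uu1 * x.g0 + x.ww1 * x.q0 - x.w1 * x.qq0 = 0
  d1 : x.uu0 * (x.w1 - x.h1) = x.ww1 * x.u0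

theorem dvdP (e : ℕ) (a : k) (r : k[X]) : (X : k[X]) ^ (e + 1) ∣ X ^ e * (C a + X * r) ↔
    a = 0 := by
  rw [pow_succ, mul_dvd_mul_iff_left (pow_ne_zero e X_ne_zero), X_dvd_iff]
  simp

theorem dvdP2 (e : ℕ) (a b : k) (r : k[X]) :
    (X : k[X]) ^ (e + 2) ∣ X ^ e * (C a + C b * X + X ^ 2 * r) ↔ a = 0 ∧ b = 0 := by
  rw [pow_add, mul_dvd_mul_iff_left (pow_ne_zero e X_ne_zero), X_pow_dvd_iff]
  constructor
  · intro h
    have h0 := h 0 (by norm_num)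
    have h1 := h 1 (by norm_num)
    refine ⟨?_, ?_⟩
    · simpa [coeff_X_pow_mul', coeff_X, coeff_C] using h0
    · simpa [coeff_X_pow_mul', coeff_X, coeff_C] using h1
  · rintro ⟨rfl, rfl⟩ d hd
    simp only [map_zero, zero_mul, zero_add, coeff_X_pow_mul', if_neg (not_le.2 hd)]

variable {N : ℕ} {A B C' : Matrix (Fin N) (Fin N) k} {w : Fin 3 → Fin N → k} {x : Par k}

theorem adm_iff (P : Matrix (Fin 3) (Fin 3) k[X]) :
    PB.Adm ![6, 4, 2] P ↔ X ^ 2 ∣ P 0 1 ∧ X ^ 4 ∣ P 0 2 ∧ X ^ 2 ∣ P 1 2 := by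
  have hX : ∀ e : ℕ, (X : k[X]) ^ e ≠ 0 := fun e => pow_ne_zero e X_ne_zero
  have h1 : ∀ p, ((X : k[X]) ^ 6 ∣ X ^ 4 * p ↔ X ^ 2 ∣ p) := by
    intro p
    rw [show 6 = 4 + 2 by norm_num, pow_add, mul_dvd_mul_iff_left (hX 4)]
  have h2 : ∀ p, ((X : k[X]) ^ 6 ∣ X ^ 2 * p ↔ X ^ 4 ∣ p) := by
    intro p
    rw [show 6 = 2 + 4 by norm_num, pow_add, mul_dvd_mul_iff_left (hX 2)]
  have h3 : ∀ p, ((X : k[X]) ^ 4 ∣ X ^ 2 * p ↔ X ^ 2 ∣ p) := by
    intro p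
    rw [show 4 = 2 + 2 by norm_num, pow_add, mul_dvd_mul_iff_left (hX 2)]
  have hle : ∀ e e' : ℕ, e ≤ e' → ∀ p : k[X], X ^ e ∣ X ^ e' * p := fun e e' he p =>
    (pow_dvd_pow X he).mul_right p
  constructor
  · intro h
    exact ⟨(h1 _).1 (h 0 1), (h2 _).1 (h 0 2), (h3 _).1 (h 1 2)⟩
  · rintro ⟨h01, h02, h12⟩ i j
    fin_cases i <;> fin_cases j
    · exact hle _ _ le_rfl _
    · exact (h1 _).2 h01
    · exact (h2 _).2 h02
    · exact hle _ _ (show 4 ≤ 6 by norm_num) _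
    · exact hle _ _ le_rfl _
    · exact (h3 _).2 h12
    · exact hle _ _ (show 2 ≤ 6 by norm_num) _
    · exact hle _ _ (show 2 ≤ 4 by norm_num) _
    · exact hle _ _ le_rfl _

theorem adm_b (x : Par k) : PB.Adm ![6, 4, 2] (MB x) :=
  (adm_iff _).2 ⟨Dvd.intro _ rfl, Dvd.intro _ rfl, Dvd.intro _ rfl⟩

theorem adm_c (x : Par k) : PB.Adm ![6, 4, 2] (MC x) :=
  (adm_iff _).2 ⟨(pow_dvd_pow X (show 2 ≤ 4 by norm_num)).mul_right _, Dvd.intro _ rfl,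
    Dvd.intro _ rfl⟩

theorem ker_iff (P : Matrix (Fin 3) (Fin 3) k[X]) :
    PB.Ker ![6, 4, 2] P ↔ (X ^ 6 ∣ P 0 0 ∧ X ^ 6 ∣ P 0 1 ∧ X ^ 6 ∣ P 0 2) ∧
      (X ^ 4 ∣ P 1 0 ∧ X ^ 4 ∣ P 1 1 ∧ X ^ 4 ∣ P 1 2) ∧
      (X ^ 2 ∣ P 2 0 ∧ X ^ 2 ∣ P 2 1 ∧ X ^ 2 ∣ P 2 2) := by
  constructor
  · intro h
    exact ⟨⟨h 0 0, h 0 1, h 0 2⟩, ⟨h 1 0, h 1 1, h 1 2⟩, h 2 0, h 2 1, h 2 2⟩
  · rintro ⟨⟨h00, h01, h02⟩, ⟨h10, h11, h12⟩, h20, h21, h22⟩ i j
    fin_cases i <;> fin_cases j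
    · exact h00
    · exact h01
    · exact h02
    · exact h10
    · exact h11
    · exact h12
    · exact h20
    · exact h21
    · exact h22

/-- the two matrices commute if and only if the relations hold -/
theorem comm_m (hA : PB.BlkB A w ![6, 4, 2]) (hB : PB.Rep A w B (MB x))
    (hC : PB.Rep A w C' (MC x)) : B * C' = C' * B ↔ Rel x := by
  rw [PB.comm_iff hA hB hC, ker_iff]
  obtain ⟨r0, r1, g0, g1, g2, g3, h1, h2, h3, t1, q0, q1, u0, u1, w1, qq0, qq1, uu0, uu1, ww1⟩ := x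
  set D := MB ⟨r0, r1, g0, g1, g2, g3, h1, h2, h3, t1, q0, q1, u0, u1, w1, qq0, qq1, uu0, uu1,
    ww1⟩ * MC ⟨r0, r1, g0, g1, g2, g3, h1, h2, h3, t1, q0, q1, u0, u1, w1, qq0, qq1, uu0, uu1,
    ww1⟩ - MC ⟨r0, r1, g0, g1, g2, g3, h1, h2, h3, t1, q0, q1, u0, u1, w1, qq0, qq1, uu0, uu1,
    ww1⟩ * MB ⟨r0, r1, g0, g1, g2, g3, h1, h2, h3, t1, q0, q1, u0, u1, w1, qq0, qq1, uu0, uu1,
    ww1⟩ with hD
  have e00 : D 0 0 = 0 := by
    rw [hD]
    simp only [MB, MC, Matrix.sub_apply, Matrix.mul_apply, Fin.sum_univ_three]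
    simp
    ring
  have e10 : D 1 0 = 0 := by
    rw [hD]
    simp only [MB, MC, Matrix.sub_apply, Matrix.mul_apply, Fin.sum_univ_three]
    simp
    ring
  have e20 : D 2 0 = X ^ 2 * C (r1 * w1) := by
    rw [hD]
    simp only [MB, MC, Matrix.sub_apply, Matrix.mul_apply, Fin.sum_univ_three]
    simp
    ring
  have e01 : ∃ r, D 0 1 = X ^ 4 * (C (g0 * r0 * u0) +
      C (g0 * r0 * u1 + g0 * r1 * u0 + g1 * r0 * u0 - h1 * q0 * r0 + q0 * r0 * w1 - qq0 * t1) * X +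
        X ^ 2 * r) := by
    refine ⟨C (g0 * r1 * u1 + g1 * r0 * u1 + g1 * r1 * u0 + g2 * r0 * u0 - h1 * q0 * r1 -
      h1 * q1 * r0 - h2 * q0 * r0 + q1 * r0 * w1 - qq1 * t1) + C (g1 * r1 * u1 + g2 * r0 * u1 +
      g2 * r1 * u0 + g3 * r0 * u0 - h1 * q1 * r1 - h2 * q0 * r1 - h2 * q1 * r0 - h3 * q0 * r0) * X +
      C (g2 * r1 * u1 + g3 * r0 * u1 + g3 * r1 * u0 - h2 * q1 * r1 - h3 * q0 * r1 -
      h3 * q1 * r0) * X ^ 2 + C (g3 * r1 * u1 - h3 * q1 * r1) * X ^ 3, ?_⟩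
    rw [hD]
    simp only [MB, MC, Matrix.sub_apply, Matrix.mul_apply, Fin.sum_univ_three]
    simp
    ring
  have e02 : ∃ r, D 0 2 = X ^ 4 * (C (g0 * uu0) +
      C (g0 * uu1 + g1 * uu0 + q0 * ww1 - qq0 * w1) * X + X ^ 2 * r) := by
    refine ⟨C (g1 * uu1 + g2 * uu0 - q0 * r0 * u0 + q1 * ww1 - qq1 * w1) + C (g2 * uu1 + g3 * uu0 -
      q0 * r0 * u1 - q0 * r1 * u0 - q1 * r0 * u0) * X + C (g3 * uu1 - q0 * r1 * u1 - q1 * r0 * u1 -
      q1 * r1 * u0) * X ^ 2 + C (-(q1 * r1 * u1)) * X ^ 3, ?_⟩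
    rw [hD]
    simp only [MB, MC, Matrix.sub_apply, Matrix.mul_apply, Fin.sum_univ_three]
    simp
    ring
  have e11 : ∃ r, D 1 1 = X ^ 3 * (C (r0 * u0 * w1 - t1 * uu0) + X * r) := by
    refine ⟨C (q0 * r0 + r0 * u1 * w1 - t1 * uu1) + C (q0 * r1 + q1 * r0) * X +
      C (q1 * r1) * X ^ 2, ?_⟩
    rw [hD]
    simp only [MB, MC, Matrix.sub_apply, Matrix.mul_apply, Fin.sum_univ_three]
    simp
    ring
  have e12 : ∃ r, D 1 2 = X ^ 3 * (C (h1 * uu0 + u0 * ww1 - uu0 * w1) + X * r) := by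
    refine ⟨C (h1 * uu1 + h2 * uu0 + qq0 - r0 * u0 ^ 2 + u1 * ww1 - uu1 * w1) + C (h2 * uu1 +
      h3 * uu0 + qq1 - (r0 * u0 * u1 + r0 * u0 * u1) - r1 * u0 ^ 2) * X + C (h3 * uu1 -
      r0 * u1 ^ 2 - (r1 * u0 * u1 + r1 * u0 * u1)) * X ^ 2 + C (-(r1 * u1 ^ 2)) * X ^ 3, ?_⟩
    rw [hD]
    simp only [MB, MC, Matrix.sub_apply, Matrix.mul_apply, Fin.sum_univ_three]
    simp
    ring
  have e21 : ∃ r, D 2 1 = X ^ 2 * r := by
    refine ⟨C (-(g0 * r0) - h1 * r0 * w1 + r0 * w1 ^ 2 - t1 * ww1) + C (-(g0 * r1) - g1 * r0 -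
      h2 * r0 * w1 + r0 * t1 * u0) * X + C (-(g1 * r1) - g2 * r0 - h3 * r0 * w1 + r0 * t1 * u1 +
      r1 * t1 * u0) * X ^ 2 + C (-(g2 * r1) - g3 * r0 + r1 * t1 * u1) * X ^ 3 +
      C (-(g3 * r1)) * X ^ 4, ?_⟩
    rw [hD]
    simp only [MB, MC, Matrix.sub_apply, Matrix.mul_apply, Fin.sum_univ_three]
    simp
    ring
  have e22 : ∃ r, D 2 2 = X ^ 2 * r := by
    refine ⟨C (-(r0 * u0 * w1) + t1 * uu0) * X + C (-(q0 * r0) - r0 * u1 * w1 +
      t1 * uu1) * X ^ 2 + C (-(q0 * r1) - q1 * r0) * X ^ 3 + C (-(q1 * r1)) * X ^ 4, ?_⟩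
    rw [hD]
    simp only [MB, MC, Matrix.sub_apply, Matrix.mul_apply, Fin.sum_univ_three]
    simp
    ring
  obtain ⟨r01, e01⟩ := e01
  obtain ⟨r02, e02⟩ := e02
  obtain ⟨r11, e11⟩ := e11
  obtain ⟨r12, e12⟩ := e12
  obtain ⟨r21, e21⟩ := e21
  obtain ⟨r22, e22⟩ := e22
  rw [e00, e10, e20, e01, e02, e11, e12, e21, e22, dvdP2 4, dvdP2 4, dvdP 3, dvdP 3]
  constructor
  · rintro ⟨⟨-, ⟨a1, a2⟩, a3, a4⟩, ⟨-, b1, b2⟩, -⟩
    constructor <;> simp only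
    · linear_combination a1
    · linear_combination -a2
    · linear_combination -b1
    · linear_combination a3
    · linear_combination a4
    · linear_combination -b2
  · rintro ⟨a0, a1, b1, c0, c1, d1⟩
    simp only at a0 a1 b1 c0 c1 d1
    refine ⟨⟨dvd_zero _, ⟨?_, ?_⟩, ?_, ?_⟩, ⟨dvd_zero _, ?_, ?_⟩, Dvd.intro _ rfl, Dvd.intro _ rfl,
      Dvd.intro _ rfl⟩
    · linear_combination a0
    · linear_combination -a1
    · linear_combination c0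
    · linear_combination c1
    · linear_combination -b1
    · linear_combination -d1

/-- nilpotency -/
theorem nilp_b (hA : PB.BlkB A w ![6, 4, 2]) (hB : PB.Rep A w B (MB x)) : IsNilpotent B := by
  refine PB.nilp_const hA hB (e := 3) ?_
  intro i j
  rw [X_dvd_iff, coeff_zero_eq_eval_zero]
  have h1 : eval 0 ((MB x ^ 3) i j) =
      ((!![0, 0, 0; 1, 0, 0; 0, 0, 0] : Matrix (Fin 3) (Fin 3) k) ^ 3) i j := by
    have h2 : ((Polynomial.evalRingHom (0 : k)).mapMatrix (MB x) : Matrix (Fin 3) (Fin 3) k) =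
        !![0, 0, 0; 1, 0, 0; 0, 0, 0] := by
      ext i j
      fin_cases i <;> fin_cases j <;> simp [MB]
    rw [← h2, ← map_pow]
    rfl
  rw [h1, pow_succ, pow_two]
  fin_cases i <;> fin_cases j <;> simp [Matrix.mul_apply, Fin.sum_univ_three]

theorem nilp_c (hA : PB.BlkB A w ![6, 4, 2]) (hC : PB.Rep A w C' (MC x)) : IsNilpotent C' := by
  refine PB.nilp_const hA hC (e := 3) ?_
  intro i j
  rw [X_dvd_iff, coeff_zero_eq_eval_zero]
  have h1 : eval 0 ((MC x ^ 3) i j) =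
      ((!![0, 0, 0; 0, 0, 0; x.r0, 0, 0] : Matrix (Fin 3) (Fin 3) k) ^ 3) i j := by
    have h2 : ((Polynomial.evalRingHom (0 : k)).mapMatrix (MC x) : Matrix (Fin 3) (Fin 3) k) =
        !![0, 0, 0; 0, 0, 0; x.r0, 0, 0] := by
      ext i j
      fin_cases i <;> fin_cases j <;> simp [MC]
    rw [← h2, ← map_pow]
    rfl
  rw [h1, pow_succ, pow_two]
  fin_cases i <;> fin_cases j <;> simp [Matrix.mul_apply, Fin.sum_univ_three]

/-- a maximal bad triple -/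
def Bad1 (x : Par k) : Prop :=
  ∃ (N : ℕ) (A B C' : Matrix (Fin N) (Fin N) k) (w : Fin 3 → Fin N → k),
    PB.BlkB A w ![6, 4, 2] ∧ PB.Rep A w B (MB x) ∧ PB.Rep A w C' (MC x) ∧
      MaxR (fun i => (A ^ i).rank) ![A, B, C']

/-- polynomial curves of coefficients -/
structure PC (c : k → Par k) : Prop where
  r0 : IsPoly fun s => (c s).r0
  r1 : IsPoly fun s => (c s).r1
  g0 : IsPoly fun s => (c s).g0
  g1 : IsPoly fun s => (c s).g1
  g2 : IsPoly fun s => (c s).g2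
  g3 : IsPoly fun s => (c s).g3
  h1 : IsPoly fun s => (c s).h1
  h2 : IsPoly fun s => (c s).h2
  h3 : IsPoly fun s => (c s).h3
  t1 : IsPoly fun s => (c s).t1
  q0 : IsPoly fun s => (c s).q0
  q1 : IsPoly fun s => (c s).q1
  u0 : IsPoly fun s => (c s).u0
  u1 : IsPoly fun s => (c s).u1
  w1 : IsPoly fun s => (c s).w1
  qq0 : IsPoly fun s => (c s).qq0
  qq1 : IsPoly fun s => (c s).qq1
  uu0 : IsPoly fun s => (c s).uu0
  uu1 : IsPoly fun s => (c s).uu1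
  ww1 : IsPoly fun s => (c s).ww1

/-- polynomials with polynomial coefficients -/
theorem PCp.zero : ∀ m, IsPoly fun _ : k => (0 : k[X]).coeff m := fun m => by
  simpa using D7.IsPoly.const (0 : k)

theorem PCp.one : ∀ m, IsPoly fun _ : k => (1 : k[X]).coeff m := fun _ => D7.IsPoly.const _

theorem PCp.C {f : k → k} (hf : IsPoly f) : ∀ m, IsPoly fun s => (C (f s) : k[X]).coeff m := by
  intro m
  simp only [coeff_C]
  by_cases h : m = 0
  · simpa [h] using hf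
  · simpa [h] using D7.IsPoly.const (0 : k)

theorem PCp.add {f g : k → k[X]} (hf : ∀ m, IsPoly fun s => (f s).coeff m)
    (hg : ∀ m, IsPoly fun s => (g s).coeff m) : ∀ m, IsPoly fun s => (f s + g s).coeff m := by
  intro m
  simp only [coeff_add]
  exact (hf m).add (hg m)

theorem PCp.mulX {f : k → k[X]} (hf : ∀ m, IsPoly fun s => (f s).coeff m) (e : ℕ) :
    ∀ m, IsPoly fun s => (f s * X ^ e).coeff m := by
  intro m
  simp only [coeff_mul_X_pow']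
  by_cases h : e ≤ m
  · simpa [h] using hf (m - e)
  · simpa [h] using D7.IsPoly.const (0 : k)

theorem PCp.mulX1 {f : k → k[X]} (hf : ∀ m, IsPoly fun s => (f s).coeff m) :
    ∀ m, IsPoly fun s => (f s * X).coeff m := by
  simpa only [pow_one] using PCp.mulX hf 1

theorem PCp.Xmul {f : k → k[X]} (hf : ∀ m, IsPoly fun s => (f s).coeff m) (e : ℕ) :
    ∀ m, IsPoly fun s => (X ^ e * f s).coeff m := by
  simpa only [mul_comm] using PCp.mulX hf e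

theorem PCp.mul {f g : k → k[X]} (hf : ∀ m, IsPoly fun s => (f s).coeff m)
    (hg : ∀ m, IsPoly fun s => (g s).coeff m) : ∀ m, IsPoly fun s => (f s * g s).coeff m := by
  intro m
  simp only [coeff_mul]
  exact PB.isPoly_sum' _ fun a _ => (hf a.1).mul (hg a.2)

theorem PC.mb {c : k → Par k} (hc : PC c) : ∀ i j m, IsPoly fun s => (MB (c s) i j).coeff m := by
  intro i j
  fin_cases i <;> fin_cases j
  · exact PCp.zero
  · exact PCp.Xmul (PCp.add (PCp.add (PCp.add (PCp.C hc.g0) (PCp.mulX1 (PCp.C hc.g1)))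
      (PCp.mulX (PCp.C hc.g2) 2)) (PCp.mulX (PCp.C hc.g3) 3)) 2
  · exact PCp.Xmul (PCp.add (PCp.C hc.q0) (PCp.mulX1 (PCp.C hc.q1))) 4
  · exact PCp.one
  · exact PCp.add (PCp.add (PCp.mulX1 (PCp.C hc.h1)) (PCp.mulX (PCp.C hc.h2) 2))
      (PCp.mulX (PCp.C hc.h3) 3)
  · exact PCp.Xmul (PCp.add (PCp.C hc.u0) (PCp.mulX1 (PCp.C hc.u1))) 2
  · exact PCp.zero
  · exact PCp.mulX1 (PCp.C hc.t1)
  · exact PCp.mulX1 (PCp.C hc.w1)

theorem PC.mc {c : k → Par k} (hc : PC c) : ∀ i j m, IsPoly fun s => (MC (c s) i j).coeff m := by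
  intro i j
  fin_cases i <;> fin_cases j
  · exact PCp.zero
  · exact PCp.Xmul (PCp.mul (PCp.add (PCp.C hc.r0) (PCp.mulX1 (PCp.C hc.r1)))
      (PCp.add (PCp.C hc.q0) (PCp.mulX1 (PCp.C hc.q1)))) 4
  · exact PCp.Xmul (PCp.add (PCp.C hc.qq0) (PCp.mulX1 (PCp.C hc.qq1))) 4
  · exact PCp.zero
  · exact PCp.Xmul (PCp.mul (PCp.add (PCp.C hc.r0) (PCp.mulX1 (PCp.C hc.r1)))
      (PCp.add (PCp.C hc.u0) (PCp.mulX1 (PCp.C hc.u1)))) 2
  · exact PCp.Xmul (PCp.add (PCp.C hc.uu0) (PCp.mulX1 (PCp.C hc.uu1))) 2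
  · exact PCp.add (PCp.C hc.r0) (PCp.mulX1 (PCp.C hc.r1))
  · exact PCp.mulX1 (PCp.C (hc.r0.mul hc.w1))
  · exact PCp.mulX1 (PCp.C hc.ww1)

/-- bad coefficients satisfy the relations -/
theorem Bad1.rel (h : Bad1 x) : Rel x := by
  obtain ⟨N, A, B, C', w, hA, hB, hC, hM⟩ := h
  exact (comm_m hA hB hC).1 (hM.cn.1 1 2)

/-- deformation along a polynomial curve of coefficients -/
theorem Bad1.curve [Infinite k] {c : k → Par k} (hc : PC c) {E : Set k} (hE : E.Finite)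
    (hrel : ∀ s ∉ E, Rel (c s)) (h : Bad1 (c 0)) : {s | ¬ Bad1 (c s)}.Finite := by
  obtain ⟨N, A, B, C', w, hA, hB, hC, hM⟩ := h
  obtain ⟨Bs, hBp, hBr, hB0⟩ := PB.exists_family_at hA (fun s => MB (c s)) (fun s => adm_b _)
    hc.mb hB
  obtain ⟨Cs, hCp, hCr, hC0⟩ := PB.exists_family_at hA (fun s => MC (c s)) (fun s => adm_c _)
    hc.mc hC
  have hpf : PolyFam fun s => ![A, Bs s, Cs s] := by
    intro i x y
    fin_cases i
    · exact D7.IsPoly.const _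
    · exact hBp x y
    · exact hCp x y
  obtain ⟨E', hE', h1⟩ := hM.deform (fun s => ![A, Bs s, Cs s]) hpf
    (by simp only [hB0, hC0]) hE (fun s hs => PB.cn3 hA (PB.comm_A hA (hBr s))
      (PB.comm_A hA (hCr s)) ((comm_m hA (hBr s) (hCr s)).2 (hrel s hs)) (nilp_b hA (hBr s))
      (nilp_c hA (hCr s)))
  refine hE'.subset fun s hs => ?_
  by_contra hs'
  exact hs ⟨N, A, Bs s, Cs s, w, hA, hBr s, hCr s, h1 s hs'⟩

/-- if infinitely many members of a polynomial curve are not bad, no member is -/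
theorem Bad1.false_of_curve [Infinite k] {c : k → Par k} (hc : PC c) {E : Set k} (hE : E.Finite)
    (hrel : ∀ s ∉ E, Rel (c s)) (hn : {s | ¬ Bad1 (c s)}.Infinite) : ¬ Bad1 (c 0) :=
  fun h => hn (h.curve hc hE hrel)

/-- the basis vectors -/
noncomputable def e (A : Matrix (Fin N) (Fin N) k) (w : Fin 3 → Fin N → k) (i : Fin 3) (m : ℕ) :
    Fin N → k := A ^ m *ᵥ w i

/-- the action of the three matrices on the basis -/
structure Act (x : Par k) (A B C' : Matrix (Fin N) (Fin N) k) (w : Fin 3 → Fin N → k) : Prop where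
  z0 : ∀ m, 6 ≤ m → e A w 0 m = 0
  z1 : ∀ m, 4 ≤ m → e A w 1 m = 0
  z2 : ∀ m, 2 ≤ m → e A w 2 m = 0
  a : ∀ i m, A *ᵥ e A w i m = e A w i (m + 1)
  b0 : ∀ m, B *ᵥ e A w 0 m = e A w 1 m
  b1 : ∀ m, B *ᵥ e A w 1 m = x.g0 • e A w 0 (m + 2) + x.g1 • e A w 0 (m + 3) +
    x.g2 • e A w 0 (m + 4) + x.g3 • e A w 0 (m + 5) + x.h1 • e A w 1 (m + 1) +
    x.h2 • e A w 1 (m + 2) + x.h3 • e A w 1 (m + 3) + x.t1 • e A w 2 (m + 1)
  b2 : ∀ m, B *ᵥ e A w 2 m = x.q0 • e A w 0 (m + 4) + x.q1 • e A w 0 (m + 5) +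
    x.u0 • e A w 1 (m + 2) + x.u1 • e A w 1 (m + 3) + x.w1 • e A w 2 (m + 1)
  c0 : ∀ m, C' *ᵥ e A w 0 m = x.r0 • e A w 2 m + x.r1 • e A w 2 (m + 1)
  c1 : ∀ m, C' *ᵥ e A w 1 m = (x.r0 * x.q0) • e A w 0 (m + 4) +
    (x.r0 * x.q1 + x.r1 * x.q0) • e A w 0 (m + 5) + (x.r0 * x.u0) • e A w 1 (m + 2) +
    (x.r0 * x.u1 + x.r1 * x.u0) • e A w 1 (m + 3) + (x.r0 * x.w1) • e A w 2 (m + 1)
  c2 : ∀ m, C' *ᵥ e A w 2 m = x.qq0 • e A w 0 (m + 4) + x.qq1 • e A w 0 (m + 5) +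
    x.uu0 • e A w 1 (m + 2) + x.uu1 • e A w 1 (m + 3) + x.ww1 • e A w 2 (m + 1)
  sp : ∀ S : Submodule k (Fin N → k), (∀ i m, e A w i m ∈ S) → S = ⊤

theorem e_add (i : Fin 3) (m n : ℕ) : A ^ m *ᵥ (A ^ n *ᵥ w i) = e A w i (m + n) := by
  rw [Matrix.mulVec_mulVec, ← pow_add]
  rfl

theorem act (hA : PB.BlkB A w ![6, 4, 2]) (hB : PB.Rep A w B (MB x))
    (hC : PB.Rep A w C' (MC x)) : Act x A B C' w := by
  have z0 : ∀ m, 6 ≤ m → e A w 0 m = 0 := by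
    intro m hm
    obtain ⟨j, rfl⟩ := Nat.exists_eq_add_of_le hm
    rw [add_comm, ← e_add]
    have : A ^ 6 *ᵥ w 0 = 0 := hA.ann 0
    rw [this, Matrix.mulVec_zero]
  have z1 : ∀ m, 4 ≤ m → e A w 1 m = 0 := by
    intro m hm
    obtain ⟨j, rfl⟩ := Nat.exists_eq_add_of_le hm
    rw [add_comm, ← e_add]
    have : A ^ 4 *ᵥ w 1 = 0 := hA.ann 1
    rw [this, Matrix.mulVec_zero]
  have z2 : ∀ m, 2 ≤ m → e A w 2 m = 0 := by
    intro m hm
    obtain ⟨j, rfl⟩ := Nat.exists_eq_add_of_le hm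
    rw [add_comm, ← e_add]
    have : A ^ 2 *ᵥ w 2 = 0 := hA.ann 2
    rw [this, Matrix.mulVec_zero]
  have hcm : ∀ (M : Matrix (Fin N) (Fin N) k), A * M = M * A → ∀ i m,
      M *ᵥ e A w i m = A ^ m *ᵥ (M *ᵥ w i) := by
    intro M hM i m
    have : M * A ^ m = A ^ m * M := (Commute.pow_right (show Commute M A from hM.symm) m)
    rw [e, Matrix.mulVec_mulVec, this, ← Matrix.mulVec_mulVec]
  have hAB := PB.comm_A hA hB
  have hAC := PB.comm_A hA hC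
  have hB0 := hB.apply 0
  have hB1 := hB.apply 1
  have hB2 := hB.apply 2
  have hC0 := hC.apply 0
  have hC1 := hC.apply 1
  have hC2 := hC.apply 2
  simp only [PB.pi, Fin.sum_univ_three] at hB0 hB1 hB2 hC0 hC1 hC2
  refine ⟨z0, z1, z2, ?_, ?_, ?_, ?_, ?_, ?_, ?_, ?_⟩
  · intro i m
    rw [e, e, Matrix.mulVec_mulVec, ← pow_succ']
  · intro m
    rw [hcm B hAB, hB0]
    simp [MB, e]
  · intro m
    rw [hcm B hAB, hB1]
    simp only [MB, e, Matrix.of_apply, Matrix.cons_val', Matrix.cons_val_zero, Matrix.cons_val_one,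
      Matrix.cons_val, map_mul, map_add, map_pow, aeval_X, aeval_C,
      Algebra.algebraMap_eq_smul_one, Matrix.add_mulVec, Matrix.smul_mulVec, Matrix.mulVec_add,
      Matrix.mulVec_smul, Matrix.one_mulVec, mul_add, add_mul, mul_smul_comm, smul_mul_assoc,
      one_mul, mul_one, Matrix.mulVec_mulVec, ← pow_succ', ← pow_succ, ← pow_add]
    module
  · intro m
    rw [hcm B hAB, hB2]
    simp only [MB, e, Matrix.of_apply, Matrix.cons_val', Matrix.cons_val_zero, Matrix.cons_val_one,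
      Matrix.cons_val, map_mul, map_add, map_pow, aeval_X, aeval_C,
      Algebra.algebraMap_eq_smul_one, Matrix.add_mulVec, Matrix.smul_mulVec, Matrix.mulVec_add,
      Matrix.mulVec_smul, Matrix.one_mulVec, mul_add, add_mul, mul_smul_comm, smul_mul_assoc,
      one_mul, mul_one, Matrix.mulVec_mulVec, ← pow_succ', ← pow_succ, ← pow_add]
    module
  · intro m
    rw [hcm C' hAC, hC0]
    simp only [MC, e, Matrix.of_apply, Matrix.cons_val', Matrix.cons_val_zero, Matrix.cons_val_one,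
      Matrix.cons_val, map_mul, map_add, map_pow, map_zero, aeval_X, aeval_C,
      Algebra.algebraMap_eq_smul_one, Matrix.add_mulVec, Matrix.smul_mulVec, Matrix.mulVec_add,
      Matrix.mulVec_smul, Matrix.one_mulVec, Matrix.zero_mulVec, Matrix.mulVec_zero, mul_add,
      add_mul, mul_smul_comm, smul_mul_assoc,
      one_mul, mul_one, Matrix.mulVec_mulVec, ← pow_succ', ← pow_succ, ← pow_add]
    module
  · intro m
    rw [hcm C' hAC, hC1]
    simp only [MC, e, Matrix.of_apply, Matrix.cons_val', Matrix.cons_val_zero, Matrix.cons_val_one,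
      Matrix.cons_val, map_mul, map_add, map_pow, map_zero, aeval_X, aeval_C,
      Algebra.algebraMap_eq_smul_one, Matrix.add_mulVec, Matrix.smul_mulVec, Matrix.mulVec_add,
      Matrix.mulVec_smul, Matrix.one_mulVec, Matrix.zero_mulVec, Matrix.mulVec_zero, mul_add,
      add_mul, mul_smul_comm, smul_mul_assoc,
      one_mul, mul_one, Matrix.mulVec_mulVec, ← pow_succ', ← pow_succ, ← pow_add]
    have y0 := z0 (m + 6) (by omega)
    have y1 := z1 (m + 4) (by omega)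
    unfold e at y0 y1
    have e6 : A ^ m * (A ^ 4 * (A * A)) = A ^ (m + 6) := by
      rw [← pow_two, ← pow_add, ← pow_add]
    have e4 : A ^ m * (A ^ 2 * (A * A)) = A ^ (m + 4) := by
      rw [← pow_two, ← pow_add, ← pow_add]
    rw [e6, e4, y0, y1]
    module
  · intro m
    rw [hcm C' hAC, hC2]
    simp only [MC, e, Matrix.of_apply, Matrix.cons_val', Matrix.cons_val_zero, Matrix.cons_val_one,
      Matrix.cons_val, map_mul, map_add, map_pow, map_zero, aeval_X, aeval_C,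
      Algebra.algebraMap_eq_smul_one, Matrix.add_mulVec, Matrix.smul_mulVec, Matrix.mulVec_add,
      Matrix.mulVec_smul, Matrix.one_mulVec, Matrix.zero_mulVec, Matrix.mulVec_zero, mul_add,
      add_mul, mul_smul_comm, smul_mul_assoc,
      one_mul, mul_one, Matrix.mulVec_mulVec, ← pow_succ', ← pow_succ, ← pow_add]
    module
  · intro S hS
    rw [eq_top_iff]
    intro y _
    obtain ⟨z, rfl⟩ := hA.span y
    unfold PB.pi
    refine Submodule.sum_mem _ fun i _ => ?_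
    rw [aeval_eq_sum_range, Matrix.sum_mulVec]
    refine Submodule.sum_mem _ fun m _ => ?_
    rw [Matrix.smul_mulVec]
    exact Submodule.smul_mem _ _ (hS i m)

end I642

end Pool.Agent.Lib.D13
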