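import Pool.Agent.Lib.D13.I642A
import Pool.Agent.Lib.D13.Lead1

/-!
# MP_5dcbc3_ag: Jordan blocks of sizes 6, 4, 2: the generic members of the component M0
-/

set_option linter.unusedSimpArgs false

namespace Pool.Agent.Lib.D13

open Matrix Polynomial Pool.Agent.Lib.Q5dc Pool.Agent.Lib.D7 Pool.Agent.Lib.D8

namespace I642

variable {k : Type*} [Field k] {N : ℕ} {A B C' : Matrix (Fin N) (Fin N) k}
  {w : Fin 3 → Fin N → k} {x : Par k}

/-- the generic members of the component M0 are limits of curvilinear triples -/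
theorem gen_A [IsAlgClosed k] (h : Act x A B C' w) (hcn : CN ![A, B, C']) (hN : N = 12)
    (hg0 : x.g0 = 0) (hr0 : x.r0 ≠ 0) (hh1 : x.h1 ≠ 0) (hww : x.ww1 ≠ 0) (huu : x.uu0 ≠ 0)
    (hd : x.h1 * x.qq0 - x.uu0 * x.g1 ≠ 0) : Cl ![A, B, C'] := by
  set v := e A w 0 0 with hv
  have hA : ∀ m, A ^ m *ᵥ v = e A w 0 m := by
    intro m
    rw [hv, e, e_add, add_zero]
  have hB2 : B ^ 2 *ᵥ v = x.g1 • e A w 0 3 + x.g2 • e A w 0 4 + x.g3 • e A w 0 5 +
      x.h1 • e A w 1 1 + x.h2 • e A w 1 2 + x.h3 • e A w 1 3 + x.t1 • e A w 2 1 := by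
    rw [pow_two, ← Matrix.mulVec_mulVec, hv, h.b0, h.b1, hg0]
    module
  have hB3 : B ^ 3 *ᵥ v = (x.h1 * x.g1) • e A w 0 4 +
      (x.h1 * x.g2 + x.h2 * x.g1 + x.t1 * x.q0) • e A w 0 5 + (x.h1 ^ 2) • e A w 1 2 +
      (x.g1 + 2 * x.h1 * x.h2 + x.t1 * x.u0) • e A w 1 3 := by
    rw [pow_succ', ← Matrix.mulVec_mulVec, hB2]
    simp only [Matrix.mulVec_add, Matrix.mulVec_smul, h.b0, h.b1, h.b2, Nat.reduceAdd, h.z0, h.z1,
      h.z2, le_refl, Nat.reduceLeDiff, smul_zero, add_zero, zero_add, hg0, zero_smul, smul_add,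
      smul_smul]
    module
  have hB4 : B ^ 4 *ᵥ v = (x.h1 ^ 2 * x.g1) • e A w 0 5 + (x.h1 ^ 3) • e A w 1 3 := by
    rw [pow_succ', ← Matrix.mulVec_mulVec, hB3]
    simp only [Matrix.mulVec_add, Matrix.mulVec_smul, h.b0, h.b1, h.b2, Nat.reduceAdd, h.z0, h.z1,
      h.z2, le_refl, Nat.reduceLeDiff, smul_zero, add_zero, zero_add, hg0, zero_smul, smul_add,
      smul_smul]
    module
  have hB5 : B ^ 5 *ᵥ v = 0 := by
    rw [pow_succ', ← Matrix.mulVec_mulVec, hB4]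
    simp only [Matrix.mulVec_add, Matrix.mulVec_smul, h.b0, h.b1, h.b2, Nat.reduceAdd, h.z0, h.z1,
      h.z2, le_refl, Nat.reduceLeDiff, smul_zero, add_zero, zero_add, hg0, zero_smul, smul_add,
      smul_smul]
  have hC2 : C' ^ 2 *ᵥ v = (x.r0 * x.qq0) • e A w 0 4 + (x.r0 * x.qq1 + x.r1 * x.qq0) • e A w 0 5 +
      (x.r0 * x.uu0) • e A w 1 2 + (x.r0 * x.uu1 + x.r1 * x.uu0) • e A w 1 3 +
      (x.r0 * x.ww1) • e A w 2 1 := by
    rw [pow_two, ← Matrix.mulVec_mulVec, hv, h.c0]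
    simp only [Matrix.mulVec_add, Matrix.mulVec_smul, h.c0, h.c1, h.c2, Nat.reduceAdd, h.z0, h.z1,
      h.z2, le_refl, Nat.reduceLeDiff, smul_zero, add_zero, zero_add, hg0, zero_smul, smul_add,
      smul_smul]
    module
  have hC3 : C' ^ 3 *ᵥ v = (x.r0 * x.ww1 * x.qq0) • e A w 0 5 +
      (x.r0 * x.ww1 * x.uu0) • e A w 1 3 := by
    rw [pow_succ', ← Matrix.mulVec_mulVec, hC2]
    simp only [Matrix.mulVec_add, Matrix.mulVec_smul, h.c0, h.c1, h.c2, Nat.reduceAdd, h.z0, h.z1,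
      h.z2, le_refl, Nat.reduceLeDiff, smul_zero, add_zero, zero_add, hg0, zero_smul, smul_add,
      smul_smul]
  have hC4 : C' ^ 4 *ᵥ v = 0 := by
    rw [pow_succ', ← Matrix.mulVec_mulVec, hC3]
    simp only [Matrix.mulVec_add, Matrix.mulVec_smul, h.c0, h.c1, h.c2, Nat.reduceAdd, h.z0, h.z1,
      h.z2, le_refl, Nat.reduceLeDiff, smul_zero, add_zero, zero_add, hg0, zero_smul, smul_add,
      smul_smul]
  -- a submodule containing the pure powers of high weight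
  have key : ∀ S : Submodule k (Fin N → k), e A w 0 4 ∈ S → e A w 0 5 ∈ S → e A w 0 3 ∈ S →
      B ^ 3 *ᵥ v ∈ S → B ^ 4 *ᵥ v ∈ S → C' ^ 2 *ᵥ v ∈ S →
      e A w 1 3 ∈ S ∧ e A w 1 2 ∈ S ∧ e A w 2 1 ∈ S ∧ (B ^ 2 *ᵥ v ∈ S → e A w 1 1 ∈ S) := by
    intro S a4 a5 a3 b3 b4 c2
    have e1 : e A w 1 3 ∈ S := by
      have h1 := S.sub_mem b4 (S.smul_mem (x.h1 ^ 2 * x.g1) a5)
      rw [hB4, add_sub_cancel_left] at h1
      have h2 := S.smul_mem (x.h1 ^ 3)⁻¹ h1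
      rwa [smul_smul, inv_mul_cancel₀ (pow_ne_zero 3 hh1), one_smul] at h2
    have e2 : e A w 1 2 ∈ S := by
      have h1 := S.sub_mem (S.sub_mem (S.sub_mem b3 (S.smul_mem (x.h1 * x.g1) a4))
        (S.smul_mem (x.h1 * x.g2 + x.h2 * x.g1 + x.t1 * x.q0) a5))
        (S.smul_mem (x.g1 + 2 * x.h1 * x.h2 + x.t1 * x.u0) e1)
      have h2 := S.smul_mem (x.h1 ^ 2)⁻¹ h1
      have h3 : (x.h1 ^ 2)⁻¹ • (B ^ 3 *ᵥ v - (x.h1 * x.g1) • e A w 0 4 -
          (x.h1 * x.g2 + x.h2 * x.g1 + x.t1 * x.q0) • e A w 0 5 -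
          (x.g1 + 2 * x.h1 * x.h2 + x.t1 * x.u0) • e A w 1 3) = e A w 1 2 := by
        rw [hB3]
        have : (x.h1 * x.g1) • e A w 0 4 + (x.h1 * x.g2 + x.h2 * x.g1 + x.t1 * x.q0) • e A w 0 5 +
            x.h1 ^ 2 • e A w 1 2 + (x.g1 + 2 * x.h1 * x.h2 + x.t1 * x.u0) • e A w 1 3 -
            (x.h1 * x.g1) • e A w 0 4 - (x.h1 * x.g2 + x.h2 * x.g1 + x.t1 * x.q0) • e A w 0 5 -
            (x.g1 + 2 * x.h1 * x.h2 + x.t1 * x.u0) • e A w 1 3 = x.h1 ^ 2 • e A w 1 2 := by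
          module
        rw [this, smul_smul, inv_mul_cancel₀ (pow_ne_zero 2 hh1), one_smul]
      rwa [h3] at h2
    have hrw : x.r0 * x.ww1 ≠ 0 := mul_ne_zero hr0 hww
    have e3 : e A w 2 1 ∈ S := by
      have h1 := S.sub_mem (S.sub_mem (S.sub_mem (S.sub_mem c2 (S.smul_mem (x.r0 * x.qq0) a4))
        (S.smul_mem (x.r0 * x.qq1 + x.r1 * x.qq0) a5)) (S.smul_mem (x.r0 * x.uu0) e2))
        (S.smul_mem (x.r0 * x.uu1 + x.r1 * x.uu0) e1)
      have h2 := S.smul_mem (x.r0 * x.ww1)⁻¹ h1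
      have h3 : (x.r0 * x.ww1)⁻¹ • (C' ^ 2 *ᵥ v - (x.r0 * x.qq0) • e A w 0 4 -
          (x.r0 * x.qq1 + x.r1 * x.qq0) • e A w 0 5 - (x.r0 * x.uu0) • e A w 1 2 -
          (x.r0 * x.uu1 + x.r1 * x.uu0) • e A w 1 3) = e A w 2 1 := by
        rw [hC2]
        have : (x.r0 * x.qq0) • e A w 0 4 + (x.r0 * x.qq1 + x.r1 * x.qq0) • e A w 0 5 +
            (x.r0 * x.uu0) • e A w 1 2 + (x.r0 * x.uu1 + x.r1 * x.uu0) • e A w 1 3 +
            (x.r0 * x.ww1) • e A w 2 1 - (x.r0 * x.qq0) • e A w 0 4 -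
            (x.r0 * x.qq1 + x.r1 * x.qq0) • e A w 0 5 - (x.r0 * x.uu0) • e A w 1 2 -
            (x.r0 * x.uu1 + x.r1 * x.uu0) • e A w 1 3 = (x.r0 * x.ww1) • e A w 2 1 := by
          module
        rw [this, smul_smul, inv_mul_cancel₀ hrw, one_smul]
      rwa [h3] at h2
    refine ⟨e1, e2, e3, fun b2 => ?_⟩
    have h1 := S.sub_mem (S.sub_mem (S.sub_mem (S.sub_mem (S.sub_mem (S.sub_mem b2
      (S.smul_mem x.g1 a3)) (S.smul_mem x.g2 a4)) (S.smul_mem x.g3 a5)) (S.smul_mem x.h2 e2))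
      (S.smul_mem x.h3 e1)) (S.smul_mem x.t1 e3)
    have h2 := S.smul_mem x.h1⁻¹ h1
    have h3 : x.h1⁻¹ • (B ^ 2 *ᵥ v - x.g1 • e A w 0 3 - x.g2 • e A w 0 4 - x.g3 • e A w 0 5 -
        x.h2 • e A w 1 2 - x.h3 • e A w 1 3 - x.t1 • e A w 2 1) = e A w 1 1 := by
      rw [hB2]
      have : x.g1 • e A w 0 3 + x.g2 • e A w 0 4 + x.g3 • e A w 0 5 + x.h1 • e A w 1 1 +
          x.h2 • e A w 1 2 + x.h3 • e A w 1 3 + x.t1 • e A w 2 1 - x.g1 • e A w 0 3 -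
          x.g2 • e A w 0 4 - x.g3 • e A w 0 5 - x.h2 • e A w 1 2 - x.h3 • e A w 1 3 -
          x.t1 • e A w 2 1 = x.h1 • e A w 1 1 := by
        module
      rw [this, smul_smul, inv_mul_cancel₀ hh1, one_smul]
    rwa [h3] at h2
  -- the criterion
  refine cl_lead_cyc ![5, 4, 3] ![12, 15, 20] 60 ?_ ?_ ?_ ?_ hcn v ?_ ?_ ?_ ?_
  · decide
  · decide
  · decide
  · rw [Fintype.card_fin, hN]
    rfl
  · -- the span
    set S := Submodule.span k ({v} ∪ {y | ∃ i m, 1 ≤ m ∧ m ≤ (![5, 4, 3] : Fin 3 → ℕ) i ∧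
      y = ![A, B, C'] i ^ m *ᵥ v}) with hS
    have hm : ∀ (i : Fin 3) (m : ℕ), 1 ≤ m → m ≤ (![5, 4, 3] : Fin 3 → ℕ) i →
        ![A, B, C'] i ^ m *ᵥ v ∈ S := fun i m h1 h2 =>
      Submodule.subset_span (Or.inr ⟨i, m, h1, h2, rfl⟩)
    have hv0 : v ∈ S := Submodule.subset_span (Or.inl rfl)
    have hmA : ∀ m, m ≤ 5 → e A w 0 m ∈ S := by
      intro m hm5
      rcases Nat.eq_zero_or_pos m with rfl | h0
      · exact hv0
      · rw [← hA]; exact hm 0 m h0 hm5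
    have hk := key S (hmA 4 (by norm_num)) (hmA 5 le_rfl) (hmA 3 (by norm_num))
      (hm 1 3 (by norm_num) (by decide)) (hm 1 4 (by norm_num) (by decide))
      (hm 2 2 (by norm_num) (by decide))
    obtain ⟨e1, e2, e3, e4⟩ := hk
    have e4 := e4 (hm 1 2 (by norm_num) (by decide))
    have e5 : e A w 1 0 ∈ S := by
      have := hm 1 1 le_rfl (by decide)
      rwa [pow_one, show (![A, B, C'] 1) = B from rfl, hv, h.b0] at this
    have e6 : e A w 2 0 ∈ S := by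
      have h1 := hm 2 1 le_rfl (by decide)
      rw [pow_one, show (![A, B, C'] 2) = C' from rfl, hv, h.c0] at h1
      have h2 := S.smul_mem x.r0⁻¹ (S.sub_mem h1 (S.smul_mem x.r1 e3))
      rwa [add_sub_cancel_right, smul_smul, inv_mul_cancel₀ hr0, one_smul] at h2
    have htop : S = ⊤ := by
      refine h.sp S fun i m => ?_
      fin_cases i
      · show e A w 0 m ∈ S
        by_cases h6 : 6 ≤ m
        · rw [h.z0 m h6]; exact zero_mem _
        · exact hmA m (by omega)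
      · show e A w 1 m ∈ S
        by_cases h6 : 4 ≤ m
        · rw [h.z1 m h6]; exact zero_mem _
        · have : m = 0 ∨ m = 1 ∨ m = 2 ∨ m = 3 := by omega
          rcases this with rfl | rfl | rfl | rfl
          · exact e5
          · exact e4
          · exact e2
          · exact e1
      · show e A w 2 m ∈ S
        by_cases h6 : 2 ≤ m
        · rw [h.z2 m h6]; exact zero_mem _
        · have : m = 0 ∨ m = 1 := by omega
          rcases this with rfl | rfl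
          · exact e6
          · exact e3
    rw [htop]
  · intro i
    fin_cases i
    · show A ^ 6 *ᵥ v = 0
      rw [hA, h.z0 6 le_rfl]
    · exact hB5
    · exact hC4
  · refine ⟨![x.r0 * x.ww1 * x.h1 ^ 2 * (x.h1 * x.qq0 - x.uu0 * x.g1), x.r0 * x.ww1 * x.uu0,
      -x.h1 ^ 3], ?_, ?_⟩
    · intro i
      fin_cases i
      · exact mul_ne_zero (mul_ne_zero (mul_ne_zero hr0 hww) (pow_ne_zero 2 hh1)) hd
      · exact mul_ne_zero (mul_ne_zero hr0 hww) huu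
      · exact neg_ne_zero.2 (pow_ne_zero 3 hh1)
    · rw [Fin.sum_univ_three]
      show (x.r0 * x.ww1 * x.h1 ^ 2 * (x.h1 * x.qq0 - x.uu0 * x.g1)) • (A ^ 5 *ᵥ v) +
        (x.r0 * x.ww1 * x.uu0) • (B ^ 4 *ᵥ v) + (-x.h1 ^ 3) • (C' ^ 3 *ᵥ v) = 0
      rw [hA, hB4, hC3]
      module
  · -- the products
    have gen : ∀ d : ℕ, d ≤ 35 → ∀ S : Submodule k (Fin N → k),
        (∀ (l : Fin 3) (m : ℕ), m ≤ (![5, 4, 3] : Fin 3 → ℕ) l →
          d < m * (![12, 15, 20] : Fin 3 → ℕ) l → ![A, B, C'] l ^ m *ᵥ v ∈ S) →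
        (∀ m, 3 ≤ m → e A w 0 m ∈ S) ∧ e A w 1 3 ∈ S ∧ e A w 1 2 ∈ S ∧ e A w 2 1 ∈ S ∧
          (d ≤ 29 → e A w 1 1 ∈ S) := by
      intro d hd S hS
      have hmA : ∀ m, 3 ≤ m → e A w 0 m ∈ S := by
        intro m hm3
        by_cases h6 : 6 ≤ m
        · rw [h.z0 m h6]; exact zero_mem _
        · rw [← hA]
          refine hS 0 m (show m ≤ 5 by omega) ?_
          show d < m * 12
          omega
      obtain ⟨e1, e2, e3, e4⟩ := key S (hmA 4 (by norm_num)) (hmA 5 (by norm_num))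
        (hmA 3 le_rfl) (hS 1 3 (by decide) (show d < 3 * 15 by omega))
        (hS 1 4 (by decide) (show d < 4 * 15 by omega))
        (hS 2 2 (by decide) (show d < 2 * 20 by omega))
      exact ⟨hmA, e1, e2, e3, fun hd' => e4 (hS 1 2 (by decide) (show d < 2 * 15 by omega))⟩
    have h01 : ∀ S : Submodule k (Fin N → k), (∀ (l : Fin 3) (m : ℕ),
        m ≤ (![5, 4, 3] : Fin 3 → ℕ) l → 27 < m * (![12, 15, 20] : Fin 3 → ℕ) l →
          ![A, B, C'] l ^ m *ᵥ v ∈ S) → A *ᵥ (B *ᵥ v) ∈ S := by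
      intro S hS
      obtain ⟨-, -, -, -, e4⟩ := gen 27 (by norm_num) S hS
      rw [hv, h.b0, h.a]
      exact e4 (by norm_num)
    have h02 : ∀ S : Submodule k (Fin N → k), (∀ (l : Fin 3) (m : ℕ),
        m ≤ (![5, 4, 3] : Fin 3 → ℕ) l → 32 < m * (![12, 15, 20] : Fin 3 → ℕ) l →
          ![A, B, C'] l ^ m *ᵥ v ∈ S) → A *ᵥ (C' *ᵥ v) ∈ S := by
      intro S hS
      obtain ⟨-, -, -, e3, -⟩ := gen 32 (by norm_num) S hS
      rw [hv, h.c0, Matrix.mulVec_add, Matrix.mulVec_smul, Matrix.mulVec_smul, h.a, h.a,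
        h.z2 (0 + 1 + 1) (by norm_num), smul_zero, add_zero]
      exact S.smul_mem _ e3
    have h12 : ∀ S : Submodule k (Fin N → k), (∀ (l : Fin 3) (m : ℕ),
        m ≤ (![5, 4, 3] : Fin 3 → ℕ) l → 35 < m * (![12, 15, 20] : Fin 3 → ℕ) l →
          ![A, B, C'] l ^ m *ᵥ v ∈ S) → B *ᵥ (C' *ᵥ v) ∈ S := by
      intro S hS
      obtain ⟨a, e1, e2, e3, -⟩ := gen 35 le_rfl S hS
      rw [hv, h.c0, Matrix.mulVec_add, Matrix.mulVec_smul, Matrix.mulVec_smul, h.b2, h.b2]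
      refine S.add_mem (S.smul_mem _ ?_) (S.smul_mem _ ?_)
      · exact S.add_mem (S.add_mem (S.add_mem (S.add_mem (S.smul_mem _ (a _ (by norm_num)))
          (S.smul_mem _ (a _ (by norm_num)))) (S.smul_mem _ e2)) (S.smul_mem _ e1))
          (S.smul_mem _ e3)
      · rw [h.z0 (0 + 1 + 5) (by norm_num), h.z1 (0 + 1 + 3) (by norm_num),
          h.z2 (0 + 1 + 1) (by norm_num), smul_zero, smul_zero, smul_zero, add_zero, add_zero,
          add_zero]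
        exact S.add_mem (S.smul_mem _ (a _ (by norm_num))) (S.smul_mem _ e1)
    have hsub : ∀ (i j : Fin 3) (d : ℕ),
        (![12, 15, 20] : Fin 3 → ℕ) i + (![12, 15, 20] : Fin 3 → ℕ) j = d → ∀ (l : Fin 3) (m : ℕ),
        m ≤ (![5, 4, 3] : Fin 3 → ℕ) l → d < m * (![12, 15, 20] : Fin 3 → ℕ) l →
        ![A, B, C'] l ^ m *ᵥ v ∈ Submodule.span k {y | ∃ l m, m ≤ (![5, 4, 3] : Fin 3 → ℕ) l ∧
          (![12, 15, 20] : Fin 3 → ℕ) i + (![12, 15, 20] : Fin 3 → ℕ) j <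
            m * (![12, 15, 20] : Fin 3 → ℕ) l ∧ y = ![A, B, C'] l ^ m *ᵥ v} :=
      fun i j d hd l m h1 h2 => Submodule.subset_span ⟨l, m, h1, by rw [hd]; exact h2, rfl⟩
    have hcomm : ∀ i j : Fin 3, ![A, B, C'] i *ᵥ (![A, B, C'] j *ᵥ v) =
        ![A, B, C'] j *ᵥ (![A, B, C'] i *ᵥ v) := by
      intro i j
      rw [Matrix.mulVec_mulVec, Matrix.mulVec_mulVec, hcn.1]
    intro i j hij
    fin_cases i <;> fin_cases j
    · exact absurd rfl hij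
    · exact h01 _ (hsub 0 1 27 rfl)
    · exact h02 _ (hsub 0 2 32 rfl)
    · rw [hcomm]
      exact h01 _ (hsub 1 0 27 rfl)
    · exact absurd rfl hij
    · exact h12 _ (hsub 1 2 35 rfl)
    · rw [hcomm]
      exact h02 _ (hsub 2 0 32 rfl)
    · rw [hcomm]
      exact h12 _ (hsub 2 1 35 rfl)
    · exact absurd rfl hij

end I642

end Pool.Agent.Lib.D13
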