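import Pool.Agent.Lib.D13.TMod

/-!
# MP_5dcbc3_ag: all triples with the leading part of `T(p, q, r)` are limits of curvilinear triples
-/

set_option autoImplicit false

namespace Pool.Agent.Lib.D13

open Matrix Pool.Agent.Lib.Q5dc Pool.Agent.Lib.D7

namespace TpqrClAux

/-- the entries of the conjugating diagonal matrix -/
noncomputable def dg {k : Type*} [Field k] {p : Fin 3 → ℕ} (r : Fin 3 → k) : TM.Ix p → k
  | none => 1
  | some none => 1
  | some (some a) => (r a.1 ^ ((a.2 : ℕ) + 1))⁻¹

theorem dg_ne {k : Type*} [Field k] {p : Fin 3 → ℕ} {r : Fin 3 → k} (hr : ∀ i, r i ≠ 0)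
    (x : TM.Ix p) : dg r x ≠ 0 := by
  match x with
  | none => exact one_ne_zero
  | some none => exact one_ne_zero
  | some (some a) => exact inv_ne_zero (pow_ne_zero _ (hr a.1))

/-- the leading part after rescaling -/
theorem ld_scale {k : Type*} [Field k] {p : Fin 3 → ℕ} {r mu lam : Fin 3 → k}
    (hr : ∀ i, r i ≠ 0) (h : ∀ i, r i ^ p i * mu i = lam i) (i : Fin 3) (x y : TM.Ix p) :
    r i * (dg r x * TM.Ld p mu i x y * (dg r y)⁻¹) = TM.Ld p lam i x y := by
  match x, y with
  | none, none => simp [TM.Ld]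
  | none, some none => simp [TM.Ld]
  | none, some (some b) => simp [TM.Ld]
  | some none, none => simp [TM.Ld]
  | some none, some none => simp [TM.Ld]
  | some (some a), some none => simp [TM.Ld]
  | some (some ⟨l, m⟩), none =>
    simp only [TM.Ld, dg]
    split_ifs with h1
    · obtain ⟨rfl, h3⟩ := h1
      rw [h3]
      have := hr l
      field_simp
      try simp
    · simp
  | some none, some (some ⟨l, m⟩) =>
    simp only [TM.Ld, dg]
    split_ifs with h1
    · obtain ⟨rfl, h3⟩ := h1
      have h5 : r l ^ ((m : ℕ) + 2) * mu l = lam l := by rw [h3]; exact h l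
      rw [← h5]
      have := hr l
      field_simp
      try ring
    · simp
  | some (some ⟨l, m⟩), some (some ⟨l', m'⟩) =>
    simp only [TM.Ld, dg]
    split_ifs with h1
    · obtain ⟨rfl, rfl, h4⟩ := h1
      rw [h4]
      have := hr l'
      field_simp
      try ring
    · simp

end TpqrClAux

/-- matrix form -/
theorem cl_lead {k : Type*} [Field k] [CharZero k] [IsAlgClosed k] (p δ : Fin 3 → ℕ) (L : ℕ)
    (hp : ∀ i, 3 ≤ p i) (hδ : ∀ i, 1 ≤ δ i) (hL : ∀ i, p i * δ i = L) (mu : Fin 3 → k)
    (hmu : ∀ i, mu i ≠ 0) {T : Fin 3 → Matrix (TM.Ix p) (TM.Ix p) k}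
    (hcomm : ∀ i j, T i * T j = T j * T i)
    (hlow : ∀ i x y, TM.lev p δ L x < TM.lev p δ L y + δ i → T i x y = 0)
    (hlead : ∀ i x y, TM.lev p δ L x = TM.lev p δ L y + δ i → T i x y = TM.Ld p mu i x y) :
    Cl T := by
  obtain ⟨N0, X, lam, hN, hN', hX, hdeg, hlam, hXl, cert⟩ :=
    TM.exists_base (k := k) p δ L (fun i => (by norm_num : 2 ≤ 3).trans (hp i)) hδ hL
  have hr0 : ∀ i, ∃ r : k, r ^ p i * mu i = lam i := by
    intro i
    obtain ⟨z, hz⟩ := IsAlgClosed.exists_pow_nat_eq (lam i / mu i) (n := p i)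
      (by have := hp i; omega)
    exact ⟨z, by rw [hz, div_mul_cancel₀ _ (hmu i)]⟩
  choose r hr using hr0
  have hrne : ∀ i, r i ≠ 0 := by
    intro i h
    apply hlam i
    rw [← hr i, h, zero_pow (by have := hp i; omega), zero_mul]
  set D : Matrix (TM.Ix p) (TM.Ix p) k := Matrix.diagonal (TpqrClAux.dg r) with hD
  set D' : Matrix (TM.Ix p) (TM.Ix p) k := Matrix.diagonal (fun x => (TpqrClAux.dg r x)⁻¹) with hD'
  have hDD' : D * D' = 1 := by
    rw [hD, hD', Matrix.diagonal_mul_diagonal, ← Matrix.diagonal_one]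
    congr 1
    funext x
    exact mul_inv_cancel₀ (TpqrClAux.dg_ne hrne x)
  have hD'D : D' * D = 1 := by
    rw [hD, hD', Matrix.diagonal_mul_diagonal, ← Matrix.diagonal_one]
    congr 1
    funext x
    exact inv_mul_cancel₀ (TpqrClAux.dg_ne hrne x)
  have hent : ∀ i x y, (r i • (D * T i * D')) x y =
      r i * (TpqrClAux.dg r x * T i x y * (TpqrClAux.dg r y)⁻¹) := by
    intro i x y
    rw [Matrix.smul_apply, hD, hD', Matrix.mul_diagonal, Matrix.diagonal_mul, smul_eq_mul]
  have h1 : Cl fun i => r i • (D * T i * D') := by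
    apply cl_cell hN hN' hX hdeg cert
    · intro i j
      rw [Matrix.smul_mul, Matrix.mul_smul, Matrix.smul_mul, Matrix.mul_smul, smul_comm]
      congr 2
      calc D * T i * D' * (D * T j * D') = D * T i * (D' * D) * T j * D' := by
            simp only [Matrix.mul_assoc]
        _ = D * (T i * T j) * D' := by rw [hD'D, Matrix.mul_one]; simp only [Matrix.mul_assoc]
        _ = D * (T j * T i) * D' := by rw [hcomm i j]
        _ = D * T j * (D' * D) * T i * D' := by
            rw [hD'D, Matrix.mul_one]; simp only [Matrix.mul_assoc]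
        _ = D * T j * D' * (D * T i * D') := by simp only [Matrix.mul_assoc]
    · intro i x y h
      rw [hent, hlow i x y h, mul_zero, zero_mul, mul_zero]
    · intro i x y h
      rw [hent, hlead i x y h, hXl i x y h]
      exact TpqrClAux.ld_scale hrne hr i x y
  have h2 := D8.cl_smul3 (Cl.conj D' D hD'D hDD' h1) fun i => (r i)⁻¹
  have h3 : (fun i => (r i)⁻¹ • (D' * (r i • (D * T i * D')) * D)) = T := by
    funext i
    rw [Matrix.mul_smul, Matrix.smul_mul, smul_smul, inv_mul_cancel₀ (hrne i), one_smul]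
    calc D' * (D * T i * D') * D = (D' * D) * T i * (D' * D) := by simp only [Matrix.mul_assoc]
      _ = T i := by rw [hD'D, Matrix.one_mul, Matrix.mul_one]
  rw [h3] at h2
  exact h2

namespace TpqrClAux

variable {k : Type*} [Field k] {n : Type*} [Fintype n] [DecidableEq n]

/-- monomials in three elements -/
def MM {R : Type*} [Monoid R] (T : Fin 3 → R) (α : Fin 3 → ℕ) : R :=
  T 0 ^ α 0 * T 1 ^ α 1 * T 2 ^ α 2

/-- the weight of a monomial -/
def wt (δ α : Fin 3 → ℕ) : ℕ := α 0 * δ 0 + α 1 * δ 1 + α 2 * δ 2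

theorem single_val (α : Fin 3 → ℕ) (i j : Fin 3) (m : ℕ) :
    (α + Pi.single i m : Fin 3 → ℕ) j = if j = i then α j + m else α j := by
  rw [Pi.add_apply, Pi.single_apply]
  split_ifs <;> simp

theorem MM_add {R : Type*} [Monoid R] {T : Fin 3 → R} (hcomm : ∀ i j, T i * T j = T j * T i)
    (α : Fin 3 → ℕ) (i : Fin 3) (m : ℕ) : MM T (α + Pi.single i m) = MM T α * T i ^ m := by
  have hc : ∀ i j (a b : ℕ), T i ^ a * T j ^ b = T j ^ b * T i ^ a := fun i j a b =>
    ((show Commute (T i) (T j) from hcomm i j).pow_pow a b).eq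
  unfold MM
  rw [single_val, single_val, single_val]
  match i with
  | 0 =>
    rw [if_pos rfl, if_neg (by decide), if_neg (by decide), pow_add,
      mul_assoc (T 0 ^ α 0) (T 0 ^ m), mul_assoc (T 0 ^ α 0 * T 1 ^ α 1), hc 2 0 (α 2) m,
      ← mul_assoc (T 0 ^ α 0 * T 1 ^ α 1), mul_assoc (T 0 ^ α 0) (T 1 ^ α 1) (T 0 ^ m),
      hc 1 0 (α 1) m]
  | 1 =>
    rw [if_neg (by decide), if_pos rfl, if_neg (by decide), pow_add,
      mul_assoc (T 0 ^ α 0 * T 1 ^ α 1) (T 2 ^ α 2), hc 2 1 (α 2) m]
    simp only [mul_assoc]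
  | 2 =>
    rw [if_neg (by decide), if_neg (by decide), if_pos rfl, pow_add]
    simp only [mul_assoc]

theorem wt_add (δ α : Fin 3 → ℕ) (i : Fin 3) (m : ℕ) :
    wt δ (α + Pi.single i m) = wt δ α + m * δ i := by
  unfold wt
  rw [single_val, single_val, single_val]
  match i with
  | 0 => rw [if_pos rfl, if_neg (by decide), if_neg (by decide)]; ring
  | 1 => rw [if_neg (by decide), if_pos rfl, if_neg (by decide)]; ring
  | 2 => rw [if_neg (by decide), if_neg (by decide), if_pos rfl]; ring

theorem MM_zero {R : Type*} [Monoid R] (T : Fin 3 → R) : MM T 0 = 1 := by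
  simp [MM]

theorem wt_zero (δ : Fin 3 → ℕ) : wt δ 0 = 0 := by
  simp [wt]

theorem le_wt (δ α : Fin 3 → ℕ) (i : Fin 3) : α i * δ i ≤ wt δ α := by
  unfold wt
  match i with
  | 0 => omega
  | 1 => omega
  | 2 => omega

/-- an exponent vector is a multiple of a unit vector or has two nonzero entries -/
theorem split (α : Fin 3 → ℕ) : (∃ i m, α = Pi.single i m) ∨
    ∃ (i j : Fin 3) (β : Fin 3 → ℕ), i ≠ j ∧ α = β + Pi.single i 1 + Pi.single j 1 := by
  by_cases h : ∃ i j, i ≠ j ∧ α i ≠ 0 ∧ α j ≠ 0
  · right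
    obtain ⟨i, j, hij, hi, hj⟩ := h
    refine ⟨i, j, α - Pi.single i 1 - Pi.single j 1, hij, ?_⟩
    funext l
    simp only [Pi.add_apply, Pi.sub_apply, Pi.single_apply]
    by_cases h1 : l = i
    · subst h1
      rw [if_pos rfl, if_neg hij]
      omega
    · by_cases h2 : l = j
      · subst h2
        rw [if_neg h1, if_pos rfl]
        omega
      · rw [if_neg h1, if_neg h2]
        omega
  · left
    have hA : ∀ i, α i ≠ 0 → α = Pi.single i (α i) := by
      intro i hi
      funext l
      by_cases hl : l = i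
      · subst hl
        simp
      · rw [Pi.single_apply, if_neg hl]
        by_contra h5
        exact h ⟨l, i, hl, h5, hi⟩
    by_cases h0 : ∃ i, α i ≠ 0
    · obtain ⟨i, hi⟩ := h0
      exact ⟨i, α i, hA i hi⟩
    · refine ⟨0, 0, ?_⟩
      funext l
      by_contra h5
      apply h0
      refine ⟨l, fun h6 => h5 ?_⟩
      rw [h6]
      simp

/-- the filtration by levels -/
def Fl {ι V : Type*} [AddCommGroup V] [Module k V] (B : Module.Basis ι k V) (w : ι → ℕ) (d : ℕ) :
    Submodule k V where
  carrier := {u | ∀ x, w x < d → B.repr u x = 0}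
  add_mem' := by
    intro a b ha hb x hx
    rw [map_add, Finsupp.add_apply, ha x hx, hb x hx, add_zero]
  zero_mem' := by
    intro x _
    rw [map_zero, Finsupp.zero_apply]
  smul_mem' := by
    intro c a ha x hx
    rw [map_smul, Finsupp.smul_apply, ha x hx, smul_zero]

section

variable {ι V : Type*} [AddCommGroup V] [Module k V] {B : Module.Basis ι k V} {w : ι → ℕ} {d d' : ℕ}

omit [Fintype n] [DecidableEq n] in
theorem mem_Fl {u : V} : u ∈ Fl B w d ↔ ∀ x, w x < d → B.repr u x = 0 := Iff.rfl

theorem Fl_anti (h : d ≤ d') {u : V} (hu : u ∈ Fl B w d') : u ∈ Fl B w d := by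
  rw [mem_Fl] at hu ⊢
  exact fun x hx => hu x (by omega)

theorem Fl_basis {y : ι} (h : d ≤ w y) : B y ∈ Fl B w d := by
  classical
  rw [mem_Fl]
  intro x hx
  rw [Module.Basis.repr_self, Finsupp.single_apply, if_neg]
  rintro rfl
  omega

theorem Fl_zero {u : V} (h : d = 0) : u ∈ Fl B w d := by
  rw [mem_Fl]
  intro x hx
  omega

end

/-- the situation of `cl_tpqr` with a basis -/
structure Sit (p δ : Fin 3 → ℕ) (L : ℕ) (T : Fin 3 → Matrix n n k) (v s : n → k) (mu : Fin 3 → k)
    (B : Module.Basis (TM.Ix p) k (n → k)) : Prop where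
  hp : ∀ i, 3 ≤ p i
  hδ : ∀ i, 1 ≤ δ i
  hL : ∀ i, p i * δ i = L
  comm : ∀ i j, T i * T j = T j * T i
  hs : ∀ i, T i *ᵥ s = 0
  hps : ∀ i, T i ^ p i *ᵥ v = mu i • s
  hx : ∀ i j, i ≠ j → T i *ᵥ (T j *ᵥ v) ∈ Submodule.span k
      ({s} ∪ {y | ∃ l m, m < p l ∧ δ i + δ j < m * δ l ∧ y = T l ^ m *ᵥ v})
  Bv : B none = v
  Bs : B (some none) = s
  BT : ∀ a, B (some (some a)) = T a.1 ^ ((a.2 : ℕ) + 1) *ᵥ v

namespace Sit

variable {p δ : Fin 3 → ℕ} {L : ℕ} {T : Fin 3 → Matrix n n k} {v s : n → k} {mu : Fin 3 → k}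
    {B : Module.Basis (TM.Ix p) k (n → k)}

theorem le_L (h : Sit p δ L T v s mu B) (i : Fin 3) : 3 * δ i ≤ L := by
  rw [← h.hL i]
  exact Nat.mul_le_mul_right _ (h.hp i)

theorem MM_single (h : Sit p δ L T v s mu B) (i : Fin 3) (m : ℕ) :
    MM T (Pi.single i m) = T i ^ m := by
  have h1 := MM_add h.comm 0 i m
  rw [zero_add, MM_zero, one_mul] at h1
  exact h1

theorem wt_single (δ : Fin 3 → ℕ) (i : Fin 3) (m : ℕ) : wt δ (Pi.single i m) = m * δ i := by
  have h1 := wt_add δ 0 i m
  rw [zero_add, wt_zero, zero_add] at h1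
  exact h1

theorem pow_zero_v (h : Sit p δ L T v s mu B) (i : Fin 3) : T i ^ (p i + 1) *ᵥ v = 0 := by
  rw [pow_succ', ← Matrix.mulVec_mulVec, h.hps i, Matrix.mulVec_smul, h.hs i, smul_zero]

theorem MM_zero_v (h : Sit p δ L T v s mu B) {α : Fin 3 → ℕ} {i : Fin 3} (hi : p i < α i) :
    MM T α *ᵥ v = 0 := by
  have h1 : α = (α - Pi.single i (p i + 1)) + Pi.single i (p i + 1) := by
    funext l
    rw [single_val, Pi.sub_apply, Pi.single_apply]
    by_cases h1 : l = i
    · subst h1
      rw [if_pos rfl, if_pos rfl]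
      omega
    · rw [if_neg h1, if_neg h1]
      omega
  rw [h1, MM_add h.comm, ← Matrix.mulVec_mulVec, h.pow_zero_v, Matrix.mulVec_zero]

theorem MM_zero_s (h : Sit p δ L T v s mu B) {β : Fin 3 → ℕ} (hβ : β ≠ 0) :
    MM T β *ᵥ s = 0 := by
  obtain ⟨i, hi⟩ : ∃ i, β i ≠ 0 := by
    by_contra h1
    apply hβ
    funext i
    by_contra h2
    exact h1 ⟨i, h2⟩
  have h1 : β = (β - Pi.single i 1) + Pi.single i 1 := by
    funext l
    rw [single_val, Pi.sub_apply, Pi.single_apply]
    by_cases h1 : l = i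
    · subst h1
      rw [if_pos rfl, if_pos rfl]
      omega
    · rw [if_neg h1, if_neg h1]
      omega
  rw [h1, MM_add h.comm, ← Matrix.mulVec_mulVec, pow_one, h.hs i, Matrix.mulVec_zero]

/-- images of `T i T j v` -/
theorem mem_of_hx (h : Sit p δ L T v s mu B) {i j : Fin 3} (hij : i ≠ j) (β : Fin 3 → ℕ)
    (W : Submodule k (n → k)) (h1 : β = 0 → s ∈ W)
    (h2 : ∀ l m, wt δ β + δ i + δ j < wt δ (β + Pi.single l m) →
      MM T (β + Pi.single l m) *ᵥ v ∈ W) : MM T β *ᵥ (T i *ᵥ (T j *ᵥ v)) ∈ W := by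
  have h3 : T i *ᵥ (T j *ᵥ v) ∈ W.comap (MM T β).mulVecLin := by
    refine (Submodule.span_le.2 ?_) (h.hx i j hij)
    rintro y (hy | ⟨l, m, _, hm, rfl⟩)
    · rw [Set.mem_singleton_iff] at hy
      subst hy
      rw [SetLike.mem_coe, Submodule.mem_comap, Matrix.mulVecLin_apply]
      by_cases hβ : β = 0
      · rw [hβ, MM_zero, Matrix.one_mulVec]
        exact h1 hβ
      · rw [h.MM_zero_s hβ]
        exact W.zero_mem
    · rw [SetLike.mem_coe, Submodule.mem_comap, Matrix.mulVecLin_apply, Matrix.mulVec_mulVec,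
        ← MM_add h.comm]
      apply h2
      rw [wt_add]
      omega
  exact h3

/-- monomials of weight at least `d` are in the filtration step `d` -/
theorem mono_mem (h : Sit p δ L T v s mu B) : ∀ N d, 3 * L + 1 ≤ d + N → ∀ α, d ≤ wt δ α →
    MM T α *ᵥ v ∈ Fl B (TM.lev p δ L) d := by
  intro N
  induction N with
  | zero =>
    intro d hd α hα
    have h1 : ∃ i, p i < α i := by
      by_contra h2
      have h3 : ∀ i, α i * δ i ≤ L := by
        intro i
        rw [← h.hL i]
        apply Nat.mul_le_mul_right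
        by_contra h4
        exact h2 ⟨i, by omega⟩
      have h4 := h3 0
      have h5 := h3 1
      have h6 := h3 2
      unfold wt at hα
      omega
    obtain ⟨i, hi⟩ := h1
    rw [h.MM_zero_v hi]
    exact Submodule.zero_mem _
  | succ N ih =>
    intro d hd α hα
    have ih' := ih (d + 1) (by omega)
    by_cases hd' : d + 1 ≤ wt δ α
    · exact Fl_anti (by omega) (ih' α hd')
    · have hd2 : wt δ α = d := by omega
      rcases split α with ⟨i, m, rfl⟩ | ⟨i, j, β, hij, rfl⟩
      · rw [wt_single] at hd2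
        rw [h.MM_single]
        rcases Nat.lt_trichotomy m (p i) with hm | hm | hm
        · rcases Nat.eq_zero_or_pos m with hm0 | hm0
          · subst hm0
            exact Fl_zero (by rw [← hd2, zero_mul])
          · have h1 : T i ^ m *ᵥ v = B (some (some ⟨i, ⟨m - 1, by omega⟩⟩)) := by
              rw [h.BT]
              change T i ^ m *ᵥ v = T i ^ (m - 1 + 1) *ᵥ v
              rw [Nat.sub_add_cancel hm0]
            rw [h1]
            apply Fl_basis
            change d ≤ (m - 1 + 1) * δ i
            rw [Nat.sub_add_cancel hm0, hd2]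
        · rw [hm, h.hps i, ← h.Bs]
          apply Submodule.smul_mem
          apply Fl_basis
          change d ≤ L
          rw [← hd2, hm, h.hL i]
        · have h1 := h.MM_zero_v (α := Pi.single i m) (i := i) (by simpa using hm)
          rw [h.MM_single] at h1
          rw [h1]
          exact Submodule.zero_mem _
      · rw [wt_add, wt_add] at hd2
        rw [MM_add h.comm, MM_add h.comm, pow_one, pow_one, Matrix.mul_assoc,
          ← Matrix.mulVec_mulVec, ← Matrix.mulVec_mulVec]
        apply h.mem_of_hx hij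
        · intro hβ
          rw [hβ, wt_zero] at hd2
          rw [← h.Bs]
          apply Fl_basis
          change d ≤ L
          have h3 := h.le_L i
          have h4 := h.le_L j
          omega
        · intro l m hm
          exact Fl_anti (by omega) (ih' _ (by omega))

theorem mono_mem' (h : Sit p δ L T v s mu B) {α : Fin 3 → ℕ} {d : ℕ} (hd : d ≤ wt δ α) :
    MM T α *ᵥ v ∈ Fl B (TM.lev p δ L) d :=
  h.mono_mem (3 * L + 1) d (by omega) α hd

theorem comm_pow (h : Sit p δ L T v s mu B) (i j : Fin 3) (m : ℕ) :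
    T i * T j ^ m = T j ^ m * T i :=
  ((show Commute (T i) (T j) from h.comm i j).pow_right m).eq

/-- the matrices raise the level -/
theorem raise (h : Sit p δ L T v s mu B) (i : Fin 3) (y : TM.Ix p) :
    T i *ᵥ B y ∈ Fl B (TM.lev p δ L) (TM.lev p δ L y + δ i) := by
  match y with
  | none =>
    rw [h.Bv]
    have h1 : T i *ᵥ v = MM T (Pi.single i 1) *ᵥ v := by rw [h.MM_single, pow_one]
    rw [h1]
    apply h.mono_mem'
    rw [wt_single]
    change 0 + δ i ≤ 1 * δ i
    omega
  | some none =>
    rw [h.Bs, h.hs i]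
    exact Submodule.zero_mem _
  | some (some ⟨j, m⟩) =>
    rw [h.BT]
    have h1 : T i *ᵥ (T j ^ ((m : ℕ) + 1) *ᵥ v) =
        MM T (Pi.single j ((m : ℕ) + 1) + Pi.single i 1) *ᵥ v := by
      rw [MM_add h.comm, h.MM_single, pow_one, Matrix.mulVec_mulVec, h.comm_pow]
    change T i *ᵥ (T j ^ ((m : ℕ) + 1) *ᵥ v) ∈ _
    rw [h1]
    apply h.mono_mem'
    rw [wt_add, wt_single]
    change ((m : ℕ) + 1) * δ j + δ i ≤ _
    omega

/-- products of different matrices raise the level more -/
theorem raise_more (h : Sit p δ L T v s mu B) {i j : Fin 3} (hij : i ≠ j) (m : Fin (p j - 1)) :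
    T i *ᵥ B (some (some ⟨j, m⟩)) ∈
      Fl B (TM.lev p δ L) (TM.lev p δ L (some (some ⟨j, m⟩)) + δ i + 1) := by
  rw [h.BT]
  have h1 : T i *ᵥ (T j ^ ((m : ℕ) + 1) *ᵥ v) = MM T (Pi.single j (m : ℕ)) *ᵥ
      (T i *ᵥ (T j *ᵥ v)) := by
    rw [h.MM_single, Matrix.mulVec_mulVec, Matrix.mulVec_mulVec, Matrix.mulVec_mulVec, h.comm_pow,
      pow_succ, Matrix.mul_assoc, ← h.comm i j]
    simp only [Matrix.mul_assoc]
  change T i *ᵥ (T j ^ ((m : ℕ) + 1) *ᵥ v) ∈ _
  rw [h1]
  have h5 : TM.lev p δ L (some (some ⟨j, m⟩)) = (m : ℕ) * δ j + δ j := by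
    change ((m : ℕ) + 1) * δ j = _
    ring
  rw [h5]
  apply h.mem_of_hx hij
  · intro hβ
    have hm : (m : ℕ) = 0 := by
      have := congrFun hβ j
      simpa using this
    rw [hm, ← h.Bs]
    apply Fl_basis
    change _ ≤ L
    have h3 := h.le_L i
    have h4 := h.le_L j
    have h6 := h.hδ i
    omega
  · intro l a ha
    rw [wt_single] at ha
    apply h.mono_mem'
    omega

end Sit

end TpqrClAux

/-- vector form -/
theorem cl_tpqr {k : Type*} [Field k] [CharZero k] [IsAlgClosed k] {n : Type*} [Fintype n]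
    [DecidableEq n] (p δ : Fin 3 → ℕ) (L : ℕ)
    (hp : ∀ i, 3 ≤ p i) (hδ : ∀ i, 1 ≤ δ i) (hL : ∀ i, p i * δ i = L)
    (hcard : Fintype.card n + 1 = p 0 + p 1 + p 2)
    {T : Fin 3 → Matrix n n k} (hcomm : ∀ i j, T i * T j = T j * T i) (v s : n → k)
    (hspan : ⊤ ≤ Submodule.span k ({v} ∪ {s} ∪ {y | ∃ i m, 1 ≤ m ∧ m < p i ∧ y = T i ^ m *ᵥ v}))
    (hs : ∀ i, T i *ᵥ s = 0) (hps : ∀ i, ∃ mu : k, mu ≠ 0 ∧ T i ^ p i *ᵥ v = mu • s)
    (hx : ∀ i j, i ≠ j → T i *ᵥ (T j *ᵥ v) ∈ Submodule.span k
      ({s} ∪ {y | ∃ l m, m < p l ∧ δ i + δ j < m * δ l ∧ y = T l ^ m *ᵥ v})) : Cl T := by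
  choose mu hmu hps' using hps
  let b : TM.Ix p → n → k
    | none => v
    | some none => s
    | some (some a) => T a.1 ^ ((a.2 : ℕ) + 1) *ᵥ v
  have hb : ⊤ ≤ Submodule.span k (Set.range b) := by
    refine hspan.trans (Submodule.span_mono ?_)
    rintro y ((hy | hy) | ⟨i, m, hm1, hm2, rfl⟩)
    · exact ⟨none, by rw [Set.mem_singleton_iff] at hy; exact hy.symm⟩
    · exact ⟨some none, by rw [Set.mem_singleton_iff] at hy; exact hy.symm⟩
    · refine ⟨some (some ⟨i, ⟨m - 1, by omega⟩⟩), ?_⟩
      change T i ^ (m - 1 + 1) *ᵥ v = _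
      rw [Nat.sub_add_cancel hm1]
  have hc1 : Fintype.card (TM.Ix p) = Fintype.card n := by
    rw [Fintype.card_option, Fintype.card_option, Fintype.card_sigma, Fin.sum_univ_three,
      Fintype.card_fin, Fintype.card_fin, Fintype.card_fin]
    have h0 := hp 0
    have h1 := hp 1
    have h2 := hp 2
    omega
  have hc2 : Fintype.card (TM.Ix p) = Module.finrank k (n → k) := by
    rw [hc1, Module.finrank_fintype_fun_eq_card]
  let B : Module.Basis (TM.Ix p) k (n → k) := basisOfTopLeSpanOfCardEqFinrank b hb hc2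
  have hB : ∀ y, B y = b y := fun y => by
    have := coe_basisOfTopLeSpanOfCardEqFinrank b hb hc2
    exact congrFun this y
  have S : TpqrClAux.Sit p δ L T v s mu B :=
    { hp := hp, hδ := hδ, hL := hL, comm := hcomm, hs := hs, hps := hps', hx := hx
      Bv := hB _, Bs := hB _, BT := fun a => hB _ }
  set P : Matrix n (TM.Ix p) k := (Pi.basisFun k n).toMatrix B with hP
  set Q : Matrix (TM.Ix p) n k := B.toMatrix (Pi.basisFun k n) with hQ
  have hPQ : P * Q = 1 := Module.Basis.toMatrix_mul_toMatrix_flip _ _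
  have hQP : Q * P = 1 := Module.Basis.toMatrix_mul_toMatrix_flip _ _
  have hent : ∀ i x y, (Q * T i * P) x y = B.repr (T i *ᵥ B y) x := by
    intro i x y
    have h1 : ∀ u : n → k, Q *ᵥ u = B.repr u := by
      intro u
      have h2 := Module.Basis.toMatrix_mulVec_repr (Pi.basisFun k n) B u
      have h3 : ⇑((Pi.basisFun k n).repr u) = u := by
        funext z
        rw [Pi.basisFun_repr]
      rw [h3] at h2
      exact h2
    have h2 : P *ᵥ Pi.single y 1 = B y := by
      rw [Matrix.mulVec_single_one]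
      funext z
      rw [Matrix.col_apply, hP, Module.Basis.toMatrix_apply, Pi.basisFun_repr]
    rw [← h2, ← h1, Matrix.mulVec_mulVec, Matrix.mulVec_mulVec, Matrix.mul_assoc,
      Matrix.mulVec_single_one, Matrix.col_apply]
  have hcl : Cl fun i => Q * T i * P := by
    apply cl_lead p δ L hp hδ hL mu hmu
    · intro i j
      calc Q * T i * P * (Q * T j * P) = Q * T i * (P * Q) * T j * P := by
            simp only [Matrix.mul_assoc]
        _ = Q * (T i * T j) * P := by rw [hPQ, Matrix.mul_one]; simp only [Matrix.mul_assoc]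
        _ = Q * (T j * T i) * P := by rw [hcomm i j]
        _ = Q * T j * (P * Q) * T i * P := by
            rw [hPQ, Matrix.mul_one]; simp only [Matrix.mul_assoc]
        _ = Q * T j * P * (Q * T i * P) := by simp only [Matrix.mul_assoc]
    · intro i x y h
      rw [hent]
      exact TpqrClAux.mem_Fl.1 (S.raise i y) x h
    · intro i x y h
      rw [hent]
      match y with
      | none =>
        have h1 : T i *ᵥ B none = B (some (some ⟨i, ⟨0, by have := hp i; omega⟩⟩)) := by
          rw [S.Bv, S.BT]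
          change T i *ᵥ v = T i ^ (0 + 1) *ᵥ v
          rw [zero_add, pow_one]
        rw [h1, Module.Basis.repr_self, Finsupp.single_apply]
        match x with
        | none => simp [TM.Ld]
        | some none => simp [TM.Ld]
        | some (some ⟨l, m⟩) =>
          simp only [TM.Ld]
          by_cases h2 : l = i
          · subst h2
            simp [Fin.ext_iff, eq_comm]
          · rw [if_neg, if_neg]
            · exact fun h3 => h2 h3.1
            · intro h3
              simp only [Option.some.injEq, Sigma.mk.injEq] at h3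
              exact h2 h3.1.symm
      | some none =>
        rw [S.Bs, hs i, map_zero, Finsupp.zero_apply]
        match x with
        | none => simp [TM.Ld]
        | some none => simp [TM.Ld]
        | some (some a) => simp [TM.Ld]
      | some (some ⟨j, m⟩) =>
        by_cases hij : i = j
        · subst hij
          by_cases hm : (m : ℕ) + 2 = p i
          · have h1 : T i *ᵥ B (some (some ⟨i, m⟩)) = mu i • B (some none) := by
              rw [S.Bs, S.BT, ← hps' i, Matrix.mulVec_mulVec, ← pow_succ']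
              change T i ^ ((m : ℕ) + 1 + 1) *ᵥ v = _
              congr 2
            rw [h1, map_smul, Module.Basis.repr_self, Finsupp.smul_apply, Finsupp.single_apply]
            match x with
            | none => simp [TM.Ld]
            | some none => simp [TM.Ld, hm]
            | some (some ⟨l, m'⟩) =>
              simp only [TM.Ld]
              rw [if_neg (by simp), if_neg, smul_zero]
              rintro ⟨h3, _, h4⟩
              have h5 := m'.2
              change l = i at h3
              subst h3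
              change (m' : ℕ) = (m : ℕ) + 1 at h4
              omega
          · have hm3 : (m : ℕ) + 1 < p i - 1 := by have := m.2; omega
            have h1 : T i *ᵥ B (some (some ⟨i, m⟩)) = B (some (some ⟨i, ⟨(m : ℕ) + 1, hm3⟩⟩)) := by
              rw [S.BT, S.BT, Matrix.mulVec_mulVec, ← pow_succ']
            rw [h1, Module.Basis.repr_self, Finsupp.single_apply]
            match x with
            | none => simp [TM.Ld]
            | some none => simp [TM.Ld, hm]
            | some (some ⟨l, m'⟩) =>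
              simp only [TM.Ld]
              by_cases h2 : l = i
              · subst h2
                simp [Fin.ext_iff, eq_comm]
              · rw [if_neg, if_neg]
                · exact fun h3 => h2 h3.1
                · intro h3
                  simp only [Option.some.injEq, Sigma.mk.injEq] at h3
                  exact h2 h3.1.symm
        · have h1 := TpqrClAux.mem_Fl.1 (S.raise_more hij m) x (by omega)
          rw [h1]
          match x with
          | none => simp [TM.Ld]
          | some none =>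
            simp only [TM.Ld]
            rw [if_neg]
            exact fun h3 => hij h3.1.symm
          | some (some a) =>
            simp only [TM.Ld]
            rw [if_neg]
            exact fun h3 => hij h3.2.1.symm
  have h4 := Cl.rect P Q hPQ hQP hc1 hcl
  have h5 : (fun i => P * (Q * T i * P) * Q) = T := by
    funext i
    calc P * (Q * T i * P) * Q = (P * Q) * T i * (P * Q) := by simp only [Matrix.mul_assoc]
      _ = T i := by rw [hPQ, Matrix.one_mul, Matrix.mul_one]
  rw [h5] at h4
  exact h4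

end Pool.Agent.Lib.D13
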