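import Pool.Agent.Lib.D13.I642A
import Pool.Agent.Lib.D13.TpqrCl

/-!
# MP_5dcbc3_ag: Jordan blocks of sizes 6, 4, 2: the case `g0 ≠ 0`, generic members `T(5, 5, 3)`
-/

set_option linter.unusedSimpArgs false

namespace Pool.Agent.Lib.D13

open Matrix Polynomial Pool.Agent.Lib.Q5dc Pool.Agent.Lib.D7 Pool.Agent.Lib.D8

namespace I642

variable {k : Type*} [Field k] {N : ℕ} {A B C' : Matrix (Fin N) (Fin N) k}
  {w : Fin 3 → Fin N → k} {x : Par k}

/-- the filtration with weights `3, 3, 5` -/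
def F (A : Matrix (Fin N) (Fin N) k) (w : Fin 3 → Fin N → k) (m : ℕ) : Submodule k (Fin N → k) :=
  Submodule.span k {y | (∃ i, m ≤ 3 * i ∧ y = e A w 0 i) ∨ (∃ i, m ≤ 3 * (i + 1) ∧ y = e A w 1 i) ∨
    ∃ i, m ≤ 5 * (i + 1) ∧ y = e A w 2 i}

theorem F0 {m i : ℕ} (h : m ≤ 3 * i) : e A w 0 i ∈ F A w m :=
  Submodule.subset_span (Or.inl ⟨i, h, rfl⟩)

theorem F1 {m i : ℕ} (h : m ≤ 3 * (i + 1)) : e A w 1 i ∈ F A w m :=
  Submodule.subset_span (Or.inr (Or.inl ⟨i, h, rfl⟩))

theorem F2 {m i : ℕ} (h : m ≤ 5 * (i + 1)) : e A w 2 i ∈ F A w m :=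
  Submodule.subset_span (Or.inr (Or.inr ⟨i, h, rfl⟩))

theorem F_anti {m m' : ℕ} (h : m ≤ m') : F A w m' ≤ F A w m := by
  refine Submodule.span_mono ?_
  rintro y (⟨i, hi, hy⟩ | ⟨i, hi, hy⟩ | ⟨i, hi, hy⟩)
  · exact Or.inl ⟨i, by omega, hy⟩
  · exact Or.inr (Or.inl ⟨i, by omega, hy⟩)
  · exact Or.inr (Or.inr ⟨i, by omega, hy⟩)

theorem F_map {M : Matrix (Fin N) (Fin N) k} {d : ℕ}
    (h0 : ∀ i, M *ᵥ e A w 0 i ∈ F A w (3 * i + d))
    (h1 : ∀ i, M *ᵥ e A w 1 i ∈ F A w (3 * (i + 1) + d))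
    (h2 : ∀ i, M *ᵥ e A w 2 i ∈ F A w (5 * (i + 1) + d)) {m : ℕ} {y : Fin N → k}
    (hy : y ∈ F A w m) : M *ᵥ y ∈ F A w (m + d) := by
  have h : F A w m ≤ (F A w (m + d)).comap (Matrix.mulVecLin M) := by
    conv_lhs => unfold F
    rw [Submodule.span_le]
    rintro y (⟨i, hi, rfl⟩ | ⟨i, hi, rfl⟩ | ⟨i, hi, rfl⟩)
    · exact F_anti (by omega) (h0 i)
    · exact F_anti (by omega) (h1 i)
    · exact F_anti (by omega) (h2 i)
  exact h hy

theorem Act.FA (h : Act x A B C' w) {m : ℕ} {y : Fin N → k} (hy : y ∈ F A w m) :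
    A *ᵥ y ∈ F A w (m + 3) := by
  refine F_map (fun i => ?_) (fun i => ?_) (fun i => ?_) hy
  · rw [h.a]; exact F0 (by omega)
  · rw [h.a]; exact F1 (by omega)
  · rw [h.a]; exact F2 (by omega)

theorem Act.FB (h : Act x A B C' w) (hu : x.u0 = 0) {m : ℕ} {y : Fin N → k}
    (hy : y ∈ F A w m) : B *ᵥ y ∈ F A w (m + 3) := by
  refine F_map (fun i => ?_) (fun i => ?_) (fun i => ?_) hy
  · rw [h.b0]; exact F1 (by omega)
  · rw [h.b1]
    refine add_mem (add_mem (add_mem (add_mem (add_mem (add_mem (add_mem ?_ ?_) ?_) ?_) ?_) ?_) ?_)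
      ?_ <;> refine Submodule.smul_mem _ _ ?_
    · exact F0 (by omega)
    · exact F0 (by omega)
    · exact F0 (by omega)
    · exact F0 (by omega)
    · exact F1 (by omega)
    · exact F1 (by omega)
    · exact F1 (by omega)
    · exact F2 (by omega)
  · by_cases hi : 2 ≤ i
    · rw [h.z2 i hi, Matrix.mulVec_zero]; exact zero_mem _
    · rw [h.b2, hu, zero_smul, add_zero]
      refine add_mem (add_mem (add_mem ?_ ?_) ?_) ?_ <;> refine Submodule.smul_mem _ _ ?_
      · exact F0 (by omega)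
      · exact F0 (by omega)
      · exact F1 (by omega)
      · exact F2 (by omega)

theorem Act.FC (h : Act x A B C' w) (hu : x.u0 = 0) (huu : x.uu0 = 0) {m : ℕ} {y : Fin N → k}
    (hy : y ∈ F A w m) : C' *ᵥ y ∈ F A w (m + 5) := by
  refine F_map (fun i => ?_) (fun i => ?_) (fun i => ?_) hy
  · rw [h.c0]
    refine add_mem ?_ ?_ <;> refine Submodule.smul_mem _ _ ?_
    · exact F2 (by omega)
    · exact F2 (by omega)
  · rw [h.c1, hu, mul_zero, zero_smul, add_zero]
    refine add_mem (add_mem (add_mem ?_ ?_) ?_) ?_ <;> refine Submodule.smul_mem _ _ ?_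
    · exact F0 (by omega)
    · exact F0 (by omega)
    · exact F1 (by omega)
    · exact F2 (by omega)
  · by_cases hi : 2 ≤ i
    · rw [h.z2 i hi, Matrix.mulVec_zero]; exact zero_mem _
    · rw [h.c2, huu, zero_smul, add_zero]
      refine add_mem (add_mem (add_mem ?_ ?_) ?_) ?_ <;> refine Submodule.smul_mem _ _ ?_
      · exact F0 (by omega)
      · exact F0 (by omega)
      · exact F1 (by omega)
      · exact F2 (by omega)

theorem Act.F16 (h : Act x A B C' w) {m : ℕ} (hm : 16 ≤ m) {y : Fin N → k} (hy : y ∈ F A w m) :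
    y = 0 := by
  have h1 : F A w m ≤ ⊥ := by
    unfold F
    rw [Submodule.span_le]
    rintro y (⟨i, hi, rfl⟩ | ⟨i, hi, rfl⟩ | ⟨i, hi, rfl⟩)
    · exact h.z0 i (by omega)
    · exact h.z1 i (by omega)
    · exact h.z2 i (by omega)
  exact (Submodule.mem_bot k).1 (h1 hy)

/-- the graded pieces -/
theorem Act.F_le (h : Act x A B C' w) {S : Submodule k (Fin N → k)} {m : ℕ}
    (h0 : ∀ i, i < 6 → m ≤ 3 * i → e A w 0 i ∈ S)
    (h1 : ∀ i, i < 4 → m ≤ 3 * (i + 1) → e A w 1 i ∈ S)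
    (h2 : ∀ i, i < 2 → m ≤ 5 * (i + 1) → e A w 2 i ∈ S) : F A w m ≤ S := by
  unfold F
  rw [Submodule.span_le]
  rintro y (⟨i, hi, rfl⟩ | ⟨i, hi, rfl⟩ | ⟨i, hi, rfl⟩)
  · by_cases h6 : i < 6
    · exact h0 i h6 hi
    · rw [h.z0 i (by omega)]; exact zero_mem _
  · by_cases h6 : i < 4
    · exact h1 i h6 hi
    · rw [h.z1 i (by omega)]; exact zero_mem _
  · by_cases h6 : i < 2
    · exact h2 i h6 hi
    · rw [h.z2 i (by omega)]; exact zero_mem _

/-- the powers of `B - μ A` at `v` up to higher terms; `lam`, `μ` are the roots -/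
theorem Act.powX (h : Act x A B C' w) (hcn : CN ![A, B, C']) (hu : x.u0 = 0) {lam μ : k}
    (hs : lam + μ = x.h1) (hp : lam * μ = -x.g0) (m : ℕ) :
    (B - μ • A) ^ (m + 1) *ᵥ e A w 0 0 -
      (lam - μ) ^ m • (e A w 1 m - μ • e A w 0 (m + 1)) ∈ F A w (3 * m + 6) := by
  have hAB : A * B = B * A := hcn.1 0 1
  -- the product of the two factors
  have hXY : (B - μ • A) *ᵥ ((B - lam • A) *ᵥ e A w 0 0) ∈ F A w 9 := by
    have e1 : (B - μ • A) *ᵥ ((B - lam • A) *ᵥ e A w 0 0) =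
        x.g1 • e A w 0 3 + x.g2 • e A w 0 4 + x.g3 • e A w 0 5 + x.h2 • e A w 1 2 +
          x.h3 • e A w 1 3 + x.t1 • e A w 2 1 := by
      simp only [Matrix.sub_mulVec, Matrix.smul_mulVec, Matrix.mulVec_sub, Matrix.mulVec_smul, h.a,
        h.b0, h.b1, Nat.reduceAdd]
      rw [show x.h1 = lam + μ from hs.symm, show x.g0 = -(lam * μ) by rw [hp, neg_neg]]
      module
    rw [e1]
    refine add_mem (add_mem (add_mem (add_mem (add_mem ?_ ?_) ?_) ?_) ?_) ?_ <;>
      refine Submodule.smul_mem _ _ ?_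
    · exact F0 (by omega)
    · exact F0 (by omega)
    · exact F0 (by omega)
    · exact F1 (by omega)
    · exact F1 (by omega)
    · exact F2 (by omega)
  have hX : ∀ {m : ℕ} {y : Fin N → k}, y ∈ F A w m → (B - μ • A) *ᵥ y ∈ F A w (m + 3) := by
    intro m y hy
    rw [Matrix.sub_mulVec, Matrix.smul_mulVec]
    exact sub_mem (h.FB hu hy) (Submodule.smul_mem _ _ (h.FA hy))
  have hXp : ∀ (i : ℕ) {m : ℕ} {y : Fin N → k}, y ∈ F A w m →
      (B - μ • A) ^ i *ᵥ y ∈ F A w (m + 3 * i) := by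
    intro i
    induction i with
    | zero => intro m y hy; simpa using hy
    | succ i ih =>
      intro m y hy
      rw [pow_succ, ← Matrix.mulVec_mulVec]
      have := ih (hX hy)
      rwa [show m + 3 + 3 * i = m + 3 * (i + 1) by ring] at this
  induction m with
  | zero =>
    rw [zero_add, pow_one, pow_zero, one_smul, Matrix.sub_mulVec, Matrix.smul_mulVec, h.b0, h.a,
      sub_self]
    exact zero_mem _
  | succ m ih =>
    -- `X ^ (m + 2) v = (lam - μ) A X ^ (m + 1) v + X ^ m (X Y v)`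
    have e1 : (B - μ • A) ^ (m + 1 + 1) *ᵥ e A w 0 0 = (lam - μ) • (A *ᵥ ((B - μ • A) ^ (m + 1) *ᵥ
        e A w 0 0)) + (B - μ • A) ^ m *ᵥ ((B - μ • A) *ᵥ ((B - lam • A) *ᵥ e A w 0 0)) := by
      have hcA : A * (B - μ • A) = (B - μ • A) * A := by
        rw [mul_sub, sub_mul, hAB, mul_smul_comm, smul_mul_assoc]
      have hcA' : A * (B - μ • A) ^ (m + 1) = (B - μ • A) ^ (m + 1) * A :=
        (Commute.pow_right (show Commute A (B - μ • A) from hcA) (m + 1))
      have e2 : (B - μ • A) ^ (m + 1 + 1) = (lam - μ) • (A * (B - μ • A) ^ (m + 1)) +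
          (B - μ • A) ^ m * ((B - μ • A) * (B - lam • A)) := by
        rw [hcA', pow_succ (B - μ • A) (m + 1), ← mul_assoc ((B - μ • A) ^ m),
          ← pow_succ (B - μ • A) m, ← mul_smul_comm, ← mul_add]
        congr 1
        module
      rw [e2, Matrix.add_mulVec, Matrix.smul_mulVec, Matrix.mulVec_mulVec, Matrix.mulVec_mulVec,
        Matrix.mulVec_mulVec, mul_assoc]
    have h1 := h.FA ih
    have h2 := hXp m hXY
    have e3 : (B - μ • A) ^ (m + 1 + 1) *ᵥ e A w 0 0 -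
        (lam - μ) ^ (m + 1) • (e A w 1 (m + 1) - μ • e A w 0 (m + 1 + 1)) =
        (lam - μ) • (A *ᵥ ((B - μ • A) ^ (m + 1) *ᵥ e A w 0 0 -
          (lam - μ) ^ m • (e A w 1 m - μ • e A w 0 (m + 1)))) +
          (B - μ • A) ^ m *ᵥ ((B - μ • A) *ᵥ ((B - lam • A) *ᵥ e A w 0 0)) := by
      rw [e1, Matrix.mulVec_sub, Matrix.mulVec_smul, Matrix.mulVec_sub, Matrix.mulVec_smul, h.a,
        h.a, pow_succ]
      module
    rw [e3]
    refine add_mem (Submodule.smul_mem _ _ (F_anti (by omega) h1)) (F_anti (by omega) h2)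

theorem gen_B [IsAlgClosed k] [CharZero k] (h : Act x A B C' w) (hcn : CN ![A, B, C'])
    (hN : N = 12) (hu : x.u0 = 0) (huu : x.uu0 = 0) (hg0 : x.g0 ≠ 0) (hr0 : x.r0 ≠ 0)
    (hdisc : x.h1 ^ 2 + 4 * x.g0 ≠ 0) (hww : x.ww1 ≠ 0) (hqq : x.qq0 ≠ 0) : Cl ![A, B, C'] := by
  -- the roots
  obtain ⟨d, hd⟩ := IsAlgClosed.exists_pow_nat_eq (x.h1 ^ 2 + 4 * x.g0) (n := 2) (by norm_num)
  have hd0 : d ≠ 0 := by
    rintro rfl
    rw [zero_pow (by norm_num)] at hd
    exact hdisc hd.symm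
  obtain ⟨lam, μ, hs, hp, hlm⟩ : ∃ lam μ : k, lam + μ = x.h1 ∧ lam * μ = -x.g0 ∧ lam - μ ≠ 0 := by
    refine ⟨(x.h1 + d) / 2, (x.h1 - d) / 2, ?_, ?_, ?_⟩
    · ring
    · field_simp
      linear_combination (-1 : k) * hd
    · have : (x.h1 + d) / 2 - (x.h1 - d) / 2 = d := by ring
      rwa [this]
  have hlam : lam ≠ 0 := by
    rintro rfl
    rw [zero_mul] at hp
    exact hg0 (by rw [← neg_eq_zero]; exact hp.symm)
  have hμ : μ ≠ 0 := by
    rintro rfl
    rw [mul_zero] at hp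
    exact hg0 (by rw [← neg_eq_zero]; exact hp.symm)
  have hlm' : μ - lam ≠ 0 := by
    intro h0
    exact hlm (by rw [← neg_sub, h0, neg_zero])
  set v := e A w 0 0 with hv
  set X1 := B - μ • A with hX1
  set Y1 := B - lam • A with hY1
  have hPX := h.powX hcn hu hs hp
  have hPY := h.powX hcn hu (lam := μ) (μ := lam) (by rw [add_comm]; exact hs)
    (by rw [mul_comm]; exact hp)
  rw [← hv, ← hX1] at hPX
  rw [← hv, ← hY1] at hPY
  have hC1 : C' *ᵥ v = x.r0 • e A w 2 0 + x.r1 • e A w 2 1 := by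
    rw [hv, h.c0]
  have hC2 : C' ^ 2 *ᵥ v - (x.r0 * x.ww1) • e A w 2 1 ∈ F A w 12 := by
    have e1 : C' ^ 2 *ᵥ v - (x.r0 * x.ww1) • e A w 2 1 = (x.r0 * x.qq0) • e A w 0 4 +
        (x.r0 * x.qq1 + x.r1 * x.qq0) • e A w 0 5 + (x.r0 * x.uu1) • e A w 1 3 := by
      rw [pow_two, ← Matrix.mulVec_mulVec, hC1]
      simp only [Matrix.mulVec_add, Matrix.mulVec_smul, h.c0, h.c1, h.c2, Nat.reduceAdd, h.z0, h.z1,
        h.z2, le_refl, Nat.reduceLeDiff, smul_zero, add_zero, zero_add, hu, huu, zero_smul,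
        smul_add, smul_smul]
      module
    rw [e1]
    refine add_mem (add_mem ?_ ?_) ?_ <;> refine Submodule.smul_mem _ _ ?_
    · exact F0 (by omega)
    · exact F0 (by omega)
    · exact F1 (by omega)
  have hC3 : C' ^ 3 *ᵥ v = (x.r0 * x.ww1 * x.qq0) • e A w 0 5 := by
    have h1 := h.FC hu huu hC2
    have h2 := h.F16 (by norm_num) h1
    rw [Matrix.mulVec_sub, Matrix.mulVec_mulVec, ← pow_succ', sub_eq_zero, Matrix.mulVec_smul,
      h.c2] at h2
    rw [h2]
    simp only [Nat.reduceAdd, h.z0, h.z1, h.z2, le_refl, Nat.reduceLeDiff, smul_zero, add_zero,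
      zero_add, smul_smul, huu, zero_smul]
  -- the main span lemma
  have key : ∀ S : Submodule k (Fin N → k), e A w 0 5 ∈ S → X1 ^ 4 *ᵥ v ∈ S → Y1 ^ 4 *ᵥ v ∈ S →
      C' ^ 2 *ᵥ v ∈ S → X1 ^ 3 *ᵥ v ∈ S → Y1 ^ 3 *ᵥ v ∈ S → F A w 9 ≤ S := by
    intro S a5 x4 y4 c2 x3 y3
    have pair : ∀ m : ℕ, F A w (3 * m + 6) ≤ S → X1 ^ (m + 1) *ᵥ v ∈ S → Y1 ^ (m + 1) *ᵥ v ∈ S →
        e A w 0 (m + 1) ∈ S ∧ e A w 1 m ∈ S := by
      intro m hF hx hy
      have h1 := S.sub_mem hx (hF (hPX m))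
      have h2 := S.sub_mem hy (hF (hPY m))
      rw [sub_sub_cancel] at h1 h2
      have h3 := S.smul_mem ((lam - μ) ^ m)⁻¹ h1
      have h4 := S.smul_mem ((μ - lam) ^ m)⁻¹ h2
      rw [smul_smul, inv_mul_cancel₀ (pow_ne_zero m hlm), one_smul] at h3
      rw [smul_smul, inv_mul_cancel₀ (pow_ne_zero m hlm'), one_smul] at h4
      have h5 := S.smul_mem (lam - μ)⁻¹ (S.sub_mem h3 h4)
      have h6 : (lam - μ)⁻¹ • (e A w 1 m - μ • e A w 0 (m + 1) -
          (e A w 1 m - lam • e A w 0 (m + 1))) = e A w 0 (m + 1) := by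
        have : e A w 1 m - μ • e A w 0 (m + 1) - (e A w 1 m - lam • e A w 0 (m + 1)) =
            (lam - μ) • e A w 0 (m + 1) := by module
        rw [this, smul_smul, inv_mul_cancel₀ hlm, one_smul]
      rw [h6] at h5
      refine ⟨h5, ?_⟩
      have h7 := S.add_mem h3 (S.smul_mem μ h5)
      rwa [sub_add_cancel] at h7
    have hF15 : F A w 15 ≤ S := by
      refine h.F_le (fun i h1 h2 => ?_) (fun i h1 h2 => by omega) (fun i h1 h2 => by omega)
      have : i = 5 := by omega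
      rw [this]; exact a5
    obtain ⟨a4, b3⟩ := pair 3 hF15 x4 y4
    have hF12 : F A w 12 ≤ S := by
      refine h.F_le (fun i h1 h2 => ?_) (fun i h1 h2 => ?_) (fun i h1 h2 => by omega)
      · have : i = 4 ∨ i = 5 := by omega
        rcases this with rfl | rfl
        · exact a4
        · exact a5
      · have : i = 3 := by omega
        rw [this]; exact b3
    obtain ⟨a3, b2⟩ := pair 2 hF12 x3 y3
    have hrw : x.r0 * x.ww1 ≠ 0 := mul_ne_zero hr0 hww
    have c1 : e A w 2 1 ∈ S := by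
      have h1 := S.sub_mem c2 (hF12 hC2)
      rw [sub_sub_cancel] at h1
      have h2 := S.smul_mem (x.r0 * x.ww1)⁻¹ h1
      rwa [smul_smul, inv_mul_cancel₀ hrw, one_smul] at h2
    refine h.F_le (fun i h1 h2 => ?_) (fun i h1 h2 => ?_) (fun i h1 h2 => ?_)
    · have : i = 3 ∨ i = 4 ∨ i = 5 := by omega
      rcases this with rfl | rfl | rfl
      · exact a3
      · exact a4
      · exact a5
    · have : i = 2 ∨ i = 3 := by omega
      rcases this with rfl | rfl
      · exact b2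
      · exact b3
    · have : i = 1 := by omega
      rw [this]; exact c1
  -- the criterion
  have hm0 : A ∈ adj ![A, B, C'] := mem_adj ![A, B, C'] 0
  have hm1 : B ∈ adj ![A, B, C'] := mem_adj ![A, B, C'] 1
  have hm2 : C' ∈ adj ![A, B, C'] := mem_adj ![A, B, C'] 2
  have hmem : ∀ i, ![X1, Y1, C'] i ∈ adj ![A, B, C'] := by
    intro i
    fin_cases i
    · exact sub_mem hm1 (SMulMemClass.smul_mem _ hm0)
    · exact sub_mem hm1 (SMulMemClass.smul_mem _ hm0)
    · exact hm2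
  have hcn' : CN ![X1, Y1, C'] := hcn.of_adj hmem
  have hcl : Cl ![X1, Y1, C'] := by
    refine cl_tpqr ![5, 5, 3] ![3, 3, 5] 15 (by decide) (by decide) (by decide) ?_ hcn'.1 v
      (e A w 0 5) ?_ ?_ ?_ ?_
    · rw [Fintype.card_fin, hN]
      rfl
    · -- the span
      set S := Submodule.span k ({v} ∪ {e A w 0 5} ∪ {y | ∃ i m, 1 ≤ m ∧
        m < (![5, 5, 3] : Fin 3 → ℕ) i ∧ y = ![X1, Y1, C'] i ^ m *ᵥ v}) with hS
      have hm : ∀ (i : Fin 3) (m : ℕ), 1 ≤ m → m < (![5, 5, 3] : Fin 3 → ℕ) i →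
          ![X1, Y1, C'] i ^ m *ᵥ v ∈ S := fun i m h1 h2 =>
        Submodule.subset_span (Or.inr ⟨i, m, h1, h2, rfl⟩)
      have hv0 : v ∈ S := Submodule.subset_span (Or.inl (Or.inl rfl))
      have ha5 : e A w 0 5 ∈ S := Submodule.subset_span (Or.inl (Or.inr rfl))
      have hF9 := key S ha5 (hm 0 4 (by norm_num) (by decide)) (hm 1 4 (by norm_num) (by decide))
        (hm 2 2 (by norm_num) (by decide)) (hm 0 3 (by norm_num) (by decide))
        (hm 1 3 (by norm_num) (by decide))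
      have pair : ∀ m : ℕ, F A w (3 * m + 6) ≤ S → X1 ^ (m + 1) *ᵥ v ∈ S →
          Y1 ^ (m + 1) *ᵥ v ∈ S → e A w 0 (m + 1) ∈ S ∧ e A w 1 m ∈ S := by
        intro m hF hx hy
        have h1 := S.sub_mem hx (hF (hPX m))
        have h2 := S.sub_mem hy (hF (hPY m))
        rw [sub_sub_cancel] at h1 h2
        have h3 := S.smul_mem ((lam - μ) ^ m)⁻¹ h1
        have h4 := S.smul_mem ((μ - lam) ^ m)⁻¹ h2
        rw [smul_smul, inv_mul_cancel₀ (pow_ne_zero m hlm), one_smul] at h3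
        rw [smul_smul, inv_mul_cancel₀ (pow_ne_zero m hlm'), one_smul] at h4
        have h5 := S.smul_mem (lam - μ)⁻¹ (S.sub_mem h3 h4)
        have h6 : (lam - μ)⁻¹ • (e A w 1 m - μ • e A w 0 (m + 1) -
            (e A w 1 m - lam • e A w 0 (m + 1))) = e A w 0 (m + 1) := by
          have : e A w 1 m - μ • e A w 0 (m + 1) - (e A w 1 m - lam • e A w 0 (m + 1)) =
              (lam - μ) • e A w 0 (m + 1) := by module
          rw [this, smul_smul, inv_mul_cancel₀ hlm, one_smul]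
        rw [h6] at h5
        refine ⟨h5, ?_⟩
        have h7 := S.add_mem h3 (S.smul_mem μ h5)
        rwa [sub_add_cancel] at h7
      obtain ⟨a2, b1⟩ := pair 1 hF9 (hm 0 2 (by norm_num) (by decide))
        (hm 1 2 (by norm_num) (by decide))
      have hF6 : F A w 6 ≤ S := by
        refine h.F_le (fun i h1 h2 => ?_) (fun i h1 h2 => ?_) (fun i h1 h2 => ?_)
        · rcases Nat.lt_or_ge i 3 with h3 | h3
          · have : i = 2 := by omega
            rw [this]; exact a2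
          · exact hF9 (F0 (by omega))
        · rcases Nat.lt_or_ge i 2 with h3 | h3
          · have : i = 1 := by omega
            rw [this]; exact b1
          · exact hF9 (F1 (by omega))
        · exact hF9 (F2 (by omega))
      obtain ⟨a1, b0⟩ := pair 0 hF6 (hm 0 1 le_rfl (by decide)) (hm 1 1 le_rfl (by decide))
      have c0 : e A w 2 0 ∈ S := by
        have h1 := hm 2 1 le_rfl (by decide)
        rw [pow_one, show (![X1, Y1, C'] 2) = C' from rfl, hC1] at h1
        have h2 := S.smul_mem x.r0⁻¹ (S.sub_mem h1 (S.smul_mem x.r1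
          (show e A w 2 1 ∈ S from hF6 (F2 (by omega)))))
        rwa [add_sub_cancel_right, smul_smul, inv_mul_cancel₀ hr0, one_smul] at h2
      have htop : S = ⊤ := by
        refine h.sp S fun i m => ?_
        fin_cases i
        · show e A w 0 m ∈ S
          rcases Nat.lt_or_ge m 2 with h3 | h3
          · have : m = 0 ∨ m = 1 := by omega
            rcases this with rfl | rfl
            · exact hv0
            · exact a1
          · exact hF6 (F0 (by omega))
        · show e A w 1 m ∈ S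
          rcases Nat.lt_or_ge m 1 with h3 | h3
          · have : m = 0 := by omega
            rw [this]; exact b0
          · exact hF6 (F1 (by omega))
        · show e A w 2 m ∈ S
          rcases Nat.lt_or_ge m 1 with h3 | h3
          · have : m = 0 := by omega
            rw [this]; exact c0
          · exact hF6 (F2 (by omega))
      rw [htop]
    · intro i
      fin_cases i
      · show (B - μ • A) *ᵥ e A w 0 5 = 0
        rw [Matrix.sub_mulVec, Matrix.smul_mulVec, h.b0, h.a, h.z1 5 (by norm_num),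
          h.z0 (5 + 1) (by norm_num), smul_zero, sub_zero]
      · show (B - lam • A) *ᵥ e A w 0 5 = 0
        rw [Matrix.sub_mulVec, Matrix.smul_mulVec, h.b0, h.a, h.z1 5 (by norm_num),
          h.z0 (5 + 1) (by norm_num), smul_zero, sub_zero]
      · show C' *ᵥ e A w 0 5 = 0
        rw [h.c0, h.z2 5 (by norm_num), h.z2 (5 + 1) (by norm_num), smul_zero, smul_zero, add_zero]
    · intro i
      fin_cases i
      · refine ⟨-μ * (lam - μ) ^ 4, mul_ne_zero (neg_ne_zero.2 hμ) (pow_ne_zero 4 hlm), ?_⟩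
        show X1 ^ 5 *ᵥ v = _
        have h1 := h.F16 (by norm_num) (hPX 4)
        rw [sub_eq_zero] at h1
        rw [h1, h.z1 4 le_rfl]
        module
      · refine ⟨-lam * (μ - lam) ^ 4, mul_ne_zero (neg_ne_zero.2 hlam) (pow_ne_zero 4 hlm'), ?_⟩
        show Y1 ^ 5 *ᵥ v = _
        have h1 := h.F16 (by norm_num) (hPY 4)
        rw [sub_eq_zero] at h1
        rw [h1, h.z1 4 le_rfl]
        module
      · exact ⟨x.r0 * x.ww1 * x.qq0, mul_ne_zero (mul_ne_zero hr0 hww) hqq, hC3⟩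
    · -- the products
      have hXY : X1 *ᵥ (Y1 *ᵥ v) ∈ F A w 9 := by
        have e1 : X1 *ᵥ (Y1 *ᵥ v) =
            x.g1 • e A w 0 3 + x.g2 • e A w 0 4 + x.g3 • e A w 0 5 + x.h2 • e A w 1 2 +
              x.h3 • e A w 1 3 + x.t1 • e A w 2 1 := by
          rw [hX1, hY1, hv]
          simp only [Matrix.sub_mulVec, Matrix.smul_mulVec, Matrix.mulVec_sub, Matrix.mulVec_smul,
            h.a, h.b0, h.b1, Nat.reduceAdd]
          rw [show x.h1 = lam + μ from hs.symm, show x.g0 = -(lam * μ) by rw [hp, neg_neg]]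
          module
        rw [e1]
        refine add_mem (add_mem (add_mem (add_mem (add_mem ?_ ?_) ?_) ?_) ?_) ?_ <;>
          refine Submodule.smul_mem _ _ ?_
        · exact F0 (by omega)
        · exact F0 (by omega)
        · exact F0 (by omega)
        · exact F1 (by omega)
        · exact F1 (by omega)
        · exact F2 (by omega)
      have hBC : ∀ ν : k, (B - ν • A) *ᵥ (C' *ᵥ v) ∈ F A w 9 := by
        intro ν
        have e1 : (B - ν • A) *ᵥ (C' *ᵥ v) = (x.r0 * x.q0) • e A w 0 4 +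
            (x.r0 * x.q1 + x.r1 * x.q0) • e A w 0 5 + (x.r0 * x.u1) • e A w 1 3 +
            (x.r0 * x.w1 - ν * x.r0) • e A w 2 1 := by
          rw [hC1]
          simp only [Matrix.sub_mulVec, Matrix.smul_mulVec, Matrix.mulVec_add, Matrix.mulVec_smul,
            h.a, h.b2, Nat.reduceAdd, h.z0, h.z1,
            h.z2, le_refl, Nat.reduceLeDiff, smul_zero, add_zero, zero_add, hu, zero_smul,
            smul_add, smul_smul]
          module
        rw [e1]
        refine add_mem (add_mem (add_mem ?_ ?_) ?_) ?_ <;> refine Submodule.smul_mem _ _ ?_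
        · exact F0 (by omega)
        · exact F0 (by omega)
        · exact F1 (by omega)
        · exact F2 (by omega)
      have hle : ∀ d, d ≤ 8 → F A w 9 ≤ Submodule.span k ({e A w 0 5} ∪ {y | ∃ l m,
          m < (![5, 5, 3] : Fin 3 → ℕ) l ∧ d < m * (![3, 3, 5] : Fin 3 → ℕ) l ∧
            y = ![X1, Y1, C'] l ^ m *ᵥ v}) := by
        intro d hd
        have hm : ∀ (l : Fin 3) (m : ℕ), m < (![5, 5, 3] : Fin 3 → ℕ) l →
            d < m * (![3, 3, 5] : Fin 3 → ℕ) l → ![X1, Y1, C'] l ^ m *ᵥ v ∈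
            Submodule.span k ({e A w 0 5} ∪ {y | ∃ l m, m < (![5, 5, 3] : Fin 3 → ℕ) l ∧
              d < m * (![3, 3, 5] : Fin 3 → ℕ) l ∧ y = ![X1, Y1, C'] l ^ m *ᵥ v}) :=
          fun l m h1 h2 => Submodule.subset_span (Or.inr ⟨l, m, h1, h2, rfl⟩)
        refine key _ (Submodule.subset_span (Or.inl rfl)) (hm 0 4 (by decide) ?_)
          (hm 1 4 (by decide) ?_) (hm 2 2 (by decide) ?_) (hm 0 3 (by decide) ?_)
          (hm 1 3 (by decide) ?_)
        · show d < 4 * 3; omega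
        · show d < 4 * 3; omega
        · show d < 2 * 5; omega
        · show d < 3 * 3; omega
        · show d < 3 * 3; omega
      have hcomm : ∀ i j : Fin 3, ![X1, Y1, C'] i *ᵥ (![X1, Y1, C'] j *ᵥ v) =
          ![X1, Y1, C'] j *ᵥ (![X1, Y1, C'] i *ᵥ v) := by
        intro i j
        rw [Matrix.mulVec_mulVec, Matrix.mulVec_mulVec, hcn'.1]
      intro i j hij
      fin_cases i <;> fin_cases j
      · exact absurd rfl hij
      · exact hle 6 (by norm_num) hXY
      · exact hle 8 le_rfl (hBC μ)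
      · rw [hcomm]; exact hle 6 (by norm_num) hXY
      · exact absurd rfl hij
      · exact hle 8 le_rfl (hBC lam)
      · rw [hcomm]; exact hle 8 le_rfl (hBC μ)
      · rw [hcomm]; exact hle 8 le_rfl (hBC lam)
      · exact absurd rfl hij
  refine cl_of_adj (fun i => ?_) hcl
  have n0 : X1 ∈ adj ![X1, Y1, C'] := mem_adj ![X1, Y1, C'] 0
  have n1 : Y1 ∈ adj ![X1, Y1, C'] := mem_adj ![X1, Y1, C'] 1
  have n2 : C' ∈ adj ![X1, Y1, C'] := mem_adj ![X1, Y1, C'] 2
  have hA' : A = (lam - μ)⁻¹ • (X1 - Y1) := by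
    have : X1 - Y1 = (lam - μ) • A := by rw [hX1, hY1]; module
    rw [this, smul_smul, inv_mul_cancel₀ hlm, one_smul]
  have hAm : A ∈ adj ![X1, Y1, C'] := by
    rw [hA']
    exact SMulMemClass.smul_mem _ (sub_mem n0 n1)
  fin_cases i
  · exact hAm
  · have : B = X1 + μ • A := by rw [hX1]; abel
    show B ∈ _
    rw [this]
    exact add_mem n0 (SMulMemClass.smul_mem _ hAm)
  · exact n2

end I642

end Pool.Agent.Lib.D13
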