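import Pool.Agent.Lib.D13.I642B
import Pool.Agent.Lib.D13.I642C
import Pool.Agent.Lib.D8.UtilB

/-!
# MP_5dcbc3_ag: Jordan blocks of sizes 6, 4, 2: closures of the families in the case `y v1 = v2`
-/

namespace Pool.Agent.Lib.D13

open Matrix Polynomial Pool.Agent.Lib.Q5dc Pool.Agent.Lib.D7 Pool.Agent.Lib.D8

namespace I642

variable {k : Type*} [Field k] {x : Par k}

theorem card12 {N : ℕ} {A : Matrix (Fin N) (Fin N) k} {w : Fin 3 → Fin N → k}
    (hA : PB.BlkB A w ![6, 4, 2]) : N = 12 := by
  rw [hA.card, Fin.sum_univ_three]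
  rfl

theorem not_bad_A [IsAlgClosed k] (hg0 : x.g0 = 0) (hr0 : x.r0 ≠ 0) (hh1 : x.h1 ≠ 0)
    (hww : x.ww1 ≠ 0) (huu : x.uu0 ≠ 0) (hd : x.h1 * x.qq0 - x.uu0 * x.g1 ≠ 0) : ¬ Bad1 x := by
  rintro ⟨N, A, B, C', w, hA, hB, hC, hM⟩
  exact hM.ncl (gen_A (act hA hB hC) hM.cn (card12 hA) hg0 hr0 hh1 hww huu hd)

theorem not_bad_B [IsAlgClosed k] [CharZero k] (hu : x.u0 = 0) (huu : x.uu0 = 0)
    (hg0 : x.g0 ≠ 0) (hr0 : x.r0 ≠ 0) (hdisc : x.h1 ^ 2 + 4 * x.g0 ≠ 0) (hww : x.ww1 ≠ 0)
    (hqq : x.qq0 ≠ 0) : ¬ Bad1 x := by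
  rintro ⟨N, A, B, C', w, hA, hB, hC, hM⟩
  exact hM.ncl (gen_B (act hA hB hC) hM.cn (card12 hA) hu huu hg0 hr0 hdisc hww hqq)

/-- outside of a finite set of parameters -/
theorem false_of_finite [Infinite k] {c : k → Par k} (hc : PC c) {E : Set k} (hE : E.Finite)
    (hrel : ∀ s ∉ E, Rel (c s)) {E' : Set k} (hE' : E'.Finite) (hn : ∀ s ∉ E', ¬ Bad1 (c s)) :
    ¬ Bad1 (c 0) := by
  refine Bad1.false_of_curve hc hE hrel ?_
  exact (hE'.infinite_compl).mono fun s hs => hn s hs

theorem fin_lin (a : k) : {s : k | a + s = 0}.Finite := by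
  have h : {s : k | a + s = 0} ⊆ {-a} := by
    intro s hs
    have h1 : a + s = 0 := hs
    rw [Set.mem_singleton_iff]
    linear_combination h1
  exact (Set.finite_singleton _).subset h

/-! ### the case `g0 ≠ 0` -/

theorem case_B [IsAlgClosed k] [CharZero k] (hR : Rel x) (hu : x.u0 = 0) (huu : x.uu0 = 0)
    (hg0 : x.g0 ≠ 0) : ¬ Bad1 x := by
  have : Infinite k := IsAlgClosed.instInfinite
  have hdisc : {s : k | (x.h1 + s) ^ 2 + 4 * x.g0 = 0}.Finite := by
    have h := finite_quad (k := k) (a := x.h1 ^ 2 + 4 * x.g0) (b := 2 * x.h1) (c := 1)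
      (Or.inr (Or.inr one_ne_zero))
    refine h.subset fun s hs => ?_
    have h1 : (x.h1 + s) ^ 2 + 4 * x.g0 = 0 := hs
    show x.h1 ^ 2 + 4 * x.g0 + 2 * x.h1 * s + 1 * s ^ 2 = 0
    linear_combination h1
  have ha1 := hR.a1
  have hc1 := hR.c1
  rw [hu] at ha1
  rw [huu] at hc1
  by_cases hrt : x.r0 ≠ 0 ∨ x.t1 ≠ 0
  · -- the first curve
    obtain ⟨c, h1, h2⟩ : ∃ c, (x.h1 - x.w1) * x.q0 - x.u1 * x.g0 = c * x.t1 ∧
        x.qq0 = -(c * x.r0) := by
      by_cases hr : x.r0 = 0
      · have ht : x.t1 ≠ 0 := by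
          rcases hrt with h | h
          · exact absurd hr h
          · exact h
        have hq : x.qq0 = 0 := by
          have : x.t1 * x.qq0 = 0 := by
            rw [hr] at ha1
            linear_combination ha1
          exact (mul_eq_zero.1 this).resolve_left ht
        refine ⟨((x.h1 - x.w1) * x.q0 - x.u1 * x.g0) / x.t1, ?_, ?_⟩
        · field_simp
        · rw [hr, hq]; ring
      · refine ⟨-x.qq0 / x.r0, ?_, ?_⟩
        · field_simp
          linear_combination ha1
        · field_simp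
    let cu : k → Par k := fun s => { x with
      r0 := x.r0 + s
      h1 := x.h1 + s
      ww1 := x.ww1 + s
      qq0 := -((c + s) * (x.r0 + s))
      u1 := ((x.h1 + s - x.w1) * x.q0 - (c + s) * x.t1) * x.g0⁻¹
      uu1 := (x.w1 * (-((c + s) * (x.r0 + s))) - (x.ww1 + s) * x.q0) * x.g0⁻¹ }
    have hcu0 : cu 0 = x := by
      ext
      · exact add_zero _
      · rfl
      · rfl
      · rfl
      · rfl
      · rfl
      · exact add_zero _
      · rfl
      · rfl
      · rfl
      · rfl
      · rfl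
      · rfl
      · show ((x.h1 + 0 - x.w1) * x.q0 - (c + 0) * x.t1) * x.g0⁻¹ = x.u1
        field_simp
        linear_combination h1
      · rfl
      · show -((c + 0) * (x.r0 + 0)) = x.qq0
        rw [h2]; ring
      · rfl
      · rfl
      · show (x.w1 * (-((c + 0) * (x.r0 + 0))) - (x.ww1 + 0) * x.q0) * x.g0⁻¹ = x.uu1
        field_simp
        linear_combination -hc1 - x.w1 * h2
      · exact add_zero _
    have hpc : PC cu := by
      constructor <;> (simp only [cu]; repeat (first
        | exact D7.IsPoly.const _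
        | exact D7.IsPoly.id
        | apply D7.IsPoly.add
        | apply D7.IsPoly.sub
        | apply D7.IsPoly.mul
        | apply D7.IsPoly.neg
        | apply D7.IsPoly.pow))
    rw [← hcu0]
    refine false_of_finite hpc Set.finite_empty (fun s _ => ?_)
      ((((fin_lin x.r0).union (fin_lin c)).union (fin_lin x.ww1)).union hdisc) (fun s hs => ?_)
    · constructor
      · show (x.r0 + s) * x.u0 * x.g0 = 0
        rw [hu]; ring
      · show (x.r0 + s) * ((x.h1 + s - x.w1) * x.q0 - x.u0 * x.g1 -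
          ((x.h1 + s - x.w1) * x.q0 - (c + s) * x.t1) * x.g0⁻¹ * x.g0) - x.r1 * x.u0 * x.g0 +
          x.t1 * (-((c + s) * (x.r0 + s))) = 0
        rw [hu, mul_assoc _ x.g0⁻¹, inv_mul_cancel₀ hg0]
        ring
      · show x.t1 * x.uu0 = (x.r0 + s) * x.w1 * x.u0
        rw [hu, huu]; ring
      · show x.uu0 * x.g0 = 0
        rw [huu]; ring
      · show x.uu0 * x.g1 + (x.w1 * (-((c + s) * (x.r0 + s))) - (x.ww1 + s) * x.q0) * x.g0⁻¹ * x.g0 +
          (x.ww1 + s) * x.q0 - x.w1 * (-((c + s) * (x.r0 + s))) = 0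
        rw [huu, mul_assoc _ x.g0⁻¹, inv_mul_cancel₀ hg0]
        ring
      · show x.uu0 * (x.w1 - (x.h1 + s)) = (x.ww1 + s) * x.u0
        rw [hu, huu]; ring
    · simp only [Set.mem_union, not_or, Set.mem_ofPred_eq] at hs
      obtain ⟨⟨⟨s1, s2⟩, s3⟩, s4⟩ := hs
      exact not_bad_B hu huu hg0 s1 s4 s3 (neg_ne_zero.2 (mul_ne_zero s2 s1))
  · -- the second curve
    push Not at hrt
    obtain ⟨hr, ht⟩ := hrt
    let cu : k → Par k := fun s => { x with
      r0 := s * (x.qq0 + s)
      t1 := -(s * ((x.h1 - x.w1) * x.q0 - x.u1 * x.g0))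
      h1 := x.h1 + s
      ww1 := x.ww1 + s
      qq0 := x.qq0 + s
      u1 := ((x.h1 + s - x.w1) * x.q0 - ((x.h1 - x.w1) * x.q0 - x.u1 * x.g0)) * x.g0⁻¹
      uu1 := (x.w1 * (x.qq0 + s) - (x.ww1 + s) * x.q0) * x.g0⁻¹ }
    have hcu0 : cu 0 = x := by
      ext
      · show 0 * (x.qq0 + 0) = x.r0
        rw [hr]; ring
      · rfl
      · rfl
      · rfl
      · rfl
      · rfl
      · exact add_zero _
      · rfl
      · rfl
      · show -(0 * ((x.h1 - x.w1) * x.q0 - x.u1 * x.g0)) = x.t1
        rw [ht]; ring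
      · rfl
      · rfl
      · rfl
      · show ((x.h1 + 0 - x.w1) * x.q0 - ((x.h1 - x.w1) * x.q0 - x.u1 * x.g0)) * x.g0⁻¹ = x.u1
        field_simp
        ring
      · rfl
      · exact add_zero _
      · rfl
      · rfl
      · show (x.w1 * (x.qq0 + 0) - (x.ww1 + 0) * x.q0) * x.g0⁻¹ = x.uu1
        field_simp
        linear_combination -hc1
      · exact add_zero _
    have hpc : PC cu := by
      constructor <;> (simp only [cu]; repeat (first
        | exact D7.IsPoly.const _
        | exact D7.IsPoly.id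
        | apply D7.IsPoly.add
        | apply D7.IsPoly.sub
        | apply D7.IsPoly.mul
        | apply D7.IsPoly.neg
        | apply D7.IsPoly.pow))
    rw [← hcu0]
    refine false_of_finite hpc Set.finite_empty (fun s _ => ?_)
      ((((fin_lin (0 : k)).union (fin_lin x.qq0)).union (fin_lin x.ww1)).union hdisc)
      (fun s hs => ?_)
    · constructor
      · show s * (x.qq0 + s) * x.u0 * x.g0 = 0
        rw [hu]; ring
      · show s * (x.qq0 + s) * ((x.h1 + s - x.w1) * x.q0 - x.u0 * x.g1 -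
          ((x.h1 + s - x.w1) * x.q0 - ((x.h1 - x.w1) * x.q0 - x.u1 * x.g0)) * x.g0⁻¹ * x.g0) -
          x.r1 * x.u0 * x.g0 + -(s * ((x.h1 - x.w1) * x.q0 - x.u1 * x.g0)) * (x.qq0 + s) = 0
        rw [hu, mul_assoc _ x.g0⁻¹, inv_mul_cancel₀ hg0]
        ring
      · show -(s * ((x.h1 - x.w1) * x.q0 - x.u1 * x.g0)) * x.uu0 = s * (x.qq0 + s) * x.w1 * x.u0
        rw [hu, huu]; ring
      · show x.uu0 * x.g0 = 0
        rw [huu]; ring
      · show x.uu0 * x.g1 + (x.w1 * (x.qq0 + s) - (x.ww1 + s) * x.q0) * x.g0⁻¹ * x.g0 +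
          (x.ww1 + s) * x.q0 - x.w1 * (x.qq0 + s) = 0
        rw [huu, mul_assoc _ x.g0⁻¹, inv_mul_cancel₀ hg0]
        ring
      · show x.uu0 * (x.w1 - (x.h1 + s)) = (x.ww1 + s) * x.u0
        rw [hu, huu]; ring
    · simp only [Set.mem_union, not_or, Set.mem_ofPred_eq] at hs
      obtain ⟨⟨⟨s1, s2⟩, s3⟩, s4⟩ := hs
      rw [zero_add] at s1
      exact not_bad_B hu huu hg0 (mul_ne_zero s1 s2) s4 s3 s2

/-! ### the component M0 of the case `g0 = 0` -/

/-- the family parametrising M0 -/
def FA (x : Par k) (r u v q p τ η : k) : Par k :=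
  { x with
    r0 := r
    g0 := 0
    g1 := η * q + τ * p
    h1 := v * τ + u * η
    t1 := r * u * τ
    q0 := q
    u0 := u
    w1 := v * τ
    qq0 := p
    uu0 := v
    ww1 := -(v * η) }

theorem FA_rel (x : Par k) (r u v q p τ η : k) : Rel (FA x r u v q p τ η) := by
  constructor <;> simp only [FA] <;> ring

theorem FA_pc {c : Par k} {r u v q p τ η : k → k} (hr : IsPoly r) (hu : IsPoly u) (hv : IsPoly v)
    (hq : IsPoly q) (hp : IsPoly p) (hτ : IsPoly τ) (hη : IsPoly η) :
    PC fun s => FA c (r s) (u s) (v s) (q s) (p s) (τ s) (η s) :=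
  ⟨hr, D7.IsPoly.const _, D7.IsPoly.const _, (hη.mul hq).add (hτ.mul hp), D7.IsPoly.const _,
    D7.IsPoly.const _, (hv.mul hτ).add (hu.mul hη), D7.IsPoly.const _, D7.IsPoly.const _,
    (hr.mul hu).mul hτ, hq, D7.IsPoly.const _, hu, D7.IsPoly.const _, hv.mul hτ, hp,
    D7.IsPoly.const _, hv, D7.IsPoly.const _, (hv.mul hη).neg⟩

theorem FA_not_bad [IsAlgClosed k] [CharZero k] (x : Par k) (r u v q p τ η : k) :
    ¬ Bad1 (FA x r u v q p τ η) := by
  have : Infinite k := IsAlgClosed.instInfinite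
  have hl : ∀ a : k, IsPoly fun s => a + s := fun a => (D7.IsPoly.const a).add D7.IsPoly.id
  have h0 : FA x r u v q p τ η =
      (fun s => FA x (r + s) (u + s) (v + s) q (p + s) (τ + s) (η + s)) 0 := by
    simp only [add_zero]
  rw [h0]
  have hf1 : {s : k | (v + s) * (τ + s) + (u + s) * (η + s) = 0}.Finite := by
    have h := finite_quad (k := k) (a := v * τ + u * η) (b := v + τ + u + η) (c := 2)
      (Or.inr (Or.inr two_ne_zero))
    refine h.subset fun s hs => ?_
    have h1 : (v + s) * (τ + s) + (u + s) * (η + s) = 0 := hs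
    show v * τ + u * η + (v + τ + u + η) * s + 2 * s ^ 2 = 0
    linear_combination h1
  have hf2 : {s : k | (u + s) * (p + s) - (v + s) * q = 0}.Finite := by
    have h := finite_quad (k := k) (a := u * p - v * q) (b := u + p - q) (c := 1)
      (Or.inr (Or.inr one_ne_zero))
    refine h.subset fun s hs => ?_
    have h1 : (u + s) * (p + s) - (v + s) * q = 0 := hs
    show u * p - v * q + (u + p - q) * s + 1 * s ^ 2 = 0
    linear_combination h1
  have hpc : PC (fun s => FA x (r + s) (u + s) (v + s) q (p + s) (τ + s) (η + s)) :=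
    FA_pc (c := x) (r := fun s => r + s) (u := fun s => u + s) (v := fun s => v + s)
      (q := fun _ => q) (p := fun s => p + s) (τ := fun s => τ + s) (η := fun s => η + s)
      (hl r) (hl u) (hl v) (D7.IsPoly.const q) (hl p) (hl τ) (hl η)
  have hfin : ({s : k | r + s = 0} ∪ {s : k | v + s = 0} ∪ {s : k | η + s = 0} ∪
      {s : k | (v + s) * (τ + s) + (u + s) * (η + s) = 0} ∪
      {s : k | (u + s) * (p + s) - (v + s) * q = 0}).Finite :=
    ((((fin_lin r).union (fin_lin v)).union (fin_lin η)).union hf1).union hf2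
  have hrel : ∀ s ∉ (∅ : Set k),
      Rel ((fun s => FA x (r + s) (u + s) (v + s) q (p + s) (τ + s) (η + s)) s) :=
    fun s _ => FA_rel x (r + s) (u + s) (v + s) q (p + s) (τ + s) (η + s)
  refine false_of_finite
    (c := (fun s => FA x (r + s) (u + s) (v + s) q (p + s) (τ + s) (η + s)))
    hpc Set.finite_empty hrel hfin ?_
  intro s hs
  simp only [Set.mem_union, not_or, Set.mem_ofPred_eq] at hs
  obtain ⟨⟨⟨⟨s1, s2⟩, s3⟩, s4⟩, s5⟩ := hs
  have h6 : ((v + s) * (τ + s) + (u + s) * (η + s)) * (p + s) - (v + s) * ((η + s) * q +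
      (τ + s) * (p + s)) ≠ 0 := by
    have : ((v + s) * (τ + s) + (u + s) * (η + s)) * (p + s) - (v + s) * ((η + s) * q +
        (τ + s) * (p + s)) = (η + s) * ((u + s) * (p + s) - (v + s) * q) := by ring
    rw [this]
    exact mul_ne_zero s3 s5
  exact not_bad_A (x := FA x (r + s) (u + s) (v + s) q (p + s) (τ + s) (η + s)) rfl s1 s4
    (neg_ne_zero.2 (mul_ne_zero s2 s3)) s2 h6

/-- limits of the family -/
theorem FA_limit [Infinite k] {c : k → Par k} (hc : PC c) (hn : ∀ s, s ≠ 0 → Rel (c s) ∧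
    ¬ Bad1 (c s)) : ¬ Bad1 (c 0) := by
  refine false_of_finite hc (Set.finite_singleton (0 : k)) (fun s hs => (hn s hs).1)
    (Set.finite_singleton (0 : k)) (fun s hs => (hn s hs).2)

theorem case_A [IsAlgClosed k] [CharZero k] (hR : Rel x) (hg0 : x.g0 = 0)
    (hne : ¬ (x.u0 = 0 ∧ x.uu0 = 0 ∧ x.q0 = 0 ∧ x.qq0 = 0)) : ¬ Bad1 x := by
  have : Infinite k := IsAlgClosed.instInfinite
  have ha1 := hR.a1
  have hb1 := hR.b1
  have hc1 := hR.c1
  have hd1 := hR.d1
  rw [hg0] at ha1 hc1
  by_cases huu : x.uu0 = 0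
  swap
  · -- `u0' ≠ 0`
    have e : x = FA x x.r0 x.u0 x.uu0 x.q0 x.qq0 (x.w1 / x.uu0) (-x.ww1 / x.uu0) := by
      ext <;> simp only [FA]
      · exact hg0
      · field_simp
        linear_combination hc1
      · field_simp
        linear_combination -hd1
      · field_simp
        linear_combination hb1
      · field_simp
      · field_simp
    rw [e]
    exact FA_not_bad _ _ _ _ _ _ _ _
  rw [huu] at hb1 hc1 hd1
  by_cases hu : x.u0 = 0
  swap
  · -- `u0' = 0`, `u0 ≠ 0`
    have hww : x.ww1 = 0 := by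
      have : x.ww1 * x.u0 = 0 := by linear_combination -hd1
      exact (mul_eq_zero.1 this).resolve_right hu
    rw [hww] at hc1
    have hrw : x.r0 * x.w1 = 0 := by
      have : x.r0 * x.w1 * x.u0 = 0 := by linear_combination -hb1
      exact (mul_eq_zero.1 this).resolve_right hu
    by_cases hr : x.r0 = 0
    swap
    · have hw : x.w1 = 0 := (mul_eq_zero.1 hrw).resolve_left hr
      rw [hw] at ha1
      have e : x = FA x x.r0 x.u0 x.uu0 x.q0 x.qq0 (x.t1 / (x.r0 * x.u0)) (x.h1 / x.u0) := by
        ext <;> simp only [FA]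
        · exact hg0
        · field_simp
          linear_combination -ha1
        · rw [huu]; field_simp; ring
        · field_simp
        · rw [huu, hw]; ring
        · rw [huu, hww]; ring
      rw [e]
      exact FA_not_bad _ _ _ _ _ _ _ _
    rw [hr] at ha1
    by_cases hqq : x.qq0 = 0
    swap
    · have ht : x.t1 = 0 := by
        have : x.t1 * x.qq0 = 0 := by linear_combination ha1
        exact (mul_eq_zero.1 this).resolve_right hqq
      have hw : x.w1 = 0 := by
        have : x.w1 * x.qq0 = 0 := by linear_combination -hc1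
        exact (mul_eq_zero.1 this).resolve_right hqq
      have e : x = FA x x.r0 x.u0 x.uu0 x.q0 x.qq0
          ((x.g1 - x.h1 / x.u0 * x.q0) / x.qq0) (x.h1 / x.u0) := by
        ext <;> simp only [FA]
        · exact hg0
        · field_simp
          ring
        · rw [huu]; field_simp; ring
        · rw [hr, ht]; ring
        · rw [huu, hw]; ring
        · rw [huu, hww]; ring
      rw [e]
      exact FA_not_bad _ _ _ _ _ _ _ _
    · -- curve
      let cu : k → Par k := fun s => { x with
        r0 := s * (x.t1 / x.u0)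
        uu0 := s * x.w1
        ww1 := -(s * (x.w1 * ((x.h1 - x.w1) / x.u0)))
        qq0 := s * (x.g1 - (x.h1 - x.w1) / x.u0 * x.q0) }
      have hcu0 : cu 0 = x := by
        ext <;> simp only [cu] <;> simp [hr, huu, hww, hqq]
      have hpc : PC cu := by
        constructor <;> (simp only [cu]; repeat (first
        | exact D7.IsPoly.const _
        | exact D7.IsPoly.id
        | apply D7.IsPoly.add
        | apply D7.IsPoly.sub
        | apply D7.IsPoly.mul
        | apply D7.IsPoly.neg
        | apply D7.IsPoly.pow))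
      rw [← hcu0]
      refine FA_limit hpc (fun s hs => ?_)
      have e : cu s = FA x (s * (x.t1 / x.u0)) x.u0 (s * x.w1) x.q0
          (s * (x.g1 - (x.h1 - x.w1) / x.u0 * x.q0)) (1 / s) ((x.h1 - x.w1) / x.u0) := by
        ext <;> simp only [FA, cu]
        · exact hg0
        · field_simp
          ring
        · field_simp
          ring
        · field_simp
        · field_simp
        · ring
      rw [e]
      exact ⟨FA_rel _ _ _ _ _ _ _ _, FA_not_bad _ _ _ _ _ _ _ _⟩
  -- `u0' = u0 = 0`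
  rw [hu] at ha1
  have hqne : ¬ (x.q0 = 0 ∧ x.qq0 = 0) := fun h => hne ⟨hu, huu, h.1, h.2⟩
  -- proportionality
  obtain ⟨om, ho1, ho2⟩ : ∃ om, x.w1 = om * x.q0 ∧ x.ww1 = om * x.qq0 := by
    by_cases hq : x.q0 = 0
    · have hqq : x.qq0 ≠ 0 := fun h => hqne ⟨hq, h⟩
      refine ⟨x.ww1 / x.qq0, ?_, ?_⟩
      · have : x.w1 * x.qq0 = 0 := by rw [hq] at hc1; linear_combination -hc1
        rw [(mul_eq_zero.1 this).resolve_right hqq, hq, mul_zero]
      · field_simp
    · refine ⟨x.w1 / x.q0, ?_, ?_⟩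
      · field_simp
      · field_simp
        linear_combination hc1
  -- the direction for `q`, `q'`
  obtain ⟨a, b, hab⟩ : ∃ a b : k, x.q0 * b - x.qq0 * a = x.g1 := by
    by_cases hq : x.q0 = 0
    · have hqq : x.qq0 ≠ 0 := fun h => hqne ⟨hq, h⟩
      refine ⟨-x.g1 / x.qq0, 0, ?_⟩
      field_simp
      ring
    · refine ⟨0, x.g1 / x.q0, ?_⟩
      field_simp
      ring
  -- the standard curve
  have std : ∀ m : k, x.t1 = x.r0 * m * x.q0 → x.h1 - x.w1 = -(m * x.qq0) → ¬ Bad1 x := by
    intro m h1 h2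
    let cu : k → Par k := fun s => { x with
      u0 := s * m
      uu0 := s * om
      q0 := x.q0 + s * a
      qq0 := x.qq0 + s * b }
    have hcu0 : cu 0 = x := by
      ext <;> simp only [cu] <;> simp [hu, huu]
    have hpc : PC cu := by
      constructor <;> (simp only [cu]; repeat (first
        | exact D7.IsPoly.const _
        | exact D7.IsPoly.id
        | apply D7.IsPoly.add
        | apply D7.IsPoly.sub
        | apply D7.IsPoly.mul
        | apply D7.IsPoly.neg
        | apply D7.IsPoly.pow))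
    rw [← hcu0]
    refine FA_limit hpc (fun s hs => ?_)
    have e : cu s = FA x x.r0 (s * m) (s * om) (x.q0 + s * a) (x.qq0 + s * b) (x.q0 / s)
        (-x.qq0 / s) := by
      ext <;> simp only [FA, cu]
      · exact hg0
      · field_simp
        linear_combination (-s) * hab
      · field_simp
        linear_combination h2 + ho1
      · field_simp
        linear_combination h1
      · field_simp
        linear_combination ho1
      · field_simp
        linear_combination ho2
    rw [e]
    exact ⟨FA_rel _ _ _ _ _ _ _ _, FA_not_bad _ _ _ _ _ _ _ _⟩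
  by_cases hqq : x.qq0 = 0
  · have hq : x.q0 ≠ 0 := fun h => hqne ⟨h, hqq⟩
    by_cases hr : x.r0 = 0
    · -- two speeds
      have hww : x.ww1 = 0 := by rw [ho2, hqq, mul_zero]
      let cu : k → Par k := fun s => { x with
        r0 := s * (x.t1 / x.q0)
        u0 := s
        uu0 := s ^ 2 * om
        ww1 := -(s * (om * (x.h1 - x.w1)))
        qq0 := -(s * (x.h1 - x.w1)) + s ^ 2 * (x.g1 / x.q0) }
      have hcu0 : cu 0 = x := by
        ext <;> simp only [cu] <;> simp [hr, hu, huu, hww, hqq]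
      have hpc : PC cu := by
        constructor <;> (simp only [cu]; repeat (first
        | exact D7.IsPoly.const _
        | exact D7.IsPoly.id
        | apply D7.IsPoly.add
        | apply D7.IsPoly.sub
        | apply D7.IsPoly.mul
        | apply D7.IsPoly.neg
        | apply D7.IsPoly.pow))
      rw [← hcu0]
      refine FA_limit hpc (fun s hs => ?_)
      have e : cu s = FA x (s * (x.t1 / x.q0)) s (s ^ 2 * om) x.q0
          (-(s * (x.h1 - x.w1)) + s ^ 2 * (x.g1 / x.q0)) (x.q0 / s ^ 2) ((x.h1 - x.w1) / s) := by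
        ext <;> simp only [FA, cu]
        · exact hg0
        · field_simp
          ring
        · field_simp
          linear_combination ho1
        · field_simp
        · field_simp
          linear_combination ho1
        · field_simp
      rw [e]
      exact ⟨FA_rel _ _ _ _ _ _ _ _, FA_not_bad _ _ _ _ _ _ _ _⟩
    · refine std (x.t1 / (x.r0 * x.q0)) ?_ ?_
      · field_simp
      · have h1 : x.r0 * (x.h1 - x.w1) * x.q0 = 0 := by
          rw [hqq] at ha1
          linear_combination ha1
        have h2 : x.h1 - x.w1 = 0 := by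
          rcases mul_eq_zero.1 h1 with h | h
          · exact (mul_eq_zero.1 h).resolve_left hr
          · exact absurd h hq
        rw [h2, hqq, mul_zero, neg_zero]
  · refine std (-(x.h1 - x.w1) / x.qq0) ?_ ?_
    · field_simp
      linear_combination ha1
    · field_simp

end I642

end Pool.Agent.Lib.D13
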