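import Pool.Agent.Lib.D13.PBdual
import Pool.Agent.Lib.D8.UtilB

/-!
# MP_5dcbc3_ag: raising a triple by a deformation with image in a submodule of rank two

`D = m1 φ + m2 ψ` (rank two), where `φ`, `ψ` vanish on `m1`, `m2` and the span of `m1`, `m2` is
stable under the triple.
-/

namespace Pool.Agent.Lib.D13

open Matrix Polynomial Pool.Agent.Lib.Q5dc Pool.Agent.Lib.D7 Pool.Agent.Lib.D8

section general

variable {k : Type*} [Field k] {n : Type*} [Fintype n] [DecidableEq n]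

/-- sums with a matrix `D` such that `D T ^ c D = 0` are nilpotent -/
theorem nilp_add_smul {T D : Matrix n n k} (hD : ∀ c, D * T ^ c * D = 0) (hT : IsNilpotent T)
    (s : k) : IsNilpotent (T + s • D) := by
  have key : ∀ m : ℕ, ∃ R, (T + s • D) ^ m = T ^ m + R ∧ (∀ c, D * T ^ c * R = 0) ∧
      (∀ c, R * T ^ c * D = 0) ∧ ∀ c, R * T ^ c * R = 0 := by
    intro m
    induction m with
    | zero => exact ⟨0, by simp, by simp, by simp, by simp⟩
    | succ m ih =>
      obtain ⟨R, h1, h2, h3, h4⟩ := ih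
      have hRD : R * D = 0 := by simpa using h3 0
      refine ⟨s • (T ^ m * D) + R * T, ?_, fun c => ?_, fun c => ?_, fun c => ?_⟩
      · rw [pow_succ, h1, add_mul, mul_add, mul_add, mul_smul_comm, mul_smul_comm, hRD, smul_zero,
          add_zero, pow_succ]
        abel
      · have e1 : D * T ^ c * (T ^ m * D) = D * T ^ (c + m) * D := by
          rw [pow_add]; simp only [mul_assoc]
        have e2 : D * T ^ c * (R * T) = D * T ^ c * R * T := by simp only [mul_assoc]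
        rw [mul_add, mul_smul_comm, e1, hD, e2, h2, zero_mul, smul_zero, add_zero]
      · have e1 : T ^ m * D * T ^ c * D = T ^ m * (D * T ^ c * D) := by simp only [mul_assoc]
        have e2 : R * T * T ^ c * D = R * T ^ (c + 1) * D := by
          rw [pow_succ']; simp only [mul_assoc]
        rw [add_mul, add_mul, smul_mul_assoc, smul_mul_assoc, e1, hD, e2, h3, mul_zero, smul_zero,
          add_zero]
      · have e1 : (T ^ m * D) * T ^ c * (T ^ m * D) = T ^ m * (D * T ^ (c + m) * D) := by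
          rw [pow_add]; simp only [mul_assoc]
        have e2 : (T ^ m * D) * T ^ c * (R * T) = T ^ m * (D * T ^ c * R) * T := by
          simp only [mul_assoc]
        have e3 : (R * T) * T ^ c * (T ^ m * D) = R * T ^ (c + 1 + m) * D := by
          rw [pow_add, pow_succ']; simp only [mul_assoc]
        have e4 : (R * T) * T ^ c * (R * T) = R * T ^ (c + 1) * R * T := by
          rw [pow_succ']; simp only [mul_assoc]
        rw [add_mul, add_mul, mul_add, mul_add]
        simp only [smul_mul_assoc, mul_smul_comm]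
        rw [e1, hD, e2, h2, e3, h3, e4, h4]
        simp
  obtain ⟨K, hK⟩ := hT
  obtain ⟨R, h1, -, -, h4⟩ := key K
  refine ⟨K + K, ?_⟩
  rw [pow_add, h1, hK, zero_add]
  simpa using h4 0

/-- the matrix `m1 φ + m2 ψ` -/
def Dm (m1 m2 φ ψ : n → k) : Matrix n n k := vecMulVec m1 φ + vecMulVec m2 ψ

omit [DecidableEq n] in
theorem mul_vecMulVec' (M : Matrix n n k) (a b : n → k) :
    M * vecMulVec a b = vecMulVec (M *ᵥ a) b := by
  ext i j
  simp only [Matrix.mul_apply, vecMulVec_apply, Matrix.mulVec, dotProduct, Finset.sum_mul,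
    mul_assoc]

omit [DecidableEq n] in
theorem vecMulVec_mul' (M : Matrix n n k) (a b : n → k) :
    vecMulVec a b * M = vecMulVec a (b ᵥ* M) := by
  ext i j
  simp only [Matrix.mul_apply, vecMulVec_apply, Matrix.vecMul, dotProduct, Finset.mul_sum,
    mul_assoc]

theorem mul_Dm (M : Matrix n n k) (m1 m2 φ ψ : n → k) :
    M * Dm m1 m2 φ ψ = vecMulVec (M *ᵥ m1) φ + vecMulVec (M *ᵥ m2) ψ := by
  rw [Dm, mul_add, mul_vecMulVec', mul_vecMulVec']

theorem Dm_mul (M : Matrix n n k) (m1 m2 φ ψ : n → k) :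
    Dm m1 m2 φ ψ * M = Dm m1 m2 (φ ᵥ* M) (ψ ᵥ* M) := by
  rw [Dm, Dm, add_mul, vecMulVec_mul', vecMulVec_mul']

omit [DecidableEq n] in
theorem Dm_mulVec (m1 m2 φ ψ x : n → k) :
    Dm m1 m2 φ ψ *ᵥ x = (φ ⬝ᵥ x) • m1 + (ψ ⬝ᵥ x) • m2 := by
  funext i
  simp only [Dm, Matrix.mulVec, Matrix.add_apply, vecMulVec_apply, dotProduct, Pi.add_apply,
    Pi.smul_apply, smul_eq_mul, Finset.sum_mul]
  rw [← Finset.sum_add_distrib]
  exact Finset.sum_congr rfl fun j _ => by ring

/-- the deformed triples commute -/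
theorem cn_Dm {A B C : Matrix n n k} (hT : CN ![A, B, C]) {m1 m2 : n → k}
    {φ ψ : Fin 3 → n → k} (c : Fin 3 → k)
    (h1 : ∀ i, ![A, B, C] i *ᵥ m1 = c i • m2) (h2 : ∀ i, ![A, B, C] i *ᵥ m2 = 0)
    (z1 : ∀ i, φ i ⬝ᵥ m1 = 0 ∧ φ i ⬝ᵥ m2 = 0) (z2 : ∀ i, ψ i ⬝ᵥ m1 = 0 ∧ ψ i ⬝ᵥ m2 = 0)
    (r1 : ∀ i j, φ i ᵥ* ![A, B, C] j = φ j ᵥ* ![A, B, C] i)
    (r2 : ∀ i j, c i • φ j + ψ i ᵥ* ![A, B, C] j = c j • φ i + ψ j ᵥ* ![A, B, C] i) (s : k) :
    CN ![A + s • Dm m1 m2 (φ 0) (ψ 0), B + s • Dm m1 m2 (φ 1) (ψ 1),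
      C + s • Dm m1 m2 (φ 2) (ψ 2)] := by
  set T := ![A, B, C] with hTd
  have hDD : ∀ i j c, Dm m1 m2 (φ i) (ψ i) * T j ^ c * Dm m1 m2 (φ j) (ψ j) = 0 := by
    intro i j c'
    have hst : ∀ (c' : ℕ), (∃ a b : k, T j ^ c' *ᵥ m1 = a • m1 + b • m2) ∧
        ∃ b : k, T j ^ c' *ᵥ m2 = b • m2 := by
      intro c'
      induction c' with
      | zero => exact ⟨⟨1, 0, by simp⟩, 1, by simp⟩
      | succ e ih =>
        obtain ⟨⟨a, b, hab⟩, b', hb'⟩ := ih
        refine ⟨⟨0, a * c j, ?_⟩, 0, ?_⟩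
        · rw [pow_succ', ← Matrix.mulVec_mulVec, hab, Matrix.mulVec_add, Matrix.mulVec_smul,
            Matrix.mulVec_smul, h1, h2]
          simp [smul_smul]
        · rw [pow_succ', ← Matrix.mulVec_mulVec, hb', Matrix.mulVec_smul, h2]
          simp
    obtain ⟨⟨a, b, hab⟩, b', hb'⟩ := hst c'
    rw [mul_assoc, mul_Dm, mul_add, mul_vecMulVec', mul_vecMulVec', Dm_mulVec, Dm_mulVec, hab, hb',
      dotProduct_add, dotProduct_add, dotProduct_smul, dotProduct_smul, dotProduct_smul,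
      dotProduct_smul, dotProduct_smul, dotProduct_smul, (z1 i).1, (z1 i).2, (z2 i).1, (z2 i).2]
    ext x y
    simp
  have hDD0 : ∀ i j, Dm m1 m2 (φ i) (ψ i) * Dm m1 m2 (φ j) (ψ j) = 0 := by
    intro i j
    simpa using hDD i j 0
  have hcomm : ∀ i j, T i * Dm m1 m2 (φ j) (ψ j) + Dm m1 m2 (φ i) (ψ i) * T j =
      T j * Dm m1 m2 (φ i) (ψ i) + Dm m1 m2 (φ j) (ψ j) * T i := by
    intro i j
    rw [mul_Dm, mul_Dm, Dm_mul, Dm_mul, h1, h1, h2, h2, r1 i j]
    have hr := r2 i j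
    ext x y
    have hr' := congrFun hr y
    simp only [Pi.add_apply, Pi.smul_apply, smul_eq_mul] at hr'
    simp only [Dm, Matrix.add_apply, vecMulVec_apply, Pi.smul_apply, smul_eq_mul, Pi.zero_apply,
      zero_mul, add_zero]
    linear_combination m2 x * hr'
  have hfam : ∀ i, ![A + s • Dm m1 m2 (φ 0) (ψ 0), B + s • Dm m1 m2 (φ 1) (ψ 1),
      C + s • Dm m1 m2 (φ 2) (ψ 2)] i = T i + s • Dm m1 m2 (φ i) (ψ i) := by
    intro i
    fin_cases i <;> rfl
  constructor
  · intro i j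
    rw [hfam, hfam]
    have h3 := hcomm i j
    have h4 := hT.1 i j
    rw [add_mul, add_mul, mul_add, mul_add, mul_add, mul_add, smul_mul_assoc, smul_mul_assoc,
      mul_smul_comm, mul_smul_comm, smul_mul_assoc, smul_mul_assoc, mul_smul_comm, mul_smul_comm,
      hDD0, hDD0, h4]
    have h5 := congrArg (fun M => s • M) h3
    simp only [smul_add] at h5
    simp only [smul_zero, add_zero]
    rw [add_assoc, h5, add_assoc]
  · intro i
    rw [hfam]
    exact nilp_add_smul (hDD i i) (hT.2 i) s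

end general

namespace PB

variable {k : Type*} [Field k] {N r : ℕ} {A : Matrix (Fin N) (Fin N) k} {w : Fin r → Fin N → k}
  {l : Fin r → ℕ}

/-- functionals with prescribed values -/
theorem exists_func (h : BlkB A w l) (hl : ∀ i, 1 ≤ l i) (f : Fin r → ℕ → k)
    (hf : ∀ i m, l i ≤ m → f i m = 0) :
    ∃ φ : Fin N → k, ∀ i m, φ ⬝ᵥ (A ^ m *ᵥ w i) = f i m := by
  obtain ⟨w', hw'⟩ := dual_aux h hl
  have hval : ∀ i j m, w' i ⬝ᵥ (A ^ m *ᵥ w j) = if i = j ∧ m = l i - 1 then 1 else 0 := by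
    intro i j m
    have h1 : A ^ m *ᵥ w j = pi A w (Pi.single j (X ^ m)) := by
      rw [pi_single, map_pow, aeval_X]
    rw [h1, hw']
    by_cases hij : i = j
    · subst hij
      rw [Pi.single_eq_same, coeff_X_pow]
      by_cases hm : m = l i - 1
      · rw [if_pos hm.symm, if_pos ⟨rfl, hm⟩]
      · rw [if_neg (fun h => hm h.symm), if_neg (fun h => hm h.2)]
    · rw [Pi.single_eq_of_ne hij, coeff_zero, if_neg (fun h => hij h.1)]
  refine ⟨∑ i, ∑ a ∈ Finset.range (l i), f i a • ((A ^ (l i - 1 - a))ᵀ *ᵥ w' i), fun j m => ?_⟩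
  rw [sum_dotProduct]
  have h2 : ∀ i, (∑ a ∈ Finset.range (l i), f i a • ((A ^ (l i - 1 - a))ᵀ *ᵥ w' i)) ⬝ᵥ
      (A ^ m *ᵥ w j) = ∑ a ∈ Finset.range (l i), f i a * (if i = j ∧ m = a then 1 else 0) := by
    intro i
    rw [sum_dotProduct]
    refine Finset.sum_congr rfl fun a ha => ?_
    rw [smul_dotProduct, smul_eq_mul, Matrix.mulVec_transpose, ← Matrix.dotProduct_mulVec,
      Matrix.mulVec_mulVec, ← pow_add, hval]
    have ha' := Finset.mem_range.1 ha
    congr 1
    by_cases hij : i = j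
    · by_cases hm : m = a
      · rw [if_pos ⟨hij, by omega⟩, if_pos ⟨hij, hm⟩]
      · rw [if_neg, if_neg (fun h => hm h.2)]
        rintro ⟨-, h3⟩
        exact hm (by omega)
    · rw [if_neg (fun h => hij h.1), if_neg (fun h => hij h.1)]
  rw [Finset.sum_congr rfl fun i _ => h2 i, Finset.sum_eq_single j]
  · by_cases hm : m < l j
    · rw [Finset.sum_eq_single m]
      · simp
      · intro b _ hb
        rw [if_neg (fun h => hb h.2.symm), mul_zero]
      · intro hb
        exact absurd (Finset.mem_range.2 hm) hb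
    · rw [hf j m (not_lt.1 hm)]
      refine Finset.sum_eq_zero fun b hb => ?_
      rw [if_neg, mul_zero]
      rintro ⟨-, h3⟩
      exact hm (h3 ▸ Finset.mem_range.1 hb)
  · intro i _ hi
    refine Finset.sum_eq_zero fun b _ => ?_
    rw [if_neg (fun h => hi h.1), mul_zero]
  · intro hj
    exact absurd (Finset.mem_univ j) hj

/-- functionals are determined by their values -/
theorem func_ext (h : BlkB A w l) {φ ψ : Fin N → k}
    (hv : ∀ i m, φ ⬝ᵥ (A ^ m *ᵥ w i) = ψ ⬝ᵥ (A ^ m *ᵥ w i)) : φ = ψ := by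
  refine dot_ext h fun z => ?_
  unfold pi
  rw [dotProduct_sum, dotProduct_sum]
  refine Finset.sum_congr rfl fun i _ => ?_
  rw [aeval_eq_sum_range, Matrix.sum_mulVec, dotProduct_sum, dotProduct_sum]
  refine Finset.sum_congr rfl fun m _ => ?_
  rw [Matrix.smul_mulVec, dotProduct_smul, dotProduct_smul, hv]

end PB

end Pool.Agent.Lib.D13
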