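import Pool.Agent.Lib.D13.I642A
import Pool.Agent.Lib.D13.RaiseDm
import Pool.Agent.Lib.D13.I642D

/-!
# MP_5dcbc3_ag: Jordan blocks of sizes 6, 4, 2: the component `U2` is raised to (7, 3, 2)
-/

namespace Pool.Agent.Lib.D13

open Matrix Polynomial Pool.Agent.Lib.Q5dc Pool.Agent.Lib.D7 Pool.Agent.Lib.D8

namespace I642

variable {k : Type*} [Field k] {N : ℕ} {A B C' : Matrix (Fin N) (Fin N) k}
  {w : Fin 3 → Fin N → k} {x : Par k}

/-- a finite list of values -/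
def vl (a0 a1 a2 a3 a4 a5 : k) : ℕ → k
  | 0 => a0
  | 1 => a1
  | 2 => a2
  | 3 => a3
  | 4 => a4
  | 5 => a5
  | _ + 6 => 0

theorem vl_ge {a0 a1 a2 a3 a4 a5 : k} {m : ℕ} (hm : 6 ≤ m) : vl a0 a1 a2 a3 a4 a5 m = 0 := by
  obtain ⟨j, rfl⟩ := Nat.exists_eq_add_of_le hm
  rw [add_comm]
  rfl

theorem exists_f (hA : PB.BlkB A w ![6, 4, 2]) (a0 a1 a2 a3 a4 a5 b0 b1 b2 b3 c0 c1 : k) :
    ∃ φ : Fin N → k, (∀ m, φ ⬝ᵥ e A w 0 m = vl a0 a1 a2 a3 a4 a5 m) ∧
      (∀ m, φ ⬝ᵥ e A w 1 m = vl b0 b1 b2 b3 0 0 m) ∧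
      ∀ m, φ ⬝ᵥ e A w 2 m = vl c0 c1 0 0 0 0 m := by
  obtain ⟨φ, hφ⟩ := PB.exists_func hA (by decide)
    ![vl a0 a1 a2 a3 a4 a5, vl b0 b1 b2 b3 0 0, vl c0 c1 0 0 0 0] (by
      intro i m hm
      fin_cases i
      · exact vl_ge hm
      · have hm' : 4 ≤ m := hm
        show vl b0 b1 b2 b3 0 0 m = 0
        rcases Nat.lt_or_ge m 6 with h | h
        · have : m = 4 ∨ m = 5 := by omega
          rcases this with rfl | rfl <;> rfl
        · exact vl_ge h
      · have hm' : 2 ≤ m := hm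
        show vl c0 c1 0 0 0 0 m = 0
        rcases Nat.lt_or_ge m 6 with h | h
        · have : m = 2 ∨ m = 3 ∨ m = 4 ∨ m = 5 := by omega
          rcases this with rfl | rfl | rfl | rfl <;> rfl
        · exact vl_ge h)
  exact ⟨φ, hφ 0, hφ 1, hφ 2⟩

theorem fext (hA : PB.BlkB A w ![6, 4, 2]) {φ ψ : Fin N → k}
    (h0 : ∀ m, φ ⬝ᵥ e A w 0 m = ψ ⬝ᵥ e A w 0 m) (h1 : ∀ m, φ ⬝ᵥ e A w 1 m = ψ ⬝ᵥ e A w 1 m)
    (h2 : ∀ m, φ ⬝ᵥ e A w 2 m = ψ ⬝ᵥ e A w 2 m) : φ = ψ := by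
  refine PB.func_ext hA fun i m => ?_
  fin_cases i
  · exact h0 m
  · exact h1 m
  · exact h2 m

set_option maxHeartbeats 4000000 in
/-- the raise -/
theorem raise_U2 [Infinite k] (hA : PB.BlkB A w ![6, 4, 2]) (h : Act x A B C' w)
    (hM : MaxR (fun i => (A ^ i).rank) ![A, B, C']) (hg0 : x.g0 = 0) (hu0 : x.u0 = 0)
    (huu : x.uu0 = 0) (hq0 : x.q0 = 0) (hqq : x.qq0 = 0) (hh1 : x.h1 ≠ 0)
    {al be ga c d ee pp qq : k} (hbe : x.h1 * be = -x.g1) (hc : x.h1 * c = -(x.g1 * be))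
    (hal : c = x.g2 + x.h1 * al + x.h2 * be)
    (hga : x.g3 + x.h2 * al + x.h3 * be + x.t1 * ga = 0)
    (hee : ee = d + x.q1 + x.u1 * be + x.w1 * ga)
    (hqqq : qq = pp + x.qq1 + x.uu1 * be + x.ww1 * ga)
    (h3 : x.h1 * x.r0 * d + x.r0 * x.w1 * ee = x.h1 * x.r0 * ee + x.t1 * qq)
    (h4 : x.h1 * pp + x.ww1 * ee = x.w1 * qq) : False := by
  set m1 : Fin N → k := (x.h1 * x.g1) • e A w 0 4 + (x.h1 * x.g2 + x.h2 * x.g1) • e A w 0 5 +
    (x.h1 ^ 2) • e A w 1 2 + (x.g1 + 2 * x.h1 * x.h2) • e A w 1 3 with hm1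
  set m2 : Fin N → k := (x.h1 * x.g1) • e A w 0 5 + (x.h1 ^ 2) • e A w 1 3 with hm2
  have z0 := h.z0
  have z1 := h.z1
  have z2 := h.z2
  have ea : ∀ i m, A *ᵥ e A w i m = e A w i (m + 1) := h.a
  have eb0 := h.b0
  have eb1 : ∀ m, B *ᵥ e A w 1 m = x.g1 • e A w 0 (m + 3) +
      x.g2 • e A w 0 (m + 4) + x.g3 • e A w 0 (m + 5) + x.h1 • e A w 1 (m + 1) +
      x.h2 • e A w 1 (m + 2) + x.h3 • e A w 1 (m + 3) + x.t1 • e A w 2 (m + 1) := by
    intro m
    rw [h.b1, hg0, zero_smul, zero_add]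
  have eb2 : ∀ m, B *ᵥ e A w 2 m = x.q1 • e A w 0 (m + 5) + x.u1 • e A w 1 (m + 3) +
      x.w1 • e A w 2 (m + 1) := by
    intro m
    rw [h.b2, hq0, hu0]
    module
  have ec0 := h.c0
  have ec1 : ∀ m, C' *ᵥ e A w 1 m = (x.r0 * x.q1) • e A w 0 (m + 5) +
      (x.r0 * x.u1) • e A w 1 (m + 3) + (x.r0 * x.w1) • e A w 2 (m + 1) := by
    intro m
    rw [h.c1, hq0, hu0]
    module
  have ec2 : ∀ m, C' *ᵥ e A w 2 m = x.qq1 • e A w 0 (m + 5) + x.uu1 • e A w 1 (m + 3) +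
      x.ww1 • e A w 2 (m + 1) := by
    intro m
    rw [h.c2, hqq, huu]
    module
  obtain ⟨ψx, ax0, ax1, ax2⟩ := exists_f hA 0 0 0 0 0 1 0 0 al be 0 ga
  obtain ⟨φy, by0, by1, by2⟩ := exists_f hA 0 0 0 0 0 0 0 0 0 0 d 0
  obtain ⟨ψy, ay0, ay1, ay2⟩ := exists_f hA 0 0 0 al be 0 0 0 c 0 0 ee
  obtain ⟨φz, bz0, bz1, bz2⟩ := exists_f hA 0 0 0 0 0 0 (x.r0 * d) 0 0 0 pp 0
  obtain ⟨ψz, az0, az1, az2⟩ := exists_f hA 0 (x.r1 * ga) (x.r0 * ga) 0 0 0 (x.r1 * ee)
    (x.r0 * ee) 0 0 0 qq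
  -- action on `m1`, `m2`
  have A1 : A *ᵥ m1 = m2 := by
    simp only [hm1, hm2, Matrix.mulVec_add, Matrix.mulVec_smul, ea, Nat.reduceAdd, z0, z1,
      le_refl, smul_zero, add_zero]
  have A2 : A *ᵥ m2 = 0 := by
    simp only [hm2, Matrix.mulVec_add, Matrix.mulVec_smul, ea, Nat.reduceAdd, z0, z1,
      le_refl, smul_zero, add_zero]
  have B1 : B *ᵥ m1 = x.h1 • m2 := by
    simp only [hm1, hm2, Matrix.mulVec_add, Matrix.mulVec_smul, eb0, eb1, Nat.reduceAdd, z0, z1,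
      z2, le_refl, Nat.reduceLeDiff, smul_zero, add_zero, zero_add]
    module
  have B2 : B *ᵥ m2 = 0 := by
    simp only [hm2, Matrix.mulVec_add, Matrix.mulVec_smul, eb0, eb1, Nat.reduceAdd, z0, z1,
      z2, le_refl, Nat.reduceLeDiff, smul_zero, add_zero]
  have C1 : C' *ᵥ m1 = 0 := by
    simp only [hm1, Matrix.mulVec_add, Matrix.mulVec_smul, ec0, ec1, Nat.reduceAdd, z0, z1,
      z2, Nat.reduceLeDiff, smul_zero, add_zero]
  have C2 : C' *ᵥ m2 = 0 := by
    simp only [hm2, Matrix.mulVec_add, Matrix.mulVec_smul, ec0, ec1, Nat.reduceAdd, z0, z1,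
      z2, Nat.reduceLeDiff, smul_zero, add_zero]
  -- values on `m1`, `m2`
  have vx1 : ψx ⬝ᵥ m1 = 0 := by
    simp only [hm1, dotProduct_add, dotProduct_smul, ax0, ax1, vl, smul_eq_mul]
    linear_combination (-x.h1) * hal + hc + x.h2 * hbe
  have vx2 : ψx ⬝ᵥ m2 = 0 := by
    simp only [hm2, dotProduct_add, dotProduct_smul, ax0, ax1, vl, smul_eq_mul]
    linear_combination x.h1 * hbe
  have vy1 : ψy ⬝ᵥ m1 = 0 := by
    simp only [hm1, dotProduct_add, dotProduct_smul, ay0, ay1, vl, smul_eq_mul]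
    linear_combination x.h1 * hc
  have vy2 : ψy ⬝ᵥ m2 = 0 := by
    simp only [hm2, dotProduct_add, dotProduct_smul, ay0, ay1, vl, smul_eq_mul]
    ring
  have vz1 : ψz ⬝ᵥ m1 = 0 := by
    simp only [hm1, dotProduct_add, dotProduct_smul, az0, az1, vl, smul_eq_mul]
    ring
  have vz2 : ψz ⬝ᵥ m2 = 0 := by
    simp only [hm2, dotProduct_add, dotProduct_smul, az0, az1, vl, smul_eq_mul]
    ring
  have wy1 : φy ⬝ᵥ m1 = 0 := by
    simp only [hm1, dotProduct_add, dotProduct_smul, by0, by1, vl, smul_eq_mul]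
    ring
  have wy2 : φy ⬝ᵥ m2 = 0 := by
    simp only [hm2, dotProduct_add, dotProduct_smul, by0, by1, vl, smul_eq_mul]
    ring
  have wz1 : φz ⬝ᵥ m1 = 0 := by
    simp only [hm1, dotProduct_add, dotProduct_smul, bz0, bz1, vl, smul_eq_mul]
    ring
  have wz2 : φz ⬝ᵥ m2 = 0 := by
    simp only [hm2, dotProduct_add, dotProduct_smul, bz0, bz1, vl, smul_eq_mul]
    ring
  -- the relations between the rows
  have R1 : φy ᵥ* A = 0 := by
    refine fext hA ?_ ?_ ?_ <;> intro m <;> rw [← Matrix.dotProduct_mulVec, zero_dotProduct]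
    · rw [ea, by0]
      rcases m with _ | _ | _ | _ | _ | m <;> rfl
    · rw [ea, by1]
      rcases m with _ | _ | _ | _ | _ | m <;> rfl
    · rw [ea, by2]
      rcases m with _ | _ | _ | _ | _ | m <;> rfl
  have R3 : φz ᵥ* A = 0 := by
    refine fext hA ?_ ?_ ?_ <;> intro m <;> rw [← Matrix.dotProduct_mulVec, zero_dotProduct]
    · rw [ea, bz0]
      rcases m with _ | _ | _ | _ | _ | m <;> rfl
    · rw [ea, bz1]
      rcases m with _ | _ | _ | _ | _ | m <;> rfl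
    · rw [ea, bz2]
      rcases m with _ | _ | _ | _ | _ | m <;> rfl
  have R2 : φy + ψx ᵥ* B = ψy ᵥ* A := by
    refine fext hA ?_ ?_ ?_ <;> intro m <;>
      rw [add_dotProduct, ← Matrix.dotProduct_mulVec, ← Matrix.dotProduct_mulVec]
    · rw [ea, eb0, by0, ax1, ay0]
      rcases m with _ | _ | _ | _ | _ | _ | m <;> simp [vl]
    · rw [ea, eb1, by1]
      simp only [dotProduct_add, dotProduct_smul, ax0, ax1, ax2, ay1, smul_eq_mul]
      rcases m with _ | _ | _ | _ | _ | _ | m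
      · simp [vl]
        linear_combination hga
      · simp [vl]
        linear_combination -hal
      · simp [vl]
        linear_combination hbe
      all_goals simp [vl]
    · rw [ea, eb2, by2]
      simp only [dotProduct_add, dotProduct_smul, ax0, ax1, ax2, ay2, smul_eq_mul]
      rcases m with _ | _ | _ | _ | _ | _ | m
      · simp [vl]
        linear_combination -hee
      all_goals simp [vl]
  have R4 : φz + ψx ᵥ* C' = ψz ᵥ* A := by
    refine fext hA ?_ ?_ ?_ <;> intro m <;>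
      rw [add_dotProduct, ← Matrix.dotProduct_mulVec, ← Matrix.dotProduct_mulVec]
    · rw [ea, ec0, bz0]
      simp only [dotProduct_add, dotProduct_smul, ax2, az0, smul_eq_mul]
      rcases m with _ | _ | _ | _ | _ | _ | m <;> simp [vl]
    · rw [ea, ec1, bz1]
      simp only [dotProduct_add, dotProduct_smul, ax0, ax1, ax2, az1, smul_eq_mul]
      rcases m with _ | _ | _ | _ | _ | _ | m
      · simp [vl]
        linear_combination (-x.r0) * hee
      all_goals simp [vl]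
    · rw [ea, ec2, bz2]
      simp only [dotProduct_add, dotProduct_smul, ax0, ax1, ax2, az2, smul_eq_mul]
      rcases m with _ | _ | _ | _ | _ | _ | m
      · simp [vl]
        linear_combination -hqqq
      all_goals simp [vl]
  have R5 : φy ᵥ* C' = φz ᵥ* B := by
    refine fext hA ?_ ?_ ?_ <;> intro m <;>
      rw [← Matrix.dotProduct_mulVec, ← Matrix.dotProduct_mulVec]
    · rw [ec0, eb0, bz1]
      simp only [dotProduct_add, dotProduct_smul, by2, smul_eq_mul]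
      rcases m with _ | _ | _ | _ | _ | _ | m <;> simp [vl]
    · rw [ec1, eb1]
      simp only [dotProduct_add, dotProduct_smul, by0, by1, by2, bz0, bz1, bz2, smul_eq_mul]
      rcases m with _ | _ | _ | _ | _ | _ | m <;> simp [vl]
    · rw [ec2, eb2]
      simp only [dotProduct_add, dotProduct_smul, by0, by1, by2, bz0, bz1, bz2, smul_eq_mul]
      rcases m with _ | _ | _ | _ | _ | _ | m <;> simp [vl]
  have R6 : x.h1 • φz + ψy ᵥ* C' = ψz ᵥ* B := by
    refine fext hA ?_ ?_ ?_ <;> intro m <;>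
      rw [add_dotProduct, smul_dotProduct, ← Matrix.dotProduct_mulVec,
        ← Matrix.dotProduct_mulVec]
    · rw [ec0, eb0, bz0, az1]
      simp only [dotProduct_add, dotProduct_smul, ay2, smul_eq_mul]
      rcases m with _ | _ | _ | _ | _ | _ | m <;> simp [vl]
    · rw [ec1, eb1, bz1]
      simp only [dotProduct_add, dotProduct_smul, ay0, ay1, ay2, az0, az1, az2, smul_eq_mul]
      rcases m with _ | _ | _ | _ | _ | _ | m
      · simp [vl]
        linear_combination h3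
      all_goals simp [vl]
    · rw [ec2, eb2, bz2]
      simp only [dotProduct_add, dotProduct_smul, ay0, ay1, ay2, az0, az1, az2, smul_eq_mul]
      rcases m with _ | _ | _ | _ | _ | _ | m
      · simp [vl]
        linear_combination h4
      all_goals simp [vl]
  -- the deformed triples
  have hcn : ∀ s : k, CN ![A + s • Dm m1 m2 0 ψx, B + s • Dm m1 m2 φy ψy,
      C' + s • Dm m1 m2 φz ψz] := by
    intro s
    have := cn_Dm (φ := ![0, φy, φz]) (ψ := ![ψx, ψy, ψz]) (m1 := m1) (m2 := m2) hM.cn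
      ![1, x.h1, 0] ?_ ?_ ?_ ?_ ?_ ?_ s
    · exact this
    · intro i
      fin_cases i
      · show A *ᵥ m1 = (1 : k) • m2
        rw [A1, one_smul]
      · exact B1
      · show C' *ᵥ m1 = (0 : k) • m2
        rw [C1, zero_smul]
    · intro i
      fin_cases i
      · exact A2
      · exact B2
      · exact C2
    · intro i
      fin_cases i
      · exact ⟨zero_dotProduct _, zero_dotProduct _⟩
      · exact ⟨wy1, wy2⟩
      · exact ⟨wz1, wz2⟩
    · intro i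
      fin_cases i
      · exact ⟨vx1, vx2⟩
      · exact ⟨vy1, vy2⟩
      · exact ⟨vz1, vz2⟩
    · have h01 : (0 : Fin N → k) ᵥ* B = φy ᵥ* A := by rw [R1, Matrix.zero_vecMul]
      have h02 : (0 : Fin N → k) ᵥ* C' = φz ᵥ* A := by rw [R3, Matrix.zero_vecMul]
      intro i j
      fin_cases i <;> fin_cases j
      · rfl
      · exact h01
      · exact h02
      · exact h01.symm
      · rfl
      · exact R5
      · exact h02.symm
      · exact R5.symm
      · rfl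
    · have h01 : (1 : k) • φy + ψx ᵥ* B = x.h1 • (0 : Fin N → k) + ψy ᵥ* A := by
        rw [one_smul, smul_zero, zero_add, R2]
      have h02 : (1 : k) • φz + ψx ᵥ* C' = (0 : k) • (0 : Fin N → k) + ψz ᵥ* A := by
        rw [one_smul, smul_zero, zero_add, R4]
      have h12 : x.h1 • φz + ψy ᵥ* C' = (0 : k) • φy + ψz ᵥ* B := by
        rw [zero_smul, zero_add, R6]
      intro i j
      fin_cases i <;> fin_cases j
      · rfl
      · exact h01
      · exact h02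
      · exact h01.symm
      · rfl
      · exact h12
      · exact h02.symm
      · exact h12.symm
      · rfl
  -- `m2 ≠ 0`
  have hm2ne : m2 ≠ 0 := by
    intro h0
    obtain ⟨χ, c0, c1, -⟩ := exists_f hA 0 0 0 0 0 0 0 0 0 (1 : k) 0 0
    have h5 : χ ⬝ᵥ m2 = x.h1 ^ 2 := by
      simp only [hm2, dotProduct_add, dotProduct_smul, c0, c1, vl, smul_eq_mul]
      ring
    rw [h0, dotProduct_zero] at h5
    exact pow_ne_zero 2 hh1 h5.symm
  have hA6 : A ^ 6 = 0 := by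
    have h5 : ∀ i m, A ^ 6 *ᵥ e A w i m = 0 := by
      intro i m
      rw [e, e_add]
      fin_cases i
      · exact z0 _ (by omega)
      · exact z1 _ (by omega)
      · exact z2 _ (by omega)
    have h6 : LinearMap.ker (A ^ 6).mulVecLin = ⊤ := h.sp _ fun i m => by
      rw [LinearMap.mem_ker, Matrix.mulVecLin_apply]
      exact h5 i m
    ext a b
    have h7 : A ^ 6 *ᵥ Pi.single b 1 = 0 := by
      have : (Pi.single b 1 : Fin N → k) ∈ LinearMap.ker (A ^ 6).mulVecLin := by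
        rw [h6]; trivial
      rwa [LinearMap.mem_ker, Matrix.mulVecLin_apply] at this
    have h8 := congrFun h7 a
    simpa using h8
  refine D8.MaxR.raise0 hM _ _ _ hcn 6 (by simp [hA6]) 1 0 0 ?_
  refine Set.Infinite.mono (s := {s : k | s ≠ 0}) (fun s hs h0 => ?_)
    ((Set.finite_singleton (0 : k)).infinite_compl)
  rw [one_smul, zero_smul, zero_smul, add_zero, add_zero] at h0
  set P := A + s • Dm m1 m2 0 ψx with hP
  have step : ∀ m, P *ᵥ e A w 0 m = e A w 0 (m + 1) + (s * vl 0 0 0 0 0 1 m) • m2 := by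
    intro m
    rw [hP, Matrix.add_mulVec, ea, Matrix.smul_mulVec, Dm_mulVec, zero_dotProduct, ax0, zero_smul,
      zero_add, smul_smul]
  have step' : ∀ m, m < 5 → P *ᵥ e A w 0 m = e A w 0 (m + 1) := by
    intro m hm
    rw [step]
    have : vl (0 : k) 0 0 0 0 1 m = 0 := by
      have : m = 0 ∨ m = 1 ∨ m = 2 ∨ m = 3 ∨ m = 4 := by omega
      rcases this with rfl | rfl | rfl | rfl | rfl <;> rfl
    rw [this, mul_zero, zero_smul, add_zero]
  have h6 : P ^ 6 *ᵥ e A w 0 0 = s • m2 := by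
    have e5 : P ^ 5 *ᵥ e A w 0 0 = e A w 0 5 := by
      have : ∀ m, m ≤ 5 → P ^ m *ᵥ e A w 0 0 = e A w 0 m := by
        intro m
        induction m with
        | zero => intro _; rw [pow_zero, Matrix.one_mulVec]
        | succ m ih =>
          intro hm
          rw [pow_succ', ← Matrix.mulVec_mulVec, ih (by omega), step' m (by omega)]
      exact this 5 le_rfl
    rw [pow_succ', ← Matrix.mulVec_mulVec, e5, step, z0 _ le_rfl, zero_add]
    show (s * 1) • m2 = s • m2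
    rw [mul_one]
  rw [h0, Matrix.zero_mulVec] at h6
  exact (smul_ne_zero hs hm2ne) h6.symm

/-- generic members of U2 are not bad -/
theorem gen_U2 [Infinite k] (hg0 : x.g0 = 0) (hu0 : x.u0 = 0)
    (huu : x.uu0 = 0) (hq0 : x.q0 = 0) (hqq : x.qq0 = 0) (hh1 : x.h1 ≠ 0) (ht1 : x.t1 ≠ 0)
    (hd : x.r0 * x.w1 * (x.h1 - x.w1) + x.t1 * x.ww1 ≠ 0) : ¬ Bad1 x := by
  rintro ⟨N, A, B, C', w, hA, hB, hC, hM⟩
  obtain ⟨be, hbe⟩ : ∃ be, x.h1 * be = -x.g1 := ⟨-x.g1 / x.h1, by field_simp⟩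
  obtain ⟨c, hc⟩ : ∃ c, x.h1 * c = -(x.g1 * be) := ⟨-(x.g1 * be) / x.h1, by field_simp⟩
  obtain ⟨al, hal⟩ : ∃ al, c = x.g2 + x.h1 * al + x.h2 * be :=
    ⟨(c - x.g2 - x.h2 * be) / x.h1, by field_simp; ring⟩
  obtain ⟨ga, hga⟩ : ∃ ga, x.g3 + x.h2 * al + x.h3 * be + x.t1 * ga = 0 :=
    ⟨-(x.g3 + x.h2 * al + x.h3 * be) / x.t1, by field_simp; ring⟩
  set S := x.q1 + x.u1 * be + x.w1 * ga with hS
  set S' := x.qq1 + x.uu1 * be + x.ww1 * ga with hS'
  obtain ⟨ee, hee⟩ : ∃ ee, (x.r0 * x.w1 * (x.h1 - x.w1) + x.t1 * x.ww1) * ee =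
      x.r0 * x.h1 * S * (x.h1 - x.w1) + x.t1 * x.h1 * S' := ⟨_, mul_div_cancel₀ _ hd⟩
  obtain ⟨qq, hqq'⟩ : ∃ qq, (x.r0 * x.w1 * (x.h1 - x.w1) + x.t1 * x.ww1) * qq =
      x.r0 * x.w1 * x.h1 * S' - x.ww1 * x.r0 * x.h1 * S := ⟨_, mul_div_cancel₀ _ hd⟩
  refine raise_U2 hA (act hA hB hC) hM hg0 hu0 huu hq0 hqq hh1 (al := al) (be := be) (ga := ga)
    (c := c) (d := ee - S) (ee := ee) (pp := qq - S') (qq := qq) hbe hc hal hga ?_ ?_ ?_ ?_
  · rw [hS]; ring
  · rw [hS']; ring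
  · refine mul_left_cancel₀ hd ?_
    linear_combination (x.r0 * x.w1) * hee - x.t1 * hqq'
  · refine mul_left_cancel₀ hd ?_
    linear_combination x.ww1 * hee + (x.h1 - x.w1) * hqq'

theorem case_U2 [IsAlgClosed k] (hg0 : x.g0 = 0) (hu0 : x.u0 = 0) (huu : x.uu0 = 0)
    (hq0 : x.q0 = 0) (hqq : x.qq0 = 0) : ¬ Bad1 x := by
  have : Infinite k := IsAlgClosed.instInfinite
  let cu : k → Par k := fun s => { x with
    h1 := x.h1 + s
    t1 := x.t1 + s
    ww1 := x.ww1 + s }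
  have hcu0 : cu 0 = x := by
    ext
    · rfl
    · rfl
    · rfl
    · rfl
    · rfl
    · rfl
    · exact add_zero _
    · rfl
    · rfl
    · exact add_zero _
    · rfl
    · rfl
    · rfl
    · rfl
    · rfl
    · rfl
    · rfl
    · rfl
    · rfl
    · exact add_zero _
  have hpc : PC cu := by
    constructor <;> (simp only [cu]; repeat (first
        | exact D7.IsPoly.const _
        | exact D7.IsPoly.id
        | apply D7.IsPoly.add
        | apply D7.IsPoly.sub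
        | apply D7.IsPoly.mul
        | apply D7.IsPoly.neg
        | apply D7.IsPoly.pow))
  have hfin : {s : k | x.r0 * x.w1 * (x.h1 + s - x.w1) + (x.t1 + s) * (x.ww1 + s) = 0}.Finite := by
    have h := finite_quad (k := k) (a := x.r0 * x.w1 * (x.h1 - x.w1) + x.t1 * x.ww1)
      (b := x.r0 * x.w1 + x.t1 + x.ww1) (c := 1) (Or.inr (Or.inr one_ne_zero))
    refine h.subset fun s hs => ?_
    have h1 : x.r0 * x.w1 * (x.h1 + s - x.w1) + (x.t1 + s) * (x.ww1 + s) = 0 := hs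
    show x.r0 * x.w1 * (x.h1 - x.w1) + x.t1 * x.ww1 + (x.r0 * x.w1 + x.t1 + x.ww1) * s +
      1 * s ^ 2 = 0
    linear_combination h1
  have hfin' : ({s : k | x.h1 + s = 0} ∪ {s : k | x.t1 + s = 0} ∪
      {s : k | x.r0 * x.w1 * (x.h1 + s - x.w1) + (x.t1 + s) * (x.ww1 + s) = 0}).Finite :=
    ((fin_lin _).union (fin_lin _)).union hfin
  rw [← hcu0]
  refine false_of_finite (c := cu) hpc Set.finite_empty (fun s _ => ?_) hfin' (fun s hs => ?_)
  · constructor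
    · show x.r0 * x.u0 * x.g0 = 0
      rw [hg0]; ring
    · show x.r0 * ((x.h1 + s - x.w1) * x.q0 - x.u0 * x.g1 - x.u1 * x.g0) - x.r1 * x.u0 * x.g0 +
        (x.t1 + s) * x.qq0 = 0
      rw [hg0, hu0, hq0, hqq]; ring
    · show (x.t1 + s) * x.uu0 = x.r0 * x.w1 * x.u0
      rw [hu0, huu]; ring
    · show x.uu0 * x.g0 = 0
      rw [hg0]; ring
    · show x.uu0 * x.g1 + x.uu1 * x.g0 + (x.ww1 + s) * x.q0 - x.w1 * x.qq0 = 0
      rw [hg0, huu, hq0, hqq]; ring
    · show x.uu0 * (x.w1 - (x.h1 + s)) = (x.ww1 + s) * x.u0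
      rw [hu0, huu]; ring
  · simp only [Set.mem_union, not_or, Set.mem_ofPred_eq] at hs
    exact gen_U2 (x := cu s) hg0 hu0 huu hq0 hqq hs.1.1 hs.1.2 hs.2

/-- the case `y v1 = v2`: everything but the case `g0 ≠ 0`, `u0 ≠ 0` (dual to the planar one) -/
theorem not_bad1 [IsAlgClosed k] [CharZero k] (h : x.g0 = 0 ∨ x.u0 = 0) : ¬ Bad1 x := by
  intro hb
  have hR := hb.rel
  by_cases hg0 : x.g0 = 0
  · by_cases hne : x.u0 = 0 ∧ x.uu0 = 0 ∧ x.q0 = 0 ∧ x.qq0 = 0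
    · exact case_U2 hg0 hne.1 hne.2.1 hne.2.2.1 hne.2.2.2 hb
    · exact case_A hR hg0 hne hb
  · have hu : x.u0 = 0 := h.resolve_left hg0
    have huu : x.uu0 = 0 := (mul_eq_zero.1 hR.c0).resolve_right hg0
    exact case_B hR hu huu hg0 hb

end I642

end Pool.Agent.Lib.D13
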