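import Pool.Agent.Lib.D13.I542V
import Pool.Agent.Lib.D13.I642E

/-!
# MP_5dcbc3_ag: Jordan blocks of sizes 6, 4, 2: the case `f(0) ≠ 0` or `g(0) ≠ 0`
-/

namespace Pool.Agent.Lib.D13

open Matrix Polynomial Pool.Agent.Lib.Q5dc Pool.Agent.Lib.D7 Pool.Agent.Lib.D8

namespace I642

open Pool.Agent.Lib.D13.PB

variable {k : Type*} [Field k] {N : ℕ}

theorem tr2 (p : k[X]) : X ^ 2 ∣ p - (C (p.coeff 0) + C (p.coeff 1) * X) := by
  rw [X_pow_dvd_iff]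
  intro d hd
  have : d = 0 ∨ d = 1 := by omega
  rcases this with rfl | rfl
  · simp
  · simp

theorem tr1 {p : k[X]} (h : X ∣ p) : X ^ 2 ∣ p - C (p.coeff 1) * X := by
  have h1 := tr2 p
  rwa [X_dvd_iff.1 h, map_zero, zero_add] at h1

theorem tr4 (p : k[X]) : X ^ 4 ∣ p - (C (p.coeff 0) + C (p.coeff 1) * X + C (p.coeff 2) * X ^ 2 +
    C (p.coeff 3) * X ^ 3) := by
  rw [X_pow_dvd_iff]
  intro d hd
  have : d = 0 ∨ d = 1 ∨ d = 2 ∨ d = 3 := by omega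
  rcases this with rfl | rfl | rfl | rfl <;>
    simp [coeff_X, coeff_X_pow, coeff_C]

theorem tr3 {p : k[X]} (h : X ∣ p) : X ^ 4 ∣ p - (C (p.coeff 1) * X + C (p.coeff 2) * X ^ 2 +
    C (p.coeff 3) * X ^ 3) := by
  have h1 := tr4 p
  rwa [X_dvd_iff.1 h, map_zero, zero_add] at h1

theorem mb_eq (x : Par k) : MB x = Mz 4 2 1
    (C x.g0 + C x.g1 * X + C x.g2 * X ^ 2 + C x.g3 * X ^ 3)
    (C x.h1 * X + C x.h2 * X ^ 2 + C x.h3 * X ^ 3) 0 (C x.t1 * X)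
    (C x.q0 + C x.q1 * X) (C x.u0 + C x.u1 * X) (C x.w1 * X) := rfl

theorem mc_eq (x : Par k) : MC x = Mz 4 2 0
    (X ^ 2 * ((C x.r0 + C x.r1 * X) * (C x.q0 + C x.q1 * X)))
    (X ^ 2 * ((C x.r0 + C x.r1 * X) * (C x.u0 + C x.u1 * X)))
    (C x.r0 + C x.r1 * X) (C (x.r0 * x.w1) * X)
    (C x.qq0 + C x.qq1 * X) (C x.uu0 + C x.uu1 * X) (C x.ww1 * X) := by
  have e : X ^ 4 * ((C x.r0 + C x.r1 * X) * (C x.q0 + C x.q1 * X)) =
      X ^ 2 * (X ^ 2 * ((C x.r0 + C x.r1 * X) * (C x.q0 + C x.q1 * X))) := by ring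
  unfold MC Mz
  rw [e]

theorem red4 {g r q r0 q0 : k[X]} (h : X ^ 4 ∣ g - X ^ 2 * (r * q)) (hr : X ^ 2 ∣ r - r0)
    (hq : X ^ 2 ∣ q - q0) : X ^ 4 ∣ g - X ^ 2 * (r0 * q0) := by
  obtain ⟨a, ha⟩ := hr
  obtain ⟨b, hb⟩ := hq
  obtain ⟨c, hc⟩ := h
  exact ⟨c + (a * q + r0 * b), by linear_combination hc + X ^ 2 * q * ha + X ^ 2 * r0 * hb⟩

theorem red2 {t r w : k[X]} {r0 r1 w1 : k} (h : X ^ 2 ∣ t - r * w)
    (hr : X ^ 2 ∣ r - (C r0 + C r1 * X)) (hw : X ^ 2 ∣ w - C w1 * X) :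
    X ^ 2 ∣ t - C (r0 * w1) * X := by
  obtain ⟨a, ha⟩ := hr
  obtain ⟨b, hb⟩ := hw
  obtain ⟨c, hc⟩ := h
  refine ⟨c + (a * w + (C r0 + C r1 * X) * b + C r1 * C w1), ?_⟩
  rw [C_mul]
  linear_combination hc + w * ha + (C r0 + C r1 * X) * hb

theorem rep_mb {A B : Matrix (Fin N) (Fin N) k} {v : Fin 3 → Fin N → k} (hA : Bz A v 4 2)
    {g h t q u w : k[X]} (hB : Rep A v B (Mz 4 2 1 g h 0 t q u w)) (x : Par k)
    (hg : X ^ 4 ∣ g - (C x.g0 + C x.g1 * X + C x.g2 * X ^ 2 + C x.g3 * X ^ 3))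
    (hh : X ^ 4 ∣ h - (C x.h1 * X + C x.h2 * X ^ 2 + C x.h3 * X ^ 3))
    (ht : X ^ 2 ∣ t - C x.t1 * X) (hq : X ^ 2 ∣ q - (C x.q0 + C x.q1 * X))
    (hu : X ^ 2 ∣ u - (C x.u0 + C x.u1 * X)) (hw : X ^ 2 ∣ w - C x.w1 * X) :
    Rep A v B (MB x) := by
  rw [mb_eq]
  exact mz_congr hA (by norm_num) hB (by rw [sub_self]; exact dvd_zero _) hg hh
    (by rw [sub_self]; exact dvd_zero _) ht hq hu hw

theorem rep_mc {A C' : Matrix (Fin N) (Fin N) k} {v : Fin 3 → Fin N → k} (hA : Bz A v 4 2)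
    {g' h' r' t' q' u' w' q u w : k[X]} (hC : Rep A v C' (Mz 4 2 0 g' h' r' t' q' u' w'))
    (x : Par k) (e11 : X ^ 4 ∣ g' - X ^ 2 * (r' * q)) (e21 : X ^ 4 ∣ h' - X ^ 2 * (r' * u))
    (e31 : X ^ 2 ∣ t' - r' * w) (hr : X ^ 2 ∣ r' - (C x.r0 + C x.r1 * X))
    (hq : X ^ 2 ∣ q - (C x.q0 + C x.q1 * X)) (hu : X ^ 2 ∣ u - (C x.u0 + C x.u1 * X))
    (hw : X ^ 2 ∣ w - C x.w1 * X) (hq' : X ^ 2 ∣ q' - (C x.qq0 + C x.qq1 * X))
    (hu' : X ^ 2 ∣ u' - (C x.uu0 + C x.uu1 * X)) (hw' : X ^ 2 ∣ w' - C x.ww1 * X) :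
    Rep A v C' (MC x) := by
  rw [mc_eq]
  exact mz_congr hA (by norm_num) hC (by rw [sub_self]; exact dvd_zero _) (red4 e11 hr hq)
    (red4 e21 hr hu) hr (red2 e31 hr hw) hq' hu' hw'

/-- the normalised case -/
theorem no_frame [IsAlgClosed k] [CharZero k] {A B C' : Matrix (Fin N) (Fin N) k}
    {v : Fin 3 → Fin N → k} (hA : Bz A v 4 2) (hT : MaxR (fun i => (A ^ i).rank) ![A, B, C'])
    {g h t q u w g' h' r' t' q' u' w' : k[X]}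
    (hB : Rep A v B (Mz 4 2 1 g h 0 t q u w)) (hC : Rep A v C' (Mz 4 2 0 g' h' r' t' q' u' w'))
    (hh : X ∣ h) (hw : X ∣ w) (hw' : X ∣ w') (ht : X ∣ t)
    (hgu : g.coeff 0 = 0 ∨ u.coeff 0 = 0) : False := by
  have hrel := (comm_mz hA le_rfl hB hC).1 (hT.cn.1 1 2)
  have e11 : X ^ 4 ∣ g' - X ^ 2 * (r' * q) := by
    obtain ⟨c, hc⟩ := hrel.e11
    have hc' : (1 * g' - 0 * g) + X ^ 2 * (0 * q' - r' * q) = X ^ 4 * c := hc
    exact ⟨c, by linear_combination hc'⟩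
  have e21 : X ^ 4 ∣ h' - X ^ 2 * (r' * u) := by
    obtain ⟨c, hc⟩ := hrel.e21
    have hc' : (1 * h' - 0 * h) + X ^ 2 * (0 * u' - r' * u) = X ^ 4 * c := hc
    exact ⟨c, by linear_combination hc'⟩
  have e31 : X ^ 2 ∣ t' - r' * w := by
    obtain ⟨c, hc⟩ := hrel.e31
    exact ⟨c, by linear_combination hc⟩
  have hBp := rep_mb hA hB
    { r0 := r'.coeff 0, r1 := r'.coeff 1
      g0 := g.coeff 0, g1 := g.coeff 1, g2 := g.coeff 2, g3 := g.coeff 3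
      h1 := h.coeff 1, h2 := h.coeff 2, h3 := h.coeff 3
      t1 := t.coeff 1, q0 := q.coeff 0, q1 := q.coeff 1, u0 := u.coeff 0, u1 := u.coeff 1
      w1 := w.coeff 1, qq0 := q'.coeff 0, qq1 := q'.coeff 1
      uu0 := u'.coeff 0, uu1 := u'.coeff 1, ww1 := w'.coeff 1 }
    (tr4 g) (tr3 hh) (tr1 ht) (tr2 q) (tr2 u) (tr1 hw)
  have hCp := rep_mc hA hC
    { r0 := r'.coeff 0, r1 := r'.coeff 1
      g0 := g.coeff 0, g1 := g.coeff 1, g2 := g.coeff 2, g3 := g.coeff 3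
      h1 := h.coeff 1, h2 := h.coeff 2, h3 := h.coeff 3
      t1 := t.coeff 1, q0 := q.coeff 0, q1 := q.coeff 1, u0 := u.coeff 0, u1 := u.coeff 1
      w1 := w.coeff 1, qq0 := q'.coeff 0, qq1 := q'.coeff 1
      uu0 := u'.coeff 0, uu1 := u'.coeff 1, ww1 := w'.coeff 1 }
    e11 e21 e31 (tr2 r') (tr2 q) (tr2 u) (tr1 hw) (tr2 q') (tr2 u') (tr1 hw')
  exact not_bad1 hgu ⟨N, A, B, C', v, hA, hBp, hCp, hT⟩

omit [Field k] in
theorem tr_eq {A B C' : Matrix (Fin N) (Fin N) k} :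
    (fun i => ((![A, B, C'] : Fin 3 → _) i)ᵀ) = ![Aᵀ, Bᵀ, C'ᵀ] := by
  funext i
  fin_cases i <;> rfl

/-- planar triples -/
theorem cl_pl [IsAlgClosed k] [CharZero k] {A B C' : Matrix (Fin N) (Fin N) k}
    {v : Fin 3 → Fin N → k} (hA : Bz A v 4 2) (hT : CN ![A, B, C'])
    {f g h r t q u w f' g' h' r' t' q' u' w' : k[X]}
    (hB : Rep A v B (Mz 4 2 f g h r t q u w)) (hC : Rep A v C' (Mz 4 2 f' g' h' r' t' q' u' w'))
    (hh : X ∣ h) (hw : X ∣ w) (hh' : X ∣ h') (hw' : X ∣ w') (hf : f.coeff 0 ≠ 0)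
    (ht : t.coeff 0 ≠ 0) : Cl ![A, B, C'] := by
  obtain ⟨v1, p, g1, h1, t1, q1, u1, w1, g2, h2, r2, t2, q2, u2, w2, hA1, hB1, hC1, -, -, -,
    -, -, e2, -, -⟩ := frame_one hA (by norm_num) hf hh hw hh' hw' hB hC
  have m0 : A ∈ adj ![A, B, C'] := mem_adj ![A, B, C'] 0
  have m1 : B ∈ adj ![A, B, C'] := mem_adj ![A, B, C'] 1
  have m2 : C' - aeval A p * B ∈ adj ![A, B, C'] :=
    sub_mem (mem_adj ![A, B, C'] 2) (Two.aeval_mul_mem m0 m1 p)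
  refine Two.cl_sub_mul p ?_
  have hN : N ≤ 12 := by
    rw [card12 hA]
  exact I542.planar hN (by norm_num) hA1
    (D8.cn3 (hT.comm m0 m1) (hT.comm m0 m2) (hT.comm m1 m2) (hT.nilp m0) (hT.nilp m1)
      (hT.nilp m2)) ((dvd_pow_self X two_ne_zero).mul_right _) hB1 hC1
    (by rw [e2]; exact mul_ne_zero hf ht)

theorem no_f [IsAlgClosed k] [CharZero k] {A B C' : Matrix (Fin N) (Fin N) k}
    {v : Fin 3 → Fin N → k} (hA : Bz A v 4 2) (hT : MaxR (fun i => (A ^ i).rank) ![A, B, C'])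
    {f g h r t q u w f' g' h' r' t' q' u' w' : k[X]}
    (hB : Rep A v B (Mz 4 2 f g h r t q u w)) (hC : Rep A v C' (Mz 4 2 f' g' h' r' t' q' u' w'))
    (hh : X ∣ h) (hw : X ∣ w) (hh' : X ∣ h') (hw' : X ∣ w') (hf : f.coeff 0 ≠ 0) : False := by
  by_cases ht0 : t.coeff 0 = 0
  swap
  · exact hT.ncl (cl_pl hA hT.cn hB hC hh hw hh' hw' hf ht0)
  by_cases hgu : g.coeff 0 = 0 ∨ u.coeff 0 = 0
  swap
  · -- dual to the planar case
    rw [not_or] at hgu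
    obtain ⟨v', hA', hd⟩ := mz_dual hA (by norm_num)
    have htr : CN ![Aᵀ, Bᵀ, C'ᵀ] := by
      have h1 := hT.cn.transpose
      rwa [tr_eq] at h1
    have h1 := (cl_pl hA' htr (hd _ _ _ _ _ _ _ _ _ hB) (hd _ _ _ _ _ _ _ _ _ hC) hh hw hh' hw'
      hgu.1 hgu.2).transpose
    rw [tr_eq] at h1
    simp only [Matrix.transpose_transpose] at h1
    exact hT.ncl h1
  obtain ⟨v1, p, g1, h1, t1, q1, u1, w1, g2, h2, r2, t2, q2, u2, w2, hA1, hB1, hC1, x1, x2, x3,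
    x4, e1, e2, e3, -⟩ := frame_one hA (by norm_num) hf hh hw hh' hw' hB hC
  have m0 : A ∈ adj ![A, B, C'] := mem_adj ![A, B, C'] 0
  have m1 : B ∈ adj ![A, B, C'] := mem_adj ![A, B, C'] 1
  have m2 : C' - aeval A p * B ∈ adj ![A, B, C'] :=
    sub_mem (mem_adj ![A, B, C'] 2) (Two.aeval_mul_mem m0 m1 p)
  have hT1 : MaxR (fun i => (A ^ i).rank) ![A, B, C' - aeval A p * B] := by
    refine hT.change (D8.cn3 (hT.cn.comm m0 m1) (hT.cn.comm m0 m2) (hT.cn.comm m1 m2)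
      (hT.cn.nilp m0) (hT.cn.nilp m1) (hT.cn.nilp m2)) fun i => ?_
    have n0 : A ∈ adj ![A, B, C' - aeval A p * B] := mem_adj ![A, B, C' - aeval A p * B] 0
    have n1 : B ∈ adj ![A, B, C' - aeval A p * B] := mem_adj ![A, B, C' - aeval A p * B] 1
    fin_cases i
    · exact n0
    · exact n1
    · have := add_mem (mem_adj ![A, B, C' - aeval A p * B] 2) (Two.aeval_mul_mem n0 n1 p)
      have e : (![A, B, C' - aeval A p * B] : Fin 3 → _) 2 + aeval A p * B = C' := by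
        show C' - aeval A p * B + aeval A p * B = C'
        rw [sub_add_cancel]
      rwa [e] at this
  refine no_frame hA1 hT1 hB1 hC1 x1 x2 x4 (X_dvd_iff.2 (by rw [e2, ht0, mul_zero])) ?_
  rcases hgu with h0 | h0
  · exact Or.inl (by rw [e1, h0, mul_zero])
  · exact Or.inr (by rw [h0] at e3; exact (mul_eq_zero.1 e3).resolve_left hf)

/-- **case I of type (6, 4, 2)** -/
theorem no_caseI [IsAlgClosed k] [CharZero k] {A B C' : Matrix (Fin N) (Fin N) k}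
    {v : Fin 3 → Fin N → k} (hA : Bz A v 4 2) (hT : MaxR (fun i => (A ^ i).rank) ![A, B, C'])
    {f g h r t q u w f' g' h' r' t' q' u' w' : k[X]}
    (hB : Rep A v B (Mz 4 2 f g h r t q u w)) (hC : Rep A v C' (Mz 4 2 f' g' h' r' t' q' u' w'))
    (hh : X ∣ h) (hw : X ∣ w) (hh' : X ∣ h') (hw' : X ∣ w')
    (hf : f.coeff 0 ≠ 0 ∨ f'.coeff 0 ≠ 0 ∨ g.coeff 0 ≠ 0 ∨ g'.coeff 0 ≠ 0) : False := by
  have hswap : ∀ {A B C' : Matrix (Fin N) (Fin N) k}, MaxR (fun i => (A ^ i).rank) ![A, B, C'] →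
      MaxR (fun i => (A ^ i).rank) ![A, C', B] := fun hT => D8.MaxR.swap hT
  have htr : MaxR (fun i => (Aᵀ ^ i).rank) ![Aᵀ, Bᵀ, C'ᵀ] := by
    have h1 := hT.transpose
    rw [tr_eq] at h1
    have e : (fun i => (Aᵀ ^ i).rank) = fun i => (A ^ i).rank := by
      funext i
      rw [← Matrix.transpose_pow, Matrix.rank_transpose]
    rwa [e]
  obtain ⟨v', hA', hd⟩ := mz_dual hA (by norm_num)
  rcases hf with hf | hf | hf | hf
  · exact no_f hA hT hB hC hh hw hh' hw' hf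
  · exact no_f hA (hswap hT) hC hB hh' hw' hh hw hf
  · exact no_f hA' htr (hd _ _ _ _ _ _ _ _ _ hB) (hd _ _ _ _ _ _ _ _ _ hC) hh hw hh' hw' hf
  · exact no_f hA' (hswap htr) (hd _ _ _ _ _ _ _ _ _ hC) (hd _ _ _ _ _ _ _ _ _ hB) hh' hw'
      hh hw hf

end I642

end Pool.Agent.Lib.D13
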