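import Pool.Agent.Lib.D9.T333X
import Pool.Agent.Lib.D8.UtilB

/-!
# MP_5dcbc3_ag: pairs of commuting 3 x 3 matrices and their first jets

`jets`: a property `B ι P Q P' Q'` with `P P' = P' P` and `(Q P' + P Q' - Q' P - P' Q) ι = 0` which
is stable under conjugation, linear changes, and linear families with a generic parameter, and
which never holds if `P` has a cyclic vector, never holds.
-/

set_option autoImplicit false

namespace Pool.Agent.Lib.D13

open Matrix Pool.Agent.Lib.D9.T333Aux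

namespace JetsAux

variable {k : Type*} [Field k]

/-- cross product -/
def cr (a b : Fin 3 → k) : Fin 3 → k :=
  ![a 1 * b 2 - a 2 * b 1, a 2 * b 0 - a 0 * b 2, a 0 * b 1 - a 1 * b 0]

theorem D3_cr (v a b : Fin 3 → k) : D3 v a b = v ⬝ᵥ cr a b := by
  simp [D3, cr, dotProduct, Fin.sum_univ_three]
  ring

theorem finite_cubic {c0 c1 c2 c3 : k} (h : c0 ≠ 0 ∨ c1 ≠ 0 ∨ c2 ≠ 0 ∨ c3 ≠ 0) :
    {s : k | c0 + c1 * s + c2 * s ^ 2 + c3 * s ^ 3 = 0}.Finite := by
  have hp : (Polynomial.C c0 + Polynomial.C c1 * Polynomial.X +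
      Polynomial.C c2 * Polynomial.X ^ 2 + Polynomial.C c3 * Polynomial.X ^ 3) ≠
      (0 : Polynomial k) := by
    intro h0
    have e := fun i => congrArg (fun p => Polynomial.coeff p i) h0
    have h1 := e 0
    have h2 := e 1
    have h3 := e 2
    have h4 := e 3
    simp [Polynomial.coeff_X_pow, Polynomial.coeff_X, Polynomial.coeff_C] at h1 h2 h3 h4
    rcases h with h | h | h | h
    exacts [h h1, h h2, h h3, h h4]
  refine (D8.finite_zeros _ hp).subset fun s hs => ?_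
  simpa using hs

theorem finite_cyc {X R : Matrix (Fin 3) (Fin 3) k} {v : Fin 3 → k} (hv : Cyc R v) :
    {s : k | ¬ Cyc (X + s • R) v}.Finite := by
  have h := finite_cubic (c0 := D3 v (X *ᵥ v) (X *ᵥ (X *ᵥ v)))
    (c1 := D3 v (R *ᵥ v) (X *ᵥ (X *ᵥ v)) + D3 v (X *ᵥ v) (X *ᵥ (R *ᵥ v) + R *ᵥ (X *ᵥ v)))
    (c2 := D3 v (R *ᵥ v) (X *ᵥ (R *ᵥ v) + R *ᵥ (X *ᵥ v)) + D3 v (X *ᵥ v) (R *ᵥ (R *ᵥ v)))
    (c3 := D3 v (R *ᵥ v) (R *ᵥ (R *ᵥ v))) (Or.inr (Or.inr (Or.inr hv)))
  refine h.subset fun s hs => ?_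
  have hs' : D3 v ((X + s • R) *ᵥ v) ((X + s • R) *ᵥ ((X + s • R) *ᵥ v)) = 0 := by
    by_contra h0
    exact hs h0
  rw [Set.mem_ofPred_eq, ← hs']
  simp only [Matrix.add_mulVec, Matrix.mulVec_add, Matrix.smul_mulVec, Matrix.mulVec_smul, D3,
    Pi.add_apply, Pi.smul_apply, smul_eq_mul]
  ring

/-- a vector outside of three planes -/
theorem nz3 [Infinite k] {a b c : Fin 3 → k} (ha : a ≠ 0) (hb : b ≠ 0) (hc : c ≠ 0) :
    ∃ v : Fin 3 → k, a ⬝ᵥ v ≠ 0 ∧ b ⬝ᵥ v ≠ 0 ∧ c ⬝ᵥ v ≠ 0 := by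
  have key : ∀ a : Fin 3 → k, a ≠ 0 → {s : k | a ⬝ᵥ ![1, s, s ^ 2] = 0}.Finite := by
    intro a ha
    have h1 : a 0 ≠ 0 ∨ a 1 ≠ 0 ∨ a 2 ≠ 0 ∨ (0 : k) ≠ 0 := by
      by_contra h
      push Not at h
      obtain ⟨h0, h1, h2, -⟩ := h
      exact ha (by
        funext i
        fin_cases i
        exacts [h0, h1, h2])
    refine (finite_cubic h1).subset fun s hs => ?_
    rw [Set.mem_ofPred_eq] at hs ⊢
    simp [dotProduct, Fin.sum_univ_three] at hs
    linear_combination hs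
  obtain ⟨s, hs⟩ := (((key a ha).union (key b hb)).union (key c hc)).exists_notMem
  simp only [Set.mem_union, not_or, Set.mem_ofPred_eq] at hs
  exact ⟨_, hs.1.1, hs.1.2, hs.2⟩

/-- a matrix with vanishing first row has a cyclic vector or is a scalar matrix plus a matrix of
rank at most one -/
theorem cyc_or_row (r1 r2 a b c d : k) :
    (∃ v, Cyc (!![0, 0, 0; r1, a, b; r2, c, d] : Matrix (Fin 3) (Fin 3) k) v) ∨
    ∃ (l : k) (x y : Fin 3 → k), (!![0, 0, 0; r1, a, b; r2, c, d] : Matrix (Fin 3) (Fin 3) k) =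
      l • 1 + vecMulVec x y := by
  -- the determinant of `v, N v, N ^ 2 v` for `v = (1, v1, v2)`
  have key : ∀ v1 v2 : k, D3 ![1, v1, v2] (!![0, 0, 0; r1, a, b; r2, c, d] *ᵥ ![1, v1, v2])
      (!![0, 0, 0; r1, a, b; r2, c, d] *ᵥ
        (!![0, 0, 0; r1, a, b; r2, c, d] *ᵥ ![1, v1, v2])) =
      c * (r1 + a * v1 + b * v2) ^ 2 + (d - a) * (r1 + a * v1 + b * v2) *
        (r2 + c * v1 + d * v2) - b * (r2 + c * v1 + d * v2) ^ 2 := by
    intro v1 v2
    simp [D3, Matrix.mulVec, dotProduct, Fin.sum_univ_three]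
    ring
  have self : ∀ v1 v2 : k, c * (r1 + a * v1 + b * v2) ^ 2 + (d - a) * (r1 + a * v1 + b * v2) *
        (r2 + c * v1 + d * v2) - b * (r2 + c * v1 + d * v2) ^ 2 ≠ 0 →
      (∃ v, Cyc (!![0, 0, 0; r1, a, b; r2, c, d] : Matrix (Fin 3) (Fin 3) k) v) := by
    intro v1 v2 h
    refine ⟨![1, v1, v2], ?_⟩
    unfold Cyc
    rw [key]
    exact h
  by_cases hs : b = 0 ∧ c = 0 ∧ a = d
  · obtain ⟨rfl, rfl, rfl⟩ := hs
    refine Or.inr ⟨a, ![-a, r1, r2], ![1, 0, 0], ?_⟩
    ext i j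
    fin_cases i <;> fin_cases j <;> simp [vecMulVec_apply]
  by_cases hd : a * d - b * c = 0
  · -- `N` is cyclic or of rank one
    by_cases hq : ∀ v1 v2 : k, c * (r1 + a * v1 + b * v2) ^ 2 + (d - a) * (r1 + a * v1 + b * v2) *
        (r2 + c * v1 + d * v2) - b * (r2 + c * v1 + d * v2) ^ 2 = 0
    swap
    · push Not at hq
      obtain ⟨v1, v2, h⟩ := hq
      exact Or.inl (self v1 v2 h)
    have q0 := hq 0 0
    have q1 := hq 1 0
    have q2 := hq 0 1
    simp only [mul_zero, add_zero, mul_one] at q0 q1 q2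
    have hA' : (r1 * c - r2 * a) * (a + d) = 0 := by
      linear_combination q1 - q0 - (2 * r2 + c) * hd
    have hB' : (r1 * d - r2 * b) * (a + d) = 0 := by
      linear_combination q2 - q0 + (2 * r1 + b) * hd
    have hA : r1 * c - r2 * a = 0 := by
      have h : (r1 * c - r2 * a) * (r1 * c - r2 * a) = 0 := by
        linear_combination c * q0 - r2 * hA' - r2 ^ 2 * hd
      exact mul_self_eq_zero.1 h
    have hB : r1 * d - r2 * b = 0 := by
      have h : (r1 * d - r2 * b) * (r1 * d - r2 * b) = 0 := by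
        linear_combination r1 * hB' - r1 ^ 2 * hd - b * q0
      exact mul_self_eq_zero.1 h
    right
    have fin : ∀ x y : Fin 3 → k, (!![0, 0, 0; r1, a, b; r2, c, d] : Matrix (Fin 3) (Fin 3) k) =
        vecMulVec x y → ∃ (l : k) (x y : Fin 3 → k),
          (!![0, 0, 0; r1, a, b; r2, c, d] : Matrix (Fin 3) (Fin 3) k) =
            l • 1 + vecMulVec x y := by
      intro x y h
      exact ⟨0, x, y, by rw [h, zero_smul, zero_add]⟩
    by_cases ha : a = 0
    · by_cases hb : b = 0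
      · by_cases hr : r1 = 0
        · refine fin ![0, 0, 1] ![r2, c, d] ?_
          ext i j
          fin_cases i <;> fin_cases j <;> simp [vecMulVec_apply, ha, hb, hr]
        · refine fin ![0, 1, r2 / r1] ![r1, a, b] ?_
          have e1 : r2 / r1 * r1 = r2 := div_mul_cancel₀ _ hr
          have e2 : r2 / r1 * a = c := by
            rw [div_mul_eq_mul_div, div_eq_iff hr]
            linear_combination -hA
          have e3 : r2 / r1 * b = d := by
            rw [div_mul_eq_mul_div, div_eq_iff hr]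
            linear_combination -hB
          ext i j
          fin_cases i <;> fin_cases j <;> simp [vecMulVec_apply, e1, e2, e3]
      · refine fin ![0, 1, d / b] ![r1, a, b] ?_
        have e1 : d / b * r1 = r2 := by
          rw [div_mul_eq_mul_div, div_eq_iff hb]
          linear_combination hB
        have e2 : d / b * a = c := by
          rw [div_mul_eq_mul_div, div_eq_iff hb]
          linear_combination hd
        have e3 : d / b * b = d := div_mul_cancel₀ _ hb
        ext i j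
        fin_cases i <;> fin_cases j <;> simp [vecMulVec_apply, e1, e2, e3]
    · refine fin ![0, 1, c / a] ![r1, a, b] ?_
      have e1 : c / a * r1 = r2 := by
        rw [div_mul_eq_mul_div, div_eq_iff ha]
        linear_combination hA
      have e2 : c / a * a = c := div_mul_cancel₀ _ ha
      have e3 : c / a * b = d := by
        rw [div_mul_eq_mul_div, div_eq_iff ha]
        linear_combination -hd
      ext i j
      fin_cases i <;> fin_cases j <;> simp [vecMulVec_apply, e1, e2, e3]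
  · -- the lower block is invertible and not scalar
    left
    have hz : ∃ z1 z2 : k, c * z1 ^ 2 + (d - a) * z1 * z2 - b * z2 ^ 2 ≠ 0 := by
      by_contra h
      push Not at h
      have h1 := h 1 0
      have h2 := h 0 1
      have h3 := h 1 1
      simp at h1 h2 h3
      refine hs ⟨h2, h1, ?_⟩
      rw [h1, h2] at h3
      linear_combination -h3
    obtain ⟨z1, z2, hz⟩ := hz
    refine self ((d * (z1 - r1) - b * (z2 - r2)) / (a * d - b * c))
      ((a * (z2 - r2) - c * (z1 - r1)) / (a * d - b * c)) ?_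
    have e1 : r1 + a * ((d * (z1 - r1) - b * (z2 - r2)) / (a * d - b * c)) +
        b * ((a * (z2 - r2) - c * (z1 - r1)) / (a * d - b * c)) = z1 := by
      have e : r1 + a * ((d * (z1 - r1) - b * (z2 - r2)) / (a * d - b * c)) +
        b * ((a * (z2 - r2) - c * (z1 - r1)) / (a * d - b * c)) =
          r1 + (a * d - b * c) * (z1 - r1) / (a * d - b * c) := by ring
      rw [e, mul_div_cancel_left₀ _ hd]
      ring
    have e2 : r2 + c * ((d * (z1 - r1) - b * (z2 - r2)) / (a * d - b * c)) +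
        d * ((a * (z2 - r2) - c * (z1 - r1)) / (a * d - b * c)) = z2 := by
      have e : r2 + c * ((d * (z1 - r1) - b * (z2 - r2)) / (a * d - b * c)) +
        d * ((a * (z2 - r2) - c * (z1 - r1)) / (a * d - b * c)) =
          r2 + (a * d - b * c) * (z2 - r2) / (a * d - b * c) := by ring
      rw [e, mul_div_cancel_left₀ _ hd]
      ring
    rw [e1, e2]
    exact hz

theorem cyc_conj {N g g' : Matrix (Fin 3) (Fin 3) k} {v : Fin 3 → k} (h : g * g' = 1)
    (hv : Cyc (g * N * g') v) : Cyc N (g' *ᵥ v) := by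
  have h' : g' * g = 1 := mul_eq_one_comm.1 h
  have e1 : ∀ w : Fin 3 → k, N *ᵥ (g' *ᵥ w) = g' *ᵥ ((g * N * g') *ᵥ w) := by
    intro w
    rw [Matrix.mulVec_mulVec, Matrix.mulVec_mulVec, ← mul_assoc, ← mul_assoc, h', one_mul]
  unfold Cyc at hv ⊢
  rw [e1, e1, D3_mulVec]
  refine mul_ne_zero ?_ hv
  intro h0
  have h1 := congrArg Matrix.det h
  rw [Matrix.det_mul, h0, mul_zero, Matrix.det_one] at h1
  exact zero_ne_one h1

theorem cyc_add {N : Matrix (Fin 3) (Fin 3) k} {v : Fin 3 → k} {l : k}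
    (hv : Cyc (N - l • 1) v) : Cyc N v := by
  unfold Cyc at hv ⊢
  have e : D3 v (N *ᵥ v) (N *ᵥ (N *ᵥ v)) =
      D3 v ((N - l • 1) *ᵥ v) ((N - l • 1) *ᵥ ((N - l • 1) *ᵥ v)) := by
    simp only [Matrix.sub_mulVec, Matrix.smul_mulVec, Matrix.one_mulVec, Matrix.mulVec_sub,
      Matrix.mulVec_smul]
    simp only [D3, Pi.sub_apply, Pi.smul_apply, smul_eq_mul]
    ring
  rw [e]
  exact hv

/-- a 3 x 3 matrix has a cyclic vector or is a scalar matrix plus a matrix of rank at most one -/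
theorem cyc_or [IsAlgClosed k] (N : Matrix (Fin 3) (Fin 3) k) :
    (∃ v, Cyc N v) ∨ ∃ (l : k) (x y : Fin 3 → k), N = l • 1 + vecMulVec x y := by
  obtain ⟨l, hl⟩ : ∃ l : k, (N - l • (1 : Matrix (Fin 3) (Fin 3) k)).det = 0 := by
    obtain ⟨l, hl⟩ := IsAlgClosed.exists_root N.charpoly (by
      rw [Matrix.charpoly_degree_eq_dim]
      simp)
    refine ⟨l, ?_⟩
    rw [Polynomial.IsRoot.def, Matrix.eval_charpoly] at hl
    have e : N - l • (1 : Matrix (Fin 3) (Fin 3) k) = -(Matrix.scalar (Fin 3) l - N) := by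
      rw [neg_sub]
      congr 1
      ext i j
      fin_cases i <;> fin_cases j <;> simp
    rw [e, Matrix.det_neg, hl, mul_zero]
  obtain ⟨y, hy, hy'⟩ := Matrix.exists_vecMul_eq_zero_iff.2 hl
  obtain ⟨g, g', hg, hr⟩ := exists_row hy
  have h' : g' * g = 1 := mul_eq_one_comm.1 hg
  have h0 : ∀ j, (g * (N - l • 1) * g') 0 j = 0 := by
    intro j
    rw [mul_assoc, Matrix.mul_apply]
    have e : ∑ i, g 0 i * ((N - l • 1) * g') i j = (y ᵥ* ((N - l • 1) * g')) j := by
      simp [Matrix.vecMul, dotProduct, hr]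
    rw [e, ← Matrix.vecMul_vecMul, hy', Matrix.zero_vecMul]
    rfl
  have e : g * (N - l • 1) * g' = !![0, 0, 0;
      (g * (N - l • 1) * g') 1 0, (g * (N - l • 1) * g') 1 1, (g * (N - l • 1) * g') 1 2;
      (g * (N - l • 1) * g') 2 0, (g * (N - l • 1) * g') 2 1, (g * (N - l • 1) * g') 2 2] := by
    ext i j
    fin_cases i
    · rw [show ((⟨0, by decide⟩ : Fin 3)) = 0 from rfl, h0]
      fin_cases j <;> rfl
    · fin_cases j <;> rfl
    · fin_cases j <;> rfl
  rcases cyc_or_row ((g * (N - l • 1) * g') 1 0) ((g * (N - l • 1) * g') 2 0)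
    ((g * (N - l • 1) * g') 1 1) ((g * (N - l • 1) * g') 1 2) ((g * (N - l • 1) * g') 2 1)
    ((g * (N - l • 1) * g') 2 2) with ⟨v, hv⟩ | ⟨l', x, y', h⟩
  · rw [← e] at hv
    exact Or.inl ⟨_, cyc_add (cyc_conj hg hv)⟩
  · rw [← e] at h
    refine Or.inr ⟨l + l', g' *ᵥ x, y' ᵥ* g, ?_⟩
    have e2 : N - l • 1 = g' * (g * (N - l • 1) * g') * g := by
      calc N - l • 1 = 1 * (N - l • 1) * 1 := by rw [one_mul, mul_one]
        _ = (g' * g) * (N - l • 1) * (g' * g) := by rw [h']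
        _ = g' * (g * (N - l • 1) * g') * g := by simp only [mul_assoc]
    rw [h, mul_add, add_mul, mul_smul_comm, smul_mul_assoc, mul_one, h', Matrix.mul_vecMulVec,
      Matrix.vecMulVec_mul] at e2
    rw [add_smul, add_assoc, ← e2]
    abel

variable {m : Type*} [Fintype m]

/-- the hypotheses of `jets` -/
structure JB (B : Matrix (Fin 3) m k → Matrix (Fin 3) (Fin 3) k → Matrix (Fin 3) (Fin 3) k →
    Matrix (Fin 3) (Fin 3) k → Matrix (Fin 3) (Fin 3) k → Prop) : Prop where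
  rel : ∀ ι P Q P' Q', B ι P Q P' Q' →
    P * P' = P' * P ∧ (Q * P' + P * Q') * ι = (Q' * P + P' * Q) * ι
  conj : ∀ g g' : Matrix (Fin 3) (Fin 3) k, g * g' = 1 → ∀ ι P Q P' Q', B ι P Q P' Q' →
    B (g * ι) (g * P * g') (g * Q * g') (g * P' * g') (g * Q' * g')
  lin : ∀ a b c d x z : k, a * d - b * c ≠ 0 → ∀ ι P Q P' Q', B ι P Q P' Q' →
    B ι (a • P + b • P' + x • 1) (a • Q + b • Q') (c • P + d • P' + z • 1) (c • Q + d • Q')
  line : ∀ ι P Q P' Q', B ι P Q P' Q' → ∀ P1 Q1 P1' Q1' : Matrix (Fin 3) (Fin 3) k,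
    (∀ s : k, (P + s • P1) * (P' + s • P1') = (P' + s • P1') * (P + s • P1)) →
    (∀ s : k, ((Q + s • Q1) * (P' + s • P1') + (P + s • P1) * (Q' + s • Q1')) * ι =
      ((Q' + s • Q1') * (P + s • P1) + (P' + s • P1') * (Q + s • Q1)) * ι) →
    ∀ F : Set k, F.Finite →
    ∃ s, s ∉ F ∧ B ι (P + s • P1) (Q + s • Q1) (P' + s • P1') (Q' + s • Q1')
  cyc : ∀ ι P Q P' Q' v, Cyc P v → B ι P Q P' Q' → False

variable {B : Matrix (Fin 3) m k → Matrix (Fin 3) (Fin 3) k → Matrix (Fin 3) (Fin 3) k →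
    Matrix (Fin 3) (Fin 3) k → Matrix (Fin 3) (Fin 3) k → Prop}

theorem JB.swap (hB : JB B) {ι : Matrix (Fin 3) m k} {P Q P' Q' : Matrix (Fin 3) (Fin 3) k}
    (h : B ι P Q P' Q') : B ι P' Q' P Q := by
  have h1 := hB.lin 0 1 1 0 0 0 (by simp) ι P Q P' Q' h
  simpa using h1

/-- the second matrix is zero -/
theorem JB.zero [CharZero k] [IsAlgClosed k] (hB : JB B) {ι : Matrix (Fin 3) m k}
    {P Q Q' : Matrix (Fin 3) (Fin 3) k} (h : B ι P Q 0 Q') : False := by
  obtain ⟨R, v, hR, hv⟩ := good_all P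
  have hr := (hB.rel _ _ _ _ _ h).2
  rw [mul_zero, zero_mul, zero_add, add_zero] at hr
  obtain ⟨s, hs, h1⟩ := hB.line ι P Q 0 Q' h 0 0 0 R (fun s => by simp) (fun s => by
    simp only [smul_zero, add_zero, mul_zero, zero_mul, zero_add]
    rw [Matrix.mul_add, Matrix.add_mul, Matrix.add_mul, Matrix.add_mul, hr, mul_smul_comm,
      smul_mul_assoc, hR]) _ (finite_cyc (X := Q') hv)
  simp only [smul_zero, add_zero] at h1
  have hs' : Cyc (Q' + s • R) v := not_not.1 hs
  obtain ⟨t, ht, h2⟩ := hB.line ι P Q 0 (Q' + s • R) h1 (Q' + s • R) 0 0 0 (fun s => by simp)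
    (fun t => by
      have hr1 := (hB.rel _ _ _ _ _ h1).2
      rw [mul_zero, zero_mul, zero_add, add_zero] at hr1
      simp only [smul_zero, add_zero, mul_zero, zero_mul, zero_add]
      rw [Matrix.mul_add (Q' + s • R), Matrix.add_mul P, Matrix.add_mul (P * _),
        Matrix.add_mul ((Q' + s • R) * P), hr1, mul_smul_comm, smul_mul_assoc]) _
    (finite_cyc (X := P) hs')
  exact hB.cyc _ _ _ _ _ v (not_not.1 ht) h2

/-- the case `P = e₀ ⊗ e₁`, `P' = e₀ ⊗ e₂` -/
theorem JB.typeA [Infinite k] (hB : JB B) {ι : Matrix (Fin 3) m k}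
    {Q Q' : Matrix (Fin 3) (Fin 3) k} (h20 : Q' 2 0 = 0)
    (h : B ι !![0, 1, 0; 0, 0, 0; 0, 0, 0] Q !![0, 0, 1; 0, 0, 0; 0, 0, 0] Q') : False := by
  have hr := (hB.rel _ _ _ _ _ h).2
  obtain ⟨s, hs, h1⟩ := hB.line ι _ Q _ Q' h !![0, 0, 0; 0, 0, 1; 0, 0, 0]
    !![Q' 0 1, 0, 0; Q' 1 1 - Q' 2 2, 0, 0; Q' 2 1, 0, 0] 0 !![0, 0, 0; Q' 2 1, 0, 0; 0, 0, 0]
    (fun s => by
      ext i j
      fin_cases i <;> fin_cases j <;> simp [Matrix.mul_apply, Fin.sum_univ_three])
    (fun s => by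
      rw [← sub_eq_zero, ← Matrix.sub_mul]
      rw [← sub_eq_zero, ← Matrix.sub_mul] at hr
      rw [← hr]
      congr 1
      rw [Matrix.eta_fin_three Q, Matrix.eta_fin_three Q']
      ext i j
      fin_cases i <;> fin_cases j <;> simp [Matrix.mul_apply, Fin.sum_univ_three, h20] <;>
        try ring)
    {0} (Set.finite_singleton 0)
  refine hB.cyc _ _ _ _ _ ![0, 0, 1] ?_ h1
  have hs' : s ≠ 0 := hs
  simp [Cyc, D3, Matrix.mulVec, dotProduct, Fin.sum_univ_three, hs']

/-- the case `P = e₁ ⊗ e₀`, `P' = e₂ ⊗ e₀` -/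
theorem JB.typeB [Infinite k] (hB : JB B) {ι : Matrix (Fin 3) m k}
    {Q Q' : Matrix (Fin 3) (Fin 3) k} (h02 : Q' 0 2 = 0)
    (h : B ι !![0, 0, 0; 1, 0, 0; 0, 0, 0] Q !![0, 0, 0; 0, 0, 0; 1, 0, 0] Q') : False := by
  have hr := (hB.rel _ _ _ _ _ h).2
  obtain ⟨s, hs, h1⟩ := hB.line ι _ Q _ Q' h !![0, 0, 0; 0, 0, 0; 0, 1, 0]
    !![0, Q' 1 1 - Q' 2 2, Q' 1 2; 0, 0, 0; 0, 0, -Q' 1 0] 0 !![0, Q' 1 2, 0; 0, 0, 0; 0, 0, 0]
    (fun s => by
      ext i j
      fin_cases i <;> fin_cases j <;> simp [Matrix.mul_apply, Fin.sum_univ_three])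
    (fun s => by
      rw [← sub_eq_zero, ← Matrix.sub_mul]
      rw [← sub_eq_zero, ← Matrix.sub_mul] at hr
      rw [← hr]
      congr 1
      rw [Matrix.eta_fin_three Q, Matrix.eta_fin_three Q']
      ext i j
      fin_cases i <;> fin_cases j <;> simp [Matrix.mul_apply, Fin.sum_univ_three, h02] <;>
        try ring)
    {0} (Set.finite_singleton 0)
  refine hB.cyc _ _ _ _ _ ![1, 0, 0] ?_ h1
  have hs' : s ≠ 0 := hs
  simp [Cyc, D3, Matrix.mulVec, dotProduct, Fin.sum_univ_three, hs']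

theorem cr_ne {y y' x : Fin 3 → k} (hc : cr y y' ≠ 0) (h1 : y ⬝ᵥ x = 0) (h2 : y' ⬝ᵥ x = 0)
    {i : Fin 3} (hx : x i ≠ 0) : cr y y' i ≠ 0 := by
  intro h0
  apply hc
  simp only [dotProduct, Fin.sum_univ_three] at h1 h2
  have k0 : x 0 * cr y y' 1 = x 1 * cr y y' 0 := by
    simp only [cr, Matrix.cons_val_zero, Matrix.cons_val_one]
    linear_combination y 2 * h2 - y' 2 * h1
  have k1 : x 1 * cr y y' 2 = x 2 * cr y y' 1 := by
    simp only [cr, Matrix.cons_val_one, Matrix.cons_val]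
    linear_combination y 0 * h2 - y' 0 * h1
  have k2 : x 2 * cr y y' 0 = x 0 * cr y y' 2 := by
    simp only [cr, Matrix.cons_val_zero, Matrix.cons_val]
    linear_combination y 1 * h2 - y' 1 * h1
  funext j
  fin_cases i
  · have e1 : cr y y' 1 = 0 := by
      have h3 : x 0 * cr y y' 1 = 0 := by rw [k0]; exact mul_eq_zero_of_right _ h0
      exact (mul_eq_zero.1 h3).resolve_left hx
    have e2 : cr y y' 2 = 0 := by
      have h3 : x 0 * cr y y' 2 = 0 := by rw [← k2]; exact mul_eq_zero_of_right _ h0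
      exact (mul_eq_zero.1 h3).resolve_left hx
    fin_cases j
    exacts [h0, e1, e2]
  · have e0 : cr y y' 0 = 0 := by
      have h3 : x 1 * cr y y' 0 = 0 := by rw [← k0]; exact mul_eq_zero_of_right _ h0
      exact (mul_eq_zero.1 h3).resolve_left hx
    have e2 : cr y y' 2 = 0 := by
      have h3 : x 1 * cr y y' 2 = 0 := by rw [k1]; exact mul_eq_zero_of_right _ h0
      exact (mul_eq_zero.1 h3).resolve_left hx
    fin_cases j
    exacts [e0, h0, e2]
  · have e0 : cr y y' 0 = 0 := by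
      have h3 : x 2 * cr y y' 0 = 0 := by rw [k2]; exact mul_eq_zero_of_right _ h0
      exact (mul_eq_zero.1 h3).resolve_left hx
    have e1 : cr y y' 1 = 0 := by
      have h3 : x 2 * cr y y' 1 = 0 := by rw [← k1]; exact mul_eq_zero_of_right _ h0
      exact (mul_eq_zero.1 h3).resolve_left hx
    fin_cases j
    exacts [e0, e1, h0]

/-- a basis adapted to a vector and two functionals -/
theorem exists_frame {y y' x : Fin 3 → k} (hc : cr y y' ≠ 0) (h1 : y ⬝ᵥ x = 0)
    (h2 : y' ⬝ᵥ x = 0) (hx : x ≠ 0) : ∃ g g' : Matrix (Fin 3) (Fin 3) k, g * g' = 1 ∧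
      g *ᵥ x = ![1, 0, 0] ∧ (∀ j, g 1 j = y j) ∧ (∀ j, g 2 j = y' j) := by
  obtain ⟨i, hi⟩ : ∃ i, x i ≠ 0 := by
    by_contra h
    push Not at h
    exact hx (funext h)
  have hcr := cr_ne hc h1 h2 hi
  let f : Fin 3 → k := Pi.single i (x i)⁻¹
  have hf : ∀ w : Fin 3 → k, f ⬝ᵥ w = (x i)⁻¹ * w i := by
    intro w
    simp [f, dotProduct, Pi.single_apply]
  let g : Matrix (Fin 3) (Fin 3) k := !![f 0, f 1, f 2; y 0, y 1, y 2; y' 0, y' 1, y' 2]
  have hdet : g.det ≠ 0 := by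
    have e : g.det = f ⬝ᵥ cr y y' := by
      rw [Matrix.det_fin_three]
      simp [g, cr, dotProduct, Fin.sum_univ_three]
      ring
    rw [e, hf]
    exact mul_ne_zero (inv_ne_zero hi) hcr
  refine ⟨g, g⁻¹, Matrix.mul_nonsing_inv _ (isUnit_iff_ne_zero.2 hdet), ?_, ?_, ?_⟩
  · have e0 := hf x
    rw [inv_mul_cancel₀ hi] at e0
    funext j
    fin_cases j
    · simpa [g, Matrix.mulVec, dotProduct, Fin.sum_univ_three] using e0
    · simpa [g, Matrix.mulVec, dotProduct, Fin.sum_univ_three] using h1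
    · simpa [g, Matrix.mulVec, dotProduct, Fin.sum_univ_three] using h2
  · intro j
    fin_cases j <;> rfl
  · intro j
    fin_cases j <;> rfl

theorem row_mul {g g' : Matrix (Fin 3) (Fin 3) k} (h : g * g' = 1) {y : Fin 3 → k} {i : Fin 3}
    (hy : ∀ j, g i j = y j) : y ᵥ* g' = fun j => (1 : Matrix (Fin 3) (Fin 3) k) i j := by
  funext j
  rw [← h, Matrix.mul_apply]
  simp [Matrix.vecMul, dotProduct, hy]

/-- two matrices of rank one with the same image -/
theorem JB.imageA [Infinite k] (hB : JB B) {ι : Matrix (Fin 3) m k}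
    {Q Q' : Matrix (Fin 3) (Fin 3) k} {x y y' : Fin 3 → k} (hc : cr y y' ≠ 0)
    (h1 : y ⬝ᵥ x = 0) (h2 : y' ⬝ᵥ x = 0) (hx : x ≠ 0) (h3 : y' ⬝ᵥ (Q' *ᵥ x) = 0)
    (h : B ι (vecMulVec x y) Q (vecMulVec x y') Q') : False := by
  obtain ⟨g, g', hg, hgx, hy, hy'⟩ := exists_frame hc h1 h2 hx
  have hg' : g' * g = 1 := mul_eq_one_comm.1 hg
  have hb := hB.conj g g' hg ι _ Q _ Q' h
  have e : ∀ w : Fin 3 → k, g * vecMulVec x w * g' = vecMulVec ![1, 0, 0] (w ᵥ* g') := by
    intro w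
    rw [Matrix.mul_vecMulVec, Matrix.vecMulVec_mul, hgx]
  rw [e, e, row_mul hg hy, row_mul hg hy'] at hb
  have e1 : vecMulVec ![1, 0, 0] (fun j => (1 : Matrix (Fin 3) (Fin 3) k) 1 j) =
      !![0, 1, 0; 0, 0, 0; 0, 0, 0] := by
    ext i j
    fin_cases i <;> fin_cases j <;> simp [vecMulVec_apply]
  have e2 : vecMulVec ![1, 0, 0] (fun j => (1 : Matrix (Fin 3) (Fin 3) k) 2 j) =
      !![0, 0, 1; 0, 0, 0; 0, 0, 0] := by
    ext i j
    fin_cases i <;> fin_cases j <;> simp [vecMulVec_apply]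
  rw [e1, e2] at hb
  refine hB.typeA ?_ hb
  have hx' : g' *ᵥ ![1, 0, 0] = x := by
    rw [← hgx, Matrix.mulVec_mulVec, hg', Matrix.one_mulVec]
  have e3 : (g * Q' * g') 2 0 = y' ⬝ᵥ (Q' *ᵥ (g' *ᵥ ![1, 0, 0])) := by
    have : g' *ᵥ ![1, 0, 0] = fun i => g' i 0 := by
      funext i
      simp [Matrix.mulVec, dotProduct, Fin.sum_univ_three]
    rw [this, mul_assoc, Matrix.mul_apply]
    simp only [hy']
    rfl
  rw [e3, hx']
  exact h3

/-- two matrices of rank one with the same kernel -/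
theorem JB.imageB [Infinite k] (hB : JB B) {ι : Matrix (Fin 3) m k}
    {Q Q' : Matrix (Fin 3) (Fin 3) k} {x x' y : Fin 3 → k} (hc : cr x x' ≠ 0)
    (h1 : y ⬝ᵥ x = 0) (h2 : y ⬝ᵥ x' = 0) (hy : y ≠ 0) (h3 : y ⬝ᵥ (Q' *ᵥ x') = 0)
    (h : B ι (vecMulVec x y) Q (vecMulVec x' y) Q') : False := by
  rw [dotProduct_comm] at h1 h2
  obtain ⟨g, g', hg, hgy, hx, hx'⟩ := exists_frame hc h1 h2 hy
  have hg' : g' * g = 1 := mul_eq_one_comm.1 hg
  -- transposes
  have hb := hB.conj g'ᵀ gᵀ (by rw [← Matrix.transpose_mul, hg, Matrix.transpose_one]) ι _ Q _ Q' h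
  have ey : y ᵥ* gᵀ = ![1, 0, 0] := by rw [Matrix.vecMul_transpose, hgy]
  have ex : g'ᵀ *ᵥ x = fun j => (1 : Matrix (Fin 3) (Fin 3) k) 1 j := by
    rw [Matrix.mulVec_transpose, row_mul hg hx]
  have ex' : g'ᵀ *ᵥ x' = fun j => (1 : Matrix (Fin 3) (Fin 3) k) 2 j := by
    rw [Matrix.mulVec_transpose, row_mul hg hx']
  have e : ∀ w : Fin 3 → k, g'ᵀ * vecMulVec w y * gᵀ = vecMulVec (g'ᵀ *ᵥ w) ![1, 0, 0] := by
    intro w
    rw [Matrix.mul_vecMulVec, Matrix.vecMulVec_mul, ey]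
  rw [e, e, ex, ex'] at hb
  have e1 : vecMulVec (fun j => (1 : Matrix (Fin 3) (Fin 3) k) 1 j) ![1, 0, 0] =
      !![0, 0, 0; 1, 0, 0; 0, 0, 0] := by
    ext i j
    fin_cases i <;> fin_cases j <;> simp [vecMulVec_apply]
  have e2 : vecMulVec (fun j => (1 : Matrix (Fin 3) (Fin 3) k) 2 j) ![1, 0, 0] =
      !![0, 0, 0; 0, 0, 0; 1, 0, 0] := by
    ext i j
    fin_cases i <;> fin_cases j <;> simp [vecMulVec_apply]
  rw [e1, e2] at hb
  refine hB.typeB ?_ hb
  have hy' : g' *ᵥ ![1, 0, 0] = y := by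
    rw [← hgy, Matrix.mulVec_mulVec, hg', Matrix.one_mulVec]
  have e3 : (g'ᵀ * Q' * gᵀ) 0 2 = y ⬝ᵥ (Q' *ᵥ x') := by
    have e4 : ∀ i, g' i 0 = y i := by
      intro i
      rw [← hy']
      simp [Matrix.mulVec, dotProduct, Fin.sum_univ_three]
    rw [mul_assoc, Matrix.mul_apply]
    simp only [Matrix.transpose_apply, e4, Matrix.mul_apply, hx']
    rfl
  rw [e3]
  exact h3

/-- a root of a quadratic form -/
theorem exists_root2 [IsAlgClosed k] (a b c : k) (hc : c ≠ 0) : ∃ t : k,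
    a + b * t + c * t ^ 2 = 0 := by
  obtain ⟨t, ht⟩ := IsAlgClosed.exists_root
    (Polynomial.C c * Polynomial.X ^ 2 + Polynomial.C b * Polynomial.X + Polynomial.C a) (by
      rw [Polynomial.degree_quadratic hc]
      norm_num)
  refine ⟨t, ?_⟩
  rw [Polynomial.IsRoot.def] at ht
  simp only [Polynomial.eval_add, Polynomial.eval_mul, Polynomial.eval_pow, Polynomial.eval_X,
    Polynomial.eval_C] at ht
  linear_combination ht

theorem vmv_add_right (x y y' : Fin 3 → k) (s t : k) :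
    s • vecMulVec x y + t • vecMulVec x y' = vecMulVec x (s • y + t • y') := by
  ext i j
  simp [vecMulVec_apply]
  ring

theorem vmv_add_left (x x' y : Fin 3 → k) (s t : k) :
    s • vecMulVec x y + t • vecMulVec x' y = vecMulVec (s • x + t • x') y := by
  ext i j
  simp [vecMulVec_apply]
  ring

theorem cr_swap (y y' : Fin 3 → k) (t : k) : cr y' (y + t • y') = - cr y y' := by
  funext i
  fin_cases i <;> simp [cr] <;> ring

theorem JB.imageA' [Infinite k] [IsAlgClosed k] (hB : JB B) {ι : Matrix (Fin 3) m k}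
    {Q Q' : Matrix (Fin 3) (Fin 3) k} {x y y' : Fin 3 → k} (hc : cr y y' ≠ 0)
    (h1 : y ⬝ᵥ x = 0) (h2 : y' ⬝ᵥ x = 0) (hx : x ≠ 0)
    (h : B ι (vecMulVec x y) Q (vecMulVec x y') Q') : False := by
  by_cases h3 : y' ⬝ᵥ (Q' *ᵥ x) = 0
  · exact hB.imageA hc h1 h2 hx h3 h
  obtain ⟨t, ht⟩ := exists_root2 (y ⬝ᵥ (Q *ᵥ x)) (y ⬝ᵥ (Q' *ᵥ x) + y' ⬝ᵥ (Q *ᵥ x)) _ h3
  have h4 := hB.lin 0 1 1 t 0 0 (by simp) ι _ Q _ Q' h
  rw [vmv_add_right, vmv_add_right] at h4
  simp only [zero_smul, one_smul, zero_add, add_zero] at h4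
  refine hB.imageA (y := y') (y' := y + t • y') ?_ h2 ?_ hx ?_ h4
  · rw [cr_swap]
    exact neg_ne_zero.2 hc
  · rw [add_dotProduct, smul_dotProduct, h1, h2, smul_zero, add_zero]
  · rw [Matrix.add_mulVec, Matrix.smul_mulVec, add_dotProduct, dotProduct_add, dotProduct_add,
      smul_dotProduct, smul_dotProduct, dotProduct_smul, dotProduct_smul]
    simp only [smul_eq_mul]
    linear_combination ht

theorem JB.imageB' [Infinite k] [IsAlgClosed k] (hB : JB B) {ι : Matrix (Fin 3) m k}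
    {Q Q' : Matrix (Fin 3) (Fin 3) k} {x x' y : Fin 3 → k} (hc : cr x x' ≠ 0)
    (h1 : y ⬝ᵥ x = 0) (h2 : y ⬝ᵥ x' = 0) (hy : y ≠ 0)
    (h : B ι (vecMulVec x y) Q (vecMulVec x' y) Q') : False := by
  by_cases h3 : y ⬝ᵥ (Q' *ᵥ x') = 0
  · exact hB.imageB hc h1 h2 hy h3 h
  obtain ⟨t, ht⟩ := exists_root2 (y ⬝ᵥ (Q *ᵥ x)) (y ⬝ᵥ (Q' *ᵥ x) + y ⬝ᵥ (Q *ᵥ x')) _ h3
  have h4 := hB.lin 0 1 1 t 0 0 (by simp) ι _ Q _ Q' h
  rw [vmv_add_left, vmv_add_left] at h4
  simp only [zero_smul, one_smul, zero_add, add_zero] at h4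
  refine hB.imageB (x := x') (x' := x + t • x') ?_ h2 ?_ hy ?_ h4
  · rw [cr_swap]
    exact neg_ne_zero.2 hc
  · rw [dotProduct_add, dotProduct_smul, h1, h2, smul_zero, add_zero]
  · rw [Matrix.add_mulVec, Matrix.smul_mulVec, Matrix.mulVec_add, Matrix.mulVec_add,
      Matrix.mulVec_smul, Matrix.mulVec_smul, dotProduct_add, dotProduct_add, dotProduct_smul,
      dotProduct_smul, dotProduct_add, dotProduct_smul]
    simp only [smul_eq_mul]
    linear_combination ht

/-- two matrices of rank at most one -/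
theorem JB.rank1 [CharZero k] [IsAlgClosed k] (hB : JB B) {ι : Matrix (Fin 3) m k}
    {Q Q' : Matrix (Fin 3) (Fin 3) k} {x y x' y' : Fin 3 → k}
    (h : B ι (vecMulVec x y) Q (vecMulVec x' y') Q') : False := by
  have hinf : Infinite k := CharZero.infinite k
  by_cases hP : vecMulVec x y = 0
  · rw [hP] at h
    exact hB.zero (hB.swap h)
  by_cases hP' : vecMulVec x' y' = 0
  · rw [hP'] at h
    exact hB.zero h
  have hx : x ≠ 0 := by
    rintro rfl
    exact hP (by ext i j; simp [vecMulVec_apply])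
  have hy : y ≠ 0 := by
    rintro rfl
    exact hP (by ext i j; simp [vecMulVec_apply])
  have hx' : x' ≠ 0 := by
    rintro rfl
    exact hP' (by ext i j; simp [vecMulVec_apply])
  have hy' : y' ≠ 0 := by
    rintro rfl
    exact hP' (by ext i j; simp [vecMulVec_apply])
  -- proportional matrices
  by_cases hprop : ∃ t : k, vecMulVec x' y' = t • vecMulVec x y
  · obtain ⟨t, ht⟩ := hprop
    have h1 := hB.lin 1 0 (-t) 1 0 0 (by simp) ι _ Q _ Q' h
    rw [ht] at h1
    have e : -t • vecMulVec x y + (1 : k) • t • vecMulVec x y + (0 : k) • (1 : Matrix _ _ k) =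
        0 := by module
    rw [e] at h1
    exact hB.zero h1
  have hcomm := (hB.rel _ _ _ _ _ h).1
  have hc : ∀ i j, (y ⬝ᵥ x') * (x i * y' j) = (y' ⬝ᵥ x) * (x' i * y j) := by
    intro i j
    have h1 := congrFun (congrFun hcomm i) j
    rw [Matrix.vecMulVec_mul_vecMulVec, Matrix.vecMulVec_mul_vecMulVec] at h1
    simp only [Matrix.vecMulVec_apply, Matrix.smul_apply, Pi.smul_apply, smul_eq_mul] at h1
    linear_combination h1
  have hne : ∀ {a : Fin 3 → k}, a ≠ 0 → ∃ i, a i ≠ 0 := by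
    intro a ha
    by_contra h0
    push Not at h0
    exact ha (funext h0)
  obtain ⟨i0, hi0⟩ := hne hx
  obtain ⟨j0, hj0⟩ := hne hy'
  obtain ⟨i1, hi1⟩ := hne hx'
  obtain ⟨j1, hj1⟩ := hne hy
  have ha : y ⬝ᵥ x' = 0 := by
    by_contra ha
    apply hprop
    have hb0 : (y' ⬝ᵥ x) * (x' i0 * y j0) ≠ 0 := by
      rw [← hc]
      exact mul_ne_zero ha (mul_ne_zero hi0 hj0)
    have hb : y' ⬝ᵥ x ≠ 0 := left_ne_zero_of_mul hb0
    have hxi : x' i0 ≠ 0 := left_ne_zero_of_mul (right_ne_zero_of_mul hb0)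
    have hyj : y j0 ≠ 0 := right_ne_zero_of_mul (right_ne_zero_of_mul hb0)
    refine ⟨((y ⬝ᵥ x') * y' j0 / ((y' ⬝ᵥ x) * y j0)) *
      ((y' ⬝ᵥ x) * x' i0 / ((y ⬝ᵥ x') * x i0)), ?_⟩
    ext i j
    simp only [Matrix.vecMulVec_apply, Matrix.smul_apply, smul_eq_mul]
    have e1 : x' i = (y ⬝ᵥ x') * y' j0 / ((y' ⬝ᵥ x) * y j0) * x i := by
      have h1 := hc i j0
      field_simp
      linear_combination -h1
    have e2 : y' j = (y' ⬝ᵥ x) * x' i0 / ((y ⬝ᵥ x') * x i0) * y j := by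
      have h1 := hc i0 j
      field_simp
      linear_combination h1
    rw [e1, e2]
    ring
  have hb : y' ⬝ᵥ x = 0 := by
    have h1 := hc i1 j1
    rw [ha, zero_mul] at h1
    exact (mul_eq_zero.1 h1.symm).resolve_right (mul_ne_zero hi1 hj1)
  by_cases hcx : cr x x' = 0
  · -- the same image
    have hpar : ∀ i j, x i * x' j = x j * x' i := by
      have c0 := congrFun hcx 0
      have c1 := congrFun hcx 1
      have c2 := congrFun hcx 2
      simp [cr] at c0 c1 c2
      intro i j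
      fin_cases i <;> fin_cases j <;> simp <;> first | linear_combination c0 | linear_combination c1 | linear_combination c2 | linear_combination -c0 | linear_combination -c1 | linear_combination -c2
    have e : x' = (x' i0 / x i0) • x := by
      funext j
      have h1 := hpar i0 j
      simp only [Pi.smul_apply, smul_eq_mul]
      field_simp
      linear_combination h1
    have ht : x' i0 / x i0 ≠ 0 := by
      intro h0
      rw [h0, zero_smul] at e
      exact hx' e
    have h1 := h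
    rw [e, Matrix.smul_vecMulVec, ← Matrix.vecMulVec_smul] at h1
    refine hB.imageA' (y' := (x' i0 / x i0) • y') ?_ ?_ ?_ hx h1
    · intro h0
      apply hprop
      -- `y'` is proportional to `y`
      have hpar2 : ∀ i j, y i * y' j = y j * y' i := by
        have c0 := congrFun h0 0
        have c1 := congrFun h0 1
        have c2 := congrFun h0 2
        simp [cr] at c0 c1 c2
        have d0 : y 1 * y' 2 = y 2 * y' 1 := mul_left_cancel₀ ht (by linear_combination c0)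
        have d1 : y 2 * y' 0 = y 0 * y' 2 := mul_left_cancel₀ ht (by linear_combination c1)
        have d2 : y 0 * y' 1 = y 1 * y' 0 := mul_left_cancel₀ ht (by linear_combination c2)
        intro i j
        fin_cases i <;> fin_cases j <;> simp <;> first | linear_combination d0 | linear_combination d1 | linear_combination d2 | linear_combination -d0 | linear_combination -d1 | linear_combination -d2
      refine ⟨(x' i0 / x i0) * (y' j1 / y j1), ?_⟩
      ext i j
      simp only [Matrix.vecMulVec_apply, Matrix.smul_apply, smul_eq_mul]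
      have e3 := congrFun e i
      simp only [Pi.smul_apply, smul_eq_mul] at e3
      have h2 := hpar2 j1 j
      rw [e3]
      have e4 : y' j = y' j1 / y j1 * y j := by
        field_simp
        linear_combination h2
      rw [e4]
      ring
    · have : y ⬝ᵥ x' = (x' i0 / x i0) * (y ⬝ᵥ x) := by
        conv_lhs => rw [e]
        rw [dotProduct_smul, smul_eq_mul]
      rw [ha] at this
      exact (mul_eq_zero.1 this.symm).resolve_left ht
    · rw [smul_dotProduct, hb, smul_zero]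
  · -- different images: the functionals are proportional
    have hD : ∀ (v : Fin 3 → k) (c : k), D3 v ((vecMulVec x y + c • vecMulVec x' y') *ᵥ v)
        ((vecMulVec x y + c • vecMulVec x' y') *ᵥ
          ((vecMulVec x y + c • vecMulVec x' y') *ᵥ v)) =
        c * (y ⬝ᵥ v) * (y' ⬝ᵥ v) * (c * (y' ⬝ᵥ x') - y ⬝ᵥ x) * (cr x x' ⬝ᵥ v) := by
      intro v c
      have e1 : ∀ w : Fin 3 → k, (vecMulVec x y + c • vecMulVec x' y') *ᵥ w =
          (y ⬝ᵥ w) • x + (c * (y' ⬝ᵥ w)) • x' := by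
        intro w
        rw [Matrix.add_mulVec, Matrix.smul_mulVec, Matrix.vecMulVec_mulVec,
          Matrix.vecMulVec_mulVec]
        ext i
        simp
        ring
      rw [e1, e1, dotProduct_add, dotProduct_add, dotProduct_smul, dotProduct_smul,
        dotProduct_smul, dotProduct_smul, ha, hb]
      have e2 : cr x x' ⬝ᵥ v = D3 v x x' := by rw [D3_cr, dotProduct_comm]
      rw [e2]
      simp only [D3, Pi.add_apply, Pi.smul_apply, smul_eq_mul]
      ring
    have hN : ∀ c : k, c ≠ 0 → c * (y' ⬝ᵥ x') - y ⬝ᵥ x = 0 := by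
      intro c hc0
      by_contra hne0
      obtain ⟨v, hv1, hv2, hv3⟩ := nz3 hy hy' hcx
      have h1 := hB.lin 1 c 0 1 0 0 (by simp) ι _ Q _ Q' h
      rw [one_smul, zero_smul, add_zero] at h1
      refine hB.cyc _ _ _ _ _ v ?_ h1
      unfold Cyc
      rw [hD]
      exact mul_ne_zero (mul_ne_zero (mul_ne_zero (mul_ne_zero hc0 hv1) hv2) hne0) hv3
    have h1 := hN 1 one_ne_zero
    have h2 := hN 2 two_ne_zero
    have hq : y' ⬝ᵥ x' = 0 := by linear_combination h2 - h1
    have hp : y ⬝ᵥ x = 0 := by linear_combination h2 - 2 * h1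
    -- both functionals are multiples of the cross product
    have hyc : ∀ w : Fin 3 → k, w ⬝ᵥ x = 0 → w ⬝ᵥ x' = 0 → ∀ i j,
        w i * cr x x' j = w j * cr x x' i := by
      intro w w1 w2
      simp only [dotProduct, Fin.sum_univ_three] at w1 w2
      have k0 : w 0 * cr x x' 1 = w 1 * cr x x' 0 := by
        simp only [cr, Matrix.cons_val_zero, Matrix.cons_val_one]
        linear_combination x 2 * w2 - x' 2 * w1
      have k1 : w 1 * cr x x' 2 = w 2 * cr x x' 1 := by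
        simp only [cr, Matrix.cons_val_one, Matrix.cons_val]
        linear_combination x 0 * w2 - x' 0 * w1
      have k2 : w 2 * cr x x' 0 = w 0 * cr x x' 2 := by
        simp only [cr, Matrix.cons_val_zero, Matrix.cons_val]
        linear_combination x 1 * w2 - x' 1 * w1
      intro i j
      fin_cases i <;> fin_cases j
      exacts [rfl, k0, k2.symm, k0.symm, rfl, k1, k2, k1.symm, rfl]
    obtain ⟨l, hl⟩ := hne hcx
    have ey : ∀ w : Fin 3 → k, w ⬝ᵥ x = 0 → w ⬝ᵥ x' = 0 →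
        w = (w l / cr x x' l) • cr x x' := by
      intro w w1 w2
      funext j
      have h3 := hyc w w1 w2 j l
      simp only [Pi.smul_apply, smul_eq_mul]
      field_simp
      linear_combination h3
    have hyl : y l ≠ 0 := by
      intro h0
      have h3 := ey y hp ha
      rw [h0, zero_div, zero_smul] at h3
      exact hy h3
    have e4 : y' = (y' l / y l) • y := by
      have h3 := ey y hp ha
      have h4 := ey y' hb hq
      rw [h3, smul_smul]
      nth_rewrite 1 [h4]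
      congr 1
      simp only [Pi.smul_apply, smul_eq_mul]
      field_simp
    have ht : y' l / y l ≠ 0 := by
      intro h0
      rw [h0, zero_smul] at e4
      exact hy' e4
    have h3 := h
    rw [e4, Matrix.vecMulVec_smul, ← Matrix.smul_vecMulVec] at h3
    refine hB.imageB' (x' := (y' l / y l) • x') ?_ hp ?_ hy h3
    · intro h0
      apply hcx
      have e5 : cr x ((y' l / y l) • x') = (y' l / y l) • cr x x' := by
        funext i
        fin_cases i <;> simp [cr] <;> ring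
      rw [e5] at h0
      exact (smul_eq_zero.1 h0).resolve_left ht
    · rw [dotProduct_smul, ha, smul_zero]

end JetsAux

open JetsAux in
/-- **reduction to a matrix with a cyclic vector** -/
theorem jets {k : Type*} [Field k] [CharZero k] [IsAlgClosed k] {m : Type*} [Fintype m]
    {B : Matrix (Fin 3) m k → Matrix (Fin 3) (Fin 3) k → Matrix (Fin 3) (Fin 3) k →
      Matrix (Fin 3) (Fin 3) k → Matrix (Fin 3) (Fin 3) k → Prop} (hB : JB B)
    {ι : Matrix (Fin 3) m k} {P Q P' Q' : Matrix (Fin 3) (Fin 3) k} (h : B ι P Q P' Q') :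
    False := by
  rcases cyc_or P with ⟨v, hv⟩ | ⟨l, x, y, hP⟩
  · exact hB.cyc _ _ _ _ _ v hv h
  rcases cyc_or P' with ⟨v, hv⟩ | ⟨l', x', y', hP'⟩
  · exact hB.cyc _ _ _ _ _ v hv (hB.swap h)
  have h1 := hB.lin 1 0 0 1 (-l) (-l') (by simp) ι P Q P' Q' h
  have e1 : (1 : k) • P + (0 : k) • P' + -l • (1 : Matrix (Fin 3) (Fin 3) k) =
      vecMulVec x y := by
    rw [hP]
    module
  have e2 : (0 : k) • P + (1 : k) • P' + -l' • (1 : Matrix (Fin 3) (Fin 3) k) =
      vecMulVec x' y' := by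
    rw [hP']
    module
  rw [e1, e2] at h1
  exact hB.rank1 h1

end Pool.Agent.Lib.D13
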