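import Pool.Agent.Lib.D13.Jets

/-!
# MP_5dcbc3_ag: pairs of commuting 3 x 3 matrices and their first jets, second version

`jets2`: a property `B P Q P' Q'` with `P P' = P' P` which is stable under conjugation, linear
changes, and linear families with constant `Q P' + P Q' - Q' P - P' Q` and a generic parameter, and
which never holds if `P` has a cyclic vector, never holds.
-/

set_option autoImplicit false

namespace Pool.Agent.Lib.D13

open Matrix Pool.Agent.Lib.D9.T333Aux JetsAux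

variable {k : Type*} [Field k]

/-- the first order commutator of `P + ε Q` and `P' + ε Q'` -/
def Sg (P Q P' Q' : Matrix (Fin 3) (Fin 3) k) : Matrix (Fin 3) (Fin 3) k :=
  Q * P' + P * Q' - (Q' * P + P' * Q)

/-- the hypotheses of `jets2` -/
structure JC (B : Matrix (Fin 3) (Fin 3) k → Matrix (Fin 3) (Fin 3) k →
    Matrix (Fin 3) (Fin 3) k → Matrix (Fin 3) (Fin 3) k → Prop) : Prop where
  comm : ∀ P Q P' Q', B P Q P' Q' → P * P' = P' * P
  conj : ∀ g g' : Matrix (Fin 3) (Fin 3) k, g * g' = 1 → ∀ P Q P' Q', B P Q P' Q' →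
    B (g * P * g') (g * Q * g') (g * P' * g') (g * Q' * g')
  lin : ∀ a b c d x z : k, a * d - b * c ≠ 0 → ∀ P Q P' Q', B P Q P' Q' →
    B (a • P + b • P' + x • 1) (a • Q + b • Q') (c • P + d • P' + z • 1) (c • Q + d • Q')
  line : ∀ P Q P' Q', B P Q P' Q' → ∀ P1 Q1 P1' Q1' : Matrix (Fin 3) (Fin 3) k,
    (∀ s : k, (P + s • P1) * (P' + s • P1') = (P' + s • P1') * (P + s • P1)) →
    (∀ s : k, Sg (P + s • P1) (Q + s • Q1) (P' + s • P1') (Q' + s • Q1') = Sg P Q P' Q') →
    ∀ F : Set k, F.Finite →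
    ∃ s, s ∉ F ∧ B (P + s • P1) (Q + s • Q1) (P' + s • P1') (Q' + s • Q1')
  cyc : ∀ P Q P' Q' v, Cyc P v → B P Q P' Q' → False

variable {B : Matrix (Fin 3) (Fin 3) k → Matrix (Fin 3) (Fin 3) k →
    Matrix (Fin 3) (Fin 3) k → Matrix (Fin 3) (Fin 3) k → Prop}

namespace Jets2Aux

theorem _root_.Pool.Agent.Lib.D13.JC.swap (hB : JC B) {P Q P' Q' : Matrix (Fin 3) (Fin 3) k}
    (h : B P Q P' Q') : B P' Q' P Q := by
  have h1 := hB.lin 0 1 1 0 0 0 (by simp) P Q P' Q' h
  simpa using h1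

/-- the second matrix is zero -/
theorem _root_.Pool.Agent.Lib.D13.JC.zero [CharZero k] [IsAlgClosed k] (hB : JC B)
    {P Q Q' : Matrix (Fin 3) (Fin 3) k} (h : B P Q 0 Q') : False := by
  obtain ⟨R, v, hR, hv⟩ := good_all P
  obtain ⟨s, hs, h1⟩ := hB.line P Q 0 Q' h 0 0 0 R (fun s => by simp) (fun s => by
    simp only [Sg, smul_zero, add_zero, mul_zero, zero_mul, zero_add]
    rw [mul_add, add_mul, mul_smul_comm, smul_mul_assoc, hR]
    abel) _ (finite_cyc (X := Q') hv)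
  simp only [smul_zero, add_zero] at h1
  have hs' : Cyc (Q' + s • R) v := not_not.1 hs
  obtain ⟨t, ht, h2⟩ := hB.line P Q 0 (Q' + s • R) h1 (Q' + s • R) 0 0 0 (fun s => by simp)
    (fun t => by
      simp only [Sg, smul_zero, add_zero, mul_zero, zero_mul, zero_add]
      rw [add_mul P, mul_add (Q' + s • R), mul_smul_comm, smul_mul_assoc]
      abel) _ (finite_cyc (X := P) hs')
  exact hB.cyc _ _ _ _ v (not_not.1 ht) h2

/-- the case `P = e₀ ⊗ e₁`, `P' = e₀ ⊗ e₂` -/
theorem _root_.Pool.Agent.Lib.D13.JC.typeA [Infinite k] (hB : JC B)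
    {Q Q' : Matrix (Fin 3) (Fin 3) k} (h20 : Q' 2 0 = 0)
    (h : B !![0, 1, 0; 0, 0, 0; 0, 0, 0] Q !![0, 0, 1; 0, 0, 0; 0, 0, 0] Q') : False := by
  obtain ⟨s, hs, h1⟩ := hB.line _ Q _ Q' h !![0, 0, 0; 0, 0, 1; 0, 0, 0]
    !![Q' 0 1, 0, 0; Q' 1 1 - Q' 2 2, 0, 0; Q' 2 1, 0, 0] 0 !![0, 0, 0; Q' 2 1, 0, 0; 0, 0, 0]
    (fun s => by
      ext i j
      fin_cases i <;> fin_cases j <;> simp [Matrix.mul_apply, Fin.sum_univ_three])
    (fun s => by
      unfold Sg
      rw [Matrix.eta_fin_three Q, Matrix.eta_fin_three Q']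
      ext i j
      fin_cases i <;> fin_cases j <;> simp [Matrix.mul_apply, Fin.sum_univ_three, h20] <;>
        try ring)
    {0} (Set.finite_singleton 0)
  refine hB.cyc _ _ _ _ ![0, 0, 1] ?_ h1
  have hs' : s ≠ 0 := hs
  simp [Cyc, D3, Matrix.mulVec, dotProduct, Fin.sum_univ_three, hs']

/-- the case `P = e₁ ⊗ e₀`, `P' = e₂ ⊗ e₀` -/
theorem _root_.Pool.Agent.Lib.D13.JC.typeB [Infinite k] (hB : JC B)
    {Q Q' : Matrix (Fin 3) (Fin 3) k} (h02 : Q' 0 2 = 0)
    (h : B !![0, 0, 0; 1, 0, 0; 0, 0, 0] Q !![0, 0, 0; 0, 0, 0; 1, 0, 0] Q') : False := by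
  obtain ⟨s, hs, h1⟩ := hB.line _ Q _ Q' h !![0, 0, 0; 0, 0, 0; 0, 1, 0]
    !![0, Q' 1 1 - Q' 2 2, Q' 1 2; 0, 0, 0; 0, 0, -Q' 1 0] 0 !![0, Q' 1 2, 0; 0, 0, 0; 0, 0, 0]
    (fun s => by
      ext i j
      fin_cases i <;> fin_cases j <;> simp [Matrix.mul_apply, Fin.sum_univ_three])
    (fun s => by
      unfold Sg
      rw [Matrix.eta_fin_three Q, Matrix.eta_fin_three Q']
      ext i j
      fin_cases i <;> fin_cases j <;> simp [Matrix.mul_apply, Fin.sum_univ_three, h02] <;>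
        try ring)
    {0} (Set.finite_singleton 0)
  refine hB.cyc _ _ _ _ ![1, 0, 0] ?_ h1
  have hs' : s ≠ 0 := hs
  simp [Cyc, D3, Matrix.mulVec, dotProduct, Fin.sum_univ_three, hs']

/-- two matrices of rank one with the same image -/
theorem _root_.Pool.Agent.Lib.D13.JC.imageA [Infinite k] (hB : JC B)
    {Q Q' : Matrix (Fin 3) (Fin 3) k} {x y y' : Fin 3 → k} (hc : cr y y' ≠ 0)
    (h1 : y ⬝ᵥ x = 0) (h2 : y' ⬝ᵥ x = 0) (hx : x ≠ 0) (h3 : y' ⬝ᵥ (Q' *ᵥ x) = 0)
    (h : B (vecMulVec x y) Q (vecMulVec x y') Q') : False := by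
  obtain ⟨g, g', hg, hgx, hy, hy'⟩ := exists_frame hc h1 h2 hx
  have hg' : g' * g = 1 := mul_eq_one_comm.1 hg
  have hb := hB.conj g g' hg _ Q _ Q' h
  have e : ∀ w : Fin 3 → k, g * vecMulVec x w * g' = vecMulVec ![1, 0, 0] (w ᵥ* g') := by
    intro w
    rw [Matrix.mul_vecMulVec, Matrix.vecMulVec_mul, hgx]
  rw [e, e, row_mul hg hy, row_mul hg hy'] at hb
  have e1 : vecMulVec ![1, 0, 0] (fun j => (1 : Matrix (Fin 3) (Fin 3) k) 1 j) =
      !![0, 1, 0; 0, 0, 0; 0, 0, 0] := by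
    ext i j
    fin_cases i <;> fin_cases j <;> simp [vecMulVec_apply]
  have e2 : vecMulVec ![1, 0, 0] (fun j => (1 : Matrix (Fin 3) (Fin 3) k) 2 j) =
      !![0, 0, 1; 0, 0, 0; 0, 0, 0] := by
    ext i j
    fin_cases i <;> fin_cases j <;> simp [vecMulVec_apply]
  rw [e1, e2] at hb
  refine hB.typeA ?_ hb
  have hx' : g' *ᵥ ![1, 0, 0] = x := by
    rw [← hgx, Matrix.mulVec_mulVec, hg', Matrix.one_mulVec]
  have e3 : (g * Q' * g') 2 0 = y' ⬝ᵥ (Q' *ᵥ (g' *ᵥ ![1, 0, 0])) := by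
    have : g' *ᵥ ![1, 0, 0] = fun i => g' i 0 := by
      funext i
      simp [Matrix.mulVec, dotProduct, Fin.sum_univ_three]
    rw [this, mul_assoc, Matrix.mul_apply]
    simp only [hy']
    rfl
  rw [e3, hx']
  exact h3

/-- two matrices of rank one with the same kernel -/
theorem _root_.Pool.Agent.Lib.D13.JC.imageB [Infinite k] (hB : JC B)
    {Q Q' : Matrix (Fin 3) (Fin 3) k} {x x' y : Fin 3 → k} (hc : cr x x' ≠ 0)
    (h1 : y ⬝ᵥ x = 0) (h2 : y ⬝ᵥ x' = 0) (hy : y ≠ 0) (h3 : y ⬝ᵥ (Q' *ᵥ x') = 0)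
    (h : B (vecMulVec x y) Q (vecMulVec x' y) Q') : False := by
  rw [dotProduct_comm] at h1 h2
  obtain ⟨g, g', hg, hgy, hx, hx'⟩ := exists_frame hc h1 h2 hy
  have hg' : g' * g = 1 := mul_eq_one_comm.1 hg
  -- transposes
  have hb := hB.conj g'ᵀ gᵀ (by rw [← Matrix.transpose_mul, hg, Matrix.transpose_one]) _ Q _ Q' h
  have ey : y ᵥ* gᵀ = ![1, 0, 0] := by rw [Matrix.vecMul_transpose, hgy]
  have ex : g'ᵀ *ᵥ x = fun j => (1 : Matrix (Fin 3) (Fin 3) k) 1 j := by
    rw [Matrix.mulVec_transpose, row_mul hg hx]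
  have ex' : g'ᵀ *ᵥ x' = fun j => (1 : Matrix (Fin 3) (Fin 3) k) 2 j := by
    rw [Matrix.mulVec_transpose, row_mul hg hx']
  have e : ∀ w : Fin 3 → k, g'ᵀ * vecMulVec w y * gᵀ = vecMulVec (g'ᵀ *ᵥ w) ![1, 0, 0] := by
    intro w
    rw [Matrix.mul_vecMulVec, Matrix.vecMulVec_mul, ey]
  rw [e, e, ex, ex'] at hb
  have e1 : vecMulVec (fun j => (1 : Matrix (Fin 3) (Fin 3) k) 1 j) ![1, 0, 0] =
      !![0, 0, 0; 1, 0, 0; 0, 0, 0] := by
    ext i j
    fin_cases i <;> fin_cases j <;> simp [vecMulVec_apply]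
  have e2 : vecMulVec (fun j => (1 : Matrix (Fin 3) (Fin 3) k) 2 j) ![1, 0, 0] =
      !![0, 0, 0; 0, 0, 0; 1, 0, 0] := by
    ext i j
    fin_cases i <;> fin_cases j <;> simp [vecMulVec_apply]
  rw [e1, e2] at hb
  refine hB.typeB ?_ hb
  have hy' : g' *ᵥ ![1, 0, 0] = y := by
    rw [← hgy, Matrix.mulVec_mulVec, hg', Matrix.one_mulVec]
  have e3 : (g'ᵀ * Q' * gᵀ) 0 2 = y ⬝ᵥ (Q' *ᵥ x') := by
    have e4 : ∀ i, g' i 0 = y i := by
      intro i
      rw [← hy']
      simp [Matrix.mulVec, dotProduct, Fin.sum_univ_three]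
    rw [mul_assoc, Matrix.mul_apply]
    simp only [Matrix.transpose_apply, e4, Matrix.mul_apply, hx']
    rfl
  rw [e3]
  exact h3

theorem _root_.Pool.Agent.Lib.D13.JC.imageA' [Infinite k] [IsAlgClosed k] (hB : JC B)
    {Q Q' : Matrix (Fin 3) (Fin 3) k} {x y y' : Fin 3 → k} (hc : cr y y' ≠ 0)
    (h1 : y ⬝ᵥ x = 0) (h2 : y' ⬝ᵥ x = 0) (hx : x ≠ 0)
    (h : B (vecMulVec x y) Q (vecMulVec x y') Q') : False := by
  by_cases h3 : y' ⬝ᵥ (Q' *ᵥ x) = 0
  · exact hB.imageA hc h1 h2 hx h3 h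
  obtain ⟨t, ht⟩ := exists_root2 (y ⬝ᵥ (Q *ᵥ x)) (y ⬝ᵥ (Q' *ᵥ x) + y' ⬝ᵥ (Q *ᵥ x)) _ h3
  have h4 := hB.lin 0 1 1 t 0 0 (by simp) _ Q _ Q' h
  rw [vmv_add_right, vmv_add_right] at h4
  simp only [zero_smul, one_smul, zero_add, add_zero] at h4
  refine hB.imageA (y := y') (y' := y + t • y') ?_ h2 ?_ hx ?_ h4
  · rw [cr_swap]
    exact neg_ne_zero.2 hc
  · rw [add_dotProduct, smul_dotProduct, h1, h2, smul_zero, add_zero]
  · rw [Matrix.add_mulVec, Matrix.smul_mulVec, add_dotProduct, dotProduct_add, dotProduct_add,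
      smul_dotProduct, smul_dotProduct, dotProduct_smul, dotProduct_smul]
    simp only [smul_eq_mul]
    linear_combination ht

theorem _root_.Pool.Agent.Lib.D13.JC.imageB' [Infinite k] [IsAlgClosed k] (hB : JC B)
    {Q Q' : Matrix (Fin 3) (Fin 3) k} {x x' y : Fin 3 → k} (hc : cr x x' ≠ 0)
    (h1 : y ⬝ᵥ x = 0) (h2 : y ⬝ᵥ x' = 0) (hy : y ≠ 0)
    (h : B (vecMulVec x y) Q (vecMulVec x' y) Q') : False := by
  by_cases h3 : y ⬝ᵥ (Q' *ᵥ x') = 0
  · exact hB.imageB hc h1 h2 hy h3 h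
  obtain ⟨t, ht⟩ := exists_root2 (y ⬝ᵥ (Q *ᵥ x)) (y ⬝ᵥ (Q' *ᵥ x) + y ⬝ᵥ (Q *ᵥ x')) _ h3
  have h4 := hB.lin 0 1 1 t 0 0 (by simp) _ Q _ Q' h
  rw [vmv_add_left, vmv_add_left] at h4
  simp only [zero_smul, one_smul, zero_add, add_zero] at h4
  refine hB.imageB (x := x') (x' := x + t • x') ?_ h2 ?_ hy ?_ h4
  · rw [cr_swap]
    exact neg_ne_zero.2 hc
  · rw [dotProduct_add, dotProduct_smul, h1, h2, smul_zero, add_zero]
  · rw [Matrix.add_mulVec, Matrix.smul_mulVec, Matrix.mulVec_add, Matrix.mulVec_add,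
      Matrix.mulVec_smul, Matrix.mulVec_smul, dotProduct_add, dotProduct_add, dotProduct_smul,
      dotProduct_smul, dotProduct_add, dotProduct_smul]
    simp only [smul_eq_mul]
    linear_combination ht

/-- two matrices of rank at most one -/
theorem _root_.Pool.Agent.Lib.D13.JC.rank1 [CharZero k] [IsAlgClosed k] (hB : JC B)
    {Q Q' : Matrix (Fin 3) (Fin 3) k} {x y x' y' : Fin 3 → k}
    (h : B (vecMulVec x y) Q (vecMulVec x' y') Q') : False := by
  have hinf : Infinite k := CharZero.infinite k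
  by_cases hP : vecMulVec x y = 0
  · rw [hP] at h
    exact hB.zero (hB.swap h)
  by_cases hP' : vecMulVec x' y' = 0
  · rw [hP'] at h
    exact hB.zero h
  have hx : x ≠ 0 := by
    rintro rfl
    exact hP (by ext i j; simp [vecMulVec_apply])
  have hy : y ≠ 0 := by
    rintro rfl
    exact hP (by ext i j; simp [vecMulVec_apply])
  have hx' : x' ≠ 0 := by
    rintro rfl
    exact hP' (by ext i j; simp [vecMulVec_apply])
  have hy' : y' ≠ 0 := by
    rintro rfl
    exact hP' (by ext i j; simp [vecMulVec_apply])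
  -- proportional matrices
  by_cases hprop : ∃ t : k, vecMulVec x' y' = t • vecMulVec x y
  · obtain ⟨t, ht⟩ := hprop
    have h1 := hB.lin 1 0 (-t) 1 0 0 (by simp) _ Q _ Q' h
    rw [ht] at h1
    have e : -t • vecMulVec x y + (1 : k) • t • vecMulVec x y + (0 : k) • (1 : Matrix _ _ k) =
        0 := by module
    rw [e] at h1
    exact hB.zero h1
  have hcomm := (hB.comm _ _ _ _ h)
  have hc : ∀ i j, (y ⬝ᵥ x') * (x i * y' j) = (y' ⬝ᵥ x) * (x' i * y j) := by
    intro i j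
    have h1 := congrFun (congrFun hcomm i) j
    rw [Matrix.vecMulVec_mul_vecMulVec, Matrix.vecMulVec_mul_vecMulVec] at h1
    simp only [Matrix.vecMulVec_apply, Matrix.smul_apply, Pi.smul_apply, smul_eq_mul] at h1
    linear_combination h1
  have hne : ∀ {a : Fin 3 → k}, a ≠ 0 → ∃ i, a i ≠ 0 := by
    intro a ha
    by_contra h0
    push Not at h0
    exact ha (funext h0)
  obtain ⟨i0, hi0⟩ := hne hx
  obtain ⟨j0, hj0⟩ := hne hy'
  obtain ⟨i1, hi1⟩ := hne hx'
  obtain ⟨j1, hj1⟩ := hne hy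
  have ha : y ⬝ᵥ x' = 0 := by
    by_contra ha
    apply hprop
    have hb0 : (y' ⬝ᵥ x) * (x' i0 * y j0) ≠ 0 := by
      rw [← hc]
      exact mul_ne_zero ha (mul_ne_zero hi0 hj0)
    have hb : y' ⬝ᵥ x ≠ 0 := left_ne_zero_of_mul hb0
    have hxi : x' i0 ≠ 0 := left_ne_zero_of_mul (right_ne_zero_of_mul hb0)
    have hyj : y j0 ≠ 0 := right_ne_zero_of_mul (right_ne_zero_of_mul hb0)
    refine ⟨((y ⬝ᵥ x') * y' j0 / ((y' ⬝ᵥ x) * y j0)) *
      ((y' ⬝ᵥ x) * x' i0 / ((y ⬝ᵥ x') * x i0)), ?_⟩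
    ext i j
    simp only [Matrix.vecMulVec_apply, Matrix.smul_apply, smul_eq_mul]
    have e1 : x' i = (y ⬝ᵥ x') * y' j0 / ((y' ⬝ᵥ x) * y j0) * x i := by
      have h1 := hc i j0
      field_simp
      linear_combination -h1
    have e2 : y' j = (y' ⬝ᵥ x) * x' i0 / ((y ⬝ᵥ x') * x i0) * y j := by
      have h1 := hc i0 j
      field_simp
      linear_combination h1
    rw [e1, e2]
    ring
  have hb : y' ⬝ᵥ x = 0 := by
    have h1 := hc i1 j1
    rw [ha, zero_mul] at h1
    exact (mul_eq_zero.1 h1.symm).resolve_right (mul_ne_zero hi1 hj1)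
  by_cases hcx : cr x x' = 0
  · -- the same image
    have hpar : ∀ i j, x i * x' j = x j * x' i := by
      have c0 := congrFun hcx 0
      have c1 := congrFun hcx 1
      have c2 := congrFun hcx 2
      simp [cr] at c0 c1 c2
      intro i j
      fin_cases i <;> fin_cases j <;> simp <;> first | linear_combination c0 | linear_combination c1 | linear_combination c2 | linear_combination -c0 | linear_combination -c1 | linear_combination -c2
    have e : x' = (x' i0 / x i0) • x := by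
      funext j
      have h1 := hpar i0 j
      simp only [Pi.smul_apply, smul_eq_mul]
      field_simp
      linear_combination h1
    have ht : x' i0 / x i0 ≠ 0 := by
      intro h0
      rw [h0, zero_smul] at e
      exact hx' e
    have h1 := h
    rw [e, Matrix.smul_vecMulVec, ← Matrix.vecMulVec_smul] at h1
    refine hB.imageA' (y' := (x' i0 / x i0) • y') ?_ ?_ ?_ hx h1
    · intro h0
      apply hprop
      -- `y'` is proportional to `y`
      have hpar2 : ∀ i j, y i * y' j = y j * y' i := by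
        have c0 := congrFun h0 0
        have c1 := congrFun h0 1
        have c2 := congrFun h0 2
        simp [cr] at c0 c1 c2
        have d0 : y 1 * y' 2 = y 2 * y' 1 := mul_left_cancel₀ ht (by linear_combination c0)
        have d1 : y 2 * y' 0 = y 0 * y' 2 := mul_left_cancel₀ ht (by linear_combination c1)
        have d2 : y 0 * y' 1 = y 1 * y' 0 := mul_left_cancel₀ ht (by linear_combination c2)
        intro i j
        fin_cases i <;> fin_cases j <;> simp <;> first | linear_combination d0 | linear_combination d1 | linear_combination d2 | linear_combination -d0 | linear_combination -d1 | linear_combination -d2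
      refine ⟨(x' i0 / x i0) * (y' j1 / y j1), ?_⟩
      ext i j
      simp only [Matrix.vecMulVec_apply, Matrix.smul_apply, smul_eq_mul]
      have e3 := congrFun e i
      simp only [Pi.smul_apply, smul_eq_mul] at e3
      have h2 := hpar2 j1 j
      rw [e3]
      have e4 : y' j = y' j1 / y j1 * y j := by
        field_simp
        linear_combination h2
      rw [e4]
      ring
    · have : y ⬝ᵥ x' = (x' i0 / x i0) * (y ⬝ᵥ x) := by
        conv_lhs => rw [e]
        rw [dotProduct_smul, smul_eq_mul]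
      rw [ha] at this
      exact (mul_eq_zero.1 this.symm).resolve_left ht
    · rw [smul_dotProduct, hb, smul_zero]
  · -- different images: the functionals are proportional
    have hD : ∀ (v : Fin 3 → k) (c : k), D3 v ((vecMulVec x y + c • vecMulVec x' y') *ᵥ v)
        ((vecMulVec x y + c • vecMulVec x' y') *ᵥ
          ((vecMulVec x y + c • vecMulVec x' y') *ᵥ v)) =
        c * (y ⬝ᵥ v) * (y' ⬝ᵥ v) * (c * (y' ⬝ᵥ x') - y ⬝ᵥ x) * (cr x x' ⬝ᵥ v) := by
      intro v c
      have e1 : ∀ w : Fin 3 → k, (vecMulVec x y + c • vecMulVec x' y') *ᵥ w =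
          (y ⬝ᵥ w) • x + (c * (y' ⬝ᵥ w)) • x' := by
        intro w
        rw [Matrix.add_mulVec, Matrix.smul_mulVec, Matrix.vecMulVec_mulVec,
          Matrix.vecMulVec_mulVec]
        ext i
        simp
        ring
      rw [e1, e1, dotProduct_add, dotProduct_add, dotProduct_smul, dotProduct_smul,
        dotProduct_smul, dotProduct_smul, ha, hb]
      have e2 : cr x x' ⬝ᵥ v = D3 v x x' := by rw [D3_cr, dotProduct_comm]
      rw [e2]
      simp only [D3, Pi.add_apply, Pi.smul_apply, smul_eq_mul]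
      ring
    have hN : ∀ c : k, c ≠ 0 → c * (y' ⬝ᵥ x') - y ⬝ᵥ x = 0 := by
      intro c hc0
      by_contra hne0
      obtain ⟨v, hv1, hv2, hv3⟩ := nz3 hy hy' hcx
      have h1 := hB.lin 1 c 0 1 0 0 (by simp) _ Q _ Q' h
      rw [one_smul, zero_smul, add_zero] at h1
      refine hB.cyc _ _ _ _ v ?_ h1
      unfold Cyc
      rw [hD]
      exact mul_ne_zero (mul_ne_zero (mul_ne_zero (mul_ne_zero hc0 hv1) hv2) hne0) hv3
    have h1 := hN 1 one_ne_zero
    have h2 := hN 2 two_ne_zero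
    have hq : y' ⬝ᵥ x' = 0 := by linear_combination h2 - h1
    have hp : y ⬝ᵥ x = 0 := by linear_combination h2 - 2 * h1
    -- both functionals are multiples of the cross product
    have hyc : ∀ w : Fin 3 → k, w ⬝ᵥ x = 0 → w ⬝ᵥ x' = 0 → ∀ i j,
        w i * cr x x' j = w j * cr x x' i := by
      intro w w1 w2
      simp only [dotProduct, Fin.sum_univ_three] at w1 w2
      have k0 : w 0 * cr x x' 1 = w 1 * cr x x' 0 := by
        simp only [cr, Matrix.cons_val_zero, Matrix.cons_val_one]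
        linear_combination x 2 * w2 - x' 2 * w1
      have k1 : w 1 * cr x x' 2 = w 2 * cr x x' 1 := by
        simp only [cr, Matrix.cons_val_one, Matrix.cons_val]
        linear_combination x 0 * w2 - x' 0 * w1
      have k2 : w 2 * cr x x' 0 = w 0 * cr x x' 2 := by
        simp only [cr, Matrix.cons_val_zero, Matrix.cons_val]
        linear_combination x 1 * w2 - x' 1 * w1
      intro i j
      fin_cases i <;> fin_cases j
      exacts [rfl, k0, k2.symm, k0.symm, rfl, k1, k2, k1.symm, rfl]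
    obtain ⟨l, hl⟩ := hne hcx
    have ey : ∀ w : Fin 3 → k, w ⬝ᵥ x = 0 → w ⬝ᵥ x' = 0 →
        w = (w l / cr x x' l) • cr x x' := by
      intro w w1 w2
      funext j
      have h3 := hyc w w1 w2 j l
      simp only [Pi.smul_apply, smul_eq_mul]
      field_simp
      linear_combination h3
    have hyl : y l ≠ 0 := by
      intro h0
      have h3 := ey y hp ha
      rw [h0, zero_div, zero_smul] at h3
      exact hy h3
    have e4 : y' = (y' l / y l) • y := by
      have h3 := ey y hp ha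
      have h4 := ey y' hb hq
      rw [h3, smul_smul]
      nth_rewrite 1 [h4]
      congr 1
      simp only [Pi.smul_apply, smul_eq_mul]
      field_simp
    have ht : y' l / y l ≠ 0 := by
      intro h0
      rw [h0, zero_smul] at e4
      exact hy' e4
    have h3 := h
    rw [e4, Matrix.vecMulVec_smul, ← Matrix.smul_vecMulVec] at h3
    refine hB.imageB' (x' := (y' l / y l) • x') ?_ hp ?_ hy h3
    · intro h0
      apply hcx
      have e5 : cr x ((y' l / y l) • x') = (y' l / y l) • cr x x' := by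
        funext i
        fin_cases i <;> simp [cr] <;> ring
      rw [e5] at h0
      exact (smul_eq_zero.1 h0).resolve_left ht
    · rw [dotProduct_smul, ha, smul_zero]

end Jets2Aux

/-- **reduction to a matrix with a cyclic vector**, second version -/
theorem jets2 {k : Type*} [Field k] [CharZero k] [IsAlgClosed k]
    {B : Matrix (Fin 3) (Fin 3) k → Matrix (Fin 3) (Fin 3) k → Matrix (Fin 3) (Fin 3) k →
      Matrix (Fin 3) (Fin 3) k → Prop} (hB : JC B) {P Q P' Q' : Matrix (Fin 3) (Fin 3) k}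
    (h : B P Q P' Q') : False := by
  rcases cyc_or P with ⟨v, hv⟩ | ⟨l, x, y, hP⟩
  · exact hB.cyc _ _ _ _ v hv h
  rcases cyc_or P' with ⟨v, hv⟩ | ⟨l', x', y', hP'⟩
  · exact hB.cyc _ _ _ _ v hv (hB.swap h)
  have h1 := hB.lin 1 0 0 1 (-l) (-l') (by simp) P Q P' Q' h
  have e1 : (1 : k) • P + (0 : k) • P' + -l • (1 : Matrix (Fin 3) (Fin 3) k) =
      vecMulVec x y := by
    rw [hP]
    module
  have e2 : (0 : k) • P + (1 : k) • P' + -l' • (1 : Matrix (Fin 3) (Fin 3) k) =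
      vecMulVec x' y' := by
    rw [hP']
    module
  rw [e1, e2] at h1
  exact hB.rank1 h1

end Pool.Agent.Lib.D13
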