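import Pool.Agent.Lib.D13.S4321

/-!
# MP_5dcbc3_ag: type `(4, 3, 2, 1)`: the raise F1

The explicit polynomial family through the normal form F1: `A + (p ↦ s w0)`,
`B + (p ↦ s l)` with `l = z w0 + f u1 + d v2`, and the matrix `F1C` below.
-/

set_option autoImplicit false

namespace Pool.Agent.Lib.D13.T4321

open Matrix Pool.Agent.Lib.Q5dc

variable {k : Type*} [Field k]

/-- the matrix `B` of the normal form F1 -/
def F1P (z f₁ de₁ th eta zeta : k) : Par k :=
  { zero k with al0 := 1, e0 := 1, z := z, f1 := f₁, de1 := de₁, th := th, eta := eta, zeta := zeta }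

/-- the matrix `C` of the normal form F1 -/
def F1P' (th eta zeta th' eta' zeta' : k) : Par k :=
  { zero k with pi := 1, be2 := th, q2 := eta, e1 := zeta, th := th', eta := eta', zeta := zeta' }

/-- a matrix which is strictly lower triangular for a weight is nilpotent -/
theorem h52_nil {n : ℕ} {M : Matrix (Fin n) (Fin n) k} (wt : Fin n → ℕ)
    (h : ∀ i j, wt i ≤ wt j → M i j = 0) : IsNilpotent M := by
  have key : ∀ (l : ℕ) (i j : Fin n), wt i < wt j + l → (M ^ l) i j = 0 := by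
    intro l
    induction l with
    | zero =>
      intro i j hij
      rw [pow_zero, Matrix.one_apply_ne]
      intro e
      rw [e] at hij
      omega
    | succ l ih =>
      intro i j hij
      rw [pow_succ, Matrix.mul_apply]
      refine Finset.sum_eq_zero fun x _ => ?_
      by_cases hx : wt x ≤ wt j
      · rw [h x j hx, mul_zero]
      · rw [ih i x (by omega), zero_mul]
  refine ⟨(∑ i, wt i) + 1, ?_⟩
  ext i j
  refine key _ i j ?_
  have : wt i ≤ ∑ i, wt i := Finset.single_le_sum (f := wt) (fun _ _ => Nat.zero_le _)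
    (Finset.mem_univ i)
  omega

/-- the first matrix of the family -/
def F1A (s : k) : Matrix (Fin 10) (Fin 10) k :=
  !![0, 0, 0, 0, 0, 0, 0, 0, 0, 0;
     0, 0, 0, 0, 0, 0, 0, 0, 0, 0;
     0, 0, 0, 0, 0, s, 0, 0, 0, 0;
     1, 0, 0, 0, 0, 0, 0, 0, 0, 0;
     0, 1, 0, 0, 0, 0, 0, 0, 0, 0;
     0, 0, 0, 0, 0, 0, 0, 0, 0, 0;
     0, 0, 1, 0, 0, 0, 0, 0, 0, 0;
     0, 0, 0, 1, 0, 0, 0, 0, 0, 0;
     0, 0, 0, 0, 1, 0, 0, 0, 0, 0;
     0, 0, 0, 0, 0, 0, 0, 1, 0, 0]

/-- the second matrix of the family -/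
def F1B (z f d th eta zeta s : k) : Matrix (Fin 10) (Fin 10) k :=
  !![0, 0, 0, 0, 0, 0, 0, 0, 0, 0;
     1, 0, 0, 0, 0, 0, 0, 0, 0, 0;
     0, 1, 0, 0, 0, s * z, 0, 0, 0, 0;
     0, 0, 0, 0, 0, 0, 0, 0, 0, 0;
     0, 0, 0, 1, 0, s * f, 0, 0, 0, 0;
     0, 0, 0, 0, 0, 0, 0, 0, 0, 0;
     0, 0, z, 0, 1, zeta, 0, 0, 0, 0;
     0, 0, 0, 0, 0, s * d, 0, 0, 0, 0;
     0, 0, f, 0, 0, eta, 0, 1, 0, 0;
     0, 0, d, 0, 0, th, 0, 0, 0, 0]

/-- the third matrix of the family -/
def F1C (z f d th eta zeta th' eta' zeta' s : k) : Matrix (Fin 10) (Fin 10) k :=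
  !![0, 0, 0, 0, 0, 0, 0, 0, 0, 0;
     0, 0, 0, 0, 0, 0, 0, 0, 0, 0;
     0, s * z, 0, s, 0, s ^ 2 * (z ^ 2 + f), 0, 0, 0, 0;
     0, 0, 0, 0, 0, 0, 0, 0, 0, 0;
     0, s * f, 0, 0, 0, s ^ 2 * (z * f + d), 0, 0, 0, 0;
     1, 0, 0, 0, 0, 0, 0, 0, 0, 0;
     0, zeta, s * (z ^ 2 + f), 0, s * z, zeta', 0, s, 0, 0;
     0, s * d, 0, 0, 0, s ^ 2 * (z * d), 0, 0, 0, 0;
     0, eta, s * (z * f + d), 0, s * f, eta', 0, 0, 0, 0;
     0, th, s * (z * d), 0, s * d, th', 0, 0, 0, 0]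

/-- `F1A` on vectors -/
def F1actA (s : k) (m : Fin 10 → k) : Fin 10 → k :=
  ![0, 0, s * m 5, m 0, m 1, 0, m 2, m 3, m 4, m 7]

/-- `F1B` on vectors -/
def F1actB (z f d th eta zeta s : k) (m : Fin 10 → k) : Fin 10 → k :=
  ![0, m 0, m 1 + s * z * m 5, 0, m 3 + s * f * m 5, 0, z * m 2 + m 4 + zeta * m 5, s * d * m 5,
    f * m 2 + eta * m 5 + m 7, d * m 2 + th * m 5]

/-- `F1C` on vectors -/
def F1actC (z f d th eta zeta th' eta' zeta' s : k) (m : Fin 10 → k) : Fin 10 → k :=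
  ![0, 0, s * z * m 1 + s * m 3 + s ^ 2 * (z ^ 2 + f) * m 5, 0,
    s * f * m 1 + s ^ 2 * (z * f + d) * m 5, m 0,
    zeta * m 1 + s * (z ^ 2 + f) * m 2 + s * z * m 4 + zeta' * m 5 + s * m 7,
    s * d * m 1 + s ^ 2 * (z * d) * m 5,
    eta * m 1 + s * (z * f + d) * m 2 + s * f * m 4 + eta' * m 5,
    th * m 1 + s * (z * d) * m 2 + s * d * m 4 + th' * m 5]

variable {z f d th eta zeta th' eta' zeta' s : k}

theorem F1A_mulVec (m : Fin 10 → k) : F1A s *ᵥ m = F1actA s m := by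
  funext i
  fin_cases i <;> simp [F1A, F1actA, Matrix.mulVec, dotProduct, Fin.sum_univ_succ]

theorem F1B_mulVec (m : Fin 10 → k) :
    F1B z f d th eta zeta s *ᵥ m = F1actB z f d th eta zeta s m := by
  funext i
  fin_cases i <;> simp [F1B, F1actB, Matrix.mulVec, dotProduct, Fin.sum_univ_succ] <;> ring

theorem F1C_mulVec (m : Fin 10 → k) :
    F1C z f d th eta zeta th' eta' zeta' s *ᵥ m = F1actC z f d th eta zeta th' eta' zeta' s m := by
  funext i
  fin_cases i <;> simp [F1C, F1actC, Matrix.mulVec, dotProduct, Fin.sum_univ_succ] <;> ring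

theorem F1_AB : F1A s * F1B z f d th eta zeta s = F1B z f d th eta zeta s * F1A s := by
  refine ext_mulVec fun m => ?_
  rw [← mulVec_mulVec, ← mulVec_mulVec, F1A_mulVec, F1A_mulVec, F1B_mulVec, F1B_mulVec]
  funext i
  fin_cases i <;> simp [F1actA, F1actB] <;> ring

theorem F1_AC : F1A s * F1C z f d th eta zeta th' eta' zeta' s =
    F1C z f d th eta zeta th' eta' zeta' s * F1A s := by
  refine ext_mulVec fun m => ?_
  rw [← mulVec_mulVec, ← mulVec_mulVec, F1A_mulVec, F1A_mulVec, F1C_mulVec, F1C_mulVec]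
  funext i
  fin_cases i <;> simp [F1actA, F1actC] <;> ring

theorem F1_BC : F1B z f d th eta zeta s * F1C z f d th eta zeta th' eta' zeta' s =
    F1C z f d th eta zeta th' eta' zeta' s * F1B z f d th eta zeta s := by
  refine ext_mulVec fun m => ?_
  rw [← mulVec_mulVec, ← mulVec_mulVec, F1B_mulVec, F1B_mulVec, F1C_mulVec, F1C_mulVec]
  funext i
  fin_cases i <;> simp [F1actB, F1actC] <;> ring

/-- the weight -/
def F1w : Fin 10 → ℕ := ![0, 1, 3, 1, 3, 2, 4, 3, 4, 5]

theorem F1A_nil : IsNilpotent (F1A s) := by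
  refine h52_nil F1w fun i j hij => ?_
  fin_cases i <;> fin_cases j <;> first | rfl | (exfalso; revert hij; decide)

theorem F1B_nil : IsNilpotent (F1B z f d th eta zeta s) := by
  refine h52_nil F1w fun i j hij => ?_
  fin_cases i <;> fin_cases j <;> first | rfl | (exfalso; revert hij; decide)

theorem F1C_nil : IsNilpotent (F1C z f d th eta zeta th' eta' zeta' s) := by
  refine h52_nil F1w fun i j hij => ?_
  fin_cases i <;> fin_cases j <;> first | rfl | (exfalso; revert hij; decide)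

theorem F1A_zero : F1A (0 : k) = J k := rfl

theorem F1B_zero : F1B z f d th eta zeta 0 = X (F1P z f d th eta zeta) := by
  refine ext_mulVec fun m => ?_
  rw [F1B_mulVec, X_mulVec]
  funext i
  fin_cases i <;> simp [F1actB, act, F1P, zero]

theorem F1C_zero : F1C z f d th eta zeta th' eta' zeta' 0 =
    X (F1P' th eta zeta th' eta' zeta') := by
  refine ext_mulVec fun m => ?_
  rw [F1C_mulVec, X_mulVec]
  funext i
  fin_cases i <;> simp [F1actC, act, F1P', zero]

/-- the rank of `J` is at most six -/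
theorem F1_rank_J_le : (J k).rank ≤ 6 := by
  have h : J k = (Matrix.of fun (i : Fin 10) (j : Fin 6) =>
      (if i = ![3, 4, 6, 7, 8, 9] j then (1 : k) else 0)) *
      (Matrix.of fun (j : Fin 6) (i : Fin 10) =>
      (if i = ![0, 1, 2, 3, 4, 7] j then (1 : k) else 0)) := by
    refine ext_mulVec fun m => ?_
    rw [← mulVec_mulVec, J_mulVec]
    funext i
    fin_cases i <;> simp [actJ, Matrix.mulVec, dotProduct, Fin.sum_univ_succ]
  rw [h]
  refine (Matrix.rank_mul_le_left _ _).trans ?_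
  simpa using Matrix.rank_le_card_width (Matrix.of fun (i : Fin 10) (j : Fin 6) =>
      (if i = ![3, 4, 6, 7, 8, 9] j then (1 : k) else 0))

/-- the rank of the first matrix of the family is seven -/
theorem F1A_rank (hs : s ≠ 0) : 7 ≤ (F1A s).rank := by
  have h : (Matrix.of fun (j : Fin 7) (i : Fin 10) =>
      (if i = ![3, 4, 6, 7, 8, 9, 2] j then (![1, 1, 1, 1, 1, 1, s⁻¹] j : k) else 0)) * (F1A s *
      (Matrix.of fun (i : Fin 10) (j : Fin 7) =>
      (if i = ![0, 1, 2, 3, 4, 7, 5] j then (1 : k) else 0))) = 1 := by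
    refine ext_mulVec fun m => ?_
    rw [← mulVec_mulVec, ← mulVec_mulVec, F1A_mulVec, one_mulVec]
    funext i
    fin_cases i <;> simp [F1actA, Matrix.mulVec, dotProduct, Fin.sum_univ_succ, hs]
  have h1 := Matrix.rank_mul_le_right (Matrix.of fun (j : Fin 7) (i : Fin 10) =>
      (if i = ![3, 4, 6, 7, 8, 9, 2] j then (![1, 1, 1, 1, 1, 1, s⁻¹] j : k) else 0)) (F1A s *
      (Matrix.of fun (i : Fin 10) (j : Fin 7) =>
      (if i = ![0, 1, 2, 3, 4, 7, 5] j then (1 : k) else 0)))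
  rw [h, Matrix.rank_one] at h1
  exact h1.trans (Matrix.rank_mul_le_left _ _)

theorem no_F1 [IsAlgClosed k] [CharZero k] (z f₁ de₁ th eta zeta th' eta' zeta' : k)
    (h : MR (F1P z f₁ de₁ th eta zeta) (F1P' th eta zeta th' eta' zeta')) : False := by
  have : Infinite k := IsAlgClosed.instInfinite
  have h0 : D7.IsPoly fun _ : k => (0 : k) := ⟨0, by simp⟩
  have h1 : ∀ a : k, D7.IsPoly fun _ : k => a := fun a => ⟨Polynomial.C a, by simp⟩
  have h2 : D7.IsPoly fun s : k => s := ⟨Polynomial.X, by simp⟩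
  have h3 : ∀ a : k, D7.IsPoly fun s : k => s * a :=
    fun a => ⟨Polynomial.X * Polynomial.C a, fun s => by
      rw [Polynomial.eval_mul, Polynomial.eval_X, Polynomial.eval_C]⟩
  have h4 : ∀ a : k, D7.IsPoly fun s : k => s ^ 2 * a :=
    fun a => ⟨Polynomial.X ^ 2 * Polynomial.C a, fun s => by
      rw [Polynomial.eval_mul, Polynomial.eval_pow, Polynomial.eval_X, Polynomial.eval_C]⟩
  refine D7.MaxR.raise h (fun s => ![F1A s, F1B z f₁ de₁ th eta zeta s,
    F1C z f₁ de₁ th eta zeta th' eta' zeta' s]) ?_ ?_ Set.finite_empty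
    (fun s _ => D8.cn3 F1_AB F1_AC F1_BC F1A_nil F1B_nil F1C_nil) 1 F1A
    (fun s => D8.mem0 _ _ _) ?_
  · intro i a b
    fin_cases i
    · fin_cases a <;> fin_cases b <;> first | exact h0 | exact h1 1 | exact h2
    · fin_cases a <;> fin_cases b <;> first | exact h0 | exact h1 _ | exact h3 _
    · fin_cases a <;> fin_cases b <;> first | exact h0 | exact h1 _ | exact h2 | exact h3 _ |
        exact h4 _
  · show ![F1A 0, F1B z f₁ de₁ th eta zeta 0, F1C z f₁ de₁ th eta zeta th' eta' zeta' 0] = _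
    rw [F1A_zero, F1B_zero, F1C_zero]
  · refine (Set.finite_singleton (0 : k)).infinite_compl.mono fun s hs => ?_
    have hs' : s ≠ 0 := hs
    have a := F1A_rank hs'
    have b := F1_rank_J_le (k := k)
    show (J k ^ 1).rank < (F1A s ^ 1).rank
    rw [pow_one, pow_one]
    omega

end Pool.Agent.Lib.D13.T4321
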