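import Pool.Agent.Lib.D13.U4321
import Pool.Agent.Lib.D13.D4321

/-!
# MP_5dcbc3_ag: type `(4, 3, 2, 1)`: the dichotomy
-/

set_option autoImplicit false

namespace Pool.Agent.Lib.D13.T4321

open Matrix Pool.Agent.Lib.Q5dc

variable {k : Type*} [Field k] [IsAlgClosed k] [CharZero k] {P P' : Par k}

namespace Dich

/-- the shape of nilpotent matrices commuting with `J`, for the matrices of a maximal bad triple -/
theorem int_MR (H : ∀ Q Q' : Par k, MR Q Q' → Q.al0 = 0 ∧ Q.be0 = 0)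
    (T : Fin 3 → Matrix (Fin 10) (Fin 10) k) (hT : D7.MaxR (fun i => (J k ^ i).rank) T)
    (h : ∀ i, (T 0 ^ i).rank = (J k ^ i).rank) : ∃ c : k, T 0 ^ 2 * T 1 = c • T 0 ^ 3 := by
  obtain ⟨g, g', hg, hg', hJ⟩ := conj_of_ranks (hT.cn.2 0) J_nil h
  obtain ⟨Q, Q', b1, b2, b3, -, -, -, hM, hQ, -⟩ := exists_MR (hT.conj g g' hg hg')
    (fun i => rfl) hJ
  obtain ⟨ha, hb⟩ := H Q Q' hM
  refine ⟨b1, ?_⟩
  have h1 : J k ^ 2 * (g * T 1 * g') = b1 • J k ^ 3 := by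
    rw [hQ, mul_add, mul_add, mul_add, Jsq_X ha hb, mul_smul_comm, mul_smul_comm, mul_smul_comm,
      ← pow_add, ← pow_succ, ← pow_add, J_four, show 2 + 3 = 4 + 1 from rfl, pow_succ (J k) 4,
      J_four]
    simp
  have h2 : g' * (J k ^ 2 * (g * T 1 * g')) * g = T 0 ^ 2 * T 1 := by
    have e : J k ^ 2 = g * T 0 ^ 2 * g' := by rw [← hJ, D7.conj_pow' g g' hg hg']
    rw [e]
    calc g' * (g * T 0 ^ 2 * g' * (g * T 1 * g')) * g =
        (g' * g) * T 0 ^ 2 * (g' * g) * T 1 * (g' * g) := by simp only [mul_assoc]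
      _ = _ := by rw [hg']; simp
  have h3 : g' * (J k ^ 3) * g = T 0 ^ 3 := by
    have e : J k ^ 3 = g * T 0 ^ 3 * g' := by rw [← hJ, D7.conj_pow' g g' hg hg']
    rw [e]
    calc g' * (g * T 0 ^ 3 * g') * g = (g' * g) * T 0 ^ 3 * (g' * g) := by simp only [mul_assoc]
      _ = _ := by rw [hg']; simp
  rw [← h2, h1, mul_smul_comm, smul_mul_assoc, h3]

end Dich

open Dich

/-- if `al0 = be0 = 0` for all maximal bad triples, the cubes of the elements of the pencil are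
multiples of `J ^ 3` -/
theorem MR.cube (H : ∀ Q Q' : Par k, MR Q Q' → Q.al0 = 0 ∧ Q.be0 = 0) (h : MR P P') (i j : Fin 10) :
    (J k * (X P * X P)) i j = (J k ^ 3) i j * (J k * (X P * X P)) 9 0 ∧
      (X P * (X P * X P)) i j = (J k ^ 3) i j * (X P * (X P * X P)) 9 0 := by
  have : Infinite k := IsAlgClosed.instInfinite
  obtain ⟨ha, hb⟩ := H P P' h
  exact MaxR.dich h (fun i => rfl) (int_MR H) (Jsq_X ha hb) (by rw [J_cube]; simp) i j

/-- the dichotomy, if `al0 = 0` for all maximal bad triples -/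
theorem MR.dich_of (H : ∀ Q Q' : Par k, MR Q Q' → Zr Q Q' Par.al0) (h : MR P P') :
    P.g0 * P.f0 = 0 ∧ P.e0 * P.de0 = 0 ∧ P.e0 * P.f0 = 0 ∧
      act P (act P (act P ![1, 0, 0, 0, 0, 0, 0, 0, 0, 0])) 8 = 0 := by
  have H' : ∀ Q Q' : Par k, MR Q Q' → Q.al0 = 0 ∧ Q.be0 = 0 := fun Q Q' hQ =>
    ⟨(H Q Q' hQ).1, (H _ _ hQ.dual).1⟩
  obtain ⟨ha, hb⟩ := H' P P' h
  have key := MR.cube H' h
  have hz : ∀ i j : Fin 10, ¬ (i = 9 ∧ j = 0) → (J k * (X P * X P)) i j = 0 ∧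
      (X P * (X P * X P)) i j = 0 := by
    intro i j hij
    have h := key i j
    rw [J_cube, if_neg hij, zero_mul, zero_mul] at h
    exact h
  have e1 : ∀ i j : Fin 10, ¬ (i = 9 ∧ j = 0) →
      (actJ (act P (act P (Pi.single j 1)))) i = 0 ∧
        (act P (act P (act P (Pi.single j 1)))) i = 0 := by
    intro i j hij
    rw [← X_mulVec, ← X_mulVec, ← X_mulVec, ← J_mulVec, mulVec_mulVec, mulVec_mulVec, mulVec_mulVec,
      mulVec_mulVec]
    simpa [mul_assoc] using hz i j hij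
  have a1 := (e1 8 0 (by decide)).1
  have a2 := (e1 9 1 (by decide)).1
  have a3 := (e1 8 1 (by decide)).1
  have a4 := (e1 8 0 (by decide)).2
  have e0 : (Pi.single 0 1 : Fin 10 → k) = ![1, 0, 0, 0, 0, 0, 0, 0, 0, 0] := by
    funext i
    fin_cases i <;> rfl
  rw [e0] at a4
  simp [act, actJ, ha, hb, -mul_eq_zero] at a1 a2 a3
  exact ⟨by linear_combination a1, by linear_combination a2, by linear_combination a3, a4⟩

/-- change of the first matrix: `J + t B` -/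
theorem dich (h : MR P P') (ha : Zr P P' Par.al0)
    (hc : P.g0 * P.f0 ≠ 0 ∨ act P (act P (act P ![1, 0, 0, 0, 0, 0, 0, 0, 0, 0])) 8 ≠ 0) :
    ∃ Q Q' : Par k, MR Q Q' ∧ ¬ Zr Q Q' Par.al0 := by
  by_contra hn
  push Not at hn
  obtain ⟨h1, -, -, h2⟩ := MR.dich_of hn h
  rcases hc with hc | hc
  · exact hc h1
  · exact hc h2

end Pool.Agent.Lib.D13.T4321
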