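import Pool.Agent.Lib.D13.S4321
import Pool.Agent.Lib.D13.F5

/-!
# MP_5dcbc3_ag: type `(4, 3, 2, 1)`: `e0 ≠ 0`, `al0 = be0 = f0 = de0 = rho = 0`
-/

set_option autoImplicit false

namespace Pool.Agent.Lib.D13.T4321

open Matrix Pool.Agent.Lib.Q5dc

variable {k : Type*} [Field k] [IsAlgClosed k] [CharZero k] {P P' : Par k}

omit [IsAlgClosed k] in
/-- the family F5 (density) -/
theorem no_F5 (h : MR P P') (h1 : Zr P P' Par.al0) (h2 : Zr P P' Par.be0) (h3 : Zr P P' Par.f0)
    (h4 : Zr P P' Par.de0) (h5 : Zr P P' Par.rho) (e : P.e0 = 1) (e' : P'.e0 = 0)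
    (g : P.g0 = 0) (g' : P'.g0 = 1) : False :=
  h.ncl (cl_F5 h.rel h1.1 h1.2 h2.1 h2.2 h4.1 h4.2 h3.1 h3.2 h5.1 h5.2 e e' g g')

omit [IsAlgClosed k] in
/-- `e0`, `g0` independent -/
theorem h53_ind (h : MR P P') (h1 : Zr P P' Par.al0) (h2 : Zr P P' Par.be0)
    (h3 : Zr P P' Par.f0) (h4 : Zr P P' Par.de0) (h5 : Zr P P' Par.rho) (e : P.e0 = 1)
    (e' : P'.e0 = 0) (g' : P'.g0 ≠ 0) : False := by
  refine no_F5 (h.gl 1 (-(P.g0 / P'.g0)) 0 (P'.g0)⁻¹ (by simpa using g')) ?_ ?_ ?_ ?_ ?_ ?_ ?_ ?_ ?_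
  · exact ⟨by simp [comb, h1.1, h1.2], by simp [comb, h1.1, h1.2]⟩
  · exact ⟨by simp [comb, h2.1, h2.2], by simp [comb, h2.1, h2.2]⟩
  · exact ⟨by simp [comb, h3.1, h3.2], by simp [comb, h3.1, h3.2]⟩
  · exact ⟨by simp [comb, h4.1, h4.2], by simp [comb, h4.1, h4.2]⟩
  · exact ⟨by simp [comb, h5.1, h5.2], by simp [comb, h5.1, h5.2]⟩
  · simp [comb, e, e']
  · simp [comb, e, e']
  · simp only [comb]
    field_simp
    ring
  · simp only [comb]
    field_simp
    ring

omit [IsAlgClosed k] [CharZero k] in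
/-- the relations of the class `al0 = be0 = f0 = de0 = rho = 0` -/
theorem h53_mk (h1 : Zr P P' Par.al0) (h2 : Zr P P' Par.be0) (h3 : Zr P P' Par.f0)
    (h4 : Zr P P' Par.de0) (h5 : Zr P P' Par.rho)
    (r3 : Br P P' Par.al1 Par.be1 + Br P P' Par.g0 Par.de1 + Br P P' Par.pi Par.th = 0)
    (r5 : Br P P' Par.al1 Par.q1 + Br P P' Par.g0 Par.f1 + Br P P' Par.pi Par.eta = 0)
    (r7 : Br P P' Par.al1 Par.e0 + Br P P' Par.g0 Par.z + Br P P' Par.pi Par.zeta = 0)
    (r10 : Br P P' Par.q1 Par.be1 + Br P P' Par.e0 Par.de1 + Br P P' Par.ph Par.th = 0)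
    (r12 : Br P P' Par.e0 Par.f1 + Br P P' Par.ph Par.eta = 0)
    (r13 : Br P P' Par.q1 Par.e0 + Br P P' Par.e0 Par.z + Br P P' Par.ph Par.zeta = 0) :
    Rel P P' := by
  simp only [Br] at *
  constructor <;> simp only [Br, h1.1, h1.2, h2.1, h2.2, h3.1, h3.2, h4.1, h4.2, h5.1, h5.2]
  · ring
  · ring
  · linear_combination r3
  · ring
  · linear_combination r5
  · ring
  · linear_combination r7
  · ring
  · ring
  · linear_combination r10
  · ring
  · linear_combination r12
  · linear_combination r13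
  · ring
  · ring
  · ring
  · ring
  · ring
  · ring
  · ring

omit [IsAlgClosed k] [CharZero k] in
/-- the relations of the class `al0 = be0 = f0 = de0 = 0` -/
theorem h53_rel (h : Rel P P') (h1 : Zr P P' Par.al0) (h2 : Zr P P' Par.be0)
    (h3 : Zr P P' Par.f0) (h4 : Zr P P' Par.de0) :
    (Br P P' Par.al1 Par.be1 + Br P P' Par.g0 Par.de1 + Br P P' Par.pi Par.th = 0) ∧
    (Br P P' Par.al1 Par.q1 + Br P P' Par.g0 Par.f1 + Br P P' Par.pi Par.eta = 0) ∧
    (Br P P' Par.al1 Par.e0 + Br P P' Par.g0 Par.z + Br P P' Par.pi Par.zeta = 0) ∧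
    (Br P P' Par.q1 Par.be1 + Br P P' Par.e0 Par.de1 + Br P P' Par.ph Par.th = 0) ∧
    (Br P P' Par.e0 Par.f1 + Br P P' Par.ph Par.eta = 0) ∧
    (Br P P' Par.q1 Par.e0 + Br P P' Par.e0 Par.z + Br P P' Par.ph Par.zeta = 0) := by
  obtain ⟨-, -, r3, -, r5, -, r7, -, -, r10, -, r12, r13, -, -, -, -, -, -, -⟩ := h
  simp only [Br, h1.1, h1.2, h2.1, h2.2, h3.1, h3.2, h4.1, h4.2] at *
  refine ⟨?_, ?_, ?_, ?_, ?_, ?_⟩
  · linear_combination r3
  · linear_combination r5
  · linear_combination r7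
  · linear_combination r10
  · linear_combination r12
  · linear_combination r13

omit [IsAlgClosed k] [CharZero k] in
theorem h53_unit {a b : k} (h : ¬ (a = 0 ∧ b = 0)) : ∃ x y : k, b * x - a * y = 1 := by
  by_cases ha : a = 0
  · have hb : b ≠ 0 := fun hb => h ⟨ha, hb⟩
    exact ⟨b⁻¹, 0, by rw [mul_inv_cancel₀ hb]; ring⟩
  · exact ⟨0, -a⁻¹, by
      have := mul_inv_cancel₀ ha
      linear_combination this⟩

omit [IsAlgClosed k] in
/-- `g0 = c e0`, `pi ≠ c ph` -/
theorem h53_pi (h : MR P P') (h1 : Zr P P' Par.al0) (h2 : Zr P P' Par.be0) (h3 : Zr P P' Par.f0)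
    (h4 : Zr P P' Par.de0) (h5 : Zr P P' Par.rho) (e : P.e0 = 1) (e' : P'.e0 = 0)
    (g' : P'.g0 = 0) (hp : ¬ (P.pi - P.g0 * P.ph = 0 ∧ P'.pi - P.g0 * P'.ph = 0)) : False := by
  obtain ⟨x, y, hx⟩ := h53_unit hp
  obtain ⟨r3, r5, r7, r10, r12, r13⟩ := h53_rel h.rel h1 h2 h3 h4
  simp only [Br, e, e', g'] at r3 r5 r7 r10 r12 r13
  obtain ⟨s, hs, h'⟩ := h.move
    { zero k with
      th := -(P.de1 * x)
      eta := -(P.f1 * x)
      zeta := -(P.z * x) }
    { zero k with
      g0 := 1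
      th := -(P.de1 * y)
      eta := -(P.f1 * y)
      zeta := -(P.z * y)
      de1 := -(P.de1 * (P'.ph * x - P.ph * y))
      f1 := -(P.f1 * (P'.ph * x - P.ph * y))
      z := -(P.z * (P'.ph * x - P.ph * y)) }
    (fun s => by
      apply h53_mk
      · exact ⟨by simp [line, zero, h1.1], by simp [line, zero, h1.2]⟩
      · exact ⟨by simp [line, zero, h2.1], by simp [line, zero, h2.2]⟩
      · exact ⟨by simp [line, zero, h3.1], by simp [line, zero, h3.2]⟩
      · exact ⟨by simp [line, zero, h4.1], by simp [line, zero, h4.2]⟩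
      · exact ⟨by simp [line, zero, h5.1], by simp [line, zero, h5.2]⟩
      · simp only [Br, line, zero, e, e', g']
        linear_combination r3 - s * P.de1 * hx
      · simp only [Br, line, zero, e, e', g']
        linear_combination r5 - s * P.f1 * hx
      · simp only [Br, line, zero, e, e', g']
        linear_combination r7 - s * P.z * hx
      · simp only [Br, line, zero, e, e', g']
        linear_combination r10
      · simp only [Br, line, zero, e, e', g']
        linear_combination r12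
      · simp only [Br, line, zero, e, e', g']
        linear_combination r13)
    (Set.finite_singleton (0 : k))
  refine h53_ind h' ?_ ?_ ?_ ?_ ?_ ?_ ?_ ?_
  · exact ⟨by simp [line, zero, h1.1], by simp [line, zero, h1.2]⟩
  · exact ⟨by simp [line, zero, h2.1], by simp [line, zero, h2.2]⟩
  · exact ⟨by simp [line, zero, h3.1], by simp [line, zero, h3.2]⟩
  · exact ⟨by simp [line, zero, h4.1], by simp [line, zero, h4.2]⟩
  · exact ⟨by simp [line, zero, h5.1], by simp [line, zero, h5.2]⟩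
  · simp [line, zero, e]
  · simp [line, zero, e']
  · simpa [line, g'] using hs

omit [IsAlgClosed k] in
/-- `g0 = c e0`, `pi = c ph`, `al1 ≠ c q1` -/
theorem h53_al (h : MR P P') (h1 : Zr P P' Par.al0) (h2 : Zr P P' Par.be0) (h3 : Zr P P' Par.f0)
    (h4 : Zr P P' Par.de0) (h5 : Zr P P' Par.rho) (e : P.e0 = 1) (e' : P'.e0 = 0)
    (g' : P'.g0 = 0) (hp : P.pi = P.g0 * P.ph) (hp' : P'.pi = P.g0 * P'.ph)
    (ha : ¬ (P.al1 - P.g0 * P.q1 = 0 ∧ P'.al1 - P.g0 * P'.q1 = 0)) : False := by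
  obtain ⟨r3, r5, r7, r10, r12, r13⟩ := h53_rel h.rel h1 h2 h3 h4
  simp only [Br, e, e', g', hp, hp'] at r3 r5 r7 r10 r12 r13
  have t7 : P'.al1 - P.g0 * P'.q1 = 0 := by linear_combination r7 - P.g0 * r13
  have ha' : P.al1 - P.g0 * P.q1 ≠ 0 := fun h0 => ha ⟨h0, t7⟩
  have b' : P'.be1 = 0 := by
    have : (P.al1 - P.g0 * P.q1) * P'.be1 = 0 := by
      linear_combination -r3 + P.g0 * r10 + P.be1 * t7
    exact (mul_eq_zero.1 this).resolve_left ha'
  have q' : P'.q1 = 0 := by
    have : (P.al1 - P.g0 * P.q1) * P'.q1 = 0 := by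
      linear_combination -r5 + P.g0 * r12 + P.q1 * t7
    exact (mul_eq_zero.1 this).resolve_left ha'
  have al' : P'.al1 = 0 := by rw [q'] at t7; linear_combination t7
  simp only [b', q', al'] at r3 r5 r7 r10 r12 r13
  obtain ⟨s, hs, h'⟩ := h.move (zero k)
    { zero k with
      g0 := 1
      al1 := P.g0 * ((P.f1 - P.z * P.q1) / (P.al1 - P.g0 * P.q1)) - P.z
      be1 := (P.de1 - P.z * P.be1) / (P.al1 - P.g0 * P.q1)
      q1 := (P.f1 - P.z * P.q1) / (P.al1 - P.g0 * P.q1)
      z := (P.f1 - P.z * P.q1) / (P.al1 - P.g0 * P.q1)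
      de1 := (P.f1 - P.z * P.q1) / (P.al1 - P.g0 * P.q1) * P.be1 -
        (P.de1 - P.z * P.be1) / (P.al1 - P.g0 * P.q1) * P.q1 }
    (fun s => by
      have u1 : (P.al1 - P.g0 * P.q1) * ((P.f1 - P.z * P.q1) / (P.al1 - P.g0 * P.q1)) =
          P.f1 - P.z * P.q1 := mul_div_cancel₀ _ ha'
      have u2 : (P.al1 - P.g0 * P.q1) * ((P.de1 - P.z * P.be1) / (P.al1 - P.g0 * P.q1)) =
          P.de1 - P.z * P.be1 := mul_div_cancel₀ _ ha'
      apply h53_mk
      · exact ⟨by simp [line, zero, h1.1], by simp [line, zero, h1.2]⟩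
      · exact ⟨by simp [line, zero, h2.1], by simp [line, zero, h2.2]⟩
      · exact ⟨by simp [line, zero, h3.1], by simp [line, zero, h3.2]⟩
      · exact ⟨by simp [line, zero, h4.1], by simp [line, zero, h4.2]⟩
      · exact ⟨by simp [line, zero, h5.1], by simp [line, zero, h5.2]⟩
      · simp only [Br, line, zero, e, e', g', hp, hp', b', q', al']
        linear_combination r3 - s * u2
      · simp only [Br, line, zero, e, e', g', hp, hp', b', q', al']
        linear_combination r5 - s * u1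
      · simp only [Br, line, zero, e, e', g', hp, hp', b', q', al']
        linear_combination r7
      · simp only [Br, line, zero, e, e', g', hp, hp', b', q', al']
        linear_combination r10
      · simp only [Br, line, zero, e, e', g', hp, hp', b', q', al']
        linear_combination r12
      · simp only [Br, line, zero, e, e', g', hp, hp', b', q', al']
        linear_combination r13)
    (Set.finite_singleton (0 : k))
  refine h53_ind h' ?_ ?_ ?_ ?_ ?_ ?_ ?_ ?_
  · exact ⟨by simp [line, zero, h1.1], by simp [line, zero, h1.2]⟩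
  · exact ⟨by simp [line, zero, h2.1], by simp [line, zero, h2.2]⟩
  · exact ⟨by simp [line, zero, h3.1], by simp [line, zero, h3.2]⟩
  · exact ⟨by simp [line, zero, h4.1], by simp [line, zero, h4.2]⟩
  · exact ⟨by simp [line, zero, h5.1], by simp [line, zero, h5.2]⟩
  · simp [line, zero, e]
  · simp [line, zero, e']
  · simpa [line, g'] using hs

omit [IsAlgClosed k] [CharZero k] in
theorem h53_lin (M : Matrix (Fin 3) (Fin 4) k) : ∃ v : Fin 4 → k, v ≠ 0 ∧ M *ᵥ v = 0 := by
  have h := LinearMap.ker_ne_bot_of_finrank_lt (f := M.mulVecLin) (by simp)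
  obtain ⟨v, hv, h0⟩ := Submodule.exists_mem_ne_zero_of_ne_bot h
  exact ⟨v, h0, hv⟩

omit [IsAlgClosed k] in
/-- `e0 = (1, 0)` -/
theorem h53_e0 (h : MR P P') (h1 : Zr P P' Par.al0) (h2 : Zr P P' Par.be0) (h3 : Zr P P' Par.f0)
    (h4 : Zr P P' Par.de0) (h5 : Zr P P' Par.rho) (e : P.e0 = 1) (e' : P'.e0 = 0) : False := by
  by_cases g' : P'.g0 = 0
  swap
  · exact h53_ind h h1 h2 h3 h4 h5 e e' g'
  by_cases hp : P.pi - P.g0 * P.ph = 0 ∧ P'.pi - P.g0 * P'.ph = 0
  swap
  · exact h53_pi h h1 h2 h3 h4 h5 e e' g' hp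
  by_cases ha : P.al1 - P.g0 * P.q1 = 0 ∧ P'.al1 - P.g0 * P'.q1 = 0
  swap
  · exact h53_al h h1 h2 h3 h4 h5 e e' g' (sub_eq_zero.1 hp.1) (sub_eq_zero.1 hp.2) ha
  obtain ⟨v, hv, h0⟩ := h53_lin
    !![-P'.be1, P.be1, -P'.th, P.th; -P'.q1, P.q1, -P'.eta, P.eta; 0, 1, -P'.zeta, P.zeta]
  have a1 := congrFun h0 0
  have a2 := congrFun h0 1
  have a3 := congrFun h0 2
  simp [Matrix.mulVec, dotProduct, Fin.sum_univ_succ] at a1 a2 a3
  obtain ⟨r3, r5, r7, r10, r12, r13⟩ := h53_rel h.rel h1 h2 h3 h4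
  simp only [Br, e, e', g'] at r3 r5 r7 r10 r12 r13
  obtain ⟨s, hs, h'⟩ := h.move
    { zero k with
      al1 := v 0
      pi := v 2 }
    { zero k with
      al1 := v 1
      pi := v 3 }
    (fun s => by
      apply h53_mk
      · exact ⟨by simp [line, zero, h1.1], by simp [line, zero, h1.2]⟩
      · exact ⟨by simp [line, zero, h2.1], by simp [line, zero, h2.2]⟩
      · exact ⟨by simp [line, zero, h3.1], by simp [line, zero, h3.2]⟩
      · exact ⟨by simp [line, zero, h4.1], by simp [line, zero, h4.2]⟩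
      · exact ⟨by simp [line, zero, h5.1], by simp [line, zero, h5.2]⟩
      · simp only [Br, line, zero, e, e', g']
        linear_combination r3 + s * a1
      · simp only [Br, line, zero, e, e', g']
        linear_combination r5 + s * a2
      · simp only [Br, line, zero, e, e', g']
        linear_combination r7 + s * a3
      · simp only [Br, line, zero, e, e', g']
        linear_combination r10
      · simp only [Br, line, zero, e, e', g']
        linear_combination r12
      · simp only [Br, line, zero, e, e', g']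
        linear_combination r13)
    (Set.finite_singleton (0 : k))
  have hs0 : s ≠ 0 := by simpa using hs
  have z1 := (⟨by simp [line, zero, h1.1], by simp [line, zero, h1.2]⟩ :
    Zr (line P { zero k with al1 := v 0, pi := v 2 } s)
      (line P' { zero k with al1 := v 1, pi := v 3 } s) Par.al0)
  have z2 := (⟨by simp [line, zero, h2.1], by simp [line, zero, h2.2]⟩ :
    Zr (line P { zero k with al1 := v 0, pi := v 2 } s)
      (line P' { zero k with al1 := v 1, pi := v 3 } s) Par.be0)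
  have z3 := (⟨by simp [line, zero, h3.1], by simp [line, zero, h3.2]⟩ :
    Zr (line P { zero k with al1 := v 0, pi := v 2 } s)
      (line P' { zero k with al1 := v 1, pi := v 3 } s) Par.f0)
  have z4 := (⟨by simp [line, zero, h4.1], by simp [line, zero, h4.2]⟩ :
    Zr (line P { zero k with al1 := v 0, pi := v 2 } s)
      (line P' { zero k with al1 := v 1, pi := v 3 } s) Par.de0)
  have z5 := (⟨by simp [line, zero, h5.1], by simp [line, zero, h5.2]⟩ :
    Zr (line P { zero k with al1 := v 0, pi := v 2 } s)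
      (line P' { zero k with al1 := v 1, pi := v 3 } s) Par.rho)
  have ze : (line P { zero k with al1 := v 0, pi := v 2 } s).e0 = 1 := by simp [line, zero, e]
  have ze' : (line P' { zero k with al1 := v 1, pi := v 3 } s).e0 = 0 := by
    simp [line, zero, e']
  have zg : (line P' { zero k with al1 := v 1, pi := v 3 } s).g0 = 0 := by
    simp [line, zero, g']
  by_cases hk : v 2 = 0 ∧ v 3 = 0
  · refine h53_al h' z1 z2 z3 z4 z5 ze ze' zg ?_ ?_ ?_
    · simp only [line, zero]
      linear_combination hp.1 + s * hk.1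
    · simp only [line, zero]
      linear_combination hp.2 + s * hk.2
    · rintro ⟨c1, c2⟩
      simp only [line, zero] at c1 c2
      have d1 : s * v 0 = 0 := by linear_combination c1 - ha.1
      have d2 : s * v 1 = 0 := by linear_combination c2 - ha.2
      refine hv (funext fun i => ?_)
      fin_cases i
      · exact (mul_eq_zero.1 d1).resolve_left hs0
      · exact (mul_eq_zero.1 d2).resolve_left hs0
      · exact hk.1
      · exact hk.2
  · refine h53_pi h' z1 z2 z3 z4 z5 ze ze' zg ?_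
    rintro ⟨c1, c2⟩
    simp only [line, zero] at c1 c2
    have d1 : s * v 2 = 0 := by linear_combination c1 - hp.1
    have d2 : s * v 3 = 0 := by linear_combination c2 - hp.2
    exact hk ⟨(mul_eq_zero.1 d1).resolve_left hs0, (mul_eq_zero.1 d2).resolve_left hs0⟩

omit [IsAlgClosed k] in
theorem no_e0_rho (h : MR P P') (h1 : Zr P P' Par.al0) (h2 : Zr P P' Par.be0)
    (h3 : Zr P P' Par.f0) (h4 : Zr P P' Par.de0) (h5 : Zr P P' Par.rho)
    (he : ¬ Zr P P' Par.e0) : False := by
  by_cases h0 : P.e0 = 0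
  · have h0' : P'.e0 ≠ 0 := fun h' => he ⟨h0, h'⟩
    refine h53_e0 (h.gl 0 (P'.e0)⁻¹ 1 0 (by simpa using h0')) ?_ ?_ ?_ ?_ ?_ ?_ ?_
    · exact ⟨by simp [comb, h1.1, h1.2], by simp [comb, h1.1, h1.2]⟩
    · exact ⟨by simp [comb, h2.1, h2.2], by simp [comb, h2.1, h2.2]⟩
    · exact ⟨by simp [comb, h3.1, h3.2], by simp [comb, h3.1, h3.2]⟩
    · exact ⟨by simp [comb, h4.1, h4.2], by simp [comb, h4.1, h4.2]⟩
    · exact ⟨by simp [comb, h5.1, h5.2], by simp [comb, h5.1, h5.2]⟩
    · simp [comb, h0']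
    · simp [comb, h0]
  · refine h53_e0 (h.gl (P.e0)⁻¹ 0 (-(P'.e0 / P.e0)) 1 (by simpa using h0)) ?_ ?_ ?_ ?_ ?_ ?_ ?_
    · exact ⟨by simp [comb, h1.1, h1.2], by simp [comb, h1.1, h1.2]⟩
    · exact ⟨by simp [comb, h2.1, h2.2], by simp [comb, h2.1, h2.2]⟩
    · exact ⟨by simp [comb, h3.1, h3.2], by simp [comb, h3.1, h3.2]⟩
    · exact ⟨by simp [comb, h4.1, h4.2], by simp [comb, h4.1, h4.2]⟩
    · exact ⟨by simp [comb, h5.1, h5.2], by simp [comb, h5.1, h5.2]⟩
    · simp [comb, h0]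
    · simp only [comb]
      field_simp
      ring

end Pool.Agent.Lib.D13.T4321
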