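import Pool.Agent.Lib.D13.K11

/-!
# MP_5dcbc3_ag: type `(4, 3, 2, 1)`: `ph ≠ 0`, `al0 = be0 = e0 = f0 = de0 = rho = 0`
-/

set_option autoImplicit false

namespace Pool.Agent.Lib.D13.T4321

open Matrix Pool.Agent.Lib.Q5dc

variable {k : Type*} [Field k] [IsAlgClosed k] [CharZero k] {P P' : Par k}

omit [IsAlgClosed k] [CharZero k] in
theorem h53_unit' {a b : k} (h : ¬ (a = 0 ∧ b = 0)) : ∃ x y : k, b * x - a * y = 1 ∧
    (x ≠ 0 ∨ y ≠ 0) := by
  obtain ⟨x, y, h1⟩ := h53_unit h
  refine ⟨x, y, h1, ?_⟩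
  by_contra h2
  push Not at h2
  rw [h2.1, h2.2] at h1
  simp at h1

omit [IsAlgClosed k] in
/-- `g0 ≠ 0` -/
theorem h53_ph_g (h : MR P P') (h1 : Zr P P' Par.al0) (h2 : Zr P P' Par.be0)
    (h3 : Zr P P' Par.f0) (h4 : Zr P P' Par.de0) (h5 : Zr P P' Par.rho) (h6 : Zr P P' Par.e0)
    (hp : ¬ Zr P P' Par.ph) (hg : ¬ Zr P P' Par.g0) : False := by
  obtain ⟨x, x', hx⟩ := h53_unit hp
  obtain ⟨y, y', hy, hy0⟩ := h53_unit' hg
  obtain ⟨r3, r5, r7, r10, r12, r13⟩ := h53_rel h.rel h1 h2 h3 h4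
  simp only [Br, h6.1, h6.2] at r3 r5 r7 r10 r12 r13
  obtain ⟨a, ha⟩ : ∃ a, a = -(y' * P.de1 - y * P'.de1) := ⟨_, rfl⟩
  obtain ⟨b, hb⟩ : ∃ b, b = -(y' * P.f1 - y * P'.f1) := ⟨_, rfl⟩
  obtain ⟨d, hd⟩ : ∃ d, d = -(P'.q1 * y - P.q1 * y') - (y' * P.z - y * P'.z) := ⟨_, rfl⟩
  obtain ⟨t, ht⟩ : ∃ t, t = P'.pi * x - P.pi * x' := ⟨_, rfl⟩
  obtain ⟨u, hu⟩ : ∃ u, u = P'.al1 * y - P.al1 * y' := ⟨_, rfl⟩
  obtain ⟨s, hs, h'⟩ := h.move
    { zero k with
      e0 := y
      th := a * x
      eta := b * x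
      zeta := d * x
      de1 := -(a * t * y)
      f1 := -(b * t * y)
      z := (-u - d * t) * y }
    { zero k with
      e0 := y'
      th := a * x'
      eta := b * x'
      zeta := d * x'
      de1 := -(a * t * y')
      f1 := -(b * t * y')
      z := (-u - d * t) * y' }
    (fun s => by
      apply h53_mk
      · exact ⟨by simp [line, zero, h1.1], by simp [line, zero, h1.2]⟩
      · exact ⟨by simp [line, zero, h2.1], by simp [line, zero, h2.2]⟩
      · exact ⟨by simp [line, zero, h3.1], by simp [line, zero, h3.2]⟩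
      · exact ⟨by simp [line, zero, h4.1], by simp [line, zero, h4.2]⟩
      · exact ⟨by simp [line, zero, h5.1], by simp [line, zero, h5.2]⟩
      · simp only [Br, line, zero, h6.1, h6.2]
        linear_combination r3 - s * a * t * hy - s * a * ht
      · simp only [Br, line, zero, h6.1, h6.2]
        linear_combination r5 - s * b * t * hy - s * b * ht
      · simp only [Br, line, zero, h6.1, h6.2]
        linear_combination r7 + s * (-u - d * t) * hy - s * d * ht - s * hu
      · simp only [Br, line, zero, h6.1, h6.2]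
        linear_combination r10 + s * a * hx + s * ha
      · simp only [Br, line, zero, h6.1, h6.2]
        linear_combination r12 + s * b * hx + s * hb
      · simp only [Br, line, zero, h6.1, h6.2]
        linear_combination r13 + s * d * hx + s * hd)
    (Set.finite_singleton (0 : k))
  have hs0 : s ≠ 0 := by simpa using hs
  refine no_e0_rho h' ?_ ?_ ?_ ?_ ?_ ?_
  · exact ⟨by simp [line, zero, h1.1], by simp [line, zero, h1.2]⟩
  · exact ⟨by simp [line, zero, h2.1], by simp [line, zero, h2.2]⟩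
  · exact ⟨by simp [line, zero, h3.1], by simp [line, zero, h3.2]⟩
  · exact ⟨by simp [line, zero, h4.1], by simp [line, zero, h4.2]⟩
  · exact ⟨by simp [line, zero, h5.1], by simp [line, zero, h5.2]⟩
  · rintro ⟨c1, c2⟩
    simp only [line, h6.1, h6.2] at c1 c2
    rcases hy0 with h0 | h0
    · exact (mul_ne_zero hs0 h0) (by linear_combination c1)
    · exact (mul_ne_zero hs0 h0) (by linear_combination c2)

omit [IsAlgClosed k] in
/-- `g0 = 0`, `ph`, `pi` independent -/
theorem h53_ph_i (h : MR P P') (h1 : Zr P P' Par.al0) (h2 : Zr P P' Par.be0)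
    (h3 : Zr P P' Par.f0) (h4 : Zr P P' Par.de0) (h5 : Zr P P' Par.rho) (h6 : Zr P P' Par.e0)
    (h7 : Zr P P' Par.g0) (hp : P'.pi * P.ph - P.pi * P'.ph ≠ 0) : False := by
  obtain ⟨r3, r5, r7, r10, r12, r13⟩ := h53_rel h.rel h1 h2 h3 h4
  simp only [Br, h6.1, h6.2, h7.1, h7.2] at r3 r5 r7 r10 r12 r13
  obtain ⟨a, a', ha1, ha2⟩ := exists_br2 hp (-(P'.de1)) 0
  obtain ⟨b, b', hb1, hb2⟩ := exists_br2 hp (-(P'.f1)) 0
  obtain ⟨d, d', hd1, hd2⟩ := exists_br2 hp (P'.q1 - P'.z) P'.al1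
  obtain ⟨s, hs, h'⟩ := h.move
    { zero k with
      e0 := 1
      th := a
      eta := b
      zeta := d }
    { zero k with
      th := a'
      eta := b'
      zeta := d' }
    (fun s => by
      apply h53_mk
      · exact ⟨by simp [line, zero, h1.1], by simp [line, zero, h1.2]⟩
      · exact ⟨by simp [line, zero, h2.1], by simp [line, zero, h2.2]⟩
      · exact ⟨by simp [line, zero, h3.1], by simp [line, zero, h3.2]⟩
      · exact ⟨by simp [line, zero, h4.1], by simp [line, zero, h4.2]⟩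
      · exact ⟨by simp [line, zero, h5.1], by simp [line, zero, h5.2]⟩
      · simp only [Br, line, zero, h6.1, h6.2, h7.1, h7.2]
        linear_combination r3 - s * ha2
      · simp only [Br, line, zero, h6.1, h6.2, h7.1, h7.2]
        linear_combination r5 - s * hb2
      · simp only [Br, line, zero, h6.1, h6.2, h7.1, h7.2]
        linear_combination r7 - s * hd2
      · simp only [Br, line, zero, h6.1, h6.2, h7.1, h7.2]
        linear_combination r10 - s * ha1
      · simp only [Br, line, zero, h6.1, h6.2, h7.1, h7.2]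
        linear_combination r12 - s * hb1
      · simp only [Br, line, zero, h6.1, h6.2, h7.1, h7.2]
        linear_combination r13 - s * hd1)
    (Set.finite_singleton (0 : k))
  have hs0 : s ≠ 0 := by simpa using hs
  refine no_e0_rho h' ?_ ?_ ?_ ?_ ?_ ?_
  · exact ⟨by simp [line, zero, h1.1], by simp [line, zero, h1.2]⟩
  · exact ⟨by simp [line, zero, h2.1], by simp [line, zero, h2.2]⟩
  · exact ⟨by simp [line, zero, h3.1], by simp [line, zero, h3.2]⟩
  · exact ⟨by simp [line, zero, h4.1], by simp [line, zero, h4.2]⟩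
  · exact ⟨by simp [line, zero, h5.1], by simp [line, zero, h5.2]⟩
  · rintro ⟨c1, c2⟩
    simp only [line, h6.1, h6.2] at c1 c2
    exact hs0 (by linear_combination c1)

omit [IsAlgClosed k] in
/-- `g0 = 0`, `pi = c ph` -/
theorem h53_ph_c (h : MR P P') (h1 : Zr P P' Par.al0) (h2 : Zr P P' Par.be0)
    (h3 : Zr P P' Par.f0) (h4 : Zr P P' Par.de0) (h5 : Zr P P' Par.rho) (h6 : Zr P P' Par.e0)
    (h7 : Zr P P' Par.g0) (hp : ¬ Zr P P' Par.ph) (c : k) (hc : P.pi = c * P.ph)
    (hc' : P'.pi = c * P'.ph) : False := by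
  obtain ⟨r3, r5, r7, r10, r12, r13⟩ := h53_rel h.rel h1 h2 h3 h4
  simp only [Br, h6.1, h6.2, h7.1, h7.2, hc, hc'] at r3 r5 r7 r10 r12 r13
  obtain ⟨x, x', hx⟩ := h53_unit hp
  obtain ⟨e, e', he, he0⟩ : ∃ e e' : k, (P'.al1 - c * P'.q1) * e - (P.al1 - c * P.q1) * e' = 0 ∧
      (e ≠ 0 ∨ e' ≠ 0) := by
    by_cases h0 : P.al1 - c * P.q1 = 0 ∧ P'.al1 - c * P'.q1 = 0
    · exact ⟨1, 0, by rw [h0.2]; ring, Or.inl one_ne_zero⟩
    · refine ⟨P.al1 - c * P.q1, P'.al1 - c * P'.q1, by ring, ?_⟩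
      by_contra h8
      push Not at h8
      exact h0 h8
  obtain ⟨a, ha⟩ : ∃ a, a = e' * P.de1 - e * P'.de1 := ⟨_, rfl⟩
  obtain ⟨b, hb⟩ : ∃ b, b = e' * P.f1 - e * P'.f1 := ⟨_, rfl⟩
  obtain ⟨d, hd⟩ : ∃ d, d = P'.q1 * e - P.q1 * e' + (e' * P.z - e * P'.z) := ⟨_, rfl⟩
  obtain ⟨s, hs, h'⟩ := h.move
    { zero k with
      e0 := e
      g0 := c * e
      th := -(a * x)
      eta := -(b * x)
      zeta := -(d * x) }
    { zero k with
      e0 := e'
      g0 := c * e'
      th := -(a * x')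
      eta := -(b * x')
      zeta := -(d * x') }
    (fun s => by
      apply h53_mk
      · exact ⟨by simp [line, zero, h1.1], by simp [line, zero, h1.2]⟩
      · exact ⟨by simp [line, zero, h2.1], by simp [line, zero, h2.2]⟩
      · exact ⟨by simp [line, zero, h3.1], by simp [line, zero, h3.2]⟩
      · exact ⟨by simp [line, zero, h4.1], by simp [line, zero, h4.2]⟩
      · exact ⟨by simp [line, zero, h5.1], by simp [line, zero, h5.2]⟩
      · simp only [Br, line, zero, h6.1, h6.2, h7.1, h7.2, hc, hc']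
        linear_combination r3 - s * c * a * hx - s * c * ha
      · simp only [Br, line, zero, h6.1, h6.2, h7.1, h7.2, hc, hc']
        linear_combination r5 - s * c * b * hx - s * c * hb
      · simp only [Br, line, zero, h6.1, h6.2, h7.1, h7.2, hc, hc']
        linear_combination r7 - s * c * d * hx - s * c * hd + s * he
      · simp only [Br, line, zero, h6.1, h6.2, h7.1, h7.2, hc, hc']
        linear_combination r10 - s * a * hx - s * ha
      · simp only [Br, line, zero, h6.1, h6.2, h7.1, h7.2, hc, hc']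
        linear_combination r12 - s * b * hx - s * hb
      · simp only [Br, line, zero, h6.1, h6.2, h7.1, h7.2, hc, hc']
        linear_combination r13 - s * d * hx - s * hd)
    (Set.finite_singleton (0 : k))
  have hs0 : s ≠ 0 := by simpa using hs
  refine no_e0_rho h' ?_ ?_ ?_ ?_ ?_ ?_
  · exact ⟨by simp [line, zero, h1.1], by simp [line, zero, h1.2]⟩
  · exact ⟨by simp [line, zero, h2.1], by simp [line, zero, h2.2]⟩
  · exact ⟨by simp [line, zero, h3.1], by simp [line, zero, h3.2]⟩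
  · exact ⟨by simp [line, zero, h4.1], by simp [line, zero, h4.2]⟩
  · exact ⟨by simp [line, zero, h5.1], by simp [line, zero, h5.2]⟩
  · rintro ⟨c1, c2⟩
    simp only [line, h6.1, h6.2] at c1 c2
    rcases he0 with h0 | h0
    · exact (mul_ne_zero hs0 h0) (by linear_combination c1)
    · exact (mul_ne_zero hs0 h0) (by linear_combination c2)

omit [IsAlgClosed k] in
theorem no_ph (h : MR P P') (h1 : Zr P P' Par.al0) (h2 : Zr P P' Par.be0)
    (h3 : Zr P P' Par.f0) (h4 : Zr P P' Par.de0) (h5 : Zr P P' Par.rho) (h6 : Zr P P' Par.e0)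
    (hp : ¬ Zr P P' Par.ph) : False := by
  by_cases hg : Zr P P' Par.g0
  swap
  · exact h53_ph_g h h1 h2 h3 h4 h5 h6 hp hg
  by_cases hd : P'.pi * P.ph - P.pi * P'.ph = 0
  swap
  · exact h53_ph_i h h1 h2 h3 h4 h5 h6 hg hd
  by_cases h0 : P.ph = 0
  · have h0' : P'.ph ≠ 0 := fun h' => hp ⟨h0, h'⟩
    refine h53_ph_c h h1 h2 h3 h4 h5 h6 hg hp (P'.pi / P'.ph) ?_ ?_
    · rw [h0, mul_zero]
      rw [h0, mul_zero, zero_sub, neg_eq_zero] at hd
      exact (mul_eq_zero.1 hd).resolve_right h0'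
    · field_simp
  · refine h53_ph_c h h1 h2 h3 h4 h5 h6 hg hp (P.pi / P.ph) ?_ ?_
    · field_simp
    · field_simp
      linear_combination hd

end Pool.Agent.Lib.D13.T4321
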