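import Pool.Agent.Lib.D13.K9
import Pool.Agent.Lib.D13.K10
import Pool.Agent.Lib.D13.K11

/-!
# MP_5dcbc3_ag: type `(4, 3, 2, 1)`: `al0 = be0 = 0`, `e0 ≠ 0`
-/

set_option autoImplicit false

namespace Pool.Agent.Lib.D13.T4321

open Matrix Pool.Agent.Lib.Q5dc

variable {k : Type*} [Field k] [IsAlgClosed k] [CharZero k] {P P' : Par k}

/-- the case `e0 ≠ 0` for the first matrix -/
theorem h53_e0P (h : MR P P') (h1 : Zr P P' Par.al0) (h2 : Zr P P' Par.be0)
    (he : P.e0 ≠ 0) : False := by
  have hz : ¬ Zr P P' Par.e0 := fun h0 => he h0.1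
  have hf : Zr P P' Par.f0 := h.rk2.resolve_left hz
  have hr := h.rel
  by_cases hd : Zr P P' Par.de0
  · by_cases hrho : Zr P P' Par.rho
    · exact no_e0_rho h h1 h2 hf hd hrho hz
    · have hzeta : Zr P P' Par.zeta := h.rk3.resolve_left hrho
      have heta : Zr P P' Par.eta := (h.rk6.resolve_left hz).resolve_left hrho
      by_cases hth : Zr P P' Par.th
      · exact MR.kf h.dual hzeta 0 0 ⟨by simp [Par.dual, heta.1], by simp [Par.dual, heta.2]⟩
          ⟨by simp [Par.dual, hth.1], by simp [Par.dual, hth.2]⟩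
          (Or.inr (Or.inr hz))
      · have r14 := hr.r14
        have r16 := hr.r16
        simp only [Br, hf.1, hf.2, h2.1, h2.2, hd.1, hd.2] at r14 r16
        have hrP : P.rho ≠ 0 := by
          intro h0
          rw [h0] at r14
          refine hrho ⟨h0, ?_⟩
          have : P.e0 * P'.rho = 0 := by linear_combination -r14
          exact (mul_eq_zero.1 this).resolve_left he
        have htP : P.th ≠ 0 := by
          intro h0
          rw [h0] at r16
          refine hth ⟨h0, ?_⟩
          have : P.rho * P'.th = 0 := by linear_combination -r16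
          exact (mul_eq_zero.1 this).resolve_left hrP
        obtain ⟨Q, Q', hQ, hQ0⟩ := dich h.dual h2 (Or.inr (by
          have : act P.dual (act P.dual (act P.dual ![1, 0, 0, 0, 0, 0, 0, 0, 0, 0])) 8 =
              P.e0 * P.rho * P.th := by
            simp [act, Par.dual, h1.1, h2.1, hf.1, hd.1]
            ring
          rw [this]
          exact mul_ne_zero (mul_ne_zero he hrP) htP))
        exact no_al0 hQ hQ0
  · have r9 := hr.r9
    simp only [Br, h2.1, h2.2] at r9
    have hdP : P.de0 ≠ 0 := by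
      intro h0
      rw [h0] at r9
      refine hd ⟨h0, ?_⟩
      have : P.e0 * P'.de0 = 0 := by linear_combination -r9
      exact (mul_eq_zero.1 this).resolve_left he
    obtain ⟨Q, Q', hQ, hQ0⟩ := dich h.dual h2 (Or.inl (mul_ne_zero hdP he))
    exact no_al0 hQ hQ0

theorem no_e0 (h : MR P P') (h1 : Zr P P' Par.al0) (h2 : Zr P P' Par.be0)
    (he : ¬ Zr P P' Par.e0) : False := by
  by_cases h0 : P.e0 = 0
  · exact h53_e0P h.swap ⟨h1.2, h1.1⟩ ⟨h2.2, h2.1⟩ fun h' => he ⟨h0, h'⟩
  · exact h53_e0P h h1 h2 h0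

end Pool.Agent.Lib.D13.T4321
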