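import Pool.Agent.Lib.D13.K9
import Pool.Agent.Lib.D13.E4321

/-!
# MP_5dcbc3_ag: type `(4, 3, 2, 1)`: `al0 = be0 = e0 = f0 = zeta = g0 = eta = 0`
-/

set_option autoImplicit false

namespace Pool.Agent.Lib.D13.T4321

open Matrix Pool.Agent.Lib.Q5dc

variable {k : Type*} [Field k] [IsAlgClosed k] [CharZero k] {P P' : Par k}

theorem no_rho_de0 (h : MR P P') (h1 : Zr P P' Par.al0) (h2 : Zr P P' Par.be0)
    (h3 : Zr P P' Par.e0) (h4 : Zr P P' Par.f0) (h5 : Zr P P' Par.zeta) (h6 : Zr P P' Par.g0)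
    (h7 : Zr P P' Par.eta) (hne : ¬ Zr P P' Par.rho ∨ ¬ Zr P P' Par.de0) : False := by
  have : Infinite k := IsAlgClosed.instInfinite
  have H : ∀ Q Q' : Par k, MR Q Q' → Q.al0 = 0 ∧ Q.be0 = 0 := by
    intro Q Q' hQ
    constructor
    · by_contra hn
      exact no_al0 hQ fun h => hn h.1
    · by_contra hn
      exact no_be0 hQ fun h => hn h.1
  refine Dich.no_M13 H h h3.1 h3.2 h4.1 h4.2 h6.1 h6.2 h5.1 h5.2 h7.1 h7.2 ?_
  by_contra hn
  push Not at hn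
  rcases hne with hne | hne
  · exact hne ⟨hn.2.2.1, hn.2.2.2⟩
  · exact hne ⟨hn.1, hn.2.1⟩

end Pool.Agent.Lib.D13.T4321
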