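import Pool.Agent.Lib.D13.S4321

/-!
# MP_5dcbc3_ag: type `(4, 3, 2, 1)`: Krull moves
-/

set_option autoImplicit false

namespace Pool.Agent.Lib.D13.T4321

open Matrix Pool.Agent.Lib.Q5dc

section family

variable {k : Type*} [Field k]

/-- evaluation of parameters that are polynomials in several variables -/
noncomputable def km_ev {ι : Type*} (x : ι → k) (q : Par (MvPolynomial ι k)) : Par k where
  al0 := MvPolynomial.eval x q.al0
  al1 := MvPolynomial.eval x q.al1
  al2 := MvPolynomial.eval x q.al2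
  g0 := MvPolynomial.eval x q.g0
  g1 := MvPolynomial.eval x q.g1
  pi := MvPolynomial.eval x q.pi
  be0 := MvPolynomial.eval x q.be0
  be1 := MvPolynomial.eval x q.be1
  be2 := MvPolynomial.eval x q.be2
  q1 := MvPolynomial.eval x q.q1
  q2 := MvPolynomial.eval x q.q2
  e0 := MvPolynomial.eval x q.e0
  e1 := MvPolynomial.eval x q.e1
  ph := MvPolynomial.eval x q.ph
  de0 := MvPolynomial.eval x q.de0
  de1 := MvPolynomial.eval x q.de1
  f0 := MvPolynomial.eval x q.f0
  f1 := MvPolynomial.eval x q.f1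
  z := MvPolynomial.eval x q.z
  rho := MvPolynomial.eval x q.rho
  th := MvPolynomial.eval x q.th
  eta := MvPolynomial.eval x q.eta
  zeta := MvPolynomial.eval x q.zeta

/-- constant parameters -/
noncomputable def km_C (ι : Type*) (P : Par k) : Par (MvPolynomial ι k) where
  al0 := MvPolynomial.C P.al0
  al1 := MvPolynomial.C P.al1
  al2 := MvPolynomial.C P.al2
  g0 := MvPolynomial.C P.g0
  g1 := MvPolynomial.C P.g1
  pi := MvPolynomial.C P.pi
  be0 := MvPolynomial.C P.be0
  be1 := MvPolynomial.C P.be1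
  be2 := MvPolynomial.C P.be2
  q1 := MvPolynomial.C P.q1
  q2 := MvPolynomial.C P.q2
  e0 := MvPolynomial.C P.e0
  e1 := MvPolynomial.C P.e1
  ph := MvPolynomial.C P.ph
  de0 := MvPolynomial.C P.de0
  de1 := MvPolynomial.C P.de1
  f0 := MvPolynomial.C P.f0
  f1 := MvPolynomial.C P.f1
  z := MvPolynomial.C P.z
  rho := MvPolynomial.C P.rho
  th := MvPolynomial.C P.th
  eta := MvPolynomial.C P.eta
  zeta := MvPolynomial.C P.zeta

theorem km_h1 {ι : Type*} (p : MvPolynomial ι k) : MP fun x => MvPolynomial.eval x p :=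
  ⟨p, fun _ => rfl⟩

theorem km_X {ι : Type*} (q : Par (MvPolynomial ι k)) (i j : Fin 10) :
    MP fun x : ι → k => X (km_ev x q) i j := by
  have h0 : MP fun _ : ι → k => (0 : k) := MP.const 0
  fin_cases i <;> fin_cases j <;> first | exact h0 | exact km_h1 _

theorem km_Br {ι : Type*} {f g f' g' : (ι → k) → k} (h1 : MP f) (h2 : MP g) (h3 : MP f')
    (h4 : MP g') : MP fun x => f' x * g x - f x * g' x :=
  (h3.mul h2).sub (h1.mul h4)

/-- the ten relations in the class `be0 = e0 = zeta = 0` -/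
def km_F (P P' : Par k) : Fin 10 → k :=
  ![Br P P' Par.al0 Par.be1 + Br P P' Par.g0 Par.de0,
    Br P P' Par.al0 Par.be2 + Br P P' Par.al1 Par.be1 + Br P P' Par.g0 Par.de1 +
      Br P P' Par.g1 Par.de0 + Br P P' Par.pi Par.th,
    Br P P' Par.al0 Par.q1 + Br P P' Par.g0 Par.f0,
    Br P P' Par.al0 Par.q2 + Br P P' Par.al1 Par.q1 + Br P P' Par.g0 Par.f1 +
      Br P P' Par.g1 Par.f0 + Br P P' Par.pi Par.eta,
    Br P P' Par.al0 Par.e1 + Br P P' Par.g0 Par.z,
    Br P P' Par.al0 Par.ph + Br P P' Par.g0 Par.rho,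
    Br P P' Par.q1 Par.be1 + Br P P' Par.e1 Par.de0 + Br P P' Par.ph Par.th,
    Br P P' Par.be1 Par.al0 + Br P P' Par.e1 Par.f0 + Br P P' Par.ph Par.eta,
    Br P P' Par.f0 Par.be1 + Br P P' Par.z Par.de0 + Br P P' Par.rho Par.th,
    Br P P' Par.de0 Par.al0 + Br P P' Par.f0 Par.q1 + Br P P' Par.z Par.f0 +
      Br P P' Par.rho Par.eta]

theorem km_rel {P P' : Par k} (h2 : Zr P P' Par.be0) (h3 : Zr P P' Par.e0)
    (h5 : Zr P P' Par.zeta) : Rel P P' ↔ ∀ j, km_F P P' j = 0 := by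
  obtain ⟨b, b'⟩ := h2
  obtain ⟨e, e'⟩ := h3
  obtain ⟨z, z'⟩ := h5
  have b1 : P.be0 = 0 := b
  have b2 : P'.be0 = 0 := b'
  have e1 : P.e0 = 0 := e
  have e2 : P'.e0 = 0 := e'
  have z1 : P.zeta = 0 := z
  have z2 : P'.zeta = 0 := z'
  constructor
  · intro h j
    obtain ⟨r1, r2, r3, r4, r5, r6, r7, r8, r9, r10, r11, r12, r13, r14, r15, r16, r17, r18, r19,
      r20⟩ := h
    simp only [Br, b1, b2, e1, e2, z1, z2] at *
    fin_cases j <;> simp only [km_F, Br] <;> simp
    · linear_combination r2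
    · linear_combination r3
    · linear_combination r4
    · linear_combination r5
    · linear_combination r7
    · linear_combination r8
    · linear_combination r10
    · linear_combination r12
    · linear_combination r16
    · linear_combination r17
  · intro h
    have a0 := h 0
    have a1 := h 1
    have a2 := h 2
    have a3 := h 3
    have a4 := h 4
    have a5 := h 5
    have a6 := h 6
    have a7 := h 7
    have a8 := h 8
    have a9 := h 9
    simp [km_F, Br] at a0 a1 a2 a3 a4 a5 a6 a7 a8 a9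
    constructor <;> simp only [Br, b1, b2, e1, e2, z1, z2]
    · ring
    · linear_combination a0
    · linear_combination a1
    · linear_combination a2
    · linear_combination a3
    · ring
    · linear_combination a4
    · linear_combination a5
    · ring
    · linear_combination a6
    · ring
    · linear_combination a7
    · ring
    · ring
    · ring
    · linear_combination a8
    · linear_combination a9
    · ring
    · ring
    · ring

theorem km_F_mp {ι : Type*} (q q' : Par (MvPolynomial ι k)) (j : Fin 10) :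
    MP fun x : ι → k => km_F (km_ev x q) (km_ev x q') j := by
  have hB : ∀ (f g f' g' : MvPolynomial ι k), MP fun x : ι → k =>
      MvPolynomial.eval x f' * MvPolynomial.eval x g -
        MvPolynomial.eval x f * MvPolynomial.eval x g' :=
    fun f g f' g' => km_Br (km_h1 f) (km_h1 g) (km_h1 f') (km_h1 g')
  fin_cases j
  · exact (hB _ _ _ _).add (hB _ _ _ _)
  · exact ((((hB _ _ _ _).add (hB _ _ _ _)).add (hB _ _ _ _)).add (hB _ _ _ _)).add
      (hB _ _ _ _)
  · exact (hB _ _ _ _).add (hB _ _ _ _)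
  · exact ((((hB _ _ _ _).add (hB _ _ _ _)).add (hB _ _ _ _)).add (hB _ _ _ _)).add
      (hB _ _ _ _)
  · exact (hB _ _ _ _).add (hB _ _ _ _)
  · exact (hB _ _ _ _).add (hB _ _ _ _)
  · exact ((hB _ _ _ _).add (hB _ _ _ _)).add (hB _ _ _ _)
  · exact ((hB _ _ _ _).add (hB _ _ _ _)).add (hB _ _ _ _)
  · exact ((hB _ _ _ _).add (hB _ _ _ _)).add (hB _ _ _ _)
  · exact (((hB _ _ _ _).add (hB _ _ _ _)).add (hB _ _ _ _)).add (hB _ _ _ _)

/-- Krull's tool in the class `be0 = e0 = zeta = 0` -/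
theorem MR.km {P P' : Par k} [IsAlgClosed k] (h : MR P P') (q q' : Par (MvPolynomial (Fin 11) k))
    (x₀ : Fin 11 → k) (hq : km_ev x₀ q = P) (hq' : km_ev x₀ q' = P')
    (h2 : ∀ x, Zr (km_ev x q) (km_ev x q') Par.be0)
    (h3 : ∀ x, Zr (km_ev x q) (km_ev x q') Par.e0)
    (h5 : ∀ x, Zr (km_ev x q) (km_ev x q') Par.zeta) (bad : (Fin 11 → k) → Prop)
    (hbad : ∀ x, Rel (km_ev x q) (km_ev x q') → bad x → x = x₀) :
    ∃ x, MR (km_ev x q) (km_ev x q') ∧ ¬ bad x := by
  have hR : ∀ x, (∀ j, km_F (km_ev x q) (km_ev x q') j = 0) → Rel (km_ev x q) (km_ev x q') :=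
    fun x hx => (km_rel (h2 x) (h3 x) (h5 x)).2 hx
  obtain ⟨x, -, -, hx, hb⟩ := krull_iso (κ := Fin 10) (ι := Fin 11) (by simp)
    (fun x => ![J k, X (km_ev x q), X (km_ev x q')]) (by
      intro i a b
      fin_cases i
      · exact MP.const _
      · exact km_X q a b
      · exact km_X q' a b)
    (fun j x => km_F (km_ev x q) (km_ev x q') j) (km_F_mp q q') (fun _ => 1) (MP.const 1)
    (fun x hx _ => cn (hR x hx)) (x₀ := x₀)
    (by
      refine (km_rel (h2 x₀) (h3 x₀) (h5 x₀)).1 ?_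
      rw [hq, hq']
      exact h.rel)
    one_ne_zero
    (by
      show D7.MaxR _ ![J k, X (km_ev x₀ q), X (km_ev x₀ q')]
      rw [hq, hq']
      exact h)
    bad (fun x hx _ _ hb => hbad x (hR x hx) hb)
  exact ⟨x, hx, hb⟩

end family

section main

variable {k : Type*} [Field k] [IsAlgClosed k] {P P' : Par k}

/-- the family of the Krull moves: second matrix -/
noncomputable def km_q (P : Par k) (r : MvPolynomial (Fin 11) k) : Par (MvPolynomial (Fin 11) k) :=
  { km_C (Fin 11) P with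
    al0 := MvPolynomial.X 0
    f0 := MvPolynomial.X 2
    rho := r }

/-- the family of the Krull moves: third matrix -/
noncomputable def km_q' (P' : Par k) (t h e : MvPolynomial (Fin 11) k) :
    Par (MvPolynomial (Fin 11) k) :=
  { km_C (Fin 11) P' with
    al0 := MvPolynomial.X 1
    f0 := MvPolynomial.X 3
    de0 := MvPolynomial.X 4
    de1 := MvPolynomial.X 5
    f1 := MvPolynomial.X 6
    z := MvPolynomial.X 7
    rho := MvPolynomial.X 8
    th := t
    eta := h
    e1 := e }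

theorem km_main (h : MR P P') (h2 : Zr P P' Par.be0)
    (h3 : Zr P P' Par.e0) (h5 : Zr P P' Par.zeta) (g : P.g0 = 1)
    (g' : P'.g0 = 0) (r t hh e : MvPolynomial (Fin 11) k) (x₀ : Fin 11 → k)
    (i0 : x₀ 0 = P.al0) (i1 : x₀ 1 = P'.al0) (i2 : x₀ 2 = P.f0) (i3 : x₀ 3 = P'.f0)
    (i4 : x₀ 4 = P'.de0) (i5 : x₀ 5 = P'.de1) (i6 : x₀ 6 = P'.f1) (i7 : x₀ 7 = P'.z)
    (i8 : x₀ 8 = P'.rho) (er : MvPolynomial.eval x₀ r = P.rho)
    (et : MvPolynomial.eval x₀ t = P'.th) (eh : MvPolynomial.eval x₀ hh = P'.eta)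
    (ee : MvPolynomial.eval x₀ e = P'.e1)
    (hbad : ∀ x : Fin 11 → k, Rel (km_ev x (km_q P r)) (km_ev x (km_q' P' t hh e)) →
      x 0 = 0 → x 1 = 0 → x 2 = 0 → x 3 = 0 → x = x₀) :
    ∃ Q Q' : Par k, MR Q Q' ∧ Q.g0 = 1 ∧ Q'.g0 = 0 ∧
      (¬ Zr Q Q' Par.al0 ∨ (Zr Q Q' Par.al0 ∧ ¬ Zr Q Q' Par.f0)) := by
  obtain ⟨x, hx, hb⟩ := MR.km h (km_q P r) (km_q' P' t hh e) x₀
    (by
      obtain ⟨⟩ := P
      simp_all [km_ev, km_q, km_C])
    (by
      obtain ⟨⟩ := P'
      simp_all [km_ev, km_q', km_C])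
    (fun x => by
      obtain ⟨a, b⟩ := h2
      exact ⟨by simpa [km_ev, km_q, km_C] using a, by simpa [km_ev, km_q', km_C] using b⟩)
    (fun x => by
      obtain ⟨a, b⟩ := h3
      exact ⟨by simpa [km_ev, km_q, km_C] using a, by simpa [km_ev, km_q', km_C] using b⟩)
    (fun x => by
      obtain ⟨a, b⟩ := h5
      exact ⟨by simpa [km_ev, km_q, km_C] using a, by simpa [km_ev, km_q', km_C] using b⟩)
    (fun x => x 0 = 0 ∧ x 1 = 0 ∧ x 2 = 0 ∧ x 3 = 0)
    (fun x hx hb => hbad x hx hb.1 hb.2.1 hb.2.2.1 hb.2.2.2)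
  refine ⟨_, _, hx, by simpa [km_ev, km_q, km_C] using g, by simpa [km_ev, km_q', km_C] using g', ?_⟩
  by_cases ha : Zr (km_ev x (km_q P r)) (km_ev x (km_q' P' t hh e)) Par.al0
  · right
    refine ⟨ha, fun hf => hb ⟨?_, ?_, ?_, ?_⟩⟩
    · simpa [km_ev, km_q] using ha.1
    · simpa [km_ev, km_q'] using ha.2
    · simpa [km_ev, km_q] using hf.1
    · simpa [km_ev, km_q'] using hf.2
  · exact Or.inl ha

/-- the consequences of the relations on the bad locus -/
theorem km_bad (h2 : Zr P P' Par.be0) (h3 : Zr P P' Par.e0) (h5 : Zr P P' Par.zeta)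
    (g : P.g0 = 1) (g' : P'.g0 = 0) (h1 : Zr P P' Par.al0) (h4 : Zr P P' Par.f0)
    (h : Rel P P') : P'.de0 = 0 ∧ P'.z = 0 ∧ P'.rho = 0 ∧ P.rho * P'.th = 0 ∧
      P.rho * P'.eta = 0 ∧
      P'.de1 = Br P P' Par.al1 Par.be1 + P'.g1 * P.de0 + Br P P' Par.pi Par.th ∧
      P'.f1 = Br P P' Par.al1 Par.q1 + Br P P' Par.pi Par.eta ∧
      Br P P' Par.q1 Par.be1 + P'.e1 * P.de0 + Br P P' Par.ph Par.th = 0 := by
  obtain ⟨b, b'⟩ := h2
  obtain ⟨e, e'⟩ := h3
  obtain ⟨z, z'⟩ := h5
  obtain ⟨a, a'⟩ := h1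
  obtain ⟨f, f'⟩ := h4
  have b1 : P.be0 = 0 := b
  have b2 : P'.be0 = 0 := b'
  have e1 : P.e0 = 0 := e
  have e2 : P'.e0 = 0 := e'
  have z1 : P.zeta = 0 := z
  have z2 : P'.zeta = 0 := z'
  have a1 : P.al0 = 0 := a
  have a2 : P'.al0 = 0 := a'
  have f1 : P.f0 = 0 := f
  have f2 : P'.f0 = 0 := f'
  obtain ⟨r1, r2, r3, r4, r5, r6, r7, r8, r9, r10, r11, r12, r13, r14, r15, r16, r17, r18, r19,
    r20⟩ := h
  simp only [Br, b1, b2, e1, e2, z1, z2, a1, a2, f1, f2, g, g'] at *
  have d : P'.de0 = 0 := by linear_combination -r2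
  have zz : P'.z = 0 := by linear_combination -r7
  have rr : P'.rho = 0 := by linear_combination -r8
  rw [d, zz, rr] at r16 r17
  rw [d] at r3 r10
  refine ⟨d, zz, rr, ?_, ?_, ?_, ?_, ?_⟩
  · linear_combination -r16
  · linear_combination -r17
  · linear_combination -r3
  · linear_combination -r5
  · linear_combination r10

end main

variable {k : Type*} [Field k] [IsAlgClosed k] [CharZero k] {P P' : Par k}

/-- moves inside the class `be0 = e0 = zeta = 0` -/
theorem krull_C3 (h : MR P P') (h1 : Zr P P' Par.al0) (h2 : Zr P P' Par.be0)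
    (h3 : Zr P P' Par.e0) (h4 : Zr P P' Par.f0) (h5 : Zr P P' Par.zeta) (g : P.g0 = 1)
    (g' : P'.g0 = 0) (hne : ¬ Zr P P' Par.rho ∨ ¬ Zr P P' Par.de0) :
    ∃ Q Q' : Par k, MR Q Q' ∧ Q.g0 = 1 ∧ Q'.g0 = 0 ∧
      (¬ Zr Q Q' Par.al0 ∨ (Zr Q Q' Par.al0 ∧ ¬ Zr Q Q' Par.f0)) := by
  obtain ⟨hd, hz, hr, ht, he, hde1, hf1, h10⟩ := km_bad h2 h3 h5 g g' h1 h4 h.rel
  have A : ∀ (r t hh e : MvPolynomial (Fin 11) k) (x : Fin 11 → k),
      Rel (km_ev x (km_q P r)) (km_ev x (km_q' P' t hh e)) →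
      x 0 = 0 → x 1 = 0 → x 2 = 0 → x 3 = 0 →
      x 4 = 0 ∧ x 7 = 0 ∧ x 8 = 0 ∧ MvPolynomial.eval x r * MvPolynomial.eval x t = 0 ∧
      MvPolynomial.eval x r * MvPolynomial.eval x hh = 0 ∧
      x 5 = P'.al1 * P.be1 - P.al1 * P'.be1 + P'.g1 * P.de0 +
        (P'.pi * P.th - P.pi * MvPolynomial.eval x t) ∧
      x 6 = P'.al1 * P.q1 - P.al1 * P'.q1 +
        (P'.pi * P.eta - P.pi * MvPolynomial.eval x hh) ∧
      P'.q1 * P.be1 - P.q1 * P'.be1 + MvPolynomial.eval x e * P.de0 +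
        (P'.ph * P.th - P.ph * MvPolynomial.eval x t) = 0 := by
    intro r t hh e x hx x0 x1 x2 x3
    have := km_bad (P := km_ev x (km_q P r)) (P' := km_ev x (km_q' P' t hh e))
      ⟨by simpa [km_ev, km_q, km_C] using h2.1, by simpa [km_ev, km_q', km_C] using h2.2⟩
      ⟨by simpa [km_ev, km_q, km_C] using h3.1, by simpa [km_ev, km_q', km_C] using h3.2⟩
      ⟨by simpa [km_ev, km_q, km_C] using h5.1, by simpa [km_ev, km_q', km_C] using h5.2⟩
      (by simpa [km_ev, km_q, km_C] using g) (by simpa [km_ev, km_q', km_C] using g')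
      ⟨by simpa [km_ev, km_q, km_C] using x0, by simpa [km_ev, km_q', km_C] using x1⟩
      ⟨by simpa [km_ev, km_q, km_C] using x2, by simpa [km_ev, km_q', km_C] using x3⟩ hx
    simpa [km_ev, km_q, km_q', km_C, Br] using this
  simp only [Br] at hde1 hf1 h10
  by_cases hrho : P.rho = 0
  · have hde : P.de0 ≠ 0 := by
      rcases hne with h6 | h6
      · exact absurd ⟨hrho, hr⟩ h6
      · intro h7
        exact h6 ⟨h7, hd⟩
    by_cases hte : P'.th = 0 ∧ P'.eta = 0
    · obtain ⟨hth, heta⟩ := hte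
      refine km_main h h2 h3 h5 g g' (MvPolynomial.X 9) (MvPolynomial.X 9) (MvPolynomial.C 0)
        (MvPolynomial.X 10)
        ![P.al0, P'.al0, P.f0, P'.f0, P'.de0, P'.de1, P'.f1, P'.z, P'.rho, 0, P'.e1]
        rfl rfl rfl rfl rfl rfl rfl rfl rfl
        (by simpa using hrho.symm) (by simpa using hth.symm) (by simpa using heta.symm)
        (by simp) (fun x hx x0 x1 x2 x3 => ?_)
      obtain ⟨x4, x7, x8, x9, -, x5, x6, x10⟩ := A _ _ _ _ x hx x0 x1 x2 x3
      simp only [MvPolynomial.eval_X, MvPolynomial.eval_C] at x9 x5 x6 x10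
      have x9' : x 9 = 0 := by simpa using x9
      rw [x9'] at x5 x10
      rw [hth] at hde1 h10
      rw [heta] at hf1
      have x10' : x 10 = P'.e1 := mul_right_cancel₀ hde (by linear_combination x10 - h10)
      funext i
      fin_cases i
      · exact x0.trans h1.1.symm
      · exact x1.trans h1.2.symm
      · exact x2.trans h4.1.symm
      · exact x3.trans h4.2.symm
      · exact x4.trans hd.symm
      · exact x5.trans hde1.symm
      · exact x6.trans hf1.symm
      · exact x7.trans hz.symm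
      · exact x8.trans hr.symm
      · exact x9'
      · exact x10'
    · refine km_main h h2 h3 h5 g g' (MvPolynomial.X 9) (MvPolynomial.C P'.th)
        (MvPolynomial.C P'.eta) (MvPolynomial.X 10)
        ![P.al0, P'.al0, P.f0, P'.f0, P'.de0, P'.de1, P'.f1, P'.z, P'.rho, 0, P'.e1]
        rfl rfl rfl rfl rfl rfl rfl rfl rfl
        (by simpa using hrho.symm) (by simp) (by simp)
        (by simp) (fun x hx x0 x1 x2 x3 => ?_)
      obtain ⟨x4, x7, x8, x9, y9, x5, x6, x10⟩ := A _ _ _ _ x hx x0 x1 x2 x3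
      simp only [MvPolynomial.eval_X, MvPolynomial.eval_C] at x9 y9 x5 x6 x10
      have x9' : x 9 = 0 := by
        by_contra h9
        exact hte ⟨(mul_eq_zero.1 x9).resolve_left h9, (mul_eq_zero.1 y9).resolve_left h9⟩
      have x10' : x 10 = P'.e1 := mul_right_cancel₀ hde (by linear_combination x10 - h10)
      funext i
      fin_cases i
      · exact x0.trans h1.1.symm
      · exact x1.trans h1.2.symm
      · exact x2.trans h4.1.symm
      · exact x3.trans h4.2.symm
      · exact x4.trans hd.symm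
      · exact x5.trans hde1.symm
      · exact x6.trans hf1.symm
      · exact x7.trans hz.symm
      · exact x8.trans hr.symm
      · exact x9'
      · exact x10'
  · have hth : P'.th = 0 := (mul_eq_zero.1 ht).resolve_left hrho
    have heta : P'.eta = 0 := (mul_eq_zero.1 he).resolve_left hrho
    refine km_main h h2 h3 h5 g g' (MvPolynomial.C P.rho) (MvPolynomial.X 9) (MvPolynomial.X 10)
      (MvPolynomial.C P'.e1)
      ![P.al0, P'.al0, P.f0, P'.f0, P'.de0, P'.de1, P'.f1, P'.z, P'.rho, 0, 0]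
      rfl rfl rfl rfl rfl rfl rfl rfl rfl
      (by simp) (by simpa using hth.symm) (by simpa using heta.symm)
      (by simp) (fun x hx x0 x1 x2 x3 => ?_)
    obtain ⟨x4, x7, x8, x9, y9, x5, x6, -⟩ := A _ _ _ _ x hx x0 x1 x2 x3
    simp only [MvPolynomial.eval_X, MvPolynomial.eval_C] at x9 y9 x5 x6
    have x9' : x 9 = 0 := (mul_eq_zero.1 x9).resolve_left hrho
    have x10' : x 10 = 0 := (mul_eq_zero.1 y9).resolve_left hrho
    rw [x9'] at x5
    rw [x10'] at x6
    rw [hth] at hde1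
    rw [heta] at hf1
    funext i
    fin_cases i
    · exact x0.trans h1.1.symm
    · exact x1.trans h1.2.symm
    · exact x2.trans h4.1.symm
    · exact x3.trans h4.2.symm
    · exact x4.trans hd.symm
    · exact x5.trans hde1.symm
    · exact x6.trans hf1.symm
    · exact x7.trans hz.symm
    · exact x8.trans hr.symm
    · exact x9'
    · exact x10'

end Pool.Agent.Lib.D13.T4321
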