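import Pool.Agent.Lib.D13.K12
import Pool.Agent.Lib.D13.K13
import Pool.Agent.Lib.D13.K14
import Pool.Agent.Lib.D13.K15

/-!
# MP_5dcbc3_ag: type `(4, 3, 2, 1)`: the type is excluded
-/

set_option autoImplicit false

namespace Pool.Agent.Lib.D13.T4321

open Matrix Pool.Agent.Lib.Q5dc

variable {k : Type*} [Field k] [IsAlgClosed k] [CharZero k] {P P' : Par k}

/-- the dual of `no_ph` -/
theorem h35_no_eta (h : MR P P') (h1 : Zr P P' Par.al0) (h2 : Zr P P' Par.be0)
    (h3 : Zr P P' Par.e0) (h4 : Zr P P' Par.g0) (h5 : Zr P P' Par.zeta) (h6 : Zr P P' Par.f0)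
    (hp : ¬ Zr P P' Par.eta) : False :=
  no_ph h.dual h2 h1 h3 h4 h5 h6 hp

/-- M14 -/
theorem h35_no_zeta_g0 (h : MR P P') (h1 : Zr P P' Par.al0) (h2 : Zr P P' Par.be0)
    (h3 : Zr P P' Par.e0) (h4 : Zr P P' Par.f0) (h5 : Zr P P' Par.rho) (h6 : Zr P P' Par.de0)
    (h7 : Zr P P' Par.ph) (hne : ¬ Zr P P' Par.zeta ∨ ¬ Zr P P' Par.g0) : False :=
  no_rho_de0 h.dual h2 h1 h4 h3 h5 h6 h7 hne

theorem no_f0 (h : MR P P') (h1 : Zr P P' Par.al0) (h2 : Zr P P' Par.be0)
    (hf : ¬ Zr P P' Par.f0) : False :=
  no_e0 h.dual h2 h1 hf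

/-- M15 -/
theorem h35_no_g0 (h : MR P P') (h1 : Zr P P' Par.al0) (h2 : Zr P P' Par.be0)
    (h3 : Zr P P' Par.e0) (h4 : Zr P P' Par.f0) (h5 : Zr P P' Par.zeta) (g : P.g0 = 1)
    (g' : P'.g0 = 0) (hne : ¬ Zr P P' Par.rho ∨ ¬ Zr P P' Par.de0) : False := by
  obtain ⟨Q, Q', hQ, q, q', h6⟩ := krull_C3 h h1 h2 h3 h4 h5 g g' hne
  rcases h6 with h6 | ⟨h6, h7⟩
  · exact no_al0 hQ h6
  · by_cases h8 : Zr Q Q' Par.be0
    · exact no_f0 hQ h6 h8 h7
    · exact no_be0 hQ h8

/-- a pair of scalars that is not zero may be normalised -/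
theorem h35_norm {x y : k} (h : ¬ (x = 0 ∧ y = 0)) :
    ∃ a b c d : k, a * d - b * c ≠ 0 ∧ a * x + b * y = 1 ∧ c * x + d * y = 0 := by
  by_cases hx : x = 0
  · have hy : y ≠ 0 := fun hy => h ⟨hx, hy⟩
    exact ⟨0, y⁻¹, 1, 0, by simp [hy], by simp [hy], by simp [hx]⟩
  · exact ⟨x⁻¹, 0, -y * x⁻¹, 1, by simp [hx], by simp [hx], by field_simp; ring⟩

theorem h35_zr (s : Par k → k) (hs : ∀ (a : k) (Q : Par k) (b : k) (Q' : Par k),
    s (comb a Q b Q') = a * s Q + b * s Q') (h : Zr P P' s) (a b c d : k) :
    Zr (comb a P b P') (comb c P d P') s := by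
  constructor <;> rw [hs, h.1, h.2] <;> ring

/-- M15 without normalisation -/
theorem h35_no_g0' (h : MR P P') (h1 : Zr P P' Par.al0) (h2 : Zr P P' Par.be0)
    (h3 : Zr P P' Par.e0) (h4 : Zr P P' Par.f0) (h5 : Zr P P' Par.zeta)
    (hg : ¬ Zr P P' Par.g0) (hne : ¬ Zr P P' Par.rho ∨ ¬ Zr P P' Par.de0) : False := by
  obtain ⟨a, b, c, d, hd, e1, e2⟩ := h35_norm hg
  have hinv : ∀ x y : k, a * x + b * y = 0 ∧ c * x + d * y = 0 → x = 0 ∧ y = 0 := by
    rintro x y ⟨u1, u2⟩
    constructor
    · have : (a * d - b * c) * x = 0 := by linear_combination d * u1 - b * u2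
      exact (mul_eq_zero.1 this).resolve_left hd
    · have : (a * d - b * c) * y = 0 := by linear_combination a * u2 - c * u1
      exact (mul_eq_zero.1 this).resolve_left hd
  refine h35_no_g0 (h.gl a b c d hd) (h35_zr _ (fun _ _ _ _ => rfl) h1 a b c d)
    (h35_zr _ (fun _ _ _ _ => rfl) h2 a b c d) (h35_zr _ (fun _ _ _ _ => rfl) h3 a b c d)
    (h35_zr _ (fun _ _ _ _ => rfl) h4 a b c d) (h35_zr _ (fun _ _ _ _ => rfl) h5 a b c d)
    e1 e2 ?_
  rcases hne with h6 | h6
  · exact Or.inl fun h7 => h6 (hinv _ _ h7)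
  · exact Or.inr fun h7 => h6 (hinv _ _ h7)

theorem h35_zero_zeta (h : MR P P') (h1 : Zr P P' Par.al0) (h2 : Zr P P' Par.be0)
    (h3 : Zr P P' Par.e0) (h4 : Zr P P' Par.f0) (h5 : Zr P P' Par.zeta) : False := by
  by_cases hr : Zr P P' Par.rho
  · by_cases hg : Zr P P' Par.g0
    · by_cases he : Zr P P' Par.eta
      · by_cases hd : Zr P P' Par.de0
        · by_cases hp : Zr P P' Par.ph
          · obtain ⟨r, r', hne, hrt⟩ : ∃ r r' : k, ¬ (r = 0 ∧ r' = 0) ∧ r' * P.th - r * P'.th = 0 := by
              by_cases ht : Zr P P' Par.th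
              · exact ⟨1, 0, by simp, by rw [ht.1, ht.2]; ring⟩
              · exact ⟨P.th, P'.th, ht, by ring⟩
            obtain ⟨s, hs, h6⟩ := h.move { zero k with rho := r } { zero k with rho := r' }
              (fun s => by
                obtain ⟨r1, r2, r3, r4, r5, r6, r7, r8, r9, r10, r11, r12, r13, r14, r15, r16, r17,
                  r18, r19, r20⟩ := h.rel
                simp only [Br] at *
                constructor <;> simp only [Br, line, zero]
                · linear_combination r1
                · linear_combination r2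
                · linear_combination r3
                · linear_combination r4
                · linear_combination r5
                · linear_combination r6
                · linear_combination r7
                · linear_combination r8 + s * r * hg.2 - s * r' * hg.1
                · linear_combination r9
                · linear_combination r10
                · linear_combination r11
                · linear_combination r12
                · linear_combination r13
                · linear_combination r14 + s * r * h3.2 - s * r' * h3.1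
                · linear_combination r15
                · linear_combination r16 + s * hrt
                · linear_combination r17 + s * r' * he.1 - s * r * he.2
                · linear_combination r18 + s * r' * h5.1 - s * r * h5.2
                · linear_combination r19
                · linear_combination r20) (Set.finite_singleton (0 : k))
            rw [Set.mem_singleton_iff] at hs
            have hz : ∀ t : Par k → k, (∀ (Q Q' : Par k) (s : k), t (line Q Q' s) = t Q + s * t Q') →
                Zr P P' t → t { zero k with rho := r } = 0 → t { zero k with rho := r' } = 0 →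
                Zr (line P { zero k with rho := r } s) (line P' { zero k with rho := r' } s) t := by
              intro t ht h7 h8 h9
              constructor
              · rw [ht, h7.1, h8]; ring
              · rw [ht, h7.2, h9]; ring
            refine no_rho_de0 h6 (hz _ (fun _ _ _ => rfl) h1 rfl rfl)
              (hz _ (fun _ _ _ => rfl) h2 rfl rfl) (hz _ (fun _ _ _ => rfl) h3 rfl rfl)
              (hz _ (fun _ _ _ => rfl) h4 rfl rfl) (hz _ (fun _ _ _ => rfl) h5 rfl rfl)
              (hz _ (fun _ _ _ => rfl) hg rfl rfl) (hz _ (fun _ _ _ => rfl) he rfl rfl)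
              (Or.inl fun h7 => hne ⟨?_, ?_⟩)
            · have := h7.1
              simp only [line, hr.1, zero_add] at this
              exact (mul_eq_zero.1 this).resolve_left hs
            · have := h7.2
              simp only [line, hr.2, zero_add] at this
              exact (mul_eq_zero.1 this).resolve_left hs
          · exact no_ph h h1 h2 h4 hd hr h3 hp
        · exact no_rho_de0 h h1 h2 h3 h4 h5 hg he (Or.inr hd)
      · exact h35_no_eta h h1 h2 h3 hg h5 h4 he
    · by_cases hd : Zr P P' Par.de0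
      · by_cases hp : Zr P P' Par.ph
        · exact h35_no_zeta_g0 h h1 h2 h3 h4 hr hd hp (Or.inr hg)
        · exact no_ph h h1 h2 h4 hd hr h3 hp
      · exact h35_no_g0' h h1 h2 h3 h4 h5 hg (Or.inr hd)
  · by_cases hg : Zr P P' Par.g0
    · by_cases he : Zr P P' Par.eta
      · exact no_rho_de0 h h1 h2 h3 h4 h5 hg he (Or.inl hr)
      · exact h35_no_eta h h1 h2 h3 hg h5 h4 he
    · exact h35_no_g0' h h1 h2 h3 h4 h5 hg (Or.inl hr)

theorem no_zero (h : MR P P') (h1 : Zr P P' Par.al0) (h2 : Zr P P' Par.be0)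
    (h3 : Zr P P' Par.e0) (h4 : Zr P P' Par.f0) : False := by
  rcases h.rk3 with h5 | h5
  · exact h35_zero_zeta h.dual h2 h1 h4 h3 h5
  · exact h35_zero_zeta h h1 h2 h3 h4 h5

/-- the type `(4, 3, 2, 1)` is excluded -/
theorem no_4321 {ρ : ℕ → ℕ} {T : Fin 3 → Matrix (Fin 10) (Fin 10) k} (hT : D7.MaxR ρ T)
    (hρ : ∀ i, ρ i = (J k ^ i).rank) (h0 : T 0 = J k) : False := by
  obtain ⟨P, P', _, _, _, _, _, _, h, -, -⟩ := exists_MR hT hρ h0
  by_cases h1 : Zr P P' Par.al0
  · by_cases h2 : Zr P P' Par.be0
    · by_cases h3 : Zr P P' Par.e0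
      · by_cases h4 : Zr P P' Par.f0
        · exact no_zero h h1 h2 h3 h4
        · exact no_f0 h h1 h2 h4
      · exact no_e0 h h1 h2 h3
    · exact no_be0 h h2
  · exact no_al0 h h1

end Pool.Agent.Lib.D13.T4321
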