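import Pool.Agent.Lib.D13.S4321
import Pool.Agent.Lib.D13.Chain

/-!
# MP_5dcbc3_ag: type `(4, 3, 2, 1)`: the rank conditions

Products of leading coefficients along the cycles of blocks vanish.
-/

set_option autoImplicit false

namespace Pool.Agent.Lib.D13

open Matrix Pool.Agent.Lib.Q5dc Pool.Agent.Lib.D7

section General

variable {k n : Type*} [Field k] [Fintype n] [DecidableEq n] {ρ : ℕ → ℕ}
  {T : Fin 3 → Matrix n n k}

/-- `y s` in the image of `M s` for `s ≠ 0`, the rank of `M s` is at most the rank of `M 0` -/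
theorem im_poly [Infinite k] {M : k → Matrix n n k} {y : k → n → k}
    (hM : ∀ i j, D7.IsPoly fun s => M s i j) (hy : ∀ i, D7.IsPoly fun s => y s i)
    (hr : ∀ s, (M s).rank ≤ (M 0).rank) (h : ∀ s : k, s ≠ 0 → ∃ x, M s *ᵥ x = y s) :
    ∃ x, M 0 *ᵥ x = y 0 := by
  by_contra hy0
  obtain ⟨u, hu, hu0⟩ : ∃ u, M 0 *ᵥ u = 0 ∧ u ≠ 0 := by
    by_contra hno
    push Not at hno
    have hinj : Function.Injective (M 0).mulVecLin := by
      rw [← LinearMap.ker_eq_bot, LinearMap.ker_eq_bot']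
      intro m hm
      exact hno m hm
    obtain ⟨x, hx⟩ := LinearMap.injective_iff_surjective.1 hinj (y 0)
    exact hy0 ⟨x, hx⟩
  obtain ⟨i, hi⟩ : ∃ i, u i ≠ 0 := Function.ne_iff.1 hu0
  have h1 : (M 0).rank + 1 ≤ (M 0 + vecMulVec (y 0) (Pi.single i 1)).rank :=
    CommAux.rank_add_vecMulVec hy0 hu (by simpa using hi)
  have hf := rank_semicont (fun s => M s + vecMulVec (y s) (Pi.single i 1)) (fun x z => by
    have h2 : (fun s => (M s + vecMulVec (y s) (Pi.single i 1)) x z) =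
        fun s => M s x z + y s x * (Pi.single i 1 : n → k) z := by
      funext s
      rw [Matrix.add_apply, vecMulVec_apply]
    rw [h2]
    exact (hM x z).add ((hy x).mul (D7.IsPoly.const _))) 0
  obtain ⟨s, hs⟩ := (hf.union (Set.finite_singleton 0)).exists_notMem
  simp only [Set.mem_union, not_or, Set.mem_ofPred_eq, not_lt, Set.mem_singleton_iff] at hs
  obtain ⟨x, hx⟩ := h s hs.2
  have e : M s + vecMulVec (y s) (Pi.single i 1) =
      M s * (1 + vecMulVec x (Pi.single i 1)) := by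
    rw [mul_add, mul_one, mul_vecMulVec, hx]
  have h2 : (M s + vecMulVec (y s) (Pi.single i 1)).rank ≤ (M s).rank := by
    rw [e]
    exact rank_mul_le_left _ _
  have h3 := hr s
  have h4 := hs.1
  omega

/-- `A a_0 = 0`, `X a_i = A a_(i+1)` for `i < l` imply `X a_l ∈ im A` -/
theorem MaxR.chain [Infinite k] (hT : MaxR ρ T) {A X : Matrix n n k} (hA : A ∈ adj T)
    (hr : A.rank = ρ 1) (hX : X ∈ adj T) (l : ℕ) (a : ℕ → n → k) (ha : A *ᵥ a 0 = 0)
    (h : ∀ i < l, X *ᵥ a i = A *ᵥ a (i + 1)) : ∃ x, A *ᵥ x = X *ᵥ a l := by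
  refine MaxR.im_line hT hA hr hX fun s hs => ?_
  have key : ∀ j ≤ l, ∃ x, (A + s • X) *ᵥ x = X *ᵥ a j := by
    intro j
    induction j with
    | zero =>
      intro _
      refine ⟨s⁻¹ • a 0, ?_⟩
      rw [mulVec_smul, add_mulVec, ha, smul_mulVec, zero_add, smul_smul, inv_mul_cancel₀ hs,
        one_smul]
    | succ j ih =>
      intro hj
      obtain ⟨x, hx⟩ := ih (by omega)
      refine ⟨s⁻¹ • (a (j + 1) - x), ?_⟩
      rw [mulVec_smul, mulVec_sub, hx, h j (by omega), add_mulVec, smul_mulVec,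
        add_sub_cancel_left, smul_smul, inv_mul_cancel₀ hs, one_smul]
  exact key l le_rfl

/-- fourth powers vanish: `A ^ 2 X ^ 2 = 0`, `A X ^ 3 = 0` -/
theorem MaxR.mul4 [CharZero k] (hT : MaxR ρ T) (h4 : ρ 4 = 0) {A X : Matrix n n k}
    (hA : A ∈ adj T) (hX : X ∈ adj T) : A * A * X * X = 0 ∧ A * X * X * X = 0 := by
  haveI : Infinite k := Infinite.of_injective (Nat.cast : ℕ → k) Nat.cast_injective
  have hc : X * A = A * X := hT.cn.comm hX hA
  have p4 : ∀ {Y : Matrix n n k}, Y ∈ adj T → Y * Y * Y * Y = 0 := by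
    intro Y hY
    have h := hT.pow_eq_zero hY h4
    rw [← h]
    noncomm_ring
  have hex : ∀ s : k, (A + s • X) * (A + s • X) * (A + s • X) * (A + s • X) =
      A * A * A * A + (4 * s) • (A * A * A * X) + (6 * s ^ 2) • (A * A * X * X) +
      (4 * s ^ 3) • (A * X * X * X) + s ^ 4 • (X * X * X * X) := by
    intro s
    have hc' : ∀ Z : Matrix n n k, X * (A * Z) = A * (X * Z) := by
      intro Z
      rw [← mul_assoc, hc, mul_assoc]
    simp only [mul_add, add_mul, smul_mul_assoc, mul_smul_comm, mul_assoc, hc, hc', smul_add,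
      smul_smul]
    module
  have hz : ∀ s : k, (6 * s ^ 2) • (A * A * X * X) + (4 * s ^ 3) • (A * X * X * X) +
      (4 * s) • (A * A * A * X) = 0 := by
    intro s
    have h1 := hex s
    rw [p4 (add_mem hA (SMulMemClass.smul_mem s hX)), p4 hA, p4 hX] at h1
    rw [smul_zero, add_zero, zero_add] at h1
    rw [h1]
    abel
  have z1 := hz 1
  have z2 := hz (-1)
  have z3 := hz 2
  have e1 : (12 : k) • (A * A * X * X) = 0 := by
    have : (12 : k) • (A * A * X * X) =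
        ((6 * (1 : k) ^ 2) • (A * A * X * X) + (4 * (1 : k) ^ 3) • (A * X * X * X) +
        (4 * (1 : k)) • (A * A * A * X)) +
        ((6 * (-1 : k) ^ 2) • (A * A * X * X) + (4 * (-1 : k) ^ 3) • (A * X * X * X) +
        (4 * (-1 : k)) • (A * A * A * X)) := by module
    rw [this, z1, z2, add_zero]
  have e2 : A * A * X * X = 0 := (smul_eq_zero.1 e1).resolve_left (by norm_num)
  rw [e2, smul_zero, zero_add] at z1 z3
  have e3 : (24 : k) • (A * X * X * X) = 0 := by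
    have : (24 : k) • (A * X * X * X) = ((4 * (2 : k) ^ 3) • (A * X * X * X) +
        (4 * (2 : k)) • (A * A * A * X)) - (2 : k) • ((4 * (1 : k) ^ 3) • (A * X * X * X) +
        (4 * (1 : k)) • (A * A * A * X)) := by module
    rw [this, z1, z3, smul_zero, sub_zero]
  exact ⟨e2, (smul_eq_zero.1 e3).resolve_left (by norm_num)⟩

end General

namespace T4321

variable {k : Type*} [Field k] {ρ : ℕ → ℕ} {P P' : Par k}

/-- the rank conditions for one matrix -/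
structure RQ (Q : Par k) : Prop where
  c1 : Q.al0 * Q.be0 = 0
  c2 : Q.rho * Q.zeta = 0
  c3 : Q.e0 * Q.f0 = 0
  c4 : Q.al0 * Q.e0 * Q.de0 = 0
  c5 : Q.g0 * Q.f0 * Q.be0 = 0
  c6 : Q.e0 * Q.rho * Q.eta = 0
  c7 : Q.ph * Q.zeta * Q.f0 = 0
  c8 : Q.al0 * Q.e0 * Q.rho * Q.th = 0
  c9 : Q.al0 * Q.ph * Q.zeta * Q.de0 = 0
  c10 : Q.g0 * Q.rho * Q.eta * Q.be0 = 0
  c11 : Q.pi * Q.zeta * Q.f0 * Q.be0 = 0

theorem actJ_im {m y : Fin 10 → k} (h : actJ m = y) : y 0 = 0 ∧ y 1 = 0 ∧ y 2 = 0 ∧ y 5 = 0 := by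
  rw [← h]
  exact ⟨rfl, rfl, rfl, rfl⟩

theorem rq_of [CharZero k] {T : Fin 3 → Matrix (Fin 10) (Fin 10) k} (hT : MaxR ρ T)
    (hρ : ∀ i, ρ i = (J k ^ i).rank) (hJ : J k ∈ adj T) {Q : Par k} (hQ : X Q ∈ adj T) :
    RQ Q := by
  haveI : Infinite k := Infinite.of_injective (Nat.cast : ℕ → k) Nat.cast_injective
  have hr1 : (J k).rank = ρ 1 := by rw [hρ, pow_one]
  have hJ4 : J k ^ 4 = 0 := by
    refine ext_mulVec fun m => ?_
    rw [pow_succ, pow_succ, pow_two, ← mulVec_mulVec, ← mulVec_mulVec, ← mulVec_mulVec, J_mulVec,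
      J_mulVec, J_mulVec, J_mulVec]
    funext i
    fin_cases i <;> simp [actJ]
  have h4 : ρ 4 = 0 := by rw [hρ, hJ4, Matrix.rank_zero]
  obtain ⟨m1, m2⟩ := MaxR.mul4 hT h4 hJ hQ
  have c1 : Q.al0 * Q.be0 = 0 := by
    have h := congrFun (congrArg (fun M : Matrix (Fin 10) (Fin 10) k =>
      M *ᵥ ![1, 0, 0, 0, 0, 0, 0, 0, 0, 0]) m1) 9
    simp only [← mulVec_mulVec, J_mulVec, X_mulVec] at h
    simp [act, actJ] at h
    rcases h with h | h <;> simp [h]
  have c45 : Q.al0 * Q.e0 * Q.de0 + Q.g0 * Q.f0 * Q.be0 = 0 := by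
    have h := congrFun (congrArg (fun M : Matrix (Fin 10) (Fin 10) k =>
      M *ᵥ ![1, 0, 0, 0, 0, 0, 0, 0, 0, 0]) m2) 9
    simp only [← mulVec_mulVec, J_mulVec, X_mulVec] at h
    simp [act, actJ] at h
    linear_combination h - Q.q1 * c1
  -- the chain starting at `p`
  set a : ℕ → Fin 10 → k := fun i => match i with
    | 0 => ![0, 0, 0, 0, 0, 1, 0, 0, 0, 0]
    | 1 => ![0, 0, Q.zeta, 0, Q.eta, 0, 0, Q.th, 0, 0]
    | 2 => ![0, Q.f0 * Q.zeta, Q.z * Q.zeta + Q.e0 * Q.eta, Q.de0 * Q.zeta + Q.be0 * Q.eta,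
        Q.f1 * Q.zeta + Q.q1 * Q.eta + Q.al0 * Q.th, 0, 0, Q.de1 * Q.zeta + Q.be1 * Q.eta, 0, 0]
    | _ => ![Q.be0 * Q.f0 * Q.zeta,
        Q.q1 * Q.f0 * Q.zeta + Q.f0 * (Q.z * Q.zeta + Q.e0 * Q.eta) +
          Q.al0 * (Q.de0 * Q.zeta + Q.be0 * Q.eta),
        Q.e1 * Q.f0 * Q.zeta + Q.z * (Q.z * Q.zeta + Q.e0 * Q.eta) +
          Q.g0 * (Q.de0 * Q.zeta + Q.be0 * Q.eta) +
          Q.e0 * (Q.f1 * Q.zeta + Q.q1 * Q.eta + Q.al0 * Q.th),
        Q.be1 * Q.f0 * Q.zeta + Q.de0 * (Q.z * Q.zeta + Q.e0 * Q.eta) +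
          Q.be0 * (Q.f1 * Q.zeta + Q.q1 * Q.eta + Q.al0 * Q.th),
        Q.q2 * Q.f0 * Q.zeta + Q.f1 * (Q.z * Q.zeta + Q.e0 * Q.eta) +
          Q.al1 * (Q.de0 * Q.zeta + Q.be0 * Q.eta) +
          Q.q1 * (Q.f1 * Q.zeta + Q.q1 * Q.eta + Q.al0 * Q.th) +
          Q.al0 * (Q.de1 * Q.zeta + Q.be1 * Q.eta), 0, 0,
        Q.be2 * Q.f0 * Q.zeta + Q.de1 * (Q.z * Q.zeta + Q.e0 * Q.eta) +
          Q.be1 * (Q.f1 * Q.zeta + Q.q1 * Q.eta + Q.al0 * Q.th), 0, 0] with ha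
  have h0 : J k *ᵥ a 0 = 0 := by
    rw [J_mulVec]
    funext i
    fin_cases i <;> simp [actJ, ha]
  have s0 : X Q *ᵥ a 0 = J k *ᵥ a 1 := by
    rw [J_mulVec, X_mulVec]
    funext i
    fin_cases i <;> simp [actJ, act, ha]
  have c2 : Q.rho * Q.zeta = 0 := by
    obtain ⟨x, hx⟩ := MaxR.chain hT hJ hr1 hQ 1 a h0 (by
      intro i hi
      obtain rfl : i = 0 := by omega
      exact s0)
    rw [J_mulVec, X_mulVec] at hx
    have h := (actJ_im hx).2.2.2
    simp [act, ha] at h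
    rcases h with h | h <;> simp [h]
  have s1 : X Q *ᵥ a 1 = J k *ᵥ a 2 := by
    rw [J_mulVec, X_mulVec]
    funext i
    fin_cases i <;> simp [actJ, act, ha]
    all_goals first | exact (mul_eq_zero.1 c2) | ring
  obtain ⟨c67, c3⟩ : Q.ph * Q.zeta * Q.f0 + Q.e0 * Q.rho * Q.eta = 0 ∧
      Q.e0 * Q.f0 * Q.zeta = 0 := by
    obtain ⟨x, hx⟩ := MaxR.chain hT hJ hr1 hQ 2 a h0 (by
      intro i hi
      interval_cases i
      · exact s0
      · exact s1)
    rw [J_mulVec, X_mulVec] at hx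
    obtain ⟨-, -, h1, h2⟩ := actJ_im hx
    simp [act, ha] at h1 h2
    constructor
    · linear_combination h2 - Q.z * c2
    · rcases h1 with h1 | h1 | h1 <;> simp [h1]
  have s2 : X Q *ᵥ a 2 = J k *ᵥ a 3 := by
    rw [J_mulVec, X_mulVec]
    funext i
    fin_cases i <;> simp [actJ, act, ha]
    · rcases mul_eq_zero.1 c3 with h | h
      · rcases mul_eq_zero.1 h with h | h
        · exact Or.inl h
        · exact Or.inr (Or.inl h)
      · exact Or.inr (Or.inr h)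
    all_goals first | ring1 | linear_combination c67 + Q.z * c2
  -- the square
  have c3' : Q.e0 * Q.f0 = 0 := by
    obtain ⟨w, hw⟩ : ∃ w : Fin 10 → k, w = ![0, 0, 1, 0, 0, 0, 0, 0, 0, 0] := ⟨_, rfl⟩
    obtain ⟨c, hc⟩ : ∃ c : Fin 10 → k, c = ![0, Q.f0, 0, Q.de0, 0, 0, 0, 0, 0, 0] := ⟨_, rfl⟩
    have e1 : J k *ᵥ (J k *ᵥ w) = 0 := by
      rw [J_mulVec, J_mulVec, hw]
      funext i
      fin_cases i <;> simp [actJ]
    have e2 : J k *ᵥ (X Q *ᵥ w) = J k *ᵥ (J k *ᵥ c) := by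
      rw [J_mulVec, J_mulVec, J_mulVec, X_mulVec, hw, hc]
      funext i
      fin_cases i <;> simp [actJ, act]
    have e3 : ∀ v, X Q *ᵥ (J k *ᵥ v) = J k *ᵥ (X Q *ᵥ v) := fun v => by
      rw [mulVec_mulVec, mulVec_mulVec, J_comm]
    obtain ⟨x, hx⟩ := im_poly (M := fun s => (J k + s • X Q) ^ 2)
      (y := fun s => X Q *ᵥ (X Q *ᵥ w) - (4 : k) • (J k *ᵥ (X Q *ᵥ c)) +
        s • ((-2 : k) • (X Q *ᵥ (X Q *ᵥ c)))) (isPoly_pow (isPoly_line _ _) 2)
      (fun i => (D7.IsPoly.const _).add (D7.IsPoly.id.mul (D7.IsPoly.const _))) (fun s => by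
        rw [zero_smul, add_zero, ← hρ]
        exact hT.rank_le (add_mem hJ (SMulMemClass.smul_mem s hQ)) 2) (by
        intro s hs
        refine ⟨(s⁻¹ * s⁻¹) • (w - (2 * s) • c), ?_⟩
        have h5 : (J k + s • X Q) ^ 2 *ᵥ (w - (2 * s) • c) = (s * s) •
            (X Q *ᵥ (X Q *ᵥ w) - (4 : k) • (J k *ᵥ (X Q *ᵥ c)) +
              s • ((-2 : k) • (X Q *ᵥ (X Q *ᵥ c)))) := by
          rw [pow_two, ← mulVec_mulVec]
          simp only [add_mulVec, mulVec_sub, mulVec_add, smul_mulVec, mulVec_smul, e3, e1, e2]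
          module
        rw [mulVec_smul, h5, smul_smul]
        have : s⁻¹ * s⁻¹ * (s * s) = 1 := by field_simp
        rw [this, one_smul])
    have h6 := congrFun hx 6
    simp only [zero_smul, add_zero, pow_two, ← mulVec_mulVec, J_mulVec, X_mulVec, hw, hc] at h6
    simp [act, actJ] at h6
    have h7 : (3 : k) * (Q.e0 * Q.f0) = 0 := by linear_combination h6 + c2
    exact (mul_eq_zero.1 h7).resolve_left (by norm_num)
  have c8 : Q.pi * Q.zeta * Q.f0 * Q.be0 + Q.al0 * Q.ph * Q.zeta * Q.de0 +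
      Q.g0 * Q.rho * Q.eta * Q.be0 + Q.al0 * Q.e0 * Q.rho * Q.th = 0 := by
    obtain ⟨x, hx⟩ := MaxR.chain hT hJ hr1 hQ 3 a h0 (by
      intro i hi
      interval_cases i
      · exact s0
      · exact s1
      · exact s2)
    rw [J_mulVec, X_mulVec] at hx
    obtain ⟨-, -, -, h2⟩ := actJ_im hx
    simp [act, ha] at h2
    linear_combination h2 - (Q.q1 + Q.z) * c67 -
      (Q.e1 * Q.f0 + Q.z * Q.z + Q.g0 * Q.de0 + Q.e0 * Q.f1) * c2 - Q.ph * Q.eta * c1 -
      (Q.ph * Q.eta) * c3'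
  clear_value a
  clear hJ4 h4 m1 m2 s0 s1 s2 h0 hr1
  refine ⟨c1, c2, c3', ?_, ?_, ?_, ?_, ?_, ?_, ?_, ?_⟩ <;> grind

/-! ### the pencil -/

theorem form1 {c c' : k} (hc : Polynomial.C c + Polynomial.X * Polynomial.C c' = 0) :
    c = 0 ∧ c' = 0 := by
  have h0 := congrArg (fun p => Polynomial.coeff p 0) hc
  have h1 := congrArg (fun p => Polynomial.coeff p 1) hc
  simp at h0 h1
  exact ⟨h0, by simpa [Polynomial.coeff_C] using h1⟩

theorem forms2 [Infinite k] {a a' b b' : k} (h : ∀ t : k, (a + t * a') * (b + t * b') = 0) :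
    (a = 0 ∧ a' = 0) ∨ (b = 0 ∧ b' = 0) := by
  have hp : (Polynomial.C a + Polynomial.X * Polynomial.C a') *
      (Polynomial.C b + Polynomial.X * Polynomial.C b') = 0 := by
    refine Polynomial.funext fun t => ?_
    simp only [Polynomial.eval_mul, Polynomial.eval_add, Polynomial.eval_C, Polynomial.eval_X,
      Polynomial.eval_zero]
    exact h t
  rcases mul_eq_zero.1 hp with h | h
  · exact Or.inl (form1 h)
  · exact Or.inr (form1 h)

theorem forms3 [Infinite k] {a a' b b' c c' : k}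
    (h : ∀ t : k, (a + t * a') * (b + t * b') * (c + t * c') = 0) :
    (a = 0 ∧ a' = 0) ∨ (b = 0 ∧ b' = 0) ∨ (c = 0 ∧ c' = 0) := by
  have hp : (Polynomial.C a + Polynomial.X * Polynomial.C a') *
      (Polynomial.C b + Polynomial.X * Polynomial.C b') *
      (Polynomial.C c + Polynomial.X * Polynomial.C c') = 0 := by
    refine Polynomial.funext fun t => ?_
    simp only [Polynomial.eval_mul, Polynomial.eval_add, Polynomial.eval_C, Polynomial.eval_X,
      Polynomial.eval_zero]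
    exact h t
  rcases mul_eq_zero.1 hp with h | h
  · rcases mul_eq_zero.1 h with h | h
    · exact Or.inl (form1 h)
    · exact Or.inr (Or.inl (form1 h))
  · exact Or.inr (Or.inr (form1 h))

theorem forms4 [Infinite k] {a a' b b' c c' d d' : k}
    (h : ∀ t : k, (a + t * a') * (b + t * b') * (c + t * c') * (d + t * d') = 0) :
    (a = 0 ∧ a' = 0) ∨ (b = 0 ∧ b' = 0) ∨ (c = 0 ∧ c' = 0) ∨ (d = 0 ∧ d' = 0) := by
  have hp : (Polynomial.C a + Polynomial.X * Polynomial.C a') *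
      (Polynomial.C b + Polynomial.X * Polynomial.C b') *
      (Polynomial.C c + Polynomial.X * Polynomial.C c') *
      (Polynomial.C d + Polynomial.X * Polynomial.C d') = 0 := by
    refine Polynomial.funext fun t => ?_
    simp only [Polynomial.eval_mul, Polynomial.eval_add, Polynomial.eval_C, Polynomial.eval_X,
      Polynomial.eval_zero]
    exact h t
  rcases mul_eq_zero.1 hp with h | h
  · rcases mul_eq_zero.1 h with h | h
    · rcases mul_eq_zero.1 h with h | h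
      · exact Or.inl (form1 h)
      · exact Or.inr (Or.inl (form1 h))
    · exact Or.inr (Or.inr (Or.inl (form1 h)))
  · exact Or.inr (Or.inr (Or.inr (form1 h)))

/-- the rank conditions for the pencil -/
structure RP (P P' : Par k) : Prop where
  c1 : Zr P P' Par.al0 ∨ Zr P P' Par.be0
  c2 : Zr P P' Par.rho ∨ Zr P P' Par.zeta
  c3 : Zr P P' Par.e0 ∨ Zr P P' Par.f0
  c4 : Zr P P' Par.al0 ∨ Zr P P' Par.e0 ∨ Zr P P' Par.de0
  c5 : Zr P P' Par.g0 ∨ Zr P P' Par.f0 ∨ Zr P P' Par.be0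
  c6 : Zr P P' Par.e0 ∨ Zr P P' Par.rho ∨ Zr P P' Par.eta
  c7 : Zr P P' Par.ph ∨ Zr P P' Par.zeta ∨ Zr P P' Par.f0
  c8 : Zr P P' Par.al0 ∨ Zr P P' Par.e0 ∨ Zr P P' Par.rho ∨ Zr P P' Par.th
  c9 : Zr P P' Par.al0 ∨ Zr P P' Par.ph ∨ Zr P P' Par.zeta ∨ Zr P P' Par.de0
  c10 : Zr P P' Par.g0 ∨ Zr P P' Par.rho ∨ Zr P P' Par.eta ∨ Zr P P' Par.be0
  c11 : Zr P P' Par.pi ∨ Zr P P' Par.zeta ∨ Zr P P' Par.f0 ∨ Zr P P' Par.be0

theorem MaxR.rp [CharZero k] (hT : MaxR ρ ![J k, X P, X P']) (hρ : ∀ i, ρ i = (J k ^ i).rank) :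
    RP P P' := by
  have : Infinite k := Infinite.of_injective (Nat.cast : ℕ → k) Nat.cast_injective
  have h : ∀ t : k, RQ (line P P' t) := by
    intro t
    refine rq_of hT hρ (D8.mem0 _ _ _) ?_
    rw [← X_line]
    exact add_mem (D8.mem1 _ _ _) (SMulMemClass.smul_mem t (D8.mem2 _ _ _))
  exact ⟨forms2 fun t => (h t).c1, forms2 fun t => (h t).c2, forms2 fun t => (h t).c3,
    forms3 fun t => (h t).c4, forms3 fun t => (h t).c5, forms3 fun t => (h t).c6,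
    forms3 fun t => (h t).c7, forms4 fun t => (h t).c8, forms4 fun t => (h t).c9,
    forms4 fun t => (h t).c10, forms4 fun t => (h t).c11⟩

theorem MR.rp [CharZero k] (h : MR P P') : RP P P' := MaxR.rp h fun _ => rfl

theorem MR.rk1 [CharZero k] (h : MR P P') : Zr P P' Par.al0 ∨ Zr P P' Par.be0 := h.rp.c1

theorem MR.rk2 [CharZero k] (h : MR P P') : Zr P P' Par.e0 ∨ Zr P P' Par.f0 := h.rp.c3

theorem MR.rk3 [CharZero k] (h : MR P P') : Zr P P' Par.rho ∨ Zr P P' Par.zeta := h.rp.c2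

theorem MR.rk4 [CharZero k] (h : MR P P') :
    Zr P P' Par.al0 ∨ Zr P P' Par.e0 ∨ Zr P P' Par.de0 := h.rp.c4

theorem MR.rk5 [CharZero k] (h : MR P P') :
    Zr P P' Par.g0 ∨ Zr P P' Par.f0 ∨ Zr P P' Par.be0 := h.rp.c5

theorem MR.rk6 [CharZero k] (h : MR P P') :
    Zr P P' Par.e0 ∨ Zr P P' Par.rho ∨ Zr P P' Par.eta := h.rp.c6

theorem MR.rk7 [CharZero k] (h : MR P P') :
    Zr P P' Par.ph ∨ Zr P P' Par.zeta ∨ Zr P P' Par.f0 := h.rp.c7

theorem MR.rk8 [CharZero k] (h : MR P P') :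
    Zr P P' Par.al0 ∨ Zr P P' Par.e0 ∨ Zr P P' Par.rho ∨ Zr P P' Par.th := h.rp.c8

theorem MR.rk9 [CharZero k] (h : MR P P') :
    Zr P P' Par.al0 ∨ Zr P P' Par.ph ∨ Zr P P' Par.zeta ∨ Zr P P' Par.de0 := h.rp.c9

theorem MR.rk10 [CharZero k] (h : MR P P') :
    Zr P P' Par.g0 ∨ Zr P P' Par.rho ∨ Zr P P' Par.eta ∨ Zr P P' Par.be0 := h.rp.c10

theorem MR.rk11 [CharZero k] (h : MR P P') :
    Zr P P' Par.pi ∨ Zr P P' Par.zeta ∨ Zr P P' Par.f0 ∨ Zr P P' Par.be0 := h.rp.c11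

end T4321

end Pool.Agent.Lib.D13
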