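import Pool.Agent.Lib.D13.U4321
import Pool.Agent.Lib.D13.R4321
import Pool.Agent.Lib.D13.F4

/-!
# MP_5dcbc3_ag: type `(4, 3, 2, 1)`: case B after base changes
-/

set_option autoImplicit false

namespace Pool.Agent.Lib.D13.T4321

open Matrix Pool.Agent.Lib.Q5dc

variable {k : Type*} [Field k] [IsAlgClosed k] [CharZero k] {P P' : Par k}

/-- case B of B4321 with the family F4 as a hypothesis -/
theorem MR.kf_of (HF4 : ∀ Q Q' : Par k, MR Q Q' → CB Q Q' → (Q.al0 ≠ 0 ∨ Q'.al0 ≠ 0) →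
      Zr Q Q' Par.e0 → Zr Q Q' Par.be0 → Zr Q Q' Par.f0 → Zr Q Q' Par.de0 → False)
    (h : MR P P') (hrho : Zr P P' Par.rho) (c₁ c₂ : k)
    (hph : P.ph = c₂ * P.e0 ∧ P'.ph = c₂ * P'.e0)
    (hpi : P.pi = c₁ * P.al0 + c₂ * P.g0 ∧ P'.pi = c₁ * P'.al0 + c₂ * P'.g0)
    (hne : ¬ Zr P P' Par.al0 ∨ ¬ Zr P P' Par.be0 ∨ ¬ Zr P P' Par.f0) : False := by
  have h2 := (h.wp c₂).up c₁
  have hcb : CB ((P.wp c₂).up c₁) ((P'.wp c₂).up c₁) := by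
    constructor
    · show P.pi - c₂ * P.g0 - c₁ * P.al0 = 0
      rw [hpi.1]; ring
    · show P.ph - c₂ * P.e0 = 0
      rw [hph.1]; ring
    · exact hrho.1
    · show P'.pi - c₂ * P'.g0 - c₁ * P'.al0 = 0
      rw [hpi.2]; ring
    · show P'.ph - c₂ * P'.e0 = 0
      rw [hph.2]; ring
    · exact hrho.2
  have hor : ∀ a b : k, ¬ (a = 0 ∧ b = 0) → a ≠ 0 ∨ b ≠ 0 := by
    intro a b h
    by_cases ha : a = 0
    · exact Or.inr fun hb => h ⟨ha, hb⟩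
    · exact Or.inl ha
  refine caseB h2 (by simp) hcb ⟨h2.rk1, h2.rk2, h2.rk4⟩ ?_ ?_
  · rcases hne with h | h | h
    · exact Or.inl (hor _ _ h)
    · exact Or.inr (Or.inl (hor _ _ h))
    · exact Or.inr (Or.inr (hor _ _ h))
  · intro ha e e' b b' f f' d d'
    exact HF4 _ _ h2 hcb ha ⟨e, e'⟩ ⟨b, b'⟩ ⟨f, f'⟩ ⟨d, d'⟩

theorem h35_J4 : (J k ^ 4).rank = 0 := by
  have h : J k ^ 4 = 0 := by
    refine ext_mulVec fun m => ?_
    rw [pow_succ, pow_succ, pow_succ, pow_one, Matrix.zero_mulVec, ← mulVec_mulVec, ← mulVec_mulVec,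
      ← mulVec_mulVec, J_mulVec, J_mulVec, J_mulVec, J_mulVec]
    funext i
    fin_cases i <;> rfl
  rw [h, Matrix.rank_zero]

theorem MR.kf (h : MR P P') (hrho : Zr P P' Par.rho) (c₁ c₂ : k)
    (hph : P.ph = c₂ * P.e0 ∧ P'.ph = c₂ * P'.e0)
    (hpi : P.pi = c₁ * P.al0 + c₂ * P.g0 ∧ P'.pi = c₁ * P'.al0 + c₂ * P'.g0)
    (hne : ¬ Zr P P' Par.al0 ∨ ¬ Zr P P' Par.be0 ∨ ¬ Zr P P' Par.f0) : False := by
  refine h.kf_of (fun Q Q' hQ hp ha e b f d => ?_) hrho c₁ c₂ hph hpi hne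
  exact no_F4 hQ h35_J4 hp ha e.1 e.2 b.1 b.2 f.1 f.2 d.1 d.2

end Pool.Agent.Lib.D13.T4321
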