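import Pool.Agent.Lib.D13.K1
import Pool.Agent.Lib.D13.V4321

/-!
# MP_5dcbc3_ag: type `(4, 3, 2, 1)`: `al0 ≠ 0`, `e0 ≠ 0`
-/

set_option autoImplicit false

namespace Pool.Agent.Lib.D13.T4321

open Matrix Pool.Agent.Lib.Q5dc

variable {k : Type*} [Field k] [IsAlgClosed k] [CharZero k] {P P' : Par k}

/-- a change of the basis, described for the second matrix only -/
theorem MR.base_ex {k : Type*} [Field k] {P P' : Par k} (h : MR P P') (Q R : Par k) (c : Fin 3 → k)
    (h1 : ∀ m, pol c m + act R m + act Q (pol c m + act R m) = act P m + act P (act Q m)) :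
    ∃ (R' : Par k) (c' : Fin 3 → k), MR R R' ∧
      ∀ m, pol c' m + act R' m + act Q (pol c' m + act R' m) = act P' m + act P' (act Q m) := by
  obtain ⟨g, hg, hh⟩ : ∃ g : Matrix (Fin 10) (Fin 10) k, (1 + X Q) * g = 1 ∧ g * (1 + X Q) = 1 := by
    obtain ⟨u, hu⟩ := (X_nil Q).isUnit_one_add
    exact ⟨(↑u⁻¹ : Matrix (Fin 10) (Fin 10) k), by rw [← hu]; exact u.mul_inv,
      by rw [← hu]; exact u.inv_mul⟩
  have hJ : J k * (1 + X Q) = (1 + X Q) * J k := by
    rw [mul_add, add_mul, mul_one, one_mul, J_comm]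
  have hJ' : J k * g = g * J k := by
    calc J k * g = (g * (1 + X Q)) * J k * g := by rw [hh, one_mul]
      _ = g * ((1 + X Q) * J k) * g := by rw [mul_assoc g]
      _ = g * (J k * (1 + X Q)) * g := by rw [hJ]
      _ = g * J k * ((1 + X Q) * g) := by rw [mul_assoc, mul_assoc, mul_assoc]
      _ = _ := by rw [hg, mul_one]
  have hB : J k * X P' = X P' * J k := J_comm P'
  obtain ⟨R', c', hR⟩ := h14_shape (B := g * X P' * (1 + X Q)) (by
    calc J k * (g * X P' * (1 + X Q)) = (J k * g) * X P' * (1 + X Q) := by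
          rw [mul_assoc, mul_assoc, mul_assoc]
      _ = g * (J k * X P') * (1 + X Q) := by rw [hJ', mul_assoc g]
      _ = g * X P' * (J k * (1 + X Q)) := by rw [hB, mul_assoc, mul_assoc, mul_assoc]
      _ = _ := by rw [hJ, mul_assoc, mul_assoc, mul_assoc]) (by
    have h3 := (D7.MaxR.conj h g (1 + X Q) hh hg).cn.2 2
    exact h3)
  have h2 : ∀ m, pol c' m + act R' m + act Q (pol c' m + act R' m) =
      act P' m + act P' (act Q m) := by
    intro m
    have h4 : (1 + X Q) * (PJ c' + X R') = X P' * (1 + X Q) := by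
      rw [← hR, ← mul_assoc, ← mul_assoc, hg, one_mul]
    have h5 := congrArg (fun M => M *ᵥ m) h4
    simp only [← mulVec_mulVec, add_mulVec, one_mulVec, PJ_mulVec, X_mulVec] at h5
    rw [h5, ← X_mulVec P', mulVec_add, X_mulVec, X_mulVec]
  exact ⟨R', c', MaxR.base h Q R R' c c' h1 h2, h2⟩

theorem h35_ext {k : Type*} {P Q : Par k} (al0 : P.al0 = Q.al0) (al1 : P.al1 = Q.al1)
    (al2 : P.al2 = Q.al2) (g0 : P.g0 = Q.g0) (g1 : P.g1 = Q.g1) (pi : P.pi = Q.pi)
    (be0 : P.be0 = Q.be0) (be1 : P.be1 = Q.be1) (be2 : P.be2 = Q.be2) (q1 : P.q1 = Q.q1)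
    (q2 : P.q2 = Q.q2) (e0 : P.e0 = Q.e0) (e1 : P.e1 = Q.e1) (ph : P.ph = Q.ph)
    (de0 : P.de0 = Q.de0) (de1 : P.de1 = Q.de1) (f0 : P.f0 = Q.f0) (f1 : P.f1 = Q.f1)
    (z : P.z = Q.z) (rho : P.rho = Q.rho) (th : P.th = Q.th) (eta : P.eta = Q.eta)
    (zeta : P.zeta = Q.zeta) : P = Q := by
  obtain ⟨a1, a2, a3, a4, a5, a6, a7, a8, a9, a10, a11, a12, a13, a14, a15, a16, a17, a18, a19,
    a20, a21, a22, a23⟩ := P
  obtain ⟨b1, b2, b3, b4, b5, b6, b7, b8, b9, b10, b11, b12, b13, b14, b15, b16, b17, b18, b19,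
    b20, b21, b22, b23⟩ := Q
  simp only at al0 al1 al2 g0 g1 pi be0 be1 be2 q1 q2 e0 e1 ph de0 de1 f0 f1 z rho th eta zeta
  subst al0 al1 al2 g0 g1 pi be0 be1 be2 q1 q2 e0 e1 ph de0 de1 f0 f1 z rho th eta zeta
  rfl

/-- `C` minus a combination of `A B`, `A ^ 2 B`, `B ^ 2`, `A B ^ 2` -/
def h35_sub (z f₁ de₁ : k) (P' : Par k) : Par k :=
  { P' with
    al1 := 0
    al2 := 0
    g0 := 0
    g1 := 0
    e1 := P'.e1 - P'.g0 * z - P'.al1
    q2 := P'.q2 - P'.g0 * f₁
    be2 := P'.be2 - P'.g0 * de₁ }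

theorem h35_X_sub (z f₁ de₁ th eta zeta : k) (P' : Par k) :
    X (h35_sub z f₁ de₁ P') = X P' - (P'.g0 • (X (F1P z f₁ de₁ th eta zeta) *
      X (F1P z f₁ de₁ th eta zeta)) + P'.al1 • (J k * X (F1P z f₁ de₁ th eta zeta)) +
      P'.al2 • (J k * (J k * X (F1P z f₁ de₁ th eta zeta))) +
      P'.g1 • (J k * (X (F1P z f₁ de₁ th eta zeta) * X (F1P z f₁ de₁ th eta zeta)))) := by
  refine ext_mulVec fun m => ?_
  simp only [sub_mulVec, add_mulVec, smul_mulVec, ← mulVec_mulVec, X_mulVec, J_mulVec]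
  funext i
  fin_cases i <;> simp [act, actJ, F1P, h35_sub, zero] <;> ring

/-- the normal form of `B`, `al0' = 0`, `pi' ≠ 0` -/
theorem h35_n3 {z f₁ de₁ th eta zeta : k} (h : MR (F1P z f₁ de₁ th eta zeta) P')
    (ha : P'.al0 = 0) (hpi : P'.pi ≠ 0) : False := by
  have h1 : MR (F1P z f₁ de₁ th eta zeta) (h35_sub z f₁ de₁ P') := by
    have key : ∀ (T : Fin 3 → Matrix (Fin 10) (Fin 10) k), J k ∈ D7.adj T →
        X (F1P z f₁ de₁ th eta zeta) ∈ D7.adj T →
        P'.g0 • (X (F1P z f₁ de₁ th eta zeta) *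
        X (F1P z f₁ de₁ th eta zeta)) + P'.al1 • (J k * X (F1P z f₁ de₁ th eta zeta)) +
        P'.al2 • (J k * (J k * X (F1P z f₁ de₁ th eta zeta))) +
        P'.g1 • (J k * (X (F1P z f₁ de₁ th eta zeta) * X (F1P z f₁ de₁ th eta zeta))) ∈
        D7.adj T := by
      intro T hJ hX
      exact add_mem (add_mem (add_mem (SMulMemClass.smul_mem _ (mul_mem hX hX))
        (SMulMemClass.smul_mem _ (mul_mem hJ hX)))
        (SMulMemClass.smul_mem _ (mul_mem hJ (mul_mem hJ hX))))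
        (SMulMemClass.smul_mem _ (mul_mem hJ (mul_mem hX hX)))
    refine D7.T32SAux.change3 h (D7.T32SAux.m1 _ _ _) ?_ (D7.T32SAux.m1 _ _ _) ?_
    · rw [h35_X_sub z f₁ de₁ th eta zeta]
      exact sub_mem (D7.T32SAux.m2 _ _ _) (key _ (D7.T32SAux.m0 _ _ _) (D7.T32SAux.m1 _ _ _))
    · have e := h35_X_sub z f₁ de₁ th eta zeta P'
      rw [eq_sub_iff_add_eq] at e
      rw [← e]
      exact add_mem (D7.T32SAux.m2 _ _ _) (key _ (D7.T32SAux.m0 _ _ _) (D7.T32SAux.m1 _ _ _))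
  have h2 := h1.gl 1 0 0 (P'.pi)⁻¹ (by simpa using hpi)
  have e1 : comb 1 (F1P z f₁ de₁ th eta zeta) 0 (h35_sub z f₁ de₁ P') =
      F1P z f₁ de₁ th eta zeta := by
    apply h35_ext <;> simp [comb]
  rw [e1] at h2
  have hr := h2.rel
  obtain ⟨r1, r2, r3, r4, r5, r6, r7, r8, r9, r10, r11, r12, r13, r14, r15, r16, r17, r18, r19,
    r20⟩ := hr
  set C := comb 0 (F1P z f₁ de₁ th eta zeta) (P'.pi)⁻¹ (h35_sub z f₁ de₁ P') with hC
  have c1 : C.al0 = 0 := by simp [hC, comb, h35_sub, ha]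
  have c2 : C.al1 = 0 := by simp [hC, comb, h35_sub]
  have c3 : C.al2 = 0 := by simp [hC, comb, h35_sub]
  have c4 : C.g0 = 0 := by simp [hC, comb, h35_sub]
  have c5 : C.g1 = 0 := by simp [hC, comb, h35_sub]
  have c6 : C.pi = 1 := by simp [hC, comb, h35_sub, hpi]
  simp only [Br, F1P, zero, c1, c2, c3, c4, c5, c6]
    at r1 r2 r3 r4 r5 r6 r7 r8 r9 r10 r11 r12 r13 r14 r15 r16 r17 r18 r19 r20
  have d1 : C.be0 = 0 := by linear_combination -r1
  have d2 : C.be1 = 0 := by linear_combination -r2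
  have d3 : C.be2 = th := by linear_combination -r3
  have d4 : C.q1 = 0 := by linear_combination -r4
  have d5 : C.q2 = eta := by linear_combination -r5
  have d6 : C.e0 = 0 := by linear_combination -r6
  have d7 : C.e1 = zeta := by linear_combination -r7
  have d8 : C.ph = 0 := by linear_combination -r8
  have d9 : C.de0 = 0 := by linear_combination -r9
  have d10 : C.f0 = 0 := by linear_combination -r11 + d1
  have d11 : C.rho = 0 := by linear_combination -r14
  simp only [d1, d2, d3, d4, d5, d6, d7, d8, d9, d10, d11] at r10 r12 r13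
  have d12 : C.de1 = 0 := by linear_combination -r10
  have d13 : C.f1 = 0 := by linear_combination -r12
  have d14 : C.z = 0 := by linear_combination -r13
  have e2 : C = F1P' th eta zeta C.th C.eta C.zeta := by
    apply h35_ext <;> simp [F1P', zero, c1, c2, c3, c4, c5, c6, d1, d2, d3, d4, d5, d6, d7, d8, d9,
      d10, d11, d12, d13, d14]
  rw [e2] at h2
  exact no_F1 _ _ _ _ _ _ _ _ _ h2

/-- `al0 = e0 = (1, 0)`, `f0 = de0 = rho = ph = 0`, `pi' ≠ 0` -/
theorem h35_n2 (h : MR P P') (ha : P.al0 = 1) (ha' : P'.al0 = 0) (he : P.e0 = 1)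
    (hb : P.be0 = 0) (hf : P.f0 = 0) (hd : P.de0 = 0) (hr : P.rho = 0) (hp : P.ph = 0)
    (hpi : P'.pi ≠ 0) : False := by
  obtain ⟨R', c', h1, h2⟩ := h.base_ex
    { zero k with
      q1 := P.al1
      q2 := P.al2
      e0 := P.g0
      e1 := P.g1
      ph := P.pi
      de0 := P.be1
      de1 := P.be2 + P.al1 * P.be1 + P.g0 * P.de1 + P.pi * P.th
      f0 := P.q1
      f1 := P.q2 + P.al1 * P.q1 + P.g0 * P.f1 + P.pi * P.eta
      z := P.e1 + P.al1 + P.g0 * P.z + P.pi * P.zeta }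
    (F1P (P.z + P.q1) (P.f1 + P.be1 - P.z * P.q1) (P.de1 - P.z * P.be1) (P.th - P.zeta * P.be1)
      (P.eta - P.zeta * P.q1) P.zeta) ![0, 0, 0] (by
      intro m
      funext i
      fin_cases i <;> simp [pol, act, zero, F1P, ha, he, hb, hf, hd, hr, hp] <;> ring)
  have h3 := h2 ![1, 0, 0, 0, 0, 0, 0, 0, 0, 0]
  have e1 := congrFun h3 1
  have e5 := congrFun h3 5
  simp [pol, act, zero, ha'] at e1 e5
  rw [e1, mul_zero, add_zero] at e5
  refine h35_n3 h1 e1 ?_
  rw [e5]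
  exact hpi

/-- `al0 = (1, 0)` -/
theorem h35_n1 (h : MR P P') (ha : P.al0 = 1) (ha' : P'.al0 = 0) (he : ¬ Zr P P' Par.e0) :
    False := by
  have hna : ¬ Zr P P' Par.al0 := fun hc => one_ne_zero (ha.symm.trans hc.1)
  have hb : Zr P P' Par.be0 := h.rk1.resolve_left hna
  have hf : Zr P P' Par.f0 := h.rk2.resolve_left he
  have hd : Zr P P' Par.de0 := (h.rk4.resolve_left hna).resolve_left he
  by_cases hr : Zr P P' Par.rho
  · have hrel := h.rel
    have he' : P'.e0 = 0 := by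
      have := hrel.r6
      simp only [Br, ha, ha'] at this
      linear_combination -this
    have hp' : P'.ph = 0 := by
      have := hrel.r8
      simp only [Br, ha, ha', hr.1, hr.2] at this
      linear_combination -this
    have he0 : P.e0 ≠ 0 := fun hc => he ⟨hc, he'⟩
    by_cases hpi : P'.pi - P.ph / P.e0 * P'.g0 = 0
    · refine h.kf hr (P.pi - P.ph / P.e0 * P.g0) (P.ph / P.e0) ⟨?_, ?_⟩ ⟨?_, ?_⟩ (Or.inl hna)
      · field_simp
      · rw [hp', he', mul_zero]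
      · rw [ha]; ring
      · rw [ha']; linear_combination hpi
    · have h1 := h.wp (P.ph / P.e0)
      have h2 : MR ((P.wp (P.ph / P.e0)).scale 1 1 P.e0 1) ((P'.wp (P.ph / P.e0)).scale 1 1 P.e0 1) :=
        MaxR.scale h1 one_ne_zero one_ne_zero he0 one_ne_zero
      refine h35_n2 h2 ?_ ?_ ?_ ?_ ?_ ?_ ?_ ?_ ?_
      · simp [Par.scale, Par.wp, ha]
      · simp [Par.scale, Par.wp, ha']
      · simp [Par.scale, Par.wp, he0]
      · simp [Par.scale, Par.wp, hb.1]
      · simp [Par.scale, Par.wp, hf.1]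
      · simp [Par.scale, Par.wp, hd.1]
      · simp [Par.scale, Par.wp, hr.1]
      · simp [Par.scale, Par.wp, he0]
      · simpa [Par.scale, Par.wp] using hpi
  · have hz : Zr P P' Par.zeta := h.rk3.resolve_left hr
    have het : Zr P P' Par.eta := (h.rk6.resolve_left he).resolve_left hr
    have hth : Zr P P' Par.th := ((h.rk8.resolve_left hna).resolve_left he).resolve_left hr
    refine h.dual.kf hz 0 0 ⟨?_, ?_⟩ ⟨?_, ?_⟩ (Or.inr (Or.inl hna))
    · rw [zero_mul]; exact het.1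
    · rw [zero_mul]; exact het.2
    · rw [zero_mul, zero_mul, zero_add]; exact hth.1
    · rw [zero_mul, zero_mul, zero_add]; exact hth.2

theorem no_al0_e0 (h : MR P P') (ha : ¬ Zr P P' Par.al0) (he : ¬ Zr P P' Par.e0) : False := by
  obtain ⟨a, b, c, d, hd, e1, e2⟩ := exists_norm ha
  exact h35_n1 (h.gl a b c d hd) e1 e2 (fun hc => he (hc.of_gl (fun _ _ _ _ => rfl) hd))

end Pool.Agent.Lib.D13.T4321
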