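import Pool.Agent.Lib.D13.K2

/-!
# MP_5dcbc3_ag: type `(4, 3, 2, 1)`: `al0 ≠ 0`, `e0 = 0`, `zeta ≠ 0`, `ph ≠ 0`
-/

set_option autoImplicit false

namespace Pool.Agent.Lib.D13.T4321

open Matrix Pool.Agent.Lib.Q5dc

variable {k : Type*} [Field k] [IsAlgClosed k] [CharZero k] {P P' : Par k}

/-- the same with `al0 = (1, 0)` -/
theorem h35_zeta_ph (h : MR P P') (ha : P.al0 = 1) (ha' : P'.al0 = 0) (he : Zr P P' Par.e0)
    (hz : ¬ Zr P P' Par.zeta) (hp : ¬ Zr P P' Par.ph) : False := by
  have hna : ¬ Zr P P' Par.al0 := fun hc => one_ne_zero (ha.symm.trans hc.1)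
  have hb : Zr P P' Par.be0 := h.rk1.resolve_left hna
  have hr : Zr P P' Par.rho := h.rk3.resolve_right hz
  have hf : Zr P P' Par.f0 := (h.rk7.resolve_left hp).resolve_left hz
  have hd : Zr P P' Par.de0 := ((h.rk9.resolve_left hna).resolve_left hp).resolve_left hz
  have hrel := h.rel
  obtain ⟨r1, r2, r3, r4, r5, r6, r7, r8, r9, r10, r11, r12, r13, r14, r15, r16, r17, r18, r19,
    r20⟩ := hrel
  simp only [Br, ha, ha', hb.1, hb.2, hr.1, hr.2, hf.1, hf.2, hd.1, hd.2, he.1, he.2]
    at r1 r2 r3 r4 r5 r6 r7 r8 r9 r10 r11 r12 r13 r14 r15 r16 r17 r18 r19 r20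
  have hph' : P'.ph = 0 := by linear_combination -r8
  have hph : P.ph ≠ 0 := fun hc => hp ⟨hc, hph'⟩
  rw [hph'] at r8 r10 r12 r13
  obtain ⟨u, hu⟩ : ∃ u, P.ph * u = P'.z := ⟨P'.z / P.ph, by field_simp⟩
  obtain ⟨v, hv⟩ : ∃ v, P.ph * v = P'.f1 := ⟨P'.f1 / P.ph, by field_simp⟩
  obtain ⟨w, hw⟩ : ∃ w, P.ph * w = P'.de1 := ⟨P'.de1 / P.ph, by field_simp⟩
  obtain ⟨s, hs, h3⟩ := h.move { zero k with e0 := 1 }
    { zero k with
      zeta := -u
      eta := -v
      th := -w
      e1 := P'.al1 + P.pi * u
      be2 := P.pi * w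
      q2 := P.pi * v } (fun s => by
    constructor <;> simp only [Br, line, zero, ha, ha', hb.1, hb.2, hr.1, hr.2, hf.1, hf.2, hd.1,
      hd.2, he.1, he.2, hph']
    · linear_combination r1
    · linear_combination r2
    · linear_combination r3
    · linear_combination r4
    · linear_combination r5
    · ring
    · linear_combination r7
    · linear_combination r8
    · linear_combination r9
    · linear_combination r10 + s * hw
    · linear_combination r11
    · linear_combination r12 + s * hv
    · linear_combination r13 + s * hu - s * r4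
    · linear_combination r14
    · linear_combination r15
    · linear_combination r16
    · linear_combination r17
    · linear_combination r18
    · linear_combination r19
    · linear_combination r20) (Set.finite_singleton (0 : k))
  rw [Set.mem_singleton_iff] at hs
  refine no_al0_e0 h3 ?_ ?_
  · intro hc
    have := hc.1
    simp only [line, zero, ha] at this
    exact one_ne_zero (by linear_combination this)
  · intro hc
    have := hc.1
    simp only [line, zero, he.1] at this
    exact hs (by linear_combination this)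

theorem no_al0_zeta_ph (h : MR P P') (ha : ¬ Zr P P' Par.al0) (he : Zr P P' Par.e0)
    (hz : ¬ Zr P P' Par.zeta) (hp : ¬ Zr P P' Par.ph) : False := by
  obtain ⟨a, b, c, d, hd, e1, e2⟩ := exists_norm ha
  exact h35_zeta_ph (h.gl a b c d hd) e1 e2 (he.gl (fun _ _ _ _ => rfl) a b c d)
    (fun hc => hz (hc.of_gl (fun _ _ _ _ => rfl) hd))
    (fun hc => hp (hc.of_gl (fun _ _ _ _ => rfl) hd))

end Pool.Agent.Lib.D13.T4321
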