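import Pool.Agent.Lib.D13.V4321

/-!
# MP_5dcbc3_ag: type `(4, 3, 2, 1)`: `al0 ≠ 0`, `e0 = 0`, `zeta ≠ 0`, `ph = 0`
-/

set_option autoImplicit false

namespace Pool.Agent.Lib.D13.T4321

open Matrix Pool.Agent.Lib.Q5dc

variable {k : Type*} [Field k] [IsAlgClosed k] [CharZero k] {P P' : Par k}

/-- `p` is not in `m M` -/
theorem h35_z_kf (h : MR P P') (ha : P.al0 = 1) (ha' : P'.al0 = 0) (he : Zr P P' Par.e0)
    (hz : ¬ Zr P P' Par.zeta) (hp : Zr P P' Par.ph) (hg : P'.g0 ≠ 0 ∨ P'.pi = 0) : False := by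
  have hna : ¬ Zr P P' Par.al0 := fun hc => one_ne_zero (ha.symm.trans hc.1)
  have hr : Zr P P' Par.rho := h.rk3.resolve_right hz
  rcases hg with hg | hg
  · refine h.kf hr (P.pi - P'.pi / P'.g0 * P.g0) (P'.pi / P'.g0) ⟨?_, ?_⟩ ⟨?_, ?_⟩ (Or.inl hna)
    · rw [hp.1, he.1]; ring
    · rw [hp.2, he.2]; ring
    · rw [ha]; ring
    · rw [ha']; field_simp; ring
  · refine h.kf hr P.pi 0 ⟨?_, ?_⟩ ⟨?_, ?_⟩ (Or.inl hna)
    · rw [hp.1]; ring
    · rw [hp.2]; ring
    · rw [ha]; ring
    · rw [ha', hg]; ring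

/-- `g0 = 0`, `f0 = de0 = 0` -/
theorem h35_z_a (h : MR P P') (ha : P.al0 = 1) (ha' : P'.al0 = 0) (he : Zr P P' Par.e0)
    (hz : ¬ Zr P P' Par.zeta) (hp : Zr P P' Par.ph) (hg : Zr P P' Par.g0) (hf : Zr P P' Par.f0)
    (hd : Zr P P' Par.de0) : False := by
  have hna : ¬ Zr P P' Par.al0 := fun hc => one_ne_zero (ha.symm.trans hc.1)
  have hb : Zr P P' Par.be0 := h.rk1.resolve_left hna
  have hr : Zr P P' Par.rho := h.rk3.resolve_right hz
  obtain ⟨r1, r2, r3, r4, r5, r6, r7, r8, r9, r10, r11, r12, r13, r14, r15, r16, r17, r18, r19,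
    r20⟩ := h.rel
  simp only [Br, ha, ha', hb.1, hb.2, hr.1, hr.2, hf.1, hf.2, hd.1, hd.2, he.1, he.2, hp.1, hp.2,
    hg.1, hg.2] at r1 r2 r3 r4 r5 r6 r7 r8 r9 r10 r11 r12 r13 r14 r15 r16 r17 r18 r19 r20
  obtain ⟨s, hs, h3⟩ := h.move (zero k)
    { zero k with g0 := 1, e1 := P.z, be2 := P.de1, q2 := P.f1 } (fun s => by
    constructor <;> simp only [Br, line, zero, ha, ha', hb.1, hb.2, hr.1, hr.2, hf.1, hf.2, hd.1,
      hd.2, he.1, he.2, hp.1, hp.2, hg.1, hg.2]
    · linear_combination r1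
    · linear_combination r2
    · linear_combination r3
    · linear_combination r4
    · linear_combination r5
    · linear_combination r6
    · linear_combination r7
    · linear_combination r8
    · linear_combination r9
    · linear_combination r10
    · linear_combination r11
    · linear_combination r12
    · linear_combination r13
    · linear_combination r14
    · linear_combination r15
    · linear_combination r16
    · linear_combination r17
    · linear_combination r18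
    · linear_combination r19
    · linear_combination r20) (Set.finite_singleton (0 : k))
  rw [Set.mem_singleton_iff] at hs
  refine h35_z_kf h3 ?_ ?_ ⟨?_, ?_⟩ ?_ ⟨?_, ?_⟩ (Or.inl ?_)
  · simp [line, zero, ha]
  · simp [line, zero, ha']
  · simp [line, zero, he.1]
  · simp [line, zero, he.2]
  · intro hc
    refine hz ⟨?_, ?_⟩
    · simpa [line, zero] using hc.1
    · simpa [line, zero] using hc.2
  · simp [line, zero, hp.1]
  · simp [line, zero, hp.2]
  · simpa [line, zero, hg.2] using hs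

/-- `g0 = 0`, `f0 = f r`, `de0 = d r`, `e1 = e r`, `zeta = z r` with `r = (r₀, 1)` -/
theorem h35_z_b (h : MR P P') (ha : P.al0 = 1) (ha' : P'.al0 = 0) (he : Zr P P' Par.e0)
    (hz : ¬ Zr P P' Par.zeta) (hp : Zr P P' Par.ph) (hg : Zr P P' Par.g0) {r₀ : k}
    (hf0 : P'.f0 ≠ 0) (hf : P.f0 = P'.f0 * r₀) (hd : P.de0 = P'.de0 * r₀)
    (he1 : P.e1 = P'.e1 * r₀) (hzt : P.zeta = P'.zeta * r₀) : False := by
  have hna : ¬ Zr P P' Par.al0 := fun hc => one_ne_zero (ha.symm.trans hc.1)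
  have hb : Zr P P' Par.be0 := h.rk1.resolve_left hna
  have hr : Zr P P' Par.rho := h.rk3.resolve_right hz
  obtain ⟨r1, r2, r3, r4, r5, r6, r7, r8, r9, r10, r11, r12, r13, r14, r15, r16, r17, r18, r19,
    r20⟩ := h.rel
  simp only [Br, ha, ha', hb.1, hb.2, hr.1, hr.2, hf, hd, he.1, he.2, hp.1, hp.2, hzt, he1,
    hg.1, hg.2] at r1 r2 r3 r4 r5 r6 r7 r8 r9 r10 r11 r12 r13 r14 r15 r16 r17 r18 r19 r20
  have hb1 : P'.be1 = 0 := by linear_combination -r2
  have hq1 : P'.q1 = 0 := by linear_combination -r4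
  simp only [hb1, hq1] at r3 r5 r10 r12 r16 r17
  obtain ⟨u, hu⟩ : ∃ u, P'.f0 * u = P'.de0 := ⟨P'.de0 / P'.f0, by field_simp⟩
  rw [← hu] at r3 r10 r16 r17
  have h17 : u + P.q1 + (P'.z * r₀ - P.z) = 0 := by
    have : P'.f0 * (u + P.q1 + (P'.z * r₀ - P.z)) = 0 := by linear_combination r17
    exact (mul_eq_zero.1 this).resolve_left hf0
  have h16 : P.be1 + u * (P'.z * r₀ - P.z) = 0 := by
    have : P'.f0 * (P.be1 + u * (P'.z * r₀ - P.z)) = 0 := by linear_combination r16
    exact (mul_eq_zero.1 this).resolve_left hf0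
  obtain ⟨E, hE⟩ : ∃ E : Polynomial k, E = Polynomial.C P'.e1 + Polynomial.X * Polynomial.C P.z -
    Polynomial.X ^ 2 * Polynomial.C (P'.f0 * r₀ ^ 2) := ⟨_, rfl⟩
  obtain ⟨q, hq⟩ : ∃ q : Par (Polynomial k), q = { cst P with
      z := Polynomial.C P.z - Polynomial.X * Polynomial.C (P'.f0 * r₀ ^ 2)
      e1 := Polynomial.C r₀ * E + Polynomial.X * Polynomial.C (u * r₀) } := ⟨_, rfl⟩
  obtain ⟨q', hq'⟩ : ∃ q' : Par (Polynomial k), q' = { cst P' with
      g0 := Polynomial.X
      be1 := Polynomial.X * Polynomial.C (P'.de0 * r₀)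
      q1 := Polynomial.X * Polynomial.C (P'.f0 * r₀)
      e1 := E
      be2 := Polynomial.C P'.be2 + Polynomial.X * Polynomial.C (P.de1 - P.al1 * P'.de0 * r₀)
      q2 := Polynomial.C P'.q2 + Polynomial.X * Polynomial.C (P.f1 - P.al1 * P'.f0 * r₀) } :=
    ⟨_, rfl⟩
  have e0 : ev 0 q = P := by
    subst hq hE
    obtain ⟨al0, al1, al2, g0, g1, pi, be0, be1, be2, q1, q2, e0, e1, ph, de0, de1, f0, f1, z, rho,
      th, eta, zeta⟩ := P
    simp only at he1
    have he2 : r₀ * P'.e1 = e1 := by rw [he1]; ring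
    simp [ev, cst, he2]
  have e0' : ev 0 q' = P' := by
    subst hq' hE
    obtain ⟨al0, al1, al2, g0, g1, pi, be0, be1, be2, q1, q2, e0, e1, ph, de0, de1, f0, f1, z, rho,
      th, eta, zeta⟩ := P'
    have h1 := hg.2
    simp only at h1 hb1 hq1
    simp [ev, cst, h1, hb1, hq1]
  obtain ⟨s, hs, h3⟩ := MR.curve q q' (by rw [e0, e0']; exact h) (fun s => by
    subst hq hq' hE
    constructor <;> simp only [Br, ev, cst, Polynomial.eval_C, Polynomial.eval_X,
      Polynomial.eval_mul, Polynomial.eval_add, Polynomial.eval_sub, Polynomial.eval_pow, ha, ha',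
      hb.1, hb.2, hr.1, hr.2, hf, hd, he.1, he.2, hp.1, hp.2, hzt, hg.1, ← hu]
    · linear_combination r1
    · linear_combination r2 + hb1
    · linear_combination r3
    · linear_combination r4 + hq1
    · linear_combination r5
    · linear_combination r6
    · linear_combination r7
    · linear_combination r8
    · linear_combination r9
    · linear_combination r10 + s * P'.f0 * r₀ * (h16 - u * h17)
    · linear_combination r11
    · linear_combination r12
    · linear_combination r13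
    · linear_combination r14
    · linear_combination r15
    · linear_combination r16
    · linear_combination r17
    · linear_combination r18
    · linear_combination r19
    · linear_combination r20) (Set.finite_singleton (0 : k))
  rw [Set.mem_singleton_iff] at hs
  subst hq hq' hE
  refine h35_z_kf h3 ?_ ?_ ⟨?_, ?_⟩ ?_ ⟨?_, ?_⟩ (Or.inl ?_)
  · simp [ev, cst, ha]
  · simp [ev, cst, ha']
  · simp [ev, cst, he.1]
  · simp [ev, cst, he.2]
  · intro hc
    refine hz ⟨?_, ?_⟩
    · simpa [ev, cst] using hc.1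
    · simpa [ev, cst] using hc.2
  · simp [ev, cst, hp.1]
  · simp [ev, cst, hp.2]
  · simpa [ev, cst] using hs

theorem h35_z_c (h : MR P P') (ha : P.al0 = 1) (ha' : P'.al0 = 0) (he : Zr P P' Par.e0)
    (hz : ¬ Zr P P' Par.zeta) (hp : Zr P P' Par.ph) (hg : Zr P P' Par.g0) : False := by
  by_cases hpi : P'.pi = 0
  · exact h35_z_kf h ha ha' he hz hp (Or.inr hpi)
  have hna : ¬ Zr P P' Par.al0 := fun hc => one_ne_zero (ha.symm.trans hc.1)
  have hb : Zr P P' Par.be0 := h.rk1.resolve_left hna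
  have hr : Zr P P' Par.rho := h.rk3.resolve_right hz
  obtain ⟨r1, r2, r3, r4, r5, r6, r7, r8, r9, r10, r11, r12, r13, r14, r15, r16, r17, r18, r19,
    r20⟩ := h.rel
  simp only [Br, ha, ha', hb.1, hb.2, hr.1, hr.2, he.1, he.2, hp.1, hp.2, hg.1, hg.2]
    at r1 r2 r3 r4 r5 r6 r7 r8 r9 r10 r11 r12 r13 r14 r15 r16 r17 r18 r19 r20
  have hb1 : P'.be1 = 0 := by linear_combination -r2
  have hq1 : P'.q1 = 0 := by linear_combination -r4
  simp only [hb1, hq1] at r10 r12 r16 r17
  by_cases hz' : P'.zeta = 0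
  · have hz1 : P.zeta ≠ 0 := fun hc => hz ⟨hc, hz'⟩
    rw [hz'] at r7 r19 r20
    have hf' : P'.f0 = 0 := by
      have : P.zeta * P'.f0 = 0 := by linear_combination -r20
      exact (mul_eq_zero.1 this).resolve_left hz1
    have hd' : P'.de0 = 0 := by
      have : P.zeta * P'.de0 = 0 := by linear_combination -r19
      exact (mul_eq_zero.1 this).resolve_left hz1
    have he1 : P'.e1 = P'.pi * P.zeta := by linear_combination -r7
    have he1n : P'.e1 ≠ 0 := by
      rw [he1]
      exact mul_ne_zero hpi hz1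
    have hf : P.f0 = 0 := by
      have : P'.e1 * P.f0 = 0 := by linear_combination r12 + P.e1 * hf'
      exact (mul_eq_zero.1 this).resolve_left he1n
    have hd : P.de0 = 0 := by
      have : P'.e1 * P.de0 = 0 := by linear_combination r10 + P.e1 * hd'
      exact (mul_eq_zero.1 this).resolve_left he1n
    exact h35_z_a h ha ha' he hz hp hg ⟨hf, hf'⟩ ⟨hd, hd'⟩
  · obtain ⟨r₀, hr₀⟩ : ∃ r₀, P.zeta = P'.zeta * r₀ := ⟨P.zeta / P'.zeta, by field_simp⟩
    have hf : P.f0 = P'.f0 * r₀ := by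
      have : P'.zeta * (P.f0 - P'.f0 * r₀) = 0 := by
        rw [hr₀] at r20
        linear_combination r20
      exact sub_eq_zero.1 ((mul_eq_zero.1 this).resolve_left hz')
    have hd : P.de0 = P'.de0 * r₀ := by
      have : P'.zeta * (P.de0 - P'.de0 * r₀) = 0 := by
        rw [hr₀] at r19
        linear_combination r19
      exact sub_eq_zero.1 ((mul_eq_zero.1 this).resolve_left hz')
    by_cases hf0 : P'.f0 = 0
    · rw [hf0, zero_mul] at hf
      rw [hf, hf0] at r17
      have hd' : P'.de0 = 0 := by linear_combination r17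
      rw [hd', zero_mul] at hd
      exact h35_z_a h ha ha' he hz hp hg ⟨hf, hf0⟩ ⟨hd, hd'⟩
    · refine h35_z_b h ha ha' he hz hp hg hf0 hf hd ?_ hr₀
      have : P'.f0 * (P.e1 - P'.e1 * r₀) = 0 := by
        rw [hf] at r12
        linear_combination -r12
      exact sub_eq_zero.1 ((mul_eq_zero.1 this).resolve_left hf0)

theorem h35_z_d (h : MR P P') (ha : P.al0 = 1) (ha' : P'.al0 = 0) (he : Zr P P' Par.e0)
    (hz : ¬ Zr P P' Par.zeta) (hp : Zr P P' Par.ph) : False := by
  have hr : Zr P P' Par.rho := h.rk3.resolve_right hz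
  by_cases hg : P'.g0 = 0
  · refine h35_z_c (h.uw P.g0) ha ha' he hz ⟨?_, ?_⟩ ⟨?_, ?_⟩
    · simp [Par.uw, hp.1, hr.1]
    · simp [Par.uw, hp.2, hr.2]
    · simp [Par.uw, ha]
    · simp [Par.uw, ha', hg]
  · exact h35_z_kf h ha ha' he hz hp (Or.inl hg)

theorem no_al0_zeta (h : MR P P') (ha : ¬ Zr P P' Par.al0) (he : Zr P P' Par.e0)
    (hz : ¬ Zr P P' Par.zeta) (hp : Zr P P' Par.ph) : False := by
  obtain ⟨a, b, c, d, hd, e1, e2⟩ := exists_norm ha
  exact h35_z_d (h.gl a b c d hd) e1 e2 (he.gl (fun _ _ _ _ => rfl) a b c d)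
    (fun hc => hz (hc.of_gl (fun _ _ _ _ => rfl) hd)) (hp.gl (fun _ _ _ _ => rfl) a b c d)

end Pool.Agent.Lib.D13.T4321
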