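import Pool.Agent.Lib.D13.CntG

/-!
# MP_5dcbc3_ag: count of the first level of the type `(4, 4, 2, 1)`
-/

namespace Pool.Agent.Lib.D13.F42

open Matrix

variable {k K : Type*} [Field k] [Field K] [Algebra k K]

/-- the two conditions in the case `a' = al a` -/
theorem lev_dich {N N0 : Matrix (Fin 2) (Fin 2) K} {a xi : Matrix (Fin 1) (Fin 2) K}
    {b0 ap ka : Matrix (Fin 2) (Fin 1) K} {nu0 : Matrix (Fin 1) (Fin 1) K}
    (h2 : a * ka = 0) (h3 : xi * ka = 1) (h5 : ap * a + ka * xi = 1)
    (hR1 : N * N0 - N0 * N = b0 * a) (hR3 : a * N0 = nu0 * a) (hne : a * N * ka ≠ 0) :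
    N0 = sm nu0 (1 : Matrix (Fin 2) (Fin 2) K) := by
  obtain ⟨Z, hZ⟩ : ∃ Z, Z = N0 - sm nu0 (1 : Matrix (Fin 2) (Fin 2) K) := ⟨_, rfl⟩
  have hN0 : N0 = Z + sm nu0 (1 : Matrix (Fin 2) (Fin 2) K) := by rw [hZ, sub_add_cancel]
  have hs1 : N * sm nu0 (1 : Matrix (Fin 2) (Fin 2) K) = sm nu0 N := by
    rw [mul_sm, Matrix.mul_one]
  have hs2 : sm nu0 (1 : Matrix (Fin 2) (Fin 2) K) * N = sm nu0 N := by
    rw [← sm_mul, Matrix.one_mul]
  have hs3 : a * sm nu0 (1 : Matrix (Fin 2) (Fin 2) K) = nu0 * a := by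
    rw [mul_sm, Matrix.mul_one, mul_row]
  have haZ : a * Z = 0 := by
    have h := hR3
    rw [hN0, Matrix.mul_add, hs3] at h
    exact add_eq_right.1 h
  have hZ' : Z = ka * (xi * Z) := by
    calc Z = (ap * a + ka * xi) * Z := by rw [h5, Matrix.one_mul]
      _ = ka * (xi * Z) := by
        rw [Matrix.add_mul, Matrix.mul_assoc ap, haZ, Matrix.mul_zero, zero_add, Matrix.mul_assoc]
  obtain ⟨ψ, hψ⟩ : ∃ ψ, ψ = xi * Z := ⟨_, rfl⟩
  rw [← hψ] at hZ'
  have hc : N * Z - Z * N = b0 * a := by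
    rw [← hR1, hN0, Matrix.mul_add, Matrix.add_mul, hs1, hs2]
    abel
  have hk : N * ka * (ψ * ka) = ka * (ψ * N * ka) := by
    have h := congrArg (fun M => M * ka) hc
    simp only [Matrix.sub_mul] at h
    rw [Matrix.mul_assoc b0, h2, Matrix.mul_zero, sub_eq_zero, hZ'] at h
    simpa only [Matrix.mul_assoc] using h
  have h6 : ψ * ka = 0 := by
    refine can_l hne ?_
    have h : a * (N * ka * (ψ * ka)) = a * (ka * (ψ * N * ka)) := by rw [hk]
    rw [← Matrix.mul_assoc a ka, h2, Matrix.zero_mul] at h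
    rw [← h]
    simp only [Matrix.mul_assoc]
  have h7 : ψ * N * ka = 0 := by
    have h : xi * (N * ka * (ψ * ka)) = xi * (ka * (ψ * N * ka)) := by rw [hk]
    rw [h6, Matrix.mul_zero, Matrix.mul_zero, ← Matrix.mul_assoc xi ka, h3, Matrix.one_mul] at h
    exact h.symm
  have h8 : ψ * ap = 0 := by
    refine can_r hne ?_
    have e : ψ * N * ka = ψ * ap * (a * N * ka) + ψ * ka * (xi * N * ka) := by
      calc ψ * N * ka = ψ * ((ap * a + ka * xi) * N) * ka := by rw [h5, Matrix.one_mul]
        _ = _ := by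
          simp only [Matrix.mul_add, Matrix.add_mul, Matrix.mul_assoc]
    rw [h6, Matrix.zero_mul, add_zero] at e
    rw [← e, h7]
  have h9 : ψ = 0 := by
    calc ψ = ψ * (ap * a + ka * xi) := by rw [h5, Matrix.mul_one]
      _ = 0 := by rw [Matrix.mul_add, ← Matrix.mul_assoc, ← Matrix.mul_assoc, h8, h6,
        Matrix.zero_mul, Matrix.zero_mul, add_zero]
  rw [hN0, hZ', h9, Matrix.mul_zero, zero_add]

/-- count of the first level -/
theorem lev1 {N N' : Matrix (Fin 2) (Fin 2) K} {a a' : Matrix (Fin 1) (Fin 2) K}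
    {b b' : Matrix (Fin 2) (Fin 1) K} {nu nu' : Matrix (Fin 1) (Fin 1) K} (ha : a ≠ 0)
    (R1 : N * N' + b * a' = N' * N + b' * a)
    (R3 : a * N' + nu * a' = a' * N + nu' * a) :
    ∃ t : Set K, Bd k t 12 ∧ G k t N ∧ G k t N' ∧ G k t a ∧ G k t a' ∧ G k t b ∧ G k t b' ∧
      G k t nu ∧ G k t nu' := by
  obtain ⟨ap, ka, xi, h1, h2, h3, h4, h5, hG⟩ := frame (k := k) ha
  have hb' : b' = (N * N' + b * a' - N' * N) * ap := by
    rw [R1, add_sub_cancel_left, Matrix.mul_assoc, h1, Matrix.mul_one]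
  have hN' : N' = ap * (a' * N + nu' * a - nu * a') + ka * (xi * N') := by
    rw [← R3, add_sub_cancel_right, ← Matrix.mul_assoc, ← Matrix.mul_assoc, ← Matrix.add_mul, h5,
      Matrix.one_mul]
  by_cases hβ : a' * ka = 0
  · -- a' = al a
    obtain ⟨al, hal⟩ : ∃ al, al = a' * ap := ⟨_, rfl⟩
    have ha' : a' = al * a := by
      calc a' = a' * (ap * a + ka * xi) := by rw [h5, Matrix.mul_one]
        _ = al * a := by
          rw [Matrix.mul_add, ← Matrix.mul_assoc, ← Matrix.mul_assoc, hβ, Matrix.zero_mul,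
            add_zero, hal]
    obtain ⟨N0, hN0⟩ : ∃ N0, N0 = N' - sm al N := ⟨_, rfl⟩
    have hN'' : N' = N0 + sm al N := by rw [hN0, sub_add_cancel]
    have r3 : a * N0 = (nu' - nu * al) * a := by
      rw [hN0, Matrix.mul_sub, mul_sm, ← mul_row, Matrix.sub_mul, sub_eq_sub_iff_add_eq_add,
        Matrix.mul_assoc nu, ← ha', R3, ha']
      rw [Matrix.mul_assoc]
      abel
    have r1 : N * N0 - N0 * N = (b' - b * al) * a := by
      rw [hN0, Matrix.mul_sub, Matrix.sub_mul, mul_sm, ← sm_mul, Matrix.sub_mul b',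
        Matrix.mul_assoc b, ← ha', sub_sub_sub_cancel_right, sub_eq_sub_iff_add_eq_add, R1]
      abel
    have hN0' : N0 = ap * ((nu' - nu * al) * a) + ka * (xi * N0) := by
      rw [← r3, ← Matrix.mul_assoc, ← Matrix.mul_assoc, ← Matrix.add_mul, h5, Matrix.one_mul]
    by_cases hd : a * N * ka = 0
    · have haN : a * N = a * N * ap * a := by
        calc a * N = a * N * (ap * a + ka * xi) := by rw [h5, Matrix.mul_one]
          _ = a * N * ap * a := by
            rw [Matrix.mul_add, ← Matrix.mul_assoc, ← Matrix.mul_assoc, hd, Matrix.zero_mul,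
              add_zero]
      have hNN : N = ap * (a * N * ap * a) + ka * (xi * N) := by
        rw [← haN, ← Matrix.mul_assoc, ← Matrix.mul_assoc, ← Matrix.add_mul, h5, Matrix.one_mul]
      obtain ⟨nu1, hnu1⟩ : ∃ nu1, nu1 = a * N * ap := ⟨_, rfl⟩
      obtain ⟨xN, hxN⟩ : ∃ xN, xN = xi * N := ⟨_, rfl⟩
      obtain ⟨xN0, hxN0⟩ : ∃ xN0, xN0 = xi * N0 := ⟨_, rfl⟩
      rw [← hnu1, ← hxN] at hNN
      rw [← hxN0] at hN0'
      obtain ⟨t, ht⟩ : ∃ t, t = ∅ ∪ en a ∪ en al ∪ en nu ∪ en nu' ∪ en nu1 ∪ en xN ∪ en xN0 ∪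
        en b := ⟨_, rfl⟩
      have Bt : Bd k t 12 := by
        rw [ht]
        exact (((((((Bd.nil.add a).add al).add nu).add nu').add nu1).add xN).add xN0).add b
      have ga : G k t a := by rw [ht]; infer_instance
      have gal : G k t al := by rw [ht]; infer_instance
      have gnu : G k t nu := by rw [ht]; infer_instance
      have gnu' : G k t nu' := by rw [ht]; infer_instance
      have gnu1 : G k t nu1 := by rw [ht]; infer_instance
      have gxN : G k t xN := by rw [ht]; infer_instance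
      have gxN0 : G k t xN0 := by rw [ht]; infer_instance
      have gb : G k t b := by rw [ht]; infer_instance
      obtain ⟨gap, gka, gxi⟩ := hG t ga
      have gN : G k t N := by rw [hNN]; infer_instance
      have gN0 : G k t N0 := by rw [hN0']; infer_instance
      have gN' : G k t N' := by rw [hN'']; infer_instance
      have ga' : G k t a' := by rw [ha']; infer_instance
      have gb' : G k t b' := by rw [hb']; infer_instance
      exact ⟨t, Bt, gN, gN', ga, ga', gb, gb', gnu, gnu'⟩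
    · have hs := lev_dich h2 h3 h5 r1 r3 hd
      obtain ⟨t, ht⟩ : ∃ t, t = ∅ ∪ en a ∪ en al ∪ en nu ∪ en nu' ∪ en N ∪ en b := ⟨_, rfl⟩
      have Bt : Bd k t 12 := by
        rw [ht]
        exact ((((((Bd.nil.add a).add al).add nu).add nu').add N).add b).mono (by simp)
      have ga : G k t a := by rw [ht]; infer_instance
      have gal : G k t al := by rw [ht]; infer_instance
      have gnu : G k t nu := by rw [ht]; infer_instance
      have gnu' : G k t nu' := by rw [ht]; infer_instance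
      have gN : G k t N := by rw [ht]; infer_instance
      have gb : G k t b := by rw [ht]; infer_instance
      obtain ⟨gap, gka, gxi⟩ := hG t ga
      have gN0 : G k t N0 := by rw [hs]; infer_instance
      have gN' : G k t N' := by rw [hN'']; infer_instance
      have ga' : G k t a' := by rw [ha']; infer_instance
      have gb' : G k t b' := by rw [hb']; infer_instance
      exact ⟨t, Bt, gN, gN', ga, ga', gb, gb', gnu, gnu'⟩
  · have hb : b = (N' * N - N * N') * ka * (a' * ka)⁻¹ := by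
      refine div_r hβ ?_
      have h6 : b * a' = N' * N + b' * a - N * N' := by rw [← R1, add_sub_cancel_left]
      rw [← Matrix.mul_assoc, h6, Matrix.sub_mul, Matrix.add_mul, Matrix.mul_assoc b', h2,
        Matrix.mul_zero, add_zero, ← Matrix.sub_mul]
    obtain ⟨xN', hxN'⟩ : ∃ xN', xN' = xi * N' := ⟨_, rfl⟩
    rw [← hxN'] at hN'
    obtain ⟨t, ht⟩ : ∃ t, t = ∅ ∪ en a ∪ en a' ∪ en N ∪ en nu ∪ en nu' ∪ en xN' := ⟨_, rfl⟩
    have Bt : Bd k t 12 := by
      rw [ht]
      exact (((((Bd.nil.add a).add a').add N).add nu).add nu').add xN'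
    have ga : G k t a := by rw [ht]; infer_instance
    have ga' : G k t a' := by rw [ht]; infer_instance
    have gN : G k t N := by rw [ht]; infer_instance
    have gnu : G k t nu := by rw [ht]; infer_instance
    have gnu' : G k t nu' := by rw [ht]; infer_instance
    have gxN' : G k t xN' := by rw [ht]; infer_instance
    obtain ⟨gap, gka, gxi⟩ := hG t ga
    have gN' : G k t N' := by rw [hN']; infer_instance
    have gb : G k t b := by rw [hb]; infer_instance
    have gb' : G k t b' := by rw [hb']; infer_instance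
    exact ⟨t, Bt, gN, gN', ga, ga', gb, gb', gnu, gnu'⟩

end Pool.Agent.Lib.D13.F42
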