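import Pool.Agent.Lib.D13.K442
import Pool.Agent.Lib.D13.F42D

/-!
# MP_5dcbc3_ag: count of the parameters of the maximal triples of type `(4, 4, 2, 1)`

`count`: two commuting matrices `BX x`, `BX y` with `pi = 0` or `eta = 0` depend on at most `41`
parameters.
-/

namespace Pool.Agent.Lib.D13.F42

open Matrix Pool.Agent.Lib.Q5dc Pool.Agent.Lib.D7

variable {k K : Type*} [Field k] [Field K] [Algebra k K]

variable (k) in
/-- all parameters are algebraic over `k(t)` -/
structure In {q r p : ℕ} (t : Set K) (x : Par K q r p) : Prop where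
  N : G k t x.N
  M : G k t x.M
  L : G k t x.L
  a : G k t x.a
  a1 : G k t x.a1
  w : G k t x.w
  b : G k t x.b
  b1 : G k t x.b1
  nu : G k t x.nu
  pi : G k t x.pi
  th : G k t x.th
  et : G k t x.et

theorem In.dual {q r p : ℕ} {t : Set K} {x : Par K q r p} (h : In k t x) : In k t x.dual := by
  obtain ⟨h1, h2, h3, h4, h5, h6, h7, h8, h9, h10, h11, h12⟩ := h
  constructor <;> (unfold Par.dual; dsimp only; infer_instance)

/-- known part of the relation of the second level -/
def CC (x y : Par K 2 1 1) : Matrix (Fin 2) (Fin 2) K :=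
  y.N * x.M + y.M * x.N + y.b * x.a1 - (x.N * y.M + x.M * y.N + x.b * y.a1)

/-- the relations -/
structure Rel (x y : Par K 2 1 1) : Prop where
  R1 : x.N * y.N + x.b * y.a = y.N * x.N + y.b * x.a
  R2 : x.b1 * y.a + x.th * y.w - y.b1 * x.a - y.th * x.w = CC x y
  R3 : x.a * y.N + x.nu * y.a = y.a * x.N + y.nu * x.a
  R4 : x.pi * y.a = y.pi * x.a
  R5 : x.N * y.b + x.b * y.nu + x.th * y.pi = y.N * x.b + y.b * x.nu + y.th * x.pi
  ex : x.et = 0
  ey : y.et = 0

theorem Rel.of_comm {x y : Par K 2 1 1} (h : BX x * BX y = BX y * BX x) (hx : x.et = 0)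
    (hy : y.et = 0) : Rel x y := by
  obtain ⟨r1, r2, r3, r4, r5, r6, r7⟩ := BX_comm.1 h
  refine ⟨r1, ?_, ?_, r4, r5, hx, hy⟩
  · unfold CC
    have e : x.b1 * y.a + x.th * y.w - y.b1 * x.a - y.th * x.w =
        (x.N * y.M + x.M * y.N + x.b * y.a1 + x.b1 * y.a + x.th * y.w) -
        (x.N * y.M + x.M * y.N + x.b * y.a1) - y.b1 * x.a - y.th * x.w := by abel
    rw [e, r2]
    abel
  · simpa [hx, hy] using r3

theorem Rel.swap {x y : Par K 2 1 1} (h : Rel x y) : Rel y x := by
  refine ⟨h.R1.symm, ?_, h.R3.symm, h.R4.symm, h.R5.symm, h.ey, h.ex⟩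
  have e := h.R2
  have e1 : CC y x = -CC x y := by
    unfold CC
    abel
  rw [e1, ← e]
  abel

/-- `pi = 0`, `a ≠ 0` -/
theorem cnt_a {x y : Par K 2 1 1} (h : Rel x y) (px : x.pi = 0) (py : y.pi = 0)
    (ha : x.a ≠ 0) : ∃ t : Set K, Bd k t 41 ∧ In k t x ∧ In k t y := by
  obtain ⟨t1, B1, kN, kN', ka, ka', kb, kb', knu, knu'⟩ := lev1 (k := k) ha h.R1 h.R3
  obtain ⟨ap, κ, xi, h1, h2, h3, h4, h5, hG⟩ := frame (k := k) ha
  have hC : y.b1 = (x.b1 * y.a + x.th * y.w - y.th * x.w - CC x y) * ap := by
    have e : x.b1 * y.a + x.th * y.w - y.th * x.w - CC x y = y.b1 * x.a := by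
      rw [← h.R2]
      abel
    rw [e, Matrix.mul_assoc, h1, Matrix.mul_one]
  have hκ : x.b1 * (y.a * κ) + x.th * (y.w * κ) - y.th * (x.w * κ) = CC x y * κ := by
    rw [← h.R2]
    simp only [Matrix.sub_mul, Matrix.add_mul, Matrix.mul_assoc, h2, Matrix.mul_zero, sub_zero]
  by_cases hw : y.w * κ = 0
  · by_cases hw2 : x.w * κ = 0
    · have ew : x.w = x.w * ap * x.a := by
        calc x.w = x.w * (ap * x.a + κ * xi) := by rw [h5, Matrix.mul_one]
          _ = x.w * ap * x.a := by
            rw [Matrix.mul_add, ← Matrix.mul_assoc, ← Matrix.mul_assoc, hw2, Matrix.zero_mul,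
              add_zero]
      have ew' : y.w = y.w * ap * x.a := by
        calc y.w = y.w * (ap * x.a + κ * xi) := by rw [h5, Matrix.mul_one]
          _ = y.w * ap * x.a := by
            rw [Matrix.mul_add, ← Matrix.mul_assoc, ← Matrix.mul_assoc, hw, Matrix.zero_mul,
              add_zero]
      obtain ⟨α, hα⟩ : ∃ α, α = x.w * ap := ⟨_, rfl⟩
      obtain ⟨α', hα'⟩ : ∃ α', α' = y.w * ap := ⟨_, rfl⟩
      rw [← hα] at ew
      rw [← hα'] at ew'
      obtain ⟨t, ht⟩ : ∃ t, t = t1 ∪ en α ∪ en α' ∪ en x.M ∪ en y.M ∪ en x.L ∪ en y.L ∪ en x.a1 ∪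
          en y.a1 ∪ en x.b1 ∪ en x.th ∪ en y.th := ⟨_, rfl⟩
      have Bt : Bd k t 41 := by
        rw [ht]
        exact ((((((((((((B1.add _).add _).add _).add _).add _).add _).add _).add _).add _).add
            _).add _)).mono (by simp)
      have gN : G k t x.N := by rw [ht]; infer_instance
      have gN' : G k t y.N := by rw [ht]; infer_instance
      have ga : G k t x.a := by rw [ht]; infer_instance
      have ga' : G k t y.a := by rw [ht]; infer_instance
      have gb : G k t x.b := by rw [ht]; infer_instance
      have gb' : G k t y.b := by rw [ht]; infer_instance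
      have gnu : G k t x.nu := by rw [ht]; infer_instance
      have gnu' : G k t y.nu := by rw [ht]; infer_instance
      have gα : G k t α := by rw [ht]; infer_instance
      have gα' : G k t α' := by rw [ht]; infer_instance
      have gM : G k t x.M := by rw [ht]; infer_instance
      have gM' : G k t y.M := by rw [ht]; infer_instance
      have gL : G k t x.L := by rw [ht]; infer_instance
      have gL' : G k t y.L := by rw [ht]; infer_instance
      have ga1 : G k t x.a1 := by rw [ht]; infer_instance
      have ga1' : G k t y.a1 := by rw [ht]; infer_instance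
      have gb1 : G k t x.b1 := by rw [ht]; infer_instance
      have gth : G k t x.th := by rw [ht]; infer_instance
      have gth' : G k t y.th := by rw [ht]; infer_instance
      obtain ⟨gap, gκ, gxi⟩ := hG t ga
      have gw : G k t x.w := by rw [ew]; infer_instance
      have gw' : G k t y.w := by rw [ew']; infer_instance
      have gpi : G k t x.pi := by rw [px]; infer_instance
      have gpi' : G k t y.pi := by rw [py]; infer_instance
      have get : G k t x.et := by rw [h.ex]; infer_instance
      have get' : G k t y.et := by rw [h.ey]; infer_instance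
      have gC : G k t (CC x y) := by unfold CC; infer_instance
      have gb1' : G k t y.b1 := by rw [hC]; infer_instance
      exact ⟨t, Bt, ⟨gN, gM, gL, ga, ga1, gw, gb, gb1, gnu, gpi, gth, get⟩,
        ⟨gN', gM', gL', ga', ga1', gw', gb', gb1', gnu', gpi', gth', get'⟩⟩
    · have eth : y.th = (x.b1 * (y.a * κ) - CC x y * κ) * (x.w * κ)⁻¹ := by
        refine div_r hw2 ?_
        rw [← hκ, hw, Matrix.mul_zero, add_zero]
        abel
      obtain ⟨t, ht⟩ : ∃ t, t = t1 ∪ en x.w ∪ en y.w ∪ en x.M ∪ en y.M ∪ en x.L ∪ en y.L ∪ en
          x.a1 ∪ en y.a1 ∪ en x.b1 ∪ en x.th := ⟨_, rfl⟩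
      have Bt : Bd k t 41 := by
        rw [ht]
        exact (((((((((((B1.add _).add _).add _).add _).add _).add _).add _).add _).add _).add
            _)).mono (by simp)
      have gN : G k t x.N := by rw [ht]; infer_instance
      have gN' : G k t y.N := by rw [ht]; infer_instance
      have ga : G k t x.a := by rw [ht]; infer_instance
      have ga' : G k t y.a := by rw [ht]; infer_instance
      have gb : G k t x.b := by rw [ht]; infer_instance
      have gb' : G k t y.b := by rw [ht]; infer_instance
      have gnu : G k t x.nu := by rw [ht]; infer_instance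
      have gnu' : G k t y.nu := by rw [ht]; infer_instance
      have gw : G k t x.w := by rw [ht]; infer_instance
      have gw' : G k t y.w := by rw [ht]; infer_instance
      have gM : G k t x.M := by rw [ht]; infer_instance
      have gM' : G k t y.M := by rw [ht]; infer_instance
      have gL : G k t x.L := by rw [ht]; infer_instance
      have gL' : G k t y.L := by rw [ht]; infer_instance
      have ga1 : G k t x.a1 := by rw [ht]; infer_instance
      have ga1' : G k t y.a1 := by rw [ht]; infer_instance
      have gb1 : G k t x.b1 := by rw [ht]; infer_instance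
      have gth : G k t x.th := by rw [ht]; infer_instance
      obtain ⟨gap, gκ, gxi⟩ := hG t ga
      have gpi : G k t x.pi := by rw [px]; infer_instance
      have gpi' : G k t y.pi := by rw [py]; infer_instance
      have get : G k t x.et := by rw [h.ex]; infer_instance
      have get' : G k t y.et := by rw [h.ey]; infer_instance
      have gC : G k t (CC x y) := by unfold CC; infer_instance
      have gth' : G k t y.th := by rw [eth]; infer_instance
      have gb1' : G k t y.b1 := by rw [hC]; infer_instance
      exact ⟨t, Bt, ⟨gN, gM, gL, ga, ga1, gw, gb, gb1, gnu, gpi, gth, get⟩,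
        ⟨gN', gM', gL', ga', ga1', gw', gb', gb1', gnu', gpi', gth', get'⟩⟩
  · have eth : x.th = (CC x y * κ + y.th * (x.w * κ) - x.b1 * (y.a * κ)) * (y.w * κ)⁻¹ := by
      refine div_r hw ?_
      rw [← hκ]
      abel
    obtain ⟨t, ht⟩ : ∃ t, t = t1 ∪ en x.w ∪ en y.w ∪ en x.M ∪ en y.M ∪ en x.L ∪ en y.L ∪ en x.a1
        ∪ en y.a1 ∪ en x.b1 ∪ en y.th := ⟨_, rfl⟩
    have Bt : Bd k t 41 := by
      rw [ht]
      exact (((((((((((B1.add _).add _).add _).add _).add _).add _).add _).add _).add _).add
          _)).mono (by simp)
    have gN : G k t x.N := by rw [ht]; infer_instance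
    have gN' : G k t y.N := by rw [ht]; infer_instance
    have ga : G k t x.a := by rw [ht]; infer_instance
    have ga' : G k t y.a := by rw [ht]; infer_instance
    have gb : G k t x.b := by rw [ht]; infer_instance
    have gb' : G k t y.b := by rw [ht]; infer_instance
    have gnu : G k t x.nu := by rw [ht]; infer_instance
    have gnu' : G k t y.nu := by rw [ht]; infer_instance
    have gw : G k t x.w := by rw [ht]; infer_instance
    have gw' : G k t y.w := by rw [ht]; infer_instance
    have gM : G k t x.M := by rw [ht]; infer_instance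
    have gM' : G k t y.M := by rw [ht]; infer_instance
    have gL : G k t x.L := by rw [ht]; infer_instance
    have gL' : G k t y.L := by rw [ht]; infer_instance
    have ga1 : G k t x.a1 := by rw [ht]; infer_instance
    have ga1' : G k t y.a1 := by rw [ht]; infer_instance
    have gb1 : G k t x.b1 := by rw [ht]; infer_instance
    have gth' : G k t y.th := by rw [ht]; infer_instance
    obtain ⟨gap, gκ, gxi⟩ := hG t ga
    have gpi : G k t x.pi := by rw [px]; infer_instance
    have gpi' : G k t y.pi := by rw [py]; infer_instance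
    have get : G k t x.et := by rw [h.ex]; infer_instance
    have get' : G k t y.et := by rw [h.ey]; infer_instance
    have gC : G k t (CC x y) := by unfold CC; infer_instance
    have gth : G k t x.th := by rw [eth]; infer_instance
    have gb1' : G k t y.b1 := by rw [hC]; infer_instance
    exact ⟨t, Bt, ⟨gN, gM, gL, ga, ga1, gw, gb, gb1, gnu, gpi, gth, get⟩,
      ⟨gN', gM', gL', ga', ga1', gw', gb', gb1', gnu', gpi', gth', get'⟩⟩

/-- `pi ≠ 0`, `a ≠ 0` -/
theorem cnt_b {x y : Par K 2 1 1} (h : Rel x y) (px : x.pi ≠ 0) (ha : x.a ≠ 0) :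
    ∃ t : Set K, Bd k t 41 ∧ In k t x ∧ In k t y := by
  obtain ⟨t1, B1, kN, kN', ka, ka', kb, kb', knu, knu'⟩ := lev1 (k := k) ha h.R1 h.R3
  obtain ⟨ap, κ, xi, h1, h2, h3, h4, h5, hG⟩ := frame (k := k) ha
  have hC : y.b1 = (x.b1 * y.a + x.th * y.w - y.th * x.w - CC x y) * ap := by
    have e : x.b1 * y.a + x.th * y.w - y.th * x.w - CC x y = y.b1 * x.a := by
      rw [← h.R2]
      abel
    rw [e, Matrix.mul_assoc, h1, Matrix.mul_one]
  have epi : y.pi = x.pi * y.a * ap := by
    rw [h.R4, Matrix.mul_assoc, h1, Matrix.mul_one]
  have eth : y.th = (x.N * y.b + x.b * y.nu + x.th * y.pi - y.N * x.b - y.b * x.nu) * x.pi⁻¹ := by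
    refine div_r px ?_
    rw [h.R5]
    abel
  obtain ⟨t, ht⟩ : ∃ t, t = t1 ∪ en x.pi ∪ en x.w ∪ en y.w ∪ en x.M ∪ en y.M ∪ en x.L ∪ en y.L ∪
      en x.a1 ∪ en y.a1 ∪ en x.b1 ∪ en x.th := ⟨_, rfl⟩
  have Bt : Bd k t 41 := by
    rw [ht]
    exact ((((((((((((B1.add _).add _).add _).add _).add _).add _).add _).add _).add _).add
        _).add _)).mono (by simp)
  have gN : G k t x.N := by rw [ht]; infer_instance
  have gN' : G k t y.N := by rw [ht]; infer_instance
  have ga : G k t x.a := by rw [ht]; infer_instance
  have ga' : G k t y.a := by rw [ht]; infer_instance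
  have gb : G k t x.b := by rw [ht]; infer_instance
  have gb' : G k t y.b := by rw [ht]; infer_instance
  have gnu : G k t x.nu := by rw [ht]; infer_instance
  have gnu' : G k t y.nu := by rw [ht]; infer_instance
  have gpi : G k t x.pi := by rw [ht]; infer_instance
  have gw : G k t x.w := by rw [ht]; infer_instance
  have gw' : G k t y.w := by rw [ht]; infer_instance
  have gM : G k t x.M := by rw [ht]; infer_instance
  have gM' : G k t y.M := by rw [ht]; infer_instance
  have gL : G k t x.L := by rw [ht]; infer_instance
  have gL' : G k t y.L := by rw [ht]; infer_instance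
  have ga1 : G k t x.a1 := by rw [ht]; infer_instance
  have ga1' : G k t y.a1 := by rw [ht]; infer_instance
  have gb1 : G k t x.b1 := by rw [ht]; infer_instance
  have gth : G k t x.th := by rw [ht]; infer_instance
  obtain ⟨gap, gκ, gxi⟩ := hG t ga
  have get : G k t x.et := by rw [h.ex]; infer_instance
  have get' : G k t y.et := by rw [h.ey]; infer_instance
  have gpi' : G k t y.pi := by rw [epi]; infer_instance
  have gth' : G k t y.th := by rw [eth]; infer_instance
  have gC : G k t (CC x y) := by unfold CC; infer_instance
  have gb1' : G k t y.b1 := by rw [hC]; infer_instance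
  exact ⟨t, Bt, ⟨gN, gM, gL, ga, ga1, gw, gb, gb1, gnu, gpi, gth, get⟩,
    ⟨gN', gM', gL', ga', ga1', gw', gb', gb1', gnu', gpi', gth', get'⟩⟩

/-- `pi = 0`, `a = 0` -/
theorem cnt_c {x y : Par K 2 1 1} (h : Rel x y) (px : x.pi = 0) (py : y.pi = 0)
    (ax : x.a = 0) (ay : y.a = 0) : ∃ t : Set K, Bd k t 41 ∧ In k t x ∧ In k t y := by
  obtain ⟨t1, B1, kN, kN'⟩ := comm2_cnt (k := k) (N := x.N) (N' := y.N) (by
    have := h.R1
    simpa [ax, ay] using this)
  have hC : x.th * y.w - y.th * x.w = CC x y := by
    have := h.R2
    simpa [ax, ay] using this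
  by_cases hw : x.w = 0
  · by_cases hw' : y.w = 0
    · obtain ⟨t, ht⟩ : ∃ t, t = t1 ∪ en x.b ∪ en y.b ∪ en x.nu ∪ en y.nu ∪ en x.M ∪ en y.M ∪ en
        x.L ∪ en y.L ∪ en x.a1 ∪ en y.a1 ∪ en x.b1 ∪ en y.b1 ∪ en x.th ∪ en y.th := ⟨_, rfl⟩
      have Bt : Bd k t 41 := by
        rw [ht]
        exact (((((((((((((((B1.add _).add _).add _).add _).add _).add _).add _).add _).add
            _).add _).add _).add _).add _).add _)).mono (by simp)
      have gN : G k t x.N := by rw [ht]; infer_instance
      have gN' : G k t y.N := by rw [ht]; infer_instance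
      have gb : G k t x.b := by rw [ht]; infer_instance
      have gb' : G k t y.b := by rw [ht]; infer_instance
      have gnu : G k t x.nu := by rw [ht]; infer_instance
      have gnu' : G k t y.nu := by rw [ht]; infer_instance
      have gM : G k t x.M := by rw [ht]; infer_instance
      have gM' : G k t y.M := by rw [ht]; infer_instance
      have gL : G k t x.L := by rw [ht]; infer_instance
      have gL' : G k t y.L := by rw [ht]; infer_instance
      have ga1 : G k t x.a1 := by rw [ht]; infer_instance
      have ga1' : G k t y.a1 := by rw [ht]; infer_instance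
      have gb1 : G k t x.b1 := by rw [ht]; infer_instance
      have gb1' : G k t y.b1 := by rw [ht]; infer_instance
      have gth : G k t x.th := by rw [ht]; infer_instance
      have gth' : G k t y.th := by rw [ht]; infer_instance
      have ga : G k t x.a := by rw [ax]; infer_instance
      have ga' : G k t y.a := by rw [ay]; infer_instance
      have gpi : G k t x.pi := by rw [px]; infer_instance
      have gpi' : G k t y.pi := by rw [py]; infer_instance
      have get : G k t x.et := by rw [h.ex]; infer_instance
      have get' : G k t y.et := by rw [h.ey]; infer_instance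
      have gw : G k t x.w := by rw [hw]; infer_instance
      have gw' : G k t y.w := by rw [hw']; infer_instance
      exact ⟨t, Bt, ⟨gN, gM, gL, ga, ga1, gw, gb, gb1, gnu, gpi, gth, get⟩,
        ⟨gN', gM', gL', ga', ga1', gw', gb', gb1', gnu', gpi', gth', get'⟩⟩
    · obtain ⟨wp, κ, xi, h1, h2, h3, h4, h5, hG⟩ := frame (k := k) hw'
      have eth : x.th = CC x y * wp := by
        rw [← hC, hw, Matrix.mul_zero, sub_zero, Matrix.mul_assoc, h1, Matrix.mul_one]
      obtain ⟨t, ht⟩ : ∃ t, t = t1 ∪ en x.b ∪ en y.b ∪ en x.nu ∪ en y.nu ∪ en x.M ∪ en y.M ∪ en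
          x.L ∪ en y.L ∪ en x.a1 ∪ en y.a1 ∪ en x.b1 ∪ en y.b1 ∪ en y.w ∪ en y.th := ⟨_, rfl⟩
      have Bt : Bd k t 41 := by
        rw [ht]
        exact (((((((((((((((B1.add _).add _).add _).add _).add _).add _).add _).add _).add
            _).add _).add _).add _).add _).add _)).mono (by simp)
      have gN : G k t x.N := by rw [ht]; infer_instance
      have gN' : G k t y.N := by rw [ht]; infer_instance
      have gb : G k t x.b := by rw [ht]; infer_instance
      have gb' : G k t y.b := by rw [ht]; infer_instance
      have gnu : G k t x.nu := by rw [ht]; infer_instance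
      have gnu' : G k t y.nu := by rw [ht]; infer_instance
      have gM : G k t x.M := by rw [ht]; infer_instance
      have gM' : G k t y.M := by rw [ht]; infer_instance
      have gL : G k t x.L := by rw [ht]; infer_instance
      have gL' : G k t y.L := by rw [ht]; infer_instance
      have ga1 : G k t x.a1 := by rw [ht]; infer_instance
      have ga1' : G k t y.a1 := by rw [ht]; infer_instance
      have gb1 : G k t x.b1 := by rw [ht]; infer_instance
      have gb1' : G k t y.b1 := by rw [ht]; infer_instance
      have gw' : G k t y.w := by rw [ht]; infer_instance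
      have gth' : G k t y.th := by rw [ht]; infer_instance
      have ga : G k t x.a := by rw [ax]; infer_instance
      have ga' : G k t y.a := by rw [ay]; infer_instance
      have gpi : G k t x.pi := by rw [px]; infer_instance
      have gpi' : G k t y.pi := by rw [py]; infer_instance
      have get : G k t x.et := by rw [h.ex]; infer_instance
      have get' : G k t y.et := by rw [h.ey]; infer_instance
      have gw : G k t x.w := by rw [hw]; infer_instance
      obtain ⟨gwp, gκ, gxi⟩ := hG t gw'
      have gC : G k t (CC x y) := by unfold CC; infer_instance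
      have gth : G k t x.th := by rw [eth]; infer_instance
      exact ⟨t, Bt, ⟨gN, gM, gL, ga, ga1, gw, gb, gb1, gnu, gpi, gth, get⟩,
        ⟨gN', gM', gL', ga', ga1', gw', gb', gb1', gnu', gpi', gth', get'⟩⟩
  · obtain ⟨wp, κ, xi, h1, h2, h3, h4, h5, hG⟩ := frame (k := k) hw
    have eth' : y.th = (x.th * y.w - CC x y) * wp := by
      have e : x.th * y.w - CC x y = y.th * x.w := by
        rw [← hC]
        abel
      rw [e, Matrix.mul_assoc, h1, Matrix.mul_one]
    by_cases hk : y.w * κ = 0
    · have ew' : y.w = y.w * wp * x.w := by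
        calc y.w = y.w * (wp * x.w + κ * xi) := by rw [h5, Matrix.mul_one]
          _ = y.w * wp * x.w := by
            rw [Matrix.mul_add, ← Matrix.mul_assoc, ← Matrix.mul_assoc, hk, Matrix.zero_mul,
              add_zero]
      obtain ⟨α, hα⟩ : ∃ α, α = y.w * wp := ⟨_, rfl⟩
      rw [← hα] at ew'
      obtain ⟨t, ht⟩ : ∃ t, t = t1 ∪ en x.b ∪ en y.b ∪ en x.nu ∪ en y.nu ∪ en x.M ∪ en y.M ∪ en
          x.L ∪ en y.L ∪ en x.a1 ∪ en y.a1 ∪ en x.b1 ∪ en y.b1 ∪ en x.w ∪ en α ∪ en x.th := ⟨_,
          rfl⟩
      have Bt : Bd k t 41 := by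
        rw [ht]
        exact ((((((((((((((((B1.add _).add _).add _).add _).add _).add _).add _).add _).add
            _).add _).add _).add _).add _).add _).add _)).mono (by simp)
      have gN : G k t x.N := by rw [ht]; infer_instance
      have gN' : G k t y.N := by rw [ht]; infer_instance
      have gb : G k t x.b := by rw [ht]; infer_instance
      have gb' : G k t y.b := by rw [ht]; infer_instance
      have gnu : G k t x.nu := by rw [ht]; infer_instance
      have gnu' : G k t y.nu := by rw [ht]; infer_instance
      have gM : G k t x.M := by rw [ht]; infer_instance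
      have gM' : G k t y.M := by rw [ht]; infer_instance
      have gL : G k t x.L := by rw [ht]; infer_instance
      have gL' : G k t y.L := by rw [ht]; infer_instance
      have ga1 : G k t x.a1 := by rw [ht]; infer_instance
      have ga1' : G k t y.a1 := by rw [ht]; infer_instance
      have gb1 : G k t x.b1 := by rw [ht]; infer_instance
      have gb1' : G k t y.b1 := by rw [ht]; infer_instance
      have gw : G k t x.w := by rw [ht]; infer_instance
      have gα : G k t α := by rw [ht]; infer_instance
      have gth : G k t x.th := by rw [ht]; infer_instance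
      have ga : G k t x.a := by rw [ax]; infer_instance
      have ga' : G k t y.a := by rw [ay]; infer_instance
      have gpi : G k t x.pi := by rw [px]; infer_instance
      have gpi' : G k t y.pi := by rw [py]; infer_instance
      have get : G k t x.et := by rw [h.ex]; infer_instance
      have get' : G k t y.et := by rw [h.ey]; infer_instance
      obtain ⟨gwp, gκ, gxi⟩ := hG t gw
      have gw' : G k t y.w := by rw [ew']; infer_instance
      have gC : G k t (CC x y) := by unfold CC; infer_instance
      have gth' : G k t y.th := by rw [eth']; infer_instance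
      exact ⟨t, Bt, ⟨gN, gM, gL, ga, ga1, gw, gb, gb1, gnu, gpi, gth, get⟩,
        ⟨gN', gM', gL', ga', ga1', gw', gb', gb1', gnu', gpi', gth', get'⟩⟩
    · have eth : x.th = CC x y * κ * (y.w * κ)⁻¹ := by
        refine div_r hk ?_
        rw [← hC, Matrix.sub_mul, Matrix.mul_assoc, Matrix.mul_assoc y.th, h2, Matrix.mul_zero,
          sub_zero]
      obtain ⟨t, ht⟩ : ∃ t, t = t1 ∪ en x.b ∪ en y.b ∪ en x.nu ∪ en y.nu ∪ en x.M ∪ en y.M ∪ en
          x.L ∪ en y.L ∪ en x.a1 ∪ en y.a1 ∪ en x.b1 ∪ en y.b1 ∪ en x.w ∪ en y.w := ⟨_, rfl⟩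
      have Bt : Bd k t 41 := by
        rw [ht]
        exact (((((((((((((((B1.add _).add _).add _).add _).add _).add _).add _).add _).add
            _).add _).add _).add _).add _).add _)).mono (by simp)
      have gN : G k t x.N := by rw [ht]; infer_instance
      have gN' : G k t y.N := by rw [ht]; infer_instance
      have gb : G k t x.b := by rw [ht]; infer_instance
      have gb' : G k t y.b := by rw [ht]; infer_instance
      have gnu : G k t x.nu := by rw [ht]; infer_instance
      have gnu' : G k t y.nu := by rw [ht]; infer_instance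
      have gM : G k t x.M := by rw [ht]; infer_instance
      have gM' : G k t y.M := by rw [ht]; infer_instance
      have gL : G k t x.L := by rw [ht]; infer_instance
      have gL' : G k t y.L := by rw [ht]; infer_instance
      have ga1 : G k t x.a1 := by rw [ht]; infer_instance
      have ga1' : G k t y.a1 := by rw [ht]; infer_instance
      have gb1 : G k t x.b1 := by rw [ht]; infer_instance
      have gb1' : G k t y.b1 := by rw [ht]; infer_instance
      have gw : G k t x.w := by rw [ht]; infer_instance
      have gw' : G k t y.w := by rw [ht]; infer_instance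
      have ga : G k t x.a := by rw [ax]; infer_instance
      have ga' : G k t y.a := by rw [ay]; infer_instance
      have gpi : G k t x.pi := by rw [px]; infer_instance
      have gpi' : G k t y.pi := by rw [py]; infer_instance
      have get : G k t x.et := by rw [h.ex]; infer_instance
      have get' : G k t y.et := by rw [h.ey]; infer_instance
      obtain ⟨gwp, gκ, gxi⟩ := hG t gw
      have gC : G k t (CC x y) := by unfold CC; infer_instance
      have gth : G k t x.th := by rw [eth]; infer_instance
      have gth' : G k t y.th := by rw [eth']; infer_instance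
      exact ⟨t, Bt, ⟨gN, gM, gL, ga, ga1, gw, gb, gb1, gnu, gpi, gth, get⟩,
        ⟨gN', gM', gL', ga', ga1', gw', gb', gb1', gnu', gpi', gth', get'⟩⟩

/-- `pi ≠ 0`, `a = 0` -/
theorem cnt_d {x y : Par K 2 1 1} (h : Rel x y) (px : x.pi ≠ 0)
    (ax : x.a = 0) (ay : y.a = 0) : ∃ t : Set K, Bd k t 41 ∧ In k t x ∧ In k t y := by
  obtain ⟨t1, B1, kN, kN'⟩ := comm2_cnt (k := k) (N := x.N) (N' := y.N) (by
    have := h.R1
    simpa [ax, ay] using this)
  have hC : x.th * y.w - y.th * x.w = CC x y := by
    have := h.R2
    simpa [ax, ay] using this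
  obtain ⟨c1, hc1⟩ : ∃ c1, c1 = x.N * y.b + x.b * y.nu - y.N * x.b - y.b * x.nu := ⟨_, rfl⟩
  have eth' : y.th = (c1 + x.th * y.pi) * x.pi⁻¹ := by
    refine div_r px ?_
    have e := h.R5
    rw [hc1]
    have e1 : x.N * y.b + x.b * y.nu - y.N * x.b - y.b * x.nu + x.th * y.pi =
      (x.N * y.b + x.b * y.nu + x.th * y.pi) - y.N * x.b - y.b * x.nu := by abel
    rw [e1, e]
    abel
  obtain ⟨w0, hw0⟩ : ∃ w0, w0 = y.w - y.pi * (x.pi⁻¹ * x.w) := ⟨_, rfl⟩
  have hthw : x.th * w0 = CC x y + c1 * (x.pi⁻¹ * x.w) := by
    rw [hw0, ← hC, eth']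
    simp only [Matrix.mul_sub, Matrix.add_mul, Matrix.mul_assoc]
    abel
  have hyw : y.w = w0 + y.pi * (x.pi⁻¹ * x.w) := by rw [hw0, sub_add_cancel]
  -- the relation without `th`
  obtain ⟨D, hD⟩ : ∃ D, D = y.N * x.M + y.M * x.N - (x.N * y.M + x.M * y.N) +
    c1 * (x.pi⁻¹ * x.w) := ⟨_, rfl⟩
  have hD' : x.th * w0 = D + y.b * x.a1 - x.b * y.a1 := by
    rw [hthw, hD]
    unfold CC
    abel
  by_cases hw : w0 = 0
  · have hyw' : y.w = y.pi * (x.pi⁻¹ * x.w) := by rw [hyw, hw, zero_add]
    have hE : D + y.b * x.a1 - x.b * y.a1 = 0 := by rw [← hD', hw, Matrix.mul_zero]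
    by_cases hb : x.b = 0
    · by_cases hb' : y.b = 0
      · obtain ⟨t, ht⟩ : ∃ t, t = t1 ∪ en x.nu ∪ en y.nu ∪ en x.pi ∪ en y.pi ∪ en x.w ∪ en x.M ∪
          en y.M ∪ en x.L ∪ en y.L ∪ en x.a1 ∪ en y.a1 ∪ en x.b1 ∪ en y.b1 ∪ en x.th := ⟨_, rfl⟩
        have Bt : Bd k t 41 := by
          rw [ht]
          exact (((((((((((((((B1.add _).add _).add _).add _).add _).add _).add _).add _).add
              _).add _).add _).add _).add _).add _)).mono (by simp)
        have gN : G k t x.N := by rw [ht]; infer_instance
        have gN' : G k t y.N := by rw [ht]; infer_instance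
        have gnu : G k t x.nu := by rw [ht]; infer_instance
        have gnu' : G k t y.nu := by rw [ht]; infer_instance
        have gpi : G k t x.pi := by rw [ht]; infer_instance
        have gpi' : G k t y.pi := by rw [ht]; infer_instance
        have gw : G k t x.w := by rw [ht]; infer_instance
        have gM : G k t x.M := by rw [ht]; infer_instance
        have gM' : G k t y.M := by rw [ht]; infer_instance
        have gL : G k t x.L := by rw [ht]; infer_instance
        have gL' : G k t y.L := by rw [ht]; infer_instance
        have ga1 : G k t x.a1 := by rw [ht]; infer_instance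
        have ga1' : G k t y.a1 := by rw [ht]; infer_instance
        have gb1 : G k t x.b1 := by rw [ht]; infer_instance
        have gb1' : G k t y.b1 := by rw [ht]; infer_instance
        have gth : G k t x.th := by rw [ht]; infer_instance
        have ga : G k t x.a := by rw [ax]; infer_instance
        have ga' : G k t y.a := by rw [ay]; infer_instance
        have get : G k t x.et := by rw [h.ex]; infer_instance
        have get' : G k t y.et := by rw [h.ey]; infer_instance
        have gb : G k t x.b := by rw [hb]; infer_instance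
        have gb' : G k t y.b := by rw [hb']; infer_instance
        have gc1 : G k t c1 := by rw [hc1]; infer_instance
        have gth' : G k t y.th := by rw [eth']; infer_instance
        have gw' : G k t y.w := by rw [hyw']; infer_instance
        exact ⟨t, Bt, ⟨gN, gM, gL, ga, ga1, gw, gb, gb1, gnu, gpi, gth, get⟩,
          ⟨gN', gM', gL', ga', ga1', gw', gb', gb1', gnu', gpi', gth', get'⟩⟩
      · obtain ⟨bp, hbp, hG⟩ := frameC (k := k) hb'
        have ea : x.a1 = bp * (x.b * y.a1 - D) := by
          have e : x.b * y.a1 - D = y.b * x.a1 := by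
            rw [sub_eq_iff_eq_add, ← sub_eq_zero, ← neg_eq_zero, ← hE]
            abel
          rw [e, ← Matrix.mul_assoc, hbp, Matrix.one_mul]
        obtain ⟨t, ht⟩ : ∃ t, t = t1 ∪ en y.b ∪ en x.nu ∪ en y.nu ∪ en x.pi ∪ en y.pi ∪ en x.w ∪
            en x.M ∪ en y.M ∪ en x.L ∪ en y.L ∪ en y.a1 ∪ en x.b1 ∪ en y.b1 ∪ en x.th := ⟨_, rfl⟩
        have Bt : Bd k t 41 := by
          rw [ht]
          exact (((((((((((((((B1.add _).add _).add _).add _).add _).add _).add _).add _).add
              _).add _).add _).add _).add _).add _)).mono (by simp)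
        have gN : G k t x.N := by rw [ht]; infer_instance
        have gN' : G k t y.N := by rw [ht]; infer_instance
        have gb' : G k t y.b := by rw [ht]; infer_instance
        have gnu : G k t x.nu := by rw [ht]; infer_instance
        have gnu' : G k t y.nu := by rw [ht]; infer_instance
        have gpi : G k t x.pi := by rw [ht]; infer_instance
        have gpi' : G k t y.pi := by rw [ht]; infer_instance
        have gw : G k t x.w := by rw [ht]; infer_instance
        have gM : G k t x.M := by rw [ht]; infer_instance
        have gM' : G k t y.M := by rw [ht]; infer_instance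
        have gL : G k t x.L := by rw [ht]; infer_instance
        have gL' : G k t y.L := by rw [ht]; infer_instance
        have ga1' : G k t y.a1 := by rw [ht]; infer_instance
        have gb1 : G k t x.b1 := by rw [ht]; infer_instance
        have gb1' : G k t y.b1 := by rw [ht]; infer_instance
        have gth : G k t x.th := by rw [ht]; infer_instance
        have ga : G k t x.a := by rw [ax]; infer_instance
        have ga' : G k t y.a := by rw [ay]; infer_instance
        have get : G k t x.et := by rw [h.ex]; infer_instance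
        have get' : G k t y.et := by rw [h.ey]; infer_instance
        have gb : G k t x.b := by rw [hb]; infer_instance
        have gc1 : G k t c1 := by rw [hc1]; infer_instance
        have gth' : G k t y.th := by rw [eth']; infer_instance
        have gw' : G k t y.w := by rw [hyw']; infer_instance
        have gD : G k t D := by rw [hD]; infer_instance
        have gbp := hG t gb'
        have ga1 : G k t x.a1 := by rw [ea]; infer_instance
        exact ⟨t, Bt, ⟨gN, gM, gL, ga, ga1, gw, gb, gb1, gnu, gpi, gth, get⟩,
          ⟨gN', gM', gL', ga', ga1', gw', gb', gb1', gnu', gpi', gth', get'⟩⟩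
    · obtain ⟨bp, hbp, hG⟩ := frameC (k := k) hb
      have ea : y.a1 = bp * (D + y.b * x.a1) := by
        rw [sub_eq_zero.1 hE, ← Matrix.mul_assoc, hbp, Matrix.one_mul]
      obtain ⟨t, ht⟩ : ∃ t, t = t1 ∪ en x.b ∪ en y.b ∪ en x.nu ∪ en y.nu ∪ en x.pi ∪ en y.pi ∪ en
          x.w ∪ en x.M ∪ en y.M ∪ en x.L ∪ en y.L ∪ en x.a1 ∪ en x.b1 ∪ en y.b1 ∪ en x.th := ⟨_,
          rfl⟩
      have Bt : Bd k t 41 := by
        rw [ht]
        exact ((((((((((((((((B1.add _).add _).add _).add _).add _).add _).add _).add _).add
            _).add _).add _).add _).add _).add _).add _)).mono (by simp)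
      have gN : G k t x.N := by rw [ht]; infer_instance
      have gN' : G k t y.N := by rw [ht]; infer_instance
      have gb : G k t x.b := by rw [ht]; infer_instance
      have gb' : G k t y.b := by rw [ht]; infer_instance
      have gnu : G k t x.nu := by rw [ht]; infer_instance
      have gnu' : G k t y.nu := by rw [ht]; infer_instance
      have gpi : G k t x.pi := by rw [ht]; infer_instance
      have gpi' : G k t y.pi := by rw [ht]; infer_instance
      have gw : G k t x.w := by rw [ht]; infer_instance
      have gM : G k t x.M := by rw [ht]; infer_instance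
      have gM' : G k t y.M := by rw [ht]; infer_instance
      have gL : G k t x.L := by rw [ht]; infer_instance
      have gL' : G k t y.L := by rw [ht]; infer_instance
      have ga1 : G k t x.a1 := by rw [ht]; infer_instance
      have gb1 : G k t x.b1 := by rw [ht]; infer_instance
      have gb1' : G k t y.b1 := by rw [ht]; infer_instance
      have gth : G k t x.th := by rw [ht]; infer_instance
      have ga : G k t x.a := by rw [ax]; infer_instance
      have ga' : G k t y.a := by rw [ay]; infer_instance
      have get : G k t x.et := by rw [h.ex]; infer_instance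
      have get' : G k t y.et := by rw [h.ey]; infer_instance
      have gc1 : G k t c1 := by rw [hc1]; infer_instance
      have gth' : G k t y.th := by rw [eth']; infer_instance
      have gw' : G k t y.w := by rw [hyw']; infer_instance
      have gD : G k t D := by rw [hD]; infer_instance
      have gbp := hG t gb
      have ga1' : G k t y.a1 := by rw [ea]; infer_instance
      exact ⟨t, Bt, ⟨gN, gM, gL, ga, ga1, gw, gb, gb1, gnu, gpi, gth, get⟩,
        ⟨gN', gM', gL', ga', ga1', gw', gb', gb1', gnu', gpi', gth', get'⟩⟩
  · obtain ⟨wp, κ, xi, h1, h2, h3, h4, h5, hG⟩ := frame (k := k) hw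
    have eth : x.th = (D + y.b * x.a1 - x.b * y.a1) * wp := by
      rw [← hD', Matrix.mul_assoc, h1, Matrix.mul_one]
    have hE : (D + y.b * x.a1 - x.b * y.a1) * κ = 0 := by
      rw [← hD', Matrix.mul_assoc, h2, Matrix.mul_zero]
    by_cases hb : x.b = 0
    · by_cases hb' : y.b = 0
      · obtain ⟨t, ht⟩ : ∃ t, t = t1 ∪ en x.nu ∪ en y.nu ∪ en x.pi ∪ en y.pi ∪ en x.w ∪ en y.w ∪
          en x.M ∪ en y.M ∪ en x.L ∪ en y.L ∪ en x.a1 ∪ en y.a1 ∪ en x.b1 ∪ en y.b1 ∪ en x.th :=
          ⟨_, rfl⟩
        have Bt : Bd k t 41 := by
          rw [ht]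
          exact ((((((((((((((((B1.add _).add _).add _).add _).add _).add _).add _).add _).add
              _).add _).add _).add _).add _).add _).add _)).mono (by simp)
        have gN : G k t x.N := by rw [ht]; infer_instance
        have gN' : G k t y.N := by rw [ht]; infer_instance
        have gnu : G k t x.nu := by rw [ht]; infer_instance
        have gnu' : G k t y.nu := by rw [ht]; infer_instance
        have gpi : G k t x.pi := by rw [ht]; infer_instance
        have gpi' : G k t y.pi := by rw [ht]; infer_instance
        have gw : G k t x.w := by rw [ht]; infer_instance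
        have gw' : G k t y.w := by rw [ht]; infer_instance
        have gM : G k t x.M := by rw [ht]; infer_instance
        have gM' : G k t y.M := by rw [ht]; infer_instance
        have gL : G k t x.L := by rw [ht]; infer_instance
        have gL' : G k t y.L := by rw [ht]; infer_instance
        have ga1 : G k t x.a1 := by rw [ht]; infer_instance
        have ga1' : G k t y.a1 := by rw [ht]; infer_instance
        have gb1 : G k t x.b1 := by rw [ht]; infer_instance
        have gb1' : G k t y.b1 := by rw [ht]; infer_instance
        have gth : G k t x.th := by rw [ht]; infer_instance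
        have ga : G k t x.a := by rw [ax]; infer_instance
        have ga' : G k t y.a := by rw [ay]; infer_instance
        have get : G k t x.et := by rw [h.ex]; infer_instance
        have get' : G k t y.et := by rw [h.ey]; infer_instance
        have gb : G k t x.b := by rw [hb]; infer_instance
        have gb' : G k t y.b := by rw [hb']; infer_instance
        have gc1 : G k t c1 := by rw [hc1]; infer_instance
        have gth' : G k t y.th := by rw [eth']; infer_instance
        exact ⟨t, Bt, ⟨gN, gM, gL, ga, ga1, gw, gb, gb1, gnu, gpi, gth, get⟩,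
          ⟨gN', gM', gL', ga', ga1', gw', gb', gb1', gnu', gpi', gth', get'⟩⟩
      · obtain ⟨bp, hbp, hGb⟩ := frameC (k := k) hb'
        have ea : x.a1 * κ = bp * (x.b * (y.a1 * κ) - D * κ) := by
          have e : x.b * (y.a1 * κ) - D * κ = y.b * (x.a1 * κ) := by
            rw [sub_eq_iff_eq_add, ← sub_eq_zero, ← neg_eq_zero, ← hE]
            simp only [Matrix.sub_mul, Matrix.add_mul, Matrix.mul_assoc]
            abel
          rw [e, ← Matrix.mul_assoc, hbp, Matrix.one_mul]
        have ea2 : x.a1 = x.a1 * wp * w0 + x.a1 * κ * xi := by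
          calc x.a1 = x.a1 * (wp * w0 + κ * xi) := by rw [h5, Matrix.mul_one]
            _ = _ := by rw [Matrix.mul_add, Matrix.mul_assoc, Matrix.mul_assoc]
        obtain ⟨α, hα⟩ : ∃ α, α = x.a1 * wp := ⟨_, rfl⟩
        rw [ea, ← hα] at ea2
        obtain ⟨t, ht⟩ : ∃ t, t = t1 ∪ en y.b ∪ en x.nu ∪ en y.nu ∪ en x.pi ∪ en y.pi ∪ en x.w ∪
            en y.w ∪ en x.M ∪ en y.M ∪ en x.L ∪ en y.L ∪ en y.a1 ∪ en x.b1 ∪ en y.b1 ∪ en α :=
            ⟨_, rfl⟩
        have Bt : Bd k t 41 := by
          rw [ht]
          exact ((((((((((((((((B1.add _).add _).add _).add _).add _).add _).add _).add _).add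
              _).add _).add _).add _).add _).add _).add _)).mono (by simp)
        have gN : G k t x.N := by rw [ht]; infer_instance
        have gN' : G k t y.N := by rw [ht]; infer_instance
        have gb' : G k t y.b := by rw [ht]; infer_instance
        have gnu : G k t x.nu := by rw [ht]; infer_instance
        have gnu' : G k t y.nu := by rw [ht]; infer_instance
        have gpi : G k t x.pi := by rw [ht]; infer_instance
        have gpi' : G k t y.pi := by rw [ht]; infer_instance
        have gw : G k t x.w := by rw [ht]; infer_instance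
        have gw' : G k t y.w := by rw [ht]; infer_instance
        have gM : G k t x.M := by rw [ht]; infer_instance
        have gM' : G k t y.M := by rw [ht]; infer_instance
        have gL : G k t x.L := by rw [ht]; infer_instance
        have gL' : G k t y.L := by rw [ht]; infer_instance
        have ga1' : G k t y.a1 := by rw [ht]; infer_instance
        have gb1 : G k t x.b1 := by rw [ht]; infer_instance
        have gb1' : G k t y.b1 := by rw [ht]; infer_instance
        have gα : G k t α := by rw [ht]; infer_instance
        have ga : G k t x.a := by rw [ax]; infer_instance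
        have ga' : G k t y.a := by rw [ay]; infer_instance
        have get : G k t x.et := by rw [h.ex]; infer_instance
        have get' : G k t y.et := by rw [h.ey]; infer_instance
        have gb : G k t x.b := by rw [hb]; infer_instance
        have gc1 : G k t c1 := by rw [hc1]; infer_instance
        have gD : G k t D := by rw [hD]; infer_instance
        have gw0 : G k t w0 := by rw [hw0]; infer_instance
        obtain ⟨gwp, gκ, gxi⟩ := hG t gw0
        have gbp := hGb t gb'
        have ga1 : G k t x.a1 := by rw [ea2]; infer_instance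
        have gth : G k t x.th := by rw [eth]; infer_instance
        have gth' : G k t y.th := by rw [eth']; infer_instance
        exact ⟨t, Bt, ⟨gN, gM, gL, ga, ga1, gw, gb, gb1, gnu, gpi, gth, get⟩,
          ⟨gN', gM', gL', ga', ga1', gw', gb', gb1', gnu', gpi', gth', get'⟩⟩
    · obtain ⟨bp, hbp, hGb⟩ := frameC (k := k) hb
      have ea : y.a1 * κ = bp * (D * κ + y.b * (x.a1 * κ)) := by
        have e : D * κ + y.b * (x.a1 * κ) = x.b * (y.a1 * κ) := by
          rw [← sub_eq_zero, ← hE]
          simp only [Matrix.sub_mul, Matrix.add_mul, Matrix.mul_assoc]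
        rw [e, ← Matrix.mul_assoc, hbp, Matrix.one_mul]
      have ea2 : y.a1 = y.a1 * wp * w0 + y.a1 * κ * xi := by
        calc y.a1 = y.a1 * (wp * w0 + κ * xi) := by rw [h5, Matrix.mul_one]
          _ = _ := by rw [Matrix.mul_add, Matrix.mul_assoc, Matrix.mul_assoc]
      obtain ⟨α, hα⟩ : ∃ α, α = y.a1 * wp := ⟨_, rfl⟩
      rw [ea, ← hα] at ea2
      obtain ⟨t, ht⟩ : ∃ t, t = t1 ∪ en x.b ∪ en y.b ∪ en x.nu ∪ en y.nu ∪ en x.pi ∪ en y.pi ∪ en
          x.w ∪ en y.w ∪ en x.M ∪ en y.M ∪ en x.L ∪ en y.L ∪ en x.a1 ∪ en x.b1 ∪ en y.b1 ∪ en α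
          := ⟨_, rfl⟩
      have Bt : Bd k t 41 := by
        rw [ht]
        exact (((((((((((((((((B1.add _).add _).add _).add _).add _).add _).add _).add _).add
            _).add _).add _).add _).add _).add _).add _).add _)).mono (by simp)
      have gN : G k t x.N := by rw [ht]; infer_instance
      have gN' : G k t y.N := by rw [ht]; infer_instance
      have gb : G k t x.b := by rw [ht]; infer_instance
      have gb' : G k t y.b := by rw [ht]; infer_instance
      have gnu : G k t x.nu := by rw [ht]; infer_instance
      have gnu' : G k t y.nu := by rw [ht]; infer_instance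
      have gpi : G k t x.pi := by rw [ht]; infer_instance
      have gpi' : G k t y.pi := by rw [ht]; infer_instance
      have gw : G k t x.w := by rw [ht]; infer_instance
      have gw' : G k t y.w := by rw [ht]; infer_instance
      have gM : G k t x.M := by rw [ht]; infer_instance
      have gM' : G k t y.M := by rw [ht]; infer_instance
      have gL : G k t x.L := by rw [ht]; infer_instance
      have gL' : G k t y.L := by rw [ht]; infer_instance
      have ga1 : G k t x.a1 := by rw [ht]; infer_instance
      have gb1 : G k t x.b1 := by rw [ht]; infer_instance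
      have gb1' : G k t y.b1 := by rw [ht]; infer_instance
      have gα : G k t α := by rw [ht]; infer_instance
      have ga : G k t x.a := by rw [ax]; infer_instance
      have ga' : G k t y.a := by rw [ay]; infer_instance
      have get : G k t x.et := by rw [h.ex]; infer_instance
      have get' : G k t y.et := by rw [h.ey]; infer_instance
      have gc1 : G k t c1 := by rw [hc1]; infer_instance
      have gD : G k t D := by rw [hD]; infer_instance
      have gw0 : G k t w0 := by rw [hw0]; infer_instance
      obtain ⟨gwp, gκ, gxi⟩ := hG t gw0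
      have gbp := hGb t gb
      have ga1' : G k t y.a1 := by rw [ea2]; infer_instance
      have gth : G k t x.th := by rw [eth]; infer_instance
      have gth' : G k t y.th := by rw [eth']; infer_instance
      exact ⟨t, Bt, ⟨gN, gM, gL, ga, ga1, gw, gb, gb1, gnu, gpi, gth, get⟩,
        ⟨gN', gM', gL', ga', ga1', gw', gb', gb1', gnu', gpi', gth', get'⟩⟩

/-- the count with `eta = 0` -/
theorem cnt_et {x y : Par K 2 1 1} (h : Rel x y) :
    ∃ t : Set K, Bd k t 41 ∧ In k t x ∧ In k t y := by
  have hpi : ∀ {x y : Par K 2 1 1}, Rel x y → x.pi ≠ 0 →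
      ∃ t : Set K, Bd k t 41 ∧ In k t x ∧ In k t y := by
    intro x y h px
    by_cases ha : x.a = 0
    · refine cnt_d h px ha ?_
      have e := h.R4
      rw [ha, Matrix.mul_zero] at e
      exact can_l px e
    · exact cnt_b h px ha
  by_cases px : x.pi = 0
  · by_cases py : y.pi = 0
    · by_cases ha : x.a = 0
      · by_cases ha' : y.a = 0
        · exact cnt_c h px py ha ha'
        · obtain ⟨t, Bt, hx, hy⟩ := cnt_a (k := k) h.swap py px ha'
          exact ⟨t, Bt, hy, hx⟩
      · exact cnt_a h px py ha
    · obtain ⟨t, Bt, hx, hy⟩ := hpi h.swap py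
      exact ⟨t, Bt, hy, hx⟩
  · exact hpi h px

/-- the count -/
theorem count {x y : Par K 2 1 1} (h : BX x * BX y = BX y * BX x)
    (hp : (x.pi = 0 ∧ y.pi = 0) ∨ (x.et = 0 ∧ y.et = 0)) :
    ∃ t : Set K, Bd k t 41 ∧ In k t x ∧ In k t y := by
  rcases hp with ⟨hx, hy⟩ | ⟨hx, hy⟩
  · obtain ⟨t, Bt, ix, iy⟩ := cnt_et (k := k) (Rel.of_comm (comm_dual h)
      (show x.piᵀ = 0 by rw [hx, transpose_zero]) (show y.piᵀ = 0 by rw [hy, transpose_zero]))
    refine ⟨t, Bt, ?_, ?_⟩
    · have := ix.dual
      rwa [dual_dual] at this
    · have := iy.dual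
      rwa [dual_dual] at this
  · exact cnt_et (Rel.of_comm h hx hy)

end Pool.Agent.Lib.D13.F42
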