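import Pool.Agent.Lib.D13.U4321

/-!
# MP_5dcbc3_ag: type `(4, 3, 2, 1)`: normal form for `al0`, `g0` independent
-/

set_option autoImplicit false

namespace Pool.Agent.Lib.D13.T4321

open Matrix Pool.Agent.Lib.Q5dc

section Gen

variable {k : Type*} [Field k]

/-- base change `u0 + a1 u1 + a2 u2 + c1 w1 + p0 p`, `w0 + b1 u1 + b2 u2 + d1 w1 + r0 p` -/
def h24_G (a1 a2 c1 p0 b1 b2 d1 r0 : k) : Matrix (Fin 10) (Fin 10) k :=
  !![1, 0, 0, 0, 0, 0, 0, 0, 0, 0;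
     0, 1, 0, 0, 0, 0, 0, 0, 0, 0;
     0, 0, 1, 0, 0, 0, 0, 0, 0, 0;
     0, 0, 0, 1, 0, 0, 0, 0, 0, 0;
     0, a1, b1, 0, 1, 0, 0, 0, 0, 0;
     0, p0, r0, 0, 0, 1, 0, 0, 0, 0;
     0, c1, d1, 0, 0, 0, 1, 0, 0, 0;
     0, 0, 0, 0, 0, 0, 0, 1, 0, 0;
     0, a2, b2, 0, a1, 0, b1, 0, 1, 0;
     0, 0, 0, 0, 0, 0, 0, 0, 0, 1]

/-- the same on vectors -/
def h24_g (a1 a2 c1 p0 b1 b2 d1 r0 : k) (m : Fin 10 → k) : Fin 10 → k :=
  ![m 0, m 1, m 2, m 3, m 4 + a1 * m 1 + b1 * m 2, m 5 + p0 * m 1 + r0 * m 2,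
    m 6 + c1 * m 1 + d1 * m 2, m 7, m 8 + a2 * m 1 + b2 * m 2 + a1 * m 4 + b1 * m 6, m 9]

theorem h24_G_mulVec (a1 a2 c1 p0 b1 b2 d1 r0 : k) (m : Fin 10 → k) :
    h24_G a1 a2 c1 p0 b1 b2 d1 r0 *ᵥ m = h24_g a1 a2 c1 p0 b1 b2 d1 r0 m := by
  funext i
  fin_cases i <;> simp [h24_G, h24_g, Matrix.mulVec, dotProduct, Fin.sum_univ_succ] <;> ring

/-- the parameters after the base change, `be0 = e0 = zeta = 0` -/
def h24_ch (P : Par k) (a1 a2 c1 p0 b1 b2 d1 r0 : k) : Par k :=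
  { P with
    al1 := P.al1 - a1 * P.al0 - b1 * P.g0
    al2 := P.al2 + (a1 ^ 2 - a2 + c1 * b1) * P.al0 - a1 * P.al1 +
      (b1 * a1 - b2 + d1 * b1) * P.g0 - b1 * P.g1
    g1 := P.g1 - c1 * P.al0 - d1 * P.g0
    pi := P.pi - p0 * P.al0 - r0 * P.g0
    be2 := P.be2 + a1 * P.be1 + c1 * P.de0 + p0 * P.th
    q2 := P.q2 + c1 * P.f0 + p0 * P.eta - b1 * P.e1
    de1 := P.de1 + b1 * P.be1 + d1 * P.de0 + r0 * P.th
    f1 := P.f1 - a1 * P.f0 + b1 * P.q1 + d1 * P.f0 + r0 * P.eta - b1 * P.z }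

theorem h24_inv (a1 a2 c1 p0 b1 b2 d1 r0 : k) :
    h24_G (-a1) (a1 ^ 2 - a2 + c1 * b1) (-c1) (-p0) (-b1) (b1 * a1 - b2 + d1 * b1) (-d1) (-r0) *
      h24_G a1 a2 c1 p0 b1 b2 d1 r0 = 1 := by
  refine ext_mulVec fun m => ?_
  rw [← mulVec_mulVec, h24_G_mulVec, h24_G_mulVec, one_mulVec]
  funext i
  fin_cases i <;> simp [h24_g] <;> ring

theorem h24_inv' (a1 a2 c1 p0 b1 b2 d1 r0 : k) :
    h24_G a1 a2 c1 p0 b1 b2 d1 r0 *
      h24_G (-a1) (a1 ^ 2 - a2 + c1 * b1) (-c1) (-p0) (-b1) (b1 * a1 - b2 + d1 * b1) (-d1)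
        (-r0) = 1 := by
  refine ext_mulVec fun m => ?_
  rw [← mulVec_mulVec, h24_G_mulVec, h24_G_mulVec, one_mulVec]
  funext i
  fin_cases i <;> simp [h24_g] <;> ring

theorem h24_G_J (a1 a2 c1 p0 b1 b2 d1 r0 : k) :
    J k * h24_G a1 a2 c1 p0 b1 b2 d1 r0 = h24_G a1 a2 c1 p0 b1 b2 d1 r0 * J k := by
  refine ext_mulVec fun m => ?_
  rw [← mulVec_mulVec, ← mulVec_mulVec, h24_G_mulVec, J_mulVec, J_mulVec, h24_G_mulVec]
  funext i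
  fin_cases i <;> simp [h24_g, actJ]

theorem h24_G_X {P : Par k} (hb : P.be0 = 0) (he : P.e0 = 0) (hz : P.zeta = 0)
    (a1 a2 c1 p0 b1 b2 d1 r0 : k) :
    X P * h24_G a1 a2 c1 p0 b1 b2 d1 r0 =
      h24_G a1 a2 c1 p0 b1 b2 d1 r0 * X (h24_ch P a1 a2 c1 p0 b1 b2 d1 r0) := by
  refine ext_mulVec fun m => ?_
  rw [← mulVec_mulVec, ← mulVec_mulVec, h24_G_mulVec, X_mulVec, X_mulVec, h24_G_mulVec]
  funext i
  fin_cases i <;> simp [h24_g, act, h24_ch, hb, he, hz] <;> ring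

/-- scaling of `w0`, `w1` by `c` and of `p` by `d` -/
def h24_D (c d : k) : Matrix (Fin 10) (Fin 10) k :=
  !![1, 0, 0, 0, 0, 0, 0, 0, 0, 0;
     0, 1, 0, 0, 0, 0, 0, 0, 0, 0;
     0, 0, c, 0, 0, 0, 0, 0, 0, 0;
     0, 0, 0, 1, 0, 0, 0, 0, 0, 0;
     0, 0, 0, 0, 1, 0, 0, 0, 0, 0;
     0, 0, 0, 0, 0, d, 0, 0, 0, 0;
     0, 0, 0, 0, 0, 0, c, 0, 0, 0;
     0, 0, 0, 0, 0, 0, 0, 1, 0, 0;
     0, 0, 0, 0, 0, 0, 0, 0, 1, 0;
     0, 0, 0, 0, 0, 0, 0, 0, 0, 1]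

/-- the same on vectors -/
def h24_d (c d : k) (m : Fin 10 → k) : Fin 10 → k :=
  ![m 0, m 1, c * m 2, m 3, m 4, d * m 5, c * m 6, m 7, m 8, m 9]

theorem h24_D_mulVec (c d : k) (m : Fin 10 → k) : h24_D c d *ᵥ m = h24_d c d m := by
  funext i
  fin_cases i <;> simp [h24_D, h24_d, Matrix.mulVec, dotProduct, Fin.sum_univ_succ]

/-- the parameters after the scaling, `c c' = d d' = 1` -/
def h24_sc (P : Par k) (c c' d d' : k) : Par k :=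
  { P with
    g0 := c' * P.g0
    g1 := c' * P.g1
    pi := d' * P.pi
    e0 := c' * P.e0
    e1 := c' * P.e1
    ph := d' * P.ph
    de0 := c * P.de0
    de1 := c * P.de1
    f0 := c * P.f0
    f1 := c * P.f1
    rho := c * d' * P.rho
    th := d * P.th
    eta := d * P.eta
    zeta := d * c' * P.zeta }

theorem h24_D_inv {c c' d d' : k} (hc : c * c' = 1) (hd : d * d' = 1) :
    h24_D c d * h24_D c' d' = 1 := by
  refine ext_mulVec fun m => ?_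
  rw [← mulVec_mulVec, h24_D_mulVec, h24_D_mulVec, one_mulVec]
  funext i
  fin_cases i <;> simp [h24_d]
  · linear_combination m 2 * hc
  · linear_combination m 5 * hd
  · linear_combination m 6 * hc

theorem h24_D_J (c d : k) : J k * h24_D c d = h24_D c d * J k := by
  refine ext_mulVec fun m => ?_
  rw [← mulVec_mulVec, ← mulVec_mulVec, h24_D_mulVec, J_mulVec, J_mulVec, h24_D_mulVec]
  funext i
  fin_cases i <;> simp [h24_d, actJ]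

theorem h24_D_X (P : Par k) {c c' d d' : k} (hc : c * c' = 1) (hd : d * d' = 1) :
    X P * h24_D c d = h24_D c d * X (h24_sc P c c' d d') := by
  refine ext_mulVec fun m => ?_
  rw [← mulVec_mulVec, ← mulVec_mulVec, h24_D_mulVec, X_mulVec, X_mulVec, h24_D_mulVec]
  funext i
  fin_cases i <;> simp [h24_d, act, h24_sc]
  · linear_combination (-P.g0 * m 0 - P.e0 * m 1) * hc
  · ring
  · linear_combination (-P.pi * m 0 - P.ph * m 1 - c * P.rho * m 2) * hd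
  · linear_combination (-P.g1 * m 0 - P.e1 * m 1 - P.g0 * m 3 - P.e0 * m 4 - d * P.zeta * m 5) * hc
  all_goals ring

end Gen

variable {k : Type*} [Field k] [IsAlgClosed k] [CharZero k] {P P' : Par k}

theorem h24_MR (h : MR P P') (hb : Zr P P' Par.be0) (he : Zr P P' Par.e0)
    (hz : Zr P P' Par.zeta) (a1 a2 c1 p0 b1 b2 d1 r0 : k) :
    MR (h24_ch P a1 a2 c1 p0 b1 b2 d1 r0) (h24_ch P' a1 a2 c1 p0 b1 b2 d1 r0) := by
  have h1 := D7.MaxR.conj h _ _ (h24_inv a1 a2 c1 p0 b1 b2 d1 r0)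
    (h24_inv' a1 a2 c1 p0 b1 b2 d1 r0)
  unfold MR
  convert h1 using 1
  funext i
  fin_cases i
  · show J k = _ * J k * _
    rw [mul_assoc, h24_G_J, ← mul_assoc, h24_inv, one_mul]
  · show X _ = _ * X P * _
    rw [mul_assoc, h24_G_X hb.1 he.1 hz.1, ← mul_assoc, h24_inv, one_mul]
  · show X _ = _ * X P' * _
    rw [mul_assoc, h24_G_X hb.2 he.2 hz.2, ← mul_assoc, h24_inv, one_mul]

/-- the normal form -/
structure N31 (P P' : Par k) : Prop where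
  al0 : P.al0 = 1
  al0' : P'.al0 = 0
  g0 : P.g0 = 0
  g0' : P'.g0 = 1
  be0 : Zr P P' Par.be0
  e0 : Zr P P' Par.e0
  zeta : Zr P P' Par.zeta
  al1 : Zr P P' Par.al1
  al2 : Zr P P' Par.al2
  g1 : Zr P P' Par.g1
  pi : Zr P P' Par.pi
  s1 : P'.be1 = P.de0
  s2 : P'.be2 = P.de1
  s3 : P'.q1 = P.f0
  s4 : P'.q2 = P.f1
  s5 : P'.e1 = P.z
  s6 : P'.ph = P.rho

/-- the symmetries follow from the relations -/
theorem h24_N31 (h : MR P P') (hal0 : P.al0 = 1) (hal0' : P'.al0 = 0) (hg0 : P.g0 = 0)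
    (hg0' : P'.g0 = 1) (hb : Zr P P' Par.be0) (he : Zr P P' Par.e0) (hz : Zr P P' Par.zeta)
    (ha1 : Zr P P' Par.al1) (ha2 : Zr P P' Par.al2) (hg1 : Zr P P' Par.g1)
    (hpi : Zr P P' Par.pi) : N31 P P' := by
  obtain ⟨r1, r2, r3, r4, r5, r6, r7, r8, r9, r10, r11, r12, r13, r14, r15, r16, r17, r18, r19,
    r20⟩ := h.rel
  simp only [Br, hal0, hal0', hg0, hg0', hb.1, hb.2, he.1, he.2, hz.1, hz.2, ha1.1, ha1.2,
    ha2.1, ha2.2, hg1.1, hg1.2, hpi.1, hpi.2] at r2 r3 r4 r5 r7 r8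
  refine ⟨hal0, hal0', hg0, hg0', hb, he, hz, ha1, ha2, hg1, hpi, ?_, ?_, ?_, ?_, ?_, ?_⟩
  · linear_combination -r2
  · linear_combination -r3
  · linear_combination -r4
  · linear_combination -r5
  · linear_combination -r7
  · linear_combination -r8

/-- the normal form after a base change, when `al0 = (1, 0)`, `g0 = (0, 1)` -/
theorem h24_norm (h : MR P P') (hal0 : P.al0 = 1) (hal0' : P'.al0 = 0) (hg0 : P.g0 = 0)
    (hg0' : P'.g0 = 1) (hb : Zr P P' Par.be0) (he : Zr P P' Par.e0) (hz : Zr P P' Par.zeta) :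
    ∃ Q Q' : Par k, MR Q Q' ∧ N31 Q Q' ∧ Q.ph = P.ph ∧ Q.rho = P.rho ∧ Q'.rho = P'.rho := by
  have h1 := h24_MR h hb he hz P.al1 P.al2 P.g1 P.pi P'.al1 P'.al2 P'.g1 P'.pi
  refine ⟨_, _, h1, h24_N31 h1 hal0 hal0' hg0 hg0' hb he hz ⟨?_, ?_⟩ ⟨?_, ?_⟩ ⟨?_, ?_⟩
    ⟨?_, ?_⟩, rfl, rfl, rfl⟩ <;> simp only [h24_ch, hal0, hal0', hg0, hg0'] <;> ring

theorem norm31 (h : MR P P') (hb : Zr P P' Par.be0) (he : Zr P P' Par.e0)
    (hz : Zr P P' Par.zeta) (hi : P.al0 * P'.g0 - P'.al0 * P.g0 ≠ 0) :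
    ∃ Q Q' : Par k, MR Q Q' ∧ N31 Q Q' := by
  set D := P.al0 * P'.g0 - P'.al0 * P.g0 with hD
  have h1 := h.gl (P'.g0 / D) (-P.g0 / D) (-P'.al0 / D) (P.al0 / D) (by
    have e : P'.g0 / D * (P.al0 / D) - -P.g0 / D * (-P'.al0 / D) = 1 / D := by
      field_simp
      linear_combination -hD
    rw [e]
    exact one_div_ne_zero hi)
  obtain ⟨Q, Q', h2, h3, -⟩ := h24_norm h1
    (by
      show P'.g0 / D * P.al0 + -P.g0 / D * P'.al0 = 1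
      field_simp
      linear_combination -hD)
    (by
      show -P'.al0 / D * P.al0 + P.al0 / D * P'.al0 = 0
      ring)
    (by
      show P'.g0 / D * P.g0 + -P.g0 / D * P'.g0 = 0
      ring)
    (by
      show -P'.al0 / D * P.g0 + P.al0 / D * P'.g0 = 1
      field_simp
      linear_combination -hD)
    ⟨by simp [comb, hb.1, hb.2], by simp [comb, hb.1, hb.2]⟩
    ⟨by simp [comb, he.1, he.2], by simp [comb, he.1, he.2]⟩
    ⟨by simp [comb, hz.1, hz.2], by simp [comb, hz.1, hz.2]⟩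
  exact ⟨Q, Q', h2, h3⟩

theorem h24_MRsc (h : MR P P') {c c' d d' : k} (hc : c * c' = 1) (hd : d * d' = 1) :
    MR (h24_sc P c c' d d') (h24_sc P' c c' d d') := by
  have hc1 : c' * c = 1 := by rw [mul_comm, hc]
  have hd1 : d' * d = 1 := by rw [mul_comm, hd]
  have h1 := D7.MaxR.conj h _ _ (h24_D_inv hc1 hd1) (h24_D_inv hc hd)
  unfold MR
  convert h1 using 1
  funext i
  fin_cases i
  · show J k = _ * J k * _
    rw [mul_assoc, h24_D_J, ← mul_assoc, h24_D_inv hc1 hd1, one_mul]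
  · show X _ = _ * X P * _
    rw [mul_assoc, h24_D_X P hc hd, ← mul_assoc, h24_D_inv hc1 hd1, one_mul]
  · show X _ = _ * X P' * _
    rw [mul_assoc, h24_D_X P' hc hd, ← mul_assoc, h24_D_inv hc1 hd1, one_mul]

/-- change of the third matrix and of the second one inside the normal form: `B + t C`, `c C` -/
theorem N31.change (h : MR P P') (hn : N31 P P') (t c : k) (hc : c ≠ 0) :
    ∃ Q Q' : Par k, MR Q Q' ∧ N31 Q Q' ∧ Q.ph = P.ph + 2 * t * P.rho + t ^ 2 * P'.rho ∧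
      Q.rho = c * (P.rho + t * P'.rho) ∧ Q'.rho = c ^ 2 * P'.rho := by
  have hcc : c * c⁻¹ = 1 := mul_inv_cancel₀ hc
  have h1 := h24_MRsc (((h.gl 1 t 0 c (by simpa using hc)).uw t)) hcc (mul_one (1 : k))
  refine ⟨_, _, h1, h24_N31 h1 ?_ ?_ ?_ ?_ ⟨?_, ?_⟩ ⟨?_, ?_⟩ ⟨?_, ?_⟩ ⟨?_, ?_⟩ ⟨?_, ?_⟩
    ⟨?_, ?_⟩ ⟨?_, ?_⟩, ?_, ?_, ?_⟩ <;>
    simp [h24_sc, comb, Par.uw, hn.al0, hn.al0', hn.g0, hn.g0', hn.be0.1, hn.be0.2, hn.e0.1,
      hn.e0.2, hn.zeta.1, hn.zeta.2, hn.al1.1, hn.al1.2, hn.al2.1, hn.al2.2, hn.g1.1, hn.g1.2,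
      hn.pi.1, hn.pi.2, hn.s6, hc]
  · ring
  · ring

/-- scaling of `p` -/
theorem N31.scale (h : MR P P') (hn : N31 P P') (c : k) (hc : c ≠ 0) :
    ∃ Q Q' : Par k, MR Q Q' ∧ N31 Q Q' ∧ Q.ph = c * P.ph ∧ Q.rho = c * P.rho ∧
      Q'.rho = c * P'.rho := by
  have hcc : c⁻¹ * c = 1 := inv_mul_cancel₀ hc
  have h1 := h24_MRsc h (mul_one (1 : k)) hcc
  refine ⟨_, _, h1, h24_N31 h1 ?_ ?_ ?_ ?_ ⟨?_, ?_⟩ ⟨?_, ?_⟩ ⟨?_, ?_⟩ ⟨?_, ?_⟩ ⟨?_, ?_⟩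
    ⟨?_, ?_⟩ ⟨?_, ?_⟩, ?_, ?_, ?_⟩ <;>
    simp [h24_sc, hn.al0, hn.al0', hn.g0, hn.g0', hn.be0.1, hn.be0.2, hn.e0.1,
      hn.e0.2, hn.zeta.1, hn.zeta.2, hn.al1.1, hn.al1.2, hn.al2.1, hn.al2.2, hn.g1.1, hn.g1.2,
      hn.pi.1, hn.pi.2]

end Pool.Agent.Lib.D13.T4321
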