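import Pool.Agent.Lib.D13.S5321
import Pool.Agent.Lib.D13.RangeLim

/-!
# MP_5dcbc3_ag: type `(5, 3, 2, 1)`: the rank conditions
-/

set_option autoImplicit false

namespace Pool.Agent.Lib.D13.Q.L5

open Matrix Pool.Agent.Lib.Q5dc Pool.Agent.Lib.D7

variable {k : Type*} [Field k]

/-- second order, rank of the matrix -/
theorem lin_second [Infinite k] {A X : Matrix (Fin 11) (Fin 11) k}
    (hr : ∀ s : k, (A + s • X).rank ≤ A.rank) {q t : Fin 11 → k} (h0 : A *ᵥ q = 0)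
    (h1 : X *ᵥ q = A *ᵥ t) : ∃ m, X *ᵥ t = A *ᵥ m := by
  obtain ⟨m, hm⟩ := range_lim (fun s => A + s • X) (isPoly_line A X)
    (fun s => q - s • t) (fun s => -(X *ᵥ t) + s • (0 : Fin 11 → k)) (isPoly_vec _ _) 2
    (fun s => by
      simp only [add_mulVec, mulVec_sub, mulVec_smul, smul_mulVec, h0, h1]
      module)
    (fun s => by simpa using hr s)
  refine ⟨-m, ?_⟩
  rw [mulVec_neg]
  have h2 : -(X *ᵥ t) = A *ᵥ m := by simpa using hm
  rw [← h2, neg_neg]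

theorem lam_ka [Infinite k] {ρ : ℕ → ℕ} {T : Fin 3 → Matrix (Fin 11) (Fin 11) k}
    (hT : MaxR ρ T) (hρ : ∀ i, ρ i = (J k ^ i).rank) (hJ : J k ∈ adj T) {d : Par k}
    (hd : X d ∈ adj T) : d.lam * d.ka = 0 := by
  have hr : ∀ s : k, (J k + s • X d).rank ≤ (J k).rank := by
    intro s
    have h := hT.rank_le (add_mem hJ (SMulMemClass.smul_mem s hd)) 1
    rwa [pow_one, hρ, pow_one] at h
  obtain ⟨m, hm⟩ := lin_second hr (q := ![0, 0, 0, 0, 0, 0, 0, 0, 0, 0, 1]) (t := ![0, 0, 0, d.th, 0, 0, d.et, 0, d.lam, 0, 0])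
    (by
      rw [J_mulVec]
      funext i
      fin_cases i <;> simp [actJ])
    (by
      rw [J_mulVec, X_mulVec]
      funext i
      fin_cases i <;> simp [actJ, act])
  rw [J_mulVec, X_mulVec] at hm
  have h1 := congrFun hm 10
  simp [act, actJ] at h1
  rcases h1 with h1 | h1 <;> simp [h1]

theorem q0_r0 [CharZero k] {ρ : ℕ → ℕ} {T : Fin 3 → Matrix (Fin 11) (Fin 11) k}
    (hT : MaxR ρ T) (hρ : ∀ i, ρ i = (J k ^ i).rank) (hJ : J k ∈ adj T) {d : Par k}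
    (hd : X d ∈ adj T) : d.q0 * d.r0 = 0 := by
  have h0 := lam_ka hT hρ hJ hd
  have hr : ∀ s : k, ((J k + s • X d) ^ 2).rank ≤ (J k ^ 2).rank := by
    intro s
    have h := hT.rank_le (add_mem hJ (SMulMemClass.smul_mem s hd)) 2
    rwa [hρ] at h
  obtain ⟨m, hm⟩ := sq_second hr (q := ![0, 0, 0, 0, 0, 0, 0, 0, 1, 0, 0])
    (t := ![0, 0, 2 * d.b0, 0, 0, 2 * d.r0, 0, 0, 0, 0, 0])
    (by
      rw [← mulVec_mulVec, J_mulVec, J_mulVec]
      funext i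
      fin_cases i <;> simp [actJ])
    (by
      simp only [add_mulVec, ← mulVec_mulVec, J_mulVec, X_mulVec]
      funext i
      fin_cases i <;> simp [actJ, act] <;> ring)
  simp only [add_mulVec, ← mulVec_mulVec, J_mulVec, X_mulVec] at hm
  have h1 := congrFun hm 9
  simp [act, actJ] at h1
  have h2 : (3 : k) * (d.q0 * d.r0) = 0 := by linear_combination -h1 + h0
  exact (mul_eq_zero.1 h2).resolve_left (by norm_num)

theorem pair_zero {a a' b b' : k} (h1 : a * b = 0) (h2 : a' * b' = 0)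
    (h3 : (a + a') * (b + b') = 0) : (a = 0 ∧ a' = 0) ∨ (b = 0 ∧ b' = 0) := by
  by_cases ha : a = 0
  · by_cases ha' : a' = 0
    · exact Or.inl ⟨ha, ha'⟩
    · have hb' : b' = 0 := (mul_eq_zero.1 h2).resolve_left ha'
      rw [ha, hb', zero_add, add_zero] at h3
      exact Or.inr ⟨(mul_eq_zero.1 h3).resolve_left ha', hb'⟩
  · have hb : b = 0 := (mul_eq_zero.1 h1).resolve_left ha
    by_cases ha' : a' = 0
    · rw [ha', hb, zero_add, add_zero] at h3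
      exact Or.inr ⟨hb, (mul_eq_zero.1 h3).resolve_left ha⟩
    · exact Or.inr ⟨hb, (mul_eq_zero.1 h2).resolve_left ha'⟩

variable {ρ : ℕ → ℕ} {d e : Par k}

theorem mem_sum {d e : Par k} : X (Par.comb 1 1 d e) ∈ adj ![J k, X d, X e] := by
  rw [X_comb, one_smul, one_smul]
  exact add_mem (D8.mem1 _ _ _) (D8.mem2 _ _ _)

theorem rk1 [CharZero k] (hT : MaxR ρ ![J k, X d, X e]) (hρ : ∀ i, ρ i = (J k ^ i).rank) :
    (d.q0 = 0 ∧ e.q0 = 0) ∨ (d.r0 = 0 ∧ e.r0 = 0) := by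
  refine pair_zero (q0_r0 hT hρ (D8.mem0 _ _ _) (D8.mem1 _ _ _))
    (q0_r0 hT hρ (D8.mem0 _ _ _) (D8.mem2 _ _ _)) ?_
  have h := q0_r0 hT hρ (D8.mem0 _ _ _) mem_sum
  simpa [Par.comb] using h

theorem rk2 [Infinite k] (hT : MaxR ρ ![J k, X d, X e]) (hρ : ∀ i, ρ i = (J k ^ i).rank) :
    (d.lam = 0 ∧ e.lam = 0) ∨ (d.ka = 0 ∧ e.ka = 0) := by
  refine pair_zero (lam_ka hT hρ (D8.mem0 _ _ _) (D8.mem1 _ _ _))
    (lam_ka hT hρ (D8.mem0 _ _ _) (D8.mem2 _ _ _)) ?_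
  have h := lam_ka hT hρ (D8.mem0 _ _ _) mem_sum
  simpa only [Par.comb, one_mul] using h

end Pool.Agent.Lib.D13.Q.L5
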