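import Pool.Agent.Lib.D13.K6a

/-!
# MP_5dcbc3_ag: type `(4, 3, 2, 1)`: `Phi` of rank 1, `rho C ≠ 0`
-/

set_option autoImplicit false

namespace Pool.Agent.Lib.D13.T4321

open Matrix Pool.Agent.Lib.Q5dc

section Gen

variable {k : Type*} [Field k] {P P' : Par k}

/-- directions of the moves inside the normal form -/
def h53_mv (b1 e q ph x f th eta rho z : k) : Par k :=
  { zero k with
    be1 := b1
    e1 := e
    q1 := q
    ph := ph
    de0 := x
    f0 := f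
    th := th
    eta := eta
    rho := rho
    z := z }

/-- the relations that are left in the normal form with `rho = 0` -/
structure h53_R4 (b1 e q ph x f y th eta x' f' z' rho' th' eta' : k) : Prop where
  r12 : x + y * f - e * f' - ph * eta' = 0
  r17 : x' + f' * q - f ^ 2 + z' * f - y * f' + rho' * eta = 0
  r10 : f * b1 - q * x + y * x - e * x' - ph * th' = 0
  r16 : f' * b1 - f * x + z' * x - y * x' + rho' * th = 0

theorem N31.h53_eqs (hn : N31 P P') (h : Rel P P') (hrho : P.rho = 0) :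
    h53_R4 P.be1 P.e1 P.q1 P.ph P.de0 P.f0 P.z P.th P.eta P'.de0 P'.f0 P'.z P'.rho P'.th
      P'.eta := by
  have r10 := h.r10
  have r12 := h.r12
  have r16 := h.r16
  have r17 := h.r17
  simp only [Br, hn.al0, hn.al0', hn.be0.1, hn.be0.2, hn.e0.1, hn.e0.2, hn.al1.1, hn.al1.2,
    hn.s1, hn.s3, hn.s5, hn.s6, hrho] at r10 r12 r16 r17
  constructor
  · linear_combination r12
  · linear_combination r17
  · linear_combination r10
  · linear_combination r16

/-- the relations of the normal form -/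
theorem h53_rel31 (hn : N31 P P') (hrho : P.rho = 0)
    {b1 e ph x f th eta x' f' z' rho' th' eta' : k} {s : k}
    (h : h53_R4 (P.be1 + s * b1) (P.e1 + s * e) P.q1 (P.ph + s * ph) (P.de0 + s * x)
      (P.f0 + s * f) P.z (P.th + s * th) (P.eta + s * eta) (P'.de0 + s * x') (P'.f0 + s * f')
      (P'.z + s * z') (P'.rho + s * rho') (P'.th + s * th') (P'.eta + s * eta')) :
    Rel (line P (h53_mv b1 e 0 ph x f th eta 0 0) s)
      (line P' (h53_mv x 0 f 0 x' f' th' eta' rho' z') s) := by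
  obtain ⟨r12, r17, r10, r16⟩ := h
  constructor <;> simp only [Br, line, h53_mv, zero, hn.al0, hn.al0', hn.g0, hn.g0', hn.be0.1,
    hn.be0.2, hn.e0.1, hn.e0.2, hn.zeta.1, hn.zeta.2, hn.al1.1, hn.al1.2, hn.al2.1, hn.al2.2,
    hn.g1.1, hn.g1.2, hn.pi.1, hn.pi.2, hn.s1, hn.s2, hn.s3, hn.s4, hn.s5, hn.s6, hrho]
  · ring
  · ring
  · ring
  · ring
  · ring
  · ring
  · ring
  · ring
  · ring
  · linear_combination r10
  · ring
  · linear_combination r12
  · ring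
  · ring
  · ring
  · linear_combination r16
  · linear_combination r17
  · ring
  · ring
  · ring

end Gen

variable {k : Type*} [Field k] [IsAlgClosed k] [CharZero k] {P P' : Par k}

/-- moves inside the normal form with `rho = 0` -/
theorem h53_move31 (h : MR P P') (hn : N31 P P') (hrho : P.rho = 0)
    (b1 e ph x f th eta x' f' z' rho' th' eta' : k)
    (hr : ∀ s, h53_R4 (P.be1 + s * b1) (P.e1 + s * e) P.q1 (P.ph + s * ph) (P.de0 + s * x)
      (P.f0 + s * f) P.z (P.th + s * th) (P.eta + s * eta) (P'.de0 + s * x') (P'.f0 + s * f')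
      (P'.z + s * z') (P'.rho + s * rho') (P'.th + s * th') (P'.eta + s * eta')) :
    ∃ (s : k) (Q Q' : Par k), s ≠ 0 ∧ MR Q Q' ∧ N31 Q Q' ∧ Q.rho = 0 ∧ Q.ph = P.ph + s * ph ∧
      Q'.rho = P'.rho + s * rho' ∧ Q.f0 = P.f0 + s * f ∧ Q.e1 = P.e1 + s * e ∧
      Q'.f0 = P'.f0 + s * f' ∧ Q'.z = P'.z + s * z' := by
  obtain ⟨s, hs, h1⟩ := h.move (h53_mv b1 e 0 ph x f th eta 0 0)
    (h53_mv x 0 f 0 x' f' th' eta' rho' z') (fun s => h53_rel31 hn hrho (hr s))
    (Set.finite_singleton (0 : k))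
  rw [Set.mem_singleton_iff] at hs
  refine ⟨s, _, _, hs, h1, h24_N31 h1 ?_ ?_ ?_ ?_ ⟨?_, ?_⟩ ⟨?_, ?_⟩ ⟨?_, ?_⟩ ⟨?_, ?_⟩ ⟨?_, ?_⟩
    ⟨?_, ?_⟩ ⟨?_, ?_⟩, ?_, ?_, ?_, ?_, ?_, ?_, ?_⟩ <;>
    simp [line, h53_mv, zero, hn.al0, hn.al0', hn.g0, hn.g0', hn.be0.1, hn.be0.2, hn.e0.1,
      hn.e0.2, hn.zeta.1, hn.zeta.2, hn.al1.1, hn.al1.2, hn.al2.1, hn.al2.2, hn.g1.1, hn.g1.2,
      hn.pi.1, hn.pi.2, hrho]

/-- `f ≠ 0` -/
theorem h53_b1 (h : MR P P') (hn : N31 P P') (h1 : P.ph = 0) (h2 : P.rho = 0)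
    (h3 : P'.rho ≠ 0) (hf : P.f0 ≠ 0) : False := by
  obtain ⟨r12, r17, r10, r16⟩ := hn.h53_eqs h.rel h2
  rw [h1] at r12 r10
  obtain ⟨b, hb⟩ : ∃ b, P.f0 * b = P'.th - (P.z - P.q1) * P'.eta :=
    ⟨_, mul_div_cancel₀ _ hf⟩
  obtain ⟨t, ht⟩ : ∃ t, P'.rho * t = -(P'.f0 * b + (P'.z - P.f0) * P'.eta) :=
    ⟨_, mul_div_cancel₀ _ h3⟩
  obtain ⟨s, Q, Q', hs, h4, h5, e1, e2, e3, -⟩ := h53_move31 h hn h2 b 0 1 P'.eta 0 t 0
    0 0 0 0 0 0 (by
      intro s
      rw [h1]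
      constructor
      · linear_combination r12
      · linear_combination r17
      · linear_combination r10 + s * hb
      · linear_combination r16 + s * ht)
  refine no_N31_det h4 h5 ?_
  rw [e1, e2, e3, h1]
  simp [hs, h3]

/-- `f = 0`, `e ≠ 0` -/
theorem h53_b2 (h : MR P P') (hn : N31 P P') (h1 : P.ph = 0) (h2 : P.rho = 0)
    (h3 : P'.rho ≠ 0) (hf : P.f0 = 0) (he : P.e1 ≠ 0) : False := by
  obtain ⟨r12, r17, r10, r16⟩ := hn.h53_eqs h.rel h2
  rw [h1, hf] at r12 r10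
  rw [hf] at r17 r16
  obtain ⟨d, hd⟩ : ∃ d, P.e1 * d = (P.z - P.q1) * P'.eta - P'.th :=
    ⟨_, mul_div_cancel₀ _ he⟩
  obtain ⟨t, ht⟩ : ∃ t, P'.rho * t = -(P'.z * P'.eta - P.z * d) := ⟨_, mul_div_cancel₀ _ h3⟩
  obtain ⟨u, hu⟩ : ∃ u, P'.rho * u = -d := ⟨_, mul_div_cancel₀ _ h3⟩
  obtain ⟨s, Q, Q', hs, h4, h5, e1, e2, e3, -⟩ := h53_move31 h hn h2 0 0 1 P'.eta 0 t u
    d 0 0 0 0 0 (by
      intro s
      rw [h1, hf]
      constructor
      · linear_combination r12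
      · linear_combination r17 + s * hu
      · linear_combination r10 - s * hd
      · linear_combination r16 + s * ht)
  refine no_N31_det h4 h5 ?_
  rw [e1, e2, e3, h1]
  simp [hs, h3]

theorem no_N31_b (h : MR P P') (hn : N31 P P') (h1 : P.ph = 0) (h2 : P.rho = 0)
    (h3 : P'.rho ≠ 0) : False := by
  by_cases hf : P.f0 = 0
  · by_cases he : P.e1 = 0
    · obtain ⟨r12, r17, r10, r16⟩ := hn.h53_eqs h.rel h2
      rw [h1, hf, he] at r12 r10
      rw [hf] at r17 r16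
      obtain ⟨a, c, hac, hXY⟩ : ∃ a c : k, (a ≠ 0 ∨ c ≠ 0) ∧
          a * (P.be1 - P.z * (P.z - P.q1)) = c * (P'.de0 - P'.f0 * (P.z - P.q1)) := by
        by_cases hX : P.be1 - P.z * (P.z - P.q1) = 0
        · exact ⟨1, 0, Or.inl one_ne_zero, by rw [hX]; ring⟩
        · exact ⟨P'.de0 - P'.f0 * (P.z - P.q1), P.be1 - P.z * (P.z - P.q1), Or.inr hX, by ring⟩
      obtain ⟨t, ht⟩ : ∃ t, P'.rho * t = -(P'.z * (c * P'.f0 - P.z * a)) :=
        ⟨_, mul_div_cancel₀ _ h3⟩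
      obtain ⟨u, hu⟩ : ∃ u, P'.rho * u = -(a * P'.z) := ⟨_, mul_div_cancel₀ _ h3⟩
      obtain ⟨s, Q, Q', hs, h4, h5, e1, e2, e3, e4, e5, -⟩ := h53_move31 h hn h2
        0 c 0 (c * P'.f0 - P.z * a) a t u 0 0 a 0 0 0 (by
          intro s
          rw [h1, hf, he]
          constructor
          · linear_combination r12
          · linear_combination r17 + s * hu
          · linear_combination r10 + s * hXY
          · linear_combination r16 + s * ht)
      rw [h1, mul_zero, add_zero] at e2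
      rw [mul_zero, add_zero] at e3
      rw [hf, zero_add] at e4
      rw [he, zero_add] at e5
      by_cases hf' : Q.f0 = 0
      · refine h53_b2 h4 h5 e2 e1 (by rwa [e3]) hf' ?_
        rw [e5]
        refine mul_ne_zero hs ?_
        rcases hac with ha | hc
        · rw [e4] at hf'
          exact absurd hf' (mul_ne_zero hs ha)
        · exact hc
      · exact h53_b1 h4 h5 e2 e1 (by rwa [e3]) hf'
    · exact h53_b2 h hn h1 h2 h3 hf he
  · exact h53_b1 h hn h1 h2 h3 hf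

end Pool.Agent.Lib.D13.T4321
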