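import Pool.Agent.Lib.D13.K6b

/-!
# MP_5dcbc3_ag: type `(4, 3, 2, 1)`: `Phi` of rank 1, `rho C = 0`
-/

set_option autoImplicit false

namespace Pool.Agent.Lib.D13.T4321

open Matrix Pool.Agent.Lib.Q5dc

variable {k : Type*} [Field k] [IsAlgClosed k] [CharZero k] {P P' : Par k}

/-- `F ≠ 0` -/
theorem h53_c1 (h : MR P P') (hn : N31 P P') (h1 : P.ph ≠ 0) (h2 : P.rho = 0)
    (h3 : P'.rho = 0) (hF : P'.f0 ≠ 0) : False := by
  obtain ⟨r12, r17, r10, r16⟩ := hn.h53_eqs h.rel h2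
  rw [h3] at r17 r16
  obtain ⟨b, hb⟩ : ∃ b, P'.f0 * b = -(P.z * P.eta + P.th) := ⟨_, mul_div_cancel₀ _ hF⟩
  obtain ⟨t, ht⟩ : ∃ t, P.ph * t = P.f0 * b + P.e1 * P.eta := ⟨_, mul_div_cancel₀ _ h1⟩
  obtain ⟨s, Q, Q', hs, h4, h5, e1, e2, e3, -⟩ := h53_move31 h hn h2 b 0 0 0 0 0 0
    (-P.eta) 0 0 1 t 0 (by
      intro s
      rw [h3]
      constructor
      · linear_combination r12
      · linear_combination r17
      · linear_combination r10 - s * ht
      · linear_combination r16 + s * hb)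
  refine no_N31_det h4 h5 ?_
  rw [e1, e2, e3, h3]
  simp [hs, h1]

/-- `F = 0`, `Z ≠ f` -/
theorem h53_c2 (h : MR P P') (hn : N31 P P') (h1 : P.ph ≠ 0) (h2 : P.rho = 0)
    (h3 : P'.rho = 0) (hF : P'.f0 = 0) (hZ : P'.z ≠ P.f0) : False := by
  obtain ⟨r12, r17, r10, r16⟩ := hn.h53_eqs h.rel h2
  rw [h3, hF] at r17 r16
  rw [hF] at r12
  obtain ⟨x, hx⟩ : ∃ x, (P'.z - P.f0) * x = -(P.z * P.eta + P.th) :=
    ⟨_, mul_div_cancel₀ _ (sub_ne_zero.2 hZ)⟩
  obtain ⟨u, hu⟩ : ∃ u, P.ph * u = x := ⟨_, mul_div_cancel₀ _ h1⟩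
  obtain ⟨t, ht⟩ : ∃ t, P.ph * t = (P.z - P.q1) * x + P.e1 * P.eta :=
    ⟨_, mul_div_cancel₀ _ h1⟩
  obtain ⟨s, Q, Q', hs, h4, h5, e1, e2, e3, -⟩ := h53_move31 h hn h2 0 0 0 x 0 0 0
    (-P.eta) 0 0 1 t u (by
      intro s
      rw [h3, hF]
      constructor
      · linear_combination r12 - s * hu
      · linear_combination r17
      · linear_combination r10 - s * ht
      · linear_combination r16 + s * hx)
  refine no_N31_det h4 h5 ?_
  rw [e1, e2, e3, h3]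
  simp [hs, h1]

theorem no_N31_c (h : MR P P') (hn : N31 P P') (h1 : P.ph ≠ 0) (h2 : P.rho = 0)
    (h3 : P'.rho = 0) : False := by
  by_cases hF : P'.f0 = 0
  · by_cases hZ : P'.z = P.f0
    · obtain ⟨r12, r17, r10, r16⟩ := hn.h53_eqs h.rel h2
      rw [h3, hF, hZ] at r17 r16
      rw [hF] at r12
      obtain ⟨a, c, hac, hXY⟩ : ∃ a c : k, (a ≠ 0 ∨ c ≠ 0) ∧
          a * (P.be1 - P.z * (P.z - P.q1)) + c * (P.de0 + P.z * P.f0) = 0 := by
        by_cases hX : P.be1 - P.z * (P.z - P.q1) = 0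
        · exact ⟨1, 0, Or.inl one_ne_zero, by rw [hX]; ring⟩
        · exact ⟨-(P.de0 + P.z * P.f0), P.be1 - P.z * (P.z - P.q1), Or.inr hX, by ring⟩
      obtain ⟨t, ht⟩ : ∃ t, P.ph * t = -(P.e1 * (a * (P.z - P.q1) - c * P.f0)) :=
        ⟨_, mul_div_cancel₀ _ h1⟩
      obtain ⟨u, hu⟩ : ∃ u, P.ph * u = -(P.e1 * a) := ⟨_, mul_div_cancel₀ _ h1⟩
      obtain ⟨s, Q, Q', hs, h4, h5, e1, e2, e3, e4, -, e6, e7⟩ := h53_move31 h hn h2
        0 0 0 0 0 0 0 (a * (P.z - P.q1) - c * P.f0) a c 0 t u (by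
          intro s
          rw [h3, hF, hZ]
          constructor
          · linear_combination r12 - s * hu
          · linear_combination r17
          · linear_combination r10 - s * ht
          · linear_combination r16 + s * hXY)
      rw [mul_zero, add_zero] at e2 e3 e4
      rw [hF, zero_add] at e6
      by_cases hF' : Q'.f0 = 0
      · refine h53_c2 h4 h5 (by rwa [e2]) e1 (e3.trans h3) hF' ?_
        rw [e7, e4, hZ]
        intro h0
        rw [add_eq_left] at h0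
        rcases hac with ha | hc
        · rw [e6] at hF'
          exact mul_ne_zero hs ha hF'
        · exact mul_ne_zero hs hc h0
      · exact h53_c1 h4 h5 (by rwa [e2]) e1 (e3.trans h3) hF'
    · exact h53_c2 h hn h1 h2 h3 hF hZ
  · exact h53_c1 h hn h1 h2 h3 hF

end Pool.Agent.Lib.D13.T4321
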