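import Pool.Agent.Lib.D13.V4321
import Pool.Agent.Lib.D13.K6b
import Pool.Agent.Lib.D13.K6c

/-!
# MP_5dcbc3_ag: type `(4, 3, 2, 1)`: `al0`, `g0` independent
-/

set_option autoImplicit false

namespace Pool.Agent.Lib.D13.T4321

open Matrix Pool.Agent.Lib.Q5dc

variable {k : Type*} [Field k] [IsAlgClosed k] [CharZero k] {P P' : Par k}

theorem no_N31 (h : MR P P') (hn : N31 P P') : False := by
  by_cases hd : P.ph * P'.rho - P.rho ^ 2 = 0
  · by_cases hr : P'.rho = 0
    · rw [hr, mul_zero, zero_sub, neg_eq_zero] at hd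
      have hp : P.rho = 0 := by simpa using hd
      by_cases hf : P.ph = 0
      · exact h.kf ⟨hp, hr⟩ 0 0 ⟨by rw [hf, zero_mul], by rw [hn.s6, hp, zero_mul]⟩
          ⟨by rw [hn.pi.1]; ring, by rw [hn.pi.2]; ring⟩
          (Or.inl fun h0 => one_ne_zero (hn.al0.symm.trans h0.1))
      · exact no_N31_c h hn hf hp hr
    · obtain ⟨Q, Q', h1, h2, e1, e2, e3⟩ := hn.change h (-P.rho / P'.rho) 1 one_ne_zero
      refine no_N31_b h1 h2 ?_ ?_ ?_
      · rw [e1]
        field_simp
        linear_combination hd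
      · rw [e2]
        field_simp
        ring
      · rw [e3, one_pow, one_mul]
        exact hr
  · exact no_N31_det h hn hd

theorem no_C3_ind (h : MR P P') (hb : Zr P P' Par.be0) (he : Zr P P' Par.e0)
    (hz : Zr P P' Par.zeta) (hi : P.al0 * P'.g0 - P'.al0 * P.g0 ≠ 0) : False := by
  obtain ⟨Q, Q', h1, h2⟩ := norm31 h hb he hz hi
  exact no_N31 h1 h2

end Pool.Agent.Lib.D13.T4321
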