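import Pool.Agent.Lib.D13.K7

/-!
# MP_5dcbc3_ag: type `(4, 3, 2, 1)`: `Phi` of rank 2
-/

set_option autoImplicit false

namespace Pool.Agent.Lib.D13.T4321

open Matrix Pool.Agent.Lib.Q5dc

/-- a matrix that commutes with `B` may be added to `C` -/
theorem h24_rel_add {k : Type*} [Field k] {P P' K : Par k} (h : Rel P P') (hK : Rel P K) (s : k) :
    Rel (line P (zero k) s) (line P' K s) := by
  obtain ⟨r1, r2, r3, r4, r5, r6, r7, r8, r9, r10, r11, r12, r13, r14, r15, r16, r17, r18, r19,
    r20⟩ := h
  obtain ⟨q1, q2, q3, q4, q5, q6, q7, q8, q9, q10, q11, q12, q13, q14, q15, q16, q17, q18, q19,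
    q20⟩ := hK
  simp only [Br] at *
  constructor <;> simp only [Br, line, zero]
  · linear_combination r1 + s * q1
  · linear_combination r2 + s * q2
  · linear_combination r3 + s * q3
  · linear_combination r4 + s * q4
  · linear_combination r5 + s * q5
  · linear_combination r6 + s * q6
  · linear_combination r7 + s * q7
  · linear_combination r8 + s * q8
  · linear_combination r9 + s * q9
  · linear_combination r10 + s * q10
  · linear_combination r11 + s * q11
  · linear_combination r12 + s * q12
  · linear_combination r13 + s * q13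
  · linear_combination r14 + s * q14
  · linear_combination r15 + s * q15
  · linear_combination r16 + s * q16
  · linear_combination r17 + s * q17
  · linear_combination r18 + s * q18
  · linear_combination r19 + s * q19
  · linear_combination r20 + s * q20

variable {k : Type*} [Field k] [IsAlgClosed k] [CharZero k] {P P' : Par k}

/-- `rho' ≠ 0` -/
theorem h24_det1 (h : MR P P') (hn : N31 P P') (hd : P.ph * P'.rho - P.rho ^ 2 ≠ 0)
    (hr : P'.rho ≠ 0) : False := by
  obtain ⟨Q, Q', h1, h2, e1, e2, e3⟩ := hn.change h (-P.rho / P'.rho) 1 one_ne_zero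
  refine h24_no_F2 h1 h2 ?_ ?_ ?_
  · rw [e1]
    intro h0
    apply hd
    field_simp at h0
    linear_combination h0
  · rw [e2]
    field_simp
    ring
  · rw [e3, one_pow, one_mul]
    exact hr

theorem no_N31_det (h : MR P P') (hn : N31 P P') (hd : P.ph * P'.rho - P.rho ^ 2 ≠ 0) :
    False := by
  by_cases hr : P'.rho = 0
  · rw [hr, mul_zero, zero_sub, neg_ne_zero] at hd
    have hp : P.rho ≠ 0 := fun h0 => hd (by rw [h0]; ring)
    obtain ⟨Q, Q', h1, h2, e1, e2, e3⟩ := hn.change h (-P.ph / (2 * P.rho)) 1 one_ne_zero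
    rw [hr, mul_zero, add_zero] at e1 e2
    rw [one_mul] at e2
    rw [hr, mul_zero] at e3
    have e4 : Q.ph = 0 := by
      rw [e1]
      field_simp
      ring
    have hq : Q.rho ≠ 0 := by rwa [e2]
    have hK : Rel Q { zero k with rho := 1, eta := Q.eta / Q.rho, th := Q.th / Q.rho } := by
      constructor <;>
        simp [Br, zero, h2.g0, h2.be0.1, h2.e0.1, h2.zeta.1, h2.pi.1, e4]
      · field_simp
        ring
      · field_simp
        ring
    obtain ⟨s, hs, h3⟩ := h1.move (zero k)
      { zero k with rho := 1, eta := Q.eta / Q.rho, th := Q.th / Q.rho }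
      (fun s => h24_rel_add h1.rel hK s) (Set.finite_singleton (0 : k))
    rw [Set.mem_singleton_iff] at hs
    have h4 := h24_N31 h3 (by simp [line, zero, h2.al0]) (by simp [line, zero, h2.al0'])
      (by simp [line, zero, h2.g0]) (by simp [line, zero, h2.g0'])
      ⟨by simp [line, zero, h2.be0.1], by simp [line, zero, h2.be0.2]⟩
      ⟨by simp [line, zero, h2.e0.1], by simp [line, zero, h2.e0.2]⟩
      ⟨by simp [line, zero, h2.zeta.1], by simp [line, zero, h2.zeta.2]⟩
      ⟨by simp [line, zero, h2.al1.1], by simp [line, zero, h2.al1.2]⟩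
      ⟨by simp [line, zero, h2.al2.1], by simp [line, zero, h2.al2.2]⟩
      ⟨by simp [line, zero, h2.g1.1], by simp [line, zero, h2.g1.2]⟩
      ⟨by simp [line, zero, h2.pi.1], by simp [line, zero, h2.pi.2]⟩
    refine h24_det1 h3 h4 ?_ ?_
    · simp [line, zero, e4, hq]
    · simp [line, zero, e3, hs]
  · exact h24_det1 h hn hd hr

end Pool.Agent.Lib.D13.T4321
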