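import Pool.Agent.Lib.D13.K5
import Pool.Agent.Lib.D13.F2d4321

/-!
# MP_5dcbc3_ag: type `(4, 3, 2, 1)`: density of the family F2
-/

set_option autoImplicit false

namespace Pool.Agent.Lib.D13.T4321

open Matrix Pool.Agent.Lib.Q5dc

variable {k : Type*} [Field k] [IsAlgClosed k] [CharZero k] {P P' : Par k}

omit [IsAlgClosed k] in
/-- the family (1342|2431) with arbitrary `ph, rho' ≠ 0` -/
theorem h24_no_F2 (h : MR P P') (hn : N31 P P') (h1 : P.ph ≠ 0) (h2 : P.rho = 0)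
    (h3 : P'.rho ≠ 0) : False :=
  h.ncl (cl_F2 h.rel hn.al0 hn.al0' hn.al1.1 hn.al1.2 hn.al2.1 hn.al2.2 hn.g0 hn.g0' hn.g1.1
    hn.g1.2 hn.pi.1 hn.pi.2 hn.be0.1 hn.be0.2 hn.e0.1 hn.e0.2 hn.zeta.1 hn.zeta.2 h1
    (hn.s6.trans h2) h2 h3)

/-- the family (1342|2431) -/
theorem no_F2 (h : MR P P') (hn : N31 P P') (h1 : P.ph = 1) (h2 : P.rho = 0) (h3 : P'.rho = 1) :
    False := h24_no_F2 h hn (by rw [h1]; exact one_ne_zero) h2 (by rw [h3]; exact one_ne_zero)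

end Pool.Agent.Lib.D13.T4321
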