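import Pool.Agent.Lib.D13.K6

/-!
# MP_5dcbc3_ag: type `(4, 3, 2, 1)`: `g0 = 0`, `(e1, ph) ≠ 0`: a move of `C`
-/

set_option autoImplicit false

namespace Pool.Agent.Lib.D13.T4321

open Matrix Pool.Agent.Lib.Q5dc

variable {k : Type*} [Field k] [IsAlgClosed k] [CharZero k] {P P' : Par k}

/-- a matrix that commutes with `B` may be added to `C` -/
theorem h35_rel_add {k : Type*} [Field k] {P P' K : Par k} (h : Rel P P') (hK : Rel P K) (s : k) :
    Rel (line P (zero k) s) (line P' K s) := by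
  obtain ⟨r1, r2, r3, r4, r5, r6, r7, r8, r9, r10, r11, r12, r13, r14, r15, r16, r17, r18, r19,
    r20⟩ := h
  obtain ⟨q1, q2, q3, q4, q5, q6, q7, q8, q9, q10, q11, q12, q13, q14, q15, q16, q17, q18, q19,
    q20⟩ := hK
  simp only [Br] at *
  constructor <;> simp only [Br, line, zero]
  · linear_combination r1 + s * q1
  · linear_combination r2 + s * q2
  · linear_combination r3 + s * q3
  · linear_combination r4 + s * q4
  · linear_combination r5 + s * q5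
  · linear_combination r6 + s * q6
  · linear_combination r7 + s * q7
  · linear_combination r8 + s * q8
  · linear_combination r9 + s * q9
  · linear_combination r10 + s * q10
  · linear_combination r11 + s * q11
  · linear_combination r12 + s * q12
  · linear_combination r13 + s * q13
  · linear_combination r14 + s * q14
  · linear_combination r15 + s * q15
  · linear_combination r16 + s * q16
  · linear_combination r17 + s * q17
  · linear_combination r18 + s * q18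
  · linear_combination r19 + s * q19
  · linear_combination r20 + s * q20

/-- the matrix `K` -/
def h35_K (P : Par k) (x₁ x₂ x₃ x₄ x₅ x₆ : k) : Par k :=
  { zero k with
    g0 := 1
    be1 := P.de0
    be2 := -P.al1 * P.de0 + P.de1 - P.g1 * x₂ - P.pi * x₄
    q1 := P.f0
    q2 := -P.al1 * P.f0 + P.f1 - P.g1 * x₁ - P.pi * x₃
    e1 := P.z
    ph := P.rho
    f0 := x₁
    de0 := x₂
    eta := x₃
    th := x₄
    z := x₅
    rho := x₆ }

/-- four equations make `K` commute with `B` -/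
theorem h35_relK {k : Type*} [Field k] {P : Par k} (ha : P.al0 = 1) (hg : P.g0 = 0) (hb : P.be0 = 0)
    (he : P.e0 = 0) (hz : P.zeta = 0) {x₁ x₂ x₃ x₄ x₅ x₆ : k}
    (h12 : P.de0 + P.z * P.f0 - P.e1 * x₁ + P.rho * P.eta - P.ph * x₃ = 0)
    (h10 : P.f0 * P.be1 - P.q1 * P.de0 + P.z * P.de0 - P.e1 * x₂ + P.rho * P.th - P.ph * x₄ = 0)
    (h16 : x₁ * P.be1 - P.f0 * P.de0 + x₅ * P.de0 - P.z * x₂ + x₆ * P.th - P.rho * x₄ = 0)
    (h17 : x₂ + x₁ * P.q1 - P.f0 ^ 2 + x₅ * P.f0 - P.z * x₁ + x₆ * P.eta - P.rho * x₃ = 0) :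
    Rel P (h35_K P x₁ x₂ x₃ x₄ x₅ x₆) := by
  constructor <;> simp only [Br, h35_K, zero, ha, hg, hb, he, hz]
  · ring
  · ring
  · ring
  · ring
  · ring
  · ring
  · ring
  · ring
  · ring
  · linear_combination h10
  · ring
  · linear_combination h12
  · ring
  · ring
  · ring
  · linear_combination h16
  · linear_combination h17
  · ring
  · ring
  · ring

theorem h35_solveK {k : Type*} [Field k] (P : Par k) (hne : P.e1 ≠ 0 ∨ P.ph ≠ 0) :
    ∃ x₁ x₂ x₃ x₄ x₅ x₆ : k,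
      P.de0 + P.z * P.f0 - P.e1 * x₁ + P.rho * P.eta - P.ph * x₃ = 0 ∧
      P.f0 * P.be1 - P.q1 * P.de0 + P.z * P.de0 - P.e1 * x₂ + P.rho * P.th - P.ph * x₄ = 0 ∧
      x₁ * P.be1 - P.f0 * P.de0 + x₅ * P.de0 - P.z * x₂ + x₆ * P.th - P.rho * x₄ = 0 ∧
      x₂ + x₁ * P.q1 - P.f0 ^ 2 + x₅ * P.f0 - P.z * x₁ + x₆ * P.eta - P.rho * x₃ = 0 := by
  by_cases hp : P.ph = 0
  · have he : P.e1 ≠ 0 := by
      rcases hne with h | h
      · exact h
      · exact absurd hp h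
    refine ⟨(P.de0 + P.z * P.f0 + P.rho * P.eta) / P.e1,
      (P.f0 * P.be1 - P.q1 * P.de0 + P.z * P.de0 + P.rho * P.th) / P.e1,
      (P.th + (P.q1 - P.z) * P.eta) / P.e1, (P.be1 * P.eta - P.z * P.th) / P.e1,
      P.f0 + (P.z ^ 2 - P.z * P.q1 - P.be1) / P.e1, 0, ?_, ?_, ?_, ?_⟩ <;> (try rw [hp]) <;>
      field_simp <;> ring
  · refine ⟨P.rho * P.f0 / P.ph, P.rho * P.de0 / P.ph,
      (P.de0 + P.z * P.f0 + P.rho * P.eta - P.e1 * (P.rho * P.f0 / P.ph)) / P.ph,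
      (P.f0 * P.be1 - P.q1 * P.de0 + P.z * P.de0 + P.rho * P.th -
        P.e1 * (P.rho * P.de0 / P.ph)) / P.ph,
      P.f0 + P.rho * (2 * P.z - P.q1 - P.rho * P.e1 / P.ph) / P.ph, P.rho ^ 2 / P.ph,
      ?_, ?_, ?_, ?_⟩ <;> field_simp <;> ring

theorem no_C3_K (h : MR P P') (ha : P.al0 = 1) (ha' : P'.al0 = 0) (hg : Zr P P' Par.g0)
    (hb : Zr P P' Par.be0) (he : Zr P P' Par.e0) (hz : Zr P P' Par.zeta)
    (hne : P.e1 ≠ 0 ∨ P.ph ≠ 0) : False := by
  obtain ⟨x₁, x₂, x₃, x₄, x₅, x₆, h12, h10, h16, h17⟩ := h35_solveK P hne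
  have hK := h35_relK ha hg.1 hb.1 he.1 hz.1 h12 h10 h16 h17
  obtain ⟨s, hs, h2⟩ := h.move (zero k) (h35_K P x₁ x₂ x₃ x₄ x₅ x₆)
    (fun s => h35_rel_add h.rel hK s) (Set.finite_singleton (0 : k))
  rw [Set.mem_singleton_iff] at hs
  refine no_C3_ind h2 ⟨?_, ?_⟩ ⟨?_, ?_⟩ ⟨?_, ?_⟩ ?_
  · simp [line, zero, hb.1]
  · simp [line, zero, h35_K, hb.2]
  · simp [line, zero, he.1]
  · simp [line, zero, h35_K, he.2]
  · simp [line, zero, hz.1]
  · simp [line, zero, h35_K, hz.2]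
  · simp [line, zero, h35_K, ha, ha', hg.1, hg.2, hs]

end Pool.Agent.Lib.D13.T4321
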