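import Pool.Agent.Lib.D13.K8a

/-!
# MP_5dcbc3_ag: type `(4, 3, 2, 1)`: `be0 = e0 = zeta = 0`, `al0 ≠ 0`
-/

set_option autoImplicit false

namespace Pool.Agent.Lib.D13.T4321

open Matrix Pool.Agent.Lib.Q5dc

variable {k : Type*} [Field k] [IsAlgClosed k] [CharZero k] {P P' : Par k}

/-- the second case: `e1 = ph = 0` for `B`, dependent rows -/
theorem h35_two (h : MR P P') (ha : P.al0 = 1) (ha' : P'.al0 = 0) (hg : Zr P P' Par.g0)
    (hb : Zr P P' Par.be0) (he : Zr P P' Par.e0) (hz : Zr P P' Par.zeta)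
    (h1 : P.e1 = 0) (h2 : P.ph = 0) (hd : P'.f0 * P'.th - P'.eta * P'.de0 = 0) : False := by
  have hr := h.rel
  obtain ⟨e, f, hne, hk1, hk2⟩ : ∃ e f : k, (e ≠ 0 ∨ f ≠ 0) ∧ e * P'.f0 + f * P'.eta = 0 ∧
      e * P'.de0 + f * P'.th = 0 := by
    by_cases hx : P'.f0 = 0 ∧ P'.eta = 0
    · by_cases hy : P'.de0 = 0 ∧ P'.th = 0
      · exact ⟨1, 0, Or.inl one_ne_zero, by rw [hx.1, hx.2]; ring, by rw [hy.1, hy.2]; ring⟩
      · refine ⟨P'.th, -P'.de0, ?_, by rw [hx.1, hx.2]; ring, by ring⟩
        by_contra hc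
        push Not at hc
        exact hy ⟨neg_eq_zero.1 hc.2, hc.1⟩
    · refine ⟨P'.eta, -P'.f0, ?_, by ring, by linear_combination -hd⟩
      by_contra hc
      push Not at hc
      exact hx ⟨neg_eq_zero.1 hc.2, hc.1⟩
  have hr4 := hr.r4
  have hr7 := hr.r7
  have hr8 := hr.r8
  have hr2 := hr.r2
  simp only [Br, ha, ha', hg.1, hg.2, hb.1, hb.2, he.1, he.2, hz.1, hz.2, h1, h2] at hr4 hr7 hr8 hr2
  obtain ⟨s, hs, h3⟩ := h.move { zero k with e1 := e, ph := f } (zero k) (fun s => by
    obtain ⟨r1, r2, r3, r4, r5, r6, r7, r8, r9, r10, r11, r12, r13, r14, r15, r16, r17, r18, r19,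
      r20⟩ := hr
    simp only [Br] at *
    constructor <;> simp only [Br, line, zero]
    · linear_combination r1
    · linear_combination r2
    · linear_combination r3
    · linear_combination r4
    · linear_combination r5
    · linear_combination r6
    · linear_combination r7 + s * e * ha'
    · linear_combination r8 + s * f * ha'
    · linear_combination r9
    · linear_combination r10 - s * hk2
    · linear_combination r11
    · linear_combination r12 - s * hk1
    · linear_combination r13 - s * f * hz.2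
    · linear_combination r14
    · linear_combination r15
    · linear_combination r16
    · linear_combination r17
    · linear_combination r18
    · linear_combination r19
    · linear_combination r20) (Set.finite_singleton (0 : k))
  rw [Set.mem_singleton_iff] at hs
  refine no_C3_K h3 ?_ ?_ ⟨?_, ?_⟩ ⟨?_, ?_⟩ ⟨?_, ?_⟩ ⟨?_, ?_⟩ ?_
  · simp [line, zero, ha]
  · simp [line, zero, ha']
  · simp [line, zero, hg.1]
  · simp [line, zero, hg.2]
  · simp [line, zero, hb.1]
  · simp [line, zero, hb.2]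
  · simp [line, zero, he.1]
  · simp [line, zero, he.2]
  · simp [line, zero, hz.1]
  · simp [line, zero, hz.2]
  · simp only [line, zero, h1, h2, zero_add]
    rcases hne with h | h
    · exact Or.inl (mul_ne_zero hs h)
    · exact Or.inr (mul_ne_zero hs h)

/-- the third case: `e1 = ph = 0` for `B`, independent rows -/
theorem h35_three (h : MR P P') (ha : P.al0 = 1) (ha' : P'.al0 = 0) (hg : Zr P P' Par.g0)
    (hb : Zr P P' Par.be0) (he : Zr P P' Par.e0) (hz : Zr P P' Par.zeta)
    (h1 : P.e1 = 0) (h2 : P.ph = 0) (hd : P'.f0 * P'.th - P'.eta * P'.de0 ≠ 0) : False := by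
  have hr := h.rel
  have hb1 : P'.be1 = 0 := by
    have := hr.r2
    simp only [Br, ha, ha', hg.1, hg.2, hb.1, hb.2] at this
    linear_combination -this
  have hq1 : P'.q1 = 0 := by
    have := hr.r4
    simp only [Br, ha, ha', hg.1, hg.2] at this
    linear_combination -this
  have he1 : P'.e1 = 0 := by
    have := hr.r7
    simp only [Br, ha, ha', hg.1, hg.2, he.1, he.2, hz.1, hz.2] at this
    linear_combination -this
  have hph : P'.ph = 0 := by
    have := hr.r8
    simp only [Br, ha, ha', hg.1, hg.2] at this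
    linear_combination -this
  obtain ⟨e, f, hk1, hk2⟩ : ∃ e f : k,
      e * P'.f0 + f * P'.eta = P.de0 + P.z * P.f0 + P.rho * P.eta ∧
      e * P'.de0 + f * P'.th = P.f0 * P.be1 - P.de0 * P.q1 + P.z * P.de0 + P.rho * P.th := by
    refine ⟨((P.de0 + P.z * P.f0 + P.rho * P.eta) * P'.th -
      P'.eta * (P.f0 * P.be1 - P.de0 * P.q1 + P.z * P.de0 + P.rho * P.th)) /
      (P'.f0 * P'.th - P'.eta * P'.de0),
      (P'.f0 * (P.f0 * P.be1 - P.de0 * P.q1 + P.z * P.de0 + P.rho * P.th) -
      (P.de0 + P.z * P.f0 + P.rho * P.eta) * P'.de0) /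
      (P'.f0 * P'.th - P'.eta * P'.de0), ?_, ?_⟩
    · rw [div_mul_eq_mul_div, div_mul_eq_mul_div, ← add_div, div_eq_iff hd]
      ring
    · rw [div_mul_eq_mul_div, div_mul_eq_mul_div, ← add_div, div_eq_iff hd]
      ring
  obtain ⟨s, hs, h3⟩ := h.move { zero k with e1 := e, ph := f }
    { zero k with g0 := 1, be1 := P.de0, q1 := P.f0, e1 := P.z, ph := P.rho, z := P.f0,
                  be2 := P.de1 - P.al1 * P.de0, q2 := P.f1 - P.al1 * P.f0 } (fun s => by
    obtain ⟨r1, r2, r3, r4, r5, r6, r7, r8, r9, r10, r11, r12, r13, r14, r15, r16, r17, r18, r19,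
      r20⟩ := hr
    simp only [Br, ha, ha', hg.1, hg.2, hb.1, hb.2, he.1, he.2, hz.1, hz.2, h1, h2, hb1, hq1, he1,
      hph] at r1 r2 r3 r4 r5 r6 r7 r8 r9 r10 r11 r12 r13 r14 r15 r16 r17 r18 r19 r20
    constructor <;> simp only [Br, line, zero, ha, ha', hg.1, hg.2, hb.1, hb.2, he.1, he.2, hz.1,
      hz.2, h1, h2, hb1, hq1, he1, hph]
    · linear_combination r1
    · linear_combination r2
    · linear_combination r3
    · linear_combination r4
    · linear_combination r5
    · linear_combination r6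
    · linear_combination r7
    · linear_combination r8
    · linear_combination r9
    · linear_combination r10 - s * hk2
    · linear_combination r11
    · linear_combination r12 - s * hk1
    · linear_combination r13
    · linear_combination r14
    · linear_combination r15
    · linear_combination r16
    · linear_combination r17
    · linear_combination r18
    · linear_combination r19
    · linear_combination r20) (Set.finite_singleton (0 : k))
  rw [Set.mem_singleton_iff] at hs
  refine no_C3_ind h3 ⟨?_, ?_⟩ ⟨?_, ?_⟩ ⟨?_, ?_⟩ ?_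
  · simp [line, zero, hb.1]
  · simp [line, zero, hb.2]
  · simp [line, zero, he.1]
  · simp [line, zero, he.2]
  · simp [line, zero, hz.1]
  · simp [line, zero, hz.2]
  · simp [line, zero, ha, ha', hg.1, hg.2, hs]

/-- `g0 = 0`, `al0 = (1, 0)` -/
theorem h35_one (h : MR P P') (ha : P.al0 = 1) (ha' : P'.al0 = 0) (hg : Zr P P' Par.g0)
    (hb : Zr P P' Par.be0) (he : Zr P P' Par.e0) (hz : Zr P P' Par.zeta) : False := by
  by_cases hne : P.e1 ≠ 0 ∨ P.ph ≠ 0
  · exact no_C3_K h ha ha' hg hb he hz hne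
  · push Not at hne
    by_cases hd : P'.f0 * P'.th - P'.eta * P'.de0 = 0
    · exact h35_two h ha ha' hg hb he hz hne.1 hne.2 hd
    · exact h35_three h ha ha' hg hb he hz hne.1 hne.2 hd

theorem no_C3 (h : MR P P') (ha : ¬ Zr P P' Par.al0) (hb : Zr P P' Par.be0)
    (he : Zr P P' Par.e0) (hz : Zr P P' Par.zeta) : False := by
  by_cases hi : P.al0 * P'.g0 - P'.al0 * P.g0 = 0
  · have key : ∀ Q Q' : Par k, MR Q Q' → Q.al0 ≠ 0 → Zr Q Q' Par.be0 → Zr Q Q' Par.e0 →
        Zr Q Q' Par.zeta → Q.al0 * Q'.g0 - Q'.al0 * Q.g0 = 0 → False := by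
      intro Q Q' h ha hb he hz hi
      have h1 := h.gl (Q.al0⁻¹) 0 (-(Q'.al0 / Q.al0)) 1 (by simp [ha])
      have h2 := h1.uw (Q.g0 / Q.al0)
      refine h35_one h2 ?_ ?_ ⟨?_, ?_⟩ ⟨?_, ?_⟩ ⟨?_, ?_⟩ ⟨?_, ?_⟩
      · simp [comb, Par.uw, ha]
      · simp [comb, Par.uw, ha]
      · simp [comb, Par.uw, ha]
        field_simp
        simp
      · simp only [comb, Par.uw]
        field_simp
        linear_combination hi
      · simp [comb, Par.uw, hb.1]
      · simp [comb, Par.uw, hb.1, hb.2]
      · simp [comb, Par.uw, he.1]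
      · simp [comb, Par.uw, he.1, he.2]
      · simp [comb, Par.uw, hz.1]
      · simp [comb, Par.uw, hz.1, hz.2]
    by_cases ha0 : P.al0 = 0
    · have ha1 : P'.al0 ≠ 0 := fun hc => ha ⟨ha0, hc⟩
      exact key P' P h.swap ha1 ⟨hb.2, hb.1⟩ ⟨he.2, he.1⟩ ⟨hz.2, hz.1⟩ (by linear_combination -hi)
    · exact key P P' h ha0 hb he hz hi
  · exact no_C3_ind h hb he hz hi

end Pool.Agent.Lib.D13.T4321
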