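import Pool.Agent.Lib.D13.K3
import Pool.Agent.Lib.D13.K4
import Pool.Agent.Lib.D13.K8b

/-!
# MP_5dcbc3_ag: type `(4, 3, 2, 1)`: `al0 = 0` and `be0 = 0`
-/

set_option autoImplicit false

namespace Pool.Agent.Lib.D13.T4321

open Matrix Pool.Agent.Lib.Q5dc

variable {k : Type*} [Field k] [IsAlgClosed k] [CharZero k] {P P' : Par k}

theorem no_al0 (h : MR P P') (ha : ¬ Zr P P' Par.al0) : False := by
  have hb : Zr P P' Par.be0 := h.rk1.resolve_left ha
  by_cases he : Zr P P' Par.e0
  · by_cases hz : Zr P P' Par.zeta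
    · exact no_C3 h ha hb he hz
    · by_cases hp : Zr P P' Par.ph
      · exact no_al0_zeta h ha he hz hp
      · exact no_al0_zeta_ph h ha he hz hp
  · exact no_al0_e0 h ha he

theorem no_be0 (h : MR P P') (ha : ¬ Zr P P' Par.be0) : False :=
  no_al0 h.dual ha

end Pool.Agent.Lib.D13.T4321
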