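import Pool.Agent.Lib.D13.TW

/-!
# MP_5dcbc3_ag: a raise for triples in W-form

`chi P = chi Q = 0`, `P u = 0`, `de = Q u`, `eta P io = - chi M`, `kap = chi M' + eta Q io`: the matrix
`K = (u kap : V0 -> V1, de eta : V1 -> V2, de chi : V2 -> V2)` commutes with the second and the third
matrix, and `(A + s K) ^ 3` maps `V0` to `V2` by `s de (chi io + s (chi u) kap)`.
-/

set_option autoImplicit false

namespace Pool.Agent.Lib.D13

open Matrix Pool.Agent.Lib.Q5dc Pool.Agent.Lib.D7

variable {k : Type*} [Field k] {e w : ℕ}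

/-- the matrix `K` -/
def KWm (u de eta chi : Fin w → k) (kap : Fin e → k) : Matrix (IW e w) (IW e w) k :=
  Matrix.of fun i j => match i, j with
    | .inr (.inl i), .inl j => u i * kap j
    | .inr (.inr i), .inr (.inl j) => de i * eta j
    | .inr (.inr i), .inr (.inr j) => de i * chi j
    | _, _ => 0

theorem KWm_comm {io M : Matrix (Fin w) (Fin e) k} {P : Matrix (Fin w) (Fin w) k}
    {u de eta chi : Fin w → k} {kap : Fin e → k} (h1 : chi ᵥ* P = 0)
    (h2 : ∀ i j, de i * ((((eta ᵥ* P) ᵥ* io) j) + (chi ᵥ* M) j) = (P *ᵥ u) i * kap j) :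
    KWm u de eta chi kap * Wm (P * io) M P = Wm (P * io) M P * KWm u de eta chi kap := by
  have h3 : (eta ᵥ* P) ᵥ* io = eta ᵥ* (P * io) := by rw [vecMul_vecMul]
  ext i j
  rcases i with i | i | i <;> rcases j with j | j | j
  · simp [KWm, Wm, Matrix.mul_apply, Fintype.sum_sum_type]
  · simp [KWm, Wm, Matrix.mul_apply, Fintype.sum_sum_type]
  · simp [KWm, Wm, Matrix.mul_apply, Fintype.sum_sum_type]
  · simp [KWm, Wm, Matrix.mul_apply, Fintype.sum_sum_type]
  · simp [KWm, Wm, Matrix.mul_apply, Fintype.sum_sum_type]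
  · simp [KWm, Wm, Matrix.mul_apply, Fintype.sum_sum_type]
  · have h4 := h2 i j
    rw [h3] at h4
    have e1 : (KWm u de eta chi kap * Wm (P * io) M P) (.inr (.inr i)) (.inl j) =
        de i * ((eta ᵥ* (P * io)) j + (chi ᵥ* M) j) := by
      simp [KWm, Wm, Matrix.mul_apply, Fintype.sum_sum_type, Matrix.vecMul, dotProduct, mul_add,
        Finset.mul_sum, mul_assoc]
    have e2 : (Wm (P * io) M P * KWm u de eta chi kap) (.inr (.inr i)) (.inl j) =
        (P *ᵥ u) i * kap j := by
      simp [KWm, Wm, Matrix.mul_apply, Fintype.sum_sum_type, Matrix.mulVec, dotProduct,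
        Finset.sum_mul, mul_assoc]
    rw [e1, e2, h4]
  · have h4 := congrFun h1 j
    have e1 : (KWm u de eta chi kap * Wm (P * io) M P) (.inr (.inr i)) (.inr (.inl j)) =
        de i * (chi ᵥ* P) j := by
      simp [KWm, Wm, Matrix.mul_apply, Fintype.sum_sum_type, Matrix.vecMul, dotProduct,
        Finset.mul_sum, mul_assoc]
    rw [e1, h4]
    simp [KWm, Wm, Matrix.mul_apply, Fintype.sum_sum_type]
  · simp [KWm, Wm, Matrix.mul_apply, Fintype.sum_sum_type]

/-- the first matrix, moved along `K` -/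
theorem KWm_sq (io : Matrix (Fin w) (Fin e) k) {u de eta chi : Fin w → k} {kap : Fin e → k}
    (hd : chi ⬝ᵥ de = 0) (s : k) :
    (Wm io 0 1 + s • KWm u de eta chi kap) * (Wm io 0 1 + s • KWm u de eta chi kap) =
      Matrix.of fun i j => match i, j with
        | .inr (.inr i), .inl j => io i j + s * (u i * kap j) +
            s * de i * ((eta ᵥ* io) j + s * (eta ⬝ᵥ u) * kap j)
        | .inr (.inr i), .inr (.inl j) => s * de i * chi j
        | _, _ => 0 := by
  have hd' : ∑ x, chi x * de x = 0 := hd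
  ext i j
  rcases i with i | i | i <;> rcases j with j | j | j
  · simp [KWm, Wm, Matrix.mul_apply, Fintype.sum_sum_type]
  · simp [KWm, Wm, Matrix.mul_apply, Fintype.sum_sum_type]
  · simp [KWm, Wm, Matrix.mul_apply, Fintype.sum_sum_type]
  · simp [KWm, Wm, Matrix.mul_apply, Fintype.sum_sum_type]
  · simp [KWm, Wm, Matrix.mul_apply, Fintype.sum_sum_type]
  · simp [KWm, Wm, Matrix.mul_apply, Fintype.sum_sum_type]
  · simp only [Matrix.mul_apply, Fintype.sum_sum_type, Matrix.add_apply, Matrix.smul_apply, KWm,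
      Wm, Matrix.of_apply, smul_eq_mul, mul_zero, add_zero, zero_mul, Finset.sum_const_zero,
      zero_add, Matrix.one_apply, Matrix.zero_apply, Matrix.vecMul, dotProduct]
    have e1 : ∀ x, ((if i = x then (1 : k) else 0) + s * (de i * eta x)) *
        (io x j + s * (u x * kap j)) = (if i = x then io x j + s * (u x * kap j) else 0) +
        (s * de i * (eta x * io x j) + s * de i * s * kap j * (eta x * u x)) := by
      intro x
      split_ifs <;> ring
    simp only [e1, Finset.sum_add_distrib, ← Finset.mul_sum, Finset.sum_ite_eq, Finset.mem_univ,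
      if_true]
    ring
  · simp only [Matrix.mul_apply, Fintype.sum_sum_type, Matrix.add_apply, Matrix.smul_apply, KWm,
      Wm, Matrix.of_apply, smul_eq_mul, mul_zero, add_zero, zero_mul, Finset.sum_const_zero,
      zero_add, Matrix.one_apply]
    have e1 : ∀ x, s * (de i * chi x) * ((if x = j then (1 : k) else 0) + s * (de x * eta j)) =
        (if x = j then s * de i * chi x else 0) + s * de i * s * eta j * (chi x * de x) := by
      intro x
      split_ifs <;> ring
    simp only [e1, Finset.sum_add_distrib, ← Finset.mul_sum, Finset.sum_ite_eq', Finset.mem_univ,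
      if_true, hd', mul_zero, add_zero]
  · simp only [Matrix.mul_apply, Fintype.sum_sum_type, Matrix.add_apply, Matrix.smul_apply, KWm,
      Wm, Matrix.of_apply, smul_eq_mul, mul_zero, add_zero, zero_mul, Finset.sum_const_zero,
      zero_add]
    have e1 : ∀ x, s * (de i * chi x) * (s * (de x * chi j)) =
        s * s * de i * chi j * (chi x * de x) := by
      intro x
      ring
    simp only [e1, ← Finset.mul_sum, hd', mul_zero]

theorem KWm_cube (io : Matrix (Fin w) (Fin e) k) {u de eta chi : Fin w → k} {kap : Fin e → k}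
    (hd : chi ⬝ᵥ de = 0) (s : k) :
    (Wm io 0 1 + s • KWm u de eta chi kap) ^ 3 =
      Matrix.of fun i j => match i, j with
        | .inr (.inr i), .inl j => s * de i * ((chi ᵥ* io) j + s * (chi ⬝ᵥ u) * kap j)
        | _, _ => 0 := by
  rw [pow_succ, pow_two, KWm_sq io hd s]
  have hd' : ∑ x, chi x * de x = 0 := hd
  ext i j
  rcases i with i | i | i <;> rcases j with j | j | j
  · simp [KWm, Wm, Matrix.mul_apply, Fintype.sum_sum_type]
  · simp [KWm, Wm, Matrix.mul_apply, Fintype.sum_sum_type]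
  · simp [KWm, Wm, Matrix.mul_apply, Fintype.sum_sum_type]
  · simp [KWm, Wm, Matrix.mul_apply, Fintype.sum_sum_type]
  · simp [KWm, Wm, Matrix.mul_apply, Fintype.sum_sum_type]
  · simp [KWm, Wm, Matrix.mul_apply, Fintype.sum_sum_type]
  · simp only [Matrix.mul_apply, Fintype.sum_sum_type, Matrix.add_apply, Matrix.smul_apply, KWm,
      Wm, Matrix.of_apply, smul_eq_mul, mul_zero, add_zero, zero_mul, Finset.sum_const_zero,
      zero_add, Matrix.vecMul, dotProduct]
    have e1 : ∀ x, s * de i * chi x * (io x j + s * (u x * kap j)) =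
        s * de i * (chi x * io x j) + s * de i * s * kap j * (chi x * u x) := by
      intro x
      ring
    simp only [e1, Finset.sum_add_distrib, ← Finset.mul_sum]
    ring
  · simp [KWm, Wm, Matrix.mul_apply, Fintype.sum_sum_type]
  · simp [KWm, Wm, Matrix.mul_apply, Fintype.sum_sum_type]

theorem KWm_nil (io : Matrix (Fin w) (Fin e) k) {u de eta chi : Fin w → k} {kap : Fin e → k}
    (hd : chi ⬝ᵥ de = 0) (s : k) : IsNilpotent (Wm io 0 1 + s • KWm u de eta chi kap) := by
  refine ⟨4, ?_⟩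
  rw [pow_succ', KWm_cube io hd s]
  have hd' : ∑ x, chi x * de x = 0 := hd
  ext i j
  rcases i with i | i | i <;> rcases j with j | j | j
  · simp [KWm, Wm, Matrix.mul_apply, Fintype.sum_sum_type]
  · simp [KWm, Wm, Matrix.mul_apply, Fintype.sum_sum_type]
  · simp [KWm, Wm, Matrix.mul_apply, Fintype.sum_sum_type]
  · simp [KWm, Wm, Matrix.mul_apply, Fintype.sum_sum_type]
  · simp [KWm, Wm, Matrix.mul_apply, Fintype.sum_sum_type]
  · simp [KWm, Wm, Matrix.mul_apply, Fintype.sum_sum_type]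
  · simp only [Matrix.mul_apply, Fintype.sum_sum_type, Matrix.add_apply, Matrix.smul_apply, KWm,
      Wm, Matrix.of_apply, smul_eq_mul, mul_zero, add_zero, zero_mul, Finset.sum_const_zero,
      zero_add, Matrix.zero_apply]
    have e1 : ∀ x, s * (de i * chi x) * (s * de x * ((chi ᵥ* io) j + s * (chi ⬝ᵥ u) * kap j)) =
        s * de i * s * ((chi ᵥ* io) j + s * (chi ⬝ᵥ u) * kap j) * (chi x * de x) := by
      intro x
      ring
    simp only [e1, ← Finset.mul_sum, hd', mul_zero]
  · simp [KWm, Wm, Matrix.mul_apply, Fintype.sum_sum_type]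
  · simp [KWm, Wm, Matrix.mul_apply, Fintype.sum_sum_type]

/-- the raise -/
theorem MaxR.kw [Infinite k] {ρ : ℕ → ℕ} {io M M' : Matrix (Fin w) (Fin e) k}
    {P Q : Matrix (Fin w) (Fin w) k} (hT : MaxR ρ (TW io P Q M M')) (h3 : ρ 3 = 0)
    {chi u eta : Fin w → k} (hP : chi ᵥ* P = 0) (hQ : chi ᵥ* Q = 0) (hu : P *ᵥ u = 0)
    (heta : (eta ᵥ* P) ᵥ* io = -(chi ᵥ* M)) (hd : Q *ᵥ u ≠ 0)
    (hx : chi ᵥ* io ≠ 0 ∨ (chi ⬝ᵥ u) • (chi ᵥ* M' + (eta ᵥ* Q) ᵥ* io) ≠ 0) : False := by
  set kap : Fin e → k := chi ᵥ* M' + (eta ᵥ* Q) ᵥ* io with hkap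
  have hde : chi ⬝ᵥ (Q *ᵥ u) = 0 := by
    rw [dotProduct_mulVec, hQ, zero_dotProduct]
  have c1 := KWm_comm (io := io) (M := M) (P := P) (u := u) (de := Q *ᵥ u) (eta := eta)
    (chi := chi) (kap := kap) hP (fun i j => by
      rw [heta, hu]
      simp)
  have c2 := KWm_comm (io := io) (M := M') (P := Q) (u := u) (de := Q *ᵥ u) (eta := eta)
    (chi := chi) (kap := kap) hQ (fun i j => by
      rw [hkap, Pi.add_apply]
      ring)
  have hA1 : Wm io 0 1 * Wm (P * io) M P = Wm (P * io) M P * Wm io 0 1 := hT.cn.1 0 1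
  have hA2 : Wm io 0 1 * Wm (Q * io) M' Q = Wm (Q * io) M' Q * Wm io 0 1 := hT.cn.1 0 2
  have hA3 : Wm (P * io) M P * Wm (Q * io) M' Q = Wm (Q * io) M' Q * Wm (P * io) M P :=
    hT.cn.1 1 2
  have hT' : MaxR ρ ![Wm io 0 1, Wm (P * io) M P, Wm (Q * io) M' Q] := hT
  obtain ⟨i, hi⟩ : ∃ i, (Q *ᵥ u) i ≠ 0 := by
    by_contra hcon
    push Not at hcon
    exact hd (funext hcon)
  obtain ⟨j, hj⟩ : ∃ j, (chi ᵥ* io) j ≠ 0 ∨ (chi ⬝ᵥ u) * kap j ≠ 0 := by
    by_contra hcon
    push Not at hcon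
    rcases hx with hx | hx
    · exact hx (funext fun j => (hcon j).1)
    · exact hx (funext fun j => (hcon j).2)
  refine D8.MaxR.raise0 hT' (KWm u (Q *ᵥ u) eta chi kap) 0 0 (fun s => ?_) 3 h3 1 0 0 ?_
  · simp only [smul_zero, add_zero]
    refine D8.cn3 ?_ ?_ hA3 (KWm_nil io hde s) (Wm_nil _ _ _) (Wm_nil _ _ _)
    · rw [add_mul, mul_add, hA1, smul_mul_assoc, mul_smul_comm, c1]
    · rw [add_mul, mul_add, hA2, smul_mul_assoc, mul_smul_comm, c2]
  · have hfin := D8.finite_quad (a := 0) (b := (chi ᵥ* io) j) (c := (chi ⬝ᵥ u) * kap j)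
      (Or.inr hj)
    refine hfin.infinite_compl.mono ?_
    intro s hs h0
    apply hs
    rw [one_smul, zero_smul, zero_smul, add_zero, add_zero, KWm_cube io hde s] at h0
    have h1 : s * (Q *ᵥ u) i * ((chi ᵥ* io) j + s * (chi ⬝ᵥ u) * kap j) = 0 :=
      congrFun (congrFun h0 (.inr (.inr i))) (.inl j)
    show (0 : k) + (chi ᵥ* io) j * s + (chi ⬝ᵥ u) * kap j * s ^ 2 = 0
    have h2 : (Q *ᵥ u) i * (0 + (chi ᵥ* io) j * s + (chi ⬝ᵥ u) * kap j * s ^ 2) = 0 := by
      linear_combination h1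
    exact (mul_eq_zero.1 h2).resolve_left hi

end Pool.Agent.Lib.D13
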