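import Pool.Agent.Lib.D13.Psi

/-!
# MP_5dcbc3_ag: lifting kernel vectors

If the rank of a polynomial family of matrices is nowhere greater than at `0`, the leading
coefficient of `P s *ᵥ r s` is in the image of `P 0`. Consequences for the powers of `A + s B`
for maximal bad triples, up to order `4`.
-/

set_option autoImplicit false
set_option linter.unusedSectionVars false

namespace Pool.Agent.Lib.D13

open Matrix Pool.Agent.Lib.Q5dc Pool.Agent.Lib.D7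

variable {k : Type*} [Field k] {n : Type*} [Fintype n] [DecidableEq n] {ρ : ℕ → ℕ}

/-- adding `e ⊗ φ` with `e` outside of the image and `φ` not zero on the kernel raises the rank -/
theorem rank_add_gt (P : Matrix n n k) (e φ r : n → k) (he : ∀ v, P *ᵥ v ≠ e) (hr : P *ᵥ r = 0)
    (hφ : φ ⬝ᵥ r = 1) : P.rank < (P + vecMulVec e φ).rank := by
  have hQ : ∀ v, (P + vecMulVec e φ) *ᵥ v = P *ᵥ v + (φ ⬝ᵥ v) • e := by
    intro v
    rw [add_mulVec]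
    congr 1
    funext i
    simp only [Matrix.mulVec, dotProduct, vecMulVec_apply, Pi.smul_apply, smul_eq_mul,
      Finset.sum_mul]
    exact Finset.sum_congr rfl fun j _ => by ring
  have h1 : LinearMap.range P.mulVecLin < LinearMap.range (P + vecMulVec e φ).mulVecLin := by
    refine lt_of_le_of_ne ?_ ?_
    · rintro _ ⟨v, rfl⟩
      refine ⟨v - (φ ⬝ᵥ v) • r, ?_⟩
      rw [mulVecLin_apply, mulVecLin_apply, hQ, mulVec_sub, mulVec_smul, hr, smul_zero, sub_zero,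
        dotProduct_sub, dotProduct_smul, hφ, smul_eq_mul, mul_one, sub_self, zero_smul, add_zero]
    · intro h
      have h2 : e ∈ LinearMap.range (P + vecMulVec e φ).mulVecLin :=
        ⟨r, by rw [mulVecLin_apply, hQ, hr, hφ, one_smul, zero_add]⟩
      rw [← h] at h2
      obtain ⟨v, hv⟩ := h2
      exact he v hv
  exact Submodule.finrank_lt_finrank_of_lt h1

/-- the leading coefficient of `P s *ᵥ r s` -/
theorem rank_lift [Infinite k] (P : k → Matrix n n k) (hP : ∀ x y, D7.IsPoly fun s => P s x y)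
    (hr : ∀ s, (P s).rank ≤ (P 0).rank) (r e : k → n → k) (he : ∀ x, D7.IsPoly fun s => e s x)
    (m : ℕ) (h : ∀ s, P s *ᵥ r s = s ^ m • e s) : ∃ v, P 0 *ᵥ v = e 0 := by
  by_contra hne
  push Not at hne
  -- a kernel vector
  obtain ⟨r', hr', hr0⟩ : ∃ r', P 0 *ᵥ r' = 0 ∧ r' ≠ 0 := by
    by_contra hcon
    push Not at hcon
    have hinj : Function.Injective (P 0).mulVecLin := by
      rw [← LinearMap.ker_eq_bot, LinearMap.ker_eq_bot']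
      intro v hv
      exact hcon v hv
    have hsurj := (LinearMap.injective_iff_surjective (f := (P 0).mulVecLin)).1 hinj
    obtain ⟨v, hv⟩ := hsurj (e 0)
    exact hne v hv
  obtain ⟨i, hi⟩ : ∃ i, r' i ≠ 0 := by
    by_contra hcon
    push Not at hcon
    exact hr0 (funext hcon)
  have hφ : (Pi.single i (r' i)⁻¹ : n → k) ⬝ᵥ r' = 1 := by
    rw [single_dotProduct, inv_mul_cancel₀ hi]
  have h1 := rank_add_gt (P 0) (e 0) _ r' hne hr' hφ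
  have h2 : ∀ x y, D7.IsPoly fun s =>
      (P s + vecMulVec (e s) (Pi.single i (r' i)⁻¹ : n → k)) x y := by
    intro x y
    have := (hP x y).add ((he x).mul (D7.IsPoly.const ((Pi.single i (r' i)⁻¹ : n → k) y)))
    exact this
  have h3 := rank_semicont _ h2 0
  refine (h3.union (Set.finite_singleton (0 : k))).infinite_compl.nonempty.elim fun s hs => ?_
  simp only [Set.mem_compl_iff, Set.mem_union, not_or, Set.mem_ofPred_eq, not_lt,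
    Set.mem_singleton_iff] at hs
  obtain ⟨hs1, hs2⟩ := hs
  have h4 : (P s + vecMulVec (e s) (Pi.single i (r' i)⁻¹ : n → k)).rank ≤ (P s).rank := by
    have h5 : P s + vecMulVec (e s) (Pi.single i (r' i)⁻¹ : n → k) =
        P s * (1 + vecMulVec ((s ^ m)⁻¹ • r s) (Pi.single i (r' i)⁻¹ : n → k)) := by
      rw [mul_add, mul_one, mul_vecMulVec, mulVec_smul, h s, smul_smul,
        inv_mul_cancel₀ (pow_ne_zero m hs2), one_smul]
    rw [h5]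
    exact rank_mul_le_left _ _
  exact absurd (h1.trans_le hs1) (not_lt.2 (h4.trans (hr s)))

/-- the same for the powers of `A + s B` -/
theorem MaxR.liftP [Infinite k] {A B C : Matrix n n k} (hT : MaxR ρ ![A, B, C]) {i : ℕ}
    (hρ : ρ i ≤ (A ^ i).rank) (r e : k → n → k) (he : ∀ x, D7.IsPoly fun s => e s x) (m : ℕ)
    (h : ∀ s : k, (A + s • B) ^ i *ᵥ r s = s ^ m • e s) : ∃ v, A ^ i *ᵥ v = e 0 := by
  have h0 : (A + (0 : k) • B) ^ i = A ^ i := by rw [zero_smul, add_zero]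
  obtain ⟨v, hv⟩ := rank_lift (fun s => (A + s • B) ^ i) (isPoly_pow (isPoly_line A B) i)
    (fun s => by
      rw [h0]
      refine le_trans (MaxR.rank_le hT ?_ i) hρ
      exact add_mem (D8.mem0 A B C) (SMulMemClass.smul_mem s (D8.mem1 A B C))) r e he m h
  exact ⟨v, by rw [← h0]; exact hv⟩

section orders

variable [Infinite k] {A B C : Matrix n n k} {r0 r1 r2 r3 : n → k}

private theorem poly_aux (a b c d e f : n → k) (x : n) :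
    D7.IsPoly fun s : k => (a + s • b + s ^ 2 • c + s ^ 3 • d + s ^ 4 • e + s ^ 5 • f) x := by
  simp only [Pi.add_apply, Pi.smul_apply, smul_eq_mul]
  exact (((((D7.IsPoly.const _).add (D7.IsPoly.id.mul (D7.IsPoly.const _))).add
    ((D7.IsPoly.id.pow 2).mul (D7.IsPoly.const _))).add ((D7.IsPoly.id.pow 3).mul (D7.IsPoly.const _))).add
    ((D7.IsPoly.id.pow 4).mul (D7.IsPoly.const _))).add ((D7.IsPoly.id.pow 5).mul (D7.IsPoly.const _))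

private theorem sq_mat (hAB : A * B = B * A) (s : k) :
    (A + s • B) ^ 2 = A * A + s • ((2 : k) • (A * B)) + s ^ 2 • (B * B) := by
  rw [pow_two, mul_add, add_mul, add_mul, smul_mul_smul_comm, smul_mul_assoc, mul_smul_comm,
    ← hAB]
  module

private theorem sq_act (hAB : A * B = B * A) (s : k) (v : n → k) :
    (A + s • B) ^ 2 *ᵥ v = A *ᵥ (A *ᵥ v) + s • ((2 : k) • (A *ᵥ (B *ᵥ v))) +
      s ^ 2 • (B *ᵥ (B *ᵥ v)) := by
  rw [sq_mat hAB]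
  simp only [add_mulVec, smul_mulVec, mulVec_mulVec]

/-- order 1 -/
theorem MaxR.sq1 (hT : MaxR ρ ![A, B, C]) (hρ : ρ 2 ≤ (A ^ 2).rank)
    (h0 : A *ᵥ (A *ᵥ r0) = 0) : ∃ v, A ^ 2 *ᵥ v = (2 : k) • (A *ᵥ (B *ᵥ r0)) := by
  obtain ⟨v, hv⟩ := MaxR.liftP hT hρ (fun _ => r0)
    (fun s => (2 : k) • (A *ᵥ (B *ᵥ r0)) + s • (B *ᵥ (B *ᵥ r0)) + s ^ 2 • (0 : n → k) +
      s ^ 3 • (0 : n → k) + s ^ 4 • (0 : n → k) + s ^ 5 • (0 : n → k)) (poly_aux _ _ _ _ _ _) 1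
    (fun s => by
      rw [sq_act (show A * B = B * A from hT.cn.1 0 1), h0]
      module)
  refine ⟨v, hv.trans ?_⟩
  simp

/-- order 2 -/
theorem MaxR.sq2 (hT : MaxR ρ ![A, B, C]) (hρ : ρ 2 ≤ (A ^ 2).rank)
    (h0 : A *ᵥ (A *ᵥ r0) = 0) (h1 : (2 : k) • (A *ᵥ (B *ᵥ r0)) + A *ᵥ (A *ᵥ r1) = 0) :
    ∃ v, A ^ 2 *ᵥ v = B *ᵥ (B *ᵥ r0) + (2 : k) • (A *ᵥ (B *ᵥ r1)) := by
  obtain ⟨v, hv⟩ := MaxR.liftP hT hρ (fun s => r0 + s • r1)
    (fun s => (B *ᵥ (B *ᵥ r0) + (2 : k) • (A *ᵥ (B *ᵥ r1))) + s • (B *ᵥ (B *ᵥ r1)) +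
      s ^ 2 • (0 : n → k) + s ^ 3 • (0 : n → k) + s ^ 4 • (0 : n → k) + s ^ 5 • (0 : n → k))
    (poly_aux _ _ _ _ _ _) 2 (fun s => by
      rw [sq_act (show A * B = B * A from hT.cn.1 0 1)]
      simp only [mulVec_add, mulVec_smul]
      linear_combination (norm := module) h0 + s • h1)
  refine ⟨v, hv.trans ?_⟩
  simp

/-- order 3 -/
theorem MaxR.sq3 (hT : MaxR ρ ![A, B, C]) (hρ : ρ 2 ≤ (A ^ 2).rank)
    (h0 : A *ᵥ (A *ᵥ r0) = 0) (h1 : (2 : k) • (A *ᵥ (B *ᵥ r0)) + A *ᵥ (A *ᵥ r1) = 0)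
    (h2 : B *ᵥ (B *ᵥ r0) + (2 : k) • (A *ᵥ (B *ᵥ r1)) + A *ᵥ (A *ᵥ r2) = 0) :
    ∃ v, A ^ 2 *ᵥ v = B *ᵥ (B *ᵥ r1) + (2 : k) • (A *ᵥ (B *ᵥ r2)) := by
  obtain ⟨v, hv⟩ := MaxR.liftP hT hρ (fun s => r0 + s • r1 + s ^ 2 • r2)
    (fun s => (B *ᵥ (B *ᵥ r1) + (2 : k) • (A *ᵥ (B *ᵥ r2))) + s • (B *ᵥ (B *ᵥ r2)) +
      s ^ 2 • (0 : n → k) + s ^ 3 • (0 : n → k) + s ^ 4 • (0 : n → k) + s ^ 5 • (0 : n → k))
    (poly_aux _ _ _ _ _ _) 3 (fun s => by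
      rw [sq_act (show A * B = B * A from hT.cn.1 0 1)]
      simp only [mulVec_add, mulVec_smul]
      linear_combination (norm := module) h0 + s • h1 + s ^ 2 • h2)
  refine ⟨v, hv.trans ?_⟩
  simp

/-- order 4 -/
theorem MaxR.sq4 (hT : MaxR ρ ![A, B, C]) (hρ : ρ 2 ≤ (A ^ 2).rank)
    (h0 : A *ᵥ (A *ᵥ r0) = 0) (h1 : (2 : k) • (A *ᵥ (B *ᵥ r0)) + A *ᵥ (A *ᵥ r1) = 0)
    (h2 : B *ᵥ (B *ᵥ r0) + (2 : k) • (A *ᵥ (B *ᵥ r1)) + A *ᵥ (A *ᵥ r2) = 0)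
    (h3 : B *ᵥ (B *ᵥ r1) + (2 : k) • (A *ᵥ (B *ᵥ r2)) + A *ᵥ (A *ᵥ r3) = 0) :
    ∃ v, A ^ 2 *ᵥ v = B *ᵥ (B *ᵥ r2) + (2 : k) • (A *ᵥ (B *ᵥ r3)) := by
  obtain ⟨v, hv⟩ := MaxR.liftP hT hρ (fun s => r0 + s • r1 + s ^ 2 • r2 + s ^ 3 • r3)
    (fun s => (B *ᵥ (B *ᵥ r2) + (2 : k) • (A *ᵥ (B *ᵥ r3))) + s • (B *ᵥ (B *ᵥ r3)) +
      s ^ 2 • (0 : n → k) + s ^ 3 • (0 : n → k) + s ^ 4 • (0 : n → k) + s ^ 5 • (0 : n → k))
    (poly_aux _ _ _ _ _ _) 4 (fun s => by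
      rw [sq_act (show A * B = B * A from hT.cn.1 0 1)]
      simp only [mulVec_add, mulVec_smul]
      linear_combination (norm := module) h0 + s • h1 + s ^ 2 • h2 + s ^ 3 • h3)
  refine ⟨v, hv.trans ?_⟩
  simp

private theorem cu_act (hAB : A * B = B * A) (s : k) (v : n → k) :
    (A + s • B) ^ 3 *ᵥ v = A *ᵥ (A *ᵥ (A *ᵥ v)) + s • ((3 : k) • (A *ᵥ (A *ᵥ (B *ᵥ v)))) +
      s ^ 2 • ((3 : k) • (A *ᵥ (B *ᵥ (B *ᵥ v)))) + s ^ 3 • (B *ᵥ (B *ᵥ (B *ᵥ v))) := by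
  have h3 : B * (A * A) = A * (A * B) := by rw [← mul_assoc, ← hAB, mul_assoc, ← hAB]
  have h4 : B * (A * B) = A * (B * B) := by rw [← mul_assoc, ← hAB, mul_assoc]
  have h1 : (A + s • B) ^ 3 = A * (A * A) + s • ((3 : k) • (A * (A * B))) +
      s ^ 2 • ((3 : k) • (A * (B * B))) + s ^ 3 • (B * (B * B)) := by
    rw [pow_succ', sq_mat hAB, add_mul]
    simp only [mul_add, smul_mul_assoc, mul_smul_comm]
    rw [h3, h4]
    module
  rw [h1]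
  simp only [add_mulVec, smul_mulVec, mulVec_mulVec]

/-- order 2 for the cube -/
theorem MaxR.cu2 (hT : MaxR ρ ![A, B, C]) (hρ : ρ 3 ≤ (A ^ 3).rank)
    (h0 : A *ᵥ (A *ᵥ (A *ᵥ r0)) = 0)
    (h1 : (3 : k) • (A *ᵥ (A *ᵥ (B *ᵥ r0))) + A *ᵥ (A *ᵥ (A *ᵥ r1)) = 0) :
    ∃ v, A ^ 3 *ᵥ v = (3 : k) • (A *ᵥ (B *ᵥ (B *ᵥ r0))) +
      (3 : k) • (A *ᵥ (A *ᵥ (B *ᵥ r1))) := by
  obtain ⟨v, hv⟩ := MaxR.liftP hT hρ (fun s => r0 + s • r1)
    (fun s => ((3 : k) • (A *ᵥ (B *ᵥ (B *ᵥ r0))) + (3 : k) • (A *ᵥ (A *ᵥ (B *ᵥ r1)))) +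
      s • (B *ᵥ (B *ᵥ (B *ᵥ r0)) + (3 : k) • (A *ᵥ (B *ᵥ (B *ᵥ r1)))) +
      s ^ 2 • (B *ᵥ (B *ᵥ (B *ᵥ r1))) + s ^ 3 • (0 : n → k) + s ^ 4 • (0 : n → k) +
      s ^ 5 • (0 : n → k))
    (poly_aux _ _ _ _ _ _) 2 (fun s => by
      rw [cu_act (show A * B = B * A from hT.cn.1 0 1)]
      simp only [mulVec_add, mulVec_smul]
      linear_combination (norm := module) h0 + s • h1)
  refine ⟨v, hv.trans ?_⟩
  simp

end orders

end Pool.Agent.Lib.D13
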