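import Pool.Agent.Lib.D13.JordanU
import Pool.Agent.Lib.D7.HookS
import Pool.Agent.Lib.D8.Ta21

/-!
# MP_5dcbc3_ag: the Jordan types excluded by the general theorems

Types with at most two blocks (corank at most two), with blocks of size at most two (two-step
modules), hooks `(a, 1, .., 1)` and `(a, 2, 1)`.
-/

namespace Pool.Agent.Lib.D13

open Matrix Pool.Agent.Lib.Q5dc Pool.Agent.Lib.D7 D9.BlkMapAux

variable {k : Type*} [Field k]

theorem rank_JU (l : List ℕ) : l.sum ≤ (JU k l).rank + l.length := by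
  classical
  -- the rows `(a, i + 1)` and the columns `(a, i)`
  let r : (Σ a : Fin l.length, Fin (l.get a - 1)) → IxL l := fun x => ⟨x.1, ⟨x.2 + 1, by omega⟩⟩
  let c : (Σ a : Fin l.length, Fin (l.get a - 1)) → IxL l := fun x => ⟨x.1, ⟨x.2, by omega⟩⟩
  have h1 : (JU k l).submatrix r c = 1 := by
    ext x y
    rw [Matrix.submatrix_apply]
    show (if x.1 = y.1 ∧ ((x.2 : ℕ) + 1) = (y.2 : ℕ) + 1 then (1 : k) else 0) = _
    rw [Matrix.one_apply]
    by_cases h : x = y
    · rw [if_pos h, if_pos]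
      subst h
      exact ⟨rfl, rfl⟩
    · rw [if_neg h, if_neg]
      rintro ⟨h2, h3⟩
      apply h
      obtain ⟨a, i⟩ := x
      obtain ⟨b, j⟩ := y
      dsimp only at h2
      subst h2
      congr
      apply Fin.ext
      simp only at h3
      omega
  let e := (Fintype.equivFin (Σ a : Fin l.length, Fin (l.get a - 1))).symm
  have h2 := le_rank_of_minor (JU k l) (r ∘ e) (c ∘ e) (by
    have h3 : (JU k l).submatrix (r ∘ e) (c ∘ e) = 1 := by
      rw [← Matrix.submatrix_submatrix, h1]
      exact Matrix.submatrix_one_equiv e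
    rw [h3, Matrix.det_one]
    exact one_ne_zero)
  rw [Fintype.card_sigma] at h2
  simp only [Fintype.card_fin] at h2
  have h3 : l.sum = ∑ a : Fin l.length, l.get a := by
    conv_lhs => rw [← List.ofFn_get l]
    rw [List.sum_ofFn]
  have h4 : ∑ a : Fin l.length, l.get a ≤ ∑ a : Fin l.length, ((l.get a - 1) + 1) :=
    Finset.sum_le_sum fun a _ => by omega
  rw [Finset.sum_add_distrib, Finset.sum_const, Finset.card_univ, Fintype.card_fin, smul_eq_mul,
    mul_one] at h4
  omega

/-- at most two blocks -/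
theorem not_bad_short [IsAlgClosed k] [CharZero k] {l : List ℕ} (h2 : l.length ≤ 2)
    (h0 : 0 < l.sum) : ¬ Bad k l := by
  have : Infinite k := IsAlgClosed.instInfinite
  rintro ⟨ρ, T, hT, hρ, hJ⟩
  obtain ⟨f⟩ := Fintype.card_eq.1 (show Fintype.card (IxL l) = Fintype.card (Fin l.sum) by
    rw [card_IxL, Fintype.card_fin])
  have h1 := D8.MaxR.corank (D9.MaxR.reindex f hT) h0 (mem_adj _ 0)
  rw [rank_reindexAlgEquiv, hJ] at h1
  have := rank_JU (k := k) l
  omega

/-- all blocks of size at most two -/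
theorem not_bad_two [IsAlgClosed k] [CharZero k] {l : List ℕ} (h2 : ∀ a ∈ l, a ≤ 2)
    (h0 : 0 < l.sum) : ¬ Bad k l := by
  have : Infinite k := IsAlgClosed.instInfinite
  rintro ⟨ρ, T, hT, hρ, hJ⟩
  obtain ⟨n, hn⟩ : ∃ n, l.sum = n + 1 := ⟨l.sum - 1, by omega⟩
  obtain ⟨f⟩ := Fintype.card_eq.1 (show Fintype.card (IxL l) = Fintype.card (Fin (n + 1)) by
    rw [card_IxL, Fintype.card_fin, hn])
  refine MaxR.cl_of_sq (D9.MaxR.reindex f hT) ?_
  rw [hρ]
  have h1 : JU k l ^ 2 = 0 := by
    ext x y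
    rw [pow_two, Matrix.mul_apply, Matrix.zero_apply]
    refine Finset.sum_eq_zero fun z _ => ?_
    show (if x.1 = z.1 ∧ (x.2 : ℕ) = z.2 + 1 then (1 : k) else 0) *
      (if z.1 = y.1 ∧ (z.2 : ℕ) = y.2 + 1 then (1 : k) else 0) = 0
    have h3 : (x.2 : ℕ) < 2 := lt_of_lt_of_le x.2.2 (h2 _ (List.get_mem l x.1))
    by_cases h4 : (x.2 : ℕ) = z.2 + 1
    · rw [if_neg (c := z.1 = y.1 ∧ (z.2 : ℕ) = y.2 + 1), mul_zero]
      rintro ⟨-, h5⟩
      omega
    · rw [if_neg, zero_mul]
      rintro ⟨-, h5⟩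
      exact h4 h5
  rw [h1, Matrix.rank_zero]

/-- hooks -/
theorem not_bad_hook [IsAlgClosed k] [CharZero k] {a q : ℕ} (ha : 3 ≤ a) (hq : 2 ≤ q) :
    ¬ Bad k (a :: List.replicate q 1) := by
  have : Infinite k := IsAlgClosed.instInfinite
  intro hb
  have hlen : (a :: List.replicate q 1).length = q + 1 := by simp
  have hget : ∀ j (h : j + 1 < (a :: List.replicate q 1).length),
      (a :: List.replicate q 1).get ⟨j + 1, h⟩ = 1 := by
    intro j h
    simp
  obtain ⟨ρ, T, hT, hρ, h0⟩ := hb.bridge (JhN k (a + q) a)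
    (fun i : Fin (a + q) => if h : (i : ℕ) < a then ⟨⟨0, by simp⟩, ⟨i, h⟩⟩ else
      ⟨⟨(i : ℕ) - a + 1, by rw [hlen]; omega⟩, ⟨0, by rw [hget]; exact one_pos⟩⟩)
    (by
      intro i j hij
      dsimp only at hij
      split_ifs at hij with h1 h2 h2
      · have h3 := congrArg (fun x : IxL (a :: List.replicate q 1) => (x.2 : ℕ)) hij
        exact Fin.ext h3
      · have h3 := congrArg (fun x : IxL (a :: List.replicate q 1) => (x.1 : ℕ)) hij
        simp only at h3
        omega
      · have h3 := congrArg (fun x : IxL (a :: List.replicate q 1) => (x.1 : ℕ)) hij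
        simp only at h3
        omega
      · have h3 := congrArg (fun x : IxL (a :: List.replicate q 1) => (x.1 : ℕ)) hij
        simp only at h3
        exact Fin.ext (by omega))
    (by simp)
    (by
      intro i j
      show (if i.val = j.val + 1 ∧ i.val < a then (1 : k) else 0) = _
      by_cases h1 : (i : ℕ) < a <;> by_cases h2 : (j : ℕ) < a
      · rw [dif_pos h1, dif_pos h2]
        by_cases h3 : (i : ℕ) = j + 1
        · rw [if_pos ⟨h3, h1⟩, if_pos ⟨rfl, h3⟩]
        · rw [if_neg (fun h => h3 h.1), if_neg (fun h => h3 h.2)]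
      · rw [dif_pos h1, dif_neg h2, if_neg (by omega), if_neg]
        rintro ⟨h3, -⟩
        have h4 := congrArg Fin.val h3
        simp only at h4
        omega
      · rw [dif_neg h1, if_neg (fun h => h1 h.2), if_neg]
        rintro ⟨h3, -⟩
        rw [dif_pos h2] at h3
        have h4 := congrArg Fin.val h3
        simp only at h4
        omega
      · rw [dif_neg h1, dif_neg h2, if_neg (fun h => h1 h.2), if_neg]
        rintro ⟨-, h3⟩
        simp only at h3
        omega)
  exact no_hookN ha (by omega) hT hρ h0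

end Pool.Agent.Lib.D13
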