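import Pool.Agent.Lib.D13.Krull

/-!
# Dimension count with parametrised bad sets

A common zero of `c` equations in `n` unknowns over an algebraically closed field lies in the
closure of the common zeros outside finitely many rationally parametrised sets of dimension
`< n - c`; consequences for maximal bad triples.
-/

set_option autoImplicit false

namespace Pool.Agent.Lib.D13

open MvPolynomial

/-- the height of a maximal ideal of a polynomial ring over a field -/
theorem height_max_fin (K : Type*) [Field K] (n : ℕ) :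
    ∀ (P : Ideal (MvPolynomial (Fin n) K)), P.IsMaximal → (n : ℕ∞) ≤ P.height := by
  induction n with
  | zero => intro P _; simp
  | succ n ih =>
    intro P hP
    let e := (MvPolynomial.finSuccEquiv K n).toRingEquiv
    let P' : Ideal (Polynomial (MvPolynomial (Fin n) K)) := P.comap e.symm
    have hP' : P'.IsMaximal := Ideal.comap_isMaximal_of_equiv e.symm (p := P)
    let p : Ideal (MvPolynomial (Fin n) K) := P'.comap (Polynomial.C)
    have hp : p.IsMaximal := Polynomial.isMaximal_comap_C_of_isJacobsonRing P'
    have : P'.LiesOver p := ⟨rfl⟩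
    have h1 : P'.height = p.height + 1 := Polynomial.height_eq_height_add_one p P'
    have h2 : P'.height = P.height := RingEquiv.height_comap e.symm P
    rw [← h2, h1]
    push_cast
    exact add_le_add_left (ih p hp) 1

theorem height_max {σ K : Type*} [Fintype σ] [Field K] (P : Ideal (MvPolynomial σ K))
    (hP : P.IsMaximal) : (Fintype.card σ : ℕ∞) ≤ P.height := by
  let e := (MvPolynomial.renameEquiv K (Fintype.equivFin σ)).toRingEquiv
  let P' : Ideal (MvPolynomial (Fin (Fintype.card σ)) K) := P.comap e.symm
  have hP' : P'.IsMaximal := Ideal.comap_isMaximal_of_equiv e.symm (p := P)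
  have h2 : P'.height = P.height := RingEquiv.height_comap e.symm P
  rw [← h2]
  exact height_max_fin K _ P' hP'

attribute [local instance] algebraMvPolynomial

/-- primes modulo which all variables are algebraic over the coefficients -/
theorem height_ge_aux {β A K : Type*} [Fintype β] [CommRing A] [IsDomain A] [Field K] [Algebra A K]
    [IsFractionRing A K]
    (p : Ideal (MvPolynomial β A)) (hp : p.IsPrime)
    (h1 : ∀ f : A, C f ∈ p → f = 0)
    (h2 : ∀ j : β, ∃ g : Polynomial A, g ≠ 0 ∧
      Polynomial.aeval (X j : MvPolynomial β A) g ∈ p) :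
    (Fintype.card β : ℕ∞) ≤ p.height := by
  let M : Submonoid (MvPolynomial β A) := (nonZeroDivisors A).map C
  have hloc : IsLocalization M (MvPolynomial β K) :=
    MvPolynomial.isLocalization (nonZeroDivisors A) K
  have hdis : Disjoint (M : Set (MvPolynomial β A)) (p : Set (MvPolynomial β A)) := by
    rw [Set.disjoint_left]
    rintro _ ⟨f, hf, rfl⟩ hfp
    exact nonZeroDivisors.ne_zero hf (h1 f hfp)
  obtain ⟨P, hPdef⟩ : ∃ P : Ideal (MvPolynomial β K),
    P = p.map (algebraMap (MvPolynomial β A) (MvPolynomial β K)) := ⟨_, rfl⟩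
  have hP : P.IsPrime := by
    rw [hPdef]
    exact IsLocalization.isPrime_of_isPrime_disjoint M (MvPolynomial β K) p hp hdis
  have hht : P.height = p.height := by
    rw [hPdef]
    exact IsLocalization.height_map_of_disjoint M p hdis
  have hint : Algebra.IsIntegral K (MvPolynomial β K ⧸ P) := by
    refine ⟨fun z => ?_⟩
    obtain ⟨f, rfl⟩ := Ideal.Quotient.mk_surjective z
    induction f using MvPolynomial.induction_on with
    | C a => exact isIntegral_algebraMap (R := K) (A := MvPolynomial β K ⧸ P) (x := a)
    | add f g hf hg =>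
      rw [map_add]
      exact hf.add hg
    | mul_X f j hf =>
      rw [map_mul]
      refine hf.mul ?_
      obtain ⟨g, hg0, hg⟩ := h2 j
      have halg : IsAlgebraic K (Ideal.Quotient.mk P (X j : MvPolynomial β K)) := by
        refine ⟨g.map (algebraMap A K), ?_, ?_⟩
        · exact (Polynomial.map_ne_zero_iff (IsFractionRing.injective A K)).2 hg0
        · have h3 : (algebraMap (MvPolynomial β A) (MvPolynomial β K))
              (Polynomial.aeval (X j) g) ∈ P := by
            rw [hPdef]
            exact Ideal.mem_map_of_mem _ hg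
          have h4 : (algebraMap (MvPolynomial β A) (MvPolynomial β K))
              (Polynomial.aeval (X j) g) =
              Polynomial.eval₂ ((C : K →+* MvPolynomial β K).comp (algebraMap A K)) (X j) g := by
            rw [Polynomial.aeval_def, Polynomial.hom_eval₂]
            congr 1
            · ext a
              simp
            · simp
          have h5 := Ideal.Quotient.eq_zero_iff_mem.2 h3
          rw [h4, Polynomial.hom_eval₂] at h5
          rw [← h5, Polynomial.aeval_def, Polynomial.eval₂_map]
          congr 1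
      exact halg.isIntegral
  have hmax : P.IsMaximal := by
    refine Ideal.Quotient.maximal_of_isField P ?_
    have := isField_of_isIntegral_of_isField' (R := K) (S := MvPolynomial β K ⧸ P)
      (Field.toIsField K)
    exact this
  rw [← hht]
  exact height_max P hmax

/-- height and transcendence degree -/
theorem height_add_ge {ι k : Type*} [Fintype ι] [Field k] (p : Ideal (MvPolynomial ι k))
    (hp : p.IsPrime) (d : ℕ)
    (hd : ∀ S : Finset ι, AlgebraicIndependent k
      (fun i : {i // i ∈ S} => Ideal.Quotient.mk p (X (i : ι))) → S.card ≤ d) :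
    (Fintype.card ι : ℕ∞) ≤ p.height + d := by
  classical
  -- a maximal independent set of variables
  obtain ⟨S, hS, hmax⟩ : ∃ S : Finset ι, AlgebraicIndependent k
      (fun i : {i // i ∈ S} => Ideal.Quotient.mk p (X (i : ι))) ∧
      ∀ S' : Finset ι, AlgebraicIndependent k
      (fun i : {i // i ∈ S'} => Ideal.Quotient.mk p (X (i : ι))) → S'.card ≤ S.card := by
    obtain ⟨S, hS, h⟩ := Finset.exists_max_image
      (Finset.univ.filter fun S : Finset ι => AlgebraicIndependent k
        (fun i : {i // i ∈ S} => Ideal.Quotient.mk p (X (i : ι)))) (fun S => S.card)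
      ⟨∅, by
        rw [Finset.mem_filter]
        refine ⟨Finset.mem_univ _, ?_⟩
        have : IsEmpty {i // i ∈ (∅ : Finset ι)} := ⟨fun x => absurd x.2 (Finset.notMem_empty _)⟩
        rw [algebraicIndependent_empty_type_iff]
        exact (algebraMap k (MvPolynomial ι k ⧸ p)).injective⟩
    rw [Finset.mem_filter] at hS
    exact ⟨S, hS.2, fun S' hS' => h S' (Finset.mem_filter.2 ⟨Finset.mem_univ _, hS'⟩)⟩
  let β := {i : ι // i ∉ S}
  let α := {i : ι // ¬ (i ∉ S)}
  let e : β ⊕ α ≃ ι := Equiv.sumCompl (fun i : ι => i ∉ S)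
  let Φ : MvPolynomial ι k ≃ₐ[k] MvPolynomial β (MvPolynomial α k) :=
    (renameEquiv k e.symm).trans (sumAlgEquiv k β α)
  have hΦβ : ∀ j : β, Φ (X (j : ι)) = X j := by
    intro j
    have h1 : e.symm (j : ι) = Sum.inl j := by
      rw [Equiv.symm_apply_eq]
      rfl
    simp only [Φ, AlgEquiv.trans_apply, renameEquiv_apply, rename_X, h1, sumAlgEquiv_X_inl]
  have hΦα : ∀ j : α, Φ (X (j : ι)) = C (X j) := by
    intro j
    have h1 : e.symm (j : ι) = Sum.inr j := by
      rw [Equiv.symm_apply_eq]
      rfl
    simp only [Φ, AlgEquiv.trans_apply, renameEquiv_apply, rename_X, h1, sumAlgEquiv_X_inr]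
  let p' : Ideal (MvPolynomial β (MvPolynomial α k)) := p.comap Φ.symm.toRingEquiv
  have hp' : p'.IsPrime := Ideal.comap_isPrime _ _
  have hht : p'.height = p.height := RingEquiv.height_comap _ p
  have hmem : ∀ f, Φ f ∈ p' ↔ f ∈ p := by
    intro f
    rw [Ideal.mem_comap]
    have : Φ.symm.toRingEquiv (Φ f) = f := Φ.symm_apply_apply f
    rw [this]
  have hα : AlgebraicIndependent k (fun i : α => Ideal.Quotient.mk p (X (i : ι))) :=
    hS.comp (fun i : α => (⟨i, not_not.1 i.2⟩ : {i // i ∈ S}))
      (fun a b h => Subtype.ext (congrArg (fun z : {i // i ∈ S} => (z : ι)) h))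
  have hcomp : ∀ {τ : Type _} (y : τ → ι) (f : MvPolynomial τ k),
      aeval (fun i => Ideal.Quotient.mk p (X (y i) : MvPolynomial ι k)) f =
        Ideal.Quotient.mk p (rename y f) := by
    intro τ y f
    induction f using MvPolynomial.induction_on with
    | C a =>
      rw [rename_C, aeval_C]
      rfl
    | add f g hf hg => rw [map_add, map_add, map_add, hf, hg]
    | mul_X f j hf => rw [map_mul, map_mul, map_mul, hf, aeval_X, rename_X]
  have key := height_ge_aux (K := FractionRing (MvPolynomial α k)) p' hp' ?_ ?_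
  · have hcard : Fintype.card ι = Fintype.card β + S.card := by
      have h1 := Fintype.card_congr e
      rw [Fintype.card_sum] at h1
      have h2 : Fintype.card α = S.card := by
        rw [← Fintype.card_coe]
        exact Fintype.card_congr (Equiv.subtypeEquivRight fun i => not_not)
      omega
    rw [hcard, hht.symm]
    push_cast
    refine add_le_add key ?_
    exact_mod_cast hd S hS
  · intro f hf
    have h1 : Φ (rename (fun i : α => (i : ι)) f) = C f := by
      have h2 : ((Φ : MvPolynomial ι k →ₐ[k] MvPolynomial β (MvPolynomial α k)).comp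
          (rename (fun i : α => (i : ι)))) =
          (IsScalarTower.toAlgHom k (MvPolynomial α k) (MvPolynomial β (MvPolynomial α k))) := by
        apply MvPolynomial.algHom_ext
        intro i
        simp only [AlgHom.comp_apply, rename_X, AlgEquiv.coe_toAlgHom, hΦα,
          IsScalarTower.toAlgHom_apply]
        rfl
      exact congrArg (fun φ => φ f) h2
    rw [← h1, hmem] at hf
    have h3 := hcomp (fun i : α => (i : ι)) f
    rw [Ideal.Quotient.eq_zero_iff_mem.2 hf] at h3
    exact (algebraicIndependent_iff.1 hα) f h3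
  · intro j
    let y : Option α → ι := fun o => o.elim (j : ι) (fun i => (i : ι))
    have hy : ¬ AlgebraicIndependent k
        (fun o : Option α => Ideal.Quotient.mk p (X (y o) : MvPolynomial ι k)) := by
      intro hy
      have h1 := hmax (insert (j : ι) S) (by
        let g : {i // i ∈ insert (j : ι) S} → Option α := fun i =>
          if h : (i : ι) ∈ S then some ⟨i, not_not.2 h⟩ else none
        have hg : ∀ i, y (g i) = (i : ι) := by
          intro i
          by_cases h : (i : ι) ∈ S
          · simp only [g, dif_pos h, y, Option.elim_some]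
          · simp only [g, dif_neg h, y, Option.elim_none]
            exact ((Finset.mem_insert.1 i.2).resolve_right h).symm
        have h2 := hy.comp g (fun a b hab => Subtype.ext (by rw [← hg a, hab, hg b]))
        have h3 : ((fun o : Option α => Ideal.Quotient.mk p (X (y o) : MvPolynomial ι k)) ∘ g) =
            fun i : {i // i ∈ insert (j : ι) S} => Ideal.Quotient.mk p (X (i : ι)) := by
          funext i
          simp only [Function.comp_apply, hg]
        rw [h3] at h2
        exact h2)
      rw [Finset.card_insert_of_notMem j.2] at h1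
      omega
    rw [algebraicIndependent_iff] at hy
    push Not at hy
    obtain ⟨F, hF, hF0⟩ := hy
    refine ⟨optionEquivLeft k α F, ?_, ?_⟩
    · intro h
      exact hF0 ((optionEquivLeft k α).injective (by rw [h, map_zero]))
    · rw [hcomp] at hF
      have h1 := Ideal.Quotient.eq_zero_iff_mem.1 hF
      rw [← hmem] at h1
      have h2 : Φ (rename y F) = Polynomial.aeval (X j : MvPolynomial β (MvPolynomial α k))
          (optionEquivLeft k α F) := by
        have h3 : ((Φ : MvPolynomial ι k →ₐ[k] MvPolynomial β (MvPolynomial α k)).comp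
            (rename y)) =
            ((Polynomial.aeval (R := MvPolynomial α k)
              (X j : MvPolynomial β (MvPolynomial α k))).restrictScalars k).comp
              ((optionEquivLeft k α) : MvPolynomial (Option α) k →ₐ[k]
                Polynomial (MvPolynomial α k)) := by
          apply MvPolynomial.algHom_ext
          intro o
          cases o with
          | none =>
            simp only [AlgHom.comp_apply, rename_X, AlgEquiv.coe_toAlgHom,
              optionEquivLeft_X_none, AlgHom.restrictScalars_apply, Polynomial.aeval_X, y,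
              Option.elim_none, hΦβ]
          | some a =>
            simp only [AlgHom.comp_apply, rename_X, AlgEquiv.coe_toAlgHom,
              optionEquivLeft_X_some, AlgHom.restrictScalars_apply, Polynomial.aeval_C, y,
              Option.elim_some, hΦα]
            rfl
        exact congrArg (fun φ => φ F) h3
      rw [← h2]
      exact h1

theorem aeval_hom {k ι τ B : Type*} [Field k] [CommRing B] [Algebra k B]
    (ψ : MvPolynomial ι k →ₐ[k] B) (y : τ → ι) (f : MvPolynomial τ k) :
    aeval (fun t => ψ (X (y t))) f = ψ (rename y f) := by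
  have h : (aeval (fun t => ψ (X (y t))) : MvPolynomial τ k →ₐ[k] B) = ψ.comp (rename y) := by
    apply MvPolynomial.algHom_ext
    intro t
    simp only [aeval_X, AlgHom.comp_apply, rename_X]
  exact congrArg (fun φ => φ f) h

section param

variable {k ι μ : Type*} [Field k]

/-- the rational map with numerators `φ` and denominator `h` -/
noncomputable def rat (h : MvPolynomial μ k) (φ : ι → MvPolynomial μ k) :
    MvPolynomial ι k →ₐ[k] Localization.Away h :=
  aeval fun i => IsLocalization.mk' (Localization.Away h) (φ i)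
    (⟨h, Submonoid.mem_powers h⟩ : Submonoid.powers h)

theorem rat_eval {h : MvPolynomial μ k} {φ : ι → MvPolynomial μ k} {f : MvPolynomial ι k}
    (hf : rat h φ f = 0) {y : μ → k} (hy : eval y h ≠ 0) {x : ι → k}
    (hx : ∀ i, eval y h * x i = eval y (φ i)) : eval x f = 0 := by
  have hu : ∀ z : Submonoid.powers h, IsUnit (eval y (z : MvPolynomial μ k)) := by
    rintro ⟨z, n, rfl⟩
    simp only [map_pow]
    exact (isUnit_iff_ne_zero.2 hy).pow n
  let ev : Localization.Away h →+* k := IsLocalization.lift (M := Submonoid.powers h) hu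
  have h1 : (ev.comp (rat h φ : MvPolynomial ι k →+* Localization.Away h)) = eval x := by
    apply MvPolynomial.ringHom_ext
    · intro a
      simp only [RingHom.comp_apply, RingHom.coe_coe, eval_C]
      have h2 : rat h φ (C a) = algebraMap (MvPolynomial μ k) (Localization.Away h) (C a) := by
        rw [rat, aeval_C, IsScalarTower.algebraMap_apply k (MvPolynomial μ k)
          (Localization.Away h)]
        rfl
      rw [h2]
      simp only [ev, IsLocalization.lift_eq, eval_C]
    · intro i
      simp only [RingHom.comp_apply, RingHom.coe_coe, eval_X, rat, aeval_X]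
      simp only [ev]
      rw [IsLocalization.lift_mk'_spec]
      exact (hx i).symm
  have h2 := congrArg (fun g => g f) h1
  simp only [RingHom.comp_apply, RingHom.coe_coe] at h2
  rw [hf, map_zero] at h2
  exact h2.symm

theorem rat_card [Fintype μ] {h : MvPolynomial μ k} (h0 : h ≠ 0) (φ : ι → MvPolynomial μ k)
    {τ : Type*} [Fintype τ] {y : τ → ι}
    (hy : AlgebraicIndependent k fun t => rat h φ (X (y t))) :
    Fintype.card τ ≤ Fintype.card μ := by
  have hle : Submonoid.powers h ≤ nonZeroDivisors (MvPolynomial μ k) :=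
    powers_le_nonZeroDivisors_of_noZeroDivisors h0
  have : IsDomain (Localization.Away h) :=
    IsLocalization.isDomain_localization hle
  have hinj : Function.Injective (algebraMap (MvPolynomial μ k) (Localization.Away h)) :=
    IsLocalization.injective _ hle
  have : FaithfulSMul (MvPolynomial μ k) (Localization.Away h) :=
    (faithfulSMul_iff_algebraMap_injective _ _).2 hinj
  have halg : Algebra.IsAlgebraic (MvPolynomial μ k) (Localization.Away h) := by
    refine ⟨fun z => ?_⟩
    obtain ⟨⟨a, b⟩, hab⟩ := IsLocalization.surj (Submonoid.powers h) z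
    refine ⟨Polynomial.C (b : MvPolynomial μ k) * Polynomial.X - Polynomial.C a, ?_, ?_⟩
    · intro h1
      have h2 := congrArg (fun q => Polynomial.coeff q 1) h1
      simp only [Polynomial.coeff_sub, Polynomial.coeff_C_mul, Polynomial.coeff_X_one, mul_one,
        Polynomial.coeff_C_of_ne_zero one_ne_zero, sub_zero, Polynomial.coeff_zero] at h2
      exact nonZeroDivisors.ne_zero (hle b.2) h2
    · simp only [map_sub, map_mul, Polynomial.aeval_C, Polynomial.aeval_X]
      rw [mul_comm]
      exact sub_eq_zero.2 hab
  have h1 : IsTranscendenceBasis k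
      (algebraMap (MvPolynomial μ k) (Localization.Away h) ∘ (X : μ → MvPolynomial μ k)) :=
    (IsTranscendenceBasis.mvPolynomial μ k).algebraMap_comp
  have h2 := h1.lift_cardinalMk_eq_trdeg
  have h3 := hy.lift_cardinalMk_le_trdeg
  rw [Cardinal.mk_fintype, Cardinal.lift_natCast] at h2 h3
  have h4 : Algebra.trdeg k (Localization.Away h) = (Fintype.card μ : Cardinal) := by
    rw [eq_comm, Cardinal.lift_eq_nat_iff] at h2
    exact h2
  rw [h4, Cardinal.lift_natCast] at h3
  exact_mod_cast h3

end param

section avoid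

variable {k ι κ Λ : Type*} [Field k] [IsAlgClosed k] [Fintype ι] [Fintype κ] [Fintype Λ]
  {μ : Λ → Type*} [∀ a, Fintype (μ a)]

/-- common zeros of `c` equations in `n` unknowns near a given one are not contained in
finitely many rationally parametrised sets of dimension `< n - c` -/
theorem zeros_avoid (hc : ∀ a, Fintype.card κ + Fintype.card (μ a) < Fintype.card ι)
    (F : κ → MvPolynomial ι k) (q : MvPolynomial ι k) (x₀ : ι → k)
    (h0 : ∀ j, eval x₀ (F j) = 0) (hq : eval x₀ q ≠ 0)
    (h : ∀ a, MvPolynomial (μ a) k) (φ : ∀ a, ι → MvPolynomial (μ a) k) :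
    ∃ x : ι → k, (∀ j, eval x (F j) = 0) ∧ eval x q ≠ 0 ∧
      ∀ a (y : μ a → k), eval y (h a) ≠ 0 → ¬ ∀ i, eval y (h a) * x i = eval y (φ a i) := by
  classical
  by_contra hcon
  push Not at hcon
  have hle : Ideal.span (Set.range F) ≤ (vanishingIdeal k {x₀} : Ideal (MvPolynomial ι k)) := by
    rw [Ideal.span_le]
    rintro _ ⟨j, rfl⟩
    exact (mem_vanishingIdeal_singleton_iff x₀ (F j)).2 (by rw [aev]; exact h0 j)
  obtain ⟨p, hp, hple⟩ := Ideal.exists_minimalPrimes_le hle
  have hpp : p.IsPrime := hp.1.1
  have hqp : q ∉ p := fun hgp => hq (by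
    have := (mem_vanishingIdeal_singleton_iff x₀ q).1 (hple hgp)
    rwa [aev] at this)
  -- one of the parametrised sets contains the component
  obtain ⟨a, ha0, ha⟩ : ∃ a, h a ≠ 0 ∧ ∀ f, rat (h a) (φ a) f = 0 → f ∈ p := by
    by_contra hcon2
    push Not at hcon2
    have key : ∀ a, ∃ f : MvPolynomial ι k, f ∉ p ∧ (h a ≠ 0 → rat (h a) (φ a) f = 0) := by
      intro a
      by_cases ha : h a = 0
      · exact ⟨1, fun h1 => hpp.ne_top ((Ideal.eq_top_iff_one p).2 h1), fun h1 => absurd ha h1⟩
      · obtain ⟨f, hf, hfp⟩ := hcon2 a ha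
        exact ⟨f, hfp, fun _ => hf⟩
    choose f hfp hf using key
    have hg : q * ∏ a, f a ∈ p := by
      rw [← MvPolynomial.IsPrime.vanishingIdeal_zeroLocus (K := k) p]
      intro x hx
      rw [aev]
      by_cases hxq : eval x q = 0
      · rw [map_mul, hxq, zero_mul]
      · obtain ⟨a, y, hy, hxy⟩ := hcon x (fun j => by
          have := hx (F j) (hp.1.2 (Ideal.subset_span ⟨j, rfl⟩))
          rwa [aev] at this) hxq
        have ha : h a ≠ 0 := fun h1 => hy (by rw [h1, map_zero])
        rw [map_mul, map_prod, Finset.prod_eq_zero (Finset.mem_univ a)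
          (rat_eval (hf a ha) hy hxy), mul_zero]
    rcases hpp.mem_or_mem hg with h1 | h1
    · exact hqp h1
    · obtain ⟨a, -, ha⟩ := (Ideal.IsPrime.prod_mem_iff (p := p)).1 h1
      exact hfp a ha
  have h3 : p.height ≤ (Set.range F).ncard :=
    Ideal.height_le_card_of_mem_minimalPrimes_span (Set.finite_range F) hp
  have h4 : (Set.range F).ncard ≤ Fintype.card κ := by
    rw [← Set.image_univ]
    refine (Set.ncard_image_le Set.finite_univ).trans ?_
    rw [Set.ncard_univ, Nat.card_eq_fintype_card]
  have h5 := height_add_ge p hpp (Fintype.card (μ a)) (fun S hS => by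
    rw [← Fintype.card_coe]
    refine rat_card ha0 (φ a) (y := fun i : {i // i ∈ S} => (i : ι)) ?_
    rw [algebraicIndependent_iff]
    intro f hf
    have h6 : rat (h a) (φ a) (rename (fun i : {i // i ∈ S} => (i : ι)) f) = 0 := by
      rw [← aeval_hom]
      exact hf
    have h7 := Ideal.Quotient.eq_zero_iff_mem.2 (ha _ h6)
    refine (algebraicIndependent_iff.1 hS) f ?_
    rw [← h7]
    exact aeval_hom (Ideal.Quotient.mkₐ k p) (fun i : {i // i ∈ S} => (i : ι)) f)
  have h6 : (Fintype.card ι : ℕ∞) ≤ (Fintype.card κ : ℕ∞) + (Fintype.card (μ a) : ℕ∞) :=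
    h5.trans (add_le_add (h3.trans (by exact_mod_cast h4)) le_rfl)
  have h7 : Fintype.card ι ≤ Fintype.card κ + Fintype.card (μ a) := by exact_mod_cast h6
  have := hc a
  omega

open Matrix Pool.Agent.Lib.Q5dc Pool.Agent.Lib.D7

/-- the same for polynomial functions -/
theorem avoid (hc : ∀ a, Fintype.card κ + Fintype.card (μ a) < Fintype.card ι)
    (F : κ → (ι → k) → k) (hF : ∀ j, MP (F j)) (q : (ι → k) → k) (hq : MP q)
    (h : ∀ a, (μ a → k) → k) (hh : ∀ a, MP (h a)) (φ : ∀ a, (μ a → k) → ι → k)
    (hφ : ∀ a i, MP fun y => φ a y i) {x₀ : ι → k} (h0 : ∀ j, F j x₀ = 0) (hq0 : q x₀ ≠ 0) :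
    ∃ x : ι → k, (∀ j, F j x = 0) ∧ q x ≠ 0 ∧
      ∀ a (y : μ a → k), h a y ≠ 0 → ¬ ∀ i, h a y * x i = φ a y i := by
  choose P hP using hF
  obtain ⟨Q, hQ⟩ := hq
  choose H hH using hh
  choose Φ hΦ using hφ
  obtain ⟨x, h1, h2, h3⟩ := zeros_avoid hc P Q x₀ (fun j => by rw [← hP]; exact h0 j)
    (by rw [← hQ]; exact hq0) H Φ
  refine ⟨x, fun j => by rw [hP]; exact h1 j, by rw [hQ]; exact h2, fun a y hy hxy => ?_⟩
  refine h3 a y (by rw [← hH]; exact hy) fun i => ?_
  rw [← hH, ← hΦ]
  exact hxy i

variable {n : Type*} [Fintype n] [DecidableEq n] {ρ : ℕ → ℕ}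

/-- **Krull tool with parametrised bad sets**: `c` is a family of triples over the unknowns
`x : ι → k`, `F` the equations, `(h a, φ a)` finitely many rational maps into the space of the
unknowns whose sources have less than `#ι - #κ` parameters. Only outside their images the
equations have to guarantee commuting nilpotent triples. Then a maximal bad triple of the family
can be moved outside the images. -/
theorem krull_avoid (hc : ∀ a, Fintype.card κ + Fintype.card (μ a) < Fintype.card ι)
    (c : (ι → k) → Fin 3 → Matrix n n k) (hcp : ∀ i a b, MP fun x => c x i a b)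
    (F : κ → (ι → k) → k) (hF : ∀ j, MP (F j)) (q : (ι → k) → k) (hq : MP q)
    (h : ∀ a, (μ a → k) → k) (hh : ∀ a, MP (h a)) (φ : ∀ a, (μ a → k) → ι → k)
    (hφ : ∀ a i, MP fun y => φ a y i)
    (hcn : ∀ x, (∀ j, F j x = 0) → q x ≠ 0 →
      (∀ a (y : μ a → k), h a y ≠ 0 → ¬ ∀ i, h a y * x i = φ a y i) → CN (c x))
    {x₀ : ι → k} (h0 : ∀ j, F j x₀ = 0) (hq0 : q x₀ ≠ 0) (hT : MaxR ρ (c x₀)) :
    ∃ x : ι → k, (∀ j, F j x = 0) ∧ q x ≠ 0 ∧
      (∀ a (y : μ a → k), h a y ≠ 0 → ¬ ∀ i, h a y * x i = φ a y i) ∧ MaxR ρ (c x) := by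
  obtain ⟨g, hg, hg0, hg1⟩ := nbhd c hcp hT
  obtain ⟨x, h1, h2, h3⟩ := avoid hc F hF (fun x => q x * g x) (hq.mul hg) h hh φ hφ h0
    (mul_ne_zero hq0 hg0)
  exact ⟨x, h1, left_ne_zero_of_mul h2, h3, hg1 x (right_ne_zero_of_mul h2)
    (hcn x h1 (left_ne_zero_of_mul h2) h3)⟩

/-- if all triples of the family outside the images are limits of curvilinear ones, so are all -/
theorem cl_avoid (hc : ∀ a, Fintype.card κ + Fintype.card (μ a) < Fintype.card ι)
    (c : (ι → k) → Fin 3 → Matrix n n k) (hcp : ∀ i a b, MP fun x => c x i a b)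
    (F : κ → (ι → k) → k) (hF : ∀ j, MP (F j)) (q : (ι → k) → k) (hq : MP q)
    (h : ∀ a, (μ a → k) → k) (hh : ∀ a, MP (h a)) (φ : ∀ a, (μ a → k) → ι → k)
    (hφ : ∀ a i, MP fun y => φ a y i)
    (hcl : ∀ x, (∀ j, F j x = 0) → q x ≠ 0 →
      (∀ a (y : μ a → k), h a y ≠ 0 → ¬ ∀ i, h a y * x i = φ a y i) → Cl (c x))
    {x₀ : ι → k} (h0 : ∀ j, F j x₀ = 0) (hq0 : q x₀ ≠ 0) : Cl (c x₀) := by
  intro G hG
  by_contra hG0
  have h1 : MP fun y : Fin 3 × n × n → k => MvPolynomial.eval y G := ⟨G, fun _ => rfl⟩
  have h2 : MP fun x : ι → k => MvPolynomial.eval (co (c x)) G :=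
    h1.comp fun z => hcp z.1 z.2.1 z.2.2
  obtain ⟨x, h3, h4, h5⟩ := avoid hc F hF (fun x => q x * MvPolynomial.eval (co (c x)) G)
    (hq.mul h2) h hh φ hφ h0 (mul_ne_zero hq0 hG0)
  exact right_ne_zero_of_mul h4 (hcl x h3 (left_ne_zero_of_mul h4) h5 G hG)

end avoid

end Pool.Agent.Lib.D13
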