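import Pool.Agent.Lib.D13.L22F

/-!
# MP_5dcbc3_ag: maximal bad triples with first matrix `LA m x`
-/

namespace Pool.Agent.Lib.D13

open Matrix Pool.Agent.Lib.Q5dc Pool.Agent.Lib.D7

variable {k : Type*} [Field k] {ι : Type*} [Fintype ι] [DecidableEq ι] {m : ℕ}
  {x : Matrix ι ι k}

theorem vmv' {α β : Type*} [Fintype β] (g : α → k) (φ v : β → k) :
    vecMulVec g φ *ᵥ v = (φ ⬝ᵥ v) • g := by
  rw [vecMulVec_mulVec]
  simp

theorem elim_dot {α β : Type*} [Fintype α] [Fintype β] (a a' : α → k) (b b' : β → k) :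
    Sum.elim a b ⬝ᵥ Sum.elim a' b' = a ⬝ᵥ a' + b ⬝ᵥ b' := by
  simp [dotProduct]

theorem LA_poly (p : ℕ → k) (N : ℕ) : ∑ t ∈ Finset.range N, p t • LA m x ^ t =
    fromBlocks (∑ t ∈ Finset.range N, p t • ShF k (m + 4) ^ t) 0 0
      (∑ t ∈ Finset.range N, p t • x ^ t) := by
  induction N with
  | zero => simp
  | succ N ih =>
    rw [Finset.sum_range_succ, Finset.sum_range_succ, Finset.sum_range_succ, ih, LA_pow,
      fromBlocks_smul, fromBlocks_add]
    simp

/-- nilpotent matrices commuting with `LA m x` -/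
theorem comm_shape (hx : x * x = 0) {M : Matrix (Fin (m + 4) ⊕ ι) (Fin (m + 4) ⊕ ι) k}
    (hc : LA m x * M = M * LA m x) (hn : IsNilpotent M) :
    ∃ (p : ℕ → k) (G : Matrix ι ι k) (a b : ι → k), p 0 = 0 ∧ x * G = G * x ∧
      M = ∑ t ∈ Finset.range (m + 4), p t • LA m x ^ t + LX m x G a b := by
  have hM := fromBlocks_toBlocks M
  rw [← hM, LA, fromBlocks_multiply, fromBlocks_multiply] at hc
  simp only [Matrix.zero_mul, Matrix.mul_zero, add_zero, zero_add] at hc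
  have c11 := congrArg toBlocks₁₁ hc
  have c12 := congrArg toBlocks₁₂ hc
  have c21 := congrArg toBlocks₂₁ hc
  have c22 := congrArg toBlocks₂₂ hc
  rw [toBlocks_fromBlocks₁₁, toBlocks_fromBlocks₁₁] at c11
  rw [toBlocks_fromBlocks₁₂, toBlocks_fromBlocks₁₂] at c12
  rw [toBlocks_fromBlocks₂₁, toBlocks_fromBlocks₂₁] at c21
  rw [toBlocks_fromBlocks₂₂, toBlocks_fromBlocks₂₂] at c22
  obtain ⟨p, hp⟩ := shift_shape c11
  obtain ⟨b, hb⟩ := row_shape hx c12
  obtain ⟨a, ha⟩ := col_shape hx c21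
  refine ⟨p, M.toBlocks₂₂ - ∑ t ∈ Finset.range (m + 4), p t • x ^ t, a, b, ?_, ?_, ?_⟩
  · refine eig_zero' hn (v := Sum.elim (ev k (m + 4) (m + 3)) 0) ?_ ?_
    · rw [← hM, fromBlocks_mulVec, Sum.elim_comp_inl, Sum.elim_comp_inr, mulVec_zero, mulVec_zero,
        add_zero, add_zero, ha, hp, Lc, add_mulVec, vmv', vmv']
      have h0 : ∀ i, i < m + 3 → ev k (m + 4) i ⬝ᵥ ev k (m + 4) (m + 3) = 0 := by
        intro i hi
        rw [ev_dot _ _ _ (by omega), if_neg (by omega)]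
      rw [h0 0 (by omega), h0 1 (by omega)]
      have h1 : (∑ t ∈ Finset.range (m + 4), p t • ShF k (m + 4) ^ t) *ᵥ ev k (m + 4) (m + 3) =
          p 0 • ev k (m + 4) (m + 3) := by
        rw [sum_mulVec, Finset.sum_eq_single 0]
        · rw [pow_zero, smul_mulVec, one_mulVec]
        · intro t _ ht
          rw [smul_mulVec, ShF_pow_ev, ev_big _ _ (by omega), smul_zero]
        · intro h
          exact absurd (Finset.mem_range.2 (by omega)) h
      rw [h1]
      ext (i | i) <;> simp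
    · intro h
      have h1 := congrFun h (Sum.inl ⟨m + 3, by omega⟩)
      simp [ev] at h1
  · rw [mul_sub, sub_mul, c22, Finset.mul_sum, Finset.sum_mul]
    congr 1
    refine Finset.sum_congr rfl fun t _ => ?_
    rw [mul_smul_comm, smul_mul_assoc, ← pow_succ, ← pow_succ']
  · rw [LA_poly, LX, fromBlocks_add]
    conv_lhs => rw [← hM, hp, hb, ha]
    congr 1
    · rw [add_zero]
    · rw [zero_add]
    · rw [zero_add]
    · rw [add_sub_cancel]

variable {ρ : ℕ → ℕ} {T : Fin 3 → Matrix (Fin (m + 4) ⊕ ι) (Fin (m + 4) ⊕ ι) k}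

theorem poly_mem {p : ℕ → k} (hp : p 0 = 0) {T : Fin 3 → Matrix (Fin (m + 4) ⊕ ι)
    (Fin (m + 4) ⊕ ι) k} (hA : LA m x ∈ adj T) (N : ℕ) :
    ∑ t ∈ Finset.range N, p t • LA m x ^ t ∈ adj T := by
  refine sum_mem fun t _ => ?_
  match t with
  | 0 =>
    rw [hp, zero_smul]
    exact zero_mem _
  | t + 1 => exact SMulMemClass.smul_mem _ (pow_mem_adj hA t)

/-- the rank condition for the square: `x G = 0` -/
theorem xG_zero [Infinite k] [CharZero k] (hx : x * x = 0) (hT : MaxR ρ T)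
    (hρ : ρ 2 ≤ (LA m x ^ 2).rank) (hA : LA m x ∈ adj T) {G : Matrix ι ι k} {a b : ι → k}
    (hM : LX m x G a b ∈ adj T) (hc : x * G = G * x) : x * G = 0 := by
  have h1 : ∀ r r' : ι → k, r' ⬝ᵥ ((x * G + G * x) *ᵥ r) = 0 := by
    intro r r'
    have h2 := MaxR.sq_first hT hA hM hρ (v := Sum.elim 0 r) (w := Sum.elim 0 r')
      (by
        rw [LA_pow_mulVec hx le_rfl, mulVec_zero]
        ext (i | i) <;> rfl)
      (by
        rw [vecMul_LA_pow hx le_rfl, zero_vecMul]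
        ext (i | i) <;> rfl)
    rw [add_mulVec, ← mulVec_mulVec, ← mulVec_mulVec, LX_mulVec, LA_mulVec, LA_mulVec, LX_mulVec,
      dotProduct_add, elim_dot, elim_dot] at h2
    simp only [dotProduct_zero, zero_smul, zero_add, zero_dotProduct, mulVec_mulVec,
      mulVec_zero] at h2
    rw [add_mulVec, dotProduct_add]
    exact h2
  have h2 : x * G + G * x = 0 := by
    ext i j
    have h3 := h1 (Pi.single j 1) (Pi.single i 1)
    rw [mulVec_single_one, single_dotProduct, one_mul, Matrix.col_apply] at h3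
    exact h3
  rw [← hc, ← two_smul k] at h2
  exact (smul_eq_zero.1 h2).resolve_left two_ne_zero

/-- the shape of a maximal bad triple with first matrix `LA m x` -/
theorem shape1 [Infinite k] [CharZero k] (hx : x * x = 0) (hT : MaxR ρ T)
    (hρ : ∀ i, ρ i = (LA m x ^ i).rank) (h0 : T 0 = LA m x) :
    ∃ (G G' : Matrix ι ι k) (a b a' b' : ι → k),
      MaxR ρ ![LA m x, LX m x G a b, LX m x G' a' b'] ∧ x * G = 0 ∧ G * x = 0 ∧
        x * G' = 0 ∧ G' * x = 0 := by
  have c1 := hT.cn.1 0 1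
  have c2 := hT.cn.1 0 2
  rw [h0] at c1 c2
  obtain ⟨p, G, a, b, hp, hG, h1⟩ := comm_shape hx c1 (hT.cn.2 1)
  obtain ⟨p', G', a', b', hp', hG', h2⟩ := comm_shape hx c2 (hT.cn.2 2)
  have m0 : LA m x ∈ adj T := h0 ▸ mem_adj T 0
  have m1 : LX m x G a b ∈ adj T := by
    have e : LX m x G a b = T 1 - ∑ t ∈ Finset.range (m + 4), p t • LA m x ^ t := by
      rw [h1, add_sub_cancel_left]
    rw [e]
    exact sub_mem (mem_adj T 1) (poly_mem hp m0 _)
  have m2 : LX m x G' a' b' ∈ adj T := by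
    have e : LX m x G' a' b' = T 2 - ∑ t ∈ Finset.range (m + 4), p' t • LA m x ^ t := by
      rw [h2, add_sub_cancel_left]
    rw [e]
    exact sub_mem (mem_adj T 2) (poly_mem hp' m0 _)
  have g1 := xG_zero hx hT (hρ 2).le m0 m1 hG
  have g2 := xG_zero hx hT (hρ 2).le m0 m2 hG'
  refine ⟨G, G', a, b, a', b', ?_, g1, by rw [← hG, g1], g2, by rw [← hG', g2]⟩
  refine MaxR.change hT (hT.cn.of_adj fun i => ?_) fun i => ?_
  · fin_cases i
    exacts [m0, m1, m2]
  · fin_cases i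
    · exact h0 ▸ D8.mem0 _ _ _
    · exact h1 ▸ add_mem (poly_mem hp (D8.mem0 _ _ _) _) (D8.mem1 _ _ _)
    · exact h2 ▸ add_mem (poly_mem hp' (D8.mem0 _ _ _) _) (D8.mem2 _ _ _)

end Pool.Agent.Lib.D13
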