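import Pool.Agent.Lib.D13.L22C
import Pool.Agent.Lib.D13.L22G

/-!
# MP_5dcbc3_ag: Jordan types `(l, 2, 2)`, `l` at least `5`
-/

namespace Pool.Agent.Lib.D13

open Matrix Pool.Agent.Lib.Q5dc Pool.Agent.Lib.D7

variable {k : Type*} [Field k]

/-- there are no maximal bad triples of type `(m + 4, 2, 2)`, `m` at least `1`. The basis is
`v_0, .., v_(m+3)`, `r_0, r_1`, `A r_0, A r_1`. -/
theorem no_l22 [IsAlgClosed k] [CharZero k] {m : ℕ} (hm : 1 ≤ m) {ρ : ℕ → ℕ}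
    {T : Fin 3 → Matrix (Fin (m + 4) ⊕ (Fin 2 ⊕ Fin 2)) (Fin (m + 4) ⊕ (Fin 2 ⊕ Fin 2)) k}
    (hT : MaxR ρ T) (hρ : ∀ i, ρ i = (JX k m ^ i).rank) (h0 : T 0 = JX k m) : False := by
  have : Infinite k := IsAlgClosed.instInfinite
  obtain ⟨G, G', a, b, a', b', h1, h2, h3, h4, h5⟩ := shape1 XI_mul hT hρ h0
  exact no_of_shape hm hρ h2 h3 h4 h5 h1

end Pool.Agent.Lib.D13
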