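import Pool.Agent.Lib.D13.L2Shape

/-!
# MP_5dcbc3_ag: Jordan types `(l, 2, 2, 1)`, `l ≥ 4`: reduction to two affine families

`R = R0 + R1`, `dim R0 = 3`, `dim R1 = 2`; all matrices map `R0` to `R1`. `X` is the first matrix,
`(B, a, c, d, b)`, `(C, a', c', d', b')` are the data of the other two:
`v_0 -> a + c`, `v_1 -> X a`, `r -> b(X r) v_(l-2) + d(r) v_(l-1) + B r` (`r` in `R0`),
`r -> b(r) v_(l-1)` (`r` in `R1`).
-/

namespace Pool.Agent.Lib.D13

open Matrix Pool.Agent.Lib.Q5dc Pool.Agent.Lib.D7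

namespace L221

variable {k : Type*} [Field k] {m : ℕ} {ρ : ℕ → ℕ}

/-- index type of `R` -/
abbrev I5 := Fin 3 ⊕ Fin 2

/-- `R0 -> R1` -/
def bl (X : Matrix (Fin 2) (Fin 3) k) : Matrix I5 I5 k := fromBlocks 0 0 X 0

theorem bl_mul (X Y : Matrix (Fin 2) (Fin 3) k) : bl X * bl Y = 0 := by
  rw [bl, bl, fromBlocks_multiply]
  simp

theorem bl_mulVec (X : Matrix (Fin 2) (Fin 3) k) (a : Fin 3 → k) (c : Fin 2 → k) :
    bl X *ᵥ Sum.elim a c = Sum.elim (0 : Fin 3 → k) (X *ᵥ a) := by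
  rw [bl, fromBlocks_mulVec]
  ext i
  rcases i with i | i
  · simp
  · simp only [Matrix.zero_mulVec, add_zero, Sum.elim_inr]
    rfl

theorem vecMul_bl (X : Matrix (Fin 2) (Fin 3) k) (d : Fin 3 → k) (b : Fin 2 → k) :
    Sum.elim d b ᵥ* bl X = Sum.elim (b ᵥ* X) (0 : Fin 2 → k) := by
  rw [bl, vecMul_fromBlocks]
  ext i
  rcases i with i | i
  · simp only [Matrix.vecMul_zero, zero_add, Sum.elim_inl]
    rfl
  · simp

theorem elim_dot (d a : Fin 3 → k) (b c : Fin 2 → k) :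
    (Sum.elim d b : I5 → k) ⬝ᵥ Sum.elim a c = d ⬝ᵥ a + b ⬝ᵥ c := by
  simp [dotProduct, Fintype.sum_sum_type]

theorem bl_add (X Y : Matrix (Fin 2) (Fin 3) k) : bl (X + Y) = bl X + bl Y := by
  rw [bl, bl, bl, fromBlocks_add]
  simp

theorem bl_smul (s : k) (X : Matrix (Fin 2) (Fin 3) k) : bl (s • X) = s • bl X := by
  rw [bl, bl, fromBlocks_smul]
  simp

/-- the data -/
@[ext] structure Dat (k : Type*) where
  X : Matrix (Fin 2) (Fin 3) k
  B : Matrix (Fin 2) (Fin 3) k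
  C : Matrix (Fin 2) (Fin 3) k
  a : Fin 3 → k
  a' : Fin 3 → k
  c : Fin 2 → k
  c' : Fin 2 → k
  d : Fin 3 → k
  d' : Fin 3 → k
  b : Fin 2 → k
  b' : Fin 2 → k

/-- the triple -/
def TT (m : ℕ) (D : Dat k) : Fin 3 → Matrix (Fin (m + 4) ⊕ I5) (Fin (m + 4) ⊕ I5) k :=
  ![LA m (bl D.X), LX m (bl D.X) (bl D.B) (Sum.elim D.a D.c) (Sum.elim D.d D.b),
    LX m (bl D.X) (bl D.C) (Sum.elim D.a' D.c') (Sum.elim D.d' D.b')]

/-- the relations -/
structure Rel (D : Dat k) : Prop where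
  al : D.B *ᵥ D.a' = D.C *ᵥ D.a
  be : D.b ᵥ* D.C = D.b' ᵥ* D.B
  ga : D.b ⬝ᵥ (D.X *ᵥ D.a') = D.b' ⬝ᵥ (D.X *ᵥ D.a)
  de : D.d ⬝ᵥ D.a' + D.b ⬝ᵥ D.c' = D.d' ⬝ᵥ D.a + D.b' ⬝ᵥ D.c

theorem Rel.cn {D : Dat k} (h : Rel D) : CN (TT m D) := by
  refine LX_cn (bl_mul _ _) (by rw [bl_mul, bl_mul]) (by rw [bl_mul, bl_mul])
    ⟨2, by rw [pow_two, bl_mul]⟩ ⟨2, by rw [pow_two, bl_mul]⟩ (by rw [bl_mul, bl_mul]) ?_ ?_ ?_ ?_
  · rw [bl_mulVec, bl_mulVec, h.al]
  · rw [vecMul_bl, vecMul_bl, h.be]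
  · rw [bl_mulVec, bl_mulVec, elim_dot, elim_dot, h.ga]
    simp
  · rw [elim_dot, elim_dot, h.de]

theorem rel_of_cn {D : Dat k} (h : CN (TT m D)) : Rel D := by
  have h0 : LX m (bl D.X) (bl D.B) (Sum.elim D.a D.c) (Sum.elim D.d D.b) *
      LX m (bl D.X) (bl D.C) (Sum.elim D.a' D.c') (Sum.elim D.d' D.b') =
      LX m (bl D.X) (bl D.C) (Sum.elim D.a' D.c') (Sum.elim D.d' D.b') *
      LX m (bl D.X) (bl D.B) (Sum.elim D.a D.c) (Sum.elim D.d D.b) := h.1 1 2
  obtain ⟨-, h2, h3, h4, h5⟩ := L2.rel h0 (bl_mul _ _)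
  rw [bl_mulVec, bl_mulVec] at h2
  rw [vecMul_bl, vecMul_bl] at h3
  rw [bl_mulVec, bl_mulVec, elim_dot, elim_dot] at h4
  rw [elim_dot, elim_dot] at h5
  refine ⟨?_, ?_, ?_, h5⟩
  · ext i
    exact congrFun h2 (.inr i)
  · ext i
    exact congrFun h3 (.inl i)
  · simpa using h4

/-- lines -/
def Dat.ad (D E : Dat k) (s : k) : Dat k :=
  ⟨D.X + s • E.X, D.B + s • E.B, D.C + s • E.C, D.a + s • E.a, D.a' + s • E.a', D.c + s • E.c,
    D.c' + s • E.c', D.d + s • E.d, D.d' + s • E.d', D.b + s • E.b, D.b' + s • E.b'⟩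

theorem isPoly_sum {ι : Type*} (t : Finset ι) {f : ι → k → k} (h : ∀ i ∈ t, IsPoly (f i)) :
    IsPoly fun s => ∑ i ∈ t, f i s := by
  classical
  induction t using Finset.induction_on with
  | empty => simpa using D7.IsPoly.const (0 : k)
  | insert a t ha ih =>
    have h1 : (fun s => ∑ i ∈ insert a t, f i s) = fun s => f a s + ∑ i ∈ t, f i s := by
      funext s
      rw [Finset.sum_insert ha]
    rw [h1]
    exact (h a (Finset.mem_insert_self _ _)).add (ih fun i hi => h i (Finset.mem_insert_of_mem hi))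

theorem isPoly_lin (a b : k) : IsPoly fun s : k => a + s * b :=
  (D7.IsPoly.const a).add (D7.IsPoly.id.mul (D7.IsPoly.const b))

theorem isPoly_dot {ι : Type*} [Fintype ι] {f g : k → ι → k} (hf : ∀ i, IsPoly fun s => f s i)
    (hg : ∀ i, IsPoly fun s => g s i) : IsPoly fun s => f s ⬝ᵥ g s :=
  isPoly_sum _ fun i _ => (hf i).mul (hg i)

section General

variable {ι : Type*} [Fintype ι] [DecidableEq ι] {x G : k → Matrix ι ι k} {a b : k → ι → k}

theorem LA_isPoly (m : ℕ) (hx : ∀ i j, IsPoly fun s => x s i j) (i j : Fin (m + 4) ⊕ ι) :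
    IsPoly fun s => LA m (x s) i j := by
  rcases i with i | i <;> rcases j with j | j
  · exact D7.IsPoly.const (ShF k (m + 4) i j)
  · exact D7.IsPoly.const 0
  · exact D7.IsPoly.const 0
  · exact hx i j

theorem LX_isPoly (m : ℕ) (hx : ∀ i j, IsPoly fun s => x s i j)
    (hG : ∀ i j, IsPoly fun s => G s i j) (ha : ∀ i, IsPoly fun s => a s i)
    (hb : ∀ i, IsPoly fun s => b s i) (i j : Fin (m + 4) ⊕ ι) :
    IsPoly fun s => LX m (x s) (G s) (a s) (b s) i j := by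
  rcases i with i | i <;> rcases j with j | j
  · exact D7.IsPoly.const 0
  · have h1 : (fun s => LX m (x s) (G s) (a s) (b s) (Sum.inl i) (Sum.inr j)) = fun s =>
        ev k (m + 4) (m + 2) i * (b s ⬝ᵥ fun l => x s l j) + ev k (m + 4) (m + 3) i * b s j := by
      funext s
      rfl
    rw [h1]
    exact ((D7.IsPoly.const _).mul (isPoly_dot hb fun l => hx l j)).add
      ((D7.IsPoly.const _).mul (hb j))
  · have h1 : (fun s => LX m (x s) (G s) (a s) (b s) (Sum.inr i) (Sum.inl j)) = fun s =>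
        a s i * ev k (m + 4) 0 j + ((fun l => x s i l) ⬝ᵥ a s) * ev k (m + 4) 1 j := by
      funext s
      rfl
    rw [h1]
    exact ((ha i).mul (D7.IsPoly.const _)).add ((isPoly_dot (fun l => hx i l) ha).mul
      (D7.IsPoly.const _))
  · exact hG i j

end General

theorem polyFam (D E : Dat k) : PolyFam fun s => TT m (D.ad E s) := by
  have hM : ∀ (X Y : Matrix (Fin 2) (Fin 3) k) (i j : I5),
      IsPoly fun s : k => bl (X + s • Y) i j := by
    intro X Y i j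
    rcases i with i | i <;> rcases j with j | j
    · exact D7.IsPoly.const 0
    · exact D7.IsPoly.const 0
    · exact isPoly_lin (X i j) (Y i j)
    · exact D7.IsPoly.const 0
  have hv : ∀ (a a1 : Fin 3 → k) (c c1 : Fin 2 → k) (i : I5),
      IsPoly fun s : k => (Sum.elim (a + s • a1) (c + s • c1) : I5 → k) i := by
    intro a a1 c c1 i
    rcases i with i | i
    · exact isPoly_lin (a i) (a1 i)
    · exact isPoly_lin (c i) (c1 i)
  intro i x y
  fin_cases i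
  · exact LA_isPoly m (hM _ _) x y
  · exact LX_isPoly m (hM _ _) (hM _ _) (hv _ _ _ _) (hv _ _ _ _) x y
  · exact LX_isPoly m (hM _ _) (hM _ _) (hv _ _ _ _) (hv _ _ _ _) x y

theorem ad_zero (D E : Dat k) : D.ad E 0 = D := by
  cases D
  simp [Dat.ad]

/-- moving along a line -/
theorem move [Infinite k] {D : Dat k} (hT : MaxR ρ (TT m D)) (E : Dat k)
    (h : ∀ s, Rel (D.ad E s)) {F : Set k} (hF : F.Finite) :
    ∃ s, s ∉ F ∧ MaxR ρ (TT m (D.ad E s)) := by
  obtain ⟨E', hE', h1⟩ := hT.deform (fun s => TT m (D.ad E s)) (polyFam D E)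
    (by simp only [ad_zero]) Set.finite_empty (fun s _ => (h s).cn)
  obtain ⟨s, hs⟩ := (hE'.union hF).infinite_compl.nonempty
  rw [Set.mem_compl_iff, Set.mem_union, not_or] at hs
  exact ⟨s, hs.2, h1 s hs.1⟩

/-- linear changes of the last two matrices -/
def Dat.lin (D : Dat k) (p q r t : k) : Dat k :=
  ⟨D.X, p • D.B + q • D.C, r • D.B + t • D.C, p • D.a + q • D.a', r • D.a + t • D.a',
    p • D.c + q • D.c', r • D.c + t • D.c', p • D.d + q • D.d', r • D.d + t • D.d',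
    p • D.b + q • D.b', r • D.b + t • D.b'⟩

theorem LX_smul {ι : Type*} [Fintype ι] [DecidableEq ι] (m : ℕ) (x G : Matrix ι ι k)
    (a b : ι → k) (s : k) : s • LX m x G a b = LX m x (s • G) (s • a) (s • b) := by
  rw [LX, LX, fromBlocks_smul, Lb, Lb, Lc, Lc]
  congr 1
  · simp
  · rw [smul_vecMul, vecMulVec_smul, vecMulVec_smul, smul_add]
  · rw [mulVec_smul, smul_vecMulVec, smul_vecMulVec, smul_add]

theorem lin [Infinite k] {D : Dat k} (hT : MaxR ρ (TT m D)) {p q r t : k}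
    (h : p * t - q * r ≠ 0) : MaxR ρ (TT m (D.lin p q r t)) := by
  have h1 := D8.MaxR.lin hT p q r t 0 0 0 0 h
  simp only [zero_smul, add_zero] at h1
  have e1 : ∀ (B C : Matrix (Fin 2) (Fin 3) k) (a a' : Fin 3 → k) (c c' : Fin 2 → k)
      (d d' : Fin 3 → k) (b b' : Fin 2 → k) (p q : k),
      p • LX m (bl D.X) (bl B) (Sum.elim a c) (Sum.elim d b) +
        q • LX m (bl D.X) (bl C) (Sum.elim a' c') (Sum.elim d' b') =
      LX m (bl D.X) (bl (p • B + q • C)) (Sum.elim (p • a + q • a') (p • c + q • c'))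
        (Sum.elim (p • d + q • d') (p • b + q • b')) := by
    intro B C a a' c c' d d' b b' p q
    have h2 : ∀ {α β : Type} (f f' : α → k) (g g' : β → k), (Sum.elim (p • f + q • f')
        (p • g + q • g') : α ⊕ β → k) = p • Sum.elim f g + q • Sum.elim f' g' := by
      intro α β f f' g g'
      ext i
      rcases i with i | i <;> simp
    rw [LX_smul, LX_smul, L2.LX_add, h2, h2, bl_add, bl_smul, bl_smul]
  rw [e1, e1] at h1
  exact h1

end L221

end Pool.Agent.Lib.D13
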