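import Pool.Agent.Lib.D13.Refl
import Pool.Agent.Lib.D13.FdcW

/-!
# MP_5dcbc3_ag: the checker for weighted density certificates

The matrix number `i` has degree `de i`; `κ` is the additional degree (`0, 1, ...`).
-/

namespace Pool.Agent.Lib.D13

open Matrix Pool.Agent.Lib.Q5dc Pool.Agent.Lib.D7

namespace Refl

namespace Base

variable (B : Base) (dl : List ℕ)

/-- no parts of degree larger than `de i` -/
def ckDegW (D : ℕ) : Bool :=
  allb (fun i => allb (fun x => allb (fun y =>
    bif Nat.blt (B.w y + nth 0 dl i) (B.w x) then isz (B.Xe i x y) else true) D) D) 3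

/-- all checks of the base point -/
def ckW (D : ℕ) : Bool := B.ckPow D && B.ckX D && B.ckDegW dl D

/-- the unknown `e i x y` -/
def esW (D κ i x y : ℕ) : LF :=
  bif Nat.blt (B.w x) (B.w y + nth 0 dl i + κ) then [] else [(code D i x y, 1)]

/-- a constraint -/
def conW (D κ i j x z : ℕ) : LF :=
  bif Nat.blt (B.w x) (B.w z + nth 0 dl i + nth 0 dl j + κ) then [] else
    add (add (sm (fun u => B.Xe i x u) (fun u => B.esW dl D κ j u z) D)
      (sm (fun u => B.Xe j u z) (fun u => B.esW dl D κ i x u) D))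
      (scl (-1) (add (sm (fun u => B.Xe j x u) (fun u => B.esW dl D κ i u z) D)
      (sm (fun u => B.Xe i u z) (fun u => B.esW dl D κ j x u) D)))

/-- a constraint by its code -/
def concW (D κ c : ℕ) : LF :=
  B.conW dl D κ (nth 0 [0, 0, 1] (c / (D * D))) (nth 0 [1, 2, 2] (c / (D * D))) (c / D % D)
    (c % D)

end Base

namespace Cer

variable (C : Cer) (B : Base) (dl : List ℕ)

/-- one equation -/
def eqnW (D κ i x y : ℕ) : LF :=
  add (add (C.lhs B D i x y) (sml (fun c => B.concW dl D κ c) (C.We i x y)))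
    (scl (-C.den) [(Base.code D i x y, 1)])

/-- the check -/
def ckW (D κ : ℕ) : Bool :=
  !(isz C.den) &&
  allb (fun i => allb (fun x => allb (fun y =>
    bif Nat.blt (B.w x) (B.w y + nth 0 dl i + κ) then true else
      (C.eqnW B dl D κ i x y).isEmpty) D) D) 3

end Cer

variable {k : Type*} [Field k]

variable {D : ℕ} (B : Base) (dl : List ℕ) {κ : ℕ}

theorem ev_esW {e : Fin 3 → Matrix (Fin D) (Fin D) k}
    (he : ∀ (i : Fin 3) (x y : Fin D), B.w x < B.w y + nth 0 dl i + κ → e i x y = 0)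
    (i : Fin 3) (x y : Fin D) : ev (vv D e) (B.esW dl D κ i x y) = e i x y := by
  rw [Base.esW]
  cases h1 : Nat.blt (B.w x) (B.w y + nth 0 dl i + κ) with
  | true =>
    rw [cond_true, he i x y (blt_true h1), ev]
  | false =>
    rw [cond_false, ev, ev, vv_code]
    simp

theorem ev_conW {e : Fin 3 → Matrix (Fin D) (Fin D) k}
    (he : ∀ (i : Fin 3) (x y : Fin D), B.w x < B.w y + nth 0 dl i + κ → e i x y = 0)
    (hc : ∀ (i j : Fin 3) (x z : Fin D), B.w z + nth 0 dl i + nth 0 dl j + κ ≤ B.w x →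
      (XX k B D i * e j + e i * XX k B D j - XX k B D j * e i - e j * XX k B D i) x z = 0)
    (i j : Fin 3) (x z : Fin D) : ev (vv D e) (B.conW dl D κ i j x z) = 0 := by
  rw [Base.conW]
  cases h1 : Nat.blt (B.w x) (B.w z + nth 0 dl i + nth 0 dl j + κ) with
  | true => rw [cond_true, ev]
  | false =>
    have h3 := hc i j x z (blt_false h1)
    rw [cond_false, ev_add, ev_add, ev_scl, ev_add, ev_sm, ev_sm, ev_sm, ev_sm]
    simp only [ev_esW B dl he]
    rw [← h3, Matrix.sub_apply, Matrix.sub_apply, Matrix.add_apply, Matrix.mul_apply,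
      Matrix.mul_apply, Matrix.mul_apply, Matrix.mul_apply]
    have e1 : ∀ (a b : Fin 3) (p q : Fin D),
        ∑ u, XX k B D a p u * e b u q = ∑ u : Fin D, (B.Xe a p u : k) * e b u q :=
      fun a b p q => rfl
    have e2 : ∀ (a b : Fin 3) (p q : Fin D),
        ∑ u, e b p u * XX k B D a u q = ∑ u : Fin D, (B.Xe a u q : k) * e b p u :=
      fun a b p q => Finset.sum_congr rfl fun u _ => mul_comm _ _
    rw [e1, e1, e2, e2]
    push_cast
    ring

theorem ev_concW (hD : 0 < D) {e : Fin 3 → Matrix (Fin D) (Fin D) k}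
    (he : ∀ (i : Fin 3) (x y : Fin D), B.w x < B.w y + nth 0 dl i + κ → e i x y = 0)
    (hc : ∀ (i j : Fin 3) (x z : Fin D), B.w z + nth 0 dl i + nth 0 dl j + κ ≤ B.w x →
      (XX k B D i * e j + e i * XX k B D j - XX k B D j * e i - e j * XX k B D i) x z = 0)
    (c : ℕ) : ev (vv D e) (B.concW dl D κ c) = 0 := by
  have h1 : ∀ m, nth 0 [0, 0, 1] m < 3 := by
    intro m
    rcases m with _ | _ | _ | m <;> simp [nth]
  have h2 : ∀ m, nth 0 [1, 2, 2] m < 3 := by
    intro m
    rcases m with _ | _ | _ | m <;> simp [nth]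
  exact ev_conW B dl he hc ⟨_, h1 (c / (D * D))⟩ ⟨_, h2 (c / (D * D))⟩
    ⟨c / D % D, Nat.mod_lt _ hD⟩ ⟨c % D, Nat.mod_lt _ hD⟩

/-- soundness of the weighted check -/
theorem certW_of_ck [CharZero k] (hD : 0 < D) (hB : B.ckPow D = true) (C : Cer)
    (hC : C.ckW B dl D κ = true) :
    CertW (fun x : Fin D => B.w x) (fun i => nth 0 dl i) (Mt k D (nth [] B.pw 1)) (XX k B D) κ := by
  intro e he hc
  simp only [Cer.ckW, Bool.and_eq_true, Bool.not_eq_true'] at hC
  obtain ⟨hden, h2⟩ := hC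
  have hden' : (C.den : k) ≠ 0 := by
    intro h
    have h1 : C.den = 0 := by exact_mod_cast h
    rw [h1] at hden
    exact absurd hden (by simp [isz])
  refine ⟨Matrix.of fun x y => (C.den : k)⁻¹ * ev (vv D e) (C.Ne x y), fun i =>
    ∑ m : Fin (D - 1), ((C.den : k)⁻¹ * ev (vv D e) (C.Ae i m)) •
      Mt k D (nth [] B.pw 1) ^ ((m : ℕ) + 1), ?_, ?_⟩
  · intro i
    refine ⟨∑ m : Fin (D - 1), Polynomial.C ((C.den : k)⁻¹ * ev (vv D e) (C.Ae i m)) *
      Polynomial.X ^ ((m : ℕ) + 1), ?_, ?_⟩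
    · rw [Polynomial.finsetSum_coeff]
      refine Finset.sum_eq_zero fun m _ => ?_
      rw [Polynomial.coeff_C_mul, Polynomial.coeff_X_pow, if_neg (by omega), mul_zero]
    · rw [map_sum]
      refine Finset.sum_congr rfl fun m _ => ?_
      rw [map_mul, Polynomial.aeval_C, map_pow, Polynomial.aeval_X, ← Algebra.smul_def]
  · intro i x y hxy
    replace hxy : B.w y + nth 0 dl i + κ ≤ B.w x := hxy
    have h3 := allb_iff (allb_iff (allb_iff h2 i i.2) x x.2) y y.2
    have h4 : Nat.blt (B.w x) (B.w y + nth 0 dl i + κ) = false := by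
      cases h5 : Nat.blt (B.w x) (B.w y + nth 0 dl i + κ) with
      | false => rfl
      | true =>
        have h6 := blt_true h5
        omega
    rw [h4, cond_false, List.isEmpty_iff] at h3
    have h5 : ev (vv D e) (C.eqnW B dl D κ i x y) = 0 := by rw [h3, ev]
    rw [Cer.eqnW, ev_add, ev_add, ev_scl, ev_sml _ _ (fun c => ev_concW B dl hD he hc c), ev, ev,
      vv_code, Cer.lhs, ev_add, ev_add, ev_scl, ev_sm, ev_sm, ev_sm] at h5
    have h6 : (C.den : k) * e i x y = (∑ u : Fin D, (B.Xe i x u : k) * ev (vv D e) (C.Ne u y)) -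
        (∑ u : Fin D, (B.Xe i u y : k) * ev (vv D e) (C.Ne x u)) +
        ∑ m : Fin (D - 1), (B.P (m + 1) x y : k) * ev (vv D e) (C.Ae i m) := by
      push_cast at h5
      linear_combination -h5
    have h7 : e i x y = (C.den : k)⁻¹ * ((C.den : k) * e i x y) := by
      rw [inv_mul_cancel_left₀ hden']
    beta_reduce
    rw [h7, h6, Matrix.add_apply, Matrix.sub_apply, Matrix.mul_apply, Matrix.mul_apply,
      Matrix.sum_apply, mul_add, mul_sub, Finset.mul_sum, Finset.mul_sum, Finset.mul_sum]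
    congr 1
    · congr 1
      · refine Finset.sum_congr rfl fun u _ => ?_
        rw [Matrix.of_apply]
        change (B.Xe i x u : k) * _ = _
        ring
      · refine Finset.sum_congr rfl fun u _ => ?_
        rw [Matrix.of_apply]
        change _ * (B.Xe i u y : k) = _
        ring
    · refine Finset.sum_congr rfl fun m _ => ?_
      rw [← pw_eq B hB _ (by omega), Matrix.smul_apply, smul_eq_mul]
      change _ * (B.P (m + 1) x y : k) = _
      ring

theorem X_degW (hX : B.ckDegW dl D = true) (i : Fin 3) (x y : Fin D)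
    (h : B.w y + nth 0 dl i + 1 ≤ B.w x) : XX k B D i x y = 0 := by
  have h1 := allb_iff (allb_iff (allb_iff hX i i.2) x x.2) y y.2
  cases h2 : Nat.blt (B.w y + nth 0 dl i) (B.w x) with
  | false =>
    have h3 := blt_false h2
    omega
  | true =>
    rw [h2, cond_true] at h1
    have h3 : XX k B D i x y = ((B.Xe i x y : ℤ) : k) := rfl
    rw [h3, isz_iff h1, Int.cast_zero]

/-- the weighted density criterion with checked tables -/
theorem fdcW_ck [CharZero k] (hD : 0 < D) (hdl : ∀ i : Fin 3, 1 ≤ nth 0 dl i)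
    (hB : B.ckW dl D = true)
    (cert : ∀ κ, CertW (fun x : Fin D => B.w x) (fun i => nth 0 dl i)
      (Mt k D (nth [] B.pw 1)) (XX k B D) κ)
    (c : k → Fin 3 → Matrix (Fin D) (Fin D) k) (hc : PolyFam c)
    (hcomm : ∀ s i j, c s i * c s j = c s j * c s i)
    (hlow : ∀ s (i : Fin 3) (x y : Fin D), B.w x < B.w y + nth 0 dl i → c s i x y = 0)
    (h0 : ∀ (i : Fin 3) (x y : Fin D), B.w x = B.w y + nth 0 dl i → c 0 i x y = XX k B D i x y)
    (s : k) : Cl (c s) := by
  have hinf : Infinite k := inferInstance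
  simp only [Base.ckW, Bool.and_eq_true] at hB
  obtain ⟨⟨h1, h2⟩, h3⟩ := hB
  refine fdcW (w := fun x : Fin D => B.w x) (de := fun i => nth 0 dl i) hdl
    (N0 := Mt k D (nth [] B.pw 1)) ?_ ?_
    (X := XX k B D) (X_poly B h1 h2) (X_degW B dl h3) cert c hc hcomm hlow h0 s
  · rw [Fintype.card_fin]
    exact pw_top B h1 hD
  · rw [Fintype.card_fin]
    exact pw_ne B h1 hD

/-- the graded weighted density criterion with checked tables -/
theorem fdcW_graded_ck [CharZero k] (hD : 0 < D) (hdl : ∀ i : Fin 3, 1 ≤ nth 0 dl i)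
    (hB : B.ckW dl D = true)
    (cert : CertW (fun x : Fin D => B.w x) (fun i => nth 0 dl i)
      (Mt k D (nth [] B.pw 1)) (XX k B D) 0)
    (c : k → Fin 3 → Matrix (Fin D) (Fin D) k) (hc : PolyFam c)
    (hcomm : ∀ s i j, c s i * c s j = c s j * c s i)
    (hgr : ∀ s (i : Fin 3) (x y : Fin D), B.w x ≠ B.w y + nth 0 dl i → c s i x y = 0)
    (h0 : ∀ (i : Fin 3) (x y : Fin D), B.w x = B.w y + nth 0 dl i → c 0 i x y = XX k B D i x y)
    (s : k) : Cl (c s) := by
  have hinf : Infinite k := inferInstance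
  simp only [Base.ckW, Bool.and_eq_true] at hB
  obtain ⟨⟨h1, h2⟩, h3⟩ := hB
  refine fdcW_graded (w := fun x : Fin D => B.w x) (de := fun i => nth 0 dl i) hdl
    (N0 := Mt k D (nth [] B.pw 1)) ?_ ?_
    (X := XX k B D) (X_poly B h1 h2) (X_degW B dl h3) cert c hc hcomm hgr h0 s
  · rw [Fintype.card_fin]
    exact pw_top B h1 hD
  · rw [Fintype.card_fin]
    exact pw_ne B h1 hD

end Refl

end Pool.Agent.Lib.D13
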