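import Pool.Agent.Lib.D13.L221
import Pool.Agent.Lib.D13.ReflW
import Pool.Agent.Lib.D9.BlkMap

/-!
# MP_5dcbc3_ag: Jordan types `(l, 2, 2, 1)`: the family `b = b' = 0`, density
-/

namespace Pool.Agent.Lib.D13

open Matrix Pool.Agent.Lib.Q5dc Pool.Agent.Lib.D7

namespace L221

open Refl

variable {k : Type*} [Field k]

theorem certW_large {ι : Type*} [Fintype ι] [DecidableEq ι] {w : ι → ℕ} {α : Fin 3 → ℕ}
    {N0 : Matrix ι ι k} {X : Fin 3 → Matrix ι ι k} {κ : ℕ}
    (h : ∀ i x y, w x < w y + α i + κ) : CertW w α N0 X κ := by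
  intro e _ _
  refine ⟨0, 0, fun i => ⟨0, by simp, by simp⟩, fun i x y hxy => ?_⟩
  have := h i x y
  omega

/-- the levels -/
def Wt (m : ℕ) : Fin (m + 4) ⊕ I5 → ℕ :=
  Sum.elim (fun i => 2 * (i : ℕ)) (Sum.elim (fun _ => m + 3) (fun _ => 2 * (m + 3)))

/-- the degrees -/
def dlt (m : ℕ) : List ℕ := [2, m + 3, m + 3]

/-- the numbering -/
def nb (m : ℕ) : Fin (m + 4) ⊕ I5 → Fin (m + 9) :=
  Sum.elim (fun i => ⟨i, by omega⟩) (Sum.elim (fun r => ⟨m + 4 + r, by omega⟩)
    (fun q => ⟨m + 7 + q, by omega⟩))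

theorem nb_inj (m : ℕ) : Function.Injective (nb m) := by
  rintro (i | i | i) (j | j | j) h
  · have h1 := congrArg Fin.val h
    simp only [nb, Sum.elim_inl] at h1
    exact congrArg Sum.inl (Fin.ext h1)
  · have h1 := congrArg Fin.val h
    have hi := i.2
    have hj := j.2
    simp only [nb, Sum.elim_inl, Sum.elim_inr] at h1
    omega
  · have h1 := congrArg Fin.val h
    have hi := i.2
    have hj := j.2
    simp only [nb, Sum.elim_inl, Sum.elim_inr] at h1
    omega
  · have h1 := congrArg Fin.val h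
    have hi := i.2
    have hj := j.2
    simp only [nb, Sum.elim_inl, Sum.elim_inr] at h1
    omega
  · have h1 := congrArg Fin.val h
    simp only [nb, Sum.elim_inl, Sum.elim_inr] at h1
    exact congrArg (fun x => Sum.inr (Sum.inl x)) (Fin.ext (by omega))
  · have h1 := congrArg Fin.val h
    have hi := i.2
    have hj := j.2
    simp only [nb, Sum.elim_inl, Sum.elim_inr] at h1
    omega
  · have h1 := congrArg Fin.val h
    have hi := i.2
    have hj := j.2
    simp only [nb, Sum.elim_inl, Sum.elim_inr] at h1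
    omega
  · have h1 := congrArg Fin.val h
    have hi := i.2
    have hj := j.2
    simp only [nb, Sum.elim_inl, Sum.elim_inr] at h1
    omega
  · have h1 := congrArg Fin.val h
    simp only [nb, Sum.elim_inr] at h1
    exact congrArg (fun x => Sum.inr (Sum.inr x)) (Fin.ext (by omega))

/-- the numbering as an equivalence -/
noncomputable def ne (m : ℕ) : Fin (m + 4) ⊕ I5 ≃ Fin (m + 9) :=
  Equiv.ofBijective (nb m) ((Fintype.bijective_iff_injective_and_card _).2
    ⟨nb_inj m, by simp [I5]⟩)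

theorem ne_apply (m : ℕ) (x : Fin (m + 4) ⊕ I5) : ne m x = nb m x := rfl

/-- the leading integral entries -/
def Lz (m : ℕ) (B : Base) (i : Fin 3) : Fin (m + 4) ⊕ I5 → Fin (m + 4) ⊕ I5 → ℤ
  | .inl a, .inl b => if i = 0 ∧ (a : ℕ) = b + 1 then 1 else 0
  | .inl a, .inr (.inl r) => if i ≠ 0 ∧ (a : ℕ) = m + 3 then B.Xe i (m + 3) (m + 4 + r) else 0
  | .inl _, .inr (.inr _) => 0
  | .inr (.inl r), .inl a => if i ≠ 0 ∧ (a : ℕ) = 0 ∧ (r : ℕ) + 1 = i then 1 else 0
  | .inr (.inr _), .inl _ => 0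
  | .inr (.inl _), .inr (.inl _) => 0
  | .inr (.inr q), .inr (.inl r) => if i ≠ 0 then B.Xe i (m + 7 + q) (m + 4 + r) else 0
  | .inr (.inl _), .inr (.inr _) => 0
  | .inr (.inr _), .inr (.inr _) => 0

/-- the checks of the base point -/
structure BaseOK (m : ℕ) (B : Base) : Prop where
  ck : B.ckW (dlt m) (m + 9) = true
  lev : ∀ x, B.w (nb m x) = Wt m x
  ent : ∀ (i : Fin 3) x y, Wt m x = Wt m y + nth 0 (dlt m) i → B.Xe i (nb m x) (nb m y) = Lz m B i x y
  al : ∀ q : Fin 2, B.Xe 1 (m + 7 + q) (m + 5) = B.Xe 2 (m + 7 + q) (m + 4)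
  de : B.Xe 1 (m + 3) (m + 5) = B.Xe 2 (m + 3) (m + 4)

/-- the base data -/
def B0 (k : Type*) [Field k] (m : ℕ) (B : Base) (i : ℕ) : Matrix (Fin 2) (Fin 3) k :=
  Matrix.of fun q r => (B.Xe i (m + 7 + q) (m + 4 + r) : k)

/-- the base data -/
def d0 (k : Type*) [Field k] (m : ℕ) (B : Base) (i : ℕ) : Fin 3 → k :=
  fun r => (B.Xe i (m + 3) (m + 4 + r) : k)

/-- the line -/
def bas (m : ℕ) (B : Base) (D : Dat k) : Dat k :=
  ⟨D.X, B0 k m B 1, B0 k m B 2, D.a, D.a', D.c, D.c', d0 k m B 1, d0 k m B 2, 0, 0⟩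

/-- the direction -/
def dir (m : ℕ) (B : Base) (D : Dat k) : Dat k :=
  ⟨0, D.B - B0 k m B 1, D.C - B0 k m B 2, 0, 0, 0, 0, D.d - d0 k m B 1, D.d' - d0 k m B 2, 0, 0⟩

section entries

variable {m : ℕ} {X G : Matrix (Fin 2) (Fin 3) k} {a d : Fin 3 → k} {c b : Fin 2 → k}

theorem LX_ll (i j : Fin (m + 4)) :
    LX m (bl X) (bl G) (Sum.elim a c) (Sum.elim d b) (.inl i) (.inl j) = 0 := rfl

theorem LX_lr (i : Fin (m + 4)) (r : Fin 3) :
    LX m (bl X) (bl G) (Sum.elim a c) (Sum.elim d b) (.inl i) (.inr (.inl r)) =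
      (if (i : ℕ) = m + 2 then (b ᵥ* X) r else 0) + if (i : ℕ) = m + 3 then d r else 0 := by
  show Lb m (bl X) (Sum.elim d b) i (.inl r) = _
  rw [Lb, vecMul_bl, Matrix.add_apply, vecMulVec_apply, vecMulVec_apply, ev, ev, Sum.elim_inl,
    Sum.elim_inl, ite_mul, ite_mul, one_mul, zero_mul, one_mul, zero_mul]

theorem LX_lq (i : Fin (m + 4)) (q : Fin 2) :
    LX m (bl X) (bl G) (Sum.elim a c) (Sum.elim d b) (.inl i) (.inr (.inr q)) =
      if (i : ℕ) = m + 3 then b q else 0 := by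
  show Lb m (bl X) (Sum.elim d b) i (.inr q) = _
  rw [Lb, vecMul_bl, Matrix.add_apply, vecMulVec_apply, vecMulVec_apply, ev, ev, Sum.elim_inr,
    Sum.elim_inr, Pi.zero_apply, mul_zero, zero_add, ite_mul, one_mul, zero_mul]

theorem LX_rl (r : Fin 3) (j : Fin (m + 4)) :
    LX m (bl X) (bl G) (Sum.elim a c) (Sum.elim d b) (.inr (.inl r)) (.inl j) =
      if (j : ℕ) = 0 then a r else 0 := by
  show Lc m (bl X) (Sum.elim a c) (.inl r) j = _
  rw [Lc, bl_mulVec, Matrix.add_apply, vecMulVec_apply, vecMulVec_apply, ev, ev, Sum.elim_inl,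
    Sum.elim_inl, Pi.zero_apply, zero_mul, add_zero, mul_ite, mul_one, mul_zero]

theorem LX_ql (q : Fin 2) (j : Fin (m + 4)) :
    LX m (bl X) (bl G) (Sum.elim a c) (Sum.elim d b) (.inr (.inr q)) (.inl j) =
      (if (j : ℕ) = 0 then c q else 0) + if (j : ℕ) = 1 then (X *ᵥ a) q else 0 := by
  show Lc m (bl X) (Sum.elim a c) (.inr q) j = _
  rw [Lc, bl_mulVec, Matrix.add_apply, vecMulVec_apply, vecMulVec_apply, ev, ev, Sum.elim_inr,
    Sum.elim_inr, mul_ite, mul_one, mul_zero, mul_ite, mul_one, mul_zero]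

theorem LX_rr (r r' : Fin 3) :
    LX m (bl X) (bl G) (Sum.elim a c) (Sum.elim d b) (.inr (.inl r)) (.inr (.inl r')) = 0 := rfl

theorem LX_rq (r : Fin 3) (q : Fin 2) :
    LX m (bl X) (bl G) (Sum.elim a c) (Sum.elim d b) (.inr (.inl r)) (.inr (.inr q)) = 0 := rfl

theorem LX_qr (q : Fin 2) (r : Fin 3) :
    LX m (bl X) (bl G) (Sum.elim a c) (Sum.elim d b) (.inr (.inr q)) (.inr (.inl r)) = G q r :=
  rfl

theorem LX_qq (q q' : Fin 2) :
    LX m (bl X) (bl G) (Sum.elim a c) (Sum.elim d b) (.inr (.inr q)) (.inr (.inr q')) = 0 := rfl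

theorem LA_ll (i j : Fin (m + 4)) :
    LA m (bl X) (.inl i) (.inl j) = if (i : ℕ) = j + 1 then 1 else 0 := rfl

theorem LA_qr (q : Fin 2) (r : Fin 3) :
    LA m (bl X) (.inr (.inr q)) (.inr (.inl r)) = X q r := rfl

end entries

theorem low {m : ℕ} {D : Dat k} (hb : D.b = 0)
    (hb' : D.b' = 0) (i : Fin 3) (x y : Fin (m + 4) ⊕ I5)
    (h : Wt m x < Wt m y + nth 0 (dlt m) i) : TT m D i x y = 0 := by
  fin_cases i
  · show LA m (bl D.X) x y = 0
    replace h : Wt m x < Wt m y + 2 := h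
    rcases x with x | x | x <;> rcases y with y | y | y
    · rw [LA_ll, if_neg]
      simp only [Wt, Sum.elim_inl] at h
      omega
    · rfl
    · rfl
    · rfl
    · rfl
    · rfl
    · rfl
    · simp only [Wt, Sum.elim_inl, Sum.elim_inr] at h
      omega
    · rfl
  all_goals
    first
    | (show LX m (bl D.X) (bl D.B) (Sum.elim D.a D.c) (Sum.elim D.d D.b) x y = 0; rw [hb])
    | (show LX m (bl D.X) (bl D.C) (Sum.elim D.a' D.c') (Sum.elim D.d' D.b') x y = 0; rw [hb'])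
    replace h : Wt m x < Wt m y + (m + 3) := h
    rcases x with x | x | x <;> rcases y with y | y | y
    · rfl
    · simp only [Wt, Sum.elim_inl, Sum.elim_inr] at h
      rw [LX_lr, zero_vecMul, Pi.zero_apply, ite_self, if_neg (by omega), add_zero]
    · rw [LX_lq, Pi.zero_apply, ite_self]
    · simp only [Wt, Sum.elim_inl, Sum.elim_inr] at h
      rw [LX_rl, if_neg (by omega)]
    · rfl
    · rfl
    · simp only [Wt, Sum.elim_inl, Sum.elim_inr] at h
      rw [LX_ql, if_neg (by omega), if_neg (by omega), add_zero]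
    · simp only [Wt, Sum.elim_inl, Sum.elim_inr] at h
      omega
    · rfl

theorem lead {m : ℕ} {B : Base} {D : Dat k} (ha : D.a = ![1, 0, 0]) (ha' : D.a' = ![0, 1, 0])
    (i : Fin 3) (x y : Fin (m + 4) ⊕ I5)
    (h : Wt m x = Wt m y + nth 0 (dlt m) i) : TT m (bas m B D) i x y = (Lz m B i x y : k) := by
  fin_cases i
  · show LA m (bl D.X) x y = _
    replace h : Wt m x = Wt m y + 2 := h
    rcases x with x | x | x <;> rcases y with y | y | y
    · rw [LA_ll]
      by_cases h1 : (x : ℕ) = y + 1 <;> simp [Lz, h1]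
    · simp [Lz, LA]
    · simp [Lz, LA]
    · simp [Lz, LA]
    · simp [Lz, LA, bl]
    · simp [Lz, LA, bl]
    · simp [Lz, LA]
    · simp only [Wt, Sum.elim_inl, Sum.elim_inr] at h
      omega
    · simp [Lz, LA, bl]
  · show LX m (bl D.X) (bl (B0 k m B 1)) (Sum.elim D.a D.c) (Sum.elim (d0 k m B 1) 0) x y = _
    replace h : Wt m x = Wt m y + (m + 3) := h
    rcases x with x | x | x <;> rcases y with y | y | y
    · simp [Lz, LX_ll]
    · simp only [Wt, Sum.elim_inl, Sum.elim_inr] at h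
      rw [LX_lr, if_neg (by omega), if_pos (by omega), zero_add]
      have : (x : ℕ) = m + 3 := by omega
      simp [Lz, this, d0]
    · rw [LX_lq, Pi.zero_apply, ite_self]
      simp [Lz]
    · simp only [Wt, Sum.elim_inl, Sum.elim_inr] at h
      have : (y : ℕ) = 0 := by omega
      rw [LX_rl, if_pos this, ha]
      fin_cases x <;> simp [Lz, this]
    · simp [Lz, LX_rr]
    · simp [Lz, LX_rq]
    · simp only [Wt, Sum.elim_inl, Sum.elim_inr] at h
      rw [LX_ql, if_neg (by omega), if_neg (by omega), add_zero]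
      simp [Lz]
    · rw [LX_qr]
      simp [Lz, B0]
    · simp [Lz, LX_qq]
  · show LX m (bl D.X) (bl (B0 k m B 2)) (Sum.elim D.a' D.c') (Sum.elim (d0 k m B 2) 0) x y = _
    replace h : Wt m x = Wt m y + (m + 3) := h
    rcases x with x | x | x <;> rcases y with y | y | y
    · simp [Lz, LX_ll]
    · simp only [Wt, Sum.elim_inl, Sum.elim_inr] at h
      rw [LX_lr, if_neg (by omega), if_pos (by omega), zero_add]
      have : (x : ℕ) = m + 3 := by omega
      simp [Lz, this, d0]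
    · rw [LX_lq, Pi.zero_apply, ite_self]
      simp [Lz]
    · simp only [Wt, Sum.elim_inl, Sum.elim_inr] at h
      have : (y : ℕ) = 0 := by omega
      rw [LX_rl, if_pos this, ha']
      fin_cases x <;> simp [Lz, this]
    · simp [Lz, LX_rr]
    · simp [Lz, LX_rq]
    · simp only [Wt, Sum.elim_inl, Sum.elim_inr] at h
      rw [LX_ql, if_neg (by omega), if_neg (by omega), add_zero]
      simp [Lz]
    · rw [LX_qr]
      simp [Lz, B0]
    · simp [Lz, LX_qq]

/-- density of the family `b = b' = 0` -/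
theorem cl_D1 [CharZero k] {m : ℕ} {B : Base} (hB : BaseOK m B)
    (cert : ∀ κ, CertW (fun x : Fin (m + 9) => B.w x) (fun i => nth 0 (dlt m) i)
      (Mt k (m + 9) (nth [] B.pw 1)) (XX k B (m + 9)) κ)
    {D : Dat k} (hD : Rel D) (ha : D.a = ![1, 0, 0]) (ha' : D.a' = ![0, 1, 0]) (hb : D.b = 0)
    (hb' : D.b' = 0) : Cl (TT m D) := by
  have hrel : ∀ s : k, Rel ((bas m B D).ad (dir m B D) s) := by
    intro s
    refine ⟨?_, ?_, ?_, ?_⟩
    · show (B0 k m B 1 + s • (D.B - B0 k m B 1)) *ᵥ (D.a' + s • 0) =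
        (B0 k m B 2 + s • (D.C - B0 k m B 2)) *ᵥ (D.a + s • 0)
      have h1 : B0 k m B 1 *ᵥ D.a' = B0 k m B 2 *ᵥ D.a := by
        rw [ha, ha']
        ext q
        have := hB.al q
        simp only [mulVec, dotProduct, Fin.sum_univ_three, B0, Matrix.of_apply]
        simp [this]
      have h2 := hD.al
      simp only [smul_zero, add_zero, add_mulVec, smul_mulVec, sub_mulVec, h1, h2]
    · show (0 + s • 0) ᵥ* _ = (0 + s • 0) ᵥ* _
      simp
    · show (0 + s • 0) ⬝ᵥ _ = (0 + s • 0) ⬝ᵥ _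
      simp
    · show (d0 k m B 1 + s • (D.d - d0 k m B 1)) ⬝ᵥ (D.a' + s • 0) + (0 + s • 0) ⬝ᵥ _ =
        (d0 k m B 2 + s • (D.d' - d0 k m B 2)) ⬝ᵥ (D.a + s • 0) + (0 + s • 0) ⬝ᵥ _
      have h1 : d0 k m B 1 ⬝ᵥ D.a' = d0 k m B 2 ⬝ᵥ D.a := by
        rw [ha, ha']
        have := hB.de
        simp only [dotProduct, Fin.sum_univ_three, d0]
        simp [this]
      have h2 := hD.de
      rw [hb, hb'] at h2
      simp only [zero_dotProduct, add_zero] at h2
      simp only [smul_zero, add_zero, zero_dotProduct, add_dotProduct, smul_dotProduct,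
        sub_dotProduct, h1, h2]
  have h1 : (bas m B D).ad (dir m B D) 1 = D := by
    obtain ⟨X, B', C, a, a', c, c', d, d', b, b'⟩ := D
    subst hb hb'
    simp [Dat.ad, bas, dir]
  rw [← h1]
  refine D9.BlkMapAux.cl_reindex (ne m) ?_
  refine fdcW_ck B (dlt m) (by omega) ?_ hB.ck cert
    (fun s i => Matrix.reindexAlgEquiv k k (ne m) (TT m ((bas m B D).ad (dir m B D) s) i))
    ?_ ?_ ?_ ?_ 1
  · intro i
    fin_cases i <;> simp [dlt, nth]
  · intro i x y
    exact polyFam _ _ i ((ne m).symm x) ((ne m).symm y)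
  · intro s i j
    have h2 := ((hrel s).cn (m := m)).1 i j
    beta_reduce
    rw [← map_mul, ← map_mul, h2]
  · intro s i x y h
    obtain ⟨x, rfl⟩ := (ne m).surjective x
    obtain ⟨y, rfl⟩ := (ne m).surjective y
    rw [ne_apply, ne_apply, hB.lev, hB.lev] at h
    show TT m ((bas m B D).ad (dir m B D) s) i ((ne m).symm (ne m x)) ((ne m).symm (ne m y)) = 0
    rw [Equiv.symm_apply_apply, Equiv.symm_apply_apply]
    refine low ?_ ?_ i x y h
    · simp [Dat.ad, bas, dir]
    · simp [Dat.ad, bas, dir]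
  · intro i x y h
    obtain ⟨x, rfl⟩ := (ne m).surjective x
    obtain ⟨y, rfl⟩ := (ne m).surjective y
    rw [ne_apply, ne_apply, hB.lev, hB.lev] at h
    show TT m ((bas m B D).ad (dir m B D) 0) i ((ne m).symm (ne m x)) ((ne m).symm (ne m y)) = _
    rw [Equiv.symm_apply_apply, Equiv.symm_apply_apply, ad_zero, lead ha ha' i x y h,
      ← hB.ent i x y h]
    rfl

end L221

end Pool.Agent.Lib.D13
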