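import Pool.Agent.Lib.D13.L221C
import Pool.Agent.Lib.D13.C221_4
import Pool.Agent.Lib.D13.C221_5
import Pool.Agent.Lib.D13.C221_6
import Pool.Agent.Lib.D13.C221_7

/-!
# MP_5dcbc3_ag: Jordan types `(l, 2, 2, 1)`, `l = 4, .., 7`: the family `b = b' = 0`, density
-/

namespace Pool.Agent.Lib.D13

open Matrix Pool.Agent.Lib.Q5dc Pool.Agent.Lib.D7

namespace L221

open Refl

variable {k : Type*} [Field k]

theorem ok_4 : BaseOK 0 C221_4.bs :=
  ⟨C221_4.bs_ck, by decide +kernel, by decide +kernel, by decide +kernel, by decide +kernel⟩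

theorem cert_4 [CharZero k] (κ : ℕ) : CertW (fun x : Fin (0 + 9) => C221_4.bs.w x)
    (fun i => nth 0 (dlt 0) i) (Mt k (0 + 9) (nth [] C221_4.bs.pw 1))
    (XX k C221_4.bs (0 + 9)) κ := by
  have hp : C221_4.bs.ckPow (0 + 9) = true := by decide +kernel
  match κ with
  | 0 => exact certW_of_ck _ (dlt 0) (by omega) hp C221_4.ce0 C221_4.ce0_ck
  | 1 => exact certW_of_ck _ (dlt 0) (by omega) hp C221_4.ce1 C221_4.ce1_ck
  | 2 => exact certW_of_ck _ (dlt 0) (by omega) hp C221_4.ce2 C221_4.ce2_ck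
  | 3 => exact certW_of_ck _ (dlt 0) (by omega) hp C221_4.ce3 C221_4.ce3_ck
  | 4 => exact certW_of_ck _ (dlt 0) (by omega) hp C221_4.ce4 C221_4.ce4_ck
  | κ + 5 =>
    refine certW_large fun i x y => ?_
    have h1 : ∀ x : Fin (0 + 9), C221_4.bs.w x ≤ 6 := by decide +kernel
    have h2 : ∀ i : Fin 3, 2 ≤ nth 0 (dlt 0) i := by decide +kernel
    have h3 := h1 x
    have h4 := h2 i
    omega

theorem ok_5 : BaseOK 1 C221_5.bs :=
  ⟨C221_5.bs_ck, by decide +kernel, by decide +kernel, by decide +kernel, by decide +kernel⟩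

theorem cert_5 [CharZero k] (κ : ℕ) : CertW (fun x : Fin (1 + 9) => C221_5.bs.w x)
    (fun i => nth 0 (dlt 1) i) (Mt k (1 + 9) (nth [] C221_5.bs.pw 1))
    (XX k C221_5.bs (1 + 9)) κ := by
  have hp : C221_5.bs.ckPow (1 + 9) = true := by decide +kernel
  match κ with
  | 0 => exact certW_of_ck _ (dlt 1) (by omega) hp C221_5.ce0 C221_5.ce0_ck
  | 1 => exact certW_of_ck _ (dlt 1) (by omega) hp C221_5.ce1 C221_5.ce1_ck
  | 2 => exact certW_of_ck _ (dlt 1) (by omega) hp C221_5.ce2 C221_5.ce2_ck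
  | 3 => exact certW_of_ck _ (dlt 1) (by omega) hp C221_5.ce3 C221_5.ce3_ck
  | 4 => exact certW_of_ck _ (dlt 1) (by omega) hp C221_5.ce4 C221_5.ce4_ck
  | 5 => exact certW_of_ck _ (dlt 1) (by omega) hp C221_5.ce5 C221_5.ce5_ck
  | 6 => exact certW_of_ck _ (dlt 1) (by omega) hp C221_5.ce6 C221_5.ce6_ck
  | κ + 7 =>
    refine certW_large fun i x y => ?_
    have h1 : ∀ x : Fin (1 + 9), C221_5.bs.w x ≤ 8 := by decide +kernel
    have h2 : ∀ i : Fin 3, 2 ≤ nth 0 (dlt 1) i := by decide +kernel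
    have h3 := h1 x
    have h4 := h2 i
    omega

theorem ok_6 : BaseOK 2 C221_6.bs :=
  ⟨C221_6.bs_ck, by decide +kernel, by decide +kernel, by decide +kernel, by decide +kernel⟩

theorem cert_6 [CharZero k] (κ : ℕ) : CertW (fun x : Fin (2 + 9) => C221_6.bs.w x)
    (fun i => nth 0 (dlt 2) i) (Mt k (2 + 9) (nth [] C221_6.bs.pw 1))
    (XX k C221_6.bs (2 + 9)) κ := by
  have hp : C221_6.bs.ckPow (2 + 9) = true := by decide +kernel
  match κ with
  | 0 => exact certW_of_ck _ (dlt 2) (by omega) hp C221_6.ce0 C221_6.ce0_ck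
  | 1 => exact certW_of_ck _ (dlt 2) (by omega) hp C221_6.ce1 C221_6.ce1_ck
  | 2 => exact certW_of_ck _ (dlt 2) (by omega) hp C221_6.ce2 C221_6.ce2_ck
  | 3 => exact certW_of_ck _ (dlt 2) (by omega) hp C221_6.ce3 C221_6.ce3_ck
  | 4 => exact certW_of_ck _ (dlt 2) (by omega) hp C221_6.ce4 C221_6.ce4_ck
  | 5 => exact certW_of_ck _ (dlt 2) (by omega) hp C221_6.ce5 C221_6.ce5_ck
  | 6 => exact certW_of_ck _ (dlt 2) (by omega) hp C221_6.ce6 C221_6.ce6_ck
  | 7 => exact certW_of_ck _ (dlt 2) (by omega) hp C221_6.ce7 C221_6.ce7_ck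
  | 8 => exact certW_of_ck _ (dlt 2) (by omega) hp C221_6.ce8 C221_6.ce8_ck
  | κ + 9 =>
    refine certW_large fun i x y => ?_
    have h1 : ∀ x : Fin (2 + 9), C221_6.bs.w x ≤ 10 := by decide +kernel
    have h2 : ∀ i : Fin 3, 2 ≤ nth 0 (dlt 2) i := by decide +kernel
    have h3 := h1 x
    have h4 := h2 i
    omega

theorem ok_7 : BaseOK 3 C221_7.bs :=
  ⟨C221_7.bs_ck, by decide +kernel, by decide +kernel, by decide +kernel, by decide +kernel⟩

theorem cert_7 [CharZero k] (κ : ℕ) : CertW (fun x : Fin (3 + 9) => C221_7.bs.w x)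
    (fun i => nth 0 (dlt 3) i) (Mt k (3 + 9) (nth [] C221_7.bs.pw 1))
    (XX k C221_7.bs (3 + 9)) κ := by
  have hp : C221_7.bs.ckPow (3 + 9) = true := by decide +kernel
  match κ with
  | 0 => exact certW_of_ck _ (dlt 3) (by omega) hp C221_7.ce0 C221_7.ce0_ck
  | 1 => exact certW_of_ck _ (dlt 3) (by omega) hp C221_7.ce1 C221_7.ce1_ck
  | 2 => exact certW_of_ck _ (dlt 3) (by omega) hp C221_7.ce2 C221_7.ce2_ck
  | 3 => exact certW_of_ck _ (dlt 3) (by omega) hp C221_7.ce3 C221_7.ce3_ck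
  | 4 => exact certW_of_ck _ (dlt 3) (by omega) hp C221_7.ce4 C221_7.ce4_ck
  | 5 => exact certW_of_ck _ (dlt 3) (by omega) hp C221_7.ce5 C221_7.ce5_ck
  | 6 => exact certW_of_ck _ (dlt 3) (by omega) hp C221_7.ce6 C221_7.ce6_ck
  | 7 => exact certW_of_ck _ (dlt 3) (by omega) hp C221_7.ce7 C221_7.ce7_ck
  | 8 => exact certW_of_ck _ (dlt 3) (by omega) hp C221_7.ce8 C221_7.ce8_ck
  | 9 => exact certW_of_ck _ (dlt 3) (by omega) hp C221_7.ce9 C221_7.ce9_ck
  | 10 => exact certW_of_ck _ (dlt 3) (by omega) hp C221_7.ce10 C221_7.ce10_ck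
  | κ + 11 =>
    refine certW_large fun i x y => ?_
    have h1 : ∀ x : Fin (3 + 9), C221_7.bs.w x ≤ 12 := by decide +kernel
    have h2 : ∀ i : Fin 3, 2 ≤ nth 0 (dlt 3) i := by decide +kernel
    have h3 := h1 x
    have h4 := h2 i
    omega

end L221

end Pool.Agent.Lib.D13
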