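import Pool.Agent.Lib.D13.L221Z

/-!
# MP_5dcbc3_ag: Jordan types `(l, 2, 2, 1)`, `l >= 5`: the second family raises
-/

namespace Pool.Agent.Lib.D13

open Matrix Pool.Agent.Lib.Q5dc Pool.Agent.Lib.D7

namespace L221

variable {k : Type*} [Field k] {m : ℕ} {ρ : ℕ → ℕ}

/-- the rows `B0, B1, C1` -/
def RR (p : Fin 12 → k) : Matrix (Fin 3) (Fin 3) k :=
  !![p 3, p 4, p 9; p 4, p 5, p 10; p 5, p 6, p 11]

/-- the rows `X1 + σ B1 + ω C1, B0, B1` -/
def QQ (σ ω : k) (p : Fin 12 → k) : Matrix (Fin 3) (Fin 3) k :=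
  !![p 1 + σ * p 4 + ω * p 5, p 2 + σ * p 5 + ω * p 6, p 8 + σ * p 10 + ω * p 11;
    p 3, p 4, p 9; p 4, p 5, p 10]

theorem isPoly_sub' {f g : k → k} (hf : IsPoly f) (hg : IsPoly g) : IsPoly fun s => f s - g s := by
  obtain ⟨p, hp⟩ := hf
  obtain ⟨q, hq⟩ := hg
  exact ⟨p - q, fun s => by rw [Polynomial.eval_sub, ← hp, ← hq]⟩

theorem isPoly_det3 {M : k → Matrix (Fin 3) (Fin 3) k} (hM : ∀ i j, IsPoly fun s => M s i j) :
    IsPoly fun s => (M s).det := by
  have h : (fun s => (M s).det) = fun s => M s 0 0 * M s 1 1 * M s 2 2 - M s 0 0 * M s 1 2 * M s 2 1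
      - M s 0 1 * M s 1 0 * M s 2 2 + M s 0 1 * M s 1 2 * M s 2 0 + M s 0 2 * M s 1 0 * M s 2 1
      - M s 0 2 * M s 1 1 * M s 2 0 := by
    funext s
    rw [Matrix.det_fin_three]
  rw [h]
  have t : ∀ a b c d e f : Fin 3, IsPoly fun s => M s a b * M s c d * M s e f :=
    fun a b c d e f => ((hM a b).mul (hM c d)).mul (hM e f)
  exact isPoly_sub' ((isPoly_sub' (isPoly_sub' (t 0 0 1 1 2 2) (t 0 0 1 2 2 1))
    (t 0 1 1 0 2 2)).add (t 0 1 1 2 2 0) |>.add (t 0 2 1 0 2 1)) (t 0 2 1 1 2 0)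

theorem isPoly_p (p q : Fin 12 → k) (i : Fin 12) : IsPoly fun s : k => (p + s • q) i :=
  isPoly_lin (p i) (q i)

theorem isPoly_lc {f g : k → k} (hf : IsPoly f) (c : k) (hg : IsPoly g) :
    IsPoly fun s => f s + c * g s := hf.add ((D7.IsPoly.const c).mul hg)

theorem isPoly_RR (p q : Fin 12 → k) (i j : Fin 3) : IsPoly fun s : k => RR (p + s • q) i j := by
  fin_cases i <;> fin_cases j <;> exact isPoly_p p q _

theorem isPoly_QQ (σ ω : k) (p q : Fin 12 → k) (i j : Fin 3) :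
    IsPoly fun s : k => QQ σ ω (p + s • q) i j := by
  fin_cases i <;> fin_cases j
  · exact isPoly_lc (isPoly_lc (isPoly_p p q 1) σ (isPoly_p p q 4)) ω (isPoly_p p q 5)
  · exact isPoly_lc (isPoly_lc (isPoly_p p q 2) σ (isPoly_p p q 5)) ω (isPoly_p p q 6)
  · exact isPoly_lc (isPoly_lc (isPoly_p p q 8) σ (isPoly_p p q 10)) ω (isPoly_p p q 11)
  all_goals exact isPoly_p p q _

/-- the case of a zero product -/
theorem no_prod0 [IsAlgClosed k] [CharZero k] {p : Fin 12 → k} {δ : Fin 3 → k}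
    (hT : MaxR ρ (TT (m + 1) (P2 p δ))) (σ ω : k)
    (h0 : p 0 + σ * p 3 + ω * p 4 = 0) (h1 : p 1 + σ * p 4 + ω * p 5 = 0)
    (h2 : p 7 + σ * p 9 + ω * p 10 = 0) (hF : p 3 ≠ 0) (hq : p 2 + σ * p 5 + ω * p 6 ≠ 0)
    (hd : (QQ σ ω p).det ≠ 0) : False := by
  have hD := L2B.dual hT
  set x := (bl (P2 p δ).X)ᵀ with hx
  set G := (bl (P2 p δ).B)ᵀ with hG
  set G' := (bl (P2 p δ).C)ᵀ with hG'
  have hz : ∀ X Y : Matrix (Fin 2) (Fin 3) k, (bl X)ᵀ * (bl Y)ᵀ = 0 := by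
    intro X Y
    rw [← Matrix.transpose_mul, bl_mul, Matrix.transpose_zero]
  set X2 : Matrix (Fin 2) (Fin 3) k := (P2 p δ).X + σ • (P2 p δ).B + ω • (P2 p δ).C with hX2
  have hy : (bl X2)ᵀ = x + σ • G + ω • G' := by
    rw [hX2, bl_add, bl_add, bl_smul, bl_smul, Matrix.transpose_add, Matrix.transpose_add,
      Matrix.transpose_smul, Matrix.transpose_smul]
  have hv : ∀ (X : Matrix (Fin 2) (Fin 3) k) (d : Fin 3 → k) (b : Fin 2 → k),
      (bl X)ᵀ *ᵥ Sum.elim d b = Sum.elim (b ᵥ* X) (0 : Fin 2 → k) := by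
    intro X d b
    rw [mulVec_transpose, vecMul_bl]
  have r0 : (![1, 0] : Fin 2 → k) ᵥ* X2 = 0 := by
    ext i
    fin_cases i <;> simp [hX2, P2, vecMul, dotProduct, Fin.sum_univ_two, h0, h1, h2]
  have r1 : (![0, 1] : Fin 2 → k) ᵥ* X2 = QQ σ ω p 0 := by
    ext i
    fin_cases i <;> simp [hX2, P2, vecMul, dotProduct, Fin.sum_univ_two, QQ]
  have r2 : (![1, 0] : Fin 2 → k) ᵥ* (P2 p δ).B = QQ σ ω p 1 := by
    ext i
    fin_cases i <;> simp [P2, vecMul, dotProduct, Fin.sum_univ_two, QQ]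
  have r3 : (![0, 1] : Fin 2 → k) ᵥ* (P2 p δ).B = QQ σ ω p 2 := by
    ext i
    fin_cases i <;> simp [P2, vecMul, dotProduct, Fin.sum_univ_two, QQ]
  have hsolve : ∀ r : Fin 3 → k, ∃ c : Fin 3 → k,
      r = c 0 • QQ σ ω p 0 + c 1 • QQ σ ω p 1 + c 2 • QQ σ ω p 2 := by
    intro r
    have hu : IsUnit (QQ σ ω p).det := isUnit_iff_ne_zero.2 hd
    refine ⟨r ᵥ* (QQ σ ω p)⁻¹, ?_⟩
    have h3 : r = (r ᵥ* (QQ σ ω p)⁻¹) ᵥ* QQ σ ω p := by
      rw [vecMul_vecMul, Matrix.nonsing_inv_mul _ hu, vecMul_one]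
    conv_lhs => rw [h3]
    ext j
    simp [vecMul, dotProduct, Fin.sum_univ_three]
  obtain ⟨c, hc⟩ := hsolve ((![0, 1] : Fin 2 → k) ᵥ* (P2 p δ).C)
  refine L2N.no_dual (σ := σ) (ω := ω) (y := (bl X2)ᵀ) finSumFinEquiv hD (hz _ _) (hz _ _) (hz _ _)
    (hz _ _) (hz _ _) (hz _ _) (hz _ _) (hz _ _) (hz _ _) hy ?_ ?_ ?_ (c 0) (c 1) (c 2) ?_ ?_
  · rw [hv]
    show Sum.elim ((![1, 0] : Fin 2 → k) ᵥ* X2) (0 : Fin 2 → k) = 0
    rw [r0]
    ext i
    rcases i with i | i <;> rfl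
  · rw [hv, elim_dot]
    show (![1, 0, 0] : Fin 3 → k) ⬝ᵥ ((![1, 0] : Fin 2 → k) ᵥ* (P2 p δ).B) + _ ≠ 0
    rw [r2]
    simpa [dotProduct, Fin.sum_univ_three, QQ] using hF
  · rw [hv, elim_dot]
    show (![0, 1, 0] : Fin 3 → k) ⬝ᵥ ((![0, 1] : Fin 2 → k) ᵥ* X2) + _ ≠ 0
    rw [r1]
    simpa [dotProduct, Fin.sum_univ_three, QQ] using hq
  · rw [hv, hv, hv, hv]
    show Sum.elim ((![0, 1] : Fin 2 → k) ᵥ* (P2 p δ).C) (0 : Fin 2 → k) =
      c 0 • Sum.elim ((![0, 1] : Fin 2 → k) ᵥ* X2) (0 : Fin 2 → k) +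
      c 1 • Sum.elim ((![1, 0] : Fin 2 → k) ᵥ* (P2 p δ).B) (0 : Fin 2 → k) +
      c 2 • Sum.elim ((![0, 1] : Fin 2 → k) ᵥ* (P2 p δ).B) (0 : Fin 2 → k)
    rw [hc, r1, r2, r3]
    ext i
    rcases i with i | i <;> simp
  · intro S s1 s2 s3 s4 s5 r
    rw [hv] at s3 s4 s5
    have t3 : (Sum.elim (QQ σ ω p 0) 0 : I5 → k) ∈ S := by rw [← r1]; exact s3
    have t4 : (Sum.elim (QQ σ ω p 1) 0 : I5 → k) ∈ S := by rw [← r2]; exact s4
    have t5 : (Sum.elim (QQ σ ω p 2) 0 : I5 → k) ∈ S := by rw [← r3]; exact s5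
    obtain ⟨e, he⟩ := hsolve (r ∘ Sum.inl)
    have hr : r = e 0 • (Sum.elim (QQ σ ω p 0) 0 : I5 → k) + e 1 • (Sum.elim (QQ σ ω p 1) 0 : I5 → k)
        + e 2 • (Sum.elim (QQ σ ω p 2) 0 : I5 → k) + r (.inr 0) • Sum.elim (0 : Fin 3 → k) ![1, 0] +
        r (.inr 1) • Sum.elim (0 : Fin 3 → k) ![0, 1] := by
      ext i
      rcases i with i | i
      · have := congrFun he i
        simpa using this
      · fin_cases i <;> simp
    rw [hr]
    exact S.add_mem (S.add_mem (S.add_mem (S.add_mem (S.smul_mem _ t3) (S.smul_mem _ t4))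
      (S.smul_mem _ t5)) (S.smul_mem _ s1)) (S.smul_mem _ s2)

/-- the case `b (X + σ B + ω C) = 0` -/
theorem no_prod1 [IsAlgClosed k] [CharZero k] {p : Fin 12 → k} {δ : Fin 3 → k}
    (hT : MaxR ρ (TT (m + 1) (P2 p δ))) (σ ω : k)
    (h0 : p 0 + σ * p 3 + ω * p 4 = 0) (h1 : p 1 + σ * p 4 + ω * p 5 = 0)
    (h2 : p 7 + σ * p 9 + ω * p 10 = 0) : False := by
  have hinf : Infinite k := inferInstance
  set t : Fin 12 → k := ![-σ, 0, 1, 1, 0, 0, 0, -ω, -σ, 0, 1, 0] with ht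
  set q : Fin 12 → k := t - p with hq
  have e1 : p + (1 : k) • q = t := by
    rw [hq, one_smul]
    abel
  have f1 : {s : k | (p + s • q) 3 = 0}.Finite := by
    refine finite_of_ne (isPoly_p p q 3) (s0 := 1) ?_
    rw [e1]
    simp [ht]
  have f2 : {s : k | (p + s • q) 2 + σ * (p + s • q) 5 + ω * (p + s • q) 6 = 0}.Finite := by
    refine finite_of_ne (isPoly_lc (isPoly_lc (isPoly_p p q 2) σ (isPoly_p p q 5)) ω
      (isPoly_p p q 6)) (s0 := 1) ?_
    rw [e1]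
    simp [ht]
  have f3 : {s : k | (QQ σ ω (p + s • q)).det = 0}.Finite := by
    refine finite_of_ne (isPoly_det3 (isPoly_QQ σ ω p q)) (s0 := 1) ?_
    rw [e1, Matrix.det_fin_three]
    simp [QQ, ht]
  obtain ⟨s, hs, hM⟩ := move2 hT q ((f1.union f2).union f3)
  simp only [Set.mem_union, Set.mem_ofPred_eq, not_or] at hs
  obtain ⟨⟨hs1, hs2⟩, hs3⟩ := hs
  refine no_prod0 hM σ ω ?_ ?_ ?_ hs1 hs2 hs3
  · simp only [hq, Pi.add_apply, Pi.smul_apply, Pi.sub_apply, smul_eq_mul]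
    have : t 0 + σ * t 3 + ω * t 4 = 0 := by simp [ht]
    linear_combination (1 - s) * h0 + s * this
  · simp only [hq, Pi.add_apply, Pi.smul_apply, Pi.sub_apply, smul_eq_mul]
    have : t 1 + σ * t 4 + ω * t 5 = 0 := by simp [ht]
    linear_combination (1 - s) * h1 + s * this
  · simp only [hq, Pi.add_apply, Pi.smul_apply, Pi.sub_apply, smul_eq_mul]
    have : t 7 + σ * t 9 + ω * t 10 = 0 := by simp [ht]
    linear_combination (1 - s) * h2 + s * this

theorem exists_pencil [IsAlgClosed k] (M N : Matrix (Fin 3) (Fin 3) k) :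
    ∃ y z : k, (y ≠ 0 ∨ z ≠ 0) ∧ (y • M + z • N).det = 0 := by
  by_cases hN : N.det = 0
  · exact ⟨0, 1, Or.inr one_ne_zero, by simpa using hN⟩
  · have hu : IsUnit N.det := isUnit_iff_ne_zero.2 hN
    obtain ⟨μ, hμ⟩ := spectrum.nonempty_of_isAlgClosed_of_finiteDimensional k (N⁻¹ * M)
    refine ⟨1, -μ, Or.inl one_ne_zero, ?_⟩
    rw [spectrum.mem_iff, Matrix.isUnit_iff_isUnit_det, isUnit_iff_ne_zero, not_not] at hμ
    have h1 : (1 : k) • M + (-μ) • N = -(N * (algebraMap k (Matrix (Fin 3) (Fin 3) k) μ -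
        N⁻¹ * M)) := by
      rw [Matrix.mul_sub, ← Matrix.mul_assoc, Matrix.mul_nonsing_inv _ hu, Matrix.one_mul,
        Algebra.algebraMap_eq_smul_one, Matrix.mul_smul, Matrix.mul_one]
      module
    rw [h1, Matrix.det_neg, Matrix.det_mul, hμ]
    simp

theorem no_D2 [IsAlgClosed k] [CharZero k] {p : Fin 12 → k} {δ : Fin 3 → k}
    (hT : MaxR ρ (TT (m + 1) (P2 p δ))) : False := by
  have hinf : Infinite k := inferInstance
  -- `B0, B1, C1` independent
  obtain ⟨p, hT, hR⟩ : ∃ p' : Fin 12 → k, MaxR ρ (TT (m + 1) (P2 p' δ)) ∧ (RR p').det ≠ 0 := by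
    set t : Fin 12 → k := ![0, 0, 0, 1, 0, 0, 1, 0, 0, 0, 1, 0] with ht
    have e1 : p + (1 : k) • (t - p) = t := by
      rw [one_smul]
      abel
    have f1 : {s : k | (RR (p + s • (t - p))).det = 0}.Finite := by
      refine finite_of_ne (isPoly_det3 (isPoly_RR p (t - p))) (s0 := 1) ?_
      rw [e1, Matrix.det_fin_three]
      simp [RR, ht]
    obtain ⟨s, hs, hM⟩ := move2 hT (t - p) f1
    exact ⟨_, hM, hs⟩
  obtain ⟨y, z, hyz, hdet⟩ := exists_pencil
    !![p 0, p 1, p 7; p 3, p 4, p 9; p 4, p 5, p 10]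
    !![p 1, p 2, p 8; p 4, p 5, p 10; p 5, p 6, p 11]
  obtain ⟨w, hw0, hw⟩ := Matrix.exists_vecMul_eq_zero_iff.2 hdet
  have k0 := congrFun hw 0
  have k1 := congrFun hw 1
  have k2 := congrFun hw 2
  simp [vecMul, dotProduct, Fin.sum_univ_three] at k0 k1 k2
  have hα : w 0 ≠ 0 := by
    intro h
    rw [h] at k0 k1 k2
    have h1 : ![w 1 * y, w 1 * z + w 2 * y, w 2 * z] ᵥ* RR p = 0 := by
      ext i
      fin_cases i
      · simp [vecMul, dotProduct, Fin.sum_univ_three, RR]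
        linear_combination k0
      · simp [vecMul, dotProduct, Fin.sum_univ_three, RR]
        linear_combination k1
      · simp [vecMul, dotProduct, Fin.sum_univ_three, RR]
        linear_combination k2
    have h2 := Matrix.eq_zero_of_vecMul_eq_zero hR h1
    have a0 := congrFun h2 0
    have a1 := congrFun h2 1
    have a2 := congrFun h2 2
    simp at a0 a1 a2
    refine hw0 ?_
    have h3 : w 1 = 0 ∧ w 2 = 0 := by
      rcases hyz with hy | hz
      · have b1 : w 1 = 0 := a0.resolve_right hy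
        rw [b1] at a1
        simp at a1
        exact ⟨b1, a1.resolve_right hy⟩
      · have b1 : w 2 = 0 := a2.resolve_right hz
        rw [b1] at a1
        simp at a1
        exact ⟨a1.resolve_right hz, b1⟩
    ext i
    fin_cases i
    · exact h
    · exact h3.1
    · exact h3.2
  obtain ⟨y1, z1, hd⟩ : ∃ y1 z1 : k, y * z1 - z * y1 = 1 := by
    by_cases hy : y = 0
    · have hz : z ≠ 0 := by
        rcases hyz with h | h
        · exact absurd hy h
        · exact h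
      exact ⟨-z⁻¹, 0, by rw [hy]; field_simp; ring⟩
    · exact ⟨0, y⁻¹, by field_simp; ring⟩
  have hL := lin hT (p := y) (q := z) (r := y1) (t := z1) (by rw [hd]; exact one_ne_zero)
  have c0 : (!![y, y1, 0; z, z1, 0; 0, 0, 1] : Matrix (Fin 3) (Fin 3) k) *
      !![z1, -y1, 0; -z, y, 0; 0, 0, 1] = 1 := by
    ext i j
    fin_cases i <;> fin_cases j <;> simp [Matrix.mul_apply, Fin.sum_univ_three]
    all_goals first | linear_combination hd | ring
  have c1 : (!![z1, -z; -y1, y] : Matrix (Fin 2) (Fin 2) k) * !![y, z; y1, z1] = 1 := by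
    ext i j
    fin_cases i <;> fin_cases j <;> simp [Matrix.mul_apply, Fin.sum_univ_two]
    all_goals first | linear_combination hd | ring
  have hC := conj hL c0 c1
  have hrel := rel_of_cn hC.cn
  set D' := ((P2 p δ).lin y z y1 z1).conj !![z1, -y1, 0; -z, y, 0; 0, 0, 1]
    !![y, y1, 0; z, z1, 0; 0, 0, 1] !![y, z; y1, z1] !![z1, -z; -y1, y] with hD'
  have g1 : D'.a = ![1, 0, 0] := by
    show !![z1, -y1, 0; -z, y, 0; 0, 0, 1] *ᵥ (y • ![1, 0, 0] + z • ![0, 1, 0]) = _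
    ext i
    fin_cases i <;> simp [mulVec, dotProduct, Fin.sum_univ_three]
    all_goals first | linear_combination hd | ring
  have g2 : D'.a' = ![0, 1, 0] := by
    show !![z1, -y1, 0; -z, y, 0; 0, 0, 1] *ᵥ (y1 • ![1, 0, 0] + z1 • ![0, 1, 0]) = _
    ext i
    fin_cases i <;> simp [mulVec, dotProduct, Fin.sum_univ_three]
    all_goals first | linear_combination hd | ring
  have g3 : D'.b = ![1, 0] := by
    show (y • ![1, 0] + z • ![0, 1]) ᵥ* !![z1, -z; -y1, y] = _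
    ext i
    fin_cases i <;> simp [vecMul, dotProduct, Fin.sum_univ_two]
    all_goals first | linear_combination hd | ring
  have g4 : D'.b' = ![0, 1] := by
    show (y1 • ![1, 0] + z1 • ![0, 1]) ᵥ* !![z1, -z; -y1, y] = _
    ext i
    fin_cases i <;> simp [vecMul, dotProduct, Fin.sum_univ_two]
    all_goals first | linear_combination hd | ring
  have g5 : D'.d = 0 := by
    show (y • (0 : Fin 3 → k) + z • (0 : Fin 3 → k)) ᵥ* _ = _
    simp
  have g6 : D'.d' = 0 := by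
    show (y1 • (0 : Fin 3 → k) + z1 • (0 : Fin 3 → k)) ᵥ* _ = _
    simp
  obtain ⟨p', δ', hp'⟩ := eq_P2 hrel g1 g2 g3 g4 g5 g6
  set σ := (w 1 * z1 - w 2 * y1) / w 0 with hσ
  set ω := (-w 1 * z + w 2 * y) / w 0 with hω
  have hX : ∀ j, D'.X 0 j + σ * D'.B 0 j + ω * D'.C 0 j = 0 := by
    have hs1 : σ * y + ω * y1 = w 1 / w 0 := by
      rw [hσ, hω]
      field_simp
      linear_combination w 1 * hd
    have hs2 : σ * z + ω * z1 = w 2 / w 0 := by
      rw [hσ, hω]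
      field_simp
      linear_combination w 2 * hd
    have l0 : (y * p 0 + z * p 1) + (w 1 / w 0) * (y * p 3 + z * p 4) +
        (w 2 / w 0) * (y * p 4 + z * p 5) = 0 := by
      field_simp
      linear_combination k0
    have l1 : (y * p 1 + z * p 2) + (w 1 / w 0) * (y * p 4 + z * p 5) +
        (w 2 / w 0) * (y * p 5 + z * p 6) = 0 := by
      field_simp
      linear_combination k1
    have l2 : (y * p 7 + z * p 8) + (w 1 / w 0) * (y * p 9 + z * p 10) +
        (w 2 / w 0) * (y * p 10 + z * p 11) = 0 := by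
      field_simp
      linear_combination k2
    rw [← hs1, ← hs2] at l0 l1 l2
    have eX : D'.X = !![y, z; y1, z1] * (P2 p δ).X * !![y, y1, 0; z, z1, 0; 0, 0, 1] := rfl
    have eB : D'.B = !![y, z; y1, z1] * (y • (P2 p δ).B + z • (P2 p δ).C) *
        !![y, y1, 0; z, z1, 0; 0, 0, 1] := rfl
    have eC : D'.C = !![y, z; y1, z1] * (y1 • (P2 p δ).B + z1 • (P2 p δ).C) *
        !![y, y1, 0; z, z1, 0; 0, 0, 1] := rfl
    intro j
    rw [eX, eB, eC]
    fin_cases j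
    · simp [Matrix.mul_apply, Fin.sum_univ_two, Fin.sum_univ_three, P2]
      linear_combination y * l0 + z * l1
    · simp [Matrix.mul_apply, Fin.sum_univ_two, Fin.sum_univ_three, P2]
      linear_combination y1 * l0 + z1 * l1
    · simp [Matrix.mul_apply, Fin.sum_univ_two, Fin.sum_univ_three, P2]
      linear_combination l2
  rw [hp'] at hC hX
  refine no_prod1 hC σ ω ?_ ?_ ?_
  · have := hX 0
    simpa [P2] using this
  · have := hX 1
    simpa [P2] using this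
  · have := hX 2
    simpa [P2] using this

end L221

end Pool.Agent.Lib.D13
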