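import Pool.Agent.Lib.D13.L2P

/-!
# MP_5dcbc3_ag: Jordan types `(l, 2, 2, 1)`: normal form of the second family, moves
-/

namespace Pool.Agent.Lib.D13

open Matrix Pool.Agent.Lib.Q5dc Pool.Agent.Lib.D7

namespace L221

variable {k : Type*} [Field k] {m : ℕ} {ρ : ℕ → ℕ}

/-- base change of `R0` and `R1` -/
def Dat.conj (D : Dat k) (g0 h0 : Matrix (Fin 3) (Fin 3) k) (g1 h1 : Matrix (Fin 2) (Fin 2) k) :
    Dat k :=
  ⟨g1 * D.X * h0, g1 * D.B * h0, g1 * D.C * h0, g0 *ᵥ D.a, g0 *ᵥ D.a', g1 *ᵥ D.c, g1 *ᵥ D.c',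
    D.d ᵥ* h0, D.d' ᵥ* h0, D.b ᵥ* h1, D.b' ᵥ* h1⟩

theorem conj [Infinite k] {D : Dat k} (hT : MaxR ρ (TT m D)) {g0 h0 : Matrix (Fin 3) (Fin 3) k}
    {g1 h1 : Matrix (Fin 2) (Fin 2) k} (e0 : h0 * g0 = 1) (e1 : h1 * g1 = 1) :
    MaxR ρ (TT m (D.conj g0 h0 g1 h1)) := by
  have h := L2B.conjR (Equiv.refl I5) hT (fromBlocks g0 0 0 g1) (fromBlocks h0 0 0 h1)
    (by rw [fromBlocks_multiply]; simp [e0, e1])
  have h2 : ∀ X : Matrix (Fin 2) (Fin 3) k,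
      fromBlocks g0 0 0 g1 * bl X * fromBlocks h0 0 0 h1 = bl (g1 * X * h0) := by
    intro X
    rw [bl, bl, fromBlocks_multiply, fromBlocks_multiply]
    simp
  have h3 : ∀ (a : Fin 3 → k) (c : Fin 2 → k),
      (fromBlocks g0 0 0 g1 : Matrix I5 I5 k) *ᵥ Sum.elim a c = Sum.elim (g0 *ᵥ a) (g1 *ᵥ c) := by
    intro a c
    rw [fromBlocks_mulVec]
    ext i
    rcases i with i | i
    · simp only [Matrix.zero_mulVec, add_zero, Sum.elim_inl]
      rfl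
    · simp only [Matrix.zero_mulVec, zero_add, Sum.elim_inr]
      rfl
  have h4 : ∀ (d : Fin 3 → k) (b : Fin 2 → k),
      Sum.elim d b ᵥ* (fromBlocks h0 0 0 h1 : Matrix I5 I5 k) = Sum.elim (d ᵥ* h0) (b ᵥ* h1) := by
    intro d b
    rw [vecMul_fromBlocks]
    ext i
    rcases i with i | i
    · simp only [Matrix.vecMul_zero, add_zero, Sum.elim_inl]
      rfl
    · simp only [Matrix.vecMul_zero, zero_add, Sum.elim_inr]
      rfl
  rw [h2, h2, h2, h3, h3, h4, h4] at h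
  exact h

/-- the second family; `p = (γ0 γ1 γ2 β0 β1 β2 β3 τ0 τ1 τ2 τ3 τ4)` -/
def P2 (p : Fin 12 → k) (δ : Fin 3 → k) : Dat k :=
  ⟨!![p 0, p 1, p 7; p 1, p 2, p 8], !![p 3, p 4, p 9; p 4, p 5, p 10],
    !![p 4, p 5, p 10; p 5, p 6, p 11], ![1, 0, 0], ![0, 1, 0], ![δ 0, δ 1], ![δ 1, δ 2], 0, 0,
    ![1, 0], ![0, 1]⟩

theorem rel_P2 (p : Fin 12 → k) (δ : Fin 3 → k) : Rel (P2 p δ) := by
  refine ⟨?_, ?_, ?_, ?_⟩
  · ext i
    fin_cases i <;> simp [P2, mulVec, dotProduct, Fin.sum_univ_three]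
  · ext i
    fin_cases i <;> simp [P2, vecMul, dotProduct, Fin.sum_univ_two]
  · simp [P2, mulVec, dotProduct, Fin.sum_univ_three, Fin.sum_univ_two]
  · simp [P2, dotProduct, Fin.sum_univ_two]

theorem eq_P2 {D : Dat k} (h : Rel D) (ha : D.a = ![1, 0, 0]) (ha' : D.a' = ![0, 1, 0])
    (hb : D.b = ![1, 0]) (hb' : D.b' = ![0, 1]) (hd : D.d = 0) (hd' : D.d' = 0) :
    ∃ p δ, D = P2 p δ := by
  obtain ⟨X, B, C, a, a', c, c', d, d', b, b'⟩ := D
  subst ha ha' hb hb' hd hd'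
  obtain ⟨h1, h2, h3, h4⟩ := h
  have a0 := congrFun h1 0
  have a1 := congrFun h1 1
  have b0 := congrFun h2 0
  have b1 := congrFun h2 1
  have b2 := congrFun h2 2
  simp only [mulVec, vecMul, dotProduct, Fin.sum_univ_three, Fin.sum_univ_two] at a0 a1 b0 b1 b2
  simp [mulVec, dotProduct, Fin.sum_univ_three, Fin.sum_univ_two] at a0 a1 b0 b1 b2 h3 h4
  refine ⟨![X 0 0, X 0 1, X 1 1, B 0 0, B 0 1, B 1 1, C 1 1, X 0 2, X 1 2, B 0 2, B 1 2, C 1 2],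
    ![c 0, c 1, c' 1], ?_⟩
  ext i j
  · fin_cases i <;> fin_cases j <;> simp [P2, h3]
  · fin_cases i <;> fin_cases j <;> simp [P2, a0, b0]
  · fin_cases i <;> fin_cases j <;> simp [P2, a0, a1, b0, b1, b2]
  · rfl
  · rfl
  · fin_cases i <;> simp [P2]
  · fin_cases i <;> simp [P2, h4]
  · rfl
  · rfl
  · rfl
  · rfl

theorem move2 [Infinite k] {p : Fin 12 → k} {δ : Fin 3 → k} (hT : MaxR ρ (TT m (P2 p δ)))
    (q : Fin 12 → k) {F : Set k} (hF : F.Finite) :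
    ∃ s, s ∉ F ∧ MaxR ρ (TT m (P2 (p + s • q) δ)) := by
  have e : ∀ s, P2 (p + s • q) δ = (P2 p δ).ad ⟨!![q 0, q 1, q 7; q 1, q 2, q 8],
      !![q 3, q 4, q 9; q 4, q 5, q 10], !![q 4, q 5, q 10; q 5, q 6, q 11], 0, 0, 0, 0, 0, 0, 0,
      0⟩ s := by
    intro s
    simp only [P2, Dat.ad, Pi.add_apply, Pi.smul_apply, smul_eq_mul]
    congr 1
    · ext i j
      fin_cases i <;> fin_cases j <;> simp
    · ext i j
      fin_cases i <;> fin_cases j <;> simp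
    · ext i j
      fin_cases i <;> fin_cases j <;> simp
    all_goals simp
  obtain ⟨s, hs, h1⟩ := move hT _ (fun s => by rw [← e s]; exact rel_P2 _ _) hF
  exact ⟨s, hs, by rw [e s]; exact h1⟩

/-- zeros of a polynomial function which is not zero at a point -/
theorem finite_of_ne [CharZero k] {f : k → k} (hf : IsPoly f) {s0 : k} (h : f s0 ≠ 0) :
    {s | f s = 0}.Finite := by
  obtain ⟨p, hp⟩ := hf
  have h1 : p ≠ 0 := by
    rintro rfl
    exact h (by rw [hp]; simp)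
  have h2 : {s | f s = 0} = {s | p.eval s = 0} := by
    ext s
    simp [hp]
  rw [h2]
  exact D8.finite_zeros p h1

end L221

end Pool.Agent.Lib.D13
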