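import Pool.Agent.Lib.D13.L22I
import Pool.Agent.Lib.D9.BlkMap

/-!
# MP_5dcbc3_ag: Jordan types `(l, 2, 2)`, `l` at least `5`: all two-step triples
-/

namespace Pool.Agent.Lib.D13

open Matrix Pool.Agent.Lib.Q5dc Pool.Agent.Lib.D7

variable {k : Type*} [Field k]

namespace L22AAux

/-- the permutation `v_i <-> v_(l-1-i)`, `R0 <-> R1` -/
def pe (m : ℕ) : Fin (m + 4) ⊕ (Fin 2 ⊕ Fin 2) ≃ Fin (m + 4) ⊕ (Fin 2 ⊕ Fin 2) :=
  Equiv.sumCongr Fin.revPerm (Equiv.sumComm (Fin 2) (Fin 2))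

variable {m : ℕ} {a0 a1 c0 c1 b0 b1 d0 d1 n00 n01 n10 n11
  a0' a1' c0' c1' b0' b1' d0' d1' n00' n01' n10' n11' : k} {ρ : ℕ → ℕ}

theorem ev_rev (m i : ℕ) (hi : i < m + 4) (j : Fin (m + 4)) :
    ev k (m + 4) i (Fin.rev j) = ev k (m + 4) (m + 3 - i) j := by
  have h1 : ((Fin.rev j : Fin (m + 4)) : ℕ) = m + 4 - (j + 1) := Fin.val_rev j
  have h2 := j.2
  unfold ev
  rw [h1]
  by_cases h : (j : ℕ) = m + 3 - i
  · rw [if_pos h, if_pos (by omega)]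
  · rw [if_neg h, if_neg (by omega)]

theorem JX_dual (i j : Fin (m + 4) ⊕ (Fin 2 ⊕ Fin 2)) :
    JX k m ((pe m).symm j) ((pe m).symm i) = JX k m i j := by
  rcases i with i | (i | i) <;> rcases j with j | (j | j)
  · have h1 : ((Fin.rev i : Fin (m + 4)) : ℕ) = m + 4 - (i + 1) := Fin.val_rev i
    have h2 : ((Fin.rev j : Fin (m + 4)) : ℕ) = m + 4 - (j + 1) := Fin.val_rev j
    have h3 := i.2
    have h4 := j.2
    show ShF k (m + 4) (Fin.rev j) (Fin.rev i) = ShF k (m + 4) i j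
    rw [ShF, Matrix.of_apply, Matrix.of_apply, h1, h2]
    by_cases h : (i : ℕ) = j + 1
    · rw [if_pos h, if_pos (by omega)]
    · rw [if_neg h, if_neg (by omega)]
  · rfl
  · rfl
  · rfl
  · rfl
  · rfl
  · rfl
  · show (!![1, 0; 0, 1] : Matrix (Fin 2) (Fin 2) k) j i = (!![1, 0; 0, 1] :
      Matrix (Fin 2) (Fin 2) k) i j
    fin_cases i <;> fin_cases j <;> rfl
  · rfl

theorem EX_dual (i j : Fin (m + 4) ⊕ (Fin 2 ⊕ Fin 2)) :
    EX m a0 a1 c0 c1 b0 b1 d0 d1 n00 n01 n10 n11 ((pe m).symm j) ((pe m).symm i) =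
      EX m b0 b1 d0 d1 a0 a1 c0 c1 n00 n10 n01 n11 i j := by
  have e1 : ∀ (a0 a1 c0 c1 : k) (i : Fin (m + 4)) (j : Fin 2 ⊕ Fin 2),
      Lc m (XI k) (RV a0 a1 c0 c1) (Equiv.sumComm (Fin 2) (Fin 2) j) (Fin.rev i) =
        Lb m (XI k) (RV c0 c1 a0 a1) i j := by
    intro a0 a1 c0 c1 i j
    rw [Lc, Lb, XI_RV, RV_XI, Matrix.add_apply, Matrix.add_apply, vecMulVec_apply,
      vecMulVec_apply, vecMulVec_apply, vecMulVec_apply, ev_rev _ _ (by omega),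
      ev_rev _ _ (by omega)]
    have e2 : m + 3 - 0 = m + 3 := rfl
    have e3 : m + 3 - 1 = m + 2 := rfl
    rw [e2, e3]
    rcases j with j | j
    · have h1 : RV a0 a1 c0 c1 (Equiv.sumComm (Fin 2) (Fin 2) (Sum.inl j)) =
          RV c0 c1 a0 a1 (Sum.inl j) := rfl
      have h2 : RV 0 0 a0 a1 (Equiv.sumComm (Fin 2) (Fin 2) (Sum.inl j)) =
          RV a0 a1 0 0 (Sum.inl j) := rfl
      rw [h1, h2]
      ring
    · have h1 : RV a0 a1 c0 c1 (Equiv.sumComm (Fin 2) (Fin 2) (Sum.inr j)) =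
          RV c0 c1 a0 a1 (Sum.inr j) := rfl
      have h2 : RV 0 0 a0 a1 (Equiv.sumComm (Fin 2) (Fin 2) (Sum.inr j)) =
          RV a0 a1 0 0 (Sum.inr j) := rfl
      rw [h1, h2]
      ring
  rcases i with i | i <;> rcases j with j | j
  · rfl
  · exact e1 _ _ _ _ _ _
  · have h := e1 b0 b1 d0 d1 (Fin.rev j) (Equiv.sumComm (Fin 2) (Fin 2) i)
    rw [Fin.rev_rev] at h
    have e4 : (Equiv.sumComm (Fin 2) (Fin 2)) ((Equiv.sumComm (Fin 2) (Fin 2)) i) = i := by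
      rcases i with i | i <;> rfl
    rw [e4] at h
    exact h.symm
  · rcases i with i | i <;> rcases j with j | j
    · rfl
    · rfl
    · show (!![n00, n01; n10, n11] : Matrix (Fin 2) (Fin 2) k) j i = (!![n00, n10; n01, n11] :
        Matrix (Fin 2) (Fin 2) k) i j
      fin_cases i <;> fin_cases j <;> rfl
    · rfl

/-- duality -/
theorem dualX [Infinite k]
    (hT : MaxR ρ ![JX k m, EX m a0 a1 c0 c1 b0 b1 d0 d1 n00 n01 n10 n11,
      EX m a0' a1' c0' c1' b0' b1' d0' d1' n00' n01' n10' n11']) :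
    MaxR ρ ![JX k m, EX m b0 b1 d0 d1 a0 a1 c0 c1 n00 n10 n01 n11,
      EX m b0' b1' d0' d1' a0' a1' c0' c1' n00' n10' n01' n11'] := by
  have h5 := D9.MaxR.reindex (pe m) hT.transpose
  convert h5 using 1
  funext i
  fin_cases i
  · ext x y
    exact (JX_dual x y).symm
  · ext x y
    exact (EX_dual x y).symm
  · ext x y
    exact (EX_dual x y).symm

theorem exists_mul (h : a0' ≠ 0 ∨ a1' ≠ 0) (hd : a0 * a1' - a1 * a0' = 0) :
    ∃ la : k, a0 = la * a0' ∧ a1 = la * a1' := by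
  rcases h with h | h
  · refine ⟨a0 / a0', by field_simp, ?_⟩
    field_simp
    linear_combination -hd
  · refine ⟨a1 / a1', ?_, by field_simp⟩
    field_simp
    linear_combination hd

theorem exists_f (h : a0' ≠ 0 ∨ a1' ≠ 0) : ∃ f0 f1 : k, f0 * a0' + f1 * a1' = 1 := by
  rcases h with h | h
  · exact ⟨a0'⁻¹, 0, by field_simp; ring⟩
  · exact ⟨0, a1'⁻¹, by field_simp; ring⟩

theorem exists_nu {a0 a1 b0 b1 n00 n01 n10 n11 : k} (ha : a0 ≠ 0 ∨ a1 ≠ 0) (hb : b0 ≠ 0 ∨ b1 ≠ 0)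
    (h3 : n00 * a0 + n01 * a1 = 0) (h3' : n10 * a0 + n11 * a1 = 0)
    (h4 : b0 * n00 + b1 * n10 = 0) (h4' : b0 * n01 + b1 * n11 = 0) :
    ∃ nu : k, n00 = nu * (b1 * a1) ∧ n01 = -(nu * (b1 * a0)) ∧ n10 = -(nu * (b0 * a1)) ∧
      n11 = nu * (b0 * a0) := by
  obtain ⟨f0, f1, hf⟩ := exists_f ha
  obtain ⟨g0, g1, hg⟩ := exists_f hb
  refine ⟨g1 * (n00 * f1 - n01 * f0) - g0 * (n10 * f1 - n11 * f0), ?_, ?_, ?_, ?_⟩
  · have e1 : n00 = a1 * (n00 * f1 - n01 * f0) := by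
      linear_combination f0 * h3 - n00 * hf
    have e2 : n10 = a1 * (n10 * f1 - n11 * f0) := by
      linear_combination f0 * h3' - n10 * hf
    linear_combination e1 + (n00 * f1 - n01 * f0) * a1 * (-hg) + a1 * g0 * f1 * h4 -
      a1 * g0 * f0 * h4'
  · linear_combination a0 * f0 * g0 * h4' - a0 * f1 * g0 * h4 + f1 * h3 - n01 * hf
      + (n00 * f1 - n01 * f0) * a0 * hg
  · linear_combination f0 * h3' - n10 * hf + a1 * (n10 * f1 - n11 * f0) * (-hg) +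
      a1 * g1 * f1 * h4 - a1 * g1 * f0 * h4'
  · linear_combination f1 * h3' - n11 * hf + a0 * (n10 * f1 - n11 * f0) * hg -
      a0 * g1 * f1 * h4 + a0 * g1 * f0 * h4'

end L22AAux

end Pool.Agent.Lib.D13
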