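import Pool.Agent.Lib.D13.L22A

/-!
# MP_5dcbc3_ag: Jordan types `(l, 2, 2)`, `l` at least `5`: all two-step triples, case analysis
-/

namespace Pool.Agent.Lib.D13

open Matrix Pool.Agent.Lib.Q5dc Pool.Agent.Lib.D7

variable {k : Type*} [Field k]

namespace L22AAux

variable {m : ℕ} {a0 a1 c0 c1 b0 b1 d0 d1 n00 n01 n10 n11
  a0' a1' c0' c1' b0' b1' d0' d1' n00' n01' n10' n11' : k} {ρ : ℕ → ℕ}

variable [IsAlgClosed k] [CharZero k]

theorem bindX (hm : 1 ≤ m) (hρ : Rk k m ρ)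
    (h : RelX a0 a1 c0 c1 b0 b1 d0 d1 n00 n01 n10 n11
      a0' a1' c0' c1' b0' b1' d0' d1' n00' n01' n10' n11')
    (hD : b0 * b1' - b1 * b0' ≠ 0)
    (hT : MaxR ρ ![JX k m, EX m a0 a1 c0 c1 b0 b1 d0 d1 n00 n01 n10 n11,
      EX m a0' a1' c0' c1' b0' b1' d0' d1' n00' n01' n10' n11']) : False := by
  have : Infinite k := IsAlgClosed.instInfinite
  exact indX hm hρ h.dual hD (dualX hT)

/-- `a = 0`, `b' = 0`, `a'` not zero -/
theorem caseA (hm : 1 ≤ m) (hρ : Rk k m ρ)
    (h : RelX a0 a1 c0 c1 b0 b1 d0 d1 n00 n01 n10 n11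
      a0' a1' c0' c1' b0' b1' d0' d1' n00' n01' n10' n11')
    (ha0 : a0 = 0) (ha1 : a1 = 0) (hb0 : b0' = 0) (hb1 : b1' = 0) (ha : a0' ≠ 0 ∨ a1' ≠ 0)
    (hT : MaxR ρ ![JX k m, EX m a0 a1 c0 c1 b0 b1 d0 d1 n00 n01 n10 n11,
      EX m a0' a1' c0' c1' b0' b1' d0' d1' n00' n01' n10' n11']) : False := by
  have : Infinite k := IsAlgClosed.instInfinite
  subst ha0 ha1 hb0 hb1
  obtain ⟨f0, f1, hf⟩ := exists_f ha
  have hrel : ∀ s : k, RelX (0 + s * f1) (0 + s * -f0) (c0 + s * 0) (c1 + s * 0)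
      (b0 + s * 0) (b1 + s * 0) (d0 + s * ((d0' * f1 - d1' * f0) * f0))
      (d1 + s * ((d0' * f1 - d1' * f0) * f1))
      (n00 + s * ((n00' * f1 - n01' * f0) * f0)) (n01 + s * ((n00' * f1 - n01' * f0) * f1))
      (n10 + s * ((n10' * f1 - n11' * f0) * f0)) (n11 + s * ((n10' * f1 - n11' * f0) * f1))
      (a0' + s * 0) (a1' + s * 0) (c0' + s * 0) (c1' + s * 0)
      (0 + s * 0) (0 + s * 0) (d0' + s * 0) (d1' + s * 0)
      (n00' + s * 0) (n01' + s * 0) (n10' + s * 0) (n11' + s * 0) := by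
    intro s
    refine ⟨?_, ?_, ?_, ?_, ?_, ?_⟩
    · linear_combination h.h1
    · linear_combination h.h2 + s * (d0' * f1 - d1' * f0) * hf
    · linear_combination h.h3 + s * (n00' * f1 - n01' * f0) * hf
    · linear_combination h.h3' + s * (n10' * f1 - n11' * f0) * hf
    · linear_combination h.h4
    · linear_combination h.h4'
  obtain ⟨s, hs, h1⟩ := EX_line (Set.finite_singleton (0 : k)) hT hrel
  have hs0 : s ≠ 0 := hs
  refine indX hm hρ (hrel s) ?_ h1
  have h2 : (0 + s * f1) * (a1' + s * 0) - (0 + s * -f0) * (a0' + s * 0) = s := by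
    linear_combination s * hf
  rw [h2]
  exact hs0

/-- `a = b = 0`, `b'(a')` not zero -/
theorem spc1 (hm : 1 ≤ m) (hρ : Rk k m ρ)
    (h : RelX 0 0 c0 c1 0 0 d0 d1 n00 n01 n10 n11
      a0' a1' c0' c1' b0' b1' d0' d1' n00' n01' n10' n11')
    (hD : b0' * a0' + b1' * a1' ≠ 0)
    (hT : MaxR ρ ![JX k m, EX m 0 0 c0 c1 0 0 d0 d1 n00 n01 n10 n11,
      EX m a0' a1' c0' c1' b0' b1' d0' d1' n00' n01' n10' n11']) : False := by
  have : Infinite k := IsAlgClosed.instInfinite
  obtain ⟨h1, h2, h3, h3', h4, h4'⟩ := h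
  obtain ⟨t, ht⟩ : ∃ t, t * (b0' * a0' + b1' * a1') = 1 := ⟨_, inv_mul_cancel₀ hD⟩
  -- moving in the direction (e, be)
  have key : ∀ e0 e1 be0 be1 : k, be0 * a0' + be1 * a1' = b0' * e0 + b1' * e1 →
      be0 * (n00' * a0' + n01' * a1') + be1 * (n10' * a0' + n11' * a1') =
        b0' * (n00' * e0 + n01' * e1) + b1' * (n10' * e0 + n11' * e1) →
      (e0 * a1' - e1 * a0' ≠ 0 ∨ be0 * b1' - be1 * b0' ≠ 0) → False := by
    intro e0 e1 be0 be1 g1 g2 g3
    obtain ⟨y, hy⟩ : ∃ y, y = t * (be0 * c0' + be1 * c1' - (d0' * e0 + d1' * e1)) := ⟨_, rfl⟩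
    obtain ⟨u0, hu0⟩ : ∃ u0, u0 = n00' * e0 + n01' * e1 := ⟨_, rfl⟩
    obtain ⟨u1, hu1⟩ : ∃ u1, u1 = n10' * e0 + n11' * e1 := ⟨_, rfl⟩
    obtain ⟨w0, hw0⟩ : ∃ w0, w0 = be0 * n00' + be1 * n10' := ⟨_, rfl⟩
    obtain ⟨w1, hw1⟩ : ∃ w1, w1 = be0 * n01' + be1 * n11' := ⟨_, rfl⟩
    obtain ⟨q, hq⟩ : ∃ q, q = t * t * (b0' * u0 + b1' * u1) := ⟨_, rfl⟩
    have hwu : w0 * a0' + w1 * a1' = b0' * u0 + b1' * u1 := by
      rw [hw0, hw1, hu0, hu1]
      linear_combination g2
    have hrel : ∀ s : k, RelX (0 + s * e0) (0 + s * e1) (c0 + s * (y * a0')) (c1 + s * (y * a1'))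
        (0 + s * be0) (0 + s * be1) (d0 + s * 0) (d1 + s * 0)
        (n00 + s * (t * (u0 * b0' + a0' * w0) - q * (a0' * b0')))
        (n01 + s * (t * (u0 * b1' + a0' * w1) - q * (a0' * b1')))
        (n10 + s * (t * (u1 * b0' + a1' * w0) - q * (a1' * b0')))
        (n11 + s * (t * (u1 * b1' + a1' * w1) - q * (a1' * b1')))
        (a0' + s * 0) (a1' + s * 0) (c0' + s * 0) (c1' + s * 0)
        (b0' + s * 0) (b1' + s * 0) (d0' + s * 0) (d1' + s * 0)
        (n00' + s * 0) (n01' + s * 0) (n10' + s * 0) (n11' + s * 0) := by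
      intro s
      refine ⟨?_, ?_, ?_, ?_, ?_, ?_⟩
      · linear_combination h1 + s * g1
      · rw [hy]
        linear_combination h2 - s * (be0 * c0' + be1 * c1' - (d0' * e0 + d1' * e1)) * ht
      · rw [hq]
        linear_combination h3 + s * (u0 + t * a0' * (b0' * u0 + b1' * u1) * (-1)) * ht
          + s * t * a0' * hwu + s * hu0
      · rw [hq]
        linear_combination h3' + s * (u1 + t * a1' * (b0' * u0 + b1' * u1) * (-1)) * ht
          + s * t * a1' * hwu + s * hu1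
      · rw [hq]
        linear_combination h4 - s * w0 * ht - s * hw0 +
          s * t * b0' * (b0' * u0 + b1' * u1) * ht
      · rw [hq]
        linear_combination h4' - s * w1 * ht - s * hw1 +
          s * t * b1' * (b0' * u0 + b1' * u1) * ht
    obtain ⟨s, hs, h5⟩ := EX_line (Set.finite_singleton (0 : k)) hT hrel
    have hs0 : s ≠ 0 := hs
    rcases g3 with g3 | g3
    · refine indX hm hρ (hrel s) ?_ h5
      have e : (0 + s * e0) * (a1' + s * 0) - (0 + s * e1) * (a0' + s * 0) =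
          s * (e0 * a1' - e1 * a0') := by ring
      rw [e]
      exact mul_ne_zero hs0 g3
    · refine bindX hm hρ (hrel s) ?_ h5
      have e : (0 + s * be0) * (b1' + s * 0) - (0 + s * be1) * (b0' + s * 0) =
          s * (be0 * b1' - be1 * b0') := by ring
      rw [e]
      exact mul_ne_zero hs0 g3
  by_cases hP : -a1' * (n00' * a0' + n01' * a1') + a0' * (n10' * a0' + n11' * a1') = 0
  · refine key 0 0 (-a1') a0' ?_ ?_ (Or.inr ?_)
    · ring
    · linear_combination hP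
    · intro h0
      exact hD (by linear_combination -h0)
  · obtain ⟨mu, hmu⟩ : ∃ mu, mu * (-a1' * (n00' * a0' + n01' * a1') +
        a0' * (n10' * a0' + n11' * a1')) =
        b0' * (n00' * -b1' + n01' * b0') + b1' * (n10' * -b1' + n11' * b0') :=
      ⟨_ / _, div_mul_cancel₀ _ hP⟩
    refine key (-b1') b0' (mu * -a1') (mu * a0') ?_ ?_ (Or.inl ?_)
    · ring
    · linear_combination hmu
    · intro h0
      exact hD (by linear_combination -h0)

/-- `a = b = 0`, `a'`, `b'` not zero -/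
theorem spcX (hm : 1 ≤ m) (hρ : Rk k m ρ)
    (h : RelX 0 0 c0 c1 0 0 d0 d1 n00 n01 n10 n11
      a0' a1' c0' c1' b0' b1' d0' d1' n00' n01' n10' n11')
    (ha : a0' ≠ 0 ∨ a1' ≠ 0) (hb : b0' ≠ 0 ∨ b1' ≠ 0)
    (hT : MaxR ρ ![JX k m, EX m 0 0 c0 c1 0 0 d0 d1 n00 n01 n10 n11,
      EX m a0' a1' c0' c1' b0' b1' d0' d1' n00' n01' n10' n11']) : False := by
  have : Infinite k := IsAlgClosed.instInfinite
  by_cases hD : b0' * a0' + b1' * a1' = 0
  · obtain ⟨nu, e1, e2, e3, e4⟩ := exists_nu (n00 := n00) (n01 := n01) (n10 := n10)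
      (n11 := n11) ha hb (by linear_combination h.h3)
      (by linear_combination h.h3') (by linear_combination -h.h4) (by linear_combination -h.h4')
    have h2 := h.h2
    rw [e1, e2, e3, e4] at hT
    by_cases hb0 : b0' = 0
    · have hb1 : b1' ≠ 0 := hb.resolve_left fun h => h hb0
      have ha1 : a1' = 0 := by
        rw [hb0, zero_mul, zero_add] at hD
        exact (mul_eq_zero.1 hD).resolve_left hb1
      have ha0 : a0' ≠ 0 := ha.resolve_right fun h => h ha1
      obtain ⟨w, hw⟩ : ∃ w, a0' * w = -d1 := ⟨_ / _, mul_div_cancel₀ _ ha0⟩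
      have hrel : ∀ s : k, RelX (0 + s * 0) (0 + s * 0) (c0 + s * 0) (c1 + s * 0)
          (0 + s * 0) (0 + s * 0) (d0 + s * w) (d1 + s * 0)
          (nu * (b1' * a1') + s * (nu * b1')) (-(nu * (b1' * a0')) + s * 0)
          (-(nu * (b0' * a1')) + s * -(nu * b0')) (nu * (b0' * a0') + s * 0)
          (a0' + s * 0) (a1' + s * 1) (c0' + s * 0) (c1' + s * 0)
          (b0' + s * 0) (b1' + s * 0) (d0' + s * 0) (d1' + s * 0)
          (n00' + s * 0) (n01' + s * 0) (n10' + s * 0) (n11' + s * 0) := by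
        intro s
        refine ⟨?_, ?_, ?_, ?_, ?_, ?_⟩
        · ring
        · linear_combination h2 + s * hw
        · ring
        · ring
        · ring
        · ring
      obtain ⟨s, hs, h5⟩ := EX_line (Set.finite_singleton (0 : k)) hT hrel
      have hs0 : s ≠ 0 := hs
      have hr := hrel s
      simp only [mul_zero, add_zero] at hr h5
      refine spc1 hm hρ hr ?_ h5
      have e : b0' * a0' + b1' * (a1' + s * 1) = s * b1' := by linear_combination hD
      rw [e]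
      exact mul_ne_zero hs0 hb1
    · have ha1 : a1' ≠ 0 := by
        intro h0
        rw [h0, mul_zero, add_zero] at hD
        have h6 : a0' = 0 := (mul_eq_zero.1 hD).resolve_left hb0
        rcases ha with h7 | h7
        · exact h7 h6
        · exact h7 h0
      obtain ⟨w, hw⟩ : ∃ w, a1' * w = -d0 := ⟨_ / _, mul_div_cancel₀ _ ha1⟩
      have hrel : ∀ s : k, RelX (0 + s * 0) (0 + s * 0) (c0 + s * 0) (c1 + s * 0)
          (0 + s * 0) (0 + s * 0) (d0 + s * 0) (d1 + s * w)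
          (nu * (b1' * a1') + s * 0) (-(nu * (b1' * a0')) + s * -(nu * b1'))
          (-(nu * (b0' * a1')) + s * 0) (nu * (b0' * a0') + s * (nu * b0'))
          (a0' + s * 1) (a1' + s * 0) (c0' + s * 0) (c1' + s * 0)
          (b0' + s * 0) (b1' + s * 0) (d0' + s * 0) (d1' + s * 0)
          (n00' + s * 0) (n01' + s * 0) (n10' + s * 0) (n11' + s * 0) := by
        intro s
        refine ⟨?_, ?_, ?_, ?_, ?_, ?_⟩
        · ring
        · linear_combination h2 + s * hw
        · ring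
        · ring
        · ring
        · ring
      obtain ⟨s, hs, h5⟩ := EX_line (Set.finite_singleton (0 : k)) hT hrel
      have hs0 : s ≠ 0 := hs
      have hr := hrel s
      simp only [mul_zero, add_zero] at hr h5
      refine spc1 hm hρ hr ?_ h5
      have e : b0' * (a0' + s * 1) + b1' * a1' = s * b0' := by linear_combination hD
      rw [e]
      exact mul_ne_zero hs0 hb0
  · exact spc1 hm hρ h hD hT

end L22AAux

end Pool.Agent.Lib.D13
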