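import Pool.Agent.Lib.D7.Api
import Pool.Agent.Lib.D8.UtilB

/-!
# MP_5dcbc3_ag: one long block and a module of square zero

Index type `Fin (m + 4) ⊕ ι`: a block `v_0, .., v_(l-1)` of size `l = m + 4` and a space `R`.
`LA m x`: `v_i -> v_(i+1)`, `r -> x r`.
`LX m x G a b`: `v_0 -> a`, `v_1 -> x a`, `r -> b(x r) v_(l-2) + b(r) v_(l-1) + G r`.
-/

namespace Pool.Agent.Lib.D13

open Matrix Pool.Agent.Lib.Q5dc Pool.Agent.Lib.D7

variable {k : Type*} [Field k] {ι : Type*} [Fintype ι] [DecidableEq ι]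

/-- the shift `e_i -> e_(i+1)` -/
def ShF (k : Type*) [Field k] (n : ℕ) : Matrix (Fin n) (Fin n) k :=
  Matrix.of fun i j => if (i : ℕ) = (j : ℕ) + 1 then 1 else 0

/-- the vector `v_i` of the long block -/
def ev (k : Type*) [Field k] (n i : ℕ) : Fin n → k := fun j => if (j : ℕ) = i then 1 else 0

/-- `v_i -> v_(i+1)`, `r -> x r` -/
def LA (m : ℕ) (x : Matrix ι ι k) : Matrix (Fin (m + 4) ⊕ ι) (Fin (m + 4) ⊕ ι) k :=
  fromBlocks (ShF k (m + 4)) 0 0 x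

/-- `R -> L` part of `LX` -/
def Lb (m : ℕ) (x : Matrix ι ι k) (b : ι → k) : Matrix (Fin (m + 4)) ι k :=
  vecMulVec (ev k (m + 4) (m + 2)) (b ᵥ* x) + vecMulVec (ev k (m + 4) (m + 3)) b

/-- `L -> R` part of `LX` -/
def Lc (m : ℕ) (x : Matrix ι ι k) (a : ι → k) : Matrix ι (Fin (m + 4)) k :=
  vecMulVec a (ev k (m + 4) 0) + vecMulVec (x *ᵥ a) (ev k (m + 4) 1)

/-- `v_0 -> a`, `v_1 -> x a`, `r -> b(x r) v_(l-2) + b(r) v_(l-1) + G r` -/
def LX (m : ℕ) (x G : Matrix ι ι k) (a b : ι → k) :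
    Matrix (Fin (m + 4) ⊕ ι) (Fin (m + 4) ⊕ ι) k :=
  fromBlocks 0 (Lb m x b) (Lc m x a) G

section Basic

theorem ev_dot (n i j : ℕ) (hj : j < n) : ev k n i ⬝ᵥ ev k n j = if i = j then 1 else 0 := by
  rw [dotProduct, Finset.sum_eq_single ⟨j, hj⟩]
  · by_cases h : i = j
    · simp [ev, h]
    · have h' : ¬ j = i := fun e => h e.symm
      simp [ev, h, h']
  · intro b _ hb
    have : (b : ℕ) ≠ j := fun e => hb (Fin.ext e)
    simp [ev, this]
  · simp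

theorem ShF_ev (n i : ℕ) (hi : i < n) : ShF k n *ᵥ ev k n i = ev k n (i + 1) := by
  ext j
  rw [mulVec, dotProduct, Finset.sum_eq_single ⟨i, hi⟩]
  · simp [ShF, ev]
  · intro b _ hb
    have : (b : ℕ) ≠ i := fun e => hb (Fin.ext e)
    simp [ev, this]
  · simp

theorem ev_ShF_zero (n : ℕ) : ev k n 0 ᵥ* ShF k n = 0 := by
  ext j
  rw [vecMul, dotProduct]
  refine Finset.sum_eq_zero fun b _ => ?_
  by_cases h : (b : ℕ) = 0
  · have : ¬ (b : ℕ) = (j : ℕ) + 1 := by omega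
    simp [ShF, this]
  · simp [ev, h]

theorem ev_ShF (n i : ℕ) (hi : i + 1 < n) : ev k n (i + 1) ᵥ* ShF k n = ev k n i := by
  ext j
  rw [vecMul, dotProduct, Finset.sum_eq_single ⟨i + 1, hi⟩]
  · by_cases h : (j : ℕ) = i
    · simp [ShF, ev, h]
    · have h' : ¬ i = (j : ℕ) := fun e => h e.symm
      simp [ShF, ev, h, h']
  · intro b _ hb
    have : ¬ (b : ℕ) = i + 1 := fun e => hb (Fin.ext e)
    simp [ev, this]
  · simp

theorem ev_big (n i : ℕ) (hi : n ≤ i) : ev k n i = 0 := by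
  ext j
  have : ¬ (j : ℕ) = i := by omega
  simp [ev, this]

theorem vmv_zero {m n : Type*} (u : m → k) : vecMulVec u (0 : n → k) = 0 := by
  ext i j
  simp [vecMulVec_apply]

theorem zero_vmv {m n : Type*} (u : n → k) : vecMulVec (0 : m → k) u = 0 := by
  ext i j
  simp [vecMulVec_apply]

variable {m : ℕ} {x x' G G' : Matrix ι ι k} {a a' b b' : ι → k}

theorem ShF_Lb (hx : x * x = 0) : ShF k (m + 4) * Lb m x b = Lb m x b * x := by
  rw [Lb, Matrix.mul_add, mul_vecMulVec, mul_vecMulVec, ShF_ev _ _ (by omega),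
    ShF_ev _ _ (by omega), ev_big _ (m + 3 + 1) (by omega), Matrix.add_mul, vecMulVec_mul,
    vecMulVec_mul, vecMul_vecMul, hx, vecMul_zero, vmv_zero, zero_vmv, zero_add, add_zero]

theorem Lc_ShF (hx : x * x = 0) : Lc m x a * ShF k (m + 4) = x * Lc m x a := by
  rw [Lc, Matrix.mul_add, mul_vecMulVec, mul_vecMulVec, Matrix.add_mul, vecMulVec_mul,
    vecMulVec_mul, ev_ShF_zero, ev_ShF _ 0 (by omega), mulVec_mulVec, hx, zero_mulVec, vmv_zero,
    zero_vmv, zero_add, add_zero]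

theorem Lc_mul_Lb : Lc m x a * Lb m x' b = 0 := by
  rw [Lc, Lb, Matrix.add_mul, Matrix.mul_add, Matrix.mul_add]
  simp only [vecMulVec_mul_vecMulVec, ev_dot _ _ _ (show m + 2 < m + 4 by omega),
    ev_dot _ _ _ (show m + 3 < m + 4 by omega)]
  simp

theorem Lb_mul (M : Matrix ι ι k) : Lb m x b * M =
    vecMulVec (ev k (m + 4) (m + 2)) (b ᵥ* (x * M)) + vecMulVec (ev k (m + 4) (m + 3)) (b ᵥ* M) := by
  rw [Lb, Matrix.add_mul, vecMulVec_mul, vecMulVec_mul, vecMul_vecMul]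

theorem mul_Lc (M : Matrix ι ι k) : M * Lc m x a =
    vecMulVec (M *ᵥ a) (ev k (m + 4) 0) + vecMulVec ((M * x) *ᵥ a) (ev k (m + 4) 1) := by
  rw [Lc, Matrix.mul_add, mul_vecMulVec, mul_vecMulVec, mulVec_mulVec]

theorem Lb_mul_Lc (hx : x * x = 0) : Lb m x b * Lc m x a =
    vecMulVec (ev k (m + 4) (m + 2)) ((b ⬝ᵥ (x *ᵥ a)) • ev k (m + 4) 0) +
    (vecMulVec (ev k (m + 4) (m + 3)) ((b ⬝ᵥ a) • ev k (m + 4) 0) +
    vecMulVec (ev k (m + 4) (m + 3)) ((b ⬝ᵥ (x *ᵥ a)) • ev k (m + 4) 1)) := by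
  have h1 : (b ᵥ* x) ⬝ᵥ (x *ᵥ a) = 0 := by
    rw [← dotProduct_mulVec, mulVec_mulVec, hx]
    simp
  have h2 : (b ᵥ* x) ⬝ᵥ a = b ⬝ᵥ (x *ᵥ a) := by rw [← dotProduct_mulVec]
  rw [Lb, Lc, Matrix.add_mul, Matrix.mul_add, Matrix.mul_add]
  simp only [vecMulVec_mul_vecMulVec, h1, h2]
  simp

theorem LA_comm_LX (hx : x * x = 0) (hG : x * G = G * x) :
    LA m x * LX m x G a b = LX m x G a b * LA m x := by
  rw [LA, LX, fromBlocks_multiply, fromBlocks_multiply]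
  simp [ShF_Lb hx, Lc_ShF hx, hG]

theorem LX_mul : LX m x G a b * LX m x G' a' b' =
    fromBlocks (Lb m x b * Lc m x a') (Lb m x b * G') (G * Lc m x a') (G * G') := by
  rw [LX, LX, fromBlocks_multiply]
  simp [Lc_mul_Lb]

theorem LX_comm (hx : x * x = 0) (hG : x * G = G * x) (hG' : x * G' = G' * x)
    (h1 : G * G' = G' * G) (h2 : G *ᵥ a' = G' *ᵥ a) (h3 : b ᵥ* G' = b' ᵥ* G)
    (h4 : b ⬝ᵥ (x *ᵥ a') = b' ⬝ᵥ (x *ᵥ a)) (h5 : b ⬝ᵥ a' = b' ⬝ᵥ a) :
    LX m x G a b * LX m x G' a' b' = LX m x G' a' b' * LX m x G a b := by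
  rw [LX_mul, LX_mul, Lb_mul_Lc hx, Lb_mul_Lc hx, h4, h5, Lb_mul, Lb_mul, mul_Lc, mul_Lc,
    h1, h2, h3]
  congr 2
  · congr 1
    rw [hG', ← vecMul_vecMul, h3, vecMul_vecMul, ← hG]
  · congr 1
    rw [← hG, ← mulVec_mulVec, h2, mulVec_mulVec, hG']

theorem LX_pow (n : ℕ) : LX m x G a b ^ (n + 2) =
    fromBlocks (Lb m x b * G ^ n * Lc m x a) (Lb m x b * G ^ (n + 1)) (G ^ (n + 1) * Lc m x a)
      (G ^ (n + 2)) := by
  induction n with
  | zero =>
    rw [zero_add, pow_two, LX_mul]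
    simp [pow_two]
  | succ n ih =>
    rw [show n + 1 + 2 = (n + 2) + 1 by ring, pow_succ, ih, LX, fromBlocks_multiply]
    simp only [Matrix.mul_zero, zero_add, Matrix.mul_assoc, Lc_mul_Lb, ← pow_succ]

theorem LX_nil (hG : IsNilpotent G) : IsNilpotent (LX m x G a b) := by
  obtain ⟨n, hn⟩ := hG
  refine ⟨n + 2, ?_⟩
  rw [LX_pow, pow_succ, pow_succ, pow_succ, hn]
  simp

theorem ShF_pow (n i : ℕ) : ShF k n ^ i =
    Matrix.of fun (a b : Fin n) => if (a : ℕ) = (b : ℕ) + i then (1 : k) else 0 := by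
  induction i with
  | zero =>
    ext a b
    rw [pow_zero, Matrix.one_apply, Matrix.of_apply]
    simp [Fin.ext_iff]
  | succ i ih =>
    ext a b
    rw [pow_succ', ih, Matrix.mul_apply, Matrix.of_apply]
    by_cases h : (a : ℕ) = (b : ℕ) + (i + 1)
    · have ha := a.2
      rw [if_pos h, Finset.sum_eq_single (⟨(b : ℕ) + i, by omega⟩ : Fin n)]
      · have e1 : ShF k n a ⟨(b : ℕ) + i, by omega⟩ = 1 := by
          rw [ShF, Matrix.of_apply, if_pos (by simp only; omega)]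
        rw [e1, one_mul, Matrix.of_apply, if_pos rfl]
      · intro c _ hc
        by_cases h1 : (a : ℕ) = (c : ℕ) + 1
        · rw [Matrix.of_apply, if_neg (fun h2 => hc (Fin.ext (by simp only; omega))), mul_zero]
        · rw [ShF, Matrix.of_apply, if_neg h1, zero_mul]
      · simp
    · rw [if_neg h]
      refine Finset.sum_eq_zero fun c _ => ?_
      by_cases h1 : (a : ℕ) = (c : ℕ) + 1
      · rw [Matrix.of_apply, if_neg (fun h2 => h (by omega)), mul_zero]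
      · rw [ShF, Matrix.of_apply, if_neg h1, zero_mul]

theorem LA_pow (i : ℕ) : LA m x ^ i = fromBlocks (ShF k (m + 4) ^ i) 0 0 (x ^ i) := by
  induction i with
  | zero => simp
  | succ i ih =>
    rw [pow_succ, ih, LA, fromBlocks_multiply]
    simp [pow_succ]

theorem LA_nil (hx : x * x = 0) : IsNilpotent (LA m x) := by
  refine ⟨m + 4, ?_⟩
  rw [LA_pow, ShF_pow, show x ^ (m + 4) = 0 by
    rw [show m + 4 = 2 + (m + 2) by ring, pow_add, pow_two, hx, zero_mul]]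
  ext i j
  rcases i with i | i <;> rcases j with j | j
  · simp only [fromBlocks_apply₁₁, Matrix.of_apply, Matrix.zero_apply]
    rw [if_neg]
    omega
  all_goals simp

/-- commuting nilpotent triples of this shape -/
theorem LX_cn (hx : x * x = 0) (hG : x * G = G * x) (hG' : x * G' = G' * x)
    (hn : IsNilpotent G) (hn' : IsNilpotent G')
    (h1 : G * G' = G' * G) (h2 : G *ᵥ a' = G' *ᵥ a) (h3 : b ᵥ* G' = b' ᵥ* G)
    (h4 : b ⬝ᵥ (x *ᵥ a') = b' ⬝ᵥ (x *ᵥ a)) (h5 : b ⬝ᵥ a' = b' ⬝ᵥ a) :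
    CN ![LA m x, LX m x G a b, LX m x G' a' b'] := by
  refine D8.cn3 (LA_comm_LX hx hG) (LA_comm_LX hx hG') (LX_comm hx hG hG' h1 h2 h3 h4 h5)
    (LA_nil hx) (LX_nil hn) (LX_nil hn')

end Basic

end Pool.Agent.Lib.D13
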