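import Pool.Agent.Lib.D13.Frame
import Pool.Agent.Lib.D13.Cons
import Pool.Agent.Lib.D13.L2Defs

/-!
# MP_5dcbc3_ag: the types `(m + 4 | l)` in the form `LA m x`

A maximal bad triple of type `(m + 4) :: l` gives one on `Fin (m + 4) ⊕ ι` whose first matrix is
`LA m x`, for every `x` on `ι` which is the Jordan matrix of type `l`.
-/

namespace Pool.Agent.Lib.D13

open Matrix Pool.Agent.Lib.Q5dc Pool.Agent.Lib.D7

variable {k : Type*} [Field k]

/-- transfer to `LA m x`; `τ` places the elements of `ι` in the boxes of `l` -/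
theorem Bad.toLA [Infinite k] {m : ℕ} {l : List ℕ} (h : Bad k ((m + 4) :: l)) {ι : Type*}
    [Fintype ι] [DecidableEq ι] (x : Matrix ι ι k) (τ : ι → IxL l) (hτ : Function.Injective τ)
    (hc : Fintype.card ι = l.sum)
    (hx : ∀ i j, x i j = if (τ i).1 = (τ j).1 ∧ ((τ i).2 : ℕ) = (τ j).2 + 1 then 1 else 0) :
    BadM (LA m x) := by
  have hbij : Function.Bijective τ :=
    (Fintype.bijective_iff_injective_and_card τ).2 ⟨hτ, by rw [hc, card_IxL]⟩
  refine BadM.map h.cons (Equiv.sumCongr (Equiv.refl _) (Equiv.ofBijective τ hbij).symm) _ ?_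
  rintro (i | i) (j | j)
  · rfl
  · rfl
  · rfl
  · obtain ⟨i, rfl⟩ := (Equiv.ofBijective τ hbij).surjective i
    obtain ⟨j, rfl⟩ := (Equiv.ofBijective τ hbij).surjective j
    simp only [Equiv.sumCongr_apply, Sum.map_inr, Equiv.symm_apply_apply]
    show x i j = JU k l (Equiv.ofBijective τ hbij i) (Equiv.ofBijective τ hbij j)
    rw [hx]
    rfl

/-- the form in which a type `(m + 4) :: l` is excluded -/
theorem not_bad_LA [Infinite k] {m : ℕ} {l : List ℕ} {ι : Type*}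
    [Fintype ι] [DecidableEq ι] (x : Matrix ι ι k) (τ : ι → IxL l) (hτ : Function.Injective τ)
    (hc : Fintype.card ι = l.sum)
    (hx : ∀ i j, x i j = if (τ i).1 = (τ j).1 ∧ ((τ i).2 : ℕ) = (τ j).2 + 1 then 1 else 0)
    (h : ∀ (ρ : ℕ → ℕ) (T : Fin 3 → Matrix (Fin (m + 4) ⊕ ι) (Fin (m + 4) ⊕ ι) k), MaxR ρ T →
      (∀ i, ρ i = (LA m x ^ i).rank) → T 0 = LA m x → False) : ¬ Bad k ((m + 4) :: l) := by
  intro hb
  obtain ⟨ρ, T, hT, hρ, h0⟩ := hb.toLA x τ hτ hc hx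
  exact h ρ T hT hρ h0

/-- the same with `ι = IxL l`, `x = JU k l` -/
theorem not_bad_LA_JU [Infinite k] {m : ℕ} {l : List ℕ}
    (h : ∀ (ρ : ℕ → ℕ) (T : Fin 3 → Matrix (Fin (m + 4) ⊕ IxL l) (Fin (m + 4) ⊕ IxL l) k),
      MaxR ρ T → (∀ i, ρ i = (LA m (JU k l) ^ i).rank) → T 0 = LA m (JU k l) → False) :
    ¬ Bad k ((m + 4) :: l) :=
  not_bad_LA (JU k l) id Function.injective_id (card_IxL l) (fun _ _ => rfl) h

/-- the square of `JU k l` is zero if all parts are at most two -/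
theorem JU_mul_self {l : List ℕ} (h : ∀ a ∈ l, a ≤ 2) : JU k l * JU k l = 0 := by
  ext x y
  rw [Matrix.mul_apply, Matrix.zero_apply]
  refine Finset.sum_eq_zero fun z _ => ?_
  by_cases h1 : x.1 = z.1 ∧ (x.2 : ℕ) = z.2 + 1
  · have h2 : JU k l z y = 0 := by
      show (if z.1 = y.1 ∧ (z.2 : ℕ) = y.2 + 1 then (1 : k) else 0) = 0
      rw [if_neg]
      rintro ⟨-, h3⟩
      have h4 := h (l.get x.1) (List.get_mem l x.1)
      have h5 := x.2.2
      omega
    rw [h2, mul_zero]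
  · have h2 : JU k l x z = 0 := by
      show (if x.1 = z.1 ∧ (x.2 : ℕ) = z.2 + 1 then (1 : k) else 0) = 0
      rw [if_neg h1]
    rw [h2, zero_mul]

end Pool.Agent.Lib.D13
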