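import Pool.Agent.Lib.D13.L22
import Pool.Agent.Lib.D13.L2Bridge

/-!
# MP_5dcbc3_ag: Jordan types `(l, 2, 2)`, `l` at least `5`, are not bad
-/

namespace Pool.Agent.Lib.D13

open Matrix Pool.Agent.Lib.Q5dc Pool.Agent.Lib.D7

variable {k : Type*} [Field k]

/-- the boxes of `[2, 2]` -/
def tau22 : Fin 2 ⊕ Fin 2 → IxL [2, 2] :=
  Sum.elim ![⟨0, (0 : Fin 2)⟩, ⟨1, (0 : Fin 2)⟩] ![⟨0, (1 : Fin 2)⟩, ⟨1, (1 : Fin 2)⟩]

theorem not_bad_l22 [IsAlgClosed k] [CharZero k] {l : ℕ} (hl : 5 ≤ l) : ¬ Bad k [l, 2, 2] := by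
  have : Infinite k := IsAlgClosed.instInfinite
  obtain ⟨m, rfl⟩ : ∃ m, l = m + 4 := ⟨l - 4, by omega⟩
  refine not_bad_LA (XI k) tau22 (by decide) rfl ?_
    (fun ρ T hT hρ h0 => no_l22 (by omega) hT hρ h0)
  rintro (i | i) (j | j) <;> fin_cases i <;> fin_cases j <;> simp [XI, XX, tau22]

end Pool.Agent.Lib.D13
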