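import Pool.Agent.Lib.D13.L22B

/-!
# MP_5dcbc3_ag: Jordan types `(l, 2, 2)`, `l` at least `5`: no maximal bad two-step triples
-/

namespace Pool.Agent.Lib.D13

open Matrix Pool.Agent.Lib.Q5dc Pool.Agent.Lib.D7

variable {k : Type*} [Field k]

namespace L22AAux

variable {m : ℕ} {a0 a1 c0 c1 b0 b1 d0 d1 n00 n01 n10 n11
  a0' a1' c0' c1' b0' b1' d0' d1' n00' n01' n10' n11' : k} {ρ : ℕ → ℕ}

theorem Rel_sub' (mu : k) (h : RelX a0 a1 c0 c1 b0 b1 d0 d1 n00 n01 n10 n11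
      a0' a1' c0' c1' b0' b1' d0' d1' n00' n01' n10' n11') :
    RelX a0 a1 c0 c1 b0 b1 d0 d1 n00 n01 n10 n11
      (a0 - mu * a0') (a1 - mu * a1') (c0 - mu * c0') (c1 - mu * c1')
      (b0 - mu * b0') (b1 - mu * b1') (d0 - mu * d0') (d1 - mu * d1')
      (n00 - mu * n00') (n01 - mu * n01') (n10 - mu * n10') (n11 - mu * n11') :=
  ⟨by linear_combination -mu * h.h1, by linear_combination -mu * h.h2,
    by linear_combination -mu * h.h3, by linear_combination -mu * h.h3',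
    by linear_combination -mu * h.h4, by linear_combination -mu * h.h4'⟩

/-- `C` replaced by `B - mu C` -/
theorem maxR_subC {n : Type*} [Fintype n] [DecidableEq n] {A B C : Matrix n n k} {mu : k}
    (hmu : mu ≠ 0) (hT : MaxR ρ ![A, B, C]) : MaxR ρ ![A, B, B - mu • C] := by
  refine D8.MaxR.change3 hT (D8.mem1 _ _ _) (sub_mem (D8.mem1 _ _ _)
    (SMulMemClass.smul_mem mu (D8.mem2 _ _ _))) (D8.mem1 _ _ _) ?_
  have h := SMulMemClass.smul_mem (mu⁻¹) (sub_mem (D8.mem1 A B (B - mu • C))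
    (D8.mem2 A B (B - mu • C)))
  rwa [sub_sub_cancel, smul_smul, inv_mul_cancel₀ hmu, one_smul] at h

/-- `B` replaced by `B - la C` -/
theorem maxR_subB {n : Type*} [Fintype n] [DecidableEq n] {A B C : Matrix n n k} (la : k)
    (hT : MaxR ρ ![A, B, C]) : MaxR ρ ![A, B - la • C, C] := by
  refine D8.MaxR.change3 hT (sub_mem (D8.mem1 _ _ _)
    (SMulMemClass.smul_mem la (D8.mem2 _ _ _))) (D8.mem2 _ _ _) ?_ (D8.mem2 _ _ _)
  have h := add_mem (D8.mem1 A (B - la • C) C) (SMulMemClass.smul_mem la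
    (D8.mem2 A (B - la • C) C))
  rwa [sub_add_cancel] at h

variable [IsAlgClosed k] [CharZero k]

/-- `a = 0`, `a'` not zero, `b`, `b'` dependent -/
theorem caseDep (hm : 1 ≤ m) (hρ : Rk k m ρ)
    (h : RelX a0 a1 c0 c1 b0 b1 d0 d1 n00 n01 n10 n11
      a0' a1' c0' c1' b0' b1' d0' d1' n00' n01' n10' n11')
    (ha0 : a0 = 0) (ha1 : a1 = 0) (ha : a0' ≠ 0 ∨ a1' ≠ 0) (hb : b0 * b1' - b1 * b0' = 0)
    (hT : MaxR ρ ![JX k m, EX m a0 a1 c0 c1 b0 b1 d0 d1 n00 n01 n10 n11,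
      EX m a0' a1' c0' c1' b0' b1' d0' d1' n00' n01' n10' n11']) : False := by
  by_cases hb' : b0' ≠ 0 ∨ b1' ≠ 0
  · obtain ⟨mu, h1, h2⟩ := exists_mul hb' hb
    by_cases hmu : mu = 0
    · rw [hmu, zero_mul] at h1 h2
      subst ha0 ha1 h1 h2
      exact spcX hm hρ h ha hb' hT
    · have h3 := maxR_subC hmu hT
      rw [EX_sub_smul] at h3
      refine caseA hm hρ (Rel_sub' mu h) ha0 ha1 (by rw [h1]; ring) (by rw [h2]; ring) ?_ h3
      subst ha0 ha1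
      rcases ha with ha | ha
      · left
        rw [zero_sub, neg_ne_zero]
        exact mul_ne_zero hmu ha
      · right
        rw [zero_sub, neg_ne_zero]
        exact mul_ne_zero hmu ha
  · push Not at hb'
    exact caseA hm hρ h ha0 ha1 hb'.1 hb'.2 ha hT

/-- the case that `a'` is not zero -/
theorem caseA' (hm : 1 ≤ m) (hρ : Rk k m ρ)
    (h : RelX a0 a1 c0 c1 b0 b1 d0 d1 n00 n01 n10 n11
      a0' a1' c0' c1' b0' b1' d0' d1' n00' n01' n10' n11') (ha : a0' ≠ 0 ∨ a1' ≠ 0)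
    (hT : MaxR ρ ![JX k m, EX m a0 a1 c0 c1 b0 b1 d0 d1 n00 n01 n10 n11,
      EX m a0' a1' c0' c1' b0' b1' d0' d1' n00' n01' n10' n11']) : False := by
  by_cases h1 : a0 * a1' - a1 * a0' = 0
  · by_cases h2 : b0 * b1' - b1 * b0' = 0
    · obtain ⟨la, h3, h4⟩ := exists_mul ha h1
      have h5 := maxR_subB la hT
      rw [EX_sub_smul] at h5
      exact caseDep hm hρ (h.sub la) (by rw [h3]; ring) (by rw [h4]; ring) ha
        (by linear_combination h2) h5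
    · exact bindX hm hρ h h2 hT
  · exact indX hm hρ h h1 hT

/-- the case that `a` or `a'` is not zero -/
theorem caseAA (hm : 1 ≤ m) (hρ : Rk k m ρ)
    (h : RelX a0 a1 c0 c1 b0 b1 d0 d1 n00 n01 n10 n11
      a0' a1' c0' c1' b0' b1' d0' d1' n00' n01' n10' n11')
    (ha : (a0' ≠ 0 ∨ a1' ≠ 0) ∨ (a0 ≠ 0 ∨ a1 ≠ 0))
    (hT : MaxR ρ ![JX k m, EX m a0 a1 c0 c1 b0 b1 d0 d1 n00 n01 n10 n11,
      EX m a0' a1' c0' c1' b0' b1' d0' d1' n00' n01' n10' n11']) : False := by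
  rcases ha with ha | ha
  · exact caseA' hm hρ h ha hT
  · exact caseA' hm hρ h.symm ha (D8.MaxR.swap hT)

omit [IsAlgClosed k] [CharZero k] in
/-- a nonzero solution of three linear equations in four unknowns -/
theorem exists_sol (p q r : Fin 4 → k) : ∃ e0 e1 e0' e1' : k,
    ((e0' ≠ 0 ∨ e1' ≠ 0) ∨ (e0 ≠ 0 ∨ e1 ≠ 0)) ∧
    p 0 * e0' + p 1 * e1' = p 2 * e0 + p 3 * e1 ∧
    q 0 * e0' + q 1 * e1' = q 2 * e0 + q 3 * e1 ∧
    r 0 * e0' + r 1 * e1' = r 2 * e0 + r 3 * e1 := by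
  obtain ⟨v, hv0, hv⟩ := Matrix.exists_mulVec_eq_zero_iff.2
    (show (!![p 0, p 1, -p 2, -p 3; q 0, q 1, -q 2, -q 3; r 0, r 1, -r 2, -r 3; 0, 0, 0, 0] :
      Matrix (Fin 4) (Fin 4) k).det = 0 from
      Matrix.det_eq_zero_of_row_eq_zero 3 (fun j => by fin_cases j <;> rfl))
  have e1 := congrFun hv 0
  have e2 := congrFun hv 1
  have e3 := congrFun hv 2
  simp [Matrix.mulVec, dotProduct, Fin.sum_univ_succ] at e1 e2 e3
  refine ⟨v 2, v 3, v 0, v 1, ?_, by linear_combination e1, by linear_combination e2,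
    by linear_combination e3⟩
  by_contra hcon
  push Not at hcon
  apply hv0
  funext i
  fin_cases i
  · exact hcon.1.1
  · exact hcon.1.2
  · exact hcon.2.1
  · exact hcon.2.2

omit [IsAlgClosed k] [CharZero k] in
theorem exists_dir (b0 b1 d0 d1 n00 n01 n10 n11 b0' b1' d0' d1' n00' n01' n10' n11' : k) :
    ∃ e0 e1 e0' e1' x0 x1 x0' x1' : k, ((e0' ≠ 0 ∨ e1' ≠ 0) ∨ (e0 ≠ 0 ∨ e1 ≠ 0)) ∧
    b0 * e0' + b1 * e1' = b0' * e0 + b1' * e1 ∧
    d0 * e0' + d1 * e1' + b0 * x0' + b1 * x1' = d0' * e0 + d1' * e1 + b0' * x0 + b1' * x1 ∧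
    n00 * e0' + n01 * e1' = n00' * e0 + n01' * e1 ∧
    n10 * e0' + n11 * e1' = n10' * e0 + n11' * e1 := by
  by_cases hb : (b0 ≠ 0 ∨ b1 ≠ 0) ∨ (b0' ≠ 0 ∨ b1' ≠ 0)
  · obtain ⟨e0, e1, e0', e1', h0, h1, h2, h3⟩ := exists_sol ![b0, b1, b0', b1']
      ![n00, n01, n00', n01'] ![n10, n11, n10', n11']
    simp only [Matrix.cons_val] at h1 h2 h3
    obtain ⟨x0, x1, x0', x1', hx⟩ : ∃ x0 x1 x0' x1' : k,
        d0 * e0' + d1 * e1' + b0 * x0' + b1 * x1' =
          d0' * e0 + d1' * e1 + b0' * x0 + b1' * x1 := by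
      rcases hb with (hb | hb) | (hb | hb)
      · exact ⟨0, 0, (d0' * e0 + d1' * e1 - (d0 * e0' + d1 * e1')) / b0, 0, by
          field_simp; ring⟩
      · exact ⟨0, 0, 0, (d0' * e0 + d1' * e1 - (d0 * e0' + d1 * e1')) / b1, by
          field_simp; ring⟩
      · exact ⟨(d0 * e0' + d1 * e1' - (d0' * e0 + d1' * e1)) / b0', 0, 0, 0, by
          field_simp; ring⟩
      · exact ⟨0, (d0 * e0' + d1 * e1' - (d0' * e0 + d1' * e1)) / b1', 0, 0, by
          field_simp; ring⟩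
    exact ⟨e0, e1, e0', e1', x0, x1, x0', x1', h0, h1, hx, h2, h3⟩
  · push Not at hb
    obtain ⟨⟨rfl, rfl⟩, rfl, rfl⟩ := hb
    obtain ⟨e0, e1, e0', e1', h0, h1, h2, h3⟩ := exists_sol ![d0, d1, d0', d1']
      ![n00, n01, n00', n01'] ![n10, n11, n10', n11']
    simp only [Matrix.cons_val] at h1 h2 h3
    exact ⟨e0, e1, e0', e1', 0, 0, 0, 0, h0, by ring, by linear_combination h1, h2, h3⟩

end L22AAux

open L22AAux

/-- there are no maximal bad two-step triples of type `(m + 4, 2, 2)`, `m` at least `1` -/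
theorem no_two_step [IsAlgClosed k] [CharZero k] {m : ℕ} {ρ : ℕ → ℕ} (hm : 1 ≤ m)
    (hρ : Rk k m ρ) {a0 a1 c0 c1 b0 b1 d0 d1 n00 n01 n10 n11
      a0' a1' c0' c1' b0' b1' d0' d1' n00' n01' n10' n11' : k}
    (hT : MaxR ρ ![JX k m, EX m a0 a1 c0 c1 b0 b1 d0 d1 n00 n01 n10 n11,
      EX m a0' a1' c0' c1' b0' b1' d0' d1' n00' n01' n10' n11']) : False := by
  have : Infinite k := IsAlgClosed.instInfinite
  have h : RelX a0 a1 c0 c1 b0 b1 d0 d1 n00 n01 n10 n11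
      a0' a1' c0' c1' b0' b1' d0' d1' n00' n01' n10' n11' := EX_rel (hT.cn.1 1 2)
  by_cases ha : (a0' ≠ 0 ∨ a1' ≠ 0) ∨ (a0 ≠ 0 ∨ a1 ≠ 0)
  · exact caseAA hm hρ h ha hT
  push Not at ha
  obtain ⟨⟨rfl, rfl⟩, rfl, rfl⟩ := ha
  obtain ⟨e0, e1, e0', e1', x0, x1, x0', x1', g0, g1, g2, g3, g4⟩ :=
    exists_dir b0 b1 d0 d1 n00 n01 n10 n11 b0' b1' d0' d1' n00' n01' n10' n11'
  have hrel : ∀ s : k, RelX (0 + s * e0) (0 + s * e1) (c0 + s * x0) (c1 + s * x1)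
      (b0 + s * 0) (b1 + s * 0) (d0 + s * 0) (d1 + s * 0)
      (n00 + s * 0) (n01 + s * 0) (n10 + s * 0) (n11 + s * 0)
      (0 + s * e0') (0 + s * e1') (c0' + s * x0') (c1' + s * x1')
      (b0' + s * 0) (b1' + s * 0) (d0' + s * 0) (d1' + s * 0)
      (n00' + s * 0) (n01' + s * 0) (n10' + s * 0) (n11' + s * 0) := by
    intro s
    refine ⟨?_, ?_, ?_, ?_, ?_, ?_⟩
    · linear_combination s * g1
    · linear_combination h.h2 + s * g2
    · linear_combination s * g3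
    · linear_combination s * g4
    · linear_combination h.h4
    · linear_combination h.h4'
  obtain ⟨s, hs, h1⟩ := EX_line (Set.finite_singleton (0 : k)) hT hrel
  have hs0 : s ≠ 0 := hs
  refine caseAA hm hρ (hrel s) ?_ h1
  simp only [zero_add]
  rcases g0 with (g | g) | (g | g)
  · exact Or.inl (Or.inl (mul_ne_zero hs0 g))
  · exact Or.inl (Or.inr (mul_ne_zero hs0 g))
  · exact Or.inr (Or.inl (mul_ne_zero hs0 g))
  · exact Or.inr (Or.inr (mul_ne_zero hs0 g))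

/-- the final step: `G`, `G'` with `x G = G x = 0` -/
theorem no_of_shape [IsAlgClosed k] [CharZero k] {m : ℕ} {ρ : ℕ → ℕ} (hm : 1 ≤ m)
    (hρ : ∀ i, ρ i = (JX k m ^ i).rank) {G G' : Matrix (Fin 2 ⊕ Fin 2) (Fin 2 ⊕ Fin 2) k}
    {a b a' b' : Fin 2 ⊕ Fin 2 → k} (h1 : XI k * G = 0) (h2 : G * XI k = 0)
    (h1' : XI k * G' = 0) (h2' : G' * XI k = 0)
    (hT : MaxR ρ ![LA m (XI k), LX m (XI k) G a b, LX m (XI k) G' a' b']) : False := by
  have hρ2 : Rk k m ρ := by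
    show ρ 2 ≤ _
    rw [hρ, JX, LA_pow, pow_two (XI k), XI_mul]
  have key : ∀ G : Matrix (Fin 2 ⊕ Fin 2) (Fin 2 ⊕ Fin 2) k, XI k * G = 0 → G * XI k = 0 →
      ∃ n00 n01 n10 n11 : k, G = XX !![n00, n01; n10, n11] := by
    intro G h1 h2
    refine ⟨G (Sum.inr 0) (Sum.inl 0), G (Sum.inr 0) (Sum.inl 1), G (Sum.inr 1) (Sum.inl 0),
      G (Sum.inr 1) (Sum.inl 1), ?_⟩
    have e : (!![1, 0; 0, 1] : Matrix (Fin 2) (Fin 2) k) = 1 := by
      ext i j
      fin_cases i <;> fin_cases j <;> rfl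
    rw [← fromBlocks_toBlocks G, XI, XX, e, fromBlocks_multiply] at h1 h2
    simp only [Matrix.zero_mul, Matrix.mul_zero, Matrix.one_mul, Matrix.mul_one, add_zero,
      zero_add] at h1 h2
    have h3 : G.toBlocks₁₁ = 0 := by
      have := congrArg toBlocks₂₁ h1
      rw [toBlocks_fromBlocks₂₁] at this
      exact this
    have h4 : G.toBlocks₁₂ = 0 := by
      have := congrArg toBlocks₂₂ h1
      rw [toBlocks_fromBlocks₂₂] at this
      exact this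
    have h5 : G.toBlocks₂₂ = 0 := by
      have := congrArg toBlocks₂₁ h2
      rw [toBlocks_fromBlocks₂₁] at this
      exact this
    conv_lhs => rw [← fromBlocks_toBlocks G, h3, h4, h5]
    rw [XX]
    congr 1
    ext i j
    fin_cases i <;> fin_cases j <;> rfl
  obtain ⟨n00, n01, n10, n11, rfl⟩ := key G h1 h2
  obtain ⟨n00', n01', n10', n11', rfl⟩ := key G' h1' h2'
  rw [RV_eta a, RV_eta b, RV_eta a', RV_eta b'] at hT
  exact no_two_step hm hρ2 hT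

end Pool.Agent.Lib.D13
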