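import Pool.Agent.Lib.D13.L22V

/-!
# MP_5dcbc3_ag: first order rank conditions and the matrices commuting with `LA m x`

* `first_order`: if `K0 + s K1 + s^2 K2` never has bigger rank than `K0`, then `w K1 v = 0` for `v`
  in the kernel and `w` in the cokernel of `K0`;
* `shape1`: a maximal bad triple with first matrix `LA m x` of maximal rank of the square may be
  replaced by `LA m x, LX m x G a b, LX m x G' a' b'` with `x G = G x = 0`.
-/

namespace Pool.Agent.Lib.D13

open Matrix Pool.Agent.Lib.Q5dc Pool.Agent.Lib.D7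

section General

variable {k : Type*} [Field k] {n : Type*} [Fintype n] [DecidableEq n]

theorem first_order [Infinite k] {K0 K1 K2 : Matrix n n k}
    (h : ∀ s : k, (K0 + s • K1 + (s * s) • K2).rank ≤ K0.rank) {v w : n → k}
    (hv : K0 *ᵥ v = 0) (hw : w ᵥ* K0 = 0) : w ⬝ᵥ (K1 *ᵥ v) = 0 := by
  by_contra hne
  have hv0 : v ≠ 0 := by
    rintro rfl
    exact hne (by simp)
  obtain ⟨i, hi⟩ := Function.ne_iff.1 hv0
  obtain ⟨e, he⟩ : ∃ e : n → k, e ⬝ᵥ v = 1 :=
    ⟨Pi.single i (v i)⁻¹, by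
      rw [single_dotProduct]
      exact inv_mul_cancel₀ hi⟩
  have hL : ∀ x y : n, D7.IsPoly fun s : k => (K0 + s • K1 + (s * s) • K2 +
      (1 - s) • vecMulVec (K1 *ᵥ v + s • (K2 *ᵥ v)) e) x y := by
    intro x y
    refine ⟨Polynomial.C (K0 x y) + Polynomial.X * Polynomial.C (K1 x y) +
      Polynomial.X * Polynomial.X * Polynomial.C (K2 x y) + (1 - Polynomial.X) *
      ((Polynomial.C ((K1 *ᵥ v) x) + Polynomial.X * Polynomial.C ((K2 *ᵥ v) x)) *
        Polynomial.C (e y)), fun s => ?_⟩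
    simp [vecMulVec_apply]
    ring
  have hfin := (rank_semicont (fun s => K0 + s • K1 + (s * s) • K2 +
      (1 - s) • vecMulVec (K1 *ᵥ v + s • (K2 *ᵥ v)) e) hL 0).union
    (Set.finite_singleton (0 : k))
  obtain ⟨s, hs⟩ := hfin.exists_notMem
  rw [Set.mem_union, not_or, Set.mem_singleton_iff, Set.mem_ofPred_eq, not_lt] at hs
  obtain ⟨h1, h2⟩ := hs
  have h0 : K0 + (0 : k) • K1 + ((0 : k) * 0) • K2 +
      (1 - 0 : k) • vecMulVec (K1 *ᵥ v + (0 : k) • (K2 *ᵥ v)) e =
      K0 + (1 : k) • vecMulVec (K1 *ᵥ v) e := by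
    simp
  rw [h0] at h1
  have h3 : K0.rank < (K0 + (1 : k) • vecMulVec (K1 *ᵥ v) e).rank := by
    refine rank_lt_of_ker (u := v) hv (by rw [he]; exact one_ne_zero) (fun x hx => ?_)
      one_ne_zero
    apply hne
    rw [← hx, dotProduct_mulVec, hw, zero_dotProduct]
  have h4 : K0 + s • K1 + (s * s) • K2 + (1 - s) • vecMulVec (K1 *ᵥ v + s • (K2 *ᵥ v)) e =
      (K0 + s • K1 + (s * s) • K2) * (1 + (s⁻¹ - 1) • vecMulVec v e) := by
    rw [mul_add, mul_one, mul_smul_comm, mvm, add_mulVec, add_mulVec, hv, smul_mulVec,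
      smul_mulVec, zero_add]
    congr 1
    ext x y
    simp only [Matrix.smul_apply, vecMulVec_apply, Pi.smul_apply, smul_eq_mul, Pi.add_apply]
    field_simp
  have h5 : (K0 + s • K1 + (s * s) • K2 + (1 - s) • vecMulVec (K1 *ᵥ v + s • (K2 *ᵥ v)) e).rank ≤
      (K0 + s • K1 + (s * s) • K2).rank := by
    rw [h4]
    exact Matrix.rank_mul_le_left _ _
  have h6 := h s
  omega

/-- first order condition for the square of an element of maximal rank -/
theorem MaxR.sq_first [Infinite k] {ρ : ℕ → ℕ} {T : Fin 3 → Matrix n n k} (hT : MaxR ρ T)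
    {A M : Matrix n n k} (hA : A ∈ adj T) (hM : M ∈ adj T) (hρ : ρ 2 ≤ (A ^ 2).rank)
    {v w : n → k} (hv : A ^ 2 *ᵥ v = 0) (hw : w ᵥ* A ^ 2 = 0) :
    w ⬝ᵥ ((A * M + M * A) *ᵥ v) = 0 := by
  refine first_order (K0 := A ^ 2) (K2 := M ^ 2) (fun s => ?_) hv hw
  have h1 := hT.rank_le (add_mem hA (SMulMemClass.smul_mem s hM)) 2
  have h2 : (A + s • M) ^ 2 = A ^ 2 + s • (A * M + M * A) + (s * s) • M ^ 2 := by
    rw [pow_two, pow_two, pow_two, add_mul, mul_add, mul_add, smul_mul_assoc, mul_smul_comm,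
      smul_mul_assoc, mul_smul_comm, smul_smul, smul_add]
    abel
  rw [h2] at h1
  exact h1.trans hρ

theorem eig_zero' {M : Matrix n n k} (hM : IsNilpotent M) {v : n → k} {c : k}
    (h : M *ᵥ v = c • v) (hv : v ≠ 0) : c = 0 := by
  obtain ⟨N, hN⟩ := hM
  have key : ∀ j, M ^ j *ᵥ v = c ^ j • v := by
    intro j
    induction j with
    | zero => simp
    | succ j ih => rw [pow_succ, ← mulVec_mulVec, h, mulVec_smul, ih, smul_smul, pow_succ, mul_comm]
  have h1 := key N
  rw [hN, zero_mulVec] at h1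
  rcases smul_eq_zero.1 h1.symm with h2 | h2
  · exact eq_zero_of_pow_eq_zero h2
  · exact absurd h2 hv

end General

section Shape

variable {k : Type*} [Field k] {ι : Type*} [Fintype ι] [DecidableEq ι] {m : ℕ}
  {x : Matrix ι ι k}

/-- the rows of the part `R -> L` -/
theorem row_shape (hx : x * x = 0) {M : Matrix (Fin (m + 4)) ι k}
    (h : ShF k (m + 4) * M = M * x) : ∃ b, M = Lb m x b := by
  have e1 : ∀ (i : ℕ) (hi : i + 1 < m + 4),
      M ⟨i, by omega⟩ = (M ⟨i + 1, hi⟩) ᵥ* x := by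
    intro i hi
    funext r
    have h1 := congrFun (congrFun h ⟨i + 1, hi⟩) r
    rw [Matrix.mul_apply, Finset.sum_eq_single ⟨i, by omega⟩] at h1
    · have h2 : ShF k (m + 4) ⟨i + 1, hi⟩ ⟨i, by omega⟩ = 1 := by
        rw [ShF, Matrix.of_apply, if_pos rfl]
      rw [h2, one_mul] at h1
      rw [h1]
      rfl
    · intro b _ hb
      have h2 : ShF k (m + 4) ⟨i + 1, hi⟩ b = 0 := by
        rw [ShF, Matrix.of_apply, if_neg]
        intro h3
        exact hb (Fin.ext (by simp only at h3 ⊢; omega))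
      rw [h2, zero_mul]
    · simp
  refine ⟨M ⟨m + 3, by omega⟩, ?_⟩
  ext i r
  obtain ⟨i, hi⟩ := i
  rw [Lb, Matrix.add_apply, vecMulVec_apply, vecMulVec_apply, ev, ev]
  by_cases h3 : i = m + 3
  · subst h3
    rw [if_neg (by simp only; omega), if_pos rfl]
    ring
  · by_cases h2 : i = m + 2
    · subst h2
      rw [if_pos rfl, if_neg (by simp only; omega), e1 (m + 2) (by omega)]
      ring
    · rw [if_neg (by simpa using h2), if_neg (by simpa using h3),
        e1 i (by omega), e1 (i + 1) (by omega), vecMul_vecMul, hx, vecMul_zero]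
      simp

/-- the columns of the part `L -> R` -/
theorem col_shape (hx : x * x = 0) {M : Matrix ι (Fin (m + 4)) k}
    (h : x * M = M * ShF k (m + 4)) : ∃ a, M = Lc m x a := by
  have e1 : ∀ (i : ℕ) (hi : i + 1 < m + 4),
      (fun r => M r ⟨i + 1, hi⟩) = x *ᵥ (fun r => M r ⟨i, by omega⟩) := by
    intro i hi
    funext r
    have h1 := congrFun (congrFun h r) ⟨i, by omega⟩
    rw [Matrix.mul_apply, Matrix.mul_apply, Finset.sum_eq_single (a := (⟨i + 1, hi⟩ : Fin (m + 4)))]
      at h1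
    · have h2 : ShF k (m + 4) ⟨i + 1, hi⟩ ⟨i, by omega⟩ = 1 := by
        rw [ShF, Matrix.of_apply, if_pos rfl]
      rw [h2, mul_one] at h1
      rw [← h1]
      rfl
    · intro b _ hb
      have h2 : ShF k (m + 4) b ⟨i, by omega⟩ = 0 := by
        rw [ShF, Matrix.of_apply, if_neg]
        intro h3
        exact hb (Fin.ext (by simpa using h3))
      rw [h2, mul_zero]
    · simp
  refine ⟨fun r => M r ⟨0, by omega⟩, ?_⟩
  ext r i
  obtain ⟨i, hi⟩ := i
  rw [Lc, Matrix.add_apply, vecMulVec_apply, vecMulVec_apply, ev, ev]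
  match i, hi with
  | 0, hi => simp
  | 1, hi =>
    rw [if_neg (by simp), if_pos rfl]
    have h3 : M r ⟨1, hi⟩ = (x *ᵥ (fun r => M r ⟨0, by omega⟩)) r := congrFun (e1 0 (by omega)) r
    rw [h3]
    ring
  | i + 2, hi =>
    rw [if_neg (by simp), if_neg (by simp)]
    have h3 : M r ⟨i + 2, hi⟩ = (x *ᵥ (fun r => M r ⟨i + 1, by omega⟩)) r :=
      congrFun (e1 (i + 1) (by omega)) r
    rw [e1 i (by omega), mulVec_mulVec, hx, zero_mulVec] at h3
    rw [h3]
    simp

/-- matrices commuting with the shift -/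
theorem shift_shape {M : Matrix (Fin (m + 4)) (Fin (m + 4)) k}
    (h : ShF k (m + 4) * M = M * ShF k (m + 4)) :
    ∃ p : ℕ → k, M = ∑ t ∈ Finset.range (m + 4), p t • ShF k (m + 4) ^ t := by
  have hl : ∀ (i : ℕ) (hi : i + 1 < m + 4) (j : Fin (m + 4)),
      (ShF k (m + 4) * M) ⟨i + 1, hi⟩ j = M ⟨i, by omega⟩ j := by
    intro i hi j
    rw [Matrix.mul_apply, Finset.sum_eq_single ⟨i, by omega⟩]
    · have h2 : ShF k (m + 4) ⟨i + 1, hi⟩ ⟨i, by omega⟩ = 1 := by
        rw [ShF, Matrix.of_apply, if_pos rfl]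
      rw [h2, one_mul]
    · intro b _ hb
      have h2 : ShF k (m + 4) ⟨i + 1, hi⟩ b = 0 := by
        rw [ShF, Matrix.of_apply, if_neg]
        intro h3
        exact hb (Fin.ext (by simp only at h3 ⊢; omega))
      rw [h2, zero_mul]
    · simp
  have hl0 : ∀ j : Fin (m + 4), (ShF k (m + 4) * M) ⟨0, by omega⟩ j = 0 := by
    intro j
    rw [Matrix.mul_apply]
    refine Finset.sum_eq_zero fun b _ => ?_
    have h2 : ShF k (m + 4) ⟨0, by omega⟩ b = 0 := by
      rw [ShF, Matrix.of_apply, if_neg (by simp)]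
    rw [h2, zero_mul]
  have hr : ∀ (i : Fin (m + 4)) (j : ℕ) (hj : j + 1 < m + 4),
      (M * ShF k (m + 4)) i ⟨j, by omega⟩ = M i ⟨j + 1, hj⟩ := by
    intro i j hj
    rw [Matrix.mul_apply, Finset.sum_eq_single ⟨j + 1, hj⟩]
    · have h2 : ShF k (m + 4) ⟨j + 1, hj⟩ ⟨j, by omega⟩ = 1 := by
        rw [ShF, Matrix.of_apply, if_pos rfl]
      rw [h2, mul_one]
    · intro b _ hb
      have h2 : ShF k (m + 4) b ⟨j, by omega⟩ = 0 := by
        rw [ShF, Matrix.of_apply, if_neg]
        intro h3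
        exact hb (Fin.ext (by simpa using h3))
      rw [h2, mul_zero]
    · simp
  have key : ∀ (j i : ℕ) (hj : j < m + 4) (hi : i < m + 4), M ⟨i, hi⟩ ⟨j, hj⟩ =
      if j ≤ i then M ⟨i - j, by omega⟩ ⟨0, by omega⟩ else 0 := by
    intro j
    induction j with
    | zero =>
      intro i hj hi
      rw [if_pos (Nat.zero_le i)]
      rfl
    | succ j ih =>
      intro i hj hi
      rw [← hr ⟨i, hi⟩ j hj, ← h]
      match i, hi with
      | 0, hi =>
        rw [hl0, if_neg (by omega)]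
      | i + 1, hi =>
        rw [hl i hi, ih i (by omega) (by omega)]
        by_cases h1 : j ≤ i
        · rw [if_pos h1, if_pos (by omega)]
          congr 2
          omega
        · rw [if_neg h1, if_neg (by omega)]
  refine ⟨fun t => if ht : t < m + 4 then M ⟨t, ht⟩ ⟨0, by omega⟩ else 0, ?_⟩
  ext ⟨i, hi⟩ ⟨j, hj⟩
  rw [key j i hj hi, Matrix.sum_apply]
  by_cases h1 : j ≤ i
  · rw [if_pos h1, Finset.sum_eq_single (i - j)]
    · rw [Matrix.smul_apply, ShF_pow, Matrix.of_apply, if_pos (by simp only; omega)]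
      have h2 : i - j < m + 4 := by omega
      show M ⟨i - j, _⟩ ⟨0, _⟩ = (if ht : i - j < m + 4 then M ⟨i - j, ht⟩ ⟨0, by omega⟩ else 0) • 1
      rw [dif_pos h2, smul_eq_mul, mul_one]
    · intro t _ ht
      rw [Matrix.smul_apply, ShF_pow, Matrix.of_apply, if_neg (by simp only; omega)]
      simp
    · intro h2
      exact absurd (Finset.mem_range.2 (by omega)) h2
  · rw [if_neg h1]
    symm
    refine Finset.sum_eq_zero fun t _ => ?_
    rw [Matrix.smul_apply, ShF_pow, Matrix.of_apply, if_neg (by simp only; omega)]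
    simp

end Shape

end Pool.Agent.Lib.D13
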