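import Pool.Agent.Lib.D13.L22S
import Pool.Agent.Lib.D8.T422aA

/-!
# MP_5dcbc3_ag: Jordan types `(l, 2, 2)`, `l` at least `5`: independent vectors `a_B, a_C`
-/

namespace Pool.Agent.Lib.D13

open Matrix Pool.Agent.Lib.Q5dc Pool.Agent.Lib.D7

variable {k : Type*} [Field k]

/-- `2 x 2` unit matrix as a map `R0 -> R1` -/
def XI (k : Type*) [Field k] : Matrix (Fin 2 ⊕ Fin 2) (Fin 2 ⊕ Fin 2) k := XX !![1, 0; 0, 1]

/-- the Jordan matrix of type `(m + 4, 2, 2)` -/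
def JX (k : Type*) [Field k] (m : ℕ) :
    Matrix (Fin (m + 4) ⊕ (Fin 2 ⊕ Fin 2)) (Fin (m + 4) ⊕ (Fin 2 ⊕ Fin 2)) k := LA m (XI k)

/-- two-step matrices commuting with `JX` -/
def EX (m : ℕ) (a0 a1 c0 c1 b0 b1 d0 d1 n00 n01 n10 n11 : k) :
    Matrix (Fin (m + 4) ⊕ (Fin 2 ⊕ Fin 2)) (Fin (m + 4) ⊕ (Fin 2 ⊕ Fin 2)) k :=
  LX m (XI k) (XX !![n00, n01; n10, n11]) (RV a0 a1 c0 c1) (RV d0 d1 b0 b1)

/-- the relations -/
abbrev RelX (a0 a1 c0 c1 b0 b1 d0 d1 n00 n01 n10 n11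
    a0' a1' c0' c1' b0' b1' d0' d1' n00' n01' n10' n11' : k) : Prop :=
  D8.T422aAux.Rel a0 a1 c0 c1 b0 b1 d0 d1 n00 n01 n10 n11
    a0' a1' c0' c1' b0' b1' d0' d1' n00' n01' n10' n11'

section

variable {m : ℕ} {a0 a1 c0 c1 b0 b1 d0 d1 n00 n01 n10 n11
  a0' a1' c0' c1' b0' b1' d0' d1' n00' n01' n10' n11' : k} {ρ : ℕ → ℕ}

theorem XI_mul : XI k * XI k = 0 := XX_mul _ _

theorem XI_RV (e0 e1 h0 h1 : k) : XI k *ᵥ RV e0 e1 h0 h1 = RV 0 0 e0 e1 := by
  rw [XI, XX_RV]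
  congr 1 <;> ring

theorem RV_XI (e0 e1 h0 h1 : k) : RV e0 e1 h0 h1 ᵥ* XI k = RV h0 h1 0 0 := by
  rw [XI, RV_XX]
  congr 1 <;> ring

theorem RV_inj {e0 e1 h0 h1 e0' e1' h0' h1' : k} (h : RV e0 e1 h0 h1 = RV e0' e1' h0' h1') :
    e0 = e0' ∧ e1 = e1' ∧ h0 = h0' ∧ h1 = h1' :=
  ⟨congrFun h (Sum.inl 0), congrFun h (Sum.inl 1), congrFun h (Sum.inr 0), congrFun h (Sum.inr 1)⟩

theorem RV_eta (f : Fin 2 ⊕ Fin 2 → k) :
    f = RV (f (Sum.inl 0)) (f (Sum.inl 1)) (f (Sum.inr 0)) (f (Sum.inr 1)) := by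
  ext (i | i) <;> fin_cases i <;> rfl

theorem LX_rel {ι : Type*} [Fintype ι] [DecidableEq ι] {x G G' : Matrix ι ι k}
    {a a' b b' : ι → k}
    (h : LX m x G a b * LX m x G' a' b' = LX m x G' a' b' * LX m x G a b) :
    G *ᵥ a' = G' *ᵥ a ∧ b ᵥ* G' = b' ᵥ* G ∧ b ⬝ᵥ (x *ᵥ a') = b' ⬝ᵥ (x *ᵥ a) ∧
      b ⬝ᵥ a' = b' ⬝ᵥ a := by
  have d1 : ev k (m + 4) 1 ⬝ᵥ ev k (m + 4) 0 = 0 := by
    rw [ev_dot _ _ _ (by omega), if_neg (by omega)]
  have d2 : ev k (m + 4) (m + 3) ⬝ᵥ ev k (m + 4) (m + 2) = 0 := by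
    rw [ev_dot _ _ _ (by omega), if_neg (by omega)]
  have d3 : ev k (m + 4) (m + 3) ⬝ᵥ ev k (m + 4) (m + 3) = 1 := by
    rw [ev_dot _ _ _ (by omega), if_pos rfl]
  have d4 : ev k (m + 4) 0 ⬝ᵥ ev k (m + 4) 0 = 1 := by
    rw [ev_dot _ _ _ (by omega), if_pos rfl]
  have c1 : ∀ (G : Matrix ι ι k) (a b : ι → k), LX m x G a b *ᵥ Sum.elim (ev k (m + 4) 0) 0 =
      Sum.elim (0 : Fin (m + 4) → k) a := by
    intro G a b
    rw [LX_mulVec, d1, d4]
    simp
  have c2 : ∀ (G : Matrix ι ι k) (a b a' : ι → k), LX m x G a b *ᵥ Sum.elim 0 a' =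
      Sum.elim ((b ⬝ᵥ (x *ᵥ a')) • ev k (m + 4) (m + 2) + (b ⬝ᵥ a') • ev k (m + 4) (m + 3))
        (G *ᵥ a') := by
    intro G a b a'
    rw [LX_mulVec]
    simp
  have c3 : ∀ (G : Matrix ι ι k) (a b : ι → k), Sum.elim (ev k (m + 4) (m + 3)) 0 ᵥ* LX m x G a b =
      Sum.elim (0 : Fin (m + 4) → k) b := by
    intro G a b
    rw [vecMul_LX, d2, d3]
    simp
  have c4 : ∀ (G : Matrix ι ι k) (a b b' : ι → k), Sum.elim 0 b' ᵥ* LX m x G a b =
      Sum.elim ((b' ⬝ᵥ a) • ev k (m + 4) 0 + (b' ⬝ᵥ (x *ᵥ a)) • ev k (m + 4) 1)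
        (b' ᵥ* G) := by
    intro G a b b'
    rw [vecMul_LX]
    simp
  have h1 := congrArg (fun M => M *ᵥ Sum.elim (ev k (m + 4) 0) 0) h
  have h2 := congrArg (fun M => Sum.elim (ev k (m + 4) (m + 3)) 0 ᵥ* M) h
  simp only [← mulVec_mulVec, ← vecMul_vecMul, c1, c2, c3, c4] at h1 h2
  refine ⟨?_, ?_, ?_, ?_⟩
  · funext i
    exact congrFun h1 (Sum.inr i)
  · funext i
    exact congrFun h2 (Sum.inr i)
  · have e := congrFun h1 (Sum.inl ⟨m + 2, by omega⟩)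
    simpa [ev] using e
  · have e := congrFun h1 (Sum.inl ⟨m + 3, by omega⟩)
    simpa [ev] using e

theorem EX_rel (h : EX m a0 a1 c0 c1 b0 b1 d0 d1 n00 n01 n10 n11 *
      EX m a0' a1' c0' c1' b0' b1' d0' d1' n00' n01' n10' n11' =
      EX m a0' a1' c0' c1' b0' b1' d0' d1' n00' n01' n10' n11' *
        EX m a0 a1 c0 c1 b0 b1 d0 d1 n00 n01 n10 n11) :
    RelX a0 a1 c0 c1 b0 b1 d0 d1 n00 n01 n10 n11
      a0' a1' c0' c1' b0' b1' d0' d1' n00' n01' n10' n11' := by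
  obtain ⟨h1, h2, h3, h4⟩ := LX_rel h
  rw [XX_RV, XX_RV] at h1
  rw [RV_XX, RV_XX] at h2
  rw [XI_RV, XI_RV, RV_dot, RV_dot] at h3
  rw [RV_dot, RV_dot] at h4
  obtain ⟨-, -, e1, e2⟩ := RV_inj h1
  obtain ⟨e3, e4, -, -⟩ := RV_inj h2
  exact ⟨by linear_combination h3, by linear_combination h4, e1, e2, e3, e4⟩

theorem EX_cn (h : RelX a0 a1 c0 c1 b0 b1 d0 d1 n00 n01 n10 n11
      a0' a1' c0' c1' b0' b1' d0' d1' n00' n01' n10' n11') :
    CN ![JX k m, EX m a0 a1 c0 c1 b0 b1 d0 d1 n00 n01 n10 n11,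
      EX m a0' a1' c0' c1' b0' b1' d0' d1' n00' n01' n10' n11'] := by
  refine LX_cn XI_mul ?_ ?_ ⟨2, ?_⟩ ⟨2, ?_⟩ ?_ ?_ ?_ ?_ ?_
  · rw [XI, XX_mul, XX_mul]
  · rw [XI, XX_mul, XX_mul]
  · rw [pow_two, XX_mul]
  · rw [pow_two, XX_mul]
  · rw [XX_mul, XX_mul]
  · rw [XX_RV, XX_RV]
    congr 1
    · exact h.h3
    · exact h.h3'
  · rw [RV_XX, RV_XX]
    congr 1
    · exact h.h4
    · exact h.h4'
  · rw [XI_RV, XI_RV, RV_dot, RV_dot]
    linear_combination h.h1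
  · rw [RV_dot, RV_dot]
    linear_combination h.h2

theorem EX_add_smul (s : k) : EX m a0 a1 c0 c1 b0 b1 d0 d1 n00 n01 n10 n11 +
    s • EX m a0' a1' c0' c1' b0' b1' d0' d1' n00' n01' n10' n11' =
    EX m (a0 + s * a0') (a1 + s * a1') (c0 + s * c0') (c1 + s * c1')
      (b0 + s * b0') (b1 + s * b1') (d0 + s * d0') (d1 + s * d1')
      (n00 + s * n00') (n01 + s * n01') (n10 + s * n10') (n11 + s * n11') := by
  rw [EX, EX, LX_add_smul, XX_line, RV_smul, RV_smul, RV_add, RV_add, EX]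
  congr 2
  ext i j
  fin_cases i <;> fin_cases j <;> simp

theorem EX_sub_smul (s : k) : EX m a0 a1 c0 c1 b0 b1 d0 d1 n00 n01 n10 n11 -
    s • EX m a0' a1' c0' c1' b0' b1' d0' d1' n00' n01' n10' n11' =
    EX m (a0 - s * a0') (a1 - s * a1') (c0 - s * c0') (c1 - s * c1')
      (b0 - s * b0') (b1 - s * b1') (d0 - s * d0') (d1 - s * d1')
      (n00 - s * n00') (n01 - s * n01') (n10 - s * n10') (n11 - s * n11') := by
  have h := EX_add_smul (m := m) (a0 := a0) (a1 := a1) (c0 := c0) (c1 := c1) (b0 := b0) (b1 := b1)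
    (d0 := d0) (d1 := d1) (n00 := n00) (n01 := n01) (n10 := n10) (n11 := n11) (a0' := a0')
    (a1' := a1') (c0' := c0') (c1' := c1') (b0' := b0') (b1' := b1') (d0' := d0') (d1' := d1')
    (n00' := n00') (n01' := n01') (n10' := n10') (n11' := n11') (-s)
  rw [neg_smul, ← sub_eq_add_neg] at h
  rw [h]
  congr 1 <;> ring

/-- moving `B` and `C` along a line -/
theorem EX_line [Infinite k] {x0 x1 y0 y1 z0 z1 w0 w1 r00 r01 r10 r11
      x0' x1' y0' y1' z0' z1' w0' w1' r00' r01' r10' r11' : k} {F : Set k} (hF : F.Finite)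
    (hT : MaxR ρ ![JX k m, EX m a0 a1 c0 c1 b0 b1 d0 d1 n00 n01 n10 n11,
      EX m a0' a1' c0' c1' b0' b1' d0' d1' n00' n01' n10' n11'])
    (h : ∀ s : k, RelX (a0 + s * x0) (a1 + s * x1) (c0 + s * y0) (c1 + s * y1)
      (b0 + s * z0) (b1 + s * z1) (d0 + s * w0) (d1 + s * w1)
      (n00 + s * r00) (n01 + s * r01) (n10 + s * r10) (n11 + s * r11)
      (a0' + s * x0') (a1' + s * x1') (c0' + s * y0') (c1' + s * y1')
      (b0' + s * z0') (b1' + s * z1') (d0' + s * w0') (d1' + s * w1')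
      (n00' + s * r00') (n01' + s * r01') (n10' + s * r10') (n11' + s * r11')) :
    ∃ s, s ∉ F ∧ MaxR ρ ![JX k m, EX m (a0 + s * x0) (a1 + s * x1) (c0 + s * y0) (c1 + s * y1)
      (b0 + s * z0) (b1 + s * z1) (d0 + s * w0) (d1 + s * w1)
      (n00 + s * r00) (n01 + s * r01) (n10 + s * r10) (n11 + s * r11),
      EX m (a0' + s * x0') (a1' + s * x1') (c0' + s * y0') (c1' + s * y1')
      (b0' + s * z0') (b1' + s * z1') (d0' + s * w0') (d1' + s * w1')
      (n00' + s * r00') (n01' + s * r01') (n10' + s * r10') (n11' + s * r11')] := by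
  obtain ⟨s, hs, h1⟩ := D8.MaxR.line2 hT (EX m x0 x1 y0 y1 z0 z1 w0 w1 r00 r01 r10 r11)
    (EX m x0' x1' y0' y1' z0' z1' w0' w1' r00' r01' r10' r11') (fun s => by
      rw [EX_add_smul, EX_add_smul]
      exact EX_cn (h s)) hF
  rw [EX_add_smul, EX_add_smul] at h1
  exact ⟨s, hs, h1⟩

end

/-- `ρ 2` is the rank of the square of the Jordan matrix -/
def Rk (k : Type*) [Field k] (m : ℕ) (ρ : ℕ → ℕ) : Prop :=
  ρ 2 ≤ ((fromBlocks (ShF k (m + 4) ^ 2) 0 0 0 :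
    Matrix (Fin (m + 4) ⊕ (Fin 2 ⊕ Fin 2)) (Fin (m + 4) ⊕ (Fin 2 ⊕ Fin 2)) k)).rank

namespace L22IAux

variable {m : ℕ} {ρ : ℕ → ℕ}

/-- independent `b_B, b_C` -/
theorem ind_b [IsAlgClosed k] [CharZero k] (hm : 1 ≤ m) (hρ : Rk k m ρ)
    {b00 b01 b11 d0 d1 d2 n00 n01 n10 n11 m01 m11 : k} (hD : b00 * b11 - b01 * b01 ≠ 0)
    (h1 : b00 * n01 + b01 * n11 = b01 * n00 + b11 * n10)
    (h2 : b00 * m01 + b01 * m11 = b01 * n01 + b11 * n11)
    (hT : MaxR ρ ![JX k m, EX m 1 0 0 0 b00 b01 d0 d1 n00 n01 n10 n11,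
      EX m 0 1 0 0 b01 b11 d1 d2 n01 m01 n11 m11]) : False := by
  obtain ⟨t, ht⟩ : ∃ t, t * (b00 * b11 - b01 * b01) = 1 := ⟨_, inv_mul_cancel₀ hD⟩
  have hU : fromBlocks (1 : Matrix (Fin 2) (Fin 2) k) 0 0 !![b00, b01; b01, b11] *
      fromBlocks (1 : Matrix (Fin 2) (Fin 2) k) 0 0
        !![t * b11, -(t * b01); -(t * b01), t * b00] = 1 := by
    rw [fromBlocks_multiply, ← fromBlocks_one]
    congr 1
    · simp
    · simp
    · simp
    · ext i j
      fin_cases i <;> fin_cases j <;> simp [Matrix.mul_apply, Fin.sum_univ_two]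
      all_goals first
        | ring1
        | linear_combination ht
  have hx : ∀ p q r s : k, XX !![p, q; r, s] * fromBlocks (1 : Matrix (Fin 2) (Fin 2) k) 0 0
        !![t * b11, -(t * b01); -(t * b01), t * b00] =
      fromBlocks (1 : Matrix (Fin 2) (Fin 2) k) 0 0
        !![t * b11, -(t * b01); -(t * b01), t * b00] *
        XX !![b00 * p + b01 * r, b00 * q + b01 * s; b01 * p + b11 * r, b01 * q + b11 * s] := by
    intro p q r s
    rw [XX, XX, fromBlocks_multiply, fromBlocks_multiply]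
    congr 1
    · simp
    · simp
    · ext i j
      fin_cases i <;> fin_cases j <;> simp [Matrix.mul_apply, Fin.sum_univ_two]
      · linear_combination (-p) * ht
      · linear_combination (-q) * ht
      · linear_combination (-r) * ht
      · linear_combination (-s) * ht
    · simp
  have hv : ∀ p q : k, RV p q 0 0 = fromBlocks (1 : Matrix (Fin 2) (Fin 2) k) 0 0
        !![t * b11, -(t * b01); -(t * b01), t * b00] *ᵥ RV p q 0 0 := by
    intro p q
    rw [RV, fromBlocks_mulVec]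
    ext (i | i) <;> fin_cases i <;> simp
  have hv' : ∀ p q r s : k, RV p q r s ᵥ* fromBlocks (1 : Matrix (Fin 2) (Fin 2) k) 0 0
        !![t * b11, -(t * b01); -(t * b01), t * b00] =
      RV p q (r * (t * b11) - s * (t * b01)) (-(r * (t * b01)) + s * (t * b00)) := by
    intro p q r s
    rw [RV, RV, vecMul_fromBlocks]
    ext (i | i) <;> fin_cases i <;> simp [sub_eq_add_neg]
  have key : MaxR ρ ![NA m b00 b01 b11, NB m b00 b01 b11 (b00 * n00 + b01 * n10)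
      (b00 * n01 + b01 * n11) (b01 * n01 + b11 * n11) d0 d1,
      NC m b00 b01 b11 (b00 * n01 + b01 * n11) (b01 * n01 + b11 * n11) (b01 * m01 + b11 * m11)
        d1 d2] := by
    refine MaxR.conj3
      (g := fromBlocks 1 0 0 (fromBlocks (1 : Matrix (Fin 2) (Fin 2) k) 0 0
        !![b00, b01; b01, b11]))
      (h := fromBlocks 1 0 0 (fromBlocks (1 : Matrix (Fin 2) (Fin 2) k) 0 0
        !![t * b11, -(t * b01); -(t * b01), t * b00])) ?_ ?_ ?_ ?_ hT
    · rw [fromBlocks_multiply, hU]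
      simp
    · refine LA_conj ?_
      rw [XI, hx]
      congr 3
      ext i j
      fin_cases i <;> fin_cases j <;> simp
    · refine LX_conj ?_ ?_ (hv _ _) ?_
      · rw [XI, hx]
        congr 3
        ext i j
        fin_cases i <;> fin_cases j <;> simp
      · rw [hx]
        congr 3
        ext i j
        fin_cases i <;> fin_cases j <;> simp
        exact h1.symm
      · rw [hv']
        congr 1
        · linear_combination ht
        · ring
    · refine LX_conj ?_ ?_ (hv _ _) ?_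
      · rw [XI, hx]
        congr 3
        ext i j
        fin_cases i <;> fin_cases j <;> simp
      · rw [hx]
        congr 3
        ext i j
        fin_cases i <;> fin_cases j <;> simp
        exact h2
      · rw [hv']
        congr 1
        · ring
        · linear_combination ht
  exact std22 hm hρ key

/-- `b_B` and `b_C` not both zero -/
theorem ind_ne [IsAlgClosed k] [CharZero k] (hm : 1 ≤ m) (hρ : Rk k m ρ)
    {b00 b01 b11 d0 d1 d2 n00 n01 n10 n11 m01 m11 : k} (hb : b00 ≠ 0 ∨ b01 ≠ 0 ∨ b11 ≠ 0)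
    (h1 : b00 * n01 + b01 * n11 = b01 * n00 + b11 * n10)
    (h2 : b00 * m01 + b01 * m11 = b01 * n01 + b11 * n11)
    (hT : MaxR ρ ![JX k m, EX m 1 0 0 0 b00 b01 d0 d1 n00 n01 n10 n11,
      EX m 0 1 0 0 b01 b11 d1 d2 n01 m01 n11 m11]) : False := by
  have : Infinite k := IsAlgClosed.instInfinite
  by_cases hD : b00 * b11 - b01 * b01 = 0
  · by_cases h00 : b00 = 0
    · have h01 : b01 = 0 := by
        rw [h00, zero_mul, zero_sub, neg_eq_zero, mul_self_eq_zero] at hD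
        exact hD
      have h11 : b11 ≠ 0 := by
        rcases hb with h | h | h
        · exact absurd h00 h
        · exact absurd h01 h
        · exact h
      subst h00 h01
      obtain ⟨u, hu⟩ : ∃ u, b11 * u = n01 := ⟨n01 / b11, mul_div_cancel₀ _ h11⟩
      obtain ⟨v, hv⟩ : ∃ v, b11 * v = m01 := ⟨m01 / b11, mul_div_cancel₀ _ h11⟩
      obtain ⟨s, hs, h3⟩ := EX_line (x0 := 0) (x1 := 0) (y0 := 0) (y1 := 0) (z0 := 1) (z1 := 0)
        (w0 := 0) (w1 := 0) (r00 := 0) (r01 := 0) (r10 := u) (r11 := v)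
        (x0' := 0) (x1' := 0) (y0' := 0) (y1' := 0) (z0' := 0) (z1' := 0)
        (w0' := 0) (w1' := 0) (r00' := 0) (r01' := 0) (r10' := v) (r11' := 0)
        (Set.finite_singleton (0 : k)) hT (fun s => by
          refine ⟨?_, ?_, ?_, ?_, ?_, ?_⟩
          · ring
          · ring
          · ring
          · ring
          · linear_combination h1 - s * hu
          · linear_combination h2 - s * hv)
      simp only [mul_zero, add_zero, zero_add, mul_one] at h3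
      have hs0 : s ≠ 0 := hs
      refine ind_b hm hρ (b00 := s) (b01 := 0) (b11 := b11) ?_ ?_ ?_ h3
      · rw [zero_mul, sub_zero]
        exact mul_ne_zero hs0 h11
      · linear_combination h1 - s * hu
      · linear_combination h2 - s * hv
    · obtain ⟨u, hu⟩ : ∃ u, b00 * u = n10 := ⟨n10 / b00, mul_div_cancel₀ _ h00⟩
      obtain ⟨v, hv⟩ : ∃ v, b00 * v = b01 * u + n11 := ⟨_ / b00, mul_div_cancel₀ _ h00⟩
      obtain ⟨s, hs, h3⟩ := EX_line (x0 := 0) (x1 := 0) (y0 := 0) (y1 := 0) (z0 := 0) (z1 := 0)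
        (w0 := 0) (w1 := 0) (r00 := 0) (r01 := u) (r10 := 0) (r11 := 0)
        (x0' := 0) (x1' := 0) (y0' := 0) (y1' := 0) (z0' := 0) (z1' := 1)
        (w0' := 0) (w1' := 0) (r00' := u) (r01' := v)
        (r10' := 0) (r11' := 0)
        (Set.finite_singleton (0 : k)) hT (fun s => by
          refine ⟨?_, ?_, ?_, ?_, ?_, ?_⟩
          · ring
          · ring
          · ring
          · ring
          · linear_combination h1 + s * hu
          · linear_combination h2 + s * hv)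
      simp only [mul_zero, add_zero, mul_one] at h3
      have hs0 : s ≠ 0 := hs
      refine ind_b hm hρ (b00 := b00) (b01 := b01) (b11 := b11 + s) ?_ ?_ ?_ h3
      · have e : b00 * (b11 + s) - b01 * b01 = b00 * s := by linear_combination hD
        rw [e]
        exact mul_ne_zero h00 hs0
      · linear_combination h1 + s * hu
      · linear_combination h2 + s * hv
  · exact ind_b hm hρ hD h1 h2 hT

theorem exists_sol3 (p q : Fin 3 → k) : ∃ x y z : k, (x ≠ 0 ∨ y ≠ 0 ∨ z ≠ 0) ∧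
    p 0 * x + p 1 * y + p 2 * z = 0 ∧ q 0 * x + q 1 * y + q 2 * z = 0 := by
  obtain ⟨v, hv0, hv⟩ := Matrix.exists_mulVec_eq_zero_iff.2
    (show (!![p 0, p 1, p 2; q 0, q 1, q 2; 0, 0, 0] :
      Matrix (Fin 3) (Fin 3) k).det = 0 from
      Matrix.det_eq_zero_of_row_eq_zero 2 (fun j => by fin_cases j <;> rfl))
  have e1 := congrFun hv 0
  have e2 := congrFun hv 1
  simp [Matrix.mulVec, dotProduct, Fin.sum_univ_succ] at e1 e2
  refine ⟨v 0, v 1, v 2, ?_, by linear_combination e1, by linear_combination e2⟩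
  by_contra hcon
  push Not at hcon
  apply hv0
  funext i
  fin_cases i
  · exact hcon.1
  · exact hcon.2.1
  · exact hcon.2.2

/-- `a_B = e_0`, `a_C = e_1` -/
theorem ind_nf [IsAlgClosed k] [CharZero k] (hm : 1 ≤ m) (hρ : Rk k m ρ)
    {b00 b01 b11 d0 d1 d2 n00 n01 n10 n11 m01 m11 : k}
    (h1 : b00 * n01 + b01 * n11 = b01 * n00 + b11 * n10)
    (h2 : b00 * m01 + b01 * m11 = b01 * n01 + b11 * n11)
    (hT : MaxR ρ ![JX k m, EX m 1 0 0 0 b00 b01 d0 d1 n00 n01 n10 n11,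
      EX m 0 1 0 0 b01 b11 d1 d2 n01 m01 n11 m11]) : False := by
  have : Infinite k := IsAlgClosed.instInfinite
  by_cases hb : b00 ≠ 0 ∨ b01 ≠ 0 ∨ b11 ≠ 0
  · exact ind_ne hm hρ hb h1 h2 hT
  · push Not at hb
    obtain ⟨rfl, rfl, rfl⟩ := hb
    obtain ⟨x, y, z, h0, h3, h4⟩ := exists_sol3 ![n01, n11 - n00, -n10] ![m01, m11 - n01, -n11]
    simp only [Matrix.cons_val] at h3 h4
    obtain ⟨s, hs, h5⟩ := EX_line (x0 := 0) (x1 := 0) (y0 := 0) (y1 := 0) (z0 := x) (z1 := y)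
        (w0 := 0) (w1 := 0) (r00 := 0) (r01 := 0) (r10 := 0) (r11 := 0)
        (x0' := 0) (x1' := 0) (y0' := 0) (y1' := 0) (z0' := y) (z1' := z)
        (w0' := 0) (w1' := 0) (r00' := 0) (r01' := 0) (r10' := 0) (r11' := 0)
        (Set.finite_singleton (0 : k)) hT (fun s => by
          refine ⟨?_, ?_, ?_, ?_, ?_, ?_⟩
          · ring
          · ring
          · ring
          · ring
          · linear_combination s * h3
          · linear_combination s * h4)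
    simp only [mul_zero, add_zero, zero_add] at h5
    have hs0 : s ≠ 0 := hs
    refine ind_ne hm hρ (b00 := s * x) (b01 := s * y) (b11 := s * z) ?_ ?_ ?_ h5
    · rcases h0 with h | h | h
      · exact Or.inl (mul_ne_zero hs0 h)
      · exact Or.inr (Or.inl (mul_ne_zero hs0 h))
      · exact Or.inr (Or.inr (mul_ne_zero hs0 h))
    · linear_combination s * h3
    · linear_combination s * h4

end L22IAux

open L22IAux

/-- independent `a_B, a_C` -/
theorem indX [IsAlgClosed k] [CharZero k] {m : ℕ} {ρ : ℕ → ℕ} (hm : 1 ≤ m) (hρ : Rk k m ρ)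
    {a0 a1 c0 c1 b0 b1 d0 d1 n00 n01 n10 n11
      a0' a1' c0' c1' b0' b1' d0' d1' n00' n01' n10' n11' : k}
    (h : RelX a0 a1 c0 c1 b0 b1 d0 d1 n00 n01 n10 n11
      a0' a1' c0' c1' b0' b1' d0' d1' n00' n01' n10' n11')
    (hD : a0 * a1' - a1 * a0' ≠ 0)
    (hT : MaxR ρ ![JX k m, EX m a0 a1 c0 c1 b0 b1 d0 d1 n00 n01 n10 n11,
      EX m a0' a1' c0' c1' b0' b1' d0' d1' n00' n01' n10' n11']) : False := by
  obtain ⟨t, ht⟩ : ∃ t, t * (a0 * a1' - a1 * a0') = 1 := ⟨_, inv_mul_cancel₀ hD⟩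
  obtain ⟨U, hU⟩ : ∃ U : Matrix (Fin 2) (Fin 2) k, U = !![a0, a0'; a1, a1'] := ⟨_, rfl⟩
  obtain ⟨V, hV⟩ : ∃ V : Matrix (Fin 2) (Fin 2) k,
    V = !![t * a1', -(t * a0'); -(t * a1), t * a0] := ⟨_, rfl⟩
  obtain ⟨W, hW⟩ : ∃ W : Matrix (Fin 2) (Fin 2) k, W = !![c0, c0'; c1, c1'] := ⟨_, rfl⟩
  have hVU : V * U = 1 := by
    rw [hU, hV]
    ext i j
    fin_cases i <;> fin_cases j <;> simp [Matrix.mul_apply, Fin.sum_univ_two]
    all_goals first
      | ring1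
      | linear_combination ht
  have hUV : U * V = 1 := mul_eq_one_comm.1 hVU
  have hg : fromBlocks V 0 (-(V * W * V)) V * fromBlocks U 0 W U =
      (1 : Matrix (Fin 2 ⊕ Fin 2) (Fin 2 ⊕ Fin 2) k) := by
    rw [fromBlocks_multiply, ← fromBlocks_one]
    congr 1
    · simp [hVU]
    · simp
    · rw [Matrix.neg_mul, Matrix.mul_assoc, hVU]
      simp
    · simp [hVU]
  have hx : ∀ Z : Matrix (Fin 2) (Fin 2) k,
      XX Z * fromBlocks U 0 W U = fromBlocks U 0 W U * XX (V * Z * U) := by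
    intro Z
    rw [XX, XX, fromBlocks_multiply, fromBlocks_multiply]
    congr 1
    · simp
    · simp
    · rw [← Matrix.mul_assoc, ← Matrix.mul_assoc, hUV]
      simp
    · simp
  have hI : V * !![1, 0; 0, 1] * U = (!![1, 0; 0, 1] : Matrix (Fin 2) (Fin 2) k) := by
    have e : (!![1, 0; 0, 1] : Matrix (Fin 2) (Fin 2) k) = 1 := by
      ext i j
      fin_cases i <;> fin_cases j <;> rfl
    rw [e, Matrix.mul_one, hVU]
  have hxI : XI k * fromBlocks U 0 W U = fromBlocks U 0 W U * XI k := by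
    rw [XI, hx, hI]
  obtain ⟨p00, p01, p10, p11, hp⟩ : ∃ p00 p01 p10 p11 : k,
      V * !![n00, n01; n10, n11] * U = !![p00, p01; p10, p11] :=
    ⟨_, _, _, _, (Matrix.eta_fin_two _)⟩
  obtain ⟨q00, q01, q10, q11, hq⟩ : ∃ q00 q01 q10 q11 : k,
      V * !![n00', n01'; n10', n11'] * U = !![q00, q01; q10, q11] :=
    ⟨_, _, _, _, (Matrix.eta_fin_two _)⟩
  obtain ⟨x0, x1, y0, y1, hb⟩ : ∃ x0 x1 y0 y1 : k,
      RV d0 d1 b0 b1 ᵥ* fromBlocks U 0 W U = RV x0 x1 y0 y1 := ⟨_, _, _, _, RV_eta _⟩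
  obtain ⟨x0', x1', y0', y1', hb'⟩ : ∃ x0 x1 y0 y1 : k,
      RV d0' d1' b0' b1' ᵥ* fromBlocks U 0 W U = RV x0 x1 y0 y1 := ⟨_, _, _, _, RV_eta _⟩
  have key : MaxR ρ ![JX k m, EX m 1 0 0 0 y0 y1 x0 x1 p00 p01 p10 p11,
      EX m 0 1 0 0 y0' y1' x0' x1' q00 q01 q10 q11] := by
    refine MaxR.conj3
      (g := fromBlocks 1 0 0 (fromBlocks V 0 (-(V * W * V)) V))
      (h := fromBlocks 1 0 0 (fromBlocks U 0 W U)) ?_ ?_ ?_ ?_ hT
    · rw [fromBlocks_multiply, hg]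
      simp
    · exact LA_conj hxI
    · refine LX_conj hxI (by rw [hx, hp]) ?_ hb
      rw [RV, RV, fromBlocks_mulVec, hU, hW]
      ext (i | i) <;> fin_cases i <;> simp
    · refine LX_conj hxI (by rw [hx, hq]) ?_ hb'
      rw [RV, RV, fromBlocks_mulVec, hU, hW]
      ext (i | i) <;> fin_cases i <;> simp
  have hr := EX_rel (key.cn.1 1 2)
  obtain ⟨r1, r2, r3, r3', r4, r4'⟩ := hr
  have e1 : q00 = p01 := by linear_combination -r3
  have e2 : q10 = p11 := by linear_combination -r3'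
  have e3 : y0' = y1 := by linear_combination -r1
  have e4 : x0' = x1 := by linear_combination -r2
  subst e1 e2 e3 e4
  exact ind_nf hm hρ (by linear_combination r4) (by linear_combination r4') key

end Pool.Agent.Lib.D13
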