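import Pool.Agent.Lib.D13.L22V

/-!
# MP_5dcbc3_ag: Jordan types `(l, 2, 2)`, `l` at least `5`: the raise

Normal form with independent `a_B, a_C` and independent `b_B, b_C`: `x = S`, `G_B`, `G_C` are
symmetric `2 x 2` matrices, the coefficients of a binary cubic form. If `C` is a simple root of the
cubic form and `S_CC` is not zero, then with `P = p A + q B + r C`, `D = C + α A^(l-3) + β A^(l-2)`,
`P D = 0`, there is a matrix `N` commuting with `P` and `D` such that the square of `A + s N` has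
bigger rank than the square of `A`.
-/

namespace Pool.Agent.Lib.D13

open Matrix Pool.Agent.Lib.Q5dc Pool.Agent.Lib.D7

variable {k : Type*} [Field k]

/-- `R0 -> R1` -/
def XX (S : Matrix (Fin 2) (Fin 2) k) : Matrix (Fin 2 ⊕ Fin 2) (Fin 2 ⊕ Fin 2) k :=
  fromBlocks 0 0 S 0

/-- the vector with the coordinates `e0, e1` in `R0` and `h0, h1` in `R1` -/
def RV (e0 e1 h0 h1 : k) : Fin 2 ⊕ Fin 2 → k := Sum.elim ![e0, e1] ![h0, h1]

theorem XX_mul (S S' : Matrix (Fin 2) (Fin 2) k) : XX S * XX S' = 0 := by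
  rw [XX, XX, fromBlocks_multiply]
  simp

theorem XX_RV (s00 s01 s10 s11 e0 e1 h0 h1 : k) :
    XX !![s00, s01; s10, s11] *ᵥ RV e0 e1 h0 h1 = RV 0 0 (s00 * e0 + s01 * e1)
      (s10 * e0 + s11 * e1) := by
  rw [XX, RV, RV, fromBlocks_mulVec]
  ext (i | i) <;> fin_cases i <;> simp [mul_comm]

theorem RV_XX (s00 s01 s10 s11 e0 e1 h0 h1 : k) :
    RV e0 e1 h0 h1 ᵥ* XX !![s00, s01; s10, s11] = RV (h0 * s00 + h1 * s10)
      (h0 * s01 + h1 * s11) 0 0 := by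
  rw [XX, RV, RV, vecMul_fromBlocks]
  ext (i | i) <;> fin_cases i <;> simp

theorem RV_dot (e0 e1 h0 h1 e0' e1' h0' h1' : k) :
    RV e0 e1 h0 h1 ⬝ᵥ RV e0' e1' h0' h1' = e0 * e0' + e1 * e1' + (h0 * h0' + h1 * h1') := by
  simp [RV, dotProduct, Fin.sum_univ_two]

theorem RV_add (e0 e1 h0 h1 e0' e1' h0' h1' : k) :
    RV e0 e1 h0 h1 + RV e0' e1' h0' h1' = RV (e0 + e0') (e1 + e1') (h0 + h0') (h1 + h1') := by
  ext (i | i) <;> fin_cases i <;> simp [RV]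

theorem RV_smul (c e0 e1 h0 h1 : k) :
    c • RV e0 e1 h0 h1 = RV (c * e0) (c * e1) (c * h0) (c * h1) := by
  ext (i | i) <;> fin_cases i <;> simp [RV]

theorem RV_zero : RV (0 : k) 0 0 0 = 0 := by
  ext (i | i) <;> fin_cases i <;> simp [RV]

/-- the first matrix of the normal form -/
def NA (m : ℕ) (s11 s12 s22 : k) :
    Matrix (Fin (m + 4) ⊕ (Fin 2 ⊕ Fin 2)) (Fin (m + 4) ⊕ (Fin 2 ⊕ Fin 2)) k :=
  LA m (XX !![s11, s12; s12, s22])

/-- the second matrix of the normal form -/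
def NB (m : ℕ) (s11 s12 s22 t0 t1 t2 d0 d1 : k) :
    Matrix (Fin (m + 4) ⊕ (Fin 2 ⊕ Fin 2)) (Fin (m + 4) ⊕ (Fin 2 ⊕ Fin 2)) k :=
  LX m (XX !![s11, s12; s12, s22]) (XX !![t0, t1; t1, t2]) (RV 1 0 0 0) (RV d0 d1 1 0)

/-- the third matrix of the normal form -/
def NC (m : ℕ) (s11 s12 s22 t1 t2 t3 d1 d2 : k) :
    Matrix (Fin (m + 4) ⊕ (Fin 2 ⊕ Fin 2)) (Fin (m + 4) ⊕ (Fin 2 ⊕ Fin 2)) k :=
  LX m (XX !![s11, s12; s12, s22]) (XX !![t1, t2; t2, t3]) (RV 0 1 0 0) (RV d1 d2 0 1)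

namespace L22RAux

theorem el_add {α β : Type*} (a a' : α → k) (b b' : β → k) :
    Sum.elim a b + Sum.elim a' b' = Sum.elim (a + a') (b + b') := by
  ext (i | i) <;> rfl

theorem el_smul {α β : Type*} (c : k) (a : α → k) (b : β → k) :
    c • Sum.elim a b = Sum.elim (c • a) (c • b) := by
  ext (i | i) <;> rfl

theorem el_dot {α β : Type*} [Fintype α] [Fintype β] (a a' : α → k) (b b' : β → k) :
    Sum.elim a b ⬝ᵥ Sum.elim a' b' = a ⬝ᵥ a' + b ⬝ᵥ b' := by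
  simp [dotProduct]

variable {m : ℕ} {s11 s12 s22 t0 t1 t2 t3 d0 d1 d2 : k} (v : Fin (m + 4) → k)
  (e0 e1 h0 h1 : k)

theorem NA_v : NA m s11 s12 s22 *ᵥ Sum.elim v (RV e0 e1 h0 h1) =
    Sum.elim (ShF k (m + 4) *ᵥ v) (RV 0 0 (s11 * e0 + s12 * e1) (s12 * e0 + s22 * e1)) := by
  rw [NA, LA_mulVec, XX_RV]

theorem NB_v : NB m s11 s12 s22 t0 t1 t2 d0 d1 *ᵥ Sum.elim v (RV e0 e1 h0 h1) =
    Sum.elim ((s11 * e0 + s12 * e1) • ev k (m + 4) (m + 2) +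
      (d0 * e0 + d1 * e1 + h0) • ev k (m + 4) (m + 3))
      (RV (ev k (m + 4) 0 ⬝ᵥ v) 0 ((ev k (m + 4) 1 ⬝ᵥ v) * s11 + (t0 * e0 + t1 * e1))
        ((ev k (m + 4) 1 ⬝ᵥ v) * s12 + (t1 * e0 + t2 * e1))) := by
  rw [NB, LX_mulVec, XX_RV, XX_RV, XX_RV, RV_dot, RV_dot, RV_smul, RV_smul, RV_add, RV_add]
  congr 2
  · simp
  · congr 1
    ring
  all_goals ring

theorem NC_v : NC m s11 s12 s22 t1 t2 t3 d1 d2 *ᵥ Sum.elim v (RV e0 e1 h0 h1) =
    Sum.elim ((s12 * e0 + s22 * e1) • ev k (m + 4) (m + 2) +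
      (d1 * e0 + d2 * e1 + h1) • ev k (m + 4) (m + 3))
      (RV 0 (ev k (m + 4) 0 ⬝ᵥ v) ((ev k (m + 4) 1 ⬝ᵥ v) * s12 + (t1 * e0 + t2 * e1))
        ((ev k (m + 4) 1 ⬝ᵥ v) * s22 + (t2 * e0 + t3 * e1))) := by
  rw [NC, LX_mulVec, XX_RV, XX_RV, XX_RV, RV_dot, RV_dot, RV_smul, RV_smul, RV_add, RV_add]
  congr 2
  · simp
  · congr 1
    ring
  all_goals ring

theorem v_NA : Sum.elim v (RV e0 e1 h0 h1) ᵥ* NA m s11 s12 s22 =
    Sum.elim (v ᵥ* ShF k (m + 4)) (RV (h0 * s11 + h1 * s12) (h0 * s12 + h1 * s22) 0 0) := by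
  rw [NA, vecMul_LA, RV_XX]

theorem v_NB : Sum.elim v (RV e0 e1 h0 h1) ᵥ* NB m s11 s12 s22 t0 t1 t2 d0 d1 =
    Sum.elim (e0 • ev k (m + 4) 0 + (h0 * s11 + h1 * s12) • ev k (m + 4) 1)
      (RV ((v ⬝ᵥ ev k (m + 4) (m + 2)) * s11 + (v ⬝ᵥ ev k (m + 4) (m + 3)) * d0 +
          (h0 * t0 + h1 * t1))
        ((v ⬝ᵥ ev k (m + 4) (m + 2)) * s12 + (v ⬝ᵥ ev k (m + 4) (m + 3)) * d1 +
          (h0 * t1 + h1 * t2)) (v ⬝ᵥ ev k (m + 4) (m + 3)) 0) := by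
  rw [NB, vecMul_LX, XX_RV, RV_XX, RV_XX, RV_dot, RV_dot, RV_smul, RV_smul, RV_add, RV_add]
  congr 2
  · congr 1
    ring
  · congr 1
    ring
  all_goals ring

theorem v_NC : Sum.elim v (RV e0 e1 h0 h1) ᵥ* NC m s11 s12 s22 t1 t2 t3 d1 d2 =
    Sum.elim (e1 • ev k (m + 4) 0 + (h0 * s12 + h1 * s22) • ev k (m + 4) 1)
      (RV ((v ⬝ᵥ ev k (m + 4) (m + 2)) * s12 + (v ⬝ᵥ ev k (m + 4) (m + 3)) * d1 +
          (h0 * t1 + h1 * t2))
        ((v ⬝ᵥ ev k (m + 4) (m + 2)) * s22 + (v ⬝ᵥ ev k (m + 4) (m + 3)) * d2 +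
          (h0 * t2 + h1 * t3)) 0 (v ⬝ᵥ ev k (m + 4) (m + 3))) := by
  rw [NC, vecMul_LX, XX_RV, RV_XX, RV_XX, RV_dot, RV_dot, RV_smul, RV_smul, RV_add, RV_add]
  congr 2
  · congr 1
    ring
  · congr 1
    ring
  all_goals ring

/-! ### the vectors and functionals -/

/-- the vector `u_1 = D v_0` -/
def u1 (m : ℕ) (al be : k) : Fin (m + 4) ⊕ (Fin 2 ⊕ Fin 2) → k :=
  Sum.elim (al • ev k (m + 4) (m + 1) + be • ev k (m + 4) (m + 2)) (RV 0 1 0 0)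

/-- the vector `u_2 = D u_1` -/
def u2 (m : ℕ) (s22 t2 d2 al : k) : Fin (m + 4) ⊕ (Fin 2 ⊕ Fin 2) → k :=
  Sum.elim (s22 • ev k (m + 4) (m + 2) + d2 • ev k (m + 4) (m + 3) +
    (al * al) • ev k (m + 4) (m + 1 + (m + 1))) (RV 0 0 t2 0)

/-- the functional `φ_1` -/
def f1 (m : ℕ) (s22 t2 : k) : Fin (m + 4) ⊕ (Fin 2 ⊕ Fin 2) → k :=
  Sum.elim (ev k (m + 4) 1) (RV (t2 / s22) 0 0 0)

/-- the functional `φ_2`; `om = al` if `m = 1` and `0` otherwise -/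
def f2 (m : ℕ) (s22 p r al om : k) : Fin (m + 4) ⊕ (Fin 2 ⊕ Fin 2) → k :=
  Sum.elim ((al / s22) • ev k (m + 4) 2 + (al * om * r / (p * s22)) • ev k (m + 4) 1)
    (RV 0 (-(al * om / s22)) 0 (1 / s22))

/-- `P = p A + q B + r C` -/
def PP (m : ℕ) (s11 s12 s22 t0 t1 t2 t3 d0 d1 d2 p q r : k) :
    Matrix (Fin (m + 4) ⊕ (Fin 2 ⊕ Fin 2)) (Fin (m + 4) ⊕ (Fin 2 ⊕ Fin 2)) k :=
  p • NA m s11 s12 s22 + q • NB m s11 s12 s22 t0 t1 t2 d0 d1 + r • NC m s11 s12 s22 t1 t2 t3 d1 d2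

/-- `D = C + α A^(l-3) + β A^(l-2)` -/
def DD (m : ℕ) (s11 s12 s22 t1 t2 t3 d1 d2 al be : k) :
    Matrix (Fin (m + 4) ⊕ (Fin 2 ⊕ Fin 2)) (Fin (m + 4) ⊕ (Fin 2 ⊕ Fin 2)) k :=
  NC m s11 s12 s22 t1 t2 t3 d1 d2 + al • NA m s11 s12 s22 ^ (m + 1) +
    be • NA m s11 s12 s22 ^ (m + 2)

theorem NA_pow_v {j : ℕ} (hj : 2 ≤ j) (r : Fin 2 ⊕ Fin 2 → k) :
    NA m s11 s12 s22 ^ j *ᵥ Sum.elim v r = Sum.elim (ShF k (m + 4) ^ j *ᵥ v) 0 := by
  rw [NA, LA_pow_mulVec (XX_mul _ _) hj]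

theorem v_NA_pow {j : ℕ} (hj : 2 ≤ j) (r : Fin 2 ⊕ Fin 2 → k) :
    Sum.elim v r ᵥ* NA m s11 s12 s22 ^ j = Sum.elim (v ᵥ* ShF k (m + 4) ^ j) 0 := by
  rw [NA, vecMul_LA_pow (XX_mul _ _) hj]

theorem P_u1 {p q r al be : k} (h1 : p * al + q * s12 + r * s22 = 0)
    (h2 : p * be + q * d1 + r * d2 = 0) (h3 : p * s12 + q * t1 + r * t2 = 0)
    (h4 : p * s22 + q * t2 = 0) (hm : 1 ≤ m) :
    PP m s11 s12 s22 t0 t1 t2 0 d0 d1 d2 p q r *ᵥ u1 m al be = 0 := by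
  have n1 : ev k (m + 4) 0 ⬝ᵥ (al • ev k (m + 4) (m + 1) + be • ev k (m + 4) (m + 2)) = 0 := by
    rw [dotProduct_add, dotProduct_smul, dotProduct_smul, ev_dot _ _ _ (by omega),
      ev_dot _ _ _ (by omega), if_neg (by omega), if_neg (by omega)]
    simp
  have n2 : ev k (m + 4) 1 ⬝ᵥ (al • ev k (m + 4) (m + 1) + be • ev k (m + 4) (m + 2)) = 0 := by
    rw [dotProduct_add, dotProduct_smul, dotProduct_smul, ev_dot _ _ _ (by omega),
      ev_dot _ _ _ (by omega), if_neg (by omega), if_neg (by omega)]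
    simp
  rw [PP, add_mulVec, add_mulVec, smul_mulVec, smul_mulVec, smul_mulVec, u1, NA_v, NB_v, NC_v,
    n1, n2, mulVec_add, mulVec_smul, mulVec_smul, ShF_ev _ _ (by omega), ShF_ev _ _ (by omega),
    el_smul, el_smul, el_smul, el_add, el_add, RV_smul, RV_smul, RV_smul, RV_add, RV_add]
  have e1 : p • (al • ev k (m + 4) (m + 1 + 1) + be • ev k (m + 4) (m + 2 + 1)) +
      q • ((s11 * 0 + s12 * 1) • ev k (m + 4) (m + 2) +
        (d0 * 0 + d1 * 1 + 0) • ev k (m + 4) (m + 3)) +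
      r • ((s12 * 0 + s22 * 1) • ev k (m + 4) (m + 2) +
        (d1 * 0 + d2 * 1 + 0) • ev k (m + 4) (m + 3)) = 0 := by
    ext i
    simp only [Pi.add_apply, Pi.smul_apply, smul_eq_mul, Pi.zero_apply]
    linear_combination (ev k (m + 4) (m + 2) i) * h1 + (ev k (m + 4) (m + 3) i) * h2
  rw [e1]
  have e2 : RV (p * 0 + q * 0 + r * 0) (p * 0 + q * 0 + r * 0)
      (p * (s11 * 0 + s12 * 1) + q * (0 * s11 + (t0 * 0 + t1 * 1)) +
        r * (0 * s12 + (t1 * 0 + t2 * 1)))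
      (p * (s12 * 0 + s22 * 1) + q * (0 * s12 + (t1 * 0 + t2 * 1)) +
        r * (0 * s22 + (t2 * 0 + 0 * 1))) = 0 := by
    rw [← RV_zero]
    congr 1
    · ring
    · ring
    · linear_combination h3
    · linear_combination h4
  rw [e2]
  ext (i | i) <;> rfl

theorem ev0 (c1 c2 c3 : k) (i j l : ℕ) {a : ℕ} (hi : a ≠ i) (hj : a ≠ j) (hl : a ≠ l) :
    ev k (m + 4) a ⬝ᵥ (c1 • ev k (m + 4) i + c2 • ev k (m + 4) j + c3 • ev k (m + 4) l) = 0 := by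
  have h0 : ∀ j, a ≠ j → ev k (m + 4) a ⬝ᵥ ev k (m + 4) j = 0 := by
    intro j hj
    by_cases h : j < m + 4
    · rw [ev_dot _ _ _ h, if_neg hj]
    · rw [ev_big _ j (by omega), dotProduct_zero]
  rw [dotProduct_add, dotProduct_add, dotProduct_smul, dotProduct_smul, dotProduct_smul,
    h0 _ hi, h0 _ hj, h0 _ hl]
  simp

theorem ev0' (c1 c2 : k) (i j : ℕ) {a : ℕ} (hi : i ≠ a) (hj : j ≠ a) :
    (c1 • ev k (m + 4) i + c2 • ev k (m + 4) j) ⬝ᵥ ev k (m + 4) a = 0 := by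
  have h0 : ∀ j, j ≠ a → ev k (m + 4) j ⬝ᵥ ev k (m + 4) a = 0 := by
    intro j hj
    by_cases h : a < m + 4
    · rw [ev_dot _ _ _ h, if_neg hj]
    · rw [ev_big _ a (by omega), dotProduct_zero]
  rw [add_dotProduct, smul_dotProduct, smul_dotProduct, h0 _ hi, h0 _ hj]
  simp

theorem ev1' (i : ℕ) {a : ℕ} (hi : i ≠ a) :
    ev k (m + 4) i ⬝ᵥ ev k (m + 4) a = 0 := by
  have h := ev0' (k := k) (m := m) 1 0 i i hi hi
  simpa using h

theorem P_u2 {p q r al : k} (h4 : p * s22 + q * t2 = 0) (hm : 1 ≤ m) :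
    PP m s11 s12 s22 t0 t1 t2 0 d0 d1 d2 p q r *ᵥ u2 m s22 t2 d2 al = 0 := by
  rw [PP, add_mulVec, add_mulVec, smul_mulVec, smul_mulVec, smul_mulVec, u2, NA_v, NB_v, NC_v,
    ev0 _ _ _ _ _ _ (by omega) (by omega) (by omega),
    ev0 _ _ _ _ _ _ (by omega) (by omega) (by omega),
    mulVec_add, mulVec_add, mulVec_smul, mulVec_smul, mulVec_smul, ShF_ev _ _ (by omega),
    ShF_ev _ _ (by omega), ev_big _ (m + 3 + 1) (by omega)]
  have e0 : ShF k (m + 4) *ᵥ ev k (m + 4) (m + 1 + (m + 1)) = 0 := by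
    by_cases h : m + 1 + (m + 1) < m + 4
    · rw [ShF_ev _ _ h, ev_big _ _ (by omega)]
    · rw [ev_big _ _ (by omega), mulVec_zero]
  rw [e0, el_smul, el_smul, el_smul, el_add, el_add, RV_smul, RV_smul, RV_smul, RV_add, RV_add]
  have e1 : p • (s22 • ev k (m + 4) (m + 2 + 1) + d2 • 0 + (al * al) • (0 : Fin (m + 4) → k)) +
      q • ((s11 * 0 + s12 * 0) • ev k (m + 4) (m + 2) +
        (d0 * 0 + d1 * 0 + t2) • ev k (m + 4) (m + 3)) +
      r • ((s12 * 0 + s22 * 0) • ev k (m + 4) (m + 2) +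
        (d1 * 0 + d2 * 0 + 0) • ev k (m + 4) (m + 3)) = 0 := by
    ext i
    simp only [Pi.add_apply, Pi.smul_apply, smul_eq_mul, Pi.zero_apply]
    linear_combination (ev k (m + 4) (m + 3) i) * h4
  rw [e1]
  have e2 : RV (p * 0 + q * 0 + r * 0) (p * 0 + q * 0 + r * 0)
      (p * (s11 * 0 + s12 * 0) + q * (0 * s11 + (t0 * 0 + t1 * 0)) +
        r * (0 * s12 + (t1 * 0 + t2 * 0)))
      (p * (s12 * 0 + s22 * 0) + q * (0 * s12 + (t1 * 0 + t2 * 0)) +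
        r * (0 * s22 + (t2 * 0 + 0 * 0))) = 0 := by
    rw [← RV_zero]
    congr 1 <;> ring
  rw [e2]
  ext (i | i) <;> rfl

theorem D_u1 {al be : k} (hm : 1 ≤ m) :
    DD m s11 s12 s22 t1 t2 0 d1 d2 al be *ᵥ u1 m al be = u2 m s22 t2 d2 al := by
  have n1 : ev k (m + 4) 0 ⬝ᵥ (al • ev k (m + 4) (m + 1) + be • ev k (m + 4) (m + 2)) = 0 := by
    have h := ev0 (k := k) (m := m) al be 0 (m + 1) (m + 2) (m + 2) (a := 0) (by omega)
      (by omega) (by omega)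
    simpa using h
  have n2 : ev k (m + 4) 1 ⬝ᵥ (al • ev k (m + 4) (m + 1) + be • ev k (m + 4) (m + 2)) = 0 := by
    have h := ev0 (k := k) (m := m) al be 0 (m + 1) (m + 2) (m + 2) (a := 1) (by omega)
      (by omega) (by omega)
    simpa using h
  rw [DD, add_mulVec, add_mulVec, smul_mulVec, smul_mulVec, u1, NC_v, NA_pow_v _ (by omega),
    NA_pow_v _ (by omega), n1, n2, mulVec_add, mulVec_smul, mulVec_smul, ShF_pow_ev,
    ShF_pow_ev, mulVec_add, mulVec_smul, mulVec_smul, ShF_pow_ev, ShF_pow_ev,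
    ev_big _ (m + 2 + (m + 1)) (by omega), ev_big _ (m + 1 + (m + 2)) (by omega),
    ev_big _ (m + 2 + (m + 2)) (by omega), u2, el_smul, el_smul, el_add, el_add]
  congr 1
  · ext i
    simp only [Pi.add_apply, Pi.smul_apply, smul_eq_mul, Pi.zero_apply]
    ring
  · rw [← RV_zero, RV_smul, RV_smul, RV_add, RV_add]
    congr 1 <;> ring

theorem D_u2 {al be : k} (hm : 1 ≤ m) :
    DD m s11 s12 s22 t1 t2 0 d1 d2 al be *ᵥ u2 m s22 t2 d2 al = 0 := by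
  have e0 : ∀ j, 1 ≤ j → ShF k (m + 4) ^ (m + j) *ᵥ (s22 • ev k (m + 4) (m + 2) +
      d2 • ev k (m + 4) (m + 3) + (al * al) • ev k (m + 4) (m + 1 + (m + 1))) = 0 := by
    intro j hj
    rw [mulVec_add, mulVec_add, mulVec_smul, mulVec_smul, mulVec_smul, ShF_pow_ev, ShF_pow_ev,
      ShF_pow_ev, ev_big _ _ (by omega), ev_big _ _ (by omega), ev_big _ _ (by omega)]
    simp
  rw [DD, add_mulVec, add_mulVec, smul_mulVec, smul_mulVec, u2, NC_v, NA_pow_v _ (by omega),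
    NA_pow_v _ (by omega), ev0 _ _ _ _ _ _ (by omega) (by omega) (by omega),
    ev0 _ _ _ _ _ _ (by omega) (by omega) (by omega), e0 1 le_rfl, e0 2 (by omega)]
  have e1 : (s12 * 0 + s22 * 0) • ev k (m + 4) (m + 2) +
      (d1 * 0 + d2 * 0 + 0) • ev k (m + 4) (m + 3) = (0 : Fin (m + 4) → k) := by
    ext i
    simp only [Pi.add_apply, Pi.smul_apply, smul_eq_mul, Pi.zero_apply]
    ring
  have e2 : RV 0 0 (0 * s12 + (t1 * 0 + t2 * 0)) (0 * s22 + (t2 * 0 + 0 * 0)) =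
      (0 : Fin 2 ⊕ Fin 2 → k) := by
    rw [← RV_zero]
    congr 1 <;> ring
  rw [e1, e2]
  ext (i | i) <;> simp

theorem f1_P {p q r : k} (hs : s22 ≠ 0) (h4 : p * s22 + q * t2 = 0) (hm : 1 ≤ m) :
    f1 m s22 t2 ᵥ* PP m s11 s12 s22 t0 t1 t2 0 d0 d1 d2 p q r = 0 := by
  have e0 : ev k (m + 4) 1 ᵥ* ShF k (m + 4) = ev k (m + 4) 0 := ev_ShF _ 0 (by omega)
  rw [PP, vecMul_add, vecMul_add, vecMul_smul, vecMul_smul, vecMul_smul, f1, v_NA, v_NB, v_NC,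
    ev1' _ (by omega), ev1' _ (by omega), e0, el_smul, el_smul, el_smul, el_add, el_add, RV_smul,
    RV_smul, RV_smul, RV_add, RV_add]
  have e1 : p • ev k (m + 4) 0 + q • ((t2 / s22) • ev k (m + 4) 0 +
      (0 * s11 + 0 * s12) • ev k (m + 4) 1) + r • ((0 : k) • ev k (m + 4) 0 +
      (0 * s12 + 0 * s22) • ev k (m + 4) 1) = 0 := by
    ext i
    simp only [Pi.add_apply, Pi.smul_apply, smul_eq_mul, Pi.zero_apply]
    field_simp
    linear_combination (ev k (m + 4) 0 i) * h4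
  rw [e1]
  have e2 : RV (p * (0 * s11 + 0 * s12) + q * (0 * s11 + 0 * d0 + (0 * t0 + 0 * t1)) +
      r * (0 * s12 + 0 * d1 + (0 * t1 + 0 * t2)))
      (p * (0 * s12 + 0 * s22) + q * (0 * s12 + 0 * d1 + (0 * t1 + 0 * t2)) +
      r * (0 * s22 + 0 * d2 + (0 * t2 + 0 * 0))) (p * 0 + q * 0 + r * 0)
      (p * 0 + q * 0 + r * 0) = 0 := by
    rw [← RV_zero]
    congr 1 <;> ring
  rw [e2]
  ext (i | i) <;> rfl

theorem f1_D {al be : k} (hm : 1 ≤ m) :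
    f1 m s22 t2 ᵥ* DD m s11 s12 s22 t1 t2 0 d1 d2 al be = 0 := by
  rw [DD, vecMul_add, vecMul_add, vecMul_smul, vecMul_smul, f1, v_NC, v_NA_pow _ (by omega),
    v_NA_pow _ (by omega), ev1' _ (by omega), ev1' _ (by omega),
    ev_ShF_pow_zero _ _ _ (by omega) (by omega), ev_ShF_pow_zero _ _ _ (by omega) (by omega)]
  have e1 : (0 : k) • ev k (m + 4) 0 + (0 * s12 + 0 * s22) • ev k (m + 4) 1 = 0 := by
    ext i
    simp only [Pi.add_apply, Pi.smul_apply, smul_eq_mul, Pi.zero_apply]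
    ring
  have e2 : RV (0 * s12 + 0 * d1 + (0 * t1 + 0 * t2)) (0 * s22 + 0 * d2 + (0 * t2 + 0 * 0)) 0 0 =
      (0 : Fin 2 ⊕ Fin 2 → k) := by
    rw [← RV_zero]
    congr 1 <;> ring
  rw [e1, e2]
  ext (i | i) <;> simp

theorem f2_P {p q r al om : k} (hs : s22 ≠ 0) (hp : p ≠ 0)
    (h1 : p * al + q * s12 + r * s22 = 0) (h3 : p * s12 + q * t1 + r * t2 = 0)
    (h4 : p * s22 + q * t2 = 0) (hm : 1 ≤ m) :
    f2 m s22 p r al om ᵥ* PP m s11 s12 s22 t0 t1 t2 0 d0 d1 d2 p q r = 0 := by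
  have e0 : ev k (m + 4) 1 ᵥ* ShF k (m + 4) = ev k (m + 4) 0 := ev_ShF _ 0 (by omega)
  have e0' : ev k (m + 4) 2 ᵥ* ShF k (m + 4) = ev k (m + 4) 1 := ev_ShF _ 1 (by omega)
  rw [PP, vecMul_add, vecMul_add, vecMul_smul, vecMul_smul, vecMul_smul, f2, v_NA, v_NB, v_NC,
    ev0' _ _ _ _ (by omega) (by omega), ev0' _ _ _ _ (by omega) (by omega), add_vecMul,
    smul_vecMul, smul_vecMul, e0, e0', el_smul, el_smul, el_smul, el_add, el_add, RV_smul,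
    RV_smul, RV_smul, RV_add, RV_add]
  have e1 : p • ((al / s22) • ev k (m + 4) 1 + (al * om * r / (p * s22)) • ev k (m + 4) 0) +
      q • ((0 : k) • ev k (m + 4) 0 + (0 * s11 + 1 / s22 * s12) • ev k (m + 4) 1) +
      r • (-(al * om / s22) • ev k (m + 4) 0 + (0 * s12 + 1 / s22 * s22) • ev k (m + 4) 1) =
      0 := by
    ext i
    simp only [Pi.add_apply, Pi.smul_apply, smul_eq_mul, Pi.zero_apply]
    field_simp
    linear_combination (ev k (m + 4) 1 i) * h1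
  rw [e1]
  have e2 : RV (p * (0 * s11 + 1 / s22 * s12) + q * (0 * s11 + 0 * d0 + (0 * t0 + 1 / s22 * t1)) +
      r * (0 * s12 + 0 * d1 + (0 * t1 + 1 / s22 * t2)))
      (p * (0 * s12 + 1 / s22 * s22) + q * (0 * s12 + 0 * d1 + (0 * t1 + 1 / s22 * t2)) +
      r * (0 * s22 + 0 * d2 + (0 * t2 + 1 / s22 * 0))) (p * 0 + q * 0 + r * 0)
      (p * 0 + q * 0 + r * 0) = 0 := by
    rw [← RV_zero]
    congr 1
    · field_simp
      linear_combination h3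
    · field_simp
      linear_combination h4
    · ring
    · ring
  rw [e2]
  ext (i | i) <;> rfl

theorem f2_D {p r al be om : k} (hs : s22 ≠ 0) (hom : om = if m = 1 then al else 0)
    (hm : 1 ≤ m) :
    f2 m s22 p r al om ᵥ* DD m s11 s12 s22 t1 t2 0 d1 d2 al be = f1 m s22 t2 := by
  have e1 : ev k (m + 4) 2 ᵥ* ShF k (m + 4) ^ (m + 1) =
      (if m = 1 then (1 : k) else 0) • ev k (m + 4) 0 := by
    by_cases h : m = 1
    · subst h
      rw [if_pos rfl, one_smul]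
      exact ev_ShF_pow (k := k) 5 0 2 (by omega)
    · rw [if_neg h, zero_smul, ev_ShF_pow_zero _ _ _ (by omega) (by omega)]
  rw [DD, vecMul_add, vecMul_add, vecMul_smul, vecMul_smul, f2, v_NC, v_NA_pow _ (by omega),
    v_NA_pow _ (by omega), ev0' _ _ _ _ (by omega) (by omega),
    ev0' _ _ _ _ (by omega) (by omega), add_vecMul, smul_vecMul, smul_vecMul, e1,
    ev_ShF_pow_zero _ 1 (m + 1) (by omega) (by omega), add_vecMul, smul_vecMul, smul_vecMul,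
    ev_ShF_pow_zero _ 1 (m + 2) (by omega) (by omega),
    ev_ShF_pow_zero _ 2 (m + 2) (by omega) (by omega), f1, el_smul, el_smul, el_add, el_add]
  have e3 : (al : k) * (if m = 1 then (1 : k) else 0) = om := by
    rw [hom]
    split_ifs <;> ring
  congr 1
  · ext i
    simp only [Pi.add_apply, Pi.smul_apply, smul_eq_mul, Pi.zero_apply]
    field_simp
    linear_combination (al * ev k (m + 4) 0 i) * e3
  · rw [← RV_zero, RV_smul, RV_smul, RV_add, RV_add]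
    congr 1
    · field_simp
      ring
    · ring
    · ring
    · ring

/-! ### the matrix `N` -/

/-- the matrix `N = u_1 ⊗ φ_1 + u_2 ⊗ φ_2` -/
def NN (m : ℕ) (s22 t2 d2 p r al be om : k) :
    Matrix (Fin (m + 4) ⊕ (Fin 2 ⊕ Fin 2)) (Fin (m + 4) ⊕ (Fin 2 ⊕ Fin 2)) k :=
  vecMulVec (u1 m al be) (f1 m s22 t2) + vecMulVec (u2 m s22 t2 d2 al) (f2 m s22 p r al om)

theorem N_P {p q r al be om : k} (hs : s22 ≠ 0) (hp : p ≠ 0)
    (h1 : p * al + q * s12 + r * s22 = 0)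
    (h2 : p * be + q * d1 + r * d2 = 0) (h3 : p * s12 + q * t1 + r * t2 = 0)
    (h4 : p * s22 + q * t2 = 0) (hm : 1 ≤ m) :
    NN m s22 t2 d2 p r al be om * PP m s11 s12 s22 t0 t1 t2 0 d0 d1 d2 p q r =
      PP m s11 s12 s22 t0 t1 t2 0 d0 d1 d2 p q r * NN m s22 t2 d2 p r al be om := by
  rw [NN, add_mul, mul_add, vmm, vmm, mvm, mvm, f1_P hs h4 hm, f2_P hs hp h1 h3 h4 hm,
    P_u1 h1 h2 h3 h4 hm, P_u2 h4 hm, vmv_zero, vmv_zero, zero_vmv, zero_vmv]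

theorem N_D {p r al be om : k} (hs : s22 ≠ 0) (hom : om = if m = 1 then al else 0)
    (hm : 1 ≤ m) :
    NN m s22 t2 d2 p r al be om * DD m s11 s12 s22 t1 t2 0 d1 d2 al be =
      DD m s11 s12 s22 t1 t2 0 d1 d2 al be * NN m s22 t2 d2 p r al be om := by
  rw [NN, add_mul, mul_add, vmm, vmm, mvm, mvm, f1_D hm, f2_D hs hom hm, D_u1 hm, D_u2 hm,
    vmv_zero, zero_vmv, zero_add, add_zero]

/-- the weights -/
def wt (m : ℕ) : Fin (m + 4) ⊕ (Fin 2 ⊕ Fin 2) → ℕ :=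
  Sum.elim (fun i => if (i : ℕ) ≤ 1 then (i : ℕ) else (i : ℕ) + 1)
    (Sum.elim (fun i => (i : ℕ) + 1) (fun i => 4 - (i : ℕ)))

theorem ev_ne {n i : ℕ} {j : Fin n} (h : ev k n i j ≠ 0) : (j : ℕ) = i := by
  by_contra h1
  exact h (by simp [ev, h1])

theorem wt_u1 {al be : k} (hm : 1 ≤ m) {i : Fin (m + 4) ⊕ (Fin 2 ⊕ Fin 2)}
    (h : u1 m al be i ≠ 0) : 2 ≤ wt m i := by
  rcases i with i | (i | i)
  · have h1 : al * ev k (m + 4) (m + 1) i + be * ev k (m + 4) (m + 2) i ≠ 0 := h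
    have h2 : (i : ℕ) = m + 1 ∨ (i : ℕ) = m + 2 := by
      by_contra h3
      rw [not_or] at h3
      apply h1
      rw [ev, if_neg h3.1, ev, if_neg h3.2]
      ring
    show 2 ≤ if (i : ℕ) ≤ 1 then (i : ℕ) else (i : ℕ) + 1
    split_ifs <;> omega
  · fin_cases i
    · exact absurd rfl h
    · exact le_rfl
  · fin_cases i <;> exact absurd rfl h

theorem wt_u2 {al : k} (hm : 1 ≤ m) {i : Fin (m + 4) ⊕ (Fin 2 ⊕ Fin 2)}
    (h : u2 m s22 t2 d2 al i ≠ 0) : 4 ≤ wt m i := by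
  rcases i with i | (i | i)
  · have h1 : s22 * ev k (m + 4) (m + 2) i + d2 * ev k (m + 4) (m + 3) i +
      al * al * ev k (m + 4) (m + 1 + (m + 1)) i ≠ 0 := h
    have h2 : 3 ≤ (i : ℕ) := by
      by_contra h3
      apply h1
      rw [ev, if_neg (by omega), ev, if_neg (by omega), ev, if_neg (by omega)]
      ring
    show 4 ≤ if (i : ℕ) ≤ 1 then (i : ℕ) else (i : ℕ) + 1
    split_ifs <;> omega
  · fin_cases i <;> exact absurd rfl h
  · fin_cases i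
    · exact le_rfl
    · exact absurd rfl h

theorem wt_f1 {i : Fin (m + 4) ⊕ (Fin 2 ⊕ Fin 2)}
    (h : f1 m s22 t2 i ≠ 0) : wt m i ≤ 1 := by
  rcases i with i | (i | i)
  · have h1 : (i : ℕ) = 1 := ev_ne h
    show (if (i : ℕ) ≤ 1 then (i : ℕ) else (i : ℕ) + 1) ≤ 1
    split_ifs <;> omega
  · fin_cases i
    · exact le_rfl
    · exact absurd rfl h
  · fin_cases i <;> exact absurd rfl h

theorem wt_f2 {p r al om : k} {i : Fin (m + 4) ⊕ (Fin 2 ⊕ Fin 2)}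
    (h : f2 m s22 p r al om i ≠ 0) : wt m i ≤ 3 := by
  rcases i with i | (i | i)
  · have h1 : al / s22 * ev k (m + 4) 2 i + al * om * r / (p * s22) * ev k (m + 4) 1 i ≠ 0 := h
    have h2 : (i : ℕ) ≤ 2 := by
      by_contra h3
      apply h1
      rw [ev, if_neg (by omega), ev, if_neg (by omega)]
      ring
    show (if (i : ℕ) ≤ 1 then (i : ℕ) else (i : ℕ) + 1) ≤ 3
    split_ifs <;> omega
  · fin_cases i
    · exact absurd rfl h
    · show 1 + 1 ≤ 3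
      omega
  · fin_cases i
    · exact absurd rfl h
    · exact le_rfl

theorem wt_A {i j : Fin (m + 4) ⊕ (Fin 2 ⊕ Fin 2)} (h : NA m s11 s12 s22 i j ≠ 0) :
    wt m j < wt m i := by
  rcases i with i | (i | i) <;> rcases j with j | (j | j)
  · have h1 : ShF k (m + 4) i j ≠ 0 := h
    have h2 : (i : ℕ) = (j : ℕ) + 1 := by
      by_contra h3
      exact h1 (by rw [ShF, Matrix.of_apply, if_neg h3])
    show (if (j : ℕ) ≤ 1 then (j : ℕ) else (j : ℕ) + 1) <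
      (if (i : ℕ) ≤ 1 then (i : ℕ) else (i : ℕ) + 1)
    split_ifs <;> omega
  · exact absurd rfl h
  · exact absurd rfl h
  · exact absurd rfl h
  · exact absurd rfl h
  · exact absurd rfl h
  · exact absurd rfl h
  · have h1 : (i : ℕ) < 2 := i.2
    have h2 : (j : ℕ) < 2 := j.2
    show (j : ℕ) + 1 < 4 - (i : ℕ)
    omega
  · exact absurd rfl h

theorem nil_N (s : k) {p r al be om : k} (hm : 1 ≤ m) :
    IsNilpotent (NA m s11 s12 s22 + s • NN m s22 t2 d2 p r al be om) := by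
  refine nilp_of_weight (wt m) fun i j h => ?_
  have h1 : NA m s11 s12 s22 i j + s * (u1 m al be i * f1 m s22 t2 j +
      u2 m s22 t2 d2 al i * f2 m s22 p r al om j) ≠ 0 := h
  by_cases hA : NA m s11 s12 s22 i j = 0
  · by_cases hu : u1 m al be i = 0 ∨ f1 m s22 t2 j = 0
    · have hu' : u1 m al be i * f1 m s22 t2 j = 0 := mul_eq_zero.2 hu
      rw [hA, hu', zero_add, zero_add] at h1
      have h2 := right_ne_zero_of_mul h1
      have h3 := wt_u2 hm (left_ne_zero_of_mul h2)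
      have h4 := wt_f2 (right_ne_zero_of_mul h2)
      omega
    · rw [not_or] at hu
      have h3 := wt_u1 hm hu.1
      have h4 := wt_f1 hu.2
      omega
  · exact wt_A hA

end L22RAux

end Pool.Agent.Lib.D13
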