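import Pool.Agent.Lib.D13.L22R

/-!
# MP_5dcbc3_ag: Jordan types `(l, 2, 2)`, `l` at least `5`: the raise, final step
-/

namespace Pool.Agent.Lib.D13

open Matrix Pool.Agent.Lib.Q5dc Pool.Agent.Lib.D7

variable {k : Type*} [Field k]

namespace L22RAux

variable {m : ℕ} {s11 s12 s22 t0 t1 t2 t3 d0 d1 d2 : k}

theorem N_v {p r al be om : k} (x : Fin (m + 4) ⊕ (Fin 2 ⊕ Fin 2) → k) :
    NN m s22 t2 d2 p r al be om *ᵥ x = (f1 m s22 t2 ⬝ᵥ x) • u1 m al be +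
      (f2 m s22 p r al om ⬝ᵥ x) • u2 m s22 t2 d2 al := by
  rw [NN, add_mulVec, vmv, vmv]

theorem f1_u2 {al : k} (hm : 1 ≤ m) : f1 m s22 t2 ⬝ᵥ u2 m s22 t2 d2 al = 0 := by
  rw [f1, u2, el_dot, RV_dot, ev0 _ _ _ _ _ _ (by omega) (by omega) (by omega)]
  ring

theorem f2_u2 {p r al om : k} (hm : 1 ≤ m) :
    f2 m s22 p r al om ⬝ᵥ u2 m s22 t2 d2 al = 0 := by
  rw [f2, u2, el_dot, RV_dot, add_dotProduct, smul_dotProduct, smul_dotProduct,
    ev0 _ _ _ _ _ _ (by omega) (by omega) (by omega),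
    ev0 _ _ _ _ _ _ (by omega) (by omega) (by omega)]
  simp

theorem sq_v {p r al be om : k} (hs : s22 ≠ 0) (hm : 1 ≤ m) (s : k) :
    (NA m s11 s12 s22 + s • NN m s22 t2 d2 p r al be om) ^ 2 *ᵥ Sum.elim 0 (RV 0 1 0 0) =
      s • (u2 m s22 t2 d2 al - (al * om / s22) • (NA m s11 s12 s22 *ᵥ u2 m s22 t2 d2 al)) := by
  have a1 : NA m s11 s12 s22 *ᵥ Sum.elim 0 (RV 0 1 0 0) =
      Sum.elim (0 : Fin (m + 4) → k) (RV 0 0 s12 s22) := by
    rw [NA_v, mulVec_zero]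
    congr 2 <;> ring
  have a2 : NA m s11 s12 s22 *ᵥ Sum.elim 0 (RV 0 0 s12 s22) = 0 := by
    rw [NA_v, mulVec_zero]
    have : RV 0 0 (s11 * 0 + s12 * 0) (s12 * 0 + s22 * 0) = (0 : Fin 2 ⊕ Fin 2 → k) := by
      rw [← RV_zero]
      congr 1 <;> ring
    rw [this]
    ext (i | i) <;> rfl
  have g1 : f1 m s22 t2 ⬝ᵥ Sum.elim 0 (RV 0 1 0 0) = 0 := by
    rw [f1, el_dot, RV_dot, dotProduct_zero]
    ring
  have g2 : f2 m s22 p r al om ⬝ᵥ Sum.elim 0 (RV 0 1 0 0) = -(al * om / s22) := by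
    rw [f2, el_dot, RV_dot, dotProduct_zero]
    ring
  have g3 : f1 m s22 t2 ⬝ᵥ Sum.elim 0 (RV 0 0 s12 s22) = 0 := by
    rw [f1, el_dot, RV_dot, dotProduct_zero]
    ring
  have g4 : f2 m s22 p r al om ⬝ᵥ Sum.elim 0 (RV 0 0 s12 s22) = 1 := by
    rw [f2, el_dot, RV_dot, dotProduct_zero]
    field_simp
    ring
  have b1 : (NA m s11 s12 s22 + s • NN m s22 t2 d2 p r al be om) *ᵥ Sum.elim 0 (RV 0 1 0 0) =
      Sum.elim (0 : Fin (m + 4) → k) (RV 0 0 s12 s22) +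
        (-(s * (al * om / s22))) • u2 m s22 t2 d2 al := by
    rw [add_mulVec, smul_mulVec, a1, N_v, g1, g2]
    module
  have b2 : (NA m s11 s12 s22 + s • NN m s22 t2 d2 p r al be om) *ᵥ
      Sum.elim (0 : Fin (m + 4) → k) (RV 0 0 s12 s22) = s • u2 m s22 t2 d2 al := by
    rw [add_mulVec, smul_mulVec, a2, N_v, g3, g4]
    module
  have b3 : (NA m s11 s12 s22 + s • NN m s22 t2 d2 p r al be om) *ᵥ u2 m s22 t2 d2 al =
      NA m s11 s12 s22 *ᵥ u2 m s22 t2 d2 al := by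
    rw [add_mulVec, smul_mulVec, N_v, f1_u2 hm, f2_u2 hm]
    module
  rw [pow_two, ← mulVec_mulVec, b1, mulVec_add, b2, mulVec_smul, b3]
  module

end L22RAux

open L22RAux

theorem raise22 [Infinite k] {m : ℕ} (hm : 1 ≤ m) {s11 s12 s22 t0 t1 t2 d0 d1 d2 : k}
    (hs : s22 ≠ 0) (ht : t2 ≠ 0) {ρ : ℕ → ℕ} (hρ : ρ 2 ≤ (NA m s11 s12 s22 ^ 2).rank)
    (hT : MaxR ρ ![NA m s11 s12 s22, NB m s11 s12 s22 t0 t1 t2 d0 d1,
      NC m s11 s12 s22 t1 t2 0 d1 d2]) : False := by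
  obtain ⟨p, hp⟩ : ∃ p, p = -t2 := ⟨_, rfl⟩
  obtain ⟨q, hq⟩ : ∃ q, q = s22 := ⟨_, rfl⟩
  obtain ⟨r, hr⟩ : ∃ r, r = (t2 * s12 - s22 * t1) / t2 := ⟨_, rfl⟩
  obtain ⟨al, hal⟩ : ∃ al, al = (q * s12 + r * s22) / t2 := ⟨_, rfl⟩
  obtain ⟨be, hbe⟩ : ∃ be, be = (q * d1 + r * d2) / t2 := ⟨_, rfl⟩
  obtain ⟨om, hom⟩ : ∃ om, om = if m = 1 then al else 0 := ⟨_, rfl⟩
  have hp0 : p ≠ 0 := by
    rw [hp]
    exact neg_ne_zero.2 ht
  have h1 : p * al + q * s12 + r * s22 = 0 := by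
    rw [hal, hp]
    field_simp
    ring
  have h2 : p * be + q * d1 + r * d2 = 0 := by
    rw [hbe, hp]
    field_simp
    ring
  have h3 : p * s12 + q * t1 + r * t2 = 0 := by
    rw [hr, hp, hq]
    field_simp
    ring
  have h4 : p * s22 + q * t2 = 0 := by
    rw [hp, hq]
    ring
  have hq0 : q ≠ 0 := hq ▸ hs
  generalize hA : NA m s11 s12 s22 = A at hT hρ
  generalize hB : NB m s11 s12 s22 t0 t1 t2 d0 d1 = B at hT
  generalize hC : NC m s11 s12 s22 t1 t2 0 d1 d2 = C at hT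
  generalize hP : PP m s11 s12 s22 t0 t1 t2 0 d0 d1 d2 p q r = P
  generalize hD : DD m s11 s12 s22 t1 t2 0 d1 d2 al be = D
  generalize hN : NN m s22 t2 d2 p r al be om = N
  have eP : P = p • A + q • B + r • C := by
    rw [← hP, PP, hA, hB, hC]
  have eD : D = C + al • A ^ (m + 1) + be • A ^ (m + 2) := by
    rw [← hD, DD, hA, hC]
  have sm : ∀ {T : Fin 3 → Matrix _ _ k} {M : Matrix (Fin (m + 4) ⊕ (Fin 2 ⊕ Fin 2))
      (Fin (m + 4) ⊕ (Fin 2 ⊕ Fin 2)) k} (s : k), M ∈ adj T → s • M ∈ adj T :=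
    fun s hM => SMulMemClass.smul_mem s hM
  have hT' : MaxR ρ ![A, P, D] := by
    have m0 := D8.mem0 A B C
    have m1 := D8.mem1 A B C
    have m2 := D8.mem2 A B C
    have n0 := D8.mem0 A P D
    have n1 := D8.mem1 A P D
    have n2 := D8.mem2 A P D
    have n3 : C ∈ adj ![A, P, D] := by
      have e : C = D - al • A ^ (m + 1) - be • A ^ (m + 2) := by
        rw [eD]
        abel
      rw [e]
      exact sub_mem (sub_mem n2 (sm _ (pow_mem_adj n0 m))) (sm _ (pow_mem_adj n0 (m + 1)))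
    refine D8.MaxR.change3 hT ?_ ?_ ?_ n3
    · rw [eP]
      exact add_mem (add_mem (sm _ m0) (sm _ m1)) (sm _ m2)
    · rw [eD]
      exact add_mem (add_mem m2 (sm _ (pow_mem_adj m0 m))) (sm _ (pow_mem_adj m0 (m + 1)))
    · have e : B = q⁻¹ • (P - p • A - r • C) := by
        rw [eP, show p • A + q • B + r • C - p • A - r • C = q • B by abel,
          inv_smul_smul₀ hq0]
      rw [e]
      exact sm _ (sub_mem (sub_mem n1 (sm _ n0)) (sm _ n3))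
  have cNP : N * P = P * N := by
    rw [← hN, ← hP]
    exact N_P hs hp0 h1 h2 h3 h4 hm
  have cND : N * D = D * N := by
    rw [← hN, ← hD]
    exact N_D hs hom hm
  have cAP : A * P = P * A := hT'.cn.1 0 1
  have cAD : A * D = D * A := hT'.cn.1 0 2
  have cPD : P * D = D * P := hT'.cn.1 1 2
  have hcn : ∀ s : k, CN ![A + s • N, P + s • (0 : Matrix _ _ k), D + s • (0 : Matrix _ _ k)] := by
    intro s
    rw [smul_zero, add_zero, add_zero]
    refine D8.cn3 ?_ ?_ cPD ?_ (hT'.cn.2 1) (hT'.cn.2 2)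
    · rw [add_mul, mul_add, smul_mul_assoc, mul_smul_comm, cAP, cNP]
    · rw [add_mul, mul_add, smul_mul_assoc, mul_smul_comm, cAD, cND]
    · rw [← hA, ← hN]
      exact nil_N s hm
  refine MaxR.raise_vec hT' (fun s => ![A, P, D] + s • ![N, 0, 0]) (PolyFam.line _ _) (by simp)
    (fun s => by
      show CN (![A, P, D] + s • ![N, 0, 0])
      rw [D8.line3_eq]
      exact hcn s) 2 (fun s => A + s • N) (fun s => ?_) (isPoly_line A N) ?_
    (v := Sum.elim 0 (RV 0 1 0 0))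
    (u := u2 m s22 t2 d2 al - (al * om / s22) • (NA m s11 s12 s22 *ᵥ u2 m s22 t2 d2 al))
    (e := Sum.elim 0 (RV 0 1 0 0)) ?_ (fun s => ?_) ?_
  · show A + s • N ∈ adj (![A, P, D] + s • ![N, 0, 0])
    rw [D8.line3_eq]
    exact D8.mem0 _ _ _
  · rw [zero_smul, add_zero]
    exact hρ
  · rw [el_dot, RV_dot, dotProduct_zero]
    ring
  · rw [← hA, ← hN]
    exact sq_v hs hm s
  · intro x hx
    rw [zero_smul, add_zero, ← hA] at hx
    have h5 := congrFun hx (Sum.inr (Sum.inr 0))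
    rw [← Sum.elim_comp_inl_inr x, NA_pow_v _ le_rfl, u2, NA_v] at h5
    simp [RV] at h5
    exact ht h5.symm

end Pool.Agent.Lib.D13
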