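import Pool.Agent.Lib.D13.L22R2

/-!
# MP_5dcbc3_ag: Jordan types `(l, 2, 2)`, `l` at least `5`: the normal form

All triples in the normal form with independent `a_B, a_C` and independent `b_B, b_C` are
excluded: choose a root of the cubic form and move along a line.
-/

namespace Pool.Agent.Lib.D13

open Matrix Pool.Agent.Lib.Q5dc Pool.Agent.Lib.D7

variable {k : Type*} [Field k]

section General

variable {n : Type*} [Fintype n] [DecidableEq n] {ρ : ℕ → ℕ}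

theorem MaxR.conj3 {X0 X1 X2 Y0 Y1 Y2 g h : Matrix n n k} (hgh : g * h = 1)
    (h0 : X0 * h = h * Y0) (h1 : X1 * h = h * Y1) (h2 : X2 * h = h * Y2)
    (hX : MaxR ρ ![X0, X1, X2]) : MaxR ρ ![Y0, Y1, Y2] := by
  have h4 := hX.conj g h hgh (mul_eq_one_comm.1 hgh)
  have key : ∀ {X Y : Matrix n n k}, X * h = h * Y → g * X * h = Y := by
    intro X Y hXY
    rw [Matrix.mul_assoc, hXY, ← Matrix.mul_assoc, hgh, Matrix.one_mul]
  convert h4 using 1
  funext i
  fin_cases i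
  · exact (key h0).symm
  · exact (key h1).symm
  · exact (key h2).symm

end General

section LX

variable {ι : Type*} [Fintype ι] [DecidableEq ι] {m : ℕ}

theorem LA_conj {x x' g : Matrix ι ι k} (h : x * g = g * x') :
    LA m x * fromBlocks 1 0 0 g = fromBlocks 1 0 0 g * LA m x' := by
  rw [LA, LA, fromBlocks_multiply, fromBlocks_multiply]
  simp [h]

theorem LX_conj {x x' G G' g : Matrix ι ι k} {a a' b b' : ι → k} (h : x * g = g * x')
    (hG : G * g = g * G') (ha : a = g *ᵥ a') (hb : b ᵥ* g = b') :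
    LX m x G a b * fromBlocks 1 0 0 g = fromBlocks 1 0 0 g * LX m x' G' a' b' := by
  rw [LX, LX, fromBlocks_multiply, fromBlocks_multiply]
  have h1 : Lb m x b * g = Lb m x' b' := by
    rw [Lb_mul, Lb, h, ← vecMul_vecMul, hb]
  have h2 : g * Lc m x' a' = Lc m x a := by
    rw [mul_Lc, Lc, ← h, ← mulVec_mulVec, ha]
  simp [hG, h1, h2]

theorem LX_add_smul (x G G' : Matrix ι ι k) (a a' b b' : ι → k) (s : k) :
    LX m x G a b + s • LX m x G' a' b' = LX m x (G + s • G') (a + s • a') (b + s • b') := by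
  rw [LX, LX, LX, fromBlocks_smul, fromBlocks_add]
  congr 1
  · simp
  · rw [Lb, Lb, Lb, add_vecMul, smul_vecMul]
    ext i j
    simp only [Matrix.add_apply, Matrix.smul_apply, vecMulVec_apply, Pi.add_apply, Pi.smul_apply,
      smul_eq_mul]
    ring
  · rw [Lc, Lc, Lc, mulVec_add, mulVec_smul]
    ext i j
    simp only [Matrix.add_apply, Matrix.smul_apply, vecMulVec_apply, Pi.add_apply, Pi.smul_apply,
      smul_eq_mul]
    ring

/-- moving `x` and `G` along a line -/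
theorem LX_line (x x' G G' : Matrix ι ι k) (a b : ι → k) (s : k) :
    LX m (x + s • x') (G + s • G') a b = LX m x G a b +
      s • fromBlocks 0 (vecMulVec (ev k (m + 4) (m + 2)) (b ᵥ* x'))
        (vecMulVec (x' *ᵥ a) (ev k (m + 4) 1)) G' := by
  rw [LX, LX, fromBlocks_smul, fromBlocks_add]
  congr 1
  · simp
  · rw [Lb, Lb, vecMul_add, vecMul_smul]
    ext i j
    simp only [Matrix.add_apply, Matrix.smul_apply, vecMulVec_apply, Pi.add_apply, Pi.smul_apply,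
      smul_eq_mul]
    ring
  · rw [Lc, Lc, add_mulVec, smul_mulVec]
    ext i j
    simp only [Matrix.add_apply, Matrix.smul_apply, vecMulVec_apply, Pi.add_apply, Pi.smul_apply,
      smul_eq_mul]
    ring

theorem LA_line (x x' : Matrix ι ι k) (s : k) :
    LA m (x + s • x') = LA m x + s • fromBlocks 0 0 0 x' := by
  rw [LA, LA, fromBlocks_smul, fromBlocks_add]
  simp

end LX

theorem XX_line (S S' : Matrix (Fin 2) (Fin 2) k) (s : k) : XX S + s • XX S' = XX (S + s • S') := by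
  rw [XX, XX, XX, fromBlocks_smul, fromBlocks_add]
  simp

theorem NA_sq (m : ℕ) (s11 s12 s22 : k) :
    NA m s11 s12 s22 ^ 2 = fromBlocks (ShF k (m + 4) ^ 2) 0 0 0 := by
  rw [NA, LA_pow, pow_two (XX _), XX_mul]

section Std

variable {m : ℕ} {s11 s12 s22 t0 t1 t2 t3 d0 d1 d2 : k} {ρ : ℕ → ℕ}

theorem N_cn (m : ℕ) (s11 s12 s22 t0 t1 t2 t3 d0 d1 d2 : k) :
    CN ![NA m s11 s12 s22, NB m s11 s12 s22 t0 t1 t2 d0 d1, NC m s11 s12 s22 t1 t2 t3 d1 d2] := by
  refine LX_cn (XX_mul _ _) ?_ ?_ ⟨2, ?_⟩ ⟨2, ?_⟩ ?_ ?_ ?_ ?_ ?_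
  · rw [XX_mul, XX_mul]
  · rw [XX_mul, XX_mul]
  · rw [pow_two, XX_mul]
  · rw [pow_two, XX_mul]
  · rw [XX_mul, XX_mul]
  · rw [XX_RV, XX_RV]
    congr 1 <;> ring
  · rw [RV_XX, RV_XX]
    congr 1 <;> ring
  · rw [XX_RV, XX_RV, RV_dot, RV_dot]
    ring
  · rw [RV_dot, RV_dot]
    ring

/-- the case that `C` is a root of the cubic form -/
theorem std22_root [Infinite k] (hm : 1 ≤ m) (hρ : ρ 2 ≤ (NA m s11 s12 s22 ^ 2).rank)
    (hT : MaxR ρ ![NA m s11 s12 s22, NB m s11 s12 s22 t0 t1 t2 d0 d1,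
      NC m s11 s12 s22 t1 t2 0 d1 d2]) : False := by
  have eA : ∀ s : k, NA m s11 s12 s22 + s • fromBlocks 0 0 0 (XX !![0, 0; 0, 1]) =
      NA m s11 s12 (s22 + s) := by
    intro s
    rw [NA, NA, ← LA_line, XX_line]
    congr 2
    ext i j
    fin_cases i <;> fin_cases j <;> simp
  have eB : ∀ s : k, NB m s11 s12 s22 t0 t1 t2 d0 d1 +
      s • fromBlocks 0 (vecMulVec (ev k (m + 4) (m + 2)) (RV d0 d1 1 0 ᵥ* XX !![0, 0; 0, 1]))
        (vecMulVec (XX !![0, 0; 0, 1] *ᵥ RV 1 0 0 0) (ev k (m + 4) 1)) (XX !![0, 0; 0, 1]) =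
      NB m s11 s12 (s22 + s) t0 t1 (t2 + s) d0 d1 := by
    intro s
    rw [NB, NB, ← LX_line, XX_line, XX_line]
    congr 2
    · ext i j
      fin_cases i <;> fin_cases j <;> simp
    · ext i j
      fin_cases i <;> fin_cases j <;> simp
  have eC : ∀ s : k, NC m s11 s12 s22 t1 t2 0 d1 d2 +
      s • fromBlocks 0 (vecMulVec (ev k (m + 4) (m + 2)) (RV d1 d2 0 1 ᵥ* XX !![0, 0; 0, 1]))
        (vecMulVec (XX !![0, 0; 0, 1] *ᵥ RV 0 1 0 0) (ev k (m + 4) 1)) (XX !![0, 1; 1, 0]) =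
      NC m s11 s12 (s22 + s) t1 (t2 + s) 0 d1 d2 := by
    intro s
    rw [NC, NC, ← LX_line, XX_line, XX_line]
    congr 2
    · ext i j
      fin_cases i <;> fin_cases j <;> simp
    · ext i j
      fin_cases i <;> fin_cases j <;> simp
  obtain ⟨s, hs, h1⟩ := D8.MaxR.line3 hT (fromBlocks 0 0 0 (XX !![0, 0; 0, 1]))
    (fromBlocks 0 (vecMulVec (ev k (m + 4) (m + 2)) (RV d0 d1 1 0 ᵥ* XX !![0, 0; 0, 1]))
        (vecMulVec (XX !![0, 0; 0, 1] *ᵥ RV 1 0 0 0) (ev k (m + 4) 1)) (XX !![0, 0; 0, 1]))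
    (fromBlocks 0 (vecMulVec (ev k (m + 4) (m + 2)) (RV d1 d2 0 1 ᵥ* XX !![0, 0; 0, 1]))
        (vecMulVec (XX !![0, 0; 0, 1] *ᵥ RV 0 1 0 0) (ev k (m + 4) 1)) (XX !![0, 1; 1, 0]))
    (fun s => by
      rw [eA, eB, eC]
      exact N_cn _ _ _ _ _ _ _ _ _ _ _) (F := {-s22, -t2}) (Set.toFinite _)
  rw [eA, eB, eC] at h1
  rw [Set.mem_insert_iff, Set.mem_singleton_iff, not_or] at hs
  refine raise22 hm (s22 := s22 + s) (t2 := t2 + s) ?_ ?_ ?_ h1
  · intro h
    exact hs.1 (by linear_combination h)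
  · intro h
    exact hs.2 (by linear_combination h)
  · rw [NA_sq]
    rwa [NA_sq] at hρ

/-- exchange of `B` and `C` -/
theorem std_swap (hT : MaxR ρ ![NA m s11 s12 s22, NB m s11 s12 s22 t0 t1 t2 d0 d1,
      NC m s11 s12 s22 t1 t2 t3 d1 d2]) :
    MaxR ρ ![NA m s22 s12 s11, NB m s22 s12 s11 t3 t2 t1 d2 d1,
      NC m s22 s12 s11 t2 t1 t0 d1 d0] := by
  have hW : (!![0, 1; 1, 0] : Matrix (Fin 2) (Fin 2) k) * !![0, 1; 1, 0] = 1 := by
    ext i j
    fin_cases i <;> fin_cases j <;> simp [Matrix.mul_apply, Fin.sum_univ_two]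
  have hx : ∀ a b c : k, XX !![a, b; b, c] * fromBlocks !![0, 1; 1, 0] 0 0 !![0, 1; 1, 0] =
      fromBlocks !![0, 1; 1, 0] 0 0 !![0, 1; 1, 0] * XX !![c, b; b, a] := by
    intro a b c
    rw [XX, XX, fromBlocks_multiply, fromBlocks_multiply]
    congr 1
    · simp
    · simp
    · ext i j
      fin_cases i <;> fin_cases j <;> simp [Matrix.mul_apply, Fin.sum_univ_two]
    · simp
  have hv : ∀ a b c d : k, RV a b c d =
      fromBlocks !![0, 1; 1, 0] 0 0 !![0, 1; 1, 0] *ᵥ RV b a d c := by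
    intro a b c d
    rw [RV, RV, fromBlocks_mulVec]
    ext (i | i) <;> fin_cases i <;> simp
  have hv' : ∀ a b c d : k, RV a b c d ᵥ* fromBlocks !![0, 1; 1, 0] 0 0 !![0, 1; 1, 0] =
      RV b a d c := by
    intro a b c d
    rw [RV, RV, vecMul_fromBlocks]
    ext (i | i) <;> fin_cases i <;> simp
  refine MaxR.conj3 (g := fromBlocks 1 0 0 (fromBlocks !![0, 1; 1, 0] 0 0 !![0, 1; 1, 0]))
    (h := fromBlocks 1 0 0 (fromBlocks !![0, 1; 1, 0] 0 0 !![0, 1; 1, 0])) ?_ ?_ ?_ ?_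
    (D8.MaxR.swap hT)
  · rw [fromBlocks_multiply, fromBlocks_multiply]
    simp [hW]
  · exact LA_conj (hx _ _ _)
  · exact LX_conj (hx _ _ _) (hx _ _ _) (hv _ _ _ _) (hv' _ _ _ _)
  · exact LX_conj (hx _ _ _) (hx _ _ _) (hv _ _ _ _) (hv' _ _ _ _)

/-- replacing `C` by `C + c B` -/
theorem std_shear (c : k) (hT : MaxR ρ ![NA m s11 s12 s22, NB m s11 s12 s22 t0 t1 t2 d0 d1,
      NC m s11 s12 s22 t1 t2 t3 d1 d2]) :
    MaxR ρ ![NA m s11 (s12 + c * s11) (s22 + 2 * c * s12 + c ^ 2 * s11),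
      NB m s11 (s12 + c * s11) (s22 + 2 * c * s12 + c ^ 2 * s11) t0 (t1 + c * t0)
        (t2 + 2 * c * t1 + c ^ 2 * t0) d0 (d1 + c * d0),
      NC m s11 (s12 + c * s11) (s22 + 2 * c * s12 + c ^ 2 * s11) (t1 + c * t0)
        (t2 + 2 * c * t1 + c ^ 2 * t0) (t3 + 3 * c * t2 + 3 * c ^ 2 * t1 + c ^ 3 * t0)
        (d1 + c * d0) (d2 + 2 * c * d1 + c ^ 2 * d0)] := by
  have hU : fromBlocks !![1, -c; 0, 1] 0 0 !![1, 0; c, 1] *
      fromBlocks !![1, c; 0, 1] 0 0 !![1, 0; -c, 1] =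
      (1 : Matrix (Fin 2 ⊕ Fin 2) (Fin 2 ⊕ Fin 2) k) := by
    rw [fromBlocks_multiply, ← fromBlocks_one]
    congr 1
    · ext i j
      fin_cases i <;> fin_cases j <;> simp [Matrix.mul_apply, Fin.sum_univ_two]
    · simp
    · simp
    · ext i j
      fin_cases i <;> fin_cases j <;> simp [Matrix.mul_apply, Fin.sum_univ_two]
  have hx : ∀ a b e : k, XX !![a, b; b, e] * fromBlocks !![1, c; 0, 1] 0 0 !![1, 0; -c, 1] =
      fromBlocks !![1, c; 0, 1] 0 0 !![1, 0; -c, 1] *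
        XX !![a, b + c * a; b + c * a, e + 2 * c * b + c ^ 2 * a] := by
    intro a b e
    rw [XX, XX, fromBlocks_multiply, fromBlocks_multiply]
    congr 1
    · simp
    · simp
    · ext i j
      fin_cases i <;> fin_cases j <;> simp [Matrix.mul_apply, Fin.sum_univ_two] <;> ring
    · simp
  have hC : NC m s11 s12 s22 t1 t2 t3 d1 d2 + c • NB m s11 s12 s22 t0 t1 t2 d0 d1 =
      LX m (XX !![s11, s12; s12, s22])
        (XX !![t1 + c * t0, t2 + c * t1; t2 + c * t1, t3 + c * t2]) (RV c 1 0 0)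
        (RV (d1 + c * d0) (d2 + c * d1) c 1) := by
    rw [NC, NB, LX_add_smul, XX_line, RV_smul, RV_add, RV_smul, RV_add]
    congr 1
    · congr 1
      ext i j
      fin_cases i <;> fin_cases j <;> simp
    · congr 1 <;> ring
    · congr 1 <;> ring
  have h1 : MaxR ρ ![NA m s11 s12 s22, NB m s11 s12 s22 t0 t1 t2 d0 d1,
      NC m s11 s12 s22 t1 t2 t3 d1 d2 + c • NB m s11 s12 s22 t0 t1 t2 d0 d1] := by
    refine D8.MaxR.change3 hT (D8.mem1 _ _ _) (add_mem (D8.mem2 _ _ _)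
      (SMulMemClass.smul_mem c (D8.mem1 _ _ _))) (D8.mem1 _ _ _) ?_
    have e : NC m s11 s12 s22 t1 t2 t3 d1 d2 = (NC m s11 s12 s22 t1 t2 t3 d1 d2 +
        c • NB m s11 s12 s22 t0 t1 t2 d0 d1) - c • NB m s11 s12 s22 t0 t1 t2 d0 d1 := by
      abel
    rw [e]
    refine sub_mem ?_ (SMulMemClass.smul_mem c ?_)
    · rw [sub_add_cancel]
      exact D8.mem2 _ _ _
    · rw [sub_add_cancel]
      exact D8.mem1 _ _ _
  rw [hC] at h1
  refine MaxR.conj3 (g := fromBlocks 1 0 0 (fromBlocks !![1, -c; 0, 1] 0 0 !![1, 0; c, 1]))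
    (h := fromBlocks 1 0 0 (fromBlocks !![1, c; 0, 1] 0 0 !![1, 0; -c, 1])) ?_ ?_ ?_ ?_ h1
  · rw [fromBlocks_multiply, hU]
    simp
  · exact LA_conj (hx _ _ _)
  · refine LX_conj (hx _ _ _) (hx _ _ _) ?_ ?_
    · rw [RV, fromBlocks_mulVec]
      ext (i | i) <;> fin_cases i <;> simp [RV]
    · rw [RV, RV, vecMul_fromBlocks]
      ext (i | i) <;> fin_cases i <;> simp <;> ring
  · refine LX_conj (hx _ _ _) ?_ ?_ ?_
    · rw [XX, XX, fromBlocks_multiply, fromBlocks_multiply]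
      congr 1
      · simp
      · simp
      · ext i j
        fin_cases i <;> fin_cases j <;> simp [Matrix.mul_apply, Fin.sum_univ_two] <;> ring
      · simp
    · rw [RV, fromBlocks_mulVec]
      ext (i | i) <;> fin_cases i <;> simp [RV]
    · rw [RV, RV, vecMul_fromBlocks]
      ext (i | i) <;> fin_cases i <;> simp <;> ring

theorem std22 [IsAlgClosed k] [CharZero k] (hm : 1 ≤ m)
    (hρ : ρ 2 ≤ ((fromBlocks (ShF k (m + 4) ^ 2) 0 0 0 :
      Matrix (Fin (m + 4) ⊕ (Fin 2 ⊕ Fin 2)) (Fin (m + 4) ⊕ (Fin 2 ⊕ Fin 2)) k)).rank)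
    (hT : MaxR ρ ![NA m s11 s12 s22, NB m s11 s12 s22 t0 t1 t2 d0 d1,
      NC m s11 s12 s22 t1 t2 t3 d1 d2]) : False := by
  have : Infinite k := IsAlgClosed.instInfinite
  by_cases h0 : t0 = 0
  · have h1 := std_swap hT
    rw [h0] at h1
    exact std22_root hm (by rw [NA_sq]; exact hρ) h1
  · obtain ⟨c, hc⟩ : ∃ c : k, t3 + 3 * c * t2 + 3 * c ^ 2 * t1 + c ^ 3 * t0 = 0 := by
      have hdeg : (Polynomial.C t0 * Polynomial.X ^ 3 + Polynomial.C (3 * t1) * Polynomial.X ^ 2 +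
          Polynomial.C (3 * t2) * Polynomial.X + Polynomial.C t3).degree ≠ 0 := by
        rw [Polynomial.degree_cubic h0]
        decide
      obtain ⟨c, hc⟩ := IsAlgClosed.exists_root _ hdeg
      refine ⟨c, ?_⟩
      rw [Polynomial.IsRoot.def] at hc
      simp at hc
      linear_combination hc
    have h1 := std_shear c hT
    rw [hc] at h1
    exact std22_root hm (by rw [NA_sq]; exact hρ) h1

end Std

end Pool.Agent.Lib.D13
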