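import Pool.Agent.Lib.D13.L2Defs
import Pool.Agent.Lib.D13.Axis

/-!
# MP_5dcbc3_ag: tools for the Jordan types `(l, 2, 2)`

* `nilp_of_weight`: matrices raising a weight are nilpotent;
* `MaxR.raise_vec`: a family in which the power `i` of a matrix maps a vector of the kernel to
  `s u`, `u` not in the image, is impossible;
* the matrices `LA` and `LX` applied to vectors.
-/

namespace Pool.Agent.Lib.D13

open Matrix Pool.Agent.Lib.Q5dc Pool.Agent.Lib.D7

section General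

variable {k : Type*} [Field k] {n : Type*} [Fintype n] [DecidableEq n] {ρ : ℕ → ℕ}
  {T : Fin 3 → Matrix n n k}

theorem nilp_of_weight {M : Matrix n n k} (w : n → ℕ) (h : ∀ i j, M i j ≠ 0 → w j < w i) :
    IsNilpotent M := by
  have key : ∀ (p : ℕ) (i j : n), (M ^ p) i j ≠ 0 → w j + p ≤ w i := by
    intro p
    induction p with
    | zero =>
      intro i j hij
      by_cases hh : i = j
      · rw [hh]
        omega
      · exact absurd (by rw [pow_zero, Matrix.one_apply_ne hh]) hij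
    | succ p ih =>
      intro i j hij
      rw [pow_succ, Matrix.mul_apply] at hij
      obtain ⟨l, -, hl⟩ := Finset.exists_ne_zero_of_sum_ne_zero hij
      have h1 := ih i l (left_ne_zero_of_mul hl)
      have h2 := h l j (right_ne_zero_of_mul hl)
      omega
  refine ⟨Finset.univ.sup w + 1, ?_⟩
  ext i j
  by_contra hne
  have h1 := key _ i j hne
  have h2 : w i ≤ Finset.univ.sup w := Finset.le_sup (Finset.mem_univ i)
  omega

theorem pow_mem_adj {M : Matrix n n k} (hM : M ∈ adj T) (j : ℕ) : M ^ (j + 1) ∈ adj T := by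
  induction j with
  | zero => simpa using hM
  | succ j ih =>
    rw [pow_succ]
    exact mul_mem ih hM

/-- raising with the help of one vector -/
theorem MaxR.raise_vec [Infinite k] (hT : MaxR ρ T) (c : k → Fin 3 → Matrix n n k)
    (hc : PolyFam c) (h0 : c 0 = T) (hcn : ∀ s, CN (c s)) (i : ℕ) (M : k → Matrix n n k)
    (hM : ∀ s, M s ∈ adj (c s)) (hMp : ∀ x y, IsPoly fun s => M s x y)
    (hρ : ρ i ≤ (M 0 ^ i).rank) {v u e : n → k} (he : e ⬝ᵥ v = 1)
    (hv : ∀ s, M s ^ i *ᵥ v = s • u) (hu : ∀ x, M 0 ^ i *ᵥ x ≠ u) : False := by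
  have hK : ∀ x y, IsPoly fun s => (M s ^ i + (1 - s) • vecMulVec u e) x y := by
    intro x y
    have e1 : (fun s : k => (M s ^ i + (1 - s) • vecMulVec u e) x y) =
        fun s => (M s ^ i) x y + (1 - s) * vecMulVec u e x y := by
      funext s
      rw [Matrix.add_apply, Matrix.smul_apply, smul_eq_mul]
    rw [e1]
    have e2 : D7.IsPoly fun s : k => 1 - s := ⟨1 - Polynomial.X, fun s => by simp⟩
    exact (isPoly_pow hMp i x y).add (e2.mul (D7.IsPoly.const _))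
  have hfin := (rank_semicont (fun s => M s ^ i + (1 - s) • vecMulVec u e) hK 0).union
    (Set.finite_singleton (0 : k))
  refine hT.raise c hc h0 Set.finite_empty (fun s _ => hcn s) i M hM
    (hfin.infinite_compl.mono fun s hs => ?_)
  rw [Set.mem_compl_iff, Set.mem_union, not_or, Set.mem_singleton_iff, Set.mem_ofPred_eq,
    not_lt] at hs
  obtain ⟨h1, h2⟩ := hs
  have h3 : (M 0 ^ i).rank < (M 0 ^ i + (1 : k) • vecMulVec u e).rank :=
    rank_lt_of_ker (u := v) (by rw [hv, zero_smul]) (by rw [he]; exact one_ne_zero) hu one_ne_zero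
  have h4 : M s ^ i + (1 - s) • vecMulVec u e =
      M s ^ i * (1 + (s⁻¹ - 1) • vecMulVec v e) := by
    rw [mul_add, mul_one, mul_smul_comm, mvm, hv]
    congr 1
    ext x y
    simp only [Matrix.smul_apply, vecMulVec_apply, Pi.smul_apply, smul_eq_mul]
    field_simp
  have h5 : (M s ^ i + (1 - s) • vecMulVec u e).rank ≤ (M s ^ i).rank := by
    rw [h4]
    exact Matrix.rank_mul_le_left _ _
  rw [sub_zero] at h1
  show ρ i < (M s ^ i).rank
  omega

end General

section Vec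

variable {k : Type*} [Field k] {ι : Type*} [Fintype ι] [DecidableEq ι] {m : ℕ}
  {x G : Matrix ι ι k} {a b : ι → k}

theorem ShF_pow_ev (n i j : ℕ) : ShF k n ^ j *ᵥ ev k n i = ev k n (i + j) := by
  induction j with
  | zero => simp
  | succ j ih =>
    rw [pow_succ', ← mulVec_mulVec, ih]
    by_cases h : i + j < n
    · rw [ShF_ev _ _ h]
      rfl
    · rw [ev_big _ _ (by omega), mulVec_zero, ev_big _ _ (by omega)]

theorem ev_ShF_pow (n i j : ℕ) (hi : i + j < n) : ev k n (i + j) ᵥ* ShF k n ^ j = ev k n i := by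
  induction j with
  | zero => simp
  | succ j ih =>
    rw [pow_succ', ← vecMul_vecMul, ← add_assoc, ev_ShF _ _ (by omega)]
    exact ih (by omega)

theorem ev_ShF_pow_zero (n i j : ℕ) (hi : i < j) (hn : i < n) :
    ev k n i ᵥ* ShF k n ^ j = 0 := by
  obtain ⟨t, rfl⟩ : ∃ t, j = i + (t + 1) := ⟨j - i - 1, by omega⟩
  have h1 := ev_ShF_pow (k := k) n 0 i (by omega)
  rw [zero_add] at h1
  rw [pow_add, ← vecMul_vecMul, h1, pow_succ', ← vecMul_vecMul, ev_ShF_zero, zero_vecMul]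

theorem LA_mulVec (v : Fin (m + 4) → k) (r : ι → k) :
    LA m x *ᵥ Sum.elim v r = Sum.elim (ShF k (m + 4) *ᵥ v) (x *ᵥ r) := by
  rw [LA, fromBlocks_mulVec]
  simp

theorem LA_pow_mulVec (hx : x * x = 0) {j : ℕ} (hj : 2 ≤ j) (v : Fin (m + 4) → k) (r : ι → k) :
    LA m x ^ j *ᵥ Sum.elim v r = Sum.elim (ShF k (m + 4) ^ j *ᵥ v) 0 := by
  have hxj : x ^ j = 0 := by
    obtain ⟨t, rfl⟩ : ∃ t, j = 2 + t := ⟨j - 2, by omega⟩
    rw [pow_add, pow_two, hx, zero_mul]
  rw [LA_pow, hxj, fromBlocks_mulVec]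
  simp

theorem LX_mulVec (v : Fin (m + 4) → k) (r : ι → k) :
    LX m x G a b *ᵥ Sum.elim v r =
      Sum.elim ((b ⬝ᵥ (x *ᵥ r)) • ev k (m + 4) (m + 2) + (b ⬝ᵥ r) • ev k (m + 4) (m + 3))
        ((ev k (m + 4) 0 ⬝ᵥ v) • a + (ev k (m + 4) 1 ⬝ᵥ v) • (x *ᵥ a) + G *ᵥ r) := by
  rw [LX, fromBlocks_mulVec]
  congr 1
  · rw [Sum.elim_comp_inl, Sum.elim_comp_inr, zero_mulVec, zero_add, Lb, Matrix.add_mulVec,
      vecMulVec_mulVec, vecMulVec_mulVec, dotProduct_mulVec]
    simp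
  · rw [Sum.elim_comp_inl, Sum.elim_comp_inr, Lc, Matrix.add_mulVec, vecMulVec_mulVec,
      vecMulVec_mulVec]
    simp

theorem vecMul_LA (v : Fin (m + 4) → k) (r : ι → k) :
    Sum.elim v r ᵥ* LA m x = Sum.elim (v ᵥ* ShF k (m + 4)) (r ᵥ* x) := by
  rw [LA, vecMul_fromBlocks]
  simp

theorem vecMul_LA_pow (hx : x * x = 0) {j : ℕ} (hj : 2 ≤ j) (v : Fin (m + 4) → k) (r : ι → k) :
    Sum.elim v r ᵥ* LA m x ^ j = Sum.elim (v ᵥ* ShF k (m + 4) ^ j) 0 := by
  have hxj : x ^ j = 0 := by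
    obtain ⟨t, rfl⟩ : ∃ t, j = 2 + t := ⟨j - 2, by omega⟩
    rw [pow_add, pow_two, hx, zero_mul]
  rw [LA_pow, hxj, vecMul_fromBlocks]
  simp

theorem vecMul_LX (v : Fin (m + 4) → k) (r : ι → k) :
    Sum.elim v r ᵥ* LX m x G a b =
      Sum.elim ((r ⬝ᵥ a) • ev k (m + 4) 0 + (r ⬝ᵥ (x *ᵥ a)) • ev k (m + 4) 1)
        ((v ⬝ᵥ ev k (m + 4) (m + 2)) • (b ᵥ* x) + (v ⬝ᵥ ev k (m + 4) (m + 3)) • b + r ᵥ* G) := by
  rw [LX, vecMul_fromBlocks]
  congr 1
  · rw [Sum.elim_comp_inl, Sum.elim_comp_inr, vecMul_zero, zero_add, Lc, Matrix.vecMul_add,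
      vecMul_vecMulVec, vecMul_vecMulVec]
  · rw [Sum.elim_comp_inl, Sum.elim_comp_inr, Lb, Matrix.vecMul_add, vecMul_vecMulVec,
      vecMul_vecMulVec]

end Vec

end Pool.Agent.Lib.D13
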