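import Pool.Agent.Lib.D13.L2Vec
import Pool.Agent.Lib.D9.BlkMap

/-!
# MP_5dcbc3_ag: one long block: duality, changes of basis
-/

namespace Pool.Agent.Lib.D13

open Matrix Pool.Agent.Lib.Q5dc Pool.Agent.Lib.D7

namespace L2B

variable {k : Type*} [Field k] {ι : Type*} [Fintype ι] [DecidableEq ι] {m : ℕ} {ρ : ℕ → ℕ}

/-- the reversal of the long block -/
def rv (m : ℕ) (ι : Type*) : Fin (m + 4) ⊕ ι ≃ Fin (m + 4) ⊕ ι :=
  Equiv.sumCongr Fin.revPerm (Equiv.refl ι)

theorem rv_symm_inl (i : Fin (m + 4)) : (rv m ι).symm (.inl i) = .inl i.rev := rfl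

theorem rv_symm_inr (r : ι) : (rv m ι).symm (.inr r) = .inr r := rfl

theorem ev_rev (i : Fin (m + 4)) (j : ℕ) (hj : j ≤ m + 3) :
    ev k (m + 4) j i.rev = ev k (m + 4) (m + 3 - j) i := by
  rw [ev, ev]
  refine if_congr ?_ rfl rfl
  rw [Fin.val_rev]
  have := i.2
  omega

theorem dual_LA (x : Matrix ι ι k) :
    Matrix.reindexAlgEquiv k k (rv m ι) (LA m x)ᵀ = LA m xᵀ := by
  ext i j
  show (LA m x) ((rv m ι).symm j) ((rv m ι).symm i) = _
  rcases i with i | i <;> rcases j with j | j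
  · rw [rv_symm_inl, rv_symm_inl]
    show ShF k (m + 4) j.rev i.rev = ShF k (m + 4) i j
    rw [ShF, Matrix.of_apply, Matrix.of_apply]
    refine if_congr ?_ rfl rfl
    rw [Fin.val_rev, Fin.val_rev]
    have := i.2
    have := j.2
    omega
  · rfl
  · rfl
  · rfl

theorem dual_LX (x G : Matrix ι ι k) (a b : ι → k) :
    Matrix.reindexAlgEquiv k k (rv m ι) (LX m x G a b)ᵀ = LX m xᵀ Gᵀ b a := by
  ext i j
  show (LX m x G a b) ((rv m ι).symm j) ((rv m ι).symm i) = _
  rcases i with i | i <;> rcases j with j | j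
  · rfl
  · rw [rv_symm_inl, rv_symm_inr]
    show Lc m x a j i.rev = Lb m xᵀ a i j
    rw [Lc, Lb, Matrix.add_apply, Matrix.add_apply, vecMulVec_apply, vecMulVec_apply,
      vecMulVec_apply, vecMulVec_apply, ev_rev _ _ (by omega), ev_rev _ _ (by omega),
      vecMul_transpose]
    rw [show m + 3 - 1 = m + 2 by omega, show m + 3 - 0 = m + 3 by omega]
    ring
  · rw [rv_symm_inl, rv_symm_inr]
    show Lb m x b j.rev i = Lc m xᵀ b i j
    rw [Lc, Lb, Matrix.add_apply, Matrix.add_apply, vecMulVec_apply, vecMulVec_apply,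
      vecMulVec_apply, vecMulVec_apply, ev_rev _ _ (by omega), ev_rev _ _ (by omega),
      mulVec_transpose]
    rw [show m + 3 - (m + 2) = 1 by omega, show m + 3 - (m + 3) = 0 by omega]
    ring
  · rfl

/-- duality -/
theorem dual [Infinite k] {x G G' : Matrix ι ι k} {a b a' b' : ι → k}
    (hT : MaxR ρ ![LA m x, LX m x G a b, LX m x G' a' b']) :
    MaxR ρ ![LA m xᵀ, LX m xᵀ Gᵀ b a, LX m xᵀ G'ᵀ b' a'] := by
  have h := D9.MaxR.reindex (rv m ι) hT.transpose
  have e : (fun i => Matrix.reindexAlgEquiv k k (rv m ι)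
      ((![LA m x, LX m x G a b, LX m x G' a' b'] : Fin 3 → _) i)ᵀ) =
      ![LA m xᵀ, LX m xᵀ Gᵀ b a, LX m xᵀ G'ᵀ b' a'] := by
    funext i
    fin_cases i
    · exact dual_LA x
    · exact dual_LX x G a b
    · exact dual_LX x G' a' b'
  rwa [e] at h

/-- general conjugation, possibly with another index type -/
theorem conj2 [Infinite k] {n n' : Type*} [Fintype n] [DecidableEq n] [Fintype n'] [DecidableEq n']
    (e : n ≃ n') {T : Fin 3 → Matrix n n k} (hT : MaxR ρ T) (g : Matrix n' n k)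
    (h : Matrix n n' k) (hh : h * g = 1) : MaxR ρ fun i => g * T i * h := by
  have h1 : (g.submatrix e id) * (h.submatrix id e) = 1 := by
    have h2 : g * h = 1 := (Matrix.mul_eq_one_comm_of_equiv e).1 hh
    ext i j
    have h3 := congrFun (congrFun h2 (e i)) (e j)
    rw [Matrix.mul_apply] at h3 ⊢
    simp only [Matrix.submatrix_apply, id_eq]
    rw [h3]
    simp [Matrix.one_apply]
  have h2 : (h.submatrix id e) * (g.submatrix e id) = 1 := by
    have := Matrix.submatrix_mul_equiv h g id e id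
    rw [this, hh]
    ext i j
    simp [Matrix.one_apply]
  have h3 := D9.MaxR.reindex e (hT.conj (g.submatrix e id) (h.submatrix id e) h1 h2)
  have e2 : (fun i => Matrix.reindexAlgEquiv k k e
      (g.submatrix e id * T i * h.submatrix id e)) = fun i => g * T i * h := by
    funext i
    ext x y
    show (g.submatrix e id * T i * h.submatrix id e) (e.symm x) (e.symm y) = _
    simp [Matrix.mul_apply]
  rwa [e2] at h3

/-- conjugation of the triples of this form by a change of basis of `R` -/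
theorem conjR [Infinite k] {κ : Type*} [Fintype κ] [DecidableEq κ] (e : ι ≃ κ)
    {x G G' : Matrix ι ι k} {a b a' b' : ι → k}
    (hT : MaxR ρ ![LA m x, LX m x G a b, LX m x G' a' b'])
    (g : Matrix κ ι k) (h : Matrix ι κ k) (hh : h * g = 1) :
    MaxR ρ ![LA m (g * x * h), LX m (g * x * h) (g * G * h) (g *ᵥ a) (b ᵥ* h),
      LX m (g * x * h) (g * G' * h) (g *ᵥ a') (b' ᵥ* h)] := by
  have hg : g * h = 1 := (Matrix.mul_eq_one_comm_of_equiv e).1 hh
  have h1 := conj2 (Equiv.sumCongr (Equiv.refl (Fin (m + 4))) e) hT (fromBlocks 1 0 0 g)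
    (fromBlocks 1 0 0 h) (by rw [fromBlocks_multiply]; simp [hh])
  have e1 : (fromBlocks 1 0 0 g : Matrix (Fin (m + 4) ⊕ κ) (Fin (m + 4) ⊕ ι) k) * LA m x *
      (fromBlocks 1 0 0 h : Matrix (Fin (m + 4) ⊕ ι) (Fin (m + 4) ⊕ κ) k) =
      LA m (g * x * h) := by
    rw [LA, fromBlocks_multiply, fromBlocks_multiply, LA]
    simp
  have e2 : ∀ (G : Matrix ι ι k) (a b : ι → k),
      (fromBlocks 1 0 0 g : Matrix (Fin (m + 4) ⊕ κ) (Fin (m + 4) ⊕ ι) k) * LX m x G a b *
        (fromBlocks 1 0 0 h : Matrix (Fin (m + 4) ⊕ ι) (Fin (m + 4) ⊕ κ) k) =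
        LX m (g * x * h) (g * G * h) (g *ᵥ a) (b ᵥ* h) := by
    intro G a b
    rw [LX, fromBlocks_multiply, fromBlocks_multiply, LX]
    congr 1
    · simp
    · simp only [Matrix.one_mul, Matrix.zero_mul, Matrix.mul_zero, add_zero, zero_add, Lb,
        Matrix.add_mul, vecMulVec_mul]
      congr 2
      rw [vecMul_vecMul, vecMul_vecMul, ← Matrix.mul_assoc, ← Matrix.mul_assoc, hh, Matrix.one_mul]
    · simp only [Matrix.mul_one, Matrix.zero_mul, Matrix.mul_zero, add_zero, zero_add, Lc,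
        Matrix.mul_add, mul_vecMulVec]
      congr 2
      rw [mulVec_mulVec, mulVec_mulVec, Matrix.mul_assoc, Matrix.mul_assoc, hh, Matrix.mul_one]
    · simp
  have e3 : (fun i => (fromBlocks 1 0 0 g : Matrix (Fin (m + 4) ⊕ κ) (Fin (m + 4) ⊕ ι) k) *
      (![LA m x, LX m x G a b, LX m x G' a' b'] : Fin 3 → _) i *
      (fromBlocks 1 0 0 h : Matrix (Fin (m + 4) ⊕ ι) (Fin (m + 4) ⊕ κ) k)) = ![LA m (g * x * h), LX m (g * x * h) (g * G * h) (g *ᵥ a) (b ᵥ* h),
      LX m (g * x * h) (g * G' * h) (g *ᵥ a') (b' ᵥ* h)] := by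
    funext i
    fin_cases i
    · exact e1
    · exact e2 G a b
    · exact e2 G' a' b'
  rwa [e3] at h1

end L2B

end Pool.Agent.Lib.D13
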