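import Pool.Agent.Lib.D13.L2N
import Pool.Agent.Lib.D13.L2Dual

/-!
# MP_5dcbc3_ag: the normal form of `L2N` from relations of operators
-/

namespace Pool.Agent.Lib.D13

open Matrix Pool.Agent.Lib.Q5dc Pool.Agent.Lib.D7

namespace L2N

variable {k : Type*} [Field k] {m : ℕ} {ρ : ℕ → ℕ}

theorem no_core [IsAlgClosed k] [CharZero k] {n : Type*} [Fintype n] [DecidableEq n]
    (e : n ≃ Fin (m + 4) ⊕ Fin 5) {P D Z : Matrix n n k} (hT : MaxR ρ ![P, D, Z]) (v : n → k)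
    (p : Par k) (hq : p.q ≠ 0) (hF : p.F0 ≠ 0) (hPD : P * D = 0)
    (hw : P ^ (m + 4) *ᵥ v = 0)
    (hPZ : P *ᵥ (P *ᵥ (Z *ᵥ v)) = 0)
    (hD3 : D *ᵥ (D *ᵥ (D *ᵥ v)) = p.F0 • (P ^ (m + 3) *ᵥ v))
    (hDZ : D *ᵥ (D *ᵥ (Z *ᵥ v)) = p.F1 • (P ^ (m + 3) *ᵥ v))
    (hZZ : Z *ᵥ (Z *ᵥ v) = p.q • (P ^ (m + 2) *ᵥ v) + p.a5 • (P ^ (m + 3) *ᵥ v) +
      p.a1 • (D *ᵥ (D *ᵥ v)) + p.a2 • (D *ᵥ (Z *ᵥ v)) + p.a0 • (P *ᵥ (Z *ᵥ v)))
    (hspan : ∀ S : Submodule k (n → k), (∀ i, P ^ i *ᵥ v ∈ S) → Z *ᵥ v ∈ S → D *ᵥ v ∈ S →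
      D *ᵥ (D *ᵥ v) ∈ S → D *ᵥ (Z *ᵥ v) ∈ S → P *ᵥ (Z *ᵥ v) ∈ S → ∀ y, y ∈ S) : False := by
  have hinf : Infinite k := inferInstance
  have cPZ : P * Z = Z * P := hT.cn.1 0 2
  have cPD : P * D = D * P := hT.cn.1 0 1
  have cDZ : D * Z = Z * D := hT.cn.1 1 2
  have hDP : D * P = 0 := by rw [← cPD, hPD]
  set t : Fin 5 → n → k := ![Z *ᵥ v, D *ᵥ v, D *ᵥ (D *ᵥ v), D *ᵥ (Z *ᵥ v), P *ᵥ (Z *ᵥ v)] with ht
  set g : Matrix n (Fin (m + 4) ⊕ Fin 5) k :=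
    Matrix.of fun y j => Sum.elim (fun i : Fin (m + 4) => (P ^ (i : ℕ) *ᵥ v) y) (fun r => t r y) j
    with hg
  have gL : ∀ i, g *ᵥ L2B.vL k (Fin 5) m i = P ^ i *ᵥ v := by
    intro i
    by_cases hi : i < m + 4
    · have h1 := L2B.single_inl (k := k) (ι := Fin 5) (⟨i, hi⟩ : Fin (m + 4))
      rw [← h1, mulVec_single_one]
      rfl
    · rw [L2B.vL_big _ (by omega), mulVec_zero]
      obtain ⟨j, rfl⟩ : ∃ j, i = j + (m + 4) := ⟨i - (m + 4), by omega⟩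
      rw [pow_add, ← mulVec_mulVec, hw, mulVec_zero]
  have gR : ∀ z : Fin 5 → k, g *ᵥ L2B.vR m z = z 0 • t 0 + z 1 • t 1 + z 2 • t 2 + z 3 • t 3 +
      z 4 • t 4 := by
    intro z
    ext y
    rw [mulVec, dotProduct, Fintype.sum_sum_type]
    simp only [hg, Matrix.of_apply, L2B.vR, Sum.elim_inl, Sum.elim_inr, Fin.sum_univ_five,
      Pi.zero_apply, mul_zero, Finset.sum_const_zero, zero_add, Pi.add_apply, Pi.smul_apply,
      smul_eq_mul]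
    ring
  have hsurj : ∀ y : n → k, ∃ z, g *ᵥ z = y := by
    intro y
    have h1 : y ∈ LinearMap.range g.mulVecLin := by
      refine hspan _ ?_ ?_ ?_ ?_ ?_ ?_ y
      · intro i
        exact ⟨L2B.vL k (Fin 5) m i, by rw [Matrix.mulVecLin_apply, gL]⟩
      · exact ⟨L2B.vR m ![1, 0, 0, 0, 0], by rw [Matrix.mulVecLin_apply, gR]; simp [ht]⟩
      · exact ⟨L2B.vR m ![0, 1, 0, 0, 0], by rw [Matrix.mulVecLin_apply, gR]; simp [ht]⟩
      · exact ⟨L2B.vR m ![0, 0, 1, 0, 0], by rw [Matrix.mulVecLin_apply, gR]; simp [ht]⟩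
      · exact ⟨L2B.vR m ![0, 0, 0, 1, 0], by rw [Matrix.mulVecLin_apply, gR]; simp [ht]⟩
      · exact ⟨L2B.vR m ![0, 0, 0, 0, 1], by rw [Matrix.mulVecLin_apply, gR]; simp [ht]⟩
    obtain ⟨z, hz⟩ := h1
    exact ⟨z, hz⟩
  choose c hc using hsurj
  set h : Matrix (Fin (m + 4) ⊕ Fin 5) n k := Matrix.of fun x y => c (Pi.single y 1) x with hh
  have hgh : g * h = 1 := by
    ext x y
    have h1 := congrFun (hc (Pi.single y 1)) x
    rw [Matrix.mul_apply]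
    rw [mulVec, dotProduct] at h1
    rw [Matrix.one_apply]
    simp only [hh, Matrix.of_apply]
    rw [h1, Pi.single_apply]
  have hhg : h * g = 1 := (Matrix.mul_eq_one_comm_of_equiv e).1 hgh
  have hM := L2B.conj2 e hT h g hgh
  have key : ∀ (M : Matrix n n k) (N : Matrix (Fin (m + 4) ⊕ Fin 5) (Fin (m + 4) ⊕ Fin 5) k),
      (∀ i, M *ᵥ (P ^ i *ᵥ v) = g *ᵥ (N *ᵥ L2B.vL k (Fin 5) m i)) →
      (∀ z : Fin 5 → k, z 0 • M *ᵥ t 0 + z 1 • M *ᵥ t 1 + z 2 • M *ᵥ t 2 + z 3 • M *ᵥ t 3 +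
        z 4 • M *ᵥ t 4 = g *ᵥ (N *ᵥ L2B.vR m z)) → h * M * g = N := by
    intro M N h1 h2
    have h3 : M * g = g * N := by
      refine L2B.mat_ext (fun i _ => ?_) fun z => ?_
      · rw [← mulVec_mulVec, ← mulVec_mulVec, gL, h1]
      · rw [← mulVec_mulVec, ← mulVec_mulVec, gR, ← h2]
        simp only [mulVec_add, mulVec_smul]
    rw [Matrix.mul_assoc, h3, ← Matrix.mul_assoc, hhg, Matrix.one_mul]
  have hNF : (fun i => h * (![P, D, Z] : Fin 3 → _) i * g) = NF m p 0 := by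
    have t4P : P *ᵥ (P *ᵥ (Z *ᵥ v)) = 0 := hPZ
    have pD : ∀ y, P *ᵥ (D *ᵥ y) = 0 := fun y => by rw [mulVec_mulVec, hPD, zero_mulVec]
    have dP : ∀ y, D *ᵥ (P *ᵥ y) = 0 := fun y => by rw [mulVec_mulVec, hDP, zero_mulVec]
    have zP : ∀ y, Z *ᵥ (P *ᵥ y) = P *ᵥ (Z *ᵥ y) := fun y => by
      rw [mulVec_mulVec, mulVec_mulVec, cPZ]
    have zD : ∀ y, Z *ᵥ (D *ᵥ y) = D *ᵥ (Z *ᵥ y) := fun y => by
      rw [mulVec_mulVec, mulVec_mulVec, cDZ]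
    have powS : ∀ i, P ^ (i + 1) *ᵥ v = P *ᵥ (P ^ i *ᵥ v) := fun i => by
      rw [mulVec_mulVec, ← pow_succ']
    have zPow : ∀ i, Z *ᵥ (P ^ i *ᵥ v) = P ^ i *ᵥ (Z *ᵥ v) := by
      intro i
      rw [mulVec_mulVec, mulVec_mulVec]
      have : Z * P ^ i = P ^ i * Z := ((show Commute Z P from cPZ.symm).pow_right i).eq
      rw [this]
    set w := P ^ (m + 3) *ᵥ v with hwdef
    have Pw : P *ᵥ w = 0 := by rw [← powS, hw]
    have Dw : D *ᵥ w = 0 := by rw [hwdef, powS, dP]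
    have p0 : P *ᵥ t 0 = t 4 := rfl
    have p1 : P *ᵥ t 1 = 0 := pD _
    have p2 : P *ᵥ t 2 = 0 := pD _
    have p3 : P *ᵥ t 3 = 0 := pD _
    have p4 : P *ᵥ t 4 = 0 := hPZ
    have d0 : D *ᵥ t 0 = t 3 := rfl
    have d1 : D *ᵥ t 1 = t 2 := rfl
    have d2 : D *ᵥ t 2 = p.F0 • w := hD3
    have d3 : D *ᵥ t 3 = p.F1 • w := hDZ
    have d4 : D *ᵥ t 4 = 0 := dP _
    have z0 : Z *ᵥ t 0 = p.q • (P ^ (m + 2) *ᵥ v) + p.a5 • w + p.a1 • t 2 + p.a2 • t 3 +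
        p.a0 • t 4 := hZZ
    have z1 : Z *ᵥ t 1 = t 3 := zD _
    have z2 : Z *ᵥ t 2 = p.F1 • w := by
      show Z *ᵥ (D *ᵥ (D *ᵥ v)) = _
      rw [zD, zD, hDZ]
    have z3 : Z *ᵥ t 3 = (p.a1 * p.F0 + p.a2 * p.F1) • w := by
      show Z *ᵥ (D *ᵥ (Z *ᵥ v)) = _
      rw [zD, show Z *ᵥ (Z *ᵥ v) = Z *ᵥ t 0 from rfl, z0]
      simp only [mulVec_add, mulVec_smul, d2, d3, d4, Dw]
      rw [show m + 2 = m + 1 + 1 from rfl, powS, dP]
      module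
    have z4 : Z *ᵥ t 4 = p.q • w := by
      show Z *ᵥ (P *ᵥ (Z *ᵥ v)) = _
      rw [zP, show Z *ᵥ (Z *ᵥ v) = Z *ᵥ t 0 from rfl, z0]
      simp only [mulVec_add, mulVec_smul, p2, p3, p4, Pw, smul_zero, add_zero]
      rw [← powS]
    have xz : ∀ z : Fin 5 → k, xN *ᵥ z = ![0, 0, 0, 0, z 0] := by
      intro z
      ext i
      fin_cases i <;> simp [xN, mulVec, dotProduct, Fin.sum_univ_five]
    have gz : ∀ z : Fin 5 → k, gN 0 *ᵥ z = ![0, 0, z 1, z 0, 0] := by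
      intro z
      ext i
      fin_cases i <;> simp [gN, mulVec, dotProduct, Fin.sum_univ_five]
    have hz : ∀ z : Fin 5 → k, hN p 0 0 0 *ᵥ z =
        ![0, 0, p.a1 * z 0, p.a2 * z 0 + z 1, p.a0 * z 0] := by
      intro z
      ext i
      fin_cases i <;> simp [hN, mulVec, dotProduct, Fin.sum_univ_five]
    funext i
    fin_cases i
    · refine key P (LA m xN) ?_ ?_
      · intro i
        rw [L2B.LA_vL, gL, powS]
      · intro z
        rw [L2B.LA_vR, gR, xz, p0, p1, p2, p3, p4]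
        simp
    · refine key D (LX m xN (gN (-(0 * (p.F0 / p.q)))) ![0, 1, 0, 0, 0] (bN p)) ?_ ?_
      · intro i
        match i with
        | 0 =>
          rw [L2B.LX_vL0, gR, pow_zero, one_mulVec]
          simp [ht]
        | 1 =>
          rw [L2B.LX_vL1, gR, pow_one, dP]
          simp [xN]
        | i + 2 =>
          rw [L2B.LX_vL2 _ _ _ _ _ (by omega), powS, dP, mulVec_zero]
      · intro z
        have e1 : bN p ⬝ᵥ ![0, 0, 0, 0, z 0] = 0 := by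
          simp [bN, dotProduct, Fin.sum_univ_five]
        have e2 : bN p ⬝ᵥ z = p.F0 * z 2 + p.F1 * z 3 := by
          simp [bN, dotProduct, Fin.sum_univ_five]
        rw [L2B.LX_vR, mulVec_add, mulVec_add, mulVec_smul, mulVec_smul, gL, gL, gR, xz, zero_mul,
          neg_zero, gz, e1, e2, d0, d1, d2, d3, d4]
        simp only [Matrix.cons_val]
        module
    · refine key Z (LX m xN (hN p 0 (-(0 * (p.F0 / p.q))) (-(0 * (p.F0 / p.q * p.a2))))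
        ![1, 0, 0, 0, 0] (cN p)) ?_ ?_
      · intro i
        match i with
        | 0 =>
          rw [L2B.LX_vL0, gR, pow_zero, one_mulVec]
          simp [ht]
        | 1 =>
          rw [L2B.LX_vL1, gR, pow_one, zP]
          simp [xN, ht]
        | i + 2 =>
          rw [L2B.LX_vL2 _ _ _ _ _ (by omega), zPow, mulVec_zero, pow_add, ← mulVec_mulVec,
            pow_two, ← mulVec_mulVec, hPZ, mulVec_zero]
      · intro z
        have e1 : cN p ⬝ᵥ ![0, 0, 0, 0, z 0] = p.q * z 0 := by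
          simp [cN, dotProduct, Fin.sum_univ_five]
        have e2 : cN p ⬝ᵥ z = p.a5 * z 0 + p.F1 * z 2 + (p.a1 * p.F0 + p.a2 * p.F1) * z 3 +
            p.q * z 4 := by
          simp [cN, dotProduct, Fin.sum_univ_five]
        rw [L2B.LX_vR, mulVec_add, mulVec_add, mulVec_smul, mulVec_smul, gL, gL, gR, xz, zero_mul,
          zero_mul, neg_zero, hz, e1, e2, z0, z1, z2, z3, z4]
        simp only [Matrix.cons_val]
        module
  rw [hNF] at hM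
  exact no_NF p hq hF hM

end L2N

end Pool.Agent.Lib.D13
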