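import Pool.Agent.Lib.D13.L2Shape

/-!
# MP_5dcbc3_ag: types (l, 2^u, 1^p), l >= 4, the two components of each vector independent

For a maximal bad triple `![LA m x, LX m x G a b, LX m x G' a' b']` with `G, G'` : `R / im x -> im x`
there is another one with `a, a'` independent modulo `im x` and `b x, b' x` independent
(`u = rank x`, `dim R = 2 u + p`, `3 <= u`, `p + 2 <= u`).
-/

namespace Pool.Agent.Lib.D13

open Matrix Pool.Agent.Lib.Q5dc Pool.Agent.Lib.D7 Module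

variable {k : Type*} [Field k] {ι : Type*} [Fintype ι] [DecidableEq ι]

namespace L2

/-- choice of a solution of `Φ v = Ψ w` with `v` outside of a subspace -/
theorem lin_choice {V W : Type*} [AddCommGroup V] [Module k V] [FiniteDimensional k V]
    [AddCommGroup W] [Module k W] (Φ : V →ₗ[k] (Fin 2 → k))
    (Ψ : W →ₗ[k] (Fin 2 → k)) (U : Submodule k V)
    (h : finrank k U + 2 < finrank k V + finrank k (LinearMap.range Ψ)) :
    ∃ v, v ∉ U ∧ ∃ w, Φ v = Ψ w := by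
  by_contra hne
  push Not at hne
  set Q := (LinearMap.range Ψ).mkQ ∘ₗ Φ with hQ
  have h1 : LinearMap.ker Q ≤ U := by
    intro v hv
    by_contra hvU
    rw [LinearMap.mem_ker, hQ, LinearMap.comp_apply, Submodule.mkQ_apply,
      Submodule.Quotient.mk_eq_zero] at hv
    obtain ⟨w, hw⟩ := hv
    exact hne v hvU w hw.symm
  have h2 := Submodule.finrank_mono h1
  have h3 := LinearMap.finrank_range_add_finrank_ker Q
  have h4 : finrank k (LinearMap.range Q) ≤ finrank k ((Fin 2 → k) ⧸ LinearMap.range Ψ) :=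
    Submodule.finrank_le _
  have h5 := Submodule.finrank_quotient_add_finrank (LinearMap.range Ψ)
  have h6 : finrank k (Fin 2 → k) = 2 := by simp
  omega

variable {ρ : ℕ → ℕ} {m : ℕ} {x G G' H H' : Matrix ι ι k} {a a' b b' e e' f f' : ι → k}

theorem LX_smul (s : k) : s • LX m x G a b = LX m x (s • G) (s • a) (s • b) := by
  rw [LX, LX, fromBlocks_smul, Lb, Lb, Lc, Lc]
  congr 1
  · simp
  · rw [smul_vecMul, vecMulVec_smul, vecMulVec_smul, smul_add]
  · rw [mulVec_smul, smul_vecMulVec, smul_vecMulVec, smul_add]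

/-- linear changes -/
theorem chg (hT : MaxR ρ ![LA m x, LX m x G a b, LX m x G' a' b']) (p q r s : k)
    (h : p * s - q * r ≠ 0) :
    MaxR ρ ![LA m x, LX m x (p • G + q • G') (p • a + q • a') (p • b + q • b'),
      LX m x (r • G + s • G') (r • a + s • a') (r • b + s • b')] := by
  have h1 := D8.MaxR.lin hT p q r s 0 0 0 0 h
  simpa only [zero_smul, add_zero, LX_smul, LX_add] using h1

/-- families `B + s B'`, `C + s C'` -/
theorem fam [Infinite k] (hT : MaxR ρ ![LA m x, LX m x G a b, LX m x G' a' b'])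
    (H H' : Matrix ι ι k) (e e' f f' : ι → k)
    (h : ∀ s : k, CN ![LA m x, LX m x (G + s • H) (a + s • e) (b + s • f),
      LX m x (G' + s • H') (a' + s • e') (b' + s • f')]) {F : Set k} (hF : F.Finite) :
    ∃ s, s ∉ F ∧ MaxR ρ ![LA m x, LX m x (G + s • H) (a + s • e) (b + s • f),
      LX m x (G' + s • H') (a' + s • e') (b' + s • f')] := by
  obtain ⟨s, hs, h1⟩ := D8.MaxR.line2 hT (LX m x H e f) (LX m x H' e' f') (fun s => by
    simpa only [LX_smul, LX_add] using h s) hF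
  exact ⟨s, hs, by simpa only [LX_smul, LX_add] using h1⟩

/-- the conditions kept along the way -/
structure Ok (x G : Matrix ι ι k) : Prop where
  gx : G * x = 0
  im : ∃ K : Matrix ι ι k, G = x * K

theorem Ok.xg (hx : x * x = 0) (h : Ok x G) : x * G = 0 := by
  obtain ⟨K, hK⟩ := h.im
  rw [hK, ← Matrix.mul_assoc, hx, Matrix.zero_mul]

theorem Ok.mul (h : Ok x G) (h' : Ok x G') : G * G' = 0 := by
  obtain ⟨K, hK⟩ := h'.im
  rw [hK, ← Matrix.mul_assoc, h.gx, Matrix.zero_mul]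

theorem Ok.add (h : Ok x G) (h' : Ok x G') : Ok x (G + G') := by
  obtain ⟨K, hK⟩ := h.im
  obtain ⟨K', hK'⟩ := h'.im
  exact ⟨by rw [Matrix.add_mul, h.gx, h'.gx, add_zero], K + K', by rw [hK, hK', Matrix.mul_add]⟩

theorem Ok.smul (h : Ok x G) (s : k) : Ok x (s • G) := by
  obtain ⟨K, hK⟩ := h.im
  exact ⟨by rw [smul_mul_assoc, h.gx, smul_zero], s • K, by rw [hK, mul_smul_comm]⟩

theorem Ok.zero : Ok x (0 : Matrix ι ι k) := ⟨by simp, 0, by simp⟩

theorem Ok.nil (h : Ok x G) : IsNilpotent G := ⟨2, by rw [pow_two, h.mul h]⟩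

theorem Ok.cn (hx : x * x = 0) (h : Ok x G) (h' : Ok x G') (h2 : G *ᵥ a' = G' *ᵥ a)
    (h3 : b ᵥ* G' = b' ᵥ* G)
    (h4 : b ⬝ᵥ (x *ᵥ a') = b' ⬝ᵥ (x *ᵥ a)) (h5 : b ⬝ᵥ a' = b' ⬝ᵥ a) :
    CN ![LA m x, LX m x G a b, LX m x G' a' b'] :=
  LX_cn hx (by rw [h.xg hx, h.gx]) (by rw [h'.xg hx, h'.gx]) h.nil h'.nil
    (by rw [h.mul h', h'.mul h]) h2 h3 h4 h5

/-- relations -/
theorem rels (hx : x * x = 0) (hT : MaxR ρ ![LA m x, LX m x G a b, LX m x G' a' b']) :
    G *ᵥ a' = G' *ᵥ a ∧ b ᵥ* G' = b' ᵥ* G ∧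
      b ⬝ᵥ (x *ᵥ a') = b' ⬝ᵥ (x *ᵥ a) ∧ b ⬝ᵥ a' = b' ⬝ᵥ a := by
  have h1 := hT.cn.1 1 2
  have h2 : LX m x G a b * LX m x G' a' b' = LX m x G' a' b' * LX m x G a b := h1
  exact (rel h2 hx).2

/-- functionals are given by row vectors -/
theorem exists_row (φ : (ι → k) →ₗ[k] k) : ∃ l : ι → k, ∀ v, l ⬝ᵥ v = φ v := by
  refine ⟨fun i => φ (Pi.single i 1), fun v => ?_⟩
  rw [LinearMap.pi_apply_eq_sum_univ φ v, dotProduct]
  refine Finset.sum_congr rfl fun i _ => ?_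
  rw [smul_eq_mul, mul_comm]
  congr 2
  ext j
  simp [Pi.single_apply, eq_comm]

theorem row_ext {l l' : ι → k} (h : ∀ v, l ⬝ᵥ v = l' ⬝ᵥ v) : l = l' := by
  ext j
  have := h (Pi.single j 1)
  simpa using this

/-- a functional which vanishes on `im x` and is `1` on `a` -/
theorem exists_functional (ha : ∀ w, a ≠ x *ᵥ w) : ∃ l : ι → k, l ᵥ* x = 0 ∧ l ⬝ᵥ a = 1 := by
  have h1 : a ∉ LinearMap.range x.mulVecLin := by
    rintro ⟨w, hw⟩
    exact ha w (by rw [← hw]; rfl)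
  obtain ⟨φ, hφ, hφ'⟩ := Submodule.exists_le_ker_of_notMem h1
  obtain ⟨l, hl⟩ := exists_row ((φ a)⁻¹ • φ)
  refine ⟨l, row_ext fun v => ?_, ?_⟩
  · rw [← dotProduct_mulVec, hl, zero_dotProduct, LinearMap.smul_apply]
    have : φ (x *ᵥ v) = 0 := hφ' ⟨v, rfl⟩
    rw [this, smul_zero]
  · rw [hl, LinearMap.smul_apply, smul_eq_mul, inv_mul_cancel₀ hφ]

theorem exists_vec (hb : b ≠ 0) : ∃ w : ι → k, b ⬝ᵥ w = 1 := by
  obtain ⟨i, hi⟩ : ∃ i, b i ≠ 0 := by
    by_contra h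
    push Not at h
    exact hb (funext h)
  exact ⟨Pi.single i (b i)⁻¹, by simp [hi]⟩

/-- change of the second vector only -/
theorem famC [Infinite k] (hx : x * x = 0) (hT : MaxR ρ ![LA m x, LX m x G a b, LX m x G' a' b'])
    (hG : Ok x G) (hG' : Ok x G') (hH : Ok x H) (h1 : H *ᵥ a = G *ᵥ e) (h2 : b ᵥ* H = f ᵥ* G)
    (h3 : b ⬝ᵥ (x *ᵥ e) = f ⬝ᵥ (x *ᵥ a)) (h4 : b ⬝ᵥ e = f ⬝ᵥ a) {F : Set k} (hF : F.Finite) :
    ∃ s, s ∉ F ∧ MaxR ρ ![LA m x, LX m x G a b, LX m x (G' + s • H) (a' + s • e) (b' + s • f)] := by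
  obtain ⟨r1, r2, r3, r4⟩ := rels hx hT
  obtain ⟨s, hs, h⟩ := fam hT 0 H 0 e 0 f (fun s => by
    simp only [smul_zero, add_zero]
    refine hG.cn hx (hG'.add (hH.smul s)) ?_ ?_ ?_ ?_
    · rw [mulVec_add, mulVec_smul, add_mulVec, smul_mulVec, r1, h1]
    · rw [vecMul_add, vecMul_smul, add_vecMul, smul_vecMul, r2, h2]
    · rw [mulVec_add, mulVec_smul, dotProduct_add, dotProduct_smul, add_dotProduct,
        smul_dotProduct, r3, h3]
    · rw [dotProduct_add, dotProduct_smul, add_dotProduct, smul_dotProduct, r4, h4]) hF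
  exact ⟨s, hs, by simpa only [smul_zero, add_zero] using h⟩

/-- change of `a, a'` -/
theorem famA [Infinite k] (hx : x * x = 0) (hT : MaxR ρ ![LA m x, LX m x G a b, LX m x G' a' b'])
    (hG : Ok x G) (hG' : Ok x G') (h1 : G *ᵥ e' = G' *ᵥ e)
    (h3 : b ⬝ᵥ (x *ᵥ e') = b' ⬝ᵥ (x *ᵥ e)) (h4 : b ⬝ᵥ e' = b' ⬝ᵥ e) {F : Set k}
    (hF : F.Finite) :
    ∃ s, s ∉ F ∧ MaxR ρ ![LA m x, LX m x G (a + s • e) b, LX m x G' (a' + s • e') b'] := by
  obtain ⟨r1, r2, r3, r4⟩ := rels hx hT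
  obtain ⟨s, hs, h⟩ := fam hT 0 0 e e' 0 0 (fun s => by
    simp only [smul_zero, add_zero]
    refine hG.cn hx hG' ?_ r2 ?_ ?_
    · rw [mulVec_add, mulVec_smul, mulVec_add, mulVec_smul, r1, h1]
    · rw [mulVec_add, mulVec_smul, mulVec_add, mulVec_smul, dotProduct_add, dotProduct_smul,
        dotProduct_add, dotProduct_smul, r3, h3]
    · rw [dotProduct_add, dotProduct_smul, dotProduct_add, dotProduct_smul, r4, h4]) hF
  exact ⟨s, hs, by simpa only [smul_zero, add_zero] using h⟩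

/-- change of `b, b'` -/
theorem famB [Infinite k] (hx : x * x = 0) (hT : MaxR ρ ![LA m x, LX m x G a b, LX m x G' a' b'])
    (hG : Ok x G) (hG' : Ok x G') (h1 : f ᵥ* G' = f' ᵥ* G)
    (h3 : f ⬝ᵥ (x *ᵥ a') = f' ⬝ᵥ (x *ᵥ a)) (h4 : f ⬝ᵥ a' = f' ⬝ᵥ a) {F : Set k}
    (hF : F.Finite) :
    ∃ s, s ∉ F ∧ MaxR ρ ![LA m x, LX m x G a (b + s • f), LX m x G' a' (b' + s • f')] := by
  obtain ⟨r1, r2, r3, r4⟩ := rels hx hT
  obtain ⟨s, hs, h⟩ := fam hT 0 0 0 0 f f' (fun s => by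
    simp only [smul_zero, add_zero]
    refine hG.cn hx hG' r1 ?_ ?_ ?_
    · rw [add_vecMul, smul_vecMul, add_vecMul, smul_vecMul, r2, h1]
    · rw [add_dotProduct, smul_dotProduct, add_dotProduct, smul_dotProduct, r3, h3]
    · rw [add_dotProduct, smul_dotProduct, add_dotProduct, smul_dotProduct, r4, h4]) hF
  exact ⟨s, hs, by simpa only [smul_zero, add_zero] using h⟩

/-- the matrix `H` of the family `famC` -/
theorem exists_H (hG : Ok x G) (ha : ∀ w, a ≠ x *ᵥ w) (hb : b ᵥ* x ≠ 0)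
    (h : b ⬝ᵥ (G *ᵥ e) = f ⬝ᵥ (G *ᵥ a)) : ∃ H, Ok x H ∧ H *ᵥ a = G *ᵥ e ∧ b ᵥ* H = f ᵥ* G := by
  obtain ⟨l, hl, hl'⟩ := exists_functional ha
  obtain ⟨w, hw⟩ := exists_vec hb
  obtain ⟨K, hK⟩ := hG.im
  refine ⟨vecMulVec (G *ᵥ e) l + vecMulVec (x *ᵥ w) (f ᵥ* G - (b ⬝ᵥ (G *ᵥ e)) • l), ⟨?_, ?_⟩,
    ?_, ?_⟩
  · rw [Matrix.add_mul, vecMulVec_mul, vecMulVec_mul, sub_vecMul, smul_vecMul, hl, vecMul_vecMul,
      hG.gx, vecMul_zero, smul_zero, sub_zero, vmv_zero, vmv_zero, add_zero]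
  · refine ⟨vecMulVec (K *ᵥ e) l + vecMulVec w (f ᵥ* G - (b ⬝ᵥ (G *ᵥ e)) • l), ?_⟩
    rw [Matrix.mul_add, mul_vecMulVec, mul_vecMulVec, mulVec_mulVec, ← hK]
  · have e1 : (f ᵥ* G) ⬝ᵥ a = f ⬝ᵥ (G *ᵥ a) := (dotProduct_mulVec _ _ _).symm
    rw [add_mulVec, vecMulVec_mulVec, vecMulVec_mulVec, hl', sub_dotProduct, smul_dotProduct, hl',
      e1, h]
    simp
  · have e1 : (b ᵥ* x) ⬝ᵥ w = b ⬝ᵥ (x *ᵥ w) := (dotProduct_mulVec _ _ _).symm
    rw [vecMul_add, vecMul_vecMulVec, vecMul_vecMulVec, ← e1, hw]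
    simp

/-! ### linear algebra -/

/-- the functionals `b G, b x` -/
def Fa (x G : Matrix ι ι k) (b : ι → k) : (ι → k) →ₗ[k] (Fin 2 → k) where
  toFun e := ![b ⬝ᵥ (G *ᵥ e), b ⬝ᵥ (x *ᵥ e)]
  map_add' u v := by simp [mulVec_add, dotProduct_add]
  map_smul' c u := by simp [mulVec_smul, dotProduct_smul]

/-- the functionals `G a, x a` -/
def Fb (x G : Matrix ι ι k) (a : ι → k) : (ι → k) →ₗ[k] (Fin 2 → k) where
  toFun f := ![f ⬝ᵥ (G *ᵥ a), f ⬝ᵥ (x *ᵥ a)]
  map_add' u v := by simp [add_dotProduct]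
  map_smul' c u := by simp [smul_dotProduct]

theorem range_pos {V W : Type*} [AddCommGroup V] [Module k V] [FiniteDimensional k V]
    [AddCommGroup W] [Module k W] [FiniteDimensional k W] {Φ : V →ₗ[k] W} {v : V}
    (h : Φ v ≠ 0) : 0 < finrank k (LinearMap.range Φ) := by
  have : Nontrivial (LinearMap.range Φ) :=
    ⟨⟨⟨Φ v, v, rfl⟩, 0, fun e => h (congrArg Subtype.val e)⟩⟩
  exact finrank_pos

theorem Fa_pos (hb : b ᵥ* x ≠ 0) : 0 < finrank k (LinearMap.range (Fa x G b)) := by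
  obtain ⟨w, hw⟩ := exists_vec hb
  refine range_pos (v := w) fun h => ?_
  have h1 := congrFun h 1
  have h2 : b ⬝ᵥ (x *ᵥ w) = 0 := h1
  rw [dotProduct_mulVec, hw] at h2
  exact one_ne_zero h2

theorem Fb_pos (ha : x *ᵥ a ≠ 0) : 0 < finrank k (LinearMap.range (Fb x G a)) := by
  obtain ⟨w, hw⟩ := exists_vec ha
  refine range_pos (v := w) fun h => ?_
  have h1 := congrFun h 1
  have h2 : w ⬝ᵥ (x *ᵥ a) = 0 := h1
  rw [dotProduct_comm, hw] at h2
  exact one_ne_zero h2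

theorem finrank_sup_span {V : Type*} [AddCommGroup V] [Module k V] [FiniteDimensional k V]
    (v : V) (U : Submodule k V) : finrank k ↥(Submodule.span k {v} ⊔ U) ≤ 1 + finrank k U := by
  refine (Submodule.finrank_add_le_finrank_add_finrank _ _).trans ?_
  have h1 : finrank k (Submodule.span k {v}) ≤ 1 := by
    have := finrank_span_le_card (R := k) ({v} : Set V)
    simpa using this
  omega

theorem finrank_ann (x : Matrix ι ι k) :
    x.rank + finrank k (LinearMap.ker x.vecMulLinear) = Fintype.card ι := by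
  have h1 := LinearMap.finrank_range_add_finrank_ker x.vecMulLinear
  rw [finrank_pi] at h1
  rw [← h1, ← Matrix.rank_transpose, Matrix.rank, Matrix.mulVecLin_transpose]

/-! ### the steps -/

section Steps

/-- `S1`: `a, a'` not both in `im x` -/
theorem stepA [Infinite k] (hx : x * x = 0)
    (hT : MaxR ρ ![LA m x, LX m x G a b, LX m x G' a' b'])
    (hG : Ok x G) (hG' : Ok x G') {u r : ℕ} (hu : x.rank = u) (hr : Fintype.card ι = r + u)
    (h : u + 2 < 2 * r) :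
    ∃ a₁ a₁' : ι → k, MaxR ρ ![LA m x, LX m x G a₁ b, LX m x G' a₁' b'] ∧
      ¬ ((∃ w, a₁ = x *ᵥ w) ∧ ∃ w, a₁' = x *ᵥ w) := by
  by_cases h0 : (∃ w, a = x *ᵥ w) ∧ ∃ w, a' = x *ᵥ w
  swap
  · exact ⟨a, a', hT, h0⟩
  obtain ⟨⟨w, hw⟩, w', hw'⟩ := h0
  obtain ⟨C, hC⟩ := Submodule.exists_isCompl (LinearMap.range x.mulVecLin)
  have hC1 : finrank k C = r := by
    have h1 := Submodule.finrank_add_eq_of_isCompl hC
    rw [finrank_pi, hr] at h1
    have h2 : finrank k (LinearMap.range x.mulVecLin) = u := hu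
    omega
  have hGm : ∀ v, G *ᵥ v ∈ LinearMap.range x.mulVecLin := by
    obtain ⟨K, hK⟩ := hG.im
    intro v
    exact ⟨K *ᵥ v, by rw [hK, ← mulVec_mulVec]; rfl⟩
  have hGm' : ∀ v, G' *ᵥ v ∈ LinearMap.range x.mulVecLin := by
    obtain ⟨K, hK⟩ := hG'.im
    intro v
    exact ⟨K *ᵥ v, by rw [hK, ← mulVec_mulVec]; rfl⟩
  let Φ : (C × C) →ₗ[k] (LinearMap.range x.mulVecLin) × (Fin 2 → k) :=
    { toFun := fun v => (⟨G *ᵥ (v.2 : ι → k) - G' *ᵥ (v.1 : ι → k), sub_mem (hGm _) (hGm' _)⟩,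
        ![b ⬝ᵥ (x *ᵥ (v.2 : ι → k)) - b' ⬝ᵥ (x *ᵥ (v.1 : ι → k)),
          b ⬝ᵥ (v.2 : ι → k) - b' ⬝ᵥ (v.1 : ι → k)])
      map_add' := by
        intro v v'
        ext i
        · simp [mulVec_add]
          ring
        · fin_cases i
          · simp [mulVec_add, dotProduct_add]
            ring
          · simp [dotProduct_add]
            ring
      map_smul' := by
        intro c v
        ext i
        · simp [mulVec_smul]
          ring
        · fin_cases i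
          · simp [mulVec_smul, dotProduct_smul]
            ring
          · simp [dotProduct_smul]
            ring }
  have hlt : finrank k ((LinearMap.range x.mulVecLin) × (Fin 2 → k)) < finrank k (C × C) := by
    rw [finrank_prod, finrank_prod, hC1]
    have h2 : finrank k (LinearMap.range x.mulVecLin) = u := hu
    have h3 : finrank k (Fin 2 → k) = 2 := by simp
    omega
  have hker := LinearMap.ker_ne_bot_of_finrank_lt (f := Φ) hlt
  obtain ⟨⟨e, e'⟩, hv, hv0⟩ := (Submodule.ne_bot_iff _).1 hker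
  rw [LinearMap.mem_ker] at hv
  have e1 : G *ᵥ (e' : ι → k) = G' *ᵥ (e : ι → k) := by
    have := congrArg (fun z => (z.1 : ι → k)) hv
    exact sub_eq_zero.1 this
  have e2 : b ⬝ᵥ (x *ᵥ (e' : ι → k)) = b' ⬝ᵥ (x *ᵥ (e : ι → k)) := by
    have := congrArg (fun z => z.2 0) hv
    exact sub_eq_zero.1 this
  have e3 : b ⬝ᵥ (e' : ι → k) = b' ⬝ᵥ (e : ι → k) := by
    have := congrArg (fun z => z.2 1) hv
    exact sub_eq_zero.1 this
  obtain ⟨s, hs, hM⟩ := famA hx hT hG hG' e1 e2 e3 (Set.finite_singleton 0)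
  rw [Set.mem_singleton_iff] at hs
  refine ⟨_, _, hM, ?_⟩
  rintro ⟨⟨z, hz⟩, z', hz'⟩
  have hd : ∀ y : C, (y : ι → k) ∈ LinearMap.range x.mulVecLin → y = 0 := by
    intro y hy
    have := (Submodule.disjoint_def.1 hC.disjoint) (y : ι → k) hy y.2
    exact Subtype.ext this
  apply hv0
  have f1 : e = 0 := hd e ⟨s⁻¹ • (z - w), by
    show x *ᵥ (s⁻¹ • (z - w)) = _
    rw [mulVec_smul, mulVec_sub, ← hz, ← hw, add_sub_cancel_left, inv_smul_smul₀ hs]⟩
  have f2 : e' = 0 := hd e' ⟨s⁻¹ • (z' - w'), by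
    show x *ᵥ (s⁻¹ • (z' - w')) = _
    rw [mulVec_smul, mulVec_sub, ← hz', ← hw', add_sub_cancel_left, inv_smul_smul₀ hs]⟩
  rw [f1, f2]
  rfl

/-- `S2`: `b x, b' x` not both zero -/
theorem stepB [Infinite k] (hx : x * x = 0)
    (hT : MaxR ρ ![LA m x, LX m x G a b, LX m x G' a' b'])
    (hG : Ok x G) (hG' : Ok x G') (ha : ∀ w, a ≠ x *ᵥ w) {u r : ℕ} (hu : x.rank = u)
    (hr : Fintype.card ι = r + u) (h : r + 1 < 2 * u) :
    ∃ b₁ b₁' : ι → k, MaxR ρ ![LA m x, LX m x G a b₁, LX m x G' a' b₁'] ∧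
      ¬ (b₁ ᵥ* x = 0 ∧ b₁' ᵥ* x = 0) := by
  by_cases h0 : b ᵥ* x = 0 ∧ b' ᵥ* x = 0
  swap
  · exact ⟨b, b', hT, h0⟩
  obtain ⟨hb, hb'⟩ := h0
  have hann : finrank k (LinearMap.ker x.vecMulLinear) = r := by
    have := finrank_ann x
    omega
  obtain ⟨C, hC⟩ := Submodule.exists_isCompl (LinearMap.ker x.vecMulLinear)
  have hC1 : finrank k C = u := by
    have h1 := Submodule.finrank_add_eq_of_isCompl hC
    rw [finrank_pi, hr] at h1
    omega
  have hGm : ∀ v : ι → k, v ᵥ* G ∈ LinearMap.ker x.vecMulLinear := by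
    intro v
    rw [LinearMap.mem_ker]
    show (v ᵥ* G) ᵥ* x = 0
    rw [vecMul_vecMul, hG.gx, vecMul_zero]
  have hGm' : ∀ v : ι → k, v ᵥ* G' ∈ LinearMap.ker x.vecMulLinear := by
    intro v
    rw [LinearMap.mem_ker]
    show (v ᵥ* G') ᵥ* x = 0
    rw [vecMul_vecMul, hG'.gx, vecMul_zero]
  let Φ : (C × C) →ₗ[k] (LinearMap.ker x.vecMulLinear) × k :=
    { toFun := fun v => (⟨(v.1 : ι → k) ᵥ* G' - (v.2 : ι → k) ᵥ* G, sub_mem (hGm' _) (hGm _)⟩,
        (v.1 : ι → k) ⬝ᵥ (x *ᵥ a') - (v.2 : ι → k) ⬝ᵥ (x *ᵥ a))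
      map_add' := by
        intro v v'
        ext i
        · simp [add_vecMul]
          ring
        · simp [add_dotProduct]
          ring
      map_smul' := by
        intro c v
        ext i
        · simp [smul_vecMul]
          ring
        · simp [smul_dotProduct]
          ring }
  have hlt : finrank k ((LinearMap.ker x.vecMulLinear) × k) < finrank k (C × C) := by
    rw [finrank_prod, finrank_prod, hC1, hann, finrank_self]
    omega
  have hker := LinearMap.ker_ne_bot_of_finrank_lt (f := Φ) hlt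
  obtain ⟨⟨f, f'⟩, hv, hv0⟩ := (Submodule.ne_bot_iff _).1 hker
  rw [LinearMap.mem_ker] at hv
  have e1 : (f : ι → k) ᵥ* G' = (f' : ι → k) ᵥ* G := by
    have := congrArg (fun z => (z.1 : ι → k)) hv
    exact sub_eq_zero.1 this
  have e2 : (f : ι → k) ⬝ᵥ (x *ᵥ a') = (f' : ι → k) ⬝ᵥ (x *ᵥ a) := by
    have := congrArg (fun z => z.2) hv
    exact sub_eq_zero.1 this
  obtain ⟨l, hl, hl'⟩ := exists_functional ha
  have hlG : l ᵥ* G = 0 := by
    obtain ⟨K, hK⟩ := hG.im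
    rw [hK, ← vecMul_vecMul, hl, zero_vecMul]
  have hlx : l ⬝ᵥ (x *ᵥ a) = 0 := by rw [dotProduct_mulVec, hl, zero_dotProduct]
  set t := (f : ι → k) ⬝ᵥ a' - (f' : ι → k) ⬝ᵥ a with ht
  obtain ⟨s, hs, hM⟩ := famB (f := (f : ι → k)) (f' := (f' : ι → k) + t • l) hx hT hG hG' (by
      rw [add_vecMul, smul_vecMul, hlG, smul_zero, add_zero, e1]) (by
      rw [add_dotProduct, smul_dotProduct, hlx, smul_zero, add_zero, e2]) (by
      rw [add_dotProduct, smul_dotProduct, hl', smul_eq_mul, ht]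
      ring) (Set.finite_singleton 0)
  rw [Set.mem_singleton_iff] at hs
  refine ⟨_, _, hM, ?_⟩
  rintro ⟨h1, h2⟩
  have hd : ∀ y : C, (y : ι → k) ᵥ* x = 0 → y = 0 := by
    intro y hy
    have := (Submodule.disjoint_def.1 hC.disjoint) (y : ι → k) hy y.2
    exact Subtype.ext this
  apply hv0
  rw [add_vecMul, hb, zero_add, smul_vecMul, smul_eq_zero] at h1
  rw [add_vecMul, hb', zero_add, smul_vecMul, smul_eq_zero, add_vecMul, smul_vecMul, hl,
    smul_zero, add_zero] at h2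
  rw [hd f (h1.resolve_left hs), hd f' (h2.resolve_left hs)]
  rfl

/-- `S3` in the situation `a` not in `im x`, `a'` in `im x` -/
theorem stepA2 [Infinite k] (hx : x * x = 0)
    (hT : MaxR ρ ![LA m x, LX m x G a b, LX m x G' a' b'])
    (hG : Ok x G) (hG' : Ok x G') (ha : ∀ w, a ≠ x *ᵥ w) (ha' : ∃ w, a' = x *ᵥ w)
    {u p : ℕ} (hu : x.rank = u) (hr : Fintype.card ι = u + p + u) (h : 3 ≤ u) :
    ∃ (G₁ : Matrix ι ι k) (a₁ b₁ : ι → k), Ok x G₁ ∧
      MaxR ρ ![LA m x, LX m x G a b, LX m x G₁ a₁ b₁] ∧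
      ∀ c c' : k, ∀ w, c • a + c' • a₁ = x *ᵥ w → c = 0 ∧ c' = 0 := by
  obtain ⟨z, hz⟩ := ha'
  obtain ⟨l, hl, hl'⟩ := exists_functional ha
  have hlG : l ᵥ* G = 0 := by
    obtain ⟨K, hK⟩ := hG.im
    rw [hK, ← vecMul_vecMul, hl, zero_vecMul]
  have hlx : l ⬝ᵥ (x *ᵥ a) = 0 := by rw [dotProduct_mulVec, hl, zero_dotProduct]
  have hU : finrank k ↥(Submodule.span k {a} ⊔ LinearMap.range x.mulVecLin) ≤ 1 + u :=
    (finrank_sup_span _ _).trans (by rw [← hu]; rfl)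
  -- the conclusion from a direction
  have key : ∀ (H : Matrix ι ι k) (e f : ι → k), Ok x H →
      e ∉ Submodule.span k {a} ⊔ LinearMap.range x.mulVecLin → H *ᵥ a = G *ᵥ e →
      b ᵥ* H = f ᵥ* G → b ⬝ᵥ (x *ᵥ e) = f ⬝ᵥ (x *ᵥ a) → b ⬝ᵥ e = f ⬝ᵥ a →
      ∃ (G₁ : Matrix ι ι k) (a₁ b₁ : ι → k), Ok x G₁ ∧
        MaxR ρ ![LA m x, LX m x G a b, LX m x G₁ a₁ b₁] ∧
        ∀ c c' : k, ∀ w, c • a + c' • a₁ = x *ᵥ w → c = 0 ∧ c' = 0 := by
    intro H e f hH he h1 h2 h3 h4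
    obtain ⟨s, hs, hM⟩ := famC hx hT hG hG' hH h1 h2 h3 h4 (Set.finite_singleton 0)
    rw [Set.mem_singleton_iff] at hs
    refine ⟨_, _, _, hG'.add (hH.smul s), hM, fun c c' w hw => ?_⟩
    have hc' : c' = 0 := by
      by_contra hc'
      apply he
      have h5 : e = (-(c' * s)⁻¹ * c) • a + x *ᵥ ((c' * s)⁻¹ • (w - c' • z)) := by
        rw [mulVec_smul, mulVec_sub, mulVec_smul, ← hw, ← hz]
        have h6 : (c' * s)⁻¹ * (c' * s) = 1 := inv_mul_cancel₀ (mul_ne_zero hc' hs)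
        ext i
        simp only [Pi.add_apply, Pi.smul_apply, Pi.sub_apply, smul_eq_mul]
        linear_combination (- e i) * h6
      rw [h5]
      exact Submodule.add_mem_sup (Submodule.smul_mem _ _ (Submodule.mem_span_singleton_self a))
        ⟨_, rfl⟩
    refine ⟨?_, hc'⟩
    by_contra hc
    rw [hc', zero_smul, add_zero] at hw
    exact ha (c⁻¹ • w) (by rw [mulVec_smul, ← hw, inv_smul_smul₀ hc])
  by_cases hb : b ᵥ* x = 0
  · obtain ⟨e, he⟩ : ∃ e, e ∉ Submodule.span k {a} ⊔ LinearMap.range x.mulVecLin := by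
      by_contra hne
      push Not at hne
      have h1 : Submodule.span k {a} ⊔ LinearMap.range x.mulVecLin = ⊤ :=
        Submodule.eq_top_iff'.2 hne
      rw [h1, finrank_top, finrank_pi, hr] at hU
      omega
    have hbG : ∀ v, b ⬝ᵥ (G *ᵥ v) = 0 := by
      intro v
      obtain ⟨K, hK⟩ := hG.im
      rw [hK, dotProduct_mulVec, ← vecMul_vecMul, hb, zero_vecMul, zero_dotProduct]
    obtain ⟨K, hK⟩ := hG.im
    refine key (vecMulVec (G *ᵥ e) l) e ((b ⬝ᵥ e) • l) ⟨?_, vecMulVec (K *ᵥ e) l, ?_⟩ he ?_ ?_ ?_ ?_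
    · rw [vecMulVec_mul, hl, vmv_zero]
    · rw [mul_vecMulVec, mulVec_mulVec, ← hK]
    · rw [vecMulVec_mulVec, hl']
      simp
    · rw [vecMul_vecMulVec, hbG, smul_vecMul, hlG]
      simp
    · rw [dotProduct_mulVec, hb, zero_dotProduct, smul_dotProduct, hlx, smul_zero]
    · rw [smul_dotProduct, hl', smul_eq_mul, mul_one]
  · obtain ⟨e, he, f, hf⟩ : ∃ e, e ∉ Submodule.span k {a} ⊔ LinearMap.range x.mulVecLin ∧
        ∃ f, Fa x G b e = Fb x G a f := by
      apply lin_choice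
      rw [finrank_pi, hr]
      by_cases hxa : x *ᵥ a = 0
      · -- here `p` is positive
        have hp : p ≠ 0 := by
          rintro rfl
          have h1 : LinearMap.range x.mulVecLin ≤ LinearMap.ker x.mulVecLin := by
            rintro _ ⟨w, rfl⟩
            rw [LinearMap.mem_ker]
            show x *ᵥ (x *ᵥ w) = 0
            rw [mulVec_mulVec, hx, zero_mulVec]
          have h2 := LinearMap.finrank_range_add_finrank_ker x.mulVecLin
          have h3 : finrank k (LinearMap.range x.mulVecLin) = u := hu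
          rw [finrank_pi, hr, h3] at h2
          have h4 := Submodule.eq_of_le_of_finrank_eq h1 (by omega)
          have h5 : a ∈ LinearMap.range x.mulVecLin := by
            rw [h4, LinearMap.mem_ker]
            exact hxa
          obtain ⟨w, hw⟩ := h5
          exact ha w hw.symm
        omega
      · have := Fb_pos (G := G) hxa
        omega
    have g1 : b ⬝ᵥ (G *ᵥ e) = f ⬝ᵥ (G *ᵥ a) := congrFun hf 0
    have g2 : b ⬝ᵥ (x *ᵥ e) = f ⬝ᵥ (x *ᵥ a) := congrFun hf 1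
    obtain ⟨H, hH, hH1, hH2⟩ := exists_H hG ha hb g1
    refine key H e (f + (b ⬝ᵥ e - f ⬝ᵥ a) • l) hH he hH1 ?_ ?_ ?_
    · rw [hH2, add_vecMul, smul_vecMul, hlG, smul_zero, add_zero]
    · rw [g2, add_dotProduct, smul_dotProduct, hlx, smul_zero, add_zero]
    · rw [add_dotProduct, smul_dotProduct, hl', smul_eq_mul]
      ring

/-- `S4` in the situation `b x` nonzero, `b' x` zero -/
theorem stepB2 [Infinite k] (hx : x * x = 0)
    (hT : MaxR ρ ![LA m x, LX m x G a b, LX m x G' a' b'])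
    (hG : Ok x G) (hG' : Ok x G')
    (ha : ∀ c c' : k, ∀ w, c • a + c' • a' = x *ᵥ w → c = 0 ∧ c' = 0) (hb : b ᵥ* x ≠ 0)
    (hb' : b' ᵥ* x = 0) {u r : ℕ} (hu : x.rank = u) (hr : Fintype.card ι = r + u) (h : 3 ≤ u) :
    ∃ (G₁ : Matrix ι ι k) (a₁ b₁ : ι → k), Ok x G₁ ∧
      MaxR ρ ![LA m x, LX m x G a b, LX m x G₁ a₁ b₁] ∧
      (∀ c c' : k, ∀ w, c • a + c' • a₁ = x *ᵥ w → c = 0 ∧ c' = 0) ∧
      ∀ c c' : k, c • (b ᵥ* x) + c' • (b₁ ᵥ* x) = 0 → c = 0 ∧ c' = 0 := by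
  have ha0 : ∀ w, a ≠ x *ᵥ w := by
    intro w hw
    have := (ha 1 0 w (by rw [one_smul, zero_smul, add_zero, hw])).1
    exact one_ne_zero this
  obtain ⟨l, hl, hl'⟩ := exists_functional ha0
  have hlG : l ᵥ* G = 0 := by
    obtain ⟨K, hK⟩ := hG.im
    rw [hK, ← vecMul_vecMul, hl, zero_vecMul]
  have hlx : l ⬝ᵥ (x *ᵥ a) = 0 := by rw [dotProduct_mulVec, hl, zero_dotProduct]
  have hann : finrank k (LinearMap.ker x.vecMulLinear) = r := by
    have := finrank_ann x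
    omega
  obtain ⟨f, hf0, e, hf⟩ : ∃ f, f ∉ Submodule.span k {b} ⊔ LinearMap.ker x.vecMulLinear ∧
      ∃ e, Fb x G a f = Fa x G b e := by
    apply lin_choice
    have h1 := finrank_sup_span b (LinearMap.ker x.vecMulLinear)
    have h2 := Fa_pos (G := G) hb
    rw [finrank_pi, hr]
    omega
  have g1 : b ⬝ᵥ (G *ᵥ e) = f ⬝ᵥ (G *ᵥ a) := (congrFun hf 0).symm
  have g2 : b ⬝ᵥ (x *ᵥ e) = f ⬝ᵥ (x *ᵥ a) := (congrFun hf 1).symm
  obtain ⟨H, hH, hH1, hH2⟩ := exists_H hG ha0 hb g1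
  -- the parameters where `a, a' + s e` are dependent
  have hfin : {s : k | ∃ c : k, ∃ w, a' + s • e = c • a + x *ᵥ w}.Finite := by
    refine Set.Subsingleton.finite ?_
    rintro s ⟨c, w, hs⟩ t ⟨d, v, ht⟩
    by_contra hne
    have hst : s - t ≠ 0 := sub_ne_zero.2 hne
    have h1 : (s - t) • e = (c - d) • a + x *ᵥ (w - v) := by
      rw [mulVec_sub]
      have h2 : (s - t) • e = (a' + s • e) - (a' + t • e) := by module
      rw [h2, hs, ht]
      module
    have h3 := (ha (t * (c - d) - (s - t) * d) (s - t) ((s - t) • v - t • (w - v)) (by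
      rw [mulVec_sub, mulVec_smul, mulVec_smul]
      have h4 : (s - t) • a' = (s - t) • (d • a + x *ᵥ v) - t • ((s - t) • e) := by
        rw [← ht]
        module
      rw [h4, h1]
      module)).2
    exact hst h3
  obtain ⟨s, hs, hM⟩ := famC (f := f + (b ⬝ᵥ e - f ⬝ᵥ a) • l) hx hT hG hG' hH hH1 (by
    rw [hH2, add_vecMul, smul_vecMul, hlG, smul_zero, add_zero]) (by
    rw [g2, add_dotProduct, smul_dotProduct, hlx, smul_zero, add_zero]) (by
    rw [add_dotProduct, smul_dotProduct, hl', smul_eq_mul]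
    ring) (hfin.union (Set.finite_singleton 0))
  simp only [Set.mem_union, not_or, Set.mem_singleton_iff, Set.mem_ofPred_eq, not_exists] at hs
  obtain ⟨hs1, hs0⟩ := hs
  refine ⟨_, _, _, hG'.add (hH.smul s), hM, fun c c' w hw => ?_, fun c c' hc => ?_⟩
  · have hc' : c' = 0 := by
      by_contra hc'
      refine hs1 (-(c'⁻¹ * c)) (c'⁻¹ • w) ?_
      rw [mulVec_smul, ← hw, smul_add, smul_smul, smul_smul, inv_mul_cancel₀ hc']
      module
    refine ⟨?_, hc'⟩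
    by_contra hc
    rw [hc', zero_smul, add_zero] at hw
    exact ha0 (c⁻¹ • w) (by rw [mulVec_smul, ← hw, inv_smul_smul₀ hc])
  · rw [add_vecMul, hb', zero_add, smul_vecMul, add_vecMul, smul_vecMul, hl, smul_zero,
      add_zero] at hc
    have hc' : c' = 0 := by
      by_contra hc'
      apply hf0
      have h5 : f = (-((c' * s)⁻¹ * c)) • b + (f + ((c' * s)⁻¹ * c) • b) := by module
      rw [h5]
      refine Submodule.add_mem_sup
        (Submodule.smul_mem _ _ (Submodule.mem_span_singleton_self b)) ?_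
      rw [LinearMap.mem_ker]
      show (f + ((c' * s)⁻¹ * c) • b) ᵥ* x = 0
      have h6 : (c' * s)⁻¹ * (c' * s) = 1 := inv_mul_cancel₀ (mul_ne_zero hc' hs0)
      have h7 : (f + ((c' * s)⁻¹ * c) • b) ᵥ* x =
          (c' * s)⁻¹ • (c • (b ᵥ* x) + c' • s • (f ᵥ* x)) := by
        rw [add_vecMul, smul_vecMul, smul_add, smul_smul, smul_smul, smul_smul,
          mul_assoc (c' * s)⁻¹ c' s, h6, one_smul,
          add_comm]
      rw [h7, hc, smul_zero]
    refine ⟨?_, hc'⟩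
    rw [hc', zero_smul, add_zero, smul_eq_zero] at hc
    exact hc.resolve_right hb

/-- a dependent pair: a linear change with the second vector zero and the first nonzero -/
theorem dep_change {V : Type*} [AddCommGroup V] [Module k V] (U : Submodule k V) {a a' : V}
    (h0 : ¬ (a ∈ U ∧ a' ∈ U)) (h : ¬ ∀ c c' : k, c • a + c' • a' ∈ U → c = 0 ∧ c' = 0) :
    ∃ p q r s : k, p * s - q * r ≠ 0 ∧ p • a + q • a' ∉ U ∧ r • a + s • a' ∈ U := by
  push Not at h
  obtain ⟨c, c', hc, hne⟩ := h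
  by_cases hc' : c' = 0
  · have hc0 : c ≠ 0 := fun e => hne e hc'
    refine ⟨0, 1, c, c', by rw [hc']; simpa using hc0, ?_, hc⟩
    rw [zero_smul, zero_add, one_smul]
    intro h1
    rw [hc', zero_smul, add_zero, Submodule.smul_mem_iff _ hc0] at hc
    exact h0 ⟨hc, h1⟩
  · refine ⟨1, 0, c, c', by simpa using hc', ?_, hc⟩
    rw [zero_smul, add_zero, one_smul]
    intro h1
    have h2 : c' • a' ∈ U := by
      have := sub_mem hc (U.smul_mem c h1)
      simpa using this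
    rw [Submodule.smul_mem_iff _ hc'] at h2
    exact h0 ⟨h1, h2⟩

/-- the maximal bad triples of this shape have others with independent `a, a'` modulo `im x` and
independent `b x, b' x` -/
theorem indep [Infinite k] (hx : x * x = 0)
    (hT : MaxR ρ ![LA m x, LX m x G a b, LX m x G' a' b'])
    (hG : Ok x G) (hG' : Ok x G') {u p : ℕ} (hu : x.rank = u)
    (hr : Fintype.card ι = u + p + u) (h : 3 ≤ u) (hp : p + 2 ≤ u) :
    ∃ (G₁ G₁' : Matrix ι ι k) (a₁ b₁ a₁' b₁' : ι → k), Ok x G₁ ∧ Ok x G₁' ∧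
      MaxR ρ ![LA m x, LX m x G₁ a₁ b₁, LX m x G₁' a₁' b₁'] ∧
      (∀ c c' : k, ∀ w, c • a₁ + c' • a₁' = x *ᵥ w → c = 0 ∧ c' = 0) ∧
      ∀ c c' : k, c • (b₁ ᵥ* x) + c' • (b₁' ᵥ* x) = 0 → c = 0 ∧ c' = 0 := by
  -- the first step
  have hA : ∃ (G₁ G₁' : Matrix ι ι k) (a₁ b₁ a₁' b₁' : ι → k), Ok x G₁ ∧ Ok x G₁' ∧
      MaxR ρ ![LA m x, LX m x G₁ a₁ b₁, LX m x G₁' a₁' b₁'] ∧
      (∀ c c' : k, ∀ w, c • a₁ + c' • a₁' = x *ᵥ w → c = 0 ∧ c' = 0) := by
    obtain ⟨a1, a1', hT1, hn⟩ := stepA hx hT hG hG' hu hr (by omega)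
    by_cases hi : ∀ c c' : k, ∀ w, c • a1 + c' • a1' = x *ᵥ w → c = 0 ∧ c' = 0
    · exact ⟨G, G', a1, b, a1', b', hG, hG', hT1, hi⟩
    · obtain ⟨p', q, r, s, hdet, h1, h2⟩ := dep_change (LinearMap.range x.mulVecLin)
        (a := a1) (a' := a1') (by
          rintro ⟨⟨w, hw⟩, w', hw'⟩
          exact hn ⟨⟨w, hw.symm⟩, w', hw'.symm⟩) (by
          intro hall
          apply hi
          intro c c' w hw
          exact hall c c' ⟨w, hw.symm⟩)
      have hT2 := chg hT1 p' q r s hdet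
      obtain ⟨G2, a2, b2, hG2, hT3, hind⟩ := stepA2 hx hT2 ((hG.smul p').add (hG'.smul q))
        ((hG.smul r).add (hG'.smul s)) (by
          intro w hw
          exact h1 ⟨w, hw.symm⟩) (by
          obtain ⟨w, hw⟩ := h2
          exact ⟨w, hw.symm⟩) hu hr h
      exact ⟨_, G2, _, _, a2, b2, (hG.smul p').add (hG'.smul q), hG2, hT3, hind⟩
  obtain ⟨G1, G1', a1, b1, a1', b1', hG1, hG1', hT1, hi⟩ := hA
  obtain ⟨b2, b2', hT2, hn⟩ := stepB hx hT1 hG1 hG1' (by
    intro w hw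
    have := (hi 1 0 w (by rw [one_smul, zero_smul, add_zero, hw])).1
    exact one_ne_zero this) hu hr (by omega)
  by_cases hj : ∀ c c' : k, c • (b2 ᵥ* x) + c' • (b2' ᵥ* x) = 0 → c = 0 ∧ c' = 0
  · exact ⟨G1, G1', a1, b2, a1', b2', hG1, hG1', hT2, hi, hj⟩
  · obtain ⟨p', q, r, s, hdet, h1, h2⟩ := dep_change (⊥ : Submodule k (ι → k))
      (a := b2 ᵥ* x) (a' := b2' ᵥ* x) (by simpa using hn) (by simpa using hj)
    rw [Submodule.mem_bot] at h1 h2
    have hT3 := chg hT2 p' q r s hdet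
    obtain ⟨G3, a3, b3, hG3, hT4, hind, hind'⟩ := stepB2 hx hT3 ((hG1.smul p').add (hG1'.smul q))
      ((hG1.smul r).add (hG1'.smul s)) (by
        intro c c' w hw
        obtain ⟨e1, e2⟩ := hi (c * p' + c' * r) (c * q + c' * s) w (by
          rw [← hw]
          module)
        have hdet' : p' * s - q * r ≠ 0 := hdet
        constructor
        · have : c * (p' * s - q * r) = 0 := by linear_combination s * e1 - r * e2
          exact (mul_eq_zero.1 this).resolve_right hdet'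
        · have : c' * (p' * s - q * r) = 0 := by linear_combination p' * e2 - q * e1
          exact (mul_eq_zero.1 this).resolve_right hdet') (by
        rw [add_vecMul, smul_vecMul, smul_vecMul]
        exact h1) (by
        rw [add_vecMul, smul_vecMul, smul_vecMul]
        exact h2) hu hr h
    exact ⟨_, G3, _, _, a3, b3, (hG1.smul p').add (hG1'.smul q), hG3, hT4, hind, hind'⟩

/-- for `dim R = 2 rank x` the matrices with `x G = 0 = G x` are of this kind -/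
theorem ok_of_even (hx : x * x = 0) {u : ℕ} (hu : x.rank = u) (hr : Fintype.card ι = u + u)
    (h1 : x * G = 0) (h2 : G * x = 0) : Ok x G := by
  refine ⟨h2, ?_⟩
  have h3 : LinearMap.range x.mulVecLin ≤ LinearMap.ker x.mulVecLin := by
    rintro _ ⟨w, rfl⟩
    rw [LinearMap.mem_ker]
    show x *ᵥ (x *ᵥ w) = 0
    rw [mulVec_mulVec, hx, zero_mulVec]
  have h4 := LinearMap.finrank_range_add_finrank_ker x.mulVecLin
  have h5 : finrank k (LinearMap.range x.mulVecLin) = u := hu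
  rw [finrank_pi, hr, h5] at h4
  have h6 := Submodule.eq_of_le_of_finrank_eq h3 (by omega)
  have h7 : ∀ j, ∃ w, G.col j = x *ᵥ w := by
    intro j
    have : G.col j ∈ LinearMap.range x.mulVecLin := by
      rw [h6, LinearMap.mem_ker]
      show x *ᵥ G.col j = 0
      rw [← mulVec_single_one, mulVec_mulVec, h1, zero_mulVec]
    obtain ⟨w, hw⟩ := this
    exact ⟨w, hw.symm⟩
  choose w hw using h7
  refine ⟨Matrix.of fun i j => w j i, ?_⟩
  ext i j
  have := congrFun (hw j) i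
  rw [Matrix.mul_apply]
  exact this

end Steps

end L2

end Pool.Agent.Lib.D13
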