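import Pool.Agent.Lib.D13.L2Shape
import Pool.Agent.Lib.D9.BlkMap

/-!
# MP_5dcbc3_ag: type (l, 2^u, 1^p), l >= 4: duality, moves of `x`, dichotomy
-/

namespace Pool.Agent.Lib.D13

open Matrix Pool.Agent.Lib.Q5dc Pool.Agent.Lib.D7

section Gen

variable {k n : Type*} [Field k] [Fintype n] [DecidableEq n]

/-- limits of images of constant rank, outside of a finite set -/
theorem range_lim_fin [Infinite k] (M : k → Matrix n n k) (hM : ∀ x y, IsPoly fun s => M s x y)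
    (u w : k → n → k) (hw : ∀ x, IsPoly fun s => w s x) (j : ℕ)
    (h : ∀ s, M s *ᵥ u s = s ^ j • w s) {E : Set k} (hE : E.Finite)
    (hr : ∀ s ∉ E, (M s).rank ≤ (M 0).rank) :
    ∃ m, w 0 = M 0 *ᵥ m := by
  by_contra hno
  have hdet : (M 0).det = 0 := by
    by_contra hd
    exact hno ⟨(M 0)⁻¹ *ᵥ w 0, by
      rw [mulVec_mulVec, Matrix.mul_nonsing_inv _ (isUnit_iff_ne_zero.2 hd), one_mulVec]⟩
  obtain ⟨q, hq0, hq⟩ := Matrix.exists_mulVec_eq_zero_iff.2 hdet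
  obtain ⟨i, hi⟩ : ∃ i, q i ≠ 0 := by
    by_contra hh
    push Not at hh
    exact hq0 (funext hh)
  have hψ : (Pi.single i 1 : n → k) ⬝ᵥ q ≠ 0 := by simpa using hi
  have h1 := PsiAux.rank_lt (M 0) (w 0) (Pi.single i 1) q hq hψ hno (s := 1) one_ne_zero
  rw [one_smul] at h1
  have h2 := rank_semicont (fun s => M s + vecMulVec (w s) (Pi.single i 1 : n → k)) (fun x y => by
    have := (hM x y).add ((hw x).mul (D7.IsPoly.const ((Pi.single i 1 : n → k) y)))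
    simpa [vecMulVec_apply] using this) 0
  have h3 : ({s : k | (M s + vecMulVec (w s) (Pi.single i 1 : n → k)).rank <
      (M 0 + vecMulVec (w 0) (Pi.single i 1 : n → k)).rank} ∪ ({0} ∪ E)).Finite :=
    h2.union ((Set.finite_singleton 0).union hE)
  obtain ⟨s, hs⟩ := h3.infinite_compl.nonempty
  rw [Set.mem_compl_iff, Set.mem_union, Set.mem_union, not_or, not_or] at hs
  obtain ⟨hs1, hs2, hsE⟩ := hs
  have hs0 : s ≠ 0 := fun h => hs2 (by simp [h])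
  rw [Set.mem_ofPred_eq, not_lt] at hs1
  have h4 : M s + vecMulVec (w s) (Pi.single i 1 : n → k) =
      M s * (1 + vecMulVec ((s ^ j)⁻¹ • u s) (Pi.single i 1 : n → k)) := by
    rw [mul_add, mul_one, mul_vecMulVec, mulVec_smul, h s, smul_smul,
      inv_mul_cancel₀ (pow_ne_zero _ hs0), one_smul]
  have h5 : (M s + vecMulVec (w s) (Pi.single i 1 : n → k)).rank ≤ (M s).rank := by
    rw [h4]
    exact rank_mul_le_left _ _
  have h6 := hr s hsE
  omega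

/-- limits of images for the first matrix of a deformation of a maximal bad triple -/
theorem MaxR.image_lim [Infinite k] {ρ : ℕ → ℕ} {T : Fin 3 → Matrix n n k} (hT : MaxR ρ T)
    (c : k → Fin 3 → Matrix n n k) (hc : PolyFam c) (h0 : c 0 = T) {E : Set k} (hE : E.Finite)
    (hcn : ∀ s ∉ E, CN (c s)) (hρ : ρ 1 ≤ (T 0).rank) (u w : k → n → k)
    (hw : ∀ x, IsPoly fun s => w s x) (j : ℕ) (h : ∀ s, c s 0 *ᵥ u s = s ^ j • w s) :
    ∃ v, w 0 = T 0 *ᵥ v := by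
  obtain ⟨E', hE', h1⟩ := hT.deform c hc h0 hE hcn
  have h2 := range_lim_fin (fun s => c s 0) (hc 0) u w hw j h hE' (fun s hs => by
    have h3 := (h1 s hs).rank_le (mem_adj (c s) 0) 1
    rw [pow_one] at h3
    refine h3.trans ?_
    show ρ 1 ≤ (c 0 0).rank
    rw [h0]
    exact hρ)
  rw [h0] at h2
  exact h2

/-- separation of a vector from a subspace -/
theorem exists_sep (p : Submodule k (n → k)) {v : n → k} (hv : v ∉ p) :
    ∃ φ : n → k, (∀ w ∈ p, φ ⬝ᵥ w = 0) ∧ φ ⬝ᵥ v = 1 := by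
  obtain ⟨f, hf, hp⟩ := Submodule.exists_dual_map_eq_bot_of_notMem hv inferInstance
  have key : ∀ w : n → k, (fun i => (f v)⁻¹ * f (Pi.single i 1)) ⬝ᵥ w = (f v)⁻¹ * f w := by
    intro w
    have h1 : w = ∑ i, w i • (Pi.single i (1 : k) : n → k) := by
      ext j
      simp [Finset.sum_apply, Pi.single_apply]
    conv_rhs => rw [h1, map_sum, Finset.mul_sum]
    rw [dotProduct]
    refine Finset.sum_congr rfl fun i _ => ?_
    rw [map_smul, smul_eq_mul]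
    ring
  refine ⟨fun i => (f v)⁻¹ * f (Pi.single i 1), fun w hw => ?_, ?_⟩
  · rw [key]
    have : f w ∈ p.map f := Submodule.mem_map_of_mem hw
    rw [hp, Submodule.mem_bot] at this
    rw [this, mul_zero]
  · rw [key, inv_mul_cancel₀ hf]

theorem exists_sep_range {m : Type*} [Fintype m] (M : Matrix n m k) {v : n → k}
    (hv : ¬ ∃ t, v = M *ᵥ t) : ∃ φ : n → k, φ ᵥ* M = 0 ∧ φ ⬝ᵥ v = 1 := by
  classical
  obtain ⟨φ, h1, h2⟩ := exists_sep (LinearMap.range M.mulVecLin) (v := v) (by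
    rintro ⟨t, ht⟩
    exact hv ⟨t, by rw [← ht, mulVecLin_apply]⟩)
  refine ⟨φ, ?_, h2⟩
  ext i
  have h3 := h1 (M *ᵥ Pi.single i 1) ⟨Pi.single i 1, by rw [mulVecLin_apply]⟩
  rw [dotProduct_mulVec] at h3
  simpa using h3

/-- a nonzero vector is detected by a functional -/
theorem exists_dot {v : n → k} (hv : v ≠ 0) : ∃ φ : n → k, φ ⬝ᵥ v = 1 := by
  obtain ⟨φ, -, h⟩ := exists_sep (⊥ : Submodule k (n → k)) (v := v) (by simpa using hv)
  exact ⟨φ, h⟩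

end Gen

variable {k : Type*} [Field k] {ι : Type*} [Fintype ι] [DecidableEq ι]

namespace L2

/-- modules of square zero -/
structure Two (x G G' : Matrix ι ι k) : Prop where
  xx : x * x = 0
  xG : x * G = 0
  Gx : G * x = 0
  xH : x * G' = 0
  Hx : G' * x = 0
  GG : G * G = 0
  GH : G * G' = 0
  HG : G' * G = 0
  HH : G' * G' = 0

/-- the relations -/
structure Rel (x G G' : Matrix ι ι k) (a b a' b' : ι → k) : Prop where
  al : G *ᵥ a' = G' *ᵥ a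
  be : b ᵥ* G' = b' ᵥ* G
  ga : b ⬝ᵥ (x *ᵥ a') = b' ⬝ᵥ (x *ᵥ a)
  de : b ⬝ᵥ a' = b' ⬝ᵥ a

variable {ρ : ℕ → ℕ} {m : ℕ} {x G G' : Matrix ι ι k} {a a' b b' : ι → k}

theorem cn (h : Two x G G') (r : Rel x G G' a b a' b') :
    CN ![LA m x, LX m x G a b, LX m x G' a' b'] :=
  LX_cn h.xx (h.xG.trans h.Gx.symm) (h.xH.trans h.Hx.symm) ⟨2, by rw [pow_two, h.GG]⟩
    ⟨2, by rw [pow_two, h.HH]⟩ (h.GH.trans h.HG.symm) r.al r.be r.ga r.de

/-- the shape of a maximal bad triple -/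
theorem shape2 [CharZero k] {T : Fin 3 → Matrix (Fin (m + 4) ⊕ ι) (Fin (m + 4) ⊕ ι) k}
    (hT : MaxR ρ T) (hρ : ∀ i, ρ i = (T 0 ^ i).rank) (h0 : T 0 = LA m x) (hx : x * x = 0) :
    ∃ (G G' : Matrix ι ι k) (a b a' b' : ι → k),
      MaxR ρ ![LA m x, LX m x G a b, LX m x G' a' b'] ∧ Two x G G' ∧ Rel x G G' a b a' b' := by
  obtain ⟨G, G', a, b, a', b', hM, h1, h2, h3, h4, h5, h6, h7, h8⟩ := shape hT hρ h0 hx
  have h9 := rel (hM.cn.1 1 2) hx
  exact ⟨G, G', a, b, a', b', hM, ⟨hx, h1, h2, h3, h4, h5, h6, h7, h8⟩,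
    ⟨h9.2.1, h9.2.2.1, h9.2.2.2.1, h9.2.2.2.2⟩⟩

/-! ### duality -/

theorem Two.dual (h : Two x G G') : Two xᵀ Gᵀ G'ᵀ := by
  have t : ∀ {M N : Matrix ι ι k}, M * N = 0 → Nᵀ * Mᵀ = 0 := by
    intro M N h
    rw [← transpose_mul, h, transpose_zero]
  exact ⟨t h.xx, t h.Gx, t h.xG, t h.Hx, t h.xH, t h.GG, t h.HG, t h.GH, t h.HH⟩

theorem Rel.dual (r : Rel x G G' a b a' b') : Rel xᵀ Gᵀ G'ᵀ b a b' a' := by
  refine ⟨?_, ?_, ?_, ?_⟩
  · rw [mulVec_transpose, mulVec_transpose, r.be]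
  · rw [vecMul_transpose, vecMul_transpose, r.al]
  · rw [mulVec_transpose, mulVec_transpose, dotProduct_comm, dotProduct_comm a',
      ← dotProduct_mulVec, ← dotProduct_mulVec, r.ga]
  · rw [dotProduct_comm, dotProduct_comm a', r.de]

/-- reversal of the long block -/
def revE (m : ℕ) (ι : Type*) : Fin (m + 4) ⊕ ι ≃ Fin (m + 4) ⊕ ι :=
  Equiv.sumCongr Fin.revPerm (Equiv.refl ι)

theorem LA_dual : Matrix.reindexAlgEquiv k k (revE m ι) (LA m x)ᵀ = LA m xᵀ := by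
  ext i j
  rcases i with i | i <;> rcases j with j | j
  · have hi := i.2
    have hj := j.2
    simp only [revE, LA, coe_reindexAlgEquiv, reindex_apply, submatrix_apply, transpose_apply,
      Equiv.sumCongr_symm, Equiv.sumCongr_apply, Sum.map_inl, fromBlocks_apply₁₁, ShF,
      Matrix.of_apply, Fin.revPerm_symm, Fin.revPerm_apply, Fin.val_rev]
    refine if_congr ?_ rfl rfl
    omega
  all_goals simp [revE, LA]

theorem LX_dual : Matrix.reindexAlgEquiv k k (revE m ι) (LX m x G a b)ᵀ = LX m xᵀ Gᵀ b a := by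
  have e0 : ∀ i : Fin (m + 4), ev k (m + 4) 0 (Fin.rev i) = ev k (m + 4) (m + 3) i := by
    intro i
    have hi := i.2
    simp only [ev, Fin.val_rev]
    refine if_congr ?_ rfl rfl
    omega
  have e1 : ∀ i : Fin (m + 4), ev k (m + 4) 1 (Fin.rev i) = ev k (m + 4) (m + 2) i := by
    intro i
    have hi := i.2
    simp only [ev, Fin.val_rev]
    refine if_congr ?_ rfl rfl
    omega
  have e2 : ∀ i : Fin (m + 4), ev k (m + 4) (m + 2) (Fin.rev i) = ev k (m + 4) 1 i := by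
    intro i
    have hi := i.2
    simp only [ev, Fin.val_rev]
    refine if_congr ?_ rfl rfl
    omega
  have e3 : ∀ i : Fin (m + 4), ev k (m + 4) (m + 3) (Fin.rev i) = ev k (m + 4) 0 i := by
    intro i
    have hi := i.2
    simp only [ev, Fin.val_rev]
    refine if_congr ?_ rfl rfl
    omega
  ext i j
  rcases i with i | i <;> rcases j with j | j
  · simp [revE, LX]
  · simp [revE, LX, Lb, Lc, vecMulVec_apply, e0, e1, vecMul_transpose]
    ring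
  · simp [revE, LX, Lb, Lc, vecMulVec_apply, e2, e3, mulVec_transpose]
    ring
  · simp [revE, LX]

theorem dual [Infinite k] (hT : MaxR ρ ![LA m x, LX m x G a b, LX m x G' a' b']) :
    MaxR ρ ![LA m xᵀ, LX m xᵀ Gᵀ b a, LX m xᵀ G'ᵀ b' a'] := by
  have h := D9.MaxR.reindex (revE m ι) hT.transpose
  convert h using 1
  funext i
  fin_cases i
  · exact LA_dual.symm
  · exact LX_dual.symm
  · exact LX_dual.symm

theorem rank_dual : (LA m xᵀ).rank = (LA m x).rank := by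
  rw [← LA_dual, D9.BlkMapAux.rank_reindexAlgEquiv, rank_transpose]

/-! ### moving `x` -/

/-- the derivative of `LX` with respect to `x` -/
def LXd (m : ℕ) (x : Matrix ι ι k) (a b : ι → k) :
    Matrix (Fin (m + 4) ⊕ ι) (Fin (m + 4) ⊕ ι) k :=
  fromBlocks 0 (vecMulVec (ev k (m + 4) (m + 2)) (b ᵥ* x))
    (vecMulVec (x *ᵥ a) (ev k (m + 4) 1)) 0

theorem LA_add (x' : Matrix ι ι k) (s : k) :
    LA m (x + s • x') = LA m x + s • fromBlocks 0 0 0 x' := by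
  ext i j
  rcases i with i | i <;> rcases j with j | j <;> simp [LA]

theorem LX_add_x (x' : Matrix ι ι k) (s : k) :
    LX m (x + s • x') G a b = LX m x G a b + s • LXd m x' a b := by
  ext i j
  rcases i with i | i <;> rcases j with j | j
  · simp [LX, LXd]
  · simp only [LX, LXd, Lb, fromBlocks_apply₁₂, Matrix.add_apply, Matrix.smul_apply,
      vecMulVec_apply, vecMul_add, vecMul_smul, Pi.add_apply, Pi.smul_apply, smul_eq_mul]
    ring
  · simp only [LX, LXd, Lc, fromBlocks_apply₂₁, Matrix.add_apply, Matrix.smul_apply,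
      vecMulVec_apply, add_mulVec, smul_mulVec, Pi.add_apply, Pi.smul_apply, smul_eq_mul]
    ring
  · simp [LX, LXd]

/-- the matrices by which `x` may be moved -/
structure Mv (x G G' x' : Matrix ι ι k) (a b a' b' : ι → k) : Prop where
  xx : x * x' = 0
  yx : x' * x = 0
  yy : x' * x' = 0
  Gy : G * x' = 0
  yG : x' * G = 0
  Hy : G' * x' = 0
  yH : x' * G' = 0
  ga : b ⬝ᵥ (x' *ᵥ a') = b' ⬝ᵥ (x' *ᵥ a)

theorem Two.move {x' : Matrix ι ι k} (h : Two x G G') (v : Mv x G G' x' a b a' b') (s : k) :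
    Two (x + s • x') G G' := by
  refine ⟨?_, ?_, ?_, ?_, ?_, h.GG, h.GH, h.HG, h.HH⟩
  · simp [Matrix.add_mul, Matrix.mul_add, h.xx, v.xx, v.yx, v.yy]
  · simp [Matrix.add_mul, h.xG, v.yG]
  · simp [Matrix.mul_add, h.Gx, v.Gy]
  · simp [Matrix.add_mul, h.xH, v.yH]
  · simp [Matrix.mul_add, h.Hx, v.Hy]

theorem Rel.move {x' : Matrix ι ι k} (r : Rel x G G' a b a' b') (v : Mv x G G' x' a b a' b')
    (s : k) : Rel (x + s • x') G G' a b a' b' := by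
  refine ⟨r.al, r.be, ?_, r.de⟩
  simp [add_mulVec, smul_mulVec, dotProduct_add, dotProduct_smul, r.ga, v.ga]

theorem fam_eq (x' : Matrix ι ι k) (s : k) :
    (![LA m (x + s • x'), LX m (x + s • x') G a b, LX m (x + s • x') G' a' b'] :
      Fin 3 → Matrix (Fin (m + 4) ⊕ ι) (Fin (m + 4) ⊕ ι) k) =
    ![LA m x, LX m x G a b, LX m x G' a' b'] +
      s • ![fromBlocks 0 0 0 x', LXd m x' a b, LXd m x' a' b'] := by
  funext i
  fin_cases i
  · exact LA_add x' s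
  · exact LX_add_x x' s
  · exact LX_add_x x' s

/-- limits of images of `x` under moves of `x` -/
theorem move_lim [Infinite k] (hT : MaxR ρ ![LA m x, LX m x G a b, LX m x G' a' b'])
    (hρ : ρ 1 ≤ (LA m x).rank) (h : Two x G G') (r : Rel x G G' a b a' b') {x' : Matrix ι ι k}
    (v : Mv x G G' x' a b a' b') (u : k → ι → k) (w : ι → k) (j : ℕ)
    (hu : ∀ s : k, (x + s • x') *ᵥ u s = s ^ j • w) : ∃ t, w = x *ᵥ t := by
  obtain ⟨t, ht⟩ := MaxR.image_lim hT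
    (fun s => ![LA m x, LX m x G a b, LX m x G' a' b'] +
      s • ![fromBlocks 0 0 0 x', LXd m x' a b, LXd m x' a' b']) (PolyFam.line _ _) (by simp)
    Set.finite_empty (fun s _ => by
      show CN (![LA m x, LX m x G a b, LX m x G' a' b'] +
        s • ![fromBlocks 0 0 0 x', LXd m x' a b, LXd m x' a' b'])
      rw [← fam_eq]
      exact cn (h.move v s) (r.move v s)) hρ (fun s => Sum.elim 0 (u s)) (fun _ => Sum.elim 0 w)
    (fun y => D7.IsPoly.const _) j (fun s => by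
      have e : (![LA m x, LX m x G a b, LX m x G' a' b'] +
        s • ![fromBlocks 0 0 0 x', LXd m x' a b, LXd m x' a' b']) 0 = LA m (x + s • x') := by
        rw [← fam_eq]
        rfl
      show (![LA m x, LX m x G a b, LX m x G' a' b'] +
        s • ![fromBlocks 0 0 0 x', LXd m x' a b, LXd m x' a' b']) 0 *ᵥ _ = _
      rw [e, LA, fromBlocks_mulVec]
      have e1 : (Sum.elim (0 : Fin (m + 4) → k) (u s)) ∘ Sum.inl = 0 := rfl
      have e2 : (Sum.elim (0 : Fin (m + 4) → k) (u s)) ∘ Sum.inr = u s := rfl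
      rw [e1, e2, hu s]
      ext i
      rcases i with i | i <;> simp)
  have h1 := congrArg (fun z => z ∘ Sum.inr) ht
  refine ⟨t ∘ Sum.inr, ?_⟩
  have e : (![LA m x, LX m x G a b, LX m x G' a' b'] : Fin 3 → _) 0 = LA m x := rfl
  rw [e, LA, fromBlocks_mulVec] at h1
  have h2 : w = x *ᵥ (t ∘ Sum.inr) := by
    ext i
    have := congrFun h1 i
    simpa using this
  exact h2

/-- the conditions on the two factors of a move `y ⊗ φ` -/
structure Fac (x G G' : Matrix ι ι k) (y φ : ι → k) : Prop where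
  xy : x *ᵥ y = 0
  Gy : G *ᵥ y = 0
  Hy : G' *ᵥ y = 0
  px : φ ᵥ* x = 0
  pG : φ ᵥ* G = 0
  pH : φ ᵥ* G' = 0

theorem mv_fac {y φ : ι → k} (f : Fac x G G' y φ) (hφ : φ ⬝ᵥ y = 0)
    (h : (b ⬝ᵥ y) * (φ ⬝ᵥ a') = (b' ⬝ᵥ y) * (φ ⬝ᵥ a)) :
    Mv x G G' (vecMulVec y φ) a b a' b' := by
  refine ⟨?_, ?_, ?_, ?_, ?_, ?_, ?_, ?_⟩
  · rw [mul_vecMulVec, f.xy, zero_vmv]
  · rw [vecMulVec_mul, f.px, vmv_zero]
  · rw [vecMulVec_mul_vecMulVec, hφ, zero_smul, vmv_zero]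
  · rw [mul_vecMulVec, f.Gy, zero_vmv]
  · rw [vecMulVec_mul, f.pG, vmv_zero]
  · rw [mul_vecMulVec, f.Hy, zero_vmv]
  · rw [vecMulVec_mul, f.pH, vmv_zero]
  · rw [vecMulVec_mulVec, vecMulVec_mulVec]
    simp only [op_smul_eq_smul, dotProduct_smul, smul_eq_mul]
    linear_combination h

/-- the corner move must violate the relation -/
theorem inc1 [Infinite k] (hT : MaxR ρ ![LA m x, LX m x G a b, LX m x G' a' b'])
    (hρ : ρ 1 ≤ (LA m x).rank) (h : Two x G G') (r : Rel x G G' a b a' b') {y φ q : ι → k}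
    (f : Fac x G G' y φ) (hφ : φ ⬝ᵥ y = 0) (hy : ¬ ∃ t, y = x *ᵥ t) (hq : x *ᵥ q = 0)
    (hφq : φ ⬝ᵥ q = 1) : (b ⬝ᵥ y) * (φ ⬝ᵥ a') - (b' ⬝ᵥ y) * (φ ⬝ᵥ a) ≠ 0 := by
  intro h0
  refine hy (move_lim hT hρ h r (mv_fac f hφ (sub_eq_zero.1 h0)) (fun _ => q) y 1 fun s => ?_)
  rw [add_mulVec, hq, zero_add, smul_mulVec, vecMulVec_mulVec, hφq]
  ext i
  simp

/-- the rank of `x` can be increased -/
theorem no_inc [Infinite k] (hT : MaxR ρ ![LA m x, LX m x G a b, LX m x G' a' b'])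
    (hρ : ρ 1 ≤ (LA m x).rank) (h : Two x G G') (r : Rel x G G' a b a' b') {y φ q : ι → k}
    (f : Fac x G G' y φ) (hφ : φ ⬝ᵥ y = 0) (hy : ¬ ∃ t, y = x *ᵥ t) (hq : x *ᵥ q = 0)
    (hφq : φ ⬝ᵥ q = 1) (hx0 : x ≠ 0) : False := by
  obtain ⟨e, he⟩ : ∃ e, x *ᵥ e ≠ 0 := by
    by_contra hh
    push Not at hh
    exact hx0 (mat_zero hh)
  obtain ⟨μ, hμ⟩ := exists_dot he
  set z := x *ᵥ e with hz
  set φ' := μ ᵥ* x with hφ'
  have hφ'e : φ' ⬝ᵥ e = 1 := by rw [hφ', ← dotProduct_mulVec, ← hz, hμ]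
  have hφ'q : φ' ⬝ᵥ q = 0 := by rw [hφ', ← dotProduct_mulVec, hq, dotProduct_zero]
  have hφ'y : φ' ⬝ᵥ y = 0 := by rw [hφ', ← dotProduct_mulVec, f.xy, dotProduct_zero]
  have hφ'z : φ' ⬝ᵥ z = 0 := by
    rw [hφ', hz, ← dotProduct_mulVec, mulVec_mulVec, h.xx, zero_mulVec, dotProduct_zero]
  have hφz : φ ⬝ᵥ z = 0 := by rw [hz, dotProduct_mulVec, f.px, zero_dotProduct]
  have hxz : x *ᵥ z = 0 := by rw [hz, mulVec_mulVec, h.xx, zero_mulVec]
  have hGz : G *ᵥ z = 0 := by rw [hz, mulVec_mulVec, h.Gx, zero_mulVec]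
  have hHz : G' *ᵥ z = 0 := by rw [hz, mulVec_mulVec, h.Hx, zero_mulVec]
  have hpx : φ' ᵥ* x = 0 := by rw [hφ', vecMul_vecMul, h.xx, vecMul_zero]
  have hpG : φ' ᵥ* G = 0 := by rw [hφ', vecMul_vecMul, h.xG, vecMul_zero]
  have hpH : φ' ᵥ* G' = 0 := by rw [hφ', vecMul_vecMul, h.xH, vecMul_zero]
  -- the two mixed terms vanish
  have w1 : (b ⬝ᵥ y) * (φ' ⬝ᵥ a') - (b' ⬝ᵥ y) * (φ' ⬝ᵥ a) = 0 := by
    by_contra hne
    set c := (b ⬝ᵥ y) * (φ' ⬝ᵥ a') - (b' ⬝ᵥ y) * (φ' ⬝ᵥ a) with hc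
    set d := (b ⬝ᵥ y) * (φ ⬝ᵥ a') - (b' ⬝ᵥ y) * (φ ⬝ᵥ a) with hd
    refine inc1 (φ := φ + (-(d / c)) • φ') hT hρ h r ⟨f.xy, f.Gy, f.Hy, ?_, ?_, ?_⟩ ?_ hy hq ?_ ?_
    · rw [add_vecMul, smul_vecMul, f.px, hpx]; simp
    · rw [add_vecMul, smul_vecMul, f.pG, hpG]; simp
    · rw [add_vecMul, smul_vecMul, f.pH, hpH]; simp
    · rw [add_dotProduct, smul_dotProduct, hφ, hφ'y]; simp
    · rw [add_dotProduct, smul_dotProduct, hφq, hφ'q]; simp
    · simp only [add_dotProduct, smul_dotProduct, smul_eq_mul]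
      have : d / c * c = d := div_mul_cancel₀ d hne
      linear_combination -this + (-(d / c)) * hc.symm + hd.symm
  have w2 : (b ⬝ᵥ z) * (φ ⬝ᵥ a') - (b' ⬝ᵥ z) * (φ ⬝ᵥ a) = 0 := by
    by_contra hne
    set c := (b ⬝ᵥ z) * (φ ⬝ᵥ a') - (b' ⬝ᵥ z) * (φ ⬝ᵥ a) with hc
    set d := (b ⬝ᵥ y) * (φ ⬝ᵥ a') - (b' ⬝ᵥ y) * (φ ⬝ᵥ a) with hd
    refine inc1 (y := y + (-(d / c)) • z) hT hρ h r ⟨?_, ?_, ?_, f.px, f.pG, f.pH⟩ ?_ ?_ hq hφq ?_
    · rw [mulVec_add, mulVec_smul, f.xy, hxz]; simp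
    · rw [mulVec_add, mulVec_smul, f.Gy, hGz]; simp
    · rw [mulVec_add, mulVec_smul, f.Hy, hHz]; simp
    · rw [dotProduct_add, dotProduct_smul, hφ, hφz]; simp
    · rintro ⟨t, ht⟩
      refine hy ⟨t + (d / c) • e, ?_⟩
      rw [mulVec_add, mulVec_smul, ← ht, ← hz]
      ext i
      simp
    · simp only [dotProduct_add, dotProduct_smul, smul_eq_mul]
      have : d / c * c = d := div_mul_cancel₀ d hne
      linear_combination -this + (-(d / c)) * hc.symm + hd.symm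
  -- the second order move
  have hMv : Mv x G G' (vecMulVec y φ' + vecMulVec z φ) a b a' b' := by
    refine ⟨?_, ?_, ?_, ?_, ?_, ?_, ?_, ?_⟩
    · rw [Matrix.mul_add, mul_vecMulVec, mul_vecMulVec, f.xy, hxz, zero_vmv, zero_vmv, add_zero]
    · rw [Matrix.add_mul, vecMulVec_mul, vecMulVec_mul, f.px, hpx, vmv_zero, vmv_zero, add_zero]
    · rw [Matrix.mul_add, Matrix.add_mul, Matrix.add_mul, vecMulVec_mul_vecMulVec,
        vecMulVec_mul_vecMulVec, vecMulVec_mul_vecMulVec, vecMulVec_mul_vecMulVec, hφ'y, hφ, hφ'z,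
        hφz]
      simp
    · rw [Matrix.mul_add, mul_vecMulVec, mul_vecMulVec, f.Gy, hGz, zero_vmv, zero_vmv, add_zero]
    · rw [Matrix.add_mul, vecMulVec_mul, vecMulVec_mul, f.pG, hpG, vmv_zero, vmv_zero, add_zero]
    · rw [Matrix.mul_add, mul_vecMulVec, mul_vecMulVec, f.Hy, hHz, zero_vmv, zero_vmv, add_zero]
    · rw [Matrix.add_mul, vecMulVec_mul, vecMulVec_mul, f.pH, hpH, vmv_zero, vmv_zero, add_zero]
    · simp only [add_mulVec, vecMulVec_mulVec, op_smul_eq_smul, dotProduct_add,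
        dotProduct_smul, smul_eq_mul]
      linear_combination w1 + w2
  obtain ⟨t, ht⟩ := move_lim hT hρ h r hMv (fun s => q - s • e) (-(y + (φ ⬝ᵥ e) • z)) 2 (fun s => by
    simp only [add_mulVec, smul_mulVec, mulVec_sub, mulVec_smul, vecMulVec_mulVec,
      op_smul_eq_smul, dotProduct_sub, dotProduct_smul, hq, hφq, hφ'q, hφ'e, ← hz]
    ext i
    simp
    ring)
  refine hy ⟨-(t + (φ ⬝ᵥ e) • e), ?_⟩
  rw [mulVec_neg, mulVec_add, mulVec_smul, ← ht, ← hz]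
  ext i
  simp

/-- the dichotomy -/
theorem dich [Infinite k] (hT : MaxR ρ ![LA m x, LX m x G a b, LX m x G' a' b'])
    (hρ : ρ 1 ≤ (LA m x).rank) (h : Two x G G') (r : Rel x G G' a b a' b') (hx0 : x ≠ 0) :
    (∀ v, (∃ t, G *ᵥ v = x *ᵥ t) ∧ (∃ t, G' *ᵥ v = x *ᵥ t)) ∨
    (∀ q, x *ᵥ q = 0 → G *ᵥ q = 0 ∧ G' *ᵥ q = 0) := by
  by_contra hno
  push Not at hno
  obtain ⟨⟨v, hv⟩, q, hq, hq'⟩ := hno
  -- the vector
  obtain ⟨y, hy, hxy, hGy, hHy, hyp⟩ : ∃ y, (¬ ∃ t, y = x *ᵥ t) ∧ x *ᵥ y = 0 ∧ G *ᵥ y = 0 ∧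
      G' *ᵥ y = 0 ∧ ∀ φ : ι → k, φ ᵥ* G = 0 → φ ᵥ* G' = 0 → φ ⬝ᵥ y = 0 := by
    by_cases h1 : ∃ t, G *ᵥ v = x *ᵥ t
    · have h2 := hv h1
      refine ⟨G' *ᵥ v, ?_, ?_, ?_, ?_, ?_⟩
      · rintro ⟨t, ht⟩
        exact h2 t ht
      · rw [mulVec_mulVec, h.xH, zero_mulVec]
      · rw [mulVec_mulVec, h.GH, zero_mulVec]
      · rw [mulVec_mulVec, h.HH, zero_mulVec]
      · intro φ _ h3
        rw [dotProduct_mulVec, h3, zero_dotProduct]
    · refine ⟨G *ᵥ v, h1, ?_, ?_, ?_, ?_⟩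
      · rw [mulVec_mulVec, h.xG, zero_mulVec]
      · rw [mulVec_mulVec, h.GG, zero_mulVec]
      · rw [mulVec_mulVec, h.HG, zero_mulVec]
      · intro φ h3 _
        rw [dotProduct_mulVec, h3, zero_dotProduct]
  -- the functional
  obtain ⟨φ, hpx, hpG, hpH, hpq⟩ : ∃ φ : ι → k, φ ᵥ* x = 0 ∧ φ ᵥ* G = 0 ∧ φ ᵥ* G' = 0 ∧
      φ ⬝ᵥ q = 1 := by
    by_cases h1 : G *ᵥ q = 0
    · obtain ⟨μ, hμ⟩ := exists_dot (hq' h1)
      refine ⟨μ ᵥ* G', ?_, ?_, ?_, by rw [← dotProduct_mulVec, hμ]⟩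
      · rw [vecMul_vecMul, h.Hx, vecMul_zero]
      · rw [vecMul_vecMul, h.HG, vecMul_zero]
      · rw [vecMul_vecMul, h.HH, vecMul_zero]
    · obtain ⟨μ, hμ⟩ := exists_dot h1
      refine ⟨μ ᵥ* G, ?_, ?_, ?_, by rw [← dotProduct_mulVec, hμ]⟩
      · rw [vecMul_vecMul, h.Gx, vecMul_zero]
      · rw [vecMul_vecMul, h.GG, vecMul_zero]
      · rw [vecMul_vecMul, h.GH, vecMul_zero]
  exact no_inc hT hρ h r ⟨hxy, hGy, hHy, hpx, hpG, hpH⟩ (hyp φ hpG hpH) hy hq hpq hx0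

end L2

end Pool.Agent.Lib.D13
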