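import Pool.Agent.Lib.D13.L2Defs

/-!
# MP_5dcbc3_ag: action of `LA`, `LX` on vectors
-/

namespace Pool.Agent.Lib.D13

open Matrix Pool.Agent.Lib.Q5dc Pool.Agent.Lib.D7

namespace L2B

variable {k : Type*} [Field k] {ι : Type*} [Fintype ι] [DecidableEq ι] {m : ℕ}

/-- `v_i` -/
def vL (k : Type*) [Field k] (ι : Type*) (m i : ℕ) : Fin (m + 4) ⊕ ι → k :=
  Sum.elim (ev k (m + 4) i) (0 : ι → k)

/-- a vector of `R` -/
def vR (m : ℕ) (r : ι → k) : Fin (m + 4) ⊕ ι → k := Sum.elim (0 : Fin (m + 4) → k) r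

omit [Fintype ι] [DecidableEq ι] in
theorem vL_big (i : ℕ) (hi : m + 4 ≤ i) : vL k ι m i = 0 := by
  rw [vL, ev_big _ _ hi]
  ext j
  rcases j with j | j <;> rfl

omit [Fintype ι] [DecidableEq ι] in
theorem vR_add (r s : ι → k) : vR m (r + s) = vR m r + vR m s := by
  ext j
  rcases j with j | j <;> simp [vR]

omit [Fintype ι] [DecidableEq ι] in
theorem vR_smul (c : k) (r : ι → k) : vR m (c • r) = c • vR m r := by
  ext j
  rcases j with j | j <;> simp [vR]

omit [Fintype ι] [DecidableEq ι] in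
theorem vR_zero : vR m (0 : ι → k) = 0 := by
  ext j
  rcases j with j | j <;> simp [vR]

omit [Fintype ι] [DecidableEq ι] in
theorem vR_neg (r : ι → k) : vR m (-r) = -vR m r := by
  ext j
  rcases j with j | j <;> simp [vR]

omit [Fintype ι] [DecidableEq ι] in
theorem vR_sub (r s : ι → k) : vR m (r - s) = vR m r - vR m s := by
  ext j
  rcases j with j | j <;> simp [vR]

theorem LA_vL (x : Matrix ι ι k) (i : ℕ) :
    LA m x *ᵥ vL k ι m i = vL k ι m (i + 1) := by
  by_cases hi : i < m + 4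
  · rw [LA, fromBlocks_mulVec]
    have e1 : (vL k ι m i) ∘ Sum.inl = ev k (m + 4) i := rfl
    have e2 : (vL k ι m i) ∘ Sum.inr = 0 := rfl
    rw [e1, e2, ShF_ev _ _ hi]
    ext j
    rcases j with j | j <;> simp [vL]
  · rw [vL_big _ (by omega), vL_big _ (by omega), mulVec_zero]

theorem LA_vR (x : Matrix ι ι k) (r : ι → k) : LA m x *ᵥ vR m r = vR m (x *ᵥ r) := by
  rw [LA, fromBlocks_mulVec]
  have e1 : (vR m r) ∘ Sum.inl = 0 := rfl
  have e2 : (vR m r) ∘ Sum.inr = r := rfl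
  rw [e1, e2]
  ext j
  rcases j with j | j <;> simp [vR]

theorem LX_vL0 (x G : Matrix ι ι k) (a b : ι → k) :
    LX m x G a b *ᵥ vL k ι m 0 = vR m a := by
  rw [LX, fromBlocks_mulVec]
  have e1 : (vL k ι m 0) ∘ Sum.inl = ev k (m + 4) 0 := rfl
  have e2 : (vL k ι m 0) ∘ Sum.inr = 0 := rfl
  rw [e1, e2, Lc, add_mulVec, vecMulVec_mulVec, vecMulVec_mulVec, ev_dot _ _ _ (by omega),
    ev_dot _ _ _ (by omega)]
  ext j
  rcases j with j | j <;> simp [vR]

theorem LX_vL1 (x G : Matrix ι ι k) (a b : ι → k) :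
    LX m x G a b *ᵥ vL k ι m 1 = vR m (x *ᵥ a) := by
  rw [LX, fromBlocks_mulVec]
  have e1 : (vL k ι m 1) ∘ Sum.inl = ev k (m + 4) 1 := rfl
  have e2 : (vL k ι m 1) ∘ Sum.inr = 0 := rfl
  rw [e1, e2, Lc, add_mulVec, vecMulVec_mulVec, vecMulVec_mulVec, ev_dot _ _ _ (by omega),
    ev_dot _ _ _ (by omega)]
  ext j
  rcases j with j | j <;> simp [vR]

theorem LX_vL2 (x G : Matrix ι ι k) (a b : ι → k) (i : ℕ) (hi : 2 ≤ i) :
    LX m x G a b *ᵥ vL k ι m i = 0 := by
  by_cases hi' : i < m + 4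
  · rw [LX, fromBlocks_mulVec]
    have e1 : (vL k ι m i) ∘ Sum.inl = ev k (m + 4) i := rfl
    have e2 : (vL k ι m i) ∘ Sum.inr = 0 := rfl
    rw [e1, e2, Lc, add_mulVec, vecMulVec_mulVec, vecMulVec_mulVec, ev_dot _ _ _ hi',
      ev_dot _ _ _ hi', if_neg (by omega), if_neg (by omega)]
    ext j
    rcases j with j | j <;> simp
  · rw [vL_big _ (by omega), mulVec_zero]

theorem LX_vR (x G : Matrix ι ι k) (a b r : ι → k) :
    LX m x G a b *ᵥ vR m r = (b ⬝ᵥ (x *ᵥ r)) • vL k ι m (m + 2) + (b ⬝ᵥ r) • vL k ι m (m + 3) +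
      vR m (G *ᵥ r) := by
  rw [LX, fromBlocks_mulVec]
  have e1 : (vR m r) ∘ Sum.inl = 0 := rfl
  have e2 : (vR m r) ∘ Sum.inr = r := rfl
  rw [e1, e2, Lb, add_mulVec, vecMulVec_mulVec, vecMulVec_mulVec, ← dotProduct_mulVec]
  ext j
  rcases j with j | j <;> simp [vR, vL]

omit [Fintype ι] in
theorem single_inl (i : Fin (m + 4)) :
    (Pi.single (Sum.inl i) 1 : Fin (m + 4) ⊕ ι → k) = vL k ι m i := by
  ext j
  rcases j with j | j
  · by_cases h : j = i
    · subst h
      simp [ev, vL]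
    · have h' : ¬ (j : ℕ) = i := fun e => h (Fin.ext e)
      simp [ev, h', Pi.single_apply, h, vL]
  · simp [vL]

omit [Fintype ι] in
theorem single_inr (r : ι) :
    (Pi.single (Sum.inr r) 1 : Fin (m + 4) ⊕ ι → k) = vR m (Pi.single r 1) := by
  ext j
  rcases j with j | j
  · simp [vR]
  · by_cases h : j = r
    · subst h
      simp [vR]
    · simp [Pi.single_apply, h, vR]

/-- every vector is a combination of the `v_i` and a vector of `R` -/
theorem mem_of_vL_vR {S : Submodule k (Fin (m + 4) ⊕ ι → k)}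
    (h1 : ∀ i, i < m + 4 → vL k ι m i ∈ S) (h2 : ∀ r : ι → k, vR m r ∈ S)
    (y : Fin (m + 4) ⊕ ι → k) : y ∈ S := by
  have h3 : y = (∑ i : Fin (m + 4), y (Sum.inl i) • vL k ι m i) + vR m (y ∘ Sum.inr) := by
    ext j
    rcases j with j | j
    · rw [Pi.add_apply, Finset.sum_apply, Finset.sum_eq_single j]
      · simp [vL, vR, ev]
      · intro b _ hb
        have h' : ¬ (j : ℕ) = b := fun e => hb (Fin.ext e.symm)
        simp [vL, ev, h']
      · simp
    · rw [Pi.add_apply, Finset.sum_apply, Finset.sum_eq_zero]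
      · simp [vR]
      · intro b _
        simp [vL]
  rw [h3]
  exact S.add_mem (S.sum_mem fun i _ => S.smul_mem _ (h1 i i.2)) (h2 _)

/-- matrices are determined by their values on the `v_i` and on `R` -/
theorem mat_ext {κ : Type*} {M N : Matrix κ (Fin (m + 4) ⊕ ι) k}
    (h1 : ∀ i, i < m + 4 → M *ᵥ vL k ι m i = N *ᵥ vL k ι m i)
    (h2 : ∀ r : ι → k, M *ᵥ vR m r = N *ᵥ vR m r) : M = N := by
  ext i j
  rcases j with j | j
  · have h3 := congrFun (h1 j j.2) i
    rw [← single_inl, mulVec_single_one, mulVec_single_one] at h3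
    exact h3
  · have h3 := congrFun (h2 (Pi.single j 1)) i
    rw [← single_inr, mulVec_single_one, mulVec_single_one] at h3
    exact h3

end L2B

end Pool.Agent.Lib.D13
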