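import Pool.Agent.Lib.D13.L221
import Pool.Agent.Lib.D13.Decomp
import Pool.Agent.Lib.D13.L2Vec

/-!
# MP_5dcbc3_ag: a family of one long block and `R` of dimension 5 which raises

Basis of `R`: `0 = Z, 1 = D, 2 = D ^ 2, 3 = D Z, 4 = P Z`; the long block is `1, P, .., P ^ (l-1)`.
-/

namespace Pool.Agent.Lib.D13

open Matrix Pool.Agent.Lib.Q5dc Pool.Agent.Lib.D7

namespace L2N

variable {k : Type*} [Field k] {m : ℕ} {ρ : ℕ → ℕ}

/-- nilpotency by weights -/
theorem nilp_of_w {ι : Type*} [Fintype ι] [DecidableEq ι] {M : Matrix ι ι k} (w : ι → ℕ)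
    (h : ∀ i j, w i ≤ w j → M i j = 0) : IsNilpotent M := by
  have h1 : ∀ n i j, w i < w j + n → (M ^ n) i j = 0 := by
    intro n
    induction n with
    | zero =>
      intro i j hij
      rw [pow_zero, Matrix.one_apply, if_neg]
      rintro rfl
      omega
    | succ n ih =>
      intro i j hij
      rw [pow_succ, Matrix.mul_apply]
      refine Finset.sum_eq_zero fun l _ => ?_
      by_cases h2 : w l ≤ w j
      · rw [h l j h2, mul_zero]
      · rw [ih i l (by omega), zero_mul]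
  refine ⟨(Finset.univ.sup w) + 1, ?_⟩
  ext i j
  refine h1 _ i j ?_
  have := Finset.le_sup (f := w) (Finset.mem_univ i)
  omega

theorem rank_span {n : Type*} [Fintype n] [DecidableEq n] (M : Matrix n n k) (u v : n → k)
    (h : ∀ i, Pi.single i 1 ∈ LinearMap.range M.mulVecLin ⊔ Submodule.span k {u, v}) :
    Fintype.card n ≤ M.rank + 2 := by
  classical
  have h1 : LinearMap.range M.mulVecLin ⊔ Submodule.span k {u, v} = ⊤ := by
    rw [eq_top_iff]
    intro y _
    have h2 : y = ∑ i, y i • (Pi.single i 1 : n → k) := by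
      ext j
      simp [Finset.sum_apply, Pi.single_apply]
    rw [h2]
    exact Submodule.sum_mem _ fun i _ => Submodule.smul_mem _ _ (h i)
  have h3 := Submodule.finrank_add_le_finrank_add_finrank (LinearMap.range M.mulVecLin)
    (Submodule.span k {u, v})
  rw [h1, finrank_top, Module.finrank_fintype_fun_eq_card] at h3
  have h4 : Module.finrank k (Submodule.span k {u, v}) ≤ 2 := by
    have h5 : ({u, v} : Set (n → k)) = (({u, v} : Finset (n → k)) : Set (n → k)) := by simp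
    rw [h5]
    exact (finrank_span_finset_le_card _).trans Finset.card_le_two
  have h6 : M.rank = Module.finrank k (LinearMap.range M.mulVecLin) := rfl
  omega

/-- the parameters -/
structure Par (k : Type*) where
  F0 : k
  F1 : k
  a0 : k
  a1 : k
  a2 : k
  a5 : k
  q : k

/-- `P` on `R` -/
def xN : Matrix (Fin 5) (Fin 5) k :=
  !![0, 0, 0, 0, 0; 0, 0, 0, 0, 0; 0, 0, 0, 0, 0; 0, 0, 0, 0, 0; 1, 0, 0, 0, 0]

/-- `D` on `R` -/
def gN (e : k) : Matrix (Fin 5) (Fin 5) k :=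
  !![0, 0, 0, 0, 0; 0, 0, 0, 0, 0; 0, 1, 0, 0, 0; 1, 0, 0, 0, 0; 0, 0, 0, e, 0]

/-- `Z` on `R` -/
def hN (p : Par k) (s e f : k) : Matrix (Fin 5) (Fin 5) k :=
  !![0, 0, 0, 0, 0; -s, 0, 0, 0, 0; p.a1, 0, 0, -s, 0; p.a2, 1, 0, 0, 0; p.a0, 0, e, f, 0]

/-- `b` of `D` -/
def bN (p : Par k) : Fin 5 → k := ![0, 0, p.F0, p.F1, 0]

/-- `b` of `Z` -/
def cN (p : Par k) : Fin 5 → k := ![p.a5, 0, p.F1, p.a1 * p.F0 + p.a2 * p.F1, p.q]

/-- the family -/
def NF (m : ℕ) (p : Par k) (s : k) : Fin 3 → Matrix (Fin (m + 4) ⊕ Fin 5) (Fin (m + 4) ⊕ Fin 5) k :=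
  ![LA m xN, LX m xN (gN (-(s * (p.F0 / p.q)))) ![0, 1, 0, 0, 0] (bN p),
    LX m xN (hN p s (-(s * (p.F0 / p.q))) (-(s * (p.F0 / p.q * p.a2)))) ![1, 0, 0, 0, 0] (cN p)]

theorem cn (p : Par k) (hq : p.q ≠ 0) (s : k) : CN (NF m p s) := by
  refine LX_cn ?_ ?_ ?_ ?_ ?_ ?_ ?_ ?_ ?_ ?_
  · ext i j
    fin_cases i <;> fin_cases j <;> simp [xN, Matrix.mul_apply, Fin.sum_univ_five]
  · ext i j
    fin_cases i <;> fin_cases j <;> simp [xN, gN, Matrix.mul_apply, Fin.sum_univ_five]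
  · ext i j
    fin_cases i <;> fin_cases j <;> simp [xN, hN, Matrix.mul_apply, Fin.sum_univ_five]
  · refine nilp_of_w ![0, 1, 4, 2, 5] ?_
    intro i j h
    fin_cases i <;> fin_cases j <;> first | rfl | (exfalso; revert h; decide)
  · refine nilp_of_w ![0, 1, 4, 2, 5] ?_
    intro i j h
    fin_cases i <;> fin_cases j <;> first | rfl | (exfalso; revert h; decide)
  · ext i j
    fin_cases i <;> fin_cases j <;>
      simp [gN, hN, Matrix.mul_apply, Fin.sum_univ_five] <;> ring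
  · ext i
    fin_cases i <;> simp [gN, hN, mulVec, dotProduct, Fin.sum_univ_five]
  · ext i
    fin_cases i <;> simp [gN, hN, bN, cN, vecMul, dotProduct, Fin.sum_univ_five]
    · ring
    · field_simp
  · simp [xN, bN, cN, mulVec, dotProduct, Fin.sum_univ_five]
  · simp [bN, cN, dotProduct, Fin.sum_univ_five]

theorem poly (p : Par k) : PolyFam (NF m p) := by
  have h1 : ∀ c : k, IsPoly fun s : k => -(s * c) := by
    intro c
    have := (D7.IsPoly.id (k := k)).mul (D7.IsPoly.const (-c))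
    have e : (fun s : k => -(s * c)) = fun s => s * (-c) := by
      funext s
      ring
    rw [e]
    exact this
  have h2 : ∀ (f : k → k), IsPoly f → ∀ i j : Fin 5, IsPoly fun s : k => gN (f s) i j := by
    intro f hf i j
    fin_cases i <;> fin_cases j <;> first | exact D7.IsPoly.const _ | exact hf
  have h3 : ∀ (f g : k → k), IsPoly f → IsPoly g → ∀ i j : Fin 5,
      IsPoly fun s : k => hN p s (f s) (g s) i j := by
    intro f g hf hg i j
    have h4 : IsPoly fun s : k => -s := by simpa using h1 1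
    fin_cases i <;> fin_cases j <;>
      first | exact D7.IsPoly.const _ | exact hf | exact hg | exact h4
  intro i x y
  fin_cases i
  · exact L221.LA_isPoly m (x := fun _ => xN) (fun i j => D7.IsPoly.const _) x y
  · exact L221.LX_isPoly m (x := fun _ => xN) (a := fun _ => ![0, 1, 0, 0, 0]) (b := fun _ => bN p)
      (fun i j => D7.IsPoly.const _) (h2 _ (h1 _)) (fun i => D7.IsPoly.const _)
      (fun i => D7.IsPoly.const _) x y
  · exact L221.LX_isPoly m (x := fun _ => xN) (a := fun _ => ![1, 0, 0, 0, 0]) (b := fun _ => cN p)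
      (fun i j => D7.IsPoly.const _) (h3 _ _ (h1 _) (h1 _)) (fun i => D7.IsPoly.const _)
      (fun i => D7.IsPoly.const _) x y

theorem card_le (p : Par k) (hq : p.q ≠ 0) (hF : p.F0 ≠ 0) {s : k} (hs : s ≠ 0) :
    Fintype.card (Fin (m + 4) ⊕ Fin 5) ≤ (NF m p s 0 + NF m p s 2).rank + 2 := by
  set M := NF m p s 0 + NF m p s 2 with hM
  set e := -(s * (p.F0 / p.q)) with he
  set f := -(s * (p.F0 / p.q * p.a2)) with hf
  have he0 : e ≠ 0 := by
    rw [he]
    exact neg_ne_zero.2 (mul_ne_zero hs (div_ne_zero hF hq))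
  have hM' : M = LA m xN + LX m xN (hN p s e f) ![1, 0, 0, 0, 0] (cN p) := rfl
  set r : Fin 5 → (Fin (m + 4) ⊕ Fin 5 → k) := fun i => L2B.vR m (Pi.single i 1) with hr
  have hra : L2B.vR m ![1, 0, 0, 0, 0] = r 0 := by
    rw [hr]
    beta_reduce
    congr 1
    ext i
    fin_cases i <;> simp
  have hxa : xN *ᵥ ![1, 0, 0, 0, 0] = (Pi.single 4 1 : Fin 5 → k) := by
    ext i
    fin_cases i <;> simp [xN, mulVec, dotProduct, Fin.sum_univ_five]
  have m0 : M *ᵥ L2B.vL k (Fin 5) m 0 = L2B.vL k (Fin 5) m 1 + r 0 := by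
    rw [hM', add_mulVec, L2B.LA_vL, L2B.LX_vL0, ← hra]
  have m1 : M *ᵥ L2B.vL k (Fin 5) m 1 = L2B.vL k (Fin 5) m 2 + r 4 := by
    rw [hM', add_mulVec, L2B.LA_vL, L2B.LX_vL1, hxa]
  have m2 : ∀ i, 2 ≤ i → M *ᵥ L2B.vL k (Fin 5) m i = L2B.vL k (Fin 5) m (i + 1) := by
    intro i hi
    rw [hM', add_mulVec, L2B.LA_vL, L2B.LX_vL2 _ _ _ _ _ hi, add_zero]
  have hR : ∀ (z : Fin 5 → k), L2B.vR m z = z 0 • r 0 + z 1 • r 1 + z 2 • r 2 + z 3 • r 3 +
      z 4 • r 4 := by
    intro z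
    rw [hr]
    beta_reduce
    simp only [← L2B.vR_smul, ← L2B.vR_add]
    congr 1
    ext i
    fin_cases i <;> simp
  have m3 : ∀ i : Fin 5, M *ᵥ r i = (cN p ⬝ᵥ (xN *ᵥ Pi.single i 1)) • L2B.vL k (Fin 5) m (m + 2) +
      (cN p i) • L2B.vL k (Fin 5) m (m + 3) +
      L2B.vR m (fun j => xN j i + hN p s e f j i) := by
    intro i
    rw [hM', add_mulVec, hr]
    beta_reduce
    rw [L2B.LA_vR, L2B.LX_vR]
    have e1 : (fun j => xN j i + hN p s e f j i) =
        xN *ᵥ Pi.single i 1 + hN p s e f *ᵥ (Pi.single i (1 : k)) := by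
      rw [mulVec_single_one, mulVec_single_one]
      rfl
    have e2 : cN p ⬝ᵥ Pi.single i (1 : k) = cN p i := by simp
    rw [e1, e2, L2B.vR_add]
    abel
  set S := LinearMap.range M.mulVecLin ⊔
    Submodule.span k {L2B.vL k (Fin 5) m 0, r 0} with hS
  have hrng : ∀ z, M *ᵥ z ∈ S := fun z =>
    Submodule.mem_sup_left ⟨z, by rw [Matrix.mulVecLin_apply]⟩
  have s0 : L2B.vL k (Fin 5) m 0 ∈ S :=
    Submodule.mem_sup_right (Submodule.subset_span (by simp))
  have t0 : r 0 ∈ S := Submodule.mem_sup_right (Submodule.subset_span (by simp))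
  have s1 : L2B.vL k (Fin 5) m 1 ∈ S := by
    have := S.sub_mem (hrng (L2B.vL k (Fin 5) m 0)) t0
    rwa [m0, add_sub_cancel_right] at this
  have s3 : ∀ i, 3 ≤ i → L2B.vL k (Fin 5) m i ∈ S := by
    intro i hi
    obtain ⟨j, rfl⟩ : ∃ j, i = j + 1 := ⟨i - 1, by omega⟩
    rw [← m2 j (by omega)]
    exact hrng _
  have t3 : r 3 ∈ S := by
    have h := hrng (r 1)
    have e1 : cN p ⬝ᵥ (xN *ᵥ Pi.single (1 : Fin 5) (1 : k)) = 0 := by
      rw [mulVec_single_one]
      simp [xN, cN, dotProduct, Fin.sum_univ_five]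
    rw [m3 1, hR, e1, zero_smul, zero_add] at h
    simp only [cN, xN, hN] at h
    simpa using h
  have t4 : r 4 ∈ S := by
    have h := hrng (r 2)
    have e1 : cN p ⬝ᵥ (xN *ᵥ Pi.single (2 : Fin 5) (1 : k)) = 0 := by
      rw [mulVec_single_one]
      simp [xN, cN, dotProduct, Fin.sum_univ_five]
    rw [m3 2, hR, e1, zero_smul, zero_add] at h
    simp only [cN, xN, hN] at h
    have h2 : e • r 4 ∈ S := by
      have h3 := S.sub_mem h (S.smul_mem p.F1 (s3 (m + 3) (by omega)))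
      simpa using h3
    exact (S.smul_mem_iff he0).1 h2
  have t2 : r 2 ∈ S := by
    have h := hrng (r 3)
    have e1 : cN p ⬝ᵥ (xN *ᵥ Pi.single (3 : Fin 5) (1 : k)) = 0 := by
      rw [mulVec_single_one]
      simp [xN, cN, dotProduct, Fin.sum_univ_five]
    rw [m3 3, hR, e1, zero_smul, zero_add] at h
    simp only [cN, xN, hN] at h
    have h2 : (-s) • r 2 ∈ S := by
      have h3 := S.sub_mem (S.sub_mem h (S.smul_mem (p.a1 * p.F0 + p.a2 * p.F1)
        (s3 (m + 3) (by omega)))) (S.smul_mem f t4)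
      simpa using h3
    exact (S.smul_mem_iff (neg_ne_zero.2 hs)).1 h2
  have s2 : L2B.vL k (Fin 5) m 2 ∈ S := by
    have := S.sub_mem (hrng (L2B.vL k (Fin 5) m 1)) t4
    rwa [m1, add_sub_cancel_right] at this
  have sall : ∀ i, L2B.vL k (Fin 5) m i ∈ S := by
    intro i
    match i with
    | 0 => exact s0
    | 1 => exact s1
    | 2 => exact s2
    | i + 3 => exact s3 _ (by omega)
  have t1 : r 1 ∈ S := by
    have h := hrng (r 0)
    rw [m3 0, hR] at h
    have h2 : (-s) • r 1 ∈ S := by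
      have h3 := S.sub_mem h (S.add_mem (S.add_mem
        (S.smul_mem (cN p ⬝ᵥ (xN *ᵥ Pi.single (0 : Fin 5) (1 : k))) (sall (m + 2)))
        (S.smul_mem (cN p 0) (sall (m + 3))))
        (S.add_mem (S.add_mem (S.smul_mem p.a1 t2) (S.smul_mem p.a2 t3))
          (S.smul_mem (1 + p.a0) t4)))
      refine Eq.mp (congrArg (fun y => y ∈ S) ?_) h3
      simp only [xN, hN]
      simp
    exact (S.smul_mem_iff (neg_ne_zero.2 hs)).1 h2
  have hall : ∀ y, y ∈ S := by
    refine L2B.mem_of_vL_vR (fun i _ => sall i) fun z => ?_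
    rw [hR]
    exact S.add_mem (S.add_mem (S.add_mem (S.add_mem (S.smul_mem _ t0) (S.smul_mem _ t1))
      (S.smul_mem _ t2)) (S.smul_mem _ t3)) (S.smul_mem _ t4)
  exact rank_span M _ _ fun i => hall _

/-- no maximal bad triple of this form -/
theorem no_NF [IsAlgClosed k] [CharZero k] (p : Par k) (hq : p.q ≠ 0) (hF : p.F0 ≠ 0)
    (hT : MaxR ρ (NF m p 0)) : False := by
  have hinf : Infinite k := inferInstance
  obtain ⟨E, hE, h1⟩ := hT.deform (NF m p) (poly p) rfl Set.finite_empty (fun s _ => cn p hq s)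
  obtain ⟨s, hs⟩ := (hE.union (Set.finite_singleton (0 : k))).infinite_compl.nonempty
  rw [Set.mem_compl_iff, Set.mem_union, not_or] at hs
  have h2 := h1 s hs.1
  have h3 := MaxR.corank h2 (by simp) (add_mem (mem_adj (NF m p s) 0) (mem_adj (NF m p s) 2))
  have h4 := card_le (m := m) p hq hF (s := s) (fun h => hs.2 (by simp [h]))
  omega

end L2N

end Pool.Agent.Lib.D13
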