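import Pool.Agent.Lib.D13.L2Core

/-!
# MP_5dcbc3_ag: one long block of size `l >= 5`, `R` of dimension 5, a product of linear forms zero
-/

namespace Pool.Agent.Lib.D13

open Matrix Pool.Agent.Lib.Q5dc Pool.Agent.Lib.D7

namespace L2N

variable {k : Type*} [Field k] {m : ℕ} {ρ : ℕ → ℕ}

/-- as `no_core`, with `P D v = 0` only -/
theorem no_core' [IsAlgClosed k] [CharZero k] {n : Type*} [Fintype n] [DecidableEq n]
    (e : n ≃ Fin (m + 4) ⊕ Fin 5) {P D Z : Matrix n n k} (hT : MaxR ρ ![P, D, Z]) (v : n → k)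
    (p : Par k) (hq : p.q ≠ 0) (hF : p.F0 ≠ 0) (hPD : P *ᵥ (D *ᵥ v) = 0)
    (hw : P ^ (m + 4) *ᵥ v = 0)
    (hPZ : P *ᵥ (P *ᵥ (Z *ᵥ v)) = 0)
    (hD3 : D *ᵥ (D *ᵥ (D *ᵥ v)) = p.F0 • (P ^ (m + 3) *ᵥ v))
    (hDZ : D *ᵥ (D *ᵥ (Z *ᵥ v)) = p.F1 • (P ^ (m + 3) *ᵥ v))
    (hZZ : Z *ᵥ (Z *ᵥ v) = p.q • (P ^ (m + 2) *ᵥ v) + p.a5 • (P ^ (m + 3) *ᵥ v) +
      p.a1 • (D *ᵥ (D *ᵥ v)) + p.a2 • (D *ᵥ (Z *ᵥ v)) + p.a0 • (P *ᵥ (Z *ᵥ v)))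
    (hspan : ∀ S : Submodule k (n → k), (∀ i, P ^ i *ᵥ v ∈ S) → Z *ᵥ v ∈ S → D *ᵥ v ∈ S →
      D *ᵥ (D *ᵥ v) ∈ S → D *ᵥ (Z *ᵥ v) ∈ S → P *ᵥ (Z *ᵥ v) ∈ S → ∀ y, y ∈ S) : False := by
  have cPZ : P * Z = Z * P := hT.cn.1 0 2
  have cPD : P * D = D * P := hT.cn.1 0 1
  have cDZ : D * Z = Z * D := hT.cn.1 1 2
  refine no_core e hT v p hq hF ?_ hw hPZ hD3 hDZ hZZ hspan
  have hM : ∀ M : Matrix n n k, Commute (P * D) M → (P * D) *ᵥ (M *ᵥ v) = 0 := by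
    intro M hM
    rw [mulVec_mulVec, hM.eq, ← mulVec_mulVec, ← mulVec_mulVec, hPD, mulVec_zero]
  have hcP : Commute (P * D) P := by
    show P * D * P = P * (P * D)
    rw [Matrix.mul_assoc, cPD]
  have hcD : Commute (P * D) D := by
    show P * D * D = D * (P * D)
    rw [cPD, Matrix.mul_assoc, cPD]
  have hcZ : Commute (P * D) Z := by
    show P * D * Z = Z * (P * D)
    rw [Matrix.mul_assoc, cDZ, ← Matrix.mul_assoc, cPZ, Matrix.mul_assoc]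
  have hall : ∀ y, y ∈ LinearMap.ker (P * D).mulVecLin := by
    refine hspan _ (fun i => ?_) ?_ ?_ ?_ ?_ ?_
    · rw [LinearMap.mem_ker, Matrix.mulVecLin_apply]
      exact hM _ (hcP.pow_right i)
    · rw [LinearMap.mem_ker, Matrix.mulVecLin_apply]
      exact hM _ hcZ
    · rw [LinearMap.mem_ker, Matrix.mulVecLin_apply]
      exact hM _ hcD
    · rw [LinearMap.mem_ker, Matrix.mulVecLin_apply, mulVec_mulVec v D D]
      exact hM _ (hcD.mul_right hcD)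
    · rw [LinearMap.mem_ker, Matrix.mulVecLin_apply, mulVec_mulVec v D Z]
      exact hM _ (hcD.mul_right hcZ)
    · rw [LinearMap.mem_ker, Matrix.mulVecLin_apply, mulVec_mulVec v P Z]
      exact hM _ (hcP.mul_right hcZ)
  refine L2.mat_zero fun r => ?_
  have := hall r
  rwa [LinearMap.mem_ker, Matrix.mulVecLin_apply] at this

/-- `l >= 5`: no maximal bad triple with `(x + σ G + ω G') a = 0` -/
theorem no_dual [IsAlgClosed k] [CharZero k] {ι : Type*} [Fintype ι] [DecidableEq ι]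
    (e : ι ≃ Fin 5) {m : ℕ} {x G G' : Matrix ι ι k} {a b a' b' : ι → k}
    (hT : MaxR ρ ![LA (m + 1) x, LX (m + 1) x G a b, LX (m + 1) x G' a' b'])
    (hxx : x * x = 0) (hxG : x * G = 0) (hxG' : x * G' = 0) (hGx : G * x = 0) (hG'x : G' * x = 0)
    (hGG : G * G = 0) (hGG' : G * G' = 0) (hG'G : G' * G = 0) (hG'G' : G' * G' = 0)
    (σ ω : k) (y : Matrix ι ι k) (hy : y = x + σ • G + ω • G') (hya : y *ᵥ a = 0)
    (hF : b ⬝ᵥ (G *ᵥ a) ≠ 0) (hq : b' ⬝ᵥ (y *ᵥ a') ≠ 0)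
    (a0 a1 a2 : k) (hM : G' *ᵥ a' = a0 • (y *ᵥ a') + a1 • (G *ᵥ a) + a2 • (G *ᵥ a'))
    (hspan : ∀ S : Submodule k (ι → k), a ∈ S → a' ∈ S → y *ᵥ a' ∈ S → G *ᵥ a ∈ S →
      G *ᵥ a' ∈ S → ∀ r, r ∈ S) : False := by
  have hinf : Infinite k := inferInstance
  set A := LA (m + 1) x with hA
  set Y := LX (m + 1) x G a b with hY
  set W := LX (m + 1) x G' a' b' with hW
  set P := A + σ • Y + ω • W with hP
  set v := L2B.vL k ι (m + 1) with hv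
  have cAY : A * Y = Y * A := hT.cn.1 0 1
  have cAW : A * W = W * A := hT.cn.1 0 2
  have cYW : Y * W = W * Y := hT.cn.1 1 2
  have cPY : P * Y = Y * P := by
    simp only [hP, Matrix.add_mul, Matrix.mul_add, cAY, Matrix.smul_mul, Matrix.mul_smul, cYW]
  have cPW : P * W = W * P := by
    simp only [hP, Matrix.add_mul, Matrix.mul_add, cAW, Matrix.smul_mul, Matrix.mul_smul, cYW]
  have hxy : x * y = 0 := by
    rw [hy, Matrix.mul_add, Matrix.mul_add, Matrix.mul_smul, Matrix.mul_smul, hxx, hxG, hxG']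
    simp
  have hyy : y * y = 0 := by
    rw [hy]
    simp only [Matrix.mul_add, Matrix.add_mul, Matrix.mul_smul, Matrix.smul_mul, hxx, hxG, hxG', hGx, hG'x,
      hGG, hGG', hG'G, hG'G']
    simp
  have hyx : y * x = 0 := by
    rw [hy]
    simp only [Matrix.add_mul, Matrix.smul_mul, hxx, hGx, hG'x]
    simp
  have hyG : y * G = 0 := by
    rw [hy]
    simp only [Matrix.add_mul, Matrix.smul_mul, hxG, hGG, hG'G]
    simp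
  have hGy : G * y = 0 := by
    rw [hy]
    simp only [Matrix.mul_add, Matrix.mul_smul, hGx, hGG, hGG']
    simp
  have hG'y : G' * y = 0 := by
    rw [hy]
    simp only [Matrix.mul_add, Matrix.mul_smul, hG'x, hG'G, hG'G']
    simp
  set bS := σ • b + ω • b' with hbS
  set aS := σ • a + ω • a' with haS
  -- action of `P`
  have PR : ∀ r, P *ᵥ L2B.vR (m + 1) r = L2B.vR (m + 1) (y *ᵥ r) + (bS ⬝ᵥ (x *ᵥ r)) • v (m + 3) +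
      (bS ⬝ᵥ r) • v (m + 4) := by
    intro r
    rw [hP, add_mulVec, add_mulVec, smul_mulVec, smul_mulVec, hA, hY, hW, L2B.LA_vR, L2B.LX_vR,
      L2B.LX_vR, hy, add_mulVec, add_mulVec, smul_mulVec, smul_mulVec, L2B.vR_add, L2B.vR_add,
      L2B.vR_smul, L2B.vR_smul, hbS, add_dotProduct, add_dotProduct, smul_dotProduct,
      smul_dotProduct, smul_dotProduct, smul_dotProduct]
    simp only [smul_eq_mul]
    module
  have P0 : P *ᵥ v 0 = v 1 + L2B.vR (m + 1) aS := by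
    rw [hP, add_mulVec, add_mulVec, smul_mulVec, smul_mulVec, hA, hY, hW, hv, L2B.LA_vL, L2B.LX_vL0,
      L2B.LX_vL0, haS, L2B.vR_add, L2B.vR_smul, L2B.vR_smul]
    abel
  have P1 : P *ᵥ v 1 = v 2 + L2B.vR (m + 1) (x *ᵥ aS) := by
    rw [hP, add_mulVec, add_mulVec, smul_mulVec, smul_mulVec, hA, hY, hW, hv, L2B.LA_vL, L2B.LX_vL1,
      L2B.LX_vL1, haS, mulVec_add, mulVec_smul, mulVec_smul, L2B.vR_add, L2B.vR_smul, L2B.vR_smul]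
    abel
  have P2 : ∀ i, 2 ≤ i → P *ᵥ v i = v (i + 1) := by
    intro i hi
    rw [hP, add_mulVec, add_mulVec, smul_mulVec, smul_mulVec, hA, hY, hW, hv, L2B.LA_vL,
      L2B.LX_vL2 _ _ _ _ _ hi, L2B.LX_vL2 _ _ _ _ _ hi]
    simp
  -- vectors of `Y`, `W`
  have Y0 : Y *ᵥ v 0 = L2B.vR (m + 1) a := L2B.LX_vL0 _ _ _ _
  have W0 : W *ᵥ v 0 = L2B.vR (m + 1) a' := L2B.LX_vL0 _ _ _ _
  have Y2 : ∀ i, 2 ≤ i → Y *ᵥ v i = 0 := fun i hi => L2B.LX_vL2 _ _ _ _ _ hi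
  have W2 : ∀ i, 2 ≤ i → W *ᵥ v i = 0 := fun i hi => L2B.LX_vL2 _ _ _ _ _ hi
  have YR : ∀ r, Y *ᵥ L2B.vR (m + 1) r = (b ⬝ᵥ (x *ᵥ r)) • v (m + 3) + (b ⬝ᵥ r) • v (m + 4) +
      L2B.vR (m + 1) (G *ᵥ r) := fun r => L2B.LX_vR _ _ _ _ _
  have WR : ∀ r, W *ᵥ L2B.vR (m + 1) r = (b' ⬝ᵥ (x *ᵥ r)) • v (m + 3) + (b' ⬝ᵥ r) • v (m + 4) +
      L2B.vR (m + 1) (G' *ᵥ r) := fun r => L2B.LX_vR _ _ _ _ _
  have v5 : v (m + 5) = 0 := L2B.vL_big _ (by omega)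
  have P3 : P *ᵥ v (m + 3) = v (m + 4) := P2 _ (by omega)
  have P4 : P *ᵥ v (m + 4) = 0 := by rw [P2 _ (by omega), v5]
  -- the space `U = vR + v_(l-2) + v_(l-1)`
  have hU : ∀ i, ∃ (r : ι → k) (c c' : k), P ^ i *ᵥ v 0 = v i + L2B.vR (m + 1) r + c • v (m + 3) + c' • v (m + 4) := by
    intro i
    induction i with
    | zero => exact ⟨0, 0, 0, by rw [pow_zero, one_mulVec, L2B.vR_zero]; simp⟩
    | succ i ih =>
      obtain ⟨r, c, c', h⟩ := ih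
      have h1 : P ^ (i + 1) *ᵥ v 0 = P *ᵥ (P ^ i *ᵥ v 0) := by
        rw [mulVec_mulVec, ← pow_succ']
      have h2 : ∃ r', P *ᵥ v i = v (i + 1) + L2B.vR (m + 1) r' := by
        match i with
        | 0 => exact ⟨_, P0⟩
        | 1 => exact ⟨_, P1⟩
        | i + 2 => exact ⟨0, by rw [P2 _ (by omega), L2B.vR_zero, add_zero]⟩
      obtain ⟨r', hr'⟩ := h2
      refine ⟨r' + y *ᵥ r, bS ⬝ᵥ (x *ᵥ r), bS ⬝ᵥ r + c, ?_⟩
      rw [h1, h, mulVec_add, mulVec_add, mulVec_add, mulVec_smul, mulVec_smul, hr', PR, P3, P4,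
        L2B.vR_add]
      module
  have hP2 : ∃ c c' : k, P ^ 2 *ᵥ v 0 = v 2 + L2B.vR (m + 1) (x *ᵥ aS + y *ᵥ aS) + c • v (m + 3) +
      c' • v (m + 4) := by
    refine ⟨bS ⬝ᵥ (x *ᵥ aS), bS ⬝ᵥ aS, ?_⟩
    have h1 : P ^ 2 *ᵥ v 0 = P *ᵥ (P *ᵥ v 0) := by rw [mulVec_mulVec, pow_two]
    rw [h1, P0, mulVec_add, P1, PR, L2B.vR_add]
    abel
  have hP3 : ∃ c : k, P ^ 3 *ᵥ v 0 = v 3 + c • v (m + 4) := by
    obtain ⟨c, c', h⟩ := hP2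
    have h1 : P ^ 3 *ᵥ v 0 = P *ᵥ (P ^ 2 *ᵥ v 0) := by rw [mulVec_mulVec, ← pow_succ']
    have e1 : y *ᵥ (x *ᵥ aS + y *ᵥ aS) = 0 := by
      rw [mulVec_add, mulVec_mulVec, mulVec_mulVec, hyx, hyy]
      simp
    have e2 : x *ᵥ (x *ᵥ aS + y *ᵥ aS) = 0 := by
      rw [mulVec_add, mulVec_mulVec, mulVec_mulVec, hxx, hxy]
      simp
    refine ⟨bS ⬝ᵥ (x *ᵥ aS + y *ᵥ aS) + c, ?_⟩
    rw [h1, h, mulVec_add, mulVec_add, mulVec_add, mulVec_smul, mulVec_smul, P2 2 le_rfl, PR, P3,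
      P4, e1, e2, L2B.vR_zero, dotProduct_zero]
    module
  have hPbig : ∀ i, P ^ (i + 4) *ᵥ v 0 = v (i + 4) := by
    intro i
    induction i with
    | zero =>
      obtain ⟨c, h⟩ := hP3
      have h1 : P ^ (0 + 4) *ᵥ v 0 = P *ᵥ (P ^ 3 *ᵥ v 0) := by rw [mulVec_mulVec, ← pow_succ']
      rw [h1, h, mulVec_add, mulVec_smul, P2 3 (by omega), P4, smul_zero, add_zero]
    | succ i ih =>
      have h1 : P ^ (i + 1 + 4) *ᵥ v 0 = P *ᵥ (P ^ (i + 4) *ᵥ v 0) := by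
        rw [mulVec_mulVec, ← pow_succ', show i + 1 + 4 = i + 4 + 1 by ring]
      rw [h1, ih, P2 _ (by omega), show i + 1 + 4 = i + 4 + 1 by ring]
  have w4 : P ^ (m + 4) *ᵥ v 0 = v (m + 4) := hPbig m
  have w5 : P ^ (m + 5) *ᵥ v 0 = 0 := (hPbig (m + 1)).trans v5
  have hP3' : ∀ j, ∃ c : k, P ^ (j + 3) *ᵥ v 0 = v (j + 3) + c • v (m + 4) := by
    intro j
    match j with
    | 0 => exact hP3
    | j + 1 => exact ⟨0, by rw [zero_smul, add_zero]; exact hPbig j⟩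
  obtain ⟨c3, w3⟩ := hP3' m
  -- the space of the last two vectors
  have hE : ∀ c c' : k, ∃ κ κ' : k, c • v (m + 3) + c' • v (m + 4) =
      κ • (P ^ (m + 3) *ᵥ v 0) + κ' • (P ^ (m + 4) *ᵥ v 0) := by
    intro c c'
    refine ⟨c, c' - c * c3, ?_⟩
    rw [w3, w4]
    module
  -- `D`
  obtain ⟨κ, κ', hκ⟩ := hE (bS ⬝ᵥ (x *ᵥ a)) (bS ⬝ᵥ a)
  set D := Y - κ • P ^ (m + 2) - κ' • P ^ (m + 3) with hD
  have D0 : D *ᵥ v 0 = L2B.vR (m + 1) a - κ • (P ^ (m + 2) *ᵥ v 0) - κ' • (P ^ (m + 3) *ᵥ v 0) := by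
    rw [hD, sub_mulVec, sub_mulVec, smul_mulVec, smul_mulVec, Y0]
  have powS : ∀ i, P ^ (i + 1) *ᵥ v 0 = P *ᵥ (P ^ i *ᵥ v 0) := fun i => by
    rw [mulVec_mulVec, ← pow_succ']
  have PD0 : P *ᵥ (D *ᵥ v 0) = 0 := by
    rw [D0, mulVec_sub, mulVec_sub, mulVec_smul, mulVec_smul, PR, hya, L2B.vR_zero, zero_add, hκ,
      ← powS, ← powS]
    simp
  -- `Z`
  set α := bS ⬝ᵥ (y *ᵥ a') + bS ⬝ᵥ (x *ᵥ a') with hα
  set Z := W - α • P ^ (m + 2) with hZ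
  have Z0 : Z *ᵥ v 0 = L2B.vR (m + 1) a' - α • (P ^ (m + 2) *ᵥ v 0) := by
    rw [hZ, sub_mulVec, smul_mulVec, W0]
  have PZ0 : P *ᵥ (Z *ᵥ v 0) = L2B.vR (m + 1) (y *ᵥ a') + (bS ⬝ᵥ (x *ᵥ a')) • v (m + 3) +
      (bS ⬝ᵥ a') • v (m + 4) - α • (P ^ (m + 3) *ᵥ v 0) := by
    rw [Z0, mulVec_sub, mulVec_smul, PR, ← powS]
  have e1 : x *ᵥ (y *ᵥ a') = 0 := by rw [mulVec_mulVec, hxy, zero_mulVec]
  have e2 : y *ᵥ (y *ᵥ a') = 0 := by rw [mulVec_mulVec, hyy, zero_mulVec]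
  have PPZ : P *ᵥ (P *ᵥ (Z *ᵥ v 0)) = 0 := by
    rw [PZ0, mulVec_sub, mulVec_add, mulVec_add, mulVec_smul, mulVec_smul, mulVec_smul, PR, P3, P4,
      e1, e2, L2B.vR_zero, ← powS, w4, hα, dotProduct_zero]
    module
  -- the triple `(P, D, Z)`
  have sm : ∀ {T : Fin 3 → Matrix (Fin (m + 1 + 4) ⊕ ι) (Fin (m + 1 + 4) ⊕ ι) k}
      {M : Matrix (Fin (m + 1 + 4) ⊕ ι) (Fin (m + 1 + 4) ⊕ ι) k} (s : k), M ∈ adj T →
      s • M ∈ adj T := fun s hM => SMulMemClass.smul_mem s hM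
  have hTP : MaxR ρ ![P, Y, W] := by
    have hPm : P ∈ adj ![A, Y, W] :=
      add_mem (add_mem (D8.mem0 A Y W) (sm σ (D8.mem1 A Y W))) (sm ω (D8.mem2 A Y W))
    refine MaxR.change hT (hT.cn.of_adj fun i => ?_) fun i => ?_
    · fin_cases i
      exacts [hPm, D8.mem1 A Y W, D8.mem2 A Y W]
    · fin_cases i
      · show A ∈ _
        have h1 : A = P - σ • Y - ω • W := by
          rw [hP]
          abel
        rw [h1]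
        exact sub_mem (sub_mem (D8.mem0 P Y W) (sm σ (D8.mem1 P Y W))) (sm ω (D8.mem2 P Y W))
      · exact D8.mem1 P Y W
      · exact D8.mem2 P Y W
  have hpow : ∀ {T : Fin 3 → Matrix (Fin (m + 1 + 4) ⊕ ι) (Fin (m + 1 + 4) ⊕ ι) k} (j : ℕ),
      P ∈ adj T → P ^ (j + 1) ∈ adj T := fun j hj => L2.pow_mem_adj hj j
  have hTD : MaxR ρ ![P, D, Z] := by
    refine D8.MaxR.change3 hTP ?_ ?_ ?_ ?_
    · exact sub_mem (sub_mem (D8.mem1 P Y W) (sm κ (hpow (m + 1) (D8.mem0 P Y W))))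
        (sm κ' (hpow (m + 2) (D8.mem0 P Y W)))
    · exact sub_mem (D8.mem2 P Y W) (sm α (hpow (m + 1) (D8.mem0 P Y W)))
    · have h1 : Y = D + κ • P ^ (m + 2) + κ' • P ^ (m + 3) := by
        rw [hD]
        abel
      rw [h1]
      exact add_mem (add_mem (D8.mem1 P D Z) (sm κ (hpow (m + 1) (D8.mem0 P D Z))))
        (sm κ' (hpow (m + 2) (D8.mem0 P D Z)))
    · have h1 : W = Z + α • P ^ (m + 2) := by
        rw [hZ]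
        abel
      rw [h1]
      exact add_mem (D8.mem2 P D Z) (sm α (hpow (m + 1) (D8.mem0 P D Z)))
  have cPD : P * D = D * P := hTD.cn.1 0 1
  have cPZ : P * Z = Z * P := hTD.cn.1 0 2
  have cDZ : D * Z = Z * D := hTD.cn.1 1 2
  have comD : ∀ i u, D *ᵥ (P ^ i *ᵥ u) = P ^ i *ᵥ (D *ᵥ u) := by
    intro i u
    rw [mulVec_mulVec, mulVec_mulVec, ((show Commute D P from cPD.symm).pow_right i).eq]
  have comZ : ∀ i u, Z *ᵥ (P ^ i *ᵥ u) = P ^ i *ᵥ (Z *ᵥ u) := by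
    intro i u
    rw [mulVec_mulVec, mulVec_mulVec, ((show Commute Z P from cPZ.symm).pow_right i).eq]
  have powA : ∀ i u, P ^ (i + 1) *ᵥ u = P ^ i *ᵥ (P *ᵥ u) := fun i u => by
    rw [mulVec_mulVec, ← pow_succ]
  -- powers of `P` on vectors of `R`
  have PPR : ∀ r, ∃ c : k, P ^ 2 *ᵥ L2B.vR (m + 1) r = c • v (m + 4) := by
    intro r
    have e1 : x *ᵥ (y *ᵥ r) = 0 := by rw [mulVec_mulVec, hxy, zero_mulVec]
    have e2 : y *ᵥ (y *ᵥ r) = 0 := by rw [mulVec_mulVec, hyy, zero_mulVec]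
    refine ⟨bS ⬝ᵥ (y *ᵥ r) + bS ⬝ᵥ (x *ᵥ r), ?_⟩
    rw [pow_two, ← mulVec_mulVec, PR, mulVec_add, mulVec_add, mulVec_smul, mulVec_smul, PR, P3, P4,
      e1, e2, L2B.vR_zero, dotProduct_zero]
    module
  have PjR : ∀ j r, ∃ c : k, P ^ (j + 2) *ᵥ L2B.vR (m + 1) r = c • v (m + 4) := by
    intro j r
    obtain ⟨c, hc⟩ := PPR r
    match j with
    | 0 => exact ⟨c, hc⟩
    | j + 1 =>
      refine ⟨0, ?_⟩
      rw [zero_smul, pow_add, ← mulVec_mulVec, hc, mulVec_smul, powA, P4, mulVec_zero, smul_zero]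
  have PmR : ∀ r, ∃ c : k, P ^ (m + 2) *ᵥ L2B.vR (m + 1) r = c • v (m + 4) := PjR m
  have Pm1R : ∀ r, P ^ (m + 3) *ᵥ L2B.vR (m + 1) r = 0 := by
    intro r
    obtain ⟨c, hc⟩ := PPR r
    rw [show m + 3 = m + 1 + 2 from rfl, pow_add, ← mulVec_mulVec, hc, mulVec_smul, powA, P4,
      mulVec_zero, smul_zero]
  have Pm0 : ∀ i, P ^ (i + 2) *ᵥ v (m + 3) = 0 := by
    intro i
    rw [powA, P3, powA, P4, mulVec_zero]
  have Pw0 : ∀ i, P ^ (i + 1) *ᵥ v (m + 4) = 0 := by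
    intro i
    rw [powA, P4, mulVec_zero]
  -- `D` and `Z`
  have DR : ∀ r, ∃ c : k, D *ᵥ L2B.vR (m + 1) r = L2B.vR (m + 1) (G *ᵥ r) +
      (b ⬝ᵥ (x *ᵥ r)) • v (m + 3) + c • v (m + 4) := by
    intro r
    obtain ⟨c, hc⟩ := PmR r
    refine ⟨b ⬝ᵥ r - κ * c, ?_⟩
    rw [hD, sub_mulVec, sub_mulVec, smul_mulVec, smul_mulVec, hc, Pm1R, YR]
    module
  have ZR : ∀ r, ∃ c : k, Z *ᵥ L2B.vR (m + 1) r = L2B.vR (m + 1) (G' *ᵥ r) +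
      (b' ⬝ᵥ (x *ᵥ r)) • v (m + 3) + c • v (m + 4) := by
    intro r
    obtain ⟨c, hc⟩ := PmR r
    refine ⟨b' ⬝ᵥ r - α * c, ?_⟩
    rw [hZ, sub_mulVec, smul_mulVec, hc, WR]
    module
  have Dm : D *ᵥ v (m + 3) = 0 := by
    rw [hD, sub_mulVec, sub_mulVec, smul_mulVec, smul_mulVec, Pm0, show m + 3 = m + 1 + 2 from rfl,
      Pm0, show m + 1 + 2 = m + 3 from rfl, Y2 _ (by omega)]
    simp
  have Dw : D *ᵥ v (m + 4) = 0 := by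
    rw [hD, sub_mulVec, sub_mulVec, smul_mulVec, smul_mulVec, show m + 2 = m + 1 + 1 from rfl, Pw0,
      show m + 3 = m + 2 + 1 from rfl, Pw0, Y2 _ (by omega)]
    simp
  have Zm : Z *ᵥ v (m + 3) = 0 := by
    rw [hZ, sub_mulVec, smul_mulVec, Pm0, W2 _ (by omega)]
    simp
  have Zw : Z *ᵥ v (m + 4) = 0 := by
    rw [hZ, sub_mulVec, smul_mulVec, show m + 2 = m + 1 + 1 from rfl, Pw0, W2 _ (by omega)]
    simp
  -- iterated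
  have DP : ∀ i, D *ᵥ (P ^ (i + 1) *ᵥ v 0) = 0 := by
    intro i
    rw [comD, powA, PD0, mulVec_zero]
  have ZP2 : ∀ i, Z *ᵥ (P ^ (i + 2) *ᵥ v 0) = 0 := by
    intro i
    rw [comZ, powA, powA, PPZ, mulVec_zero]
  have hGv : ∀ r : ι → k, x *ᵥ (G *ᵥ r) = 0 := fun r => by rw [mulVec_mulVec, hxG, zero_mulVec]
  obtain ⟨c1, DD0⟩ : ∃ c : k, D *ᵥ (D *ᵥ v 0) = L2B.vR (m + 1) (G *ᵥ a) +
      (b ⬝ᵥ (x *ᵥ a)) • v (m + 3) + c • v (m + 4) := by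
    obtain ⟨c, hc⟩ := DR a
    refine ⟨c, ?_⟩
    rw [D0, mulVec_sub, mulVec_sub, mulVec_smul, mulVec_smul, show m + 2 = m + 1 + 1 from rfl, DP,
      show m + 3 = m + 2 + 1 from rfl, DP, hc]
    simp
  obtain ⟨c2, DZ0⟩ : ∃ c : k, D *ᵥ (Z *ᵥ v 0) = L2B.vR (m + 1) (G *ᵥ a') +
      (b ⬝ᵥ (x *ᵥ a')) • v (m + 3) + c • v (m + 4) := by
    obtain ⟨c, hc⟩ := DR a'
    refine ⟨c, ?_⟩
    rw [Z0, mulVec_sub, mulVec_smul, show m + 2 = m + 1 + 1 from rfl, DP, hc]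
    simp
  obtain ⟨c4, ZZ0⟩ : ∃ c : k, Z *ᵥ (Z *ᵥ v 0) = L2B.vR (m + 1) (G' *ᵥ a') +
      (b' ⬝ᵥ (x *ᵥ a')) • v (m + 3) + c • v (m + 4) := by
    obtain ⟨c, hc⟩ := ZR a'
    refine ⟨c, ?_⟩
    rw [Z0, mulVec_sub, mulVec_smul, ZP2, hc]
    simp
  have DG : ∀ r, D *ᵥ L2B.vR (m + 1) (G *ᵥ r) = (b ⬝ᵥ (G *ᵥ r)) • v (m + 4) := by
    intro r
    have h1 : P *ᵥ L2B.vR (m + 1) (G *ᵥ r) = (bS ⬝ᵥ (G *ᵥ r)) • v (m + 4) := by
      rw [PR, hGv, mulVec_mulVec, hyG, zero_mulVec, L2B.vR_zero, dotProduct_zero]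
      simp
    have h2 : ∀ i, P ^ (i + 2) *ᵥ L2B.vR (m + 1) (G *ᵥ r) = 0 := by
      intro i
      rw [powA, h1, mulVec_smul, Pw0, smul_zero]
    rw [hD, sub_mulVec, sub_mulVec, smul_mulVec, smul_mulVec, h2, show m + 3 = m + 1 + 2 from rfl,
      h2, YR, hGv, mulVec_mulVec r G G, hGG, zero_mulVec, L2B.vR_zero, dotProduct_zero]
    simp
  have hD3 : D *ᵥ (D *ᵥ (D *ᵥ v 0)) = (b ⬝ᵥ (G *ᵥ a)) • (P ^ (m + 4) *ᵥ v 0) := by
    rw [DD0, mulVec_add, mulVec_add, mulVec_smul, mulVec_smul, Dm, Dw, DG, w4]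
    simp
  have hDZ : D *ᵥ (D *ᵥ (Z *ᵥ v 0)) = (b ⬝ᵥ (G *ᵥ a')) • (P ^ (m + 4) *ᵥ v 0) := by
    rw [DZ0, mulVec_add, mulVec_add, mulVec_smul, mulVec_smul, Dm, Dw, DG, w4]
    simp
  obtain ⟨q, a5, hq5⟩ := hE
    (b' ⬝ᵥ (x *ᵥ a') - a0 * (bS ⬝ᵥ (x *ᵥ a')) - a1 * (b ⬝ᵥ (x *ᵥ a)) - a2 * (b ⬝ᵥ (x *ᵥ a')))
    (c4 - a0 * (bS ⬝ᵥ a') - a1 * c1 - a2 * c2)
  have hZZ : Z *ᵥ (Z *ᵥ v 0) = (q + a0 * α) • (P ^ (m + 3) *ᵥ v 0) + a5 • (P ^ (m + 4) *ᵥ v 0) +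
      a1 • (D *ᵥ (D *ᵥ v 0)) + a2 • (D *ᵥ (Z *ᵥ v 0)) + a0 • (P *ᵥ (Z *ᵥ v 0)) := by
    have h1 : (q + a0 * α) • (P ^ (m + 3) *ᵥ v 0) + a5 • (P ^ (m + 4) *ᵥ v 0) =
        (b' ⬝ᵥ (x *ᵥ a') - a0 * (bS ⬝ᵥ (x *ᵥ a')) - a1 * (b ⬝ᵥ (x *ᵥ a)) -
          a2 * (b ⬝ᵥ (x *ᵥ a'))) • v (m + 3) +
        (c4 - a0 * (bS ⬝ᵥ a') - a1 * c1 - a2 * c2) • v (m + 4) +
        (a0 * α) • (P ^ (m + 3) *ᵥ v 0) := by
      rw [hq5]
      module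
    rw [h1, ZZ0, DD0, DZ0, PZ0, hM, L2B.vR_add, L2B.vR_add, L2B.vR_smul, L2B.vR_smul, L2B.vR_smul]
    module
  have hv4 : v (m + 4) ≠ 0 := by
    intro h
    have h1 := congrFun h (Sum.inl ⟨m + 4, by omega⟩)
    simp [hv, L2B.vL, ev] at h1
  have w5' : P ^ (m + 4 + 1) *ᵥ v 0 = 0 := w5
  have hqq : q + a0 * α = b' ⬝ᵥ (y *ᵥ a') := by
    have h1 : P *ᵥ (Z *ᵥ (Z *ᵥ v 0)) = (q + a0 * α) • v (m + 4) := by
      have pD : P *ᵥ (D *ᵥ (D *ᵥ v 0)) = 0 := by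
        have := comD 1 (D *ᵥ v 0)
        rw [pow_one] at this
        rw [← this, PD0, mulVec_zero]
      have pDZ : P *ᵥ (D *ᵥ (Z *ᵥ v 0)) = 0 := by
        have h2 : D *ᵥ (Z *ᵥ v 0) = Z *ᵥ (D *ᵥ v 0) := by rw [mulVec_mulVec, mulVec_mulVec, cDZ]
        have := comZ 1 (D *ᵥ v 0)
        rw [pow_one] at this
        rw [h2, ← this, PD0, mulVec_zero]
      rw [hZZ, mulVec_add, mulVec_add, mulVec_add, mulVec_add, mulVec_smul, mulVec_smul,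
        mulVec_smul, mulVec_smul, mulVec_smul, pD, pDZ, PPZ, ← powS, ← powS, w4, w5']
      simp
    have h2 : P *ᵥ (Z *ᵥ (Z *ᵥ v 0)) = (b' ⬝ᵥ (y *ᵥ a')) • v (m + 4) := by
      have h3 : P *ᵥ (Z *ᵥ (Z *ᵥ v 0)) = Z *ᵥ (P *ᵥ (Z *ᵥ v 0)) := by
        have := comZ 1 (Z *ᵥ v 0)
        rw [pow_one] at this
        exact this.symm
      have h4 : P *ᵥ L2B.vR (m + 1) (y *ᵥ a') = (bS ⬝ᵥ (y *ᵥ a')) • v (m + 4) := by
        rw [PR, e1, e2, L2B.vR_zero, dotProduct_zero]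
        simp
      have h5 : P ^ (m + 2) *ᵥ L2B.vR (m + 1) (y *ᵥ a') = 0 := by
        rw [show m + 2 = m + 1 + 1 from rfl, powA, h4, mulVec_smul, Pw0, smul_zero]
      have h6 : Z *ᵥ L2B.vR (m + 1) (y *ᵥ a') = (b' ⬝ᵥ (y *ᵥ a')) • v (m + 4) := by
        rw [hZ, sub_mulVec, smul_mulVec, h5, WR, e1, mulVec_mulVec a' G' y, hG'y, zero_mulVec,
          L2B.vR_zero, dotProduct_zero]
        simp
      rw [h3, PZ0, mulVec_sub, mulVec_add, mulVec_add, mulVec_smul, mulVec_smul, mulVec_smul, h6,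
        Zm, Zw, show m + 3 = m + 1 + 2 from rfl, ZP2]
      simp
    have h3 : (q + a0 * α - b' ⬝ᵥ (y *ᵥ a')) • v (m + 4) = 0 := by
      rw [sub_smul, ← h1, ← h2, sub_self]
    exact sub_eq_zero.1 ((smul_eq_zero.1 h3).resolve_right hv4)
  refine no_core' (m := m + 1) (Equiv.sumCongr (Equiv.refl _) e) hTD (v 0)
    ⟨b ⬝ᵥ (G *ᵥ a), b ⬝ᵥ (G *ᵥ a'), a0, a1, a2, a5, q + a0 * α⟩ (by rw [hqq]; exact hq) hF PD0 w5
    PPZ hD3 hDZ hZZ ?_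
  intro S hS hSZ hSD hSDD hSDZ hSPZ
  have s4 : v (m + 4) ∈ S := by
    rw [← w4]
    exact hS _
  have s3 : v (m + 3) ∈ S := by
    have h1 : v (m + 3) = P ^ (m + 3) *ᵥ v 0 - c3 • v (m + 4) := by
      rw [w3]
      simp
    rw [h1]
    exact S.sub_mem (hS _) (S.smul_mem _ s4)
  have hall : ∀ r, L2B.vR (m + 1) r ∈ S := by
    have hS' := hspan (S.comap (⟨⟨L2B.vR (m + 1), L2B.vR_add⟩, L2B.vR_smul⟩ :
      (ι → k) →ₗ[k] (Fin (m + 1 + 4) ⊕ ι → k))) ?_ ?_ ?_ ?_ ?_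
    · exact hS'
    · show L2B.vR (m + 1) a ∈ S
      have h1 : L2B.vR (m + 1) a = D *ᵥ v 0 + κ • (P ^ (m + 2) *ᵥ v 0) +
          κ' • (P ^ (m + 3) *ᵥ v 0) := by
        rw [D0]
        abel
      rw [h1]
      exact S.add_mem (S.add_mem hSD (S.smul_mem _ (hS _))) (S.smul_mem _ (hS _))
    · show L2B.vR (m + 1) a' ∈ S
      have h1 : L2B.vR (m + 1) a' = Z *ᵥ v 0 + α • (P ^ (m + 2) *ᵥ v 0) := by
        rw [Z0]
        abel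
      rw [h1]
      exact S.add_mem hSZ (S.smul_mem _ (hS _))
    · show L2B.vR (m + 1) (y *ᵥ a') ∈ S
      have h1 : L2B.vR (m + 1) (y *ᵥ a') = P *ᵥ (Z *ᵥ v 0) - (bS ⬝ᵥ (x *ᵥ a')) • v (m + 3) -
          (bS ⬝ᵥ a') • v (m + 4) + α • (P ^ (m + 3) *ᵥ v 0) := by
        rw [PZ0]
        abel
      rw [h1]
      exact S.add_mem (S.sub_mem (S.sub_mem hSPZ (S.smul_mem _ s3)) (S.smul_mem _ s4))
        (S.smul_mem _ (hS _))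
    · show L2B.vR (m + 1) (G *ᵥ a) ∈ S
      have h1 : L2B.vR (m + 1) (G *ᵥ a) = D *ᵥ (D *ᵥ v 0) - (b ⬝ᵥ (x *ᵥ a)) • v (m + 3) -
          c1 • v (m + 4) := by
        rw [DD0]
        abel
      rw [h1]
      exact S.sub_mem (S.sub_mem hSDD (S.smul_mem _ s3)) (S.smul_mem _ s4)
    · show L2B.vR (m + 1) (G *ᵥ a') ∈ S
      have h1 : L2B.vR (m + 1) (G *ᵥ a') = D *ᵥ (Z *ᵥ v 0) - (b ⬝ᵥ (x *ᵥ a')) • v (m + 3) -
          c2 • v (m + 4) := by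
        rw [DZ0]
        abel
      rw [h1]
      exact S.sub_mem (S.sub_mem hSDZ (S.smul_mem _ s3)) (S.smul_mem _ s4)
  refine L2B.mem_of_vL_vR (fun i _ => ?_) hall
  obtain ⟨r, c, c', h⟩ := hU i
  have h1 : v i = P ^ i *ᵥ v 0 - L2B.vR (m + 1) r - c • v (m + 3) - c' • v (m + 4) := by
    rw [h]
    abel
  show v i ∈ S
  rw [h1]
  exact S.sub_mem (S.sub_mem (S.sub_mem (hS i) (hall r)) (S.smul_mem _ s3)) (S.smul_mem _ s4)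

end L2N

end Pool.Agent.Lib.D13
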