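import Pool.Agent.Lib.D13.L2PurR
import Pool.Agent.Lib.D13.Auto

/-!
# MP_5dcbc3_ag: the types (l, 2^u, 1^p), l >= 4, u >= 1, p <= l - 2
-/

namespace Pool.Agent.Lib.D13

open Matrix Pool.Agent.Lib.Q5dc Pool.Agent.Lib.D7

universe v

variable {k : Type v} [Field k]

namespace L2

/-- the rank of the standard matrix -/
theorem le_rank_LA {U P : Type} [Fintype U] [DecidableEq U] [Fintype P] [DecidableEq P] (m : ℕ) :
    m + 3 + Fintype.card U ≤ (LA m (xs k U P)).rank := by
  let E : Matrix (Fin (m + 3) ⊕ U) (Fin (m + 4) ⊕ (U ⊕ (U ⊕ P))) k :=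
    fromBlocks (Matrix.of fun (i : Fin (m + 3)) (j : Fin (m + 4)) =>
      if (j : ℕ) = (i : ℕ) + 1 then (1 : k) else 0) 0 0 (fromCols 0 (fromCols 1 0))
  let F : Matrix (Fin (m + 4) ⊕ (U ⊕ (U ⊕ P))) (Fin (m + 3) ⊕ U) k :=
    fromBlocks (Matrix.of fun (i : Fin (m + 4)) (j : Fin (m + 3)) =>
      if (i : ℕ) = (j : ℕ) then (1 : k) else 0) 0 0 (fromRows 1 0)
  have h1 : E * LA m (xs k U P) = fromBlocks (Matrix.of fun (i : Fin (m + 3)) (j : Fin (m + 4)) =>
      if (j : ℕ) = (i : ℕ) then (1 : k) else 0) 0 0 (fromCols 1 0) := by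
    rw [LA, fromBlocks_multiply]
    congr 1
    · ext i j
      rw [Matrix.zero_mul, add_zero, Matrix.mul_apply,
        Finset.sum_eq_single (⟨(i : ℕ) + 1, by omega⟩ : Fin (m + 4))]
      · by_cases h : (j : ℕ) = i
        · simp [ShF, h]
        · have h' : ¬ (i : ℕ) = j := fun e => h e.symm
          simp [ShF, h, h']
      · intro c _ hc
        have h : ¬ (c : ℕ) = (i : ℕ) + 1 := fun e => hc (Fin.ext e)
        simp [h]
      · simp
    · simp
    · simp
    · ext i j
      rcases j with j | j | j <;> simp [xs, Matrix.mul_apply, Matrix.one_apply]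
  have h2 : E * LA m (xs k U P) * F = 1 := by
    rw [h1, fromBlocks_multiply]
    ext i j
    rcases i with i | i <;> rcases j with j | j
    · rw [fromBlocks_apply₁₁, Matrix.zero_mul, add_zero, Matrix.mul_apply,
        Finset.sum_eq_single (⟨(i : ℕ), by omega⟩ : Fin (m + 4))]
      · by_cases h : (i : ℕ) = j
        · have h' : i = j := Fin.ext h
          subst h'
          simp
        · have h' : ¬ i = j := fun e => h (by rw [e])
          simp [h, h']
      · intro c _ hc
        have h : ¬ (c : ℕ) = (i : ℕ) := fun e => hc (Fin.ext e)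
        simp [h]
      · simp
    · simp
    · simp
    · simp [fromCols_mul_fromRows, Matrix.one_apply]
  have h3 : Fintype.card (Fin (m + 3) ⊕ U) ≤ (LA m (xs k U P)).rank := by
    have h4 : (E * LA m (xs k U P) * F).rank = Fintype.card (Fin (m + 3) ⊕ U) := by
      rw [h2, Matrix.rank_one]
    rw [← h4]
    exact (Matrix.rank_mul_le_left _ _).trans (Matrix.rank_mul_le_right _ _)
  rwa [Fintype.card_sum, Fintype.card_fin] at h3

/-- there are no maximal bad triples of type (l, 2^u, 1^p), l >= 4, u >= 1, p <= l - 2 -/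
theorem no_row' [IsAlgClosed k] [CharZero k] {U P : Type} [Fintype U] [DecidableEq U] [Fintype P]
    [DecidableEq P] {m : ℕ} {ρ : ℕ → ℕ} (hu : 0 < Fintype.card U) (hp : Fintype.card P ≤ m + 2)
    (hall : HALL k (Fintype.card (Fin (m + 4) ⊕ (U ⊕ (U ⊕ P)))))
    {T : Fin 3 → Matrix (Fin (m + 4) ⊕ (U ⊕ (U ⊕ P))) (Fin (m + 4) ⊕ (U ⊕ (U ⊕ P))) k}
    (hT : MaxR ρ T) (hρ : ∀ i, ρ i = (T 0 ^ i).rank) (h0 : T 0 = LA m (xs k U P)) : False := by
  have hr1 : m + 3 + Fintype.card U ≤ ρ 1 := by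
    rw [hρ 1, h0, pow_one]
    exact le_rank_LA m
  obtain ⟨K, _, _, _, _, T', hM, hT0, -, hrk⟩ := auto_maxR hall hT (fun i => (hρ i).symm)
    (by rw [Fintype.card_sum, Fintype.card_fin]; omega) (by
      simp only [Fintype.card_sum, Fintype.card_fin]
      omega)
  have h1 : T' 0 = LA m (xs K U P) := by
    rw [hT0, h0]
    ext r c
    rcases r with r | r | r | r <;> rcases c with c | c | c | c <;>
      simp [LA, ShF, xs, Matrix.one_apply, apply_ite (algebraMap k K)]
  have h2 : ∀ i, ρ i = (T' 0 ^ i).rank := by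
    intro i
    have h3 : T' 0 ^ i = (algebraMap k K).mapMatrix (T 0 ^ i) := by
      rw [hT0, map_pow]
      rfl
    refine le_antisymm ?_ (hM.rank_le (mem_adj T' 0) i)
    obtain ⟨r, hr, hr'⟩ := GenAux.exists_rank (T 0 ^ i) (RingHom.id k)
    have h4 := hr' (algebraMap k K) (by simpa using hr)
    rw [h3, hρ i]
    simpa using h4
  obtain ⟨c, hc, hc'⟩ := count_maxR (k := k) hM h2 h1 hu
  have h4 := hrk.trans hc
  have h5 := le_finrank (U := U) (P := P) m (Pur.cen (T 0)) (fun M hM' => by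
    rw [← h0] at hM'
    exact hM')
  have h6 : Module.finrank k (Pur.cen (T 0)) + Fintype.card (Fin (m + 4) ⊕ (U ⊕ (U ⊕ P))) - 2 ≤ c :=
    by exact_mod_cast h4
  simp only [Fintype.card_sum, Fintype.card_fin] at h6
  omega

/-- the types `(l, 2^u, 1^p)`, `l >= 4`, `u >= 1`, `p <= l - 2`, are not bad if all commuting
nilpotent triples of smaller sizes are limits of curvilinear ones -/
theorem not_bad_row' [IsAlgClosed k] [CharZero k] {l u p : ℕ} (hl : 4 ≤ l) (hu : 0 < u)
    (hp : p + 2 ≤ l) (hall : HALL k (l + 2 * u + p)) : ¬ Bad k (l :: L21 u p) := by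
  have : Infinite k := IsAlgClosed.instInfinite
  intro hb
  obtain ⟨m, rfl⟩ : ∃ m, l = m + 4 := ⟨l - 4, by omega⟩
  obtain ⟨ρ, T, hT, hρ, h0⟩ := bridge hb
  have hcard : Fintype.card (Fin (m + 4) ⊕ (Fin u ⊕ (Fin u ⊕ Fin p))) = m + 4 + 2 * u + p := by
    simp only [Fintype.card_sum, Fintype.card_fin]
    omega
  exact no_row' (by rw [Fintype.card_fin]; exact hu) (by rw [Fintype.card_fin]; omega)
    (by rw [hcard]; exact hall) hT (fun i => by rw [hρ i, h0]) h0

end L2

theorem not_bad_4221h [IsAlgClosed k] [CharZero k] (hall : HALL k 9) : ¬ Bad k [4, 2, 2, 1] :=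
  L2.not_bad_row' (l := 4) (u := 2) (p := 1) (by omega) (by omega) (by omega) hall

theorem not_bad_4222h [IsAlgClosed k] [CharZero k] (hall : HALL k 10) : ¬ Bad k [4, 2, 2, 2] :=
  L2.not_bad_row' (l := 4) (u := 3) (p := 0) (by omega) (by omega) (by omega) hall

theorem not_bad_42211h [IsAlgClosed k] [CharZero k] (hall : HALL k 10) :
    ¬ Bad k [4, 2, 2, 1, 1] :=
  L2.not_bad_row' (l := 4) (u := 2) (p := 2) (by omega) (by omega) (by omega) hall

theorem not_bad_42221h [IsAlgClosed k] [CharZero k] (hall : HALL k 11) :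
    ¬ Bad k [4, 2, 2, 2, 1] :=
  L2.not_bad_row' (l := 4) (u := 3) (p := 1) (by omega) (by omega) (by omega) hall

theorem not_bad_42222h [IsAlgClosed k] [CharZero k] (hall : HALL k 12) :
    ¬ Bad k [4, 2, 2, 2, 2] :=
  L2.not_bad_row' (l := 4) (u := 4) (p := 0) (by omega) (by omega) (by omega) hall

theorem not_bad_422211h [IsAlgClosed k] [CharZero k] (hall : HALL k 12) :
    ¬ Bad k [4, 2, 2, 2, 1, 1] :=
  L2.not_bad_row' (l := 4) (u := 3) (p := 2) (by omega) (by omega) (by omega) hall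

end Pool.Agent.Lib.D13
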