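import Pool.Agent.Lib.D13.GenRk

/-!
# MP_5dcbc3_ag: counting parameters of pairs of matrices of type (l, 2^u, 1^p)
-/

set_option linter.unusedSectionVars false

namespace Pool.Agent.Lib.D13

namespace L2Cnt

open IntermediateField Matrix

section

variable {k K : Type*} [Field k] [Field K] [Algebra k K]

theorem adjoin_subset_closure (S : Set K) :
    ((adjoin k S : IntermediateField k K) : Set K) ⊆ (AlgebraicIndependent.matroid k K).closure S := by
  rw [AlgebraicIndependent.matroid_closure_eq]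
  intro y hy
  rw [SetLike.mem_coe, Subalgebra.mem_algebraicClosure]
  obtain ⟨r, hr, s, hs, rfl⟩ := IntermediateField.mem_adjoin_iff_div.1 hy
  have e1 : IsAlgebraic (Algebra.adjoin k S) (r : K) :=
    isAlgebraic_algebraMap (⟨r, hr⟩ : Algebra.adjoin k S)
  have e2 : IsAlgebraic (Algebra.adjoin k S) (s : K) :=
    isAlgebraic_algebraMap (⟨s, hs⟩ : Algebra.adjoin k S)
  rw [div_eq_mul_inv]
  exact e1.mul e2.inv

/-- the rank of a set contained in a field generated by another one -/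
theorem rk_le_of_adjoin {S S' : Set K} (h : S ⊆ (adjoin k S' : IntermediateField k K)) :
    rk k S ≤ rk k S' := by
  have h1 : S ⊆ (AlgebraicIndependent.matroid k K).closure S' :=
    h.trans (adjoin_subset_closure S')
  calc rk k S ≤ (AlgebraicIndependent.matroid k K).eRk
        ((AlgebraicIndependent.matroid k K).closure S') := Matroid.eRk_mono _ h1
    _ = rk k S' := Matroid.eRk_closure_eq _ _

theorem rk_union_le (S S' : Set K) : rk k (S ∪ S') ≤ rk k S + rk k S' :=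
  Matroid.eRk_union_le_eRk_add_eRk _ _ _

theorem rk_range_le {t : Type*} [Fintype t] (g : t → K) :
    rk k (Set.range g) ≤ (Fintype.card t : ℕ) := by
  refine (Matroid.eRk_le_encard _ _).trans ?_
  rw [← Set.image_univ]
  refine (Set.encard_image_le _ _).trans ?_
  rw [Set.encard_univ, ENat.card_eq_coe_fintype_card]

/-- one linear equation determines one coordinate -/
theorem solve {ι : Type*} [Fintype ι] (E : IntermediateField k K) (w v : ι → K)
    (i₀ : ι) (h0 : w i₀ ≠ 0) (hw : ∀ i, w i ∈ E) (hv : ∀ i, i ≠ i₀ → v i ∈ E)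
    (hs : ∑ i, w i * v i ∈ E) (i : ι) : v i ∈ E := by
  classical
  by_cases hi : i = i₀
  · subst hi
    rw [← Finset.add_sum_erase _ _ (Finset.mem_univ i)] at hs
    have h1 : ∑ j ∈ Finset.univ.erase i, w j * v j ∈ E :=
      sum_mem fun j hj => mul_mem (hw j) (hv j (Finset.ne_of_mem_erase hj))
    have h2 : w i * v i ∈ E := by
      have := sub_mem hs h1
      rwa [add_sub_cancel_right] at this
    have h3 : v i = (w i)⁻¹ * (w i * v i) := by field_simp
    rw [h3]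
    exact mul_mem (inv_mem (hw i)) h2
  · exact hv i hi

/-- two matrices with product zero -/
theorem prod_zero {α β P : Type*} [Fintype α] [Fintype β] [Fintype P] [DecidableEq P]
    (M : Matrix α P K) (N : Matrix P β K) (h : M * N = 0)
    {n : ℕ} (hα : Fintype.card α = n) (hβ : Fintype.card β = n) :
    ∃ S : Set K, (∀ i j, M i j ∈ (adjoin k S : IntermediateField k K)) ∧
      (∀ i j, N i j ∈ (adjoin k S : IntermediateField k K)) ∧
      ∃ c : ℕ, rk k S ≤ (c : ℕ) ∧ c + Fintype.card P ≤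
        n * Fintype.card P + Fintype.card P * Fintype.card P := by
  classical
  obtain ⟨κ, a, ha, hsp, hli⟩ := exists_linearIndependent' K (fun i => N i)
  have hfin : Finite κ := Finite.of_injective a ha
  have hκ : Fintype κ := Fintype.ofFinite κ
  have h1 : ∀ i, ∃ c : κ → K, ∑ j, c j • N (a j) = N i := by
    intro i
    have h2 : N i ∈ Submodule.span K (Set.range ((fun i => N i) ∘ a)) := by
      rw [hsp]
      exact Submodule.subset_span ⟨i, rfl⟩
    rw [Submodule.mem_span_range_iff_exists_fun] at h2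
    exact h2
  choose c hc using h1
  set J := {i : P // i ∉ Set.range a} with hJ
  let g : (κ × β) ⊕ ((J × κ) ⊕ (α × J)) → K :=
    Sum.elim (fun z => N (a z.1) z.2) (Sum.elim (fun z => c z.1 z.2) fun z => M z.1 z.2)
  set E : IntermediateField k K := adjoin k (Set.range g) with hE
  have hg : ∀ z, g z ∈ E := fun z => subset_adjoin k _ ⟨z, rfl⟩
  have g1 : ∀ j y, N (a j) y ∈ E := fun j y => hg (Sum.inl (j, y))
  have g2 : ∀ (i : J) j, c i j ∈ E := fun i j => hg (Sum.inr (Sum.inl (i, j)))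
  have g3 : ∀ x (i : J), M x i ∈ E := fun x i => hg (Sum.inr (Sum.inr (x, i)))
  -- the entries of `N`
  have hN : ∀ i j, N i j ∈ E := by
    intro i y
    by_cases hi : i ∈ Set.range a
    · obtain ⟨j, rfl⟩ := hi
      exact g1 j y
    · rw [← hc i, Finset.sum_apply]
      exact sum_mem fun j _ => mul_mem (g2 ⟨i, hi⟩ j) (g1 j y)
  -- the entries of `M`
  have hM0 : ∀ x j, M x (a j) + ∑ i : J, M x i * c i j = 0 := by
    intro x
    have h3 : ∑ i, M x i • N i = 0 := by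
      ext y
      have := congrFun (congrFun h x) y
      rw [Matrix.mul_apply] at this
      rw [Finset.sum_apply]
      exact this
    have h4 : ∑ i, M x i • N i = ∑ j, (M x (a j) + ∑ i : J, M x i * c i j) • N (a j) := by
      have h5 : ∑ i : {i : P // i ∈ Set.range a}, M x i • N i = ∑ j, M x (a j) • N (a j) :=
        (Fintype.sum_equiv (Equiv.ofInjective a ha) (fun j => M x (a j) • N (a j))
          (fun i : {i : P // i ∈ Set.range a} => M x i • N i) fun j => rfl).symm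
      have h6 : ∑ i : {i : P // ¬ i ∈ Set.range a}, M x i • N i =
          ∑ j, (∑ i : J, M x i * c i j) • N (a j) := by
        have h7 : ∀ i : {i : P // ¬ i ∈ Set.range a}, M x i • N i =
            ∑ j, (M x i * c i j) • N (a j) := by
          intro i
          rw [← hc i, Finset.smul_sum]
          exact Finset.sum_congr rfl fun j _ => by rw [smul_smul]
        rw [Finset.sum_congr rfl fun i _ => h7 i, Finset.sum_comm]
        exact Finset.sum_congr rfl fun j _ => by rw [Finset.sum_smul]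
      have h7 : ∑ i, M x i • N i = ∑ j, M x (a j) • N (a j) +
          ∑ j, (∑ i : J, M x i * c i j) • N (a j) := by
        rw [← h5, ← h6]
        refine (Fintype.sum_subtype_add_sum_subtype (fun i => i ∈ Set.range a)
          (fun i => M x i • N i)).symm.trans ?_
        exact congrArg₂ (· + ·) (Finset.sum_congr (by ext i; simp) fun _ _ => rfl)
          (Finset.sum_congr (by ext i; simp) fun _ _ => rfl)
      rw [h7, ← Finset.sum_add_distrib]
      exact Finset.sum_congr rfl fun j _ => by rw [add_smul]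
    rw [h4] at h3
    exact Fintype.linearIndependent_iff.1 hli _ h3
  have hM : ∀ x i, M x i ∈ E := by
    intro x i
    by_cases hi : i ∈ Set.range a
    · obtain ⟨j, rfl⟩ := hi
      rw [eq_neg_of_add_eq_zero_left (hM0 x j)]
      exact neg_mem (sum_mem fun i _ => mul_mem (g3 x i) (g2 i j))
    · exact g3 x ⟨i, hi⟩
  refine ⟨Set.range g, hM, hN, _, rk_range_le g, ?_⟩
  have h8 : Fintype.card J + Fintype.card κ = Fintype.card P := by
    have h9 : Fintype.card {i : P // i ∈ Set.range a} = Fintype.card κ :=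
      (Fintype.card_congr (Equiv.ofInjective a ha)).symm
    have h10 := Fintype.card_subtype_compl (fun i : P => i ∈ Set.range a)
    have h11 := Fintype.card_subtype_le (fun i : P => i ∈ Set.range a)
    have h12 : Fintype.card J = Fintype.card {i : P // ¬ i ∈ Set.range a} := rfl
    omega
  have h10 : Fintype.card ((κ × β) ⊕ ((J × κ) ⊕ (α × J))) =
      Fintype.card κ * n + (Fintype.card J * Fintype.card κ + n * Fintype.card J) := by
    rw [Fintype.card_sum, Fintype.card_sum, Fintype.card_prod, Fintype.card_prod,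
      Fintype.card_prod, hα, hβ]
  rw [h10, ← h8]
  generalize Fintype.card κ = r
  generalize Fintype.card J = s
  have e1 : r ≤ r * r := Nat.le_mul_self r
  have e2 : s ≤ s * s := Nat.le_mul_self s
  nlinarith


/-- the parameters of a matrix commuting with a Jordan matrix of type (l, 2^u, 1^p), modulo
polynomials in the Jordan matrix -/
structure Q (U P K : Type*) where
  a0 : U → K
  a1 : U → K
  aP : P → K
  b0 : U → K
  b1 : U → K
  bP : P → K
  ν : Matrix U U K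
  η : Matrix U P K
  π : Matrix P U K

variable {U P : Type*} [Fintype U] [Fintype P] [DecidableEq U] [DecidableEq P]

/-- the relations of a commuting pair -/
structure Rel (X X' : Q U P K) : Prop where
  r1 : ∀ i, ∑ j, X.ν i j * X'.a0 j + ∑ q, X.η i q * X'.aP q =
    ∑ j, X'.ν i j * X.a0 j + ∑ q, X'.η i q * X.aP q
  r2 : ∀ j, ∑ i, X.b1 i * X'.ν i j + ∑ q, X.bP q * X'.π q j =
    ∑ i, X'.b1 i * X.ν i j + ∑ q, X'.bP q * X.π q j
  r3 : ∑ i, X.b1 i * X'.a0 i = ∑ i, X'.b1 i * X.a0 i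
  r4 : ∑ i, X.b0 i * X'.a0 i + ∑ i, X.b1 i * X'.a1 i + ∑ q, X.bP q * X'.aP q =
    ∑ i, X'.b0 i * X.a0 i + ∑ i, X'.b1 i * X.a1 i + ∑ q, X'.bP q * X.aP q
  z1 : X.η * X.π = 0
  z2 : X.η * X'.π = 0
  z3 : X'.η * X.π = 0
  z4 : X'.η * X'.π = 0

theorem Rel.swap {X X' : Q U P K} (h : Rel X X') : Rel X' X :=
  ⟨fun i => (h.r1 i).symm, fun j => (h.r2 j).symm, h.r3.symm, h.r4.symm, h.z4, h.z3, h.z2, h.z1⟩

/-- all parameters lie in `E` -/
structure In (E : IntermediateField k K) (X : Q U P K) : Prop where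
  a0 : ∀ i, X.a0 i ∈ E
  a1 : ∀ i, X.a1 i ∈ E
  aP : ∀ i, X.aP i ∈ E
  b0 : ∀ i, X.b0 i ∈ E
  b1 : ∀ i, X.b1 i ∈ E
  bP : ∀ i, X.bP i ∈ E
  ν : ∀ i j, X.ν i j ∈ E
  η : ∀ i j, X.η i j ∈ E
  π : ∀ i j, X.π i j ∈ E

/-- the common part: `aP, bP, η, π` of both and `ν` of the first one -/
theorem common {X X' : Q U P K} (h : Rel X X') :
    ∃ S : Set K, (∀ E : IntermediateField k K, S ⊆ E →
      (∀ i, X.aP i ∈ E) ∧ (∀ i, X.bP i ∈ E) ∧ (∀ i, X'.aP i ∈ E) ∧ (∀ i, X'.bP i ∈ E) ∧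
      (∀ i j, X.η i j ∈ E) ∧ (∀ i j, X.π i j ∈ E) ∧ (∀ i j, X'.η i j ∈ E) ∧
      (∀ i j, X'.π i j ∈ E) ∧ ∀ i j, X.ν i j ∈ E) ∧
      ∃ c : ℕ, rk k S ≤ (c : ℕ) ∧ c ≤ 3 * Fintype.card P + Fintype.card U * Fintype.card U +
        2 * (Fintype.card U * Fintype.card P) + Fintype.card P * Fintype.card P := by
  classical
  have h0 : fromRows X.η X'.η * fromCols X.π X'.π = 0 := by
    rw [fromRows_mul_fromCols, h.z1, h.z2, h.z3, h.z4, fromBlocks_zero]
  obtain ⟨S, hM, hN, c, hc, hc'⟩ := prod_zero (k := k) _ _ h0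
    (n := Fintype.card U + Fintype.card U) (by rw [Fintype.card_sum]) (by rw [Fintype.card_sum])
  let g : (P ⊕ P) ⊕ ((P ⊕ P) ⊕ (U × U)) → K :=
    Sum.elim (Sum.elim X.aP X.bP) (Sum.elim (Sum.elim X'.aP X'.bP) fun z => X.ν z.1 z.2)
  refine ⟨S ∪ Set.range g, fun E hE => ?_, ?_⟩
  · have hg : ∀ z, g z ∈ E := fun z => hE (Or.inr ⟨z, rfl⟩)
    have hS : adjoin k S ≤ E := adjoin_le_iff.2 fun z hz => hE (Or.inl hz)
    exact ⟨fun i => hg (Sum.inl (Sum.inl i)), fun i => hg (Sum.inl (Sum.inr i)),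
      fun i => hg (Sum.inr (Sum.inl (Sum.inl i))), fun i => hg (Sum.inr (Sum.inl (Sum.inr i))),
      fun i j => hS (hM (Sum.inl i) j), fun i j => hS (hN i (Sum.inl j)),
      fun i j => hS (hM (Sum.inr i) j), fun i j => hS (hN i (Sum.inr j)),
      fun i j => hg (Sum.inr (Sum.inr (i, j)))⟩
  · refine ⟨c + (2 * Fintype.card P + (2 * Fintype.card P + Fintype.card U * Fintype.card U)),
      ?_, ?_⟩
    · refine (rk_union_le _ _).trans ?_
      rw [Nat.cast_add]
      refine add_le_add hc ((rk_range_le g).trans ?_)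
      simp only [Fintype.card_sum, Fintype.card_prod]
      exact_mod_cast (by omega)
    · have e1 : (Fintype.card U + Fintype.card U) * Fintype.card P =
        2 * (Fintype.card U * Fintype.card P) := by ring
      rw [e1] at hc'
      omega


/-- the common part lies in `E` -/
structure Com (E : IntermediateField k K) (X X' : Q U P K) : Prop where
  aP : ∀ i, X.aP i ∈ E
  bP : ∀ i, X.bP i ∈ E
  aP' : ∀ i, X'.aP i ∈ E
  bP' : ∀ i, X'.bP i ∈ E
  η : ∀ i j, X.η i j ∈ E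
  π : ∀ i j, X.π i j ∈ E
  η' : ∀ i j, X'.η i j ∈ E
  π' : ∀ i j, X'.π i j ∈ E
  ν : ∀ i j, X.ν i j ∈ E

/-- the conclusion of the count -/
def Bd (k : Type*) [Field k] [Algebra k K] (X X' : Q U P K) : Prop :=
  ∃ S : Set K, In (adjoin k S : IntermediateField k K) X ∧
    In (adjoin k S : IntermediateField k K) X' ∧ ∃ c : ℕ, rk k S ≤ (c : ℕ) ∧
      c + 1 ≤ 6 * Fintype.card U + 3 * Fintype.card P + 2 * (Fintype.card U * Fintype.card U) +
        2 * (Fintype.card U * Fintype.card P) + Fintype.card P * Fintype.card P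

theorem Bd.swap {X X' : Q U P K} (h : Bd k X X') : Bd k X' X := by
  obtain ⟨S, h1, h2, h3⟩ := h
  exact ⟨S, h2, h1, h3⟩

theorem combine {X X' : Q U P K} (h : Rel X X') {t : Type*} [Fintype t] (g : t → K)
    (hg : ∀ E : IntermediateField k K, (∀ z, g z ∈ E) → Com E X X' → In E X ∧ In E X')
    (ht : Fintype.card t + 1 ≤ 6 * Fintype.card U + Fintype.card U * Fintype.card U) :
    Bd k X X' := by
  obtain ⟨S, hS, c, hc, hc'⟩ := common (k := k) h
  obtain ⟨h1, h2, h3, h4, h5, h6, h7, h8, h9⟩ := hS (adjoin k (S ∪ Set.range g))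
    fun z hz => subset_adjoin k _ (Or.inl hz)
  obtain ⟨i1, i2⟩ := hg (adjoin k (S ∪ Set.range g))
    (fun z => subset_adjoin k _ (Or.inr ⟨z, rfl⟩)) ⟨h1, h2, h3, h4, h5, h6, h7, h8, h9⟩
  refine ⟨_, i1, i2, c + Fintype.card t, ?_, by omega⟩
  refine (rk_union_le _ _).trans ?_
  rw [Nat.cast_add]
  exact add_le_add hc (rk_range_le g)

theorem card_ne (i₀ : U) : Fintype.card {i : U // i ≠ i₀} + 1 = Fintype.card U := by
  have h1 := Fintype.card_subtype_compl (fun i : U => i = i₀)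
  have h2 : Fintype.card {i : U // i = i₀} = 1 := Fintype.card_subtype_eq i₀
  have h3 : 0 < Fintype.card U := Fintype.card_pos_iff.2 ⟨i₀⟩
  have h4 : Fintype.card {i : U // i ≠ i₀} = Fintype.card {i : U // ¬ i = i₀} := rfl
  omega

/-- case A -/
theorem caseA {X X' : Q U P K} (h : Rel X X') {i₀ j₀ : U} (hb : X.b1 i₀ ≠ 0)
    (ha : X.a0 j₀ ≠ 0) : Bd k X X' := by
  let N := {i : U // i ≠ i₀}
  let N' := {j : U // j ≠ j₀}
  let g : U ⊕ (U ⊕ (U ⊕ (U ⊕ (U ⊕ (U ⊕ (N ⊕ (N ⊕ (N × N')))))))) → K :=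
    Sum.elim X.a0 (Sum.elim X.a1 (Sum.elim X.b0 (Sum.elim X.b1 (Sum.elim X'.b0 (Sum.elim X'.b1
      (Sum.elim (fun i => X'.a0 i) (Sum.elim (fun i => X'.a1 i) fun z => X'.ν z.1 z.2)))))))
  refine combine h g (fun E hg hE => ?_) ?_
  · have a0 : ∀ i, X.a0 i ∈ E := fun i => hg (Sum.inl i)
    have a1 : ∀ i, X.a1 i ∈ E := fun i => hg (Sum.inr (Sum.inl i))
    have b0 : ∀ i, X.b0 i ∈ E := fun i => hg (Sum.inr (Sum.inr (Sum.inl i)))
    have b1 : ∀ i, X.b1 i ∈ E := fun i => hg (Sum.inr (Sum.inr (Sum.inr (Sum.inl i))))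
    have b0' : ∀ i, X'.b0 i ∈ E := fun i =>
      hg (Sum.inr (Sum.inr (Sum.inr (Sum.inr (Sum.inl i)))))
    have b1' : ∀ i, X'.b1 i ∈ E := fun i =>
      hg (Sum.inr (Sum.inr (Sum.inr (Sum.inr (Sum.inr (Sum.inl i))))))
    have a0r : ∀ i, i ≠ i₀ → X'.a0 i ∈ E := fun i hi =>
      hg (Sum.inr (Sum.inr (Sum.inr (Sum.inr (Sum.inr (Sum.inr (Sum.inl ⟨i, hi⟩)))))))
    have a1r : ∀ i, i ≠ i₀ → X'.a1 i ∈ E := fun i hi =>
      hg (Sum.inr (Sum.inr (Sum.inr (Sum.inr (Sum.inr (Sum.inr (Sum.inr (Sum.inl ⟨i, hi⟩))))))))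
    have νr : ∀ i, i ≠ i₀ → ∀ j, j ≠ j₀ → X'.ν i j ∈ E := fun i hi j hj =>
      hg (Sum.inr (Sum.inr (Sum.inr (Sum.inr (Sum.inr (Sum.inr (Sum.inr (Sum.inr
        (⟨i, hi⟩, ⟨j, hj⟩)))))))))
    have a0' : ∀ i, X'.a0 i ∈ E := solve E X.b1 X'.a0 i₀ hb b1 a0r (by
      rw [h.r3]
      exact sum_mem fun i _ => mul_mem (b1' i) (a0 i))
    have a1' : ∀ i, X'.a1 i ∈ E := solve E X.b1 X'.a1 i₀ hb b1 a1r (by
      have e : ∑ i, X.b1 i * X'.a1 i = ∑ i, X'.b0 i * X.a0 i + ∑ i, X'.b1 i * X.a1 i +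
          ∑ q, X'.bP q * X.aP q - ∑ i, X.b0 i * X'.a0 i - ∑ q, X.bP q * X'.aP q := by
        linear_combination h.r4
      rw [e]
      exact sub_mem (sub_mem (add_mem (add_mem (sum_mem fun i _ => mul_mem (b0' i) (a0 i))
        (sum_mem fun i _ => mul_mem (b1' i) (a1 i)))
        (sum_mem fun i _ => mul_mem (hE.bP' i) (hE.aP i)))
        (sum_mem fun i _ => mul_mem (b0 i) (a0' i)))
        (sum_mem fun i _ => mul_mem (hE.bP i) (hE.aP' i)))
    have νs : ∀ i, i ≠ i₀ → ∀ j, X'.ν i j ∈ E := fun i hi =>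
      solve E X.a0 (fun j => X'.ν i j) j₀ ha a0 (νr i hi) (by
        have e : ∑ j, X.a0 j * X'.ν i j = ∑ j, X.ν i j * X'.a0 j + ∑ q, X.η i q * X'.aP q -
            ∑ q, X'.η i q * X.aP q := by
          have e1 : ∑ j, X.a0 j * X'.ν i j = ∑ j, X'.ν i j * X.a0 j :=
            Finset.sum_congr rfl fun j _ => mul_comm _ _
          rw [e1]
          linear_combination - h.r1 i
        rw [e]
        exact sub_mem (add_mem (sum_mem fun j _ => mul_mem (hE.ν i j) (a0' j))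
          (sum_mem fun q _ => mul_mem (hE.η i q) (hE.aP' q)))
          (sum_mem fun q _ => mul_mem (hE.η' i q) (hE.aP q)))
    have ν' : ∀ i j, X'.ν i j ∈ E := fun i j =>
      solve E X.b1 (fun i => X'.ν i j) i₀ hb b1 (fun i hi => νs i hi j) (by
        have e : ∑ i, X.b1 i * X'.ν i j = ∑ i, X'.b1 i * X.ν i j + ∑ q, X'.bP q * X.π q j -
            ∑ q, X.bP q * X'.π q j := by
          linear_combination h.r2 j
        rw [e]
        exact sub_mem (add_mem (sum_mem fun i _ => mul_mem (b1' i) (hE.ν i j))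
          (sum_mem fun q _ => mul_mem (hE.bP' q) (hE.π q j)))
          (sum_mem fun q _ => mul_mem (hE.bP q) (hE.π' q j))) i
    exact ⟨⟨a0, a1, hE.aP, b0, b1, hE.bP, hE.ν, hE.η, hE.π⟩,
      ⟨a0', a1', hE.aP', b0', b1', hE.bP', ν', hE.η', hE.π'⟩⟩
  · have e1 : Fintype.card N + 1 = Fintype.card U := card_ne i₀
    have e2 : Fintype.card N' + 1 = Fintype.card U := card_ne j₀
    simp only [Fintype.card_sum, Fintype.card_prod]
    have e3 : Fintype.card N' = Fintype.card N := by omega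
    rw [e3, ← e1]
    ring_nf
    omega

/-- case B -/
theorem caseB {X X' : Q U P K} (h : Rel X X') (ha : ∀ i, X'.a0 i = 0) (hb : ∀ i, X.b1 i = 0)
    {i₀ : U} (hb' : X'.b1 i₀ ≠ 0) : Bd k X X' := by
  let N := {i : U // i ≠ i₀}
  let g : U ⊕ (U ⊕ (U ⊕ (U ⊕ (U ⊕ (N ⊕ (U × U)))))) → K :=
    Sum.elim X.a1 (Sum.elim X.b0 (Sum.elim X'.a1 (Sum.elim X'.b0 (Sum.elim X'.b1
      (Sum.elim (fun i => X.a0 i) fun z => X'.ν z.1 z.2)))))
  refine combine h g (fun E hg hE => ?_) ?_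
  · have a1 : ∀ i, X.a1 i ∈ E := fun i => hg (Sum.inl i)
    have b0 : ∀ i, X.b0 i ∈ E := fun i => hg (Sum.inr (Sum.inl i))
    have a1' : ∀ i, X'.a1 i ∈ E := fun i => hg (Sum.inr (Sum.inr (Sum.inl i)))
    have b0' : ∀ i, X'.b0 i ∈ E := fun i => hg (Sum.inr (Sum.inr (Sum.inr (Sum.inl i))))
    have b1' : ∀ i, X'.b1 i ∈ E := fun i =>
      hg (Sum.inr (Sum.inr (Sum.inr (Sum.inr (Sum.inl i)))))
    have a0r : ∀ i, i ≠ i₀ → X.a0 i ∈ E := fun i hi =>
      hg (Sum.inr (Sum.inr (Sum.inr (Sum.inr (Sum.inr (Sum.inl ⟨i, hi⟩))))))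
    have ν' : ∀ i j, X'.ν i j ∈ E := fun i j =>
      hg (Sum.inr (Sum.inr (Sum.inr (Sum.inr (Sum.inr (Sum.inr (i, j)))))))
    have a0' : ∀ i, X'.a0 i ∈ E := fun i => by rw [ha]; exact zero_mem _
    have b1 : ∀ i, X.b1 i ∈ E := fun i => by rw [hb]; exact zero_mem _
    have a0 : ∀ i, X.a0 i ∈ E := solve E X'.b1 X.a0 i₀ hb' b1' a0r (by
      rw [← h.r3]
      exact sum_mem fun i _ => mul_mem (b1 i) (a0' i))
    exact ⟨⟨a0, a1, hE.aP, b0, b1, hE.bP, hE.ν, hE.η, hE.π⟩,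
      ⟨a0', a1', hE.aP', b0', b1', hE.bP', ν', hE.η', hE.π'⟩⟩
  · have e1 : Fintype.card N + 1 = Fintype.card U := card_ne i₀
    simp only [Fintype.card_sum, Fintype.card_prod]
    omega

/-- case C -/
theorem caseC {X X' : Q U P K} (h : Rel X X') (ha : ∀ i, X.a0 i = 0) (ha' : ∀ i, X'.a0 i = 0)
    {i₀ : U} (hb : X.b1 i₀ ≠ 0) : Bd k X X' := by
  let N := {i : U // i ≠ i₀}
  let g : U ⊕ (U ⊕ (U ⊕ (U ⊕ (U ⊕ (N ⊕ (U × U)))))) → K :=
    Sum.elim X.a1 (Sum.elim X.b0 (Sum.elim X.b1 (Sum.elim X'.b0 (Sum.elim X'.b1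
      (Sum.elim (fun i => X'.a1 i) fun z => X'.ν z.1 z.2)))))
  refine combine h g (fun E hg hE => ?_) ?_
  · have a1 : ∀ i, X.a1 i ∈ E := fun i => hg (Sum.inl i)
    have b0 : ∀ i, X.b0 i ∈ E := fun i => hg (Sum.inr (Sum.inl i))
    have b1 : ∀ i, X.b1 i ∈ E := fun i => hg (Sum.inr (Sum.inr (Sum.inl i)))
    have b0' : ∀ i, X'.b0 i ∈ E := fun i => hg (Sum.inr (Sum.inr (Sum.inr (Sum.inl i))))
    have b1' : ∀ i, X'.b1 i ∈ E := fun i =>
      hg (Sum.inr (Sum.inr (Sum.inr (Sum.inr (Sum.inl i)))))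
    have a1r : ∀ i, i ≠ i₀ → X'.a1 i ∈ E := fun i hi =>
      hg (Sum.inr (Sum.inr (Sum.inr (Sum.inr (Sum.inr (Sum.inl ⟨i, hi⟩))))))
    have ν' : ∀ i j, X'.ν i j ∈ E := fun i j =>
      hg (Sum.inr (Sum.inr (Sum.inr (Sum.inr (Sum.inr (Sum.inr (i, j)))))))
    have a0 : ∀ i, X.a0 i ∈ E := fun i => by rw [ha]; exact zero_mem _
    have a0' : ∀ i, X'.a0 i ∈ E := fun i => by rw [ha']; exact zero_mem _
    have a1' : ∀ i, X'.a1 i ∈ E := solve E X.b1 X'.a1 i₀ hb b1 a1r (by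
      have e : ∑ i, X.b1 i * X'.a1 i = ∑ i, X'.b0 i * X.a0 i + ∑ i, X'.b1 i * X.a1 i +
          ∑ q, X'.bP q * X.aP q - ∑ i, X.b0 i * X'.a0 i - ∑ q, X.bP q * X'.aP q := by
        linear_combination h.r4
      rw [e]
      exact sub_mem (sub_mem (add_mem (add_mem (sum_mem fun i _ => mul_mem (b0' i) (a0 i))
        (sum_mem fun i _ => mul_mem (b1' i) (a1 i)))
        (sum_mem fun i _ => mul_mem (hE.bP' i) (hE.aP i)))
        (sum_mem fun i _ => mul_mem (b0 i) (a0' i)))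
        (sum_mem fun i _ => mul_mem (hE.bP i) (hE.aP' i)))
    exact ⟨⟨a0, a1, hE.aP, b0, b1, hE.bP, hE.ν, hE.η, hE.π⟩,
      ⟨a0', a1', hE.aP', b0', b1', hE.bP', ν', hE.η', hE.π'⟩⟩
  · have e1 : Fintype.card N + 1 = Fintype.card U := card_ne i₀
    simp only [Fintype.card_sum, Fintype.card_prod]
    omega

/-- case D -/
theorem caseD {X X' : Q U P K} (h : Rel X X') (hb : ∀ i, X.b1 i = 0) (hb' : ∀ i, X'.b1 i = 0)
    {j₀ : U} (ha : X.a0 j₀ ≠ 0) : Bd k X X' := by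
  let N := {i : U // i ≠ j₀}
  let g : U ⊕ (U ⊕ (U ⊕ (U ⊕ (U ⊕ (N ⊕ (U × U)))))) → K :=
    Sum.elim X.a1 (Sum.elim X.b0 (Sum.elim X.a0 (Sum.elim X'.a0 (Sum.elim X'.a1
      (Sum.elim (fun i => X'.b0 i) fun z => X'.ν z.1 z.2)))))
  refine combine h g (fun E hg hE => ?_) ?_
  · have a1 : ∀ i, X.a1 i ∈ E := fun i => hg (Sum.inl i)
    have b0 : ∀ i, X.b0 i ∈ E := fun i => hg (Sum.inr (Sum.inl i))
    have a0 : ∀ i, X.a0 i ∈ E := fun i => hg (Sum.inr (Sum.inr (Sum.inl i)))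
    have a0' : ∀ i, X'.a0 i ∈ E := fun i => hg (Sum.inr (Sum.inr (Sum.inr (Sum.inl i))))
    have a1' : ∀ i, X'.a1 i ∈ E := fun i =>
      hg (Sum.inr (Sum.inr (Sum.inr (Sum.inr (Sum.inl i)))))
    have b0r : ∀ i, i ≠ j₀ → X'.b0 i ∈ E := fun i hi =>
      hg (Sum.inr (Sum.inr (Sum.inr (Sum.inr (Sum.inr (Sum.inl ⟨i, hi⟩))))))
    have ν' : ∀ i j, X'.ν i j ∈ E := fun i j =>
      hg (Sum.inr (Sum.inr (Sum.inr (Sum.inr (Sum.inr (Sum.inr (i, j)))))))
    have b1 : ∀ i, X.b1 i ∈ E := fun i => by rw [hb]; exact zero_mem _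
    have b1' : ∀ i, X'.b1 i ∈ E := fun i => by rw [hb']; exact zero_mem _
    have b0' : ∀ i, X'.b0 i ∈ E := solve E X.a0 X'.b0 j₀ ha a0 b0r (by
      have e : ∑ i, X.a0 i * X'.b0 i = ∑ i, X.b0 i * X'.a0 i + ∑ i, X.b1 i * X'.a1 i +
          ∑ q, X.bP q * X'.aP q - ∑ i, X'.b1 i * X.a1 i - ∑ q, X'.bP q * X.aP q := by
        have e1 : ∑ i, X.a0 i * X'.b0 i = ∑ i, X'.b0 i * X.a0 i :=
          Finset.sum_congr rfl fun j _ => mul_comm _ _
        rw [e1]
        linear_combination - h.r4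
      rw [e]
      exact sub_mem (sub_mem (add_mem (add_mem (sum_mem fun i _ => mul_mem (b0 i) (a0' i))
        (sum_mem fun i _ => mul_mem (b1 i) (a1' i)))
        (sum_mem fun i _ => mul_mem (hE.bP i) (hE.aP' i)))
        (sum_mem fun i _ => mul_mem (b1' i) (a1 i)))
        (sum_mem fun i _ => mul_mem (hE.bP' i) (hE.aP i)))
    exact ⟨⟨a0, a1, hE.aP, b0, b1, hE.bP, hE.ν, hE.η, hE.π⟩,
      ⟨a0', a1', hE.aP', b0', b1', hE.bP', ν', hE.η', hE.π'⟩⟩
  · have e1 : Fintype.card N + 1 = Fintype.card U := card_ne j₀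
    simp only [Fintype.card_sum, Fintype.card_prod]
    omega

/-- all of `a0, a0', b1, b1'` vanish -/
theorem case0 {X X' : Q U P K} (h : Rel X X') (ha : ∀ i, X.a0 i = 0) (ha' : ∀ i, X'.a0 i = 0)
    (hb : ∀ i, X.b1 i = 0) (hb' : ∀ i, X'.b1 i = 0) (hu : 0 < Fintype.card U) : Bd k X X' := by
  let g : U ⊕ (U ⊕ (U ⊕ (U ⊕ (U × U)))) → K :=
    Sum.elim X.a1 (Sum.elim X.b0 (Sum.elim X'.a1 (Sum.elim X'.b0 fun z => X'.ν z.1 z.2)))
  refine combine h g (fun E hg hE => ?_) ?_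
  · have a1 : ∀ i, X.a1 i ∈ E := fun i => hg (Sum.inl i)
    have b0 : ∀ i, X.b0 i ∈ E := fun i => hg (Sum.inr (Sum.inl i))
    have a1' : ∀ i, X'.a1 i ∈ E := fun i => hg (Sum.inr (Sum.inr (Sum.inl i)))
    have b0' : ∀ i, X'.b0 i ∈ E := fun i => hg (Sum.inr (Sum.inr (Sum.inr (Sum.inl i))))
    have ν' : ∀ i j, X'.ν i j ∈ E := fun i j =>
      hg (Sum.inr (Sum.inr (Sum.inr (Sum.inr (i, j)))))
    have a0 : ∀ i, X.a0 i ∈ E := fun i => by rw [ha]; exact zero_mem _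
    have a0' : ∀ i, X'.a0 i ∈ E := fun i => by rw [ha']; exact zero_mem _
    have b1 : ∀ i, X.b1 i ∈ E := fun i => by rw [hb]; exact zero_mem _
    have b1' : ∀ i, X'.b1 i ∈ E := fun i => by rw [hb']; exact zero_mem _
    exact ⟨⟨a0, a1, hE.aP, b0, b1, hE.bP, hE.ν, hE.η, hE.π⟩,
      ⟨a0', a1', hE.aP', b0', b1', hE.bP', ν', hE.η', hE.π'⟩⟩
  · simp only [Fintype.card_sum, Fintype.card_prod]
    omega

/-- the count -/
theorem count {X X' : Q U P K} (h : Rel X X') (hu : 0 < Fintype.card U) : Bd k X X' := by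
  by_cases ha : ∀ i, X.a0 i = 0
  · by_cases ha' : ∀ i, X'.a0 i = 0
    · by_cases hb : ∀ i, X.b1 i = 0
      · by_cases hb' : ∀ i, X'.b1 i = 0
        · exact case0 h ha ha' hb hb' hu
        · push Not at hb'
          obtain ⟨i, hi⟩ := hb'
          exact (caseC h.swap ha' ha hi).swap
      · push Not at hb
        obtain ⟨i, hi⟩ := hb
        exact caseC h ha ha' hi
    · push Not at ha'
      obtain ⟨j, hj⟩ := ha'
      by_cases hb' : ∀ i, X'.b1 i = 0
      · by_cases hb : ∀ i, X.b1 i = 0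
        · exact (caseD h.swap hb' hb hj).swap
        · push Not at hb
          obtain ⟨i, hi⟩ := hb
          exact (caseB h.swap ha hb' hi).swap
      · push Not at hb'
        obtain ⟨i, hi⟩ := hb'
        exact (caseA h.swap hi hj).swap
  · push Not at ha
    obtain ⟨j, hj⟩ := ha
    by_cases hb : ∀ i, X.b1 i = 0
    · by_cases hb' : ∀ i, X'.b1 i = 0
      · exact caseD h hb hb' hj
      · push Not at hb'
        obtain ⟨i, hi⟩ := hb'
        by_cases ha' : ∀ i, X'.a0 i = 0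
        · exact caseB h ha' hb hi
        · push Not at ha'
          obtain ⟨j', hj'⟩ := ha'
          exact (caseA h.swap hi hj').swap
    · push Not at hb
      obtain ⟨i, hi⟩ := hb
      exact caseA h hi hj

end

end L2Cnt

end Pool.Agent.Lib.D13
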