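import Pool.Agent.Lib.D13.L2PurZ
import Pool.Agent.Lib.D13.L2PurC

/-!
# MP_5dcbc3_ag: the parameters of maximal bad triples of type (l, 2^u, 1^p), l >= 4
-/

set_option linter.unusedSectionVars false

namespace Pool.Agent.Lib.D13

open Matrix Pool.Agent.Lib.Q5dc Pool.Agent.Lib.D7

namespace L2

section Shape

variable {k : Type*} [Field k] {ι : Type*} [Fintype ι] [DecidableEq ι]
variable {ρ : ℕ → ℕ} {m : ℕ} {x : Matrix ι ι k}

/-- the shape of a maximal bad triple, with the polynomial parts -/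
theorem shapeP [CharZero k] {T : Fin 3 → Matrix (Fin (m + 4) ⊕ ι) (Fin (m + 4) ⊕ ι) k}
    (hT : MaxR ρ T) (hρ : ∀ i, ρ i = (T 0 ^ i).rank) (h0 : T 0 = LA m x) (hx : x * x = 0) :
    ∃ (f f' : Fin (m + 3) → k) (G G' : Matrix ι ι k) (a b a' b' : ι → k),
      T 1 = LX m x G a b + ∑ j, f j • LA m x ^ ((j : ℕ) + 1) ∧
      T 2 = LX m x G' a' b' + ∑ j, f' j • LA m x ^ ((j : ℕ) + 1) ∧
      MaxR ρ ![LA m x, LX m x G a b, LX m x G' a' b'] ∧ x * G = 0 ∧ G * x = 0 ∧ x * G' = 0 ∧
      G' * x = 0 ∧ G * G = 0 ∧ G * G' = 0 ∧ G' * G = 0 ∧ G' * G' = 0 ∧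
      (∀ r, x *ᵥ r = 0 → ∃ r', G *ᵥ r = x *ᵥ r') ∧
      (∀ r, x *ᵥ r = 0 → ∃ r', G' *ᵥ r = x *ᵥ r') := by
  have hc1 : LA m x * T 1 = T 1 * LA m x := by rw [← h0]; exact hT.cn.1 0 1
  have hc2 : LA m x * T 2 = T 2 * LA m x := by rw [← h0]; exact hT.cn.1 0 2
  obtain ⟨f, G, a, b, hB, hG⟩ := decomp m hx hc1 (hT.cn.2 1)
  obtain ⟨f', G', a', b', hC, hG'⟩ := decomp m hx hc2 (hT.cn.2 2)
  have hA : LA m x ∈ adj T := by rw [← h0]; exact mem_adj T 0
  have hsum : ∀ {S : Fin 3 → Matrix (Fin (m + 4) ⊕ ι) (Fin (m + 4) ⊕ ι) k} (g : Fin (m + 3) → k),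
      LA m x ∈ adj S → ∑ j, g j • LA m x ^ ((j : ℕ) + 1) ∈ adj S := by
    intro S g hS
    exact sum_mem fun j _ => SMulMemClass.smul_mem _ (pow_mem_adj hS _)
  have hX : LX m x G a b ∈ adj T := by
    have : LX m x G a b = T 1 - ∑ j, f j • LA m x ^ ((j : ℕ) + 1) := by rw [hB]; simp
    rw [this]
    exact sub_mem (mem_adj T 1) (hsum f hA)
  have hX' : LX m x G' a' b' ∈ adj T := by
    have : LX m x G' a' b' = T 2 - ∑ j, f' j • LA m x ^ ((j : ℕ) + 1) := by rw [hC]; simp
    rw [this]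
    exact sub_mem (mem_adj T 2) (hsum f' hA)
  have hM : MaxR ρ ![LA m x, LX m x G a b, LX m x G' a' b'] := by
    refine MaxR.change hT (hT.cn.of_adj fun i => ?_) fun i => ?_
    · fin_cases i
      exacts [hA, hX, hX']
    · have h1 := D8.mem0 (LA m x) (LX m x G a b) (LX m x G' a' b')
      fin_cases i
      · show T 0 ∈ _
        rw [h0]
        exact h1
      · show T 1 ∈ _
        rw [hB]
        exact add_mem (D8.mem1 _ _ _) (hsum f h1)
      · show T 2 ∈ _
        rw [hC]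
        exact add_mem (D8.mem2 _ _ _) (hsum f' h1)
  have hr : ∀ X ∈ adj T, ∀ s : k, ((LA m x + s • X) ^ 2).rank ≤ (LA m x ^ 2).rank := by
    intro X hX s
    have := hT.rank_le (add_mem hA (SMulMemClass.smul_mem s hX)) 2
    rwa [hρ 2, h0] at this
  have hr1 : ∀ X ∈ adj T, ∀ s : k, (LA m x + s • X).rank ≤ (LA m x).rank := by
    intro X hX s
    have := hT.rank_le (add_mem hA (SMulMemClass.smul_mem s hX)) 1
    rwa [hρ 1, h0, pow_one, pow_one] at this
  obtain ⟨h1, h2⟩ := two_step hx hG (hr _ hX)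
  obtain ⟨h3, h4⟩ := two_step hx hG' (hr _ hX')
  have hs : x * (G + G') = (G + G') * x := by rw [Matrix.mul_add, Matrix.add_mul, hG, hG']
  obtain ⟨-, h5⟩ := two_step (a := a + a') (b := b + b') hx hs (by
    have := hr _ (add_mem hX hX')
    rwa [LX_add] at this)
  have h6 := (rel (hT.cn.comm hX hX') hx).1
  have h7 : (2 : k) • (G * G') = 0 := by
    have : (G + G') * (G + G') = G * G + G' * G' + (G * G' + G' * G) := by noncomm_ring
    rw [this, h2, h4, ← h6] at h5
    rw [two_smul]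
    simpa using h5
  have h8 : G * G' = 0 := (smul_eq_zero.1 h7).resolve_left (by norm_num)
  have hker : ∀ {G : Matrix ι ι k} {a b : ι → k}, LX m x G a b ∈ adj T →
      ∀ r, x *ᵥ r = 0 → ∃ r', G *ᵥ r = x *ᵥ r' := by
    intro G a b hX r hxr
    obtain ⟨w, hw⟩ := lin_first (hr1 _ hX) (q := Sum.elim 0 r) (by
      rw [LA, fromBlocks_mulVec]
      have e1 : (Sum.elim (0 : Fin (m + 4) → k) r) ∘ Sum.inl = 0 := rfl
      have e2 : (Sum.elim (0 : Fin (m + 4) → k) r) ∘ Sum.inr = r := rfl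
      rw [e1, e2, hxr]
      ext i
      rcases i with i | i <;> simp)
    refine ⟨w ∘ Sum.inr, ?_⟩
    have h9 := congrArg (fun v => v ∘ Sum.inr) hw
    simp only [LX, LA, fromBlocks_mulVec] at h9
    ext i
    have h10 := congrFun h9 i
    simpa using h10
  exact ⟨f, f', G, G', a, b, a', b', hB, hC, hM, h1, by rw [← hG, h1], h3, by rw [← hG', h3], h2,
    h8, by rw [← h6, h8], h4, hker hX, hker hX'⟩

end Shape

section Count

variable {k K : Type*} [Field k] [Field K] [Algebra k K]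
variable {U P : Type*} [Fintype U] [DecidableEq U] [Fintype P] [DecidableEq P]

/-- the parameters -/
def toQ (G : Matrix (U ⊕ (U ⊕ P)) (U ⊕ (U ⊕ P)) K) (a b : U ⊕ (U ⊕ P) → K) : L2Cnt.Q U P K where
  a0 i := a (Sum.inl i)
  a1 i := a (Sum.inr (Sum.inl i))
  aP q := a (Sum.inr (Sum.inr q))
  b0 i := b (Sum.inl i)
  b1 i := b (Sum.inr (Sum.inl i))
  bP q := b (Sum.inr (Sum.inr q))
  ν i j := G (Sum.inr (Sum.inl i)) (Sum.inl j)
  η i q := G (Sum.inr (Sum.inl i)) (Sum.inr (Sum.inr q))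
  π q j := G (Sum.inr (Sum.inr q)) (Sum.inl j)

/-- the vanishing entries of `G` -/
structure Van (G : Matrix (U ⊕ (U ⊕ P)) (U ⊕ (U ⊕ P)) K) : Prop where
  row : ∀ i c, G (Sum.inl i) c = 0
  col : ∀ r j, G r (Sum.inr (Sum.inl j)) = 0
  θ : ∀ q q', G (Sum.inr (Sum.inr q)) (Sum.inr (Sum.inr q')) = 0

theorem Van.mk' {G : Matrix (U ⊕ (U ⊕ P)) (U ⊕ (U ⊕ P)) K} (h1 : xs K U P * G = 0)
    (h2 : G * xs K U P = 0) (h3 : ∀ r, xs K U P *ᵥ r = 0 → ∃ r', G *ᵥ r = xs K U P *ᵥ r') :
    Van G := by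
  refine ⟨fun i c => ?_, fun r j => ?_, fun q q' => ?_⟩
  · have h4 := congrFun (congrFun h1 (Sum.inr (Sum.inl i))) c
    rw [Matrix.mul_apply] at h4
    simpa [xs, Fintype.sum_sum_type, Matrix.one_apply] using h4
  · have h4 := congrFun (congrFun h2 r) (Sum.inl j)
    rw [Matrix.mul_apply] at h4
    simpa [xs, Fintype.sum_sum_type, Matrix.one_apply] using h4
  · obtain ⟨r', hr'⟩ := h3 (Pi.single (Sum.inr (Sum.inr q')) 1) (by
      rw [xs_mulVec]
      ext i
      rcases i with i | i | i <;> simp)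
    have h4 := congrFun hr' (Sum.inr (Sum.inr q))
    rw [xs_mulVec, mulVec_single_one] at h4
    simpa using h4

theorem rel_toQ {G G' : Matrix (U ⊕ (U ⊕ P)) (U ⊕ (U ⊕ P)) K} {a b a' b' : U ⊕ (U ⊕ P) → K}
    (hG : Van G) (hG' : Van G') (h2 : G *ᵥ a' = G' *ᵥ a) (h3 : b ᵥ* G' = b' ᵥ* G)
    (h4 : b ⬝ᵥ (xs K U P *ᵥ a') = b' ⬝ᵥ (xs K U P *ᵥ a)) (h5 : b ⬝ᵥ a' = b' ⬝ᵥ a)
    (z1 : G * G = 0) (z2 : G * G' = 0) (z3 : G' * G = 0) (z4 : G' * G' = 0) :
    L2Cnt.Rel (toQ G a b) (toQ G' a' b') := by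
  have zz : ∀ {M N : Matrix (U ⊕ (U ⊕ P)) (U ⊕ (U ⊕ P)) K} {a b a' b' : U ⊕ (U ⊕ P) → K},
      Van M → Van N → M * N = 0 → (toQ M a b).η * (toQ N a' b').π = 0 := by
    intro M N a b a' b' hM hN h
    ext i j
    have h6 := congrFun (congrFun h (Sum.inr (Sum.inl i))) (Sum.inl j)
    rw [Matrix.mul_apply] at h6 ⊢
    simpa [Fintype.sum_sum_type, hM.col, hN.row, toQ] using h6
  refine ⟨fun i => ?_, fun j => ?_, ?_, ?_, zz hG hG z1, zz hG hG' z2, zz hG' hG z3,
    zz hG' hG' z4⟩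
  · have h6 := congrFun h2 (Sum.inr (Sum.inl i))
    simp only [mulVec, dotProduct, Fintype.sum_sum_type, hG.col, hG'.col, zero_mul,
      Finset.sum_const_zero, zero_add] at h6
    exact h6
  · have h6 := congrFun h3 (Sum.inl j)
    simp only [vecMul, dotProduct, Fintype.sum_sum_type, hG.row, hG'.row, mul_zero,
      Finset.sum_const_zero, zero_add] at h6
    exact h6
  · rw [xs_mulVec, xs_mulVec] at h4
    simp only [dotProduct, Fintype.sum_sum_type, Sum.elim_inl, Sum.elim_inr, Pi.zero_apply,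
      mul_zero, Finset.sum_const_zero, zero_add, add_zero] at h4
    exact h4
  · simp only [dotProduct, Fintype.sum_sum_type] at h5
    rw [← add_assoc, ← add_assoc] at h5
    exact h5

/-- all entries in `E` -/
def Mem {n n' : Type*} (E : IntermediateField k K) (M : Matrix n n' K) : Prop := ∀ i j, M i j ∈ E

theorem Mem.mul {n n' n'' : Type*} [Fintype n'] {E : IntermediateField k K} {M : Matrix n n' K}
    {N : Matrix n' n'' K} (hM : Mem E M) (hN : Mem E N) : Mem E (M * N) := fun i j => by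
  rw [Matrix.mul_apply]
  exact sum_mem fun l _ => mul_mem (hM i l) (hN l j)

theorem Mem.add {n n' : Type*} {E : IntermediateField k K} {M N : Matrix n n' K} (hM : Mem E M)
    (hN : Mem E N) : Mem E (M + N) := fun i j => add_mem (hM i j) (hN i j)

theorem Mem.zero {n n' : Type*} {E : IntermediateField k K} : Mem E (0 : Matrix n n' K) :=
  fun _ _ => zero_mem _

theorem Mem.pow {n : Type*} [Fintype n] [DecidableEq n] {E : IntermediateField k K}
    {M : Matrix n n K} (hM : Mem E M) (i : ℕ) : Mem E (M ^ i) := by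
  induction i with
  | zero =>
    intro a b
    rw [pow_zero, Matrix.one_apply]
    split_ifs
    · exact one_mem _
    · exact zero_mem _
  | succ i ih =>
    rw [pow_succ]
    exact ih.mul hM

theorem Mem.smul {n n' : Type*} {E : IntermediateField k K} {M : Matrix n n' K} (hM : Mem E M)
    {c : K} (hc : c ∈ E) : Mem E (c • M) := fun i j => mul_mem hc (hM i j)

theorem Mem.sum {n n' κ : Type*} [Fintype κ] {E : IntermediateField k K} {M : κ → Matrix n n' K}
    (hM : ∀ l, Mem E (M l)) : Mem E (∑ l, M l) := fun i j => by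
  rw [Matrix.sum_apply]
  exact sum_mem fun l _ => hM l i j

theorem Mem.blocks {n n' o o' : Type*} {E : IntermediateField k K} {A : Matrix n o K}
    {B : Matrix n o' K} {C : Matrix n' o K} {D : Matrix n' o' K} (hA : Mem E A) (hB : Mem E B)
    (hC : Mem E C) (hD : Mem E D) : Mem E (fromBlocks A B C D) := fun i j => by
  rcases i with i | i <;> rcases j with j | j
  exacts [hA i j, hB i j, hC i j, hD i j]

theorem Mem.vmv {n n' : Type*} {E : IntermediateField k K} {v : n → K} {w : n' → K}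
    (hv : ∀ i, v i ∈ E) (hw : ∀ i, w i ∈ E) : Mem E (vecMulVec v w) := fun i j => by
  rw [vecMulVec_apply]
  exact mul_mem (hv i) (hw j)

theorem mem_ev (E : IntermediateField k K) (n i : ℕ) (j : Fin n) : ev K n i j ∈ E := by
  unfold ev
  split_ifs
  · exact one_mem _
  · exact zero_mem _

theorem mem_xs (E : IntermediateField k K) : Mem E (xs K U P) := fun r c => by
  rcases r with r | r | r <;> rcases c with c | c | c <;> simp only [xs, fromBlocks_apply₁₁,
    fromBlocks_apply₁₂, fromBlocks_apply₂₁, fromBlocks_apply₂₂, Matrix.zero_apply,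
    fromRows_apply_inl, fromRows_apply_inr, Matrix.one_apply]
  all_goals try exact zero_mem _
  split_ifs
  · exact one_mem _
  · exact zero_mem _

theorem mem_LA (E : IntermediateField k K) (m : ℕ) : Mem E (LA m (xs K U P)) := by
  refine Mem.blocks (fun i j => ?_) Mem.zero Mem.zero (mem_xs E)
  rw [ShF, Matrix.of_apply]
  split_ifs
  · exact one_mem _
  · exact zero_mem _

theorem mem_LX {E : IntermediateField k K} (m : ℕ) {G : Matrix (U ⊕ (U ⊕ P)) (U ⊕ (U ⊕ P)) K}
    {a b : U ⊕ (U ⊕ P) → K} (hG : Van G) (h : L2Cnt.In E (toQ G a b)) :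
    Mem E (LX m (xs K U P) G a b) := by
  have ha : ∀ r, a r ∈ E := fun r => by
    rcases r with r | r | r
    exacts [h.a0 r, h.a1 r, h.aP r]
  have hb : ∀ r, b r ∈ E := fun r => by
    rcases r with r | r | r
    exacts [h.b0 r, h.b1 r, h.bP r]
  refine Mem.blocks Mem.zero (Mem.add (Mem.vmv (mem_ev E _ _) fun r => ?_)
    (Mem.vmv (mem_ev E _ _) hb)) (Mem.add (Mem.vmv ha (mem_ev E _ _))
    (Mem.vmv (fun r => ?_) (mem_ev E _ _))) fun r c => ?_
  · rw [vecMul_xs]
    rcases r with r | r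
    · exact hb _
    · exact zero_mem _
  · rw [xs_mulVec]
    rcases r with r | r | r
    · exact zero_mem _
    · exact ha _
    · exact zero_mem _
  · rcases r with r | r | r
    · rw [hG.row]
      exact zero_mem _
    · rcases c with c | c | c
      · exact h.ν r c
      · rw [hG.col]
        exact zero_mem _
      · exact h.η r c
    · rcases c with c | c | c
      · exact h.π r c
      · rw [hG.col]
        exact zero_mem _
      · rw [hG.θ]
        exact zero_mem _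

/-- the count for maximal bad triples over an extension field -/
theorem count_maxR [CharZero K] {m : ℕ} {ρ : ℕ → ℕ}
    {T : Fin 3 → Matrix (Fin (m + 4) ⊕ (U ⊕ (U ⊕ P))) (Fin (m + 4) ⊕ (U ⊕ (U ⊕ P))) K}
    (hT : MaxR ρ T) (hρ : ∀ i, ρ i = (T 0 ^ i).rank) (h0 : T 0 = LA m (xs K U P))
    (hu : 0 < Fintype.card U) :
    ∃ c : ℕ, rk k (Set.range (co T)) ≤ (c : ℕ) ∧
      c + 1 ≤ 2 * (m + 3) + (6 * Fintype.card U + 3 * Fintype.card P +
        2 * (Fintype.card U * Fintype.card U) + 2 * (Fintype.card U * Fintype.card P) +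
        Fintype.card P * Fintype.card P) := by
  obtain ⟨f, f', G, G', a, b, a', b', hB, hC, hM, x1, x2, x3, x4, z1, z2, z3, z4, k1, k2⟩ :=
    shapeP hT hρ h0 xs_sq
  have hG := Van.mk' x1 x2 k1
  have hG' := Van.mk' x3 x4 k2
  obtain ⟨-, h2, h3, h4, h5⟩ := rel (hM.cn.1 1 2) xs_sq
  obtain ⟨S, i1, i2, c, hc, hc'⟩ := L2Cnt.count (k := k) (rel_toQ hG hG' h2 h3 h4 h5 z1 z2 z3 z4) hu
  let g : Fin (m + 3) ⊕ Fin (m + 3) → K := Sum.elim f f'
  refine ⟨c + (2 * (m + 3)), ?_, by omega⟩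
  have h6 : Set.range (co T) ⊆
      (IntermediateField.adjoin k (S ∪ Set.range g) : IntermediateField k K) := by
    set E : IntermediateField k K := IntermediateField.adjoin k (S ∪ Set.range g) with hE
    have hle : IntermediateField.adjoin k S ≤ E :=
      IntermediateField.adjoin.mono k _ _ Set.subset_union_left
    have hg : ∀ z, g z ∈ E := fun z => IntermediateField.subset_adjoin k _ (Or.inr ⟨z, rfl⟩)
    have j1 : L2Cnt.In E (toQ G a b) := ⟨fun i => hle (i1.a0 i), fun i => hle (i1.a1 i),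
      fun i => hle (i1.aP i), fun i => hle (i1.b0 i), fun i => hle (i1.b1 i),
      fun i => hle (i1.bP i), fun i j => hle (i1.ν i j), fun i j => hle (i1.η i j),
      fun i j => hle (i1.π i j)⟩
    have j2 : L2Cnt.In E (toQ G' a' b') := ⟨fun i => hle (i2.a0 i), fun i => hle (i2.a1 i),
      fun i => hle (i2.aP i), fun i => hle (i2.b0 i), fun i => hle (i2.b1 i),
      fun i => hle (i2.bP i), fun i j => hle (i2.ν i j), fun i j => hle (i2.η i j),
      fun i j => hle (i2.π i j)⟩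
    rintro _ ⟨⟨i, r, s⟩, rfl⟩
    show T i r s ∈ E
    fin_cases i
    · show T 0 r s ∈ E
      rw [h0]
      exact mem_LA E m r s
    · show T 1 r s ∈ E
      rw [hB]
      exact (mem_LX m hG j1).add (Mem.sum fun j =>
        ((mem_LA E m).pow _).smul (hg (Sum.inl j))) r s
    · show T 2 r s ∈ E
      rw [hC]
      exact (mem_LX m hG' j2).add (Mem.sum fun j =>
        ((mem_LA E m).pow _).smul (hg (Sum.inr j))) r s
  refine (L2Cnt.rk_le_of_adjoin h6).trans ((L2Cnt.rk_union_le _ _).trans ?_)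
  rw [Nat.cast_add]
  refine add_le_add hc ((L2Cnt.rk_range_le g).trans ?_)
  rw [Fintype.card_sum, Fintype.card_fin]
  exact_mod_cast (by omega)

end Count

end L2

end Pool.Agent.Lib.D13
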