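import Pool.Agent.Lib.D13.L2PurS
import Pool.Agent.Lib.D13.L2PurM
import Pool.Agent.Lib.D13.PurUse
import Pool.Agent.Lib.D13.GenTr

/-!
# MP_5dcbc3_ag: there are no maximal bad triples of type (l, 2^u, 1^p), l >= 5
-/

namespace Pool.Agent.Lib.D13

open Matrix Pool.Agent.Lib.Q5dc Pool.Agent.Lib.D7

universe u

namespace L2

variable {k : Type u} [Field k] [IsAlgClosed k] [CharZero k] {U P : Type} [Fintype U]
  [DecidableEq U] [Fintype P] [DecidableEq P]

/-- no maximal bad triple of this type is a limit of the triples `(A, p(A), q(A))` -/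
theorem not_pcl {m : ℕ} {ρ : ℕ → ℕ} (hu : 0 < Fintype.card U)
    (hall : HALL k (Fintype.card (Fin (m + 4) ⊕ (U ⊕ (U ⊕ P)))))
    {T : Fin 3 → Matrix (Fin (m + 4) ⊕ (U ⊕ (U ⊕ P))) (Fin (m + 4) ⊕ (U ⊕ (U ⊕ P))) k}
    (hT : MaxR ρ T) (hρ : ∀ i, ρ i = (T 0 ^ i).rank) (h0 : T 0 = LA m (xs k U P)) : ¬ PCl T := by
  intro hP
  obtain ⟨K, _, _, _, T', hcn, hT0, hsp, -, hrk⟩ := purity_pointJ hT (fun i => (hρ i).symm)
    (MaxR.isIndec hall hT) hP (by rw [Fintype.card_sum, Fintype.card_fin]; omega) 1 (by simp)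
  have hK : CharZero K := charZero_of_injective_algebraMap (algebraMap k K).injective
  have hM : MaxR ρ T' := MaxR.transfer hT (fun F hF => hsp F hF) hcn
  have h1 : T' 0 = LA m (xs K U P) := by
    rw [hT0, h0]
    ext r c
    rcases r with r | r | r | r <;> rcases c with c | c | c | c <;>
      simp [LA, ShF, xs, Matrix.one_apply, apply_ite (algebraMap k K)]
  have h2 : ∀ i, ρ i = (T' 0 ^ i).rank := by
    intro i
    have h3 : T' 0 ^ i = (algebraMap k K).mapMatrix (T 0 ^ i) := by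
      rw [hT0, map_pow]
      rfl
    refine le_antisymm ?_ (hM.rank_le (mem_adj T' 0) i)
    obtain ⟨r, hr, hr'⟩ := GenAux.exists_rank (T 0 ^ i) (RingHom.id k)
    have h4 := hr' (algebraMap k K) (by simpa using hr)
    rw [h3, hρ i]
    simpa using h4
  obtain ⟨c, hc, hc'⟩ := count_maxR (k := k) hM h2 h1 hu
  have h4 := hrk.trans hc
  have h5 := le_finrank (U := U) (P := P) m (Pur.cen (T 0)) (fun M hM' => by
    rw [← h0] at hM'
    exact hM')
  have h6 : Module.finrank k (Pur.cen (T 0)) + Fintype.card (Fin (m + 4) ⊕ (U ⊕ (U ⊕ P))) - 2 ≤ c :=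
    by exact_mod_cast h4
  simp only [Fintype.card_sum, Fintype.card_fin] at h6
  omega

/-- there are no maximal bad triples of type (l, 2^u, 1^p), l >= 5 -/
theorem no_row {m : ℕ} {ρ : ℕ → ℕ} (hm : 1 ≤ m) (hu : 0 < Fintype.card U)
    (hall : HALL k (Fintype.card (Fin (m + 4) ⊕ (U ⊕ (U ⊕ P)))))
    {T : Fin 3 → Matrix (Fin (m + 4) ⊕ (U ⊕ (U ⊕ P))) (Fin (m + 4) ⊕ (U ⊕ (U ⊕ P))) k}
    (hT : MaxR ρ T) (hρ : ∀ i, ρ i = (T 0 ^ i).rank) (h0 : T 0 = LA m (xs k U P)) : False := by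
  obtain ⟨G, G', a, b, a', b', hM, x1, x2, x3, x4, -⟩ := shape hT hρ h0 xs_sq
  refine not_pcl hu hall hM (fun i => ?_) rfl (pcl hm hall xs_sq x1 x2 x3 x4 hM.cn)
  rw [hρ i, h0]
  rfl

end L2

end Pool.Agent.Lib.D13
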