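import Pool.Agent.Lib.D13.L2PurF
import Pool.Agent.Lib.D13.Frame
import Pool.Agent.Lib.D13.Cons

/-!
# MP_5dcbc3_ag: the types (l, 2^u, 1^p), l >= 5, u >= 1, are excluded if all smaller sizes are known
-/

namespace Pool.Agent.Lib.D13

open Matrix Pool.Agent.Lib.Q5dc Pool.Agent.Lib.D7

universe v

variable {k : Type v} [Field k]

namespace L2

/-- the list `(2^u, 1^p)` -/
def L21 (u p : ℕ) : List ℕ := List.replicate u 2 ++ List.replicate p 1

theorem L21_length (u p : ℕ) : (L21 u p).length = u + p := by simp [L21]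

theorem L21_sum (u p : ℕ) : (L21 u p).sum = 2 * u + p := by simp [L21, mul_comm]

theorem L21_get2 {u p i : ℕ} (hi : i < u) (h : i < (L21 u p).length) :
    (L21 u p).get ⟨i, h⟩ = 2 := by
  simp [L21, hi]

theorem L21_get1 {u p i : ℕ} (h : u + i < (L21 u p).length) : (L21 u p).get ⟨u + i, h⟩ = 1 := by
  simp [L21]

/-- the box of a basis vector -/
def tau (u p : ℕ) : Fin u ⊕ (Fin u ⊕ Fin p) → IxL (L21 u p)
  | .inl i => ⟨⟨i, by rw [L21_length]; omega⟩, ⟨0, by rw [L21_get2 i.2]; omega⟩⟩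
  | .inr (.inl i) => ⟨⟨i, by rw [L21_length]; omega⟩, ⟨1, by rw [L21_get2 i.2]; omega⟩⟩
  | .inr (.inr i) => ⟨⟨u + i, by rw [L21_length]; omega⟩, ⟨0, by rw [L21_get1]; omega⟩⟩

theorem tau_inj (u p : ℕ) : Function.Injective (tau u p) := by
  intro x y h
  have h1 := congrArg (fun x : IxL (L21 u p) => (x.1 : ℕ)) h
  have h2 := congrArg (fun x : IxL (L21 u p) => (x.2 : ℕ)) h
  rcases x with i | i | i <;> rcases y with j | j | j <;>
    simp only [tau] at h1 h2 <;>
    first
      | (exfalso; omega)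
      | (have h3 : i = j := Fin.ext (by omega)
         rw [h3])

theorem xs_apply (u p : ℕ) (x y : Fin u ⊕ (Fin u ⊕ Fin p)) :
    xs k (Fin u) (Fin p) x y =
      if (tau u p x).1 = (tau u p y).1 ∧ ((tau u p x).2 : ℕ) = (tau u p y).2 + 1
        then 1 else 0 := by
  rcases x with i | i | i <;> rcases y with j | j | j <;>
    simp only [xs, tau, fromBlocks_apply₁₁, fromBlocks_apply₁₂, fromBlocks_apply₂₁,
      fromBlocks_apply₂₂, fromRows_apply_inl, fromRows_apply_inr, Matrix.zero_apply,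
      Matrix.one_apply, Fin.ext_iff] <;>
    first
      | rfl
      | (rw [if_neg]; rintro ⟨-, h⟩; omega)
      | (rw [if_neg]; rintro ⟨h, -⟩; omega)
      | (by_cases h : (i : ℕ) = (j : ℕ)
         · rw [if_pos h, if_pos ⟨by omega, trivial⟩]
         · rw [if_neg h, if_neg]
           rintro ⟨h', -⟩
           omega)

/-- transfer to the index type of the theorems about these types -/
theorem bridge [Infinite k] {m u p : ℕ} (hb : Bad k ((m + 4) :: L21 u p)) :
    BadM (LA m (xs k (Fin u) (Fin p))) := by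
  have hcard : Fintype.card (Fin u ⊕ (Fin u ⊕ Fin p)) = Fintype.card (IxL (L21 u p)) := by
    rw [card_IxL, L21_sum]
    simp only [Fintype.card_sum, Fintype.card_fin]
    omega
  have hbij : Function.Bijective (tau u p) :=
    (Fintype.bijective_iff_injective_and_card _).2 ⟨tau_inj u p, hcard⟩
  refine BadM.map hb.cons (Equiv.sumCongr (Equiv.refl _) (Equiv.ofBijective _ hbij).symm) _ ?_
  rintro (i | i) (j | j)
  · rfl
  · rfl
  · rfl
  · obtain ⟨i, rfl⟩ := (Equiv.ofBijective _ hbij).surjective i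
    obtain ⟨j, rfl⟩ := (Equiv.ofBijective _ hbij).surjective j
    simp only [Equiv.sumCongr_apply, Sum.map_inr, Equiv.symm_apply_apply]
    show xs k (Fin u) (Fin p) i j =
      JU k (L21 u p) (Equiv.ofBijective _ hbij i) (Equiv.ofBijective _ hbij j)
    rw [xs_apply]
    rfl

/-- the types `(l, 2^u, 1^p)`, `l >= 5`, `u >= 1`, are not bad if all commuting nilpotent triples
of smaller sizes are limits of curvilinear ones -/
theorem not_bad_row [IsAlgClosed k] [CharZero k] {l u p : ℕ} (hl : 5 ≤ l) (hu : 0 < u)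
    (hall : HALL k (l + 2 * u + p)) : ¬ Bad k (l :: L21 u p) := by
  have : Infinite k := IsAlgClosed.instInfinite
  intro hb
  obtain ⟨m, rfl⟩ : ∃ m, l = m + 4 := ⟨l - 4, by omega⟩
  obtain ⟨ρ, T, hT, hρ, h0⟩ := bridge hb
  have hcard : Fintype.card (Fin (m + 4) ⊕ (Fin u ⊕ (Fin u ⊕ Fin p))) = m + 4 + 2 * u + p := by
    simp only [Fintype.card_sum, Fintype.card_fin]
    omega
  exact no_row (by omega) (by rw [Fintype.card_fin]; exact hu) (by rw [hcard]; exact hall) hT
    (fun i => by rw [hρ i, h0]) h0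

end L2

theorem not_bad_522 [IsAlgClosed k] [CharZero k] (hall : HALL k 9) : ¬ Bad k [5, 2, 2] :=
  L2.not_bad_row (l := 5) (u := 2) (p := 0) (by omega) (by omega) hall

theorem not_bad_622 [IsAlgClosed k] [CharZero k] (hall : HALL k 10) : ¬ Bad k [6, 2, 2] :=
  L2.not_bad_row (l := 6) (u := 2) (p := 0) (by omega) (by omega) hall

theorem not_bad_5221 [IsAlgClosed k] [CharZero k] (hall : HALL k 10) : ¬ Bad k [5, 2, 2, 1] :=
  L2.not_bad_row (l := 5) (u := 2) (p := 1) (by omega) (by omega) hall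

theorem not_bad_722 [IsAlgClosed k] [CharZero k] (hall : HALL k 11) : ¬ Bad k [7, 2, 2] :=
  L2.not_bad_row (l := 7) (u := 2) (p := 0) (by omega) (by omega) hall

theorem not_bad_6221 [IsAlgClosed k] [CharZero k] (hall : HALL k 11) : ¬ Bad k [6, 2, 2, 1] :=
  L2.not_bad_row (l := 6) (u := 2) (p := 1) (by omega) (by omega) hall

theorem not_bad_5222 [IsAlgClosed k] [CharZero k] (hall : HALL k 11) : ¬ Bad k [5, 2, 2, 2] :=
  L2.not_bad_row (l := 5) (u := 3) (p := 0) (by omega) (by omega) hall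

theorem not_bad_52211 [IsAlgClosed k] [CharZero k] (hall : HALL k 11) :
    ¬ Bad k [5, 2, 2, 1, 1] :=
  L2.not_bad_row (l := 5) (u := 2) (p := 2) (by omega) (by omega) hall

theorem not_bad_822 [IsAlgClosed k] [CharZero k] (hall : HALL k 12) : ¬ Bad k [8, 2, 2] :=
  L2.not_bad_row (l := 8) (u := 2) (p := 0) (by omega) (by omega) hall

theorem not_bad_7221 [IsAlgClosed k] [CharZero k] (hall : HALL k 12) : ¬ Bad k [7, 2, 2, 1] :=
  L2.not_bad_row (l := 7) (u := 2) (p := 1) (by omega) (by omega) hall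

theorem not_bad_6222 [IsAlgClosed k] [CharZero k] (hall : HALL k 12) : ¬ Bad k [6, 2, 2, 2] :=
  L2.not_bad_row (l := 6) (u := 3) (p := 0) (by omega) (by omega) hall

theorem not_bad_62211 [IsAlgClosed k] [CharZero k] (hall : HALL k 12) :
    ¬ Bad k [6, 2, 2, 1, 1] :=
  L2.not_bad_row (l := 6) (u := 2) (p := 2) (by omega) (by omega) hall

theorem not_bad_52221 [IsAlgClosed k] [CharZero k] (hall : HALL k 12) :
    ¬ Bad k [5, 2, 2, 2, 1] :=
  L2.not_bad_row (l := 5) (u := 3) (p := 1) (by omega) (by omega) hall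

theorem not_bad_522111 [IsAlgClosed k] [CharZero k] (hall : HALL k 12) :
    ¬ Bad k [5, 2, 2, 1, 1, 1] :=
  L2.not_bad_row (l := 5) (u := 2) (p := 3) (by omega) (by omega) hall

end Pool.Agent.Lib.D13
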