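import Pool.Agent.Lib.D13.L2Defs
import Pool.Agent.Lib.D13.RangeLim

/-!
# MP_5dcbc3_ag: the shape of maximal bad triples of type (l, 2^u, 1^p), l >= 4
-/

namespace Pool.Agent.Lib.D13

open Matrix Pool.Agent.Lib.Q5dc Pool.Agent.Lib.D7

variable {k : Type*} [Field k] {ι : Type*} [Fintype ι] [DecidableEq ι]

namespace L2

theorem ev_eq_single {n : ℕ} (i : Fin n) : ev k n i = Pi.single i 1 := by
  ext j
  by_cases h : j = i
  · subst h
    simp [ev]
  · have : ¬ (j : ℕ) = i := fun e => h (Fin.ext e)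
    simp [ev, this, h]

theorem ev_vecMul {n : ℕ} {κ : Type*} [Fintype κ] (i : Fin n) (M : Matrix (Fin n) κ k) :
    ev k n i ᵥ* M = M i := by
  rw [ev_eq_single, single_one_vecMul]
  rfl

theorem mulVec_ev {n : ℕ} {κ : Type*} [Fintype κ] (i : Fin n) (M : Matrix κ (Fin n) k) (r : κ) :
    (M *ᵥ ev k n i) r = M r i := by
  rw [ev_eq_single, mulVec_single_one]
  rfl

theorem mat_zero {M : Matrix ι ι k} (h : ∀ r, M *ᵥ r = 0) : M = 0 := by
  ext i j
  have := congrFun (h (Pi.single j 1)) i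
  rwa [mulVec_single_one] at this

theorem Lb_of_comm (m : ℕ) {x : Matrix ι ι k} (hx : x * x = 0) (M : Matrix (Fin (m + 4)) ι k)
    (h : ShF k (m + 4) * M = M * x) : M = Lb m x (ev k (m + 4) (m + 3) ᵥ* M) := by
  have h1 : ∀ i, i + 1 < m + 4 → ev k (m + 4) i ᵥ* M = (ev k (m + 4) (i + 1) ᵥ* M) ᵥ* x := by
    intro i hi
    rw [vecMul_vecMul, ← h, ← vecMul_vecMul, ev_ShF _ _ hi]
  have h2 : ∀ i, i + 2 < m + 4 → ev k (m + 4) i ᵥ* M = 0 := by
    intro i hi
    rw [h1 i (by omega), h1 (i + 1) (by omega), vecMul_vecMul, hx, vecMul_zero]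
  ext i r
  have h3 : M i r = (ev k (m + 4) i ᵥ* M) r := by rw [ev_vecMul]
  rw [h3, Lb, Matrix.add_apply, vecMulVec_apply, vecMulVec_apply]
  have hi := i.2
  rcases Nat.lt_trichotomy (i : ℕ) (m + 2) with h4 | h4 | h4
  · have e1 : ¬ (i : ℕ) = m + 2 := by omega
    have e2 : ¬ (i : ℕ) = m + 3 := by omega
    rw [h2 i (by omega)]
    simp [ev, e1, e2]
  · have e2 : ¬ (i : ℕ) = m + 3 := by omega
    rw [h4, h1 (m + 2) (by omega)]
    simp [ev, h4]
  · have e1 : (i : ℕ) = m + 3 := by omega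
    rw [e1]
    simp [ev, e1]

theorem Lc_of_comm (m : ℕ) {x : Matrix ι ι k} (hx : x * x = 0) (M : Matrix ι (Fin (m + 4)) k)
    (h : x * M = M * ShF k (m + 4)) : M = Lc m x (M *ᵥ ev k (m + 4) 0) := by
  have h1 : ∀ i, i < m + 4 → M *ᵥ ev k (m + 4) (i + 1) = x *ᵥ (M *ᵥ ev k (m + 4) i) := by
    intro i hi
    rw [mulVec_mulVec, h, ← mulVec_mulVec, ShF_ev _ _ hi]
  have h2 : ∀ i, i + 1 < m + 4 → M *ᵥ ev k (m + 4) (i + 2) = 0 := by
    intro i hi
    rw [h1 (i + 1) (by omega), h1 i (by omega), mulVec_mulVec, hx, zero_mulVec]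
  ext r i
  have h3 : M r i = (M *ᵥ ev k (m + 4) i) r := by rw [mulVec_ev]
  rw [h3, Lc, Matrix.add_apply, vecMulVec_apply, vecMulVec_apply]
  have hi := i.2
  rcases Nat.lt_trichotomy (i : ℕ) 1 with h4 | h4 | h4
  · have e1 : (i : ℕ) = 0 := by omega
    rw [e1]
    simp [ev, e1]
  · rw [h4, h1 0 (by omega)]
    simp [ev, h4]
  · obtain ⟨j, hj⟩ : ∃ j, (i : ℕ) = j + 2 := ⟨(i : ℕ) - 2, by omega⟩
    rw [hj, h2 j (by omega)]
    simp [ev, hj]

theorem ShF_pow_ev (n i j : ℕ) (h : i + j < n) :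
    (ShF k n ^ j) *ᵥ ev k n i = ev k n (i + j) := by
  induction j with
  | zero => simp
  | succ j ih =>
    rw [pow_succ', ← mulVec_mulVec, ih (by omega), ShF_ev _ _ (by omega)]
    rfl

theorem poly_of_comm (n : ℕ) (M : Matrix (Fin (n + 1)) (Fin (n + 1)) k)
    (h : ShF k (n + 1) * M = M * ShF k (n + 1)) :
    M = ∑ j : Fin (n + 1), (M *ᵥ ev k (n + 1) 0) j • ShF k (n + 1) ^ (j : ℕ) := by
  set P := ∑ j : Fin (n + 1), (M *ᵥ ev k (n + 1) 0) j • ShF k (n + 1) ^ (j : ℕ) with hP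
  have hPc : ShF k (n + 1) * P = P * ShF k (n + 1) := by
    rw [hP, Finset.mul_sum, Finset.sum_mul]
    refine Finset.sum_congr rfl fun j _ => ?_
    rw [mul_smul_comm, smul_mul_assoc, ← pow_succ, ← pow_succ']
  have h0 : P *ᵥ ev k (n + 1) 0 = M *ᵥ ev k (n + 1) 0 := by
    rw [hP, sum_mulVec]
    ext i
    rw [Finset.sum_apply, Finset.sum_eq_single i]
    · rw [smul_mulVec, ShF_pow_ev _ _ _ (by omega)]
      simp [ev]
    · intro j _ hj
      rw [smul_mulVec, ShF_pow_ev _ _ _ (by omega)]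
      have : ¬ (i : ℕ) = j := fun e => hj (Fin.ext e.symm)
      simp [ev, this]
    · simp
  have h1 : ∀ i, i < n + 1 → P *ᵥ ev k (n + 1) i = M *ᵥ ev k (n + 1) i := by
    intro i
    induction i with
    | zero => exact fun _ => h0
    | succ i ih =>
      intro hi
      rw [← ShF_ev (k := k) (n + 1) i (by omega), mulVec_mulVec, mulVec_mulVec, ← hPc, ← h,
        ← mulVec_mulVec, ← mulVec_mulVec, ih (by omega)]
  ext r i
  rw [← mulVec_ev i M r, ← mulVec_ev i P r, h1 i i.2]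

theorem pow_mem_adj {n : Type*} [Fintype n] [DecidableEq n] {T : Fin 3 → Matrix n n k}
    {M : Matrix n n k} (h : M ∈ adj T) (j : ℕ) : M ^ (j + 1) ∈ adj T := by
  induction j with
  | zero => simpa using h
  | succ j ih =>
    rw [pow_succ]
    exact mul_mem ih h

/-- the decomposition of a nilpotent matrix commuting with `LA m x` -/
theorem decomp (m : ℕ) {x : Matrix ι ι k} (hx : x * x = 0)
    {B : Matrix (Fin (m + 4) ⊕ ι) (Fin (m + 4) ⊕ ι) k} (hB : LA m x * B = B * LA m x)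
    (hn : IsNilpotent B) : ∃ (f : Fin (m + 3) → k) (G : Matrix ι ι k) (a b : ι → k),
      B = LX m x G a b + ∑ j, f j • LA m x ^ ((j : ℕ) + 1) ∧ x * G = G * x := by
  obtain ⟨B11, B12, B21, B22, rfl⟩ : ∃ B11 B12 B21 B22, B = fromBlocks B11 B12 B21 B22 :=
    ⟨_, _, _, _, (fromBlocks_toBlocks B).symm⟩
  rw [LA, fromBlocks_multiply, fromBlocks_multiply, fromBlocks_inj] at hB
  simp only [Matrix.zero_mul, Matrix.mul_zero, add_zero, zero_add] at hB
  obtain ⟨h11, h12, h21, h22⟩ := hB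
  have e12 := Lb_of_comm m hx B12 h12
  have e21 := Lc_of_comm m hx B21 h21
  have e11 := poly_of_comm (m + 3) B11 h11
  set p := B11 *ᵥ ev k (m + 3 + 1) 0 with hp
  -- the constant term
  have hp0 : p 0 = 0 := by
    have h1 : ∀ i : ℕ, (Sum.elim (ev k (m + 4) 0) (0 : ι → k)) ᵥ* (fromBlocks B11 B12 B21 B22 ^ i) =
        (p 0) ^ i • Sum.elim (ev k (m + 4) 0) (0 : ι → k) := by
      intro i
      induction i with
      | zero => simp
      | succ i ih =>
        rw [pow_succ, ← vecMul_vecMul, ih, smul_vecMul, vecMul_fromBlocks]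
        have h2 : ev k (m + 4) 0 ᵥ* B11 = p 0 • ev k (m + 4) 0 := by
          rw [e11, vecMul_sum, Finset.sum_eq_single 0]
          · rw [vecMul_smul]
            simp
          · intro j _ hj
            obtain ⟨l, hl⟩ : ∃ l, (j : ℕ) = l + 1 := by
              refine ⟨(j : ℕ) - 1, ?_⟩
              have : (j : ℕ) ≠ 0 := fun e => hj (Fin.ext (by simpa using e))
              omega
            rw [vecMul_smul, hl, pow_succ', ← vecMul_vecMul]
            rw [ev_ShF_zero]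
            simp
          · simp
        have h3 : ev k (m + 4) 0 ᵥ* B12 = 0 := by
          have h4 : ev k (m + 4) 0 ᵥ* B12 = B12 0 := by
            have := ev_vecMul (0 : Fin (m + 4)) B12
            simpa using this
          rw [h4, e12]
          ext r
          simp [Lb, vecMulVec_apply, ev]
        have h5 : (Sum.elim (ev k (m + 4) 0) (0 : ι → k)) ∘ Sum.inl = ev k (m + 4) 0 := rfl
        have h6 : (Sum.elim (ev k (m + 4) 0) (0 : ι → k)) ∘ Sum.inr = 0 := rfl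
        rw [h5, h6, h2, h3]
        ext j
        rcases j with j | j
        · simp [pow_succ, mul_assoc]
        · simp
    obtain ⟨N, hN⟩ := hn
    have h7 := h1 N
    rw [hN, vecMul_zero] at h7
    have h8 := congrFun h7 (Sum.inl 0)
    simp [ev] at h8
    by_contra hne
    exact pow_ne_zero N hne h8.symm
  refine ⟨fun j => p j.succ, B22 - ∑ j : Fin (m + 3), p j.succ • x ^ ((j : ℕ) + 1),
    B21 *ᵥ ev k (m + 4) 0, ev k (m + 4) (m + 3) ᵥ* B12, ?_, ?_⟩
  · have h9 : (∑ j : Fin (m + 3), p j.succ • LA m x ^ ((j : ℕ) + 1)) =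
        fromBlocks (∑ j : Fin (m + 3), p j.succ • ShF k (m + 4) ^ ((j : ℕ) + 1)) 0 0
          (∑ j : Fin (m + 3), p j.succ • x ^ ((j : ℕ) + 1)) := by
      ext i j
      rcases i with i | i <;> rcases j with j | j <;>
        simp [Matrix.sum_apply, LA_pow]
    rw [h9, LX, ← e12, ← e21, fromBlocks_add, fromBlocks_inj]
    refine ⟨?_, by simp, by simp, by simp⟩
    rw [zero_add]
    conv_lhs => rw [e11]
    rw [Fin.sum_univ_succ, hp0]
    simp
  · rw [Matrix.mul_sub, Matrix.sub_mul, h22, Finset.mul_sum, Finset.sum_mul]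
    congr 1
    refine Finset.sum_congr rfl fun j _ => ?_
    rw [mul_smul_comm, smul_mul_assoc, ← pow_succ, ← pow_succ']

variable {ρ : ℕ → ℕ} {m : ℕ} {x G G' : Matrix ι ι k} {a a' b b' : ι → k}

/-- the two consequences of `rank (A + s X) ^ 2 <= rank A ^ 2` -/
theorem two_step [CharZero k] (hx : x * x = 0) (hG : x * G = G * x)
    (hr : ∀ s : k, ((LA m x + s • LX m x G a b) ^ 2).rank ≤ (LA m x ^ 2).rank) :
    x * G = 0 ∧ G * G = 0 := by
  have hAA : LA m x * LA m x = fromBlocks (ShF k (m + 4) * ShF k (m + 4)) 0 0 0 := by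
    rw [LA, fromBlocks_multiply]
    simp [hx]
  have hAX : LA m x * LX m x G a b + LX m x G a b * LA m x =
      fromBlocks 0 ((2 : k) • (Lb m x b * x)) ((2 : k) • (x * Lc m x a))
        ((2 : k) • (x * G)) := by
    rw [LA_comm_LX hx hG, LA, LX, fromBlocks_multiply, fromBlocks_add]
    simp only [Matrix.zero_mul, Matrix.mul_zero, add_zero, zero_add, Lc_ShF hx, hG, two_smul]
  have hR : ∀ v : Fin (m + 4) ⊕ ι → k, ((LA m x * LA m x) *ᵥ v) ∘ Sum.inr = 0 := by
    intro v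
    rw [hAA, fromBlocks_mulVec]
    ext r
    simp
  have hq : ∀ r : ι → k, (LA m x * LA m x) *ᵥ (Sum.elim 0 r) = 0 := by
    intro r
    rw [hAA, fromBlocks_mulVec]
    ext i
    rcases i with i | i <;> simp
  have h1 : x * G = 0 := by
    have h2 : ∀ r, (x * G) *ᵥ r = 0 := by
      intro r
      obtain ⟨v, hv⟩ := sq_first hr (hq r)
      have h3 := congrArg (fun w => w ∘ Sum.inr) hv
      simp only [hR, hAX, fromBlocks_mulVec] at h3
      have h4 : (2 : k) • ((x * G) *ᵥ r) = 0 := by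
        rw [← h3]
        ext i
        simp [smul_mulVec]
      exact (smul_eq_zero.1 h4).resolve_left (by norm_num)
    exact mat_zero h2
  refine ⟨h1, ?_⟩
  have h2 : ∀ r, (G * G) *ᵥ r = 0 := by
    intro r
    have hLb : (Lb m x b * x) *ᵥ r = (b ⬝ᵥ (x *ᵥ r)) • ev k (m + 4) (m + 3) := by
      have e0 : (b ᵥ* x) ⬝ᵥ r = b ⬝ᵥ (x *ᵥ r) := (dotProduct_mulVec _ _ _).symm
      rw [Lb_mul, hx, add_mulVec, vecMulVec_mulVec, vecMulVec_mulVec, e0]
      ext i
      simp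
    obtain ⟨v, hv⟩ := sq_second hr (t := Sum.elim ((2 * (b ⬝ᵥ (x *ᵥ r))) • ev k (m + 4) (m + 1)) 0)
      (hq r) (by
        rw [hAX, hAA, fromBlocks_mulVec, fromBlocks_mulVec]
        have e1 : (Sum.elim (0 : Fin (m + 4) → k) r) ∘ Sum.inl = 0 := rfl
        have e2 : (Sum.elim (0 : Fin (m + 4) → k) r) ∘ Sum.inr = r := rfl
        have e3 : (Sum.elim ((2 * (b ⬝ᵥ (x *ᵥ r))) • ev k (m + 4) (m + 1)) (0 : ι → k)) ∘
          Sum.inl = (2 * (b ⬝ᵥ (x *ᵥ r))) • ev k (m + 4) (m + 1) := rfl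
        have e4 : (Sum.elim ((2 * (b ⬝ᵥ (x *ᵥ r))) • ev k (m + 4) (m + 1)) (0 : ι → k)) ∘
          Sum.inr = 0 := rfl
        rw [e1, e2, e3, e4, smul_mulVec, hLb, h1, ← mulVec_mulVec, mulVec_smul, mulVec_smul,
          ShF_ev _ _ (by omega), ShF_ev _ _ (by omega)]
        ext i
        rcases i with i | i <;> simp [mul_assoc])
    have h3 := congrArg (fun w => w ∘ Sum.inr) hv
    have e5 : ∀ u w : Fin (m + 4) ⊕ ι → k, (u - w) ∘ Sum.inr = u ∘ Sum.inr - w ∘ Sum.inr :=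
      fun _ _ => rfl
    simp only [hR, hAX, e5, LX_mul, fromBlocks_mulVec] at h3
    have h4 : (x * Lc m x a) *ᵥ ev k (m + 4) (m + 1) = 0 := by
      rw [mul_Lc, hx, add_mulVec, vecMulVec_mulVec, vecMulVec_mulVec,
        ev_dot _ _ _ (by omega), if_neg (by omega)]
      simp
    rw [← h3]
    ext i
    have h5 := congrFun h4 i
    simp [smul_mulVec, mulVec_smul, h5]
  exact mat_zero h2

theorem LX_add : LX m x G a b + LX m x G' a' b' = LX m x (G + G') (a + a') (b + b') := by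
  rw [LX, LX, LX, fromBlocks_add, Lb, Lb, Lb, Lc, Lc, Lc]
  congr 1
  · simp
  · rw [add_vecMul, vecMulVec_add, vecMulVec_add]
    abel
  · rw [mulVec_add, add_vecMulVec, add_vecMulVec]
    abel

/-- relations for commuting matrices -/
theorem rel (h : LX m x G a b * LX m x G' a' b' = LX m x G' a' b' * LX m x G a b)
    (hx : x * x = 0) :
    G * G' = G' * G ∧ G *ᵥ a' = G' *ᵥ a ∧ b ᵥ* G' = b' ᵥ* G ∧
      b ⬝ᵥ (x *ᵥ a') = b' ⬝ᵥ (x *ᵥ a) ∧ b ⬝ᵥ a' = b' ⬝ᵥ a := by
  rw [LX_mul, LX_mul, fromBlocks_inj, Lb_mul_Lc hx, Lb_mul_Lc hx, Lb_mul, Lb_mul, mul_Lc,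
    mul_Lc] at h
  obtain ⟨h11, h12, h21, h22⟩ := h
  refine ⟨h22, ?_, ?_, ?_, ?_⟩
  · ext r
    have := congrFun (congrFun h21 r) ⟨0, by omega⟩
    simpa [vecMulVec_apply, ev] using this
  · ext r
    have := congrFun (congrFun h12 ⟨m + 3, by omega⟩) r
    simpa [vecMulVec_apply, ev] using this
  · have := congrFun (congrFun h11 ⟨m + 2, by omega⟩) ⟨0, by omega⟩
    simpa [vecMulVec_apply, ev] using this
  · have := congrFun (congrFun h11 ⟨m + 3, by omega⟩) ⟨0, by omega⟩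
    simpa [vecMulVec_apply, ev] using this

/-- the shape of a maximal bad triple -/
theorem shape [CharZero k] {T : Fin 3 → Matrix (Fin (m + 4) ⊕ ι) (Fin (m + 4) ⊕ ι) k}
    (hT : MaxR ρ T) (hρ : ∀ i, ρ i = (T 0 ^ i).rank) (h0 : T 0 = LA m x) (hx : x * x = 0) :
    ∃ (G G' : Matrix ι ι k) (a b a' b' : ι → k),
      MaxR ρ ![LA m x, LX m x G a b, LX m x G' a' b'] ∧ x * G = 0 ∧ G * x = 0 ∧ x * G' = 0 ∧
      G' * x = 0 ∧ G * G = 0 ∧ G * G' = 0 ∧ G' * G = 0 ∧ G' * G' = 0 := by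
  have hc1 : LA m x * T 1 = T 1 * LA m x := by rw [← h0]; exact hT.cn.1 0 1
  have hc2 : LA m x * T 2 = T 2 * LA m x := by rw [← h0]; exact hT.cn.1 0 2
  obtain ⟨f, G, a, b, hB, hG⟩ := decomp m hx hc1 (hT.cn.2 1)
  obtain ⟨f', G', a', b', hC, hG'⟩ := decomp m hx hc2 (hT.cn.2 2)
  have hA : LA m x ∈ adj T := by rw [← h0]; exact mem_adj T 0
  have hsum : ∀ {S : Fin 3 → Matrix (Fin (m + 4) ⊕ ι) (Fin (m + 4) ⊕ ι) k} (g : Fin (m + 3) → k),
      LA m x ∈ adj S → ∑ j, g j • LA m x ^ ((j : ℕ) + 1) ∈ adj S := by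
    intro S g hS
    exact sum_mem fun j _ => SMulMemClass.smul_mem _ (pow_mem_adj hS _)
  have hX : LX m x G a b ∈ adj T := by
    have : LX m x G a b = T 1 - ∑ j, f j • LA m x ^ ((j : ℕ) + 1) := by rw [hB]; simp
    rw [this]
    exact sub_mem (mem_adj T 1) (hsum f hA)
  have hX' : LX m x G' a' b' ∈ adj T := by
    have : LX m x G' a' b' = T 2 - ∑ j, f' j • LA m x ^ ((j : ℕ) + 1) := by rw [hC]; simp
    rw [this]
    exact sub_mem (mem_adj T 2) (hsum f' hA)
  have hM : MaxR ρ ![LA m x, LX m x G a b, LX m x G' a' b'] := by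
    refine MaxR.change hT (hT.cn.of_adj fun i => ?_) fun i => ?_
    · fin_cases i
      exacts [hA, hX, hX']
    · have h1 := D8.mem0 (LA m x) (LX m x G a b) (LX m x G' a' b')
      fin_cases i
      · show T 0 ∈ _
        rw [h0]
        exact h1
      · show T 1 ∈ _
        rw [hB]
        exact add_mem (D8.mem1 _ _ _) (hsum f h1)
      · show T 2 ∈ _
        rw [hC]
        exact add_mem (D8.mem2 _ _ _) (hsum f' h1)
  have hr : ∀ X ∈ adj T, ∀ s : k, ((LA m x + s • X) ^ 2).rank ≤ (LA m x ^ 2).rank := by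
    intro X hX s
    have := hT.rank_le (add_mem hA (SMulMemClass.smul_mem s hX)) 2
    rwa [hρ 2, h0] at this
  obtain ⟨h1, h2⟩ := two_step hx hG (hr _ hX)
  obtain ⟨h3, h4⟩ := two_step hx hG' (hr _ hX')
  have hs : x * (G + G') = (G + G') * x := by rw [Matrix.mul_add, Matrix.add_mul, hG, hG']
  obtain ⟨-, h5⟩ := two_step (a := a + a') (b := b + b') hx hs (by
    have := hr _ (add_mem hX hX')
    rwa [LX_add] at this)
  have h6 := (rel (hT.cn.comm hX hX') hx).1
  have h7 : (2 : k) • (G * G') = 0 := by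
    have : (G + G') * (G + G') = G * G + G' * G' + (G * G' + G' * G) := by noncomm_ring
    rw [this, h2, h4, ← h6] at h5
    rw [two_smul]
    simpa using h5
  have h8 : G * G' = 0 := (smul_eq_zero.1 h7).resolve_left (by norm_num)
  exact ⟨G, G', a, b, a', b', hM, h1, by rw [← hG, h1], h3, by rw [← hG', h3], h2, h8,
    by rw [← h6, h8], h4⟩

end L2

end Pool.Agent.Lib.D13
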