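import Pool.Agent.Lib.D13.PCl
import Pool.Agent.Lib.D13.L2Shape

/-!
# MP_5dcbc3_ag: the triples of type (l, 2^u, 1^p), l >= 5, are limits of commuting triples with two
different joint eigenvalues
-/

set_option linter.unusedSectionVars false

namespace Pool.Agent.Lib.D13

open Matrix Pool.Agent.Lib.Q5dc Pool.Agent.Lib.D7

variable {k : Type*} [Field k] {ι : Type*} [Fintype ι] [DecidableEq ι]

namespace L2

variable {m : ℕ} {x G G' : Matrix ι ι k} {a a' b b' : ι → k}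

/-- `v_i -> v_(i+1)`, the last vector is an eigenvector with eigenvalue `s` -/
def ShS (k : Type*) [Field k] (m : ℕ) (s : k) : Matrix (Fin (m + 4)) (Fin (m + 4)) k :=
  ShF k (m + 4) + s • vecMulVec (ev k (m + 4) (m + 3)) (ev k (m + 4) (m + 3))

/-- the vector `u_2` -/
def us2 (k : Type*) [Field k] (m : ℕ) (s : k) : Fin (m + 4) → k :=
  ev k (m + 4) (m + 2) - s • ev k (m + 4) (m + 1)

/-- the vector `u_1` -/
def us1 (k : Type*) [Field k] (m : ℕ) (s : k) : Fin (m + 4) → k :=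
  ev k (m + 4) (m + 3) - s • ev k (m + 4) (m + 2)

/-- `R -> L` part -/
def LbS (m : ℕ) (x : Matrix ι ι k) (b : ι → k) (s : k) : Matrix (Fin (m + 4)) ι k :=
  vecMulVec (us2 k m s) (b ᵥ* x) + vecMulVec (us1 k m s) b

/-- the deformation of `LA` -/
def LAS (m : ℕ) (x : Matrix ι ι k) (s : k) : Matrix (Fin (m + 4) ⊕ ι) (Fin (m + 4) ⊕ ι) k :=
  fromBlocks (ShS k m s) 0 0 x

/-- the deformation of `LX` -/
def LXS (m : ℕ) (x G : Matrix ι ι k) (a b : ι → k) (s : k) :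
    Matrix (Fin (m + 4) ⊕ ι) (Fin (m + 4) ⊕ ι) k :=
  fromBlocks 0 (LbS m x b s) (Lc m x a) G

theorem ShS_us1 (s : k) : ShS k m s *ᵥ us1 k m s = 0 := by
  rw [ShS, us1, add_mulVec, mulVec_sub, mulVec_smul, ShF_ev _ _ (by omega), ShF_ev _ _ (by omega),
    ev_big _ (m + 3 + 1) (by omega), smul_mulVec, vecMulVec_mulVec, dotProduct_sub,
    dotProduct_smul, ev_dot _ _ _ (by omega), ev_dot _ _ _ (by omega), if_pos rfl,
    if_neg (by omega)]
  simp

theorem ShS_us2 (s : k) : ShS k m s *ᵥ us2 k m s = us1 k m s := by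
  rw [ShS, us1, us2, add_mulVec, mulVec_sub, mulVec_smul, ShF_ev _ _ (by omega),
    ShF_ev _ _ (by omega), smul_mulVec, vecMulVec_mulVec, dotProduct_sub,
    dotProduct_smul, ev_dot _ _ _ (by omega), ev_dot _ _ _ (by omega), if_neg (by omega),
    if_neg (by omega)]
  simp

theorem ev_ShS (s : k) {i : ℕ} (hi : i < m + 3) :
    ev k (m + 4) i ᵥ* ShS k m s = ev k (m + 4) i ᵥ* ShF k (m + 4) := by
  rw [ShS, vecMul_add, vecMul_smul, vecMul_vecMulVec, ev_dot _ _ _ (by omega),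
    if_neg (by omega)]
  simp

theorem ShS_LbS (hx : x * x = 0) (s : k) : ShS k m s * LbS m x b s = LbS m x b s * x := by
  rw [LbS, Matrix.mul_add, mul_vecMulVec, mul_vecMulVec, ShS_us1, ShS_us2, Matrix.add_mul,
    vecMulVec_mul, vecMulVec_mul, vecMul_vecMul, hx, vecMul_zero, vmv_zero, zero_vmv, add_zero,
    zero_add]

theorem Lc_ShS (hx : x * x = 0) (s : k) : Lc m x a * ShS k m s = x * Lc m x a := by
  rw [← Lc_ShF hx, Lc, Matrix.add_mul, Matrix.add_mul]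
  simp only [vecMulVec_mul]
  rw [ev_ShS s (by omega), ev_ShS s (by omega)]

theorem LAS_comm (hx : x * x = 0) (hG : x * G = G * x) (s : k) :
    LAS m x s * LXS m x G a b s = LXS m x G a b s * LAS m x s := by
  rw [LAS, LXS, fromBlocks_multiply, fromBlocks_multiply]
  simp [ShS_LbS hx, Lc_ShS hx, hG]

theorem ev_us1 (s : k) {i : ℕ} (hi : i < m + 2) : ev k (m + 4) i ⬝ᵥ us1 k m s = 0 := by
  rw [us1, dotProduct_sub, dotProduct_smul, ev_dot _ _ _ (by omega), ev_dot _ _ _ (by omega),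
    if_neg (by omega), if_neg (by omega)]
  simp

theorem ev_us2 (s : k) {i : ℕ} (hi : i < m + 1) : ev k (m + 4) i ⬝ᵥ us2 k m s = 0 := by
  rw [us2, dotProduct_sub, dotProduct_smul, ev_dot _ _ _ (by omega), ev_dot _ _ _ (by omega),
    if_neg (by omega), if_neg (by omega)]
  simp

theorem Lc_mul_LbS (hm : 1 ≤ m) (s : k) : Lc m x a * LbS m x b s = 0 := by
  rw [Lc, LbS, Matrix.add_mul, Matrix.mul_add, Matrix.mul_add]
  simp only [vecMulVec_mul_vecMulVec, ev_us1 s (show 0 < m + 2 by omega),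
    ev_us1 s (show 1 < m + 2 by omega), ev_us2 s (show 0 < m + 1 by omega),
    ev_us2 s (show 1 < m + 1 by omega)]
  simp

theorem LbS_mul_Lc (hx : x * x = 0) (s : k) : LbS m x b s * Lc m x a =
    vecMulVec (us2 k m s) ((b ⬝ᵥ (x *ᵥ a)) • ev k (m + 4) 0) +
    (vecMulVec (us1 k m s) ((b ⬝ᵥ a) • ev k (m + 4) 0) +
    vecMulVec (us1 k m s) ((b ⬝ᵥ (x *ᵥ a)) • ev k (m + 4) 1)) := by
  have h1 : (b ᵥ* x) ⬝ᵥ (x *ᵥ a) = 0 := by
    rw [← dotProduct_mulVec, mulVec_mulVec, hx]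
    simp
  have h2 : (b ᵥ* x) ⬝ᵥ a = b ⬝ᵥ (x *ᵥ a) := by rw [← dotProduct_mulVec]
  rw [LbS, Lc, Matrix.add_mul, Matrix.mul_add, Matrix.mul_add]
  simp only [vecMulVec_mul_vecMulVec, h1, h2]
  simp

theorem LbS_mul (hxG : x * G = 0) (s : k) : LbS m x b s * G = vecMulVec (us1 k m s) (b ᵥ* G) := by
  rw [LbS, Matrix.add_mul, vecMulVec_mul, vecMulVec_mul, vecMul_vecMul, hxG, vecMul_zero,
    vmv_zero, zero_add]

theorem mul_Lc' (hGx : G * x = 0) : G * Lc m x a = vecMulVec (G *ᵥ a) (ev k (m + 4) 0) := by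
  rw [mul_Lc, hGx, zero_mulVec, zero_vmv, add_zero]

theorem LXS_comm (hm : 1 ≤ m) (hx : x * x = 0) (hxG : x * G = 0) (hGx : G * x = 0)
    (hxG' : x * G' = 0) (hGx' : G' * x = 0) (h1 : G * G' = G' * G) (h2 : G *ᵥ a' = G' *ᵥ a)
    (h3 : b ᵥ* G' = b' ᵥ* G) (h4 : b ⬝ᵥ (x *ᵥ a') = b' ⬝ᵥ (x *ᵥ a)) (h5 : b ⬝ᵥ a' = b' ⬝ᵥ a)
    (s : k) : LXS m x G a b s * LXS m x G' a' b' s = LXS m x G' a' b' s * LXS m x G a b s := by
  rw [LXS, LXS, fromBlocks_multiply, fromBlocks_multiply]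
  simp only [Matrix.zero_mul, Matrix.mul_zero, zero_add, Lc_mul_LbS hm,
    LbS_mul_Lc hx, LbS_mul hxG, LbS_mul hxG', mul_Lc' hGx, mul_Lc' hGx', h1, h2, h3, h4, h5]

/-- the direction of the deformation -/
def dirA (k : Type*) [Field k] (ι : Type*) [Fintype ι] [DecidableEq ι] (m : ℕ) :
    Matrix (Fin (m + 4) ⊕ ι) (Fin (m + 4) ⊕ ι) k :=
  fromBlocks (vecMulVec (ev k (m + 4) (m + 3)) (ev k (m + 4) (m + 3))) 0 0 0

/-- the direction of the deformation -/
def dirX (m : ℕ) (x : Matrix ι ι k) (b : ι → k) :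
    Matrix (Fin (m + 4) ⊕ ι) (Fin (m + 4) ⊕ ι) k :=
  fromBlocks 0 (-(vecMulVec (ev k (m + 4) (m + 1)) (b ᵥ* x) +
    vecMulVec (ev k (m + 4) (m + 2)) b)) 0 0

theorem LAS_eq (s : k) : LAS m x s = LA m x + s • dirA k ι m := by
  rw [LAS, LA, dirA, fromBlocks_smul, fromBlocks_add, ShS]
  simp

theorem LXS_eq (s : k) : LXS m x G a b s = LX m x G a b + s • dirX m x b := by
  rw [LXS, LX, dirX, fromBlocks_smul, fromBlocks_add, LbS, Lb, us1, us2]
  congr 1
  · simp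
  · ext i j
    simp [vecMulVec_apply]
    ring
  · simp
  · simp

theorem split (s : k) (hs : s ≠ 0) (c : k) : ¬ IsNilpotent (LAS m x s - c • 1) := by
  rintro ⟨N, hN⟩
  have h1 : (LAS m x s - c • 1) *ᵥ (Sum.elim (ev k (m + 4) (m + 3)) 0) =
      (s - c) • (Sum.elim (ev k (m + 4) (m + 3)) (0 : ι → k)) := by
    have e1 : ShS k m s *ᵥ ev k (m + 4) (m + 3) = s • ev k (m + 4) (m + 3) := by
      rw [ShS, add_mulVec, ShF_ev _ _ (by omega), ev_big _ (m + 3 + 1) (by omega), smul_mulVec,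
        vecMulVec_mulVec, ev_dot _ _ _ (by omega), if_pos rfl]
      simp
    rw [sub_mulVec, smul_mulVec, one_mulVec, LAS, fromBlocks_mulVec, sub_smul]
    congr 1
    have e2 : (Sum.elim (ev k (m + 4) (m + 3)) (0 : ι → k)) ∘ Sum.inl = ev k (m + 4) (m + 3) := rfl
    have e3 : (Sum.elim (ev k (m + 4) (m + 3)) (0 : ι → k)) ∘ Sum.inr = 0 := rfl
    rw [e2, e3, e1]
    ext j
    rcases j with j | j <;> simp
  have h2 : (LAS m x s - c • 1) *ᵥ (Sum.elim (us1 k m s) 0) =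
      (-c) • (Sum.elim (us1 k m s) (0 : ι → k)) := by
    rw [sub_mulVec, smul_mulVec, one_mulVec, LAS, fromBlocks_mulVec, neg_smul]
    have e2 : (Sum.elim (us1 k m s) (0 : ι → k)) ∘ Sum.inl = us1 k m s := rfl
    have e3 : (Sum.elim (us1 k m s) (0 : ι → k)) ∘ Sum.inr = 0 := rfl
    rw [e2, e3, ShS_us1]
    ext j
    rcases j with j | j <;> simp
  have key : ∀ (v : Fin (m + 4) ⊕ ι → k) (t : k), (LAS m x s - c • 1) *ᵥ v = t • v →
      ∀ N : ℕ, ((LAS m x s - c • 1) ^ N) *ᵥ v = t ^ N • v := by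
    intro v t hv N
    induction N with
    | zero => simp
    | succ N ih => rw [pow_succ, ← mulVec_mulVec, hv, mulVec_smul, ih, smul_smul, pow_succ, mul_comm]
  have h3 := key _ _ h1 N
  have h4 := key _ _ h2 N
  rw [hN, zero_mulVec] at h3 h4
  have h5 := congrFun h3 (Sum.inl ⟨m + 3, by omega⟩)
  have h6 := congrFun h4 (Sum.inl ⟨m + 3, by omega⟩)
  simp [ev] at h5
  simp [us1, ev] at h6
  have h7 : s - c = 0 := by
    by_contra h
    exact pow_ne_zero N h h5.symm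
  have h8 : c = 0 := by
    by_contra h
    exact pow_ne_zero N (neg_ne_zero.2 h) h6.symm
  exact hs (by rw [← sub_eq_zero.1 h7] at h8; exact h8)

/-- the triples of the type are limits of commuting triples with two eigenvalues -/
theorem pcl [IsAlgClosed k] (hm : 1 ≤ m) (hall : HALL k (Fintype.card (Fin (m + 4) ⊕ ι)))
    (hx : x * x = 0) (hxG : x * G = 0) (hGx : G * x = 0) (hxG' : x * G' = 0) (hGx' : G' * x = 0)
    (h : CN ![LA m x, LX m x G a b, LX m x G' a' b']) :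
    PCl ![LA m x, LX m x G a b, LX m x G' a' b'] := by
  obtain ⟨h1, h2, h3, h4, h5⟩ := rel (h.1 1 2) hx
  have hinf : Infinite k := IsAlgClosed.instInfinite
  set c : k → Fin 3 → Matrix (Fin (m + 4) ⊕ ι) (Fin (m + 4) ⊕ ι) k := fun s =>
    ![LA m x, LX m x G a b, LX m x G' a' b'] + s • ![dirA k ι m, dirX m x b, dirX m x b'] with hc
  have hc' : ∀ s, c s = ![LAS m x s, LXS m x G a b s, LXS m x G' a' b' s] := by
    intro s
    rw [hc]
    funext i
    fin_cases i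
    · exact (LAS_eq s).symm
    · exact (LXS_eq s).symm
    · exact (LXS_eq s).symm
  have h0 : c 0 = ![LA m x, LX m x G a b, LX m x G' a' b'] := by simp [hc]
  rw [← h0]
  refine pcl_of_family hall (PolyFam.line _ _) ?_
  refine (Set.Infinite.mono (s := {s : k | s ≠ 0}) (fun s hs => ⟨?_, 0, ?_⟩) ?_)
  · have e1 := LAS_comm (m := m) (a := a) (b := b) hx (show x * G = G * x by rw [hxG, hGx]) s
    have e2 := LAS_comm (m := m) (a := a') (b := b') hx
      (show x * G' = G' * x by rw [hxG', hGx']) s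
    have e3 := LXS_comm hm hx hxG hGx hxG' hGx' h1 h2 h3 h4 h5 s
    rw [hc' s]
    intro i j
    fin_cases i <;> fin_cases j <;> simp [e1, e2, e3]
  · rw [hc' s]
    exact split s hs
  · exact (Set.finite_singleton (0 : k)).infinite_compl

end L2

end Pool.Agent.Lib.D13
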