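import Pool.Agent.Lib.D13.L2Shape

/-!
# MP_5dcbc3_ag: the standard matrix of type (l, 2^u, 1^p), l >= 4, and its centralizer
-/

set_option linter.unusedSectionVars false

namespace Pool.Agent.Lib.D13

open Matrix Pool.Agent.Lib.Q5dc Pool.Agent.Lib.D7

namespace L2

variable {k : Type*} [Field k] {U P : Type*} [Fintype U] [DecidableEq U] [Fintype P]
  [DecidableEq P]

/-- the standard matrix of square zero -/
def xs (k U P : Type*) [Field k] [DecidableEq U] : Matrix (U ⊕ (U ⊕ P)) (U ⊕ (U ⊕ P)) k :=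
  fromBlocks 0 0 (fromRows 1 0) 0

theorem xs_sq : xs k U P * xs k U P = 0 := by
  rw [xs, fromBlocks_multiply]
  simp

theorem xs_mulVec (a : U ⊕ (U ⊕ P) → k) :
    xs k U P *ᵥ a =
      Sum.elim (0 : U → k) (Sum.elim (fun i => a (Sum.inl i)) (0 : P → k)) := by
  ext r
  rcases r with r | r | r
  · simp [xs, mulVec, dotProduct]
  · simp [xs, mulVec, dotProduct, Matrix.one_apply]
  · simp [xs, mulVec, dotProduct]

theorem vecMul_xs (b : U ⊕ (U ⊕ P) → k) :
    b ᵥ* xs k U P =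
      Sum.elim (fun i => b (Sum.inr (Sum.inl i))) (0 : U ⊕ P → k) := by
  ext r
  rcases r with r | r | r
  · simp [xs, vecMul, dotProduct, Matrix.one_apply]
  · simp [xs, vecMul, dotProduct]
  · simp [xs, vecMul, dotProduct]

/-- the matrices commuting with `xs` -/
def GG (α ν : Matrix U U k) (η : Matrix U P k) (π : Matrix P U k) (θ : Matrix P P k) :
    Matrix (U ⊕ (U ⊕ P)) (U ⊕ (U ⊕ P)) k :=
  fromBlocks α 0 (fromRows ν π) (fromBlocks α η 0 θ)

theorem xs_GG (α ν : Matrix U U k) (η : Matrix U P k) (π : Matrix P U k) (θ : Matrix P P k) :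
    xs k U P * GG α ν η π θ = GG α ν η π θ * xs k U P := by
  rw [xs, GG, fromBlocks_multiply, fromBlocks_multiply]
  congr 1
  · simp
  · simp
  · ext r c
    rcases r with r | r <;> simp [Matrix.mul_apply, Matrix.one_apply]
  · simp

theorem LXz_smul {ι : Type*} [Fintype ι] {m : ℕ} {x G : Matrix ι ι k} {a b : ι → k} (c : k) :
    c • LX m x G a b = LX m x (c • G) (c • a) (c • b) := by
  rw [LX, LX, fromBlocks_smul, Lb, Lb, Lc, Lc]
  congr 1
  · simp
  · rw [smul_vecMul, vecMulVec_smul, vecMulVec_smul, smul_add]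
  · rw [mulVec_smul, smul_vecMulVec, smul_vecMulVec, smul_add]

/-- the parametrization of the centralizer -/
abbrev VV (k U P : Type*) (m : ℕ) : Type _ :=
  (Fin (m + 4) → k) × ((U ⊕ (U ⊕ P)) → k) × ((U ⊕ (U ⊕ P)) → k) × Matrix U U k × Matrix U U k ×
    Matrix U P k × Matrix P U k × Matrix P P k

/-- the parametrization of the centralizer -/
def Φ (m : ℕ) : VV k U P m →ₗ[k]
    Matrix (Fin (m + 4) ⊕ (U ⊕ (U ⊕ P))) (Fin (m + 4) ⊕ (U ⊕ (U ⊕ P))) k where
  toFun v := ∑ j, v.1 j • LA m (xs k U P) ^ (j : ℕ) +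
    LX m (xs k U P) (GG v.2.2.2.1 v.2.2.2.2.1 v.2.2.2.2.2.1 v.2.2.2.2.2.2.1 v.2.2.2.2.2.2.2)
      v.2.1 v.2.2.1
  map_add' v w := by
    have e1 : GG (v + w).2.2.2.1 (v + w).2.2.2.2.1 (v + w).2.2.2.2.2.1 (v + w).2.2.2.2.2.2.1
        (v + w).2.2.2.2.2.2.2 =
        GG v.2.2.2.1 v.2.2.2.2.1 v.2.2.2.2.2.1 v.2.2.2.2.2.2.1 v.2.2.2.2.2.2.2 +
        GG w.2.2.2.1 w.2.2.2.2.1 w.2.2.2.2.2.1 w.2.2.2.2.2.2.1 w.2.2.2.2.2.2.2 := by
      ext r c
      rcases r with r | r | r <;> rcases c with c | c | c <;> simp [GG]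
    have e2 : (v + w).2.1 = v.2.1 + w.2.1 := rfl
    have e3 : (v + w).2.2.1 = v.2.2.1 + w.2.2.1 := rfl
    have e4 : ∀ j, (v + w).1 j = v.1 j + w.1 j := fun j => rfl
    rw [e1, e2, e3, ← LX_add]
    simp only [e4, add_smul, Finset.sum_add_distrib]
    abel
  map_smul' c v := by
    have e1 : GG (c • v).2.2.2.1 (c • v).2.2.2.2.1 (c • v).2.2.2.2.2.1 (c • v).2.2.2.2.2.2.1
        (c • v).2.2.2.2.2.2.2 =
        c • GG v.2.2.2.1 v.2.2.2.2.1 v.2.2.2.2.2.1 v.2.2.2.2.2.2.1 v.2.2.2.2.2.2.2 := by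
      ext r s
      rcases r with r | r | r <;> rcases s with s | s | s <;> simp [GG]
    have e2 : (c • v).2.1 = c • v.2.1 := rfl
    have e3 : (c • v).2.2.1 = c • v.2.2.1 := rfl
    have e4 : ∀ j, (c • v).1 j = c * v.1 j := fun j => rfl
    rw [e1, e2, e3, ← LXz_smul]
    simp only [e4, mul_smul, RingHom.id_apply, smul_add, Finset.smul_sum]

theorem Φ_apply (m : ℕ) (v : VV k U P m) : Φ m v = ∑ j, v.1 j • LA m (xs k U P) ^ (j : ℕ) +
    LX m (xs k U P) (GG v.2.2.2.1 v.2.2.2.2.1 v.2.2.2.2.2.1 v.2.2.2.2.2.2.1 v.2.2.2.2.2.2.2)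
      v.2.1 v.2.2.1 := rfl

theorem Φ_comm (m : ℕ) (v : VV k U P m) : LA m (xs k U P) * Φ m v = Φ m v * LA m (xs k U P) := by
  rw [Φ_apply, Matrix.mul_add, Matrix.add_mul, LA_comm_LX xs_sq (xs_GG _ _ _ _ _),
    Finset.mul_sum, Finset.sum_mul]
  congr 1
  refine Finset.sum_congr rfl fun j _ => ?_
  rw [mul_smul_comm, smul_mul_assoc, ← pow_succ, ← pow_succ']

theorem Φ_inj (m : ℕ) : Function.Injective (Φ m : VV k U P m →ₗ[k] _) := by
  rw [injective_iff_map_eq_zero]
  rintro ⟨f, a, b, α, ν, η, π, θ⟩ h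
  rw [Φ_apply] at h
  simp only at h
  have hent : ∀ r c, (∑ j, f j • LA m (xs k U P) ^ (j : ℕ)) r c +
      LX m (xs k U P) (GG α ν η π θ) a b r c = 0 := fun r c => by
    have := congrFun (congrFun h r) c
    simpa using this
  have hf : ∀ j, f j = 0 := by
    intro j
    have h1 := hent (Sum.inl j) (Sum.inl 0)
    have h2 : (∑ i, f i • LA m (xs k U P) ^ (i : ℕ)) (Sum.inl j) (Sum.inl 0) = f j := by
      rw [Matrix.sum_apply, Finset.sum_eq_single j]
      · simp [LA_pow, ShF_pow]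
      · intro i _ hi
        have h3 : ¬ (j : ℕ) = i := fun e => hi (Fin.ext e.symm)
        simp [LA_pow, ShF_pow, h3]
      · simp
    rw [h2] at h1
    simpa [LX] using h1
  have h0 : (∑ j, f j • LA m (xs k U P) ^ (j : ℕ)) = 0 :=
    Finset.sum_eq_zero fun j _ => by rw [hf j, zero_smul]
  rw [h0] at hent
  simp only [Matrix.zero_apply, zero_add] at hent
  have ha : ∀ r, a r = 0 := by
    intro r
    have h1 := hent (Sum.inr r) (Sum.inl 0)
    simpa [LX, Lc, vecMulVec_apply, ev] using h1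
  have hb : ∀ r, b r = 0 := by
    intro r
    have h1 := hent (Sum.inl ⟨m + 3, by omega⟩) (Sum.inr r)
    simpa [LX, Lb, vecMulVec_apply, ev] using h1
  have hG : ∀ r c, GG α ν η π θ r c = 0 := fun r c => by
    have h1 := hent (Sum.inr r) (Sum.inr c)
    simpa [LX] using h1
  have hα : α = 0 := by
    ext i j
    simpa [GG] using hG (Sum.inl i) (Sum.inl j)
  have hν : ν = 0 := by
    ext i j
    simpa [GG] using hG (Sum.inr (Sum.inl i)) (Sum.inl j)
  have hη : η = 0 := by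
    ext i j
    simpa [GG] using hG (Sum.inr (Sum.inl i)) (Sum.inr (Sum.inr j))
  have hπ : π = 0 := by
    ext i j
    simpa [GG] using hG (Sum.inr (Sum.inr i)) (Sum.inl j)
  have hθ : θ = 0 := by
    ext i j
    simpa [GG] using hG (Sum.inr (Sum.inr i)) (Sum.inr (Sum.inr j))
  rw [show f = 0 from funext hf, show a = 0 from funext ha, show b = 0 from funext hb, hα, hν, hη,
    hπ, hθ]
  rfl

/-- the dimension of the centralizer -/
theorem le_finrank (m : ℕ)
    (C : Submodule k (Matrix (Fin (m + 4) ⊕ (U ⊕ (U ⊕ P))) (Fin (m + 4) ⊕ (U ⊕ (U ⊕ P))) k))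
    (hC : ∀ M, LA m (xs k U P) * M = M * LA m (xs k U P) → M ∈ C) :
    (m + 4) + 4 * Fintype.card U + 2 * Fintype.card P + 2 * (Fintype.card U * Fintype.card U) +
      2 * (Fintype.card U * Fintype.card P) + Fintype.card P * Fintype.card P ≤
      Module.finrank k C := by
  have h1 := LinearMap.finrank_le_finrank_of_injective
    (f := (Φ m : VV k U P m →ₗ[k] _).codRestrict C fun v => hC _ (Φ_comm m v)) (by
      intro v w hvw
      exact Φ_inj m (congrArg Subtype.val hvw))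
  have h2 : Module.finrank k (VV k U P m) = (m + 4) + 4 * Fintype.card U + 2 * Fintype.card P +
      2 * (Fintype.card U * Fintype.card U) + 2 * (Fintype.card U * Fintype.card P) +
      Fintype.card P * Fintype.card P := by
    simp only [Module.finrank_prod, Module.finrank_matrix, Module.finrank_fintype_fun_eq_card,
      Module.finrank_self, Fintype.card_fin, Fintype.card_sum]
    ring
  omega

end L2

end Pool.Agent.Lib.D13
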