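import Pool.Agent.Lib.D13.L2Move
import Pool.Agent.Lib.D13.Psi

/-!
# MP_5dcbc3_ag: type (l, 2^u, 1^p), l >= 4, u >= 1, p >= 2: there is no maximal bad triple
-/

namespace Pool.Agent.Lib.D13

open Matrix Module Pool.Agent.Lib.Q5dc Pool.Agent.Lib.D7

variable {k : Type*} [Field k] {ι : Type*} [Fintype ι] [DecidableEq ι]

namespace L2

/-- dimension count -/
theorem exists_ker {V W U : Type*} [AddCommGroup V] [Module k V] [AddCommGroup W] [Module k W]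
    [AddCommGroup U] [Module k U] [FiniteDimensional k V] [FiniteDimensional k W]
    [FiniteDimensional k U] (Φ : V →ₗ[k] W) (Ψ : U →ₗ[k] V)
    (h : finrank k W + finrank k U < finrank k V) : ∃ v, Φ v = 0 ∧ ¬ ∃ u, v = Ψ u := by
  by_contra hno
  push Not at hno
  have h1 : LinearMap.ker Φ ≤ LinearMap.range Ψ := fun v hv => by
    obtain ⟨u, hu⟩ := hno v hv
    exact ⟨u, hu.symm⟩
  have h2 := LinearMap.finrank_range_add_finrank_ker Φ
  have h3 := Submodule.finrank_mono h1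
  have h4 := LinearMap.finrank_range_le Ψ
  have h5 := Submodule.finrank_le (LinearMap.range Φ)
  omega

variable {ρ : ℕ → ℕ} {m : ℕ} {x G G' : Matrix ι ι k} {a a' b b' : ι → k}

/-- the linear system -/
theorem exists_sol (hI : ∀ v, ∃ t, G *ᵥ v = x *ᵥ t) (hI' : ∀ v, ∃ t, G' *ᵥ v = x *ᵥ t)
    (N : Matrix ι ι k) (b b' ψ : ι → k) (hc : 2 * x.rank + 2 ≤ Fintype.card ι) :
    ∃ r0 r1 r2 : ι → k, x *ᵥ r1 = G *ᵥ r0 ∧ x *ᵥ r2 = G' *ᵥ r0 ∧
      G *ᵥ r2 + x *ᵥ (N *ᵥ r0) = G' *ᵥ r1 ∧ b ⬝ᵥ r2 = b' ⬝ᵥ r1 ∧ ψ ⬝ᵥ r0 = 0 ∧ ψ ⬝ᵥ r1 = 0 ∧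
      ψ ⬝ᵥ r2 = 0 ∧ ¬ ((∃ t, r0 = x *ᵥ t) ∧ (∃ t, r1 = x *ᵥ t) ∧ (∃ t, r2 = x *ᵥ t)) := by
  classical
  have m1 : ∀ v : (ι → k) × (ι → k) × (ι → k), x *ᵥ v.2.1 - G *ᵥ v.1 ∈
      LinearMap.range x.mulVecLin := by
    intro v
    obtain ⟨t, ht⟩ := hI v.1
    exact ⟨v.2.1 - t, by rw [mulVecLin_apply, mulVec_sub, ht]⟩
  have m2 : ∀ v : (ι → k) × (ι → k) × (ι → k), x *ᵥ v.2.2 - G' *ᵥ v.1 ∈
      LinearMap.range x.mulVecLin := by
    intro v
    obtain ⟨t, ht⟩ := hI' v.1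
    exact ⟨v.2.2 - t, by rw [mulVecLin_apply, mulVec_sub, ht]⟩
  have m3 : ∀ v : (ι → k) × (ι → k) × (ι → k), G *ᵥ v.2.2 + x *ᵥ (N *ᵥ v.1) - G' *ᵥ v.2.1 ∈
      LinearMap.range x.mulVecLin := by
    intro v
    obtain ⟨t, ht⟩ := hI v.2.2
    obtain ⟨t', ht'⟩ := hI' v.2.1
    exact ⟨t + N *ᵥ v.1 - t', by rw [mulVecLin_apply, mulVec_sub, mulVec_add, ht, ht']⟩
  let L1 : (ι → k) × (ι → k) × (ι → k) →ₗ[k] LinearMap.range x.mulVecLin :=
    { toFun := fun v => ⟨x *ᵥ v.2.1 - G *ᵥ v.1, m1 v⟩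
      map_add' := fun v w => Subtype.ext (by
        ext i
        simp [mulVec_add]
        ring)
      map_smul' := fun c v => Subtype.ext (by
        ext i
        simp [mulVec_smul]
        ring) }
  let L2 : (ι → k) × (ι → k) × (ι → k) →ₗ[k] LinearMap.range x.mulVecLin :=
    { toFun := fun v => ⟨x *ᵥ v.2.2 - G' *ᵥ v.1, m2 v⟩
      map_add' := fun v w => Subtype.ext (by
        ext i
        simp [mulVec_add]
        ring)
      map_smul' := fun c v => Subtype.ext (by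
        ext i
        simp [mulVec_smul]
        ring) }
  let L3 : (ι → k) × (ι → k) × (ι → k) →ₗ[k] LinearMap.range x.mulVecLin :=
    { toFun := fun v => ⟨G *ᵥ v.2.2 + x *ᵥ (N *ᵥ v.1) - G' *ᵥ v.2.1, m3 v⟩
      map_add' := fun v w => Subtype.ext (by
        ext i
        simp [mulVec_add]
        ring)
      map_smul' := fun c v => Subtype.ext (by
        ext i
        simp [mulVec_smul]
        ring) }
  let L4 : (ι → k) × (ι → k) × (ι → k) →ₗ[k] k × k × k × k :=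
    { toFun := fun v => (b ⬝ᵥ v.2.2 - b' ⬝ᵥ v.2.1, ψ ⬝ᵥ v.1, ψ ⬝ᵥ v.2.1, ψ ⬝ᵥ v.2.2)
      map_add' := fun v w => by
        simp only [Prod.fst_add, Prod.snd_add, dotProduct_add, Prod.mk_add_mk, Prod.mk.injEq,
          and_true, true_and]
        ring
      map_smul' := fun c v => by
        simp only [Prod.smul_fst, Prod.smul_snd, dotProduct_smul, smul_eq_mul, Prod.smul_mk,
          RingHom.id_apply, Prod.mk.injEq, and_true, true_and]
        ring }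
  let I := LinearMap.range x.mulVecLin
  let Ψ : I × I × I →ₗ[k] (ι → k) × (ι → k) × (ι → k) :=
    I.subtype.prodMap (I.subtype.prodMap I.subtype)
  have hI0 : finrank k I = x.rank := rfl
  obtain ⟨v, hv, hv'⟩ := exists_ker (L1.prod (L2.prod (L3.prod L4))) Ψ (by
    simp only [finrank_prod, finrank_fintype_fun_eq_card, finrank_self]
    rw [show finrank k (LinearMap.range x.mulVecLin) = x.rank from rfl]
    omega)
  have e1 : x *ᵥ v.2.1 - G *ᵥ v.1 = 0 := congrArg (fun z => (z.1 : ι → k)) hv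
  have e2 : x *ᵥ v.2.2 - G' *ᵥ v.1 = 0 := congrArg (fun z => (z.2.1 : ι → k)) hv
  have e3 : G *ᵥ v.2.2 + x *ᵥ (N *ᵥ v.1) - G' *ᵥ v.2.1 = 0 :=
    congrArg (fun z => (z.2.2.1 : ι → k)) hv
  have e4 : (b ⬝ᵥ v.2.2 - b' ⬝ᵥ v.2.1, ψ ⬝ᵥ v.1, ψ ⬝ᵥ v.2.1, ψ ⬝ᵥ v.2.2) = (0 : k × k × k × k) :=
    congrArg (fun z => z.2.2.2) hv
  simp only [Prod.mk_eq_zero] at e4
  refine ⟨v.1, v.2.1, v.2.2, sub_eq_zero.1 e1, sub_eq_zero.1 e2, sub_eq_zero.1 e3,
    sub_eq_zero.1 e4.1, e4.2.1, e4.2.2.1, e4.2.2.2, ?_⟩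
  rintro ⟨⟨t0, h0⟩, ⟨t1, h1⟩, ⟨t2, h2⟩⟩
  refine hv' ⟨(⟨x *ᵥ t0, ⟨t0, mulVecLin_apply _ _⟩⟩, ⟨x *ᵥ t1, ⟨t1, mulVecLin_apply _ _⟩⟩,
    ⟨x *ᵥ t2, ⟨t2, mulVecLin_apply _ _⟩⟩), ?_⟩
  show v = (x *ᵥ t0, x *ᵥ t1, x *ᵥ t2)
  rw [← h0, ← h1, ← h2]

/-- the last step of the raise -/
theorem step [Infinite k] {r0 r1 t q ψ : ι → k} {w : Fin (m + 4) → k} {s : k} (hs : s ≠ 0)
    (ht : x *ᵥ t = r0) (hψt : ψ ⬝ᵥ t = 0) (hq : x *ᵥ q = 0) (hψq : ψ ⬝ᵥ q = 1)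
    (hI : ∀ v, ∃ t, G *ᵥ v = x *ᵥ t)
    (hr : ∀ s' : k, ((LA m x + s • vecMulVec (Sum.elim 0 r0) (Sum.elim 0 ψ)) +
      s' • (LX m x G a b + s • vecMulVec (Sum.elim w r1) (Sum.elim 0 ψ))).rank ≤
      (LA m x + s • vecMulVec (Sum.elim 0 r0) (Sum.elim 0 ψ)).rank) : ∃ t1, r1 = x *ᵥ t1 := by
  have hdot : ∀ (c : Fin (m + 4) → k) (d : ι → k),
      (Sum.elim (0 : Fin (m + 4) → k) ψ) ⬝ᵥ (Sum.elim c d) = ψ ⬝ᵥ d := by
    intro c d
    simp [dotProduct, Fintype.sum_sum_type]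
  have hψ1 : ψ ⬝ᵥ (q - s • t) = 1 := by
    rw [dotProduct_sub, dotProduct_smul, hψt, hψq]
    simp
  obtain ⟨v, hv⟩ := lin_first hr (q := Sum.elim 0 (q - s • t)) (by
    rw [add_mulVec, smul_mulVec, vecMulVec_mulVec, hdot, hψ1, LA, fromBlocks_mulVec]
    have e1 : (Sum.elim (0 : Fin (m + 4) → k) (q - s • t)) ∘ Sum.inl = 0 := rfl
    have e2 : (Sum.elim (0 : Fin (m + 4) → k) (q - s • t)) ∘ Sum.inr = q - s • t := rfl
    have e3 : x *ᵥ (q - s • t) = -(s • r0) := by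
      rw [mulVec_sub, mulVec_smul, hq, ht, zero_sub]
    rw [e1, e2, e3]
    ext i
    rcases i with i | i <;> simp)
  obtain ⟨v1, v2, rfl⟩ : ∃ v1 v2, v = Sum.elim v1 v2 :=
    ⟨v ∘ Sum.inl, v ∘ Sum.inr, (Sum.elim_comp_inl_inr v).symm⟩
  have h1 := congrArg (fun z => z ∘ Sum.inr) hv
  obtain ⟨t2, ht2⟩ := hI (q - s • t)
  refine ⟨s⁻¹ • (v2 + (s * (ψ ⬝ᵥ v2)) • t - t2), ?_⟩
  have h2 : s • r1 = x *ᵥ (v2 + (s * (ψ ⬝ᵥ v2)) • t - t2) := by
    rw [mulVec_sub, mulVec_add, mulVec_smul, ht, ← ht2]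
    ext i
    have h3 := congrFun h1 i
    simp only [Function.comp_apply, add_mulVec, smul_mulVec, vecMulVec_mulVec, hdot, hψ1, LX, LA,
      fromBlocks_mulVec, Pi.add_apply, Pi.smul_apply, Sum.elim_inr] at h3
    have e1 : (Sum.elim (0 : Fin (m + 4) → k) (q - s • t)) ∘ Sum.inl = 0 := rfl
    have e2 : (Sum.elim (0 : Fin (m + 4) → k) (q - s • t)) ∘ Sum.inr = q - s • t := rfl
    have e3 : (Sum.elim v1 v2) ∘ Sum.inl = v1 := rfl
    have e4 : (Sum.elim v1 v2) ∘ Sum.inr = v2 := rfl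
    rw [e1, e2, e3, e4] at h3
    simp only [mulVec_zero, zero_mulVec, Pi.zero_apply, Pi.add_apply, zero_add,
      MulOpposite.op_one, one_smul, smul_eq_mul, op_smul_eq_smul] at h3
    simp only [Pi.smul_apply, Pi.add_apply, Pi.sub_apply, smul_eq_mul]
    linear_combination h3
  rw [mulVec_smul, ← h2, smul_smul, inv_mul_cancel₀ hs, one_smul]

/-- the raise, given the functional -/
theorem raise_psi [Infinite k] (hT : MaxR ρ ![LA m x, LX m x G a b, LX m x G' a' b'])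
    (hρ : ρ 1 ≤ (LA m x).rank) (r : Rel x G G' a b a' b')
    (hI : ∀ v, ∃ t, G *ᵥ v = x *ᵥ t) (hI' : ∀ v, ∃ t, G' *ᵥ v = x *ᵥ t) {ψ q : ι → k}
    (hψx : ψ ᵥ* x = 0) (hψa : ψ ⬝ᵥ a = 0) (hψa' : ψ ⬝ᵥ a' = 0) (hq : x *ᵥ q = 0)
    (hψq : ψ ⬝ᵥ q = 1) (hc : 2 * x.rank + 2 ≤ Fintype.card ι) : False := by
  classical
  obtain ⟨r0, r1, r2, h1, h2, h3, h4, h5, h6, h7, h8⟩ := exists_sol hI hI'
    (if m = 0 then vecMulVec a (b' ᵥ* x) - vecMulVec a' (b ᵥ* x) else 0) b b' ψ hc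
  have hψG : ∀ {H : Matrix ι ι k}, (∀ v, ∃ t, H *ᵥ v = x *ᵥ t) → ψ ᵥ* H = 0 := by
    intro H hH
    ext i
    obtain ⟨t, ht⟩ := hH (Pi.single i 1)
    have h9 : ψ ⬝ᵥ (H *ᵥ Pi.single i 1) = 0 := by rw [ht, dotProduct_mulVec, hψx, zero_dotProduct]
    rw [dotProduct_mulVec] at h9
    simpa using h9
  have hdot : ∀ (c : Fin (m + 4) → k) (d : ι → k),
      (Sum.elim (0 : Fin (m + 4) → k) ψ) ⬝ᵥ (Sum.elim c d) = ψ ⬝ᵥ d := by
    intro c d
    simp [dotProduct, Fintype.sum_sum_type]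
  have e1 : (Sum.elim (0 : Fin (m + 4) → k) ψ) ∘ Sum.inl = 0 := rfl
  have e2 : (Sum.elim (0 : Fin (m + 4) → k) ψ) ∘ Sum.inr = ψ := rfl
  have hψLX : ∀ {H : Matrix ι ι k} {c d : ι → k}, ψ ᵥ* H = 0 → ψ ⬝ᵥ c = 0 →
      Sum.elim (0 : Fin (m + 4) → k) ψ ᵥ* LX m x H c d = 0 := by
    intro H c d hH hc
    have h9 : ψ ᵥ* Lc m x c = 0 := by
      rw [Lc, vecMul_add, vecMul_vecMulVec, vecMul_vecMulVec, hc, dotProduct_mulVec, hψx,
        zero_dotProduct]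
      simp
    rw [LX, vecMul_fromBlocks, e1, e2, h9, hH]
    ext i
    rcases i with i | i <;> simp
  have hψT : ∀ j, Sum.elim (0 : Fin (m + 4) → k) ψ ᵥ*
      (![LA m x, LX m x G a b, LX m x G' a' b'] : Fin 3 → _) j = 0 := by
    intro j
    fin_cases j
    · show Sum.elim (0 : Fin (m + 4) → k) ψ ᵥ* LA m x = 0
      rw [LA, vecMul_fromBlocks, e1, e2, hψx]
      ext i
      rcases i with i | i <;> simp
    · exact hψLX (hψG hI) hψa
    · exact hψLX (hψG hI') hψa'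
  -- the cocycle
  set w1 : Fin (m + 4) → k := (b ⬝ᵥ (x *ᵥ r0)) • ev k (m + 4) (m + 1) +
    (b ⬝ᵥ r0) • ev k (m + 4) (m + 2) with hw1
  set w2 : Fin (m + 4) → k := (b' ⬝ᵥ (x *ᵥ r0)) • ev k (m + 4) (m + 1) +
    (b' ⬝ᵥ r0) • ev k (m + 4) (m + 2) with hw2
  set f : Fin 3 → Fin (m + 4) ⊕ ι → k := ![Sum.elim 0 r0, Sum.elim w1 r1, Sum.elim w2 r2] with hf
  have hLb : ∀ c d : ι → k, Lb m x c *ᵥ d =
      (c ⬝ᵥ (x *ᵥ d)) • ev k (m + 4) (m + 2) + (c ⬝ᵥ d) • ev k (m + 4) (m + 3) := by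
    intro c d
    rw [Lb, add_mulVec, vecMulVec_mulVec, vecMulVec_mulVec, ← dotProduct_mulVec, op_smul_eq_smul,
      op_smul_eq_smul]
  have hLc1 : ∀ c : ι → k, Lc m x c *ᵥ ev k (m + 4) (m + 1) = if m = 0 then x *ᵥ c else 0 := by
    intro c
    rw [Lc, add_mulVec, vecMulVec_mulVec, vecMulVec_mulVec, ev_dot _ _ _ (by omega),
      ev_dot _ _ _ (by omega), if_neg (by omega)]
    by_cases hm : m = 0
    · rw [if_pos (by omega), if_pos hm]
      simp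
    · rw [if_neg (by omega), if_neg hm]
      simp
  have hLc2 : ∀ c : ι → k, Lc m x c *ᵥ ev k (m + 4) (m + 2) = 0 := by
    intro c
    rw [Lc, add_mulVec, vecMulVec_mulVec, vecMulVec_mulVec, ev_dot _ _ _ (by omega),
      ev_dot _ _ _ (by omega), if_neg (by omega), if_neg (by omega)]
    simp
  have hLA : ∀ (c : Fin (m + 4) → k) (d : ι → k), LA m x *ᵥ Sum.elim c d =
      Sum.elim (ShF k (m + 4) *ᵥ c) (x *ᵥ d) := by
    intro c d
    rw [LA, fromBlocks_mulVec]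
    have e3 : (Sum.elim c d) ∘ Sum.inl = c := rfl
    have e4 : (Sum.elim c d) ∘ Sum.inr = d := rfl
    rw [e3, e4]
    simp
  have hLX : ∀ (H : Matrix ι ι k) (g g' : ι → k) (c : Fin (m + 4) → k) (d : ι → k),
      LX m x H g g' *ᵥ Sum.elim c d =
      Sum.elim (Lb m x g' *ᵥ d) (Lc m x g *ᵥ c + H *ᵥ d) := by
    intro H g g' c d
    rw [LX, fromBlocks_mulVec]
    have e3 : (Sum.elim c d) ∘ Sum.inl = c := rfl
    have e4 : (Sum.elim c d) ∘ Sum.inr = d := rfl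
    rw [e3, e4]
    simp
  have c01 : LA m x *ᵥ Sum.elim w1 r1 = LX m x G a b *ᵥ Sum.elim 0 r0 := by
    rw [hLA, hLX, hLb, h1, hw1, mulVec_add, mulVec_smul, mulVec_smul, ShF_ev _ _ (by omega),
      ShF_ev _ _ (by omega)]
    simp
  have c02 : LA m x *ᵥ Sum.elim w2 r2 = LX m x G' a' b' *ᵥ Sum.elim 0 r0 := by
    rw [hLA, hLX, hLb, h2, hw2, mulVec_add, mulVec_smul, mulVec_smul, ShF_ev _ _ (by omega),
      ShF_ev _ _ (by omega)]
    simp
  have hbe : b ⬝ᵥ (x *ᵥ r2) = b' ⬝ᵥ (x *ᵥ r1) := by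
    rw [h1, h2, dotProduct_mulVec, dotProduct_mulVec, r.be]
  have c12 : LX m x G a b *ᵥ Sum.elim w2 r2 = LX m x G' a' b' *ᵥ Sum.elim w1 r1 := by
    rw [hLX, hLX, hLb, hLb, hbe, h4, hw1, hw2, mulVec_add, mulVec_add, mulVec_smul, mulVec_smul,
      mulVec_smul, mulVec_smul, hLc1, hLc1, hLc2, hLc2]
    congr 1
    rw [← h3]
    by_cases hm : m = 0
    · simp only [if_pos hm]
      rw [sub_mulVec, vecMulVec_mulVec, vecMulVec_mulVec, ← dotProduct_mulVec, ← dotProduct_mulVec,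
        mulVec_sub, op_smul_eq_smul, op_smul_eq_smul, mulVec_smul, mulVec_smul]
      module
    · simp only [if_neg hm]
      simp
  have hfψ : ∀ j, Sum.elim (0 : Fin (m + 4) → k) ψ ⬝ᵥ f j = 0 := by
    intro j
    fin_cases j
    · exact (hdot 0 r0).trans h5
    · exact (hdot w1 r1).trans h6
    · exact (hdot w2 r2).trans h7
  have hcoc : ∀ i j, (![LA m x, LX m x G a b, LX m x G' a' b'] : Fin 3 → _) i *ᵥ f j =
      (![LA m x, LX m x G a b, LX m x G' a' b'] : Fin 3 → _) j *ᵥ f i := by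
    intro i j
    fin_cases i <;> fin_cases j
    · rfl
    · exact c01
    · exact c02
    · exact c01.symm
    · rfl
    · exact c12
    · exact c02.symm
    · exact c12.symm
    · rfl
  -- `r0` lies in the image
  obtain ⟨v, hv⟩ := MaxR.psi0 hT 0 (by
    rw [zero_add, pow_one]
    exact hρ) (Sum.elim 0 ψ) hψT f hfψ hcoc (Sum.elim 0 q) (by
    rw [zero_add, pow_one]
    show LA m x *ᵥ Sum.elim 0 q = 0
    rw [hLA, hq]
    ext i
    rcases i with i | i <;> simp) (by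
    rw [hdot, hψq]
    exact one_ne_zero)
  obtain ⟨t, ht, hψt⟩ : ∃ t, x *ᵥ t = r0 ∧ ψ ⬝ᵥ t = 0 := by
    obtain ⟨v1, v2, rfl⟩ : ∃ v1 v2, v = Sum.elim v1 v2 :=
      ⟨v ∘ Sum.inl, v ∘ Sum.inr, (Sum.elim_comp_inl_inr v).symm⟩
    have h9 : Sum.elim (0 : Fin (m + 4) → k) r0 = LA m x *ᵥ Sum.elim v1 v2 := by
      have : (1 : Matrix (Fin (m + 4) ⊕ ι) (Fin (m + 4) ⊕ ι) k) *ᵥ
          Sum.elim (0 : Fin (m + 4) → k) r0 = LA m x *ᵥ Sum.elim v1 v2 := by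
        rw [zero_add, pow_one, pow_zero] at hv
        exact hv
      rw [← this, one_mulVec]
    rw [hLA] at h9
    have h10 : r0 = x *ᵥ v2 := by
      have := congrArg (fun z => z ∘ Sum.inr) h9
      exact this
    refine ⟨v2 - (ψ ⬝ᵥ v2) • q, ?_, ?_⟩
    · rw [mulVec_sub, mulVec_smul, hq, ← h10]
      simp
    · rw [dotProduct_sub, dotProduct_smul, hψq]
      simp
  -- the deformed triple
  have hfin := rank_semicont (fun s : k => LA m x + s • vecMulVec (Sum.elim 0 r0) (Sum.elim 0 ψ))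
    (isPoly_line _ _) 0
  obtain ⟨s, hs, hM⟩ := D8.MaxR.line hT (fun j => vecMulVec (f j) (Sum.elim 0 ψ)) (fun s =>
    psi_cn hT.cn (Sum.elim 0 ψ) hψT f hfψ hcoc s) (hfin.union (Set.finite_singleton 0))
  rw [Set.mem_union, not_or, Set.mem_ofPred_eq, not_lt, Set.mem_singleton_iff] at hs
  obtain ⟨hs1, hs0⟩ := hs
  have hs2 : (LA m x).rank ≤
      (LA m x + s • vecMulVec (Sum.elim 0 r0) (Sum.elim (0 : Fin (m + 4) → k) ψ)).rank := by
    simpa using hs1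
  have hrk : ∀ (j : Fin 3) (s' : k),
      ((LA m x + s • vecMulVec (Sum.elim 0 r0) (Sum.elim (0 : Fin (m + 4) → k) ψ)) + s' •
      ((![LA m x, LX m x G a b, LX m x G' a' b'] :
        Fin 3 → Matrix (Fin (m + 4) ⊕ ι) (Fin (m + 4) ⊕ ι) k) j +
      s • vecMulVec (f j) (Sum.elim 0 ψ))).rank ≤
      (LA m x + s • vecMulVec (Sum.elim 0 r0) (Sum.elim (0 : Fin (m + 4) → k) ψ)).rank := by
    intro j s'
    have h9 := hM.rank_le (add_mem (mem_adj _ 0) (SMulMemClass.smul_mem s' (mem_adj _ j))) 1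
    rw [pow_one] at h9
    exact h9.trans (hρ.trans hs2)
  refine h8 ⟨⟨t, ht.symm⟩, ?_, ?_⟩
  · exact step hs0 ht hψt hq hψq hI (hrk 1)
  · exact step hs0 ht hψt hq hψq hI' (hrk 2)

/-- the map onto `im x + <a, a'>` -/
def Psm (x : Matrix ι ι k) (a a' : ι → k) :
    LinearMap.range x.mulVecLin × k × k →ₗ[k] (ι → k) where
  toFun := fun v => v.1.1 + v.2.1 • a + v.2.2 • a'
  map_add' := fun v w => by
    simp only [Prod.fst_add, Prod.snd_add, Submodule.coe_add]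
    module
  map_smul' := fun c v => by
    simp only [Prod.smul_fst, Prod.smul_snd, Submodule.coe_smul, smul_eq_mul, RingHom.id_apply]
    module

/-- if `x a` or `x a'` is not zero, there is a good vector in the kernel -/
theorem exists_q (hc : 2 * x.rank + 2 ≤ Fintype.card ι) (ha : x *ᵥ a ≠ 0 ∨ x *ᵥ a' ≠ 0) :
    ∃ q, x *ᵥ q = 0 ∧ q ∉ LinearMap.range (Psm x a a') := by
  by_contra hno
  push Not at hno
  have h1 : LinearMap.ker x.mulVecLin ≤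
      (LinearMap.ker (x.mulVecLin ∘ₗ Psm x a a')).map (Psm x a a') := by
    intro v hv
    rw [LinearMap.mem_ker, mulVecLin_apply] at hv
    obtain ⟨u, hu⟩ := hno v hv
    refine ⟨u, ?_, hu⟩
    rw [SetLike.mem_coe, LinearMap.mem_ker, LinearMap.comp_apply, hu, mulVecLin_apply, hv]
  have h2 := Submodule.finrank_mono h1
  have h3 := Submodule.finrank_map_le (Psm x a a') (LinearMap.ker (x.mulVecLin ∘ₗ Psm x a a'))
  have h4 := LinearMap.finrank_range_add_finrank_ker x.mulVecLin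
  have h5 := LinearMap.finrank_range_add_finrank_ker (x.mulVecLin ∘ₗ Psm x a a')
  have h6 : finrank k (LinearMap.range x.mulVecLin) = x.rank := rfl
  have h7 : finrank k (LinearMap.range (x.mulVecLin ∘ₗ Psm x a a')) ≠ 0 := by
    intro h8
    rw [Submodule.finrank_eq_zero, LinearMap.range_eq_bot] at h8
    rcases ha with ha | ha
    · refine ha ?_
      have := LinearMap.congr_fun h8 (0, 1, 0)
      simpa [Psm] using this
    · refine ha ?_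
      have := LinearMap.congr_fun h8 (0, 0, 1)
      simpa [Psm] using this
  simp only [finrank_prod, finrank_fintype_fun_eq_card, finrank_self] at h4 h5
  omega

/-- if `a` is a multiple of `a'` modulo `im x`, there is a good vector in the kernel -/
theorem exists_q2 (hc : 2 * x.rank + 2 ≤ Fintype.card ι) {t : ι → k} {c : k}
    (ha : a = x *ᵥ t + c • a') :
    ∃ q, x *ᵥ q = 0 ∧ q ∉ LinearMap.range (Psm x a a') := by
  let Ψ : LinearMap.range x.mulVecLin × k →ₗ[k] (ι → k) :=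
    { toFun := fun v => v.1.1 + v.2 • a'
      map_add' := fun v w => by
        simp only [Prod.fst_add, Prod.snd_add, Submodule.coe_add]
        module
      map_smul' := fun c v => by
        simp only [Prod.smul_fst, Prod.smul_snd, Submodule.coe_smul, smul_eq_mul,
          RingHom.id_apply]
        module }
  obtain ⟨q, hq, hq'⟩ := exists_ker x.mulVecLin.rangeRestrict Ψ (by
    simp only [finrank_prod, finrank_fintype_fun_eq_card, finrank_self]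
    rw [show finrank k (LinearMap.range x.mulVecLin) = x.rank from rfl]
    omega)
  refine ⟨q, ?_, ?_⟩
  · have := congrArg Subtype.val hq
    simpa using this
  · rintro ⟨⟨u, α, β⟩, hu⟩
    refine hq' ⟨(⟨u.1 + α • (x *ᵥ t), ?_⟩, α * c + β), ?_⟩
    · exact add_mem u.2 (Submodule.smul_mem _ _ ⟨t, mulVecLin_apply _ _⟩)
    · rw [← hu]
      show (u : ι → k) + α • a + β • a' = (u : ι → k) + α • (x *ᵥ t) + (α * c + β) • a'
      conv_lhs => rw [ha]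
      module

/-- the raise, given the vector -/
theorem raise_q [Infinite k] (hT : MaxR ρ ![LA m x, LX m x G a b, LX m x G' a' b'])
    (hρ : ρ 1 ≤ (LA m x).rank) (r : Rel x G G' a b a' b')
    (hI : ∀ v, ∃ t, G *ᵥ v = x *ᵥ t) (hI' : ∀ v, ∃ t, G' *ᵥ v = x *ᵥ t) {q : ι → k}
    (hq : x *ᵥ q = 0) (hq' : q ∉ LinearMap.range (Psm x a a'))
    (hc : 2 * x.rank + 2 ≤ Fintype.card ι) : False := by
  obtain ⟨ψ, h1, h2⟩ := exists_sep _ hq'
  refine raise_psi hT hρ r hI hI' (ψ := ψ) ?_ ?_ ?_ hq h2 hc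
  · ext i
    have h3 : ψ ⬝ᵥ (x *ᵥ Pi.single i 1) = 0 :=
      h1 _ ⟨(⟨x *ᵥ Pi.single i 1, ⟨_, mulVecLin_apply _ _⟩⟩, 0, 0), by simp [Psm]⟩
    rw [dotProduct_mulVec] at h3
    simpa using h3
  · exact h1 _ ⟨(0, 1, 0), by simp [Psm]⟩
  · exact h1 _ ⟨(0, 0, 1), by simp [Psm]⟩

/-- the raise, in the case `im G, im G'` contained in `im x` -/
theorem raise_all [Infinite k] (hT : MaxR ρ ![LA m x, LX m x G a b, LX m x G' a' b'])
    (hρ : ρ 1 ≤ (LA m x).rank) (h : Two x G G') (r : Rel x G G' a b a' b') (hx0 : x ≠ 0)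
    (hI : ∀ v, ∃ t, G *ᵥ v = x *ᵥ t) (hI' : ∀ v, ∃ t, G' *ᵥ v = x *ᵥ t)
    (hc : 2 * x.rank + 2 ≤ Fintype.card ι) : False := by
  classical
  by_cases hn : ∃ q, x *ᵥ q = 0 ∧ q ∉ LinearMap.range (Psm x a a')
  · obtain ⟨q, hq, hq'⟩ := hn
    exact raise_q hT hρ r hI hI' hq hq' hc
  -- the exceptional case: move `x`
  obtain ⟨φ1, h11, h12, h13⟩ : ∃ φ : ι → k, φ ᵥ* x = 0 ∧ φ ⬝ᵥ a = 1 ∧ φ ⬝ᵥ a' = 0 := by
    obtain ⟨φ, h1, h2⟩ := exists_sep (LinearMap.range x.mulVecLin ⊔ Submodule.span k {a'})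
      (v := a) (by
        intro hmem
        obtain ⟨y, hy, z, hz, hyz⟩ := Submodule.mem_sup.1 hmem
        obtain ⟨t, rfl⟩ := hy
        obtain ⟨c, rfl⟩ := Submodule.mem_span_singleton.1 hz
        exact hn (exists_q2 hc (t := t) (c := c) (by rw [← hyz, mulVecLin_apply])))
    refine ⟨φ, ?_, h2, h1 _ (Submodule.mem_sup_right (Submodule.mem_span_singleton_self a'))⟩
    ext i
    have h3 : φ ⬝ᵥ (x *ᵥ Pi.single i 1) = 0 :=
      h1 _ (Submodule.mem_sup_left ⟨_, mulVecLin_apply _ _⟩)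
    rw [dotProduct_mulVec] at h3
    simpa using h3
  obtain ⟨φ2, h21, h22, h23⟩ : ∃ φ : ι → k, φ ᵥ* x = 0 ∧ φ ⬝ᵥ a = 0 ∧ φ ⬝ᵥ a' = 1 := by
    obtain ⟨φ, h1, h2⟩ := exists_sep (LinearMap.range x.mulVecLin ⊔ Submodule.span k {a})
      (v := a') (by
        intro hmem
        obtain ⟨y, hy, z, hz, hyz⟩ := Submodule.mem_sup.1 hmem
        obtain ⟨t, rfl⟩ := hy
        obtain ⟨c, rfl⟩ := Submodule.mem_span_singleton.1 hz
        obtain ⟨q, hq, hq'⟩ := exists_q2 (a := a') (a' := a) hc (t := t) (c := c)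
          (by rw [← hyz, mulVecLin_apply])
        refine hn ⟨q, hq, fun hq2 => hq' ?_⟩
        obtain ⟨⟨u, α, β⟩, hu⟩ := hq2
        refine ⟨(u, β, α), ?_⟩
        rw [← hu]
        show (u : ι → k) + β • a' + α • a = (u : ι → k) + α • a + β • a'
        module)
    refine ⟨φ, ?_, h1 _ (Submodule.mem_sup_right (Submodule.mem_span_singleton_self a)), h2⟩
    ext i
    have h3 : φ ⬝ᵥ (x *ᵥ Pi.single i 1) = 0 :=
      h1 _ (Submodule.mem_sup_left ⟨_, mulVecLin_apply _ _⟩)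
    rw [dotProduct_mulVec] at h3
    simpa using h3
  have hxa : x *ᵥ a = 0 := by
    by_contra hne
    exact hn (exists_q hc (Or.inl hne))
  have hxa' : x *ᵥ a' = 0 := by
    by_contra hne
    exact hn (exists_q hc (Or.inr hne))
  obtain ⟨e, he⟩ : ∃ e, x *ᵥ e ≠ 0 := by
    by_contra hh
    push Not at hh
    exact hx0 (mat_zero hh)
  set y := x *ᵥ e with hy
  obtain ⟨c1, c2, hc12, hne⟩ : ∃ c1 c2 : k, (b ⬝ᵥ y) * c2 = (b' ⬝ᵥ y) * c1 ∧
      (c1 ≠ 0 ∨ c2 ≠ 0) := by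
    by_cases h0 : b ⬝ᵥ y ≠ 0 ∨ b' ⬝ᵥ y ≠ 0
    · exact ⟨b ⬝ᵥ y, b' ⬝ᵥ y, mul_comm _ _, h0⟩
    · push Not at h0
      exact ⟨1, 0, by rw [h0.1, h0.2]; ring, Or.inl one_ne_zero⟩
  set φ := c1 • φ1 + c2 • φ2 with hφ
  have hφx : φ ᵥ* x = 0 := by rw [hφ, add_vecMul, smul_vecMul, smul_vecMul, h11, h21]; simp
  have hφa : φ ⬝ᵥ a = c1 := by
    rw [hφ, add_dotProduct, smul_dotProduct, smul_dotProduct, h12, h22]; simp
  have hφa' : φ ⬝ᵥ a' = c2 := by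
    rw [hφ, add_dotProduct, smul_dotProduct, smul_dotProduct, h13, h23]; simp
  have hφG : ∀ {H : Matrix ι ι k}, (∀ v, ∃ t, H *ᵥ v = x *ᵥ t) → φ ᵥ* H = 0 := by
    intro H hH
    ext i
    obtain ⟨t, ht⟩ := hH (Pi.single i 1)
    have h9 : φ ⬝ᵥ (H *ᵥ Pi.single i 1) = 0 := by rw [ht, dotProduct_mulVec, hφx, zero_dotProduct]
    rw [dotProduct_mulVec] at h9
    simpa using h9
  have hφy : φ ⬝ᵥ y = 0 := by rw [hy, dotProduct_mulVec, hφx, zero_dotProduct]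
  have hMv : Mv x G G' (vecMulVec y φ) a b a' b' := by
    refine mv_fac ⟨?_, ?_, ?_, hφx, hφG hI, hφG hI'⟩ hφy ?_
    · rw [hy, mulVec_mulVec, h.xx, zero_mulVec]
    · rw [hy, mulVec_mulVec, h.Gx, zero_mulVec]
    · rw [hy, mulVec_mulVec, h.Hx, zero_mulVec]
    · rw [hφa, hφa', hc12]
  have hfin := rank_semicont (fun s : k => LA m x + s • fromBlocks 0 0 0 (vecMulVec y φ))
    (isPoly_line _ _) 0
  have hfin2 : {s : k | 1 + (φ ⬝ᵥ e) * s + 0 * s ^ 2 = 0}.Finite :=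
    D8.finite_quad (Or.inl one_ne_zero)
  obtain ⟨s, hs, hM⟩ := D8.MaxR.line hT
    (![fromBlocks 0 0 0 (vecMulVec y φ), LXd m (vecMulVec y φ) a b, LXd m (vecMulVec y φ) a' b'])
    (fun s => by
      rw [← fam_eq]
      exact cn (h.move hMv s) (r.move hMv s))
    ((hfin.union hfin2).union (Set.finite_singleton 0))
  rw [← fam_eq] at hM
  rw [Set.mem_union, Set.mem_union, not_or, not_or, Set.mem_ofPred_eq, Set.mem_ofPred_eq,
    Set.mem_singleton_iff, not_lt] at hs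
  obtain ⟨⟨hs1, hs2⟩, hs0⟩ := hs
  set x' := x + s • vecMulVec y φ with hx'
  have hx'v : ∀ v, x' *ᵥ v = x *ᵥ v + (s * (φ ⬝ᵥ v)) • y := by
    intro v
    rw [hx', add_mulVec, smul_mulVec, vecMulVec_mulVec, op_smul_eq_smul, smul_smul]
  have hs3 : 1 + s * (φ ⬝ᵥ e) ≠ 0 := by
    intro h0
    apply hs2
    linear_combination h0
  have himg : ∀ v, ∃ t, x *ᵥ v = x' *ᵥ t := by
    intro v
    refine ⟨v - (s * (φ ⬝ᵥ v) / (1 + s * (φ ⬝ᵥ e))) • e, ?_⟩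
    rw [hx'v, mulVec_sub, mulVec_smul, ← hy, dotProduct_sub, dotProduct_smul, smul_eq_mul]
    have h9 : s * (φ ⬝ᵥ v) / (1 + s * (φ ⬝ᵥ e)) * (1 + s * (φ ⬝ᵥ e)) = s * (φ ⬝ᵥ v) :=
      div_mul_cancel₀ _ hs3
    ext i
    simp only [Pi.add_apply, Pi.sub_apply, Pi.smul_apply, smul_eq_mul]
    linear_combination y i * h9
  have hrk : x'.rank ≤ x.rank := by
    have : x' = x * (1 + s • vecMulVec e φ) := by
      rw [hx', Matrix.mul_add, Matrix.mul_one, Matrix.mul_smul, mul_vecMulVec, ← hy]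
    rw [this]
    exact rank_mul_le_left _ _
  have hρ' : ρ 1 ≤ (LA m x').rank := by
    refine hρ.trans ?_
    rw [hx', LA_add]
    simpa using hs1
  have hc' : 2 * x'.rank + 2 ≤ Fintype.card ι := by omega
  have hxa2 : x' *ᵥ a ≠ 0 ∨ x' *ᵥ a' ≠ 0 := by
    rw [hx'v, hx'v, hxa, hxa', hφa, hφa', zero_add, zero_add]
    rcases hne with hne | hne
    · exact Or.inl (smul_ne_zero (mul_ne_zero hs0 hne) he)
    · exact Or.inr (smul_ne_zero (mul_ne_zero hs0 hne) he)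
  obtain ⟨q, hq, hq'⟩ := exists_q hc' hxa2
  refine raise_q hM hρ' (r.move hMv s) (fun v => ?_) (fun v => ?_) hq hq' hc'
  · obtain ⟨t, ht⟩ := hI v
    obtain ⟨t', ht'⟩ := himg t
    exact ⟨t', ht.trans ht'⟩
  · obtain ⟨t, ht⟩ := hI' v
    obtain ⟨t', ht'⟩ := himg t
    exact ⟨t', ht.trans ht'⟩

/-- no maximal bad triple of type `(l, 2^u, 1^p)`, `l >= 4`, `u >= 1`, `p >= 2` -/
theorem no_two [CharZero k] {T : Fin 3 → Matrix (Fin (m + 4) ⊕ ι) (Fin (m + 4) ⊕ ι) k}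
    (hT : MaxR ρ T) (hρ : ∀ i, ρ i = (T 0 ^ i).rank) (h0 : T 0 = LA m x) (hx : x * x = 0)
    (hx0 : x ≠ 0) (hc : 2 * x.rank + 2 ≤ Fintype.card ι) : False := by
  obtain ⟨G, G', a, b, a', b', hM, h, r⟩ := shape2 hT hρ h0 hx
  have hρ1 : ρ 1 ≤ (LA m x).rank := by
    have := hρ 1
    rw [pow_one, h0] at this
    exact this.le
  rcases dich hM hρ1 h r hx0 with hI | hII
  · exact raise_all hM hρ1 h r hx0 (fun v => (hI v).1) (fun v => (hI v).2) hc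
  · have hd : ∀ {H : Matrix ι ι k}, (∀ q, x *ᵥ q = 0 → H *ᵥ q = 0) →
        ∀ v, ∃ t, Hᵀ *ᵥ v = xᵀ *ᵥ t := by
      intro H hH v
      by_contra hno
      obtain ⟨φ, h1, h2⟩ := exists_sep_range xᵀ hno
      rw [vecMul_transpose] at h1
      rw [dotProduct_mulVec, vecMul_transpose, hH φ h1, zero_dotProduct] at h2
      exact zero_ne_one h2
    refine raise_all (dual hM) (by rw [rank_dual]; exact hρ1) h.dual r.dual ?_
      (hd fun q hq => (hII q hq).1) (hd fun q hq => (hII q hq).2) ?_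
    · intro h1
      exact hx0 (by rw [← transpose_transpose x, h1, transpose_zero])
    · rw [rank_transpose]
      exact hc

end L2

end Pool.Agent.Lib.D13
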