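import Pool.Agent.Lib.D13.L2Indep
import Pool.Agent.Lib.D13.Cl1441
import Pool.Agent.Lib.D13.Frame

/-!
# MP_5dcbc3_ag: the types (4, 2, 2, 2), (4, 2, 2, 2, 1), (4, 2, 2, 2, 2)
-/

namespace Pool.Agent.Lib.D13

open Matrix Pool.Agent.Lib.Q5dc Pool.Agent.Lib.D7 Module

variable {k : Type*} [Field k]

namespace L2

/-- blocks of size two and one: index `u` (tops), `p` (blocks of size one), `u` (bottoms) -/
def RX (k : Type*) [Field k] (u p : ℕ) :
    Matrix (Fin u ⊕ (Fin p ⊕ Fin u)) (Fin u ⊕ (Fin p ⊕ Fin u)) k :=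
  Matrix.of fun i j => match i, j with
    | .inr (.inr a), .inl b => if a = b then 1 else 0
    | _, _ => 0

section RX

variable {u p : ℕ}

theorem RX_mulVec_inl (w : Fin u ⊕ (Fin p ⊕ Fin u) → k) (a : Fin u) :
    (RX k u p *ᵥ w) (.inl a) = 0 := by
  rw [mulVec, dotProduct]
  refine Finset.sum_eq_zero fun j _ => ?_
  rcases j with j | j | j <;> simp [RX]

theorem RX_mulVec_mid (w : Fin u ⊕ (Fin p ⊕ Fin u) → k) (a : Fin p) :
    (RX k u p *ᵥ w) (.inr (.inl a)) = 0 := by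
  rw [mulVec, dotProduct]
  refine Finset.sum_eq_zero fun j _ => ?_
  rcases j with j | j | j <;> simp [RX]

theorem RX_mulVec_inr (w : Fin u ⊕ (Fin p ⊕ Fin u) → k) (a : Fin u) :
    (RX k u p *ᵥ w) (.inr (.inr a)) = w (.inl a) := by
  rw [mulVec, dotProduct, Finset.sum_eq_single (.inl a)]
  · simp [RX]
  · intro j _ hj
    rcases j with j | j | j
    · have : a ≠ j := fun e => hj (by rw [e])
      simp [RX, this]
    · simp [RX]
    · simp [RX]
  · simp

theorem RX_vecMul_inl (b : Fin u ⊕ (Fin p ⊕ Fin u) → k) (a : Fin u) :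
    (b ᵥ* RX k u p) (.inl a) = b (.inr (.inr a)) := by
  rw [vecMul, dotProduct, Finset.sum_eq_single (.inr (.inr a))]
  · simp [RX]
  · intro j _ hj
    rcases j with j | j | j
    · simp [RX]
    · simp [RX]
    · have : j ≠ a := fun e => hj (by rw [e])
      simp [RX, this]
  · simp

theorem RX_vecMul_inr (b : Fin u ⊕ (Fin p ⊕ Fin u) → k) (a : Fin p ⊕ Fin u) :
    (b ᵥ* RX k u p) (.inr a) = 0 := by
  rw [vecMul, dotProduct]
  refine Finset.sum_eq_zero fun j _ => ?_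
  rcases j with j | j | j <;> simp [RX]

theorem RX_sq : RX k u p * RX k u p = 0 := by
  refine mat_zero fun r => ?_
  rw [← mulVec_mulVec]
  funext i
  rcases i with i | i | i
  · rw [RX_mulVec_inl]; rfl
  · rw [RX_mulVec_mid]; rfl
  · rw [RX_mulVec_inr, RX_mulVec_inl]; rfl

theorem RX_rank : (RX k u p).rank = u := by
  have h1 : RX k u p = (Matrix.of fun (i : Fin u ⊕ (Fin p ⊕ Fin u)) (j : Fin u) =>
      match i with
      | .inr (.inr a) => if a = j then (1 : k) else 0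
      | _ => 0) * (Matrix.of fun (i : Fin u) (j : Fin u ⊕ (Fin p ⊕ Fin u)) =>
      match j with
      | .inl a => if i = a then (1 : k) else 0
      | _ => 0) := by
    ext i j
    rw [Matrix.mul_apply]
    rcases i with i | i | i
    · refine (Finset.sum_eq_zero fun l _ => ?_).symm
      exact zero_mul _
    · refine (Finset.sum_eq_zero fun l _ => ?_).symm
      exact zero_mul _
    · rcases j with j | j
      · rw [Finset.sum_eq_single i]
        · simp [RX]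
        · intro l _ hl
          have : i ≠ l := fun e => hl e.symm
          simp [this]
        · simp
      · refine (Finset.sum_eq_zero fun l _ => ?_).symm
        exact mul_zero _
  refine le_antisymm ?_ ?_
  · rw [h1]
    exact (Matrix.rank_mul_le_left _ _).trans ((Matrix.rank_le_card_width _).trans
      (Fintype.card_fin u).le)
  · have h2 : (1 : Matrix (Fin u) (Fin u) k) = (RX k u p).submatrix (fun a => .inr (.inr a))
        (fun a => .inl a) := by
      ext i j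
      simp [RX, Matrix.one_apply]
    have h3 : (1 : Matrix (Fin u) (Fin u) k).rank ≤ (RX k u p).rank := by
      rw [h2]
      exact Matrix.rank_submatrix_le _ _ _
    rwa [Matrix.rank_one, Fintype.card_fin] at h3

end RX

section Final

variable {u p : ℕ} {ρ : ℕ → ℕ}

/-- the levels -/
def wL (u p : ℕ) : Fin (0 + 4) ⊕ (Fin u ⊕ (Fin p ⊕ Fin u)) → ℕ
  | .inl i => i
  | .inr (.inl _) => 1
  | .inr (.inr (.inl _)) => 1
  | .inr (.inr (.inr _)) => 2

/-- the theorem for the graded types `(1, m, n, 1)` -/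
def ClH (k : Type*) [Field k] (u p : ℕ) : Prop :=
  ∀ (T : Fin 3 → Matrix (Fin (0 + 4) ⊕ (Fin u ⊕ (Fin p ⊕ Fin u)))
      (Fin (0 + 4) ⊕ (Fin u ⊕ (Fin p ⊕ Fin u))) k), (∀ i j, T i * T j = T j * T i) →
    (∀ i x y, wL u p x ≤ wL u p y → T i x y = 0) →
    (∀ c : Fin 3 → k, (∀ x, wL u p x = 1 → ∑ i, c i * T i x (.inl 0) = 0) → c = 0) →
    (∀ c : Fin 3 → k, (∀ y, wL u p y = 2 → ∑ i, c i * T i (.inl 3) y = 0) → c = 0) → Cl T

theorem Ok.entry0 {G : Matrix (Fin u ⊕ (Fin p ⊕ Fin u)) (Fin u ⊕ (Fin p ⊕ Fin u)) k}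
    (h : Ok (RX k u p) G) (a : Fin u) (j : Fin u ⊕ (Fin p ⊕ Fin u)) : G (.inl a) j = 0 := by
  obtain ⟨K, hK⟩ := h.im
  have := RX_mulVec_inl (k := k) (p := p) (K.col j) a
  rw [hK, Matrix.mul_apply]
  exact this

theorem Ok.entry1 {G : Matrix (Fin u ⊕ (Fin p ⊕ Fin u)) (Fin u ⊕ (Fin p ⊕ Fin u)) k}
    (h : Ok (RX k u p) G) (a : Fin p) (j : Fin u ⊕ (Fin p ⊕ Fin u)) :
    G (.inr (.inl a)) j = 0 := by
  obtain ⟨K, hK⟩ := h.im
  have := RX_mulVec_mid (k := k) (u := u) (K.col j) a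
  rw [hK, Matrix.mul_apply]
  exact this

theorem Ok.entry2 {G : Matrix (Fin u ⊕ (Fin p ⊕ Fin u)) (Fin u ⊕ (Fin p ⊕ Fin u)) k}
    (h : Ok (RX k u p) G) (i : Fin u ⊕ (Fin p ⊕ Fin u)) (a : Fin u) :
    G i (.inr (.inr a)) = 0 := by
  have h1 := congrFun (congrFun h.gx i) (.inl a)
  rw [Matrix.mul_apply] at h1
  exact (RX_vecMul_inl (k := k) (p := p) (G.row i) a).symm.trans h1

theorem LX_low {G : Matrix (Fin u ⊕ (Fin p ⊕ Fin u)) (Fin u ⊕ (Fin p ⊕ Fin u)) k}
    (h : Ok (RX k u p) G) (a b : Fin u ⊕ (Fin p ⊕ Fin u) → k)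
    (x y : Fin (0 + 4) ⊕ (Fin u ⊕ (Fin p ⊕ Fin u))) (hxy : wL u p x ≤ wL u p y) :
    LX 0 (RX k u p) G a b x y = 0 := by
  rcases x with i | r <;> rcases y with j | s
  · rfl
  · show ev k (0 + 4) (0 + 2) i * (b ᵥ* RX k u p) s + ev k (0 + 4) (0 + 3) i * b s = 0
    have h3 : ev k (0 + 4) (0 + 3) i = 0 := by
      rw [ev, if_neg]
      intro e
      rcases s with s | s | s <;> simp only [wL] at hxy <;> omega
    rw [h3, zero_mul, add_zero]
    rcases s with s | s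
    · have h2 : ev k (0 + 4) (0 + 2) i = 0 := by
        rw [ev, if_neg]
        intro e
        simp only [wL] at hxy
        omega
      rw [h2, zero_mul]
    · rw [RX_vecMul_inr, mul_zero]
  · show a r * ev k (0 + 4) 0 j + (RX k u p *ᵥ a) r * ev k (0 + 4) 1 j = 0
    have h3 : ev k (0 + 4) 0 j = 0 := by
      rw [ev, if_neg]
      intro e
      rcases r with r | r | r <;> simp only [wL] at hxy <;> omega
    rw [h3, mul_zero, zero_add]
    rcases r with r | r | r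
    · rw [RX_mulVec_inl, zero_mul]
    · rw [RX_mulVec_mid, zero_mul]
    · have h2 : ev k (0 + 4) 1 j = 0 := by
        rw [ev, if_neg]
        intro e
        simp only [wL] at hxy
        omega
      rw [h2, mul_zero]
  · show G r s = 0
    rcases r with r | r | r
    · exact h.entry0 r s
    · exact h.entry1 r s
    · rcases s with s | s | s
      · simp only [wL] at hxy
        omega
      · simp only [wL] at hxy
        omega
      · exact h.entry2 _ s

theorem LA_low (x y : Fin (0 + 4) ⊕ (Fin u ⊕ (Fin p ⊕ Fin u)))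
    (hxy : wL u p x ≤ wL u p y) : LA 0 (RX k u p) x y = 0 := by
  rcases x with i | r <;> rcases y with j | s
  · show ShF k (0 + 4) i j = 0
    rw [ShF, Matrix.of_apply, if_neg]
    simp only [wL] at hxy
    omega
  · rfl
  · rfl
  · show RX k u p r s = 0
    rcases r with r | r | r
    · rfl
    · rfl
    · rcases s with s | s | s
      · simp only [wL] at hxy
        omega
      · rfl
      · rfl

theorem cl_final (H : ClH k u p)
    {G G' : Matrix (Fin u ⊕ (Fin p ⊕ Fin u)) (Fin u ⊕ (Fin p ⊕ Fin u)) k}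
    {a b a' b' : Fin u ⊕ (Fin p ⊕ Fin u) → k}
    (hG : Ok (RX k u p) G) (hG' : Ok (RX k u p) G')
    (hc : ∀ i j, (![LA 0 (RX k u p), LX 0 (RX k u p) G a b, LX 0 (RX k u p) G' a' b'] : Fin 3 →
      Matrix _ _ k) i * (![LA 0 (RX k u p), LX 0 (RX k u p) G a b, LX 0 (RX k u p) G' a' b'] :
      Fin 3 → Matrix _ _ k) j = (![LA 0 (RX k u p), LX 0 (RX k u p) G a b,
      LX 0 (RX k u p) G' a' b'] : Fin 3 → Matrix _ _ k) j * (![LA 0 (RX k u p),
      LX 0 (RX k u p) G a b, LX 0 (RX k u p) G' a' b'] : Fin 3 → Matrix _ _ k) i)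
    (h1 : ∀ c c' : k, ∀ w, c • a + c' • a' = RX k u p *ᵥ w → c = 0 ∧ c' = 0)
    (h2 : ∀ c c' : k, c • (b ᵥ* RX k u p) + c' • (b' ᵥ* RX k u p) = 0 → c = 0 ∧ c' = 0) :
    Cl ![LA 0 (RX k u p), LX 0 (RX k u p) G a b, LX 0 (RX k u p) G' a' b'] := by
  refine H _ hc ?_ ?_ ?_
  · intro i x y hxy
    fin_cases i
    · exact LA_low x y hxy
    · exact LX_low hG a b x y hxy
    · exact LX_low hG' a' b' x y hxy
  · intro c h
    have e0 : c 0 = 0 := by
      have := h (.inl 1) rfl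
      rw [Fin.sum_univ_three] at this
      simpa [LA, LX, ShF] using this
    have e1 : ∀ r, wL u p (.inr r) = 1 → c 1 * a r + c 2 * a' r = 0 := by
      intro r hr
      have := h (.inr r) hr
      rw [Fin.sum_univ_three] at this
      have t0 : (![LA 0 (RX k u p), LX 0 (RX k u p) G a b, LX 0 (RX k u p) G' a' b'] : Fin 3 →
          Matrix _ _ k) 0 (.inr r) (.inl 0) = 0 := rfl
      have t1 : (![LA 0 (RX k u p), LX 0 (RX k u p) G a b, LX 0 (RX k u p) G' a' b'] : Fin 3 →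
          Matrix _ _ k) 1 (.inr r) (.inl 0) = a r := by
        show a r * ev k (0 + 4) 0 0 + (RX k u p *ᵥ a) r * ev k (0 + 4) 1 0 = a r
        simp [ev]
      have t2 : (![LA 0 (RX k u p), LX 0 (RX k u p) G a b, LX 0 (RX k u p) G' a' b'] : Fin 3 →
          Matrix _ _ k) 2 (.inr r) (.inl 0) = a' r := by
        show a' r * ev k (0 + 4) 0 0 + (RX k u p *ᵥ a') r * ev k (0 + 4) 1 0 = a' r
        simp [ev]
      rw [t0, t1, t2, mul_zero, zero_add] at this
      exact this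
    obtain ⟨f1, f2⟩ := h1 (c 1) (c 2) (fun r => match r with
      | .inl i => c 1 * a (.inr (.inr i)) + c 2 * a' (.inr (.inr i))
      | _ => 0) (by
        funext r
        rcases r with r | r | r
        · rw [RX_mulVec_inl]
          exact e1 _ rfl
        · rw [RX_mulVec_mid]
          exact e1 _ rfl
        · rw [RX_mulVec_inr]
          rfl)
    funext i
    fin_cases i
    exacts [e0, f1, f2]
  · intro c h
    have e0 : c 0 = 0 := by
      have := h (.inl 2) rfl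
      rw [Fin.sum_univ_three] at this
      have t0 : (![LA 0 (RX k u p), LX 0 (RX k u p) G a b, LX 0 (RX k u p) G' a' b'] : Fin 3 →
          Matrix _ _ k) 0 (.inl 3) (.inl 2) = 1 := by
        show ShF k (0 + 4) 3 2 = 1
        rfl
      have t1 : (![LA 0 (RX k u p), LX 0 (RX k u p) G a b, LX 0 (RX k u p) G' a' b'] : Fin 3 →
          Matrix _ _ k) 1 (.inl 3) (.inl 2) = 0 := rfl
      have t2 : (![LA 0 (RX k u p), LX 0 (RX k u p) G a b, LX 0 (RX k u p) G' a' b'] : Fin 3 →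
          Matrix _ _ k) 2 (.inl 3) (.inl 2) = 0 := rfl
      rw [t0, t1, t2, mul_zero, mul_zero, mul_one, add_zero, add_zero] at this
      exact this
    have e1 : ∀ r, wL u p (.inr r) = 2 → c 1 * b r + c 2 * b' r = 0 := by
      intro r hr
      have := h (.inr r) hr
      rw [Fin.sum_univ_three] at this
      have t0 : (![LA 0 (RX k u p), LX 0 (RX k u p) G a b, LX 0 (RX k u p) G' a' b'] : Fin 3 →
          Matrix _ _ k) 0 (.inl 3) (.inr r) = 0 := rfl
      have t1 : (![LA 0 (RX k u p), LX 0 (RX k u p) G a b, LX 0 (RX k u p) G' a' b'] : Fin 3 →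
          Matrix _ _ k) 1 (.inl 3) (.inr r) = b r := by
        show ev k (0 + 4) (0 + 2) 3 * (b ᵥ* RX k u p) r + ev k (0 + 4) (0 + 3) 3 * b r = b r
        simp [ev]
      have t2 : (![LA 0 (RX k u p), LX 0 (RX k u p) G a b, LX 0 (RX k u p) G' a' b'] : Fin 3 →
          Matrix _ _ k) 2 (.inl 3) (.inr r) = b' r := by
        show ev k (0 + 4) (0 + 2) 3 * (b' ᵥ* RX k u p) r + ev k (0 + 4) (0 + 3) 3 * b' r = b' r
        simp [ev]
      rw [t0, t1, t2, mul_zero, zero_add] at this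
      exact this
    obtain ⟨f1, f2⟩ := h2 (c 1) (c 2) (by
        funext r
        show c 1 * (b ᵥ* RX k u p) r + c 2 * (b' ᵥ* RX k u p) r = 0
        rcases r with r | r
        · rw [RX_vecMul_inl, RX_vecMul_inl]
          exact e1 _ rfl
        · rw [RX_vecMul_inr, RX_vecMul_inr, mul_zero, mul_zero, add_zero])
    funext i
    fin_cases i
    exacts [e0, f1, f2]

end Final

section Dual

variable {ι : Type*} [Fintype ι] [DecidableEq ι] {m : ℕ} {x G G' : Matrix ι ι k}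
  {a b a' b' : ι → k} {ρ : ℕ → ℕ}

theorem reindex_LA (σ : ι ≃ ι) (hσ : ∀ r s, x (σ s) (σ r) = x r s) :
    Matrix.reindexAlgEquiv k k (Equiv.sumCongr Fin.revPerm σ.symm) (LA m x)ᵀ = LA m x := by
  ext i j
  show LA m x ((Equiv.sumCongr Fin.revPerm σ.symm).symm j)
    ((Equiv.sumCongr Fin.revPerm σ.symm).symm i) = _
  rcases i with i | r <;> rcases j with j | s
  · show ShF k (m + 4) (Fin.rev j) (Fin.rev i) = ShF k (m + 4) i j
    rw [ShF, Matrix.of_apply, Matrix.of_apply]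
    have h1 : ((Fin.rev j : ℕ) = (Fin.rev i : ℕ) + 1) ↔ ((i : ℕ) = (j : ℕ) + 1) := by
      rw [Fin.val_rev, Fin.val_rev]
      omega
    simp only [h1]
  · rfl
  · rfl
  · exact hσ r s

theorem ev_rev (n j : ℕ) (hj : j < n) (i : Fin n) : ev k n j (Fin.rev i) = ev k n (n - 1 - j) i := by
  rw [ev, ev]
  have h1 : ((Fin.rev i : ℕ) = j) ↔ ((i : ℕ) = n - 1 - j) := by
    rw [Fin.val_rev]
    omega
  simp only [h1]

theorem reindex_LX (σ : ι ≃ ι) (hσ : ∀ r s, x (σ s) (σ r) = x r s) (G : Matrix ι ι k)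
    (a b : ι → k) :
    Matrix.reindexAlgEquiv k k (Equiv.sumCongr Fin.revPerm σ.symm) (LX m x G a b)ᵀ =
      LX m x (Gᵀ.submatrix σ σ) (b ∘ σ) (a ∘ σ) := by
  ext i j
  show LX m x G a b ((Equiv.sumCongr Fin.revPerm σ.symm).symm j)
    ((Equiv.sumCongr Fin.revPerm σ.symm).symm i) = _
  rcases i with i | r <;> rcases j with j | s
  · rfl
  · show a (σ s) * ev k (m + 4) 0 (Fin.rev i) + (x *ᵥ a) (σ s) * ev k (m + 4) 1 (Fin.rev i) =
      ev k (m + 4) (m + 2) i * ((a ∘ σ) ᵥ* x) s + ev k (m + 4) (m + 3) i * a (σ s)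
    rw [ev_rev _ _ (by omega), ev_rev _ _ (by omega)]
    have h1 : (x *ᵥ a) (σ s) = ((a ∘ σ) ᵥ* x) s := by
      rw [mulVec, vecMul, dotProduct, dotProduct, ← Equiv.sum_comp σ]
      refine Finset.sum_congr rfl fun t _ => ?_
      rw [hσ, mul_comm]
      rfl
    rw [h1]
    show a (σ s) * ev k (m + 4) (m + 3) i + ((a ∘ σ) ᵥ* x) s * ev k (m + 4) (m + 2) i = _
    ring
  · show ev k (m + 4) (m + 2) (Fin.rev j) * (b ᵥ* x) (σ r) + ev k (m + 4) (m + 3) (Fin.rev j) *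
      b (σ r) = b (σ r) * ev k (m + 4) 0 j + (x *ᵥ (b ∘ σ)) r * ev k (m + 4) 1 j
    rw [ev_rev _ _ (by omega), ev_rev _ _ (by omega)]
    have h1 : (b ᵥ* x) (σ r) = (x *ᵥ (b ∘ σ)) r := by
      rw [mulVec, vecMul, dotProduct, dotProduct, ← Equiv.sum_comp σ]
      refine Finset.sum_congr rfl fun t _ => ?_
      rw [hσ, mul_comm]
      rfl
    rw [h1]
    have e1 : m + 4 - 1 - (m + 2) = 1 := by omega
    have e2 : m + 4 - 1 - (m + 3) = 0 := by omega
    rw [e1, e2]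
    ring
  · rfl

/-- duality -/
theorem dual_perm [Infinite k] (σ : ι ≃ ι) (hσ : ∀ r s, x (σ s) (σ r) = x r s)
    (hT : MaxR ρ ![LA m x, LX m x G a b, LX m x G' a' b']) :
    MaxR ρ ![LA m x, LX m x (Gᵀ.submatrix σ σ) (b ∘ σ) (a ∘ σ),
      LX m x (G'ᵀ.submatrix σ σ) (b' ∘ σ) (a' ∘ σ)] := by
  have h1 := D9.MaxR.reindex (Equiv.sumCongr Fin.revPerm σ.symm) hT.transpose
  have h2 : (fun i => Matrix.reindexAlgEquiv k k (Equiv.sumCongr Fin.revPerm σ.symm)
      ((![LA m x, LX m x G a b, LX m x G' a' b'] : Fin 3 → Matrix _ _ k) i)ᵀ) =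
      ![LA m x, LX m x (Gᵀ.submatrix σ σ) (b ∘ σ) (a ∘ σ),
      LX m x (G'ᵀ.submatrix σ σ) (b' ∘ σ) (a' ∘ σ)] := by
    funext i
    fin_cases i
    · exact reindex_LA σ hσ
    · exact reindex_LX σ hσ G a b
    · exact reindex_LX σ hσ G' a' b'
  rwa [h2] at h1

end Dual

section Rows

variable {u p : ℕ} {ρ : ℕ → ℕ}

/-- the case `G, G'` with image in `im x` -/
theorem no_ok [Infinite k] (H : ClH k u p) (hu : 3 ≤ u) (hp : p + 2 ≤ u)
    {G G' : Matrix (Fin u ⊕ (Fin p ⊕ Fin u)) (Fin u ⊕ (Fin p ⊕ Fin u)) k}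
    {a b a' b' : Fin u ⊕ (Fin p ⊕ Fin u) → k}
    (hT : MaxR ρ ![LA 0 (RX k u p), LX 0 (RX k u p) G a b, LX 0 (RX k u p) G' a' b'])
    (hG : Ok (RX k u p) G) (hG' : Ok (RX k u p) G') : False := by
  obtain ⟨G1, G1', a1, b1, a1', b1', hG1, hG1', hT1, h1, h2⟩ := indep RX_sq hT hG hG' RX_rank
    (by simp only [Fintype.card_sum, Fintype.card_fin]; omega) hu hp
  exact hT1.ncl (cl_final H hG1 hG1' hT1.cn.1 h1 h2)

/-- the types `(4, 2^u)` -/
theorem no_even [CharZero k] (H : ClH k u 0) (hu : 3 ≤ u)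
    {T : Fin 3 → Matrix (Fin (0 + 4) ⊕ (Fin u ⊕ (Fin 0 ⊕ Fin u)))
      (Fin (0 + 4) ⊕ (Fin u ⊕ (Fin 0 ⊕ Fin u))) k}
    (hT : MaxR ρ T) (hρ : ∀ i, ρ i = (LA 0 (RX k u 0) ^ i).rank) (h0 : T 0 = LA 0 (RX k u 0)) :
    False := by
  obtain ⟨G, G', a, b, a', b', hM, h1, h2, h3, h4, -⟩ := shape hT (by rwa [h0]) h0 RX_sq
  have hc : Fintype.card (Fin u ⊕ (Fin 0 ⊕ Fin u)) = u + u := by
    simp only [Fintype.card_sum, Fintype.card_fin]
    omega
  exact no_ok H hu (by omega) hM (ok_of_even RX_sq RX_rank hc h1 h2)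
    (ok_of_even RX_sq RX_rank hc h3 h4)

/-- exchange of the tops and the bottoms -/
def swp (u p : ℕ) : (Fin u ⊕ (Fin p ⊕ Fin u)) ≃ (Fin u ⊕ (Fin p ⊕ Fin u)) where
  toFun := fun r => match r with
    | .inl i => .inr (.inr i)
    | .inr (.inl j) => .inr (.inl j)
    | .inr (.inr i) => .inl i
  invFun := fun r => match r with
    | .inl i => .inr (.inr i)
    | .inr (.inl j) => .inr (.inl j)
    | .inr (.inr i) => .inl i
  left_inv := by
    rintro (r | r | r) <;> rfl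
  right_inv := by
    rintro (r | r | r) <;> rfl

theorem swp_RX (r s : Fin u ⊕ (Fin p ⊕ Fin u)) :
    RX k u p (swp u p s) (swp u p r) = RX k u p r s := by
  rcases r with r | r | r <;> rcases s with s | s | s
  · rfl
  · rfl
  · rfl
  · rfl
  · rfl
  · rfl
  · show (if s = r then (1 : k) else 0) = if r = s then 1 else 0
    simp only [eq_comm]
  · rfl
  · rfl

/-- entries of a matrix `G` with `x G = 0` -/
theorem entry_xg {G : Matrix (Fin u ⊕ (Fin p ⊕ Fin u)) (Fin u ⊕ (Fin p ⊕ Fin u)) k}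
    (h : RX k u p * G = 0) (a : Fin u) (j : Fin u ⊕ (Fin p ⊕ Fin u)) : G (.inl a) j = 0 := by
  have h1 := congrFun (congrFun h (.inr (.inr a))) j
  rw [Matrix.mul_apply] at h1
  exact (RX_mulVec_inr (k := k) (p := p) (G.col j) a).symm.trans h1

/-- entries of a matrix `G` with `G x = 0` -/
theorem entry_gx {G : Matrix (Fin u ⊕ (Fin p ⊕ Fin u)) (Fin u ⊕ (Fin p ⊕ Fin u)) k}
    (h : G * RX k u p = 0) (i : Fin u ⊕ (Fin p ⊕ Fin u)) (a : Fin u) :
    G i (.inr (.inr a)) = 0 := by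
  have h1 := congrFun (congrFun h i) (.inl a)
  rw [Matrix.mul_apply] at h1
  exact (RX_vecMul_inl (k := k) (p := p) (G.row i) a).symm.trans h1

theorem ok_of_entries {G : Matrix (Fin u ⊕ (Fin p ⊕ Fin u)) (Fin u ⊕ (Fin p ⊕ Fin u)) k}
    (h : ∀ a j, G (.inl a) j = 0) (h' : ∀ a j, G (.inr (.inl a)) j = 0)
    (h2 : ∀ i a, G i (.inr (.inr a)) = 0) : Ok (RX k u p) G := by
  refine ⟨?_, Matrix.of fun i j => match i with
    | .inl a => G (.inr (.inr a)) j
    | _ => 0, ?_⟩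
  · ext i j
    rw [Matrix.mul_apply]
    refine Finset.sum_eq_zero fun l _ => ?_
    rcases l with l | l | l
    · exact mul_zero _
    · exact mul_zero _
    · rw [h2, zero_mul]
  · ext i j
    rw [Matrix.mul_apply]
    rcases i with i | i | i
    · rw [h]
      refine (Finset.sum_eq_zero fun l _ => ?_).symm
      exact zero_mul _
    · rw [h']
      refine (Finset.sum_eq_zero fun l _ => ?_).symm
      exact zero_mul _
    · exact (RX_mulVec_inr (k := k) (p := p) (fun l => match l with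
        | .inl a => G (.inr (.inr a)) j
        | _ => 0) i).symm

/-- the types `(4, 2^u, 1)` -/
theorem no_odd [CharZero k] (H : ClH k u 1) (hu : 3 ≤ u)
    {T : Fin 3 → Matrix (Fin (0 + 4) ⊕ (Fin u ⊕ (Fin 1 ⊕ Fin u)))
      (Fin (0 + 4) ⊕ (Fin u ⊕ (Fin 1 ⊕ Fin u))) k}
    (hT : MaxR ρ T) (hρ : ∀ i, ρ i = (LA 0 (RX k u 1) ^ i).rank) (h0 : T 0 = LA 0 (RX k u 1)) :
    False := by
  obtain ⟨G, G', a, b, a', b', hM, h1, h2, h3, h4, h5, h6, h7, h8⟩ :=
    shape hT (by rwa [h0]) h0 RX_sq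
  -- products of entries
  have key : ∀ {F F' : Matrix (Fin u ⊕ (Fin 1 ⊕ Fin u)) (Fin u ⊕ (Fin 1 ⊕ Fin u)) k},
      RX k u 1 * F' = 0 → F * RX k u 1 = 0 → F * F' = 0 → ∀ i j,
      F i (.inr (.inl 0)) * F' (.inr (.inl 0)) j = 0 := by
    intro F F' e1 e2 e3 i j
    have h := congrFun (congrFun e3 i) j
    rw [Matrix.mul_apply, Fintype.sum_sum_type, Fintype.sum_sum_type, Fin.sum_univ_one,
      Finset.sum_eq_zero (fun l _ => by rw [entry_xg e1, mul_zero]),
      Finset.sum_eq_zero (s := Finset.univ) (f := fun l : Fin u => F i (.inr (.inr l)) *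
        F' (.inr (.inr l)) j) (fun l _ => by rw [entry_gx e2, zero_mul]), zero_add,
      add_zero] at h
    exact h
  by_cases hc : (∀ j, G (.inr (.inl 0)) j = 0) ∧ ∀ j, G' (.inr (.inl 0)) j = 0
  · refine no_ok H hu (by omega) hM (ok_of_entries (entry_xg h1) (fun c j => ?_) (entry_gx h2))
      (ok_of_entries (entry_xg h3) (fun c j => ?_) (entry_gx h4))
    · rw [Subsingleton.elim c 0]
      exact hc.1 j
    · rw [Subsingleton.elim c 0]
      exact hc.2 j
  · have hz : (∀ i, G i (.inr (.inl 0)) = 0) ∧ ∀ i, G' i (.inr (.inl 0)) = 0 := by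
      by_cases hj : ∃ j, G (.inr (.inl 0)) j ≠ 0
      · obtain ⟨j, hj⟩ := hj
        exact ⟨fun i => (mul_eq_zero.1 (key h1 h2 h5 i j)).resolve_right hj,
          fun i => (mul_eq_zero.1 (key h1 h4 h7 i j)).resolve_right hj⟩
      · have hj' : ∃ j, G' (.inr (.inl 0)) j ≠ 0 := by
          by_contra hn
          push Not at hj hn
          exact hc ⟨hj, hn⟩
        obtain ⟨j, hj'⟩ := hj'
        exact ⟨fun i => (mul_eq_zero.1 (key h3 h2 h6 i j)).resolve_right hj',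
          fun i => (mul_eq_zero.1 (key h3 h4 h8 i j)).resolve_right hj'⟩
    refine no_ok H hu (by omega) (dual_perm (swp u 1) swp_RX hM)
      (ok_of_entries (fun c j => ?_) (fun c j => ?_) fun i c => ?_)
      (ok_of_entries (fun c j => ?_) (fun c j => ?_) fun i c => ?_)
    · exact entry_gx h2 _ _
    · rw [Subsingleton.elim c 0]
      exact hz.1 _
    · exact entry_xg h1 _ _
    · exact entry_gx h4 _ _
    · rw [Subsingleton.elim c 0]
      exact hz.2 _
    · exact entry_xg h3 _ _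

end Rows

theorem clH_30 [CharZero k] : ClH k 3 0 := fun T hT hlow hu hf =>
  cl_1441 (wL 3 0) (by decide) (by decide) T hT hlow (.inl 0) (.inl 3) rfl rfl hu hf

theorem clH_31 [CharZero k] : ClH k 3 1 := fun T hT hlow hu hf =>
  cl_1541 (wL 3 1) (by decide) (by decide) T hT hlow (.inl 0) (.inl 3) rfl rfl hu hf

theorem clH_40 [CharZero k] : ClH k 4 0 := fun T hT hlow hu hf =>
  cl_1551 (wL 4 0) (by decide) (by decide) T hT hlow (.inl 0) (.inl 3) rfl rfl hu hf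

/-- the entries of `LA 0 (RX k u p)` -/
def LAb (u p : ℕ) : Fin (0 + 4) ⊕ (Fin u ⊕ (Fin p ⊕ Fin u)) →
    Fin (0 + 4) ⊕ (Fin u ⊕ (Fin p ⊕ Fin u)) → Bool
  | .inl i, .inl j => decide ((i : ℕ) = (j : ℕ) + 1)
  | .inr (.inr (.inr a)), .inr (.inl b) => decide (a = b)
  | _, _ => false

theorem LA_entry (u p : ℕ) (i j : Fin (0 + 4) ⊕ (Fin u ⊕ (Fin p ⊕ Fin u)))
    (C : Fin (0 + 4) ⊕ (Fin u ⊕ (Fin p ⊕ Fin u)) → Fin (0 + 4) ⊕ (Fin u ⊕ (Fin p ⊕ Fin u)) → Prop)
    [∀ i j, Decidable (C i j)] (h : ∀ i j, C i j ↔ LAb u p i j = true) :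
    LA 0 (RX k u p) i j = if C i j then 1 else 0 := by
  rcases i with i | i | i | i <;> rcases j with j | j | j | j <;>
    simp only [h, LAb, LA, RX, ShF, fromBlocks_apply₁₁, fromBlocks_apply₁₂, fromBlocks_apply₂₁,
      fromBlocks_apply₂₂, Matrix.of_apply, Matrix.zero_apply, decide_eq_true_eq,
      Bool.false_eq_true, if_false]

end L2

open L2

/-- the box of a basis vector -/
def tau4222 : Fin (0 + 4) ⊕ (Fin 3 ⊕ (Fin 0 ⊕ Fin 3)) → IxL [4, 2, 2, 2]
  | .inl i => ⟨0, i⟩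
  | .inr (.inl a) => ⟨a.succ, ⟨0, by fin_cases a <;> exact Nat.zero_lt_two⟩⟩
  | .inr (.inr (.inr a)) => ⟨a.succ, ⟨1, by fin_cases a <;> exact Nat.one_lt_two⟩⟩

/-- the box of a basis vector -/
def tau42222 : Fin (0 + 4) ⊕ (Fin 4 ⊕ (Fin 0 ⊕ Fin 4)) → IxL [4, 2, 2, 2, 2]
  | .inl i => ⟨0, i⟩
  | .inr (.inl a) => ⟨a.succ, ⟨0, by fin_cases a <;> exact Nat.zero_lt_two⟩⟩
  | .inr (.inr (.inr a)) => ⟨a.succ, ⟨1, by fin_cases a <;> exact Nat.one_lt_two⟩⟩

/-- the box of a basis vector -/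
def tau42221 : Fin (0 + 4) ⊕ (Fin 3 ⊕ (Fin 1 ⊕ Fin 3)) → IxL [4, 2, 2, 2, 1]
  | .inl i => ⟨0, i⟩
  | .inr (.inl a) => ⟨a.succ.castSucc, ⟨0, by fin_cases a <;> exact Nat.zero_lt_two⟩⟩
  | .inr (.inr (.inl _)) => ⟨4, ⟨0, Nat.one_pos⟩⟩
  | .inr (.inr (.inr a)) => ⟨a.succ.castSucc, ⟨1, by fin_cases a <;> exact Nat.one_lt_two⟩⟩

variable [IsAlgClosed k] [CharZero k]

/-- **the type (4, 2, 2, 2)** -/
theorem not_bad_4222 : ¬ Bad k [4, 2, 2, 2] := by
  refine not_bad_of (LA 0 (RX k 3 0)) tau4222 (by decide) (by decide) (fun i j => ?_)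
    fun ρ T hT hρ h0 => no_even clH_30 le_rfl hT hρ h0
  exact LA_entry 3 0 i j (fun i j => (tau4222 i).1 = (tau4222 j).1 ∧
    ((tau4222 i).2 : ℕ) = (tau4222 j).2 + 1) (by decide)

/-- **the type (4, 2, 2, 2, 1)** -/
theorem not_bad_42221 : ¬ Bad k [4, 2, 2, 2, 1] := by
  refine not_bad_of (LA 0 (RX k 3 1)) tau42221 (by decide) (by decide) (fun i j => ?_)
    fun ρ T hT hρ h0 => no_odd clH_31 le_rfl hT hρ h0
  exact LA_entry 3 1 i j (fun i j => (tau42221 i).1 = (tau42221 j).1 ∧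
    ((tau42221 i).2 : ℕ) = (tau42221 j).2 + 1) (by decide)

/-- **the type (4, 2, 2, 2, 2)** -/
theorem not_bad_42222 : ¬ Bad k [4, 2, 2, 2, 2] := by
  refine not_bad_of (LA 0 (RX k 4 0)) tau42222 (by decide) (by decide) (fun i j => ?_)
    fun ρ T hT hρ h0 => no_even clH_40 (by norm_num) hT hρ h0
  exact LA_entry 4 0 i j (fun i j => (tau42222 i).1 = (tau42222 j).1 ∧
    ((tau42222 i).2 : ℕ) = (tau42222 j).2 + 1) (by decide)

end Pool.Agent.Lib.D13
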