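import Pool.Agent.Lib.D13.L2Raise
import Pool.Agent.Lib.D13.Cons

/-!
# MP_5dcbc3_ag: the types (l, 2^u, 1^p), l >= 4, u >= 1, p >= 2 are excluded
-/

namespace Pool.Agent.Lib.D13

open Matrix Module Pool.Agent.Lib.Q5dc Pool.Agent.Lib.D7

variable {k : Type*} [Field k]

/-- the rank of a Jordan matrix -/
theorem rank_JU_add_le {t : List ℕ} (h0 : ∀ a ∈ t, 0 < a) :
    (JU k t).rank + t.length ≤ t.sum := by
  classical
  let Z : Matrix (Fin t.length) (IxL t) k :=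
    Matrix.of fun a x => if a = x.1 ∧ (x.2 : ℕ) = 0 then 1 else 0
  have h1 : Z * JU k t = 0 := by
    ext a z
    rw [Matrix.mul_apply]
    refine Finset.sum_eq_zero fun y _ => ?_
    by_cases h : a = y.1 ∧ (y.2 : ℕ) = 0
    · have : ¬ (y.1 = z.1 ∧ (y.2 : ℕ) = z.2 + 1) := fun h' => by omega
      rw [JU, Matrix.of_apply, if_neg this, mul_zero]
    · rw [show Z a y = 0 from if_neg h, zero_mul]
  have h2 : Z * Zᵀ = 1 := by
    ext a b
    rw [Matrix.mul_apply, Finset.sum_eq_single ⟨a, ⟨0, h0 _ (List.get_mem t a)⟩⟩]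
    · rw [Matrix.transpose_apply, Matrix.one_apply]
      by_cases h : a = b
      · subst h
        simp [Z]
      · have h' : ¬ b = a := fun e => h e.symm
        simp [Z, h, h']
    · rintro ⟨c, i⟩ _ hne
      have : Z a ⟨c, i⟩ = 0 := by
        refine if_neg ?_
        rintro ⟨h3, h4⟩
        apply hne
        dsimp only at h3 h4
        subst h3
        congr
        exact Fin.ext h4
      rw [this, zero_mul]
    · simp
  have h3 := Matrix.rank_add_rank_le_card_of_mul_eq_zero h1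
  have h4 : t.length ≤ Z.rank := by
    have := Matrix.rank_mul_le_left Z Zᵀ
    rw [h2, Matrix.rank_one, Fintype.card_fin] at this
    exact this
  rw [card_IxL] at h3
  omega

theorem JU_sq {t : List ℕ} (h2 : ∀ a ∈ t, a ≤ 2) : JU k t * JU k t = 0 := by
  ext x z
  rw [Matrix.mul_apply]
  refine Finset.sum_eq_zero fun y _ => ?_
  by_cases h : x.1 = y.1 ∧ (x.2 : ℕ) = y.2 + 1
  · have h3 : ¬ (y.1 = z.1 ∧ (y.2 : ℕ) = z.2 + 1) := fun h' => by
      have h4 := x.2.2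
      have h5 := h2 _ (List.get_mem t x.1)
      omega
    rw [JU, Matrix.of_apply, Matrix.of_apply, if_neg h3, mul_zero]
  · rw [JU, Matrix.of_apply, if_neg h, zero_mul]

theorem JU_ne_zero {t : List ℕ} (h : 2 ∈ t) : JU k t ≠ 0 := by
  obtain ⟨a, ha⟩ := List.get_of_mem h
  intro h0
  have h1 := congrFun (congrFun h0 ⟨a, ⟨1, by omega⟩⟩) ⟨a, ⟨0, by omega⟩⟩
  simp [JU] at h1

/-- the types `(l, 2^u, 1^p)` with `l >= 4`, `u >= 1`, `p >= 2` -/
theorem not_bad_l2 [CharZero k] {l : ℕ} {t : List ℕ} (hl : 4 ≤ l) (h0 : ∀ a ∈ t, 0 < a)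
    (h2 : ∀ a ∈ t, a ≤ 2) (h : 2 ∈ t) (hc : t.sum + 2 ≤ 2 * t.length) : ¬ Bad k (l :: t) := by
  intro hb
  obtain ⟨m, rfl⟩ : ∃ m, l = m + 4 := ⟨l - 4, by omega⟩
  obtain ⟨ρ, T, hT, hρ, hT0⟩ := hb.cons
  have h3 : T 0 = LA m (JU k t) := hT0
  refine L2.no_two hT (fun i => by rw [hρ, hT0]) h3 (JU_sq h2) (JU_ne_zero h) ?_
  have h4 := rank_JU_add_le (k := k) h0
  rw [card_IxL]
  omega

end Pool.Agent.Lib.D13
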