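import Pool.Agent.Lib.D13.L32K2A

/-!
# MP_5dcbc3_ag: a cyclic module with three axes of lengths `3`, `3`, `m + 4`, general form
-/

namespace Pool.Agent.Lib.D13

open Matrix Polynomial Pool.Agent.Lib.Q5dc Pool.Agent.Lib.D7 Pool.Agent.Lib.D8 Pool.Agent.Lib.D9

variable {k : Type*} [Field k]

namespace Ax33

section ring

variable {R : Type*} [CommRing R] {a b c B1 B2 q1 q2 d1 h0 h1 f0 f1 g1 H0 H1 F0 F1 G1 t iq iG σ : R}
  {m : ℕ}

theorem n4 (s1 : b * b = q1 * (a * b) + q2 * (a ^ 2 * b) + B1 * a ^ (m + 3) + B2 * a ^ (m + 4))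
    (hq : iq * q1 = 1) :
    (iq * b) * (iq * b) = a * (iq * b) + iq ^ 2 * B1 * a ^ (m + 3) + iq ^ 2 * B2 * a ^ (m + 4) +
      iq * q2 * (a ^ 2 * (iq * b)) := by
  linear_combination iq ^ 2 * s1 + iq * a * b * hq

theorem n5 (s1 : b * b = q1 * (a * b) + q2 * (a ^ 2 * b) + B1 * a ^ (m + 3) + B2 * a ^ (m + 4))
    (s2 : b * c = f0 * (a * b) + f1 * (a ^ 2 * b) + h0 * a ^ (m + 3) + h1 * a ^ (m + 4))
    (c1 : f0 = σ * q1) (c2 : h0 = σ * B1) :
    (iq * b) * (iG * (c - σ * b)) = iq * iG * (h1 - σ * B2) * a ^ (m + 4) +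
      iG * (f1 - σ * q2) * (a ^ 2 * (iq * b)) := by
  linear_combination iq * iG * s2 - iq * iG * σ * s1 + iq * iG * a * b * c1 +
    iq * iG * a ^ (m + 3) * c2

theorem n6 (s1 : b * b = q1 * (a * b) + q2 * (a ^ 2 * b) + B1 * a ^ (m + 3) + B2 * a ^ (m + 4))
    (s2 : b * c = f0 * (a * b) + f1 * (a ^ 2 * b) + h0 * a ^ (m + 3) + h1 * a ^ (m + 4))
    (s3 : c * c = F0 * (a * b) + F1 * (a ^ 2 * b) + G1 * (a * c) + H0 * a ^ (m + 3) +
      H1 * a ^ (m + 4))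
    (c1 : f0 = σ * q1) (c2 : h0 = σ * B1) (c3 : F0 = σ * (f0 - G1)) (hq : iq * q1 = 1)
    (hG : iG * G1 = 1) :
    (iG * (c - σ * b)) * (iG * (c - σ * b)) = a * (iG * (c - σ * b)) +
      iG ^ 2 * (H0 - σ * h0) * a ^ (m + 3) + iG ^ 2 * (H1 - 2 * σ * h1 + σ ^ 2 * B2) * a ^ (m + 4) +
      iG ^ 2 * q1 * (F1 - 2 * σ * f1 + σ ^ 2 * q2) * (a ^ 2 * (iq * b)) := by
  linear_combination iG ^ 2 * s3 - 2 * iG ^ 2 * σ * s2 + iG ^ 2 * σ ^ 2 * s1 -
    iG ^ 2 * σ * a * b * c1 - iG ^ 2 * σ * a ^ (m + 3) * c2 + iG ^ 2 * a * b * c3 +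
    (iG * a * c - iG * σ * a * b) * hG -
    iG ^ 2 * (F1 - 2 * σ * f1 + σ ^ 2 * q2) * a ^ 2 * b * hq

theorem n2 (r2 : a ^ 2 * c = 0) (c1 : f0 = σ * q1) (hq : iq * q1 = 1) :
    a ^ 2 * (iG * (c - σ * b)) = -(iG * f0) * (a ^ 2 * (iq * b)) := by
  linear_combination iG * r2 + iG * iq * a ^ 2 * b * c1 + iG * σ * a ^ 2 * b * hq

theorem l1 (r2 : a ^ 2 * c = 0)
    (rbb : b * b = B1 * a ^ (m + 3) + B2 * a ^ (m + 4) + q1 * (a * b) + q2 * (a ^ 2 * b) +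
      d1 * (a * c))
    (rbc : b * c = h0 * a ^ (m + 3) + h1 * a ^ (m + 4) + f0 * (a * b) + f1 * (a ^ 2 * b) +
      g1 * (a * c))
    (rcc : c * c = H0 * a ^ (m + 3) + H1 * a ^ (m + 4) + F0 * (a * b) + F1 * (a ^ 2 * b) +
      G1 * (a * c))
    (ed : d1 + 2 * t * g1 + t ^ 2 * G1 - t * (q1 + 2 * t * f0 + t ^ 2 * F0) = 0) :
    (b + t * c) * (b + t * c) = (q1 + 2 * t * f0 + t ^ 2 * F0) * (a * (b + t * c)) +
      (q2 + 2 * t * f1 + t ^ 2 * F1) * (a ^ 2 * (b + t * c)) +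
      (B1 + 2 * t * h0 + t ^ 2 * H0) * a ^ (m + 3) +
      (B2 + 2 * t * h1 + t ^ 2 * H1) * a ^ (m + 4) := by
  linear_combination rbb + 2 * t * rbc + t ^ 2 * rcc + a * c * ed -
    t * (q2 + 2 * t * f1 + t ^ 2 * F1) * r2

theorem l2 (r2 : a ^ 2 * c = 0)
    (rbc : b * c = h0 * a ^ (m + 3) + h1 * a ^ (m + 4) + f0 * (a * b) + f1 * (a ^ 2 * b) +
      g1 * (a * c))
    (rcc : c * c = H0 * a ^ (m + 3) + H1 * a ^ (m + 4) + F0 * (a * b) + F1 * (a ^ 2 * b) +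
      G1 * (a * c))
    (eg : g1 + t * G1 - t * (f0 + t * F0) = 0) :
    (b + t * c) * c = (f0 + t * F0) * (a * (b + t * c)) +
      (f1 + t * F1) * (a ^ 2 * (b + t * c)) +
      (h0 + t * H0) * a ^ (m + 3) + (h1 + t * H1) * a ^ (m + 4) := by
  linear_combination rbc + t * rcc + a * c * eg - t * (f1 + t * F1) * r2

theorem l3 (r2 : a ^ 2 * c = 0)
    (rcc : c * c = H0 * a ^ (m + 3) + H1 * a ^ (m + 4) + F0 * (a * b) + F1 * (a ^ 2 * b) +
      G1 * (a * c)) :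
    c * c = F0 * (a * (b + t * c)) + F1 * (a ^ 2 * (b + t * c)) + (G1 - t * F0) * (a * c) +
      H0 * a ^ (m + 3) + H1 * a ^ (m + 4) := by
  linear_combination rcc - t * F1 * r2

end ring

end Ax33

/-- three axes of lengths `3`, `3`, `m + 4`: the case `g1 = d1 = 0` -/
theorem ax33_norm [IsAlgClosed k] {n : Type*} [Fintype n] [DecidableEq n]
    {R : Type*} [CommRing R] [Algebra k R] (ρ : R →ₐ[k] Matrix n n k) {a b c : R}
    {v : n → k} {m : ℕ} (hn : Fintype.card n = m + 10)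
    (hT : CN ![ρ a, ρ b, ρ c]) (hv : Cyc ![ρ a, ρ b, ρ c] v)
    {B1 B2 q1 q2 h0 h1 f0 f1 H0 H1 F0 F1 G1 : k}
    (r1 : a ^ 3 * b = 0) (r2 : a ^ 2 * c = 0) (r3 : a ^ (m + 5) = 0)
    (s1 : b * b = algebraMap k R q1 * (a * b) + algebraMap k R q2 * (a ^ 2 * b) +
      algebraMap k R B1 * a ^ (m + 3) + algebraMap k R B2 * a ^ (m + 4))
    (s2 : b * c = algebraMap k R f0 * (a * b) + algebraMap k R f1 * (a ^ 2 * b) +
      algebraMap k R h0 * a ^ (m + 3) + algebraMap k R h1 * a ^ (m + 4))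
    (s3 : c * c = algebraMap k R F0 * (a * b) + algebraMap k R F1 * (a ^ 2 * b) +
      algebraMap k R G1 * (a * c) + algebraMap k R H0 * a ^ (m + 3) +
      algebraMap k R H1 * a ^ (m + 4))
    (e1 : q1 * F0 = f0 * (f0 - G1)) (e2 : B1 * F0 = (f0 - G1) * h0)
    (n1 : F0 ≠ 0) (n2 : f0 - G1 ≠ 0) (n3 : f0 ≠ 0) (n4 : G1 ≠ 0) (n5 : f0 * H0 - F0 * h0 ≠ 0) :
    Cl ![ρ a, ρ b, ρ c] := by
  have hq0 : q1 ≠ 0 := by
    rintro rfl
    rw [zero_mul] at e1
    exact mul_ne_zero n3 n2 e1.symm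
  obtain ⟨σ, hσ⟩ : ∃ σ, σ * (f0 - G1) = F0 := ⟨F0 / (f0 - G1), div_mul_cancel₀ _ n2⟩
  obtain ⟨iq, hiq⟩ : ∃ iq, iq * q1 = 1 := ⟨q1⁻¹, inv_mul_cancel₀ hq0⟩
  obtain ⟨iG, hiG⟩ : ∃ iG, iG * G1 = 1 := ⟨G1⁻¹, inv_mul_cancel₀ n4⟩
  have c1 : f0 = σ * q1 := by
    have : F0 * f0 = F0 * (σ * q1) := by linear_combination -σ * e1 - f0 * hσ
    exact mul_left_cancel₀ n1 this
  have c2 : h0 = σ * B1 := by
    have : F0 * h0 = F0 * (σ * B1) := by linear_combination -σ * e2 - h0 * hσ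
    exact mul_left_cancel₀ n1 this
  have c3 : F0 = σ * (f0 - G1) := hσ.symm
  have d1 : algebraMap k R f0 = algebraMap k R σ * algebraMap k R q1 := by
    rw [c1, map_mul]
  have d2 : algebraMap k R h0 = algebraMap k R σ * algebraMap k R B1 := by
    rw [c2, map_mul]
  have d3 : algebraMap k R F0 = algebraMap k R σ * (algebraMap k R f0 - algebraMap k R G1) := by
    rw [c3, map_mul, map_sub]
  have d4 : algebraMap k R iq * algebraMap k R q1 = 1 := by rw [← map_mul, hiq, map_one]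
  have d5 : algebraMap k R iG * algebraMap k R G1 = 1 := by rw [← map_mul, hiG, map_one]
  have hiq0 : iq ≠ 0 := left_ne_zero_of_mul_eq_one hiq
  have hiG0 : iG ≠ 0 := left_ne_zero_of_mul_eq_one hiG
  have hsm : ∀ (r : k) (x : R), ρ (algebraMap k R r * x) = r • ρ x := by
    intro r x
    rw [map_mul, AlgHom.commutes, Algebra.smul_def]
  obtain ⟨y, hy⟩ : ∃ y, y = algebraMap k R iq * b := ⟨_, rfl⟩
  obtain ⟨w, hw⟩ : ∃ w, w = algebraMap k R iG * (c - algebraMap k R σ * b) := ⟨_, rfl⟩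
  have iy : ρ y = iq • ρ b := by rw [hy, hsm]
  have iw : ρ w = iG • (ρ c - σ • ρ b) := by rw [hw, hsm, map_sub, hsm]
  have ib : ρ b = q1 • ρ y := by
    rw [iy, smul_smul, mul_comm, hiq, one_smul]
  have ic : ρ c = G1 • ρ w + (σ * q1) • ρ y := by
    rw [iw, iy, smul_smul, smul_smul, mul_comm G1, hiG, one_smul, mul_assoc, mul_comm q1, hiq,
      mul_one, sub_add_cancel]
  have tA : ρ a ∈ adj ![ρ a, ρ y, ρ w] := mem_adj ![ρ a, ρ y, ρ w] 0
  have tY : ρ y ∈ adj ![ρ a, ρ y, ρ w] := mem_adj ![ρ a, ρ y, ρ w] 1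
  have tW : ρ w ∈ adj ![ρ a, ρ y, ρ w] := mem_adj ![ρ a, ρ y, ρ w] 2
  have mA : ρ a ∈ adj ![ρ a, ρ b, ρ c] := mem_adj ![ρ a, ρ b, ρ c] 0
  have mB : ρ b ∈ adj ![ρ a, ρ b, ρ c] := mem_adj ![ρ a, ρ b, ρ c] 1
  have mC : ρ c ∈ adj ![ρ a, ρ b, ρ c] := mem_adj ![ρ a, ρ b, ρ c] 2
  have hmem : ∀ i, ![ρ a, ρ b, ρ c] i ∈ adj ![ρ a, ρ y, ρ w] := by
    intro i
    fin_cases i
    · exact tA
    · show ρ b ∈ _
      rw [ib]
      exact SMulMemClass.smul_mem _ tY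
    · show ρ c ∈ _
      rw [ic]
      exact add_mem (SMulMemClass.smul_mem _ tW) (SMulMemClass.smul_mem _ tY)
  have hmem' : ∀ i, ![ρ a, ρ y, ρ w] i ∈ adj ![ρ a, ρ b, ρ c] := by
    intro i
    fin_cases i
    · exact mA
    · show ρ y ∈ _
      rw [iy]
      exact SMulMemClass.smul_mem _ mB
    · show ρ w ∈ _
      rw [iw]
      exact SMulMemClass.smul_mem _ (sub_mem mC (SMulMemClass.smul_mem _ mB))
  have hT' : CN ![ρ a, ρ y, ρ w] := hT.of_adj hmem'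
  have hv' : Cyc ![ρ a, ρ y, ρ w] v := hv.of_adj hmem
  refine cl_of_adj hmem ?_
  refine ax33R ρ rfl rfl rfl hn hT' hv' (β1 := iq ^ 2 * B1) (β2 := iq ^ 2 * B2) (β3 := iq * q2)
    (γ2 := iq * iG * (h1 - σ * B2)) (γ3 := iG * (f1 - σ * q2)) (δ1 := iG ^ 2 * (H0 - σ * h0))
    (δ2 := iG ^ 2 * (H1 - 2 * σ * h1 + σ ^ 2 * B2))
    (δ3 := iG ^ 2 * q1 * (F1 - 2 * σ * f1 + σ ^ 2 * q2)) (τ := -(iG * f0)) ?_ ?_ r3 ?_ ?_ ?_ ?_ ?_
  · rw [hy]
    linear_combination algebraMap k R iq * r1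
  · rw [hy, hw]
    simp only [map_mul, map_neg]
    exact Ax33.n2 r2 d1 d4
  · rw [hy]
    simp only [map_mul, map_pow]
    exact Ax33.n4 s1 d4
  · rw [hy, hw]
    simp only [map_mul, map_sub]
    exact Ax33.n5 s1 s2 d1 d2
  · rw [hy, hw]
    simp only [map_mul, map_sub, map_add, map_pow, map_ofNat]
    exact Ax33.n6 s1 s2 s3 d1 d2 d3 d4 d5
  · exact neg_ne_zero.2 (mul_ne_zero hiG0 n3)
  · intro h
    apply n5
    have e3 : f0 * (iG ^ 2 * (H0 - σ * h0) - -(iG * f0) * (iq ^ 2 * B1)) * G1 ^ 2 =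
        f0 * H0 - F0 * h0 := by
      have i1 : iG ^ 2 * G1 ^ 2 = 1 := by linear_combination (iG * G1 + 1) * hiG
      have i2 : iG * G1 ^ 2 = G1 := by linear_combination G1 * hiG
      have i3 : f0 ^ 2 * (iq ^ 2 * B1) = σ * h0 := by
        rw [c1, c2]
        linear_combination σ ^ 2 * B1 * (iq * q1 + 1) * hiq
      linear_combination f0 * (H0 - σ * h0) * i1 + f0 ^ 2 * iq ^ 2 * B1 * i2 + G1 * i3 + h0 * c3
    rw [← e3, h, mul_zero, zero_mul]

/-- three axes of lengths `3`, `3`, `m + 4` -/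
theorem ax33_bc [IsAlgClosed k] {n : Type*} [Fintype n] [DecidableEq n]
    {A B C : Matrix n n k} {v : n → k} {m : ℕ} (hn : Fintype.card n = m + 10)
    (hT : CN ![A, B, C]) (hv : Cyc ![A, B, C] v)
    {B1 B2 q1 q2 d1 h0 h1 f0 f1 g1 H0 H1 F0 F1 G1 : k}
    (r1 : A ^ 3 * B = 0) (r2 : A ^ 2 * C = 0) (r3 : A ^ (m + 5) = 0)
    (s1 : B * B = B1 • A ^ (m + 3) + B2 • A ^ (m + 4) + q1 • (A * B) + q2 • (A ^ 2 * B) +
      d1 • (A * C))
    (s2 : B * C = h0 • A ^ (m + 3) + h1 • A ^ (m + 4) + f0 • (A * B) + f1 • (A ^ 2 * B) +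
      g1 • (A * C))
    (s3 : C * C = H0 • A ^ (m + 3) + H1 • A ^ (m + 4) + F0 • (A * B) + F1 • (A ^ 2 * B) +
      G1 • (A * C))
    (e1 : d1 * F0 = g1 * f0) (e2 : (q1 - g1) * F0 = f0 * (f0 - G1))
    (e3 : B1 * F0 = f0 * h0 + g1 * H0 - G1 * h0)
    (n1 : F0 ≠ 0) (n2 : (f0 - G1) ^ 2 + 4 * F0 * g1 ≠ 0) (n3 : f0 * G1 - F0 * g1 ≠ 0)
    (n4 : f0 * H0 - F0 * h0 ≠ 0) : Cl ![A, B, C] := by
  obtain ⟨R, _, _, ρ, a, b, c, hρ, ha, hb, hc⟩ := exists_ring hT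
  obtain ⟨t, ht⟩ : ∃ t, F0 * t ^ 2 + (f0 - G1) * t - g1 = 0 := by
    obtain ⟨t, ht⟩ := IsAlgClosed.exists_root (Polynomial.C F0 * X ^ 2 + Polynomial.C (f0 - G1) * X +
      Polynomial.C (-g1) : k[X]) (by
        rw [Polynomial.degree_quadratic n1]
        decide)
    refine ⟨t, ?_⟩
    simp only [IsRoot, eval_add, eval_mul, eval_C, eval_pow, eval_X] at ht
    linear_combination ht
  have ed : d1 + 2 * t * g1 + t ^ 2 * G1 - t * (q1 + 2 * t * f0 + t ^ 2 * F0) = 0 := by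
    have : F0 * (d1 + 2 * t * g1 + t ^ 2 * G1 - t * (q1 + 2 * t * f0 + t ^ 2 * F0)) = 0 := by
      linear_combination e1 - t * e2 - (f0 + t * F0) * ht
    exact (mul_eq_zero.1 this).resolve_left n1
  have eg : g1 + t * G1 - t * (f0 + t * F0) = 0 := by linear_combination -ht
  have hsm : ∀ (r : k) (x : R), ρ (algebraMap k R r * x) = r • ρ x := by
    intro r x
    rw [map_mul, AlgHom.commutes, Algebra.smul_def]
  have R1 : a ^ 3 * b = 0 := hρ (by rw [map_mul, map_pow, ha, hb, r1, map_zero])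
  have R2 : a ^ 2 * c = 0 := hρ (by rw [map_mul, map_pow, ha, hc, r2, map_zero])
  have R3 : a ^ (m + 5) = 0 := hρ (by rw [map_pow, ha, r3, map_zero])
  have S1 : b * b = algebraMap k R B1 * a ^ (m + 3) + algebraMap k R B2 * a ^ (m + 4) +
      algebraMap k R q1 * (a * b) + algebraMap k R q2 * (a ^ 2 * b) +
      algebraMap k R d1 * (a * c) := hρ (by
    simp only [map_add, hsm]
    simp only [map_mul, map_pow, ha, hb, hc]
    exact s1)
  have S2 : b * c = algebraMap k R h0 * a ^ (m + 3) + algebraMap k R h1 * a ^ (m + 4) +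
      algebraMap k R f0 * (a * b) + algebraMap k R f1 * (a ^ 2 * b) +
      algebraMap k R g1 * (a * c) := hρ (by
    simp only [map_add, hsm]
    simp only [map_mul, map_pow, ha, hb, hc]
    exact s2)
  have S3 : c * c = algebraMap k R H0 * a ^ (m + 3) + algebraMap k R H1 * a ^ (m + 4) +
      algebraMap k R F0 * (a * b) + algebraMap k R F1 * (a ^ 2 * b) +
      algebraMap k R G1 * (a * c) := hρ (by
    simp only [map_add, hsm]
    simp only [map_mul, map_pow, ha, hb, hc]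
    exact s3)
  have ED : algebraMap k R d1 + 2 * algebraMap k R t * algebraMap k R g1 +
      algebraMap k R t ^ 2 * algebraMap k R G1 - algebraMap k R t * (algebraMap k R q1 +
      2 * algebraMap k R t * algebraMap k R f0 + algebraMap k R t ^ 2 * algebraMap k R F0) = 0 := by
    have := congrArg (algebraMap k R) ed
    simpa only [map_add, map_sub, map_mul, map_pow, map_ofNat, map_zero] using this
  have EG : algebraMap k R g1 + algebraMap k R t * algebraMap k R G1 - algebraMap k R t *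
      (algebraMap k R f0 + algebraMap k R t * algebraMap k R F0) = 0 := by
    have := congrArg (algebraMap k R) eg
    simpa only [map_add, map_sub, map_mul, map_zero] using this
  have L1 := Ax33.l1 R2 S1 S2 S3 ED
  have L2 := Ax33.l2 R2 S2 S3 EG
  have L3 := Ax33.l3 (t := algebraMap k R t) R2 S3
  have ib' : ρ (b + algebraMap k R t * c) = B + t • C := by rw [map_add, hsm, hb, hc]
  have mA : A ∈ adj ![A, B, C] := mem_adj ![A, B, C] 0
  have mB : B ∈ adj ![A, B, C] := mem_adj ![A, B, C] 1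
  have mC : C ∈ adj ![A, B, C] := mem_adj ![A, B, C] 2
  have tA : A ∈ adj ![A, B + t • C, C] := mem_adj ![A, B + t • C, C] 0
  have tB : B + t • C ∈ adj ![A, B + t • C, C] := mem_adj ![A, B + t • C, C] 1
  have tC : C ∈ adj ![A, B + t • C, C] := mem_adj ![A, B + t • C, C] 2
  have hmem : ∀ i, ![A, B, C] i ∈ adj ![A, B + t • C, C] := by
    intro i
    fin_cases i
    · exact tA
    · show B ∈ _
      have := sub_mem tB (SMulMemClass.smul_mem t tC)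
      rwa [add_sub_cancel_right] at this
    · exact tC
  have hmem' : ∀ i, ![A, B + t • C, C] i ∈ adj ![A, B, C] := by
    intro i
    fin_cases i
    · exact mA
    · exact add_mem mB (SMulMemClass.smul_mem _ mC)
    · exact mC
  have hT' : CN ![A, B + t • C, C] := hT.of_adj hmem'
  have hv' : Cyc ![A, B + t • C, C] v := hv.of_adj hmem
  refine cl_of_adj hmem ?_
  rw [← ib', ← ha, ← hc] at hT' hv' ⊢
  refine ax33_norm ρ hn hT' hv' (B1 := B1 + 2 * t * h0 + t ^ 2 * H0)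
    (B2 := B2 + 2 * t * h1 + t ^ 2 * H1) (q1 := q1 + 2 * t * f0 + t ^ 2 * F0)
    (q2 := q2 + 2 * t * f1 + t ^ 2 * F1) (h0 := h0 + t * H0) (h1 := h1 + t * H1)
    (f0 := f0 + t * F0) (f1 := f1 + t * F1) (H0 := H0) (H1 := H1) (F0 := F0) (F1 := F1)
    (G1 := G1 - t * F0) ?_ R2 R3 ?_ ?_ ?_ ?_ ?_ n1 ?_ ?_ ?_ ?_
  · linear_combination R1 + algebraMap k R t * a * R2
  · simp only [map_add, map_mul, map_pow, map_ofNat]
    exact L1
  · simp only [map_add, map_mul]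
    exact L2
  · simp only [map_sub, map_mul]
    exact L3
  · linear_combination e2 - F0 * ht
  · linear_combination e3 - H0 * ht
  · intro h
    apply n2
    have e4 : f0 + t * F0 - (G1 - t * F0) = 0 := h
    linear_combination (f0 - G1 + 2 * t * F0) * e4 - 4 * F0 * ht
  · intro h
    apply n3
    linear_combination (G1 - t * F0) * h + F0 * ht
  · intro h
    apply n3
    linear_combination (f0 + t * F0) * h + F0 * ht
  · intro h
    apply n4
    linear_combination h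

end Pool.Agent.Lib.D13
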