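import Pool.Agent.Lib.D13.L32A
import Pool.Agent.Lib.D13.L32K2B

/-!
# MP_5dcbc3_ag: Jordan blocks of sizes `m + 5`, `3`, `2`: the cyclic case with three axes of lengths `3`, `3`, `m + 4`
-/

namespace Pool.Agent.Lib.D13

open Matrix Polynomial Pool.Agent.Lib.Q5dc Pool.Agent.Lib.D7 Pool.Agent.Lib.D8 Pool.Agent.Lib.D9

namespace L32

variable {k : Type*} [Field k] {N m : ℕ} {A : Matrix (Fin N) (Fin N) k} {w : Fin 3 → Fin N → k}

/-- two elements of the algebra which agree on a cyclic vector are equal -/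
theorem eq_of_cyc {n : Type*} [Fintype n] [DecidableEq n] {T : Fin 3 → Matrix n n k}
    {v : n → k} (h : Cyc T v) (hT : CN T) {M M' : Matrix n n k} (hM : M ∈ adj T)
    (hM' : M' ∈ adj T) (hv : M *ᵥ v = M' *ᵥ v) : M = M' :=
  h.ext (fun i => hT.comm (mem_adj T i) hM) (fun i => hT.comm (mem_adj T i) hM') hv

theorem pi3 (z : Fin 3 → k[X]) : PB.pi A w z = aeval A (z 0) *ᵥ w 0 + aeval A (z 1) *ᵥ w 1 +
    aeval A (z 2) *ᵥ w 2 := by
  rw [PB.pi, Fin.sum_univ_three]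

theorem cyc3 (hA : PB.BlkB A w ![m + 5, 3, 2]) {B C' : Matrix (Fin N) (Fin N) k}
    (hB : B *ᵥ w 0 = w 1) (hC : C' *ᵥ w 0 = w 2) : Cyc ![A, B, C'] (w 0) := by
  intro S h0 hS
  have h1 : w 1 ∈ S := by
    have := hS 1 _ h0
    rwa [show ![A, B, C'] 1 *ᵥ w 0 = w 1 from hB] at this
  have h2 : w 2 ∈ S := by
    have := hS 2 _ h0
    rwa [show ![A, B, C'] 2 *ᵥ w 0 = w 2 from hC] at this
  have hp : ∀ (p : k[X]) (x : Fin N → k), x ∈ S → aeval A p *ᵥ x ∈ S := by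
    intro p x hx
    have hpow : ∀ i : ℕ, A ^ i *ᵥ x ∈ S := by
      intro i
      induction i with
      | zero => rwa [pow_zero, Matrix.one_mulVec]
      | succ i ih =>
        rw [pow_succ', ← Matrix.mulVec_mulVec]
        exact hS 0 _ ih
    rw [aeval_eq_sum_range, Matrix.sum_mulVec]
    refine Submodule.sum_mem _ fun i _ => ?_
    rw [Matrix.smul_mulVec]
    exact S.smul_mem _ (hpow i)
  rw [eq_top_iff]
  intro x _
  obtain ⟨z, rfl⟩ := hA.span x
  rw [pi3]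
  exact add_mem (add_mem (hp _ _ h0) (hp _ _ h1)) (hp _ _ h2)

theorem apply_1 {B : Matrix (Fin N) (Fin N) k} {x : Par k} (hB : PB.Rep A w B (Mz m x))
    (hb : x.b0 = 0) (hd : x.d0 = 0) :
    B *ᵥ w 1 = x.b1 • (A ^ (m + 3) *ᵥ w 0) + x.b2 • (A ^ (m + 4) *ᵥ w 0) + x.q1 • (A *ᵥ w 1) +
      x.q2 • (A ^ 2 *ᵥ w 1) + x.d1 • (A *ᵥ w 2) := by
  rw [hB.apply 1, pi3]
  have e0 : Mz m x 0 1 = C x.b1 * X ^ (m + 3) + C x.b2 * X ^ (m + 4) := by
    show X ^ (m + 2) * (C x.b0 + C x.b1 * X + C x.b2 * X ^ 2) = _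
    rw [hb, map_zero]; ring
  have e1 : Mz m x 1 1 = C x.q1 * X + C x.q2 * X ^ 2 := rfl
  have e2 : Mz m x 2 1 = C x.d1 * X := by
    show C x.d0 + C x.d1 * X = _
    rw [hd, map_zero, zero_add]
  rw [e0, e1, e2]
  simp only [map_add, map_mul, aeval_C, aeval_X, map_pow, Algebra.algebraMap_eq_smul_one,
    smul_mul_assoc, one_mul, Matrix.add_mulVec, Matrix.smul_mulVec]
  abel

theorem apply_2 {B : Matrix (Fin N) (Fin N) k} {x : Par k} (hB : PB.Rep A w B (Mz m x)) :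
    B *ᵥ w 2 = x.h0 • (A ^ (m + 3) *ᵥ w 0) + x.h1 • (A ^ (m + 4) *ᵥ w 0) + x.f0 • (A *ᵥ w 1) +
      x.f1 • (A ^ 2 *ᵥ w 1) + x.g1 • (A *ᵥ w 2) := by
  rw [hB.apply 2, pi3]
  have e0 : Mz m x 0 2 = C x.h0 * X ^ (m + 3) + C x.h1 * X ^ (m + 4) := by
    show X ^ (m + 3) * (C x.h0 + C x.h1 * X) = _
    ring
  have e1 : Mz m x 1 2 = C x.f0 * X + C x.f1 * X ^ 2 := by
    show X * (C x.f0 + C x.f1 * X) = _
    ring
  have e2 : Mz m x 2 2 = C x.g1 * X := rfl
  rw [e0, e1, e2]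
  simp only [map_add, map_mul, aeval_C, aeval_X, map_pow, Algebra.algebraMap_eq_smul_one,
    smul_mul_assoc, one_mul, Matrix.add_mulVec, Matrix.smul_mulVec]
  abel

theorem apply_0 {B : Matrix (Fin N) (Fin N) k} {x : Par k} (hB : PB.Rep A w B (Mz m x)) :
    B *ᵥ w 0 = x.c0 • w 1 + x.c1 • (A *ᵥ w 1) + x.c2 • (A ^ 2 *ᵥ w 1) + x.e0 • w 2 +
      x.e1 • (A *ᵥ w 2) := by
  rw [hB.apply 0, pi3]
  have e0 : Mz m x 0 0 = 0 := rfl
  have e1 : Mz m x 1 0 = C x.c0 + C x.c1 * X + C x.c2 * X ^ 2 := rfl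
  have e2 : Mz m x 2 0 = C x.e0 + C x.e1 * X := rfl
  rw [e0, e1, e2]
  simp only [map_add, map_mul, aeval_C, aeval_X, map_pow, Algebra.algebraMap_eq_smul_one,
    smul_mul_assoc, one_mul, Matrix.add_mulVec, Matrix.smul_mulVec, Matrix.one_mulVec, map_zero,
    Matrix.zero_mulVec]
  abel

/-- the triple is a commuting nilpotent triple -/
theorem cn_mz (hA : PB.BlkB A w ![m + 5, 3, 2]) {B C' : Matrix (Fin N) (Fin N) k} {x y : Par k}
    (hB : PB.Rep A w B (Mz m x)) (hC : PB.Rep A w C' (Mz m y)) (hr : Rel x y) :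
    CN ![A, B, C'] := by
  have h1 := PB.comm_A hA hB
  have h2 := PB.comm_A hA hC
  have h3 := (comm_mz hA hB hC).2 hr
  have n0 : IsNilpotent A := PB.nilp_A hA
  have n1 : IsNilpotent B := nilp_mz hA hB
  have n2 : IsNilpotent C' := nilp_mz hA hC
  refine ⟨?_, ?_⟩
  · intro i j
    fin_cases i <;> fin_cases j
    · rfl
    · exact h1
    · exact h2
    · exact h1.symm
    · rfl
    · exact h3
    · exact h2.symm
    · exact h3.symm
    · rfl
  · intro i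
    fin_cases i
    · exact n0
    · exact n1
    · exact n2

/-- the cyclic case with three axes -/
theorem clK2_gen [IsAlgClosed k] (hA : PB.BlkB A w ![m + 5, 3, 2])
    {B C' : Matrix (Fin N) (Fin N) k} {x y : Par k}
    (hB : PB.Rep A w B (Mz m x)) (hC : PB.Rep A w C' (Mz m y)) (hr : Rel x y)
    (xc0 : x.c0 = 1) (xc1 : x.c1 = 0) (xc2 : x.c2 = 0) (xe0 : x.e0 = 0) (xe1 : x.e1 = 0)
    (xd0 : x.d0 = 0) (ye0 : y.e0 = 1) (yc0 : y.c0 = 0) (yc1 : y.c1 = 0) (yc2 : y.c2 = 0)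
    (ye1 : y.e1 = 0) (yd0 : y.d0 = 0) (xb0 : x.b0 = 0)
    (n1 : y.f0 ≠ 0) (n2 : (x.f0 - y.g1) ^ 2 + 4 * y.f0 * x.g1 ≠ 0)
    (n3 : x.f0 * y.g1 - y.f0 * x.g1 ≠ 0) (n4 : x.f0 * y.h0 - y.f0 * x.h0 ≠ 0) :
    Cl ![A, B, C'] := by
  have hT := cn_mz hA hB hC hr
  have hBv : B *ᵥ w 0 = w 1 := by
    rw [apply_0 hB, xc0, xc1, xc2, xe0, xe1]
    simp only [zero_smul, one_smul, add_zero]
  have hCv : C' *ᵥ w 0 = w 2 := by
    rw [apply_0 hC, yc0, yc1, yc2, ye0, ye1]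
    simp only [zero_smul, one_smul, add_zero, zero_add]
  have hv := cyc3 hA hBv hCv
  have r1 := hr.r1
  have r2 := hr.r2
  have r11 := hr.r11
  have r9' := hr.r9'
  have r12 := hr.r12
  rw [xc0, yc0, xb0] at r1
  have yb0 : y.b0 = 0 := by linear_combination r1
  have mA : A ∈ adj ![A, B, C'] := mem_adj ![A, B, C'] 0
  have mB : B ∈ adj ![A, B, C'] := mem_adj ![A, B, C'] 1
  have mC : C' ∈ adj ![A, B, C'] := mem_adj ![A, B, C'] 2
  have mp : ∀ i, A ^ (i + 1) ∈ adj ![A, B, C'] := by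
    intro i
    induction i with
    | zero => rw [zero_add, pow_one]; exact mA
    | succ i ih => rw [pow_succ]; exact mul_mem ih mA
  have m2 : A ^ 2 ∈ adj ![A, B, C'] := mp 1
  have m3 : A ^ 3 ∈ adj ![A, B, C'] := mp 2
  have hcard : Fintype.card (Fin N) = m + 10 := by
    rw [Fintype.card_fin, hA.card, Fin.sum_univ_three]
    show (m + 5) + 3 + 2 = _
    omega
  have a0 : A ^ (m + 5) *ᵥ w 0 = 0 := hA.ann 0
  have a1 : A ^ 3 *ᵥ w 1 = 0 := hA.ann 1
  have a2 : A ^ 2 *ᵥ w 2 = 0 := hA.ann 2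
  refine ax33_bc hcard hT hv (B1 := x.b1) (B2 := x.b2) (q1 := x.q1) (q2 := x.q2) (d1 := x.d1)
    (h0 := x.h0) (h1 := x.h1) (f0 := x.f0) (f1 := x.f1) (g1 := x.g1) (H0 := y.h0) (H1 := y.h1)
    (F0 := y.f0) (F1 := y.f1) (G1 := y.g1) ?_ ?_ ?_ ?_ ?_ ?_ ?_ ?_ ?_ n1 n2 n3 n4
  · refine eq_of_cyc hv hT (mul_mem m3 mB) (zero_mem _) ?_
    rw [← Matrix.mulVec_mulVec, hBv, a1, Matrix.zero_mulVec]
  · refine eq_of_cyc hv hT (mul_mem m2 mC) (zero_mem _) ?_
    rw [← Matrix.mulVec_mulVec, hCv, a2, Matrix.zero_mulVec]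
  · refine eq_of_cyc hv hT (mp (m + 4)) (zero_mem _) ?_
    rw [a0, Matrix.zero_mulVec]
  · refine eq_of_cyc hv hT (mul_mem mB mB) (add_mem (add_mem (add_mem (add_mem
      (SMulMemClass.smul_mem _ (mp (m + 2))) (SMulMemClass.smul_mem _ (mp (m + 3))))
      (SMulMemClass.smul_mem _ (mul_mem mA mB))) (SMulMemClass.smul_mem _ (mul_mem m2 mB)))
      (SMulMemClass.smul_mem _ (mul_mem mA mC))) ?_
    simp only [Matrix.add_mulVec, Matrix.smul_mulVec, ← Matrix.mulVec_mulVec, hBv, hCv]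
    exact apply_1 hB xb0 xd0
  · refine eq_of_cyc hv hT (mul_mem mB mC) (add_mem (add_mem (add_mem (add_mem
      (SMulMemClass.smul_mem _ (mp (m + 2))) (SMulMemClass.smul_mem _ (mp (m + 3))))
      (SMulMemClass.smul_mem _ (mul_mem mA mB))) (SMulMemClass.smul_mem _ (mul_mem m2 mB)))
      (SMulMemClass.smul_mem _ (mul_mem mA mC))) ?_
    simp only [Matrix.add_mulVec, Matrix.smul_mulVec, ← Matrix.mulVec_mulVec, hBv, hCv]
    exact apply_2 hB
  · refine eq_of_cyc hv hT (mul_mem mC mC) (add_mem (add_mem (add_mem (add_mem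
      (SMulMemClass.smul_mem _ (mp (m + 2))) (SMulMemClass.smul_mem _ (mp (m + 3))))
      (SMulMemClass.smul_mem _ (mul_mem mA mB))) (SMulMemClass.smul_mem _ (mul_mem m2 mB)))
      (SMulMemClass.smul_mem _ (mul_mem mA mC))) ?_
    simp only [Matrix.add_mulVec, Matrix.smul_mulVec, ← Matrix.mulVec_mulVec, hBv, hCv]
    exact apply_2 hC
  · have h1 : y.d1 = x.g1 := by
      have h := hr.r6'
      rw [xc0, yc0, xc1, yc1, xe0, ye0] at h
      linear_combination h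
    rw [xd0, yd0, h1] at r9'
    linear_combination r9'
  · have h1 : y.q1 = x.f0 := by
      have h := hr.r4
      rw [xc0, yc0, xe0, ye0] at h
      linear_combination h
    rw [h1] at r12
    linear_combination -r12
  · have h1 : y.b1 = x.h0 := by
      rw [xc0, yc0, xc1, yc1, xe0, ye0] at r2
      linear_combination r2
    rw [h1, yb0, xb0] at r11
    linear_combination -r11

theorem lin_fin (a : k) {b : k} (hb : b ≠ 0) : {s : k | a + b * s = 0}.Finite := by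
  refine Set.Subsingleton.finite fun s hs s' hs' => ?_
  have h : b * (s - s') = 0 := by
    have h1 : a + b * s = 0 := hs
    have h2 : a + b * s' = 0 := hs'
    linear_combination h1 - h2
  exact sub_eq_zero.1 ((mul_eq_zero.1 h).resolve_left hb)

/-- parameters on a line -/
def Par.add (x : Par k) (s : k) (ξ : Par k) : Par k :=
  ⟨x.c0 + s * ξ.c0, x.c1 + s * ξ.c1, x.c2 + s * ξ.c2, x.e0 + s * ξ.e0, x.e1 + s * ξ.e1,
    x.b0 + s * ξ.b0, x.b1 + s * ξ.b1, x.b2 + s * ξ.b2, x.q1 + s * ξ.q1, x.q2 + s * ξ.q2,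
    x.d0 + s * ξ.d0, x.d1 + s * ξ.d1, x.h0 + s * ξ.h0, x.h1 + s * ξ.h1, x.f0 + s * ξ.f0,
    x.f1 + s * ξ.f1, x.g1 + s * ξ.g1⟩

theorem mz_add (x : Par k) (s : k) (ξ : Par k) : Mz m (x.add s ξ) = Mz m x + s • Mz m ξ := by
  refine Matrix.ext fun i j => ?_
  rw [Matrix.add_apply, Matrix.smul_apply, smul_eq_C_mul]
  fin_cases i <;> fin_cases j
  · show (0 : k[X]) = 0 + C s * 0
    ring
  · simp only [Mz, Par.add]
    simp
    ring
  · simp only [Mz, Par.add]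
    simp
    ring
  · simp only [Mz, Par.add]
    simp
    ring
  · simp only [Mz, Par.add]
    simp
    ring
  · simp only [Mz, Par.add]
    simp
    ring
  · simp only [Mz, Par.add]
    simp
    ring
  · simp only [Mz, Par.add]
    simp
    ring
  · simp only [Mz, Par.add]
    simp
    ring

/-- the cyclic case with `d0 = 0`, `f0 ≠ 0` -/
theorem clK2 [IsAlgClosed k] [CharZero k] (hA : PB.BlkB A w ![m + 5, 3, 2])
    {B C' : Matrix (Fin N) (Fin N) k} {x y : Par k}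
    (hB : PB.Rep A w B (Mz m x)) (hC : PB.Rep A w C' (Mz m y)) (hr : Rel x y)
    (xc0 : x.c0 = 1) (xc1 : x.c1 = 0) (xc2 : x.c2 = 0) (xe0 : x.e0 = 0) (xe1 : x.e1 = 0)
    (xd0 : x.d0 = 0) (ye0 : y.e0 = 1) (yc0 : y.c0 = 0) (yc1 : y.c1 = 0) (yc2 : y.c2 = 0)
    (ye1 : y.e1 = 0) (yd0 : y.d0 = 0) (n1 : y.f0 ≠ 0) : Cl ![A, B, C'] := by
  have hk : Infinite k := IsAlgClosed.instInfinite
  -- the relations
  have h1 := hr.r1
  have h2 := hr.r2
  have h3 := hr.r3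
  have h4 := hr.r4
  have h5 := hr.r5
  have h6' := hr.r6'
  have h10 := hr.r10
  have h9' := hr.r9'
  have h11 := hr.r11
  have h12 := hr.r12
  rw [xc0, yc0] at h1
  have yb0 : y.b0 = 0 := by linear_combination h1
  have xb0 : x.b0 = 0 := by
    have : y.f0 * x.b0 = 0 := by rw [yb0] at h10; linear_combination -h10
    exact (mul_eq_zero.1 this).resolve_left n1
  have yb1 : y.b1 = x.h0 := by
    rw [xc0, yc0, xc1, yc1, xe0, ye0] at h2
    linear_combination h2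
  have yb2 : y.b2 = x.h1 := by
    rw [xc0, yc0, xc1, yc1, xc2, yc2, xe0, ye0, xe1, ye1] at h3
    linear_combination h3
  have yq1 : y.q1 = x.f0 := by
    rw [xc0, yc0, xe0, ye0] at h4
    linear_combination h4
  have yq2 : y.q2 = x.f1 := by
    rw [xc0, yc0, xc1, yc1, xe0, ye0, xe1, ye1] at h5
    linear_combination h5
  have yd1 : y.d1 = x.g1 := by
    rw [xc0, yc0, xc1, yc1, xe0, ye0] at h6'
    linear_combination h6'
  rw [xd0, yd0, yd1] at h9'
  rw [yb1, yb0, xb0] at h11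
  rw [yq1] at h12
  obtain ⟨D1, hD1⟩ : ∃ D1, D1 * y.f0 = x.f0 := ⟨x.f0 / y.f0, div_mul_cancel₀ _ n1⟩
  obtain ⟨D2, hD2⟩ : ∃ D2, D2 * y.f0 = x.f0 + y.h0 - y.g1 :=
    ⟨(x.f0 + y.h0 - y.g1) / y.f0, div_mul_cancel₀ _ n1⟩
  -- the direction
  let ξ : Par k := ⟨0, 0, 0, 0, 0, 0, D2, 0, 1, 0, 0, D1, 1, 0, 0, 0, 1⟩
  let η : Par k := ⟨0, 0, 0, 0, 0, 0, 1, 0, 0, 0, 0, 1, 0, 0, 0, 0, 0⟩
  obtain ⟨D, hD⟩ := exists_mz hA ξ
  obtain ⟨E, hE⟩ := exists_mz hA η
  have hrel : ∀ s, Rel (x.add s ξ) (y.add s η) := by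
    intro s
    constructor <;> simp only [Par.add, ξ, η, xc0, xc1, xc2, xe0, xe1, xd0, ye0, yc0, yc1, yc2, ye1,
      yd0, yb0, xb0, yb1, yb2, yq1, yq2, yd1]
    · ring
    · ring
    · ring
    · ring
    · ring
    · ring
    · ring
    · ring
    · -- r8, up to the factor `y.f0`
      have h8 := hr.r8
      rw [yq1, yb0, xd0, yd0, yd1, yb1, xb0] at h8
      have key : y.f0 * (x.q1 * s + s * x.h0 + s * s - x.f0 * (s * D2) + (x.d1 * 0) +
          s * D1 * y.h0 - x.g1 * s - s * x.h0 - s * s) = 0 := by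
        linear_combination s * (-h12) - s * x.f0 * hD2 + s * y.h0 * hD1
      have key2 := (mul_eq_zero.1 key).resolve_left n1
      linear_combination h8 + key2
    · ring
    · linear_combination h9' + s * hD1
    · ring
    · linear_combination h11 - s * hD2
    · linear_combination h12
    · ring
  refine cl_of_line (D := D) (E := E)
    (F := {s | ((x.f0 - y.g1) ^ 2 + 4 * y.f0 * x.g1) + (4 * y.f0) * s = 0} ∪
      {s | (x.f0 * y.g1 - y.f0 * x.g1) + (-y.f0) * s = 0} ∪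
      {s | (x.f0 * y.h0 - y.f0 * x.h0) + (-y.f0) * s = 0}) ?_ ?_
  · exact ((lin_fin _ (mul_ne_zero (by norm_num) n1)).union (lin_fin _ (neg_ne_zero.2 n1))).union
      (lin_fin _ (neg_ne_zero.2 n1))
  · intro s hs
    simp only [Set.mem_union, Set.mem_ofPred_eq, not_or] at hs
    obtain ⟨⟨m2, m3⟩, m4⟩ := hs
    refine clK2_gen hA ((hB.add (hD.smul s)).congr (mz_add x s ξ).symm)
      ((hC.add (hE.smul s)).congr (mz_add y s η).symm) (hrel s) ?_ ?_ ?_ ?_ ?_ ?_ ?_ ?_ ?_ ?_ ?_ ?_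
      ?_ ?_ ?_ ?_ ?_
    · simp only [Par.add, ξ, xc0]; ring
    · simp only [Par.add, ξ, xc1]; ring
    · simp only [Par.add, ξ, xc2]; ring
    · simp only [Par.add, ξ, xe0]; ring
    · simp only [Par.add, ξ, xe1]; ring
    · simp only [Par.add, ξ, xd0]; ring
    · simp only [Par.add, η, ye0]; ring
    · simp only [Par.add, η, yc0]; ring
    · simp only [Par.add, η, yc1]; ring
    · simp only [Par.add, η, yc2]; ring
    · simp only [Par.add, η, ye1]; ring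
    · simp only [Par.add, η, yd0]; ring
    · simp only [Par.add, ξ, xb0]; ring
    · simp only [Par.add, η]
      rw [mul_zero, add_zero]
      exact n1
    · intro h
      apply m2
      simp only [Par.add, ξ, η] at h
      linear_combination h
    · intro h
      apply m3
      simp only [Par.add, ξ, η] at h
      linear_combination h
    · intro h
      apply m4
      simp only [Par.add, ξ, η] at h
      linear_combination h

end L32

end Pool.Agent.Lib.D13
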