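import Pool.Agent.Lib.D13.L32J
import Pool.Agent.Lib.D13.L32K2
import Pool.Agent.Lib.D13.PBframe

/-!
# MP_5dcbc3_ag: the Jordan types `(l, 3, 2)` with `l` at least `5`
-/

namespace Pool.Agent.Lib.D13

open Matrix Polynomial Pool.Agent.Lib.Q5dc Pool.Agent.Lib.D7 Pool.Agent.Lib.D8

namespace L32

variable {k : Type*} [Field k]

/-- the second component -/
theorem BadC.k2 [IsAlgClosed k] [CharZero k] {m : ℕ} {q : Cy k} (h : BadC m q) (hE : q.E0 = 1)
    (hE1 : q.E1 = 0) (hF : q.F0 ≠ 0) : False := by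
  obtain ⟨⟨N, A, B, C', w, hA, hB, hC, hT⟩, dx, dy⟩ := h
  exact hT.ncl (clK2 hA hB hC ((comm_mz hA hB hC).1 (hT.cn.1 1 2)) rfl rfl rfl rfl rfl rfl
    hE rfl rfl rfl hE1 rfl hF)

/-- no maximal bad triple has a first matrix with Jordan blocks `m + 5`, `3`, `2` -/
theorem not_bad [IsAlgClosed k] [CharZero k] {m : ℕ} {x y : Par k} (h : Bad m x y) : False := by
  have : Infinite k := IsAlgClosed.instInfinite
  obtain ⟨q, hq, hE, hE1, h1 | h1⟩ := h.reduce
  · exact hq.k1 hE hE1 h1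
  · exact hq.k2 hE hE1 h1.2

end L32

/-- the type `(l, 3, 2)` with `l` at least `5` -/
theorem not_bad_l32 {k : Type*} [Field k] [IsAlgClosed k] [CharZero k] {m : ℕ} :
    ¬ Bad k [m + 5, 3, 2] := by
  have : Infinite k := IsAlgClosed.instInfinite
  have hl : ∀ a : Fin [m + 5, 3, 2].length, 0 < [m + 5, 3, 2].get a := by
    intro a
    match a with
    | ⟨0, _⟩ => exact Nat.succ_pos _
    | ⟨1, _⟩ => exact Nat.succ_pos _
    | ⟨2, _⟩ => exact Nat.succ_pos _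
  refine PB.not_bad_of_blk' hl fun ρ N A B C' w hA hT hρ => ?_
  have e1 : ([m + 5, 3, 2].get : Fin 3 → ℕ) = ![m + 5, 3, 2] := by
    funext i
    match i with
    | ⟨0, _⟩ => rfl
    | ⟨1, _⟩ => rfl
    | ⟨2, _⟩ => rfl
  have hA' : PB.BlkB A (w : Fin 3 → Fin N → k) ![m + 5, 3, 2] := by
    rw [← e1]
    exact hA
  have e2 : ρ = fun i => (A ^ i).rank := funext hρ
  rw [e2] at hT
  obtain ⟨x, y, h⟩ := L32.bad_of_maxR hA' hT
  exact L32.not_bad h

theorem not_bad_532 {k : Type*} [Field k] [IsAlgClosed k] [CharZero k] : ¬ Bad k [5, 3, 2] :=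
  not_bad_l32 (m := 0)

theorem not_bad_632 {k : Type*} [Field k] [IsAlgClosed k] [CharZero k] : ¬ Bad k [6, 3, 2] :=
  not_bad_l32 (m := 1)

theorem not_bad_732 {k : Type*} [Field k] [IsAlgClosed k] [CharZero k] : ¬ Bad k [7, 3, 2] :=
  not_bad_l32 (m := 2)

end Pool.Agent.Lib.D13
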