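import Pool.Agent.Lib.D13.LN
import Pool.Agent.Lib.D13.RangeLim

/-!
# MP_5dcbc3_ag: one long block and `R = <w> + D + x D`

`R` has a block `w, x w, x ^ 2 w` of size 3 and blocks of size 2: index `Unit ⊕ (δ ⊕ δ)`, `D` indexed by `δ`,
`e = x w` the vector with index `o : δ`; `x w = e`, `x : D0 -> D1` the identity.
`gR o K N g`: `w -> N e (in D0) + g (in D1)`, `d (in D0) -> K d (in D0) + N d (in D1)`,
`d (in D1) -> K d (in D1)`. This commutes with `x = gR o 0 1 0` if `K e = 0`.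
-/

namespace Pool.Agent.Lib.D13

open Matrix Pool.Agent.Lib.Q5dc Pool.Agent.Lib.D7

variable {k : Type*} [Field k] {δ : Type*} [Fintype δ] [DecidableEq δ]

/-- a vector of `R` (or a linear form on `R`) -/
def vR (t : k) (u v : δ → k) : Unit ⊕ (δ ⊕ δ) → k := Sum.elim (fun _ => t) (Sum.elim u v)

/-- the matrices commuting with `x` -/
def gR (o : δ) (K N : Matrix δ δ k) (g : δ → k) :
    Matrix (Unit ⊕ (δ ⊕ δ)) (Unit ⊕ (δ ⊕ δ)) k :=
  fromBlocks 0 0 (Matrix.of fun i _ => Sum.elim (fun j => N j o) g i) (fromBlocks K 0 N K)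

/-- `w -> e`, `D0 -> D1` -/
def xR (o : δ) : Matrix (Unit ⊕ (δ ⊕ δ)) (Unit ⊕ (δ ⊕ δ)) k := gR o 0 1 0

namespace L322

variable {o : δ} {K K' N N' : Matrix δ δ k} {g g' u v y z : δ → k} {s t : k}

theorem gR_mulVec : gR o K N g *ᵥ vR t u v =
    vR 0 (t • (fun i => N i o) + K *ᵥ u) (t • g + N *ᵥ u + K *ᵥ v) := by
  ext i
  rcases i with i | i | i
  · simp [gR, vR, mulVec, dotProduct]
  · simp [gR, vR, mulVec, dotProduct, mul_comm]
  · simp [gR, vR, mulVec, dotProduct, mul_comm, add_assoc]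

theorem vecMul_gR : vR s y z ᵥ* gR o K N g =
    vR (y ⬝ᵥ (fun i => N i o) + z ⬝ᵥ g) (y ᵥ* K + z ᵥ* N) (z ᵥ* K) := by
  ext i
  rcases i with i | i | i
  · simp [gR, vR, vecMul, dotProduct]
  · simp [gR, vR, vecMul, dotProduct]
  · simp [gR, vR, vecMul, dotProduct]

theorem vR_dot : vR s y z ⬝ᵥ vR t u v = s * t + (y ⬝ᵥ u + z ⬝ᵥ v) := by
  simp [vR, dotProduct]

theorem vR_add : vR s y z + vR t u v = vR (s + t) (y + u) (z + v) := by
  ext i
  rcases i with i | i | i <;> simp [vR]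

theorem vR_smul : s • vR t u v = vR (s * t) (s • u) (s • v) := by
  ext i
  rcases i with i | i | i <;> simp [vR]

theorem vR_zero : vR (0 : k) (0 : δ → k) 0 = 0 := by
  ext i
  rcases i with i | i | i <;> simp [vR]

theorem vR_inj : vR s y z = vR t u v ↔ s = t ∧ y = u ∧ z = v := by
  constructor
  · intro h
    refine ⟨?_, ?_, ?_⟩
    · simpa [vR] using congrFun h (Sum.inl ())
    · funext i
      simpa [vR] using congrFun h (Sum.inr (Sum.inl i))
    · funext i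
      simpa [vR] using congrFun h (Sum.inr (Sum.inr i))
  · rintro ⟨rfl, rfl, rfl⟩
    rfl

theorem exists_vR (a : Unit ⊕ (δ ⊕ δ) → k) : ∃ t u v, a = vR t u v := by
  refine ⟨a (Sum.inl ()), fun i => a (Sum.inr (Sum.inl i)), fun i => a (Sum.inr (Sum.inr i)), ?_⟩
  ext i
  rcases i with i | i | i <;> simp [vR]

theorem gR_add : gR o K N g + gR o K' N' g' = gR o (K + K') (N + N') (g + g') := by
  ext i j
  rcases i with i | i | i <;> rcases j with j | j | j <;> simp [gR]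

theorem gR_smul : s • gR o K N g = gR o (s • K) (s • N) (s • g) := by
  ext i j
  rcases i with i | i | i <;> rcases j with j | j | j <;> simp [gR]

theorem gR_inj : gR o K N g = gR o K' N' g' ↔ K = K' ∧ N = N' ∧ g = g' := by
  constructor
  · intro h
    refine ⟨?_, ?_, ?_⟩
    · ext i j
      simpa [gR] using congrFun (congrFun h (Sum.inr (Sum.inl i))) (Sum.inr (Sum.inl j))
    · ext i j
      simpa [gR] using congrFun (congrFun h (Sum.inr (Sum.inr i))) (Sum.inr (Sum.inl j))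
    · funext i
      simpa [gR] using congrFun (congrFun h (Sum.inr (Sum.inr i))) (Sum.inl ())
  · rintro ⟨rfl, rfl, rfl⟩
    rfl

/-- `e` is in the kernel of `K` -/
def Ke (o : δ) (K : Matrix δ δ k) : Prop := ∀ i, K i o = 0

theorem gR_mul (hK' : Ke o K') : gR o K N g * gR o K' N' g' =
    gR o (K * K') (N * K' + K * N') (N *ᵥ (fun i => N' i o) + K *ᵥ g') := by
  ext i j
  rcases i with i | i | i <;> rcases j with j | j | j
  · simp [gR, Matrix.mul_apply]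
  · simp [gR, Matrix.mul_apply]
  · simp [gR, Matrix.mul_apply]
  · simp [gR, Matrix.mul_apply, hK' _]
  · simp [gR, Matrix.mul_apply]
  · simp [gR, Matrix.mul_apply]
  · simp [gR, Matrix.mul_apply, mulVec, dotProduct]
  · simp [gR, Matrix.mul_apply]
  · simp [gR, Matrix.mul_apply]

theorem Ke_zero : Ke o (0 : Matrix δ δ k) := fun _ => rfl

theorem xR_comm_gR (hK : Ke o K) : xR o * gR o K N g = gR o K N g * xR o := by
  rw [xR, gR_mul hK, gR_mul Ke_zero, gR_inj]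
  refine ⟨by simp, by simp, ?_⟩
  funext i
  simp [mulVec, dotProduct, Matrix.one_apply]

theorem xR_sq : (xR o : Matrix (Unit ⊕ (δ ⊕ δ)) (Unit ⊕ (δ ⊕ δ)) k) * xR o =
    gR o 0 0 (Pi.single o 1) := by
  rw [xR, gR_mul Ke_zero, gR_inj]
  refine ⟨by simp, by simp, ?_⟩
  funext i
  simp [mulVec, dotProduct, Matrix.one_apply, Pi.single_apply]

theorem xR_cube : (xR o : Matrix (Unit ⊕ (δ ⊕ δ)) (Unit ⊕ (δ ⊕ δ)) k) ^ 3 = 0 := by
  rw [pow_succ, pow_two, xR_sq, xR, gR_mul Ke_zero]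
  ext i j
  rcases i with i | i | i <;> rcases j with j | j | j <;> simp [gR]

theorem xR_mulVec : xR o *ᵥ vR t u v = vR 0 (t • Pi.single o 1) u := by
  rw [xR, gR_mulVec, vR_inj]
  refine ⟨rfl, ?_, by simp⟩
  ext i
  simp [Matrix.one_apply, Pi.single_apply]

theorem vecMul_xR : vR s y z ᵥ* xR o = vR (y o) z 0 := by
  rw [xR, vecMul_gR, vR_inj]
  refine ⟨?_, by simp, by simp⟩
  simp [dotProduct, Matrix.one_apply]

/-- the shape of the matrices commuting with `x` -/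
theorem gR_of_comm {G : Matrix (Unit ⊕ (δ ⊕ δ)) (Unit ⊕ (δ ⊕ δ)) k}
    (h : xR o * G = G * xR o) (hn : IsNilpotent G) : ∃ K N g, G = gR o K N g ∧ Ke o K := by
  have h' : ∀ i j, (xR o *ᵥ (fun s => G s j)) i = (G i ᵥ* xR o) j := fun i j =>
    congrFun (congrFun h i) j
  have e1 : ∀ j, xR o *ᵥ (fun s => G s j) = vR 0 (G (Sum.inl ()) j • Pi.single o 1)
      (fun i => G (Sum.inr (Sum.inl i)) j) := by
    intro j
    have : (fun s => G s j) = vR (G (Sum.inl ()) j) (fun i => G (Sum.inr (Sum.inl i)) j)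
        (fun i => G (Sum.inr (Sum.inr i)) j) := by
      ext i
      rcases i with i | i | i <;> rfl
    rw [this, xR_mulVec]
  have e2 : ∀ i, G i ᵥ* xR o = vR (G i (Sum.inr (Sum.inl o))) (fun j => G i (Sum.inr (Sum.inr j)))
      0 := by
    intro i
    have : G i = vR (G i (Sum.inl ())) (fun j => G i (Sum.inr (Sum.inl j)))
        (fun j => G i (Sum.inr (Sum.inr j))) := by
      ext j
      rcases j with j | j | j <;> rfl
    conv_lhs => rw [this]
    rw [vecMul_xR]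
  simp only [e1, e2] at h'
  -- the blocks
  have a02 : ∀ j, G (Sum.inl ()) (Sum.inr (Sum.inr j)) = 0 := by
    intro j
    have := h' (Sum.inl ()) (Sum.inr (Sum.inl j))
    simpa [vR] using this.symm
  have a12 : ∀ i j, G (Sum.inr (Sum.inl i)) (Sum.inr (Sum.inr j)) = 0 := by
    intro i j
    have := h' (Sum.inr (Sum.inr i)) (Sum.inr (Sum.inr j))
    simpa [vR] using this
  have a01 : ∀ j, G (Sum.inl ()) (Sum.inr (Sum.inl j)) = 0 := by
    intro j
    have := h' (Sum.inr (Sum.inl o)) (Sum.inr (Sum.inl j))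
    simp only [vR, Sum.elim_inr, Sum.elim_inl, a12] at this
    simpa using this
  have a1122 : ∀ i j, G (Sum.inr (Sum.inl i)) (Sum.inr (Sum.inl j)) =
      G (Sum.inr (Sum.inr i)) (Sum.inr (Sum.inr j)) := by
    intro i j
    have := h' (Sum.inr (Sum.inr i)) (Sum.inr (Sum.inl j))
    simpa [vR] using this
  have a10 : ∀ i, G (Sum.inr (Sum.inl i)) (Sum.inl ()) =
      G (Sum.inr (Sum.inr i)) (Sum.inr (Sum.inl o)) := by
    intro i
    have := h' (Sum.inr (Sum.inr i)) (Sum.inl ())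
    simpa [vR] using this
  have aK : ∀ i, G (Sum.inr (Sum.inl i)) (Sum.inr (Sum.inl o)) =
      G (Sum.inl ()) (Sum.inl ()) * (Pi.single o 1 : δ → k) i := by
    intro i
    have := h' (Sum.inr (Sum.inl i)) (Sum.inl ())
    simpa [vR] using this.symm
  -- the constant
  have h0 : G (Sum.inl ()) (Sum.inl ()) = 0 := by
    obtain ⟨m, hm⟩ := hn
    have h1 : ∀ i : ℕ, (vR (1 : k) 0 0) ᵥ* G ^ i =
        (G (Sum.inl ()) (Sum.inl ())) ^ i • (vR (1 : k) (0 : δ → k) 0) := by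
      intro i
      induction i with
      | zero => simp
      | succ i ih =>
        rw [pow_succ, ← vecMul_vecMul, ih, smul_vecMul]
        have h2 : vR (1 : k) 0 0 ᵥ* G = G (Sum.inl ()) (Sum.inl ()) • vR (1 : k) (0 : δ → k) 0 := by
          ext j
          rcases j with j | j | j
          · simp [vR, vecMul, dotProduct]
          · simp [vR, vecMul, dotProduct, a01]
          · simp [vR, vecMul, dotProduct, a02]
        rw [h2, smul_smul, pow_succ]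
    have h2 := congrFun (h1 m) (Sum.inl ())
    rw [hm, vecMul_zero] at h2
    simp [vR] at h2
    by_contra hne
    exact pow_ne_zero m hne h2.symm
  refine ⟨Matrix.of fun i j => G (Sum.inr (Sum.inl i)) (Sum.inr (Sum.inl j)),
    Matrix.of fun i j => G (Sum.inr (Sum.inr i)) (Sum.inr (Sum.inl j)),
    fun i => G (Sum.inr (Sum.inr i)) (Sum.inl ()), ?_, ?_⟩
  · ext i j
    rcases i with i | i | i <;> rcases j with j | j | j
    · simpa [gR] using h0
    · simpa [gR] using a01 j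
    · simpa [gR] using a02 j
    · simpa [gR] using a10 i
    · simp [gR]
    · simpa [gR] using a12 i j
    · simp [gR]
    · simp [gR]
    · simpa [gR] using (a1122 i j).symm
  · intro i
    rw [Matrix.of_apply, aK, h0, zero_mul]

/-! ### the rank conditions -/

theorem LAn_mulVec {ι : Type*} [Fintype ι] [DecidableEq ι] {n : ℕ} {x : Matrix ι ι k}
    (l : Fin n → k) (r : ι → k) :
    LAn n x *ᵥ Sum.elim l r = Sum.elim (ShF k n *ᵥ l) (x *ᵥ r) := by
  rw [LAn, fromBlocks_mulVec]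
  simp

theorem LXn_mulVec {ι : Type*} [Fintype ι] [DecidableEq ι] {n : ℕ} {x G : Matrix ι ι k}
    {a b : ι → k} (l : Fin n → k) (r : ι → k) :
    LXn n x G a b *ᵥ Sum.elim l r = Sum.elim (Lbn n x b *ᵥ r) (Lcn n x a *ᵥ l + G *ᵥ r) := by
  rw [LXn, fromBlocks_mulVec]
  simp

theorem Lcn_ev {ι : Type*} [Fintype ι] [DecidableEq ι] {n : ℕ} {x : Matrix ι ι k}
    {a : ι → k} {j : ℕ} (hj : j < n) : Lcn n x a *ᵥ ev k n j = x ^ j *ᵥ a := by
  ext r
  exact L2.mulVec_ev (k := k) (⟨j, hj⟩ : Fin n) (Lcn n x a) r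

theorem Lbn_mulVec {ι : Type*} [Fintype ι] [DecidableEq ι] {n : ℕ} {x : Matrix ι ι k}
    {b : ι → k} (r : ι → k) (i : Fin n) :
    (Lbn n x b *ᵥ r) i = b ⬝ᵥ (x ^ (n - 1 - (i : ℕ)) *ᵥ r) := by
  rw [dotProduct_mulVec]
  rfl

theorem xx_mulVec : xR o *ᵥ (xR o *ᵥ vR t u v) = vR 0 0 (t • Pi.single o 1) := by
  rw [xR_mulVec, xR_mulVec, vR_inj]
  simp

theorem pow_mulVec_two {j : ℕ} (hj : 2 ≤ j) (a : Unit ⊕ (δ ⊕ δ) → k) :
    ∃ c : k, xR o ^ j *ᵥ a = vR 0 0 (c • Pi.single o 1) := by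
  obtain ⟨i, rfl⟩ : ∃ i, j = 2 + i := ⟨j - 2, by omega⟩
  obtain ⟨t, u, v, h⟩ := exists_vR (xR o ^ i *ᵥ a)
  refine ⟨t, ?_⟩
  rw [pow_add, ← mulVec_mulVec, h, pow_two, ← mulVec_mulVec, xx_mulVec]

theorem pow_D_zero {j : ℕ} (hj : 2 ≤ j) : xR o ^ j *ᵥ vR (0 : k) u v = 0 := by
  obtain ⟨i, rfl⟩ : ∃ i, j = i + 2 := ⟨j - 2, by omega⟩
  rw [pow_add, ← mulVec_mulVec, pow_two, ← mulVec_mulVec, xx_mulVec, zero_smul, vR_zero,
    mulVec_zero]

theorem pow_D1_zero {j : ℕ} (hj : 1 ≤ j) : xR o ^ j *ᵥ vR (0 : k) 0 v = 0 := by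
  obtain ⟨i, rfl⟩ : ∃ i, j = i + 1 := ⟨j - 1, by omega⟩
  rw [pow_add, ← mulVec_mulVec, pow_one, xR_mulVec, zero_smul, vR_zero, mulVec_zero]

variable {n : ℕ} {a b : Unit ⊕ (δ ⊕ δ) → k}

theorem sum_inr {α β γ : Type*} (f : α → γ) (g : β → γ) (i : β) :
    Sum.elim f g (Sum.inr i) = g i := rfl

theorem AAm (m : Fin n ⊕ (Unit ⊕ (δ ⊕ δ)) → k) {i : δ} (hi : i ≠ o) :
    ((LAn n (xR o) * LAn n (xR o)) *ᵥ m) (Sum.inr (Sum.inr (Sum.inr i))) = 0 := by
  obtain ⟨l, r, rfl⟩ : ∃ l r, m = Sum.elim l r :=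
    ⟨m ∘ Sum.inl, m ∘ Sum.inr, (Sum.elim_comp_inl_inr m).symm⟩
  obtain ⟨t, u, v, rfl⟩ := exists_vR r
  rw [← mulVec_mulVec, LAn_mulVec, LAn_mulVec, xx_mulVec]
  simp [vR, hi]

theorem comm_X (hn : 4 ≤ n) (hK : Ke o K) : LAn n (xR o) * LXn n (xR o) (gR o K N g) a b =
    LXn n (xR o) (gR o K N g) a b * LAn n (xR o) :=
  LN.LAn_comm_LXn (pow_eq_zero_of_le (by omega) xR_cube) (xR_comm_gR hK)

theorem AXq (hn : 4 ≤ n) (hK : Ke o K) (q : Fin n ⊕ (Unit ⊕ (δ ⊕ δ)) → k) :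
    (LAn n (xR o) * LXn n (xR o) (gR o K N g) a b + LXn n (xR o) (gR o K N g) a b * LAn n (xR o)) *ᵥ q
      = (2 : k) • (LAn n (xR o) *ᵥ (LXn n (xR o) (gR o K N g) a b *ᵥ q)) := by
  rw [← comm_X hn hK, ← two_smul k, smul_mulVec, mulVec_mulVec]

theorem AXf (hn : 4 ≤ n) (f : δ → k) :
    LAn n (xR o) *ᵥ (LXn n (xR o) (gR o K N g) a (vR s y z) *ᵥ Sum.elim 0 (vR 0 f 0)) =
      Sum.elim ((z ⬝ᵥ f) • ev k n (n - 1)) (vR 0 0 (K *ᵥ f)) := by
  have hx : (xR o : Matrix (Unit ⊕ (δ ⊕ δ)) (Unit ⊕ (δ ⊕ δ)) k) ^ n = 0 :=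
    pow_eq_zero_of_le (by omega) xR_cube
  rw [LXn_mulVec, LAn_mulVec, mulVec_mulVec, LN.ShF_Lbn hx, ← mulVec_mulVec, xR_mulVec,
    mulVec_zero, zero_add, gR_mulVec, xR_mulVec]
  congr 1
  · ext i
    rw [Lbn_mulVec, Pi.smul_apply, smul_eq_mul]
    by_cases h : (i : ℕ) = n - 1
    · rw [show n - 1 - (i : ℕ) = 0 by omega, pow_zero, one_mulVec, vR_dot]
      simp [ev, h]
    · have hi := i.2
      rw [zero_smul, pow_D1_zero (by omega), dotProduct_zero]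
      simp [ev, h]
  · rw [vR_inj]
    simp

theorem K_row [CharZero k] (hn : 4 ≤ n) (hK : Ke o K)
    (hr : ∀ r : k, ((LAn n (xR o) + r • LXn n (xR o) (gR o K N g) a (vR s y z)) ^ 2).rank ≤
      (LAn n (xR o : Matrix (Unit ⊕ (δ ⊕ δ)) (Unit ⊕ (δ ⊕ δ)) k) ^ 2).rank) {i : δ} (hi : i ≠ o) (j : δ) : K i j = 0 := by
  have h0 : (LAn n (xR o) * LAn n (xR o)) *ᵥ Sum.elim 0 (vR (0 : k) (Pi.single j 1) 0) = 0 := by
    rw [← mulVec_mulVec, LAn_mulVec, LAn_mulVec, mulVec_zero, mulVec_zero, xx_mulVec, zero_smul,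
      vR_zero]
    ext i
    rcases i with i | i <;> rfl
  obtain ⟨m, hm⟩ := sq_first hr h0
  have h1 := congrFun hm (Sum.inr (Sum.inr (Sum.inr i)))
  rw [AAm m hi, AXq hn hK, AXf hn] at h1
  have h2 : (2 : k) * K i j = 0 := by
    simpa [vR] using h1
  exact (mul_eq_zero.1 h2).resolve_left two_ne_zero

theorem mulVec_row (hrow : ∀ i, i ≠ o → ∀ j, K i j = 0) (f : δ → k) :
    K *ᵥ f = (K o ⬝ᵥ f) • Pi.single o 1 := by
  ext i
  by_cases hi : i = o
  · subst hi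
    simp [mulVec]
  · rw [mulVec, Pi.smul_apply, Pi.single_eq_of_ne hi, smul_zero, dotProduct]
    exact Finset.sum_eq_zero fun j _ => by rw [hrow i hi j, zero_mul]

theorem LcLb (hn : 4 ≤ n) (f : δ → k) {i : δ} (hi : i ≠ o) :
    (Lcn n (xR o) a *ᵥ (Lbn n (xR o) b *ᵥ vR 0 f 0)) (Sum.inr (Sum.inr i)) = 0 := by
  rw [mulVec, dotProduct]
  refine Finset.sum_eq_zero fun j _ => ?_
  by_cases hj : 2 ≤ (j : ℕ)
  · obtain ⟨c, hc⟩ := pow_mulVec_two (o := o) hj a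
    rw [LN.Lcn_apply, hc]
    simp [vR, hi]
  · rw [Lbn_mulVec, pow_D_zero (by omega), dotProduct_zero, mul_zero]

theorem kq [CharZero k] (hn : 4 ≤ n) (hK : Ke o K)
    (hr : ∀ r : k, ((LAn n (xR o) + r • LXn n (xR o) (gR o K N g) a (vR s y z)) ^ 2).rank ≤
      (LAn n (xR o : Matrix (Unit ⊕ (δ ⊕ δ)) (Unit ⊕ (δ ⊕ δ)) k) ^ 2).rank) {i : δ} (hi : i ≠ o) (j : δ) : K o j * N i o = 0 := by
  have hrow : ∀ i, i ≠ o → ∀ j, K i j = 0 := fun i hi j => K_row hn hK hr hi j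
  set f : δ → k := Pi.single j 1 with hf
  have h0 : (LAn n (xR o) * LAn n (xR o)) *ᵥ Sum.elim 0 (vR (0 : k) f 0) = 0 := by
    rw [← mulVec_mulVec, LAn_mulVec, LAn_mulVec, mulVec_zero, mulVec_zero, xx_mulVec, zero_smul,
      vR_zero]
    ext i
    rcases i with i | i <;> rfl
  have h1 : (LAn n (xR o) * LXn n (xR o) (gR o K N g) a (vR s y z) +
      LXn n (xR o) (gR o K N g) a (vR s y z) * LAn n (xR o)) *ᵥ Sum.elim 0 (vR (0 : k) f 0) =
      (LAn n (xR o) * LAn n (xR o)) *ᵥ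
        Sum.elim ((2 * (z ⬝ᵥ f)) • ev k n (n - 3)) (vR (2 * (K o ⬝ᵥ f)) 0 0) := by
    rw [AXq hn hK, AXf hn, ← mulVec_mulVec, LAn_mulVec, LAn_mulVec, xx_mulVec, mulVec_smul,
      mulVec_smul, ShF_ev _ _ (by omega), ShF_ev _ _ (by omega),
      show n - 3 + 1 + 1 = n - 1 by omega, mulVec_row hrow]
    ext i
    rcases i with i | i | i | i
    · simp [mul_assoc]
    · simp [vR]
    · simp [vR]
    · simp [vR, mul_assoc]
  obtain ⟨m, hm⟩ := sq_second hr h0 h1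
  have h2 := congrFun hm (Sum.inr (Sum.inr (Sum.inr i)))
  have e1 : ((LXn n (xR o) (gR o K N g) a (vR s y z) * LXn n (xR o) (gR o K N g) a (vR s y z)) *ᵥ
      Sum.elim 0 (vR (0 : k) f 0)) (Sum.inr (Sum.inr (Sum.inr i))) = K o j * N i o := by
    rw [← mulVec_mulVec, LXn_mulVec, LXn_mulVec, sum_inr, Pi.add_apply, mulVec_zero, zero_add,
      LcLb hn _ hi, gR_mulVec, gR_mulVec, mulVec_row hrow, mulVec_row hrow, mulVec_row hrow]
    simp [vR, hi, hf, mulVec_smul]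
  obtain ⟨c, hc⟩ := pow_mulVec_two (o := o) (show 2 ≤ n - 3 + 1 by omega) a
  rw [pow_succ', ← mulVec_mulVec] at hc
  have e2 : (LAn n (xR o) *ᵥ (LXn n (xR o) (gR o K N g) a (vR s y z) *ᵥ
      Sum.elim ((2 * (z ⬝ᵥ f)) • ev k n (n - 3)) (vR (2 * (K o ⬝ᵥ f)) 0 0)))
        (Sum.inr (Sum.inr (Sum.inr i))) = 2 * K o j * N i o := by
    rw [LXn_mulVec, LAn_mulVec, sum_inr, mulVec_smul, Lcn_ev (by omega), gR_mulVec, mulVec_add,
      mulVec_smul, hc, xR_mulVec]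
    simp [vR, hi, hf]
  rw [AAm m hi, AXq hn hK, Pi.sub_apply, Pi.smul_apply, e1, e2, smul_eq_mul] at h2
  have h5 : (3 : k) * (K o j * N i o) = 0 := by linear_combination -h2
  exact (mul_eq_zero.1 h5).resolve_left three_ne_zero

theorem sq_sq [CharZero k] {m : Type*} [Fintype m] [DecidableEq m] {A X : Matrix m m k}
    (hc : A * X = X * A) (h1 : (A + X) ^ 4 = 0) (h2 : (A - X) ^ 4 = 0) (hA : A ^ 4 = 0)
    (hX : X ^ 4 = 0) : A * A * (X * X) = 0 := by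
  have hc' : Commute A X := hc
  have e : (A + X) ^ 4 + (A - X) ^ 4 - (2 : k) • A ^ 4 - (2 : k) • X ^ 4 =
      (12 : k) • (A * A * (X * X)) := by
    have e1 : ∀ Y : Matrix m m k, Commute A Y → (A + Y) ^ 4 = A ^ 4 + (4 : k) • (A ^ 3 * Y) +
        (6 : k) • (A ^ 2 * Y ^ 2) + (4 : k) • (A * Y ^ 3) + Y ^ 4 := by
      intro Y hY
      rw [hY.add_pow]
      simp only [Finset.sum_range_succ, Finset.sum_range_zero, Nat.choose_zero_right,
        Nat.choose_self, Nat.choose_one_right]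
      have c2 : Nat.choose 4 2 = 6 := by decide
      have c3 : Nat.choose 4 3 = 4 := by decide
      rw [c2, c3]
      have n1 : ((1 : ℕ) : Matrix m m k) = 1 := by simp
      have ns : ∀ (j : ℕ) (Z : Matrix m m k), Z * (j : Matrix m m k) = (j : k) • Z := by
        intro j Z
        rw [← nsmul_eq_mul', ← Nat.cast_smul_eq_nsmul k]
      rw [ns, ns, ns, ns, ns]
      simp only [zero_add, Nat.reduceSub, pow_zero, one_mul, mul_one, pow_one, Nat.cast_ofNat,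
        Nat.cast_one, one_smul]
      abel
    rw [e1 X hc', sub_eq_add_neg A X, e1 (-X) hc'.neg_right]
    have p2 : (-X) ^ 2 = X ^ 2 := by rw [neg_sq]
    have p3 : (-X) ^ 3 = -X ^ 3 := by rw [pow_succ, p2, Matrix.mul_neg, ← pow_succ]
    have p4 : (-X) ^ 4 = X ^ 4 := by rw [pow_succ, p3, neg_mul_neg, ← pow_succ]
    rw [p2, p3, p4, Matrix.mul_neg, Matrix.mul_neg, ← pow_two, ← pow_two]
    module
  rw [h1, h2, hA, hX] at e
  have e' : (12 : k) • (A * A * (X * X)) = 0 := by rw [← e]; simp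
  exact (smul_eq_zero.mp e').resolve_left (by norm_num)

theorem al_be (h : LAn 4 (xR o) * LAn 4 (xR o) *
    (LXn 4 (xR o) (gR o K N g) (vR t u v) (vR s y z) *
      LXn 4 (xR o) (gR o K N g) (vR t u v) (vR s y z)) = 0) : t * z o = 0 := by
  have hx : (xR o : Matrix (Unit ⊕ (δ ⊕ δ)) (Unit ⊕ (δ ⊕ δ)) k) ^ 4 = 0 :=
    pow_eq_zero_of_le (by omega) xR_cube
  have h1 : ((LAn 4 (xR o) * LAn 4 (xR o) *
    (LXn 4 (xR o) (gR o K N g) (vR t u v) (vR s y z) *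
      LXn 4 (xR o) (gR o K N g) (vR t u v) (vR s y z))) *ᵥ Sum.elim (ev k 4 0) 0) (Sum.inl 3) =
      t * z o := by
    rw [← mulVec_mulVec, ← mulVec_mulVec, ← mulVec_mulVec, LXn_mulVec, Lcn_ev (by omega), pow_zero,
      one_mulVec, mulVec_zero, mulVec_zero, add_zero, LXn_mulVec, LAn_mulVec, LAn_mulVec]
    show (ShF k 4 *ᵥ (ShF k 4 *ᵥ (Lbn 4 (xR o) (vR s y z) *ᵥ vR t u v))) 3 = _
    have e3 : ∀ r, ShF k 4 *ᵥ (Lbn 4 (xR o) (vR s y z) *ᵥ r) =
        Lbn 4 (xR o) (vR s y z) *ᵥ (xR o *ᵥ r) := fun r => by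
      rw [mulVec_mulVec, LN.ShF_Lbn hx, mulVec_mulVec]
    rw [e3, e3, xx_mulVec, Lbn_mulVec]
    rw [show (4 - 1 - ((3 : Fin 4) : ℕ)) = 0 by rfl, pow_zero, one_mulVec, vR_dot]
    simp [dotProduct_smul]
  rw [h, zero_mulVec] at h1
  exact h1.symm

theorem pencil_or {α β : Type*} {κ κ' : α → k} {q q' : β → k}
    (h : ∀ s t : k, ∀ i j, (s * κ i + t * κ' i) * (s * q j + t * q' j) = 0) :
    (∀ i, κ i = 0 ∧ κ' i = 0) ∨ (∀ j, q j = 0 ∧ q' j = 0) := by
  by_contra hno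
  rw [not_or] at hno
  push Not at hno
  obtain ⟨⟨i, hi⟩, ⟨j, hj⟩⟩ := hno
  have h1 := h 1 0 i j
  have h2 := h 0 1 i j
  have h3 := h 1 1 i j
  simp only [one_mul, zero_mul, add_zero, zero_add] at h1 h2 h3
  by_cases hk : κ i = 0
  · have hk' := hi hk
    have hq' : q' j = 0 := (mul_eq_zero.1 h2).resolve_left hk'
    rw [hk, hq', zero_add, add_zero] at h3
    have hq : q j = 0 := (mul_eq_zero.1 h3).resolve_left hk'
    exact hj hq hq'
  · have hq : q j = 0 := (mul_eq_zero.1 h1).resolve_left hk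
    rw [hq, zero_add] at h3
    have h4 : κ i * q' j = 0 := by linear_combination h3 - h2
    exact hj hq ((mul_eq_zero.1 h4).resolve_left hk)

end L322

end Pool.Agent.Lib.D13
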