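import Pool.Agent.Lib.D13.L322

/-!
# MP_5dcbc3_ag: one long block and `R = <w> + D + x D`: duality, relations for a block of size 4
-/

namespace Pool.Agent.Lib.D13

open Matrix Pool.Agent.Lib.Q5dc Pool.Agent.Lib.D7

variable {k : Type*} [Field k] {δ : Type*} [Fintype δ] [DecidableEq δ]

namespace L322

variable {o : δ} {K K' N N' : Matrix δ δ k} {g g' u v y z : δ → k} {s t : k}

/-- the duality of the index type -/
def fR (o : δ) : Unit ⊕ (δ ⊕ δ) → Unit ⊕ (δ ⊕ δ)
  | Sum.inl () => Sum.inr (Sum.inr o)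
  | Sum.inr (Sum.inl i) => if i = o then Sum.inr (Sum.inl o) else Sum.inr (Sum.inr i)
  | Sum.inr (Sum.inr i) => if i = o then Sum.inl () else Sum.inr (Sum.inl i)

theorem fR_inv (o : δ) : Function.Involutive (fR o) := by
  intro i
  rcases i with i | i | i
  · simp [fR]
  · by_cases h : i = o
    · simp [fR, h]
    · simp [fR, h]
  · by_cases h : i = o
    · simp [fR, h]
    · simp [fR, h]

/-- the duality of the index type -/
def eR (o : δ) : Unit ⊕ (δ ⊕ δ) ≃ Unit ⊕ (δ ⊕ δ) := (fR_inv o).toPerm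

theorem eR_symm (i : Unit ⊕ (δ ⊕ δ)) : (eR o).symm i = fR o i := rfl

/-- dual of `K` -/
def dK (o : δ) (K N : Matrix δ δ k) : Matrix δ δ k :=
  Matrix.of fun i j => if j = o then 0 else if i = o then N j o else K j i

/-- dual of `N` -/
def dN (o : δ) (K N : Matrix δ δ k) (g : δ → k) : Matrix δ δ k :=
  Matrix.of fun i j => if j = o then (if i = o then N o o else K o i) else
    (if i = o then g j else N j i)

/-- dual of `g` -/
def dg (o : δ) (N : Matrix δ δ k) (g : δ → k) : δ → k := fun i => if i = o then g o else N o i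

theorem tr_gR (hK : Ke o K) : LN.tr (eR o) (gR o K N g) = gR o (dK o K N) (dN o K N g) (dg o N g) := by
  ext i j
  rw [LN.tr_apply, eR_symm, eR_symm]
  rcases i with i | i | i <;> rcases j with j | j | j
  · simp [fR, gR, hK o]
  · by_cases hj : j = o
    · simp [fR, gR, hj]
    · simp [fR, gR, hj, hK j]
  · by_cases hj : j = o
    · simp [fR, gR, hj]
    · simp [fR, gR, hj]
  · by_cases hi : i = o
    · simp [fR, gR, hi, dN]
    · simp [fR, gR, hi, dN]
  · by_cases hi : i = o <;> by_cases hj : j = o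
    · simp [fR, gR, hi, hj, dK, hK o]
    · simp [fR, gR, hi, hj, dK]
    · simp [fR, gR, hi, hj, dK]
    · simp [fR, gR, hi, hj, dK]
  · by_cases hi : i = o <;> by_cases hj : j = o
    · simp [fR, gR, hi, hj]
    · simp [fR, gR, hi, hj, hK j]
    · simp [fR, gR, hi, hj]
    · simp [fR, gR, hi, hj]
  · by_cases hi : i = o
    · simp [fR, gR, hi, dg]
    · simp [fR, gR, hi, dg]
  · by_cases hi : i = o <;> by_cases hj : j = o
    · simp [fR, gR, hi, hj, dN]
    · simp [fR, gR, hi, hj, dN]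
    · simp [fR, gR, hi, hj, dN]
    · simp [fR, gR, hi, hj, dN]
  · by_cases hi : i = o <;> by_cases hj : j = o
    · simp [fR, gR, hi, hj, dK]
    · simp [fR, gR, hi, hj, dK]
    · simp [fR, gR, hi, hj, dK]
    · simp [fR, gR, hi, hj, dK]

theorem tr_xR : LN.tr (eR o) (xR o) = (xR o : Matrix (Unit ⊕ (δ ⊕ δ)) (Unit ⊕ (δ ⊕ δ)) k) := by
  rw [xR, tr_gR Ke_zero, gR_inj]
  refine ⟨?_, ?_, ?_⟩
  · ext i j
    by_cases hi : i = o <;> by_cases hj : j = o
    · simp [dK, hj]
    · simp [dK, hi, hj, Matrix.one_apply]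
    · simp [dK, hj]
    · simp [dK, hi, hj]
  · ext i j
    by_cases hi : i = o <;> by_cases hj : j = o
    · simp [dN, hi, hj, Matrix.one_apply]
    · have hj' : ¬ o = j := fun e => hj e.symm
      simp [dN, hi, hj, hj', Matrix.one_apply]
    · simp [dN, hi, hj, Matrix.one_apply]
    · by_cases hij : i = j
      · simp [dN, hi, hj, Matrix.one_apply, hij]
      · have hji : ¬ j = i := fun e => hij e.symm
        simp [dN, hi, hj, Matrix.one_apply, hij, hji]
  · funext i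
    by_cases hi : i = o
    · simp [dg, hi]
    · have hi' : ¬ o = i := fun e => hi e.symm
      simp [dg, hi, hi', Matrix.one_apply]

theorem vR_comp : vR t u v ∘ (eR o).symm =
    vR (v o) (fun i => if i = o then u o else v i) (fun i => if i = o then t else u i) := by
  ext i
  rw [Function.comp, eR_symm]
  rcases i with i | i | i
  · simp [fR, vR]
  · by_cases hi : i = o <;> simp [fR, vR, hi]
  · by_cases hi : i = o <;> simp [fR, vR, hi]

/-- duality -/
theorem dualR [Infinite k] {ρ : ℕ → ℕ} {n : ℕ} (hK : Ke o K) (hK' : Ke o K') {s' t' : k}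
    {u' v' y' z' : δ → k}
    (hT : MaxR ρ ![LAn n (xR o), LXn n (xR o) (gR o K N g) (vR t u v) (vR s y z),
      LXn n (xR o) (gR o K' N' g') (vR t' u' v') (vR s' y' z')]) :
    MaxR ρ ![LAn n (xR o),
      LXn n (xR o) (gR o (dK o K N) (dN o K N g) (dg o N g))
        (vR (z o) (fun i => if i = o then y o else z i) (fun i => if i = o then s else y i))
        (vR (v o) (fun i => if i = o then u o else v i) (fun i => if i = o then t else u i)),
      LXn n (xR o) (gR o (dK o K' N') (dN o K' N' g') (dg o N' g'))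
        (vR (z' o) (fun i => if i = o then y' o else z' i) (fun i => if i = o then s' else y' i))
        (vR (v' o) (fun i => if i = o then u' o else v' i) (fun i => if i = o then t' else u' i))] := by
  have h := LN.dual (eR o) hT
  rw [tr_xR, tr_gR hK, tr_gR hK', vR_comp, vR_comp, vR_comp, vR_comp] at h
  exact h

theorem Ke_dK : Ke o (dK o K N) := fun i => by simp [dK]

/-! ### a block of size 4, `K = 0` -/

/-- data of a matrix with `K = 0`: `v -> t w + a (in D0) + c (in D1)`; `w -> N e (in D0) + g (in D1) +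
th(e) x v + h(e) x^2 v + s x^3 v`; `d (in D0) -> th(d) x^2 v + h(d) x^3 v + N d (in D1)` -/
structure XD (k δ : Type*) where
  N : Matrix δ δ k
  g : δ → k
  t : k
  a : δ → k
  c : δ → k
  s : k
  h : δ → k
  th : δ → k

variable {X Y X' Y' : XD k δ}

namespace XD

instance : Add (XD k δ) :=
  ⟨fun X Y => ⟨X.N + Y.N, X.g + Y.g, X.t + Y.t, X.a + Y.a, X.c + Y.c, X.s + Y.s, X.h + Y.h,
    X.th + Y.th⟩⟩

instance : SMul k (XD k δ) :=
  ⟨fun r X => ⟨r • X.N, r • X.g, r * X.t, r • X.a, r • X.c, r * X.s, r • X.h, r • X.th⟩⟩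

section
omit [Fintype δ] [DecidableEq δ]
@[simp] theorem add_N : (X + Y).N = X.N + Y.N := rfl
@[simp] theorem add_g : (X + Y).g = X.g + Y.g := rfl
@[simp] theorem add_t : (X + Y).t = X.t + Y.t := rfl
@[simp] theorem add_a : (X + Y).a = X.a + Y.a := rfl
@[simp] theorem add_c : (X + Y).c = X.c + Y.c := rfl
@[simp] theorem add_s : (X + Y).s = X.s + Y.s := rfl
@[simp] theorem add_h : (X + Y).h = X.h + Y.h := rfl
@[simp] theorem add_th : (X + Y).th = X.th + Y.th := rfl
@[simp] theorem smul_N (r : k) : (r • X).N = r • X.N := rfl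
@[simp] theorem smul_g (r : k) : (r • X).g = r • X.g := rfl
@[simp] theorem smul_t (r : k) : (r • X).t = r * X.t := rfl
@[simp] theorem smul_a (r : k) : (r • X).a = r • X.a := rfl
@[simp] theorem smul_c (r : k) : (r • X).c = r • X.c := rfl
@[simp] theorem smul_s (r : k) : (r • X).s = r * X.s := rfl
@[simp] theorem smul_h (r : k) : (r • X).h = r • X.h := rfl
@[simp] theorem smul_th (r : k) : (r • X).th = r • X.th := rfl
end

/-- the matrix -/
def mat (o : δ) (X : XD k δ) :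
    Matrix (Fin 4 ⊕ (Unit ⊕ (δ ⊕ δ))) (Fin 4 ⊕ (Unit ⊕ (δ ⊕ δ))) k :=
  LXn 4 (xR o) (gR o 0 X.N X.g) (vR X.t X.a X.c) (vR X.s X.h X.th)

theorem mat_add : mat o (X + Y) = mat o X + mat o Y := by
  rw [mat, mat, mat, LN.LXn_add, gR_add, vR_add, vR_add, add_zero]
  rfl

theorem mat_smul (r : k) : mat o (r • X) = r • mat o X := by
  rw [mat, mat, LN.LXn_smul, gR_smul, vR_smul, vR_smul, smul_zero]
  rfl

end XD

open XD

/-- the matrix `A` -/
abbrev A4 (k : Type*) [Field k] (o : δ) :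
    Matrix (Fin 4 ⊕ (Unit ⊕ (δ ⊕ δ))) (Fin 4 ⊕ (Unit ⊕ (δ ⊕ δ))) k := LAn 4 (xR o)

/-- the vector `e` -/
abbrev ee (k : Type*) [Field k] (o : δ) : δ → k := Pi.single o 1

/-- relations between two matrices -/
structure Rel (o : δ) (X X' : XD k δ) : Prop where
  r1 : X.th ⬝ᵥ X'.a + X.h o * X'.t = X'.th ⬝ᵥ X.a + X'.h o * X.t
  r2 : X.N *ᵥ X'.a + X'.t • X.g = X'.N *ᵥ X.a + X.t • X'.g
  r3 : X.th ᵥ* X'.N = X'.th ᵥ* X.N
  r4 : X.N *ᵥ (fun i => X'.N i o) + X'.th o • X.a + (X.t * X'.h o) • ee k o =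
    X'.N *ᵥ (fun i => X.N i o) + X.th o • X'.a + (X'.t * X.h o) • ee k o
  r5 : X.s * X'.t + (X.h ⬝ᵥ X'.a + X.th ⬝ᵥ X'.c) = X'.s * X.t + (X'.h ⬝ᵥ X.a + X'.th ⬝ᵥ X.c)
  r6 : X.h ⬝ᵥ (fun i => X'.N i o) + X.th ⬝ᵥ X'.g = X'.h ⬝ᵥ (fun i => X.N i o) + X'.th ⬝ᵥ X.g
  r7 : X'.t • (fun i => X.N i o) = X.t • (fun i => X'.N i o)
  r8 : X.t • X'.th = X'.t • X.th

theorem Wn_eq : Wn 4 (xR o) (vR t u v) (vR s y z) =
    gR o 0 (vecMulVec (t • ee k o) z) (z o • u + (t * y o) • ee k o) := by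
  have x3 : (xR o : Matrix (Unit ⊕ (δ ⊕ δ)) (Unit ⊕ (δ ⊕ δ)) k) ^ 3 = 0 := xR_cube
  have a1 : xR o ^ 1 *ᵥ vR t u v = vR 0 (t • ee k o) u := by rw [pow_one, xR_mulVec]
  have a2 : xR o ^ 2 *ᵥ vR t u v = vR 0 0 (t • ee k o) := by
    rw [pow_two, ← mulVec_mulVec, xx_mulVec]
  have b1 : vR s y z ᵥ* xR o ^ 1 = vR (y o) z 0 := by rw [pow_one, vecMul_xR]
  have b2 : vR s y z ᵥ* xR o ^ 2 = vR (z o) 0 0 := by
    rw [pow_two, ← vecMul_vecMul, vecMul_xR, vecMul_xR, vR_inj]
    simp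
  ext i j
  rw [Wn, Matrix.mul_apply, Fin.sum_univ_four]
  simp only [LN.Lcn_apply, LN.Lbn_apply]
  have c0 : (((0 : Fin 4) : ℕ)) = 0 := rfl
  have c1 : (((1 : Fin 4) : ℕ)) = 1 := rfl
  have c2 : (((2 : Fin 4) : ℕ)) = 2 := rfl
  have c3 : (((3 : Fin 4) : ℕ)) = 3 := rfl
  rw [c0, c1, c2, c3]
  simp only [Nat.reduceSub, Nat.sub_self, tsub_zero]
  rw [x3, a1, a2, b1, b2]
  rcases i with i | i | i <;> rcases j with j | j | j
  · simp [vR, gR]
  · simp [vR, gR]
  · simp [vR, gR]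
  · simp [vR, gR, vecMulVec_apply]
  · simp [vR, gR]
  · simp [vR, gR]
  · simp [vR, gR]
    ring
  · simp [vR, gR, vecMulVec_apply]
    ring
  · simp [vR, gR]

theorem x4_zero : (xR o : Matrix (Unit ⊕ (δ ⊕ δ)) (Unit ⊕ (δ ⊕ δ)) k) ^ 4 = 0 :=
  pow_eq_zero_of_le (by omega) xR_cube

theorem gR_mul0 : gR o 0 N g * gR o 0 N' g' = gR o 0 0 (N *ᵥ (fun i => N' i o)) := by
  rw [gR_mul Ke_zero, gR_inj]
  simp

theorem rel_of_comm (h : mat o X * mat o X' = mat o X' * mat o X) : Rel o X X' := by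
  obtain ⟨h1, h2, h3, h4⟩ := LN.rel x4_zero (by omega) h
  rw [Wn_eq, Wn_eq, gR_mul0, gR_mul0, gR_add, gR_add, gR_inj] at h1
  rw [gR_mulVec, gR_mulVec, vR_inj] at h2
  rw [vecMul_gR, vecMul_gR, vR_inj] at h3
  have h40 := h4 0
  have h41 := h4 1
  rw [pow_zero, one_mulVec, one_mulVec, vR_dot, vR_dot] at h40
  rw [pow_one, xR_mulVec, xR_mulVec, vR_dot, vR_dot] at h41
  obtain ⟨-, h12, h13⟩ := h1
  obtain ⟨-, h22, h23⟩ := h2
  obtain ⟨h31, h32, -⟩ := h3
  refine ⟨?_, ?_, ?_, ?_, h40, h31, ?_, ?_⟩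
  · simp only [dotProduct_smul, dotProduct_single, mul_one, mul_zero, zero_add, smul_eq_mul] at h41
    linear_combination h41
  · simp only [zero_mulVec, add_zero] at h23
    rw [add_comm, h23, add_comm]
  · simpa using h32
  · calc _ = X'.th o • X.a + (X.t * X'.h o) • ee k o + X.N *ᵥ (fun i => X'.N i o) := by abel
      _ = _ := h13
      _ = _ := by abel
  · simpa using h22
  · funext j
    have h5 := congrFun (congrFun h12 o) j
    simpa [vecMulVec_apply] using h5

theorem comm_of_rel (h : Rel o X X') : mat o X * mat o X' = mat o X' * mat o X := by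
  refine LN.LXn_comm (xR_comm_gR Ke_zero) (xR_comm_gR Ke_zero) ?_ ?_ ?_ ?_
  · rw [Wn_eq, Wn_eq, gR_mul0, gR_mul0, gR_add, gR_add, gR_inj]
    refine ⟨by simp, ?_, ?_⟩
    · rw [add_zero, add_zero]
      ext i j
      have h8 := congrFun h.r8 j
      simp only [Pi.smul_apply, smul_eq_mul] at h8
      simp only [vecMulVec_apply, Pi.smul_apply, smul_eq_mul]
      linear_combination (ee k o i) * h8
    · calc _ = X.N *ᵥ (fun i => X'.N i o) + X'.th o • X.a + (X.t * X'.h o) • ee k o := by abel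
        _ = _ := h.r4
        _ = _ := by abel
  · rw [gR_mulVec, gR_mulVec, vR_inj]
    refine ⟨rfl, ?_, ?_⟩
    · rw [zero_mulVec, zero_mulVec, add_zero, add_zero]
      exact h.r7
    · rw [zero_mulVec, zero_mulVec, add_zero, add_zero, add_comm, h.r2, add_comm]
  · rw [vecMul_gR, vecMul_gR, vR_inj]
    refine ⟨h.r6, ?_, ?_⟩
    · rw [vecMul_zero, vecMul_zero, zero_add, zero_add]
      exact h.r3
    · rw [vecMul_zero, vecMul_zero]
  · intro i
    rcases i with _ | _ | i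
    · rw [pow_zero, one_mulVec, one_mulVec, vR_dot, vR_dot]
      exact h.r5
    · rw [zero_add, pow_one, xR_mulVec, xR_mulVec, vR_dot, vR_dot]
      simp only [dotProduct_smul, dotProduct_single, mul_one, mul_zero, zero_add, smul_eq_mul]
      linear_combination h.r1
    · have e2 : ∀ (t : k) (u v : δ → k), xR o ^ (i + 1 + 1) *ᵥ vR t u v =
          xR o ^ i *ᵥ vR 0 0 (t • ee k o) := by
        intro t u v
        rw [show i + 1 + 1 = i + 2 by ring, pow_add, pow_two, ← mulVec_mulVec, ← mulVec_mulVec,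
          xx_mulVec]
      rw [e2, e2]
      rcases i with _ | i
      · rw [pow_zero, one_mulVec, one_mulVec, vR_dot, vR_dot]
        have h8 := congrFun h.r8 o
        simp only [Pi.smul_apply, smul_eq_mul] at h8
        simp only [dotProduct_smul, dotProduct_single, mul_one, mul_zero, dotProduct_zero, zero_add,
          smul_eq_mul]
        linear_combination -h8
      · rw [pow_D1_zero (by omega), pow_D1_zero (by omega), dotProduct_zero, dotProduct_zero]

theorem gR_nil : IsNilpotent (gR o 0 N g) := by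
  refine ⟨3, ?_⟩
  rw [pow_succ, pow_two, gR_mul0, gR_mul0]
  ext i j
  rcases i with i | i | i <;> rcases j with j | j | j <;> simp [gR]

theorem cn_of_rel (h : Rel o X X') : CN ![A4 k o, mat o X, mat o X'] :=
  D8.cn3 (LN.LAn_comm_LXn x4_zero (xR_comm_gR Ke_zero))
    (LN.LAn_comm_LXn x4_zero (xR_comm_gR Ke_zero)) (comm_of_rel h) ⟨4, LN.LAn_nil x4_zero⟩
    (LN.LXn_nil xR_cube (xR_comm_gR Ke_zero) gR_nil) (LN.LXn_nil xR_cube (xR_comm_gR Ke_zero) gR_nil)

variable {ρ : ℕ → ℕ}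

theorem rel (hT : MaxR ρ ![A4 k o, mat o X, mat o X']) : Rel o X X' := rel_of_comm (hT.cn.1 1 2)

/-- a linear move -/
theorem move [Infinite k] (hT : MaxR ρ ![A4 k o, mat o X, mat o X']) (Y Y' : XD k δ)
    (h : ∀ r : k, Rel o (X + r • Y) (X' + r • Y')) {F : Set k} (hF : F.Finite) :
    ∃ r, r ∉ F ∧ MaxR ρ ![A4 k o, mat o (X + r • Y), mat o (X' + r • Y')] := by
  obtain ⟨r, hr, h1⟩ := D8.MaxR.line2 hT (mat o Y) (mat o Y') (fun r => by
    rw [← mat_smul, ← mat_smul, ← mat_add, ← mat_add]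
    exact cn_of_rel (h r)) hF
  refine ⟨r, hr, ?_⟩
  rw [← mat_smul, ← mat_smul, ← mat_add, ← mat_add] at h1
  exact h1

theorem lin (hT : MaxR ρ ![A4 k o, mat o X, mat o X']) (p q r s : k) (h : p * s - q * r ≠ 0) :
    MaxR ρ ![A4 k o, mat o (p • X + q • X'), mat o (r • X + s • X')] := by
  have h1 := D8.MaxR.lin hT p q r s 0 0 0 0 h
  simp only [zero_smul, add_zero] at h1
  rw [← mat_smul, ← mat_smul, ← mat_smul, ← mat_smul, ← mat_add, ← mat_add] at h1
  exact h1

end L322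

end Pool.Agent.Lib.D13
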