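import Pool.Agent.Lib.D13.L322b

/-!
# MP_5dcbc3_ag: one long block and `R = <w> + D + x D`: reduction to `K = 0`, and for a block of size 4
to `t = 0` (case II)
-/

namespace Pool.Agent.Lib.D13

open Matrix Pool.Agent.Lib.Q5dc Pool.Agent.Lib.D7

variable {k : Type*} [Field k] {δ : Type*} [Fintype δ] [DecidableEq δ]

namespace L322

variable {o : δ} {ρ : ℕ → ℕ}

/-- up to duality `K = 0` for `B` and `C` -/
theorem to_K0 [CharZero k] {m : ℕ}
    {T : Fin 3 → Matrix (Fin (m + 3 + 1) ⊕ (Unit ⊕ (δ ⊕ δ))) (Fin (m + 3 + 1) ⊕ (Unit ⊕ (δ ⊕ δ))) k}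
    (hT : MaxR ρ T) (h0 : T 0 = LAn (m + 3 + 1) (xR o))
    (hρ : ρ 2 ≤ (LAn (m + 3 + 1) (xR o : Matrix (Unit ⊕ (δ ⊕ δ)) (Unit ⊕ (δ ⊕ δ)) k) ^ 2).rank) :
    ∃ (N N' : Matrix δ δ k) (g g' : δ → k) (a b a' b' : Unit ⊕ (δ ⊕ δ) → k),
      MaxR ρ ![LAn (m + 3 + 1) (xR o), LXn (m + 3 + 1) (xR o) (gR o 0 N g) a b,
        LXn (m + 3 + 1) (xR o) (gR o 0 N' g') a' b'] := by
  have hx3 : (xR o : Matrix (Unit ⊕ (δ ⊕ δ)) (Unit ⊕ (δ ⊕ δ)) k) ^ (m + 3) = 0 :=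
    pow_eq_zero_of_le (by omega) xR_cube
  obtain ⟨G, G', a, b, a', b', hT1, hG, hG'⟩ := LN.shape (m := m + 3) hT h0 hx3
  have hn : IsNilpotent G := LN.nil_of_LXn hx3 hG (hT1.cn.2 1)
  have hn' : IsNilpotent G' := LN.nil_of_LXn hx3 hG' (hT1.cn.2 2)
  obtain ⟨K, N, g, rfl, hK⟩ := gR_of_comm hG hn
  obtain ⟨K', N', g', rfl, hK'⟩ := gR_of_comm hG' hn'
  obtain ⟨t, u, v, rfl⟩ := exists_vR a
  obtain ⟨t', u', v', rfl⟩ := exists_vR a'
  obtain ⟨s, y, z, rfl⟩ := exists_vR b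
  obtain ⟨s', y', z', rfl⟩ := exists_vR b'
  have hr : ∀ p q r : k, ((LAn (m + 3 + 1) (xR o) + r • LXn (m + 3 + 1) (xR o)
      (gR o (p • K + q • K') (p • N + q • N') (p • g + q • g'))
      (vR (p * t + q * t') (p • u + q • u') (p • v + q • v'))
      (vR (p * s + q * s') (p • y + q • y') (p • z + q • z'))) ^ 2).rank ≤
      (LAn (m + 3 + 1) (xR o : Matrix (Unit ⊕ (δ ⊕ δ)) (Unit ⊕ (δ ⊕ δ)) k) ^ 2).rank := by
    intro p q r
    have e : LXn (m + 3 + 1) (xR o)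
      (gR o (p • K + q • K') (p • N + q • N') (p • g + q • g'))
      (vR (p * t + q * t') (p • u + q • u') (p • v + q • v'))
      (vR (p * s + q * s') (p • y + q • y') (p • z + q • z')) =
      p • LXn (m + 3 + 1) (xR o) (gR o K N g) (vR t u v) (vR s y z) +
      q • LXn (m + 3 + 1) (xR o) (gR o K' N' g') (vR t' u' v') (vR s' y' z') := by
      rw [LN.LXn_smul, LN.LXn_smul, LN.LXn_add, gR_smul, gR_smul, gR_add, vR_smul, vR_smul,
        vR_add, vR_smul, vR_smul, vR_add]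
    rw [e]
    refine (hT1.rank_le ?_ 2).trans hρ
    exact add_mem (D8.mem0 _ _ _) (SMulMemClass.smul_mem _ (add_mem
      (SMulMemClass.smul_mem _ (D8.mem1 _ _ _)) (SMulMemClass.smul_mem _ (D8.mem2 _ _ _))))
  have hKpq : ∀ p q : k, Ke o (p • K + q • K') := by
    intro p q i
    simp [hK i, hK' i]
  have row : ∀ i, i ≠ o → ∀ j, K i j = 0 := by
    intro i hi j
    have := K_row (by omega) (hKpq 1 0) (hr 1 0) hi j
    simpa using this
  have row' : ∀ i, i ≠ o → ∀ j, K' i j = 0 := by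
    intro i hi j
    have := K_row (by omega) (hKpq 0 1) (hr 0 1) hi j
    simpa using this
  have hkq : ∀ p q : k, ∀ (j : δ) (i : {i : δ // i ≠ o}),
      (p * K o j + q * K' o j) * (p * N i o + q * N' i o) = 0 := by
    intro p q j i
    exact kq (by omega) (hKpq p q) (hr p q) i.2 j
  rcases pencil_or hkq with h1 | h1
  · have e1 : K = 0 := by
      ext i j
      by_cases hi : i = o
      · rw [hi]
        exact (h1 j).1
      · exact row i hi j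
    have e2 : K' = 0 := by
      ext i j
      by_cases hi : i = o
      · rw [hi]
        exact (h1 j).2
      · exact row' i hi j
    subst e1 e2
    exact ⟨N, N', g, g', _, _, _, _, hT1⟩
  · have e1 : dK o K N = 0 := by
      ext i j
      by_cases hj : j = o
      · simp [dK, hj]
      · by_cases hi : i = o
        · have := (h1 ⟨j, hj⟩).1
          simp only at this
          simp [dK, hj, hi, this]
        · simp [dK, hj, hi, row j hj i]
    have e2 : dK o K' N' = 0 := by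
      ext i j
      by_cases hj : j = o
      · simp [dK, hj]
      · by_cases hi : i = o
        · have := (h1 ⟨j, hj⟩).2
          simp only at this
          simp [dK, hj, hi, this]
        · simp [dK, hj, hi, row' j hj i]
    have h2 := dualR hK hK' hT1
    rw [e1, e2] at h2
    exact ⟨_, _, _, _, _, _, _, _, h2⟩

open XD

variable {X X' : XD k δ}

/-- a block of size 4 -/
theorem to_XD [CharZero k]
    {T : Fin 3 → Matrix (Fin 4 ⊕ (Unit ⊕ (δ ⊕ δ))) (Fin 4 ⊕ (Unit ⊕ (δ ⊕ δ))) k}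
    (hT : MaxR ρ T) (h0 : T 0 = A4 k o) (hρ : ρ 2 ≤ (A4 k o ^ 2).rank) :
    ∃ X X' : XD k δ, MaxR ρ ![A4 k o, mat o X, mat o X'] := by
  obtain ⟨N, N', g, g', a, b, a', b', hT1⟩ := to_K0 (m := 0) hT h0 hρ
  obtain ⟨t, u, v, rfl⟩ := exists_vR a
  obtain ⟨t', u', v', rfl⟩ := exists_vR a'
  obtain ⟨s, y, z, rfl⟩ := exists_vR b
  obtain ⟨s', y', z', rfl⟩ := exists_vR b'
  exact ⟨⟨N, g, t, u, v, s, y, z⟩, ⟨N', g', t', u', v', s', y', z'⟩, hT1⟩

theorem comm_A : A4 k o * mat o X = mat o X * A4 k o :=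
  LN.LAn_comm_LXn x4_zero (xR_comm_gR Ke_zero)

/-- `t = 0` or `th(e) = 0` on the pencil -/
theorem t_or [CharZero k] (hT : MaxR ρ ![A4 k o, mat o X, mat o X']) (h4 : ρ 4 = 0) :
    (X.t = 0 ∧ X'.t = 0) ∨ (X.th o = 0 ∧ X'.th o = 0) := by
  have key : ∀ p q : k, ∀ _ _ : Unit, (p * X.t + q * X'.t) * (p * X.th o + q * X'.th o) = 0 := by
    intro p q _ _
    have hm : mat o (p • X + q • X') ∈ adj ![A4 k o, mat o X, mat o X'] := by
      rw [mat_add, mat_smul, mat_smul]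
      exact add_mem (SMulMemClass.smul_mem _ (D8.mem1 _ _ _)) (SMulMemClass.smul_mem _ (D8.mem2 _ _ _))
    have hA : A4 k o ∈ adj ![A4 k o, mat o X, mat o X'] := D8.mem0 _ _ _
    have h := sq_sq (comm_A (o := o) (X := p • X + q • X')) (hT.pow_eq_zero (add_mem hA hm) h4)
      (hT.pow_eq_zero (sub_mem hA hm) h4) (hT.pow_eq_zero hA h4) (hT.pow_eq_zero hm h4)
    have := al_be h
    simpa using this
  rcases pencil_or (α := Unit) (β := Unit) (κ := fun _ => X.t) (κ' := fun _ => X'.t)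
    (q := fun _ => X.th o) (q' := fun _ => X'.th o) key with h | h
  · exact Or.inl (h ())
  · exact Or.inr (h ())

/-! ### duality -/

/-- the dual data (if `N e` is a multiple of `e`) -/
def dX (o : δ) (X : XD k δ) : XD k δ :=
  ⟨dN o 0 X.N X.g, dg o X.N X.g, X.th o, fun i => if i = o then X.h o else X.th i,
    fun i => if i = o then X.s else X.h i, X.c o, fun i => if i = o then X.a o else X.c i,
    fun i => if i = o then X.t else X.a i⟩

theorem dualXD [Infinite k] (hT : MaxR ρ ![A4 k o, mat o X, mat o X'])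
    (h : ∀ i, i ≠ o → X.N i o = 0) (h' : ∀ i, i ≠ o → X'.N i o = 0) :
    MaxR ρ ![A4 k o, mat o (dX o X), mat o (dX o X')] := by
  have e : ∀ X : XD k δ, (∀ i, i ≠ o → X.N i o = 0) → dK o 0 X.N = 0 := by
    intro X h
    ext i j
    by_cases hj : j = o
    · simp [dK, hj]
    · by_cases hi : i = o
      · simp [dK, hj, hi, h j hj]
      · simp [dK, hj, hi]
  have h2 := dualR Ke_zero Ke_zero hT
  rw [e X h, e X' h'] at h2
  exact h2

/-! ### conjugation -/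

/-- conjugation by `1 + gR o 0 M m` -/
def cX (o : δ) (M : Matrix δ δ k) (m : δ → k) (X : XD k δ) : XD k δ :=
  ⟨X.N, X.g + X.N *ᵥ (fun i => M i o) - M *ᵥ (fun i => X.N i o), X.t,
    X.a - X.t • (fun i => M i o), X.c - X.t • m - M *ᵥ X.a + X.t • (M *ᵥ (fun i => M i o)),
    X.s + X.h ⬝ᵥ (fun i => M i o) + X.th ⬝ᵥ m, X.h + X.th ᵥ* M, X.th⟩

theorem gR_cube (M1 M2 M3 : Matrix δ δ k) (m1 m2 m3 : δ → k) :
    gR o 0 M1 m1 * gR o 0 M2 m2 * gR o 0 M3 m3 = 0 := by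
  rw [gR_mul0, gR_mul0]
  ext i j
  rcases i with i | i | i <;> rcases j with j | j | j <;> simp [gR]

theorem conjX (M : Matrix δ δ k) (m : δ → k) (hT : MaxR ρ ![A4 k o, mat o X, mat o X']) :
    MaxR ρ ![A4 k o, mat o (cX o M m X), mat o (cX o M m X')] := by
  set P := gR o 0 M m with hP
  have hP3 : P * P * P = 0 := gR_cube _ _ _ _ _ _
  have e1 : (1 - P + P * P) * (1 + P) = 1 := by
    have : (1 - P + P * P) * (1 + P) = 1 + P * P * P := by noncomm_ring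
    rw [this, hP3, add_zero]
  have e2 : (1 + P) * (1 - P + P * P) = 1 := by
    have : (1 + P) * (1 - P + P * P) = 1 + P * P * P := by noncomm_ring
    rw [this, hP3, add_zero]
  have cP : xR o * P = P * xR o := xR_comm_gR Ke_zero
  have e3 : xR o * (1 - P + P * P) = (1 - P + P * P) * xR o := by
    have h1 : xR o * (P * P) = P * P * xR o := by
      rw [← Matrix.mul_assoc, cP, Matrix.mul_assoc, cP, Matrix.mul_assoc]
    rw [Matrix.mul_add, Matrix.mul_sub, Matrix.add_mul, Matrix.sub_mul, Matrix.mul_one,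
      Matrix.one_mul, cP, h1]
  have h1 := LN.conjR _ _ e1 e2 e3 hT
  have eG : ∀ X : XD k δ, (1 - P + P * P) * gR o 0 X.N X.g * (1 + P) =
      gR o 0 (cX o M m X).N (cX o M m X).g := by
    intro X
    have h2 : (1 - P + P * P) * gR o 0 X.N X.g * (1 + P) = gR o 0 X.N X.g +
        gR o 0 X.N X.g * P - P * gR o 0 X.N X.g - P * gR o 0 X.N X.g * P +
        P * P * gR o 0 X.N X.g + P * P * gR o 0 X.N X.g * P := by noncomm_ring
    rw [h2, hP, gR_cube, gR_cube, gR_mul0, gR_mul0, Matrix.zero_mul, sub_zero, add_zero, add_zero,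
      gR_add, sub_eq_add_neg, ← neg_one_smul k, gR_smul, gR_add, gR_inj]
    refine ⟨by simp, by simp [cX], ?_⟩
    simp [cX, sub_eq_add_neg]
  have ea : ∀ X : XD k δ, (1 - P + P * P) *ᵥ vR X.t X.a X.c =
      vR (cX o M m X).t (cX o M m X).a (cX o M m X).c := by
    intro X
    rw [add_mulVec, sub_mulVec, one_mulVec, ← mulVec_mulVec, hP, gR_mulVec, gR_mulVec,
      sub_eq_add_neg, ← neg_one_smul k, vR_smul, vR_add, vR_add, vR_inj]
    refine ⟨by simp [cX], ?_, ?_⟩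
    · simp [cX, sub_eq_add_neg]
    · simp only [cX, zero_mulVec, add_zero, zero_smul, zero_add, mulVec_smul]
      module
  have eb : ∀ X : XD k δ, vR X.s X.h X.th ᵥ* (1 + P) =
      vR (cX o M m X).s (cX o M m X).h (cX o M m X).th := by
    intro X
    rw [vecMul_add, vecMul_one, hP, vecMul_gR, vR_add, vR_inj]
    refine ⟨by simp [cX, add_assoc], by simp [cX], by simp [cX]⟩
  rw [eG, eG, ea, ea, eb, eb] at h1
  exact h1

/-! ### case I -/

variable {N N' : Matrix δ δ k} {g a' c' h h' th : δ → k} {s : k}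

theorem relI (h1 : th o = 0) (h2 : ∀ i, N' i o = 0) (h3 : h' o = th ⬝ᵥ a') (h4 : th ᵥ* N' = 0)
    (h5 : N' *ᵥ (fun i => N i o) = (th ⬝ᵥ a') • ee k o)
    (h6 : th ⬝ᵥ (N *ᵥ a') = h' ⬝ᵥ (fun i => N i o)) :
    Rel o (⟨N, g, 1, 0, 0, s, h, th⟩ : XD k δ)
      ⟨N', N *ᵥ a', 0, a', c', h ⬝ᵥ a' + th ⬝ᵥ c', h', 0⟩ := by
  have e0 : (fun i => N' i o) = 0 := funext h2
  refine ⟨?_, ?_, ?_, ?_, ?_, ?_, ?_, ?_⟩
  · simp [h3]
  · simp
  · simp [h4]
  · simp [e0, h5, h1, h3]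
  · simp
  · simp [e0, h6]
  · simp [e0]
  · simp

theorem relI_fwd {X' : XD k δ} (hR : Rel o (⟨N, g, 1, 0, 0, s, h, th⟩ : XD k δ) X')
    (ht : X'.t = 0) (h1 : th o = 0) :
    X'.th = 0 ∧ (∀ i, X'.N i o = 0) ∧ X'.h o = th ⬝ᵥ X'.a ∧ th ᵥ* X'.N = 0 ∧
      X'.N *ᵥ (fun i => N i o) = (th ⬝ᵥ X'.a) • ee k o ∧
      th ⬝ᵥ (N *ᵥ X'.a) = X'.h ⬝ᵥ (fun i => N i o) ∧ X'.g = N *ᵥ X'.a ∧
      X'.s = h ⬝ᵥ X'.a + th ⬝ᵥ X'.c := by
  obtain ⟨r1, r2, r3, r4, r5, r6, r7, r8⟩ := hR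
  simp only [ht, one_smul, zero_smul, mul_zero, mul_one, zero_mul, add_zero, zero_add, smul_zero,
    dotProduct_zero, mulVec_zero, h1] at r1 r2 r3 r4 r5 r6 r7 r8
  have e0 : (fun i => X'.N i o) = 0 := r7.symm
  rw [r8, zero_vecMul] at r3
  rw [e0, mulVec_zero, zero_add, one_mul] at r4
  rw [e0, dotProduct_zero, zero_add, r8, zero_dotProduct, add_zero] at r6
  refine ⟨r8, congrFun e0, r1.symm, r3, ?_, ?_, r2.symm, ?_⟩
  · rw [← r4, ← r1]
  · rw [r2, r6]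
  · rw [← r5]

theorem b4 (h1 : th o = 0) (hX : mat o (⟨N, g, 1, 0, 0, s, h, th⟩ : XD k δ) ^ 4 = 0) :
    th ⬝ᵥ (fun i => N i o) = 0 ∧ th ⬝ᵥ (N *ᵥ (fun i => N i o)) = 0 := by
  set M := mat o (⟨N, g, 1, 0, 0, s, h, th⟩ : XD k δ) with hM
  have hW : ∀ r, Lcn 4 (xR o) (vR (1 : k) 0 0) *ᵥ (Lbn 4 (xR o) (vR s h th) *ᵥ r) =
      gR o 0 (vecMulVec (ee k o) th) (h o • ee k o) *ᵥ r := by
    intro r
    rw [mulVec_mulVec]
    show Wn 4 (xR o) (vR 1 0 0) (vR s h th) *ᵥ r = _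
    rw [Wn_eq, h1]
    simp
  have step : ∀ r r', M *ᵥ Sum.elim (Lbn 4 (xR o) (vR s h th) *ᵥ r) r' =
      Sum.elim (Lbn 4 (xR o) (vR s h th) *ᵥ r')
        (gR o 0 (vecMulVec (ee k o) th) (h o • ee k o) *ᵥ r + gR o 0 N g *ᵥ r') := by
    intro r r'
    rw [hM, mat, LXn_mulVec, hW]
  have h0 : M *ᵥ Sum.elim (ev k 4 0) 0 = Sum.elim (Lbn 4 (xR o) (vR s h th) *ᵥ 0) (vR 1 0 0) := by
    rw [hM, mat, LXn_mulVec, Lcn_ev (by omega), pow_zero, one_mulVec, mulVec_zero, mulVec_zero,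
      add_zero]
  have ez : (fun i => vecMulVec (ee k o) th i o) = 0 := by
    funext i
    simp [vecMulVec_apply, h1]
  have h4 : (M ^ 4) *ᵥ Sum.elim (ev k 4 0) 0 =
      Sum.elim (Lbn 4 (xR o) (vR s h th) *ᵥ (vR 0 0 (h o • ee k o + N *ᵥ (fun i => N i o))))
        (vR 0 0 ((th ⬝ᵥ (fun i => N i o)) • ee k o)) := by
    rw [pow_succ, pow_succ, pow_two, ← mulVec_mulVec, ← mulVec_mulVec, ← mulVec_mulVec, h0, step,
      mulVec_zero, zero_add, step, step, gR_mulVec, gR_mulVec, gR_mulVec, vR_add, gR_mulVec,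
      gR_mulVec, vR_add, ez]
    congr 1
    · congr 1
      rw [vR_inj]
      refine ⟨by simp, ?_, ?_⟩
      · simp
      · simp
    · rw [vR_inj]
      refine ⟨by simp, ?_, ?_⟩
      · ext i
        simp
      · ext i
        simp [vecMulVec_mulVec]
  rw [hX, zero_mulVec] at h4
  constructor
  · have h5 := congrFun h4 (Sum.inr (Sum.inr (Sum.inr o)))
    simpa [vR] using h5.symm
  · have h5 := congrFun h4 (Sum.inl 3)
    have h6 : (Lbn 4 (xR o) (vR s h th) *ᵥ (vR 0 0 (h o • ee k o + N *ᵥ (fun i => N i o)))) 3 =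
        th ⬝ᵥ (N *ᵥ (fun i => N i o)) := by
      rw [Lbn_mulVec, show (4 - 1 - ((3 : Fin 4) : ℕ)) = 0 by rfl, pow_zero, one_mulVec, vR_dot]
      simp [h1]
    rw [← h6]
    exact h5.symm

theorem mat_mem (hT : MaxR ρ ![A4 k o, mat o X, mat o X']) :
    mat o X ∈ adj ![A4 k o, mat o X, mat o X'] := D8.mem1 _ _ _

/-- case I, `th ≠ 0` -/
theorem caseI_th [Infinite k] {X' : XD k δ}
    (hT : MaxR ρ ![A4 k o, mat o (⟨N, g, 1, 0, 0, s, h, th⟩ : XD k δ), mat o X']) (hρ4 : ρ 4 = 0)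
    (ht : X'.t = 0) (h1 : th o = 0) (hth : th ≠ 0) {i₀ : δ} (hi₀ : i₀ ≠ o) (hN : N i₀ o ≠ 0) :
    False := by
  obtain ⟨f1, f2, f3, f4, f5, f6, f7, f8⟩ := relI_fwd (rel hT) ht h1
  obtain ⟨b1, b2⟩ := b4 h1 (hT.pow_eq_zero (D8.mem1 _ _ _) hρ4)
  obtain ⟨N', g', t', a', c', s', h', th'⟩ := X'
  simp only at ht f1 f2 f3 f4 f5 f6 f7 f8
  subst ht f1 f7 f8
  obtain ⟨j, hj⟩ : ∃ j, th j ≠ 0 := by
    by_contra hh
    push Not at hh
    exact hth (funext hh)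
  set ph : δ → k := (N i₀ o)⁻¹ • Pi.single i₀ 1 with hph
  have ph0 : ph o = 0 := by simp [hph, hi₀.symm]
  have ph1 : ph ⬝ᵥ (fun i => N i o) = 1 := by simp [hph, hN]
  clear_value ph
  set u : δ → k := (th j)⁻¹ • Pi.single j 1 with hu
  have thu : th ⬝ᵥ u = 1 := by simp [hu, hj]
  clear_value u
  obtain ⟨r, hr, h2⟩ := move hT ⟨vecMulVec u ph, 0, 0, 0, 0, 0, 0, 0⟩
    ⟨0, vecMulVec u ph *ᵥ a', 0, 0, 0, 0, (ph ⬝ᵥ a') • ph, 0⟩ (fun r => by
      have e1 : (⟨N, g, 1, 0, 0, s, h, th⟩ : XD k δ) + r • ⟨vecMulVec u ph, 0, 0, 0, 0, 0, 0, 0⟩ =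
          ⟨N + r • vecMulVec u ph, g, 1, 0, 0, s, h, th⟩ := by
        show XD.mk _ _ _ _ _ _ _ _ = _
        simp only [smul_g, smul_t, smul_a, smul_c, smul_s, smul_h, smul_th, smul_N, smul_zero,
          mul_zero, add_zero]
      have e2 : (⟨N', N *ᵥ a', 0, a', c', h ⬝ᵥ a' + th ⬝ᵥ c', h', 0⟩ : XD k δ) +
          r • ⟨0, vecMulVec u ph *ᵥ a', 0, 0, 0, 0, (ph ⬝ᵥ a') • ph, 0⟩ =
          ⟨N', (N + r • vecMulVec u ph) *ᵥ a', 0, a', c', h ⬝ᵥ a' + th ⬝ᵥ c',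
            h' + r • (ph ⬝ᵥ a') • ph, 0⟩ := by
        show XD.mk _ _ _ _ _ _ _ _ = _
        simp only [smul_g, smul_t, smul_a, smul_c, smul_s, smul_h, smul_th, smul_N, smul_zero,
          mul_zero, add_zero, add_mulVec, smul_mulVec]
      rw [e1, e2]
      have en : (fun i => (N + r • vecMulVec u ph) i o) = fun i => N i o := by
        funext i
        simp [vecMulVec_apply, ph0]
      refine relI h1 f2 ?_ f4 ?_ ?_
      · simp [ph0, f3]
      · rw [en, f5]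
      · rw [en, add_mulVec, dotProduct_add, f6, add_dotProduct, smul_mulVec, dotProduct_smul,
          vecMulVec_mulVec, smul_dotProduct, smul_dotProduct, ph1]
        simp [dotProduct_smul, thu]) (Set.finite_singleton (0 : k))
  have e1 : (⟨N, g, 1, 0, 0, s, h, th⟩ : XD k δ) + r • ⟨vecMulVec u ph, 0, 0, 0, 0, 0, 0, 0⟩ =
      ⟨N + r • vecMulVec u ph, g, 1, 0, 0, s, h, th⟩ := by
    show XD.mk _ _ _ _ _ _ _ _ = _
    simp only [smul_g, smul_t, smul_a, smul_c, smul_s, smul_h, smul_th, smul_N, smul_zero,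
      mul_zero, add_zero]
  rw [e1] at h2
  obtain ⟨-, d2⟩ := b4 h1 (h2.pow_eq_zero (D8.mem1 _ _ _) hρ4)
  have en : (fun i => (N + r • vecMulVec u ph) i o) = fun i => N i o := by
    funext i
    simp [vecMulVec_apply, ph0]
  rw [en, add_mulVec, dotProduct_add, b2, smul_mulVec, vecMulVec_mulVec, ph1] at d2
  simp [dotProduct_smul, thu] at d2
  exact hr (by simp [d2])

/-- case I -/
theorem caseI [Infinite k] {X' : XD k δ}
    (hT : MaxR ρ ![A4 k o, mat o (⟨N, g, 1, 0, 0, s, h, th⟩ : XD k δ), mat o X']) (hρ4 : ρ 4 = 0)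
    (ht : X'.t = 0) (h1 : th o = 0) {i₀ : δ} (hi₀ : i₀ ≠ o) (hN : N i₀ o ≠ 0) :
    False := by
  by_cases hth : th ≠ 0
  · exact caseI_th hT hρ4 ht h1 hth hi₀ hN
  rw [not_not] at hth
  obtain ⟨f1, f2, f3, f4, f5, f6, f7, f8⟩ := relI_fwd (rel hT) ht h1
  obtain ⟨N', g', t', a', c', s', h', th'⟩ := X'
  simp only at ht f1 f2 f3 f4 f5 f6 f7 f8
  subst ht f1 f7 f8 hth
  simp only [zero_dotProduct, zero_smul] at f3 f5 f6
  set ph : δ → k := (N i₀ o)⁻¹ • Pi.single i₀ 1 with hph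
  have ph0 : ph o = 0 := by simp [hph, hi₀.symm]
  have ph1 : ph ⬝ᵥ (fun i => N i o) = 1 := by simp [hph, hN]
  clear_value ph
  -- the linear form `mu`
  have hdet : (N' + vecMulVec (ee k o) ph).det = 0 := by
    rw [← Matrix.exists_mulVec_eq_zero_iff]
    refine ⟨ee k o, fun h0 => ?_, ?_⟩
    · have := congrFun h0 o
      simp at this
    · ext i
      simp [vecMulVec_apply, f2 i, ph0]
  obtain ⟨mu, hmu, hmu2⟩ := Matrix.exists_vecMul_eq_zero_iff.2 hdet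
  have hmu3 : mu ᵥ* N' + (mu o) • ph = 0 := by
    rw [vecMul_add, vecMul_vecMulVec] at hmu2
    simpa using hmu2
  have hmuo : mu o = 0 := by
    have h3 := congrArg (fun v => v ⬝ᵥ (fun i => N i o)) hmu3
    simp only [add_dotProduct, smul_dotProduct, ph1, zero_dotProduct, ← dotProduct_mulVec, f5,
      dotProduct_zero, zero_add, smul_eq_mul, mul_one] at h3
    exact h3
  have hmuN : mu ᵥ* N' = 0 := by
    rw [hmuo, zero_smul, add_zero] at hmu3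
    exact hmu3
  set es : δ → k := Pi.single o 1 - (N o o) • ph with hes
  have es0 : es o = 1 := by simp [hes, ph0]
  have es1 : es ⬝ᵥ (fun i => N i o) = 0 := by
    rw [hes, sub_dotProduct, smul_dotProduct, ph1]
    simp
  have key : ∀ r : k, (⟨N, g, 1, 0, 0, s, h, 0⟩ : XD k δ) + r • ⟨0, 0, 0, 0, 0, 0, 0, mu⟩ =
      ⟨N, g, 1, 0, 0, s, h, r • mu⟩ := by
    intro r
    show XD.mk _ _ _ _ _ _ _ _ = _
    simp only [smul_g, smul_t, smul_a, smul_c, smul_s, smul_h, smul_th, smul_N, smul_zero,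
      mul_zero, add_zero, zero_add]
  obtain ⟨r, hr, h2⟩ := move hT ⟨0, 0, 0, 0, 0, 0, 0, mu⟩
    ⟨(mu ⬝ᵥ a') • vecMulVec (ee k o) ph, 0, 0, 0, 0, mu ⬝ᵥ c',
      (mu ⬝ᵥ a') • es + (mu ⬝ᵥ (N *ᵥ a')) • ph, 0⟩ (fun r => by
      have e2 : (⟨N', N *ᵥ a', 0, a', c', h ⬝ᵥ a' + (0 : δ → k) ⬝ᵥ c', h', 0⟩ : XD k δ) +
          r • ⟨(mu ⬝ᵥ a') • vecMulVec (ee k o) ph, 0, 0, 0, 0, mu ⬝ᵥ c',
            (mu ⬝ᵥ a') • es + (mu ⬝ᵥ (N *ᵥ a')) • ph, 0⟩ =
          ⟨N' + r • (mu ⬝ᵥ a') • vecMulVec (ee k o) ph, N *ᵥ a', 0, a', c',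
            h ⬝ᵥ a' + (r • mu) ⬝ᵥ c',
            h' + r • ((mu ⬝ᵥ a') • es + (mu ⬝ᵥ (N *ᵥ a')) • ph), 0⟩ := by
        show XD.mk _ _ _ _ _ _ _ _ = _
        simp only [smul_g, smul_t, smul_a, smul_c, smul_s, smul_h, smul_th, smul_N, smul_zero,
          mul_zero, add_zero, zero_dotProduct, smul_dotProduct, smul_eq_mul]
      rw [key, e2]
      refine relI ?_ ?_ ?_ ?_ ?_ ?_
      · simp [hmuo]
      · intro i
        simp [vecMulVec_apply, f2 i, ph0]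
      · simp [f3, es0, ph0]
      · rw [vecMul_add, smul_vecMul, hmuN, vecMul_smul, vecMul_smul, vecMul_vecMulVec]
        simp [hmuo]
      · rw [add_mulVec, f5, smul_mulVec, smul_mulVec, vecMulVec_mulVec, ph1, smul_dotProduct]
        simp [smul_smul]
      · rw [add_dotProduct, ← f6, smul_dotProduct, smul_dotProduct, add_dotProduct,
          smul_dotProduct, smul_dotProduct, es1, ph1]
        simp) (Set.finite_singleton (0 : k))
  rw [key] at h2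
  have hr0 : r ≠ 0 := fun e => hr (by simp [e])
  refine caseI_th h2 hρ4 ?_ ?_ ?_ hi₀ hN
  · show (0 : k) + r * 0 = 0
    simp
  · simp [hmuo]
  · exact smul_ne_zero hr0 hmu

/-- up to duality `t = 0` for `B` and `C` (case II) -/
theorem to_II [CharZero k] {T : Fin 3 → Matrix (Fin 4 ⊕ (Unit ⊕ (δ ⊕ δ))) (Fin 4 ⊕ (Unit ⊕ (δ ⊕ δ))) k}
    (hT : MaxR ρ T) (h0 : T 0 = A4 k o) (hρ : ρ 2 ≤ (A4 k o ^ 2).rank) (hρ4 : ρ 4 = 0) :
    ∃ X X' : XD k δ, MaxR ρ ![A4 k o, mat o X, mat o X'] ∧ X.t = 0 ∧ X'.t = 0 := by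
  obtain ⟨X, X', hT1⟩ := to_XD hT h0 hρ
  rcases t_or hT1 hρ4 with ⟨t1, t2⟩ | ⟨t1, t2⟩
  · exact ⟨X, X', hT1, t1, t2⟩
  by_cases ht : X.t = 0 ∧ X'.t = 0
  · exact ⟨X, X', hT1, ht.1, ht.2⟩
  -- a triple with `t = 1, t' = 0`
  obtain ⟨Z, Z', hZ, z1, z2, z3, z4⟩ : ∃ Z Z' : XD k δ, MaxR ρ ![A4 k o, mat o Z, mat o Z'] ∧
      Z.t = 1 ∧ Z'.t = 0 ∧ Z.th o = 0 ∧ Z'.th o = 0 := by
    by_cases hX : X.t = 0
    · have hX' : X'.t ≠ 0 := fun e => ht ⟨hX, e⟩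
      refine ⟨_, _, lin hT1 0 (X'.t)⁻¹ 1 0 (by simpa using hX'), ?_, ?_, ?_, ?_⟩
      · simp [hX']
      · simp [hX]
      · simp [t2]
      · simp [t1]
    · refine ⟨_, _, lin hT1 (X.t)⁻¹ 0 (-X'.t * (X.t)⁻¹) 1 (by simpa using hX), ?_, ?_, ?_, ?_⟩
      · simp [hX]
      · simp [hX]
      · simp [t1]
      · simp [t1, t2]
  -- normalise
  have hc := conjX (Matrix.of fun i j => Z.a i * (Pi.single o 1 : δ → k) j) Z.c hZ
  set M : Matrix δ δ k := Matrix.of fun i j => Z.a i * (Pi.single o 1 : δ → k) j with hM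
  have hMo : (fun i => M i o) = Z.a := by
    funext i
    simp [hM]
  have e1 : cX o M Z.c Z = ⟨Z.N, Z.g + Z.N *ᵥ Z.a - M *ᵥ (fun i => Z.N i o), 1, 0, 0,
      Z.s + Z.h ⬝ᵥ Z.a + Z.th ⬝ᵥ Z.c, Z.h + Z.th ᵥ* M, Z.th⟩ := by
    simp only [cX, hMo, z1, one_smul, sub_self, zero_sub, neg_add_cancel]
  rw [e1] at hc
  by_cases hN : ∀ i, i ≠ o → Z.N i o = 0
  · -- the dual is of case II
    have hR := rel hZ
    have h7 := hR.r7
    rw [z1, z2, zero_smul, one_smul] at h7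
    have hN' : ∀ i, i ≠ o → Z'.N i o = 0 := fun i _ => (congrFun h7 i).symm
    refine ⟨_, _, dualXD hZ hN hN', ?_, ?_⟩
    · exact z3
    · exact z4
  · push Not at hN
    obtain ⟨i₀, hi₀, hN⟩ := hN
    exact (caseI hc hρ4 z2 z3 hi₀ hN).elim

end L322

end Pool.Agent.Lib.D13
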