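import Pool.Agent.Lib.D13.L32Defs

/-!
# MP_5dcbc3_ag: Jordan blocks of sizes `m + 5`, `3`, `2`: the commutation relations
-/

namespace Pool.Agent.Lib.D13

open Matrix Polynomial Pool.Agent.Lib.Q5dc Pool.Agent.Lib.D7 Pool.Agent.Lib.D8

namespace L32

variable {k : Type*} [Field k] {N m : ℕ} {A : Matrix (Fin N) (Fin N) k} {w : Fin 3 → Fin N → k}

theorem dvd3 (a0 a1 a2 : k) (r : k[X]) :
    X ^ 3 ∣ C a0 + C a1 * X + C a2 * X ^ 2 + X ^ 3 * r ↔ a0 = 0 ∧ a1 = 0 ∧ a2 = 0 := by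
  rw [X_pow_dvd_iff]
  constructor
  · intro h
    have h0 := h 0 (by norm_num)
    have h1 := h 1 (by norm_num)
    have h2 := h 2 (by norm_num)
    refine ⟨?_, ?_, ?_⟩
    · simpa [coeff_X_pow_mul', coeff_X, coeff_C] using h0
    · simpa [coeff_X_pow_mul', coeff_X, coeff_C, coeff_X_pow] using h1
    · simpa [coeff_X_pow_mul', coeff_X, coeff_C, coeff_X_pow] using h2
  · rintro ⟨rfl, rfl, rfl⟩ d hd
    simp only [map_zero, zero_mul, zero_add, coeff_X_pow_mul', if_neg (not_le.2 hd)]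

theorem dvd2 (a0 a1 : k) (r : k[X]) :
    X ^ 2 ∣ C a0 + C a1 * X + X ^ 2 * r ↔ a0 = 0 ∧ a1 = 0 := by
  rw [X_pow_dvd_iff]
  constructor
  · intro h
    have h0 := h 0 (by norm_num)
    have h1 := h 1 (by norm_num)
    refine ⟨?_, ?_⟩
    · simpa [coeff_X_pow_mul', coeff_X, coeff_C] using h0
    · simpa [coeff_X_pow_mul', coeff_X, coeff_C, coeff_X_pow] using h1
  · rintro ⟨rfl, rfl⟩ d hd
    simp only [map_zero, zero_mul, zero_add, coeff_X_pow_mul', if_neg (not_le.2 hd)]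

theorem adm_iff (P : Matrix (Fin 3) (Fin 3) k[X]) :
    PB.Adm ![m + 5, 3, 2] P ↔ X ^ (m + 2) ∣ P 0 1 ∧ X ^ (m + 3) ∣ P 0 2 ∧ X ∣ P 1 2 := by
  have hX : ∀ e : ℕ, (X : k[X]) ^ e ≠ 0 := fun e => pow_ne_zero e X_ne_zero
  have h1 : ∀ p, ((X : k[X]) ^ (m + 5) ∣ X ^ 3 * p ↔ X ^ (m + 2) ∣ p) := by
    intro p
    rw [show m + 5 = 3 + (m + 2) by ring, pow_add, mul_dvd_mul_iff_left (hX 3)]
  have h2 : ∀ p, ((X : k[X]) ^ (m + 5) ∣ X ^ 2 * p ↔ X ^ (m + 3) ∣ p) := by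
    intro p
    rw [show m + 5 = 2 + (m + 3) by ring, pow_add, mul_dvd_mul_iff_left (hX 2)]
  have h3 : ∀ p, ((X : k[X]) ^ 3 ∣ X ^ 2 * p ↔ X ∣ p) := by
    intro p
    rw [pow_succ, mul_dvd_mul_iff_left (hX 2)]
  have hle : ∀ e e' : ℕ, e ≤ e' → ∀ p : k[X], X ^ e ∣ X ^ e' * p := fun e e' he p =>
    (pow_dvd_pow X he).mul_right p
  constructor
  · intro h
    exact ⟨(h1 _).1 (h 0 1), (h2 _).1 (h 0 2), (h3 _).1 (h 1 2)⟩
  · rintro ⟨h01, h02, h12⟩ i j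
    fin_cases i <;> fin_cases j
    · exact hle _ _ le_rfl _
    · exact (h1 _).2 h01
    · exact (h2 _).2 h02
    · exact hle _ _ (by simp) _
    · exact hle _ _ le_rfl _
    · exact (h3 _).2 h12
    · exact hle _ _ (show 2 ≤ m + 5 by omega) _
    · exact hle _ _ (show 2 ≤ 3 by norm_num) _
    · exact hle _ _ le_rfl _

theorem adm_mz (x : Par k) : PB.Adm ![m + 5, 3, 2] (Mz m x) :=
  (adm_iff _).2 ⟨Dvd.intro _ rfl, Dvd.intro _ rfl, Dvd.intro _ rfl⟩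

theorem exists_mz (hA : PB.BlkB A w ![m + 5, 3, 2]) (x : Par k) : ∃ B, PB.Rep A w B (Mz m x) :=
  PB.exists_of_rep hA _ (adm_mz x)

theorem ker_iff (P : Matrix (Fin 3) (Fin 3) k[X]) :
    PB.Ker ![m + 5, 3, 2] P ↔ (X ^ (m + 5) ∣ P 0 0 ∧ X ^ (m + 5) ∣ P 0 1 ∧ X ^ (m + 5) ∣ P 0 2) ∧
      (X ^ 3 ∣ P 1 0 ∧ X ^ 3 ∣ P 1 1 ∧ X ^ 3 ∣ P 1 2) ∧
      (X ^ 2 ∣ P 2 0 ∧ X ^ 2 ∣ P 2 1 ∧ X ^ 2 ∣ P 2 2) := by
  constructor
  · intro h
    exact ⟨⟨h 0 0, h 0 1, h 0 2⟩, ⟨h 1 0, h 1 1, h 1 2⟩, h 2 0, h 2 1, h 2 2⟩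
  · rintro ⟨⟨h00, h01, h02⟩, ⟨h10, h11, h12⟩, h20, h21, h22⟩ i j
    fin_cases i <;> fin_cases j
    · exact h00
    · exact h01
    · exact h02
    · exact h10
    · exact h11
    · exact h12
    · exact h20
    · exact h21
    · exact h22

theorem dvd53 (r : k[X]) : (X : k[X]) ^ (m + 5) ∣ X ^ (m + 2) * r ↔ X ^ 3 ∣ r := by
  rw [show m + 5 = (m + 2) + 3 by ring, pow_add, mul_dvd_mul_iff_left (pow_ne_zero _ X_ne_zero)]

theorem dvd52 (r : k[X]) : (X : k[X]) ^ (m + 5) ∣ X ^ (m + 3) * r ↔ X ^ 2 ∣ r := by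
  rw [show m + 5 = (m + 3) + 2 by ring, pow_add, mul_dvd_mul_iff_left (pow_ne_zero _ X_ne_zero)]

/-- two matrices of this form commute if and only if the relations hold -/
theorem comm_mz (hA : PB.BlkB A w ![m + 5, 3, 2]) {B C' : Matrix (Fin N) (Fin N) k} {x y : Par k}
    (hB : PB.Rep A w B (Mz m x)) (hC : PB.Rep A w C' (Mz m y)) :
    B * C' = C' * B ↔ Rel x y := by
  rw [PB.comm_iff hA hB hC, ker_iff]
  obtain ⟨c0, c1, c2, e0, e1, b0, b1, b2, q1, q2, d0, d1, h0, h1, f0, f1, g1⟩ := x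
  obtain ⟨c0', c1', c2', e0', e1', b0', b1', b2', q1', q2', d0', d1', h0', h1', f0', f1', g1'⟩ := y
  set D := Mz m ⟨c0, c1, c2, e0, e1, b0, b1, b2, q1, q2, d0, d1, h0, h1, f0, f1, g1⟩ *
    Mz m ⟨c0', c1', c2', e0', e1', b0', b1', b2', q1', q2', d0', d1', h0', h1', f0', f1', g1'⟩ -
    Mz m ⟨c0', c1', c2', e0', e1', b0', b1', b2', q1', q2', d0', d1', h0', h1', f0', f1', g1'⟩ *
    Mz m ⟨c0, c1, c2, e0, e1, b0, b1, b2, q1, q2, d0, d1, h0, h1, f0, f1, g1⟩ with hD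
  have e00 : ∃ r, D 0 0 = X ^ (m + 2) * (C (b0 * c0' - b0' * c0) +
      C ((b0 * c1' - b0' * c1) + (b1 * c0' - b1' * c0) + (h0 * e0' - h0' * e0)) * X +
      C ((b0 * c2' - b0' * c2) + (b1 * c1' - b1' * c1) + (b2 * c0' - b2' * c0) +
        (h0 * e1' - h0' * e1) + (h1 * e0' - h1' * e0)) * X ^ 2 + X ^ 3 * r) := by
    refine ⟨C ((b1 * c2' - b1' * c2) + (b2 * c1' - b2' * c1) + (h1 * e1' - h1' * e1)) +
      C (b2 * c2' - b2' * c2) * X, ?_⟩
    rw [hD]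
    simp only [Mz, Matrix.sub_apply, Matrix.mul_apply, Fin.sum_univ_three]
    simp
    ring
  have e01 : ∃ r, D 0 1 = X ^ (m + 2) * (C 0 + C ((b0 * q1' - b0' * q1) + (h0 * d0' - h0' * d0)) * X
      + C ((b0 * q2' - b0' * q2) + (b1 * q1' - b1' * q1) + (h0 * d1' - h0' * d1) +
        (h1 * d0' - h1' * d0)) * X ^ 2 + X ^ 3 * r) := by
    refine ⟨C ((b1 * q2' - b1' * q2) + (b2 * q1' - b2' * q1) + (h1 * d1' - h1' * d1)) +
      C (b2 * q2' - b2' * q2) * X, ?_⟩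
    rw [hD]
    simp only [Mz, Matrix.sub_apply, Matrix.mul_apply, Fin.sum_univ_three]
    simp
    ring
  have e02 : ∃ r, D 0 2 = X ^ (m + 3) * (C (b0 * f0' - b0' * f0) + C ((b0 * f1' - b0' * f1) +
      (b1 * f0' - b1' * f0) + (h0 * g1' - h0' * g1)) * X + X ^ 2 * r) := by
    refine ⟨C ((b1 * f1' - b1' * f1) + (b2 * f0' - b2' * f0) + (h1 * g1' - h1' * g1)) +
      C (b2 * f1' - b2' * f1) * X, ?_⟩
    rw [hD]
    simp only [Mz, Matrix.sub_apply, Matrix.mul_apply, Fin.sum_univ_three]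
    simp
    ring
  have e10 : ∃ r, D 1 0 = C 0 + C ((q1 * c0' - q1' * c0) + (f0 * e0' - f0' * e0)) * X +
      C ((q1 * c1' - q1' * c1) + (q2 * c0' - q2' * c0) + (f0 * e1' - f0' * e1) +
        (f1 * e0' - f1' * e0)) * X ^ 2 + X ^ 3 * r := by
    refine ⟨C ((q1 * c2' - q1' * c2) + (q2 * c1' - q2' * c1) + (f1 * e1' - f1' * e1)) +
      C (q2 * c2' - q2' * c2) * X, ?_⟩
    rw [hD]
    simp only [Mz, Matrix.sub_apply, Matrix.mul_apply, Fin.sum_univ_three]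
    simp
    ring
  have e11 : ∃ r, D 1 1 = X ^ (m + 2) * C (c0 * b0' - c0' * b0) + (C 0 + C (f0 * d0' - f0' * d0) * X
      + C ((f0 * d1' - f0' * d1) + (f1 * d0' - f1' * d0)) * X ^ 2 + X ^ 3 * r) := by
    refine ⟨X ^ m * (C ((c0 * b1' - c0' * b1) + (c1 * b0' - c1' * b0)) +
      C ((c0 * b2' - c0' * b2) + (c1 * b1' - c1' * b1) + (c2 * b0' - c2' * b0)) * X +
      C ((c1 * b2' - c1' * b2) + (c2 * b1' - c2' * b1)) * X ^ 2 + C (c2 * b2' - c2' * b2) * X ^ 3) +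
      C (f1 * d1' - f1' * d1), ?_⟩
    rw [hD]
    simp only [Mz, Matrix.sub_apply, Matrix.mul_apply, Fin.sum_univ_three]
    simp
    ring
  have e12 : ∃ r, D 1 2 = C 0 + C 0 * X + C ((q1 * f0' - q1' * f0) + (f0 * g1' - f0' * g1)) * X ^ 2 +
      X ^ 3 * r := by
    refine ⟨X ^ m * ((C c0 + C c1 * X + C c2 * X ^ 2) * (C h0' + C h1' * X) -
      (C c0' + C c1' * X + C c2' * X ^ 2) * (C h0 + C h1 * X)) +
      C ((q1 * f1' - q1' * f1) + (q2 * f0' - q2' * f0) + (f1 * g1' - f1' * g1)) +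
      C (q2 * f1' - q2' * f1) * X, ?_⟩
    rw [hD]
    simp only [Mz, Matrix.sub_apply, Matrix.mul_apply, Fin.sum_univ_three]
    simp
    ring
  have e20 : ∃ r, D 2 0 = C (d0 * c0' - d0' * c0) + C ((d0 * c1' - d0' * c1) +
      (d1 * c0' - d1' * c0) + (g1 * e0' - g1' * e0)) * X + X ^ 2 * r := by
    refine ⟨C ((d0 * c2' - d0' * c2) + (d1 * c1' - d1' * c1) + (g1 * e1' - g1' * e1)) +
      C (d1 * c2' - d1' * c2) * X, ?_⟩
    rw [hD]
    simp only [Mz, Matrix.sub_apply, Matrix.mul_apply, Fin.sum_univ_three]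
    simp
    ring
  have e21 : ∃ r, D 2 1 = C 0 + C ((d0 * q1' - d0' * q1) + (g1 * d0' - g1' * d0)) * X +
      X ^ 2 * r := by
    refine ⟨X ^ m * ((C e0 + C e1 * X) * (C b0' + C b1' * X + C b2' * X ^ 2) -
      (C e0' + C e1' * X) * (C b0 + C b1 * X + C b2 * X ^ 2)) +
      C ((d0 * q2' - d0' * q2) + (d1 * q1' - d1' * q1) + (g1 * d1' - g1' * d1)) +
      C (d1 * q2' - d1' * q2) * X, ?_⟩
    rw [hD]
    simp only [Mz, Matrix.sub_apply, Matrix.mul_apply, Fin.sum_univ_three]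
    simp
    ring
  have e22 : ∃ r, D 2 2 = C 0 + C (d0 * f0' - d0' * f0) * X + X ^ 2 * r := by
    refine ⟨X ^ (m + 1) * ((C e0 + C e1 * X) * (C h0' + C h1' * X) -
      (C e0' + C e1' * X) * (C h0 + C h1 * X)) +
      C ((d0 * f1' - d0' * f1) + (d1 * f0' - d1' * f0)) + C (d1 * f1' - d1' * f1) * X, ?_⟩
    rw [hD]
    simp only [Mz, Matrix.sub_apply, Matrix.mul_apply, Fin.sum_univ_three]
    simp
    ring
  obtain ⟨r00, e00⟩ := e00
  obtain ⟨r01, e01⟩ := e01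
  obtain ⟨r02, e02⟩ := e02
  obtain ⟨r10, e10⟩ := e10
  obtain ⟨r11, e11⟩ := e11
  obtain ⟨r12, e12⟩ := e12
  obtain ⟨r20, e20⟩ := e20
  obtain ⟨r21, e21⟩ := e21
  obtain ⟨r22, e22⟩ := e22
  rw [e00, e01, e02, e10, e11, e12, e20, e21, e22, dvd53, dvd53, dvd52, dvd3, dvd3, dvd2, dvd3,
    dvd3, dvd2, dvd2, dvd2]
  have eP : ∀ P : k[X], (X : k[X]) ^ (m + 2) * C (0 : k) + P = P := by
    intro P
    rw [map_zero, mul_zero, zero_add]
  constructor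
  · rintro ⟨⟨⟨a1, a2, a3⟩, ⟨-, b1, b2⟩, c1, c2⟩, ⟨⟨-, d1, d2⟩, hh, -, -, f1⟩, ⟨g1, g2⟩, ⟨-, h1⟩,
      -, i1⟩
    have hz : c0 * b0' - c0' * b0 = 0 := by linear_combination -a1
    rw [hz, eP, dvd3] at hh
    obtain ⟨-, k1, k2⟩ := hh
    constructor <;> simp only
    · linear_combination hz
    · linear_combination -a2
    · linear_combination -a3
    · linear_combination -d1
    · linear_combination -d2
    · linear_combination -g1
    · linear_combination -g2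
    · linear_combination -b1
    · linear_combination -b2
    · linear_combination i1
    · linear_combination -k2
    · linear_combination -c1
    · linear_combination -c2
    · linear_combination -f1
    · linear_combination -h1
  · rintro ⟨r1, r2, r3, r4, r5, r6, r6', r7, r8, r9, r9', r10, r11, r12, r13⟩
    simp only at r1 r2 r3 r4 r5 r6 r6' r7 r8 r9 r9' r10 r11 r12 r13
    have hz : c0 * b0' - c0' * b0 = 0 := by linear_combination r1
    rw [hz, eP, dvd3]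
    refine ⟨⟨⟨?_, ?_, ?_⟩, ⟨rfl, ?_, ?_⟩, ?_, ?_⟩, ⟨⟨rfl, ?_, ?_⟩, ⟨rfl, ?_, ?_⟩, rfl, rfl, ?_⟩,
      ⟨?_, ?_⟩, ⟨rfl, ?_⟩, rfl, ?_⟩
    · linear_combination -r1
    · linear_combination -r2
    · linear_combination -r3
    · linear_combination -r7
    · linear_combination -r8
    · linear_combination -r10
    · linear_combination -r11
    · linear_combination -r4
    · linear_combination -r5
    · linear_combination -r9
    · linear_combination -r9'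
    · linear_combination -r12
    · linear_combination -r6
    · linear_combination -r6'
    · linear_combination -r13
    · linear_combination r9

theorem nilp_mz (hA : PB.BlkB A w ![m + 5, 3, 2]) {B : Matrix (Fin N) (Fin N) k} {x : Par k}
    (hB : PB.Rep A w B (Mz m x)) : IsNilpotent B := by
  refine PB.nilp_const hA hB (e := 3) ?_
  obtain ⟨c0, c1, c2, e0, e1, b0, b1, b2, q1, q2, d0, d1, h0, h1, f0, f1, g1⟩ := x
  intro i j
  rw [X_dvd_iff, coeff_zero_eq_eval_zero]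
  have h1 : eval 0 ((Mz m ⟨c0, c1, c2, e0, e1, b0, b1, b2, q1, q2, d0, d1, h0, h1, f0, f1, g1⟩ ^ 3)
      i j) = ((!![0, 0, 0; c0, 0, 0; e0, d0, 0] : Matrix (Fin 3) (Fin 3) k) ^ 3) i j := by
    have h2 : ((Polynomial.evalRingHom (0 : k)).mapMatrix (Mz m ⟨c0, c1, c2, e0, e1, b0, b1, b2,
        q1, q2, d0, d1, h0, h1, f0, f1, g1⟩) : Matrix (Fin 3) (Fin 3) k) =
        !![0, 0, 0; c0, 0, 0; e0, d0, 0] := by
      ext i j
      fin_cases i <;> fin_cases j <;> simp [Mz]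
    rw [← h2, ← map_pow]
    rfl
  rw [h1, pow_succ, pow_two]
  fin_cases i <;> fin_cases j <;> simp [Matrix.mul_apply, Fin.sum_univ_three]

end L32

end Pool.Agent.Lib.D13
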