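import Pool.Agent.Lib.D13.L32A

/-!
# MP_5dcbc3_ag: Jordan blocks of sizes `m + 5`, `3`, `2`: every commuting nilpotent matrix has
parameters; change of generators; polynomial families
-/

namespace Pool.Agent.Lib.D13

open Matrix Polynomial Pool.Agent.Lib.Q5dc Pool.Agent.Lib.D7 Pool.Agent.Lib.D8

namespace L32

variable {k : Type*} [Field k] {N m : ℕ} {A : Matrix (Fin N) (Fin N) k} {w : Fin 3 → Fin N → k}

theorem trunc3 (p : k[X]) :
    X ^ 3 ∣ p - (C (p.coeff 0) + C (p.coeff 1) * X + C (p.coeff 2) * X ^ 2) := by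
  rw [X_pow_dvd_iff]
  intro d hd
  interval_cases d <;> simp [coeff_X, coeff_C, coeff_X_pow]

theorem trunc2 (p : k[X]) : X ^ 2 ∣ p - (C (p.coeff 0) + C (p.coeff 1) * X) := by
  rw [X_pow_dvd_iff]
  intro d hd
  interval_cases d <;> simp [coeff_X, coeff_C]

theorem coeff_zero_of_dvd {e : ℕ} (he : 1 ≤ e) {p : k[X]} (h : X ^ e ∣ p) : p.coeff 0 = 0 := by
  rw [X_pow_dvd_iff] at h
  exact h 0 he

/-- the constant terms of the diagonal entries are zero -/
theorem diag_zero (hA : PB.BlkB A w ![m + 5, 3, 2]) {B : Matrix (Fin N) (Fin N) k}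
    {P : Matrix (Fin 3) (Fin 3) k[X]} (hP : PB.Rep A w B P) (hPA : PB.Adm ![m + 5, 3, 2] P)
    (hB : IsNilpotent B) (j : Fin 3) : (P j j).coeff 0 = 0 := by
  rw [adm_iff] at hPA
  obtain ⟨h01, h02, h12⟩ := hPA
  have p01 : (P 0 1).coeff 0 = 0 := coeff_zero_of_dvd (by omega) h01
  have p02 : (P 0 2).coeff 0 = 0 := coeff_zero_of_dvd (by omega) h02
  have p12 : (P 1 2).coeff 0 = 0 := by rwa [X_dvd_iff] at h12
  obtain ⟨e, he⟩ := hB
  have h1 := ((hP.pow e).eq_zero_iff hA).1 he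
  have key : ∀ i : ℕ, (∀ j, ((P ^ i) j j).coeff 0 = (P j j).coeff 0 ^ i) ∧
      ((P ^ i) 0 1).coeff 0 = 0 ∧ ((P ^ i) 0 2).coeff 0 = 0 ∧ ((P ^ i) 1 2).coeff 0 = 0 := by
    intro i
    induction i with
    | zero =>
      refine ⟨fun j => ?_, ?_, ?_, ?_⟩
      · fin_cases j <;> simp
      · simp
      · simp
      · simp
    | succ i ih =>
      obtain ⟨i0, i1, i2, i3⟩ := ih
      have i00 := i0 0
      have i01 := i0 1
      have i02 := i0 2
      rw [pow_succ']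
      refine ⟨fun j => ?_, ?_, ?_, ?_⟩
      · rw [Matrix.mul_apply, Fin.sum_univ_three]
        fin_cases j
        · show (P 0 0 * (P ^ i) 0 0 + P 0 1 * (P ^ i) 1 0 + P 0 2 * (P ^ i) 2 0).coeff 0 = _
          simp only [coeff_add, mul_coeff_zero, i00, p01, p02]
          show _ = (P 0 0).coeff 0 ^ (i + 1)
          ring
        · show (P 1 0 * (P ^ i) 0 1 + P 1 1 * (P ^ i) 1 1 + P 1 2 * (P ^ i) 2 1).coeff 0 = _
          simp only [coeff_add, mul_coeff_zero, i01, i1, p12]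
          show _ = (P 1 1).coeff 0 ^ (i + 1)
          ring
        · show (P 2 0 * (P ^ i) 0 2 + P 2 1 * (P ^ i) 1 2 + P 2 2 * (P ^ i) 2 2).coeff 0 = _
          simp only [coeff_add, mul_coeff_zero, i02, i2, i3]
          show _ = (P 2 2).coeff 0 ^ (i + 1)
          ring
      · rw [Matrix.mul_apply, Fin.sum_univ_three]
        simp only [coeff_add, mul_coeff_zero, i1, p01, p02]
        ring
      · rw [Matrix.mul_apply, Fin.sum_univ_three]
        simp only [coeff_add, mul_coeff_zero, i2, p01, p02]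
        ring
      · rw [Matrix.mul_apply, Fin.sum_univ_three]
        simp only [coeff_add, mul_coeff_zero, i2, i3, p12]
        ring
  have h2 : ((P ^ e) j j).coeff 0 = 0 := by
    refine coeff_zero_of_dvd ?_ (h1 j j)
    fin_cases j
    · show 1 ≤ m + 5
      omega
    · show 1 ≤ 3
      norm_num
    · show 1 ≤ 2
      norm_num
  rw [(key e).1] at h2
  have he0 : e ≠ 0 := by
    rintro rfl
    rw [pow_zero] at h2
    exact one_ne_zero h2
  exact (pow_eq_zero_iff he0).1 h2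

/-- parameters of a matrix -/
theorem exists_par0 (hA : PB.BlkB A w ![m + 5, 3, 2]) {B : Matrix (Fin N) (Fin N) k}
    (hAB : A * B = B * A) (hB : IsNilpotent B) {c e : k[X]}
    (h0 : B *ᵥ w 0 = PB.pi A w ![0, c, e]) :
    ∃ x : Par k, PB.Rep A w B (Mz m x) ∧ x.c0 = c.coeff 0 ∧ x.c1 = c.coeff 1 ∧
      x.c2 = c.coeff 2 ∧ x.e0 = e.coeff 0 ∧ x.e1 = e.coeff 1 := by
  obtain ⟨P, hP, hPA⟩ := PB.rep_of_comm hA hAB
  have d1 := diag_zero hA hP hPA hB 1
  have d2 := diag_zero hA hP hPA hB 2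
  rw [adm_iff] at hPA
  obtain ⟨⟨b, hb⟩, ⟨h, hh⟩, f, hf⟩ := hPA
  have h1 := hP.apply 0
  rw [h0, ← sub_eq_zero, ← PB.pi_sub, PB.pi_eq_zero hA] at h1
  have h10 : X ^ (m + 5) ∣ (0 : k[X]) - P 0 0 := h1 0
  have h11 : X ^ 3 ∣ c - P 1 0 := h1 1
  have h12 : X ^ 2 ∣ e - P 2 0 := h1 2
  refine ⟨⟨c.coeff 0, c.coeff 1, c.coeff 2, e.coeff 0, e.coeff 1, b.coeff 0, b.coeff 1, b.coeff 2,
    (P 1 1).coeff 1, (P 1 1).coeff 2, (P 2 1).coeff 0, (P 2 1).coeff 1, h.coeff 0, h.coeff 1,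
    f.coeff 0, f.coeff 1, (P 2 2).coeff 1⟩, hP.of_ker hA ?_, rfl, rfl, rfl, rfl, rfl⟩
  rw [ker_iff]
  refine ⟨⟨?_, ?_, ?_⟩, ⟨?_, ?_, ?_⟩, ?_, ?_, ?_⟩
  · show X ^ (m + 5) ∣ P 0 0 - 0
    have := h10.neg_right
    rwa [zero_sub, neg_neg, ← sub_zero (P 0 0)] at this
  · show X ^ (m + 5) ∣ P 0 1 - X ^ (m + 2) * (C (b.coeff 0) + C (b.coeff 1) * X +
      C (b.coeff 2) * X ^ 2)
    rw [hb, ← mul_sub, dvd53]
    exact trunc3 b
  · show X ^ (m + 5) ∣ P 0 2 - X ^ (m + 3) * (C (h.coeff 0) + C (h.coeff 1) * X)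
    rw [hh, ← mul_sub, dvd52]
    exact trunc2 h
  · show X ^ 3 ∣ P 1 0 - (C (c.coeff 0) + C (c.coeff 1) * X + C (c.coeff 2) * X ^ 2)
    have := dvd_sub (trunc3 c) h11
    rwa [show c - (C (c.coeff 0) + C (c.coeff 1) * X + C (c.coeff 2) * X ^ 2) - (c - P 1 0) =
      P 1 0 - (C (c.coeff 0) + C (c.coeff 1) * X + C (c.coeff 2) * X ^ 2) by ring] at this
  · show X ^ 3 ∣ P 1 1 - (C ((P 1 1).coeff 1) * X + C ((P 1 1).coeff 2) * X ^ 2)
    have := trunc3 (P 1 1)
    rwa [d1, map_zero, zero_add] at this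
  · show X ^ 3 ∣ P 1 2 - X * (C (f.coeff 0) + C (f.coeff 1) * X)
    rw [hf, ← mul_sub]
    obtain ⟨r, hr⟩ := trunc2 f
    exact ⟨r, by rw [hr]; ring⟩
  · show X ^ 2 ∣ P 2 0 - (C (e.coeff 0) + C (e.coeff 1) * X)
    have := dvd_sub (trunc2 e) h12
    rwa [show e - (C (e.coeff 0) + C (e.coeff 1) * X) - (e - P 2 0) =
      P 2 0 - (C (e.coeff 0) + C (e.coeff 1) * X) by ring] at this
  · exact trunc2 (P 2 1)
  · show X ^ 2 ∣ P 2 2 - C ((P 2 2).coeff 1) * X
    have := trunc2 (P 2 2)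
    rwa [d2, map_zero, zero_add] at this

theorem aeval_comm (A : Matrix (Fin N) (Fin N) k) (p : k[X]) :
    A * aeval A p = aeval A p * A := by
  have h : aeval A (X : k[X]) * aeval A p = aeval A p * aeval A (X : k[X]) := by
    rw [← map_mul, mul_comm, map_mul]
  rwa [aeval_X] at h

/-- parameters of a matrix, up to a polynomial in `A` -/
theorem exists_par (hA : PB.BlkB A w ![m + 5, 3, 2]) {B : Matrix (Fin N) (Fin N) k}
    (hAB : A * B = B * A) (hB : IsNilpotent B) :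
    ∃ (x : Par k) (s : k[X]), PB.Rep A w (B - aeval A (X * s)) (Mz m x) := by
  obtain ⟨P, hP, hPA⟩ := PB.rep_of_comm hA hAB
  have d0 := diag_zero hA hP hPA hB 0
  rw [← X_dvd_iff] at d0
  obtain ⟨s, hs⟩ := d0
  have hcomm : ∀ p : k[X], Commute (aeval A p) B := by
    intro p
    have : aeval A p * B = B * aeval A p := by
      refine PB.Rep.eq hA ((PB.Rep.aeval p).mul hP) ?_
      have := hP.mul (PB.Rep.aeval (A := A) (w := w) p)
      refine this.congr ?_
      rw [mul_smul_comm, mul_one, smul_mul_assoc, one_mul]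
    exact this
  have hAp : ∀ p : k[X], A * aeval A p = aeval A p * A := fun p => aeval_comm A p
  obtain ⟨x, hx, -⟩ := exists_par0 hA (B := B - aeval A (X * s)) (c := P 1 0) (e := P 2 0) (by
      rw [mul_sub, sub_mul, hAB, hAp]) (by
      have h4 : IsNilpotent (aeval A (X * s)) := by
        rw [map_mul, aeval_X]
        exact Commute.isNilpotent_mul_right (hAp s) (PB.nilp_A hA)
      exact (hcomm _).symm.isNilpotent_sub hB h4) (by
      rw [Matrix.sub_mulVec, hP.apply 0, (PB.Rep.aeval (A := A) (w := w) (X * s)).apply 0,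
        ← PB.pi_sub]
      congr 1
      funext i
      fin_cases i
      · show P 0 0 - (X * s) * (1 : Matrix (Fin 3) (Fin 3) k[X]) 0 0 = 0
        rw [Matrix.one_apply_eq, hs]
        ring
      · show P 1 0 - (X * s) * (1 : Matrix (Fin 3) (Fin 3) k[X]) 1 0 = P 1 0
        rw [Matrix.one_apply_ne (by decide)]
        ring
      · show P 2 0 - (X * s) * (1 : Matrix (Fin 3) (Fin 3) k[X]) 2 0 = P 2 0
        rw [Matrix.one_apply_ne (by decide)]
        ring)
  exact ⟨x, s, hx⟩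

end L32

end Pool.Agent.Lib.D13
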