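import Pool.Agent.Lib.D13.L32B

/-!
# MP_5dcbc3_ag: Jordan blocks of sizes `m + 5`, `3`, `2`: moves of maximal bad triples
-/

namespace Pool.Agent.Lib.D13

open Matrix Polynomial Pool.Agent.Lib.Q5dc Pool.Agent.Lib.D7 Pool.Agent.Lib.D8

namespace L32

variable {k : Type*} [Field k] {N m : ℕ} {A : Matrix (Fin N) (Fin N) k} {w : Fin 3 → Fin N → k}

theorem isPoly_div {f : k → k} (hf : IsPoly f) (a : k) : IsPoly fun s => f s / a := by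
  have h := hf.mul (D7.IsPoly.const a⁻¹)
  have e : (fun s => f s / a) = fun s => f s * a⁻¹ := by
    funext s
    rw [div_eq_mul_inv]
  rw [e]
  exact h

/-- families of parameters, polynomial in `s` -/
structure PolyP (c : k → Par k) : Prop where
  c0 : IsPoly fun s => (c s).c0
  c1 : IsPoly fun s => (c s).c1
  c2 : IsPoly fun s => (c s).c2
  e0 : IsPoly fun s => (c s).e0
  e1 : IsPoly fun s => (c s).e1
  b0 : IsPoly fun s => (c s).b0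
  b1 : IsPoly fun s => (c s).b1
  b2 : IsPoly fun s => (c s).b2
  q1 : IsPoly fun s => (c s).q1
  q2 : IsPoly fun s => (c s).q2
  d0 : IsPoly fun s => (c s).d0
  d1 : IsPoly fun s => (c s).d1
  h0 : IsPoly fun s => (c s).h0
  h1 : IsPoly fun s => (c s).h1
  f0 : IsPoly fun s => (c s).f0
  f1 : IsPoly fun s => (c s).f1
  g1 : IsPoly fun s => (c s).g1

/-- the matrices as a linear function of the parameters -/
theorem exists_fam (hA : PB.BlkB A w ![m + 5, 3, 2]) :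
    ∃ M : Par k → Matrix (Fin N) (Fin N) k, (∀ x, PB.Rep A w (M x) (Mz m x)) ∧
      ∀ c : k → Par k, PolyP c → ∀ a b, IsPoly fun s => M (c s) a b := by
  obtain ⟨Mc0, hc0⟩ := exists_mz (m := m) hA ⟨1, 0, 0, 0, 0, 0, 0, 0, 0, 0, 0, 0, 0, 0, 0, 0, 0⟩
  obtain ⟨Mc1, hc1⟩ := exists_mz (m := m) hA ⟨0, 1, 0, 0, 0, 0, 0, 0, 0, 0, 0, 0, 0, 0, 0, 0, 0⟩
  obtain ⟨Mc2, hc2⟩ := exists_mz (m := m) hA ⟨0, 0, 1, 0, 0, 0, 0, 0, 0, 0, 0, 0, 0, 0, 0, 0, 0⟩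
  obtain ⟨Me0, he0⟩ := exists_mz (m := m) hA ⟨0, 0, 0, 1, 0, 0, 0, 0, 0, 0, 0, 0, 0, 0, 0, 0, 0⟩
  obtain ⟨Me1, he1⟩ := exists_mz (m := m) hA ⟨0, 0, 0, 0, 1, 0, 0, 0, 0, 0, 0, 0, 0, 0, 0, 0, 0⟩
  obtain ⟨Mb0, hb0⟩ := exists_mz (m := m) hA ⟨0, 0, 0, 0, 0, 1, 0, 0, 0, 0, 0, 0, 0, 0, 0, 0, 0⟩
  obtain ⟨Mb1, hb1⟩ := exists_mz (m := m) hA ⟨0, 0, 0, 0, 0, 0, 1, 0, 0, 0, 0, 0, 0, 0, 0, 0, 0⟩
  obtain ⟨Mb2, hb2⟩ := exists_mz (m := m) hA ⟨0, 0, 0, 0, 0, 0, 0, 1, 0, 0, 0, 0, 0, 0, 0, 0, 0⟩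
  obtain ⟨Mq1, hq1⟩ := exists_mz (m := m) hA ⟨0, 0, 0, 0, 0, 0, 0, 0, 1, 0, 0, 0, 0, 0, 0, 0, 0⟩
  obtain ⟨Mq2, hq2⟩ := exists_mz (m := m) hA ⟨0, 0, 0, 0, 0, 0, 0, 0, 0, 1, 0, 0, 0, 0, 0, 0, 0⟩
  obtain ⟨Md0, hd0⟩ := exists_mz (m := m) hA ⟨0, 0, 0, 0, 0, 0, 0, 0, 0, 0, 1, 0, 0, 0, 0, 0, 0⟩
  obtain ⟨Md1, hd1⟩ := exists_mz (m := m) hA ⟨0, 0, 0, 0, 0, 0, 0, 0, 0, 0, 0, 1, 0, 0, 0, 0, 0⟩
  obtain ⟨Mh0, hh0⟩ := exists_mz (m := m) hA ⟨0, 0, 0, 0, 0, 0, 0, 0, 0, 0, 0, 0, 1, 0, 0, 0, 0⟩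
  obtain ⟨Mh1, hh1⟩ := exists_mz (m := m) hA ⟨0, 0, 0, 0, 0, 0, 0, 0, 0, 0, 0, 0, 0, 1, 0, 0, 0⟩
  obtain ⟨Mf0, hf0⟩ := exists_mz (m := m) hA ⟨0, 0, 0, 0, 0, 0, 0, 0, 0, 0, 0, 0, 0, 0, 1, 0, 0⟩
  obtain ⟨Mf1, hf1⟩ := exists_mz (m := m) hA ⟨0, 0, 0, 0, 0, 0, 0, 0, 0, 0, 0, 0, 0, 0, 0, 1, 0⟩
  obtain ⟨Mg1, hg1⟩ := exists_mz (m := m) hA ⟨0, 0, 0, 0, 0, 0, 0, 0, 0, 0, 0, 0, 0, 0, 0, 0, 1⟩
  refine ⟨fun x => x.c0 • Mc0 + x.c1 • Mc1 + x.c2 • Mc2 + x.e0 • Me0 + x.e1 • Me1 + x.b0 • Mb0 + x.b1 • Mb1 + x.b2 • Mb2 + x.q1 • Mq1 + x.q2 • Mq2 + x.d0 • Md0 + x.d1 • Md1 + x.h0 • Mh0 + x.h1 • Mh1 + x.f0 • Mf0 + x.f1 • Mf1 + x.g1 • Mg1, fun x => ?_, ?_⟩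
  · have h := (((((((((((((((((hc0.smul x.c0).add (hc1.smul x.c1)).add (hc2.smul x.c2)).add (he0.smul x.e0)).add (he1.smul x.e1)).add (hb0.smul x.b0)).add (hb1.smul x.b1)).add (hb2.smul x.b2)).add (hq1.smul x.q1)).add (hq2.smul x.q2)).add (hd0.smul x.d0)).add (hd1.smul x.d1)).add (hh0.smul x.h0)).add (hh1.smul x.h1)).add (hf0.smul x.f0)).add (hf1.smul x.f1)).add (hg1.smul x.g1))
    refine h.congr ?_
    refine Matrix.ext fun i j => ?_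
    fin_cases i <;> fin_cases j <;> simp [Mz, smul_eq_C_mul] <;> ring
  · intro c hc a b
    have e : (fun s => ((c s).c0 • Mc0 + (c s).c1 • Mc1 + (c s).c2 • Mc2 + (c s).e0 • Me0 + (c s).e1 • Me1 + (c s).b0 • Mb0 + (c s).b1 • Mb1 + (c s).b2 • Mb2 + (c s).q1 • Mq1 + (c s).q2 • Mq2 + (c s).d0 • Md0 + (c s).d1 • Md1 + (c s).h0 • Mh0 + (c s).h1 • Mh1 + (c s).f0 • Mf0 + (c s).f1 • Mf1 + (c s).g1 • Mg1) a b) =
        fun s => (c s).c0 * Mc0 a b + (c s).c1 * Mc1 a b + (c s).c2 * Mc2 a b + (c s).e0 * Me0 a b + (c s).e1 * Me1 a b + (c s).b0 * Mb0 a b + (c s).b1 * Mb1 a b + (c s).b2 * Mb2 a b + (c s).q1 * Mq1 a b + (c s).q2 * Mq2 a b + (c s).d0 * Md0 a b + (c s).d1 * Md1 a b + (c s).h0 * Mh0 a b + (c s).h1 * Mh1 a b + (c s).f0 * Mf0 a b + (c s).f1 * Mf1 a b + (c s).g1 * Mg1 a b := by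
      funext s
      simp only [Matrix.add_apply, Matrix.smul_apply, smul_eq_mul]
    rw [e]
    exact (((((((((((((((((hc.c0.mul (D7.IsPoly.const _)).add (hc.c1.mul (D7.IsPoly.const _))).add (hc.c2.mul (D7.IsPoly.const _))).add (hc.e0.mul (D7.IsPoly.const _))).add (hc.e1.mul (D7.IsPoly.const _))).add (hc.b0.mul (D7.IsPoly.const _))).add (hc.b1.mul (D7.IsPoly.const _))).add (hc.b2.mul (D7.IsPoly.const _))).add (hc.q1.mul (D7.IsPoly.const _))).add (hc.q2.mul (D7.IsPoly.const _))).add (hc.d0.mul (D7.IsPoly.const _))).add (hc.d1.mul (D7.IsPoly.const _))).add (hc.h0.mul (D7.IsPoly.const _))).add (hc.h1.mul (D7.IsPoly.const _))).add (hc.f0.mul (D7.IsPoly.const _))).add (hc.f1.mul (D7.IsPoly.const _))).add (hc.g1.mul (D7.IsPoly.const _)))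

theorem Bad.rel {x y : Par k} (h : Bad m x y) : Rel x y := by
  obtain ⟨N, A, B, C', w, hA, hB, hC, hT⟩ := h
  exact (comm_mz hA hB hC).1 (hT.cn.1 1 2)

theorem cn_of_rel (hA : PB.BlkB A w ![m + 5, 3, 2]) {B C' : Matrix (Fin N) (Fin N) k} {x y : Par k}
    (hB : PB.Rep A w B (Mz m x)) (hC : PB.Rep A w C' (Mz m y)) (hr : Rel x y) : CN ![A, B, C'] :=
  PB.cn3 hA (PB.comm_A hA hB) (PB.comm_A hA hC) ((comm_mz hA hB hC).2 hr) (nilp_mz hA hB)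
    (nilp_mz hA hC)

/-- deformation of maximal bad triples -/
theorem Bad.deform [Infinite k] {x y : Par k} (h : Bad m x y) (c c' : k → Par k) (hc : PolyP c)
    (hc' : PolyP c') (h0 : c 0 = x) (h0' : c' 0 = y) {E : Set k} (hE : E.Finite)
    (hr : ∀ s ∉ E, Rel (c s) (c' s)) {F : Set k} (hF : F.Finite) :
    ∃ s ∉ F, Bad m (c s) (c' s) := by
  obtain ⟨N, A, B, C', w, hA, hB, hC, hT⟩ := h
  obtain ⟨M, hM, hMp⟩ := exists_fam hA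
  have eB : B = M x := PB.Rep.eq hA hB (hM x)
  have eC : C' = M y := PB.Rep.eq hA hC (hM y)
  obtain ⟨E', hE', h1⟩ := hT.deform (fun s => ![A, M (c s), M (c' s)]) (by
      intro i a b
      fin_cases i
      · exact D7.IsPoly.const _
      · exact hMp c hc a b
      · exact hMp c' hc' a b) (by rw [h0, h0', eB, eC]) hE
    (fun s hs => cn_of_rel hA (hM _) (hM _) (hr s hs))
  obtain ⟨s, hs⟩ := (hE'.union hF).infinite_compl.nonempty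
  rw [Set.mem_compl_iff, Set.mem_union, not_or] at hs
  exact ⟨s, hs.2, N, A, _, _, w, hA, hM _, hM _, h1 s hs.1⟩

/-- deformation, for families with the relations for all `s` -/
theorem Bad.move [Infinite k] {x y : Par k} (h : Bad m x y) (c c' : k → Par k) (hc : PolyP c)
    (hc' : PolyP c') (h0 : c 0 = x) (h0' : c' 0 = y)
    (hr : ∀ s, Rel (c s) (c' s)) {F : Set k} (hF : F.Finite) :
    ∃ s ∉ F, Bad m (c s) (c' s) :=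
  h.deform c c' hc hc' h0 h0' Set.finite_empty (fun s _ => hr s) hF

/-- linear combinations of parameters -/
def Par.lin (x : Par k) (a b : k) (y : Par k) : Par k :=
  ⟨a * x.c0 + b * y.c0, a * x.c1 + b * y.c1, a * x.c2 + b * y.c2, a * x.e0 + b * y.e0, a * x.e1 + b * y.e1, a * x.b0 + b * y.b0, a * x.b1 + b * y.b1, a * x.b2 + b * y.b2, a * x.q1 + b * y.q1, a * x.q2 + b * y.q2, a * x.d0 + b * y.d0, a * x.d1 + b * y.d1, a * x.h0 + b * y.h0, a * x.h1 + b * y.h1, a * x.f0 + b * y.f0, a * x.f1 + b * y.f1, a * x.g1 + b * y.g1⟩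

theorem mz_lin (a b : k) (x y : Par k) :
    Mz m (x.lin a b y) = a • Mz m x + b • Mz m y := by
  refine Matrix.ext fun i j => ?_
  fin_cases i <;> fin_cases j <;> simp [Mz, Par.lin, smul_eq_C_mul] <;> ring

end L32

end Pool.Agent.Lib.D13
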