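import Pool.Agent.Lib.D13.L32C
import Pool.Agent.Lib.D8.UtilB

/-!
# MP_5dcbc3_ag: Jordan blocks of sizes `m + 5`, `3`, `2`: the rank condition and the planar case
-/

namespace Pool.Agent.Lib.D13

open Matrix Polynomial Pool.Agent.Lib.Q5dc Pool.Agent.Lib.D7 Pool.Agent.Lib.D8

namespace L32

variable {k : Type*} [Field k] {N m : ℕ} {A : Matrix (Fin N) (Fin N) k} {w : Fin 3 → Fin N → k}

/-- a nilpotent matrix commuting with the matrices of a triple with a cyclic vector is a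
polynomial in them -/
theorem cyc_mem {T' : Fin 3 → Matrix (Fin N) (Fin N) k} (hT' : CN T')
    {G : Matrix (Fin N) (Fin N) k} (hG : IsNilpotent G) (hcomm : ∀ i, T' i * G = G * T' i)
    (v : Fin N → k) (hv : ∀ x, ∃ (c : k), ∃ M ∈ adj T', x = c • v + M *ᵥ v) : G ∈ adj T' := by
  have hadj : ∀ M ∈ adj T', M * G = G * M := by
    intro M hM
    refine adj_induction (p := fun M => M * G = G * M) hcomm (by simp)
      (fun x _ y _ h1 h2 => by rw [add_mul, mul_add, h1, h2])
      (fun x _ y _ h1 h2 => by rw [mul_assoc, h2, ← mul_assoc, h1, mul_assoc])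
      (fun c x _ h1 => by rw [smul_mul_assoc, mul_smul_comm, h1]) hM
  obtain ⟨c, M, hM, hMv⟩ := hv (G *ᵥ v)
  have hD : G = M + c • 1 := by
    have h0 : ∀ x, (G - (M + c • 1)) *ᵥ x = 0 := by
      intro x
      have hDv : (G - (M + c • 1)) *ᵥ v = 0 := by
        rw [Matrix.sub_mulVec, Matrix.add_mulVec, hMv, Matrix.smul_mulVec, Matrix.one_mulVec]
        abel
      obtain ⟨c', M', hM', rfl⟩ := hv x
      have h1 : (G - (M + c • 1)) * M' = M' * (G - (M + c • 1)) := by
        rw [sub_mul, mul_sub, add_mul, mul_add, hadj M' hM', hT'.comm hM hM', smul_mul_assoc,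
          mul_smul_comm, one_mul, mul_one]
      rw [Matrix.mulVec_add, Matrix.mulVec_smul, hDv, smul_zero, zero_add, Matrix.mulVec_mulVec, h1,
        ← Matrix.mulVec_mulVec, hDv, Matrix.mulVec_zero]
    have h2 : G - (M + c • 1) = 0 := by
      apply Matrix.toLin'.injective
      refine LinearMap.ext fun x => ?_
      rw [Matrix.toLin'_apply, h0, map_zero]
      rfl
    exact sub_eq_zero.1 h2
  have hc : c • (1 : Matrix (Fin N) (Fin N) k) = 0 := by
    have h1 : IsNilpotent (G - M) :=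
      (show Commute G M from (hadj M hM).symm).isNilpotent_sub hG (hT'.nilp hM)
    rw [hD, add_sub_cancel_left] at h1
    obtain ⟨e, he⟩ := h1
    rw [_root_.smul_pow, one_pow] at he
    rcases isEmpty_or_nonempty (Fin N) with hN | ⟨⟨a⟩⟩
    · exact Subsingleton.elim _ _
    · have h2 := congr_fun (congr_fun he a) a
      rw [Matrix.smul_apply, Matrix.one_apply_eq, Matrix.zero_apply, smul_eq_mul, mul_one] at h2
      rw [eq_zero_of_pow_eq_zero h2, zero_smul]
  rw [hD, hc, add_zero]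
  exact hM

/-- the kernel of `A` is at least three-dimensional -/
theorem rank_A (hA : PB.BlkB A w ![m + 5, 3, 2]) : A.rank + 3 ≤ N := by
  obtain ⟨w', hw'⟩ := PB.dual_aux hA (by intro i; fin_cases i <;> simp)
  let u : Fin 3 → Fin N → k := ![A ^ (m + 4) *ᵥ w 0, A ^ 2 *ᵥ w 1, A ^ 1 *ᵥ w 2]
  have hu : ∀ j, u j = PB.pi A w (Pi.single j (X ^ (![m + 5, 3, 2] j - 1))) := by
    intro j
    rw [PB.pi_single, map_pow, aeval_X]
    fin_cases j
    · rfl
    · rfl
    · rfl
  have hlin : LinearIndependent k u := by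
    rw [Fintype.linearIndependent_iff]
    intro g hg i
    have h1 : w' i ⬝ᵥ (∑ j, g j • u j) = g i := by
      have h2 : ∑ j, g j • u j = PB.pi A w (∑ j, g j • Pi.single j (X ^ (![m + 5, 3, 2] j - 1))) := by
        rw [PB.pi_sum]
        exact Finset.sum_congr rfl fun j _ => by rw [PB.pi_csmul, hu]
      rw [h2, hw', Finset.sum_apply, finsetSum_coeff, Finset.sum_eq_single i]
      · rw [Pi.smul_apply, Pi.single_eq_same, coeff_smul, coeff_X_pow_self, smul_eq_mul, mul_one]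
      · intro j _ hj
        rw [Pi.smul_apply, Pi.single_eq_of_ne hj.symm, smul_zero, coeff_zero]
      · intro h
        exact absurd (Finset.mem_univ i) h
    rw [hg, dotProduct_zero] at h1
    exact h1.symm
  have hker : ∀ j, u j ∈ LinearMap.ker A.mulVecLin := by
    intro j
    rw [LinearMap.mem_ker, Matrix.mulVecLin_apply]
    have h1 : ∀ (e : ℕ) (x : Fin N → k), A *ᵥ (A ^ e *ᵥ x) = A ^ (e + 1) *ᵥ x := by
      intro e x
      rw [Matrix.mulVec_mulVec, ← pow_succ']
    fin_cases j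
    · exact (h1 _ _).trans (hA.ann 0)
    · exact (h1 _ _).trans (hA.ann 1)
    · exact (h1 _ _).trans (hA.ann 2)
  have h3 : 3 ≤ Module.finrank k (LinearMap.ker A.mulVecLin) := by
    have h4 : LinearIndependent k (fun j => (⟨u j, hker j⟩ : LinearMap.ker A.mulVecLin)) :=
      LinearIndependent.of_comp (LinearMap.ker A.mulVecLin).subtype hlin
    have := h4.fintype_card_le_finrank
    simpa using this
  have h5 := LinearMap.finrank_range_add_finrank_ker A.mulVecLin
  rw [Module.finrank_fin_fun] at h5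
  have h6 : A.rank = Module.finrank k (LinearMap.range A.mulVecLin) := rfl
  omega

theorem X_dvd_mul_left {p q : k[X]} (h : X ∣ p * q) (hp : p.coeff 0 ≠ 0) : X ∣ q := by
  rw [X_dvd_iff, mul_coeff_zero] at h
  rw [X_dvd_iff]
  exact (mul_eq_zero.1 h).resolve_left hp

/-- the rank of `A + t B` is greater than the rank of `A` if `d(0)` and `f(0)` are nonzero -/
theorem rank_mz (hA : PB.BlkB A w ![m + 5, 3, 2]) {B : Matrix (Fin N) (Fin N) k} {x : Par k}
    (hB : PB.Rep A w B (Mz m x)) (hf : x.f0 ≠ 0) (hd : x.d0 ≠ 0) {t : k} (ht : t ≠ 0) :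
    A.rank < (A + t • B).rank := by
  have h3 := rank_A hA
  obtain ⟨w', hw'⟩ := PB.dual_aux hA (by intro i; fin_cases i <;> simp)
  let φ : (Fin N → k) →ₗ[k] (Fin 2 → k) :=
    { toFun := fun x => ![w' 1 ⬝ᵥ x, w' 0 ⬝ᵥ x]
      map_add' := by
        intro x y
        rw [dotProduct_add, dotProduct_add]
        simp
      map_smul' := by
        intro c x
        rw [dotProduct_smul, dotProduct_smul]
        simp }
  have hinj : Function.Injective (φ.comp (LinearMap.ker (A + t • B).mulVecLin).subtype) := by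
    rw [injective_iff_map_eq_zero]
    rintro ⟨y, hy⟩ h0
    rw [LinearMap.mem_ker, Matrix.mulVecLin_apply] at hy
    have h01 : w' 1 ⬝ᵥ y = 0 := congr_fun h0 0
    have h00 : w' 0 ⬝ᵥ y = 0 := congr_fun h0 1
    obtain ⟨z, rfl⟩ := hA.span y
    rw [hw'] at h01 h00
    have h01' : (z 1).coeff 2 = 0 := h01
    have h00' : (z 0).coeff (m + 4) = 0 := h00
    have hR := (PB.repA (A := A) (w := w)).add (hB.smul t)
    rw [hR, PB.pi_eq_zero hA] at hy
    have r0 : X ^ (m + 5) ∣ X * z 0 + C t * (X ^ (m + 2) * (C x.b0 + C x.b1 * X + C x.b2 * X ^ 2) *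
        z 1 + X ^ (m + 3) * (C x.h0 + C x.h1 * X) * z 2) := by
      have := hy 0
      rw [Matrix.mulVec, dotProduct, Fin.sum_univ_three] at this
      simp [Mz, smul_eq_C_mul] at this
      convert this using 1
      ring
    have r1 : X ^ 3 ∣ X * z 1 + C t * ((C x.c0 + C x.c1 * X + C x.c2 * X ^ 2) * z 0 +
        (C x.q1 * X + C x.q2 * X ^ 2) * z 1 + X * (C x.f0 + C x.f1 * X) * z 2) := by
      have := hy 1
      rw [Matrix.mulVec, dotProduct, Fin.sum_univ_three] at this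
      simp [Mz, smul_eq_C_mul] at this
      convert this using 1
      ring
    have r2 : X ^ 2 ∣ X * z 2 + C t * ((C x.e0 + C x.e1 * X) * z 0 +
        (C x.d0 + C x.d1 * X) * z 1 + C x.g1 * X * z 2) := by
      have := hy 2
      rw [Matrix.mulVec, dotProduct, Fin.sum_univ_three] at this
      simp [Mz, smul_eq_C_mul] at this
      convert this using 1
      ring
    obtain ⟨y0, hy0⟩ := r0
    obtain ⟨y1, hy1⟩ := r1
    obtain ⟨y2, hy2⟩ := r2
    have hX : (X : k[X]) ≠ 0 := X_ne_zero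
    have e0 : z 0 = X ^ (m + 4) * y0 - C t * X ^ (m + 1) * ((C x.b0 + C x.b1 * X + C x.b2 * X ^ 2) *
        z 1 + X * (C x.h0 + C x.h1 * X) * z 2) := by
      apply mul_left_cancel₀ hX
      linear_combination hy0
    obtain ⟨u1, hu1⟩ : X ∣ z 1 := by
      refine X_dvd_mul_left (p := C t * (C x.d0 + C x.d1 * X)) ⟨X * y2 - z 2 - C t *
        (C x.e0 + C x.e1 * X) * (X ^ (m + 3) * y0 - C t * X ^ m * ((C x.b0 + C x.b1 * X +
        C x.b2 * X ^ 2) * z 1 + X * (C x.h0 + C x.h1 * X) * z 2)) - C t * C x.g1 * z 2, ?_⟩ ?_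
      · linear_combination hy2 - C t * (C x.e0 + C x.e1 * X) * e0
      · simp [ht, hd]
    obtain ⟨u2, hu2⟩ : X ∣ z 2 := by
      refine X_dvd_mul_left (p := C t * (C x.f0 + C x.f1 * X)) ⟨X * y1 - u1 - C t *
        (C x.c0 + C x.c1 * X + C x.c2 * X ^ 2) * (X ^ (m + 2) * y0 - C t * X ^ m * ((C x.b0 +
        C x.b1 * X + C x.b2 * X ^ 2) * u1 + (C x.h0 + C x.h1 * X) * z 2)) -
        C t * (C x.q1 + C x.q2 * X) * u1, ?_⟩ ?_
      · apply mul_left_cancel₀ hX
        rw [hu1] at e0 hy1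
        linear_combination hy1 - C t * (C x.c0 + C x.c1 * X + C x.c2 * X ^ 2) * e0
      · simp [ht, hf]
    obtain ⟨v1, hv1⟩ : X ∣ u1 := by
      refine X_dvd_mul_left (p := C t * (C x.d0 + C x.d1 * X)) ⟨y2 - u2 - C t *
        (C x.e0 + C x.e1 * X) * (X ^ (m + 2) * y0 - C t * X ^ m * ((C x.b0 + C x.b1 * X +
        C x.b2 * X ^ 2) * u1 + (C x.h0 + C x.h1 * X) * z 2)) - C t * C x.g1 * u2, ?_⟩ ?_
      · apply mul_left_cancel₀ hX
        rw [hu1] at e0 hy2
        linear_combination hy2 - C t * (C x.e0 + C x.e1 * X) * e0 +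
          (- X - C t * C x.g1 * X) * hu2
      · simp [ht, hd]
    obtain ⟨v2, hv2⟩ : X ∣ u2 := by
      refine X_dvd_mul_left (p := C t * (C x.f0 + C x.f1 * X)) ⟨y1 - v1 - C t *
        (C x.c0 + C x.c1 * X + C x.c2 * X ^ 2) * (X ^ (m + 1) * y0 - C t * X ^ m * ((C x.b0 +
        C x.b1 * X + C x.b2 * X ^ 2) * v1 + (C x.h0 + C x.h1 * X) * u2)) -
        C t * (C x.q1 + C x.q2 * X) * v1, ?_⟩ ?_
      · apply mul_left_cancel₀ (pow_ne_zero 2 hX)
        rw [hu1, hv1, hu2] at e0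
        rw [hu1, hv1, hu2] at hy1
        linear_combination hy1 - C t * (C x.c0 + C x.c1 * X + C x.c2 * X ^ 2) * e0
      · simp [ht, hf]
    obtain ⟨s1, hs1⟩ : X ∣ v1 := by
      rw [hu1, hv1, ← mul_assoc, ← pow_two, coeff_X_pow_mul', if_pos le_rfl] at h01'
      rwa [X_dvd_iff]
    rw [hu1, hv1, hs1, hu2, hv2] at e0
    have e0' : z 0 = X ^ (m + 4) * (y0 - C t * ((C x.b0 + C x.b1 * X + C x.b2 * X ^ 2) * s1 +
        (C x.h0 + C x.h1 * X) * v2)) := by
      linear_combination e0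
    obtain ⟨s0, hs0⟩ : X ∣ y0 - C t * ((C x.b0 + C x.b1 * X + C x.b2 * X ^ 2) * s1 +
        (C x.h0 + C x.h1 * X) * v2) := by
      rw [e0', coeff_X_pow_mul', if_pos le_rfl, Nat.sub_self] at h00'
      rwa [X_dvd_iff]
    have hz : PB.pi A w z = 0 := by
      rw [PB.pi_eq_zero hA]
      intro i
      fin_cases i
      · refine ⟨s0, ?_⟩
        show z 0 = X ^ (m + 5) * s0
        rw [e0', hs0]
        ring
      · refine ⟨s1, ?_⟩
        show z 1 = X ^ 3 * s1
        rw [hu1, hv1, hs1]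
        ring
      · refine ⟨v2, ?_⟩
        show z 2 = X ^ 2 * v2
        rw [hu2, hv2]
        ring
    exact Subtype.ext hz
  have hle := LinearMap.finrank_le_finrank_of_injective hinj
  rw [Module.finrank_fin_fun] at hle
  have h5 := LinearMap.finrank_range_add_finrank_ker (A + t • B).mulVecLin
  rw [Module.finrank_fin_fun] at h5
  have h6 : (A + t • B).rank = Module.finrank k (LinearMap.range (A + t • B).mulVecLin) := rfl
  omega

/-- linear changes of the pencil -/
theorem Bad.lin {x y : Par k} (h : Bad m x y) {a b c d : k} (hd : a * d - b * c ≠ 0) :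
    Bad m (x.lin a b y) (x.lin c d y) := by
  obtain ⟨N, A, B, C', w, hA, hB, hC, hT⟩ := h
  have h1 := D8.MaxR.lin hT a b c d 0 0 0 0 hd
  simp only [zero_smul, add_zero] at h1
  exact ⟨N, A, _, _, w, hA, ((hB.smul a).add (hC.smul b)).congr (mz_lin ..).symm,
    ((hB.smul c).add (hC.smul d)).congr (mz_lin ..).symm, h1⟩

theorem Bad.swap {x y : Par k} (h : Bad m x y) : Bad m y x := by
  obtain ⟨N, A, B, C', w, hA, hB, hC, hT⟩ := h
  exact ⟨N, A, C', B, w, hA, hC, hB, D8.MaxR.swap hT⟩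

/-- the rank condition -/
theorem Bad.fd [Infinite k] {x y : Par k} (h : Bad m x y) : x.f0 = 0 ∨ x.d0 = 0 := by
  by_contra hn
  push Not at hn
  obtain ⟨N, A, B, C', w, hA, hB, hC, hT⟩ := h
  have h1 := rank_mz hA hB hn.1 hn.2 one_ne_zero
  have h2 := hT.rank_le (M := A + (1 : k) • B) (add_mem (mem0 A B C')
    (SMulMemClass.smul_mem 1 (mem1 A B C'))) 1
  simp only [pow_one] at h2
  exact absurd h1 (not_lt.2 h2)

/-- the planar case -/
theorem Bad.cd [Infinite k] {x y : Par k} (h : Bad m x y) : x.c0 = 0 ∨ x.d0 = 0 := by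
  by_contra hn
  push Not at hn
  obtain ⟨hc, hd⟩ := hn
  obtain ⟨N, A, B, C', w, hA, hB, hC, hT⟩ := h
  have hAB : A * B = B * A := hT.cn.1 0 1
  have hT' : CN ![A, B, 0] := by
    refine PB.cn3 hA hAB (by simp) (by simp) (nilp_mz hA hB) IsNilpotent.zero
  -- cyclic
  have hv : ∀ x, ∃ (c : k), ∃ M ∈ adj ![A, B, 0], x = c • w 0 + M *ᵥ w 0 := by
    let S : Submodule k (Fin N → k) :=
      { carrier := {x | ∃ (c : k), ∃ M ∈ adj ![A, B, 0], x = c • w 0 + M *ᵥ w 0}
        add_mem' := by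
          rintro _ _ ⟨c, M, hM, rfl⟩ ⟨c', M', hM', rfl⟩
          refine ⟨c + c', M + M', add_mem hM hM', ?_⟩
          rw [add_smul, Matrix.add_mulVec]
          abel
        zero_mem' := ⟨0, 0, zero_mem _, by simp⟩
        smul_mem' := by
          rintro a _ ⟨c, M, hM, rfl⟩
          refine ⟨a * c, a • M, SMulMemClass.smul_mem a hM, ?_⟩
          rw [smul_add, Matrix.smul_mulVec, smul_smul] }
    have hSM : ∀ P ∈ adj ![A, B, 0], ∀ y ∈ S, P *ᵥ y ∈ S := by
      rintro P hP _ ⟨c, M, hM, rfl⟩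
      refine ⟨0, c • P + P * M, add_mem (SMulMemClass.smul_mem c hP) (mul_mem hP hM), ?_⟩
      rw [Matrix.mulVec_add, Matrix.mulVec_smul, Matrix.mulVec_mulVec, zero_smul, zero_add,
        Matrix.add_mulVec, Matrix.smul_mulVec]
    have h0 : w 0 ∈ S := ⟨1, 0, zero_mem _, by simp⟩
    have hXp : ∀ p : k[X], ∀ y, aeval A p *ᵥ y = p.coeff 0 • y + A *ᵥ (aeval A p.divX *ᵥ y) := by
      intro p y
      conv_lhs => rw [← divX_mul_X_add p]
      rw [map_add, aeval_C, mul_comm p.divX X, map_mul, aeval_X, Matrix.add_mulVec,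
        Matrix.mulVec_mulVec, Algebra.algebraMap_eq_smul_one, Matrix.smul_mulVec,
        Matrix.one_mulVec, add_comm]
    have hpi : ∀ z, ∃ t, PB.pi A w z = (z 0).coeff 0 • w 0 + (z 1).coeff 0 • w 1 +
        (z 2).coeff 0 • w 2 + A *ᵥ t := by
      intro z
      refine ⟨aeval A (z 0).divX *ᵥ w 0 + aeval A (z 1).divX *ᵥ w 1 + aeval A (z 2).divX *ᵥ w 2, ?_⟩
      unfold PB.pi
      rw [Fin.sum_univ_three, hXp, hXp (z 1), hXp (z 2), Matrix.mulVec_add, Matrix.mulVec_add]
      abel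
    have h1 : B *ᵥ w 0 ∈ S := hSM B (mem1 _ _ _) _ h0
    have h2 : B *ᵥ (B *ᵥ w 0) ∈ S := hSM B (mem1 _ _ _) _ h1
    rw [hB.apply 0] at h1
    have e2 : B *ᵥ (B *ᵥ w 0) = PB.pi A w fun i => (Mz m x * Mz m x) i 0 := by
      rw [Matrix.mulVec_mulVec]
      exact (hB.mul hB).apply 0
    rw [e2] at h2
    obtain ⟨t1, ht1⟩ := hpi fun i => Mz m x i 0
    obtain ⟨t2, ht2⟩ := hpi fun i => (Mz m x * Mz m x) i 0
    rw [ht1] at h1
    rw [ht2] at h2
    have a0 : (Mz m x 0 0).coeff 0 = 0 := by simp [Mz]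
    have a1 : (Mz m x 1 0).coeff 0 = x.c0 := by simp [Mz]
    have a2 : (Mz m x 2 0).coeff 0 = x.e0 := by simp [Mz]
    have b0 : ((Mz m x * Mz m x) 0 0).coeff 0 = 0 := by
      rw [Matrix.mul_apply, Fin.sum_univ_three]
      simp [Mz]
    have b1 : ((Mz m x * Mz m x) 1 0).coeff 0 = 0 := by
      rw [Matrix.mul_apply, Fin.sum_univ_three]
      simp [Mz]
    have b2 : ((Mz m x * Mz m x) 2 0).coeff 0 = x.d0 * x.c0 := by
      rw [Matrix.mul_apply, Fin.sum_univ_three]
      simp [Mz]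
    rw [a0, a1, a2, zero_smul, zero_add] at h1
    rw [b0, b1, b2, zero_smul, zero_smul, zero_add, zero_add] at h2
    -- every vector is in `S` up to the range of `A ^ i`
    have hw2 : ∃ s ∈ S, ∃ t, w 2 = s + A *ᵥ t := by
      refine ⟨(x.d0 * x.c0)⁻¹ • ((x.d0 * x.c0) • w 2 + A *ᵥ t2), S.smul_mem _ h2,
        -((x.d0 * x.c0)⁻¹ • t2), ?_⟩
      rw [smul_add, inv_smul_smul₀ (mul_ne_zero hd hc), Matrix.mulVec_neg, Matrix.mulVec_smul]
      abel
    obtain ⟨s2, hs2, t3, ht3⟩ := hw2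
    have hw1 : ∃ s ∈ S, ∃ t, w 1 = s + A *ᵥ t := by
      refine ⟨x.c0⁻¹ • (x.c0 • w 1 + x.e0 • w 2 + A *ᵥ t1) - (x.c0⁻¹ * x.e0) • s2,
        S.sub_mem (S.smul_mem _ h1) (S.smul_mem _ hs2),
        -(x.c0⁻¹ • t1) - (x.c0⁻¹ * x.e0) • t3, ?_⟩
      rw [smul_add, smul_add, inv_smul_smul₀ hc, smul_smul]
      rw [ht3]
      rw [Matrix.mulVec_sub, Matrix.mulVec_neg, Matrix.mulVec_smul, Matrix.mulVec_smul, smul_add]
      abel
    obtain ⟨s1, hs1, t4, ht4⟩ := hw1
    have hall : ∀ y, ∃ s ∈ S, ∃ t, y = s + A *ᵥ t := by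
      intro y
      obtain ⟨z, rfl⟩ := hA.span y
      obtain ⟨t, ht⟩ := hpi z
      refine ⟨(z 0).coeff 0 • w 0 + (z 1).coeff 0 • s1 + (z 2).coeff 0 • s2,
        S.add_mem (S.add_mem (S.smul_mem _ h0) (S.smul_mem _ hs1)) (S.smul_mem _ hs2),
        (z 1).coeff 0 • t4 + (z 2).coeff 0 • t3 + t, ?_⟩
      rw [ht, ht3, ht4, Matrix.mulVec_add, Matrix.mulVec_add, Matrix.mulVec_smul,
        Matrix.mulVec_smul, smul_add, smul_add]
      abel
    have hall2 : ∀ (e : ℕ) (y : Fin N → k), ∃ s ∈ S, ∃ t, y = s + A ^ e *ᵥ t := by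
      intro e
      induction e with
      | zero => exact fun y => ⟨0, S.zero_mem, y, by simp⟩
      | succ e ih =>
        intro y
        obtain ⟨s, hs, t, ht⟩ := ih y
        obtain ⟨s', hs', t', ht'⟩ := hall t
        refine ⟨s + A ^ e *ᵥ s', S.add_mem hs ?_, t', ?_⟩
        · rcases Nat.eq_zero_or_pos e with rfl | he
          · simpa using hs'
          · have : A ^ e ∈ adj ![A, B, 0] := by
              obtain ⟨e', rfl⟩ : ∃ e', e = e' + 1 := ⟨e - 1, by omega⟩
              clear * - A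
              induction e' with
              | zero => simpa using mem0 A B 0
              | succ e' ih => rw [pow_succ]; exact mul_mem ih (mem0 A B 0)
            exact hSM _ this _ hs'
        · rw [ht, ht', Matrix.mulVec_add, Matrix.mulVec_mulVec, ← pow_succ, add_assoc]
    obtain ⟨e, he⟩ := PB.nilp_A hA
    intro y
    obtain ⟨s, hs, t, ht⟩ := hall2 e y
    rw [he, Matrix.zero_mulVec, add_zero] at ht
    rw [ht]
    exact hs
  have hCm : C' ∈ adj ![A, B, 0] := by
    refine cyc_mem hT' (nilp_mz hA hC) (fun i => ?_) (w 0) hv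
    fin_cases i
    · exact hT.cn.1 0 2
    · exact hT.cn.1 1 2
    · show 0 * C' = C' * 0
      rw [zero_mul, mul_zero]
  -- the deformation
  obtain ⟨M, hM, hMp⟩ := exists_fam (m := m) hA
  let c : k → Par k := fun s => { x with f0 := x.f0 + s }
  have hcp : PolyP c := by
    show PolyP fun s => ({ x with f0 := x.f0 + s } : Par k)
    constructor <;> (try dsimp only) <;> (repeat (first
      | exact D7.IsPoly.const _
      | exact D7.IsPoly.id
      | apply D7.IsPoly.add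
      | apply D7.IsPoly.sub
      | apply D7.IsPoly.mul
      | apply D7.IsPoly.neg
      | apply D7.IsPoly.pow))
  have hfam : PolyFam fun s => ![A, M (c s), 0] := by
    intro i a b
    fin_cases i
    · exact D7.IsPoly.const _
    · exact hMp c hcp a b
    · exact D7.IsPoly.const _
  have hc0 : M (c 0) = B := by
    refine PB.Rep.eq hA (hM _) ?_
    have : c 0 = x := by
      show ({ x with f0 := x.f0 + 0 } : Par k) = x
      rw [add_zero]
    rw [this]
    exact hB
  have hCm' : C' ∈ adj ((fun s => ![A, M (c s), 0]) 0) := by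
    show C' ∈ adj ![A, M (c 0), 0]
    rw [hc0]
    exact hCm
  obtain ⟨C'', h0, h1, h2⟩ := adj_family hfam hCm'
  have hcn : ∀ s, CN ![A, M (c s), C'' s] := by
    intro s
    have h3 : CN ![A, M (c s), 0] :=
      PB.cn3 hA (PB.comm_A hA (hM _)) (by simp) (by simp) (nilp_mz hA (hM _)) IsNilpotent.zero
    refine CN.of_adj h3 fun i => ?_
    fin_cases i
    · exact mem0 _ _ _
    · exact mem1 _ _ _
    · exact h1 s
  obtain ⟨E', hE', h4⟩ := hT.deform (fun s => ![A, M (c s), C'' s]) (by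
      intro i a b
      fin_cases i
      · exact D7.IsPoly.const _
      · exact hMp c hcp a b
      · exact h2 a b) (by
      show ![A, M (c 0), C'' 0] = ![A, B, C']
      rw [hc0, h0]) Set.finite_empty (fun s _ => hcn s)
  obtain ⟨s, hs⟩ := (hE'.union (Set.finite_singleton (-x.f0))).infinite_compl.nonempty
  rw [Set.mem_compl_iff, Set.mem_union, not_or, Set.mem_singleton_iff] at hs
  have h5 := h4 s hs.1
  have h6 := rank_mz hA (hM (c s)) (show x.f0 + s ≠ 0 from fun h =>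
    hs.2 (by linear_combination h)) hd one_ne_zero
  have h7 := h5.rank_le (M := A + (1 : k) • M (c s)) (add_mem (mem0 _ _ _)
    (SMulMemClass.smul_mem 1 (mem1 _ _ _))) 1
  simp only [pow_one] at h7
  exact absurd h6 (not_lt.2 h7)

/-- duality -/
def Par.dual (x : Par k) : Par k :=
  ⟨x.b0, x.b1, x.b2, x.h0, x.h1, x.c0, x.c1, x.c2, x.q1, x.q2, x.f0, x.f1, x.e0, x.e1, x.d0, x.d1,
    x.g1⟩

theorem Bad.dual {x y : Par k} (h : Bad m x y) : Bad m x.dual y.dual := by
  obtain ⟨N, A, B, C', w, hA, hB, hC, hT⟩ := h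
  obtain ⟨w', hw', hr⟩ := PB.BlkB.dual hA (by intro i; fin_cases i <;> simp)
  have hQ : ∀ x : Par k, ∀ i j : Fin 3, (X : k[X]) ^ (![m + 5, 3, 2] i + ![m + 5, 3, 2] j) ∣
      X ^ ![m + 5, 3, 2] j * Mz m x i j - X ^ ![m + 5, 3, 2] i * Mz m x.dual j i := by
    intro x i j
    refine ⟨0, ?_⟩
    fin_cases i <;> fin_cases j <;> simp [Mz, Par.dual] <;> ring
  refine ⟨N, Aᵀ, Bᵀ, C'ᵀ, w', hw', hr B _ _ hB (hQ x), hr C' _ _ hC (hQ y), ?_⟩
  have h1 := hT.transpose
  have e1 : (fun i => (![A, B, C'] i)ᵀ) = ![Aᵀ, Bᵀ, C'ᵀ] := by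
    funext i
    fin_cases i <;> rfl
  have e2 : (fun i => (A ^ i).rank) = fun i => (Aᵀ ^ i).rank := by
    funext i
    rw [← Matrix.transpose_pow, Matrix.rank_transpose]
  rw [e1, e2] at h1
  exact h1

end L32

end Pool.Agent.Lib.D13
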