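import Pool.Agent.Lib.D13.PBdual

/-!
# MP_5dcbc3_ag: nilpotent matrices with Jordan blocks of sizes `m + 5`, `3`, `2`: definitions
-/

namespace Pool.Agent.Lib.D13

open Matrix Polynomial Pool.Agent.Lib.Q5dc Pool.Agent.Lib.D7 Pool.Agent.Lib.D8

namespace L32

/-- the coefficients of a nilpotent matrix commuting with a nilpotent matrix with Jordan blocks
`m + 5`, `3`, `2`, up to polynomials in this matrix -/
@[ext]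
structure Par (k : Type*) where
  c0 : k
  c1 : k
  c2 : k
  e0 : k
  e1 : k
  b0 : k
  b1 : k
  b2 : k
  q1 : k
  q2 : k
  d0 : k
  d1 : k
  h0 : k
  h1 : k
  f0 : k
  f1 : k
  g1 : k

variable {k : Type*} [Field k]

/-- the matrix of polynomials of `v -> c u + e p`, `u -> X ^ (m + 2) b v + q u + d p`,
`p -> X ^ (m + 3) h v + X f u + g p` with `c = c0 + c1 X + c2 X ^ 2`, `e = e0 + e1 X`,
`b = b0 + b1 X + b2 X ^ 2`, `q = q1 X + q2 X ^ 2`, `d = d0 + d1 X`, `h = h0 + h1 X`,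
`f = f0 + f1 X`, `g = g1 X` -/
noncomputable def Mz (m : ℕ) (x : Par k) : Matrix (Fin 3) (Fin 3) k[X] :=
  !![0, X ^ (m + 2) * (C x.b0 + C x.b1 * X + C x.b2 * X ^ 2),
      X ^ (m + 3) * (C x.h0 + C x.h1 * X);
    C x.c0 + C x.c1 * X + C x.c2 * X ^ 2, C x.q1 * X + C x.q2 * X ^ 2,
      X * (C x.f0 + C x.f1 * X);
    C x.e0 + C x.e1 * X, C x.d0 + C x.d1 * X, C x.g1 * X]

/-- the conditions for two such matrices to commute -/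
structure Rel (x y : Par k) : Prop where
  r1 : x.c0 * y.b0 - y.c0 * x.b0 = 0
  r2 : (x.c0 * y.b1 - y.c0 * x.b1) + (x.c1 * y.b0 - y.c1 * x.b0) + (x.e0 * y.h0 - y.e0 * x.h0) = 0
  r3 : (x.c0 * y.b2 - y.c0 * x.b2) + (x.c1 * y.b1 - y.c1 * x.b1) + (x.c2 * y.b0 - y.c2 * x.b0) +
    (x.e0 * y.h1 - y.e0 * x.h1) + (x.e1 * y.h0 - y.e1 * x.h0) = 0
  r4 : (x.c0 * y.q1 - y.c0 * x.q1) + (x.e0 * y.f0 - y.e0 * x.f0) = 0
  r5 : (x.c0 * y.q2 - y.c0 * x.q2) + (x.c1 * y.q1 - y.c1 * x.q1) + (x.e0 * y.f1 - y.e0 * x.f1) +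
    (x.e1 * y.f0 - y.e1 * x.f0) = 0
  r6 : x.c0 * y.d0 - y.c0 * x.d0 = 0
  r6' : (x.c0 * y.d1 - y.c0 * x.d1) + (x.c1 * y.d0 - y.c1 * x.d0) + (x.e0 * y.g1 - y.e0 * x.g1) = 0
  r7 : (x.q1 * y.b0 - y.q1 * x.b0) + (x.d0 * y.h0 - y.d0 * x.h0) = 0
  r8 : (x.q1 * y.b1 - y.q1 * x.b1) + (x.q2 * y.b0 - y.q2 * x.b0) + (x.d0 * y.h1 - y.d0 * x.h1) +
    (x.d1 * y.h0 - y.d1 * x.h0) = 0
  r9 : x.d0 * y.f0 - y.d0 * x.f0 = 0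
  r9' : (x.d0 * y.f1 - y.d0 * x.f1) + (x.d1 * y.f0 - y.d1 * x.f0) = 0
  r10 : x.f0 * y.b0 - y.f0 * x.b0 = 0
  r11 : (x.f0 * y.b1 - y.f0 * x.b1) + (x.f1 * y.b0 - y.f1 * x.b0) + (x.g1 * y.h0 - y.g1 * x.h0) = 0
  r12 : (x.f0 * y.q1 - y.f0 * x.q1) + (x.g1 * y.f0 - y.g1 * x.f0) = 0
  r13 : (x.q1 * y.d0 - y.q1 * x.d0) + (x.d0 * y.g1 - y.d0 * x.g1) = 0

/-- a maximal bad triple -/
def Bad (m : ℕ) (x y : Par k) : Prop :=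
  ∃ (N : ℕ) (A B C' : Matrix (Fin N) (Fin N) k) (w : Fin 3 → Fin N → k),
    PB.BlkB A w ![m + 5, 3, 2] ∧ PB.Rep A w B (Mz m x) ∧ PB.Rep A w C' (Mz m y) ∧
      MaxR (fun i => (A ^ i).rank) ![A, B, C']

end L32

end Pool.Agent.Lib.D13
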