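import Pool.Agent.Lib.D13.L32D

/-!
# MP_5dcbc3_ag: Jordan blocks of sizes `m + 5`, `3`, `2`: relations with `d(0) = 0`, adapted bases
of the pencil, and the first step of the reduction
-/

namespace Pool.Agent.Lib.D13

open Matrix Polynomial Pool.Agent.Lib.Q5dc Pool.Agent.Lib.D7 Pool.Agent.Lib.D8

namespace L32

variable {k : Type*} [Field k] {m : ℕ}

/-- the relations if `d(0) = 0` -/
structure Rel0 (x y : Par k) : Prop where
  r1 : x.c0 * y.b0 - y.c0 * x.b0 = 0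
  r2 : (x.c0 * y.b1 - y.c0 * x.b1) + (x.c1 * y.b0 - y.c1 * x.b0) + (x.e0 * y.h0 - y.e0 * x.h0) = 0
  r3 : (x.c0 * y.b2 - y.c0 * x.b2) + (x.c1 * y.b1 - y.c1 * x.b1) + (x.c2 * y.b0 - y.c2 * x.b0) +
    (x.e0 * y.h1 - y.e0 * x.h1) + (x.e1 * y.h0 - y.e1 * x.h0) = 0
  r4 : (x.c0 * y.q1 - y.c0 * x.q1) + (x.e0 * y.f0 - y.e0 * x.f0) = 0
  r5 : (x.c0 * y.q2 - y.c0 * x.q2) + (x.c1 * y.q1 - y.c1 * x.q1) + (x.e0 * y.f1 - y.e0 * x.f1) +
    (x.e1 * y.f0 - y.e1 * x.f0) = 0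
  r6 : (x.c0 * y.d1 - y.c0 * x.d1) + (x.e0 * y.g1 - y.e0 * x.g1) = 0
  r7 : x.q1 * y.b0 - y.q1 * x.b0 = 0
  r8 : (x.q1 * y.b1 - y.q1 * x.b1) + (x.q2 * y.b0 - y.q2 * x.b0) + (x.d1 * y.h0 - y.d1 * x.h0) = 0
  r9 : x.d1 * y.f0 - y.d1 * x.f0 = 0
  r10 : x.f0 * y.b0 - y.f0 * x.b0 = 0
  r11 : (x.f0 * y.b1 - y.f0 * x.b1) + (x.f1 * y.b0 - y.f1 * x.b0) + (x.g1 * y.h0 - y.g1 * x.h0) = 0
  r12 : (x.f0 * y.q1 - y.f0 * x.q1) + (x.g1 * y.f0 - y.g1 * x.f0) = 0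

theorem Rel0.rel {x y : Par k} (h : Rel0 x y) (hx : x.d0 = 0) (hy : y.d0 = 0) : Rel x y := by
  refine ⟨h.r1, h.r2, h.r3, h.r4, h.r5, ?_, ?_, ?_, ?_, ?_, ?_, h.r10, h.r11, h.r12, ?_⟩
  · rw [hx, hy]; ring
  · rw [hx, hy]; linear_combination h.r6
  · rw [hx, hy]; linear_combination h.r7
  · rw [hx, hy]; linear_combination h.r8
  · rw [hx, hy]; ring
  · rw [hx, hy]; linear_combination h.r9
  · rw [hx, hy]; ring

theorem Rel.rel0 {x y : Par k} (h : Rel x y) (hx : x.d0 = 0) (hy : y.d0 = 0) : Rel0 x y := by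
  obtain ⟨r1, r2, r3, r4, r5, r6, r6', r7, r8, r9, r9', r10, r11, r12, r13⟩ := h
  rw [hx, hy] at r6 r6' r7 r8 r9 r9' r13
  exact ⟨r1, r2, r3, r4, r5, by linear_combination r6', by linear_combination r7,
    by linear_combination r8, by linear_combination r9', r10, r11, r12⟩

/-- a maximal bad triple with `d(0) = 0` -/
structure Bad0 (m : ℕ) (x y : Par k) : Prop where
  bad : Bad m x y
  dx : x.d0 = 0
  dy : y.d0 = 0

theorem Bad0.rel {x y : Par k} (h : Bad0 m x y) : Rel0 x y :=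
  h.bad.rel.rel0 h.dx h.dy

theorem Bad0.move [Infinite k] {x y : Par k} (h : Bad0 m x y) (c c' : k → Par k) (hc : PolyP c)
    (hc' : PolyP c') (h0 : c 0 = x) (h0' : c' 0 = y) (hd : ∀ s, (c s).d0 = 0)
    (hd' : ∀ s, (c' s).d0 = 0) (hr : ∀ s, Rel0 (c s) (c' s)) {F : Set k} (hF : F.Finite) :
    ∃ s ∉ F, Bad0 m (c s) (c' s) := by
  obtain ⟨s, hs, h1⟩ := h.bad.move c c' hc hc' h0 h0' (fun s => (hr s).rel (hd s) (hd' s)) hF
  exact ⟨s, hs, h1, hd s, hd' s⟩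

theorem Bad0.lin {x y : Par k} (h : Bad0 m x y) {a b c d : k} (hd : a * d - b * c ≠ 0) :
    Bad0 m (x.lin a b y) (x.lin c d y) := by
  refine ⟨h.bad.lin hd, ?_, ?_⟩
  · show a * x.d0 + b * y.d0 = 0
    rw [h.dx, h.dy]
    ring
  · show c * x.d0 + d * y.d0 = 0
    rw [h.dx, h.dy]
    ring

theorem Bad0.swap {x y : Par k} (h : Bad0 m x y) : Bad0 m y x :=
  ⟨h.bad.swap, h.dy, h.dx⟩

/-- two linear forms whose product is zero -/
theorem two_lin {p p' r r' : k} (h1 : p = 0 ∨ r = 0) (h2 : p' = 0 ∨ r' = 0)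
    (h3 : p + p' = 0 ∨ r + r' = 0) : (p = 0 ∧ p' = 0) ∨ (r = 0 ∧ r' = 0) := by
  rcases h1 with h1 | h1 <;> rcases h2 with h2 | h2
  · exact Or.inl ⟨h1, h2⟩
  · rcases h3 with h3 | h3
    · exact Or.inl ⟨h1, by linear_combination h3 - h1⟩
    · exact Or.inr ⟨by linear_combination h3 - h2, h2⟩
  · rcases h3 with h3 | h3
    · exact Or.inl ⟨by linear_combination h3 - h2, h2⟩
    · exact Or.inr ⟨h1, by linear_combination h3 - h1⟩
  · exact Or.inr ⟨h1, h2⟩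

theorem Bad.fd2 [Infinite k] {x y : Par k} (h : Bad m x y) :
    (x.f0 = 0 ∧ y.f0 = 0) ∨ (x.d0 = 0 ∧ y.d0 = 0) := by
  refine two_lin h.fd h.swap.fd ?_
  have h1 := (h.lin (a := 1) (b := 1) (c := 0) (d := 1) (by norm_num)).fd
  simp only [Par.lin, one_mul] at h1
  exact h1

/-- `b(0) = 0` or `f(0) = 0` -/
theorem Bad0.bf [Infinite k] {x y : Par k} (h : Bad0 m x y) :
    (x.b0 = 0 ∧ y.b0 = 0) ∨ (x.f0 = 0 ∧ y.f0 = 0) := by
  refine two_lin h.bad.dual.cd h.bad.swap.dual.cd ?_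
  have h1 := (h.bad.lin (a := 1) (b := 1) (c := 0) (d := 1) (by norm_num)).dual.cd
  simp only [Par.lin, Par.dual, one_mul] at h1
  exact h1

/-- a basis of the pencil adapted to a linear form -/
theorem Bad0.adapt {x y : Par k} (h : Bad0 m x y) (φ : Par k → k)
    (hφ : ∀ a b, φ (x.lin a b y) = a * φ x + b * φ y) (hne : ¬(φ x = 0 ∧ φ y = 0)) :
    ∃ a b c d : k, a * d - b * c ≠ 0 ∧ Bad0 m (x.lin a b y) (x.lin c d y) ∧
      φ (x.lin a b y) ≠ 0 ∧ φ (x.lin c d y) = 0 := by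
  by_cases hx : φ x = 0
  · have hy : φ y ≠ 0 := fun h => hne ⟨hx, h⟩
    have hd : (0 : k) * 0 - 1 * 1 ≠ 0 := by norm_num
    refine ⟨0, 1, 1, 0, hd, h.lin hd, ?_, ?_⟩
    · rw [hφ, zero_mul, zero_add, one_mul]
      exact hy
    · rw [hφ, hx]
      ring
  · have hd : (1 : k) * 1 - 0 * (-(φ y / φ x)) ≠ 0 := by norm_num
    refine ⟨1, 0, -(φ y / φ x), 1, hd, h.lin hd, ?_, ?_⟩
    · rw [hφ, zero_mul, add_zero, one_mul]
      exact hx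
    · rw [hφ]
      field_simp
      ring

theorem exists3 (a b c a' b' c' : k) : ∃ x y z : k, ¬(x = 0 ∧ y = 0 ∧ z = 0) ∧
    a * x + b * y + c * z = 0 ∧ a' * x + b' * y + c' * z = 0 := by
  let f : (Fin 3 → k) →ₗ[k] (Fin 2 → k) := Matrix.toLin' !![a, b, c; a', b', c']
  have h1 : LinearMap.ker f ≠ ⊥ := LinearMap.ker_ne_bot_of_finrank_lt (by simp)
  obtain ⟨v, hv, hv0⟩ := Submodule.exists_mem_ne_zero_of_ne_bot h1
  rw [LinearMap.mem_ker] at hv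
  have e0 := congr_fun hv 0
  have e1 := congr_fun hv 1
  simp [f, Matrix.toLin'_apply, Matrix.mulVec, dotProduct, Fin.sum_univ_three] at e0 e1
  refine ⟨v 0, v 1, v 2, ?_, e0, e1⟩
  rintro ⟨g0, g1, g2⟩
  apply hv0
  funext i
  fin_cases i
  · exact g0
  · exact g1
  · exact g2

theorem exists4 (a b c d a' b' c' d' a'' b'' c'' d'' : k) : ∃ x y z t : k,
    ¬(x = 0 ∧ y = 0 ∧ z = 0 ∧ t = 0) ∧ a * x + b * y + c * z + d * t = 0 ∧
    a' * x + b' * y + c' * z + d' * t = 0 ∧ a'' * x + b'' * y + c'' * z + d'' * t = 0 := by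
  let f : (Fin 4 → k) →ₗ[k] (Fin 3 → k) :=
    Matrix.toLin' !![a, b, c, d; a', b', c', d'; a'', b'', c'', d'']
  have h1 : LinearMap.ker f ≠ ⊥ := LinearMap.ker_ne_bot_of_finrank_lt (by simp)
  obtain ⟨v, hv, hv0⟩ := Submodule.exists_mem_ne_zero_of_ne_bot h1
  rw [LinearMap.mem_ker] at hv
  have e0 := congr_fun hv 0
  have e1 := congr_fun hv 1
  have e2 := congr_fun hv 2
  simp [f, Matrix.toLin'_apply, Matrix.mulVec, dotProduct, Fin.sum_univ_four] at e0 e1 e2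
  refine ⟨v 0, v 1, v 2, v 3, ?_, e0, e1, e2⟩
  rintro ⟨g0, g1, g2, g3⟩
  apply hv0
  funext i
  fin_cases i
  · exact g0
  · exact g1
  · exact g2
  · exact g3

end L32

end Pool.Agent.Lib.D13
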