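import Pool.Agent.Lib.D13.L32E

/-!
# MP_5dcbc3_ag: Jordan blocks of sizes `m + 5`, `3`, `2`: first step of the reduction
-/

namespace Pool.Agent.Lib.D13

open Matrix Polynomial Pool.Agent.Lib.Q5dc Pool.Agent.Lib.D7 Pool.Agent.Lib.D8

namespace L32

variable {k : Type*} [Field k] {m : ℕ}

/-- a solution of the linear conditions on the images of the first generator -/
def Vec (x y : Par k) : Prop :=
  ∃ g g' e e' u1 u1' u2 u2' v1 v1' : k, ¬(g = 0 ∧ g' = 0 ∧ e = 0 ∧ e' = 0) ∧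
    g * y.b0 - g' * x.b0 = 0 ∧
    (g * y.b1 - g' * x.b1) + (u1 * y.b0 - u1' * x.b0) + (e * y.h0 - e' * x.h0) = 0 ∧
    (g * y.b2 - g' * x.b2) + (u1 * y.b1 - u1' * x.b1) + (u2 * y.b0 - u2' * x.b0) +
      (e * y.h1 - e' * x.h1) + (v1 * y.h0 - v1' * x.h0) = 0 ∧
    (g * y.q1 - g' * x.q1) + (e * y.f0 - e' * x.f0) = 0 ∧
    (g * y.q2 - g' * x.q2) + (u1 * y.q1 - u1' * x.q1) + (e * y.f1 - e' * x.f1) +
      (v1 * y.f0 - v1' * x.f0) = 0 ∧
    (g * y.d1 - g' * x.d1) + (e * y.g1 - e' * x.g1) = 0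

theorem Bad0.of_vec [Infinite k] {x y : Par k} (h : Bad0 m x y) (hx0 : x.c0 = 0) (hy0 : y.c0 = 0)
    (hx1 : x.e0 = 0) (hy1 : y.e0 = 0) (hv : Vec x y) :
    ∃ x' y' : Par k, Bad0 m x' y' ∧ ¬(x'.c0 = 0 ∧ y'.c0 = 0 ∧ x'.e0 = 0 ∧ y'.e0 = 0) := by
  obtain ⟨g, g', e, e', u1, u1', u2, u2', v1, v1', hne, E1, E2, E3, E4, E5, E6⟩ := hv
  have R := h.rel
  obtain ⟨s, hs, h1⟩ := h.move
    (fun s => { x with
      c0 := x.c0 + s * g, c1 := x.c1 + s * u1, c2 := x.c2 + s * u2, e0 := x.e0 + s * e,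
      e1 := x.e1 + s * v1 })
    (fun s => { y with
      c0 := y.c0 + s * g', c1 := y.c1 + s * u1', c2 := y.c2 + s * u2', e0 := y.e0 + s * e',
      e1 := y.e1 + s * v1' })
    (by
      constructor <;> (try dsimp only) <;> (repeat (first
        | exact D7.IsPoly.const _
        | exact D7.IsPoly.id
        | apply D7.IsPoly.add
        | apply D7.IsPoly.sub
        | apply D7.IsPoly.mul
        | apply D7.IsPoly.neg
        | apply D7.IsPoly.pow))) (by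
      constructor <;> (try dsimp only) <;> (repeat (first
        | exact D7.IsPoly.const _
        | exact D7.IsPoly.id
        | apply D7.IsPoly.add
        | apply D7.IsPoly.sub
        | apply D7.IsPoly.mul
        | apply D7.IsPoly.neg
        | apply D7.IsPoly.pow))) (by simp) (by simp) (fun _ => h.dx) (fun _ => h.dy) (fun s => by
      constructor <;> dsimp only
      · linear_combination R.r1 + s * E1
      · linear_combination R.r2 + s * E2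
      · linear_combination R.r3 + s * E3
      · linear_combination R.r4 + s * E4
      · linear_combination R.r5 + s * E5
      · linear_combination R.r6 + s * E6
      · exact R.r7
      · exact R.r8
      · exact R.r9
      · exact R.r10
      · exact R.r11
      · exact R.r12) (Set.finite_singleton (0 : k))
  have hs0 : s ≠ 0 := hs
  refine ⟨_, _, h1, ?_⟩
  dsimp only
  rw [hx0, hy0, hx1, hy1]
  rintro ⟨a1, a2, a3, a4⟩
  refine hne ⟨?_, ?_, ?_, ?_⟩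
  · exact (mul_eq_zero.1 ((zero_add _).symm.trans a1)).resolve_left hs0
  · exact (mul_eq_zero.1 ((zero_add _).symm.trans a2)).resolve_left hs0
  · exact (mul_eq_zero.1 ((zero_add _).symm.trans a3)).resolve_left hs0
  · exact (mul_eq_zero.1 ((zero_add _).symm.trans a4)).resolve_left hs0

theorem vec_b {x y : Par k} (R : Rel0 x y) (hb : x.b0 ≠ 0) (hb' : y.b0 = 0) (hf : x.f0 = 0)
    (hf' : y.f0 = 0) : Vec x y := by
  have hq : y.q1 = 0 := by
    have := R.r7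
    rw [hb', mul_zero, zero_sub, neg_eq_zero] at this
    exact (mul_eq_zero.1 this).resolve_right hb
  obtain ⟨g, e, e', hne, h1, h2⟩ := exists3 y.d1 y.g1 (-x.g1)
    (y.q2 * x.b0 - y.b1 * x.q1) (x.b0 * y.f1 - y.h0 * x.q1) (-x.b0 * x.f1 + x.h0 * x.q1)
  refine ⟨g, 0, e, e', 0, (g * y.b1 + (e * y.h0 - e' * x.h0)) / x.b0, 0,
    (g * y.b2 - (g * y.b1 + (e * y.h0 - e' * x.h0)) / x.b0 * x.b1 + (e * y.h1 - e' * x.h1)) / x.b0,
    0, 0, fun h => hne ⟨h.1, h.2.2⟩, ?_, ?_, ?_, ?_, ?_, ?_⟩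
  · rw [hb']; ring
  · rw [hb']; field_simp; ring
  · rw [hb']; field_simp; ring
  · rw [hq, hf, hf']; ring
  · rw [hq, hf, hf']; field_simp; linear_combination h2
  · linear_combination h1

theorem vec_f {x y : Par k} (R : Rel0 x y) (hf : x.f0 ≠ 0) (hf' : y.f0 = 0) (hb : x.b0 = 0)
    (hb' : y.b0 = 0) : Vec x y := by
  have hg : y.g1 = y.q1 := by
    have := R.r12
    rw [hf'] at this
    have h2 : x.f0 * (y.q1 - y.g1) = 0 := by linear_combination this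
    have h3 := (mul_eq_zero.1 h2).resolve_left hf
    linear_combination -h3
  have hd : y.d1 = 0 := by
    have := R.r9
    rw [hf'] at this
    have h2 : x.f0 * y.d1 = 0 := by linear_combination -this
    exact (mul_eq_zero.1 h2).resolve_left hf
  have R11 : x.f0 * y.b1 + (x.g1 * y.h0 - y.q1 * x.h0) = 0 := by
    have := R.r11
    rw [hf', hb, hb', hg] at this
    linear_combination this
  have r6 : ∀ g g' e : k, (-y.q1 * x.g1) * g + (-x.d1 * x.f0 + x.q1 * x.g1) * g' +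
      (y.q1 * x.f0) * e = 0 → (g * y.d1 - g' * x.d1) + (e * y.g1 -
        (g * y.q1 - g' * x.q1) / x.f0 * x.g1) = 0 := by
    intro g g' e h
    rw [hd, hg]
    field_simp
    linear_combination h
  have r2 : ∀ g g' e u u' : k, (y.b1 * x.f0 - y.q1 * x.h0) * g + (-x.b1 * x.f0 + x.q1 * x.h0) * g' +
      (y.h0 * x.f0) * e = 0 → (g * y.b1 - g' * x.b1) + (u * y.b0 - u' * x.b0) + (e * y.h0 -
        (g * y.q1 - g' * x.q1) / x.f0 * x.h0) = 0 := by
    intro g g' e u u' h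
    rw [hb, hb']
    field_simp
    linear_combination h
  by_cases hh : y.h0 = 0
  · rw [hh] at R11
    by_cases hK : x.f0 * x.b1 - x.h0 * x.q1 = 0
    · obtain ⟨g, g', e, hne, h1, h2⟩ := exists3 (-y.q1 * x.g1) (-x.d1 * x.f0 + x.q1 * x.g1)
        (y.q1 * x.f0)
        (x.f0 * x.f0 * y.b2 - x.f0 * x.h1 * y.q1 - x.f0 * x.h0 * y.q2 + x.h0 * x.f1 * y.q1)
        (-x.f0 * x.f0 * x.b2 + x.f0 * x.h1 * x.q1 + x.f0 * x.h0 * x.q2 - x.h0 * x.f1 * x.q1)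
        (x.f0 * x.f0 * y.h1 - x.f0 * x.h0 * y.f1)
      refine ⟨g, g', e, (g * y.q1 - g' * x.q1) / x.f0, 0, 0, 0, 0, 0,
        (g * y.q2 - g' * x.q2 + e * y.f1 - (g * y.q1 - g' * x.q1) / x.f0 * x.f1) / x.f0,
        fun h => hne ⟨h.1, h.2.1, h.2.2.1⟩, ?_, ?_, ?_, ?_, ?_, ?_⟩
      · rw [hb, hb']; ring
      · refine r2 g g' e 0 0 ?_
        rw [hh]
        linear_combination g * R11 - g' * hK
      · rw [hb, hb', hh]
        field_simp
        linear_combination h2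
      · rw [hf']; field_simp; ring
      · rw [hf']; field_simp; ring
      · exact r6 g g' e h1
    · obtain ⟨g, g', e, hne, h1, h2⟩ := exists3 (-y.q1 * x.g1) (-x.d1 * x.f0 + x.q1 * x.g1)
        (y.q1 * x.f0) (y.b1 * x.f0 - y.q1 * x.h0) (-x.b1 * x.f0 + x.q1 * x.h0) (y.h0 * x.f0)
      have hK' : x.f0 * x.b1 - x.h0 * x.q1 ≠ 0 := hK
      obtain ⟨K, hKd⟩ : ∃ K, K = x.f0 * x.b1 - x.h0 * x.q1 := ⟨_, rfl⟩
      rw [← hKd] at hK'
      obtain ⟨u, hu⟩ : ∃ u, u * K = x.f0 * (g * y.b2 - g' * x.b2 + e * y.h1 -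
          (g * y.q1 - g' * x.q1) / x.f0 * x.h1) - x.h0 * (g * y.q2 - g' * x.q2 + e * y.f1 -
          (g * y.q1 - g' * x.q1) / x.f0 * x.f1) := ⟨_, div_mul_cancel₀ _ hK'⟩
      refine ⟨g, g', e, (g * y.q1 - g' * x.q1) / x.f0, 0, u, 0, 0, 0,
        (g * y.q2 - g' * x.q2 - u * x.q1 + e * y.f1 - (g * y.q1 - g' * x.q1) / x.f0 * x.f1) / x.f0,
        fun h => hne ⟨h.1, h.2.1, h.2.2.1⟩, ?_, ?_, ?_, ?_, ?_, ?_⟩
      · rw [hb, hb']; ring
      · exact r2 g g' e 0 u h2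
      · rw [hb, hb', hh]
        rw [hKd] at hu
        field_simp
        field_simp at hu
        linear_combination -hu
      · rw [hf']; field_simp; ring
      · rw [hf']; field_simp; ring
      · exact r6 g g' e h1
  · obtain ⟨g, g', e, hne, h1, h2⟩ := exists3 (-y.q1 * x.g1) (-x.d1 * x.f0 + x.q1 * x.g1)
      (y.q1 * x.f0) (y.b1 * x.f0 - y.q1 * x.h0) (-x.b1 * x.f0 + x.q1 * x.h0) (y.h0 * x.f0)
    obtain ⟨v, hv⟩ : ∃ v, v = (g * y.q2 - g' * x.q2 + e * y.f1 -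
      (g * y.q1 - g' * x.q1) / x.f0 * x.f1) / x.f0 := ⟨_, rfl⟩
    obtain ⟨u, hu⟩ : ∃ u, u * y.h0 = -(g * y.b2 - g' * x.b2 + e * y.h1 -
        (g * y.q1 - g' * x.q1) / x.f0 * x.h1 - v * x.h0) := ⟨_, div_mul_cancel₀ _ hh⟩
    refine ⟨g, g', e, (g * y.q1 - g' * x.q1) / x.f0, 0, 0, 0, 0, u, v,
      fun h => hne ⟨h.1, h.2.1, h.2.2.1⟩, ?_, ?_, ?_, ?_, ?_, ?_⟩
    · rw [hb, hb']; ring
    · exact r2 g g' e 0 0 h2
    · rw [hb, hb']
      linear_combination hu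
    · rw [hf']; field_simp; ring
    · rw [hf', hv]; field_simp; ring
    · exact r6 g g' e h1

theorem vec_q {x y : Par k} (hq : x.q1 ≠ 0) (hq' : y.q1 = 0) (hb : x.b0 = 0)
    (hb' : y.b0 = 0) (hf : x.f0 = 0) (hf' : y.f0 = 0) : Vec x y := by
  by_cases hz : y.b1 = 0 ∧ y.h0 = 0 ∧ x.h0 = 0
  · obtain ⟨z1, z2, z3⟩ := hz
    obtain ⟨g, e, e', hne, h1, h2⟩ := exists3 y.d1 y.g1 (-x.g1)
      (y.b2 * x.q1 - y.q2 * x.b1) (y.h1 * x.q1 - y.f1 * x.b1) (-x.h1 * x.q1 + x.f1 * x.b1)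
    refine ⟨g, 0, e, e', 0, (g * y.q2 + e * y.f1 - e' * x.f1) / x.q1, 0, 0, 0, 0,
      fun h => hne ⟨h.1, h.2.2⟩, ?_, ?_, ?_, ?_, ?_, ?_⟩
    · rw [hb]; rw [hb']; ring
    · rw [hb, hb', z1, z2, z3]; ring
    · rw [hb, hb', z1, z2, z3]; field_simp; linear_combination h2
    · rw [hq', hf, hf']; ring
    · rw [hq', hf, hf']; field_simp; ring
    · linear_combination h1
  · obtain ⟨g, e, e', hne, h1, h2⟩ := exists3 y.d1 y.g1 (-x.g1) y.b1 y.h0 (-x.h0)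
    obtain ⟨u', hu'⟩ : ∃ u', u' = (g * y.q2 + e * y.f1 - e' * x.f1) / x.q1 := ⟨_, rfl⟩
    obtain ⟨u, v, v', hv⟩ : ∃ u v v', u * y.b1 + v * y.h0 - v' * x.h0 =
        -(g * y.b2 - u' * x.b1 + e * y.h1 - e' * x.h1) := by
      by_cases a1 : y.b1 = 0
      · by_cases a2 : y.h0 = 0
        · have a3 : x.h0 ≠ 0 := fun a3 => hz ⟨a1, a2, a3⟩
          refine ⟨0, 0, (g * y.b2 - u' * x.b1 + e * y.h1 - e' * x.h1) / x.h0, ?_⟩
          field_simp
          ring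
        · refine ⟨0, -(g * y.b2 - u' * x.b1 + e * y.h1 - e' * x.h1) / y.h0, 0, ?_⟩
          field_simp
          ring
      · refine ⟨-(g * y.b2 - u' * x.b1 + e * y.h1 - e' * x.h1) / y.b1, 0, 0, ?_⟩
        field_simp
        ring
    refine ⟨g, 0, e, e', u, u', 0, 0, v, v', fun h => hne ⟨h.1, h.2.2⟩, ?_, ?_, ?_, ?_, ?_, ?_⟩
    · rw [hb, hb']; ring
    · rw [hb, hb']; linear_combination h2
    · rw [hb, hb']; linear_combination hv
    · rw [hq', hf, hf']; ring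
    · rw [hq', hf, hf', hu']; field_simp; ring
    · linear_combination h1

theorem vec_0 {x y : Par k} (hq : x.q1 = 0) (hq' : y.q1 = 0) (hb : x.b0 = 0)
    (hb' : y.b0 = 0) (hf : x.f0 = 0) (hf' : y.f0 = 0) : Vec x y := by
  by_cases hz : y.b1 = 0 ∧ x.b1 = 0 ∧ y.h0 = 0 ∧ x.h0 = 0
  · obtain ⟨z1, z2, z3, z4⟩ := hz
    obtain ⟨g, g', e, e', hne, h1, h2, h3⟩ := exists4 y.d1 (-x.d1) y.g1 (-x.g1)
      y.q2 (-x.q2) y.f1 (-x.f1) y.b2 (-x.b2) y.h1 (-x.h1)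
    refine ⟨g, g', e, e', 0, 0, 0, 0, 0, 0, hne, ?_, ?_, ?_, ?_, ?_, ?_⟩
    · rw [hb, hb']; ring
    · rw [hb, hb', z1, z2, z3, z4]; ring
    · linear_combination h3
    · rw [hq, hq', hf, hf']; ring
    · linear_combination h2
    · linear_combination h1
  · obtain ⟨g, g', e, e', hne, h1, h2, h3⟩ := exists4 y.d1 (-x.d1) y.g1 (-x.g1)
      y.q2 (-x.q2) y.f1 (-x.f1) y.b1 (-x.b1) y.h0 (-x.h0)
    obtain ⟨u, u', v, v', hv⟩ : ∃ u u' v v', u * y.b1 - u' * x.b1 + v * y.h0 - v' * x.h0 =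
        -(g * y.b2 - g' * x.b2 + e * y.h1 - e' * x.h1) := by
      by_cases a1 : y.b1 = 0
      · by_cases a4 : x.b1 = 0
        · by_cases a2 : y.h0 = 0
          · have a3 : x.h0 ≠ 0 := fun a3 => hz ⟨a1, a4, a2, a3⟩
            refine ⟨0, 0, 0, (g * y.b2 - g' * x.b2 + e * y.h1 - e' * x.h1) / x.h0, ?_⟩
            field_simp
            ring
          · refine ⟨0, 0, -(g * y.b2 - g' * x.b2 + e * y.h1 - e' * x.h1) / y.h0, 0, ?_⟩
            field_simp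
            ring
        · refine ⟨0, (g * y.b2 - g' * x.b2 + e * y.h1 - e' * x.h1) / x.b1, 0, 0, ?_⟩
          field_simp
          ring
      · refine ⟨-(g * y.b2 - g' * x.b2 + e * y.h1 - e' * x.h1) / y.b1, 0, 0, 0, ?_⟩
        field_simp
        ring
    refine ⟨g, g', e, e', u, u', 0, 0, v, v', hne, ?_, ?_, ?_, ?_, ?_, ?_⟩
    · rw [hb, hb']; ring
    · rw [hb, hb']; linear_combination h3
    · rw [hb, hb']; linear_combination hv
    · rw [hq, hq', hf, hf']; ring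
    · rw [hq, hq', hf, hf']; linear_combination h2
    · linear_combination h1

/-- first step: `c(0)` or `e(0)` becomes nonzero -/
theorem Bad0.ph1 [Infinite k] {x y : Par k} (h : Bad0 m x y) :
    ∃ x' y' : Par k, Bad0 m x' y' ∧ ¬(x'.c0 = 0 ∧ y'.c0 = 0 ∧ x'.e0 = 0 ∧ y'.e0 = 0) := by
  by_cases hz : x.c0 = 0 ∧ y.c0 = 0 ∧ x.e0 = 0 ∧ y.e0 = 0
  · obtain ⟨z1, z2, z3, z4⟩ := hz
    have lz : ∀ a b p q : k, p = 0 → q = 0 → a * p + b * q = 0 := by
      rintro a b _ _ rfl rfl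
      ring
    by_cases hb : x.b0 = 0 ∧ y.b0 = 0
    · by_cases hf : x.f0 = 0 ∧ y.f0 = 0
      · by_cases hq : x.q1 = 0 ∧ y.q1 = 0
        · exact h.of_vec z1 z2 z3 z4 (vec_0 hq.1 hq.2 hb.1 hb.2 hf.1 hf.2)
        · obtain ⟨a, b, c, d, hd, h1, h2, h3⟩ := h.adapt (fun p => p.q1) (fun _ _ => rfl) hq
          exact h1.of_vec (lz _ _ _ _ z1 z2) (lz _ _ _ _ z1 z2) (lz _ _ _ _ z3 z4)
            (lz _ _ _ _ z3 z4) (vec_q h2 h3 (lz _ _ _ _ hb.1 hb.2) (lz _ _ _ _ hb.1 hb.2)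
            (lz _ _ _ _ hf.1 hf.2) (lz _ _ _ _ hf.1 hf.2))
      · obtain ⟨a, b, c, d, hd, h1, h2, h3⟩ := h.adapt (fun p => p.f0) (fun _ _ => rfl) hf
        exact h1.of_vec (lz _ _ _ _ z1 z2) (lz _ _ _ _ z1 z2) (lz _ _ _ _ z3 z4)
          (lz _ _ _ _ z3 z4) (vec_f h1.rel h2 h3 (lz _ _ _ _ hb.1 hb.2) (lz _ _ _ _ hb.1 hb.2))
    · have hf := h.bf.resolve_left hb
      obtain ⟨a, b, c, d, hd, h1, h2, h3⟩ := h.adapt (fun p => p.b0) (fun _ _ => rfl) hb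
      exact h1.of_vec (lz _ _ _ _ z1 z2) (lz _ _ _ _ z1 z2) (lz _ _ _ _ z3 z4)
        (lz _ _ _ _ z3 z4) (vec_b h1.rel h2 h3 (lz _ _ _ _ hf.1 hf.2) (lz _ _ _ _ hf.1 hf.2))
  · exact ⟨x, y, h, hz⟩

end L32

end Pool.Agent.Lib.D13
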