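import Pool.Agent.Lib.D13.L32F

/-!
# MP_5dcbc3_ag: Jordan blocks of sizes `m + 5`, `3`, `2`: second step of the reduction
-/

namespace Pool.Agent.Lib.D13

open Matrix Polynomial Pool.Agent.Lib.Q5dc Pool.Agent.Lib.D7 Pool.Agent.Lib.D8

namespace L32

variable {k : Type*} [Field k] {m : ℕ}

theorem eq_zero_of_mul {a b c : k} (h : a * b = c) (hc : c = 0) (ha : a ≠ 0) : b = 0 :=
  (mul_eq_zero.1 (h.trans hc)).resolve_left ha

theorem m2A [Infinite k] {x y : Par k} (h : Bad0 m x y) (hc : x.c0 = 0) (hc' : y.c0 = 0)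
    (hb : x.b0 = 0) (hb' : y.b0 = 0) (he : x.e0 = 0) (hE : y.e0 ≠ 0) (hf : x.f0 = 0)
    (hF : y.f0 ≠ 0) : ∃ x' y' : Par k, Bad0 m x' y' ∧ x'.c0 ≠ 0 := by
  have R := h.rel
  have hg : x.g1 = 0 := eq_zero_of_mul (a := y.e0) (c := 0) (by
    have := R.r6
    rw [hc, hc', he] at this
    linear_combination -this) rfl hE
  have hq : x.q1 = 0 := eq_zero_of_mul (a := y.f0) (c := 0) (by
    have := R.r12
    rw [hg, hf] at this
    linear_combination -this) rfl hF
  have hd : x.d1 = 0 := eq_zero_of_mul (a := y.f0) (c := 0) (by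
    have := R.r9
    rw [hf] at this
    linear_combination this) rfl hF
  have hh : x.h0 = 0 := eq_zero_of_mul (a := y.e0) (c := 0) (by
    have := R.r2
    rw [hc, hc', he, hb, hb'] at this
    linear_combination -this) rfl hE
  have hb1 : x.b1 = 0 := eq_zero_of_mul (a := y.f0) (c := 0) (by
    have := R.r11
    rw [hf, hb, hb', hg, hh] at this
    linear_combination -this) rfl hF
  obtain ⟨s, hs, h1⟩ := h.move
    (fun s => { x with
      c0 := s * (y.e0 * y.e0 * y.f0)
      f0 := s * (y.e0 * (y.f0 * y.q1))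
      g1 := s * (y.e0 * (y.f0 * y.d1))
      h0 := s * (y.e0 * (y.f0 * y.b1))
      d1 := s * (y.e0 * (y.d1 * y.q1))
      q1 := s * (y.e0 * (y.d1 * y.f0 + y.q1 * (y.q1 - y.g1)))
      b1 := s * (y.e0 * (y.q1 * y.b1 + y.d1 * y.h0 - y.g1 * y.b1))
      f1 := x.f1 + s * (y.e0 * y.f0 * y.q2 - y.c1 * (y.d1 * y.f0 + y.q1 * (y.q1 - y.g1)) -
        y.e1 * y.f0 * y.q1)
      h1 := x.h1 + s * (y.e0 * y.f0 * y.b2 - y.c1 * (y.q1 * y.b1 + y.d1 * y.h0 - y.g1 * y.b1) -
        y.e1 * y.f0 * y.b1) })
    (fun _ => y) (by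
      constructor <;> (try dsimp only) <;> (repeat (first
        | exact D7.IsPoly.const _
        | exact D7.IsPoly.id
        | apply D7.IsPoly.add
        | apply D7.IsPoly.sub
        | apply D7.IsPoly.mul
        | apply D7.IsPoly.neg
        | apply D7.IsPoly.pow))) (by
      constructor <;> (try dsimp only) <;> (repeat (first
        | exact D7.IsPoly.const _
        | exact D7.IsPoly.id
        | apply D7.IsPoly.add
        | apply D7.IsPoly.sub
        | apply D7.IsPoly.mul
        | apply D7.IsPoly.neg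
        | apply D7.IsPoly.pow))) (by apply Par.ext <;> simp [hc, hf, hg, hh, hd, hq, hb1])
    rfl (fun _ => h.dx) (fun _ => h.dy) (fun s => by
      have r3 := R.r3
      have r5 := R.r5
      rw [hc, hc', he, hb, hb', hb1, hh] at r3
      rw [hc, hc', he, hf, hq] at r5
      constructor <;> dsimp only
      · rw [hb, hb', hc']; ring
      · rw [hb, hb', hc', he]; ring
      · rw [hb, hb', hc', he]; linear_combination r3
      · rw [hc', he]; ring
      · rw [hc', he]; linear_combination r5
      · rw [hc', he]; ring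
      · rw [hb, hb']; ring
      · rw [hb, hb']; ring
      · ring
      · rw [hb, hb']; ring
      · rw [hb, hb']; ring
      · ring) (Set.finite_singleton (0 : k))
  exact ⟨_, _, h1, mul_ne_zero hs (mul_ne_zero (mul_ne_zero hE hE) hF)⟩

theorem m2B1 [Infinite k] {x y : Par k} (h : Bad0 m x y) (hc : x.c0 = 0) (hc' : y.c0 = 0)
    (hb : x.b0 ≠ 0) (hb' : y.b0 = 0) (he : x.e0 = 0) (hE : y.e0 ≠ 0) (hf : x.f0 = 0)
    (hf' : y.f0 = 0) : ∃ x' y' : Par k, Bad0 m x' y' ∧ x'.c0 ≠ 0 := by
  have R := h.rel
  have hq : y.q1 = 0 := eq_zero_of_mul (a := x.b0) (c := 0) (by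
    have := R.r7
    rw [hb'] at this
    linear_combination -this) rfl hb
  have hg : x.g1 = 0 := eq_zero_of_mul (a := y.e0) (c := 0) (by
    have := R.r6
    rw [hc, hc', he] at this
    linear_combination -this) rfl hE
  obtain ⟨s, hs, h1⟩ := h.move
    (fun s => { x with
      c0 := s * (y.e0 * x.b0 * x.b0)
      g1 := s * (x.b0 * x.b0 * y.d1)
      f1 := x.f1 + s * (x.b0 * (x.d1 * y.h0 - y.d1 * x.h0)) })
    (fun s => { y with
      f1 := y.f1 + s * (x.b0 * (y.d1 * y.h0))
      c1 := y.c1 + s * (y.e0 * x.b0 * y.b1)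
      c2 := y.c2 + s * (y.e0 * (x.b0 * y.b2 - x.b1 * y.b1)) })
    (by
      constructor <;> (try dsimp only) <;> (repeat (first
        | exact D7.IsPoly.const _
        | exact D7.IsPoly.id
        | apply D7.IsPoly.add
        | apply D7.IsPoly.sub
        | apply D7.IsPoly.mul
        | apply D7.IsPoly.neg
        | apply D7.IsPoly.pow))) (by
      constructor <;> (try dsimp only) <;> (repeat (first
        | exact D7.IsPoly.const _
        | exact D7.IsPoly.id
        | apply D7.IsPoly.add
        | apply D7.IsPoly.sub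
        | apply D7.IsPoly.mul
        | apply D7.IsPoly.neg
        | apply D7.IsPoly.pow))) (by apply Par.ext <;> simp [hc, hg]) (by apply Par.ext <;> simp)
    (fun _ => h.dx) (fun _ => h.dy) (fun s => by
      have r2 := R.r2
      have r3 := R.r3
      have r5 := R.r5
      have r8 := R.r8
      have r11 := R.r11
      rw [hc, hc', he, hb'] at r2 r3
      rw [hc, hc', he, hf, hf', hq] at r5
      rw [hb', hq] at r8
      rw [hf, hf', hb', hg] at r11
      constructor <;> dsimp only
      · rw [hb', hc']; ring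
      · rw [hb', hc', he]; linear_combination r2
      · rw [hb', hc', he]; linear_combination r3
      · rw [hc', he, hq, hf, hf']; ring
      · rw [hc', he, hq, hf, hf']
        linear_combination r5 - s * y.e0 * x.b0 * r8
      · rw [hc', he]; ring
      · rw [hb', hq]; ring
      · rw [hb', hq]; linear_combination r8
      · rw [hf, hf']; ring
      · rw [hf, hf']; ring
      · rw [hf, hf', hb']; linear_combination r11
      · rw [hf, hf']; ring) (Set.finite_singleton (0 : k))
  exact ⟨_, _, h1, mul_ne_zero hs (mul_ne_zero (mul_ne_zero hE hb) hb)⟩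

theorem m2B2 [Infinite k] {x y : Par k} (h : Bad0 m x y) (hc : x.c0 = 0) (hc' : y.c0 = 0)
    (hb : x.b0 ≠ 0) (hb' : y.b0 = 0) (hE : x.e0 ≠ 0) (he : y.e0 = 0) (hf : x.f0 = 0)
    (hf' : y.f0 = 0) : ∃ x' y' : Par k, Bad0 m x' y' ∧ x'.c0 ≠ 0 := by
  have R := h.rel
  have hq : y.q1 = 0 := eq_zero_of_mul (a := x.b0) (c := 0) (by
    have := R.r7
    rw [hb'] at this
    linear_combination -this) rfl hb
  have hg : y.g1 = 0 := eq_zero_of_mul (a := x.e0) (c := 0) (by
    have := R.r6
    rw [hc, hc', he] at this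
    linear_combination this) rfl hE
  have r2 := R.r2
  have r3 := R.r3
  have r5 := R.r5
  have r8 := R.r8
  have r11 := R.r11
  rw [hc, hc', he, hb'] at r2 r3
  rw [hc, hc', he, hf, hf', hq] at r5
  rw [hb', hq] at r8
  rw [hf, hf', hb', hg] at r11
  by_cases hh : y.h0 = 0
  · rw [hh] at r2 r3 r8 r11
    obtain ⟨s, hs, h1⟩ := h.move
      (fun s => { x with
        c0 := s * (x.e0 * x.b0 * x.b0) })
      (fun s => { y with
        g1 := -(s * (x.b0 * x.b0 * y.d1))
        f1 := y.f1 + s * (x.b0 * (y.d1 * x.h0))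
        c1 := y.c1 + s * (x.e0 * x.b0 * y.b1)
        c2 := y.c2 + s * (x.e0 * (x.b0 * y.b2 - x.b1 * y.b1)) })
      (by
      constructor <;> (try dsimp only) <;> (repeat (first
        | exact D7.IsPoly.const _
        | exact D7.IsPoly.id
        | apply D7.IsPoly.add
        | apply D7.IsPoly.sub
        | apply D7.IsPoly.mul
        | apply D7.IsPoly.neg
        | apply D7.IsPoly.pow))) (by
      constructor <;> (try dsimp only) <;> (repeat (first
        | exact D7.IsPoly.const _
        | exact D7.IsPoly.id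
        | apply D7.IsPoly.add
        | apply D7.IsPoly.sub
        | apply D7.IsPoly.mul
        | apply D7.IsPoly.neg
        | apply D7.IsPoly.pow))) (by apply Par.ext <;> simp [hc]) (by apply Par.ext <;> simp [hg])
      (fun _ => h.dx) (fun _ => h.dy) (fun s => by
        constructor <;> dsimp only
        · rw [hb', hc']; ring
        · rw [hb', hc', he, hh]; linear_combination r2
        · rw [hb', hc', he, hh]; linear_combination r3
        · rw [hc', he, hq, hf, hf']; ring
        · rw [hc', he, hq, hf, hf']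
          linear_combination r5 - s * x.e0 * x.b0 * r8
        · rw [hc', he]; ring
        · rw [hb', hq]; ring
        · rw [hb', hq, hh]; linear_combination r8
        · rw [hf, hf']; ring
        · rw [hf, hf']; ring
        · rw [hf, hf', hb', hh]; linear_combination r11
        · rw [hf, hf']; ring) (Set.finite_singleton (0 : k))
    exact ⟨_, _, h1, mul_ne_zero hs (mul_ne_zero (mul_ne_zero hE hb) hb)⟩
  · have hqg : x.q1 = x.g1 := by
      have h1 : (x.e0 * y.h0) * (x.q1 - x.g1) = 0 := by
        linear_combination -(x.b0 * r5) + x.q1 * r2 - x.e0 * r11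
      have h2 := (mul_eq_zero.1 h1).resolve_left (mul_ne_zero hE hh)
      exact sub_eq_zero.1 h2
    obtain ⟨s, hs, h1⟩ := h.move
      (fun s => { x with
        c0 := s * (x.e0 * x.b0 * x.b0)
        q1 := x.q1 + s * (x.b0 * x.b0 * x.d1) })
      (fun s => { y with
        g1 := -(s * (x.b0 * x.b0 * y.d1))
        q2 := y.q2 + s * (x.b0 * (x.d1 * y.b1))
        f1 := y.f1 + s * (x.b0 * (y.d1 * x.h0))
        c1 := y.c1 + s * (x.e0 * x.b0 * y.b1)
        c2 := y.c2 + s * (x.e0 * (x.b0 * y.b2 - x.b1 * y.b1)) })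
      (by
      constructor <;> (try dsimp only) <;> (repeat (first
        | exact D7.IsPoly.const _
        | exact D7.IsPoly.id
        | apply D7.IsPoly.add
        | apply D7.IsPoly.sub
        | apply D7.IsPoly.mul
        | apply D7.IsPoly.neg
        | apply D7.IsPoly.pow))) (by
      constructor <;> (try dsimp only) <;> (repeat (first
        | exact D7.IsPoly.const _
        | exact D7.IsPoly.id
        | apply D7.IsPoly.add
        | apply D7.IsPoly.sub
        | apply D7.IsPoly.mul
        | apply D7.IsPoly.neg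
        | apply D7.IsPoly.pow))) (by apply Par.ext <;> simp [hc]) (by apply Par.ext <;> simp [hg])
      (fun _ => h.dx) (fun _ => h.dy) (fun s => by
        constructor <;> dsimp only
        · rw [hb', hc']; ring
        · rw [hb', hc', he]; linear_combination r2
        · rw [hb', hc', he]; linear_combination r3
        · rw [hc', he, hq, hf, hf']; ring
        · rw [hc', he, hq, hf, hf']
          linear_combination r5 - s * x.e0 * x.b0 * r8 + s * x.b0 * x.d1 * r2
        · rw [hc', he]; ring
        · rw [hb', hq]; ring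
        · rw [hb', hq]; linear_combination r8
        · rw [hf, hf']; ring
        · rw [hf, hf']; ring
        · rw [hf, hf', hb']; linear_combination r11
        · rw [hf, hf']; ring) (Set.finite_singleton (0 : k))
    exact ⟨_, _, h1, mul_ne_zero hs (mul_ne_zero (mul_ne_zero hE hb) hb)⟩

theorem m2C1 [Infinite k] {x y : Par k} (h : Bad0 m x y) (hc : x.c0 = 0) (hc' : y.c0 = 0)
    (hb : x.b0 = 0) (hb' : y.b0 = 0) (he : x.e0 = 0) (hE : y.e0 ≠ 0) (hf : x.f0 = 0)
    (hf' : y.f0 = 0) (hq : y.q1 = 0) (ha : y.e0 * y.f1 - y.g1 * y.c1 ≠ 0) :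
    ∃ x' y' : Par k, Bad0 m x' y' ∧ x'.c0 ≠ 0 := by
  have R := h.rel
  have hg : x.g1 = 0 := eq_zero_of_mul (a := y.e0) (c := 0) (by
    have := R.r6
    rw [hc, hc', he] at this
    linear_combination -this) rfl hE
  have hh : x.h0 = 0 := eq_zero_of_mul (a := y.e0) (c := 0) (by
    have := R.r2
    rw [hc, hc', he, hb, hb'] at this
    linear_combination -this) rfl hE
  have r3 := R.r3
  have r5 := R.r5
  have r8 := R.r8
  rw [hc, hc', he, hb, hb', hh] at r3
  rw [hc, hc', he, hf, hf', hq] at r5
  rw [hb', hb, hq, hh] at r8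
  obtain ⟨al, hal⟩ : ∃ al, al = y.e0 * y.f1 - y.g1 * y.c1 := ⟨_, rfl⟩
  obtain ⟨be, hbe⟩ : ∃ be, be = y.d1 * y.h0 - y.g1 * y.b1 := ⟨_, rfl⟩
  rw [← hal] at ha
  obtain ⟨u, v, huv⟩ : ∃ u v, u * y.b1 + v * y.h0 =
      y.e0 * y.q2 * be + y.d1 * (al * y.b1 - be * y.c1) := by
    by_cases a1 : y.b1 = 0
    · by_cases a2 : y.h0 = 0
      · exact ⟨0, 0, by rw [hbe, a1, a2]; ring⟩
      · exact ⟨0, (y.e0 * y.q2 * be + y.d1 * (al * y.b1 - be * y.c1)) / y.h0, by
          field_simp; ring⟩
    · exact ⟨(y.e0 * y.q2 * be + y.d1 * (al * y.b1 - be * y.c1)) / y.b1, 0, by field_simp; ring⟩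
  obtain ⟨s, hs, h1⟩ := h.move
    (fun s => { x with
      c0 := s * (y.e0 * y.e0 * al)
      b0 := s * (y.e0 * y.e0 * be)
      h0 := s * (y.e0 * (al * y.b1 - be * y.c1))
      g1 := s * (y.e0 * (al * y.d1))
      q1 := x.q1 + s * (y.e0 * u)
      d1 := x.d1 + s * (y.e0 * v)
      f1 := x.f1 + s * (y.e0 * al * y.q2 - y.c1 * u)
      h1 := x.h1 + s * (y.e0 * al * y.b2 - y.e0 * be * y.c2 - y.e1 * (al * y.b1 - be * y.c1)) })
    (fun _ => y)
    (by
      constructor <;> (try dsimp only) <;> (repeat (first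
        | exact D7.IsPoly.const _
        | exact D7.IsPoly.id
        | apply D7.IsPoly.add
        | apply D7.IsPoly.sub
        | apply D7.IsPoly.mul
        | apply D7.IsPoly.neg
        | apply D7.IsPoly.pow))) (by
      constructor <;> (try dsimp only) <;> (repeat (first
        | exact D7.IsPoly.const _
        | exact D7.IsPoly.id
        | apply D7.IsPoly.add
        | apply D7.IsPoly.sub
        | apply D7.IsPoly.mul
        | apply D7.IsPoly.neg
        | apply D7.IsPoly.pow))) (by apply Par.ext <;> simp [hc, hb, hh, hg]) rfl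
    (fun _ => h.dx) (fun _ => h.dy) (fun s => by
      constructor <;> dsimp only
      · rw [hb', hc']; ring
      · rw [hb', hc', he]; ring
      · rw [hb', hc', he]; linear_combination r3
      · rw [hc', he, hq, hf, hf']; ring
      · rw [hc', he, hq, hf, hf']; linear_combination r5
      · rw [hc', he]; ring
      · rw [hb', hq]; ring
      · rw [hb', hq]; linear_combination r8 + s * y.e0 * huv
      · rw [hf, hf']; ring
      · rw [hf, hf']; ring
      · rw [hf, hf', hb']
        linear_combination s * y.e0 * be * hal - s * y.e0 * al * hbe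
      · rw [hf, hf']; ring) (Set.finite_singleton (0 : k))
  exact ⟨_, _, h1, mul_ne_zero hs (mul_ne_zero (mul_ne_zero hE hE) ha)⟩

theorem m2C1' [Infinite k] {x y : Par k} (h : Bad0 m x y) (hc : x.c0 = 0) (hc' : y.c0 = 0)
    (hb : x.b0 = 0) (hb' : y.b0 = 0) (he : x.e0 = 0) (hE : y.e0 ≠ 0) (hf : x.f0 = 0)
    (hf' : y.f0 = 0) (hq : y.q1 = 0) :
    ∃ x' y' : Par k, Bad0 m x' y' ∧ x'.c0 ≠ 0 := by
  by_cases ha : y.e0 * y.f1 - y.g1 * y.c1 = 0
  · have R := h.rel
    have r5 := R.r5
    have r11 := R.r11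
    obtain ⟨s, hs, h1⟩ := h.move (fun _ => x) (fun s => { y with f1 := y.f1 + s })
      (by
      constructor <;> (try dsimp only) <;> (repeat (first
        | exact D7.IsPoly.const _
        | exact D7.IsPoly.id
        | apply D7.IsPoly.add
        | apply D7.IsPoly.sub
        | apply D7.IsPoly.mul
        | apply D7.IsPoly.neg
        | apply D7.IsPoly.pow))) (by
      constructor <;> (try dsimp only) <;> (repeat (first
        | exact D7.IsPoly.const _
        | exact D7.IsPoly.id
        | apply D7.IsPoly.add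
        | apply D7.IsPoly.sub
        | apply D7.IsPoly.mul
        | apply D7.IsPoly.neg
        | apply D7.IsPoly.pow))) rfl (by apply Par.ext <;> simp)
      (fun _ => h.dx) (fun _ => h.dy) (fun s => by
        constructor <;> dsimp only
        · exact R.r1
        · exact R.r2
        · exact R.r3
        · exact R.r4
        · rw [he] at r5 ⊢; linear_combination r5
        · exact R.r6
        · exact R.r7
        · exact R.r8
        · exact R.r9
        · exact R.r10
        · rw [hb] at r11 ⊢; linear_combination r11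
        · exact R.r12) (Set.finite_singleton (0 : k))
    refine m2C1 h1 hc hc' hb hb' he hE hf hf' hq ?_
    show y.e0 * (y.f1 + s) - y.g1 * y.c1 ≠ 0
    have e : y.e0 * (y.f1 + s) - y.g1 * y.c1 = y.e0 * s := by linear_combination ha
    rw [e]
    exact mul_ne_zero hE hs
  · exact m2C1 h hc hc' hb hb' he hE hf hf' hq ha

theorem m2C2 [Infinite k] {x y : Par k} (h : Bad0 m x y) (hc : x.c0 = 0) (hc' : y.c0 = 0)
    (hb : x.b0 = 0) (hb' : y.b0 = 0) (hE : x.e0 ≠ 0) (he : y.e0 = 0) (hf : x.f0 = 0)
    (hf' : y.f0 = 0) (hq : y.q1 = 0) (h1c : y.c1 ≠ 0) :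
    ∃ x' y' : Par k, Bad0 m x' y' ∧ x'.c0 ≠ 0 := by
  have R := h.rel
  have hg : y.g1 = 0 := eq_zero_of_mul (a := x.e0) (c := 0) (by
    have := R.r6
    rw [hc, hc', he] at this
    linear_combination this) rfl hE
  have hh : y.h0 = 0 := eq_zero_of_mul (a := x.e0) (c := 0) (by
    have := R.r2
    rw [hc, hc', he, hb, hb'] at this
    linear_combination this) rfl hE
  have r3 := R.r3
  have r5 := R.r5
  have r8 := R.r8
  rw [hc, hc', he, hb, hb', hh] at r3
  rw [hc, hc', he, hf, hf', hq] at r5
  rw [hb', hb, hq, hh] at r8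
  obtain ⟨s, hs, h1⟩ := h.move
    (fun s => { x with
      c0 := s * (x.e0 * y.c1)
      b0 := s * (x.e0 * y.b1)
      q1 := x.q1 + s * (x.e0 * y.q2) })
    (fun s => { y with
      g1 := -(s * (y.c1 * y.d1))
      h1 := y.h1 + s * (x.c2 * 0 + y.c2 * y.b1 - y.c1 * y.b2) })
    (by
      constructor <;> (try dsimp only) <;> (repeat (first
        | exact D7.IsPoly.const _
        | exact D7.IsPoly.id
        | apply D7.IsPoly.add
        | apply D7.IsPoly.sub
        | apply D7.IsPoly.mul
        | apply D7.IsPoly.neg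
        | apply D7.IsPoly.pow))) (by
      constructor <;> (try dsimp only) <;> (repeat (first
        | exact D7.IsPoly.const _
        | exact D7.IsPoly.id
        | apply D7.IsPoly.add
        | apply D7.IsPoly.sub
        | apply D7.IsPoly.mul
        | apply D7.IsPoly.neg
        | apply D7.IsPoly.pow))) (by apply Par.ext <;> simp [hc, hb]) (by apply Par.ext <;> simp [hg])
    (fun _ => h.dx) (fun _ => h.dy) (fun s => by
      constructor <;> dsimp only
      · rw [hb', hc']; ring
      · rw [hb', hc', he, hh]; ring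
      · rw [hb', hc', he, hh]; linear_combination r3
      · rw [hc', he, hq, hf, hf']; ring
      · rw [hc', he, hq, hf, hf']; linear_combination r5
      · rw [hc', he]; ring
      · rw [hb', hq]; ring
      · rw [hb', hq, hh]; linear_combination r8
      · rw [hf, hf']; ring
      · rw [hf, hf']; ring
      · rw [hf, hf', hb', hh]
        linear_combination -(s * y.b1) * r5 - s * y.c1 * r8
      · rw [hf, hf']; ring) (Set.finite_singleton (0 : k))
  exact ⟨_, _, h1, mul_ne_zero hs (mul_ne_zero hE h1c)⟩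

theorem m2C2' [Infinite k] {x y : Par k} (h : Bad0 m x y) (hc : x.c0 = 0) (hc' : y.c0 = 0)
    (hb : x.b0 = 0) (hb' : y.b0 = 0) (hE : x.e0 ≠ 0) (he : y.e0 = 0) (hf : x.f0 = 0)
    (hf' : y.f0 = 0) (hq : y.q1 = 0) :
    ∃ x' y' : Par k, Bad0 m x' y' ∧ x'.c0 ≠ 0 := by
  by_cases h1c : y.c1 = 0
  · have R := h.rel
    have r2 := R.r2
    have r3 := R.r3
    have r5 := R.r5
    rw [hb, h1c] at r2
    rw [h1c] at r3 r5
    obtain ⟨s, hs, h1⟩ := h.move (fun _ => x) (fun s => { y with
        c1 := s * x.e0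
        f1 := y.f1 + s * x.q1
        h1 := y.h1 + s * x.b1 })
      (by
      constructor <;> (try dsimp only) <;> (repeat (first
        | exact D7.IsPoly.const _
        | exact D7.IsPoly.id
        | apply D7.IsPoly.add
        | apply D7.IsPoly.sub
        | apply D7.IsPoly.mul
        | apply D7.IsPoly.neg
        | apply D7.IsPoly.pow))) (by
      constructor <;> (try dsimp only) <;> (repeat (first
        | exact D7.IsPoly.const _
        | exact D7.IsPoly.id
        | apply D7.IsPoly.add
        | apply D7.IsPoly.sub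
        | apply D7.IsPoly.mul
        | apply D7.IsPoly.neg
        | apply D7.IsPoly.pow))) rfl (by apply Par.ext <;> simp [h1c])
      (fun _ => h.dx) (fun _ => h.dy) (fun s => by
        constructor <;> dsimp only
        · exact R.r1
        · rw [hb]; linear_combination r2
        · linear_combination r3
        · exact R.r4
        · linear_combination r5
        · exact R.r6
        · exact R.r7
        · exact R.r8
        · exact R.r9
        · exact R.r10
        · have r11 := R.r11
          rw [hb] at r11 ⊢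
          linear_combination r11
        · exact R.r12) (Set.finite_singleton (0 : k))
    exact m2C2 h1 hc hc' hb hb' hE he hf hf' hq (mul_ne_zero hs hE)
  · exact m2C2 h hc hc' hb hb' hE he hf hf' hq h1c

/-- second step: `c(0)` becomes nonzero -/
theorem Bad0.ph2 [Infinite k] {x y : Par k} (h : Bad0 m x y)
    (hne : ¬(x.c0 = 0 ∧ y.c0 = 0 ∧ x.e0 = 0 ∧ y.e0 = 0)) :
    ∃ x' y' : Par k, Bad0 m x' y' ∧ ¬(x'.c0 = 0 ∧ y'.c0 = 0) := by
  by_cases hc : x.c0 = 0 ∧ y.c0 = 0
  · have he : ¬(x.e0 = 0 ∧ y.e0 = 0) := fun he => hne ⟨hc.1, hc.2, he.1, he.2⟩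
    obtain ⟨c1, c2⟩ := hc
    have lz : ∀ a b p q : k, p = 0 → q = 0 → a * p + b * q = 0 := by
      rintro a b _ _ rfl rfl
      ring
    have lt : ∀ p q : k, q ≠ 0 → 1 * p + (-(p / q)) * q = 0 := by
      intro p q hq
      field_simp
      ring
    suffices hs : ∃ x' y' : Par k, Bad0 m x' y' ∧ x'.c0 ≠ 0 by
      obtain ⟨x', y', h1, h2⟩ := hs
      exact ⟨x', y', h1, fun h3 => h2 h3.1⟩
    by_cases hb : x.b0 = 0 ∧ y.b0 = 0
    · by_cases hf : x.f0 = 0 ∧ y.f0 = 0
      · by_cases hq : x.q1 = 0 ∧ y.q1 = 0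
        · obtain ⟨a, b, c, d, hd, h1, h2, h3⟩ := h.adapt (fun p => p.e0) (fun _ _ => rfl) he
          exact m2C1' h1.swap (lz _ _ _ _ c1 c2) (lz _ _ _ _ c1 c2) (lz _ _ _ _ hb.1 hb.2)
            (lz _ _ _ _ hb.1 hb.2) h3 h2 (lz _ _ _ _ hf.1 hf.2) (lz _ _ _ _ hf.1 hf.2)
            (lz _ _ _ _ hq.1 hq.2)
        · obtain ⟨a, b, c, d, hd, h1, h2, h3⟩ := h.adapt (fun p => p.q1) (fun _ _ => rfl) hq
          by_cases hE : (x.lin c d y).e0 = 0
          · refine m2C2' h1 (lz _ _ _ _ c1 c2) (lz _ _ _ _ c1 c2) (lz _ _ _ _ hb.1 hb.2)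
              (lz _ _ _ _ hb.1 hb.2) ?_ hE (lz _ _ _ _ hf.1 hf.2) (lz _ _ _ _ hf.1 hf.2) h3
            intro h4
            have e1 : a * x.e0 + b * y.e0 = 0 := h4
            have e2 : c * x.e0 + d * y.e0 = 0 := hE
            refine he ⟨?_, ?_⟩
            · refine (mul_eq_zero.1 (show (a * d - b * c) * x.e0 = 0 by
                linear_combination d * e1 - b * e2)).resolve_left hd
            · refine (mul_eq_zero.1 (show (a * d - b * c) * y.e0 = 0 by
                linear_combination a * e2 - c * e1)).resolve_left hd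
          · have h5 := h1.lin (a := 1) (b := -((x.lin a b y).e0 / (x.lin c d y).e0)) (c := 0)
              (d := 1) (by norm_num)
            refine m2C1' h5 (lz _ _ _ _ (lz _ _ _ _ c1 c2) (lz _ _ _ _ c1 c2))
              (lz _ _ _ _ (lz _ _ _ _ c1 c2) (lz _ _ _ _ c1 c2))
              (lz _ _ _ _ (lz _ _ _ _ hb.1 hb.2) (lz _ _ _ _ hb.1 hb.2))
              (lz _ _ _ _ (lz _ _ _ _ hb.1 hb.2) (lz _ _ _ _ hb.1 hb.2)) (lt _ _ hE) ?_
              (lz _ _ _ _ (lz _ _ _ _ hf.1 hf.2) (lz _ _ _ _ hf.1 hf.2))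
              (lz _ _ _ _ (lz _ _ _ _ hf.1 hf.2) (lz _ _ _ _ hf.1 hf.2)) ?_
            · show 0 * (x.lin a b y).e0 + 1 * (x.lin c d y).e0 ≠ 0
              rwa [zero_mul, zero_add, one_mul]
            · show 0 * (x.lin a b y).q1 + 1 * (x.lin c d y).q1 = 0
              rw [zero_mul, zero_add, one_mul]
              exact h3
      · obtain ⟨a, b, c, d, hd, h1, h2, h3⟩ := h.adapt (fun p => p.e0) (fun _ _ => rfl) he
        have h4 := h1.swap
        have hx : (x.lin c d y).f0 = 0 := by
          have r4 := h4.rel.r4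
          have z1 : (x.lin c d y).c0 = 0 := lz _ _ _ _ c1 c2
          have z2 : (x.lin a b y).c0 = 0 := lz _ _ _ _ c1 c2
          have z3 : (x.lin c d y).e0 = 0 := h3
          rw [z1, z2, z3] at r4
          have h2' : (x.lin a b y).e0 ≠ 0 := h2
          exact eq_zero_of_mul (a := (x.lin a b y).e0) (c := 0) (by linear_combination -r4) rfl h2'
        refine m2A h4 (lz _ _ _ _ c1 c2) (lz _ _ _ _ c1 c2) (lz _ _ _ _ hb.1 hb.2)
            (lz _ _ _ _ hb.1 hb.2) h3 h2 hx ?_
        intro h5
        have e1 : a * x.f0 + b * y.f0 = 0 := h5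
        have e2 : c * x.f0 + d * y.f0 = 0 := hx
        refine hf ⟨?_, ?_⟩
        · refine (mul_eq_zero.1 (show (a * d - b * c) * x.f0 = 0 by
            linear_combination d * e1 - b * e2)).resolve_left hd
        · refine (mul_eq_zero.1 (show (a * d - b * c) * y.f0 = 0 by
            linear_combination a * e2 - c * e1)).resolve_left hd
    · have hf := h.bf.resolve_left hb
      obtain ⟨a, b, c, d, hd, h1, h2, h3⟩ := h.adapt (fun p => p.b0) (fun _ _ => rfl) hb
      by_cases hE : (x.lin c d y).e0 = 0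
      · refine m2B2 h1 (lz _ _ _ _ c1 c2) (lz _ _ _ _ c1 c2) h2 h3 ?_ hE
          (lz _ _ _ _ hf.1 hf.2) (lz _ _ _ _ hf.1 hf.2)
        intro h4
        have e1 : a * x.e0 + b * y.e0 = 0 := h4
        have e2 : c * x.e0 + d * y.e0 = 0 := hE
        refine he ⟨?_, ?_⟩
        · refine (mul_eq_zero.1 (show (a * d - b * c) * x.e0 = 0 by
            linear_combination d * e1 - b * e2)).resolve_left hd
        · refine (mul_eq_zero.1 (show (a * d - b * c) * y.e0 = 0 by
            linear_combination a * e2 - c * e1)).resolve_left hd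
      · have h5 := h1.lin (a := 1) (b := -((x.lin a b y).e0 / (x.lin c d y).e0)) (c := 0)
          (d := 1) (by norm_num)
        refine m2B1 h5 (lz _ _ _ _ (lz _ _ _ _ c1 c2) (lz _ _ _ _ c1 c2))
          (lz _ _ _ _ (lz _ _ _ _ c1 c2) (lz _ _ _ _ c1 c2)) ?_ ?_ (lt _ _ hE) ?_
          (lz _ _ _ _ (lz _ _ _ _ hf.1 hf.2) (lz _ _ _ _ hf.1 hf.2))
          (lz _ _ _ _ (lz _ _ _ _ hf.1 hf.2) (lz _ _ _ _ hf.1 hf.2))
        · show 1 * (x.lin a b y).b0 + (-((x.lin a b y).e0 / (x.lin c d y).e0)) *
            (x.lin c d y).b0 ≠ 0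
          have h3' : (x.lin c d y).b0 = 0 := h3
          rw [h3', mul_zero, add_zero, one_mul]
          exact h2
        · show 0 * (x.lin a b y).b0 + 1 * (x.lin c d y).b0 = 0
          rw [zero_mul, zero_add, one_mul]
          exact h3
        · show 0 * (x.lin a b y).e0 + 1 * (x.lin c d y).e0 ≠ 0
          rwa [zero_mul, zero_add, one_mul]
  · exact ⟨x, y, h, hc⟩

end L32

end Pool.Agent.Lib.D13
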