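import Pool.Agent.Lib.D13.L32G

/-!
# MP_5dcbc3_ag: Jordan blocks of sizes `m + 5`, `3`, `2`: normal forms
-/

namespace Pool.Agent.Lib.D13

open Matrix Polynomial Pool.Agent.Lib.Q5dc Pool.Agent.Lib.D7 Pool.Agent.Lib.D8

namespace L32

variable {k : Type*} [Field k] {N m : ℕ} {A : Matrix (Fin N) (Fin N) k} {w : Fin 3 → Fin N → k}

theorem d0_of (hA : PB.BlkB A w ![m + 5, 3, 2]) {B : Matrix (Fin N) (Fin N) k} {x : Par k}
    (hB : PB.Rep A w B (Mz m x)) (h : ∀ t, A ^ 3 *ᵥ t = 0 → ∃ t', B *ᵥ t = A *ᵥ t') :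
    x.d0 = 0 := by
  obtain ⟨t', ht'⟩ := h (w 1) (hA.ann 1)
  obtain ⟨z, rfl⟩ := hA.span t'
  rw [hB.apply 1] at ht'
  have e1 : A *ᵥ PB.pi A w z = PB.pi A w ((X : k[X]) • z) := by
    rw [PB.pi_smul, aeval_X]
  rw [e1, ← sub_eq_zero, ← PB.pi_sub, PB.pi_eq_zero hA] at ht'
  have h2 : X ^ 2 ∣ (C x.d0 + C x.d1 * X) - X * z 2 := ht' 2
  have h3 := coeff_zero_of_dvd (by norm_num) h2
  simpa using h3

theorem d0_to (hA : PB.BlkB A w ![m + 5, 3, 2]) {B : Matrix (Fin N) (Fin N) k} {x : Par k}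
    (hB : PB.Rep A w B (Mz m x)) (hx : x.d0 = 0) (t : Fin N → k) (ht : A ^ 3 *ᵥ t = 0) :
    ∃ t', B *ᵥ t = A *ᵥ t' := by
  obtain ⟨z, rfl⟩ := hA.span t
  have e1 : A ^ 3 *ᵥ PB.pi A w z = PB.pi A w ((X ^ 3 : k[X]) • z) := by
    rw [PB.pi_smul, map_pow, aeval_X]
  rw [e1, PB.pi_eq_zero hA] at ht
  have h0 : X ^ (m + 5) ∣ X ^ 3 * z 0 := ht 0
  rw [show m + 5 = 3 + (m + 2) by ring, pow_add,
    mul_dvd_mul_iff_left (pow_ne_zero 3 X_ne_zero)] at h0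
  obtain ⟨u, hu⟩ : X ∣ z 0 := (dvd_pow_self X (by omega)).trans h0
  refine ⟨PB.pi A w ![X ^ (m + 1) * (C x.b0 + C x.b1 * X + C x.b2 * X ^ 2) * z 1 +
      X ^ (m + 2) * (C x.h0 + C x.h1 * X) * z 2,
    (C x.c0 + C x.c1 * X + C x.c2 * X ^ 2) * u + (C x.q1 + C x.q2 * X) * z 1 +
      (C x.f0 + C x.f1 * X) * z 2,
    (C x.e0 + C x.e1 * X) * u + C x.d1 * z 1 + C x.g1 * z 2], ?_⟩
  have e2 : ∀ z : Fin 3 → k[X], A *ᵥ PB.pi A w z = PB.pi A w ((X : k[X]) • z) := by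
    intro z
    rw [PB.pi_smul, aeval_X]
  rw [hB, e2]
  congr 1
  funext i
  fin_cases i
  · show (Mz m x *ᵥ z) 0 = X * (X ^ (m + 1) * (C x.b0 + C x.b1 * X + C x.b2 * X ^ 2) * z 1 +
      X ^ (m + 2) * (C x.h0 + C x.h1 * X) * z 2)
    rw [Matrix.mulVec, dotProduct, Fin.sum_univ_three]
    simp [Mz]
    ring
  · show (Mz m x *ᵥ z) 1 = X * ((C x.c0 + C x.c1 * X + C x.c2 * X ^ 2) * u +
      (C x.q1 + C x.q2 * X) * z 1 + (C x.f0 + C x.f1 * X) * z 2)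
    rw [Matrix.mulVec, dotProduct, Fin.sum_univ_three, hu]
    simp [Mz]
    ring
  · show (Mz m x *ᵥ z) 2 = X * ((C x.e0 + C x.e1 * X) * u + C x.d1 * z 1 + C x.g1 * z 2)
    rw [Matrix.mulVec, dotProduct, Fin.sum_univ_three, hu]
    simp [Mz, hx]
    ring

/-- inverses modulo `X ^ 3` -/
theorem exists_inv (c : k[X]) (hc : c.coeff 0 ≠ 0) : ∃ ci : k[X], X ^ 3 ∣ c * ci - 1 := by
  obtain ⟨r, hr⟩ : X ∣ 1 - C (c.coeff 0)⁻¹ * c := by
    rw [X_dvd_iff]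
    simp [hc]
  refine ⟨C (c.coeff 0)⁻¹ * (1 + (1 - C (c.coeff 0)⁻¹ * c) + (1 - C (c.coeff 0)⁻¹ * c) ^ 2),
    -(r ^ 3), ?_⟩
  have e : c * (C (c.coeff 0)⁻¹ * (1 + (1 - C (c.coeff 0)⁻¹ * c) +
      (1 - C (c.coeff 0)⁻¹ * c) ^ 2)) - 1 = -((1 - C (c.coeff 0)⁻¹ * c) ^ 3) := by ring
  rw [e, hr]
  ring

theorem mem_adj_aeval {n : Type*} [Fintype n] [DecidableEq n] {T : Fin 3 → Matrix n n k}
    {A M : Matrix n n k} (hA : A ∈ adj T) (hM : M ∈ adj T) (p : k[X]) :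
    aeval A p * M ∈ adj T := by
  induction p using Polynomial.induction_on' with
  | add p q hp hq =>
    rw [map_add, add_mul]
    exact add_mem hp hq
  | monomial i a =>
    rw [aeval_monomial, Algebra.algebraMap_eq_smul_one, smul_mul_assoc, one_mul, smul_mul_assoc]
    refine SMulMemClass.smul_mem a ?_
    induction i with
    | zero => rwa [pow_zero, one_mul]
    | succ i ih => rw [pow_succ', mul_assoc]; exact mul_mem hA ih

/-- parameters of the triples with `B v = u`, `C v = (E0 + E1 A) p` -/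
@[ext]
structure Cy (k : Type*) where
  b0 : k
  b1 : k
  b2 : k
  q1 : k
  q2 : k
  d1 : k
  h0 : k
  h1 : k
  f0 : k
  f1 : k
  g1 : k
  E0 : k
  E1 : k
  H0 : k
  H1 : k
  F0 : k
  F1 : k
  G1 : k

def Cy.X (q : Cy k) : Par k :=
  ⟨1, 0, 0, 0, 0, q.b0, q.b1, q.b2, q.q1, q.q2, 0, q.d1, q.h0, q.h1, q.f0, q.f1, q.g1⟩

def Cy.Y (q : Cy k) : Par k :=
  ⟨0, 0, 0, q.E0, q.E1, 0, q.E0 * q.h0, q.E0 * q.h1 + q.E1 * q.h0, q.E0 * q.f0,
    q.E0 * q.f1 + q.E1 * q.f0, 0, q.E0 * q.g1, q.H0, q.H1, q.F0, q.F1, q.G1⟩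

/-- the remaining relations -/
structure RelC (q : Cy k) : Prop where
  s7 : q.E0 * q.f0 * q.b0 = 0
  s8 : q.E0 * ((q.q1 - q.g1) * q.h0 - q.f0 * q.b1 - q.f1 * q.b0) - q.E1 * q.f0 * q.b0 +
    q.d1 * q.H0 = 0
  s9 : q.d1 * q.F0 - q.E0 * q.g1 * q.f0 = 0
  s10 : q.F0 * q.b0 = 0
  s11 : q.E0 * q.f0 * q.h0 - q.F0 * q.b1 - q.F1 * q.b0 + q.g1 * q.H0 - q.G1 * q.h0 = 0
  s12 : q.E0 * q.f0 * q.f0 - q.F0 * (q.q1 - q.g1) - q.G1 * q.f0 = 0

theorem RelC.rel {q : Cy k} (h : RelC q) : Rel0 q.X q.Y := by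
  obtain ⟨s7, s8, s9, s10, s11, s12⟩ := h
  constructor <;> simp only [Cy.X, Cy.Y]
  · ring
  · ring
  · ring
  · ring
  · ring
  · ring
  · linear_combination -s7
  · linear_combination s8
  · linear_combination s9
  · linear_combination -s10
  · linear_combination s11
  · linear_combination s12

def BadC (m : ℕ) (q : Cy k) : Prop := Bad0 m q.X q.Y

theorem BadC.rel {q : Cy k} (h : BadC m q) : RelC q := by
  have R := Bad0.rel h
  obtain ⟨r1, r2, r3, r4, r5, r6, r7, r8, r9, r10, r11, r12⟩ := R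
  simp only [Cy.X, Cy.Y] at r1 r2 r3 r4 r5 r6 r7 r8 r9 r10 r11 r12
  constructor
  · linear_combination -r7
  · linear_combination r8
  · linear_combination r9
  · linear_combination -r10
  · linear_combination r11
  · linear_combination r12

/-- polynomial families -/
structure PolyC (c : k → Cy k) : Prop where
  b0 : IsPoly fun s => (c s).b0
  b1 : IsPoly fun s => (c s).b1
  b2 : IsPoly fun s => (c s).b2
  q1 : IsPoly fun s => (c s).q1
  q2 : IsPoly fun s => (c s).q2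
  d1 : IsPoly fun s => (c s).d1
  h0 : IsPoly fun s => (c s).h0
  h1 : IsPoly fun s => (c s).h1
  f0 : IsPoly fun s => (c s).f0
  f1 : IsPoly fun s => (c s).f1
  g1 : IsPoly fun s => (c s).g1
  E0 : IsPoly fun s => (c s).E0
  E1 : IsPoly fun s => (c s).E1
  H0 : IsPoly fun s => (c s).H0
  H1 : IsPoly fun s => (c s).H1
  F0 : IsPoly fun s => (c s).F0
  F1 : IsPoly fun s => (c s).F1
  G1 : IsPoly fun s => (c s).G1

theorem BadC.move [Infinite k] {q : Cy k} (h : BadC m q) (c : k → Cy k) (hc : PolyC c)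
    (h0 : c 0 = q) (hr : ∀ s, RelC (c s)) {F : Set k} (hF : F.Finite) :
    ∃ s ∉ F, BadC m (c s) := by
  refine Bad0.move h (fun s => (c s).X) (fun s => (c s).Y) ?_ ?_ ?_ ?_ (fun _ => rfl)
    (fun _ => rfl) (fun s => (hr s).rel) hF
  · constructor
    · exact D7.IsPoly.const _
    · exact D7.IsPoly.const _
    · exact D7.IsPoly.const _
    · exact D7.IsPoly.const _
    · exact D7.IsPoly.const _
    · exact hc.b0
    · exact hc.b1
    · exact hc.b2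
    · exact hc.q1
    · exact hc.q2
    · exact D7.IsPoly.const _
    · exact hc.d1
    · exact hc.h0
    · exact hc.h1
    · exact hc.f0
    · exact hc.f1
    · exact hc.g1
  · constructor
    · exact D7.IsPoly.const _
    · exact D7.IsPoly.const _
    · exact D7.IsPoly.const _
    · exact hc.E0
    · exact hc.E1
    · exact D7.IsPoly.const _
    · exact hc.E0.mul hc.h0
    · exact (hc.E0.mul hc.h1).add (hc.E1.mul hc.h0)
    · exact hc.E0.mul hc.f0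
    · exact (hc.E0.mul hc.f1).add (hc.E1.mul hc.f0)
    · exact D7.IsPoly.const _
    · exact hc.E0.mul hc.g1
    · exact hc.H0
    · exact hc.H1
    · exact hc.F0
    · exact hc.F1
    · exact hc.G1
  · show (c 0).X = q.X
    rw [h0]
  · show (c 0).Y = q.Y
    rw [h0]

/-- conversion of a bad pair into this form -/
theorem Bad0.badC {x y : Par k} (h : Bad0 m x y) (h0 : x.c0 = 1) (h1 : x.c1 = 0) (h2 : x.c2 = 0)
    (h3 : x.e0 = 0) (h4 : x.e1 = 0) (h0' : y.c0 = 0) (h1' : y.c1 = 0) (h2' : y.c2 = 0) :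
    ∃ q : Cy k, BadC m q ∧ q.E0 = y.e0 ∧ q.E1 = y.e1 ∧ q.X = x ∧ q.Y = y := by
  obtain ⟨r1, r2, r3, r4, r5, r6, -, -, -, -, -, -⟩ := h.rel
  rw [h0, h0'] at r1 r6
  rw [h0, h0', h1, h1', h3] at r2
  rw [h0, h0', h1, h1', h2, h2', h3, h4] at r3
  rw [h0, h0', h3] at r4
  rw [h0, h0', h1, h1', h3, h4] at r5
  rw [h3] at r6
  have eX : (⟨x.b0, x.b1, x.b2, x.q1, x.q2, x.d1, x.h0, x.h1, x.f0, x.f1, x.g1, y.e0, y.e1,
      y.h0, y.h1, y.f0, y.f1, y.g1⟩ : Cy k).X = x := by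
    apply Par.ext <;> simp [Cy.X, h0, h1, h2, h3, h4, h.dx]
  have eY : (⟨x.b0, x.b1, x.b2, x.q1, x.q2, x.d1, x.h0, x.h1, x.f0, x.f1, x.g1, y.e0, y.e1,
      y.h0, y.h1, y.f0, y.f1, y.g1⟩ : Cy k).Y = y := by
    apply Par.ext <;> simp only [Cy.Y, h0', h1', h2', h.dy]
    · linear_combination -r1
    · linear_combination -r2
    · linear_combination -r3
    · linear_combination -r4
    · linear_combination -r5
    · linear_combination -r6
  refine ⟨_, ?_, rfl, rfl, eX, eY⟩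
  unfold BadC
  rw [eX, eY]
  exact h

/-- the normal form `B v = u`, `C v = e(A) p` -/
theorem Bad0.normU {x y : Par k} (h : Bad0 m x y) (hx : x.c0 ≠ 0) :
    ∃ q : Cy k, BadC m q := by
  obtain ⟨⟨N, A, B, C', w, hA, hB, hC, hT⟩, dx, dy⟩ := h
  obtain ⟨c, hc⟩ : ∃ c : k[X], c = C x.c0 + C x.c1 * X + C x.c2 * X ^ 2 := ⟨_, rfl⟩
  obtain ⟨e, he⟩ : ∃ e : k[X], e = C x.e0 + C x.e1 * X := ⟨_, rfl⟩
  obtain ⟨c', hc'⟩ : ∃ c' : k[X], c' = C y.c0 + C y.c1 * X + C y.c2 * X ^ 2 := ⟨_, rfl⟩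
  obtain ⟨e', he'⟩ : ∃ e' : k[X], e' = C y.e0 + C y.e1 * X := ⟨_, rfl⟩
  obtain ⟨ci, hci⟩ := exists_inv c (by rw [hc]; simpa using hx)
  -- new generators
  let G : Matrix (Fin 3) (Fin 3) k[X] := !![1, 0, 0; 0, c, 0; 0, e, 1]
  let H : Matrix (Fin 3) (Fin 3) k[X] := !![1, 0, 0; 0, ci, 0; 0, -(e * ci), 1]
  have hG : PB.Adm ![m + 5, 3, 2] G := by
    rw [adm_iff]
    exact ⟨dvd_zero _, dvd_zero _, dvd_zero _⟩
  have hGH : PB.Ker ![m + 5, 3, 2] (G * H - 1) := by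
    rw [ker_iff]
    simp only [G, H, Matrix.sub_apply, Matrix.mul_apply, Fin.sum_univ_three]
    simp
    exact hci
  have hW := PB.BlkB.change hA hG hGH
  set W : Fin 3 → Fin N → k := fun j => PB.pi A w fun i => G i j with hWd
  have hW0 : W 0 = w 0 := by
    rw [hWd]
    show PB.pi A w (fun i => G i 0) = w 0
    have e1 : (fun i => G i 0) = Pi.single 0 1 := by
      funext i
      fin_cases i <;> simp [G]
    rw [e1, PB.pi_single, map_one, Matrix.one_mulVec]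
  have hpiW : ∀ z, PB.pi A W z = PB.pi A w (G *ᵥ z) := fun z => PB.pi_change G z
  -- the new matrix
  obtain ⟨r, hr⟩ : ∃ r : k[X], r = -(c' * ci) := ⟨_, rfl⟩
  have hAB : A * B = B * A := hT.cn.1 0 1
  have hAC : A * C' = C' * A := hT.cn.1 0 2
  have hBC : B * C' = C' * B := hT.cn.1 1 2
  have hC1 := hC.add (hB.polysmul r)
  set C1 := C' + aeval A r * B with hC1d
  have m0 := mem0 A B C'
  have m1 := mem1 A B C'
  have m2 := mem2 A B C'
  have hT1 : MaxR (fun i => (A ^ i).rank) ![A, B, C1] := by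
    refine D8.MaxR.change3 hT m1 (add_mem m2 (mem_adj_aeval m0 m1 r)) (mem1 A B C1) ?_
    have e1 : C' = C1 - aeval A r * B := by rw [hC1d, add_sub_cancel_right]
    rw [e1]
    exact sub_mem (mem2 A B C1) (mem_adj_aeval (mem0 A B C1) (mem1 A B C1) r)
  -- images of the first generator
  have hBv : B *ᵥ W 0 = PB.pi A W ![0, 1, 0] := by
    rw [hW0, hpiW, hB.apply 0]
    congr 1
    funext i
    fin_cases i <;> simp [G, Mz, hc, he, Matrix.mulVec, dotProduct, Fin.sum_univ_three]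
  have hCv : C1 *ᵥ W 0 = PB.pi A W ![0, 0, e' + r * e] := by
    rw [hW0, hpiW, hC1.apply 0, ← sub_eq_zero, ← PB.pi_sub, PB.pi_eq_zero hA]
    intro i
    fin_cases i
    · refine ⟨0, ?_⟩
      simp [G, Mz]
    · show X ^ 3 ∣ (Mz m y + r • Mz m x) 1 0 - (G *ᵥ ![0, 0, e' + r * e]) 1
      have e1 : (Mz m y + r • Mz m x) 1 0 - (G *ᵥ ![0, 0, e' + r * e]) 1 =
          -(c' * (c * ci - 1)) := by
        simp [G, Mz, Matrix.mulVec, dotProduct, Fin.sum_univ_three, hc', hc, hr]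
        ring
      rw [e1, dvd_neg]
      exact hci.mul_left _
    · refine ⟨0, ?_⟩
      simp [G, Mz, he', he]
  obtain ⟨x', hx', a0, a1, a2, a3, a4⟩ := exists_par0 hW hAB (nilp_mz hA hB) hBv
  obtain ⟨y', hy', b0, b1, b2, b3, b4⟩ := exists_par0 hW (hT1.cn.1 0 2) (hT1.cn.2 2) hCv
  have dx' : x'.d0 = 0 := d0_of hW hx' (d0_to hA hB dx)
  have dy' : y'.d0 = 0 := by
    refine d0_of hW hy' fun t ht => ?_
    obtain ⟨t1, ht1⟩ := d0_to hA hB dx t ht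
    obtain ⟨t2, ht2⟩ := d0_to hA hC dy t ht
    refine ⟨t2 + aeval A r *ᵥ t1, ?_⟩
    show C1 *ᵥ t = _
    rw [hC1d, Matrix.add_mulVec, ht2, ← Matrix.mulVec_mulVec, ht1, Matrix.mulVec_add,
      Matrix.mulVec_mulVec, Matrix.mulVec_mulVec, aeval_comm]
  have hbad : Bad0 m x' y' := ⟨⟨N, A, B, C1, W, hW, hx', hy', hT1⟩, dx', dy'⟩
  obtain ⟨q, hq, -⟩ := hbad.badC (by rw [a0]; simp) (by rw [a1]; simp [coeff_one])
    (by rw [a2]; simp [coeff_one]) (by rw [a3]; simp) (by rw [a4]; simp) (by rw [b0]; simp)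
    (by rw [b1]; simp) (by rw [b2]; simp)
  exact ⟨q, hq⟩

/-- the normal form `B v = u`, `C v = p` -/
theorem BadC.normC {q : Cy k} (h : BadC m q) (hE : q.E0 ≠ 0) :
    ∃ q' : Cy k, BadC m q' ∧ q'.E0 = 1 ∧ q'.E1 = 0 := by
  obtain ⟨⟨N, A, B, C', w, hA, hB, hC, hT⟩, dx, dy⟩ := h
  obtain ⟨e, he⟩ : ∃ e : k[X], e = C q.E0 + C q.E1 * X := ⟨_, rfl⟩
  obtain ⟨ei, hei⟩ := exists_inv e (by rw [he]; simpa using hE)
  -- new generators
  let G : Matrix (Fin 3) (Fin 3) k[X] := !![1, 0, 0; 0, 1, 0; 0, 0, e]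
  let H : Matrix (Fin 3) (Fin 3) k[X] := !![1, 0, 0; 0, 1, 0; 0, 0, ei]
  have hG : PB.Adm ![m + 5, 3, 2] G := by
    rw [adm_iff]
    exact ⟨dvd_zero _, dvd_zero _, dvd_zero _⟩
  have hGH : PB.Ker ![m + 5, 3, 2] (G * H - 1) := by
    rw [ker_iff]
    simp only [G, H, Matrix.sub_apply, Matrix.mul_apply, Fin.sum_univ_three]
    simp
    exact (pow_dvd_pow X (by norm_num)).trans hei
  have hW := PB.BlkB.change hA hG hGH
  set W : Fin 3 → Fin N → k := fun j => PB.pi A w fun i => G i j with hWd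
  have hW0 : W 0 = w 0 := by
    rw [hWd]
    show PB.pi A w (fun i => G i 0) = w 0
    have e1 : (fun i => G i 0) = Pi.single 0 1 := by
      funext i
      fin_cases i <;> simp [G]
    rw [e1, PB.pi_single, map_one, Matrix.one_mulVec]
  have hpiW : ∀ z, PB.pi A W z = PB.pi A w (G *ᵥ z) := fun z => PB.pi_change G z
  have hBv : B *ᵥ W 0 = PB.pi A W ![0, 1, 0] := by
    rw [hW0, hpiW, hB.apply 0]
    congr 1
    funext i
    fin_cases i <;> simp [G, Mz, Cy.X]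
  have hCv : C' *ᵥ W 0 = PB.pi A W ![0, 0, 1] := by
    rw [hW0, hpiW, hC.apply 0]
    congr 1
    funext i
    fin_cases i <;> simp [G, Mz, Cy.Y, he]
  obtain ⟨x', hx', a0, a1, a2, a3, a4⟩ := exists_par0 hW (hT.cn.1 0 1) (nilp_mz hA hB) hBv
  obtain ⟨y', hy', b0, b1, b2, b3, b4⟩ := exists_par0 hW (hT.cn.1 0 2) (nilp_mz hA hC) hCv
  have dx' : x'.d0 = 0 := d0_of hW hx' (d0_to hA hB dx)
  have dy' : y'.d0 = 0 := d0_of hW hy' (d0_to hA hC dy)
  have hbad : Bad0 m x' y' := ⟨⟨N, A, B, C', W, hW, hx', hy', hT⟩, dx', dy'⟩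
  obtain ⟨q', hq, h1, h2, -⟩ := hbad.badC (by rw [a0]; simp) (by rw [a1]; simp [coeff_one])
    (by rw [a2]; simp [coeff_one]) (by rw [a3]; simp) (by rw [a4]; simp) (by rw [b0]; simp)
    (by rw [b1]; simp) (by rw [b2]; simp)
  exact ⟨q', hq, by rw [h1, b3]; simp, by rw [h2, b4]; simp [coeff_one]⟩

end L32

end Pool.Agent.Lib.D13
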