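import Pool.Agent.Lib.D13.L32H

/-!
# MP_5dcbc3_ag: Jordan blocks of sizes `m + 5`, `3`, `2`: third and fourth step of the reduction
-/

namespace Pool.Agent.Lib.D13

open Matrix Polynomial Pool.Agent.Lib.Q5dc Pool.Agent.Lib.D7 Pool.Agent.Lib.D8

namespace L32

variable {k : Type*} [Field k] {m : ℕ}

theorem BadC.fb [Infinite k] {q : Cy k} (h : BadC m q) : q.f0 * q.b0 = 0 := by
  rcases Bad0.bf h with h1 | h1
  · have : q.b0 = 0 := h1.1
    rw [this, mul_zero]
  · have : q.f0 = 0 := h1.1
    rw [this, zero_mul]

theorem BadC.m31 [Infinite k] {q : Cy k} (h : BadC m q) (hE : q.E0 = 0) (hd : q.d1 ≠ 0) :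
    ∃ q' : Cy k, BadC m q' ∧ q'.E0 ≠ 0 := by
  have R := h.rel
  have fb := h.fb
  have s8 := R.s8
  have s9 := R.s9
  have s11 := R.s11
  have s12 := R.s12
  rw [hE] at s8 s9 s11 s12
  obtain ⟨s, hs, h1⟩ := h.move
    (fun s => { q with
      E0 := s * q.d1
      H0 := q.H0 - s * ((q.q1 - q.g1) * q.h0 - q.f0 * q.b1 - q.f1 * q.b0)
      F0 := q.F0 + s * (q.g1 * q.f0)
      F1 := q.F1 + s * (q.g1 * q.f1)
      G1 := q.G1 + s * (q.d1 * q.f0 - q.g1 * (q.q1 - q.g1)) })
    (by
      constructor <;> (try dsimp only) <;> (repeat (first
        | exact D7.IsPoly.const _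
        | exact D7.IsPoly.id
        | apply D7.IsPoly.add
        | apply D7.IsPoly.sub
        | apply D7.IsPoly.mul
        | apply D7.IsPoly.neg
        | apply D7.IsPoly.pow))) (by apply Cy.ext <;> simp [hE]) (fun s => by
      constructor <;> dsimp only
      · linear_combination s * q.d1 * fb
      · linear_combination s8
      · linear_combination s9
      · linear_combination R.s10 + s * q.g1 * fb
      · linear_combination s11
      · linear_combination s12) (Set.finite_singleton (0 : k))
  exact ⟨_, h1, mul_ne_zero hs hd⟩

/-- third step: a cyclic vector -/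
theorem BadC.ph3 [Infinite k] {q : Cy k} (h : BadC m q) :
    ∃ q' : Cy k, BadC m q' ∧ q'.E0 ≠ 0 := by
  by_cases hE : q.E0 = 0
  · by_cases hd : q.d1 = 0
    · have R := h.rel
      have fb := h.fb
      have s8 := R.s8
      have s9 := R.s9
      have s11 := R.s11
      have s12 := R.s12
      rw [hE, hd] at s8 s9
      rw [hE] at s11 s12
      by_cases hF : q.F0 = 0
      · by_cases hH : q.H0 = 0
        · obtain ⟨s, hs, h1⟩ := h.move (fun s => { q with d1 := s })
            (by
      constructor <;> (try dsimp only) <;> (repeat (first
        | exact D7.IsPoly.const _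
        | exact D7.IsPoly.id
        | apply D7.IsPoly.add
        | apply D7.IsPoly.sub
        | apply D7.IsPoly.mul
        | apply D7.IsPoly.neg
        | apply D7.IsPoly.pow))) (by apply Cy.ext <;> simp [hd]) (fun s => by
              constructor <;> dsimp only
              · rw [hE]; ring
              · rw [hE, hH]; linear_combination -q.E1 * fb
              · rw [hE, hF]; ring
              · rw [hF]; ring
              · exact R.s11
              · exact R.s12) (Set.finite_singleton (0 : k))
          exact BadC.m31 h1 hE hs
        · have hgf : q.g1 * q.f0 = 0 := by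
            by_cases hf : q.f0 = 0
            · rw [hf, mul_zero]
            · have hb : q.b0 = 0 := (mul_eq_zero.1 fb).resolve_left hf
              have hG : q.G1 = 0 := by
                rw [hF] at s12
                exact eq_zero_of_mul (a := q.f0) (c := 0) (by linear_combination -s12) rfl hf
              rw [hF, hb, hG] at s11
              have hg : q.g1 = 0 := eq_zero_of_mul (a := q.H0) (c := 0)
                (by linear_combination s11) rfl hH
              rw [hg, zero_mul]
          obtain ⟨s, hs, h1⟩ := h.move
            (fun s => { q with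
              E0 := s * q.H0
              d1 := -(s * ((q.q1 - q.g1) * q.h0 - q.f0 * q.b1 - q.f1 * q.b0))
              G1 := q.G1 + s * (q.H0 * q.f0) })
            (by
      constructor <;> (try dsimp only) <;> (repeat (first
        | exact D7.IsPoly.const _
        | exact D7.IsPoly.id
        | apply D7.IsPoly.add
        | apply D7.IsPoly.sub
        | apply D7.IsPoly.mul
        | apply D7.IsPoly.neg
        | apply D7.IsPoly.pow))) (by apply Cy.ext <;> simp [hE, hd]) (fun s => by
              constructor <;> dsimp only
              · linear_combination s * q.H0 * fb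
              · linear_combination -q.E1 * fb
              · rw [hF]; linear_combination -s * q.H0 * hgf
              · rw [hF]; ring
              · linear_combination s11
              · linear_combination s12) (Set.finite_singleton (0 : k))
          exact ⟨_, h1, mul_ne_zero hs hH⟩
      · have hb : q.b0 = 0 := (mul_eq_zero.1 R.s10).resolve_left hF
        rw [hb] at s11
        obtain ⟨s, hs, h1⟩ := h.move
          (fun s => { q with
            E0 := s * q.F0
            d1 := s * (q.g1 * q.f0)
            G1 := q.G1 + s * (q.F0 * q.f0) })
          (by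
      constructor <;> (try dsimp only) <;> (repeat (first
        | exact D7.IsPoly.const _
        | exact D7.IsPoly.id
        | apply D7.IsPoly.add
        | apply D7.IsPoly.sub
        | apply D7.IsPoly.mul
        | apply D7.IsPoly.neg
        | apply D7.IsPoly.pow))) (by apply Cy.ext <;> simp [hE, hd]) (fun s => by
            constructor <;> dsimp only
            · rw [hb]; ring
            · rw [hb]; linear_combination s * q.f0 * s11 - s * q.h0 * s12
            · ring
            · rw [hb]; ring
            · rw [hb]; linear_combination s11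
            · linear_combination s12) (Set.finite_singleton (0 : k))
        exact ⟨_, h1, mul_ne_zero hs hF⟩
    · exact h.m31 hE hd
  · exact ⟨q, h, hE⟩

/-- the last two relations are those of one of the two components -/
theorem BadC.ph4 [Infinite k] {q : Cy k} (h : BadC m q) (hE : q.E0 = 1) (hE1 : q.E1 = 0) :
    ∃ q' : Cy k, BadC m q' ∧ q'.E0 = 1 ∧ q'.E1 = 0 ∧ (q'.b0 ≠ 0 ∨ (q'.b0 = 0 ∧ q'.F0 ≠ 0)) := by
  by_cases hb : q.b0 = 0
  · by_cases hF : q.F0 = 0
    · have R := h.rel
      have s8 := R.s8
      have s9 := R.s9
      have s11 := R.s11
      have s12 := R.s12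
      rw [hE, hE1, hb] at s8
      rw [hE, hF] at s9
      rw [hE, hF, hb] at s11
      rw [hE, hF] at s12
      by_cases hf : q.f0 = 0
      · rw [hf] at s8 s11
        by_cases hh : q.h0 = 0
        · by_cases hH : q.H0 = 0
          · have key : ∀ q : Cy k, BadC m q → q.E0 = 1 → q.E1 = 0 → q.F0 = 0 → q.f0 = 0 →
                q.h0 = 0 → q.H0 = 0 → q.b0 = 0 → (q.q1 - q.g1) * q.g1 + q.d1 * q.G1 ≠ 0 →
                ∃ q' : Cy k, BadC m q' ∧ q'.E0 = 1 ∧ q'.E1 = 0 ∧
                  (q'.b0 ≠ 0 ∨ (q'.b0 = 0 ∧ q'.F0 ≠ 0)) := by
              intro q h hE hE1 hF hf hh hH hb hD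
              obtain ⟨s, hs, h1⟩ := h.move
                (fun s => { q with
                  b0 := s * ((q.q1 - q.g1) * q.g1 + q.d1 * q.G1)
                  h0 := s * (q.g1 * q.f1 - q.d1 * q.F1)
                  H0 := s * (q.G1 * q.f1 + (q.q1 - q.g1) * q.F1) })
                (by
      constructor <;> (try dsimp only) <;> (repeat (first
        | exact D7.IsPoly.const _
        | exact D7.IsPoly.id
        | apply D7.IsPoly.add
        | apply D7.IsPoly.sub
        | apply D7.IsPoly.mul
        | apply D7.IsPoly.neg
        | apply D7.IsPoly.pow))) (by apply Cy.ext <;> simp [hb, hh, hH]) (fun s => by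
                  constructor <;> dsimp only
                  · rw [hf]; ring
                  · rw [hE, hE1, hf]; ring
                  · rw [hE, hF, hf]; ring
                  · rw [hF]; ring
                  · rw [hE, hF, hf]; ring
                  · rw [hE, hF, hf]; ring) (Set.finite_singleton (0 : k))
              exact ⟨_, h1, hE, hE1, Or.inl (mul_ne_zero hs hD)⟩
            by_cases hD : (q.q1 - q.g1) * q.g1 + q.d1 * q.G1 = 0
            · obtain ⟨s, hs, h1⟩ := h.move
                (fun s => { q with d1 := q.d1 + s, G1 := q.G1 + s })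
                (by
      constructor <;> (try dsimp only) <;> (repeat (first
        | exact D7.IsPoly.const _
        | exact D7.IsPoly.id
        | apply D7.IsPoly.add
        | apply D7.IsPoly.sub
        | apply D7.IsPoly.mul
        | apply D7.IsPoly.neg
        | apply D7.IsPoly.pow))) (by apply Cy.ext <;> simp) (fun s => by
                  constructor <;> dsimp only
                  · rw [hf]; ring
                  · rw [hE, hE1, hf, hh, hH, hb]; ring
                  · rw [hE, hF, hf]; ring
                  · rw [hF]; ring
                  · rw [hE, hF, hf, hh, hH, hb]; ring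
                  · rw [hE, hF, hf]; ring)
                ((Set.finite_singleton (0 : k)).union (Set.finite_singleton (-q.d1 - q.G1)))
              rw [Set.mem_union, not_or, Set.mem_singleton_iff, Set.mem_singleton_iff] at hs
              refine key _ h1 hE hE1 hF hf hh hH hb ?_
              show (q.q1 - q.g1) * q.g1 + (q.d1 + s) * (q.G1 + s) ≠ 0
              have e : (q.q1 - q.g1) * q.g1 + (q.d1 + s) * (q.G1 + s) =
                  s * (s - (-q.d1 - q.G1)) := by linear_combination hD
              rw [e]
              exact mul_ne_zero hs.1 (sub_ne_zero.2 hs.2)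
            · exact key q h hE hE1 hF hf hh hH hb hD
          · rw [hh] at s8 s11
            obtain ⟨s, hs, h1⟩ := h.move
              (fun s => { q with
                b0 := s * q.H0
                d1 := q.d1 + s * q.f1
                g1 := q.g1 + s * q.F1 })
              (by
      constructor <;> (try dsimp only) <;> (repeat (first
        | exact D7.IsPoly.const _
        | exact D7.IsPoly.id
        | apply D7.IsPoly.add
        | apply D7.IsPoly.sub
        | apply D7.IsPoly.mul
        | apply D7.IsPoly.neg
        | apply D7.IsPoly.pow))) (by apply Cy.ext <;> simp [hb]) (fun s => by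
                constructor <;> dsimp only
                · rw [hf]; ring
                · rw [hE, hE1, hf, hh]; linear_combination s8
                · rw [hE, hF, hf]; ring
                · rw [hF]; ring
                · rw [hE, hF, hf, hh]; linear_combination s11
                · rw [hE, hF, hf]; ring) (Set.finite_singleton (0 : k))
            exact ⟨_, h1, hE, hE1, Or.inl (mul_ne_zero hs hH)⟩
        · obtain ⟨s, hs, h1⟩ := h.move
            (fun s => { q with
              b0 := s * q.h0
              q1 := q.q1 + s * q.f1
              G1 := q.G1 - s * q.F1 })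
            (by
      constructor <;> (try dsimp only) <;> (repeat (first
        | exact D7.IsPoly.const _
        | exact D7.IsPoly.id
        | apply D7.IsPoly.add
        | apply D7.IsPoly.sub
        | apply D7.IsPoly.mul
        | apply D7.IsPoly.neg
        | apply D7.IsPoly.pow))) (by apply Cy.ext <;> simp [hb]) (fun s => by
              constructor <;> dsimp only
              · rw [hf]; ring
              · rw [hE, hE1, hf]; linear_combination s8
              · rw [hE, hF, hf]; ring
              · rw [hF]; ring
              · rw [hE, hF, hf]; linear_combination s11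
              · rw [hE, hF, hf]; ring) (Set.finite_singleton (0 : k))
          exact ⟨_, h1, hE, hE1, Or.inl (mul_ne_zero hs hh)⟩
      · have hg : q.g1 = 0 := eq_zero_of_mul (a := q.f0) (c := 0) (by linear_combination -s9) rfl hf
        have hG : q.G1 = q.f0 := by
          have : q.f0 - q.G1 = 0 := eq_zero_of_mul (a := q.f0) (c := 0)
            (by linear_combination s12) rfl hf
          linear_combination -this
        rw [hg] at s8
        obtain ⟨s, hs, h1⟩ := h.move
          (fun s => { q with
            F0 := s * (q.f0 * q.f0)
            g1 := s * (q.f0 * q.d1)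
            G1 := q.f0 - s * (q.f0 * (q.q1 - s * (q.f0 * q.d1)))
            b1 := q.b1 - s * (q.d1 * q.h0) })
          (by
      constructor <;> (try dsimp only) <;> (repeat (first
        | exact D7.IsPoly.const _
        | exact D7.IsPoly.id
        | apply D7.IsPoly.add
        | apply D7.IsPoly.sub
        | apply D7.IsPoly.mul
        | apply D7.IsPoly.neg
        | apply D7.IsPoly.pow))) (by apply Cy.ext <;> simp [hF, hg, hG]) (fun s => by
            constructor <;> dsimp only
            · rw [hb]; ring
            · rw [hE, hE1, hb]; linear_combination s8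
            · rw [hE]; ring
            · rw [hb]; ring
            · rw [hE, hb]; linear_combination s * q.f0 * s8
            · rw [hE]; ring) (Set.finite_singleton (0 : k))
        exact ⟨_, h1, hE, hE1, Or.inr ⟨hb, mul_ne_zero hs (mul_ne_zero hf hf)⟩⟩
    · exact ⟨q, h, hE, hE1, Or.inr ⟨hb, hF⟩⟩
  · exact ⟨q, h, hE, hE1, Or.inl hb⟩

/-- all steps: a maximal bad triple gives one in one of the two cyclic components -/
theorem Bad.reduce [Infinite k] {x y : Par k} (h : Bad m x y) :
    ∃ q : Cy k, BadC m q ∧ q.E0 = 1 ∧ q.E1 = 0 ∧ (q.b0 ≠ 0 ∨ (q.b0 = 0 ∧ q.F0 ≠ 0)) := by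
  have key : ∀ x y : Par k, Bad0 m x y →
      ∃ q : Cy k, BadC m q ∧ q.E0 = 1 ∧ q.E1 = 0 ∧ (q.b0 ≠ 0 ∨ (q.b0 = 0 ∧ q.F0 ≠ 0)) := by
    intro x y h
    obtain ⟨x1, y1, h1, n1⟩ := h.ph1
    obtain ⟨x2, y2, h2, n2⟩ := h1.ph2 n1
    obtain ⟨q3, h3⟩ : ∃ q : Cy k, BadC m q := by
      by_cases hx : x2.c0 = 0
      · exact h2.swap.normU fun hy => n2 ⟨hx, hy⟩
      · exact h2.normU hx
    obtain ⟨q4, h4, n4⟩ := h3.ph3
    obtain ⟨q5, h5, e5, e5'⟩ := h4.normC n4
    exact h5.ph4 e5 e5'
  rcases h.fd2 with h1 | h1
  · exact key _ _ ⟨h.dual, h1.1, h1.2⟩
  · exact key _ _ ⟨h, h1.1, h1.2⟩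

end L32

end Pool.Agent.Lib.D13
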