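import Pool.Agent.Lib.D13.L32K1C
import Pool.Agent.Lib.D8.Axes

/-!
# MP_5dcbc3_ag: Jordan blocks of sizes `5`, `3`, `2`: the Gorenstein algebras are limits of
curvilinear ones
-/

namespace Pool.Agent.Lib.D13

open Matrix Polynomial Pool.Agent.Lib.Q5dc Pool.Agent.Lib.D7

namespace L32

namespace Gor0

variable {k R : Type*} [Field k] [CommRing R] [Algebra k R]
  {r t q2 d1 b1 b2 f1 g1 h0 h1 f1' g1' h0' h1' : k} {x y z X Y : R}
  (H : Gor0 (algebraMap k R) r t q2 d1 b1 b2 f1 g1 h0 h1 f1' g1' h0' h1' x y z)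
  (hX : X = algebraMap k R g1' * y + algebraMap k R (t - g1) * z - algebraMap k R (t * g1') * x)
  (hY : Y = algebraMap k R g1' * y + algebraMap k R (r - g1) * z - algebraMap k R (r * g1') * x)
include H

theorem symm : Gor0 (algebraMap k R) t r q2 d1 b1 b2 f1 g1 h0 h1 f1' g1' h0' h1' x y z where
  hy := by
    linear_combination H.hy
  hyz := H.hyz
  hz := H.hz
  h1 := H.h1
  h2 := H.h2
  h3 := H.h3

theorem xpy (j : ℕ) : x ^ (j + 3) * y = 0 := by
  rw [pow_add, mul_assoc, H.h2, mul_zero]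

theorem xpz (j : ℕ) : x ^ (j + 2) * z = 0 := by
  rw [pow_add, mul_assoc, H.h1, mul_zero]

theorem xp (j : ℕ) : x ^ (5 + j) = 0 := by
  rw [pow_add, H.h3, zero_mul]

section mem

variable {S : Submodule k R}

omit H in
theorem hs (S : Submodule k R) (c : k) {s : R} (h : s ∈ S) : algebraMap k R c * s ∈ S := by
  rw [← Algebra.smul_def]
  exact S.smul_mem _ h

omit H in
theorem hinv {c : k} {s : R} (hc : c ≠ 0) (h : algebraMap k R c * s ∈ S) : s ∈ S := by
  rw [← Algebra.smul_def] at h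
  exact (Submodule.smul_mem_iff S hc).1 h

include hX hY in
theorem mem_cubes (hrt : r ≠ t) (hg1 : g1' ≠ 0) (hσ : x ^ 4 ∈ S) (h1 : X ^ 3 ∈ S)
    (h2 : Y ^ 3 ∈ S) : x ^ 3 ∈ S ∧ x ^ 2 * y ∈ S := by
  have e1 := H.x3 hX
  have e2 := H.symm.x3 hY
  have hd : r - t ≠ 0 := sub_ne_zero.2 hrt
  have a1 : algebraMap k R ((r - t) ^ 3 * g1' ^ 3) * x ^ 3 ∈ S := by
    obtain ⟨c1, h3⟩ : ∃ c : k, algebraMap k R (r ^ 2 * g1' ^ 3 - 2 * r * t * g1' ^ 3 +
        t ^ 2 * g1' ^ 3) * (x ^ 2 * y) + algebraMap k R (-r ^ 2 * t * g1' ^ 3 +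
        2 * r * t ^ 2 * g1' ^ 3 - t ^ 3 * g1' ^ 3) * (x ^ 3) = X ^ 3 - algebraMap k R c * x ^ 4 :=
      ⟨_, eq_sub_iff_add_eq.2 e1.symm⟩
    obtain ⟨c2, h4⟩ : ∃ c : k, algebraMap k R (t ^ 2 * g1' ^ 3 - 2 * t * r * g1' ^ 3 +
        r ^ 2 * g1' ^ 3) * (x ^ 2 * y) + algebraMap k R (-t ^ 2 * r * g1' ^ 3 +
        2 * t * r ^ 2 * g1' ^ 3 - r ^ 3 * g1' ^ 3) * (x ^ 3) = Y ^ 3 - algebraMap k R c * x ^ 4 :=
      ⟨_, eq_sub_iff_add_eq.2 e2.symm⟩
    have h5 : algebraMap k R ((r - t) ^ 3 * g1' ^ 3) * x ^ 3 =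
        (X ^ 3 - algebraMap k R c1 * x ^ 4) - (Y ^ 3 - algebraMap k R c2 * x ^ 4) := by
      rw [← h3, ← h4]
      simp only [map_add, map_sub, map_mul, map_pow, map_neg, map_ofNat]
      ring
    rw [h5]
    exact sub_mem (sub_mem h1 (hs S _ hσ)) (sub_mem h2 (hs S _ hσ))
  have a2 : x ^ 3 ∈ S := hinv (mul_ne_zero (pow_ne_zero 3 hd) (pow_ne_zero 3 hg1)) a1
  refine ⟨a2, ?_⟩
  refine hinv (c := (r - t) ^ 2 * g1' ^ 3) (mul_ne_zero (pow_ne_zero 2 hd) (pow_ne_zero 3 hg1)) ?_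
  obtain ⟨c1, h3⟩ : ∃ c : k, algebraMap k R (r ^ 2 * g1' ^ 3 - 2 * r * t * g1' ^ 3 +
      t ^ 2 * g1' ^ 3) * (x ^ 2 * y) + algebraMap k R (-r ^ 2 * t * g1' ^ 3 +
      2 * r * t ^ 2 * g1' ^ 3 - t ^ 3 * g1' ^ 3) * (x ^ 3) = X ^ 3 - algebraMap k R c * x ^ 4 :=
    ⟨_, eq_sub_iff_add_eq.2 e1.symm⟩
  have h5 : algebraMap k R ((r - t) ^ 2 * g1' ^ 3) * (x ^ 2 * y) =
      (X ^ 3 - algebraMap k R c1 * x ^ 4) + algebraMap k R (t * (r - t) ^ 2 * g1' ^ 3) * x ^ 3 := by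
    rw [← h3]
    simp only [map_add, map_sub, map_mul, map_pow, map_neg, map_ofNat]
    ring
  rw [h5]
  exact add_mem (sub_mem h1 (hs S _ hσ)) (hs S _ a2)

theorem mem_xz (hg1 : g1' ≠ 0) (hσ : x ^ 4 ∈ S) (h3 : x ^ 3 ∈ S) (h4 : x ^ 2 * y ∈ S)
    (h : z ^ 2 ∈ S) : x * z ∈ S := by
  refine hinv hg1 ?_
  have e : algebraMap k R g1' * (x * z) = z ^ 2 - (algebraMap k R f1' * (x ^ 2 * y) +
      algebraMap k R h0' * x ^ 3 + algebraMap k R h1' * x ^ 4) := by
    rw [H.zz]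
    ring
  rw [e]
  exact sub_mem h (add_mem (add_mem (hs S _ h4) (hs S _ h3)) (hs S _ hσ))

include hX in
/-- the leading part of the square -/
theorem sq_lead (hσ : x ^ 4 ∈ S) (h3 : x ^ 3 ∈ S) (h4 : x ^ 2 * y ∈ S) (h5 : x * z ∈ S)
    (h : X ^ 2 ∈ S) : algebraMap k R ((r - t) * g1' ^ 2) * (x * y) -
      algebraMap k R (t * (r - t) * g1' ^ 2) * x ^ 2 ∈ S := by
  obtain ⟨c1, c2, c3, c4, e⟩ : ∃ c1 c2 c3 c4 : k, X ^ 2 =
      algebraMap k R (r * g1' ^ 2 - t * g1' ^ 2) * (x * y) + algebraMap k R c1 * (x ^ 2 * y) +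
      algebraMap k R (-r * t * g1' ^ 2 + t ^ 2 * g1' ^ 2) * x ^ 2 + algebraMap k R c2 * x ^ 3 +
      algebraMap k R c3 * x ^ 4 + algebraMap k R c4 * (x * z) := ⟨_, _, _, _, H.x2 hX⟩
  have h6 : algebraMap k R ((r - t) * g1' ^ 2) * (x * y) -
      algebraMap k R (t * (r - t) * g1' ^ 2) * x ^ 2 = X ^ 2 - (algebraMap k R c1 * (x ^ 2 * y) +
        algebraMap k R c2 * x ^ 3 + algebraMap k R c3 * x ^ 4 + algebraMap k R c4 * (x * z)) := by
    rw [e]
    simp only [map_add, map_sub, map_mul, map_pow, map_neg]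
    ring
  rw [h6]
  exact sub_mem h (add_mem (add_mem (add_mem (hs S _ h4) (hs S _ h3)) (hs S _ hσ)) (hs S _ h5))

include hX hY in
/-- the monomials are in the span of the powers -/
theorem mem_all (hrt : r ≠ t) (hg1 : g1' ≠ 0) (hone : (1 : R) ∈ S)
    (hσ : x ^ 4 ∈ S) (hXS : ∀ j, 1 ≤ j → j < 4 → X ^ j ∈ S)
    (hYS : ∀ j, 1 ≤ j → j < 4 → Y ^ j ∈ S) (hZS : ∀ j, 1 ≤ j → j < 3 → z ^ j ∈ S) :
    (∀ j, x ^ j ∈ S) ∧ (∀ j, x ^ j * y ∈ S) ∧ (∀ j, x ^ j * z ∈ S) := by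
  have hd : r - t ≠ 0 := sub_ne_zero.2 hrt
  obtain ⟨a3, a4⟩ := H.mem_cubes hX hY hrt hg1 hσ (hXS 3 (by norm_num) (by norm_num))
    (hYS 3 (by norm_num) (by norm_num))
  have a5 : x * z ∈ S := H.mem_xz hg1 hσ a3 a4 (hZS 2 (by norm_num) (by norm_num))
  have b1 := H.sq_lead hX hσ a3 a4 a5 (hXS 2 (by norm_num) (by norm_num))
  have b2 := H.symm.sq_lead hY hσ a3 a4 a5 (hYS 2 (by norm_num) (by norm_num))
  have a2 : x ^ 2 ∈ S := by
    refine hinv (c := (r - t) ^ 2 * g1' ^ 2) (mul_ne_zero (pow_ne_zero 2 hd) (pow_ne_zero 2 hg1)) ?_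
    have e : algebraMap k R ((r - t) ^ 2 * g1' ^ 2) * x ^ 2 =
        (algebraMap k R ((r - t) * g1' ^ 2) * (x * y) -
          algebraMap k R (t * (r - t) * g1' ^ 2) * x ^ 2) +
        (algebraMap k R ((t - r) * g1' ^ 2) * (x * y) -
          algebraMap k R (r * (t - r) * g1' ^ 2) * x ^ 2) := by
      simp only [map_sub, map_mul, map_pow]
      ring
    rw [e]
    exact add_mem b1 b2
  have a6 : x * y ∈ S := by
    refine hinv (c := (r - t) * g1' ^ 2) (mul_ne_zero hd (pow_ne_zero 2 hg1)) ?_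
    rw [← sub_add_cancel (algebraMap k R ((r - t) * g1' ^ 2) * (x * y))
      (algebraMap k R (t * (r - t) * g1' ^ 2) * x ^ 2)]
    exact add_mem b1 (hs S _ a2)
  have az : z ∈ S := by
    have := hZS 1 (by norm_num) (by norm_num)
    rwa [pow_one] at this
  have aX := hXS 1 (by norm_num) (by norm_num)
  have aY := hYS 1 (by norm_num) (by norm_num)
  rw [pow_one] at aX aY
  have a1 : x ∈ S := by
    refine hinv (c := (r - t) * g1') (mul_ne_zero hd hg1) ?_
    have e : algebraMap k R ((r - t) * g1') * x = X - Y + algebraMap k R (r - t) * z := by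
      rw [hX, hY]
      simp only [map_sub, map_mul]
      ring
    rw [e]
    exact add_mem (sub_mem aX aY) (hs S _ az)
  have ay : y ∈ S := by
    refine hinv hg1 ?_
    have e : algebraMap k R g1' * y = X - algebraMap k R (t - g1) * z +
        algebraMap k R (t * g1') * x := by
      rw [hX]
      ring
    rw [e]
    exact add_mem (sub_mem aX (hs S _ az)) (hs S _ a1)
  refine ⟨fun j => ?_, fun j => ?_, fun j => ?_⟩
  · match j with
    | 0 => rw [pow_zero]; exact hone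
    | 1 => rw [pow_one]; exact a1
    | 2 => exact a2
    | 3 => exact a3
    | 4 => exact hσ
    | j + 5 =>
      have := H.xp j
      rw [add_comm 5 j] at this
      rw [this]
      exact zero_mem _
  · match j with
    | 0 => rw [pow_zero, one_mul]; exact ay
    | 1 => rw [pow_one]; exact a6
    | 2 => exact a4
    | j + 3 => rw [H.xpy]; exact zero_mem _
  · match j with
    | 0 => rw [pow_zero, one_mul]; exact az
    | 1 => rw [pow_one]; exact a5
    | j + 2 => rw [H.xpz]; exact zero_mem _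

end mem

/-- the Gorenstein algebras for `m = 0` are limits of curvilinear ones -/
theorem cl [IsAlgClosed k] [CharZero k] {N : ℕ} (hN : N = 10)
    (ρ : R →ₐ[k] Matrix (Fin N) (Fin N) k) (v : Fin N → k)
    (hsp : ∀ u, ∃ p q r : k[X], ρ (aeval x p + aeval x q * y + aeval x r * z) *ᵥ v = u)
    (hr : r ≠ 0) (ht : t ≠ 0) (hrt : r ≠ t) (hg1 : g1' ≠ 0) (hh0 : h0' ≠ 0) :
    Cl ![ρ x, ρ y, ρ z] := by
  obtain ⟨X, hX⟩ : ∃ X, X = algebraMap k R g1' * y + algebraMap k R (t - g1) * z -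
    algebraMap k R (t * g1') * x := ⟨_, rfl⟩
  obtain ⟨Y, hY⟩ : ∃ Y, Y = algebraMap k R g1' * y + algebraMap k R (r - g1) * z -
    algebraMap k R (r * g1') * x := ⟨_, rfl⟩
  have hd : r - t ≠ 0 := sub_ne_zero.2 hrt
  have hd' : t - r ≠ 0 := sub_ne_zero.2 (Ne.symm hrt)
  have key : Cl fun i => ρ (![X, Y, z] i) := by
    refine cl_tpqr_ring ρ v ![4, 4, 3] ![3, 3, 4] 12 ?_ ?_ ?_
      ?_ ![X, Y, z] (x ^ 4) ?_ ?_ ?_ ?_
    · intro i
      fin_cases i
      · show 3 ≤ 4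
        norm_num
      · show 3 ≤ 4
        norm_num
      · show 3 ≤ 3
        norm_num
    · intro i
      fin_cases i
      · show 1 ≤ 3
        norm_num
      · show 1 ≤ 3
        norm_num
      · show 1 ≤ 4
        norm_num
    · intro i
      fin_cases i <;> rfl
    · rw [Fintype.card_fin, hN]
      rfl
    · -- the powers span
      intro u
      obtain ⟨p, q, r, rfl⟩ := hsp u
      refine ⟨_, ?_, rfl⟩
      set S := Submodule.span k ({1} ∪ {x ^ 4} ∪
        {r : R | ∃ i m, 1 ≤ m ∧ m < (![4, 4, 3] : Fin 3 → ℕ) i ∧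
          r = (![X, Y, z] : Fin 3 → R) i ^ m}) with hS
      obtain ⟨a1, a2, a3⟩ := H.mem_all hX hY hrt hg1 (S := S)
        (Submodule.subset_span (Or.inl (Or.inl rfl)))
        (Submodule.subset_span (Or.inl (Or.inr rfl)))
        (fun j h1 h2 => Submodule.subset_span (Or.inr ⟨0, j, h1, h2, rfl⟩))
        (fun j h1 h2 => Submodule.subset_span (Or.inr ⟨1, j, h1, h2, rfl⟩))
        (fun j h1 h2 => Submodule.subset_span (Or.inr ⟨2, j, h1, h2, rfl⟩))
      have hp : ∀ (p : k[X]) (t : R), (∀ j, x ^ j * t ∈ S) → aeval x p * t ∈ S := by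
        intro p t ht
        rw [aeval_eq_sum_range, Finset.sum_mul]
        refine Submodule.sum_mem _ fun j _ => ?_
        rw [smul_mul_assoc]
        exact S.smul_mem _ (ht j)
      refine add_mem (add_mem ?_ (hp q y a2)) (hp r z a3)
      have := hp p 1 (by
        intro j
        rw [mul_one]
        exact a1 j)
      rwa [mul_one] at this
    · have e1 : x * x ^ 4 = 0 := by
        have := H.h3
        rw [← pow_succ']
        exact this
      have e2 : y * x ^ 4 = 0 := by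
        rw [mul_comm]
        exact H.xpy 1
      have e3 : z * x ^ 4 = 0 := by
        rw [mul_comm]
        exact H.xpz 2
      intro i
      fin_cases i
      · show X * x ^ 4 = 0
        rw [hX]
        linear_combination (algebraMap k R g1') * e2 + algebraMap k R (t - g1) * e3 -
          algebraMap k R (t * g1') * e1
      · show Y * x ^ 4 = 0
        rw [hY]
        linear_combination (algebraMap k R g1') * e2 + algebraMap k R (r - g1) * e3 -
          algebraMap k R (r * g1') * e1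
      · exact e3
    · intro i
      fin_cases i
      · refine ⟨-r ^ 3 * t * g1' ^ 4 + 3 * r ^ 2 * t ^ 2 * g1' ^ 4 - 3 * r * t ^ 3 * g1' ^ 4 +
          t ^ 4 * g1' ^ 4, ?_, H.x4 hX⟩
        have e : -r ^ 3 * t * g1' ^ 4 + 3 * r ^ 2 * t ^ 2 * g1' ^ 4 - 3 * r * t ^ 3 * g1' ^ 4 +
          t ^ 4 * g1' ^ 4 = t * (t - r) ^ 3 * g1' ^ 4 := by ring
        rw [e]
        exact mul_ne_zero (mul_ne_zero ht (pow_ne_zero 3 hd')) (pow_ne_zero 4 hg1)
      · refine ⟨-t ^ 3 * r * g1' ^ 4 + 3 * t ^ 2 * r ^ 2 * g1' ^ 4 - 3 * t * r ^ 3 * g1' ^ 4 +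
          r ^ 4 * g1' ^ 4, ?_, H.symm.x4 hY⟩
        have e : -t ^ 3 * r * g1' ^ 4 + 3 * t ^ 2 * r ^ 2 * g1' ^ 4 - 3 * t * r ^ 3 * g1' ^ 4 +
          r ^ 4 * g1' ^ 4 = r * (r - t) ^ 3 * g1' ^ 4 := by ring
        rw [e]
        exact mul_ne_zero (mul_ne_zero hr (pow_ne_zero 3 hd)) (pow_ne_zero 4 hg1)
      · exact ⟨g1' * h0', mul_ne_zero hg1 hh0, H.zzz⟩
    · -- the products
      have hmem : ∀ (w : ℕ) (S : Submodule k R), S = Submodule.span k
          ({x ^ 4} ∪ {r : R | ∃ l m, m < (![4, 4, 3] : Fin 3 → ℕ) l ∧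
            w < m * (![3, 3, 4] : Fin 3 → ℕ) l ∧
            r = (![X, Y, z] : Fin 3 → R) l ^ m}) → w ≤ 7 →
          x ^ 4 ∈ S ∧ x ^ 3 ∈ S ∧ x ^ 2 * y ∈ S ∧ x * z ∈ S := by
        intro w S hS h1
        have hσ : x ^ 4 ∈ S := by
          rw [hS]
          exact Submodule.subset_span (Or.inl rfl)
        obtain ⟨a3, a4⟩ := H.mem_cubes hX hY hrt hg1 hσ (by
          rw [hS]
          refine Submodule.subset_span (Or.inr ⟨0, 3, ?_, ?_, rfl⟩)
          · show 3 < 4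
            norm_num
          · show w < 3 * 3
            omega) (by
          rw [hS]
          refine Submodule.subset_span (Or.inr ⟨1, 3, ?_, ?_, rfl⟩)
          · show 3 < 4
            norm_num
          · show w < 3 * 3
            omega)
        refine ⟨hσ, a3, a4, H.mem_xz hg1 hσ a3 a4 ?_⟩
        rw [hS]
        refine Submodule.subset_span (Or.inr ⟨2, 2, ?_, ?_, rfl⟩)
        · show 2 < 3
          norm_num
        · show w < 2 * 4
          omega
      intro i j hij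
      fin_cases i <;> fin_cases j
      · exact absurd hij (lt_irrefl _)
      · obtain ⟨a1, a2, a3, a4⟩ := hmem 6 _ rfl (by norm_num)
        show X * Y ∈ _
        rw [H.xy hX hY]
        exact add_mem (add_mem (add_mem (hs _ _ a3) (hs _ _ a2)) (hs _ _ a1)) (hs _ _ a4)
      · obtain ⟨a1, a2, a3, a4⟩ := hmem 7 _ rfl (by norm_num)
        show X * z ∈ _
        rw [H.xz hX]
        exact add_mem (add_mem (hs _ _ a3) (hs _ _ a2)) (hs _ _ a1)
      · exact absurd hij (by decide)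
      · exact absurd hij (lt_irrefl _)
      · obtain ⟨a1, a2, a3, a4⟩ := hmem 7 _ rfl (by norm_num)
        show Y * z ∈ _
        rw [H.symm.xz hY]
        exact add_mem (add_mem (hs _ _ a3) (hs _ _ a2)) (hs _ _ a1)
      · exact absurd hij (by decide)
      · exact absurd hij (by decide)
      · exact absurd hij (lt_irrefl _)
  -- back to `x`, `y`, `z`
  have m0 : ρ X ∈ adj fun i => ρ (![X, Y, z] i) := mem_adj (fun i => ρ (![X, Y, z] i)) 0
  have m1 : ρ Y ∈ adj fun i => ρ (![X, Y, z] i) := mem_adj (fun i => ρ (![X, Y, z] i)) 1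
  have m2 : ρ z ∈ adj fun i => ρ (![X, Y, z] i) := mem_adj (fun i => ρ (![X, Y, z] i)) 2
  have eX : ρ X = g1' • ρ y + (t - g1) • ρ z - (t * g1') • ρ x := by
    rw [hX, map_sub, map_add, map_mul, map_mul, map_mul, AlgHom.commutes, AlgHom.commutes,
      AlgHom.commutes, ← Algebra.smul_def, ← Algebra.smul_def, ← Algebra.smul_def]
  have eY : ρ Y = g1' • ρ y + (r - g1) • ρ z - (r * g1') • ρ x := by
    rw [hY, map_sub, map_add, map_mul, map_mul, map_mul, AlgHom.commutes, AlgHom.commutes,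
      AlgHom.commutes, ← Algebra.smul_def, ← Algebra.smul_def, ← Algebra.smul_def]
  have hx' : ρ x = ((r - t) * g1')⁻¹ • (ρ X - ρ Y + (r - t) • ρ z) := by
    rw [eX, eY, eq_inv_smul_iff₀ (mul_ne_zero hd hg1)]
    module
  have mx : ρ x ∈ adj fun i => ρ (![X, Y, z] i) := by
    rw [hx']
    exact SMulMemClass.smul_mem _ (add_mem (sub_mem m0 m1) (SMulMemClass.smul_mem _ m2))
  have hy' : ρ y = g1'⁻¹ • (ρ X - (t - g1) • ρ z + (t * g1') • ρ x) := by
    rw [eX, eq_inv_smul_iff₀ hg1]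
    module
  have my : ρ y ∈ adj fun i => ρ (![X, Y, z] i) := by
    rw [hy']
    exact SMulMemClass.smul_mem _ (add_mem (sub_mem m0 (SMulMemClass.smul_mem _ m2))
      (SMulMemClass.smul_mem _ mx))
  refine cl_of_adj (fun i => ?_) key
  fin_cases i
  · exact mx
  · exact my
  · exact m2

end Gor0

end L32

end Pool.Agent.Lib.D13
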