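import Pool.Agent.Lib.D13.PB
import Pool.Agent.Lib.D9.CycAx

/-!
# MP_5dcbc3_ag: three Jordan blocks, generated by `v`, `B v`, `C v`: the commutative algebra
-/

namespace Pool.Agent.Lib.D13

open Matrix Polynomial Pool.Agent.Lib.Q5dc Pool.Agent.Lib.D7

namespace PB

universe u

variable {k : Type u} [Field k] {N : ℕ} {A B C' : Matrix (Fin N) (Fin N) k}
  {w : Fin 3 → Fin N → k} {l : Fin 3 → ℕ}

/-- if the generators are `v`, `B v`, `C v`, the triple comes from a commutative algebra `R` whose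
elements are determined by their action on `v` -/
theorem exists_ring3 (hA : BlkB A w l) (hT : CN ![A, B, C']) (h1 : B *ᵥ w 0 = w 1)
    (h2 : C' *ᵥ w 0 = w 2) :
    ∃ (R : Type u) (_ : CommRing R) (_ : Algebra k R)
      (ρ : R →ₐ[k] Matrix (Fin N) (Fin N) k) (a b c : R), ρ a = A ∧ ρ b = B ∧ ρ c = C' ∧
      (∀ z, pi A w z = ρ (aeval a (z 0) + aeval a (z 1) * b + aeval a (z 2) * c) *ᵥ w 0) ∧
      ∀ r s : R, ρ r *ᵥ w 0 = ρ s *ᵥ w 0 → r = s := by
  obtain ⟨R, i1, i2, ρ, a, b, c, hinj, ha, hb, hc⟩ := D9.exists_ring hT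
  have hae : ∀ p : k[X], ρ (aeval a p) = aeval A p := by
    intro p
    rw [← ha, ← Polynomial.aeval_algHom_apply]
  have hpi : ∀ z, pi A w z = ρ (aeval a (z 0) + aeval a (z 1) * b + aeval a (z 2) * c) *ᵥ w 0 := by
    intro z
    rw [map_add, map_add, map_mul, map_mul, hae, hae, hae, hb, hc, Matrix.add_mulVec,
      Matrix.add_mulVec, ← Matrix.mulVec_mulVec, ← Matrix.mulVec_mulVec, h1, h2]
    unfold pi
    rw [Fin.sum_univ_three]
  refine ⟨R, i1, i2, ρ, a, b, c, ha, hb, hc, hpi, fun r s hrs => hinj ?_⟩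
  have hcyc : D9.Cyc ![A, B, C'] (w 0) := by
    intro S h0 hS
    have hSA : ∀ u ∈ S, A *ᵥ u ∈ S := fun u hu => hS 0 u hu
    have hSp : ∀ (p : k[X]), ∀ u ∈ S, aeval A p *ᵥ u ∈ S := by
      intro p u hu
      have hpow : ∀ j, A ^ j *ᵥ u ∈ S := by
        intro j
        induction j with
        | zero => rw [pow_zero, Matrix.one_mulVec]; exact hu
        | succ j ih => rw [pow_succ', ← Matrix.mulVec_mulVec]; exact hSA _ ih
      rw [aeval_eq_sum_range, Matrix.sum_mulVec]
      refine Submodule.sum_mem _ fun j _ => ?_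
      rw [Matrix.smul_mulVec]
      exact S.smul_mem _ (hpow j)
    have hw : ∀ i, w i ∈ S := by
      intro i
      fin_cases i
      · exact h0
      · show w 1 ∈ S
        rw [← h1]
        exact hS 1 _ h0
      · show w 2 ∈ S
        rw [← h2]
        exact hS 2 _ h0
    rw [eq_top_iff]
    intro u _
    obtain ⟨z, rfl⟩ := hA.span u
    exact Submodule.sum_mem _ fun i _ => hSp _ _ (hw i)
  have hcom : ∀ (i : Fin 3) (t : R), ![A, B, C'] i * ρ t = ρ t * ![A, B, C'] i := by
    intro i t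
    fin_cases i
    · show A * ρ t = ρ t * A
      rw [← ha, ← map_mul, mul_comm, map_mul]
    · show B * ρ t = ρ t * B
      rw [← hb, ← map_mul, mul_comm, map_mul]
    · show C' * ρ t = ρ t * C'
      rw [← hc, ← map_mul, mul_comm, map_mul]
  exact hcyc.ext (fun i => hcom i r) (fun i => hcom i s) hrs

end PB

end Pool.Agent.Lib.D13
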