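import Pool.Agent.Lib.D13.L32K1B
import Pool.Agent.Lib.D13.L32K1D
import Pool.Agent.Lib.D13.PBring
import Pool.Agent.Lib.D13.L32A

/-!
# MP_5dcbc3_ag: Jordan blocks of sizes `m + 5`, `3`, `2`: the generic cyclic triples with `b ≠ 0`
-/

namespace Pool.Agent.Lib.D13

open Matrix Polynomial Pool.Agent.Lib.Q5dc Pool.Agent.Lib.D7

namespace L32

/-- the generic cyclic triples with `b₀ ≠ 0` are limits of curvilinear ones -/
theorem clK1 {k : Type*} [Field k] [IsAlgClosed k] [CharZero k] {N m : ℕ}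
    {A B C' : Matrix (Fin N) (Fin N) k} {w : Fin 3 → Fin N → k}
    (hA : PB.BlkB A w ![m + 5, 3, 2]) {x y : Par k} (hB : PB.Rep A w B (Mz m x))
    (hC : PB.Rep A w C' (Mz m y)) (hr : Rel x y)
    (hc0 : x.c0 = 1) (hc1 : x.c1 = 0) (hc2 : x.c2 = 0) (he0 : x.e0 = 0) (he1 : x.e1 = 0)
    (hd0 : x.d0 = 0) (hf0 : x.f0 = 0)
    (he0' : y.e0 = 1) (he1' : y.e1 = 0) (hc0' : y.c0 = 0) (hc1' : y.c1 = 0) (hc2' : y.c2 = 0)
    (hf0' : y.f0 = 0)
    (hb : x.b0 ≠ 0) (hq : x.q1 ≠ 0) (hdisc : x.q1 ^ 2 + 4 * x.b0 ≠ 0) (hg : y.g1 ≠ 0)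
    (hh : y.h0 ≠ 0) : Cl ![A, B, C'] := by
  have hBC : B * C' = C' * B := (comm_mz hA hB hC).2 hr
  have hT : CN ![A, B, C'] := PB.cn3 hA (PB.comm_A hA hB) (PB.comm_A hA hC) hBC (nilp_mz hA hB)
    (nilp_mz hA hC)
  have h1 : B *ᵥ w 0 = w 1 := by
    rw [hB.apply 0]
    unfold PB.pi
    rw [Fin.sum_univ_three]
    simp [Mz, hc0, hc1, hc2, he0, he1]
  have h2 : C' *ᵥ w 0 = w 2 := by
    rw [hC.apply 0]
    unfold PB.pi
    rw [Fin.sum_univ_three]
    simp [Mz, hc0', hc1', hc2', he0', he1']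
  obtain ⟨R, i1, i2, ρ, a, b, c, ha, hb', hc', hpi, hext⟩ := PB.exists_ring3 hA hT h1 h2
  -- the relations
  have hyy : b * b = algebraMap k R x.q1 * a * b + algebraMap k R x.q2 * a ^ 2 * b +
      algebraMap k R x.d1 * a * c + a ^ (m + 2) * (algebraMap k R x.b0 +
        algebraMap k R x.b1 * a + algebraMap k R x.b2 * a ^ 2) := by
    refine hext _ _ ?_
    rw [map_mul, ← Matrix.mulVec_mulVec, hb', h1, hB.apply 1, hpi]
    congr 2
    simp [Mz, hd0]
    ring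
  have hyz : b * c = algebraMap k R x.f1 * a ^ 2 * b + algebraMap k R x.g1 * a * c +
      a ^ (m + 3) * (algebraMap k R x.h0 + algebraMap k R x.h1 * a) := by
    refine hext _ _ ?_
    rw [map_mul, ← Matrix.mulVec_mulVec, hb', hc', h2, hB.apply 2, hpi]
    congr 2
    simp [Mz, hf0]
    ring
  have hzz : c * c = algebraMap k R y.f1 * a ^ 2 * b + algebraMap k R y.g1 * a * c +
      a ^ (m + 3) * (algebraMap k R y.h0 + algebraMap k R y.h1 * a) := by
    refine hext _ _ ?_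
    rw [map_mul, ← Matrix.mulVec_mulVec, hc', h2, hC.apply 2, hpi]
    congr 2
    simp [Mz, hf0']
    ring
  have k1 : a ^ 2 * c = 0 := by
    refine hext _ _ ?_
    rw [map_mul, map_pow, ← Matrix.mulVec_mulVec, ha, hc', h2, map_zero, Matrix.zero_mulVec]
    exact hA.ann 2
  have k2 : a ^ 3 * b = 0 := by
    refine hext _ _ ?_
    rw [map_mul, map_pow, ← Matrix.mulVec_mulVec, ha, hb', h1, map_zero, Matrix.zero_mulVec]
    exact hA.ann 1
  have k3 : a ^ (m + 5) = 0 := by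
    refine hext _ _ ?_
    rw [map_pow, ha, map_zero, Matrix.zero_mulVec]
    exact hA.ann 0
  have hsp : ∀ u, ∃ p q r : k[X], ρ (aeval a p + aeval a q * b + aeval a r * c) *ᵥ w 0 = u := by
    intro u
    obtain ⟨z, rfl⟩ := hA.span u
    exact ⟨z 0, z 1, z 2, (hpi z).symm⟩
  have hN : N = m + 10 := by
    have := hA.card
    rw [Fin.sum_univ_three] at this
    exact this
  have hfin : Cl ![ρ a, ρ b, ρ c] := by
    rcases m with _ | n
    · obtain ⟨s, hs⟩ := IsAlgClosed.exists_pow_nat_eq (x.q1 ^ 2 + 4 * x.b0) (n := 2) (by norm_num)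
      have hs0 : s ≠ 0 := by
        rintro rfl
        exact hdisc (by rw [← hs]; ring)
      have h20 : (2 : k) ≠ 0 := two_ne_zero
      obtain ⟨r, hr'⟩ : ∃ r, r = (x.q1 + s) / 2 := ⟨_, rfl⟩
      obtain ⟨t, ht'⟩ : ∃ t, t = (x.q1 - s) / 2 := ⟨_, rfl⟩
      have e1 : r + t = x.q1 := by
        rw [hr', ht']
        ring
      have e2 : r - t = s := by
        rw [hr', ht']
        ring
      have e3 : x.b0 = -(r * t) := by
        have : 4 * x.b0 = 4 * -(r * t) := by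
          rw [hr', ht']
          linear_combination -hs
        exact mul_left_cancel₀ (by norm_num : (4 : k) ≠ 0) this
      have hrt0 : r * t ≠ 0 := fun h => hb (by rw [e3, h, neg_zero])
      have H : Gor0 (algebraMap k R) r t x.q2 x.d1 x.b1 x.b2 x.f1 x.g1 x.h0 x.h1 y.f1 y.g1 y.h0
          y.h1 a b c := by
        refine ⟨?_, hyz, hzz, k1, k2, k3⟩
        rw [hyy, ← e1, e3, map_add, map_neg, map_mul]
      exact H.cl hN ρ (w 0) hsp (left_ne_zero_of_mul hrt0) (right_ne_zero_of_mul hrt0)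
        (fun h => hs0 (by rw [← e2, h, sub_self])) hg hh
    · have H : Gor (algebraMap k R) n x.q1 x.q2 x.d1 x.b0 x.b1 x.b2 x.f1 x.g1 x.h0 x.h1 y.f1 y.g1
          y.h0 y.h1 a b c := ⟨hyy, hyz, hzz, k1, k2, k3⟩
      exact H.cl (by omega) ρ (w 0) hsp hb hq hg hh
  rw [ha, hb', hc'] at hfin
  exact hfin

end L32

end Pool.Agent.Lib.D13
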