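import Pool.Agent.Lib.D13.L32I
import Pool.Agent.Lib.D13.L32K1

/-!
# MP_5dcbc3_ag: Jordan blocks of sizes `m + 5`, `3`, `2`: start of the reduction, first component
-/

namespace Pool.Agent.Lib.D13

open Matrix Polynomial Pool.Agent.Lib.Q5dc Pool.Agent.Lib.D7 Pool.Agent.Lib.D8

namespace L32

variable {k : Type*} [Field k] {N m : ℕ} {A : Matrix (Fin N) (Fin N) k} {w : Fin 3 → Fin N → k}

/-- a maximal bad triple whose first matrix has the Jordan type `(m + 5, 3, 2)` -/
theorem bad_of_maxR (hA : PB.BlkB A w ![m + 5, 3, 2]) {B C' : Matrix (Fin N) (Fin N) k}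
    (hT : MaxR (fun i => (A ^ i).rank) ![A, B, C']) : ∃ x y : Par k, Bad m x y := by
  obtain ⟨x, s, hx⟩ := exists_par hA (hT.cn.1 0 1) (hT.cn.2 1)
  obtain ⟨y, t, hy⟩ := exists_par hA (hT.cn.1 0 2) (hT.cn.2 2)
  have hp : ∀ (T : Fin 3 → Matrix (Fin N) (Fin N) k), A ∈ adj T → ∀ p : k[X],
      aeval A (X * p) ∈ adj T := by
    intro T hAT p
    rw [mul_comm, map_mul, aeval_X]
    exact mem_adj_aeval hAT hAT p
  refine ⟨x, y, N, A, B - aeval A (X * s), C' - aeval A (X * t), w, hA, hx, hy, ?_⟩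
  refine D8.MaxR.change3 hT (sub_mem (mem1 _ _ _) (hp _ (mem0 _ _ _) s))
    (sub_mem (mem2 _ _ _) (hp _ (mem0 _ _ _) t)) ?_ ?_
  · have h := add_mem (mem1 A (B - aeval A (X * s)) (C' - aeval A (X * t)))
      (hp ![A, B - aeval A (X * s), C' - aeval A (X * t)] (mem0 _ _ _) s)
    rwa [sub_add_cancel] at h
  · have h := add_mem (mem2 A (B - aeval A (X * s)) (C' - aeval A (X * t)))
      (hp ![A, B - aeval A (X * s), C' - aeval A (X * t)] (mem0 _ _ _) t)
    rwa [sub_add_cancel] at h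

/-- the first component -/
theorem BadC.k1 [IsAlgClosed k] [CharZero k] {q : Cy k} (h : BadC m q) (hE : q.E0 = 1)
    (hE1 : q.E1 = 0) (hb : q.b0 ≠ 0) : False := by
  have : Infinite k := IsAlgClosed.instInfinite
  have R := h.rel
  have hf : q.f0 = 0 := eq_zero_of_mul (a := q.b0) (c := 0) (by
    have := R.s7
    rw [hE] at this
    linear_combination this) rfl hb
  have hF : q.F0 = 0 := (mul_eq_zero.1 R.s10).resolve_right hb
  have s8 := R.s8
  have s11 := R.s11
  rw [hE, hE1, hf] at s8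
  rw [hE, hf, hF] at s11
  have e1 : {s : k | q.q1 + q.b0 * s = 0}.Finite := by
    have := finite_quad (a := q.q1) (b := q.b0) (c := 0) (Or.inr (Or.inl hb))
    simpa using this
  have e2 : {s : k | (q.q1 ^ 2 + 4 * q.b0) + (2 * q.q1 * q.b0) * s + q.b0 ^ 2 * s ^ 2 = 0}.Finite :=
    finite_quad (Or.inr (Or.inr (pow_ne_zero 2 hb)))
  have e3 : {s : k | q.G1 + q.b0 * s = 0}.Finite := by
    have := finite_quad (a := q.G1) (b := q.b0) (c := 0) (Or.inr (Or.inl hb))
    simpa using this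
  have e4 : {s : k | q.H0 + q.b0 * s = 0}.Finite := by
    have := finite_quad (a := q.H0) (b := q.b0) (c := 0) (Or.inr (Or.inl hb))
    simpa using this
  obtain ⟨s, hs, h1⟩ := h.move
    (fun s => { q with
      q1 := q.q1 + q.b0 * s
      G1 := q.G1 + q.b0 * s
      H0 := q.H0 + q.b0 * s
      f1 := q.f1 + s * (q.h0 + q.d1)
      F1 := q.F1 + s * (q.g1 - q.h0) })
    (by
      constructor <;> (try dsimp only) <;> (repeat (first
        | exact D7.IsPoly.const _
        | exact D7.IsPoly.id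
        | apply D7.IsPoly.add
        | apply D7.IsPoly.sub
        | apply D7.IsPoly.mul
        | apply D7.IsPoly.neg
        | apply D7.IsPoly.pow))) (by apply Cy.ext <;> simp) (fun s => by
      constructor <;> dsimp only
      · rw [hf]; ring
      · rw [hE, hE1, hf]; linear_combination s8
      · rw [hE, hF, hf]; ring
      · rw [hF]; ring
      · rw [hE, hF, hf]; linear_combination s11
      · rw [hE, hF, hf]; ring) (((e1.union e2).union e3).union e4)
  simp only [Set.mem_union, not_or, Set.mem_ofPred_eq] at hs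
  obtain ⟨⟨⟨n1, n2⟩, n3⟩, n4⟩ := hs
  obtain ⟨⟨N, A, B, C', w, hA, hB, hC, hT⟩, dx, dy⟩ := h1
  refine hT.ncl (clK1 hA hB hC ((comm_mz hA hB hC).1 (hT.cn.1 1 2)) rfl rfl rfl rfl rfl rfl hf
    hE hE1 rfl rfl rfl hF hb n1 ?_ n3 n4)
  show (q.q1 + q.b0 * s) ^ 2 + 4 * q.b0 ≠ 0
  intro h0
  exact n2 (by linear_combination h0)

end L32

end Pool.Agent.Lib.D13
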