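import Pool.Agent.Lib.D13.TpqrRing

/-!
# MP_5dcbc3_ag: Jordan blocks of sizes `m + 5`, `3`, `2`: the Gorenstein algebras, `m` positive
-/

set_option linter.unusedSimpArgs false

namespace Pool.Agent.Lib.D13

namespace L32

/-- the relations of the algebra (`n + 6`, `3`, `2`) -/
structure Gor {k R : Type*} [Field k] [CommRing R] (φ : k →+* R) (n : ℕ)
    (q1 q2 d1 b0 b1 b2 f1 g1 h0 h1 f1' g1' h0' h1' : k) (x y z : R) : Prop where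
  hy : y * y = φ q1 * x * y + φ q2 * x ^ 2 * y + φ d1 * x * z +
    x ^ (n + 3) * (φ b0 + φ b1 * x + φ b2 * x ^ 2)
  hyz : y * z = φ f1 * x ^ 2 * y + φ g1 * x * z + x ^ (n + 4) * (φ h0 + φ h1 * x)
  hz : z * z = φ f1' * x ^ 2 * y + φ g1' * x * z + x ^ (n + 4) * (φ h0' + φ h1' * x)
  h1 : x ^ 2 * z = 0
  h2 : x ^ 3 * y = 0
  h3 : x ^ (n + 6) = 0

namespace Gor

variable {k R : Type*} [Field k] [CommRing R] {φ : k →+* R} {n : ℕ}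
  {q1 q2 d1 b0 b1 b2 f1 g1 h0 h1 f1' g1' h0' h1' : k} {x y z X Y : R}
  (H : Gor φ n q1 q2 d1 b0 b1 b2 f1 g1 h0 h1 f1' g1' h0' h1' x y z)
  (hX : X = φ g1' * y + φ (q1 - g1) * z - φ (q1 * g1') * x) (hY : Y = φ g1' * y - φ g1 * z)
include H


theorem zz : z ^ 2 =
      φ (f1') * (x ^ 2 * y) +
      φ (g1') * (x * z) +
      φ (h1') * (x ^ (n + 5)) +
      φ (h0') * (x ^ (n + 4)) := by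
  linear_combination (1) * H.hz

theorem zzz : z ^ 3 =
      φ (g1' * h0') * (x ^ (n + 5)) := by
  simp only [map_add, map_sub, map_mul, map_pow, map_neg, map_ofNat]
  linear_combination (φ g1' * φ h1') * H.h3 + (φ f1' * φ g1') * H.h2 + (φ f1' * y + (φ g1') ^ 2 + φ h0' * x ^ n * x ^ 2 + φ h1' * x ^ n * x ^ 3) * H.h1 + (φ g1' * x + z) * H.hz

include hX in
theorem xz : X * z =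
      φ (q1 * f1' + f1 * g1' - g1 * f1') * (x ^ 2 * y) +
      φ (q1 * h1' - g1 * h1' + h1 * g1') * (x ^ (n + 5)) +
      φ (q1 * h0' - g1 * h0' + h0 * g1') * (x ^ (n + 4)) := by
  subst hX
  simp only [map_add, map_sub, map_mul, map_pow, map_neg, map_ofNat]
  linear_combination (φ g1') * H.hyz + (φ q1 - φ g1) * H.hz

include hY in
theorem yz : Y * z =
      φ (f1 * g1' - g1 * f1') * (x ^ 2 * y) +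
      φ (-g1 * h1' + h1 * g1') * (x ^ (n + 5)) +
      φ (-g1 * h0' + h0 * g1') * (x ^ (n + 4)) := by
  subst hY
  simp only [map_add, map_sub, map_mul, map_pow, map_neg, map_ofNat]
  linear_combination (φ g1') * H.hyz + (-φ g1) * H.hz

include hX hY in
theorem xy : X * Y =
      φ (q1 * f1 * g1' - q1 * g1 * f1' + q2 * g1' ^ 2 - 2 * f1 * g1 * g1' + g1 ^ 2 * f1') * (x ^ 2 * y) +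
      φ (q1 * g1 * g1' + d1 * g1' ^ 2 - g1 ^ 2 * g1') * (x * z) +
      φ (-q1 * g1 * h1' + q1 * h1 * g1' + b2 * g1' ^ 2 + g1 ^ 2 * h1' - 2 * g1 * h1 * g1') * (x ^ (n + 5)) +
      φ (-q1 * g1 * h0' + q1 * h0 * g1' + b1 * g1' ^ 2 + g1 ^ 2 * h0' - 2 * g1 * h0 * g1') * (x ^ (n + 4)) +
      φ (b0 * g1' ^ 2) * (x ^ (n + 3)) := by
  subst hX hY
  simp only [map_add, map_sub, map_mul, map_pow, map_neg, map_ofNat]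
  linear_combination ((φ g1') ^ 2) * H.hy + (φ q1 * φ g1' - 2 * φ g1 * φ g1') * H.hyz + (-φ q1 * φ g1 + (φ g1) ^ 2) * H.hz

include hY in
theorem y2 : Y ^ 2 =
      φ (q2 * g1' ^ 2 - 2 * f1 * g1 * g1' + g1 ^ 2 * f1') * (x ^ 2 * y) +
      φ (q1 * g1' ^ 2) * (x * y) +
      φ (d1 * g1' ^ 2 - g1 ^ 2 * g1') * (x * z) +
      φ (b2 * g1' ^ 2 + g1 ^ 2 * h1' - 2 * g1 * h1 * g1') * (x ^ (n + 5)) +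
      φ (b1 * g1' ^ 2 + g1 ^ 2 * h0' - 2 * g1 * h0 * g1') * (x ^ (n + 4)) +
      φ (b0 * g1' ^ 2) * (x ^ (n + 3)) := by
  subst hY
  simp only [map_add, map_sub, map_mul, map_pow, map_neg, map_ofNat]
  linear_combination ((φ g1') ^ 2) * H.hy + (-2 * φ g1 * φ g1') * H.hyz + ((φ g1) ^ 2) * H.hz

include hY in
theorem y3 : Y ^ 3 =
      φ (q1 ^ 2 * g1' ^ 3) * (x ^ 2 * y) +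
      φ (q1 * b1 * g1' ^ 3 - q1 * g1 * h0 * g1' ^ 2 + q2 * b0 * g1' ^ 3 - d1 * g1 * g1' ^ 2 * h0' + d1 * h0 * g1' ^ 3 - 2 * b0 * f1 * g1 * g1' ^ 2 + b0 * g1 ^ 2 * f1' * g1' + g1 ^ 3 * g1' * h0' - g1 ^ 2 * h0 * g1' ^ 2) * (x ^ (n + 5)) +
      φ (q1 * b0 * g1' ^ 3) * (x ^ (n + 4)) := by
  have h := H.y2 hY
  subst hY
  simp only [map_add, map_sub, map_mul, map_pow, map_neg, map_ofNat] at h ⊢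
  linear_combination (φ g1' * y - φ g1 * z) * h + (φ q1 * φ b2 * (φ g1') ^ 3 - φ q1 * φ g1 * φ h1 * (φ g1') ^ 2 + φ q2 * φ b1 * (φ g1') ^ 3 + φ q2 * φ b2 * (φ g1') ^ 3 * x - φ d1 * φ g1 * (φ g1') ^ 2 * φ h1' + φ d1 * φ h1 * (φ g1') ^ 3 - 2 * φ b1 * φ f1 * φ g1 * (φ g1') ^ 2 + φ b1 * (φ g1) ^ 2 * φ f1' * φ g1' - 2 * φ b2 * φ f1 * φ g1 * (φ g1') ^ 2 * x + φ b2 * (φ g1) ^ 2 * φ f1' * φ g1' * x + (φ g1) ^ 3 * φ g1' * φ h1' - (φ g1) ^ 2 * φ h1 * (φ g1') ^ 2) * H.h3 + (2 * φ q1 * φ q2 * (φ g1') ^ 3 - 3 * φ q1 * φ f1 * φ g1 * (φ g1') ^ 2 + φ q1 * (φ g1) ^ 2 * φ f1' * φ g1' + (φ q2) ^ 2 * (φ g1') ^ 3 * x - 2 * φ q2 * φ f1 * φ g1 * (φ g1') ^ 2 * x + φ q2 * (φ g1) ^ 2 * φ f1' * φ g1' * x + φ d1 * φ f1 * (φ g1') ^ 3 - φ d1 * φ g1 * φ f1'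 * (φ g1') ^ 2 + φ b0 * (φ g1') ^ 3 * x ^ n + φ b1 * (φ g1') ^ 3 * x ^ n * x + φ b2 * (φ g1') ^ 3 * x ^ n * x ^ 2 - φ f1 * (φ g1) ^ 2 * (φ g1') ^ 2 + (φ g1) ^ 3 * φ f1' * φ g1' + (φ g1) ^ 2 * φ g1' * φ h0' * x ^ n * x + (φ g1) ^ 2 * φ g1' * φ h1' * x ^ n * x ^ 2 - 2 * φ g1 * φ h0 * (φ g1') ^ 2 * x ^ n * x - 2 * φ g1 * φ h1 * (φ g1') ^ 2 * x ^ n * x ^ 2) * H.h2 + (φ q1 * φ d1 * (φ g1') ^ 3 - φ q1 * (φ g1) ^ 2 * (φ g1') ^ 2 + φ q2 * φ d1 * (φ g1') ^ 3 * x - φ q2 * φ g1 * (φ g1') ^ 2 * y - 2 * φ d1 * φ f1 * φ g1 * (φ g1') ^ 2 * x + φ d1 * (φ g1) ^ 2 * φ f1' * φ g1' * x - φ b0 * φ g1 * (φ g1') ^ 2 * x ^ n * x - φ b1 * φ g1 * (φ g1') ^ 2 * x ^ n * x ^ 2 - φ b2 * φ g1 * (φ g1') ^ 2 * x ^ n * x ^ 3 + 2 * φ f1 * (φ g1) ^ 2 * φ g1' *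 y - (φ g1) ^ 3 * φ f1' * y - (φ g1) ^ 3 * φ h0' * x ^ n * x ^ 2 - (φ g1) ^ 3 * φ h1' * x ^ n * x ^ 3 + 2 * (φ g1) ^ 2 * φ h0 * φ g1' * x ^ n * x ^ 2 + 2 * (φ g1) ^ 2 * φ h1 * φ g1' * x ^ n * x ^ 3) * H.h1 + (φ q1 * (φ g1') ^ 3 * x + φ q2 * (φ g1') ^ 3 * x ^ 2 - 2 * φ f1 * φ g1 * (φ g1') ^ 2 * x ^ 2 + (φ g1) ^ 2 * φ f1' * φ g1' * x ^ 2) * H.hy + (-φ q1 * φ g1 * (φ g1') ^ 2 * x + φ d1 * (φ g1') ^ 3 * x - (φ g1) ^ 2 * (φ g1') ^ 2 * x) * H.hyz + (-φ d1 * φ g1 * (φ g1') ^ 2 * x + (φ g1) ^ 3 * φ g1' * x) * H.hz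

include hY in
theorem y4 : Y ^ 4 =
      φ (q1 ^ 2 * b0 * g1' ^ 4) * (x ^ (n + 5)) := by
  have h := H.y3 hY
  subst hY
  simp only [map_add, map_sub, map_mul, map_pow, map_neg, map_ofNat] at h ⊢
  linear_combination (φ g1' * y - φ g1 * z) * h + ((φ q1) ^ 2 * φ b1 * (φ g1') ^ 4 + (φ q1) ^ 2 * φ b2 * (φ g1') ^ 4 * x) * H.h3 + ((φ q1) ^ 3 * (φ g1') ^ 4 + (φ q1) ^ 2 * φ q2 * (φ g1') ^ 4 * x + φ q1 * φ b0 * (φ g1') ^ 4 * x ^ n * x + φ q1 * φ b1 * (φ g1') ^ 4 * x ^ n * x ^ 2 - φ q1 * φ g1 * φ h0 * (φ g1') ^ 3 * x ^ n * x ^ 2 + φ q2 * φ b0 * (φ g1') ^ 4 * x ^ n * x ^ 2 - φ d1 * φ g1 * (φ g1') ^ 3 * φ h0' * x ^ n * x ^ 2 + φ d1 * φ h0 * (φ g1') ^ 4 * x ^ n * x ^ 2 - 2 * φ b0 * φ f1 * φ g1 * (φ g1') ^ 3 * x ^ n * x ^ 2 + φ b0 * (φ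 g1) ^ 2 * φ f1' * (φ g1') ^ 2 * x ^ n * x ^ 2 + (φ g1) ^ 3 * (φ g1') ^ 2 * φ h0' * x ^ n * x ^ 2 - (φ g1) ^ 2 * φ h0 * (φ g1') ^ 3 * x ^ n * x ^ 2) * H.h2 + ((φ q1) ^ 2 * φ d1 * (φ g1') ^ 4 * x - (φ q1) ^ 2 * φ g1 * (φ g1') ^ 3 * y - φ q1 * φ b0 * φ g1 * (φ g1') ^ 3 * x ^ n * x ^ 2 - φ q1 * φ b1 * φ g1 * (φ g1') ^ 3 * x ^ n * x ^ 3 + φ q1 * (φ g1) ^ 2 * φ h0 * (φ g1') ^ 2 * x ^ n * x ^ 3 - φ q2 * φ b0 * φ g1 * (φ g1') ^ 3 * x ^ n * x ^ 3 + φ d1 * (φ g1) ^ 2 * (φ g1') ^ 2 * φ h0' * x ^ n * x ^ 3 - φ d1 * φ g1 * φ h0 * (φ g1') ^ 3 * x ^ n * x ^ 3 + 2 * φ b0 * φ f1 * (φ g1) ^ 2 * (φ g1') ^ 2 * x ^ n * x ^ 3 - φ b0 * (φ g1) ^ 3 * φ f1' * φ g1' * x ^ n * x ^ 3 - (φ g1) ^ 4 * φ g1' * φ h0' * x ^ n * x ^ 3 + (φ g1) ^ 3 * φ h0 * (φ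 g1') ^ 2 * x ^ n * x ^ 3) * H.h1 + ((φ q1) ^ 2 * (φ g1') ^ 4 * x ^ 2) * H.hy

include hX in
theorem x2 : X ^ 2 =
      φ (q1 ^ 2 * g1' ^ 2) * (x ^ 2) +
      φ (q1 ^ 2 * f1' + 2 * q1 * f1 * g1' - 2 * q1 * g1 * f1' + q2 * g1' ^ 2 - 2 * f1 * g1 * g1' + g1 ^ 2 * f1') * (x ^ 2 * y) +
      φ (-q1 * g1' ^ 2) * (x * y) +
      φ (-q1 ^ 2 * g1' + 2 * q1 * g1 * g1' + d1 * g1' ^ 2 - g1 ^ 2 * g1') * (x * z) +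
      φ (q1 ^ 2 * h1' - 2 * q1 * g1 * h1' + 2 * q1 * h1 * g1' + b2 * g1' ^ 2 + g1 ^ 2 * h1' - 2 * g1 * h1 * g1') * (x ^ (n + 5)) +
      φ (q1 ^ 2 * h0' - 2 * q1 * g1 * h0' + 2 * q1 * h0 * g1' + b1 * g1' ^ 2 + g1 ^ 2 * h0' - 2 * g1 * h0 * g1') * (x ^ (n + 4)) +
      φ (b0 * g1' ^ 2) * (x ^ (n + 3)) := by
  subst hX
  simp only [map_add, map_sub, map_mul, map_pow, map_neg, map_ofNat]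
  linear_combination ((φ g1') ^ 2) * H.hy + (2 * φ q1 * φ g1' - 2 * φ g1 * φ g1') * H.hyz + ((φ q1) ^ 2 - 2 * φ q1 * φ g1 + (φ g1) ^ 2) * H.hz

include hX in
theorem x3 : X ^ 3 =
      φ (-q1 ^ 3 * g1' ^ 3) * (x ^ 3) +
      φ (q1 ^ 2 * g1' ^ 3) * (x ^ 2 * y) +
      φ (-2 * q1 ^ 3 * g1' * h0' + q1 ^ 2 * b0 * f1' * g1' + 5 * q1 ^ 2 * g1 * g1' * h0' - 4 * q1 ^ 2 * h0 * g1' ^ 2 + q1 * d1 * g1' ^ 2 * h0' + 2 * q1 * b0 * f1 * g1' ^ 2 - 2 * q1 * b0 * g1 * f1' * g1' - 2 * q1 * b1 * g1' ^ 3 - 4 * q1 * g1 ^ 2 * g1' * h0' + 5 * q1 * g1 * h0 * g1' ^ 2 + q2 * b0 * g1' ^ 3 - d1 * g1 * g1' ^ 2 * h0' + d1 * h0 * g1' ^ 3 - 2 * b0 * f1 * g1 * g1' ^ 2 + b0 * g1 ^ 2 * f1' * g1' + g1 ^ 3 * g1' * h0' - g1 ^ 2 * h0 * g1' ^ 2) * (x ^ (n + 5)) +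
      φ (-2 * q1 * b0 * g1' ^ 3) * (x ^ (n + 4)) := by
  have h := H.x2 hX
  subst hX
  simp only [map_add, map_sub, map_mul, map_pow, map_neg, map_ofNat] at h ⊢
  linear_combination (φ g1' * y + (φ q1 - φ g1) * z - φ q1 * φ g1' * x) * h + (-2 * (φ q1) ^ 3 * φ g1' * φ h1' + (φ q1) ^ 2 * φ b1 * φ f1' * φ g1' + (φ q1) ^ 2 * φ b2 * φ f1' * φ g1' * x + 5 * (φ q1) ^ 2 * φ g1 * φ g1' * φ h1' - 4 * (φ q1) ^ 2 * φ h1 * (φ g1') ^ 2 + φ q1 * φ d1 * (φ g1') ^ 2 * φ h1' + 2 * φ q1 * φ b1 * φ f1 * (φ g1') ^ 2 - 2 * φ q1 * φ b1 * φ g1 * φ f1' * φ g1' + 2 * φ q1 * φ b2 * φ f1 * (φ g1') ^ 2 * x - 2 * φ q1 * φ b2 * φ g1 * φ f1' * φ g1' * x - 2 * φ q1 * φ b2 * (φ g1') ^ 3 - 4 * φ q1 * (φ g1) ^ 2 * φ g1' * φ h1' + 5 * φ q1 * φ g1 * φ h1 * (φ g1')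 ^ 2 + φ q2 * φ b1 * (φ g1') ^ 3 + φ q2 * φ b2 * (φ g1') ^ 3 * x - φ d1 * φ g1 * (φ g1') ^ 2 * φ h1' + φ d1 * φ h1 * (φ g1') ^ 3 - 2 * φ b1 * φ f1 * φ g1 * (φ g1') ^ 2 + φ b1 * (φ g1) ^ 2 * φ f1' * φ g1' - 2 * φ b2 * φ f1 * φ g1 * (φ g1') ^ 2 * x + φ b2 * (φ g1) ^ 2 * φ f1' * φ g1' * x + (φ g1) ^ 3 * φ g1' * φ h1' - (φ g1) ^ 2 * φ h1 * (φ g1') ^ 2) * H.h3 + (-(φ q1) ^ 3 * φ f1' * φ g1' + (φ q1) ^ 2 * φ q2 * φ f1' * φ g1' * x - 2 * (φ q1) ^ 2 * φ f1 * (φ g1') ^ 2 + 3 * (φ q1) ^ 2 * φ g1 * φ f1' * φ g1' + (φ q1) ^ 2 * φ g1' * φ h0' * x ^ n * x + (φ q1) ^ 2 * φ g1' * φ h1' * x ^ n * x ^ 2 + 2 * φ q1 * φ q2 * φ f1 * (φ g1') ^ 2 * x - 2 * φ q1 * φ q2 * φ g1 * φ f1' * φ g1' * x - φ q1 * φ q2 * (φ g1') ^ 3 + φ q1 * φ d1 * φ f1' * (φ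 g1') ^ 2 + 3 * φ q1 * φ f1 * φ g1 * (φ g1') ^ 2 - 3 * φ q1 * (φ g1) ^ 2 * φ f1' * φ g1' - 2 * φ q1 * φ g1 * φ g1' * φ h0' * x ^ n * x - 2 * φ q1 * φ g1 * φ g1' * φ h1' * x ^ n * x ^ 2 + 2 * φ q1 * φ h0 * (φ g1') ^ 2 * x ^ n * x + 2 * φ q1 * φ h1 * (φ g1') ^ 2 * x ^ n * x ^ 2 + (φ q2) ^ 2 * (φ g1') ^ 3 * x - 2 * φ q2 * φ f1 * φ g1 * (φ g1') ^ 2 * x + φ q2 * (φ g1) ^ 2 * φ f1' * φ g1' * x + φ d1 * φ f1 * (φ g1') ^ 3 - φ d1 * φ g1 * φ f1' * (φ g1') ^ 2 + φ b0 * (φ g1') ^ 3 * x ^ n + φ b1 * (φ g1') ^ 3 * x ^ n * x + φ b2 * (φ g1') ^ 3 * x ^ n * x ^ 2 - φ f1 * (φ g1) ^ 2 * (φ g1') ^ 2 + (φ g1) ^ 3 * φ f1' * φ g1' + (φ g1) ^ 2 * φ g1' * φ h0' * x ^ n * x + (φ g1) ^ 2 * φ g1' * φ h1' * x ^ n * x ^ 2 - 2 * φ g1 * φ h0 * (φ g1') ^ 2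 * x ^ n * x - 2 * φ g1 * φ h1 * (φ g1') ^ 2 * x ^ n * x ^ 2) * H.h2 + ((φ q1) ^ 3 * φ f1' * y + (φ q1) ^ 3 * (φ g1') ^ 2 + (φ q1) ^ 3 * φ h0' * x ^ n * x ^ 2 + (φ q1) ^ 3 * φ h1' * x ^ n * x ^ 3 + (φ q1) ^ 2 * φ d1 * φ f1' * φ g1' * x + 2 * (φ q1) ^ 2 * φ f1 * φ g1' * y - 3 * (φ q1) ^ 2 * φ g1 * φ f1' * y - 2 * (φ q1) ^ 2 * φ g1 * (φ g1') ^ 2 - 3 * (φ q1) ^ 2 * φ g1 * φ h0' * x ^ n * x ^ 2 - 3 * (φ q1) ^ 2 * φ g1 * φ h1' * x ^ n * x ^ 3 + 2 * (φ q1) ^ 2 * φ h0 * φ g1' * x ^ n * x ^ 2 + 2 * (φ q1) ^ 2 * φ h1 * φ g1' * x ^ n * x ^ 3 + φ q1 * φ q2 * (φ g1') ^ 2 * y + 2 * φ q1 * φ d1 * φ f1 * (φ g1') ^ 2 * x - 2 * φ q1 * φ d1 * φ g1 * φ f1' * φ g1' * x - φ q1 * φ d1 * (φ g1') ^ 3 + φ q1 * φ b0 * (φ g1') ^ 2 * x ^ n * x + φ q1 *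 φ b1 * (φ g1') ^ 2 * x ^ n * x ^ 2 + φ q1 * φ b2 * (φ g1') ^ 2 * x ^ n * x ^ 3 - 4 * φ q1 * φ f1 * φ g1 * φ g1' * y + 3 * φ q1 * (φ g1) ^ 2 * φ f1' * y + φ q1 * (φ g1) ^ 2 * (φ g1') ^ 2 + 3 * φ q1 * (φ g1) ^ 2 * φ h0' * x ^ n * x ^ 2 + 3 * φ q1 * (φ g1) ^ 2 * φ h1' * x ^ n * x ^ 3 - 4 * φ q1 * φ g1 * φ h0 * φ g1' * x ^ n * x ^ 2 - 4 * φ q1 * φ g1 * φ h1 * φ g1' * x ^ n * x ^ 3 + φ q2 * φ d1 * (φ g1') ^ 3 * x - φ q2 * φ g1 * (φ g1') ^ 2 * y - 2 * φ d1 * φ f1 * φ g1 * (φ g1') ^ 2 * x + φ d1 * (φ g1) ^ 2 * φ f1' * φ g1' * x - φ b0 * φ g1 * (φ g1') ^ 2 * x ^ n * x - φ b1 * φ g1 * (φ g1') ^ 2 * x ^ n * x ^ 2 - φ b2 * φ g1 * (φ g1') ^ 2 * x ^ n * x ^ 3 + 2 * φ f1 * (φ g1) ^ 2 * φ g1' * y - (φ g1) ^ 3 * φ f1' * y - (φ g1) ^ 3 * φ h0'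 * x ^ n * x ^ 2 - (φ g1) ^ 3 * φ h1' * x ^ n * x ^ 3 + 2 * (φ g1) ^ 2 * φ h0 * φ g1' * x ^ n * x ^ 2 + 2 * (φ g1) ^ 2 * φ h1 * φ g1' * x ^ n * x ^ 3) * H.h1 + ((φ q1) ^ 2 * φ f1' * φ g1' * x ^ 2 + 2 * φ q1 * φ f1 * (φ g1') ^ 2 * x ^ 2 - 2 * φ q1 * φ g1 * φ f1' * φ g1' * x ^ 2 - φ q1 * (φ g1') ^ 3 * x + φ q2 * (φ g1') ^ 3 * x ^ 2 - 2 * φ f1 * φ g1 * (φ g1') ^ 2 * x ^ 2 + (φ g1) ^ 2 * φ f1' * φ g1' * x ^ 2) * H.hy + (-2 * (φ q1) ^ 2 * (φ g1') ^ 2 * x + 3 * φ q1 * φ g1 * (φ g1') ^ 2 * x + φ d1 * (φ g1') ^ 3 * x - (φ g1) ^ 2 * (φ g1') ^ 2 * x) * H.hyz + (-(φ q1) ^ 3 * φ g1' * x + 3 * (φ q1) ^ 2 * φ g1 * φ g1' * x + φ q1 * φ d1 * (φ g1') ^ 2 * x - 3 * φ q1 * (φ g1) ^ 2 * φ g1' * x - φ d1 * φ g1 * (φ g1') ^ 2 * x + (φ g1) ^ 3 * φ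 g1' * x) * H.hz

include hX in
theorem x4 : X ^ 4 =
      φ (q1 ^ 4 * g1' ^ 4) * (x ^ 4) +
      φ (3 * q1 ^ 2 * b0 * g1' ^ 4) * (x ^ (n + 5)) := by
  have h := H.x3 hX
  subst hX
  simp only [map_add, map_sub, map_mul, map_pow, map_neg, map_ofNat] at h ⊢
  linear_combination (φ g1' * y + (φ q1 - φ g1) * z - φ q1 * φ g1' * x) * h + (2 * (φ q1) ^ 4 * (φ g1') ^ 2 * φ h0' - (φ q1) ^ 3 * φ b0 * φ f1' * (φ g1') ^ 2 - 5 * (φ q1) ^ 3 * φ g1 * (φ g1') ^ 2 * φ h0' + 4 * (φ q1) ^ 3 * φ h0 * (φ g1') ^ 3 - (φ q1) ^ 2 * φ d1 * (φ g1') ^ 3 * φ h0' - 2 * (φ q1) ^ 2 * φ b0 * φ f1 * (φ g1') ^ 3 + 2 * (φ q1) ^ 2 * φ b0 * φ g1 * φ f1' * (φ g1') ^ 2 + 3 * (φ q1) ^ 2 * φ b1 * (φ g1') ^ 4 + (φ q1) ^ 2 * φ b2 * (φ g1') ^ 4 * x + 4 * (φ q1) ^ 2 * (φ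 g1) ^ 2 * (φ g1') ^ 2 * φ h0' - 5 * (φ q1) ^ 2 * φ g1 * φ h0 * (φ g1') ^ 3 - φ q1 * φ q2 * φ b0 * (φ g1') ^ 4 + φ q1 * φ d1 * φ g1 * (φ g1') ^ 3 * φ h0' - φ q1 * φ d1 * φ h0 * (φ g1') ^ 4 + 2 * φ q1 * φ b0 * φ f1 * φ g1 * (φ g1') ^ 3 - φ q1 * φ b0 * (φ g1) ^ 2 * φ f1' * (φ g1') ^ 2 - φ q1 * (φ g1) ^ 3 * (φ g1') ^ 2 * φ h0' + φ q1 * (φ g1) ^ 2 * φ h0 * (φ g1') ^ 3) * H.h3 + (-(φ q1) ^ 3 * (φ g1') ^ 4 - 2 * (φ q1) ^ 3 * (φ g1') ^ 2 * φ h0' * x ^ n * x ^ 2 + (φ q1) ^ 2 * φ q2 * (φ g1') ^ 4 * x + (φ q1) ^ 2 * φ b0 * φ f1' * (φ g1') ^ 2 * x ^ n * x ^ 2 + 5 * (φ q1) ^ 2 * φ g1 * (φ g1') ^ 2 * φ h0' * x ^ n * x ^ 2 - 4 * (φ q1) ^ 2 * φ h0 * (φ g1') ^ 3 * x ^ n * x ^ 2 + φ q1 * φ d1 * (φ g1') ^ 3 * φ h0' * x ^ n * x ^ 2 + 2 * φ q1 *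 φ b0 * φ f1 * (φ g1') ^ 3 * x ^ n * x ^ 2 - 2 * φ q1 * φ b0 * φ g1 * φ f1' * (φ g1') ^ 2 * x ^ n * x ^ 2 - 2 * φ q1 * φ b0 * (φ g1') ^ 4 * x ^ n * x - 2 * φ q1 * φ b1 * (φ g1') ^ 4 * x ^ n * x ^ 2 - 4 * φ q1 * (φ g1) ^ 2 * (φ g1') ^ 2 * φ h0' * x ^ n * x ^ 2 + 5 * φ q1 * φ g1 * φ h0 * (φ g1') ^ 3 * x ^ n * x ^ 2 + φ q2 * φ b0 * (φ g1') ^ 4 * x ^ n * x ^ 2 - φ d1 * φ g1 * (φ g1') ^ 3 * φ h0' * x ^ n * x ^ 2 + φ d1 * φ h0 * (φ g1') ^ 4 * x ^ n * x ^ 2 - 2 * φ b0 * φ f1 * φ g1 * (φ g1') ^ 3 * x ^ n * x ^ 2 + φ b0 * (φ g1) ^ 2 * φ f1' * (φ g1') ^ 2 * x ^ n * x ^ 2 + (φ g1) ^ 3 * (φ g1') ^ 2 * φ h0' * x ^ n * x ^ 2 - (φ g1) ^ 2 * φ h0 * (φ g1') ^ 3 * x ^ n * x ^ 2) * H.h2 + (-(φ q1) ^ 4 * (φ g1') ^ 3 * x - 2 * (φ q1) ^ 4 * φ g1'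 * φ h0' * x ^ n * x ^ 3 + (φ q1) ^ 3 * φ b0 * φ f1' * φ g1' * x ^ n * x ^ 3 + (φ q1) ^ 3 * φ g1 * (φ g1') ^ 3 * x + 7 * (φ q1) ^ 3 * φ g1 * φ g1' * φ h0' * x ^ n * x ^ 3 - 4 * (φ q1) ^ 3 * φ h0 * (φ g1') ^ 2 * x ^ n * x ^ 3 + (φ q1) ^ 3 * (φ g1') ^ 3 * y + (φ q1) ^ 2 * φ d1 * (φ g1') ^ 4 * x + (φ q1) ^ 2 * φ d1 * (φ g1') ^ 2 * φ h0' * x ^ n * x ^ 3 + 2 * (φ q1) ^ 2 * φ b0 * φ f1 * (φ g1') ^ 2 * x ^ n * x ^ 3 - 3 * (φ q1) ^ 2 * φ b0 * φ g1 * φ f1' * φ g1' * x ^ n * x ^ 3 - 2 * (φ q1) ^ 2 * φ b0 * (φ g1') ^ 3 * x ^ n * x ^ 2 - 2 * (φ q1) ^ 2 * φ b1 * (φ g1') ^ 3 * x ^ n * x ^ 3 - 9 * (φ q1) ^ 2 * (φ g1) ^ 2 * φ g1' * φ h0' * x ^ n * x ^ 3 + 9 * (φ q1) ^ 2 * φ g1 * φ h0 * (φ g1') ^ 2 * x ^ n * x ^ 3 - (φ q1) ^ 2 * φ g1 * (φ g1')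 ^ 3 * y + φ q1 * φ q2 * φ b0 * (φ g1') ^ 3 * x ^ n * x ^ 3 - 2 * φ q1 * φ d1 * φ g1 * (φ g1') ^ 2 * φ h0' * x ^ n * x ^ 3 + φ q1 * φ d1 * φ h0 * (φ g1') ^ 3 * x ^ n * x ^ 3 - 4 * φ q1 * φ b0 * φ f1 * φ g1 * (φ g1') ^ 2 * x ^ n * x ^ 3 + 3 * φ q1 * φ b0 * (φ g1) ^ 2 * φ f1' * φ g1' * x ^ n * x ^ 3 + 2 * φ q1 * φ b0 * φ g1 * (φ g1') ^ 3 * x ^ n * x ^ 2 + 2 * φ q1 * φ b1 * φ g1 * (φ g1') ^ 3 * x ^ n * x ^ 3 + 5 * φ q1 * (φ g1) ^ 3 * φ g1' * φ h0' * x ^ n * x ^ 3 - 6 * φ q1 * (φ g1) ^ 2 * φ h0 * (φ g1') ^ 2 * x ^ n * x ^ 3 - φ q2 * φ b0 * φ g1 * (φ g1') ^ 3 * x ^ n * x ^ 3 + φ d1 * (φ g1) ^ 2 * (φ g1') ^ 2 * φ h0' * x ^ n * x ^ 3 - φ d1 * φ g1 * φ h0 * (φ g1') ^ 3 * x ^ n * x ^ 3 + 2 * φ b0 * φ f1 * (φ g1) ^ 2 * (φ g1') ^ 2 * x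 ^ n * x ^ 3 - φ b0 * (φ g1) ^ 3 * φ f1' * φ g1' * x ^ n * x ^ 3 - (φ g1) ^ 4 * φ g1' * φ h0' * x ^ n * x ^ 3 + (φ g1) ^ 3 * φ h0 * (φ g1') ^ 2 * x ^ n * x ^ 3) * H.h1 + ((φ q1) ^ 2 * (φ g1') ^ 4 * x ^ 2) * H.hy

end Gor

end L32

end Pool.Agent.Lib.D13
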