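import Pool.Agent.Lib.D13.L32K1A
import Pool.Agent.Lib.D8.Axes

/-!
# MP_5dcbc3_ag: Jordan blocks of sizes `m + 5`, `3`, `2`: the Gorenstein algebras, `m` positive:
they are limits of curvilinear ones
-/

namespace Pool.Agent.Lib.D13

open Matrix Polynomial Pool.Agent.Lib.Q5dc Pool.Agent.Lib.D7

namespace L32

namespace Gor

variable {k R : Type*} [Field k] [CommRing R] [Algebra k R] {n : ℕ}
  {q1 q2 d1 b0 b1 b2 f1 g1 h0 h1 f1' g1' h0' h1' : k} {x y z X Y : R}
  (H : Gor (algebraMap k R) n q1 q2 d1 b0 b1 b2 f1 g1 h0 h1 f1' g1' h0' h1' x y z)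
  (hX : X = algebraMap k R g1' * y + algebraMap k R (q1 - g1) * z - algebraMap k R (q1 * g1') * x)
  (hY : Y = algebraMap k R g1' * y - algebraMap k R g1 * z)
include H

theorem xpy (j : ℕ) : x ^ (j + 3) * y = 0 := by
  rw [pow_add, mul_assoc, H.h2, mul_zero]

theorem xpz (j : ℕ) : x ^ (j + 2) * z = 0 := by
  rw [pow_add, mul_assoc, H.h1, mul_zero]

theorem xp (j : ℕ) : x ^ (n + 6 + j) = 0 := by
  rw [pow_add, H.h3, zero_mul]

include hX in
theorem xpow (j : ℕ) : X ^ (4 + j) =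
    algebraMap k R ((-(q1 * g1')) ^ (4 + j)) * x ^ (4 + j) +
      algebraMap k R (3 * q1 ^ 2 * b0 * g1' ^ 4 * (-(q1 * g1')) ^ j) * x ^ (n + 5 + j) := by
  induction j with
  | zero =>
    have h := H.x4 hX
    simp only [add_zero, pow_zero, mul_one]
    rw [h]
    congr 2
    congr 1
    ring
  | succ j ih =>
    have e1 : x ^ (4 + j) * y = 0 := by
      have := H.xpy (j + 1)
      rwa [show j + 1 + 3 = 4 + j by ring] at this
    have e2 : x ^ (4 + j) * z = 0 := by
      have := H.xpz (j + 2)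
      rwa [show j + 2 + 2 = 4 + j by ring] at this
    have e3 : x ^ (n + 5 + j) * y = 0 := by
      have := H.xpy (n + 2 + j)
      rwa [show n + 2 + j + 3 = n + 5 + j by ring] at this
    have e4 : x ^ (n + 5 + j) * z = 0 := by
      have := H.xpz (n + 3 + j)
      rwa [show n + 3 + j + 2 = n + 5 + j by ring] at this
    rw [show 4 + (j + 1) = 4 + j + 1 by ring, pow_succ X, ih, hX,
      show n + 5 + (j + 1) = n + 5 + j + 1 by ring]
    simp only [map_sub, map_mul, map_pow, map_neg, map_ofNat, pow_succ _ (4 + j), pow_succ _ j,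
      pow_succ _ (n + 5 + j)]
    generalize algebraMap k R q1 = q1
    generalize algebraMap k R g1' = g1'
    generalize algebraMap k R g1 = g1
    generalize algebraMap k R b0 = b0
    linear_combination
      ((-(q1 * g1')) ^ (4 + j) * g1') * e1 + ((-(q1 * g1')) ^ (4 + j) * (q1 - g1)) * e2 +
      (3 * q1 ^ 2 * b0 * g1' ^ 4 * (-(q1 * g1')) ^ j * g1') * e3 +
      (3 * q1 ^ 2 * b0 * g1' ^ 4 * (-(q1 * g1')) ^ j * (q1 - g1)) * e4

section mem

variable {S : Submodule k R}

/-- the powers of `x` above the socle -/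
theorem mem_top (hσ : x ^ (n + 5) ∈ S) (j : ℕ) : x ^ (n + 5 + j) ∈ S := by
  rcases j with _ | j
  · exact hσ
  · have := H.xp j
    rw [show n + 5 + (j + 1) = n + 6 + j by ring, this]
    exact zero_mem _

include hX in
theorem mem_pow (hq1 : q1 ≠ 0) (hg1 : g1' ≠ 0) (hσ : x ^ (n + 5) ∈ S) (j : ℕ)
    (h : X ^ (4 + j) ∈ S) : x ^ (4 + j) ∈ S := by
  refine mem_of_comb (κ := (-(q1 * g1')) ^ (4 + j)) (pow_ne_zero _ (neg_ne_zero.2
    (mul_ne_zero hq1 hg1))) ![1, -(3 * q1 ^ 2 * b0 * g1' ^ 4 * (-(q1 * g1')) ^ j)]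
    ![X ^ (4 + j), x ^ (n + 5 + j)] (fun i => ?_) ?_
  · fin_cases i
    · exact h
    · exact H.mem_top hσ j
  · rw [Fin.sum_univ_two]
    show _ = algebraMap k R 1 * X ^ (4 + j) +
      algebraMap k R (-(3 * q1 ^ 2 * b0 * g1' ^ 4 * (-(q1 * g1')) ^ j)) * x ^ (n + 5 + j)
    rw [map_neg, map_one]
    linear_combination -H.xpow hX j

include hX in
theorem mem_x4 (hq1 : q1 ≠ 0) (hg1 : g1' ≠ 0) (hσ : x ^ (n + 5) ∈ S) (h : X ^ (n + 4) ∈ S) :
    x ^ (n + 4) ∈ S := by
  rw [show n + 4 = 4 + n by ring] at h ⊢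
  exact H.mem_pow hX hq1 hg1 hσ n h

include hY in
theorem mem_xxy (hq1 : q1 ≠ 0) (hg1 : g1' ≠ 0) (hσ : x ^ (n + 5) ∈ S) (h4 : x ^ (n + 4) ∈ S)
    (h : Y ^ 3 ∈ S) : x ^ 2 * y ∈ S := by
  have h1 := H.y3 hY
  have h2 : algebraMap k R (q1 ^ 2 * g1' ^ 3) * (x ^ 2 * y) ∈ S := by
    rw [add_assoc] at h1
    rw [← sub_eq_iff_eq_add.2 h1]
    refine sub_mem h (add_mem ?_ ?_)
    · rw [← Algebra.smul_def]
      exact S.smul_mem _ hσ
    · rw [← Algebra.smul_def]
      exact S.smul_mem _ h4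
  rw [← Algebra.smul_def] at h2
  exact (Submodule.smul_mem_iff S (mul_ne_zero (pow_ne_zero 2 hq1) (pow_ne_zero 3 hg1))).1 h2

include hX in
theorem mem_x3 (hq1 : q1 ≠ 0) (hg1 : g1' ≠ 0) (hσ : x ^ (n + 5) ∈ S) (h4 : x ^ (n + 4) ∈ S)
    (h5 : x ^ 2 * y ∈ S) (j : ℕ) (hj : 3 ≤ j) (h : X ^ j ∈ S) : x ^ j ∈ S := by
  rcases Nat.lt_or_ge j 4 with hj' | hj'
  · have hj3 : j = 3 := by omega
    subst hj3
    have h1 := H.x3 hX
    have h2 : algebraMap k R (-q1 ^ 3 * g1' ^ 3) * (x ^ 3) ∈ S := by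
      rw [add_assoc, add_assoc] at h1
      rw [← sub_eq_iff_eq_add.2 h1]
      refine sub_mem h (add_mem ?_ (add_mem ?_ ?_))
      · rw [← Algebra.smul_def]
        exact S.smul_mem _ h5
      · rw [← Algebra.smul_def]
        exact S.smul_mem _ hσ
      · rw [← Algebra.smul_def]
        exact S.smul_mem _ h4
    rw [← Algebra.smul_def] at h2
    exact (Submodule.smul_mem_iff S (mul_ne_zero (neg_ne_zero.2 (pow_ne_zero 3 hq1))
      (pow_ne_zero 3 hg1))).1 h2
  · obtain ⟨i, rfl⟩ : ∃ i, j = 4 + i := ⟨j - 4, by omega⟩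
    exact H.mem_pow hX hq1 hg1 hσ i h

end mem

/-- the monomials are in the span of the powers -/
theorem mem_all (hX : X = algebraMap k R g1' * y + algebraMap k R (q1 - g1) * z -
      algebraMap k R (q1 * g1') * x)
    (hY : Y = algebraMap k R g1' * y - algebraMap k R g1 * z)
    (hq1 : q1 ≠ 0) (hg1 : g1' ≠ 0) {S : Submodule k R} (hone : (1 : R) ∈ S)
    (hσ : x ^ (n + 5) ∈ S) (hXS : ∀ j, 1 ≤ j → j < n + 5 → X ^ j ∈ S)
    (hYS : ∀ j, 1 ≤ j → j < 4 → Y ^ j ∈ S) (hZS : ∀ j, 1 ≤ j → j < 3 → z ^ j ∈ S) :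
    (∀ j, x ^ j ∈ S) ∧ (∀ j, x ^ j * y ∈ S) ∧ (∀ j, x ^ j * z ∈ S) := by
  have hs : ∀ (c : k) {r : R}, r ∈ S → algebraMap k R c * r ∈ S := by
    intro c r hr
    rw [← Algebra.smul_def]
    exact S.smul_mem _ hr
  have hinv : ∀ {c : k} {r : R}, c ≠ 0 → algebraMap k R c * r ∈ S → r ∈ S := by
    intro c r hc hr
    rw [← Algebra.smul_def] at hr
    exact (Submodule.smul_mem_iff S hc).1 hr
  have h4 : x ^ (n + 4) ∈ S := H.mem_x4 hX hq1 hg1 hσ (hXS _ (by omega) (by omega))
  have hxxy : x ^ 2 * y ∈ S := H.mem_xxy hY hq1 hg1 hσ h4 (hYS 3 (by norm_num) (by norm_num))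
  have hx3 : ∀ j, 3 ≤ j → x ^ j ∈ S := by
    intro j hj
    rcases Nat.lt_or_ge j (n + 5) with h | h
    · exact H.mem_x3 hX hq1 hg1 hσ h4 hxxy j hj (hXS j (by omega) h)
    · obtain ⟨i, rfl⟩ : ∃ i, j = n + 5 + i := ⟨j - (n + 5), by omega⟩
      exact H.mem_top hσ i
  have hxz : x * z ∈ S := by
    refine hinv hg1 ?_
    have e : algebraMap k R g1' * (x * z) = z ^ 2 - (algebraMap k R f1' * (x ^ 2 * y) +
        algebraMap k R h1' * x ^ (n + 5) + algebraMap k R h0' * x ^ (n + 4)) := by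
      rw [H.zz]
      ring
    rw [e]
    exact sub_mem (hZS 2 (by norm_num) (by norm_num)) (add_mem (add_mem (hs _ hxxy) (hs _ hσ))
      (hs _ h4))
  have hxy : x * y ∈ S := by
    refine hinv (mul_ne_zero hq1 (pow_ne_zero 2 hg1)) (?_ :
      algebraMap k R (q1 * g1' ^ 2) * (x * y) ∈ S)
    have e := H.y2 hY
    have e' : algebraMap k R (q1 * g1' ^ 2) * (x * y) = Y ^ 2 -
        (algebraMap k R (q2 * g1' ^ 2 - 2 * f1 * g1 * g1' + g1 ^ 2 * f1') * (x ^ 2 * y) +
        algebraMap k R (d1 * g1' ^ 2 - g1 ^ 2 * g1') * (x * z) +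
        algebraMap k R (b2 * g1' ^ 2 + g1 ^ 2 * h1' - 2 * g1 * h1 * g1') * (x ^ (n + 5)) +
        algebraMap k R (b1 * g1' ^ 2 + g1 ^ 2 * h0' - 2 * g1 * h0 * g1') * (x ^ (n + 4)) +
        algebraMap k R (b0 * g1' ^ 2) * (x ^ (n + 3))) := by
      rw [e]
      ring
    rw [e']
    exact sub_mem (hYS 2 (by norm_num) (by norm_num)) (add_mem (add_mem (add_mem (add_mem
      (hs _ hxxy) (hs _ hxz)) (hs _ hσ)) (hs _ h4)) (hs _ (hx3 _ (by omega))))
  have hxx : x ^ 2 ∈ S := by
    refine hinv (mul_ne_zero (pow_ne_zero 2 hq1) (pow_ne_zero 2 hg1)) (?_ :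
      algebraMap k R (q1 ^ 2 * g1' ^ 2) * (x ^ 2) ∈ S)
    have e := H.x2 hX
    have e' : algebraMap k R (q1 ^ 2 * g1' ^ 2) * (x ^ 2) = X ^ 2 -
        (algebraMap k R (q1 ^ 2 * f1' + 2 * q1 * f1 * g1' - 2 * q1 * g1 * f1' + q2 * g1' ^ 2 -
          2 * f1 * g1 * g1' + g1 ^ 2 * f1') * (x ^ 2 * y) +
        algebraMap k R (-q1 * g1' ^ 2) * (x * y) +
        algebraMap k R (-q1 ^ 2 * g1' + 2 * q1 * g1 * g1' + d1 * g1' ^ 2 - g1 ^ 2 * g1') * (x * z) +
        algebraMap k R (q1 ^ 2 * h1' - 2 * q1 * g1 * h1' + 2 * q1 * h1 * g1' + b2 * g1' ^ 2 +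
          g1 ^ 2 * h1' - 2 * g1 * h1 * g1') * (x ^ (n + 5)) +
        algebraMap k R (q1 ^ 2 * h0' - 2 * q1 * g1 * h0' + 2 * q1 * h0 * g1' + b1 * g1' ^ 2 +
          g1 ^ 2 * h0' - 2 * g1 * h0 * g1') * (x ^ (n + 4)) +
        algebraMap k R (b0 * g1' ^ 2) * (x ^ (n + 3))) := by
      rw [e]
      ring
    rw [e']
    exact sub_mem (hXS 2 (by norm_num) (by omega)) (add_mem (add_mem (add_mem (add_mem (add_mem
      (hs _ hxxy) (hs _ hxy)) (hs _ hxz)) (hs _ hσ)) (hs _ h4)) (hs _ (hx3 _ (by omega))))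
  have hz : z ∈ S := by
    have := hZS 1 (by norm_num) (by norm_num)
    rwa [pow_one] at this
  have hy : y ∈ S := by
    refine hinv hg1 ?_
    have h1 := hYS 1 (by norm_num) (by norm_num)
    rw [pow_one] at h1
    have e : algebraMap k R g1' * y = Y + algebraMap k R g1 * z := by
      rw [hY]
      ring
    rw [e]
    exact add_mem h1 (hs _ hz)
  have hx : x ∈ S := by
    refine hinv (mul_ne_zero hq1 hg1) (?_ : algebraMap k R (q1 * g1') * x ∈ S)
    have h1 := hXS 1 (by norm_num) (by omega)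
    rw [pow_one] at h1
    have e : algebraMap k R (q1 * g1') * x = algebraMap k R g1' * y +
        algebraMap k R (q1 - g1) * z - X := by
      rw [hX]
      ring
    rw [e]
    exact sub_mem (add_mem (hs _ hy) (hs _ hz)) h1
  refine ⟨fun j => ?_, fun j => ?_, fun j => ?_⟩
  · match j with
    | 0 => rw [pow_zero]; exact hone
    | 1 => rw [pow_one]; exact hx
    | 2 => exact hxx
    | j + 3 => exact hx3 _ (by omega)
  · match j with
    | 0 => rw [pow_zero, one_mul]; exact hy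
    | 1 => rw [pow_one]; exact hxy
    | 2 => exact hxxy
    | j + 3 => rw [H.xpy]; exact zero_mem _
  · match j with
    | 0 => rw [pow_zero, one_mul]; exact hz
    | 1 => rw [pow_one]; exact hxz
    | j + 2 => rw [H.xpz]; exact zero_mem _

/-- the Gorenstein algebras for positive `m = n + 1` are limits of curvilinear ones -/
theorem cl [IsAlgClosed k] [CharZero k] {N : ℕ} (hN : N = n + 11)
    (ρ : R →ₐ[k] Matrix (Fin N) (Fin N) k) (v : Fin N → k)
    (hsp : ∀ u, ∃ p q r : k[X], ρ (aeval x p + aeval x q * y + aeval x r * z) *ᵥ v = u)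
    (hb0 : b0 ≠ 0) (hq1 : q1 ≠ 0) (hg1 : g1' ≠ 0) (hh0 : h0' ≠ 0) :
    Cl ![ρ x, ρ y, ρ z] := by
  obtain ⟨X, hX⟩ : ∃ X, X = algebraMap k R g1' * y + algebraMap k R (q1 - g1) * z -
    algebraMap k R (q1 * g1') * x := ⟨_, rfl⟩
  obtain ⟨Y, hY⟩ : ∃ Y, Y = algebraMap k R g1' * y - algebraMap k R g1 * z := ⟨_, rfl⟩
  have hs : ∀ (S : Submodule k R) (c : k) {r : R}, r ∈ S → algebraMap k R c * r ∈ S := by
    intro S c r hr
    rw [← Algebra.smul_def]
    exact S.smul_mem _ hr
  have key : Cl fun i => ρ (![X, Y, z] i) := by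
    refine cl_tpqr_ring ρ v ![n + 5, 4, 3] ![12, 3 * (n + 5), 4 * (n + 5)] (12 * (n + 5)) ?_ ?_ ?_
      ?_ ![X, Y, z] (x ^ (n + 5)) ?_ ?_ ?_ ?_
    · intro i
      fin_cases i
      · show 3 ≤ n + 5
        omega
      · show 3 ≤ 4
        norm_num
      · show 3 ≤ 3
        norm_num
    · intro i
      fin_cases i
      · show 1 ≤ 12
        norm_num
      · show 1 ≤ 3 * (n + 5)
        omega
      · show 1 ≤ 4 * (n + 5)
        omega
    · intro i
      fin_cases i
      · show (n + 5) * 12 = 12 * (n + 5)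
        ring
      · show 4 * (3 * (n + 5)) = 12 * (n + 5)
        ring
      · show 3 * (4 * (n + 5)) = 12 * (n + 5)
        ring
    · rw [Fintype.card_fin, hN]
      rfl
    · -- the powers span
      intro u
      obtain ⟨p, q, r, rfl⟩ := hsp u
      refine ⟨_, ?_, rfl⟩
      set S := Submodule.span k ({1} ∪ {x ^ (n + 5)} ∪
        {r : R | ∃ i m, 1 ≤ m ∧ m < (![n + 5, 4, 3] : Fin 3 → ℕ) i ∧
          r = (![X, Y, z] : Fin 3 → R) i ^ m}) with hS
      obtain ⟨a1, a2, a3⟩ := H.mem_all hX hY hq1 hg1 (S := S)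
        (Submodule.subset_span (Or.inl (Or.inl rfl)))
        (Submodule.subset_span (Or.inl (Or.inr rfl)))
        (fun j h1 h2 => Submodule.subset_span (Or.inr ⟨0, j, h1, h2, rfl⟩))
        (fun j h1 h2 => Submodule.subset_span (Or.inr ⟨1, j, h1, h2, rfl⟩))
        (fun j h1 h2 => Submodule.subset_span (Or.inr ⟨2, j, h1, h2, rfl⟩))
      have hp : ∀ (p : k[X]) (t : R), (∀ j, x ^ j * t ∈ S) → aeval x p * t ∈ S := by
        intro p t ht
        rw [aeval_eq_sum_range, Finset.sum_mul]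
        refine Submodule.sum_mem _ fun j _ => ?_
        rw [smul_mul_assoc]
        exact S.smul_mem _ (ht j)
      refine add_mem (add_mem ?_ (hp q y a2)) (hp r z a3)
      have := hp p 1 (by
        intro j
        rw [mul_one]
        exact a1 j)
      rwa [mul_one] at this
    · have e1 : x * x ^ (n + 5) = 0 := by
        have := H.h3
        rw [← pow_succ']
        exact this
      have e2 : y * x ^ (n + 5) = 0 := by
        rw [mul_comm]
        exact H.xpy (n + 2)
      have e3 : z * x ^ (n + 5) = 0 := by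
        rw [mul_comm]
        exact H.xpz (n + 3)
      intro i
      fin_cases i
      · show X * x ^ (n + 5) = 0
        rw [hX]
        linear_combination (algebraMap k R g1') * e2 + algebraMap k R (q1 - g1) * e3 -
          algebraMap k R (q1 * g1') * e1
      · show Y * x ^ (n + 5) = 0
        rw [hY]
        linear_combination (algebraMap k R g1') * e2 - algebraMap k R g1 * e3
      · exact e3
    · intro i
      fin_cases i
      · refine ⟨(-(q1 * g1')) ^ (4 + (n + 1)), pow_ne_zero _ (neg_ne_zero.2 (mul_ne_zero hq1 hg1)),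
          ?_⟩
        show X ^ (n + 5) = _
        have h1 := H.xpow hX (n + 1)
        have h2 := H.xp n
        rw [show n + 5 + (n + 1) = n + 6 + n by ring, h2, mul_zero, add_zero] at h1
        rw [show n + 5 = 4 + (n + 1) by ring]
        exact h1
      · refine ⟨q1 ^ 2 * b0 * g1' ^ 4, mul_ne_zero (mul_ne_zero (pow_ne_zero 2 hq1) hb0)
          (pow_ne_zero 4 hg1), ?_⟩
        exact H.y4 hY
      · exact ⟨g1' * h0', mul_ne_zero hg1 hh0, H.zzz⟩
    · -- the products
      have hmem : ∀ (w : ℕ) (S : Submodule k R), S = Submodule.span k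
          ({x ^ (n + 5)} ∪ {r : R | ∃ l m, m < (![n + 5, 4, 3] : Fin 3 → ℕ) l ∧
            w < m * (![12, 3 * (n + 5), 4 * (n + 5)] : Fin 3 → ℕ) l ∧
            r = (![X, Y, z] : Fin 3 → R) l ^ m}) → w ≤ 7 * (n + 5) → w ≤ 12 * n + 43 →
          x ^ (n + 5) ∈ S ∧ x ^ (n + 4) ∈ S ∧ x ^ 2 * y ∈ S := by
        intro w S hS h1 h2
        have hσ : x ^ (n + 5) ∈ S := by
          rw [hS]
          exact Submodule.subset_span (Or.inl rfl)
        have h4 : x ^ (n + 4) ∈ S := by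
          refine H.mem_x4 hX hq1 hg1 hσ ?_
          rw [hS]
          refine Submodule.subset_span (Or.inr ⟨0, n + 4, ?_, ?_, rfl⟩)
          · show n + 4 < n + 5
            omega
          · show w < (n + 4) * 12
            omega
        refine ⟨hσ, h4, H.mem_xxy hY hq1 hg1 hσ h4 ?_⟩
        rw [hS]
        refine Submodule.subset_span (Or.inr ⟨1, 3, ?_, ?_, rfl⟩)
        · show 3 < 4
          norm_num
        · show w < 3 * (3 * (n + 5))
          omega
      have hXZ : ∀ S : Submodule k R, S = Submodule.span k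
          ({x ^ (n + 5)} ∪ {r : R | ∃ l m, m < (![n + 5, 4, 3] : Fin 3 → ℕ) l ∧
            12 + 4 * (n + 5) < m * (![12, 3 * (n + 5), 4 * (n + 5)] : Fin 3 → ℕ) l ∧
            r = (![X, Y, z] : Fin 3 → R) l ^ m}) → X * z ∈ S := by
        intro S hS
        obtain ⟨a1, a2, a3⟩ := hmem _ S hS (by omega) (by omega)
        rw [H.xz hX]
        exact add_mem (add_mem (hs S _ a3) (hs S _ a1)) (hs S _ a2)
      have hYZ : ∀ S : Submodule k R, S = Submodule.span k
          ({x ^ (n + 5)} ∪ {r : R | ∃ l m, m < (![n + 5, 4, 3] : Fin 3 → ℕ) l ∧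
            3 * (n + 5) + 4 * (n + 5) < m * (![12, 3 * (n + 5), 4 * (n + 5)] : Fin 3 → ℕ) l ∧
            r = (![X, Y, z] : Fin 3 → R) l ^ m}) → Y * z ∈ S := by
        intro S hS
        obtain ⟨a1, a2, a3⟩ := hmem _ S hS (by omega) (by omega)
        rw [H.yz hY]
        exact add_mem (add_mem (hs S _ a3) (hs S _ a1)) (hs S _ a2)
      have hXY : ∀ S : Submodule k R, S = Submodule.span k
          ({x ^ (n + 5)} ∪ {r : R | ∃ l m, m < (![n + 5, 4, 3] : Fin 3 → ℕ) l ∧
            12 + 3 * (n + 5) < m * (![12, 3 * (n + 5), 4 * (n + 5)] : Fin 3 → ℕ) l ∧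
            r = (![X, Y, z] : Fin 3 → R) l ^ m}) → X * Y ∈ S := by
        intro S hS
        obtain ⟨a1, a2, a3⟩ := hmem _ S hS (by omega) (by omega)
        have a4 : x ^ (n + 3) ∈ S := by
          refine H.mem_x3 hX hq1 hg1 a1 a2 a3 _ (by omega) ?_
          rw [hS]
          refine Submodule.subset_span (Or.inr ⟨0, n + 3, ?_, ?_, rfl⟩)
          · show n + 3 < n + 5
            omega
          · show 12 + 3 * (n + 5) < (n + 3) * 12
            omega
        have a5 : z ^ 2 ∈ S := by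
          rw [hS]
          refine Submodule.subset_span (Or.inr ⟨2, 2, ?_, ?_, rfl⟩)
          · show 2 < 3
            norm_num
          · show 12 + 3 * (n + 5) < 2 * (4 * (n + 5))
            omega
        have a6 : x * z ∈ S := by
          have e : algebraMap k R g1' * (x * z) = z ^ 2 - (algebraMap k R f1' * (x ^ 2 * y) +
              algebraMap k R h1' * x ^ (n + 5) + algebraMap k R h0' * x ^ (n + 4)) := by
            rw [H.zz]
            ring
          have h2 : algebraMap k R g1' * (x * z) ∈ S := by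
            rw [e]
            exact sub_mem a5 (add_mem (add_mem (hs S _ a3) (hs S _ a1)) (hs S _ a2))
          rw [← Algebra.smul_def] at h2
          exact (Submodule.smul_mem_iff S hg1).1 h2
        rw [H.xy hX hY]
        exact add_mem (add_mem (add_mem (add_mem (hs S _ a3) (hs S _ a6)) (hs S _ a1))
          (hs S _ a2)) (hs S _ a4)
      intro i j hij
      fin_cases i <;> fin_cases j
      · exact absurd hij (lt_irrefl _)
      · exact hXY _ rfl
      · exact hXZ _ rfl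
      · exact absurd hij (by decide)
      · exact absurd hij (lt_irrefl _)
      · exact hYZ _ rfl
      · exact absurd hij (by decide)
      · exact absurd hij (by decide)
      · exact absurd hij (lt_irrefl _)
  -- back to `x`, `y`, `z`
  have m0 : ρ X ∈ adj fun i => ρ (![X, Y, z] i) := mem_adj (fun i => ρ (![X, Y, z] i)) 0
  have m1 : ρ Y ∈ adj fun i => ρ (![X, Y, z] i) := mem_adj (fun i => ρ (![X, Y, z] i)) 1
  have m2 : ρ z ∈ adj fun i => ρ (![X, Y, z] i) := mem_adj (fun i => ρ (![X, Y, z] i)) 2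
  have hy' : ρ y = g1'⁻¹ • (ρ Y + g1 • ρ z) := by
    rw [hY, map_sub, map_mul, map_mul, AlgHom.commutes, AlgHom.commutes, ← Algebra.smul_def,
      ← Algebra.smul_def, sub_add_cancel, smul_smul, inv_mul_cancel₀ hg1, one_smul]
  have my : ρ y ∈ adj fun i => ρ (![X, Y, z] i) := by
    rw [hy']
    exact SMulMemClass.smul_mem _ (add_mem m1 (SMulMemClass.smul_mem _ m2))
  have hx' : ρ x = (q1 * g1')⁻¹ • (g1' • ρ y + (q1 - g1) • ρ z - ρ X) := by
    have e : ρ X = g1' • ρ y + (q1 - g1) • ρ z - (q1 * g1') • ρ x := by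
      rw [hX, map_sub, map_add, map_mul, map_mul, map_mul, AlgHom.commutes, AlgHom.commutes,
        AlgHom.commutes, ← Algebra.smul_def, ← Algebra.smul_def, ← Algebra.smul_def]
    rw [e, sub_sub_cancel, smul_smul, inv_mul_cancel₀ (mul_ne_zero hq1 hg1), one_smul]
  have mx : ρ x ∈ adj fun i => ρ (![X, Y, z] i) := by
    rw [hx']
    exact SMulMemClass.smul_mem _ (sub_mem (add_mem (SMulMemClass.smul_mem _ my)
      (SMulMemClass.smul_mem _ m2)) m0)
  refine cl_of_adj (fun i => ?_) key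
  fin_cases i
  · exact mx
  · exact my
  · exact m2

end Gor

end L32

end Pool.Agent.Lib.D13
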