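import Pool.Agent.Lib.D13.TpqrRing

/-!
# MP_5dcbc3_ag: Jordan blocks of sizes `5`, `3`, `2`: the Gorenstein algebras
-/

set_option linter.unusedSimpArgs false

namespace Pool.Agent.Lib.D13

namespace L32

/-- the relations of the algebra (`5`, `3`, `2`) -/
structure Gor0 {k R : Type*} [Field k] [CommRing R] (φ : k →+* R)
    (r t q2 d1 b1 b2 f1 g1 h0 h1 f1' g1' h0' h1' : k) (x y z : R) : Prop where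
  hy : y * y = (φ r + φ t) * x * y + φ q2 * x ^ 2 * y + φ d1 * x * z +
    x ^ 2 * (-(φ r * φ t) + φ b1 * x + φ b2 * x ^ 2)
  hyz : y * z = φ f1 * x ^ 2 * y + φ g1 * x * z + x ^ 3 * (φ h0 + φ h1 * x)
  hz : z * z = φ f1' * x ^ 2 * y + φ g1' * x * z + x ^ 3 * (φ h0' + φ h1' * x)
  h1 : x ^ 2 * z = 0
  h2 : x ^ 3 * y = 0
  h3 : x ^ 5 = 0

namespace Gor0

variable {k R : Type*} [Field k] [CommRing R] {φ : k →+* R}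
  {r t q2 d1 b1 b2 f1 g1 h0 h1 f1' g1' h0' h1' : k} {x y z X Y : R}
  (H : Gor0 φ r t q2 d1 b1 b2 f1 g1 h0 h1 f1' g1' h0' h1' x y z)
  (hX : X = φ g1' * y + φ (t - g1) * z - φ (t * g1') * x)
  (hY : Y = φ g1' * y + φ (r - g1) * z - φ (r * g1') * x)
include H


theorem zz : z ^ 2 =
      φ (f1') * (x ^ 2 * y) +
      φ (h0') * (x ^ 3) +
      φ (h1') * (x ^ 4) +
      φ (g1') * (x * z) := by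
  linear_combination (1) * H.hz

theorem zzz : z ^ 3 =
      φ (g1' * h0') * (x ^ 4) := by
  simp only [map_add, map_sub, map_mul, map_pow, map_neg, map_ofNat]
  linear_combination (φ g1' * φ h1') * H.h3 + (φ f1' * φ g1') * H.h2 + (φ f1' * y + (φ g1') ^ 2 + φ h0' * x + φ h1' * x ^ 2) * H.h1 + (φ g1' * x + z) * H.hz

include hX in
theorem xz : X * z =
      φ (t * f1' + f1 * g1' - g1 * f1') * (x ^ 2 * y) +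
      φ (t * h0' - g1 * h0' + h0 * g1') * (x ^ 3) +
      φ (t * h1' - g1 * h1' + h1 * g1') * (x ^ 4) := by
  subst hX
  simp only [map_add, map_sub, map_mul, map_pow, map_neg, map_ofNat]
  linear_combination (φ g1') * H.hyz + (φ t - φ g1) * H.hz

include hX hY in
theorem xy : X * Y =
      φ (r * t * f1' + r * f1 * g1' - r * g1 * f1' + t * f1 * g1' - t * g1 * f1' + q2 * g1' ^ 2 - 2 * f1 * g1 * g1' + g1 ^ 2 * f1') * (x ^ 2 * y) +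
      φ (r * t * h0' - r * g1 * h0' + r * h0 * g1' - t * g1 * h0' + t * h0 * g1' + b1 * g1' ^ 2 + g1 ^ 2 * h0' - 2 * g1 * h0 * g1') * (x ^ 3) +
      φ (r * t * h1' - r * g1 * h1' + r * h1 * g1' - t * g1 * h1' + t * h1 * g1' + b2 * g1' ^ 2 + g1 ^ 2 * h1' - 2 * g1 * h1 * g1') * (x ^ 4) +
      φ (-r * t * g1' + r * g1 * g1' + t * g1 * g1' + d1 * g1' ^ 2 - g1 ^ 2 * g1') * (x * z) := by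
  subst hX hY
  simp only [map_add, map_sub, map_mul, map_pow, map_neg, map_ofNat]
  linear_combination ((φ g1') ^ 2) * H.hy + (φ r * φ g1' + φ t * φ g1' - 2 * φ g1 * φ g1') * H.hyz + (φ r * φ t - φ r * φ g1 - φ t * φ g1 + (φ g1) ^ 2) * H.hz

include hX in
theorem x2 : X ^ 2 =
      φ (r * g1' ^ 2 - t * g1' ^ 2) * (x * y) +
      φ (t ^ 2 * f1' + 2 * t * f1 * g1' - 2 * t * g1 * f1' + q2 * g1' ^ 2 - 2 * f1 * g1 * g1' + g1 ^ 2 * f1') * (x ^ 2 * y) +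
      φ (-r * t * g1' ^ 2 + t ^ 2 * g1' ^ 2) * (x ^ 2) +
      φ (t ^ 2 * h0' - 2 * t * g1 * h0' + 2 * t * h0 * g1' + b1 * g1' ^ 2 + g1 ^ 2 * h0' - 2 * g1 * h0 * g1') * (x ^ 3) +
      φ (t ^ 2 * h1' - 2 * t * g1 * h1' + 2 * t * h1 * g1' + b2 * g1' ^ 2 + g1 ^ 2 * h1' - 2 * g1 * h1 * g1') * (x ^ 4) +
      φ (-t ^ 2 * g1' + 2 * t * g1 * g1' + d1 * g1' ^ 2 - g1 ^ 2 * g1') * (x * z) := by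
  subst hX
  simp only [map_add, map_sub, map_mul, map_pow, map_neg, map_ofNat]
  linear_combination ((φ g1') ^ 2) * H.hy + (2 * φ t * φ g1' - 2 * φ g1 * φ g1') * H.hyz + ((φ t) ^ 2 - 2 * φ t * φ g1 + (φ g1) ^ 2) * H.hz

include hX in
theorem x3 : X ^ 3 =
      φ (r ^ 2 * g1' ^ 3 - 2 * r * t * g1' ^ 3 + t ^ 2 * g1' ^ 3) * (x ^ 2 * y) +
      φ (-r ^ 2 * t * g1' ^ 3 + 2 * r * t ^ 2 * g1' ^ 3 - t ^ 3 * g1' ^ 3) * (x ^ 3) +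
      φ (-r * t ^ 3 * f1' * g1' - 2 * r * t ^ 2 * f1 * g1' ^ 2 + 2 * r * t ^ 2 * g1 * f1' * g1' - r * t * q2 * g1' ^ 3 + 2 * r * t * f1 * g1 * g1' ^ 2 - r * t * g1 ^ 2 * f1' * g1' + r * t * h0 * g1' ^ 2 + r * b1 * g1' ^ 3 - r * g1 * h0 * g1' ^ 2 - 2 * t ^ 3 * g1' * h0' + 5 * t ^ 2 * g1 * g1' * h0' - 4 * t ^ 2 * h0 * g1' ^ 2 + t * d1 * g1' ^ 2 * h0' - 2 * t * b1 * g1' ^ 3 - 4 * t * g1 ^ 2 * g1' * h0' + 5 * t * g1 * h0 * g1' ^ 2 - d1 * g1 * g1' ^ 2 * h0' + d1 * h0 * g1' ^ 3 + g1 ^ 3 * g1' * h0' - g1 ^ 2 * h0 * g1' ^ 2) * (x ^ 4) := by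
  have h := H.x2 hX
  subst hX
  simp only [map_add, map_sub, map_mul, map_pow, map_neg, map_ofNat] at h ⊢
  linear_combination (φ g1' * y + (φ t - φ g1) * z - φ t * φ g1' * x) * h + (φ r * φ t * φ h1 * (φ g1') ^ 2 + φ r * φ b2 * (φ g1') ^ 3 - φ r * φ g1 * φ h1 * (φ g1') ^ 2 - 2 * (φ t) ^ 3 * φ g1' * φ h1' + (φ t) ^ 2 * φ b1 * φ f1' * φ g1' + (φ t) ^ 2 * φ b2 * φ f1' * φ g1' * x + 5 * (φ t) ^ 2 * φ g1 * φ g1' * φ h1' - 4 * (φ t) ^ 2 * φ h1 * (φ g1') ^ 2 + φ t * φ d1 * (φ g1') ^ 2 * φ h1' + 2 * φ t * φ b1 * φ f1 * (φ g1') ^ 2 - 2 * φ t * φ b1 * φ g1 * φ f1' * φ g1' + 2 * φ t * φ b2 * φ f1 * (φ g1') ^ 2 * x - 2 * φ t * φ b2 * φ g1 * φ f1' * φ g1' * x - 2 * φ t * φ b2 * (φ g1') ^ 3 - 4 * φ t * (φ g1) ^ 2 * φ g1' * φ h1' + 5 * φ t * φ g1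 * φ h1 * (φ g1') ^ 2 + φ q2 * φ b1 * (φ g1') ^ 3 + φ q2 * φ b2 * (φ g1') ^ 3 * x - φ d1 * φ g1 * (φ g1') ^ 2 * φ h1' + φ d1 * φ h1 * (φ g1') ^ 3 - 2 * φ b1 * φ f1 * φ g1 * (φ g1') ^ 2 + φ b1 * (φ g1) ^ 2 * φ f1' * φ g1' - 2 * φ b2 * φ f1 * φ g1 * (φ g1') ^ 2 * x + φ b2 * (φ g1) ^ 2 * φ f1' * φ g1' * x + (φ g1) ^ 3 * φ g1' * φ h1' - (φ g1) ^ 2 * φ h1 * (φ g1') ^ 2) * H.h3 + (φ r * (φ t) ^ 2 * φ f1' * φ g1' + 3 * φ r * φ t * φ f1 * (φ g1') ^ 2 - 2 * φ r * φ t * φ g1 * φ f1' * φ g1' + 2 * φ r * φ q2 * (φ g1') ^ 3 - 3 * φ r * φ f1 * φ g1 * (φ g1') ^ 2 + φ r * (φ g1) ^ 2 * φ f1' * φ g1' - (φ t) ^ 3 * φ f1' * φ g1' + (φ t) ^ 2 * φ q2 * φ f1' * φ g1' * x - 2 * (φ t) ^ 2 * φ f1 * (φ g1') ^ 2 + 3 * (φ t) ^ 2 * φ g1 * φ f1' * φ g1' + (φ t) ^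 2 * φ g1' * φ h0' + (φ t) ^ 2 * φ g1' * φ h1' * x + 2 * φ t * φ q2 * φ f1 * (φ g1') ^ 2 * x - 2 * φ t * φ q2 * φ g1 * φ f1' * φ g1' * x - φ t * φ q2 * (φ g1') ^ 3 + φ t * φ d1 * φ f1' * (φ g1') ^ 2 + 3 * φ t * φ f1 * φ g1 * (φ g1') ^ 2 - 3 * φ t * (φ g1) ^ 2 * φ f1' * φ g1' - 2 * φ t * φ g1 * φ g1' * φ h0' - 2 * φ t * φ g1 * φ g1' * φ h1' * x + 2 * φ t * φ h0 * (φ g1') ^ 2 + 2 * φ t * φ h1 * (φ g1') ^ 2 * x + (φ q2) ^ 2 * (φ g1') ^ 3 * x - 2 * φ q2 * φ f1 * φ g1 * (φ g1') ^ 2 * x + φ q2 * (φ g1) ^ 2 * φ f1' * φ g1' * x + φ d1 * φ f1 * (φ g1') ^ 3 - φ d1 * φ g1 * φ f1' * (φ g1') ^ 2 + φ b1 * (φ g1') ^ 3 + φ b2 * (φ g1') ^ 3 * x - φ f1 * (φ g1) ^ 2 * (φ g1') ^ 2 + (φ g1) ^ 3 * φ f1' * φ g1' + (φ g1) ^ 2 * φ g1' * φ h0' + (φ g1) ^ 2 *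 φ g1' * φ h1' * x - 2 * φ g1 * φ h0 * (φ g1') ^ 2 - 2 * φ g1 * φ h1 * (φ g1') ^ 2 * x) * H.h2 + (-φ r * (φ t) ^ 2 * (φ g1') ^ 2 + 2 * φ r * φ t * φ g1 * (φ g1') ^ 2 + φ r * φ d1 * (φ g1') ^ 3 - φ r * (φ g1) ^ 2 * (φ g1') ^ 2 + (φ t) ^ 3 * φ f1' * y + (φ t) ^ 3 * (φ g1') ^ 2 + (φ t) ^ 3 * φ h0' * x + (φ t) ^ 3 * φ h1' * x ^ 2 + (φ t) ^ 2 * φ d1 * φ f1' * φ g1' * x + 2 * (φ t) ^ 2 * φ f1 * φ g1' * y - 3 * (φ t) ^ 2 * φ g1 * φ f1' * y - 2 * (φ t) ^ 2 * φ g1 * (φ g1') ^ 2 - 3 * (φ t) ^ 2 * φ g1 * φ h0' * x - 3 * (φ t) ^ 2 * φ g1 * φ h1' * x ^ 2 + 2 * (φ t) ^ 2 * φ h0 * φ g1' * x + 2 * (φ t) ^ 2 * φ h1 * φ g1' * x ^ 2 + φ t * φ q2 * (φ g1') ^ 2 * y + 2 * φ t * φ d1 * φ f1 * (φ g1') ^ 2 * x - 2 * φ t * φ d1 * φ g1 * φ f1' * φ g1' * x - φ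 t * φ d1 * (φ g1') ^ 3 + φ t * φ b1 * (φ g1') ^ 2 * x + φ t * φ b2 * (φ g1') ^ 2 * x ^ 2 - 4 * φ t * φ f1 * φ g1 * φ g1' * y + 3 * φ t * (φ g1) ^ 2 * φ f1' * y + φ t * (φ g1) ^ 2 * (φ g1') ^ 2 + 3 * φ t * (φ g1) ^ 2 * φ h0' * x + 3 * φ t * (φ g1) ^ 2 * φ h1' * x ^ 2 - 4 * φ t * φ g1 * φ h0 * φ g1' * x - 4 * φ t * φ g1 * φ h1 * φ g1' * x ^ 2 + φ q2 * φ d1 * (φ g1') ^ 3 * x - φ q2 * φ g1 * (φ g1') ^ 2 * y - 2 * φ d1 * φ f1 * φ g1 * (φ g1') ^ 2 * x + φ d1 * (φ g1) ^ 2 * φ f1' * φ g1' * x - φ b1 * φ g1 * (φ g1') ^ 2 * x - φ b2 * φ g1 * (φ g1') ^ 2 * x ^ 2 + 2 * φ f1 * (φ g1) ^ 2 * φ g1' * y - (φ g1) ^ 3 * φ f1' * y - (φ g1) ^ 3 * φ h0' * x - (φ g1) ^ 3 * φ h1' * x ^ 2 + 2 * (φ g1) ^ 2 * φ h0 * φ g1' * x + 2 * (φ g1) ^ 2 * φ h1 * φ g1' *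 x ^ 2) * H.h1 + (φ r * (φ g1') ^ 3 * x + (φ t) ^ 2 * φ f1' * φ g1' * x ^ 2 + 2 * φ t * φ f1 * (φ g1') ^ 2 * x ^ 2 - 2 * φ t * φ g1 * φ f1' * φ g1' * x ^ 2 - φ t * (φ g1') ^ 3 * x + φ q2 * (φ g1') ^ 3 * x ^ 2 - 2 * φ f1 * φ g1 * (φ g1') ^ 2 * x ^ 2 + (φ g1) ^ 2 * φ f1' * φ g1' * x ^ 2) * H.hy + (φ r * φ t * (φ g1') ^ 2 * x - φ r * φ g1 * (φ g1') ^ 2 * x - 2 * (φ t) ^ 2 * (φ g1') ^ 2 * x + 3 * φ t * φ g1 * (φ g1') ^ 2 * x + φ d1 * (φ g1') ^ 3 * x - (φ g1) ^ 2 * (φ g1') ^ 2 * x) * H.hyz + (-(φ t) ^ 3 * φ g1' * x + 3 * (φ t) ^ 2 * φ g1 * φ g1' * x + φ t * φ d1 * (φ g1') ^ 2 * x - 3 * φ t * (φ g1) ^ 2 * φ g1' * x - φ d1 * φ g1 * (φ g1') ^ 2 * x + (φ g1) ^ 3 * φ g1' * x) * H.hz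

include hX in
theorem x4 : X ^ 4 =
      φ (-r ^ 3 * t * g1' ^ 4 + 3 * r ^ 2 * t ^ 2 * g1' ^ 4 - 3 * r * t ^ 3 * g1' ^ 4 + t ^ 4 * g1' ^ 4) * (x ^ 4) := by
  have h := H.x3 hX
  subst hX
  simp only [map_add, map_sub, map_mul, map_pow, map_neg, map_ofNat] at h ⊢
  linear_combination (φ g1' * y + (φ t - φ g1) * z - φ t * φ g1' * x) * h + ((φ r) ^ 2 * φ b1 * (φ g1') ^ 4 + (φ r) ^ 2 * φ b2 * (φ g1') ^ 4 * x + φ r * (φ t) ^ 4 * φ f1' * (φ g1') ^ 2 + 2 * φ r * (φ t) ^ 3 * φ f1 * (φ g1') ^ 3 - 2 * φ r * (φ t) ^ 3 * φ g1 * φ f1' * (φ g1') ^ 2 + φ r * (φ t) ^ 2 * φ q2 * (φ g1') ^ 4 - 2 * φ r * (φ t) ^ 2 * φ f1 * φ g1 * (φ g1') ^ 3 + φ r * (φ t) ^ 2 * (φ g1) ^ 2 * φ f1' * (φ g1') ^ 2 - φ r * (φ t) ^ 2 * φ h0 * (φ g1') ^ 3 - 3 * φ r * φ t *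 φ b1 * (φ g1') ^ 4 - 2 * φ r * φ t * φ b2 * (φ g1') ^ 4 * x + φ r * φ t * φ g1 * φ h0 * (φ g1') ^ 3 + 2 * (φ t) ^ 4 * (φ g1') ^ 2 * φ h0' - 5 * (φ t) ^ 3 * φ g1 * (φ g1') ^ 2 * φ h0' + 4 * (φ t) ^ 3 * φ h0 * (φ g1') ^ 3 - (φ t) ^ 2 * φ d1 * (φ g1') ^ 3 * φ h0' + 3 * (φ t) ^ 2 * φ b1 * (φ g1') ^ 4 + (φ t) ^ 2 * φ b2 * (φ g1') ^ 4 * x + 4 * (φ t) ^ 2 * (φ g1) ^ 2 * (φ g1') ^ 2 * φ h0' - 5 * (φ t) ^ 2 * φ g1 * φ h0 * (φ g1') ^ 3 + φ t * φ d1 * φ g1 * (φ g1') ^ 3 * φ h0' - φ t * φ d1 * φ h0 * (φ g1') ^ 4 - φ t * (φ g1) ^ 3 * (φ g1') ^ 2 * φ h0' + φ t * (φ g1) ^ 2 * φ h0 * (φ g1') ^ 3) * H.h3 + ((φ r) ^ 3 * (φ g1') ^ 4 - 3 * (φ r) ^ 2 * φ t * (φ g1') ^ 4 + (φ r) ^ 2 * φ q2 * (φ g1') ^ 4 * x - φ r * (φ t) ^ 3 * φ f1' * (φ g1') ^ 2 * x - 2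 * φ r * (φ t) ^ 2 * φ f1 * (φ g1') ^ 3 * x + 2 * φ r * (φ t) ^ 2 * φ g1 * φ f1' * (φ g1') ^ 2 * x + 3 * φ r * (φ t) ^ 2 * (φ g1') ^ 4 - 3 * φ r * φ t * φ q2 * (φ g1') ^ 4 * x + 2 * φ r * φ t * φ f1 * φ g1 * (φ g1') ^ 3 * x - φ r * φ t * (φ g1) ^ 2 * φ f1' * (φ g1') ^ 2 * x + φ r * φ t * φ h0 * (φ g1') ^ 3 * x + φ r * φ b1 * (φ g1') ^ 4 * x - φ r * φ g1 * φ h0 * (φ g1') ^ 3 * x - (φ t) ^ 3 * (φ g1') ^ 4 - 2 * (φ t) ^ 3 * (φ g1') ^ 2 * φ h0' * x + (φ t) ^ 2 * φ q2 * (φ g1') ^ 4 * x + 5 * (φ t) ^ 2 * φ g1 * (φ g1') ^ 2 * φ h0' * x - 4 * (φ t) ^ 2 * φ h0 * (φ g1') ^ 3 * x + φ t * φ d1 * (φ g1') ^ 3 * φ h0' * x - 2 * φ t * φ b1 * (φ g1') ^ 4 * x - 4 * φ t * (φ g1) ^ 2 * (φ g1') ^ 2 * φ h0' * x + 5 * φ t * φ g1 * φ h0 * (φ g1') ^ 3 * x -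 φ d1 * φ g1 * (φ g1') ^ 3 * φ h0' * x + φ d1 * φ h0 * (φ g1') ^ 4 * x + (φ g1) ^ 3 * (φ g1') ^ 2 * φ h0' * x - (φ g1) ^ 2 * φ h0 * (φ g1') ^ 3 * x) * H.h2 + (-(φ r) ^ 2 * (φ t) ^ 2 * (φ g1') ^ 3 * x + (φ r) ^ 2 * φ t * φ g1 * (φ g1') ^ 3 * x + (φ r) ^ 2 * φ t * (φ g1') ^ 3 * y + (φ r) ^ 2 * φ d1 * (φ g1') ^ 4 * x - (φ r) ^ 2 * φ g1 * (φ g1') ^ 3 * y - φ r * (φ t) ^ 4 * φ f1' * φ g1' * x ^ 2 - 2 * φ r * (φ t) ^ 3 * φ f1 * (φ g1') ^ 2 * x ^ 2 + 3 * φ r * (φ t) ^ 3 * φ g1 * φ f1' * φ g1' * x ^ 2 + 2 * φ r * (φ t) ^ 3 * (φ g1') ^ 3 * x - φ r * (φ t) ^ 2 * φ q2 * (φ g1') ^ 3 * x ^ 2 + 4 * φ r * (φ t) ^ 2 * φ f1 * φ g1 * (φ g1') ^ 2 * x ^ 2 - 3 * φ r * (φ t) ^ 2 * (φ g1) ^ 2 * φ f1' * φ g1' * x ^ 2 - 2 * φ r * (φ t) ^ 2 * φ g1 * (φ g1') ^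 3 * x + φ r * (φ t) ^ 2 * φ h0 * (φ g1') ^ 2 * x ^ 2 - 2 * φ r * (φ t) ^ 2 * (φ g1') ^ 3 * y + φ r * φ t * φ q2 * φ g1 * (φ g1') ^ 3 * x ^ 2 - 2 * φ r * φ t * φ d1 * (φ g1') ^ 4 * x + φ r * φ t * φ b1 * (φ g1') ^ 3 * x ^ 2 - 2 * φ r * φ t * φ f1 * (φ g1) ^ 2 * (φ g1') ^ 2 * x ^ 2 + φ r * φ t * (φ g1) ^ 3 * φ f1' * φ g1' * x ^ 2 - 2 * φ r * φ t * φ g1 * φ h0 * (φ g1') ^ 2 * x ^ 2 + 2 * φ r * φ t * φ g1 * (φ g1') ^ 3 * y - φ r * φ b1 * φ g1 * (φ g1') ^ 3 * x ^ 2 + φ r * (φ g1) ^ 2 * φ h0 * (φ g1') ^ 2 * x ^ 2 - (φ t) ^ 4 * (φ g1') ^ 3 * x - 2 * (φ t) ^ 4 * φ g1' * φ h0' * x ^ 2 + (φ t) ^ 3 * φ g1 * (φ g1') ^ 3 * x + 7 * (φ t) ^ 3 * φ g1 * φ g1' * φ h0' * x ^ 2 - 4 * (φ t) ^ 3 * φ h0 * (φ g1') ^ 2 * x ^ 2 + (φ t) ^ 3 * (φ g1') ^ 3 * y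 + (φ t) ^ 2 * φ d1 * (φ g1') ^ 4 * x + (φ t) ^ 2 * φ d1 * (φ g1') ^ 2 * φ h0' * x ^ 2 - 2 * (φ t) ^ 2 * φ b1 * (φ g1') ^ 3 * x ^ 2 - 9 * (φ t) ^ 2 * (φ g1) ^ 2 * φ g1' * φ h0' * x ^ 2 + 9 * (φ t) ^ 2 * φ g1 * φ h0 * (φ g1') ^ 2 * x ^ 2 - (φ t) ^ 2 * φ g1 * (φ g1') ^ 3 * y - 2 * φ t * φ d1 * φ g1 * (φ g1') ^ 2 * φ h0' * x ^ 2 + φ t * φ d1 * φ h0 * (φ g1') ^ 3 * x ^ 2 + 2 * φ t * φ b1 * φ g1 * (φ g1') ^ 3 * x ^ 2 + 5 * φ t * (φ g1) ^ 3 * φ g1' * φ h0' * x ^ 2 - 6 * φ t * (φ g1) ^ 2 * φ h0 * (φ g1') ^ 2 * x ^ 2 + φ d1 * (φ g1) ^ 2 * (φ g1') ^ 2 * φ h0' * x ^ 2 - φ d1 * φ g1 * φ h0 * (φ g1') ^ 3 * x ^ 2 - (φ g1) ^ 4 * φ g1' * φ h0' * x ^ 2 + (φ g1) ^ 3 * φ h0 * (φ g1') ^ 2 * x ^ 2) * H.h1 + ((φ r) ^ 2 * (φ g1') ^ 4 * x ^ 2 - 2 * φ r * φ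 t * (φ g1') ^ 4 * x ^ 2 + (φ t) ^ 2 * (φ g1') ^ 4 * x ^ 2) * H.hy

end Gor0

end L32

end Pool.Agent.Lib.D13
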