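import Pool.Agent.Lib.D9.CycAx

/-!
# MP_5dcbc3_ag: a cyclic module with three axes of lengths `3`, `3`, `m + 4`

Algebra: `A^3 Y = 0`, `A^2 W = τ A^2 Y`, `A^(m+5) = 0`, `Y^2 = A Y + β1 A^(m+3) + ...`, `Y W = ...`,
`W^2 = A W + δ1 A^(m+3) + ...`.
-/

namespace Pool.Agent.Lib.D13

open Matrix Polynomial Pool.Agent.Lib.Q5dc Pool.Agent.Lib.D7 Pool.Agent.Lib.D8 Pool.Agent.Lib.D9

variable {k : Type*} [Field k]

namespace Ax33

section ring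

variable {R : Type*} [CommRing R] {a y w β1 β2 β3 γ2 γ3 δ1 δ2 δ3 τ ε ξ1 ξ2 η1 η2 ζ1 ζ2 : R} {m : ℕ}

/-- the multiplication table -/
structure Tab (x y w G a3 y2 w2 s t β1 β2 β3 γ2 γ3 δ1 δ2 δ3 τ ε : R) : Prop where
  xy : x * y = -β1 * a3 - (β2 + γ2) * s - (β3 + γ3) * t
  xw : x * w = -δ1 * a3 - (γ2 + δ2) * s - (γ3 + δ3) * t
  yw : y * w = γ2 * s + γ3 * t
  yy : y * y = y2 + β2 * s + β3 * t
  ww : w * w = w2 + δ2 * s + δ3 * t
  xG : x * G = a3 - ε * (1 + τ) * t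
  yG : y * G = ε * t
  wG : w * G = ε * τ * t
  GG : G * G = ε * s
  xa : x * a3 = s
  ya : y * a3 = 0
  wa : w * a3 = 0
  Ga : G * a3 = 0
  aa : a3 * a3 = 0
  xy2 : x * y2 = 0
  yy2 : y * y2 = t + β1 * s
  wy2 : w * y2 = 0
  Gy2 : G * y2 = 0
  ay2 : a3 * y2 = 0
  y2y2 : y2 * y2 = 0
  xw2 : x * w2 = 0
  yw2 : y * w2 = 0
  ww2 : w * w2 = τ * t + δ1 * s
  Gw2 : G * w2 = 0
  aw2 : a3 * w2 = 0
  y2w2 : y2 * w2 = 0
  w2w2 : w2 * w2 = 0
  ys : y * s = 0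
  ws : w * s = 0
  Gs : G * s = 0
  as : a3 * s = 0
  y2s : y2 * s = 0
  w2s : w2 * s = 0
  yt : y * t = 0
  wt : w * t = 0
  Gt : G * t = 0
  a_t : a3 * t = 0
  y2t : y2 * t = 0
  w2t : w2 * t = 0

theorem tab (r1 : a ^ 3 * y = 0) (r2 : a ^ 2 * w = τ * (a ^ 2 * y)) (r3 : a ^ (m + 5) = 0)
    (r4 : y * y = a * y + β1 * a ^ (m + 3) + β2 * a ^ (m + 4) + β3 * (a ^ 2 * y))
    (r5 : y * w = γ2 * a ^ (m + 4) + γ3 * (a ^ 2 * y))
    (r6 : w * w = a * w + δ1 * a ^ (m + 3) + δ2 * a ^ (m + 4) + δ3 * (a ^ 2 * y))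
    (rG : a ^ (m + 2) * a ^ (m + 2) = ε * a ^ (m + 4))
    (rGy : a ^ (m + 2) * y = ε * (a ^ 2 * y)) :
    Tab (a - y - w) y w (a ^ (m + 2)) (a ^ (m + 3)) (a * y + β1 * a ^ (m + 3))
      (a * w + δ1 * a ^ (m + 3)) (a ^ (m + 4)) (a ^ 2 * y) β1 β2 β3 γ2 γ3 δ1 δ2 δ3 τ ε := by
  have r1' : a ^ 3 * w = 0 := by linear_combination a * r2 + τ * r1
  have gw : a ^ (m + 2) * w = ε * τ * (a ^ 2 * y) := by
    linear_combination a ^ m * r2 + τ * rGy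
  have ay : a * y * y = a ^ 2 * y + β1 * a ^ (m + 4) := by
    linear_combination a * r4 + β2 * r3 + β3 * r1
  have aw : a * w * w = τ * (a ^ 2 * y) + δ1 * a ^ (m + 4) := by
    linear_combination a * r6 + r2 + δ2 * r3 + δ3 * r1
  have ayw : a * y * w = 0 := by
    linear_combination a * r5 + γ2 * r3 + γ3 * r1
  have a2y : a ^ 2 * y * y = 0 := by linear_combination a * ay + r1 + β1 * r3
  have a2w : a ^ 2 * y * w = 0 := by linear_combination a * ayw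
  constructor
  · linear_combination -r4 - r5
  · linear_combination -r5 - r6
  · exact r5
  · linear_combination r4
  · linear_combination r6
  · linear_combination -rGy - gw
  · linear_combination rGy
  · linear_combination gw
  · exact rG
  · linear_combination -a ^ m * r1 - a ^ m * r1'
  · linear_combination a ^ m * r1
  · linear_combination a ^ m * r1'
  · linear_combination a ^ m * r3
  · linear_combination a ^ (m + 1) * r3
  · linear_combination -ay - ayw - β1 * a ^ m * r1 - β1 * a ^ m * r1'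
  · linear_combination ay + β1 * a ^ m * r1
  · linear_combination ayw + β1 * a ^ m * r1'
  · linear_combination a ^ m * r1 + β1 * a ^ m * r3
  · linear_combination a ^ (m + 1) * r1 + β1 * a ^ (m + 1) * r3
  · linear_combination a * (ay + β1 * a ^ m * r1) + r1 + β1 * r3 + β1 * (a ^ (m + 1) * r1 +
      β1 * a ^ (m + 1) * r3)
  · linear_combination r2 - ayw - aw - δ1 * a ^ m * r1 - δ1 * a ^ m * r1'
  · linear_combination ayw + δ1 * a ^ m * r1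
  · linear_combination aw + δ1 * a ^ m * r1'
  · linear_combination a ^ m * r1' + δ1 * a ^ m * r3
  · linear_combination a ^ (m + 1) * r1' + δ1 * a ^ (m + 1) * r3
  · linear_combination a * (ayw + δ1 * a ^ m * r1) + β1 * (a ^ (m + 1) * r1' +
      δ1 * a ^ (m + 1) * r3)
  · linear_combination a * (aw + δ1 * a ^ m * r1') + τ * r1 + δ1 * r3 + δ1 * (a ^ (m + 1) * r1' +
      δ1 * a ^ (m + 1) * r3)
  · linear_combination a ^ (m + 1) * r1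
  · linear_combination a ^ (m + 1) * r1'
  · linear_combination a ^ (m + 1) * r3
  · linear_combination a ^ (m + 2) * r3
  · linear_combination a ^ (m + 2) * r1 + β1 * a ^ (m + 2) * r3
  · linear_combination a ^ (m + 2) * r1' + δ1 * a ^ (m + 2) * r3
  · linear_combination a2y
  · linear_combination a2w
  · linear_combination a ^ (m + 1) * r1
  · linear_combination a ^ (m + 2) * r1
  · linear_combination a * a2y + β1 * a ^ (m + 2) * r1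
  · linear_combination a * a2w + δ1 * a ^ (m + 2) * r1

variable {x G a3 y2 w2 s t : R}

theorem Tab.XY (h : Tab x y w G a3 y2 w2 s t β1 β2 β3 γ2 γ3 δ1 δ2 δ3 τ ε)
    (e1 : ξ1 = β3 + γ3 + β1 * ε * (1 + τ)) (e2 : η1 = β2 + γ2 - ξ1 * β1) :
    (x + ξ1 * y2 + ξ2 * w2) * (y + β1 * G + η1 * a3 + η2 * w2) = 0 := by
  linear_combination h.xy + β1 * h.xG + η1 * h.xa + η2 * h.xw2 + ξ1 * (h.yy2 + β1 * h.Gy2 +
    η1 * h.ay2 + η2 * h.y2w2) + ξ2 * (h.yw2 + β1 * h.Gw2 + η1 * h.aw2 + η2 * h.w2w2) +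
    t * e1 + s * e2

theorem Tab.XZ (h : Tab x y w G a3 y2 w2 s t β1 β2 β3 γ2 γ3 δ1 δ2 δ3 τ ε)
    (e3 : ξ2 * τ = γ3 + δ3 + δ1 * ε * (1 + τ)) (e4 : ζ1 = γ2 + δ2 - ξ2 * δ1) :
    (x + ξ1 * y2 + ξ2 * w2) * (w + δ1 * G + ζ1 * a3 + ζ2 * y2) = 0 := by
  linear_combination h.xw + δ1 * h.xG + ζ1 * h.xa + ζ2 * h.xy2 + ξ1 * (h.wy2 + δ1 * h.Gy2 +
    ζ1 * h.ay2 + ζ2 * h.y2y2) + ξ2 * (h.ww2 + δ1 * h.Gw2 + ζ1 * h.aw2 + ζ2 * h.y2w2) +
    t * e3 + s * e4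

theorem Tab.YZ (h : Tab x y w G a3 y2 w2 s t β1 β2 β3 γ2 γ3 δ1 δ2 δ3 τ ε)
    (e5 : γ2 + ζ2 * β1 + β1 * δ1 * ε + η2 * δ1 = 0)
    (e6 : γ3 + δ1 * ε + ζ2 + β1 * ε * τ + η2 * τ = 0) :
    (y + β1 * G + η1 * a3 + η2 * w2) * (w + δ1 * G + ζ1 * a3 + ζ2 * y2) = 0 := by
  linear_combination h.yw + δ1 * h.yG + ζ1 * h.ya + ζ2 * h.yy2 + β1 * (h.wG + δ1 * h.GG +
    ζ1 * h.Ga + ζ2 * h.Gy2) + η1 * (h.wa + δ1 * h.Ga + ζ1 * h.aa + ζ2 * h.ay2) +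
    η2 * (h.ww2 + δ1 * h.Gw2 + ζ1 * h.aw2 + ζ2 * h.y2w2) + s * e5 + t * e6

theorem Tab.Y3 (h : Tab x y w G a3 y2 w2 s t β1 β2 β3 γ2 γ3 δ1 δ2 δ3 τ ε) :
    (y + β1 * G + η1 * a3 + η2 * w2) ^ 3 = t + β1 * s := by
  have h2 : (y + β1 * G + η1 * a3 + η2 * w2) ^ 2 = y2 + (β2 + β1 ^ 2 * ε) * s +
      (β3 + 2 * β1 * ε) * t := by
    linear_combination h.yy + 2 * β1 * h.yG + 2 * η1 * h.ya + 2 * η2 * h.yw2 + β1 ^ 2 * h.GG +
      2 * β1 * η1 * h.Ga + 2 * β1 * η2 * h.Gw2 + η1 ^ 2 * h.aa + 2 * η1 * η2 * h.aw2 +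
      η2 ^ 2 * h.w2w2
  have h3 : (y + β1 * G + η1 * a3 + η2 * w2) * y2 = t + β1 * s := by
    linear_combination h.yy2 + β1 * h.Gy2 + η1 * h.ay2 + η2 * h.y2w2
  have h4 : (y + β1 * G + η1 * a3 + η2 * w2) * s = 0 := by
    linear_combination h.ys + β1 * h.Gs + η1 * h.as + η2 * h.w2s
  have h5 : (y + β1 * G + η1 * a3 + η2 * w2) * t = 0 := by
    linear_combination h.yt + β1 * h.Gt + η1 * h.a_t + η2 * h.w2t
  rw [pow_succ', h2]
  linear_combination h3 + (β2 + β1 ^ 2 * ε) * h4 + (β3 + 2 * β1 * ε) * h5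

theorem Tab.Z3 (h : Tab x y w G a3 y2 w2 s t β1 β2 β3 γ2 γ3 δ1 δ2 δ3 τ ε) :
    (w + δ1 * G + ζ1 * a3 + ζ2 * y2) ^ 3 = τ * t + δ1 * s := by
  have h2 : (w + δ1 * G + ζ1 * a3 + ζ2 * y2) ^ 2 = w2 + (δ2 + δ1 ^ 2 * ε) * s +
      (δ3 + 2 * δ1 * ε * τ) * t := by
    linear_combination h.ww + 2 * δ1 * h.wG + 2 * ζ1 * h.wa + 2 * ζ2 * h.wy2 + δ1 ^ 2 * h.GG +
      2 * δ1 * ζ1 * h.Ga + 2 * δ1 * ζ2 * h.Gy2 + ζ1 ^ 2 * h.aa + 2 * ζ1 * ζ2 * h.ay2 +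
      ζ2 ^ 2 * h.y2y2
  have h3 : (w + δ1 * G + ζ1 * a3 + ζ2 * y2) * w2 = τ * t + δ1 * s := by
    linear_combination h.ww2 + δ1 * h.Gw2 + ζ1 * h.aw2 + ζ2 * h.y2w2
  have h4 : (w + δ1 * G + ζ1 * a3 + ζ2 * y2) * s = 0 := by
    linear_combination h.ws + δ1 * h.Gs + ζ1 * h.as + ζ2 * h.y2s
  have h5 : (w + δ1 * G + ζ1 * a3 + ζ2 * y2) * t = 0 := by
    linear_combination h.wt + δ1 * h.Gt + ζ1 * h.a_t + ζ2 * h.y2t
  rw [pow_succ', h2]
  linear_combination h3 + (δ2 + δ1 ^ 2 * ε) * h4 + (δ3 + 2 * δ1 * ε * τ) * h5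

/-- powers of `X` -/
theorem Xpow (r1 : a ^ 3 * y = 0) (r2 : a ^ 2 * w = τ * (a ^ 2 * y)) (r3 : a ^ (m + 5) = 0)
    (h : Tab (a - y - w) y w (a ^ (m + 2)) (a ^ (m + 3)) (a * y + β1 * a ^ (m + 3))
      (a * w + δ1 * a ^ (m + 3)) (a ^ (m + 4)) (a ^ 2 * y) β1 β2 β3 γ2 γ3 δ1 δ2 δ3 τ ε)
    (j : ℕ) :
    (a - y - w + ξ1 * (a * y + β1 * a ^ (m + 3)) + ξ2 * (a * w + δ1 * a ^ (m + 3))) ^ (j + 4) =
      a ^ (j + 4) := by
  have r1' : a ^ 3 * w = 0 := by linear_combination a * r2 + τ * r1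
  obtain ⟨X, hX⟩ : ∃ X, X = a - y - w + ξ1 * (a * y + β1 * a ^ (m + 3)) +
      ξ2 * (a * w + δ1 * a ^ (m + 3)) := ⟨_, rfl⟩
  rw [← hX]
  have hXx : X * X = a * (a - y - w) + (β1 + δ1) * a ^ (m + 3) + (β2 + γ2 + γ2 + δ2) * a ^ (m + 4) +
      (β3 + γ3 + γ3 + δ3) * (a ^ 2 * y) := by
    rw [hX]
    linear_combination -h.xy - h.xw + 2 * ξ1 * h.xy2 + 2 * ξ2 * h.xw2 + ξ1 ^ 2 * h.y2y2 +
      2 * ξ1 * ξ2 * h.y2w2 + ξ2 ^ 2 * h.w2w2
  have hXx' : X * (a - y - w) = a * (a - y - w) + (β1 + δ1) * a ^ (m + 3) +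
      (β2 + γ2 + γ2 + δ2) * a ^ (m + 4) + (β3 + γ3 + γ3 + δ3) * (a ^ 2 * y) := by
    rw [hX]
    linear_combination -h.xy - h.xw + ξ1 * h.xy2 + ξ2 * h.xw2
  have hXa : ∀ i, X * a ^ (i + 3) = a ^ (i + 4) := by
    intro i
    rw [hX]
    linear_combination (-a ^ i + ξ1 * a ^ (i + 1)) * r1 + (-a ^ i + ξ2 * a ^ (i + 1)) * r1' +
      (ξ1 * β1 + ξ2 * δ1) * a ^ (i + 1) * r3
  have hXt : X * (a ^ 2 * y) = 0 := by
    rw [hX]
    linear_combination r1 - h.yt - h.wt + ξ1 * h.y2t + ξ2 * h.w2t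
  have hX4 : X ^ 4 = a ^ 4 := by
    have e1 : X * (X * X) = a ^ 2 * (a - y - w) + 2 * (β1 + δ1) * a ^ (m + 4) := by
      rw [hXx]
      linear_combination a * hXx' + (β1 + δ1) * hXa m + (β2 + γ2 + γ2 + δ2) * (hXa (m + 1)) +
        (β3 + γ3 + γ3 + δ3) * hXt + 2 * (β2 + γ2 + γ2 + δ2) * r3 +
        (β3 + γ3 + γ3 + δ3) * r1
    have e2 : X ^ 4 = X * (X * (X * X)) := by ring
    rw [e2, e1]
    linear_combination a ^ 2 * hXx' + 2 * (β1 + δ1) * (hXa (m + 1) + r3) - r1 - r1' +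
      (β1 + δ1) * r3 + (β2 + γ2 + γ2 + δ2) * a * r3 + (β3 + γ3 + γ3 + δ3) * a * r1
  induction j with
  | zero => exact hX4
  | succ j ih =>
    have e1 : j + 1 + 4 = (j + 4) + 1 := rfl
    rw [e1, pow_succ', ih]
    exact hXa (j + 1)

end ring

end Ax33

/-- three axes of lengths `3`, `3`, `m + 4` -/
theorem ax33R [IsAlgClosed k] {n : Type*} [Fintype n] [DecidableEq n]
    {R : Type*} [CommRing R] [Algebra k R] (ρ : R →ₐ[k] Matrix n n k) {a y w : R}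
    {A Y W : Matrix n n k} (ha : ρ a = A) (hy : ρ y = Y) (hw : ρ w = W)
    {v : n → k} {m : ℕ} (hn : Fintype.card n = m + 10)
    (hT : CN ![A, Y, W]) (hv : Cyc ![A, Y, W] v) {β1 β2 β3 γ2 γ3 δ1 δ2 δ3 τ : k}
    (r1 : a ^ 3 * y = 0) (r2 : a ^ 2 * w = algebraMap k R τ * (a ^ 2 * y))
    (r3 : a ^ (m + 5) = 0)
    (r4 : y * y = a * y + algebraMap k R β1 * a ^ (m + 3) + algebraMap k R β2 * a ^ (m + 4) +
      algebraMap k R β3 * (a ^ 2 * y))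
    (r5 : y * w = algebraMap k R γ2 * a ^ (m + 4) + algebraMap k R γ3 * (a ^ 2 * y))
    (r6 : w * w = a * w + algebraMap k R δ1 * a ^ (m + 3) + algebraMap k R δ2 * a ^ (m + 4) +
      algebraMap k R δ3 * (a ^ 2 * y))
    (hτ : τ ≠ 0) (hd : δ1 - τ * β1 ≠ 0) : Cl ![A, Y, W] := by
  obtain ⟨ε, hε⟩ : ∃ ε : k, ε = if m = 0 then 1 else 0 := ⟨_, rfl⟩
  obtain ⟨ξ1, e1⟩ : ∃ ξ1, ξ1 = β3 + γ3 + β1 * ε * (1 + τ) := ⟨_, rfl⟩
  obtain ⟨η1, e2⟩ : ∃ η1, η1 = β2 + γ2 - ξ1 * β1 := ⟨_, rfl⟩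
  obtain ⟨ξ2, e3⟩ : ∃ ξ2, ξ2 * τ = γ3 + δ3 + δ1 * ε * (1 + τ) :=
    ⟨(γ3 + δ3 + δ1 * ε * (1 + τ)) / τ, div_mul_cancel₀ _ hτ⟩
  obtain ⟨ζ1, e4⟩ : ∃ ζ1, ζ1 = γ2 + δ2 - ξ2 * δ1 := ⟨_, rfl⟩
  obtain ⟨η2, e5⟩ : ∃ η2, η2 * (δ1 - τ * β1) = β1 * γ3 + β1 ^ 2 * ε * τ - γ2 :=
    ⟨(β1 * γ3 + β1 ^ 2 * ε * τ - γ2) / (δ1 - τ * β1), div_mul_cancel₀ _ hd⟩
  obtain ⟨ζ2, e6⟩ : ∃ ζ2, ζ2 = -γ3 - δ1 * ε - β1 * ε * τ - η2 * τ := ⟨_, rfl⟩
  have e7 : γ2 + ζ2 * β1 + β1 * δ1 * ε + η2 * δ1 = 0 := by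
    linear_combination e5 + β1 * e6
  have e8 : γ3 + δ1 * ε + ζ2 + β1 * ε * τ + η2 * τ = 0 := by
    linear_combination e6
  have hsm : ∀ (r : k) (x : R), ρ (algebraMap k R r * x) = r • ρ x := by
    intro r x
    rw [map_mul, AlgHom.commutes, Algebra.smul_def]
  have rG : a ^ (m + 2) * a ^ (m + 2) = algebraMap k R ε * a ^ (m + 4) := by
    by_cases h : m = 0
    · subst h
      rw [hε, if_pos rfl, map_one]
      ring
    · obtain ⟨j, rfl⟩ : ∃ j, m = j + 1 := ⟨m - 1, by omega⟩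
      rw [hε, if_neg h, map_zero]
      linear_combination a ^ j * r3
  have rGy : a ^ (m + 2) * y = algebraMap k R ε * (a ^ 2 * y) := by
    by_cases h : m = 0
    · subst h
      rw [hε, if_pos rfl, map_one]
      ring
    · obtain ⟨j, rfl⟩ : ∃ j, m = j + 1 := ⟨m - 1, by omega⟩
      rw [hε, if_neg h, map_zero]
      linear_combination a ^ j * r1
  have hTab := Ax33.tab r1 r2 r3 r4 r5 r6 rG rGy
  have f1 : algebraMap k R ξ1 = algebraMap k R β3 + algebraMap k R γ3 +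
      algebraMap k R β1 * algebraMap k R ε * (1 + algebraMap k R τ) := by
    rw [e1]; simp only [map_add, map_mul, map_one]
  have f2 : algebraMap k R η1 = algebraMap k R β2 + algebraMap k R γ2 -
      algebraMap k R ξ1 * algebraMap k R β1 := by
    rw [e2]; simp only [map_add, map_sub, map_mul]
  have f3 : algebraMap k R ξ2 * algebraMap k R τ = algebraMap k R γ3 + algebraMap k R δ3 +
      algebraMap k R δ1 * algebraMap k R ε * (1 + algebraMap k R τ) := by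
    rw [← map_mul, e3]; simp only [map_add, map_mul, map_one]
  have f4 : algebraMap k R ζ1 = algebraMap k R γ2 + algebraMap k R δ2 -
      algebraMap k R ξ2 * algebraMap k R δ1 := by
    rw [e4]; simp only [map_add, map_sub, map_mul]
  have f7 : algebraMap k R γ2 + algebraMap k R ζ2 * algebraMap k R β1 +
      algebraMap k R β1 * algebraMap k R δ1 * algebraMap k R ε +
      algebraMap k R η2 * algebraMap k R δ1 = 0 := by
    have := congrArg (algebraMap k R) e7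
    simpa only [map_add, map_mul, map_zero] using this
  have f8 : algebraMap k R γ3 + algebraMap k R δ1 * algebraMap k R ε + algebraMap k R ζ2 +
      algebraMap k R β1 * algebraMap k R ε * algebraMap k R τ +
      algebraMap k R η2 * algebraMap k R τ = 0 := by
    have := congrArg (algebraMap k R) e8
    simpa only [map_add, map_mul, map_zero] using this
  have tXY := hTab.XY (ξ2 := algebraMap k R ξ2) (η2 := algebraMap k R η2) f1 f2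
  have tXZ := hTab.XZ (ξ1 := algebraMap k R ξ1) (ζ2 := algebraMap k R ζ2) f3 f4
  have tYZ := hTab.YZ (η1 := algebraMap k R η1) (ζ1 := algebraMap k R ζ1) f7 f8
  have tY3 := hTab.Y3 (η1 := algebraMap k R η1) (η2 := algebraMap k R η2)
  have tZ3 := hTab.Z3 (ζ1 := algebraMap k R ζ1) (ζ2 := algebraMap k R ζ2)
  have tX4 := Ax33.Xpow (ξ1 := algebraMap k R ξ1) (ξ2 := algebraMap k R ξ2) r1 r2 r3 hTab m
  obtain ⟨X, hX⟩ : ∃ X, X = a - y - w + algebraMap k R ξ1 * (a * y + algebraMap k R β1 *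
      a ^ (m + 3)) + algebraMap k R ξ2 * (a * w + algebraMap k R δ1 * a ^ (m + 3)) := ⟨_, rfl⟩
  obtain ⟨Y', hY'⟩ : ∃ Y', Y' = y + algebraMap k R β1 * a ^ (m + 2) + algebraMap k R η1 *
      a ^ (m + 3) + algebraMap k R η2 * (a * w + algebraMap k R δ1 * a ^ (m + 3)) := ⟨_, rfl⟩
  obtain ⟨Z', hZ'⟩ : ∃ Z', Z' = w + algebraMap k R δ1 * a ^ (m + 2) + algebraMap k R ζ1 *
      a ^ (m + 3) + algebraMap k R ζ2 * (a * y + algebraMap k R β1 * a ^ (m + 3)) := ⟨_, rfl⟩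
  rw [← hX, ← hY'] at tXY
  rw [← hX, ← hZ'] at tXZ
  rw [← hY', ← hZ'] at tYZ
  rw [← hY'] at tY3
  rw [← hZ'] at tZ3
  rw [← hX] at tX4
  -- the images
  have iX : ρ X = A - Y - W + ξ1 • (A * Y + β1 • A ^ (m + 3)) + ξ2 • (A * W + δ1 • A ^ (m + 3)) := by
    rw [hX]
    simp only [map_add, map_sub, hsm]
    simp only [map_mul, map_pow, ha, hy, hw]
  have iY : ρ Y' = Y + β1 • A ^ (m + 2) + η1 • A ^ (m + 3) + η2 • (A * W + δ1 • A ^ (m + 3)) := by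
    rw [hY']
    simp only [map_add, hsm]
    simp only [map_mul, map_pow, ha, hy, hw]
  have iZ : ρ Z' = W + δ1 • A ^ (m + 2) + ζ1 • A ^ (m + 3) + ζ2 • (A * Y + β1 • A ^ (m + 3)) := by
    rw [hZ']
    simp only [map_add, hsm]
    simp only [map_mul, map_pow, ha, hy, hw]
  have mA : A ∈ adj ![A, Y, W] := mem_adj ![A, Y, W] 0
  have mY : Y ∈ adj ![A, Y, W] := mem_adj ![A, Y, W] 1
  have mW : W ∈ adj ![A, Y, W] := mem_adj ![A, Y, W] 2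
  have mp : ∀ i, A ^ (i + 1) ∈ adj ![A, Y, W] := by
    intro i
    induction i with
    | zero => rw [zero_add, pow_one]; exact mA
    | succ i ih => rw [pow_succ]; exact mul_mem ih mA
  have hsq : ∀ j, A ^ (j + 2) ∈ Submodule.span k {M : Matrix n n k | ∃ P ∈ adj ![A, Y, W],
      ∃ Q ∈ adj ![A, Y, W], M = P * Q} := fun j =>
    Submodule.subset_span ⟨A ^ (j + 1), mp j, A, mA, pow_succ _ _⟩
  have sAY : A * Y ∈ Submodule.span k {M : Matrix n n k | ∃ P ∈ adj ![A, Y, W],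
      ∃ Q ∈ adj ![A, Y, W], M = P * Q} := Submodule.subset_span ⟨A, mA, Y, mY, rfl⟩
  have sAW : A * W ∈ Submodule.span k {M : Matrix n n k | ∃ P ∈ adj ![A, Y, W],
      ∃ Q ∈ adj ![A, Y, W], M = P * Q} := Submodule.subset_span ⟨A, mA, W, mW, rfl⟩
  have sy2 : A * Y + β1 • A ^ (m + 3) ∈ Submodule.span k {M : Matrix n n k |
      ∃ P ∈ adj ![A, Y, W], ∃ Q ∈ adj ![A, Y, W], M = P * Q} :=
    add_mem sAY (Submodule.smul_mem _ _ (hsq (m + 1)))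
  have sw2 : A * W + δ1 • A ^ (m + 3) ∈ Submodule.span k {M : Matrix n n k |
      ∃ P ∈ adj ![A, Y, W], ∃ Q ∈ adj ![A, Y, W], M = P * Q} :=
    add_mem sAW (Submodule.smul_mem _ _ (hsq (m + 1)))
  have tX : ρ X ∈ adj ![ρ Y', ρ Z', ρ X] := mem_adj ![ρ Y', ρ Z', ρ X] 2
  have tY : ρ Y' ∈ adj ![ρ Y', ρ Z', ρ X] := mem_adj ![ρ Y', ρ Z', ρ X] 0
  have tZ : ρ Z' ∈ adj ![ρ Y', ρ Z', ρ X] := mem_adj ![ρ Y', ρ Z', ρ X] 1
  have dY : Y - ρ Y' ∈ Submodule.span k {M : Matrix n n k |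
      ∃ P ∈ adj ![A, Y, W], ∃ Q ∈ adj ![A, Y, W], M = P * Q} := by
    have : Y - ρ Y' = -(β1 • A ^ (m + 2) + η1 • A ^ (m + 3) +
        η2 • (A * W + δ1 • A ^ (m + 3))) := by rw [iY]; abel
    rw [this]
    exact neg_mem (add_mem (add_mem (Submodule.smul_mem _ _ (hsq m))
      (Submodule.smul_mem _ _ (hsq (m + 1)))) (Submodule.smul_mem _ _ sw2))
  have dZ : W - ρ Z' ∈ Submodule.span k {M : Matrix n n k |
      ∃ P ∈ adj ![A, Y, W], ∃ Q ∈ adj ![A, Y, W], M = P * Q} := by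
    have : W - ρ Z' = -(δ1 • A ^ (m + 2) + ζ1 • A ^ (m + 3) +
        ζ2 • (A * Y + β1 • A ^ (m + 3))) := by rw [iZ]; abel
    rw [this]
    exact neg_mem (add_mem (add_mem (Submodule.smul_mem _ _ (hsq m))
      (Submodule.smul_mem _ _ (hsq (m + 1)))) (Submodule.smul_mem _ _ sy2))
  have relm : ρ Y' ^ 3 = (1 / τ) • ρ Z' ^ 3 + (β1 - δ1 / τ) • ρ X ^ (m + 4) := by
    have g1 : ρ Y' ^ 3 = A ^ 2 * Y + β1 • A ^ (m + 4) := by
      rw [← map_pow, tY3, map_add, hsm, map_mul, map_pow, map_pow, ha, hy]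
    have g2 : ρ Z' ^ 3 = τ • (A ^ 2 * Y) + δ1 • A ^ (m + 4) := by
      rw [← map_pow, tZ3, map_add, hsm, hsm, map_mul, map_pow, map_pow, ha, hy]
    have g3 : ρ X ^ (m + 4) = A ^ (m + 4) := by rw [← map_pow, tX4, map_pow, ha]
    rw [g1, g2, g3, smul_add, smul_smul, smul_smul, one_div_mul_cancel hτ, one_smul, add_assoc,
      ← add_smul]
    congr 2
    field_simp
    ring
  refine cl_axes3_cyc (X := ρ Y') (Y := ρ Z') (Z := ρ X) (v := v) (p := 3) (q := 3) (r := m + 4)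
    (by omega) (by omega) (by omega) (by omega) hT ?_ ?_ ?_ ?_ ?_ ?_ (a := 1 / τ)
    (b := β1 - δ1 / τ) (one_div_ne_zero hτ) ?_ ?_ ?_ hv
  · rw [iY]
    exact add_mem (add_mem (add_mem mY (SMulMemClass.smul_mem _ (mp _)))
      (SMulMemClass.smul_mem _ (mp _))) (SMulMemClass.smul_mem _ (add_mem (mul_mem mA mW)
      (SMulMemClass.smul_mem _ (mp _))))
  · rw [iZ]
    exact add_mem (add_mem (add_mem mW (SMulMemClass.smul_mem _ (mp _)))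
      (SMulMemClass.smul_mem _ (mp _))) (SMulMemClass.smul_mem _ (add_mem (mul_mem mA mY)
      (SMulMemClass.smul_mem _ (mp _))))
  · rw [iX]
    exact add_mem (add_mem (sub_mem (sub_mem mA mY) mW) (SMulMemClass.smul_mem _ (add_mem
      (mul_mem mA mY) (SMulMemClass.smul_mem _ (mp _))))) (SMulMemClass.smul_mem _ (add_mem
      (mul_mem mA mW) (SMulMemClass.smul_mem _ (mp _))))
  · rw [← map_mul, tYZ, map_zero]
  · rw [← map_mul, mul_comm, tXY, map_zero]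
  · rw [← map_mul, mul_comm, tXZ, map_zero]
  · intro h0
    apply hd
    have : τ * (β1 - δ1 / τ) = τ * β1 - δ1 := by
      rw [mul_sub, mul_div_cancel₀ _ hτ]
    rw [h0, mul_zero] at this
    linear_combination this
  · rw [relm, Matrix.add_mulVec, Matrix.smul_mulVec, Matrix.smul_mulVec]
  · intro i
    fin_cases i
    · refine ⟨ρ X + ρ Y' + ρ Z', add_mem (add_mem tX tY) tZ, ?_⟩
      have e9 : A - (ρ X + ρ Y' + ρ Z') = (Y - ρ Y') + (W - ρ Z') - ξ1 • (A * Y +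
          β1 • A ^ (m + 3)) - ξ2 • (A * W + δ1 • A ^ (m + 3)) := by
        rw [iX]; abel
      show A - (ρ X + ρ Y' + ρ Z') ∈ _
      rw [e9]
      exact sub_mem (sub_mem (add_mem dY dZ) (Submodule.smul_mem _ _ sy2))
        (Submodule.smul_mem _ _ sw2)
    · exact ⟨ρ Y', tY, dY⟩
    · exact ⟨ρ Z', tZ, dZ⟩

end Pool.Agent.Lib.D13
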