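import Pool.Agent.Lib.D9.BlkShape
import Pool.Agent.Lib.D13.JordanU
import Pool.Agent.Lib.D13.RangeLim

/-!
# MP_5dcbc3_ag: matrices commuting with a Jordan matrix of type `(l, 3^e, 1^p)`, `l > 3`

Basis: `v_0, .., v_(l-1)`, `U_0, U_1, U_2` (copies of `E = k^e`), `P = k^p`; the Jordan matrix `J3` maps
`v_j -> v_(j+1)`, `U_0 -> U_1 -> U_2 -> 0`, `P -> 0`. Parameters of `B3`:
`v_0 -> a0 (in U_0) + a1 (in U_1) + a2 (in U_2) + om (in P)`,
`f (in U_0) -> b0(f) v_(l-3) + b1(f) v_(l-2) + b2(f) v_(l-1) + N1 f (in U_1) + N2 f (in U_2) + pi f (in P)`,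
`f (in P) -> ga(f) v_(l-1) + th f (in U_2)`.
`J3, B3 x, B3 y` commute if and only if `Rel l x y`.
-/

namespace Pool.Agent.Lib.D13.L3

open Matrix Pool.Agent.Lib.Q5dc Pool.Agent.Lib.D7 Pool.Agent.Lib.D13

/-- indices `v`, `U`, `P` -/
abbrev I3 (l e p : ℕ) : Type := Fin l ⊕ ((Fin 3 × Fin e) ⊕ Fin p)

/-- the parameters of a matrix `B3` -/
@[ext] structure PM (k : Type*) (e p : ℕ) where
  a0 : Fin e → k
  a1 : Fin e → k
  a2 : Fin e → k
  om : Fin p → k
  b0 : Fin e → k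
  b1 : Fin e → k
  b2 : Fin e → k
  N1 : Matrix (Fin e) (Fin e) k
  N2 : Matrix (Fin e) (Fin e) k
  pi : Matrix (Fin p) (Fin e) k
  ga : Fin p → k
  th : Matrix (Fin e) (Fin p) k

variable {k : Type*} [Field k] {l e p : ℕ}

/-- the Jordan matrix -/
def J3 (k : Type*) [Field k] (l e p : ℕ) : Matrix (I3 l e p) (I3 l e p) k :=
  Matrix.of fun i j => match i, j with
    | .inl i, .inl j => if (i : ℕ) = j + 1 then 1 else 0
    | .inr (.inl i), .inr (.inl j) => if i.2 = j.2 ∧ (i.1 : ℕ) = j.1 + 1 then 1 else 0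
    | _, _ => 0

/-- the matrix with the parameters `x` -/
def B3 (l : ℕ) (x : PM k e p) : Matrix (I3 l e p) (I3 l e p) k :=
  Matrix.of fun i j => match i, j with
    | .inr (.inl i), .inl j => if (i.1 : ℕ) = j then x.a0 i.2 else
        if (i.1 : ℕ) = j + 1 then x.a1 i.2 else if (i.1 : ℕ) = j + 2 then x.a2 i.2 else 0
    | .inr (.inr t), .inl j => if (j : ℕ) = 0 then x.om t else 0
    | .inl i, .inr (.inl j) => if (i : ℕ) + 3 = l + j.1 then x.b0 j.2 else
        if (i : ℕ) + 2 = l + j.1 then x.b1 j.2 else if (i : ℕ) + 1 = l + j.1 then x.b2 j.2 else 0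
    | .inr (.inl i), .inr (.inl j) => if (i.1 : ℕ) = j.1 + 1 then x.N1 i.2 j.2 else
        if (i.1 : ℕ) = j.1 + 2 then x.N2 i.2 j.2 else 0
    | .inr (.inr s), .inr (.inl j) => if (j.1 : ℕ) = 0 then x.pi s j.2 else 0
    | .inl i, .inr (.inr t) => if (i : ℕ) + 1 = l then x.ga t else 0
    | .inr (.inl i), .inr (.inr t) => if (i.1 : ℕ) = 2 then x.th i.2 t else 0
    | _, _ => 0

/-- `v_j` -/
def v3 (j : ℕ) : I3 l e p → k
  | .inl i => if (i : ℕ) = j then 1 else 0
  | _ => 0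

/-- the element `f` of `U_j` -/
def u3 (j : ℕ) (f : Fin e → k) : I3 l e p → k
  | .inr (.inl i) => if (i.1 : ℕ) = j then f i.2 else 0
  | _ => 0

/-- an element of `P` -/
def p3 (f : Fin p → k) : I3 l e p → k
  | .inr (.inr a) => f a
  | _ => 0

theorem v3_ge {j : ℕ} (h : l ≤ j) : (v3 j : I3 l e p → k) = 0 := by
  funext x
  rcases x with x | x | x
  · simp only [v3, Pi.zero_apply]
    rw [if_neg]
    have := x.2
    omega
  · rfl
  · rfl

theorem u3_ge {j : ℕ} (h : 3 ≤ j) (f : Fin e → k) : (u3 j f : I3 l e p → k) = 0 := by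
  funext x
  rcases x with x | x | x
  · rfl
  · simp only [u3, Pi.zero_apply]
    rw [if_neg]
    have := x.1.2
    omega
  · rfl

@[simp] theorem u3_zero (j : ℕ) : (u3 j (0 : Fin e → k) : I3 l e p → k) = 0 := by
  funext x
  rcases x with x | x | x <;> simp [u3]

@[simp] theorem p3_zero : (p3 (0 : Fin p → k) : I3 l e p → k) = 0 := by
  funext x
  rcases x with x | x | x <;> rfl

theorem u3_add (j : ℕ) (f g : Fin e → k) : (u3 j (f + g) : I3 l e p → k) = u3 j f + u3 j g := by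
  funext x
  rcases x with x | x | x <;> simp [u3]
  split_ifs <;> simp

theorem u3_smul (j : ℕ) (s : k) (f : Fin e → k) : (u3 j (s • f) : I3 l e p → k) = s • u3 j f := by
  funext x
  rcases x with x | x | x <;> simp [u3]

theorem p3_add (f g : Fin p → k) : (p3 (f + g) : I3 l e p → k) = p3 f + p3 g := by
  funext x
  rcases x with x | x | x <;> simp [p3]

theorem p3_smul (s : k) (f : Fin p → k) : (p3 (s • f) : I3 l e p → k) = s • p3 f := by
  funext x
  rcases x with x | x | x <;> simp [p3]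

/-- columns -/
theorem mulVec_v3 (M : Matrix (I3 l e p) (I3 l e p) k) (j : Fin l) :
    M *ᵥ v3 j = fun x => M x (.inl j) := by
  funext x
  simp [Matrix.mulVec, dotProduct, Fintype.sum_sum_type, v3, Fin.val_inj]

theorem mulVec_v30 (M : Matrix (I3 l e p) (I3 l e p) k) (h : 0 < l) :
    M *ᵥ v3 0 = fun x => M x (.inl ⟨0, h⟩) := mulVec_v3 M ⟨0, h⟩

theorem mulVec_u3 (M : Matrix (I3 l e p) (I3 l e p) k) (j : Fin 3) (f : Fin e → k) :
    M *ᵥ u3 j f = fun x => ∑ s, M x (.inr (.inl (j, s))) * f s := by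
  funext x
  simp only [Matrix.mulVec, dotProduct, Fintype.sum_sum_type, Fintype.sum_prod_type, u3, mul_zero,
    Finset.sum_const_zero, zero_add, add_zero, Fin.val_inj, mul_ite]
  rw [Finset.sum_eq_single j]
  · simp
  · intro b _ hb
    simp [hb]
  · intro h
    exact absurd (Finset.mem_univ _) h

theorem mulVec_u30 (M : Matrix (I3 l e p) (I3 l e p) k) (f : Fin e → k) :
    M *ᵥ u3 0 f = fun x => ∑ s, M x (.inr (.inl (0, s))) * f s := mulVec_u3 M 0 f

theorem mulVec_p3 (M : Matrix (I3 l e p) (I3 l e p) k) (f : Fin p → k) :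
    M *ᵥ p3 f = fun x => ∑ a, M x (.inr (.inr a)) * f a := by
  funext x
  simp [Matrix.mulVec, dotProduct, Fintype.sum_sum_type, p3]

/-- matrices are determined by the images of the basis vectors -/
theorem ext_vup {A B : Matrix (I3 l e p) (I3 l e p) k} (h1 : ∀ j < l, A *ᵥ v3 j = B *ᵥ v3 j)
    (h2 : ∀ j < 3, ∀ f, A *ᵥ u3 j f = B *ᵥ u3 j f) (h3 : ∀ f, A *ᵥ p3 f = B *ᵥ p3 f) : A = B := by
  ext x y
  rcases y with y | y | y
  · have := congrFun (h1 y y.2) x
    rwa [mulVec_v3, mulVec_v3] at this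
  · obtain ⟨j, s⟩ := y
    have := congrFun (h2 j j.2 (Pi.single s 1)) x
    rw [mulVec_u3, mulVec_u3] at this
    simpa [Pi.single_apply] using this
  · have := congrFun (h3 (Pi.single y 1)) x
    rw [mulVec_p3, mulVec_p3] at this
    simpa [Pi.single_apply] using this

/-! ### the Jordan matrix -/

theorem J3_v (j : ℕ) : J3 k l e p *ᵥ v3 j = v3 (j + 1) := by
  rcases Nat.lt_or_ge j l with h | h
  · rw [show j = ((⟨j, h⟩ : Fin l) : ℕ) from rfl, mulVec_v3]
    funext x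
    rcases x with x | x | x <;> simp [J3, v3]
  · rw [v3_ge h, v3_ge (by omega), mulVec_zero]

theorem J3_u (j : ℕ) (f : Fin e → k) : J3 k l e p *ᵥ u3 j f = u3 (j + 1) f := by
  rcases Nat.lt_or_ge j 3 with h | h
  · rw [show j = ((⟨j, h⟩ : Fin 3) : ℕ) from rfl, mulVec_u3]
    funext x
    rcases x with x | x | x
    · simp [J3, u3]
    · simp only [J3, u3, Matrix.of_apply, ite_mul, one_mul, zero_mul]
      by_cases h1 : (x.1 : ℕ) = j + 1
      · simp [h1]
      · simp [h1]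
    · simp [J3, u3]
  · rw [u3_ge h, u3_ge (by omega), mulVec_zero]

theorem J3_p (f : Fin p → k) : J3 k l e p *ᵥ p3 f = 0 := by
  rw [mulVec_p3]
  funext x
  rcases x with x | x | x <;> simp [J3]

theorem J3_pow_v (i j : ℕ) : J3 k l e p ^ i *ᵥ v3 j = v3 (j + i) := by
  induction i with
  | zero => simp
  | succ i ih => rw [pow_succ', ← mulVec_mulVec, ih, J3_v]; rfl

theorem J3_pow_u (i j : ℕ) (f : Fin e → k) : J3 k l e p ^ i *ᵥ u3 j f = u3 (j + i) f := by
  induction i with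
  | zero => simp
  | succ i ih => rw [pow_succ', ← mulVec_mulVec, ih, J3_u]; rfl

theorem J3_pow_p (i : ℕ) (f : Fin p → k) : J3 k l e p ^ (i + 1) *ᵥ p3 f = 0 := by
  rw [pow_succ, ← mulVec_mulVec, J3_p, mulVec_zero]

theorem J3_pow (h : 3 ≤ l) : J3 k l e p ^ l = 0 := by
  refine ext_vup (fun j _ => ?_) (fun j _ f => ?_) fun f => ?_
  · rw [J3_pow_v, v3_ge (by omega), zero_mulVec]
  · rw [J3_pow_u, u3_ge (by omega), zero_mulVec]
  · obtain ⟨i, rfl⟩ : ∃ i, l = i + 1 := ⟨l - 1, by omega⟩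
    rw [J3_pow_p, zero_mulVec]

theorem J3_apply_v (w : I3 l e p → k) (i : Fin l) :
    (J3 k l e p *ᵥ w) (.inl i) = if h : 0 < (i : ℕ) then w (.inl ⟨i - 1, by omega⟩) else 0 := by
  simp only [Matrix.mulVec, dotProduct, Fintype.sum_sum_type, J3, Matrix.of_apply, zero_mul,
    Finset.sum_const_zero, add_zero]
  split_ifs with h
  · rw [Finset.sum_eq_single ⟨i - 1, by omega⟩]
    · rw [if_pos (by first | omega | (simp only; omega)), one_mul]
    · intro b _ hb
      rw [if_neg, zero_mul]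
      intro h1
      exact hb (Fin.ext (by first | omega | (simp only; omega)))
    · intro h1
      exact absurd (Finset.mem_univ _) h1
  · refine Finset.sum_eq_zero fun b _ => ?_
    rw [if_neg (by omega), zero_mul]

theorem J3_apply_u (w : I3 l e p → k) (i : Fin 3) (s : Fin e) :
    (J3 k l e p *ᵥ w) (.inr (.inl (i, s))) =
      if h : 0 < (i : ℕ) then w (.inr (.inl (⟨i - 1, by omega⟩, s))) else 0 := by
  simp only [Matrix.mulVec, dotProduct, Fintype.sum_sum_type, J3, Matrix.of_apply, zero_mul,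
    Finset.sum_const_zero, add_zero, zero_add]
  split_ifs with h
  · rw [Finset.sum_eq_single (⟨i - 1, by omega⟩, s)]
    · rw [if_pos ⟨rfl, by first | omega | (simp only; omega)⟩, one_mul]
    · intro b _ hb
      rw [if_neg, zero_mul]
      rintro ⟨h0, h1⟩
      exact hb (Prod.ext (Fin.ext (by first | omega | (simp only; omega))) h0.symm)
    · intro h1
      exact absurd (Finset.mem_univ _) h1
  · refine Finset.sum_eq_zero fun b _ => ?_
    rw [if_neg (by omega), zero_mul]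

theorem J3_apply_p (w : I3 l e p → k) (i : Fin p) :
    (J3 k l e p *ᵥ w) (.inr (.inr i)) = 0 := by
  simp [Matrix.mulVec, dotProduct, J3]

theorem J3_pow_apply_v (j : ℕ) (w : I3 l e p → k) (i : Fin l) :
    (J3 k l e p ^ j *ᵥ w) (.inl i) = if h : j ≤ (i : ℕ) then w (.inl ⟨i - j, by omega⟩) else 0 := by
  induction j generalizing i with
  | zero => simp
  | succ j ih =>
    rw [pow_succ', ← mulVec_mulVec, J3_apply_v]
    by_cases h : 0 < (i : ℕ)
    · rw [dif_pos h, ih]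
      by_cases h2 : j ≤ (i : ℕ) - 1
      · rw [dif_pos h2, dif_pos (by omega)]
        congr 2
        exact Fin.ext (by first | omega | (simp only; omega))
      · rw [dif_neg h2, dif_neg (by omega)]
    · rw [dif_neg h, dif_neg (by omega)]

theorem J3_pow_apply_u (j : ℕ) (w : I3 l e p → k) (i : Fin 3) (s : Fin e) :
    (J3 k l e p ^ j *ᵥ w) (.inr (.inl (i, s))) =
      if h : j ≤ (i : ℕ) then w (.inr (.inl (⟨i - j, by omega⟩, s))) else 0 := by
  induction j generalizing i with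
  | zero => simp
  | succ j ih =>
    rw [pow_succ', ← mulVec_mulVec, J3_apply_u]
    by_cases h : 0 < (i : ℕ)
    · rw [dif_pos h, ih]
      by_cases h2 : j ≤ (i : ℕ) - 1
      · rw [dif_pos h2, dif_pos (by omega)]
        congr 4
        exact Fin.ext (by first | omega | (simp only; omega))
      · rw [dif_neg h2, dif_neg (by omega)]
    · rw [dif_neg h, dif_neg (by omega)]

theorem J3_pow_apply_p (j : ℕ) (w : I3 l e p → k) (i : Fin p) :
    (J3 k l e p ^ j *ᵥ w) (.inr (.inr i)) = if j = 0 then w (.inr (.inr i)) else 0 := by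
  cases j with
  | zero => simp
  | succ j => rw [pow_succ', ← mulVec_mulVec, J3_apply_p, if_neg (by omega)]

/-! ### the matrices `B3` -/

theorem B3_v (x : PM k e p) (j : ℕ) : B3 l x *ᵥ v3 j = if j < l then
    u3 j x.a0 + u3 (j + 1) x.a1 + u3 (j + 2) x.a2 + (if j = 0 then p3 x.om else 0) else 0 := by
  rcases Nat.lt_or_ge j l with h | h
  · rw [if_pos h, show j = ((⟨j, h⟩ : Fin l) : ℕ) from rfl, mulVec_v3]
    funext y
    rcases y with y | y | y
    · simp only [B3, Matrix.of_apply, Pi.add_apply, u3, zero_add]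
      split_ifs <;> rfl
    · simp only [B3, Matrix.of_apply, Pi.add_apply, u3]
      have h3 : ((if j = 0 then p3 x.om else 0 : I3 l e p → k)) (.inr (.inl y)) = 0 := by
        split_ifs <;> rfl
      rw [h3]
      split_ifs <;> first | omega | simp
    · simp only [B3, Matrix.of_apply, Pi.add_apply, u3, zero_add]
      split_ifs <;> rfl
  · rw [if_neg (by omega), v3_ge h, mulVec_zero]

theorem B3_u (x : PM k e p) (hl : 3 ≤ l) (j : ℕ) (f : Fin e → k) : B3 l x *ᵥ u3 j f = if j < 3 then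
    (x.b0 ⬝ᵥ f) • v3 (l - 3 + j) + (x.b1 ⬝ᵥ f) • v3 (l - 2 + j) + (x.b2 ⬝ᵥ f) • v3 (l - 1 + j) +
    u3 (j + 1) (x.N1 *ᵥ f) + u3 (j + 2) (x.N2 *ᵥ f) + (if j = 0 then p3 (x.pi *ᵥ f) else 0)
    else 0 := by
  rcases Nat.lt_or_ge j 3 with h | h
  · rw [if_pos h, show j = ((⟨j, h⟩ : Fin 3) : ℕ) from rfl, mulVec_u3]
    funext y
    rcases y with y | y | y
    · simp only [B3, Matrix.of_apply, Pi.add_apply, u3, v3, Pi.smul_apply, smul_eq_mul]
      have h3 : ((if j = 0 then p3 (x.pi *ᵥ f) else 0 : I3 l e p → k)) (.inl y) = 0 := by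
        split_ifs <;> rfl
      rw [h3]
      have hy := y.2
      by_cases h0 : (y : ℕ) + 3 = l + j
      · rw [if_pos (c := (y : ℕ) = l - 3 + j) (by omega), if_neg (c := (y : ℕ) = l - 2 + j) (by omega),
          if_neg (c := (y : ℕ) = l - 1 + j) (by omega)]
        simp only [if_pos h0, dotProduct]
        simp
      · by_cases h1 : (y : ℕ) + 2 = l + j
        · rw [if_neg (c := (y : ℕ) = l - 3 + j) (by omega),
            if_pos (c := (y : ℕ) = l - 2 + j) (by omega),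
            if_neg (c := (y : ℕ) = l - 1 + j) (by omega)]
          simp only [if_neg h0, if_pos h1, dotProduct]
          simp
        · by_cases h2 : (y : ℕ) + 1 = l + j
          · rw [if_neg (c := (y : ℕ) = l - 3 + j) (by omega),
              if_neg (c := (y : ℕ) = l - 2 + j) (by omega),
              if_pos (c := (y : ℕ) = l - 1 + j) (by omega)]
            simp only [if_neg h0, if_neg h1, if_pos h2, dotProduct]
            simp
          · rw [if_neg (c := (y : ℕ) = l - 3 + j) (by omega),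
              if_neg (c := (y : ℕ) = l - 2 + j) (by omega),
              if_neg (c := (y : ℕ) = l - 1 + j) (by omega)]
            simp only [if_neg h0, if_neg h1, if_neg h2]
            simp
    · simp only [B3, Matrix.of_apply, Pi.add_apply, u3, v3, Pi.smul_apply, smul_eq_mul, mul_zero,
        zero_add]
      have h3 : ((if j = 0 then p3 (x.pi *ᵥ f) else 0 : I3 l e p → k)) (.inr (.inl y)) = 0 := by
        split_ifs <;> rfl
      rw [h3]
      by_cases h0 : (y.1 : ℕ) = j + 1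
      · simp [h0, mulVec, dotProduct]
      · by_cases h1 : (y.1 : ℕ) = j + 2
        · simp [h1, mulVec, dotProduct]
        · simp [h0, h1]
    · simp only [B3, Matrix.of_apply, Pi.add_apply, u3, v3, Pi.smul_apply, smul_eq_mul, mul_zero,
        zero_add]
      by_cases h0 : j = 0
      · simp [h0, mulVec, dotProduct, p3]
      · simp [h0]
  · rw [if_neg (by omega), u3_ge h, mulVec_zero]

theorem B3_p (x : PM k e p) (f : Fin p → k) :
    B3 l x *ᵥ p3 f = (x.ga ⬝ᵥ f) • v3 (l - 1) + u3 2 (x.th *ᵥ f) := by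
  rw [mulVec_p3]
  funext y
  rcases y with y | y | y
  · have hy := y.2
    simp only [B3, Matrix.of_apply, Pi.add_apply, u3, v3, Pi.smul_apply, smul_eq_mul, add_zero]
    by_cases h : (y : ℕ) + 1 = l
    · rw [if_pos (c := (y : ℕ) = l - 1) (by omega)]
      simp only [if_pos h, dotProduct]
      simp
    · rw [if_neg (c := (y : ℕ) = l - 1) (by omega)]
      simp only [if_neg h]
      simp
  · by_cases h : (y.1 : ℕ) = 2 <;> simp [B3, u3, v3, h, mulVec, dotProduct]
  · simp [B3, u3, v3]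

theorem B3_v0 (x : PM k e p) (hl : 0 < l) :
    B3 l x *ᵥ v3 0 = u3 0 x.a0 + u3 1 x.a1 + u3 2 x.a2 + p3 x.om := by
  rw [B3_v, if_pos hl]
  simp

theorem B3_vs (x : PM k e p) (hl : 3 ≤ l) {j : ℕ} (hj : 0 < j) :
    B3 l x *ᵥ v3 j = u3 j x.a0 + u3 (j + 1) x.a1 + u3 (j + 2) x.a2 := by
  rw [B3_v]
  by_cases h : j < l
  · rw [if_pos h, if_neg (show ¬ j = 0 by omega), add_zero]
  · rw [if_neg h, u3_ge (by omega), u3_ge (by omega), u3_ge (by omega)]
    simp

theorem B3_u0 (x : PM k e p) (hl : 3 ≤ l) (f : Fin e → k) :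
    B3 l x *ᵥ u3 0 f = (x.b0 ⬝ᵥ f) • v3 (l - 3) + (x.b1 ⬝ᵥ f) • v3 (l - 2) +
      (x.b2 ⬝ᵥ f) • v3 (l - 1) + u3 1 (x.N1 *ᵥ f) + u3 2 (x.N2 *ᵥ f) + p3 (x.pi *ᵥ f) := by
  rw [B3_u x hl, if_pos (show 0 < 3 by norm_num)]
  simp

theorem B3_u1 (x : PM k e p) (hl : 3 ≤ l) (f : Fin e → k) :
    B3 l x *ᵥ u3 1 f = (x.b0 ⬝ᵥ f) • v3 (l - 2) + (x.b1 ⬝ᵥ f) • v3 (l - 1) +
      u3 2 (x.N1 *ᵥ f) := by
  rw [B3_u x hl, if_pos (show 1 < 3 by norm_num), show l - 3 + 1 = l - 2 by omega,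
    show l - 2 + 1 = l - 1 by omega, v3_ge (show l ≤ l - 1 + 1 by omega),
    u3_ge (show 3 ≤ 1 + 2 by norm_num)]
  simp

theorem B3_u2 (x : PM k e p) (hl : 3 ≤ l) (f : Fin e → k) :
    B3 l x *ᵥ u3 2 f = (x.b0 ⬝ᵥ f) • v3 (l - 1) := by
  rw [B3_u x hl, if_pos (show 2 < 3 by norm_num), show l - 3 + 2 = l - 1 by omega,
    v3_ge (show l ≤ l - 2 + 2 by omega), v3_ge (show l ≤ l - 1 + 2 by omega),
    u3_ge (show 3 ≤ 2 + 1 by norm_num), u3_ge (show 3 ≤ 2 + 2 by norm_num)]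
  simp

/-! ### relations -/

/-- the extra term of `C9` -/
def Ex (l : ℕ) (x y : PM k e p) : Matrix (Fin e) (Fin e) k :=
  if l = 4 then vecMulVec x.a1 y.b0 + vecMulVec x.a0 y.b1 else
    if l = 5 then vecMulVec x.a0 y.b0 else 0

/-- the conditions for `B3 l x` and `B3 l y` to commute -/
structure Rel (l : ℕ) (x y : PM k e p) : Prop where
  C1 : x.b0 ⬝ᵥ y.a0 = y.b0 ⬝ᵥ x.a0
  C2 : x.b0 ⬝ᵥ y.a1 + x.b1 ⬝ᵥ y.a0 = y.b0 ⬝ᵥ x.a1 + y.b1 ⬝ᵥ x.a0
  C3 : x.b0 ⬝ᵥ y.a2 + x.b1 ⬝ᵥ y.a1 + x.b2 ⬝ᵥ y.a0 + x.ga ⬝ᵥ y.om =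
    y.b0 ⬝ᵥ x.a2 + y.b1 ⬝ᵥ x.a1 + y.b2 ⬝ᵥ x.a0 + y.ga ⬝ᵥ x.om
  C4 : x.N1 *ᵥ y.a0 = y.N1 *ᵥ x.a0
  C5 : x.N1 *ᵥ y.a1 + x.N2 *ᵥ y.a0 + x.th *ᵥ y.om = y.N1 *ᵥ x.a1 + y.N2 *ᵥ x.a0 + y.th *ᵥ x.om
  C6 : x.pi *ᵥ y.a0 = y.pi *ᵥ x.a0
  C7 : x.b0 ᵥ* y.N1 = y.b0 ᵥ* x.N1
  C8 : x.b1 ᵥ* y.N1 + x.b0 ᵥ* y.N2 + x.ga ᵥ* y.pi = y.b1 ᵥ* x.N1 + y.b0 ᵥ* x.N2 + y.ga ᵥ* x.pi
  C9 : x.N1 * y.N1 + x.th * y.pi + Ex l x y = y.N1 * x.N1 + y.th * x.pi + Ex l y x
  C10 : x.b0 ᵥ* y.th = y.b0 ᵥ* x.th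
  C11 : l = 4 → vecMulVec x.a0 y.b0 = vecMulVec y.a0 x.b0

/-- the vectors which occur as images of products -/
def nf (l : ℕ) (α β γ : k) (f g : Fin e → k) (h : Fin p → k) : I3 l e p → k :=
  α • v3 (l - 3) + β • v3 (l - 2) + γ • v3 (l - 1) + u3 1 f + u3 2 g + p3 h

theorem nf_inj (hl : 3 ≤ l) {α β γ α' β' γ' : k} {f g f' g' : Fin e → k} {h h' : Fin p → k}
    (H : nf l α β γ f g h = nf l α' β' γ' f' g' h') :
    α = α' ∧ β = β' ∧ γ = γ' ∧ f = f' ∧ g = g' ∧ h = h' := by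
  refine ⟨?_, ?_, ?_, ?_, ?_, ?_⟩
  · have := congrFun H (.inl ⟨l - 3, by omega⟩)
    have e1 : ¬ l - 3 = l - 2 := by omega
    have e2 : ¬ l - 3 = l - 1 := by omega
    simpa [nf, v3, u3, p3, e1, e2] using this
  · have := congrFun H (.inl ⟨l - 2, by omega⟩)
    have e1 : ¬ l - 2 = l - 3 := by omega
    have e2 : ¬ l - 2 = l - 1 := by omega
    simpa [nf, v3, u3, p3, e1, e2] using this
  · have := congrFun H (.inl ⟨l - 1, by omega⟩)
    have e1 : ¬ l - 1 = l - 3 := by omega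
    have e2 : ¬ l - 1 = l - 2 := by omega
    simpa [nf, v3, u3, p3, e1, e2] using this
  · funext i
    have := congrFun H (.inr (.inl (1, i)))
    simpa [nf, v3, u3, p3] using this
  · funext i
    have := congrFun H (.inr (.inl (2, i)))
    simpa [nf, v3, u3, p3] using this
  · funext i
    have := congrFun H (.inr (.inr i))
    simpa [nf, v3, u3, p3] using this

theorem mul_v (hl : 4 ≤ l) (x y : PM k e p) : (B3 l x * B3 l y) *ᵥ v3 0 =
    nf l (x.b0 ⬝ᵥ y.a0) (x.b0 ⬝ᵥ y.a1 + x.b1 ⬝ᵥ y.a0)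
      (x.b0 ⬝ᵥ y.a2 + x.b1 ⬝ᵥ y.a1 + x.b2 ⬝ᵥ y.a0 + x.ga ⬝ᵥ y.om)
      (x.N1 *ᵥ y.a0) (x.N1 *ᵥ y.a1 + x.N2 *ᵥ y.a0 + x.th *ᵥ y.om) (x.pi *ᵥ y.a0) := by
  have hl' : 3 ≤ l := by omega
  rw [← mulVec_mulVec, B3_v0 _ (by omega), mulVec_add, mulVec_add, mulVec_add, B3_u0 _ hl',
    B3_u1 _ hl', B3_u2 _ hl', B3_p]
  simp only [nf, add_smul, u3_add]
  abel

theorem mul_u (hl : 4 ≤ l) (x y : PM k e p) (f : Fin e → k) : (B3 l x * B3 l y) *ᵥ u3 0 f =
    nf l 0 ((x.b0 ᵥ* y.N1) ⬝ᵥ f) ((x.b1 ᵥ* y.N1 + x.b0 ᵥ* y.N2 + x.ga ᵥ* y.pi) ⬝ᵥ f)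
      (if l = 4 then vecMulVec x.a0 y.b0 *ᵥ f else 0)
      ((x.N1 * y.N1 + x.th * y.pi + Ex l x y) *ᵥ f) 0 := by
  have hl' : 3 ≤ l := by omega
  have e1 : (x.b0 ᵥ* y.N1) ⬝ᵥ f = x.b0 ⬝ᵥ (y.N1 *ᵥ f) := (dotProduct_mulVec _ _ _).symm
  have e2 : (x.b1 ᵥ* y.N1 + x.b0 ᵥ* y.N2 + x.ga ᵥ* y.pi) ⬝ᵥ f =
      x.b1 ⬝ᵥ (y.N1 *ᵥ f) + x.b0 ⬝ᵥ (y.N2 *ᵥ f) + x.ga ⬝ᵥ (y.pi *ᵥ f) := by
    rw [add_dotProduct, add_dotProduct, ← dotProduct_mulVec, ← dotProduct_mulVec,
      ← dotProduct_mulVec]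
  have e3 : ∀ a b : Fin e → k, vecMulVec a b *ᵥ f = (b ⬝ᵥ f) • a := fun a b => by
    rw [vecMulVec_mulVec]
    simp
  rw [← mulVec_mulVec, B3_u0 y hl', e1, e2]
  simp only [mulVec_add, mulVec_smul]
  rw [B3_vs x hl' (show 0 < l - 3 by omega), B3_vs x hl' (show 0 < l - 2 by omega),
    B3_vs x hl' (show 0 < l - 1 by omega), B3_u1 x hl', B3_u2 x hl', B3_p,
    u3_ge (show 3 ≤ l - 1 by omega), u3_ge (show 3 ≤ l - 1 + 1 by omega),
    u3_ge (show 3 ≤ l - 1 + 2 by omega), u3_ge (show 3 ≤ l - 2 + 2 by omega),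
    u3_ge (show 3 ≤ l - 2 + 1 by omega), u3_ge (show 3 ≤ l - 3 + 2 by omega)]
  rcases Nat.lt_or_ge l 5 with h5 | h5
  · obtain rfl : l = 4 := by omega
    simp only [nf, Ex, if_true, smul_zero, add_zero, add_smul, add_mulVec, ← mulVec_mulVec, e3,
      smul_add, zero_smul, zero_add, p3_zero, u3_add, u3_smul,
      show 4 - 3 = 1 by norm_num, show 4 - 2 = 2 by norm_num, show 4 - 1 = 3 by norm_num,
      show 1 + 1 = 2 by norm_num]
    abel
  · rcases Nat.lt_or_ge l 6 with h6 | h6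
    · obtain rfl : l = 5 := by omega
      simp only [nf, Ex, if_true, smul_zero, add_zero, add_smul, add_mulVec, ← mulVec_mulVec, e3,
        zero_smul, zero_add, p3_zero, u3_add, u3_smul, u3_zero,
        if_neg (show ¬ (5 : ℕ) = 4 by norm_num), u3_ge (show 3 ≤ 5 - 2 by norm_num),
        show 5 - 3 = 2 by norm_num]
      abel
    · rw [u3_ge (show 3 ≤ l - 3 by omega), u3_ge (show 3 ≤ l - 2 by omega),
        u3_ge (show 3 ≤ l - 3 + 1 by omega)]
      simp only [nf, Ex, if_neg (show ¬ l = 4 by omega), if_neg (show ¬ l = 5 by omega), smul_zero,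
        add_zero, add_smul, add_mulVec, ← mulVec_mulVec, zero_smul, zero_add, p3_zero, u3_add,
        u3_zero]
      abel

theorem mul_p (hl : 4 ≤ l) (x y : PM k e p) (f : Fin p → k) : (B3 l x * B3 l y) *ᵥ p3 f =
    nf l 0 0 ((x.b0 ᵥ* y.th) ⬝ᵥ f) 0 0 0 := by
  have hl' : 3 ≤ l := by omega
  rw [← mulVec_mulVec, B3_p, mulVec_add, mulVec_smul, B3_vs _ hl' (by omega), B3_u2 x hl',
    u3_ge (show 3 ≤ l - 1 by omega), u3_ge (show 3 ≤ l - 1 + 1 by omega),
    u3_ge (show 3 ≤ l - 1 + 2 by omega), ← dotProduct_mulVec]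
  simp [nf]

/-! ### commutation with the Jordan matrix -/

theorem B3_comm (hl : 3 ≤ l) (x : PM k e p) : J3 k l e p * B3 l x = B3 l x * J3 k l e p := by
  refine ext_vup (fun j hj => ?_) (fun j hj f => ?_) fun f => ?_
  · rw [← mulVec_mulVec, ← mulVec_mulVec, J3_v, B3_vs _ hl (show 0 < j + 1 by omega)]
    rcases Nat.eq_zero_or_pos j with rfl | h
    · rw [B3_v0 _ (by omega)]
      simp only [mulVec_add, J3_u, J3_p, add_zero]
    · rw [B3_vs _ hl h]
      simp only [mulVec_add, J3_u]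
  · rw [← mulVec_mulVec, ← mulVec_mulVec, J3_u]
    obtain rfl | rfl | rfl : j = 0 ∨ j = 1 ∨ j = 2 := by omega
    · rw [B3_u0 _ hl, show 0 + 1 = 1 by norm_num, B3_u1 _ hl]
      simp only [mulVec_add, mulVec_smul, J3_u, J3_v, J3_p, add_zero]
      rw [show l - 3 + 1 = l - 2 by omega, show l - 2 + 1 = l - 1 by omega,
        v3_ge (show l ≤ l - 1 + 1 by omega), u3_ge (show 3 ≤ 2 + 1 by norm_num),
        show 1 + 1 = 2 by norm_num]
      simp
    · rw [B3_u1 _ hl, show 1 + 1 = 2 by norm_num, B3_u2 _ hl]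
      simp only [mulVec_add, mulVec_smul, J3_u, J3_v]
      rw [show l - 2 + 1 = l - 1 by omega,
        v3_ge (show l ≤ l - 1 + 1 by omega), u3_ge (show 3 ≤ 2 + 1 by norm_num)]
      simp
    · rw [B3_u2 _ hl, u3_ge (show 3 ≤ 2 + 1 by norm_num), mulVec_smul, J3_v,
        v3_ge (show l ≤ l - 1 + 1 by omega)]
      simp
  · rw [← mulVec_mulVec, ← mulVec_mulVec, J3_p, B3_p, mulVec_add, mulVec_smul, J3_v, J3_u,
      v3_ge (by omega), u3_ge (by norm_num)]
    simp

theorem comm_v {X : Matrix (I3 l e p) (I3 l e p) k} (hX : J3 k l e p * X = X * J3 k l e p)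
    (j : ℕ) : X *ᵥ v3 j = J3 k l e p ^ j *ᵥ (X *ᵥ v3 0) := by
  have h : Commute (J3 k l e p) X := hX
  rw [mulVec_mulVec, (h.pow_left j).eq, ← mulVec_mulVec, J3_pow_v, zero_add]

theorem comm_u {X : Matrix (I3 l e p) (I3 l e p) k} (hX : J3 k l e p * X = X * J3 k l e p)
    (j : ℕ) (f : Fin e → k) : X *ᵥ u3 j f = J3 k l e p ^ j *ᵥ (X *ᵥ u3 0 f) := by
  have h : Commute (J3 k l e p) X := hX
  rw [mulVec_mulVec, (h.pow_left j).eq, ← mulVec_mulVec, J3_pow_u, zero_add]

theorem comm_p {X : Matrix (I3 l e p) (I3 l e p) k} (hX : J3 k l e p * X = X * J3 k l e p)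
    (f : Fin p → k) : J3 k l e p *ᵥ (X *ᵥ p3 f) = 0 := by
  rw [mulVec_mulVec, hX, ← mulVec_mulVec, J3_p, mulVec_zero]

/-- matrices commuting with the Jordan matrix are determined by the images of the generators -/
theorem ext_gen {A B : Matrix (I3 l e p) (I3 l e p) k} (hA : J3 k l e p * A = A * J3 k l e p)
    (hB : J3 k l e p * B = B * J3 k l e p) (h1 : A *ᵥ v3 0 = B *ᵥ v3 0)
    (h2 : ∀ f, A *ᵥ u3 0 f = B *ᵥ u3 0 f) (h3 : ∀ f, A *ᵥ p3 f = B *ᵥ p3 f) : A = B := by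
  refine ext_vup (fun j _ => ?_) (fun j _ f => ?_) h3
  · rw [comm_v hA, comm_v hB, h1]
  · rw [comm_u hA, comm_u hB, h2]

theorem dot_ext {n : Type*} [Fintype n] [DecidableEq n] {a b : n → k}
    (h : ∀ f, a ⬝ᵥ f = b ⬝ᵥ f) : a = b := by
  funext i
  simpa using h (Pi.single i 1)

theorem mulVec_ext {m n : Type*} [Fintype n] [DecidableEq n] {M N : Matrix m n k}
    (h : ∀ f, M *ᵥ f = N *ᵥ f) : M = N := by
  ext i j
  have := congrFun (h (Pi.single j 1)) i
  simpa using this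

/-- `B3 l x` and `B3 l y` commute if and only if the relations hold -/
theorem mul_comm_iff (hl : 4 ≤ l) (x y : PM k e p) :
    B3 l x * B3 l y = B3 l y * B3 l x ↔ Rel l x y := by
  constructor
  · intro h
    have h1 := congrArg (fun M => M *ᵥ v3 0) h
    simp only [mul_v hl] at h1
    obtain ⟨c1, c2, c3, c4, c5, c6⟩ := nf_inj (by omega) h1
    have h2 : ∀ f, (B3 l x * B3 l y) *ᵥ u3 0 f = (B3 l y * B3 l x) *ᵥ u3 0 f := fun f => by rw [h]
    simp only [mul_u hl] at h2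
    have h3 : ∀ f, (B3 l x * B3 l y) *ᵥ p3 f = (B3 l y * B3 l x) *ᵥ p3 f := fun f => by rw [h]
    simp only [mul_p hl] at h3
    refine ⟨c1, c2, c3, c4, c5, c6, dot_ext fun f => (nf_inj (by omega) (h2 f)).2.1,
      dot_ext fun f => (nf_inj (by omega) (h2 f)).2.2.1,
      mulVec_ext fun f => (nf_inj (by omega) (h2 f)).2.2.2.2.1,
      dot_ext fun f => (nf_inj (by omega) (h3 f)).2.2.1, fun h4 => mulVec_ext fun f => ?_⟩
    have h5 := (nf_inj (by omega) (h2 f)).2.2.2.1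
    rwa [if_pos h4, if_pos h4] at h5
  · intro h
    have e0 : ∀ x y : PM k e p, J3 k l e p * (B3 l x * B3 l y) = (B3 l x * B3 l y) * J3 k l e p := by
      intro x y
      rw [← Matrix.mul_assoc, B3_comm (by omega), Matrix.mul_assoc, B3_comm (by omega),
        Matrix.mul_assoc]
    refine ext_gen (e0 x y) (e0 y x) ?_ (fun f => ?_) fun f => ?_
    · rw [mul_v hl, mul_v hl, h.C1, h.C2, h.C3, h.C4, h.C5, h.C6]
    · rw [mul_u hl, mul_u hl, h.C7, h.C8, h.C9]
      by_cases h4 : l = 4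
      · rw [if_pos h4, if_pos h4, h.C11 h4]
      · rw [if_neg h4, if_neg h4]
    · rw [mul_p hl, mul_p hl, h.C10]

/-! ### nilpotency -/

theorem nilp_deg {n : Type*} [Fintype n] [DecidableEq n] {M : Matrix n n k} (d : n → ℕ)
    (h : ∀ i j, M i j ≠ 0 → d j < d i) : IsNilpotent M := by
  have h1 : ∀ (m : ℕ) (i j : n), (M ^ m) i j ≠ 0 → d j + m ≤ d i := by
    intro m
    induction m with
    | zero =>
      intro i j hij
      have : i = j := by
        by_contra hne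
        exact hij (by rw [pow_zero, Matrix.one_apply_ne hne])
      subst this
      omega
    | succ m ih =>
      intro i j hij
      rw [pow_succ, Matrix.mul_apply] at hij
      obtain ⟨t, -, ht⟩ := Finset.exists_ne_zero_of_sum_ne_zero hij
      have h2 := ih i t (left_ne_zero_of_mul ht)
      have h3 := h t j (right_ne_zero_of_mul ht)
      omega
  refine ⟨∑ i, d i + 1, ?_⟩
  ext i j
  by_contra hne
  have h2 := h1 _ i j hne
  have h3 : d i ≤ ∑ i, d i := Finset.single_le_sum (fun _ _ => Nat.zero_le _) (Finset.mem_univ i)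
  omega

/-- degrees -/
def dg : I3 l e p → ℕ
  | .inl i => 2 * i
  | .inr (.inl i) => 2 * i.1 + 1
  | .inr (.inr _) => 2

theorem J3_nilp : IsNilpotent (J3 k l e p) := by
  refine nilp_deg dg fun i j h => ?_
  rcases i with i | i | i <;> rcases j with j | j | j <;>
    simp only [J3, Matrix.of_apply, ne_eq, ite_eq_right_iff, Classical.not_imp, not_true_eq_false,
      one_ne_zero, not_false_eq_true, and_true] at h <;> simp only [dg]
  · omega
  · have := h.2
    omega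

theorem B3_nilp (hl : 4 ≤ l) (x : PM k e p) : IsNilpotent (B3 l x) := by
  refine nilp_deg dg fun i j h => ?_
  rcases i with i | i | i <;> rcases j with j | j | j <;>
    simp only [B3, Matrix.of_apply, ne_eq, not_true_eq_false] at h <;> simp only [dg]
  all_goals
    split_ifs at h <;> first | omega | exact absurd rfl h

/-- the triple is commuting and nilpotent if and only if the relations hold -/
theorem cn_iff (hl : 4 ≤ l) (x y : PM k e p) :
    CN ![J3 k l e p, B3 l x, B3 l y] ↔ Rel l x y := by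
  rw [← mul_comm_iff hl]
  constructor
  · intro h
    exact h.1 1 2
  · intro h
    refine ⟨fun i j => ?_, fun i => ?_⟩
    · have hx := B3_comm (show 3 ≤ l by omega) x
      have hy := B3_comm (show 3 ≤ l by omega) y
      fin_cases i <;> fin_cases j
      exacts [rfl, hx, hy, hx.symm, rfl, h, hy.symm, h.symm, rfl]
    · fin_cases i
      exacts [J3_nilp, B3_nilp hl x, B3_nilp hl y]

/-! ### the shape -/

theorem nilp_eig {n : Type*} [Fintype n] [DecidableEq n] {X : Matrix n n k} (hX : IsNilpotent X)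
    {y : n → k} {q : k} (h : X *ᵥ y = q • y) (hy : y ≠ 0) : q = 0 := by
  obtain ⟨N, hN⟩ := hX
  have h1 : ∀ i : ℕ, X ^ i *ᵥ y = q ^ i • y := by
    intro i
    induction i with
    | zero => simp
    | succ i ih => rw [pow_succ', ← mulVec_mulVec, ih, mulVec_smul, h, smul_smul, pow_succ]
  have h2 := h1 N
  rw [hN, zero_mulVec] at h2
  by_contra hq
  exact smul_ne_zero (pow_ne_zero N hq) hy h2.symm

theorem shape_aux (hl : 3 < l) {X : Matrix (I3 l e p) (I3 l e p) k}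
    (hX : J3 k l e p * X = X * J3 k l e p) (h0 : ∀ i, X (.inl i) (.inl ⟨0, by omega⟩) = 0)
    (hq : ∀ s t, X (.inr (.inl (0, s))) (.inr (.inl (0, t))) = 0)
    (hκ : ∀ a b, X (.inr (.inr a)) (.inr (.inr b)) = 0) :
    ∃ x : PM k e p, X = B3 l x := by
  let x : PM k e p :=
    { a0 := fun s => X (.inr (.inl (0, s))) (.inl ⟨0, by omega⟩)
      a1 := fun s => X (.inr (.inl (1, s))) (.inl ⟨0, by omega⟩)
      a2 := fun s => X (.inr (.inl (2, s))) (.inl ⟨0, by omega⟩)
      om := fun t => X (.inr (.inr t)) (.inl ⟨0, by omega⟩)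
      b0 := fun s => X (.inl ⟨l - 3, by omega⟩) (.inr (.inl (0, s)))
      b1 := fun s => X (.inl ⟨l - 2, by omega⟩) (.inr (.inl (0, s)))
      b2 := fun s => X (.inl ⟨l - 1, by omega⟩) (.inr (.inl (0, s)))
      N1 := Matrix.of fun s t => X (.inr (.inl (1, s))) (.inr (.inl (0, t)))
      N2 := Matrix.of fun s t => X (.inr (.inl (2, s))) (.inr (.inl (0, t)))
      pi := Matrix.of fun s t => X (.inr (.inr s)) (.inr (.inl (0, t)))
      ga := fun t => X (.inl ⟨l - 1, by omega⟩) (.inr (.inr t))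
      th := Matrix.of fun s t => X (.inr (.inl (2, s))) (.inr (.inr t)) }
  have hu0 : ∀ (i : Fin l) (s : Fin e), (i : ℕ) < l - 3 → X (.inl i) (.inr (.inl (0, s))) = 0 := by
    intro i s hi
    have h1 := comm_u hX 3 (Pi.single s 1)
    rw [u3_ge le_rfl, mulVec_zero, mulVec_u30] at h1
    have h2 := congrFun h1 (.inl ⟨i + 3, by omega⟩)
    rw [J3_pow_apply_v, dif_pos (by simp)] at h2
    simpa [Pi.single_apply] using h2.symm
  have hp0 : ∀ (i : Fin l) (a : Fin p), (i : ℕ) + 1 < l → X (.inl i) (.inr (.inr a)) = 0 := by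
    intro i a hi
    have h1 := comm_p hX (Pi.single a 1)
    rw [mulVec_p3] at h1
    have h2 := congrFun h1 (.inl ⟨i + 1, hi⟩)
    rw [J3_apply_v, dif_pos (by simp)] at h2
    simpa [Pi.single_apply] using h2
  have hp1 : ∀ (i : Fin 3) (s : Fin e) (a : Fin p), (i : ℕ) < 2 →
      X (.inr (.inl (i, s))) (.inr (.inr a)) = 0 := by
    intro i s a hi
    have h1 := comm_p hX (Pi.single a 1)
    rw [mulVec_p3] at h1
    have h2 := congrFun h1 (.inr (.inl (⟨i + 1, by omega⟩, s)))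
    rw [J3_apply_u, dif_pos (by simp)] at h2
    simpa [Pi.single_apply] using h2
  refine ⟨x, ext_gen hX (B3_comm (by omega) x) ?_ (fun f => ?_) fun f => ?_⟩
  · rw [B3_v0 _ (by omega), mulVec_v30 _ (by omega)]
    funext y
    rcases y with y | ⟨y, s⟩ | y
    · simp [u3, p3, h0]
    · fin_cases y <;> simp [u3, p3, x]
    · simp [u3, p3, x]
  · rw [B3_u0 _ (by omega), mulVec_u30]
    funext y
    rcases y with y | ⟨y, s⟩ | y
    · have hy := y.2
      rcases Nat.lt_or_ge (y : ℕ) (l - 3) with h1 | h1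
      · have e1 : ¬ (y : ℕ) = l - 3 := by omega
        have e2 : ¬ (y : ℕ) = l - 2 := by omega
        have e3 : ¬ (y : ℕ) = l - 1 := by omega
        simp [u3, p3, v3, e1, e2, e3, hu0 y _ h1]
      · obtain h2 | h2 | h2 : y = ⟨l - 3, by omega⟩ ∨ y = ⟨l - 2, by omega⟩ ∨
            y = ⟨l - 1, by omega⟩ := by
          have : (y : ℕ) = l - 3 ∨ (y : ℕ) = l - 2 ∨ (y : ℕ) = l - 1 := by omega
          rcases this with h | h | h
          · exact Or.inl (Fin.ext h)
          · exact Or.inr (Or.inl (Fin.ext h))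
          · exact Or.inr (Or.inr (Fin.ext h))
        · have e2 : ¬ l - 3 = l - 2 := by omega
          have e3 : ¬ l - 3 = l - 1 := by omega
          rw [h2]
          simp [u3, p3, v3, e2, e3, x, dotProduct]
        · have e2 : ¬ l - 2 = l - 3 := by omega
          have e3 : ¬ l - 2 = l - 1 := by omega
          rw [h2]
          simp [u3, p3, v3, e2, e3, x, dotProduct]
        · have e2 : ¬ l - 1 = l - 3 := by omega
          have e3 : ¬ l - 1 = l - 2 := by omega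
          rw [h2]
          simp [u3, p3, v3, e2, e3, x, dotProduct]
    · fin_cases y
      · simp [u3, p3, v3, hq]
      · simp [u3, p3, v3, x, mulVec, dotProduct]
      · simp [u3, p3, v3, x, mulVec, dotProduct]
    · simp [u3, p3, v3, x, mulVec, dotProduct]
  · rw [B3_p, mulVec_p3]
    funext y
    rcases y with y | ⟨y, s⟩ | y
    · have hy := y.2
      by_cases h1 : (y : ℕ) + 1 < l
      · have e3 : ¬ (y : ℕ) = l - 1 := by omega
        simp [u3, v3, e3, hp0 y _ h1]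
      · have h2 : y = ⟨l - 1, by omega⟩ := Fin.ext (by simp only; omega)
        rw [h2]
        simp [u3, v3, x, dotProduct]
    · fin_cases y
      · simp [u3, v3, hp1 0 s _ (by norm_num)]
      · simp [u3, v3, hp1 1 s _ (by norm_num)]
      · simp [u3, v3, x, mulVec, dotProduct]
    · simp [u3, v3, hκ]

variable {ρ : ℕ → ℕ} {T : Fin 3 → Matrix (I3 l e p) (I3 l e p) k}

/-- the block `P -> P` vanishes -/
theorem killP [Infinite k] (hT : MaxR ρ T) (hρ : ∀ i, ρ i = (J3 k l e p ^ i).rank)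
    (hA : J3 k l e p ∈ adj T) {X : Matrix (I3 l e p) (I3 l e p) k} (hX : X ∈ adj T)
    (i j : Fin p) : X (.inr (.inr i)) (.inr (.inr j)) = 0 := by
  obtain ⟨m, hm⟩ := range_lim (fun s => J3 k l e p + s • X) (isPoly_line _ _)
    (fun _ => p3 (Pi.single j 1)) (fun _ => X *ᵥ p3 (Pi.single j 1)) (fun _ => D7.IsPoly.const _) 1
    (fun s => by
      simp only [pow_one]
      rw [add_mulVec, J3_p, zero_add, smul_mulVec]) (fun s => by
      have h1 := hT.rank_le (add_mem hA (SMulMemClass.smul_mem s hX)) 1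
      rw [pow_one, hρ, pow_one] at h1
      simpa using h1)
  have h2 := congrFun hm (.inr (.inr i))
  rw [zero_smul, add_zero, J3_apply_p, mulVec_p3] at h2
  simpa [Pi.single_apply] using h2

/-- the block `U_0 -> U_0` vanishes -/
theorem killU [Infinite k] [CharZero k] (hT : MaxR ρ T) (hρ : ∀ i, ρ i = (J3 k l e p ^ i).rank)
    (hA : J3 k l e p ∈ adj T) {X : Matrix (I3 l e p) (I3 l e p) k} (hX : X ∈ adj T)
    (i j : Fin e) : X (.inr (.inl (0, i))) (.inr (.inl (0, j))) = 0 := by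
  have hc : X * J3 k l e p = J3 k l e p * X := hT.cn.comm hX hA
  set J := J3 k l e p with hJ
  have e0 : ∀ s : k, (J + s • X) ^ 3 = J ^ 3 + s • ((3 : k) • (J ^ 2 * X) +
      s • ((3 : k) • (J * X ^ 2)) + s ^ 2 • X ^ 3) := by
    intro s
    have h1 : (J + s • X) ^ 3 = J ^ 3 + s • (J * J * X + J * (X * J) + X * J * J) +
        (s * s) • (J * X * X + X * J * X + X * (X * J)) + (s * (s * s)) • X ^ 3 := by
      simp only [pow_succ, pow_zero, one_mul, add_mul, mul_add, smul_mul_assoc, mul_smul_comm,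
        smul_add, smul_smul, Matrix.mul_assoc]
      abel
    have h2 : X * J * J = J * J * X := by
      rw [hc, Matrix.mul_assoc, hc, ← Matrix.mul_assoc]
    have h3 : X * (X * J) = J * X * X := by
      rw [hc, ← Matrix.mul_assoc, hc]
    have h4 : X * J * X = J * X * X := by rw [hc]
    have h5 : J * (X * J) = J * J * X := by rw [hc, ← Matrix.mul_assoc]
    rw [h1, h2, h3, h4, h5]
    simp only [pow_succ, pow_zero, one_mul, smul_add, smul_smul, Matrix.mul_assoc]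
    module
  have hp : ∀ s : k, (J + s • X) ^ 3 *ᵥ u3 0 (Pi.single j 1) = s ^ 1 •
      ((3 : k) • ((J ^ 2 * X) *ᵥ u3 0 (Pi.single j 1)) +
        s • (((3 : k) • (J * X ^ 2)) *ᵥ u3 0 (Pi.single j 1) +
        s • (X ^ 3 *ᵥ u3 0 (Pi.single j 1)))) := by
    intro s
    rw [e0, add_mulVec, hJ, J3_pow_u, u3_ge (by norm_num), zero_add, pow_one, smul_mulVec,
      add_mulVec, add_mulVec]
    simp only [smul_mulVec, smul_add, smul_smul, pow_two]
    abel
  obtain ⟨m, hm⟩ := range_lim (fun s => (J + s • X) ^ 3) (isPoly_pow (isPoly_line _ _) 3)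
    (fun _ => u3 0 (Pi.single j 1)) _ (fun x => by
      have h1 := D7.IsPoly.const (k := k) (((3 : k) • ((J ^ 2 * X) *ᵥ u3 0 (Pi.single j 1))) x)
      have h2 := D7.IsPoly.const (k := k) ((((3 : k) • (J * X ^ 2)) *ᵥ u3 0 (Pi.single j 1)) x)
      have h3 := D7.IsPoly.const (k := k) ((X ^ 3 *ᵥ u3 0 (Pi.single j 1)) x)
      exact h1.add (D7.IsPoly.id.mul (h2.add (D7.IsPoly.id.mul h3)))) 1 hp (fun s => by
      have h1 := hT.rank_le (add_mem hA (SMulMemClass.smul_mem s hX)) 3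
      rw [hρ] at h1
      simpa using h1)
  have h2 := congrFun hm (.inr (.inl (2, i)))
  simp only [zero_smul, add_zero] at h2
  rw [hJ, J3_pow_apply_u, dif_neg (by norm_num), ← mulVec_mulVec, Pi.smul_apply, J3_pow_apply_u,
    dif_pos (by norm_num), mulVec_u30] at h2
  have h3 : (3 : k) ≠ 0 := by norm_num
  rw [smul_eq_mul, mul_eq_zero] at h2
  have h4 := h2.resolve_left h3
  simpa [Pi.single_apply] using h4

theorem pow_mem_adj {n : Type*} [Fintype n] [DecidableEq n] {T : Fin 3 → Matrix n n k}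
    {A : Matrix n n k} (hA : A ∈ adj T) (i : ℕ) : A ^ (i + 1) ∈ adj T := by
  induction i with
  | zero => simpa using hA
  | succ i ih => rw [pow_succ]; exact mul_mem ih hA

/-- an element of `adj T` is a polynomial in `J3` without constant term plus a matrix `B3` -/
theorem shape_one [Infinite k] [CharZero k] (hT : MaxR ρ T)
    (hρ : ∀ i, ρ i = (J3 k l e p ^ i).rank) (hl : 4 ≤ l)
    (hA : J3 k l e p ∈ adj T) {X : Matrix (I3 l e p) (I3 l e p) k} (hX : X ∈ adj T) :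
    ∃ (a : ℕ → k) (x : PM k e p),
      X = ∑ i ∈ Finset.range l, a i • J3 k l e p ^ (i + 1) + B3 l x := by
  have hcomm : ∀ Y ∈ adj T, J3 k l e p * Y = Y * J3 k l e p := fun Y hY => hT.cn.comm hA hY
  have ha0 : X (.inl ⟨0, by omega⟩) (.inl ⟨0, by omega⟩) = 0 := by
    refine nilp_eig (hT.cn.nilp hX) (y := v3 (l - 1)) ?_ ?_
    · rw [comm_v (hcomm X hX), mulVec_v30 _ (by omega)]
      funext x
      rcases x with x | ⟨x, s⟩ | x
      · rw [J3_pow_apply_v]
        simp only [v3, Pi.smul_apply, smul_eq_mul]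
        have hx := x.2
        by_cases h2 : l - 1 ≤ (x : ℕ)
        · rw [dif_pos h2, if_pos (by omega), mul_one]
          congr 3
          omega
        · rw [dif_neg h2, if_neg (by omega), mul_zero]
      · rw [J3_pow_apply_u, dif_neg (by have := x.2; omega)]
        simp [v3]
      · rw [J3_pow_apply_p, if_neg (by omega)]
        simp [v3]
    · intro h
      have h2 := congrFun h (.inl ⟨l - 1, by omega⟩)
      simp [v3] at h2
  let a : ℕ → k := fun i => if h : i + 1 < l then X (.inl ⟨i + 1, h⟩) (.inl ⟨0, by omega⟩) else 0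
  let S : Matrix (I3 l e p) (I3 l e p) k := ∑ i ∈ Finset.range l, a i • J3 k l e p ^ (i + 1)
  have hS : S ∈ adj T := sum_mem fun i _ => SMulMemClass.smul_mem _ (pow_mem_adj hA i)
  have hXS : X - S ∈ adj T := sub_mem hX hS
  have hc := hcomm _ hXS
  have hSv : S *ᵥ v3 0 = fun x => match x with
      | .inl i => X (.inl i) (.inl ⟨0, by omega⟩)
      | _ => 0 := by
    simp only [S]
    rw [Matrix.sum_mulVec]
    simp only [Matrix.smul_mulVec, J3_pow_v, zero_add]
    funext x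
    rw [Finset.sum_apply]
    rcases x with x | x | x
    · simp only [Pi.smul_apply, v3, smul_eq_mul]
      rcases Nat.eq_zero_or_pos (x : ℕ) with h2 | h2
      · rw [Finset.sum_eq_zero (fun i _ => by rw [if_neg (by omega), mul_zero])]
        have h3 : x = ⟨0, by omega⟩ := Fin.ext h2
        rw [h3, ha0]
      · rw [Finset.sum_eq_single ((x : ℕ) - 1)]
        · rw [if_pos (by omega), mul_one]
          simp only [a]
          have hx := x.2
          rw [dif_pos (by omega)]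
          congr 3
          omega
        · intro b _ hb
          rw [if_neg (by omega), mul_zero]
        · intro h3
          exact absurd (Finset.mem_range.2 (by have := x.2; omega)) h3
    · simp [v3]
    · simp [v3]
  have h0 : ∀ i, (X - S) (.inl i) (.inl ⟨0, by omega⟩) = 0 := by
    intro i
    have h2 : (S *ᵥ v3 0) (.inl i) = S (.inl i) (.inl ⟨0, by omega⟩) := by
      rw [mulVec_v30 _ (by omega)]
    rw [Matrix.sub_apply, ← h2, hSv]
    simp
  obtain ⟨x, h2⟩ := shape_aux (by omega) hc h0 (fun s t => killU hT hρ hA hXS s t)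
    fun i j => killP hT hρ hA hXS i j
  exact ⟨a, x, by rw [← h2]; simp only [S]; abel⟩

/-- the shape of a maximal bad triple of type `(l, 3^e, 1^p)`, `l ≥ 4` -/
theorem shape [Infinite k] [CharZero k] (hl : 4 ≤ l) (hT : MaxR ρ T)
    (hρ : ∀ i, ρ i = (J3 k l e p ^ i).rank) (h0 : T 0 = J3 k l e p) :
    ∃ x y : PM k e p, MaxR ρ ![J3 k l e p, B3 l x, B3 l y] := by
  have hA : J3 k l e p ∈ adj T := by rw [← h0]; exact mem_adj T 0
  obtain ⟨a, x, hX⟩ := shape_one hT hρ hl hA (mem_adj T 1)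
  obtain ⟨a', y, hX'⟩ := shape_one hT hρ hl hA (mem_adj T 2)
  refine ⟨x, y, ?_⟩
  have hmem : ∀ i, (![J3 k l e p, B3 l x, B3 l y] :
      Fin 3 → Matrix (I3 l e p) (I3 l e p) k) i ∈ adj T := by
    intro i
    fin_cases i
    · exact hA
    · have h2 : B3 l x = T 1 - ∑ i ∈ Finset.range l, a i • J3 k l e p ^ (i + 1) := by
        rw [hX]; abel
      show B3 l x ∈ adj T
      rw [h2]
      exact sub_mem (mem_adj T 1) (sum_mem fun i _ => SMulMemClass.smul_mem _ (pow_mem_adj hA i))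
    · have h2 : B3 l y = T 2 - ∑ i ∈ Finset.range l, a' i • J3 k l e p ^ (i + 1) := by
        rw [hX']; abel
      show B3 l y ∈ adj T
      rw [h2]
      exact sub_mem (mem_adj T 2) (sum_mem fun i _ => SMulMemClass.smul_mem _ (pow_mem_adj hA i))
  refine MaxR.change hT (hT.cn.of_adj hmem) fun i => ?_
  have m0 := D8.mem0 (J3 k l e p) (B3 l x) (B3 l y)
  have m1 := D8.mem1 (J3 k l e p) (B3 l x) (B3 l y)
  have m2 := D8.mem2 (J3 k l e p) (B3 l x) (B3 l y)
  fin_cases i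
  · show T 0 ∈ _
    rw [h0]
    exact m0
  · show T 1 ∈ _
    rw [hX]
    exact add_mem (sum_mem fun i _ => SMulMemClass.smul_mem _ (pow_mem_adj m0 i)) m1
  · show T 2 ∈ _
    rw [hX']
    exact add_mem (sum_mem fun i _ => SMulMemClass.smul_mem _ (pow_mem_adj m0 i)) m2

/-! ### linear changes -/

namespace PM

/-- linear combinations -/
def lin (α β : k) (x y : PM k e p) : PM k e p where
  a0 := α • x.a0 + β • y.a0
  a1 := α • x.a1 + β • y.a1
  a2 := α • x.a2 + β • y.a2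
  om := α • x.om + β • y.om
  b0 := α • x.b0 + β • y.b0
  b1 := α • x.b1 + β • y.b1
  b2 := α • x.b2 + β • y.b2
  N1 := α • x.N1 + β • y.N1
  N2 := α • x.N2 + β • y.N2
  pi := α • x.pi + β • y.pi
  ga := α • x.ga + β • y.ga
  th := α • x.th + β • y.th

/-- the parameters of the transposed matrix in the dual basis -/
def dual (x : PM k e p) : PM k e p where
  a0 := x.b0
  a1 := x.b1
  a2 := x.b2
  om := x.ga
  b0 := x.a0
  b1 := x.a1
  b2 := x.a2
  N1 := x.N1ᵀ
  N2 := x.N2ᵀ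
  pi := x.thᵀ
  ga := x.om
  th := x.piᵀ

/-- change of the bases of `E` and `P` (`g' = g⁻¹`, `h' = h⁻¹`) and of `v_0` by the factor `c`
(`c' = c⁻¹`) -/
def act (c c' : k) (g g' : Matrix (Fin e) (Fin e) k) (h h' : Matrix (Fin p) (Fin p) k)
    (x : PM k e p) : PM k e p where
  a0 := c' • (g *ᵥ x.a0)
  a1 := c' • (g *ᵥ x.a1)
  a2 := c' • (g *ᵥ x.a2)
  om := c' • (h *ᵥ x.om)
  b0 := c • (x.b0 ᵥ* g')
  b1 := c • (x.b1 ᵥ* g')
  b2 := c • (x.b2 ᵥ* g')
  N1 := g * x.N1 * g'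
  N2 := g * x.N2 * g'
  pi := h * x.pi * g'
  ga := c • (x.ga ᵥ* h')
  th := g * x.th * h'

end PM

theorem B3_lin (α β : k) (x y : PM k e p) : B3 l (x.lin α β y) = α • B3 l x + β • B3 l y := by
  ext i j
  rcases i with i | i | i <;> rcases j with j | j | j <;>
    simp only [B3, PM.lin, Matrix.of_apply, Matrix.add_apply, Matrix.smul_apply, Pi.add_apply,
      Pi.smul_apply, smul_eq_mul, mul_zero, add_zero]
  all_goals split_ifs <;> ring

theorem _root_.Pool.Agent.Lib.D7.MaxR.lin3 {x y : PM k e p}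
    (hT : MaxR ρ ![J3 k l e p, B3 l x, B3 l y]) (α β γ δ : k) (h : α * δ - β * γ ≠ 0) :
    MaxR ρ ![J3 k l e p, B3 l (x.lin α β y), B3 l (x.lin γ δ y)] := by
  have h1 := D8.MaxR.lin hT α β γ δ 0 0 0 0 h
  simp only [zero_smul, add_zero] at h1
  rw [B3_lin, B3_lin]
  exact h1

theorem _root_.Pool.Agent.Lib.D7.MaxR.swap3 {x y : PM k e p}
    (hT : MaxR ρ ![J3 k l e p, B3 l x, B3 l y]) : MaxR ρ ![J3 k l e p, B3 l y, B3 l x] :=
  D8.MaxR.swap hT

/-! ### duality -/

/-- the dual basis -/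
def sg : I3 l e p ≃ I3 l e p :=
  Equiv.sumCongr Fin.revPerm (Equiv.sumCongr (Equiv.prodCongr Fin.revPerm (Equiv.refl _))
    (Equiv.refl _))

theorem J3_dual : Matrix.reindexAlgEquiv k k sg (J3 k l e p)ᵀ = J3 k l e p := by
  ext i j
  rw [Matrix.coe_reindexAlgEquiv, Matrix.reindex_apply, Matrix.submatrix_apply,
    Matrix.transpose_apply]
  rcases i with i | ⟨i, s⟩ | i <;> rcases j with j | ⟨j, t⟩ | j <;>
    simp only [sg, Equiv.sumCongr_symm, Equiv.sumCongr_apply, Sum.map_inl, Sum.map_inr,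
      Equiv.prodCongr_symm, Equiv.prodCongr_apply, Prod.map, Fin.revPerm_symm, Fin.revPerm_apply,
      Equiv.refl_symm, Equiv.refl_apply, J3, Matrix.of_apply, Fin.val_rev]
  · have hi := i.2
    have hj := j.2
    by_cases h : (i : ℕ) = j + 1
    · rw [if_pos h, if_pos (by omega)]
    · rw [if_neg h, if_neg (by omega)]
  · have hi := i.2
    have hj := j.2
    by_cases h : s = t ∧ (i : ℕ) = j + 1
    · rw [if_pos h, if_pos ⟨h.1.symm, by omega⟩]
    · rw [if_neg h, if_neg (fun h' => h ⟨h'.1.symm, by omega⟩)]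

theorem B3_dual (hl : 3 ≤ l) (x : PM k e p) :
    Matrix.reindexAlgEquiv k k sg (B3 l x)ᵀ = B3 l x.dual := by
  ext i j
  rw [Matrix.coe_reindexAlgEquiv, Matrix.reindex_apply, Matrix.submatrix_apply,
    Matrix.transpose_apply]
  rcases i with i | ⟨i, s⟩ | i <;> rcases j with j | ⟨j, t⟩ | j <;>
    simp only [sg, Equiv.sumCongr_symm, Equiv.sumCongr_apply, Sum.map_inl, Sum.map_inr,
      Equiv.prodCongr_symm, Equiv.prodCongr_apply, Prod.map, Fin.revPerm_symm, Fin.revPerm_apply,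
      Equiv.refl_symm, Equiv.refl_apply, B3, PM.dual, Matrix.of_apply, Matrix.transpose_apply,
      Fin.val_rev]
  all_goals
    try have hi := i.2
    try have hj := j.2
    split_ifs <;> first | rfl | omega

theorem _root_.Pool.Agent.Lib.D7.MaxR.dual3 [Infinite k] (hl : 3 ≤ l) {x y : PM k e p}
    (hT : MaxR ρ ![J3 k l e p, B3 l x, B3 l y]) :
    MaxR ρ ![J3 k l e p, B3 l x.dual, B3 l y.dual] := by
  have h1 := D9.MaxR.reindex (sg (l := l) (e := e) (p := p)) hT.transpose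
  have h2 : (fun i => Matrix.reindexAlgEquiv k k (sg (l := l) (e := e) (p := p))
      ((![J3 k l e p, B3 l x, B3 l y] : Fin 3 → Matrix (I3 l e p) (I3 l e p) k) i)ᵀ) =
      ![J3 k l e p, B3 l x.dual, B3 l y.dual] := by
    funext i
    fin_cases i
    exacts [J3_dual, B3_dual hl x, B3_dual hl y]
  rwa [h2] at h1

/-! ### change of the bases of `E` and `P` -/

/-- the matrix `v_j -> c v_j`, `f (in U_j) -> g f (in U_j)`, `f (in P) -> h f` -/
def G3 (l : ℕ) (c : k) (g : Matrix (Fin e) (Fin e) k) (h : Matrix (Fin p) (Fin p) k) :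
    Matrix (I3 l e p) (I3 l e p) k :=
  Matrix.of fun i j => match i, j with
    | .inl i, .inl j => if i = j then c else 0
    | .inr (.inl i), .inr (.inl j) => if i.1 = j.1 then g i.2 j.2 else 0
    | .inr (.inr i), .inr (.inr j) => h i j
    | _, _ => 0

theorem G3_v (c : k) (g : Matrix (Fin e) (Fin e) k) (h : Matrix (Fin p) (Fin p) k) (j : ℕ) :
    G3 l c g h *ᵥ v3 j = c • v3 j := by
  rcases Nat.lt_or_ge j l with h1 | h1
  · rw [show j = ((⟨j, h1⟩ : Fin l) : ℕ) from rfl, mulVec_v3]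
    funext x
    rcases x with x | x | x <;> simp [G3, v3, Fin.ext_iff]
  · rw [v3_ge h1, mulVec_zero, smul_zero]

theorem G3_u (c : k) (g : Matrix (Fin e) (Fin e) k) (h : Matrix (Fin p) (Fin p) k) (j : ℕ)
    (f : Fin e → k) : G3 l c g h *ᵥ u3 j f = u3 j (g *ᵥ f) := by
  rcases Nat.lt_or_ge j 3 with h1 | h1
  · rw [show j = ((⟨j, h1⟩ : Fin 3) : ℕ) from rfl, mulVec_u3]
    funext x
    rcases x with x | x | x
    · simp [G3, u3]
    · simp only [G3, u3, Matrix.of_apply, mulVec, dotProduct]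
      by_cases h2 : x.1 = ⟨j, h1⟩
      · rw [if_pos (by rw [h2])]
        simp [h2]
      · rw [if_neg (fun h3 => h2 (Fin.ext h3))]
        simp [h2]
    · simp [G3, u3]
  · rw [u3_ge h1, u3_ge h1, mulVec_zero]

theorem G3_p (c : k) (g : Matrix (Fin e) (Fin e) k) (h : Matrix (Fin p) (Fin p) k)
    (f : Fin p → k) : G3 l c g h *ᵥ p3 f = p3 (h *ᵥ f) := by
  rw [mulVec_p3]
  funext x
  rcases x with x | x | x <;> simp [G3, p3, mulVec, dotProduct]

section

variable {c c' : k} {g g' : Matrix (Fin e) (Fin e) k} {h h' : Matrix (Fin p) (Fin p) k}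

theorem G3_mul : G3 l c g h * G3 l c' g' h' = G3 l (c * c') (g * g') (h * h') := by
  refine ext_vup (fun j _ => ?_) (fun j _ f => ?_) fun f => ?_
  · rw [← mulVec_mulVec, G3_v, mulVec_smul, G3_v, G3_v, smul_smul, mul_comm]
  · rw [← mulVec_mulVec, G3_u, G3_u, G3_u, mulVec_mulVec]
  · rw [← mulVec_mulVec, G3_p, G3_p, G3_p, mulVec_mulVec]

theorem G3_one : G3 l (1 : k) (1 : Matrix (Fin e) (Fin e) k) (1 : Matrix (Fin p) (Fin p) k) = 1 := by
  refine ext_vup (fun j _ => ?_) (fun j _ f => ?_) fun f => ?_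
  · rw [G3_v, one_smul, one_mulVec]
  · rw [G3_u, one_mulVec, one_mulVec]
  · rw [G3_p, one_mulVec, one_mulVec]

theorem G3_J3 : G3 l c g h * J3 k l e p = J3 k l e p * G3 l c g h := by
  refine ext_vup (fun j _ => ?_) (fun j _ f => ?_) fun f => ?_
  · rw [← mulVec_mulVec, ← mulVec_mulVec, J3_v, G3_v, G3_v, mulVec_smul, J3_v]
  · rw [← mulVec_mulVec, ← mulVec_mulVec, J3_u, G3_u, G3_u, J3_u]
  · rw [← mulVec_mulVec, ← mulVec_mulVec, J3_p, G3_p, J3_p, mulVec_zero]

theorem G3_B3 (hl : 3 ≤ l) (hc : c * c' = 1) (hg : g * g' = 1) (hh : h * h' = 1)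
    (x : PM k e p) : G3 l c g h * B3 l x = B3 l (x.act c c' g g' h h') * G3 l c g h := by
  have hg1 : g' * g = 1 := mul_eq_one_comm.1 hg
  have hh1 : h' * h = 1 := mul_eq_one_comm.1 hh
  have d1 : ∀ a f : Fin e → k, (c • (a ᵥ* g')) ⬝ᵥ (g *ᵥ f) = (a ⬝ᵥ f) * c := by
    intro a f
    rw [smul_dotProduct, ← dotProduct_mulVec, mulVec_mulVec, hg1, one_mulVec, smul_eq_mul, mul_comm]
  have d2 : ∀ a f : Fin p → k, (c • (a ᵥ* h')) ⬝ᵥ (h *ᵥ f) = (a ⬝ᵥ f) * c := by
    intro a f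
    rw [smul_dotProduct, ← dotProduct_mulVec, mulVec_mulVec, hh1, one_mulVec, smul_eq_mul, mul_comm]
  have d3 : ∀ (M : Matrix (Fin e) (Fin e) k) (f : Fin e → k),
      (g * M * g') *ᵥ (g *ᵥ f) = g *ᵥ (M *ᵥ f) := by
    intro M f
    rw [mulVec_mulVec, Matrix.mul_assoc, hg1, Matrix.mul_one, ← mulVec_mulVec]
  have d4 : ∀ (M : Matrix (Fin p) (Fin e) k) (f : Fin e → k),
      (h * M * g') *ᵥ (g *ᵥ f) = h *ᵥ (M *ᵥ f) := by
    intro M f
    rw [mulVec_mulVec, Matrix.mul_assoc, hg1, Matrix.mul_one, ← mulVec_mulVec]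
  have d5 : ∀ (M : Matrix (Fin e) (Fin p) k) (f : Fin p → k),
      (g * M * h') *ᵥ (h *ᵥ f) = g *ᵥ (M *ᵥ f) := by
    intro M f
    rw [mulVec_mulVec, Matrix.mul_assoc, hh1, Matrix.mul_one, ← mulVec_mulVec]
  have e1 : ∀ f : I3 l e p → k, c • (c' • f) = f := by
    intro f
    rw [smul_smul, hc, one_smul]
  refine ext_vup (fun j hj => ?_) (fun j hj f => ?_) fun f => ?_
  · rw [← mulVec_mulVec, ← mulVec_mulVec, G3_v, mulVec_smul]
    rcases Nat.eq_zero_or_pos j with rfl | h1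
    · rw [B3_v0 _ (by omega), B3_v0 _ (by omega)]
      simp only [mulVec_add, G3_u, G3_p, PM.act, u3_smul, p3_smul, smul_add, e1]
    · rw [B3_vs _ hl h1, B3_vs _ hl h1]
      simp only [mulVec_add, G3_u, PM.act, u3_smul, smul_add, e1]
  · rw [← mulVec_mulVec, ← mulVec_mulVec, G3_u]
    obtain rfl | rfl | rfl : j = 0 ∨ j = 1 ∨ j = 2 := by omega
    · rw [B3_u0 _ hl, B3_u0 _ hl]
      simp only [mulVec_add, mulVec_smul, G3_u, G3_p, G3_v, PM.act, d1, d3, d4, smul_smul]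
    · rw [B3_u1 _ hl, B3_u1 _ hl]
      simp only [mulVec_add, mulVec_smul, G3_u, G3_v, PM.act, d1, d3, smul_smul]
    · rw [B3_u2 _ hl, B3_u2 _ hl]
      simp only [mulVec_smul, G3_v, PM.act, d1, smul_smul]
  · rw [← mulVec_mulVec, ← mulVec_mulVec, G3_p, B3_p, B3_p]
    simp only [mulVec_add, mulVec_smul, G3_u, G3_v, PM.act, d2, d5, smul_smul]

/-- change of the bases of `E` and `P` in a maximal bad triple -/
theorem _root_.Pool.Agent.Lib.D7.MaxR.act3 (hl : 3 ≤ l) {x y : PM k e p}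
    (hT : MaxR ρ ![J3 k l e p, B3 l x, B3 l y]) (hc : c * c' = 1) (hg : g * g' = 1)
    (hh : h * h' = 1) :
    MaxR ρ ![J3 k l e p, B3 l (x.act c c' g g' h h'), B3 l (y.act c c' g g' h h')] := by
  have e1 : G3 l c g h * G3 l c' g' h' = 1 := by rw [G3_mul, hc, hg, hh, G3_one]
  have e2 : G3 l c' g' h' * G3 l c g h = 1 := by
    rw [G3_mul, mul_comm c' c, hc, mul_eq_one_comm.1 hg, mul_eq_one_comm.1 hh, G3_one]
  have h1 := hT.conj _ _ e1 e2
  have h2 : (fun i => G3 l c g h * (![J3 k l e p, B3 l x, B3 l y] :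
      Fin 3 → Matrix (I3 l e p) (I3 l e p) k) i * G3 l c' g' h') =
      ![J3 k l e p, B3 l (x.act c c' g g' h h'), B3 l (y.act c c' g g' h h')] := by
    funext i
    fin_cases i
    · show G3 l c g h * J3 k l e p * G3 l c' g' h' = _
      rw [G3_J3, Matrix.mul_assoc, e1, Matrix.mul_one]
      rfl
    · show G3 l c g h * B3 l x * G3 l c' g' h' = _
      rw [G3_B3 hl hc hg hh, Matrix.mul_assoc, e1, Matrix.mul_one]
      rfl
    · show G3 l c g h * B3 l y * G3 l c' g' h' = _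
      rw [G3_B3 hl hc hg hh, Matrix.mul_assoc, e1, Matrix.mul_one]
      rfl
  rwa [h2] at h1

end

/-! ### transfer of the type -/

/-- the list `(l, 3^e, 1^p)` -/
def LL (l e p : ℕ) : List ℕ := l :: (List.replicate e 3 ++ List.replicate p 1)

theorem LL_length (l e p : ℕ) : (LL l e p).length = 1 + e + p := by
  simp [LL]
  omega

theorem LL_sum (l e p : ℕ) : (LL l e p).sum = l + 3 * e + p := by
  simp [LL, mul_comm]
  omega

theorem LL_get3 {l e p i : ℕ} (hi : i < e) (h : 1 + i < (LL l e p).length) :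
    (LL l e p).get ⟨1 + i, h⟩ = 3 := by
  have : 1 + i = i + 1 := by omega
  simp [LL, this, hi]

theorem LL_get1 {l e p i : ℕ} (h : 1 + e + i < (LL l e p).length) :
    (LL l e p).get ⟨1 + e + i, h⟩ = 1 := by
  have : 1 + e + i = (e + i) + 1 := by omega
  simp [LL, this]

/-- the box of a basis vector -/
def tau (l e p : ℕ) : I3 l e p → IxL (LL l e p)
  | .inl i => ⟨⟨0, by rw [LL_length]; omega⟩, i⟩
  | .inr (.inl i) => ⟨⟨1 + i.2, by rw [LL_length]; omega⟩, ⟨i.1, by rw [LL_get3 i.2.2]; omega⟩⟩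
  | .inr (.inr i) => ⟨⟨1 + e + i, by rw [LL_length]; omega⟩, ⟨0, by rw [LL_get1]; omega⟩⟩

theorem tau_inj (l e p : ℕ) : Function.Injective (tau l e p) := by
  intro x y h
  have h1 := congrArg (fun x : IxL (LL l e p) => (x.1 : ℕ)) h
  have h2 := congrArg (fun x : IxL (LL l e p) => (x.2 : ℕ)) h
  rcases x with i | ⟨i, s⟩ | i <;> rcases y with j | ⟨j, t⟩ | j <;>
    simp only [tau] at h1 h2 <;>
    first
      | (exfalso; omega)
      | (have h3 : i = j := Fin.ext (by omega)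
         rw [h3]
         done)
      | (have h3 : i = j := Fin.ext (by omega)
         have h4 : s = t := Fin.ext (by omega)
         rw [h3, h4])

theorem J3_apply (l e p : ℕ) (x y : I3 l e p) :
    J3 k l e p x y =
      if (tau l e p x).1 = (tau l e p y).1 ∧ ((tau l e p x).2 : ℕ) = (tau l e p y).2 + 1
        then 1 else 0 := by
  rcases x with i | ⟨i, s⟩ | i <;> rcases y with j | ⟨j, t⟩ | j <;>
    simp only [J3, tau, Matrix.of_apply, Fin.ext_iff]
  · by_cases h : (i : ℕ) = j + 1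
    · rw [if_pos h, if_pos ⟨trivial, h⟩]
    · rw [if_neg h, if_neg (fun h' => h h'.2)]
  · rw [if_neg]
    rintro ⟨h, -⟩
    omega
  · rw [if_neg]
    rintro ⟨h, -⟩
    omega
  · rw [if_neg]
    rintro ⟨h, -⟩
    omega
  · by_cases h : (s : ℕ) = t ∧ (i : ℕ) = j + 1
    · rw [if_pos h, if_pos ⟨by omega, h.2⟩]
    · rw [if_neg h, if_neg (fun h' => h ⟨by omega, h'.2⟩)]
  · rw [if_neg]
    rintro ⟨h, -⟩
    omega
  · rw [if_neg]
    rintro ⟨h, -⟩
    omega
  · rw [if_neg]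
    rintro ⟨h, -⟩
    omega
  · rw [if_neg]
    rintro ⟨-, h⟩
    omega

/-- transfer of the type `(l, 3^e, 1^p)` -/
theorem bridge [Infinite k] {l e p : ℕ} (hb : Bad k (LL l e p)) : BadM (J3 k l e p) := by
  refine hb.bridge _ (tau l e p) (tau_inj l e p) ?_ (J3_apply l e p)
  rw [LL_sum]
  simp only [Fintype.card_sum, Fintype.card_fin, Fintype.card_prod]
  omega

/-- a bad type `(l, 3^e, 1^p)` gives a maximal bad triple in normal form -/
theorem bad_shape [Infinite k] [CharZero k] {l e p : ℕ} (hl : 4 ≤ l) (hb : Bad k (LL l e p)) :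
    ∃ (ρ : ℕ → ℕ) (x y : PM k e p), (∀ i, ρ i = (J3 k l e p ^ i).rank) ∧
      MaxR ρ ![J3 k l e p, B3 l x, B3 l y] := by
  obtain ⟨ρ, T, hT, hρ, h0⟩ := bridge hb
  obtain ⟨x, y, h⟩ := shape hl hT hρ h0
  exact ⟨ρ, x, y, hρ, h⟩

end Pool.Agent.Lib.D13.L3
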