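import Pool.Agent.Lib.D9.BlkShape
import Pool.Agent.Lib.D13.JordanU
import Pool.Agent.Lib.D13.RangeLim

/-!
# MP_5dcbc3_ag: matrices commuting with a Jordan matrix of type `(4, 3^e, 2^q)`

Basis: `v_0, .., v_3`, `U_0, U_1, U_2` (copies of `E = k^e`), `W_0, W_1` (copies of `k^q`); the Jordan matrix `J2`
maps `v_j -> v_(j+1)`, `U_0 -> U_1 -> U_2 -> 0`, `W_0 -> W_1 -> 0`. Parameters of `B2`:
`v_0 -> a0 (in U_0) + a1 (in U_1) + a2 (in U_2) + c0 (in W_0) + c1 (in W_1)`,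
`f (in U_0) -> b0(f) v_1 + b1(f) v_2 + b2(f) v_3 + N1 f (in U_1) + N2 f (in U_2) + P0 f (in W_0) + P1 f (in W_1)`,
`f (in W_0) -> g0(f) v_2 + g1(f) v_3 + Q0 f (in U_1) + Q1 f (in U_2) + V1 f (in W_1)`.
`J2, B2 x, B2 y` commute if and only if `Rel x y`.
-/

namespace Pool.Agent.Lib.D13.N4332

open Matrix Pool.Agent.Lib.Q5dc Pool.Agent.Lib.D7 Pool.Agent.Lib.D13

/-- indices `v`, `U`, `W` -/
abbrev I2 (e q : ℕ) : Type := Fin 4 ⊕ ((Fin 3 × Fin e) ⊕ (Fin 2 × Fin q))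

/-- the parameters of a matrix `B2` -/
@[ext] structure PN (k : Type*) (e q : ℕ) where
  a0 : Fin e → k
  a1 : Fin e → k
  a2 : Fin e → k
  c0 : Fin q → k
  c1 : Fin q → k
  b0 : Fin e → k
  b1 : Fin e → k
  b2 : Fin e → k
  N1 : Matrix (Fin e) (Fin e) k
  N2 : Matrix (Fin e) (Fin e) k
  P0 : Matrix (Fin q) (Fin e) k
  P1 : Matrix (Fin q) (Fin e) k
  g0 : Fin q → k
  g1 : Fin q → k
  Q0 : Matrix (Fin e) (Fin q) k
  Q1 : Matrix (Fin e) (Fin q) k
  V1 : Matrix (Fin q) (Fin q) k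

variable {k : Type*} [Field k] {e q : ℕ}

/-- the Jordan matrix -/
def J2 (k : Type*) [Field k] (e q : ℕ) : Matrix (I2 e q) (I2 e q) k :=
  Matrix.of fun i j => match i, j with
    | .inl i, .inl j => if (i : ℕ) = j + 1 then 1 else 0
    | .inr (.inl i), .inr (.inl j) => if i.2 = j.2 ∧ (i.1 : ℕ) = j.1 + 1 then 1 else 0
    | .inr (.inr i), .inr (.inr j) => if i.2 = j.2 ∧ (i.1 : ℕ) = j.1 + 1 then 1 else 0
    | _, _ => 0

/-- the matrix with the parameters `x` -/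
def B2 (x : PN k e q) : Matrix (I2 e q) (I2 e q) k :=
  Matrix.of fun i j => match i, j with
    | .inr (.inl i), .inl j => if (i.1 : ℕ) = j then x.a0 i.2 else
        if (i.1 : ℕ) = j + 1 then x.a1 i.2 else if (i.1 : ℕ) = j + 2 then x.a2 i.2 else 0
    | .inr (.inr i), .inl j => if (i.1 : ℕ) = j then x.c0 i.2 else
        if (i.1 : ℕ) = j + 1 then x.c1 i.2 else 0
    | .inl i, .inr (.inl j) => if (i : ℕ) = 1 + j.1 then x.b0 j.2 else
        if (i : ℕ) = 2 + j.1 then x.b1 j.2 else if (i : ℕ) = 3 + j.1 then x.b2 j.2 else 0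
    | .inr (.inl i), .inr (.inl j) => if (i.1 : ℕ) = j.1 + 1 then x.N1 i.2 j.2 else
        if (i.1 : ℕ) = j.1 + 2 then x.N2 i.2 j.2 else 0
    | .inr (.inr i), .inr (.inl j) => if (i.1 : ℕ) = j.1 then x.P0 i.2 j.2 else
        if (i.1 : ℕ) = j.1 + 1 then x.P1 i.2 j.2 else 0
    | .inl i, .inr (.inr j) => if (i : ℕ) = 2 + j.1 then x.g0 j.2 else
        if (i : ℕ) = 3 + j.1 then x.g1 j.2 else 0
    | .inr (.inl i), .inr (.inr j) => if (i.1 : ℕ) = j.1 + 1 then x.Q0 i.2 j.2 else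
        if (i.1 : ℕ) = j.1 + 2 then x.Q1 i.2 j.2 else 0
    | .inr (.inr i), .inr (.inr j) => if (i.1 : ℕ) = j.1 + 1 then x.V1 i.2 j.2 else 0
    | _, _ => 0

/-- `v_j` -/
def v2 (j : ℕ) : I2 e q → k
  | .inl i => if (i : ℕ) = j then 1 else 0
  | _ => 0

/-- the element `f` of `U_j` -/
def u2 (j : ℕ) (f : Fin e → k) : I2 e q → k
  | .inr (.inl i) => if (i.1 : ℕ) = j then f i.2 else 0
  | _ => 0

/-- the element `f` of `W_j` -/
def w2 (j : ℕ) (f : Fin q → k) : I2 e q → k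
  | .inr (.inr i) => if (i.1 : ℕ) = j then f i.2 else 0
  | _ => 0

theorem v2_ge {j : ℕ} (h : 4 ≤ j) : (v2 j : I2 e q → k) = 0 := by
  funext x
  rcases x with x | x | x
  · simp only [v2, Pi.zero_apply]
    rw [if_neg]
    have := x.2
    omega
  · rfl
  · rfl

theorem u2_ge {j : ℕ} (h : 3 ≤ j) (f : Fin e → k) : (u2 j f : I2 e q → k) = 0 := by
  funext x
  rcases x with x | x | x
  · rfl
  · simp only [u2, Pi.zero_apply]
    rw [if_neg]
    have := x.1.2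
    omega
  · rfl

theorem w2_ge {j : ℕ} (h : 2 ≤ j) (f : Fin q → k) : (w2 j f : I2 e q → k) = 0 := by
  funext x
  rcases x with x | x | x
  · rfl
  · rfl
  · simp only [w2, Pi.zero_apply]
    rw [if_neg]
    have := x.1.2
    omega

@[simp] theorem v2_four : (v2 4 : I2 e q → k) = 0 := v2_ge le_rfl
@[simp] theorem v2_five : (v2 5 : I2 e q → k) = 0 := v2_ge (by norm_num)
@[simp] theorem v2_six : (v2 6 : I2 e q → k) = 0 := v2_ge (by norm_num)
@[simp] theorem u2_three (f : Fin e → k) : (u2 3 f : I2 e q → k) = 0 := u2_ge le_rfl f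
@[simp] theorem u2_four (f : Fin e → k) : (u2 4 f : I2 e q → k) = 0 := u2_ge (by norm_num) f
@[simp] theorem u2_five (f : Fin e → k) : (u2 5 f : I2 e q → k) = 0 := u2_ge (by norm_num) f
@[simp] theorem w2_two (f : Fin q → k) : (w2 2 f : I2 e q → k) = 0 := w2_ge le_rfl f
@[simp] theorem w2_three (f : Fin q → k) : (w2 3 f : I2 e q → k) = 0 := w2_ge (by norm_num) f
@[simp] theorem w2_four (f : Fin q → k) : (w2 4 f : I2 e q → k) = 0 := w2_ge (by norm_num) f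

@[simp] theorem u2_zero (j : ℕ) : (u2 j (0 : Fin e → k) : I2 e q → k) = 0 := by
  funext x
  rcases x with x | x | x <;> simp [u2]

@[simp] theorem w2_zero (j : ℕ) : (w2 j (0 : Fin q → k) : I2 e q → k) = 0 := by
  funext x
  rcases x with x | x | x <;> simp [w2]

theorem u2_add (j : ℕ) (f g : Fin e → k) : (u2 j (f + g) : I2 e q → k) = u2 j f + u2 j g := by
  funext x
  rcases x with x | x | x <;> simp [u2]
  split_ifs <;> simp

theorem u2_smul (j : ℕ) (s : k) (f : Fin e → k) : (u2 j (s • f) : I2 e q → k) = s • u2 j f := by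
  funext x
  rcases x with x | x | x <;> simp [u2]

theorem w2_add (j : ℕ) (f g : Fin q → k) : (w2 j (f + g) : I2 e q → k) = w2 j f + w2 j g := by
  funext x
  rcases x with x | x | x <;> simp [w2]
  split_ifs <;> simp

theorem w2_smul (j : ℕ) (s : k) (f : Fin q → k) : (w2 j (s • f) : I2 e q → k) = s • w2 j f := by
  funext x
  rcases x with x | x | x <;> simp [w2]

/-- columns -/
theorem mulVec_v2 (M : Matrix (I2 e q) (I2 e q) k) (j : Fin 4) :
    M *ᵥ v2 j = fun x => M x (.inl j) := by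
  funext x
  simp only [Matrix.mulVec, dotProduct, Fintype.sum_sum_type, v2, Fin.val_inj, mul_zero,
    Finset.sum_const_zero, add_zero]
  simp

theorem mulVec_v20 (M : Matrix (I2 e q) (I2 e q) k) :
    M *ᵥ v2 0 = fun x => M x (.inl 0) := mulVec_v2 M 0

theorem mulVec_u2 (M : Matrix (I2 e q) (I2 e q) k) (j : Fin 3) (f : Fin e → k) :
    M *ᵥ u2 j f = fun x => ∑ s, M x (.inr (.inl (j, s))) * f s := by
  funext x
  simp only [Matrix.mulVec, dotProduct, Fintype.sum_sum_type, Fintype.sum_prod_type, u2, mul_zero,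
    Finset.sum_const_zero, zero_add, add_zero, Fin.val_inj, mul_ite]
  rw [Finset.sum_eq_single j]
  · simp
  · intro b _ hb
    simp [hb]
  · intro h
    exact absurd (Finset.mem_univ _) h

theorem mulVec_u20 (M : Matrix (I2 e q) (I2 e q) k) (f : Fin e → k) :
    M *ᵥ u2 0 f = fun x => ∑ s, M x (.inr (.inl (0, s))) * f s := mulVec_u2 M 0 f

theorem mulVec_w2 (M : Matrix (I2 e q) (I2 e q) k) (j : Fin 2) (f : Fin q → k) :
    M *ᵥ w2 j f = fun x => ∑ s, M x (.inr (.inr (j, s))) * f s := by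
  funext x
  simp only [Matrix.mulVec, dotProduct, Fintype.sum_sum_type, Fintype.sum_prod_type, w2, mul_zero,
    Finset.sum_const_zero, zero_add, Fin.val_inj, mul_ite]
  rw [Finset.sum_eq_single j]
  · simp
  · intro b _ hb
    simp [hb]
  · intro h
    exact absurd (Finset.mem_univ _) h

theorem mulVec_w20 (M : Matrix (I2 e q) (I2 e q) k) (f : Fin q → k) :
    M *ᵥ w2 0 f = fun x => ∑ s, M x (.inr (.inr (0, s))) * f s := mulVec_w2 M 0 f

/-- matrices are determined by the images of the basis vectors -/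
theorem ext_vuw {A B : Matrix (I2 e q) (I2 e q) k} (h1 : ∀ j < 4, A *ᵥ v2 j = B *ᵥ v2 j)
    (h2 : ∀ j < 3, ∀ f, A *ᵥ u2 j f = B *ᵥ u2 j f) (h3 : ∀ j < 2, ∀ f, A *ᵥ w2 j f = B *ᵥ w2 j f) :
    A = B := by
  ext x y
  rcases y with y | y | y
  · have := congrFun (h1 y y.2) x
    rwa [mulVec_v2, mulVec_v2] at this
  · obtain ⟨j, s⟩ := y
    have := congrFun (h2 j j.2 (Pi.single s 1)) x
    rw [mulVec_u2, mulVec_u2] at this
    simpa [Pi.single_apply] using this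
  · obtain ⟨j, s⟩ := y
    have := congrFun (h3 j j.2 (Pi.single s 1)) x
    rw [mulVec_w2, mulVec_w2] at this
    simpa [Pi.single_apply] using this

/-! ### the Jordan matrix -/

theorem J2_v (j : ℕ) : J2 k e q *ᵥ v2 j = v2 (j + 1) := by
  rcases Nat.lt_or_ge j 4 with h | h
  · rw [show j = ((⟨j, h⟩ : Fin 4) : ℕ) from rfl, mulVec_v2]
    funext x
    rcases x with x | x | x <;> simp [J2, v2]
  · rw [v2_ge h, v2_ge (by omega), mulVec_zero]

theorem J2_u (j : ℕ) (f : Fin e → k) : J2 k e q *ᵥ u2 j f = u2 (j + 1) f := by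
  rcases Nat.lt_or_ge j 3 with h | h
  · rw [show j = ((⟨j, h⟩ : Fin 3) : ℕ) from rfl, mulVec_u2]
    funext x
    rcases x with x | x | x
    · simp [J2, u2]
    · simp only [J2, u2, Matrix.of_apply, ite_mul, one_mul, zero_mul]
      by_cases h1 : (x.1 : ℕ) = j + 1
      · simp [h1]
      · simp [h1]
    · simp [J2, u2]
  · rw [u2_ge h, u2_ge (by omega), mulVec_zero]

theorem J2_w (j : ℕ) (f : Fin q → k) : J2 k e q *ᵥ w2 j f = w2 (j + 1) f := by
  rcases Nat.lt_or_ge j 2 with h | h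
  · rw [show j = ((⟨j, h⟩ : Fin 2) : ℕ) from rfl, mulVec_w2]
    funext x
    rcases x with x | x | x
    · simp [J2, w2]
    · simp [J2, w2]
    · simp only [J2, w2, Matrix.of_apply, ite_mul, one_mul, zero_mul]
      by_cases h1 : (x.1 : ℕ) = j + 1
      · simp [h1]
      · simp [h1]
  · rw [w2_ge h, w2_ge (by omega), mulVec_zero]

theorem J2_pow_v (i j : ℕ) : J2 k e q ^ i *ᵥ v2 j = v2 (j + i) := by
  induction i with
  | zero => simp
  | succ i ih => rw [pow_succ', ← mulVec_mulVec, ih, J2_v]; rfl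

theorem J2_pow_u (i j : ℕ) (f : Fin e → k) : J2 k e q ^ i *ᵥ u2 j f = u2 (j + i) f := by
  induction i with
  | zero => simp
  | succ i ih => rw [pow_succ', ← mulVec_mulVec, ih, J2_u]; rfl

theorem J2_pow_w (i j : ℕ) (f : Fin q → k) : J2 k e q ^ i *ᵥ w2 j f = w2 (j + i) f := by
  induction i with
  | zero => simp
  | succ i ih => rw [pow_succ', ← mulVec_mulVec, ih, J2_w]; rfl

theorem J2_pow : J2 k e q ^ 4 = 0 := by
  refine ext_vuw (fun j _ => ?_) (fun j _ f => ?_) fun j _ f => ?_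
  · rw [J2_pow_v, v2_ge (by omega), zero_mulVec]
  · rw [J2_pow_u, u2_ge (by omega), zero_mulVec]
  · rw [J2_pow_w, w2_ge (by omega), zero_mulVec]

theorem J2_apply_v (w : I2 e q → k) (i : Fin 4) :
    (J2 k e q *ᵥ w) (.inl i) = if h : 0 < (i : ℕ) then w (.inl ⟨i - 1, by omega⟩) else 0 := by
  simp only [Matrix.mulVec, dotProduct, Fintype.sum_sum_type, J2, Matrix.of_apply, zero_mul,
    Finset.sum_const_zero, add_zero]
  split_ifs with h
  · rw [Finset.sum_eq_single ⟨i - 1, by omega⟩]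
    · rw [if_pos (by first | omega | (simp only; omega)), one_mul]
    · intro b _ hb
      rw [if_neg, zero_mul]
      intro h1
      exact hb (Fin.ext (by first | omega | (simp only; omega)))
    · intro h1
      exact absurd (Finset.mem_univ _) h1
  · refine Finset.sum_eq_zero fun b _ => ?_
    rw [if_neg (by omega), zero_mul]

theorem J2_apply_u (w : I2 e q → k) (i : Fin 3) (s : Fin e) :
    (J2 k e q *ᵥ w) (.inr (.inl (i, s))) =
      if h : 0 < (i : ℕ) then w (.inr (.inl (⟨i - 1, by omega⟩, s))) else 0 := by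
  simp only [Matrix.mulVec, dotProduct, Fintype.sum_sum_type, J2, Matrix.of_apply, zero_mul,
    Finset.sum_const_zero, add_zero, zero_add]
  split_ifs with h
  · rw [Finset.sum_eq_single (⟨i - 1, by omega⟩, s)]
    · rw [if_pos ⟨rfl, by first | omega | (simp only; omega)⟩, one_mul]
    · intro b _ hb
      rw [if_neg, zero_mul]
      rintro ⟨h0, h1⟩
      exact hb (Prod.ext (Fin.ext (by first | omega | (simp only; omega))) h0.symm)
    · intro h1
      exact absurd (Finset.mem_univ _) h1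
  · refine Finset.sum_eq_zero fun b _ => ?_
    rw [if_neg (by omega), zero_mul]

theorem J2_apply_w (w : I2 e q → k) (i : Fin 2) (s : Fin q) :
    (J2 k e q *ᵥ w) (.inr (.inr (i, s))) =
      if h : 0 < (i : ℕ) then w (.inr (.inr (⟨i - 1, by omega⟩, s))) else 0 := by
  simp only [Matrix.mulVec, dotProduct, Fintype.sum_sum_type, J2, Matrix.of_apply, zero_mul,
    Finset.sum_const_zero, zero_add]
  split_ifs with h
  · rw [Finset.sum_eq_single (⟨i - 1, by omega⟩, s)]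
    · rw [if_pos ⟨rfl, by first | omega | (simp only; omega)⟩, one_mul]
    · intro b _ hb
      rw [if_neg, zero_mul]
      rintro ⟨h0, h1⟩
      exact hb (Prod.ext (Fin.ext (by first | omega | (simp only; omega))) h0.symm)
    · intro h1
      exact absurd (Finset.mem_univ _) h1
  · refine Finset.sum_eq_zero fun b _ => ?_
    rw [if_neg (by omega), zero_mul]

theorem J2_pow_apply_v (j : ℕ) (w : I2 e q → k) (i : Fin 4) :
    (J2 k e q ^ j *ᵥ w) (.inl i) = if h : j ≤ (i : ℕ) then w (.inl ⟨i - j, by omega⟩) else 0 := by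
  induction j generalizing i with
  | zero => simp
  | succ j ih =>
    rw [pow_succ', ← mulVec_mulVec, J2_apply_v]
    by_cases h : 0 < (i : ℕ)
    · rw [dif_pos h, ih]
      by_cases h2 : j ≤ (i : ℕ) - 1
      · rw [dif_pos h2, dif_pos (by omega)]
        congr 2
        exact Fin.ext (by first | omega | (simp only; omega))
      · rw [dif_neg h2, dif_neg (by omega)]
    · rw [dif_neg h, dif_neg (by omega)]

theorem J2_pow_apply_u (j : ℕ) (w : I2 e q → k) (i : Fin 3) (s : Fin e) :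
    (J2 k e q ^ j *ᵥ w) (.inr (.inl (i, s))) =
      if h : j ≤ (i : ℕ) then w (.inr (.inl (⟨i - j, by omega⟩, s))) else 0 := by
  induction j generalizing i with
  | zero => simp
  | succ j ih =>
    rw [pow_succ', ← mulVec_mulVec, J2_apply_u]
    by_cases h : 0 < (i : ℕ)
    · rw [dif_pos h, ih]
      by_cases h2 : j ≤ (i : ℕ) - 1
      · rw [dif_pos h2, dif_pos (by omega)]
        congr 4
        exact Fin.ext (by first | omega | (simp only; omega))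
      · rw [dif_neg h2, dif_neg (by omega)]
    · rw [dif_neg h, dif_neg (by omega)]

theorem J2_pow_apply_w (j : ℕ) (w : I2 e q → k) (i : Fin 2) (s : Fin q) :
    (J2 k e q ^ j *ᵥ w) (.inr (.inr (i, s))) =
      if h : j ≤ (i : ℕ) then w (.inr (.inr (⟨i - j, by omega⟩, s))) else 0 := by
  induction j generalizing i with
  | zero => simp
  | succ j ih =>
    rw [pow_succ', ← mulVec_mulVec, J2_apply_w]
    by_cases h : 0 < (i : ℕ)
    · rw [dif_pos h, ih]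
      by_cases h2 : j ≤ (i : ℕ) - 1
      · rw [dif_pos h2, dif_pos (by omega)]
        congr 4
        exact Fin.ext (by first | omega | (simp only; omega))
      · rw [dif_neg h2, dif_neg (by omega)]
    · rw [dif_neg h, dif_neg (by omega)]

/-! ### the matrices `B2` -/

theorem B2_v (x : PN k e q) (j : ℕ) (hj : j < 4) : B2 x *ᵥ v2 j =
    u2 j x.a0 + u2 (j + 1) x.a1 + u2 (j + 2) x.a2 + w2 j x.c0 + w2 (j + 1) x.c1 := by
  rw [show j = ((⟨j, hj⟩ : Fin 4) : ℕ) from rfl, mulVec_v2]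
  funext y
  rcases y with y | y | y
  · simp [B2, u2, w2]
  · simp only [B2, Matrix.of_apply, Pi.add_apply, u2, w2, add_zero]
    split_ifs <;> first | omega | simp
  · simp only [B2, Matrix.of_apply, Pi.add_apply, u2, w2, zero_add]
    split_ifs <;> first | omega | simp

theorem B2_u (x : PN k e q) (j : ℕ) (hj : j < 3) (f : Fin e → k) : B2 x *ᵥ u2 j f =
    (x.b0 ⬝ᵥ f) • v2 (1 + j) + (x.b1 ⬝ᵥ f) • v2 (2 + j) + (x.b2 ⬝ᵥ f) • v2 (3 + j) +
    u2 (j + 1) (x.N1 *ᵥ f) + u2 (j + 2) (x.N2 *ᵥ f) + w2 j (x.P0 *ᵥ f) +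
    w2 (j + 1) (x.P1 *ᵥ f) := by
  rw [show j = ((⟨j, hj⟩ : Fin 3) : ℕ) from rfl, mulVec_u2]
  funext y
  rcases y with y | y | y
  · simp only [B2, Matrix.of_apply, Pi.add_apply, u2, v2, w2, Pi.smul_apply, smul_eq_mul, add_zero]
    by_cases h0 : (y : ℕ) = 1 + j
    · have h1 : ¬ (y : ℕ) = 2 + j := by omega
      have h2 : ¬ (y : ℕ) = 3 + j := by omega
      simp only [if_pos h0, if_neg h1, if_neg h2, dotProduct]
      simp
    · by_cases h1 : (y : ℕ) = 2 + j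
      · have h2 : ¬ (y : ℕ) = 3 + j := by omega
        simp only [if_neg h0, if_pos h1, if_neg h2, dotProduct]
        simp
      · by_cases h2 : (y : ℕ) = 3 + j
        · simp only [if_neg h0, if_neg h1, if_pos h2, dotProduct]
          simp
        · simp only [if_neg h0, if_neg h1, if_neg h2]
          simp
  · simp only [B2, Matrix.of_apply, Pi.add_apply, u2, v2, w2, Pi.smul_apply, smul_eq_mul, mul_zero,
      zero_add, add_zero]
    by_cases h0 : (y.1 : ℕ) = j + 1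
    · have h1 : ¬ (y.1 : ℕ) = j + 2 := by omega
      simp only [if_pos h0, if_neg h1, mulVec, dotProduct]
      simp
    · by_cases h1 : (y.1 : ℕ) = j + 2
      · simp only [if_neg h0, if_pos h1, mulVec, dotProduct]
        simp
      · simp only [if_neg h0, if_neg h1]
        simp
  · simp only [B2, Matrix.of_apply, Pi.add_apply, u2, v2, w2, Pi.smul_apply, smul_eq_mul, mul_zero,
      zero_add]
    by_cases h0 : (y.1 : ℕ) = j
    · have h1 : ¬ (y.1 : ℕ) = j + 1 := by omega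
      simp only [if_pos h0, if_neg h1, mulVec, dotProduct]
      simp
    · by_cases h1 : (y.1 : ℕ) = j + 1
      · simp only [if_neg h0, if_pos h1, mulVec, dotProduct]
        simp
      · simp only [if_neg h0, if_neg h1]
        simp

theorem B2_w (x : PN k e q) (j : ℕ) (hj : j < 2) (f : Fin q → k) : B2 x *ᵥ w2 j f =
    (x.g0 ⬝ᵥ f) • v2 (2 + j) + (x.g1 ⬝ᵥ f) • v2 (3 + j) +
    u2 (j + 1) (x.Q0 *ᵥ f) + u2 (j + 2) (x.Q1 *ᵥ f) + w2 (j + 1) (x.V1 *ᵥ f) := by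
  rw [show j = ((⟨j, hj⟩ : Fin 2) : ℕ) from rfl, mulVec_w2]
  funext y
  rcases y with y | y | y
  · simp only [B2, Matrix.of_apply, Pi.add_apply, u2, v2, w2, Pi.smul_apply, smul_eq_mul, add_zero]
    by_cases h0 : (y : ℕ) = 2 + j
    · have h1 : ¬ (y : ℕ) = 3 + j := by omega
      simp only [if_pos h0, if_neg h1, dotProduct]
      simp
    · by_cases h1 : (y : ℕ) = 3 + j
      · simp only [if_neg h0, if_pos h1, dotProduct]
        simp
      · simp only [if_neg h0, if_neg h1]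
        simp
  · simp only [B2, Matrix.of_apply, Pi.add_apply, u2, v2, w2, Pi.smul_apply, smul_eq_mul, mul_zero,
      zero_add, add_zero]
    by_cases h0 : (y.1 : ℕ) = j + 1
    · have h1 : ¬ (y.1 : ℕ) = j + 2 := by omega
      simp only [if_pos h0, if_neg h1, mulVec, dotProduct]
      simp
    · by_cases h1 : (y.1 : ℕ) = j + 2
      · simp only [if_neg h0, if_pos h1, mulVec, dotProduct]
        simp
      · simp only [if_neg h0, if_neg h1]
        simp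
  · simp only [B2, Matrix.of_apply, Pi.add_apply, u2, v2, w2, Pi.smul_apply, smul_eq_mul, mul_zero,
      zero_add]
    by_cases h0 : (y.1 : ℕ) = j + 1
    · simp only [if_pos h0, mulVec, dotProduct]
    · simp only [if_neg h0]
      simp

theorem B2_v0 (x : PN k e q) :
    B2 x *ᵥ v2 0 = u2 0 x.a0 + u2 1 x.a1 + u2 2 x.a2 + w2 0 x.c0 + w2 1 x.c1 := by
  rw [B2_v x 0 (by norm_num)]

theorem B2_v1 (x : PN k e q) : B2 x *ᵥ v2 1 = u2 1 x.a0 + u2 2 x.a1 + w2 1 x.c0 := by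
  rw [B2_v x 1 (by norm_num)]
  simp

theorem B2_v2 (x : PN k e q) : B2 x *ᵥ v2 2 = u2 2 x.a0 := by
  rw [B2_v x 2 (by norm_num)]
  simp

theorem B2_v3 (x : PN k e q) : B2 x *ᵥ v2 3 = 0 := by
  rw [B2_v x 3 (by norm_num)]
  simp

theorem B2_u0 (x : PN k e q) (f : Fin e → k) :
    B2 x *ᵥ u2 0 f = (x.b0 ⬝ᵥ f) • v2 1 + (x.b1 ⬝ᵥ f) • v2 2 + (x.b2 ⬝ᵥ f) • v2 3 +
      u2 1 (x.N1 *ᵥ f) + u2 2 (x.N2 *ᵥ f) + w2 0 (x.P0 *ᵥ f) + w2 1 (x.P1 *ᵥ f) := by
  rw [B2_u x 0 (by norm_num)]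

theorem B2_u1 (x : PN k e q) (f : Fin e → k) :
    B2 x *ᵥ u2 1 f = (x.b0 ⬝ᵥ f) • v2 2 + (x.b1 ⬝ᵥ f) • v2 3 +
      u2 2 (x.N1 *ᵥ f) + w2 1 (x.P0 *ᵥ f) := by
  rw [B2_u x 1 (by norm_num)]
  simp

theorem B2_u2 (x : PN k e q) (f : Fin e → k) :
    B2 x *ᵥ u2 2 f = (x.b0 ⬝ᵥ f) • v2 3 := by
  rw [B2_u x 2 (by norm_num)]
  simp

theorem B2_w0 (x : PN k e q) (f : Fin q → k) :
    B2 x *ᵥ w2 0 f = (x.g0 ⬝ᵥ f) • v2 2 + (x.g1 ⬝ᵥ f) • v2 3 +
      u2 1 (x.Q0 *ᵥ f) + u2 2 (x.Q1 *ᵥ f) + w2 1 (x.V1 *ᵥ f) := by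
  rw [B2_w x 0 (by norm_num)]

theorem B2_w1 (x : PN k e q) (f : Fin q → k) :
    B2 x *ᵥ w2 1 f = (x.g0 ⬝ᵥ f) • v2 3 + u2 2 (x.Q0 *ᵥ f) := by
  rw [B2_w x 1 (by norm_num)]
  simp

/-! ### relations -/

/-- the conditions for `B2 x` and `B2 y` to commute -/
structure Rel (x y : PN k e q) : Prop where
  C1 : x.b0 ⬝ᵥ y.a0 = y.b0 ⬝ᵥ x.a0
  C2 : x.b1 ⬝ᵥ y.a0 + x.b0 ⬝ᵥ y.a1 + x.g0 ⬝ᵥ y.c0 = y.b1 ⬝ᵥ x.a0 + y.b0 ⬝ᵥ x.a1 + y.g0 ⬝ᵥ x.c0
  C3 : x.b2 ⬝ᵥ y.a0 + x.b1 ⬝ᵥ y.a1 + x.b0 ⬝ᵥ y.a2 + x.g1 ⬝ᵥ y.c0 + x.g0 ⬝ᵥ y.c1 =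
    y.b2 ⬝ᵥ x.a0 + y.b1 ⬝ᵥ x.a1 + y.b0 ⬝ᵥ x.a2 + y.g1 ⬝ᵥ x.c0 + y.g0 ⬝ᵥ x.c1
  C4 : x.N1 *ᵥ y.a0 + x.Q0 *ᵥ y.c0 = y.N1 *ᵥ x.a0 + y.Q0 *ᵥ x.c0
  C5 : x.N2 *ᵥ y.a0 + x.N1 *ᵥ y.a1 + x.Q1 *ᵥ y.c0 + x.Q0 *ᵥ y.c1 =
    y.N2 *ᵥ x.a0 + y.N1 *ᵥ x.a1 + y.Q1 *ᵥ x.c0 + y.Q0 *ᵥ x.c1
  C6 : x.P0 *ᵥ y.a0 = y.P0 *ᵥ x.a0
  C7 : x.P1 *ᵥ y.a0 + x.P0 *ᵥ y.a1 + x.V1 *ᵥ y.c0 = y.P1 *ᵥ x.a0 + y.P0 *ᵥ x.a1 + y.V1 *ᵥ x.c0
  C8 : x.b0 ᵥ* y.N1 + x.g0 ᵥ* y.P0 = y.b0 ᵥ* x.N1 + y.g0 ᵥ* x.P0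
  C9 : x.b1 ᵥ* y.N1 + x.b0 ᵥ* y.N2 + x.g1 ᵥ* y.P0 + x.g0 ᵥ* y.P1 =
    y.b1 ᵥ* x.N1 + y.b0 ᵥ* x.N2 + y.g1 ᵥ* x.P0 + y.g0 ᵥ* x.P1
  C10 : vecMulVec x.a0 y.b0 + x.Q0 * y.P0 = vecMulVec y.a0 x.b0 + y.Q0 * x.P0
  C11 : vecMulVec x.a1 y.b0 + vecMulVec x.a0 y.b1 + x.N1 * y.N1 + x.Q1 * y.P0 + x.Q0 * y.P1 =
    vecMulVec y.a1 x.b0 + vecMulVec y.a0 x.b1 + y.N1 * x.N1 + y.Q1 * x.P0 + y.Q0 * x.P1
  C12 : vecMulVec x.c0 y.b0 + x.P0 * y.N1 + x.V1 * y.P0 =
    vecMulVec y.c0 x.b0 + y.P0 * x.N1 + y.V1 * x.P0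
  C13 : x.b0 ᵥ* y.Q0 = y.b0 ᵥ* x.Q0
  C14 : x.b1 ᵥ* y.Q0 + x.b0 ᵥ* y.Q1 + x.g0 ᵥ* y.V1 = y.b1 ᵥ* x.Q0 + y.b0 ᵥ* x.Q1 + y.g0 ᵥ* x.V1
  C15 : vecMulVec x.a0 y.g0 + x.N1 * y.Q0 + x.Q0 * y.V1 =
    vecMulVec y.a0 x.g0 + y.N1 * x.Q0 + y.Q0 * x.V1
  C16 : x.P0 * y.Q0 = y.P0 * x.Q0

/-- the vectors which occur as images of products -/
def nf (α β γ : k) (f g : Fin e → k) (h m : Fin q → k) : I2 e q → k :=
  α • v2 1 + β • v2 2 + γ • v2 3 + u2 1 f + u2 2 g + w2 0 h + w2 1 m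

theorem nf_inj {α β γ α' β' γ' : k} {f g f' g' : Fin e → k} {h m h' m' : Fin q → k}
    (H : nf α β γ f g h m = nf α' β' γ' f' g' h' m') :
    α = α' ∧ β = β' ∧ γ = γ' ∧ f = f' ∧ g = g' ∧ h = h' ∧ m = m' := by
  refine ⟨?_, ?_, ?_, ?_, ?_, ?_, ?_⟩
  · have := congrFun H (.inl 1)
    simpa [nf, v2, u2, w2] using this
  · have := congrFun H (.inl 2)
    simpa [nf, v2, u2, w2] using this
  · have := congrFun H (.inl 3)
    simpa [nf, v2, u2, w2] using this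
  · funext i
    have := congrFun H (.inr (.inl (1, i)))
    simpa [nf, v2, u2, w2] using this
  · funext i
    have := congrFun H (.inr (.inl (2, i)))
    simpa [nf, v2, u2, w2] using this
  · funext i
    have := congrFun H (.inr (.inr (0, i)))
    simpa [nf, v2, u2, w2] using this
  · funext i
    have := congrFun H (.inr (.inr (1, i)))
    simpa [nf, v2, u2, w2] using this

theorem mul_v (x y : PN k e q) : (B2 x * B2 y) *ᵥ v2 0 =
    nf (x.b0 ⬝ᵥ y.a0) (x.b1 ⬝ᵥ y.a0 + x.b0 ⬝ᵥ y.a1 + x.g0 ⬝ᵥ y.c0)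
      (x.b2 ⬝ᵥ y.a0 + x.b1 ⬝ᵥ y.a1 + x.b0 ⬝ᵥ y.a2 + x.g1 ⬝ᵥ y.c0 + x.g0 ⬝ᵥ y.c1)
      (x.N1 *ᵥ y.a0 + x.Q0 *ᵥ y.c0)
      (x.N2 *ᵥ y.a0 + x.N1 *ᵥ y.a1 + x.Q1 *ᵥ y.c0 + x.Q0 *ᵥ y.c1)
      (x.P0 *ᵥ y.a0) (x.P1 *ᵥ y.a0 + x.P0 *ᵥ y.a1 + x.V1 *ᵥ y.c0) := by
  rw [← mulVec_mulVec, B2_v0]
  simp only [mulVec_add, B2_u0, B2_u1, B2_u2, B2_w0, B2_w1, nf, add_smul, u2_add, w2_add]
  abel

theorem vmv (a : Fin e → k) (b f : Fin e → k) : vecMulVec a b *ᵥ f = (b ⬝ᵥ f) • a := by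
  rw [vecMulVec_mulVec]
  simp

theorem mul_u (x y : PN k e q) (f : Fin e → k) : (B2 x * B2 y) *ᵥ u2 0 f =
    nf 0 ((x.b0 ᵥ* y.N1 + x.g0 ᵥ* y.P0) ⬝ᵥ f)
      ((x.b1 ᵥ* y.N1 + x.b0 ᵥ* y.N2 + x.g1 ᵥ* y.P0 + x.g0 ᵥ* y.P1) ⬝ᵥ f)
      ((vecMulVec x.a0 y.b0 + x.Q0 * y.P0) *ᵥ f)
      ((vecMulVec x.a1 y.b0 + vecMulVec x.a0 y.b1 + x.N1 * y.N1 + x.Q1 * y.P0 + x.Q0 * y.P1) *ᵥ f)
      0 ((vecMulVec x.c0 y.b0 + x.P0 * y.N1 + x.V1 * y.P0) *ᵥ f) := by
  have e3 : ∀ a : Fin q → k, ∀ b : Fin e → k, vecMulVec a b *ᵥ f = (b ⬝ᵥ f) • a := fun a b => by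
    rw [vecMulVec_mulVec]
    simp
  have e4 : ∀ a : Fin e → k, ∀ b : Fin e → k, vecMulVec a b *ᵥ f = (b ⬝ᵥ f) • a := fun a b => by
    rw [vecMulVec_mulVec]
    simp
  rw [← mulVec_mulVec, B2_u0]
  simp only [mulVec_add, mulVec_smul, B2_v1, B2_v2, B2_v3, B2_u1, B2_u2, B2_w0, B2_w1, nf,
    add_smul, add_mulVec, ← mulVec_mulVec, e3, e4, add_dotProduct, ← dotProduct_mulVec,
    u2_add, w2_add, u2_smul, w2_smul, smul_add, smul_zero, zero_smul, w2_zero]
  abel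

theorem mul_w (x y : PN k e q) (f : Fin q → k) : (B2 x * B2 y) *ᵥ w2 0 f =
    nf 0 ((x.b0 ᵥ* y.Q0) ⬝ᵥ f) ((x.b1 ᵥ* y.Q0 + x.b0 ᵥ* y.Q1 + x.g0 ᵥ* y.V1) ⬝ᵥ f) 0
      ((vecMulVec x.a0 y.g0 + x.N1 * y.Q0 + x.Q0 * y.V1) *ᵥ f) 0 ((x.P0 * y.Q0) *ᵥ f) := by
  have e3 : ∀ a : Fin e → k, ∀ b : Fin q → k, vecMulVec a b *ᵥ f = (b ⬝ᵥ f) • a := fun a b => by
    rw [vecMulVec_mulVec]
    simp
  rw [← mulVec_mulVec, B2_w0]
  simp only [mulVec_add, mulVec_smul, B2_v2, B2_v3, B2_u1, B2_u2, B2_w1, nf,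
    add_smul, add_mulVec, ← mulVec_mulVec, e3, add_dotProduct, ← dotProduct_mulVec,
    u2_add, u2_smul, smul_zero, zero_smul, w2_zero, u2_zero]
  abel

/-! ### commutation with the Jordan matrix -/

theorem B2_comm (x : PN k e q) : J2 k e q * B2 x = B2 x * J2 k e q := by
  refine ext_vuw (fun j hj => ?_) (fun j hj f => ?_) fun j hj f => ?_
  · rw [← mulVec_mulVec, ← mulVec_mulVec, J2_v]
    obtain rfl | rfl | rfl | rfl : j = 0 ∨ j = 1 ∨ j = 2 ∨ j = 3 := by omega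
    · rw [B2_v0, B2_v1]
      simp only [mulVec_add, J2_u, J2_w]
      simp
    · rw [B2_v1, B2_v2]
      simp only [mulVec_add, J2_u, J2_w]
      simp
    · rw [B2_v2, B2_v3]
      simp only [J2_u]
      simp
    · rw [B2_v3]
      simp
  · rw [← mulVec_mulVec, ← mulVec_mulVec, J2_u]
    obtain rfl | rfl | rfl : j = 0 ∨ j = 1 ∨ j = 2 := by omega
    · rw [B2_u0, B2_u1]
      simp only [mulVec_add, mulVec_smul, J2_u, J2_w, J2_v]
      simp
    · rw [B2_u1, B2_u2]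
      simp only [mulVec_add, mulVec_smul, J2_u, J2_w, J2_v]
      simp
    · rw [B2_u2]
      simp only [mulVec_smul, J2_v]
      simp
  · rw [← mulVec_mulVec, ← mulVec_mulVec, J2_w]
    obtain rfl | rfl : j = 0 ∨ j = 1 := by omega
    · rw [B2_w0, B2_w1]
      simp only [mulVec_add, mulVec_smul, J2_u, J2_w, J2_v]
      simp
    · rw [B2_w1]
      simp only [mulVec_add, mulVec_smul, J2_u, J2_v]
      simp

theorem comm_v {X : Matrix (I2 e q) (I2 e q) k} (hX : J2 k e q * X = X * J2 k e q)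
    (j : ℕ) : X *ᵥ v2 j = J2 k e q ^ j *ᵥ (X *ᵥ v2 0) := by
  have h : Commute (J2 k e q) X := hX
  rw [mulVec_mulVec, (h.pow_left j).eq, ← mulVec_mulVec, J2_pow_v, zero_add]

theorem comm_u {X : Matrix (I2 e q) (I2 e q) k} (hX : J2 k e q * X = X * J2 k e q)
    (j : ℕ) (f : Fin e → k) : X *ᵥ u2 j f = J2 k e q ^ j *ᵥ (X *ᵥ u2 0 f) := by
  have h : Commute (J2 k e q) X := hX
  rw [mulVec_mulVec, (h.pow_left j).eq, ← mulVec_mulVec, J2_pow_u, zero_add]

theorem comm_w {X : Matrix (I2 e q) (I2 e q) k} (hX : J2 k e q * X = X * J2 k e q)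
    (j : ℕ) (f : Fin q → k) : X *ᵥ w2 j f = J2 k e q ^ j *ᵥ (X *ᵥ w2 0 f) := by
  have h : Commute (J2 k e q) X := hX
  rw [mulVec_mulVec, (h.pow_left j).eq, ← mulVec_mulVec, J2_pow_w, zero_add]

/-- matrices commuting with the Jordan matrix are determined by the images of the generators -/
theorem ext_gen {A B : Matrix (I2 e q) (I2 e q) k} (hA : J2 k e q * A = A * J2 k e q)
    (hB : J2 k e q * B = B * J2 k e q) (h1 : A *ᵥ v2 0 = B *ᵥ v2 0)
    (h2 : ∀ f, A *ᵥ u2 0 f = B *ᵥ u2 0 f) (h3 : ∀ f, A *ᵥ w2 0 f = B *ᵥ w2 0 f) : A = B := by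
  refine ext_vuw (fun j _ => ?_) (fun j _ f => ?_) fun j _ f => ?_
  · rw [comm_v hA, comm_v hB, h1]
  · rw [comm_u hA, comm_u hB, h2]
  · rw [comm_w hA, comm_w hB, h3]

theorem dot_ext {n : Type*} [Fintype n] [DecidableEq n] {a b : n → k}
    (h : ∀ f, a ⬝ᵥ f = b ⬝ᵥ f) : a = b := by
  funext i
  simpa using h (Pi.single i 1)

theorem mulVec_ext {m n : Type*} [Fintype n] [DecidableEq n] {M N : Matrix m n k}
    (h : ∀ f, M *ᵥ f = N *ᵥ f) : M = N := by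
  ext i j
  have := congrFun (h (Pi.single j 1)) i
  simpa using this

/-- `B2 x` and `B2 y` commute if and only if the relations hold -/
theorem mul_comm_iff (x y : PN k e q) : B2 x * B2 y = B2 y * B2 x ↔ Rel x y := by
  constructor
  · intro h
    have h1 := congrArg (fun M => M *ᵥ v2 0) h
    simp only [mul_v] at h1
    obtain ⟨c1, c2, c3, c4, c5, c6, c7⟩ := nf_inj h1
    have h2 : ∀ f, (B2 x * B2 y) *ᵥ u2 0 f = (B2 y * B2 x) *ᵥ u2 0 f := fun f => by rw [h]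
    simp only [mul_u] at h2
    have h3 : ∀ f, (B2 x * B2 y) *ᵥ w2 0 f = (B2 y * B2 x) *ᵥ w2 0 f := fun f => by rw [h]
    simp only [mul_w] at h3
    exact ⟨c1, c2, c3, c4, c5, c6, c7, dot_ext fun f => (nf_inj (h2 f)).2.1,
      dot_ext fun f => (nf_inj (h2 f)).2.2.1,
      mulVec_ext fun f => (nf_inj (h2 f)).2.2.2.1,
      mulVec_ext fun f => (nf_inj (h2 f)).2.2.2.2.1,
      mulVec_ext fun f => (nf_inj (h2 f)).2.2.2.2.2.2,
      dot_ext fun f => (nf_inj (h3 f)).2.1,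
      dot_ext fun f => (nf_inj (h3 f)).2.2.1,
      mulVec_ext fun f => (nf_inj (h3 f)).2.2.2.2.1,
      mulVec_ext fun f => (nf_inj (h3 f)).2.2.2.2.2.2⟩
  · intro h
    have e0 : ∀ x y : PN k e q, J2 k e q * (B2 x * B2 y) = (B2 x * B2 y) * J2 k e q := by
      intro x y
      rw [← Matrix.mul_assoc, B2_comm, Matrix.mul_assoc, B2_comm, Matrix.mul_assoc]
    refine ext_gen (e0 x y) (e0 y x) ?_ (fun f => ?_) fun f => ?_
    · rw [mul_v, mul_v, h.C1, h.C2, h.C3, h.C4, h.C5, h.C6, h.C7]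
    · rw [mul_u, mul_u, h.C8, h.C9, h.C10, h.C11, h.C12]
    · rw [mul_w, mul_w, h.C13, h.C14, h.C15, h.C16]

/-! ### nilpotency -/

theorem nilp_deg {n : Type*} [Fintype n] [DecidableEq n] {M : Matrix n n k} (d : n → ℕ)
    (h : ∀ i j, M i j ≠ 0 → d j < d i) : IsNilpotent M := by
  have h1 : ∀ (m : ℕ) (i j : n), (M ^ m) i j ≠ 0 → d j + m ≤ d i := by
    intro m
    induction m with
    | zero =>
      intro i j hij
      have : i = j := by
        by_contra hne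
        exact hij (by rw [pow_zero, Matrix.one_apply_ne hne])
      subst this
      omega
    | succ m ih =>
      intro i j hij
      rw [pow_succ, Matrix.mul_apply] at hij
      obtain ⟨t, -, ht⟩ := Finset.exists_ne_zero_of_sum_ne_zero hij
      have h2 := ih i t (left_ne_zero_of_mul ht)
      have h3 := h t j (right_ne_zero_of_mul ht)
      omega
  refine ⟨∑ i, d i + 1, ?_⟩
  ext i j
  by_contra hne
  have h2 := h1 _ i j hne
  have h3 : d i ≤ ∑ i, d i := Finset.single_le_sum (fun _ _ => Nat.zero_le _) (Finset.mem_univ i)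
  omega

/-- degrees -/
def dg : I2 e q → ℕ
  | .inl i => 3 * i
  | .inr (.inl i) => 3 * i.1 + 1
  | .inr (.inr i) => 3 * i.1 + 2

theorem J2_nilp : IsNilpotent (J2 k e q) := ⟨4, J2_pow⟩

theorem B2_nilp (x : PN k e q) : IsNilpotent (B2 x) := by
  refine nilp_deg dg fun i j h => ?_
  rcases i with i | i | i <;> rcases j with j | j | j <;>
    simp only [B2, Matrix.of_apply, ne_eq, not_true_eq_false] at h <;> simp only [dg]
  all_goals
    split_ifs at h <;> first | omega | exact absurd rfl h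

/-- the triple is commuting and nilpotent if and only if the relations hold -/
theorem cn_iff (x y : PN k e q) : CN ![J2 k e q, B2 x, B2 y] ↔ Rel x y := by
  rw [← mul_comm_iff]
  constructor
  · intro h
    exact h.1 1 2
  · intro h
    refine ⟨fun i j => ?_, fun i => ?_⟩
    · have hx := B2_comm x
      have hy := B2_comm y
      fin_cases i <;> fin_cases j
      exacts [rfl, hx, hy, hx.symm, rfl, h, hy.symm, h.symm, rfl]
    · fin_cases i
      exacts [J2_nilp, B2_nilp x, B2_nilp y]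

/-! ### the shape -/

theorem nilp_eig {n : Type*} [Fintype n] [DecidableEq n] {X : Matrix n n k} (hX : IsNilpotent X)
    {y : n → k} {q : k} (h : X *ᵥ y = q • y) (hy : y ≠ 0) : q = 0 := by
  obtain ⟨N, hN⟩ := hX
  have h1 : ∀ i : ℕ, X ^ i *ᵥ y = q ^ i • y := by
    intro i
    induction i with
    | zero => simp
    | succ i ih => rw [pow_succ', ← mulVec_mulVec, ih, mulVec_smul, h, smul_smul, pow_succ]
  have h2 := h1 N
  rw [hN, zero_mulVec] at h2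
  by_contra hq
  exact smul_ne_zero (pow_ne_zero N hq) hy h2.symm

theorem shape_aux {X : Matrix (I2 e q) (I2 e q) k}
    (hX : J2 k e q * X = X * J2 k e q) (h0 : ∀ i, X (.inl i) (.inl 0) = 0)
    (hu : ∀ s t, X (.inr (.inl (0, s))) (.inr (.inl (0, t))) = 0)
    (hw : ∀ s t, X (.inr (.inr (0, s))) (.inr (.inr (0, t))) = 0) :
    ∃ x : PN k e q, X = B2 x := by
  let x : PN k e q :=
    { a0 := fun s => X (.inr (.inl (0, s))) (.inl 0)
      a1 := fun s => X (.inr (.inl (1, s))) (.inl 0)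
      a2 := fun s => X (.inr (.inl (2, s))) (.inl 0)
      c0 := fun s => X (.inr (.inr (0, s))) (.inl 0)
      c1 := fun s => X (.inr (.inr (1, s))) (.inl 0)
      b0 := fun s => X (.inl 1) (.inr (.inl (0, s)))
      b1 := fun s => X (.inl 2) (.inr (.inl (0, s)))
      b2 := fun s => X (.inl 3) (.inr (.inl (0, s)))
      N1 := Matrix.of fun s t => X (.inr (.inl (1, s))) (.inr (.inl (0, t)))
      N2 := Matrix.of fun s t => X (.inr (.inl (2, s))) (.inr (.inl (0, t)))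
      P0 := Matrix.of fun s t => X (.inr (.inr (0, s))) (.inr (.inl (0, t)))
      P1 := Matrix.of fun s t => X (.inr (.inr (1, s))) (.inr (.inl (0, t)))
      g0 := fun s => X (.inl 2) (.inr (.inr (0, s)))
      g1 := fun s => X (.inl 3) (.inr (.inr (0, s)))
      Q0 := Matrix.of fun s t => X (.inr (.inl (1, s))) (.inr (.inr (0, t)))
      Q1 := Matrix.of fun s t => X (.inr (.inl (2, s))) (.inr (.inr (0, t)))
      V1 := Matrix.of fun s t => X (.inr (.inr (1, s))) (.inr (.inr (0, t))) }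
  have hu0 : ∀ s : Fin e, X (.inl 0) (.inr (.inl (0, s))) = 0 := by
    intro s
    have h1 := comm_u hX 3 (Pi.single s 1)
    rw [u2_ge le_rfl, mulVec_zero, mulVec_u20] at h1
    have h2 := congrFun h1 (.inl 3)
    rw [J2_pow_apply_v, dif_pos (by simp)] at h2
    simpa [Pi.single_apply] using h2.symm
  have hw0 : ∀ (i : Fin 4) (s : Fin q), (i : ℕ) < 2 → X (.inl i) (.inr (.inr (0, s))) = 0 := by
    intro i s hi
    have h1 := comm_w hX 2 (Pi.single s 1)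
    rw [w2_ge le_rfl, mulVec_zero, mulVec_w20] at h1
    have h2 := congrFun h1 (.inl ⟨i + 2, by omega⟩)
    rw [J2_pow_apply_v, dif_pos (by simp)] at h2
    simpa [Pi.single_apply] using h2.symm
  have hw1 : ∀ (s : Fin e) (t : Fin q), X (.inr (.inl (0, s))) (.inr (.inr (0, t))) = 0 := by
    intro s t
    have h1 := comm_w hX 2 (Pi.single t 1)
    rw [w2_ge le_rfl, mulVec_zero, mulVec_w20] at h1
    have h2 := congrFun h1 (.inr (.inl (2, s)))
    rw [J2_pow_apply_u, dif_pos (by simp)] at h2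
    simpa [Pi.single_apply] using h2.symm
  refine ⟨x, ext_gen hX (B2_comm x) ?_ (fun f => ?_) fun f => ?_⟩
  · rw [B2_v0, mulVec_v20]
    funext y
    rcases y with y | ⟨y, s⟩ | ⟨y, s⟩
    · simp [u2, w2, h0]
    · fin_cases y <;> simp [u2, w2, x]
    · fin_cases y <;> simp [u2, w2, x]
  · rw [B2_u0, mulVec_u20]
    funext y
    rcases y with y | ⟨y, s⟩ | ⟨y, s⟩
    · fin_cases y
      · simp [v2, u2, w2, hu0]
      · simp [v2, u2, w2, x, dotProduct]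
      · simp [v2, u2, w2, x, dotProduct]
      · simp [v2, u2, w2, x, dotProduct]
    · fin_cases y
      · simp [v2, u2, w2, hu]
      · simp [v2, u2, w2, x, mulVec, dotProduct]
      · simp [v2, u2, w2, x, mulVec, dotProduct]
    · fin_cases y
      · simp [v2, u2, w2, x, mulVec, dotProduct]
      · simp [v2, u2, w2, x, mulVec, dotProduct]
  · rw [B2_w0, mulVec_w20]
    funext y
    rcases y with y | ⟨y, s⟩ | ⟨y, s⟩
    · fin_cases y
      · simp [v2, u2, w2, hw0 0 _ (by norm_num)]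
      · simp [v2, u2, w2, hw0 1 _ (by norm_num)]
      · simp [v2, u2, w2, x, dotProduct]
      · simp [v2, u2, w2, x, dotProduct]
    · fin_cases y
      · simp [v2, u2, w2, hw1]
      · simp [v2, u2, w2, x, mulVec, dotProduct]
      · simp [v2, u2, w2, x, mulVec, dotProduct]
    · fin_cases y
      · simp [v2, u2, w2, hw]
      · simp [v2, u2, w2, x, mulVec, dotProduct]

variable {ρ : ℕ → ℕ} {T : Fin 3 → Matrix (I2 e q) (I2 e q) k}

/-- the cube of a line -/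
theorem cube_line {n : Type*} [Fintype n] [DecidableEq n] {J X : Matrix n n k}
    (hc : X * J = J * X) (s : k) : (J + s • X) ^ 3 = J ^ 3 + s • ((3 : k) • (J ^ 2 * X) +
      s • ((3 : k) • (J * X ^ 2) + s • X ^ 3)) := by
  have h1 : (J + s • X) ^ 3 = J ^ 3 + s • (J * J * X + J * (X * J) + X * J * J) +
      (s * s) • (J * X * X + X * J * X + X * (X * J)) + (s * (s * s)) • X ^ 3 := by
    simp only [pow_succ, pow_zero, one_mul, add_mul, mul_add, smul_mul_assoc, mul_smul_comm,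
      smul_add, smul_smul, Matrix.mul_assoc]
    abel
  have h2 : X * J * J = J * J * X := by
    rw [hc, Matrix.mul_assoc, hc, ← Matrix.mul_assoc]
  have h3 : X * (X * J) = J * X * X := by
    rw [hc, ← Matrix.mul_assoc, hc]
  have h4 : X * J * X = J * X * X := by rw [hc]
  have h5 : J * (X * J) = J * J * X := by rw [hc, ← Matrix.mul_assoc]
  rw [h1, h2, h3, h4, h5]
  simp only [pow_succ, pow_zero, one_mul, smul_add, smul_smul, Matrix.mul_assoc]
  module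

/-- the square of a line -/
theorem sq_line' {n : Type*} [Fintype n] [DecidableEq n] {J X : Matrix n n k}
    (hc : X * J = J * X) (s : k) :
    (J + s • X) ^ 2 = J ^ 2 + s • ((2 : k) • (J * X) + s • X ^ 2) := by
  have h1 : (J + s • X) ^ 2 = J ^ 2 + s • (J * X + X * J) + (s * s) • X ^ 2 := by
    simp only [pow_succ, pow_zero, one_mul, add_mul, mul_add, smul_mul_assoc, mul_smul_comm,
      smul_add, smul_smul]
    abel
  rw [h1, hc]
  module

theorem poly1 {n : Type*} (a b : n → k) : ∀ x, IsPoly fun s : k => (a + s • b) x := fun x => by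
  have := (D7.IsPoly.const (a x)).add (D7.IsPoly.id.mul (D7.IsPoly.const (b x)))
  simpa using this

theorem poly2 {n : Type*} (a b c : n → k) : ∀ x, IsPoly fun s : k => (a + s • (b + s • c)) x :=
  fun x => by
  have := (D7.IsPoly.const (a x)).add (D7.IsPoly.id.mul ((D7.IsPoly.const (b x)).add
    (D7.IsPoly.id.mul (D7.IsPoly.const (c x)))))
  simpa [mul_add] using this

/-- first order, square -/
theorem sq1 [Infinite k] {n : Type*} [Fintype n] [DecidableEq n] {J X : Matrix n n k}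
    (hc : X * J = J * X) (hr : ∀ s : k, ((J + s • X) ^ 2).rank ≤ (J ^ 2).rank) {z : n → k}
    (h0 : J ^ 2 *ᵥ z = 0) : ∃ m, (2 : k) • ((J * X) *ᵥ z) = J ^ 2 *ᵥ m := by
  obtain ⟨m, hm⟩ := range_lim (fun s => (J + s • X) ^ 2) (isPoly_pow (isPoly_line J X) 2)
    (fun _ => z) (fun s => (2 : k) • ((J * X) *ᵥ z) + s • (X ^ 2 *ᵥ z)) (poly1 _ _) 1
    (fun s => by
      rw [sq_line' hc, add_mulVec, h0, zero_add, smul_mulVec, add_mulVec, smul_mulVec, smul_mulVec,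
        pow_one])
    (fun s => by simpa using hr s)
  refine ⟨m, ?_⟩
  simpa using hm

/-- second order, square -/
theorem sq2 [Infinite k] {n : Type*} [Fintype n] [DecidableEq n] {J X : Matrix n n k}
    (hc : X * J = J * X) (hr : ∀ s : k, ((J + s • X) ^ 2).rank ≤ (J ^ 2).rank) {z t : n → k}
    (h0 : J ^ 2 *ᵥ z = 0) (h1 : (2 : k) • ((J * X) *ᵥ z) = J ^ 2 *ᵥ t) :
    ∃ m, X ^ 2 *ᵥ z - (2 : k) • ((J * X) *ᵥ t) = J ^ 2 *ᵥ m := by
  obtain ⟨m, hm⟩ := range_lim (fun s => (J + s • X) ^ 2) (isPoly_pow (isPoly_line J X) 2)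
    (fun s => z - s • t)
    (fun s => (X ^ 2 *ᵥ z - (2 : k) • ((J * X) *ᵥ t)) + s • (-(X ^ 2 *ᵥ t))) (poly1 _ _) 2
    (fun s => by
      have h2 : ∀ v : n → k, (J ^ 2 + s • ((2 : k) • (J * X) + s • X ^ 2)) *ᵥ v =
          J ^ 2 *ᵥ v + s • ((2 : k) • ((J * X) *ᵥ v) + s • (X ^ 2 *ᵥ v)) := fun v => by
        rw [add_mulVec, smul_mulVec, add_mulVec, smul_mulVec, smul_mulVec]
      rw [sq_line' hc, mulVec_sub, mulVec_smul, h2, h2, h0, h1]
      module)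
    (fun s => by simpa using hr s)
  refine ⟨m, ?_⟩
  simpa using hm

/-- first order, cube -/
theorem cube1 [Infinite k] {n : Type*} [Fintype n] [DecidableEq n] {J X : Matrix n n k}
    (hc : X * J = J * X) (hr : ∀ s : k, ((J + s • X) ^ 3).rank ≤ (J ^ 3).rank) {z : n → k}
    (h0 : J ^ 3 *ᵥ z = 0) : ∃ m, (3 : k) • ((J ^ 2 * X) *ᵥ z) = J ^ 3 *ᵥ m := by
  obtain ⟨m, hm⟩ := range_lim (fun s => (J + s • X) ^ 3) (isPoly_pow (isPoly_line J X) 3)
    (fun _ => z) (fun s => (3 : k) • ((J ^ 2 * X) *ᵥ z) + s • ((3 : k) • ((J * X ^ 2) *ᵥ z) +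
      s • (X ^ 3 *ᵥ z))) (poly2 _ _ _) 1
    (fun s => by
      rw [cube_line hc, add_mulVec, h0, zero_add, smul_mulVec, add_mulVec, smul_mulVec, smul_mulVec,
        add_mulVec, smul_mulVec, smul_mulVec, pow_one])
    (fun s => by simpa using hr s)
  refine ⟨m, ?_⟩
  simpa using hm

/-- second order, cube -/
theorem cube2 [Infinite k] {n : Type*} [Fintype n] [DecidableEq n] {J X : Matrix n n k}
    (hc : X * J = J * X) (hr : ∀ s : k, ((J + s • X) ^ 3).rank ≤ (J ^ 3).rank) {z t : n → k}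
    (h0 : J ^ 3 *ᵥ z = 0) (h1 : (3 : k) • ((J ^ 2 * X) *ᵥ z) = J ^ 3 *ᵥ t) :
    ∃ m, (3 : k) • ((J * X ^ 2) *ᵥ z) - (3 : k) • ((J ^ 2 * X) *ᵥ t) = J ^ 3 *ᵥ m := by
  obtain ⟨m, hm⟩ := range_lim (fun s => (J + s • X) ^ 3) (isPoly_pow (isPoly_line J X) 3)
    (fun s => z - s • t)
    (fun s => ((3 : k) • ((J * X ^ 2) *ᵥ z) - (3 : k) • ((J ^ 2 * X) *ᵥ t)) +
      s • ((X ^ 3 *ᵥ z - (3 : k) • ((J * X ^ 2) *ᵥ t)) + s • (-(X ^ 3 *ᵥ t)))) (poly2 _ _ _) 2
    (fun s => by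
      have h2 : ∀ v : n → k, (J ^ 3 + s • ((3 : k) • (J ^ 2 * X) +
          s • ((3 : k) • (J * X ^ 2) + s • X ^ 3))) *ᵥ v =
          J ^ 3 *ᵥ v + s • ((3 : k) • ((J ^ 2 * X) *ᵥ v) +
            s • ((3 : k) • ((J * X ^ 2) *ᵥ v) + s • (X ^ 3 *ᵥ v))) := fun v => by
        rw [add_mulVec, smul_mulVec, add_mulVec, smul_mulVec, smul_mulVec, add_mulVec, smul_mulVec,
          smul_mulVec]
      rw [cube_line hc, mulVec_sub, mulVec_smul, h2, h2, h0, h1]
      module)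
    (fun s => by simpa using hr s)
  refine ⟨m, ?_⟩
  simpa using hm

/-- third order, cube -/
theorem cube3 [Infinite k] {n : Type*} [Fintype n] [DecidableEq n] {J X : Matrix n n k}
    (hc : X * J = J * X) (hr : ∀ s : k, ((J + s • X) ^ 3).rank ≤ (J ^ 3).rank) {z t r : n → k}
    (h0 : J ^ 3 *ᵥ z = 0) (h1 : (3 : k) • ((J ^ 2 * X) *ᵥ z) = J ^ 3 *ᵥ t)
    (h2 : (3 : k) • ((J * X ^ 2) *ᵥ z) - (3 : k) • ((J ^ 2 * X) *ᵥ t) = J ^ 3 *ᵥ r) :
    ∃ m, X ^ 3 *ᵥ z - (3 : k) • ((J * X ^ 2) *ᵥ t) - (3 : k) • ((J ^ 2 * X) *ᵥ r) = J ^ 3 *ᵥ m := by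
  obtain ⟨m, hm⟩ := range_lim (fun s => (J + s • X) ^ 3) (isPoly_pow (isPoly_line J X) 3)
    (fun s => z - s • t - (s * s) • r)
    (fun s => (X ^ 3 *ᵥ z - (3 : k) • ((J * X ^ 2) *ᵥ t) - (3 : k) • ((J ^ 2 * X) *ᵥ r)) +
      s • ((-(X ^ 3 *ᵥ t) - (3 : k) • ((J * X ^ 2) *ᵥ r)) + s • (-(X ^ 3 *ᵥ r)))) (poly2 _ _ _) 3
    (fun s => by
      have h3 : ∀ v : n → k, (J ^ 3 + s • ((3 : k) • (J ^ 2 * X) +
          s • ((3 : k) • (J * X ^ 2) + s • X ^ 3))) *ᵥ v =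
          J ^ 3 *ᵥ v + s • ((3 : k) • ((J ^ 2 * X) *ᵥ v) +
            s • ((3 : k) • ((J * X ^ 2) *ᵥ v) + s • (X ^ 3 *ᵥ v))) := fun v => by
        rw [add_mulVec, smul_mulVec, add_mulVec, smul_mulVec, smul_mulVec, add_mulVec, smul_mulVec,
          smul_mulVec]
      rw [cube_line hc, mulVec_sub, mulVec_sub, mulVec_smul, mulVec_smul, h3, h3, h3, h0, h1,
        ← h2]
      module)
    (fun s => by simpa using hr s)
  refine ⟨m, ?_⟩
  simpa using hm

/-- the block `W_0 -> W_0` vanishes -/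
theorem killW [Infinite k] [CharZero k] (hT : MaxR ρ T) (hρ : ∀ i, ρ i = (J2 k e q ^ i).rank)
    (hA : J2 k e q ∈ adj T) {X : Matrix (I2 e q) (I2 e q) k} (hX : X ∈ adj T)
    (i j : Fin q) : X (.inr (.inr (0, i))) (.inr (.inr (0, j))) = 0 := by
  have hc : X * J2 k e q = J2 k e q * X := hT.cn.comm hX hA
  obtain ⟨m, hm⟩ := sq1 hc (fun s => by
    have h1 := hT.rank_le (add_mem hA (SMulMemClass.smul_mem s hX)) 2
    rwa [hρ] at h1) (z := w2 0 (Pi.single j 1)) (by rw [J2_pow_w, w2_ge (by norm_num)])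
  have h2 := congrFun hm (.inr (.inr (1, i)))
  rw [J2_pow_apply_w, dif_neg (by norm_num), ← mulVec_mulVec, Pi.smul_apply, J2_apply_w,
    dif_pos (by norm_num), mulVec_w20, smul_eq_mul, mul_eq_zero] at h2
  have h4 := h2.resolve_left (by norm_num)
  simpa [Pi.single_apply] using h4

/-- the block `U_0 -> U_0` vanishes -/
theorem killU [Infinite k] [CharZero k] (hT : MaxR ρ T) (hρ : ∀ i, ρ i = (J2 k e q ^ i).rank)
    (hA : J2 k e q ∈ adj T) {X : Matrix (I2 e q) (I2 e q) k} (hX : X ∈ adj T)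
    (i j : Fin e) : X (.inr (.inl (0, i))) (.inr (.inl (0, j))) = 0 := by
  have hc : X * J2 k e q = J2 k e q * X := hT.cn.comm hX hA
  obtain ⟨m, hm⟩ := cube1 hc (fun s => by
    have h1 := hT.rank_le (add_mem hA (SMulMemClass.smul_mem s hX)) 3
    rwa [hρ] at h1) (z := u2 0 (Pi.single j 1)) (by rw [J2_pow_u, u2_ge (by norm_num)])
  have h2 := congrFun hm (.inr (.inl (2, i)))
  rw [J2_pow_apply_u, dif_neg (by norm_num), ← mulVec_mulVec, Pi.smul_apply, J2_pow_apply_u,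
    dif_pos (by norm_num), mulVec_u20, smul_eq_mul, mul_eq_zero] at h2
  have h4 := h2.resolve_left (by norm_num)
  simpa [Pi.single_apply] using h4

theorem pow_mem_adj {n : Type*} [Fintype n] [DecidableEq n] {T : Fin 3 → Matrix n n k}
    {A : Matrix n n k} (hA : A ∈ adj T) (i : ℕ) : A ^ (i + 1) ∈ adj T := by
  induction i with
  | zero => simpa using hA
  | succ i ih => rw [pow_succ]; exact mul_mem ih hA

/-- an element of `adj T` is a polynomial in `J2` without constant term plus a matrix `B2` -/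
theorem shape_one [Infinite k] [CharZero k] (hT : MaxR ρ T)
    (hρ : ∀ i, ρ i = (J2 k e q ^ i).rank)
    (hA : J2 k e q ∈ adj T) {X : Matrix (I2 e q) (I2 e q) k} (hX : X ∈ adj T) :
    ∃ (a : Fin 3 → k) (x : PN k e q),
      X = ∑ i : Fin 3, a i • J2 k e q ^ ((i : ℕ) + 1) + B2 x := by
  have hcomm : ∀ Y ∈ adj T, J2 k e q * Y = Y * J2 k e q := fun Y hY => hT.cn.comm hA hY
  have ha0 : X (.inl 0) (.inl 0) = 0 := by
    refine nilp_eig (hT.cn.nilp hX) (y := v2 3) ?_ ?_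
    · rw [comm_v (hcomm X hX), mulVec_v20]
      funext x
      rcases x with x | ⟨x, s⟩ | ⟨x, s⟩
      · rw [J2_pow_apply_v]
        simp only [v2, Pi.smul_apply, smul_eq_mul]
        fin_cases x <;> simp
      · rw [J2_pow_apply_u, dif_neg (by have := x.2; omega)]
        simp [v2]
      · rw [J2_pow_apply_w, dif_neg (by have := x.2; omega)]
        simp [v2]
    · intro h
      have h2 := congrFun h (.inl 3)
      simp [v2] at h2
  let a : Fin 3 → k := fun i => X (.inl i.succ) (.inl 0)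
  let S : Matrix (I2 e q) (I2 e q) k := ∑ i : Fin 3, a i • J2 k e q ^ ((i : ℕ) + 1)
  have hS : S ∈ adj T := sum_mem fun i _ => SMulMemClass.smul_mem _ (pow_mem_adj hA i)
  have hXS : X - S ∈ adj T := sub_mem hX hS
  have hc := hcomm _ hXS
  have hSv : S *ᵥ v2 0 = fun x => match x with
      | .inl i => X (.inl i) (.inl 0)
      | _ => 0 := by
    simp only [S]
    rw [Matrix.sum_mulVec]
    simp only [Matrix.smul_mulVec, J2_pow_v, zero_add]
    funext x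
    rw [Finset.sum_apply]
    rcases x with x | x | x
    · fin_cases x <;> simp [v2, Fin.sum_univ_three, a, ha0]
    · simp [v2]
    · simp [v2]
  have h0 : ∀ i, (X - S) (.inl i) (.inl 0) = 0 := by
    intro i
    have h2 : (S *ᵥ v2 0) (.inl i) = S (.inl i) (.inl 0) := by
      rw [mulVec_v20]
    rw [Matrix.sub_apply, ← h2, hSv]
    simp
  obtain ⟨x, h2⟩ := shape_aux hc h0 (fun s t => killU hT hρ hA hXS s t)
    fun i j => killW hT hρ hA hXS i j
  exact ⟨a, x, by rw [← h2]; simp only [S]; abel⟩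

/-- the shape of a maximal bad triple of type `(4, 3^e, 2^q)` -/
theorem shape [Infinite k] [CharZero k] (hT : MaxR ρ T)
    (hρ : ∀ i, ρ i = (J2 k e q ^ i).rank) (h0 : T 0 = J2 k e q) :
    ∃ x y : PN k e q, MaxR ρ ![J2 k e q, B2 x, B2 y] := by
  have hA : J2 k e q ∈ adj T := by rw [← h0]; exact mem_adj T 0
  obtain ⟨a, x, hX⟩ := shape_one hT hρ hA (mem_adj T 1)
  obtain ⟨a', y, hX'⟩ := shape_one hT hρ hA (mem_adj T 2)
  refine ⟨x, y, ?_⟩
  have hmem : ∀ i, (![J2 k e q, B2 x, B2 y] :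
      Fin 3 → Matrix (I2 e q) (I2 e q) k) i ∈ adj T := by
    intro i
    fin_cases i
    · exact hA
    · have h2 : B2 x = T 1 - ∑ i : Fin 3, a i • J2 k e q ^ ((i : ℕ) + 1) := by
        rw [hX]; abel
      show B2 x ∈ adj T
      rw [h2]
      exact sub_mem (mem_adj T 1) (sum_mem fun i _ => SMulMemClass.smul_mem _ (pow_mem_adj hA i))
    · have h2 : B2 y = T 2 - ∑ i : Fin 3, a' i • J2 k e q ^ ((i : ℕ) + 1) := by
        rw [hX']; abel
      show B2 y ∈ adj T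
      rw [h2]
      exact sub_mem (mem_adj T 2) (sum_mem fun i _ => SMulMemClass.smul_mem _ (pow_mem_adj hA i))
  refine MaxR.change hT (hT.cn.of_adj hmem) fun i => ?_
  have m0 := D8.mem0 (J2 k e q) (B2 x) (B2 y)
  have m1 := D8.mem1 (J2 k e q) (B2 x) (B2 y)
  have m2 := D8.mem2 (J2 k e q) (B2 x) (B2 y)
  fin_cases i
  · show T 0 ∈ _
    rw [h0]
    exact m0
  · show T 1 ∈ _
    rw [hX]
    exact add_mem (sum_mem fun i _ => SMulMemClass.smul_mem _ (pow_mem_adj m0 i)) m1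
  · show T 2 ∈ _
    rw [hX']
    exact add_mem (sum_mem fun i _ => SMulMemClass.smul_mem _ (pow_mem_adj m0 i)) m2

end Pool.Agent.Lib.D13.N4332
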