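import Pool.Agent.Lib.D13.L331

/-!
# MP_5dcbc3_ag: the type `(4, 3^e, 1^p)`: reduction to `b0 = 0` and lifting of families of leading parts

`start4`: for a maximal bad triple of type `(4, 3^e, 1^p)` in normal form `b0 = b0' = 0` or `a0 = a0' = 0`.
`Lead x y`: the relations of the lowest degree between the leading parts `a0, b1, N1, pi, ga, th`.
`MaxR.lift4`: a polynomial family of leading parts satisfying the relations `Lead` lifts to maximal bad triples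
if `a0` is not zero.
-/

namespace Pool.Agent.Lib.D13.L3

open Matrix Pool.Agent.Lib.Q5dc Pool.Agent.Lib.D7 Pool.Agent.Lib.D13

variable {k : Type*} [Field k] {l e p : ℕ} {ρ : ℕ → ℕ}

/-! ### the start -/

/-- matrices of rank at most one -/
theorem minor_of_rank_le_one {n : Type*} [Fintype n] [DecidableEq n] {M : Matrix n n k}
    (h : M.rank ≤ 1) (v w : n → k) (i j : n) :
    (M *ᵥ v) i * (M *ᵥ w) j = (M *ᵥ w) i * (M *ᵥ v) j := by
  by_contra hne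
  have hli : LinearIndependent k ![(⟨M *ᵥ v, ⟨v, rfl⟩⟩ : LinearMap.range M.mulVecLin),
      ⟨M *ᵥ w, ⟨w, rfl⟩⟩] := by
    rw [LinearIndependent.pair_iff]
    intro a b hab
    have h1 : a • (M *ᵥ v) + b • (M *ᵥ w) = 0 := congrArg Subtype.val hab
    have hi := congrFun h1 i
    have hj := congrFun h1 j
    simp only [Pi.add_apply, Pi.smul_apply, smul_eq_mul, Pi.zero_apply] at hi hj
    have h2 : a * ((M *ᵥ v) i * (M *ᵥ w) j - (M *ᵥ w) i * (M *ᵥ v) j) = 0 := by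
      linear_combination (M *ᵥ w) j * hi - (M *ᵥ w) i * hj
    have h3 : b * ((M *ᵥ v) i * (M *ᵥ w) j - (M *ᵥ w) i * (M *ᵥ v) j) = 0 := by
      linear_combination (M *ᵥ v) i * hj - (M *ᵥ v) j * hi
    have h4 : (M *ᵥ v) i * (M *ᵥ w) j - (M *ᵥ w) i * (M *ᵥ v) j ≠ 0 := sub_ne_zero.2 hne
    exact ⟨(mul_eq_zero.1 h2).resolve_right h4, (mul_eq_zero.1 h3).resolve_right h4⟩
  have h5 := hli.fintype_card_le_finrank
  rw [Fintype.card_fin] at h5
  have h6 : Module.finrank k (LinearMap.range M.mulVecLin) = M.rank := rfl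
  omega

/-- the third power of `J3 + s B3` -/
theorem cube_mulVec (hl : 3 ≤ l) (x : PM k e p) (s : k) (w : I3 l e p → k) :
    (J3 k l e p + s • B3 l x) ^ 3 *ᵥ w = J3 k l e p ^ 3 *ᵥ w +
      s • ((3 : k) • (J3 k l e p ^ 2 *ᵥ (B3 l x *ᵥ w)) +
      s • ((3 : k) • (J3 k l e p *ᵥ ((B3 l x * B3 l x) *ᵥ w)) +
      s • (B3 l x *ᵥ ((B3 l x * B3 l x) *ᵥ w)))) := by
  set J := J3 k l e p with hJ
  set X := B3 l x with hX
  have hc : X * J = J * X := (B3_comm hl x).symm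
  have h1 : (J + s • X) ^ 3 = J ^ 3 + s • (J * J * X + J * (X * J) + X * J * J) +
      (s * s) • (J * X * X + X * J * X + X * (X * J)) + (s * (s * s)) • X ^ 3 := by
    simp only [pow_succ, pow_zero, one_mul, add_mul, mul_add, smul_mul_assoc, mul_smul_comm,
      smul_add, smul_smul, Matrix.mul_assoc]
    abel
  have h2 : X * J * J = J * J * X := by
    rw [hc, Matrix.mul_assoc, hc, ← Matrix.mul_assoc]
  have h3 : X * (X * J) = J * X * X := by
    rw [hc, ← Matrix.mul_assoc, hc]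
  have h4 : X * J * X = J * X * X := by rw [hc]
  have h5 : J * (X * J) = J * J * X := by rw [hc, ← Matrix.mul_assoc]
  rw [h1, h2, h3, h4, h5]
  have e1 : J ^ 2 *ᵥ (X *ᵥ w) = (J * J * X) *ᵥ w := by rw [mulVec_mulVec, pow_two]
  have e2 : J *ᵥ ((X * X) *ᵥ w) = (J * X * X) *ᵥ w := by
    rw [mulVec_mulVec, ← Matrix.mul_assoc]
  have e3 : X *ᵥ ((X * X) *ᵥ w) = X ^ 3 *ᵥ w := by
    rw [mulVec_mulVec, pow_succ, pow_two, Matrix.mul_assoc]
  rw [e1, e2, e3]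
  simp only [add_mulVec, smul_mulVec, smul_add, smul_smul]
  module

/-- in a maximal bad triple of type `(4, 3^e, 1^p)`: `a0 (x) b0 = 0` -/
theorem a0_mul_b0 [Infinite k] [CharZero k] {T : Fin 3 → Matrix (I3 4 e p) (I3 4 e p) k}
    (hT : MaxR ρ T) (hρ : ∀ i, ρ i = (J3 k 4 e p ^ i).rank) (hA : J3 k 4 e p ∈ adj T)
    {x : PM k e p} (hx : B3 4 x ∈ adj T) (i j : Fin e) : x.a0 i * x.b0 j = 0 := by
  have hr3 : (J3 k 4 e p ^ 3).rank ≤ 1 := by
    have h : J3 k 4 e p ^ 3 = vecMulVec (v3 3) (v3 0) := by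
      refine ext_vup (fun t ht => ?_) (fun t _ f => ?_) fun f => ?_
      · rw [J3_pow_v, vecMulVec_mulVec]
        interval_cases t
        · have : (v3 0 : I3 4 e p → k) ⬝ᵥ v3 0 = 1 := by
            simp [dotProduct, Fintype.sum_sum_type, v3]
          rw [this]
          simp
        · have : (v3 0 : I3 4 e p → k) ⬝ᵥ v3 1 = 0 := by
            simp [dotProduct, Fintype.sum_sum_type, v3, Fin.sum_univ_four]
          rw [this, v3_ge (by norm_num)]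
          simp
        · have : (v3 0 : I3 4 e p → k) ⬝ᵥ v3 2 = 0 := by
            simp [dotProduct, Fintype.sum_sum_type, v3, Fin.sum_univ_four]
          rw [this, v3_ge (by norm_num)]
          simp
        · have : (v3 0 : I3 4 e p → k) ⬝ᵥ v3 3 = 0 := by
            simp [dotProduct, Fintype.sum_sum_type, v3, Fin.sum_univ_four]
          rw [this, v3_ge (by norm_num)]
          simp
      · rw [J3_pow_u, vecMulVec_mulVec, u3_ge (by omega)]
        have : (v3 0 : I3 4 e p → k) ⬝ᵥ u3 t f = 0 := by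
          simp [dotProduct, Fintype.sum_sum_type, v3, u3]
        rw [this]
        simp
      · rw [J3_pow_p, vecMulVec_mulVec]
        have : (v3 0 : I3 4 e p → k) ⬝ᵥ p3 f = 0 := by
          simp [dotProduct, Fintype.sum_sum_type, v3, p3]
        rw [this]
        simp
    rw [h]
    exact Matrix.rank_vecMulVec_le _ _
  have key : ∀ s : k, s ≠ 0 →
      (1 + s ^ 2 * (3 * (x.b0 ⬝ᵥ x.a1 + x.b1 ⬝ᵥ x.a0) +
        s * (B3 4 x *ᵥ ((B3 4 x * B3 4 x) *ᵥ v3 0)) (.inl 3))) *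
      (3 * (x.b0 j * x.a0 i) +
        s * (B3 4 x *ᵥ ((B3 4 x * B3 4 x) *ᵥ u3 0 (Pi.single j 1))) (.inr (.inl (2, i)))) -
      (3 * x.b0 j + s * (3 * (x.b0 ᵥ* x.N1) j +
        s * (B3 4 x *ᵥ ((B3 4 x * B3 4 x) *ᵥ u3 0 (Pi.single j 1))) (.inl 3))) *
      (3 * x.a0 i + s * (3 * (x.N1 *ᵥ x.a0) i +
        s * (B3 4 x *ᵥ ((B3 4 x * B3 4 x) *ᵥ v3 0)) (.inr (.inl (2, i))))) = 0 := by
    intro s hs
    have h1 : ((J3 k 4 e p + s • B3 4 x) ^ 3).rank ≤ 1 := by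
      refine (hT.rank_le (add_mem hA (SMulMemClass.smul_mem s hx)) 3).trans ?_
      rw [hρ]
      exact hr3
    have h2 := minor_of_rank_le_one h1 (v3 0) (u3 0 (Pi.single j 1)) (.inl 3) (.inr (.inl (2, i)))
    have hl : 3 ≤ 4 := by norm_num
    rw [cube_mulVec hl, cube_mulVec hl] at h2
    have e1 : (J3 k 4 e p ^ 3 *ᵥ v3 0) (.inl 3) = 1 := by
      rw [J3_pow_v]
      simp [v3]
    have e2 : (J3 k 4 e p ^ 3 *ᵥ v3 0) (.inr (.inl (2, i))) = 0 := by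
      rw [J3_pow_v]
      rfl
    have e3 : J3 k 4 e p ^ 3 *ᵥ u3 0 (Pi.single j 1) = 0 := by
      rw [J3_pow_u, u3_ge (by norm_num)]
    have f1 : (J3 k 4 e p ^ 2 *ᵥ (B3 4 x *ᵥ v3 0)) (.inl 3) = 0 := by
      rw [J3_pow_apply_v, dif_pos (by decide), B3_v0 _ (by norm_num)]
      simp [u3, p3]
    have f2 : (J3 k 4 e p ^ 2 *ᵥ (B3 4 x *ᵥ v3 0)) (.inr (.inl (2, i))) = x.a0 i := by
      rw [J3_pow_apply_u, dif_pos (by decide), B3_v0 _ (by norm_num)]
      simp [u3, p3]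
    have f3 : (J3 k 4 e p ^ 2 *ᵥ (B3 4 x *ᵥ u3 0 (Pi.single j 1))) (.inl 3) = x.b0 j := by
      rw [J3_pow_apply_v, dif_pos (by decide), B3_u0 _ (by norm_num)]
      simp [u3, p3, v3]
    have f4 : (J3 k 4 e p ^ 2 *ᵥ (B3 4 x *ᵥ u3 0 (Pi.single j 1))) (.inr (.inl (2, i))) = 0 := by
      rw [J3_pow_apply_u, dif_pos (by decide), B3_u0 _ (by norm_num)]
      simp [u3, p3, v3]
    have g1 : (J3 k 4 e p *ᵥ ((B3 4 x * B3 4 x) *ᵥ v3 0)) (.inl 3) =
        x.b0 ⬝ᵥ x.a1 + x.b1 ⬝ᵥ x.a0 := by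
      rw [J3_apply_v, dif_pos (by decide), mul_v (le_refl 4)]
      simp [nf, u3, p3, v3]
    have g2 : (J3 k 4 e p *ᵥ ((B3 4 x * B3 4 x) *ᵥ v3 0)) (.inr (.inl (2, i))) =
        (x.N1 *ᵥ x.a0) i := by
      rw [J3_apply_u, dif_pos (by decide), mul_v (le_refl 4)]
      simp [nf, u3, p3, v3]
    have g3 : (J3 k 4 e p *ᵥ ((B3 4 x * B3 4 x) *ᵥ u3 0 (Pi.single j 1))) (.inl 3) =
        (x.b0 ᵥ* x.N1) j := by
      rw [J3_apply_v, dif_pos (by decide), mul_u (le_refl 4)]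
      simp [nf, u3, v3]
    have g4 : (J3 k 4 e p *ᵥ ((B3 4 x * B3 4 x) *ᵥ u3 0 (Pi.single j 1))) (.inr (.inl (2, i))) =
        x.b0 j * x.a0 i := by
      rw [J3_apply_u, dif_pos (by decide), mul_u (le_refl 4)]
      simp [nf, u3, v3, vecMulVec_apply, mul_comm]
    simp only [Pi.add_apply, Pi.smul_apply, smul_eq_mul, e1, e2, e3, f1, f2, f3, f4, g1, g2, g3,
      g4, Pi.zero_apply] at h2
    have h3 : s * s ≠ 0 := mul_ne_zero hs hs
    refine mul_left_cancel₀ h3 ?_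
    rw [mul_zero]
    linear_combination h2
  have hp : IsPoly fun s : k => (1 + s ^ 2 * (3 * (x.b0 ⬝ᵥ x.a1 + x.b1 ⬝ᵥ x.a0) +
        s * (B3 4 x *ᵥ ((B3 4 x * B3 4 x) *ᵥ v3 0)) (.inl 3))) *
      (3 * (x.b0 j * x.a0 i) +
        s * (B3 4 x *ᵥ ((B3 4 x * B3 4 x) *ᵥ u3 0 (Pi.single j 1))) (.inr (.inl (2, i)))) -
      (3 * x.b0 j + s * (3 * (x.b0 ᵥ* x.N1) j +
        s * (B3 4 x *ᵥ ((B3 4 x * B3 4 x) *ᵥ u3 0 (Pi.single j 1))) (.inl 3))) *
      (3 * x.a0 i + s * (3 * (x.N1 *ᵥ x.a0) i +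
        s * (B3 4 x *ᵥ ((B3 4 x * B3 4 x) *ᵥ v3 0)) (.inr (.inl (2, i))))) := by
    have C := fun a : k => D7.IsPoly.const a
    have I := D7.IsPoly.id (k := k)
    exact (((C 1).add ((I.pow 2).mul ((C _).add (I.mul (C _))))).mul
      ((C _).add (I.mul (C _)))).sub (((C _).add (I.mul ((C _).add (I.mul (C _))))).mul
      ((C _).add (I.mul ((C _).add (I.mul (C _))))))
  have h0 : 3 * (x.b0 j * x.a0 i) - 3 * x.b0 j * (3 * x.a0 i) = 0 := by
    by_contra hne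
    have h1 := hp.finite (s₁ := 0) (by simpa using hne)
    refine (Set.infinite_univ (α := k)) ((h1.union (Set.finite_singleton 0)).subset fun s _ => ?_)
    by_cases hs : s = 0
    · right
      exact hs
    · left
      exact key s hs
  have h6 : (6 : k) * (x.a0 i * x.b0 j) = 0 := by linear_combination -h0
  exact (mul_eq_zero.1 h6).resolve_left (by norm_num)

/-- the start: `b0 = b0' = 0` or `a0 = a0' = 0` -/
theorem start4 [Infinite k] [CharZero k] {x y : PM k e p}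
    (hT : MaxR ρ ![J3 k 4 e p, B3 4 x, B3 4 y]) (hρ : ∀ i, ρ i = (J3 k 4 e p ^ i).rank) :
    (x.b0 = 0 ∧ y.b0 = 0) ∨ (x.a0 = 0 ∧ y.a0 = 0) := by
  have hA := D8.mem0 (J3 k 4 e p) (B3 4 x) (B3 4 y)
  have hB := D8.mem1 (J3 k 4 e p) (B3 4 x) (B3 4 y)
  have hC := D8.mem2 (J3 k 4 e p) (B3 4 x) (B3 4 y)
  have h1 := a0_mul_b0 hT hρ hA hB
  have h2 := a0_mul_b0 hT hρ hA hC
  have h3 : ∀ i j, (x.a0 i + y.a0 i) * (x.b0 j + y.b0 j) = 0 := by
    have h4 := a0_mul_b0 hT hρ hA (x := x.lin 1 1 y) (by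
      rw [B3_lin, one_smul, one_smul]
      exact add_mem hB hC)
    intro i j
    have h5 := h4 i j
    simpa [PM.lin] using h5
  have h6 := ((cn_iff (le_refl 4) x y).1 hT.cn).C11 rfl
  have h7 : ∀ i j, x.a0 i * y.b0 j = y.a0 i * x.b0 j := by
    intro i j
    have := congrFun (congrFun h6 i) j
    simpa [vecMulVec_apply] using this
  have h8 : ∀ i j, x.a0 i * y.b0 j = 0 := by
    intro i j
    have h9 : (2 : k) * (x.a0 i * y.b0 j) = 0 := by
      linear_combination h3 i j - h1 i j - h2 i j + h7 i j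
    exact (mul_eq_zero.1 h9).resolve_left (by norm_num)
  have h9 : ∀ i j, y.a0 i * x.b0 j = 0 := fun i j => by rw [← h7, h8]
  by_cases ha : ∃ i, x.a0 i ≠ 0 ∨ y.a0 i ≠ 0
  · left
    obtain ⟨i, hi | hi⟩ := ha
    · exact ⟨funext fun j => (mul_eq_zero.1 (h1 i j)).resolve_left hi,
        funext fun j => (mul_eq_zero.1 (h8 i j)).resolve_left hi⟩
    · exact ⟨funext fun j => (mul_eq_zero.1 (h9 i j)).resolve_left hi,
        funext fun j => (mul_eq_zero.1 (h2 i j)).resolve_left hi⟩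
  · right
    push Not at ha
    exact ⟨funext fun i => (ha i).1, funext fun i => (ha i).2⟩

/-! ### leading parts -/

/-- the relations between the leading parts `a0, b1, N1, pi, ga, th` (`l = 4`, `b0 = b0' = 0`) -/
structure Lead (x y : PM k e p) : Prop where
  L2 : x.b1 ⬝ᵥ y.a0 = y.b1 ⬝ᵥ x.a0
  L4 : x.N1 *ᵥ y.a0 = y.N1 *ᵥ x.a0
  L6 : x.pi *ᵥ y.a0 = y.pi *ᵥ x.a0
  L8 : x.b1 ᵥ* y.N1 + x.ga ᵥ* y.pi = y.b1 ᵥ* x.N1 + y.ga ᵥ* x.pi
  L9 : x.N1 * y.N1 + x.th * y.pi + vecMulVec x.a0 y.b1 =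
    y.N1 * x.N1 + y.th * x.pi + vecMulVec y.a0 x.b1

/-- the defect of `C3` (`b0 = b0' = 0`) -/
def D3 (x y : PM k e p) : k :=
  (x.b1 ⬝ᵥ y.a1 + x.b2 ⬝ᵥ y.a0 + x.ga ⬝ᵥ y.om) - (y.b1 ⬝ᵥ x.a1 + y.b2 ⬝ᵥ x.a0 + y.ga ⬝ᵥ x.om)

/-- the defect of `C5` -/
def D5 (x y : PM k e p) : Fin e → k :=
  (x.N1 *ᵥ y.a1 + x.N2 *ᵥ y.a0 + x.th *ᵥ y.om) - (y.N1 *ᵥ x.a1 + y.N2 *ᵥ x.a0 + y.th *ᵥ x.om)

theorem rel4_iff {x y : PM k e p} (hx : x.b0 = 0) (hy : y.b0 = 0) :
    Rel 4 x y ↔ Lead x y ∧ D3 x y = 0 ∧ D5 x y = 0 := by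
  constructor
  · intro h
    refine ⟨⟨?_, h.C4, h.C6, ?_, ?_⟩, ?_, sub_eq_zero.2 h.C5⟩
    · simpa [hx, hy] using h.C2
    · simpa [hx, hy] using h.C8
    · simpa [hx, hy, Ex] using h.C9
    · have := h.C3
      rw [hx, hy, zero_dotProduct, zero_dotProduct, zero_add, zero_add] at this
      exact sub_eq_zero.2 this
  · rintro ⟨h, h3, h5⟩
    refine ⟨by simp [hx, hy], by simpa [hx, hy] using h.L2, ?_, h.L4, sub_eq_zero.1 h5, h.L6,
      by simp [hx, hy], by simpa [hx, hy] using h.L8, by simpa [hx, hy, Ex] using h.L9,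
      by simp [hx, hy], fun _ => by simp [hx, hy]⟩
    rw [hx, hy, zero_dotProduct, zero_dotProduct, zero_add, zero_add]
    exact sub_eq_zero.1 h3

/-- correction of `x.a0 i0 • y` such that `C3` and `C5` hold -/
def fix (i0 : Fin e) (x y : PM k e p) : PM k e p where
  a0 := x.a0 i0 • y.a0
  a1 := x.a0 i0 • y.a1
  a2 := x.a0 i0 • y.a2
  om := x.a0 i0 • y.om
  b0 := x.a0 i0 • y.b0
  b1 := x.a0 i0 • y.b1
  b2 := x.a0 i0 • y.b2 + D3 x y • Pi.single i0 1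
  N1 := x.a0 i0 • y.N1
  N2 := x.a0 i0 • y.N2 + vecMulVec (D5 x y) (Pi.single i0 1)
  pi := x.a0 i0 • y.pi
  ga := x.a0 i0 • y.ga
  th := x.a0 i0 • y.th

theorem fix_rel {i0 : Fin e} {x y : PM k e p} (hx : x.b0 = 0) (hy : y.b0 = 0) (h : Lead x y) :
    Rel 4 x (fix i0 x y) := by
  have hy' : (fix i0 x y).b0 = 0 := by simp [fix, hy]
  refine (rel4_iff hx hy').2 ⟨⟨?_, ?_, ?_, ?_, ?_⟩, ?_, ?_⟩
  · simp only [fix, dotProduct_smul, smul_dotProduct, h.L2]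
  · simp only [fix, mulVec_smul, smul_mulVec, h.L4]
  · simp only [fix, mulVec_smul, smul_mulVec, h.L6]
  · simp only [fix, vecMul_smul, smul_vecMul, ← smul_add, h.L8]
  · simp only [fix, Matrix.mul_smul, Matrix.smul_mul, vecMulVec_smul, ← smul_add, h.L9]
    simp only [smul_add, smul_vecMulVec]
  · simp only [D3, fix, dotProduct_smul, smul_dotProduct, add_dotProduct, single_one_dotProduct,
      smul_eq_mul]
    ring
  · have e1 : ∀ w : Fin e → k, vecMulVec w (Pi.single i0 1) *ᵥ x.a0 = x.a0 i0 • w := by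
      intro w
      rw [vecMulVec_mulVec, single_one_dotProduct]
      simp
    simp only [D5, fix, mulVec_smul, smul_mulVec, add_mulVec, e1]
    module

end Pool.Agent.Lib.D13.L3
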