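import Pool.Agent.Lib.D9.BlkShape
import Pool.Agent.Lib.D13.JordanU

/-!
# MP_5dcbc3_ag: matrices commuting with a Jordan matrix of type `(l, m, 1^p)`, `l > m`

Basis: `v_0, .., v_(l-1)`, `u_0, .., u_(m-1)`, `P = k^p`; the Jordan matrix `JL` maps
`v_j -> v_(j+1)`, `u_j -> u_(j+1)`, `P -> 0`.
-/

namespace Pool.Agent.Lib.D13.LM

open Matrix Pool.Agent.Lib.Q5dc Pool.Agent.Lib.D7

/-- indices `v`, `u`, `P` -/
abbrev IL (l m p : ℕ) : Type := Fin l ⊕ (Fin m ⊕ Fin p)

variable {k : Type*} [Field k] {l m p : ℕ}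

/-- the Jordan matrix -/
def JL (k : Type*) [Field k] (l m p : ℕ) : Matrix (IL l m p) (IL l m p) k :=
  Matrix.of fun i j => match i, j with
    | .inl i, .inl j => if (i : ℕ) = j + 1 then 1 else 0
    | .inr (.inl i), .inr (.inl j) => if (i : ℕ) = j + 1 then 1 else 0
    | _, _ => 0

/-- `v_j -> sum c_a u_(j+a) (+ om)`, `u_j -> sum b_a v_(l-m+j+a) + sum_(a>0) q_a u_(j+a) (+ pi)`,
`p -> th(p) v_(l-1) + et(p) u_(m-1)`; `om`, `pi` only for `j = 0` -/
def BL (l m p : ℕ) (c b q : ℕ → k) (om pi th et : Fin p → k) :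
    Matrix (IL l m p) (IL l m p) k :=
  Matrix.of fun i j => match i, j with
    | .inr (.inl i), .inl j => if (j : ℕ) ≤ i then c (i - j) else 0
    | .inr (.inr a), .inl j => if (j : ℕ) = 0 then om a else 0
    | .inl i, .inr (.inl j) => if l - m + j ≤ i then b (i - (l - m) - j) else 0
    | .inr (.inl i), .inr (.inl j) => if (j : ℕ) < i then q (i - j) else 0
    | .inr (.inr a), .inr (.inl j) => if (j : ℕ) = 0 then pi a else 0
    | .inl i, .inr (.inr a) => if (i : ℕ) + 1 = l then th a else 0
    | .inr (.inl i), .inr (.inr a) => if (i : ℕ) + 1 = m then et a else 0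
    | _, _ => 0

/-- `v_j` -/
def vv (j : ℕ) : IL l m p → k
  | .inl i => if (i : ℕ) = j then 1 else 0
  | _ => 0

/-- `u_j` -/
def uu (j : ℕ) : IL l m p → k
  | .inr (.inl i) => if (i : ℕ) = j then 1 else 0
  | _ => 0

/-- an element of `P` -/
def pp (f : Fin p → k) : IL l m p → k
  | .inr (.inr a) => f a
  | _ => 0

theorem vv_ge {j : ℕ} (h : l ≤ j) : (vv j : IL l m p → k) = 0 := by
  funext x
  rcases x with x | x | x
  · simp only [vv, Pi.zero_apply]
    rw [if_neg]
    have := x.2
    omega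
  · rfl
  · rfl

theorem uu_ge {j : ℕ} (h : m ≤ j) : (uu j : IL l m p → k) = 0 := by
  funext x
  rcases x with x | x | x
  · rfl
  · simp only [uu, Pi.zero_apply]
    rw [if_neg]
    have := x.2
    omega
  · rfl

theorem pp_zero : (pp 0 : IL l m p → k) = 0 := by
  funext x
  rcases x with x | x | x <;> rfl

theorem pp_add (f g : Fin p → k) : (pp (f + g) : IL l m p → k) = pp f + pp g := by
  funext x
  rcases x with x | x | x <;> simp [pp]

theorem pp_smul (s : k) (f : Fin p → k) : (pp (s • f) : IL l m p → k) = s • pp f := by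
  funext x
  rcases x with x | x | x <;> simp [pp]

/-- columns -/
theorem mulVec_vv (M : Matrix (IL l m p) (IL l m p) k) (j : Fin l) :
    M *ᵥ vv j = fun x => M x (.inl j) := by
  funext x
  simp [Matrix.mulVec, dotProduct, Fintype.sum_sum_type, vv, Fin.val_inj]

theorem mulVec_v0 (M : Matrix (IL l m p) (IL l m p) k) (h : 0 < l) :
    M *ᵥ vv 0 = fun x => M x (.inl ⟨0, h⟩) := mulVec_vv M ⟨0, h⟩

theorem mulVec_uu (M : Matrix (IL l m p) (IL l m p) k) (j : Fin m) :
    M *ᵥ uu j = fun x => M x (.inr (.inl j)) := by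
  funext x
  simp [Matrix.mulVec, dotProduct, Fintype.sum_sum_type, uu, Fin.val_inj]

theorem mulVec_u0 (M : Matrix (IL l m p) (IL l m p) k) (h : 0 < m) :
    M *ᵥ uu 0 = fun x => M x (.inr (.inl ⟨0, h⟩)) := mulVec_uu M ⟨0, h⟩

theorem mulVec_pp (M : Matrix (IL l m p) (IL l m p) k) (f : Fin p → k) :
    M *ᵥ pp f = fun x => ∑ a, M x (.inr (.inr a)) * f a := by
  funext x
  simp [Matrix.mulVec, dotProduct, Fintype.sum_sum_type, pp]

/-- matrices are determined by the images of the basis vectors -/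
theorem ext_vup {A B : Matrix (IL l m p) (IL l m p) k} (h1 : ∀ j < l, A *ᵥ vv j = B *ᵥ vv j)
    (h2 : ∀ j < m, A *ᵥ uu j = B *ᵥ uu j) (h3 : ∀ f, A *ᵥ pp f = B *ᵥ pp f) : A = B := by
  ext x y
  rcases y with y | y | y
  · have := congrFun (h1 y y.2) x
    rwa [mulVec_vv, mulVec_vv] at this
  · have := congrFun (h2 y y.2) x
    rwa [mulVec_uu, mulVec_uu] at this
  · have := congrFun (h3 (Pi.single y 1)) x
    rw [mulVec_pp, mulVec_pp] at this
    simpa [Pi.single_apply] using this

/-! ### the Jordan matrix -/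

theorem JL_vv (j : ℕ) : JL k l m p *ᵥ vv j = vv (j + 1) := by
  rcases Nat.lt_or_ge j l with h | h
  · rw [show j = ((⟨j, h⟩ : Fin l) : ℕ) from rfl, mulVec_vv]
    funext x
    rcases x with x | x | x <;> simp [JL, vv]
  · rw [vv_ge h, vv_ge (by omega), mulVec_zero]

theorem JL_uu (j : ℕ) : JL k l m p *ᵥ uu j = uu (j + 1) := by
  rcases Nat.lt_or_ge j m with h | h
  · rw [show j = ((⟨j, h⟩ : Fin m) : ℕ) from rfl, mulVec_uu]
    funext x
    rcases x with x | x | x <;> simp [JL, uu]
  · rw [uu_ge h, uu_ge (by omega), mulVec_zero]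

theorem JL_pp (f : Fin p → k) : JL k l m p *ᵥ pp f = 0 := by
  rw [mulVec_pp]
  funext x
  rcases x with x | x | x <;> simp [JL]

theorem JL_pow_vv (i j : ℕ) : JL k l m p ^ i *ᵥ vv j = vv (j + i) := by
  induction i with
  | zero => simp
  | succ i ih => rw [pow_succ', ← mulVec_mulVec, ih, JL_vv]; rfl

theorem JL_pow_uu (i j : ℕ) : JL k l m p ^ i *ᵥ uu j = uu (j + i) := by
  induction i with
  | zero => simp
  | succ i ih => rw [pow_succ', ← mulVec_mulVec, ih, JL_uu]; rfl

theorem JL_pow_pp (i : ℕ) (f : Fin p → k) : JL k l m p ^ (i + 1) *ᵥ pp f = 0 := by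
  rw [pow_succ, ← mulVec_mulVec, JL_pp, mulVec_zero]

theorem JL_pow (h : m ≤ l) (hl : 0 < l) : JL k l m p ^ l = 0 := by
  refine ext_vup (fun j _ => ?_) (fun j _ => ?_) fun f => ?_
  · rw [JL_pow_vv, vv_ge (by omega), zero_mulVec]
  · rw [JL_pow_uu, uu_ge (by omega), zero_mulVec]
  · obtain ⟨i, rfl⟩ : ∃ i, l = i + 1 := ⟨l - 1, by omega⟩
    rw [JL_pow_pp, zero_mulVec]

theorem JL_apply_v (w : IL l m p → k) (i : Fin l) :
    (JL k l m p *ᵥ w) (.inl i) = if h : 0 < (i : ℕ) then w (.inl ⟨i - 1, by omega⟩) else 0 := by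
  simp only [Matrix.mulVec, dotProduct, Fintype.sum_sum_type, JL, Matrix.of_apply, zero_mul,
    Finset.sum_const_zero, add_zero]
  split_ifs with h
  · rw [Finset.sum_eq_single ⟨i - 1, by omega⟩]
    · rw [if_pos (by first | omega | (simp only; omega)), one_mul]
    · intro b _ hb
      rw [if_neg, zero_mul]
      intro h1
      exact hb (Fin.ext (by first | omega | (simp only; omega)))
    · intro h1
      exact absurd (Finset.mem_univ _) h1
  · refine Finset.sum_eq_zero fun b _ => ?_
    rw [if_neg (by omega), zero_mul]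

theorem JL_apply_u (w : IL l m p → k) (i : Fin m) :
    (JL k l m p *ᵥ w) (.inr (.inl i)) =
      if h : 0 < (i : ℕ) then w (.inr (.inl ⟨i - 1, by omega⟩)) else 0 := by
  simp only [Matrix.mulVec, dotProduct, Fintype.sum_sum_type, JL, Matrix.of_apply, zero_mul,
    Finset.sum_const_zero, add_zero, zero_add]
  split_ifs with h
  · rw [Finset.sum_eq_single ⟨i - 1, by omega⟩]
    · rw [if_pos (by first | omega | (simp only; omega)), one_mul]
    · intro b _ hb
      rw [if_neg, zero_mul]
      intro h1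
      exact hb (Fin.ext (by first | omega | (simp only; omega)))
    · intro h1
      exact absurd (Finset.mem_univ _) h1
  · refine Finset.sum_eq_zero fun b _ => ?_
    rw [if_neg (by omega), zero_mul]

theorem JL_apply_p (w : IL l m p → k) (i : Fin p) :
    (JL k l m p *ᵥ w) (.inr (.inr i)) = 0 := by
  simp [Matrix.mulVec, dotProduct, JL]

theorem JL_pow_apply_v (j : ℕ) (w : IL l m p → k) (i : Fin l) :
    (JL k l m p ^ j *ᵥ w) (.inl i) = if h : j ≤ (i : ℕ) then w (.inl ⟨i - j, by omega⟩) else 0 := by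
  induction j generalizing i with
  | zero => simp
  | succ j ih =>
    rw [pow_succ', ← mulVec_mulVec, JL_apply_v]
    by_cases h : 0 < (i : ℕ)
    · rw [dif_pos h, ih]
      by_cases h2 : j ≤ (i : ℕ) - 1
      · rw [dif_pos h2, dif_pos (by omega)]
        congr 2
        exact Fin.ext (by first | omega | (simp only; omega))
      · rw [dif_neg h2, dif_neg (by omega)]
    · rw [dif_neg h, dif_neg (by omega)]

theorem JL_pow_apply_u (j : ℕ) (w : IL l m p → k) (i : Fin m) :
    (JL k l m p ^ j *ᵥ w) (.inr (.inl i)) =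
      if h : j ≤ (i : ℕ) then w (.inr (.inl ⟨i - j, by omega⟩)) else 0 := by
  induction j generalizing i with
  | zero => simp
  | succ j ih =>
    rw [pow_succ', ← mulVec_mulVec, JL_apply_u]
    by_cases h : 0 < (i : ℕ)
    · rw [dif_pos h, ih]
      by_cases h2 : j ≤ (i : ℕ) - 1
      · rw [dif_pos h2, dif_pos (by omega)]
        congr 2
        exact congrArg Sum.inl (Fin.ext (by first | omega | (simp only; omega)))
      · rw [dif_neg h2, dif_neg (by omega)]
    · rw [dif_neg h, dif_neg (by omega)]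

theorem JL_pow_apply_p (j : ℕ) (w : IL l m p → k) (i : Fin p) :
    (JL k l m p ^ j *ᵥ w) (.inr (.inr i)) = if j = 0 then w (.inr (.inr i)) else 0 := by
  cases j with
  | zero => simp
  | succ j => rw [pow_succ', ← mulVec_mulVec, JL_apply_p, if_neg (by omega)]

/-- the rank of the Jordan matrix -/
theorem JL_rank : (JL k l m p).rank ≤ (l - 1) + (m - 1) := by
  have h : JL k l m p = (Matrix.of fun (i : IL l m p) (j : Fin (l - 1) ⊕ Fin (m - 1)) =>
      match i, j with
      | .inl i, .inl j => if (i : ℕ) = j + 1 then (1 : k) else 0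
      | .inr (.inl i), .inr j => if (i : ℕ) = j + 1 then (1 : k) else 0
      | _, _ => 0) * (Matrix.of fun (i : Fin (l - 1) ⊕ Fin (m - 1)) (j : IL l m p) =>
      match i, j with
      | .inl i, .inl j => if (i : ℕ) = j then (1 : k) else 0
      | .inr i, .inr (.inl j) => if (i : ℕ) = j then (1 : k) else 0
      | _, _ => 0) := by
    ext i j
    rcases i with i | i | i <;> rcases j with j | j | j <;>
      simp only [JL, Matrix.mul_apply, Fintype.sum_sum_type, Matrix.of_apply, zero_mul, mul_zero,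
        Finset.sum_const_zero, add_zero, zero_add]
    · by_cases h : (i : ℕ) = j + 1
      · rw [if_pos h, Finset.sum_eq_single ⟨j, by omega⟩]
        · rw [if_pos h, if_pos rfl, mul_one]
        · intro b _ hb
          rw [if_neg (c := (b : ℕ) = j), mul_zero]
          intro h1
          exact hb (Fin.ext h1)
        · intro h1
          exact absurd (Finset.mem_univ _) h1
      · rw [if_neg h]
        symm
        refine Finset.sum_eq_zero fun b _ => ?_
        by_cases h1 : (b : ℕ) = j
        · rw [if_neg (by omega), zero_mul]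
        · rw [if_neg (c := (b : ℕ) = j) h1, mul_zero]
    · by_cases h : (i : ℕ) = j + 1
      · rw [if_pos h, Finset.sum_eq_single ⟨j, by omega⟩]
        · rw [if_pos h, if_pos rfl, mul_one]
        · intro b _ hb
          rw [if_neg (c := (b : ℕ) = j), mul_zero]
          intro h1
          exact hb (Fin.ext h1)
        · intro h1
          exact absurd (Finset.mem_univ _) h1
      · rw [if_neg h]
        symm
        refine Finset.sum_eq_zero fun b _ => ?_
        by_cases h1 : (b : ℕ) = j
        · rw [if_neg (by omega), zero_mul]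
        · rw [if_neg (c := (b : ℕ) = j) h1, mul_zero]
  rw [h]
  refine (Matrix.rank_mul_le_left _ _).trans ?_
  refine (Matrix.rank_le_card_width _).trans ?_
  simp

/-! ### matrices commuting with the Jordan matrix -/

theorem comm_vv {X : Matrix (IL l m p) (IL l m p) k} (hX : JL k l m p * X = X * JL k l m p)
    (j : ℕ) : X *ᵥ vv j = JL k l m p ^ j *ᵥ (X *ᵥ vv 0) := by
  have h : Commute (JL k l m p) X := hX
  rw [mulVec_mulVec, (h.pow_left j).eq, ← mulVec_mulVec, JL_pow_vv, zero_add]

theorem comm_uu {X : Matrix (IL l m p) (IL l m p) k} (hX : JL k l m p * X = X * JL k l m p)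
    (j : ℕ) : X *ᵥ uu j = JL k l m p ^ j *ᵥ (X *ᵥ uu 0) := by
  have h : Commute (JL k l m p) X := hX
  rw [mulVec_mulVec, (h.pow_left j).eq, ← mulVec_mulVec, JL_pow_uu, zero_add]

theorem comm_pp {X : Matrix (IL l m p) (IL l m p) k} (hX : JL k l m p * X = X * JL k l m p)
    (f : Fin p → k) : JL k l m p *ᵥ (X *ᵥ pp f) = 0 := by
  rw [mulVec_mulVec, hX, ← mulVec_mulVec, JL_pp, mulVec_zero]

theorem shape_aux (hlm : m < l) (hm : 0 < m) {X : Matrix (IL l m p) (IL l m p) k}
    (hX : JL k l m p * X = X * JL k l m p) (h0 : ∀ i, X (.inl i) (.inl ⟨0, by omega⟩) = 0)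
    (hq : X (.inr (.inl ⟨0, hm⟩)) (.inr (.inl ⟨0, hm⟩)) = 0)
    (hκ : ∀ a b, X (.inr (.inr a)) (.inr (.inr b)) = 0) :
    ∃ (c b q : ℕ → k) (om pi th et : Fin p → k), X = BL l m p c b q om pi th et := by
  have hv : X *ᵥ vv 0 = fun x => X x (.inl ⟨0, by omega⟩) := mulVec_vv X ⟨0, by omega⟩
  have hu : X *ᵥ uu 0 = fun x => X x (.inr (.inl ⟨0, hm⟩)) := mulVec_uu X ⟨0, hm⟩
  have hu0 : ∀ i : Fin l, (i : ℕ) < l - m → X (.inl i) (.inr (.inl ⟨0, hm⟩)) = 0 := by
    intro i hi
    have h1 := comm_uu hX m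
    rw [uu_ge le_rfl, mulVec_zero, hu] at h1
    have h2 := congrFun h1 (.inl ⟨i + m, by omega⟩)
    rw [JL_pow_apply_v, dif_pos (by simp)] at h2
    simp only [Pi.zero_apply, Nat.add_sub_cancel] at h2
    exact h2.symm
  have hp0 : ∀ (i : Fin l) (a : Fin p), (i : ℕ) + 1 < l → X (.inl i) (.inr (.inr a)) = 0 := by
    intro i a hi
    have h1 := comm_pp hX (Pi.single a 1)
    rw [mulVec_pp] at h1
    have h2 := congrFun h1 (.inl ⟨i + 1, hi⟩)
    rw [JL_apply_v, dif_pos (by simp)] at h2
    simpa [Pi.single_apply] using h2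
  have hp1 : ∀ (i : Fin m) (a : Fin p), (i : ℕ) + 1 < m → X (.inr (.inl i)) (.inr (.inr a)) = 0 := by
    intro i a hi
    have h1 := comm_pp hX (Pi.single a 1)
    rw [mulVec_pp] at h1
    have h2 := congrFun h1 (.inr (.inl ⟨i + 1, hi⟩))
    rw [JL_apply_u, dif_pos (by simp)] at h2
    simpa [Pi.single_apply] using h2
  refine ⟨fun i => if h : i < m then X (.inr (.inl ⟨i, h⟩)) (.inl ⟨0, by omega⟩) else 0,
    fun i => if h : l - m + i < l then X (.inl ⟨l - m + i, h⟩) (.inr (.inl ⟨0, hm⟩)) else 0,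
    fun i => if h : i < m then X (.inr (.inl ⟨i, h⟩)) (.inr (.inl ⟨0, hm⟩)) else 0,
    fun a => X (.inr (.inr a)) (.inl ⟨0, by omega⟩),
    fun a => X (.inr (.inr a)) (.inr (.inl ⟨0, hm⟩)),
    fun a => X (.inl ⟨l - 1, by omega⟩) (.inr (.inr a)),
    fun a => X (.inr (.inl ⟨m - 1, by omega⟩)) (.inr (.inr a)), ?_⟩
  ext x y
  rcases y with y | y | y
  · have h1 : X x (.inl y) = (JL k l m p ^ (y : ℕ) *ᵥ (X *ᵥ vv 0)) x := by
      rw [← comm_vv hX, mulVec_vv]
    rw [h1, hv]
    rcases x with x | x | x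
    · rw [JL_pow_apply_v]
      simp only [BL, Matrix.of_apply]
      split_ifs
      · exact h0 _
      · rfl
    · rw [JL_pow_apply_u]
      simp only [BL, Matrix.of_apply]
      by_cases h2 : (y : ℕ) ≤ x
      · rw [dif_pos h2, if_pos h2, dif_pos (by have := x.2; omega)]
      · rw [dif_neg h2, if_neg h2]
    · rw [JL_pow_apply_p]
      simp only [BL, Matrix.of_apply]
  · have h1 : X x (.inr (.inl y)) = (JL k l m p ^ (y : ℕ) *ᵥ (X *ᵥ uu 0)) x := by
      rw [← comm_uu hX, mulVec_uu]
    rw [h1, hu]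
    rcases x with x | x | x
    · rw [JL_pow_apply_v]
      simp only [BL, Matrix.of_apply]
      have hx := x.2
      by_cases h2 : l - m + (y : ℕ) ≤ x
      · rw [dif_pos (by omega), if_pos h2, dif_pos (by omega)]
        congr 3
        omega
      · rw [if_neg h2]
        split_ifs
        · exact hu0 _ (by first | omega | (simp only; omega))
        · rfl
    · rw [JL_pow_apply_u]
      simp only [BL, Matrix.of_apply]
      have hx := x.2
      by_cases h2 : (y : ℕ) < x
      · rw [dif_pos (by omega), if_pos h2, dif_pos (by omega)]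
      · rw [if_neg h2]
        split_ifs
        · have h5 : (⟨(x : ℕ) - y, by omega⟩ : Fin m) = ⟨0, hm⟩ :=
            Fin.ext (by first | omega | (simp only; omega))
          rw [h5]
          exact hq
        · rfl
    · rw [JL_pow_apply_p]
      simp only [BL, Matrix.of_apply]
  · rcases x with x | x | x
    · simp only [BL, Matrix.of_apply]
      split_ifs with h2
      · congr 3
        exact Fin.ext (by simp only; omega)
      · exact hp0 x y (by have := x.2; omega)
    · simp only [BL, Matrix.of_apply]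
      split_ifs with h2
      · congr 3
        exact Fin.ext (by first | omega | (simp only; omega))
      · exact hp1 x y (by have := x.2; omega)
    · simp only [BL, Matrix.of_apply]
      exact hκ x y

theorem nilp_eig {n : Type*} [Fintype n] [DecidableEq n] {X : Matrix n n k} (hX : IsNilpotent X)
    {y : n → k} {q : k} (h : X *ᵥ y = q • y) (hy : y ≠ 0) : q = 0 := by
  obtain ⟨N, hN⟩ := hX
  have h1 : ∀ i : ℕ, X ^ i *ᵥ y = q ^ i • y := by
    intro i
    induction i with
    | zero => simp
    | succ i ih => rw [pow_succ', ← mulVec_mulVec, ih, mulVec_smul, h, smul_smul, pow_succ]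
  have h2 := h1 N
  rw [hN, zero_mulVec] at h2
  by_contra hq
  exact smul_ne_zero (pow_ne_zero N hq) hy h2.symm

variable {ρ : ℕ → ℕ} {T : Fin 3 → Matrix (IL l m p) (IL l m p) k}

/-- the block `P -> P` vanishes -/
theorem killPL [Infinite k] (hT : MaxR ρ T) (h1 : ρ 1 ≤ (l - 1) + (m - 1))
    (hA : JL k l m p ∈ adj T) {X : Matrix (IL l m p) (IL l m p) k} (hX : X ∈ adj T)
    (i j : Fin p) : X (.inr (.inr i)) (.inr (.inr j)) = 0 := by
  refine D9.BlkShapeAux.kill2 (M0 := JL k l m p) (M1 := X) (M2 := 0)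
    (ι := Fin (l - 1) ⊕ Fin (m - 1))
    (fun t => match t with
      | .inl i => .inl ⟨i + 1, by omega⟩
      | .inr i => .inr (.inl ⟨i + 1, by omega⟩))
    (fun t => match t with
      | .inl i => .inl ⟨i, by omega⟩
      | .inr i => .inr (.inl ⟨i, by omega⟩)) _ _ ?_ ?_ ?_ ?_ ?_
  · intro s
    have h2 := hT.rank_le (add_mem hA (SMulMemClass.smul_mem s hX)) 1
    rw [pow_one] at h2
    rw [smul_zero, add_zero]
    refine (h2.trans h1).trans ?_
    simp
  · intro i j
    rcases i with i | i <;> rcases j with j | j <;>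
      simp [JL, Matrix.one_apply, Fin.ext_iff]
  · intro i
    rcases i with i | i <;> simp [JL]
  · intro i
    rcases i with i | i <;> simp [JL]
  · simp [JL]

theorem pow_mem_adj {n : Type*} [Fintype n] [DecidableEq n] {T : Fin 3 → Matrix n n k}
    {A : Matrix n n k} (hA : A ∈ adj T) (i : ℕ) : A ^ (i + 1) ∈ adj T := by
  induction i with
  | zero => simpa using hA
  | succ i ih => rw [pow_succ]; exact mul_mem ih hA

/-- an element of `adj T` is a polynomial in `JL` without constant term plus a matrix `BL` -/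
theorem shape_one [Infinite k] (hT : MaxR ρ T) (h1 : ρ 1 ≤ (l - 1) + (m - 1)) (hlm : m < l)
    (hm : 2 ≤ m) (hA : JL k l m p ∈ adj T) {X : Matrix (IL l m p) (IL l m p) k}
    (hX : X ∈ adj T) :
    ∃ (a c b q : ℕ → k) (om pi th et : Fin p → k),
      X = ∑ i ∈ Finset.range l, a i • JL k l m p ^ (i + 1) + BL l m p c b q om pi th et := by
  have hcomm : ∀ Y ∈ adj T, JL k l m p * Y = Y * JL k l m p := fun Y hY => hT.cn.comm hA hY
  have ha0 : X (.inl ⟨0, by omega⟩) (.inl ⟨0, by omega⟩) = 0 := by
    refine nilp_eig (hT.cn.nilp hX) (y := vv (l - 1)) ?_ ?_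
    · rw [comm_vv (hcomm X hX), mulVec_v0 _ (by omega)]
      funext x
      rcases x with x | x | x
      · rw [JL_pow_apply_v]
        simp only [vv, Pi.smul_apply, smul_eq_mul]
        have hx := x.2
        by_cases h2 : l - 1 ≤ (x : ℕ)
        · rw [dif_pos h2, if_pos (by omega), mul_one]
          congr 3
          omega
        · rw [dif_neg h2, if_neg (by omega), mul_zero]
      · rw [JL_pow_apply_u, dif_neg (by have := x.2; omega)]
        simp [vv]
      · rw [JL_pow_apply_p, if_neg (by omega)]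
        simp [vv]
    · intro h
      have h2 := congrFun h (.inl ⟨l - 1, by omega⟩)
      simp [vv] at h2
  let a : ℕ → k := fun i => if h : i + 1 < l then X (.inl ⟨i + 1, h⟩) (.inl ⟨0, by omega⟩) else 0
  let S : Matrix (IL l m p) (IL l m p) k := ∑ i ∈ Finset.range l, a i • JL k l m p ^ (i + 1)
  have hS : S ∈ adj T := sum_mem fun i _ => SMulMemClass.smul_mem _ (pow_mem_adj hA i)
  have hXS : X - S ∈ adj T := sub_mem hX hS
  have hc := hcomm _ hXS
  have hSv : S *ᵥ vv 0 = fun x => match x with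
      | .inl i => X (.inl i) (.inl ⟨0, by omega⟩)
      | _ => 0 := by
    simp only [S]
    rw [Matrix.sum_mulVec]
    simp only [Matrix.smul_mulVec, JL_pow_vv, zero_add]
    funext x
    rw [Finset.sum_apply]
    rcases x with x | x | x
    · simp only [Pi.smul_apply, vv, smul_eq_mul]
      rcases Nat.eq_zero_or_pos (x : ℕ) with h2 | h2
      · rw [Finset.sum_eq_zero (fun i _ => by rw [if_neg (by omega), mul_zero])]
        have h3 : x = ⟨0, by omega⟩ := Fin.ext h2
        rw [h3, ha0]
      · rw [Finset.sum_eq_single ((x : ℕ) - 1)]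
        · rw [if_pos (by omega), mul_one]
          simp only [a]
          have hx := x.2
          rw [dif_pos (by omega)]
          congr 3
          omega
        · intro b _ hb
          rw [if_neg (by omega), mul_zero]
        · intro h3
          exact absurd (Finset.mem_range.2 (by have := x.2; omega)) h3
    · simp [vv]
    · simp [vv]
  have h0 : ∀ i, (X - S) (.inl i) (.inl ⟨0, by omega⟩) = 0 := by
    intro i
    have h2 : (S *ᵥ vv 0) (.inl i) = S (.inl i) (.inl ⟨0, by omega⟩) := by
      rw [mulVec_v0 _ (by omega)]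
    rw [Matrix.sub_apply, ← h2, hSv]
    simp
  have hv : (X - S) *ᵥ vv (l - 1) = 0 := by
    rw [comm_vv hc, mulVec_v0 _ (by omega)]
    funext x
    rcases x with x | x | x
    · rw [JL_pow_apply_v]
      split_ifs
      · exact h0 _
      · rfl
    · rw [JL_pow_apply_u, dif_neg (by have := x.2; omega)]
      rfl
    · rw [JL_pow_apply_p, if_neg (by omega)]
      rfl
  have hq : (X - S) (.inr (.inl ⟨0, by omega⟩)) (.inr (.inl ⟨0, by omega⟩)) = 0 := by
    by_contra hq0
    apply hq0
    have hu0 : ∀ i : Fin l, (i : ℕ) < l - m → (X - S) (.inl i) (.inr (.inl ⟨0, by omega⟩)) = 0 := by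
      intro i hi
      have h1 := comm_uu hc m
      rw [uu_ge le_rfl, mulVec_zero, mulVec_u0 _ (by omega)] at h1
      have h2 := congrFun h1 (.inl ⟨i + m, by omega⟩)
      rw [JL_pow_apply_v, dif_pos (by simp)] at h2
      simp only [Pi.zero_apply, Nat.add_sub_cancel] at h2
      exact h2.symm
    have hy : (X - S) *ᵥ uu (m - 1) =
        (X - S) (.inl ⟨l - m, by omega⟩) (.inr (.inl ⟨0, by omega⟩)) • vv (l - 1) +
        (X - S) (.inr (.inl ⟨0, by omega⟩)) (.inr (.inl ⟨0, by omega⟩)) • uu (m - 1) := by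
      rw [comm_uu hc, mulVec_u0 _ (by omega)]
      funext x
      rcases x with x | x | x
      · rw [JL_pow_apply_v]
        simp only [vv, uu, Pi.add_apply, Pi.smul_apply, smul_eq_mul, mul_zero, add_zero]
        have hx := x.2
        by_cases h2 : (x : ℕ) = l - 1
        · have e : (⟨(x : ℕ) - (m - 1), by omega⟩ : Fin l) = ⟨l - m, by omega⟩ :=
            Fin.ext (by first | omega | (simp only; omega))
          rw [dif_pos (by omega), if_pos h2, mul_one, e]
        · rw [if_neg h2, mul_zero]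
          split_ifs
          · exact hu0 _ (by first | omega | (simp only; omega))
          · rfl
      · rw [JL_pow_apply_u]
        simp only [vv, uu, Pi.add_apply, Pi.smul_apply, smul_eq_mul, mul_zero, zero_add]
        have hx := x.2
        by_cases h2 : (x : ℕ) = m - 1
        · have e : (⟨(x : ℕ) - (m - 1), by omega⟩ : Fin m) = ⟨0, by omega⟩ :=
            Fin.ext (by first | omega | (simp only; omega))
          rw [dif_pos (by omega), if_pos h2, mul_one, e]
        · rw [if_neg h2, mul_zero, dif_neg (by omega)]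
      · rw [JL_pow_apply_p, if_neg (by omega)]
        simp [vv, uu]
    refine nilp_eig (hT.cn.nilp hXS) (y := (X - S) *ᵥ uu (m - 1)) ?_ ?_
    · conv_lhs => rw [hy, mulVec_add, mulVec_smul, mulVec_smul, hv, smul_zero, zero_add]
    · intro h2
      rw [hy] at h2
      have h3 := congrFun h2 (.inr (.inl ⟨m - 1, by omega⟩))
      simp [vv, uu] at h3
      exact hq0 (by simpa using h3)
  obtain ⟨c, b, q, om, pi, th, et, h2⟩ := shape_aux hlm (by omega) hc h0 hq
    fun i j => killPL hT h1 hA hXS i j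
  exact ⟨a, c, b, q, om, pi, th, et, by rw [← h2]; simp only [S]; abel⟩

/-- the shape of a maximal bad triple of type `(l, m, 1^p)`, `l > m ≥ 2` -/
theorem shapeLM [Infinite k] (hT : MaxR ρ T) (hρ : ∀ i, ρ i = (JL k l m p ^ i).rank)
    (h0 : T 0 = JL k l m p) (hlm : m < l) (hm : 2 ≤ m) :
    ∃ (c b q : ℕ → k) (om pi th et : Fin p → k) (c' b' q' : ℕ → k) (om' pi' th' et' : Fin p → k),
      MaxR ρ ![JL k l m p, BL l m p c b q om pi th et, BL l m p c' b' q' om' pi' th' et'] := by
  have hA : JL k l m p ∈ adj T := by rw [← h0]; exact mem_adj T 0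
  have h1 : ρ 1 ≤ (l - 1) + (m - 1) := by
    rw [hρ, pow_one]
    exact JL_rank
  obtain ⟨a, c, b, q, om, pi, th, et, hX⟩ := shape_one hT h1 hlm hm hA (mem_adj T 1)
  obtain ⟨a', c', b', q', om', pi', th', et', hX'⟩ := shape_one hT h1 hlm hm hA (mem_adj T 2)
  refine ⟨c, b, q, om, pi, th, et, c', b', q', om', pi', th', et', ?_⟩
  have hmem : ∀ i, (![JL k l m p, BL l m p c b q om pi th et, BL l m p c' b' q' om' pi' th' et'] :
      Fin 3 → Matrix (IL l m p) (IL l m p) k) i ∈ adj T := by
    intro i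
    fin_cases i
    · exact hA
    · have h2 : BL l m p c b q om pi th et = T 1 -
          ∑ i ∈ Finset.range l, a i • JL k l m p ^ (i + 1) := by rw [hX]; abel
      show BL l m p c b q om pi th et ∈ adj T
      rw [h2]
      exact sub_mem (mem_adj T 1) (sum_mem fun i _ => SMulMemClass.smul_mem _ (pow_mem_adj hA i))
    · have h2 : BL l m p c' b' q' om' pi' th' et' = T 2 -
          ∑ i ∈ Finset.range l, a' i • JL k l m p ^ (i + 1) := by rw [hX']; abel
      show BL l m p c' b' q' om' pi' th' et' ∈ adj T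
      rw [h2]
      exact sub_mem (mem_adj T 2) (sum_mem fun i _ => SMulMemClass.smul_mem _ (pow_mem_adj hA i))
  refine MaxR.change hT (hT.cn.of_adj hmem) fun i => ?_
  have m0 := D8.mem0 (JL k l m p) (BL l m p c b q om pi th et) (BL l m p c' b' q' om' pi' th' et')
  have m1 := D8.mem1 (JL k l m p) (BL l m p c b q om pi th et) (BL l m p c' b' q' om' pi' th' et')
  have m2 := D8.mem2 (JL k l m p) (BL l m p c b q om pi th et) (BL l m p c' b' q' om' pi' th' et')
  fin_cases i
  · show T 0 ∈ _
    rw [h0]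
    exact m0
  · show T 1 ∈ _
    rw [hX]
    exact add_mem (sum_mem fun i _ => SMulMemClass.smul_mem _ (pow_mem_adj m0 i)) m1
  · show T 2 ∈ _
    rw [hX']
    exact add_mem (sum_mem fun i _ => SMulMemClass.smul_mem _ (pow_mem_adj m0 i)) m2

end Pool.Agent.Lib.D13.LM
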