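import Pool.Agent.Lib.D13.LMJ
import Pool.Agent.Lib.D13.Ext

/-!
# MP_5dcbc3_ag: the types `(5, 4, 1, 1)`, `(6, 4, 1, 1)`, case I, `b_0 = 0`: a raise
-/

namespace Pool.Agent.Lib.D13.LM

open Matrix Pool.Agent.Lib.Q5dc Pool.Agent.Lib.D7

variable {k : Type*} [Field k] {ρ : ℕ → ℕ}

theorem vmul_dot {n : Type*} [Fintype n] (h : n → k) (M : Matrix n n k) (w : n → k) :
    (h ᵥ* M) ⬝ᵥ w = h ⬝ᵥ (M *ᵥ w) := by
  rw [dotProduct_mulVec]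

/-- the raise for `(5, 4, 1, 1)` -/
theorem raise54 [Infinite k] (hρ : ρ 5 = 0) {f q : ℕ → k} {pi o th et F0 F1 : Fin 2 → k} {a2 b2 : k}
    (hT : MaxR ρ ![JL k 5 4 2, YL 5 4 2 f q pi th et,
      ZL 5 4 2 (th ⬝ᵥ o) (et ⬝ᵥ o) o (a2 • F1) (b2 • F1)])
    (hf : f 0 = 0) (h00 : F0 ⬝ᵥ pi = 1) (h01 : F0 ⬝ᵥ o = 0) (h10 : F1 ⬝ᵥ pi = 0)
    (h11 : F1 ⬝ᵥ o = 1) (hb2 : b2 ≠ 0) {γ τ κ : k} (hγ : γ ≠ 0)
    (e1 : γ * (th ⬝ᵥ pi) + b2 * f 1 + τ * a2 = 0)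
    (e2 : γ * (et ⬝ᵥ pi) + a2 + b2 * q 1 + τ * b2 = 0)
    (e3 : b2 * (th ⬝ᵥ o) - a2 * (et ⬝ᵥ o) + κ * a2 ^ 2 - κ * (f 1 * b2 ^ 2 - a2 * b2 * q 1) = 0)
    (e4 : f 1 - τ * q 1 - τ ^ 2 ≠ 0)
    (e5 : b2 * ((q 1 ^ 2 + f 1) * f 1 + 4 * τ * q 1 * f 1 + 6 * τ ^ 2 * f 1 + τ ^ 4) -
      a2 * (q 1 ^ 3 + 2 * q 1 * f 1 + 4 * τ * (q 1 ^ 2 + f 1) + 6 * τ ^ 2 * q 1 + 4 * τ ^ 3) ≠ 0) :
    False := by
  obtain ⟨a1, ha1⟩ : ∃ a1, a1 = th ⬝ᵥ o := ⟨_, rfl⟩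
  obtain ⟨b1, hb1⟩ : ∃ b1, b1 = et ⬝ᵥ o := ⟨_, rfl⟩
  rw [← ha1, ← hb1] at hT e3
  have v5 : (vv 5 : IL 5 4 2 → k) = 0 := vv_ge le_rfl
  have v6 : (vv 6 : IL 5 4 2 → k) = 0 := vv_ge (by norm_num)
  have v7 : (vv 7 : IL 5 4 2 → k) = 0 := vv_ge (by norm_num)
  have u4 : (uu 4 : IL 5 4 2 → k) = 0 := uu_ge le_rfl
  have u5 : (uu 5 : IL 5 4 2 → k) = 0 := uu_ge (by norm_num)
  have u6 : (uu 6 : IL 5 4 2 → k) = 0 := uu_ge (by norm_num)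
  have u7 : (uu 7 : IL 5 4 2 → k) = 0 := uu_ge (by norm_num)
  have Yv : ∀ j, YL 5 4 2 f q pi th et *ᵥ vv j = uu j := YL_vv _ _ _ _ _ (by norm_num) (by norm_num)
  have Yu : ∀ j, YL 5 4 2 f q pi th et *ᵥ uu j = f 1 • vv (2 + j) + f 2 • vv (3 + j) +
      f 3 • vv (4 + j) + q 1 • uu (1 + j) + q 2 • uu (2 + j) + q 3 • uu (3 + j) +
      if j = 0 then pp pi else 0 := by
    intro j
    rw [YL_uu _ _ _ _ _ (by norm_num) (by norm_num)]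
    simp only [Finset.sum_range_succ, Finset.sum_range_zero, hf, zero_smul, zero_add, if_true]
    norm_num
    rw [show 1 + j + 1 = 2 + j by ring, show 1 + j + 2 = 3 + j by ring, show 1 + j + 3 = 4 + j by ring,
      show j + 1 = 1 + j by ring, show j + 2 = 2 + j by ring, show j + 3 = 3 + j by ring]
    abel
  have Yp : ∀ e, YL 5 4 2 f q pi th et *ᵥ pp e = (th ⬝ᵥ e) • vv 4 + (et ⬝ᵥ e) • uu 3 :=
    YL_pp _ _ _ _ _ (by norm_num) (by norm_num)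
  obtain ⟨Z, hZ⟩ : ∃ Z, Z = ZL 5 4 2 a1 b1 o (a2 • F1) (b2 • F1) := ⟨_, rfl⟩
  have Zv : ∀ j, Z *ᵥ vv j = if j = 0 then pp o else 0 := by
    rw [hZ]
    exact ZL_vv _ _ _ _ _ (by norm_num) (by norm_num)
  have Zu : ∀ j, Z *ᵥ uu j = if j = 0 then a1 • vv 4 + b1 • uu 3 else 0 := by
    rw [hZ]
    exact ZL_uu _ _ _ _ _ (by norm_num) (by norm_num)
  have Zp : ∀ e, Z *ᵥ pp e = (a2 * (F1 ⬝ᵥ e)) • vv 4 + (b2 * (F1 ⬝ᵥ e)) • uu 3 := by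
    intro e
    rw [hZ, ZL_pp _ _ _ _ _ (by norm_num) (by norm_num), smul_dotProduct, smul_dotProduct]
    rfl
  rw [← hZ] at hT
  obtain ⟨Y, hY⟩ : ∃ Y, Y = YL 5 4 2 f q pi th et := ⟨_, rfl⟩
  rw [← hY] at hT Yv Yu Yp
  obtain ⟨J, hJ⟩ : ∃ J, J = JL k 5 4 2 := ⟨_, rfl⟩
  have Jv : ∀ j, J *ᵥ vv j = vv (j + 1) := by rw [hJ]; exact JL_vv
  have Ju : ∀ j, J *ᵥ uu j = uu (j + 1) := by rw [hJ]; exact JL_uu
  have Jp : ∀ e, J *ᵥ pp e = 0 := by rw [hJ]; exact JL_pp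
  rw [← hJ] at hT
  obtain ⟨A3, hA3⟩ : ∃ A3, A3 * (f 1 - τ * q 1 - τ ^ 2) = -(a2 + q 1 * b2 + τ * b2) :=
    ⟨_, div_mul_cancel₀ _ e4⟩
  obtain ⟨B2, hB2⟩ : ∃ B2, B2 = b2 - τ * A3 := ⟨_, rfl⟩
  obtain ⟨h0, hh0⟩ : ∃ h0, γ * h0 = -(a2 * A3 + b2 * B2) := ⟨_, mul_div_cancel₀ _ hγ⟩
  obtain ⟨A2, hA2⟩ : ∃ A2, A2 * (f 1 - τ * q 1 - τ ^ 2) = -(f 2 * A3 + q 2 * B2 + h0) :=
    ⟨_, div_mul_cancel₀ _ e4⟩
  obtain ⟨B1, hB1⟩ : ∃ B1, B1 = -(τ * A2) := ⟨_, rfl⟩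
  obtain ⟨h1, hh1⟩ : ∃ h1, h1 = κ * a2 * A3 + κ * b2 * B2 := ⟨_, rfl⟩
  obtain ⟨A, hA⟩ : ∃ A, A = Y + τ • J := ⟨_, rfl⟩
  obtain ⟨Zt, hZt⟩ : ∃ Zt, Zt = Z - (κ * a2) • J ^ (2 + 1) - (κ * b2) • (J ^ (1 + 1) * Y) := ⟨_, rfl⟩
  have n0 : J ∈ adj ![J, Y, Z] := D8.mem0 _ _ _
  have n1 : Y ∈ adj ![J, Y, Z] := D8.mem1 _ _ _
  have n2 : Z ∈ adj ![J, Y, Z] := D8.mem2 _ _ _
  have m0 : J ∈ adj ![J, A, Zt] := D8.mem0 _ _ _
  have m1 : A ∈ adj ![J, A, Zt] := D8.mem1 _ _ _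
  have m2 : Zt ∈ adj ![J, A, Zt] := D8.mem2 _ _ _
  have m3 : Y ∈ adj ![J, A, Zt] := by
    have e : Y = A - τ • J := by rw [hA]; abel
    rw [e]
    exact sub_mem m1 (SMulMemClass.smul_mem _ m0)
  have hT2 : MaxR ρ ![J, A, Zt] := by
    refine D8.MaxR.change3 hT ?_ ?_ m3 ?_
    · rw [hA]
      exact add_mem n1 (SMulMemClass.smul_mem _ n0)
    · rw [hZt]
      exact sub_mem (sub_mem n2 (SMulMemClass.smul_mem _ (pow_mem_adj n0 2)))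
        (SMulMemClass.smul_mem _ (mul_mem (pow_mem_adj n0 1) n1))
    · have e : Z = Zt + (κ * a2) • J ^ (2 + 1) + (κ * b2) • (J ^ (1 + 1) * Y) := by rw [hZt]; abel
      rw [e]
      exact add_mem (add_mem m2 (SMulMemClass.smul_mem _ (pow_mem_adj m0 2)))
        (SMulMemClass.smul_mem _ (mul_mem (pow_mem_adj m0 1) m3))
  have Aw : ∀ w, A *ᵥ w = Y *ᵥ w + τ • (J *ᵥ w) := by
    intro w
    rw [hA, add_mulVec, smul_mulVec]
  have Zw : ∀ w, Zt *ᵥ w = Z *ᵥ w - (κ * a2) • (J *ᵥ (J *ᵥ (J *ᵥ w))) -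
      (κ * b2) • (J *ᵥ (J *ᵥ (Y *ᵥ w))) := by
    intro w
    rw [hZt]
    simp only [sub_mulVec, smul_mulVec, mulVec_mulVec, pow_succ, pow_zero, one_mul, Matrix.mul_assoc]
  obtain ⟨G, hG⟩ : ∃ G : IL 5 4 2 → k, G = fn (fun j => if j = 4 then b2 else 0)
      (fun j => if j = 3 then -a2 else 0) 0 := ⟨_, rfl⟩
  obtain ⟨h, hh⟩ : ∃ h : IL 5 4 2 → k, h = fn (fun j => if j = 2 then A2 else if j = 3 then A3 else 0)
      (fun j => if j = 1 then B1 else if j = 2 then B2 else 0) (h0 • F0 + h1 • F1) := ⟨_, rfl⟩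
  have Gv : ∀ j, G ⬝ᵥ vv j = if j = 4 then b2 else 0 := by
    intro j
    rw [hG, fn_vv]
    split_ifs <;> first | rfl | omega
  have Gu : ∀ j, G ⬝ᵥ uu j = if j = 3 then -a2 else 0 := by
    intro j
    rw [hG, fn_uu]
    split_ifs <;> first | rfl | omega
  have Gp : ∀ e, G ⬝ᵥ pp e = 0 := by
    intro e
    rw [hG, fn_pp, zero_dotProduct]
  have Hv : ∀ j, h ⬝ᵥ vv j = if j = 2 then A2 else if j = 3 then A3 else 0 := by
    intro j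
    rw [hh, fn_vv]
    split_ifs <;> first | rfl | omega
  have Hu : ∀ j, h ⬝ᵥ uu j = if j = 1 then B1 else if j = 2 then B2 else 0 := by
    intro j
    rw [hh, fn_uu]
    split_ifs <;> first | rfl | omega
  have Hp : ∀ e, h ⬝ᵥ pp e = h0 * (F0 ⬝ᵥ e) + h1 * (F1 ⬝ᵥ e) := by
    intro e
    rw [hh, fn_pp, add_dotProduct, smul_dotProduct, smul_dotProduct]
    rfl
  obtain ⟨g, hg⟩ : ∃ g : IL 5 4 2 → k, g = γ • pp pi + a2 • vv 3 + b2 • uu 2 := ⟨_, rfl⟩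
  obtain ⟨w, hw⟩ : ∃ w : IL 5 4 2 → k, w = a2 • vv 4 + b2 • uu 3 := ⟨_, rfl⟩
  have key := MaxR.ext hT2 (i := 4) hρ (w := w) (g := g) (G := G) (h := h) ?_ ?_ ?_ ?_ ?_ ?_ ?_ ?_ ?_ ?_
    ?_ ?_ (vv 0)
  · apply e5
    have c1 : A *ᵥ vv 0 = uu 0 + τ • vv 1 := by
      rw [Aw, Yv, Jv]
    have c2 : A *ᵥ (A *ᵥ vv 0) = pp pi + (f 1 + τ ^ 2) • vv 2 + f 2 • vv 3 + f 3 • vv 4 +
        (q 1 + 2 * τ) • uu 1 + q 2 • uu 2 + q 3 • uu 3 := by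
      rw [c1, Aw]
      simp only [mulVec_add, mulVec_smul, Jv, Ju, Yv, Yu, Nat.reduceAdd, OfNat.ofNat_ne_zero,
        if_true, add_zero]
      module
    have k1 : G ⬝ᵥ (A *ᵥ (A *ᵥ pp pi)) = 0 := by
      simp only [Aw, mulVec_add, mulVec_smul, Jp, Jv, Ju, Yp, Yv, Yu, smul_zero, add_zero,
        Nat.reduceAdd, OfNat.ofNat_ne_zero, if_false, v5, v6, v7, u4, u5, u6, u7, dotProduct_zero,
        mulVec_zero]
    have k2 : G ⬝ᵥ (A *ᵥ (A *ᵥ vv 2)) = -a2 * τ + τ ^ 2 * b2 + (f 1 * b2 - (q 1 + τ) * a2) := by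
      simp only [Aw, mulVec_add, mulVec_smul, Jv, Ju, Yv, Yu, smul_zero, add_zero, zero_add,
        Nat.reduceAdd, OfNat.ofNat_ne_zero, if_false, v5, v6, v7, u4, u5, u6, u7, dotProduct_add,
        dotProduct_smul, Gv, Gu, smul_eq_mul]
      simp
      ring
    have k3 : G ⬝ᵥ (A *ᵥ (A *ᵥ vv 3)) = 0 := by
      simp only [Aw, mulVec_add, mulVec_smul, Jv, Ju, Yv, Yu, smul_zero, add_zero, zero_add,
        Nat.reduceAdd, OfNat.ofNat_ne_zero, if_false, v5, v6, v7, u4, u5, u6, u7, dotProduct_zero,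
        mulVec_zero]
    have k4 : G ⬝ᵥ (A *ᵥ (A *ᵥ vv 4)) = 0 := by
      simp only [Aw, mulVec_add, mulVec_smul, Jv, Ju, Yv, Yu, smul_zero, add_zero, zero_add,
        Nat.reduceAdd, OfNat.ofNat_ne_zero, if_false, v5, v6, v7, u4, u5, u6, u7, dotProduct_zero,
        mulVec_zero]
    have k5 : G ⬝ᵥ (A *ᵥ (A *ᵥ uu 1)) = f 1 * (-a2 + τ * b2) +
        (q 1 + τ) * (f 1 * b2 - (q 1 + τ) * a2) := by
      simp only [Aw, mulVec_add, mulVec_smul, Jv, Ju, Yv, Yu, smul_zero, add_zero, zero_add,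
        Nat.reduceAdd, OfNat.ofNat_ne_zero, one_ne_zero, if_false, v5, v6, v7, u4, u5, u6, u7,
        dotProduct_add, dotProduct_smul, Gv, Gu, smul_eq_mul]
      simp
      ring
    have k6 : G ⬝ᵥ (A *ᵥ (A *ᵥ uu 2)) = 0 := by
      simp only [Aw, mulVec_add, mulVec_smul, Jv, Ju, Yv, Yu, smul_zero, add_zero, zero_add,
        Nat.reduceAdd, OfNat.ofNat_ne_zero, if_false, v5, v6, v7, u4, u5, u6, u7, dotProduct_zero,
        mulVec_zero]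
    have k7 : G ⬝ᵥ (A *ᵥ (A *ᵥ uu 3)) = 0 := by
      simp only [Aw, mulVec_add, mulVec_smul, Jv, Ju, Yv, Yu, smul_zero, add_zero, zero_add,
        Nat.reduceAdd, OfNat.ofNat_ne_zero, if_false, v5, v6, v7, u4, u5, u6, u7, dotProduct_zero,
        mulVec_zero]
    have k8 : A ^ 4 *ᵥ vv 0 = A *ᵥ (A *ᵥ (A *ᵥ (A *ᵥ vv 0))) := by
      simp only [mulVec_mulVec, pow_succ, pow_zero, one_mul, Matrix.mul_assoc]
    rw [k8, c2] at key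
    simp only [mulVec_add, mulVec_smul, dotProduct_add, dotProduct_smul, k1, k2, k3, k4, k5, k6, k7,
      smul_eq_mul] at key
    linear_combination key
  · intro hw0
    have h2 := congrFun hw0 (.inr (.inl 3))
    rw [hw] at h2
    simp [vv, uu] at h2
    exact hb2 h2
  · rw [hg, hw]
    simp [mulVec_add, mulVec_smul, Jp, Jv, Ju]
  · rw [hw]
    simp [mulVec_add, mulVec_smul, Jv, Ju, v5, u4]
  · rw [hg, Aw]
    simp only [mulVec_add, mulVec_smul, Jp, Jv, Ju, Yp, Yv, Yu, smul_zero, zero_add, add_zero,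
      Nat.reduceAdd, OfNat.ofNat_ne_zero, if_false, v5, v6, v7, u4, u5, u6, u7]
    match_scalars
    · linear_combination e1
    · linear_combination e2
  · rw [hg, Zw]
    simp only [mulVec_add, mulVec_smul, Jp, Jv, Ju, Yp, Yv, Yu, Zp, Zv, Zu, smul_zero, zero_add,
      add_zero, h10, Nat.reduceAdd, OfNat.ofNat_ne_zero, if_false, v5, v6, v7, u4, u5, u6, u7,
      mulVec_zero, sub_zero, mul_zero, zero_smul]
  · refine ext_fn (fun j hj => ?_) (fun j hj => ?_) fun e => ?_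
    · rw [vmul_dot, zero_dotProduct, Zw]
      interval_cases j <;>
        simp [mulVec_add, mulVec_smul, Jp, Jv, Ju, Yv, Yu, Zv, Zu, Gv, Gu, Gp,
          dotProduct_sub, dotProduct_smul, dotProduct_add]
      all_goals ring
    · rw [vmul_dot, zero_dotProduct, Zw]
      interval_cases j <;>
        simp [mulVec_add, mulVec_smul, Jp, Jv, Ju, Yv, Yu, Zv, Zu, Gv, Gu, Gp,
          dotProduct_sub, dotProduct_smul, dotProduct_add]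
      linear_combination e3
    · rw [vmul_dot, zero_dotProduct, Zw]
      simp [mulVec_add, mulVec_smul, Jp, Jv, Ju, Yp, Zp, Gv, Gu,
          dotProduct_sub, dotProduct_smul, dotProduct_add]
      ring
  · refine ext_fn (fun j hj => ?_) (fun j hj => ?_) fun e => ?_
    · rw [vmul_dot, zero_dotProduct, Zw]
      interval_cases j <;>
        simp [mulVec_add, mulVec_smul, Jp, Jv, Ju, Yv, Yu, Zv, Zu, Hv, Hu, Hp, h01, h11,
          dotProduct_sub, dotProduct_smul, dotProduct_add]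
      all_goals linear_combination hh1
    · rw [vmul_dot, zero_dotProduct, Zw]
      interval_cases j <;>
        simp [mulVec_add, mulVec_smul, Jp, Jv, Ju, Yv, Yu, Zv, Zu, Hv, Hu, Hp,
          dotProduct_sub, dotProduct_smul, dotProduct_add]
    · rw [vmul_dot, zero_dotProduct, Zw]
      simp [mulVec_add, mulVec_smul, Jp, Jv, Ju, Yp, Zp, Hv, Hu,
          dotProduct_sub, dotProduct_smul, dotProduct_add]
  · refine ext_fn (fun j hj => ?_) (fun j hj => ?_) fun e => ?_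
    · rw [vmul_dot, vmul_dot, ← mulVec_mulVec, Aw]
      interval_cases j <;>
        simp [mulVec_add, mulVec_smul, Jp, Jv, Ju, Yv, Yu, Hv, Hu, Gv, Gu,
          dotProduct_sub, dotProduct_smul, dotProduct_add]
      all_goals first | linear_combination hB1 | linear_combination hB2
    · rw [vmul_dot, vmul_dot, ← mulVec_mulVec, Aw]
      interval_cases j <;>
        simp [mulVec_add, mulVec_smul, Jp, Jv, Ju, Yv, Yu, Hv, Hu, Hp, h00, h10, Gv, Gu,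
          dotProduct_sub, dotProduct_smul, dotProduct_add]
      · linear_combination hA2 + (q 1 + τ) * hB1
      · linear_combination hA3 + (q 1 + τ) * hB2
    · rw [vmul_dot, vmul_dot, ← mulVec_mulVec, Aw]
      simp [mulVec_add, mulVec_smul, Jp, Jv, Ju, Yp, Hv, Hu,
          dotProduct_sub, dotProduct_smul, dotProduct_add]
  · rw [hw]
    simp [Gv, Gu, dotProduct_smul, dotProduct_add]
    ring
  · rw [hg]
    simp [Gv, Gu, Gp, dotProduct_smul, dotProduct_add]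
  · rw [hw]
    simp [Hv, Hu, dotProduct_smul, dotProduct_add]
  · rw [hg]
    simp [Hv, Hu, Hp, h00, h10, dotProduct_smul, dotProduct_add]
    linear_combination hh0

/-- the raise for `(6, 4, 1, 1)` -/
theorem raise64 [Infinite k] (hρ : ρ 6 = 0) {f q : ℕ → k} {pi o th et F0 F1 : Fin 2 → k} {a2 b2 : k}
    (hT : MaxR ρ ![JL k 6 4 2, YL 6 4 2 f q pi th et,
      ZL 6 4 2 (th ⬝ᵥ o) (et ⬝ᵥ o) o (a2 • F1) (b2 • F1)])
    (hf : f 0 = 0) (h00 : F0 ⬝ᵥ pi = 1) (h01 : F0 ⬝ᵥ o = 0) (h10 : F1 ⬝ᵥ pi = 0)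
    (h11 : F1 ⬝ᵥ o = 1) (hb2 : b2 ≠ 0) {γ τ κ : k} (hγ : γ ≠ 0)
    (e1 : γ * (th ⬝ᵥ pi) + b2 * f 1 + τ * a2 = 0)
    (e2 : γ * (et ⬝ᵥ pi) + b2 * q 1 + τ * b2 = 0)
    (e3 : b2 * (th ⬝ᵥ o) - a2 * (et ⬝ᵥ o) - κ * (f 1 * b2 ^ 2 - a2 * b2 * q 1) = 0)
    (e4 : τ ≠ 0) (e5 : q 1 + τ ≠ 0) : False := by
  obtain ⟨a1, ha1⟩ : ∃ a1, a1 = th ⬝ᵥ o := ⟨_, rfl⟩
  obtain ⟨b1, hb1⟩ : ∃ b1, b1 = et ⬝ᵥ o := ⟨_, rfl⟩
  rw [← ha1, ← hb1] at hT e3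
  have v6 : (vv 6 : IL 6 4 2 → k) = 0 := vv_ge (by norm_num)
  have v7 : (vv 7 : IL 6 4 2 → k) = 0 := vv_ge (by norm_num)
  have v8 : (vv 8 : IL 6 4 2 → k) = 0 := vv_ge (by norm_num)
  have u4 : (uu 4 : IL 6 4 2 → k) = 0 := uu_ge le_rfl
  have u5 : (uu 5 : IL 6 4 2 → k) = 0 := uu_ge (by norm_num)
  have u6 : (uu 6 : IL 6 4 2 → k) = 0 := uu_ge (by norm_num)
  have u7 : (uu 7 : IL 6 4 2 → k) = 0 := uu_ge (by norm_num)
  have Yv : ∀ j, YL 6 4 2 f q pi th et *ᵥ vv j = uu j := YL_vv _ _ _ _ _ (by norm_num) (by norm_num)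
  have Yu : ∀ j, YL 6 4 2 f q pi th et *ᵥ uu j = f 1 • vv (3 + j) + f 2 • vv (4 + j) +
      f 3 • vv (5 + j) + q 1 • uu (1 + j) + q 2 • uu (2 + j) + q 3 • uu (3 + j) +
      if j = 0 then pp pi else 0 := by
    intro j
    rw [YL_uu _ _ _ _ _ (by norm_num) (by norm_num)]
    simp only [Finset.sum_range_succ, Finset.sum_range_zero, hf, zero_smul, zero_add, if_true]
    norm_num
    rw [show 2 + j + 1 = 3 + j by ring, show 2 + j + 2 = 4 + j by ring, show 2 + j + 3 = 5 + j by ring,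
      show j + 1 = 1 + j by ring, show j + 2 = 2 + j by ring, show j + 3 = 3 + j by ring]
    abel
  have Yp : ∀ e, YL 6 4 2 f q pi th et *ᵥ pp e = (th ⬝ᵥ e) • vv 5 + (et ⬝ᵥ e) • uu 3 :=
    YL_pp _ _ _ _ _ (by norm_num) (by norm_num)
  obtain ⟨Z, hZ⟩ : ∃ Z, Z = ZL 6 4 2 a1 b1 o (a2 • F1) (b2 • F1) := ⟨_, rfl⟩
  have Zv : ∀ j, Z *ᵥ vv j = if j = 0 then pp o else 0 := by
    rw [hZ]
    exact ZL_vv _ _ _ _ _ (by norm_num) (by norm_num)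
  have Zu : ∀ j, Z *ᵥ uu j = if j = 0 then a1 • vv 5 + b1 • uu 3 else 0 := by
    rw [hZ]
    exact ZL_uu _ _ _ _ _ (by norm_num) (by norm_num)
  have Zp : ∀ e, Z *ᵥ pp e = (a2 * (F1 ⬝ᵥ e)) • vv 5 + (b2 * (F1 ⬝ᵥ e)) • uu 3 := by
    intro e
    rw [hZ, ZL_pp _ _ _ _ _ (by norm_num) (by norm_num), smul_dotProduct, smul_dotProduct]
    rfl
  rw [← hZ] at hT
  obtain ⟨Y, hY⟩ : ∃ Y, Y = YL 6 4 2 f q pi th et := ⟨_, rfl⟩
  rw [← hY] at hT Yv Yu Yp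
  obtain ⟨J, hJ⟩ : ∃ J, J = JL k 6 4 2 := ⟨_, rfl⟩
  have Jv : ∀ j, J *ᵥ vv j = vv (j + 1) := by rw [hJ]; exact JL_vv
  have Ju : ∀ j, J *ᵥ uu j = uu (j + 1) := by rw [hJ]; exact JL_uu
  have Jp : ∀ e, J *ᵥ pp e = 0 := by rw [hJ]; exact JL_pp
  rw [← hJ] at hT
  obtain ⟨A4, hA4⟩ : ∃ A4, τ * A4 = b2 := ⟨_, mul_div_cancel₀ _ e4⟩
  obtain ⟨B2, hB2⟩ : ∃ B2, (q 1 + τ) * B2 = -(a2 + f 1 * A4) := ⟨_, mul_div_cancel₀ _ e5⟩
  obtain ⟨A3, hA3⟩ : ∃ A3, τ * A3 = -B2 := ⟨_, mul_div_cancel₀ _ e4⟩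
  obtain ⟨h0, hh0⟩ : ∃ h0, γ * h0 = -(a2 * A4 + b2 * B2) := ⟨_, mul_div_cancel₀ _ hγ⟩
  obtain ⟨B1, hB1⟩ : ∃ B1, (q 1 + τ) * B1 = -(f 1 * A3 + f 2 * A4 + q 2 * B2 + h0) :=
    ⟨_, mul_div_cancel₀ _ e5⟩
  obtain ⟨A2, hA2⟩ : ∃ A2, τ * A2 = -B1 := ⟨_, mul_div_cancel₀ _ e4⟩
  obtain ⟨h1, hh1⟩ : ∃ h1, h1 = κ * a2 * A4 + κ * b2 * B2 := ⟨_, rfl⟩
  obtain ⟨A, hA⟩ : ∃ A, A = Y + τ • J := ⟨_, rfl⟩
  obtain ⟨Zt, hZt⟩ : ∃ Zt, Zt = Z - (κ * a2) • J ^ (3 + 1) - (κ * b2) • (J ^ (1 + 1) * Y) := ⟨_, rfl⟩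
  have n0 : J ∈ adj ![J, Y, Z] := D8.mem0 _ _ _
  have n1 : Y ∈ adj ![J, Y, Z] := D8.mem1 _ _ _
  have n2 : Z ∈ adj ![J, Y, Z] := D8.mem2 _ _ _
  have m0 : J ∈ adj ![J, A, Zt] := D8.mem0 _ _ _
  have m1 : A ∈ adj ![J, A, Zt] := D8.mem1 _ _ _
  have m2 : Zt ∈ adj ![J, A, Zt] := D8.mem2 _ _ _
  have m3 : Y ∈ adj ![J, A, Zt] := by
    have e : Y = A - τ • J := by rw [hA]; abel
    rw [e]
    exact sub_mem m1 (SMulMemClass.smul_mem _ m0)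
  have hT2 : MaxR ρ ![J, A, Zt] := by
    refine D8.MaxR.change3 hT ?_ ?_ m3 ?_
    · rw [hA]
      exact add_mem n1 (SMulMemClass.smul_mem _ n0)
    · rw [hZt]
      exact sub_mem (sub_mem n2 (SMulMemClass.smul_mem _ (pow_mem_adj n0 3)))
        (SMulMemClass.smul_mem _ (mul_mem (pow_mem_adj n0 1) n1))
    · have e : Z = Zt + (κ * a2) • J ^ (3 + 1) + (κ * b2) • (J ^ (1 + 1) * Y) := by rw [hZt]; abel
      rw [e]
      exact add_mem (add_mem m2 (SMulMemClass.smul_mem _ (pow_mem_adj m0 3)))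
        (SMulMemClass.smul_mem _ (mul_mem (pow_mem_adj m0 1) m3))
  have Aw : ∀ w, A *ᵥ w = Y *ᵥ w + τ • (J *ᵥ w) := by
    intro w
    rw [hA, add_mulVec, smul_mulVec]
  have Zw : ∀ w, Zt *ᵥ w = Z *ᵥ w - (κ * a2) • (J *ᵥ (J *ᵥ (J *ᵥ (J *ᵥ w)))) -
      (κ * b2) • (J *ᵥ (J *ᵥ (Y *ᵥ w))) := by
    intro w
    rw [hZt]
    simp only [sub_mulVec, smul_mulVec, mulVec_mulVec, pow_succ, pow_zero, one_mul, Matrix.mul_assoc]
  obtain ⟨G, hG⟩ : ∃ G : IL 6 4 2 → k, G = fn (fun j => if j = 5 then b2 else 0)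
      (fun j => if j = 3 then -a2 else 0) 0 := ⟨_, rfl⟩
  obtain ⟨h, hh⟩ : ∃ h : IL 6 4 2 → k, h = fn (fun j => if j = 2 then A2 else if j = 3 then A3 else if j = 4 then A4 else 0)
      (fun j => if j = 1 then B1 else if j = 2 then B2 else 0) (h0 • F0 + h1 • F1) := ⟨_, rfl⟩
  have Gv : ∀ j, G ⬝ᵥ vv j = if j = 5 then b2 else 0 := by
    intro j
    rw [hG, fn_vv]
    split_ifs <;> first | rfl | omega
  have Gu : ∀ j, G ⬝ᵥ uu j = if j = 3 then -a2 else 0 := by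
    intro j
    rw [hG, fn_uu]
    split_ifs <;> first | rfl | omega
  have Gp : ∀ e, G ⬝ᵥ pp e = 0 := by
    intro e
    rw [hG, fn_pp, zero_dotProduct]
  have Hv : ∀ j, h ⬝ᵥ vv j = if j = 2 then A2 else if j = 3 then A3 else if j = 4 then A4 else 0 := by
    intro j
    rw [hh, fn_vv]
    split_ifs <;> first | rfl | omega
  have Hu : ∀ j, h ⬝ᵥ uu j = if j = 1 then B1 else if j = 2 then B2 else 0 := by
    intro j
    rw [hh, fn_uu]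
    split_ifs <;> first | rfl | omega
  have Hp : ∀ e, h ⬝ᵥ pp e = h0 * (F0 ⬝ᵥ e) + h1 * (F1 ⬝ᵥ e) := by
    intro e
    rw [hh, fn_pp, add_dotProduct, smul_dotProduct, smul_dotProduct]
    rfl
  obtain ⟨g, hg⟩ : ∃ g : IL 6 4 2 → k, g = γ • pp pi + a2 • vv 4 + b2 • uu 2 := ⟨_, rfl⟩
  obtain ⟨w, hw⟩ : ∃ w : IL 6 4 2 → k, w = a2 • vv 5 + b2 • uu 3 := ⟨_, rfl⟩
  have key := MaxR.ext hT2 (i := 5) hρ (w := w) (g := g) (G := G) (h := h) ?_ ?_ ?_ ?_ ?_ ?_ ?_ ?_ ?_ ?_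
    ?_ ?_ (vv 0)
  · have c1 : A *ᵥ vv 0 = uu 0 + τ • vv 1 := by
      rw [Aw, Yv, Jv]
    have c2 : A *ᵥ (A *ᵥ vv 0) = pp pi + τ ^ 2 • vv 2 + f 1 • vv 3 + f 2 • vv 4 + f 3 • vv 5 +
        (q 1 + 2 * τ) • uu 1 + q 2 • uu 2 + q 3 • uu 3 := by
      rw [c1, Aw]
      simp only [mulVec_add, mulVec_smul, Jv, Ju, Yv, Yu, Nat.reduceAdd, OfNat.ofNat_ne_zero,
        if_true, add_zero]
      module
    have k1 : G ⬝ᵥ (A *ᵥ (A *ᵥ (A *ᵥ pp pi))) = 0 := by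
      simp only [Aw, mulVec_add, mulVec_smul, Jp, Jv, Ju, Yp, Yv, Yu, smul_zero, add_zero,
        Nat.reduceAdd, OfNat.ofNat_ne_zero, if_false, v6, v7, v8, u4, u5, u6, u7, dotProduct_zero,
        mulVec_zero]
    have k2 : G ⬝ᵥ (A *ᵥ (A *ᵥ (A *ᵥ vv 2))) = τ ^ 3 * b2 := by
      simp only [Aw, mulVec_add, mulVec_smul, Jv, Ju, Yv, Yu, smul_zero, add_zero, zero_add,
        Nat.reduceAdd, OfNat.ofNat_ne_zero, if_false, v6, v7, v8, u4, u5, u6, u7, dotProduct_add,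
        dotProduct_smul, Gv, Gu, smul_eq_mul, mulVec_zero]
      simp
      ring
    have k3 : G ⬝ᵥ (A *ᵥ (A *ᵥ (A *ᵥ vv 3))) = 0 := by
      simp only [Aw, mulVec_add, mulVec_smul, Jv, Ju, Yv, Yu, smul_zero, add_zero, zero_add,
        Nat.reduceAdd, OfNat.ofNat_ne_zero, if_false, v6, v7, v8, u4, u5, u6, u7, dotProduct_zero,
        mulVec_zero]
    have k4 : G ⬝ᵥ (A *ᵥ (A *ᵥ (A *ᵥ vv 4))) = 0 := by
      simp only [Aw, mulVec_add, mulVec_smul, Jv, Ju, Yv, Yu, smul_zero, add_zero, zero_add,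
        Nat.reduceAdd, OfNat.ofNat_ne_zero, if_false, v6, v7, v8, u4, u5, u6, u7, dotProduct_zero,
        mulVec_zero]
    have k4' : G ⬝ᵥ (A *ᵥ (A *ᵥ (A *ᵥ vv 5))) = 0 := by
      simp only [Aw, mulVec_add, mulVec_smul, Jv, Ju, Yv, Yu, smul_zero, add_zero, zero_add,
        Nat.reduceAdd, OfNat.ofNat_ne_zero, if_false, v6, v7, v8, u4, u5, u6, u7, dotProduct_zero,
        mulVec_zero]
    have k5 : G ⬝ᵥ (A *ᵥ (A *ᵥ (A *ᵥ uu 1))) = 0 := by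
      simp only [Aw, mulVec_add, mulVec_smul, Jv, Ju, Yv, Yu, smul_zero, add_zero, zero_add,
        Nat.reduceAdd, OfNat.ofNat_ne_zero, one_ne_zero, if_false, v6, v7, v8, u4, u5, u6, u7,
        dotProduct_zero, mulVec_zero]
    have k6 : G ⬝ᵥ (A *ᵥ (A *ᵥ (A *ᵥ uu 2))) = 0 := by
      simp only [Aw, mulVec_add, mulVec_smul, Jv, Ju, Yv, Yu, smul_zero, add_zero, zero_add,
        Nat.reduceAdd, OfNat.ofNat_ne_zero, if_false, v6, v7, v8, u4, u5, u6, u7, dotProduct_zero,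
        mulVec_zero]
    have k7 : G ⬝ᵥ (A *ᵥ (A *ᵥ (A *ᵥ uu 3))) = 0 := by
      simp only [Aw, mulVec_add, mulVec_smul, Jv, Ju, Yv, Yu, smul_zero, add_zero, zero_add,
        Nat.reduceAdd, OfNat.ofNat_ne_zero, if_false, v6, v7, v8, u4, u5, u6, u7, dotProduct_zero,
        mulVec_zero]
    have k8 : A ^ 5 *ᵥ vv 0 = A *ᵥ (A *ᵥ (A *ᵥ (A *ᵥ (A *ᵥ vv 0)))) := by
      simp only [mulVec_mulVec, pow_succ, pow_zero, one_mul, Matrix.mul_assoc]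
    rw [k8, c2] at key
    simp only [mulVec_add, mulVec_smul, dotProduct_add, dotProduct_smul, k1, k2, k3, k4, k4', k5,
      k6, k7, smul_eq_mul] at key
    have h3 : τ ^ 5 * b2 = 0 := by linear_combination key
    exact mul_ne_zero (pow_ne_zero 5 e4) hb2 h3
  · intro hw0
    have h2 := congrFun hw0 (.inr (.inl 3))
    rw [hw] at h2
    simp [vv, uu] at h2
    exact hb2 h2
  · rw [hg, hw]
    simp [mulVec_add, mulVec_smul, Jp, Jv, Ju]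
  · rw [hw]
    simp [mulVec_add, mulVec_smul, Jv, Ju, v6, u4]
  · rw [hg, Aw]
    simp only [mulVec_add, mulVec_smul, Jp, Jv, Ju, Yp, Yv, Yu, smul_zero, zero_add, add_zero,
      Nat.reduceAdd, OfNat.ofNat_ne_zero, if_false, v6, v7, v8, u4, u5, u6, u7]
    match_scalars
    · linear_combination e1
    · linear_combination e2
  · rw [hg, Zw]
    simp only [mulVec_add, mulVec_smul, Jp, Jv, Ju, Yp, Yv, Yu, Zp, Zv, Zu, smul_zero, zero_add,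
      add_zero, h10, Nat.reduceAdd, OfNat.ofNat_ne_zero, if_false, v6, v7, v8, u4, u5, u6, u7,
      mulVec_zero, sub_zero, mul_zero, zero_smul]
  · refine ext_fn (fun j hj => ?_) (fun j hj => ?_) fun e => ?_
    · rw [vmul_dot, zero_dotProduct, Zw]
      interval_cases j <;>
        simp [mulVec_add, mulVec_smul, Jp, Jv, Ju, Yv, Yu, Zv, Zu, Gv, Gu, Gp,
          dotProduct_sub, dotProduct_smul, dotProduct_add]
      all_goals ring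
    · rw [vmul_dot, zero_dotProduct, Zw]
      interval_cases j <;>
        simp [mulVec_add, mulVec_smul, Jp, Jv, Ju, Yv, Yu, Zv, Zu, Gv, Gu, Gp,
          dotProduct_sub, dotProduct_smul, dotProduct_add]
      linear_combination e3
    · rw [vmul_dot, zero_dotProduct, Zw]
      simp [mulVec_add, mulVec_smul, Jp, Jv, Ju, Yp, Zp, Gv, Gu,
          dotProduct_sub, dotProduct_smul, dotProduct_add]
      ring
  · refine ext_fn (fun j hj => ?_) (fun j hj => ?_) fun e => ?_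
    · rw [vmul_dot, zero_dotProduct, Zw]
      interval_cases j <;>
        simp [mulVec_add, mulVec_smul, Jp, Jv, Ju, Yv, Yu, Zv, Zu, Hv, Hu, Hp, h01, h11,
          dotProduct_sub, dotProduct_smul, dotProduct_add]
      all_goals linear_combination hh1
    · rw [vmul_dot, zero_dotProduct, Zw]
      interval_cases j <;>
        simp [mulVec_add, mulVec_smul, Jp, Jv, Ju, Yv, Yu, Zv, Zu, Hv, Hu, Hp,
          dotProduct_sub, dotProduct_smul, dotProduct_add]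
    · rw [vmul_dot, zero_dotProduct, Zw]
      simp [mulVec_add, mulVec_smul, Jp, Jv, Ju, Yp, Zp, Hv, Hu,
          dotProduct_sub, dotProduct_smul, dotProduct_add]
  · refine ext_fn (fun j hj => ?_) (fun j hj => ?_) fun e => ?_
    · rw [vmul_dot, vmul_dot, ← mulVec_mulVec, Aw]
      interval_cases j <;>
        simp [mulVec_add, mulVec_smul, Jp, Jv, Ju, Yv, Yu, Hv, Hu, Gv, Gu,
          dotProduct_sub, dotProduct_smul, dotProduct_add]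
      all_goals first | linear_combination hA2 | linear_combination hA3 | linear_combination hA4
    · rw [vmul_dot, vmul_dot, ← mulVec_mulVec, Aw]
      interval_cases j <;>
        simp [mulVec_add, mulVec_smul, Jp, Jv, Ju, Yv, Yu, Hv, Hu, Hp, h00, h10, Gv, Gu,
          dotProduct_sub, dotProduct_smul, dotProduct_add]
      · linear_combination hB1
      · linear_combination hB2
    · rw [vmul_dot, vmul_dot, ← mulVec_mulVec, Aw]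
      simp [mulVec_add, mulVec_smul, Jp, Jv, Ju, Yp, Hv, Hu,
          dotProduct_sub, dotProduct_smul, dotProduct_add]
  · rw [hw]
    simp [Gv, Gu, dotProduct_smul, dotProduct_add]
    ring
  · rw [hg]
    simp [Gv, Gu, Gp, dotProduct_smul, dotProduct_add]
  · rw [hw]
    simp [Hv, Hu, dotProduct_smul, dotProduct_add]
  · rw [hg]
    simp [Hv, Hu, Hp, h00, h10, dotProduct_smul, dotProduct_add]
    linear_combination hh0


/-- the dual basis in `k^2` -/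
theorem dual2 {pi o : Fin 2 → k} (h : pi 0 * o 1 - pi 1 * o 0 ≠ 0) : ∃ F0 F1 : Fin 2 → k,
    F0 ⬝ᵥ pi = 1 ∧ F0 ⬝ᵥ o = 0 ∧ F1 ⬝ᵥ pi = 0 ∧ F1 ⬝ᵥ o = 1 ∧
      ∀ f : Fin 2 → k, f = (f ⬝ᵥ pi) • F0 + (f ⬝ᵥ o) • F1 := by
  obtain ⟨D, hD⟩ : ∃ D, D = pi 0 * o 1 - pi 1 * o 0 := ⟨_, rfl⟩
  rw [← hD] at h
  have hd : D⁻¹ * (pi 0 * o 1 - pi 1 * o 0) = 1 := by rw [← hD, inv_mul_cancel₀ h]
  refine ⟨![D⁻¹ * o 1, -(D⁻¹ * o 0)], ![-(D⁻¹ * pi 1), D⁻¹ * pi 0], ?_, ?_, ?_, ?_, fun f => ?_⟩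
  · simp only [dotProduct, Fin.sum_univ_two, Matrix.cons_val_zero, Matrix.cons_val_one]
    linear_combination hd
  · simp only [dotProduct, Fin.sum_univ_two, Matrix.cons_val_zero, Matrix.cons_val_one]
    ring
  · simp only [dotProduct, Fin.sum_univ_two, Matrix.cons_val_zero, Matrix.cons_val_one]
    ring
  · simp only [dotProduct, Fin.sum_univ_two, Matrix.cons_val_zero, Matrix.cons_val_one]
    linear_combination hd
  · funext i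
    simp only [dotProduct, Fin.sum_univ_two, Pi.add_apply, Pi.smul_apply, smul_eq_mul]
    fin_cases i
    · simp only [Fin.zero_eta, Matrix.cons_val_zero]
      linear_combination -(f 0) * hd
    · simp only [Fin.mk_one, Matrix.cons_val_one, Matrix.cons_val_zero]
      linear_combination -(f 1) * hd

/-- generic parameters, `(5, 4, 1, 1)` -/
theorem gen54 {f q a0 b0 a2 b2 : k → k} (hf : D7.IsPoly f) (hq : D7.IsPoly q)
    (ha0 : D7.IsPoly a0) (hb0 : D7.IsPoly b0) (ha2 : D7.IsPoly a2) (hb2 : D7.IsPoly b2)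
    (vf : f 1 = 1) (vq : q 1 = 0) (va0 : a0 1 = 1) (vb0 : b0 1 = 0) (va2 : a2 1 = 0)
    (vb2 : b2 1 = 1) : ∃ F : Set k, F.Finite ∧ ∀ s ∉ F, ∃ D E t, b2 s ≠ 0 ∧ D ≠ 0 ∧ E ≠ 0 ∧
      D = f s * b2 s ^ 2 - q s * a2 s * b2 s - a2 s ^ 2 ∧ E = a0 s * b2 s - b0 s * a2 s ∧
      t = D * b0 s - (a2 s + b2 s * q s) * E ∧
      f s * (b2 s * E) ^ 2 - q s * (b2 s * E) * t - t ^ 2 ≠ 0 ∧
      b2 s * ((q s ^ 2 + f s) * f s * (b2 s * E) ^ 4 + 4 * t * q s * f s * (b2 s * E) ^ 3 +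
        6 * t ^ 2 * f s * (b2 s * E) ^ 2 + t ^ 4) -
      a2 s * ((q s ^ 3 + 2 * q s * f s) * (b2 s * E) ^ 4 + 4 * t * (q s ^ 2 + f s) * (b2 s * E) ^ 3 +
        6 * t ^ 2 * q s * (b2 s * E) ^ 2 + 4 * t ^ 3 * (b2 s * E)) ≠ 0 := by
  have hc : ∀ a : k, D7.IsPoly fun _ : k => a := D7.IsPoly.const
  obtain ⟨D, hD⟩ : ∃ D : k → k, D = fun s => f s * b2 s ^ 2 - q s * a2 s * b2 s - a2 s ^ 2 := ⟨_, rfl⟩
  have pD : D7.IsPoly D := by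
    rw [hD]
    exact ((hf.mul (hb2.pow 2)).sub ((hq.mul ha2).mul hb2)).sub (ha2.pow 2)
  have vD : D 1 = 1 := by
    rw [hD]
    simp [vf, vb2, vq, va2]
  obtain ⟨E, hE⟩ : ∃ E : k → k, E = fun s => a0 s * b2 s - b0 s * a2 s := ⟨_, rfl⟩
  have pE : D7.IsPoly E := by
    rw [hE]
    exact (ha0.mul hb2).sub (hb0.mul ha2)
  have vE : E 1 = 1 := by
    rw [hE]
    simp [va0, vb2, va2]
  obtain ⟨t, ht⟩ : ∃ t : k → k, t = fun s => D s * b0 s - (a2 s + b2 s * q s) * E s := ⟨_, rfl⟩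
  have pt : D7.IsPoly t := by
    rw [ht]
    exact (pD.mul hb0).sub ((ha2.add (hb2.mul hq)).mul pE)
  have vt : t 1 = 0 := by
    rw [ht]
    simp [vD, vb0, va2, vq]
  have pbE := hb2.mul pE
  have p4 : D7.IsPoly fun s => f s * (b2 s * E s) ^ 2 - q s * (b2 s * E s) * t s - t s ^ 2 :=
    ((hf.mul (pbE.pow 2)).sub ((hq.mul pbE).mul pt)).sub (pt.pow 2)
  have p5 : D7.IsPoly fun s => b2 s * ((q s ^ 2 + f s) * f s * (b2 s * E s) ^ 4 +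
        4 * t s * q s * f s * (b2 s * E s) ^ 3 +
        6 * t s ^ 2 * f s * (b2 s * E s) ^ 2 + t s ^ 4) -
      a2 s * ((q s ^ 3 + 2 * q s * f s) * (b2 s * E s) ^ 4 +
        4 * t s * (q s ^ 2 + f s) * (b2 s * E s) ^ 3 +
        6 * t s ^ 2 * q s * (b2 s * E s) ^ 2 + 4 * t s ^ 3 * (b2 s * E s)) := by
    refine (hb2.mul ((((((hq.pow 2).add hf).mul hf).mul (pbE.pow 4)).add
      (((((hc 4).mul pt).mul hq).mul hf).mul (pbE.pow 3))).add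
      ((((hc 6).mul (pt.pow 2)).mul hf).mul (pbE.pow 2)) |>.add (pt.pow 4))).sub
      (ha2.mul (((((hq.pow 3).add (((hc 2).mul hq).mul hf)).mul (pbE.pow 4)).add
      ((((hc 4).mul pt).mul ((hq.pow 2).add hf)).mul (pbE.pow 3))).add
      ((((hc 6).mul (pt.pow 2)).mul hq).mul (pbE.pow 2)) |>.add
      (((hc 4).mul (pt.pow 3)).mul pbE)))
  have f1 : {s : k | b2 s = 0}.Finite := hb2.finite (s₁ := 1) (by simp [vb2])
  have f2 : {s : k | D s = 0}.Finite := pD.finite (s₁ := 1) (by simp [vD])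
  have f3 : {s : k | E s = 0}.Finite := pE.finite (s₁ := 1) (by simp [vE])
  have f4 := p4.finite (s₁ := 1) (by simp [vf, vq, vb2, vE, vt])
  have f5 := p5.finite (s₁ := 1) (by simp [vf, vq, vb2, vE, vt, va2])
  refine ⟨_, (((f1.union f2).union f3).union f4).union f5, fun s hs => ?_⟩
  simp only [Set.mem_union, not_or, Set.mem_ofPred_eq] at hs
  obtain ⟨⟨⟨⟨h1, h2⟩, h3⟩, h4⟩, h5⟩ := hs
  exact ⟨D s, E s, t s, h1, h2, h3, by rw [hD], by rw [hE], by rw [ht], h4, h5⟩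

/-- generic parameters, `(6, 4, 1, 1)` -/
theorem gen64 {f q a0 b0 a2 b2 : k → k} (hf : D7.IsPoly f) (hq : D7.IsPoly q)
    (ha0 : D7.IsPoly a0) (hb0 : D7.IsPoly b0) (ha2 : D7.IsPoly a2) (hb2 : D7.IsPoly b2)
    (vf : f 1 = 1) (vq : q 1 = 0) (va0 : a0 1 = 1) (vb0 : b0 1 = 1) (va2 : a2 1 = 0)
    (vb2 : b2 1 = 1) : ∃ F : Set k, F.Finite ∧ ∀ s ∉ F, ∃ D E t, b2 s ≠ 0 ∧ D ≠ 0 ∧ E ≠ 0 ∧
      D = f s * b2 s ^ 2 - q s * a2 s * b2 s ∧ E = a0 s * b2 s - b0 s * a2 s ∧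
      t = D * b0 s - b2 s * q s * E ∧ t ≠ 0 ∧ q s * (b2 s * E) + t ≠ 0 := by
  obtain ⟨D, hD⟩ : ∃ D : k → k, D = fun s => f s * b2 s ^ 2 - q s * a2 s * b2 s := ⟨_, rfl⟩
  have pD : D7.IsPoly D := by
    rw [hD]
    exact (hf.mul (hb2.pow 2)).sub ((hq.mul ha2).mul hb2)
  have vD : D 1 = 1 := by
    rw [hD]
    simp [vf, vb2, vq, va2]
  obtain ⟨E, hE⟩ : ∃ E : k → k, E = fun s => a0 s * b2 s - b0 s * a2 s := ⟨_, rfl⟩
  have pE : D7.IsPoly E := by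
    rw [hE]
    exact (ha0.mul hb2).sub (hb0.mul ha2)
  have vE : E 1 = 1 := by
    rw [hE]
    simp [va0, vb2, va2]
  obtain ⟨t, ht⟩ : ∃ t : k → k, t = fun s => D s * b0 s - b2 s * q s * E s := ⟨_, rfl⟩
  have pt : D7.IsPoly t := by
    rw [ht]
    exact (pD.mul hb0).sub ((hb2.mul hq).mul pE)
  have vt : t 1 = 1 := by
    rw [ht]
    simp [vD, vb0, vq]
  have p4 : D7.IsPoly fun s => q s * (b2 s * E s) + t s := (hq.mul (hb2.mul pE)).add pt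
  have f1 : {s : k | b2 s = 0}.Finite := hb2.finite (s₁ := 1) (by simp [vb2])
  have f2 : {s : k | D s = 0}.Finite := pD.finite (s₁ := 1) (by simp [vD])
  have f3 : {s : k | E s = 0}.Finite := pE.finite (s₁ := 1) (by simp [vE])
  have f4 : {s : k | t s = 0}.Finite := pt.finite (s₁ := 1) (by simp [vt])
  have f5 := p4.finite (s₁ := 1) (by simp [vq, vb2, vE, vt])
  refine ⟨_, (((f1.union f2).union f3).union f4).union f5, fun s hs => ?_⟩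
  simp only [Set.mem_union, not_or, Set.mem_ofPred_eq] at hs
  obtain ⟨⟨⟨⟨h1, h2⟩, h3⟩, h4⟩, h5⟩ := hs
  exact ⟨D s, E s, t s, h1, h2, h3, by rw [hD], by rw [hE], by rw [ht], h4, h5⟩

/-- the line from `a` to `b` -/
theorem isPoly_ln (a b : k) : D7.IsPoly fun s : k => a + s * (b - a) :=
  (D7.IsPoly.const _).add (D7.IsPoly.id.mul (D7.IsPoly.const _))

/-- **case I of `(5, 4, 1, 1)`**, `b_0 = 0` -/
theorem caseI54 [Infinite k] (hρ : ∀ i, ρ i = (JL k 5 4 2 ^ i).rank) {b q : ℕ → k}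
    {pi th et o th' et' : Fin 2 → k} (hT : MaxR ρ ![JL k 5 4 2, YL 5 4 2 b q pi th et,
      ZL 5 4 2 (th ⬝ᵥ o) (et ⬝ᵥ o) o th' et'])
    (hb : b 0 = 0) (h1 : th' ⬝ᵥ pi = 0) (h2 : et' ⬝ᵥ pi = 0)
    (hind : pi 0 * o 1 - pi 1 * o 0 ≠ 0) : False := by
  have hρ5 : ρ 5 = 0 := by
    rw [hρ, JL_pow (by norm_num) (by norm_num), Matrix.rank_zero]
  obtain ⟨F0, F1, h00, h01, h10, h11, hF⟩ := dual2 hind
  have e1 := hF th'
  have e2 := hF et'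
  rw [h1, zero_smul, zero_add] at e1
  rw [h2, zero_smul, zero_add] at e2
  obtain ⟨a2, ha2⟩ : ∃ a2, a2 = th' ⬝ᵥ o := ⟨_, rfl⟩
  obtain ⟨b2, hb2⟩ : ∃ b2, b2 = et' ⬝ᵥ o := ⟨_, rfl⟩
  rw [← ha2] at e1
  rw [← hb2] at e2
  obtain ⟨F, hFf, hF2⟩ := gen54 (isPoly_ln (b 1) 1) (isPoly_ln (q 1) 0) (isPoly_ln (th ⬝ᵥ pi) 1)
    (isPoly_ln (et ⬝ᵥ pi) 0) (isPoly_ln a2 0) (isPoly_ln b2 1) (by ring) (by ring) (by ring)
    (by ring) (by ring) (by ring)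
  obtain ⟨s, hs, hM⟩ := nf_move (by norm_num) (by norm_num) hT (fun i => if i = 1 then 1 - b 1 else 0)
    (fun i => if i = 1 then 0 - q 1 else 0) ((1 - th ⬝ᵥ pi) • F0) ((0 - et ⬝ᵥ pi) • F0)
    ((0 - a2) • F1) ((1 - b2) • F1) (fun s => by
      simp [hb, h1, h10]) (fun s => by simp [h2, h10]) (fun s => Or.inl (by simp [hb])) hFf
  obtain ⟨D, E, t, g1, g2, g3, g4, g5, g6, g7, g8⟩ := hF2 s hs
  obtain ⟨bs, hbs⟩ : ∃ bs, bs = b + s • (fun i => if i = 1 then 1 - b 1 else 0 : ℕ → k) := ⟨_, rfl⟩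
  obtain ⟨qs, hqs⟩ : ∃ qs, qs = q + s • (fun i => if i = 1 then 0 - q 1 else 0 : ℕ → k) := ⟨_, rfl⟩
  obtain ⟨ths, hths⟩ : ∃ ths, ths = th + s • ((1 - th ⬝ᵥ pi) • F0) := ⟨_, rfl⟩
  obtain ⟨ets, hets⟩ : ∃ ets, ets = et + s • ((0 - et ⬝ᵥ pi) • F0) := ⟨_, rfl⟩
  obtain ⟨A2, hA2⟩ : ∃ A2, A2 = a2 + s * (0 - a2) := ⟨_, rfl⟩
  obtain ⟨B2, hB2⟩ : ∃ B2, B2 = b2 + s * (1 - b2) := ⟨_, rfl⟩
  have k1 : th' + s • ((0 - a2) • F1) = A2 • F1 := by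
    conv_lhs => rw [e1]
    rw [hA2, smul_smul, ← add_smul]
  have k2 : et' + s • ((1 - b2) • F1) = B2 • F1 := by
    conv_lhs => rw [e2]
    rw [hB2, smul_smul, ← add_smul]
  have k3 : bs 1 = b 1 + s * (1 - b 1) := by simp [hbs]
  have k4 : qs 1 = q 1 + s * (0 - q 1) := by simp [hqs]
  have k5 : ths ⬝ᵥ pi = th ⬝ᵥ pi + s * (1 - th ⬝ᵥ pi) := by
    rw [hths, add_dotProduct, smul_dotProduct, smul_dotProduct, h00]
    simp
  have k6 : ets ⬝ᵥ pi = et ⬝ᵥ pi + s * (0 - et ⬝ᵥ pi) := by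
    rw [hets, add_dotProduct, smul_dotProduct, smul_dotProduct, h00]
    simp
  have k7 : bs 0 = 0 := by simp [hbs, hb]
  rw [k1, k2, ← hbs, ← hqs, ← hths, ← hets] at hM
  rw [← k3, ← k4, ← hA2, ← hB2] at g4
  rw [← k5, ← k6, ← hA2, ← hB2] at g5
  rw [← k6, ← hA2, ← hB2, ← k4] at g6
  rw [← k3, ← k4, ← hB2] at g7
  rw [← k3, ← k4, ← hA2, ← hB2] at g8
  rw [← hB2] at g1
  obtain ⟨γ, hγ⟩ : ∃ γ, γ * E = -D := ⟨_, div_mul_cancel₀ _ g3⟩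
  obtain ⟨τ, hτ⟩ : ∃ τ, B2 * τ = -(γ * (ets ⬝ᵥ pi) + A2 + B2 * qs 1) := ⟨_, mul_div_cancel₀ _ g1⟩
  obtain ⟨κ, hκ⟩ : ∃ κ, κ * D = B2 * (ths ⬝ᵥ o) - A2 * (ets ⬝ᵥ o) := ⟨_, div_mul_cancel₀ _ g2⟩
  have hγ0 : γ ≠ 0 := by
    rintro rfl
    rw [zero_mul] at hγ
    exact g2 (neg_eq_zero.1 hγ.symm)
  have ht : t = τ * (B2 * E) := by
    linear_combination g6 - E * hτ + (ets ⬝ᵥ pi) * hγ
  refine raise54 hρ5 hM k7 h00 h01 h10 h11 g1 hγ0 (τ := τ) (κ := κ) ?_ ?_ ?_ ?_ ?_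
  · refine (mul_eq_zero.1 (?_ : B2 * (γ * (ths ⬝ᵥ pi) + B2 * bs 1 + τ * A2) = 0)).resolve_left g1
    linear_combination A2 * hτ + hγ - g4 - γ * g5
  · linear_combination hτ
  · linear_combination κ * g4 - hκ
  · intro h
    apply g7
    rw [ht]
    linear_combination (B2 * E) ^ 2 * h
  · intro h
    apply g8
    rw [ht]
    linear_combination (B2 * E) ^ 4 * h

/-- **case I of `(6, 4, 1, 1)`**, `b_0 = 0` -/
theorem caseI64 [Infinite k] (hρ : ∀ i, ρ i = (JL k 6 4 2 ^ i).rank) {b q : ℕ → k}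
    {pi th et o th' et' : Fin 2 → k} (hT : MaxR ρ ![JL k 6 4 2, YL 6 4 2 b q pi th et,
      ZL 6 4 2 (th ⬝ᵥ o) (et ⬝ᵥ o) o th' et'])
    (hb : b 0 = 0) (h1 : th' ⬝ᵥ pi = 0) (h2 : et' ⬝ᵥ pi = 0)
    (hind : pi 0 * o 1 - pi 1 * o 0 ≠ 0) : False := by
  have hρ5 : ρ 6 = 0 := by
    rw [hρ, JL_pow (by norm_num) (by norm_num), Matrix.rank_zero]
  obtain ⟨F0, F1, h00, h01, h10, h11, hF⟩ := dual2 hind
  have e1 := hF th'
  have e2 := hF et'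
  rw [h1, zero_smul, zero_add] at e1
  rw [h2, zero_smul, zero_add] at e2
  obtain ⟨a2, ha2⟩ : ∃ a2, a2 = th' ⬝ᵥ o := ⟨_, rfl⟩
  obtain ⟨b2, hb2⟩ : ∃ b2, b2 = et' ⬝ᵥ o := ⟨_, rfl⟩
  rw [← ha2] at e1
  rw [← hb2] at e2
  obtain ⟨F, hFf, hF2⟩ := gen64 (isPoly_ln (b 1) 1) (isPoly_ln (q 1) 0) (isPoly_ln (th ⬝ᵥ pi) 1)
    (isPoly_ln (et ⬝ᵥ pi) 1) (isPoly_ln a2 0) (isPoly_ln b2 1) (by ring) (by ring) (by ring)
    (by ring) (by ring) (by ring)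
  obtain ⟨s, hs, hM⟩ := nf_move (by norm_num) (by norm_num) hT (fun i => if i = 1 then 1 - b 1 else 0)
    (fun i => if i = 1 then 0 - q 1 else 0) ((1 - th ⬝ᵥ pi) • F0) ((1 - et ⬝ᵥ pi) • F0)
    ((0 - a2) • F1) ((1 - b2) • F1) (fun s => by
      simp [hb, h1, h10]) (fun s => by simp [h2, h10]) (fun s => Or.inl (by simp [hb])) hFf
  obtain ⟨D, E, t, g1, g2, g3, g4, g5, g6, g7, g8⟩ := hF2 s hs
  obtain ⟨bs, hbs⟩ : ∃ bs, bs = b + s • (fun i => if i = 1 then 1 - b 1 else 0 : ℕ → k) := ⟨_, rfl⟩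
  obtain ⟨qs, hqs⟩ : ∃ qs, qs = q + s • (fun i => if i = 1 then 0 - q 1 else 0 : ℕ → k) := ⟨_, rfl⟩
  obtain ⟨ths, hths⟩ : ∃ ths, ths = th + s • ((1 - th ⬝ᵥ pi) • F0) := ⟨_, rfl⟩
  obtain ⟨ets, hets⟩ : ∃ ets, ets = et + s • ((1 - et ⬝ᵥ pi) • F0) := ⟨_, rfl⟩
  obtain ⟨A2, hA2⟩ : ∃ A2, A2 = a2 + s * (0 - a2) := ⟨_, rfl⟩
  obtain ⟨B2, hB2⟩ : ∃ B2, B2 = b2 + s * (1 - b2) := ⟨_, rfl⟩
  have k1 : th' + s • ((0 - a2) • F1) = A2 • F1 := by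
    conv_lhs => rw [e1]
    rw [hA2, smul_smul, ← add_smul]
  have k2 : et' + s • ((1 - b2) • F1) = B2 • F1 := by
    conv_lhs => rw [e2]
    rw [hB2, smul_smul, ← add_smul]
  have k3 : bs 1 = b 1 + s * (1 - b 1) := by simp [hbs]
  have k4 : qs 1 = q 1 + s * (0 - q 1) := by simp [hqs]
  have k5 : ths ⬝ᵥ pi = th ⬝ᵥ pi + s * (1 - th ⬝ᵥ pi) := by
    rw [hths, add_dotProduct, smul_dotProduct, smul_dotProduct, h00]
    simp
  have k6 : ets ⬝ᵥ pi = et ⬝ᵥ pi + s * (1 - et ⬝ᵥ pi) := by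
    rw [hets, add_dotProduct, smul_dotProduct, smul_dotProduct, h00]
    simp
  have k7 : bs 0 = 0 := by simp [hbs, hb]
  rw [k1, k2, ← hbs, ← hqs, ← hths, ← hets] at hM
  rw [← k3, ← k4, ← hA2, ← hB2] at g4
  rw [← k5, ← k6, ← hA2, ← hB2] at g5
  rw [← k6, ← hB2, ← k4] at g6
  rw [← k4, ← hB2] at g8
  rw [← hB2] at g1
  obtain ⟨γ, hγ⟩ : ∃ γ, γ * E = -D := ⟨_, div_mul_cancel₀ _ g3⟩
  obtain ⟨τ, hτ⟩ : ∃ τ, B2 * τ = -(γ * (ets ⬝ᵥ pi) + B2 * qs 1) := ⟨_, mul_div_cancel₀ _ g1⟩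
  obtain ⟨κ, hκ⟩ : ∃ κ, κ * D = B2 * (ths ⬝ᵥ o) - A2 * (ets ⬝ᵥ o) := ⟨_, div_mul_cancel₀ _ g2⟩
  have hγ0 : γ ≠ 0 := by
    rintro rfl
    rw [zero_mul] at hγ
    exact g2 (neg_eq_zero.1 hγ.symm)
  have ht : t = τ * (B2 * E) := by
    linear_combination g6 - E * hτ + (ets ⬝ᵥ pi) * hγ
  refine raise64 hρ5 hM k7 h00 h01 h10 h11 g1 hγ0 (τ := τ) (κ := κ) ?_ ?_ ?_ ?_ ?_
  · refine (mul_eq_zero.1 (?_ : B2 * (γ * (ths ⬝ᵥ pi) + B2 * bs 1 + τ * A2) = 0)).resolve_left g1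
    linear_combination A2 * hτ + hγ - g4 - γ * g5
  · linear_combination hτ
  · linear_combination κ * g4 - hκ
  · rintro rfl
    apply g7
    rw [ht, zero_mul]
  · intro h
    apply g8
    rw [ht]
    linear_combination (B2 * E) * h

/-- `b_0 = 0` for `(5, 4, 1^p)` -/
theorem b0_54 {p : ℕ} [Infinite k] (hρ : ∀ i, ρ i = (JL k 5 4 p ^ i).rank) {b q : ℕ → k}
    {pi th et : Fin p → k} {Z : Matrix (IL 5 4 p) (IL 5 4 p) k}
    (hT : MaxR ρ ![JL k 5 4 p, YL 5 4 p b q pi th et, Z]) : b 0 = 0 := by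
  have hρ5 : ρ 5 = 0 := by
    rw [hρ, JL_pow (by norm_num) (by norm_num), Matrix.rank_zero]
  have h5 := hT.pow_eq_zero (D8.mem1 _ _ _) hρ5
  have v5 : (vv 5 : IL 5 4 p → k) = 0 := vv_ge le_rfl
  have v6 : (vv 6 : IL 5 4 p → k) = 0 := vv_ge (by norm_num)
  have v7 : (vv 7 : IL 5 4 p → k) = 0 := vv_ge (by norm_num)
  have u4 : (uu 4 : IL 5 4 p → k) = 0 := uu_ge le_rfl
  have u5 : (uu 5 : IL 5 4 p → k) = 0 := uu_ge (by norm_num)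
  have u6 : (uu 6 : IL 5 4 p → k) = 0 := uu_ge (by norm_num)
  obtain ⟨Y, hY⟩ : ∃ Y, Y = YL 5 4 p b q pi th et := ⟨_, rfl⟩
  have Yv : ∀ j, Y *ᵥ vv j = uu j := by
    rw [hY]
    exact YL_vv _ _ _ _ _ (by norm_num) (by norm_num)
  have Yu : ∀ j, Y *ᵥ uu j = b 0 • vv (1 + j) + b 1 • vv (2 + j) + b 2 • vv (3 + j) +
      b 3 • vv (4 + j) + q 1 • uu (1 + j) + q 2 • uu (2 + j) + q 3 • uu (3 + j) +
      if j = 0 then pp pi else 0 := by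
    intro j
    rw [hY, YL_uu _ _ _ _ _ (by norm_num) (by norm_num)]
    simp only [Finset.sum_range_succ, Finset.sum_range_zero, zero_smul, zero_add, if_true]
    norm_num
    rw [show 1 + j + 1 = 2 + j by ring, show 1 + j + 2 = 3 + j by ring, show 1 + j + 3 = 4 + j by ring,
      show j + 1 = 1 + j by ring, show j + 2 = 2 + j by ring, show j + 3 = 3 + j by ring]
    abel
  have Yp : ∀ e, Y *ᵥ pp e = (th ⬝ᵥ e) • vv 4 + (et ⬝ᵥ e) • uu 3 := by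
    rw [hY]
    exact YL_pp _ _ _ _ _ (by norm_num) (by norm_num)
  rw [← hY] at h5
  obtain ⟨G, hG⟩ : ∃ G : IL 5 4 p → k, G = fn 0 (fun j => if j = 2 then 1 else 0) 0 := ⟨_, rfl⟩
  have Gv : ∀ j, G ⬝ᵥ vv j = 0 := by
    intro j
    rw [hG, fn_vv]
    simp
  have Gu : ∀ j, G ⬝ᵥ uu j = if j = 2 then 1 else 0 := by
    intro j
    rw [hG, fn_uu]
    split_ifs <;> first | rfl | omega
  have c2 : Y *ᵥ (Y *ᵥ vv 0) = b 0 • vv 1 + b 1 • vv 2 + b 2 • vv 3 + b 3 • vv 4 +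
      q 1 • uu 1 + q 2 • uu 2 + q 3 • uu 3 + pp pi := by
    rw [Yv, Yu, if_pos rfl]
  have k8 : Y ^ 5 *ᵥ vv 0 = Y *ᵥ (Y *ᵥ (Y *ᵥ (Y *ᵥ (Y *ᵥ vv 0)))) := by
    simp only [mulVec_mulVec, pow_succ, pow_zero, one_mul, Matrix.mul_assoc]
  rw [h5, zero_mulVec, c2] at k8
  have k9 := congrArg (fun w => G ⬝ᵥ w) k8
  simp only [mulVec_add, mulVec_smul, Yv, Yu, Yp, smul_zero, add_zero, zero_add, mulVec_zero,
    Nat.reduceAdd, OfNat.ofNat_ne_zero, one_ne_zero, if_false, v5, v6, v7, u4, u5, u6,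
    dotProduct_add, dotProduct_smul, Gv, Gu, smul_eq_mul, dotProduct_zero, mul_zero] at k9
  simp at k9
  exact k9

end Pool.Agent.Lib.D13.LM
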