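import Pool.Agent.Lib.D13.LMK
import Pool.Agent.Lib.D13.LMA
import Pool.Agent.Lib.D13.Ext

/-!
# MP_5dcbc3_ag: the type `(l, 3, 1, 1)`, `l ≥ 4`, case I, `b_0 = 0`, `o` and `pi` independent
-/

namespace Pool.Agent.Lib.D13.LM

open Matrix Pool.Agent.Lib.Q5dc Pool.Agent.Lib.D7

variable {k : Type*} [Field k] {r : ℕ} {ρ : ℕ → ℕ}

namespace LMEAux

theorem Y3_uu {p : ℕ} (b q : ℕ → k) (pi th et : Fin p → k) (j : ℕ) :
    YL (r + 4) 3 p b q pi th et *ᵥ uu j = b 0 • vv (r + 1 + j) + b 1 • vv (r + 2 + j) +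
      b 2 • vv (r + 3 + j) + q 1 • uu (j + 1) + q 2 • uu (j + 2) + if j = 0 then pp pi else 0 := by
  rw [YL_uu _ _ _ _ _ (by omega) (by omega)]
  simp only [Finset.sum_range_succ, Finset.sum_range_zero, zero_add, if_true, zero_smul,
    one_ne_zero, OfNat.ofNat_ne_zero, if_false]
  rw [show r + 4 - 3 + j + 0 = r + 1 + j by omega, show r + 4 - 3 + j + 1 = r + 2 + j by omega,
    show r + 4 - 3 + j + 2 = r + 3 + j by omega]
  abel

/-- the data of the raise -/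
theorem ext_core [Infinite k] (hρ : ∀ i, ρ i = (JL k (r + 4) 3 2 ^ i).rank)
    {b q : ℕ → k} {pi th et o th' et' : Fin 2 → k}
    (hT : MaxR ρ ![JL k (r + 4) 3 2, YL (r + 4) 3 2 b q pi th et,
      ZL (r + 4) 3 2 (th ⬝ᵥ o) (et ⬝ᵥ o) o th' et'])
    (hb : b 0 = 0) (h1 : th' ⬝ᵥ pi = 0) (h2 : et' ⬝ᵥ pi = 0)
    {α β θ η c τ g₂ H V HP ε : k} {lam : Fin 2 → k}
    (l1 : lam ⬝ᵥ o = 0) (l2 : lam ⬝ᵥ pi = 1)
    (hprop : ∀ f, β * (th' ⬝ᵥ f) = α * (et' ⬝ᵥ f))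
    (hα : th' ⬝ᵥ o = α) (hβ : et' ⬝ᵥ o = β) (hθ : th ⬝ᵥ pi = θ) (hη : et ⬝ᵥ pi = η)
    (hc1 : th ⬝ᵥ o = -(c * α)) (hc2 : et ⬝ᵥ o = -(c * β)) (hβ0 : β ≠ 0) (hτ : τ ≠ 0)
    (hε : ε = if r = 0 then 1 else 0)
    (e1 : β * b 1 + g₂ * θ + τ * α = 0) (e2 : β * q 1 + g₂ * η + τ * β + ε * α = 0)
    (hV : τ * V = β - ε * H) (hHP : HP = -α - b 1 * V - (q 1 + τ) * H)
    (hH : β * H + g₂ * HP + α * V = 0)
    (hgen : r = 0 → β * (τ ^ 3 + 3 * τ * b 1 + q 1 * b 1 + θ) -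
      α * (3 * τ ^ 2 + 3 * τ * q 1 + q 1 ^ 2 + b 1 + η) ≠ 0) : False := by
  set Y := YL (r + 4) 3 2 b q pi th et with hY
  set Z := ZL (r + 4) 3 2 (th ⬝ᵥ o) (et ⬝ᵥ o) o th' et' with hZ
  set J := JL k (r + 4) 3 2 with hJ
  obtain ⟨A, hA⟩ : ∃ A, A = Y + c • Z + τ • J := ⟨_, rfl⟩
  have hN : MaxR ρ ![J, A, Z] := by
    refine D8.MaxR.change3 hT ?_ (D8.mem2 _ _ _) ?_ (D8.mem2 _ _ _)
    · rw [hA]
      exact add_mem (add_mem (D8.mem1 _ _ _) (SMulMemClass.smul_mem _ (D8.mem2 _ _ _)))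
        (SMulMemClass.smul_mem _ (D8.mem0 _ _ _))
    · have h5 : Y = A - c • Z - τ • J := by rw [hA]; abel
      rw [h5]
      exact sub_mem (sub_mem (D8.mem1 _ _ _) (SMulMemClass.smul_mem _ (D8.mem2 _ _ _)))
        (SMulMemClass.smul_mem _ (D8.mem0 _ _ _))
  have Jv : ∀ j, J *ᵥ vv j = vv (j + 1) := fun j => JL_vv j
  have Ju : ∀ j, J *ᵥ uu j = uu (j + 1) := fun j => JL_uu j
  have Jp : ∀ f, J *ᵥ pp f = 0 := fun f => JL_pp f
  have Yv : ∀ j, Y *ᵥ vv j = uu j := fun j => YL_vv _ _ _ _ _ (by omega) (by omega) j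
  have Yp : ∀ f, Y *ᵥ pp f = (th ⬝ᵥ f) • vv (r + 3) + (et ⬝ᵥ f) • uu 2 :=
    fun f => YL_pp _ _ _ _ _ (by omega) (by omega) f
  have Zv0 : Z *ᵥ vv 0 = pp o := by
    rw [hZ, ZL_vv _ _ _ _ _ (by omega) (by omega), if_pos rfl]
  have Zv : ∀ j, Z *ᵥ vv (j + 1) = 0 := fun j =>
    ZL_vv_pos _ _ _ _ _ (by omega) (by omega) (by omega)
  have Zu0 : Z *ᵥ uu 0 = -(c * α) • vv (r + 3) + -(c * β) • uu 2 := by
    rw [hZ, ZL_uu _ _ _ _ _ (by omega) (by omega), if_pos rfl, hc1, hc2]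
    rfl
  have Zu : ∀ j, Z *ᵥ uu (j + 1) = 0 := fun j =>
    ZL_uu_pos _ _ _ _ _ (by omega) (by omega) (by omega)
  have Zp : ∀ f, Z *ᵥ pp f = (th' ⬝ᵥ f) • vv (r + 3) + (et' ⬝ᵥ f) • uu 2 :=
    fun f => ZL_pp _ _ _ _ _ (by omega) (by omega) f
  have v4 : (vv (r + 4) : IL (r + 4) 3 2 → k) = 0 := vv_ge le_rfl
  have u3 : ∀ j, (uu (j + 3) : IL (r + 4) 3 2 → k) = 0 := fun j => uu_ge (by omega)
  have Yu0 : Y *ᵥ uu 0 = b 1 • vv (r + 2) + b 2 • vv (r + 3) + q 1 • uu 1 + q 2 • uu 2 + pp pi := by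
    rw [hY, Y3_uu, hb, if_pos rfl, zero_smul, zero_add]
  have Yu1 : Y *ᵥ uu 1 = b 1 • vv (r + 3) + q 1 • uu 2 := by
    rw [hY, Y3_uu, hb, if_neg one_ne_zero, zero_smul, zero_add, add_zero,
      show r + 3 + 1 = r + 4 from rfl, v4, show 1 + 2 = 0 + 3 from rfl, u3, smul_zero, smul_zero,
      add_zero, add_zero]
  have Yu2 : Y *ᵥ uu 2 = 0 := by
    rw [hY, YL_uu_top _ _ _ _ _ (by omega) (by omega), hb, zero_smul]
  have Yw : Y *ᵥ vv (r + 3) = 0 := by rw [Yv, u3]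
  have Zw : Z *ᵥ vv (r + 3) = 0 := Zv _
  have Zu2 : Z *ᵥ uu 2 = 0 := Zu _
  have Av0 : A *ᵥ vv 0 = uu 0 + c • pp o + τ • vv 1 := by
    rw [hA, add_mulVec, add_mulVec, smul_mulVec, smul_mulVec, Yv, Zv0, Jv]
  have Avj : ∀ j, A *ᵥ vv (j + 1) = uu (j + 1) + τ • vv (j + 2) := by
    intro j
    rw [hA, add_mulVec, add_mulVec, smul_mulVec, smul_mulVec, Yv, Zv, Jv, smul_zero, add_zero]
  have Au0 : A *ᵥ uu 0 = b 1 • vv (r + 2) + (b 2 - c * (c * α)) • vv (r + 3) + (q 1 + τ) • uu 1 +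
      (q 2 - c * (c * β)) • uu 2 + pp pi := by
    rw [hA, add_mulVec, add_mulVec, smul_mulVec, smul_mulVec, Yu0, Zu0, Ju]
    module
  have Au1 : A *ᵥ uu 1 = b 1 • vv (r + 3) + (q 1 + τ) • uu 2 := by
    rw [hA, add_mulVec, add_mulVec, smul_mulVec, smul_mulVec, Yu1, Ju,
      show Z *ᵥ uu 1 = 0 from Zu 0, smul_zero, add_zero, add_smul, add_assoc]
  have Au2 : A *ᵥ uu 2 = 0 := by
    rw [hA, add_mulVec, add_mulVec, smul_mulVec, smul_mulVec, Yu2, Zu2, Ju,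
      show (uu (2 + 1) : IL (r + 4) 3 2 → k) = 0 from u3 0, smul_zero, smul_zero, add_zero, add_zero]
  have Aw : A *ᵥ vv (r + 3) = 0 := by
    rw [hA, add_mulVec, add_mulVec, smul_mulVec, smul_mulVec, Yw, Zw, Jv,
      show (vv (r + 3 + 1) : IL (r + 4) 3 2 → k) = 0 from v4, smul_zero, smul_zero, add_zero,
      add_zero]
  have Ap : ∀ f, A *ᵥ pp f = (th ⬝ᵥ f + c * (th' ⬝ᵥ f)) • vv (r + 3) +
      (et ⬝ᵥ f + c * (et' ⬝ᵥ f)) • uu 2 := by
    intro f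
    rw [hA, add_mulVec, add_mulVec, smul_mulVec, smul_mulVec, Yp, Zp, Jp]
    simp only [smul_add, smul_smul, add_smul, smul_zero, add_zero]
    abel
  have uε : (uu (r + 2) : IL (r + 4) 3 2 → k) = ε • uu 2 := by
    rw [hε]
    split_ifs with h
    · rw [h, one_smul]
    · obtain ⟨s, rfl⟩ : ∃ s, r = s + 1 := ⟨r - 1, by omega⟩
      rw [zero_smul]
      exact u3 _
  obtain ⟨w, hw⟩ : ∃ w : IL (r + 4) 3 2 → k, w = α • vv (r + 3) + β • uu 2 := ⟨_, rfl⟩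
  obtain ⟨g, hg⟩ : ∃ g : IL (r + 4) 3 2 → k, g = β • uu 1 + g₂ • pp pi + α • vv (r + 2) := ⟨_, rfl⟩
  obtain ⟨G, hG⟩ : ∃ G : IL (r + 4) 3 2 → k, G = fn (fun j => if j = r + 3 then β else 0)
    (fun j => if j = 2 then -α else 0) 0 := ⟨_, rfl⟩
  obtain ⟨h, hh⟩ : ∃ h : IL (r + 4) 3 2 → k, h = fn (fun j => (if j = r + 2 then β * τ⁻¹ else 0) +
    (if j = 2 then -(H * τ⁻¹) else 0)) (fun j => if j = 1 then H else 0) (HP • lam) := ⟨_, rfl⟩
  have Gv : ∀ j, G ⬝ᵥ vv j = if j = r + 3 then β else 0 := by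
    intro j
    rw [hG, fn_vv]
    split_ifs <;> first | rfl | omega
  have Gu : ∀ j, G ⬝ᵥ uu j = if j = 2 then -α else 0 := by
    intro j
    rw [hG, fn_uu]
    split_ifs <;> first | rfl | omega
  have Gp : ∀ f, G ⬝ᵥ pp f = 0 := by
    intro f
    rw [hG, fn_pp, zero_dotProduct]
  have hv : ∀ j, h ⬝ᵥ vv j = (if j = r + 2 then β * τ⁻¹ else 0) +
      (if j = 2 then -(H * τ⁻¹) else 0) := by
    intro j
    rw [hh, fn_vv]
    split_ifs <;> first | rfl | omega | simp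
  have hu : ∀ j, h ⬝ᵥ uu j = if j = 1 then H else 0 := by
    intro j
    rw [hh, fn_uu]
    split_ifs <;> first | rfl | omega
  have hp : ∀ f, h ⬝ᵥ pp f = HP * (lam ⬝ᵥ f) := by
    intro f
    rw [hh, fn_pp, smul_dotProduct, smul_eq_mul]
  have hV' : h ⬝ᵥ vv (r + 2) = V := by
    have h5 : V = τ⁻¹ * (β - ε * H) := by
      rw [← hV, ← mul_assoc, inv_mul_cancel₀ hτ, one_mul]
    rw [hv, if_pos rfl, h5, hε]
    rcases Nat.eq_zero_or_pos r with h6 | h6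
    · rw [if_pos (by omega), if_pos h6]
      ring
    · rw [if_neg (by omega), if_neg (by omega)]
      ring
  have hv3 : h ⬝ᵥ vv (r + 3) = 0 := by
    rw [hv, if_neg (by omega), if_neg (by omega), add_zero]
  have hu2 : h ⬝ᵥ uu 2 = 0 := by rw [hu, if_neg (by omega)]
  have hu0 : h ⬝ᵥ uu 0 = 0 := by rw [hu, if_neg (by omega)]
  have hu1 : h ⬝ᵥ uu 1 = H := by rw [hu, if_pos rfl]
  have key := MaxR.ext hN (i := r + 3) (w := w) (g := g) (G := G) (h := h) ?_ ?_ ?_ ?_ ?_ ?_ ?_ ?_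
    ?_ ?_ ?_ ?_ ?_ (vv 0)
  · have A1 : A *ᵥ pp o = 0 := by
      rw [Ap, hα, hβ, hc1, hc2, neg_add_cancel, neg_add_cancel, zero_smul, zero_smul, add_zero]
    have A2 : (A ^ 3) *ᵥ vv 0 = τ ^ 3 • vv 3 + (3 * τ * b 1 + q 1 * b 1 + θ) • vv (r + 3) +
        (ε * b 1 + 3 * τ ^ 2 + 3 * τ * q 1 + q 1 ^ 2 + η) • uu 2 := by
      rw [pow_succ, pow_two, ← mulVec_mulVec, ← mulVec_mulVec, Av0]
      simp only [mulVec_add, mulVec_smul, A1, smul_zero, add_zero, Au0, Au1, Au2, Aw, Ap, h1, h2,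
        hθ, hη, show A *ᵥ vv 1 = uu 1 + τ • vv 2 from Avj 0,
        show A *ᵥ vv 2 = uu 2 + τ • vv 3 from Avj 1,
        show A *ᵥ vv (r + 2) = uu (r + 2) + τ • vv (r + 3) from Avj (r + 1), mul_zero]
      rw [uε]
      module
    rcases Nat.eq_zero_or_pos r with hr | hr
    · subst hr
      rw [if_pos rfl] at hε
      rw [show (0 + 3 : ℕ) = 3 from rfl] at key
      rw [A2, dotProduct_add, dotProduct_add, dotProduct_smul, dotProduct_smul, dotProduct_smul,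
        Gv, Gu, if_pos rfl, if_pos rfl, smul_eq_mul, smul_eq_mul, smul_eq_mul] at key
      refine hgen rfl ?_
      rw [hε] at key
      linear_combination key
    · obtain ⟨s, rfl⟩ : ∃ s, r = s + 1 := ⟨r - 1, by omega⟩
      have A3 : (A ^ 4) *ᵥ vv 0 = τ ^ 4 • vv 4 := by
        rw [pow_succ', ← mulVec_mulVec, A2]
        simp only [mulVec_add, mulVec_smul, Au2, Aw, smul_zero, add_zero,
          show A *ᵥ vv 3 = uu 3 + τ • vv 4 from Avj 2]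
        rw [show (uu 3 : IL (s + 1 + 4) 3 2 → k) = 0 from u3 0]
        module
      have A4 : ∀ i, (A ^ (i + 4)) *ᵥ vv 0 = τ ^ (i + 4) • vv (i + 4) := by
        intro i
        induction i with
        | zero => exact A3
        | succ i ih =>
          rw [show i + 1 + 4 = i + 4 + 1 by omega, pow_succ', ← mulVec_mulVec, ih, mulVec_smul,
            show A *ᵥ vv (i + 4) = uu (i + 4) + τ • vv (i + 5) from Avj (i + 3),
            show (uu (i + 4) : IL (s + 1 + 4) 3 2 → k) = 0 from u3 (i + 1)]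
          module
      rw [show s + 1 + 3 = s + 4 by omega, A4, dotProduct_smul, Gv, if_pos (by omega),
        smul_eq_mul] at key
      exact mul_ne_zero (pow_ne_zero _ hτ) hβ0 key
  · rw [hρ, JL_pow (by omega) (by omega), rank_zero]
  · intro h5
    have h6 : (fn (fun _ => 0) (fun j => if j = 2 then 1 else 0) 0 : IL (r + 4) 3 2 → k) ⬝ᵥ w = β := by
      rw [hw, dotProduct_add, dotProduct_smul, dotProduct_smul, fn_vv, fn_uu]
      simp
    rw [h5, dotProduct_zero] at h6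
    exact hβ0 h6.symm
  · rw [hg, hw]
    simp only [mulVec_add, mulVec_smul, Ju, Jp, Jv, smul_zero, add_zero]
    exact add_comm _ _
  · rw [hw]
    simp only [mulVec_add, mulVec_smul, Ju, Jv]
    rw [show (vv (r + 3 + 1) : IL (r + 4) 3 2 → k) = 0 from v4,
      show (uu (2 + 1) : IL (r + 4) 3 2 → k) = 0 from u3 0, smul_zero, smul_zero, add_zero]
  · rw [hg]
    simp only [mulVec_add, mulVec_smul, Au1, Ap, Avj]
    rw [uε, h1, h2, hθ, hη]
    have h5 : β • (b 1 • vv (r + 3) + (q 1 + τ) • uu 2) +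
        g₂ • ((θ + c * 0) • vv (r + 3) + (η + c * 0) • uu 2) + α • (ε • uu 2 + τ • vv (r + 1 + 2)) =
        (β * b 1 + g₂ * θ + τ * α) • (vv (r + 3) : IL (r + 4) 3 2 → k) +
        (β * q 1 + g₂ * η + τ * β + ε * α) • uu 2 := by
      rw [show r + 1 + 2 = r + 3 from rfl]
      module
    rw [show (r + 2 : ℕ) = r + 1 + 1 from rfl] at *
    rw [h5, e1, e2, zero_smul, zero_smul, add_zero]
  · rw [hg]
    simp only [mulVec_add, mulVec_smul, Zp, h1, h2, zero_smul, add_zero, smul_zero]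
    rw [show Z *ᵥ uu 1 = 0 from Zu 0, show Z *ᵥ vv (r + 2) = 0 from Zv _, smul_zero, smul_zero,
      add_zero]
  · refine ext_fn (fun j _ => ?_) (fun j _ => ?_) fun f => ?_
    · rw [← dotProduct_mulVec, zero_dotProduct]
      cases j with
      | zero => rw [Zv0, Gp]
      | succ j => rw [Zv, dotProduct_zero]
    · rw [← dotProduct_mulVec, zero_dotProduct]
      cases j with
      | zero =>
        rw [Zu0, dotProduct_add, dotProduct_smul, dotProduct_smul, Gv, Gu, if_pos rfl, if_pos rfl,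
          smul_eq_mul, smul_eq_mul]
        ring
      | succ j => rw [Zu, dotProduct_zero]
    · rw [← dotProduct_mulVec, zero_dotProduct, Zp, dotProduct_add, dotProduct_smul,
        dotProduct_smul, Gv, Gu, if_pos rfl, if_pos rfl, smul_eq_mul, smul_eq_mul]
      linear_combination hprop f
  · refine ext_fn (fun j _ => ?_) (fun j _ => ?_) fun f => ?_
    · rw [← dotProduct_mulVec, zero_dotProduct]
      cases j with
      | zero => rw [Zv0, hp, l1, mul_zero]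
      | succ j => rw [Zv, dotProduct_zero]
    · rw [← dotProduct_mulVec, zero_dotProduct]
      cases j with
      | zero =>
        rw [Zu0, dotProduct_add, dotProduct_smul, dotProduct_smul, hv3, hu2, smul_zero, smul_zero,
          add_zero]
      | succ j => rw [Zu, dotProduct_zero]
    · rw [← dotProduct_mulVec, zero_dotProduct, Zp, dotProduct_add, dotProduct_smul,
        dotProduct_smul, hv3, hu2, smul_zero, smul_zero, add_zero]
  · refine ext_fn (fun j _ => ?_) (fun j _ => ?_) fun f => ?_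
    · rw [← dotProduct_mulVec, ← dotProduct_mulVec, ← mulVec_mulVec, Jv, Jv, Gv]
      cases j with
      | zero =>
        rw [Av0, dotProduct_add, dotProduct_add, dotProduct_smul, dotProduct_smul, hu0, hp, l1,
          hv, if_neg (by omega), if_neg (by omega), if_neg (by omega)]
        simp
      | succ j =>
        rw [Avj, dotProduct_add, dotProduct_smul, hu, hv, smul_eq_mul]
        have h5 : τ * (β * τ⁻¹) = β := by field_simp
        have h6 : τ * -(H * τ⁻¹) = -H := by field_simp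
        split_ifs <;> first
          | omega
          | simp only [mul_add, h5, h6, mul_zero, add_zero, zero_add, add_neg_cancel,
              add_neg_cancel_comm_assoc]
    · rw [← dotProduct_mulVec, ← dotProduct_mulVec, ← mulVec_mulVec, Ju, Ju, Gu]
      rcases (by omega : j = 0 ∨ j = 1 ∨ j = 2) with rfl | rfl | rfl
      · rw [Au0]
        simp only [dotProduct_add, dotProduct_smul, hV', hv3, hu1, hu2, hp, l2, smul_eq_mul, if_true]
        rw [hHP]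
        ring
      · rw [Au1, if_neg (by omega)]
        simp only [dotProduct_add, dotProduct_smul, hv3, hu2, smul_zero, add_zero]
      · rw [Au2, if_neg (by omega), dotProduct_zero]
    · rw [← dotProduct_mulVec, ← dotProduct_mulVec, ← mulVec_mulVec, Jp, mulVec_zero,
        dotProduct_zero, Ap, dotProduct_add, dotProduct_smul, dotProduct_smul, hv3, hu2, smul_zero,
        smul_zero, add_zero]
  · rw [hw, dotProduct_add, dotProduct_smul, dotProduct_smul, Gv, Gu, if_pos rfl, if_pos rfl,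
      smul_eq_mul, smul_eq_mul]
    ring
  · rw [hg, dotProduct_add, dotProduct_add, dotProduct_smul, dotProduct_smul, dotProduct_smul,
      Gv, Gu, Gp, if_neg (by omega), if_neg (by omega), smul_zero, smul_zero, smul_zero, add_zero,
      add_zero]
  · rw [hw, dotProduct_add, dotProduct_smul, dotProduct_smul, hv3, hu2, smul_zero, smul_zero,
      add_zero]
  · rw [hg, dotProduct_add, dotProduct_add, dotProduct_smul, dotProduct_smul, dotProduct_smul,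
      hu1, hp, l2, hV', smul_eq_mul, smul_eq_mul, smul_eq_mul, mul_one]
    exact hH

theorem finite_cubic {a3 a2 a1 a0 : k} (h : a3 ≠ 0) :
    {t : k | a3 * t ^ 3 + a2 * t ^ 2 + a1 * t + a0 = 0}.Finite := by
  have h1 : (Polynomial.C a3 * Polynomial.X ^ 3 + Polynomial.C a2 * Polynomial.X ^ 2 +
      Polynomial.C a1 * Polynomial.X + Polynomial.C a0 : Polynomial k) ≠ 0 := by
    intro h0
    have h2 := Polynomial.degree_cubic (b := a2) (c := a1) (d := a0) h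
    rw [h0, Polynomial.degree_zero] at h2
    exact absurd h2 (by decide)
  refine (Polynomial.finite_setOfPred_isRoot h1).subset fun t ht => ?_
  simpa [Polynomial.IsRoot] using ht

theorem prop_dot {pi o th' et' : Fin 2 → k} (h1 : th' ⬝ᵥ pi = 0) (h2 : et' ⬝ᵥ pi = 0)
    (hpi : pi ≠ 0) (f : Fin 2 → k) : (et' ⬝ᵥ o) * (th' ⬝ᵥ f) = (th' ⬝ᵥ o) * (et' ⬝ᵥ f) := by
  simp only [dotProduct, Fin.sum_univ_two] at h1 h2 ⊢
  have h3 : et' 0 * th' 1 - et' 1 * th' 0 = 0 := by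
    have e0 : (et' 0 * th' 1 - et' 1 * th' 0) * pi 0 = 0 := by
      linear_combination th' 1 * h2 - et' 1 * h1
    have e1 : (et' 0 * th' 1 - et' 1 * th' 0) * pi 1 = 0 := by
      linear_combination et' 0 * h1 - th' 0 * h2
    by_contra h4
    apply hpi
    funext i
    fin_cases i
    · exact (mul_eq_zero.1 e0).resolve_left h4
    · exact (mul_eq_zero.1 e1).resolve_left h4
  linear_combination (o 0 * f 1 - o 1 * f 0) * h3

end LMEAux

open LMAAux LMEAux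

/-- `Z` may be changed by a multiple of the element `PI` -/
theorem nf_shift {l m : ℕ} (h : m < l) (hm : 2 ≤ m) {b q : ℕ → k} {pi th et o th' et' : Fin 2 → k}
    (hT : MaxR ρ ![JL k l m 2, YL l m 2 b q pi th et, ZL l m 2 (th ⬝ᵥ o) (et ⬝ᵥ o) o th' et'])
    (hb : b 0 = 0) (c3 : k) : MaxR ρ ![JL k l m 2, YL l m 2 b q pi th et,
      ZL l m 2 (th ⬝ᵥ (o + c3 • pi)) (et ⬝ᵥ (o + c3 • pi)) (o + c3 • pi) th' et'] := by
  have hS : ∀ Z', c3 • PI l m 2 b q pi th et ∈ adj ![JL k l m 2, YL l m 2 b q pi th et, Z'] :=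
    fun Z' => SMulMemClass.smul_mem _ (PI_mem _ _ _ _ _ _)
  have hN : MaxR ρ ![JL k l m 2, YL l m 2 b q pi th et,
      ZL l m 2 (th ⬝ᵥ o) (et ⬝ᵥ o) o th' et' + c3 • PI l m 2 b q pi th et] := by
    refine D8.MaxR.change3 hT (D8.mem1 _ _ _) (add_mem (D8.mem2 _ _ _) (hS _))
      (D8.mem1 _ _ _) ?_
    have h5 := sub_mem (D8.mem2 (JL k l m 2) (YL l m 2 b q pi th et)
      (ZL l m 2 (th ⬝ᵥ o) (et ⬝ᵥ o) o th' et' + c3 • PI l m 2 b q pi th et)) (hS _)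
    rwa [add_sub_cancel_right] at h5
  have e : ZL l m 2 (th ⬝ᵥ o) (et ⬝ᵥ o) o th' et' + c3 • PI l m 2 b q pi th et =
      ZL l m 2 (th ⬝ᵥ (o + c3 • pi)) (et ⬝ᵥ (o + c3 • pi)) (o + c3 • pi) th' et' := by
    have hJZ : JL k l m 2 * (ZL l m 2 (th ⬝ᵥ o) (et ⬝ᵥ o) o th' et' + c3 • PI l m 2 b q pi th et) =
      (ZL l m 2 (th ⬝ᵥ o) (et ⬝ᵥ o) o th' et' + c3 • PI l m 2 b q pi th et) * JL k l m 2 :=
        hN.cn.1 0 2
    have hYZ : YL l m 2 b q pi th et *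
        (ZL l m 2 (th ⬝ᵥ o) (et ⬝ᵥ o) o th' et' + c3 • PI l m 2 b q pi th et) =
      (ZL l m 2 (th ⬝ᵥ o) (et ⬝ᵥ o) o th' et' + c3 • PI l m 2 b q pi th et) *
        YL l m 2 b q pi th et := hN.cn.1 1 2
    have hv0 : (ZL l m 2 (th ⬝ᵥ o) (et ⬝ᵥ o) o th' et' + c3 • PI l m 2 b q pi th et) *ᵥ vv 0 =
        pp (o + c3 • pi) := by
      rw [add_mulVec, smul_mulVec, PI_vv h hm, ZL_vv _ _ _ _ _ h hm, if_pos rfl, pp_add, pp_smul]
    have hu0 : (ZL l m 2 (th ⬝ᵥ o) (et ⬝ᵥ o) o th' et' + c3 • PI l m 2 b q pi th et) *ᵥ uu 0 =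
        (th ⬝ᵥ (o + c3 • pi)) • vv (l - 1) + (et ⬝ᵥ (o + c3 • pi)) • uu (m - 1) := by
      rw [← YL_vv b q pi th et h hm 0, mulVec_mulVec, ← hYZ, ← mulVec_mulVec, hv0,
        YL_pp _ _ _ _ _ h hm]
    refine ext_vup (fun j _ => ?_) (fun j _ => ?_) fun f => ?_
    · rw [comm_vv hJZ, hv0, ZL_vv _ _ _ _ _ h hm]
      split_ifs with hj
      · rw [hj, pow_zero, one_mulVec]
      · obtain ⟨i, rfl⟩ : ∃ i, j = i + 1 := ⟨j - 1, by omega⟩
        rw [JL_pow_pp]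
    · rw [comm_uu hJZ, hu0, ZL_uu _ _ _ _ _ h hm]
      split_ifs with hj
      · rw [hj, pow_zero, one_mulVec]
      · obtain ⟨i, rfl⟩ : ∃ i, j = i + 1 := ⟨j - 1, by omega⟩
        rw [mulVec_add, mulVec_smul, mulVec_smul, JL_pow_vv, JL_pow_uu, vv_ge (by omega),
          uu_ge (by omega), smul_zero, smul_zero, add_zero]
    · rw [add_mulVec, smul_mulVec, PI_pp h hm, hb, mul_zero, zero_smul, smul_zero, add_zero,
        ZL_pp _ _ _ _ _ h hm, ZL_pp _ _ _ _ _ h hm]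
  rwa [e] at hN

/-- case I, `b_0 = 0`, `o` and `pi` independent, with all the genericity conditions -/
theorem ext_gen [Infinite k] (hρ : ∀ i, ρ i = (JL k (r + 4) 3 2 ^ i).rank)
    {b q : ℕ → k} {pi th et o th' et' : Fin 2 → k}
    (hT : MaxR ρ ![JL k (r + 4) 3 2, YL (r + 4) 3 2 b q pi th et,
      ZL (r + 4) 3 2 (th ⬝ᵥ o) (et ⬝ᵥ o) o th' et'])
    (hb : b 0 = 0) (h1 : th' ⬝ᵥ pi = 0) (h2 : et' ⬝ᵥ pi = 0)
    {lam mu : Fin 2 → k} (l1 : lam ⬝ᵥ o = 0) (l2 : lam ⬝ᵥ pi = 1)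
    (m1 : mu ⬝ᵥ o = 1) (m2 : mu ⬝ᵥ pi = 0)
    (hβ : et' ⬝ᵥ o ≠ 0) (hη : et ⬝ᵥ pi ≠ 0)
    (hr : (th ⬝ᵥ pi) * (et' ⬝ᵥ o) - (et ⬝ᵥ pi) * (th' ⬝ᵥ o) ≠ 0) : False := by
  have hpi : pi ≠ 0 := by
    rintro rfl
    rw [dotProduct_zero] at l2
    exact zero_ne_one l2
  have hprop := prop_dot (o := o) h1 h2 hpi
  obtain ⟨α, hα⟩ : ∃ α, th' ⬝ᵥ o = α := ⟨_, rfl⟩
  obtain ⟨β, hβ'⟩ : ∃ β, et' ⬝ᵥ o = β := ⟨_, rfl⟩
  obtain ⟨θ, hθ⟩ : ∃ θ, th ⬝ᵥ pi = θ := ⟨_, rfl⟩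
  obtain ⟨η, hη'⟩ : ∃ η, et ⬝ᵥ pi = η := ⟨_, rfl⟩
  obtain ⟨ε, hε⟩ : ∃ ε : k, ε = if r = 0 then 1 else 0 := ⟨_, rfl⟩
  rw [hβ'] at hβ
  rw [hη'] at hη
  rw [hα, hβ', hθ, hη'] at hr
  simp only [hα, hβ'] at hprop
  -- the parameter `τ`, as a function of `b 1 = x`
  obtain ⟨τf, hτf⟩ : ∃ τf : k → k, τf = fun x =>
    (β * (x * η - q 1 * θ) - ε * α * θ) / (θ * β - η * α) := ⟨_, rfl⟩
  -- `g₂` and `b 1` as functions of `τ`
  obtain ⟨a0, ha0⟩ : ∃ a0, a0 = -(β * q 1 + ε * α) / η := ⟨_, rfl⟩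
  obtain ⟨a1, ha1⟩ : ∃ a1, a1 = -β / η := ⟨_, rfl⟩
  obtain ⟨c0, hc0⟩ : ∃ c0, c0 = -(θ * a0) / β := ⟨_, rfl⟩
  obtain ⟨c1, hc1⟩ : ∃ c1, c1 = -(θ * a1 + α) / β := ⟨_, rfl⟩
  have hcx : ∀ x, c0 + c1 * τf x = x := by
    intro x
    have e1 : τf x * (θ * β - η * α) = β * (x * η - q 1 * θ) - ε * α * θ := by
      rw [hτf]
      exact div_mul_cancel₀ _ hr
    have e2 : c0 * (β * η) = θ * (β * q 1 + ε * α) := by
      rw [hc0, ha0]
      field_simp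
    have e3 : c1 * (β * η) = θ * β - η * α := by
      rw [hc1, ha1]
      field_simp
      ring
    refine mul_right_cancel₀ (mul_ne_zero hβ hη) ?_
    linear_combination e1 + e2 + τf x * e3
  have ha1' : -a1 ≠ 0 := by
    rw [ha1, neg_div, neg_neg]
    exact div_ne_zero hβ hη
  have hinj : Function.Injective τf := by
    intro x y hxy
    rw [← hcx x, ← hcx y, hxy]
  obtain ⟨F, hF⟩ : ∃ F : Set k, F = {0} ∪
      {t | -a1 * t ^ 3 + (-(a0 + a1 * q 1) + ε * (a1 * c1)) * t ^ 2 +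
        (β - a0 * q 1 + ε * (a0 * c1 + a1 * c0)) * t + (ε * (a0 * c0) - ε * α) = 0} ∪
      {t | β * t ^ 3 + (3 * β * c1 - 3 * α) * t ^ 2 +
        (β * (3 * c0 + q 1 * c1) - α * (3 * q 1 + c1)) * t +
        (β * (q 1 * c0 + θ) - α * (q 1 ^ 2 + c0 + η)) = 0} := ⟨_, rfl⟩
  have hFf : F.Finite := by
    rw [hF]
    exact ((Set.finite_singleton 0).union (finite_cubic ha1')).union (finite_cubic hβ)
  have hF2 : ({s : k | τf (b 1 + s) ∈ F}).Finite :=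
    hFf.preimage fun x _ y _ hxy => add_left_cancel (hinj hxy)
  obtain ⟨s, hs, hT2⟩ := nf_move (by omega) (by omega) hT (fun a => if a = 1 then 1 else 0) 0 0 0 0 0
    (fun s => by simp [hb, h1]) (fun s => by simp [h2]) (fun s => Or.inl (by simp [hb])) hF2
  simp only [smul_zero, add_zero] at hT2
  obtain ⟨b', hb'⟩ : ∃ b' : ℕ → k, b' = b + s • (fun a => if a = 1 then 1 else 0) := ⟨_, rfl⟩
  rw [← hb'] at hT2
  have hb0 : b' 0 = 0 := by rw [hb']; simp [hb]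
  have hb1 : b' 1 = b 1 + s := by rw [hb']; simp
  rw [Set.mem_ofPred_eq, ← hb1] at hs
  obtain ⟨τ, hτ⟩ : ∃ τ, τ = τf (b' 1) := ⟨_, rfl⟩
  have hx : b' 1 = c0 + c1 * τ := by rw [hτ, hcx]
  rw [← hτ, hF] at hs
  simp only [Set.mem_union, Set.mem_singleton_iff, Set.mem_ofPred_eq, not_or] at hs
  obtain ⟨⟨hs1, hs2⟩, hs3⟩ := hs
  obtain ⟨g₂, hg₂⟩ : ∃ g₂, g₂ = a0 + a1 * τ := ⟨_, rfl⟩
  obtain ⟨Δ, hΔ⟩ : ∃ Δ, Δ = β * τ - g₂ * (q 1 + τ) * τ - ε * (α - g₂ * b' 1) := ⟨_, rfl⟩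
  have hΔ0 : Δ ≠ 0 := by
    intro h0
    apply hs2
    rw [← h0, hΔ, hg₂, hx]
    ring
  -- the shift
  obtain ⟨c3, hc3⟩ : ∃ c3, c3 = ((et ⬝ᵥ o) * α - (th ⬝ᵥ o) * β) / (θ * β - η * α) := ⟨_, rfl⟩
  obtain ⟨c, hc⟩ : ∃ c, c = ((th ⬝ᵥ o) * η - (et ⬝ᵥ o) * θ) / (θ * β - η * α) := ⟨_, rfl⟩
  have hc3' : c3 * (θ * β - η * α) = (et ⬝ᵥ o) * α - (th ⬝ᵥ o) * β := by
    rw [hc3]
    exact div_mul_cancel₀ _ hr
  have hc' : c * (θ * β - η * α) = (th ⬝ᵥ o) * η - (et ⬝ᵥ o) * θ := by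
    rw [hc]
    exact div_mul_cancel₀ _ hr
  have hT3 := nf_shift (by omega) (by omega) hT2 hb0 c3
  have k1 : (lam - c3 • mu) ⬝ᵥ (o + c3 • pi) = 0 := by
    simp only [sub_dotProduct, smul_dotProduct, dotProduct_add, dotProduct_smul, l1, l2, m1, m2,
      smul_eq_mul]
    ring
  have k2 : (lam - c3 • mu) ⬝ᵥ pi = 1 := by
    simp only [sub_dotProduct, smul_dotProduct, l2, m2, smul_eq_mul]
    ring
  obtain ⟨H, hH⟩ : ∃ H, H = (g₂ * α * τ - (α - g₂ * b' 1) * β) / Δ := ⟨_, rfl⟩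
  have hHΔ : H * Δ = g₂ * α * τ - (α - g₂ * b' 1) * β := by rw [hH]; field_simp
  obtain ⟨V, hV⟩ : ∃ V, V = (β - ε * H) / τ := ⟨_, rfl⟩
  have hV' : τ * V = β - ε * H := by rw [hV]; field_simp
  refine ext_core (c := c) (τ := τ) (g₂ := g₂) (H := H) (V := V) (ε := ε)
    (HP := -α - b' 1 * V - (q 1 + τ) * H) hρ hT3 hb0 h1 h2 k1 k2 ?_ ?_ ?_ hθ hη' ?_ ?_ hβ hs1 hε
    ?_ ?_ hV' rfl ?_ ?_ (α := α) (β := β)
  · intro f
    rw [hprop]
  · rw [dotProduct_add, dotProduct_smul, h1, hα, smul_zero, add_zero]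
  · rw [dotProduct_add, dotProduct_smul, h2, hβ', smul_zero, add_zero]
  · rw [dotProduct_add, dotProduct_smul, hθ, smul_eq_mul]
    refine mul_right_cancel₀ hr ?_
    linear_combination θ * hc3' + α * hc'
  · rw [dotProduct_add, dotProduct_smul, hη', smul_eq_mul]
    refine mul_right_cancel₀ hr ?_
    linear_combination η * hc3' + β * hc'
  · rw [hx, hc0, hc1, hg₂]
    field_simp
    ring
  · rw [hg₂, ha0, ha1]
    field_simp
    ring
  · have h5 : τ * (β * H + g₂ * (-α - b' 1 * V - (q 1 + τ) * H) + α * V) = 0 := by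
      rw [hΔ] at hHΔ
      linear_combination hHΔ + (α - g₂ * b' 1) * hV'
    exact (mul_eq_zero.1 h5).resolve_left hs1
  · intro hr0 h5
    apply hs3
    rw [← h5, hx]
    ring

/-- case I, `b_0 = 0`, `o` and `pi` independent -/
theorem ext_false [Infinite k] (hρ : ∀ i, ρ i = (JL k (r + 4) 3 2 ^ i).rank)
    {b q : ℕ → k} {pi th et o th' et' : Fin 2 → k}
    (hT : MaxR ρ ![JL k (r + 4) 3 2, YL (r + 4) 3 2 b q pi th et,
      ZL (r + 4) 3 2 (th ⬝ᵥ o) (et ⬝ᵥ o) o th' et'])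
    (hb : b 0 = 0) (h1 : th' ⬝ᵥ pi = (et ⬝ᵥ o) * b 0) (h2 : et' ⬝ᵥ pi = 0)
    (hind : o 0 * pi 1 ≠ o 1 * pi 0) : False := by
  rw [hb, mul_zero] at h1
  obtain ⟨d, hd⟩ : ∃ d, d = o 0 * pi 1 - o 1 * pi 0 := ⟨_, rfl⟩
  have hd0 : d ≠ 0 := by rw [hd]; exact sub_ne_zero.2 hind
  obtain ⟨lam, hlam⟩ : ∃ lam : Fin 2 → k, lam = ![-o 1 / d, o 0 / d] := ⟨_, rfl⟩
  have l1 : lam ⬝ᵥ o = 0 := by
    rw [hlam]
    simp [dotProduct, Fin.sum_univ_two]
    field_simp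
    ring
  have l2 : lam ⬝ᵥ pi = 1 := by
    rw [hlam]
    simp [dotProduct, Fin.sum_univ_two]
    field_simp
    rw [hd]
    ring
  obtain ⟨mu, hmu⟩ : ∃ mu : Fin 2 → k, mu = ![pi 1 / d, -pi 0 / d] := ⟨_, rfl⟩
  have m1 : mu ⬝ᵥ o = 1 := by
    rw [hmu]
    simp [dotProduct, Fin.sum_univ_two]
    field_simp
    rw [hd]
    ring
  have m2 : mu ⬝ᵥ pi = 0 := by
    rw [hmu]
    simp [dotProduct, Fin.sum_univ_two]
    field_simp
    ring
  -- `β ≠ 0`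
  obtain ⟨s, hs, hT1⟩ := nf_move (by omega) (by omega) hT 0 0 0 0 0 mu
    (fun s => by simp [hb, h1]) (fun s => by
      rw [add_dotProduct, smul_dotProduct, h2, m2, smul_zero, add_zero])
    (fun s => Or.inl (by simp [hb])) (Set.finite_singleton (-(et' ⬝ᵥ o)))
  simp only [smul_zero, add_zero] at hT1
  obtain ⟨e', he'⟩ : ∃ e', e' = et' + s • mu := ⟨_, rfl⟩
  rw [← he'] at hT1
  have h2' : e' ⬝ᵥ pi = 0 := by
    rw [he', add_dotProduct, smul_dotProduct, h2, m2, smul_zero, add_zero]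
  have hβ : e' ⬝ᵥ o ≠ 0 := by
    rw [he', add_dotProduct, smul_dotProduct, m1, smul_eq_mul, mul_one]
    intro h0
    apply hs
    rw [Set.mem_singleton_iff]
    linear_combination h0
  -- `η ≠ 0`
  obtain ⟨s2, hs2, hT2⟩ := nf_move (by omega) (by omega) hT1 0 0 0 lam 0 0
    (fun s => by simp [hb, h1]) (fun s => by simp [h2'])
    (fun s => Or.inl (by simp [hb])) (Set.finite_singleton (-(et ⬝ᵥ pi)))
  simp only [smul_zero, add_zero] at hT2
  obtain ⟨e, he⟩ : ∃ e, e = et + s2 • lam := ⟨_, rfl⟩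
  rw [← he] at hT2
  have hη : e ⬝ᵥ pi ≠ 0 := by
    rw [he, add_dotProduct, smul_dotProduct, l2, smul_eq_mul, mul_one]
    intro h0
    apply hs2
    rw [Set.mem_singleton_iff]
    linear_combination h0
  -- `r0 ≠ 0`
  obtain ⟨s3, hs3, hT3⟩ := nf_move (by omega) (by omega) hT2 0 0 lam 0 0 0
    (fun s => by simp [hb, h1]) (fun s => by simp [h2'])
    (fun s => Or.inl (by simp [hb])) (Set.finite_singleton
      (-((th ⬝ᵥ pi) * (e' ⬝ᵥ o) - (e ⬝ᵥ pi) * (th' ⬝ᵥ o)) / (e' ⬝ᵥ o)))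
  simp only [smul_zero, add_zero] at hT3
  refine ext_gen hρ hT3 hb h1 h2' l1 l2 m1 m2 hβ hη ?_
  rw [add_dotProduct, smul_dotProduct, l2, smul_eq_mul, mul_one]
  intro h0
  apply hs3
  rw [Set.mem_singleton_iff, eq_div_iff hβ]
  linear_combination h0

end Pool.Agent.Lib.D13.LM
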