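import Pool.Agent.Lib.D13.LME

/-!
# MP_5dcbc3_ag: the type `(l, 3, 1, 1)`, `l ≥ 4`, case I
-/

namespace Pool.Agent.Lib.D13.LM

open Matrix Pool.Agent.Lib.Q5dc Pool.Agent.Lib.D7

variable {k : Type*} [Field k] {r : ℕ} {ρ : ℕ → ℕ}

/-- for `l = 4`, `m = 3` the coefficient `b_0` vanishes -/
theorem b_zero_43 [Infinite k] (hρ : ∀ i, ρ i = (JL k 4 3 2 ^ i).rank)
    {b q : ℕ → k} {pi th et : Fin 2 → k} {Z : Matrix (IL 4 3 2) (IL 4 3 2) k}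
    (hT : MaxR ρ ![JL k 4 3 2, YL 4 3 2 b q pi th et, Z]) : b 0 = 0 := by
  have h4 : YL 4 3 2 b q pi th et ^ 4 = 0 :=
    hT.pow_eq_zero (D8.mem1 _ _ _) (by rw [hρ, JL_pow (by omega) (by omega), rank_zero])
  have Yv : ∀ j, YL 4 3 2 b q pi th et *ᵥ vv j = uu j := fun j =>
    YL_vv _ _ _ _ _ (by omega) (by omega) j
  have Yp : ∀ f, YL 4 3 2 b q pi th et *ᵥ pp f = (th ⬝ᵥ f) • vv 3 + (et ⬝ᵥ f) • uu 2 :=
    fun f => YL_pp _ _ _ _ _ (by omega) (by omega) f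
  have Yu0 : YL 4 3 2 b q pi th et *ᵥ uu 0 =
      b 0 • vv 1 + b 1 • vv 2 + b 2 • vv 3 + q 1 • uu 1 + q 2 • uu 2 + pp pi := by
    have h := LMEAux.Y3_uu (r := 0) b q pi th et 0
    rw [if_pos rfl] at h
    exact h
  have Yu1 : YL 4 3 2 b q pi th et *ᵥ uu 1 = b 0 • vv 2 + b 1 • vv 3 + q 1 • uu 2 := by
    have h := LMEAux.Y3_uu (r := 0) b q pi th et 1
    rw [if_neg one_ne_zero, add_zero, show (vv (0 + 3 + 1) : IL (0 + 4) 3 2 → k) = 0 from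
      vv_ge (by omega), show (uu (1 + 2) : IL (0 + 4) 3 2 → k) = 0 from uu_ge (by omega),
      smul_zero, smul_zero, add_zero, add_zero] at h
    exact h
  have Yu2 : YL 4 3 2 b q pi th et *ᵥ uu 2 = b 0 • vv 3 :=
    YL_uu_top _ _ _ _ _ (by omega) (by omega)
  have u3 : (uu 3 : IL 4 3 2 → k) = 0 := uu_ge (by omega)
  have h5 : (fn (fun j => if j = 2 then 1 else 0) 0 0 : IL 4 3 2 → k) ⬝ᵥ
      (YL 4 3 2 b q pi th et ^ 4 *ᵥ vv 0) = b 0 * b 0 := by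
    rw [pow_succ, pow_succ, pow_two, ← mulVec_mulVec, ← mulVec_mulVec, ← mulVec_mulVec, Yv, Yu0]
    simp only [mulVec_add, mulVec_smul, Yv, Yp, Yu1, Yu2, u3, smul_zero, add_zero,
      dotProduct_add, dotProduct_smul, fn_vv, fn_uu, smul_eq_mul]
    simp
  rw [h4, zero_mulVec, dotProduct_zero] at h5
  exact mul_self_eq_zero.1 h5.symm

/-- case I with `c_0 ≠ 0` in the first matrix -/
theorem caseI_core [IsAlgClosed k] [CharZero k] (hρ : ∀ i, ρ i = (JL k (r + 4) 3 2 ^ i).rank)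
    (ih : ∀ T : Fin 3 → Matrix (IL (r + 4) 3 1) (IL (r + 4) 3 1) k, CN T → Cl T)
    {c b q : ℕ → k} {om pi th et : Fin 2 → k} {B' : Matrix (IL (r + 4) 3 2) (IL (r + 4) 3 2) k}
    (hT : MaxR ρ ![JL k (r + 4) 3 2, BL (r + 4) 3 2 c b q om pi th et, B']) (hc : c 0 ≠ 0) :
    False := by
  obtain ⟨b, q, pi, th, et, o, th', et', hN, n1, n2, n3⟩ :=
    nf1 hρ (by omega) (by omega) hT hc
  by_cases hdep : o 0 * pi 1 = o 1 * pi 0
  · refine dep_false hρ (by omega) le_rfl hN n1 n2 n3 ?_ hdep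
    intro hr
    obtain rfl : r = 0 := by omega
    exact b_zero_43 hρ hN
  · by_cases hb : b 0 = 0
    · exact ext_false hρ hN hb n1 n2 hdep
    · exact ax_false (by omega) (by omega) ih hN hb n1 n3 hdep

/-- case I -/
theorem caseI_three [IsAlgClosed k] [CharZero k] (hρ : ∀ i, ρ i = (JL k (r + 4) 3 2 ^ i).rank)
    (ih : ∀ T : Fin 3 → Matrix (IL (r + 4) 3 1) (IL (r + 4) 3 1) k, CN T → Cl T)
    {c b q : ℕ → k} {om pi th et : Fin 2 → k} {c' b' q' : ℕ → k} {om' pi' th' et' : Fin 2 → k}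
    (hT : MaxR ρ ![JL k (r + 4) 3 2, BL (r + 4) 3 2 c b q om pi th et,
      BL (r + 4) 3 2 c' b' q' om' pi' th' et'])
    (hc : c 0 ≠ 0 ∨ b 0 ≠ 0 ∨ c' 0 ≠ 0 ∨ b' 0 ≠ 0) : False := by
  have hsw := D8.MaxR.change3 hT (D8.mem2 (JL k (r + 4) 3 2)
    (BL (r + 4) 3 2 c b q om pi th et) (BL (r + 4) 3 2 c' b' q' om' pi' th' et'))
    (D8.mem1 _ _ _) (D8.mem2 _ _ _) (D8.mem1 _ _ _)
  rcases hc with hc | hc | hc | hc
  · exact caseI_core hρ ih hT hc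
  · exact caseI_core hρ ih (MaxR.dualL _ _ _ _ _ _ _ _ _ _ _ _ _ _ (by omega) hT) hc
  · exact caseI_core hρ ih hsw hc
  · exact caseI_core hρ ih (MaxR.dualL _ _ _ _ _ _ _ _ _ _ _ _ _ _ (by omega) hsw) hc

end Pool.Agent.Lib.D13.LM
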