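import Pool.Agent.Lib.D13.LMb
import Pool.Agent.Lib.D13.Psi

/-!
# MP_5dcbc3_ag: the type `(l, m, 1^p)`, case I: normal form if `c_0 ≠ 0`

`Y: v -> u`, `Z: v -> o` in `P`.
-/

namespace Pool.Agent.Lib.D13.LM

open Matrix Pool.Agent.Lib.Q5dc Pool.Agent.Lib.D7

variable {k : Type*} [Field k] {l m p : ℕ}

theorem BL_nil (c b q : ℕ → k) (om pi th et : Fin p → k) (h : m < l) (hm : 2 ≤ m) :
    IsNilpotent (BL l m p c b q om pi th et) := by
  refine isNilpotent_of_weight _ (fun x => match x with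
    | .inl j => 3 * (j : ℕ)
    | .inr (.inl j) => 3 * (j : ℕ) + 1
    | .inr (.inr _) => 2) fun i j hij => ?_
  rcases i with i | i | i <;> rcases j with j | j | j <;>
    simp only [BL, Matrix.of_apply] at hij ⊢ <;> exact if_neg (by omega)

theorem BL_congr {c b q c' b' q' : ℕ → k} {om pi th et : Fin p → k} (hc : ∀ a < m, c a = c' a)
    (hb : ∀ a < m, b a = b' a) (hq : ∀ a < m, 0 < a → q a = q' a) (h : m ≤ l) :
    BL l m p c b q om pi th et = BL l m p c' b' q' om pi th et := by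
  ext x y
  rcases x with x | x | x <;> rcases y with y | y | y <;> simp only [BL, Matrix.of_apply]
  · have := x.2
    split_ifs
    · exact hb _ (by omega)
    · rfl
  · have := x.2
    split_ifs
    · exact hc _ (by omega)
    · rfl
  · have := x.2
    split_ifs
    · exact hq _ (by omega) (by omega)
    · rfl

/-- `v -> u`, `u -> x^(l-m) b(x) v + q(x) u + pi`, `p -> th(p) w + et(p) u_(m-1)` -/
def YL (l m p : ℕ) (b q : ℕ → k) (pi th et : Fin p → k) : Matrix (IL l m p) (IL l m p) k :=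
  BL l m p (fun a => if a = 0 then 1 else 0) b q 0 pi th et

/-- `v -> o`, `u -> s w + t u_(m-1)`, `p -> th(p) w + et(p) u_(m-1)` -/
def ZL (l m p : ℕ) (s t : k) (o th et : Fin p → k) : Matrix (IL l m p) (IL l m p) k :=
  BL l m p 0 (fun a => if a + 1 = m then s else 0) (fun a => if a + 1 = m then t else 0) o 0 th et

section rules

variable (b q : ℕ → k) (pi th et : Fin p → k) (s t : k) (o th' et' : Fin p → k)

theorem YL_vv (h : m < l) (hm : 2 ≤ m) (j : ℕ) : YL l m p b q pi th et *ᵥ vv j = uu j := by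
  rw [YL, BL_vv _ _ _ _ _ _ _ h.le (by omega), Finset.sum_eq_single 0]
  · simp [pp_zero]
  · intro a _ ha
    rw [if_neg ha, zero_smul]
  · intro h1
    exact absurd (Finset.mem_range.2 (by omega)) h1

theorem YL_uu (h : m < l) (hm : 2 ≤ m) (j : ℕ) : YL l m p b q pi th et *ᵥ uu j =
    ∑ a ∈ Finset.range m, b a • vv (l - m + j + a) +
      ∑ a ∈ Finset.range m, (if a = 0 then 0 else q a) • uu (j + a) +
      if j = 0 then pp pi else 0 :=
  BL_uu _ _ _ _ _ _ _ h.le (by omega) j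

theorem YL_pp (h : m < l) (hm : 2 ≤ m) (f : Fin p → k) : YL l m p b q pi th et *ᵥ pp f =
    (th ⬝ᵥ f) • vv (l - 1) + (et ⬝ᵥ f) • uu (m - 1) :=
  BL_pp _ _ _ _ _ _ _ (by omega) (by omega) f

theorem ZL_vv (h : m < l) (hm : 2 ≤ m) (j : ℕ) : ZL l m p s t o th et *ᵥ vv j =
    if j = 0 then pp o else 0 := by
  rw [ZL, BL_vv _ _ _ _ _ _ _ h.le (by omega), Finset.sum_eq_zero, zero_add]
  intro a _
  simp

theorem ZL_uu (h : m < l) (hm : 2 ≤ m) (j : ℕ) : ZL l m p s t o th et *ᵥ uu j =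
    if j = 0 then s • vv (l - 1) + t • uu (m - 1) else 0 := by
  rw [ZL, BL_uu _ _ _ _ _ _ _ h.le (by omega)]
  have e1 : ∑ a ∈ Finset.range m, (if a + 1 = m then s else 0) • (vv (l - m + j + a) :
      IL l m p → k) = s • vv (l - 1 + j) := by
    rw [Finset.sum_eq_single (m - 1)]
    · rw [if_pos (by omega), show l - m + j + (m - 1) = l - 1 + j by omega]
    · intro a _ ha
      rw [if_neg (by omega), zero_smul]
    · intro h1
      exact absurd (Finset.mem_range.2 (by omega)) h1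
  have e2 : ∑ a ∈ Finset.range m, (if a = 0 then 0 else if a + 1 = m then t else 0) •
      (uu (j + a) : IL l m p → k) = t • uu (m - 1 + j) := by
    rw [Finset.sum_eq_single (m - 1)]
    · rw [if_neg (by omega), if_pos (by omega), show j + (m - 1) = m - 1 + j by omega]
    · intro a _ ha
      by_cases ha0 : a = 0
      · rw [if_pos ha0, zero_smul]
      · rw [if_neg ha0, if_neg (by omega), zero_smul]
    · intro h1
      exact absurd (Finset.mem_range.2 (by omega)) h1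
  rw [e1, e2]
  by_cases hj : j = 0
  · subst hj
    simp [pp_zero]
  · rw [if_neg hj, if_neg hj, vv_ge (by omega), uu_ge (by omega)]
    simp

theorem ZL_pp (h : m < l) (hm : 2 ≤ m) (f : Fin p → k) : ZL l m p s t o th et *ᵥ pp f =
    (th ⬝ᵥ f) • vv (l - 1) + (et ⬝ᵥ f) • uu (m - 1) :=
  BL_pp _ _ _ _ _ _ _ (by omega) (by omega) f

theorem YL_uu_top (h : m < l) (hm : 2 ≤ m) : YL l m p b q pi th et *ᵥ uu (m - 1) =
    b 0 • vv (l - 1) := by
  rw [YL_uu _ _ _ _ _ h hm, if_neg (by omega), add_zero, Finset.sum_eq_single 0,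
    Finset.sum_eq_zero, add_zero, show l - m + (m - 1) + 0 = l - 1 by omega]
  · intro a _
    by_cases ha0 : a = 0
    · rw [if_pos ha0, zero_smul]
    · rw [uu_ge (by omega), smul_zero]
  · intro a _ ha
    rw [vv_ge (by omega), smul_zero]
  · intro h1
    exact absurd (Finset.mem_range.2 (by omega)) h1

theorem YL_vv_top (h : m < l) (hm : 2 ≤ m) : YL l m p b q pi th et *ᵥ vv (l - 1) = 0 := by
  rw [YL_vv _ _ _ _ _ h hm, uu_ge (by omega)]

theorem ZL_uu_top (h : m < l) (hm : 2 ≤ m) : ZL l m p s t o th et *ᵥ uu (m - 1) = 0 := by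
  rw [ZL_uu _ _ _ _ _ h hm, if_neg (by omega)]

theorem ZL_vv_top (h : m < l) (hm : 2 ≤ m) : ZL l m p s t o th et *ᵥ vv (l - 1) = 0 := by
  rw [ZL_vv _ _ _ _ _ h hm, if_neg (by omega)]

theorem ZL_vv_pos (h : m < l) (hm : 2 ≤ m) {j : ℕ} (hj : 0 < j) :
    ZL l m p s t o th et *ᵥ vv j = 0 := by
  rw [ZL_vv _ _ _ _ _ h hm, if_neg (by omega)]

theorem ZL_uu_pos (h : m < l) (hm : 2 ≤ m) {j : ℕ} (hj : 0 < j) :
    ZL l m p s t o th et *ᵥ uu j = 0 := by
  rw [ZL_uu _ _ _ _ _ h hm, if_neg (by omega)]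

theorem YZ_uu (h : m < l) (hm : 2 ≤ m) :
    YL l m p b q pi th et *ᵥ (ZL l m p s t o th' et' *ᵥ uu 0) = (t * b 0) • vv (l - 1) := by
  rw [ZL_uu _ _ _ _ _ h hm, if_pos rfl, mulVec_add, mulVec_smul, mulVec_smul,
    YL_vv_top _ _ _ _ _ h hm, YL_uu_top _ _ _ _ _ h hm, smul_zero, zero_add, smul_smul]

theorem ZY_uu (h : m < l) (hm : 2 ≤ m) :
    ZL l m p s t o th' et' *ᵥ (YL l m p b q pi th et *ᵥ uu 0) =
      (th' ⬝ᵥ pi) • vv (l - 1) + (et' ⬝ᵥ pi) • uu (m - 1) := by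
  rw [YL_uu _ _ _ _ _ h hm, if_pos rfl, mulVec_add, mulVec_add, Matrix.mulVec_sum,
    Matrix.mulVec_sum, ZL_pp _ _ _ _ _ h hm, Finset.sum_eq_zero, Finset.sum_eq_zero, zero_add,
    zero_add]
  · intro a _
    rw [mulVec_smul]
    by_cases ha0 : a = 0
    · rw [if_pos ha0, zero_smul]
    · rw [ZL_uu_pos _ _ _ _ _ h hm (by omega), smul_zero]
  · intro a _
    rw [mulVec_smul, ZL_vv_pos _ _ _ _ _ h hm (by omega), smul_zero]

theorem YZ_pp (h : m < l) (hm : 2 ≤ m) (f : Fin p → k) :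
    YL l m p b q pi th et *ᵥ (ZL l m p s t o th' et' *ᵥ pp f) = ((et' ⬝ᵥ f) * b 0) • vv (l - 1) := by
  rw [ZL_pp _ _ _ _ _ h hm, mulVec_add, mulVec_smul, mulVec_smul,
    YL_vv_top _ _ _ _ _ h hm, YL_uu_top _ _ _ _ _ h hm, smul_zero, zero_add, smul_smul]

theorem ZY_pp (h : m < l) (hm : 2 ≤ m) (f : Fin p → k) :
    ZL l m p s t o th' et' *ᵥ (YL l m p b q pi th et *ᵥ pp f) = 0 := by
  rw [YL_pp _ _ _ _ _ h hm, mulVec_add, mulVec_smul, mulVec_smul,
    ZL_vv_top _ _ _ _ _ h hm, ZL_uu_top _ _ _ _ _ h hm, smul_zero, zero_add, smul_zero]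

/-- the normal forms commute -/
theorem nf_cn {b q : ℕ → k} {pi th et o th' et' : Fin p → k} {s t : k} (h : m < l) (hm : 2 ≤ m)
    (hs : s = th ⬝ᵥ o) (ht : t = et ⬝ᵥ o) (h1 : th' ⬝ᵥ pi = t * b 0) (h2 : et' ⬝ᵥ pi = 0)
    (h3 : b 0 = 0 ∨ et' = 0) :
    CN ![JL k l m p, YL l m p b q pi th et, ZL l m p s t o th' et'] := by
  refine D8.cn3 (BL_comm _ _ _ _ _ _ _ h hm) (BL_comm _ _ _ _ _ _ _ h hm) ?_
    ⟨l, JL_pow h.le (by omega)⟩ (BL_nil _ _ _ _ _ _ _ h hm) (BL_nil _ _ _ _ _ _ _ h hm)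
  have hY : JL k l m p * YL l m p b q pi th et = YL l m p b q pi th et * JL k l m p :=
    BL_comm _ _ _ _ _ _ _ h hm
  have hZ : JL k l m p * ZL l m p s t o th' et' = ZL l m p s t o th' et' * JL k l m p :=
    BL_comm _ _ _ _ _ _ _ h hm
  have hYZ : JL k l m p * (YL l m p b q pi th et * ZL l m p s t o th' et') =
      (YL l m p b q pi th et * ZL l m p s t o th' et') * JL k l m p := by
    rw [← mul_assoc, hY, mul_assoc, hZ, mul_assoc]
  have hZY : JL k l m p * (ZL l m p s t o th' et' * YL l m p b q pi th et) =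
      (ZL l m p s t o th' et' * YL l m p b q pi th et) * JL k l m p := by
    rw [← mul_assoc, hZ, mul_assoc, hY, mul_assoc]
  have h0 : ∀ f : Fin p → k, et' ⬝ᵥ f * b 0 = 0 := by
    intro f
    rcases h3 with h3 | h3
    · rw [h3, mul_zero]
    · rw [h3, zero_dotProduct, zero_mul]
  refine ext_vup (fun j _ => ?_) (fun j _ => ?_) fun f => ?_
  · rw [comm_vv hYZ, comm_vv hZY, ← mulVec_mulVec, ← mulVec_mulVec, ZL_vv _ _ _ _ _ h hm,
      YL_vv _ _ _ _ _ h hm, if_pos rfl, YL_pp _ _ _ _ _ h hm, ZL_uu _ _ _ _ _ h hm, if_pos rfl,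
      hs, ht]
  · rw [comm_uu hYZ, comm_uu hZY, ← mulVec_mulVec, ← mulVec_mulVec, YZ_uu _ _ _ _ _ _ _ _ _ _ h hm,
      ZY_uu _ _ _ _ _ _ _ _ _ _ h hm, h1, h2, zero_smul, add_zero]
  · rw [← mulVec_mulVec, ← mulVec_mulVec, YZ_pp _ _ _ _ _ _ _ _ _ _ h hm,
      ZY_pp _ _ _ _ _ _ _ _ _ _ h hm, h0, zero_smul]

end rules

variable {ρ : ℕ → ℕ}

theorem vv_apply (j : ℕ) (i : Fin l) :
    (vv j : IL l m p → k) (.inl i) = if (i : ℕ) = j then 1 else 0 := rfl

/-- an element of `adj T` which maps `v` to the span of the `u_j` and `P` is a matrix `BL` -/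
theorem shape_two [Infinite k] {T : Fin 3 → Matrix (IL l m p) (IL l m p) k} (hT : MaxR ρ T)
    (h1 : ρ 1 ≤ (l - 1) + (m - 1)) (hlm : m < l) (hm : 2 ≤ m) (hA : JL k l m p ∈ adj T)
    {X : Matrix (IL l m p) (IL l m p) k} (hX : X ∈ adj T)
    (h0 : ∀ i, (X *ᵥ vv 0) (.inl i) = 0) :
    ∃ (c b q : ℕ → k) (om pi th et : Fin p → k), X = BL l m p c b q om pi th et := by
  obtain ⟨a, c, b, q, om, pi, th, et, h⟩ := shape_one hT h1 hlm hm hA hX
  refine ⟨c, b, q, om, pi, th, et, ?_⟩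
  have h2 : ∀ i, i + 1 < l → a i = 0 := by
    intro i hi
    have h3 := h0 ⟨i + 1, hi⟩
    rw [h, add_mulVec, Matrix.sum_mulVec, BL_vv _ _ _ _ _ _ _ hlm.le (by omega), if_pos rfl,
      Pi.add_apply, Pi.add_apply, Finset.sum_apply, Finset.sum_apply] at h3
    simp only [smul_mulVec, JL_pow_vv, Pi.smul_apply, smul_eq_mul, zero_add, vv_apply, uu, pp,
      mul_zero, Finset.sum_const_zero, add_zero] at h3
    rw [Finset.sum_eq_single i] at h3
    · simpa using h3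
    · intro j _ hj
      rw [if_neg (by omega), mul_zero]
    · intro h4
      exact absurd (Finset.mem_range.2 (by omega)) h4
  rw [h, Finset.sum_eq_zero, zero_add]
  intro i hi
  have hi' := Finset.mem_range.1 hi
  rcases Nat.lt_or_ge (i + 1) l with h3 | h3
  · rw [h2 i h3, zero_smul]
  · rw [show i + 1 = l by omega, JL_pow hlm.le (by omega), smul_zero]

namespace LMIAux

/-- change of basis `u_j -> B v_j` -/
def GB (l m p : ℕ) (c : ℕ → k) (om : Fin p → k) : Matrix (IL l m p) (IL l m p) k :=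
  Matrix.of fun i j => match i, j with
    | .inl i, .inl j => if i = j then 1 else 0
    | .inr (.inl i), .inr (.inl j) => if (j : ℕ) ≤ i then c (i - j) else 0
    | .inr (.inr a), .inr (.inl j) => if (j : ℕ) = 0 then om a else 0
    | .inr (.inr a), .inr (.inr b) => if a = b then 1 else 0
    | _, _ => 0

theorem GB_vv (c : ℕ → k) (om : Fin p → k) (j : ℕ) : GB l m p c om *ᵥ vv j = vv j := by
  rcases Nat.lt_or_ge j l with h | h
  · have h1 := mulVec_vv (GB l m p c om) ⟨j, h⟩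
    rw [show ((⟨j, h⟩ : Fin l) : ℕ) = j from rfl] at h1
    rw [h1]
    funext x
    rcases x with x | x | x <;> simp [GB, vv, Fin.ext_iff]
  · rw [vv_ge h, mulVec_zero]

theorem GB_pp (c : ℕ → k) (om : Fin p → k) (f : Fin p → k) : GB l m p c om *ᵥ pp f = pp f := by
  rw [mulVec_pp]
  funext x
  rcases x with x | x | x <;> simp [GB, pp]

theorem GB_uu (c b q : ℕ → k) (om pi th et : Fin p → k) (h : m < l) (hm : 2 ≤ m) (j : ℕ) :
    GB l m p c om *ᵥ uu j = BL l m p c b q om pi th et *ᵥ vv j := by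
  rcases Nat.lt_or_ge j m with hj | hj
  · have h1 := mulVec_uu (GB l m p c om) ⟨j, hj⟩
    rw [show ((⟨j, hj⟩ : Fin m) : ℕ) = j from rfl] at h1
    have h2 := mulVec_vv (BL l m p c b q om pi th et) ⟨j, by omega⟩
    rw [show ((⟨j, by omega⟩ : Fin l) : ℕ) = j from rfl] at h2
    rw [h1, h2]
    funext x
    rcases x with x | x | x <;> rfl
  · rw [uu_ge hj, mulVec_zero, BL_vv _ _ _ _ _ _ _ h.le (by omega), if_neg (by omega), add_zero,
      Finset.sum_eq_zero]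
    intro a _
    rw [uu_ge (by omega), smul_zero]

theorem GB_comm (c : ℕ → k) (om : Fin p → k) (h : m < l) (hm : 2 ≤ m) :
    GB l m p c om * JL k l m p = JL k l m p * GB l m p c om := by
  refine ext_vup (fun j _ => ?_) (fun j _ => ?_) fun f => ?_
  · rw [← mulVec_mulVec, ← mulVec_mulVec, JL_vv, GB_vv, GB_vv, JL_vv]
  · rw [← mulVec_mulVec, ← mulVec_mulVec, JL_uu, GB_uu c 0 0 om 0 0 0 h hm, GB_uu c 0 0 om 0 0 0 h hm,
      mulVec_mulVec, BL_comm _ _ _ _ _ _ _ h hm, ← mulVec_mulVec, JL_vv]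
  · rw [← mulVec_mulVec, ← mulVec_mulVec, JL_pp, GB_pp, JL_pp, mulVec_zero]

theorem GB_det {c : ℕ → k} (om : Fin p → k) (hc : c 0 ≠ 0) :
    IsUnit (GB l m p c om).det := by
  rw [isUnit_iff_ne_zero]
  intro h0
  obtain ⟨w, hw, h1⟩ := Matrix.exists_mulVec_eq_zero_iff.2 h0
  apply hw
  have e1 : ∀ i, w (.inl i) = 0 := by
    intro i
    have h2 := congrFun h1 (.inl i)
    simpa [Matrix.mulVec, dotProduct, Fintype.sum_sum_type, GB] using h2
  have e2 : ∀ (n : ℕ) (i : Fin m), (i : ℕ) = n → w (.inr (.inl i)) = 0 := by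
    intro n
    induction n using Nat.strong_induction_on with
    | _ n ih =>
      intro i hi
      have h2 := congrFun h1 (.inr (.inl i))
      simp only [Matrix.mulVec, dotProduct, Fintype.sum_sum_type, GB, Matrix.of_apply, zero_mul,
        Finset.sum_const_zero, zero_add, add_zero, Pi.zero_apply] at h2
      rw [Finset.sum_eq_single i] at h2
      · rw [if_pos le_rfl, Nat.sub_self] at h2
        exact (mul_eq_zero.1 h2).resolve_left hc
      · intro j _ hj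
        by_cases h3 : (j : ℕ) ≤ i
        · rw [ih j (by have : (j : ℕ) ≠ i := fun h4 => hj (Fin.ext h4); omega) j rfl, mul_zero]
        · rw [if_neg h3, zero_mul]
      · intro h3
        exact absurd (Finset.mem_univ _) h3
  funext x
  rcases x with x | x | x
  · exact e1 x
  · exact e2 x x rfl
  · have h2 := congrFun h1 (.inr (.inr x))
    simp only [Matrix.mulVec, dotProduct, Fintype.sum_sum_type, GB, Matrix.of_apply, zero_mul,
      Finset.sum_const_zero, zero_add, Pi.zero_apply, ite_mul, one_mul, Finset.sum_ite_eq,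
      Finset.mem_univ, if_true] at h2
    rw [Finset.sum_eq_zero, zero_add] at h2
    · exact h2
    · intro j _
      rw [e2 j j rfl, mul_zero]
      simp

end LMIAux

open LMIAux

/-- normal form of case I -/
theorem nf1 [Infinite k] (hρ : ∀ i, ρ i = (JL k l m p ^ i).rank) (h : m < l) (hm : 2 ≤ m)
    {c b q : ℕ → k} {om pi th et : Fin p → k} {B' : Matrix (IL l m p) (IL l m p) k}
    (hT : MaxR ρ ![JL k l m p, BL l m p c b q om pi th et, B']) (hc : c 0 ≠ 0) :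
    ∃ (b q : ℕ → k) (pi th et o th' et' : Fin p → k),
      MaxR ρ ![JL k l m p, YL l m p b q pi th et, ZL l m p (th ⬝ᵥ o) (et ⬝ᵥ o) o th' et'] ∧
      th' ⬝ᵥ pi = (et ⬝ᵥ o) * b 0 ∧ et' ⬝ᵥ pi = 0 ∧ (b 0 = 0 ∨ et' = 0) := by
  have hl1 : ρ 1 ≤ (l - 1) + (m - 1) := by
    rw [hρ, pow_one]
    exact JL_rank
  obtain ⟨G, hG⟩ : ∃ G, G = GB l m p c om := ⟨_, rfl⟩
  have hGd : IsUnit G.det := by rw [hG]; exact GB_det om hc
  have g1 : G⁻¹ * G = 1 := Matrix.nonsing_inv_mul G hGd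
  have g2 : G * G⁻¹ = 1 := Matrix.mul_nonsing_inv G hGd
  have hN := hT.conj G⁻¹ G g1 g2
  have hGJ : G⁻¹ * JL k l m p * G = JL k l m p := by
    rw [mul_assoc, ← show G * JL k l m p = JL k l m p * G by rw [hG]; exact GB_comm c om h hm,
      ← mul_assoc, g1, one_mul]
  have e : (fun i => G⁻¹ * (![JL k l m p, BL l m p c b q om pi th et, B'] :
      Fin 3 → Matrix (IL l m p) (IL l m p) k) i * G) =
      ![JL k l m p, G⁻¹ * BL l m p c b q om pi th et * G, G⁻¹ * B' * G] := by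
    funext i
    fin_cases i
    · exact hGJ
    · rfl
    · rfl
  rw [e] at hN
  set Y : Matrix (IL l m p) (IL l m p) k := G⁻¹ * BL l m p c b q om pi th et * G with hY
  set Z : Matrix (IL l m p) (IL l m p) k := G⁻¹ * B' * G with hZ
  have hY0 : Y *ᵥ vv 0 = uu 0 := by
    have e1 : G *ᵥ vv 0 = vv 0 := by rw [hG]; exact GB_vv c om 0
    have e2 : G *ᵥ uu 0 = BL l m p c b q om pi th et *ᵥ vv 0 := by
      rw [hG]
      exact GB_uu c b q om pi th et h hm 0
    rw [hY, ← mulVec_mulVec, e1, ← mulVec_mulVec, ← e2, mulVec_mulVec, g1, one_mulVec]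
  have m0 := D8.mem0 (JL k l m p) Y Z
  have m1 := D8.mem1 (JL k l m p) Y Z
  have m2 := D8.mem2 (JL k l m p) Y Z
  have hxY : JL k l m p * Y = Y * JL k l m p := hN.cn.1 0 1
  obtain ⟨a, γ, b1, q1, o, pi1, th1, et1, hZs⟩ := shape_one hN hl1 h hm m0 m2
  -- subtract
  let S : Matrix (IL l m p) (IL l m p) k := ∑ i ∈ Finset.range l, a i • JL k l m p ^ (i + 1) +
    ∑ i ∈ Finset.range m, γ i • (JL k l m p ^ i * Y)
  have hSmem : ∀ Z' : Matrix (IL l m p) (IL l m p) k, S ∈ adj ![JL k l m p, Y, Z'] := by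
    intro Z'
    have n0 := D8.mem0 (JL k l m p) Y Z'
    have n1 := D8.mem1 (JL k l m p) Y Z'
    refine add_mem (sum_mem fun i _ => SMulMemClass.smul_mem _ (pow_mem_adj n0 i))
      (sum_mem fun i _ => SMulMemClass.smul_mem _ ?_)
    cases i with
    | zero => simpa using n1
    | succ i => exact mul_mem (pow_mem_adj n0 i) n1
  have hN2 : MaxR ρ ![JL k l m p, Y, Z - S] := by
    refine D8.MaxR.change3 hN m1 (sub_mem m2 (hSmem Z)) (D8.mem1 _ _ _) ?_
    have h5 := add_mem (D8.mem2 (JL k l m p) Y (Z - S)) (hSmem (Z - S))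
    rwa [sub_add_cancel] at h5
  have hZ0 : (Z - S) *ᵥ vv 0 = pp o := by
    have e1 : S *ᵥ vv 0 = (∑ i ∈ Finset.range l, a i • JL k l m p ^ (i + 1)) *ᵥ vv 0 +
        ∑ i ∈ Finset.range m, γ i • uu (0 + i) := by
      simp only [S]
      rw [add_mulVec, Matrix.sum_mulVec (s := Finset.range m)]
      congr 1
      refine Finset.sum_congr rfl fun i _ => ?_
      rw [smul_mulVec, ← mulVec_mulVec, hY0, JL_pow_uu]
    rw [sub_mulVec, e1]
    conv_lhs => rw [hZs, add_mulVec, BL_vv _ _ _ _ _ _ _ h.le (by omega), if_pos rfl]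
    abel
  obtain ⟨c3, b3, q3, om3, pi3, th3, et3, hYs⟩ := shape_two hN2 hl1 h hm (D8.mem0 _ _ _)
    (D8.mem1 _ _ _) (fun i => by rw [hY0]; rfl)
  obtain ⟨c4, b4, q4, om4, pi4, th4, et4, hZs'⟩ := shape_two hN2 hl1 h hm (D8.mem0 _ _ _)
    (D8.mem2 _ _ _) (fun i => by rw [hZ0]; rfl)
  have hcomp : ∀ (c b q : ℕ → k) (om pi th et : Fin p → k) (w : IL l m p → k),
      BL l m p c b q om pi th et *ᵥ vv 0 = w →
      (∀ i : Fin m, c i = w (.inr (.inl i))) ∧ ∀ i, om i = w (.inr (.inr i)) := by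
    intro c b q om pi th et w hw
    rw [mulVec_v0 _ (by omega)] at hw
    subst hw
    exact ⟨fun i => by simp [BL], fun i => by simp [BL]⟩
  have hY1 := hcomp c3 b3 q3 om3 pi3 th3 et3 (uu 0) (by rw [← hYs]; exact hY0)
  have hZ1 := hcomp c4 b4 q4 om4 pi4 th4 et4 (pp o) (by rw [← hZs']; exact hZ0)
  have hYf : Y = YL l m p b3 q3 pi3 th3 et3 := by
    rw [hYs, YL]
    have e1 : om3 = 0 := funext fun i => hY1.2 i
    rw [e1]
    refine BL_congr (fun a ha => ?_) (fun _ _ => rfl) (fun _ _ _ => rfl) h.le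
    have := hY1.1 ⟨a, ha⟩
    simpa [uu] using this
  have hcomm : Y * (Z - S) = (Z - S) * Y := hN2.cn.1 1 2
  have hZu : (Z - S) *ᵥ uu 0 = (th3 ⬝ᵥ o) • vv (l - 1) + (et3 ⬝ᵥ o) • uu (m - 1) := by
    rw [← hY0, mulVec_mulVec, ← hcomm, ← mulVec_mulVec, hZ0, hYf, YL_pp _ _ _ _ _ h hm]
  have hcomp2 : ∀ (c b q : ℕ → k) (om pi th et : Fin p → k) (w : IL l m p → k),
      BL l m p c b q om pi th et *ᵥ uu 0 = w →
      (∀ a (ha : a < m), b a = w (.inl ⟨l - m + a, by omega⟩)) ∧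
      (∀ i : Fin m, 0 < (i : ℕ) → q i = w (.inr (.inl i))) ∧ ∀ i, pi i = w (.inr (.inr i)) := by
    intro c b q om pi th et w hw
    rw [mulVec_u0 _ (by omega)] at hw
    subst hw
    refine ⟨fun a ha => ?_, fun i hi => ?_, fun i => by simp [BL]⟩
    · simp only [BL, Matrix.of_apply]
      rw [if_pos (by omega)]
      congr 1
      omega
    · simp only [BL, Matrix.of_apply]
      rw [if_pos hi]
      rfl
  have hZ2 := hcomp2 c4 b4 q4 om4 pi4 th4 et4
    ((th3 ⬝ᵥ o) • vv (l - 1) + (et3 ⬝ᵥ o) • uu (m - 1)) (by rw [← hZs']; exact hZu)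
  have hZf : Z - S = ZL l m p (th3 ⬝ᵥ o) (et3 ⬝ᵥ o) o th4 et4 := by
    rw [hZs', ZL]
    have e1 : om4 = o := funext fun i => hZ1.2 i
    have e2 : pi4 = 0 := by
      funext i
      rw [hZ2.2.2 i]
      simp [vv, uu]
    rw [e1, e2]
    refine BL_congr (fun a ha => ?_) (fun a ha => ?_) (fun a ha ha0 => ?_) h.le
    · have := hZ1.1 ⟨a, ha⟩
      simpa [pp] using this
    · rw [hZ2.1 a ha]
      simp only [Pi.add_apply, Pi.smul_apply, vv, uu, smul_eq_mul, mul_zero, add_zero]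
      by_cases h5 : a + 1 = m
      · rw [if_pos h5, if_pos (by omega), mul_one]
      · rw [if_neg h5, if_neg (by omega), mul_zero]
    · have h6 := hZ2.2.1 ⟨a, ha⟩ ha0
      rw [show ((⟨a, ha⟩ : Fin m) : ℕ) = a from rfl] at h6
      rw [h6]
      simp only [Pi.add_apply, Pi.smul_apply, vv, uu, smul_eq_mul, mul_zero, zero_add]
      by_cases h5 : a + 1 = m
      · rw [if_pos h5, if_pos (by omega), mul_one]
      · rw [if_neg h5, if_neg (by omega), mul_zero]
  rw [hYf, hZf] at hN2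
  rw [hYf, hZf] at hcomm
  have r1 : (et3 ⬝ᵥ o * b3 0) • (vv (l - 1) : IL l m p → k) =
      (th4 ⬝ᵥ pi3) • vv (l - 1) + (et4 ⬝ᵥ pi3) • uu (m - 1) := by
    rw [← YZ_uu b3 q3 pi3 th3 et3 (th3 ⬝ᵥ o) (et3 ⬝ᵥ o) o th4 et4 h hm,
      ← ZY_uu b3 q3 pi3 th3 et3 (th3 ⬝ᵥ o) (et3 ⬝ᵥ o) o th4 et4 h hm, mulVec_mulVec, mulVec_mulVec,
      hcomm]
  have r2 : ∀ f, ((et4 ⬝ᵥ f) * b3 0) • (vv (l - 1) : IL l m p → k) = 0 := by
    intro f
    rw [← YZ_pp b3 q3 pi3 th3 et3 (th3 ⬝ᵥ o) (et3 ⬝ᵥ o) o th4 et4 h hm,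
      ← ZY_pp b3 q3 pi3 th3 et3 (th3 ⬝ᵥ o) (et3 ⬝ᵥ o) o th4 et4 h hm f, mulVec_mulVec,
      mulVec_mulVec, hcomm]
  refine ⟨b3, q3, pi3, th3, et3, o, th4, et4, hN2, ?_, ?_, ?_⟩
  · have h6 := congrFun r1 (.inl ⟨l - 1, by omega⟩)
    simp [vv, uu] at h6
    exact h6.symm
  · have h6 := congrFun r1 (.inr (.inl ⟨m - 1, by omega⟩))
    simp [vv, uu] at h6
    exact h6.symm
  · by_cases hb : b3 0 = 0
    · exact Or.inl hb
    · right
      funext i
      have h6 := congrFun (r2 (Pi.single i 1)) (.inl ⟨l - 1, by omega⟩)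
      simp [vv, hb] at h6
      exact h6

end Pool.Agent.Lib.D13.LM
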