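import Pool.Agent.Lib.D13.LMI

/-!
# MP_5dcbc3_ag: the type `(l, m, 1^p)`, `l > m ≥ 3`, case I: deformations of the normal form and the
raise with a functional on `P`
-/

namespace Pool.Agent.Lib.D13.LM

open Matrix Pool.Agent.Lib.Q5dc Pool.Agent.Lib.D7

variable {k : Type*} [Field k] {l m p : ℕ} {ρ : ℕ → ℕ}

theorem YL_line (b q db dq : ℕ → k) (pi th et dth det : Fin p → k) (s : k) :
    YL l m p b q pi th et + s • BL l m p 0 db dq 0 0 dth det =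
      YL l m p (b + s • db) (q + s • dq) pi (th + s • dth) (et + s • det) := by
  rw [YL, YL, BL_smul, BL_add]
  simp

theorem ZL_line (s1 t1 s2 t2 : k) (o th et dth det : Fin p → k) (s : k) :
    ZL l m p s1 t1 o th et + s • ZL l m p s2 t2 0 dth det =
      ZL l m p (s1 + s * s2) (t1 + s * t2) o (th + s • dth) (et + s • det) := by
  rw [ZL, ZL, ZL, BL_smul, BL_add]
  congr 1
  · simp
  · funext a
    simp only [Pi.add_apply, Pi.smul_apply, smul_eq_mul]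
    split_ifs <;> simp
  · funext a
    simp only [Pi.add_apply, Pi.smul_apply, smul_eq_mul]
    split_ifs <;> simp
  · simp
  · simp

/-- moving the parameters of the normal form along a line -/
theorem nf_move [Infinite k] (h : m < l) (hm : 2 ≤ m) {b q : ℕ → k} {pi th et o th' et' : Fin p → k}
    (hT : MaxR ρ ![JL k l m p, YL l m p b q pi th et,
      ZL l m p (th ⬝ᵥ o) (et ⬝ᵥ o) o th' et'])
    (db dq : ℕ → k) (dth det dth' det' : Fin p → k)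
    (h1 : ∀ s : k, (th' + s • dth') ⬝ᵥ pi = ((et + s • det) ⬝ᵥ o) * (b + s • db) 0)
    (h2 : ∀ s : k, (et' + s • det') ⬝ᵥ pi = 0)
    (h3 : ∀ s : k, (b + s • db) 0 = 0 ∨ et' + s • det' = 0) {F : Set k} (hF : F.Finite) :
    ∃ s, s ∉ F ∧ MaxR ρ ![JL k l m p, YL l m p (b + s • db) (q + s • dq) pi (th + s • dth)
      (et + s • det), ZL l m p ((th + s • dth) ⬝ᵥ o) ((et + s • det) ⬝ᵥ o) o (th' + s • dth')
      (et' + s • det')] := by
  have e : ∀ s : k, ZL l m p (th ⬝ᵥ o) (et ⬝ᵥ o) o th' et' +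
      s • ZL l m p (dth ⬝ᵥ o) (det ⬝ᵥ o) 0 dth' det' =
      ZL l m p ((th + s • dth) ⬝ᵥ o) ((et + s • det) ⬝ᵥ o) o (th' + s • dth') (et' + s • det') := by
    intro s
    rw [ZL_line]
    simp only [add_dotProduct, smul_dotProduct, smul_eq_mul]
  obtain ⟨s, hs, h4⟩ := D8.MaxR.line2 hT (BL l m p 0 db dq 0 0 dth det)
    (ZL l m p (dth ⬝ᵥ o) (det ⬝ᵥ o) 0 dth' det') (fun s => by
      rw [YL_line, e]
      exact nf_cn h hm rfl rfl (h1 s) (h2 s) (h3 s)) hF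
  rw [YL_line, e] at h4
  exact ⟨s, hs, h4⟩

theorem fn0_vv (f : Fin p → k) (j : ℕ) : (fn 0 0 f : IL l m p → k) ⬝ᵥ vv j = 0 := by
  rw [fn_vv]
  simp

theorem fn0_uu (f : Fin p → k) (j : ℕ) : (fn 0 0 f : IL l m p → k) ⬝ᵥ uu j = 0 := by
  rw [fn_uu]
  simp

theorem fn0_BL (c b q : ℕ → k) (om pi th et f : Fin p → k) (h : m < l) (hm : 2 ≤ m)
    (h1 : f ⬝ᵥ om = 0) (h2 : f ⬝ᵥ pi = 0) :
    (fn 0 0 f : IL l m p → k) ᵥ* BL l m p c b q om pi th et = 0 := by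
  refine ext_fn (fun j _ => ?_) (fun j _ => ?_) fun e => ?_
  · rw [← dotProduct_mulVec, BL_vv _ _ _ _ _ _ _ h.le (by omega), dotProduct_add, dotProduct_sum,
      zero_dotProduct, Finset.sum_eq_zero, zero_add]
    · split_ifs
      · rw [fn_pp, h1]
      · rw [dotProduct_zero]
    · intro a _
      rw [dotProduct_smul, fn0_uu, smul_zero]
  · rw [← dotProduct_mulVec, BL_uu _ _ _ _ _ _ _ h.le (by omega), dotProduct_add, dotProduct_add,
      dotProduct_sum, dotProduct_sum, zero_dotProduct, Finset.sum_eq_zero, Finset.sum_eq_zero,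
      zero_add, zero_add]
    · split_ifs
      · rw [fn_pp, h2]
      · rw [dotProduct_zero]
    · intro a _
      rw [dotProduct_smul, fn0_uu, smul_zero]
    · intro a _
      rw [dotProduct_smul, fn0_vv, smul_zero]
  · rw [← dotProduct_mulVec, BL_pp _ _ _ _ _ _ _ (by omega) (by omega), dotProduct_add,
      dotProduct_smul, dotProduct_smul, fn0_vv, fn0_uu, zero_dotProduct]
    simp

theorem fn0_YL (b q : ℕ → k) (pi th et f : Fin p → k) (h : m < l) (hm : 2 ≤ m)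
    (h2 : f ⬝ᵥ pi = 0) : (fn 0 0 f : IL l m p → k) ᵥ* YL l m p b q pi th et = 0 :=
  fn0_BL _ _ _ _ _ _ _ _ h hm (dotProduct_zero f) h2

theorem fn0_ZL (s t : k) (o th et f : Fin p → k) (h : m < l) (hm : 2 ≤ m)
    (h2 : f ⬝ᵥ o = 0) : (fn 0 0 f : IL l m p → k) ᵥ* ZL l m p s t o th et = 0 :=
  fn0_BL _ _ _ _ _ _ _ _ h hm h2 (dotProduct_zero f)

theorem fn0_JL (f : Fin p → k) : (fn 0 0 f : IL l m p → k) ᵥ* JL k l m p = 0 := by
  refine ext_fn (fun j _ => ?_) (fun j _ => ?_) fun e => ?_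
  · rw [← dotProduct_mulVec, JL_vv, fn0_vv, zero_dotProduct]
  · rw [← dotProduct_mulVec, JL_uu, fn0_uu, zero_dotProduct]
  · rw [← dotProduct_mulVec, JL_pp, dotProduct_zero, zero_dotProduct]

theorem YL_uu_top2 (b q : ℕ → k) (pi th et : Fin p → k) (h : m < l) (hm : 3 ≤ m) :
    YL l m p b q pi th et *ᵥ uu (m - 2) =
      b 0 • vv (l - 2) + b 1 • vv (l - 1) + q 1 • uu (m - 1) := by
  rw [YL_uu _ _ _ _ _ h (by omega), if_neg (by omega), add_zero]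
  have e1 : ∑ a ∈ Finset.range m, b a • (vv (l - m + (m - 2) + a) : IL l m p → k) =
      b 0 • vv (l - 2) + b 1 • vv (l - 1) := by
    rw [← Finset.sum_subset (Finset.range_mono (show 2 ≤ m by omega))]
    · rw [Finset.sum_range_succ, Finset.sum_range_one, show l - m + (m - 2) + 0 = l - 2 by omega,
        show l - m + (m - 2) + 1 = l - 1 by omega]
    · intro a _ ha
      rw [Finset.mem_range, not_lt] at ha
      rw [vv_ge (by omega), smul_zero]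
  have e2 : ∑ a ∈ Finset.range m, (if a = 0 then 0 else q a) • (uu (m - 2 + a) : IL l m p → k) =
      q 1 • uu (m - 1) := by
    rw [Finset.sum_eq_single 1]
    · rw [if_neg (by omega), show m - 2 + 1 = m - 1 by omega]
    · intro a _ ha
      by_cases ha0 : a = 0
      · rw [if_pos ha0, zero_smul]
      · rw [uu_ge (by omega), smul_zero]
    · intro h1
      exact absurd (Finset.mem_range.2 (by omega)) h1
  rw [e1, e2]

theorem psi_core {n : Type*} [Fintype n] [DecidableEq n] [Infinite k] {J Y Z : Matrix n n k}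
    (hρ : ∀ i, ρ i = (J ^ i).rank) (hT : MaxR ρ ![J, Y, Z]) {ψ f0 f1 f2 e : n → k}
    (h0 : ψ ᵥ* J = 0) (h1 : ψ ᵥ* Y = 0) (h2 : ψ ᵥ* Z = 0) (g0 : ψ ⬝ᵥ f0 = 0) (g1 : ψ ⬝ᵥ f1 = 0)
    (g2 : ψ ⬝ᵥ f2 = 0) (e1 : J *ᵥ f1 = Y *ᵥ f0) (e2 : J *ᵥ f2 = Z *ᵥ f0) (e3 : Y *ᵥ f2 = Z *ᵥ f1)
    (he : J *ᵥ e = 0) (hψe : ψ ⬝ᵥ e ≠ 0) : ∃ v, f0 = J *ᵥ v := by
  obtain ⟨v, hv⟩ := MaxR.psi0 hT 0 (by
      rw [hρ]
      rfl) ψ (fun j => by
      fin_cases j
      · exact h0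
      · exact h1
      · exact h2) ![f0, f1, f2] (fun j => by
      fin_cases j
      · exact g0
      · exact g1
      · exact g2) (fun i j => by
      fin_cases i <;> fin_cases j
      · rfl
      · exact e1
      · exact e2
      · exact e1.symm
      · rfl
      · exact e3
      · exact e2.symm
      · exact e3.symm
      · rfl) e (by
      show J ^ (0 + 1) *ᵥ e = 0
      rw [zero_add, pow_one, he]) hψe
  have e3 : J ^ 0 *ᵥ f0 = J ^ (0 + 1) *ᵥ v := hv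
  rw [pow_zero, one_mulVec, zero_add, pow_one] at e3
  exact ⟨v, e3⟩

/-- the raise with a functional on `P` -/
theorem psi_raise [Infinite k] (hρ : ∀ i, ρ i = (JL k l m p ^ i).rank) (h : m < l) (hm : 3 ≤ m)
    {b q : ℕ → k} {pi th et o th' et' : Fin p → k}
    (hT : MaxR ρ ![JL k l m p, YL l m p b q pi th et,
      ZL l m p (th ⬝ᵥ o) (et ⬝ᵥ o) o th' et'])
    (h3 : b 0 = 0 ∨ et' = 0) {f e g ky kz : Fin p → k} (hfo : f ⬝ᵥ o = 0) (hfπ : f ⬝ᵥ pi = 0)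
    (hfg : f ⬝ᵥ g = 0) (hfe : f ⬝ᵥ e ≠ 0) (hg : g ≠ 0) (hky : f ⬝ᵥ ky = 0) (hkz : f ⬝ᵥ kz = 0)
    (hw : (et' ⬝ᵥ g) * b 1 + th ⬝ᵥ kz = th' ⬝ᵥ ky)
    (hu : (et' ⬝ᵥ g) * q 1 + et ⬝ᵥ kz + (if l = m + 1 then th' ⬝ᵥ g else 0) = et' ⬝ᵥ ky) :
    False := by
  have hYf2 : YL l m p b q pi th et *ᵥ ((th' ⬝ᵥ g) • vv (l - 2) + (et' ⬝ᵥ g) • uu (m - 2) + pp kz) =
      ZL l m p (th ⬝ᵥ o) (et ⬝ᵥ o) o th' et' *ᵥ
        ((th ⬝ᵥ g) • vv (l - 2) + (et ⬝ᵥ g) • uu (m - 2) + pp ky) := by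
    rw [mulVec_add, mulVec_add, mulVec_smul, mulVec_smul, YL_vv _ _ _ _ _ h (by omega),
      YL_uu_top2 _ _ _ _ _ h hm, YL_pp _ _ _ _ _ h (by omega), mulVec_add, mulVec_add,
      mulVec_smul, mulVec_smul, ZL_vv_pos _ _ _ _ _ h (by omega) (by omega),
      ZL_uu_pos _ _ _ _ _ h (by omega) (by omega), ZL_pp _ _ _ _ _ h (by omega), ← hw, ← hu]
    have e1 : ((et' ⬝ᵥ g) * b 0) • (vv (l - 2) : IL l m p → k) = 0 := by
      rcases h3 with h3 | h3
      · rw [h3, mul_zero, zero_smul]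
      · rw [h3, zero_dotProduct, zero_mul, zero_smul]
    have e2 : (th' ⬝ᵥ g) • (uu (l - 2) : IL l m p → k) =
        (if l = m + 1 then th' ⬝ᵥ g else 0) • uu (m - 1) := by
      by_cases h4 : l = m + 1
      · rw [if_pos h4, show l - 2 = m - 1 by omega]
      · rw [if_neg h4, uu_ge (by omega)]
        simp
    rw [e2, smul_add, smul_add, smul_smul, smul_smul, smul_smul, e1, smul_zero, smul_zero]
    module
  have hψ0 := fn0_JL (l := l) (m := m) f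
  have hψ1 := fn0_YL b q pi th et f h (by omega) hfπ
  have hψ2 := fn0_ZL (th ⬝ᵥ o) (et ⬝ᵥ o) o th' et' f h (by omega) hfo
  have e1 : JL k l m p *ᵥ ((th ⬝ᵥ g) • vv (l - 2) + (et ⬝ᵥ g) • uu (m - 2) + pp ky) =
      YL l m p b q pi th et *ᵥ pp g := by
    rw [mulVec_add, mulVec_add, mulVec_smul, mulVec_smul, JL_vv, JL_uu, JL_pp,
      YL_pp _ _ _ _ _ h (by omega), add_zero, show l - 2 + 1 = l - 1 by omega,
      show m - 2 + 1 = m - 1 by omega]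
  have e2 : JL k l m p *ᵥ ((th' ⬝ᵥ g) • vv (l - 2) + (et' ⬝ᵥ g) • uu (m - 2) + pp kz) =
      ZL l m p (th ⬝ᵥ o) (et ⬝ᵥ o) o th' et' *ᵥ pp g := by
    rw [mulVec_add, mulVec_add, mulVec_smul, mulVec_smul, JL_vv, JL_uu, JL_pp,
      ZL_pp _ _ _ _ _ h (by omega), add_zero, show l - 2 + 1 = l - 1 by omega,
      show m - 2 + 1 = m - 1 by omega]
  have hf1 : fn 0 0 f ⬝ᵥ ((th ⬝ᵥ g) • vv (l - 2) + (et ⬝ᵥ g) • uu (m - 2) + pp ky :
      IL l m p → k) = 0 := by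
    rw [dotProduct_add, dotProduct_add, dotProduct_smul, dotProduct_smul, fn0_vv, fn0_uu,
      fn_pp, hky]
    simp
  have hf2 : fn 0 0 f ⬝ᵥ ((th' ⬝ᵥ g) • vv (l - 2) + (et' ⬝ᵥ g) • uu (m - 2) + pp kz :
      IL l m p → k) = 0 := by
    rw [dotProduct_add, dotProduct_add, dotProduct_smul, dotProduct_smul, fn0_vv, fn0_uu,
      fn_pp, hkz]
    simp
  have hf0 : fn 0 0 f ⬝ᵥ (pp g : IL l m p → k) = 0 := by rw [fn_pp, hfg]
  have hfe' : fn 0 0 f ⬝ᵥ (pp e : IL l m p → k) ≠ 0 := by rw [fn_pp]; exact hfe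
  have hv' := psi_core hρ hT hψ0 hψ1 hψ2 hf0 hf1 hf2 e1 e2 hYf2 (by rw [JL_pp]) hfe'
  apply hg
  funext a
  obtain ⟨v, hv'⟩ := hv'
  have h5 := congrFun hv' (.inr (.inr a))
  rw [JL_apply_p] at h5
  exact h5

end Pool.Agent.Lib.D13.LM
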