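import Pool.Agent.Lib.D13.LM

/-!
# MP_5dcbc3_ag: the type `(l, m, 1^p)`: rules for the matrices `BL`, duality, functionals
-/

namespace Pool.Agent.Lib.D13.LM

open Matrix Pool.Agent.Lib.Q5dc Pool.Agent.Lib.D7

variable {k : Type*} [Field k] {l m p : ℕ}
variable (c b q c' b' q' : ℕ → k) (om pi th et om' pi' th' et' : Fin p → k)

theorem BL_vv (h : m ≤ l) (hl : 0 < l) (j : ℕ) : BL l m p c b q om pi th et *ᵥ vv j =
    ∑ a ∈ Finset.range m, c a • uu (j + a) + if j = 0 then pp om else 0 := by
  rcases Nat.lt_or_ge j l with hj | hj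
  · have h1 := mulVec_vv (BL l m p c b q om pi th et) ⟨j, hj⟩
    rw [show ((⟨j, hj⟩ : Fin l) : ℕ) = j from rfl] at h1
    rw [h1]
    funext x
    rw [Pi.add_apply, Finset.sum_apply]
    rcases x with x | x | x
    · simp only [BL, Matrix.of_apply, uu, Pi.smul_apply, smul_zero, Finset.sum_const_zero, zero_add]
      split_ifs <;> rfl
    · simp only [BL, Matrix.of_apply, uu, Pi.smul_apply, smul_eq_mul]
      have h2 : (if j = 0 then pp om else 0 : IL l m p → k) (.inr (.inl x)) = 0 := by
        split_ifs <;> rfl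
      rw [h2, add_zero]
      by_cases h3 : j ≤ (x : ℕ)
      · rw [if_pos h3, Finset.sum_eq_single ((x : ℕ) - j)]
        · rw [if_pos (by omega), mul_one]
        · intro a _ ha
          rw [if_neg (by omega), mul_zero]
        · intro h4
          exact absurd (Finset.mem_range.2 (by have := x.2; omega)) h4
      · rw [if_neg h3]
        symm
        refine Finset.sum_eq_zero fun a _ => ?_
        rw [if_neg (by omega), mul_zero]
    · simp only [BL, Matrix.of_apply, uu, Pi.smul_apply, smul_zero, Finset.sum_const_zero, zero_add]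
      split_ifs <;> rfl
  · rw [vv_ge hj, mulVec_zero, if_neg (by omega), add_zero, Finset.sum_eq_zero]
    intro a _
    rw [uu_ge (by omega), smul_zero]

theorem BL_uu (h : m ≤ l) (hm : 0 < m) (j : ℕ) : BL l m p c b q om pi th et *ᵥ uu j =
    ∑ a ∈ Finset.range m, b a • vv (l - m + j + a) +
      ∑ a ∈ Finset.range m, (if a = 0 then 0 else q a) • uu (j + a) +
      if j = 0 then pp pi else 0 := by
  rcases Nat.lt_or_ge j m with hj | hj
  · have h1 := mulVec_uu (BL l m p c b q om pi th et) ⟨j, hj⟩
    rw [show ((⟨j, hj⟩ : Fin m) : ℕ) = j from rfl] at h1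
    rw [h1]
    funext x
    rw [Pi.add_apply, Pi.add_apply, Finset.sum_apply, Finset.sum_apply]
    rcases x with x | x | x
    · simp only [BL, Matrix.of_apply, uu, vv, Pi.smul_apply, smul_eq_mul, mul_zero,
        Finset.sum_const_zero, add_zero]
      have h2 : (if j = 0 then pp pi else 0 : IL l m p → k) (.inl x) = 0 := by
        split_ifs <;> rfl
      rw [h2, add_zero]
      by_cases h3 : l - m + j ≤ (x : ℕ)
      · rw [if_pos h3, Finset.sum_eq_single ((x : ℕ) - (l - m) - j)]
        · rw [if_pos (by omega), mul_one]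
        · intro a _ ha
          rw [if_neg (by omega), mul_zero]
        · intro h4
          exact absurd (Finset.mem_range.2 (by have := x.2; omega)) h4
      · rw [if_neg h3]
        symm
        refine Finset.sum_eq_zero fun a _ => ?_
        rw [if_neg (by omega), mul_zero]
    · simp only [BL, Matrix.of_apply, uu, vv, Pi.smul_apply, smul_eq_mul, mul_zero,
        Finset.sum_const_zero, zero_add]
      have h2 : (if j = 0 then pp pi else 0 : IL l m p → k) (.inr (.inl x)) = 0 := by
        split_ifs <;> rfl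
      rw [h2, add_zero]
      by_cases h3 : j < (x : ℕ)
      · rw [if_pos h3, Finset.sum_eq_single ((x : ℕ) - j)]
        · rw [if_pos (show (x : ℕ) = j + (x - j) by omega), if_neg (by omega), mul_one]
        · intro a _ ha
          rw [if_neg (show ¬ (x : ℕ) = j + a by omega), mul_zero]
        · intro h4
          exact absurd (Finset.mem_range.2 (by have := x.2; omega)) h4
      · rw [if_neg h3]
        symm
        refine Finset.sum_eq_zero fun a _ => ?_
        by_cases ha : a = 0
        · rw [if_pos ha, zero_mul]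
        · rw [if_neg (show ¬ (x : ℕ) = j + a by omega), mul_zero]
    · simp only [BL, Matrix.of_apply, uu, vv, Pi.smul_apply, smul_zero, Finset.sum_const_zero,
        zero_add]
      split_ifs <;> rfl
  · rw [uu_ge hj, mulVec_zero, if_neg (by omega), add_zero, Finset.sum_eq_zero,
      Finset.sum_eq_zero, add_zero]
    · intro a _
      rw [uu_ge (by omega), smul_zero]
    · intro a _
      rw [vv_ge (by omega), smul_zero]

theorem BL_pp (hl : 0 < l) (hm : 0 < m) (f : Fin p → k) : BL l m p c b q om pi th et *ᵥ pp f =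
    (th ⬝ᵥ f) • vv (l - 1) + (et ⬝ᵥ f) • uu (m - 1) := by
  rw [mulVec_pp]
  funext x
  rcases x with x | x | x
  · simp only [BL, Matrix.of_apply, uu, vv, Pi.add_apply, Pi.smul_apply, smul_eq_mul, mul_zero,
      add_zero]
    by_cases h : (x : ℕ) + 1 = l
    · simp only [if_pos h, dotProduct]
      rw [if_pos (by omega), mul_one]
    · simp only [if_neg h, zero_mul, Finset.sum_const_zero]
      rw [if_neg (by omega), mul_zero]
  · simp only [BL, Matrix.of_apply, uu, vv, Pi.add_apply, Pi.smul_apply, smul_eq_mul, mul_zero,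
      zero_add]
    by_cases h : (x : ℕ) + 1 = m
    · simp only [if_pos h, dotProduct]
      rw [if_pos (by omega), mul_one]
    · simp only [if_neg h, zero_mul, Finset.sum_const_zero]
      rw [if_neg (by omega), mul_zero]
  · simp [BL, uu, vv]

/-- `BL` commutes with `JL` -/
theorem BL_comm (h : m < l) (hm : 2 ≤ m) :
    JL k l m p * BL l m p c b q om pi th et = BL l m p c b q om pi th et * JL k l m p := by
  refine ext_vup (fun j _ => ?_) (fun j _ => ?_) fun f => ?_
  · rw [← mulVec_mulVec, ← mulVec_mulVec, JL_vv, BL_vv _ _ _ _ _ _ _ h.le (by omega),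
      BL_vv _ _ _ _ _ _ _ h.le (by omega), mulVec_add, Matrix.mulVec_sum]
    simp only [mulVec_smul, JL_uu]
    have h1 : JL k l m p *ᵥ (if j = 0 then pp om else 0 : IL l m p → k) = 0 := by
      split_ifs
      · exact JL_pp _
      · exact mulVec_zero _
    rw [h1, if_neg (by omega)]
    congr 1
    refine Finset.sum_congr rfl fun a _ => ?_
    rw [show j + a + 1 = j + 1 + a by omega]
  · rw [← mulVec_mulVec, ← mulVec_mulVec, JL_uu, BL_uu _ _ _ _ _ _ _ h.le (by omega),
      BL_uu _ _ _ _ _ _ _ h.le (by omega), mulVec_add, mulVec_add, Matrix.mulVec_sum,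
      Matrix.mulVec_sum]
    simp only [mulVec_smul, JL_uu, JL_vv]
    have h1 : JL k l m p *ᵥ (if j = 0 then pp pi else 0 : IL l m p → k) = 0 := by
      split_ifs
      · exact JL_pp _
      · exact mulVec_zero _
    rw [h1, if_neg (by omega)]
    congr 1
    congr 1
    · refine Finset.sum_congr rfl fun a _ => ?_
      rw [show l - m + j + a + 1 = l - m + (j + 1) + a by omega]
    · refine Finset.sum_congr rfl fun a _ => ?_
      rw [show j + a + 1 = j + 1 + a by omega]
  · rw [← mulVec_mulVec, ← mulVec_mulVec, JL_pp, mulVec_zero,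
      BL_pp _ _ _ _ _ _ _ (by omega) (by omega), mulVec_add, mulVec_smul, mulVec_smul, JL_uu,
      JL_vv, vv_ge (by omega), uu_ge (by omega), smul_zero, smul_zero, add_zero]

theorem BL_add : BL l m p c b q om pi th et + BL l m p c' b' q' om' pi' th' et' =
    BL l m p (c + c') (b + b') (q + q') (om + om') (pi + pi') (th + th') (et + et') := by
  ext x y
  rcases x with x | x | x <;> rcases y with y | y | y <;>
    simp only [BL, Matrix.add_apply, Matrix.of_apply, Pi.add_apply, add_zero] <;>
    split_ifs <;> simp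

theorem BL_smul (s : k) : s • BL l m p c b q om pi th et =
    BL l m p (s • c) (s • b) (s • q) (s • om) (s • pi) (s • th) (s • et) := by
  ext x y
  rcases x with x | x | x <;> rcases y with y | y | y <;>
    simp only [BL, Matrix.smul_apply, Matrix.of_apply, Pi.smul_apply, smul_zero] <;>
    split_ifs <;> simp

/-! ### duality -/

/-- reversal of the Jordan blocks -/
def sgL : IL l m p → IL l m p
  | .inl i => .inl i.rev
  | .inr (.inl i) => .inr (.inl i.rev)
  | .inr (.inr i) => .inr (.inr i)

theorem sgL_sgL (x : IL l m p) : sgL (sgL x) = x := by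
  rcases x with x | x | x <;> simp [sgL]

/-- its permutation matrix -/
def PL (k : Type*) [Field k] (l m p : ℕ) : Matrix (IL l m p) (IL l m p) k :=
  Matrix.of fun i j => if i = sgL j then 1 else 0

theorem PL_mul (M : Matrix (IL l m p) (IL l m p) k) (x y : IL l m p) :
    (PL k l m p * M) x y = M (sgL x) y := by
  rw [Matrix.mul_apply, Finset.sum_eq_single (sgL x)]
  · simp [PL, sgL_sgL]
  · intro z _ hz
    simp only [PL, Matrix.of_apply]
    rw [if_neg, zero_mul]
    rintro rfl
    exact hz (sgL_sgL z).symm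
  · intro h
    exact absurd (Finset.mem_univ _) h

theorem mul_PL (M : Matrix (IL l m p) (IL l m p) k) (x y : IL l m p) :
    (M * PL k l m p) x y = M x (sgL y) := by
  rw [Matrix.mul_apply, Finset.sum_eq_single (sgL y)]
  · simp [PL]
  · intro z _ hz
    simp only [PL, Matrix.of_apply]
    rw [if_neg hz, mul_zero]
  · intro h
    exact absurd (Finset.mem_univ _) h

theorem PL_mul_PL : PL k l m p * PL k l m p = 1 := by
  ext x y
  rw [PL_mul]
  by_cases h : x = y
  · subst h
    simp [PL]
  · rw [Matrix.one_apply_ne h]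
    simp only [PL, Matrix.of_apply]
    rw [if_neg]
    intro h1
    exact h (by rw [← sgL_sgL x, h1, sgL_sgL])

theorem PL_JL : PL k l m p * (JL k l m p)ᵀ * PL k l m p = JL k l m p := by
  ext x y
  rw [mul_PL, PL_mul, Matrix.transpose_apply]
  rcases x with x | x | x <;> rcases y with y | y | y <;>
    simp only [sgL, JL, Matrix.of_apply, Fin.val_rev]
  · have hx := x.2
    have hy := y.2
    by_cases h : (x : ℕ) = y + 1
    · rw [if_pos h, if_pos (by omega)]
    · rw [if_neg h, if_neg (by omega)]
  · have hx := x.2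
    have hy := y.2
    by_cases h : (x : ℕ) = y + 1
    · rw [if_pos h, if_pos (by omega)]
    · rw [if_neg h, if_neg (by omega)]

theorem PL_BL (h : m ≤ l) : PL k l m p * (BL l m p c b q om pi th et)ᵀ * PL k l m p =
    BL l m p b c q th et om pi := by
  ext x y
  rw [mul_PL, PL_mul, Matrix.transpose_apply]
  rcases x with x | x | x <;> rcases y with y | y | y <;>
    simp only [sgL, BL, Matrix.of_apply, Fin.val_rev]
  · have hx := x.2
    have hy := y.2
    by_cases h1 : l - m + (y : ℕ) ≤ x
    · rw [if_pos h1, if_pos (by omega)]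
      congr 1
      omega
    · rw [if_neg h1, if_neg (by omega)]
  · have hx := x.2
    by_cases h1 : (x : ℕ) + 1 = l
    · rw [if_pos h1, if_pos (by omega)]
    · rw [if_neg h1, if_neg (by omega)]
  · have hx := x.2
    have hy := y.2
    by_cases h1 : (y : ℕ) ≤ x
    · rw [if_pos h1, if_pos (by omega)]
      congr 1
      omega
    · rw [if_neg h1, if_neg (by omega)]
  · have hx := x.2
    have hy := y.2
    by_cases h1 : (y : ℕ) < x
    · rw [if_pos h1, if_pos (by omega)]
      congr 1
      omega
    · rw [if_neg h1, if_neg (by omega)]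
  · have hx := x.2
    by_cases h1 : (x : ℕ) + 1 = m
    · rw [if_pos h1, if_pos (by omega)]
    · rw [if_neg h1, if_neg (by omega)]
  · have hy := y.2
    by_cases h1 : (y : ℕ) = 0
    · rw [if_pos h1, if_pos (by omega)]
    · rw [if_neg h1, if_neg (by omega)]
  · have hy := y.2
    by_cases h1 : (y : ℕ) = 0
    · rw [if_pos h1, if_pos (by omega)]
    · rw [if_neg h1, if_neg (by omega)]

/-- the dual of a maximal bad triple -/
theorem MaxR.dualL {ρ : ℕ → ℕ} (h : m ≤ l)
    (hT : MaxR ρ ![JL k l m p, BL l m p c b q om pi th et, BL l m p c' b' q' om' pi' th' et']) :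
    MaxR ρ ![JL k l m p, BL l m p b c q th et om pi, BL l m p b' c' q' th' et' om' pi'] := by
  have h1 := hT.transpose.conj _ _ PL_mul_PL PL_mul_PL
  have h2 : (fun i => PL k l m p * ((![JL k l m p, BL l m p c b q om pi th et,
      BL l m p c' b' q' om' pi' th' et'] : Fin 3 → Matrix (IL l m p) (IL l m p) k) i)ᵀ *
      PL k l m p) = ![JL k l m p, BL l m p b c q th et om pi, BL l m p b' c' q' th' et' om' pi'] := by
    funext i
    fin_cases i
    · exact PL_JL
    · exact PL_BL _ _ _ _ _ _ _ h
    · exact PL_BL _ _ _ _ _ _ _ h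
  rwa [h2] at h1

/-! ### functionals -/

/-- the functional with values `a j` on `v_j`, `b j` on `u_j`, `f` on `P` -/
def fn (a b : ℕ → k) (f : Fin p → k) : IL l m p → k
  | .inl i => a i
  | .inr (.inl i) => b i
  | .inr (.inr i) => f i

theorem fn_vv (a b : ℕ → k) (f : Fin p → k) (j : ℕ) :
    (fn a b f : IL l m p → k) ⬝ᵥ vv j = if j < l then a j else 0 := by
  split_ifs with h
  · simp only [dotProduct, Fintype.sum_sum_type, fn, vv, mul_zero, Finset.sum_const_zero, add_zero]
    rw [Finset.sum_eq_single ⟨j, h⟩]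
    · rw [if_pos rfl, mul_one]
    · intro i _ hi
      rw [if_neg, mul_zero]
      intro h1
      exact hi (Fin.ext h1)
    · intro h1
      exact absurd (Finset.mem_univ _) h1
  · rw [vv_ge (by omega), dotProduct_zero]

theorem fn_uu (a b : ℕ → k) (f : Fin p → k) (j : ℕ) :
    (fn a b f : IL l m p → k) ⬝ᵥ uu j = if j < m then b j else 0 := by
  split_ifs with h
  · simp only [dotProduct, Fintype.sum_sum_type, fn, uu, mul_zero, Finset.sum_const_zero, add_zero,
      zero_add]
    rw [Finset.sum_eq_single ⟨j, h⟩]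
    · rw [if_pos rfl, mul_one]
    · intro i _ hi
      rw [if_neg, mul_zero]
      intro h1
      exact hi (Fin.ext h1)
    · intro h1
      exact absurd (Finset.mem_univ _) h1
  · rw [uu_ge (by omega), dotProduct_zero]

theorem fn_pp (a b : ℕ → k) (f g : Fin p → k) :
    (fn a b f : IL l m p → k) ⬝ᵥ pp g = f ⬝ᵥ g := by
  simp [dotProduct, Fintype.sum_sum_type, fn, pp]

/-- functionals are determined by their values on the basis vectors -/
theorem ext_fn {f g : IL l m p → k} (h1 : ∀ j < l, f ⬝ᵥ vv j = g ⬝ᵥ vv j)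
    (h2 : ∀ j < m, f ⬝ᵥ uu j = g ⬝ᵥ uu j) (h3 : ∀ e, f ⬝ᵥ pp e = g ⬝ᵥ pp e) : f = g := by
  have hv : ∀ (f : IL l m p → k) (j : Fin l), f ⬝ᵥ vv j = f (.inl j) := by
    intro f j
    simp [dotProduct, Fintype.sum_sum_type, vv, Fin.val_inj]
  have hu : ∀ (f : IL l m p → k) (j : Fin m), f ⬝ᵥ uu j = f (.inr (.inl j)) := by
    intro f j
    simp [dotProduct, Fintype.sum_sum_type, uu, Fin.val_inj]
  have hp : ∀ (f : IL l m p → k) (j : Fin p), f ⬝ᵥ pp (Pi.single j 1) = f (.inr (.inr j)) := by
    intro f j
    simp [dotProduct, Fintype.sum_sum_type, pp, Pi.single_apply]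
  funext x
  rcases x with x | x | x
  · rw [← hv f, ← hv g]
    exact h1 x x.2
  · rw [← hu f, ← hu g]
    exact h2 x x.2
  · rw [← hp f, ← hp g]
    exact h3 _

end Pool.Agent.Lib.D13.LM
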