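import Pool.Agent.Lib.D13.L2Shape
import Pool.Agent.Lib.D9.BlkMap

/-!
# MP_5dcbc3_ag: one long block and any module

Index type `Fin n ⊕ ι`: a block `v_0, .., v_(n-1)` of size `n` and a space `R` with a nilpotent matrix `x`.
`LAn n x`: `v_i -> v_(i+1)`, `r -> x r`.
`LXn n x G a b`: `v_j -> x^j a`, `r -> sum_i b(x^(n-1-i) r) v_i + G r`.
This generalises `LX` of `L2Defs` (`x^2 = 0`).
-/

namespace Pool.Agent.Lib.D13

open Matrix Pool.Agent.Lib.Q5dc Pool.Agent.Lib.D7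

variable {k : Type*} [Field k] {ι : Type*} [Fintype ι] [DecidableEq ι]

/-- `v_i -> v_(i+1)`, `r -> x r` -/
def LAn (n : ℕ) (x : Matrix ι ι k) : Matrix (Fin n ⊕ ι) (Fin n ⊕ ι) k :=
  fromBlocks (ShF k n) 0 0 x

/-- `R -> L` part of `LXn` -/
def Lbn (n : ℕ) (x : Matrix ι ι k) (b : ι → k) : Matrix (Fin n) ι k :=
  Matrix.of fun i => b ᵥ* x ^ (n - 1 - (i : ℕ))

/-- `L -> R` part of `LXn` -/
def Lcn (n : ℕ) (x : Matrix ι ι k) (a : ι → k) : Matrix ι (Fin n) k :=
  Matrix.of fun r j => (x ^ (j : ℕ) *ᵥ a) r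

/-- `v_j -> x^j a`, `r -> sum_i b(x^(n-1-i) r) v_i + G r` -/
def LXn (n : ℕ) (x G : Matrix ι ι k) (a b : ι → k) : Matrix (Fin n ⊕ ι) (Fin n ⊕ ι) k :=
  fromBlocks 0 (Lbn n x b) (Lcn n x a) G

/-- `sum_i x^i a (x) b x^(n-1-i)` -/
def Wn (n : ℕ) (x : Matrix ι ι k) (a b : ι → k) : Matrix ι ι k := Lcn n x a * Lbn n x b

namespace LN

variable {n : ℕ} {x G G' : Matrix ι ι k} {a a' b b' : ι → k}

theorem Lbn_apply (i : Fin n) (r : ι) : Lbn n x b i r = (b ᵥ* x ^ (n - 1 - (i : ℕ))) r := rfl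

theorem Lcn_apply (r : ι) (j : Fin n) : Lcn n x a r j = (x ^ (j : ℕ) *ᵥ a) r := rfl

theorem ShF_apply (i j : Fin n) : ShF k n i j = if (i : ℕ) = (j : ℕ) + 1 then 1 else 0 := rfl

theorem ShF_mul_apply {κ : Type*} (M : Matrix (Fin n) κ k) (i : Fin n) (r : κ) :
    (ShF k n * M) i r = if h : 0 < (i : ℕ) then M ⟨(i : ℕ) - 1, by omega⟩ r else 0 := by
  rw [Matrix.mul_apply]
  by_cases h : 0 < (i : ℕ)
  · rw [dif_pos h, Finset.sum_eq_single ⟨(i : ℕ) - 1, by omega⟩]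
    · rw [ShF_apply, if_pos (by simp only; omega), one_mul]
    · intro j _ hj
      rw [ShF_apply, if_neg (fun e => hj (Fin.ext (by simp only; omega))), zero_mul]
    · intro hc
      exact absurd (Finset.mem_univ _) hc
  · rw [dif_neg h]
    refine Finset.sum_eq_zero fun j _ => ?_
    rw [ShF_apply, if_neg (by omega), zero_mul]

theorem mul_ShF_apply {κ : Type*} (M : Matrix κ (Fin n) k) (r : κ) (j : Fin n) :
    (M * ShF k n) r j = if h : (j : ℕ) + 1 < n then M r ⟨(j : ℕ) + 1, h⟩ else 0 := by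
  rw [Matrix.mul_apply]
  by_cases h : (j : ℕ) + 1 < n
  · rw [dif_pos h, Finset.sum_eq_single ⟨(j : ℕ) + 1, h⟩]
    · rw [ShF_apply, if_pos rfl, mul_one]
    · intro i _ hi
      rw [ShF_apply, if_neg (fun e => hi (Fin.ext e)), mul_zero]
    · intro hc
      exact absurd (Finset.mem_univ _) hc
  · rw [dif_neg h]
    refine Finset.sum_eq_zero fun i _ => ?_
    have hi := i.2
    rw [ShF_apply, if_neg (by omega), mul_zero]

theorem ShF_Lbn (hx : x ^ n = 0) : ShF k n * Lbn n x b = Lbn n x b * x := by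
  ext i r
  rw [ShF_mul_apply]
  have e : (Lbn n x b * x) i r = (b ᵥ* x ^ (n - 1 - (i : ℕ) + 1)) r := by
    rw [pow_succ, ← vecMul_vecMul]
    rfl
  rw [e]
  have hi := i.2
  by_cases h : 0 < (i : ℕ)
  · rw [dif_pos h, Lbn_apply]
    have e1 : n - 1 - ((⟨(i : ℕ) - 1, by omega⟩ : Fin n) : ℕ) = n - 1 - (i : ℕ) + 1 := by
      simp only
      omega
    rw [e1]
  · rw [dif_neg h]
    have e1 : n - 1 - (i : ℕ) + 1 = n := by omega
    rw [e1, hx, vecMul_zero]
    rfl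

theorem Lcn_ShF (hx : x ^ n = 0) : Lcn n x a * ShF k n = x * Lcn n x a := by
  ext r j
  rw [mul_ShF_apply]
  have e : (x * Lcn n x a) r j = (x ^ ((j : ℕ) + 1) *ᵥ a) r := by
    rw [pow_succ', ← mulVec_mulVec]
    rfl
  rw [e]
  by_cases h : (j : ℕ) + 1 < n
  · rw [dif_pos h, Lcn_apply]
  · rw [dif_neg h]
    have e1 : (j : ℕ) + 1 = n := by
      have := j.2
      omega
    rw [e1, hx, zero_mulVec]
    rfl

theorem LAn_comm_LXn (hx : x ^ n = 0) (hG : x * G = G * x) :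
    LAn n x * LXn n x G a b = LXn n x G a b * LAn n x := by
  rw [LAn, LXn, fromBlocks_multiply, fromBlocks_multiply]
  simp [ShF_Lbn hx, Lcn_ShF hx, hG]

theorem Lbn_mul_Lcn (i j : Fin n) :
    (Lbn n x b * Lcn n x a) i j = b ⬝ᵥ (x ^ (n - 1 - (i : ℕ) + j) *ᵥ a) := by
  rw [pow_add, ← mulVec_mulVec, dotProduct_mulVec]
  rfl

theorem Lbn_mul (M : Matrix ι ι k) (i : Fin n) :
    (Lbn n x b * M) i = b ᵥ* (x ^ (n - 1 - (i : ℕ)) * M) := by
  rw [← vecMul_vecMul]
  rfl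

theorem mul_Lcn (M : Matrix ι ι k) (r : ι) (j : Fin n) :
    (M * Lcn n x a) r j = ((M * x ^ (j : ℕ)) *ᵥ a) r := by
  rw [← mulVec_mulVec]
  rfl

theorem LXn_mul : LXn n x G a b * LXn n x G' a' b' =
    fromBlocks (Lbn n x b * Lcn n x a') (Lbn n x b * G') (G * Lcn n x a')
      (Wn n x a b' + G * G') := by
  rw [LXn, LXn, fromBlocks_multiply]
  simp [Wn]

/-- sufficient conditions -/
theorem LXn_comm (hG : x * G = G * x) (hG' : x * G' = G' * x)
    (h1 : Wn n x a b' + G * G' = Wn n x a' b + G' * G) (h2 : G *ᵥ a' = G' *ᵥ a)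
    (h3 : b ᵥ* G' = b' ᵥ* G) (h4 : ∀ t, b ⬝ᵥ (x ^ t *ᵥ a') = b' ⬝ᵥ (x ^ t *ᵥ a)) :
    LXn n x G a b * LXn n x G' a' b' = LXn n x G' a' b' * LXn n x G a b := by
  have c1 : ∀ j, x ^ j * G = G * x ^ j := fun j => (Commute.pow_left (show Commute x G from hG) j)
  have c2 : ∀ j, x ^ j * G' = G' * x ^ j := fun j => (Commute.pow_left (show Commute x G' from hG') j)
  rw [LXn_mul, LXn_mul, fromBlocks_inj]
  refine ⟨?_, ?_, ?_, h1⟩
  · ext i j
    rw [Lbn_mul_Lcn, Lbn_mul_Lcn, h4]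
  · ext i r
    rw [Lbn_mul, Lbn_mul, c2, c1, ← vecMul_vecMul, ← vecMul_vecMul, h3]
  · ext r j
    rw [mul_Lcn, mul_Lcn, ← c1, ← c2, ← mulVec_mulVec, ← mulVec_mulVec, h2]

/-- relations for commuting matrices -/
theorem rel (hx : x ^ n = 0) (hn : 0 < n)
    (h : LXn n x G a b * LXn n x G' a' b' = LXn n x G' a' b' * LXn n x G a b) :
    Wn n x a b' + G * G' = Wn n x a' b + G' * G ∧ G *ᵥ a' = G' *ᵥ a ∧ b ᵥ* G' = b' ᵥ* G ∧
      ∀ t, b ⬝ᵥ (x ^ t *ᵥ a') = b' ⬝ᵥ (x ^ t *ᵥ a) := by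
  rw [LXn_mul, LXn_mul, fromBlocks_inj] at h
  obtain ⟨h11, h12, h21, h22⟩ := h
  refine ⟨h22, ?_, ?_, ?_⟩
  · ext r
    have := congrFun (congrFun h21 r) ⟨0, hn⟩
    rw [mul_Lcn, mul_Lcn] at this
    simpa using this
  · have := congrFun h12 ⟨n - 1, by omega⟩
    rw [Lbn_mul, Lbn_mul] at this
    simpa using this
  · intro t
    by_cases ht : t < n
    · have := congrFun (congrFun h11 ⟨n - 1 - t, by omega⟩) ⟨0, hn⟩
      rw [Lbn_mul_Lcn, Lbn_mul_Lcn] at this
      have e : n - 1 - (((⟨n - 1 - t, by omega⟩ : Fin n)) : ℕ) + ((⟨0, hn⟩ : Fin n) : ℕ) = t := by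
        simp only
        omega
      rwa [e] at this
    · have e : x ^ t = 0 := pow_eq_zero_of_le (not_lt.1 ht) hx
      rw [e, zero_mulVec, zero_mulVec, dotProduct_zero, dotProduct_zero]

theorem LXn_add : LXn n x G a b + LXn n x G' a' b' = LXn n x (G + G') (a + a') (b + b') := by
  rw [LXn, LXn, LXn, fromBlocks_add]
  congr 1
  · simp
  · ext i r
    rw [Matrix.add_apply, Lbn_apply, Lbn_apply, Lbn_apply, add_vecMul]
    rfl
  · ext r j
    rw [Matrix.add_apply, Lcn_apply, Lcn_apply, Lcn_apply, mulVec_add]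
    rfl

theorem LXn_smul (s : k) : s • LXn n x G a b = LXn n x (s • G) (s • a) (s • b) := by
  rw [LXn, LXn, fromBlocks_smul]
  congr 1
  · simp
  · ext i r
    rw [Matrix.smul_apply, Lbn_apply, Lbn_apply, smul_vecMul]
    rfl
  · ext r j
    rw [Matrix.smul_apply, Lcn_apply, Lcn_apply, mulVec_smul]
    rfl

theorem LXn_zero (n : ℕ) (x : Matrix ι ι k) : LXn n x 0 0 0 = 0 := by
  have h := LXn_smul (n := n) (x := x) (G := 0) (a := 0) (b := 0) 0
  rw [zero_smul, zero_smul, zero_smul] at h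
  exact h.symm

theorem LAn_pow (i : ℕ) : LAn n x ^ i = fromBlocks (ShF k n ^ i) 0 0 (x ^ i) := by
  induction i with
  | zero => simp
  | succ i ih =>
    rw [pow_succ, ih, LAn, fromBlocks_multiply]
    simp [pow_succ]

theorem LAn_nil (hx : x ^ n = 0) : LAn n x ^ n = 0 := by
  rw [LAn_pow, ShF_pow, hx]
  ext i j
  rcases i with i | i <;> rcases j with j | j
  · simp only [fromBlocks_apply₁₁, Matrix.of_apply, Matrix.zero_apply]
    rw [if_neg]
    omega
  all_goals simp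

/-! ### nilpotency -/

theorem nil_of_range {κ : Type*} [Fintype κ] [DecidableEq κ] {A X Y : Matrix κ κ k}
    (hAX : A * X = X * A) {n N : ℕ} (hA : A ^ n = 0) (hX : X ^ N = A * Y) : IsNilpotent X := by
  have h : ∀ j, (X ^ N) ^ j = A ^ j * Y ^ j := by
    intro j
    induction j with
    | zero => simp
    | succ j ih =>
      have c : A ^ j * X ^ N = X ^ N * A ^ j := (Commute.pow_pow (show Commute A X from hAX) j N)
      rw [pow_succ', ih, ← Matrix.mul_assoc, ← c, hX, pow_succ, pow_succ']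
      simp only [Matrix.mul_assoc]
  refine ⟨N * n, ?_⟩
  rw [pow_mul, h, hA, Matrix.zero_mul]

/-- the matrix with `ShF * M' = M` -/
def up {κ : Type*} (M : Matrix (Fin n) κ k) : Matrix (Fin n) κ k :=
  Matrix.of fun i r => if h : (i : ℕ) + 1 < n then M ⟨(i : ℕ) + 1, h⟩ r else 0

theorem ShF_up {κ : Type*} (M : Matrix (Fin n) κ k) (h0 : ∀ i : Fin n, (i : ℕ) = 0 → M i = 0) :
    ShF k n * up M = M := by
  ext i r
  rw [ShF_mul_apply]
  by_cases h : 0 < (i : ℕ)
  · rw [dif_pos h]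
    simp only [up, Matrix.of_apply]
    have hi := i.2
    rw [dif_pos (by omega)]
    congr 1
    exact Fin.ext (by simp only; omega)
  · rw [dif_neg h, h0 i (by omega)]
    rfl

theorem ShF_up_Lbn (hx : x ^ (n - 1) = 0) : ShF k n * up (Lbn n x b) = Lbn n x b := by
  refine ShF_up _ fun i hi => ?_
  funext r
  rw [Lbn_apply, hi, Nat.sub_zero, hx, vecMul_zero]

theorem LXn_pow (hx : x ^ (n - 1) = 0) (hG : x * G = G * x) (j : ℕ) :
    ∃ Y, LXn n x G a b ^ (j + 1) = LAn n x * Y + fromBlocks 0 0 (G ^ j * Lcn n x a) (G ^ (j + 1)) := by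
  have hxn : x ^ n = 0 := pow_eq_zero_of_le (Nat.sub_le n 1) hx
  induction j with
  | zero =>
    refine ⟨fromBlocks 0 (up (Lbn n x b)) 0 0, ?_⟩
    rw [zero_add, pow_one, LAn, fromBlocks_multiply, fromBlocks_add, LXn]
    simp [ShF_up_Lbn hx]
  | succ j ih =>
    obtain ⟨Y, hY⟩ := ih
    refine ⟨LXn n x G a b * Y + fromBlocks (up (Lbn n x b) * (G ^ j * Lcn n x a))
      (up (Lbn n x b) * G ^ (j + 1)) 0 0, ?_⟩
    rw [pow_succ', hY, Matrix.mul_add, Matrix.mul_add, ← Matrix.mul_assoc, ← Matrix.mul_assoc,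
      LAn_comm_LXn hxn hG, add_assoc]
    congr 1
    rw [LXn, LAn, fromBlocks_multiply, fromBlocks_multiply, fromBlocks_add, fromBlocks_inj]
    refine ⟨?_, ?_, ?_, ?_⟩
    · simp only [Matrix.zero_mul, zero_add, Matrix.mul_zero, add_zero]
      simp only [← Matrix.mul_assoc]
      rw [ShF_up_Lbn hx]
    · simp only [Matrix.zero_mul, zero_add, Matrix.mul_zero, add_zero]
      rw [← Matrix.mul_assoc, ShF_up_Lbn hx]
    · simp only [Matrix.zero_mul, zero_add, Matrix.mul_zero, add_zero]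
      rw [← Matrix.mul_assoc, ← pow_succ']
    · simp only [Matrix.zero_mul, zero_add, Matrix.mul_zero, add_zero]
      rw [← pow_succ']

theorem LXn_nil (hx : x ^ (n - 1) = 0) (hG : x * G = G * x) (hn : IsNilpotent G) :
    IsNilpotent (LXn n x G a b) := by
  obtain ⟨N, hN⟩ := hn
  have hxn : x ^ n = 0 := pow_eq_zero_of_le (Nat.sub_le n 1) hx
  obtain ⟨Y, hY⟩ := LXn_pow (a := a) (b := b) hx hG N
  have hG1 : G ^ (N + 1) = 0 := by rw [pow_succ, hN, Matrix.zero_mul]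
  rw [hN, Matrix.zero_mul, hG1] at hY
  refine nil_of_range (A := LAn n x) (LAn_comm_LXn hxn hG) (LAn_nil hxn) (N := N + 1) (Y := Y) ?_
  rw [hY]
  ext i j
  rcases i with i | i <;> rcases j with j | j <;> simp

/-- commuting nilpotent triples of this shape -/
theorem LXn_cn (hx : x ^ (n - 1) = 0) (hG : x * G = G * x) (hG' : x * G' = G' * x)
    (hn : IsNilpotent G) (hn' : IsNilpotent G')
    (h1 : Wn n x a b' + G * G' = Wn n x a' b + G' * G) (h2 : G *ᵥ a' = G' *ᵥ a)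
    (h3 : b ᵥ* G' = b' ᵥ* G) (h4 : ∀ t, b ⬝ᵥ (x ^ t *ᵥ a') = b' ⬝ᵥ (x ^ t *ᵥ a)) :
    CN ![LAn n x, LXn n x G a b, LXn n x G' a' b'] := by
  have hxn : x ^ n = 0 := pow_eq_zero_of_le (Nat.sub_le n 1) hx
  refine D8.cn3 (LAn_comm_LXn hxn hG) (LAn_comm_LXn hxn hG') (LXn_comm hG hG' h1 h2 h3 h4)
    ⟨n, LAn_nil hxn⟩ (LXn_nil hx hG hn) (LXn_nil hx hG' hn')

/-! ### decomposition -/

theorem Lbn_of_comm (hn : 0 < n) (M : Matrix (Fin n) ι k) (h : ShF k n * M = M * x) :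
    M = Lbn n x (M ⟨n - 1, by omega⟩) := by
  have h1 : ∀ i (hi : i + 1 < n), M ⟨i, by omega⟩ = M ⟨i + 1, hi⟩ ᵥ* x := by
    intro i hi
    have h2 := congrFun h ⟨i + 1, hi⟩
    funext r
    have h3 := congrFun h2 r
    rw [ShF_mul_apply, dif_pos (by simp)] at h3
    exact h3
  have h2 : ∀ j (hj : j < n), M ⟨n - 1 - j, by omega⟩ = M ⟨n - 1, by omega⟩ ᵥ* x ^ j := by
    intro j
    induction j with
    | zero => intro hj; simp
    | succ j ih =>
      intro hj
      have h3 := h1 (n - 1 - (j + 1)) (by omega)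
      rw [h3, pow_succ, ← vecMul_vecMul, ← ih (by omega)]
      congr 2
      exact Fin.ext (by simp only; omega)
  ext i r
  have hi := i.2
  have h3 := h2 (n - 1 - (i : ℕ)) (by omega)
  have e : (⟨n - 1 - (n - 1 - (i : ℕ)), by omega⟩ : Fin n) = i := Fin.ext (by simp only; omega)
  rw [e] at h3
  rw [h3]
  rfl

theorem Lcn_of_comm (hn : 0 < n) (M : Matrix ι (Fin n) k) (h : x * M = M * ShF k n) :
    M = Lcn n x (fun r => M r ⟨0, hn⟩) := by
  have h1 : ∀ i (hi : i + 1 < n), (fun r => M r ⟨i + 1, hi⟩) = x *ᵥ (fun r => M r ⟨i, by omega⟩) := by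
    intro i hi
    funext r
    have h3 := congrFun (congrFun h r) ⟨i, by omega⟩
    rw [mul_ShF_apply, dif_pos hi] at h3
    exact h3.symm
  have h2 : ∀ j (hj : j < n), (fun r => M r ⟨j, hj⟩) = x ^ j *ᵥ (fun r => M r ⟨0, hn⟩) := by
    intro j
    induction j with
    | zero => intro hj; simp
    | succ j ih =>
      intro hj
      rw [h1 j hj, pow_succ', ← mulVec_mulVec, ← ih (by omega)]
  ext r i
  have h3 := congrFun (h2 i i.2) r
  exact h3

/-- the decomposition of a nilpotent matrix commuting with `LAn n x` -/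
theorem decomp (m : ℕ) {x : Matrix ι ι k} (hx : x ^ m = 0)
    {B : Matrix (Fin (m + 1) ⊕ ι) (Fin (m + 1) ⊕ ι) k} (hB : LAn (m + 1) x * B = B * LAn (m + 1) x)
    (hn : IsNilpotent B) : ∃ (f : Fin m → k) (G : Matrix ι ι k) (a b : ι → k),
      B = LXn (m + 1) x G a b + ∑ j, f j • LAn (m + 1) x ^ ((j : ℕ) + 1) ∧ x * G = G * x := by
  obtain ⟨B11, B12, B21, B22, rfl⟩ : ∃ B11 B12 B21 B22, B = fromBlocks B11 B12 B21 B22 :=
    ⟨_, _, _, _, (fromBlocks_toBlocks B).symm⟩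
  rw [LAn, fromBlocks_multiply, fromBlocks_multiply, fromBlocks_inj] at hB
  simp only [Matrix.zero_mul, Matrix.mul_zero, add_zero, zero_add] at hB
  obtain ⟨h11, h12, h21, h22⟩ := hB
  have e12 := Lbn_of_comm (by omega) B12 h12
  have e21 := Lcn_of_comm (by omega) B21 h21
  have e11 := L2.poly_of_comm m B11 h11
  set p := B11 *ᵥ ev k (m + 1) 0 with hp
  -- the constant term
  have hp0 : p 0 = 0 := by
    have h1 : ∀ i : ℕ, (Sum.elim (ev k (m + 1) 0) (0 : ι → k)) ᵥ* (fromBlocks B11 B12 B21 B22 ^ i) =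
        (p 0) ^ i • Sum.elim (ev k (m + 1) 0) (0 : ι → k) := by
      intro i
      induction i with
      | zero => simp
      | succ i ih =>
        rw [pow_succ, ← vecMul_vecMul, ih, smul_vecMul, vecMul_fromBlocks]
        have h2 : ev k (m + 1) 0 ᵥ* B11 = p 0 • ev k (m + 1) 0 := by
          rw [e11, vecMul_sum, Finset.sum_eq_single 0]
          · rw [vecMul_smul]
            simp
          · intro j _ hj
            obtain ⟨l, hl⟩ : ∃ l, (j : ℕ) = l + 1 := by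
              refine ⟨(j : ℕ) - 1, ?_⟩
              have : (j : ℕ) ≠ 0 := fun e => hj (Fin.ext (by simpa using e))
              omega
            rw [vecMul_smul, hl, pow_succ', ← vecMul_vecMul]
            rw [ev_ShF_zero]
            simp
          · simp
        have h3 : ev k (m + 1) 0 ᵥ* B12 = 0 := by
          have h4 : ev k (m + 1) 0 ᵥ* B12 = B12 0 := by
            have := L2.ev_vecMul (0 : Fin (m + 1)) B12
            simpa using this
          rw [h4, e12]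
          funext r
          rw [Lbn_apply]
          simp [hx]
        have h5 : (Sum.elim (ev k (m + 1) 0) (0 : ι → k)) ∘ Sum.inl = ev k (m + 1) 0 := rfl
        have h6 : (Sum.elim (ev k (m + 1) 0) (0 : ι → k)) ∘ Sum.inr = 0 := rfl
        rw [h5, h6, h2, h3]
        ext j
        rcases j with j | j
        · simp [pow_succ, mul_assoc]
        · simp
    obtain ⟨N, hN⟩ := hn
    have h7 := h1 N
    rw [hN, vecMul_zero] at h7
    have h8 := congrFun h7 (Sum.inl 0)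
    simp [ev] at h8
    by_contra hne
    exact pow_ne_zero N hne h8.symm
  refine ⟨fun j => p j.succ, B22 - ∑ j : Fin m, p j.succ • x ^ ((j : ℕ) + 1),
    (fun r => B21 r ⟨0, by omega⟩), B12 ⟨m + 1 - 1, by omega⟩, ?_, ?_⟩
  · have h9 : (∑ j : Fin m, p j.succ • LAn (m + 1) x ^ ((j : ℕ) + 1)) =
        fromBlocks (∑ j : Fin m, p j.succ • ShF k (m + 1) ^ ((j : ℕ) + 1)) 0 0
          (∑ j : Fin m, p j.succ • x ^ ((j : ℕ) + 1)) := by
      ext i j
      rcases i with i | i <;> rcases j with j | j <;>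
        simp [Matrix.sum_apply, LAn_pow]
    rw [h9, LXn, ← e12, ← e21, fromBlocks_add, fromBlocks_inj]
    refine ⟨?_, by simp, by simp, by simp⟩
    rw [zero_add]
    conv_lhs => rw [e11]
    rw [Fin.sum_univ_succ, hp0]
    simp
  · rw [Matrix.mul_sub, Matrix.sub_mul, h22, Finset.mul_sum, Finset.sum_mul]
    congr 1
    refine Finset.sum_congr rfl fun j _ => ?_
    rw [mul_smul_comm, smul_mul_assoc, ← pow_succ, ← pow_succ']

/-- a maximal bad triple with `T 0 = LAn n x` -/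
theorem shape {ρ : ℕ → ℕ} {m : ℕ} {x : Matrix ι ι k}
    {T : Fin 3 → Matrix (Fin (m + 1) ⊕ ι) (Fin (m + 1) ⊕ ι) k}
    (hT : MaxR ρ T) (h0 : T 0 = LAn (m + 1) x) (hx : x ^ m = 0) :
    ∃ (G G' : Matrix ι ι k) (a b a' b' : ι → k),
      MaxR ρ ![LAn (m + 1) x, LXn (m + 1) x G a b, LXn (m + 1) x G' a' b'] ∧ x * G = G * x ∧
        x * G' = G' * x := by
  have hc1 : LAn (m + 1) x * T 1 = T 1 * LAn (m + 1) x := by rw [← h0]; exact hT.cn.1 0 1
  have hc2 : LAn (m + 1) x * T 2 = T 2 * LAn (m + 1) x := by rw [← h0]; exact hT.cn.1 0 2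
  obtain ⟨f, G, a, b, hB, hG⟩ := decomp m hx hc1 (hT.cn.2 1)
  obtain ⟨f', G', a', b', hC, hG'⟩ := decomp m hx hc2 (hT.cn.2 2)
  have hA : LAn (m + 1) x ∈ adj T := by rw [← h0]; exact mem_adj T 0
  have hsum : ∀ {S : Fin 3 → Matrix (Fin (m + 1) ⊕ ι) (Fin (m + 1) ⊕ ι) k} (g : Fin m → k),
      LAn (m + 1) x ∈ adj S → ∑ j, g j • LAn (m + 1) x ^ ((j : ℕ) + 1) ∈ adj S := by
    intro S g hS
    exact sum_mem fun j _ => SMulMemClass.smul_mem _ (L2.pow_mem_adj hS _)
  have hX : LXn (m + 1) x G a b ∈ adj T := by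
    have : LXn (m + 1) x G a b = T 1 - ∑ j, f j • LAn (m + 1) x ^ ((j : ℕ) + 1) := by rw [hB]; simp
    rw [this]
    exact sub_mem (mem_adj T 1) (hsum f hA)
  have hX' : LXn (m + 1) x G' a' b' ∈ adj T := by
    have : LXn (m + 1) x G' a' b' = T 2 - ∑ j, f' j • LAn (m + 1) x ^ ((j : ℕ) + 1) := by
      rw [hC]; simp
    rw [this]
    exact sub_mem (mem_adj T 2) (hsum f' hA)
  refine ⟨G, G', a, b, a', b', ?_, hG, hG'⟩
  refine MaxR.change hT (hT.cn.of_adj fun i => ?_) fun i => ?_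
  · fin_cases i
    exacts [hA, hX, hX']
  · have h1 := D8.mem0 (LAn (m + 1) x) (LXn (m + 1) x G a b) (LXn (m + 1) x G' a' b')
    fin_cases i
    · show T 0 ∈ _
      rw [h0]
      exact h1
    · show T 1 ∈ _
      rw [hB]
      exact add_mem (D8.mem1 _ _ _) (hsum f h1)
    · show T 2 ∈ _
      rw [hC]
      exact add_mem (D8.mem2 _ _ _) (hsum f' h1)

/-! ### linear changes -/

theorem lin {ρ : ℕ → ℕ} (hT : MaxR ρ ![LAn n x, LXn n x G a b, LXn n x G' a' b']) (s t u v : k)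
    (h : s * v - t * u ≠ 0) :
    MaxR ρ ![LAn n x, LXn n x (s • G + t • G') (s • a + t • a') (s • b + t • b'),
      LXn n x (u • G + v • G') (u • a + v • a') (u • b + v • b')] := by
  have h1 := D8.MaxR.lin hT s t u v 0 0 0 0 h
  simp only [zero_smul, add_zero] at h1
  rw [LXn_smul, LXn_smul, LXn_smul, LXn_smul, LXn_add, LXn_add] at h1
  exact h1

/-- nilpotency of the `R` part -/
theorem nil_of_LXn (hx : x ^ (n - 1) = 0) (hG : x * G = G * x)
    (h : IsNilpotent (LXn n x G a b)) : IsNilpotent G := by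
  obtain ⟨N, hN⟩ := h
  obtain ⟨Y, hY⟩ := LXn_pow (a := a) (b := b) hx hG N
  have h0 : LXn n x G a b ^ (N + 1) = 0 := by rw [pow_succ, hN, Matrix.zero_mul]
  rw [h0] at hY
  obtain ⟨Y11, Y12, Y21, Y22, rfl⟩ : ∃ Y11 Y12 Y21 Y22, Y = fromBlocks Y11 Y12 Y21 Y22 :=
    ⟨_, _, _, _, (fromBlocks_toBlocks Y).symm⟩
  rw [LAn, fromBlocks_multiply, fromBlocks_add, ← fromBlocks_zero, fromBlocks_inj] at hY
  have h1 := hY.2.2.2
  simp only [Matrix.zero_mul, zero_add] at h1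
  refine nil_of_range (A := x) hG hx (N := N + 1) (Y := -Y22) ?_
  rw [Matrix.mul_neg]
  exact (neg_eq_of_add_eq_zero_right h1.symm).symm

/-- multiplication by `LAn` -/
theorem LAn_mul_LXn (hx : x ^ n = 0) :
    LAn n x * LXn n x G a b = LXn n x (x * G) (x *ᵥ a) (b ᵥ* x) := by
  rw [LAn, LXn, LXn, fromBlocks_multiply, fromBlocks_inj]
  refine ⟨by simp, ?_, ?_, by simp⟩
  · simp only [Matrix.zero_mul, add_zero, Matrix.mul_zero, zero_add]
    rw [ShF_Lbn hx]
    ext i r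
    rw [Lbn_apply, vecMul_vecMul, ← pow_succ', pow_succ, ← vecMul_vecMul]
    rfl
  · simp only [Matrix.zero_mul, add_zero, Matrix.mul_zero, zero_add]
    ext r j
    rw [Lcn_apply, mulVec_mulVec, ← pow_succ, pow_succ', ← mulVec_mulVec]
    rfl

/-- subtracting multiples of `A B` and `A ^ 2 B` from `C` -/
theorem lin_mul {ρ : ℕ → ℕ} (hx : x ^ n = 0)
    (hT : MaxR ρ ![LAn n x, LXn n x G a b, LXn n x G' a' b']) (s t : k) :
    MaxR ρ ![LAn n x, LXn n x G a b,
      LXn n x (G' + s • (x * G) + t • (x * (x * G))) (a' + s • (x *ᵥ a) + t • (x *ᵥ (x *ᵥ a)))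
        (b' + s • (b ᵥ* x) + t • (b ᵥ* x ᵥ* x))] := by
  have e : LXn n x (G' + s • (x * G) + t • (x * (x * G))) (a' + s • (x *ᵥ a) + t • (x *ᵥ (x *ᵥ a)))
        (b' + s • (b ᵥ* x) + t • (b ᵥ* x ᵥ* x)) = LXn n x G' a' b' +
      s • (LAn n x * LXn n x G a b) + t • (LAn n x * (LAn n x * LXn n x G a b)) := by
    rw [LAn_mul_LXn hx, LAn_mul_LXn hx, LXn_smul, LXn_smul, LXn_add, LXn_add]
  rw [e]
  have m0 : ∀ {X : Matrix (Fin n ⊕ ι) (Fin n ⊕ ι) k},
      s • (LAn n x * LXn n x G a b) + t • (LAn n x * (LAn n x * LXn n x G a b)) ∈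
        adj ![LAn n x, LXn n x G a b, X] := by
    intro X
    have h0 := D8.mem0 (LAn n x) (LXn n x G a b) X
    have h1 := D8.mem1 (LAn n x) (LXn n x G a b) X
    exact add_mem (SMulMemClass.smul_mem _ (mul_mem h0 h1))
      (SMulMemClass.smul_mem _ (mul_mem h0 (mul_mem h0 h1)))
  rw [add_assoc]
  refine D8.MaxR.change3 hT (D8.mem1 _ _ _) (add_mem (D8.mem2 _ _ _) m0) (D8.mem1 _ _ _) ?_
  have h2 := sub_mem (D8.mem2 (LAn n x) (LXn n x G a b) (LXn n x G' a' b' +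
      (s • (LAn n x * LXn n x G a b) + t • (LAn n x * (LAn n x * LXn n x G a b))))) m0
  rwa [add_sub_cancel_right] at h2

/-! ### conjugation by automorphisms -/

/-- conjugation by an automorphism of `R` -/
theorem conjR {ρ : ℕ → ℕ} (g h : Matrix ι ι k) (hgh : g * h = 1) (hhg : h * g = 1)
    (hxg : x * g = g * x) (hT : MaxR ρ ![LAn n x, LXn n x G a b, LXn n x G' a' b']) :
    MaxR ρ ![LAn n x, LXn n x (g * G * h) (g *ᵥ a) (b ᵥ* h),
      LXn n x (g * G' * h) (g *ᵥ a') (b' ᵥ* h)] := by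
  have hxh : x * h = h * x := by
    calc x * h = (h * g) * x * h := by rw [hhg, Matrix.one_mul]
      _ = h * (g * x) * h := by simp only [Matrix.mul_assoc]
      _ = h * (x * g) * h := by rw [hxg]
      _ = h * x * (g * h) := by simp only [Matrix.mul_assoc]
      _ = h * x := by rw [hgh, Matrix.mul_one]
  have cg : ∀ j, x ^ j * g = g * x ^ j := fun j => (Commute.pow_left (show Commute x g from hxg) j)
  have ch : ∀ j, x ^ j * h = h * x ^ j := fun j => (Commute.pow_left (show Commute x h from hxh) j)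
  have e1 : fromBlocks (1 : Matrix (Fin n) (Fin n) k) 0 0 g * fromBlocks 1 0 0 h = 1 := by
    rw [fromBlocks_multiply]
    simp [hgh]
  have e2 : fromBlocks (1 : Matrix (Fin n) (Fin n) k) 0 0 h * fromBlocks 1 0 0 g = 1 := by
    rw [fromBlocks_multiply]
    simp [hhg]
  have h1 := hT.conj _ _ e1 e2
  have eA : fromBlocks (1 : Matrix (Fin n) (Fin n) k) 0 0 g * LAn n x * fromBlocks 1 0 0 h =
      LAn n x := by
    rw [LAn, fromBlocks_multiply, fromBlocks_multiply]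
    simp only [Matrix.one_mul, Matrix.mul_one, Matrix.zero_mul, Matrix.mul_zero, add_zero, zero_add]
    rw [← hxg, Matrix.mul_assoc, hgh, Matrix.mul_one]
  have eX : ∀ (G : Matrix ι ι k) (a b : ι → k),
      fromBlocks (1 : Matrix (Fin n) (Fin n) k) 0 0 g * LXn n x G a b * fromBlocks 1 0 0 h =
      LXn n x (g * G * h) (g *ᵥ a) (b ᵥ* h) := by
    intro G a b
    rw [LXn, LXn, fromBlocks_multiply, fromBlocks_multiply, fromBlocks_inj]
    refine ⟨by simp, ?_, ?_, by simp⟩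
    · simp only [Matrix.one_mul, Matrix.zero_mul, Matrix.mul_zero, add_zero, zero_add]
      ext i r
      rw [Lbn_apply, vecMul_vecMul, ← ch, ← vecMul_vecMul]
      rfl
    · simp only [Matrix.mul_one, Matrix.zero_mul, Matrix.mul_zero, add_zero, zero_add]
      ext r j
      rw [Lcn_apply, mulVec_mulVec, cg, ← mulVec_mulVec]
      rfl
  have h2 : (fun i => fromBlocks (1 : Matrix (Fin n) (Fin n) k) 0 0 g *
      (![LAn n x, LXn n x G a b, LXn n x G' a' b'] : Fin 3 → Matrix (Fin n ⊕ ι) (Fin n ⊕ ι) k) i *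
      fromBlocks 1 0 0 h) = ![LAn n x, LXn n x (g * G * h) (g *ᵥ a) (b ᵥ* h),
      LXn n x (g * G' * h) (g *ᵥ a') (b' ᵥ* h)] := by
    funext i
    fin_cases i
    · exact eA
    · exact eX _ _ _
    · exact eX _ _ _
  rwa [h2] at h1

/-! ### duality -/

section Dual

variable {κ : Type*} [Fintype κ] [DecidableEq κ]

/-- the transposed matrix in the basis indexed by `κ` -/
def tr (e : ι ≃ κ) (M : Matrix ι ι k) : Matrix κ κ k := Mᵀ.submatrix e.symm e.symm

theorem tr_apply (e : ι ≃ κ) (M : Matrix ι ι k) (i j : κ) : tr e M i j = M (e.symm j) (e.symm i) :=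
  rfl

theorem tr_mul (e : ι ≃ κ) (M N : Matrix ι ι k) : tr e (M * N) = tr e N * tr e M := by
  unfold tr
  rw [transpose_mul, Matrix.submatrix_mul_equiv]

theorem tr_one (e : ι ≃ κ) : tr e (1 : Matrix ι ι k) = 1 := by
  unfold tr
  rw [transpose_one, Matrix.submatrix_one_equiv]

theorem tr_pow (e : ι ≃ κ) (M : Matrix ι ι k) (j : ℕ) : tr e (M ^ j) = tr e M ^ j := by
  induction j with
  | zero => rw [pow_zero, pow_zero, tr_one]
  | succ j ih => rw [pow_succ, tr_mul, ih, ← pow_succ']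

theorem tr_mulVec (e : ι ≃ κ) (M : Matrix ι ι k) (v : ι → k) :
    tr e M *ᵥ (v ∘ e.symm) = (v ᵥ* M) ∘ e.symm := by
  ext i
  simp only [mulVec, vecMul, dotProduct, Function.comp, tr_apply]
  rw [Equiv.sum_comp e.symm (fun j => M j (e.symm i) * v j)]
  exact Finset.sum_congr rfl fun j _ => mul_comm _ _

theorem vecMul_tr (e : ι ≃ κ) (M : Matrix ι ι k) (v : ι → k) :
    (v ∘ e.symm) ᵥ* tr e M = (M *ᵥ v) ∘ e.symm := by
  ext i
  simp only [mulVec, vecMul, dotProduct, Function.comp, tr_apply]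
  rw [Equiv.sum_comp e.symm (fun j => v j * M (e.symm i) j)]
  exact Finset.sum_congr rfl fun j _ => mul_comm _ _

theorem LAn_tr (e : ι ≃ κ) : tr (Equiv.sumCongr Fin.revPerm e) (LAn n x) = LAn n (tr e x) := by
  ext i j
  rcases i with i | i <;> rcases j with j | j
  · simp only [tr_apply, LAn, Equiv.sumCongr_symm, Equiv.sumCongr_apply, Sum.map_inl,
      fromBlocks_apply₁₁, ShF_apply, Fin.revPerm_symm, Fin.revPerm_apply, Fin.val_rev]
    have hi := i.2
    have hj := j.2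
    by_cases h : (i : ℕ) = (j : ℕ) + 1
    · rw [if_pos h, if_pos (by omega)]
    · rw [if_neg h, if_neg (by omega)]
  · simp [tr_apply, LAn]
  · simp [tr_apply, LAn]
  · simp [tr_apply, LAn]

theorem LXn_tr (e : ι ≃ κ) : tr (Equiv.sumCongr Fin.revPerm e) (LXn n x G a b) =
    LXn n (tr e x) (tr e G) (b ∘ e.symm) (a ∘ e.symm) := by
  ext i j
  rcases i with i | i <;> rcases j with j | j
  · simp [tr_apply, LXn]
  · simp only [tr_apply, LXn, Equiv.sumCongr_symm, Equiv.sumCongr_apply, Sum.map_inl, Sum.map_inr,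
      fromBlocks_apply₁₂, fromBlocks_apply₂₁, Fin.revPerm_symm, Fin.revPerm_apply]
    rw [Lcn_apply, Lbn_apply, ← tr_pow, vecMul_tr, Function.comp, Fin.val_rev]
    have hi := i.2
    rw [show n - ((i : ℕ) + 1) = n - 1 - (i : ℕ) by omega]
  · simp only [tr_apply, LXn, Equiv.sumCongr_symm, Equiv.sumCongr_apply, Sum.map_inl, Sum.map_inr,
      fromBlocks_apply₁₂, fromBlocks_apply₂₁, Fin.revPerm_symm, Fin.revPerm_apply]
    rw [Lcn_apply, Lbn_apply, ← tr_pow, tr_mulVec, Function.comp, Fin.val_rev]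
    have hj := j.2
    rw [show n - 1 - (n - ((j : ℕ) + 1)) = (j : ℕ) by omega]
  · simp [tr_apply, LXn]

/-- duality -/
theorem dual [Infinite k] {ρ : ℕ → ℕ} (e : ι ≃ κ)
    (hT : MaxR ρ ![LAn n x, LXn n x G a b, LXn n x G' a' b']) :
    MaxR ρ ![LAn n (tr e x), LXn n (tr e x) (tr e G) (b ∘ e.symm) (a ∘ e.symm),
      LXn n (tr e x) (tr e G') (b' ∘ e.symm) (a' ∘ e.symm)] := by
  have h1 := D9.MaxR.reindex (Equiv.sumCongr (Fin.revPerm (n := n)) e) hT.transpose
  have h2 : (fun i => Matrix.reindexAlgEquiv k k (Equiv.sumCongr (Fin.revPerm (n := n)) e)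
      ((![LAn n x, LXn n x G a b, LXn n x G' a' b'] :
        Fin 3 → Matrix (Fin n ⊕ ι) (Fin n ⊕ ι) k) i)ᵀ) =
      ![LAn n (tr e x), LXn n (tr e x) (tr e G) (b ∘ e.symm) (a ∘ e.symm),
      LXn n (tr e x) (tr e G') (b' ∘ e.symm) (a' ∘ e.symm)] := by
    funext i
    fin_cases i
    · exact LAn_tr e
    · exact LXn_tr e
    · exact LXn_tr e
  rwa [h2] at h1

end Dual

end LN

end Pool.Agent.Lib.D13
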