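import Pool.Agent.Lib.D10.X2W
import Pool.Agent.Lib.D10.FamsC
import Pool.Agent.Lib.Q5dc.Sum2
import Pool.Agent.Lib.D13.Lift

/-!
# MP_5dcbc3_ag: types `(3, 3, 2^u, 1^p)`, case I (`b = pi = 0` for both), the last step for `u + p = 4`

`G = U_0 + P`, `al = (a; w) : E -> G` injective. If `u + p = 4` then `al' = (a'; w')` can be moved such that
`(al, al')` is a bijection `E + E -> G`, and then the triple is similar to a member of `TF 2 0 (2 + u)`.

* `cl_of_mul`: transport of `Cl` along a rectangular matrix.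
* `cl_free`: the density theorem for `TF a 0 c` for modules with `a` generators and without relations in degree one.
* `exists_split`: complement of an injective `(a; w)`.
* `Tr.moveA`: `al'` can be moved in every direction.
-/

namespace Pool.Agent.Lib.D13

open Matrix Pool.Agent.Lib.Q5dc Pool.Agent.Lib.D7 Pool.Agent.Lib.D9 Pool.Agent.Lib.D10

variable {k : Type*} [Field k]

/-- an injective matrix between spaces of the same dimension has an inverse -/
theorem exists_inv {ι κ : Type*} [Fintype ι] [DecidableEq ι] [Fintype κ] [DecidableEq κ]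
    (S : Matrix ι κ k) (hc : Fintype.card κ = Fintype.card ι) (hS : ∀ v, S *ᵥ v = 0 → v = 0) :
    ∃ Q : Matrix κ ι k, S * Q = 1 ∧ Q * S = 1 := by
  set e : ι ≃ κ := Fintype.equivOfCardEq hc.symm with he
  set S1 : Matrix ι ι k := S.submatrix id e with hS1
  have h1 : IsUnit S1.det := by
    rw [isUnit_iff_ne_zero]
    intro h
    obtain ⟨v, hv0, hv⟩ := Matrix.exists_mulVec_eq_zero_iff.2 h
    apply hv0
    have h2 : S *ᵥ (v ∘ e.symm) = 0 := by
      rw [← hv]
      funext x
      simp only [Matrix.mulVec, dotProduct, hS1, Matrix.submatrix_apply, id]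
      exact (Fintype.sum_equiv e _ _ (fun y => by simp)).symm
    have h3 := hS _ h2
    funext x
    have h4 := congrFun h3 (e x)
    simpa using h4
  have hS' : S = S1.submatrix id e.symm := by
    ext x y
    simp [hS1]
  refine ⟨S1⁻¹.submatrix e.symm id, ?_, ?_⟩
  · rw [hS', Matrix.submatrix_mul_equiv, Matrix.mul_nonsing_inv _ h1, Matrix.submatrix_id_id]
  · have h5 : S1⁻¹.submatrix e.symm id * S = (S1⁻¹ * S1).submatrix e.symm e.symm := by
      rw [hS']
      exact Matrix.submatrix_mul_equiv S1⁻¹ S1 e.symm (Equiv.refl ι) e.symm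
    rw [h5, Matrix.nonsing_inv_mul _ h1, Matrix.submatrix_one_equiv]

/-- transport of `Cl` -/
theorem cl_of_mul {ι κ : Type*} [Fintype ι] [DecidableEq ι] [Fintype κ] [DecidableEq κ]
    {T : Fin 3 → Matrix ι ι k} {X : Fin 3 → Matrix κ κ k} (S : Matrix ι κ k)
    (hc : Fintype.card κ = Fintype.card ι) (hS : ∀ v, S *ᵥ v = 0 → v = 0)
    (h : ∀ i, T i * S = S * X i) (hX : Cl X) : Cl T := by
  obtain ⟨Q, h1, h2⟩ := exists_inv S hc hS
  have h3 := Cl.rect S Q h1 h2 hc hX
  have h4 : T = fun i => S * X i * Q := by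
    funext i
    rw [← h i, Matrix.mul_assoc, h1, Matrix.mul_one]
  rw [h4]
  exact h3

/-- first index of a pair -/
def j1 : Fin 6 → Fin 3 := ![0, 0, 0, 1, 1, 2]

/-- second index of a pair -/
def j2 : Fin 6 → Fin 3 := ![0, 1, 2, 1, 2, 2]

theorem j_ix (i j : Fin 3) :
    (j1 (ix i j) = i ∧ j2 (ix i j) = j) ∨ (j1 (ix i j) = j ∧ j2 (ix i j) = i) := by
  fin_cases i <;> fin_cases j <;> simp [ix, j1, j2]

section free

variable {ι : Type*} [Fintype ι] [DecidableEq ι] {a c : ℕ}

/-- the basis of a free module -/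
def SF (T : Fin 3 → Matrix ι ι k) (v : Fin a → ι → k) (f : Fin c → ι) :
    Matrix ι (Fin a ⊕ (((Fin 3 × Fin a) ⊕ Fin 0) ⊕ Fin c)) k :=
  Matrix.of fun x y => match y with
    | .inl l => v l x
    | .inr (.inl (.inl j)) => (T j.1 *ᵥ v j.2) x
    | .inr (.inl (.inr _)) => 0
    | .inr (.inr m) => if x = f m then 1 else 0

theorem SF_mulVec (T : Fin 3 → Matrix ι ι k) (v : Fin a → ι → k) (f : Fin c → ι)
    (y : Fin a ⊕ (((Fin 3 × Fin a) ⊕ Fin 0) ⊕ Fin c) → k) (x : ι) :
    (SF T v f *ᵥ y) x = ∑ l, v l x * y (.inl l) +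
      (∑ j, (T j.1 *ᵥ v j.2) x * y (.inr (.inl (.inl j))) +
        ∑ m, (if x = f m then 1 else 0) * y (.inr (.inr m))) := by
  simp only [SF, Matrix.mulVec, dotProduct, Matrix.of_apply, Fintype.sum_sum_type,
    Finset.univ_eq_empty, Finset.sum_empty, add_zero]

/-- modules with `a` generators and without relations in degree one -/
theorem cl_free {T : Fin 3 → Matrix ι ι k} (hcomm : ∀ i j, T i * T j = T j * T i)
    (v : Fin a → ι → k) (f : Fin c → ι) (hf : Function.Injective f)
    (h0 : ∀ i m x, T i x (f m) = 0)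
    (h1 : ∀ i j l x, (∀ m, x ≠ f m) → ((T i * T j) *ᵥ v l) x = 0)
    (hS : ∀ y, SF T v f *ᵥ y = 0 → y = 0)
    (hc : a + (3 * a + c) = Fintype.card ι)
    (hcl : ∀ r g, Cl (TF (k := k) a 0 c r g)) : Cl T := by
  refine cl_of_mul (SF T v f) ?_ hS (fun i => ?_)
    (hcl (fun z => ((T (j1 z.1) * T (j2 z.1)) *ᵥ v z.2.1) (f z.2.2)) (fun _ => 0))
  · rw [← hc]
    simp
  · ext x y
    rw [Matrix.mul_apply, Matrix.mul_apply]
    simp only [Fintype.sum_sum_type, Finset.univ_eq_empty, Finset.sum_empty, add_zero]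
    rcases y with l | ((j | q) | m)
    · have e1 : ∑ j, T i x j * SF T v f j (.inl l) = (T i *ᵥ v l) x := rfl
      rw [e1]
      simp [SF, TF]
    · have e1 : ∑ z, T i x z * SF T v f z (.inr (.inl (.inl j))) =
          ((T i * T j.1) *ᵥ v j.2) x := by
        rw [← Matrix.mulVec_mulVec]
        rfl
      rw [e1]
      have e2 : (T i * T j.1) = T (j1 (ix i j.1)) * T (j2 (ix i j.1)) := by
        rcases j_ix i j.1 with ⟨g1, g2⟩ | ⟨g1, g2⟩
        · rw [g1, g2]
        · rw [g1, g2, hcomm]
      rw [e2]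
      simp only [SF, TF, Matrix.of_apply, mul_zero, Finset.sum_const_zero, zero_add]
      by_cases hx : ∃ m, x = f m
      · obtain ⟨m, rfl⟩ := hx
        rw [Finset.sum_eq_single m]
        · simp
        · intro m' _ hm'
          rw [if_neg fun h => hm' (hf h).symm, zero_mul]
        · intro h
          exact absurd (Finset.mem_univ _) h
      · push Not at hx
        rw [h1 _ _ _ _ hx, Finset.sum_eq_zero]
        intro m _
        rw [if_neg (hx m), zero_mul]
    · exact q.elim0
    · have e1 : ∑ z, T i x z * SF T v f z (.inr (.inr m)) = T i x (f m) := by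
        simp [SF]
      rw [e1, h0]
      simp [SF, TF]

end free

/-! ### complements -/

/-- complement of an injective matrix -/
theorem exists_split0 {ι : Type*} [Fintype ι] [DecidableEq ι] {e h : ℕ} (al : Matrix ι (Fin e) k)
    (hal : ∀ x, al *ᵥ x = 0 → x = 0) (hc : e + h = Fintype.card ι) :
    ∃ (z : Matrix ι (Fin h) k) (P : Matrix (Fin e) ι k) (L : Matrix (Fin h) ι k),
      P * al = 1 ∧ P * z = 0 ∧ L * al = 0 ∧ L * z = 1 ∧ al * P + z * L = 1 := by
  classical
  set F : (Fin e → k) →ₗ[k] (ι → k) := Matrix.mulVecLin al with hF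
  have hinj : Function.Injective F := by
    rw [injective_iff_map_eq_zero]
    intro x hx
    exact hal x hx
  obtain ⟨W, hW⟩ := Submodule.exists_isCompl (LinearMap.range F)
  have h1 : Module.finrank k (LinearMap.range F) = e := by
    rw [LinearMap.finrank_range_of_inj hinj, Module.finrank_fin_fun]
  have h2 : Module.finrank k W = h := by
    have h3 := Submodule.finrank_add_eq_of_isCompl hW
    rw [h1, Module.finrank_fintype_fun_eq_card] at h3
    omega
  set bs := Module.finBasisOfFinrankEq k W h2 with hbs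
  set z : Matrix ι (Fin h) k := Matrix.of fun x j => (bs j : ι → k) x with hz
  have hzv : ∀ y : Fin h → k, z *ᵥ y = ((∑ j, y j • bs j : W) : ι → k) := by
    intro y
    funext x
    rw [Submodule.coe_sum, Finset.sum_apply, Matrix.mulVec, dotProduct]
    refine Finset.sum_congr rfl fun j _ => ?_
    rw [Submodule.coe_smul, Pi.smul_apply, smul_eq_mul, mul_comm]
    rfl
  set S : Matrix ι (Fin e ⊕ Fin h) k := Matrix.of fun x y => Sum.elim (fun j => al x j) (fun j => z x j) y
    with hS
  have hSv : ∀ y, S *ᵥ y = al *ᵥ (y ∘ Sum.inl) + z *ᵥ (y ∘ Sum.inr) := by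
    intro y
    funext x
    simp [hS, Matrix.mulVec, dotProduct, Fintype.sum_sum_type]
  obtain ⟨Q, hQ1, hQ2⟩ := exists_inv S (by rw [← hc]; simp) (by
    intro y hy
    rw [hSv] at hy
    have g1 : al *ᵥ (y ∘ Sum.inl) ∈ LinearMap.range F := ⟨y ∘ Sum.inl, rfl⟩
    have g2 : z *ᵥ (y ∘ Sum.inr) ∈ W := by
      rw [hzv]
      exact Submodule.coe_mem _
    have g3 : al *ᵥ (y ∘ Sum.inl) ∈ W := by
      rw [eq_neg_of_add_eq_zero_left hy]
      exact W.neg_mem g2
    have g4 : al *ᵥ (y ∘ Sum.inl) = 0 := by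
      have := hW.disjoint.le_bot ⟨g1, g3⟩
      simpa using this
    have g5 := hal _ g4
    have g6 : z *ᵥ (y ∘ Sum.inr) = 0 := by rwa [g4, zero_add] at hy
    rw [hzv] at g6
    have g7 : ∑ j, (y ∘ Sum.inr) j • bs j = 0 := Subtype.ext g6
    have g8 := Fintype.linearIndependent_iff.1 bs.linearIndependent _ g7
    funext x
    rcases x with x | x
    · exact congrFun g5 x
    · exact g8 x)
  have hQS : ∀ i j, (Q * S) i j = (1 : Matrix _ _ k) i j := fun i j => by rw [hQ2]
  refine ⟨z, Matrix.of fun i x => Q (.inl i) x, Matrix.of fun i x => Q (.inr i) x, ?_, ?_, ?_, ?_, ?_⟩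
  · ext i j
    have := hQS (.inl i) (.inl j)
    simpa [Matrix.mul_apply, hS, Matrix.one_apply] using this
  · ext i j
    have := hQS (.inl i) (.inr j)
    simpa [Matrix.mul_apply, hS, Matrix.one_apply] using this
  · ext i j
    have := hQS (.inr i) (.inl j)
    simpa [Matrix.mul_apply, hS, Matrix.one_apply] using this
  · ext i j
    have := hQS (.inr i) (.inr j)
    simpa [Matrix.mul_apply, hS, Matrix.one_apply] using this
  · rw [← hQ1]
    ext i j
    simp [Matrix.mul_apply, hS, Fintype.sum_sum_type]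

/-- complement of an injective `(a; w)` -/
theorem exists_split {e h u p : ℕ} (a : Matrix (Fin u) (Fin e) k) (w : Matrix (Fin p) (Fin e) k)
    (hal : ∀ x, a *ᵥ x = 0 → w *ᵥ x = 0 → x = 0) (hc : e + h = u + p) :
    ∃ (z : Matrix (Fin u) (Fin h) k) (t : Matrix (Fin p) (Fin h) k) (P : Matrix (Fin e) (Fin u) k)
      (Q : Matrix (Fin e) (Fin p) k) (L : Matrix (Fin h) (Fin u) k) (R : Matrix (Fin h) (Fin p) k),
      P * a + Q * w = 1 ∧ P * z + Q * t = 0 ∧ L * a + R * w = 0 ∧ L * z + R * t = 1 ∧
      a * P + z * L = 1 ∧ a * Q + z * R = 0 ∧ w * P + t * L = 0 ∧ w * Q + t * R = 1 := by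
  obtain ⟨z, P, L, h1, h2, h3, h4, h5⟩ := exists_split0 (e := e) (h := h)
    (Matrix.of fun x j => Sum.elim (fun i => a i j) (fun i => w i j) x : Matrix (Fin u ⊕ Fin p) (Fin e) k)
    (by
      intro x hx
      refine hal x ?_ ?_
      · funext i
        exact congrFun hx (.inl i)
      · funext i
        exact congrFun hx (.inr i)) (by rw [hc]; simp)
  have H1 := fun i j => congrFun (congrFun h1 i) j
  have H2 := fun i j => congrFun (congrFun h2 i) j
  have H3 := fun i j => congrFun (congrFun h3 i) j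
  have H4 := fun i j => congrFun (congrFun h4 i) j
  have H5 := fun i j => congrFun (congrFun h5 i) j
  refine ⟨Matrix.of fun i j => z (.inl i) j, Matrix.of fun i j => z (.inr i) j,
    Matrix.of fun i j => P i (.inl j), Matrix.of fun i j => P i (.inr j),
    Matrix.of fun i j => L i (.inl j), Matrix.of fun i j => L i (.inr j), ?_, ?_, ?_, ?_, ?_, ?_, ?_, ?_⟩
  · ext i j
    simpa [Matrix.mul_apply, Fintype.sum_sum_type, Matrix.one_apply] using H1 i j
  · ext i j
    simpa [Matrix.mul_apply, Fintype.sum_sum_type, Matrix.one_apply] using H2 i j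
  · ext i j
    simpa [Matrix.mul_apply, Fintype.sum_sum_type, Matrix.one_apply] using H3 i j
  · ext i j
    simpa [Matrix.mul_apply, Fintype.sum_sum_type, Matrix.one_apply] using H4 i j
  · ext i j
    simpa [Matrix.mul_apply, Fintype.sum_sum_type, Matrix.one_apply] using H5 (.inl i) (.inl j)
  · ext i j
    simpa [Matrix.mul_apply, Fintype.sum_sum_type, Matrix.one_apply] using H5 (.inl i) (.inr j)
  · ext i j
    simpa [Matrix.mul_apply, Fintype.sum_sum_type, Matrix.one_apply] using H5 (.inr i) (.inl j)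
  · ext i j
    simpa [Matrix.mul_apply, Fintype.sum_sum_type, Matrix.one_apply] using H5 (.inr i) (.inr j)

/-! ### case I -/

section caseI

variable {u p : ℕ} {ρ : ℕ → ℕ} {N M N' M' : Matrix (Fin 2) (Fin 2) k}
  {a c a' c' : Matrix (Fin u) (Fin 2) k} {w w' : Matrix (Fin p) (Fin 2) k}
  {d d' : Matrix (Fin 2) (Fin u) k} {nu nu' : Matrix (Fin u) (Fin u) k}
  {th th' : Matrix (Fin 2) (Fin p) k} {et et' : Matrix (Fin u) (Fin p) k}

/-- `al' = (a'; w')` can be moved in every direction -/
theorem Tr.moveA [Infinite k]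
    (hT : MaxR ρ (Tr N M a c w d nu th et N' M' a' c' w' d' nu' th' et'))
    {P : Matrix (Fin 2) (Fin u) k} {Q : Matrix (Fin 2) (Fin p) k} (hPQ : P * a + Q * w = 1)
    (x : Matrix (Fin u) (Fin 2) k) (y : Matrix (Fin p) (Fin 2) k) {F : Set k} (hF : F.Finite) :
    ∃ s, s ∉ F ∧ MaxR ρ (Tr N M a c w d nu th et N' M' (a' + s • x) c' (w' + s • y)
      (d' + s • ((d * x + th * y) * P)) (nu' + s • ((nu * x + et * y - x * N) * P))
      (th' + s • ((d * x + th * y) * Q)) (et' + s • ((nu * x + et * y - x * N) * Q))) := by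
  obtain ⟨r2, r3⟩ := Tr.rel hT
  obtain ⟨s, hs, h4⟩ := D8.MaxR.line2 hT (BX 0 0 0 0 0 0 0 0 0 0 0)
    (BX 0 0 x 0 y 0 ((d * x + th * y) * P) ((nu * x + et * y - x * N) * P) 0
      ((d * x + th * y) * Q) ((nu * x + et * y - x * N) * Q)) (fun s => by
      rw [BX_smul, BX_add, BX_smul, BX_add]
      simp only [smul_zero, add_zero]
      refine Tr.cn ?_ ?_
      · have e1 : ∀ X : Matrix (Fin 2) (Fin 2) k, X * P * a + X * Q * w = X := by
          intro X
          rw [Matrix.mul_assoc, Matrix.mul_assoc, ← Matrix.mul_add, hPQ, Matrix.mul_one]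
        have e3 : ∀ X : Matrix (Fin 2) (Fin 2) k, N' * N + (d' + s • (X * P)) * a +
            (th' + s • (X * Q)) * w = (N' * N + d' * a + th' * w) + s • (X * P * a + X * Q * w) := by
          intro X
          rw [Matrix.add_mul, Matrix.add_mul, Matrix.smul_mul, Matrix.smul_mul, smul_add]
          abel
        have e2 : N * N' + d * (a' + s • x) + th * (w' + s • y) =
            (N * N' + d * a' + th * w') + s • (d * x + th * y) := by
          rw [Matrix.mul_add, Matrix.mul_add, Matrix.mul_smul, Matrix.mul_smul, smul_add]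
          abel
        rw [e2, e3, e1, r2]
      · have e1 : ∀ X : Matrix (Fin u) (Fin 2) k, X * P * a + X * Q * w = X := by
          intro X
          rw [Matrix.mul_assoc, Matrix.mul_assoc, ← Matrix.mul_add, hPQ, Matrix.mul_one]
        have e3 : ∀ X : Matrix (Fin u) (Fin 2) k, (a' + s • x) * N + (nu' + s • (X * P)) * a +
            (et' + s • (X * Q)) * w =
            (a' * N + nu' * a + et' * w) + s • (x * N) + s • (X * P * a + X * Q * w) := by
          intro X
          rw [Matrix.add_mul, Matrix.add_mul, Matrix.add_mul, Matrix.smul_mul, Matrix.smul_mul,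
            Matrix.smul_mul, smul_add]
          abel
        have e2 : a * N' + nu * (a' + s • x) + et * (w' + s • y) =
            (a * N' + nu * a' + et * w') + s • (nu * x + et * y) := by
          rw [Matrix.mul_add, Matrix.mul_add, Matrix.mul_smul, Matrix.mul_smul, smul_add]
          abel
        rw [e2, e3, e1, r3, smul_sub]
        abel) hF
  rw [BX_smul, BX_add, BX_smul, BX_add] at h4
  simp only [smul_zero, add_zero] at h4
  exact ⟨s, hs, h4⟩

/-- the basis vectors of `E_2 + U_1` -/
def fv (u p : ℕ) (m : Fin (2 + u)) : Ix 2 u p :=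
  match finSumFinEquiv.symm m with
  | .inl l => .inl (.inr (.inr l))
  | .inr j => .inr (.inl (.inr j))

theorem fv_inj : Function.Injective (fv u p) := by
  intro m m' h
  obtain ⟨x, rfl⟩ := finSumFinEquiv.surjective m
  obtain ⟨y, rfl⟩ := finSumFinEquiv.surjective m'
  simp only [fv, Equiv.symm_apply_apply] at h
  rcases x with x | x <;> rcases y with y | y <;> simp at h ⊢ <;> exact h

theorem fv_inl (l : Fin 2) : fv u p (finSumFinEquiv (.inl l)) = .inl (.inr (.inr l)) := by
  simp only [fv, Equiv.symm_apply_apply]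

theorem fv_inr (j : Fin u) : fv u p (finSumFinEquiv (.inr j)) = .inr (.inl (.inr j)) := by
  simp only [fv, Equiv.symm_apply_apply]

/-- `(al, al')` injective and `u + p = 4` -/
theorem last_free (hup : u + p = 4)
    (hcl : ∀ r g, Cl (TF (k := k) 2 0 (2 + u) r g))
    (hT : CN (Tr N M a c w d nu th et N' M' a' c' w' d' nu' th' et'))
    (hJ : ∀ x y : Fin 2 → k, a *ᵥ x + a' *ᵥ y = 0 → w *ᵥ x + w' *ᵥ y = 0 → x = 0 ∧ y = 0) :
    Cl (Tr N M a c w d nu th et N' M' a' c' w' d' nu' th' et') := by
  refine cl_free (a := 2) (c := 2 + u) (fun i j => hT.1 i j) (fun l => Pi.single (.inl (.inl l)) 1) (fv u p)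
    fv_inj ?_ ?_ ?_ ?_ hcl
  · intro i m x
    obtain ⟨y, rfl⟩ := finSumFinEquiv.surjective m
    rcases y with y | y
    · rw [fv_inl]
      fin_cases i <;> rcases x with (x | x | x) | ((x | x) | x) <;> simp [Tr, JX, BX]
    · rw [fv_inr]
      fin_cases i <;> rcases x with (x | x | x) | ((x | x) | x) <;> simp [Tr, JX, BX]
  · intro i j l x hx
    rw [Matrix.mulVec_single_one]
    show (Tr N M a c w d nu th et N' M' a' c' w' d' nu' th' et' i *
      Tr N M a c w d nu th et N' M' a' c' w' d' nu' th' et' j) x (.inl (.inl l)) = 0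
    rcases x with (x | x | x) | ((x | x) | x)
    · fin_cases i <;> fin_cases j <;> simp [Tr, JX, BX_mul] <;> simp [BX]
    · fin_cases i <;> fin_cases j <;> simp [Tr, JX, BX_mul] <;> simp [BX]
    · exact absurd (fv_inl x).symm (hx _)
    · fin_cases i <;> fin_cases j <;> simp [Tr, JX, BX_mul] <;> simp [BX]
    · exact absurd (fv_inr x).symm (hx _)
    · fin_cases i <;> fin_cases j <;> simp [Tr, JX, BX_mul] <;> simp [BX]
  · intro y hy
    have H := fun x => congrFun hy x
    simp only [SF_mulVec, Pi.zero_apply, Matrix.mulVec_single_one, Matrix.col_apply,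
      ← Equiv.sum_comp finSumFinEquiv (fun m => _ * y (.inr (.inr m))), Fintype.sum_sum_type, fv_inl, fv_inr,
      Fintype.sum_prod_type, Fin.sum_univ_three] at H
    have K0 : ∀ i, y (.inl i) = 0 := by
      intro i
      have h := H (.inl (.inl i))
      simpa [Tr, JX, BX, Pi.single_apply] using h
    have K1 : ∀ i, y (.inr (.inl (.inl (0, i)))) + (∑ l, N i l * y (.inr (.inl (.inl (1, l)))) +
        ∑ l, N' i l * y (.inr (.inl (.inl (2, l))))) = 0 := by
      intro i
      have h := H (.inl (.inr (.inl i)))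
      simpa [Tr, JX, BX, Pi.single_apply, Matrix.one_apply, add_assoc] using h
    have K2 : ∀ i, ∑ l, a i l * y (.inr (.inl (.inl (1, l)))) +
        ∑ l, a' i l * y (.inr (.inl (.inl (2, l)))) = 0 := by
      intro i
      have h := H (.inr (.inl (.inl i)))
      simpa [Tr, JX, BX, Pi.single_apply] using h
    have K3 : ∀ i, ∑ l, w i l * y (.inr (.inl (.inl (1, l)))) +
        ∑ l, w' i l * y (.inr (.inl (.inl (2, l)))) = 0 := by
      intro i
      have h := H (.inr (.inr i))
      simpa [Tr, JX, BX, Pi.single_apply] using h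
    obtain ⟨g1, g2⟩ := hJ (fun l => y (.inr (.inl (.inl (1, l))))) (fun l => y (.inr (.inl (.inl (2, l)))))
      (by funext i; exact K2 i) (by funext i; exact K3 i)
    have G1 : ∀ l, y (.inr (.inl (.inl (1, l)))) = 0 := fun l => congrFun g1 l
    have G2 : ∀ l, y (.inr (.inl (.inl (2, l)))) = 0 := fun l => congrFun g2 l
    have G0 : ∀ l, y (.inr (.inl (.inl (0, l)))) = 0 := by
      intro l
      have h := K1 l
      simpa [G1, G2] using h
    have K4 : ∀ i, y (.inr (.inr (finSumFinEquiv (.inl i)))) = 0 := by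
      intro i
      have h := H (.inl (.inr (.inr i)))
      simpa [G0, G1, G2, K0, Pi.single_apply] using h
    have K5 : ∀ i, y (.inr (.inr (finSumFinEquiv (.inr i)))) = 0 := by
      intro i
      have h := H (.inr (.inl (.inr i)))
      simpa [G0, G1, G2, K0, Pi.single_apply] using h
    funext x
    rcases x with x | ((⟨j, x⟩ | x) | x)
    · exact K0 x
    · fin_cases j
      · exact G0 x
      · exact G1 x
      · exact G2 x
    · exact x.elim0
    · obtain ⟨z, rfl⟩ := finSumFinEquiv.surjective x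
      rcases z with z | z
      · exact K4 z
      · exact K5 z
  · simp
    omega

/-- **the last step for `u + p = 4`** -/
theorem last_F [Infinite k] (hup : u + p = 4)
    (hcl : ∀ r g, Cl (TF (k := k) 2 0 (2 + u) r g))
    (hT : MaxR ρ (Tr N M a c w d nu th et N' M' a' c' w' d' nu' th' et'))
    (hal : ∀ x, a *ᵥ x = 0 → w *ᵥ x = 0 → x = 0) : False := by
  obtain ⟨z, t, P, Q, L, R, h1, h2, h3, h4, -, -, -, -⟩ := exists_split a w hal
    (show 2 + 2 = u + p by omega)
  have hpoly : IsPoly fun s : k => (L * a' + R * w' + s • (L * (z - a') + R * (t - w'))).det :=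
    isPoly_det (isPoly_line _ _)
  have hne : (L * a' + R * w' + (1 : k) • (L * (z - a') + R * (t - w'))).det ≠ 0 := by
    have e : L * a' + R * w' + (1 : k) • (L * (z - a') + R * (t - w')) = 1 := by
      rw [one_smul, ← h4, Matrix.mul_sub, Matrix.mul_sub]
      abel
    rw [e, Matrix.det_one]
    exact one_ne_zero
  obtain ⟨s, hs, hT'⟩ := Tr.moveA hT h1 (z - a') (t - w') (hpoly.finite hne)
  refine hT'.ncl (last_free hup hcl hT'.cn fun x y e1 e2 => ?_)
  have h5 : (L * (a' + s • (z - a')) + R * (w' + s • (t - w'))) *ᵥ y = 0 := by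
    have e3 : ∀ (A' : Matrix (Fin u) (Fin 2) k) (W' : Matrix (Fin p) (Fin 2) k),
        L *ᵥ (a *ᵥ x + A' *ᵥ y) + R *ᵥ (w *ᵥ x + W' *ᵥ y) =
        (L * a + R * w) *ᵥ x + (L * A' + R * W') *ᵥ y := by
      intro A' W'
      simp only [Matrix.mulVec_add, Matrix.mulVec_mulVec, Matrix.add_mulVec]
      abel
    have e4 := e3 (a' + s • (z - a')) (w' + s • (t - w'))
    rw [e1, e2, h3, Matrix.mulVec_zero, Matrix.mulVec_zero, Matrix.zero_mulVec, add_zero, zero_add] at e4
    exact e4.symm
  have h6 : (L * (a' + s • (z - a')) + R * (w' + s • (t - w'))).det ≠ 0 := by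
    have e : L * (a' + s • (z - a')) + R * (w' + s • (t - w')) =
        L * a' + R * w' + s • (L * (z - a') + R * (t - w')) := by
      rw [Matrix.mul_add, Matrix.mul_add, Matrix.mul_smul, Matrix.mul_smul, smul_add]
      abel
    rw [e]
    exact hs
  have h7 : y = 0 := by
    by_contra hy
    exact h6 (Matrix.exists_mulVec_eq_zero_iff.1 ⟨y, hy, h5⟩)
  subst h7
  rw [Matrix.mulVec_zero, add_zero] at e1 e2
  exact ⟨hal x e1 e2, rfl⟩

end caseI

end Pool.Agent.Lib.D13
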