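import Pool.Agent.Lib.D10.X212
import Pool.Agent.Lib.D13.LastF

/-!
# MP_5dcbc3_ag: types `(3, 3, 2^u, 1^p)`, case I (`b = pi = 0` for both), the last step for `u + p = 3`

`G = U_0 + P`, `al = (a; w) : E -> G` injective. If `u + p = 3` then `al'` can be moved such that
`al' f = al g` for a basis `f, g` of `E`, after adding multiples of `A` also `N' f = N g`; then
`Psi' = (d' th'; nu' et')` can be moved such that `C : E_1 + G -> E_2 + U_1` is onto, and the triple
is a member of `TR (2 + u)` (`cl_TR_X`).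
-/

namespace Pool.Agent.Lib.D13

open Matrix Pool.Agent.Lib.Q5dc Pool.Agent.Lib.D7 Pool.Agent.Lib.D9 Pool.Agent.Lib.D10

variable {k : Type*} [Field k]

/-- `(n | D)` is onto for some `D` -/
theorem exists_onto {u p : ℕ} (N' : Matrix (Fin 2) (Fin 2) k) (a' : Matrix (Fin u) (Fin 2) k)
    (w' : Matrix (Fin p) (Fin 2) k) (h : ∀ x, a' *ᵥ x = 0 → w' *ᵥ x = 0 → x = 0) :
    ∃ (D : Matrix (Fin 2 ⊕ Fin u) (Fin u ⊕ Fin p) k) (σ1 : Matrix (Fin 2) (Fin 2 ⊕ Fin u) k)
      (σ2 : Matrix (Fin u ⊕ Fin p) (Fin 2 ⊕ Fin u) k), fromRows N' a' * σ1 + D * σ2 = 1 := by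
  obtain ⟨z, P, L, -, -, -, -, h5⟩ := exists_split0 (e := 2) (h := u + p)
    (fromRows (fromRows N' a') w' : Matrix ((Fin 2 ⊕ Fin u) ⊕ Fin p) (Fin 2) k) (by
      intro x hx
      rw [fromRows_mulVec, fromRows_mulVec] at hx
      refine h x ?_ ?_
      · funext i
        exact congrFun hx (.inl (.inr i))
      · funext i
        exact congrFun hx (.inr i)) (by simp; omega)
  refine ⟨Matrix.of fun x y => z (.inl x) (finSumFinEquiv y),
    Matrix.of fun i x => P i (.inl x), Matrix.of fun y x => L (finSumFinEquiv y) (.inl x), ?_⟩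
  ext x y
  have H := congrFun (congrFun h5 (.inl x)) (.inl y)
  rw [Matrix.add_apply, Matrix.mul_apply, Matrix.mul_apply, ← Equiv.sum_comp finSumFinEquiv] at H
  rw [Matrix.add_apply, Matrix.mul_apply, Matrix.mul_apply]
  refine Eq.trans ?_ (H.trans ?_)
  · rfl
  · simp [Matrix.one_apply]

section caseI

variable {u p : ℕ} {ρ : ℕ → ℕ} {N M N' M' : Matrix (Fin 2) (Fin 2) k}
  {a c a' c' : Matrix (Fin u) (Fin 2) k} {w w' : Matrix (Fin p) (Fin 2) k}
  {d d' : Matrix (Fin 2) (Fin u) k} {nu nu' : Matrix (Fin u) (Fin u) k}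
  {th th' : Matrix (Fin 2) (Fin p) k} {et et' : Matrix (Fin u) (Fin p) k}

/-- `Psi'` can be moved in every direction, if `al'` is injective -/
theorem Tr.moveD [Infinite k]
    (hT : MaxR ρ (Tr N M a c w d nu th et N' M' a' c' w' d' nu' th' et'))
    {P : Matrix (Fin 2) (Fin u) k} {Q : Matrix (Fin 2) (Fin p) k} (hPQ : P * a' + Q * w' = 1)
    (X : Matrix (Fin 2) (Fin u) k) (Y : Matrix (Fin 2) (Fin p) k) (Z : Matrix (Fin u) (Fin u) k)
    (W : Matrix (Fin u) (Fin p) k) {F : Set k} (hF : F.Finite) :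
    ∃ s, s ∉ F ∧ MaxR ρ (Tr N M a c w
      (d + s • ((X * a + Y * w) * P)) (nu + s • ((Z * a + W * w) * P))
      (th + s • ((X * a + Y * w) * Q)) (et + s • ((Z * a + W * w) * Q)) N' M' a' c' w'
      (d' + s • X) (nu' + s • Z) (th' + s • Y) (et' + s • W)) := by
  obtain ⟨r2, r3⟩ := Tr.rel hT
  obtain ⟨s, hs, h4⟩ := D8.MaxR.line2 hT
    (BX 0 0 0 0 0 0 ((X * a + Y * w) * P) ((Z * a + W * w) * P) 0
      ((X * a + Y * w) * Q) ((Z * a + W * w) * Q))
    (BX 0 0 0 0 0 0 X Z 0 Y W) (fun s => by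
      rw [BX_smul, BX_add, BX_smul, BX_add]
      simp only [smul_zero, add_zero]
      refine Tr.cn ?_ ?_
      · have e1 : ∀ X : Matrix (Fin 2) (Fin 2) k, X * P * a' + X * Q * w' = X := by
          intro X
          rw [Matrix.mul_assoc, Matrix.mul_assoc, ← Matrix.mul_add, hPQ, Matrix.mul_one]
        have e3 : ∀ X : Matrix (Fin 2) (Fin 2) k, N * N' + (d + s • (X * P)) * a' +
            (th + s • (X * Q)) * w' = (N * N' + d * a' + th * w') + s • (X * P * a' + X * Q * w') := by
          intro X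
          rw [Matrix.add_mul, Matrix.add_mul, Matrix.smul_mul, Matrix.smul_mul, smul_add]
          abel
        have e2 : N' * N + (d' + s • X) * a + (th' + s • Y) * w =
            (N' * N + d' * a + th' * w) + s • (X * a + Y * w) := by
          rw [Matrix.add_mul, Matrix.add_mul, Matrix.smul_mul, Matrix.smul_mul, smul_add]
          abel
        rw [e2, e3, e1, r2]
      · have e1 : ∀ X : Matrix (Fin u) (Fin 2) k, X * P * a' + X * Q * w' = X := by
          intro X
          rw [Matrix.mul_assoc, Matrix.mul_assoc, ← Matrix.mul_add, hPQ, Matrix.mul_one]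
        have e3 : ∀ X : Matrix (Fin u) (Fin 2) k, a * N' + (nu + s • (X * P)) * a' +
            (et + s • (X * Q)) * w' =
            (a * N' + nu * a' + et * w') + s • (X * P * a' + X * Q * w') := by
          intro X
          rw [Matrix.add_mul, Matrix.add_mul, Matrix.smul_mul, Matrix.smul_mul, smul_add]
          abel
        have e2 : a' * N + (nu' + s • Z) * a + (et' + s • W) * w =
            (a' * N + nu' * a + et' * w) + s • (Z * a + W * w) := by
          rw [Matrix.add_mul, Matrix.add_mul, Matrix.smul_mul, Matrix.smul_mul, smul_add]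
          abel
        rw [e2, e3, e1, r3]) hF
  rw [BX_smul, BX_add, BX_smul, BX_add] at h4
  simp only [smul_zero, add_zero] at h4
  exact ⟨s, hs, h4⟩

/-- `u + p = 3`: the end, if `al' f = al g`, `N' f = N g` -/
theorem last_R0 [Infinite k] (hup : u + p = 3)
    (hcl : ∀ R : Fin 9 × Fin (2 + u) → k, Cl (TR (2 + u) R))
    (hT : MaxR ρ (Tr N M a c w d nu th et N' M' a' c' w' d' nu' th' et')) (f g : Fin 2 → k)
    (hfg : f 0 * g 1 - f 1 * g 0 ≠ 0) (h1 : N' *ᵥ f = N *ᵥ g) (h2 : a' *ᵥ f = a *ᵥ g)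
    (h3 : w' *ᵥ f = w *ᵥ g)
    (hG : ∀ x y z : k, x • (a' *ᵥ f) + y • (a' *ᵥ g) + z • (a *ᵥ f) = 0 →
      x • (w' *ᵥ f) + y • (w' *ᵥ g) + z • (w *ᵥ f) = 0 → x = 0 ∧ y = 0 ∧ z = 0) : False := by
  have hinj : ∀ x, a' *ᵥ x = 0 → w' *ᵥ x = 0 → x = 0 := by
    intro x e1 e2
    set D := f 0 * g 1 - f 1 * g 0 with hD
    have hx : x = ((x 0 * g 1 - x 1 * g 0) / D) • f + ((f 0 * x 1 - f 1 * x 0) / D) • g := by
      funext i
      rw [Pi.add_apply, Pi.smul_apply, Pi.smul_apply, smul_eq_mul, smul_eq_mul,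
        div_mul_eq_mul_div, div_mul_eq_mul_div, ← add_div, eq_div_iff hfg, hD]
      fin_cases i
      · show x 0 * _ = _ * f 0 + _ * g 0
        ring
      · show x 1 * _ = _ * f 1 + _ * g 1
        ring
    rw [hx, Matrix.mulVec_add, Matrix.mulVec_smul, Matrix.mulVec_smul] at e1 e2
    obtain ⟨q1, q2, -⟩ := hG _ _ 0 (by rw [e1, zero_smul, add_zero]) (by rw [e2, zero_smul, add_zero])
    rw [hx, q1, q2, zero_smul, zero_smul, add_zero]
  obtain ⟨-, -, P, Q, -, -, hPQ, -⟩ := exists_split a' w' hinj (show 2 + 1 = u + p by omega)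
  obtain ⟨D, σ1, σ2, hD⟩ := exists_onto N' a' w' hinj
  obtain ⟨s, hs, hT'⟩ := Tr.moveD hT hPQ (D.toBlocks₁₁ - d') (D.toBlocks₁₂ - th')
    (D.toBlocks₂₁ - nu') (D.toBlocks₂₂ - et')
    ((isPoly_det (isPoly_line (fromRows N' a' * σ1 + fromBlocks d' th' nu' et' * σ2)
      ((D - fromBlocks d' th' nu' et') * σ2))).finite (s₁ := 1) (by
        have e : fromRows N' a' * σ1 + fromBlocks d' th' nu' et' * σ2 +
            (1 : k) • ((D - fromBlocks d' th' nu' et') * σ2) = 1 := by
          rw [one_smul, Matrix.sub_mul, ← hD]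
          abel
        rw [e, Matrix.det_one]
        exact one_ne_zero))
  refine hT'.ncl (cl_TR_X hup hcl hT'.cn f g hfg h1 h2 h3 hG fun s0 t0 => ?_)
  set S := fromRows N' a' * σ1 + fromBlocks d' th' nu' et' * σ2 +
    s • ((D - fromBlocks d' th' nu' et') * σ2) with hS
  have hu : IsUnit S.det := isUnit_iff_ne_zero.2 hs
  set q := S⁻¹ *ᵥ Sum.elim s0 t0 with hq
  have h5 : S *ᵥ q = Sum.elim s0 t0 := by
    rw [hq, Matrix.mulVec_mulVec, Matrix.mul_nonsing_inv _ hu, Matrix.one_mulVec]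
  have e6 : fromBlocks d' th' nu' et' + s • (D - fromBlocks d' th' nu' et') =
      fromBlocks (d' + s • (D.toBlocks₁₁ - d')) (th' + s • (D.toBlocks₁₂ - th'))
        (nu' + s • (D.toBlocks₂₁ - nu')) (et' + s • (D.toBlocks₂₂ - et')) := by
    ext x y
    rcases x with x | x <;> rcases y with y | y <;> rfl
  have e7 : S = fromRows N' a' * σ1 + (fromBlocks d' th' nu' et' +
      s • (D - fromBlocks d' th' nu' et')) * σ2 := by
    rw [hS, Matrix.add_mul, Matrix.smul_mul]
    abel
  rw [e7, e6, Matrix.add_mulVec, ← Matrix.mulVec_mulVec, ← Matrix.mulVec_mulVec, fromRows_mulVec,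
    fromBlocks_mulVec] at h5
  refine ⟨σ1 *ᵥ q, (σ2 *ᵥ q) ∘ Sum.inl, (σ2 *ᵥ q) ∘ Sum.inr, ?_, ?_⟩
  · funext i
    have := congrFun h5 (.inl i)
    simpa [add_assoc] using this
  · funext i
    have := congrFun h5 (.inr i)
    simpa [add_assoc] using this

namespace LastRAux

open D10.X212Aux D9.N33111Aux

/-- the column `f` with `y f = 0` -/
def fy (y : Matrix (Fin 1) (Fin 2) k) : Matrix (Fin 2) (Fin 1) k :=
  (!![0, 1; -1, 0] : Matrix (Fin 2) (Fin 2) k) * yᵀ

theorem mul_fy (y : Matrix (Fin 1) (Fin 2) k) : y * fy y = 0 := by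
  ext i j
  rw [Subsingleton.elim i 0, Subsingleton.elim j 0, fy]
  simp only [Matrix.mul_apply, Fin.sum_univ_two, Matrix.transpose_apply, Matrix.zero_apply,
    Matrix.of_apply, Matrix.cons_val', Matrix.cons_val_zero, Matrix.cons_val_one,
    Matrix.cons_val_fin_one]
  ring

theorem mul_De (y : Matrix (Fin 1) (Fin 2) k) (g : Matrix (Fin 2) (Fin 1) k) :
    (y * g) 0 0 = De (fy y) g := by
  rw [De, fy]
  simp only [Matrix.mul_apply, Fin.sum_univ_two, Matrix.transpose_apply,
    Matrix.of_apply, Matrix.cons_val', Matrix.cons_val_zero, Matrix.cons_val_one,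
    Matrix.cons_val_fin_one]
  ring

theorem De_ne {f g : Matrix (Fin 2) (Fin 1) k} (h : De f g ≠ 0) {x y : k}
    (e : x • f + y • g = 0) : x = 0 ∧ y = 0 := by
  have e0 := congrFun (congrFun e 0) 0
  have e1 := congrFun (congrFun e 1) 0
  simp only [Matrix.add_apply, Matrix.smul_apply, smul_eq_mul, Matrix.zero_apply] at e0 e1
  constructor
  · refine (mul_eq_zero.1 (?_ : x * De f g = 0)).resolve_right h
    rw [De]
    linear_combination g 1 0 * e0 - g 0 0 * e1
  · refine (mul_eq_zero.1 (?_ : y * De f g = 0)).resolve_right h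
    rw [De]
    linear_combination f 0 0 * e1 - f 1 0 * e0

theorem last_R1 [Infinite k] (hup : u + p = 3)
    (hcl : ∀ R : Fin 9 × Fin (2 + u) → k, Cl (TR (2 + u) R))
    (hT : MaxR ρ (Tr N M a c w d nu th et N' M' a' c' w' d' nu' th' et'))
    (hal : ∀ x, a *ᵥ x = 0 → w *ᵥ x = 0 → x = 0)
    {z : Matrix (Fin u) (Fin 1) k} {t : Matrix (Fin p) (Fin 1) k} {P : Matrix (Fin 2) (Fin u) k}
    {Q : Matrix (Fin 2) (Fin p) k} {L : Matrix (Fin 1) (Fin u) k} {R : Matrix (Fin 1) (Fin p) k}
    (h3 : L * a + R * w = 0) (h5 : a * P + z * L = 1) (h6 : a * Q + z * R = 0)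
    (h7 : w * P + t * L = 0) (h8 : w * Q + t * R = 1)
    (hD : De (fy (L * a' + R * w')) ((P * a' + Q * w') * fy (L * a' + R * w')) ≠ 0) : False := by
  set y' := L * a' + R * w' with hy'
  set x' := P * a' + Q * w' with hx'
  have ea : a' = a * x' + z * y' := by
    rw [hx', hy', Matrix.mul_add, Matrix.mul_add, ← Matrix.mul_assoc, ← Matrix.mul_assoc,
      ← Matrix.mul_assoc, ← Matrix.mul_assoc]
    have e : a * P * a' + a * Q * w' + (z * L * a' + z * R * w') =
        (a * P + z * L) * a' + (a * Q + z * R) * w' := by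
      rw [Matrix.add_mul, Matrix.add_mul]
      abel
    rw [e, h5, h6, Matrix.one_mul, Matrix.zero_mul, add_zero]
  have ew : w' = w * x' + t * y' := by
    rw [hx', hy', Matrix.mul_add, Matrix.mul_add, ← Matrix.mul_assoc, ← Matrix.mul_assoc,
      ← Matrix.mul_assoc, ← Matrix.mul_assoc]
    have e : w * P * a' + w * Q * w' + (t * L * a' + t * R * w') =
        (w * P + t * L) * a' + (w * Q + t * R) * w' := by
      rw [Matrix.add_mul, Matrix.add_mul]
      abel
    rw [e, h7, h8, Matrix.one_mul, Matrix.zero_mul, zero_add]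
  set f := fy y' with hf
  set g := x' * f with hg
  set D := De f g with hDd
  have haf : a' * f = a * g := by
    rw [ea, Matrix.add_mul, Matrix.mul_assoc, Matrix.mul_assoc, hf, mul_fy, Matrix.mul_zero,
      add_zero]
  have hwf : w' * f = w * g := by
    rw [ew, Matrix.add_mul, Matrix.mul_assoc, Matrix.mul_assoc, hf, mul_fy, Matrix.mul_zero,
      add_zero]
  have hdec := decomp f g (N' * f - N * g) hD
  set h1 := De (N' * f - N * g) g / De f g with hh1
  set h2 := De f (N' * f - N * g) / De f g with hh2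
  have hL := Tr.lin hT 1 0 0 1 h2 (-h1) (by simp)
  simp only [one_smul, zero_smul, zero_add, add_zero] at hL
  have hcol : ∀ {r : ℕ} (X : Matrix (Fin r) (Fin 2) k) (v : Matrix (Fin 2) (Fin 1) k),
      X *ᵥ (fun i => v i 0) = fun i => (X * v) i 0 := fun X v => rfl
  refine last_R0 hup hcl hL (fun i => f i 0) (fun i => g i 0) hD ?_ ?_ ?_ ?_
  · rw [hcol, hcol]
    have e : (N' + (-h1) • 1) * f = (N + h2 • 1) * g := by
      rw [Matrix.add_mul, Matrix.add_mul, Matrix.smul_mul, Matrix.smul_mul, Matrix.one_mul,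
        Matrix.one_mul]
      have e2 : N' * f = N * g + (h1 • f + h2 • g) := by rw [← hdec]; abel
      rw [e2, neg_smul]
      abel
    rw [e]
  · rw [hcol, hcol, haf]
  · rw [hcol, hcol, hwf]
  · intro x y s e1 e2
    rw [hcol, hcol, hcol] at e1 e2
    have e1' : x • (a' * f) + y • (a' * g) + s • (a * f) = 0 := by
      ext i j
      rw [Subsingleton.elim j 0]
      exact congrFun e1 i
    have e2' : x • (w' * f) + y • (w' * g) + s • (w * f) = 0 := by
      ext i j
      rw [Subsingleton.elim j 0]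
      exact congrFun e2 i
    have e3 : L * (x • (a' * f) + y • (a' * g) + s • (a * f)) +
        R * (x • (w' * f) + y • (w' * g) + s • (w * f)) =
        x • (y' * f) + y • (y' * g) + s • ((L * a + R * w) * f) := by
      rw [hy']
      simp only [Matrix.mul_add, Matrix.mul_smul, Matrix.add_mul, smul_add, Matrix.mul_assoc]
      abel
    rw [e1', e2', h3, Matrix.mul_zero, Matrix.mul_zero, Matrix.zero_mul, smul_zero, add_zero,
      add_zero, hf, mul_fy, smul_zero, zero_add] at e3
    have hy : y = 0 := by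
      have e4 := congrFun (congrFun e3 0) 0
      rw [Matrix.smul_apply, mul_De, Matrix.zero_apply, smul_eq_mul] at e4
      exact (mul_eq_zero.1 e4.symm).resolve_right hD
    rw [hy, zero_smul, add_zero, haf] at e1'
    rw [hy, zero_smul, add_zero, hwf] at e2'
    have e5 : s • f + x • g = 0 := by
      have := hal (fun i => (s • f + x • g) i 0) (by
        rw [hcol, Matrix.mul_add, Matrix.mul_smul, Matrix.mul_smul, add_comm, e1']
        rfl) (by
        rw [hcol, Matrix.mul_add, Matrix.mul_smul, Matrix.mul_smul, add_comm, e2']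
        rfl)
      ext i j
      rw [Subsingleton.elim j 0]
      exact congrFun this i
    obtain ⟨q1, q2⟩ := De_ne hD e5
    exact ⟨q2, hy, q1⟩

end LastRAux

open LastRAux D10.X212Aux D9.N33111Aux in
/-- **the last step for `u + p = 3`** -/
theorem last_R [Infinite k] (hup : u + p = 3)
    (hcl : ∀ R : Fin 9 × Fin (2 + u) → k, Cl (TR (2 + u) R))
    (hT : MaxR ρ (Tr N M a c w d nu th et N' M' a' c' w' d' nu' th' et'))
    (hal : ∀ x, a *ᵥ x = 0 → w *ᵥ x = 0 → x = 0) : False := by
  obtain ⟨z, t, P, Q, L, R, h1, h2, h3, h4, h5, h6, h7, h8⟩ := exists_split a w hal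
    (show 2 + 1 = u + p by omega)
  set X1 : Matrix (Fin 2) (Fin 2) k := !![0, 0; 1, 0] with hX1
  set y1 : Matrix (Fin 1) (Fin 2) k := !![0, 1] with hy1
  set x := a * X1 + z * y1 - a' with hx
  set y := w * X1 + t * y1 - w' with hy
  have pa : ∀ i j, D7.IsPoly fun s : k => (a' + s • x) i j := fun i j =>
    (D7.IsPoly.const _).add (D7.IsPoly.id.mul (D7.IsPoly.const _))
  have pw : ∀ i j, D7.IsPoly fun s : k => (w' + s • y) i j := fun i j =>
    (D7.IsPoly.const _).add (D7.IsPoly.id.mul (D7.IsPoly.const _))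
  have py := poly_add (poly_mul (poly_const L) pa) (poly_mul (poly_const R) pw)
  have px := poly_add (poly_mul (poly_const P) pa) (poly_mul (poly_const Q) pw)
  have pf : ∀ i j, D7.IsPoly fun s : k => fy (L * (a' + s • x) + R * (w' + s • y)) i j :=
    poly_mul (poly_const (!![0, 1; -1, 0] : Matrix (Fin 2) (Fin 2) k)) (fun i j => py j i)
  have pD := poly_De pf (poly_mul px pf)
  have ey : L * (a' + (1 : k) • x) + R * (w' + (1 : k) • y) = y1 := by
    rw [one_smul, one_smul, hx, hy, add_sub_cancel, add_sub_cancel, Matrix.mul_add,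
      Matrix.mul_add, ← Matrix.mul_assoc, ← Matrix.mul_assoc, ← Matrix.mul_assoc,
      ← Matrix.mul_assoc]
    have e : L * a * X1 + L * z * y1 + (R * w * X1 + R * t * y1) =
        (L * a + R * w) * X1 + (L * z + R * t) * y1 := by
      rw [Matrix.add_mul, Matrix.add_mul]
      abel
    rw [e, h3, h4, Matrix.zero_mul, Matrix.one_mul, zero_add]
  have ex : P * (a' + (1 : k) • x) + Q * (w' + (1 : k) • y) = X1 := by
    rw [one_smul, one_smul, hx, hy, add_sub_cancel, add_sub_cancel, Matrix.mul_add,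
      Matrix.mul_add, ← Matrix.mul_assoc, ← Matrix.mul_assoc, ← Matrix.mul_assoc,
      ← Matrix.mul_assoc]
    have e : P * a * X1 + P * z * y1 + (Q * w * X1 + Q * t * y1) =
        (P * a + Q * w) * X1 + (P * z + Q * t) * y1 := by
      rw [Matrix.add_mul, Matrix.add_mul]
      abel
    rw [e, h1, h2, Matrix.zero_mul, Matrix.one_mul, add_zero]
  obtain ⟨s, hs, hT'⟩ := Tr.moveA hT h1 x y (pD.finite (s₁ := 1) (by
    rw [ey, ex]
    have f1 : fy y1 = (!![1; 0] : Matrix (Fin 2) (Fin 1) k) := by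
      ext i j
      rw [Subsingleton.elim j 0, fy, hy1]
      fin_cases i <;> simp [Matrix.mul_apply, Fin.sum_univ_two]
    have g1 : X1 * (!![1; 0] : Matrix (Fin 2) (Fin 1) k) = !![0; 1] := by
      ext i j
      rw [Subsingleton.elim j 0, hX1]
      fin_cases i <;> simp [Matrix.mul_apply, Fin.sum_univ_two]
    have e : De (fy y1) (X1 * fy y1) = (1 : k) := by
      rw [f1, g1]
      simp [De]
    rw [e]
    exact one_ne_zero))
  exact last_R1 hup hcl hT' hal h3 h5 h6 h7 h8 hs

end caseI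


end Pool.Agent.Lib.D13
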