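import Pool.Agent.Lib.D13.Lift

/-!
# MP_5dcbc3_ag: lifting lemma at an arbitrary parameter value; polynomial matrix families
-/

namespace Pool.Agent.Lib.D13

open Matrix Pool.Agent.Lib Pool.Agent.Lib.D7 Pool.Agent.Lib.Q5dc

variable {k : Type*} [Field k]

section

variable {V W : Type*} [AddCommGroup V] [Module k V] [AddCommGroup W] [Module k W]

theorem LiftAt.shift {v : k → V} (h : PolyV v) (a : k) : PolyV fun s => v (a + s) := by
  obtain ⟨d, c, h⟩ := h
  have e : (fun s => v (a + s)) = fun s => ∑ i ∈ Finset.range d, (a + s) ^ i • c i := by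
    funext s
    exact h _
  rw [e]
  exact PolyV.sum _ fun i _ => PolyV.smul
    (((D7.IsPoly.const a).add D7.IsPoly.id).pow i) (PolyV.const _)

theorem LiftAt.dvd {v : k → V} (h : PolyV v) (h0 : v 0 = 0) :
    ∃ e : k → V, PolyV e ∧ ∀ s, v s = s • e s := by
  obtain ⟨d, c, h⟩ := h
  rcases d with _ | d
  · refine ⟨fun _ => 0, PolyV.zero, fun s => ?_⟩
    rw [h s]
    simp
  · refine ⟨fun s => ∑ i ∈ Finset.range d, s ^ i • c (i + 1), ⟨d, fun i => c (i + 1), fun s => rfl⟩,
      fun s => ?_⟩
    have h1 : c 0 = 0 := by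
      rw [h 0, Finset.sum_range_succ'] at h0
      simpa using h0
    rw [h s, Finset.sum_range_succ', h1, smul_zero, add_zero, Finset.smul_sum]
    refine Finset.sum_congr rfl fun i _ => ?_
    rw [smul_smul, pow_succ']

theorem PolyV.prod {v : k → V} {w : k → W} (hv : PolyV v) (hw : PolyV w) :
    PolyV fun s => (v s, w s) := by
  have h := (hv.map (LinearMap.inl k V W)).add (hw.map (LinearMap.inr k V W))
  simpa using h

variable [FiniteDimensional k V] [FiniteDimensional k W]

/-- **Lifting lemma** at `s₁`: a solution of `L(s₁) c = 0`, `L(s₁)` onto, is the value at `s₁` of a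
polynomial solution of `L(s) v(s) = 0`. -/
theorem lift_at (L : k → V →ₗ[k] W) (hL : ∀ v, PolyV fun s => L s v) (s₁ : k)
    (h : ∀ w, ∃ v, L s₁ v = w) {c : V} (hc : L s₁ c = 0) :
    ∃ v : k → V, PolyV v ∧ v s₁ = c ∧ ∀ s, L s (v s) = 0 := by
  have key := liftV (fun t => L (s₁ + t)) 0 (fun w => ?_) (fun _ => c) (PolyV.const c)
  · obtain ⟨e, he, he'⟩ := LiftAt.dvd (v := fun t => L (s₁ + t) c)
      (LiftAt.shift (hL c) s₁) (by simpa using hc)
    obtain ⟨v, h1, h2, h3⟩ := key e he (fun s => by simpa using he' s)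
    refine ⟨fun s => v (-s₁ + s), LiftAt.shift h1 _, ?_, fun s => ?_⟩
    · simpa using h2
    · have h4 := h3 (-s₁ + s)
      have h5 : s₁ + (-s₁ + s) = s := by ring
      rwa [h5] at h4
  · obtain ⟨v, hv⟩ := h w
    obtain ⟨e, he, he'⟩ := LiftAt.dvd (v := fun t => L (s₁ + t) v - w)
      ((LiftAt.shift (hL v) s₁).sub (PolyV.const w)) (by simpa using sub_eq_zero.2 hv)
    refine ⟨fun _ => v, PolyV.const v, e, he, fun s => ?_⟩
    rw [pow_zero, one_smul, ← he' s]
    abel

end

/-! ### polynomial families of matrices -/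

variable {m n l : Type*}

/-- polynomial entries -/
def PM (M : k → Matrix m n k) : Prop := ∀ x y, IsPoly fun s => M s x y

theorem PM.const (M : Matrix m n k) : PM fun _ : k => M := fun _ _ => D7.IsPoly.const _

theorem PM.add {M N : k → Matrix m n k} (hM : PM M) (hN : PM N) : PM fun s => M s + N s :=
  fun x y => (hM x y).add (hN x y)

theorem PM.sub {M N : k → Matrix m n k} (hM : PM M) (hN : PM N) : PM fun s => M s - N s :=
  fun x y => (hM x y).sub (hN x y)

theorem PM.smul {f : k → k} (hf : IsPoly f) {M : k → Matrix m n k} (hM : PM M) :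
    PM fun s => f s • M s :=
  fun x y => hf.mul (hM x y)

theorem PM.mul [Fintype n] {M : k → Matrix m n k} {N : k → Matrix n l k} (hM : PM M) (hN : PM N) :
    PM fun s => M s * N s := fun x y => by
  simp only [Matrix.mul_apply]
  exact isPoly_sum _ fun j _ => (hM x j).mul (hN j y)

theorem PM.mulVec [Fintype n] {M : k → Matrix m n k} {v : k → n → k} (hM : PM M)
    (hv : ∀ i, IsPoly fun s => v s i) (x : m) : IsPoly fun s => (M s *ᵥ v s) x := by
  simp only [Matrix.mulVec, dotProduct]
  exact isPoly_sum _ fun j _ => (hM x j).mul (hv j)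

theorem PM.aeval [Fintype n] [DecidableEq n] {M : k → Matrix n n k} (hM : PM M)
    (p : Polynomial k) : PM fun s => Polynomial.aeval (M s) p := by
  have e : (fun s => Polynomial.aeval (M s) p) =
      fun s => ∑ i ∈ Finset.range (p.natDegree + 1), p.coeff i • M s ^ i := by
    funext s
    exact Polynomial.aeval_eq_sum_range _
  rw [e]
  intro x y
  simp only [Matrix.sum_apply]
  refine isPoly_sum _ fun i _ => ?_
  exact (D7.IsPoly.const _).mul (isPoly_pow hM i x y)

end Pool.Agent.Lib.D13
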