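import Pool.Agent.Lib.D13.Psi

/-!
# MP_5dcbc3_ag: limits of elements of the range, second order conditions for the rank

`lim_range`: if the rank of `A s` is at most the rank of `A 0` and `c s` is in the range of `A s` for
all `s ≠ 0` (`A`, `c` polynomial in `s`), then `c 0` is in the range of `A 0`.
-/

set_option autoImplicit false

namespace Pool.Agent.Lib.D13

open Matrix Pool.Agent.Lib.Q5dc Pool.Agent.Lib.D7

variable {k : Type*} [Field k] {n : Type*} [Fintype n] [DecidableEq n]

theorem isPoly_fsum {ι : Type*} (S : Finset ι) {f : ι → k → k} (h : ∀ i, D7.IsPoly (f i)) :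
    D7.IsPoly fun s => ∑ i ∈ S, f i s := by
  classical
  induction S using Finset.induction_on with
  | empty => simpa using D7.IsPoly.const (0 : k)
  | insert i S hi ih =>
    simp only [Finset.sum_insert hi]
    exact (h i).add ih

theorem lim_range [Infinite k] (A : k → Matrix n n k) (c : k → n → k)
    (hA : ∀ x y, IsPoly fun s => A s x y) (hc : ∀ x, IsPoly fun s => c s x)
    (hr : ∀ s, s ≠ 0 → (A s).rank ≤ (A 0).rank) (hv : ∀ s, s ≠ 0 → ∃ v, A s *ᵥ v = c s) :
    ∃ v, A 0 *ᵥ v = c 0 := by
  let N : k → Matrix (n ⊕ Unit) (n ⊕ Unit) k := fun s =>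
    fromBlocks (A s) (Matrix.of fun x _ => c s x) 0 0
  have hN : ∀ x y, IsPoly fun s => N s x y := by
    rintro (x | x) (y | y)
    · exact hA x y
    · exact hc x
    · exact D7.IsPoly.const _
    · exact D7.IsPoly.const _
  have h1 : ∀ s : k, s ≠ 0 → (N s).rank ≤ (A 0).rank := by
    intro s hs
    obtain ⟨v, hv⟩ := hv s hs
    have e : N s = fromRows (1 : Matrix n n k) (0 : Matrix Unit n k) * (A s) *
        fromCols (1 : Matrix n n k) (Matrix.of fun x (_ : Unit) => v x) := by
      rw [fromRows_mul, Matrix.one_mul, Matrix.zero_mul, fromRows_mul_fromCols]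
      show fromBlocks _ _ _ _ = fromBlocks _ _ _ _
      congr 1
      · rw [Matrix.mul_one]
      · ext x y
        exact (congrFun hv x).symm
      · rw [Matrix.mul_one]
      · rw [Matrix.zero_mul]
    rw [e]
    exact (Matrix.rank_mul_le_left _ _).trans ((Matrix.rank_mul_le_right _ _).trans (hr s hs))
  have h2 : (N 0).rank ≤ (A 0).rank := by
    by_contra hlt
    rw [not_le] at hlt
    have h3 := rank_semicont N hN 0
    have h4 : (Set.univ : Set k) ⊆ {s | (N s).rank < (N 0).rank} ∪ {0} := by
      intro s _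
      by_cases hs : s = 0
      · exact Or.inr hs
      · left
        show (N s).rank < (N 0).rank
        have := h1 s hs
        omega
    exact Set.infinite_univ ((h3.union (Set.finite_singleton 0)).subset h4)
  -- the range of `A 0` is the range of `(A 0, c 0)`
  let B : Matrix n (n ⊕ Unit) k := fromCols (A 0) (Matrix.of fun x _ => c 0 x)
  have hB : B.rank ≤ (A 0).rank := by
    have e : B = fromCols (1 : Matrix n n k) (0 : Matrix n Unit k) * N 0 := by
      rw [fromCols_mul_fromBlocks]
      simp [B]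
    rw [e]
    exact (Matrix.rank_mul_le_right _ _).trans h2
  have hle : LinearMap.range (A 0).mulVecLin ≤ LinearMap.range B.mulVecLin := by
    rintro _ ⟨v, rfl⟩
    refine ⟨Sum.elim v 0, ?_⟩
    rw [Matrix.mulVecLin_apply, Matrix.mulVecLin_apply, fromCols_mulVec]
    simp
  have heq := Submodule.eq_of_le_of_finrank_le hle hB
  have hmem : c 0 ∈ LinearMap.range B.mulVecLin := by
    refine ⟨Sum.elim 0 1, ?_⟩
    rw [Matrix.mulVecLin_apply, fromCols_mulVec]
    ext x
    simp [Matrix.mulVec, dotProduct]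
  rw [← heq] at hmem
  exact hmem

/-- the second order condition: along `A + s B + s² C + s³ D` with rank at most the rank of `A` -/
theorem second_order [Infinite k] {A B C : Matrix n n k} (D : k → Matrix n n k)
    (hD : ∀ x y, IsPoly fun s => D s x y)
    (hr : ∀ s : k, (A + s • B + (s * s) • C + (s * s * s) • D s).rank ≤ A.rank)
    {x y : n → k} (hx : A *ᵥ x = 0) (hy : A *ᵥ y = B *ᵥ x) : ∃ v, A *ᵥ v = C *ᵥ x - B *ᵥ y := by
  have h := lim_range (fun s => A + s • B + (s * s) • C + (s * s * s) • D s)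
    (fun s => C *ᵥ x - B *ᵥ y + s • (D s *ᵥ x - C *ᵥ y) - (s * s) • (D s *ᵥ y)) ?_ ?_ ?_ ?_
  · simpa using h
  · intro i j
    have e : (fun s => (A + s • B + (s * s) • C + (s * s * s) • D s) i j) =
        fun s => A i j + s * B i j + (s * s) * C i j + (s * s * s) * D s i j := by
      funext s
      simp
    rw [e]
    exact (((D7.IsPoly.const _).add (IsPoly.id.mul (D7.IsPoly.const _))).add
      ((IsPoly.id.mul IsPoly.id).mul (D7.IsPoly.const _))).add
        (((IsPoly.id.mul IsPoly.id).mul IsPoly.id).mul (hD i j))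
  · intro i
    have hDv : ∀ v : n → k, IsPoly fun s => (D s *ᵥ v) i := by
      intro v
      have e : (fun s => (D s *ᵥ v) i) = fun s => ∑ j, D s i j * v j := rfl
      rw [e]
      exact isPoly_fsum _ fun j => (hD i j).mul (D7.IsPoly.const _)
    have e : (fun s => (C *ᵥ x - B *ᵥ y + s • (D s *ᵥ x - C *ᵥ y) - (s * s) • (D s *ᵥ y)) i) =
        fun s => (C *ᵥ x - B *ᵥ y) i + s * ((D s *ᵥ x) i - (C *ᵥ y) i) -
          (s * s) * (D s *ᵥ y) i := by
      funext s
      simp
    rw [e]
    exact ((D7.IsPoly.const _).add (IsPoly.id.mul ((hDv x).sub (D7.IsPoly.const _)))).sub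
      ((IsPoly.id.mul IsPoly.id).mul (hDv y))
  · intro s _
    simpa using hr s
  · intro s hs
    refine ⟨(s * s)⁻¹ • (x - s • y), ?_⟩
    have hs2 : s * s ≠ 0 := mul_ne_zero hs hs
    have key : (A + s • B + (s * s) • C + (s * s * s) • D s) *ᵥ (x - s • y) =
        (s * s) • (C *ᵥ x - B *ᵥ y + s • (D s *ᵥ x - C *ᵥ y) - (s * s) • (D s *ᵥ y)) := by
      rw [Matrix.mulVec_sub, Matrix.mulVec_smul]
      simp only [Matrix.add_mulVec, Matrix.smul_mulVec]
      rw [hx, hy]
      module
    show _ *ᵥ ((s * s)⁻¹ • (x - s • y)) = _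
    rw [Matrix.mulVec_smul, key, smul_smul, inv_mul_cancel₀ hs2, one_smul]

end Pool.Agent.Lib.D13
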