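import Pool.Agent.Lib.D13.CertRow

/-!
# MP_5dcbc3_ag: certificates for types of sizes 6 and 7
-/

universe u

namespace Pool.Agent.Lib.D13

variable {k : Type u} [Field k] [IsAlgClosed k] [CharZero k]

/-- the certificate of the type `[3, 2, 1]` -/
def tr321 : Tree.Tr :=
  (.leaf 0 0x34240000000000254c0000002a40200000000002a41800000000000a4562c8b50c8c7000000000006c3a2384300000000000000000000 [(1, 
  18, 9), (18, 42, 19), (5, 8, 27), (10, 36, 33), (2, 16, 37)])

theorem not_bad_t321 (hall : HALL k 6) : ¬ Bad k [3, 2, 1] :=
  Cert.row hall 13 tr321 (by decide +kernel)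

/-- the certificate of the type `[3, 2, 2]` -/
def tr322 : Tree.Tr :=
  (.leaf 0 0x9000000000000000000000000020c001a0010000000000000000000000cb10000000000114080008d00097234010000001c002840e00000000000000000000 [(8, 
  32, 9), (25, 36, 15), (10, 26, 19), (2, 16, 37), (19, 18, 45)])

theorem not_bad_t322 (hall : HALL k 7) : ¬ Bad k [3, 2, 2] :=
  Cert.row hall 19 tr322 (by decide +kernel)

/-- the certificate of the type `[3, 3, 1]` -/
def tr331 : Tree.Tr :=
  (.leaf 0 0x2000010000000000000010000100000000000000000000000000000000000000000000000000000000000000000 [(5, 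
  26, 9), (2, 36, 17), (14, 34, 43)])

theorem not_bad_t331 (hall : HALL k 7) : ¬ Bad k [3, 3, 1] :=
  Cert.row hall 17 tr331 (by decide +kernel)

/-- the certificate of the type `[4, 2, 1]` -/
def tr421 : Tree.Tr :=
  (.leaf 0 0x31c02000000000000000000020000000000038020000000000000000008a000000000000000000020007c000a50000000000000000000200000000000000000000000000000000000 [(2, 
  24, 13), (13, 34, 25), (11, 12, 43), (3, 22, 49), (17, 42, 57)])

theorem not_bad_t421 (hall : HALL k 7) : ¬ Bad k [4, 2, 1] :=
  Cert.row hall 13 tr421 (by decide +kernel)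

end Pool.Agent.Lib.D13
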