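import Pool.Agent.Lib.D13.HAll
import Pool.Agent.Lib.D13.MT6a
import Pool.Agent.Lib.D13.NB3211

/-!
# MP_5dcbc3_ag: all commuting nilpotent triples of matrices of sizes at most 7 are limits of
curvilinear ones
-/

universe u

namespace Pool.Agent.Lib.D13

open Matrix Pool.Agent.Lib.Q5dc Pool.Agent.Lib.D7

variable {k : Type u} [Field k] [IsAlgClosed k] [CharZero k]

theorem step6 (hall : HALL k 6) : HALL k 7 := by
  refine hall.step (by norm_num) fun l hl => ?_
  rw [rest2_eq6] at hl
  simp only [List.mem_cons, List.not_mem_nil, or_false] at hl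
  rcases hl with rfl
  exact not_bad_t321 hall

theorem step7 (hall : HALL k 7) : HALL k 8 := by
  refine hall.step (by norm_num) fun l hl => ?_
  rw [rest2_eq7] at hl
  simp only [List.mem_cons, List.not_mem_nil, or_false] at hl
  rcases hl with rfl | rfl | rfl | rfl
  · exact not_bad_3211
  · exact not_bad_t322 hall
  · exact not_bad_t331 hall
  · exact not_bad_t421 hall

theorem hall8 (k : Type u) [Field k] [IsAlgClosed k] [CharZero k] : HALL k 8 :=
  step7 (step6 (hall6 k))

end Pool.Agent.Lib.D13
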