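import Pool.Agent.Lib.D9.T333X

/-!
# MP_5dcbc3_ag: linear algebra of 3 x 3 matrices

Matrices with a cyclic vector: their commutant, commutators. A matrix without a cyclic vector is the
sum of a scalar matrix and a matrix of rank at most one.
-/

namespace Pool.Agent.Lib.D13.M3

open Matrix Pool.Agent.Lib.D9.T333Aux

variable {k : Type*} [Field k]

/-- the vector product -/
def cr (a b : Fin 3 → k) : Fin 3 → k :=
  ![a 1 * b 2 - a 2 * b 1, a 2 * b 0 - a 0 * b 2, a 0 * b 1 - a 1 * b 0]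

theorem cr_dot (a b y : Fin 3 → k) : cr a b ⬝ᵥ y = D3 y a b := by
  simp only [cr, dotProduct, Fin.sum_univ_three, D3, cons_val_zero, cons_val_one, cons_val]
  ring

theorem D3_cyc (a b c : Fin 3 → k) : D3 a b c = D3 b c a := by
  simp only [D3]
  ring

theorem D3_span (a b c y : Fin 3 → k) :
    D3 a b c • y = D3 y b c • a + D3 a y c • b + D3 a b y • c := by
  funext i
  fin_cases i <;> simp [D3] <;> ring

theorem span3 {a b c : Fin 3 → k} (h : D3 a b c ≠ 0) (y : Fin 3 → k) :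
    ∃ p q r : k, y = p • a + q • b + r • c := by
  refine ⟨(D3 a b c)⁻¹ * D3 y b c, (D3 a b c)⁻¹ * D3 a y c, (D3 a b c)⁻¹ * D3 a b y, ?_⟩
  rw [mul_smul, mul_smul, mul_smul, ← smul_add, ← smul_add, ← D3_span, inv_smul_smul₀ h]

theorem eq_of_basis {a b c : Fin 3 → k} (h : D3 a b c ≠ 0) {E F : Matrix (Fin 3) (Fin 3) k}
    (ha : E *ᵥ a = F *ᵥ a) (hb : E *ᵥ b = F *ᵥ b) (hc : E *ᵥ c = F *ᵥ c) : E = F := by
  refine Matrix.ext_iff_mulVec.2 fun y => ?_
  obtain ⟨p, q, r, rfl⟩ := span3 h y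
  simp only [mulVec_add, mulVec_smul, ha, hb, hc]

theorem cyc_comm {X N : Matrix (Fin 3) (Fin 3) k} {v : Fin 3 → k} (hv : Cyc X v)
    (h : N * X = X * N) : ∃ p q r : k, N = p • 1 + q • X + r • (X * X) := by
  obtain ⟨p, q, r, hpqr⟩ := span3 hv (N *ᵥ v)
  refine ⟨p, q, r, ?_⟩
  have hcom : ∀ y, N *ᵥ (X *ᵥ y) = X *ᵥ (N *ᵥ y) := fun y => by
    rw [mulVec_mulVec, mulVec_mulVec, h]
  have hv0 : N *ᵥ v = (p • 1 + q • X + r • (X * X)) *ᵥ v := by
    rw [hpqr]
    simp only [add_mulVec, smul_mulVec, one_mulVec, mulVec_mulVec]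
  have hcom' : ∀ y, (p • 1 + q • X + r • (X * X)) *ᵥ (X *ᵥ y) =
      X *ᵥ ((p • 1 + q • X + r • (X * X)) *ᵥ y) := fun y => by
    rw [mulVec_mulVec, mulVec_mulVec]
    congr 1
    simp only [Matrix.mul_add, Matrix.add_mul, mul_smul_comm, smul_mul_assoc, mul_one, one_mul,
      Matrix.mul_assoc]
  exact eq_of_basis hv hv0 (by rw [hcom, hcom', hv0]) (by rw [hcom, hcom, hcom', hcom', hv0])

theorem trace_D3 (Z : Matrix (Fin 3) (Fin 3) k) (a b c : Fin 3 → k) :
    Z.trace * D3 a b c = D3 (Z *ᵥ a) b c + D3 a (Z *ᵥ b) c + D3 a b (Z *ᵥ c) := by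
  simp only [trace_fin_three, D3, mulVec, dotProduct, Fin.sum_univ_three]
  ring

theorem D3_lin (a b c d : Fin 3 → k) (p q r : k) :
    D3 a b (p • c + q • d + r • a) = p * D3 a b c + q * D3 a b d := by
  simp only [D3, Pi.add_apply, Pi.smul_apply, smul_eq_mul]
  ring

theorem D3_self (a b : Fin 3 → k) : D3 a b b = 0 := by
  simp only [D3]
  ring

/-- a matrix which kills `v` and `η v` and is orthogonal to `1, η, η ^ 2` for the trace form -/
theorem eq_zero_of_trace {η E : Matrix (Fin 3) (Fin 3) k} {v : Fin 3 → k} (hv : Cyc η v)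
    (h0 : E *ᵥ v = 0) (h1 : E *ᵥ (η *ᵥ v) = 0) (t0 : E.trace = 0) (t1 : (η * E).trace = 0)
    (t2 : (η * η * E).trace = 0) : E = 0 := by
  have g : ∀ Z : Matrix (Fin 3) (Fin 3) k, (Z * E).trace = 0 →
      D3 v (η *ᵥ v) (Z *ᵥ (E *ᵥ (η *ᵥ (η *ᵥ v)))) = 0 := by
    intro Z hZ
    have h2 := trace_D3 (Z * E) v (η *ᵥ v) (η *ᵥ (η *ᵥ v))
    rw [hZ, zero_mul, ← mulVec_mulVec, ← mulVec_mulVec, ← mulVec_mulVec, h0, h1,
      mulVec_zero] at h2
    have e1 : D3 0 (η *ᵥ v) (η *ᵥ (η *ᵥ v)) = 0 := by simp [D3]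
    have e2 : D3 v 0 (η *ᵥ (η *ᵥ v)) = 0 := by simp [D3]
    rw [e1, e2, zero_add, zero_add] at h2
    exact h2.symm
  obtain ⟨p, q, r, he⟩ := span3 hv (E *ᵥ (η *ᵥ (η *ᵥ v)))
  have hv' : D3 v (η *ᵥ v) (η *ᵥ (η *ᵥ v)) ≠ 0 := hv
  have g0 := g 1 (by rw [one_mul]; exact t0)
  rw [one_mulVec, he] at g0
  have r0 : r = 0 := by
    have e : D3 v (η *ᵥ v) (p • v + q • η *ᵥ v + r • η *ᵥ (η *ᵥ v)) =
        r * D3 v (η *ᵥ v) (η *ᵥ (η *ᵥ v)) := by
      simp only [D3, Pi.add_apply, Pi.smul_apply, smul_eq_mul]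
      ring
    rw [e] at g0
    exact (mul_eq_zero.1 g0).resolve_right hv'
  rw [r0, zero_smul, add_zero] at he
  have g1 := g η t1
  rw [he, mulVec_add, mulVec_smul, mulVec_smul] at g1
  have q0 : q = 0 := by
    have e : D3 v (η *ᵥ v) (p • η *ᵥ v + q • η *ᵥ (η *ᵥ v)) =
        q * D3 v (η *ᵥ v) (η *ᵥ (η *ᵥ v)) := by
      simp only [D3, Pi.add_apply, Pi.smul_apply, smul_eq_mul]
      ring
    rw [e] at g1
    exact (mul_eq_zero.1 g1).resolve_right hv'
  rw [q0, zero_smul, add_zero] at he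
  have g2 := g (η * η) t2
  rw [he, mulVec_smul, ← mulVec_mulVec] at g2
  have p0 : p = 0 := by
    have e : D3 v (η *ᵥ v) (p • η *ᵥ (η *ᵥ v)) = p * D3 v (η *ᵥ v) (η *ᵥ (η *ᵥ v)) := by
      simp only [D3, Pi.smul_apply, smul_eq_mul]
      ring
    rw [e] at g2
    exact (mul_eq_zero.1 g2).resolve_right hv'
  rw [p0, zero_smul] at he
  exact eq_of_basis hv (by rw [h0, zero_mulVec]) (by rw [h1, zero_mulVec])
    (by rw [he, zero_mulVec])

/-- the matrix with `a ↦ c0, b ↦ c1, c ↦ c2`, times the determinant -/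
def kry (a b c c0 c1 c2 : Fin 3 → k) : Matrix (Fin 3) (Fin 3) k :=
  vecMulVec c0 (cr b c) + vecMulVec c1 (cr c a) + vecMulVec c2 (cr a b)

theorem kry_mulVec (a b c c0 c1 c2 y : Fin 3 → k) :
    kry a b c c0 c1 c2 *ᵥ y = D3 y b c • c0 + D3 a y c • c1 + D3 a b y • c2 := by
  have e : ∀ x z : Fin 3 → k, vecMulVec x z *ᵥ y = (z ⬝ᵥ y) • x := by
    intro x z
    rw [vecMulVec_mulVec]
    ext i
    simp [mul_comm]
  rw [kry, add_mulVec, add_mulVec, e, e, e, cr_dot, cr_dot, cr_dot, D3_cyc a y c, D3_cyc y a b]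

theorem kry_a (a b c c0 c1 c2 : Fin 3 → k) : kry a b c c0 c1 c2 *ᵥ a = D3 a b c • c0 := by
  rw [kry_mulVec]
  have e1 : D3 a a c = 0 := by simp only [D3]; ring
  have e2 : D3 a b a = 0 := by simp only [D3]; ring
  rw [e1, e2, zero_smul, zero_smul, add_zero, add_zero]

theorem kry_b (a b c c0 c1 c2 : Fin 3 → k) : kry a b c c0 c1 c2 *ᵥ b = D3 a b c • c1 := by
  rw [kry_mulVec]
  have e1 : D3 b b c = 0 := by simp only [D3]; ring
  have e2 : D3 a b b = 0 := by simp only [D3]; ring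
  rw [e1, e2, zero_smul, zero_smul, zero_add, add_zero]

theorem kry_c (a b c c0 c1 c2 : Fin 3 → k) : kry a b c c0 c1 c2 *ᵥ c = D3 a b c • c2 := by
  rw [kry_mulVec]
  have e1 : D3 c b c = 0 := by simp only [D3]; ring
  have e2 : D3 a c c = 0 := by simp only [D3]; ring
  rw [e1, e2, zero_smul, zero_smul, zero_add, zero_add]

/-- the solution of `η D - D η = K`, `D v = c0`, times the determinant -/
def sol (η K : Matrix (Fin 3) (Fin 3) k) (v c0 : Fin 3 → k) : Matrix (Fin 3) (Fin 3) k :=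
  kry v (η *ᵥ v) (η *ᵥ (η *ᵥ v)) c0 (η *ᵥ c0 - K *ᵥ v)
    (η *ᵥ (η *ᵥ c0 - K *ᵥ v) - K *ᵥ (η *ᵥ v))

theorem sol_spec {η K : Matrix (Fin 3) (Fin 3) k} {v : Fin 3 → k} (hv : Cyc η v)
    (c0 : Fin 3 → k) (t0 : K.trace = 0) (t1 : (K * η).trace = 0) (t2 : (K * (η * η)).trace = 0) :
    η * sol η K v c0 - sol η K v c0 * η = D3 v (η *ᵥ v) (η *ᵥ (η *ᵥ v)) • K := by
  set d := D3 v (η *ᵥ v) (η *ᵥ (η *ᵥ v)) with hd
  have s0 : sol η K v c0 *ᵥ v = d • c0 := kry_a _ _ _ _ _ _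
  have s1 : sol η K v c0 *ᵥ (η *ᵥ v) = d • (η *ᵥ c0 - K *ᵥ v) := kry_b _ _ _ _ _ _
  have s2 : sol η K v c0 *ᵥ (η *ᵥ (η *ᵥ v)) =
      d • (η *ᵥ (η *ᵥ c0 - K *ᵥ v) - K *ᵥ (η *ᵥ v)) := kry_c _ _ _ _ _ _
  have key : η * sol η K v c0 - sol η K v c0 * η - d • K = 0 := by
    refine eq_zero_of_trace hv ?_ ?_ ?_ ?_ ?_
    · rw [sub_mulVec, sub_mulVec, ← mulVec_mulVec, ← mulVec_mulVec, s0, s1, smul_mulVec,
        mulVec_smul]
      module
    · rw [sub_mulVec, sub_mulVec, ← mulVec_mulVec, ← mulVec_mulVec, s1, s2, smul_mulVec,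
        mulVec_smul]
      module
    · rw [trace_sub, trace_sub, trace_mul_comm, sub_self, trace_smul, t0, smul_zero, sub_zero]
    · rw [Matrix.mul_sub, Matrix.mul_sub, trace_sub, trace_sub, Matrix.mul_smul, trace_smul,
        trace_mul_comm η K, t1, smul_zero, sub_zero, sub_eq_zero, ← Matrix.mul_assoc η _ η,
        trace_mul_comm (η * sol η K v c0) η]
    · rw [Matrix.mul_sub, Matrix.mul_sub, trace_sub, trace_sub, Matrix.mul_smul, trace_smul,
        trace_mul_comm (η * η) K, t2, smul_zero, sub_zero, sub_eq_zero]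
      rw [← Matrix.mul_assoc, ← Matrix.mul_assoc, trace_mul_comm (η * η * sol η K v c0) η]
      simp only [Matrix.mul_assoc]
  exact sub_eq_zero.1 key

theorem sol_self {η D : Matrix (Fin 3) (Fin 3) k} {v : Fin 3 → k} (hv : Cyc η v) :
    sol η (η * D - D * η) v (D *ᵥ v) = D3 v (η *ᵥ v) (η *ᵥ (η *ᵥ v)) • D := by
  have c1 : η *ᵥ (D *ᵥ v) - (η * D - D * η) *ᵥ v = D *ᵥ (η *ᵥ v) := by
    rw [sub_mulVec, mulVec_mulVec, mulVec_mulVec]
    abel
  have c2 : η *ᵥ (D *ᵥ (η *ᵥ v)) - (η * D - D * η) *ᵥ (η *ᵥ v) = D *ᵥ (η *ᵥ (η *ᵥ v)) := by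
    rw [sub_mulVec, ← mulVec_mulVec, ← mulVec_mulVec]
    abel
  refine eq_of_basis hv ?_ ?_ ?_
  · rw [sol, kry_a, smul_mulVec]
  · rw [sol, kry_b, c1, smul_mulVec]
  · rw [sol, kry_c, c1, c2, smul_mulVec]

/-! ### matrices without a cyclic vector -/

/-- scalar plus rank at most one -/
def SR (N : Matrix (Fin 3) (Fin 3) k) : Prop :=
  ∃ (l : k) (x y : Fin 3 → k), N = l • 1 + vecMulVec x y

theorem SR.conj {N g g' : Matrix (Fin 3) (Fin 3) k} (h : g * g' = 1) (hN : SR (g * N * g')) :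
    SR N := by
  have h' : g' * g = 1 := mul_eq_one_comm.1 h
  obtain ⟨l, x, y, e⟩ := hN
  refine ⟨l, g' *ᵥ x, y ᵥ* g, ?_⟩
  have e2 : N = g' * (g * N * g') * g := by
    calc N = (g' * g) * N * (g' * g) := by rw [h', one_mul, mul_one]
      _ = g' * (g * N * g') * g := by simp only [Matrix.mul_assoc]
  rw [e2, e, Matrix.mul_add, Matrix.add_mul, Matrix.mul_smul, Matrix.smul_mul, Matrix.mul_one, h',
    Matrix.mul_vecMulVec, Matrix.vecMulVec_mul]

theorem SR.add {N : Matrix (Fin 3) (Fin 3) k} (l : k) (hN : SR (N - l • 1)) : SR N := by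
  obtain ⟨m, x, y, e⟩ := hN
  refine ⟨m + l, x, y, ?_⟩
  rw [add_smul, add_right_comm, ← e, sub_add_cancel]

theorem sr_row (r1 r2 a b c d : k)
    (hN : ∀ v, ¬ Cyc (!![0, 0, 0; r1, a, b; r2, c, d] : Matrix (Fin 3) (Fin 3) k) v) :
    SR (!![0, 0, 0; r1, a, b; r2, c, d] : Matrix (Fin 3) (Fin 3) k) := by
  have key : ∀ v1 v2 : k, D3 ![1, v1, v2] (!![0, 0, 0; r1, a, b; r2, c, d] *ᵥ ![1, v1, v2])
      (!![0, 0, 0; r1, a, b; r2, c, d] *ᵥ
        (!![0, 0, 0; r1, a, b; r2, c, d] *ᵥ ![1, v1, v2])) =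
      c * (r1 + a * v1 + b * v2) ^ 2 + (d - a) * (r1 + a * v1 + b * v2) *
        (r2 + c * v1 + d * v2) - b * (r2 + c * v1 + d * v2) ^ 2 := by
    intro v1 v2
    simp [D3, Matrix.mulVec, dotProduct, Fin.sum_univ_three]
    ring
  have hq : ∀ v1 v2 : k, c * (r1 + a * v1 + b * v2) ^ 2 + (d - a) * (r1 + a * v1 + b * v2) *
        (r2 + c * v1 + d * v2) - b * (r2 + c * v1 + d * v2) ^ 2 = 0 := by
    intro v1 v2
    by_contra h
    refine hN ![1, v1, v2] ?_
    unfold Cyc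
    rw [key]
    exact h
  by_cases hs : b = 0 ∧ c = 0 ∧ a = d
  · obtain ⟨rfl, rfl, rfl⟩ := hs
    refine ⟨a, ![-a, r1, r2], ![1, 0, 0], ?_⟩
    ext i j
    fin_cases i <;> fin_cases j <;> simp
  by_cases hd : a * d - b * c = 0
  · have q0 := hq 0 0
    have q1 := hq 1 0
    have q2 := hq 0 1
    simp only [mul_zero, add_zero, mul_one] at q0 q1 q2
    have hA' : (r1 * c - r2 * a) * (a + d) = 0 := by
      linear_combination q1 - q0 - (2 * r2 + c) * hd
    have hB' : (r1 * d - r2 * b) * (a + d) = 0 := by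
      linear_combination q2 - q0 + (2 * r1 + b) * hd
    have hA : r1 * c - r2 * a = 0 := by
      have h : (r1 * c - r2 * a) * (r1 * c - r2 * a) = 0 := by
        linear_combination c * q0 - r2 * hA' - r2 ^ 2 * hd
      exact mul_self_eq_zero.1 h
    have hB : r1 * d - r2 * b = 0 := by
      have h : (r1 * d - r2 * b) * (r1 * d - r2 * b) = 0 := by
        linear_combination r1 * hB' - r1 ^ 2 * hd - b * q0
      exact mul_self_eq_zero.1 h
    have fin : ∀ x y : Fin 3 → k, (!![0, 0, 0; r1, a, b; r2, c, d] : Matrix (Fin 3) (Fin 3) k) =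
        vecMulVec x y → SR (!![0, 0, 0; r1, a, b; r2, c, d] : Matrix (Fin 3) (Fin 3) k) := by
      intro x y h
      exact ⟨0, x, y, by rw [zero_smul, zero_add]; exact h⟩
    by_cases ha : a = 0
    · by_cases hb : b = 0
      · by_cases hr : r1 = 0
        · refine fin ![0, 0, 1] ![r2, c, d] ?_
          ext i j
          fin_cases i <;> fin_cases j <;> simp [vecMulVec_apply, ha, hb, hr]
        · refine fin ![0, 1, r2 / r1] ![r1, a, b] ?_
          have e1 : r2 / r1 * r1 = r2 := div_mul_cancel₀ _ hr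
          have e2 : r2 / r1 * a = c := by
            rw [div_mul_eq_mul_div, div_eq_iff hr]
            linear_combination -hA
          have e3 : r2 / r1 * b = d := by
            rw [div_mul_eq_mul_div, div_eq_iff hr]
            linear_combination -hB
          ext i j
          fin_cases i <;> fin_cases j <;> simp [vecMulVec_apply, e1, e2, e3]
      · refine fin ![0, 1, d / b] ![r1, a, b] ?_
        have e1 : d / b * r1 = r2 := by
          rw [div_mul_eq_mul_div, div_eq_iff hb]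
          linear_combination hB
        have e2 : d / b * a = c := by
          rw [div_mul_eq_mul_div, div_eq_iff hb]
          linear_combination hd
        have e3 : d / b * b = d := div_mul_cancel₀ _ hb
        ext i j
        fin_cases i <;> fin_cases j <;> simp [vecMulVec_apply, e1, e2, e3]
    · refine fin ![0, 1, c / a] ![r1, a, b] ?_
      have e1 : c / a * r1 = r2 := by
        rw [div_mul_eq_mul_div, div_eq_iff ha]
        linear_combination hA
      have e2 : c / a * a = c := div_mul_cancel₀ _ ha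
      have e3 : c / a * b = d := by
        rw [div_mul_eq_mul_div, div_eq_iff ha]
        linear_combination -hd
      ext i j
      fin_cases i <;> fin_cases j <;> simp [vecMulVec_apply, e1, e2, e3]
  · -- the lower block is invertible and not scalar
    exfalso
    have hz : ∃ z1 z2 : k, c * z1 ^ 2 + (d - a) * z1 * z2 - b * z2 ^ 2 ≠ 0 := by
      by_contra h
      push Not at h
      have h1 := h 1 0
      have h2 := h 0 1
      have h3 := h 1 1
      simp at h1 h2 h3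
      refine hs ⟨h2, h1, ?_⟩
      rw [h1, h2] at h3
      linear_combination -h3
    obtain ⟨z1, z2, hz⟩ := hz
    refine hz ?_
    have h9 := hq ((d * (z1 - r1) - b * (z2 - r2)) / (a * d - b * c))
      ((a * (z2 - r2) - c * (z1 - r1)) / (a * d - b * c))
    have e1 : r1 + a * ((d * (z1 - r1) - b * (z2 - r2)) / (a * d - b * c)) +
        b * ((a * (z2 - r2) - c * (z1 - r1)) / (a * d - b * c)) = z1 := by
      have e : r1 + a * ((d * (z1 - r1) - b * (z2 - r2)) / (a * d - b * c)) +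
        b * ((a * (z2 - r2) - c * (z1 - r1)) / (a * d - b * c)) =
          r1 + (a * d - b * c) * (z1 - r1) / (a * d - b * c) := by ring
      rw [e, mul_div_cancel_left₀ _ hd]
      ring
    have e2 : r2 + c * ((d * (z1 - r1) - b * (z2 - r2)) / (a * d - b * c)) +
        d * ((a * (z2 - r2) - c * (z1 - r1)) / (a * d - b * c)) = z2 := by
      have e : r2 + c * ((d * (z1 - r1) - b * (z2 - r2)) / (a * d - b * c)) +
        d * ((a * (z2 - r2) - c * (z1 - r1)) / (a * d - b * c)) =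
          r2 + (a * d - b * c) * (z2 - r2) / (a * d - b * c) := by ring
      rw [e, mul_div_cancel_left₀ _ hd]
      ring
    rw [e1, e2] at h9
    exact h9

theorem cyc_conj {N g g' : Matrix (Fin 3) (Fin 3) k} (h : g * g' = 1) {v : Fin 3 → k}
    (hv : Cyc (g * N * g') v) : Cyc N (g' *ᵥ v) := by
  have h' : g' * g = 1 := mul_eq_one_comm.1 h
  have e1 : ∀ w : Fin 3 → k, N *ᵥ (g' *ᵥ w) = g' *ᵥ ((g * N * g') *ᵥ w) := by
    intro w
    rw [Matrix.mulVec_mulVec, Matrix.mulVec_mulVec]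
    congr 1
    calc N * g' = (g' * g) * N * g' := by rw [h', one_mul]
      _ = g' * (g * N * g') := by simp only [Matrix.mul_assoc]
  unfold Cyc
  rw [e1, e1, D3_mulVec]
  refine mul_ne_zero ?_ hv
  intro h0
  have h1 := congrArg Matrix.det h
  rw [Matrix.det_mul, h0, mul_zero, Matrix.det_one] at h1
  exact zero_ne_one h1

theorem cyc_shift {N : Matrix (Fin 3) (Fin 3) k} {v : Fin 3 → k} (l : k)
    (hv : Cyc (N - l • 1) v) : Cyc N v := by
  unfold Cyc at hv ⊢
  have e : D3 v ((N - l • 1) *ᵥ v) ((N - l • 1) *ᵥ ((N - l • 1) *ᵥ v)) =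
      D3 v (N *ᵥ v) (N *ᵥ (N *ᵥ v)) := by
    simp only [sub_mulVec, mulVec_sub, smul_mulVec, mulVec_smul, one_mulVec, D3, Pi.sub_apply,
      Pi.smul_apply, smul_eq_mul]
    ring
  rwa [e] at hv

/-- a matrix without a cyclic vector is scalar plus rank at most one -/
theorem sr_all [IsAlgClosed k] {N : Matrix (Fin 3) (Fin 3) k} (hN : ∀ v, ¬ Cyc N v) : SR N := by
  obtain ⟨l, hl⟩ : ∃ l : k, (N - l • (1 : Matrix (Fin 3) (Fin 3) k)).det = 0 := by
    obtain ⟨l, hl⟩ := IsAlgClosed.exists_root N.charpoly (by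
      rw [Matrix.charpoly_degree_eq_dim]
      simp)
    refine ⟨l, ?_⟩
    rw [Polynomial.IsRoot.def, Matrix.eval_charpoly] at hl
    have e : N - l • (1 : Matrix (Fin 3) (Fin 3) k) = -(Matrix.scalar (Fin 3) l - N) := by
      rw [neg_sub]
      congr 1
      ext i j
      fin_cases i <;> fin_cases j <;> simp
    rw [e, Matrix.det_neg, hl, mul_zero]
  refine SR.add l ?_
  obtain ⟨y, hy, hy'⟩ := Matrix.exists_vecMul_eq_zero_iff.2 hl
  obtain ⟨g, g', hg, hr⟩ := exists_row hy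
  refine SR.conj hg ?_
  have h0 : ∀ j, (g * (N - l • 1) * g') 0 j = 0 := by
    intro j
    rw [mul_assoc, Matrix.mul_apply]
    have e : ∑ i, g 0 i * ((N - l • 1) * g') i j = (y ᵥ* ((N - l • 1) * g')) j := by
      simp [Matrix.vecMul, dotProduct, hr]
    rw [e, ← Matrix.vecMul_vecMul, hy', Matrix.zero_vecMul]
    rfl
  have e : g * (N - l • 1) * g' = !![0, 0, 0;
      (g * (N - l • 1) * g') 1 0, (g * (N - l • 1) * g') 1 1, (g * (N - l • 1) * g') 1 2;
      (g * (N - l • 1) * g') 2 0, (g * (N - l • 1) * g') 2 1, (g * (N - l • 1) * g') 2 2] := by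
    ext i j
    fin_cases i
    · rw [show ((⟨0, by decide⟩ : Fin 3)) = 0 from rfl, h0]
      fin_cases j <;> rfl
    · fin_cases j <;> rfl
    · fin_cases j <;> rfl
  have hc : ∀ v, ¬ Cyc (g * (N - l • 1) * g') v := fun v hv => hN _ (cyc_shift l (cyc_conj hg hv))
  rw [e] at hc ⊢
  exact sr_row _ _ _ _ _ _ hc

end Pool.Agent.Lib.D13.M3
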