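import Pool.Agent.Lib.D13.Psi

/-!
# MP_5dcbc3_ag: type `(5, 4, 2, 1)`: matrices

Basis `v0, u0, w0, v1, u1, p, w1, v2, u2, v3, u3, v4` (`Fin 12`), `J : v0 → v1 → v2 → v3 → v4`,
`u0 → u1 → u2 → u3`, `w0 → w1`. `X P` commutes with `J`:
`X v0 = al0 u0 + al1 u1 + al2 u2 + al3 u3 + g0 w0 + g1 w1 + pi p`,
`X u0 = be0 v1 + be1 v2 + be2 v3 + be3 v4 + q1 u1 + q2 u2 + q3 u3 + e0 w0 + e1 w1 + ph p`,
`X w0 = c0 v3 + c1 v4 + f0 u2 + f1 u3 + z w1 + rho p`, `X p = th v4 + eta u3 + zeta w1`.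
-/

set_option autoImplicit false

namespace Pool.Agent.Lib.D13.T5421

open Matrix Pool.Agent.Lib.Q5dc Pool.Agent.Lib.D7

/-- the parameters -/
structure Par (k : Type*) where
  (al0 al1 al2 al3 g0 g1 pi be0 be1 be2 be3 q1 q2 q3 e0 e1 ph c0 c1 f0 f1 z rho th eta zeta : k)

variable {k : Type*} [Field k]

/-- the Jordan matrix of type `(5, 4, 2, 1)` -/
def J (k : Type*) [Field k] : Matrix (Fin 12) (Fin 12) k :=
  !![0, 0, 0, 0, 0, 0, 0, 0, 0, 0, 0, 0;
     0, 0, 0, 0, 0, 0, 0, 0, 0, 0, 0, 0;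
     0, 0, 0, 0, 0, 0, 0, 0, 0, 0, 0, 0;
     1, 0, 0, 0, 0, 0, 0, 0, 0, 0, 0, 0;
     0, 1, 0, 0, 0, 0, 0, 0, 0, 0, 0, 0;
     0, 0, 0, 0, 0, 0, 0, 0, 0, 0, 0, 0;
     0, 0, 1, 0, 0, 0, 0, 0, 0, 0, 0, 0;
     0, 0, 0, 1, 0, 0, 0, 0, 0, 0, 0, 0;
     0, 0, 0, 0, 1, 0, 0, 0, 0, 0, 0, 0;
     0, 0, 0, 0, 0, 0, 0, 1, 0, 0, 0, 0;
     0, 0, 0, 0, 0, 0, 0, 0, 1, 0, 0, 0;
     0, 0, 0, 0, 0, 0, 0, 0, 0, 1, 0, 0]

/-- the matrices commuting with `J` -/
def X (P : Par k) : Matrix (Fin 12) (Fin 12) k :=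
  !![0, 0, 0, 0, 0, 0, 0, 0, 0, 0, 0, 0;
     P.al0, 0, 0, 0, 0, 0, 0, 0, 0, 0, 0, 0;
     P.g0, P.e0, 0, 0, 0, 0, 0, 0, 0, 0, 0, 0;
     0, P.be0, 0, 0, 0, 0, 0, 0, 0, 0, 0, 0;
     P.al1, P.q1, 0, P.al0, 0, 0, 0, 0, 0, 0, 0, 0;
     P.pi, P.ph, P.rho, 0, 0, 0, 0, 0, 0, 0, 0, 0;
     P.g1, P.e1, P.z, P.g0, P.e0, P.zeta, 0, 0, 0, 0, 0, 0;
     0, P.be1, 0, 0, P.be0, 0, 0, 0, 0, 0, 0, 0;
     P.al2, P.q2, P.f0, P.al1, P.q1, 0, 0, P.al0, 0, 0, 0, 0;
     0, P.be2, P.c0, 0, P.be1, 0, 0, 0, P.be0, 0, 0, 0;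
     P.al3, P.q3, P.f1, P.al2, P.q2, P.eta, P.f0, P.al1, P.q1, P.al0, 0, 0;
     0, P.be3, P.c1, 0, P.be2, P.th, P.c0, 0, P.be1, 0, P.be0, 0]

/-- `J` on vectors -/
def actJ (m : Fin 12 → k) : Fin 12 → k :=
  ![0, 0, 0, m 0, m 1, 0, m 2, m 3, m 4, m 7, m 8, m 9]

/-- `X P` on vectors -/
def act (P : Par k) (m : Fin 12 → k) : Fin 12 → k :=
    ![0, P.al0 * m 0, P.g0 * m 0 + P.e0 * m 1, P.be0 * m 1, P.al1 * m 0 + P.q1 * m 1 + P.al0 * m 3,
    P.pi * m 0 + P.ph * m 1 + P.rho * m 2, P.g1 * m 0 + P.e1 * m 1 + P.z * m 2 + P.g0 * m 3 + P.e0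
    * m 4 + P.zeta * m 5, P.be1 * m 1 + P.be0 * m 4, P.al2 * m 0 + P.q2 * m 1 + P.f0 * m 2 + P.al1
    * m 3 + P.q1 * m 4 + P.al0 * m 7, P.be2 * m 1 + P.c0 * m 2 + P.be1 * m 4 + P.be0 * m 8, P.al3 *
    m 0 + P.q3 * m 1 + P.f1 * m 2 + P.al2 * m 3 + P.q2 * m 4 + P.eta * m 5 + P.f0 * m 6 + P.al1 * m
    7 + P.q1 * m 8 + P.al0 * m 9, P.be3 * m 1 + P.c1 * m 2 + P.be2 * m 4 + P.th * m 5 + P.c0 * m 6
    + P.be1 * m 8 + P.be0 * m 10]

theorem J_mulVec (m : Fin 12 → k) : J k *ᵥ m = actJ m := by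
  funext i
  fin_cases i <;> simp [J, actJ, Matrix.mulVec, dotProduct, Fin.sum_univ_succ]

theorem X_mulVec (P : Par k) (m : Fin 12 → k) : X P *ᵥ m = act P m := by
  funext i
  fin_cases i <;> simp [X, act, Matrix.mulVec, dotProduct, Fin.sum_univ_succ] <;> ring

theorem ext_mulVec {n : Type*} [Fintype n] [DecidableEq n] {A B : Matrix n n k}
    (h : ∀ m, A *ᵥ m = B *ᵥ m) : A = B := by
  ext i j
  have := congrFun (h (Pi.single j 1)) i
  simpa using this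

/-- `C s B t - B s C t` -/
def Br (P P' : Par k) (s t : Par k → k) : k := s P' * t P - s P * t P'

/-- the relations -/
structure Rel (P P' : Par k) : Prop where
  r1 : Br P P' Par.al0 Par.e0 = 0
  r2 : Br P P' Par.al0 Par.be0 = 0
  r3 : Br P P' Par.al0 Par.q1 = 0
  r4 : Br P P' Par.al0 Par.ph + Br P P' Par.g0 Par.rho = 0
  r5 : Br P P' Par.al0 Par.e1 + Br P P' Par.al1 Par.e0 + Br P P' Par.g0 Par.z + Br P P' Par.pi
    Par.zeta = 0
  r6 : Br P P' Par.al0 Par.be1 + Br P P' Par.al1 Par.be0 = 0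
  r7 : Br P P' Par.al0 Par.q2 + Br P P' Par.al1 Par.q1 + Br P P' Par.g0 Par.f0 = 0
  r8 : Br P P' Par.al0 Par.be2 + Br P P' Par.al1 Par.be1 + Br P P' Par.al2 Par.be0 + Br P P' Par.g0
    Par.c0 = 0
  r9 : Br P P' Par.al0 Par.q3 + Br P P' Par.al1 Par.q2 + Br P P' Par.al2 Par.q1 + Br P P' Par.g0
    Par.f1 + Br P P' Par.g1 Par.f0 + Br P P' Par.pi Par.eta = 0
  r10 : Br P P' Par.al0 Par.be3 + Br P P' Par.al1 Par.be2 + Br P P' Par.al2 Par.be1 + Br P P'
    Par.al3 Par.be0 + Br P P' Par.g0 Par.c1 + Br P P' Par.g1 Par.c0 + Br P P' Par.pi Par.th = 0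
  r11 : Br P P' Par.e0 Par.rho = 0
  r12 : Br P P' Par.be0 Par.g0 + Br P P' Par.q1 Par.e0 + Br P P' Par.e0 Par.z + Br P P' Par.ph
    Par.zeta = 0
  r13 : Br P P' Par.q1 Par.be0 = 0
  r14 : Br P P' Par.be0 Par.al1 + Br P P' Par.be1 Par.al0 + Br P P' Par.e0 Par.f0 = 0
  r15 : Br P P' Par.q1 Par.be1 + Br P P' Par.q2 Par.be0 + Br P P' Par.e0 Par.c0 = 0
  r16 : Br P P' Par.be0 Par.al2 + Br P P' Par.be1 Par.al1 + Br P P' Par.be2 Par.al0 + Br P P'
    Par.e0 Par.f1 + Br P P' Par.e1 Par.f0 + Br P P' Par.ph Par.eta = 0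
  r17 : Br P P' Par.q1 Par.be2 + Br P P' Par.q2 Par.be1 + Br P P' Par.q3 Par.be0 + Br P P' Par.e0
    Par.c1 + Br P P' Par.e1 Par.c0 + Br P P' Par.ph Par.th = 0
  r18 : Br P P' Par.rho Par.zeta = 0
  r19 : Br P P' Par.f0 Par.be0 = 0
  r20 : Br P P' Par.c0 Par.al0 + Br P P' Par.f0 Par.q1 + Br P P' Par.z Par.f0 + Br P P' Par.rho
    Par.eta = 0
  r21 : Br P P' Par.f0 Par.be1 + Br P P' Par.f1 Par.be0 + Br P P' Par.z Par.c0 + Br P P' Par.rho
    Par.th = 0
  r22 : Br P P' Par.zeta Par.f0 = 0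
  r23 : Br P P' Par.eta Par.be0 + Br P P' Par.zeta Par.c0 = 0

theorem act_comm {P P' : Par k} (h : Rel P P') (m : Fin 12 → k) :
    act P (act P' m) = act P' (act P m) := by
  obtain ⟨r1, r2, r3, r4, r5, r6, r7, r8, r9, r10, r11, r12, r13, r14, r15, r16, r17, r18, r19, r20, r21, r22, r23⟩ := h
  simp only [Br] at *
  funext i
  fin_cases i <;> simp only [act, Matrix.cons_val] <;> simp
  · linear_combination m 0 * r1
  · linear_combination m 0 * r2
  · linear_combination m 0 * r3 - m 1 * r2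
  · linear_combination m 0 * r4 + m 1 * r11
  · linear_combination m 0 * r5 + m 1 * r12 + m 2 * r18 + m 3 * r1
  · linear_combination m 0 * r6 + m 1 * r13 + m 3 * r2
  · linear_combination m 0 * r7 + m 1 * r14 + m 3 * r3 - m 4 * r2
  · linear_combination m 0 * r8 + m 1 * r15 + m 2 * r19 + m 3 * r6 + m 4 * r13 + m 7 * r2
  · linear_combination m 0 * r9 + m 1 * r16 + m 2 * r20 + m 3 * r7 + m 4 * r14 + m 5 * r22 + m 7 *
    r3 - m 8 * r2
  · linear_combination m 0 * r10 + m 1 * r17 + m 2 * r21 + m 3 * r8 + m 4 * r15 + m 5 * r23 + m 6 *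
    r19 + m 7 * r6 + m 8 * r13 + m 9 * r2

theorem rel_of_act {P P' : Par k} (h : ∀ m, act P (act P' m) = act P' (act P m)) : Rel P P' := by
  have H : ∀ (m : Fin 12 → k) (i : Fin 12), act P (act P' m) i = act P' (act P m) i :=
    fun m i => congrFun (h m) i
  have ha := H ![1, 0, 0, 0, 0, 0, 0, 0, 0, 0, 0, 0]
  have hb := H ![0, 1, 0, 0, 0, 0, 0, 0, 0, 0, 0, 0]
  have hc := H ![0, 0, 1, 0, 0, 0, 0, 0, 0, 0, 0, 0]
  have hd := H ![0, 0, 0, 0, 0, 1, 0, 0, 0, 0, 0, 0]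
  have a2 := ha 2
  have a3 := ha 3
  have a4 := ha 4
  have a5 := ha 5
  have a6 := ha 6
  have a7 := ha 7
  have a8 := ha 8
  have a9 := ha 9
  have a10 := ha 10
  have a11 := ha 11
  have b5 := hb 5
  have b6 := hb 6
  have b7 := hb 7
  have b8 := hb 8
  have b9 := hb 9
  have b10 := hb 10
  have b11 := hb 11
  have c6 := hc 6
  have c9 := hc 9
  have c10 := hc 10
  have c11 := hc 11
  have d10 := hd 10
  have d11 := hd 11
  clear ha hb hc hd H h
  simp [act] at a2 a3 a4 a5 a6 a7 a8 a9 a10 a11 b5 b6 b7 b8 b9 b10 b11 c6 c9 c10 c11 d10 d11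
  constructor <;> simp only [Br]
  · linear_combination a2
  · linear_combination a3
  · linear_combination a4
  · linear_combination a5
  · linear_combination a6
  · linear_combination a7
  · linear_combination a8
  · linear_combination a9
  · linear_combination a10
  · linear_combination a11
  · linear_combination b5
  · linear_combination b6
  · linear_combination b7
  · linear_combination b8
  · linear_combination b9
  · linear_combination b10
  · linear_combination b11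
  · linear_combination c6
  · linear_combination c9
  · linear_combination c10
  · linear_combination c11
  · linear_combination d10
  · linear_combination d11

theorem X_comm {P P' : Par k} : X P * X P' = X P' * X P ↔ Rel P P' := by
  constructor
  · intro h
    refine rel_of_act fun m => ?_
    rw [← X_mulVec, ← X_mulVec, ← X_mulVec, ← X_mulVec, mulVec_mulVec, mulVec_mulVec, h]
  · intro h
    refine ext_mulVec fun m => ?_
    rw [← mulVec_mulVec, ← mulVec_mulVec, X_mulVec, X_mulVec, X_mulVec, X_mulVec, act_comm h]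

theorem J_comm (P : Par k) : J k * X P = X P * J k := by
  refine ext_mulVec fun m => ?_
  rw [← mulVec_mulVec, ← mulVec_mulVec, X_mulVec, X_mulVec, J_mulVec, J_mulVec]
  funext i
  fin_cases i <;> simp [act, actJ]

/-- strictly lower triangular matrices are nilpotent -/
theorem nil_of_lower {n : ℕ} {M : Matrix (Fin n) (Fin n) k} (h : ∀ i j, i ≤ j → M i j = 0) :
    IsNilpotent M := by
  have key : ∀ (l : ℕ) (i j : Fin n), (i : ℕ) < j + l → (M ^ l) i j = 0 := by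
    intro l
    induction l with
    | zero =>
      intro i j hij
      rw [pow_zero, Matrix.one_apply_ne]
      intro e
      rw [e] at hij
      omega
    | succ l ih =>
      intro i j hij
      rw [pow_succ, Matrix.mul_apply]
      refine Finset.sum_eq_zero fun x _ => ?_
      by_cases hx : x ≤ j
      · rw [h x j hx, mul_zero]
      · rw [ih i x (by
          rw [Fin.le_def, not_le] at hx
          omega), zero_mul]
  refine ⟨n, ?_⟩
  ext i j
  exact key n i j (by omega)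

theorem J_nil : IsNilpotent (J k) := by
  refine nil_of_lower fun i j hij => ?_
  fin_cases i <;> fin_cases j <;> first | rfl | (exfalso; revert hij; decide)

theorem X_nil (P : Par k) : IsNilpotent (X P) := by
  refine nil_of_lower fun i j hij => ?_
  fin_cases i <;> fin_cases j <;> first | rfl | (exfalso; revert hij; decide)

theorem cn {P P' : Par k} (h : Rel P P') : CN ![J k, X P, X P'] :=
  D8.cn3 (J_comm P) (J_comm P') (X_comm.2 h) J_nil (X_nil P) (X_nil P')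

/-! ### moves -/

/-- the line `P + s Q` -/
def line (P Q : Par k) (s : k) : Par k where
  al0 := P.al0 + s * Q.al0
  al1 := P.al1 + s * Q.al1
  al2 := P.al2 + s * Q.al2
  al3 := P.al3 + s * Q.al3
  g0 := P.g0 + s * Q.g0
  g1 := P.g1 + s * Q.g1
  pi := P.pi + s * Q.pi
  be0 := P.be0 + s * Q.be0
  be1 := P.be1 + s * Q.be1
  be2 := P.be2 + s * Q.be2
  be3 := P.be3 + s * Q.be3
  q1 := P.q1 + s * Q.q1
  q2 := P.q2 + s * Q.q2
  q3 := P.q3 + s * Q.q3
  e0 := P.e0 + s * Q.e0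
  e1 := P.e1 + s * Q.e1
  ph := P.ph + s * Q.ph
  c0 := P.c0 + s * Q.c0
  c1 := P.c1 + s * Q.c1
  f0 := P.f0 + s * Q.f0
  f1 := P.f1 + s * Q.f1
  z := P.z + s * Q.z
  rho := P.rho + s * Q.rho
  th := P.th + s * Q.th
  eta := P.eta + s * Q.eta
  zeta := P.zeta + s * Q.zeta

/-- the zero parameters -/
def zero (k : Type*) [Field k] : Par k :=
  ⟨0, 0, 0, 0, 0, 0, 0, 0, 0, 0, 0, 0, 0, 0, 0, 0, 0, 0, 0, 0, 0, 0, 0, 0, 0, 0⟩

theorem X_line (P Q : Par k) (s : k) : X P + s • X Q = X (line P Q s) := by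
  refine ext_mulVec fun m => ?_
  rw [add_mulVec, smul_mulVec, X_mulVec, X_mulVec, X_mulVec]
  funext i
  fin_cases i <;> simp [act, line] <;> ring

variable {ρ : ℕ → ℕ} {P P' : Par k}

theorem MaxR.rel (hT : MaxR ρ ![J k, X P, X P']) : Rel P P' :=
  X_comm.1 (hT.cn.1 1 2)

/-- a linear move of the parameters -/
theorem MaxR.move [Infinite k] (hT : MaxR ρ ![J k, X P, X P']) (Q Q' : Par k)
    (h : ∀ s, Rel (line P Q s) (line P' Q' s)) {F : Set k} (hF : F.Finite) :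
    ∃ s, s ∉ F ∧ MaxR ρ ![J k, X (line P Q s), X (line P' Q' s)] := by
  obtain ⟨s, hs, h1⟩ := D8.MaxR.line2 hT (X Q) (X Q') (fun s => by
    rw [X_line, X_line]
    exact cn (h s)) hF
  rw [X_line, X_line] at h1
  exact ⟨s, hs, h1⟩

/-- the raise by a cocycle with values in `ker p*` -/
theorem MaxR.raiseP [Infinite k] (hT : MaxR ρ ![J k, X P, X P']) (h1 : ρ 1 ≤ (J k).rank)
    (hpi : P.pi = 0) (hph : P.ph = 0) (hrho : P.rho = 0)
    (hpi' : P'.pi = 0) (hph' : P'.ph = 0) (hrho' : P'.rho = 0)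
    {c b b' : Fin 12 → k} (hc5 : c 5 = 0) (hb5 : b 5 = 0) (hb5' : b' 5 = 0)
    (h01 : actJ b = act P c) (h02 : actJ b' = act P' c) (h12 : act P b' = act P' b) :
    c 0 = 0 ∧ c 1 = 0 ∧ c 2 = 0 := by
  have hJ : (Pi.single 5 1 : Fin 12 → k) ᵥ* J k = 0 := by
    rw [Matrix.single_one_vecMul]
    funext j
    fin_cases j <;> rfl
  have hX : ∀ {P : Par k}, P.pi = 0 → P.ph = 0 → P.rho = 0 →
      (Pi.single 5 1 : Fin 12 → k) ᵥ* X P = 0 := by
    intro P h1 h2 h3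
    rw [Matrix.single_one_vecMul]
    funext j
    fin_cases j
    exacts [h1, h2, h3, rfl, rfl, rfl, rfl, rfl, rfl, rfl, rfl, rfl]
  obtain ⟨m, hm⟩ := MaxR.psi0 hT 0 (by simpa using h1) (Pi.single 5 1) (by
      intro j
      fin_cases j
      · exact hJ
      · exact hX hpi hph hrho
      · exact hX hpi' hph' hrho') ![c, b, b'] (by
      intro j
      fin_cases j
      · simpa using hc5
      · simpa using hb5
      · simpa using hb5') (by
      intro x y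
      fin_cases x <;> fin_cases y
      · rfl
      · show J k *ᵥ b = X P *ᵥ c
        rw [J_mulVec, X_mulVec, h01]
      · show J k *ᵥ b' = X P' *ᵥ c
        rw [J_mulVec, X_mulVec, h02]
      · show X P *ᵥ c = J k *ᵥ b
        rw [J_mulVec, X_mulVec, h01]
      · rfl
      · show X P *ᵥ b' = X P' *ᵥ b
        rw [X_mulVec, X_mulVec, h12]
      · show X P' *ᵥ c = J k *ᵥ b'
        rw [J_mulVec, X_mulVec, h02]
      · show X P' *ᵥ b = X P *ᵥ b'
        rw [X_mulVec, X_mulVec, h12]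
      · rfl) (Pi.single 5 1) (by
      rw [zero_add, pow_one]
      show J k *ᵥ _ = 0
      rw [J_mulVec]
      funext i
      fin_cases i <;> simp [actJ]) (by simp)
  have h := fun i => congrFun hm i
  rw [pow_zero, Matrix.one_mulVec, zero_add, pow_one] at hm
  have hm' : c = actJ m := by
    rw [← J_mulVec]
    exact hm
  rw [hm']
  exact ⟨rfl, rfl, rfl⟩

end Pool.Agent.Lib.D13.T5421
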