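import Pool.Agent.Lib.D13.QAlg
import Pool.Agent.Lib.D13.Psi

/-!
# MP_5dcbc3_ag: type `(6, 3, 2, 1)`: matrices

Basis `v0, .., v5, w0, w1, w2, f0, f1, p` (`Fin 12`).
-/

set_option autoImplicit false

namespace Pool.Agent.Lib.D13.Q.L6

open Matrix Pool.Agent.Lib.Q5dc Pool.Agent.Lib.D7

variable {k : Type*} [Field k]

/-- the Jordan matrix of type `(6, 3, 2, 1)` -/
def J (k : Type*) [Field k] : Matrix (Fin 12) (Fin 12) k :=
  !![0, 0, 0, 0, 0, 0, 0, 0, 0, 0, 0, 0;
     1, 0, 0, 0, 0, 0, 0, 0, 0, 0, 0, 0;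
     0, 1, 0, 0, 0, 0, 0, 0, 0, 0, 0, 0;
     0, 0, 1, 0, 0, 0, 0, 0, 0, 0, 0, 0;
     0, 0, 0, 1, 0, 0, 0, 0, 0, 0, 0, 0;
     0, 0, 0, 0, 1, 0, 0, 0, 0, 0, 0, 0;
     0, 0, 0, 0, 0, 0, 0, 0, 0, 0, 0, 0;
     0, 0, 0, 0, 0, 0, 1, 0, 0, 0, 0, 0;
     0, 0, 0, 0, 0, 0, 0, 1, 0, 0, 0, 0;
     0, 0, 0, 0, 0, 0, 0, 0, 0, 0, 0, 0;
     0, 0, 0, 0, 0, 0, 0, 0, 0, 1, 0, 0;
     0, 0, 0, 0, 0, 0, 0, 0, 0, 0, 0, 0]

/-- the matrices commuting with `J` -/
def X (P : Par k) : Matrix (Fin 12) (Fin 12) k :=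
  !![0, 0, 0, 0, 0, 0, 0, 0, 0, 0, 0, 0;
     0, 0, 0, 0, 0, 0, 0, 0, 0, 0, 0, 0;
     0, 0, 0, 0, 0, 0, 0, 0, 0, 0, 0, 0;
     0, 0, 0, 0, 0, 0, P.be0, 0, 0, 0, 0, 0;
     0, 0, 0, 0, 0, 0, P.be1, P.be0, 0, P.b0, 0, 0;
     0, 0, 0, 0, 0, 0, P.be2, P.be1, P.be0, P.b1, P.b0, P.th;
     P.al0, 0, 0, 0, 0, 0, 0, 0, 0, 0, 0, 0;
     P.al1, P.al0, 0, 0, 0, 0, P.p1, 0, 0, P.r0, 0, 0;
     P.al2, P.al1, P.al0, 0, 0, 0, P.p2, P.p1, 0, P.r1, P.r0, P.et;
     P.a0, 0, 0, 0, 0, 0, P.q0, 0, 0, 0, 0, 0;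
     P.a1, P.a0, 0, 0, 0, 0, P.q1, P.q0, 0, P.n, 0, P.lam;
     P.om, 0, 0, 0, 0, 0, P.pi, 0, 0, P.ka, 0, 0]

/-- `J` on vectors -/
def actJ (m : Fin 12 → k) : Fin 12 → k :=
  ![0, m 0, m 1, m 2, m 3, m 4, 0, m 6, m 7, 0, m 9, 0]

/-- `X P` on vectors -/
def act (P : Par k) (m : Fin 12 → k) : Fin 12 → k :=
  ![0, 0, 0, P.be0 * m 6, P.be1 * m 6 + P.be0 * m 7 + P.b0 * m 9, P.be2 * m 6 + P.be1 * m 7 +
    P.be0 * m 8 + P.b1 * m 9 + P.b0 * m 10 + P.th * m 11, P.al0 * m 0, P.al1 * m 0 + P.al0 * m 1 +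
    P.p1 * m 6 + P.r0 * m 9, P.al2 * m 0 + P.al1 * m 1 + P.al0 * m 2 + P.p2 * m 6 + P.p1 * m 7 +
    P.r1 * m 9 + P.r0 * m 10 + P.et * m 11, P.a0 * m 0 + P.q0 * m 6, P.a1 * m 0 + P.a0 * m 1 +
    P.q1 * m 6 + P.q0 * m 7 + P.n * m 9 + P.lam * m 11, P.om * m 0 + P.pi * m 6 + P.ka * m 9]

theorem J_mulVec (m : Fin 12 → k) : J k *ᵥ m = actJ m := by
  funext i
  fin_cases i <;> simp [J, actJ, Matrix.mulVec, dotProduct, Fin.sum_univ_succ]

theorem X_mulVec (P : Par k) (m : Fin 12 → k) : X P *ᵥ m = act P m := by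
  funext i
  fin_cases i <;> simp [X, act, Matrix.mulVec, dotProduct, Fin.sum_univ_succ] <;> ring

theorem ext_mulVec {n : Type*} [Fintype n] [DecidableEq n] {A B : Matrix n n k}
    (h : ∀ m, A *ᵥ m = B *ᵥ m) : A = B := by
  ext i j
  have := congrFun (h (Pi.single j 1)) i
  simpa using this

theorem act_comm {P P' : Par k} (h : Rel (0 : k) P P') (m : Fin 12 → k) :
    act P (act P' m) = act P' (act P m) := by
  obtain ⟨r1, r2, r3, r4, r5, r6, r7, r8, r9, r10, r11, r12, r13, r14, r15, r16, r17, r18, r19,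
    r20⟩ := h
  funext i
  fin_cases i <;> simp only [act, Matrix.cons_val] <;> simp
  · linear_combination m 0 * r1
  · linear_combination m 0 * r2 + m 1 * r1 + m 6 * r9 + m 9 * r15
  · linear_combination m 0 * r3 + m 1 * r2 + m 2 * r1 + m 6 * r10 + m 7 * r9 + m 9 * r16 + m 10 *
      r15 + m 11 * r19
  · linear_combination m 0 * r4 + m 6 * r11
  · linear_combination m 0 * r5 + m 1 * r4 + m 6 * r12 + m 7 * r11 + m 9 * r17 + m 11 * r20
  · linear_combination m 0 * r6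
  · linear_combination m 0 * r7 + m 1 * r6 + m 6 * r13 + m 9 * r18
  · linear_combination m 0 * r8 + m 6 * r14

theorem rel_of_act {P P' : Par k} (h : ∀ m, act P (act P' m) = act P' (act P m)) : Rel (0 : k) P P' := by
  have H : ∀ (m : Fin 12 → k) (i : Fin 12), act P (act P' m) i = act P' (act P m) i :=
    fun m i => congrFun (h m) i
  have h0 := H ![1, 0, 0, 0, 0, 0, 0, 0, 0, 0, 0, 0]
  have h6 := H ![0, 0, 0, 0, 0, 0, 1, 0, 0, 0, 0, 0]
  have h9 := H ![0, 0, 0, 0, 0, 0, 0, 0, 0, 1, 0, 0]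
  have h11 := H ![0, 0, 0, 0, 0, 0, 0, 0, 0, 0, 0, 1]
  have e1 := h0 3
  have e2 := h0 4
  have e3 := h0 5
  have e4 := h0 7
  have e5 := h0 8
  have e6 := h0 9
  have e7 := h0 10
  have e8 := h0 11
  have e9 := h6 4
  have e10 := h6 5
  have e11 := h6 7
  have e12 := h6 8
  have e13 := h6 10
  have e14 := h6 11
  have e15 := h9 4
  have e16 := h9 5
  have e17 := h9 8
  have e18 := h9 10
  have e19 := h11 5
  have e20 := h11 8
  clear h0 h6 h9 h11 H h
  simp [act] at e1 e2 e3 e4 e5 e6 e7 e8 e9 e10 e11 e12 e13 e14 e15 e16 e17 e18 e19 e20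
  constructor
  · linear_combination e1
  · linear_combination e2
  · linear_combination e3
  · linear_combination e4
  · linear_combination e5
  · linear_combination e6
  · linear_combination e7
  · linear_combination e8
  · linear_combination e9
  · linear_combination e10
  · linear_combination e11
  · linear_combination e12
  · linear_combination e13
  · linear_combination e14
  · linear_combination e15
  · linear_combination e16
  · linear_combination e17
  · linear_combination e18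
  · linear_combination e19
  · linear_combination e20

theorem X_comm {P P' : Par k} : X P * X P' = X P' * X P ↔ Rel (0 : k) P P' := by
  constructor
  · intro h
    refine rel_of_act fun m => ?_
    rw [← X_mulVec, ← X_mulVec, ← X_mulVec, ← X_mulVec, mulVec_mulVec, mulVec_mulVec, h]
  · intro h
    refine ext_mulVec fun m => ?_
    rw [← mulVec_mulVec, ← mulVec_mulVec, X_mulVec, X_mulVec, X_mulVec, X_mulVec, act_comm h]

theorem J_comm (P : Par k) : J k * X P = X P * J k := by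
  refine ext_mulVec fun m => ?_
  rw [← mulVec_mulVec, ← mulVec_mulVec, X_mulVec, X_mulVec, J_mulVec, J_mulVec]
  funext i
  fin_cases i <;> simp [act, actJ]

/-- the levels: `J` and `X P` raise the level -/
def lev : Fin 12 → ℕ := ![0, 1, 2, 3, 4, 6, 1, 3, 5, 2, 4, 3]

theorem nil_of_lev {n : Type*} [Fintype n] [DecidableEq n] (f : n → ℕ) {M : Matrix n n k}
    (h : ∀ i j, f i ≤ f j → M i j = 0) : IsNilpotent M := by
  have key : ∀ (l : ℕ) (i j : n), f i < f j + l → (M ^ l) i j = 0 := by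
    intro l
    induction l with
    | zero =>
      intro i j hij
      rw [pow_zero, Matrix.one_apply_ne]
      intro e
      rw [e] at hij
      omega
    | succ l ih =>
      intro i j hij
      rw [pow_succ, Matrix.mul_apply]
      refine Finset.sum_eq_zero fun x _ => ?_
      by_cases hx : f x ≤ f j
      · rw [h x j hx, mul_zero]
      · rw [ih i x (by omega), zero_mul]
  refine ⟨Finset.univ.sup f + 1, ?_⟩
  ext i j
  have h1 : f i ≤ Finset.univ.sup f := Finset.le_sup (Finset.mem_univ i)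
  exact key _ i j (by omega)

theorem J_nil : IsNilpotent (J k) := by
  refine nil_of_lev lev fun i j hij => ?_
  fin_cases i <;> fin_cases j <;> first | rfl | (exfalso; revert hij; decide)

theorem X_nil (P : Par k) : IsNilpotent (X P) := by
  refine nil_of_lev lev fun i j hij => ?_
  fin_cases i <;> fin_cases j <;> first | rfl | (exfalso; revert hij; decide)

theorem cn {P P' : Par k} (h : Rel (0 : k) P P') : CN ![J k, X P, X P'] :=
  D8.cn3 (J_comm P) (J_comm P') (X_comm.2 h) J_nil (X_nil P) (X_nil P')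

/-! ### moves -/

theorem X_comb (a b : k) (P Q : Par k) : X (Par.comb a b P Q) = a • X P + b • X Q := by
  refine ext_mulVec fun m => ?_
  rw [add_mulVec, smul_mulVec, smul_mulVec, X_mulVec, X_mulVec, X_mulVec]
  funext i
  fin_cases i <;> simp [act, Par.comb] <;> ring

theorem X_poly {Q : k → Par k} (hQ : PolyPar Q) (x y : Fin 12) : IsPoly fun s => X (Q s) x y := by
  have z : IsPoly fun _ : k => (0 : k) := D7.IsPoly.const 0
  fin_cases x <;> fin_cases y <;> first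
    | exact z
    | exact hQ.al0
    | exact hQ.al1
    | exact hQ.al2
    | exact hQ.a0
    | exact hQ.a1
    | exact hQ.om
    | exact hQ.be0
    | exact hQ.be1
    | exact hQ.be2
    | exact hQ.p1
    | exact hQ.p2
    | exact hQ.q0
    | exact hQ.q1
    | exact hQ.pi
    | exact hQ.b0
    | exact hQ.b1
    | exact hQ.r0
    | exact hQ.r1
    | exact hQ.n
    | exact hQ.ka
    | exact hQ.th
    | exact hQ.et
    | exact hQ.lam

variable {ρ : ℕ → ℕ} {P P' : Par k}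

theorem MaxR.rel (hT : MaxR ρ ![J k, X P, X P']) : Rel (0 : k) P P' :=
  X_comm.1 (hT.cn.1 1 2)

/-- a polynomial move of the parameters -/
theorem MaxR.moveP [Infinite k] (hT : MaxR ρ ![J k, X P, X P']) (Q Q' : k → Par k)
    (hQ : PolyPar Q) (hQ' : PolyPar Q') (h0 : Q 0 = P) (h0' : Q' 0 = P')
    (h : ∀ s, Rel (0 : k) (Q s) (Q' s)) :
    {s | ¬ MaxR ρ ![J k, X (Q s), X (Q' s)]}.Finite := by
  obtain ⟨F, hF, h1⟩ := hT.deform (fun s => ![J k, X (Q s), X (Q' s)]) (by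
      intro i x y
      fin_cases i
      · exact D7.IsPoly.const _
      · exact X_poly hQ x y
      · exact X_poly hQ' x y) (by rw [h0, h0']) Set.finite_empty fun s _ => cn (h s)
  refine hF.subset fun s hs => ?_
  by_contra h2
  exact hs (h1 s h2)

theorem MaxR.lin' (hT : MaxR ρ ![J k, X P, X P']) (a b c c' : k) (h : a * c' - b * c ≠ 0) :
    MaxR ρ ![J k, X (Par.comb a b P P'), X (Par.comb c c' P P')] := by
  have h1 := D8.MaxR.lin hT a b c c' 0 0 0 0 h
  rw [X_comb, X_comb]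
  simpa using h1

end Pool.Agent.Lib.D13.Q.L6
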