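import Pool.Agent.Lib.D13.MixP0

/-!
# MP_5dcbc3_ag: mixed cases of the types `(3, 3, 2, 2, 1^p)`

`e = u = 2`, `p` arbitrary: in a maximal bad triple `a = a' = 0` or `b = b' = 0`.
-/

namespace Pool.Agent.Lib.D13

open Matrix Pool.Agent.Lib.Q5dc Pool.Agent.Lib.D7 Pool.Agent.Lib.D9

namespace Mix2Aux

open MixP0Aux

section

variable {k : Type*} [Field k]

theorem xdx {u : ℕ} {X : Matrix (Fin u) (Fin u) k} (h : ∀ D, X * D * X = 0) : X = 0 := by
  ext i j
  have h1 := congrFun (congrFun (h (vecMulVec (Pi.single j 1) (Pi.single i 1))) i) j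
  rw [mul_vecMulVec, vecMulVec_mul, vecMulVec_apply] at h1
  simp at h1
  simpa using h1

/-- a row kills the columns of a matrix but not a vector outside of its range -/
theorem sepR {m n : ℕ} (P : Matrix (Fin m) (Fin n) k) (v : Fin m → k)
    (hv : ¬ ∃ x, v = P *ᵥ x) : ∃ y : Fin m → k, y ᵥ* P = 0 ∧ y ⬝ᵥ v ≠ 0 := by
  have h1 : v ∉ LinearMap.range P.mulVecLin := by
    rintro ⟨x, hx⟩
    exact hv ⟨x, by rw [← hx]; rfl⟩
  obtain ⟨f, hf, hf'⟩ := Submodule.exists_le_ker_of_notMem h1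
  have h2 : ∀ w : Fin m → k, (fun i => f (Pi.single i 1)) ⬝ᵥ w = f w := by
    intro w
    conv_rhs => rw [← Finset.univ_sum_single w, map_sum]
    refine Finset.sum_congr rfl fun i _ => ?_
    have h3 : (Pi.single i (w i) : Fin m → k) = w i • Pi.single i 1 := by
      rw [← Pi.single_smul, smul_eq_mul, mul_one]
    rw [h3, map_smul, smul_eq_mul, mul_comm]
  refine ⟨fun i => f (Pi.single i 1), ?_, ?_⟩
  · funext j
    have h4 : ((fun i => f (Pi.single i 1)) ᵥ* P) j =
        (fun i => f (Pi.single i 1)) ⬝ᵥ (P *ᵥ Pi.single j 1) := by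
      rw [dotProduct_mulVec, dotProduct_single, mul_one]
    rw [h4, h2]
    exact hf' ⟨Pi.single j 1, rfl⟩
  · rw [h2]
    exact hf

/-- coordinates with a given first basis vector -/
theorem coord {v : Fin 2 → k} (hv : v ≠ 0) :
    ∃ h h' : Matrix (Fin 2) (Fin 2) k, h * h' = 1 ∧ ∀ i, h' i 0 = v i := by
  by_cases h0 : v 0 = 0
  · have h1 : v 1 ≠ 0 := fun h1 => hv (by funext i; fin_cases i; exacts [h0, h1])
    refine ⟨!![0, (v 1)⁻¹; 1, 0], !![0, 1; v 1, 0], ?_, ?_⟩
    · ext i j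
      fin_cases i <;> fin_cases j <;> simp [Matrix.mul_apply, Fin.sum_univ_two, h1]
    · intro i
      fin_cases i
      · simp [h0]
      · simp
  · refine ⟨!![(v 0)⁻¹, 0; -(v 1) * (v 0)⁻¹, 1], !![v 0, 0; v 1, 1], ?_, ?_⟩
    · ext i j
      fin_cases i <;> fin_cases j <;> simp [Matrix.mul_apply, Fin.sum_univ_two, h0]
    · intro i
      fin_cases i <;> simp

/-- `E_01` -/
def sg (k : Type*) [Field k] : Matrix (Fin 2) (Fin 2) k := !![0, 1; 0, 0]

/-- `E_10` -/
def dn (k : Type*) [Field k] : Matrix (Fin 2) (Fin 2) k := !![0, 0; 1, 0]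

/-- `E_11` -/
def en (k : Type*) [Field k] : Matrix (Fin 2) (Fin 2) k := !![0, 0; 0, 1]

variable {m : Type*}

theorem sL0 (X : Matrix (Fin 2) m k) (j : m) : (sg k * X) 0 j = X 1 j := by
  simp [sg, Matrix.mul_apply, Fin.sum_univ_two]

theorem sL1 (X : Matrix (Fin 2) m k) (j : m) : (sg k * X) 1 j = 0 := by
  simp [sg, Matrix.mul_apply, Fin.sum_univ_two]

theorem sR0 (X : Matrix m (Fin 2) k) (i : m) : (X * sg k) i 0 = 0 := by
  simp [sg, Matrix.mul_apply, Fin.sum_univ_two]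

theorem sR1 (X : Matrix m (Fin 2) k) (i : m) : (X * sg k) i 1 = X i 0 := by
  simp [sg, Matrix.mul_apply, Fin.sum_univ_two]

theorem dR0 (X : Matrix m (Fin 2) k) (i : m) : (X * dn k) i 0 = X i 1 := by
  simp [dn, Matrix.mul_apply, Fin.sum_univ_two]

theorem dR1 (X : Matrix m (Fin 2) k) (i : m) : (X * dn k) i 1 = 0 := by
  simp [dn, Matrix.mul_apply, Fin.sum_univ_two]

theorem eL0 (X : Matrix (Fin 2) m k) (j : m) : (en k * X) 0 j = 0 := by
  simp [en, Matrix.mul_apply, Fin.sum_univ_two]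

theorem eL1 (X : Matrix (Fin 2) m k) (j : m) : (en k * X) 1 j = X 1 j := by
  simp [en, Matrix.mul_apply, Fin.sum_univ_two]

/-- the permutation matrix -/
def jn (k : Type*) [Field k] : Matrix (Fin 2) (Fin 2) k := !![0, 1; 1, 0]

theorem jn_jn : jn k * jn k = 1 := by
  ext i j
  fin_cases i <;> fin_cases j <;> simp [jn, Matrix.mul_apply, Fin.sum_univ_two]

theorem jn_sg : jn k * (sg k)ᵀ * jn k = sg k := by
  have h : (sg k)ᵀ = dn k := by
    ext i j
    fin_cases i <;> fin_cases j <;> rfl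
  rw [h]
  ext i j
  fin_cases i <;> fin_cases j <;> simp [jn, sg, dn, Matrix.mul_apply, Fin.sum_univ_two]

theorem jn_11 (X : Matrix (Fin 2) (Fin 2) k) : (jn k * X * jn k) 1 1 = X 0 0 := by
  simp only [Matrix.mul_apply, Fin.sum_univ_two]
  simp [jn]

theorem sg_sg : sg k * sg k = 0 := by
  ext i j
  fin_cases i <;> fin_cases j <;> simp [sg, Matrix.mul_apply, Fin.sum_univ_two]

theorem dn_sg : dn k * sg k = en k := by
  ext i j
  fin_cases i <;> fin_cases j <;> simp [sg, dn, en, Matrix.mul_apply, Fin.sum_univ_two]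

theorem sg_en : sg k * en k = sg k := by
  ext i j
  fin_cases i <;> fin_cases j <;> simp [sg, en, Matrix.mul_apply, Fin.sum_univ_two]

theorem sg_dn_sg : sg k * dn k * sg k = sg k := by
  rw [Matrix.mul_assoc, dn_sg, sg_en]

theorem sg_ne : sg k ≠ 0 := by
  intro h
  have := congrFun (congrFun h 0) 1
  simp [sg] at this

end

section

variable {k : Type*} [Field k] [CharZero k] {e u p : ℕ} {ρ : ℕ → ℕ}
  {N M N' M' : Matrix (Fin e) (Fin e) k} {a c a' c' : Matrix (Fin u) (Fin e) k}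
  {w w' : Matrix (Fin p) (Fin e) k} {b d b' d' : Matrix (Fin e) (Fin u) k}
  {nu nu' : Matrix (Fin u) (Fin u) k} {pi pi' : Matrix (Fin p) (Fin u) k}
  {th th' : Matrix (Fin e) (Fin p) k} {et et' : Matrix (Fin u) (Fin p) k}

theorem o1 {T : Fin 3 → Matrix (Ix e u p) (Ix e u p) k} (hT : MaxR ρ T) (h2 : ρ 2 ≤ e)
    (hA : JX k e u p ∈ adj T) (hX : BX N M a c w b d nu pi th et ∈ adj T) :
    a * (N * b + b * nu + th * pi) + (a * N + nu * a + et * w) * b = (4 : k) • (a * N * b) := by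
  have h := (BlkRankAux.sq_rank hT h2 hA hX).2.1
  have h3 : (2 : k) • (a * (N * b + b * nu + th * pi) + (a * N + nu * a + et * w) * b) =
      (2 : k) • ((4 : k) • (a * N * b)) := by
    rw [smul_add, ← Matrix.smul_mul, ← Matrix.mul_smul, h]
    simp only [Matrix.smul_mul, Matrix.mul_smul, smul_smul]
    norm_num
  exact smul_right_injective _ two_ne_zero h3

/-- the products `a b` vanish -/
theorem ab0 (h2 : ρ 2 ≤ e) (hT : MaxR ρ ![JX k e u p, BX N M a c w b d nu pi th et,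
      BX N' M' a' c' w' b' d' nu' pi' th' et']) : a * b = 0 := by
  have hinf : Infinite k := inferInstance
  obtain ⟨c1, c2, c3, c4, c5, c6, c7⟩ := (BX_comm ..).1 (hT.cn.1 1 2)
  refine xdx fun D => ?_
  obtain ⟨s, hs, h⟩ := D8.MaxR.line2 hT (BX 0 0 0 (D * a) 0 0 0 0 0 0 0)
    (BX 0 0 0 0 0 0 (-(b' * D)) 0 0 0 0) (F := {0}) (fun s => by
      rw [BX_smul, BX_add, BX_smul, BX_add]
      simp only [smul_zero, add_zero]
      refine cnX _ _ _ _ _ _ _ _ _ _ _ _ _ _ _ _ _ _ _ _ _ _ c1 ?_ c3 c4 c5 c6 c7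
      rw [Matrix.add_mul, Matrix.mul_add, smul_neg, Matrix.neg_mul, Matrix.smul_mul,
        Matrix.mul_smul, Matrix.mul_assoc b' D a, c2]
      abel) (Set.finite_singleton 0)
  rw [BX_smul, BX_add, BX_smul, BX_add] at h
  simp only [smul_zero, add_zero] at h
  have e1 := (BlkRankAux.sq_rank hT h2 (D8.mem0 _ _ _) (D8.mem1 _ _ _)).2.2
  have e2 := (BlkRankAux.sq_rank h h2 (D8.mem0 _ _ _) (D8.mem1 _ _ _)).2.2
  have e3 : N * N + d * a + b * (c + s • (D * a)) + th * w =
      (N * N + d * a + b * c + th * w) + s • (b * (D * a)) := by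
    rw [Matrix.mul_add, Matrix.mul_smul]
    abel
  rw [e3, Matrix.mul_add _ _ (s • (b * (D * a))), Matrix.add_mul _ _ ((2 : k) • b), ← add_assoc,
    ← e1] at e2
  have e4 := left_eq_add.1 e2
  simp only [Matrix.smul_mul, Matrix.mul_smul, smul_smul] at e4
  have e5 := (smul_eq_zero.1 e4).resolve_left (mul_ne_zero two_ne_zero
    (mul_ne_zero (by simpa using hs) two_ne_zero))
  rw [← e5]
  simp only [Matrix.mul_assoc]

/-- no deformation with `a E b ≠ 0` -/
theorem noE (h2 : ρ 2 ≤ e) (hT : MaxR ρ ![JX k e u p, BX N M a c w b d nu pi th et,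
      BX N' M' a' c' w' b' d' nu' pi' th' et']) {E : Matrix (Fin e) (Fin e) k}
    {H H' : Matrix (Fin e) (Fin u) k} (hE1 : a' * E = 0) (hE2 : E * b' = 0)
    (hE3 : E * N' + H * a' = N' * E + H' * a) : a * E * b = 0 := by
  have hinf : Infinite k := inferInstance
  obtain ⟨c1, c2, c3, c4, c5, c6, c7⟩ := (BX_comm ..).1 (hT.cn.1 1 2)
  obtain ⟨s, hs, h⟩ := D8.MaxR.line2 hT (BX E 0 0 0 0 0 H 0 0 0 0)
    (BX 0 0 0 0 0 0 H' 0 0 0 0) (F := {0}) (fun s => by
      rw [BX_smul, BX_add, BX_smul, BX_add]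
      simp only [smul_zero, add_zero]
      refine cnX _ _ _ _ _ _ _ _ _ _ _ _ _ _ _ _ _ _ _ _ _ _ c1 ?_ ?_ c4 ?_ c6 c7
      · have e1 : (N + s • E) * N' + (d + s • H) * a' + b * c' + th * w' =
            (N * N' + d * a' + b * c' + th * w') + s • (E * N' + H * a') := by
          rw [Matrix.add_mul, Matrix.add_mul, Matrix.smul_mul, Matrix.smul_mul, smul_add]
          abel
        have e2 : N' * (N + s • E) + (d' + s • H') * a + b' * c + th' * w =
            (N' * N + d' * a + b' * c + th' * w) + s • (N' * E + H' * a) := by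
          rw [Matrix.mul_add, Matrix.add_mul, Matrix.smul_mul, Matrix.mul_smul, smul_add]
          abel
        rw [e1, e2, c2, hE3]
      · rw [Matrix.mul_add, Matrix.mul_smul, hE1, smul_zero, add_zero]
        exact c3
      · rw [Matrix.add_mul, Matrix.smul_mul, hE2, smul_zero, add_zero]
        exact c5) (Set.finite_singleton 0)
  rw [BX_smul, BX_add, BX_smul, BX_add] at h
  simp only [smul_zero, add_zero] at h
  have e1 := o1 hT h2 (D8.mem0 _ _ _) (D8.mem1 _ _ _)
  have e2 := o1 h h2 (D8.mem0 _ _ _) (D8.mem1 _ _ _)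
  have e3 : a * ((N + s • E) * b + b * nu + th * pi) +
      (a * (N + s • E) + nu * a + et * w) * b =
      (a * (N * b + b * nu + th * pi) + (a * N + nu * a + et * w) * b) +
        (2 * s) • (a * E * b) := by
    simp only [Matrix.mul_add, Matrix.add_mul, Matrix.mul_smul, Matrix.smul_mul,
      Matrix.mul_assoc]
    module
  have e4 : (4 : k) • (a * (N + s • E) * b) = (4 : k) • (a * N * b) + (4 * s) • (a * E * b) := by
    simp only [Matrix.mul_add, Matrix.add_mul, Matrix.mul_smul, Matrix.smul_mul]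
    module
  rw [e3, e4, e1] at e2
  have e5 := add_left_cancel e2
  have e6 : (2 * s) • (a * E * b) = 0 := by
    have : (2 * s) • (a * E * b) = (4 * s) • (a * E * b) - (2 * s) • (a * E * b) := by module
    rw [this, ← e5, sub_self]
  exact (smul_eq_zero.1 e6).resolve_left (mul_ne_zero two_ne_zero (by simpa using hs))

theorem memt (t : k) : BX (N + t • N') (M + t • M') (a + t • a') (c + t • c') (w + t • w')
    (b + t • b') (d + t • d') (nu + t • nu') (pi + t • pi') (th + t • th') (et + t • et') ∈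
    adj ![JX k e u p, BX N M a c w b d nu pi th et,
      BX N' M' a' c' w' b' d' nu' pi' th' et'] := by
  rw [← BX_add, ← BX_smul]
  exact add_mem (D8.mem1 _ _ _) (SMulMemClass.smul_mem t (D8.mem2 _ _ _))

/-- products of the mixed parts -/
theorem prods (h2 : ρ 2 ≤ e) (hT : MaxR ρ ![JX k e u p, BX N M a c w b d nu pi th et,
      BX N' M' a' c' w' b' d' nu' pi' th' et']) :
    a * b = 0 ∧ a' * b' = 0 ∧ a * b' + a' * b = 0 := by
  have e1 := ab0 h2 hT
  have e2 := ab0 h2 (D8.MaxR.swap hT)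
  have h := E1mixAux.addl hT 1
  rw [BX_smul, BX_add] at h
  have e3 := ab0 h2 h
  rw [one_smul, one_smul, Matrix.add_mul, Matrix.mul_add, Matrix.mul_add, e1, e2, zero_add,
    add_zero] at e3
  exact ⟨e1, e2, e3⟩

end

section

variable {k : Type*} [Field k] [CharZero k] {p : ℕ} {ρ : ℕ → ℕ}
  {N M N' M' : Matrix (Fin 2) (Fin 2) k} {c c' : Matrix (Fin 2) (Fin 2) k}
  {w w' : Matrix (Fin p) (Fin 2) k} {d d' : Matrix (Fin 2) (Fin 2) k}
  {nu nu' : Matrix (Fin 2) (Fin 2) k} {pi pi' : Matrix (Fin p) (Fin 2) k}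
  {th th' : Matrix (Fin 2) (Fin p) k} {et et' : Matrix (Fin 2) (Fin p) k}

theorem lemQ (h2 : ρ 2 ≤ 2) (h3 : ρ 3 = 0)
    (hT : MaxR ρ ![JX k 2 2 p, BX N M (sg k) c w 0 d nu pi th et,
      BX N' M' 0 c' w' (sg k) d' nu' pi' th' et']) :
    et' * pi = 0 ∧ (th' * pi) 1 1 ≠ 0 ∧ ∃ x : Fin 2 → k, (fun i => w i 0) = pi *ᵥ x := by
  have hinf : Infinite k := inferInstance
  obtain ⟨c1, c2, c3, c4, c5, c6, c7⟩ := (BX_comm ..).1 (hT.cn.1 1 2)
  have hA := D8.mem0 (JX k 2 2 p) (BX N M (sg k) c w 0 d nu pi th et)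
    (BX N' M' 0 c' w' (sg k) d' nu' pi' th' et')
  -- `et pi = 0`
  have x1 : et * pi = 0 := by
    have h := R1X hT h2 hA (D8.mem1 _ _ _)
    rwa [Matrix.mul_zero, smul_zero] at h
  have x2 : et' * pi' = 0 := by
    have h := R1X hT h2 hA (D8.mem2 _ _ _)
    rwa [Matrix.zero_mul, smul_zero] at h
  have x3 : et * pi' = et' * pi := by
    rw [sg_sg, Matrix.zero_mul, zero_add, zero_add] at c6
    exact c6
  have x4 : et' * pi = 0 := by
    have h := R1X hT h2 hA (memt 1)
    simp only [one_smul, zero_add, add_zero, sg_sg, smul_zero] at h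
    rw [Matrix.add_mul, Matrix.mul_add, Matrix.mul_add, x1, x2, x3, zero_add, add_zero,
      ← two_smul k] at h
    exact (smul_eq_zero.1 h).resolve_left two_ne_zero
  have x5 : et * pi' = 0 := x3.trans x4
  refine ⟨x4, ?_⟩
  -- `th pi`
  have y1 : ∀ j, (th * pi) 1 j = 0 := by
    intro j
    have h := o1 hT h2 hA (D8.mem1 _ _ _)
    simp only [Matrix.mul_zero, Matrix.zero_mul, zero_add, add_zero, smul_zero] at h
    have h' := congrFun (congrFun h 0) j
    rwa [sL0] at h'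
  have y2 : ∀ i, (th * pi) i 0 = 0 := by
    intro i
    have h := cube hT h3 (D8.mem1 _ _ _) (D8.mem1 _ _ _) (D8.mem1 _ _ _)
    simp only [Matrix.mul_zero, Matrix.zero_mul, zero_add, add_zero] at h
    have h' := congrFun (congrFun h i) 1
    rwa [sR1] at h'
  have r5 : N 1 0 + (th * pi') 1 1 = (th' * pi) 1 1 := by
    have h := congrFun (congrFun c5 1) 1
    simp only [Matrix.mul_zero, Matrix.zero_mul, zero_add, add_zero, Matrix.add_apply, sL1,
      sR1] at h
    exact h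
  have z1 : (et' * w') 0 0 = 0 := by
    have h := o1 hT h2 hA (D8.mem2 _ _ _)
    simp only [Matrix.mul_zero, Matrix.zero_mul, zero_add, add_zero, smul_zero] at h
    have h' := congrFun (congrFun h 0) 1
    rwa [sR1] at h'
  have z2 : ∀ t : k, t * ((th * pi') 1 1 + (th' * pi) 1 1 + (et * w) 0 0) +
      t ^ 2 * ((th' * pi') 1 1 + (et * w') 0 0 + (et' * w) 0 0) =
      2 * t * (N 1 0 + t * N' 1 0) := by
    intro t
    have h := o1 hT h2 hA (memt t)
    have h' := congrFun (congrFun h 0) 1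
    simp only [smul_zero, add_zero, zero_add, Matrix.mul_add, Matrix.add_mul, Matrix.smul_mul,
      Matrix.mul_smul, Matrix.add_apply, Matrix.smul_apply, smul_eq_mul, Matrix.mul_assoc,
      sL0, sR1, sg_sg, Matrix.mul_zero, Matrix.zero_apply] at h'
    have q1 : (et' * (w' * sg k)) 0 1 = 0 := by rw [← Matrix.mul_assoc, sR1]; exact z1
    have q2 : (et * (w * sg k)) 0 1 = (et * w) 0 0 := by rw [← Matrix.mul_assoc, sR1]
    have q3 : (et * (w' * sg k)) 0 1 = (et * w') 0 0 := by rw [← Matrix.mul_assoc, sR1]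
    have q4 : (et' * (w * sg k)) 0 1 = (et' * w) 0 0 := by rw [← Matrix.mul_assoc, sR1]
    simp only [q1, q2, q3, q4, sL1, y1] at h'
    linear_combination h'
  have h0 : (et * w) 0 0 = 3 * N 1 0 - 2 * (th' * pi) 1 1 := by
    have h4 := z2 1
    have h5 := z2 (-1)
    linear_combination (1 / 2) * h4 - (1 / 2) * h5 - r5
  -- `tau = 0`
  have y3 : (th * pi) 0 1 = 0 := by
    by_contra htau
    have h := (BlkRankAux.sq_rank hT h2 hA (D8.mem1 _ _ _)).2.2
    simp only [Matrix.mul_zero, Matrix.zero_mul, zero_add, add_zero, smul_zero] at h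
    have e1 : th * pi = (th * pi) 0 1 • sg k := by
      ext i j
      fin_cases i <;> fin_cases j
      · simpa [sg] using y2 0
      · simp [sg]
      · simpa [sg] using y1 0
      · simpa [sg] using y1 1
    have h' := congrFun (congrFun h 0) 1
    rw [e1] at h'
    simp only [Matrix.mul_add, Matrix.add_mul, Matrix.smul_mul,
      Matrix.mul_smul, Matrix.add_apply, Matrix.smul_apply, smul_eq_mul, sR1, sL0] at h'
    have e2 : (nu * sg k) 0 0 = 0 := sR0 _ _
    rw [e2] at h'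
    have ht2 : (th' * pi) 1 1 = 0 := by
      have h6 : (th * pi) 0 1 * (th' * pi) 1 1 = 0 := by
        linear_combination (-1 / 2) * h' + (1 / 2) * (th * pi) 0 1 * h0
      exact (mul_eq_zero.1 h6).resolve_left htau
    obtain ⟨s, hs, h7⟩ := D8.MaxR.line2 hT
      (BX 0 0 0 0 0 0 0 (-((th' * pi) 0 1 • dn k)) (pi * dn k) 0 0) 0
      (F := {0}) (fun s => by
        rw [smul_zero, add_zero, BX_smul, BX_add]
        simp only [smul_zero, add_zero]
        refine cnX _ _ _ _ _ _ _ _ _ _ _ _ _ _ _ _ _ _ _ _ _ _ c1 c2 ?_ ?_ ?_ ?_ c7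
        · rw [Matrix.mul_zero]
          rw [Matrix.mul_zero] at c3
          exact c3
        · rw [Matrix.mul_zero]
          rw [Matrix.mul_zero] at c4
          exact c4
        · have e3 : sg k * ((th' * pi) 0 1 • dn k) = th' * pi * dn k := by
            ext i j
            fin_cases i <;> fin_cases j
            · simp [sg, dn, Matrix.mul_apply, Fin.sum_univ_two]
            · simp [sg, dn, Matrix.mul_apply, Fin.sum_univ_two]
            · have : (th' * pi * dn k) 1 0 = 0 := by rw [dR0]; exact ht2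
              simpa [sL1] using this.symm
            · simp [sL1, dR1]
          rw [c5, Matrix.mul_add, Matrix.mul_add, smul_neg, Matrix.mul_neg, Matrix.mul_smul,
            e3, Matrix.mul_smul, Matrix.mul_assoc]
          abel
        · rw [x5, sg_sg, Matrix.zero_mul, Matrix.mul_add, Matrix.mul_smul,
            ← Matrix.mul_assoc et', x4, Matrix.zero_mul, smul_zero, add_zero, add_zero]) (Set.finite_singleton 0)
    rw [smul_zero, add_zero, BX_smul, BX_add] at h7
    simp only [smul_zero, add_zero] at h7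
    have h8 := cube h7 h3 (D8.mem1 _ _ _) (D8.mem1 _ _ _) (D8.mem1 _ _ _)
    simp only [Matrix.mul_zero, Matrix.zero_mul, zero_add, add_zero] at h8
    rw [Matrix.mul_add, Matrix.mul_smul, Matrix.add_mul, Matrix.smul_mul, ← Matrix.mul_assoc th,
      e1, Matrix.smul_mul, sg_sg, smul_zero, zero_add, Matrix.smul_mul, Matrix.smul_mul,
      sg_dn_sg, smul_smul] at h8
    exact sg_ne ((smul_eq_zero.1 h8).resolve_left (mul_ne_zero (by simpa using hs) htau))
  have y4 : th * pi = 0 := by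
    ext i j
    fin_cases i <;> fin_cases j
    · exact y2 0
    · exact y3
    · exact y1 0
    · exact y1 1
  -- no row `eps`
  have key : ¬ ∃ eps : Fin p → k, eps ᵥ* pi = 0 ∧ N 1 0 + (eps ᵥ* w) 0 = 0 := by
    rintro ⟨eps, he1, he2⟩
    obtain ⟨s, hs, h⟩ := addK hT (Nk := 0) (Mk := 0) (ak := en k) (ck := 0)
      (wk := 0) (bk := 0) (dk := d * dn k)
      (nuk := nu * dn k - (N 1 1 + (eps ᵥ* w) 1) • dn k) (pik := pi * dn k) (thk := 0)
      (etk := vecMulVec ![0, 1] eps) (by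
        rw [BX_comm]
        refine ⟨by simp, ?_, ?_, ?_, ?_, ?_, by simp⟩
        · simp only [Matrix.zero_mul, Matrix.mul_zero, add_zero, zero_add]
          rw [Matrix.mul_assoc, dn_sg]
        · simp only [Matrix.zero_mul, Matrix.mul_zero, add_zero, zero_add]
          rw [Matrix.sub_mul, Matrix.mul_assoc, Matrix.smul_mul, dn_sg, vecMulVec_mul]
          have e4 : en k * N + vecMulVec ![0, 1] (eps ᵥ* w) =
              (N 1 1 + (eps ᵥ* w) 1) • en k := by
            ext i j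
            rw [Matrix.add_apply, Matrix.smul_apply, vecMulVec_apply]
            fin_cases i
            · show (en k * N) 0 j + (![0, 1] : Fin 2 → k) 0 * _ = _ • en k 0 j
              rw [eL0]
              fin_cases j <;> simp [en]
            · show (en k * N) 1 j + (![0, 1] : Fin 2 → k) 1 * _ = _ • en k 1 j
              rw [eL1]
              fin_cases j
              · simpa [en] using he2
              · simp [en]
          have e5 : en k * N + (nu * en k - (N 1 1 + (eps ᵥ* w) 1) • en k) +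
              vecMulVec ![0, 1] (eps ᵥ* w) = nu * en k + ((en k * N +
              vecMulVec ![0, 1] (eps ᵥ* w)) - (N 1 1 + (eps ᵥ* w) 1) • en k) := by abel
          rw [e5, e4, sub_self, add_zero]
        · rw [Matrix.mul_assoc, dn_sg]
        · simp only [Matrix.zero_mul, Matrix.mul_zero, add_zero, zero_add]
          rw [← Matrix.mul_assoc, y4, Matrix.zero_mul]
        · simp only [Matrix.zero_mul, Matrix.mul_zero, add_zero, zero_add]
          rw [← Matrix.mul_assoc, x1, Matrix.zero_mul, vecMulVec_mul, he1]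
          ext i j
          simp [vecMulVec_apply])
    rw [BX_smul, BX_add] at h
    have h4 := ba0X h h3 (D8.mem0 _ _ _) (D8.mem2 _ _ _) (D8.mem2 _ _ _)
    rw [smul_zero, add_zero, zero_add, Matrix.mul_smul, sg_en] at h4
    exact sg_ne ((smul_eq_zero.1 h4).resolve_left hs)
  have hx : ∃ x : Fin 2 → k, (fun i => w i 0) = pi *ᵥ x := by
    by_contra hne
    obtain ⟨y, hy1, hy2⟩ := sepR pi _ hne
    have e6 : (y ᵥ* w) 0 = y ⬝ᵥ (fun i => w i 0) := rfl
    refine key ⟨(-(N 1 0) / (y ⬝ᵥ fun i => w i 0)) • y, ?_, ?_⟩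
    · rw [smul_vecMul, hy1, smul_zero]
    · rw [smul_vecMul, Pi.smul_apply, e6, smul_eq_mul, div_mul_cancel₀ _ hy2, add_neg_cancel]
  have hn : N 1 0 ≠ 0 := by
    intro hn
    exact key ⟨0, zero_vecMul _, by rw [zero_vecMul, hn]; simp⟩
  refine ⟨?_, hx⟩
  obtain ⟨x, hx⟩ := hx
  have e7 : (et * w) 0 0 = 0 := by
    have e8 : (et * w) 0 0 = (et *ᵥ fun i => w i 0) 0 := rfl
    rw [e8, hx, mulVec_mulVec, x1, zero_mulVec]
    rfl
  intro h9
  rw [e7, h9] at h0
  exact hn (by linear_combination (-1 / 3) * h0)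

theorem caseQ2 (h2 : ρ 2 ≤ 2) (h3 : ρ 3 = 0)
    (hT : MaxR ρ ![JX k 2 2 p, BX N M (sg k) c w 0 d nu pi th et,
      BX N' M' 0 c' w' (sg k) d' nu' pi' th' et']) : False := by
  obtain ⟨q1, -, x, hx⟩ := lemQ h2 h3 hT
  have h := MaxR.conjX (g := jn k) (g' := jn k) (h := jn k) (h' := jn k) (l := 1) (l' := 1)
    (D8.MaxR.swap (MaxR.dualX hT)) jn_jn jn_jn (Matrix.mul_one 1)
  simp only [Matrix.transpose_zero, Matrix.mul_zero, Matrix.zero_mul, jn_sg] at h
  have h4 := (lemQ h2 h3 h).2.1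
  refine h4 ?_
  have e3 : jn k * wᵀ * (1 : Matrix (Fin p) (Fin p) k) *
      ((1 : Matrix (Fin p) (Fin p) k) * et'ᵀ * jn k) = jn k * (et' * w)ᵀ * jn k := by
    rw [Matrix.transpose_mul, Matrix.mul_one, Matrix.one_mul]
    simp only [Matrix.mul_assoc]
  rw [e3, jn_11, Matrix.transpose_apply]
  have e8 : (et' * w) 0 0 = (et' *ᵥ fun i => w i 0) 0 := rfl
  rw [e8, hx, mulVec_mulVec, q1, zero_mulVec]
  rfl

/-- all mixed parts are multiples of `E_01` -/
theorem caseR (h2 : ρ 2 ≤ 2) (h3 : ρ 3 = 0) {x x' y y' : k}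
    (hT : MaxR ρ ![JX k 2 2 p, BX N M (x • sg k) c w (y • sg k) d nu pi th et,
      BX N' M' (x' • sg k) c' w' (y' • sg k) d' nu' pi' th' et'])
    (hx : ¬ (x = 0 ∧ x' = 0)) (hy : ¬ (y = 0 ∧ y' = 0)) : False := by
  -- step 3, 4, 5
  have S1 : ∀ {N M N' M' : Matrix (Fin 2) (Fin 2) k} {c c' : Matrix (Fin 2) (Fin 2) k}
      {w w' : Matrix (Fin p) (Fin 2) k} {d d' : Matrix (Fin 2) (Fin 2) k}
      {nu nu' : Matrix (Fin 2) (Fin 2) k} {pi pi' : Matrix (Fin p) (Fin 2) k}
      {th th' : Matrix (Fin 2) (Fin p) k} {et et' : Matrix (Fin 2) (Fin p) k} {x x' y' : k},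
      MaxR ρ ![JX k 2 2 p, BX N M (x • sg k) c w 0 d nu pi th et,
        BX N' M' (x' • sg k) c' w' (y' • sg k) d' nu' pi' th' et'] →
      ¬ (x = 0 ∧ x' = 0) → y' ≠ 0 → False := by
    intro N M N' M' c c' w w' d d' nu nu' pi pi' th th' et et' x x' y' hT hx hy
    by_cases hx0 : x = 0
    · subst hx0
      have hx' : x' ≠ 0 := fun h => hx ⟨rfl, h⟩
      have h := nuRaise h3 (D8.MaxR.swap hT) (D := dn k) (by rw [zero_smul, Matrix.mul_zero])
        (by rw [Matrix.zero_mul])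
      rw [Matrix.mul_smul, Matrix.smul_mul, Matrix.smul_mul, sg_dn_sg, smul_smul] at h
      exact sg_ne ((smul_eq_zero.1 h).resolve_left (mul_ne_zero hx' hy))
    · have h := D8.MaxR.lin hT x⁻¹ 0 (-(x' * x⁻¹ * y'⁻¹)) y'⁻¹ 0 0 0 0 (by
        rw [zero_mul, sub_zero]
        exact mul_ne_zero (inv_ne_zero hx0) (inv_ne_zero hy))
      simp only [zero_smul, add_zero] at h
      rw [BX_smul, BX_smul, BX_smul, BX_add] at h
      have e1 : x⁻¹ • x • sg k = sg k := by rw [smul_smul, inv_mul_cancel₀ hx0, one_smul]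
      have e2 : -(x' * x⁻¹ * y'⁻¹) • x • sg k + y'⁻¹ • x' • sg k = 0 := by
        rw [smul_smul, smul_smul, ← add_smul]
        have : -(x' * x⁻¹ * y'⁻¹) * x + y'⁻¹ * x' = 0 := by
          field_simp
          ring
        rw [this, zero_smul]
      have e3 : -(x' * x⁻¹ * y'⁻¹) • (0 : Matrix (Fin 2) (Fin 2) k) + y'⁻¹ • y' • sg k =
          sg k := by
        rw [smul_zero, zero_add, smul_smul, inv_mul_cancel₀ hy, one_smul]
      rw [e1, e2, e3, smul_zero] at h
      exact caseQ2 h2 h3 h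
  -- step 2
  have S2 : ∀ {N M N' M' : Matrix (Fin 2) (Fin 2) k} {c c' : Matrix (Fin 2) (Fin 2) k}
      {w w' : Matrix (Fin p) (Fin 2) k} {d d' : Matrix (Fin 2) (Fin 2) k}
      {nu nu' : Matrix (Fin 2) (Fin 2) k} {pi pi' : Matrix (Fin p) (Fin 2) k}
      {th th' : Matrix (Fin 2) (Fin p) k} {et et' : Matrix (Fin 2) (Fin p) k} {x x' y y' : k},
      MaxR ρ ![JX k 2 2 p, BX N M (x • sg k) c w (y • sg k) d nu pi th et,
        BX N' M' (x' • sg k) c' w' (y' • sg k) d' nu' pi' th' et'] →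
      ¬ (x = 0 ∧ x' = 0) → y' ≠ 0 → False := by
    intro N M N' M' c c' w w' d d' nu nu' pi pi' th th' et et' x x' y y' hT hx hy
    have h := E1mixAux.addl hT (-(y / y'))
    rw [BX_smul, BX_add] at h
    have e1 : y • sg k + -(y / y') • y' • sg k = 0 := by
      rw [smul_smul, ← add_smul]
      have : y + -(y / y') * y' = 0 := by
        field_simp
        ring
      rw [this, zero_smul]
    have e2 : x • sg k + -(y / y') • x' • sg k = (x - y / y' * x') • sg k := by
      rw [smul_smul, ← add_smul]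
      congr 1
      ring
    rw [e1, e2] at h
    refine S1 h ?_ hy
    rintro ⟨h5, h6⟩
    refine hx ⟨?_, h6⟩
    rw [h6, mul_zero, sub_zero] at h5
    exact h5
  by_cases hy' : y' = 0
  · have hy0 : y ≠ 0 := fun h => hy ⟨h, hy'⟩
    exact S2 (D8.MaxR.swap hT) (fun h => hx ⟨h.2, h.1⟩) hy0
  · exact S2 hT hx hy'

/-- `a b' = - a' b ≠ 0` -/
theorem caseII (h2 : ρ 2 ≤ 2) {a0 a1 a0' a1' b0 b1 b0' b1' : k}
    (hT : MaxR ρ ![JX k 2 2 p, BX N M !![a0, a1; 0, 0] c w !![0, b0; 0, b1] d nu pi th et,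
      BX N' M' !![a0', a1'; 0, 0] c' w' !![0, b0'; 0, b1'] d' nu' pi' th' et']) :
    a0 * b0' + a1 * b1' = 0 := by
  by_contra hlam
  obtain ⟨q1, q2, q3⟩ := prods h2 hT
  have q1' := congrFun (congrFun q1 0) 1
  have q2' := congrFun (congrFun q2 0) 1
  have q3' := congrFun (congrFun q3 0) 1
  simp [Matrix.mul_apply, Fin.sum_univ_two] at q1' q2' q3'
  set lam := a0 * b0' + a1 * b1' with hl
  have e1 : (lam⁻¹ • !![-a0', -a1'; a0, a1]) * !![b0, b0'; b1, b1'] =
      (1 : Matrix (Fin 2) (Fin 2) k) := by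
    rw [Matrix.smul_mul]
    have e2 : !![-a0', -a1'; a0, a1] * !![b0, b0'; b1, b1'] =
        lam • (1 : Matrix (Fin 2) (Fin 2) k) := by
      ext i j
      fin_cases i <;> fin_cases j
      · simp [Matrix.mul_apply, Fin.sum_univ_two]
        linear_combination -q3'
      · simp [Matrix.mul_apply, Fin.sum_univ_two]
        linear_combination -q2'
      · simp [Matrix.mul_apply, Fin.sum_univ_two]
        linear_combination q1'
      · simp [Matrix.mul_apply, Fin.sum_univ_two, hl]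
    rw [e2, smul_smul, inv_mul_cancel₀ hlam, one_smul]
  have e3 := mul_eq_one_comm.1 e1
  rw [Matrix.mul_smul] at e3
  have e4 : !![b0, b0'; b1, b1'] * !![-a0', -a1'; a0, a1] =
      lam • (1 : Matrix (Fin 2) (Fin 2) k) := by
    rw [← e3, smul_smul, mul_inv_cancel₀ hlam, one_smul]
  have key : !![0, b0'; 0, b1'] * dn k * !![a0, a1; 0, 0] -
      !![0, b0; 0, b1] * dn k * !![a0', a1'; 0, 0] = lam • (1 : Matrix (Fin 2) (Fin 2) k) := by
    rw [← e4]
    ext i j
    fin_cases i <;> fin_cases j <;>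
      simp [dn, Matrix.mul_apply, Fin.sum_univ_two] <;> ring
  have h := noE h2 hT (E := !![0, b0'; 0, b1'] * dn k * !![a0', a1'; 0, 0])
    (H := lam⁻¹ • ((!![0, b0'; 0, b1'] * dn k * !![a0', a1'; 0, 0] * N' -
      N' * (!![0, b0'; 0, b1'] * dn k * !![a0', a1'; 0, 0])) * (!![0, b0; 0, b1] * dn k)))
    (H' := lam⁻¹ • ((!![0, b0'; 0, b1'] * dn k * !![a0', a1'; 0, 0] * N' -
      N' * (!![0, b0'; 0, b1'] * dn k * !![a0', a1'; 0, 0])) * (!![0, b0'; 0, b1'] * dn k)))
    ?_ ?_ ?_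
  · have h' := congrFun (congrFun h 0) 1
    have e5 : (!![a0, a1; 0, 0] * (!![0, b0'; 0, b1'] * dn k * !![a0', a1'; 0, 0]) *
        !![0, b0; 0, b1]) 0 1 = lam * (a0' * b0 + a1' * b1) := by
      simp [dn, Matrix.mul_apply, Fin.sum_univ_two, hl]
      ring
    rw [e5] at h'
    have e6 : a0' * b0 + a1' * b1 = -lam := by linear_combination q3'
    rw [e6] at h'
    have e7 : lam * lam = 0 := by
      have : lam * -lam = 0 := h'
      linear_combination -this
    exact hlam (mul_self_eq_zero.1 e7)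
  · rw [← Matrix.mul_assoc, ← Matrix.mul_assoc, q2, Matrix.zero_mul, Matrix.zero_mul]
  · rw [Matrix.mul_assoc, q2, Matrix.mul_zero]
  · set X := !![0, b0'; 0, b1'] * dn k * !![a0', a1'; 0, 0] * N' -
      N' * (!![0, b0'; 0, b1'] * dn k * !![a0', a1'; 0, 0]) with hX
    have e8 : lam⁻¹ • (X * (!![0, b0'; 0, b1'] * dn k)) * !![a0, a1; 0, 0] -
        lam⁻¹ • (X * (!![0, b0; 0, b1] * dn k)) * !![a0', a1'; 0, 0] = X := by
      rw [Matrix.smul_mul, Matrix.smul_mul, ← smul_sub, Matrix.mul_assoc X, Matrix.mul_assoc X,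
        ← Matrix.mul_sub, key, Matrix.mul_smul, Matrix.mul_one, smul_smul,
        inv_mul_cancel₀ hlam, one_smul]
    have e9 : ∀ P Q R S : Matrix (Fin 2) (Fin 2) k, R - S = P - Q → P + S = Q + R := by
      intro P Q R S h
      have : P + S = Q + R + ((P - Q) - (R - S)) := by abel
      rw [this, h, sub_self, add_zero]
    exact e9 _ _ _ _ (e8.trans hX)

/-- the shape after a choice of coordinates in `U` -/
theorem caseS (h2 : ρ 2 ≤ 2) (h3 : ρ 3 = 0) {a0 a1 a0' a1' b0 b1 b0' b1' : k}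
    (hT : MaxR ρ ![JX k 2 2 p, BX N M !![a0, a1; 0, 0] c w !![0, b0; 0, b1] d nu pi th et,
      BX N' M' !![a0', a1'; 0, 0] c' w' !![0, b0'; 0, b1'] d' nu' pi' th' et'])
    (ha : ¬ (!![a0, a1; 0, 0] = (0 : Matrix (Fin 2) (Fin 2) k) ∧
      !![a0', a1'; 0, 0] = (0 : Matrix (Fin 2) (Fin 2) k)))
    (hb : ¬ (!![0, b0; 0, b1] = (0 : Matrix (Fin 2) (Fin 2) k) ∧
      !![0, b0'; 0, b1'] = (0 : Matrix (Fin 2) (Fin 2) k))) : False := by
  obtain ⟨q1, q2, q3⟩ := prods h2 hT
  have q1' := congrFun (congrFun q1 0) 1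
  have q2' := congrFun (congrFun q2 0) 1
  have q3' := congrFun (congrFun q3 0) 1
  simp [Matrix.mul_apply, Fin.sum_univ_two] at q1' q2' q3'
  have q4' := caseII h2 hT
  have q5' : a0' * b0 + a1' * b1 = 0 := by linear_combination q3' - q4'
  -- the column `be`
  obtain ⟨be, hbe, r1, r2⟩ : ∃ be : Fin 2 → k, be ≠ 0 ∧ a0 * be 0 + a1 * be 1 = 0 ∧
      a0' * be 0 + a1' * be 1 = 0 := by
    by_cases hb0 : (![b0, b1] : Fin 2 → k) = 0
    · refine ⟨![b0', b1'], fun h => hb ⟨?_, ?_⟩, by simpa using q4', by simpa using q2'⟩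
      · have z0 := congrFun hb0 0
        have z1 := congrFun hb0 1
        simp at z0 z1
        rw [z0, z1]
        ext i j
        fin_cases i <;> fin_cases j <;> rfl
      · have z0 := congrFun h 0
        have z1 := congrFun h 1
        simp at z0 z1
        rw [z0, z1]
        ext i j
        fin_cases i <;> fin_cases j <;> rfl
    · exact ⟨![b0, b1], hb0, by simpa using q1', by simpa using q5'⟩
  obtain ⟨g, g', hg, hg'⟩ := coord hbe
  have h := MaxR.conjX (g := g) (g' := g') (h := 1) (h' := 1) (l := 1) (l' := 1) hT hg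
    (Matrix.mul_one 1) (Matrix.mul_one 1)
  have hgg : g' * g = 1 := mul_eq_one_comm.1 hg
  have s1 : ∀ x y : k, x * be 0 + y * be 1 = 0 →
      (1 : Matrix (Fin 2) (Fin 2) k) * !![x, y; 0, 0] * g' =
        (x * g' 0 1 + y * g' 1 1) • sg k := by
    intro x y hxy
    rw [Matrix.one_mul]
    ext i j
    fin_cases i <;> fin_cases j
    · simp [sg, Matrix.mul_apply, Fin.sum_univ_two, hg']
      exact hxy
    · simp [sg, Matrix.mul_apply, Fin.sum_univ_two]
    · simp [sg, Matrix.mul_apply, Fin.sum_univ_two]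
    · simp [sg, Matrix.mul_apply, Fin.sum_univ_two]
  have s2 := s1 a0 a1 r1
  have s3 := s1 a0' a1' r2
  have s4 : ¬ (a0 * g' 0 1 + a1 * g' 1 1 = 0 ∧ a0' * g' 0 1 + a1' * g' 1 1 = 0) := by
    rintro ⟨h5, h6⟩
    rw [h5, zero_smul, Matrix.one_mul] at s2
    rw [h6, zero_smul, Matrix.one_mul] at s3
    refine ha ⟨?_, ?_⟩
    · have := congrArg (fun X => X * g) s2
      simpa [Matrix.mul_assoc, hgg] using this
    · have := congrArg (fun X => X * g) s3
      simpa [Matrix.mul_assoc, hgg] using this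
  have s5 : ∀ x y : k, !![a0, a1; 0, 0] * !![0, x; 0, y] = (0 : Matrix (Fin 2) (Fin 2) k) →
      !![a0', a1'; 0, 0] * !![0, x; 0, y] = (0 : Matrix (Fin 2) (Fin 2) k) →
      g * !![0, x; 0, y] * (1 : Matrix (Fin 2) (Fin 2) k) = (g 0 0 * x + g 0 1 * y) • sg k := by
    intro x y h5 h6
    have t1 : ∀ z : k, ∀ A : Matrix (Fin 2) (Fin 2) k, 1 * A * g' = z • sg k →
        A * !![0, x; 0, y] = 0 → z ≠ 0 → (g * !![0, x; 0, y]) 1 1 = 0 := by
      intro z A h7 h8 hz
      rw [Matrix.one_mul] at h7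
      have h9 : A * g' * (g * !![0, x; 0, y]) = 0 := by
        rw [Matrix.mul_assoc A, ← Matrix.mul_assoc g', hgg, Matrix.one_mul, h8]
      rw [h7, Matrix.smul_mul] at h9
      have h10 := congrFun (congrFun h9 0) 1
      rw [Matrix.smul_apply, sL0, smul_eq_mul] at h10
      exact (mul_eq_zero.1 h10).resolve_left hz
    have t2 : (g * !![0, x; 0, y]) 1 1 = 0 := by
      by_cases hz : a0 * g' 0 1 + a1 * g' 1 1 = 0
      · exact t1 _ _ s3 h6 fun hz' => s4 ⟨hz, hz'⟩
      · exact t1 _ _ s2 h5 hz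
    rw [Matrix.mul_one]
    ext i j
    fin_cases i <;> fin_cases j
    · simp [sg, Matrix.mul_apply, Fin.sum_univ_two]
    · simp [sg, Matrix.mul_apply, Fin.sum_univ_two]
    · simp [sg, Matrix.mul_apply, Fin.sum_univ_two]
    · rw [Matrix.smul_apply]
      have : sg k 1 1 = 0 := rfl
      simpa [this] using t2
  have m0 : ∀ x y z t : k, x * z + y * t = 0 →
      !![x, y; 0, 0] * !![0, z; 0, t] = (0 : Matrix (Fin 2) (Fin 2) k) := by
    intro x y z t hxy
    ext i j
    fin_cases i <;> fin_cases j <;> simp [Matrix.mul_apply, Fin.sum_univ_two, hxy]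
  have s6 := s5 b0 b1 (m0 _ _ _ _ q1') (m0 _ _ _ _ q5')
  have s7 := s5 b0' b1' (m0 _ _ _ _ q4') (m0 _ _ _ _ q2')
  rw [s2, s3, s6, s7] at h
  refine caseR h2 h3 h s4 ?_
  rintro ⟨h5, h6⟩
  rw [h5, zero_smul, Matrix.mul_one] at s6
  rw [h6, zero_smul, Matrix.mul_one] at s7
  refine hb ⟨?_, ?_⟩
  · have := congrArg (fun X => g' * X) s6
    simpa [← Matrix.mul_assoc, hgg] using this
  · have := congrArg (fun X => g' * X) s7
    simpa [← Matrix.mul_assoc, hgg] using this

end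

end Mix2Aux

open Mix2Aux in
theorem mix2 {k : Type*} [Field k] [CharZero k] {p : ℕ} {ρ : ℕ → ℕ}
    (h1 : ρ 1 ≤ 6) (h2 : ρ 2 ≤ 2) (h3 : ρ 3 = 0)
    {N M N' M' : Matrix (Fin 2) (Fin 2) k} {a c a' c' : Matrix (Fin 2) (Fin 2) k}
    {w w' : Matrix (Fin p) (Fin 2) k} {b d b' d' : Matrix (Fin 2) (Fin 2) k}
    {nu nu' : Matrix (Fin 2) (Fin 2) k} {pi pi' : Matrix (Fin p) (Fin 2) k}
    {th th' : Matrix (Fin 2) (Fin p) k} {et et' : Matrix (Fin 2) (Fin p) k}
    (hT : MaxR ρ ![JX k 2 2 p, BX N M a c w b d nu pi th et,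
      BX N' M' a' c' w' b' d' nu' pi' th' et']) :
    (a = 0 ∧ a' = 0) ∨ (b = 0 ∧ b' = 0) := by
  by_contra hne
  rw [not_or] at hne
  obtain ⟨hna, hnb⟩ := hne
  have z1 := ba0X hT h3 (D8.mem0 _ _ _) (D8.mem1 _ _ _) (D8.mem1 _ _ _)
  have z2 := ba0X hT h3 (D8.mem0 _ _ _) (D8.mem1 _ _ _) (D8.mem2 _ _ _)
  have z3 := ba0X hT h3 (D8.mem0 _ _ _) (D8.mem2 _ _ _) (D8.mem1 _ _ _)
  have z4 := ba0X hT h3 (D8.mem0 _ _ _) (D8.mem2 _ _ _) (D8.mem2 _ _ _)
  -- the column `al`
  obtain ⟨al, hal, r1, r2⟩ : ∃ al : Fin 2 → k, al ≠ 0 ∧ b *ᵥ al = 0 ∧ b' *ᵥ al = 0 := by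
    by_cases ha : a = 0
    · have ha' : a' ≠ 0 := fun h => hna ⟨ha, h⟩
      obtain ⟨al, h1, h2⟩ := MixP0Aux.factor ha'
      exact ⟨al, h1, h2 b z2, h2 b' z4⟩
    · obtain ⟨al, h1, h2⟩ := MixP0Aux.factor ha
      exact ⟨al, h1, h2 b z1, h2 b' z3⟩
  obtain ⟨g, g', hg, hg'⟩ := coord hal
  have h := MaxR.conjX (g := 1) (g' := 1) (h := g) (h' := g') (l := 1) (l' := 1) hT
    (Matrix.mul_one 1) hg (Matrix.mul_one 1)
  have hgg : g' * g = 1 := mul_eq_one_comm.1 hg
  -- the matrices `b g'`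
  have s1 : ∀ X : Matrix (Fin 2) (Fin 2) k, X *ᵥ al = 0 →
      1 * X * g' = !![0, (X * g') 0 1; 0, (X * g') 1 1] := by
    intro X hX
    have e1 : ∀ i, (X * g') i 0 = 0 := by
      intro i
      have e2 := congrFun hX i
      simp only [Matrix.mulVec, dotProduct] at e2
      rw [Matrix.mul_apply]
      simp only [hg']
      exact e2
    rw [Matrix.one_mul]
    ext i j
    fin_cases i <;> fin_cases j
    · simpa using e1 0
    · simp
    · simpa using e1 1
    · simp
  have s2 := s1 b r1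
  have s3 := s1 b' r2
  have s4 : ¬ (1 * b * g' = 0 ∧ 1 * b' * g' = 0) := by
    rintro ⟨h5, h6⟩
    rw [Matrix.one_mul] at h5 h6
    refine hnb ⟨?_, ?_⟩
    · have := congrArg (fun X => X * g) h5
      simpa [Matrix.mul_assoc, hgg] using this
    · have := congrArg (fun X => X * g) h6
      simpa [Matrix.mul_assoc, hgg] using this
  have s5 : ∀ X : Matrix (Fin 2) (Fin 2) k, b * X = 0 → b' * X = 0 →
      g * X * 1 = !![(g * X) 0 0, (g * X) 0 1; 0, 0] := by
    intro X h5 h6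
    have t1 : ∀ Y : Matrix (Fin 2) (Fin 2) k, 1 * Y * g' = !![0, (Y * g') 0 1; 0, (Y * g') 1 1] →
        Y * X = 0 → 1 * Y * g' ≠ 0 → ∀ j, (g * X) 1 j = 0 := by
      intro Y h7 h8 h9 j
      have h10 : 1 * Y * g' * (g * X) = 0 := by
        rw [Matrix.one_mul, Matrix.mul_assoc, ← Matrix.mul_assoc g', hgg, Matrix.one_mul, h8]
      rw [h7] at h10
      have h11 := congrFun (congrFun h10 0) j
      have h12 := congrFun (congrFun h10 1) j
      simp only [Matrix.mul_apply (M := !![0, (Y * g') 0 1; 0, (Y * g') 1 1]),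
        Fin.sum_univ_two] at h11 h12
      simp at h11 h12
      by_contra hc
      refine h9 ?_
      rw [h7, h11.resolve_right hc, h12.resolve_right hc]
      ext i j
      fin_cases i <;> fin_cases j <;> rfl
    have t2 : ∀ j, (g * X) 1 j = 0 := by
      by_cases hz : 1 * b * g' = 0
      · exact t1 _ s3 h6 fun hz' => s4 ⟨hz, hz'⟩
      · exact t1 _ s2 h5 hz
    rw [Matrix.mul_one]
    ext i j
    fin_cases i <;> fin_cases j
    · simp
    · simp
    · simpa using t2 0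
    · simpa using t2 1
  have s6 := s5 a z1 z3
  have s7 := s5 a' z2 z4
  rw [s2, s3] at s4
  rw [s2, s3, s6, s7] at h
  refine caseS h2 h3 h ?_ s4
  rw [← s6, ← s7]
  rintro ⟨h5, h6⟩
  rw [Matrix.mul_one] at h5 h6
  refine hna ⟨?_, ?_⟩
  · have := congrArg (fun X => g' * X) h5
    simpa [← Matrix.mul_assoc, hgg] using this
  · have := congrArg (fun X => g' * X) h6
    simpa [← Matrix.mul_assoc, hgg] using this

end Pool.Agent.Lib.D13
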