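import Pool.Agent.Lib.D13.GenCnt

/-!
# The bound by leading monomials (MP_5dcbc3_ag)

Let `x` be a finite family of elements of an extension `K` of a field `k`, with positive weights.
Suppose that certain monomials in `x` are linear combinations over `k` of monomials of smaller
weight. If every set of more than `r` indices contains the support of one of these monomials, then
the transcendence degree of `k(x)` is at most `r`.
-/

namespace Pool.Agent.Lib.D13

open Finset

namespace Mono

variable {k K : Type*} [Field k] [Field K] [Algebra k K] {σ : Type*} [Fintype σ]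

/-- the monomial with the exponents `e` -/
def mon (x : σ → K) (e : σ → ℕ) : K := ∏ i, x i ^ e i

/-- the weight of the exponents `e` -/
def wt (w : σ → ℕ) (e : σ → ℕ) : ℕ := ∑ i, w i * e i

theorem mon_add (x : σ → K) (a b : σ → ℕ) : mon x (a + b) = mon x a * mon x b := by
  simp [mon, pow_add, Finset.prod_mul_distrib]

theorem wt_add (w : σ → ℕ) (a b : σ → ℕ) : wt w (a + b) = wt w a + wt w b := by
  simp [wt, mul_add, Finset.sum_add_distrib]

theorem mem_span_std {ι : Type*} (x : σ → K) (w : σ → ℕ) (m : ι → σ → ℕ)
    (hm : ∀ i, mon x (m i) ∈ Submodule.span k {y | ∃ a, wt w a < wt w (m i) ∧ mon x a = y}) :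
    ∀ n e, wt w e ≤ n →
      mon x e ∈ Submodule.span k (mon x '' {s | wt w s ≤ n ∧ ∀ i, ¬ m i ≤ s}) := by
  intro n
  induction n using Nat.strong_induction_on with
  | _ n ih =>
    intro e he
    by_cases hs : ∀ i, ¬ m i ≤ e
    · exact Submodule.subset_span ⟨e, ⟨he, hs⟩, rfl⟩
    push Not at hs
    obtain ⟨i, hi⟩ := hs
    obtain ⟨c, rfl⟩ : ∃ c, e = m i + c := ⟨e - m i, by
      funext j
      have h0 : m i j ≤ e j := hi j
      exact (Nat.add_sub_cancel' h0).symm⟩
    rw [mon_add]
    have h1 : ∀ y ∈ Submodule.span k {y | ∃ a, wt w a < wt w (m i) ∧ mon x a = y},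
        y * mon x c ∈ Submodule.span k (mon x '' {s | wt w s ≤ n ∧ ∀ i, ¬ m i ≤ s}) := by
      intro y hy
      induction hy using Submodule.span_induction with
      | mem y hy =>
        obtain ⟨a, ha, rfl⟩ := hy
        rw [← mon_add]
        have h2 : wt w (a + c) < n := by
          rw [wt_add] at he ⊢
          omega
        refine Submodule.span_mono ?_ (ih (wt w (a + c)) h2 (a + c) le_rfl)
        refine Set.image_mono fun s hs => ⟨?_, hs.2⟩
        exact hs.1.trans h2.le
      | zero => rw [zero_mul]; exact zero_mem _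
      | add y z _ _ h2 h3 => rw [add_mul]; exact add_mem h2 h3
      | smul c' y _ h2 => rw [smul_mul_assoc]; exact Submodule.smul_mem _ _ h2
    exact h1 _ (hm i)

/-- the number of the standard monomials -/
theorem card_std {ι : Type*} [DecidableEq σ] (w : σ → ℕ) (hw : ∀ j, 0 < w j) (m : ι → σ → ℕ)
    (E r : ℕ) (hE : ∀ i j, m i j ≤ E)
    (hr : ∀ S : Finset σ, r < S.card → ∃ i, ∀ j, m i j ≠ 0 → j ∈ S) (n : ℕ) :
    ∃ F : Finset (σ → ℕ), {s | wt w s ≤ n ∧ ∀ i, ¬ m i ≤ s} ⊆ (F : Set (σ → ℕ)) ∧
      F.card ≤ 2 ^ Fintype.card σ * (E + 1) ^ Fintype.card σ * (n + 1) ^ r := by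
  classical
  refine ⟨((univ : Finset (Finset σ)).filter fun S => S.card ≤ r).biUnion fun S =>
    Fintype.piFinset fun j => if j ∈ S then range (n + 1) else range (E + 1), ?_, ?_⟩
  · intro s hs
    rw [Finset.mem_coe, Finset.mem_biUnion]
    refine ⟨univ.filter fun j => E ≤ s j, ?_, ?_⟩
    · rw [Finset.mem_filter]
      refine ⟨mem_univ _, ?_⟩
      by_contra hc
      push Not at hc
      obtain ⟨i, hi⟩ := hr _ hc
      refine hs.2 i fun j => ?_
      by_cases hj : m i j = 0
      · rw [hj]
        exact Nat.zero_le _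
      · exact (hE i j).trans (Finset.mem_filter.1 (hi j hj)).2
    · rw [Fintype.mem_piFinset]
      intro j
      have h1 : s j ≤ n := by
        have h2 : w j * s j ≤ wt w s :=
          Finset.single_le_sum (f := fun i => w i * s i) (fun i _ => Nat.zero_le _) (mem_univ j)
        have h3 : s j ≤ w j * s j := Nat.le_mul_of_pos_left _ (hw j)
        exact h3.trans (h2.trans hs.1)
      split_ifs with h
      · exact Finset.mem_range.2 (by omega)
      · rw [Finset.mem_filter] at h
        push Not at h
        have := h (mem_univ _)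
        exact Finset.mem_range.2 (by omega)
  · refine (Finset.card_biUnion_le).trans ?_
    have h1 : ∀ S ∈ (univ : Finset (Finset σ)).filter fun S => S.card ≤ r,
        (Fintype.piFinset fun j => if j ∈ S then range (n + 1) else range (E + 1)).card ≤
          (E + 1) ^ Fintype.card σ * (n + 1) ^ r := by
      intro S hS
      rw [Fintype.card_piFinset]
      have h2 : ∀ j, (if j ∈ S then range (n + 1) else range (E + 1)).card ≤
          (E + 1) * (if j ∈ S then n + 1 else 1) := by
        intro j
        split_ifs
        · rw [Finset.card_range]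
          nlinarith
        · rw [Finset.card_range]
          omega
      refine (Finset.prod_le_prod' fun j _ => h2 j).trans ?_
      rw [Finset.prod_mul_distrib, Finset.prod_const, Finset.card_univ,
        Finset.prod_ite_mem, Finset.univ_inter, Finset.prod_const]
      gcongr
      · omega
      · exact (Finset.mem_filter.1 hS).2
    refine (Finset.sum_le_card_nsmul _ _ _ h1).trans ?_
    rw [smul_eq_mul, mul_assoc]
    gcongr
    refine (Finset.card_filter_le _ _).trans ?_
    rw [Finset.card_univ, Fintype.card_finset]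

end Mono

open Mono

/-- **The bound by leading monomials** -/
theorem rk_le_of_mono {k K : Type*} [Field k] [Field K] [Algebra k K] {σ ι : Type*} [Fintype σ]
    (x : σ → K) (w : σ → ℕ) (hw : ∀ j, 0 < w j) (m : ι → σ → ℕ) (E r : ℕ) (hE : ∀ i j, m i j ≤ E)
    (hm : ∀ i, mon x (m i) ∈ Submodule.span k {y | ∃ a, wt w a < wt w (m i) ∧ mon x a = y})
    (hr : ∀ S : Finset σ, r < S.card → ∃ i, ∀ j, m i j ≠ 0 → j ∈ S) :
    rk k (Set.range x) ≤ r := by
  classical
  by_contra hc
  push Not at hc
  -- an independent subset of `r + 1` elements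
  obtain ⟨I, hI⟩ := (AlgebraicIndependent.matroid k K).exists_isBasis' (Set.range x)
  have hIcard : (r : ℕ∞) + 1 ≤ I.encard := by
    rw [hI.encard_eq_eRk]
    exact Order.add_one_le_of_lt hc
  obtain ⟨J, hJI, hJcard⟩ := Set.exists_subset_encard_eq hIcard
  have hJfin : J.Finite := Set.finite_of_encard_eq_coe (k := r + 1) (by rw [hJcard]; norm_cast)
  have hJind : AlgebraicIndependent k ((↑) : J → K) :=
    AlgebraicIndependent.matroid_indep_iff.1 (hI.indep.subset hJI)
  have := hJfin.fintype
  have hJc : Fintype.card J = r + 1 := by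
    have h1 := hJcard
    rw [Set.encard_eq_coe_toFinset_card, Set.toFinset_card] at h1
    exact_mod_cast h1
  have hJx : ∀ a : J, ∃ j, x j = a := fun a => hI.subset (hJI a.2)
  choose g hg using hJx
  -- the monomials
  have key : ∀ q : ℕ, (q + 1) ^ (r + 1) ≤
      2 ^ Fintype.card σ * (E + 1) ^ Fintype.card σ * (q * (∑ a : J, w (g a)) + 1) ^ r := by
    intro q
    let v : (J → Fin (q + 1)) → K := fun e => ∏ a : J, (a : K) ^ (e a : ℕ)
    have hv : LinearIndependent k v := by
      have h1 : LinearIndependent k fun e : J →₀ ℕ =>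
          (MvPolynomial.aeval ((↑) : J → K)).toLinearMap (MvPolynomial.monomial e (1 : k)) := by
        have h2 := (MvPolynomial.basisMonomials J k).linearIndependent
        rw [MvPolynomial.coe_basisMonomials] at h2
        exact h2.map' _ (LinearMap.ker_eq_bot.2 hJind)
      have h3 := h1.comp (fun e : J → Fin (q + 1) =>
        Finsupp.equivFunOnFinite.symm fun a => (e a : ℕ)) (by
          intro e e' h
          have h4 := Finsupp.equivFunOnFinite.symm.injective h
          funext a
          exact Fin.ext (congrFun h4 a))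
      convert h3 using 1
      funext e
      simp only [Function.comp_apply, AlgHom.toLinearMap_apply, MvPolynomial.aeval_monomial, v,
        map_one, one_mul]
      rw [Finsupp.prod_fintype _ _ fun i => pow_zero _]
      rfl
    obtain ⟨F, hF, hFc⟩ := card_std w hw m E r hE hr (q * (∑ a : J, w (g a)))
    have h5 : Set.range v ⊆
        Submodule.span k (((F.image (mon x) : Finset K) : Set K)) := by
      rintro _ ⟨e, rfl⟩
      let e' : σ → ℕ := fun j => ∑ a : J, if g a = j then (e a : ℕ) else 0
      have h6 : v e = mon x e' := by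
        simp only [v, mon, e']
        have h7 : ∀ j, x j ^ (∑ a : J, if g a = j then (e a : ℕ) else 0) =
            ∏ a : J, x j ^ (if g a = j then (e a : ℕ) else 0) := fun j =>
          (Finset.prod_pow_eq_pow_sum _ _ _).symm
        rw [Finset.prod_congr rfl fun j _ => h7 j, Finset.prod_comm]
        refine Finset.prod_congr rfl fun a _ => ?_
        rw [Finset.prod_eq_single (g a)]
        · rw [if_pos rfl, hg]
        · intro j _ hj
          rw [if_neg (Ne.symm hj), pow_zero]
        · intro h
          exact absurd (mem_univ _) h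
      have h8 : wt w e' ≤ q * (∑ a : J, w (g a)) := by
        simp only [wt, e', Finset.mul_sum]
        rw [Finset.sum_comm]
        refine Finset.sum_le_sum fun a _ => ?_
        rw [Finset.sum_eq_single (g a)]
        · rw [if_pos rfl, mul_comm]
          have := (e a).2
          gcongr
          omega
        · intro j _ hj
          rw [if_neg (Ne.symm hj), mul_zero]
        · intro h
          exact absurd (mem_univ _) h
      rw [h6]
      refine Submodule.span_mono ?_ (mem_span_std x w m hm _ e' h8)
      rw [Finset.coe_image]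
      exact Set.image_mono hF
    have h9 := linearIndependent_le_span' v hv _ h5
    rw [Cardinal.mk_fintype] at h9
    have h10 : Fintype.card (J → Fin (q + 1)) ≤
        Fintype.card ((F.image (mon x) : Finset K) : Set K) := by exact_mod_cast h9
    rw [Fintype.card_fun, Fintype.card_fin, hJc] at h10
    have h11 : Fintype.card (F.image (mon x)) ≤ F.card := by
      rw [Fintype.card_coe]
      exact Finset.card_image_le
    exact h10.trans (h11.trans hFc)
  set W := ∑ a : J, w (g a)
  set C := 2 ^ Fintype.card σ * (E + 1) ^ Fintype.card σ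
  have h1 := key (C * (W + 1) ^ r)
  set q := C * (W + 1) ^ r with hq
  have h2 : q * W + 1 ≤ (q + 1) * (W + 1) := by nlinarith
  have h3 : C * (q * W + 1) ^ r ≤ q * (q + 1) ^ r := by
    calc C * (q * W + 1) ^ r ≤ C * ((q + 1) * (W + 1)) ^ r := by gcongr
      _ = q * (q + 1) ^ r := by rw [mul_pow, hq]; ring
  have h4 : q * (q + 1) ^ r < (q + 1) ^ (r + 1) := by
    rw [pow_succ, mul_comm]
    have : 0 < (q + 1) ^ r := by positivity
    gcongr
    omega
  omega

/-! ### relative form -/

theorem rk_union_le_rel {k K : Type*} [Field k] [Field K] [Algebra k K] (t s : Set K) :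
    rk k (t ∪ s) ≤ rk k t + rk (FF k t) s := by
  obtain ⟨J, hJ⟩ := (AlgebraicIndependent.matroid (FF k t) K).exists_isBasis' s
  have h1 : s ⊆ (AlgebraicIndependent.matroid (FF k t) K).closure J := by
    intro a ha
    rw [hJ.closure_eq_closure]
    exact (AlgebraicIndependent.matroid (FF k t) K).mem_closure_of_mem' ha (by simp)
  have h2 : s ⊆ FF k (t ∪ J) := by
    intro a ha
    have h3 : a ∈ FF (FF k t) J := by
      rw [← SetLike.mem_coe, coe_FF]
      exact h1 ha
    obtain ⟨p, hp0, hp⟩ := mem_FF.1 h3
    have h4 : ∀ b ∈ IntermediateField.adjoin (FF k t) J, b ∈ FF k (t ∪ J) := by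
      intro b hb
      have h5 : (IntermediateField.adjoin (FF k t) J).toSubfield ≤ (FF k (t ∪ J)).toSubfield := by
        rw [IntermediateField.adjoin_toSubfield]
        rw [Subfield.closure_le]
        rintro c (⟨d, rfl⟩ | hc)
        · exact FF_mono Set.subset_union_left d.2
        · exact subset_FF _ (Or.inr hc)
      exact h5 hb
    refine root_mem_FF (p.map (algebraMap _ K)) (fun i => ?_) ?_ ?_
    · rw [Polynomial.coeff_map]
      exact h4 _ (p.coeff i).2
    · exact (Polynomial.map_ne_zero_iff (FaithfulSMul.algebraMap_injective _ K)).2 hp0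
    · rw [Polynomial.eval_map_algebraMap]
      exact hp
  calc rk k (t ∪ s) ≤ rk k (t ∪ J) := by
        refine rk_le (Set.union_subset ?_ h2)
        exact Set.subset_union_left.trans (subset_FF _)
    _ ≤ rk k t + J.encard := rk_union_le_encard t J
    _ = rk k t + rk (FF k t) s := by rw [hJ.encard_eq_eRk]; rfl

namespace Mono

variable {k K : Type*} [Field k] [Field K] [Algebra k K] {σ : Type*} [Fintype σ]

variable (k) in
/-- the combinations of the monomials of weight less than `n` -/
def Low (x : σ → K) (w : σ → ℕ) (n : ℕ) : Submodule k K :=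
  Submodule.span k {y | ∃ a, wt w a < n ∧ mon x a = y}

theorem mon_zero (x : σ → K) : mon x 0 = 1 := by simp [mon]

theorem wt_zero (w : σ → ℕ) : wt w 0 = 0 := by simp [wt]

theorem mon_ind [DecidableEq σ] (x : σ → K) (M : Finset σ) :
    mon x (fun j => if j ∈ M then 1 else 0) = ∏ j ∈ M, x j := by
  simp only [mon, pow_ite, pow_one, pow_zero]
  rw [Finset.prod_ite_mem, Finset.univ_inter]

theorem wt_ind [DecidableEq σ] (w : σ → ℕ) (M : Finset σ) :
    wt w (fun j => if j ∈ M then 1 else 0) = ∑ j ∈ M, w j := by
  simp only [wt, mul_ite, mul_one, mul_zero]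
  rw [Finset.sum_ite_mem, Finset.univ_inter]

theorem mon_mem_low (x : σ → K) (w : σ → ℕ) {n : ℕ} {a : σ → ℕ} (h : wt w a < n) :
    mon x a ∈ Low k x w n := Submodule.subset_span ⟨a, h, rfl⟩

theorem low_mono (x : σ → K) (w : σ → ℕ) {n n' : ℕ} (h : n ≤ n') : Low k x w n ≤ Low k x w n' :=
  Submodule.span_mono fun _ ⟨a, ha, hy⟩ => ⟨a, ha.trans_le h, hy⟩

theorem algebraMap_mem_low (x : σ → K) (w : σ → ℕ) {n : ℕ} (hn : 0 < n) (c : k) :
    algebraMap k K c ∈ Low k x w n := by
  have h := Submodule.smul_mem _ c (mon_mem_low (k := k) x w (a := 0) (by rwa [wt_zero]))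
  rwa [mon_zero, ← Algebra.algebraMap_eq_smul_one] at h

theorem var_mem_low (x : σ → K) (w : σ → ℕ) {n : ℕ} (i : σ) (h : w i < n) :
    x i ∈ Low k x w n := by
  classical
  have h1 := mon_mem_low (k := k) x w (a := fun j => if j ∈ ({i} : Finset σ) then 1 else 0)
    (n := n) (by rwa [wt_ind, Finset.sum_singleton])
  rwa [mon_ind, Finset.prod_singleton] at h1

theorem mul_mem_low (x : σ → K) (w : σ → ℕ) {n : ℕ} (i j : σ) (h : w i + w j < n) :
    x i * x j ∈ Low k x w n := by
  classical
  have h1 := mon_mem_low (k := k) x w (a := (fun l => if l ∈ ({i} : Finset σ) then 1 else 0) +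
    fun l => if l ∈ ({j} : Finset σ) then 1 else 0)
    (n := n) (by rwa [wt_add, wt_ind, wt_ind, Finset.sum_singleton, Finset.sum_singleton])
  rwa [mon_add, mon_ind, mon_ind, Finset.prod_singleton, Finset.prod_singleton] at h1

end Mono

/-- if every leading monomial is a product of distinct letters and these products have no common
letter, every one of them lowers the transcendence degree by one -/
theorem rk_le_of_mono_disj {k K : Type*} [Field k] [Field K] [Algebra k K] {σ ι : Type*}
    [Fintype σ] [Fintype ι] [DecidableEq σ] (x : σ → K) (w : σ → ℕ) (hw : ∀ j, 0 < w j)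
    (M : ι → Finset σ) (hM : ∀ i, (M i).Nonempty) (hd : ∀ i i', i ≠ i' → Disjoint (M i) (M i'))
    (hm : ∀ i, ∏ j ∈ M i, x j ∈ Low k x w (∑ j ∈ M i, w j)) :
    rk k (Set.range x) + Fintype.card ι ≤ Fintype.card σ := by
  choose g hg using hM
  have hginj : Function.Injective g := by
    intro i i' h
    by_contra hne
    exact Finset.disjoint_left.1 (hd i i' hne) (hg i) (h ▸ hg i')
  have hle : Fintype.card ι ≤ Fintype.card σ := Fintype.card_le_of_injective g hginj
  have h1 := rk_le_of_mono (k := k) x w hw (fun (i : ι) j => if j ∈ M i then 1 else 0) 1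
    (Fintype.card σ - Fintype.card ι) (fun i j => by split_ifs <;> omega)
    (fun i => by rw [mon_ind, wt_ind]; exact hm i) (fun S hS => by
      by_contra hc
      push Not at hc
      have h2 : ∀ i, ∃ j, j ∈ M i ∧ j ∉ S := by
        intro i
        obtain ⟨j, hj, hjS⟩ := hc i
        refine ⟨j, ?_, hjS⟩
        by_contra h
        exact hj (if_neg h)
      choose g' hg' hgS using h2
      have h3 : Function.Injective g' := by
        intro i i' h
        by_contra hne
        exact Finset.disjoint_left.1 (hd i i' hne) (hg' i) (h ▸ hg' i')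
      have h4 : (Finset.univ.image g').card = Fintype.card ι := by
        rw [Finset.card_image_of_injective _ h3, Finset.card_univ]
      have h5 : Disjoint (Finset.univ.image g') S := by
        rw [Finset.disjoint_left]
        intro j hj hjS
        obtain ⟨i, -, rfl⟩ := Finset.mem_image.1 hj
        exact hgS i hjS
      have h6 : (Finset.univ.image g' ∪ S).card ≤ Fintype.card σ := Finset.card_le_univ _
      rw [Finset.card_union_of_disjoint h5, h4] at h6
      omega)
  calc rk k (Set.range x) + Fintype.card ι
      ≤ ((Fintype.card σ - Fintype.card ι : ℕ) : ℕ∞) + Fintype.card ι := by gcongr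
    _ = Fintype.card σ := by
        rw [← Nat.cast_add]
        congr 1
        omega

/-- **A leaf of a case tree**: `t` holds the units, `x` the other letters, and for every `i` a
relation with the leading monomial `u * ∏ j ∈ M i, x j`, where `u ≠ 0` is algebraic over `k(t)` -/
theorem rk_le_leaf {k K : Type*} [Field k] [Field K] [Algebra k K] {σ ι : Type*}
    [Fintype σ] [Fintype ι] [DecidableEq σ] (t : Set K) (x : σ → K) (w : σ → ℕ)
    (hw : ∀ j, 0 < w j) (M : ι → Finset σ) (hM : ∀ i, (M i).Nonempty)
    (hd : ∀ i i', i ≠ i' → Disjoint (M i) (M i'))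
    (hm : ∀ i, ∃ u ∈ FF k t, u ≠ 0 ∧ u * ∏ j ∈ M i, x j ∈ Low (FF k t) x w (∑ j ∈ M i, w j)) :
    rk k (t ∪ Set.range x) + Fintype.card ι ≤ rk k t + Fintype.card σ := by
  have h1 := rk_le_of_mono_disj (k := FF k t) x w hw M hM hd (fun i => by
    obtain ⟨u, hu, hu0, h⟩ := hm i
    have h2 := Submodule.smul_mem _ (⟨u, hu⟩ : FF k t)⁻¹ h
    have h3 : (⟨u, hu⟩ : FF k t)⁻¹ • (u * ∏ j ∈ M i, x j) = ∏ j ∈ M i, x j := by
      rw [IntermediateField.smul_def, smul_eq_mul, ← mul_assoc]
      have : (((⟨u, hu⟩ : FF k t)⁻¹ : FF k t) : K) = u⁻¹ := rfl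
      rw [this, inv_mul_cancel₀ hu0, one_mul]
    rwa [h3] at h2)
  calc rk k (t ∪ Set.range x) + Fintype.card ι
      ≤ rk k t + rk (FF k t) (Set.range x) + Fintype.card ι := by
        gcongr
        exact rk_union_le_rel t _
    _ ≤ rk k t + Fintype.card σ := by
        rw [add_assoc]
        gcongr

end Pool.Agent.Lib.D13
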