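import Pool.Agent.Lib.D8.UtilB

/-!
# MP_5dcbc3_ag: products of four elements
-/

set_option autoImplicit false

namespace Pool.Agent.Lib.D13

open Matrix Pool.Agent.Lib.Q5dc Pool.Agent.Lib.D7 Pool.Agent.Lib.D8

variable {k : Type*} [Field k] {n : Type*} [Fintype n] [DecidableEq n] {ρ : ℕ → ℕ}

/-- if `ρ 4 = 0`, the products of four elements vanish -/
theorem mul4 [CharZero k] {T : Fin 3 → Matrix n n k} (hT : MaxR ρ T) (h4 : ρ 4 = 0)
    {X Y Z W : Matrix n n k} (hX : X ∈ adj T) (hY : Y ∈ adj T) (hZ : Z ∈ adj T)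
    (hW : W ∈ adj T) : X * Y * Z * W = 0 := by
  have four : ∀ X ∈ adj T, X ^ 4 = 0 := fun X hX => hT.pow_eq_zero hX h4
  have hcomm : ∀ a ∈ (adj T : Set (Matrix n n k)), ∀ b ∈ (adj T : Set (Matrix n n k)),
      a * b = b * a := fun a ha b hb => hT.cn.comm ha hb
  letI : CommRing (Algebra.adjoin k (adj T : Set (Matrix n n k))) :=
    Algebra.adjoinCommRingOfComm k hcomm
  have key : ∀ x y z w : Algebra.adjoin k (adj T : Set (Matrix n n k)),
      (24 : Algebra.adjoin k (adj T : Set (Matrix n n k))) * (x * y * z * w) =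
      (x + y + z + w) ^ 4 - (x + y + z) ^ 4 - (x + y + w) ^ 4 - (x + z + w) ^ 4 -
      (y + z + w) ^ 4 + (x + y) ^ 4 + (x + z) ^ 4 + (x + w) ^ 4 + (y + z) ^ 4 + (y + w) ^ 4 +
      (z + w) ^ 4 - x ^ 4 - y ^ 4 - z ^ 4 - w ^ 4 := by
    intro x y z w
    ring
  have hs := Algebra.subset_adjoin (R := k) (s := (adj T : Set (Matrix n n k)))
  have h := key ⟨X, hs hX⟩ ⟨Y, hs hY⟩ ⟨Z, hs hZ⟩ ⟨W, hs hW⟩
  have h' := congrArg (fun a : Algebra.adjoin k (adj T : Set (Matrix n n k)) =>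
    (a : Matrix n n k)) h
  have e : (24 : Matrix n n k) * (X * Y * Z * W) =
      (X + Y + Z + W) ^ 4 - (X + Y + Z) ^ 4 - (X + Y + W) ^ 4 - (X + Z + W) ^ 4 -
      (Y + Z + W) ^ 4 + (X + Y) ^ 4 + (X + Z) ^ 4 + (X + W) ^ 4 + (Y + Z) ^ 4 + (Y + W) ^ 4 +
      (Z + W) ^ 4 - X ^ 4 - Y ^ 4 - Z ^ 4 - W ^ 4 := h'
  rw [four _ (add_mem (add_mem (add_mem hX hY) hZ) hW), four _ (add_mem (add_mem hX hY) hZ),
    four _ (add_mem (add_mem hX hY) hW), four _ (add_mem (add_mem hX hZ) hW),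
    four _ (add_mem (add_mem hY hZ) hW), four _ (add_mem hX hY), four _ (add_mem hX hZ),
    four _ (add_mem hX hW), four _ (add_mem hY hZ), four _ (add_mem hY hW),
    four _ (add_mem hZ hW), four _ hX, four _ hY, four _ hZ, four _ hW] at e
  have e2 : (24 : k) • (X * Y * Z * W) = 0 := by
    have : (24 : k) • (X * Y * Z * W) = (24 : Matrix n n k) * (X * Y * Z * W) := by
      rw [Algebra.smul_def]
      rfl
    rw [this, e]
    simp
  exact (smul_eq_zero.mp e2).resolve_left (by norm_num)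

end Pool.Agent.Lib.D13
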