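import Pool.Agent.Lib.D8.UtilB

/-!
# MP_5dcbc3_ag: products of elements of `adj T` vanish

If `ρ m = 0` then every product of `m` elements of `adj T` is zero.
-/

set_option autoImplicit false

namespace Pool.Agent.Lib.D13.MulN

open Matrix Pool.Agent.Lib.Q5dc Pool.Agent.Lib.D7 Pool.Agent.Lib.D8

variable {k : Type*} [Field k] {n : Type*} [Fintype n] [DecidableEq n]

/-- `(A + t Y) ^ m = A ^ m + t G (t)` with `G (0) = m A ^ (m - 1) Y` -/
theorem exists_G {A Y : Matrix n n k} (hc : A * Y = Y * A) (m : ℕ) :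
    ∃ G : k → Matrix n n k, (∀ x y, D7.IsPoly fun t => G t x y) ∧
      (∀ t, (A + t • Y) ^ (m + 1) = A ^ (m + 1) + t • G t) ∧
      G 0 = ((m : k) + 1) • (A ^ m * Y) := by
  induction m with
  | zero =>
    refine ⟨fun _ => Y, fun x y => D7.IsPoly.const _, fun t => by simp, by simp⟩
  | succ m ih =>
    obtain ⟨G, h1, h2, h3⟩ := ih
    refine ⟨fun t => G t * (A + t • Y) + A ^ (m + 1) * Y, fun x y => ?_, fun t => ?_, ?_⟩
    · exact (isPoly_mul h1 (isPoly_line A Y) x y).add (D7.IsPoly.const _)
    · rw [pow_succ, h2 t, add_mul, mul_add, smul_mul_assoc, smul_add, pow_succ A (m + 1),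
        mul_smul_comm]
      abel
    · show G 0 * (A + (0 : k) • Y) + A ^ (m + 1) * Y = _
      rw [h3, zero_smul, add_zero, smul_mul_assoc, mul_assoc, ← hc, ← mul_assoc, ← pow_succ]
      push_cast
      rw [add_smul ((m : k) + 1) 1, one_smul]

theorem poly_div [CharZero k] {g : k → k} (hg : D7.IsPoly g) (h : ∀ t, t * g t = 0) :
    g 0 = 0 := by
  by_contra h0
  have hf := hg.finite h0
  refine (Set.infinite_univ (α := k)) ((hf.union (Set.finite_singleton 0)).subset fun s _ => ?_)
  by_cases hs : s = 0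
  · exact Or.inr hs
  · left
    exact (mul_eq_zero.1 (h s)).resolve_left hs

theorem line_step [CharZero k] {A Y Z : Matrix n n k} (hc : A * Y = Y * A) {m : ℕ}
    (h : ∀ t : k, (A + t • Y) ^ (m + 1) * Z = 0) : A ^ m * (Y * Z) = 0 := by
  obtain ⟨G, h1, h2, h3⟩ := exists_G hc m
  have h0 : A ^ (m + 1) * Z = 0 := by simpa using h 0
  have key : G 0 * Z = 0 := by
    ext x y
    refine poly_div (g := fun t => (G t * Z) x y)
      (isPoly_mul h1 (fun x y => D7.IsPoly.const (Z x y)) x y) fun t => ?_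
    have h4 := h t
    rw [h2 t, add_mul, h0, zero_add, smul_mul_assoc] at h4
    have h5 := congrFun (congrFun h4 x) y
    simpa using h5
  rw [h3, smul_mul_assoc, smul_eq_zero] at key
  rcases key with key | key
  · exact absurd key (by exact_mod_cast Nat.succ_ne_zero m)
  · rwa [mul_assoc] at key

variable {ρ : ℕ → ℕ} {T : Fin 3 → Matrix n n k}

theorem adj_comm (hT : MaxR ρ T) {A B : Matrix n n k} (hA : A ∈ adj T) (hB : B ∈ adj T) :
    A * B = B * A := by
  have h1 : ∀ i, ∀ M ∈ adj T, T i * M = M * T i := by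
    intro i
    refine fun M hM => adj_induction (p := fun M => T i * M = M * T i) (fun j => hT.cn.1 i j) ?_
      ?_ ?_ ?_ hM
    · rw [mul_zero, zero_mul]
    · intro x _ y _ hx hy
      rw [mul_add, add_mul, hx, hy]
    · intro x _ y _ hx hy
      rw [← mul_assoc, hx, mul_assoc, hy, mul_assoc]
    · intro r x _ hx
      rw [mul_smul_comm, smul_mul_assoc, hx]
  refine adj_induction (p := fun M => M * B = B * M) (fun j => h1 j B hB) ?_ ?_ ?_ ?_ hA
  · rw [mul_zero, zero_mul]
  · intro x _ y _ hx hy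
    rw [mul_add, add_mul, hx, hy]
  · intro x _ y _ hx hy
    rw [mul_assoc, hy, ← mul_assoc, hx, mul_assoc]
  · intro r x _ hx
    rw [mul_smul_comm, smul_mul_assoc, hx]

theorem pow_mul_prod [CharZero k] (hT : MaxR ρ T) {m : ℕ} (h : ρ m = 0) (l : List (Matrix n n k)) :
    ∀ j : ℕ, j + l.length = m → (∀ M ∈ l, M ∈ adj T) → ∀ A ∈ adj T, A ^ j * l.prod = 0 := by
  induction l with
  | nil =>
    intro j hj _ A hA
    simp only [List.length_nil, add_zero] at hj
    rw [List.prod_nil, mul_one, hj]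
    exact hT.pow_eq_zero hA h
  | cons Y l ih =>
    intro j hj hl A hA
    rw [List.prod_cons]
    have hY : Y ∈ adj T := hl Y (by simp)
    refine line_step (adj_comm hT hA hY) fun t => ?_
    refine ih (j + 1) (by rw [List.length_cons] at hj; omega) (fun M hM => hl M (by simp [hM])) _ ?_
    exact add_mem hA (Submodule.smul_mem (adj T).toSubmodule t hY)

/-- products of five elements vanish -/
theorem mul5 [CharZero k] (hT : MaxR ρ T) (h : ρ 5 = 0) {a b c d e : Matrix n n k}
    (ha : a ∈ adj T) (hb : b ∈ adj T) (hc : c ∈ adj T) (hd : d ∈ adj T) (he : e ∈ adj T) :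
    a * (b * (c * (d * e))) = 0 := by
  have h1 := pow_mul_prod hT h [a, b, c, d, e] 0 rfl (by
    intro M hM
    simp only [List.mem_cons, List.not_mem_nil, or_false] at hM
    rcases hM with rfl | rfl | rfl | rfl | rfl <;> assumption) a ha
  simpa using h1

end Pool.Agent.Lib.D13.MulN
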