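import Pool.Agent.Lib.D13.B4321
import Pool.Agent.Lib.D13.Krull

/-!
# MP_5dcbc3_ag: type `(4, 3, 2, 1)`: the names of the case analysis
-/

set_option autoImplicit false

namespace Pool.Agent.Lib.D13.T4321

open Matrix Pool.Agent.Lib.Q5dc Pool.Agent.Lib.D7

variable {k : Type*} [Field k]

/-- `J, X P, X P'` is a maximal bad triple of type `(4, 3, 2, 1)` -/
def MR (P P' : Par k) : Prop := MaxR (fun i => (J k ^ i).rank) ![J k, X P, X P']

/-- the parameter `s` vanishes for both matrices -/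
def Zr (P P' : Par k) (s : Par k → k) : Prop := s P = 0 ∧ s P' = 0

/-- `a P + b P'` -/
def comb (a : k) (P : Par k) (b : k) (P' : Par k) : Par k where
  al0 := a * P.al0 + b * P'.al0
  al1 := a * P.al1 + b * P'.al1
  al2 := a * P.al2 + b * P'.al2
  g0 := a * P.g0 + b * P'.g0
  g1 := a * P.g1 + b * P'.g1
  pi := a * P.pi + b * P'.pi
  be0 := a * P.be0 + b * P'.be0
  be1 := a * P.be1 + b * P'.be1
  be2 := a * P.be2 + b * P'.be2
  q1 := a * P.q1 + b * P'.q1
  q2 := a * P.q2 + b * P'.q2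
  e0 := a * P.e0 + b * P'.e0
  e1 := a * P.e1 + b * P'.e1
  ph := a * P.ph + b * P'.ph
  de0 := a * P.de0 + b * P'.de0
  de1 := a * P.de1 + b * P'.de1
  f0 := a * P.f0 + b * P'.f0
  f1 := a * P.f1 + b * P'.f1
  z := a * P.z + b * P'.z
  rho := a * P.rho + b * P'.rho
  th := a * P.th + b * P'.th
  eta := a * P.eta + b * P'.eta
  zeta := a * P.zeta + b * P'.zeta

namespace Par

/-- the transposed matrices -/
def dual (P : Par k) : Par k where
  al0 := P.be0
  al1 := P.be1
  al2 := P.be2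
  g0 := P.de0
  g1 := P.de1
  pi := P.th
  be0 := P.al0
  be1 := P.al1
  be2 := P.al2
  q1 := P.q1
  q2 := P.q2
  e0 := P.f0
  e1 := P.f1
  ph := P.eta
  de0 := P.g0
  de1 := P.g1
  f0 := P.e0
  f1 := P.e1
  z := P.z
  rho := P.zeta
  th := P.pi
  eta := P.ph
  zeta := P.rho

/-- base change `w0 + c p` -/
def wp (P : Par k) (c : k) : Par k :=
  { P with
    de1 := P.de1 + c * P.th
    f1 := P.f1 + c * P.eta
    z := P.z + c * P.zeta
    pi := P.pi - c * P.g0
    ph := P.ph - c * P.e0 }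

/-- base change `u0 + c p` -/
def up (P : Par k) (c : k) : Par k :=
  { P with
    be2 := P.be2 + c * P.th
    q2 := P.q2 + c * P.eta
    e1 := P.e1 + c * P.zeta
    pi := P.pi - c * P.al0 }

/-- base change `p + c w1` -/
def pw (P : Par k) (c : k) : Par k :=
  { P with
    th := P.th + c * P.de0
    eta := P.eta + c * P.f0
    g1 := P.g1 - c * P.pi
    e1 := P.e1 - c * P.ph
    z := P.z - c * P.rho }

/-- base change `u0 + c w0` -/
def uw (P : Par k) (c : k) : Par k :=
  { P with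
    g0 := P.g0 - c * P.al0
    g1 := P.g1 - c * P.al1
    be1 := P.be1 + c * P.de0
    be2 := P.be2 + c * P.de1
    q1 := P.q1 + c * P.f0
    q2 := P.q2 + c * P.f1
    e1 := P.e1 + c * P.z - c * (P.q1 + c * P.f0)
    ph := P.ph + c * P.rho
    z := P.z - c * P.f0 }

end Par

end Pool.Agent.Lib.D13.T4321
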