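import Pool.Agent.Lib.D13.N5421b

/-!
# MP_5dcbc3_ag: type `(5, 4, 2, 1)`: the count of the pairs

`count`: if `al0` (or `be0`) is `0` in both matrices and `rho` or `zeta` is `0` in both then the rank of
the 52 parameters of a commuting pair is at most 35.
-/

set_option autoImplicit false

namespace Pool.Agent.Lib.D13.T5421

variable {k K : Type*} [Field k] [Field K] [Algebra k K]

theorem le17 {a : ℕ∞} (h : a + 18 ≤ 52) : a + 17 ≤ 52 := by
  refine le_trans ?_ h
  gcongr
  norm_num

theorem pencil17 {P P' : Par K} (c : K)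
    (h : rk k (Set.range (vals P (line P' P (-c)))) + 18 ≤ 52) :
    rk k (Set.range (vals P P')) + 17 ≤ 52 := by
  refine le_trans (add_le_add_left (rk_pencil P P' c) 17) ?_
  rw [add_assoc]
  exact h

/-- `be0 ≠ 0`, normalised -/
theorem two' {P P' : Par K} (h : Rel P P') (a0 : P.al0 = 0) (a0' : P'.al0 = 0)
    (b0' : P'.be0 = 0) (nb : P.be0 ≠ 0)
    (hrz : (P.rho = 0 ∧ P'.rho = 0) ∨ (P.zeta = 0 ∧ P'.zeta = 0)) :
    rk k (Set.range (vals P P')) + 18 ≤ 52 := by
  rcases hrz with ⟨rh, rh'⟩ | ⟨ze, ze'⟩
  · by_cases f0z : P.f0 = 0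
    · by_cases ze : P.zeta = 0
      · by_cases ze' : P'.zeta = 0
        · apply ii_a2i h <;> assumption
        · by_cases e0z : P'.e0 = 0
          · apply ii_a2iiiB h <;> assumption
          · apply ii_a2iiiA h <;> assumption
      · by_cases e0z : P'.e0 = 0
        · apply ii_a2iiB h <;> assumption
        · apply ii_a2iiA h <;> assumption
    · apply ii_a1 h <;> assumption
  · by_cases f0z : P.f0 = 0
    · by_cases rh' : P'.rho = 0
      · by_cases rh : P.rho = 0
        · apply ii_a2i h <;> assumption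
        · apply ii_b2ii h <;> assumption
      · apply ii_b2i h <;> assumption
    · apply ii_b1 h <;> assumption

theorem two {P P' : Par K} (h : Rel P P') (a0 : P.al0 = 0) (a0' : P'.al0 = 0)
    (nb : P.be0 ≠ 0)
    (hrz : (P.rho = 0 ∧ P'.rho = 0) ∨ (P.zeta = 0 ∧ P'.zeta = 0)) :
    rk k (Set.range (vals P P')) + 17 ≤ 52 := by
  refine pencil17 (P'.be0 / P.be0) (two' (h.pencil _) a0 ?_ ?_ nb ?_)
  · simp [line, a0, a0']
  · show P'.be0 + -(P'.be0 / P.be0) * P.be0 = 0
    field_simp
    ring
  · rcases hrz with ⟨h1, h2⟩ | ⟨h1, h2⟩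
    · exact .inl ⟨h1, by simp [line, h1, h2]⟩
    · exact .inr ⟨h1, by simp [line, h1, h2]⟩

/-- `rho ≠ 0`, normalised -/
theorem oneA' {P P' : Par K} (h : Rel P P') (a0 : P.al0 = 0) (a0' : P'.al0 = 0)
    (b0 : P.be0 = 0) (b0' : P'.be0 = 0) (ze : P.zeta = 0) (ze' : P'.zeta = 0)
    (nr : P.rho ≠ 0) (rh' : P'.rho = 0) :
    rk k (Set.range (vals P P')) + 18 ≤ 52 := by
  have r4 := h.r4
  have r5 := h.r5
  have r7 := h.r7
  have r11 := h.r11
  have r12 := h.r12
  have r14 := h.r14
  simp only [Br, a0, a0', b0, b0', ze, ze', rh', zero_mul, mul_zero, sub_zero, zero_add, add_zero,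
    sub_self] at r4 r5 r7 r11 r12 r14
  have g0' : P'.g0 = 0 := (mul_eq_zero.1 r4).resolve_right nr
  have e0' : P'.e0 = 0 := (mul_eq_zero.1 r11).resolve_right nr
  simp only [g0', e0', zero_mul, mul_zero, sub_zero, zero_sub, neg_eq_zero] at r5 r7 r12 r14
  by_cases e0z : P.e0 = 0
  · by_cases g0z : P.g0 = 0
    · by_cases q1z : P.q1 = 0
      · by_cases q1z' : P'.q1 = 0
        · by_cases be1z : P.be1 = 0
          · by_cases be1z' : P'.be1 = 0
            · by_cases f0z : P.f0 = 0
              · by_cases f0z' : P'.f0 = 0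
                · by_cases tz : P.eta = 0
                  · apply i_a3ke h <;> assumption
                  · apply i_a3he h <;> assumption
                · apply i_a3ge h <;> assumption
              · apply i_a3fe h <;> assumption
            · by_cases f0z : P.f0 = 0
              · by_cases f0z' : P'.f0 = 0
                · by_cases tz : P.eta = 0
                  · apply i_a3kd h <;> assumption
                  · apply i_a3hd h <;> assumption
                · apply i_a3gd h <;> assumption
              · apply i_a3fd h <;> assumption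
          · by_cases f0z : P.f0 = 0
            · by_cases f0z' : P'.f0 = 0
              · by_cases tz : P.eta = 0
                · apply i_a3kc h <;> assumption
                · apply i_a3hc h <;> assumption
              · apply i_a3gc h <;> assumption
            · apply i_a3fc h <;> assumption
        · by_cases f0z : P.f0 = 0
          · by_cases f0z' : P'.f0 = 0
            · by_cases tz : P.eta = 0
              · apply i_a3kb h <;> assumption
              · apply i_a3hb h <;> assumption
            · apply i_a3gb h <;> assumption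
          · apply i_a3fb h <;> assumption
      · by_cases f0z : P.f0 = 0
        · by_cases f0z' : P'.f0 = 0
          · by_cases tz : P.eta = 0
            · apply i_a3ka h <;> assumption
            · apply i_a3ha h <;> assumption
          · apply i_a3ga h <;> assumption
        · apply i_a3fa h <;> assumption
    · by_cases q1z : P.q1 = 0
      · apply i_a2B h <;> assumption
      · apply i_a2A h <;> assumption
  · by_cases q1z : P'.q1 = 0
    · apply i_a1A h <;> assumption
    · have f0' : P'.f0 = 0 := (mul_eq_zero.1 r14).resolve_left e0z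
      rw [f0', mul_zero, neg_zero, add_zero] at r7
      have hz : P'.q1 - P'.z = 0 := by
        refine (mul_eq_zero.1 (?_ : P.e0 * (P'.q1 - P'.z) = 0)).resolve_left e0z
        linear_combination r12
      have hD : P.e0 * P.al1 + -(P.q1 * P.g0) = 0 := by
        refine (mul_eq_zero.1 (?_ : P'.q1 * (P.e0 * P.al1 + -(P.q1 * P.g0)) = 0)).resolve_left q1z
        linear_combination P.q1 * r5 - P.e0 * r7 - P.q1 * P.g0 * hz
      apply i_a1B h <;> assumption

theorem oneA {P P' : Par K} (h : Rel P P') (a0 : P.al0 = 0) (a0' : P'.al0 = 0)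
    (b0 : P.be0 = 0) (b0' : P'.be0 = 0) (ze : P.zeta = 0) (ze' : P'.zeta = 0)
    (nr : P.rho ≠ 0) :
    rk k (Set.range (vals P P')) + 17 ≤ 52 := by
  refine pencil17 (P'.rho / P.rho) (oneA' (h.pencil _) a0 ?_ b0 ?_ ze ?_ nr ?_)
  · simp [line, a0, a0']
  · simp [line, b0, b0']
  · simp [line, ze, ze']
  · show P'.rho + -(P'.rho / P.rho) * P.rho = 0
    field_simp
    ring

/-- `rho = zeta = 0`, normalised -/
theorem oneB' {P P' : Par K} (h : Rel P P') (a0 : P.al0 = 0) (a0' : P'.al0 = 0)
    (b0 : P.be0 = 0) (b0' : P'.be0 = 0) (ze : P.zeta = 0) (ze' : P'.zeta = 0)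
    (rh : P.rho = 0) (rh' : P'.rho = 0) (e0z' : P'.e0 = 0) (f0z' : P'.f0 = 0)
    (hz : P'.z = P'.q1) (hn : P.e0 ≠ 0 ∨ P.f0 ≠ 0 ∨ P.z ≠ P.q1) :
    rk k (Set.range (vals P P')) + 18 ≤ 52 := by
  by_cases q1z' : P'.q1 = 0
  · have zz' : P'.z = 0 := hz.trans q1z'
    have r5 := h.r5
    have r7 := h.r7
    have r15 := h.r15
    have r21 := h.r21
    simp only [Br, a0, a0', b0, b0', ze, ze', rh, rh', e0z', f0z', zz', q1z', zero_mul, mul_zero,
      sub_zero, zero_add, add_zero, sub_self, zero_sub] at r5 r7 r15 r21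
    by_cases hd : P.q1 * P.z - P.e0 * P.f0 = 0
    · by_cases e0z : P.e0 = 0
      · rw [e0z, zero_mul, sub_zero] at hd
        by_cases f0z : P.f0 = 0
        · by_cases q1z : P.q1 = 0
          · have nz : P.z ≠ 0 := by
              rcases hn with h1 | h1 | h1
              · exact absurd e0z h1
              · exact absurd f0z h1
              · rwa [q1z] at h1
            by_cases al1z : P.al1 = 0
            · apply i_b2i h <;> assumption
            · apply i_b2h h <;> assumption
          · have zz : P.z = 0 := (mul_eq_zero.1 hd).resolve_left q1z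
            apply i_b2j h <;> assumption
        · rcases mul_eq_zero.1 hd with vz | vz
          · apply i_b2f h <;> assumption
          · apply i_b2g h <;> assumption
      · have hD : P.e0 * P.f0 + -(P.q1 * P.z) = 0 := by linear_combination -hd
        by_cases g0z : P'.g0 = 0
        · by_cases be1z : P'.be1 = 0
          · apply i_b2e h <;> assumption
          · apply i_b2d h <;> assumption
        · apply i_b2c h <;> assumption
    · have al1z : P'.al1 = 0 := by
        refine (mul_eq_zero.1 (?_ : (P.q1 * P.z - P.e0 * P.f0) * P'.al1 = 0)).resolve_left hd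
        linear_combination P.z * r7 - P.f0 * r5
      have g0z : P'.g0 = 0 := by
        refine (mul_eq_zero.1 (?_ : (P.q1 * P.z - P.e0 * P.f0) * P'.g0 = 0)).resolve_left hd
        linear_combination P.q1 * r5 - P.e0 * r7
      have be1z : P'.be1 = 0 := by
        refine (mul_eq_zero.1 (?_ : (P.q1 * P.z - P.e0 * P.f0) * P'.be1 = 0)).resolve_left hd
        linear_combination -P.z * r15 + P.e0 * r21
      have c0z : P'.c0 = 0 := by
        refine (mul_eq_zero.1 (?_ : (P.q1 * P.z - P.e0 * P.f0) * P'.c0 = 0)).resolve_left hd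
        linear_combination -P.q1 * r21 + P.f0 * r15
      by_cases e0z : P.e0 = 0
      · have nq : P.q1 ≠ 0 := by
          intro h0
          exact hd (by rw [h0, e0z]; ring)
        apply i_b2b h <;> assumption
      · apply i_b2a h <;> assumption
  · have nz : P'.z ≠ 0 := by rwa [hz]
    by_cases e0z : P.e0 = 0
    · by_cases f0z : P.f0 = 0
      · apply i_b1c h <;> assumption
      · apply i_b1b h <;> assumption
    · apply i_b1a h <;> assumption

theorem oneB {P P' : Par K} (h : Rel P P') (a0 : P.al0 = 0) (a0' : P'.al0 = 0)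
    (b0 : P.be0 = 0) (b0' : P'.be0 = 0) (ze : P.zeta = 0) (ze' : P'.zeta = 0)
    (rh : P.rho = 0) (rh' : P'.rho = 0) (hn : P.e0 ≠ 0 ∨ P.f0 ≠ 0 ∨ P.z ≠ P.q1) :
    rk k (Set.range (vals P P')) + 17 ≤ 52 := by
  obtain ⟨c, h1, h2, h3⟩ : ∃ c : K, P'.e0 + -c * P.e0 = 0 ∧ P'.f0 + -c * P.f0 = 0 ∧
      P'.z + -c * P.z = P'.q1 + -c * P.q1 := by
    have r12 := h.r12
    have r14 := h.r14
    have r20 := h.r20
    simp only [Br, a0, a0', b0, b0', ze, ze', rh, rh', zero_mul, mul_zero, zero_add,
      add_zero, sub_self] at r12 r14 r20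
    by_cases e0z : P.e0 = 0
    · simp only [e0z, mul_zero, zero_mul, sub_zero, zero_sub] at r12 r14
      by_cases f0z : P.f0 = 0
      · have h3 : P.z - P.q1 ≠ 0 := by
          rcases hn with h1 | h1 | h1
          · exact absurd e0z h1
          · exact absurd f0z h1
          · exact sub_ne_zero.2 h1
        rw [f0z] at r20
        refine ⟨(P'.z - P'.q1) / (P.z - P.q1), ?_, ?_, ?_⟩
        · rw [e0z, mul_zero, add_zero]
          refine (mul_eq_zero.1 (?_ : (P.z - P.q1) * P'.e0 = 0)).resolve_left h3
          linear_combination r12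
        · rw [f0z, mul_zero, add_zero]
          refine (mul_eq_zero.1 (?_ : (P.z - P.q1) * P'.f0 = 0)).resolve_left h3
          linear_combination -r20
        · field_simp
          ring
      · refine ⟨P'.f0 / P.f0, ?_, ?_, ?_⟩
        · rw [e0z, mul_zero, add_zero]
          refine (mul_eq_zero.1 (?_ : P.f0 * P'.e0 = 0)).resolve_left f0z
          linear_combination r14
        · field_simp
          ring
        · field_simp
          linear_combination r20
    · refine ⟨P'.e0 / P.e0, ?_, ?_, ?_⟩
      · field_simp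
        ring
      · field_simp
        linear_combination -r14
      · field_simp
        linear_combination -r12
  refine pencil17 c (oneB' (h.pencil _) a0 ?_ b0 ?_ ze ?_ rh ?_ h1 h2 h3 hn)
  · simp [line, a0, a0']
  · simp [line, b0, b0']
  · simp [line, ze, ze']
  · simp [line, rh, rh']

/-- `al0 = be0 = zeta = 0` -/
theorem one {P P' : Par K} (h : Rel P P') (a0 : P.al0 = 0) (a0' : P'.al0 = 0)
    (b0 : P.be0 = 0) (b0' : P'.be0 = 0) (ze : P.zeta = 0) (ze' : P'.zeta = 0) :
    rk k (Set.range (vals P P')) + 17 ≤ 52 := by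
  by_cases rh : P.rho = 0
  · by_cases rh' : P'.rho = 0
    · by_cases hn : P.e0 ≠ 0 ∨ P.f0 ≠ 0 ∨ P.z ≠ P.q1
      · exact oneB h a0 a0' b0 b0' ze ze' rh rh' hn
      · by_cases hn' : P'.e0 ≠ 0 ∨ P'.f0 ≠ 0 ∨ P'.z ≠ P'.q1
        · rw [rk_swap]
          exact oneB h.swap a0' a0 b0' b0 ze' ze rh' rh hn'
        · push Not at hn hn'
          obtain ⟨e0z, f0z, hz⟩ := hn
          obtain ⟨e0z', f0z', hz'⟩ := hn'
          by_cases q1z : P.q1 = 0
          · by_cases q1z' : P'.q1 = 0
            · by_cases be1z : P.be1 = 0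
              · apply i_c3 h <;> assumption
              · apply i_c2 h <;> assumption
            · rw [rk_swap]
              have nz : P'.z ≠ 0 := by rwa [hz']
              apply i_c1 h.swap <;> assumption
          · have nz : P.z ≠ 0 := by rwa [hz]
            apply i_c1 h <;> assumption
    · rw [rk_swap]
      exact oneA h.swap a0' a0 b0' b0 ze' ze rh'
  · exact oneA h a0 a0' b0 b0' ze ze' rh

theorem count' {P P' : Par K} (h : Rel P P') (a0 : P.al0 = 0) (a0' : P'.al0 = 0)
    (hrz : (P.rho = 0 ∧ P'.rho = 0) ∨ (P.zeta = 0 ∧ P'.zeta = 0)) :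
    rk k (Set.range (vals P P')) + 17 ≤ 52 := by
  by_cases b0 : P.be0 = 0
  · by_cases b0' : P'.be0 = 0
    · rcases hrz with ⟨h1, h2⟩ | ⟨h1, h2⟩
      · rw [← rk_dual]
        exact one h.dual b0 b0' a0 a0' h1 h2
      · exact one h a0 a0' b0 b0' h1 h2
    · rw [rk_swap]
      exact two h.swap a0' a0 b0' (hrz.imp And.symm And.symm)
  · exact two h a0 a0' b0 hrz

/-- the count of the pairs -/
theorem count {P P' : Par K} (h : Rel P P')
    (h0 : (P.al0 = 0 ∧ P'.al0 = 0) ∨ (P.be0 = 0 ∧ P'.be0 = 0))
    (hrz : (P.rho = 0 ∧ P'.rho = 0) ∨ (P.zeta = 0 ∧ P'.zeta = 0)) :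
    rk k (Set.range (vals P P')) ≤ 35 := by
  have h1 : rk k (Set.range (vals P P')) + 17 ≤ 35 + 17 := by
    rcases h0 with ⟨h1, h2⟩ | ⟨h1, h2⟩
    · exact count' h h1 h2 hrz
    · rw [← rk_dual]
      exact count' h.dual h1 h2 hrz.symm
  exact (ENat.add_le_add_iff_right (by norm_num)).1 h1

end Pool.Agent.Lib.D13.T5421
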