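import Pool.Agent.Lib.D13.M5421
import Pool.Agent.Lib.D13.GenCnt

/-!
# MP_5dcbc3_ag: type `(5, 4, 2, 1)`: tools for the count of the pairs

`vals P P'` are the 52 parameters of a pair. `rk_det`: if `n` of them are in every field which contains
the others then the rank is at most `52 - n`.
-/

set_option autoImplicit false

namespace Pool.Agent.Lib.D13.T5421

variable {k K : Type*} [Field k] [Field K] [Algebra k K]

/-- the names of the parameters -/
inductive Nm
  | al0 | al1 | al2 | al3 | g0 | g1 | pi | be0 | be1 | be2 | be3 | q1 | q2 | q3 | e0 | e1 | ph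
  | c0 | c1 | f0 | f1 | z | rho | th | eta | zeta
  deriving DecidableEq

instance : Fintype Nm where
  elems := {.al0, .al1, .al2, .al3, .g0, .g1, .pi, .be0, .be1, .be2, .be3, .q1, .q2,
    .q3, .e0, .e1, .ph, .c0, .c1, .f0, .f1, .z, .rho, .th, .eta, .zeta}
  complete := by
    intro x
    cases x <;> decide

/-- the parameter of the given name -/
def Par.get (P : Par K) : Nm → K
  | .al0 => P.al0
  | .al1 => P.al1
  | .al2 => P.al2
  | .al3 => P.al3
  | .g0 => P.g0
  | .g1 => P.g1
  | .pi => P.pi
  | .be0 => P.be0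
  | .be1 => P.be1
  | .be2 => P.be2
  | .be3 => P.be3
  | .q1 => P.q1
  | .q2 => P.q2
  | .q3 => P.q3
  | .e0 => P.e0
  | .e1 => P.e1
  | .ph => P.ph
  | .c0 => P.c0
  | .c1 => P.c1
  | .f0 => P.f0
  | .f1 => P.f1
  | .z => P.z
  | .rho => P.rho
  | .th => P.th
  | .eta => P.eta
  | .zeta => P.zeta

/-- the parameters of a pair -/
def vals (P P' : Par K) : Nm ⊕ Nm → K := Sum.elim P.get P'.get

/-- all parameters are in `L` -/
structure MemP (L : IntermediateField k K) (P : Par K) : Prop where
  al0 : P.al0 ∈ L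
  al1 : P.al1 ∈ L
  al2 : P.al2 ∈ L
  al3 : P.al3 ∈ L
  g0 : P.g0 ∈ L
  g1 : P.g1 ∈ L
  pi : P.pi ∈ L
  be0 : P.be0 ∈ L
  be1 : P.be1 ∈ L
  be2 : P.be2 ∈ L
  be3 : P.be3 ∈ L
  q1 : P.q1 ∈ L
  q2 : P.q2 ∈ L
  q3 : P.q3 ∈ L
  e0 : P.e0 ∈ L
  e1 : P.e1 ∈ L
  ph : P.ph ∈ L
  c0 : P.c0 ∈ L
  c1 : P.c1 ∈ L
  f0 : P.f0 ∈ L
  f1 : P.f1 ∈ L
  z : P.z ∈ L
  rho : P.rho ∈ L
  th : P.th ∈ L
  eta : P.eta ∈ L
  zeta : P.zeta ∈ L

theorem mem_all {L : IntermediateField k K} (P P' : Par K) (h : MemP L P) (h' : MemP L P') :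
    ∀ j, vals P P' j ∈ L := by
  rintro (j | j)
  · cases j
    exacts [h.al0, h.al1, h.al2, h.al3, h.g0, h.g1, h.pi, h.be0, h.be1, h.be2, h.be3, h.q1, h.q2,
      h.q3, h.e0, h.e1, h.ph, h.c0, h.c1, h.f0, h.f1, h.z, h.rho, h.th, h.eta, h.zeta]
  · cases j
    exacts [h'.al0, h'.al1, h'.al2, h'.al3, h'.g0, h'.g1, h'.pi, h'.be0, h'.be1, h'.be2, h'.be3, h'.q1, h'.q2,
      h'.q3, h'.e0, h'.e1, h'.ph, h'.c0, h'.c1, h'.f0, h'.f1, h'.z, h'.rho, h'.th, h'.eta, h'.zeta]

theorem rk_det (P P' : Par K) {n : ℕ} (D : Finset (Nm ⊕ Nm)) (hc : n ≤ D.card)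
    (h : ∀ L : IntermediateField k K, (∀ i, i ∉ D → vals P P' i ∈ L) → ∀ j, vals P P' j ∈ L) :
    rk k (Set.range (vals P P')) + n ≤ 52 := by
  have h1 : rk k (Set.range (vals P P')) ≤ Fintype.card {i // i ∉ D} := by
    refine rk_le_card (fun i : {i // i ∉ D} => vals P P' i) ?_
    rintro _ ⟨j, rfl⟩
    exact h (FF k (Set.range fun i : {i // i ∉ D} => vals P P' i))
      (fun i hi => subset_FF _ ⟨⟨i, hi⟩, rfl⟩) j
  have h2 : Fintype.card {i // i ∉ D} + n ≤ 52 := by
    have h3 : Fintype.card {i // i ∉ D} = Fintype.card (Nm ⊕ Nm) - D.card := by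
      rw [Fintype.card_subtype, ← Finset.card_compl]
      congr 1
      ext i
      simp
    have h4 : Fintype.card (Nm ⊕ Nm) = 52 := by decide
    have h5 : D.card ≤ 52 := h4 ▸ Finset.card_le_univ D
    omega
  calc rk k (Set.range (vals P P')) + n ≤ (Fintype.card {i // i ∉ D} : ℕ∞) + n := by gcongr
    _ ≤ 52 := by exact_mod_cast h2

theorem mem_lin {L : IntermediateField k K} {a b c : K} (ha : a ≠ 0) (haL : a ∈ L) (hcL : c ∈ L)
    (h : a * b + c = 0) : b ∈ L := by
  have : b = -c * a⁻¹ := by
    field_simp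
    linear_combination h
  rw [this]
  exact L.mul_mem (L.neg_mem hcL) (L.inv_mem haL)

/-! ### the swap, the pencil, the duality -/

theorem Rel.swap {P P' : Par K} (h : Rel P P') : Rel P' P := by
  obtain ⟨r1, r2, r3, r4, r5, r6, r7, r8, r9, r10, r11, r12, r13, r14, r15, r16, r17, r18, r19, r20, r21, r22, r23⟩ := h
  simp only [Br] at *
  constructor <;> simp only [Br]
  · linear_combination (-1) * r1
  · linear_combination (-1) * r2
  · linear_combination (-1) * r3
  · linear_combination (-1) * r4
  · linear_combination (-1) * r5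
  · linear_combination (-1) * r6
  · linear_combination (-1) * r7
  · linear_combination (-1) * r8
  · linear_combination (-1) * r9
  · linear_combination (-1) * r10
  · linear_combination (-1) * r11
  · linear_combination (-1) * r12
  · linear_combination (-1) * r13
  · linear_combination (-1) * r14
  · linear_combination (-1) * r15
  · linear_combination (-1) * r16
  · linear_combination (-1) * r17
  · linear_combination (-1) * r18
  · linear_combination (-1) * r19
  · linear_combination (-1) * r20
  · linear_combination (-1) * r21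
  · linear_combination (-1) * r22
  · linear_combination (-1) * r23

theorem rk_swap (P P' : Par K) :
    rk k (Set.range (vals P P')) = rk k (Set.range (vals P' P)) := by
  congr 1
  ext x
  constructor
  · rintro ⟨j | j, rfl⟩
    exacts [⟨.inr j, rfl⟩, ⟨.inl j, rfl⟩]
  · rintro ⟨j | j, rfl⟩
    exacts [⟨.inr j, rfl⟩, ⟨.inl j, rfl⟩]

theorem Rel.pencil {P P' : Par K} (h : Rel P P') (c : K) : Rel P (line P' P (-c)) := by
  obtain ⟨r1, r2, r3, r4, r5, r6, r7, r8, r9, r10, r11, r12, r13, r14, r15, r16, r17, r18, r19, r20, r21, r22, r23⟩ := h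
  simp only [Br] at *
  constructor <;> simp only [Br, line]
  · linear_combination r1
  · linear_combination r2
  · linear_combination r3
  · linear_combination r4
  · linear_combination r5
  · linear_combination r6
  · linear_combination r7
  · linear_combination r8
  · linear_combination r9
  · linear_combination r10
  · linear_combination r11
  · linear_combination r12
  · linear_combination r13
  · linear_combination r14
  · linear_combination r15
  · linear_combination r16
  · linear_combination r17
  · linear_combination r18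
  · linear_combination r19
  · linear_combination r20
  · linear_combination r21
  · linear_combination r22
  · linear_combination r23

theorem rk_pencil (P P' : Par K) (c : K) :
    rk k (Set.range (vals P P')) ≤ rk k (Set.range (vals P (line P' P (-c)))) + 1 := by
  have h : Set.range (vals P P') ⊆
      FF k (insert c (Set.range (vals P (line P' P (-c))))) := by
    have hc : c ∈ FF k (insert c (Set.range (vals P (line P' P (-c))))) :=
      subset_FF _ (Set.mem_insert _ _)
    have hP : ∀ j, P.get j ∈ FF k (insert c (Set.range (vals P (line P' P (-c))))) :=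
      fun j => subset_FF _ (Set.mem_insert_of_mem _ ⟨.inl j, rfl⟩)
    have hQ : ∀ j, (line P' P (-c)).get j ∈
        FF k (insert c (Set.range (vals P (line P' P (-c))))) :=
      fun j => subset_FF _ (Set.mem_insert_of_mem _ ⟨.inr j, rfl⟩)
    have hs : ∀ j, P'.get j = (line P' P (-c)).get j + c * P.get j := by
      intro j
      cases j <;> simp only [Par.get, line] <;> ring
    rintro _ ⟨j | j, rfl⟩
    · exact hP j
    · show P'.get j ∈ _
      rw [hs j]
      exact add_mem (hQ j) (mul_mem hc (hP j))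
  exact (rk_le h).trans (rk_insert_le _ _)

/-- the dual parameters -/
def Par.dual (P : Par K) : Par K where
  al0 := P.be0
  al1 := P.be1
  al2 := P.be2
  al3 := P.be3
  g0 := P.c0
  g1 := P.c1
  pi := P.th
  be0 := P.al0
  be1 := P.al1
  be2 := P.al2
  be3 := P.al3
  q1 := P.q1
  q2 := P.q2
  q3 := P.q3
  e0 := P.f0
  e1 := P.f1
  ph := P.eta
  c0 := P.g0
  c1 := P.g1
  f0 := P.e0
  f1 := P.e1
  z := P.z
  rho := P.zeta
  th := P.pi
  eta := P.ph
  zeta := P.rho

theorem Rel.dual {P P' : Par K} (h : Rel P P') : Rel P.dual P'.dual := by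
  obtain ⟨r1, r2, r3, r4, r5, r6, r7, r8, r9, r10, r11, r12, r13, r14, r15, r16, r17, r18, r19, r20, r21, r22, r23⟩ := h
  simp only [Br] at *
  constructor <;> simp only [Br, Par.dual]
  · linear_combination (-1) * r19
  · linear_combination (-1) * r2
  · linear_combination (-1) * r13
  · linear_combination (-1) * r23
  · linear_combination (-1) * r21
  · linear_combination (-1) * r6
  · linear_combination (-1) * r15
  · linear_combination (-1) * r8
  · linear_combination (-1) * r17
  · linear_combination (-1) * r10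
  · linear_combination (-1) * r22
  · linear_combination (-1) * r20
  · linear_combination (-1) * r3
  · linear_combination (-1) * r14
  · linear_combination (-1) * r7
  · linear_combination (-1) * r16
  · linear_combination (-1) * r9
  · linear_combination (-1) * r18
  · linear_combination (-1) * r1
  · linear_combination (-1) * r12
  · linear_combination (-1) * r5
  · linear_combination (-1) * r11
  · linear_combination (-1) * r4

/-- the dual name -/
def Nm.dual : Nm → Nm
  | .al0 => .be0
  | .al1 => .be1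
  | .al2 => .be2
  | .al3 => .be3
  | .g0 => .c0
  | .g1 => .c1
  | .pi => .th
  | .be0 => .al0
  | .be1 => .al1
  | .be2 => .al2
  | .be3 => .al3
  | .q1 => .q1
  | .q2 => .q2
  | .q3 => .q3
  | .e0 => .f0
  | .e1 => .f1
  | .ph => .eta
  | .c0 => .g0
  | .c1 => .g1
  | .f0 => .e0
  | .f1 => .e1
  | .z => .z
  | .rho => .zeta
  | .th => .pi
  | .eta => .ph
  | .zeta => .rho

omit [Field K] in
theorem get_dual (P : Par K) (j : Nm) : P.dual.get j = P.get j.dual := by
  cases j <;> rfl

theorem Nm.dual_dual (j : Nm) : j.dual.dual = j := by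
  cases j <;> rfl

theorem rk_dual (P P' : Par K) :
    rk k (Set.range (vals P.dual P'.dual)) = rk k (Set.range (vals P P')) := by
  congr 1
  ext x
  constructor
  · rintro ⟨j | j, rfl⟩
    exacts [⟨.inl j.dual, (get_dual P j).symm⟩, ⟨.inr j.dual, (get_dual P' j).symm⟩]
  · rintro ⟨j | j, rfl⟩
    · exact ⟨.inl j.dual, (get_dual P j.dual).trans (by rw [Nm.dual_dual]; rfl)⟩
    · exact ⟨.inr j.dual, (get_dual P' j.dual).trans (by rw [Nm.dual_dual]; rfl)⟩

end Pool.Agent.Lib.D13.T5421
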