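import Pool.Agent.Lib.D13.N5421a

/-!
# MP_5dcbc3_ag: type `(5, 4, 2, 1)`: the leaves of the count
-/

set_option autoImplicit false

namespace Pool.Agent.Lib.D13.T5421

variable {k K : Type*} [Field k] [Field K] [Algebra k K]

theorem ii_a1 {P P' : Par K} (h : Rel P P')
    (a0 : P.al0 = 0) (a0' : P'.al0 = 0) (b0' : P'.be0 = 0) (rh : P.rho = 0) (rh' : P'.rho = 0)
    (nb : P.be0 ≠ 0) (nf : P.f0 ≠ 0) :
    rk k (Set.range (vals P P')) + 18 ≤ 52 := by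
  obtain ⟨r1, r2, r3, r4, r5, r6, r7, r8, r9, r10, r11, r12, r13, r14, r15, r16, r17, r18, r19,
    r20, r21, r22, r23⟩ := h
  simp only [Br] at *
  refine rk_det P P' {.inl .al0, .inr .al0, .inr .be0, .inl .rho, .inr .rho, .inr .al1, .inr .q1,
    .inr .f0, .inr .e0, .inr .g0, .inr .eta, .inr .f1, .inr .q2, .inr .al2, .inr .g1, .inr .e1,
      .inr .al3, .inr .q3} (by decide) fun L hL => ?_
  have m_al1 : P.al1 ∈ L := hL (.inl .al1) (by decide)
  have m_al2 : P.al2 ∈ L := hL (.inl .al2) (by decide)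
  have m_al3 : P.al3 ∈ L := hL (.inl .al3) (by decide)
  have m_g0 : P.g0 ∈ L := hL (.inl .g0) (by decide)
  have m_g1 : P.g1 ∈ L := hL (.inl .g1) (by decide)
  have m_pi : P.pi ∈ L := hL (.inl .pi) (by decide)
  have m_be0 : P.be0 ∈ L := hL (.inl .be0) (by decide)
  have m_be1 : P.be1 ∈ L := hL (.inl .be1) (by decide)
  have m_be2 : P.be2 ∈ L := hL (.inl .be2) (by decide)
  have m_be3 : P.be3 ∈ L := hL (.inl .be3) (by decide)
  have m_q1 : P.q1 ∈ L := hL (.inl .q1) (by decide)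
  have m_q2 : P.q2 ∈ L := hL (.inl .q2) (by decide)
  have m_q3 : P.q3 ∈ L := hL (.inl .q3) (by decide)
  have m_e0 : P.e0 ∈ L := hL (.inl .e0) (by decide)
  have m_e1 : P.e1 ∈ L := hL (.inl .e1) (by decide)
  have m_ph : P.ph ∈ L := hL (.inl .ph) (by decide)
  have m_c0 : P.c0 ∈ L := hL (.inl .c0) (by decide)
  have m_c1 : P.c1 ∈ L := hL (.inl .c1) (by decide)
  have m_f0 : P.f0 ∈ L := hL (.inl .f0) (by decide)
  have m_f1 : P.f1 ∈ L := hL (.inl .f1) (by decide)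
  have m_z : P.z ∈ L := hL (.inl .z) (by decide)
  have m_th : P.th ∈ L := hL (.inl .th) (by decide)
  have m_eta : P.eta ∈ L := hL (.inl .eta) (by decide)
  have m_zeta : P.zeta ∈ L := hL (.inl .zeta) (by decide)
  have m_pi' : P'.pi ∈ L := hL (.inr .pi) (by decide)
  have m_be1' : P'.be1 ∈ L := hL (.inr .be1) (by decide)
  have m_be2' : P'.be2 ∈ L := hL (.inr .be2) (by decide)
  have m_be3' : P'.be3 ∈ L := hL (.inr .be3) (by decide)
  have m_ph' : P'.ph ∈ L := hL (.inr .ph) (by decide)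
  have m_c0' : P'.c0 ∈ L := hL (.inr .c0) (by decide)
  have m_c1' : P'.c1 ∈ L := hL (.inr .c1) (by decide)
  have m_z' : P'.z ∈ L := hL (.inr .z) (by decide)
  have m_th' : P'.th ∈ L := hL (.inr .th) (by decide)
  have m_zeta' : P'.zeta ∈ L := hL (.inr .zeta) (by decide)
  have m_al0 : P.al0 ∈ L := by rw [a0]; exact zero_mem L
  have m_al0' : P'.al0 ∈ L := by rw [a0']; exact zero_mem L
  have m_be0' : P'.be0 ∈ L := by rw [b0']; exact zero_mem L
  have m_rho : P.rho ∈ L := by rw [rh]; exact zero_mem L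
  have m_rho' : P'.rho ∈ L := by rw [rh']; exact zero_mem L
  have m_al1' : P'.al1 ∈ L := mem_lin nb m_be0
    (zero_mem L)
    (show P.be0 * P'.al1 + (0) = 0 by
      linear_combination 1 * r6 + (-1) * P.be1 * a0' + (1) * P'.be1 * a0 + (1) * P.al1 * b0')
  have m_q1' : P'.q1 ∈ L := mem_lin nb m_be0
    (zero_mem L)
    (show P.be0 * P'.q1 + (0) = 0 by
      linear_combination 1 * r13 + (1) * P.q1 * b0')
  have m_f0' : P'.f0 ∈ L := mem_lin nb m_be0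
    (zero_mem L)
    (show P.be0 * P'.f0 + (0) = 0 by
      linear_combination 1 * r19 + (1) * P.f0 * b0')
  have m_e0' : P'.e0 ∈ L := mem_lin nf m_f0
    (add_mem (neg_mem (mul_mem m_al1' m_be0)) (neg_mem (mul_mem m_e0 m_f0')))
    (show P.f0 * P'.e0 + (-(P'.al1 * P.be0) + -(P.e0 * P'.f0)) = 0 by
      linear_combination 1 * r14 + (-1) * P.al1 * b0' + (-1) * P'.be1 * a0 + (1) * P.be1 * a0')
  have m_g0' : P'.g0 ∈ L := mem_lin nb m_be0
    (add_mem (add_mem (add_mem (add_mem (add_mem (neg_mem (mul_mem m_e0 m_q1')) (mul_mem m_e0'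
      m_q1)) (neg_mem (mul_mem m_e0' m_z))) (mul_mem m_e0 m_z')) (neg_mem (mul_mem m_ph' m_zeta)))
        (mul_mem m_ph m_zeta'))
    (show P.be0 * P'.g0 + (-(P.e0 * P'.q1) + P'.e0 * P.q1 + -(P'.e0 * P.z) + P.e0 * P'.z + -(P'.ph
      * P.zeta) + P.ph * P'.zeta) = 0 by
      linear_combination (-1) * r12 + (1) * P.g0 * b0')
  have m_eta' : P'.eta ∈ L := mem_lin nb m_be0
    (add_mem (mul_mem m_c0 m_zeta') (neg_mem (mul_mem m_c0' m_zeta)))
    (show P.be0 * P'.eta + (P.c0 * P'.zeta + -(P'.c0 * P.zeta)) = 0 by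
      linear_combination 1 * r23 + (1) * P.eta * b0')
  have m_f1' : P'.f1 ∈ L := mem_lin nb m_be0
    (add_mem (add_mem (add_mem (mul_mem m_be1 m_f0') (neg_mem (mul_mem m_be1' m_f0))) (mul_mem m_c0
      m_z')) (neg_mem (mul_mem m_c0' m_z)))
    (show P.be0 * P'.f1 + (P.be1 * P'.f0 + -(P'.be1 * P.f0) + P.c0 * P'.z + -(P'.c0 * P.z)) = 0 by
      linear_combination 1 * r21 + (1) * P.f1 * b0' + (-1) * P.th * rh' + (1) * P'.th * rh)
  have m_q2' : P'.q2 ∈ L := mem_lin nb m_be0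
    (add_mem (add_mem (add_mem (mul_mem m_be1 m_q1') (neg_mem (mul_mem m_be1' m_q1))) (mul_mem m_c0
      m_e0')) (neg_mem (mul_mem m_c0' m_e0)))
    (show P.be0 * P'.q2 + (P.be1 * P'.q1 + -(P'.be1 * P.q1) + P.c0 * P'.e0 + -(P'.c0 * P.e0)) = 0 by
      linear_combination 1 * r15 + (1) * P.q2 * b0')
  have m_al2' : P'.al2 ∈ L := mem_lin nb m_be0
    (add_mem (add_mem (add_mem (mul_mem m_al1' m_be1) (neg_mem (mul_mem m_al1 m_be1'))) (mul_mem
      m_c0 m_g0')) (neg_mem (mul_mem m_c0' m_g0)))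
    (show P.be0 * P'.al2 + (P'.al1 * P.be1 + -(P.al1 * P'.be1) + P.c0 * P'.g0 + -(P'.c0 * P.g0)) =
      0 by
      linear_combination 1 * r8 + (-1) * P.be2 * a0' + (1) * P'.be2 * a0 + (1) * P.al2 * b0')
  have m_g1' : P'.g1 ∈ L := mem_lin nf m_f0
    (add_mem (add_mem (add_mem (add_mem (add_mem (add_mem (add_mem (add_mem (mul_mem m_al1' m_q2)
      (neg_mem (mul_mem m_al1 m_q2'))) (mul_mem m_al2' m_q1)) (neg_mem (mul_mem m_al2 m_q1')))
        (mul_mem m_f1 m_g0')) (neg_mem (mul_mem m_f1' m_g0))) (neg_mem (mul_mem m_f0' m_g1)))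
          (mul_mem m_eta m_pi')) (neg_mem (mul_mem m_eta' m_pi)))
    (show P.f0 * P'.g1 + (P'.al1 * P.q2 + -(P.al1 * P'.q2) + P'.al2 * P.q1 + -(P.al2 * P'.q1) +
      P.f1 * P'.g0 + -(P'.f1 * P.g0) + -(P'.f0 * P.g1) + P.eta * P'.pi + -(P'.eta * P.pi)) = 0 by
      linear_combination 1 * r9 + (-1) * P.q3 * a0' + (1) * P'.q3 * a0)
  have m_e1' : P'.e1 ∈ L := mem_lin nf m_f0
    (add_mem (add_mem (add_mem (add_mem (add_mem (add_mem (add_mem (neg_mem (mul_mem m_al2' m_be0))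
      (mul_mem m_al1 m_be1')) (neg_mem (mul_mem m_al1' m_be1))) (mul_mem m_e0' m_f1)) (neg_mem
        (mul_mem m_e0 m_f1'))) (neg_mem (mul_mem m_e1 m_f0'))) (mul_mem m_eta m_ph')) (neg_mem
          (mul_mem m_eta' m_ph)))
    (show P.f0 * P'.e1 + (-(P'.al2 * P.be0) + P.al1 * P'.be1 + -(P'.al1 * P.be1) + P'.e0 * P.f1 +
      -(P.e0 * P'.f1) + -(P.e1 * P'.f0) + P.eta * P'.ph + -(P'.eta * P.ph)) = 0 by
      linear_combination 1 * r16 + (-1) * P.al2 * b0' + (-1) * P'.be2 * a0 + (1) * P.be2 * a0')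
  have m_al3' : P'.al3 ∈ L := mem_lin nb m_be0
    (add_mem (add_mem (add_mem (add_mem (add_mem (add_mem (add_mem (add_mem (add_mem (mul_mem
      m_al1' m_be2) (neg_mem (mul_mem m_al1 m_be2'))) (mul_mem m_al2' m_be1)) (neg_mem (mul_mem
        m_al2 m_be1'))) (mul_mem m_c1 m_g0')) (neg_mem (mul_mem m_c1' m_g0))) (mul_mem m_c0 m_g1'))
          (neg_mem (mul_mem m_c0' m_g1))) (mul_mem m_pi' m_th)) (neg_mem (mul_mem m_pi m_th')))
    (show P.be0 * P'.al3 + (P'.al1 * P.be2 + -(P.al1 * P'.be2) + P'.al2 * P.be1 + -(P.al2 * P'.be1)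
      + P.c1 * P'.g0 + -(P'.c1 * P.g0) + P.c0 * P'.g1 + -(P'.c0 * P.g1) + P'.pi * P.th + -(P.pi *
        P'.th)) = 0 by
      linear_combination 1 * r10 + (-1) * P.be3 * a0' + (1) * P'.be3 * a0 + (1) * P.al3 * b0')
  have m_q3' : P'.q3 ∈ L := mem_lin nb m_be0
    (add_mem (add_mem (add_mem (add_mem (add_mem (add_mem (add_mem (add_mem (add_mem (mul_mem m_be2
      m_q1') (neg_mem (mul_mem m_be2' m_q1))) (mul_mem m_be1 m_q2')) (neg_mem (mul_mem m_be1'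
        m_q2))) (mul_mem m_c1 m_e0')) (neg_mem (mul_mem m_c1' m_e0))) (mul_mem m_c0 m_e1'))
          (neg_mem (mul_mem m_c0' m_e1))) (mul_mem m_ph' m_th)) (neg_mem (mul_mem m_ph m_th')))
    (show P.be0 * P'.q3 + (P.be2 * P'.q1 + -(P'.be2 * P.q1) + P.be1 * P'.q2 + -(P'.be1 * P.q2) +
      P.c1 * P'.e0 + -(P'.c1 * P.e0) + P.c0 * P'.e1 + -(P'.c0 * P.e1) + P'.ph * P.th + -(P.ph *
        P'.th)) = 0 by
      linear_combination 1 * r17 + (1) * P.q3 * b0')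
  exact mem_all P P' ⟨m_al0, m_al1, m_al2, m_al3, m_g0, m_g1, m_pi, m_be0, m_be1, m_be2, m_be3,
    m_q1, m_q2, m_q3, m_e0, m_e1, m_ph, m_c0, m_c1, m_f0, m_f1, m_z, m_rho, m_th, m_eta, m_zeta⟩
    ⟨m_al0', m_al1', m_al2', m_al3', m_g0', m_g1', m_pi', m_be0', m_be1', m_be2', m_be3', m_q1',
      m_q2', m_q3', m_e0', m_e1', m_ph', m_c0', m_c1', m_f0', m_f1', m_z', m_rho', m_th', m_eta',
        m_zeta'⟩

theorem ii_b1 {P P' : Par K} (h : Rel P P')
    (a0 : P.al0 = 0) (a0' : P'.al0 = 0) (b0' : P'.be0 = 0) (ze : P.zeta = 0) (ze' : P'.zeta = 0)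
    (nb : P.be0 ≠ 0) (nf : P.f0 ≠ 0) :
    rk k (Set.range (vals P P')) + 18 ≤ 52 := by
  obtain ⟨r1, r2, r3, r4, r5, r6, r7, r8, r9, r10, r11, r12, r13, r14, r15, r16, r17, r18, r19,
    r20, r21, r22, r23⟩ := h
  simp only [Br] at *
  refine rk_det P P' {.inl .al0, .inr .al0, .inr .be0, .inl .zeta, .inr .zeta, .inr .al1, .inr .q1,
    .inr .f0, .inr .e0, .inr .g0, .inr .eta, .inr .f1, .inr .q2, .inr .al2, .inr .g1, .inr .e1,
      .inr .al3, .inr .q3} (by decide) fun L hL => ?_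
  have m_al1 : P.al1 ∈ L := hL (.inl .al1) (by decide)
  have m_al2 : P.al2 ∈ L := hL (.inl .al2) (by decide)
  have m_al3 : P.al3 ∈ L := hL (.inl .al3) (by decide)
  have m_g0 : P.g0 ∈ L := hL (.inl .g0) (by decide)
  have m_g1 : P.g1 ∈ L := hL (.inl .g1) (by decide)
  have m_pi : P.pi ∈ L := hL (.inl .pi) (by decide)
  have m_be0 : P.be0 ∈ L := hL (.inl .be0) (by decide)
  have m_be1 : P.be1 ∈ L := hL (.inl .be1) (by decide)
  have m_be2 : P.be2 ∈ L := hL (.inl .be2) (by decide)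
  have m_be3 : P.be3 ∈ L := hL (.inl .be3) (by decide)
  have m_q1 : P.q1 ∈ L := hL (.inl .q1) (by decide)
  have m_q2 : P.q2 ∈ L := hL (.inl .q2) (by decide)
  have m_q3 : P.q3 ∈ L := hL (.inl .q3) (by decide)
  have m_e0 : P.e0 ∈ L := hL (.inl .e0) (by decide)
  have m_e1 : P.e1 ∈ L := hL (.inl .e1) (by decide)
  have m_ph : P.ph ∈ L := hL (.inl .ph) (by decide)
  have m_c0 : P.c0 ∈ L := hL (.inl .c0) (by decide)
  have m_c1 : P.c1 ∈ L := hL (.inl .c1) (by decide)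
  have m_f0 : P.f0 ∈ L := hL (.inl .f0) (by decide)
  have m_f1 : P.f1 ∈ L := hL (.inl .f1) (by decide)
  have m_z : P.z ∈ L := hL (.inl .z) (by decide)
  have m_rho : P.rho ∈ L := hL (.inl .rho) (by decide)
  have m_th : P.th ∈ L := hL (.inl .th) (by decide)
  have m_eta : P.eta ∈ L := hL (.inl .eta) (by decide)
  have m_pi' : P'.pi ∈ L := hL (.inr .pi) (by decide)
  have m_be1' : P'.be1 ∈ L := hL (.inr .be1) (by decide)
  have m_be2' : P'.be2 ∈ L := hL (.inr .be2) (by decide)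
  have m_be3' : P'.be3 ∈ L := hL (.inr .be3) (by decide)
  have m_ph' : P'.ph ∈ L := hL (.inr .ph) (by decide)
  have m_c0' : P'.c0 ∈ L := hL (.inr .c0) (by decide)
  have m_c1' : P'.c1 ∈ L := hL (.inr .c1) (by decide)
  have m_z' : P'.z ∈ L := hL (.inr .z) (by decide)
  have m_rho' : P'.rho ∈ L := hL (.inr .rho) (by decide)
  have m_th' : P'.th ∈ L := hL (.inr .th) (by decide)
  have m_al0 : P.al0 ∈ L := by rw [a0]; exact zero_mem L
  have m_al0' : P'.al0 ∈ L := by rw [a0']; exact zero_mem L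
  have m_be0' : P'.be0 ∈ L := by rw [b0']; exact zero_mem L
  have m_zeta : P.zeta ∈ L := by rw [ze]; exact zero_mem L
  have m_zeta' : P'.zeta ∈ L := by rw [ze']; exact zero_mem L
  have m_al1' : P'.al1 ∈ L := mem_lin nb m_be0
    (zero_mem L)
    (show P.be0 * P'.al1 + (0) = 0 by
      linear_combination 1 * r6 + (-1) * P.be1 * a0' + (1) * P'.be1 * a0 + (1) * P.al1 * b0')
  have m_q1' : P'.q1 ∈ L := mem_lin nb m_be0
    (zero_mem L)
    (show P.be0 * P'.q1 + (0) = 0 by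
      linear_combination 1 * r13 + (1) * P.q1 * b0')
  have m_f0' : P'.f0 ∈ L := mem_lin nb m_be0
    (zero_mem L)
    (show P.be0 * P'.f0 + (0) = 0 by
      linear_combination 1 * r19 + (1) * P.f0 * b0')
  have m_e0' : P'.e0 ∈ L := mem_lin nf m_f0
    (add_mem (neg_mem (mul_mem m_al1' m_be0)) (neg_mem (mul_mem m_e0 m_f0')))
    (show P.f0 * P'.e0 + (-(P'.al1 * P.be0) + -(P.e0 * P'.f0)) = 0 by
      linear_combination 1 * r14 + (-1) * P.al1 * b0' + (-1) * P'.be1 * a0 + (1) * P.be1 * a0')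
  have m_g0' : P'.g0 ∈ L := mem_lin nb m_be0
    (add_mem (add_mem (add_mem (neg_mem (mul_mem m_e0 m_q1')) (mul_mem m_e0' m_q1)) (neg_mem
      (mul_mem m_e0' m_z))) (mul_mem m_e0 m_z'))
    (show P.be0 * P'.g0 + (-(P.e0 * P'.q1) + P'.e0 * P.q1 + -(P'.e0 * P.z) + P.e0 * P'.z) = 0 by
      linear_combination (-1) * r12 + (1) * P.g0 * b0' + (1) * P'.ph * ze + (-1) * P.ph * ze')
  have m_eta' : P'.eta ∈ L := mem_lin nb m_be0
    (zero_mem L)
    (show P.be0 * P'.eta + (0) = 0 by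
      linear_combination 1 * r23 + (1) * P.eta * b0' + (-1) * P.c0 * ze' + (1) * P'.c0 * ze)
  have m_f1' : P'.f1 ∈ L := mem_lin nb m_be0
    (add_mem (add_mem (add_mem (add_mem (add_mem (mul_mem m_be1 m_f0') (neg_mem (mul_mem m_be1'
      m_f0))) (mul_mem m_c0 m_z')) (neg_mem (mul_mem m_c0' m_z))) (mul_mem m_rho' m_th)) (neg_mem
        (mul_mem m_rho m_th')))
    (show P.be0 * P'.f1 + (P.be1 * P'.f0 + -(P'.be1 * P.f0) + P.c0 * P'.z + -(P'.c0 * P.z) + P'.rho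
      * P.th + -(P.rho * P'.th)) = 0 by
      linear_combination 1 * r21 + (1) * P.f1 * b0')
  have m_q2' : P'.q2 ∈ L := mem_lin nb m_be0
    (add_mem (add_mem (add_mem (mul_mem m_be1 m_q1') (neg_mem (mul_mem m_be1' m_q1))) (mul_mem m_c0
      m_e0')) (neg_mem (mul_mem m_c0' m_e0)))
    (show P.be0 * P'.q2 + (P.be1 * P'.q1 + -(P'.be1 * P.q1) + P.c0 * P'.e0 + -(P'.c0 * P.e0)) = 0 by
      linear_combination 1 * r15 + (1) * P.q2 * b0')
  have m_al2' : P'.al2 ∈ L := mem_lin nb m_be0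
    (add_mem (add_mem (add_mem (mul_mem m_al1' m_be1) (neg_mem (mul_mem m_al1 m_be1'))) (mul_mem
      m_c0 m_g0')) (neg_mem (mul_mem m_c0' m_g0)))
    (show P.be0 * P'.al2 + (P'.al1 * P.be1 + -(P.al1 * P'.be1) + P.c0 * P'.g0 + -(P'.c0 * P.g0)) =
      0 by
      linear_combination 1 * r8 + (-1) * P.be2 * a0' + (1) * P'.be2 * a0 + (1) * P.al2 * b0')
  have m_g1' : P'.g1 ∈ L := mem_lin nf m_f0
    (add_mem (add_mem (add_mem (add_mem (add_mem (add_mem (add_mem (add_mem (mul_mem m_al1' m_q2)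
      (neg_mem (mul_mem m_al1 m_q2'))) (mul_mem m_al2' m_q1)) (neg_mem (mul_mem m_al2 m_q1')))
        (mul_mem m_f1 m_g0')) (neg_mem (mul_mem m_f1' m_g0))) (neg_mem (mul_mem m_f0' m_g1)))
          (mul_mem m_eta m_pi')) (neg_mem (mul_mem m_eta' m_pi)))
    (show P.f0 * P'.g1 + (P'.al1 * P.q2 + -(P.al1 * P'.q2) + P'.al2 * P.q1 + -(P.al2 * P'.q1) +
      P.f1 * P'.g0 + -(P'.f1 * P.g0) + -(P'.f0 * P.g1) + P.eta * P'.pi + -(P'.eta * P.pi)) = 0 by
      linear_combination 1 * r9 + (-1) * P.q3 * a0' + (1) * P'.q3 * a0)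
  have m_e1' : P'.e1 ∈ L := mem_lin nf m_f0
    (add_mem (add_mem (add_mem (add_mem (add_mem (add_mem (add_mem (neg_mem (mul_mem m_al2' m_be0))
      (mul_mem m_al1 m_be1')) (neg_mem (mul_mem m_al1' m_be1))) (mul_mem m_e0' m_f1)) (neg_mem
        (mul_mem m_e0 m_f1'))) (neg_mem (mul_mem m_e1 m_f0'))) (mul_mem m_eta m_ph')) (neg_mem
          (mul_mem m_eta' m_ph)))
    (show P.f0 * P'.e1 + (-(P'.al2 * P.be0) + P.al1 * P'.be1 + -(P'.al1 * P.be1) + P'.e0 * P.f1 +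
      -(P.e0 * P'.f1) + -(P.e1 * P'.f0) + P.eta * P'.ph + -(P'.eta * P.ph)) = 0 by
      linear_combination 1 * r16 + (-1) * P.al2 * b0' + (-1) * P'.be2 * a0 + (1) * P.be2 * a0')
  have m_al3' : P'.al3 ∈ L := mem_lin nb m_be0
    (add_mem (add_mem (add_mem (add_mem (add_mem (add_mem (add_mem (add_mem (add_mem (mul_mem
      m_al1' m_be2) (neg_mem (mul_mem m_al1 m_be2'))) (mul_mem m_al2' m_be1)) (neg_mem (mul_mem
        m_al2 m_be1'))) (mul_mem m_c1 m_g0')) (neg_mem (mul_mem m_c1' m_g0))) (mul_mem m_c0 m_g1'))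
          (neg_mem (mul_mem m_c0' m_g1))) (mul_mem m_pi' m_th)) (neg_mem (mul_mem m_pi m_th')))
    (show P.be0 * P'.al3 + (P'.al1 * P.be2 + -(P.al1 * P'.be2) + P'.al2 * P.be1 + -(P.al2 * P'.be1)
      + P.c1 * P'.g0 + -(P'.c1 * P.g0) + P.c0 * P'.g1 + -(P'.c0 * P.g1) + P'.pi * P.th + -(P.pi *
        P'.th)) = 0 by
      linear_combination 1 * r10 + (-1) * P.be3 * a0' + (1) * P'.be3 * a0 + (1) * P.al3 * b0')
  have m_q3' : P'.q3 ∈ L := mem_lin nb m_be0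
    (add_mem (add_mem (add_mem (add_mem (add_mem (add_mem (add_mem (add_mem (add_mem (mul_mem m_be2
      m_q1') (neg_mem (mul_mem m_be2' m_q1))) (mul_mem m_be1 m_q2')) (neg_mem (mul_mem m_be1'
        m_q2))) (mul_mem m_c1 m_e0')) (neg_mem (mul_mem m_c1' m_e0))) (mul_mem m_c0 m_e1'))
          (neg_mem (mul_mem m_c0' m_e1))) (mul_mem m_ph' m_th)) (neg_mem (mul_mem m_ph m_th')))
    (show P.be0 * P'.q3 + (P.be2 * P'.q1 + -(P'.be2 * P.q1) + P.be1 * P'.q2 + -(P'.be1 * P.q2) +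
      P.c1 * P'.e0 + -(P'.c1 * P.e0) + P.c0 * P'.e1 + -(P'.c0 * P.e1) + P'.ph * P.th + -(P.ph *
        P'.th)) = 0 by
      linear_combination 1 * r17 + (1) * P.q3 * b0')
  exact mem_all P P' ⟨m_al0, m_al1, m_al2, m_al3, m_g0, m_g1, m_pi, m_be0, m_be1, m_be2, m_be3,
    m_q1, m_q2, m_q3, m_e0, m_e1, m_ph, m_c0, m_c1, m_f0, m_f1, m_z, m_rho, m_th, m_eta, m_zeta⟩
    ⟨m_al0', m_al1', m_al2', m_al3', m_g0', m_g1', m_pi', m_be0', m_be1', m_be2', m_be3', m_q1',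
      m_q2', m_q3', m_e0', m_e1', m_ph', m_c0', m_c1', m_f0', m_f1', m_z', m_rho', m_th', m_eta',
        m_zeta'⟩

theorem ii_a2i {P P' : Par K} (h : Rel P P')
    (a0 : P.al0 = 0) (a0' : P'.al0 = 0) (b0' : P'.be0 = 0) (rh : P.rho = 0) (rh' : P'.rho = 0)
    (f0z : P.f0 = 0) (ze : P.zeta = 0) (ze' : P'.zeta = 0)
    (nb : P.be0 ≠ 0) :
    rk k (Set.range (vals P P')) + 18 ≤ 52 := by
  obtain ⟨r1, r2, r3, r4, r5, r6, r7, r8, r9, r10, r11, r12, r13, r14, r15, r16, r17, r18, r19,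
    r20, r21, r22, r23⟩ := h
  simp only [Br] at *
  refine rk_det P P' {.inl .al0, .inr .al0, .inr .be0, .inl .rho, .inr .rho, .inl .f0, .inl .zeta,
    .inr .zeta, .inr .al1, .inr .q1, .inr .f0, .inr .g0, .inr .eta, .inr .f1, .inr .q2, .inr .al2,
      .inr .al3, .inr .q3} (by decide) fun L hL => ?_
  have m_al1 : P.al1 ∈ L := hL (.inl .al1) (by decide)
  have m_al2 : P.al2 ∈ L := hL (.inl .al2) (by decide)
  have m_al3 : P.al3 ∈ L := hL (.inl .al3) (by decide)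
  have m_g0 : P.g0 ∈ L := hL (.inl .g0) (by decide)
  have m_g1 : P.g1 ∈ L := hL (.inl .g1) (by decide)
  have m_pi : P.pi ∈ L := hL (.inl .pi) (by decide)
  have m_be0 : P.be0 ∈ L := hL (.inl .be0) (by decide)
  have m_be1 : P.be1 ∈ L := hL (.inl .be1) (by decide)
  have m_be2 : P.be2 ∈ L := hL (.inl .be2) (by decide)
  have m_be3 : P.be3 ∈ L := hL (.inl .be3) (by decide)
  have m_q1 : P.q1 ∈ L := hL (.inl .q1) (by decide)
  have m_q2 : P.q2 ∈ L := hL (.inl .q2) (by decide)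
  have m_q3 : P.q3 ∈ L := hL (.inl .q3) (by decide)
  have m_e0 : P.e0 ∈ L := hL (.inl .e0) (by decide)
  have m_e1 : P.e1 ∈ L := hL (.inl .e1) (by decide)
  have m_ph : P.ph ∈ L := hL (.inl .ph) (by decide)
  have m_c0 : P.c0 ∈ L := hL (.inl .c0) (by decide)
  have m_c1 : P.c1 ∈ L := hL (.inl .c1) (by decide)
  have m_f1 : P.f1 ∈ L := hL (.inl .f1) (by decide)
  have m_z : P.z ∈ L := hL (.inl .z) (by decide)
  have m_th : P.th ∈ L := hL (.inl .th) (by decide)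
  have m_eta : P.eta ∈ L := hL (.inl .eta) (by decide)
  have m_g1' : P'.g1 ∈ L := hL (.inr .g1) (by decide)
  have m_pi' : P'.pi ∈ L := hL (.inr .pi) (by decide)
  have m_be1' : P'.be1 ∈ L := hL (.inr .be1) (by decide)
  have m_be2' : P'.be2 ∈ L := hL (.inr .be2) (by decide)
  have m_be3' : P'.be3 ∈ L := hL (.inr .be3) (by decide)
  have m_e0' : P'.e0 ∈ L := hL (.inr .e0) (by decide)
  have m_e1' : P'.e1 ∈ L := hL (.inr .e1) (by decide)
  have m_ph' : P'.ph ∈ L := hL (.inr .ph) (by decide)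
  have m_c0' : P'.c0 ∈ L := hL (.inr .c0) (by decide)
  have m_c1' : P'.c1 ∈ L := hL (.inr .c1) (by decide)
  have m_z' : P'.z ∈ L := hL (.inr .z) (by decide)
  have m_th' : P'.th ∈ L := hL (.inr .th) (by decide)
  have m_al0 : P.al0 ∈ L := by rw [a0]; exact zero_mem L
  have m_al0' : P'.al0 ∈ L := by rw [a0']; exact zero_mem L
  have m_be0' : P'.be0 ∈ L := by rw [b0']; exact zero_mem L
  have m_rho : P.rho ∈ L := by rw [rh]; exact zero_mem L
  have m_rho' : P'.rho ∈ L := by rw [rh']; exact zero_mem L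
  have m_f0 : P.f0 ∈ L := by rw [f0z]; exact zero_mem L
  have m_zeta : P.zeta ∈ L := by rw [ze]; exact zero_mem L
  have m_zeta' : P'.zeta ∈ L := by rw [ze']; exact zero_mem L
  have m_al1' : P'.al1 ∈ L := mem_lin nb m_be0
    (zero_mem L)
    (show P.be0 * P'.al1 + (0) = 0 by
      linear_combination 1 * r6 + (-1) * P.be1 * a0' + (1) * P'.be1 * a0 + (1) * P.al1 * b0')
  have m_q1' : P'.q1 ∈ L := mem_lin nb m_be0
    (zero_mem L)
    (show P.be0 * P'.q1 + (0) = 0 by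
      linear_combination 1 * r13 + (1) * P.q1 * b0')
  have m_f0' : P'.f0 ∈ L := mem_lin nb m_be0
    (zero_mem L)
    (show P.be0 * P'.f0 + (0) = 0 by
      linear_combination 1 * r19 + (1) * P.f0 * b0')
  have m_g0' : P'.g0 ∈ L := mem_lin nb m_be0
    (add_mem (add_mem (add_mem (neg_mem (mul_mem m_e0 m_q1')) (mul_mem m_e0' m_q1)) (neg_mem
      (mul_mem m_e0' m_z))) (mul_mem m_e0 m_z'))
    (show P.be0 * P'.g0 + (-(P.e0 * P'.q1) + P'.e0 * P.q1 + -(P'.e0 * P.z) + P.e0 * P'.z) = 0 by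
      linear_combination (-1) * r12 + (1) * P.g0 * b0' + (1) * P'.ph * ze + (-1) * P.ph * ze')
  have m_eta' : P'.eta ∈ L := mem_lin nb m_be0
    (zero_mem L)
    (show P.be0 * P'.eta + (0) = 0 by
      linear_combination 1 * r23 + (1) * P.eta * b0' + (-1) * P.c0 * ze' + (1) * P'.c0 * ze)
  have m_f1' : P'.f1 ∈ L := mem_lin nb m_be0
    (add_mem (add_mem (mul_mem m_be1 m_f0') (mul_mem m_c0 m_z')) (neg_mem (mul_mem m_c0' m_z)))
    (show P.be0 * P'.f1 + (P.be1 * P'.f0 + P.c0 * P'.z + -(P'.c0 * P.z)) = 0 by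
      linear_combination 1 * r21 + (1) * P'.be1 * f0z + (1) * P.f1 * b0' + (-1) * P.th * rh' + (1)
        * P'.th * rh)
  have m_q2' : P'.q2 ∈ L := mem_lin nb m_be0
    (add_mem (add_mem (add_mem (mul_mem m_be1 m_q1') (neg_mem (mul_mem m_be1' m_q1))) (mul_mem m_c0
      m_e0')) (neg_mem (mul_mem m_c0' m_e0)))
    (show P.be0 * P'.q2 + (P.be1 * P'.q1 + -(P'.be1 * P.q1) + P.c0 * P'.e0 + -(P'.c0 * P.e0)) = 0 by
      linear_combination 1 * r15 + (1) * P.q2 * b0')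
  have m_al2' : P'.al2 ∈ L := mem_lin nb m_be0
    (add_mem (add_mem (add_mem (mul_mem m_al1' m_be1) (neg_mem (mul_mem m_al1 m_be1'))) (mul_mem
      m_c0 m_g0')) (neg_mem (mul_mem m_c0' m_g0)))
    (show P.be0 * P'.al2 + (P'.al1 * P.be1 + -(P.al1 * P'.be1) + P.c0 * P'.g0 + -(P'.c0 * P.g0)) =
      0 by
      linear_combination 1 * r8 + (-1) * P.be2 * a0' + (1) * P'.be2 * a0 + (1) * P.al2 * b0')
  have m_al3' : P'.al3 ∈ L := mem_lin nb m_be0
    (add_mem (add_mem (add_mem (add_mem (add_mem (add_mem (add_mem (add_mem (add_mem (mul_mem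
      m_al1' m_be2) (neg_mem (mul_mem m_al1 m_be2'))) (mul_mem m_al2' m_be1)) (neg_mem (mul_mem
        m_al2 m_be1'))) (mul_mem m_c1 m_g0')) (neg_mem (mul_mem m_c1' m_g0))) (mul_mem m_c0 m_g1'))
          (neg_mem (mul_mem m_c0' m_g1))) (mul_mem m_pi' m_th)) (neg_mem (mul_mem m_pi m_th')))
    (show P.be0 * P'.al3 + (P'.al1 * P.be2 + -(P.al1 * P'.be2) + P'.al2 * P.be1 + -(P.al2 * P'.be1)
      + P.c1 * P'.g0 + -(P'.c1 * P.g0) + P.c0 * P'.g1 + -(P'.c0 * P.g1) + P'.pi * P.th + -(P.pi *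
        P'.th)) = 0 by
      linear_combination 1 * r10 + (-1) * P.be3 * a0' + (1) * P'.be3 * a0 + (1) * P.al3 * b0')
  have m_q3' : P'.q3 ∈ L := mem_lin nb m_be0
    (add_mem (add_mem (add_mem (add_mem (add_mem (add_mem (add_mem (add_mem (add_mem (mul_mem m_be2
      m_q1') (neg_mem (mul_mem m_be2' m_q1))) (mul_mem m_be1 m_q2')) (neg_mem (mul_mem m_be1'
        m_q2))) (mul_mem m_c1 m_e0')) (neg_mem (mul_mem m_c1' m_e0))) (mul_mem m_c0 m_e1'))
          (neg_mem (mul_mem m_c0' m_e1))) (mul_mem m_ph' m_th)) (neg_mem (mul_mem m_ph m_th')))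
    (show P.be0 * P'.q3 + (P.be2 * P'.q1 + -(P'.be2 * P.q1) + P.be1 * P'.q2 + -(P'.be1 * P.q2) +
      P.c1 * P'.e0 + -(P'.c1 * P.e0) + P.c0 * P'.e1 + -(P'.c0 * P.e1) + P'.ph * P.th + -(P.ph *
        P'.th)) = 0 by
      linear_combination 1 * r17 + (1) * P.q3 * b0')
  exact mem_all P P' ⟨m_al0, m_al1, m_al2, m_al3, m_g0, m_g1, m_pi, m_be0, m_be1, m_be2, m_be3,
    m_q1, m_q2, m_q3, m_e0, m_e1, m_ph, m_c0, m_c1, m_f0, m_f1, m_z, m_rho, m_th, m_eta, m_zeta⟩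
    ⟨m_al0', m_al1', m_al2', m_al3', m_g0', m_g1', m_pi', m_be0', m_be1', m_be2', m_be3', m_q1',
      m_q2', m_q3', m_e0', m_e1', m_ph', m_c0', m_c1', m_f0', m_f1', m_z', m_rho', m_th', m_eta',
        m_zeta'⟩

theorem ii_a2iiA {P P' : Par K} (h : Rel P P')
    (a0 : P.al0 = 0) (a0' : P'.al0 = 0) (b0' : P'.be0 = 0) (rh : P.rho = 0) (rh' : P'.rho = 0)
    (f0z : P.f0 = 0)
    (nb : P.be0 ≠ 0) (nz : P.zeta ≠ 0) (ne : P'.e0 ≠ 0) :
    rk k (Set.range (vals P P')) + 18 ≤ 52 := by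
  obtain ⟨r1, r2, r3, r4, r5, r6, r7, r8, r9, r10, r11, r12, r13, r14, r15, r16, r17, r18, r19,
    r20, r21, r22, r23⟩ := h
  simp only [Br] at *
  refine rk_det P P' {.inl .al0, .inr .al0, .inr .be0, .inl .rho, .inr .rho, .inl .f0, .inr .al1,
    .inr .q1, .inr .f0, .inr .g0, .inr .pi, .inr .eta, .inr .f1, .inl .f1, .inr .q2, .inr .al2,
      .inr .al3, .inr .q3} (by decide) fun L hL => ?_
  have m_al1 : P.al1 ∈ L := hL (.inl .al1) (by decide)
  have m_al2 : P.al2 ∈ L := hL (.inl .al2) (by decide)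
  have m_al3 : P.al3 ∈ L := hL (.inl .al3) (by decide)
  have m_g0 : P.g0 ∈ L := hL (.inl .g0) (by decide)
  have m_g1 : P.g1 ∈ L := hL (.inl .g1) (by decide)
  have m_pi : P.pi ∈ L := hL (.inl .pi) (by decide)
  have m_be0 : P.be0 ∈ L := hL (.inl .be0) (by decide)
  have m_be1 : P.be1 ∈ L := hL (.inl .be1) (by decide)
  have m_be2 : P.be2 ∈ L := hL (.inl .be2) (by decide)
  have m_be3 : P.be3 ∈ L := hL (.inl .be3) (by decide)
  have m_q1 : P.q1 ∈ L := hL (.inl .q1) (by decide)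
  have m_q2 : P.q2 ∈ L := hL (.inl .q2) (by decide)
  have m_q3 : P.q3 ∈ L := hL (.inl .q3) (by decide)
  have m_e0 : P.e0 ∈ L := hL (.inl .e0) (by decide)
  have m_e1 : P.e1 ∈ L := hL (.inl .e1) (by decide)
  have m_ph : P.ph ∈ L := hL (.inl .ph) (by decide)
  have m_c0 : P.c0 ∈ L := hL (.inl .c0) (by decide)
  have m_c1 : P.c1 ∈ L := hL (.inl .c1) (by decide)
  have m_z : P.z ∈ L := hL (.inl .z) (by decide)
  have m_th : P.th ∈ L := hL (.inl .th) (by decide)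
  have m_eta : P.eta ∈ L := hL (.inl .eta) (by decide)
  have m_zeta : P.zeta ∈ L := hL (.inl .zeta) (by decide)
  have m_g1' : P'.g1 ∈ L := hL (.inr .g1) (by decide)
  have m_be1' : P'.be1 ∈ L := hL (.inr .be1) (by decide)
  have m_be2' : P'.be2 ∈ L := hL (.inr .be2) (by decide)
  have m_be3' : P'.be3 ∈ L := hL (.inr .be3) (by decide)
  have m_e0' : P'.e0 ∈ L := hL (.inr .e0) (by decide)
  have m_e1' : P'.e1 ∈ L := hL (.inr .e1) (by decide)
  have m_ph' : P'.ph ∈ L := hL (.inr .ph) (by decide)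
  have m_c0' : P'.c0 ∈ L := hL (.inr .c0) (by decide)
  have m_c1' : P'.c1 ∈ L := hL (.inr .c1) (by decide)
  have m_z' : P'.z ∈ L := hL (.inr .z) (by decide)
  have m_th' : P'.th ∈ L := hL (.inr .th) (by decide)
  have m_zeta' : P'.zeta ∈ L := hL (.inr .zeta) (by decide)
  have m_al0 : P.al0 ∈ L := by rw [a0]; exact zero_mem L
  have m_al0' : P'.al0 ∈ L := by rw [a0']; exact zero_mem L
  have m_be0' : P'.be0 ∈ L := by rw [b0']; exact zero_mem L
  have m_rho : P.rho ∈ L := by rw [rh]; exact zero_mem L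
  have m_rho' : P'.rho ∈ L := by rw [rh']; exact zero_mem L
  have m_f0 : P.f0 ∈ L := by rw [f0z]; exact zero_mem L
  have m_al1' : P'.al1 ∈ L := mem_lin nb m_be0
    (zero_mem L)
    (show P.be0 * P'.al1 + (0) = 0 by
      linear_combination 1 * r6 + (-1) * P.be1 * a0' + (1) * P'.be1 * a0 + (1) * P.al1 * b0')
  have m_q1' : P'.q1 ∈ L := mem_lin nb m_be0
    (zero_mem L)
    (show P.be0 * P'.q1 + (0) = 0 by
      linear_combination 1 * r13 + (1) * P.q1 * b0')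
  have m_f0' : P'.f0 ∈ L := mem_lin nb m_be0
    (zero_mem L)
    (show P.be0 * P'.f0 + (0) = 0 by
      linear_combination 1 * r19 + (1) * P.f0 * b0')
  have m_g0' : P'.g0 ∈ L := mem_lin nb m_be0
    (add_mem (add_mem (add_mem (add_mem (add_mem (neg_mem (mul_mem m_e0 m_q1')) (mul_mem m_e0'
      m_q1)) (neg_mem (mul_mem m_e0' m_z))) (mul_mem m_e0 m_z')) (neg_mem (mul_mem m_ph' m_zeta)))
        (mul_mem m_ph m_zeta'))
    (show P.be0 * P'.g0 + (-(P.e0 * P'.q1) + P'.e0 * P.q1 + -(P'.e0 * P.z) + P.e0 * P'.z + -(P'.ph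
      * P.zeta) + P.ph * P'.zeta) = 0 by
      linear_combination (-1) * r12 + (1) * P.g0 * b0')
  have m_pi' : P'.pi ∈ L := mem_lin nz m_zeta
    (add_mem (add_mem (add_mem (add_mem (mul_mem m_al1' m_e0) (neg_mem (mul_mem m_al1 m_e0')))
      (mul_mem m_g0' m_z)) (neg_mem (mul_mem m_g0 m_z'))) (neg_mem (mul_mem m_pi m_zeta')))
    (show P.zeta * P'.pi + (P'.al1 * P.e0 + -(P.al1 * P'.e0) + P'.g0 * P.z + -(P.g0 * P'.z) +
      -(P.pi * P'.zeta)) = 0 by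
      linear_combination 1 * r5 + (-1) * P.e1 * a0' + (1) * P'.e1 * a0)
  have m_eta' : P'.eta ∈ L := mem_lin nb m_be0
    (add_mem (mul_mem m_c0 m_zeta') (neg_mem (mul_mem m_c0' m_zeta)))
    (show P.be0 * P'.eta + (P.c0 * P'.zeta + -(P'.c0 * P.zeta)) = 0 by
      linear_combination 1 * r23 + (1) * P.eta * b0')
  have m_f1' : P'.f1 ∈ L := mem_lin nb m_be0
    (add_mem (add_mem (mul_mem m_be1 m_f0') (mul_mem m_c0 m_z')) (neg_mem (mul_mem m_c0' m_z)))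
    (show P.be0 * P'.f1 + (P.be1 * P'.f0 + P.c0 * P'.z + -(P'.c0 * P.z)) = 0 by
      linear_combination 1 * r21 + (1) * P'.be1 * f0z + (1) * P.f1 * b0' + (-1) * P.th * rh' + (1)
        * P'.th * rh)
  have m_f1 : P.f1 ∈ L := mem_lin ne m_e0'
    (add_mem (add_mem (add_mem (add_mem (add_mem (mul_mem m_c0 m_g0') (neg_mem (mul_mem m_c0'
      m_g0))) (neg_mem (mul_mem m_e0 m_f1'))) (neg_mem (mul_mem m_e1 m_f0'))) (mul_mem m_eta
        m_ph')) (neg_mem (mul_mem m_eta' m_ph)))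
    (show P'.e0 * P.f1 + (P.c0 * P'.g0 + -(P'.c0 * P.g0) + -(P.e0 * P'.f1) + -(P.e1 * P'.f0) +
      P.eta * P'.ph + -(P'.eta * P.ph)) = 0 by
      linear_combination 1 * r8 + 1 * r16 + (-1) * P'.e1 * f0z)
  have m_q2' : P'.q2 ∈ L := mem_lin nb m_be0
    (add_mem (add_mem (add_mem (mul_mem m_be1 m_q1') (neg_mem (mul_mem m_be1' m_q1))) (mul_mem m_c0
      m_e0')) (neg_mem (mul_mem m_c0' m_e0)))
    (show P.be0 * P'.q2 + (P.be1 * P'.q1 + -(P'.be1 * P.q1) + P.c0 * P'.e0 + -(P'.c0 * P.e0)) = 0 by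
      linear_combination 1 * r15 + (1) * P.q2 * b0')
  have m_al2' : P'.al2 ∈ L := mem_lin nb m_be0
    (add_mem (add_mem (add_mem (mul_mem m_al1' m_be1) (neg_mem (mul_mem m_al1 m_be1'))) (mul_mem
      m_c0 m_g0')) (neg_mem (mul_mem m_c0' m_g0)))
    (show P.be0 * P'.al2 + (P'.al1 * P.be1 + -(P.al1 * P'.be1) + P.c0 * P'.g0 + -(P'.c0 * P.g0)) =
      0 by
      linear_combination 1 * r8 + (-1) * P.be2 * a0' + (1) * P'.be2 * a0 + (1) * P.al2 * b0')
  have m_al3' : P'.al3 ∈ L := mem_lin nb m_be0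
    (add_mem (add_mem (add_mem (add_mem (add_mem (add_mem (add_mem (add_mem (add_mem (mul_mem
      m_al1' m_be2) (neg_mem (mul_mem m_al1 m_be2'))) (mul_mem m_al2' m_be1)) (neg_mem (mul_mem
        m_al2 m_be1'))) (mul_mem m_c1 m_g0')) (neg_mem (mul_mem m_c1' m_g0))) (mul_mem m_c0 m_g1'))
          (neg_mem (mul_mem m_c0' m_g1))) (mul_mem m_pi' m_th)) (neg_mem (mul_mem m_pi m_th')))
    (show P.be0 * P'.al3 + (P'.al1 * P.be2 + -(P.al1 * P'.be2) + P'.al2 * P.be1 + -(P.al2 * P'.be1)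
      + P.c1 * P'.g0 + -(P'.c1 * P.g0) + P.c0 * P'.g1 + -(P'.c0 * P.g1) + P'.pi * P.th + -(P.pi *
        P'.th)) = 0 by
      linear_combination 1 * r10 + (-1) * P.be3 * a0' + (1) * P'.be3 * a0 + (1) * P.al3 * b0')
  have m_q3' : P'.q3 ∈ L := mem_lin nb m_be0
    (add_mem (add_mem (add_mem (add_mem (add_mem (add_mem (add_mem (add_mem (add_mem (mul_mem m_be2
      m_q1') (neg_mem (mul_mem m_be2' m_q1))) (mul_mem m_be1 m_q2')) (neg_mem (mul_mem m_be1'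
        m_q2))) (mul_mem m_c1 m_e0')) (neg_mem (mul_mem m_c1' m_e0))) (mul_mem m_c0 m_e1'))
          (neg_mem (mul_mem m_c0' m_e1))) (mul_mem m_ph' m_th)) (neg_mem (mul_mem m_ph m_th')))
    (show P.be0 * P'.q3 + (P.be2 * P'.q1 + -(P'.be2 * P.q1) + P.be1 * P'.q2 + -(P'.be1 * P.q2) +
      P.c1 * P'.e0 + -(P'.c1 * P.e0) + P.c0 * P'.e1 + -(P'.c0 * P.e1) + P'.ph * P.th + -(P.ph *
        P'.th)) = 0 by
      linear_combination 1 * r17 + (1) * P.q3 * b0')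
  exact mem_all P P' ⟨m_al0, m_al1, m_al2, m_al3, m_g0, m_g1, m_pi, m_be0, m_be1, m_be2, m_be3,
    m_q1, m_q2, m_q3, m_e0, m_e1, m_ph, m_c0, m_c1, m_f0, m_f1, m_z, m_rho, m_th, m_eta, m_zeta⟩
    ⟨m_al0', m_al1', m_al2', m_al3', m_g0', m_g1', m_pi', m_be0', m_be1', m_be2', m_be3', m_q1',
      m_q2', m_q3', m_e0', m_e1', m_ph', m_c0', m_c1', m_f0', m_f1', m_z', m_rho', m_th', m_eta',
        m_zeta'⟩

theorem ii_a2iiB {P P' : Par K} (h : Rel P P')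
    (a0 : P.al0 = 0) (a0' : P'.al0 = 0) (b0' : P'.be0 = 0) (rh : P.rho = 0) (rh' : P'.rho = 0)
    (f0z : P.f0 = 0) (e0z : P'.e0 = 0)
    (nb : P.be0 ≠ 0) (nz : P.zeta ≠ 0) :
    rk k (Set.range (vals P P')) + 18 ≤ 52 := by
  obtain ⟨r1, r2, r3, r4, r5, r6, r7, r8, r9, r10, r11, r12, r13, r14, r15, r16, r17, r18, r19,
    r20, r21, r22, r23⟩ := h
  simp only [Br] at *
  refine rk_det P P' {.inl .al0, .inr .al0, .inr .be0, .inl .rho, .inr .rho, .inl .f0, .inr .e0,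
    .inr .al1, .inr .q1, .inr .f0, .inr .g0, .inr .pi, .inr .eta, .inr .f1, .inr .q2, .inr .al2,
      .inr .al3, .inr .q3} (by decide) fun L hL => ?_
  have m_al1 : P.al1 ∈ L := hL (.inl .al1) (by decide)
  have m_al2 : P.al2 ∈ L := hL (.inl .al2) (by decide)
  have m_al3 : P.al3 ∈ L := hL (.inl .al3) (by decide)
  have m_g0 : P.g0 ∈ L := hL (.inl .g0) (by decide)
  have m_g1 : P.g1 ∈ L := hL (.inl .g1) (by decide)
  have m_pi : P.pi ∈ L := hL (.inl .pi) (by decide)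
  have m_be0 : P.be0 ∈ L := hL (.inl .be0) (by decide)
  have m_be1 : P.be1 ∈ L := hL (.inl .be1) (by decide)
  have m_be2 : P.be2 ∈ L := hL (.inl .be2) (by decide)
  have m_be3 : P.be3 ∈ L := hL (.inl .be3) (by decide)
  have m_q1 : P.q1 ∈ L := hL (.inl .q1) (by decide)
  have m_q2 : P.q2 ∈ L := hL (.inl .q2) (by decide)
  have m_q3 : P.q3 ∈ L := hL (.inl .q3) (by decide)
  have m_e0 : P.e0 ∈ L := hL (.inl .e0) (by decide)
  have m_e1 : P.e1 ∈ L := hL (.inl .e1) (by decide)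
  have m_ph : P.ph ∈ L := hL (.inl .ph) (by decide)
  have m_c0 : P.c0 ∈ L := hL (.inl .c0) (by decide)
  have m_c1 : P.c1 ∈ L := hL (.inl .c1) (by decide)
  have m_f1 : P.f1 ∈ L := hL (.inl .f1) (by decide)
  have m_z : P.z ∈ L := hL (.inl .z) (by decide)
  have m_th : P.th ∈ L := hL (.inl .th) (by decide)
  have m_eta : P.eta ∈ L := hL (.inl .eta) (by decide)
  have m_zeta : P.zeta ∈ L := hL (.inl .zeta) (by decide)
  have m_g1' : P'.g1 ∈ L := hL (.inr .g1) (by decide)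
  have m_be1' : P'.be1 ∈ L := hL (.inr .be1) (by decide)
  have m_be2' : P'.be2 ∈ L := hL (.inr .be2) (by decide)
  have m_be3' : P'.be3 ∈ L := hL (.inr .be3) (by decide)
  have m_e1' : P'.e1 ∈ L := hL (.inr .e1) (by decide)
  have m_ph' : P'.ph ∈ L := hL (.inr .ph) (by decide)
  have m_c0' : P'.c0 ∈ L := hL (.inr .c0) (by decide)
  have m_c1' : P'.c1 ∈ L := hL (.inr .c1) (by decide)
  have m_z' : P'.z ∈ L := hL (.inr .z) (by decide)
  have m_th' : P'.th ∈ L := hL (.inr .th) (by decide)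
  have m_zeta' : P'.zeta ∈ L := hL (.inr .zeta) (by decide)
  have m_al0 : P.al0 ∈ L := by rw [a0]; exact zero_mem L
  have m_al0' : P'.al0 ∈ L := by rw [a0']; exact zero_mem L
  have m_be0' : P'.be0 ∈ L := by rw [b0']; exact zero_mem L
  have m_rho : P.rho ∈ L := by rw [rh]; exact zero_mem L
  have m_rho' : P'.rho ∈ L := by rw [rh']; exact zero_mem L
  have m_f0 : P.f0 ∈ L := by rw [f0z]; exact zero_mem L
  have m_e0' : P'.e0 ∈ L := by rw [e0z]; exact zero_mem L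
  have m_al1' : P'.al1 ∈ L := mem_lin nb m_be0
    (zero_mem L)
    (show P.be0 * P'.al1 + (0) = 0 by
      linear_combination 1 * r6 + (-1) * P.be1 * a0' + (1) * P'.be1 * a0 + (1) * P.al1 * b0')
  have m_q1' : P'.q1 ∈ L := mem_lin nb m_be0
    (zero_mem L)
    (show P.be0 * P'.q1 + (0) = 0 by
      linear_combination 1 * r13 + (1) * P.q1 * b0')
  have m_f0' : P'.f0 ∈ L := mem_lin nb m_be0
    (zero_mem L)
    (show P.be0 * P'.f0 + (0) = 0 by
      linear_combination 1 * r19 + (1) * P.f0 * b0')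
  have m_g0' : P'.g0 ∈ L := mem_lin nb m_be0
    (add_mem (add_mem (add_mem (neg_mem (mul_mem m_e0 m_q1')) (mul_mem m_e0 m_z')) (neg_mem
      (mul_mem m_ph' m_zeta))) (mul_mem m_ph m_zeta'))
    (show P.be0 * P'.g0 + (-(P.e0 * P'.q1) + P.e0 * P'.z + -(P'.ph * P.zeta) + P.ph * P'.zeta) = 0
      by
      linear_combination (-1) * r12 + (1) * P.g0 * b0' + (-1) * P.q1 * e0z + (1) * P.z * e0z)
  have m_pi' : P'.pi ∈ L := mem_lin nz m_zeta
    (add_mem (add_mem (add_mem (mul_mem m_al1' m_e0) (mul_mem m_g0' m_z)) (neg_mem (mul_mem m_g0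
      m_z'))) (neg_mem (mul_mem m_pi m_zeta')))
    (show P.zeta * P'.pi + (P'.al1 * P.e0 + P'.g0 * P.z + -(P.g0 * P'.z) + -(P.pi * P'.zeta)) = 0 by
      linear_combination 1 * r5 + (-1) * P.e1 * a0' + (1) * P'.e1 * a0 + (1) * P.al1 * e0z)
  have m_eta' : P'.eta ∈ L := mem_lin nb m_be0
    (add_mem (mul_mem m_c0 m_zeta') (neg_mem (mul_mem m_c0' m_zeta)))
    (show P.be0 * P'.eta + (P.c0 * P'.zeta + -(P'.c0 * P.zeta)) = 0 by
      linear_combination 1 * r23 + (1) * P.eta * b0')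
  have m_f1' : P'.f1 ∈ L := mem_lin nb m_be0
    (add_mem (add_mem (mul_mem m_be1 m_f0') (mul_mem m_c0 m_z')) (neg_mem (mul_mem m_c0' m_z)))
    (show P.be0 * P'.f1 + (P.be1 * P'.f0 + P.c0 * P'.z + -(P'.c0 * P.z)) = 0 by
      linear_combination 1 * r21 + (1) * P'.be1 * f0z + (1) * P.f1 * b0' + (-1) * P.th * rh' + (1)
        * P'.th * rh)
  have m_q2' : P'.q2 ∈ L := mem_lin nb m_be0
    (add_mem (add_mem (mul_mem m_be1 m_q1') (neg_mem (mul_mem m_be1' m_q1))) (neg_mem (mul_mem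
      m_c0' m_e0)))
    (show P.be0 * P'.q2 + (P.be1 * P'.q1 + -(P'.be1 * P.q1) + -(P'.c0 * P.e0)) = 0 by
      linear_combination 1 * r15 + (1) * P.q2 * b0' + (-1) * P.c0 * e0z)
  have m_al2' : P'.al2 ∈ L := mem_lin nb m_be0
    (add_mem (add_mem (add_mem (mul_mem m_al1' m_be1) (neg_mem (mul_mem m_al1 m_be1'))) (mul_mem
      m_c0 m_g0')) (neg_mem (mul_mem m_c0' m_g0)))
    (show P.be0 * P'.al2 + (P'.al1 * P.be1 + -(P.al1 * P'.be1) + P.c0 * P'.g0 + -(P'.c0 * P.g0)) =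
      0 by
      linear_combination 1 * r8 + (-1) * P.be2 * a0' + (1) * P'.be2 * a0 + (1) * P.al2 * b0')
  have m_al3' : P'.al3 ∈ L := mem_lin nb m_be0
    (add_mem (add_mem (add_mem (add_mem (add_mem (add_mem (add_mem (add_mem (add_mem (mul_mem
      m_al1' m_be2) (neg_mem (mul_mem m_al1 m_be2'))) (mul_mem m_al2' m_be1)) (neg_mem (mul_mem
        m_al2 m_be1'))) (mul_mem m_c1 m_g0')) (neg_mem (mul_mem m_c1' m_g0))) (mul_mem m_c0 m_g1'))
          (neg_mem (mul_mem m_c0' m_g1))) (mul_mem m_pi' m_th)) (neg_mem (mul_mem m_pi m_th')))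
    (show P.be0 * P'.al3 + (P'.al1 * P.be2 + -(P.al1 * P'.be2) + P'.al2 * P.be1 + -(P.al2 * P'.be1)
      + P.c1 * P'.g0 + -(P'.c1 * P.g0) + P.c0 * P'.g1 + -(P'.c0 * P.g1) + P'.pi * P.th + -(P.pi *
        P'.th)) = 0 by
      linear_combination 1 * r10 + (-1) * P.be3 * a0' + (1) * P'.be3 * a0 + (1) * P.al3 * b0')
  have m_q3' : P'.q3 ∈ L := mem_lin nb m_be0
    (add_mem (add_mem (add_mem (add_mem (add_mem (add_mem (add_mem (add_mem (mul_mem m_be2 m_q1')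
      (neg_mem (mul_mem m_be2' m_q1))) (mul_mem m_be1 m_q2')) (neg_mem (mul_mem m_be1' m_q2)))
        (neg_mem (mul_mem m_c1' m_e0))) (mul_mem m_c0 m_e1')) (neg_mem (mul_mem m_c0' m_e1)))
          (mul_mem m_ph' m_th)) (neg_mem (mul_mem m_ph m_th')))
    (show P.be0 * P'.q3 + (P.be2 * P'.q1 + -(P'.be2 * P.q1) + P.be1 * P'.q2 + -(P'.be1 * P.q2) +
      -(P'.c1 * P.e0) + P.c0 * P'.e1 + -(P'.c0 * P.e1) + P'.ph * P.th + -(P.ph * P'.th)) = 0 by
      linear_combination 1 * r17 + (1) * P.q3 * b0' + (-1) * P.c1 * e0z)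
  exact mem_all P P' ⟨m_al0, m_al1, m_al2, m_al3, m_g0, m_g1, m_pi, m_be0, m_be1, m_be2, m_be3,
    m_q1, m_q2, m_q3, m_e0, m_e1, m_ph, m_c0, m_c1, m_f0, m_f1, m_z, m_rho, m_th, m_eta, m_zeta⟩
    ⟨m_al0', m_al1', m_al2', m_al3', m_g0', m_g1', m_pi', m_be0', m_be1', m_be2', m_be3', m_q1',
      m_q2', m_q3', m_e0', m_e1', m_ph', m_c0', m_c1', m_f0', m_f1', m_z', m_rho', m_th', m_eta',
        m_zeta'⟩

theorem ii_a2iiiA {P P' : Par K} (h : Rel P P')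
    (a0 : P.al0 = 0) (a0' : P'.al0 = 0) (b0' : P'.be0 = 0) (rh : P.rho = 0) (rh' : P'.rho = 0)
    (f0z : P.f0 = 0)
    (nb : P.be0 ≠ 0) (nz : P'.zeta ≠ 0) (ne : P'.e0 ≠ 0) :
    rk k (Set.range (vals P P')) + 18 ≤ 52 := by
  obtain ⟨r1, r2, r3, r4, r5, r6, r7, r8, r9, r10, r11, r12, r13, r14, r15, r16, r17, r18, r19,
    r20, r21, r22, r23⟩ := h
  simp only [Br] at *
  refine rk_det P P' {.inl .al0, .inr .al0, .inr .be0, .inl .rho, .inr .rho, .inl .f0, .inr .al1,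
    .inr .q1, .inr .f0, .inr .g0, .inl .pi, .inr .eta, .inr .f1, .inl .f1, .inr .q2, .inr .al2,
      .inr .al3, .inr .q3} (by decide) fun L hL => ?_
  have m_al1 : P.al1 ∈ L := hL (.inl .al1) (by decide)
  have m_al2 : P.al2 ∈ L := hL (.inl .al2) (by decide)
  have m_al3 : P.al3 ∈ L := hL (.inl .al3) (by decide)
  have m_g0 : P.g0 ∈ L := hL (.inl .g0) (by decide)
  have m_g1 : P.g1 ∈ L := hL (.inl .g1) (by decide)
  have m_be0 : P.be0 ∈ L := hL (.inl .be0) (by decide)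
  have m_be1 : P.be1 ∈ L := hL (.inl .be1) (by decide)
  have m_be2 : P.be2 ∈ L := hL (.inl .be2) (by decide)
  have m_be3 : P.be3 ∈ L := hL (.inl .be3) (by decide)
  have m_q1 : P.q1 ∈ L := hL (.inl .q1) (by decide)
  have m_q2 : P.q2 ∈ L := hL (.inl .q2) (by decide)
  have m_q3 : P.q3 ∈ L := hL (.inl .q3) (by decide)
  have m_e0 : P.e0 ∈ L := hL (.inl .e0) (by decide)
  have m_e1 : P.e1 ∈ L := hL (.inl .e1) (by decide)
  have m_ph : P.ph ∈ L := hL (.inl .ph) (by decide)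
  have m_c0 : P.c0 ∈ L := hL (.inl .c0) (by decide)
  have m_c1 : P.c1 ∈ L := hL (.inl .c1) (by decide)
  have m_z : P.z ∈ L := hL (.inl .z) (by decide)
  have m_th : P.th ∈ L := hL (.inl .th) (by decide)
  have m_eta : P.eta ∈ L := hL (.inl .eta) (by decide)
  have m_zeta : P.zeta ∈ L := hL (.inl .zeta) (by decide)
  have m_g1' : P'.g1 ∈ L := hL (.inr .g1) (by decide)
  have m_pi' : P'.pi ∈ L := hL (.inr .pi) (by decide)
  have m_be1' : P'.be1 ∈ L := hL (.inr .be1) (by decide)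
  have m_be2' : P'.be2 ∈ L := hL (.inr .be2) (by decide)
  have m_be3' : P'.be3 ∈ L := hL (.inr .be3) (by decide)
  have m_e0' : P'.e0 ∈ L := hL (.inr .e0) (by decide)
  have m_e1' : P'.e1 ∈ L := hL (.inr .e1) (by decide)
  have m_ph' : P'.ph ∈ L := hL (.inr .ph) (by decide)
  have m_c0' : P'.c0 ∈ L := hL (.inr .c0) (by decide)
  have m_c1' : P'.c1 ∈ L := hL (.inr .c1) (by decide)
  have m_z' : P'.z ∈ L := hL (.inr .z) (by decide)
  have m_th' : P'.th ∈ L := hL (.inr .th) (by decide)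
  have m_zeta' : P'.zeta ∈ L := hL (.inr .zeta) (by decide)
  have m_al0 : P.al0 ∈ L := by rw [a0]; exact zero_mem L
  have m_al0' : P'.al0 ∈ L := by rw [a0']; exact zero_mem L
  have m_be0' : P'.be0 ∈ L := by rw [b0']; exact zero_mem L
  have m_rho : P.rho ∈ L := by rw [rh]; exact zero_mem L
  have m_rho' : P'.rho ∈ L := by rw [rh']; exact zero_mem L
  have m_f0 : P.f0 ∈ L := by rw [f0z]; exact zero_mem L
  have m_al1' : P'.al1 ∈ L := mem_lin nb m_be0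
    (zero_mem L)
    (show P.be0 * P'.al1 + (0) = 0 by
      linear_combination 1 * r6 + (-1) * P.be1 * a0' + (1) * P'.be1 * a0 + (1) * P.al1 * b0')
  have m_q1' : P'.q1 ∈ L := mem_lin nb m_be0
    (zero_mem L)
    (show P.be0 * P'.q1 + (0) = 0 by
      linear_combination 1 * r13 + (1) * P.q1 * b0')
  have m_f0' : P'.f0 ∈ L := mem_lin nb m_be0
    (zero_mem L)
    (show P.be0 * P'.f0 + (0) = 0 by
      linear_combination 1 * r19 + (1) * P.f0 * b0')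
  have m_g0' : P'.g0 ∈ L := mem_lin nb m_be0
    (add_mem (add_mem (add_mem (add_mem (add_mem (neg_mem (mul_mem m_e0 m_q1')) (mul_mem m_e0'
      m_q1)) (neg_mem (mul_mem m_e0' m_z))) (mul_mem m_e0 m_z')) (neg_mem (mul_mem m_ph' m_zeta)))
        (mul_mem m_ph m_zeta'))
    (show P.be0 * P'.g0 + (-(P.e0 * P'.q1) + P'.e0 * P.q1 + -(P'.e0 * P.z) + P.e0 * P'.z + -(P'.ph
      * P.zeta) + P.ph * P'.zeta) = 0 by
      linear_combination (-1) * r12 + (1) * P.g0 * b0')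
  have m_pi : P.pi ∈ L := mem_lin nz m_zeta'
    (add_mem (add_mem (add_mem (add_mem (neg_mem (mul_mem m_al1' m_e0)) (mul_mem m_al1 m_e0'))
      (neg_mem (mul_mem m_g0' m_z))) (mul_mem m_g0 m_z')) (neg_mem (mul_mem m_pi' m_zeta)))
    (show P'.zeta * P.pi + (-(P'.al1 * P.e0) + P.al1 * P'.e0 + -(P'.g0 * P.z) + P.g0 * P'.z +
      -(P'.pi * P.zeta)) = 0 by
      linear_combination (-1) * r5 + (1) * P.e1 * a0' + (-1) * P'.e1 * a0)
  have m_eta' : P'.eta ∈ L := mem_lin nb m_be0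
    (add_mem (mul_mem m_c0 m_zeta') (neg_mem (mul_mem m_c0' m_zeta)))
    (show P.be0 * P'.eta + (P.c0 * P'.zeta + -(P'.c0 * P.zeta)) = 0 by
      linear_combination 1 * r23 + (1) * P.eta * b0')
  have m_f1' : P'.f1 ∈ L := mem_lin nb m_be0
    (add_mem (add_mem (mul_mem m_be1 m_f0') (mul_mem m_c0 m_z')) (neg_mem (mul_mem m_c0' m_z)))
    (show P.be0 * P'.f1 + (P.be1 * P'.f0 + P.c0 * P'.z + -(P'.c0 * P.z)) = 0 by
      linear_combination 1 * r21 + (1) * P'.be1 * f0z + (1) * P.f1 * b0' + (-1) * P.th * rh' + (1)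
        * P'.th * rh)
  have m_f1 : P.f1 ∈ L := mem_lin ne m_e0'
    (add_mem (add_mem (add_mem (add_mem (add_mem (mul_mem m_c0 m_g0') (neg_mem (mul_mem m_c0'
      m_g0))) (neg_mem (mul_mem m_e0 m_f1'))) (neg_mem (mul_mem m_e1 m_f0'))) (mul_mem m_eta
        m_ph')) (neg_mem (mul_mem m_eta' m_ph)))
    (show P'.e0 * P.f1 + (P.c0 * P'.g0 + -(P'.c0 * P.g0) + -(P.e0 * P'.f1) + -(P.e1 * P'.f0) +
      P.eta * P'.ph + -(P'.eta * P.ph)) = 0 by
      linear_combination 1 * r8 + 1 * r16 + (-1) * P'.e1 * f0z)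
  have m_q2' : P'.q2 ∈ L := mem_lin nb m_be0
    (add_mem (add_mem (add_mem (mul_mem m_be1 m_q1') (neg_mem (mul_mem m_be1' m_q1))) (mul_mem m_c0
      m_e0')) (neg_mem (mul_mem m_c0' m_e0)))
    (show P.be0 * P'.q2 + (P.be1 * P'.q1 + -(P'.be1 * P.q1) + P.c0 * P'.e0 + -(P'.c0 * P.e0)) = 0 by
      linear_combination 1 * r15 + (1) * P.q2 * b0')
  have m_al2' : P'.al2 ∈ L := mem_lin nb m_be0
    (add_mem (add_mem (add_mem (mul_mem m_al1' m_be1) (neg_mem (mul_mem m_al1 m_be1'))) (mul_mem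
      m_c0 m_g0')) (neg_mem (mul_mem m_c0' m_g0)))
    (show P.be0 * P'.al2 + (P'.al1 * P.be1 + -(P.al1 * P'.be1) + P.c0 * P'.g0 + -(P'.c0 * P.g0)) =
      0 by
      linear_combination 1 * r8 + (-1) * P.be2 * a0' + (1) * P'.be2 * a0 + (1) * P.al2 * b0')
  have m_al3' : P'.al3 ∈ L := mem_lin nb m_be0
    (add_mem (add_mem (add_mem (add_mem (add_mem (add_mem (add_mem (add_mem (add_mem (mul_mem
      m_al1' m_be2) (neg_mem (mul_mem m_al1 m_be2'))) (mul_mem m_al2' m_be1)) (neg_mem (mul_mem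
        m_al2 m_be1'))) (mul_mem m_c1 m_g0')) (neg_mem (mul_mem m_c1' m_g0))) (mul_mem m_c0 m_g1'))
          (neg_mem (mul_mem m_c0' m_g1))) (mul_mem m_pi' m_th)) (neg_mem (mul_mem m_pi m_th')))
    (show P.be0 * P'.al3 + (P'.al1 * P.be2 + -(P.al1 * P'.be2) + P'.al2 * P.be1 + -(P.al2 * P'.be1)
      + P.c1 * P'.g0 + -(P'.c1 * P.g0) + P.c0 * P'.g1 + -(P'.c0 * P.g1) + P'.pi * P.th + -(P.pi *
        P'.th)) = 0 by
      linear_combination 1 * r10 + (-1) * P.be3 * a0' + (1) * P'.be3 * a0 + (1) * P.al3 * b0')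
  have m_q3' : P'.q3 ∈ L := mem_lin nb m_be0
    (add_mem (add_mem (add_mem (add_mem (add_mem (add_mem (add_mem (add_mem (add_mem (mul_mem m_be2
      m_q1') (neg_mem (mul_mem m_be2' m_q1))) (mul_mem m_be1 m_q2')) (neg_mem (mul_mem m_be1'
        m_q2))) (mul_mem m_c1 m_e0')) (neg_mem (mul_mem m_c1' m_e0))) (mul_mem m_c0 m_e1'))
          (neg_mem (mul_mem m_c0' m_e1))) (mul_mem m_ph' m_th)) (neg_mem (mul_mem m_ph m_th')))
    (show P.be0 * P'.q3 + (P.be2 * P'.q1 + -(P'.be2 * P.q1) + P.be1 * P'.q2 + -(P'.be1 * P.q2) +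
      P.c1 * P'.e0 + -(P'.c1 * P.e0) + P.c0 * P'.e1 + -(P'.c0 * P.e1) + P'.ph * P.th + -(P.ph *
        P'.th)) = 0 by
      linear_combination 1 * r17 + (1) * P.q3 * b0')
  exact mem_all P P' ⟨m_al0, m_al1, m_al2, m_al3, m_g0, m_g1, m_pi, m_be0, m_be1, m_be2, m_be3,
    m_q1, m_q2, m_q3, m_e0, m_e1, m_ph, m_c0, m_c1, m_f0, m_f1, m_z, m_rho, m_th, m_eta, m_zeta⟩
    ⟨m_al0', m_al1', m_al2', m_al3', m_g0', m_g1', m_pi', m_be0', m_be1', m_be2', m_be3', m_q1',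
      m_q2', m_q3', m_e0', m_e1', m_ph', m_c0', m_c1', m_f0', m_f1', m_z', m_rho', m_th', m_eta',
        m_zeta'⟩

theorem ii_a2iiiB {P P' : Par K} (h : Rel P P')
    (a0 : P.al0 = 0) (a0' : P'.al0 = 0) (b0' : P'.be0 = 0) (rh : P.rho = 0) (rh' : P'.rho = 0)
    (f0z : P.f0 = 0) (e0z : P'.e0 = 0)
    (nb : P.be0 ≠ 0) (nz : P'.zeta ≠ 0) :
    rk k (Set.range (vals P P')) + 18 ≤ 52 := by
  obtain ⟨r1, r2, r3, r4, r5, r6, r7, r8, r9, r10, r11, r12, r13, r14, r15, r16, r17, r18, r19,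
    r20, r21, r22, r23⟩ := h
  simp only [Br] at *
  refine rk_det P P' {.inl .al0, .inr .al0, .inr .be0, .inl .rho, .inr .rho, .inl .f0, .inr .e0,
    .inr .al1, .inr .q1, .inr .f0, .inr .g0, .inl .pi, .inr .eta, .inr .f1, .inr .q2, .inr .al2,
      .inr .al3, .inr .q3} (by decide) fun L hL => ?_
  have m_al1 : P.al1 ∈ L := hL (.inl .al1) (by decide)
  have m_al2 : P.al2 ∈ L := hL (.inl .al2) (by decide)
  have m_al3 : P.al3 ∈ L := hL (.inl .al3) (by decide)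
  have m_g0 : P.g0 ∈ L := hL (.inl .g0) (by decide)
  have m_g1 : P.g1 ∈ L := hL (.inl .g1) (by decide)
  have m_be0 : P.be0 ∈ L := hL (.inl .be0) (by decide)
  have m_be1 : P.be1 ∈ L := hL (.inl .be1) (by decide)
  have m_be2 : P.be2 ∈ L := hL (.inl .be2) (by decide)
  have m_be3 : P.be3 ∈ L := hL (.inl .be3) (by decide)
  have m_q1 : P.q1 ∈ L := hL (.inl .q1) (by decide)
  have m_q2 : P.q2 ∈ L := hL (.inl .q2) (by decide)
  have m_q3 : P.q3 ∈ L := hL (.inl .q3) (by decide)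
  have m_e0 : P.e0 ∈ L := hL (.inl .e0) (by decide)
  have m_e1 : P.e1 ∈ L := hL (.inl .e1) (by decide)
  have m_ph : P.ph ∈ L := hL (.inl .ph) (by decide)
  have m_c0 : P.c0 ∈ L := hL (.inl .c0) (by decide)
  have m_c1 : P.c1 ∈ L := hL (.inl .c1) (by decide)
  have m_f1 : P.f1 ∈ L := hL (.inl .f1) (by decide)
  have m_z : P.z ∈ L := hL (.inl .z) (by decide)
  have m_th : P.th ∈ L := hL (.inl .th) (by decide)
  have m_eta : P.eta ∈ L := hL (.inl .eta) (by decide)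
  have m_zeta : P.zeta ∈ L := hL (.inl .zeta) (by decide)
  have m_g1' : P'.g1 ∈ L := hL (.inr .g1) (by decide)
  have m_pi' : P'.pi ∈ L := hL (.inr .pi) (by decide)
  have m_be1' : P'.be1 ∈ L := hL (.inr .be1) (by decide)
  have m_be2' : P'.be2 ∈ L := hL (.inr .be2) (by decide)
  have m_be3' : P'.be3 ∈ L := hL (.inr .be3) (by decide)
  have m_e1' : P'.e1 ∈ L := hL (.inr .e1) (by decide)
  have m_ph' : P'.ph ∈ L := hL (.inr .ph) (by decide)
  have m_c0' : P'.c0 ∈ L := hL (.inr .c0) (by decide)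
  have m_c1' : P'.c1 ∈ L := hL (.inr .c1) (by decide)
  have m_z' : P'.z ∈ L := hL (.inr .z) (by decide)
  have m_th' : P'.th ∈ L := hL (.inr .th) (by decide)
  have m_zeta' : P'.zeta ∈ L := hL (.inr .zeta) (by decide)
  have m_al0 : P.al0 ∈ L := by rw [a0]; exact zero_mem L
  have m_al0' : P'.al0 ∈ L := by rw [a0']; exact zero_mem L
  have m_be0' : P'.be0 ∈ L := by rw [b0']; exact zero_mem L
  have m_rho : P.rho ∈ L := by rw [rh]; exact zero_mem L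
  have m_rho' : P'.rho ∈ L := by rw [rh']; exact zero_mem L
  have m_f0 : P.f0 ∈ L := by rw [f0z]; exact zero_mem L
  have m_e0' : P'.e0 ∈ L := by rw [e0z]; exact zero_mem L
  have m_al1' : P'.al1 ∈ L := mem_lin nb m_be0
    (zero_mem L)
    (show P.be0 * P'.al1 + (0) = 0 by
      linear_combination 1 * r6 + (-1) * P.be1 * a0' + (1) * P'.be1 * a0 + (1) * P.al1 * b0')
  have m_q1' : P'.q1 ∈ L := mem_lin nb m_be0
    (zero_mem L)
    (show P.be0 * P'.q1 + (0) = 0 by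
      linear_combination 1 * r13 + (1) * P.q1 * b0')
  have m_f0' : P'.f0 ∈ L := mem_lin nb m_be0
    (zero_mem L)
    (show P.be0 * P'.f0 + (0) = 0 by
      linear_combination 1 * r19 + (1) * P.f0 * b0')
  have m_g0' : P'.g0 ∈ L := mem_lin nb m_be0
    (add_mem (add_mem (add_mem (neg_mem (mul_mem m_e0 m_q1')) (mul_mem m_e0 m_z')) (neg_mem
      (mul_mem m_ph' m_zeta))) (mul_mem m_ph m_zeta'))
    (show P.be0 * P'.g0 + (-(P.e0 * P'.q1) + P.e0 * P'.z + -(P'.ph * P.zeta) + P.ph * P'.zeta) = 0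
      by
      linear_combination (-1) * r12 + (1) * P.g0 * b0' + (-1) * P.q1 * e0z + (1) * P.z * e0z)
  have m_pi : P.pi ∈ L := mem_lin nz m_zeta'
    (add_mem (add_mem (add_mem (neg_mem (mul_mem m_al1' m_e0)) (neg_mem (mul_mem m_g0' m_z)))
      (mul_mem m_g0 m_z')) (neg_mem (mul_mem m_pi' m_zeta)))
    (show P'.zeta * P.pi + (-(P'.al1 * P.e0) + -(P'.g0 * P.z) + P.g0 * P'.z + -(P'.pi * P.zeta)) =
      0 by
      linear_combination (-1) * r5 + (1) * P.e1 * a0' + (-1) * P'.e1 * a0 + (-1) * P.al1 * e0z)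
  have m_eta' : P'.eta ∈ L := mem_lin nb m_be0
    (add_mem (mul_mem m_c0 m_zeta') (neg_mem (mul_mem m_c0' m_zeta)))
    (show P.be0 * P'.eta + (P.c0 * P'.zeta + -(P'.c0 * P.zeta)) = 0 by
      linear_combination 1 * r23 + (1) * P.eta * b0')
  have m_f1' : P'.f1 ∈ L := mem_lin nb m_be0
    (add_mem (add_mem (mul_mem m_be1 m_f0') (mul_mem m_c0 m_z')) (neg_mem (mul_mem m_c0' m_z)))
    (show P.be0 * P'.f1 + (P.be1 * P'.f0 + P.c0 * P'.z + -(P'.c0 * P.z)) = 0 by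
      linear_combination 1 * r21 + (1) * P'.be1 * f0z + (1) * P.f1 * b0' + (-1) * P.th * rh' + (1)
        * P'.th * rh)
  have m_q2' : P'.q2 ∈ L := mem_lin nb m_be0
    (add_mem (add_mem (mul_mem m_be1 m_q1') (neg_mem (mul_mem m_be1' m_q1))) (neg_mem (mul_mem
      m_c0' m_e0)))
    (show P.be0 * P'.q2 + (P.be1 * P'.q1 + -(P'.be1 * P.q1) + -(P'.c0 * P.e0)) = 0 by
      linear_combination 1 * r15 + (1) * P.q2 * b0' + (-1) * P.c0 * e0z)
  have m_al2' : P'.al2 ∈ L := mem_lin nb m_be0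
    (add_mem (add_mem (add_mem (mul_mem m_al1' m_be1) (neg_mem (mul_mem m_al1 m_be1'))) (mul_mem
      m_c0 m_g0')) (neg_mem (mul_mem m_c0' m_g0)))
    (show P.be0 * P'.al2 + (P'.al1 * P.be1 + -(P.al1 * P'.be1) + P.c0 * P'.g0 + -(P'.c0 * P.g0)) =
      0 by
      linear_combination 1 * r8 + (-1) * P.be2 * a0' + (1) * P'.be2 * a0 + (1) * P.al2 * b0')
  have m_al3' : P'.al3 ∈ L := mem_lin nb m_be0
    (add_mem (add_mem (add_mem (add_mem (add_mem (add_mem (add_mem (add_mem (add_mem (mul_mem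
      m_al1' m_be2) (neg_mem (mul_mem m_al1 m_be2'))) (mul_mem m_al2' m_be1)) (neg_mem (mul_mem
        m_al2 m_be1'))) (mul_mem m_c1 m_g0')) (neg_mem (mul_mem m_c1' m_g0))) (mul_mem m_c0 m_g1'))
          (neg_mem (mul_mem m_c0' m_g1))) (mul_mem m_pi' m_th)) (neg_mem (mul_mem m_pi m_th')))
    (show P.be0 * P'.al3 + (P'.al1 * P.be2 + -(P.al1 * P'.be2) + P'.al2 * P.be1 + -(P.al2 * P'.be1)
      + P.c1 * P'.g0 + -(P'.c1 * P.g0) + P.c0 * P'.g1 + -(P'.c0 * P.g1) + P'.pi * P.th + -(P.pi *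
        P'.th)) = 0 by
      linear_combination 1 * r10 + (-1) * P.be3 * a0' + (1) * P'.be3 * a0 + (1) * P.al3 * b0')
  have m_q3' : P'.q3 ∈ L := mem_lin nb m_be0
    (add_mem (add_mem (add_mem (add_mem (add_mem (add_mem (add_mem (add_mem (mul_mem m_be2 m_q1')
      (neg_mem (mul_mem m_be2' m_q1))) (mul_mem m_be1 m_q2')) (neg_mem (mul_mem m_be1' m_q2)))
        (neg_mem (mul_mem m_c1' m_e0))) (mul_mem m_c0 m_e1')) (neg_mem (mul_mem m_c0' m_e1)))
          (mul_mem m_ph' m_th)) (neg_mem (mul_mem m_ph m_th')))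
    (show P.be0 * P'.q3 + (P.be2 * P'.q1 + -(P'.be2 * P.q1) + P.be1 * P'.q2 + -(P'.be1 * P.q2) +
      -(P'.c1 * P.e0) + P.c0 * P'.e1 + -(P'.c0 * P.e1) + P'.ph * P.th + -(P.ph * P'.th)) = 0 by
      linear_combination 1 * r17 + (1) * P.q3 * b0' + (-1) * P.c1 * e0z)
  exact mem_all P P' ⟨m_al0, m_al1, m_al2, m_al3, m_g0, m_g1, m_pi, m_be0, m_be1, m_be2, m_be3,
    m_q1, m_q2, m_q3, m_e0, m_e1, m_ph, m_c0, m_c1, m_f0, m_f1, m_z, m_rho, m_th, m_eta, m_zeta⟩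
    ⟨m_al0', m_al1', m_al2', m_al3', m_g0', m_g1', m_pi', m_be0', m_be1', m_be2', m_be3', m_q1',
      m_q2', m_q3', m_e0', m_e1', m_ph', m_c0', m_c1', m_f0', m_f1', m_z', m_rho', m_th', m_eta',
        m_zeta'⟩

theorem ii_b2i {P P' : Par K} (h : Rel P P')
    (a0 : P.al0 = 0) (a0' : P'.al0 = 0) (b0' : P'.be0 = 0) (ze : P.zeta = 0) (ze' : P'.zeta = 0)
    (f0z : P.f0 = 0)
    (nb : P.be0 ≠ 0) (nr : P'.rho ≠ 0) :
    rk k (Set.range (vals P P')) + 18 ≤ 52 := by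
  obtain ⟨r1, r2, r3, r4, r5, r6, r7, r8, r9, r10, r11, r12, r13, r14, r15, r16, r17, r18, r19,
    r20, r21, r22, r23⟩ := h
  simp only [Br] at *
  refine rk_det P P' {.inl .al0, .inr .al0, .inr .be0, .inl .zeta, .inr .zeta, .inl .f0, .inr .al1,
    .inr .q1, .inr .f0, .inl .e0, .inr .g0, .inl .g0, .inr .eta, .inr .f1, .inr .q2, .inr .al2,
      .inr .al3, .inr .q3} (by decide) fun L hL => ?_
  have m_al1 : P.al1 ∈ L := hL (.inl .al1) (by decide)
  have m_al2 : P.al2 ∈ L := hL (.inl .al2) (by decide)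
  have m_al3 : P.al3 ∈ L := hL (.inl .al3) (by decide)
  have m_g1 : P.g1 ∈ L := hL (.inl .g1) (by decide)
  have m_pi : P.pi ∈ L := hL (.inl .pi) (by decide)
  have m_be0 : P.be0 ∈ L := hL (.inl .be0) (by decide)
  have m_be1 : P.be1 ∈ L := hL (.inl .be1) (by decide)
  have m_be2 : P.be2 ∈ L := hL (.inl .be2) (by decide)
  have m_be3 : P.be3 ∈ L := hL (.inl .be3) (by decide)
  have m_q1 : P.q1 ∈ L := hL (.inl .q1) (by decide)
  have m_q2 : P.q2 ∈ L := hL (.inl .q2) (by decide)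
  have m_q3 : P.q3 ∈ L := hL (.inl .q3) (by decide)
  have m_e1 : P.e1 ∈ L := hL (.inl .e1) (by decide)
  have m_ph : P.ph ∈ L := hL (.inl .ph) (by decide)
  have m_c0 : P.c0 ∈ L := hL (.inl .c0) (by decide)
  have m_c1 : P.c1 ∈ L := hL (.inl .c1) (by decide)
  have m_f1 : P.f1 ∈ L := hL (.inl .f1) (by decide)
  have m_z : P.z ∈ L := hL (.inl .z) (by decide)
  have m_rho : P.rho ∈ L := hL (.inl .rho) (by decide)
  have m_th : P.th ∈ L := hL (.inl .th) (by decide)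
  have m_eta : P.eta ∈ L := hL (.inl .eta) (by decide)
  have m_g1' : P'.g1 ∈ L := hL (.inr .g1) (by decide)
  have m_pi' : P'.pi ∈ L := hL (.inr .pi) (by decide)
  have m_be1' : P'.be1 ∈ L := hL (.inr .be1) (by decide)
  have m_be2' : P'.be2 ∈ L := hL (.inr .be2) (by decide)
  have m_be3' : P'.be3 ∈ L := hL (.inr .be3) (by decide)
  have m_e0' : P'.e0 ∈ L := hL (.inr .e0) (by decide)
  have m_e1' : P'.e1 ∈ L := hL (.inr .e1) (by decide)
  have m_ph' : P'.ph ∈ L := hL (.inr .ph) (by decide)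
  have m_c0' : P'.c0 ∈ L := hL (.inr .c0) (by decide)
  have m_c1' : P'.c1 ∈ L := hL (.inr .c1) (by decide)
  have m_z' : P'.z ∈ L := hL (.inr .z) (by decide)
  have m_rho' : P'.rho ∈ L := hL (.inr .rho) (by decide)
  have m_th' : P'.th ∈ L := hL (.inr .th) (by decide)
  have m_al0 : P.al0 ∈ L := by rw [a0]; exact zero_mem L
  have m_al0' : P'.al0 ∈ L := by rw [a0']; exact zero_mem L
  have m_be0' : P'.be0 ∈ L := by rw [b0']; exact zero_mem L
  have m_zeta : P.zeta ∈ L := by rw [ze]; exact zero_mem L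
  have m_zeta' : P'.zeta ∈ L := by rw [ze']; exact zero_mem L
  have m_f0 : P.f0 ∈ L := by rw [f0z]; exact zero_mem L
  have m_al1' : P'.al1 ∈ L := mem_lin nb m_be0
    (zero_mem L)
    (show P.be0 * P'.al1 + (0) = 0 by
      linear_combination 1 * r6 + (-1) * P.be1 * a0' + (1) * P'.be1 * a0 + (1) * P.al1 * b0')
  have m_q1' : P'.q1 ∈ L := mem_lin nb m_be0
    (zero_mem L)
    (show P.be0 * P'.q1 + (0) = 0 by
      linear_combination 1 * r13 + (1) * P.q1 * b0')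
  have m_f0' : P'.f0 ∈ L := mem_lin nb m_be0
    (zero_mem L)
    (show P.be0 * P'.f0 + (0) = 0 by
      linear_combination 1 * r19 + (1) * P.f0 * b0')
  have m_e0 : P.e0 ∈ L := mem_lin nr m_rho'
    (neg_mem (mul_mem m_e0' m_rho))
    (show P'.rho * P.e0 + (-(P'.e0 * P.rho)) = 0 by
      linear_combination (-1) * r11)
  have m_g0' : P'.g0 ∈ L := mem_lin nb m_be0
    (add_mem (add_mem (add_mem (neg_mem (mul_mem m_e0 m_q1')) (mul_mem m_e0' m_q1)) (neg_mem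
      (mul_mem m_e0' m_z))) (mul_mem m_e0 m_z'))
    (show P.be0 * P'.g0 + (-(P.e0 * P'.q1) + P'.e0 * P.q1 + -(P'.e0 * P.z) + P.e0 * P'.z) = 0 by
      linear_combination (-1) * r12 + (1) * P.g0 * b0' + (1) * P'.ph * ze + (-1) * P.ph * ze')
  have m_g0 : P.g0 ∈ L := mem_lin nr m_rho'
    (neg_mem (mul_mem m_g0' m_rho))
    (show P'.rho * P.g0 + (-(P'.g0 * P.rho)) = 0 by
      linear_combination (-1) * r4 + (1) * P.ph * a0' + (-1) * P'.ph * a0)
  have m_eta' : P'.eta ∈ L := mem_lin nb m_be0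
    (zero_mem L)
    (show P.be0 * P'.eta + (0) = 0 by
      linear_combination 1 * r23 + (1) * P.eta * b0' + (-1) * P.c0 * ze' + (1) * P'.c0 * ze)
  have m_f1' : P'.f1 ∈ L := mem_lin nb m_be0
    (add_mem (add_mem (add_mem (add_mem (mul_mem m_be1 m_f0') (mul_mem m_c0 m_z')) (neg_mem
      (mul_mem m_c0' m_z))) (mul_mem m_rho' m_th)) (neg_mem (mul_mem m_rho m_th')))
    (show P.be0 * P'.f1 + (P.be1 * P'.f0 + P.c0 * P'.z + -(P'.c0 * P.z) + P'.rho * P.th + -(P.rho *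
      P'.th)) = 0 by
      linear_combination 1 * r21 + (1) * P'.be1 * f0z + (1) * P.f1 * b0')
  have m_q2' : P'.q2 ∈ L := mem_lin nb m_be0
    (add_mem (add_mem (add_mem (mul_mem m_be1 m_q1') (neg_mem (mul_mem m_be1' m_q1))) (mul_mem m_c0
      m_e0')) (neg_mem (mul_mem m_c0' m_e0)))
    (show P.be0 * P'.q2 + (P.be1 * P'.q1 + -(P'.be1 * P.q1) + P.c0 * P'.e0 + -(P'.c0 * P.e0)) = 0 by
      linear_combination 1 * r15 + (1) * P.q2 * b0')
  have m_al2' : P'.al2 ∈ L := mem_lin nb m_be0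
    (add_mem (add_mem (add_mem (mul_mem m_al1' m_be1) (neg_mem (mul_mem m_al1 m_be1'))) (mul_mem
      m_c0 m_g0')) (neg_mem (mul_mem m_c0' m_g0)))
    (show P.be0 * P'.al2 + (P'.al1 * P.be1 + -(P.al1 * P'.be1) + P.c0 * P'.g0 + -(P'.c0 * P.g0)) =
      0 by
      linear_combination 1 * r8 + (-1) * P.be2 * a0' + (1) * P'.be2 * a0 + (1) * P.al2 * b0')
  have m_al3' : P'.al3 ∈ L := mem_lin nb m_be0
    (add_mem (add_mem (add_mem (add_mem (add_mem (add_mem (add_mem (add_mem (add_mem (mul_mem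
      m_al1' m_be2) (neg_mem (mul_mem m_al1 m_be2'))) (mul_mem m_al2' m_be1)) (neg_mem (mul_mem
        m_al2 m_be1'))) (mul_mem m_c1 m_g0')) (neg_mem (mul_mem m_c1' m_g0))) (mul_mem m_c0 m_g1'))
          (neg_mem (mul_mem m_c0' m_g1))) (mul_mem m_pi' m_th)) (neg_mem (mul_mem m_pi m_th')))
    (show P.be0 * P'.al3 + (P'.al1 * P.be2 + -(P.al1 * P'.be2) + P'.al2 * P.be1 + -(P.al2 * P'.be1)
      + P.c1 * P'.g0 + -(P'.c1 * P.g0) + P.c0 * P'.g1 + -(P'.c0 * P.g1) + P'.pi * P.th + -(P.pi *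
        P'.th)) = 0 by
      linear_combination 1 * r10 + (-1) * P.be3 * a0' + (1) * P'.be3 * a0 + (1) * P.al3 * b0')
  have m_q3' : P'.q3 ∈ L := mem_lin nb m_be0
    (add_mem (add_mem (add_mem (add_mem (add_mem (add_mem (add_mem (add_mem (add_mem (mul_mem m_be2
      m_q1') (neg_mem (mul_mem m_be2' m_q1))) (mul_mem m_be1 m_q2')) (neg_mem (mul_mem m_be1'
        m_q2))) (mul_mem m_c1 m_e0')) (neg_mem (mul_mem m_c1' m_e0))) (mul_mem m_c0 m_e1'))
          (neg_mem (mul_mem m_c0' m_e1))) (mul_mem m_ph' m_th)) (neg_mem (mul_mem m_ph m_th')))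
    (show P.be0 * P'.q3 + (P.be2 * P'.q1 + -(P'.be2 * P.q1) + P.be1 * P'.q2 + -(P'.be1 * P.q2) +
      P.c1 * P'.e0 + -(P'.c1 * P.e0) + P.c0 * P'.e1 + -(P'.c0 * P.e1) + P'.ph * P.th + -(P.ph *
        P'.th)) = 0 by
      linear_combination 1 * r17 + (1) * P.q3 * b0')
  exact mem_all P P' ⟨m_al0, m_al1, m_al2, m_al3, m_g0, m_g1, m_pi, m_be0, m_be1, m_be2, m_be3,
    m_q1, m_q2, m_q3, m_e0, m_e1, m_ph, m_c0, m_c1, m_f0, m_f1, m_z, m_rho, m_th, m_eta, m_zeta⟩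
    ⟨m_al0', m_al1', m_al2', m_al3', m_g0', m_g1', m_pi', m_be0', m_be1', m_be2', m_be3', m_q1',
      m_q2', m_q3', m_e0', m_e1', m_ph', m_c0', m_c1', m_f0', m_f1', m_z', m_rho', m_th', m_eta',
        m_zeta'⟩

theorem ii_b2ii {P P' : Par K} (h : Rel P P')
    (a0 : P.al0 = 0) (a0' : P'.al0 = 0) (b0' : P'.be0 = 0) (ze : P.zeta = 0) (ze' : P'.zeta = 0)
    (f0z : P.f0 = 0) (rh' : P'.rho = 0)
    (nb : P.be0 ≠ 0) (nr : P.rho ≠ 0) :
    rk k (Set.range (vals P P')) + 18 ≤ 52 := by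
  obtain ⟨r1, r2, r3, r4, r5, r6, r7, r8, r9, r10, r11, r12, r13, r14, r15, r16, r17, r18, r19,
    r20, r21, r22, r23⟩ := h
  simp only [Br] at *
  refine rk_det P P' {.inl .al0, .inr .al0, .inr .be0, .inl .zeta, .inr .zeta, .inl .f0, .inr .rho,
    .inr .al1, .inr .q1, .inr .f0, .inr .e0, .inr .g0, .inr .eta, .inr .f1, .inr .q2, .inr .al2,
      .inr .al3, .inr .q3} (by decide) fun L hL => ?_
  have m_al1 : P.al1 ∈ L := hL (.inl .al1) (by decide)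
  have m_al2 : P.al2 ∈ L := hL (.inl .al2) (by decide)
  have m_al3 : P.al3 ∈ L := hL (.inl .al3) (by decide)
  have m_g0 : P.g0 ∈ L := hL (.inl .g0) (by decide)
  have m_g1 : P.g1 ∈ L := hL (.inl .g1) (by decide)
  have m_pi : P.pi ∈ L := hL (.inl .pi) (by decide)
  have m_be0 : P.be0 ∈ L := hL (.inl .be0) (by decide)
  have m_be1 : P.be1 ∈ L := hL (.inl .be1) (by decide)
  have m_be2 : P.be2 ∈ L := hL (.inl .be2) (by decide)
  have m_be3 : P.be3 ∈ L := hL (.inl .be3) (by decide)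
  have m_q1 : P.q1 ∈ L := hL (.inl .q1) (by decide)
  have m_q2 : P.q2 ∈ L := hL (.inl .q2) (by decide)
  have m_q3 : P.q3 ∈ L := hL (.inl .q3) (by decide)
  have m_e0 : P.e0 ∈ L := hL (.inl .e0) (by decide)
  have m_e1 : P.e1 ∈ L := hL (.inl .e1) (by decide)
  have m_ph : P.ph ∈ L := hL (.inl .ph) (by decide)
  have m_c0 : P.c0 ∈ L := hL (.inl .c0) (by decide)
  have m_c1 : P.c1 ∈ L := hL (.inl .c1) (by decide)
  have m_f1 : P.f1 ∈ L := hL (.inl .f1) (by decide)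
  have m_z : P.z ∈ L := hL (.inl .z) (by decide)
  have m_rho : P.rho ∈ L := hL (.inl .rho) (by decide)
  have m_th : P.th ∈ L := hL (.inl .th) (by decide)
  have m_eta : P.eta ∈ L := hL (.inl .eta) (by decide)
  have m_g1' : P'.g1 ∈ L := hL (.inr .g1) (by decide)
  have m_pi' : P'.pi ∈ L := hL (.inr .pi) (by decide)
  have m_be1' : P'.be1 ∈ L := hL (.inr .be1) (by decide)
  have m_be2' : P'.be2 ∈ L := hL (.inr .be2) (by decide)
  have m_be3' : P'.be3 ∈ L := hL (.inr .be3) (by decide)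
  have m_e1' : P'.e1 ∈ L := hL (.inr .e1) (by decide)
  have m_ph' : P'.ph ∈ L := hL (.inr .ph) (by decide)
  have m_c0' : P'.c0 ∈ L := hL (.inr .c0) (by decide)
  have m_c1' : P'.c1 ∈ L := hL (.inr .c1) (by decide)
  have m_z' : P'.z ∈ L := hL (.inr .z) (by decide)
  have m_th' : P'.th ∈ L := hL (.inr .th) (by decide)
  have m_al0 : P.al0 ∈ L := by rw [a0]; exact zero_mem L
  have m_al0' : P'.al0 ∈ L := by rw [a0']; exact zero_mem L
  have m_be0' : P'.be0 ∈ L := by rw [b0']; exact zero_mem L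
  have m_zeta : P.zeta ∈ L := by rw [ze]; exact zero_mem L
  have m_zeta' : P'.zeta ∈ L := by rw [ze']; exact zero_mem L
  have m_f0 : P.f0 ∈ L := by rw [f0z]; exact zero_mem L
  have m_rho' : P'.rho ∈ L := by rw [rh']; exact zero_mem L
  have m_al1' : P'.al1 ∈ L := mem_lin nb m_be0
    (zero_mem L)
    (show P.be0 * P'.al1 + (0) = 0 by
      linear_combination 1 * r6 + (-1) * P.be1 * a0' + (1) * P'.be1 * a0 + (1) * P.al1 * b0')
  have m_q1' : P'.q1 ∈ L := mem_lin nb m_be0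
    (zero_mem L)
    (show P.be0 * P'.q1 + (0) = 0 by
      linear_combination 1 * r13 + (1) * P.q1 * b0')
  have m_f0' : P'.f0 ∈ L := mem_lin nb m_be0
    (zero_mem L)
    (show P.be0 * P'.f0 + (0) = 0 by
      linear_combination 1 * r19 + (1) * P.f0 * b0')
  have m_e0' : P'.e0 ∈ L := mem_lin nr m_rho
    (zero_mem L)
    (show P.rho * P'.e0 + (0) = 0 by
      linear_combination 1 * r11 + (1) * P.e0 * rh')
  have m_g0' : P'.g0 ∈ L := mem_lin nb m_be0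
    (add_mem (add_mem (add_mem (neg_mem (mul_mem m_e0 m_q1')) (mul_mem m_e0' m_q1)) (neg_mem
      (mul_mem m_e0' m_z))) (mul_mem m_e0 m_z'))
    (show P.be0 * P'.g0 + (-(P.e0 * P'.q1) + P'.e0 * P.q1 + -(P'.e0 * P.z) + P.e0 * P'.z) = 0 by
      linear_combination (-1) * r12 + (1) * P.g0 * b0' + (1) * P'.ph * ze + (-1) * P.ph * ze')
  have m_eta' : P'.eta ∈ L := mem_lin nb m_be0
    (zero_mem L)
    (show P.be0 * P'.eta + (0) = 0 by
      linear_combination 1 * r23 + (1) * P.eta * b0' + (-1) * P.c0 * ze' + (1) * P'.c0 * ze)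
  have m_f1' : P'.f1 ∈ L := mem_lin nb m_be0
    (add_mem (add_mem (add_mem (mul_mem m_be1 m_f0') (mul_mem m_c0 m_z')) (neg_mem (mul_mem m_c0'
      m_z))) (neg_mem (mul_mem m_rho m_th')))
    (show P.be0 * P'.f1 + (P.be1 * P'.f0 + P.c0 * P'.z + -(P'.c0 * P.z) + -(P.rho * P'.th)) = 0 by
      linear_combination 1 * r21 + (1) * P'.be1 * f0z + (1) * P.f1 * b0' + (-1) * P.th * rh')
  have m_q2' : P'.q2 ∈ L := mem_lin nb m_be0
    (add_mem (add_mem (add_mem (mul_mem m_be1 m_q1') (neg_mem (mul_mem m_be1' m_q1))) (mul_mem m_c0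
      m_e0')) (neg_mem (mul_mem m_c0' m_e0)))
    (show P.be0 * P'.q2 + (P.be1 * P'.q1 + -(P'.be1 * P.q1) + P.c0 * P'.e0 + -(P'.c0 * P.e0)) = 0 by
      linear_combination 1 * r15 + (1) * P.q2 * b0')
  have m_al2' : P'.al2 ∈ L := mem_lin nb m_be0
    (add_mem (add_mem (add_mem (mul_mem m_al1' m_be1) (neg_mem (mul_mem m_al1 m_be1'))) (mul_mem
      m_c0 m_g0')) (neg_mem (mul_mem m_c0' m_g0)))
    (show P.be0 * P'.al2 + (P'.al1 * P.be1 + -(P.al1 * P'.be1) + P.c0 * P'.g0 + -(P'.c0 * P.g0)) =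
      0 by
      linear_combination 1 * r8 + (-1) * P.be2 * a0' + (1) * P'.be2 * a0 + (1) * P.al2 * b0')
  have m_al3' : P'.al3 ∈ L := mem_lin nb m_be0
    (add_mem (add_mem (add_mem (add_mem (add_mem (add_mem (add_mem (add_mem (add_mem (mul_mem
      m_al1' m_be2) (neg_mem (mul_mem m_al1 m_be2'))) (mul_mem m_al2' m_be1)) (neg_mem (mul_mem
        m_al2 m_be1'))) (mul_mem m_c1 m_g0')) (neg_mem (mul_mem m_c1' m_g0))) (mul_mem m_c0 m_g1'))
          (neg_mem (mul_mem m_c0' m_g1))) (mul_mem m_pi' m_th)) (neg_mem (mul_mem m_pi m_th')))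
    (show P.be0 * P'.al3 + (P'.al1 * P.be2 + -(P.al1 * P'.be2) + P'.al2 * P.be1 + -(P.al2 * P'.be1)
      + P.c1 * P'.g0 + -(P'.c1 * P.g0) + P.c0 * P'.g1 + -(P'.c0 * P.g1) + P'.pi * P.th + -(P.pi *
        P'.th)) = 0 by
      linear_combination 1 * r10 + (-1) * P.be3 * a0' + (1) * P'.be3 * a0 + (1) * P.al3 * b0')
  have m_q3' : P'.q3 ∈ L := mem_lin nb m_be0
    (add_mem (add_mem (add_mem (add_mem (add_mem (add_mem (add_mem (add_mem (add_mem (mul_mem m_be2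
      m_q1') (neg_mem (mul_mem m_be2' m_q1))) (mul_mem m_be1 m_q2')) (neg_mem (mul_mem m_be1'
        m_q2))) (mul_mem m_c1 m_e0')) (neg_mem (mul_mem m_c1' m_e0))) (mul_mem m_c0 m_e1'))
          (neg_mem (mul_mem m_c0' m_e1))) (mul_mem m_ph' m_th)) (neg_mem (mul_mem m_ph m_th')))
    (show P.be0 * P'.q3 + (P.be2 * P'.q1 + -(P'.be2 * P.q1) + P.be1 * P'.q2 + -(P'.be1 * P.q2) +
      P.c1 * P'.e0 + -(P'.c1 * P.e0) + P.c0 * P'.e1 + -(P'.c0 * P.e1) + P'.ph * P.th + -(P.ph *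
        P'.th)) = 0 by
      linear_combination 1 * r17 + (1) * P.q3 * b0')
  exact mem_all P P' ⟨m_al0, m_al1, m_al2, m_al3, m_g0, m_g1, m_pi, m_be0, m_be1, m_be2, m_be3,
    m_q1, m_q2, m_q3, m_e0, m_e1, m_ph, m_c0, m_c1, m_f0, m_f1, m_z, m_rho, m_th, m_eta, m_zeta⟩
    ⟨m_al0', m_al1', m_al2', m_al3', m_g0', m_g1', m_pi', m_be0', m_be1', m_be2', m_be3', m_q1',
      m_q2', m_q3', m_e0', m_e1', m_ph', m_c0', m_c1', m_f0', m_f1', m_z', m_rho', m_th', m_eta',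
        m_zeta'⟩

theorem i_a1A {P P' : Par K} (h : Rel P P')
    (a0 : P.al0 = 0) (a0' : P'.al0 = 0) (b0 : P.be0 = 0) (b0' : P'.be0 = 0) (ze : P.zeta = 0)
    (ze' : P'.zeta = 0) (rh' : P'.rho = 0) (q1z : P'.q1 = 0)
    (nr : P.rho ≠ 0) (ne : P.e0 ≠ 0) :
    rk k (Set.range (vals P P')) + 18 ≤ 52 := by
  obtain ⟨r1, r2, r3, r4, r5, r6, r7, r8, r9, r10, r11, r12, r13, r14, r15, r16, r17, r18, r19,
    r20, r21, r22, r23⟩ := h
  simp only [Br] at *
  refine rk_det P P' {.inl .al0, .inr .al0, .inl .be0, .inr .be0, .inl .zeta, .inr .zeta, .inr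
    .rho, .inr .q1, .inr .g0, .inr .e0, .inr .f0, .inr .z, .inr .al1, .inr .eta, .inr .c0, .inr
      .th, .inr .f1, .inr .c1} (by decide) fun L hL => ?_
  have m_al1 : P.al1 ∈ L := hL (.inl .al1) (by decide)
  have m_al2 : P.al2 ∈ L := hL (.inl .al2) (by decide)
  have m_al3 : P.al3 ∈ L := hL (.inl .al3) (by decide)
  have m_g0 : P.g0 ∈ L := hL (.inl .g0) (by decide)
  have m_g1 : P.g1 ∈ L := hL (.inl .g1) (by decide)
  have m_pi : P.pi ∈ L := hL (.inl .pi) (by decide)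
  have m_be1 : P.be1 ∈ L := hL (.inl .be1) (by decide)
  have m_be2 : P.be2 ∈ L := hL (.inl .be2) (by decide)
  have m_be3 : P.be3 ∈ L := hL (.inl .be3) (by decide)
  have m_q1 : P.q1 ∈ L := hL (.inl .q1) (by decide)
  have m_q2 : P.q2 ∈ L := hL (.inl .q2) (by decide)
  have m_q3 : P.q3 ∈ L := hL (.inl .q3) (by decide)
  have m_e0 : P.e0 ∈ L := hL (.inl .e0) (by decide)
  have m_e1 : P.e1 ∈ L := hL (.inl .e1) (by decide)
  have m_ph : P.ph ∈ L := hL (.inl .ph) (by decide)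
  have m_c0 : P.c0 ∈ L := hL (.inl .c0) (by decide)
  have m_c1 : P.c1 ∈ L := hL (.inl .c1) (by decide)
  have m_f0 : P.f0 ∈ L := hL (.inl .f0) (by decide)
  have m_f1 : P.f1 ∈ L := hL (.inl .f1) (by decide)
  have m_z : P.z ∈ L := hL (.inl .z) (by decide)
  have m_rho : P.rho ∈ L := hL (.inl .rho) (by decide)
  have m_th : P.th ∈ L := hL (.inl .th) (by decide)
  have m_eta : P.eta ∈ L := hL (.inl .eta) (by decide)
  have m_al2' : P'.al2 ∈ L := hL (.inr .al2) (by decide)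
  have m_al3' : P'.al3 ∈ L := hL (.inr .al3) (by decide)
  have m_g1' : P'.g1 ∈ L := hL (.inr .g1) (by decide)
  have m_pi' : P'.pi ∈ L := hL (.inr .pi) (by decide)
  have m_be1' : P'.be1 ∈ L := hL (.inr .be1) (by decide)
  have m_be2' : P'.be2 ∈ L := hL (.inr .be2) (by decide)
  have m_be3' : P'.be3 ∈ L := hL (.inr .be3) (by decide)
  have m_q2' : P'.q2 ∈ L := hL (.inr .q2) (by decide)
  have m_q3' : P'.q3 ∈ L := hL (.inr .q3) (by decide)
  have m_e1' : P'.e1 ∈ L := hL (.inr .e1) (by decide)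
  have m_ph' : P'.ph ∈ L := hL (.inr .ph) (by decide)
  have m_al0 : P.al0 ∈ L := by rw [a0]; exact zero_mem L
  have m_al0' : P'.al0 ∈ L := by rw [a0']; exact zero_mem L
  have m_be0 : P.be0 ∈ L := by rw [b0]; exact zero_mem L
  have m_be0' : P'.be0 ∈ L := by rw [b0']; exact zero_mem L
  have m_zeta : P.zeta ∈ L := by rw [ze]; exact zero_mem L
  have m_zeta' : P'.zeta ∈ L := by rw [ze']; exact zero_mem L
  have m_rho' : P'.rho ∈ L := by rw [rh']; exact zero_mem L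
  have m_q1' : P'.q1 ∈ L := by rw [q1z]; exact zero_mem L
  have m_g0' : P'.g0 ∈ L := mem_lin nr m_rho
    (zero_mem L)
    (show P.rho * P'.g0 + (0) = 0 by
      linear_combination 1 * r4 + (-1) * P.ph * a0' + (1) * P'.ph * a0 + (1) * P.g0 * rh')
  have m_e0' : P'.e0 ∈ L := mem_lin nr m_rho
    (zero_mem L)
    (show P.rho * P'.e0 + (0) = 0 by
      linear_combination 1 * r11 + (1) * P.e0 * rh')
  have m_f0' : P'.f0 ∈ L := mem_lin ne m_e0
    (neg_mem (mul_mem m_e0' m_f0))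
    (show P.e0 * P'.f0 + (-(P'.e0 * P.f0)) = 0 by
      linear_combination (-1) * r14 + (1) * P.al1 * b0' + (-1) * P'.al1 * b0 + (1) * P'.be1 * a0 +
        (-1) * P.be1 * a0')
  have m_z' : P'.z ∈ L := mem_lin ne m_e0
    (add_mem (mul_mem m_e0' m_q1) (neg_mem (mul_mem m_e0' m_z)))
    (show P.e0 * P'.z + (P'.e0 * P.q1 + -(P'.e0 * P.z)) = 0 by
      linear_combination (-1) * r12 + (1) * P.g0 * b0' + (-1) * P'.g0 * b0 + (1) * P.e0 * q1z + (1)
        * P'.ph * ze + (-1) * P.ph * ze')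
  have m_al1' : P'.al1 ∈ L := mem_lin ne m_e0
    (add_mem (add_mem (neg_mem (mul_mem m_al1 m_e0')) (mul_mem m_g0' m_z)) (neg_mem (mul_mem m_g0
      m_z')))
    (show P.e0 * P'.al1 + (-(P.al1 * P'.e0) + P'.g0 * P.z + -(P.g0 * P'.z)) = 0 by
      linear_combination 1 * r5 + (-1) * P.e1 * a0' + (1) * P'.e1 * a0 + (-1) * P'.pi * ze + (1) *
        P.pi * ze')
  have m_eta' : P'.eta ∈ L := mem_lin nr m_rho
    (add_mem (add_mem (neg_mem (mul_mem m_f0' m_q1)) (neg_mem (mul_mem m_f0 m_z'))) (mul_mem m_f0'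
      m_z))
    (show P.rho * P'.eta + (-(P'.f0 * P.q1) + -(P.f0 * P'.z) + P'.f0 * P.z) = 0 by
      linear_combination (-1) * r20 + (1) * P'.c0 * a0 + (-1) * P.c0 * a0' + (-1) * P.f0 * q1z +
        (1) * P.eta * rh')
  have m_c0' : P'.c0 ∈ L := mem_lin ne m_e0
    (add_mem (mul_mem m_be1' m_q1) (neg_mem (mul_mem m_c0 m_e0')))
    (show P.e0 * P'.c0 + (P'.be1 * P.q1 + -(P.c0 * P'.e0)) = 0 by
      linear_combination (-1) * r15 + (1) * P.be1 * q1z + (1) * P'.q2 * b0 + (-1) * P.q2 * b0')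
  have m_th' : P'.th ∈ L := mem_lin nr m_rho
    (add_mem (add_mem (add_mem (neg_mem (mul_mem m_be1 m_f0')) (mul_mem m_be1' m_f0)) (neg_mem
      (mul_mem m_c0 m_z'))) (mul_mem m_c0' m_z))
    (show P.rho * P'.th + (-(P.be1 * P'.f0) + P'.be1 * P.f0 + -(P.c0 * P'.z) + P'.c0 * P.z) = 0 by
      linear_combination (-1) * r21 + (1) * P'.f1 * b0 + (-1) * P.f1 * b0' + (1) * P.th * rh')
  have m_f1' : P'.f1 ∈ L := mem_lin ne m_e0
    (add_mem (add_mem (add_mem (add_mem (add_mem (add_mem (neg_mem (mul_mem m_al1 m_be1')) (mul_mem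
      m_al1' m_be1)) (neg_mem (mul_mem m_e0' m_f1))) (neg_mem (mul_mem m_e1' m_f0))) (mul_mem m_e1
        m_f0')) (neg_mem (mul_mem m_eta m_ph'))) (mul_mem m_eta' m_ph))
    (show P.e0 * P'.f1 + (-(P.al1 * P'.be1) + P'.al1 * P.be1 + -(P'.e0 * P.f1) + -(P'.e1 * P.f0) +
      P.e1 * P'.f0 + -(P.eta * P'.ph) + P'.eta * P.ph) = 0 by
      linear_combination (-1) * r16 + (1) * P.al2 * b0' + (-1) * P'.al2 * b0 + (1) * P'.be2 * a0 +
        (-1) * P.be2 * a0')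
  have m_c1' : P'.c1 ∈ L := mem_lin ne m_e0
    (add_mem (add_mem (add_mem (add_mem (add_mem (add_mem (add_mem (mul_mem m_be2' m_q1) (neg_mem
      (mul_mem m_be1 m_q2'))) (mul_mem m_be1' m_q2)) (neg_mem (mul_mem m_c1 m_e0'))) (neg_mem
        (mul_mem m_c0 m_e1'))) (mul_mem m_c0' m_e1)) (neg_mem (mul_mem m_ph' m_th))) (mul_mem m_ph
          m_th'))
    (show P.e0 * P'.c1 + (P'.be2 * P.q1 + -(P.be1 * P'.q2) + P'.be1 * P.q2 + -(P.c1 * P'.e0) +
      -(P.c0 * P'.e1) + P'.c0 * P.e1 + -(P'.ph * P.th) + P.ph * P'.th) = 0 by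
      linear_combination (-1) * r17 + (1) * P.be2 * q1z + (1) * P'.q3 * b0 + (-1) * P.q3 * b0')
  exact mem_all P P' ⟨m_al0, m_al1, m_al2, m_al3, m_g0, m_g1, m_pi, m_be0, m_be1, m_be2, m_be3,
    m_q1, m_q2, m_q3, m_e0, m_e1, m_ph, m_c0, m_c1, m_f0, m_f1, m_z, m_rho, m_th, m_eta, m_zeta⟩
    ⟨m_al0', m_al1', m_al2', m_al3', m_g0', m_g1', m_pi', m_be0', m_be1', m_be2', m_be3', m_q1',
      m_q2', m_q3', m_e0', m_e1', m_ph', m_c0', m_c1', m_f0', m_f1', m_z', m_rho', m_th', m_eta',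
        m_zeta'⟩

theorem i_a1B {P P' : Par K} (h : Rel P P')
    (a0 : P.al0 = 0) (a0' : P'.al0 = 0) (b0 : P.be0 = 0) (b0' : P'.be0 = 0) (ze : P.zeta = 0)
    (ze' : P'.zeta = 0) (rh' : P'.rho = 0)
    (nr : P.rho ≠ 0) (ne : P.e0 ≠ 0)
    (hD : P.e0 * P.al1 + -(P.q1 * P.g0) = 0) :
    rk k (Set.range (vals P P')) + 18 ≤ 52 := by
  obtain ⟨r1, r2, r3, r4, r5, r6, r7, r8, r9, r10, r11, r12, r13, r14, r15, r16, r17, r18, r19,
    r20, r21, r22, r23⟩ := h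
  simp only [Br] at *
  refine rk_det P P' {.inl .al0, .inr .al0, .inl .be0, .inr .be0, .inl .zeta, .inr .zeta, .inr
    .rho, .inr .g0, .inr .e0, .inr .f0, .inr .z, .inl .al1, .inr .al1, .inr .eta, .inr .c0, .inr
      .th, .inr .f1, .inr .c1} (by decide) fun L hL => ?_
  have m_al2 : P.al2 ∈ L := hL (.inl .al2) (by decide)
  have m_al3 : P.al3 ∈ L := hL (.inl .al3) (by decide)
  have m_g0 : P.g0 ∈ L := hL (.inl .g0) (by decide)
  have m_g1 : P.g1 ∈ L := hL (.inl .g1) (by decide)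
  have m_pi : P.pi ∈ L := hL (.inl .pi) (by decide)
  have m_be1 : P.be1 ∈ L := hL (.inl .be1) (by decide)
  have m_be2 : P.be2 ∈ L := hL (.inl .be2) (by decide)
  have m_be3 : P.be3 ∈ L := hL (.inl .be3) (by decide)
  have m_q1 : P.q1 ∈ L := hL (.inl .q1) (by decide)
  have m_q2 : P.q2 ∈ L := hL (.inl .q2) (by decide)
  have m_q3 : P.q3 ∈ L := hL (.inl .q3) (by decide)
  have m_e0 : P.e0 ∈ L := hL (.inl .e0) (by decide)
  have m_e1 : P.e1 ∈ L := hL (.inl .e1) (by decide)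
  have m_ph : P.ph ∈ L := hL (.inl .ph) (by decide)
  have m_c0 : P.c0 ∈ L := hL (.inl .c0) (by decide)
  have m_c1 : P.c1 ∈ L := hL (.inl .c1) (by decide)
  have m_f0 : P.f0 ∈ L := hL (.inl .f0) (by decide)
  have m_f1 : P.f1 ∈ L := hL (.inl .f1) (by decide)
  have m_z : P.z ∈ L := hL (.inl .z) (by decide)
  have m_rho : P.rho ∈ L := hL (.inl .rho) (by decide)
  have m_th : P.th ∈ L := hL (.inl .th) (by decide)
  have m_eta : P.eta ∈ L := hL (.inl .eta) (by decide)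
  have m_al2' : P'.al2 ∈ L := hL (.inr .al2) (by decide)
  have m_al3' : P'.al3 ∈ L := hL (.inr .al3) (by decide)
  have m_g1' : P'.g1 ∈ L := hL (.inr .g1) (by decide)
  have m_pi' : P'.pi ∈ L := hL (.inr .pi) (by decide)
  have m_be1' : P'.be1 ∈ L := hL (.inr .be1) (by decide)
  have m_be2' : P'.be2 ∈ L := hL (.inr .be2) (by decide)
  have m_be3' : P'.be3 ∈ L := hL (.inr .be3) (by decide)
  have m_q1' : P'.q1 ∈ L := hL (.inr .q1) (by decide)
  have m_q2' : P'.q2 ∈ L := hL (.inr .q2) (by decide)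
  have m_q3' : P'.q3 ∈ L := hL (.inr .q3) (by decide)
  have m_e1' : P'.e1 ∈ L := hL (.inr .e1) (by decide)
  have m_ph' : P'.ph ∈ L := hL (.inr .ph) (by decide)
  have m_al0 : P.al0 ∈ L := by rw [a0]; exact zero_mem L
  have m_al0' : P'.al0 ∈ L := by rw [a0']; exact zero_mem L
  have m_be0 : P.be0 ∈ L := by rw [b0]; exact zero_mem L
  have m_be0' : P'.be0 ∈ L := by rw [b0']; exact zero_mem L
  have m_zeta : P.zeta ∈ L := by rw [ze]; exact zero_mem L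
  have m_zeta' : P'.zeta ∈ L := by rw [ze']; exact zero_mem L
  have m_rho' : P'.rho ∈ L := by rw [rh']; exact zero_mem L
  have m_g0' : P'.g0 ∈ L := mem_lin nr m_rho
    (zero_mem L)
    (show P.rho * P'.g0 + (0) = 0 by
      linear_combination 1 * r4 + (-1) * P.ph * a0' + (1) * P'.ph * a0 + (1) * P.g0 * rh')
  have m_e0' : P'.e0 ∈ L := mem_lin nr m_rho
    (zero_mem L)
    (show P.rho * P'.e0 + (0) = 0 by
      linear_combination 1 * r11 + (1) * P.e0 * rh')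
  have m_f0' : P'.f0 ∈ L := mem_lin ne m_e0
    (neg_mem (mul_mem m_e0' m_f0))
    (show P.e0 * P'.f0 + (-(P'.e0 * P.f0)) = 0 by
      linear_combination (-1) * r14 + (1) * P.al1 * b0' + (-1) * P'.al1 * b0 + (1) * P'.be1 * a0 +
        (-1) * P.be1 * a0')
  have m_z' : P'.z ∈ L := mem_lin ne m_e0
    (add_mem (add_mem (neg_mem (mul_mem m_e0 m_q1')) (mul_mem m_e0' m_q1)) (neg_mem (mul_mem m_e0'
      m_z)))
    (show P.e0 * P'.z + (-(P.e0 * P'.q1) + P'.e0 * P.q1 + -(P'.e0 * P.z)) = 0 by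
      linear_combination (-1) * r12 + (1) * P.g0 * b0' + (-1) * P'.g0 * b0 + (1) * P'.ph * ze +
        (-1) * P.ph * ze')
  have m_al1 : P.al1 ∈ L := mem_lin ne m_e0 (neg_mem (mul_mem m_q1 m_g0)) hD
  have m_al1' : P'.al1 ∈ L := mem_lin ne m_e0
    (add_mem (add_mem (neg_mem (mul_mem m_al1 m_e0')) (mul_mem m_g0' m_z)) (neg_mem (mul_mem m_g0
      m_z')))
    (show P.e0 * P'.al1 + (-(P.al1 * P'.e0) + P'.g0 * P.z + -(P.g0 * P'.z)) = 0 by
      linear_combination 1 * r5 + (-1) * P.e1 * a0' + (1) * P'.e1 * a0 + (-1) * P'.pi * ze + (1) *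
        P.pi * ze')
  have m_eta' : P'.eta ∈ L := mem_lin nr m_rho
    (add_mem (add_mem (add_mem (neg_mem (mul_mem m_f0' m_q1)) (mul_mem m_f0 m_q1')) (neg_mem
      (mul_mem m_f0 m_z'))) (mul_mem m_f0' m_z))
    (show P.rho * P'.eta + (-(P'.f0 * P.q1) + P.f0 * P'.q1 + -(P.f0 * P'.z) + P'.f0 * P.z) = 0 by
      linear_combination (-1) * r20 + (1) * P'.c0 * a0 + (-1) * P.c0 * a0' + (1) * P.eta * rh')
  have m_c0' : P'.c0 ∈ L := mem_lin ne m_e0
    (add_mem (add_mem (neg_mem (mul_mem m_be1 m_q1')) (mul_mem m_be1' m_q1)) (neg_mem (mul_mem m_c0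
      m_e0')))
    (show P.e0 * P'.c0 + (-(P.be1 * P'.q1) + P'.be1 * P.q1 + -(P.c0 * P'.e0)) = 0 by
      linear_combination (-1) * r15 + (1) * P'.q2 * b0 + (-1) * P.q2 * b0')
  have m_th' : P'.th ∈ L := mem_lin nr m_rho
    (add_mem (add_mem (add_mem (neg_mem (mul_mem m_be1 m_f0')) (mul_mem m_be1' m_f0)) (neg_mem
      (mul_mem m_c0 m_z'))) (mul_mem m_c0' m_z))
    (show P.rho * P'.th + (-(P.be1 * P'.f0) + P'.be1 * P.f0 + -(P.c0 * P'.z) + P'.c0 * P.z) = 0 by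
      linear_combination (-1) * r21 + (1) * P'.f1 * b0 + (-1) * P.f1 * b0' + (1) * P.th * rh')
  have m_f1' : P'.f1 ∈ L := mem_lin ne m_e0
    (add_mem (add_mem (add_mem (add_mem (add_mem (add_mem (neg_mem (mul_mem m_al1 m_be1')) (mul_mem
      m_al1' m_be1)) (neg_mem (mul_mem m_e0' m_f1))) (neg_mem (mul_mem m_e1' m_f0))) (mul_mem m_e1
        m_f0')) (neg_mem (mul_mem m_eta m_ph'))) (mul_mem m_eta' m_ph))
    (show P.e0 * P'.f1 + (-(P.al1 * P'.be1) + P'.al1 * P.be1 + -(P'.e0 * P.f1) + -(P'.e1 * P.f0) +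
      P.e1 * P'.f0 + -(P.eta * P'.ph) + P'.eta * P.ph) = 0 by
      linear_combination (-1) * r16 + (1) * P.al2 * b0' + (-1) * P'.al2 * b0 + (1) * P'.be2 * a0 +
        (-1) * P.be2 * a0')
  have m_c1' : P'.c1 ∈ L := mem_lin ne m_e0
    (add_mem (add_mem (add_mem (add_mem (add_mem (add_mem (add_mem (add_mem (neg_mem (mul_mem m_be2
      m_q1')) (mul_mem m_be2' m_q1)) (neg_mem (mul_mem m_be1 m_q2'))) (mul_mem m_be1' m_q2))
        (neg_mem (mul_mem m_c1 m_e0'))) (neg_mem (mul_mem m_c0 m_e1'))) (mul_mem m_c0' m_e1))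
          (neg_mem (mul_mem m_ph' m_th))) (mul_mem m_ph m_th'))
    (show P.e0 * P'.c1 + (-(P.be2 * P'.q1) + P'.be2 * P.q1 + -(P.be1 * P'.q2) + P'.be1 * P.q2 +
      -(P.c1 * P'.e0) + -(P.c0 * P'.e1) + P'.c0 * P.e1 + -(P'.ph * P.th) + P.ph * P'.th) = 0 by
      linear_combination (-1) * r17 + (1) * P'.q3 * b0 + (-1) * P.q3 * b0')
  exact mem_all P P' ⟨m_al0, m_al1, m_al2, m_al3, m_g0, m_g1, m_pi, m_be0, m_be1, m_be2, m_be3,
    m_q1, m_q2, m_q3, m_e0, m_e1, m_ph, m_c0, m_c1, m_f0, m_f1, m_z, m_rho, m_th, m_eta, m_zeta⟩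
    ⟨m_al0', m_al1', m_al2', m_al3', m_g0', m_g1', m_pi', m_be0', m_be1', m_be2', m_be3', m_q1',
      m_q2', m_q3', m_e0', m_e1', m_ph', m_c0', m_c1', m_f0', m_f1', m_z', m_rho', m_th', m_eta',
        m_zeta'⟩

theorem i_a2A {P P' : Par K} (h : Rel P P')
    (a0 : P.al0 = 0) (a0' : P'.al0 = 0) (b0 : P.be0 = 0) (b0' : P'.be0 = 0) (ze : P.zeta = 0)
    (ze' : P'.zeta = 0) (rh' : P'.rho = 0) (e0z : P.e0 = 0)
    (nr : P.rho ≠ 0) (ng : P.g0 ≠ 0) (nq : P.q1 ≠ 0) :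
    rk k (Set.range (vals P P')) + 18 ≤ 52 := by
  obtain ⟨r1, r2, r3, r4, r5, r6, r7, r8, r9, r10, r11, r12, r13, r14, r15, r16, r17, r18, r19,
    r20, r21, r22, r23⟩ := h
  simp only [Br] at *
  refine rk_det P P' {.inl .al0, .inr .al0, .inl .be0, .inr .be0, .inl .zeta, .inr .zeta, .inr
    .rho, .inl .e0, .inr .g0, .inr .e0, .inr .z, .inr .f0, .inr .eta, .inr .be1, .inr .c0, .inr
      .th, .inr .f1, .inr .c1} (by decide) fun L hL => ?_
  have m_al1 : P.al1 ∈ L := hL (.inl .al1) (by decide)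
  have m_al2 : P.al2 ∈ L := hL (.inl .al2) (by decide)
  have m_al3 : P.al3 ∈ L := hL (.inl .al3) (by decide)
  have m_g0 : P.g0 ∈ L := hL (.inl .g0) (by decide)
  have m_g1 : P.g1 ∈ L := hL (.inl .g1) (by decide)
  have m_pi : P.pi ∈ L := hL (.inl .pi) (by decide)
  have m_be1 : P.be1 ∈ L := hL (.inl .be1) (by decide)
  have m_be2 : P.be2 ∈ L := hL (.inl .be2) (by decide)
  have m_be3 : P.be3 ∈ L := hL (.inl .be3) (by decide)
  have m_q1 : P.q1 ∈ L := hL (.inl .q1) (by decide)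
  have m_q2 : P.q2 ∈ L := hL (.inl .q2) (by decide)
  have m_q3 : P.q3 ∈ L := hL (.inl .q3) (by decide)
  have m_e1 : P.e1 ∈ L := hL (.inl .e1) (by decide)
  have m_ph : P.ph ∈ L := hL (.inl .ph) (by decide)
  have m_c0 : P.c0 ∈ L := hL (.inl .c0) (by decide)
  have m_c1 : P.c1 ∈ L := hL (.inl .c1) (by decide)
  have m_f0 : P.f0 ∈ L := hL (.inl .f0) (by decide)
  have m_f1 : P.f1 ∈ L := hL (.inl .f1) (by decide)
  have m_z : P.z ∈ L := hL (.inl .z) (by decide)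
  have m_rho : P.rho ∈ L := hL (.inl .rho) (by decide)
  have m_th : P.th ∈ L := hL (.inl .th) (by decide)
  have m_eta : P.eta ∈ L := hL (.inl .eta) (by decide)
  have m_al1' : P'.al1 ∈ L := hL (.inr .al1) (by decide)
  have m_al2' : P'.al2 ∈ L := hL (.inr .al2) (by decide)
  have m_al3' : P'.al3 ∈ L := hL (.inr .al3) (by decide)
  have m_g1' : P'.g1 ∈ L := hL (.inr .g1) (by decide)
  have m_pi' : P'.pi ∈ L := hL (.inr .pi) (by decide)
  have m_be2' : P'.be2 ∈ L := hL (.inr .be2) (by decide)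
  have m_be3' : P'.be3 ∈ L := hL (.inr .be3) (by decide)
  have m_q1' : P'.q1 ∈ L := hL (.inr .q1) (by decide)
  have m_q2' : P'.q2 ∈ L := hL (.inr .q2) (by decide)
  have m_q3' : P'.q3 ∈ L := hL (.inr .q3) (by decide)
  have m_e1' : P'.e1 ∈ L := hL (.inr .e1) (by decide)
  have m_ph' : P'.ph ∈ L := hL (.inr .ph) (by decide)
  have m_al0 : P.al0 ∈ L := by rw [a0]; exact zero_mem L
  have m_al0' : P'.al0 ∈ L := by rw [a0']; exact zero_mem L
  have m_be0 : P.be0 ∈ L := by rw [b0]; exact zero_mem L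
  have m_be0' : P'.be0 ∈ L := by rw [b0']; exact zero_mem L
  have m_zeta : P.zeta ∈ L := by rw [ze]; exact zero_mem L
  have m_zeta' : P'.zeta ∈ L := by rw [ze']; exact zero_mem L
  have m_rho' : P'.rho ∈ L := by rw [rh']; exact zero_mem L
  have m_e0 : P.e0 ∈ L := by rw [e0z]; exact zero_mem L
  have m_g0' : P'.g0 ∈ L := mem_lin nr m_rho
    (zero_mem L)
    (show P.rho * P'.g0 + (0) = 0 by
      linear_combination 1 * r4 + (-1) * P.ph * a0' + (1) * P'.ph * a0 + (1) * P.g0 * rh')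
  have m_e0' : P'.e0 ∈ L := mem_lin nr m_rho
    (zero_mem L)
    (show P.rho * P'.e0 + (0) = 0 by
      linear_combination 1 * r11 + (1) * P'.rho * e0z)
  have m_z' : P'.z ∈ L := mem_lin ng m_g0
    (add_mem (mul_mem m_al1 m_e0') (neg_mem (mul_mem m_g0' m_z)))
    (show P.g0 * P'.z + (P.al1 * P'.e0 + -(P'.g0 * P.z)) = 0 by
      linear_combination (-1) * r5 + (1) * P.e1 * a0' + (-1) * P'.e1 * a0 + (1) * P'.al1 * e0z +
        (1) * P'.pi * ze + (-1) * P.pi * ze')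
  have m_f0' : P'.f0 ∈ L := mem_lin ng m_g0
    (add_mem (add_mem (neg_mem (mul_mem m_al1' m_q1)) (mul_mem m_al1 m_q1')) (neg_mem (mul_mem m_f0
      m_g0')))
    (show P.g0 * P'.f0 + (-(P'.al1 * P.q1) + P.al1 * P'.q1 + -(P.f0 * P'.g0)) = 0 by
      linear_combination (-1) * r7 + (1) * P.q2 * a0' + (-1) * P'.q2 * a0)
  have m_eta' : P'.eta ∈ L := mem_lin nr m_rho
    (add_mem (add_mem (add_mem (neg_mem (mul_mem m_f0' m_q1)) (mul_mem m_f0 m_q1')) (neg_mem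
      (mul_mem m_f0 m_z'))) (mul_mem m_f0' m_z))
    (show P.rho * P'.eta + (-(P'.f0 * P.q1) + P.f0 * P'.q1 + -(P.f0 * P'.z) + P'.f0 * P.z) = 0 by
      linear_combination (-1) * r20 + (1) * P'.c0 * a0 + (-1) * P.c0 * a0' + (1) * P.eta * rh')
  have m_be1' : P'.be1 ∈ L := mem_lin nq m_q1
    (add_mem (neg_mem (mul_mem m_be1 m_q1')) (neg_mem (mul_mem m_c0 m_e0')))
    (show P.q1 * P'.be1 + (-(P.be1 * P'.q1) + -(P.c0 * P'.e0)) = 0 by
      linear_combination (-1) * r15 + (1) * P'.q2 * b0 + (-1) * P.q2 * b0' + (-1) * P'.c0 * e0z)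
  have m_c0' : P'.c0 ∈ L := mem_lin ng m_g0
    (add_mem (add_mem (neg_mem (mul_mem m_al1' m_be1)) (mul_mem m_al1 m_be1')) (neg_mem (mul_mem
      m_c0 m_g0')))
    (show P.g0 * P'.c0 + (-(P'.al1 * P.be1) + P.al1 * P'.be1 + -(P.c0 * P'.g0)) = 0 by
      linear_combination (-1) * r8 + (1) * P.be2 * a0' + (-1) * P'.be2 * a0 + (1) * P'.al2 * b0 +
        (-1) * P.al2 * b0')
  have m_th' : P'.th ∈ L := mem_lin nr m_rho
    (add_mem (add_mem (add_mem (neg_mem (mul_mem m_be1 m_f0')) (mul_mem m_be1' m_f0)) (neg_mem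
      (mul_mem m_c0 m_z'))) (mul_mem m_c0' m_z))
    (show P.rho * P'.th + (-(P.be1 * P'.f0) + P'.be1 * P.f0 + -(P.c0 * P'.z) + P'.c0 * P.z) = 0 by
      linear_combination (-1) * r21 + (1) * P'.f1 * b0 + (-1) * P.f1 * b0' + (1) * P.th * rh')
  have m_f1' : P'.f1 ∈ L := mem_lin ng m_g0
    (add_mem (add_mem (add_mem (add_mem (add_mem (add_mem (add_mem (add_mem (neg_mem (mul_mem
      m_al1' m_q2)) (mul_mem m_al1 m_q2')) (neg_mem (mul_mem m_al2' m_q1))) (mul_mem m_al2 m_q1'))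
        (neg_mem (mul_mem m_f1 m_g0'))) (neg_mem (mul_mem m_f0 m_g1'))) (mul_mem m_f0' m_g1))
          (neg_mem (mul_mem m_eta m_pi'))) (mul_mem m_eta' m_pi))
    (show P.g0 * P'.f1 + (-(P'.al1 * P.q2) + P.al1 * P'.q2 + -(P'.al2 * P.q1) + P.al2 * P'.q1 +
      -(P.f1 * P'.g0) + -(P.f0 * P'.g1) + P'.f0 * P.g1 + -(P.eta * P'.pi) + P'.eta * P.pi) = 0 by
      linear_combination (-1) * r9 + (1) * P.q3 * a0' + (-1) * P'.q3 * a0)
  have m_c1' : P'.c1 ∈ L := mem_lin ng m_g0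
    (add_mem (add_mem (add_mem (add_mem (add_mem (add_mem (add_mem (add_mem (neg_mem (mul_mem
      m_al1' m_be2)) (mul_mem m_al1 m_be2')) (neg_mem (mul_mem m_al2' m_be1))) (mul_mem m_al2
        m_be1')) (neg_mem (mul_mem m_c1 m_g0'))) (neg_mem (mul_mem m_c0 m_g1'))) (mul_mem m_c0'
          m_g1)) (neg_mem (mul_mem m_pi' m_th))) (mul_mem m_pi m_th'))
    (show P.g0 * P'.c1 + (-(P'.al1 * P.be2) + P.al1 * P'.be2 + -(P'.al2 * P.be1) + P.al2 * P'.be1 +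
      -(P.c1 * P'.g0) + -(P.c0 * P'.g1) + P'.c0 * P.g1 + -(P'.pi * P.th) + P.pi * P'.th) = 0 by
      linear_combination (-1) * r10 + (1) * P.be3 * a0' + (-1) * P'.be3 * a0 + (1) * P'.al3 * b0 +
        (-1) * P.al3 * b0')
  exact mem_all P P' ⟨m_al0, m_al1, m_al2, m_al3, m_g0, m_g1, m_pi, m_be0, m_be1, m_be2, m_be3,
    m_q1, m_q2, m_q3, m_e0, m_e1, m_ph, m_c0, m_c1, m_f0, m_f1, m_z, m_rho, m_th, m_eta, m_zeta⟩
    ⟨m_al0', m_al1', m_al2', m_al3', m_g0', m_g1', m_pi', m_be0', m_be1', m_be2', m_be3', m_q1',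
      m_q2', m_q3', m_e0', m_e1', m_ph', m_c0', m_c1', m_f0', m_f1', m_z', m_rho', m_th', m_eta',
        m_zeta'⟩

theorem i_a2B {P P' : Par K} (h : Rel P P')
    (a0 : P.al0 = 0) (a0' : P'.al0 = 0) (b0 : P.be0 = 0) (b0' : P'.be0 = 0) (ze : P.zeta = 0)
    (ze' : P'.zeta = 0) (rh' : P'.rho = 0) (e0z : P.e0 = 0) (q1z : P.q1 = 0)
    (nr : P.rho ≠ 0) (ng : P.g0 ≠ 0) :
    rk k (Set.range (vals P P')) + 18 ≤ 52 := by
  obtain ⟨r1, r2, r3, r4, r5, r6, r7, r8, r9, r10, r11, r12, r13, r14, r15, r16, r17, r18, r19,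
    r20, r21, r22, r23⟩ := h
  simp only [Br] at *
  refine rk_det P P' {.inl .al0, .inr .al0, .inl .be0, .inr .be0, .inl .zeta, .inr .zeta, .inr
    .rho, .inl .e0, .inl .q1, .inr .g0, .inr .e0, .inr .z, .inr .f0, .inr .eta, .inr .c0, .inr .th,
      .inr .f1, .inr .c1} (by decide) fun L hL => ?_
  have m_al1 : P.al1 ∈ L := hL (.inl .al1) (by decide)
  have m_al2 : P.al2 ∈ L := hL (.inl .al2) (by decide)
  have m_al3 : P.al3 ∈ L := hL (.inl .al3) (by decide)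
  have m_g0 : P.g0 ∈ L := hL (.inl .g0) (by decide)
  have m_g1 : P.g1 ∈ L := hL (.inl .g1) (by decide)
  have m_pi : P.pi ∈ L := hL (.inl .pi) (by decide)
  have m_be1 : P.be1 ∈ L := hL (.inl .be1) (by decide)
  have m_be2 : P.be2 ∈ L := hL (.inl .be2) (by decide)
  have m_be3 : P.be3 ∈ L := hL (.inl .be3) (by decide)
  have m_q2 : P.q2 ∈ L := hL (.inl .q2) (by decide)
  have m_q3 : P.q3 ∈ L := hL (.inl .q3) (by decide)
  have m_e1 : P.e1 ∈ L := hL (.inl .e1) (by decide)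
  have m_ph : P.ph ∈ L := hL (.inl .ph) (by decide)
  have m_c0 : P.c0 ∈ L := hL (.inl .c0) (by decide)
  have m_c1 : P.c1 ∈ L := hL (.inl .c1) (by decide)
  have m_f0 : P.f0 ∈ L := hL (.inl .f0) (by decide)
  have m_f1 : P.f1 ∈ L := hL (.inl .f1) (by decide)
  have m_z : P.z ∈ L := hL (.inl .z) (by decide)
  have m_rho : P.rho ∈ L := hL (.inl .rho) (by decide)
  have m_th : P.th ∈ L := hL (.inl .th) (by decide)
  have m_eta : P.eta ∈ L := hL (.inl .eta) (by decide)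
  have m_al1' : P'.al1 ∈ L := hL (.inr .al1) (by decide)
  have m_al2' : P'.al2 ∈ L := hL (.inr .al2) (by decide)
  have m_al3' : P'.al3 ∈ L := hL (.inr .al3) (by decide)
  have m_g1' : P'.g1 ∈ L := hL (.inr .g1) (by decide)
  have m_pi' : P'.pi ∈ L := hL (.inr .pi) (by decide)
  have m_be1' : P'.be1 ∈ L := hL (.inr .be1) (by decide)
  have m_be2' : P'.be2 ∈ L := hL (.inr .be2) (by decide)
  have m_be3' : P'.be3 ∈ L := hL (.inr .be3) (by decide)
  have m_q1' : P'.q1 ∈ L := hL (.inr .q1) (by decide)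
  have m_q2' : P'.q2 ∈ L := hL (.inr .q2) (by decide)
  have m_q3' : P'.q3 ∈ L := hL (.inr .q3) (by decide)
  have m_e1' : P'.e1 ∈ L := hL (.inr .e1) (by decide)
  have m_ph' : P'.ph ∈ L := hL (.inr .ph) (by decide)
  have m_al0 : P.al0 ∈ L := by rw [a0]; exact zero_mem L
  have m_al0' : P'.al0 ∈ L := by rw [a0']; exact zero_mem L
  have m_be0 : P.be0 ∈ L := by rw [b0]; exact zero_mem L
  have m_be0' : P'.be0 ∈ L := by rw [b0']; exact zero_mem L
  have m_zeta : P.zeta ∈ L := by rw [ze]; exact zero_mem L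
  have m_zeta' : P'.zeta ∈ L := by rw [ze']; exact zero_mem L
  have m_rho' : P'.rho ∈ L := by rw [rh']; exact zero_mem L
  have m_e0 : P.e0 ∈ L := by rw [e0z]; exact zero_mem L
  have m_q1 : P.q1 ∈ L := by rw [q1z]; exact zero_mem L
  have m_g0' : P'.g0 ∈ L := mem_lin nr m_rho
    (zero_mem L)
    (show P.rho * P'.g0 + (0) = 0 by
      linear_combination 1 * r4 + (-1) * P.ph * a0' + (1) * P'.ph * a0 + (1) * P.g0 * rh')
  have m_e0' : P'.e0 ∈ L := mem_lin nr m_rho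
    (zero_mem L)
    (show P.rho * P'.e0 + (0) = 0 by
      linear_combination 1 * r11 + (1) * P'.rho * e0z)
  have m_z' : P'.z ∈ L := mem_lin ng m_g0
    (add_mem (mul_mem m_al1 m_e0') (neg_mem (mul_mem m_g0' m_z)))
    (show P.g0 * P'.z + (P.al1 * P'.e0 + -(P'.g0 * P.z)) = 0 by
      linear_combination (-1) * r5 + (1) * P.e1 * a0' + (-1) * P'.e1 * a0 + (1) * P'.al1 * e0z +
        (1) * P'.pi * ze + (-1) * P.pi * ze')
  have m_f0' : P'.f0 ∈ L := mem_lin ng m_g0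
    (add_mem (mul_mem m_al1 m_q1') (neg_mem (mul_mem m_f0 m_g0')))
    (show P.g0 * P'.f0 + (P.al1 * P'.q1 + -(P.f0 * P'.g0)) = 0 by
      linear_combination (-1) * r7 + (1) * P.q2 * a0' + (-1) * P'.q2 * a0 + (1) * P'.al1 * q1z)
  have m_eta' : P'.eta ∈ L := mem_lin nr m_rho
    (add_mem (add_mem (mul_mem m_f0 m_q1') (neg_mem (mul_mem m_f0 m_z'))) (mul_mem m_f0' m_z))
    (show P.rho * P'.eta + (P.f0 * P'.q1 + -(P.f0 * P'.z) + P'.f0 * P.z) = 0 by
      linear_combination (-1) * r20 + (1) * P'.c0 * a0 + (-1) * P.c0 * a0' + (1) * P'.f0 * q1z +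
        (1) * P.eta * rh')
  have m_c0' : P'.c0 ∈ L := mem_lin ng m_g0
    (add_mem (add_mem (neg_mem (mul_mem m_al1' m_be1)) (mul_mem m_al1 m_be1')) (neg_mem (mul_mem
      m_c0 m_g0')))
    (show P.g0 * P'.c0 + (-(P'.al1 * P.be1) + P.al1 * P'.be1 + -(P.c0 * P'.g0)) = 0 by
      linear_combination (-1) * r8 + (1) * P.be2 * a0' + (-1) * P'.be2 * a0 + (1) * P'.al2 * b0 +
        (-1) * P.al2 * b0')
  have m_th' : P'.th ∈ L := mem_lin nr m_rho
    (add_mem (add_mem (add_mem (neg_mem (mul_mem m_be1 m_f0')) (mul_mem m_be1' m_f0)) (neg_mem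
      (mul_mem m_c0 m_z'))) (mul_mem m_c0' m_z))
    (show P.rho * P'.th + (-(P.be1 * P'.f0) + P'.be1 * P.f0 + -(P.c0 * P'.z) + P'.c0 * P.z) = 0 by
      linear_combination (-1) * r21 + (1) * P'.f1 * b0 + (-1) * P.f1 * b0' + (1) * P.th * rh')
  have m_f1' : P'.f1 ∈ L := mem_lin ng m_g0
    (add_mem (add_mem (add_mem (add_mem (add_mem (add_mem (add_mem (neg_mem (mul_mem m_al1' m_q2))
      (mul_mem m_al1 m_q2')) (mul_mem m_al2 m_q1')) (neg_mem (mul_mem m_f1 m_g0'))) (neg_mem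
        (mul_mem m_f0 m_g1'))) (mul_mem m_f0' m_g1)) (neg_mem (mul_mem m_eta m_pi'))) (mul_mem
          m_eta' m_pi))
    (show P.g0 * P'.f1 + (-(P'.al1 * P.q2) + P.al1 * P'.q2 + P.al2 * P'.q1 + -(P.f1 * P'.g0) +
      -(P.f0 * P'.g1) + P'.f0 * P.g1 + -(P.eta * P'.pi) + P'.eta * P.pi) = 0 by
      linear_combination (-1) * r9 + (1) * P.q3 * a0' + (-1) * P'.q3 * a0 + (1) * P'.al2 * q1z)
  have m_c1' : P'.c1 ∈ L := mem_lin ng m_g0
    (add_mem (add_mem (add_mem (add_mem (add_mem (add_mem (add_mem (add_mem (neg_mem (mul_mem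
      m_al1' m_be2)) (mul_mem m_al1 m_be2')) (neg_mem (mul_mem m_al2' m_be1))) (mul_mem m_al2
        m_be1')) (neg_mem (mul_mem m_c1 m_g0'))) (neg_mem (mul_mem m_c0 m_g1'))) (mul_mem m_c0'
          m_g1)) (neg_mem (mul_mem m_pi' m_th))) (mul_mem m_pi m_th'))
    (show P.g0 * P'.c1 + (-(P'.al1 * P.be2) + P.al1 * P'.be2 + -(P'.al2 * P.be1) + P.al2 * P'.be1 +
      -(P.c1 * P'.g0) + -(P.c0 * P'.g1) + P'.c0 * P.g1 + -(P'.pi * P.th) + P.pi * P'.th) = 0 by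
      linear_combination (-1) * r10 + (1) * P.be3 * a0' + (-1) * P'.be3 * a0 + (1) * P'.al3 * b0 +
        (-1) * P.al3 * b0')
  exact mem_all P P' ⟨m_al0, m_al1, m_al2, m_al3, m_g0, m_g1, m_pi, m_be0, m_be1, m_be2, m_be3,
    m_q1, m_q2, m_q3, m_e0, m_e1, m_ph, m_c0, m_c1, m_f0, m_f1, m_z, m_rho, m_th, m_eta, m_zeta⟩
    ⟨m_al0', m_al1', m_al2', m_al3', m_g0', m_g1', m_pi', m_be0', m_be1', m_be2', m_be3', m_q1',
      m_q2', m_q3', m_e0', m_e1', m_ph', m_c0', m_c1', m_f0', m_f1', m_z', m_rho', m_th', m_eta',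
        m_zeta'⟩

theorem i_a3fa {P P' : Par K} (h : Rel P P')
    (a0 : P.al0 = 0) (a0' : P'.al0 = 0) (b0 : P.be0 = 0) (b0' : P'.be0 = 0) (ze : P.zeta = 0)
    (ze' : P'.zeta = 0) (rh' : P'.rho = 0) (e0z : P.e0 = 0) (g0z : P.g0 = 0)
    (nr : P.rho ≠ 0) (nf : P.f0 ≠ 0) (nq : P.q1 ≠ 0) :
    rk k (Set.range (vals P P')) + 18 ≤ 52 := by
  obtain ⟨r1, r2, r3, r4, r5, r6, r7, r8, r9, r10, r11, r12, r13, r14, r15, r16, r17, r18, r19,
    r20, r21, r22, r23⟩ := h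
  simp only [Br] at *
  refine rk_det P P' {.inl .al0, .inr .al0, .inl .be0, .inr .be0, .inl .zeta, .inr .zeta, .inr
    .rho, .inl .e0, .inl .g0, .inr .g0, .inr .e0, .inr .al1, .inr .be1, .inr .eta, .inr .th, .inr
      .e1, .inr .be2, .inr .g1} (by decide) fun L hL => ?_
  have m_al1 : P.al1 ∈ L := hL (.inl .al1) (by decide)
  have m_al2 : P.al2 ∈ L := hL (.inl .al2) (by decide)
  have m_al3 : P.al3 ∈ L := hL (.inl .al3) (by decide)
  have m_g1 : P.g1 ∈ L := hL (.inl .g1) (by decide)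
  have m_pi : P.pi ∈ L := hL (.inl .pi) (by decide)
  have m_be1 : P.be1 ∈ L := hL (.inl .be1) (by decide)
  have m_be2 : P.be2 ∈ L := hL (.inl .be2) (by decide)
  have m_be3 : P.be3 ∈ L := hL (.inl .be3) (by decide)
  have m_q1 : P.q1 ∈ L := hL (.inl .q1) (by decide)
  have m_q2 : P.q2 ∈ L := hL (.inl .q2) (by decide)
  have m_q3 : P.q3 ∈ L := hL (.inl .q3) (by decide)
  have m_e1 : P.e1 ∈ L := hL (.inl .e1) (by decide)
  have m_ph : P.ph ∈ L := hL (.inl .ph) (by decide)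
  have m_c0 : P.c0 ∈ L := hL (.inl .c0) (by decide)
  have m_c1 : P.c1 ∈ L := hL (.inl .c1) (by decide)
  have m_f0 : P.f0 ∈ L := hL (.inl .f0) (by decide)
  have m_f1 : P.f1 ∈ L := hL (.inl .f1) (by decide)
  have m_z : P.z ∈ L := hL (.inl .z) (by decide)
  have m_rho : P.rho ∈ L := hL (.inl .rho) (by decide)
  have m_th : P.th ∈ L := hL (.inl .th) (by decide)
  have m_eta : P.eta ∈ L := hL (.inl .eta) (by decide)
  have m_al2' : P'.al2 ∈ L := hL (.inr .al2) (by decide)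
  have m_al3' : P'.al3 ∈ L := hL (.inr .al3) (by decide)
  have m_pi' : P'.pi ∈ L := hL (.inr .pi) (by decide)
  have m_be3' : P'.be3 ∈ L := hL (.inr .be3) (by decide)
  have m_q1' : P'.q1 ∈ L := hL (.inr .q1) (by decide)
  have m_q2' : P'.q2 ∈ L := hL (.inr .q2) (by decide)
  have m_q3' : P'.q3 ∈ L := hL (.inr .q3) (by decide)
  have m_ph' : P'.ph ∈ L := hL (.inr .ph) (by decide)
  have m_c0' : P'.c0 ∈ L := hL (.inr .c0) (by decide)
  have m_c1' : P'.c1 ∈ L := hL (.inr .c1) (by decide)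
  have m_f0' : P'.f0 ∈ L := hL (.inr .f0) (by decide)
  have m_f1' : P'.f1 ∈ L := hL (.inr .f1) (by decide)
  have m_z' : P'.z ∈ L := hL (.inr .z) (by decide)
  have m_al0 : P.al0 ∈ L := by rw [a0]; exact zero_mem L
  have m_al0' : P'.al0 ∈ L := by rw [a0']; exact zero_mem L
  have m_be0 : P.be0 ∈ L := by rw [b0]; exact zero_mem L
  have m_be0' : P'.be0 ∈ L := by rw [b0']; exact zero_mem L
  have m_zeta : P.zeta ∈ L := by rw [ze]; exact zero_mem L
  have m_zeta' : P'.zeta ∈ L := by rw [ze']; exact zero_mem L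
  have m_rho' : P'.rho ∈ L := by rw [rh']; exact zero_mem L
  have m_e0 : P.e0 ∈ L := by rw [e0z]; exact zero_mem L
  have m_g0 : P.g0 ∈ L := by rw [g0z]; exact zero_mem L
  have m_g0' : P'.g0 ∈ L := mem_lin nr m_rho
    (zero_mem L)
    (show P.rho * P'.g0 + (0) = 0 by
      linear_combination 1 * r4 + (-1) * P.ph * a0' + (1) * P'.ph * a0 + (1) * P'.rho * g0z)
  have m_e0' : P'.e0 ∈ L := mem_lin nr m_rho
    (zero_mem L)
    (show P.rho * P'.e0 + (0) = 0 by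
      linear_combination 1 * r11 + (1) * P'.rho * e0z)
  have m_al1' : P'.al1 ∈ L := mem_lin nq m_q1
    (add_mem (neg_mem (mul_mem m_al1 m_q1')) (mul_mem m_f0 m_g0'))
    (show P.q1 * P'.al1 + (-(P.al1 * P'.q1) + P.f0 * P'.g0) = 0 by
      linear_combination 1 * r7 + (-1) * P.q2 * a0' + (1) * P'.q2 * a0 + (1) * P'.f0 * g0z)
  have m_be1' : P'.be1 ∈ L := mem_lin nq m_q1
    (add_mem (neg_mem (mul_mem m_be1 m_q1')) (neg_mem (mul_mem m_c0 m_e0')))
    (show P.q1 * P'.be1 + (-(P.be1 * P'.q1) + -(P.c0 * P'.e0)) = 0 by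
      linear_combination (-1) * r15 + (1) * P'.q2 * b0 + (-1) * P.q2 * b0' + (-1) * P'.c0 * e0z)
  have m_eta' : P'.eta ∈ L := mem_lin nr m_rho
    (add_mem (add_mem (add_mem (neg_mem (mul_mem m_f0' m_q1)) (mul_mem m_f0 m_q1')) (neg_mem
      (mul_mem m_f0 m_z'))) (mul_mem m_f0' m_z))
    (show P.rho * P'.eta + (-(P'.f0 * P.q1) + P.f0 * P'.q1 + -(P.f0 * P'.z) + P'.f0 * P.z) = 0 by
      linear_combination (-1) * r20 + (1) * P'.c0 * a0 + (-1) * P.c0 * a0' + (1) * P.eta * rh')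
  have m_th' : P'.th ∈ L := mem_lin nr m_rho
    (add_mem (add_mem (add_mem (neg_mem (mul_mem m_be1 m_f0')) (mul_mem m_be1' m_f0)) (neg_mem
      (mul_mem m_c0 m_z'))) (mul_mem m_c0' m_z))
    (show P.rho * P'.th + (-(P.be1 * P'.f0) + P'.be1 * P.f0 + -(P.c0 * P'.z) + P'.c0 * P.z) = 0 by
      linear_combination (-1) * r21 + (1) * P'.f1 * b0 + (-1) * P.f1 * b0' + (1) * P.th * rh')
  have m_e1' : P'.e1 ∈ L := mem_lin nf m_f0
    (add_mem (add_mem (add_mem (add_mem (add_mem (mul_mem m_al1 m_be1') (neg_mem (mul_mem m_al1'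
      m_be1))) (mul_mem m_e0' m_f1)) (neg_mem (mul_mem m_e1 m_f0'))) (mul_mem m_eta m_ph'))
        (neg_mem (mul_mem m_eta' m_ph)))
    (show P.f0 * P'.e1 + (P.al1 * P'.be1 + -(P'.al1 * P.be1) + P'.e0 * P.f1 + -(P.e1 * P'.f0) +
      P.eta * P'.ph + -(P'.eta * P.ph)) = 0 by
      linear_combination 1 * r16 + (-1) * P.al2 * b0' + (1) * P'.al2 * b0 + (-1) * P'.be2 * a0 +
        (1) * P.be2 * a0' + (1) * P'.f1 * e0z)
  have m_be2' : P'.be2 ∈ L := mem_lin nq m_q1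
    (add_mem (add_mem (add_mem (add_mem (add_mem (add_mem (add_mem (neg_mem (mul_mem m_be2 m_q1'))
      (neg_mem (mul_mem m_be1 m_q2'))) (mul_mem m_be1' m_q2)) (neg_mem (mul_mem m_c1 m_e0')))
        (neg_mem (mul_mem m_c0 m_e1'))) (mul_mem m_c0' m_e1)) (neg_mem (mul_mem m_ph' m_th)))
          (mul_mem m_ph m_th'))
    (show P.q1 * P'.be2 + (-(P.be2 * P'.q1) + -(P.be1 * P'.q2) + P'.be1 * P.q2 + -(P.c1 * P'.e0) +
      -(P.c0 * P'.e1) + P'.c0 * P.e1 + -(P'.ph * P.th) + P.ph * P'.th) = 0 by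
      linear_combination (-1) * r17 + (1) * P'.q3 * b0 + (-1) * P.q3 * b0' + (-1) * P'.c1 * e0z)
  have m_g1' : P'.g1 ∈ L := mem_lin nf m_f0
    (add_mem (add_mem (add_mem (add_mem (add_mem (add_mem (add_mem (mul_mem m_al1' m_q2) (neg_mem
      (mul_mem m_al1 m_q2'))) (mul_mem m_al2' m_q1)) (neg_mem (mul_mem m_al2 m_q1'))) (mul_mem m_f1
        m_g0')) (neg_mem (mul_mem m_f0' m_g1))) (mul_mem m_eta m_pi')) (neg_mem (mul_mem m_eta'
          m_pi)))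
    (show P.f0 * P'.g1 + (P'.al1 * P.q2 + -(P.al1 * P'.q2) + P'.al2 * P.q1 + -(P.al2 * P'.q1) +
      P.f1 * P'.g0 + -(P'.f0 * P.g1) + P.eta * P'.pi + -(P'.eta * P.pi)) = 0 by
      linear_combination 1 * r9 + (-1) * P.q3 * a0' + (1) * P'.q3 * a0 + (1) * P'.f1 * g0z)
  exact mem_all P P' ⟨m_al0, m_al1, m_al2, m_al3, m_g0, m_g1, m_pi, m_be0, m_be1, m_be2, m_be3,
    m_q1, m_q2, m_q3, m_e0, m_e1, m_ph, m_c0, m_c1, m_f0, m_f1, m_z, m_rho, m_th, m_eta, m_zeta⟩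
    ⟨m_al0', m_al1', m_al2', m_al3', m_g0', m_g1', m_pi', m_be0', m_be1', m_be2', m_be3', m_q1',
      m_q2', m_q3', m_e0', m_e1', m_ph', m_c0', m_c1', m_f0', m_f1', m_z', m_rho', m_th', m_eta',
        m_zeta'⟩

theorem i_a3fb {P P' : Par K} (h : Rel P P')
    (a0 : P.al0 = 0) (a0' : P'.al0 = 0) (b0 : P.be0 = 0) (b0' : P'.be0 = 0) (ze : P.zeta = 0)
    (ze' : P'.zeta = 0) (rh' : P'.rho = 0) (e0z : P.e0 = 0) (g0z : P.g0 = 0) (q1z : P.q1 = 0)
    (nr : P.rho ≠ 0) (nf : P.f0 ≠ 0) (nq : P'.q1 ≠ 0) :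
    rk k (Set.range (vals P P')) + 18 ≤ 52 := by
  obtain ⟨r1, r2, r3, r4, r5, r6, r7, r8, r9, r10, r11, r12, r13, r14, r15, r16, r17, r18, r19,
    r20, r21, r22, r23⟩ := h
  simp only [Br] at *
  refine rk_det P P' {.inl .al0, .inr .al0, .inl .be0, .inr .be0, .inl .zeta, .inr .zeta, .inr
    .rho, .inl .e0, .inl .g0, .inl .q1, .inr .g0, .inr .e0, .inl .al1, .inl .be1, .inr .eta, .inr
      .th, .inr .e1, .inl .be2, .inr .g1} (by decide) fun L hL => ?_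
  have m_al2 : P.al2 ∈ L := hL (.inl .al2) (by decide)
  have m_al3 : P.al3 ∈ L := hL (.inl .al3) (by decide)
  have m_g1 : P.g1 ∈ L := hL (.inl .g1) (by decide)
  have m_pi : P.pi ∈ L := hL (.inl .pi) (by decide)
  have m_be3 : P.be3 ∈ L := hL (.inl .be3) (by decide)
  have m_q2 : P.q2 ∈ L := hL (.inl .q2) (by decide)
  have m_q3 : P.q3 ∈ L := hL (.inl .q3) (by decide)
  have m_e1 : P.e1 ∈ L := hL (.inl .e1) (by decide)
  have m_ph : P.ph ∈ L := hL (.inl .ph) (by decide)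
  have m_c0 : P.c0 ∈ L := hL (.inl .c0) (by decide)
  have m_c1 : P.c1 ∈ L := hL (.inl .c1) (by decide)
  have m_f0 : P.f0 ∈ L := hL (.inl .f0) (by decide)
  have m_f1 : P.f1 ∈ L := hL (.inl .f1) (by decide)
  have m_z : P.z ∈ L := hL (.inl .z) (by decide)
  have m_rho : P.rho ∈ L := hL (.inl .rho) (by decide)
  have m_th : P.th ∈ L := hL (.inl .th) (by decide)
  have m_eta : P.eta ∈ L := hL (.inl .eta) (by decide)
  have m_al1' : P'.al1 ∈ L := hL (.inr .al1) (by decide)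
  have m_al2' : P'.al2 ∈ L := hL (.inr .al2) (by decide)
  have m_al3' : P'.al3 ∈ L := hL (.inr .al3) (by decide)
  have m_pi' : P'.pi ∈ L := hL (.inr .pi) (by decide)
  have m_be1' : P'.be1 ∈ L := hL (.inr .be1) (by decide)
  have m_be2' : P'.be2 ∈ L := hL (.inr .be2) (by decide)
  have m_be3' : P'.be3 ∈ L := hL (.inr .be3) (by decide)
  have m_q1' : P'.q1 ∈ L := hL (.inr .q1) (by decide)
  have m_q2' : P'.q2 ∈ L := hL (.inr .q2) (by decide)
  have m_q3' : P'.q3 ∈ L := hL (.inr .q3) (by decide)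
  have m_ph' : P'.ph ∈ L := hL (.inr .ph) (by decide)
  have m_c0' : P'.c0 ∈ L := hL (.inr .c0) (by decide)
  have m_c1' : P'.c1 ∈ L := hL (.inr .c1) (by decide)
  have m_f0' : P'.f0 ∈ L := hL (.inr .f0) (by decide)
  have m_f1' : P'.f1 ∈ L := hL (.inr .f1) (by decide)
  have m_z' : P'.z ∈ L := hL (.inr .z) (by decide)
  have m_al0 : P.al0 ∈ L := by rw [a0]; exact zero_mem L
  have m_al0' : P'.al0 ∈ L := by rw [a0']; exact zero_mem L
  have m_be0 : P.be0 ∈ L := by rw [b0]; exact zero_mem L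
  have m_be0' : P'.be0 ∈ L := by rw [b0']; exact zero_mem L
  have m_zeta : P.zeta ∈ L := by rw [ze]; exact zero_mem L
  have m_zeta' : P'.zeta ∈ L := by rw [ze']; exact zero_mem L
  have m_rho' : P'.rho ∈ L := by rw [rh']; exact zero_mem L
  have m_e0 : P.e0 ∈ L := by rw [e0z]; exact zero_mem L
  have m_g0 : P.g0 ∈ L := by rw [g0z]; exact zero_mem L
  have m_q1 : P.q1 ∈ L := by rw [q1z]; exact zero_mem L
  have m_g0' : P'.g0 ∈ L := mem_lin nr m_rho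
    (zero_mem L)
    (show P.rho * P'.g0 + (0) = 0 by
      linear_combination 1 * r4 + (-1) * P.ph * a0' + (1) * P'.ph * a0 + (1) * P'.rho * g0z)
  have m_e0' : P'.e0 ∈ L := mem_lin nr m_rho
    (zero_mem L)
    (show P.rho * P'.e0 + (0) = 0 by
      linear_combination 1 * r11 + (1) * P'.rho * e0z)
  have m_al1 : P.al1 ∈ L := mem_lin nq m_q1'
    (neg_mem (mul_mem m_f0 m_g0'))
    (show P'.q1 * P.al1 + (-(P.f0 * P'.g0)) = 0 by
      linear_combination (-1) * r7 + (1) * P.q2 * a0' + (-1) * P'.q2 * a0 + (1) * P'.al1 * q1z +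
        (-1) * P'.f0 * g0z)
  have m_be1 : P.be1 ∈ L := mem_lin nq m_q1'
    (mul_mem m_c0 m_e0')
    (show P'.q1 * P.be1 + (P.c0 * P'.e0) = 0 by
      linear_combination 1 * r15 + (1) * P'.be1 * q1z + (-1) * P'.q2 * b0 + (1) * P.q2 * b0' + (1)
        * P'.c0 * e0z)
  have m_eta' : P'.eta ∈ L := mem_lin nr m_rho
    (add_mem (add_mem (mul_mem m_f0 m_q1') (neg_mem (mul_mem m_f0 m_z'))) (mul_mem m_f0' m_z))
    (show P.rho * P'.eta + (P.f0 * P'.q1 + -(P.f0 * P'.z) + P'.f0 * P.z) = 0 by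
      linear_combination (-1) * r20 + (1) * P'.c0 * a0 + (-1) * P.c0 * a0' + (1) * P'.f0 * q1z +
        (1) * P.eta * rh')
  have m_th' : P'.th ∈ L := mem_lin nr m_rho
    (add_mem (add_mem (add_mem (neg_mem (mul_mem m_be1 m_f0')) (mul_mem m_be1' m_f0)) (neg_mem
      (mul_mem m_c0 m_z'))) (mul_mem m_c0' m_z))
    (show P.rho * P'.th + (-(P.be1 * P'.f0) + P'.be1 * P.f0 + -(P.c0 * P'.z) + P'.c0 * P.z) = 0 by
      linear_combination (-1) * r21 + (1) * P'.f1 * b0 + (-1) * P.f1 * b0' + (1) * P.th * rh')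
  have m_e1' : P'.e1 ∈ L := mem_lin nf m_f0
    (add_mem (add_mem (add_mem (add_mem (add_mem (mul_mem m_al1 m_be1') (neg_mem (mul_mem m_al1'
      m_be1))) (mul_mem m_e0' m_f1)) (neg_mem (mul_mem m_e1 m_f0'))) (mul_mem m_eta m_ph'))
        (neg_mem (mul_mem m_eta' m_ph)))
    (show P.f0 * P'.e1 + (P.al1 * P'.be1 + -(P'.al1 * P.be1) + P'.e0 * P.f1 + -(P.e1 * P'.f0) +
      P.eta * P'.ph + -(P'.eta * P.ph)) = 0 by
      linear_combination 1 * r16 + (-1) * P.al2 * b0' + (1) * P'.al2 * b0 + (-1) * P'.be2 * a0 +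
        (1) * P.be2 * a0' + (1) * P'.f1 * e0z)
  have m_be2 : P.be2 ∈ L := mem_lin nq m_q1'
    (add_mem (add_mem (add_mem (add_mem (add_mem (add_mem (mul_mem m_be1 m_q2') (neg_mem (mul_mem
      m_be1' m_q2))) (mul_mem m_c1 m_e0')) (mul_mem m_c0 m_e1')) (neg_mem (mul_mem m_c0' m_e1)))
        (mul_mem m_ph' m_th)) (neg_mem (mul_mem m_ph m_th')))
    (show P'.q1 * P.be2 + (P.be1 * P'.q2 + -(P'.be1 * P.q2) + P.c1 * P'.e0 + P.c0 * P'.e1 + -(P'.c0
      * P.e1) + P'.ph * P.th + -(P.ph * P'.th)) = 0 by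
      linear_combination 1 * r17 + (1) * P'.be2 * q1z + (-1) * P'.q3 * b0 + (1) * P.q3 * b0' + (1)
        * P'.c1 * e0z)
  have m_g1' : P'.g1 ∈ L := mem_lin nf m_f0
    (add_mem (add_mem (add_mem (add_mem (add_mem (add_mem (mul_mem m_al1' m_q2) (neg_mem (mul_mem
      m_al1 m_q2'))) (neg_mem (mul_mem m_al2 m_q1'))) (mul_mem m_f1 m_g0')) (neg_mem (mul_mem m_f0'
        m_g1))) (mul_mem m_eta m_pi')) (neg_mem (mul_mem m_eta' m_pi)))
    (show P.f0 * P'.g1 + (P'.al1 * P.q2 + -(P.al1 * P'.q2) + -(P.al2 * P'.q1) + P.f1 * P'.g0 +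
      -(P'.f0 * P.g1) + P.eta * P'.pi + -(P'.eta * P.pi)) = 0 by
      linear_combination 1 * r9 + (-1) * P.q3 * a0' + (1) * P'.q3 * a0 + (-1) * P'.al2 * q1z + (1)
        * P'.f1 * g0z)
  exact mem_all P P' ⟨m_al0, m_al1, m_al2, m_al3, m_g0, m_g1, m_pi, m_be0, m_be1, m_be2, m_be3,
    m_q1, m_q2, m_q3, m_e0, m_e1, m_ph, m_c0, m_c1, m_f0, m_f1, m_z, m_rho, m_th, m_eta, m_zeta⟩
    ⟨m_al0', m_al1', m_al2', m_al3', m_g0', m_g1', m_pi', m_be0', m_be1', m_be2', m_be3', m_q1',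
      m_q2', m_q3', m_e0', m_e1', m_ph', m_c0', m_c1', m_f0', m_f1', m_z', m_rho', m_th', m_eta',
        m_zeta'⟩

theorem i_a3fc {P P' : Par K} (h : Rel P P')
    (a0 : P.al0 = 0) (a0' : P'.al0 = 0) (b0 : P.be0 = 0) (b0' : P'.be0 = 0) (ze : P.zeta = 0)
    (ze' : P'.zeta = 0) (rh' : P'.rho = 0) (e0z : P.e0 = 0) (g0z : P.g0 = 0) (q1z : P.q1 = 0)
    (q1z' : P'.q1 = 0)
    (nr : P.rho ≠ 0) (nf : P.f0 ≠ 0) (nbe : P.be1 ≠ 0) :
    rk k (Set.range (vals P P')) + 18 ≤ 52 := by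
  obtain ⟨r1, r2, r3, r4, r5, r6, r7, r8, r9, r10, r11, r12, r13, r14, r15, r16, r17, r18, r19,
    r20, r21, r22, r23⟩ := h
  simp only [Br] at *
  refine rk_det P P' {.inl .al0, .inr .al0, .inl .be0, .inr .be0, .inl .zeta, .inr .zeta, .inr
    .rho, .inl .e0, .inl .g0, .inl .q1, .inr .q1, .inr .g0, .inr .e0, .inr .eta, .inr .th, .inr
      .e1, .inr .q2, .inr .g1} (by decide) fun L hL => ?_
  have m_al1 : P.al1 ∈ L := hL (.inl .al1) (by decide)
  have m_al2 : P.al2 ∈ L := hL (.inl .al2) (by decide)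
  have m_al3 : P.al3 ∈ L := hL (.inl .al3) (by decide)
  have m_g1 : P.g1 ∈ L := hL (.inl .g1) (by decide)
  have m_pi : P.pi ∈ L := hL (.inl .pi) (by decide)
  have m_be1 : P.be1 ∈ L := hL (.inl .be1) (by decide)
  have m_be2 : P.be2 ∈ L := hL (.inl .be2) (by decide)
  have m_be3 : P.be3 ∈ L := hL (.inl .be3) (by decide)
  have m_q2 : P.q2 ∈ L := hL (.inl .q2) (by decide)
  have m_q3 : P.q3 ∈ L := hL (.inl .q3) (by decide)
  have m_e1 : P.e1 ∈ L := hL (.inl .e1) (by decide)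
  have m_ph : P.ph ∈ L := hL (.inl .ph) (by decide)
  have m_c0 : P.c0 ∈ L := hL (.inl .c0) (by decide)
  have m_c1 : P.c1 ∈ L := hL (.inl .c1) (by decide)
  have m_f0 : P.f0 ∈ L := hL (.inl .f0) (by decide)
  have m_f1 : P.f1 ∈ L := hL (.inl .f1) (by decide)
  have m_z : P.z ∈ L := hL (.inl .z) (by decide)
  have m_rho : P.rho ∈ L := hL (.inl .rho) (by decide)
  have m_th : P.th ∈ L := hL (.inl .th) (by decide)
  have m_eta : P.eta ∈ L := hL (.inl .eta) (by decide)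
  have m_al1' : P'.al1 ∈ L := hL (.inr .al1) (by decide)
  have m_al2' : P'.al2 ∈ L := hL (.inr .al2) (by decide)
  have m_al3' : P'.al3 ∈ L := hL (.inr .al3) (by decide)
  have m_pi' : P'.pi ∈ L := hL (.inr .pi) (by decide)
  have m_be1' : P'.be1 ∈ L := hL (.inr .be1) (by decide)
  have m_be2' : P'.be2 ∈ L := hL (.inr .be2) (by decide)
  have m_be3' : P'.be3 ∈ L := hL (.inr .be3) (by decide)
  have m_q3' : P'.q3 ∈ L := hL (.inr .q3) (by decide)
  have m_ph' : P'.ph ∈ L := hL (.inr .ph) (by decide)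
  have m_c0' : P'.c0 ∈ L := hL (.inr .c0) (by decide)
  have m_c1' : P'.c1 ∈ L := hL (.inr .c1) (by decide)
  have m_f0' : P'.f0 ∈ L := hL (.inr .f0) (by decide)
  have m_f1' : P'.f1 ∈ L := hL (.inr .f1) (by decide)
  have m_z' : P'.z ∈ L := hL (.inr .z) (by decide)
  have m_al0 : P.al0 ∈ L := by rw [a0]; exact zero_mem L
  have m_al0' : P'.al0 ∈ L := by rw [a0']; exact zero_mem L
  have m_be0 : P.be0 ∈ L := by rw [b0]; exact zero_mem L
  have m_be0' : P'.be0 ∈ L := by rw [b0']; exact zero_mem L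
  have m_zeta : P.zeta ∈ L := by rw [ze]; exact zero_mem L
  have m_zeta' : P'.zeta ∈ L := by rw [ze']; exact zero_mem L
  have m_rho' : P'.rho ∈ L := by rw [rh']; exact zero_mem L
  have m_e0 : P.e0 ∈ L := by rw [e0z]; exact zero_mem L
  have m_g0 : P.g0 ∈ L := by rw [g0z]; exact zero_mem L
  have m_q1 : P.q1 ∈ L := by rw [q1z]; exact zero_mem L
  have m_q1' : P'.q1 ∈ L := by rw [q1z']; exact zero_mem L
  have m_g0' : P'.g0 ∈ L := mem_lin nr m_rho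
    (zero_mem L)
    (show P.rho * P'.g0 + (0) = 0 by
      linear_combination 1 * r4 + (-1) * P.ph * a0' + (1) * P'.ph * a0 + (1) * P'.rho * g0z)
  have m_e0' : P'.e0 ∈ L := mem_lin nr m_rho
    (zero_mem L)
    (show P.rho * P'.e0 + (0) = 0 by
      linear_combination 1 * r11 + (1) * P'.rho * e0z)
  have m_eta' : P'.eta ∈ L := mem_lin nr m_rho
    (add_mem (neg_mem (mul_mem m_f0 m_z')) (mul_mem m_f0' m_z))
    (show P.rho * P'.eta + (-(P.f0 * P'.z) + P'.f0 * P.z) = 0 by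
      linear_combination (-1) * r20 + (1) * P'.c0 * a0 + (-1) * P.c0 * a0' + (1) * P'.f0 * q1z +
        (-1) * P.f0 * q1z' + (1) * P.eta * rh')
  have m_th' : P'.th ∈ L := mem_lin nr m_rho
    (add_mem (add_mem (add_mem (neg_mem (mul_mem m_be1 m_f0')) (mul_mem m_be1' m_f0)) (neg_mem
      (mul_mem m_c0 m_z'))) (mul_mem m_c0' m_z))
    (show P.rho * P'.th + (-(P.be1 * P'.f0) + P'.be1 * P.f0 + -(P.c0 * P'.z) + P'.c0 * P.z) = 0 by
      linear_combination (-1) * r21 + (1) * P'.f1 * b0 + (-1) * P.f1 * b0' + (1) * P.th * rh')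
  have m_e1' : P'.e1 ∈ L := mem_lin nf m_f0
    (add_mem (add_mem (add_mem (add_mem (add_mem (mul_mem m_al1 m_be1') (neg_mem (mul_mem m_al1'
      m_be1))) (mul_mem m_e0' m_f1)) (neg_mem (mul_mem m_e1 m_f0'))) (mul_mem m_eta m_ph'))
        (neg_mem (mul_mem m_eta' m_ph)))
    (show P.f0 * P'.e1 + (P.al1 * P'.be1 + -(P'.al1 * P.be1) + P'.e0 * P.f1 + -(P.e1 * P'.f0) +
      P.eta * P'.ph + -(P'.eta * P.ph)) = 0 by
      linear_combination 1 * r16 + (-1) * P.al2 * b0' + (1) * P'.al2 * b0 + (-1) * P'.be2 * a0 +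
        (1) * P.be2 * a0' + (1) * P'.f1 * e0z)
  have m_q2' : P'.q2 ∈ L := mem_lin nbe m_be1
    (add_mem (add_mem (add_mem (add_mem (add_mem (neg_mem (mul_mem m_be1' m_q2)) (mul_mem m_c1
      m_e0')) (mul_mem m_c0 m_e1')) (neg_mem (mul_mem m_c0' m_e1))) (mul_mem m_ph' m_th)) (neg_mem
        (mul_mem m_ph m_th')))
    (show P.be1 * P'.q2 + (-(P'.be1 * P.q2) + P.c1 * P'.e0 + P.c0 * P'.e1 + -(P'.c0 * P.e1) + P'.ph
      * P.th + -(P.ph * P'.th)) = 0 by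
      linear_combination 1 * r17 + (-1) * P.be2 * q1z' + (1) * P'.be2 * q1z + (-1) * P'.q3 * b0 +
        (1) * P.q3 * b0' + (1) * P'.c1 * e0z)
  have m_g1' : P'.g1 ∈ L := mem_lin nf m_f0
    (add_mem (add_mem (add_mem (add_mem (add_mem (mul_mem m_al1' m_q2) (neg_mem (mul_mem m_al1
      m_q2'))) (mul_mem m_f1 m_g0')) (neg_mem (mul_mem m_f0' m_g1))) (mul_mem m_eta m_pi'))
        (neg_mem (mul_mem m_eta' m_pi)))
    (show P.f0 * P'.g1 + (P'.al1 * P.q2 + -(P.al1 * P'.q2) + P.f1 * P'.g0 + -(P'.f0 * P.g1) + P.eta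
      * P'.pi + -(P'.eta * P.pi)) = 0 by
      linear_combination 1 * r9 + (-1) * P.q3 * a0' + (1) * P'.q3 * a0 + (-1) * P'.al2 * q1z + (1)
        * P.al2 * q1z' + (1) * P'.f1 * g0z)
  exact mem_all P P' ⟨m_al0, m_al1, m_al2, m_al3, m_g0, m_g1, m_pi, m_be0, m_be1, m_be2, m_be3,
    m_q1, m_q2, m_q3, m_e0, m_e1, m_ph, m_c0, m_c1, m_f0, m_f1, m_z, m_rho, m_th, m_eta, m_zeta⟩
    ⟨m_al0', m_al1', m_al2', m_al3', m_g0', m_g1', m_pi', m_be0', m_be1', m_be2', m_be3', m_q1',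
      m_q2', m_q3', m_e0', m_e1', m_ph', m_c0', m_c1', m_f0', m_f1', m_z', m_rho', m_th', m_eta',
        m_zeta'⟩

theorem i_a3fd {P P' : Par K} (h : Rel P P')
    (a0 : P.al0 = 0) (a0' : P'.al0 = 0) (b0 : P.be0 = 0) (b0' : P'.be0 = 0) (ze : P.zeta = 0)
    (ze' : P'.zeta = 0) (rh' : P'.rho = 0) (e0z : P.e0 = 0) (g0z : P.g0 = 0) (q1z : P.q1 = 0)
    (q1z' : P'.q1 = 0) (be1z : P.be1 = 0)
    (nr : P.rho ≠ 0) (nf : P.f0 ≠ 0) (nbe : P'.be1 ≠ 0) :
    rk k (Set.range (vals P P')) + 18 ≤ 52 := by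
  obtain ⟨r1, r2, r3, r4, r5, r6, r7, r8, r9, r10, r11, r12, r13, r14, r15, r16, r17, r18, r19,
    r20, r21, r22, r23⟩ := h
  simp only [Br] at *
  refine rk_det P P' {.inl .al0, .inr .al0, .inl .be0, .inr .be0, .inl .zeta, .inr .zeta, .inr
    .rho, .inl .e0, .inl .g0, .inl .q1, .inr .q1, .inl .be1, .inr .g0, .inr .e0, .inr .eta, .inr
      .th, .inr .e1, .inl .q2, .inr .g1} (by decide) fun L hL => ?_
  have m_al1 : P.al1 ∈ L := hL (.inl .al1) (by decide)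
  have m_al2 : P.al2 ∈ L := hL (.inl .al2) (by decide)
  have m_al3 : P.al3 ∈ L := hL (.inl .al3) (by decide)
  have m_g1 : P.g1 ∈ L := hL (.inl .g1) (by decide)
  have m_pi : P.pi ∈ L := hL (.inl .pi) (by decide)
  have m_be2 : P.be2 ∈ L := hL (.inl .be2) (by decide)
  have m_be3 : P.be3 ∈ L := hL (.inl .be3) (by decide)
  have m_q3 : P.q3 ∈ L := hL (.inl .q3) (by decide)
  have m_e1 : P.e1 ∈ L := hL (.inl .e1) (by decide)
  have m_ph : P.ph ∈ L := hL (.inl .ph) (by decide)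
  have m_c0 : P.c0 ∈ L := hL (.inl .c0) (by decide)
  have m_c1 : P.c1 ∈ L := hL (.inl .c1) (by decide)
  have m_f0 : P.f0 ∈ L := hL (.inl .f0) (by decide)
  have m_f1 : P.f1 ∈ L := hL (.inl .f1) (by decide)
  have m_z : P.z ∈ L := hL (.inl .z) (by decide)
  have m_rho : P.rho ∈ L := hL (.inl .rho) (by decide)
  have m_th : P.th ∈ L := hL (.inl .th) (by decide)
  have m_eta : P.eta ∈ L := hL (.inl .eta) (by decide)
  have m_al1' : P'.al1 ∈ L := hL (.inr .al1) (by decide)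
  have m_al2' : P'.al2 ∈ L := hL (.inr .al2) (by decide)
  have m_al3' : P'.al3 ∈ L := hL (.inr .al3) (by decide)
  have m_pi' : P'.pi ∈ L := hL (.inr .pi) (by decide)
  have m_be1' : P'.be1 ∈ L := hL (.inr .be1) (by decide)
  have m_be2' : P'.be2 ∈ L := hL (.inr .be2) (by decide)
  have m_be3' : P'.be3 ∈ L := hL (.inr .be3) (by decide)
  have m_q2' : P'.q2 ∈ L := hL (.inr .q2) (by decide)
  have m_q3' : P'.q3 ∈ L := hL (.inr .q3) (by decide)
  have m_ph' : P'.ph ∈ L := hL (.inr .ph) (by decide)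
  have m_c0' : P'.c0 ∈ L := hL (.inr .c0) (by decide)
  have m_c1' : P'.c1 ∈ L := hL (.inr .c1) (by decide)
  have m_f0' : P'.f0 ∈ L := hL (.inr .f0) (by decide)
  have m_f1' : P'.f1 ∈ L := hL (.inr .f1) (by decide)
  have m_z' : P'.z ∈ L := hL (.inr .z) (by decide)
  have m_al0 : P.al0 ∈ L := by rw [a0]; exact zero_mem L
  have m_al0' : P'.al0 ∈ L := by rw [a0']; exact zero_mem L
  have m_be0 : P.be0 ∈ L := by rw [b0]; exact zero_mem L
  have m_be0' : P'.be0 ∈ L := by rw [b0']; exact zero_mem L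
  have m_zeta : P.zeta ∈ L := by rw [ze]; exact zero_mem L
  have m_zeta' : P'.zeta ∈ L := by rw [ze']; exact zero_mem L
  have m_rho' : P'.rho ∈ L := by rw [rh']; exact zero_mem L
  have m_e0 : P.e0 ∈ L := by rw [e0z]; exact zero_mem L
  have m_g0 : P.g0 ∈ L := by rw [g0z]; exact zero_mem L
  have m_q1 : P.q1 ∈ L := by rw [q1z]; exact zero_mem L
  have m_q1' : P'.q1 ∈ L := by rw [q1z']; exact zero_mem L
  have m_be1 : P.be1 ∈ L := by rw [be1z]; exact zero_mem L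
  have m_g0' : P'.g0 ∈ L := mem_lin nr m_rho
    (zero_mem L)
    (show P.rho * P'.g0 + (0) = 0 by
      linear_combination 1 * r4 + (-1) * P.ph * a0' + (1) * P'.ph * a0 + (1) * P'.rho * g0z)
  have m_e0' : P'.e0 ∈ L := mem_lin nr m_rho
    (zero_mem L)
    (show P.rho * P'.e0 + (0) = 0 by
      linear_combination 1 * r11 + (1) * P'.rho * e0z)
  have m_eta' : P'.eta ∈ L := mem_lin nr m_rho
    (add_mem (neg_mem (mul_mem m_f0 m_z')) (mul_mem m_f0' m_z))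
    (show P.rho * P'.eta + (-(P.f0 * P'.z) + P'.f0 * P.z) = 0 by
      linear_combination (-1) * r20 + (1) * P'.c0 * a0 + (-1) * P.c0 * a0' + (1) * P'.f0 * q1z +
        (-1) * P.f0 * q1z' + (1) * P.eta * rh')
  have m_th' : P'.th ∈ L := mem_lin nr m_rho
    (add_mem (add_mem (mul_mem m_be1' m_f0) (neg_mem (mul_mem m_c0 m_z'))) (mul_mem m_c0' m_z))
    (show P.rho * P'.th + (P'.be1 * P.f0 + -(P.c0 * P'.z) + P'.c0 * P.z) = 0 by
      linear_combination (-1) * r21 + (1) * P'.f0 * be1z + (1) * P'.f1 * b0 + (-1) * P.f1 * b0' +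
        (1) * P.th * rh')
  have m_e1' : P'.e1 ∈ L := mem_lin nf m_f0
    (add_mem (add_mem (add_mem (add_mem (mul_mem m_al1 m_be1') (mul_mem m_e0' m_f1)) (neg_mem
      (mul_mem m_e1 m_f0'))) (mul_mem m_eta m_ph')) (neg_mem (mul_mem m_eta' m_ph)))
    (show P.f0 * P'.e1 + (P.al1 * P'.be1 + P'.e0 * P.f1 + -(P.e1 * P'.f0) + P.eta * P'.ph +
      -(P'.eta * P.ph)) = 0 by
      linear_combination 1 * r16 + (-1) * P.al2 * b0' + (1) * P'.al2 * b0 + (1) * P'.al1 * be1z +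
        (-1) * P'.be2 * a0 + (1) * P.be2 * a0' + (1) * P'.f1 * e0z)
  have m_q2 : P.q2 ∈ L := mem_lin nbe m_be1'
    (add_mem (add_mem (add_mem (add_mem (neg_mem (mul_mem m_c1 m_e0')) (neg_mem (mul_mem m_c0
      m_e1'))) (mul_mem m_c0' m_e1)) (neg_mem (mul_mem m_ph' m_th))) (mul_mem m_ph m_th'))
    (show P'.be1 * P.q2 + (-(P.c1 * P'.e0) + -(P.c0 * P'.e1) + P'.c0 * P.e1 + -(P'.ph * P.th) +
      P.ph * P'.th) = 0 by
      linear_combination (-1) * r17 + (1) * P.be2 * q1z' + (-1) * P'.be2 * q1z + (1) * P'.q2 * be1z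
        + (1) * P'.q3 * b0 + (-1) * P.q3 * b0' + (-1) * P'.c1 * e0z)
  have m_g1' : P'.g1 ∈ L := mem_lin nf m_f0
    (add_mem (add_mem (add_mem (add_mem (add_mem (mul_mem m_al1' m_q2) (neg_mem (mul_mem m_al1
      m_q2'))) (mul_mem m_f1 m_g0')) (neg_mem (mul_mem m_f0' m_g1))) (mul_mem m_eta m_pi'))
        (neg_mem (mul_mem m_eta' m_pi)))
    (show P.f0 * P'.g1 + (P'.al1 * P.q2 + -(P.al1 * P'.q2) + P.f1 * P'.g0 + -(P'.f0 * P.g1) + P.eta
      * P'.pi + -(P'.eta * P.pi)) = 0 by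
      linear_combination 1 * r9 + (-1) * P.q3 * a0' + (1) * P'.q3 * a0 + (-1) * P'.al2 * q1z + (1)
        * P.al2 * q1z' + (1) * P'.f1 * g0z)
  exact mem_all P P' ⟨m_al0, m_al1, m_al2, m_al3, m_g0, m_g1, m_pi, m_be0, m_be1, m_be2, m_be3,
    m_q1, m_q2, m_q3, m_e0, m_e1, m_ph, m_c0, m_c1, m_f0, m_f1, m_z, m_rho, m_th, m_eta, m_zeta⟩
    ⟨m_al0', m_al1', m_al2', m_al3', m_g0', m_g1', m_pi', m_be0', m_be1', m_be2', m_be3', m_q1',
      m_q2', m_q3', m_e0', m_e1', m_ph', m_c0', m_c1', m_f0', m_f1', m_z', m_rho', m_th', m_eta',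
        m_zeta'⟩

theorem i_a3fe {P P' : Par K} (h : Rel P P')
    (a0 : P.al0 = 0) (a0' : P'.al0 = 0) (b0 : P.be0 = 0) (b0' : P'.be0 = 0) (ze : P.zeta = 0)
    (ze' : P'.zeta = 0) (rh' : P'.rho = 0) (e0z : P.e0 = 0) (g0z : P.g0 = 0) (q1z : P.q1 = 0)
    (q1z' : P'.q1 = 0) (be1z : P.be1 = 0) (be1z' : P'.be1 = 0)
    (nr : P.rho ≠ 0) (nf : P.f0 ≠ 0) :
    rk k (Set.range (vals P P')) + 18 ≤ 52 := by
  obtain ⟨r1, r2, r3, r4, r5, r6, r7, r8, r9, r10, r11, r12, r13, r14, r15, r16, r17, r18, r19,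
    r20, r21, r22, r23⟩ := h
  simp only [Br] at *
  refine rk_det P P' {.inl .al0, .inr .al0, .inl .be0, .inr .be0, .inl .zeta, .inr .zeta, .inr
    .rho, .inl .e0, .inl .g0, .inl .q1, .inr .q1, .inl .be1, .inr .be1, .inr .g0, .inr .e0, .inr
      .eta, .inr .th, .inr .e1, .inr .g1} (by decide) fun L hL => ?_
  have m_al1 : P.al1 ∈ L := hL (.inl .al1) (by decide)
  have m_al2 : P.al2 ∈ L := hL (.inl .al2) (by decide)
  have m_al3 : P.al3 ∈ L := hL (.inl .al3) (by decide)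
  have m_g1 : P.g1 ∈ L := hL (.inl .g1) (by decide)
  have m_pi : P.pi ∈ L := hL (.inl .pi) (by decide)
  have m_be2 : P.be2 ∈ L := hL (.inl .be2) (by decide)
  have m_be3 : P.be3 ∈ L := hL (.inl .be3) (by decide)
  have m_q2 : P.q2 ∈ L := hL (.inl .q2) (by decide)
  have m_q3 : P.q3 ∈ L := hL (.inl .q3) (by decide)
  have m_e1 : P.e1 ∈ L := hL (.inl .e1) (by decide)
  have m_ph : P.ph ∈ L := hL (.inl .ph) (by decide)
  have m_c0 : P.c0 ∈ L := hL (.inl .c0) (by decide)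
  have m_c1 : P.c1 ∈ L := hL (.inl .c1) (by decide)
  have m_f0 : P.f0 ∈ L := hL (.inl .f0) (by decide)
  have m_f1 : P.f1 ∈ L := hL (.inl .f1) (by decide)
  have m_z : P.z ∈ L := hL (.inl .z) (by decide)
  have m_rho : P.rho ∈ L := hL (.inl .rho) (by decide)
  have m_th : P.th ∈ L := hL (.inl .th) (by decide)
  have m_eta : P.eta ∈ L := hL (.inl .eta) (by decide)
  have m_al1' : P'.al1 ∈ L := hL (.inr .al1) (by decide)
  have m_al2' : P'.al2 ∈ L := hL (.inr .al2) (by decide)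
  have m_al3' : P'.al3 ∈ L := hL (.inr .al3) (by decide)
  have m_pi' : P'.pi ∈ L := hL (.inr .pi) (by decide)
  have m_be2' : P'.be2 ∈ L := hL (.inr .be2) (by decide)
  have m_be3' : P'.be3 ∈ L := hL (.inr .be3) (by decide)
  have m_q2' : P'.q2 ∈ L := hL (.inr .q2) (by decide)
  have m_q3' : P'.q3 ∈ L := hL (.inr .q3) (by decide)
  have m_ph' : P'.ph ∈ L := hL (.inr .ph) (by decide)
  have m_c0' : P'.c0 ∈ L := hL (.inr .c0) (by decide)
  have m_c1' : P'.c1 ∈ L := hL (.inr .c1) (by decide)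
  have m_f0' : P'.f0 ∈ L := hL (.inr .f0) (by decide)
  have m_f1' : P'.f1 ∈ L := hL (.inr .f1) (by decide)
  have m_z' : P'.z ∈ L := hL (.inr .z) (by decide)
  have m_al0 : P.al0 ∈ L := by rw [a0]; exact zero_mem L
  have m_al0' : P'.al0 ∈ L := by rw [a0']; exact zero_mem L
  have m_be0 : P.be0 ∈ L := by rw [b0]; exact zero_mem L
  have m_be0' : P'.be0 ∈ L := by rw [b0']; exact zero_mem L
  have m_zeta : P.zeta ∈ L := by rw [ze]; exact zero_mem L
  have m_zeta' : P'.zeta ∈ L := by rw [ze']; exact zero_mem L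
  have m_rho' : P'.rho ∈ L := by rw [rh']; exact zero_mem L
  have m_e0 : P.e0 ∈ L := by rw [e0z]; exact zero_mem L
  have m_g0 : P.g0 ∈ L := by rw [g0z]; exact zero_mem L
  have m_q1 : P.q1 ∈ L := by rw [q1z]; exact zero_mem L
  have m_q1' : P'.q1 ∈ L := by rw [q1z']; exact zero_mem L
  have m_be1 : P.be1 ∈ L := by rw [be1z]; exact zero_mem L
  have m_be1' : P'.be1 ∈ L := by rw [be1z']; exact zero_mem L
  have m_g0' : P'.g0 ∈ L := mem_lin nr m_rho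
    (zero_mem L)
    (show P.rho * P'.g0 + (0) = 0 by
      linear_combination 1 * r4 + (-1) * P.ph * a0' + (1) * P'.ph * a0 + (1) * P'.rho * g0z)
  have m_e0' : P'.e0 ∈ L := mem_lin nr m_rho
    (zero_mem L)
    (show P.rho * P'.e0 + (0) = 0 by
      linear_combination 1 * r11 + (1) * P'.rho * e0z)
  have m_eta' : P'.eta ∈ L := mem_lin nr m_rho
    (add_mem (neg_mem (mul_mem m_f0 m_z')) (mul_mem m_f0' m_z))
    (show P.rho * P'.eta + (-(P.f0 * P'.z) + P'.f0 * P.z) = 0 by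
      linear_combination (-1) * r20 + (1) * P'.c0 * a0 + (-1) * P.c0 * a0' + (1) * P'.f0 * q1z +
        (-1) * P.f0 * q1z' + (1) * P.eta * rh')
  have m_th' : P'.th ∈ L := mem_lin nr m_rho
    (add_mem (neg_mem (mul_mem m_c0 m_z')) (mul_mem m_c0' m_z))
    (show P.rho * P'.th + (-(P.c0 * P'.z) + P'.c0 * P.z) = 0 by
      linear_combination (-1) * r21 + (1) * P'.f0 * be1z + (-1) * P.f0 * be1z' + (1) * P'.f1 * b0 +
        (-1) * P.f1 * b0' + (1) * P.th * rh')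
  have m_e1' : P'.e1 ∈ L := mem_lin nf m_f0
    (add_mem (add_mem (add_mem (mul_mem m_e0' m_f1) (neg_mem (mul_mem m_e1 m_f0'))) (mul_mem m_eta
      m_ph')) (neg_mem (mul_mem m_eta' m_ph)))
    (show P.f0 * P'.e1 + (P'.e0 * P.f1 + -(P.e1 * P'.f0) + P.eta * P'.ph + -(P'.eta * P.ph)) = 0 by
      linear_combination 1 * r16 + (-1) * P.al2 * b0' + (1) * P'.al2 * b0 + (-1) * P.al1 * be1z' +
        (1) * P'.al1 * be1z + (-1) * P'.be2 * a0 + (1) * P.be2 * a0' + (1) * P'.f1 * e0z)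
  have m_g1' : P'.g1 ∈ L := mem_lin nf m_f0
    (add_mem (add_mem (add_mem (add_mem (add_mem (mul_mem m_al1' m_q2) (neg_mem (mul_mem m_al1
      m_q2'))) (mul_mem m_f1 m_g0')) (neg_mem (mul_mem m_f0' m_g1))) (mul_mem m_eta m_pi'))
        (neg_mem (mul_mem m_eta' m_pi)))
    (show P.f0 * P'.g1 + (P'.al1 * P.q2 + -(P.al1 * P'.q2) + P.f1 * P'.g0 + -(P'.f0 * P.g1) + P.eta
      * P'.pi + -(P'.eta * P.pi)) = 0 by
      linear_combination 1 * r9 + (-1) * P.q3 * a0' + (1) * P'.q3 * a0 + (-1) * P'.al2 * q1z + (1)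
        * P.al2 * q1z' + (1) * P'.f1 * g0z)
  exact mem_all P P' ⟨m_al0, m_al1, m_al2, m_al3, m_g0, m_g1, m_pi, m_be0, m_be1, m_be2, m_be3,
    m_q1, m_q2, m_q3, m_e0, m_e1, m_ph, m_c0, m_c1, m_f0, m_f1, m_z, m_rho, m_th, m_eta, m_zeta⟩
    ⟨m_al0', m_al1', m_al2', m_al3', m_g0', m_g1', m_pi', m_be0', m_be1', m_be2', m_be3', m_q1',
      m_q2', m_q3', m_e0', m_e1', m_ph', m_c0', m_c1', m_f0', m_f1', m_z', m_rho', m_th', m_eta',
        m_zeta'⟩

theorem i_a3ga {P P' : Par K} (h : Rel P P')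
    (a0 : P.al0 = 0) (a0' : P'.al0 = 0) (b0 : P.be0 = 0) (b0' : P'.be0 = 0) (ze : P.zeta = 0)
    (ze' : P'.zeta = 0) (rh' : P'.rho = 0) (e0z : P.e0 = 0) (g0z : P.g0 = 0)
    (nr : P.rho ≠ 0) (nf : P'.f0 ≠ 0) (nq : P.q1 ≠ 0) :
    rk k (Set.range (vals P P')) + 18 ≤ 52 := by
  obtain ⟨r1, r2, r3, r4, r5, r6, r7, r8, r9, r10, r11, r12, r13, r14, r15, r16, r17, r18, r19,
    r20, r21, r22, r23⟩ := h
  simp only [Br] at *
  refine rk_det P P' {.inl .al0, .inr .al0, .inl .be0, .inr .be0, .inl .zeta, .inr .zeta, .inr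
    .rho, .inl .e0, .inl .g0, .inr .g0, .inr .e0, .inr .al1, .inr .be1, .inr .eta, .inr .th, .inl
      .e1, .inr .be2, .inl .g1} (by decide) fun L hL => ?_
  have m_al1 : P.al1 ∈ L := hL (.inl .al1) (by decide)
  have m_al2 : P.al2 ∈ L := hL (.inl .al2) (by decide)
  have m_al3 : P.al3 ∈ L := hL (.inl .al3) (by decide)
  have m_pi : P.pi ∈ L := hL (.inl .pi) (by decide)
  have m_be1 : P.be1 ∈ L := hL (.inl .be1) (by decide)
  have m_be2 : P.be2 ∈ L := hL (.inl .be2) (by decide)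
  have m_be3 : P.be3 ∈ L := hL (.inl .be3) (by decide)
  have m_q1 : P.q1 ∈ L := hL (.inl .q1) (by decide)
  have m_q2 : P.q2 ∈ L := hL (.inl .q2) (by decide)
  have m_q3 : P.q3 ∈ L := hL (.inl .q3) (by decide)
  have m_ph : P.ph ∈ L := hL (.inl .ph) (by decide)
  have m_c0 : P.c0 ∈ L := hL (.inl .c0) (by decide)
  have m_c1 : P.c1 ∈ L := hL (.inl .c1) (by decide)
  have m_f0 : P.f0 ∈ L := hL (.inl .f0) (by decide)
  have m_f1 : P.f1 ∈ L := hL (.inl .f1) (by decide)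
  have m_z : P.z ∈ L := hL (.inl .z) (by decide)
  have m_rho : P.rho ∈ L := hL (.inl .rho) (by decide)
  have m_th : P.th ∈ L := hL (.inl .th) (by decide)
  have m_eta : P.eta ∈ L := hL (.inl .eta) (by decide)
  have m_al2' : P'.al2 ∈ L := hL (.inr .al2) (by decide)
  have m_al3' : P'.al3 ∈ L := hL (.inr .al3) (by decide)
  have m_g1' : P'.g1 ∈ L := hL (.inr .g1) (by decide)
  have m_pi' : P'.pi ∈ L := hL (.inr .pi) (by decide)
  have m_be3' : P'.be3 ∈ L := hL (.inr .be3) (by decide)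
  have m_q1' : P'.q1 ∈ L := hL (.inr .q1) (by decide)
  have m_q2' : P'.q2 ∈ L := hL (.inr .q2) (by decide)
  have m_q3' : P'.q3 ∈ L := hL (.inr .q3) (by decide)
  have m_e1' : P'.e1 ∈ L := hL (.inr .e1) (by decide)
  have m_ph' : P'.ph ∈ L := hL (.inr .ph) (by decide)
  have m_c0' : P'.c0 ∈ L := hL (.inr .c0) (by decide)
  have m_c1' : P'.c1 ∈ L := hL (.inr .c1) (by decide)
  have m_f0' : P'.f0 ∈ L := hL (.inr .f0) (by decide)
  have m_f1' : P'.f1 ∈ L := hL (.inr .f1) (by decide)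
  have m_z' : P'.z ∈ L := hL (.inr .z) (by decide)
  have m_al0 : P.al0 ∈ L := by rw [a0]; exact zero_mem L
  have m_al0' : P'.al0 ∈ L := by rw [a0']; exact zero_mem L
  have m_be0 : P.be0 ∈ L := by rw [b0]; exact zero_mem L
  have m_be0' : P'.be0 ∈ L := by rw [b0']; exact zero_mem L
  have m_zeta : P.zeta ∈ L := by rw [ze]; exact zero_mem L
  have m_zeta' : P'.zeta ∈ L := by rw [ze']; exact zero_mem L
  have m_rho' : P'.rho ∈ L := by rw [rh']; exact zero_mem L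
  have m_e0 : P.e0 ∈ L := by rw [e0z]; exact zero_mem L
  have m_g0 : P.g0 ∈ L := by rw [g0z]; exact zero_mem L
  have m_g0' : P'.g0 ∈ L := mem_lin nr m_rho
    (zero_mem L)
    (show P.rho * P'.g0 + (0) = 0 by
      linear_combination 1 * r4 + (-1) * P.ph * a0' + (1) * P'.ph * a0 + (1) * P'.rho * g0z)
  have m_e0' : P'.e0 ∈ L := mem_lin nr m_rho
    (zero_mem L)
    (show P.rho * P'.e0 + (0) = 0 by
      linear_combination 1 * r11 + (1) * P'.rho * e0z)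
  have m_al1' : P'.al1 ∈ L := mem_lin nq m_q1
    (add_mem (neg_mem (mul_mem m_al1 m_q1')) (mul_mem m_f0 m_g0'))
    (show P.q1 * P'.al1 + (-(P.al1 * P'.q1) + P.f0 * P'.g0) = 0 by
      linear_combination 1 * r7 + (-1) * P.q2 * a0' + (1) * P'.q2 * a0 + (1) * P'.f0 * g0z)
  have m_be1' : P'.be1 ∈ L := mem_lin nq m_q1
    (add_mem (neg_mem (mul_mem m_be1 m_q1')) (neg_mem (mul_mem m_c0 m_e0')))
    (show P.q1 * P'.be1 + (-(P.be1 * P'.q1) + -(P.c0 * P'.e0)) = 0 by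
      linear_combination (-1) * r15 + (1) * P'.q2 * b0 + (-1) * P.q2 * b0' + (-1) * P'.c0 * e0z)
  have m_eta' : P'.eta ∈ L := mem_lin nr m_rho
    (add_mem (add_mem (add_mem (neg_mem (mul_mem m_f0' m_q1)) (mul_mem m_f0 m_q1')) (neg_mem
      (mul_mem m_f0 m_z'))) (mul_mem m_f0' m_z))
    (show P.rho * P'.eta + (-(P'.f0 * P.q1) + P.f0 * P'.q1 + -(P.f0 * P'.z) + P'.f0 * P.z) = 0 by
      linear_combination (-1) * r20 + (1) * P'.c0 * a0 + (-1) * P.c0 * a0' + (1) * P.eta * rh')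
  have m_th' : P'.th ∈ L := mem_lin nr m_rho
    (add_mem (add_mem (add_mem (neg_mem (mul_mem m_be1 m_f0')) (mul_mem m_be1' m_f0)) (neg_mem
      (mul_mem m_c0 m_z'))) (mul_mem m_c0' m_z))
    (show P.rho * P'.th + (-(P.be1 * P'.f0) + P'.be1 * P.f0 + -(P.c0 * P'.z) + P'.c0 * P.z) = 0 by
      linear_combination (-1) * r21 + (1) * P'.f1 * b0 + (-1) * P.f1 * b0' + (1) * P.th * rh')
  have m_e1 : P.e1 ∈ L := mem_lin nf m_f0'
    (add_mem (add_mem (add_mem (add_mem (add_mem (neg_mem (mul_mem m_al1 m_be1')) (mul_mem m_al1'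
      m_be1)) (neg_mem (mul_mem m_e0' m_f1))) (neg_mem (mul_mem m_e1' m_f0))) (neg_mem (mul_mem
        m_eta m_ph'))) (mul_mem m_eta' m_ph))
    (show P'.f0 * P.e1 + (-(P.al1 * P'.be1) + P'.al1 * P.be1 + -(P'.e0 * P.f1) + -(P'.e1 * P.f0) +
      -(P.eta * P'.ph) + P'.eta * P.ph) = 0 by
      linear_combination (-1) * r16 + (1) * P.al2 * b0' + (-1) * P'.al2 * b0 + (1) * P'.be2 * a0 +
        (-1) * P.be2 * a0' + (-1) * P'.f1 * e0z)
  have m_be2' : P'.be2 ∈ L := mem_lin nq m_q1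
    (add_mem (add_mem (add_mem (add_mem (add_mem (add_mem (add_mem (neg_mem (mul_mem m_be2 m_q1'))
      (neg_mem (mul_mem m_be1 m_q2'))) (mul_mem m_be1' m_q2)) (neg_mem (mul_mem m_c1 m_e0')))
        (neg_mem (mul_mem m_c0 m_e1'))) (mul_mem m_c0' m_e1)) (neg_mem (mul_mem m_ph' m_th)))
          (mul_mem m_ph m_th'))
    (show P.q1 * P'.be2 + (-(P.be2 * P'.q1) + -(P.be1 * P'.q2) + P'.be1 * P.q2 + -(P.c1 * P'.e0) +
      -(P.c0 * P'.e1) + P'.c0 * P.e1 + -(P'.ph * P.th) + P.ph * P'.th) = 0 by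
      linear_combination (-1) * r17 + (1) * P'.q3 * b0 + (-1) * P.q3 * b0' + (-1) * P'.c1 * e0z)
  have m_g1 : P.g1 ∈ L := mem_lin nf m_f0'
    (add_mem (add_mem (add_mem (add_mem (add_mem (add_mem (add_mem (neg_mem (mul_mem m_al1' m_q2))
      (mul_mem m_al1 m_q2')) (neg_mem (mul_mem m_al2' m_q1))) (mul_mem m_al2 m_q1')) (neg_mem
        (mul_mem m_f1 m_g0'))) (neg_mem (mul_mem m_f0 m_g1'))) (neg_mem (mul_mem m_eta m_pi')))
          (mul_mem m_eta' m_pi))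
    (show P'.f0 * P.g1 + (-(P'.al1 * P.q2) + P.al1 * P'.q2 + -(P'.al2 * P.q1) + P.al2 * P'.q1 +
      -(P.f1 * P'.g0) + -(P.f0 * P'.g1) + -(P.eta * P'.pi) + P'.eta * P.pi) = 0 by
      linear_combination (-1) * r9 + (1) * P.q3 * a0' + (-1) * P'.q3 * a0 + (-1) * P'.f1 * g0z)
  exact mem_all P P' ⟨m_al0, m_al1, m_al2, m_al3, m_g0, m_g1, m_pi, m_be0, m_be1, m_be2, m_be3,
    m_q1, m_q2, m_q3, m_e0, m_e1, m_ph, m_c0, m_c1, m_f0, m_f1, m_z, m_rho, m_th, m_eta, m_zeta⟩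
    ⟨m_al0', m_al1', m_al2', m_al3', m_g0', m_g1', m_pi', m_be0', m_be1', m_be2', m_be3', m_q1',
      m_q2', m_q3', m_e0', m_e1', m_ph', m_c0', m_c1', m_f0', m_f1', m_z', m_rho', m_th', m_eta',
        m_zeta'⟩

theorem i_a3gb {P P' : Par K} (h : Rel P P')
    (a0 : P.al0 = 0) (a0' : P'.al0 = 0) (b0 : P.be0 = 0) (b0' : P'.be0 = 0) (ze : P.zeta = 0)
    (ze' : P'.zeta = 0) (rh' : P'.rho = 0) (e0z : P.e0 = 0) (g0z : P.g0 = 0) (q1z : P.q1 = 0)
    (nr : P.rho ≠ 0) (nf : P'.f0 ≠ 0) (nq : P'.q1 ≠ 0) :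
    rk k (Set.range (vals P P')) + 18 ≤ 52 := by
  obtain ⟨r1, r2, r3, r4, r5, r6, r7, r8, r9, r10, r11, r12, r13, r14, r15, r16, r17, r18, r19,
    r20, r21, r22, r23⟩ := h
  simp only [Br] at *
  refine rk_det P P' {.inl .al0, .inr .al0, .inl .be0, .inr .be0, .inl .zeta, .inr .zeta, .inr
    .rho, .inl .e0, .inl .g0, .inl .q1, .inr .g0, .inr .e0, .inl .al1, .inl .be1, .inr .eta, .inr
      .th, .inl .e1, .inl .be2, .inl .g1} (by decide) fun L hL => ?_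
  have m_al2 : P.al2 ∈ L := hL (.inl .al2) (by decide)
  have m_al3 : P.al3 ∈ L := hL (.inl .al3) (by decide)
  have m_pi : P.pi ∈ L := hL (.inl .pi) (by decide)
  have m_be3 : P.be3 ∈ L := hL (.inl .be3) (by decide)
  have m_q2 : P.q2 ∈ L := hL (.inl .q2) (by decide)
  have m_q3 : P.q3 ∈ L := hL (.inl .q3) (by decide)
  have m_ph : P.ph ∈ L := hL (.inl .ph) (by decide)
  have m_c0 : P.c0 ∈ L := hL (.inl .c0) (by decide)
  have m_c1 : P.c1 ∈ L := hL (.inl .c1) (by decide)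
  have m_f0 : P.f0 ∈ L := hL (.inl .f0) (by decide)
  have m_f1 : P.f1 ∈ L := hL (.inl .f1) (by decide)
  have m_z : P.z ∈ L := hL (.inl .z) (by decide)
  have m_rho : P.rho ∈ L := hL (.inl .rho) (by decide)
  have m_th : P.th ∈ L := hL (.inl .th) (by decide)
  have m_eta : P.eta ∈ L := hL (.inl .eta) (by decide)
  have m_al1' : P'.al1 ∈ L := hL (.inr .al1) (by decide)
  have m_al2' : P'.al2 ∈ L := hL (.inr .al2) (by decide)
  have m_al3' : P'.al3 ∈ L := hL (.inr .al3) (by decide)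
  have m_g1' : P'.g1 ∈ L := hL (.inr .g1) (by decide)
  have m_pi' : P'.pi ∈ L := hL (.inr .pi) (by decide)
  have m_be1' : P'.be1 ∈ L := hL (.inr .be1) (by decide)
  have m_be2' : P'.be2 ∈ L := hL (.inr .be2) (by decide)
  have m_be3' : P'.be3 ∈ L := hL (.inr .be3) (by decide)
  have m_q1' : P'.q1 ∈ L := hL (.inr .q1) (by decide)
  have m_q2' : P'.q2 ∈ L := hL (.inr .q2) (by decide)
  have m_q3' : P'.q3 ∈ L := hL (.inr .q3) (by decide)
  have m_e1' : P'.e1 ∈ L := hL (.inr .e1) (by decide)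
  have m_ph' : P'.ph ∈ L := hL (.inr .ph) (by decide)
  have m_c0' : P'.c0 ∈ L := hL (.inr .c0) (by decide)
  have m_c1' : P'.c1 ∈ L := hL (.inr .c1) (by decide)
  have m_f0' : P'.f0 ∈ L := hL (.inr .f0) (by decide)
  have m_f1' : P'.f1 ∈ L := hL (.inr .f1) (by decide)
  have m_z' : P'.z ∈ L := hL (.inr .z) (by decide)
  have m_al0 : P.al0 ∈ L := by rw [a0]; exact zero_mem L
  have m_al0' : P'.al0 ∈ L := by rw [a0']; exact zero_mem L
  have m_be0 : P.be0 ∈ L := by rw [b0]; exact zero_mem L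
  have m_be0' : P'.be0 ∈ L := by rw [b0']; exact zero_mem L
  have m_zeta : P.zeta ∈ L := by rw [ze]; exact zero_mem L
  have m_zeta' : P'.zeta ∈ L := by rw [ze']; exact zero_mem L
  have m_rho' : P'.rho ∈ L := by rw [rh']; exact zero_mem L
  have m_e0 : P.e0 ∈ L := by rw [e0z]; exact zero_mem L
  have m_g0 : P.g0 ∈ L := by rw [g0z]; exact zero_mem L
  have m_q1 : P.q1 ∈ L := by rw [q1z]; exact zero_mem L
  have m_g0' : P'.g0 ∈ L := mem_lin nr m_rho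
    (zero_mem L)
    (show P.rho * P'.g0 + (0) = 0 by
      linear_combination 1 * r4 + (-1) * P.ph * a0' + (1) * P'.ph * a0 + (1) * P'.rho * g0z)
  have m_e0' : P'.e0 ∈ L := mem_lin nr m_rho
    (zero_mem L)
    (show P.rho * P'.e0 + (0) = 0 by
      linear_combination 1 * r11 + (1) * P'.rho * e0z)
  have m_al1 : P.al1 ∈ L := mem_lin nq m_q1'
    (neg_mem (mul_mem m_f0 m_g0'))
    (show P'.q1 * P.al1 + (-(P.f0 * P'.g0)) = 0 by
      linear_combination (-1) * r7 + (1) * P.q2 * a0' + (-1) * P'.q2 * a0 + (1) * P'.al1 * q1z +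
        (-1) * P'.f0 * g0z)
  have m_be1 : P.be1 ∈ L := mem_lin nq m_q1'
    (mul_mem m_c0 m_e0')
    (show P'.q1 * P.be1 + (P.c0 * P'.e0) = 0 by
      linear_combination 1 * r15 + (1) * P'.be1 * q1z + (-1) * P'.q2 * b0 + (1) * P.q2 * b0' + (1)
        * P'.c0 * e0z)
  have m_eta' : P'.eta ∈ L := mem_lin nr m_rho
    (add_mem (add_mem (mul_mem m_f0 m_q1') (neg_mem (mul_mem m_f0 m_z'))) (mul_mem m_f0' m_z))
    (show P.rho * P'.eta + (P.f0 * P'.q1 + -(P.f0 * P'.z) + P'.f0 * P.z) = 0 by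
      linear_combination (-1) * r20 + (1) * P'.c0 * a0 + (-1) * P.c0 * a0' + (1) * P'.f0 * q1z +
        (1) * P.eta * rh')
  have m_th' : P'.th ∈ L := mem_lin nr m_rho
    (add_mem (add_mem (add_mem (neg_mem (mul_mem m_be1 m_f0')) (mul_mem m_be1' m_f0)) (neg_mem
      (mul_mem m_c0 m_z'))) (mul_mem m_c0' m_z))
    (show P.rho * P'.th + (-(P.be1 * P'.f0) + P'.be1 * P.f0 + -(P.c0 * P'.z) + P'.c0 * P.z) = 0 by
      linear_combination (-1) * r21 + (1) * P'.f1 * b0 + (-1) * P.f1 * b0' + (1) * P.th * rh')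
  have m_e1 : P.e1 ∈ L := mem_lin nf m_f0'
    (add_mem (add_mem (add_mem (add_mem (add_mem (neg_mem (mul_mem m_al1 m_be1')) (mul_mem m_al1'
      m_be1)) (neg_mem (mul_mem m_e0' m_f1))) (neg_mem (mul_mem m_e1' m_f0))) (neg_mem (mul_mem
        m_eta m_ph'))) (mul_mem m_eta' m_ph))
    (show P'.f0 * P.e1 + (-(P.al1 * P'.be1) + P'.al1 * P.be1 + -(P'.e0 * P.f1) + -(P'.e1 * P.f0) +
      -(P.eta * P'.ph) + P'.eta * P.ph) = 0 by
      linear_combination (-1) * r16 + (1) * P.al2 * b0' + (-1) * P'.al2 * b0 + (1) * P'.be2 * a0 +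
        (-1) * P.be2 * a0' + (-1) * P'.f1 * e0z)
  have m_be2 : P.be2 ∈ L := mem_lin nq m_q1'
    (add_mem (add_mem (add_mem (add_mem (add_mem (add_mem (mul_mem m_be1 m_q2') (neg_mem (mul_mem
      m_be1' m_q2))) (mul_mem m_c1 m_e0')) (mul_mem m_c0 m_e1')) (neg_mem (mul_mem m_c0' m_e1)))
        (mul_mem m_ph' m_th)) (neg_mem (mul_mem m_ph m_th')))
    (show P'.q1 * P.be2 + (P.be1 * P'.q2 + -(P'.be1 * P.q2) + P.c1 * P'.e0 + P.c0 * P'.e1 + -(P'.c0
      * P.e1) + P'.ph * P.th + -(P.ph * P'.th)) = 0 by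
      linear_combination 1 * r17 + (1) * P'.be2 * q1z + (-1) * P'.q3 * b0 + (1) * P.q3 * b0' + (1)
        * P'.c1 * e0z)
  have m_g1 : P.g1 ∈ L := mem_lin nf m_f0'
    (add_mem (add_mem (add_mem (add_mem (add_mem (add_mem (neg_mem (mul_mem m_al1' m_q2)) (mul_mem
      m_al1 m_q2')) (mul_mem m_al2 m_q1')) (neg_mem (mul_mem m_f1 m_g0'))) (neg_mem (mul_mem m_f0
        m_g1'))) (neg_mem (mul_mem m_eta m_pi'))) (mul_mem m_eta' m_pi))
    (show P'.f0 * P.g1 + (-(P'.al1 * P.q2) + P.al1 * P'.q2 + P.al2 * P'.q1 + -(P.f1 * P'.g0) +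
      -(P.f0 * P'.g1) + -(P.eta * P'.pi) + P'.eta * P.pi) = 0 by
      linear_combination (-1) * r9 + (1) * P.q3 * a0' + (-1) * P'.q3 * a0 + (1) * P'.al2 * q1z +
        (-1) * P'.f1 * g0z)
  exact mem_all P P' ⟨m_al0, m_al1, m_al2, m_al3, m_g0, m_g1, m_pi, m_be0, m_be1, m_be2, m_be3,
    m_q1, m_q2, m_q3, m_e0, m_e1, m_ph, m_c0, m_c1, m_f0, m_f1, m_z, m_rho, m_th, m_eta, m_zeta⟩
    ⟨m_al0', m_al1', m_al2', m_al3', m_g0', m_g1', m_pi', m_be0', m_be1', m_be2', m_be3', m_q1',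
      m_q2', m_q3', m_e0', m_e1', m_ph', m_c0', m_c1', m_f0', m_f1', m_z', m_rho', m_th', m_eta',
        m_zeta'⟩

theorem i_a3gc {P P' : Par K} (h : Rel P P')
    (a0 : P.al0 = 0) (a0' : P'.al0 = 0) (b0 : P.be0 = 0) (b0' : P'.be0 = 0) (ze : P.zeta = 0)
    (ze' : P'.zeta = 0) (rh' : P'.rho = 0) (e0z : P.e0 = 0) (g0z : P.g0 = 0) (q1z : P.q1 = 0)
    (q1z' : P'.q1 = 0)
    (nr : P.rho ≠ 0) (nf : P'.f0 ≠ 0) (nbe : P.be1 ≠ 0) :
    rk k (Set.range (vals P P')) + 18 ≤ 52 := by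
  obtain ⟨r1, r2, r3, r4, r5, r6, r7, r8, r9, r10, r11, r12, r13, r14, r15, r16, r17, r18, r19,
    r20, r21, r22, r23⟩ := h
  simp only [Br] at *
  refine rk_det P P' {.inl .al0, .inr .al0, .inl .be0, .inr .be0, .inl .zeta, .inr .zeta, .inr
    .rho, .inl .e0, .inl .g0, .inl .q1, .inr .q1, .inr .g0, .inr .e0, .inr .eta, .inr .th, .inl
      .e1, .inr .q2, .inl .g1} (by decide) fun L hL => ?_
  have m_al1 : P.al1 ∈ L := hL (.inl .al1) (by decide)
  have m_al2 : P.al2 ∈ L := hL (.inl .al2) (by decide)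
  have m_al3 : P.al3 ∈ L := hL (.inl .al3) (by decide)
  have m_pi : P.pi ∈ L := hL (.inl .pi) (by decide)
  have m_be1 : P.be1 ∈ L := hL (.inl .be1) (by decide)
  have m_be2 : P.be2 ∈ L := hL (.inl .be2) (by decide)
  have m_be3 : P.be3 ∈ L := hL (.inl .be3) (by decide)
  have m_q2 : P.q2 ∈ L := hL (.inl .q2) (by decide)
  have m_q3 : P.q3 ∈ L := hL (.inl .q3) (by decide)
  have m_ph : P.ph ∈ L := hL (.inl .ph) (by decide)
  have m_c0 : P.c0 ∈ L := hL (.inl .c0) (by decide)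
  have m_c1 : P.c1 ∈ L := hL (.inl .c1) (by decide)
  have m_f0 : P.f0 ∈ L := hL (.inl .f0) (by decide)
  have m_f1 : P.f1 ∈ L := hL (.inl .f1) (by decide)
  have m_z : P.z ∈ L := hL (.inl .z) (by decide)
  have m_rho : P.rho ∈ L := hL (.inl .rho) (by decide)
  have m_th : P.th ∈ L := hL (.inl .th) (by decide)
  have m_eta : P.eta ∈ L := hL (.inl .eta) (by decide)
  have m_al1' : P'.al1 ∈ L := hL (.inr .al1) (by decide)
  have m_al2' : P'.al2 ∈ L := hL (.inr .al2) (by decide)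
  have m_al3' : P'.al3 ∈ L := hL (.inr .al3) (by decide)
  have m_g1' : P'.g1 ∈ L := hL (.inr .g1) (by decide)
  have m_pi' : P'.pi ∈ L := hL (.inr .pi) (by decide)
  have m_be1' : P'.be1 ∈ L := hL (.inr .be1) (by decide)
  have m_be2' : P'.be2 ∈ L := hL (.inr .be2) (by decide)
  have m_be3' : P'.be3 ∈ L := hL (.inr .be3) (by decide)
  have m_q3' : P'.q3 ∈ L := hL (.inr .q3) (by decide)
  have m_e1' : P'.e1 ∈ L := hL (.inr .e1) (by decide)
  have m_ph' : P'.ph ∈ L := hL (.inr .ph) (by decide)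
  have m_c0' : P'.c0 ∈ L := hL (.inr .c0) (by decide)
  have m_c1' : P'.c1 ∈ L := hL (.inr .c1) (by decide)
  have m_f0' : P'.f0 ∈ L := hL (.inr .f0) (by decide)
  have m_f1' : P'.f1 ∈ L := hL (.inr .f1) (by decide)
  have m_z' : P'.z ∈ L := hL (.inr .z) (by decide)
  have m_al0 : P.al0 ∈ L := by rw [a0]; exact zero_mem L
  have m_al0' : P'.al0 ∈ L := by rw [a0']; exact zero_mem L
  have m_be0 : P.be0 ∈ L := by rw [b0]; exact zero_mem L
  have m_be0' : P'.be0 ∈ L := by rw [b0']; exact zero_mem L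
  have m_zeta : P.zeta ∈ L := by rw [ze]; exact zero_mem L
  have m_zeta' : P'.zeta ∈ L := by rw [ze']; exact zero_mem L
  have m_rho' : P'.rho ∈ L := by rw [rh']; exact zero_mem L
  have m_e0 : P.e0 ∈ L := by rw [e0z]; exact zero_mem L
  have m_g0 : P.g0 ∈ L := by rw [g0z]; exact zero_mem L
  have m_q1 : P.q1 ∈ L := by rw [q1z]; exact zero_mem L
  have m_q1' : P'.q1 ∈ L := by rw [q1z']; exact zero_mem L
  have m_g0' : P'.g0 ∈ L := mem_lin nr m_rho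
    (zero_mem L)
    (show P.rho * P'.g0 + (0) = 0 by
      linear_combination 1 * r4 + (-1) * P.ph * a0' + (1) * P'.ph * a0 + (1) * P'.rho * g0z)
  have m_e0' : P'.e0 ∈ L := mem_lin nr m_rho
    (zero_mem L)
    (show P.rho * P'.e0 + (0) = 0 by
      linear_combination 1 * r11 + (1) * P'.rho * e0z)
  have m_eta' : P'.eta ∈ L := mem_lin nr m_rho
    (add_mem (neg_mem (mul_mem m_f0 m_z')) (mul_mem m_f0' m_z))
    (show P.rho * P'.eta + (-(P.f0 * P'.z) + P'.f0 * P.z) = 0 by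
      linear_combination (-1) * r20 + (1) * P'.c0 * a0 + (-1) * P.c0 * a0' + (1) * P'.f0 * q1z +
        (-1) * P.f0 * q1z' + (1) * P.eta * rh')
  have m_th' : P'.th ∈ L := mem_lin nr m_rho
    (add_mem (add_mem (add_mem (neg_mem (mul_mem m_be1 m_f0')) (mul_mem m_be1' m_f0)) (neg_mem
      (mul_mem m_c0 m_z'))) (mul_mem m_c0' m_z))
    (show P.rho * P'.th + (-(P.be1 * P'.f0) + P'.be1 * P.f0 + -(P.c0 * P'.z) + P'.c0 * P.z) = 0 by
      linear_combination (-1) * r21 + (1) * P'.f1 * b0 + (-1) * P.f1 * b0' + (1) * P.th * rh')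
  have m_e1 : P.e1 ∈ L := mem_lin nf m_f0'
    (add_mem (add_mem (add_mem (add_mem (add_mem (neg_mem (mul_mem m_al1 m_be1')) (mul_mem m_al1'
      m_be1)) (neg_mem (mul_mem m_e0' m_f1))) (neg_mem (mul_mem m_e1' m_f0))) (neg_mem (mul_mem
        m_eta m_ph'))) (mul_mem m_eta' m_ph))
    (show P'.f0 * P.e1 + (-(P.al1 * P'.be1) + P'.al1 * P.be1 + -(P'.e0 * P.f1) + -(P'.e1 * P.f0) +
      -(P.eta * P'.ph) + P'.eta * P.ph) = 0 by
      linear_combination (-1) * r16 + (1) * P.al2 * b0' + (-1) * P'.al2 * b0 + (1) * P'.be2 * a0 +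
        (-1) * P.be2 * a0' + (-1) * P'.f1 * e0z)
  have m_q2' : P'.q2 ∈ L := mem_lin nbe m_be1
    (add_mem (add_mem (add_mem (add_mem (add_mem (neg_mem (mul_mem m_be1' m_q2)) (mul_mem m_c1
      m_e0')) (mul_mem m_c0 m_e1')) (neg_mem (mul_mem m_c0' m_e1))) (mul_mem m_ph' m_th)) (neg_mem
        (mul_mem m_ph m_th')))
    (show P.be1 * P'.q2 + (-(P'.be1 * P.q2) + P.c1 * P'.e0 + P.c0 * P'.e1 + -(P'.c0 * P.e1) + P'.ph
      * P.th + -(P.ph * P'.th)) = 0 by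
      linear_combination 1 * r17 + (-1) * P.be2 * q1z' + (1) * P'.be2 * q1z + (-1) * P'.q3 * b0 +
        (1) * P.q3 * b0' + (1) * P'.c1 * e0z)
  have m_g1 : P.g1 ∈ L := mem_lin nf m_f0'
    (add_mem (add_mem (add_mem (add_mem (add_mem (neg_mem (mul_mem m_al1' m_q2)) (mul_mem m_al1
      m_q2')) (neg_mem (mul_mem m_f1 m_g0'))) (neg_mem (mul_mem m_f0 m_g1'))) (neg_mem (mul_mem
        m_eta m_pi'))) (mul_mem m_eta' m_pi))
    (show P'.f0 * P.g1 + (-(P'.al1 * P.q2) + P.al1 * P'.q2 + -(P.f1 * P'.g0) + -(P.f0 * P'.g1) +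
      -(P.eta * P'.pi) + P'.eta * P.pi) = 0 by
      linear_combination (-1) * r9 + (1) * P.q3 * a0' + (-1) * P'.q3 * a0 + (1) * P'.al2 * q1z +
        (-1) * P.al2 * q1z' + (-1) * P'.f1 * g0z)
  exact mem_all P P' ⟨m_al0, m_al1, m_al2, m_al3, m_g0, m_g1, m_pi, m_be0, m_be1, m_be2, m_be3,
    m_q1, m_q2, m_q3, m_e0, m_e1, m_ph, m_c0, m_c1, m_f0, m_f1, m_z, m_rho, m_th, m_eta, m_zeta⟩
    ⟨m_al0', m_al1', m_al2', m_al3', m_g0', m_g1', m_pi', m_be0', m_be1', m_be2', m_be3', m_q1',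
      m_q2', m_q3', m_e0', m_e1', m_ph', m_c0', m_c1', m_f0', m_f1', m_z', m_rho', m_th', m_eta',
        m_zeta'⟩

theorem i_a3gd {P P' : Par K} (h : Rel P P')
    (a0 : P.al0 = 0) (a0' : P'.al0 = 0) (b0 : P.be0 = 0) (b0' : P'.be0 = 0) (ze : P.zeta = 0)
    (ze' : P'.zeta = 0) (rh' : P'.rho = 0) (e0z : P.e0 = 0) (g0z : P.g0 = 0) (q1z : P.q1 = 0)
    (q1z' : P'.q1 = 0) (be1z : P.be1 = 0)
    (nr : P.rho ≠ 0) (nf : P'.f0 ≠ 0) (nbe : P'.be1 ≠ 0) :
    rk k (Set.range (vals P P')) + 18 ≤ 52 := by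
  obtain ⟨r1, r2, r3, r4, r5, r6, r7, r8, r9, r10, r11, r12, r13, r14, r15, r16, r17, r18, r19,
    r20, r21, r22, r23⟩ := h
  simp only [Br] at *
  refine rk_det P P' {.inl .al0, .inr .al0, .inl .be0, .inr .be0, .inl .zeta, .inr .zeta, .inr
    .rho, .inl .e0, .inl .g0, .inl .q1, .inr .q1, .inl .be1, .inr .g0, .inr .e0, .inr .eta, .inr
      .th, .inl .e1, .inl .q2, .inl .g1} (by decide) fun L hL => ?_
  have m_al1 : P.al1 ∈ L := hL (.inl .al1) (by decide)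
  have m_al2 : P.al2 ∈ L := hL (.inl .al2) (by decide)
  have m_al3 : P.al3 ∈ L := hL (.inl .al3) (by decide)
  have m_pi : P.pi ∈ L := hL (.inl .pi) (by decide)
  have m_be2 : P.be2 ∈ L := hL (.inl .be2) (by decide)
  have m_be3 : P.be3 ∈ L := hL (.inl .be3) (by decide)
  have m_q3 : P.q3 ∈ L := hL (.inl .q3) (by decide)
  have m_ph : P.ph ∈ L := hL (.inl .ph) (by decide)
  have m_c0 : P.c0 ∈ L := hL (.inl .c0) (by decide)
  have m_c1 : P.c1 ∈ L := hL (.inl .c1) (by decide)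
  have m_f0 : P.f0 ∈ L := hL (.inl .f0) (by decide)
  have m_f1 : P.f1 ∈ L := hL (.inl .f1) (by decide)
  have m_z : P.z ∈ L := hL (.inl .z) (by decide)
  have m_rho : P.rho ∈ L := hL (.inl .rho) (by decide)
  have m_th : P.th ∈ L := hL (.inl .th) (by decide)
  have m_eta : P.eta ∈ L := hL (.inl .eta) (by decide)
  have m_al1' : P'.al1 ∈ L := hL (.inr .al1) (by decide)
  have m_al2' : P'.al2 ∈ L := hL (.inr .al2) (by decide)
  have m_al3' : P'.al3 ∈ L := hL (.inr .al3) (by decide)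
  have m_g1' : P'.g1 ∈ L := hL (.inr .g1) (by decide)
  have m_pi' : P'.pi ∈ L := hL (.inr .pi) (by decide)
  have m_be1' : P'.be1 ∈ L := hL (.inr .be1) (by decide)
  have m_be2' : P'.be2 ∈ L := hL (.inr .be2) (by decide)
  have m_be3' : P'.be3 ∈ L := hL (.inr .be3) (by decide)
  have m_q2' : P'.q2 ∈ L := hL (.inr .q2) (by decide)
  have m_q3' : P'.q3 ∈ L := hL (.inr .q3) (by decide)
  have m_e1' : P'.e1 ∈ L := hL (.inr .e1) (by decide)
  have m_ph' : P'.ph ∈ L := hL (.inr .ph) (by decide)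
  have m_c0' : P'.c0 ∈ L := hL (.inr .c0) (by decide)
  have m_c1' : P'.c1 ∈ L := hL (.inr .c1) (by decide)
  have m_f0' : P'.f0 ∈ L := hL (.inr .f0) (by decide)
  have m_f1' : P'.f1 ∈ L := hL (.inr .f1) (by decide)
  have m_z' : P'.z ∈ L := hL (.inr .z) (by decide)
  have m_al0 : P.al0 ∈ L := by rw [a0]; exact zero_mem L
  have m_al0' : P'.al0 ∈ L := by rw [a0']; exact zero_mem L
  have m_be0 : P.be0 ∈ L := by rw [b0]; exact zero_mem L
  have m_be0' : P'.be0 ∈ L := by rw [b0']; exact zero_mem L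
  have m_zeta : P.zeta ∈ L := by rw [ze]; exact zero_mem L
  have m_zeta' : P'.zeta ∈ L := by rw [ze']; exact zero_mem L
  have m_rho' : P'.rho ∈ L := by rw [rh']; exact zero_mem L
  have m_e0 : P.e0 ∈ L := by rw [e0z]; exact zero_mem L
  have m_g0 : P.g0 ∈ L := by rw [g0z]; exact zero_mem L
  have m_q1 : P.q1 ∈ L := by rw [q1z]; exact zero_mem L
  have m_q1' : P'.q1 ∈ L := by rw [q1z']; exact zero_mem L
  have m_be1 : P.be1 ∈ L := by rw [be1z]; exact zero_mem L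
  have m_g0' : P'.g0 ∈ L := mem_lin nr m_rho
    (zero_mem L)
    (show P.rho * P'.g0 + (0) = 0 by
      linear_combination 1 * r4 + (-1) * P.ph * a0' + (1) * P'.ph * a0 + (1) * P'.rho * g0z)
  have m_e0' : P'.e0 ∈ L := mem_lin nr m_rho
    (zero_mem L)
    (show P.rho * P'.e0 + (0) = 0 by
      linear_combination 1 * r11 + (1) * P'.rho * e0z)
  have m_eta' : P'.eta ∈ L := mem_lin nr m_rho
    (add_mem (neg_mem (mul_mem m_f0 m_z')) (mul_mem m_f0' m_z))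
    (show P.rho * P'.eta + (-(P.f0 * P'.z) + P'.f0 * P.z) = 0 by
      linear_combination (-1) * r20 + (1) * P'.c0 * a0 + (-1) * P.c0 * a0' + (1) * P'.f0 * q1z +
        (-1) * P.f0 * q1z' + (1) * P.eta * rh')
  have m_th' : P'.th ∈ L := mem_lin nr m_rho
    (add_mem (add_mem (mul_mem m_be1' m_f0) (neg_mem (mul_mem m_c0 m_z'))) (mul_mem m_c0' m_z))
    (show P.rho * P'.th + (P'.be1 * P.f0 + -(P.c0 * P'.z) + P'.c0 * P.z) = 0 by
      linear_combination (-1) * r21 + (1) * P'.f0 * be1z + (1) * P'.f1 * b0 + (-1) * P.f1 * b0' +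
        (1) * P.th * rh')
  have m_e1 : P.e1 ∈ L := mem_lin nf m_f0'
    (add_mem (add_mem (add_mem (add_mem (neg_mem (mul_mem m_al1 m_be1')) (neg_mem (mul_mem m_e0'
      m_f1))) (neg_mem (mul_mem m_e1' m_f0))) (neg_mem (mul_mem m_eta m_ph'))) (mul_mem m_eta'
        m_ph))
    (show P'.f0 * P.e1 + (-(P.al1 * P'.be1) + -(P'.e0 * P.f1) + -(P'.e1 * P.f0) + -(P.eta * P'.ph)
      + P'.eta * P.ph) = 0 by
      linear_combination (-1) * r16 + (1) * P.al2 * b0' + (-1) * P'.al2 * b0 + (-1) * P'.al1 * be1z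
        + (1) * P'.be2 * a0 + (-1) * P.be2 * a0' + (-1) * P'.f1 * e0z)
  have m_q2 : P.q2 ∈ L := mem_lin nbe m_be1'
    (add_mem (add_mem (add_mem (add_mem (neg_mem (mul_mem m_c1 m_e0')) (neg_mem (mul_mem m_c0
      m_e1'))) (mul_mem m_c0' m_e1)) (neg_mem (mul_mem m_ph' m_th))) (mul_mem m_ph m_th'))
    (show P'.be1 * P.q2 + (-(P.c1 * P'.e0) + -(P.c0 * P'.e1) + P'.c0 * P.e1 + -(P'.ph * P.th) +
      P.ph * P'.th) = 0 by
      linear_combination (-1) * r17 + (1) * P.be2 * q1z' + (-1) * P'.be2 * q1z + (1) * P'.q2 * be1z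
        + (1) * P'.q3 * b0 + (-1) * P.q3 * b0' + (-1) * P'.c1 * e0z)
  have m_g1 : P.g1 ∈ L := mem_lin nf m_f0'
    (add_mem (add_mem (add_mem (add_mem (add_mem (neg_mem (mul_mem m_al1' m_q2)) (mul_mem m_al1
      m_q2')) (neg_mem (mul_mem m_f1 m_g0'))) (neg_mem (mul_mem m_f0 m_g1'))) (neg_mem (mul_mem
        m_eta m_pi'))) (mul_mem m_eta' m_pi))
    (show P'.f0 * P.g1 + (-(P'.al1 * P.q2) + P.al1 * P'.q2 + -(P.f1 * P'.g0) + -(P.f0 * P'.g1) +
      -(P.eta * P'.pi) + P'.eta * P.pi) = 0 by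
      linear_combination (-1) * r9 + (1) * P.q3 * a0' + (-1) * P'.q3 * a0 + (1) * P'.al2 * q1z +
        (-1) * P.al2 * q1z' + (-1) * P'.f1 * g0z)
  exact mem_all P P' ⟨m_al0, m_al1, m_al2, m_al3, m_g0, m_g1, m_pi, m_be0, m_be1, m_be2, m_be3,
    m_q1, m_q2, m_q3, m_e0, m_e1, m_ph, m_c0, m_c1, m_f0, m_f1, m_z, m_rho, m_th, m_eta, m_zeta⟩
    ⟨m_al0', m_al1', m_al2', m_al3', m_g0', m_g1', m_pi', m_be0', m_be1', m_be2', m_be3', m_q1',
      m_q2', m_q3', m_e0', m_e1', m_ph', m_c0', m_c1', m_f0', m_f1', m_z', m_rho', m_th', m_eta',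
        m_zeta'⟩

theorem i_a3ge {P P' : Par K} (h : Rel P P')
    (a0 : P.al0 = 0) (a0' : P'.al0 = 0) (b0 : P.be0 = 0) (b0' : P'.be0 = 0) (ze : P.zeta = 0)
    (ze' : P'.zeta = 0) (rh' : P'.rho = 0) (e0z : P.e0 = 0) (g0z : P.g0 = 0) (q1z : P.q1 = 0)
    (q1z' : P'.q1 = 0) (be1z : P.be1 = 0) (be1z' : P'.be1 = 0)
    (nr : P.rho ≠ 0) (nf : P'.f0 ≠ 0) :
    rk k (Set.range (vals P P')) + 18 ≤ 52 := by
  obtain ⟨r1, r2, r3, r4, r5, r6, r7, r8, r9, r10, r11, r12, r13, r14, r15, r16, r17, r18, r19,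
    r20, r21, r22, r23⟩ := h
  simp only [Br] at *
  refine rk_det P P' {.inl .al0, .inr .al0, .inl .be0, .inr .be0, .inl .zeta, .inr .zeta, .inr
    .rho, .inl .e0, .inl .g0, .inl .q1, .inr .q1, .inl .be1, .inr .be1, .inr .g0, .inr .e0, .inr
      .eta, .inr .th, .inl .e1, .inl .g1} (by decide) fun L hL => ?_
  have m_al1 : P.al1 ∈ L := hL (.inl .al1) (by decide)
  have m_al2 : P.al2 ∈ L := hL (.inl .al2) (by decide)
  have m_al3 : P.al3 ∈ L := hL (.inl .al3) (by decide)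
  have m_pi : P.pi ∈ L := hL (.inl .pi) (by decide)
  have m_be2 : P.be2 ∈ L := hL (.inl .be2) (by decide)
  have m_be3 : P.be3 ∈ L := hL (.inl .be3) (by decide)
  have m_q2 : P.q2 ∈ L := hL (.inl .q2) (by decide)
  have m_q3 : P.q3 ∈ L := hL (.inl .q3) (by decide)
  have m_ph : P.ph ∈ L := hL (.inl .ph) (by decide)
  have m_c0 : P.c0 ∈ L := hL (.inl .c0) (by decide)
  have m_c1 : P.c1 ∈ L := hL (.inl .c1) (by decide)
  have m_f0 : P.f0 ∈ L := hL (.inl .f0) (by decide)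
  have m_f1 : P.f1 ∈ L := hL (.inl .f1) (by decide)
  have m_z : P.z ∈ L := hL (.inl .z) (by decide)
  have m_rho : P.rho ∈ L := hL (.inl .rho) (by decide)
  have m_th : P.th ∈ L := hL (.inl .th) (by decide)
  have m_eta : P.eta ∈ L := hL (.inl .eta) (by decide)
  have m_al1' : P'.al1 ∈ L := hL (.inr .al1) (by decide)
  have m_al2' : P'.al2 ∈ L := hL (.inr .al2) (by decide)
  have m_al3' : P'.al3 ∈ L := hL (.inr .al3) (by decide)
  have m_g1' : P'.g1 ∈ L := hL (.inr .g1) (by decide)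
  have m_pi' : P'.pi ∈ L := hL (.inr .pi) (by decide)
  have m_be2' : P'.be2 ∈ L := hL (.inr .be2) (by decide)
  have m_be3' : P'.be3 ∈ L := hL (.inr .be3) (by decide)
  have m_q2' : P'.q2 ∈ L := hL (.inr .q2) (by decide)
  have m_q3' : P'.q3 ∈ L := hL (.inr .q3) (by decide)
  have m_e1' : P'.e1 ∈ L := hL (.inr .e1) (by decide)
  have m_ph' : P'.ph ∈ L := hL (.inr .ph) (by decide)
  have m_c0' : P'.c0 ∈ L := hL (.inr .c0) (by decide)
  have m_c1' : P'.c1 ∈ L := hL (.inr .c1) (by decide)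
  have m_f0' : P'.f0 ∈ L := hL (.inr .f0) (by decide)
  have m_f1' : P'.f1 ∈ L := hL (.inr .f1) (by decide)
  have m_z' : P'.z ∈ L := hL (.inr .z) (by decide)
  have m_al0 : P.al0 ∈ L := by rw [a0]; exact zero_mem L
  have m_al0' : P'.al0 ∈ L := by rw [a0']; exact zero_mem L
  have m_be0 : P.be0 ∈ L := by rw [b0]; exact zero_mem L
  have m_be0' : P'.be0 ∈ L := by rw [b0']; exact zero_mem L
  have m_zeta : P.zeta ∈ L := by rw [ze]; exact zero_mem L
  have m_zeta' : P'.zeta ∈ L := by rw [ze']; exact zero_mem L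
  have m_rho' : P'.rho ∈ L := by rw [rh']; exact zero_mem L
  have m_e0 : P.e0 ∈ L := by rw [e0z]; exact zero_mem L
  have m_g0 : P.g0 ∈ L := by rw [g0z]; exact zero_mem L
  have m_q1 : P.q1 ∈ L := by rw [q1z]; exact zero_mem L
  have m_q1' : P'.q1 ∈ L := by rw [q1z']; exact zero_mem L
  have m_be1 : P.be1 ∈ L := by rw [be1z]; exact zero_mem L
  have m_be1' : P'.be1 ∈ L := by rw [be1z']; exact zero_mem L
  have m_g0' : P'.g0 ∈ L := mem_lin nr m_rho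
    (zero_mem L)
    (show P.rho * P'.g0 + (0) = 0 by
      linear_combination 1 * r4 + (-1) * P.ph * a0' + (1) * P'.ph * a0 + (1) * P'.rho * g0z)
  have m_e0' : P'.e0 ∈ L := mem_lin nr m_rho
    (zero_mem L)
    (show P.rho * P'.e0 + (0) = 0 by
      linear_combination 1 * r11 + (1) * P'.rho * e0z)
  have m_eta' : P'.eta ∈ L := mem_lin nr m_rho
    (add_mem (neg_mem (mul_mem m_f0 m_z')) (mul_mem m_f0' m_z))
    (show P.rho * P'.eta + (-(P.f0 * P'.z) + P'.f0 * P.z) = 0 by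
      linear_combination (-1) * r20 + (1) * P'.c0 * a0 + (-1) * P.c0 * a0' + (1) * P'.f0 * q1z +
        (-1) * P.f0 * q1z' + (1) * P.eta * rh')
  have m_th' : P'.th ∈ L := mem_lin nr m_rho
    (add_mem (neg_mem (mul_mem m_c0 m_z')) (mul_mem m_c0' m_z))
    (show P.rho * P'.th + (-(P.c0 * P'.z) + P'.c0 * P.z) = 0 by
      linear_combination (-1) * r21 + (1) * P'.f0 * be1z + (-1) * P.f0 * be1z' + (1) * P'.f1 * b0 +
        (-1) * P.f1 * b0' + (1) * P.th * rh')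
  have m_e1 : P.e1 ∈ L := mem_lin nf m_f0'
    (add_mem (add_mem (add_mem (neg_mem (mul_mem m_e0' m_f1)) (neg_mem (mul_mem m_e1' m_f0)))
      (neg_mem (mul_mem m_eta m_ph'))) (mul_mem m_eta' m_ph))
    (show P'.f0 * P.e1 + (-(P'.e0 * P.f1) + -(P'.e1 * P.f0) + -(P.eta * P'.ph) + P'.eta * P.ph) = 0
      by
      linear_combination (-1) * r16 + (1) * P.al2 * b0' + (-1) * P'.al2 * b0 + (1) * P.al1 * be1z'
        + (-1) * P'.al1 * be1z + (1) * P'.be2 * a0 + (-1) * P.be2 * a0' + (-1) * P'.f1 * e0z)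
  have m_g1 : P.g1 ∈ L := mem_lin nf m_f0'
    (add_mem (add_mem (add_mem (add_mem (add_mem (neg_mem (mul_mem m_al1' m_q2)) (mul_mem m_al1
      m_q2')) (neg_mem (mul_mem m_f1 m_g0'))) (neg_mem (mul_mem m_f0 m_g1'))) (neg_mem (mul_mem
        m_eta m_pi'))) (mul_mem m_eta' m_pi))
    (show P'.f0 * P.g1 + (-(P'.al1 * P.q2) + P.al1 * P'.q2 + -(P.f1 * P'.g0) + -(P.f0 * P'.g1) +
      -(P.eta * P'.pi) + P'.eta * P.pi) = 0 by
      linear_combination (-1) * r9 + (1) * P.q3 * a0' + (-1) * P'.q3 * a0 + (1) * P'.al2 * q1z +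
        (-1) * P.al2 * q1z' + (-1) * P'.f1 * g0z)
  exact mem_all P P' ⟨m_al0, m_al1, m_al2, m_al3, m_g0, m_g1, m_pi, m_be0, m_be1, m_be2, m_be3,
    m_q1, m_q2, m_q3, m_e0, m_e1, m_ph, m_c0, m_c1, m_f0, m_f1, m_z, m_rho, m_th, m_eta, m_zeta⟩
    ⟨m_al0', m_al1', m_al2', m_al3', m_g0', m_g1', m_pi', m_be0', m_be1', m_be2', m_be3', m_q1',
      m_q2', m_q3', m_e0', m_e1', m_ph', m_c0', m_c1', m_f0', m_f1', m_z', m_rho', m_th', m_eta',
        m_zeta'⟩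

theorem i_a3ha {P P' : Par K} (h : Rel P P')
    (a0 : P.al0 = 0) (a0' : P'.al0 = 0) (b0 : P.be0 = 0) (b0' : P'.be0 = 0) (ze : P.zeta = 0)
    (ze' : P'.zeta = 0) (rh' : P'.rho = 0) (e0z : P.e0 = 0) (g0z : P.g0 = 0) (f0z : P.f0 = 0)
    (f0z' : P'.f0 = 0)
    (nr : P.rho ≠ 0) (nt : P.eta ≠ 0) (nq : P.q1 ≠ 0) :
    rk k (Set.range (vals P P')) + 18 ≤ 52 := by
  obtain ⟨r1, r2, r3, r4, r5, r6, r7, r8, r9, r10, r11, r12, r13, r14, r15, r16, r17, r18, r19,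
    r20, r21, r22, r23⟩ := h
  simp only [Br] at *
  refine rk_det P P' {.inl .al0, .inr .al0, .inl .be0, .inr .be0, .inl .zeta, .inr .zeta, .inr
    .rho, .inl .e0, .inl .g0, .inl .f0, .inr .f0, .inr .g0, .inr .e0, .inr .al1, .inr .be1, .inr
      .eta, .inr .th, .inr .ph, .inr .be2, .inr .pi} (by decide) fun L hL => ?_
  have m_al1 : P.al1 ∈ L := hL (.inl .al1) (by decide)
  have m_al2 : P.al2 ∈ L := hL (.inl .al2) (by decide)
  have m_al3 : P.al3 ∈ L := hL (.inl .al3) (by decide)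
  have m_g1 : P.g1 ∈ L := hL (.inl .g1) (by decide)
  have m_pi : P.pi ∈ L := hL (.inl .pi) (by decide)
  have m_be1 : P.be1 ∈ L := hL (.inl .be1) (by decide)
  have m_be2 : P.be2 ∈ L := hL (.inl .be2) (by decide)
  have m_be3 : P.be3 ∈ L := hL (.inl .be3) (by decide)
  have m_q1 : P.q1 ∈ L := hL (.inl .q1) (by decide)
  have m_q2 : P.q2 ∈ L := hL (.inl .q2) (by decide)
  have m_q3 : P.q3 ∈ L := hL (.inl .q3) (by decide)
  have m_e1 : P.e1 ∈ L := hL (.inl .e1) (by decide)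
  have m_ph : P.ph ∈ L := hL (.inl .ph) (by decide)
  have m_c0 : P.c0 ∈ L := hL (.inl .c0) (by decide)
  have m_c1 : P.c1 ∈ L := hL (.inl .c1) (by decide)
  have m_f1 : P.f1 ∈ L := hL (.inl .f1) (by decide)
  have m_z : P.z ∈ L := hL (.inl .z) (by decide)
  have m_rho : P.rho ∈ L := hL (.inl .rho) (by decide)
  have m_th : P.th ∈ L := hL (.inl .th) (by decide)
  have m_eta : P.eta ∈ L := hL (.inl .eta) (by decide)
  have m_al2' : P'.al2 ∈ L := hL (.inr .al2) (by decide)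
  have m_al3' : P'.al3 ∈ L := hL (.inr .al3) (by decide)
  have m_g1' : P'.g1 ∈ L := hL (.inr .g1) (by decide)
  have m_be3' : P'.be3 ∈ L := hL (.inr .be3) (by decide)
  have m_q1' : P'.q1 ∈ L := hL (.inr .q1) (by decide)
  have m_q2' : P'.q2 ∈ L := hL (.inr .q2) (by decide)
  have m_q3' : P'.q3 ∈ L := hL (.inr .q3) (by decide)
  have m_e1' : P'.e1 ∈ L := hL (.inr .e1) (by decide)
  have m_c0' : P'.c0 ∈ L := hL (.inr .c0) (by decide)
  have m_c1' : P'.c1 ∈ L := hL (.inr .c1) (by decide)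
  have m_f1' : P'.f1 ∈ L := hL (.inr .f1) (by decide)
  have m_z' : P'.z ∈ L := hL (.inr .z) (by decide)
  have m_al0 : P.al0 ∈ L := by rw [a0]; exact zero_mem L
  have m_al0' : P'.al0 ∈ L := by rw [a0']; exact zero_mem L
  have m_be0 : P.be0 ∈ L := by rw [b0]; exact zero_mem L
  have m_be0' : P'.be0 ∈ L := by rw [b0']; exact zero_mem L
  have m_zeta : P.zeta ∈ L := by rw [ze]; exact zero_mem L
  have m_zeta' : P'.zeta ∈ L := by rw [ze']; exact zero_mem L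
  have m_rho' : P'.rho ∈ L := by rw [rh']; exact zero_mem L
  have m_e0 : P.e0 ∈ L := by rw [e0z]; exact zero_mem L
  have m_g0 : P.g0 ∈ L := by rw [g0z]; exact zero_mem L
  have m_f0 : P.f0 ∈ L := by rw [f0z]; exact zero_mem L
  have m_f0' : P'.f0 ∈ L := by rw [f0z']; exact zero_mem L
  have m_g0' : P'.g0 ∈ L := mem_lin nr m_rho
    (zero_mem L)
    (show P.rho * P'.g0 + (0) = 0 by
      linear_combination 1 * r4 + (-1) * P.ph * a0' + (1) * P'.ph * a0 + (1) * P'.rho * g0z)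
  have m_e0' : P'.e0 ∈ L := mem_lin nr m_rho
    (zero_mem L)
    (show P.rho * P'.e0 + (0) = 0 by
      linear_combination 1 * r11 + (1) * P'.rho * e0z)
  have m_al1' : P'.al1 ∈ L := mem_lin nq m_q1
    (neg_mem (mul_mem m_al1 m_q1'))
    (show P.q1 * P'.al1 + (-(P.al1 * P'.q1)) = 0 by
      linear_combination 1 * r7 + (-1) * P.q2 * a0' + (1) * P'.q2 * a0 + (-1) * P'.g0 * f0z + (1) *
        P.g0 * f0z')
  have m_be1' : P'.be1 ∈ L := mem_lin nq m_q1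
    (add_mem (neg_mem (mul_mem m_be1 m_q1')) (neg_mem (mul_mem m_c0 m_e0')))
    (show P.q1 * P'.be1 + (-(P.be1 * P'.q1) + -(P.c0 * P'.e0)) = 0 by
      linear_combination (-1) * r15 + (1) * P'.q2 * b0 + (-1) * P.q2 * b0' + (-1) * P'.c0 * e0z)
  have m_eta' : P'.eta ∈ L := mem_lin nr m_rho
    (zero_mem L)
    (show P.rho * P'.eta + (0) = 0 by
      linear_combination (-1) * r20 + (1) * P'.c0 * a0 + (-1) * P.c0 * a0' + (1) * P.q1 * f0z' +
        (-1) * P'.q1 * f0z + (1) * P'.z * f0z + (-1) * P.z * f0z' + (1) * P.eta * rh')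
  have m_th' : P'.th ∈ L := mem_lin nr m_rho
    (add_mem (neg_mem (mul_mem m_c0 m_z')) (mul_mem m_c0' m_z))
    (show P.rho * P'.th + (-(P.c0 * P'.z) + P'.c0 * P.z) = 0 by
      linear_combination (-1) * r21 + (1) * P.be1 * f0z' + (-1) * P'.be1 * f0z + (1) * P'.f1 * b0 +
        (-1) * P.f1 * b0' + (1) * P.th * rh')
  have m_ph' : P'.ph ∈ L := mem_lin nt m_eta
    (add_mem (add_mem (add_mem (mul_mem m_al1 m_be1') (neg_mem (mul_mem m_al1' m_be1))) (mul_mem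
      m_e0' m_f1)) (neg_mem (mul_mem m_eta' m_ph)))
    (show P.eta * P'.ph + (P.al1 * P'.be1 + -(P'.al1 * P.be1) + P'.e0 * P.f1 + -(P'.eta * P.ph)) =
      0 by
      linear_combination 1 * r16 + (-1) * P.al2 * b0' + (1) * P'.al2 * b0 + (-1) * P'.be2 * a0 +
        (1) * P.be2 * a0' + (1) * P'.f1 * e0z + (-1) * P'.e1 * f0z + (1) * P.e1 * f0z')
  have m_be2' : P'.be2 ∈ L := mem_lin nq m_q1
    (add_mem (add_mem (add_mem (add_mem (add_mem (add_mem (add_mem (neg_mem (mul_mem m_be2 m_q1'))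
      (neg_mem (mul_mem m_be1 m_q2'))) (mul_mem m_be1' m_q2)) (neg_mem (mul_mem m_c1 m_e0')))
        (neg_mem (mul_mem m_c0 m_e1'))) (mul_mem m_c0' m_e1)) (neg_mem (mul_mem m_ph' m_th)))
          (mul_mem m_ph m_th'))
    (show P.q1 * P'.be2 + (-(P.be2 * P'.q1) + -(P.be1 * P'.q2) + P'.be1 * P.q2 + -(P.c1 * P'.e0) +
      -(P.c0 * P'.e1) + P'.c0 * P.e1 + -(P'.ph * P.th) + P.ph * P'.th) = 0 by
      linear_combination (-1) * r17 + (1) * P'.q3 * b0 + (-1) * P.q3 * b0' + (-1) * P'.c1 * e0z)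
  have m_pi' : P'.pi ∈ L := mem_lin nt m_eta
    (add_mem (add_mem (add_mem (add_mem (add_mem (mul_mem m_al1' m_q2) (neg_mem (mul_mem m_al1
      m_q2'))) (mul_mem m_al2' m_q1)) (neg_mem (mul_mem m_al2 m_q1'))) (mul_mem m_f1 m_g0'))
        (neg_mem (mul_mem m_eta' m_pi)))
    (show P.eta * P'.pi + (P'.al1 * P.q2 + -(P.al1 * P'.q2) + P'.al2 * P.q1 + -(P.al2 * P'.q1) +
      P.f1 * P'.g0 + -(P'.eta * P.pi)) = 0 by
      linear_combination 1 * r9 + (-1) * P.q3 * a0' + (1) * P'.q3 * a0 + (1) * P'.f1 * g0z + (-1) *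
        P'.g1 * f0z + (1) * P.g1 * f0z')
  exact mem_all P P' ⟨m_al0, m_al1, m_al2, m_al3, m_g0, m_g1, m_pi, m_be0, m_be1, m_be2, m_be3,
    m_q1, m_q2, m_q3, m_e0, m_e1, m_ph, m_c0, m_c1, m_f0, m_f1, m_z, m_rho, m_th, m_eta, m_zeta⟩
    ⟨m_al0', m_al1', m_al2', m_al3', m_g0', m_g1', m_pi', m_be0', m_be1', m_be2', m_be3', m_q1',
      m_q2', m_q3', m_e0', m_e1', m_ph', m_c0', m_c1', m_f0', m_f1', m_z', m_rho', m_th', m_eta',
        m_zeta'⟩

theorem i_a3hb {P P' : Par K} (h : Rel P P')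
    (a0 : P.al0 = 0) (a0' : P'.al0 = 0) (b0 : P.be0 = 0) (b0' : P'.be0 = 0) (ze : P.zeta = 0)
    (ze' : P'.zeta = 0) (rh' : P'.rho = 0) (e0z : P.e0 = 0) (g0z : P.g0 = 0) (f0z : P.f0 = 0)
    (f0z' : P'.f0 = 0) (q1z : P.q1 = 0)
    (nr : P.rho ≠ 0) (nt : P.eta ≠ 0) (nq : P'.q1 ≠ 0) :
    rk k (Set.range (vals P P')) + 18 ≤ 52 := by
  obtain ⟨r1, r2, r3, r4, r5, r6, r7, r8, r9, r10, r11, r12, r13, r14, r15, r16, r17, r18, r19,
    r20, r21, r22, r23⟩ := h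
  simp only [Br] at *
  refine rk_det P P' {.inl .al0, .inr .al0, .inl .be0, .inr .be0, .inl .zeta, .inr .zeta, .inr
    .rho, .inl .e0, .inl .g0, .inl .f0, .inr .f0, .inl .q1, .inr .g0, .inr .e0, .inl .al1, .inl
      .be1, .inr .eta, .inr .th, .inr .ph, .inl .be2, .inr .pi} (by decide) fun L hL => ?_
  have m_al2 : P.al2 ∈ L := hL (.inl .al2) (by decide)
  have m_al3 : P.al3 ∈ L := hL (.inl .al3) (by decide)
  have m_g1 : P.g1 ∈ L := hL (.inl .g1) (by decide)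
  have m_pi : P.pi ∈ L := hL (.inl .pi) (by decide)
  have m_be3 : P.be3 ∈ L := hL (.inl .be3) (by decide)
  have m_q2 : P.q2 ∈ L := hL (.inl .q2) (by decide)
  have m_q3 : P.q3 ∈ L := hL (.inl .q3) (by decide)
  have m_e1 : P.e1 ∈ L := hL (.inl .e1) (by decide)
  have m_ph : P.ph ∈ L := hL (.inl .ph) (by decide)
  have m_c0 : P.c0 ∈ L := hL (.inl .c0) (by decide)
  have m_c1 : P.c1 ∈ L := hL (.inl .c1) (by decide)
  have m_f1 : P.f1 ∈ L := hL (.inl .f1) (by decide)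
  have m_z : P.z ∈ L := hL (.inl .z) (by decide)
  have m_rho : P.rho ∈ L := hL (.inl .rho) (by decide)
  have m_th : P.th ∈ L := hL (.inl .th) (by decide)
  have m_eta : P.eta ∈ L := hL (.inl .eta) (by decide)
  have m_al1' : P'.al1 ∈ L := hL (.inr .al1) (by decide)
  have m_al2' : P'.al2 ∈ L := hL (.inr .al2) (by decide)
  have m_al3' : P'.al3 ∈ L := hL (.inr .al3) (by decide)
  have m_g1' : P'.g1 ∈ L := hL (.inr .g1) (by decide)
  have m_be1' : P'.be1 ∈ L := hL (.inr .be1) (by decide)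
  have m_be2' : P'.be2 ∈ L := hL (.inr .be2) (by decide)
  have m_be3' : P'.be3 ∈ L := hL (.inr .be3) (by decide)
  have m_q1' : P'.q1 ∈ L := hL (.inr .q1) (by decide)
  have m_q2' : P'.q2 ∈ L := hL (.inr .q2) (by decide)
  have m_q3' : P'.q3 ∈ L := hL (.inr .q3) (by decide)
  have m_e1' : P'.e1 ∈ L := hL (.inr .e1) (by decide)
  have m_c0' : P'.c0 ∈ L := hL (.inr .c0) (by decide)
  have m_c1' : P'.c1 ∈ L := hL (.inr .c1) (by decide)
  have m_f1' : P'.f1 ∈ L := hL (.inr .f1) (by decide)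
  have m_z' : P'.z ∈ L := hL (.inr .z) (by decide)
  have m_al0 : P.al0 ∈ L := by rw [a0]; exact zero_mem L
  have m_al0' : P'.al0 ∈ L := by rw [a0']; exact zero_mem L
  have m_be0 : P.be0 ∈ L := by rw [b0]; exact zero_mem L
  have m_be0' : P'.be0 ∈ L := by rw [b0']; exact zero_mem L
  have m_zeta : P.zeta ∈ L := by rw [ze]; exact zero_mem L
  have m_zeta' : P'.zeta ∈ L := by rw [ze']; exact zero_mem L
  have m_rho' : P'.rho ∈ L := by rw [rh']; exact zero_mem L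
  have m_e0 : P.e0 ∈ L := by rw [e0z]; exact zero_mem L
  have m_g0 : P.g0 ∈ L := by rw [g0z]; exact zero_mem L
  have m_f0 : P.f0 ∈ L := by rw [f0z]; exact zero_mem L
  have m_f0' : P'.f0 ∈ L := by rw [f0z']; exact zero_mem L
  have m_q1 : P.q1 ∈ L := by rw [q1z]; exact zero_mem L
  have m_g0' : P'.g0 ∈ L := mem_lin nr m_rho
    (zero_mem L)
    (show P.rho * P'.g0 + (0) = 0 by
      linear_combination 1 * r4 + (-1) * P.ph * a0' + (1) * P'.ph * a0 + (1) * P'.rho * g0z)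
  have m_e0' : P'.e0 ∈ L := mem_lin nr m_rho
    (zero_mem L)
    (show P.rho * P'.e0 + (0) = 0 by
      linear_combination 1 * r11 + (1) * P'.rho * e0z)
  have m_al1 : P.al1 ∈ L := mem_lin nq m_q1'
    (zero_mem L)
    (show P'.q1 * P.al1 + (0) = 0 by
      linear_combination (-1) * r7 + (1) * P.q2 * a0' + (-1) * P'.q2 * a0 + (1) * P'.al1 * q1z +
        (1) * P'.g0 * f0z + (-1) * P.g0 * f0z')
  have m_be1 : P.be1 ∈ L := mem_lin nq m_q1'
    (mul_mem m_c0 m_e0')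
    (show P'.q1 * P.be1 + (P.c0 * P'.e0) = 0 by
      linear_combination 1 * r15 + (1) * P'.be1 * q1z + (-1) * P'.q2 * b0 + (1) * P.q2 * b0' + (1)
        * P'.c0 * e0z)
  have m_eta' : P'.eta ∈ L := mem_lin nr m_rho
    (zero_mem L)
    (show P.rho * P'.eta + (0) = 0 by
      linear_combination (-1) * r20 + (1) * P'.c0 * a0 + (-1) * P.c0 * a0' + (1) * P.q1 * f0z' +
        (-1) * P'.q1 * f0z + (1) * P'.z * f0z + (-1) * P.z * f0z' + (1) * P.eta * rh')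
  have m_th' : P'.th ∈ L := mem_lin nr m_rho
    (add_mem (neg_mem (mul_mem m_c0 m_z')) (mul_mem m_c0' m_z))
    (show P.rho * P'.th + (-(P.c0 * P'.z) + P'.c0 * P.z) = 0 by
      linear_combination (-1) * r21 + (1) * P.be1 * f0z' + (-1) * P'.be1 * f0z + (1) * P'.f1 * b0 +
        (-1) * P.f1 * b0' + (1) * P.th * rh')
  have m_ph' : P'.ph ∈ L := mem_lin nt m_eta
    (add_mem (add_mem (add_mem (mul_mem m_al1 m_be1') (neg_mem (mul_mem m_al1' m_be1))) (mul_mem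
      m_e0' m_f1)) (neg_mem (mul_mem m_eta' m_ph)))
    (show P.eta * P'.ph + (P.al1 * P'.be1 + -(P'.al1 * P.be1) + P'.e0 * P.f1 + -(P'.eta * P.ph)) =
      0 by
      linear_combination 1 * r16 + (-1) * P.al2 * b0' + (1) * P'.al2 * b0 + (-1) * P'.be2 * a0 +
        (1) * P.be2 * a0' + (1) * P'.f1 * e0z + (-1) * P'.e1 * f0z + (1) * P.e1 * f0z')
  have m_be2 : P.be2 ∈ L := mem_lin nq m_q1'
    (add_mem (add_mem (add_mem (add_mem (add_mem (add_mem (mul_mem m_be1 m_q2') (neg_mem (mul_mem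
      m_be1' m_q2))) (mul_mem m_c1 m_e0')) (mul_mem m_c0 m_e1')) (neg_mem (mul_mem m_c0' m_e1)))
        (mul_mem m_ph' m_th)) (neg_mem (mul_mem m_ph m_th')))
    (show P'.q1 * P.be2 + (P.be1 * P'.q2 + -(P'.be1 * P.q2) + P.c1 * P'.e0 + P.c0 * P'.e1 + -(P'.c0
      * P.e1) + P'.ph * P.th + -(P.ph * P'.th)) = 0 by
      linear_combination 1 * r17 + (1) * P'.be2 * q1z + (-1) * P'.q3 * b0 + (1) * P.q3 * b0' + (1)
        * P'.c1 * e0z)
  have m_pi' : P'.pi ∈ L := mem_lin nt m_eta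
    (add_mem (add_mem (add_mem (add_mem (mul_mem m_al1' m_q2) (neg_mem (mul_mem m_al1 m_q2')))
      (neg_mem (mul_mem m_al2 m_q1'))) (mul_mem m_f1 m_g0')) (neg_mem (mul_mem m_eta' m_pi)))
    (show P.eta * P'.pi + (P'.al1 * P.q2 + -(P.al1 * P'.q2) + -(P.al2 * P'.q1) + P.f1 * P'.g0 +
      -(P'.eta * P.pi)) = 0 by
      linear_combination 1 * r9 + (-1) * P.q3 * a0' + (1) * P'.q3 * a0 + (-1) * P'.al2 * q1z + (1)
        * P'.f1 * g0z + (-1) * P'.g1 * f0z + (1) * P.g1 * f0z')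
  exact mem_all P P' ⟨m_al0, m_al1, m_al2, m_al3, m_g0, m_g1, m_pi, m_be0, m_be1, m_be2, m_be3,
    m_q1, m_q2, m_q3, m_e0, m_e1, m_ph, m_c0, m_c1, m_f0, m_f1, m_z, m_rho, m_th, m_eta, m_zeta⟩
    ⟨m_al0', m_al1', m_al2', m_al3', m_g0', m_g1', m_pi', m_be0', m_be1', m_be2', m_be3', m_q1',
      m_q2', m_q3', m_e0', m_e1', m_ph', m_c0', m_c1', m_f0', m_f1', m_z', m_rho', m_th', m_eta',
        m_zeta'⟩

theorem i_a3hc {P P' : Par K} (h : Rel P P')
    (a0 : P.al0 = 0) (a0' : P'.al0 = 0) (b0 : P.be0 = 0) (b0' : P'.be0 = 0) (ze : P.zeta = 0)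
    (ze' : P'.zeta = 0) (rh' : P'.rho = 0) (e0z : P.e0 = 0) (g0z : P.g0 = 0) (f0z : P.f0 = 0)
    (f0z' : P'.f0 = 0) (q1z : P.q1 = 0) (q1z' : P'.q1 = 0)
    (nr : P.rho ≠ 0) (nt : P.eta ≠ 0) (nbe : P.be1 ≠ 0) :
    rk k (Set.range (vals P P')) + 18 ≤ 52 := by
  obtain ⟨r1, r2, r3, r4, r5, r6, r7, r8, r9, r10, r11, r12, r13, r14, r15, r16, r17, r18, r19,
    r20, r21, r22, r23⟩ := h
  simp only [Br] at *
  refine rk_det P P' {.inl .al0, .inr .al0, .inl .be0, .inr .be0, .inl .zeta, .inr .zeta, .inr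
    .rho, .inl .e0, .inl .g0, .inl .f0, .inr .f0, .inl .q1, .inr .q1, .inr .g0, .inr .e0, .inr
      .eta, .inr .th, .inr .ph, .inr .q2, .inr .pi} (by decide) fun L hL => ?_
  have m_al1 : P.al1 ∈ L := hL (.inl .al1) (by decide)
  have m_al2 : P.al2 ∈ L := hL (.inl .al2) (by decide)
  have m_al3 : P.al3 ∈ L := hL (.inl .al3) (by decide)
  have m_g1 : P.g1 ∈ L := hL (.inl .g1) (by decide)
  have m_pi : P.pi ∈ L := hL (.inl .pi) (by decide)
  have m_be1 : P.be1 ∈ L := hL (.inl .be1) (by decide)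
  have m_be2 : P.be2 ∈ L := hL (.inl .be2) (by decide)
  have m_be3 : P.be3 ∈ L := hL (.inl .be3) (by decide)
  have m_q2 : P.q2 ∈ L := hL (.inl .q2) (by decide)
  have m_q3 : P.q3 ∈ L := hL (.inl .q3) (by decide)
  have m_e1 : P.e1 ∈ L := hL (.inl .e1) (by decide)
  have m_ph : P.ph ∈ L := hL (.inl .ph) (by decide)
  have m_c0 : P.c0 ∈ L := hL (.inl .c0) (by decide)
  have m_c1 : P.c1 ∈ L := hL (.inl .c1) (by decide)
  have m_f1 : P.f1 ∈ L := hL (.inl .f1) (by decide)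
  have m_z : P.z ∈ L := hL (.inl .z) (by decide)
  have m_rho : P.rho ∈ L := hL (.inl .rho) (by decide)
  have m_th : P.th ∈ L := hL (.inl .th) (by decide)
  have m_eta : P.eta ∈ L := hL (.inl .eta) (by decide)
  have m_al1' : P'.al1 ∈ L := hL (.inr .al1) (by decide)
  have m_al2' : P'.al2 ∈ L := hL (.inr .al2) (by decide)
  have m_al3' : P'.al3 ∈ L := hL (.inr .al3) (by decide)
  have m_g1' : P'.g1 ∈ L := hL (.inr .g1) (by decide)
  have m_be1' : P'.be1 ∈ L := hL (.inr .be1) (by decide)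
  have m_be2' : P'.be2 ∈ L := hL (.inr .be2) (by decide)
  have m_be3' : P'.be3 ∈ L := hL (.inr .be3) (by decide)
  have m_q3' : P'.q3 ∈ L := hL (.inr .q3) (by decide)
  have m_e1' : P'.e1 ∈ L := hL (.inr .e1) (by decide)
  have m_c0' : P'.c0 ∈ L := hL (.inr .c0) (by decide)
  have m_c1' : P'.c1 ∈ L := hL (.inr .c1) (by decide)
  have m_f1' : P'.f1 ∈ L := hL (.inr .f1) (by decide)
  have m_z' : P'.z ∈ L := hL (.inr .z) (by decide)
  have m_al0 : P.al0 ∈ L := by rw [a0]; exact zero_mem L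
  have m_al0' : P'.al0 ∈ L := by rw [a0']; exact zero_mem L
  have m_be0 : P.be0 ∈ L := by rw [b0]; exact zero_mem L
  have m_be0' : P'.be0 ∈ L := by rw [b0']; exact zero_mem L
  have m_zeta : P.zeta ∈ L := by rw [ze]; exact zero_mem L
  have m_zeta' : P'.zeta ∈ L := by rw [ze']; exact zero_mem L
  have m_rho' : P'.rho ∈ L := by rw [rh']; exact zero_mem L
  have m_e0 : P.e0 ∈ L := by rw [e0z]; exact zero_mem L
  have m_g0 : P.g0 ∈ L := by rw [g0z]; exact zero_mem L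
  have m_f0 : P.f0 ∈ L := by rw [f0z]; exact zero_mem L
  have m_f0' : P'.f0 ∈ L := by rw [f0z']; exact zero_mem L
  have m_q1 : P.q1 ∈ L := by rw [q1z]; exact zero_mem L
  have m_q1' : P'.q1 ∈ L := by rw [q1z']; exact zero_mem L
  have m_g0' : P'.g0 ∈ L := mem_lin nr m_rho
    (zero_mem L)
    (show P.rho * P'.g0 + (0) = 0 by
      linear_combination 1 * r4 + (-1) * P.ph * a0' + (1) * P'.ph * a0 + (1) * P'.rho * g0z)
  have m_e0' : P'.e0 ∈ L := mem_lin nr m_rho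
    (zero_mem L)
    (show P.rho * P'.e0 + (0) = 0 by
      linear_combination 1 * r11 + (1) * P'.rho * e0z)
  have m_eta' : P'.eta ∈ L := mem_lin nr m_rho
    (zero_mem L)
    (show P.rho * P'.eta + (0) = 0 by
      linear_combination (-1) * r20 + (1) * P'.c0 * a0 + (-1) * P.c0 * a0' + (1) * P.q1 * f0z' +
        (-1) * P'.q1 * f0z + (1) * P'.z * f0z + (-1) * P.z * f0z' + (1) * P.eta * rh')
  have m_th' : P'.th ∈ L := mem_lin nr m_rho
    (add_mem (neg_mem (mul_mem m_c0 m_z')) (mul_mem m_c0' m_z))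
    (show P.rho * P'.th + (-(P.c0 * P'.z) + P'.c0 * P.z) = 0 by
      linear_combination (-1) * r21 + (1) * P.be1 * f0z' + (-1) * P'.be1 * f0z + (1) * P'.f1 * b0 +
        (-1) * P.f1 * b0' + (1) * P.th * rh')
  have m_ph' : P'.ph ∈ L := mem_lin nt m_eta
    (add_mem (add_mem (add_mem (mul_mem m_al1 m_be1') (neg_mem (mul_mem m_al1' m_be1))) (mul_mem
      m_e0' m_f1)) (neg_mem (mul_mem m_eta' m_ph)))
    (show P.eta * P'.ph + (P.al1 * P'.be1 + -(P'.al1 * P.be1) + P'.e0 * P.f1 + -(P'.eta * P.ph)) =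
      0 by
      linear_combination 1 * r16 + (-1) * P.al2 * b0' + (1) * P'.al2 * b0 + (-1) * P'.be2 * a0 +
        (1) * P.be2 * a0' + (1) * P'.f1 * e0z + (-1) * P'.e1 * f0z + (1) * P.e1 * f0z')
  have m_q2' : P'.q2 ∈ L := mem_lin nbe m_be1
    (add_mem (add_mem (add_mem (add_mem (add_mem (neg_mem (mul_mem m_be1' m_q2)) (mul_mem m_c1
      m_e0')) (mul_mem m_c0 m_e1')) (neg_mem (mul_mem m_c0' m_e1))) (mul_mem m_ph' m_th)) (neg_mem
        (mul_mem m_ph m_th')))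
    (show P.be1 * P'.q2 + (-(P'.be1 * P.q2) + P.c1 * P'.e0 + P.c0 * P'.e1 + -(P'.c0 * P.e1) + P'.ph
      * P.th + -(P.ph * P'.th)) = 0 by
      linear_combination 1 * r17 + (-1) * P.be2 * q1z' + (1) * P'.be2 * q1z + (-1) * P'.q3 * b0 +
        (1) * P.q3 * b0' + (1) * P'.c1 * e0z)
  have m_pi' : P'.pi ∈ L := mem_lin nt m_eta
    (add_mem (add_mem (add_mem (mul_mem m_al1' m_q2) (neg_mem (mul_mem m_al1 m_q2'))) (mul_mem m_f1
      m_g0')) (neg_mem (mul_mem m_eta' m_pi)))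
    (show P.eta * P'.pi + (P'.al1 * P.q2 + -(P.al1 * P'.q2) + P.f1 * P'.g0 + -(P'.eta * P.pi)) = 0
      by
      linear_combination 1 * r9 + (-1) * P.q3 * a0' + (1) * P'.q3 * a0 + (-1) * P'.al2 * q1z + (1)
        * P.al2 * q1z' + (1) * P'.f1 * g0z + (-1) * P'.g1 * f0z + (1) * P.g1 * f0z')
  exact mem_all P P' ⟨m_al0, m_al1, m_al2, m_al3, m_g0, m_g1, m_pi, m_be0, m_be1, m_be2, m_be3,
    m_q1, m_q2, m_q3, m_e0, m_e1, m_ph, m_c0, m_c1, m_f0, m_f1, m_z, m_rho, m_th, m_eta, m_zeta⟩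
    ⟨m_al0', m_al1', m_al2', m_al3', m_g0', m_g1', m_pi', m_be0', m_be1', m_be2', m_be3', m_q1',
      m_q2', m_q3', m_e0', m_e1', m_ph', m_c0', m_c1', m_f0', m_f1', m_z', m_rho', m_th', m_eta',
        m_zeta'⟩

theorem i_a3hd {P P' : Par K} (h : Rel P P')
    (a0 : P.al0 = 0) (a0' : P'.al0 = 0) (b0 : P.be0 = 0) (b0' : P'.be0 = 0) (ze : P.zeta = 0)
    (ze' : P'.zeta = 0) (rh' : P'.rho = 0) (e0z : P.e0 = 0) (g0z : P.g0 = 0) (f0z : P.f0 = 0)
    (f0z' : P'.f0 = 0) (q1z : P.q1 = 0) (q1z' : P'.q1 = 0) (be1z : P.be1 = 0)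
    (nr : P.rho ≠ 0) (nt : P.eta ≠ 0) (nbe : P'.be1 ≠ 0) :
    rk k (Set.range (vals P P')) + 18 ≤ 52 := by
  obtain ⟨r1, r2, r3, r4, r5, r6, r7, r8, r9, r10, r11, r12, r13, r14, r15, r16, r17, r18, r19,
    r20, r21, r22, r23⟩ := h
  simp only [Br] at *
  refine rk_det P P' {.inl .al0, .inr .al0, .inl .be0, .inr .be0, .inl .zeta, .inr .zeta, .inr
    .rho, .inl .e0, .inl .g0, .inl .f0, .inr .f0, .inl .q1, .inr .q1, .inl .be1, .inr .g0, .inr
      .e0, .inr .eta, .inr .th, .inr .ph, .inl .q2, .inr .pi} (by decide) fun L hL => ?_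
  have m_al1 : P.al1 ∈ L := hL (.inl .al1) (by decide)
  have m_al2 : P.al2 ∈ L := hL (.inl .al2) (by decide)
  have m_al3 : P.al3 ∈ L := hL (.inl .al3) (by decide)
  have m_g1 : P.g1 ∈ L := hL (.inl .g1) (by decide)
  have m_pi : P.pi ∈ L := hL (.inl .pi) (by decide)
  have m_be2 : P.be2 ∈ L := hL (.inl .be2) (by decide)
  have m_be3 : P.be3 ∈ L := hL (.inl .be3) (by decide)
  have m_q3 : P.q3 ∈ L := hL (.inl .q3) (by decide)
  have m_e1 : P.e1 ∈ L := hL (.inl .e1) (by decide)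
  have m_ph : P.ph ∈ L := hL (.inl .ph) (by decide)
  have m_c0 : P.c0 ∈ L := hL (.inl .c0) (by decide)
  have m_c1 : P.c1 ∈ L := hL (.inl .c1) (by decide)
  have m_f1 : P.f1 ∈ L := hL (.inl .f1) (by decide)
  have m_z : P.z ∈ L := hL (.inl .z) (by decide)
  have m_rho : P.rho ∈ L := hL (.inl .rho) (by decide)
  have m_th : P.th ∈ L := hL (.inl .th) (by decide)
  have m_eta : P.eta ∈ L := hL (.inl .eta) (by decide)
  have m_al1' : P'.al1 ∈ L := hL (.inr .al1) (by decide)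
  have m_al2' : P'.al2 ∈ L := hL (.inr .al2) (by decide)
  have m_al3' : P'.al3 ∈ L := hL (.inr .al3) (by decide)
  have m_g1' : P'.g1 ∈ L := hL (.inr .g1) (by decide)
  have m_be1' : P'.be1 ∈ L := hL (.inr .be1) (by decide)
  have m_be2' : P'.be2 ∈ L := hL (.inr .be2) (by decide)
  have m_be3' : P'.be3 ∈ L := hL (.inr .be3) (by decide)
  have m_q2' : P'.q2 ∈ L := hL (.inr .q2) (by decide)
  have m_q3' : P'.q3 ∈ L := hL (.inr .q3) (by decide)
  have m_e1' : P'.e1 ∈ L := hL (.inr .e1) (by decide)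
  have m_c0' : P'.c0 ∈ L := hL (.inr .c0) (by decide)
  have m_c1' : P'.c1 ∈ L := hL (.inr .c1) (by decide)
  have m_f1' : P'.f1 ∈ L := hL (.inr .f1) (by decide)
  have m_z' : P'.z ∈ L := hL (.inr .z) (by decide)
  have m_al0 : P.al0 ∈ L := by rw [a0]; exact zero_mem L
  have m_al0' : P'.al0 ∈ L := by rw [a0']; exact zero_mem L
  have m_be0 : P.be0 ∈ L := by rw [b0]; exact zero_mem L
  have m_be0' : P'.be0 ∈ L := by rw [b0']; exact zero_mem L
  have m_zeta : P.zeta ∈ L := by rw [ze]; exact zero_mem L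
  have m_zeta' : P'.zeta ∈ L := by rw [ze']; exact zero_mem L
  have m_rho' : P'.rho ∈ L := by rw [rh']; exact zero_mem L
  have m_e0 : P.e0 ∈ L := by rw [e0z]; exact zero_mem L
  have m_g0 : P.g0 ∈ L := by rw [g0z]; exact zero_mem L
  have m_f0 : P.f0 ∈ L := by rw [f0z]; exact zero_mem L
  have m_f0' : P'.f0 ∈ L := by rw [f0z']; exact zero_mem L
  have m_q1 : P.q1 ∈ L := by rw [q1z]; exact zero_mem L
  have m_q1' : P'.q1 ∈ L := by rw [q1z']; exact zero_mem L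
  have m_be1 : P.be1 ∈ L := by rw [be1z]; exact zero_mem L
  have m_g0' : P'.g0 ∈ L := mem_lin nr m_rho
    (zero_mem L)
    (show P.rho * P'.g0 + (0) = 0 by
      linear_combination 1 * r4 + (-1) * P.ph * a0' + (1) * P'.ph * a0 + (1) * P'.rho * g0z)
  have m_e0' : P'.e0 ∈ L := mem_lin nr m_rho
    (zero_mem L)
    (show P.rho * P'.e0 + (0) = 0 by
      linear_combination 1 * r11 + (1) * P'.rho * e0z)
  have m_eta' : P'.eta ∈ L := mem_lin nr m_rho
    (zero_mem L)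
    (show P.rho * P'.eta + (0) = 0 by
      linear_combination (-1) * r20 + (1) * P'.c0 * a0 + (-1) * P.c0 * a0' + (1) * P.q1 * f0z' +
        (-1) * P'.q1 * f0z + (1) * P'.z * f0z + (-1) * P.z * f0z' + (1) * P.eta * rh')
  have m_th' : P'.th ∈ L := mem_lin nr m_rho
    (add_mem (neg_mem (mul_mem m_c0 m_z')) (mul_mem m_c0' m_z))
    (show P.rho * P'.th + (-(P.c0 * P'.z) + P'.c0 * P.z) = 0 by
      linear_combination (-1) * r21 + (1) * P'.f0 * be1z + (-1) * P'.be1 * f0z + (1) * P'.f1 * b0 +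
        (-1) * P.f1 * b0' + (1) * P.th * rh')
  have m_ph' : P'.ph ∈ L := mem_lin nt m_eta
    (add_mem (add_mem (mul_mem m_al1 m_be1') (mul_mem m_e0' m_f1)) (neg_mem (mul_mem m_eta' m_ph)))
    (show P.eta * P'.ph + (P.al1 * P'.be1 + P'.e0 * P.f1 + -(P'.eta * P.ph)) = 0 by
      linear_combination 1 * r16 + (-1) * P.al2 * b0' + (1) * P'.al2 * b0 + (1) * P'.al1 * be1z +
        (-1) * P'.be2 * a0 + (1) * P.be2 * a0' + (1) * P'.f1 * e0z + (-1) * P'.e1 * f0z + (1) *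
          P.e1 * f0z')
  have m_q2 : P.q2 ∈ L := mem_lin nbe m_be1'
    (add_mem (add_mem (add_mem (add_mem (neg_mem (mul_mem m_c1 m_e0')) (neg_mem (mul_mem m_c0
      m_e1'))) (mul_mem m_c0' m_e1)) (neg_mem (mul_mem m_ph' m_th))) (mul_mem m_ph m_th'))
    (show P'.be1 * P.q2 + (-(P.c1 * P'.e0) + -(P.c0 * P'.e1) + P'.c0 * P.e1 + -(P'.ph * P.th) +
      P.ph * P'.th) = 0 by
      linear_combination (-1) * r17 + (1) * P.be2 * q1z' + (-1) * P'.be2 * q1z + (1) * P'.q2 * be1z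
        + (1) * P'.q3 * b0 + (-1) * P.q3 * b0' + (-1) * P'.c1 * e0z)
  have m_pi' : P'.pi ∈ L := mem_lin nt m_eta
    (add_mem (add_mem (add_mem (mul_mem m_al1' m_q2) (neg_mem (mul_mem m_al1 m_q2'))) (mul_mem m_f1
      m_g0')) (neg_mem (mul_mem m_eta' m_pi)))
    (show P.eta * P'.pi + (P'.al1 * P.q2 + -(P.al1 * P'.q2) + P.f1 * P'.g0 + -(P'.eta * P.pi)) = 0
      by
      linear_combination 1 * r9 + (-1) * P.q3 * a0' + (1) * P'.q3 * a0 + (-1) * P'.al2 * q1z + (1)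
        * P.al2 * q1z' + (1) * P'.f1 * g0z + (-1) * P'.g1 * f0z + (1) * P.g1 * f0z')
  exact mem_all P P' ⟨m_al0, m_al1, m_al2, m_al3, m_g0, m_g1, m_pi, m_be0, m_be1, m_be2, m_be3,
    m_q1, m_q2, m_q3, m_e0, m_e1, m_ph, m_c0, m_c1, m_f0, m_f1, m_z, m_rho, m_th, m_eta, m_zeta⟩
    ⟨m_al0', m_al1', m_al2', m_al3', m_g0', m_g1', m_pi', m_be0', m_be1', m_be2', m_be3', m_q1',
      m_q2', m_q3', m_e0', m_e1', m_ph', m_c0', m_c1', m_f0', m_f1', m_z', m_rho', m_th', m_eta',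
        m_zeta'⟩

theorem i_a3he {P P' : Par K} (h : Rel P P')
    (a0 : P.al0 = 0) (a0' : P'.al0 = 0) (b0 : P.be0 = 0) (b0' : P'.be0 = 0) (ze : P.zeta = 0)
    (ze' : P'.zeta = 0) (rh' : P'.rho = 0) (e0z : P.e0 = 0) (g0z : P.g0 = 0) (f0z : P.f0 = 0)
    (f0z' : P'.f0 = 0) (q1z : P.q1 = 0) (q1z' : P'.q1 = 0) (be1z : P.be1 = 0)
    (be1z' : P'.be1 = 0)
    (nr : P.rho ≠ 0) (nt : P.eta ≠ 0) :
    rk k (Set.range (vals P P')) + 18 ≤ 52 := by
  obtain ⟨r1, r2, r3, r4, r5, r6, r7, r8, r9, r10, r11, r12, r13, r14, r15, r16, r17, r18, r19,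
    r20, r21, r22, r23⟩ := h
  simp only [Br] at *
  refine rk_det P P' {.inl .al0, .inr .al0, .inl .be0, .inr .be0, .inl .zeta, .inr .zeta, .inr
    .rho, .inl .e0, .inl .g0, .inl .f0, .inr .f0, .inl .q1, .inr .q1, .inl .be1, .inr .be1, .inr
      .g0, .inr .e0, .inr .eta, .inr .th, .inr .ph, .inr .pi} (by decide) fun L hL => ?_
  have m_al1 : P.al1 ∈ L := hL (.inl .al1) (by decide)
  have m_al2 : P.al2 ∈ L := hL (.inl .al2) (by decide)
  have m_al3 : P.al3 ∈ L := hL (.inl .al3) (by decide)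
  have m_g1 : P.g1 ∈ L := hL (.inl .g1) (by decide)
  have m_pi : P.pi ∈ L := hL (.inl .pi) (by decide)
  have m_be2 : P.be2 ∈ L := hL (.inl .be2) (by decide)
  have m_be3 : P.be3 ∈ L := hL (.inl .be3) (by decide)
  have m_q2 : P.q2 ∈ L := hL (.inl .q2) (by decide)
  have m_q3 : P.q3 ∈ L := hL (.inl .q3) (by decide)
  have m_e1 : P.e1 ∈ L := hL (.inl .e1) (by decide)
  have m_ph : P.ph ∈ L := hL (.inl .ph) (by decide)
  have m_c0 : P.c0 ∈ L := hL (.inl .c0) (by decide)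
  have m_c1 : P.c1 ∈ L := hL (.inl .c1) (by decide)
  have m_f1 : P.f1 ∈ L := hL (.inl .f1) (by decide)
  have m_z : P.z ∈ L := hL (.inl .z) (by decide)
  have m_rho : P.rho ∈ L := hL (.inl .rho) (by decide)
  have m_th : P.th ∈ L := hL (.inl .th) (by decide)
  have m_eta : P.eta ∈ L := hL (.inl .eta) (by decide)
  have m_al1' : P'.al1 ∈ L := hL (.inr .al1) (by decide)
  have m_al2' : P'.al2 ∈ L := hL (.inr .al2) (by decide)
  have m_al3' : P'.al3 ∈ L := hL (.inr .al3) (by decide)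
  have m_g1' : P'.g1 ∈ L := hL (.inr .g1) (by decide)
  have m_be2' : P'.be2 ∈ L := hL (.inr .be2) (by decide)
  have m_be3' : P'.be3 ∈ L := hL (.inr .be3) (by decide)
  have m_q2' : P'.q2 ∈ L := hL (.inr .q2) (by decide)
  have m_q3' : P'.q3 ∈ L := hL (.inr .q3) (by decide)
  have m_e1' : P'.e1 ∈ L := hL (.inr .e1) (by decide)
  have m_c0' : P'.c0 ∈ L := hL (.inr .c0) (by decide)
  have m_c1' : P'.c1 ∈ L := hL (.inr .c1) (by decide)
  have m_f1' : P'.f1 ∈ L := hL (.inr .f1) (by decide)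
  have m_z' : P'.z ∈ L := hL (.inr .z) (by decide)
  have m_al0 : P.al0 ∈ L := by rw [a0]; exact zero_mem L
  have m_al0' : P'.al0 ∈ L := by rw [a0']; exact zero_mem L
  have m_be0 : P.be0 ∈ L := by rw [b0]; exact zero_mem L
  have m_be0' : P'.be0 ∈ L := by rw [b0']; exact zero_mem L
  have m_zeta : P.zeta ∈ L := by rw [ze]; exact zero_mem L
  have m_zeta' : P'.zeta ∈ L := by rw [ze']; exact zero_mem L
  have m_rho' : P'.rho ∈ L := by rw [rh']; exact zero_mem L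
  have m_e0 : P.e0 ∈ L := by rw [e0z]; exact zero_mem L
  have m_g0 : P.g0 ∈ L := by rw [g0z]; exact zero_mem L
  have m_f0 : P.f0 ∈ L := by rw [f0z]; exact zero_mem L
  have m_f0' : P'.f0 ∈ L := by rw [f0z']; exact zero_mem L
  have m_q1 : P.q1 ∈ L := by rw [q1z]; exact zero_mem L
  have m_q1' : P'.q1 ∈ L := by rw [q1z']; exact zero_mem L
  have m_be1 : P.be1 ∈ L := by rw [be1z]; exact zero_mem L
  have m_be1' : P'.be1 ∈ L := by rw [be1z']; exact zero_mem L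
  have m_g0' : P'.g0 ∈ L := mem_lin nr m_rho
    (zero_mem L)
    (show P.rho * P'.g0 + (0) = 0 by
      linear_combination 1 * r4 + (-1) * P.ph * a0' + (1) * P'.ph * a0 + (1) * P'.rho * g0z)
  have m_e0' : P'.e0 ∈ L := mem_lin nr m_rho
    (zero_mem L)
    (show P.rho * P'.e0 + (0) = 0 by
      linear_combination 1 * r11 + (1) * P'.rho * e0z)
  have m_eta' : P'.eta ∈ L := mem_lin nr m_rho
    (zero_mem L)
    (show P.rho * P'.eta + (0) = 0 by
      linear_combination (-1) * r20 + (1) * P'.c0 * a0 + (-1) * P.c0 * a0' + (1) * P.q1 * f0z' +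
        (-1) * P'.q1 * f0z + (1) * P'.z * f0z + (-1) * P.z * f0z' + (1) * P.eta * rh')
  have m_th' : P'.th ∈ L := mem_lin nr m_rho
    (add_mem (neg_mem (mul_mem m_c0 m_z')) (mul_mem m_c0' m_z))
    (show P.rho * P'.th + (-(P.c0 * P'.z) + P'.c0 * P.z) = 0 by
      linear_combination (-1) * r21 + (1) * P'.f0 * be1z + (-1) * P.f0 * be1z' + (1) * P'.f1 * b0 +
        (-1) * P.f1 * b0' + (1) * P.th * rh')
  have m_ph' : P'.ph ∈ L := mem_lin nt m_eta
    (add_mem (mul_mem m_e0' m_f1) (neg_mem (mul_mem m_eta' m_ph)))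
    (show P.eta * P'.ph + (P'.e0 * P.f1 + -(P'.eta * P.ph)) = 0 by
      linear_combination 1 * r16 + (-1) * P.al2 * b0' + (1) * P'.al2 * b0 + (-1) * P.al1 * be1z' +
        (1) * P'.al1 * be1z + (-1) * P'.be2 * a0 + (1) * P.be2 * a0' + (1) * P'.f1 * e0z + (-1) *
          P'.e1 * f0z + (1) * P.e1 * f0z')
  have m_pi' : P'.pi ∈ L := mem_lin nt m_eta
    (add_mem (add_mem (add_mem (mul_mem m_al1' m_q2) (neg_mem (mul_mem m_al1 m_q2'))) (mul_mem m_f1
      m_g0')) (neg_mem (mul_mem m_eta' m_pi)))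
    (show P.eta * P'.pi + (P'.al1 * P.q2 + -(P.al1 * P'.q2) + P.f1 * P'.g0 + -(P'.eta * P.pi)) = 0
      by
      linear_combination 1 * r9 + (-1) * P.q3 * a0' + (1) * P'.q3 * a0 + (-1) * P'.al2 * q1z + (1)
        * P.al2 * q1z' + (1) * P'.f1 * g0z + (-1) * P'.g1 * f0z + (1) * P.g1 * f0z')
  exact mem_all P P' ⟨m_al0, m_al1, m_al2, m_al3, m_g0, m_g1, m_pi, m_be0, m_be1, m_be2, m_be3,
    m_q1, m_q2, m_q3, m_e0, m_e1, m_ph, m_c0, m_c1, m_f0, m_f1, m_z, m_rho, m_th, m_eta, m_zeta⟩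
    ⟨m_al0', m_al1', m_al2', m_al3', m_g0', m_g1', m_pi', m_be0', m_be1', m_be2', m_be3', m_q1',
      m_q2', m_q3', m_e0', m_e1', m_ph', m_c0', m_c1', m_f0', m_f1', m_z', m_rho', m_th', m_eta',
        m_zeta'⟩

theorem i_a3ka {P P' : Par K} (h : Rel P P')
    (a0 : P.al0 = 0) (a0' : P'.al0 = 0) (b0 : P.be0 = 0) (b0' : P'.be0 = 0) (ze : P.zeta = 0)
    (ze' : P'.zeta = 0) (rh' : P'.rho = 0) (e0z : P.e0 = 0) (g0z : P.g0 = 0) (f0z : P.f0 = 0)
    (f0z' : P'.f0 = 0) (tz : P.eta = 0)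
    (nr : P.rho ≠ 0) (nq : P.q1 ≠ 0) :
    rk k (Set.range (vals P P')) + 18 ≤ 52 := by
  obtain ⟨r1, r2, r3, r4, r5, r6, r7, r8, r9, r10, r11, r12, r13, r14, r15, r16, r17, r18, r19,
    r20, r21, r22, r23⟩ := h
  simp only [Br] at *
  refine rk_det P P' {.inl .al0, .inr .al0, .inl .be0, .inr .be0, .inl .zeta, .inr .zeta, .inr
    .rho, .inl .e0, .inl .g0, .inl .f0, .inr .f0, .inl .eta, .inr .g0, .inr .e0, .inr .al1, .inr
      .be1, .inr .eta, .inr .th, .inr .be2} (by decide) fun L hL => ?_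
  have m_al1 : P.al1 ∈ L := hL (.inl .al1) (by decide)
  have m_al2 : P.al2 ∈ L := hL (.inl .al2) (by decide)
  have m_al3 : P.al3 ∈ L := hL (.inl .al3) (by decide)
  have m_g1 : P.g1 ∈ L := hL (.inl .g1) (by decide)
  have m_pi : P.pi ∈ L := hL (.inl .pi) (by decide)
  have m_be1 : P.be1 ∈ L := hL (.inl .be1) (by decide)
  have m_be2 : P.be2 ∈ L := hL (.inl .be2) (by decide)
  have m_be3 : P.be3 ∈ L := hL (.inl .be3) (by decide)
  have m_q1 : P.q1 ∈ L := hL (.inl .q1) (by decide)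
  have m_q2 : P.q2 ∈ L := hL (.inl .q2) (by decide)
  have m_q3 : P.q3 ∈ L := hL (.inl .q3) (by decide)
  have m_e1 : P.e1 ∈ L := hL (.inl .e1) (by decide)
  have m_ph : P.ph ∈ L := hL (.inl .ph) (by decide)
  have m_c0 : P.c0 ∈ L := hL (.inl .c0) (by decide)
  have m_c1 : P.c1 ∈ L := hL (.inl .c1) (by decide)
  have m_f1 : P.f1 ∈ L := hL (.inl .f1) (by decide)
  have m_z : P.z ∈ L := hL (.inl .z) (by decide)
  have m_rho : P.rho ∈ L := hL (.inl .rho) (by decide)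
  have m_th : P.th ∈ L := hL (.inl .th) (by decide)
  have m_al2' : P'.al2 ∈ L := hL (.inr .al2) (by decide)
  have m_al3' : P'.al3 ∈ L := hL (.inr .al3) (by decide)
  have m_g1' : P'.g1 ∈ L := hL (.inr .g1) (by decide)
  have m_pi' : P'.pi ∈ L := hL (.inr .pi) (by decide)
  have m_be3' : P'.be3 ∈ L := hL (.inr .be3) (by decide)
  have m_q1' : P'.q1 ∈ L := hL (.inr .q1) (by decide)
  have m_q2' : P'.q2 ∈ L := hL (.inr .q2) (by decide)
  have m_q3' : P'.q3 ∈ L := hL (.inr .q3) (by decide)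
  have m_e1' : P'.e1 ∈ L := hL (.inr .e1) (by decide)
  have m_ph' : P'.ph ∈ L := hL (.inr .ph) (by decide)
  have m_c0' : P'.c0 ∈ L := hL (.inr .c0) (by decide)
  have m_c1' : P'.c1 ∈ L := hL (.inr .c1) (by decide)
  have m_f1' : P'.f1 ∈ L := hL (.inr .f1) (by decide)
  have m_z' : P'.z ∈ L := hL (.inr .z) (by decide)
  have m_al0 : P.al0 ∈ L := by rw [a0]; exact zero_mem L
  have m_al0' : P'.al0 ∈ L := by rw [a0']; exact zero_mem L
  have m_be0 : P.be0 ∈ L := by rw [b0]; exact zero_mem L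
  have m_be0' : P'.be0 ∈ L := by rw [b0']; exact zero_mem L
  have m_zeta : P.zeta ∈ L := by rw [ze]; exact zero_mem L
  have m_zeta' : P'.zeta ∈ L := by rw [ze']; exact zero_mem L
  have m_rho' : P'.rho ∈ L := by rw [rh']; exact zero_mem L
  have m_e0 : P.e0 ∈ L := by rw [e0z]; exact zero_mem L
  have m_g0 : P.g0 ∈ L := by rw [g0z]; exact zero_mem L
  have m_f0 : P.f0 ∈ L := by rw [f0z]; exact zero_mem L
  have m_f0' : P'.f0 ∈ L := by rw [f0z']; exact zero_mem L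
  have m_eta : P.eta ∈ L := by rw [tz]; exact zero_mem L
  have m_g0' : P'.g0 ∈ L := mem_lin nr m_rho
    (zero_mem L)
    (show P.rho * P'.g0 + (0) = 0 by
      linear_combination 1 * r4 + (-1) * P.ph * a0' + (1) * P'.ph * a0 + (1) * P'.rho * g0z)
  have m_e0' : P'.e0 ∈ L := mem_lin nr m_rho
    (zero_mem L)
    (show P.rho * P'.e0 + (0) = 0 by
      linear_combination 1 * r11 + (1) * P'.rho * e0z)
  have m_al1' : P'.al1 ∈ L := mem_lin nq m_q1
    (neg_mem (mul_mem m_al1 m_q1'))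
    (show P.q1 * P'.al1 + (-(P.al1 * P'.q1)) = 0 by
      linear_combination 1 * r7 + (-1) * P.q2 * a0' + (1) * P'.q2 * a0 + (-1) * P'.g0 * f0z + (1) *
        P.g0 * f0z')
  have m_be1' : P'.be1 ∈ L := mem_lin nq m_q1
    (add_mem (neg_mem (mul_mem m_be1 m_q1')) (neg_mem (mul_mem m_c0 m_e0')))
    (show P.q1 * P'.be1 + (-(P.be1 * P'.q1) + -(P.c0 * P'.e0)) = 0 by
      linear_combination (-1) * r15 + (1) * P'.q2 * b0 + (-1) * P.q2 * b0' + (-1) * P'.c0 * e0z)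
  have m_eta' : P'.eta ∈ L := mem_lin nr m_rho
    (zero_mem L)
    (show P.rho * P'.eta + (0) = 0 by
      linear_combination (-1) * r20 + (1) * P'.c0 * a0 + (-1) * P.c0 * a0' + (1) * P.q1 * f0z' +
        (-1) * P'.q1 * f0z + (1) * P'.z * f0z + (-1) * P.z * f0z' + (1) * P'.rho * tz)
  have m_th' : P'.th ∈ L := mem_lin nr m_rho
    (add_mem (neg_mem (mul_mem m_c0 m_z')) (mul_mem m_c0' m_z))
    (show P.rho * P'.th + (-(P.c0 * P'.z) + P'.c0 * P.z) = 0 by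
      linear_combination (-1) * r21 + (1) * P.be1 * f0z' + (-1) * P'.be1 * f0z + (1) * P'.f1 * b0 +
        (-1) * P.f1 * b0' + (1) * P.th * rh')
  have m_be2' : P'.be2 ∈ L := mem_lin nq m_q1
    (add_mem (add_mem (add_mem (add_mem (add_mem (add_mem (add_mem (neg_mem (mul_mem m_be2 m_q1'))
      (neg_mem (mul_mem m_be1 m_q2'))) (mul_mem m_be1' m_q2)) (neg_mem (mul_mem m_c1 m_e0')))
        (neg_mem (mul_mem m_c0 m_e1'))) (mul_mem m_c0' m_e1)) (neg_mem (mul_mem m_ph' m_th)))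
          (mul_mem m_ph m_th'))
    (show P.q1 * P'.be2 + (-(P.be2 * P'.q1) + -(P.be1 * P'.q2) + P'.be1 * P.q2 + -(P.c1 * P'.e0) +
      -(P.c0 * P'.e1) + P'.c0 * P.e1 + -(P'.ph * P.th) + P.ph * P'.th) = 0 by
      linear_combination (-1) * r17 + (1) * P'.q3 * b0 + (-1) * P.q3 * b0' + (-1) * P'.c1 * e0z)
  exact mem_all P P' ⟨m_al0, m_al1, m_al2, m_al3, m_g0, m_g1, m_pi, m_be0, m_be1, m_be2, m_be3,
    m_q1, m_q2, m_q3, m_e0, m_e1, m_ph, m_c0, m_c1, m_f0, m_f1, m_z, m_rho, m_th, m_eta, m_zeta⟩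
    ⟨m_al0', m_al1', m_al2', m_al3', m_g0', m_g1', m_pi', m_be0', m_be1', m_be2', m_be3', m_q1',
      m_q2', m_q3', m_e0', m_e1', m_ph', m_c0', m_c1', m_f0', m_f1', m_z', m_rho', m_th', m_eta',
        m_zeta'⟩

theorem i_a3kb {P P' : Par K} (h : Rel P P')
    (a0 : P.al0 = 0) (a0' : P'.al0 = 0) (b0 : P.be0 = 0) (b0' : P'.be0 = 0) (ze : P.zeta = 0)
    (ze' : P'.zeta = 0) (rh' : P'.rho = 0) (e0z : P.e0 = 0) (g0z : P.g0 = 0) (f0z : P.f0 = 0)
    (f0z' : P'.f0 = 0) (tz : P.eta = 0) (q1z : P.q1 = 0)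
    (nr : P.rho ≠ 0) (nq : P'.q1 ≠ 0) :
    rk k (Set.range (vals P P')) + 18 ≤ 52 := by
  obtain ⟨r1, r2, r3, r4, r5, r6, r7, r8, r9, r10, r11, r12, r13, r14, r15, r16, r17, r18, r19,
    r20, r21, r22, r23⟩ := h
  simp only [Br] at *
  refine rk_det P P' {.inl .al0, .inr .al0, .inl .be0, .inr .be0, .inl .zeta, .inr .zeta, .inr
    .rho, .inl .e0, .inl .g0, .inl .f0, .inr .f0, .inl .eta, .inl .q1, .inr .g0, .inr .e0, .inl
      .al1, .inl .be1, .inr .eta, .inr .th, .inl .be2} (by decide) fun L hL => ?_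
  have m_al2 : P.al2 ∈ L := hL (.inl .al2) (by decide)
  have m_al3 : P.al3 ∈ L := hL (.inl .al3) (by decide)
  have m_g1 : P.g1 ∈ L := hL (.inl .g1) (by decide)
  have m_pi : P.pi ∈ L := hL (.inl .pi) (by decide)
  have m_be3 : P.be3 ∈ L := hL (.inl .be3) (by decide)
  have m_q2 : P.q2 ∈ L := hL (.inl .q2) (by decide)
  have m_q3 : P.q3 ∈ L := hL (.inl .q3) (by decide)
  have m_e1 : P.e1 ∈ L := hL (.inl .e1) (by decide)
  have m_ph : P.ph ∈ L := hL (.inl .ph) (by decide)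
  have m_c0 : P.c0 ∈ L := hL (.inl .c0) (by decide)
  have m_c1 : P.c1 ∈ L := hL (.inl .c1) (by decide)
  have m_f1 : P.f1 ∈ L := hL (.inl .f1) (by decide)
  have m_z : P.z ∈ L := hL (.inl .z) (by decide)
  have m_rho : P.rho ∈ L := hL (.inl .rho) (by decide)
  have m_th : P.th ∈ L := hL (.inl .th) (by decide)
  have m_al1' : P'.al1 ∈ L := hL (.inr .al1) (by decide)
  have m_al2' : P'.al2 ∈ L := hL (.inr .al2) (by decide)
  have m_al3' : P'.al3 ∈ L := hL (.inr .al3) (by decide)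
  have m_g1' : P'.g1 ∈ L := hL (.inr .g1) (by decide)
  have m_pi' : P'.pi ∈ L := hL (.inr .pi) (by decide)
  have m_be1' : P'.be1 ∈ L := hL (.inr .be1) (by decide)
  have m_be2' : P'.be2 ∈ L := hL (.inr .be2) (by decide)
  have m_be3' : P'.be3 ∈ L := hL (.inr .be3) (by decide)
  have m_q1' : P'.q1 ∈ L := hL (.inr .q1) (by decide)
  have m_q2' : P'.q2 ∈ L := hL (.inr .q2) (by decide)
  have m_q3' : P'.q3 ∈ L := hL (.inr .q3) (by decide)
  have m_e1' : P'.e1 ∈ L := hL (.inr .e1) (by decide)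
  have m_ph' : P'.ph ∈ L := hL (.inr .ph) (by decide)
  have m_c0' : P'.c0 ∈ L := hL (.inr .c0) (by decide)
  have m_c1' : P'.c1 ∈ L := hL (.inr .c1) (by decide)
  have m_f1' : P'.f1 ∈ L := hL (.inr .f1) (by decide)
  have m_z' : P'.z ∈ L := hL (.inr .z) (by decide)
  have m_al0 : P.al0 ∈ L := by rw [a0]; exact zero_mem L
  have m_al0' : P'.al0 ∈ L := by rw [a0']; exact zero_mem L
  have m_be0 : P.be0 ∈ L := by rw [b0]; exact zero_mem L
  have m_be0' : P'.be0 ∈ L := by rw [b0']; exact zero_mem L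
  have m_zeta : P.zeta ∈ L := by rw [ze]; exact zero_mem L
  have m_zeta' : P'.zeta ∈ L := by rw [ze']; exact zero_mem L
  have m_rho' : P'.rho ∈ L := by rw [rh']; exact zero_mem L
  have m_e0 : P.e0 ∈ L := by rw [e0z]; exact zero_mem L
  have m_g0 : P.g0 ∈ L := by rw [g0z]; exact zero_mem L
  have m_f0 : P.f0 ∈ L := by rw [f0z]; exact zero_mem L
  have m_f0' : P'.f0 ∈ L := by rw [f0z']; exact zero_mem L
  have m_eta : P.eta ∈ L := by rw [tz]; exact zero_mem L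
  have m_q1 : P.q1 ∈ L := by rw [q1z]; exact zero_mem L
  have m_g0' : P'.g0 ∈ L := mem_lin nr m_rho
    (zero_mem L)
    (show P.rho * P'.g0 + (0) = 0 by
      linear_combination 1 * r4 + (-1) * P.ph * a0' + (1) * P'.ph * a0 + (1) * P'.rho * g0z)
  have m_e0' : P'.e0 ∈ L := mem_lin nr m_rho
    (zero_mem L)
    (show P.rho * P'.e0 + (0) = 0 by
      linear_combination 1 * r11 + (1) * P'.rho * e0z)
  have m_al1 : P.al1 ∈ L := mem_lin nq m_q1'
    (zero_mem L)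
    (show P'.q1 * P.al1 + (0) = 0 by
      linear_combination (-1) * r7 + (1) * P.q2 * a0' + (-1) * P'.q2 * a0 + (1) * P'.al1 * q1z +
        (1) * P'.g0 * f0z + (-1) * P.g0 * f0z')
  have m_be1 : P.be1 ∈ L := mem_lin nq m_q1'
    (mul_mem m_c0 m_e0')
    (show P'.q1 * P.be1 + (P.c0 * P'.e0) = 0 by
      linear_combination 1 * r15 + (1) * P'.be1 * q1z + (-1) * P'.q2 * b0 + (1) * P.q2 * b0' + (1)
        * P'.c0 * e0z)
  have m_eta' : P'.eta ∈ L := mem_lin nr m_rho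
    (zero_mem L)
    (show P.rho * P'.eta + (0) = 0 by
      linear_combination (-1) * r20 + (1) * P'.c0 * a0 + (-1) * P.c0 * a0' + (1) * P.q1 * f0z' +
        (-1) * P'.q1 * f0z + (1) * P'.z * f0z + (-1) * P.z * f0z' + (1) * P'.rho * tz)
  have m_th' : P'.th ∈ L := mem_lin nr m_rho
    (add_mem (neg_mem (mul_mem m_c0 m_z')) (mul_mem m_c0' m_z))
    (show P.rho * P'.th + (-(P.c0 * P'.z) + P'.c0 * P.z) = 0 by
      linear_combination (-1) * r21 + (1) * P.be1 * f0z' + (-1) * P'.be1 * f0z + (1) * P'.f1 * b0 +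
        (-1) * P.f1 * b0' + (1) * P.th * rh')
  have m_be2 : P.be2 ∈ L := mem_lin nq m_q1'
    (add_mem (add_mem (add_mem (add_mem (add_mem (add_mem (mul_mem m_be1 m_q2') (neg_mem (mul_mem
      m_be1' m_q2))) (mul_mem m_c1 m_e0')) (mul_mem m_c0 m_e1')) (neg_mem (mul_mem m_c0' m_e1)))
        (mul_mem m_ph' m_th)) (neg_mem (mul_mem m_ph m_th')))
    (show P'.q1 * P.be2 + (P.be1 * P'.q2 + -(P'.be1 * P.q2) + P.c1 * P'.e0 + P.c0 * P'.e1 + -(P'.c0
      * P.e1) + P'.ph * P.th + -(P.ph * P'.th)) = 0 by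
      linear_combination 1 * r17 + (1) * P'.be2 * q1z + (-1) * P'.q3 * b0 + (1) * P.q3 * b0' + (1)
        * P'.c1 * e0z)
  exact mem_all P P' ⟨m_al0, m_al1, m_al2, m_al3, m_g0, m_g1, m_pi, m_be0, m_be1, m_be2, m_be3,
    m_q1, m_q2, m_q3, m_e0, m_e1, m_ph, m_c0, m_c1, m_f0, m_f1, m_z, m_rho, m_th, m_eta, m_zeta⟩
    ⟨m_al0', m_al1', m_al2', m_al3', m_g0', m_g1', m_pi', m_be0', m_be1', m_be2', m_be3', m_q1',
      m_q2', m_q3', m_e0', m_e1', m_ph', m_c0', m_c1', m_f0', m_f1', m_z', m_rho', m_th', m_eta',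
        m_zeta'⟩

theorem i_a3kc {P P' : Par K} (h : Rel P P')
    (a0 : P.al0 = 0) (a0' : P'.al0 = 0) (b0 : P.be0 = 0) (b0' : P'.be0 = 0) (ze : P.zeta = 0)
    (ze' : P'.zeta = 0) (rh' : P'.rho = 0) (e0z : P.e0 = 0) (g0z : P.g0 = 0) (f0z : P.f0 = 0)
    (f0z' : P'.f0 = 0) (tz : P.eta = 0) (q1z : P.q1 = 0) (q1z' : P'.q1 = 0)
    (nr : P.rho ≠ 0) (nbe : P.be1 ≠ 0) :
    rk k (Set.range (vals P P')) + 18 ≤ 52 := by
  obtain ⟨r1, r2, r3, r4, r5, r6, r7, r8, r9, r10, r11, r12, r13, r14, r15, r16, r17, r18, r19,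
    r20, r21, r22, r23⟩ := h
  simp only [Br] at *
  refine rk_det P P' {.inl .al0, .inr .al0, .inl .be0, .inr .be0, .inl .zeta, .inr .zeta, .inr
    .rho, .inl .e0, .inl .g0, .inl .f0, .inr .f0, .inl .eta, .inl .q1, .inr .q1, .inr .g0, .inr
      .e0, .inr .eta, .inr .th, .inr .q2} (by decide) fun L hL => ?_
  have m_al1 : P.al1 ∈ L := hL (.inl .al1) (by decide)
  have m_al2 : P.al2 ∈ L := hL (.inl .al2) (by decide)
  have m_al3 : P.al3 ∈ L := hL (.inl .al3) (by decide)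
  have m_g1 : P.g1 ∈ L := hL (.inl .g1) (by decide)
  have m_pi : P.pi ∈ L := hL (.inl .pi) (by decide)
  have m_be1 : P.be1 ∈ L := hL (.inl .be1) (by decide)
  have m_be2 : P.be2 ∈ L := hL (.inl .be2) (by decide)
  have m_be3 : P.be3 ∈ L := hL (.inl .be3) (by decide)
  have m_q2 : P.q2 ∈ L := hL (.inl .q2) (by decide)
  have m_q3 : P.q3 ∈ L := hL (.inl .q3) (by decide)
  have m_e1 : P.e1 ∈ L := hL (.inl .e1) (by decide)
  have m_ph : P.ph ∈ L := hL (.inl .ph) (by decide)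
  have m_c0 : P.c0 ∈ L := hL (.inl .c0) (by decide)
  have m_c1 : P.c1 ∈ L := hL (.inl .c1) (by decide)
  have m_f1 : P.f1 ∈ L := hL (.inl .f1) (by decide)
  have m_z : P.z ∈ L := hL (.inl .z) (by decide)
  have m_rho : P.rho ∈ L := hL (.inl .rho) (by decide)
  have m_th : P.th ∈ L := hL (.inl .th) (by decide)
  have m_al1' : P'.al1 ∈ L := hL (.inr .al1) (by decide)
  have m_al2' : P'.al2 ∈ L := hL (.inr .al2) (by decide)
  have m_al3' : P'.al3 ∈ L := hL (.inr .al3) (by decide)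
  have m_g1' : P'.g1 ∈ L := hL (.inr .g1) (by decide)
  have m_pi' : P'.pi ∈ L := hL (.inr .pi) (by decide)
  have m_be1' : P'.be1 ∈ L := hL (.inr .be1) (by decide)
  have m_be2' : P'.be2 ∈ L := hL (.inr .be2) (by decide)
  have m_be3' : P'.be3 ∈ L := hL (.inr .be3) (by decide)
  have m_q3' : P'.q3 ∈ L := hL (.inr .q3) (by decide)
  have m_e1' : P'.e1 ∈ L := hL (.inr .e1) (by decide)
  have m_ph' : P'.ph ∈ L := hL (.inr .ph) (by decide)
  have m_c0' : P'.c0 ∈ L := hL (.inr .c0) (by decide)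
  have m_c1' : P'.c1 ∈ L := hL (.inr .c1) (by decide)
  have m_f1' : P'.f1 ∈ L := hL (.inr .f1) (by decide)
  have m_z' : P'.z ∈ L := hL (.inr .z) (by decide)
  have m_al0 : P.al0 ∈ L := by rw [a0]; exact zero_mem L
  have m_al0' : P'.al0 ∈ L := by rw [a0']; exact zero_mem L
  have m_be0 : P.be0 ∈ L := by rw [b0]; exact zero_mem L
  have m_be0' : P'.be0 ∈ L := by rw [b0']; exact zero_mem L
  have m_zeta : P.zeta ∈ L := by rw [ze]; exact zero_mem L
  have m_zeta' : P'.zeta ∈ L := by rw [ze']; exact zero_mem L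
  have m_rho' : P'.rho ∈ L := by rw [rh']; exact zero_mem L
  have m_e0 : P.e0 ∈ L := by rw [e0z]; exact zero_mem L
  have m_g0 : P.g0 ∈ L := by rw [g0z]; exact zero_mem L
  have m_f0 : P.f0 ∈ L := by rw [f0z]; exact zero_mem L
  have m_f0' : P'.f0 ∈ L := by rw [f0z']; exact zero_mem L
  have m_eta : P.eta ∈ L := by rw [tz]; exact zero_mem L
  have m_q1 : P.q1 ∈ L := by rw [q1z]; exact zero_mem L
  have m_q1' : P'.q1 ∈ L := by rw [q1z']; exact zero_mem L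
  have m_g0' : P'.g0 ∈ L := mem_lin nr m_rho
    (zero_mem L)
    (show P.rho * P'.g0 + (0) = 0 by
      linear_combination 1 * r4 + (-1) * P.ph * a0' + (1) * P'.ph * a0 + (1) * P'.rho * g0z)
  have m_e0' : P'.e0 ∈ L := mem_lin nr m_rho
    (zero_mem L)
    (show P.rho * P'.e0 + (0) = 0 by
      linear_combination 1 * r11 + (1) * P'.rho * e0z)
  have m_eta' : P'.eta ∈ L := mem_lin nr m_rho
    (zero_mem L)
    (show P.rho * P'.eta + (0) = 0 by
      linear_combination (-1) * r20 + (1) * P'.c0 * a0 + (-1) * P.c0 * a0' + (1) * P.q1 * f0z' +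
        (-1) * P'.q1 * f0z + (1) * P'.z * f0z + (-1) * P.z * f0z' + (1) * P'.rho * tz)
  have m_th' : P'.th ∈ L := mem_lin nr m_rho
    (add_mem (neg_mem (mul_mem m_c0 m_z')) (mul_mem m_c0' m_z))
    (show P.rho * P'.th + (-(P.c0 * P'.z) + P'.c0 * P.z) = 0 by
      linear_combination (-1) * r21 + (1) * P.be1 * f0z' + (-1) * P'.be1 * f0z + (1) * P'.f1 * b0 +
        (-1) * P.f1 * b0' + (1) * P.th * rh')
  have m_q2' : P'.q2 ∈ L := mem_lin nbe m_be1
    (add_mem (add_mem (add_mem (add_mem (add_mem (neg_mem (mul_mem m_be1' m_q2)) (mul_mem m_c1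
      m_e0')) (mul_mem m_c0 m_e1')) (neg_mem (mul_mem m_c0' m_e1))) (mul_mem m_ph' m_th)) (neg_mem
        (mul_mem m_ph m_th')))
    (show P.be1 * P'.q2 + (-(P'.be1 * P.q2) + P.c1 * P'.e0 + P.c0 * P'.e1 + -(P'.c0 * P.e1) + P'.ph
      * P.th + -(P.ph * P'.th)) = 0 by
      linear_combination 1 * r17 + (-1) * P.be2 * q1z' + (1) * P'.be2 * q1z + (-1) * P'.q3 * b0 +
        (1) * P.q3 * b0' + (1) * P'.c1 * e0z)
  exact mem_all P P' ⟨m_al0, m_al1, m_al2, m_al3, m_g0, m_g1, m_pi, m_be0, m_be1, m_be2, m_be3,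
    m_q1, m_q2, m_q3, m_e0, m_e1, m_ph, m_c0, m_c1, m_f0, m_f1, m_z, m_rho, m_th, m_eta, m_zeta⟩
    ⟨m_al0', m_al1', m_al2', m_al3', m_g0', m_g1', m_pi', m_be0', m_be1', m_be2', m_be3', m_q1',
      m_q2', m_q3', m_e0', m_e1', m_ph', m_c0', m_c1', m_f0', m_f1', m_z', m_rho', m_th', m_eta',
        m_zeta'⟩

theorem i_a3kd {P P' : Par K} (h : Rel P P')
    (a0 : P.al0 = 0) (a0' : P'.al0 = 0) (b0 : P.be0 = 0) (b0' : P'.be0 = 0) (ze : P.zeta = 0)
    (ze' : P'.zeta = 0) (rh' : P'.rho = 0) (e0z : P.e0 = 0) (g0z : P.g0 = 0) (f0z : P.f0 = 0)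
    (f0z' : P'.f0 = 0) (tz : P.eta = 0) (q1z : P.q1 = 0) (q1z' : P'.q1 = 0) (be1z : P.be1 = 0)
    (nr : P.rho ≠ 0) (nbe : P'.be1 ≠ 0) :
    rk k (Set.range (vals P P')) + 18 ≤ 52 := by
  obtain ⟨r1, r2, r3, r4, r5, r6, r7, r8, r9, r10, r11, r12, r13, r14, r15, r16, r17, r18, r19,
    r20, r21, r22, r23⟩ := h
  simp only [Br] at *
  refine rk_det P P' {.inl .al0, .inr .al0, .inl .be0, .inr .be0, .inl .zeta, .inr .zeta, .inr
    .rho, .inl .e0, .inl .g0, .inl .f0, .inr .f0, .inl .eta, .inl .q1, .inr .q1, .inl .be1, .inr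
      .g0, .inr .e0, .inr .eta, .inr .th, .inl .q2} (by decide) fun L hL => ?_
  have m_al1 : P.al1 ∈ L := hL (.inl .al1) (by decide)
  have m_al2 : P.al2 ∈ L := hL (.inl .al2) (by decide)
  have m_al3 : P.al3 ∈ L := hL (.inl .al3) (by decide)
  have m_g1 : P.g1 ∈ L := hL (.inl .g1) (by decide)
  have m_pi : P.pi ∈ L := hL (.inl .pi) (by decide)
  have m_be2 : P.be2 ∈ L := hL (.inl .be2) (by decide)
  have m_be3 : P.be3 ∈ L := hL (.inl .be3) (by decide)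
  have m_q3 : P.q3 ∈ L := hL (.inl .q3) (by decide)
  have m_e1 : P.e1 ∈ L := hL (.inl .e1) (by decide)
  have m_ph : P.ph ∈ L := hL (.inl .ph) (by decide)
  have m_c0 : P.c0 ∈ L := hL (.inl .c0) (by decide)
  have m_c1 : P.c1 ∈ L := hL (.inl .c1) (by decide)
  have m_f1 : P.f1 ∈ L := hL (.inl .f1) (by decide)
  have m_z : P.z ∈ L := hL (.inl .z) (by decide)
  have m_rho : P.rho ∈ L := hL (.inl .rho) (by decide)
  have m_th : P.th ∈ L := hL (.inl .th) (by decide)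
  have m_al1' : P'.al1 ∈ L := hL (.inr .al1) (by decide)
  have m_al2' : P'.al2 ∈ L := hL (.inr .al2) (by decide)
  have m_al3' : P'.al3 ∈ L := hL (.inr .al3) (by decide)
  have m_g1' : P'.g1 ∈ L := hL (.inr .g1) (by decide)
  have m_pi' : P'.pi ∈ L := hL (.inr .pi) (by decide)
  have m_be1' : P'.be1 ∈ L := hL (.inr .be1) (by decide)
  have m_be2' : P'.be2 ∈ L := hL (.inr .be2) (by decide)
  have m_be3' : P'.be3 ∈ L := hL (.inr .be3) (by decide)
  have m_q2' : P'.q2 ∈ L := hL (.inr .q2) (by decide)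
  have m_q3' : P'.q3 ∈ L := hL (.inr .q3) (by decide)
  have m_e1' : P'.e1 ∈ L := hL (.inr .e1) (by decide)
  have m_ph' : P'.ph ∈ L := hL (.inr .ph) (by decide)
  have m_c0' : P'.c0 ∈ L := hL (.inr .c0) (by decide)
  have m_c1' : P'.c1 ∈ L := hL (.inr .c1) (by decide)
  have m_f1' : P'.f1 ∈ L := hL (.inr .f1) (by decide)
  have m_z' : P'.z ∈ L := hL (.inr .z) (by decide)
  have m_al0 : P.al0 ∈ L := by rw [a0]; exact zero_mem L
  have m_al0' : P'.al0 ∈ L := by rw [a0']; exact zero_mem L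
  have m_be0 : P.be0 ∈ L := by rw [b0]; exact zero_mem L
  have m_be0' : P'.be0 ∈ L := by rw [b0']; exact zero_mem L
  have m_zeta : P.zeta ∈ L := by rw [ze]; exact zero_mem L
  have m_zeta' : P'.zeta ∈ L := by rw [ze']; exact zero_mem L
  have m_rho' : P'.rho ∈ L := by rw [rh']; exact zero_mem L
  have m_e0 : P.e0 ∈ L := by rw [e0z]; exact zero_mem L
  have m_g0 : P.g0 ∈ L := by rw [g0z]; exact zero_mem L
  have m_f0 : P.f0 ∈ L := by rw [f0z]; exact zero_mem L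
  have m_f0' : P'.f0 ∈ L := by rw [f0z']; exact zero_mem L
  have m_eta : P.eta ∈ L := by rw [tz]; exact zero_mem L
  have m_q1 : P.q1 ∈ L := by rw [q1z]; exact zero_mem L
  have m_q1' : P'.q1 ∈ L := by rw [q1z']; exact zero_mem L
  have m_be1 : P.be1 ∈ L := by rw [be1z]; exact zero_mem L
  have m_g0' : P'.g0 ∈ L := mem_lin nr m_rho
    (zero_mem L)
    (show P.rho * P'.g0 + (0) = 0 by
      linear_combination 1 * r4 + (-1) * P.ph * a0' + (1) * P'.ph * a0 + (1) * P'.rho * g0z)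
  have m_e0' : P'.e0 ∈ L := mem_lin nr m_rho
    (zero_mem L)
    (show P.rho * P'.e0 + (0) = 0 by
      linear_combination 1 * r11 + (1) * P'.rho * e0z)
  have m_eta' : P'.eta ∈ L := mem_lin nr m_rho
    (zero_mem L)
    (show P.rho * P'.eta + (0) = 0 by
      linear_combination (-1) * r20 + (1) * P'.c0 * a0 + (-1) * P.c0 * a0' + (1) * P.q1 * f0z' +
        (-1) * P'.q1 * f0z + (1) * P'.z * f0z + (-1) * P.z * f0z' + (1) * P'.rho * tz)
  have m_th' : P'.th ∈ L := mem_lin nr m_rho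
    (add_mem (neg_mem (mul_mem m_c0 m_z')) (mul_mem m_c0' m_z))
    (show P.rho * P'.th + (-(P.c0 * P'.z) + P'.c0 * P.z) = 0 by
      linear_combination (-1) * r21 + (1) * P'.f0 * be1z + (-1) * P'.be1 * f0z + (1) * P'.f1 * b0 +
        (-1) * P.f1 * b0' + (1) * P.th * rh')
  have m_q2 : P.q2 ∈ L := mem_lin nbe m_be1'
    (add_mem (add_mem (add_mem (add_mem (neg_mem (mul_mem m_c1 m_e0')) (neg_mem (mul_mem m_c0
      m_e1'))) (mul_mem m_c0' m_e1)) (neg_mem (mul_mem m_ph' m_th))) (mul_mem m_ph m_th'))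
    (show P'.be1 * P.q2 + (-(P.c1 * P'.e0) + -(P.c0 * P'.e1) + P'.c0 * P.e1 + -(P'.ph * P.th) +
      P.ph * P'.th) = 0 by
      linear_combination (-1) * r17 + (1) * P.be2 * q1z' + (-1) * P'.be2 * q1z + (1) * P'.q2 * be1z
        + (1) * P'.q3 * b0 + (-1) * P.q3 * b0' + (-1) * P'.c1 * e0z)
  exact mem_all P P' ⟨m_al0, m_al1, m_al2, m_al3, m_g0, m_g1, m_pi, m_be0, m_be1, m_be2, m_be3,
    m_q1, m_q2, m_q3, m_e0, m_e1, m_ph, m_c0, m_c1, m_f0, m_f1, m_z, m_rho, m_th, m_eta, m_zeta⟩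
    ⟨m_al0', m_al1', m_al2', m_al3', m_g0', m_g1', m_pi', m_be0', m_be1', m_be2', m_be3', m_q1',
      m_q2', m_q3', m_e0', m_e1', m_ph', m_c0', m_c1', m_f0', m_f1', m_z', m_rho', m_th', m_eta',
        m_zeta'⟩

theorem i_a3ke {P P' : Par K} (h : Rel P P')
    (a0 : P.al0 = 0) (a0' : P'.al0 = 0) (b0 : P.be0 = 0) (b0' : P'.be0 = 0) (ze : P.zeta = 0)
    (ze' : P'.zeta = 0) (rh' : P'.rho = 0) (e0z : P.e0 = 0) (g0z : P.g0 = 0) (f0z : P.f0 = 0)
    (f0z' : P'.f0 = 0) (tz : P.eta = 0) (q1z : P.q1 = 0) (q1z' : P'.q1 = 0) (be1z : P.be1 = 0)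
    (be1z' : P'.be1 = 0)
    (nr : P.rho ≠ 0) :
    rk k (Set.range (vals P P')) + 18 ≤ 52 := by
  obtain ⟨r1, r2, r3, r4, r5, r6, r7, r8, r9, r10, r11, r12, r13, r14, r15, r16, r17, r18, r19,
    r20, r21, r22, r23⟩ := h
  simp only [Br] at *
  refine rk_det P P' {.inl .al0, .inr .al0, .inl .be0, .inr .be0, .inl .zeta, .inr .zeta, .inr
    .rho, .inl .e0, .inl .g0, .inl .f0, .inr .f0, .inl .eta, .inl .q1, .inr .q1, .inl .be1, .inr
      .be1, .inr .g0, .inr .e0, .inr .eta, .inr .th} (by decide) fun L hL => ?_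
  have m_al1 : P.al1 ∈ L := hL (.inl .al1) (by decide)
  have m_al2 : P.al2 ∈ L := hL (.inl .al2) (by decide)
  have m_al3 : P.al3 ∈ L := hL (.inl .al3) (by decide)
  have m_g1 : P.g1 ∈ L := hL (.inl .g1) (by decide)
  have m_pi : P.pi ∈ L := hL (.inl .pi) (by decide)
  have m_be2 : P.be2 ∈ L := hL (.inl .be2) (by decide)
  have m_be3 : P.be3 ∈ L := hL (.inl .be3) (by decide)
  have m_q2 : P.q2 ∈ L := hL (.inl .q2) (by decide)
  have m_q3 : P.q3 ∈ L := hL (.inl .q3) (by decide)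
  have m_e1 : P.e1 ∈ L := hL (.inl .e1) (by decide)
  have m_ph : P.ph ∈ L := hL (.inl .ph) (by decide)
  have m_c0 : P.c0 ∈ L := hL (.inl .c0) (by decide)
  have m_c1 : P.c1 ∈ L := hL (.inl .c1) (by decide)
  have m_f1 : P.f1 ∈ L := hL (.inl .f1) (by decide)
  have m_z : P.z ∈ L := hL (.inl .z) (by decide)
  have m_rho : P.rho ∈ L := hL (.inl .rho) (by decide)
  have m_th : P.th ∈ L := hL (.inl .th) (by decide)
  have m_al1' : P'.al1 ∈ L := hL (.inr .al1) (by decide)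
  have m_al2' : P'.al2 ∈ L := hL (.inr .al2) (by decide)
  have m_al3' : P'.al3 ∈ L := hL (.inr .al3) (by decide)
  have m_g1' : P'.g1 ∈ L := hL (.inr .g1) (by decide)
  have m_pi' : P'.pi ∈ L := hL (.inr .pi) (by decide)
  have m_be2' : P'.be2 ∈ L := hL (.inr .be2) (by decide)
  have m_be3' : P'.be3 ∈ L := hL (.inr .be3) (by decide)
  have m_q2' : P'.q2 ∈ L := hL (.inr .q2) (by decide)
  have m_q3' : P'.q3 ∈ L := hL (.inr .q3) (by decide)
  have m_e1' : P'.e1 ∈ L := hL (.inr .e1) (by decide)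
  have m_ph' : P'.ph ∈ L := hL (.inr .ph) (by decide)
  have m_c0' : P'.c0 ∈ L := hL (.inr .c0) (by decide)
  have m_c1' : P'.c1 ∈ L := hL (.inr .c1) (by decide)
  have m_f1' : P'.f1 ∈ L := hL (.inr .f1) (by decide)
  have m_z' : P'.z ∈ L := hL (.inr .z) (by decide)
  have m_al0 : P.al0 ∈ L := by rw [a0]; exact zero_mem L
  have m_al0' : P'.al0 ∈ L := by rw [a0']; exact zero_mem L
  have m_be0 : P.be0 ∈ L := by rw [b0]; exact zero_mem L
  have m_be0' : P'.be0 ∈ L := by rw [b0']; exact zero_mem L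
  have m_zeta : P.zeta ∈ L := by rw [ze]; exact zero_mem L
  have m_zeta' : P'.zeta ∈ L := by rw [ze']; exact zero_mem L
  have m_rho' : P'.rho ∈ L := by rw [rh']; exact zero_mem L
  have m_e0 : P.e0 ∈ L := by rw [e0z]; exact zero_mem L
  have m_g0 : P.g0 ∈ L := by rw [g0z]; exact zero_mem L
  have m_f0 : P.f0 ∈ L := by rw [f0z]; exact zero_mem L
  have m_f0' : P'.f0 ∈ L := by rw [f0z']; exact zero_mem L
  have m_eta : P.eta ∈ L := by rw [tz]; exact zero_mem L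
  have m_q1 : P.q1 ∈ L := by rw [q1z]; exact zero_mem L
  have m_q1' : P'.q1 ∈ L := by rw [q1z']; exact zero_mem L
  have m_be1 : P.be1 ∈ L := by rw [be1z]; exact zero_mem L
  have m_be1' : P'.be1 ∈ L := by rw [be1z']; exact zero_mem L
  have m_g0' : P'.g0 ∈ L := mem_lin nr m_rho
    (zero_mem L)
    (show P.rho * P'.g0 + (0) = 0 by
      linear_combination 1 * r4 + (-1) * P.ph * a0' + (1) * P'.ph * a0 + (1) * P'.rho * g0z)
  have m_e0' : P'.e0 ∈ L := mem_lin nr m_rho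
    (zero_mem L)
    (show P.rho * P'.e0 + (0) = 0 by
      linear_combination 1 * r11 + (1) * P'.rho * e0z)
  have m_eta' : P'.eta ∈ L := mem_lin nr m_rho
    (zero_mem L)
    (show P.rho * P'.eta + (0) = 0 by
      linear_combination (-1) * r20 + (1) * P'.c0 * a0 + (-1) * P.c0 * a0' + (1) * P.q1 * f0z' +
        (-1) * P'.q1 * f0z + (1) * P'.z * f0z + (-1) * P.z * f0z' + (1) * P'.rho * tz)
  have m_th' : P'.th ∈ L := mem_lin nr m_rho
    (add_mem (neg_mem (mul_mem m_c0 m_z')) (mul_mem m_c0' m_z))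
    (show P.rho * P'.th + (-(P.c0 * P'.z) + P'.c0 * P.z) = 0 by
      linear_combination (-1) * r21 + (1) * P'.f0 * be1z + (-1) * P.f0 * be1z' + (1) * P'.f1 * b0 +
        (-1) * P.f1 * b0' + (1) * P.th * rh')
  exact mem_all P P' ⟨m_al0, m_al1, m_al2, m_al3, m_g0, m_g1, m_pi, m_be0, m_be1, m_be2, m_be3,
    m_q1, m_q2, m_q3, m_e0, m_e1, m_ph, m_c0, m_c1, m_f0, m_f1, m_z, m_rho, m_th, m_eta, m_zeta⟩
    ⟨m_al0', m_al1', m_al2', m_al3', m_g0', m_g1', m_pi', m_be0', m_be1', m_be2', m_be3', m_q1',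
      m_q2', m_q3', m_e0', m_e1', m_ph', m_c0', m_c1', m_f0', m_f1', m_z', m_rho', m_th', m_eta',
        m_zeta'⟩

theorem i_b1a {P P' : Par K} (h : Rel P P')
    (a0 : P.al0 = 0) (a0' : P'.al0 = 0) (b0 : P.be0 = 0) (b0' : P'.be0 = 0) (ze : P.zeta = 0)
    (ze' : P'.zeta = 0) (rh : P.rho = 0) (rh' : P'.rho = 0) (e0z' : P'.e0 = 0)
    (f0z' : P'.f0 = 0)
    (nq : P'.q1 ≠ 0) (nz : P'.z ≠ 0) (ne : P.e0 ≠ 0)
    (hz : P'.z = P'.q1) :
    rk k (Set.range (vals P P')) + 18 ≤ 52 := by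
  obtain ⟨r1, r2, r3, r4, r5, r6, r7, r8, r9, r10, r11, r12, r13, r14, r15, r16, r17, r18, r19,
    r20, r21, r22, r23⟩ := h
  simp only [Br] at *
  refine rk_det P P' {.inl .al0, .inr .al0, .inl .be0, .inr .be0, .inl .zeta, .inr .zeta, .inl
    .rho, .inr .rho, .inr .e0, .inr .f0, .inr .z, .inl .al1, .inl .g0, .inl .be1, .inl .c0, .inr
      .f1, .inl .al2, .inl .be2} (by decide) fun L hL => ?_
  have m_al3 : P.al3 ∈ L := hL (.inl .al3) (by decide)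
  have m_g1 : P.g1 ∈ L := hL (.inl .g1) (by decide)
  have m_pi : P.pi ∈ L := hL (.inl .pi) (by decide)
  have m_be3 : P.be3 ∈ L := hL (.inl .be3) (by decide)
  have m_q1 : P.q1 ∈ L := hL (.inl .q1) (by decide)
  have m_q2 : P.q2 ∈ L := hL (.inl .q2) (by decide)
  have m_q3 : P.q3 ∈ L := hL (.inl .q3) (by decide)
  have m_e0 : P.e0 ∈ L := hL (.inl .e0) (by decide)
  have m_e1 : P.e1 ∈ L := hL (.inl .e1) (by decide)
  have m_ph : P.ph ∈ L := hL (.inl .ph) (by decide)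
  have m_c1 : P.c1 ∈ L := hL (.inl .c1) (by decide)
  have m_f0 : P.f0 ∈ L := hL (.inl .f0) (by decide)
  have m_f1 : P.f1 ∈ L := hL (.inl .f1) (by decide)
  have m_z : P.z ∈ L := hL (.inl .z) (by decide)
  have m_th : P.th ∈ L := hL (.inl .th) (by decide)
  have m_eta : P.eta ∈ L := hL (.inl .eta) (by decide)
  have m_al1' : P'.al1 ∈ L := hL (.inr .al1) (by decide)
  have m_al2' : P'.al2 ∈ L := hL (.inr .al2) (by decide)
  have m_al3' : P'.al3 ∈ L := hL (.inr .al3) (by decide)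
  have m_g0' : P'.g0 ∈ L := hL (.inr .g0) (by decide)
  have m_g1' : P'.g1 ∈ L := hL (.inr .g1) (by decide)
  have m_pi' : P'.pi ∈ L := hL (.inr .pi) (by decide)
  have m_be1' : P'.be1 ∈ L := hL (.inr .be1) (by decide)
  have m_be2' : P'.be2 ∈ L := hL (.inr .be2) (by decide)
  have m_be3' : P'.be3 ∈ L := hL (.inr .be3) (by decide)
  have m_q1' : P'.q1 ∈ L := hL (.inr .q1) (by decide)
  have m_q2' : P'.q2 ∈ L := hL (.inr .q2) (by decide)
  have m_q3' : P'.q3 ∈ L := hL (.inr .q3) (by decide)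
  have m_e1' : P'.e1 ∈ L := hL (.inr .e1) (by decide)
  have m_ph' : P'.ph ∈ L := hL (.inr .ph) (by decide)
  have m_c0' : P'.c0 ∈ L := hL (.inr .c0) (by decide)
  have m_c1' : P'.c1 ∈ L := hL (.inr .c1) (by decide)
  have m_th' : P'.th ∈ L := hL (.inr .th) (by decide)
  have m_eta' : P'.eta ∈ L := hL (.inr .eta) (by decide)
  have m_al0 : P.al0 ∈ L := by rw [a0]; exact zero_mem L
  have m_al0' : P'.al0 ∈ L := by rw [a0']; exact zero_mem L
  have m_be0 : P.be0 ∈ L := by rw [b0]; exact zero_mem L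
  have m_be0' : P'.be0 ∈ L := by rw [b0']; exact zero_mem L
  have m_zeta : P.zeta ∈ L := by rw [ze]; exact zero_mem L
  have m_zeta' : P'.zeta ∈ L := by rw [ze']; exact zero_mem L
  have m_rho : P.rho ∈ L := by rw [rh]; exact zero_mem L
  have m_rho' : P'.rho ∈ L := by rw [rh']; exact zero_mem L
  have m_e0' : P'.e0 ∈ L := by rw [e0z']; exact zero_mem L
  have m_f0' : P'.f0 ∈ L := by rw [f0z']; exact zero_mem L
  have m_z' : P'.z ∈ L := by rw [hz]; exact m_q1'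
  have m_al1 : P.al1 ∈ L := mem_lin nq m_q1'
    (add_mem (neg_mem (mul_mem m_al1' m_q1)) (neg_mem (mul_mem m_f0 m_g0')))
    (show P'.q1 * P.al1 + (-(P'.al1 * P.q1) + -(P.f0 * P'.g0)) = 0 by
      linear_combination (-1) * r7 + (1) * P.q2 * a0' + (-1) * P'.q2 * a0 + (-1) * P.g0 * f0z')
  have m_g0 : P.g0 ∈ L := mem_lin nz m_z'
    (add_mem (neg_mem (mul_mem m_al1' m_e0)) (neg_mem (mul_mem m_g0' m_z)))
    (show P'.z * P.g0 + (-(P'.al1 * P.e0) + -(P'.g0 * P.z)) = 0 by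
      linear_combination (-1) * r5 + (1) * P.e1 * a0' + (-1) * P'.e1 * a0 + (-1) * P.al1 * e0z' +
        (1) * P'.pi * ze + (-1) * P.pi * ze')
  have m_be1 : P.be1 ∈ L := mem_lin nq m_q1'
    (add_mem (neg_mem (mul_mem m_be1' m_q1)) (neg_mem (mul_mem m_c0' m_e0)))
    (show P'.q1 * P.be1 + (-(P'.be1 * P.q1) + -(P'.c0 * P.e0)) = 0 by
      linear_combination 1 * r15 + (-1) * P'.q2 * b0 + (1) * P.q2 * b0' + (-1) * P.c0 * e0z')
  have m_c0 : P.c0 ∈ L := mem_lin nz m_z'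
    (add_mem (neg_mem (mul_mem m_be1' m_f0)) (neg_mem (mul_mem m_c0' m_z)))
    (show P'.z * P.c0 + (-(P'.be1 * P.f0) + -(P'.c0 * P.z)) = 0 by
      linear_combination 1 * r21 + (-1) * P.be1 * f0z' + (-1) * P'.f1 * b0 + (1) * P.f1 * b0' +
        (-1) * P.th * rh' + (1) * P'.th * rh)
  have m_f1' : P'.f1 ∈ L := mem_lin ne m_e0
    (add_mem (add_mem (add_mem (add_mem (neg_mem (mul_mem m_al1 m_be1')) (mul_mem m_al1' m_be1))
      (neg_mem (mul_mem m_e1' m_f0))) (neg_mem (mul_mem m_eta m_ph'))) (mul_mem m_eta' m_ph))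
    (show P.e0 * P'.f1 + (-(P.al1 * P'.be1) + P'.al1 * P.be1 + -(P'.e1 * P.f0) + -(P.eta * P'.ph) +
      P'.eta * P.ph) = 0 by
      linear_combination (-1) * r16 + (1) * P.al2 * b0' + (-1) * P'.al2 * b0 + (1) * P'.be2 * a0 +
        (-1) * P.be2 * a0' + (1) * P.f1 * e0z' + (-1) * P.e1 * f0z')
  have m_al2 : P.al2 ∈ L := mem_lin nq m_q1'
    (add_mem (add_mem (add_mem (add_mem (add_mem (add_mem (add_mem (neg_mem (mul_mem m_al1' m_q2))
      (mul_mem m_al1 m_q2')) (neg_mem (mul_mem m_al2' m_q1))) (neg_mem (mul_mem m_f1 m_g0')))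
        (mul_mem m_f1' m_g0)) (neg_mem (mul_mem m_f0 m_g1'))) (neg_mem (mul_mem m_eta m_pi')))
          (mul_mem m_eta' m_pi))
    (show P'.q1 * P.al2 + (-(P'.al1 * P.q2) + P.al1 * P'.q2 + -(P'.al2 * P.q1) + -(P.f1 * P'.g0) +
      P'.f1 * P.g0 + -(P.f0 * P'.g1) + -(P.eta * P'.pi) + P'.eta * P.pi) = 0 by
      linear_combination (-1) * r9 + (1) * P.q3 * a0' + (-1) * P'.q3 * a0 + (-1) * P.g1 * f0z')
  have m_be2 : P.be2 ∈ L := mem_lin nq m_q1'
    (add_mem (add_mem (add_mem (add_mem (add_mem (add_mem (add_mem (neg_mem (mul_mem m_be2' m_q1))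
      (mul_mem m_be1 m_q2')) (neg_mem (mul_mem m_be1' m_q2))) (neg_mem (mul_mem m_c1' m_e0)))
        (mul_mem m_c0 m_e1')) (neg_mem (mul_mem m_c0' m_e1))) (mul_mem m_ph' m_th)) (neg_mem
          (mul_mem m_ph m_th')))
    (show P'.q1 * P.be2 + (-(P'.be2 * P.q1) + P.be1 * P'.q2 + -(P'.be1 * P.q2) + -(P'.c1 * P.e0) +
      P.c0 * P'.e1 + -(P'.c0 * P.e1) + P'.ph * P.th + -(P.ph * P'.th)) = 0 by
      linear_combination 1 * r17 + (-1) * P'.q3 * b0 + (1) * P.q3 * b0' + (-1) * P.c1 * e0z')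
  exact mem_all P P' ⟨m_al0, m_al1, m_al2, m_al3, m_g0, m_g1, m_pi, m_be0, m_be1, m_be2, m_be3,
    m_q1, m_q2, m_q3, m_e0, m_e1, m_ph, m_c0, m_c1, m_f0, m_f1, m_z, m_rho, m_th, m_eta, m_zeta⟩
    ⟨m_al0', m_al1', m_al2', m_al3', m_g0', m_g1', m_pi', m_be0', m_be1', m_be2', m_be3', m_q1',
      m_q2', m_q3', m_e0', m_e1', m_ph', m_c0', m_c1', m_f0', m_f1', m_z', m_rho', m_th', m_eta',
        m_zeta'⟩

theorem i_b1b {P P' : Par K} (h : Rel P P')
    (a0 : P.al0 = 0) (a0' : P'.al0 = 0) (b0 : P.be0 = 0) (b0' : P'.be0 = 0) (ze : P.zeta = 0)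
    (ze' : P'.zeta = 0) (rh : P.rho = 0) (rh' : P'.rho = 0) (e0z' : P'.e0 = 0)
    (f0z' : P'.f0 = 0) (e0z : P.e0 = 0)
    (nq : P'.q1 ≠ 0) (nz : P'.z ≠ 0) (nf : P.f0 ≠ 0)
    (hz : P'.z = P'.q1) :
    rk k (Set.range (vals P P')) + 18 ≤ 52 := by
  obtain ⟨r1, r2, r3, r4, r5, r6, r7, r8, r9, r10, r11, r12, r13, r14, r15, r16, r17, r18, r19,
    r20, r21, r22, r23⟩ := h
  simp only [Br] at *
  refine rk_det P P' {.inl .al0, .inr .al0, .inl .be0, .inr .be0, .inl .zeta, .inr .zeta, .inl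
    .rho, .inr .rho, .inr .e0, .inr .f0, .inl .e0, .inr .z, .inl .al1, .inl .g0, .inl .be1, .inl
      .c0, .inr .e1, .inl .al2, .inl .be2} (by decide) fun L hL => ?_
  have m_al3 : P.al3 ∈ L := hL (.inl .al3) (by decide)
  have m_g1 : P.g1 ∈ L := hL (.inl .g1) (by decide)
  have m_pi : P.pi ∈ L := hL (.inl .pi) (by decide)
  have m_be3 : P.be3 ∈ L := hL (.inl .be3) (by decide)
  have m_q1 : P.q1 ∈ L := hL (.inl .q1) (by decide)
  have m_q2 : P.q2 ∈ L := hL (.inl .q2) (by decide)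
  have m_q3 : P.q3 ∈ L := hL (.inl .q3) (by decide)
  have m_e1 : P.e1 ∈ L := hL (.inl .e1) (by decide)
  have m_ph : P.ph ∈ L := hL (.inl .ph) (by decide)
  have m_c1 : P.c1 ∈ L := hL (.inl .c1) (by decide)
  have m_f0 : P.f0 ∈ L := hL (.inl .f0) (by decide)
  have m_f1 : P.f1 ∈ L := hL (.inl .f1) (by decide)
  have m_z : P.z ∈ L := hL (.inl .z) (by decide)
  have m_th : P.th ∈ L := hL (.inl .th) (by decide)
  have m_eta : P.eta ∈ L := hL (.inl .eta) (by decide)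
  have m_al1' : P'.al1 ∈ L := hL (.inr .al1) (by decide)
  have m_al2' : P'.al2 ∈ L := hL (.inr .al2) (by decide)
  have m_al3' : P'.al3 ∈ L := hL (.inr .al3) (by decide)
  have m_g0' : P'.g0 ∈ L := hL (.inr .g0) (by decide)
  have m_g1' : P'.g1 ∈ L := hL (.inr .g1) (by decide)
  have m_pi' : P'.pi ∈ L := hL (.inr .pi) (by decide)
  have m_be1' : P'.be1 ∈ L := hL (.inr .be1) (by decide)
  have m_be2' : P'.be2 ∈ L := hL (.inr .be2) (by decide)
  have m_be3' : P'.be3 ∈ L := hL (.inr .be3) (by decide)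
  have m_q1' : P'.q1 ∈ L := hL (.inr .q1) (by decide)
  have m_q2' : P'.q2 ∈ L := hL (.inr .q2) (by decide)
  have m_q3' : P'.q3 ∈ L := hL (.inr .q3) (by decide)
  have m_ph' : P'.ph ∈ L := hL (.inr .ph) (by decide)
  have m_c0' : P'.c0 ∈ L := hL (.inr .c0) (by decide)
  have m_c1' : P'.c1 ∈ L := hL (.inr .c1) (by decide)
  have m_f1' : P'.f1 ∈ L := hL (.inr .f1) (by decide)
  have m_th' : P'.th ∈ L := hL (.inr .th) (by decide)
  have m_eta' : P'.eta ∈ L := hL (.inr .eta) (by decide)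
  have m_al0 : P.al0 ∈ L := by rw [a0]; exact zero_mem L
  have m_al0' : P'.al0 ∈ L := by rw [a0']; exact zero_mem L
  have m_be0 : P.be0 ∈ L := by rw [b0]; exact zero_mem L
  have m_be0' : P'.be0 ∈ L := by rw [b0']; exact zero_mem L
  have m_zeta : P.zeta ∈ L := by rw [ze]; exact zero_mem L
  have m_zeta' : P'.zeta ∈ L := by rw [ze']; exact zero_mem L
  have m_rho : P.rho ∈ L := by rw [rh]; exact zero_mem L
  have m_rho' : P'.rho ∈ L := by rw [rh']; exact zero_mem L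
  have m_e0' : P'.e0 ∈ L := by rw [e0z']; exact zero_mem L
  have m_f0' : P'.f0 ∈ L := by rw [f0z']; exact zero_mem L
  have m_e0 : P.e0 ∈ L := by rw [e0z]; exact zero_mem L
  have m_z' : P'.z ∈ L := by rw [hz]; exact m_q1'
  have m_al1 : P.al1 ∈ L := mem_lin nq m_q1'
    (add_mem (neg_mem (mul_mem m_al1' m_q1)) (neg_mem (mul_mem m_f0 m_g0')))
    (show P'.q1 * P.al1 + (-(P'.al1 * P.q1) + -(P.f0 * P'.g0)) = 0 by
      linear_combination (-1) * r7 + (1) * P.q2 * a0' + (-1) * P'.q2 * a0 + (-1) * P.g0 * f0z')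
  have m_g0 : P.g0 ∈ L := mem_lin nz m_z'
    (neg_mem (mul_mem m_g0' m_z))
    (show P'.z * P.g0 + (-(P'.g0 * P.z)) = 0 by
      linear_combination (-1) * r5 + (1) * P.e1 * a0' + (-1) * P'.e1 * a0 + (1) * P'.al1 * e0z +
        (-1) * P.al1 * e0z' + (1) * P'.pi * ze + (-1) * P.pi * ze')
  have m_be1 : P.be1 ∈ L := mem_lin nq m_q1'
    (neg_mem (mul_mem m_be1' m_q1))
    (show P'.q1 * P.be1 + (-(P'.be1 * P.q1)) = 0 by
      linear_combination 1 * r15 + (-1) * P'.q2 * b0 + (1) * P.q2 * b0' + (-1) * P.c0 * e0z' + (1)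
        * P'.c0 * e0z)
  have m_c0 : P.c0 ∈ L := mem_lin nz m_z'
    (add_mem (neg_mem (mul_mem m_be1' m_f0)) (neg_mem (mul_mem m_c0' m_z)))
    (show P'.z * P.c0 + (-(P'.be1 * P.f0) + -(P'.c0 * P.z)) = 0 by
      linear_combination 1 * r21 + (-1) * P.be1 * f0z' + (-1) * P'.f1 * b0 + (1) * P.f1 * b0' +
        (-1) * P.th * rh' + (1) * P'.th * rh)
  have m_e1' : P'.e1 ∈ L := mem_lin nf m_f0
    (add_mem (add_mem (add_mem (mul_mem m_al1 m_be1') (neg_mem (mul_mem m_al1' m_be1))) (mul_mem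
      m_eta m_ph')) (neg_mem (mul_mem m_eta' m_ph)))
    (show P.f0 * P'.e1 + (P.al1 * P'.be1 + -(P'.al1 * P.be1) + P.eta * P'.ph + -(P'.eta * P.ph)) =
      0 by
      linear_combination 1 * r16 + (-1) * P.al2 * b0' + (1) * P'.al2 * b0 + (-1) * P'.be2 * a0 +
        (1) * P.be2 * a0' + (-1) * P.f1 * e0z' + (1) * P'.f1 * e0z + (1) * P.e1 * f0z')
  have m_al2 : P.al2 ∈ L := mem_lin nq m_q1'
    (add_mem (add_mem (add_mem (add_mem (add_mem (add_mem (add_mem (neg_mem (mul_mem m_al1' m_q2))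
      (mul_mem m_al1 m_q2')) (neg_mem (mul_mem m_al2' m_q1))) (neg_mem (mul_mem m_f1 m_g0')))
        (mul_mem m_f1' m_g0)) (neg_mem (mul_mem m_f0 m_g1'))) (neg_mem (mul_mem m_eta m_pi')))
          (mul_mem m_eta' m_pi))
    (show P'.q1 * P.al2 + (-(P'.al1 * P.q2) + P.al1 * P'.q2 + -(P'.al2 * P.q1) + -(P.f1 * P'.g0) +
      P'.f1 * P.g0 + -(P.f0 * P'.g1) + -(P.eta * P'.pi) + P'.eta * P.pi) = 0 by
      linear_combination (-1) * r9 + (1) * P.q3 * a0' + (-1) * P'.q3 * a0 + (-1) * P.g1 * f0z')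
  have m_be2 : P.be2 ∈ L := mem_lin nq m_q1'
    (add_mem (add_mem (add_mem (add_mem (add_mem (add_mem (neg_mem (mul_mem m_be2' m_q1)) (mul_mem
      m_be1 m_q2')) (neg_mem (mul_mem m_be1' m_q2))) (mul_mem m_c0 m_e1')) (neg_mem (mul_mem m_c0'
        m_e1))) (mul_mem m_ph' m_th)) (neg_mem (mul_mem m_ph m_th')))
    (show P'.q1 * P.be2 + (-(P'.be2 * P.q1) + P.be1 * P'.q2 + -(P'.be1 * P.q2) + P.c0 * P'.e1 +
      -(P'.c0 * P.e1) + P'.ph * P.th + -(P.ph * P'.th)) = 0 by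
      linear_combination 1 * r17 + (-1) * P'.q3 * b0 + (1) * P.q3 * b0' + (-1) * P.c1 * e0z' + (1)
        * P'.c1 * e0z)
  exact mem_all P P' ⟨m_al0, m_al1, m_al2, m_al3, m_g0, m_g1, m_pi, m_be0, m_be1, m_be2, m_be3,
    m_q1, m_q2, m_q3, m_e0, m_e1, m_ph, m_c0, m_c1, m_f0, m_f1, m_z, m_rho, m_th, m_eta, m_zeta⟩
    ⟨m_al0', m_al1', m_al2', m_al3', m_g0', m_g1', m_pi', m_be0', m_be1', m_be2', m_be3', m_q1',
      m_q2', m_q3', m_e0', m_e1', m_ph', m_c0', m_c1', m_f0', m_f1', m_z', m_rho', m_th', m_eta',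
        m_zeta'⟩

theorem i_b1c {P P' : Par K} (h : Rel P P')
    (a0 : P.al0 = 0) (a0' : P'.al0 = 0) (b0 : P.be0 = 0) (b0' : P'.be0 = 0) (ze : P.zeta = 0)
    (ze' : P'.zeta = 0) (rh : P.rho = 0) (rh' : P'.rho = 0) (e0z' : P'.e0 = 0)
    (f0z' : P'.f0 = 0) (e0z : P.e0 = 0) (f0z : P.f0 = 0)
    (nq : P'.q1 ≠ 0) (nz : P'.z ≠ 0)
    (hz : P'.z = P'.q1) :
    rk k (Set.range (vals P P')) + 18 ≤ 52 := by
  obtain ⟨r1, r2, r3, r4, r5, r6, r7, r8, r9, r10, r11, r12, r13, r14, r15, r16, r17, r18, r19,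
    r20, r21, r22, r23⟩ := h
  simp only [Br] at *
  refine rk_det P P' {.inl .al0, .inr .al0, .inl .be0, .inr .be0, .inl .zeta, .inr .zeta, .inl
    .rho, .inr .rho, .inr .e0, .inr .f0, .inl .e0, .inl .f0, .inr .z, .inl .al1, .inl .g0, .inl
      .be1, .inl .c0, .inl .al2, .inl .be2} (by decide) fun L hL => ?_
  have m_al3 : P.al3 ∈ L := hL (.inl .al3) (by decide)
  have m_g1 : P.g1 ∈ L := hL (.inl .g1) (by decide)
  have m_pi : P.pi ∈ L := hL (.inl .pi) (by decide)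
  have m_be3 : P.be3 ∈ L := hL (.inl .be3) (by decide)
  have m_q1 : P.q1 ∈ L := hL (.inl .q1) (by decide)
  have m_q2 : P.q2 ∈ L := hL (.inl .q2) (by decide)
  have m_q3 : P.q3 ∈ L := hL (.inl .q3) (by decide)
  have m_e1 : P.e1 ∈ L := hL (.inl .e1) (by decide)
  have m_ph : P.ph ∈ L := hL (.inl .ph) (by decide)
  have m_c1 : P.c1 ∈ L := hL (.inl .c1) (by decide)
  have m_f1 : P.f1 ∈ L := hL (.inl .f1) (by decide)
  have m_z : P.z ∈ L := hL (.inl .z) (by decide)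
  have m_th : P.th ∈ L := hL (.inl .th) (by decide)
  have m_eta : P.eta ∈ L := hL (.inl .eta) (by decide)
  have m_al1' : P'.al1 ∈ L := hL (.inr .al1) (by decide)
  have m_al2' : P'.al2 ∈ L := hL (.inr .al2) (by decide)
  have m_al3' : P'.al3 ∈ L := hL (.inr .al3) (by decide)
  have m_g0' : P'.g0 ∈ L := hL (.inr .g0) (by decide)
  have m_g1' : P'.g1 ∈ L := hL (.inr .g1) (by decide)
  have m_pi' : P'.pi ∈ L := hL (.inr .pi) (by decide)
  have m_be1' : P'.be1 ∈ L := hL (.inr .be1) (by decide)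
  have m_be2' : P'.be2 ∈ L := hL (.inr .be2) (by decide)
  have m_be3' : P'.be3 ∈ L := hL (.inr .be3) (by decide)
  have m_q1' : P'.q1 ∈ L := hL (.inr .q1) (by decide)
  have m_q2' : P'.q2 ∈ L := hL (.inr .q2) (by decide)
  have m_q3' : P'.q3 ∈ L := hL (.inr .q3) (by decide)
  have m_e1' : P'.e1 ∈ L := hL (.inr .e1) (by decide)
  have m_ph' : P'.ph ∈ L := hL (.inr .ph) (by decide)
  have m_c0' : P'.c0 ∈ L := hL (.inr .c0) (by decide)
  have m_c1' : P'.c1 ∈ L := hL (.inr .c1) (by decide)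
  have m_f1' : P'.f1 ∈ L := hL (.inr .f1) (by decide)
  have m_th' : P'.th ∈ L := hL (.inr .th) (by decide)
  have m_eta' : P'.eta ∈ L := hL (.inr .eta) (by decide)
  have m_al0 : P.al0 ∈ L := by rw [a0]; exact zero_mem L
  have m_al0' : P'.al0 ∈ L := by rw [a0']; exact zero_mem L
  have m_be0 : P.be0 ∈ L := by rw [b0]; exact zero_mem L
  have m_be0' : P'.be0 ∈ L := by rw [b0']; exact zero_mem L
  have m_zeta : P.zeta ∈ L := by rw [ze]; exact zero_mem L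
  have m_zeta' : P'.zeta ∈ L := by rw [ze']; exact zero_mem L
  have m_rho : P.rho ∈ L := by rw [rh]; exact zero_mem L
  have m_rho' : P'.rho ∈ L := by rw [rh']; exact zero_mem L
  have m_e0' : P'.e0 ∈ L := by rw [e0z']; exact zero_mem L
  have m_f0' : P'.f0 ∈ L := by rw [f0z']; exact zero_mem L
  have m_e0 : P.e0 ∈ L := by rw [e0z]; exact zero_mem L
  have m_f0 : P.f0 ∈ L := by rw [f0z]; exact zero_mem L
  have m_z' : P'.z ∈ L := by rw [hz]; exact m_q1'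
  have m_al1 : P.al1 ∈ L := mem_lin nq m_q1'
    (neg_mem (mul_mem m_al1' m_q1))
    (show P'.q1 * P.al1 + (-(P'.al1 * P.q1)) = 0 by
      linear_combination (-1) * r7 + (1) * P.q2 * a0' + (-1) * P'.q2 * a0 + (1) * P'.g0 * f0z +
        (-1) * P.g0 * f0z')
  have m_g0 : P.g0 ∈ L := mem_lin nz m_z'
    (neg_mem (mul_mem m_g0' m_z))
    (show P'.z * P.g0 + (-(P'.g0 * P.z)) = 0 by
      linear_combination (-1) * r5 + (1) * P.e1 * a0' + (-1) * P'.e1 * a0 + (1) * P'.al1 * e0z +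
        (-1) * P.al1 * e0z' + (1) * P'.pi * ze + (-1) * P.pi * ze')
  have m_be1 : P.be1 ∈ L := mem_lin nq m_q1'
    (neg_mem (mul_mem m_be1' m_q1))
    (show P'.q1 * P.be1 + (-(P'.be1 * P.q1)) = 0 by
      linear_combination 1 * r15 + (-1) * P'.q2 * b0 + (1) * P.q2 * b0' + (-1) * P.c0 * e0z' + (1)
        * P'.c0 * e0z)
  have m_c0 : P.c0 ∈ L := mem_lin nz m_z'
    (neg_mem (mul_mem m_c0' m_z))
    (show P'.z * P.c0 + (-(P'.c0 * P.z)) = 0 by
      linear_combination 1 * r21 + (-1) * P.be1 * f0z' + (1) * P'.be1 * f0z + (-1) * P'.f1 * b0 +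
        (1) * P.f1 * b0' + (-1) * P.th * rh' + (1) * P'.th * rh)
  have m_al2 : P.al2 ∈ L := mem_lin nq m_q1'
    (add_mem (add_mem (add_mem (add_mem (add_mem (add_mem (neg_mem (mul_mem m_al1' m_q2)) (mul_mem
      m_al1 m_q2')) (neg_mem (mul_mem m_al2' m_q1))) (neg_mem (mul_mem m_f1 m_g0'))) (mul_mem m_f1'
        m_g0)) (neg_mem (mul_mem m_eta m_pi'))) (mul_mem m_eta' m_pi))
    (show P'.q1 * P.al2 + (-(P'.al1 * P.q2) + P.al1 * P'.q2 + -(P'.al2 * P.q1) + -(P.f1 * P'.g0) +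
      P'.f1 * P.g0 + -(P.eta * P'.pi) + P'.eta * P.pi) = 0 by
      linear_combination (-1) * r9 + (1) * P.q3 * a0' + (-1) * P'.q3 * a0 + (1) * P'.g1 * f0z +
        (-1) * P.g1 * f0z')
  have m_be2 : P.be2 ∈ L := mem_lin nq m_q1'
    (add_mem (add_mem (add_mem (add_mem (add_mem (add_mem (neg_mem (mul_mem m_be2' m_q1)) (mul_mem
      m_be1 m_q2')) (neg_mem (mul_mem m_be1' m_q2))) (mul_mem m_c0 m_e1')) (neg_mem (mul_mem m_c0'
        m_e1))) (mul_mem m_ph' m_th)) (neg_mem (mul_mem m_ph m_th')))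
    (show P'.q1 * P.be2 + (-(P'.be2 * P.q1) + P.be1 * P'.q2 + -(P'.be1 * P.q2) + P.c0 * P'.e1 +
      -(P'.c0 * P.e1) + P'.ph * P.th + -(P.ph * P'.th)) = 0 by
      linear_combination 1 * r17 + (-1) * P'.q3 * b0 + (1) * P.q3 * b0' + (-1) * P.c1 * e0z' + (1)
        * P'.c1 * e0z)
  exact mem_all P P' ⟨m_al0, m_al1, m_al2, m_al3, m_g0, m_g1, m_pi, m_be0, m_be1, m_be2, m_be3,
    m_q1, m_q2, m_q3, m_e0, m_e1, m_ph, m_c0, m_c1, m_f0, m_f1, m_z, m_rho, m_th, m_eta, m_zeta⟩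
    ⟨m_al0', m_al1', m_al2', m_al3', m_g0', m_g1', m_pi', m_be0', m_be1', m_be2', m_be3', m_q1',
      m_q2', m_q3', m_e0', m_e1', m_ph', m_c0', m_c1', m_f0', m_f1', m_z', m_rho', m_th', m_eta',
        m_zeta'⟩

theorem i_b2a {P P' : Par K} (h : Rel P P')
    (a0 : P.al0 = 0) (a0' : P'.al0 = 0) (b0 : P.be0 = 0) (b0' : P'.be0 = 0) (ze : P.zeta = 0)
    (ze' : P'.zeta = 0) (rh : P.rho = 0) (rh' : P'.rho = 0) (e0z' : P'.e0 = 0)
    (f0z' : P'.f0 = 0) (q1z' : P'.q1 = 0) (zz' : P'.z = 0) (al1z : P'.al1 = 0) (g0z : P'.g0 = 0)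
    (be1z : P'.be1 = 0) (c0z : P'.c0 = 0)
    (ne : P.e0 ≠ 0) :
    rk k (Set.range (vals P P')) + 18 ≤ 52 := by
  obtain ⟨r1, r2, r3, r4, r5, r6, r7, r8, r9, r10, r11, r12, r13, r14, r15, r16, r17, r18, r19,
    r20, r21, r22, r23⟩ := h
  simp only [Br] at *
  refine rk_det P P' {.inl .al0, .inr .al0, .inl .be0, .inr .be0, .inl .zeta, .inr .zeta, .inl
    .rho, .inr .rho, .inr .e0, .inr .f0, .inr .q1, .inr .z, .inr .al1, .inr .g0, .inr .be1, .inr
      .c0, .inr .f1, .inr .c1} (by decide) fun L hL => ?_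
  have m_al1 : P.al1 ∈ L := hL (.inl .al1) (by decide)
  have m_al2 : P.al2 ∈ L := hL (.inl .al2) (by decide)
  have m_al3 : P.al3 ∈ L := hL (.inl .al3) (by decide)
  have m_g0 : P.g0 ∈ L := hL (.inl .g0) (by decide)
  have m_g1 : P.g1 ∈ L := hL (.inl .g1) (by decide)
  have m_pi : P.pi ∈ L := hL (.inl .pi) (by decide)
  have m_be1 : P.be1 ∈ L := hL (.inl .be1) (by decide)
  have m_be2 : P.be2 ∈ L := hL (.inl .be2) (by decide)
  have m_be3 : P.be3 ∈ L := hL (.inl .be3) (by decide)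
  have m_q1 : P.q1 ∈ L := hL (.inl .q1) (by decide)
  have m_q2 : P.q2 ∈ L := hL (.inl .q2) (by decide)
  have m_q3 : P.q3 ∈ L := hL (.inl .q3) (by decide)
  have m_e0 : P.e0 ∈ L := hL (.inl .e0) (by decide)
  have m_e1 : P.e1 ∈ L := hL (.inl .e1) (by decide)
  have m_ph : P.ph ∈ L := hL (.inl .ph) (by decide)
  have m_c0 : P.c0 ∈ L := hL (.inl .c0) (by decide)
  have m_c1 : P.c1 ∈ L := hL (.inl .c1) (by decide)
  have m_f0 : P.f0 ∈ L := hL (.inl .f0) (by decide)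
  have m_f1 : P.f1 ∈ L := hL (.inl .f1) (by decide)
  have m_z : P.z ∈ L := hL (.inl .z) (by decide)
  have m_th : P.th ∈ L := hL (.inl .th) (by decide)
  have m_eta : P.eta ∈ L := hL (.inl .eta) (by decide)
  have m_al2' : P'.al2 ∈ L := hL (.inr .al2) (by decide)
  have m_al3' : P'.al3 ∈ L := hL (.inr .al3) (by decide)
  have m_g1' : P'.g1 ∈ L := hL (.inr .g1) (by decide)
  have m_pi' : P'.pi ∈ L := hL (.inr .pi) (by decide)
  have m_be2' : P'.be2 ∈ L := hL (.inr .be2) (by decide)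
  have m_be3' : P'.be3 ∈ L := hL (.inr .be3) (by decide)
  have m_q2' : P'.q2 ∈ L := hL (.inr .q2) (by decide)
  have m_q3' : P'.q3 ∈ L := hL (.inr .q3) (by decide)
  have m_e1' : P'.e1 ∈ L := hL (.inr .e1) (by decide)
  have m_ph' : P'.ph ∈ L := hL (.inr .ph) (by decide)
  have m_th' : P'.th ∈ L := hL (.inr .th) (by decide)
  have m_eta' : P'.eta ∈ L := hL (.inr .eta) (by decide)
  have m_al0 : P.al0 ∈ L := by rw [a0]; exact zero_mem L
  have m_al0' : P'.al0 ∈ L := by rw [a0']; exact zero_mem L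
  have m_be0 : P.be0 ∈ L := by rw [b0]; exact zero_mem L
  have m_be0' : P'.be0 ∈ L := by rw [b0']; exact zero_mem L
  have m_zeta : P.zeta ∈ L := by rw [ze]; exact zero_mem L
  have m_zeta' : P'.zeta ∈ L := by rw [ze']; exact zero_mem L
  have m_rho : P.rho ∈ L := by rw [rh]; exact zero_mem L
  have m_rho' : P'.rho ∈ L := by rw [rh']; exact zero_mem L
  have m_e0' : P'.e0 ∈ L := by rw [e0z']; exact zero_mem L
  have m_f0' : P'.f0 ∈ L := by rw [f0z']; exact zero_mem L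
  have m_q1' : P'.q1 ∈ L := by rw [q1z']; exact zero_mem L
  have m_z' : P'.z ∈ L := by rw [zz']; exact zero_mem L
  have m_al1' : P'.al1 ∈ L := by rw [al1z]; exact zero_mem L
  have m_g0' : P'.g0 ∈ L := by rw [g0z]; exact zero_mem L
  have m_be1' : P'.be1 ∈ L := by rw [be1z]; exact zero_mem L
  have m_c0' : P'.c0 ∈ L := by rw [c0z]; exact zero_mem L
  have m_f1' : P'.f1 ∈ L := mem_lin ne m_e0
    (add_mem (add_mem (neg_mem (mul_mem m_e1' m_f0)) (neg_mem (mul_mem m_eta m_ph'))) (mul_mem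
      m_eta' m_ph))
    (show P.e0 * P'.f1 + (-(P'.e1 * P.f0) + -(P.eta * P'.ph) + P'.eta * P.ph) = 0 by
      linear_combination (-1) * r16 + (1) * P.al2 * b0' + (-1) * P'.al2 * b0 + (1) * P.al1 * be1z +
        (-1) * P.be1 * al1z + (1) * P'.be2 * a0 + (-1) * P.be2 * a0' + (1) * P.f1 * e0z' + (-1) *
          P.e1 * f0z')
  have m_c1' : P'.c1 ∈ L := mem_lin ne m_e0
    (add_mem (add_mem (add_mem (add_mem (mul_mem m_be2' m_q1) (neg_mem (mul_mem m_be1 m_q2')))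
      (neg_mem (mul_mem m_c0 m_e1'))) (neg_mem (mul_mem m_ph' m_th))) (mul_mem m_ph m_th'))
    (show P.e0 * P'.c1 + (P'.be2 * P.q1 + -(P.be1 * P'.q2) + -(P.c0 * P'.e1) + -(P'.ph * P.th) +
      P.ph * P'.th) = 0 by
      linear_combination (-1) * r17 + (1) * P.be2 * q1z' + (-1) * P.q2 * be1z + (1) * P'.q3 * b0 +
        (-1) * P.q3 * b0' + (1) * P.c1 * e0z' + (-1) * P.e1 * c0z)
  exact mem_all P P' ⟨m_al0, m_al1, m_al2, m_al3, m_g0, m_g1, m_pi, m_be0, m_be1, m_be2, m_be3,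
    m_q1, m_q2, m_q3, m_e0, m_e1, m_ph, m_c0, m_c1, m_f0, m_f1, m_z, m_rho, m_th, m_eta, m_zeta⟩
    ⟨m_al0', m_al1', m_al2', m_al3', m_g0', m_g1', m_pi', m_be0', m_be1', m_be2', m_be3', m_q1',
      m_q2', m_q3', m_e0', m_e1', m_ph', m_c0', m_c1', m_f0', m_f1', m_z', m_rho', m_th', m_eta',
        m_zeta'⟩

theorem i_b2b {P P' : Par K} (h : Rel P P')
    (a0 : P.al0 = 0) (a0' : P'.al0 = 0) (b0 : P.be0 = 0) (b0' : P'.be0 = 0) (ze : P.zeta = 0)
    (ze' : P'.zeta = 0) (rh : P.rho = 0) (rh' : P'.rho = 0) (e0z' : P'.e0 = 0)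
    (f0z' : P'.f0 = 0) (q1z' : P'.q1 = 0) (zz' : P'.z = 0) (al1z : P'.al1 = 0) (g0z : P'.g0 = 0)
    (be1z : P'.be1 = 0) (c0z : P'.c0 = 0) (e0z : P.e0 = 0)
    (nq : P.q1 ≠ 0) :
    rk k (Set.range (vals P P')) + 18 ≤ 52 := by
  obtain ⟨r1, r2, r3, r4, r5, r6, r7, r8, r9, r10, r11, r12, r13, r14, r15, r16, r17, r18, r19,
    r20, r21, r22, r23⟩ := h
  simp only [Br] at *
  refine rk_det P P' {.inl .al0, .inr .al0, .inl .be0, .inr .be0, .inl .zeta, .inr .zeta, .inl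
    .rho, .inr .rho, .inr .e0, .inr .f0, .inr .q1, .inr .z, .inr .al1, .inr .g0, .inr .be1, .inr
      .c0, .inl .e0, .inr .be2} (by decide) fun L hL => ?_
  have m_al1 : P.al1 ∈ L := hL (.inl .al1) (by decide)
  have m_al2 : P.al2 ∈ L := hL (.inl .al2) (by decide)
  have m_al3 : P.al3 ∈ L := hL (.inl .al3) (by decide)
  have m_g0 : P.g0 ∈ L := hL (.inl .g0) (by decide)
  have m_g1 : P.g1 ∈ L := hL (.inl .g1) (by decide)
  have m_pi : P.pi ∈ L := hL (.inl .pi) (by decide)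
  have m_be1 : P.be1 ∈ L := hL (.inl .be1) (by decide)
  have m_be2 : P.be2 ∈ L := hL (.inl .be2) (by decide)
  have m_be3 : P.be3 ∈ L := hL (.inl .be3) (by decide)
  have m_q1 : P.q1 ∈ L := hL (.inl .q1) (by decide)
  have m_q2 : P.q2 ∈ L := hL (.inl .q2) (by decide)
  have m_q3 : P.q3 ∈ L := hL (.inl .q3) (by decide)
  have m_e1 : P.e1 ∈ L := hL (.inl .e1) (by decide)
  have m_ph : P.ph ∈ L := hL (.inl .ph) (by decide)
  have m_c0 : P.c0 ∈ L := hL (.inl .c0) (by decide)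
  have m_c1 : P.c1 ∈ L := hL (.inl .c1) (by decide)
  have m_f0 : P.f0 ∈ L := hL (.inl .f0) (by decide)
  have m_f1 : P.f1 ∈ L := hL (.inl .f1) (by decide)
  have m_z : P.z ∈ L := hL (.inl .z) (by decide)
  have m_th : P.th ∈ L := hL (.inl .th) (by decide)
  have m_eta : P.eta ∈ L := hL (.inl .eta) (by decide)
  have m_al2' : P'.al2 ∈ L := hL (.inr .al2) (by decide)
  have m_al3' : P'.al3 ∈ L := hL (.inr .al3) (by decide)
  have m_g1' : P'.g1 ∈ L := hL (.inr .g1) (by decide)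
  have m_pi' : P'.pi ∈ L := hL (.inr .pi) (by decide)
  have m_be3' : P'.be3 ∈ L := hL (.inr .be3) (by decide)
  have m_q2' : P'.q2 ∈ L := hL (.inr .q2) (by decide)
  have m_q3' : P'.q3 ∈ L := hL (.inr .q3) (by decide)
  have m_e1' : P'.e1 ∈ L := hL (.inr .e1) (by decide)
  have m_ph' : P'.ph ∈ L := hL (.inr .ph) (by decide)
  have m_c1' : P'.c1 ∈ L := hL (.inr .c1) (by decide)
  have m_f1' : P'.f1 ∈ L := hL (.inr .f1) (by decide)
  have m_th' : P'.th ∈ L := hL (.inr .th) (by decide)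
  have m_eta' : P'.eta ∈ L := hL (.inr .eta) (by decide)
  have m_al0 : P.al0 ∈ L := by rw [a0]; exact zero_mem L
  have m_al0' : P'.al0 ∈ L := by rw [a0']; exact zero_mem L
  have m_be0 : P.be0 ∈ L := by rw [b0]; exact zero_mem L
  have m_be0' : P'.be0 ∈ L := by rw [b0']; exact zero_mem L
  have m_zeta : P.zeta ∈ L := by rw [ze]; exact zero_mem L
  have m_zeta' : P'.zeta ∈ L := by rw [ze']; exact zero_mem L
  have m_rho : P.rho ∈ L := by rw [rh]; exact zero_mem L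
  have m_rho' : P'.rho ∈ L := by rw [rh']; exact zero_mem L
  have m_e0' : P'.e0 ∈ L := by rw [e0z']; exact zero_mem L
  have m_f0' : P'.f0 ∈ L := by rw [f0z']; exact zero_mem L
  have m_q1' : P'.q1 ∈ L := by rw [q1z']; exact zero_mem L
  have m_z' : P'.z ∈ L := by rw [zz']; exact zero_mem L
  have m_al1' : P'.al1 ∈ L := by rw [al1z]; exact zero_mem L
  have m_g0' : P'.g0 ∈ L := by rw [g0z]; exact zero_mem L
  have m_be1' : P'.be1 ∈ L := by rw [be1z]; exact zero_mem L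
  have m_c0' : P'.c0 ∈ L := by rw [c0z]; exact zero_mem L
  have m_e0 : P.e0 ∈ L := by rw [e0z]; exact zero_mem L
  have m_be2' : P'.be2 ∈ L := mem_lin nq m_q1
    (add_mem (add_mem (add_mem (neg_mem (mul_mem m_be1 m_q2')) (neg_mem (mul_mem m_c0 m_e1')))
      (neg_mem (mul_mem m_ph' m_th))) (mul_mem m_ph m_th'))
    (show P.q1 * P'.be2 + (-(P.be1 * P'.q2) + -(P.c0 * P'.e1) + -(P'.ph * P.th) + P.ph * P'.th) = 0
      by
      linear_combination (-1) * r17 + (1) * P.be2 * q1z' + (-1) * P.q2 * be1z + (1) * P'.q3 * b0 +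
        (-1) * P.q3 * b0' + (1) * P.c1 * e0z' + (-1) * P'.c1 * e0z + (-1) * P.e1 * c0z)
  exact mem_all P P' ⟨m_al0, m_al1, m_al2, m_al3, m_g0, m_g1, m_pi, m_be0, m_be1, m_be2, m_be3,
    m_q1, m_q2, m_q3, m_e0, m_e1, m_ph, m_c0, m_c1, m_f0, m_f1, m_z, m_rho, m_th, m_eta, m_zeta⟩
    ⟨m_al0', m_al1', m_al2', m_al3', m_g0', m_g1', m_pi', m_be0', m_be1', m_be2', m_be3', m_q1',
      m_q2', m_q3', m_e0', m_e1', m_ph', m_c0', m_c1', m_f0', m_f1', m_z', m_rho', m_th', m_eta',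
        m_zeta'⟩

theorem i_b2c {P P' : Par K} (h : Rel P P')
    (a0 : P.al0 = 0) (a0' : P'.al0 = 0) (b0 : P.be0 = 0) (b0' : P'.be0 = 0) (ze : P.zeta = 0)
    (ze' : P'.zeta = 0) (rh : P.rho = 0) (rh' : P'.rho = 0) (e0z' : P'.e0 = 0)
    (f0z' : P'.f0 = 0) (q1z' : P'.q1 = 0) (zz' : P'.z = 0)
    (ne : P.e0 ≠ 0) (ng : P'.g0 ≠ 0)
    (hD : P.e0 * P.f0 + -(P.q1 * P.z) = 0) :
    rk k (Set.range (vals P P')) + 18 ≤ 52 := by
  obtain ⟨r1, r2, r3, r4, r5, r6, r7, r8, r9, r10, r11, r12, r13, r14, r15, r16, r17, r18, r19,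
    r20, r21, r22, r23⟩ := h
  simp only [Br] at *
  refine rk_det P P' {.inl .al0, .inr .al0, .inl .be0, .inr .be0, .inl .zeta, .inr .zeta, .inl
    .rho, .inr .rho, .inr .e0, .inr .f0, .inr .q1, .inr .z, .inl .f0, .inr .al1, .inr .c0, .inl
      .c0, .inr .f1, .inr .c1} (by decide) fun L hL => ?_
  have m_al1 : P.al1 ∈ L := hL (.inl .al1) (by decide)
  have m_al2 : P.al2 ∈ L := hL (.inl .al2) (by decide)
  have m_al3 : P.al3 ∈ L := hL (.inl .al3) (by decide)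
  have m_g0 : P.g0 ∈ L := hL (.inl .g0) (by decide)
  have m_g1 : P.g1 ∈ L := hL (.inl .g1) (by decide)
  have m_pi : P.pi ∈ L := hL (.inl .pi) (by decide)
  have m_be1 : P.be1 ∈ L := hL (.inl .be1) (by decide)
  have m_be2 : P.be2 ∈ L := hL (.inl .be2) (by decide)
  have m_be3 : P.be3 ∈ L := hL (.inl .be3) (by decide)
  have m_q1 : P.q1 ∈ L := hL (.inl .q1) (by decide)
  have m_q2 : P.q2 ∈ L := hL (.inl .q2) (by decide)
  have m_q3 : P.q3 ∈ L := hL (.inl .q3) (by decide)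
  have m_e0 : P.e0 ∈ L := hL (.inl .e0) (by decide)
  have m_e1 : P.e1 ∈ L := hL (.inl .e1) (by decide)
  have m_ph : P.ph ∈ L := hL (.inl .ph) (by decide)
  have m_c1 : P.c1 ∈ L := hL (.inl .c1) (by decide)
  have m_f1 : P.f1 ∈ L := hL (.inl .f1) (by decide)
  have m_z : P.z ∈ L := hL (.inl .z) (by decide)
  have m_th : P.th ∈ L := hL (.inl .th) (by decide)
  have m_eta : P.eta ∈ L := hL (.inl .eta) (by decide)
  have m_al2' : P'.al2 ∈ L := hL (.inr .al2) (by decide)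
  have m_al3' : P'.al3 ∈ L := hL (.inr .al3) (by decide)
  have m_g0' : P'.g0 ∈ L := hL (.inr .g0) (by decide)
  have m_g1' : P'.g1 ∈ L := hL (.inr .g1) (by decide)
  have m_pi' : P'.pi ∈ L := hL (.inr .pi) (by decide)
  have m_be1' : P'.be1 ∈ L := hL (.inr .be1) (by decide)
  have m_be2' : P'.be2 ∈ L := hL (.inr .be2) (by decide)
  have m_be3' : P'.be3 ∈ L := hL (.inr .be3) (by decide)
  have m_q2' : P'.q2 ∈ L := hL (.inr .q2) (by decide)
  have m_q3' : P'.q3 ∈ L := hL (.inr .q3) (by decide)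
  have m_e1' : P'.e1 ∈ L := hL (.inr .e1) (by decide)
  have m_ph' : P'.ph ∈ L := hL (.inr .ph) (by decide)
  have m_th' : P'.th ∈ L := hL (.inr .th) (by decide)
  have m_eta' : P'.eta ∈ L := hL (.inr .eta) (by decide)
  have m_al0 : P.al0 ∈ L := by rw [a0]; exact zero_mem L
  have m_al0' : P'.al0 ∈ L := by rw [a0']; exact zero_mem L
  have m_be0 : P.be0 ∈ L := by rw [b0]; exact zero_mem L
  have m_be0' : P'.be0 ∈ L := by rw [b0']; exact zero_mem L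
  have m_zeta : P.zeta ∈ L := by rw [ze]; exact zero_mem L
  have m_zeta' : P'.zeta ∈ L := by rw [ze']; exact zero_mem L
  have m_rho : P.rho ∈ L := by rw [rh]; exact zero_mem L
  have m_rho' : P'.rho ∈ L := by rw [rh']; exact zero_mem L
  have m_e0' : P'.e0 ∈ L := by rw [e0z']; exact zero_mem L
  have m_f0' : P'.f0 ∈ L := by rw [f0z']; exact zero_mem L
  have m_q1' : P'.q1 ∈ L := by rw [q1z']; exact zero_mem L
  have m_z' : P'.z ∈ L := by rw [zz']; exact zero_mem L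
  have m_f0 : P.f0 ∈ L := mem_lin ne m_e0 (neg_mem (mul_mem m_q1 m_z)) hD
  have m_al1' : P'.al1 ∈ L := mem_lin ne m_e0
    (mul_mem m_g0' m_z)
    (show P.e0 * P'.al1 + (P'.g0 * P.z) = 0 by
      linear_combination 1 * r5 + (-1) * P.e1 * a0' + (1) * P'.e1 * a0 + (1) * P.al1 * e0z' + (1) *
        P.g0 * zz' + (-1) * P'.pi * ze + (1) * P.pi * ze')
  have m_c0' : P'.c0 ∈ L := mem_lin ne m_e0
    (mul_mem m_be1' m_q1)
    (show P.e0 * P'.c0 + (P'.be1 * P.q1) = 0 by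
      linear_combination (-1) * r15 + (1) * P.be1 * q1z' + (1) * P'.q2 * b0 + (-1) * P.q2 * b0' +
        (1) * P.c0 * e0z')
  have m_c0 : P.c0 ∈ L := mem_lin ng m_g0'
    (add_mem (add_mem (mul_mem m_al1' m_be1) (neg_mem (mul_mem m_al1 m_be1'))) (neg_mem (mul_mem
      m_c0' m_g0)))
    (show P'.g0 * P.c0 + (P'.al1 * P.be1 + -(P.al1 * P'.be1) + -(P'.c0 * P.g0)) = 0 by
      linear_combination 1 * r8 + (-1) * P.be2 * a0' + (1) * P'.be2 * a0 + (-1) * P'.al2 * b0 + (1)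
        * P.al2 * b0')
  have m_f1' : P'.f1 ∈ L := mem_lin ne m_e0
    (add_mem (add_mem (add_mem (add_mem (neg_mem (mul_mem m_al1 m_be1')) (mul_mem m_al1' m_be1))
      (neg_mem (mul_mem m_e1' m_f0))) (neg_mem (mul_mem m_eta m_ph'))) (mul_mem m_eta' m_ph))
    (show P.e0 * P'.f1 + (-(P.al1 * P'.be1) + P'.al1 * P.be1 + -(P'.e1 * P.f0) + -(P.eta * P'.ph) +
      P'.eta * P.ph) = 0 by
      linear_combination (-1) * r16 + (1) * P.al2 * b0' + (-1) * P'.al2 * b0 + (1) * P'.be2 * a0 +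
        (-1) * P.be2 * a0' + (1) * P.f1 * e0z' + (-1) * P.e1 * f0z')
  have m_c1' : P'.c1 ∈ L := mem_lin ne m_e0
    (add_mem (add_mem (add_mem (add_mem (add_mem (add_mem (mul_mem m_be2' m_q1) (neg_mem (mul_mem
      m_be1 m_q2'))) (mul_mem m_be1' m_q2)) (neg_mem (mul_mem m_c0 m_e1'))) (mul_mem m_c0' m_e1))
        (neg_mem (mul_mem m_ph' m_th))) (mul_mem m_ph m_th'))
    (show P.e0 * P'.c1 + (P'.be2 * P.q1 + -(P.be1 * P'.q2) + P'.be1 * P.q2 + -(P.c0 * P'.e1) +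
      P'.c0 * P.e1 + -(P'.ph * P.th) + P.ph * P'.th) = 0 by
      linear_combination (-1) * r17 + (1) * P.be2 * q1z' + (1) * P'.q3 * b0 + (-1) * P.q3 * b0' +
        (1) * P.c1 * e0z')
  exact mem_all P P' ⟨m_al0, m_al1, m_al2, m_al3, m_g0, m_g1, m_pi, m_be0, m_be1, m_be2, m_be3,
    m_q1, m_q2, m_q3, m_e0, m_e1, m_ph, m_c0, m_c1, m_f0, m_f1, m_z, m_rho, m_th, m_eta, m_zeta⟩
    ⟨m_al0', m_al1', m_al2', m_al3', m_g0', m_g1', m_pi', m_be0', m_be1', m_be2', m_be3', m_q1',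
      m_q2', m_q3', m_e0', m_e1', m_ph', m_c0', m_c1', m_f0', m_f1', m_z', m_rho', m_th', m_eta',
        m_zeta'⟩

theorem i_b2d {P P' : Par K} (h : Rel P P')
    (a0 : P.al0 = 0) (a0' : P'.al0 = 0) (b0 : P.be0 = 0) (b0' : P'.be0 = 0) (ze : P.zeta = 0)
    (ze' : P'.zeta = 0) (rh : P.rho = 0) (rh' : P'.rho = 0) (e0z' : P'.e0 = 0)
    (f0z' : P'.f0 = 0) (q1z' : P'.q1 = 0) (zz' : P'.z = 0)
    (ne : P.e0 ≠ 0) (nb : P'.be1 ≠ 0)
    (hD : P.e0 * P.f0 + -(P.q1 * P.z) = 0) :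
    rk k (Set.range (vals P P')) + 18 ≤ 52 := by
  obtain ⟨r1, r2, r3, r4, r5, r6, r7, r8, r9, r10, r11, r12, r13, r14, r15, r16, r17, r18, r19,
    r20, r21, r22, r23⟩ := h
  simp only [Br] at *
  refine rk_det P P' {.inl .al0, .inr .al0, .inl .be0, .inr .be0, .inl .zeta, .inr .zeta, .inl
    .rho, .inr .rho, .inr .e0, .inr .f0, .inr .q1, .inr .z, .inl .f0, .inr .al1, .inr .c0, .inl
      .al1, .inr .f1, .inr .c1} (by decide) fun L hL => ?_
  have m_al2 : P.al2 ∈ L := hL (.inl .al2) (by decide)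
  have m_al3 : P.al3 ∈ L := hL (.inl .al3) (by decide)
  have m_g0 : P.g0 ∈ L := hL (.inl .g0) (by decide)
  have m_g1 : P.g1 ∈ L := hL (.inl .g1) (by decide)
  have m_pi : P.pi ∈ L := hL (.inl .pi) (by decide)
  have m_be1 : P.be1 ∈ L := hL (.inl .be1) (by decide)
  have m_be2 : P.be2 ∈ L := hL (.inl .be2) (by decide)
  have m_be3 : P.be3 ∈ L := hL (.inl .be3) (by decide)
  have m_q1 : P.q1 ∈ L := hL (.inl .q1) (by decide)
  have m_q2 : P.q2 ∈ L := hL (.inl .q2) (by decide)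
  have m_q3 : P.q3 ∈ L := hL (.inl .q3) (by decide)
  have m_e0 : P.e0 ∈ L := hL (.inl .e0) (by decide)
  have m_e1 : P.e1 ∈ L := hL (.inl .e1) (by decide)
  have m_ph : P.ph ∈ L := hL (.inl .ph) (by decide)
  have m_c0 : P.c0 ∈ L := hL (.inl .c0) (by decide)
  have m_c1 : P.c1 ∈ L := hL (.inl .c1) (by decide)
  have m_f1 : P.f1 ∈ L := hL (.inl .f1) (by decide)
  have m_z : P.z ∈ L := hL (.inl .z) (by decide)
  have m_th : P.th ∈ L := hL (.inl .th) (by decide)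
  have m_eta : P.eta ∈ L := hL (.inl .eta) (by decide)
  have m_al2' : P'.al2 ∈ L := hL (.inr .al2) (by decide)
  have m_al3' : P'.al3 ∈ L := hL (.inr .al3) (by decide)
  have m_g0' : P'.g0 ∈ L := hL (.inr .g0) (by decide)
  have m_g1' : P'.g1 ∈ L := hL (.inr .g1) (by decide)
  have m_pi' : P'.pi ∈ L := hL (.inr .pi) (by decide)
  have m_be1' : P'.be1 ∈ L := hL (.inr .be1) (by decide)
  have m_be2' : P'.be2 ∈ L := hL (.inr .be2) (by decide)
  have m_be3' : P'.be3 ∈ L := hL (.inr .be3) (by decide)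
  have m_q2' : P'.q2 ∈ L := hL (.inr .q2) (by decide)
  have m_q3' : P'.q3 ∈ L := hL (.inr .q3) (by decide)
  have m_e1' : P'.e1 ∈ L := hL (.inr .e1) (by decide)
  have m_ph' : P'.ph ∈ L := hL (.inr .ph) (by decide)
  have m_th' : P'.th ∈ L := hL (.inr .th) (by decide)
  have m_eta' : P'.eta ∈ L := hL (.inr .eta) (by decide)
  have m_al0 : P.al0 ∈ L := by rw [a0]; exact zero_mem L
  have m_al0' : P'.al0 ∈ L := by rw [a0']; exact zero_mem L
  have m_be0 : P.be0 ∈ L := by rw [b0]; exact zero_mem L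
  have m_be0' : P'.be0 ∈ L := by rw [b0']; exact zero_mem L
  have m_zeta : P.zeta ∈ L := by rw [ze]; exact zero_mem L
  have m_zeta' : P'.zeta ∈ L := by rw [ze']; exact zero_mem L
  have m_rho : P.rho ∈ L := by rw [rh]; exact zero_mem L
  have m_rho' : P'.rho ∈ L := by rw [rh']; exact zero_mem L
  have m_e0' : P'.e0 ∈ L := by rw [e0z']; exact zero_mem L
  have m_f0' : P'.f0 ∈ L := by rw [f0z']; exact zero_mem L
  have m_q1' : P'.q1 ∈ L := by rw [q1z']; exact zero_mem L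
  have m_z' : P'.z ∈ L := by rw [zz']; exact zero_mem L
  have m_f0 : P.f0 ∈ L := mem_lin ne m_e0 (neg_mem (mul_mem m_q1 m_z)) hD
  have m_al1' : P'.al1 ∈ L := mem_lin ne m_e0
    (mul_mem m_g0' m_z)
    (show P.e0 * P'.al1 + (P'.g0 * P.z) = 0 by
      linear_combination 1 * r5 + (-1) * P.e1 * a0' + (1) * P'.e1 * a0 + (1) * P.al1 * e0z' + (1) *
        P.g0 * zz' + (-1) * P'.pi * ze + (1) * P.pi * ze')
  have m_c0' : P'.c0 ∈ L := mem_lin ne m_e0
    (mul_mem m_be1' m_q1)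
    (show P.e0 * P'.c0 + (P'.be1 * P.q1) = 0 by
      linear_combination (-1) * r15 + (1) * P.be1 * q1z' + (1) * P'.q2 * b0 + (-1) * P.q2 * b0' +
        (1) * P.c0 * e0z')
  have m_al1 : P.al1 ∈ L := mem_lin nb m_be1'
    (add_mem (add_mem (neg_mem (mul_mem m_al1' m_be1)) (neg_mem (mul_mem m_c0 m_g0'))) (mul_mem
      m_c0' m_g0))
    (show P'.be1 * P.al1 + (-(P'.al1 * P.be1) + -(P.c0 * P'.g0) + P'.c0 * P.g0) = 0 by
      linear_combination (-1) * r8 + (1) * P.be2 * a0' + (-1) * P'.be2 * a0 + (1) * P'.al2 * b0 +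
        (-1) * P.al2 * b0')
  have m_f1' : P'.f1 ∈ L := mem_lin ne m_e0
    (add_mem (add_mem (add_mem (add_mem (neg_mem (mul_mem m_al1 m_be1')) (mul_mem m_al1' m_be1))
      (neg_mem (mul_mem m_e1' m_f0))) (neg_mem (mul_mem m_eta m_ph'))) (mul_mem m_eta' m_ph))
    (show P.e0 * P'.f1 + (-(P.al1 * P'.be1) + P'.al1 * P.be1 + -(P'.e1 * P.f0) + -(P.eta * P'.ph) +
      P'.eta * P.ph) = 0 by
      linear_combination (-1) * r16 + (1) * P.al2 * b0' + (-1) * P'.al2 * b0 + (1) * P'.be2 * a0 +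
        (-1) * P.be2 * a0' + (1) * P.f1 * e0z' + (-1) * P.e1 * f0z')
  have m_c1' : P'.c1 ∈ L := mem_lin ne m_e0
    (add_mem (add_mem (add_mem (add_mem (add_mem (add_mem (mul_mem m_be2' m_q1) (neg_mem (mul_mem
      m_be1 m_q2'))) (mul_mem m_be1' m_q2)) (neg_mem (mul_mem m_c0 m_e1'))) (mul_mem m_c0' m_e1))
        (neg_mem (mul_mem m_ph' m_th))) (mul_mem m_ph m_th'))
    (show P.e0 * P'.c1 + (P'.be2 * P.q1 + -(P.be1 * P'.q2) + P'.be1 * P.q2 + -(P.c0 * P'.e1) +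
      P'.c0 * P.e1 + -(P'.ph * P.th) + P.ph * P'.th) = 0 by
      linear_combination (-1) * r17 + (1) * P.be2 * q1z' + (1) * P'.q3 * b0 + (-1) * P.q3 * b0' +
        (1) * P.c1 * e0z')
  exact mem_all P P' ⟨m_al0, m_al1, m_al2, m_al3, m_g0, m_g1, m_pi, m_be0, m_be1, m_be2, m_be3,
    m_q1, m_q2, m_q3, m_e0, m_e1, m_ph, m_c0, m_c1, m_f0, m_f1, m_z, m_rho, m_th, m_eta, m_zeta⟩
    ⟨m_al0', m_al1', m_al2', m_al3', m_g0', m_g1', m_pi', m_be0', m_be1', m_be2', m_be3', m_q1',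
      m_q2', m_q3', m_e0', m_e1', m_ph', m_c0', m_c1', m_f0', m_f1', m_z', m_rho', m_th', m_eta',
        m_zeta'⟩

theorem i_b2e {P P' : Par K} (h : Rel P P')
    (a0 : P.al0 = 0) (a0' : P'.al0 = 0) (b0 : P.be0 = 0) (b0' : P'.be0 = 0) (ze : P.zeta = 0)
    (ze' : P'.zeta = 0) (rh : P.rho = 0) (rh' : P'.rho = 0) (e0z' : P'.e0 = 0)
    (f0z' : P'.f0 = 0) (q1z' : P'.q1 = 0) (zz' : P'.z = 0) (g0z : P'.g0 = 0) (be1z : P'.be1 = 0)
    (ne : P.e0 ≠ 0)
    (hD : P.e0 * P.f0 + -(P.q1 * P.z) = 0) :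
    rk k (Set.range (vals P P')) + 18 ≤ 52 := by
  obtain ⟨r1, r2, r3, r4, r5, r6, r7, r8, r9, r10, r11, r12, r13, r14, r15, r16, r17, r18, r19,
    r20, r21, r22, r23⟩ := h
  simp only [Br] at *
  refine rk_det P P' {.inl .al0, .inr .al0, .inl .be0, .inr .be0, .inl .zeta, .inr .zeta, .inl
    .rho, .inr .rho, .inr .e0, .inr .f0, .inr .q1, .inr .z, .inr .g0, .inr .be1, .inl .f0, .inr
      .al1, .inr .c0, .inr .f1, .inr .c1} (by decide) fun L hL => ?_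
  have m_al1 : P.al1 ∈ L := hL (.inl .al1) (by decide)
  have m_al2 : P.al2 ∈ L := hL (.inl .al2) (by decide)
  have m_al3 : P.al3 ∈ L := hL (.inl .al3) (by decide)
  have m_g0 : P.g0 ∈ L := hL (.inl .g0) (by decide)
  have m_g1 : P.g1 ∈ L := hL (.inl .g1) (by decide)
  have m_pi : P.pi ∈ L := hL (.inl .pi) (by decide)
  have m_be1 : P.be1 ∈ L := hL (.inl .be1) (by decide)
  have m_be2 : P.be2 ∈ L := hL (.inl .be2) (by decide)
  have m_be3 : P.be3 ∈ L := hL (.inl .be3) (by decide)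
  have m_q1 : P.q1 ∈ L := hL (.inl .q1) (by decide)
  have m_q2 : P.q2 ∈ L := hL (.inl .q2) (by decide)
  have m_q3 : P.q3 ∈ L := hL (.inl .q3) (by decide)
  have m_e0 : P.e0 ∈ L := hL (.inl .e0) (by decide)
  have m_e1 : P.e1 ∈ L := hL (.inl .e1) (by decide)
  have m_ph : P.ph ∈ L := hL (.inl .ph) (by decide)
  have m_c0 : P.c0 ∈ L := hL (.inl .c0) (by decide)
  have m_c1 : P.c1 ∈ L := hL (.inl .c1) (by decide)
  have m_f1 : P.f1 ∈ L := hL (.inl .f1) (by decide)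
  have m_z : P.z ∈ L := hL (.inl .z) (by decide)
  have m_th : P.th ∈ L := hL (.inl .th) (by decide)
  have m_eta : P.eta ∈ L := hL (.inl .eta) (by decide)
  have m_al2' : P'.al2 ∈ L := hL (.inr .al2) (by decide)
  have m_al3' : P'.al3 ∈ L := hL (.inr .al3) (by decide)
  have m_g1' : P'.g1 ∈ L := hL (.inr .g1) (by decide)
  have m_pi' : P'.pi ∈ L := hL (.inr .pi) (by decide)
  have m_be2' : P'.be2 ∈ L := hL (.inr .be2) (by decide)
  have m_be3' : P'.be3 ∈ L := hL (.inr .be3) (by decide)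
  have m_q2' : P'.q2 ∈ L := hL (.inr .q2) (by decide)
  have m_q3' : P'.q3 ∈ L := hL (.inr .q3) (by decide)
  have m_e1' : P'.e1 ∈ L := hL (.inr .e1) (by decide)
  have m_ph' : P'.ph ∈ L := hL (.inr .ph) (by decide)
  have m_th' : P'.th ∈ L := hL (.inr .th) (by decide)
  have m_eta' : P'.eta ∈ L := hL (.inr .eta) (by decide)
  have m_al0 : P.al0 ∈ L := by rw [a0]; exact zero_mem L
  have m_al0' : P'.al0 ∈ L := by rw [a0']; exact zero_mem L
  have m_be0 : P.be0 ∈ L := by rw [b0]; exact zero_mem L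
  have m_be0' : P'.be0 ∈ L := by rw [b0']; exact zero_mem L
  have m_zeta : P.zeta ∈ L := by rw [ze]; exact zero_mem L
  have m_zeta' : P'.zeta ∈ L := by rw [ze']; exact zero_mem L
  have m_rho : P.rho ∈ L := by rw [rh]; exact zero_mem L
  have m_rho' : P'.rho ∈ L := by rw [rh']; exact zero_mem L
  have m_e0' : P'.e0 ∈ L := by rw [e0z']; exact zero_mem L
  have m_f0' : P'.f0 ∈ L := by rw [f0z']; exact zero_mem L
  have m_q1' : P'.q1 ∈ L := by rw [q1z']; exact zero_mem L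
  have m_z' : P'.z ∈ L := by rw [zz']; exact zero_mem L
  have m_g0' : P'.g0 ∈ L := by rw [g0z]; exact zero_mem L
  have m_be1' : P'.be1 ∈ L := by rw [be1z]; exact zero_mem L
  have m_f0 : P.f0 ∈ L := mem_lin ne m_e0 (neg_mem (mul_mem m_q1 m_z)) hD
  have m_al1' : P'.al1 ∈ L := mem_lin ne m_e0
    (zero_mem L)
    (show P.e0 * P'.al1 + (0) = 0 by
      linear_combination 1 * r5 + (-1) * P.e1 * a0' + (1) * P'.e1 * a0 + (1) * P.al1 * e0z' + (-1)
        * P.z * g0z + (1) * P.g0 * zz' + (-1) * P'.pi * ze + (1) * P.pi * ze')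
  have m_c0' : P'.c0 ∈ L := mem_lin ne m_e0
    (zero_mem L)
    (show P.e0 * P'.c0 + (0) = 0 by
      linear_combination (-1) * r15 + (1) * P.be1 * q1z' + (-1) * P.q1 * be1z + (1) * P'.q2 * b0 +
        (-1) * P.q2 * b0' + (1) * P.c0 * e0z')
  have m_f1' : P'.f1 ∈ L := mem_lin ne m_e0
    (add_mem (add_mem (add_mem (mul_mem m_al1' m_be1) (neg_mem (mul_mem m_e1' m_f0))) (neg_mem
      (mul_mem m_eta m_ph'))) (mul_mem m_eta' m_ph))
    (show P.e0 * P'.f1 + (P'.al1 * P.be1 + -(P'.e1 * P.f0) + -(P.eta * P'.ph) + P'.eta * P.ph) = 0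
      by
      linear_combination (-1) * r16 + (1) * P.al2 * b0' + (-1) * P'.al2 * b0 + (1) * P.al1 * be1z +
        (1) * P'.be2 * a0 + (-1) * P.be2 * a0' + (1) * P.f1 * e0z' + (-1) * P.e1 * f0z')
  have m_c1' : P'.c1 ∈ L := mem_lin ne m_e0
    (add_mem (add_mem (add_mem (add_mem (add_mem (mul_mem m_be2' m_q1) (neg_mem (mul_mem m_be1
      m_q2'))) (neg_mem (mul_mem m_c0 m_e1'))) (mul_mem m_c0' m_e1)) (neg_mem (mul_mem m_ph'
        m_th))) (mul_mem m_ph m_th'))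
    (show P.e0 * P'.c1 + (P'.be2 * P.q1 + -(P.be1 * P'.q2) + -(P.c0 * P'.e1) + P'.c0 * P.e1 +
      -(P'.ph * P.th) + P.ph * P'.th) = 0 by
      linear_combination (-1) * r17 + (1) * P.be2 * q1z' + (-1) * P.q2 * be1z + (1) * P'.q3 * b0 +
        (-1) * P.q3 * b0' + (1) * P.c1 * e0z')
  exact mem_all P P' ⟨m_al0, m_al1, m_al2, m_al3, m_g0, m_g1, m_pi, m_be0, m_be1, m_be2, m_be3,
    m_q1, m_q2, m_q3, m_e0, m_e1, m_ph, m_c0, m_c1, m_f0, m_f1, m_z, m_rho, m_th, m_eta, m_zeta⟩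
    ⟨m_al0', m_al1', m_al2', m_al3', m_g0', m_g1', m_pi', m_be0', m_be1', m_be2', m_be3', m_q1',
      m_q2', m_q3', m_e0', m_e1', m_ph', m_c0', m_c1', m_f0', m_f1', m_z', m_rho', m_th', m_eta',
        m_zeta'⟩

theorem i_b2f {P P' : Par K} (h : Rel P P')
    (a0 : P.al0 = 0) (a0' : P'.al0 = 0) (b0 : P.be0 = 0) (b0' : P'.be0 = 0) (ze : P.zeta = 0)
    (ze' : P'.zeta = 0) (rh : P.rho = 0) (rh' : P'.rho = 0) (e0z' : P'.e0 = 0)
    (f0z' : P'.f0 = 0) (q1z' : P'.q1 = 0) (zz' : P'.z = 0) (e0z : P.e0 = 0) (vz : P.q1 = 0)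
    (nf : P.f0 ≠ 0) :
    rk k (Set.range (vals P P')) + 18 ≤ 52 := by
  obtain ⟨r1, r2, r3, r4, r5, r6, r7, r8, r9, r10, r11, r12, r13, r14, r15, r16, r17, r18, r19,
    r20, r21, r22, r23⟩ := h
  simp only [Br] at *
  refine rk_det P P' {.inl .al0, .inr .al0, .inl .be0, .inr .be0, .inl .zeta, .inr .zeta, .inl
    .rho, .inr .rho, .inr .e0, .inr .f0, .inr .q1, .inr .z, .inl .e0, .inl .q1, .inr .g0, .inr
      .be1, .inr .e1, .inr .g1} (by decide) fun L hL => ?_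
  have m_al1 : P.al1 ∈ L := hL (.inl .al1) (by decide)
  have m_al2 : P.al2 ∈ L := hL (.inl .al2) (by decide)
  have m_al3 : P.al3 ∈ L := hL (.inl .al3) (by decide)
  have m_g0 : P.g0 ∈ L := hL (.inl .g0) (by decide)
  have m_g1 : P.g1 ∈ L := hL (.inl .g1) (by decide)
  have m_pi : P.pi ∈ L := hL (.inl .pi) (by decide)
  have m_be1 : P.be1 ∈ L := hL (.inl .be1) (by decide)
  have m_be2 : P.be2 ∈ L := hL (.inl .be2) (by decide)
  have m_be3 : P.be3 ∈ L := hL (.inl .be3) (by decide)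
  have m_q2 : P.q2 ∈ L := hL (.inl .q2) (by decide)
  have m_q3 : P.q3 ∈ L := hL (.inl .q3) (by decide)
  have m_e1 : P.e1 ∈ L := hL (.inl .e1) (by decide)
  have m_ph : P.ph ∈ L := hL (.inl .ph) (by decide)
  have m_c0 : P.c0 ∈ L := hL (.inl .c0) (by decide)
  have m_c1 : P.c1 ∈ L := hL (.inl .c1) (by decide)
  have m_f0 : P.f0 ∈ L := hL (.inl .f0) (by decide)
  have m_f1 : P.f1 ∈ L := hL (.inl .f1) (by decide)
  have m_z : P.z ∈ L := hL (.inl .z) (by decide)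
  have m_th : P.th ∈ L := hL (.inl .th) (by decide)
  have m_eta : P.eta ∈ L := hL (.inl .eta) (by decide)
  have m_al1' : P'.al1 ∈ L := hL (.inr .al1) (by decide)
  have m_al2' : P'.al2 ∈ L := hL (.inr .al2) (by decide)
  have m_al3' : P'.al3 ∈ L := hL (.inr .al3) (by decide)
  have m_pi' : P'.pi ∈ L := hL (.inr .pi) (by decide)
  have m_be2' : P'.be2 ∈ L := hL (.inr .be2) (by decide)
  have m_be3' : P'.be3 ∈ L := hL (.inr .be3) (by decide)
  have m_q2' : P'.q2 ∈ L := hL (.inr .q2) (by decide)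
  have m_q3' : P'.q3 ∈ L := hL (.inr .q3) (by decide)
  have m_ph' : P'.ph ∈ L := hL (.inr .ph) (by decide)
  have m_c0' : P'.c0 ∈ L := hL (.inr .c0) (by decide)
  have m_c1' : P'.c1 ∈ L := hL (.inr .c1) (by decide)
  have m_f1' : P'.f1 ∈ L := hL (.inr .f1) (by decide)
  have m_th' : P'.th ∈ L := hL (.inr .th) (by decide)
  have m_eta' : P'.eta ∈ L := hL (.inr .eta) (by decide)
  have m_al0 : P.al0 ∈ L := by rw [a0]; exact zero_mem L
  have m_al0' : P'.al0 ∈ L := by rw [a0']; exact zero_mem L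
  have m_be0 : P.be0 ∈ L := by rw [b0]; exact zero_mem L
  have m_be0' : P'.be0 ∈ L := by rw [b0']; exact zero_mem L
  have m_zeta : P.zeta ∈ L := by rw [ze]; exact zero_mem L
  have m_zeta' : P'.zeta ∈ L := by rw [ze']; exact zero_mem L
  have m_rho : P.rho ∈ L := by rw [rh]; exact zero_mem L
  have m_rho' : P'.rho ∈ L := by rw [rh']; exact zero_mem L
  have m_e0' : P'.e0 ∈ L := by rw [e0z']; exact zero_mem L
  have m_f0' : P'.f0 ∈ L := by rw [f0z']; exact zero_mem L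
  have m_q1' : P'.q1 ∈ L := by rw [q1z']; exact zero_mem L
  have m_z' : P'.z ∈ L := by rw [zz']; exact zero_mem L
  have m_e0 : P.e0 ∈ L := by rw [e0z]; exact zero_mem L
  have m_q1 : P.q1 ∈ L := by rw [vz]; exact zero_mem L
  have m_g0' : P'.g0 ∈ L := mem_lin nf m_f0
    (zero_mem L)
    (show P.f0 * P'.g0 + (0) = 0 by
      linear_combination 1 * r7 + (-1) * P.q2 * a0' + (1) * P'.q2 * a0 + (-1) * P'.al1 * vz + (1) *
        P.al1 * q1z' + (1) * P.g0 * f0z')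
  have m_be1' : P'.be1 ∈ L := mem_lin nf m_f0
    (mul_mem m_c0' m_z)
    (show P.f0 * P'.be1 + (P'.c0 * P.z) = 0 by
      linear_combination (-1) * r21 + (1) * P.be1 * f0z' + (1) * P'.f1 * b0 + (-1) * P.f1 * b0' +
        (1) * P.c0 * zz' + (1) * P.th * rh' + (-1) * P'.th * rh)
  have m_e1' : P'.e1 ∈ L := mem_lin nf m_f0
    (add_mem (add_mem (add_mem (mul_mem m_al1 m_be1') (neg_mem (mul_mem m_al1' m_be1))) (mul_mem
      m_eta m_ph')) (neg_mem (mul_mem m_eta' m_ph)))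
    (show P.f0 * P'.e1 + (P.al1 * P'.be1 + -(P'.al1 * P.be1) + P.eta * P'.ph + -(P'.eta * P.ph)) =
      0 by
      linear_combination 1 * r16 + (-1) * P.al2 * b0' + (1) * P'.al2 * b0 + (-1) * P'.be2 * a0 +
        (1) * P.be2 * a0' + (-1) * P.f1 * e0z' + (1) * P'.f1 * e0z + (1) * P.e1 * f0z')
  have m_g1' : P'.g1 ∈ L := mem_lin nf m_f0
    (add_mem (add_mem (add_mem (add_mem (add_mem (mul_mem m_al1' m_q2) (neg_mem (mul_mem m_al1
      m_q2'))) (mul_mem m_f1 m_g0')) (neg_mem (mul_mem m_f1' m_g0))) (mul_mem m_eta m_pi'))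
        (neg_mem (mul_mem m_eta' m_pi)))
    (show P.f0 * P'.g1 + (P'.al1 * P.q2 + -(P.al1 * P'.q2) + P.f1 * P'.g0 + -(P'.f1 * P.g0) + P.eta
      * P'.pi + -(P'.eta * P.pi)) = 0 by
      linear_combination 1 * r9 + (-1) * P.q3 * a0' + (1) * P'.q3 * a0 + (-1) * P'.al2 * vz + (1) *
        P.al2 * q1z' + (1) * P.g1 * f0z')
  exact mem_all P P' ⟨m_al0, m_al1, m_al2, m_al3, m_g0, m_g1, m_pi, m_be0, m_be1, m_be2, m_be3,
    m_q1, m_q2, m_q3, m_e0, m_e1, m_ph, m_c0, m_c1, m_f0, m_f1, m_z, m_rho, m_th, m_eta, m_zeta⟩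
    ⟨m_al0', m_al1', m_al2', m_al3', m_g0', m_g1', m_pi', m_be0', m_be1', m_be2', m_be3', m_q1',
      m_q2', m_q3', m_e0', m_e1', m_ph', m_c0', m_c1', m_f0', m_f1', m_z', m_rho', m_th', m_eta',
        m_zeta'⟩

theorem i_b2g {P P' : Par K} (h : Rel P P')
    (a0 : P.al0 = 0) (a0' : P'.al0 = 0) (b0 : P.be0 = 0) (b0' : P'.be0 = 0) (ze : P.zeta = 0)
    (ze' : P'.zeta = 0) (rh : P.rho = 0) (rh' : P'.rho = 0) (e0z' : P'.e0 = 0)
    (f0z' : P'.f0 = 0) (q1z' : P'.q1 = 0) (zz' : P'.z = 0) (e0z : P.e0 = 0) (vz : P.z = 0)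
    (nf : P.f0 ≠ 0) :
    rk k (Set.range (vals P P')) + 18 ≤ 52 := by
  obtain ⟨r1, r2, r3, r4, r5, r6, r7, r8, r9, r10, r11, r12, r13, r14, r15, r16, r17, r18, r19,
    r20, r21, r22, r23⟩ := h
  simp only [Br] at *
  refine rk_det P P' {.inl .al0, .inr .al0, .inl .be0, .inr .be0, .inl .zeta, .inr .zeta, .inl
    .rho, .inr .rho, .inr .e0, .inr .f0, .inr .q1, .inr .z, .inl .e0, .inl .z, .inr .g0, .inr .be1,
      .inr .e1, .inr .g1} (by decide) fun L hL => ?_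
  have m_al1 : P.al1 ∈ L := hL (.inl .al1) (by decide)
  have m_al2 : P.al2 ∈ L := hL (.inl .al2) (by decide)
  have m_al3 : P.al3 ∈ L := hL (.inl .al3) (by decide)
  have m_g0 : P.g0 ∈ L := hL (.inl .g0) (by decide)
  have m_g1 : P.g1 ∈ L := hL (.inl .g1) (by decide)
  have m_pi : P.pi ∈ L := hL (.inl .pi) (by decide)
  have m_be1 : P.be1 ∈ L := hL (.inl .be1) (by decide)
  have m_be2 : P.be2 ∈ L := hL (.inl .be2) (by decide)
  have m_be3 : P.be3 ∈ L := hL (.inl .be3) (by decide)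
  have m_q1 : P.q1 ∈ L := hL (.inl .q1) (by decide)
  have m_q2 : P.q2 ∈ L := hL (.inl .q2) (by decide)
  have m_q3 : P.q3 ∈ L := hL (.inl .q3) (by decide)
  have m_e1 : P.e1 ∈ L := hL (.inl .e1) (by decide)
  have m_ph : P.ph ∈ L := hL (.inl .ph) (by decide)
  have m_c0 : P.c0 ∈ L := hL (.inl .c0) (by decide)
  have m_c1 : P.c1 ∈ L := hL (.inl .c1) (by decide)
  have m_f0 : P.f0 ∈ L := hL (.inl .f0) (by decide)
  have m_f1 : P.f1 ∈ L := hL (.inl .f1) (by decide)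
  have m_th : P.th ∈ L := hL (.inl .th) (by decide)
  have m_eta : P.eta ∈ L := hL (.inl .eta) (by decide)
  have m_al1' : P'.al1 ∈ L := hL (.inr .al1) (by decide)
  have m_al2' : P'.al2 ∈ L := hL (.inr .al2) (by decide)
  have m_al3' : P'.al3 ∈ L := hL (.inr .al3) (by decide)
  have m_pi' : P'.pi ∈ L := hL (.inr .pi) (by decide)
  have m_be2' : P'.be2 ∈ L := hL (.inr .be2) (by decide)
  have m_be3' : P'.be3 ∈ L := hL (.inr .be3) (by decide)
  have m_q2' : P'.q2 ∈ L := hL (.inr .q2) (by decide)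
  have m_q3' : P'.q3 ∈ L := hL (.inr .q3) (by decide)
  have m_ph' : P'.ph ∈ L := hL (.inr .ph) (by decide)
  have m_c0' : P'.c0 ∈ L := hL (.inr .c0) (by decide)
  have m_c1' : P'.c1 ∈ L := hL (.inr .c1) (by decide)
  have m_f1' : P'.f1 ∈ L := hL (.inr .f1) (by decide)
  have m_th' : P'.th ∈ L := hL (.inr .th) (by decide)
  have m_eta' : P'.eta ∈ L := hL (.inr .eta) (by decide)
  have m_al0 : P.al0 ∈ L := by rw [a0]; exact zero_mem L
  have m_al0' : P'.al0 ∈ L := by rw [a0']; exact zero_mem L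
  have m_be0 : P.be0 ∈ L := by rw [b0]; exact zero_mem L
  have m_be0' : P'.be0 ∈ L := by rw [b0']; exact zero_mem L
  have m_zeta : P.zeta ∈ L := by rw [ze]; exact zero_mem L
  have m_zeta' : P'.zeta ∈ L := by rw [ze']; exact zero_mem L
  have m_rho : P.rho ∈ L := by rw [rh]; exact zero_mem L
  have m_rho' : P'.rho ∈ L := by rw [rh']; exact zero_mem L
  have m_e0' : P'.e0 ∈ L := by rw [e0z']; exact zero_mem L
  have m_f0' : P'.f0 ∈ L := by rw [f0z']; exact zero_mem L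
  have m_q1' : P'.q1 ∈ L := by rw [q1z']; exact zero_mem L
  have m_z' : P'.z ∈ L := by rw [zz']; exact zero_mem L
  have m_e0 : P.e0 ∈ L := by rw [e0z]; exact zero_mem L
  have m_z : P.z ∈ L := by rw [vz]; exact zero_mem L
  have m_g0' : P'.g0 ∈ L := mem_lin nf m_f0
    (mul_mem m_al1' m_q1)
    (show P.f0 * P'.g0 + (P'.al1 * P.q1) = 0 by
      linear_combination 1 * r7 + (-1) * P.q2 * a0' + (1) * P'.q2 * a0 + (1) * P.al1 * q1z' + (1) *
        P.g0 * f0z')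
  have m_be1' : P'.be1 ∈ L := mem_lin nf m_f0
    (zero_mem L)
    (show P.f0 * P'.be1 + (0) = 0 by
      linear_combination (-1) * r21 + (1) * P.be1 * f0z' + (1) * P'.f1 * b0 + (-1) * P.f1 * b0' +
        (1) * P.c0 * zz' + (-1) * P'.c0 * vz + (1) * P.th * rh' + (-1) * P'.th * rh)
  have m_e1' : P'.e1 ∈ L := mem_lin nf m_f0
    (add_mem (add_mem (add_mem (mul_mem m_al1 m_be1') (neg_mem (mul_mem m_al1' m_be1))) (mul_mem
      m_eta m_ph')) (neg_mem (mul_mem m_eta' m_ph)))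
    (show P.f0 * P'.e1 + (P.al1 * P'.be1 + -(P'.al1 * P.be1) + P.eta * P'.ph + -(P'.eta * P.ph)) =
      0 by
      linear_combination 1 * r16 + (-1) * P.al2 * b0' + (1) * P'.al2 * b0 + (-1) * P'.be2 * a0 +
        (1) * P.be2 * a0' + (-1) * P.f1 * e0z' + (1) * P'.f1 * e0z + (1) * P.e1 * f0z')
  have m_g1' : P'.g1 ∈ L := mem_lin nf m_f0
    (add_mem (add_mem (add_mem (add_mem (add_mem (add_mem (mul_mem m_al1' m_q2) (neg_mem (mul_mem
      m_al1 m_q2'))) (mul_mem m_al2' m_q1)) (mul_mem m_f1 m_g0')) (neg_mem (mul_mem m_f1' m_g0)))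
        (mul_mem m_eta m_pi')) (neg_mem (mul_mem m_eta' m_pi)))
    (show P.f0 * P'.g1 + (P'.al1 * P.q2 + -(P.al1 * P'.q2) + P'.al2 * P.q1 + P.f1 * P'.g0 + -(P'.f1
      * P.g0) + P.eta * P'.pi + -(P'.eta * P.pi)) = 0 by
      linear_combination 1 * r9 + (-1) * P.q3 * a0' + (1) * P'.q3 * a0 + (1) * P.al2 * q1z' + (1) *
        P.g1 * f0z')
  exact mem_all P P' ⟨m_al0, m_al1, m_al2, m_al3, m_g0, m_g1, m_pi, m_be0, m_be1, m_be2, m_be3,
    m_q1, m_q2, m_q3, m_e0, m_e1, m_ph, m_c0, m_c1, m_f0, m_f1, m_z, m_rho, m_th, m_eta, m_zeta⟩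
    ⟨m_al0', m_al1', m_al2', m_al3', m_g0', m_g1', m_pi', m_be0', m_be1', m_be2', m_be3', m_q1',
      m_q2', m_q3', m_e0', m_e1', m_ph', m_c0', m_c1', m_f0', m_f1', m_z', m_rho', m_th', m_eta',
        m_zeta'⟩

theorem i_b2h {P P' : Par K} (h : Rel P P')
    (a0 : P.al0 = 0) (a0' : P'.al0 = 0) (b0 : P.be0 = 0) (b0' : P'.be0 = 0) (ze : P.zeta = 0)
    (ze' : P'.zeta = 0) (rh : P.rho = 0) (rh' : P'.rho = 0) (e0z' : P'.e0 = 0)
    (f0z' : P'.f0 = 0) (q1z' : P'.q1 = 0) (zz' : P'.z = 0) (e0z : P.e0 = 0) (f0z : P.f0 = 0)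
    (q1z : P.q1 = 0)
    (nz : P.z ≠ 0) (na : P.al1 ≠ 0) :
    rk k (Set.range (vals P P')) + 18 ≤ 52 := by
  obtain ⟨r1, r2, r3, r4, r5, r6, r7, r8, r9, r10, r11, r12, r13, r14, r15, r16, r17, r18, r19,
    r20, r21, r22, r23⟩ := h
  simp only [Br] at *
  refine rk_det P P' {.inl .al0, .inr .al0, .inl .be0, .inr .be0, .inl .zeta, .inr .zeta, .inl
    .rho, .inr .rho, .inr .e0, .inr .f0, .inr .q1, .inr .z, .inl .e0, .inl .f0, .inl .q1, .inr .g0,
      .inr .c0, .inr .be1} (by decide) fun L hL => ?_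
  have m_al1 : P.al1 ∈ L := hL (.inl .al1) (by decide)
  have m_al2 : P.al2 ∈ L := hL (.inl .al2) (by decide)
  have m_al3 : P.al3 ∈ L := hL (.inl .al3) (by decide)
  have m_g0 : P.g0 ∈ L := hL (.inl .g0) (by decide)
  have m_g1 : P.g1 ∈ L := hL (.inl .g1) (by decide)
  have m_pi : P.pi ∈ L := hL (.inl .pi) (by decide)
  have m_be1 : P.be1 ∈ L := hL (.inl .be1) (by decide)
  have m_be2 : P.be2 ∈ L := hL (.inl .be2) (by decide)
  have m_be3 : P.be3 ∈ L := hL (.inl .be3) (by decide)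
  have m_q2 : P.q2 ∈ L := hL (.inl .q2) (by decide)
  have m_q3 : P.q3 ∈ L := hL (.inl .q3) (by decide)
  have m_e1 : P.e1 ∈ L := hL (.inl .e1) (by decide)
  have m_ph : P.ph ∈ L := hL (.inl .ph) (by decide)
  have m_c0 : P.c0 ∈ L := hL (.inl .c0) (by decide)
  have m_c1 : P.c1 ∈ L := hL (.inl .c1) (by decide)
  have m_f1 : P.f1 ∈ L := hL (.inl .f1) (by decide)
  have m_z : P.z ∈ L := hL (.inl .z) (by decide)
  have m_th : P.th ∈ L := hL (.inl .th) (by decide)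
  have m_eta : P.eta ∈ L := hL (.inl .eta) (by decide)
  have m_al1' : P'.al1 ∈ L := hL (.inr .al1) (by decide)
  have m_al2' : P'.al2 ∈ L := hL (.inr .al2) (by decide)
  have m_al3' : P'.al3 ∈ L := hL (.inr .al3) (by decide)
  have m_g1' : P'.g1 ∈ L := hL (.inr .g1) (by decide)
  have m_pi' : P'.pi ∈ L := hL (.inr .pi) (by decide)
  have m_be2' : P'.be2 ∈ L := hL (.inr .be2) (by decide)
  have m_be3' : P'.be3 ∈ L := hL (.inr .be3) (by decide)
  have m_q2' : P'.q2 ∈ L := hL (.inr .q2) (by decide)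
  have m_q3' : P'.q3 ∈ L := hL (.inr .q3) (by decide)
  have m_e1' : P'.e1 ∈ L := hL (.inr .e1) (by decide)
  have m_ph' : P'.ph ∈ L := hL (.inr .ph) (by decide)
  have m_c1' : P'.c1 ∈ L := hL (.inr .c1) (by decide)
  have m_f1' : P'.f1 ∈ L := hL (.inr .f1) (by decide)
  have m_th' : P'.th ∈ L := hL (.inr .th) (by decide)
  have m_eta' : P'.eta ∈ L := hL (.inr .eta) (by decide)
  have m_al0 : P.al0 ∈ L := by rw [a0]; exact zero_mem L
  have m_al0' : P'.al0 ∈ L := by rw [a0']; exact zero_mem L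
  have m_be0 : P.be0 ∈ L := by rw [b0]; exact zero_mem L
  have m_be0' : P'.be0 ∈ L := by rw [b0']; exact zero_mem L
  have m_zeta : P.zeta ∈ L := by rw [ze]; exact zero_mem L
  have m_zeta' : P'.zeta ∈ L := by rw [ze']; exact zero_mem L
  have m_rho : P.rho ∈ L := by rw [rh]; exact zero_mem L
  have m_rho' : P'.rho ∈ L := by rw [rh']; exact zero_mem L
  have m_e0' : P'.e0 ∈ L := by rw [e0z']; exact zero_mem L
  have m_f0' : P'.f0 ∈ L := by rw [f0z']; exact zero_mem L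
  have m_q1' : P'.q1 ∈ L := by rw [q1z']; exact zero_mem L
  have m_z' : P'.z ∈ L := by rw [zz']; exact zero_mem L
  have m_e0 : P.e0 ∈ L := by rw [e0z]; exact zero_mem L
  have m_f0 : P.f0 ∈ L := by rw [f0z]; exact zero_mem L
  have m_q1 : P.q1 ∈ L := by rw [q1z]; exact zero_mem L
  have m_g0' : P'.g0 ∈ L := mem_lin nz m_z
    (zero_mem L)
    (show P.z * P'.g0 + (0) = 0 by
      linear_combination 1 * r5 + (-1) * P.e1 * a0' + (1) * P'.e1 * a0 + (-1) * P'.al1 * e0z + (1)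
        * P.al1 * e0z' + (1) * P.g0 * zz' + (-1) * P'.pi * ze + (1) * P.pi * ze')
  have m_c0' : P'.c0 ∈ L := mem_lin nz m_z
    (zero_mem L)
    (show P.z * P'.c0 + (0) = 0 by
      linear_combination (-1) * r21 + (1) * P.be1 * f0z' + (-1) * P'.be1 * f0z + (1) * P'.f1 * b0 +
        (-1) * P.f1 * b0' + (1) * P.c0 * zz' + (1) * P.th * rh' + (-1) * P'.th * rh)
  have m_be1' : P'.be1 ∈ L := mem_lin na m_al1
    (add_mem (add_mem (neg_mem (mul_mem m_al1' m_be1)) (neg_mem (mul_mem m_c0 m_g0'))) (mul_mem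
      m_c0' m_g0))
    (show P.al1 * P'.be1 + (-(P'.al1 * P.be1) + -(P.c0 * P'.g0) + P'.c0 * P.g0) = 0 by
      linear_combination (-1) * r8 + (1) * P.be2 * a0' + (-1) * P'.be2 * a0 + (1) * P'.al2 * b0 +
        (-1) * P.al2 * b0')
  exact mem_all P P' ⟨m_al0, m_al1, m_al2, m_al3, m_g0, m_g1, m_pi, m_be0, m_be1, m_be2, m_be3,
    m_q1, m_q2, m_q3, m_e0, m_e1, m_ph, m_c0, m_c1, m_f0, m_f1, m_z, m_rho, m_th, m_eta, m_zeta⟩
    ⟨m_al0', m_al1', m_al2', m_al3', m_g0', m_g1', m_pi', m_be0', m_be1', m_be2', m_be3', m_q1',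
      m_q2', m_q3', m_e0', m_e1', m_ph', m_c0', m_c1', m_f0', m_f1', m_z', m_rho', m_th', m_eta',
        m_zeta'⟩

theorem i_b2i {P P' : Par K} (h : Rel P P')
    (a0 : P.al0 = 0) (a0' : P'.al0 = 0) (b0 : P.be0 = 0) (b0' : P'.be0 = 0) (ze : P.zeta = 0)
    (ze' : P'.zeta = 0) (rh : P.rho = 0) (rh' : P'.rho = 0) (e0z' : P'.e0 = 0)
    (f0z' : P'.f0 = 0) (q1z' : P'.q1 = 0) (zz' : P'.z = 0) (e0z : P.e0 = 0) (f0z : P.f0 = 0)
    (q1z : P.q1 = 0) (al1z : P.al1 = 0)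
    (nz : P.z ≠ 0) :
    rk k (Set.range (vals P P')) + 18 ≤ 52 := by
  obtain ⟨r1, r2, r3, r4, r5, r6, r7, r8, r9, r10, r11, r12, r13, r14, r15, r16, r17, r18, r19,
    r20, r21, r22, r23⟩ := h
  simp only [Br] at *
  refine rk_det P P' {.inl .al0, .inr .al0, .inl .be0, .inr .be0, .inl .zeta, .inr .zeta, .inl
    .rho, .inr .rho, .inr .e0, .inr .f0, .inr .q1, .inr .z, .inl .e0, .inl .f0, .inl .q1, .inl
      .al1, .inr .g0, .inr .c0} (by decide) fun L hL => ?_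
  have m_al2 : P.al2 ∈ L := hL (.inl .al2) (by decide)
  have m_al3 : P.al3 ∈ L := hL (.inl .al3) (by decide)
  have m_g0 : P.g0 ∈ L := hL (.inl .g0) (by decide)
  have m_g1 : P.g1 ∈ L := hL (.inl .g1) (by decide)
  have m_pi : P.pi ∈ L := hL (.inl .pi) (by decide)
  have m_be1 : P.be1 ∈ L := hL (.inl .be1) (by decide)
  have m_be2 : P.be2 ∈ L := hL (.inl .be2) (by decide)
  have m_be3 : P.be3 ∈ L := hL (.inl .be3) (by decide)
  have m_q2 : P.q2 ∈ L := hL (.inl .q2) (by decide)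
  have m_q3 : P.q3 ∈ L := hL (.inl .q3) (by decide)
  have m_e1 : P.e1 ∈ L := hL (.inl .e1) (by decide)
  have m_ph : P.ph ∈ L := hL (.inl .ph) (by decide)
  have m_c0 : P.c0 ∈ L := hL (.inl .c0) (by decide)
  have m_c1 : P.c1 ∈ L := hL (.inl .c1) (by decide)
  have m_f1 : P.f1 ∈ L := hL (.inl .f1) (by decide)
  have m_z : P.z ∈ L := hL (.inl .z) (by decide)
  have m_th : P.th ∈ L := hL (.inl .th) (by decide)
  have m_eta : P.eta ∈ L := hL (.inl .eta) (by decide)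
  have m_al1' : P'.al1 ∈ L := hL (.inr .al1) (by decide)
  have m_al2' : P'.al2 ∈ L := hL (.inr .al2) (by decide)
  have m_al3' : P'.al3 ∈ L := hL (.inr .al3) (by decide)
  have m_g1' : P'.g1 ∈ L := hL (.inr .g1) (by decide)
  have m_pi' : P'.pi ∈ L := hL (.inr .pi) (by decide)
  have m_be1' : P'.be1 ∈ L := hL (.inr .be1) (by decide)
  have m_be2' : P'.be2 ∈ L := hL (.inr .be2) (by decide)
  have m_be3' : P'.be3 ∈ L := hL (.inr .be3) (by decide)
  have m_q2' : P'.q2 ∈ L := hL (.inr .q2) (by decide)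
  have m_q3' : P'.q3 ∈ L := hL (.inr .q3) (by decide)
  have m_e1' : P'.e1 ∈ L := hL (.inr .e1) (by decide)
  have m_ph' : P'.ph ∈ L := hL (.inr .ph) (by decide)
  have m_c1' : P'.c1 ∈ L := hL (.inr .c1) (by decide)
  have m_f1' : P'.f1 ∈ L := hL (.inr .f1) (by decide)
  have m_th' : P'.th ∈ L := hL (.inr .th) (by decide)
  have m_eta' : P'.eta ∈ L := hL (.inr .eta) (by decide)
  have m_al0 : P.al0 ∈ L := by rw [a0]; exact zero_mem L
  have m_al0' : P'.al0 ∈ L := by rw [a0']; exact zero_mem L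
  have m_be0 : P.be0 ∈ L := by rw [b0]; exact zero_mem L
  have m_be0' : P'.be0 ∈ L := by rw [b0']; exact zero_mem L
  have m_zeta : P.zeta ∈ L := by rw [ze]; exact zero_mem L
  have m_zeta' : P'.zeta ∈ L := by rw [ze']; exact zero_mem L
  have m_rho : P.rho ∈ L := by rw [rh]; exact zero_mem L
  have m_rho' : P'.rho ∈ L := by rw [rh']; exact zero_mem L
  have m_e0' : P'.e0 ∈ L := by rw [e0z']; exact zero_mem L
  have m_f0' : P'.f0 ∈ L := by rw [f0z']; exact zero_mem L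
  have m_q1' : P'.q1 ∈ L := by rw [q1z']; exact zero_mem L
  have m_z' : P'.z ∈ L := by rw [zz']; exact zero_mem L
  have m_e0 : P.e0 ∈ L := by rw [e0z]; exact zero_mem L
  have m_f0 : P.f0 ∈ L := by rw [f0z]; exact zero_mem L
  have m_q1 : P.q1 ∈ L := by rw [q1z]; exact zero_mem L
  have m_al1 : P.al1 ∈ L := by rw [al1z]; exact zero_mem L
  have m_g0' : P'.g0 ∈ L := mem_lin nz m_z
    (zero_mem L)
    (show P.z * P'.g0 + (0) = 0 by
      linear_combination 1 * r5 + (-1) * P.e1 * a0' + (1) * P'.e1 * a0 + (-1) * P'.al1 * e0z + (1)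
        * P'.e0 * al1z + (1) * P.g0 * zz' + (-1) * P'.pi * ze + (1) * P.pi * ze')
  have m_c0' : P'.c0 ∈ L := mem_lin nz m_z
    (zero_mem L)
    (show P.z * P'.c0 + (0) = 0 by
      linear_combination (-1) * r21 + (1) * P.be1 * f0z' + (-1) * P'.be1 * f0z + (1) * P'.f1 * b0 +
        (-1) * P.f1 * b0' + (1) * P.c0 * zz' + (1) * P.th * rh' + (-1) * P'.th * rh)
  exact mem_all P P' ⟨m_al0, m_al1, m_al2, m_al3, m_g0, m_g1, m_pi, m_be0, m_be1, m_be2, m_be3,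
    m_q1, m_q2, m_q3, m_e0, m_e1, m_ph, m_c0, m_c1, m_f0, m_f1, m_z, m_rho, m_th, m_eta, m_zeta⟩
    ⟨m_al0', m_al1', m_al2', m_al3', m_g0', m_g1', m_pi', m_be0', m_be1', m_be2', m_be3', m_q1',
      m_q2', m_q3', m_e0', m_e1', m_ph', m_c0', m_c1', m_f0', m_f1', m_z', m_rho', m_th', m_eta',
        m_zeta'⟩

theorem i_b2j {P P' : Par K} (h : Rel P P')
    (a0 : P.al0 = 0) (a0' : P'.al0 = 0) (b0 : P.be0 = 0) (b0' : P'.be0 = 0) (ze : P.zeta = 0)
    (ze' : P'.zeta = 0) (rh : P.rho = 0) (rh' : P'.rho = 0) (e0z' : P'.e0 = 0)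
    (f0z' : P'.f0 = 0) (q1z' : P'.q1 = 0) (zz' : P'.z = 0) (e0z : P.e0 = 0) (f0z : P.f0 = 0)
    (zz : P.z = 0)
    (nq : P.q1 ≠ 0) :
    rk k (Set.range (vals P P')) + 18 ≤ 52 := by
  obtain ⟨r1, r2, r3, r4, r5, r6, r7, r8, r9, r10, r11, r12, r13, r14, r15, r16, r17, r18, r19,
    r20, r21, r22, r23⟩ := h
  simp only [Br] at *
  refine rk_det P P' {.inl .al0, .inr .al0, .inl .be0, .inr .be0, .inl .zeta, .inr .zeta, .inl
    .rho, .inr .rho, .inr .e0, .inr .f0, .inr .q1, .inr .z, .inl .e0, .inl .f0, .inl .z, .inr .al1,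
      .inr .be1, .inr .be2} (by decide) fun L hL => ?_
  have m_al1 : P.al1 ∈ L := hL (.inl .al1) (by decide)
  have m_al2 : P.al2 ∈ L := hL (.inl .al2) (by decide)
  have m_al3 : P.al3 ∈ L := hL (.inl .al3) (by decide)
  have m_g0 : P.g0 ∈ L := hL (.inl .g0) (by decide)
  have m_g1 : P.g1 ∈ L := hL (.inl .g1) (by decide)
  have m_pi : P.pi ∈ L := hL (.inl .pi) (by decide)
  have m_be1 : P.be1 ∈ L := hL (.inl .be1) (by decide)
  have m_be2 : P.be2 ∈ L := hL (.inl .be2) (by decide)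
  have m_be3 : P.be3 ∈ L := hL (.inl .be3) (by decide)
  have m_q1 : P.q1 ∈ L := hL (.inl .q1) (by decide)
  have m_q2 : P.q2 ∈ L := hL (.inl .q2) (by decide)
  have m_q3 : P.q3 ∈ L := hL (.inl .q3) (by decide)
  have m_e1 : P.e1 ∈ L := hL (.inl .e1) (by decide)
  have m_ph : P.ph ∈ L := hL (.inl .ph) (by decide)
  have m_c0 : P.c0 ∈ L := hL (.inl .c0) (by decide)
  have m_c1 : P.c1 ∈ L := hL (.inl .c1) (by decide)
  have m_f1 : P.f1 ∈ L := hL (.inl .f1) (by decide)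
  have m_th : P.th ∈ L := hL (.inl .th) (by decide)
  have m_eta : P.eta ∈ L := hL (.inl .eta) (by decide)
  have m_al2' : P'.al2 ∈ L := hL (.inr .al2) (by decide)
  have m_al3' : P'.al3 ∈ L := hL (.inr .al3) (by decide)
  have m_g0' : P'.g0 ∈ L := hL (.inr .g0) (by decide)
  have m_g1' : P'.g1 ∈ L := hL (.inr .g1) (by decide)
  have m_pi' : P'.pi ∈ L := hL (.inr .pi) (by decide)
  have m_be3' : P'.be3 ∈ L := hL (.inr .be3) (by decide)
  have m_q2' : P'.q2 ∈ L := hL (.inr .q2) (by decide)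
  have m_q3' : P'.q3 ∈ L := hL (.inr .q3) (by decide)
  have m_e1' : P'.e1 ∈ L := hL (.inr .e1) (by decide)
  have m_ph' : P'.ph ∈ L := hL (.inr .ph) (by decide)
  have m_c0' : P'.c0 ∈ L := hL (.inr .c0) (by decide)
  have m_c1' : P'.c1 ∈ L := hL (.inr .c1) (by decide)
  have m_f1' : P'.f1 ∈ L := hL (.inr .f1) (by decide)
  have m_th' : P'.th ∈ L := hL (.inr .th) (by decide)
  have m_eta' : P'.eta ∈ L := hL (.inr .eta) (by decide)
  have m_al0 : P.al0 ∈ L := by rw [a0]; exact zero_mem L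
  have m_al0' : P'.al0 ∈ L := by rw [a0']; exact zero_mem L
  have m_be0 : P.be0 ∈ L := by rw [b0]; exact zero_mem L
  have m_be0' : P'.be0 ∈ L := by rw [b0']; exact zero_mem L
  have m_zeta : P.zeta ∈ L := by rw [ze]; exact zero_mem L
  have m_zeta' : P'.zeta ∈ L := by rw [ze']; exact zero_mem L
  have m_rho : P.rho ∈ L := by rw [rh]; exact zero_mem L
  have m_rho' : P'.rho ∈ L := by rw [rh']; exact zero_mem L
  have m_e0' : P'.e0 ∈ L := by rw [e0z']; exact zero_mem L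
  have m_f0' : P'.f0 ∈ L := by rw [f0z']; exact zero_mem L
  have m_q1' : P'.q1 ∈ L := by rw [q1z']; exact zero_mem L
  have m_z' : P'.z ∈ L := by rw [zz']; exact zero_mem L
  have m_e0 : P.e0 ∈ L := by rw [e0z]; exact zero_mem L
  have m_f0 : P.f0 ∈ L := by rw [f0z]; exact zero_mem L
  have m_z : P.z ∈ L := by rw [zz]; exact zero_mem L
  have m_al1' : P'.al1 ∈ L := mem_lin nq m_q1
    (zero_mem L)
    (show P.q1 * P'.al1 + (0) = 0 by
      linear_combination 1 * r7 + (-1) * P.q2 * a0' + (1) * P'.q2 * a0 + (1) * P.al1 * q1z' + (-1)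
        * P'.g0 * f0z + (1) * P.g0 * f0z')
  have m_be1' : P'.be1 ∈ L := mem_lin nq m_q1
    (zero_mem L)
    (show P.q1 * P'.be1 + (0) = 0 by
      linear_combination (-1) * r15 + (1) * P.be1 * q1z' + (1) * P'.q2 * b0 + (-1) * P.q2 * b0' +
        (1) * P.c0 * e0z' + (-1) * P'.c0 * e0z)
  have m_be2' : P'.be2 ∈ L := mem_lin nq m_q1
    (add_mem (add_mem (add_mem (add_mem (add_mem (neg_mem (mul_mem m_be1 m_q2')) (mul_mem m_be1'
      m_q2)) (neg_mem (mul_mem m_c0 m_e1'))) (mul_mem m_c0' m_e1)) (neg_mem (mul_mem m_ph' m_th)))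
        (mul_mem m_ph m_th'))
    (show P.q1 * P'.be2 + (-(P.be1 * P'.q2) + P'.be1 * P.q2 + -(P.c0 * P'.e1) + P'.c0 * P.e1 +
      -(P'.ph * P.th) + P.ph * P'.th) = 0 by
      linear_combination (-1) * r17 + (1) * P.be2 * q1z' + (1) * P'.q3 * b0 + (-1) * P.q3 * b0' +
        (1) * P.c1 * e0z' + (-1) * P'.c1 * e0z)
  exact mem_all P P' ⟨m_al0, m_al1, m_al2, m_al3, m_g0, m_g1, m_pi, m_be0, m_be1, m_be2, m_be3,
    m_q1, m_q2, m_q3, m_e0, m_e1, m_ph, m_c0, m_c1, m_f0, m_f1, m_z, m_rho, m_th, m_eta, m_zeta⟩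
    ⟨m_al0', m_al1', m_al2', m_al3', m_g0', m_g1', m_pi', m_be0', m_be1', m_be2', m_be3', m_q1',
      m_q2', m_q3', m_e0', m_e1', m_ph', m_c0', m_c1', m_f0', m_f1', m_z', m_rho', m_th', m_eta',
        m_zeta'⟩

theorem i_c1 {P P' : Par K} (h : Rel P P')
    (a0 : P.al0 = 0) (a0' : P'.al0 = 0) (b0 : P.be0 = 0) (b0' : P'.be0 = 0) (ze : P.zeta = 0)
    (ze' : P'.zeta = 0) (rh : P.rho = 0) (rh' : P'.rho = 0) (e0z : P.e0 = 0) (e0z' : P'.e0 = 0)
    (f0z : P.f0 = 0) (f0z' : P'.f0 = 0)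
    (nq : P.q1 ≠ 0) (nz : P.z ≠ 0)
    (hz : P.z = P.q1) (hz' : P'.z = P'.q1) :
    rk k (Set.range (vals P P')) + 17 ≤ 52 := by
  obtain ⟨r1, r2, r3, r4, r5, r6, r7, r8, r9, r10, r11, r12, r13, r14, r15, r16, r17, r18, r19,
    r20, r21, r22, r23⟩ := h
  simp only [Br] at *
  refine rk_det P P' {.inl .al0, .inr .al0, .inl .be0, .inr .be0, .inl .zeta, .inr .zeta, .inl
    .rho, .inr .rho, .inl .e0, .inr .e0, .inl .f0, .inr .f0, .inl .z, .inr .z, .inr .al1, .inr .g0,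
      .inr .be1, .inr .c0} (by decide) fun L hL => ?_
  have m_al1 : P.al1 ∈ L := hL (.inl .al1) (by decide)
  have m_al2 : P.al2 ∈ L := hL (.inl .al2) (by decide)
  have m_al3 : P.al3 ∈ L := hL (.inl .al3) (by decide)
  have m_g0 : P.g0 ∈ L := hL (.inl .g0) (by decide)
  have m_g1 : P.g1 ∈ L := hL (.inl .g1) (by decide)
  have m_pi : P.pi ∈ L := hL (.inl .pi) (by decide)
  have m_be1 : P.be1 ∈ L := hL (.inl .be1) (by decide)
  have m_be2 : P.be2 ∈ L := hL (.inl .be2) (by decide)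
  have m_be3 : P.be3 ∈ L := hL (.inl .be3) (by decide)
  have m_q1 : P.q1 ∈ L := hL (.inl .q1) (by decide)
  have m_q2 : P.q2 ∈ L := hL (.inl .q2) (by decide)
  have m_q3 : P.q3 ∈ L := hL (.inl .q3) (by decide)
  have m_e1 : P.e1 ∈ L := hL (.inl .e1) (by decide)
  have m_ph : P.ph ∈ L := hL (.inl .ph) (by decide)
  have m_c0 : P.c0 ∈ L := hL (.inl .c0) (by decide)
  have m_c1 : P.c1 ∈ L := hL (.inl .c1) (by decide)
  have m_f1 : P.f1 ∈ L := hL (.inl .f1) (by decide)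
  have m_th : P.th ∈ L := hL (.inl .th) (by decide)
  have m_eta : P.eta ∈ L := hL (.inl .eta) (by decide)
  have m_al2' : P'.al2 ∈ L := hL (.inr .al2) (by decide)
  have m_al3' : P'.al3 ∈ L := hL (.inr .al3) (by decide)
  have m_g1' : P'.g1 ∈ L := hL (.inr .g1) (by decide)
  have m_pi' : P'.pi ∈ L := hL (.inr .pi) (by decide)
  have m_be2' : P'.be2 ∈ L := hL (.inr .be2) (by decide)
  have m_be3' : P'.be3 ∈ L := hL (.inr .be3) (by decide)
  have m_q1' : P'.q1 ∈ L := hL (.inr .q1) (by decide)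
  have m_q2' : P'.q2 ∈ L := hL (.inr .q2) (by decide)
  have m_q3' : P'.q3 ∈ L := hL (.inr .q3) (by decide)
  have m_e1' : P'.e1 ∈ L := hL (.inr .e1) (by decide)
  have m_ph' : P'.ph ∈ L := hL (.inr .ph) (by decide)
  have m_c1' : P'.c1 ∈ L := hL (.inr .c1) (by decide)
  have m_f1' : P'.f1 ∈ L := hL (.inr .f1) (by decide)
  have m_th' : P'.th ∈ L := hL (.inr .th) (by decide)
  have m_eta' : P'.eta ∈ L := hL (.inr .eta) (by decide)
  have m_al0 : P.al0 ∈ L := by rw [a0]; exact zero_mem L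
  have m_al0' : P'.al0 ∈ L := by rw [a0']; exact zero_mem L
  have m_be0 : P.be0 ∈ L := by rw [b0]; exact zero_mem L
  have m_be0' : P'.be0 ∈ L := by rw [b0']; exact zero_mem L
  have m_zeta : P.zeta ∈ L := by rw [ze]; exact zero_mem L
  have m_zeta' : P'.zeta ∈ L := by rw [ze']; exact zero_mem L
  have m_rho : P.rho ∈ L := by rw [rh]; exact zero_mem L
  have m_rho' : P'.rho ∈ L := by rw [rh']; exact zero_mem L
  have m_e0 : P.e0 ∈ L := by rw [e0z]; exact zero_mem L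
  have m_e0' : P'.e0 ∈ L := by rw [e0z']; exact zero_mem L
  have m_f0 : P.f0 ∈ L := by rw [f0z]; exact zero_mem L
  have m_f0' : P'.f0 ∈ L := by rw [f0z']; exact zero_mem L
  have m_z : P.z ∈ L := by rw [hz]; exact m_q1
  have m_z' : P'.z ∈ L := by rw [hz']; exact m_q1'
  have m_al1' : P'.al1 ∈ L := mem_lin nq m_q1
    (neg_mem (mul_mem m_al1 m_q1'))
    (show P.q1 * P'.al1 + (-(P.al1 * P'.q1)) = 0 by
      linear_combination 1 * r7 + (-1) * P.q2 * a0' + (1) * P'.q2 * a0 + (-1) * P'.g0 * f0z + (1) *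
        P.g0 * f0z')
  have m_g0' : P'.g0 ∈ L := mem_lin nz m_z
    (neg_mem (mul_mem m_g0 m_z'))
    (show P.z * P'.g0 + (-(P.g0 * P'.z)) = 0 by
      linear_combination 1 * r5 + (-1) * P.e1 * a0' + (1) * P'.e1 * a0 + (-1) * P'.al1 * e0z + (1)
        * P.al1 * e0z' + (-1) * P'.pi * ze + (1) * P.pi * ze')
  have m_be1' : P'.be1 ∈ L := mem_lin nq m_q1
    (neg_mem (mul_mem m_be1 m_q1'))
    (show P.q1 * P'.be1 + (-(P.be1 * P'.q1)) = 0 by
      linear_combination (-1) * r15 + (1) * P'.q2 * b0 + (-1) * P.q2 * b0' + (1) * P.c0 * e0z' +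
        (-1) * P'.c0 * e0z)
  have m_c0' : P'.c0 ∈ L := mem_lin nz m_z
    (neg_mem (mul_mem m_c0 m_z'))
    (show P.z * P'.c0 + (-(P.c0 * P'.z)) = 0 by
      linear_combination (-1) * r21 + (1) * P.be1 * f0z' + (-1) * P'.be1 * f0z + (1) * P'.f1 * b0 +
        (-1) * P.f1 * b0' + (1) * P.th * rh' + (-1) * P'.th * rh)
  exact mem_all P P' ⟨m_al0, m_al1, m_al2, m_al3, m_g0, m_g1, m_pi, m_be0, m_be1, m_be2, m_be3,
    m_q1, m_q2, m_q3, m_e0, m_e1, m_ph, m_c0, m_c1, m_f0, m_f1, m_z, m_rho, m_th, m_eta, m_zeta⟩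
    ⟨m_al0', m_al1', m_al2', m_al3', m_g0', m_g1', m_pi', m_be0', m_be1', m_be2', m_be3', m_q1',
      m_q2', m_q3', m_e0', m_e1', m_ph', m_c0', m_c1', m_f0', m_f1', m_z', m_rho', m_th', m_eta',
        m_zeta'⟩

theorem i_c2 {P P' : Par K} (h : Rel P P')
    (a0 : P.al0 = 0) (a0' : P'.al0 = 0) (b0 : P.be0 = 0) (b0' : P'.be0 = 0) (ze : P.zeta = 0)
    (ze' : P'.zeta = 0) (rh : P.rho = 0) (rh' : P'.rho = 0) (e0z : P.e0 = 0) (e0z' : P'.e0 = 0)
    (f0z : P.f0 = 0) (f0z' : P'.f0 = 0) (q1z : P.q1 = 0) (q1z' : P'.q1 = 0)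
    (nb : P.be1 ≠ 0)
    (hz : P.z = P.q1) (hz' : P'.z = P'.q1) :
    rk k (Set.range (vals P P')) + 17 ≤ 52 := by
  obtain ⟨r1, r2, r3, r4, r5, r6, r7, r8, r9, r10, r11, r12, r13, r14, r15, r16, r17, r18, r19,
    r20, r21, r22, r23⟩ := h
  simp only [Br] at *
  refine rk_det P P' {.inl .al0, .inr .al0, .inl .be0, .inr .be0, .inl .zeta, .inr .zeta, .inl
    .rho, .inr .rho, .inl .e0, .inr .e0, .inl .f0, .inr .f0, .inl .q1, .inr .q1, .inl .z, .inr .z,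
      .inr .al1} (by decide) fun L hL => ?_
  have m_al1 : P.al1 ∈ L := hL (.inl .al1) (by decide)
  have m_al2 : P.al2 ∈ L := hL (.inl .al2) (by decide)
  have m_al3 : P.al3 ∈ L := hL (.inl .al3) (by decide)
  have m_g0 : P.g0 ∈ L := hL (.inl .g0) (by decide)
  have m_g1 : P.g1 ∈ L := hL (.inl .g1) (by decide)
  have m_pi : P.pi ∈ L := hL (.inl .pi) (by decide)
  have m_be1 : P.be1 ∈ L := hL (.inl .be1) (by decide)
  have m_be2 : P.be2 ∈ L := hL (.inl .be2) (by decide)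
  have m_be3 : P.be3 ∈ L := hL (.inl .be3) (by decide)
  have m_q2 : P.q2 ∈ L := hL (.inl .q2) (by decide)
  have m_q3 : P.q3 ∈ L := hL (.inl .q3) (by decide)
  have m_e1 : P.e1 ∈ L := hL (.inl .e1) (by decide)
  have m_ph : P.ph ∈ L := hL (.inl .ph) (by decide)
  have m_c0 : P.c0 ∈ L := hL (.inl .c0) (by decide)
  have m_c1 : P.c1 ∈ L := hL (.inl .c1) (by decide)
  have m_f1 : P.f1 ∈ L := hL (.inl .f1) (by decide)
  have m_th : P.th ∈ L := hL (.inl .th) (by decide)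
  have m_eta : P.eta ∈ L := hL (.inl .eta) (by decide)
  have m_al2' : P'.al2 ∈ L := hL (.inr .al2) (by decide)
  have m_al3' : P'.al3 ∈ L := hL (.inr .al3) (by decide)
  have m_g0' : P'.g0 ∈ L := hL (.inr .g0) (by decide)
  have m_g1' : P'.g1 ∈ L := hL (.inr .g1) (by decide)
  have m_pi' : P'.pi ∈ L := hL (.inr .pi) (by decide)
  have m_be1' : P'.be1 ∈ L := hL (.inr .be1) (by decide)
  have m_be2' : P'.be2 ∈ L := hL (.inr .be2) (by decide)
  have m_be3' : P'.be3 ∈ L := hL (.inr .be3) (by decide)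
  have m_q2' : P'.q2 ∈ L := hL (.inr .q2) (by decide)
  have m_q3' : P'.q3 ∈ L := hL (.inr .q3) (by decide)
  have m_e1' : P'.e1 ∈ L := hL (.inr .e1) (by decide)
  have m_ph' : P'.ph ∈ L := hL (.inr .ph) (by decide)
  have m_c0' : P'.c0 ∈ L := hL (.inr .c0) (by decide)
  have m_c1' : P'.c1 ∈ L := hL (.inr .c1) (by decide)
  have m_f1' : P'.f1 ∈ L := hL (.inr .f1) (by decide)
  have m_th' : P'.th ∈ L := hL (.inr .th) (by decide)
  have m_eta' : P'.eta ∈ L := hL (.inr .eta) (by decide)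
  have m_al0 : P.al0 ∈ L := by rw [a0]; exact zero_mem L
  have m_al0' : P'.al0 ∈ L := by rw [a0']; exact zero_mem L
  have m_be0 : P.be0 ∈ L := by rw [b0]; exact zero_mem L
  have m_be0' : P'.be0 ∈ L := by rw [b0']; exact zero_mem L
  have m_zeta : P.zeta ∈ L := by rw [ze]; exact zero_mem L
  have m_zeta' : P'.zeta ∈ L := by rw [ze']; exact zero_mem L
  have m_rho : P.rho ∈ L := by rw [rh]; exact zero_mem L
  have m_rho' : P'.rho ∈ L := by rw [rh']; exact zero_mem L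
  have m_e0 : P.e0 ∈ L := by rw [e0z]; exact zero_mem L
  have m_e0' : P'.e0 ∈ L := by rw [e0z']; exact zero_mem L
  have m_f0 : P.f0 ∈ L := by rw [f0z]; exact zero_mem L
  have m_f0' : P'.f0 ∈ L := by rw [f0z']; exact zero_mem L
  have m_q1 : P.q1 ∈ L := by rw [q1z]; exact zero_mem L
  have m_q1' : P'.q1 ∈ L := by rw [q1z']; exact zero_mem L
  have m_z : P.z ∈ L := by rw [hz]; exact m_q1
  have m_z' : P'.z ∈ L := by rw [hz']; exact m_q1'
  have m_al1' : P'.al1 ∈ L := mem_lin nb m_be1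
    (add_mem (add_mem (neg_mem (mul_mem m_al1 m_be1')) (mul_mem m_c0 m_g0')) (neg_mem (mul_mem
      m_c0' m_g0)))
    (show P.be1 * P'.al1 + (-(P.al1 * P'.be1) + P.c0 * P'.g0 + -(P'.c0 * P.g0)) = 0 by
      linear_combination 1 * r8 + (-1) * P.be2 * a0' + (1) * P'.be2 * a0 + (-1) * P'.al2 * b0 + (1)
        * P.al2 * b0')
  exact mem_all P P' ⟨m_al0, m_al1, m_al2, m_al3, m_g0, m_g1, m_pi, m_be0, m_be1, m_be2, m_be3,
    m_q1, m_q2, m_q3, m_e0, m_e1, m_ph, m_c0, m_c1, m_f0, m_f1, m_z, m_rho, m_th, m_eta, m_zeta⟩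
    ⟨m_al0', m_al1', m_al2', m_al3', m_g0', m_g1', m_pi', m_be0', m_be1', m_be2', m_be3', m_q1',
      m_q2', m_q3', m_e0', m_e1', m_ph', m_c0', m_c1', m_f0', m_f1', m_z', m_rho', m_th', m_eta',
        m_zeta'⟩

theorem i_c3 {P P' : Par K} (h : Rel P P')
    (a0 : P.al0 = 0) (a0' : P'.al0 = 0) (b0 : P.be0 = 0) (b0' : P'.be0 = 0) (ze : P.zeta = 0)
    (ze' : P'.zeta = 0) (rh : P.rho = 0) (rh' : P'.rho = 0) (e0z : P.e0 = 0) (e0z' : P'.e0 = 0)
    (f0z : P.f0 = 0) (f0z' : P'.f0 = 0) (q1z : P.q1 = 0) (q1z' : P'.q1 = 0) (be1z : P.be1 = 0)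
    (hz : P.z = P.q1) (hz' : P'.z = P'.q1) :
    rk k (Set.range (vals P P')) + 17 ≤ 52 := by
  obtain ⟨r1, r2, r3, r4, r5, r6, r7, r8, r9, r10, r11, r12, r13, r14, r15, r16, r17, r18, r19,
    r20, r21, r22, r23⟩ := h
  simp only [Br] at *
  refine rk_det P P' {.inl .al0, .inr .al0, .inl .be0, .inr .be0, .inl .zeta, .inr .zeta, .inl
    .rho, .inr .rho, .inl .e0, .inr .e0, .inl .f0, .inr .f0, .inl .q1, .inr .q1, .inl .be1, .inl
      .z, .inr .z} (by decide) fun L hL => ?_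
  have m_al1 : P.al1 ∈ L := hL (.inl .al1) (by decide)
  have m_al2 : P.al2 ∈ L := hL (.inl .al2) (by decide)
  have m_al3 : P.al3 ∈ L := hL (.inl .al3) (by decide)
  have m_g0 : P.g0 ∈ L := hL (.inl .g0) (by decide)
  have m_g1 : P.g1 ∈ L := hL (.inl .g1) (by decide)
  have m_pi : P.pi ∈ L := hL (.inl .pi) (by decide)
  have m_be2 : P.be2 ∈ L := hL (.inl .be2) (by decide)
  have m_be3 : P.be3 ∈ L := hL (.inl .be3) (by decide)
  have m_q2 : P.q2 ∈ L := hL (.inl .q2) (by decide)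
  have m_q3 : P.q3 ∈ L := hL (.inl .q3) (by decide)
  have m_e1 : P.e1 ∈ L := hL (.inl .e1) (by decide)
  have m_ph : P.ph ∈ L := hL (.inl .ph) (by decide)
  have m_c0 : P.c0 ∈ L := hL (.inl .c0) (by decide)
  have m_c1 : P.c1 ∈ L := hL (.inl .c1) (by decide)
  have m_f1 : P.f1 ∈ L := hL (.inl .f1) (by decide)
  have m_th : P.th ∈ L := hL (.inl .th) (by decide)
  have m_eta : P.eta ∈ L := hL (.inl .eta) (by decide)
  have m_al1' : P'.al1 ∈ L := hL (.inr .al1) (by decide)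
  have m_al2' : P'.al2 ∈ L := hL (.inr .al2) (by decide)
  have m_al3' : P'.al3 ∈ L := hL (.inr .al3) (by decide)
  have m_g0' : P'.g0 ∈ L := hL (.inr .g0) (by decide)
  have m_g1' : P'.g1 ∈ L := hL (.inr .g1) (by decide)
  have m_pi' : P'.pi ∈ L := hL (.inr .pi) (by decide)
  have m_be1' : P'.be1 ∈ L := hL (.inr .be1) (by decide)
  have m_be2' : P'.be2 ∈ L := hL (.inr .be2) (by decide)
  have m_be3' : P'.be3 ∈ L := hL (.inr .be3) (by decide)
  have m_q2' : P'.q2 ∈ L := hL (.inr .q2) (by decide)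
  have m_q3' : P'.q3 ∈ L := hL (.inr .q3) (by decide)
  have m_e1' : P'.e1 ∈ L := hL (.inr .e1) (by decide)
  have m_ph' : P'.ph ∈ L := hL (.inr .ph) (by decide)
  have m_c0' : P'.c0 ∈ L := hL (.inr .c0) (by decide)
  have m_c1' : P'.c1 ∈ L := hL (.inr .c1) (by decide)
  have m_f1' : P'.f1 ∈ L := hL (.inr .f1) (by decide)
  have m_th' : P'.th ∈ L := hL (.inr .th) (by decide)
  have m_eta' : P'.eta ∈ L := hL (.inr .eta) (by decide)
  have m_al0 : P.al0 ∈ L := by rw [a0]; exact zero_mem L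
  have m_al0' : P'.al0 ∈ L := by rw [a0']; exact zero_mem L
  have m_be0 : P.be0 ∈ L := by rw [b0]; exact zero_mem L
  have m_be0' : P'.be0 ∈ L := by rw [b0']; exact zero_mem L
  have m_zeta : P.zeta ∈ L := by rw [ze]; exact zero_mem L
  have m_zeta' : P'.zeta ∈ L := by rw [ze']; exact zero_mem L
  have m_rho : P.rho ∈ L := by rw [rh]; exact zero_mem L
  have m_rho' : P'.rho ∈ L := by rw [rh']; exact zero_mem L
  have m_e0 : P.e0 ∈ L := by rw [e0z]; exact zero_mem L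
  have m_e0' : P'.e0 ∈ L := by rw [e0z']; exact zero_mem L
  have m_f0 : P.f0 ∈ L := by rw [f0z]; exact zero_mem L
  have m_f0' : P'.f0 ∈ L := by rw [f0z']; exact zero_mem L
  have m_q1 : P.q1 ∈ L := by rw [q1z]; exact zero_mem L
  have m_q1' : P'.q1 ∈ L := by rw [q1z']; exact zero_mem L
  have m_be1 : P.be1 ∈ L := by rw [be1z]; exact zero_mem L
  have m_z : P.z ∈ L := by rw [hz]; exact m_q1
  have m_z' : P'.z ∈ L := by rw [hz']; exact m_q1'
  exact mem_all P P' ⟨m_al0, m_al1, m_al2, m_al3, m_g0, m_g1, m_pi, m_be0, m_be1, m_be2, m_be3,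
    m_q1, m_q2, m_q3, m_e0, m_e1, m_ph, m_c0, m_c1, m_f0, m_f1, m_z, m_rho, m_th, m_eta, m_zeta⟩
    ⟨m_al0', m_al1', m_al2', m_al3', m_g0', m_g1', m_pi', m_be0', m_be1', m_be2', m_be3', m_q1',
      m_q2', m_q3', m_e0', m_e1', m_ph', m_c0', m_c1', m_f0', m_f1', m_z', m_rho', m_th', m_eta',
        m_zeta'⟩

end Pool.Agent.Lib.D13.T5421
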