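import Pool.Agent.Lib.D13.Frame
import Pool.Agent.Lib.D12.T3e

/-!
# MP_5dcbc3_ag: the types `(3, 3, 3)` and `(3, 3, 3, 3)` are not bad
-/

namespace Pool.Agent.Lib.D13

open Matrix Pool.Agent.Lib.Q5dc Pool.Agent.Lib.D7

variable {k : Type*} [Field k] [IsAlgClosed k] [CharZero k]

theorem not_bad_333 : ¬ Bad k [3, 3, 3] := by
  have : Infinite k := IsAlgClosed.instInfinite
  exact not_bad_321 (e := 3) (u := 0) (p := 0) fun _ _ hT hρ h0 =>
    D12.no_3e (by norm_num) hT hρ h0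

theorem not_bad_3333 : ¬ Bad k [3, 3, 3, 3] := by
  have : Infinite k := IsAlgClosed.instInfinite
  exact not_bad_321 (e := 4) (u := 0) (p := 0) fun _ _ hT hρ h0 =>
    D12.no_3e (by norm_num) hT hρ h0

end Pool.Agent.Lib.D13
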