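import Pool.Agent.Lib.D13.Frame
import Pool.Agent.Lib.D13.K16

/-!
# MP_5dcbc3_ag: the type `(4, 3, 2, 1)` is not bad
-/

set_option autoImplicit false

namespace Pool.Agent.Lib.D13

open Matrix Pool.Agent.Lib.Q5dc Pool.Agent.Lib.D7

variable {k : Type*} [Field k] [IsAlgClosed k] [CharZero k]

theorem not_bad_4321 : ¬ Bad k [4, 3, 2, 1] := by
  have : Infinite k := IsAlgClosed.instInfinite
  refine not_bad_of (T4321.J k)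
    ![⟨0, (0 : Fin 4)⟩, ⟨1, (0 : Fin 3)⟩, ⟨2, (0 : Fin 2)⟩, ⟨0, (1 : Fin 4)⟩, ⟨1, (1 : Fin 3)⟩,
      ⟨3, (0 : Fin 1)⟩, ⟨2, (1 : Fin 2)⟩, ⟨0, (2 : Fin 4)⟩, ⟨1, (2 : Fin 3)⟩, ⟨0, (3 : Fin 4)⟩]
    (by decide) (by decide) ?_ fun ρ T hT hρ h0 => T4321.no_4321 hT hρ h0
  intro i j
  fin_cases i <;> fin_cases j <;> simp [T4321.J] <;> rfl

end Pool.Agent.Lib.D13
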