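import Pool.Agent.Lib.D13.X442S

/-!
# MP_5dcbc3_ag: there is no maximal bad triple of the Jordan type `(4, 4, 2)`

Index type `X442.I4 = (Fin 2 ⊕ Fin 3) ⊕ (Fin 3 ⊕ Fin 2)`; the matrix `X442.J` maps the basis vectors
`inl (inl 0) → inl (inr 0) → inr (inl 0) → inr (inr 0) → 0`,
`inl (inl 1) → inl (inr 1) → inr (inl 1) → inr (inr 1) → 0`, `inl (inr 2) → inr (inl 2) → 0`.
-/

namespace Pool.Agent.Lib.D13

open Matrix Pool.Agent.Lib.Q5dc Pool.Agent.Lib.D7

variable {k : Type*} [Field k]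

/-- the fourth powers of a line of commuting matrices vanish: so does the polarization -/
theorem polar4 {n : Type*} [Fintype n] [DecidableEq n] [CharZero k] {A B : Matrix n n k}
    (hAB : B * A = A * B) (h : ∀ s : k, (A + s • B) ^ 4 = 0) (hB : B ^ 4 = 0) :
    A * A * A * B = 0 := by
  have hBA : ∀ X : Matrix n n k, B * (A * X) = A * (B * X) := fun X => by
    rw [← Matrix.mul_assoc, hAB, Matrix.mul_assoc]
  have hA : A ^ 4 = 0 := by
    have e := h 0
    rwa [zero_smul, add_zero] at e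
  have e : ∀ s : k, (A + s • B) ^ 4 = A ^ 4 + (4 * s) • (A * (A * (A * B))) +
      (6 * s ^ 2) • (A * (A * (B * B))) + (4 * s ^ 3) • (A * (B * (B * B))) + s ^ 4 • B ^ 4 := by
    intro s
    simp only [pow_succ (A + s • B), pow_succ A, pow_succ B, pow_zero, one_mul, Matrix.add_mul,
      Matrix.mul_add, smul_mul_assoc, mul_smul_comm, Matrix.mul_assoc, hBA, hAB]
    module
  have e1 := h 1
  have e2 := h (-1)
  have e3 := h 2
  rw [e, hA, hB] at e1 e2 e3
  set X := A * (A * (A * B)) with hX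
  set Y := A * (A * (B * B)) with hY
  set Z := A * (B * (B * B)) with hZ
  have e4 : X = (1 / 4 : k) • (0 + (4 * 1 : k) • X + (6 * 1 ^ 2 : k) • Y + (4 * 1 ^ 3 : k) • Z +
      (1 : k) ^ 4 • (0 : Matrix n n k)) +
      (-1 / 12 : k) • (0 + (4 * -1 : k) • X + (6 * (-1) ^ 2 : k) • Y + (4 * (-1) ^ 3 : k) • Z +
      (-1 : k) ^ 4 • (0 : Matrix n n k)) +
      (-1 / 24 : k) • (0 + (4 * 2 : k) • X + (6 * 2 ^ 2 : k) • Y + (4 * 2 ^ 3 : k) • Z +
      (2 : k) ^ 4 • (0 : Matrix n n k)) := by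
    match_scalars <;> norm_num
  rw [e1, e2, e3, smul_zero, smul_zero, smul_zero, add_zero, add_zero] at e4
  rw [Matrix.mul_assoc, Matrix.mul_assoc]
  exact e4

/-- `ρ 4 = 0`: the products `A * A * A * B` vanish -/
theorem MaxR.polar4 {n : Type*} [Fintype n] [DecidableEq n] [CharZero k] {ρ : ℕ → ℕ}
    {T : Fin 3 → Matrix n n k} (hT : MaxR ρ T) (h4 : ρ 4 = 0) {A B : Matrix n n k}
    (hA : A ∈ adj T) (hB : B ∈ adj T) : A * A * A * B = 0 := by
  refine D13.polar4 (hT.cn.comm hB hA) (fun s => ?_) (hT.pow_eq_zero hB h4)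
  exact hT.pow_eq_zero (add_mem hA (SMulMemClass.smul_mem s hB)) h4

/-- there is no maximal bad triple of the Jordan type `(4, 4, 2)` -/
theorem no_442 [IsAlgClosed k] [CharZero k] {ρ : ℕ → ℕ} {T : Fin 3 → Matrix X442.I4 X442.I4 k}
    (hT : MaxR ρ T) (hρ : ∀ i, ρ i = (X442.J k ^ i).rank) (h0 : T 0 = X442.J k) : False := by
  have hJ : X442.J k ^ 4 = 0 := by
    have e : X442.J k ^ 4 = (X442.J k * X442.J k) * (X442.J k * X442.J k) := by
      rw [pow_succ, pow_succ, pow_two]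
      simp only [Matrix.mul_assoc]
    rw [e, X442.J_mul_self, X442.TT_mul]
    simp
  have h4 : ρ 4 = 0 := by rw [hρ, hJ, Matrix.rank_zero]
  have key : ∀ i, ∃ a b c, T i = X442.TT a b c := by
    intro i
    refine X442.shape ?_ (hT.cn.2 i) ?_
    · rw [← h0]
      exact hT.cn.1 0 i
    · have h := MaxR.polar4 hT h4 (mem_adj T 0) (mem_adj T i)
      rw [h0] at h
      exact h
  obtain ⟨a, b, c, h1⟩ := key 1
  obtain ⟨a', b', c', h2⟩ := key 2
  have hT' : T = ![X442.J k, X442.TT a b c, X442.TT a' b' c'] := by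
    funext i
    fin_cases i
    · exact h0
    · exact h1
    · exact h2
  refine hT.ncl ?_
  rw [hT']
  refine X442.cl_all (X442.CC_of_comm (c := c) (c' := c') ?_)
  rw [← h1, ← h2]
  exact hT.cn.1 1 2

end Pool.Agent.Lib.D13
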