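import Pool.Agent.Lib.D13.T443f
import Pool.Agent.Lib.D13.Mul4
import Pool.Agent.Lib.D9.BlkMap

/-!
# MP_5dcbc3_ag: type (4, 4, 3)
-/

set_option autoImplicit false

namespace Pool.Agent.Lib.D13.T443

open Matrix Pool.Agent.Lib.Q5dc Pool.Agent.Lib.D7 Pool.Agent.Lib.D8
open Pool.Agent.Lib.D9.T333Aux (D3 Cyc comm_comp)
open Pool.Agent.Lib.D13.JetsAux (JB)

variable {k : Type*} [Field k] {ρ : ℕ → ℕ} {ι : M32 k} {P Q : M3 k}

theorem cyc_pow2 [IsAlgClosed k] {v : Fin 3 → k} (hv : Cyc P v) {X : M3 k} (h : P * X = X * P) :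
    ∃ c0 c1 c2 : k, X = c0 • (1 : M3 k) + c1 • P + c2 • (P * P) := by
  obtain ⟨g, g', a, b, e, hg, hP⟩ := cyc_comp hv
  have hg' : g' * g = 1 := mul_eq_one_comm.1 hg
  have hc : g * X * g' * D9.T333Aux.comp a b e = D9.T333Aux.comp a b e * (g * X * g') := by
    rw [← hP]
    calc g * X * g' * (g * P * g') = g * X * (g' * g) * P * g' := by simp only [mul_assoc]
      _ = g * (X * P) * g' := by rw [hg', mul_one]; simp only [mul_assoc]
      _ = g * (P * X) * g' := by rw [h]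
      _ = g * P * (g' * g) * X * g' := by rw [hg', mul_one]; simp only [mul_assoc]
      _ = g * P * g' * (g * X * g') := by simp only [mul_assoc]
  have hD := comm_comp hc
  set N := g * X * g' with hN
  have hD' : N = N 0 0 • (1 : M3 k) + N 1 0 • (g * P * g') +
      N 2 0 • ((g * P * g') * (g * P * g')) := by
    rw [hP]
    exact hD
  refine ⟨N 0 0, N 1 0, N 2 0, ?_⟩
  have e1 : X = g' * N * g := by
    rw [hN]
    calc X = 1 * X * 1 := by rw [one_mul, mul_one]
      _ = (g' * g) * X * (g' * g) := by rw [hg']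
      _ = g' * (g * X * g') * g := by simp only [mul_assoc]
  have e2 : g' * (g * P * g') * g = P := by
    calc g' * (g * P * g') * g = (g' * g) * P * (g' * g) := by simp only [mul_assoc]
      _ = P := by rw [hg', one_mul, mul_one]
  have e3 : g' * ((g * P * g') * (g * P * g')) * g = P * P := by
    calc g' * ((g * P * g') * (g * P * g')) * g = (g' * g) * P * (g' * g) * P * (g' * g) := by
          simp only [mul_assoc]
      _ = P * P := by rw [hg', one_mul, mul_one, mul_one]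
  rw [e1]
  nth_rewrite 1 [hD']
  simp only [mul_add, add_mul, mul_smul_comm, smul_mul_assoc, mul_one]
  rw [e2, e3, hg']

theorem shape_false [CharZero k] [IsAlgClosed k] (h4 : ρ 4 = 0) {κ : Matrix (Fin 2) (Fin 3) k}
    (hκ : κ * ι = 1) {P' Q' : M3 k} {R R' : M32 k}
    (hT : MaxR ρ ![A4 ι, T ι P Q R, T ι P' Q' R']) : False := by
  have hinf : Infinite k := CharZero.infinite k
  have hB : JB fun (ι : M32 k) (P Q P' Q' : M3 k) => (∃ κ : Matrix (Fin 2) (Fin 3) k, κ * ι = 1) ∧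
      ∃ R R' : M32 k, MaxR ρ ![A4 ι, T ι P Q R, T ι P' Q' R'] := by
    constructor
    · rintro ι P Q P' Q' ⟨-, R, R', h⟩
      exact max_rel h
    · rintro g g' hg ι P Q P' Q' ⟨⟨κ, hκ⟩, R, R', h⟩
      refine ⟨⟨κ * g', ?_⟩, ?_⟩
      · rw [Matrix.mul_assoc, ← Matrix.mul_assoc g', mul_eq_one_comm.1 hg, Matrix.one_mul, hκ]
      · have h1 := max_conj (h := 1) (h' := 1) (by simp) hg h
        rw [Matrix.mul_one] at h1
        exact ⟨_, _, h1⟩
    · rintro a b c d x z hd ι P Q P' Q' ⟨hκ, R, R', h⟩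
      exact ⟨hκ, _, _, max_lin a b c d x z hd h⟩
    · rintro ι P Q P' Q' ⟨hκ, R, R', h⟩ P1 Q1 P1' Q1' h1 h2 F hF
      obtain ⟨s, hs, h3⟩ := max_line h P1 Q1 P1' Q1' 0 0 h1 h2 hF
      exact ⟨s, hs, hκ, _, _, h3⟩
    · rintro ι P Q P' Q' v hv ⟨⟨κ, hκ⟩, R, R', h⟩
      obtain ⟨c0, c1, c2, hc⟩ := cyc_pow2 hv (max_rel h).1
      have h1 := max_lin 1 0 (-c1) 1 0 (-c0) (by simp) h
      have e1 : (1 : k) • P + (0 : k) • P' + (0 : k) • (1 : M3 k) = P := by module
      have e2 : (-c1) • P + (1 : k) • P' + (-c0) • (1 : M3 k) = c2 • (P * P) := by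
        nth_rewrite 1 [hc]
        module
      have e3 : (1 : k) • Q + (0 : k) • Q' = Q := by module
      have e4 : (-c1) • Q + (1 : k) • Q' = c2 • (P * Q + Q * P) +
          ((-c1) • Q + (1 : k) • Q' - c2 • (P * Q + Q * P)) := by abel
      rw [e1, e2, e3, e4] at h1
      exact CD.false h4 hκ hv ⟨_, _, h1⟩
  exact jets hB ⟨⟨κ, hκ⟩, R, R', hT⟩

/-! ### the shape of the centralizer -/

/-- levels -/
abbrev v0 (i : Fin 2) : I4 := .inl i
abbrev v1 (i : Fin 3) : I4 := .inr (.inl i)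
abbrev v2 (i : Fin 3) : I4 := .inr (.inr (.inl i))
abbrev v3 (i : Fin 3) : I4 := .inr (.inr (.inr i))

theorem A_v0 (X : Matrix I4 I4 k) (i : Fin 2) (y : I4) : (A4 (std k) * X) (v0 i) y = 0 := by
  simp [A4, T, G, Matrix.mul_apply, Fintype.sum_sum_type]

theorem A_v1a (X : Matrix I4 I4 k) (y : I4) : (A4 (std k) * X) (v1 0) y = X (v0 0) y := by
  simp [A4, T, G, Matrix.mul_apply, Fintype.sum_sum_type, Fin.sum_univ_three]

theorem A_v1b (X : Matrix I4 I4 k) (y : I4) : (A4 (std k) * X) (v1 1) y = X (v0 1) y := by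
  simp [A4, T, G, Matrix.mul_apply, Fintype.sum_sum_type, Fin.sum_univ_three]

theorem A_v1c (X : Matrix I4 I4 k) (y : I4) : (A4 (std k) * X) (v1 2) y = 0 := by
  simp [A4, T, G, Matrix.mul_apply, Fintype.sum_sum_type, Fin.sum_univ_three]

theorem A_v2 (X : Matrix I4 I4 k) (i : Fin 3) (y : I4) :
    (A4 (std k) * X) (v2 i) y = X (v1 i) y := by
  simp [A4, T, G, Matrix.mul_apply, Fintype.sum_sum_type, Matrix.one_apply]

theorem A_v3 (X : Matrix I4 I4 k) (i : Fin 3) (y : I4) :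
    (A4 (std k) * X) (v3 i) y = X (v2 i) y := by
  simp [A4, T, G, Matrix.mul_apply, Fintype.sum_sum_type, Matrix.one_apply]

theorem v0_A (X : Matrix I4 I4 k) (x : I4) (j : Fin 2) :
    (X * A4 (std k)) x (v0 j) = X x (v1 j.castSucc) := by
  fin_cases j <;> simp [A4, T, G, Matrix.mul_apply, Fintype.sum_sum_type, Fin.sum_univ_three]

theorem v1_A (X : Matrix I4 I4 k) (x : I4) (j : Fin 3) :
    (X * A4 (std k)) x (v1 j) = X x (v2 j) := by
  simp [A4, T, G, Matrix.mul_apply, Fintype.sum_sum_type, Matrix.one_apply]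

theorem v2_A (X : Matrix I4 I4 k) (x : I4) (j : Fin 3) :
    (X * A4 (std k)) x (v2 j) = X x (v3 j) := by
  simp [A4, T, G, Matrix.mul_apply, Fintype.sum_sum_type, Matrix.one_apply]

theorem v3_A (X : Matrix I4 I4 k) (x : I4) (j : Fin 3) :
    (X * A4 (std k)) x (v3 j) = 0 := by
  simp [A4, T, G, Matrix.mul_apply, Fintype.sum_sum_type]

theorem shape {X : Matrix I4 I4 k} (h : A4 (std k) * X = X * A4 (std k)) :
    ∃ (Z0 : Matrix (Fin 2) (Fin 2) k) (Z P Q : M3 k) (R : M32 k),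
      Z * std k = std k * Z0 ∧ X = Dg Z0 Z + T (std k) P Q R := by
  have H := fun x y => congrFun (congrFun h x) y
  have h00 : ∀ (i j : Fin 2), X (v0 i) (v1 j.castSucc) = 0 := by
    intro i j
    rw [← v0_A X, ← H, A_v0]
  have h02 : ∀ i j, X (v0 i) (v2 j) = 0 := by
    intro i j
    rw [← v1_A X, ← H, A_v0]
  have h03 : ∀ i j, X (v0 i) (v3 j) = 0 := by
    intro i j
    rw [← v2_A X, ← H, A_v0]
  have h13 : ∀ i j, X (v1 i) (v3 j) = 0 := by
    intro i j
    rw [← A_v2 X, H, v3_A]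
  have h23 : ∀ i j, X (v2 i) (v3 j) = 0 := by
    intro i j
    rw [← A_v3 X, H, v3_A]
  have h12 : ∀ i j, X (v1 i) (v2 j) = 0 := by
    intro i j
    rw [← A_v2 X, H, v2_A, h23]
  have h01 : ∀ i j, X (v0 i) (v1 j) = 0 := by
    intro i j
    fin_cases i
    · exact (A_v1a X (v1 j)).symm.trans ((H _ _).trans ((v1_A _ _ _).trans (h12 _ _)))
    · exact (A_v1b X (v1 j)).symm.trans ((H _ _).trans ((v1_A _ _ _).trans (h12 _ _)))
  have h22 : ∀ i j, X (v2 i) (v2 j) = X (v1 i) (v1 j) := by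
    intro i j
    rw [← v1_A X, ← H, A_v2]
  have h33 : ∀ i j, X (v3 i) (v3 j) = X (v1 i) (v1 j) := by
    intro i j
    rw [← v2_A X, ← H, A_v3, h22]
  have h10 : ∀ (i : Fin 3) (j : Fin 2), X (v1 i) (v0 j) = X (v2 i) (v1 j.castSucc) := by
    intro i j
    rw [← v0_A X, ← H, A_v2]
  have h32 : ∀ i j, X (v3 i) (v2 j) = X (v2 i) (v1 j) := by
    intro i j
    rw [← v1_A X, ← H, A_v3]
  have h20 : ∀ (i : Fin 3) (j : Fin 2), X (v2 i) (v0 j) = X (v3 i) (v1 j.castSucc) := by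
    intro i j
    rw [← v0_A X, ← H, A_v3]
  have h11a : ∀ (j : Fin 2), X (v1 0) (v1 j.castSucc) = X (v0 0) (v0 j) := by
    intro j
    rw [← v0_A X, ← H, A_v1a]
  have h11b : ∀ (j : Fin 2), X (v1 1) (v1 j.castSucc) = X (v0 1) (v0 j) := by
    intro j
    rw [← v0_A X, ← H, A_v1b]
  have h11c : ∀ (j : Fin 2), X (v1 2) (v1 j.castSucc) = 0 := by
    intro j
    rw [← v0_A X, ← H, A_v1c]
  have estd : ∀ (M : M3 k) (i : Fin 3) (j : Fin 2), (M * std k) i j = M i j.castSucc := by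
    intro M i j
    fin_cases j <;> simp [Matrix.mul_apply, Fin.sum_univ_three]
  refine ⟨Matrix.of fun i j => X (v0 i) (v0 j), Matrix.of fun i j => X (v1 i) (v1 j),
    Matrix.of fun i j => X (v2 i) (v1 j), Matrix.of fun i j => X (v3 i) (v1 j),
    Matrix.of fun i j => X (v3 i) (v0 j), ?_, ?_⟩
  · ext i j
    rw [estd, Matrix.of_apply]
    fin_cases i
    · rw [show ((fun i => i) (⟨0, by decide⟩ : Fin 3)) = 0 from rfl, h11a]
      simp [Matrix.mul_apply]
    · rw [show ((fun i => i) (⟨1, by decide⟩ : Fin 3)) = 1 from rfl, h11b]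
      simp [Matrix.mul_apply]
    · rw [show ((fun i => i) (⟨2, by decide⟩ : Fin 3)) = 2 from rfl, h11c]
      simp [Matrix.mul_apply]
  · ext x y
    rcases x with i | i | i | i <;> rcases y with j | j | j | j <;>
      simp only [Matrix.add_apply, Dg, T, G, Matrix.of_apply, zero_add, add_zero, estd]
    exacts [h01 i j, h02 i j, h03 i j, h10 i j, h12 i j, h13 i j, h20 i j, h22 i j, h23 i j,
      h32 i j, h33 i j]

theorem estd (M : M3 k) (i : Fin 3) (j : Fin 2) : (M * std k) i j = M i j.castSucc := by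
  fin_cases j <;> simp [Matrix.mul_apply, Fin.sum_univ_three]

theorem DT11 (Z0 : Matrix (Fin 2) (Fin 2) k) (Z P Q : M3 k) (R : M32 k) (i j : Fin 3) :
    (Dg Z0 Z + T (std k) P Q R) (v1 i) (v1 j) = Z i j := by
  simp [Dg, T, G]

theorem DT32 (Z0 : Matrix (Fin 2) (Fin 2) k) (Z P Q : M3 k) (R : M32 k) (i j : Fin 3) :
    (Dg Z0 Z + T (std k) P Q R) (v3 i) (v2 j) = P i j := by
  simp [Dg, T, G]

theorem A_sq : A4 (std k) * A4 (std k) = G 0 (std k) 0 0 1 0 := by
  unfold A4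
  rw [T_mul]
  simp

theorem A_cube : A4 (std k) * A4 (std k) * A4 (std k) = G 0 0 (std k) 0 0 0 := by
  rw [A_sq]
  unfold A4 T
  rw [G_mul]
  simp

/-- the shape of the matrices of a maximal triple -/
theorem shape' [CharZero k] {T₀ : Fin 3 → Matrix I4 I4 k} (hT : MaxR ρ T₀)
    (h0 : T₀ 0 = A4 (std k)) (h4 : ρ 4 = 0) :
    ∃ (Z P Q : Fin 3 → M3 k) (R : Fin 3 → M32 k),
      (∀ i, T₀ i = Dg 0 (Z i) + T (std k) (P i) (Q i) (R i)) ∧
      (∀ i a b, Z i a (Fin.castSucc b) = 0) ∧ (∀ i, Z i 2 2 = 0) ∧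
      ∀ i j a (b : Fin 2), Z i a 2 * P j 2 b.castSucc = 0 := by
  have hs : ∀ i, ∃ (Z0 : Matrix (Fin 2) (Fin 2) k) (Z P Q : M3 k) (R : M32 k),
      Z * std k = std k * Z0 ∧ T₀ i = Dg Z0 Z + T (std k) P Q R := fun i =>
    shape (by rw [← h0]; exact hT.cn.1 0 i)
  choose Z0 Z P Q R hZ hX using hs
  have hm : ∀ i, T₀ i ∈ adj T₀ := mem_adj T₀
  have hZ0 : ∀ i, std k * Z0 i = 0 := by
    intro i
    have h := mul4 hT h4 (hm 0) (hm 0) (hm 0) (hm i)
    rw [h0, A_cube, hX i, mul_add, G_Dg] at h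
    unfold T at h
    rw [G_mul, G_add, ← G_zero] at h
    obtain ⟨-, -, h1, -, -, -⟩ := G_inj h
    simpa using h1
  have hZs : ∀ i, Z i * std k = 0 := fun i => (hZ i).trans (hZ0 i)
  have hZ00 : ∀ i, Z0 i = 0 := by
    intro i
    ext a b
    have h := congrFun (congrFun (hZ0 i) a.castSucc) b
    fin_cases a <;> simpa [Matrix.mul_apply] using h
  have hXY : ∀ i j, Z i * (P j * std k) = 0 ∧ Z i * Z j = 0 := by
    intro i j
    have h := mul4 hT h4 (hm 0) (hm 0) (hm i) (hm j)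
    rw [h0, A_sq, hX i, hX j, hZ00 i, hZ00 j, mul_add (G 0 (std k) 0 0 1 0), G_Dg] at h
    unfold T at h
    rw [G_mul, G_add, mul_add, G_Dg, G_mul, G_add, ← G_zero] at h
    obtain ⟨-, -, h1, -, h2, -⟩ := G_inj h
    constructor
    · simpa using h1
    · simpa using h2
  refine ⟨Z, P, Q, R, fun i => by rw [hX i, hZ00 i], ?_, ?_, ?_⟩
  · intro i a b
    rw [← estd (Z i), hZs]
    rfl
  · intro i
    have h := congrFun (congrFun (hXY i i).2 2) 2
    have e0 : Z i 2 0 = 0 := by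
      have := congrFun (congrFun (hZs i) 2) 0
      rwa [estd] at this
    have e1 : Z i 2 1 = 0 := by
      have := congrFun (congrFun (hZs i) 2) 1
      rwa [estd] at this
    rw [Matrix.mul_apply, Fin.sum_univ_three, e0, e1] at h
    simpa using h
  · intro i j a b
    have h := congrFun (congrFun (hXY i j).1 a) b
    have e0 : Z i a 0 = 0 := by
      have := congrFun (congrFun (hZs i) a) 0
      rwa [estd] at this
    have e1 : Z i a 1 = 0 := by
      have := congrFun (congrFun (hZs i) a) 1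
      rwa [estd] at this
    rw [Matrix.mul_apply, Fin.sum_univ_three, e0, e1, estd, estd, estd] at h
    simpa using h

theorem main0 [CharZero k] [IsAlgClosed k] {T₀ : Fin 3 → Matrix I4 I4 k} (hT : MaxR ρ T₀)
    (h0 : T₀ 0 = A4 (std k)) (h4 : ρ 4 = 0)
    (hz : ∀ i (a : Fin 2), T₀ i (v1 a.castSucc) (v1 2) = 0) : False := by
  obtain ⟨Z, P, Q, R, h1, h2, h3, -⟩ := shape' hT h0 h4
  have hZ : ∀ i, Z i = 0 := by
    intro i
    ext a b
    fin_cases b
    · exact h2 i a 0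
    · exact h2 i a 1
    · fin_cases a
      · have := hz i 0
        rw [h1, DT11] at this
        exact this
      · have := hz i 1
        rw [h1, DT11] at this
        exact this
      · exact h3 i
  have hD : (Dg 0 0 : Matrix I4 I4 k) = 0 := by
    ext x y
    rcases x with i | i | i | i <;> rcases y with j | j | j | j <;> simp [Dg]
  have e : T₀ = ![A4 (std k), T (std k) (P 1) (Q 1) (R 1), T (std k) (P 2) (Q 2) (R 2)] := by
    funext i
    fin_cases i
    · exact h0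
    · exact (h1 1).trans (by rw [hZ 1, hD, zero_add]; rfl)
    · exact (h1 2).trans (by rw [hZ 2, hD, zero_add]; rfl)
  rw [e] at hT
  refine shape_false h4 (κ := !![1, 0, 0; 0, 1, 0]) ?_ hT
  ext i j
  fin_cases i <;> fin_cases j <;> simp [Matrix.mul_apply, Fin.sum_univ_three]

/-- the duality of the levels -/
def sg : I4 → I4
  | .inl i => v3 i.castSucc
  | .inr (.inl i) => ![v2 0, v2 1, v3 2] i
  | .inr (.inr (.inl i)) => ![v1 0, v1 1, v2 2] i
  | .inr (.inr (.inr i)) => ![v0 0, v0 1, v1 2] i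

theorem sg_sg : ∀ x, sg (sg x) = x := by decide

def sgE : I4 ≃ I4 := ⟨sg, sg, sg_sg, sg_sg⟩

theorem A_sg (x y : I4) : A4 (std k) (sg y) (sg x) = A4 (std k) x y := by
  rcases x with i | i | i | i <;> rcases y with j | j | j | j <;> fin_cases i <;> fin_cases j <;>
    simp [sg, A4, T, G]

/-- **type (4, 4, 3)** -/
theorem no_443 {k : Type*} [Field k] [CharZero k] [IsAlgClosed k] {ρ : ℕ → ℕ}
    {T₀ : Fin 3 → Matrix I4 I4 k} (hT : MaxR ρ T₀) (hρ : ∀ i, ρ i = (A4 (std k) ^ i).rank)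
    (h0 : T₀ 0 = A4 (std k)) : False := by
  have hinf : Infinite k := CharZero.infinite k
  have h4 : ρ 4 = 0 := by
    have e : A4 (std k) ^ 4 = 0 := by
      rw [show (4 : ℕ) = 2 + 2 from rfl, pow_add, pow_two, A_sq, G_mul]
      simp [G_zero]
    rw [hρ, e, Matrix.rank_zero]
  obtain ⟨Z, P, Q, R, h1, h2, h3, h5⟩ := shape' hT h0 h4
  by_cases hz : ∀ i (a : Fin 2), T₀ i (v1 a.castSucc) (v1 2) = 0
  · exact main0 hT h0 h4 hz
  · push Not at hz
    obtain ⟨i, a, hia⟩ := hz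
    rw [h1, DT11] at hia
    have hP : ∀ j (b : Fin 2), P j 2 b.castSucc = 0 := fun j b =>
      (mul_eq_zero.1 (h5 i j _ b)).resolve_left hia
    have hT' := D9.MaxR.reindex sgE hT.transpose
    have hval : ∀ (X : Matrix I4 I4 k) (x y : I4),
        Matrix.reindexAlgEquiv k k sgE Xᵀ x y = X (sg y) (sg x) := fun X x y => rfl
    refine main0 hT' ?_ h4 ?_
    · ext x y
      rw [h0]
      exact (hval _ _ _).trans (A_sg x y)
    · intro j b
      refine (hval (T₀ j) _ _).trans ?_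
      have e : sg (v1 b.castSucc) = v2 b.castSucc := by
        fin_cases b <;> rfl
      have e' : sg (v1 2) = v3 2 := rfl
      rw [e, e', h1, DT32]
      exact hP j b

end Pool.Agent.Lib.D13.T443
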