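import Pool.Agent.Lib.D13.Frame
import Pool.Agent.Lib.D12.T444

/-!
# MP_5dcbc3_ag: the type `(4, 4, 4)` is not bad
-/

namespace Pool.Agent.Lib.D13

open Matrix Pool.Agent.Lib.Q5dc Pool.Agent.Lib.D7

variable {k : Type*} [Field k] [IsAlgClosed k] [CharZero k]

theorem not_bad_444 : ¬ Bad k [4, 4, 4] := by
  have : Infinite k := IsAlgClosed.instInfinite
  refine not_bad_of (D12.J4 k 3)
    (Sum.elim ![⟨0, (0 : Fin 4)⟩, ⟨1, (0 : Fin 4)⟩, ⟨2, (0 : Fin 4)⟩]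
      (Sum.elim ![⟨0, (1 : Fin 4)⟩, ⟨1, (1 : Fin 4)⟩, ⟨2, (1 : Fin 4)⟩]
      (Sum.elim ![⟨0, (2 : Fin 4)⟩, ⟨1, (2 : Fin 4)⟩, ⟨2, (2 : Fin 4)⟩]
      ![⟨0, (3 : Fin 4)⟩, ⟨1, (3 : Fin 4)⟩, ⟨2, (3 : Fin 4)⟩])))
    (by decide) (by decide) ?_ fun ρ T hT hρ h0 => D12.no_444 hT hρ h0
  rintro (i | i | i | i) (j | j | j | j) <;> fin_cases i <;> fin_cases j <;> rfl

end Pool.Agent.Lib.D13
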