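import Pool.Agent.Lib.D13.R552h

/-!
# MP_5dcbc3_ag: the type `(5, 5, 2)` is not bad
-/

namespace Pool.Agent.Lib.D13

open Matrix Pool.Agent.Lib.Q5dc Pool.Agent.Lib.D7
open scoped Kronecker

variable {k : Type*} [Field k]

namespace R552

theorem S_apply (a b : Fin 5) : S k a b = if (a : ℕ) = b + 1 then 1 else 0 := by
  fin_cases a <;> fin_cases b <;> simp [S]

theorem s_apply (a b : Fin 2) : s k a b = if (a : ℕ) = b + 1 then 1 else 0 := by
  fin_cases a <;> fin_cases b <;> simp [s]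

/-- the boxes -/
def tau : Ix → IxL [5, 5, 2] :=
  Sum.elim (fun p => (![⟨0, (p.1 : Fin 5)⟩, ⟨1, (p.1 : Fin 5)⟩] : Fin 2 → IxL [5, 5, 2]) p.2)
    (fun p => ⟨2, (p.1 : Fin 2)⟩)

end R552

theorem not_bad_552 [IsAlgClosed k] [CharZero k] : ¬ Bad k [5, 5, 2] := by
  have : Infinite k := IsAlgClosed.instInfinite
  refine not_bad_of (R552.J k) R552.tau (by decide) (by decide) ?_
    fun ρ T hT hρ h0 => R552.no_552 hT hρ h0
  rintro (⟨a, i⟩ | ⟨a, i⟩) (⟨b, j⟩ | ⟨b, j⟩)
  · fin_cases i <;> fin_cases j <;>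
      simp [R552.J, R552.tau, kroneckerMap_apply, R552.S_apply]
  · fin_cases i <;> simp [R552.J, R552.tau]
  · fin_cases j <;> simp [R552.J, R552.tau]
  · cases i
    cases j
    simp [R552.J, R552.tau, kroneckerMap_apply, R552.s_apply]

end Pool.Agent.Lib.D13
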