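import Pool.Agent.Lib.D13.FinJ
import Pool.Agent.Lib.D9.T441
import Pool.Agent.Lib.D9.T5211

/-!
# MP_5dcbc3_ag: the types `(4, 4, 1)` and `(5, 2, 1, 1)` are not bad
-/

namespace Pool.Agent.Lib.D13

open Matrix Pool.Agent.Lib.Q5dc Pool.Agent.Lib.D7

variable {k : Type*} [Field k] [IsAlgClosed k] [CharZero k]

theorem not_bad_441 : ¬ Bad k [4, 4, 1] := by
  have : Infinite k := IsAlgClosed.instInfinite
  refine not_bad_fin (by simp) rfl (D9.J441 k) ?_ fun ρ T hT hρ h0 => D9.no_441 hT h0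
  intro i j
  fin_cases i <;> fin_cases j <;> rfl

theorem not_bad_5211 : ¬ Bad k [5, 2, 1, 1] := by
  have : Infinite k := IsAlgClosed.instInfinite
  refine not_bad_fin (by simp) rfl (D9.J5211 k) ?_ fun ρ T hT hρ h0 => D9.no_5211 hT hρ h0
  intro i j
  fin_cases i <;> fin_cases j <;> rfl

end Pool.Agent.Lib.D13
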