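import Pool.Agent.Lib.D13.Frame
import Pool.Agent.Lib.D13.E1Types

/-!
# MP_5dcbc3_ag: the types `(3, 2^u, 1^p)` of sizes `10`, `11`, `12` are not bad
-/

namespace Pool.Agent.Lib.D13

open Matrix Pool.Agent.Lib.Q5dc Pool.Agent.Lib.D7

variable {k : Type*} [Field k] [IsAlgClosed k] [CharZero k]

theorem not_bad_3211111 : ¬ Bad k [3, 2, 1, 1, 1, 1, 1] := by
  have : Infinite k := IsAlgClosed.instInfinite
  exact not_bad_321 (e := 1) (u := 1) (p := 5) fun _ _ hT hρ h0 => no_3211111 hT hρ h0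

theorem not_bad_322111 : ¬ Bad k [3, 2, 2, 1, 1, 1] := by
  have : Infinite k := IsAlgClosed.instInfinite
  exact not_bad_321 (e := 1) (u := 2) (p := 3) fun _ _ hT hρ h0 => no_322111 hT hρ h0

theorem not_bad_32221 : ¬ Bad k [3, 2, 2, 2, 1] := by
  have : Infinite k := IsAlgClosed.instInfinite
  exact not_bad_321 (e := 1) (u := 3) (p := 1) fun _ _ hT hρ h0 => no_32221 hT hρ h0

theorem not_bad_32111111 : ¬ Bad k [3, 2, 1, 1, 1, 1, 1, 1] := by
  have : Infinite k := IsAlgClosed.instInfinite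
  exact not_bad_321 (e := 1) (u := 1) (p := 6) fun _ _ hT hρ h0 => no_32111111 hT hρ h0

theorem not_bad_3221111 : ¬ Bad k [3, 2, 2, 1, 1, 1, 1] := by
  have : Infinite k := IsAlgClosed.instInfinite
  exact not_bad_321 (e := 1) (u := 2) (p := 4) fun _ _ hT hρ h0 => no_3221111 hT hρ h0

theorem not_bad_322211 : ¬ Bad k [3, 2, 2, 2, 1, 1] := by
  have : Infinite k := IsAlgClosed.instInfinite
  exact not_bad_321 (e := 1) (u := 3) (p := 2) fun _ _ hT hρ h0 => no_322211 hT hρ h0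

theorem not_bad_32222 : ¬ Bad k [3, 2, 2, 2, 2] := by
  have : Infinite k := IsAlgClosed.instInfinite
  exact not_bad_321 (e := 1) (u := 4) (p := 0) fun _ _ hT hρ h0 => no_32222 hT hρ h0

theorem not_bad_321111111 : ¬ Bad k [3, 2, 1, 1, 1, 1, 1, 1, 1] := by
  have : Infinite k := IsAlgClosed.instInfinite
  exact not_bad_321 (e := 1) (u := 1) (p := 7) fun _ _ hT hρ h0 => no_321111111 hT hρ h0

theorem not_bad_32211111 : ¬ Bad k [3, 2, 2, 1, 1, 1, 1, 1] := by
  have : Infinite k := IsAlgClosed.instInfinite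
  exact not_bad_321 (e := 1) (u := 2) (p := 5) fun _ _ hT hρ h0 => no_32211111 hT hρ h0

theorem not_bad_3222111 : ¬ Bad k [3, 2, 2, 2, 1, 1, 1] := by
  have : Infinite k := IsAlgClosed.instInfinite
  exact not_bad_321 (e := 1) (u := 3) (p := 3) fun _ _ hT hρ h0 => no_3222111 hT hρ h0

theorem not_bad_322221 : ¬ Bad k [3, 2, 2, 2, 2, 1] := by
  have : Infinite k := IsAlgClosed.instInfinite
  exact not_bad_321 (e := 1) (u := 4) (p := 1) fun _ _ hT hρ h0 => no_322221 hT hρ h0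

end Pool.Agent.Lib.D13
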