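import Pool.Agent.Lib.D13.FinJ
import Pool.Agent.Lib.D9.Ta31

/-!
# MP_5dcbc3_ag: the types `(a, 3, 1)`, `a` at least `5`, are not bad
-/

namespace Pool.Agent.Lib.D13

open Matrix Pool.Agent.Lib.Q5dc Pool.Agent.Lib.D7

variable {k : Type*} [Field k] [IsAlgClosed k] [CharZero k]

theorem isStart_a31 (m r : ℕ) : (r ≠ m + 5 ∧ r ≠ m + 8) ↔ isStart [m + 5, 3, 1] r = false := by
  simp only [isStart]
  by_cases h1 : r = m + 5 <;> by_cases h2 : m + 5 < r <;> simp [h1, h2]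
  all_goals omega

theorem not_bad_a31 {m : ℕ} : ¬ Bad k [m + 5, 3, 1] := by
  have : Infinite k := IsAlgClosed.instInfinite
  refine not_bad_fin (by simp) (by simp) (D9.Ta31.J : Matrix (Fin (m + 9)) (Fin (m + 9)) k) ?_
    fun ρ T hT _ h0 => D9.no_a31 hT h0
  intro r c
  show (if (r : ℕ) = c + 1 ∧ (r : ℕ) ≠ m + 5 ∧ (r : ℕ) ≠ m + 8 then (1 : k) else 0) = _
  exact if_congr (and_congr_right fun _ => isStart_a31 m r) rfl rfl

theorem not_bad_531 : ¬ Bad k [5, 3, 1] := not_bad_a31 (m := 0)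

theorem not_bad_631 : ¬ Bad k [6, 3, 1] := not_bad_a31 (m := 1)

theorem not_bad_731 : ¬ Bad k [7, 3, 1] := not_bad_a31 (m := 2)

theorem not_bad_831 : ¬ Bad k [8, 3, 1] := not_bad_a31 (m := 3)

end Pool.Agent.Lib.D13
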