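import Pool.Agent.Lib.D13.TW

/-!
# MP_5dcbc3_ag: normal form of a pair of 4 x 4 matrices with `[P, Q] = z φ`

If `P` has a cyclic row and `φ ≠ 0`, then in a suitable basis `P` is bidiagonal, `φ` is a basis row
and `Q` is a polynomial in `P` plus an explicit matrix.
-/

set_option autoImplicit false

namespace Pool.Agent.Lib.D13

open Matrix Polynomial Pool.Agent.Lib.Q5dc Pool.Agent.Lib.D7

namespace NF4Aux

variable {k : Type*} [Field k]

/-- a matrix commuting with a bidiagonal matrix is zero if its first row is -/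
theorem row0 {a : Fin 4 → k} {D : Matrix (Fin 4) (Fin 4) k} (h : bid a * D = D * bid a)
    (h0 : ∀ j, D 0 j = 0) : D = 0 := by
  have e := fun i j => congrFun (congrFun h i) j
  have h1 : ∀ j, D 1 j = 0 := by
    intro j
    have := e 0 j
    simpa [bid, Matrix.mul_apply, Fin.sum_univ_four, h0] using this
  have h2 : ∀ j, D 2 j = 0 := by
    intro j
    have := e 1 j
    simpa [bid, Matrix.mul_apply, Fin.sum_univ_four, h1] using this
  have h3 : ∀ j, D 3 j = 0 := by
    intro j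
    have := e 2 j
    simpa [bid, Matrix.mul_apply, Fin.sum_univ_four, h2] using this
  ext i j
  fin_cases i
  · exact h0 j
  · exact h1 j
  · exact h2 j
  · exact h3 j

theorem pol_comm (f : Fin 4 → k) (P : Matrix (Fin 4) (Fin 4) k) : P * pol f P = pol f P * P := by
  simp only [pol, Matrix.mul_add, Matrix.add_mul, Matrix.mul_smul, Matrix.smul_mul,
    Matrix.mul_one, Matrix.one_mul, Matrix.mul_assoc]

/-- the commutant of a bidiagonal matrix -/
theorem comm_bid {a : Fin 4 → k} {X : Matrix (Fin 4) (Fin 4) k} (h : bid a * X = X * bid a) :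
    ∃ f : Fin 4 → k, X = pol f (bid a) := by
  set f3 := X 0 3 with hf3
  set f2 := X 0 2 - f3 * (a 0 + a 1 + a 2) with hf2
  set f1 := X 0 1 - f2 * (a 0 + a 1) - f3 * (a 0 ^ 2 + a 0 * a 1 + a 1 ^ 2) with hf1
  set f0 := X 0 0 - f1 * a 0 - f2 * a 0 ^ 2 - f3 * a 0 ^ 3 with hf0
  refine ⟨![f0, f1, f2, f3], ?_⟩
  rw [← sub_eq_zero]
  refine row0 (a := a) ?_ ?_
  · rw [Matrix.mul_sub, Matrix.sub_mul, h, pol_comm]
  · intro j
    fin_cases j
    · simp [pol, bid, Matrix.mul_apply, Fin.sum_univ_four]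
      rw [hf0]
      ring
    · simp [pol, bid, Matrix.mul_apply, Fin.sum_univ_four]
      rw [hf1]
      ring
    · simp [pol, bid, Matrix.mul_apply, Fin.sum_univ_four]
      rw [hf2]
      ring
    · simp [pol, bid, Matrix.mul_apply, Fin.sum_univ_four]
      rw [hf3, sub_self]

/-- `z` is orthogonal to `e_s N` for every `N` in the commutant -/
theorem orth {B Q N : Matrix (Fin 4) (Fin 4) k} {z φ : Fin 4 → k}
    (h : B * Q - Q * B = vecMulVec z φ) (hN : B * N = N * B) : φ ⬝ᵥ (N *ᵥ z) = 0 := by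
  have h1 : trace (N * (B * Q - Q * B)) = 0 := by
    rw [Matrix.mul_sub, Matrix.trace_sub, ← Matrix.mul_assoc, ← Matrix.mul_assoc, ← hN,
      Matrix.trace_mul_comm (N * Q) B, ← Matrix.mul_assoc, sub_self]
  rw [h, Matrix.mul_vecMulVec, Matrix.trace_vecMulVec] at h1
  rw [dotProduct_comm]
  exact h1

theorem zero_of_comm {a : Fin 4 → k} {Q : Matrix (Fin 4) (Fin 4) k} {z : Fin 4 → k} {s : Fin 4}
    (h : bid a * Q - Q * bid a = vecMulVec z (Pi.single s 1)) : ∀ i, s ≤ i → z i = 0 := by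
  have h0 := orth h (N := 1) (by simp)
  have h1 := orth h (N := bid a) rfl
  have h2 := orth h (N := bid a * bid a) (by rw [Matrix.mul_assoc])
  have h3 := orth h (N := bid a * bid a * bid a) (by simp only [Matrix.mul_assoc])
  rw [Matrix.one_mulVec, single_one_dotProduct] at h0
  rw [single_one_dotProduct] at h1
  rw [single_one_dotProduct, ← Matrix.mulVec_mulVec] at h2
  rw [single_one_dotProduct, ← Matrix.mulVec_mulVec, ← Matrix.mulVec_mulVec] at h3
  fin_cases s
  · simp [bid, Matrix.mulVec, dotProduct, Fin.sum_univ_four] at h0 h1 h2 h3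
    have z1 : z 1 = 0 := by linear_combination h1 - a 0 * h0
    rw [h0, z1] at h2 h3
    have z2 : z 2 = 0 := by linear_combination h2
    rw [z2] at h3
    have z3 : z 3 = 0 := by linear_combination h3
    intro i _
    fin_cases i
    · exact h0
    · exact z1
    · exact z2
    · exact z3
  · simp [bid, Matrix.mulVec, dotProduct, Fin.sum_univ_four] at h0 h1 h2 h3
    have z2 : z 2 = 0 := by linear_combination h1 - a 1 * h0
    rw [h0, z2] at h2 h3
    have z3 : z 3 = 0 := by linear_combination h2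
    intro i hi
    fin_cases i
    · exact absurd hi (by decide)
    · exact h0
    · exact z2
    · exact z3
  · simp [bid, Matrix.mulVec, dotProduct, Fin.sum_univ_four] at h0 h1 h2 h3
    have z3 : z 3 = 0 := by linear_combination h1 - a 2 * h0
    intro i hi
    fin_cases i
    · exact absurd hi (by decide)
    · exact absurd hi (by decide)
    · exact h0
    · exact z3
  · simp [bid, Matrix.mulVec, dotProduct, Fin.sum_univ_four] at h0
    intro i hi
    fin_cases i
    · exact absurd hi (by decide)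
    · exact absurd hi (by decide)
    · exact absurd hi (by decide)
    · exact h0

/-- the second half of the normal form -/
theorem core {P Q G : Matrix (Fin 4) (Fin 4) k} {a z φ : Fin 4 → k} {s : Fin 4}
    (hG : G.det ≠ 0) (hP : G * P = bid a * G) (hφ : φ = G s)
    (hz : P * Q - Q * P = vecMulVec z φ) :
    ∃ (g g' : Matrix (Fin 4) (Fin 4) k) (f z' : Fin 4 → k), g * g' = 1 ∧
      φ ᵥ* g' = Pi.single s 1 ∧ g * P * g' = bid a ∧
      g * Q * g' = pol f (bid a) + Qz s a z' ∧ ∀ i, s ≤ i → z' i = 0 := by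
  have hu : IsUnit G.det := isUnit_iff_ne_zero.2 hG
  have h1 : G * G⁻¹ = 1 := Matrix.mul_nonsing_inv _ hu
  have h2 : G⁻¹ * G = 1 := Matrix.nonsing_inv_mul _ hu
  have h3 : φ ᵥ* G⁻¹ = Pi.single s 1 := by
    have h4 : φ = (Pi.single s 1 : Fin 4 → k) ᵥ* G := by
      rw [hφ, Matrix.single_one_vecMul]
      rfl
    rw [h4, Matrix.vecMul_vecMul, h1, Matrix.vecMul_one]
  have h5 : G * P * G⁻¹ = bid a := by
    rw [hP, Matrix.mul_assoc, h1, Matrix.mul_one]
  have h6 : bid a * (G * Q * G⁻¹) - (G * Q * G⁻¹) * bid a =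
      vecMulVec (G *ᵥ z) (Pi.single s 1) := by
    have h7 : G * (P * Q - Q * P) * G⁻¹ = vecMulVec (G *ᵥ z) (Pi.single s 1) := by
      rw [hz, Matrix.mul_vecMulVec, Matrix.vecMulVec_mul, h3]
    rw [← h7, ← h5]
    have h8 : ∀ X Y : Matrix (Fin 4) (Fin 4) k,
        G * X * G⁻¹ * (G * Y * G⁻¹) = G * (X * Y) * G⁻¹ := by
      intro X Y
      calc G * X * G⁻¹ * (G * Y * G⁻¹) = G * X * (G⁻¹ * G) * Y * G⁻¹ := by
            simp only [Matrix.mul_assoc]
        _ = G * (X * Y) * G⁻¹ := by rw [h2, Matrix.mul_one, Matrix.mul_assoc G X Y]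
    rw [h8, h8, Matrix.mul_sub, Matrix.sub_mul]
  have h9 := zero_of_comm h6
  have h10 := Qz_comm s a (G *ᵥ z) h9
  obtain ⟨f, hf⟩ := comm_bid (a := a) (X := G * Q * G⁻¹ - Qz s a (G *ᵥ z)) (by
    rw [Matrix.mul_sub, Matrix.sub_mul]
    have h11 := h6.trans h10.symm
    have h12 : bid a * (G * Q * G⁻¹) = G * Q * G⁻¹ * bid a +
      (bid a * Qz s a (G *ᵥ z) - Qz s a (G *ᵥ z) * bid a) := by
      rw [← h11]
      abel
    rw [h12]
    abel)
  refine ⟨G, G⁻¹, f, G *ᵥ z, h1, h3, h5, ?_, h9⟩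
  rw [← hf]
  abel

/-! ### the first half: a cyclic row adapted to `φ` -/

/-- product of the linear factors -/
noncomputable def pr (L : List k) : k[X] := (L.map fun a => X - C a).prod

theorem pr_append (L L' : List k) : pr (L ++ L') = pr L * pr L' := by
  rw [pr, List.map_append, List.prod_append, pr, pr]

theorem pr_eq (L : List k) : pr L = ((L : Multiset k).map fun a => X - C a).prod := by
  rw [pr, Multiset.map_coe, Multiset.prod_coe]

theorem pr_toList (s : Multiset k) : pr s.toList = (s.map fun a => X - C a).prod := by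
  rw [pr_eq, Multiset.coe_toList]

theorem exists_pol {P : Matrix (Fin 4) (Fin 4) k} {om : Fin 4 → k}
    (h : (Matrix.of fun i : Fin 4 => om ᵥ* P ^ (i : ℕ)).det ≠ 0) (φ : Fin 4 → k) :
    ∃ g : k[X], g.natDegree ≤ 3 ∧ om ᵥ* aeval P g = φ := by
  set K : Matrix (Fin 4) (Fin 4) k := Matrix.of fun i : Fin 4 => om ᵥ* P ^ (i : ℕ) with hK
  have hu : IsUnit K.det := isUnit_iff_ne_zero.2 h
  have h1 : (φ ᵥ* K⁻¹) ᵥ* K = φ := by
    rw [Matrix.vecMul_vecMul, Matrix.nonsing_inv_mul _ hu, Matrix.vecMul_one]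
  set x := φ ᵥ* K⁻¹ with hx
  refine ⟨∑ i : Fin 4, C (x i) * X ^ (i : ℕ), ?_, ?_⟩
  · refine natDegree_sum_le_of_forall_le _ _ fun i _ => ?_
    refine (natDegree_C_mul_X_pow_le _ _).trans ?_
    have := i.2
    omega
  · rw [map_sum, ← h1]
    have h2 : ∀ i : Fin 4, aeval P (C (x i) * X ^ (i : ℕ)) = x i • P ^ (i : ℕ) := by
      intro i
      rw [map_mul, aeval_C, map_pow, aeval_X, Algebra.smul_def]
    simp only [h2]
    funext j
    rw [Matrix.vecMul, dotProduct, Matrix.vecMul, dotProduct]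
    simp only [Matrix.sum_apply, Matrix.smul_apply, smul_eq_mul, Finset.mul_sum]
    rw [Finset.sum_comm]
    refine Finset.sum_congr rfl fun i _ => ?_
    rw [hK, Matrix.of_apply, Matrix.vecMul, dotProduct, Finset.mul_sum]
    refine Finset.sum_congr rfl fun l _ => ?_
    ring

theorem factor [IsAlgClosed k] {P : Matrix (Fin 4) (Fin 4) k} {om : Fin 4 → k}
    (h : (Matrix.of fun i : Fin 4 => om ᵥ* P ^ (i : ℕ)).det ≠ 0) {φ : Fin 4 → k} (hφ : φ ≠ 0) :
    ∃ (v : k[X]) (L1 L2 : List k), IsCoprime v P.charpoly ∧ L1.length ≤ 3 ∧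
      pr (L1 ++ L2) = P.charpoly ∧ (om ᵥ* aeval P v) ᵥ* aeval P (pr L1) = φ := by
  classical
  obtain ⟨g, hg3, hg⟩ := exists_pol h φ
  have hg0 : g ≠ 0 := by
    rintro rfl
    apply hφ
    rw [← hg, map_zero, Matrix.vecMul_zero]
  set χ := P.charpoly with hχ
  have hmon : χ.Monic := Matrix.charpoly_monic P
  have hχ0 : χ ≠ 0 := hmon.ne_zero
  have hspl : χ = (χ.roots.map fun a => X - C a).prod := by
    have := (IsAlgClosed.splits χ).eq_prod_roots
    rw [hmon.leadingCoeff, C_1, one_mul] at this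
    exact this
  set S := χ.roots ∩ g.roots with hS
  have hS1 : S ≤ χ.roots := Multiset.inter_le_left
  have hS2 : S ≤ g.roots := Multiset.inter_le_right
  set d := (S.map fun a => X - C a).prod with hd
  obtain ⟨u, hu⟩ : d ∣ g := (Multiset.prod_X_sub_C_dvd_iff_le_roots hg0 S).2 hS2
  set χ2 := ((χ.roots - S).map fun a => X - C a).prod with hχ2
  have hdχ : χ = d * χ2 := by
    rw [hd, hχ2, ← Multiset.prod_add, ← Multiset.map_add, add_comm, tsub_add_cancel_of_le hS1]
    exact hspl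
  have hd0 : d ≠ 0 := by
    rintro h0
    rw [h0, zero_mul] at hu
    exact hg0 hu
  have hu0 : u ≠ 0 := by
    rintro h0
    rw [h0, mul_zero] at hu
    exact hg0 hu
  have hr1 : d.roots = S := roots_multiset_prod_X_sub_C S
  have hr2 : χ2.roots = χ.roots - S := roots_multiset_prod_X_sub_C _
  have hr3 : g.roots = S + u.roots := by
    rw [hu, roots_mul (by rw [← hu]; exact hg0), hr1]
  have hcop : ∀ α, ¬ (u.eval α = 0 ∧ χ2.eval α = 0) := by
    rintro α ⟨h1, h2⟩
    have hχ20 : χ2 ≠ 0 := by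
      rintro h0
      rw [h0, mul_zero] at hdχ
      exact hχ0 hdχ
    have h3 : 0 < u.roots.count α := Multiset.count_pos.2 ((mem_roots hu0).2 h1)
    have h4 : 0 < χ2.roots.count α := Multiset.count_pos.2 ((mem_roots hχ20).2 h2)
    rw [hr2, Multiset.count_sub] at h4
    have h5 : g.roots.count α = S.count α + u.roots.count α := by rw [hr3, Multiset.count_add]
    have h6 : S.count α = min (χ.roots.count α) (g.roots.count α) := Multiset.count_inter _ _ _
    omega
  obtain ⟨c, hc⟩ := Infinite.exists_notMem_finset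
    (χ.roots.toFinset.image fun α => - u.eval α / χ2.eval α)
  have hv : IsCoprime (u + C c * χ2) χ := by
    rw [Polynomial.isCoprime_iff_aeval_ne_zero_of_isAlgClosed k k]
    intro α
    by_contra hcon
    rw [not_or, not_not, not_not] at hcon
    obtain ⟨h1, h2⟩ := hcon
    rw [coe_aeval_eq_eval] at h1 h2
    rw [eval_add, eval_mul, eval_C] at h1
    by_cases h3 : χ2.eval α = 0
    · rw [h3, mul_zero, add_zero] at h1
      exact hcop α ⟨h1, h3⟩
    · apply hc
      rw [Finset.mem_image]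
      refine ⟨α, Multiset.mem_toFinset.2 ((mem_roots hχ0).2 h2), ?_⟩
      field_simp
      linear_combination -h1
  refine ⟨u + C c * χ2, S.toList, (χ.roots - S).toList, hv, ?_, ?_, ?_⟩
  · rw [Multiset.length_toList]
    refine (Multiset.card_le_card hS2).trans ((card_roots' g).trans hg3)
  · rw [pr_append, pr_toList, pr_toList]
    exact hdχ.symm
  · have h1 : pr S.toList = d := pr_toList S
    rw [h1, Matrix.vecMul_vecMul, ← map_mul]
    have h2 : (u + C c * χ2) * d = g + C c * χ := by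
      rw [hu]
      conv_rhs => rw [hdχ]
      ring
    rw [h2, map_add, map_mul, Matrix.aeval_self_charpoly, mul_zero, add_zero, hg]

/-- a matrix adapted to `P` and `φ` -/
theorem adapted [IsAlgClosed k] {P : Matrix (Fin 4) (Fin 4) k} {om : Fin 4 → k}
    (h : (Matrix.of fun i : Fin 4 => om ᵥ* P ^ (i : ℕ)).det ≠ 0) {φ : Fin 4 → k} (hφ : φ ≠ 0) :
    ∃ (G : Matrix (Fin 4) (Fin 4) k) (a : Fin 4 → k) (s : Fin 4), G.det ≠ 0 ∧
      G * P = bid a * G ∧ φ = G s := by
  obtain ⟨v, L1, L2, hv, h3, hχ, hφ2⟩ := factor h hφ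
  set om' := om ᵥ* aeval P v with hom
  have hlen : L1.length + L2.length = 4 := by
    have h1 : (pr (L1 ++ L2)).natDegree = 4 := by
      rw [hχ, Matrix.charpoly_natDegree_eq_dim, Fintype.card_fin]
    rw [pr_eq, natDegree_multiset_prod_X_sub_C_eq_card, Multiset.coe_card,
      List.length_append] at h1
    exact h1
  have hdet : (Matrix.of fun i : Fin 4 => om' ᵥ* P ^ (i : ℕ)).det ≠ 0 := by
    obtain ⟨A, B, hAB⟩ := hv
    have h1 : aeval P A * aeval P v = 1 := by
      have := congrArg (aeval P) hAB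
      rw [map_add, map_mul, map_mul, Matrix.aeval_self_charpoly, mul_zero, add_zero, map_one]
        at this
      exact this
    have h2 : (aeval P v : Matrix (Fin 4) (Fin 4) k).det ≠ 0 := by
      intro h0
      have := congrArg Matrix.det h1
      rw [Matrix.det_mul, h0, mul_zero, Matrix.det_one] at this
      exact zero_ne_one this
    have h4 : (Matrix.of fun i : Fin 4 => om' ᵥ* P ^ (i : ℕ)) =
        (Matrix.of fun i : Fin 4 => om ᵥ* P ^ (i : ℕ)) * aeval P v := by
      have h5 : ∀ i : ℕ, om' ᵥ* P ^ i = (om ᵥ* P ^ i) ᵥ* aeval P v := by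
        intro i
        rw [hom, Matrix.vecMul_vecMul, Matrix.vecMul_vecMul]
        congr 1
        have h6 : P ^ i = aeval P (X ^ i : k[X]) := by rw [map_pow, aeval_X]
        rw [h6, ← map_mul, ← map_mul, mul_comm]
      ext i j
      rw [Matrix.of_apply, h5]
      rfl
    rw [h4, Matrix.det_mul]
    exact mul_ne_zero h h2
  obtain ⟨a0, a1, a2, a3, hL⟩ : ∃ a0 a1 a2 a3 : k, L1 ++ L2 = [a0, a1, a2, a3] := by
    have h1 : (L1 ++ L2).length = 4 := by rw [List.length_append]; exact hlen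
    generalize L1 ++ L2 = L at h1
    match L, h1 with
    | [a, b, c, d], _ => exact ⟨a, b, c, d, rfl⟩
  have hchi : om' ᵥ* ((P - a0 • (1 : Matrix (Fin 4) (Fin 4) k)) * (P - a1 • (1 : Matrix (Fin 4) (Fin 4) k)) *
      (P - a2 • (1 : Matrix (Fin 4) (Fin 4) k)) * (P - a3 • (1 : Matrix (Fin 4) (Fin 4) k))) = 0 := by
    have h1 := Matrix.aeval_self_charpoly P
    rw [← hχ, hL, pr] at h1
    simp only [List.map_cons, List.map_nil, List.prod_cons, List.prod_nil, mul_one, map_mul,
      map_sub, aeval_X, aeval_C, Algebra.algebraMap_eq_smul_one] at h1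
    simp only [Matrix.mul_assoc] at h1 ⊢
    rw [h1, Matrix.vecMul_zero]
  set q1 := om' ᵥ* P with hq1
  set q2 := q1 ᵥ* P with hq2
  set q3 := q2 ᵥ* P with hq3
  set r1 := q1 - a0 • om' with hr1
  set r2 := q2 - (a0 + a1) • q1 + (a0 * a1) • om' with hr2
  set r3 := q3 - (a0 + a1 + a2) • q2 + (a0 * a1 + a0 * a2 + a1 * a2) • q1 - (a0 * a1 * a2) • om'
    with hr3
  have e1 : om' ᵥ* (P - a0 • (1 : Matrix (Fin 4) (Fin 4) k)) = r1 := by
    rw [Matrix.vecMul_sub, Matrix.vecMul_smul, Matrix.vecMul_one]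
  have e2 : r1 ᵥ* (P - a1 • (1 : Matrix (Fin 4) (Fin 4) k)) = r2 := by
    rw [Matrix.vecMul_sub, Matrix.vecMul_smul, Matrix.vecMul_one, hr1, Matrix.sub_vecMul,
      Matrix.smul_vecMul, hr2, ← hq1, ← hq2]
    module
  have e3 : r2 ᵥ* (P - a2 • (1 : Matrix (Fin 4) (Fin 4) k)) = r3 := by
    rw [Matrix.vecMul_sub, Matrix.vecMul_smul, Matrix.vecMul_one, hr2, Matrix.add_vecMul,
      Matrix.sub_vecMul, Matrix.smul_vecMul, Matrix.smul_vecMul, hr3, ← hq1, ← hq2, ← hq3]
    module
  have e4 : r3 ᵥ* (P - a3 • (1 : Matrix (Fin 4) (Fin 4) k)) = 0 := by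
    rw [← e3, ← e2, ← e1, Matrix.vecMul_vecMul, Matrix.vecMul_vecMul, Matrix.vecMul_vecMul]
    rw [Matrix.mul_assoc, Matrix.mul_assoc] at hchi
    exact hchi
  let G : Matrix (Fin 4) (Fin 4) k := Matrix.of ![om', r1, r2, r3]
  refine ⟨G, ![a0, a1, a2, a3], ⟨L1.length, by omega⟩, ?_, ?_, ?_⟩
  · have h1 : G = !![1, 0, 0, 0; -a0, 1, 0, 0; a0 * a1, -(a0 + a1), 1, 0;
        -(a0 * a1 * a2), a0 * a1 + a0 * a2 + a1 * a2, -(a0 + a1 + a2), 1] *
        (Matrix.of fun i : Fin 4 => om' ᵥ* P ^ (i : ℕ)) := by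
      have f0 : om' ᵥ* P ^ 0 = om' := by rw [pow_zero, Matrix.vecMul_one]
      have f1 : om' ᵥ* P ^ 1 = q1 := by rw [pow_one]
      have f2 : om' ᵥ* P ^ 2 = q2 := by rw [pow_two, ← Matrix.vecMul_vecMul]
      have f3 : om' ᵥ* P ^ 3 = q3 := by
        rw [pow_succ, pow_two, ← Matrix.vecMul_vecMul, ← Matrix.vecMul_vecMul]
      ext i j
      rw [Matrix.mul_apply, Fin.sum_univ_four]
      have g0 : (Matrix.of fun i : Fin 4 => om' ᵥ* P ^ (i : ℕ)) 0 j = om' j := congrFun f0 j
      have g1 : (Matrix.of fun i : Fin 4 => om' ᵥ* P ^ (i : ℕ)) 1 j = q1 j := congrFun f1 j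
      have g2 : (Matrix.of fun i : Fin 4 => om' ᵥ* P ^ (i : ℕ)) 2 j = q2 j := congrFun f2 j
      have g3 : (Matrix.of fun i : Fin 4 => om' ᵥ* P ^ (i : ℕ)) 3 j = q3 j := congrFun f3 j
      rw [g0, g1, g2, g3]
      fin_cases i
      · simp [G]
      · simp [G, hr1]
        ring
      · simp [G, hr2]
        ring
      · simp [G, hr3]
        ring
    rw [h1, Matrix.det_mul]
    refine mul_ne_zero ?_ hdet
    have h5 : (!![1, 0, 0, 0; -a0, 1, 0, 0; a0 * a1, -(a0 + a1), 1, 0;
        -(a0 * a1 * a2), a0 * a1 + a0 * a2 + a1 * a2, -(a0 + a1 + a2), 1] :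
        Matrix (Fin 4) (Fin 4) k).det = 1 := by
      simp [Matrix.det_succ_row_zero, Fin.sum_univ_succ]
    rw [h5]
    exact one_ne_zero
  · have hrow : ∀ (r r' : Fin 4 → k) (c : k), r ᵥ* (P - c • (1 : Matrix (Fin 4) (Fin 4) k)) = r' →
        r ᵥ* P = c • r + r' := by
      intro r r' c hr
      rw [← hr, Matrix.vecMul_sub, Matrix.vecMul_smul, Matrix.vecMul_one]
      abel
    have k0 := hrow _ _ _ e1
    have k1 := hrow _ _ _ e2
    have k2 := hrow _ _ _ e3
    have k3 := hrow _ _ _ e4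
    ext i j
    rw [Matrix.mul_apply (M := bid _), Fin.sum_univ_four]
    fin_cases i
    · have h1 : (G * P) 0 j = (om' ᵥ* P) j := rfl
      have h2 := congrFun k0 j
      rw [← h1] at h2
      refine h2.trans ?_
      simp [G, bid]
    · have h1 : (G * P) 1 j = (r1 ᵥ* P) j := rfl
      have h2 := congrFun k1 j
      rw [← h1] at h2
      refine h2.trans ?_
      simp [G, bid]
    · have h1 : (G * P) 2 j = (r2 ᵥ* P) j := rfl
      have h2 := congrFun k2 j
      rw [← h1] at h2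
      refine h2.trans ?_
      simp [G, bid]
    · have h1 : (G * P) 3 j = (r3 ᵥ* P) j := rfl
      have h2 := congrFun k3 j
      rw [← h1] at h2
      refine h2.trans ?_
      simp [G, bid]
  · have hφ3 : om' ᵥ* aeval P (pr L1) = φ := hφ2
    rcases L1 with _ | ⟨b0, _ | ⟨b1, _ | ⟨b2, _ | ⟨b3, L1⟩⟩⟩⟩
    · rw [← hφ3, pr, List.map_nil, List.prod_nil, map_one, Matrix.vecMul_one]
      rfl
    · have hb : b0 = a0 := by simpa using congrArg (fun l : List k => l.headD 0) hL
      subst hb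
      rw [← hφ3, pr]
      simp only [List.map_cons, List.map_nil, List.prod_cons, List.prod_nil, mul_one,
        map_sub, aeval_X, aeval_C, Algebra.algebraMap_eq_smul_one]
      exact e1
    · obtain ⟨hb0, hb1, -⟩ : b0 = a0 ∧ b1 = a1 ∧ L2 = [a2, a3] := by simpa using hL
      subst hb0 hb1
      rw [← hφ3, pr]
      simp only [List.map_cons, List.map_nil, List.prod_cons, List.prod_nil, mul_one, map_mul,
        map_sub, aeval_X, aeval_C, Algebra.algebraMap_eq_smul_one]
      rw [← Matrix.vecMul_vecMul, e1]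
      exact e2
    · obtain ⟨hb0, hb1, hb2, -⟩ : b0 = a0 ∧ b1 = a1 ∧ b2 = a2 ∧ L2 = [a3] := by simpa using hL
      subst hb0 hb1 hb2
      rw [← hφ3, pr]
      simp only [List.map_cons, List.map_nil, List.prod_cons, List.prod_nil, mul_one, map_mul,
        map_sub, aeval_X, aeval_C, Algebra.algebraMap_eq_smul_one]
      rw [← Matrix.vecMul_vecMul, ← Matrix.vecMul_vecMul, e1, e2]
      exact e3
    · simp only [List.length_cons] at h3
      omega

end NF4Aux

open NF4Aux

theorem nf4 {k : Type*} [Field k] [IsAlgClosed k] {P Q : Matrix (Fin 4) (Fin 4) k}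
    {om : Fin 4 → k} (h : (Matrix.of fun i : Fin 4 => om ᵥ* P ^ (i : ℕ)).det ≠ 0)
    {φ z : Fin 4 → k} (hφ : φ ≠ 0) (hz : P * Q - Q * P = vecMulVec z φ) :
    ∃ (g g' : Matrix (Fin 4) (Fin 4) k) (s : Fin 4) (a f z' : Fin 4 → k), g * g' = 1 ∧
      φ ᵥ* g' = Pi.single s 1 ∧ g * P * g' = bid a ∧
      g * Q * g' = pol f (bid a) + Qz s a z' ∧ ∀ i, s ≤ i → z' i = 0 := by
  obtain ⟨G, a, s, hG, hP, hφ2⟩ := adapted h hφ
  obtain ⟨g, g', f, z', h1, h2, h3, h4, h5⟩ := core hG hP hφ2 hz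
  exact ⟨g, g', s, a, f, z', h1, h2, h3, h4, h5⟩

end Pool.Agent.Lib.D13
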