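import Pool.Agent.Lib.D13.LMF

/-!
# MP_5dcbc3_ag: the type `(l, 3, 1, 1)`, case II: equations and moves
-/

namespace Pool.Agent.Lib.D13.LM

open Matrix Pool.Agent.Lib.Q5dc Pool.Agent.Lib.D7

variable {k : Type*} [Field k] {l : ℕ} {ρ : ℕ → ℕ}

/-- `c_1`, `c_2` as a sequence -/
def ex (c : Fin 2 → k) : ℕ → k := fun a => if a = 1 then c 0 else if a = 2 then c 1 else 0

/-- the matrices `BL` with `c_0 = b_0 = 0` -/
def B3 (l : ℕ) (c b q om pi th et : Fin 2 → k) : Matrix (IL l 3 2) (IL l 3 2) k :=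
  BL l 3 2 (ex c) (ex b) (ex q) om pi th et

section rules

variable (c b q om pi th et c' b' q' om' pi' th' et' : Fin 2 → k)

theorem BL_eq_B3 (h : 3 < l) {c b q : ℕ → k} (hc : c 0 = 0) (hb : b 0 = 0) (om pi th et : Fin 2 → k) :
    BL l 3 2 c b q om pi th et = B3 l ![c 1, c 2] ![b 1, b 2] ![q 1, q 2] om pi th et := by
  refine BL_congr (fun a ha => ?_) (fun a ha => ?_) (fun a ha ha' => ?_) h.le
  · rcases (by omega : a = 0 ∨ a = 1 ∨ a = 2) with rfl | rfl | rfl <;> simp [ex, hc]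
  · rcases (by omega : a = 0 ∨ a = 1 ∨ a = 2) with rfl | rfl | rfl <;> simp [ex, hb]
  · rcases (by omega : a = 1 ∨ a = 2) with rfl | rfl <;> simp [ex]

theorem B3_comm (h : 3 < l) : JL k l 3 2 * B3 l c b q om pi th et =
    B3 l c b q om pi th et * JL k l 3 2 := BL_comm _ _ _ _ _ _ _ h (by omega)

theorem B3_nil (h : 3 < l) : IsNilpotent (B3 l c b q om pi th et) :=
  BL_nil _ _ _ _ _ _ _ h (by omega)

theorem B3_v (h : 3 < l) (j : ℕ) : B3 l c b q om pi th et *ᵥ vv j =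
    c 0 • uu (j + 1) + c 1 • uu (j + 2) + if j = 0 then pp om else 0 := by
  rw [B3, BL_vv _ _ _ _ _ _ _ h.le (by omega)]
  simp [Finset.sum_range_succ, ex]

theorem B3_u (h : 3 < l) (j : ℕ) : B3 l c b q om pi th et *ᵥ uu j =
    b 0 • vv (l - 3 + j + 1) + b 1 • vv (l - 3 + j + 2) + (q 0 • uu (j + 1) + q 1 • uu (j + 2)) +
      if j = 0 then pp pi else 0 := by
  rw [B3, BL_uu _ _ _ _ _ _ _ h.le (by omega)]
  simp [Finset.sum_range_succ, ex]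

theorem B3_v0 (h : 3 < l) : B3 l c b q om pi th et *ᵥ vv 0 =
    c 0 • uu 1 + c 1 • uu 2 + pp om := by
  rw [B3_v _ _ _ _ _ _ _ h, if_pos rfl]

theorem B3_v1 (h : 3 < l) : B3 l c b q om pi th et *ᵥ vv 1 = c 0 • uu 2 := by
  rw [B3_v _ _ _ _ _ _ _ h, if_neg one_ne_zero, add_zero, uu_ge (j := 1 + 2) (by omega),
    smul_zero, add_zero]

theorem B3_v2 (h : 3 < l) {j : ℕ} (hj : 2 ≤ j) : B3 l c b q om pi th et *ᵥ vv j = 0 := by
  rw [B3_v _ _ _ _ _ _ _ h, if_neg (by omega), add_zero, uu_ge (by omega), uu_ge (by omega),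
    smul_zero, smul_zero, add_zero]

theorem B3_u0 (h : 3 < l) : B3 l c b q om pi th et *ᵥ uu 0 =
    b 0 • vv (l - 2) + b 1 • vv (l - 1) + (q 0 • uu 1 + q 1 • uu 2) + pp pi := by
  rw [B3_u _ _ _ _ _ _ _ h, if_pos rfl, show l - 3 + 0 + 1 = l - 2 by omega,
    show l - 3 + 0 + 2 = l - 1 by omega]

theorem B3_u1 (h : 3 < l) : B3 l c b q om pi th et *ᵥ uu 1 =
    b 0 • vv (l - 1) + q 0 • uu 2 := by
  rw [B3_u _ _ _ _ _ _ _ h, if_neg one_ne_zero, add_zero, show l - 3 + 1 + 1 = l - 1 by omega,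
    vv_ge (j := l - 3 + 1 + 2) (by omega), uu_ge (j := 1 + 2) (by omega), smul_zero, smul_zero,
    add_zero, add_zero]

theorem B3_u2 (h : 3 < l) {j : ℕ} (hj : 2 ≤ j) : B3 l c b q om pi th et *ᵥ uu j = 0 := by
  rw [B3_u _ _ _ _ _ _ _ h, if_neg (by omega), add_zero, vv_ge (by omega), vv_ge (by omega),
    uu_ge (by omega), uu_ge (by omega)]
  simp

theorem B3_p (h : 3 < l) (f : Fin 2 → k) : B3 l c b q om pi th et *ᵥ pp f =
    (th ⬝ᵥ f) • vv (l - 1) + (et ⬝ᵥ f) • uu 2 :=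
  BL_pp _ _ _ _ _ _ _ (by omega) (by omega) f

theorem B3_B3_v (h : 3 < l) :
    B3 l c b q om pi th et *ᵥ (B3 l c' b' q' om' pi' th' et' *ᵥ vv 0) =
      (c' 0 * b 0 + th ⬝ᵥ om') • vv (l - 1) + (c' 0 * q 0 + et ⬝ᵥ om') • uu 2 := by
  rw [B3_v0 _ _ _ _ _ _ _ h, mulVec_add, mulVec_add, mulVec_smul, mulVec_smul,
    B3_u1 _ _ _ _ _ _ _ h, B3_u2 _ _ _ _ _ _ _ h le_rfl, B3_p _ _ _ _ _ _ _ h]
  module

theorem B3_B3_u (h : 3 < l) :
    B3 l c b q om pi th et *ᵥ (B3 l c' b' q' om' pi' th' et' *ᵥ uu 0) =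
      (q' 0 * b 0 + th ⬝ᵥ pi') • vv (l - 1) + (q' 0 * q 0 + et ⬝ᵥ pi') • uu 2 := by
  rw [B3_u0 _ _ _ _ _ _ _ h, mulVec_add, mulVec_add, mulVec_add, mulVec_add, mulVec_smul,
    mulVec_smul, mulVec_smul, mulVec_smul, B3_u1 _ _ _ _ _ _ _ h, B3_u2 _ _ _ _ _ _ _ h le_rfl,
    B3_p _ _ _ _ _ _ _ h, B3_v2 _ _ _ _ _ _ _ h (by omega), B3_v2 _ _ _ _ _ _ _ h (by omega)]
  module

theorem B3_B3_p (h : 3 < l) (f : Fin 2 → k) :
    B3 l c b q om pi th et *ᵥ (B3 l c' b' q' om' pi' th' et' *ᵥ pp f) = 0 := by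
  rw [B3_p _ _ _ _ _ _ _ h, mulVec_add, mulVec_smul, mulVec_smul, B3_u2 _ _ _ _ _ _ _ h le_rfl,
    B3_v2 _ _ _ _ _ _ _ h (by omega)]
  simp

theorem B3_add : B3 l c b q om pi th et + B3 l c' b' q' om' pi' th' et' =
    B3 l (c + c') (b + b') (q + q') (om + om') (pi + pi') (th + th') (et + et') := by
  rw [B3, B3, B3, BL_add]
  congr 1 <;>
  · funext a
    simp only [ex, Pi.add_apply]
    split_ifs <;> simp

theorem B3_smul (s : k) : s • B3 l c b q om pi th et =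
    B3 l (s • c) (s • b) (s • q) (s • om) (s • pi) (s • th) (s • et) := by
  rw [B3, B3, BL_smul]
  congr 1 <;>
  · funext a
    simp only [ex, Pi.smul_apply]
    split_ifs <;> simp

end rules

/-- comparison of coefficients -/
theorem coef_eq (h : 3 < l) {x y x' y' : k}
    (h1 : x • (vv (l - 1) : IL l 3 2 → k) + y • uu 2 = x' • vv (l - 1) + y' • uu 2) :
    x = x' ∧ y = y' := by
  have e1 := congrFun h1 (.inl ⟨l - 1, by omega⟩)
  have e2 := congrFun h1 (.inr (.inl ⟨2, by omega⟩))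
  simp [vv, uu] at e1 e2
  exact ⟨e1, e2⟩

/-- the four equations -/
theorem eqs_of_comm (h : 3 < l) {c b q om pi th et c' b' q' om' pi' th' et' : Fin 2 → k}
    (hc : B3 l c b q om pi th et * B3 l c' b' q' om' pi' th' et' =
      B3 l c' b' q' om' pi' th' et' * B3 l c b q om pi th et) :
    (c' 0 * b 0 + th ⬝ᵥ om' = c 0 * b' 0 + th' ⬝ᵥ om ∧
      c' 0 * q 0 + et ⬝ᵥ om' = c 0 * q' 0 + et' ⬝ᵥ om) ∧
    (q' 0 * b 0 + th ⬝ᵥ pi' = q 0 * b' 0 + th' ⬝ᵥ pi ∧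
      q' 0 * q 0 + et ⬝ᵥ pi' = q 0 * q' 0 + et' ⬝ᵥ pi) := by
  constructor
  · apply coef_eq h
    rw [← B3_B3_v _ _ _ _ _ _ _ c' b' q' om' pi' th' et' h,
      ← B3_B3_v c' b' q' om' pi' th' et' c b q om pi th et h, mulVec_mulVec, mulVec_mulVec, hc]
  · apply coef_eq h
    rw [← B3_B3_u _ _ _ _ _ _ _ c' b' q' om' pi' th' et' h,
      ← B3_B3_u c' b' q' om' pi' th' et' c b q om pi th et h, mulVec_mulVec, mulVec_mulVec, hc]

theorem comm_of_eqs (h : 3 < l) {c b q om pi th et c' b' q' om' pi' th' et' : Fin 2 → k}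
    (h1 : c' 0 * b 0 + th ⬝ᵥ om' = c 0 * b' 0 + th' ⬝ᵥ om)
    (h2 : c' 0 * q 0 + et ⬝ᵥ om' = c 0 * q' 0 + et' ⬝ᵥ om)
    (h3 : q' 0 * b 0 + th ⬝ᵥ pi' = q 0 * b' 0 + th' ⬝ᵥ pi)
    (h4 : et ⬝ᵥ pi' = et' ⬝ᵥ pi) :
    B3 l c b q om pi th et * B3 l c' b' q' om' pi' th' et' =
      B3 l c' b' q' om' pi' th' et' * B3 l c b q om pi th et := by
  have hX := B3_comm c b q om pi th et h
  have hX' := B3_comm c' b' q' om' pi' th' et' h
  have hJ1 : JL k l 3 2 * (B3 l c b q om pi th et * B3 l c' b' q' om' pi' th' et') =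
      (B3 l c b q om pi th et * B3 l c' b' q' om' pi' th' et') * JL k l 3 2 := by
    rw [← mul_assoc, hX, mul_assoc, hX', mul_assoc]
  have hJ2 : JL k l 3 2 * (B3 l c' b' q' om' pi' th' et' * B3 l c b q om pi th et) =
      (B3 l c' b' q' om' pi' th' et' * B3 l c b q om pi th et) * JL k l 3 2 := by
    rw [← mul_assoc, hX', mul_assoc, hX, mul_assoc]
  refine ext_vup (fun j _ => ?_) (fun j _ => ?_) fun f => ?_
  · rw [comm_vv hJ1, comm_vv hJ2, ← mulVec_mulVec, ← mulVec_mulVec, B3_B3_v _ _ _ _ _ _ _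
      c' b' q' om' pi' th' et' h, B3_B3_v c' b' q' om' pi' th' et' c b q om pi th et h, h1, h2]
  · rw [comm_uu hJ1, comm_uu hJ2, ← mulVec_mulVec, ← mulVec_mulVec, B3_B3_u _ _ _ _ _ _ _
      c' b' q' om' pi' th' et' h, B3_B3_u c' b' q' om' pi' th' et' c b q om pi th et h, h3, h4,
      mul_comm (q' 0) (q 0)]
  · rw [← mulVec_mulVec, ← mulVec_mulVec, B3_B3_p _ _ _ _ _ _ _ _ _ _ _ _ _ _ h,
      B3_B3_p _ _ _ _ _ _ _ _ _ _ _ _ _ _ h]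

/-- vectors and functionals on `P + P` -/
abbrev E4 (k : Type*) : Type _ := Fin 2 ⊕ Fin 2 → k

/-- the triple: `Om = (om, om')`, `Pi = (pi, pi')`, `Th = (-th', th)`, `Et = (-et', et)` -/
def T3 (l : ℕ) (c b q c' b' q' : Fin 2 → k) (Om Pi Th Et : E4 k) :
    Fin 3 → Matrix (IL l 3 2) (IL l 3 2) k :=
  ![JL k l 3 2, B3 l c b q (Om ∘ Sum.inl) (Pi ∘ Sum.inl) (Th ∘ Sum.inr) (Et ∘ Sum.inr),
    B3 l c' b' q' (Om ∘ Sum.inr) (Pi ∘ Sum.inr) (-(Th ∘ Sum.inl)) (-(Et ∘ Sum.inl))]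

theorem dot_E4 (x y : E4 k) :
    x ⬝ᵥ y = (x ∘ Sum.inl) ⬝ᵥ (y ∘ Sum.inl) + (x ∘ Sum.inr) ⬝ᵥ (y ∘ Sum.inr) := by
  simp [dotProduct, Fintype.sum_sum_type]

/-- the equations -/
structure Eqs (c b q c' b' q' : Fin 2 → k) (Om Pi Th Et : E4 k) : Prop where
  e1 : Th ⬝ᵥ Om = c 0 * b' 0 - c' 0 * b 0
  e2 : Et ⬝ᵥ Om = c 0 * q' 0 - c' 0 * q 0
  e3 : Th ⬝ᵥ Pi = q 0 * b' 0 - q' 0 * b 0
  e4 : Et ⬝ᵥ Pi = 0

theorem T3_cn (h : 3 < l) {c b q c' b' q' : Fin 2 → k} {Om Pi Th Et : E4 k}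
    (he : Eqs c b q c' b' q' Om Pi Th Et) : CN (T3 l c b q c' b' q' Om Pi Th Et) := by
  obtain ⟨e1, e2, e3, e4⟩ := he
  rw [dot_E4] at e1 e2 e3 e4
  refine D8.cn3 (B3_comm _ _ _ _ _ _ _ h) (B3_comm _ _ _ _ _ _ _ h)
    (comm_of_eqs h ?_ ?_ ?_ ?_) ⟨l, JL_pow h.le (by omega)⟩ (B3_nil _ _ _ _ _ _ _ h)
    (B3_nil _ _ _ _ _ _ _ h)
  · rw [neg_dotProduct]
    linear_combination e1
  · rw [neg_dotProduct]
    linear_combination e2
  · rw [neg_dotProduct]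
    linear_combination e3
  · rw [neg_dotProduct]
    linear_combination e4

theorem T3_eqs (h : 3 < l) {c b q c' b' q' : Fin 2 → k} {Om Pi Th Et : E4 k}
    (hT : CN (T3 l c b q c' b' q' Om Pi Th Et)) : Eqs c b q c' b' q' Om Pi Th Et := by
  obtain ⟨⟨e1, e2⟩, e3, e4⟩ := eqs_of_comm h (hT.1 1 2)
  rw [neg_dotProduct] at e1 e2 e3 e4
  constructor
  · rw [dot_E4]
    linear_combination e1
  · rw [dot_E4]
    linear_combination e2
  · rw [dot_E4]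
    linear_combination e3
  · rw [dot_E4]
    linear_combination e4

/-- every pair of matrices `B3` is of this form -/
theorem T3_mk {c b q om pi th et c' b' q' om' pi' th' et' : Fin 2 → k} :
    ![JL k l 3 2, B3 l c b q om pi th et, B3 l c' b' q' om' pi' th' et'] =
      T3 l c b q c' b' q' (Sum.elim om om') (Sum.elim pi pi') (Sum.elim (-th') th)
        (Sum.elim (-et') et) := by
  have e : ∀ x : Fin 2 → k, -(-x) = x := fun x => neg_neg x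
  simp [T3, Sum.elim_comp_inl, Sum.elim_comp_inr]

/-- moving the parameters -/
theorem T3_move [Infinite k] (h : 3 < l) {c b q c' b' q' : Fin 2 → k} {Om Pi Th Et : E4 k}
    (hT : MaxR ρ (T3 l c b q c' b' q' Om Pi Th Et)) (dOm dPi dTh dEt : E4 k)
    (he : ∀ s : k, Eqs c b q c' b' q' (Om + s • dOm) (Pi + s • dPi) (Th + s • dTh) (Et + s • dEt))
    {F : Set k} (hF : F.Finite) :
    ∃ s, s ∉ F ∧ MaxR ρ (T3 l c b q c' b' q' (Om + s • dOm) (Pi + s • dPi) (Th + s • dTh)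
      (Et + s • dEt)) := by
  have e1 : ∀ s : k, B3 l c b q (Om ∘ Sum.inl) (Pi ∘ Sum.inl) (Th ∘ Sum.inr) (Et ∘ Sum.inr) +
      s • B3 l 0 0 0 (dOm ∘ Sum.inl) (dPi ∘ Sum.inl) (dTh ∘ Sum.inr) (dEt ∘ Sum.inr) =
      B3 l c b q ((Om + s • dOm) ∘ Sum.inl) ((Pi + s • dPi) ∘ Sum.inl) ((Th + s • dTh) ∘ Sum.inr)
        ((Et + s • dEt) ∘ Sum.inr) := by
    intro s
    rw [B3_smul, B3_add]
    simp only [smul_zero, add_zero]
    rfl
  have e2 : ∀ s : k, B3 l c' b' q' (Om ∘ Sum.inr) (Pi ∘ Sum.inr) (-(Th ∘ Sum.inl))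
      (-(Et ∘ Sum.inl)) +
      s • B3 l 0 0 0 (dOm ∘ Sum.inr) (dPi ∘ Sum.inr) (-(dTh ∘ Sum.inl)) (-(dEt ∘ Sum.inl)) =
      B3 l c' b' q' ((Om + s • dOm) ∘ Sum.inr) ((Pi + s • dPi) ∘ Sum.inr)
        (-((Th + s • dTh) ∘ Sum.inl)) (-((Et + s • dEt) ∘ Sum.inl)) := by
    intro s
    rw [B3_smul, B3_add]
    simp only [smul_zero, add_zero, smul_neg, ← neg_add]
    rfl
  obtain ⟨s, hs, h4⟩ := D8.MaxR.line2 hT
    (B3 l 0 0 0 (dOm ∘ Sum.inl) (dPi ∘ Sum.inl) (dTh ∘ Sum.inr) (dEt ∘ Sum.inr))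
    (B3 l 0 0 0 (dOm ∘ Sum.inr) (dPi ∘ Sum.inr) (-(dTh ∘ Sum.inl)) (-(dEt ∘ Sum.inl)))
    (fun s => by
      rw [e1, e2]
      exact T3_cn h (he s)) hF
  rw [e1, e2] at h4
  exact ⟨s, hs, h4⟩

end Pool.Agent.Lib.D13.LM
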