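import Pool.Agent.Lib.D13.P3a

/-!
# MP_5dcbc3_ag: the type `(l, 3, 1, 1)`, case II: generic position
-/

namespace Pool.Agent.Lib.D13.LM

open Matrix Pool.Agent.Lib.Q5dc Pool.Agent.Lib.D7

variable {k : Type*} [Field k] {l : ℕ} {ρ : ℕ → ℕ}

namespace P3Aux

/-- a linear form on `ι → k` is a dot product -/
theorem form_dot {ι : Type*} [Fintype ι] [DecidableEq ι] (f : (ι → k) →ₗ[k] k) :
    ∃ x : ι → k, ∀ v, f v = x ⬝ᵥ v := by
  refine ⟨fun i => f (Pi.single i 1), fun v => ?_⟩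
  rw [LinearMap.pi_apply_eq_sum_univ f v]
  simp only [dotProduct, smul_eq_mul]
  refine Finset.sum_congr rfl fun i _ => ?_
  rw [mul_comm]
  congr 2
  funext j
  simp [Pi.single_apply, eq_comm]

/-- independent vectors have dual vectors -/
theorem exists_dot {ι κ : Type*} [Fintype ι] [DecidableEq ι] {v : κ → ι → k}
    (hv : LinearIndependent k v) (c : κ → k) : ∃ x : ι → k, ∀ i, x ⬝ᵥ v i = c i := by
  obtain ⟨f, hf⟩ := LinearMap.exists_extend ((Module.Basis.span hv).constr k c)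
  obtain ⟨x, hx⟩ := form_dot f
  refine ⟨x, fun i => ?_⟩
  rw [← hx]
  have h1 : (Module.Basis.span hv i : ι → k) = v i := by
    rw [Module.Basis.span_apply]
  have h2 := congrArg (fun g => g (Module.Basis.span hv i)) hf
  simp only [LinearMap.comp_apply, Submodule.subtype_apply, h1, Module.Basis.constr_basis] at h2
  exact h2

/-- a criterion for independence -/
theorem indep_of_det {ι : Type*} [Fintype ι] {a b : ι → k} (x y : ι → k)
    (h : (x ⬝ᵥ a) * (y ⬝ᵥ b) - (x ⬝ᵥ b) * (y ⬝ᵥ a) ≠ 0) : LinearIndependent k ![a, b] := by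
  rw [LinearIndependent.pair_iff]
  intro s t hst
  have h1 : s * (x ⬝ᵥ a) + t * (x ⬝ᵥ b) = 0 := by
    have := congrArg (fun v => x ⬝ᵥ v) hst
    simpa [dotProduct_add, dotProduct_smul] using this
  have h2 : s * (y ⬝ᵥ a) + t * (y ⬝ᵥ b) = 0 := by
    have := congrArg (fun v => y ⬝ᵥ v) hst
    simpa [dotProduct_add, dotProduct_smul] using this
  constructor
  · refine (mul_eq_zero.1 (?_ : s * _ = 0)).resolve_right h
    linear_combination (y ⬝ᵥ b) * h1 - (x ⬝ᵥ b) * h2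
  · refine (mul_eq_zero.1 (?_ : t * _ = 0)).resolve_right h
    linear_combination (x ⬝ᵥ a) * h2 - (y ⬝ᵥ a) * h1

theorem finite_quad {a2 a1 a0 : k} (h : a2 ≠ 0) :
    {t : k | a2 * t ^ 2 + a1 * t + a0 = 0}.Finite := by
  refine (LMEAux.finite_cubic (a3 := a2) (a2 := a1) (a1 := a0) (a0 := 0) h).subset fun t ht => ?_
  have h1 : a2 * t ^ 2 + a1 * t + a0 = 0 := ht
  show a2 * t ^ 3 + a1 * t ^ 2 + a0 * t + 0 = 0
  linear_combination t * h1

theorem finite_lin {a1 a0 : k} (h : a0 ≠ 0) : {t : k | a1 * t + a0 = 0}.Finite := by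
  by_cases h1 : a1 = 0
  · refine Set.finite_empty.subset fun t ht => ?_
    have h2 : a1 * t + a0 = 0 := ht
    rw [h1, zero_mul, zero_add] at h2
    exact h h2
  · refine (Set.finite_singleton (-a0 / a1)).subset fun t ht => ?_
    have h2 : a1 * t + a0 = 0 := ht
    rw [Set.mem_singleton_iff, eq_div_iff h1]
    linear_combination h2

end P3Aux

open P3Aux

/-- move 1: `Om`, `Pi` independent -/
theorem T3_move1 [Infinite k] (h : 3 < l) {c b q c' b' q' : Fin 2 → k} {Om Pi Th Et : E4 k}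
    (hT : MaxR ρ (T3 l c b q c' b' q' Om Pi Th Et)) :
    ∃ Om Pi : E4 k, MaxR ρ (T3 l c b q c' b' q' Om Pi Th Et) ∧ LinearIndependent k ![Om, Pi] := by
  have he := T3_eqs h hT.cn
  let φ : E4 k →ₗ[k] k × k :=
    { toFun := fun v => (Th ⬝ᵥ v, Et ⬝ᵥ v)
      map_add' := fun v w => by simp [dotProduct_add]
      map_smul' := fun s v => by simp [dotProduct_smul] }
  have hφ : 1 < Module.finrank k (LinearMap.ker φ) := by
    have h1 := φ.finrank_range_add_finrank_ker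
    have h2 := Submodule.finrank_le (LinearMap.range φ)
    rw [Module.finrank_prod, Module.finrank_self] at h2
    rw [Module.finrank_pi, Fintype.card_sum, Fintype.card_fin] at h1
    omega
  have hne : Nontrivial (LinearMap.ker φ) := Module.nontrivial_of_finrank_pos (by omega : 0 < Module.finrank k (LinearMap.ker φ))
  obtain ⟨x, hx⟩ := exists_ne (0 : LinearMap.ker φ)
  obtain ⟨y, hxy⟩ := exists_linearIndependent_pair_of_one_lt_finrank hφ hx
  have hxy' : LinearIndependent k ![(x : E4 k), (y : E4 k)] := by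
    rw [LinearIndependent.pair_iff] at hxy ⊢
    intro s t hst
    exact hxy s t (Subtype.ext hst)
  have hx1 : Th ⬝ᵥ (x : E4 k) = 0 := congrArg Prod.fst x.2
  have hx2 : Et ⬝ᵥ (x : E4 k) = 0 := congrArg Prod.snd x.2
  have hy1 : Th ⬝ᵥ (y : E4 k) = 0 := congrArg Prod.fst y.2
  have hy2 : Et ⬝ᵥ (y : E4 k) = 0 := congrArg Prod.snd y.2
  obtain ⟨u, hu⟩ := exists_dot hxy' ![1, 0]
  obtain ⟨w, hw⟩ := exists_dot hxy' ![0, 1]
  have hu0 : u ⬝ᵥ (x : E4 k) = 1 := hu 0
  have hu1 : u ⬝ᵥ (y : E4 k) = 0 := hu 1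
  have hw0 : w ⬝ᵥ (x : E4 k) = 0 := hw 0
  have hw1 : w ⬝ᵥ (y : E4 k) = 1 := hw 1
  obtain ⟨s, hs, h1⟩ := T3_move h hT x y 0 0 (fun s => by
      constructor
      · rw [smul_zero, add_zero, dotProduct_add, dotProduct_smul, hx1, smul_zero, add_zero, he.e1]
      · rw [smul_zero, add_zero, dotProduct_add, dotProduct_smul, hx2, smul_zero, add_zero, he.e2]
      · rw [smul_zero, add_zero, dotProduct_add, dotProduct_smul, hy1, smul_zero, add_zero, he.e3]
      · rw [smul_zero, add_zero, dotProduct_add, dotProduct_smul, hy2, smul_zero, add_zero, he.e4])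
    (finite_quad (a2 := 1) (a1 := u ⬝ᵥ Om + w ⬝ᵥ Pi)
      (a0 := (u ⬝ᵥ Om) * (w ⬝ᵥ Pi) - (u ⬝ᵥ Pi) * (w ⬝ᵥ Om)) one_ne_zero)
  simp only [smul_zero, add_zero] at h1
  refine ⟨_, _, h1, indep_of_det u w fun h2 => hs ?_⟩
  simp only [dotProduct_add, dotProduct_smul, hu0, hu1, hw0, hw1, smul_eq_mul] at h2
  show 1 * s ^ 2 + (u ⬝ᵥ Om + w ⬝ᵥ Pi) * s + ((u ⬝ᵥ Om) * (w ⬝ᵥ Pi) - (u ⬝ᵥ Pi) * (w ⬝ᵥ Om)) = 0
  linear_combination h2

/-- the determinant of `pi`, `pi'` -/
def det4 (v : E4 k) : k := v (.inl 0) * v (.inr 1) - v (.inl 1) * v (.inr 0)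

theorem exists_D (P : Submodule k (E4 k)) (hP : Module.finrank k P ≤ 2) :
    ∃ D : E4 k, det4 D ≠ 0 ∧ D ∉ P := by
  by_contra hcon
  push Not at hcon
  have h1 := hcon (Sum.elim ![1, 0] ![0, 1]) (by simp [det4])
  have h2 := hcon (Sum.elim ![0, 1] ![1, 0]) (by simp [det4])
  have h3 := hcon (Sum.elim ![1, 1] ![0, 1]) (by simp [det4])
  have hli : LinearIndependent k ![(⟨_, h1⟩ : P), ⟨_, h2⟩, ⟨_, h3⟩] := by
    rw [Fintype.linearIndependent_iff]
    intro g hg
    have h4 := congrArg (fun v : P => (v : E4 k)) hg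
    simp only [Fin.sum_univ_three] at h4
    have e1 := congrFun h4 (.inl 0)
    have e2 := congrFun h4 (.inl 1)
    have e3 := congrFun h4 (.inr 0)
    simp at e1 e2 e3
    intro i
    fin_cases i
    · simp
      linear_combination e1 - e2 + e3
    · simp
      exact e3
    · simp
      linear_combination e2 - e3
  have h4 := hli.fintype_card_le_finrank
  rw [Fintype.card_fin] at h4
  omega

/-- move 2: in addition `pi`, `pi'` independent -/
theorem T3_move2 [Infinite k] (h : 3 < l) {c b q c' b' q' : Fin 2 → k} {Om Pi Th Et : E4 k}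
    (hT : MaxR ρ (T3 l c b q c' b' q' Om Pi Th Et)) (hi : LinearIndependent k ![Om, Pi]) :
    ∃ Pi Th Et : E4 k, MaxR ρ (T3 l c b q c' b' q' Om Pi Th Et) ∧ LinearIndependent k ![Om, Pi] ∧
      det4 Pi ≠ 0 := by
  have he := T3_eqs h hT.cn
  obtain ⟨D, hD, hDP⟩ := exists_D (Submodule.span k (Set.range ![Om, Pi])) (by
    refine (finrank_range_le_card _).trans ?_
    simp)
  have h3 : LinearIndependent k ![D, Om, Pi] := linearIndependent_finCons.2 ⟨hi, hDP⟩
  obtain ⟨e, hee⟩ := exists_dot h3 ![0, 0, 1]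
  have he0 : e ⬝ᵥ D = 0 := hee 0
  have he1 : e ⬝ᵥ Om = 0 := hee 1
  have he2 : e ⬝ᵥ Pi = 1 := hee 2
  obtain ⟨u, hu⟩ := exists_dot hi ![1, 0]
  obtain ⟨w, hw⟩ := exists_dot hi ![0, 1]
  have hu0 : u ⬝ᵥ Om = 1 := hu 0
  have hu1 : u ⬝ᵥ Pi = 0 := hu 1
  have hw0 : w ⬝ᵥ Om = 0 := hw 0
  have hw1 : w ⬝ᵥ Pi = 1 := hw 1
  obtain ⟨s, hs, h1⟩ := T3_move h hT 0 D (-(Th ⬝ᵥ D) • e) (-(Et ⬝ᵥ D) • e) (fun s => by
      constructor
      · simp only [smul_zero, add_zero, add_dotProduct, smul_dotProduct, he1, he.e1]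
      · simp only [smul_zero, add_zero, add_dotProduct, smul_dotProduct, he1, he.e2]
      · simp only [dotProduct_add, dotProduct_smul, add_dotProduct, smul_dotProduct, he2, he0,
          smul_eq_mul, he.e3]
        ring
      · simp only [dotProduct_add, dotProduct_smul, add_dotProduct, smul_dotProduct, he2, he0,
          smul_eq_mul, he.e4]
        ring)
    ((finite_quad (a2 := det4 D) (a1 := Pi (.inl 0) * D (.inr 1) + D (.inl 0) * Pi (.inr 1) -
      Pi (.inl 1) * D (.inr 0) - D (.inl 1) * Pi (.inr 0)) (a0 := det4 Pi) hD).union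
      (finite_lin (a1 := w ⬝ᵥ D) (a0 := 1) one_ne_zero))
  rw [smul_zero, add_zero] at h1
  rw [Set.mem_union, not_or] at hs
  refine ⟨_, _, _, h1, indep_of_det u w fun h2 => hs.2 ?_, fun h2 => hs.1 ?_⟩
  · simp only [dotProduct_add, dotProduct_smul, hu0, hu1, hw0, hw1, smul_eq_mul] at h2
    show (w ⬝ᵥ D) * s + 1 = 0
    linear_combination h2
  · simp only [det4, _root_.Pi.add_apply, _root_.Pi.smul_apply, smul_eq_mul] at h2
    show det4 D * s ^ 2 + (Pi (.inl 0) * D (.inr 1) + D (.inl 0) * Pi (.inr 1) -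
      Pi (.inl 1) * D (.inr 0) - D (.inl 1) * Pi (.inr 0)) * s + det4 Pi = 0
    simp only [det4]
    linear_combination h2

/-- a maximal bad triple in generic position -/
theorem T3_generic [Infinite k] (h : 3 < l) {c b q c' b' q' : Fin 2 → k} {Om Pi Th Et : E4 k}
    (hT : MaxR ρ (T3 l c b q c' b' q' Om Pi Th Et)) :
    ∃ Om Pi Th Et : E4 k, MaxR ρ (T3 l c b q c' b' q' Om Pi Th Et) ∧
      LinearIndependent k ![Om, Pi] ∧ det4 Pi ≠ 0 := by
  obtain ⟨Om, Pi, hT1, hi⟩ := T3_move1 h hT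
  obtain ⟨Pi, Th, Et, hT2, hi2, hd⟩ := T3_move2 h hT1 hi
  exact ⟨Om, Pi, Th, Et, hT2, hi2, hd⟩

end Pool.Agent.Lib.D13.LM
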