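import Pool.Agent.Lib.D13.P3b
import Pool.Agent.Lib.D13.PCl

/-!
# MP_5dcbc3_ag: the type `(l, 3, 1, 1)`, case II: the triple splits off a point
-/

namespace Pool.Agent.Lib.D13.LM

open Matrix Pool.Agent.Lib.Q5dc Pool.Agent.Lib.D7

variable {k : Type*} [Field k] {l : ℕ} {ρ : ℕ → ℕ}

open P3Aux

theorem sp_left (h : 3 < l) {c b q om pi th et x : Fin 2 → k} (hx : x ⬝ᵥ pi = -b 0) :
    (fn (fun j => if j = l - 2 then 1 else 0) 0 x : IL l 3 2 → k) ᵥ*
      (B3 l c b q om pi th et + (-(x ⬝ᵥ om)) • JL k l 3 2 ^ (l - 2)) = 0 := by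
  have hl : l - 2 = l - 3 + 1 := by omega
  refine ext_fn (fun j _ => ?_) (fun j _ => ?_) fun f => ?_
  · rw [← dotProduct_mulVec, zero_dotProduct, add_mulVec, smul_mulVec, JL_pow_vv]
    rcases (by omega : j = 0 ∨ j = 1 ∨ 2 ≤ j) with rfl | rfl | hj
    · rw [B3_v0 _ _ _ _ _ _ _ h]
      simp only [dotProduct_add, dotProduct_smul, fn_vv, fn_uu, fn_pp, zero_add, if_true]
      rw [if_pos (c := l - 2 < l) (by omega)]
      simp
    · rw [B3_v1 _ _ _ _ _ _ _ h]
      simp only [dotProduct_add, dotProduct_smul, fn_vv, fn_uu, fn_pp]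
      rw [if_neg (c := 1 + (l - 2) = l - 2) (by omega)]
      simp
    · rw [B3_v2 _ _ _ _ _ _ _ h hj]
      simp only [dotProduct_add, dotProduct_smul, fn_vv, fn_uu, fn_pp, dotProduct_zero]
      rw [if_neg (c := j + (l - 2) = l - 2) (by omega)]
      simp
  · rw [← dotProduct_mulVec, zero_dotProduct, add_mulVec, smul_mulVec, JL_pow_uu]
    rcases (by omega : j = 0 ∨ j = 1 ∨ 2 ≤ j) with rfl | rfl | hj
    · rw [B3_u0 _ _ _ _ _ _ _ h]
      simp only [dotProduct_add, dotProduct_smul, fn_vv, fn_uu, fn_pp, if_true]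
      rw [if_neg (c := l - 1 = l - 2) (by omega), if_pos (c := l - 2 < l) (by omega), hx]
      simp
    · rw [B3_u1 _ _ _ _ _ _ _ h]
      simp only [dotProduct_add, dotProduct_smul, fn_vv, fn_uu, fn_pp]
      rw [if_neg (c := l - 1 = l - 2) (by omega)]
      simp
    · rw [B3_u2 _ _ _ _ _ _ _ h hj]
      simp only [dotProduct_add, dotProduct_smul, fn_vv, fn_uu, fn_pp, dotProduct_zero]
      simp
  · rw [← dotProduct_mulVec, zero_dotProduct, add_mulVec, smul_mulVec, B3_p _ _ _ _ _ _ _ h, hl,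
      JL_pow_pp]
    simp only [dotProduct_add, dotProduct_smul, fn_vv, fn_uu, fn_pp, dotProduct_zero]
    rw [if_neg (c := l - 1 = l - 3 + 1) (by omega)]
    simp

theorem sp_right (h : 3 < l) (c b q om pi th et : Fin 2 → k) (g : k) :
    (B3 l c b q om pi th et + g • JL k l 3 2 ^ (l - 2)) *ᵥ vv (l - 2) = 0 := by
  rw [add_mulVec, smul_mulVec, B3_v2 _ _ _ _ _ _ _ h (by omega), JL_pow_vv, vv_ge (by omega),
    smul_zero, add_zero]

/-- splitting off a point -/
theorem sp_pcl [IsAlgClosed k] (h : 3 < l) (hall : HALL k (Fintype.card (IL l 3 2)))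
    {c b q om pi th et c' b' q' om' pi' th' et' : Fin 2 → k}
    (hc : B3 l c b q om pi th et * B3 l c' b' q' om' pi' th' et' =
      B3 l c' b' q' om' pi' th' et' * B3 l c b q om pi th et)
    (hd : pi 0 * pi' 1 - pi 1 * pi' 0 ≠ 0) :
    ∃ g g' : k, PCl ![JL k l 3 2, B3 l c b q om pi th et + g • JL k l 3 2 ^ (l - 2),
      B3 l c' b' q' om' pi' th' et' + g' • JL k l 3 2 ^ (l - 2)] := by
  have : Infinite k := IsAlgClosed.instInfinite
  have hli : LinearIndependent k ![pi, pi'] := by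
    refine indep_of_det ![1, 0] ![0, 1] ?_
    simp [dotProduct, Fin.sum_univ_two]
    intro h1
    apply hd
    linear_combination h1
  obtain ⟨x, hx⟩ := exists_dot hli ![-b 0, -b' 0]
  have hx0 : x ⬝ᵥ pi = -b 0 := hx 0
  have hx1 : x ⬝ᵥ pi' = -b' 0 := hx 1
  refine ⟨-(x ⬝ᵥ om), -(x ⬝ᵥ om'), ?_⟩
  obtain ⟨us, hus⟩ : ∃ us : IL l 3 2 → k, us = fn (fun j => if j = l - 2 then 1 else 0) 0 x :=
    ⟨_, rfl⟩
  obtain ⟨K, hK⟩ : ∃ K : Matrix (IL l 3 2) (IL l 3 2) k, K = vecMulVec (vv (l - 2)) us := ⟨_, rfl⟩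
  obtain ⟨Y, hY⟩ : ∃ Y, Y = B3 l c b q om pi th et + (-(x ⬝ᵥ om)) • JL k l 3 2 ^ (l - 2) :=
    ⟨_, rfl⟩
  obtain ⟨Z, hZ⟩ : ∃ Z, Z = B3 l c' b' q' om' pi' th' et' +
    (-(x ⬝ᵥ om')) • JL k l 3 2 ^ (l - 2) := ⟨_, rfl⟩
  have hJB := B3_comm c b q om pi th et h
  have hJB' := B3_comm c' b' q' om' pi' th' et' h
  have hcJ : Commute (JL k l 3 2) (JL k l 3 2 ^ (l - 2)) := (Commute.refl _).pow_right _
  have hJY : JL k l 3 2 * Y = Y * JL k l 3 2 := by
    rw [hY, mul_add, add_mul, hJB, mul_smul_comm, smul_mul_assoc, hcJ.eq]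
  have hJZ : JL k l 3 2 * Z = Z * JL k l 3 2 := by
    rw [hZ, mul_add, add_mul, hJB', mul_smul_comm, smul_mul_assoc, hcJ.eq]
  have hYZ : Y * Z = Z * Y := by
    have h1 : JL k l 3 2 ^ (l - 2) * B3 l c' b' q' om' pi' th' et' =
        B3 l c' b' q' om' pi' th' et' * JL k l 3 2 ^ (l - 2) :=
      ((show Commute (JL k l 3 2) (B3 l c' b' q' om' pi' th' et') from hJB').pow_left _).eq
    have h2 : JL k l 3 2 ^ (l - 2) * B3 l c b q om pi th et =
        B3 l c b q om pi th et * JL k l 3 2 ^ (l - 2) :=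
      ((show Commute (JL k l 3 2) (B3 l c b q om pi th et) from hJB).pow_left _).eq
    rw [hY, hZ]
    simp only [add_mul, mul_add, mul_smul_comm, smul_mul_assoc, hc, h1, h2]
    module
  have hKY : K * Y = 0 := by
    rw [hK, vecMulVec_mul, hus, hY, sp_left h hx0]
    ext i j
    simp [vecMulVec_apply]
  have hKZ : K * Z = 0 := by
    rw [hK, vecMulVec_mul, hus, hZ, sp_left h hx1]
    ext i j
    simp [vecMulVec_apply]
  have hYK : Y * K = 0 := by
    rw [hK, mul_vecMulVec, hY, sp_right h]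
    ext i j
    simp [vecMulVec_apply]
  have hZK : Z * K = 0 := by
    rw [hK, mul_vecMulVec, hZ, sp_right h]
    ext i j
    simp [vecMulVec_apply]
  rw [← hY, ← hZ]
  have hu2 : K *ᵥ uu 2 = 0 := by
    rw [hK, vecMulVec_mulVec, hus, fn_uu]
    simp
  have htr : K.trace = 1 := by
    rw [hK, trace_vecMulVec, dotProduct_comm, hus, fn_vv, if_pos (by omega), if_pos rfl]
  have hfam : ∀ s : k, ![JL k l 3 2, Y, Z] + s • ![K, 0, 0] =
      ![JL k l 3 2 + s • K, Y, Z] := by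
    intro s
    rw [D8.line3_eq]
    simp
  refine PCl.of_line (D := ![K, 0, 0]) ((Set.finite_singleton (0 : k)).infinite_compl.mono ?_)
  intro s hs
  rw [Set.mem_compl_iff, Set.mem_singleton_iff] at hs
  show PCl (![JL k l 3 2, Y, Z] + s • ![K, 0, 0])
  rw [hfam]
  refine pcl_of_split hall ?_ ⟨0, fun t ht => ?_⟩
  · have e1 : (JL k l 3 2 + s • K) * Y = Y * (JL k l 3 2 + s • K) := by
      rw [add_mul, mul_add, hJY, smul_mul_assoc, mul_smul_comm, hKY, hYK]
    have e2 : (JL k l 3 2 + s • K) * Z = Z * (JL k l 3 2 + s • K) := by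
      rw [add_mul, mul_add, hJZ, smul_mul_assoc, mul_smul_comm, hKZ, hZK]
    intro i j
    fin_cases i <;> fin_cases j
    · rfl
    · exact e1
    · exact e2
    · exact e1.symm
    · rfl
    · exact hYZ
    · exact e2.symm
    · exact hYZ.symm
    · rfl
  · have ht' : IsNilpotent (JL k l 3 2 + s • K - t • 1) := ht
    have h0 : -t = 0 := by
      refine nilp_eig ht' (y := uu 2) ?_ ?_
      · rw [sub_mulVec, add_mulVec, smul_mulVec, smul_mulVec, hu2, JL_uu, uu_ge (by omega),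
          one_mulVec, smul_zero, add_zero, zero_sub, neg_smul]
      · intro h1
        have h2 := congrFun h1 (.inr (.inl ⟨2, by omega⟩))
        simp [uu] at h2
    rw [neg_eq_zero.1 h0, zero_smul, sub_zero] at ht'
    have h1 := Matrix.isNilpotent_trace_of_isNilpotent ht'
    rw [trace_add, trace_smul, htr] at h1
    have h2 : (JL k l 3 2).trace = 0 := by
      have h3 : IsNilpotent (JL k l 3 2) := ⟨l, JL_pow h.le (by omega)⟩
      exact (Matrix.isNilpotent_trace_of_isNilpotent h3).eq_zero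
    rw [h2, zero_add, smul_eq_mul, mul_one] at h1
    exact hs h1.eq_zero

end Pool.Agent.Lib.D13.LM
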