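import Pool.Agent.Lib.D13.P3b

/-!
# MP_5dcbc3_ag: the type `(l, 3, 1, 1)`, case II: tangent space
-/

namespace Pool.Agent.Lib.D13.LM

open Matrix Pool.Agent.Lib.Q5dc Pool.Agent.Lib.D7

variable {k : Type*} [Field k] {l : ℕ} {ρ : ℕ → ℕ}

open P3Aux

/-! ### shape -/

theorem apply_v0 {m p : ℕ} (M : Matrix (IL l m p) (IL l m p) k) (h : 0 < l) (x : IL l m p) :
    M x (.inl ⟨0, h⟩) = (M *ᵥ vv 0) x := by
  rw [mulVec_v0 M h]

theorem apply_u0 {m p : ℕ} (M : Matrix (IL l m p) (IL l m p) k) (h : 0 < m) (x : IL l m p) :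
    M x (.inr (.inl ⟨0, h⟩)) = (M *ᵥ uu 0) x := by
  rw [mulVec_u0 M h]

theorem apply_p {m p : ℕ} (M : Matrix (IL l m p) (IL l m p) k) (a : Fin p) (x : IL l m p) :
    M x (.inr (.inr a)) = (M *ᵥ pp (Pi.single a 1)) x := by
  rw [mulVec_pp M]
  simp [Pi.single_apply]

/-- a matrix commuting with `JL` -/
theorem cen_shape {m p : ℕ} (hlm : m < l) (hm : 0 < m) {X : Matrix (IL l m p) (IL l m p) k}
    (hX : JL k l m p * X = X * JL k l m p)
    (h0 : X (.inl ⟨0, by omega⟩) (.inl ⟨0, by omega⟩) = 0)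
    (hq : X (.inr (.inl ⟨0, hm⟩)) (.inr (.inl ⟨0, hm⟩)) = 0)
    (hκ : ∀ a b, X (.inr (.inr a)) (.inr (.inr b)) = 0) :
    ∃ (a : Fin (l - 1) → k) (c b q : ℕ → k) (om pi th et : Fin p → k),
      X = ∑ i, a i • JL k l m p ^ ((i : ℕ) + 1) + BL l m p c b q om pi th et := by
  obtain ⟨a, ha⟩ : ∃ a : Fin (l - 1) → k, a = fun i : Fin (l - 1) =>
    X (.inl ⟨(i : ℕ) + 1, by omega⟩) (.inl ⟨0, by omega⟩) := ⟨_, rfl⟩
  obtain ⟨S, hS⟩ : ∃ S : Matrix (IL l m p) (IL l m p) k,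
    S = ∑ i, a i • JL k l m p ^ ((i : ℕ) + 1) := ⟨_, rfl⟩
  have hJS : JL k l m p * S = S * JL k l m p := by
    rw [hS, Finset.mul_sum, Finset.sum_mul]
    refine Finset.sum_congr rfl fun i _ => ?_
    rw [mul_smul_comm, smul_mul_assoc, ← pow_succ', ← pow_succ]
  have hSv : S *ᵥ vv 0 = fun x => match x with
      | .inl i => X (.inl i) (.inl ⟨0, by omega⟩)
      | _ => 0 := by
    rw [hS, Matrix.sum_mulVec]
    simp only [Matrix.smul_mulVec, JL_pow_vv, zero_add]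
    funext x
    rw [Finset.sum_apply]
    rcases x with x | x | x
    · simp only [Pi.smul_apply, vv, smul_eq_mul]
      rcases Nat.eq_zero_or_pos (x : ℕ) with h2 | h2
      · rw [Finset.sum_eq_zero (fun i _ => by rw [if_neg (by omega), mul_zero])]
        have h3 : x = ⟨0, by omega⟩ := Fin.ext h2
        rw [h3, h0]
      · have hx := x.2
        rw [Finset.sum_eq_single ⟨(x : ℕ) - 1, by omega⟩]
        · rw [if_pos (by simp only; omega), mul_one, ha]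
          simp only
          congr 3
          omega
        · intro b _ hb
          rw [if_neg, mul_zero]
          intro h3
          apply hb
          exact Fin.ext (by simp only; omega)
        · intro h3
          exact absurd (Finset.mem_univ _) h3
    · simp [vv]
    · simp [vv]
  have hSu : S *ᵥ uu 0 = fun x => match x with
      | .inr (.inl i) => if h : 0 < (i : ℕ) ∧ (i : ℕ) - 1 < l - 1 then a ⟨(i : ℕ) - 1, h.2⟩ else 0
      | _ => 0 := by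
    rw [hS, Matrix.sum_mulVec]
    simp only [Matrix.smul_mulVec, JL_pow_uu, zero_add]
    funext x
    rw [Finset.sum_apply]
    rcases x with x | x | x
    · simp [uu]
    · simp only [Pi.smul_apply, uu, smul_eq_mul]
      split_ifs with h2
      · rw [Finset.sum_eq_single ⟨(x : ℕ) - 1, h2.2⟩]
        · rw [if_pos (by simp only; omega), mul_one]
        · intro b _ hb
          rw [if_neg, mul_zero]
          intro h3
          apply hb
          exact Fin.ext (by simp only; omega)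
        · intro h3
          exact absurd (Finset.mem_univ _) h3
      · refine Finset.sum_eq_zero fun i _ => ?_
        rw [if_neg, mul_zero]
        intro h3
        have := x.2
        omega
    · simp [uu]
  have hSp : ∀ f, S *ᵥ pp f = 0 := by
    intro f
    rw [hS, Matrix.sum_mulVec]
    refine Finset.sum_eq_zero fun i _ => ?_
    rw [smul_mulVec, JL_pow_pp, smul_zero]
  have hXS : JL k l m p * (X - S) = (X - S) * JL k l m p := by
    rw [mul_sub, sub_mul, hX, hJS]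
  obtain ⟨c, b, q, om, pi, th, et, h2⟩ := shape_aux hlm hm hXS (fun i => by
      rw [Matrix.sub_apply, apply_v0 S, hSv, sub_self]) (by
      rw [Matrix.sub_apply, apply_u0 S, hSu, hq]
      simp) (fun i j => by
      rw [Matrix.sub_apply, apply_p S, hSp, hκ]
      simp)
  exact ⟨a, c, b, q, om, pi, th, et, by rw [← h2, ← hS]; abel⟩

theorem sum_apply_u0_v0 {m p : ℕ} (hl : 0 < l) (hm : 0 < m) (a : Fin (l - 1) → k) :
    (∑ i, a i • JL k l m p ^ ((i : ℕ) + 1)) (.inr (.inl ⟨0, hm⟩)) (.inl ⟨0, hl⟩) = 0 := by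
  rw [Matrix.sum_apply]
  refine Finset.sum_eq_zero fun i _ => ?_
  rw [Matrix.smul_apply, apply_v0 (JL k l m p ^ _), JL_pow_vv]
  simp [vv]

theorem sum_apply_v_u0 {m p : ℕ} (hm : 0 < m) (a : Fin (l - 1) → k) (j : Fin l) :
    (∑ i, a i • JL k l m p ^ ((i : ℕ) + 1)) (.inl j) (.inr (.inl ⟨0, hm⟩)) = 0 := by
  rw [Matrix.sum_apply]
  refine Finset.sum_eq_zero fun i _ => ?_
  rw [Matrix.smul_apply, apply_u0 (JL k l m p ^ _), JL_pow_uu]
  simp [uu]

/-! ### parameters -/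

/-- parameters of a matrix -/
abbrev Pm (l : ℕ) (k : Type*) : Type _ := (Fin (l - 1) → k) × (Fin 7 → Fin 2 → k)

/-- the matrix with given parameters -/
def Ph (l : ℕ) (k : Type*) [Field k] : Pm l k →ₗ[k] Matrix (IL l 3 2) (IL l 3 2) k where
  toFun w := ∑ i, w.1 i • JL k l 3 2 ^ ((i : ℕ) + 1) +
    B3 l (w.2 0) (w.2 1) (w.2 2) (w.2 3) (w.2 4) (w.2 5) (w.2 6)
  map_add' v w := by
    simp only [Prod.fst_add, Pi.add_apply, add_smul, Finset.sum_add_distrib, Prod.snd_add,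
      ← B3_add]
    abel
  map_smul' s w := by
    simp only [Prod.smul_fst, Pi.smul_apply, Prod.smul_snd, smul_eq_mul, RingHom.id_apply,
      smul_add, Finset.smul_sum, smul_smul, ← B3_smul]

theorem finrank_Pm (h : 3 < l) : Module.finrank k (Pm l k × Pm l k) = 2 * l + 26 := by
  simp only [Module.finrank_prod, Module.finrank_pi, Module.finrank_pi_fintype,
    Fintype.card_fin, Finset.sum_const, Finset.card_univ, smul_eq_mul]
  omega

/-- the linearised equations -/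
def Lf (l : ℕ) (c b q om pi th et c' b' q' om' pi' th' et' : Fin 2 → k) :
    (Pm l k × Pm l k) →ₗ[k] (Fin 4 → k) where
  toFun w := ![(c' 0 * w.1.2 1 0 + w.1.2 5 ⬝ᵥ om') + (w.2.2 0 0 * b 0 + th ⬝ᵥ w.2.2 3) -
      (c 0 * w.2.2 1 0 + w.2.2 5 ⬝ᵥ om) - (w.1.2 0 0 * b' 0 + th' ⬝ᵥ w.1.2 3),
    (c' 0 * w.1.2 2 0 + w.1.2 6 ⬝ᵥ om') + (w.2.2 0 0 * q 0 + et ⬝ᵥ w.2.2 3) -
      (c 0 * w.2.2 2 0 + w.2.2 6 ⬝ᵥ om) - (w.1.2 0 0 * q' 0 + et' ⬝ᵥ w.1.2 3),
    (q' 0 * w.1.2 1 0 + w.1.2 5 ⬝ᵥ pi') + (w.2.2 2 0 * b 0 + th ⬝ᵥ w.2.2 4) -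
      (q 0 * w.2.2 1 0 + w.2.2 5 ⬝ᵥ pi) - (w.1.2 2 0 * b' 0 + th' ⬝ᵥ w.1.2 4),
    (q' 0 * w.1.2 2 0 + w.1.2 6 ⬝ᵥ pi') + (w.2.2 2 0 * q 0 + et ⬝ᵥ w.2.2 4) -
      (q 0 * w.2.2 2 0 + w.2.2 6 ⬝ᵥ pi) - (w.1.2 2 0 * q' 0 + et' ⬝ᵥ w.1.2 4)]
  map_add' v w := by
    funext i
    fin_cases i <;>
      simp [dotProduct, Fin.sum_univ_two] <;> ring
  map_smul' s w := by
    funext i
    fin_cases i <;>
      simp [dotProduct, Fin.sum_univ_two] <;> ring

theorem Lf_surj (c b q c' b' q' th et th' et' : Fin 2 → k) {om pi om' pi' : Fin 2 → k}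
    (hli : LinearIndependent k ![Sum.elim om om', Sum.elim pi pi']) :
    LinearMap.range (Lf l c b q om pi th et c' b' q' om' pi' th' et') = ⊤ := by
  obtain ⟨x, hx⟩ := exists_dot hli ![1, 0]
  obtain ⟨y, hy⟩ := exists_dot hli ![0, 1]
  have x0 : x ⬝ᵥ Sum.elim om om' = 1 := hx 0
  have x1 : x ⬝ᵥ Sum.elim pi pi' = 0 := hx 1
  have y0 : y ⬝ᵥ Sum.elim om om' = 0 := hy 0
  have y1 : y ⬝ᵥ Sum.elim pi pi' = 1 := hy 1
  simp only [dotProduct, Fintype.sum_sum_type, Fin.sum_univ_two, Sum.elim_inl, Sum.elim_inr]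
    at x0 x1 y0 y1
  rw [LinearMap.range_eq_top]
  intro z
  refine ⟨((0, ![0, 0, 0, 0, 0, z 0 • (x ∘ Sum.inr) + z 2 • (y ∘ Sum.inr),
    z 1 • (x ∘ Sum.inr) + z 3 • (y ∘ Sum.inr)]),
    (0, ![0, 0, 0, 0, 0, -(z 0 • (x ∘ Sum.inl) + z 2 • (y ∘ Sum.inl)),
    -(z 1 • (x ∘ Sum.inl) + z 3 • (y ∘ Sum.inl))])), ?_⟩
  funext i
  fin_cases i
  · simp [Lf, dotProduct, Fin.sum_univ_two]
    linear_combination z 0 * x0 + z 2 * y0
  · simp [Lf, dotProduct, Fin.sum_univ_two]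
    linear_combination z 1 * x0 + z 3 * y0
  · simp [Lf, dotProduct, Fin.sum_univ_two]
    linear_combination z 0 * x1 + z 2 * y1
  · simp [Lf, dotProduct, Fin.sum_univ_two]
    linear_combination z 1 * x1 + z 3 * y1

/-- the solution space -/
def Vs (l : ℕ) (c b q om pi th et c' b' q' om' pi' th' et' : Fin 2 → k) :
    Submodule k (Matrix (IL l 3 2) (IL l 3 2) k × Matrix (IL l 3 2) (IL l 3 2) k) :=
  (LinearMap.ker (Lf l c b q om pi th et c' b' q' om' pi' th' et')).map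
    ((Ph l k).prodMap (Ph l k))

theorem finrank_Vs (h : 3 < l) (c b q c' b' q' th et th' et' : Fin 2 → k)
    {om pi om' pi' : Fin 2 → k}
    (hli : LinearIndependent k ![Sum.elim om om', Sum.elim pi pi']) :
    Module.finrank k (Vs l c b q om pi th et c' b' q' om' pi' th' et') ≤ 2 * l + 22 := by
  refine (Submodule.finrank_map_le _ _).trans ?_
  have h1 := (Lf l c b q om pi th et c' b' q' om' pi' th' et').finrank_range_add_finrank_ker
  rw [Lf_surj _ _ _ _ _ _ _ _ _ _ hli, finrank_top, finrank_Pm h, Module.finrank_pi,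
    Fintype.card_fin] at h1
  omega

theorem eqs_lin (h : 3 < l) {c b q om pi th et c' b' q' om' pi' th' et' : Fin 2 → k}
    {d d' : Fin 7 → Fin 2 → k}
    (hc : B3 l (d 0) (d 1) (d 2) (d 3) (d 4) (d 5) (d 6) * B3 l c' b' q' om' pi' th' et' +
      B3 l c b q om pi th et * B3 l (d' 0) (d' 1) (d' 2) (d' 3) (d' 4) (d' 5) (d' 6) =
      B3 l (d' 0) (d' 1) (d' 2) (d' 3) (d' 4) (d' 5) (d' 6) * B3 l c b q om pi th et +
      B3 l c' b' q' om' pi' th' et' * B3 l (d 0) (d 1) (d 2) (d 3) (d 4) (d 5) (d 6))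
    (a a' : Fin (l - 1) → k) :
    Lf l c b q om pi th et c' b' q' om' pi' th' et' ((a, d), (a', d')) = 0 := by
  have h1 := congrArg (fun M => M *ᵥ vv 0) hc
  have h2 := congrArg (fun M => M *ᵥ uu 0) hc
  simp only [add_mulVec, ← mulVec_mulVec] at h1 h2
  rw [B3_B3_v _ _ _ _ _ _ _ _ _ _ _ _ _ _ h, B3_B3_v _ _ _ _ _ _ _ _ _ _ _ _ _ _ h,
    B3_B3_v _ _ _ _ _ _ _ _ _ _ _ _ _ _ h, B3_B3_v _ _ _ _ _ _ _ _ _ _ _ _ _ _ h] at h1
  rw [B3_B3_u _ _ _ _ _ _ _ _ _ _ _ _ _ _ h, B3_B3_u _ _ _ _ _ _ _ _ _ _ _ _ _ _ h,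
    B3_B3_u _ _ _ _ _ _ _ _ _ _ _ _ _ _ h, B3_B3_u _ _ _ _ _ _ _ _ _ _ _ _ _ _ h] at h2
  have e : ∀ x y x' y' : k, (x • (vv (l - 1) : IL l 3 2 → k) + y • uu 2) +
      (x' • vv (l - 1) + y' • uu 2) = (x + x') • vv (l - 1) + (y + y') • uu 2 := by
    intro x y x' y'
    module
  rw [e, e] at h1 h2
  obtain ⟨e1, e2⟩ := coef_eq h h1
  obtain ⟨e3, e4⟩ := coef_eq h h2
  simp only [dotProduct, Fin.sum_univ_two] at e1 e2 e3 e4
  funext i
  fin_cases i
  · simp [Lf, dotProduct, Fin.sum_univ_two]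
    linear_combination e1
  · simp [Lf, dotProduct, Fin.sum_univ_two]
    linear_combination e2
  · simp [Lf, dotProduct, Fin.sum_univ_two]
    linear_combination e3
  · simp [Lf, dotProduct, Fin.sum_univ_two]
    linear_combination e4

theorem BL_u0_v0 {m p : ℕ} (hl : 0 < l) (hm : 0 < m) (c b q : ℕ → k) (om pi th et : Fin p → k) :
    BL l m p c b q om pi th et (.inr (.inl ⟨0, hm⟩)) (.inl ⟨0, hl⟩) = c 0 := by
  simp [BL]

theorem BL_v_u0 {m p : ℕ} (hl : l - m < l) (hm : 0 < m) (c b q : ℕ → k) (om pi th et : Fin p → k) :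
    BL l m p c b q om pi th et (.inl ⟨l - m, hl⟩) (.inr (.inl ⟨0, hm⟩)) = b 0 := by
  simp [BL]

/-- matrices commuting with `JL` with eight zero entries -/
theorem cen_Ph (h : 3 < l) {X : Matrix (IL l 3 2) (IL l 3 2) k}
    (hX : JL k l 3 2 * X = X * JL k l 3 2)
    (h0 : X (.inl ⟨0, by omega⟩) (.inl ⟨0, by omega⟩) = 0)
    (hq : X (.inr (.inl ⟨0, by omega⟩)) (.inr (.inl ⟨0, by omega⟩)) = 0)
    (hc : X (.inr (.inl ⟨0, by omega⟩)) (.inl ⟨0, by omega⟩) = 0)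
    (hb : X (.inl ⟨l - 3, by omega⟩) (.inr (.inl ⟨0, by omega⟩)) = 0)
    (hκ : ∀ a b, X (.inr (.inr a)) (.inr (.inr b)) = 0) : ∃ w, X = Ph l k w := by
  obtain ⟨a, c, b, q, om, pi, th, et, h1⟩ := cen_shape h (by omega) hX h0 hq hκ
  have hc0 : c 0 = 0 := by
    rw [← BL_u0_v0 (l := l) (m := 3) (by omega) (by omega) c b q om pi th et, ← hc, h1,
      Matrix.add_apply, sum_apply_u0_v0, zero_add]
  have hb0 : b 0 = 0 := by
    rw [← BL_v_u0 (l := l) (m := 3) (by omega) (by omega) c b q om pi th et, ← hb, h1,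
      Matrix.add_apply, sum_apply_v_u0, zero_add]
  refine ⟨(a, ![![c 1, c 2], ![b 1, b 2], ![q 1, q 2], om, pi, th, et]), ?_⟩
  rw [h1, BL_eq_B3 h hc0 hb0]
  rfl

/-- the tangent space is contained in `Vs` -/
theorem mem_Vs (h : 3 < l) {c b q om pi th et c' b' q' om' pi' th' et' : Fin 2 → k} {g g' : k}
    {β γ : Matrix (IL l 3 2) (IL l 3 2) k} {w w' : Pm l k} (hβ : β = Ph l k w) (hγ : γ = Ph l k w')
    (hc : β * (B3 l c' b' q' om' pi' th' et' + g' • JL k l 3 2 ^ (l - 2)) +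
      (B3 l c b q om pi th et + g • JL k l 3 2 ^ (l - 2)) * γ =
      γ * (B3 l c b q om pi th et + g • JL k l 3 2 ^ (l - 2)) +
      (B3 l c' b' q' om' pi' th' et' + g' • JL k l 3 2 ^ (l - 2)) * β) :
    (β, γ) ∈ Vs l c b q om pi th et c' b' q' om' pi' th' et' := by
  obtain ⟨a, d⟩ := w
  obtain ⟨a', d'⟩ := w'
  refine ⟨((a, d), (a', d')), ?_, by rw [hβ, hγ]; rfl⟩
  rw [SetLike.mem_coe, LinearMap.mem_ker]
  apply eqs_lin h
  have hS : ∀ (a : Fin (l - 1) → k) (M : Matrix (IL l 3 2) (IL l 3 2) k),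
      JL k l 3 2 * M = M * JL k l 3 2 →
      (∑ i, a i • JL k l 3 2 ^ ((i : ℕ) + 1)) * M = M * ∑ i, a i • JL k l 3 2 ^ ((i : ℕ) + 1) := by
    intro a M hM
    rw [Finset.mul_sum, Finset.sum_mul]
    refine Finset.sum_congr rfl fun i _ => ?_
    rw [mul_smul_comm, smul_mul_assoc, ((show Commute (JL k l 3 2) M from hM).pow_left _).eq]
  have hP : ∀ M : Matrix (IL l 3 2) (IL l 3 2) k, JL k l 3 2 * M = M * JL k l 3 2 →
      JL k l 3 2 ^ (l - 2) * M = M * JL k l 3 2 ^ (l - 2) := fun M hM =>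
    ((show Commute (JL k l 3 2) M from hM).pow_left _).eq
  have hB := B3_comm c b q om pi th et h
  have hB' := B3_comm c' b' q' om' pi' th' et' h
  have hJS : ∀ a : Fin (l - 1) → k, JL k l 3 2 * (∑ i, a i • JL k l 3 2 ^ ((i : ℕ) + 1)) =
      (∑ i, a i • JL k l 3 2 ^ ((i : ℕ) + 1)) * JL k l 3 2 := fun a =>
    (hS a _ rfl).symm
  have hβJ : JL k l 3 2 * β = β * JL k l 3 2 := by
    rw [hβ]
    show JL k l 3 2 * (_ + _) = (_ + _) * JL k l 3 2
    rw [mul_add, add_mul, hJS, B3_comm _ _ _ _ _ _ _ h]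
  have hγJ : JL k l 3 2 * γ = γ * JL k l 3 2 := by
    rw [hγ]
    show JL k l 3 2 * (_ + _) = (_ + _) * JL k l 3 2
    rw [mul_add, add_mul, hJS, B3_comm _ _ _ _ _ _ _ h]
  have h1 : β * B3 l c' b' q' om' pi' th' et' + B3 l c b q om pi th et * γ =
      γ * B3 l c b q om pi th et + B3 l c' b' q' om' pi' th' et' * β := by
    rw [mul_add, add_mul, mul_add, add_mul, mul_smul_comm, smul_mul_assoc, mul_smul_comm,
      smul_mul_assoc, hP β hβJ, hP γ hγJ] at hc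
    have h2 : β * B3 l c' b' q' om' pi' th' et' + B3 l c b q om pi th et * γ =
        (β * B3 l c' b' q' om' pi' th' et' + g' • (β * JL k l 3 2 ^ (l - 2)) +
        (B3 l c b q om pi th et * γ + g • (γ * JL k l 3 2 ^ (l - 2)))) -
        g' • (β * JL k l 3 2 ^ (l - 2)) - g • (γ * JL k l 3 2 ^ (l - 2)) := by abel
    rw [h2, hc]
    abel
  have e1 : β = ∑ i, a i • JL k l 3 2 ^ ((i : ℕ) + 1) +
    B3 l (d 0) (d 1) (d 2) (d 3) (d 4) (d 5) (d 6) := hβ
  have e2 : γ = ∑ i, a' i • JL k l 3 2 ^ ((i : ℕ) + 1) +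
    B3 l (d' 0) (d' 1) (d' 2) (d' 3) (d' 4) (d' 5) (d' 6) := hγ
  rw [e1, e2, add_mul, mul_add, add_mul, mul_add, hS a _ hB', hS a' _ hB] at h1
  have h3 : ∀ A B C D E F : Matrix (IL l 3 2) (IL l 3 2) k,
      A + B + (C + D) = C + E + (A + F) → B + D = E + F := by
    intro A B C D E F h5
    have h6 : B + D = (A + B + (C + D)) - A - C := by abel
    rw [h6, h5]
    abel
  exact h3 _ _ _ _ _ _ h1

end Pool.Agent.Lib.D13.LM
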