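import Pool.Agent.Lib.D13.P3c
import Pool.Agent.Lib.D13.P3e
import Pool.Agent.Lib.D13.PurUse

/-!
# MP_5dcbc3_ag: the type `(l, 3, 1, 1)`, `l ≥ 4`
-/

namespace Pool.Agent.Lib.D13.LM

open Matrix MvPolynomial Pool.Agent.Lib.Q5dc Pool.Agent.Lib.D7 Pool.Agent.Lib.D13.Pur

universe u

/-- the induction hypothesis on another index type -/
theorem cl_of_hall {k : Type*} [Field k] {n : Type*} [Fintype n] [DecidableEq n] {d : ℕ}
    (hall : HALL k d) (h1 : 0 < Fintype.card n) (h2 : Fintype.card n < d)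
    {T : Fin 3 → Matrix n n k} (hT : CN T) : Cl T := by
  let φ : Matrix (Fin (Fintype.card n)) (Fin (Fintype.card n)) k ≃ₐ[k] Matrix n n k :=
    Matrix.reindexAlgEquiv k k (Fintype.equivFin n).symm
  have h3 : Cl fun i => φ.symm (T i) := by
    refine hall _ h1 h2 _ ⟨fun i j => ?_, fun i => ?_⟩
    · rw [← map_mul, hT.1 i j, map_mul]
    · exact (hT.2 i).map φ.symm
  have h4 := Cl.mapEquiv φ (by simp) h3
  simpa using h4

section link

variable {k : Type*} [Field k] {l m p : ℕ} {ρ : ℕ → ℕ}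
  {T : Fin 3 → Matrix (IL l m p) (IL l m p) k}

/-- the shape of a maximal bad triple whose first matrix is `JL` -/
theorem shape_link [Infinite k] (hT : MaxR ρ T) (hρ : ∀ i, ρ i = (JL k l m p ^ i).rank)
    (h0 : T 0 = JL k l m p) (hlm : m < l) (hm : 2 ≤ m) :
    ∃ (a c b q : ℕ → k) (om pi th et : Fin p → k) (a' c' b' q' : ℕ → k)
      (om' pi' th' et' : Fin p → k),
      T 1 = ∑ i ∈ Finset.range l, a i • JL k l m p ^ (i + 1) + BL l m p c b q om pi th et ∧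
      T 2 = ∑ i ∈ Finset.range l, a' i • JL k l m p ^ (i + 1) +
        BL l m p c' b' q' om' pi' th' et' ∧
      MaxR ρ ![JL k l m p, BL l m p c b q om pi th et, BL l m p c' b' q' om' pi' th' et'] := by
  have hA : JL k l m p ∈ adj T := by rw [← h0]; exact mem_adj T 0
  have h1 : ρ 1 ≤ (l - 1) + (m - 1) := by
    rw [hρ, pow_one]
    exact JL_rank
  obtain ⟨a, c, b, q, om, pi, th, et, hX⟩ := shape_one hT h1 hlm hm hA (mem_adj T 1)
  obtain ⟨a', c', b', q', om', pi', th', et', hX'⟩ := shape_one hT h1 hlm hm hA (mem_adj T 2)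
  refine ⟨a, c, b, q, om, pi, th, et, a', c', b', q', om', pi', th', et', hX, hX', ?_⟩
  have hmem : ∀ i, (![JL k l m p, BL l m p c b q om pi th et, BL l m p c' b' q' om' pi' th' et'] :
      Fin 3 → Matrix (IL l m p) (IL l m p) k) i ∈ adj T := by
    intro i
    fin_cases i
    · exact hA
    · have h2 : BL l m p c b q om pi th et = T 1 -
          ∑ i ∈ Finset.range l, a i • JL k l m p ^ (i + 1) := by rw [hX]; abel
      show BL l m p c b q om pi th et ∈ adj T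
      rw [h2]
      exact sub_mem (mem_adj T 1) (sum_mem fun i _ => SMulMemClass.smul_mem _ (pow_mem_adj hA i))
    · have h2 : BL l m p c' b' q' om' pi' th' et' = T 2 -
          ∑ i ∈ Finset.range l, a' i • JL k l m p ^ (i + 1) := by rw [hX']; abel
      show BL l m p c' b' q' om' pi' th' et' ∈ adj T
      rw [h2]
      exact sub_mem (mem_adj T 2) (sum_mem fun i _ => SMulMemClass.smul_mem _ (pow_mem_adj hA i))
  refine MaxR.change hT (hT.cn.of_adj hmem) fun i => ?_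
  have m0 := D8.mem0 (JL k l m p) (BL l m p c b q om pi th et) (BL l m p c' b' q' om' pi' th' et')
  have m1 := D8.mem1 (JL k l m p) (BL l m p c b q om pi th et) (BL l m p c' b' q' om' pi' th' et')
  have m2 := D8.mem2 (JL k l m p) (BL l m p c b q om pi th et) (BL l m p c' b' q' om' pi' th' et')
  fin_cases i
  · show T 0 ∈ _
    rw [h0]
    exact m0
  · show T 1 ∈ _
    rw [hX]
    exact add_mem (sum_mem fun i _ => SMulMemClass.smul_mem _ (pow_mem_adj m0 i)) m1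
  · show T 2 ∈ _
    rw [hX']
    exact add_mem (sum_mem fun i _ => SMulMemClass.smul_mem _ (pow_mem_adj m0 i)) m2

theorem poly_v0 (h : 0 < l) (a : ℕ → k) (x : IL l m p) :
    (∑ i ∈ Finset.range l, a i • JL k l m p ^ (i + 1)) x (.inl ⟨0, h⟩) =
      ∑ i ∈ Finset.range l, a i * vv (i + 1) x := by
  rw [apply_v0 (∑ i ∈ Finset.range l, a i • JL k l m p ^ (i + 1)) h x, Matrix.sum_mulVec,
    Finset.sum_apply]
  refine Finset.sum_congr rfl fun i _ => ?_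
  rw [smul_mulVec, JL_pow_vv, zero_add]
  rfl

theorem poly_u0 (h : 0 < m) (a : ℕ → k) (x : IL l m p) :
    (∑ i ∈ Finset.range l, a i • JL k l m p ^ (i + 1)) x (.inr (.inl ⟨0, h⟩)) =
      ∑ i ∈ Finset.range l, a i * uu (i + 1) x := by
  rw [apply_u0 (∑ i ∈ Finset.range l, a i • JL k l m p ^ (i + 1)) h x, Matrix.sum_mulVec,
    Finset.sum_apply]
  refine Finset.sum_congr rfl fun i _ => ?_
  rw [smul_mulVec, JL_pow_uu, zero_add]
  rfl

theorem poly_p (a : ℕ → k) (b : Fin p) (x : IL l m p) :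
    (∑ i ∈ Finset.range l, a i • JL k l m p ^ (i + 1)) x (.inr (.inr b)) = 0 := by
  rw [apply_p (∑ i ∈ Finset.range l, a i • JL k l m p ^ (i + 1)) b x, Matrix.sum_mulVec,
    Finset.sum_apply]
  refine Finset.sum_eq_zero fun i _ => ?_
  rw [smul_mulVec, JL_pow_pp, smul_zero]
  rfl

end link

/-- the positions of the zero entries -/
def pat (l : ℕ) (h : 3 < l) : Fin 4 ⊕ (Fin 2 × Fin 2) → IL l 3 2 × IL l 3 2
  | .inl 0 => (.inl ⟨0, by omega⟩, .inl ⟨0, by omega⟩)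
  | .inl 1 => (.inr (.inl ⟨0, by omega⟩), .inr (.inl ⟨0, by omega⟩))
  | .inl 2 => (.inr (.inl ⟨0, by omega⟩), .inl ⟨0, by omega⟩)
  | .inl 3 => (.inl ⟨l - 3, by omega⟩, .inr (.inl ⟨0, by omega⟩))
  | .inr (a, b) => (.inr (.inr a), .inr (.inr b))

theorem pat_zero {k : Type*} [Field k] {l : ℕ} (h : 3 < l) {a c b q : ℕ → k}
    {om pi th et : Fin 2 → k} (hc : c 0 = 0) (hb : b 0 = 0) (t : Fin 4 ⊕ (Fin 2 × Fin 2)) :
    (∑ i ∈ Finset.range l, a i • JL k l 3 2 ^ (i + 1) + BL l 3 2 c b q om pi th et)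
      (pat l h t).1 (pat l h t).2 = 0 := by
  obtain ⟨S, hS⟩ : ∃ S : Matrix (IL l 3 2) (IL l 3 2) k,
    S = ∑ i ∈ Finset.range l, a i • JL k l 3 2 ^ (i + 1) := ⟨_, rfl⟩
  obtain ⟨B, hB⟩ : ∃ B, B = BL l 3 2 c b q om pi th et := ⟨_, rfl⟩
  rw [← hS, ← hB]
  rcases t with t | ⟨x, y⟩
  · fin_cases t
    · show S (.inl ⟨0, _⟩) (.inl ⟨0, _⟩) + B (.inl ⟨0, _⟩) (.inl ⟨0, _⟩) = 0
      rw [hS, hB, poly_v0]
      simp [vv, BL]
    · show S (.inr (.inl ⟨0, _⟩)) (.inr (.inl ⟨0, _⟩)) +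
        B (.inr (.inl ⟨0, _⟩)) (.inr (.inl ⟨0, _⟩)) = 0
      rw [hS, hB, poly_u0]
      simp [uu, BL]
    · show S (.inr (.inl ⟨0, _⟩)) (.inl ⟨0, _⟩) + B (.inr (.inl ⟨0, _⟩)) (.inl ⟨0, _⟩) = 0
      rw [hS, hB, poly_v0]
      simp [vv, BL, hc]
    · show S (.inl ⟨l - 3, _⟩) (.inr (.inl ⟨0, _⟩)) + B (.inl ⟨l - 3, _⟩) (.inr (.inl ⟨0, _⟩)) = 0
      rw [hS, hB, poly_u0]
      simp [uu, BL, hb]
  · show S (.inr (.inr x)) (.inr (.inr y)) + B (.inr (.inr x)) (.inr (.inr y)) = 0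
    rw [hS, hB, poly_p]
    simp [BL]

theorem dif_X {k : Type*} [Field k] {n : Type*} [Fintype n] [DecidableEq n]
    (s : Fin 3 × n × n) (T : Fin 3 → Matrix n n k) (b c : Matrix n n k) :
    dif (X s) T b c = co ![0, b, c] s := by
  classical
  rw [dif, Finset.sum_eq_single s]
  · rw [pderiv_X_self, map_one, one_mul]
  · intro t _ ht
    rw [pderiv_X_of_ne ht.symm, map_zero, zero_mul]
  · intro h
    exact absurd (Finset.mem_univ _) h

/-- there is no maximal bad triple of type `(l, 3, 1, 1)`, `l ≥ 4` -/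
theorem not_bad_l311 {k : Type u} [Field k] [IsAlgClosed k] [CharZero k] {l : ℕ} (h : 3 < l)
    (hall : HALL k (l + 5)) {ρ : ℕ → ℕ} {T : Fin 3 → Matrix (IL l 3 2) (IL l 3 2) k}
    (hT : MaxR ρ T) (hρ : ∀ i, ρ i = (JL k l 3 2 ^ i).rank) (h0 : T 0 = JL k l 3 2) : False := by
  have : Infinite k := IsAlgClosed.instInfinite
  have hcard : Fintype.card (IL l 3 2) = l + 5 := by simp [IL]
  have hcard1 : Fintype.card (IL l 3 1) = l + 4 := by simp [IL]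
  -- case I does not occur
  have hcase : ∀ {c b q : ℕ → k} {om pi th et : Fin 2 → k} {c' b' q' : ℕ → k}
      {om' pi' th' et' : Fin 2 → k},
      MaxR ρ ![JL k l 3 2, BL l 3 2 c b q om pi th et, BL l 3 2 c' b' q' om' pi' th' et'] →
      (c 0 = 0 ∧ b 0 = 0) ∧ c' 0 = 0 ∧ b' 0 = 0 := by
    intro c b q om pi th et c' b' q' om' pi' th' et' hM
    obtain ⟨r, rfl⟩ : ∃ r, l = r + 4 := ⟨l - 4, by omega⟩
    by_contra hcon
    refine caseI_three hρ (fun T hT => cl_of_hall hall (by omega) (by omega) hT) hM ?_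
    by_contra h2
    push Not at h2
    exact hcon ⟨⟨h2.1, h2.2.1⟩, h2.2.2.1, h2.2.2.2⟩
  obtain ⟨a, c, b, q, om, pi, th, et, a', c', b', q', om', pi', th', et', -, -, hM⟩ :=
    shape_link hT hρ h0 h (by omega)
  obtain ⟨⟨hc, hb⟩, hc', hb'⟩ := hcase hM
  rw [BL_eq_B3 h hc hb, BL_eq_B3 h hc' hb', T3_mk] at hM
  obtain ⟨Om, Pi, Th, Et, hM, hli, hd⟩ := T3_generic h hM
  have hcomm := hM.cn.1 1 2
  obtain ⟨g, g', hP⟩ := sp_pcl h (by rw [hcard]; exact hall) hcomm (show Pi (.inl 0) * Pi (.inr 1) -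
    Pi (.inl 1) * Pi (.inr 0) ≠ 0 from hd)
  obtain ⟨c, b, q, c', b', q', hc1, hb1, hq1, hc2, hb2, hq2⟩ :
      ∃ c₁ b₁ q₁ c₂ b₂ q₂ : Fin 2 → k, c₁ = ![c 1, c 2] ∧ b₁ = ![b 1, b 2] ∧ q₁ = ![q 1, q 2] ∧
        c₂ = ![c' 1, c' 2] ∧ b₂ = ![b' 1, b' 2] ∧ q₂ = ![q' 1, q' 2] :=
    ⟨_, _, _, _, _, _, rfl, rfl, rfl, rfl, rfl, rfl⟩
  rw [← hc1, ← hb1, ← hq1, ← hc2, ← hb2, ← hq2] at hM hP
  obtain ⟨B, hB⟩ : ∃ B, B = B3 l c b q (Om ∘ Sum.inl) (Pi ∘ Sum.inl) (Th ∘ Sum.inr)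
    (Et ∘ Sum.inr) := ⟨_, rfl⟩
  obtain ⟨C, hC⟩ : ∃ C, C = B3 l c' b' q' (Om ∘ Sum.inr) (Pi ∘ Sum.inr) (-(Th ∘ Sum.inl))
    (-(Et ∘ Sum.inl)) := ⟨_, rfl⟩
  rw [T3, ← hB, ← hC] at hM
  rw [← hB, ← hC] at hP
  have hN : MaxR ρ ![JL k l 3 2, B + g • JL k l 3 2 ^ (l - 2), C + g' • JL k l 3 2 ^ (l - 2)] := by
    have hl : l - 2 = (l - 3) + 1 := by omega
    have hJ : ∀ Y Z : Matrix (IL l 3 2) (IL l 3 2) k, JL k l 3 2 ^ (l - 2) ∈
        adj ![JL k l 3 2, Y, Z] := by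
      intro Y Z
      rw [hl]
      exact pow_mem_adj (D8.mem0 _ _ _) _
    refine D8.MaxR.change3 hM (add_mem (D8.mem1 _ _ _) (SMulMemClass.smul_mem _ (hJ _ _)))
      (add_mem (D8.mem2 _ _ _) (SMulMemClass.smul_mem _ (hJ _ _))) ?_ ?_
    · have h1 := sub_mem (D8.mem1 (JL k l 3 2) (B + g • JL k l 3 2 ^ (l - 2))
        (C + g' • JL k l 3 2 ^ (l - 2))) (SMulMemClass.smul_mem g (hJ _ _))
      rwa [add_sub_cancel_right] at h1
    · have h1 := sub_mem (D8.mem2 (JL k l 3 2) (B + g • JL k l 3 2 ^ (l - 2))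
        (C + g' • JL k l 3 2 ^ (l - 2))) (SMulMemClass.smul_mem g' (hJ _ _))
      rwa [add_sub_cancel_right] at h1
  have hr : ∀ i, ((![JL k l 3 2, B + g • JL k l 3 2 ^ (l - 2), C + g' • JL k l 3 2 ^ (l - 2)] :
      Fin 3 → Matrix (IL l 3 2) (IL l 3 2) k) 0 ^ i).rank = ρ i := fun i => (hρ i).symm
  have key := purity_use hN hr (MaxR.isIndec (by rw [hcard]; exact hall) hN) hP
    (by rw [hcard]; omega)
    (fun j : Fin 2 × (Fin 4 ⊕ (Fin 2 × Fin 2)) => X (j.1.succ, (pat l h j.2).1, (pat l h j.2).2))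
    1 (by rw [map_one]; exact one_ne_zero) ?_
    (Vs l c b q (Om ∘ Sum.inl) (Pi ∘ Sum.inl) (Th ∘ Sum.inr) (Et ∘ Sum.inr) c' b' q'
      (Om ∘ Sum.inr) (Pi ∘ Sum.inr) (-(Th ∘ Sum.inl)) (-(Et ∘ Sum.inl))) ?_
  · have h1 := finrank_cen_ge h (cen (JL k l 3 2)) (fun X hX => hX)
    have h2 := finrank_Vs h c b q c' b' q' (Th ∘ Sum.inr) (Et ∘ Sum.inr) (-(Th ∘ Sum.inl))
      (-(Et ∘ Sum.inl)) (om := Om ∘ Sum.inl) (om' := Om ∘ Sum.inr) (pi := Pi ∘ Sum.inl)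
      (pi' := Pi ∘ Sum.inr) (by rwa [Sum.elim_comp_inl_inr, Sum.elim_comp_inl_inr])
    rw [hcard] at key
    have h3 : Module.finrank k (cen ((![JL k l 3 2, B + g • JL k l 3 2 ^ (l - 2),
      C + g' • JL k l 3 2 ^ (l - 2)] : Fin 3 → Matrix (IL l 3 2) (IL l 3 2) k) 0)) =
      Module.finrank k (cen (JL k l 3 2)) := rfl
    omega
  · rintro T' hT' hT0 - ⟨i, t⟩
    rw [eval_X]
    show T' i.succ (pat l h t).1 (pat l h t).2 = 0
    obtain ⟨a, c, b, q, om, pi, th, et, a', c', b', q', om', pi', th', et', h1, h2, hM'⟩ :=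
      shape_link hT' hρ hT0 h (by omega)
    obtain ⟨⟨hc, hb⟩, hc', hb'⟩ := hcase hM'
    fin_cases i
    · show T' 1 _ _ = 0
      rw [h1]
      exact pat_zero h hc hb t
    · show T' 2 _ _ = 0
      rw [h2]
      exact pat_zero h hc' hb' t
  · intro β γ hβ hγ hc hF
    have hβ' : JL k l 3 2 * β = β * JL k l 3 2 := hβ
    have hγ' : JL k l 3 2 * γ = γ * JL k l 3 2 := hγ
    have e1 : ∀ t, β (pat l h t).1 (pat l h t).2 = 0 := by
      intro t
      have h1 := hF (0, t)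
      rw [dif_X] at h1
      exact h1
    have e2 : ∀ t, γ (pat l h t).1 (pat l h t).2 = 0 := by
      intro t
      have h1 := hF (1, t)
      rw [dif_X] at h1
      exact h1
    obtain ⟨w, hw⟩ := cen_Ph h hβ' (e1 (.inl 0)) (e1 (.inl 1)) (e1 (.inl 2)) (e1 (.inl 3))
      fun a b => e1 (.inr (a, b))
    obtain ⟨w', hw'⟩ := cen_Ph h hγ' (e2 (.inl 0)) (e2 (.inl 1)) (e2 (.inl 2)) (e2 (.inl 3))
      fun a b => e2 (.inr (a, b))
    have hc' : β * (C + g' • JL k l 3 2 ^ (l - 2)) + (B + g • JL k l 3 2 ^ (l - 2)) * γ =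
      γ * (B + g • JL k l 3 2 ^ (l - 2)) + (C + g' • JL k l 3 2 ^ (l - 2)) * β := hc
    rw [hB, hC] at hc'
    exact mem_Vs h hw hw' hc'

end Pool.Agent.Lib.D13.LM
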