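import Pool.Agent.Lib.D13.P3f
import Pool.Agent.Lib.D13.Frame

/-!
# MP_5dcbc3_ag: the types `(l, 3, 1, 1)`, `l ≥ 4`, are not bad
-/

namespace Pool.Agent.Lib.D13

open Matrix Pool.Agent.Lib.Q5dc Pool.Agent.Lib.D7 LM

namespace P3gAux

/-- the box of a basis vector -/
def tau (l : ℕ) : IL l 3 2 → IxL [l, 3, 1, 1]
  | .inl i => ⟨0, i⟩
  | .inr (.inl i) => ⟨1, i⟩
  | .inr (.inr a) => ⟨a.succ.succ, ⟨0, by fin_cases a <;> exact Nat.one_pos⟩⟩

theorem tau_inj (l : ℕ) : Function.Injective (tau l) := by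
  intro x y h
  have h1 : ((tau l x).1 : ℕ) = ((tau l y).1 : ℕ) :=
    congrArg (fun z : IxL [l, 3, 1, 1] => (z.1 : ℕ)) h
  have h2 : ((tau l x).2 : ℕ) = ((tau l y).2 : ℕ) :=
    congrArg (fun z : IxL [l, 3, 1, 1] => (z.2 : ℕ)) h
  rcases x with x | x | x <;> rcases y with y | y | y
  · have h3 : (x : ℕ) = y := h2
    rw [Fin.ext h3]
  · have h3 : (0 : ℕ) = 1 := h1
    omega
  · have h3 : (0 : ℕ) = (y : ℕ) + 1 + 1 := h1
    omega
  · have h3 : (1 : ℕ) = 0 := h1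
    omega
  · have h3 : (x : ℕ) = y := h2
    rw [Fin.ext h3]
  · have h3 : (1 : ℕ) = (y : ℕ) + 1 + 1 := h1
    omega
  · have h3 : (x : ℕ) + 1 + 1 = 0 := h1
    omega
  · have h3 : (x : ℕ) + 1 + 1 = 1 := h1
    omega
  · have h3 : (x : ℕ) + 1 + 1 = (y : ℕ) + 1 + 1 := h1
    rw [Fin.ext (show (x : ℕ) = y by omega)]

theorem tau_spec {k : Type*} [Field k] (l : ℕ) (i j : IL l 3 2) : JL k l 3 2 i j =
    if (tau l i).1 = (tau l j).1 ∧ ((tau l i).2 : ℕ) = (tau l j).2 + 1 then 1 else 0 := by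
  suffices key : JL k l 3 2 i j = if ((tau l i).1 : ℕ) = (tau l j).1 ∧
      ((tau l i).2 : ℕ) = (tau l j).2 + 1 then 1 else 0 from
    key.trans (if_congr (by rw [Fin.ext_iff]) rfl rfl)
  rcases i with i | i | i <;> rcases j with j | j | j
  · show (if (i : ℕ) = j + 1 then (1 : k) else 0) = if (0 : ℕ) = 0 ∧ (i : ℕ) = j + 1 then 1 else 0
    simp
  · show (0 : k) = if (0 : ℕ) = 1 ∧ (i : ℕ) = j + 1 then 1 else 0
    simp
  · show (0 : k) = if (0 : ℕ) = (j : ℕ) + 1 + 1 ∧ (i : ℕ) = 0 + 1 then 1 else 0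
    rw [if_neg (by omega)]
  · show (0 : k) = if (1 : ℕ) = 0 ∧ (i : ℕ) = j + 1 then 1 else 0
    simp
  · show (if (i : ℕ) = j + 1 then (1 : k) else 0) = if (1 : ℕ) = 1 ∧ (i : ℕ) = j + 1 then 1 else 0
    simp
  · show (0 : k) = if (1 : ℕ) = (j : ℕ) + 1 + 1 ∧ (i : ℕ) = 0 + 1 then 1 else 0
    rw [if_neg (by omega)]
  · show (0 : k) = if (i : ℕ) + 1 + 1 = 0 ∧ (0 : ℕ) = j + 1 then 1 else 0
    rw [if_neg (by omega)]
  · show (0 : k) = if (i : ℕ) + 1 + 1 = 1 ∧ (0 : ℕ) = j + 1 then 1 else 0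
    rw [if_neg (by omega)]
  · show (0 : k) = if (i : ℕ) + 1 + 1 = (j : ℕ) + 1 + 1 ∧ (0 : ℕ) = 0 + 1 then 1 else 0
    rw [if_neg (by omega)]

end P3gAux

open P3gAux

/-- **the types (l, 3, 1, 1)**, `l ≥ 4` -/
theorem not_bad_l311 {k : Type*} [Field k] [IsAlgClosed k] [CharZero k] {l : ℕ} (h : 4 ≤ l)
    (hall : HALL k (l + 5)) : ¬ Bad k [l, 3, 1, 1] := by
  have : Infinite k := IsAlgClosed.instInfinite
  refine not_bad_of (JL k l 3 2) (tau l) (tau_inj l) (by simp) (tau_spec l)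
    fun ρ T hT hρ h0 => LM.not_bad_l311 h hall hT hρ h0

theorem not_bad_4311 {k : Type*} [Field k] [IsAlgClosed k] [CharZero k] (hall : HALL k 9) :
    ¬ Bad k [4, 3, 1, 1] := not_bad_l311 le_rfl hall

theorem not_bad_5311 {k : Type*} [Field k] [IsAlgClosed k] [CharZero k] (hall : HALL k 10) :
    ¬ Bad k [5, 3, 1, 1] := not_bad_l311 (by omega) hall

theorem not_bad_6311 {k : Type*} [Field k] [IsAlgClosed k] [CharZero k] (hall : HALL k 11) :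
    ¬ Bad k [6, 3, 1, 1] := not_bad_l311 (by omega) hall

theorem not_bad_7311 {k : Type*} [Field k] [IsAlgClosed k] [CharZero k] (hall : HALL k 12) :
    ¬ Bad k [7, 3, 1, 1] := not_bad_l311 (by omega) hall

end Pool.Agent.Lib.D13
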