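import Pool.Agent.Lib.D8.UtilB

/-!
# MP_5dcbc3_ag: type (4, 4, 3, 1), block matrices

`Tt ι P Q R w p t`: levels `E = k ^ 2`, `V`, `V`, `V` (`V = k ^ 3`, `ι : E → V`) and a further
vector; `P` raises the level by one, `Q` by two, `R : E → V` by three; the further vector is mapped
to `t` in the last level, `w` and `p` are the coefficients of the further vector in the images of
the levels 0 and 1.  `A = Tt ι 1 0 0 0 0 0`.
-/

set_option autoImplicit false

namespace Pool.Agent.Lib.D13.P4431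

open Matrix Pool.Agent.Lib.Q5dc Pool.Agent.Lib.D7 Pool.Agent.Lib.D8

variable {k : Type*} [Field k]

abbrev I5 := Fin 2 ⊕ (Fin 3 ⊕ (Fin 3 ⊕ (Fin 3 ⊕ Unit)))
abbrev M3 (k : Type*) := Matrix (Fin 3) (Fin 3) k
abbrev M32 (k : Type*) := Matrix (Fin 3) (Fin 2) k
abbrev M2 (k : Type*) := Matrix (Fin 2) (Fin 2) k

/-- block strictly lower triangular matrices -/
def G (a10 a20 a30 : M32 k) (a21 a31 a32 : M3 k) (w : Fin 2 → k) (p t : Fin 3 → k) :
    Matrix I5 I5 k :=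
  Matrix.of fun i j => match i, j with
  | .inr (.inl i), .inl j => a10 i j
  | .inr (.inr (.inl i)), .inl j => a20 i j
  | .inr (.inr (.inr (.inl i))), .inl j => a30 i j
  | .inr (.inr (.inl i)), .inr (.inl j) => a21 i j
  | .inr (.inr (.inr (.inl i))), .inr (.inl j) => a31 i j
  | .inr (.inr (.inr (.inl i))), .inr (.inr (.inl j)) => a32 i j
  | .inr (.inr (.inr (.inr _))), .inl j => w j
  | .inr (.inr (.inr (.inr _))), .inr (.inl j) => p j
  | .inr (.inr (.inr (.inl i))), .inr (.inr (.inr (.inr _))) => t i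
  | _, _ => 0

section eval

variable (a10 a20 a30 : M32 k) (a21 a31 a32 : M3 k) (w : Fin 2 → k) (p t : Fin 3 → k)

theorem G_00 (i : Fin 2) (j : Fin 2) :
    G a10 a20 a30 a21 a31 a32 w p t (.inl i) (.inl j) = 0 := rfl

theorem G_01 (i : Fin 2) (j : Fin 3) :
    G a10 a20 a30 a21 a31 a32 w p t (.inl i) (.inr (.inl j)) = 0 := rfl

theorem G_02 (i : Fin 2) (j : Fin 3) :
    G a10 a20 a30 a21 a31 a32 w p t (.inl i) (.inr (.inr (.inl j))) = 0 := rfl

theorem G_03 (i : Fin 2) (j : Fin 3) :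
    G a10 a20 a30 a21 a31 a32 w p t (.inl i) (.inr (.inr (.inr (.inl j)))) = 0 := rfl

theorem G_04 (i : Fin 2) (j : Unit) :
    G a10 a20 a30 a21 a31 a32 w p t (.inl i) (.inr (.inr (.inr (.inr j)))) = 0 := rfl

theorem G_10 (i : Fin 3) (j : Fin 2) :
    G a10 a20 a30 a21 a31 a32 w p t (.inr (.inl i)) (.inl j) = a10 i j := rfl

theorem G_11 (i : Fin 3) (j : Fin 3) :
    G a10 a20 a30 a21 a31 a32 w p t (.inr (.inl i)) (.inr (.inl j)) = 0 := rfl

theorem G_12 (i : Fin 3) (j : Fin 3) :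
    G a10 a20 a30 a21 a31 a32 w p t (.inr (.inl i)) (.inr (.inr (.inl j))) = 0 := rfl

theorem G_13 (i : Fin 3) (j : Fin 3) :
    G a10 a20 a30 a21 a31 a32 w p t (.inr (.inl i)) (.inr (.inr (.inr (.inl j)))) = 0 := rfl

theorem G_14 (i : Fin 3) (j : Unit) :
    G a10 a20 a30 a21 a31 a32 w p t (.inr (.inl i)) (.inr (.inr (.inr (.inr j)))) = 0 := rfl

theorem G_20 (i : Fin 3) (j : Fin 2) :
    G a10 a20 a30 a21 a31 a32 w p t (.inr (.inr (.inl i))) (.inl j) = a20 i j := rfl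

theorem G_21 (i : Fin 3) (j : Fin 3) :
    G a10 a20 a30 a21 a31 a32 w p t (.inr (.inr (.inl i))) (.inr (.inl j)) = a21 i j := rfl

theorem G_22 (i : Fin 3) (j : Fin 3) :
    G a10 a20 a30 a21 a31 a32 w p t (.inr (.inr (.inl i))) (.inr (.inr (.inl j))) = 0 := rfl

theorem G_23 (i : Fin 3) (j : Fin 3) :
    G a10 a20 a30 a21 a31 a32 w p t (.inr (.inr (.inl i))) (.inr (.inr (.inr (.inl j)))) = 0 := rfl

theorem G_24 (i : Fin 3) (j : Unit) :
    G a10 a20 a30 a21 a31 a32 w p t (.inr (.inr (.inl i))) (.inr (.inr (.inr (.inr j)))) = 0 := rfl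

theorem G_30 (i : Fin 3) (j : Fin 2) :
    G a10 a20 a30 a21 a31 a32 w p t (.inr (.inr (.inr (.inl i)))) (.inl j) = a30 i j := rfl

theorem G_31 (i : Fin 3) (j : Fin 3) :
    G a10 a20 a30 a21 a31 a32 w p t (.inr (.inr (.inr (.inl i)))) (.inr (.inl j)) = a31 i j := rfl

theorem G_32 (i : Fin 3) (j : Fin 3) :
    G a10 a20 a30 a21 a31 a32 w p t (.inr (.inr (.inr (.inl i)))) (.inr (.inr (.inl j))) = a32 i j := rfl

theorem G_33 (i : Fin 3) (j : Fin 3) :
    G a10 a20 a30 a21 a31 a32 w p t (.inr (.inr (.inr (.inl i)))) (.inr (.inr (.inr (.inl j)))) = 0 := rfl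

theorem G_34 (i : Fin 3) (j : Unit) :
    G a10 a20 a30 a21 a31 a32 w p t (.inr (.inr (.inr (.inl i)))) (.inr (.inr (.inr (.inr j)))) = t i := rfl

theorem G_40 (i : Unit) (j : Fin 2) :
    G a10 a20 a30 a21 a31 a32 w p t (.inr (.inr (.inr (.inr i)))) (.inl j) = w j := rfl

theorem G_41 (i : Unit) (j : Fin 3) :
    G a10 a20 a30 a21 a31 a32 w p t (.inr (.inr (.inr (.inr i)))) (.inr (.inl j)) = p j := rfl

theorem G_42 (i : Unit) (j : Fin 3) :
    G a10 a20 a30 a21 a31 a32 w p t (.inr (.inr (.inr (.inr i)))) (.inr (.inr (.inl j))) = 0 := rfl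

theorem G_43 (i : Unit) (j : Fin 3) :
    G a10 a20 a30 a21 a31 a32 w p t (.inr (.inr (.inr (.inr i)))) (.inr (.inr (.inr (.inl j)))) = 0 := rfl

theorem G_44 (i : Unit) (j : Unit) :
    G a10 a20 a30 a21 a31 a32 w p t (.inr (.inr (.inr (.inr i)))) (.inr (.inr (.inr (.inr j)))) = 0 := rfl

end eval

theorem G_mul (a10 a20 a30 b10 b20 b30 : M32 k) (a21 a31 a32 b21 b31 b32 : M3 k)
    (w w' : Fin 2 → k) (p t p' t' : Fin 3 → k) :
    G a10 a20 a30 a21 a31 a32 w p t * G b10 b20 b30 b21 b31 b32 w' p' t' =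
      G 0 (a21 * b10) (a31 * b10 + a32 * b20 + vecMulVec t w') 0
        (a32 * b21 + vecMulVec t p') 0 (p ᵥ* b10) 0 0 := by
  ext i j
  rcases i with i | i | i | i | i <;> rcases j with j | j | j | j | j <;>
    simp [G_00, G_01, G_02, G_03, G_04, G_10, G_11, G_12, G_13, G_14, G_20, G_21, G_22, G_23, G_24,
      G_30, G_31, G_32, G_33, G_34, G_40, G_41, G_42, G_43, G_44, Matrix.mul_apply,
      Fintype.sum_sum_type, vecMulVec_apply, vecMul, dotProduct, add_assoc]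

theorem G_add (a10 a20 a30 b10 b20 b30 : M32 k) (a21 a31 a32 b21 b31 b32 : M3 k)
    (w w' : Fin 2 → k) (p t p' t' : Fin 3 → k) :
    G a10 a20 a30 a21 a31 a32 w p t + G b10 b20 b30 b21 b31 b32 w' p' t' =
      G (a10 + b10) (a20 + b20) (a30 + b30) (a21 + b21) (a31 + b31) (a32 + b32) (w + w') (p + p')
        (t + t') := by
  ext i j
  rcases i with i | i | i | i | i <;> rcases j with j | j | j | j | j <;>
    simp [G_00, G_01, G_02, G_03, G_04, G_10, G_11, G_12, G_13, G_14, G_20, G_21, G_22, G_23, G_24,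
      G_30, G_31, G_32, G_33, G_34, G_40, G_41, G_42, G_43, G_44]

theorem G_smul (s : k) (a10 a20 a30 : M32 k) (a21 a31 a32 : M3 k) (w : Fin 2 → k)
    (p t : Fin 3 → k) :
    s • G a10 a20 a30 a21 a31 a32 w p t =
      G (s • a10) (s • a20) (s • a30) (s • a21) (s • a31) (s • a32) (s • w) (s • p) (s • t) := by
  ext i j
  rcases i with i | i | i | i | i <;> rcases j with j | j | j | j | j <;>
    simp [G_00, G_01, G_02, G_03, G_04, G_10, G_11, G_12, G_13, G_14, G_20, G_21, G_22, G_23, G_24,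
      G_30, G_31, G_32, G_33, G_34, G_40, G_41, G_42, G_43, G_44]

theorem G_zero : G (0 : M32 k) 0 0 0 0 0 0 0 0 = 0 := by
  ext i j
  rcases i with i | i | i | i | i <;> rcases j with j | j | j | j | j <;>
    simp [G_00, G_01, G_02, G_03, G_04, G_10, G_11, G_12, G_13, G_14, G_20, G_21, G_22, G_23, G_24,
      G_30, G_31, G_32, G_33, G_34, G_40, G_41, G_42, G_43, G_44]

theorem G_inj {a10 a20 a30 b10 b20 b30 : M32 k} {a21 a31 a32 b21 b31 b32 : M3 k}
    {w w' : Fin 2 → k} {p t p' t' : Fin 3 → k}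
    (h : G a10 a20 a30 a21 a31 a32 w p t = G b10 b20 b30 b21 b31 b32 w' p' t') :
    a10 = b10 ∧ a20 = b20 ∧ a30 = b30 ∧ a21 = b21 ∧ a31 = b31 ∧ a32 = b32 ∧ w = w' ∧ p = p' ∧
      t = t' := by
  have H := fun i j => congrFun (congrFun h i) j
  refine ⟨?_, ?_, ?_, ?_, ?_, ?_, ?_, ?_, ?_⟩
  · ext i j
    exact H (.inr (.inl i)) (.inl j)
  · ext i j
    exact H (.inr (.inr (.inl i))) (.inl j)
  · ext i j
    exact H (.inr (.inr (.inr (.inl i)))) (.inl j)
  · ext i j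
    exact H (.inr (.inr (.inl i))) (.inr (.inl j))
  · ext i j
    exact H (.inr (.inr (.inr (.inl i)))) (.inr (.inl j))
  · ext i j
    exact H (.inr (.inr (.inr (.inl i)))) (.inr (.inr (.inl j)))
  · ext j
    exact H (.inr (.inr (.inr (.inr ())))) (.inl j)
  · ext j
    exact H (.inr (.inr (.inr (.inr ())))) (.inr (.inl j))
  · ext i
    exact H (.inr (.inr (.inr (.inl i)))) (.inr (.inr (.inr (.inr ()))))

theorem G_ext {a10 a20 a30 b10 b20 b30 : M32 k} {a21 a31 a32 b21 b31 b32 : M3 k}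
    {w w' : Fin 2 → k} {p t p' t' : Fin 3 → k}
    (h1 : a10 = b10) (h2 : a20 = b20) (h3 : a30 = b30) (h4 : a21 = b21) (h5 : a31 = b31)
    (h6 : a32 = b32) (h7 : w = w') (h8 : p = p') (h9 : t = t') :
    G a10 a20 a30 a21 a31 a32 w p t = G b10 b20 b30 b21 b31 b32 w' p' t' := by
  rw [h1, h2, h3, h4, h5, h6, h7, h8, h9]

theorem G_nil (a10 a20 a30 : M32 k) (a21 a31 a32 : M3 k) (w : Fin 2 → k) (p t : Fin 3 → k) :
    IsNilpotent (G a10 a20 a30 a21 a31 a32 w p t) := by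
  refine ⟨4, ?_⟩
  rw [show (4 : ℕ) = 2 + 2 from rfl, pow_add, pow_two, G_mul, G_mul]
  simp [G_zero]

/-- the matrices which raise the level -/
def Tt (ι : M32 k) (P Q : M3 k) (R : M32 k) (w : Fin 2 → k) (p t : Fin 3 → k) :
    Matrix I5 I5 k := G (P * ι) (Q * ι) R P Q P w p t

theorem T_mul (ι : M32 k) (P Q P' Q' : M3 k) (R R' : M32 k) (w w' : Fin 2 → k)
    (p t p' t' : Fin 3 → k) :
    Tt ι P Q R w p t * Tt ι P' Q' R' w' p' t' =
      G 0 (P * P' * ι) ((Q * P' + P * Q') * ι + vecMulVec t w') 0 (P * P' + vecMulVec t p') 0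
        (p ᵥ* (P' * ι)) 0 0 := by
  unfold Tt
  rw [G_mul]
  refine G_ext rfl ?_ ?_ rfl rfl rfl rfl rfl rfl
  · rw [Matrix.mul_assoc]
  · rw [Matrix.add_mul, Matrix.mul_assoc, Matrix.mul_assoc]

theorem T_add (ι : M32 k) (P Q P' Q' : M3 k) (R R' : M32 k) (w w' : Fin 2 → k)
    (p t p' t' : Fin 3 → k) :
    Tt ι P Q R w p t + Tt ι P' Q' R' w' p' t' =
      Tt ι (P + P') (Q + Q') (R + R') (w + w') (p + p') (t + t') := by
  unfold Tt
  rw [G_add, Matrix.add_mul, Matrix.add_mul]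

theorem T_smul (ι : M32 k) (s : k) (P Q : M3 k) (R : M32 k) (w : Fin 2 → k) (p t : Fin 3 → k) :
    s • Tt ι P Q R w p t = Tt ι (s • P) (s • Q) (s • R) (s • w) (s • p) (s • t) := by
  unfold Tt
  rw [G_smul, Matrix.smul_mul, Matrix.smul_mul]

theorem T_zero (ι : M32 k) : Tt ι 0 0 0 0 0 0 = 0 := by
  unfold Tt
  rw [Matrix.zero_mul, G_zero]

theorem T_nil (ι : M32 k) (P Q : M3 k) (R : M32 k) (w : Fin 2 → k) (p t : Fin 3 → k) :
    IsNilpotent (Tt ι P Q R w p t) := G_nil ..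

theorem T_comm_iff {ι : M32 k} {P Q P' Q' : M3 k} {R R' : M32 k} {w w' : Fin 2 → k}
    {p t p' t' : Fin 3 → k} :
    Tt ι P Q R w p t * Tt ι P' Q' R' w' p' t' = Tt ι P' Q' R' w' p' t' * Tt ι P Q R w p t ↔
      P * P' + vecMulVec t p' = P' * P + vecMulVec t' p ∧ P * P' * ι = P' * P * ι ∧
      (Q * P' + P * Q') * ι + vecMulVec t w' = (Q' * P + P' * Q) * ι + vecMulVec t' w ∧
      p ᵥ* (P' * ι) = p' ᵥ* (P * ι) := by
  rw [T_mul, T_mul]
  constructor
  · intro h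
    obtain ⟨-, h1, h2, -, h3, -, h4, -, -⟩ := G_inj h
    exact ⟨h3, h1, h2, h4⟩
  · rintro ⟨h1, h2, h3, h4⟩
    rw [h1, h2, h3, h4]

/-- the first matrix -/
abbrev A5 (ι : M32 k) : Matrix I5 I5 k := Tt ι 1 0 0 0 0 0

theorem A5_comm {ι : M32 k} (P Q : M3 k) (R : M32 k) (w : Fin 2 → k) {p : Fin 3 → k}
    (hp : p ᵥ* ι = 0) (t : Fin 3 → k) :
    A5 ι * Tt ι P Q R w p t = Tt ι P Q R w p t * A5 ι := by
  rw [T_comm_iff]
  refine ⟨?_, ?_, ?_, ?_⟩ <;> ext <;> simp [hp, vecMulVec_apply]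

/-- commuting triples without the coefficients `p` -/
theorem cnT {ι : M32 k} {P Q P' Q' : M3 k} {R R' : M32 k} {w w' : Fin 2 → k} {t t' : Fin 3 → k}
    (h1 : P * P' = P' * P)
    (h2 : (Q * P' + P * Q') * ι + vecMulVec t w' = (Q' * P + P' * Q) * ι + vecMulVec t' w) :
    CN ![A5 ι, Tt ι P Q R w 0 t, Tt ι P' Q' R' w' 0 t'] :=
  cn3 (A5_comm _ _ _ _ (by simp) _) (A5_comm _ _ _ _ (by simp) _)
    (T_comm_iff.2 ⟨by rw [vecMulVec_zero, vecMulVec_zero, h1], by rw [h1], h2, by simp⟩)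
    (T_nil ..) (T_nil ..) (T_nil ..)

variable {ρ : ℕ → ℕ}

theorem max_rel {ι : M32 k} {P Q P' Q' : M3 k} {R R' : M32 k} {w w' : Fin 2 → k}
    {t t' : Fin 3 → k}
    (hT : MaxR ρ ![A5 ι, Tt ι P Q R w 0 t, Tt ι P' Q' R' w' 0 t']) :
    P * P' = P' * P ∧
      (Q * P' + P * Q') * ι + vecMulVec t w' = (Q' * P + P' * Q) * ι + vecMulVec t' w := by
  obtain ⟨h1, -, h2, -⟩ := T_comm_iff.1 (hT.cn.1 1 2)
  refine ⟨?_, h2⟩
  rwa [vecMulVec_zero, vecMulVec_zero, add_zero, add_zero] at h1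

/-! ### block diagonal changes of basis -/

/-- `h` on level 0, `g` on the levels 1, 2, 3 -/
def Dg (h : M2 k) (g : M3 k) : Matrix I5 I5 k :=
  Matrix.of fun i j => match i, j with
  | .inl i, .inl j => h i j
  | .inr (.inl i), .inr (.inl j) => g i j
  | .inr (.inr (.inl i)), .inr (.inr (.inl j)) => g i j
  | .inr (.inr (.inr (.inl i))), .inr (.inr (.inr (.inl j))) => g i j
  | .inr (.inr (.inr (.inr _))), .inr (.inr (.inr (.inr _))) => 1
  | _, _ => 0

section evalD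

variable (h : M2 k) (g : M3 k)

theorem D_00 (i : Fin 2) (j : Fin 2) : Dg h g (.inl i) (.inl j) = h i j := rfl

theorem D_01 (i : Fin 2) (j : Fin 3) : Dg h g (.inl i) (.inr (.inl j)) = 0 := rfl

theorem D_02 (i : Fin 2) (j : Fin 3) : Dg h g (.inl i) (.inr (.inr (.inl j))) = 0 := rfl

theorem D_03 (i : Fin 2) (j : Fin 3) : Dg h g (.inl i) (.inr (.inr (.inr (.inl j)))) = 0 := rfl

theorem D_04 (i : Fin 2) (j : Unit) : Dg h g (.inl i) (.inr (.inr (.inr (.inr j)))) = 0 := rfl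

theorem D_10 (i : Fin 3) (j : Fin 2) : Dg h g (.inr (.inl i)) (.inl j) = 0 := rfl

theorem D_11 (i : Fin 3) (j : Fin 3) : Dg h g (.inr (.inl i)) (.inr (.inl j)) = g i j := rfl

theorem D_12 (i : Fin 3) (j : Fin 3) : Dg h g (.inr (.inl i)) (.inr (.inr (.inl j))) = 0 := rfl

theorem D_13 (i : Fin 3) (j : Fin 3) : Dg h g (.inr (.inl i)) (.inr (.inr (.inr (.inl j)))) = 0 := rfl

theorem D_14 (i : Fin 3) (j : Unit) : Dg h g (.inr (.inl i)) (.inr (.inr (.inr (.inr j)))) = 0 := rfl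

theorem D_20 (i : Fin 3) (j : Fin 2) : Dg h g (.inr (.inr (.inl i))) (.inl j) = 0 := rfl

theorem D_21 (i : Fin 3) (j : Fin 3) : Dg h g (.inr (.inr (.inl i))) (.inr (.inl j)) = 0 := rfl

theorem D_22 (i : Fin 3) (j : Fin 3) : Dg h g (.inr (.inr (.inl i))) (.inr (.inr (.inl j))) = g i j := rfl

theorem D_23 (i : Fin 3) (j : Fin 3) : Dg h g (.inr (.inr (.inl i))) (.inr (.inr (.inr (.inl j)))) = 0 := rfl

theorem D_24 (i : Fin 3) (j : Unit) : Dg h g (.inr (.inr (.inl i))) (.inr (.inr (.inr (.inr j)))) = 0 := rfl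

theorem D_30 (i : Fin 3) (j : Fin 2) : Dg h g (.inr (.inr (.inr (.inl i)))) (.inl j) = 0 := rfl

theorem D_31 (i : Fin 3) (j : Fin 3) : Dg h g (.inr (.inr (.inr (.inl i)))) (.inr (.inl j)) = 0 := rfl

theorem D_32 (i : Fin 3) (j : Fin 3) : Dg h g (.inr (.inr (.inr (.inl i)))) (.inr (.inr (.inl j))) = 0 := rfl

theorem D_33 (i : Fin 3) (j : Fin 3) : Dg h g (.inr (.inr (.inr (.inl i)))) (.inr (.inr (.inr (.inl j)))) = g i j := rfl

theorem D_34 (i : Fin 3) (j : Unit) : Dg h g (.inr (.inr (.inr (.inl i)))) (.inr (.inr (.inr (.inr j)))) = 0 := rfl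

theorem D_40 (i : Unit) (j : Fin 2) : Dg h g (.inr (.inr (.inr (.inr i)))) (.inl j) = 0 := rfl

theorem D_41 (i : Unit) (j : Fin 3) : Dg h g (.inr (.inr (.inr (.inr i)))) (.inr (.inl j)) = 0 := rfl

theorem D_42 (i : Unit) (j : Fin 3) : Dg h g (.inr (.inr (.inr (.inr i)))) (.inr (.inr (.inl j))) = 0 := rfl

theorem D_43 (i : Unit) (j : Fin 3) : Dg h g (.inr (.inr (.inr (.inr i)))) (.inr (.inr (.inr (.inl j)))) = 0 := rfl

theorem D_44 (i : Unit) (j : Unit) : Dg h g (.inr (.inr (.inr (.inr i)))) (.inr (.inr (.inr (.inr j)))) = 1 := rfl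

end evalD

theorem Dg_mul (h h' : M2 k) (g g' : M3 k) : Dg h g * Dg h' g' = Dg (h * h') (g * g') := by
  ext i j
  rcases i with i | i | i | i | i <;> rcases j with j | j | j | j | j <;>
    simp [D_00, D_01, D_02, D_03, D_04, D_10, D_11, D_12, D_13, D_14, D_20, D_21, D_22, D_23, D_24,
      D_30, D_31, D_32, D_33, D_34, D_40, D_41, D_42, D_43, D_44, Matrix.mul_apply,
      Fintype.sum_sum_type]

theorem Dg_one : Dg (1 : M2 k) (1 : M3 k) = 1 := by
  ext i j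
  rcases i with i | i | i | i | i <;> rcases j with j | j | j | j | j <;>
    simp [D_00, D_01, D_02, D_03, D_04, D_10, D_11, D_12, D_13, D_14, D_20, D_21, D_22, D_23, D_24,
      D_30, D_31, D_32, D_33, D_34, D_40, D_41, D_42, D_43, D_44, Matrix.one_apply]

theorem Dg_G (h : M2 k) (g : M3 k) (a10 a20 a30 : M32 k) (a21 a31 a32 : M3 k) (w : Fin 2 → k)
    (p t : Fin 3 → k) :
    Dg h g * G a10 a20 a30 a21 a31 a32 w p t =
      G (g * a10) (g * a20) (g * a30) (g * a21) (g * a31) (g * a32) w p (g *ᵥ t) := by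
  ext i j
  rcases i with i | i | i | i | i <;> rcases j with j | j | j | j | j <;>
    simp [D_00, D_01, D_02, D_03, D_04, D_10, D_11, D_12, D_13, D_14, D_20, D_21, D_22, D_23, D_24,
      D_30, D_31, D_32, D_33, D_34, D_40, D_41, D_42, D_43, D_44, G_00, G_01, G_02, G_03, G_04,
      G_10, G_11, G_12, G_13, G_14, G_20, G_21, G_22, G_23, G_24, G_30, G_31, G_32, G_33, G_34,
      G_40, G_41, G_42, G_43, G_44, Matrix.mul_apply, Fintype.sum_sum_type, mulVec, dotProduct]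

theorem G_Dg (h : M2 k) (g : M3 k) (a10 a20 a30 : M32 k) (a21 a31 a32 : M3 k) (w : Fin 2 → k)
    (p t : Fin 3 → k) :
    G a10 a20 a30 a21 a31 a32 w p t * Dg h g =
      G (a10 * h) (a20 * h) (a30 * h) (a21 * g) (a31 * g) (a32 * g) (w ᵥ* h) (p ᵥ* g) t := by
  ext i j
  rcases i with i | i | i | i | i <;> rcases j with j | j | j | j | j <;>
    simp [D_00, D_01, D_02, D_03, D_04, D_10, D_11, D_12, D_13, D_14, D_20, D_21, D_22, D_23, D_24,
      D_30, D_31, D_32, D_33, D_34, D_40, D_41, D_42, D_43, D_44, G_00, G_01, G_02, G_03, G_04,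
      G_10, G_11, G_12, G_13, G_14, G_20, G_21, G_22, G_23, G_24, G_30, G_31, G_32, G_33, G_34,
      G_40, G_41, G_42, G_43, G_44, Matrix.mul_apply, Fintype.sum_sum_type, vecMul, dotProduct]

theorem conjT {h h' : M2 k} {g g' : M3 k} (hg : g' * g = 1)
    (ι : M32 k) (P Q : M3 k) (R : M32 k) (w : Fin 2 → k) (p t : Fin 3 → k) :
    Dg h g * Tt ι P Q R w p t * Dg h' g' =
      Tt (g * ι * h') (g * P * g') (g * Q * g') (g * R * h') (w ᵥ* h') (p ᵥ* g') (g *ᵥ t) := by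
  unfold Tt
  rw [Dg_G, G_Dg]
  have e : ∀ X : M3 k, g * (X * ι) * h' = g * X * g' * (g * ι * h') := by
    intro X
    calc g * (X * ι) * h' = g * X * 1 * ι * h' := by simp only [Matrix.mul_assoc, Matrix.one_mul]
      _ = g * X * (g' * g) * ι * h' := by rw [hg]
      _ = g * X * g' * (g * ι * h') := by simp only [Matrix.mul_assoc]
  rw [e, e]

theorem max_conj {h h' : M2 k} {g g' : M3 k} (hh : h * h' = 1)
    (hg : g * g' = 1) {ι : M32 k} {P Q P' Q' : M3 k} {R R' : M32 k} {w w' : Fin 2 → k}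
    {p p' t t' : Fin 3 → k}
    (hT : MaxR ρ ![A5 ι, Tt ι P Q R w p t, Tt ι P' Q' R' w' p' t']) :
    MaxR ρ ![A5 (g * ι * h'),
      Tt (g * ι * h') (g * P * g') (g * Q * g') (g * R * h') (w ᵥ* h') (p ᵥ* g') (g *ᵥ t),
      Tt (g * ι * h') (g * P' * g') (g * Q' * g') (g * R' * h') (w' ᵥ* h') (p' ᵥ* g')
        (g *ᵥ t')] := by
  have hg' : g' * g = 1 := mul_eq_one_comm.1 hg
  have hh' : h' * h = 1 := mul_eq_one_comm.1 hh
  have h1 := hT.conj (Dg h g) (Dg h' g') (by rw [Dg_mul, hh, hg, Dg_one])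
    (by rw [Dg_mul, hh', hg', Dg_one])
  have h2 : (fun i => Dg h g * (![A5 ι, Tt ι P Q R w p t, Tt ι P' Q' R' w' p' t'] :
      Fin 3 → Matrix I5 I5 k) i * Dg h' g') =
      ![A5 (g * ι * h'),
      Tt (g * ι * h') (g * P * g') (g * Q * g') (g * R * h') (w ᵥ* h') (p ᵥ* g') (g *ᵥ t),
      Tt (g * ι * h') (g * P' * g') (g * Q' * g') (g * R' * h') (w' ᵥ* h') (p' ᵥ* g')
        (g *ᵥ t')] := by
    funext i
    fin_cases i
    · refine (conjT hg' ι 1 0 0 0 0 0).trans ?_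
      change _ = Tt _ _ _ _ _ _ _
      congr 1
      · rw [mul_one, hg]
      · rw [mul_zero, zero_mul]
      · rw [Matrix.mul_zero, Matrix.zero_mul]
      · rw [Matrix.zero_vecMul]
      · rw [Matrix.zero_vecMul]
      · rw [Matrix.mulVec_zero]
    · exact conjT hg' ..
    · exact conjT hg' ..
  rwa [h2] at h1

/-! ### changes of the generators -/

theorem max_lin (a b c d x y z u : k) (hd : a * d - b * c ≠ 0)
    {ι : M32 k} {P Q P' Q' : M3 k} {R R' : M32 k} {w w' : Fin 2 → k} {p p' t t' : Fin 3 → k}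
    (hT : MaxR ρ ![A5 ι, Tt ι P Q R w p t, Tt ι P' Q' R' w' p' t']) :
    MaxR ρ ![A5 ι,
      Tt ι (a • P + b • P' + x • 1) (a • Q + b • Q' + y • 1) (a • R + b • R') (a • w + b • w')
        (a • p + b • p') (a • t + b • t'),
      Tt ι (c • P + d • P' + z • 1) (c • Q + d • Q' + u • 1) (c • R + d • R') (c • w + d • w')
        (c • p + d • p') (c • t + d • t')] := by
  have h := MaxR.lin hT a b c d x y z u hd
  have e0 : A5 ι * A5 ι = Tt ι 0 1 0 0 0 0 := by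
    rw [T_mul]
    unfold Tt
    refine G_ext ?_ ?_ ?_ ?_ ?_ ?_ ?_ ?_ ?_ <;> simp
  have e : ∀ a b x y : k, a • Tt ι P Q R w p t + b • Tt ι P' Q' R' w' p' t' + x • A5 ι +
      y • (A5 ι * A5 ι) =
      Tt ι (a • P + b • P' + x • 1) (a • Q + b • Q' + y • 1) (a • R + b • R') (a • w + b • w')
        (a • p + b • p') (a • t + b • t') := by
    intro a b x y
    rw [e0, T_smul, T_smul, T_smul, T_smul, T_add, T_add, T_add]
    congr 1 <;> simp
  rw [e, e] at h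
  exact h

/-- linear families -/
theorem max_line [Infinite k] {ι : M32 k} {P Q P' Q' : M3 k} {R R' : M32 k} {w w' : Fin 2 → k}
    {t t' : Fin 3 → k}
    (hT : MaxR ρ ![A5 ι, Tt ι P Q R w 0 t, Tt ι P' Q' R' w' 0 t']) (P1 Q1 P1' Q1' : M3 k)
    (h1 : ∀ s : k, (P + s • P1) * (P' + s • P1') = (P' + s • P1') * (P + s • P1))
    (h2 : ∀ s : k, ((Q + s • Q1) * (P' + s • P1') + (P + s • P1) * (Q' + s • Q1')) * ι
        + vecMulVec t w' =
      ((Q' + s • Q1') * (P + s • P1) + (P' + s • P1') * (Q + s • Q1)) * ι + vecMulVec t' w)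
    {F : Set k} (hF : F.Finite) :
    ∃ s, s ∉ F ∧ MaxR ρ ![A5 ι, Tt ι (P + s • P1) (Q + s • Q1) R w 0 t,
      Tt ι (P' + s • P1') (Q' + s • Q1') R' w' 0 t'] := by
  have e : ∀ (s : k) (P Q P1 Q1 : M3 k) (R : M32 k) (w : Fin 2 → k) (t : Fin 3 → k),
      Tt ι P Q R w 0 t + s • Tt ι P1 Q1 0 0 0 0 = Tt ι (P + s • P1) (Q + s • Q1) R w 0 t := by
    intro s P Q P1 Q1 R w t
    rw [T_smul, T_add]
    congr 1 <;> simp
  obtain ⟨s, hs, h⟩ := MaxR.line2 hT (Tt ι P1 Q1 0 0 0 0) (Tt ι P1' Q1' 0 0 0 0) (fun s => by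
    rw [e, e]
    exact cnT (h1 s) (h2 s)) hF
  rw [e, e] at h
  exact ⟨s, hs, h⟩

end Pool.Agent.Lib.D13.P4431
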