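import Pool.Agent.Lib.D13.GenCnt
import Pool.Agent.Lib.D13.Jets
import Pool.Agent.Lib.D13.P4431a

/-!
# MP_5dcbc3_ag: type (4, 4, 3, 1), counting parameters of all commuting pairs
-/

set_option autoImplicit false

namespace Pool.Agent.Lib.D13.P4431

open Matrix Pool.Agent.Lib.Q5dc Pool.Agent.Lib.D7 Pool.Agent.Lib.D8 Pool.Agent.Lib.D9.T333Aux
  Pool.Agent.Lib.D13.JetsAux

namespace Cnt

theorem enat_sub {x : ℕ∞} {r N M : ℕ} (h : x + r ≤ N) (hM : N ≤ M + r) : x ≤ M := by
  have hx : x ≠ ⊤ := by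
    rintro rfl
    rw [top_add] at h
    exact absurd h (by simp)
  lift x to ℕ using hx
  norm_cast at h ⊢
  omega

variable {k K : Type*} [Field k] [Field K] [Algebra k K]


/-- the matrices with last row zero which commute with `P`, `P'` -/
def Kc (P P' : M3 K) : Submodule K (M3 K) where
  carrier := {Y | (∀ j, Y 2 j = 0) ∧ Y * P = P * Y ∧ Y * P' = P' * Y}
  zero_mem' := by simp
  add_mem' := by
    rintro Y Z ⟨h1, h2, h3⟩ ⟨h4, h5, h6⟩
    exact ⟨fun j => by rw [Matrix.add_apply, h1, h4, add_zero],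
      by rw [add_mul, mul_add, h2, h5], by rw [add_mul, mul_add, h3, h6]⟩
  smul_mem' := by
    rintro c Y ⟨h1, h2, h3⟩
    exact ⟨fun j => by rw [Matrix.smul_apply, h1, smul_zero],
      by rw [smul_mul_assoc, mul_smul_comm, h2], by rw [smul_mul_assoc, mul_smul_comm, h3]⟩

theorem mem_Kc {P P' Y : M3 K} :
    Y ∈ Kc P P' ↔ (∀ j, Y 2 j = 0) ∧ Y * P = P * Y ∧ Y * P' = P' * Y := Iff.rfl

/-- the matrix of the linear equations for `Q`, `Q'` -/
def AA (P P' : M3 K) : Matrix (Fin 3 × Fin 2) ((Fin 3 × Fin 3) ⊕ (Fin 3 × Fin 3)) K :=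
  Matrix.of fun x y => match y with
    | .inl y => (if x.1 = y.1 then P' y.2 x.2.castSucc else 0) -
        (if x.2.castSucc = y.2 then P' x.1 y.1 else 0)
    | .inr y => (if x.2.castSucc = y.2 then P x.1 y.1 else 0) -
        (if x.1 = y.1 then P y.2 x.2.castSucc else 0)

theorem AA_mulVec (P P' Q Q' : M3 K) (x : Fin 3 × Fin 2) :
    (AA P P' *ᵥ Sum.elim (fun y => Q y.1 y.2) fun y => Q' y.1 y.2) x =
      ((Q * P' + P * Q') - (Q' * P + P' * Q)) x.1 x.2.castSucc := by
  obtain ⟨i, j⟩ := x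
  fin_cases i <;> fin_cases j <;>
    simp [AA, mulVec, dotProduct, Fintype.sum_sum_type, Fintype.sum_prod_type,
      Fin.sum_univ_three, Matrix.mul_apply] <;> ring

/-- the matrix with last row zero -/
def Ym : (Fin 3 × Fin 2 → K) →ₗ[K] M3 K where
  toFun m := !![m (0, 0), m (1, 0), m (2, 0); m (0, 1), m (1, 1), m (2, 1); 0, 0, 0]
  map_add' m m' := by
    ext i j
    fin_cases i <;> fin_cases j <;> simp
  map_smul' c m := by
    ext i j
    fin_cases i <;> fin_cases j <;> simp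

theorem Ym_inj : Function.Injective (Ym (K := K)) := by
  intro m m' h
  have H := fun i j => congrFun (congrFun h i) j
  funext x
  obtain ⟨i, j⟩ := x
  fin_cases i <;> fin_cases j
  · exact H 0 0
  · exact H 1 0
  · exact H 0 1
  · exact H 1 1
  · exact H 0 2
  · exact H 1 2

theorem ker_AA {P P' : M3 K} {m : Fin 3 × Fin 2 → K} (h : (AA P P')ᵀ *ᵥ m = 0) :
    Ym m ∈ Kc P P' := by
  have H := fun y => congrFun h y
  refine ⟨fun j => by fin_cases j <;> rfl, ?_, ?_⟩
  · ext i j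
    have h1 := H (.inr (j, i))
    fin_cases i <;> fin_cases j <;>
      simp [AA, mulVec, dotProduct, Fintype.sum_prod_type, Fin.sum_univ_three, Ym,
        Matrix.mul_apply, sub_eq_zero] at h1 ⊢ <;> linear_combination h1
  · ext i j
    have h1 := H (.inl (j, i))
    fin_cases i <;> fin_cases j <;>
      simp [AA, mulVec, dotProduct, Fintype.sum_prod_type, Fin.sum_univ_three, Ym,
        Matrix.mul_apply, sub_eq_zero] at h1 ⊢ <;> linear_combination -h1

theorem rank_AA (P P' : M3 K) : 6 ≤ (AA P P').rank + Module.finrank K (Kc P P') := by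
  have h1 := LinearMap.finrank_range_add_finrank_ker (AA P P')ᵀ.mulVecLin
  rw [Module.finrank_fintype_fun_eq_card, Fintype.card_prod, Fintype.card_fin, Fintype.card_fin]
    at h1
  have h2 : Module.finrank K (LinearMap.ker (AA P P')ᵀ.mulVecLin) ≤
      Module.finrank K (Kc P P') := by
    let f : LinearMap.ker (AA P P')ᵀ.mulVecLin →ₗ[K] Kc P P' :=
      (Ym.comp (Submodule.subtype _)).codRestrict _ fun m => ker_AA (by
        have := m.2
        rwa [LinearMap.mem_ker, Matrix.mulVecLin_apply] at this)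
    refine LinearMap.finrank_le_finrank_of_injective (f := f) ?_
    intro a b hab
    have h3 := congrArg Subtype.val hab
    exact Subtype.ext (Ym_inj h3)
  have h3 : (AA P P').rank = Module.finrank K (LinearMap.range (AA P P')ᵀ.mulVecLin) := by
    rw [← Matrix.rank_transpose]
    rfl
  omega

/-! ### the upper levels -/

theorem mul_mem' {l m n : Type*} [Fintype m] {F : IntermediateField k K} {M : Matrix l m K}
    {N : Matrix m n K} (hM : ∀ i j, M i j ∈ F) (hN : ∀ i j, N i j ∈ F) (i : l) (j : n) :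
    (M * N) i j ∈ F := by
  rw [Matrix.mul_apply]
  exact sum_mem fun x _ => mul_mem (hM i x) (hN x j)

theorem io_mem (F : IntermediateField k K) (i : Fin 3) (j : Fin 2) :
    (!![1, 0; 0, 1; 0, 0] : Matrix (Fin 3) (Fin 2) K) i j ∈ F := by
  fin_cases i <;> fin_cases j <;> simp [one_mem, zero_mem]

theorem one_mem' (F : IntermediateField k K) (i j : Fin 3) :
    (1 : M3 K) i j ∈ F := by
  rw [Matrix.one_apply]
  split_ifs
  exacts [one_mem F, zero_mem F]

theorem G_mem {F : IntermediateField k K} {a10 a20 a30 : M32 K} {a21 a31 a32 : M3 K}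
    {w : Fin 2 → K} {p t : Fin 3 → K} (h1 : ∀ i j, a10 i j ∈ F) (h2 : ∀ i j, a20 i j ∈ F)
    (h3 : ∀ i j, a30 i j ∈ F) (h4 : ∀ i j, a21 i j ∈ F) (h5 : ∀ i j, a31 i j ∈ F)
    (h6 : ∀ i j, a32 i j ∈ F) (h7 : ∀ i, w i ∈ F) (h8 : ∀ i, p i ∈ F) (h9 : ∀ i, t i ∈ F)
    (x y : I5) : G a10 a20 a30 a21 a31 a32 w p t x y ∈ F := by
  rcases x with x | x | x | x | x <;> rcases y with y | y | y | y | y <;>
    first
    | exact zero_mem F
    | exact h1 x y
    | exact h2 x y
    | exact h3 x y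
    | exact h4 x y
    | exact h5 x y
    | exact h6 x y
    | exact h7 y
    | exact h8 y
    | exact h9 x

theorem T_mem {F : IntermediateField k K} {P Q : M3 K} {R : M32 K}
    {w : Fin 2 → K} {p t : Fin 3 → K} (h1 : ∀ i j, P i j ∈ F) (h2 : ∀ i j, Q i j ∈ F)
    (h3 : ∀ i j, R i j ∈ F) (h7 : ∀ i, w i ∈ F) (h8 : ∀ i, p i ∈ F) (h9 : ∀ i, t i ∈ F)
    (x y : I5) : Tt (!![1, 0; 0, 1; 0, 0] : Matrix (Fin 3) (Fin 2) K) P Q R w p t x y ∈ F :=
  G_mem (mul_mem' h1 (io_mem F)) (mul_mem' h2 (io_mem F)) h3 h1 h2 h1 h7 h8 h9 x y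

theorem count_upper {s : Set K} {a : ℕ} {P Q P' Q' : M3 K} {R R' : M32 K} {w w' : Fin 2 → K}
    {p p' t t' : Fin 3 → K} (hs : rk k s ≤ a) (h19 : a + Module.finrank K (Kc P P') ≤ 19)
    (hP : ∀ i j, P i j ∈ FF k s) (hP' : ∀ i j, P' i j ∈ FF k s) (hp : ∀ i, p i ∈ FF k s)
    (hp' : ∀ i, p' i ∈ FF k s) (ht : ∀ i, t i ∈ FF k s) (ht' : ∀ i, t' i ∈ FF k s)
    (hr : (Q * P' + P * Q') * (!![1, 0; 0, 1; 0, 0] : Matrix (Fin 3) (Fin 2) K) + vecMulVec t w' =
      (Q' * P + P' * Q) * (!![1, 0; 0, 1; 0, 0] : Matrix (Fin 3) (Fin 2) K) + vecMulVec t' w) :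
    rk k (Set.range (co ![A5 (!![1, 0; 0, 1; 0, 0] : Matrix (Fin 3) (Fin 2) K),
      Tt (!![1, 0; 0, 1; 0, 0] : Matrix (Fin 3) (Fin 2) K) P Q R w p t, Tt (!![1, 0; 0, 1; 0, 0] : Matrix (Fin 3) (Fin 2) K) P' Q' R' w' p' t'])) ≤
      (47 : ℕ) := by
  classical
  set u1 : Fin 2 ⊕ Fin 2 → K := Sum.elim w w' with hu1
  set v : (Fin 3 × Fin 3) ⊕ (Fin 3 × Fin 3) → K :=
    Sum.elim (fun y => Q y.1 y.2) fun y => Q' y.1 y.2 with hv
  set u2 : (Fin 3 × Fin 2) ⊕ (Fin 3 × Fin 2) → K :=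
    Sum.elim (fun y => R y.1 y.2) fun y => R' y.1 y.2 with hu2
  have e1 : rk k (s ∪ Set.range u1) ≤ (a + 4 : ℕ) := by
    refine (rk_le_add_card (k := k) u1 (subset_FF _)).trans ?_
    push_cast
    gcongr
    simp
  have m0 : FF k s ≤ FF k (s ∪ Set.range u1) := FF_mono Set.subset_union_left
  have hw : ∀ i, w i ∈ FF k (s ∪ Set.range u1) := fun i =>
    mem_FF_self (Or.inr ⟨Sum.inl i, rfl⟩)
  have hw' : ∀ i, w' i ∈ FF k (s ∪ Set.range u1) := fun i =>
    mem_FF_self (Or.inr ⟨Sum.inr i, rfl⟩)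
  have e2 := rk_linear (k := k) (t := s ∪ Set.range u1) (AA P P') v
    (by
      rintro ⟨i, j⟩ (y | y)
      · simp only [AA, Matrix.of_apply]
        refine sub_mem ?_ ?_ <;> split_ifs
        exacts [m0 (hP' _ _), zero_mem _, m0 (hP' _ _), zero_mem _]
      · simp only [AA, Matrix.of_apply]
        refine sub_mem ?_ ?_ <;> split_ifs
        exacts [m0 (hP _ _), zero_mem _, m0 (hP _ _), zero_mem _])
    (by
      intro x
      rw [hv, AA_mulVec]
      have h1 := congrFun (congrFun hr x.1) x.2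
      have h2 : ∀ M : M3 K, (M * (!![1, 0; 0, 1; 0, 0] : Matrix (Fin 3) (Fin 2) K)) x.1 x.2 =
          M x.1 x.2.castSucc := by
        intro M
        obtain ⟨i, j⟩ := x
        fin_cases j <;> simp [Matrix.mul_apply, Fin.sum_univ_three]
      rw [Matrix.add_apply, Matrix.add_apply, h2, h2, vecMulVec_apply, vecMulVec_apply] at h1
      have h3 : ((Q * P' + P * Q') - (Q' * P + P' * Q)) x.1 x.2.castSucc =
          t' x.1 * w x.2 - t x.1 * w' x.2 := by
        rw [Matrix.sub_apply]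
        linear_combination h1
      rw [h3]
      exact sub_mem (mul_mem (m0 (ht' _)) (hw _)) (mul_mem (m0 (ht _)) (hw' _)))
  have e3 : rk k (Set.range (co ![A5 (!![1, 0; 0, 1; 0, 0] : Matrix (Fin 3) (Fin 2) K),
      Tt (!![1, 0; 0, 1; 0, 0] : Matrix (Fin 3) (Fin 2) K) P Q R w p t, Tt (!![1, 0; 0, 1; 0, 0] : Matrix (Fin 3) (Fin 2) K) P' Q' R' w' p' t'])) ≤
      rk k (s ∪ Set.range u1 ∪ Set.range v) + Fintype.card ((Fin 3 × Fin 2) ⊕ (Fin 3 × Fin 2)) := by
    refine rk_le_add_card u2 ?_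
    have m1 : FF k (s ∪ Set.range u1) ≤ FF k (s ∪ Set.range u1 ∪ Set.range v ∪ Set.range u2) :=
      FF_mono (Set.subset_union_left.trans Set.subset_union_left)
    have m2 : ∀ i j, Q i j ∈ FF k (s ∪ Set.range u1 ∪ Set.range v ∪ Set.range u2) := fun i j =>
      mem_FF_self (Or.inl (Or.inr ⟨Sum.inl (i, j), rfl⟩))
    have m3 : ∀ i j, Q' i j ∈ FF k (s ∪ Set.range u1 ∪ Set.range v ∪ Set.range u2) := fun i j =>
      mem_FF_self (Or.inl (Or.inr ⟨Sum.inr (i, j), rfl⟩))
    have m4 : ∀ i j, R i j ∈ FF k (s ∪ Set.range u1 ∪ Set.range v ∪ Set.range u2) := fun i j =>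
      mem_FF_self (Or.inr ⟨Sum.inl (i, j), rfl⟩)
    have m5 : ∀ i j, R' i j ∈ FF k (s ∪ Set.range u1 ∪ Set.range v ∪ Set.range u2) := fun i j =>
      mem_FF_self (Or.inr ⟨Sum.inr (i, j), rfl⟩)
    rintro _ ⟨⟨i, x, y⟩, rfl⟩
    fin_cases i
    · exact T_mem (one_mem' _) (fun _ _ => zero_mem _) (fun _ _ => zero_mem _)
        (fun _ => zero_mem _) (fun _ => zero_mem _) (fun _ => zero_mem _) x y
    · exact T_mem (fun i j => m1 (m0 (hP i j))) m2 m4 (fun i => m1 (hw i))
        (fun i => m1 (m0 (hp i))) (fun i => m1 (m0 (ht i))) x y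
    · exact T_mem (fun i j => m1 (m0 (hP' i j))) m3 m5 (fun i => m1 (hw' i))
        (fun i => m1 (m0 (hp' i))) (fun i => m1 (m0 (ht' i))) x y
  have e4 := rank_AA P P'
  simp only [Fintype.card_sum, Fintype.card_prod, Fintype.card_fin] at e2 e3
  have e5 : rk k (s ∪ Set.range u1 ∪ Set.range v) + ((AA P P').rank : ℕ) ≤ (a + 22 : ℕ) := by
    refine e2.trans ?_
    refine (add_le_add_left e1 _).trans ?_
    norm_cast
  have e6 : rk k (s ∪ Set.range u1 ∪ Set.range v) ≤ ((a + 22 - (AA P P').rank : ℕ) : ℕ∞) :=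
    enat_sub e5 (by omega)
  refine e3.trans ((add_le_add_left e6 _).trans ?_)
  norm_cast
  omega

/-! ### bounds for `Kc` -/

theorem Kc_le_six (P P' : M3 K) : Module.finrank K (Kc P P') ≤ 6 := by
  let f : Kc P P' →ₗ[K] (Fin 2 × Fin 3 → K) :=
    { toFun := fun Y x => Y.1 x.1.castSucc x.2
      map_add' := fun _ _ => rfl
      map_smul' := fun _ _ => rfl }
  have h := LinearMap.finrank_le_finrank_of_injective (f := f) (by
    rw [injective_iff_map_eq_zero]
    intro Y hY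
    have H := fun x => congrFun hY x
    ext i j
    fin_cases i
    · exact H (0, j)
    · exact H (1, j)
    · exact Y.2.1 j)
  simpa using h

theorem Kc_mono {P P' Z Z' : M3 K}
    (h : ∀ Y : M3 K, Y * P = P * Y → Y * P' = P' * Y → Y * Z = Z * Y ∧ Y * Z' = Z' * Y) :
    Module.finrank K (Kc P P') ≤ Module.finrank K (Kc Z Z') :=
  Submodule.finrank_mono fun Y hY => ⟨hY.1, h Y hY.2.1 hY.2.2⟩

theorem Kc_swap (P P' : M3 K) : Module.finrank K (Kc P P') = Module.finrank K (Kc P' P) :=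
  le_antisymm (Kc_mono fun _ h1 h2 => ⟨h2, h1⟩) (Kc_mono fun _ h1 h2 => ⟨h2, h1⟩)

/-- the last row of `P` is not an eigen covector -/
theorem Kc_le_three {P P' : M3 K} (h : P 2 0 ≠ 0 ∨ P 2 1 ≠ 0) :
    Module.finrank K (Kc P P') ≤ 3 := by
  have key : ∀ (Y : M3 K), Y ∈ Kc P P' → ∀ x, P 2 0 * Y 0 x + P 2 1 * Y 1 x = 0 := by
    intro Y hY x
    have h3 := congrFun (congrFun hY.2.1 2) x
    rw [Matrix.mul_apply, Matrix.mul_apply] at h3
    simp only [Fin.sum_univ_three, hY.1] at h3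
    linear_combination -h3
  let f (j : Fin 3) : Kc P P' →ₗ[K] (Fin 3 → K) :=
    { toFun := fun Y x => Y.1 j x
      map_add' := fun _ _ => rfl
      map_smul' := fun _ _ => rfl }
  rcases h with h | h
  · have h := LinearMap.finrank_le_finrank_of_injective (f := f 1) (by
      rw [injective_iff_map_eq_zero]
      intro Y hY
      have H : ∀ x, Y.1 1 x = 0 := fun x => congrFun hY x
      have h2 : ∀ x, Y.1 0 x = 0 := by
        intro x
        have h3 := key Y.1 Y.2 x
        rw [H, mul_zero, add_zero] at h3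
        exact (mul_eq_zero.1 h3).resolve_left h
      ext a b
      fin_cases a
      exacts [h2 b, H b, Y.2.1 b])
    simpa using h
  · have h := LinearMap.finrank_le_finrank_of_injective (f := f 0) (by
      rw [injective_iff_map_eq_zero]
      intro Y hY
      have H : ∀ x, Y.1 0 x = 0 := fun x => congrFun hY x
      have h2 : ∀ x, Y.1 1 x = 0 := by
        intro x
        have h3 := key Y.1 Y.2 x
        rw [H, mul_zero, zero_add] at h3
        exact (mul_eq_zero.1 h3).resolve_left h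
      ext a b
      fin_cases a
      exacts [H b, h2 b, Y.2.1 b])
    simpa using h

/-! ### a matrix with a cyclic vector -/

theorem D3_cramer (a b c x : Fin 3 → K) :
    D3 a b c • x = D3 x b c • a + D3 a x c • b + D3 a b x • c := by
  ext i
  fin_cases i <;> simp [D3] <;> ring

theorem comm_zero {P Y : M3 K} {v : Fin 3 → K} (hv : Cyc P v) (h : Y * P = P * Y)
    (h0 : Y *ᵥ v = 0) : Y = 0 := by
  have h1 : Y *ᵥ (P *ᵥ v) = 0 := by
    rw [Matrix.mulVec_mulVec, h, ← Matrix.mulVec_mulVec, h0, Matrix.mulVec_zero]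
  have h2 : Y *ᵥ (P *ᵥ (P *ᵥ v)) = 0 := by
    rw [Matrix.mulVec_mulVec, h, ← Matrix.mulVec_mulVec, h1, Matrix.mulVec_zero]
  have h3 : ∀ x, Y *ᵥ x = 0 := by
    intro x
    have h4 := congrArg (Y *ᵥ ·) (D3_cramer v (P *ᵥ v) (P *ᵥ (P *ᵥ v)) x)
    simp only [Matrix.mulVec_smul, Matrix.mulVec_add, h0, h1, h2, smul_zero, add_zero] at h4
    exact (smul_eq_zero.1 h4).resolve_left hv
  ext i j
  have := congrFun (h3 (Pi.single j 1)) i
  simpa using this

/-- the commutant of a matrix with a cyclic vector -/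
theorem comm_poly {P Y : M3 K} {v : Fin 3 → K} (hv : Cyc P v) (h : Y * P = P * Y) :
    D3 v (P *ᵥ v) (P *ᵥ (P *ᵥ v)) • Y = D3 (Y *ᵥ v) (P *ᵥ v) (P *ᵥ (P *ᵥ v)) • (1 : M3 K) +
      D3 v (Y *ᵥ v) (P *ᵥ (P *ᵥ v)) • P + D3 v (P *ᵥ v) (Y *ᵥ v) • (P * P) := by
  rw [← sub_eq_zero]
  refine comm_zero hv ?_ ?_
  · simp only [sub_mul, mul_sub, add_mul, mul_add, smul_mul_assoc, mul_smul_comm, one_mul,
      mul_one, h, mul_assoc]
  · rw [Matrix.sub_mulVec, Matrix.add_mulVec, Matrix.add_mulVec, Matrix.smul_mulVec,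
      Matrix.smul_mulVec, Matrix.smul_mulVec, Matrix.smul_mulVec, Matrix.one_mulVec,
      ← Matrix.mulVec_mulVec, ← D3_cramer, sub_self]

theorem Kc_le_one {P P' : M3 K} {v : Fin 3 → K} (hv : Cyc P v) (h : P 2 0 ≠ 0 ∨ P 2 1 ≠ 0) :
    Module.finrank K (Kc P P') ≤ 1 := by
  let f : Kc P P' →ₗ[K] K :=
    { toFun := fun Y => D3 v (P *ᵥ v) (Y.1 *ᵥ v)
      map_add' := fun Y Z => by
        rw [show ((Y + Z : Kc P P').1 *ᵥ v) = Y.1 *ᵥ v + Z.1 *ᵥ v from Matrix.add_mulVec ..]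
        simp only [D3, Pi.add_apply]
        ring
      map_smul' := fun c Y => by
        rw [show ((c • Y : Kc P P').1 *ᵥ v) = c • (Y.1 *ᵥ v) from Matrix.smul_mulVec ..]
        simp only [D3, Pi.smul_apply, smul_eq_mul, RingHom.id_apply]
        ring }
  have h := LinearMap.finrank_le_finrank_of_injective (f := f) (by
    rw [injective_iff_map_eq_zero]
    intro Y hY
    have hY' : D3 v (P *ᵥ v) (Y.1 *ᵥ v) = 0 := hY
    have h1 := comm_poly hv Y.2.2.1
    rw [hY', zero_smul, add_zero] at h1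
    have hv' : D3 v (P *ᵥ v) (P *ᵥ (P *ᵥ v)) ≠ 0 := hv
    generalize D3 v (P *ᵥ v) (P *ᵥ (P *ᵥ v)) = δ at h1 hv'
    generalize D3 (Y.1 *ᵥ v) (P *ᵥ v) (P *ᵥ (P *ᵥ v)) = α at h1
    generalize D3 v (Y.1 *ᵥ v) (P *ᵥ (P *ᵥ v)) = β at h1
    have H := fun i j => congrFun (congrFun h1 i) j
    have e0 := H 2 0
    have e1 := H 2 1
    have e2 := H 2 2
    simp only [Matrix.smul_apply, Matrix.add_apply, Y.2.1, smul_eq_mul,
      mul_zero] at e0 e1 e2
    simp at e0 e1 e2
    have h2 : β = 0 := by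
      rcases h with h | h
      · exact e0.resolve_right h
      · exact e1.resolve_right h
    rw [h2, zero_mul, add_zero] at e2
    rw [h2, e2.symm, zero_smul, zero_smul, add_zero] at h1
    exact Subtype.ext ((smul_eq_zero.1 h1).resolve_left hv'))
  simpa using h

/-! ### counting parameters of pairs -/

variable (k) in
/-- the entries of `P`, `P'` are algebraic over at most `N` minus the dimension of `Kc` elements -/
def Bd (P P' : M3 K) (N : ℕ) : Prop :=
  ∃ (s : Set K) (a : ℕ), (∀ i j, P i j ∈ FF k s) ∧ (∀ i j, P' i j ∈ FF k s) ∧ rk k s ≤ a ∧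
    a + Module.finrank K (Kc P P') ≤ N

theorem Bd.swap {P P' : M3 K} {N : ℕ} (h : Bd k P P' N) : Bd k P' P N := by
  obtain ⟨s, a, h1, h2, h3, h4⟩ := h
  exact ⟨s, a, h2, h1, h3, by rwa [Kc_swap]⟩

theorem bd_of {P P' : M3 K} {ι : Type*} [Fintype ι] {n b N : ℕ} (u : ι → K)
    (hn : Fintype.card ι = n) (hb : Module.finrank K (Kc P P') ≤ b) (hN : n + b ≤ N)
    (h1 : ∀ i j, P i j ∈ FF k (Set.range u)) (h2 : ∀ i j, P' i j ∈ FF k (Set.range u)) :
    Bd k P P' N := by
  refine ⟨Set.range u, n, h1, h2, ?_, by omega⟩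
  refine (rk_le_card (k := k) u (subset_FF _)).trans ?_
  rw [hn]

theorem solve {ι : Type*} [Fintype ι] (E : IntermediateField k K) (w v : ι → K)
    (i₀ : ι) (h0 : w i₀ ≠ 0) (hw : ∀ i, w i ∈ E) (hv : ∀ i, i ≠ i₀ → v i ∈ E)
    (hs : ∑ i, w i * v i ∈ E) (i : ι) : v i ∈ E := by
  classical
  by_cases hi : i = i₀
  · subst hi
    rw [← Finset.add_sum_erase _ _ (Finset.mem_univ i)] at hs
    have h1 : ∑ j ∈ Finset.univ.erase i, w j * v j ∈ E :=
      sum_mem fun j hj => mul_mem (hw j) (hv j (Finset.ne_of_mem_erase hj))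
    have h2 : w i * v i ∈ E := by
      have := sub_mem hs h1
      rwa [add_sub_cancel_right] at this
    have h3 : v i = (w i)⁻¹ * (w i * v i) := by field_simp
    rw [h3]
    exact mul_mem (inv_mem (hw i)) h2
  · exact hv i hi

theorem mem_rg {ι : Type*} (u : ι → K) (a : ι) : u a ∈ FF k (Set.range u) :=
  mem_FF_self ⟨a, rfl⟩

theorem sv_mem {E : IntermediateField k K} {l : K} {x y : Fin 3 → K} (hl : l ∈ E)
    (hx : ∀ i, x i ∈ E) (hy : ∀ i, y i ∈ E) (i j : Fin 3) :
    (l • (1 : M3 K) + vecMulVec x y) i j ∈ E := by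
  rw [Matrix.add_apply, Matrix.smul_apply, vecMulVec_apply, smul_eq_mul]
  exact add_mem (mul_mem hl (one_mem' E i j)) (mul_mem (hx i) (hy j))

/-- the case of a cyclic vector -/
theorem bd_cyc {P P' : M3 K} (h : P * P' = P' * P) {v : Fin 3 → K} (hv : Cyc P v)
    (hal : P 2 0 ≠ 0 ∨ P 2 1 ≠ 0) : Bd k P P' 13 := by
  have h1 := comm_poly hv h.symm
  have hv' : D3 v (P *ᵥ v) (P *ᵥ (P *ᵥ v)) ≠ 0 := hv
  generalize D3 v (P *ᵥ v) (P *ᵥ (P *ᵥ v)) = δ at h1 hv'
  generalize D3 (P' *ᵥ v) (P *ᵥ v) (P *ᵥ (P *ᵥ v)) = α at h1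
  generalize D3 v (P' *ᵥ v) (P *ᵥ (P *ᵥ v)) = β at h1
  generalize D3 v (P *ᵥ v) (P' *ᵥ v) = γ at h1
  have h2 : P' = (δ⁻¹ * α) • (1 : M3 K) + (δ⁻¹ * β) • P + (δ⁻¹ * γ) • (P * P) := by
    rw [mul_smul, mul_smul, mul_smul, ← smul_add, ← smul_add, ← h1, smul_smul,
      inv_mul_cancel₀ hv', one_smul]
  refine bd_of (ι := (Fin 3 × Fin 3) ⊕ Fin 3) (n := 12) (b := 1)
    (Sum.elim (fun x => P x.1 x.2) ![δ⁻¹ * α, δ⁻¹ * β, δ⁻¹ * γ]) rfl (Kc_le_one hv hal) le_rfl
    (fun i j => mem_FF_self ⟨Sum.inl (i, j), rfl⟩) fun i j => ?_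
  have hP : ∀ i j, P i j ∈ FF k (Set.range (Sum.elim (fun x : Fin 3 × Fin 3 => P x.1 x.2)
      ![δ⁻¹ * α, δ⁻¹ * β, δ⁻¹ * γ])) := fun i j => mem_FF_self ⟨Sum.inl (i, j), rfl⟩
  have hc : ∀ i, (![δ⁻¹ * α, δ⁻¹ * β, δ⁻¹ * γ] : Fin 3 → K) i ∈
      FF k (Set.range (Sum.elim (fun x : Fin 3 × Fin 3 => P x.1 x.2)
      ![δ⁻¹ * α, δ⁻¹ * β, δ⁻¹ * γ])) := fun i => mem_FF_self ⟨Sum.inr i, rfl⟩
  rw [h2]
  simp only [Matrix.add_apply, Matrix.smul_apply, smul_eq_mul]
  exact add_mem (add_mem (mul_mem (hc 0) (one_mem' _ i j)) (mul_mem (hc 1) (hP i j)))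
    (mul_mem (hc 2) (mul_mem' hP hP i j))

/-- one of the matrices is scalar -/
theorem bd_scal {l l' : K} {x' y' : Fin 3 → K} {b : ℕ}
    (hb : Module.finrank K (Kc (l • (1 : M3 K)) (l' • 1 + vecMulVec x' y')) ≤ b) (hb' : b ≤ 5) :
    Bd k (l • (1 : M3 K)) (l' • 1 + vecMulVec x' y') 13 := by
  let u : Fin 2 ⊕ (Fin 3 ⊕ Fin 3) → K := Sum.elim ![l, l'] (Sum.elim x' y')
  refine bd_of (n := 8) (b := b) u rfl hb (by omega) (fun i j => ?_) fun i j => ?_
  · rw [Matrix.smul_apply, smul_eq_mul]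
    exact mul_mem (mem_rg u (Sum.inl 0)) (one_mem' _ i j)
  · exact sv_mem (E := FF k (Set.range u)) (mem_rg u (Sum.inl 1))
      (fun i => mem_rg u (Sum.inr (Sum.inl i))) (fun i => mem_rg u (Sum.inr (Sum.inr i))) i j

/-- both matrices are scalar plus rank one -/
theorem bd_derog {P P' : M3 K} (h : P * P' = P' * P) {l l' : K} {x y x' y' : Fin 3 → K}
    (hP : P = l • (1 : M3 K) + vecMulVec x y) (hP' : P' = l' • (1 : M3 K) + vecMulVec x' y')
    (hb : Module.finrank K (Kc P P') ≤ 3) : Bd k P P' 13 := by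
  by_cases hx : x = 0
  · subst hx
    rw [zero_vecMulVec, add_zero] at hP
    subst hP hP'
    exact bd_scal hb (by norm_num)
  by_cases hy : y = 0
  · subst hy
    rw [vecMulVec_zero, add_zero] at hP
    subst hP hP'
    exact bd_scal hb (by norm_num)
  by_cases hx' : x' = 0
  · subst hx'
    rw [zero_vecMulVec, add_zero] at hP'
    subst hP hP'
    rw [Kc_swap] at hb
    exact (bd_scal hb (by norm_num)).swap
  by_cases hy' : y' = 0
  · subst hy'
    rw [vecMulVec_zero, add_zero] at hP'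
    subst hP hP'
    rw [Kc_swap] at hb
    exact (bd_scal hb (by norm_num)).swap
  have h1 : ∀ i j, (y ⬝ᵥ x') * (x i * y' j) = (y' ⬝ᵥ x) * (x' i * y j) := by
    rw [hP, hP'] at h
    simp only [add_mul, mul_add, smul_mul_assoc, mul_smul_comm, one_mul, mul_one,
      vecMulVec_mul_vecMulVec, smul_smul, smul_add, mul_comm l l'] at h
    intro i j
    have h2 := congrFun (congrFun h i) j
    simp only [Matrix.add_apply, Matrix.smul_apply, vecMulVec_apply, Pi.smul_apply,
      smul_eq_mul] at h2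
    linear_combination h2
  obtain ⟨i, hi⟩ := Function.ne_iff.1 hx
  obtain ⟨i', hi'⟩ := Function.ne_iff.1 hx'
  obtain ⟨j, hj⟩ := Function.ne_iff.1 hy
  obtain ⟨j', hj'⟩ := Function.ne_iff.1 hy'
  rw [Pi.zero_apply] at hi hi' hj hj'
  by_cases h0 : y ⬝ᵥ x' = 0
  · have h0' : y' ⬝ᵥ x = 0 := by
      have h2 := h1 i' j
      rw [h0, zero_mul] at h2
      exact (mul_eq_zero.1 h2.symm).resolve_right (mul_ne_zero hi' hj)
    -- the parameters
    let u : Fin 2 ⊕ ({a : Fin 3 // a ≠ i} ⊕ ({a : Fin 3 // a ≠ i'} ⊕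
        ({a : Fin 3 // a ≠ i'} ⊕ {a : Fin 3 // a ≠ i}))) → K :=
      Sum.elim ![l, l'] (Sum.elim (fun a => (x i)⁻¹ * x a) (Sum.elim (fun a => (x' i')⁻¹ * x' a)
        (Sum.elim (fun a => x i * y a) fun a => x' i' * y' a)))
    have m1 : ∀ a, (x i)⁻¹ * x a ∈ FF k (Set.range u) := by
      intro a
      by_cases ha : a = i
      · rw [ha, inv_mul_cancel₀ hi]
        exact one_mem _
      · exact mem_FF_self ⟨Sum.inr (Sum.inl ⟨a, ha⟩), rfl⟩
    have m2 : ∀ a, (x' i')⁻¹ * x' a ∈ FF k (Set.range u) := by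
      intro a
      by_cases ha : a = i'
      · rw [ha, inv_mul_cancel₀ hi']
        exact one_mem _
      · exact mem_FF_self ⟨Sum.inr (Sum.inr (Sum.inl ⟨a, ha⟩)), rfl⟩
    have m3 : ∀ a, x i * y a ∈ FF k (Set.range u) := by
      refine solve _ (fun a => (x' i')⁻¹ * x' a) (fun a => x i * y a) i'
        (by rw [inv_mul_cancel₀ hi']; exact one_ne_zero) m2
        (fun a ha => mem_FF_self ⟨Sum.inr (Sum.inr (Sum.inr (Sum.inl ⟨a, ha⟩))), rfl⟩) ?_
      have e : ∑ a, (x' i')⁻¹ * x' a * (x i * y a) = (x' i')⁻¹ * x i * (y ⬝ᵥ x') := by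
        rw [dotProduct, Finset.mul_sum]
        exact Finset.sum_congr rfl fun a _ => by ring
      rw [e, h0, mul_zero]
      exact zero_mem _
    have m4 : ∀ a, x' i' * y' a ∈ FF k (Set.range u) := by
      refine solve _ (fun a => (x i)⁻¹ * x a) (fun a => x' i' * y' a) i
        (by rw [inv_mul_cancel₀ hi]; exact one_ne_zero) m1
        (fun a ha => mem_FF_self ⟨Sum.inr (Sum.inr (Sum.inr (Sum.inr ⟨a, ha⟩))), rfl⟩) ?_
      have e : ∑ a, (x i)⁻¹ * x a * (x' i' * y' a) = (x i)⁻¹ * x' i' * (y' ⬝ᵥ x) := by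
        rw [dotProduct, Finset.mul_sum]
        exact Finset.sum_congr rfl fun a _ => by ring
      rw [e, h0', mul_zero]
      exact zero_mem _
    have c : ∀ i : Fin 3, Fintype.card {a : Fin 3 // a ≠ i} = 2 := by decide
    have hP2 : P = l • (1 : M3 K) + vecMulVec (fun a => (x i)⁻¹ * x a) fun a => x i * y a := by
      rw [hP]
      congr 1
      ext a b
      rw [vecMulVec_apply, vecMulVec_apply]
      field_simp
    have hP2' : P' = l' • (1 : M3 K) +
        vecMulVec (fun a => (x' i')⁻¹ * x' a) fun a => x' i' * y' a := by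
      rw [hP']
      congr 1
      ext a b
      rw [vecMulVec_apply, vecMulVec_apply]
      field_simp
    refine bd_of (n := 10) (b := 3) u (by simp [c]) hb le_rfl (fun a b => ?_) fun a b => ?_
    · rw [hP2]
      exact sv_mem (E := FF k (Set.range u)) (mem_rg u (Sum.inl 0)) m1 m3 a b
    · rw [hP2']
      exact sv_mem (E := FF k (Set.range u)) (mem_rg u (Sum.inl 1)) m2 m4 a b
  · set D := y ⬝ᵥ x' with hD
    set E := y' ⬝ᵥ x with hE
    have e1 : ∀ a, x a = (E * y j' / (D * y' j')) * x' a := by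
      intro a
      have h2 := h1 a j'
      field_simp
      linear_combination h2
    have e0 : E * y j' / (D * y' j') ≠ 0 := by
      intro h2
      apply hi
      rw [e1, h2, zero_mul]
    have e2 : ∀ b, y' b = (E * x' i / (D * x i)) * y b := by
      intro b
      have h2 := h1 i b
      field_simp
      linear_combination h2
    generalize E * y j' / (D * y' j') = r at e1 e0
    generalize E * x' i / (D * x i) = r' at e2
    have hP2' : P' = l' • (1 : M3 K) + (r⁻¹ * r') • vecMulVec x y := by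
      rw [hP']
      congr 1
      ext a b
      rw [Matrix.smul_apply, vecMulVec_apply, vecMulVec_apply, smul_eq_mul, e2, e1]
      field_simp
    let u : Fin 3 ⊕ (Fin 3 ⊕ Fin 3) → K := Sum.elim ![l, l', r⁻¹ * r'] (Sum.elim x y)
    refine bd_of (n := 9) (b := 3) u rfl hb (by norm_num) (fun a b => ?_) fun a b => ?_
    · rw [hP]
      exact sv_mem (E := FF k (Set.range u)) (mem_rg u (Sum.inl 0))
        (fun i => mem_rg u (Sum.inr (Sum.inl i))) (fun i => mem_rg u (Sum.inr (Sum.inr i))) a b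
    · rw [hP2', Matrix.add_apply, Matrix.smul_apply, Matrix.smul_apply, vecMulVec_apply,
        smul_eq_mul, smul_eq_mul]
      exact add_mem (mul_mem (mem_rg u (Sum.inl 1)) (one_mem' _ a b))
        (mul_mem (mem_rg u (Sum.inl 2)) (mul_mem
          (mem_rg u (Sum.inr (Sum.inl a))) (mem_rg u (Sum.inr (Sum.inr b)))))

/-! ### common eigen covector -/

theorem Kc_coord {P P' : M3 K} {n : ℕ} (c : Fin n → Fin 3 × Fin 3)
    (h : ∀ Y ∈ Kc P P', (∀ a, Y (c a).1 (c a).2 = 0) → Y = 0) :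
    Module.finrank K (Kc P P') ≤ n := by
  let f : Kc P P' →ₗ[K] (Fin n → K) :=
    { toFun := fun Y a => Y.1 (c a).1 (c a).2
      map_add' := fun _ _ => rfl
      map_smul' := fun _ _ => rfl }
  have h := LinearMap.finrank_le_finrank_of_injective (f := f) (by
    rw [injective_iff_map_eq_zero]
    intro Y hY
    exact Subtype.ext (h Y.1 Y.2 fun a => congrFun hY a))
  simpa using h

/-- the relations of an element of `Kc` -/
theorem Kc_rel {P P' Y : M3 K} (h0 : P 2 0 = 0) (h1 : P 2 1 = 0) (hY : Y ∈ Kc P P') :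
    Y 0 1 * P 1 0 = P 0 1 * Y 1 0 ∧
    Y 0 0 * P 0 1 + Y 0 1 * P 1 1 = P 0 0 * Y 0 1 + P 0 1 * Y 1 1 ∧
    Y 1 0 * P 0 0 + Y 1 1 * P 1 0 = P 1 0 * Y 0 0 + P 1 1 * Y 1 0 ∧
    Y 0 0 * P 0 2 + Y 0 1 * P 1 2 + Y 0 2 * P 2 2 = P 0 0 * Y 0 2 + P 0 1 * Y 1 2 ∧
    Y 1 0 * P 0 2 + Y 1 1 * P 1 2 + Y 1 2 * P 2 2 = P 1 0 * Y 0 2 + P 1 1 * Y 1 2 := by
  have H := fun i j => congrFun (congrFun hY.2.1 i) j
  simp only [Matrix.mul_apply, Fin.sum_univ_three] at H
  have r0 := hY.1 0
  have r1 := hY.1 1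
  have r2 := hY.1 2
  have a1 := H 0 0
  have a2 := H 0 1
  have a3 := H 1 0
  have a4 := H 0 2
  have a5 := H 1 2
  rw [r0, h0] at a1
  rw [r1, h1] at a2
  rw [r0, h0] at a3
  rw [r2] at a4 a5
  refine ⟨by linear_combination a1, by linear_combination a2, by linear_combination a3,
    by linear_combination a4, by linear_combination a5⟩

theorem Y_zero {Y : M3 K} (h00 : Y 0 0 = 0) (h01 : Y 0 1 = 0) (h02 : Y 0 2 = 0) (h10 : Y 1 0 = 0)
    (h11 : Y 1 1 = 0) (h12 : Y 1 2 = 0) (h : ∀ j, Y 2 j = 0) : Y = 0 := by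
  ext i j
  fin_cases i
  · fin_cases j
    exacts [h00, h01, h02]
  · fin_cases j
    exacts [h10, h11, h12]
  · exact h j

theorem Kc_tri3 {P P' : M3 K} (h0 : P 2 0 = 0) (h1 : P 2 1 = 0)
    (hs : P 0 1 ≠ 0 ∨ P 1 0 ≠ 0 ∨ P 0 0 ≠ P 1 1) : Module.finrank K (Kc P P') ≤ 3 := by
  by_cases h01 : P 0 1 = 0
  · by_cases h10 : P 1 0 = 0
    · have hd : P 0 0 ≠ P 1 1 := (hs.resolve_left (not_not.2 h01)).resolve_left (not_not.2 h10)
      by_cases hg : P 2 2 = P 0 0
      · refine Kc_coord ![(0, 0), (1, 1), (0, 2)] fun Y hY hc => ?_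
        obtain ⟨-, e2, e3, -, e5⟩ := Kc_rel h0 h1 hY
        have y00 : Y 0 0 = 0 := hc 0
        have y11 : Y 1 1 = 0 := hc 1
        have u0 : Y 0 2 = 0 := hc 2
        rw [y00, y11, h01] at e2
        rw [y00, y11, h10] at e3
        have y01 : Y 0 1 = 0 := by
          have : Y 0 1 * (P 0 0 - P 1 1) = 0 := by linear_combination -e2
          exact (mul_eq_zero.1 this).resolve_right (sub_ne_zero.2 hd)
        have y10 : Y 1 0 = 0 := by
          have : Y 1 0 * (P 0 0 - P 1 1) = 0 := by linear_combination e3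
          exact (mul_eq_zero.1 this).resolve_right (sub_ne_zero.2 hd)
        rw [y10, y11, u0, hg] at e5
        have u1 : Y 1 2 = 0 := by
          have : Y 1 2 * (P 0 0 - P 1 1) = 0 := by linear_combination e5
          exact (mul_eq_zero.1 this).resolve_right (sub_ne_zero.2 hd)
        exact Y_zero y00 y01 u0 y10 y11 u1 hY.1
      · refine Kc_coord ![(0, 0), (1, 1), (1, 2)] fun Y hY hc => ?_
        obtain ⟨-, e2, e3, e4, -⟩ := Kc_rel h0 h1 hY
        have y00 : Y 0 0 = 0 := hc 0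
        have y11 : Y 1 1 = 0 := hc 1
        have u1 : Y 1 2 = 0 := hc 2
        rw [y00, y11, h01] at e2
        rw [y00, y11, h10] at e3
        have y01 : Y 0 1 = 0 := by
          have : Y 0 1 * (P 0 0 - P 1 1) = 0 := by linear_combination -e2
          exact (mul_eq_zero.1 this).resolve_right (sub_ne_zero.2 hd)
        have y10 : Y 1 0 = 0 := by
          have : Y 1 0 * (P 0 0 - P 1 1) = 0 := by linear_combination e3
          exact (mul_eq_zero.1 this).resolve_right (sub_ne_zero.2 hd)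
        rw [y00, y01, u1] at e4
        have u0 : Y 0 2 = 0 := by
          have : Y 0 2 * (P 2 2 - P 0 0) = 0 := by linear_combination e4
          exact (mul_eq_zero.1 this).resolve_right (sub_ne_zero.2 hg)
        exact Y_zero y00 y01 u0 y10 y11 u1 hY.1
    · refine Kc_coord ![(1, 1), (1, 0), (1, 2)] fun Y hY hc => ?_
      obtain ⟨e1, -, e3, -, e5⟩ := Kc_rel h0 h1 hY
      have y11 : Y 1 1 = 0 := hc 0
      have y10 : Y 1 0 = 0 := hc 1
      have u1 : Y 1 2 = 0 := hc 2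
      rw [y10] at e1
      rw [y10, y11] at e3
      rw [y10, y11, u1] at e5
      have y01 : Y 0 1 = 0 := by
        have : Y 0 1 * P 1 0 = 0 := by linear_combination e1
        exact (mul_eq_zero.1 this).resolve_right h10
      have y00 : Y 0 0 = 0 := by
        have : Y 0 0 * P 1 0 = 0 := by linear_combination -e3
        exact (mul_eq_zero.1 this).resolve_right h10
      have u0 : Y 0 2 = 0 := by
        have : Y 0 2 * P 1 0 = 0 := by linear_combination -e5
        exact (mul_eq_zero.1 this).resolve_right h10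
      exact Y_zero y00 y01 u0 y10 y11 u1 hY.1
  · refine Kc_coord ![(0, 0), (0, 1), (0, 2)] fun Y hY hc => ?_
    obtain ⟨e1, e2, -, e4, -⟩ := Kc_rel h0 h1 hY
    have y00 : Y 0 0 = 0 := hc 0
    have y01 : Y 0 1 = 0 := hc 1
    have u0 : Y 0 2 = 0 := hc 2
    rw [y01] at e1
    rw [y00, y01] at e2
    rw [y00, y01, u0] at e4
    have y10 : Y 1 0 = 0 := by
      have : Y 1 0 * P 0 1 = 0 := by linear_combination -e1
      exact (mul_eq_zero.1 this).resolve_right h01
    have y11 : Y 1 1 = 0 := by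
      have : Y 1 1 * P 0 1 = 0 := by linear_combination -e2
      exact (mul_eq_zero.1 this).resolve_right h01
    have u1 : Y 1 2 = 0 := by
      have : Y 1 2 * P 0 1 = 0 := by linear_combination -e4
      exact (mul_eq_zero.1 this).resolve_right h01
    exact Y_zero y00 y01 u0 y10 y11 u1 hY.1

/-- the lower right entry is not an eigenvalue of the upper left block -/
theorem Kc_tri2 {P P' : M3 K} (h0 : P 2 0 = 0) (h1 : P 2 1 = 0)
    (hs : P 0 1 ≠ 0 ∨ P 1 0 ≠ 0 ∨ P 0 0 ≠ P 1 1)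
    (hd : (P 0 0 - P 2 2) * (P 1 1 - P 2 2) - P 0 1 * P 1 0 ≠ 0) :
    Module.finrank K (Kc P P') ≤ 2 := by
  have fin : ∀ Y ∈ Kc P P', Y 0 0 = 0 → Y 0 1 = 0 → Y 1 0 = 0 → Y 1 1 = 0 → Y = 0 := by
    intro Y hY y00 y01 y10 y11
    obtain ⟨-, -, -, e4, e5⟩ := Kc_rel h0 h1 hY
    rw [y00, y01] at e4
    rw [y10, y11] at e5
    have u0 : Y 0 2 = 0 := by
      have : Y 0 2 * ((P 0 0 - P 2 2) * (P 1 1 - P 2 2) - P 0 1 * P 1 0) = 0 := by
        linear_combination -(P 1 1 - P 2 2) * e4 + P 0 1 * e5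
      exact (mul_eq_zero.1 this).resolve_right hd
    have u1 : Y 1 2 = 0 := by
      have : Y 1 2 * ((P 0 0 - P 2 2) * (P 1 1 - P 2 2) - P 0 1 * P 1 0) = 0 := by
        linear_combination P 1 0 * e4 - (P 0 0 - P 2 2) * e5
      exact (mul_eq_zero.1 this).resolve_right hd
    exact Y_zero y00 y01 u0 y10 y11 u1 hY.1
  by_cases h01 : P 0 1 = 0
  · by_cases h10 : P 1 0 = 0
    · have hd : P 0 0 ≠ P 1 1 := (hs.resolve_left (not_not.2 h01)).resolve_left (not_not.2 h10)
      refine Kc_coord ![(0, 0), (1, 1)] fun Y hY hc => ?_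
      obtain ⟨-, e2, e3, -, -⟩ := Kc_rel h0 h1 hY
      have y00 : Y 0 0 = 0 := hc 0
      have y11 : Y 1 1 = 0 := hc 1
      rw [y00, y11, h01] at e2
      rw [y00, y11, h10] at e3
      have y01 : Y 0 1 = 0 := by
        have : Y 0 1 * (P 0 0 - P 1 1) = 0 := by linear_combination -e2
        exact (mul_eq_zero.1 this).resolve_right (sub_ne_zero.2 hd)
      have y10 : Y 1 0 = 0 := by
        have : Y 1 0 * (P 0 0 - P 1 1) = 0 := by linear_combination e3
        exact (mul_eq_zero.1 this).resolve_right (sub_ne_zero.2 hd)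
      exact fin Y hY y00 y01 y10 y11
    · refine Kc_coord ![(1, 1), (1, 0)] fun Y hY hc => ?_
      obtain ⟨e1, -, e3, -, -⟩ := Kc_rel h0 h1 hY
      have y11 : Y 1 1 = 0 := hc 0
      have y10 : Y 1 0 = 0 := hc 1
      rw [y10] at e1
      rw [y10, y11] at e3
      have y01 : Y 0 1 = 0 := by
        have : Y 0 1 * P 1 0 = 0 := by linear_combination e1
        exact (mul_eq_zero.1 this).resolve_right h10
      have y00 : Y 0 0 = 0 := by
        have : Y 0 0 * P 1 0 = 0 := by linear_combination -e3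
        exact (mul_eq_zero.1 this).resolve_right h10
      exact fin Y hY y00 y01 y10 y11
  · refine Kc_coord ![(0, 0), (0, 1)] fun Y hY hc => ?_
    obtain ⟨e1, e2, -, -, -⟩ := Kc_rel h0 h1 hY
    have y00 : Y 0 0 = 0 := hc 0
    have y01 : Y 0 1 = 0 := hc 1
    rw [y01] at e1
    rw [y00, y01] at e2
    have y10 : Y 1 0 = 0 := by
      have : Y 1 0 * P 0 1 = 0 := by linear_combination -e1
      exact (mul_eq_zero.1 this).resolve_right h01
    have y11 : Y 1 1 = 0 := by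
      have : Y 1 1 * P 0 1 = 0 := by linear_combination -e2
      exact (mul_eq_zero.1 this).resolve_right h01
    exact fin Y hY y00 y01 y10 y11

/-! ### counts with a common eigen covector -/

/-- the elements commuting with a nonscalar 2 x 2 matrix -/
theorem comm2 {a b c d a' b' c' d' : K} (hs : b ≠ 0 ∨ c ≠ 0 ∨ a ≠ d)
    (h1 : b' * c = b * c') (h2 : a' * b + b' * d = a * b' + b * d')
    (h3 : c' * a + d' * c = c * a' + d * c') :
    ∃ x y : K, a' = x + y * a ∧ b' = y * b ∧ c' = y * c ∧ d' = x + y * d := by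
  rcases hs with hb | hc | hd
  · refine ⟨a' - b' / b * a, b' / b, by ring, by field_simp, ?_, ?_⟩
    · field_simp
      linear_combination -h1
    · field_simp
      linear_combination -h2
  · refine ⟨a' - c' / c * a, c' / c, by ring, ?_, by field_simp, ?_⟩
    · field_simp
      linear_combination h1
    · field_simp
      linear_combination h3
  · have hd' : a - d ≠ 0 := sub_ne_zero.2 hd
    refine ⟨a' - (a' - d') / (a - d) * a, (a' - d') / (a - d), by ring, ?_, ?_, ?_⟩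
    · field_simp
      linear_combination -h2
    · field_simp
      linear_combination h3
    · field_simp
      ring

theorem quad_mem {t : Set K} {a b c : K} (hb : b ∈ FF k t) (hc : c ∈ FF k t)
    (h : a ^ 2 + b * a + c = 0) : a ∈ FF k t := by
  refine root_mem_FF (Polynomial.X ^ 2 + Polynomial.C b * Polynomial.X + Polynomial.C c)
    (fun i => ?_) ?_ ?_
  · rw [Polynomial.coeff_add, Polynomial.coeff_add, Polynomial.coeff_X_pow,
      Polynomial.coeff_C_mul, Polynomial.coeff_X, Polynomial.coeff_C]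
    refine add_mem (add_mem ?_ (mul_mem hb ?_)) ?_ <;> split_ifs
    exacts [one_mem _, zero_mem _, one_mem _, zero_mem _, hc, zero_mem _]
  · intro h0
    have h1 := congrArg (fun p => Polynomial.coeff p 2) h0
    simp at h1
  · simpa using h

theorem tri_mem {F : IntermediateField k K} {P : M3 K} (h20 : P 2 0 = 0) (h21 : P 2 1 = 0)
    (h00 : P 0 0 ∈ F) (h01 : P 0 1 ∈ F) (h02 : P 0 2 ∈ F) (h10 : P 1 0 ∈ F) (h11 : P 1 1 ∈ F)
    (h12 : P 1 2 ∈ F) (h22 : P 2 2 ∈ F) (i j : Fin 3) : P i j ∈ F := by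
  have h20' : P 2 0 ∈ F := by
    rw [h20]
    exact zero_mem _
  have h21' : P 2 1 ∈ F := by
    rw [h21]
    exact zero_mem _
  fin_cases i <;> fin_cases j
  exacts [h00, h01, h02, h10, h11, h12, h20', h21', h22]

/-- two by two systems -/
theorem cramer2 {F : IntermediateField k K} {a b c d x y p q : K} (hd : a * d - b * c ≠ 0)
    (ha : a ∈ F) (hb : b ∈ F) (hc : c ∈ F) (hd' : d ∈ F) (hp : p ∈ F) (hq : q ∈ F)
    (h1 : a * x + b * y = p) (h2 : c * x + d * y = q) : x ∈ F ∧ y ∈ F := by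
  constructor
  · have : x = (d * p - b * q) / (a * d - b * c) := by
      rw [eq_div_iff hd]
      linear_combination d * h1 - b * h2
    rw [this]
    exact div_mem (sub_mem (mul_mem hd' hp) (mul_mem hb hq)) (sub_mem (mul_mem ha hd')
      (mul_mem hb hc))
  · have : y = (a * q - c * p) / (a * d - b * c) := by
      rw [eq_div_iff hd]
      linear_combination a * h2 - c * h1
    rw [this]
    exact div_mem (sub_mem (mul_mem ha hq) (mul_mem hc hp)) (sub_mem (mul_mem ha hd')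
      (mul_mem hb hc))

/-- a nonscalar upper left block -/
theorem bd_A0n {P P' : M3 K} (h : P * P' = P' * P) (h0 : P 2 0 = 0) (h1 : P 2 1 = 0)
    (h0' : P' 2 0 = 0) (h1' : P' 2 1 = 0) (hs : P 0 1 ≠ 0 ∨ P 1 0 ≠ 0 ∨ P 0 0 ≠ P 1 1) :
    Bd k P P' 13 := by
  have H := fun i j => congrFun (congrFun h i) j
  simp only [Matrix.mul_apply, Fin.sum_univ_three] at H
  have a00 := H 0 0
  have a01 := H 0 1
  have a10 := H 1 0
  have a02 := H 0 2
  have a12 := H 1 2
  rw [h0, h0'] at a00 a10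
  rw [h1, h1'] at a01
  obtain ⟨x, y, e00, e01, e10, e11⟩ := comm2 (a' := P' 0 0) (b' := P' 0 1) (c' := P' 1 0)
    (d' := P' 1 1) hs (by linear_combination -a00) (by linear_combination -a01)
    (by linear_combination -a10)
  have E02 : (P 0 0 - P 2 2) * P' 0 2 + P 0 1 * P' 1 2 =
      P' 0 0 * P 0 2 + P' 0 1 * P 1 2 - P 0 2 * P' 2 2 := by linear_combination a02
  have E12 : P 1 0 * P' 0 2 + (P 1 1 - P 2 2) * P' 1 2 =
      P' 1 0 * P 0 2 + P' 1 1 * P 1 2 - P 1 2 * P' 2 2 := by linear_combination a12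
  have hK := Kc_tri3 (P' := P') h0 h1 hs
  by_cases hd : (P 0 0 - P 2 2) * (P 1 1 - P 2 2) - P 0 1 * P 1 0 = 0
  · -- `P 2 2` is algebraic over the block
    have hrow : (P 0 0 - P 2 2 ≠ 0 ∨ P 1 0 ≠ 0) ∨ (P 0 1 ≠ 0 ∨ P 1 1 - P 2 2 ≠ 0) := by
      by_contra hcon
      push Not at hcon
      obtain ⟨⟨c1, c2⟩, c3, c4⟩ := hcon
      rcases hs with hs | hs | hs
      exacts [hs c3, hs c2, hs ((sub_eq_zero.1 c1).trans (sub_eq_zero.1 c4).symm)]
    have hg : ∀ F : Set K, P 0 0 ∈ FF k F → P 0 1 ∈ FF k F → P 1 0 ∈ FF k F → P 1 1 ∈ FF k F →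
        P 2 2 ∈ FF k F := fun F m1 m2 m3 m4 =>
      quad_mem (b := -(P 0 0 + P 1 1)) (c := P 0 0 * P 1 1 - P 0 1 * P 1 0)
        (neg_mem (add_mem m1 m4)) (sub_mem (mul_mem m1 m4) (mul_mem m2 m3))
        (by linear_combination hd)
    rcases hrow with hrow | hrow
    · let u : Fin 10 → K := ![P 0 0, P 0 1, P 1 0, P 1 1, P 0 2, P 1 2, x, y, P' 2 2, P' 1 2]
      have u0 := mem_rg (k := k) u 0
      have u1 := mem_rg (k := k) u 1
      have u2 := mem_rg (k := k) u 2
      have u3 := mem_rg (k := k) u 3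
      have u4 := mem_rg (k := k) u 4
      have u5 := mem_rg (k := k) u 5
      have u6 := mem_rg (k := k) u 6
      have u7 := mem_rg (k := k) u 7
      have u8 := mem_rg (k := k) u 8
      have u9 := mem_rg (k := k) u 9
      change P 0 0 ∈ _ at u0
      change P 0 1 ∈ _ at u1
      change P 1 0 ∈ _ at u2
      change P 1 1 ∈ _ at u3
      change P 0 2 ∈ _ at u4
      change P 1 2 ∈ _ at u5
      change x ∈ _ at u6
      change y ∈ _ at u7
      change P' 2 2 ∈ _ at u8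
      change P' 1 2 ∈ _ at u9
      have g := hg _ u0 u1 u2 u3
      have q00 : P' 0 0 ∈ FF k (Set.range u) := by
        rw [e00]
        exact add_mem u6 (mul_mem u7 u0)
      have q01 : P' 0 1 ∈ FF k (Set.range u) := by
        rw [e01]
        exact mul_mem u7 u1
      have q10 : P' 1 0 ∈ FF k (Set.range u) := by
        rw [e10]
        exact mul_mem u7 u2
      have q11 : P' 1 1 ∈ FF k (Set.range u) := by
        rw [e11]
        exact add_mem u6 (mul_mem u7 u3)
      have q02 : P' 0 2 ∈ FF k (Set.range u) := by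
        rcases hrow with hr | hr
        · have : P' 0 2 = (P' 0 0 * P 0 2 + P' 0 1 * P 1 2 - P 0 2 * P' 2 2 -
              P 0 1 * P' 1 2) / (P 0 0 - P 2 2) := by
            rw [eq_div_iff hr]
            linear_combination E02
          rw [this]
          exact div_mem (sub_mem (sub_mem (add_mem (mul_mem q00 u4) (mul_mem q01 u5))
            (mul_mem u4 u8)) (mul_mem u1 u9)) (sub_mem u0 g)
        · have : P' 0 2 = (P' 1 0 * P 0 2 + P' 1 1 * P 1 2 - P 1 2 * P' 2 2 -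
              (P 1 1 - P 2 2) * P' 1 2) / P 1 0 := by
            rw [eq_div_iff hr]
            linear_combination E12
          rw [this]
          exact div_mem (sub_mem (sub_mem (add_mem (mul_mem q10 u4) (mul_mem q11 u5))
            (mul_mem u5 u8)) (mul_mem (sub_mem u3 g) u9)) u2
      exact bd_of (n := 10) (b := 3) u rfl hK le_rfl (tri_mem h0 h1 u0 u1 u4 u2 u3 u5 g)
        (tri_mem h0' h1' q00 q01 q02 q10 q11 u9 u8)
    · let u : Fin 10 → K := ![P 0 0, P 0 1, P 1 0, P 1 1, P 0 2, P 1 2, x, y, P' 2 2, P' 0 2]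
      have u0 := mem_rg (k := k) u 0
      have u1 := mem_rg (k := k) u 1
      have u2 := mem_rg (k := k) u 2
      have u3 := mem_rg (k := k) u 3
      have u4 := mem_rg (k := k) u 4
      have u5 := mem_rg (k := k) u 5
      have u6 := mem_rg (k := k) u 6
      have u7 := mem_rg (k := k) u 7
      have u8 := mem_rg (k := k) u 8
      have u9 := mem_rg (k := k) u 9
      change P 0 0 ∈ _ at u0
      change P 0 1 ∈ _ at u1
      change P 1 0 ∈ _ at u2
      change P 1 1 ∈ _ at u3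
      change P 0 2 ∈ _ at u4
      change P 1 2 ∈ _ at u5
      change x ∈ _ at u6
      change y ∈ _ at u7
      change P' 2 2 ∈ _ at u8
      change P' 0 2 ∈ _ at u9
      have g := hg _ u0 u1 u2 u3
      have q00 : P' 0 0 ∈ FF k (Set.range u) := by
        rw [e00]
        exact add_mem u6 (mul_mem u7 u0)
      have q01 : P' 0 1 ∈ FF k (Set.range u) := by
        rw [e01]
        exact mul_mem u7 u1
      have q10 : P' 1 0 ∈ FF k (Set.range u) := by
        rw [e10]
        exact mul_mem u7 u2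
      have q11 : P' 1 1 ∈ FF k (Set.range u) := by
        rw [e11]
        exact add_mem u6 (mul_mem u7 u3)
      have q12 : P' 1 2 ∈ FF k (Set.range u) := by
        rcases hrow with hr | hr
        · have : P' 1 2 = (P' 0 0 * P 0 2 + P' 0 1 * P 1 2 - P 0 2 * P' 2 2 -
              (P 0 0 - P 2 2) * P' 0 2) / P 0 1 := by
            rw [eq_div_iff hr]
            linear_combination E02
          rw [this]
          exact div_mem (sub_mem (sub_mem (add_mem (mul_mem q00 u4) (mul_mem q01 u5))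
            (mul_mem u4 u8)) (mul_mem (sub_mem u0 g) u9)) u1
        · have : P' 1 2 = (P' 1 0 * P 0 2 + P' 1 1 * P 1 2 - P 1 2 * P' 2 2 -
              P 1 0 * P' 0 2) / (P 1 1 - P 2 2) := by
            rw [eq_div_iff hr]
            linear_combination E12
          rw [this]
          exact div_mem (sub_mem (sub_mem (add_mem (mul_mem q10 u4) (mul_mem q11 u5))
            (mul_mem u5 u8)) (mul_mem u2 u9)) (sub_mem u3 g)
      exact bd_of (n := 10) (b := 3) u rfl hK le_rfl (tri_mem h0 h1 u0 u1 u4 u2 u3 u5 g)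
        (tri_mem h0' h1' q00 q01 u9 q10 q11 q12 u8)
  · let u : Fin 10 → K := ![P 0 0, P 0 1, P 1 0, P 1 1, P 0 2, P 1 2, x, y, P' 2 2, P 2 2]
    have u0 := mem_rg (k := k) u 0
    have u1 := mem_rg (k := k) u 1
    have u2 := mem_rg (k := k) u 2
    have u3 := mem_rg (k := k) u 3
    have u4 := mem_rg (k := k) u 4
    have u5 := mem_rg (k := k) u 5
    have u6 := mem_rg (k := k) u 6
    have u7 := mem_rg (k := k) u 7
    have u8 := mem_rg (k := k) u 8
    have g := mem_rg (k := k) u 9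
    change P 0 0 ∈ _ at u0
    change P 0 1 ∈ _ at u1
    change P 1 0 ∈ _ at u2
    change P 1 1 ∈ _ at u3
    change P 0 2 ∈ _ at u4
    change P 1 2 ∈ _ at u5
    change x ∈ _ at u6
    change y ∈ _ at u7
    change P' 2 2 ∈ _ at u8
    change P 2 2 ∈ _ at g
    have q00 : P' 0 0 ∈ FF k (Set.range u) := by
      rw [e00]
      exact add_mem u6 (mul_mem u7 u0)
    have q01 : P' 0 1 ∈ FF k (Set.range u) := by
      rw [e01]
      exact mul_mem u7 u1
    have q10 : P' 1 0 ∈ FF k (Set.range u) := by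
      rw [e10]
      exact mul_mem u7 u2
    have q11 : P' 1 1 ∈ FF k (Set.range u) := by
      rw [e11]
      exact add_mem u6 (mul_mem u7 u3)
    obtain ⟨q02, q12⟩ := cramer2 hd (sub_mem u0 g) u1 u2 (sub_mem u3 g)
      (sub_mem (add_mem (mul_mem q00 u4) (mul_mem q01 u5)) (mul_mem u4 u8))
      (sub_mem (add_mem (mul_mem q10 u4) (mul_mem q11 u5)) (mul_mem u5 u8)) E02 E12
    exact bd_of (n := 10) (b := 3) u rfl hK le_rfl (tri_mem h0 h1 u0 u1 u4 u2 u3 u5 g)
      (tri_mem h0' h1' q00 q01 q02 q10 q11 q12 u8)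

/-- both upper left blocks are scalar -/
theorem bd_A0s {P P' : M3 K} (h : P * P' = P' * P) (h0 : P 2 0 = 0) (h1 : P 2 1 = 0)
    (h0' : P' 2 0 = 0) (h1' : P' 2 1 = 0) (h01 : P 0 1 = 0) (h10 : P 1 0 = 0)
    (h11 : P 1 1 = P 0 0) (h01' : P' 0 1 = 0) (h10' : P' 1 0 = 0) (h11' : P' 1 1 = P' 0 0) :
    Bd k P P' 13 := by
  have H := fun i j => congrFun (congrFun h i) j
  simp only [Matrix.mul_apply, Fin.sum_univ_three] at H
  have a02 := H 0 2
  have a12 := H 1 2
  rw [h01, h01'] at a02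
  rw [h10, h10', h11, h11'] at a12
  have E02 : (P 0 0 - P 2 2) * P' 0 2 = (P' 0 0 - P' 2 2) * P 0 2 := by linear_combination a02
  have E12 : (P 0 0 - P 2 2) * P' 1 2 = (P' 0 0 - P' 2 2) * P 1 2 := by linear_combination a12
  have hK := Kc_le_six P P'
  by_cases hg : P 0 0 - P 2 2 = 0
  · by_cases hg' : P' 0 0 - P' 2 2 = 0
    · let u : Fin 6 → K := ![P 0 0, P 0 2, P 1 2, P' 0 0, P' 0 2, P' 1 2]
      have u0 := mem_rg (k := k) u 0
      have u1 := mem_rg (k := k) u 1
      have u2 := mem_rg (k := k) u 2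
      have u3 := mem_rg (k := k) u 3
      have u4 := mem_rg (k := k) u 4
      have u5 := mem_rg (k := k) u 5
      change P 0 0 ∈ _ at u0
      change P 0 2 ∈ _ at u1
      change P 1 2 ∈ _ at u2
      change P' 0 0 ∈ _ at u3
      change P' 0 2 ∈ _ at u4
      change P' 1 2 ∈ _ at u5
      refine bd_of (n := 6) (b := 6) u rfl hK (by norm_num)
        (tri_mem h0 h1 u0 (by rw [h01]; exact zero_mem _) u1 (by rw [h10]; exact zero_mem _)
          (by rw [h11]; exact u0) u2 (by rw [← sub_eq_zero.1 hg]; exact u0))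
        (tri_mem h0' h1' u3 (by rw [h01']; exact zero_mem _) u4 (by rw [h10']; exact zero_mem _)
          (by rw [h11']; exact u3) u5 (by rw [← sub_eq_zero.1 hg']; exact u3))
    · let u : Fin 6 → K := ![P 0 0, P 2 2, P' 0 0, P' 2 2, P' 0 2, P' 1 2]
      have u0 := mem_rg (k := k) u 0
      have u1 := mem_rg (k := k) u 1
      have u2 := mem_rg (k := k) u 2
      have u3 := mem_rg (k := k) u 3
      have u4 := mem_rg (k := k) u 4
      have u5 := mem_rg (k := k) u 5
      change P 0 0 ∈ _ at u0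
      change P 2 2 ∈ _ at u1
      change P' 0 0 ∈ _ at u2
      change P' 2 2 ∈ _ at u3
      change P' 0 2 ∈ _ at u4
      change P' 1 2 ∈ _ at u5
      have v0 : P 0 2 ∈ FF k (Set.range u) := by
        have : P 0 2 = (P 0 0 - P 2 2) * P' 0 2 / (P' 0 0 - P' 2 2) := by
          rw [eq_div_iff hg']
          linear_combination -E02
        rw [this]
        exact div_mem (mul_mem (sub_mem u0 u1) u4) (sub_mem u2 u3)
      have v1 : P 1 2 ∈ FF k (Set.range u) := by
        have : P 1 2 = (P 0 0 - P 2 2) * P' 1 2 / (P' 0 0 - P' 2 2) := by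
          rw [eq_div_iff hg']
          linear_combination -E12
        rw [this]
        exact div_mem (mul_mem (sub_mem u0 u1) u5) (sub_mem u2 u3)
      refine bd_of (n := 6) (b := 6) u rfl hK (by norm_num)
        (tri_mem h0 h1 u0 (by rw [h01]; exact zero_mem _) v0 (by rw [h10]; exact zero_mem _)
          (by rw [h11]; exact u0) v1 u1)
        (tri_mem h0' h1' u2 (by rw [h01']; exact zero_mem _) u4 (by rw [h10']; exact zero_mem _)
          (by rw [h11']; exact u2) u5 u3)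
  · let u : Fin 6 → K := ![P 0 0, P 2 2, P' 0 0, P' 2 2, P 0 2, P 1 2]
    have u0 := mem_rg (k := k) u 0
    have u1 := mem_rg (k := k) u 1
    have u2 := mem_rg (k := k) u 2
    have u3 := mem_rg (k := k) u 3
    have u4 := mem_rg (k := k) u 4
    have u5 := mem_rg (k := k) u 5
    change P 0 0 ∈ _ at u0
    change P 2 2 ∈ _ at u1
    change P' 0 0 ∈ _ at u2
    change P' 2 2 ∈ _ at u3
    change P 0 2 ∈ _ at u4
    change P 1 2 ∈ _ at u5
    have v0 : P' 0 2 ∈ FF k (Set.range u) := by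
      have : P' 0 2 = (P' 0 0 - P' 2 2) * P 0 2 / (P 0 0 - P 2 2) := by
        rw [eq_div_iff hg]
        linear_combination E02
      rw [this]
      exact div_mem (mul_mem (sub_mem u2 u3) u4) (sub_mem u0 u1)
    have v1 : P' 1 2 ∈ FF k (Set.range u) := by
      have : P' 1 2 = (P' 0 0 - P' 2 2) * P 1 2 / (P 0 0 - P 2 2) := by
        rw [eq_div_iff hg]
        linear_combination E12
      rw [this]
      exact div_mem (mul_mem (sub_mem u2 u3) u5) (sub_mem u0 u1)
    refine bd_of (n := 6) (b := 6) u rfl hK (by norm_num)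
      (tri_mem h0 h1 u0 (by rw [h01]; exact zero_mem _) u4 (by rw [h10]; exact zero_mem _)
        (by rw [h11]; exact u0) u5 u1)
      (tri_mem h0' h1' u2 (by rw [h01']; exact zero_mem _) v0 (by rw [h10']; exact zero_mem _)
        (by rw [h11']; exact u2) v1 u3)

/-- commuting pairs -/
theorem bd_comm [IsAlgClosed K] {P P' : M3 K} (h : P * P' = P' * P) : Bd k P P' 13 := by
  by_cases hal : (P 2 0 ≠ 0 ∨ P 2 1 ≠ 0) ∨ (P' 2 0 ≠ 0 ∨ P' 2 1 ≠ 0)
  · -- a cyclic vector
    have key : ∀ (A B : M3 K), A * B = B * A → (∃ v, Cyc A v) →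
        (A 2 0 ≠ 0 ∨ A 2 1 ≠ 0) ∨ (B 2 0 ≠ 0 ∨ B 2 1 ≠ 0) → Bd k A B 13 := by
      rintro A B hAB ⟨v, hv⟩ hc
      by_cases hA : A 2 0 ≠ 0 ∨ A 2 1 ≠ 0
      · exact bd_cyc hAB hv hA
      · exfalso
        push Not at hA
        obtain ⟨a0, a1⟩ := hA
        have h1 := comm_poly hv hAB.symm
        have hv' : D3 v (A *ᵥ v) (A *ᵥ (A *ᵥ v)) ≠ 0 := hv
        generalize D3 v (A *ᵥ v) (A *ᵥ (A *ᵥ v)) = δ at h1 hv'
        have H := fun i j => congrFun (congrFun h1 i) j
        simp only [Matrix.smul_apply, Matrix.add_apply, Matrix.mul_apply, Fin.sum_univ_three,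
          smul_eq_mul] at H
        have e0 := H 2 0
        have e1 := H 2 1
        rw [a0, a1, Matrix.one_apply_ne (by decide)] at e0
        rw [a0, a1, Matrix.one_apply_ne (by decide)] at e1
        have b0 : B 2 0 = 0 := by
          have : δ * B 2 0 = 0 := by
            rw [e0]
            ring
          exact (mul_eq_zero.1 this).resolve_left hv'
        have b1 : B 2 1 = 0 := by
          have : δ * B 2 1 = 0 := by
            rw [e1]
            ring
          exact (mul_eq_zero.1 this).resolve_left hv'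
        rcases hc with (hc | hc) | (hc | hc)
        exacts [hc a0, hc a1, hc b0, hc b1]
    have h3 : Module.finrank K (Kc P P') ≤ 3 := by
      rcases hal with hc | hc
      · exact Kc_le_three hc
      · rw [Kc_swap]
        exact Kc_le_three hc
    rcases cyc_or P with hP | ⟨l, x, y, hP⟩
    · exact key P P' h hP hal
    · rcases cyc_or P' with hP' | ⟨l', x', y', hP'⟩
      · exact (key P' P h.symm hP' hal.symm).swap
      · exact bd_derog h hP hP' h3
  · push Not at hal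
    obtain ⟨⟨h0, h1⟩, h0', h1'⟩ := hal
    by_cases hs : P 0 1 ≠ 0 ∨ P 1 0 ≠ 0 ∨ P 0 0 ≠ P 1 1
    · exact bd_A0n h h0 h1 h0' h1' hs
    · by_cases hs' : P' 0 1 ≠ 0 ∨ P' 1 0 ≠ 0 ∨ P' 0 0 ≠ P' 1 1
      · exact (bd_A0n h.symm h0' h1' h0 h1 hs').swap
      · push Not at hs hs'
        obtain ⟨s1, s2, s3⟩ := hs
        obtain ⟨s1', s2', s3'⟩ := hs'
        exact bd_A0s h h0 h1 h0' h1' s1 s2 s3.symm s1' s2' s3'.symm

/-! ### the case of a nonzero coefficient of the further vector -/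

theorem row_mem {F : IntermediateField k K} {Z : M3 K} (h : ∀ j, Z 2 j = 0)
    (h00 : Z 0 0 ∈ F) (h01 : Z 0 1 ∈ F) (h02 : Z 0 2 ∈ F) (h10 : Z 1 0 ∈ F) (h11 : Z 1 1 ∈ F)
    (h12 : Z 1 2 ∈ F) (i j : Fin 3) : Z i j ∈ F :=
  tri_mem (h 0) (h 1) h00 h01 h02 h10 h11 h12 (by rw [h 2]; exact zero_mem _) i j

theorem bd_B1 {P Z : M3 K} (hZ : ∀ j, Z 2 j = 0) (hc : ∀ i, (P * Z) i 0 = (Z * P) i 0)
    (hc' : ∀ i, (P * Z) i 1 = (Z * P) i 1) (h0 : P 2 0 = 0) (h1 : P 2 1 = 0) :
    Bd k P Z 13 := by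
  simp only [Matrix.mul_apply, Fin.sum_univ_three] at hc hc'
  have a00 := hc 0
  have a10 := hc 1
  have a01 := hc' 0
  rw [h0, hZ] at a00 a10
  rw [h1, hZ] at a01
  by_cases hs : P 0 1 ≠ 0 ∨ P 1 0 ≠ 0 ∨ P 0 0 ≠ P 1 1
  · obtain ⟨x, y, e00, e01, e10, e11⟩ := comm2 (a' := Z 0 0) (b' := Z 0 1) (c' := Z 1 0)
      (d' := Z 1 1) hs (by linear_combination -a00) (by linear_combination -a01)
      (by linear_combination -a10)
    by_cases hd : (P 0 0 - P 2 2) * (P 1 1 - P 2 2) - P 0 1 * P 1 0 = 0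
    · let u : Fin 10 → K := ![P 0 0, P 0 1, P 1 0, P 1 1, P 0 2, P 1 2, x, y, Z 0 2, Z 1 2]
      have u0 := mem_rg (k := k) u 0
      have u1 := mem_rg (k := k) u 1
      have u2 := mem_rg (k := k) u 2
      have u3 := mem_rg (k := k) u 3
      have u4 := mem_rg (k := k) u 4
      have u5 := mem_rg (k := k) u 5
      have u6 := mem_rg (k := k) u 6
      have u7 := mem_rg (k := k) u 7
      have u8 := mem_rg (k := k) u 8
      have u9 := mem_rg (k := k) u 9
      change P 0 0 ∈ _ at u0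
      change P 0 1 ∈ _ at u1
      change P 1 0 ∈ _ at u2
      change P 1 1 ∈ _ at u3
      change P 0 2 ∈ _ at u4
      change P 1 2 ∈ _ at u5
      change x ∈ _ at u6
      change y ∈ _ at u7
      change Z 0 2 ∈ _ at u8
      change Z 1 2 ∈ _ at u9
      have g : P 2 2 ∈ FF k (Set.range u) :=
        quad_mem (b := -(P 0 0 + P 1 1)) (c := P 0 0 * P 1 1 - P 0 1 * P 1 0)
          (neg_mem (add_mem u0 u3)) (sub_mem (mul_mem u0 u3) (mul_mem u1 u2))
          (by linear_combination hd)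
      exact bd_of (n := 10) (b := 3) u rfl (Kc_tri3 h0 h1 hs) le_rfl
        (tri_mem h0 h1 u0 u1 u4 u2 u3 u5 g)
        (row_mem hZ (by rw [e00]; exact add_mem u6 (mul_mem u7 u0))
          (by rw [e01]; exact mul_mem u7 u1) u8 (by rw [e10]; exact mul_mem u7 u2)
          (by rw [e11]; exact add_mem u6 (mul_mem u7 u3)) u9)
    · let u : Fin 11 → K := ![P 0 0, P 0 1, P 1 0, P 1 1, P 0 2, P 1 2, x, y, Z 0 2, Z 1 2, P 2 2]
      have u0 := mem_rg (k := k) u 0
      have u1 := mem_rg (k := k) u 1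
      have u2 := mem_rg (k := k) u 2
      have u3 := mem_rg (k := k) u 3
      have u4 := mem_rg (k := k) u 4
      have u5 := mem_rg (k := k) u 5
      have u6 := mem_rg (k := k) u 6
      have u7 := mem_rg (k := k) u 7
      have u8 := mem_rg (k := k) u 8
      have u9 := mem_rg (k := k) u 9
      have u10 := mem_rg (k := k) u 10
      change P 0 0 ∈ _ at u0
      change P 0 1 ∈ _ at u1
      change P 1 0 ∈ _ at u2
      change P 1 1 ∈ _ at u3
      change P 0 2 ∈ _ at u4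
      change P 1 2 ∈ _ at u5
      change x ∈ _ at u6
      change y ∈ _ at u7
      change Z 0 2 ∈ _ at u8
      change Z 1 2 ∈ _ at u9
      change P 2 2 ∈ _ at u10
      exact bd_of (n := 11) (b := 2) u rfl (Kc_tri2 h0 h1 hs hd) le_rfl
        (tri_mem h0 h1 u0 u1 u4 u2 u3 u5 u10)
        (row_mem hZ (by rw [e00]; exact add_mem u6 (mul_mem u7 u0))
          (by rw [e01]; exact mul_mem u7 u1) u8 (by rw [e10]; exact mul_mem u7 u2)
          (by rw [e11]; exact add_mem u6 (mul_mem u7 u3)) u9)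
  · push Not at hs
    obtain ⟨s1, s2, s3⟩ := hs
    by_cases hs' : Z 0 1 ≠ 0 ∨ Z 1 0 ≠ 0 ∨ Z 0 0 ≠ Z 1 1
    · let u : Fin 10 → K := ![P 0 0, P 0 2, P 1 2, P 2 2, Z 0 0, Z 0 1, Z 0 2, Z 1 0, Z 1 1, Z 1 2]
      have u0 := mem_rg (k := k) u 0
      have u1 := mem_rg (k := k) u 1
      have u2 := mem_rg (k := k) u 2
      have u3 := mem_rg (k := k) u 3
      have u4 := mem_rg (k := k) u 4
      have u5 := mem_rg (k := k) u 5
      have u6 := mem_rg (k := k) u 6
      have u7 := mem_rg (k := k) u 7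
      have u8 := mem_rg (k := k) u 8
      have u9 := mem_rg (k := k) u 9
      change P 0 0 ∈ _ at u0
      change P 0 2 ∈ _ at u1
      change P 1 2 ∈ _ at u2
      change P 2 2 ∈ _ at u3
      change Z 0 0 ∈ _ at u4
      change Z 0 1 ∈ _ at u5
      change Z 0 2 ∈ _ at u6
      change Z 1 0 ∈ _ at u7
      change Z 1 1 ∈ _ at u8
      change Z 1 2 ∈ _ at u9
      refine bd_of (n := 10) (b := 3) u rfl ?_ le_rfl
        (tri_mem h0 h1 u0 (by rw [s1]; exact zero_mem _) u1 (by rw [s2]; exact zero_mem _)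
          (by rw [← s3]; exact u0) u2 u3) (row_mem hZ u4 u5 u6 u7 u8 u9)
      rw [Kc_swap]
      exact Kc_tri3 (hZ 0) (hZ 1) hs'
    · push Not at hs'
      obtain ⟨s1', s2', s3'⟩ := hs'
      let u : Fin 7 → K := ![P 0 0, P 0 2, P 1 2, P 2 2, Z 0 0, Z 0 2, Z 1 2]
      have u0 := mem_rg (k := k) u 0
      have u1 := mem_rg (k := k) u 1
      have u2 := mem_rg (k := k) u 2
      have u3 := mem_rg (k := k) u 3
      have u4 := mem_rg (k := k) u 4
      have u5 := mem_rg (k := k) u 5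
      have u6 := mem_rg (k := k) u 6
      change P 0 0 ∈ _ at u0
      change P 0 2 ∈ _ at u1
      change P 1 2 ∈ _ at u2
      change P 2 2 ∈ _ at u3
      change Z 0 0 ∈ _ at u4
      change Z 0 2 ∈ _ at u5
      change Z 1 2 ∈ _ at u6
      exact bd_of (n := 7) (b := 6) u rfl (Kc_le_six _ _) le_rfl
        (tri_mem h0 h1 u0 (by rw [s1]; exact zero_mem _) u1 (by rw [s2]; exact zero_mem _)
          (by rw [← s3]; exact u0) u2 u3)
        (row_mem hZ u4 (by rw [s1']; exact zero_mem _) u5 (by rw [s2']; exact zero_mem _)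
          (by rw [← s3']; exact u4) u6)

theorem bd_B2 {P Z : M3 K} (hZ : ∀ j, Z 2 j = 0) (hc : ∀ i, (P * Z) i 0 = (Z * P) i 0)
    (hc' : ∀ i, (P * Z) i 1 = (Z * P) i 1) (h0 : P 2 0 ≠ 0 ∨ P 2 1 ≠ 0) :
    Bd k P Z 13 := by
  have hK := Kc_le_three (P' := Z) h0
  simp only [Matrix.mul_apply, Fin.sum_univ_three] at hc hc'
  have a00 := hc 0
  have a10 := hc 1
  have a20 := hc 2
  have a01 := hc' 0
  have a11 := hc' 1
  have a21 := hc' 2
  simp only [hZ] at a00 a10 a20 a01 a11 a21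
  have G0 : P 2 0 * Z 0 0 + P 2 1 * Z 1 0 = 0 := by linear_combination a20
  have G1 : P 2 0 * Z 0 1 + P 2 1 * Z 1 1 = 0 := by linear_combination a21
  by_cases hN : Z 0 0 = 0 ∧ Z 0 1 = 0 ∧ Z 1 0 = 0 ∧ Z 1 1 = 0
  · -- `Z = 0`
    obtain ⟨z1, z2, z3, z4⟩ := hN
    rw [z1, z2, z3] at a00
    rw [z1, z3, z4] at a10
    rw [z1, z2, z4] at a01
    rw [z2, z3, z4] at a11
    have z5 : Z 0 2 = 0 := by
      rcases h0 with h0 | h0
      · have : Z 0 2 * P 2 0 = 0 := by linear_combination -a00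
        exact (mul_eq_zero.1 this).resolve_right h0
      · have : Z 0 2 * P 2 1 = 0 := by linear_combination -a01
        exact (mul_eq_zero.1 this).resolve_right h0
    have z6 : Z 1 2 = 0 := by
      rcases h0 with h0 | h0
      · have : Z 1 2 * P 2 0 = 0 := by linear_combination -a10
        exact (mul_eq_zero.1 this).resolve_right h0
      · have : Z 1 2 * P 2 1 = 0 := by linear_combination -a11
        exact (mul_eq_zero.1 this).resolve_right h0
    let u : Fin 3 × Fin 3 → K := fun x => P x.1 x.2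
    exact bd_of (n := 9) (b := 3) u rfl hK (by norm_num) (fun i j => mem_rg u (i, j))
      (row_mem hZ (by rw [z1]; exact zero_mem _) (by rw [z2]; exact zero_mem _)
        (by rw [z5]; exact zero_mem _) (by rw [z3]; exact zero_mem _)
        (by rw [z4]; exact zero_mem _) (by rw [z6]; exact zero_mem _))
  have hw : P 2 1 ^ 2 * P 1 0 + P 2 0 * P 2 1 * P 0 0 - P 2 0 ^ 2 * P 0 1 -
      P 2 0 * P 2 1 * P 1 1 = 0 := by
    rcases h0 with h0 | h0
    · have e1 : Z 1 0 * (P 2 1 ^ 2 * P 1 0 + P 2 0 * P 2 1 * P 0 0 - P 2 0 ^ 2 * P 0 1 -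
          P 2 0 * P 2 1 * P 1 1) = 0 := by
        linear_combination -P 2 0 * (P 2 1 * a10 - P 2 0 * a11) + P 2 1 * P 1 0 * G0 -
          P 2 0 * P 1 0 * G1
      have e2 : Z 1 1 * (P 2 1 ^ 2 * P 1 0 + P 2 0 * P 2 1 * P 0 0 - P 2 0 ^ 2 * P 0 1 -
          P 2 0 * P 2 1 * P 1 1) = 0 := by
        linear_combination P 2 0 * (P 2 1 * a00 - P 2 0 * a01) + (P 2 1 * P 1 0 + P 2 0 * P 0 0 -
          P 2 0 * P 1 1) * G1 - P 2 0 * P 0 1 * G0
      by_contra hw
      have z3 := (mul_eq_zero.1 e1).resolve_right hw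
      have z4 := (mul_eq_zero.1 e2).resolve_right hw
      rw [z3, mul_zero, add_zero] at G0
      rw [z4, mul_zero, add_zero] at G1
      exact hN ⟨(mul_eq_zero.1 G0).resolve_left h0, (mul_eq_zero.1 G1).resolve_left h0, z3, z4⟩
    · have e1 : Z 0 0 * (P 2 1 ^ 2 * P 1 0 + P 2 0 * P 2 1 * P 0 0 - P 2 0 ^ 2 * P 0 1 -
          P 2 0 * P 2 1 * P 1 1) = 0 := by
        linear_combination P 2 1 ^ 2 * a10 - P 2 0 * P 2 1 * a11 -
          (P 2 1 * (P 1 1 - P 0 0) + P 2 0 * P 0 1) * G0 + P 2 1 * P 1 0 * G1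
      have e2 : Z 0 1 * (P 2 1 ^ 2 * P 1 0 + P 2 0 * P 2 1 * P 0 0 - P 2 0 ^ 2 * P 0 1 -
          P 2 0 * P 2 1 * P 1 1) = 0 := by
        linear_combination -P 2 1 ^ 2 * a00 + P 2 0 * P 2 1 * a01 + P 2 1 * P 0 1 * G0 -
          P 2 0 * P 0 1 * G1
      by_contra hw
      have z1 := (mul_eq_zero.1 e1).resolve_right hw
      have z2 := (mul_eq_zero.1 e2).resolve_right hw
      rw [z1, mul_zero, zero_add] at G0
      rw [z2, mul_zero, zero_add] at G1
      exact hN ⟨z1, z2, (mul_eq_zero.1 G0).resolve_left h0, (mul_eq_zero.1 G1).resolve_left h0⟩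
  have full : ∀ (F : IntermediateField k K), P 0 0 ∈ F → P 0 1 ∈ F → P 0 2 ∈ F → P 1 0 ∈ F →
      P 1 1 ∈ F → P 1 2 ∈ F → P 2 0 ∈ F → P 2 1 ∈ F → P 2 2 ∈ F → ∀ i j, P i j ∈ F := by
    intro F m1 m2 m3 m4 m5 m6 m7 m8 m9 i j
    fin_cases i <;> fin_cases j
    exacts [m1, m2, m3, m4, m5, m6, m7, m8, m9]
  rcases h0 with h0 | h0
  · let u : Fin 10 → K := ![P 2 0, P 2 1, P 2 2, P 0 0, P 1 0, P 1 1, P 0 2, P 1 2, Z 1 0, Z 1 1]
    have u0 := mem_rg (k := k) u 0
    have u1 := mem_rg (k := k) u 1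
    have u2 := mem_rg (k := k) u 2
    have u3 := mem_rg (k := k) u 3
    have u4 := mem_rg (k := k) u 4
    have u5 := mem_rg (k := k) u 5
    have u6 := mem_rg (k := k) u 6
    have u7 := mem_rg (k := k) u 7
    have u8 := mem_rg (k := k) u 8
    have u9 := mem_rg (k := k) u 9
    change P 2 0 ∈ _ at u0
    change P 2 1 ∈ _ at u1
    change P 2 2 ∈ _ at u2
    change P 0 0 ∈ _ at u3
    change P 1 0 ∈ _ at u4
    change P 1 1 ∈ _ at u5
    change P 0 2 ∈ _ at u6
    change P 1 2 ∈ _ at u7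
    change Z 1 0 ∈ _ at u8
    change Z 1 1 ∈ _ at u9
    have p01 : P 0 1 ∈ FF k (Set.range u) := by
      have : P 0 1 = (P 2 1 ^ 2 * P 1 0 + P 2 0 * P 2 1 * P 0 0 - P 2 0 * P 2 1 * P 1 1) /
          P 2 0 ^ 2 := by
        rw [eq_div_iff (pow_ne_zero 2 h0)]
        linear_combination -hw
      rw [this]
      exact div_mem (sub_mem (add_mem (mul_mem (pow_mem u1 2) u4) (mul_mem (mul_mem u0 u1) u3))
        (mul_mem (mul_mem u0 u1) u5)) (pow_mem u0 2)
    have z00 : Z 0 0 ∈ FF k (Set.range u) := by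
      have : Z 0 0 = -(P 2 1 * Z 1 0) / P 2 0 := by
        rw [eq_div_iff h0]
        linear_combination G0
      rw [this]
      exact div_mem (neg_mem (mul_mem u1 u8)) u0
    have z01 : Z 0 1 ∈ FF k (Set.range u) := by
      have : Z 0 1 = -(P 2 1 * Z 1 1) / P 2 0 := by
        rw [eq_div_iff h0]
        linear_combination G1
      rw [this]
      exact div_mem (neg_mem (mul_mem u1 u9)) u0
    have z02 : Z 0 2 ∈ FF k (Set.range u) := by
      have : Z 0 2 = (P 0 1 * Z 1 0 - Z 0 1 * P 1 0) / P 2 0 := by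
        rw [eq_div_iff h0]
        linear_combination -a00
      rw [this]
      exact div_mem (sub_mem (mul_mem p01 u8) (mul_mem z01 u4)) u0
    have z12 : Z 1 2 ∈ FF k (Set.range u) := by
      have : Z 1 2 = (P 1 0 * Z 0 0 + P 1 1 * Z 1 0 - Z 1 0 * P 0 0 - Z 1 1 * P 1 0) / P 2 0 := by
        rw [eq_div_iff h0]
        linear_combination -a10
      rw [this]
      exact div_mem (sub_mem (sub_mem (add_mem (mul_mem u4 z00) (mul_mem u5 u8)) (mul_mem u8 u3))
        (mul_mem u9 u4)) u0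
    exact bd_of (n := 10) (b := 3) u rfl hK le_rfl (full _ u3 p01 u6 u4 u5 u7 u0 u1 u2)
      (row_mem hZ z00 z01 z02 u8 u9 z12)
  · let u : Fin 10 → K := ![P 2 0, P 2 1, P 2 2, P 0 0, P 0 1, P 1 1, P 0 2, P 1 2, Z 0 0, Z 0 1]
    have u0 := mem_rg (k := k) u 0
    have u1 := mem_rg (k := k) u 1
    have u2 := mem_rg (k := k) u 2
    have u3 := mem_rg (k := k) u 3
    have u4 := mem_rg (k := k) u 4
    have u5 := mem_rg (k := k) u 5
    have u6 := mem_rg (k := k) u 6
    have u7 := mem_rg (k := k) u 7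
    have u8 := mem_rg (k := k) u 8
    have u9 := mem_rg (k := k) u 9
    change P 2 0 ∈ _ at u0
    change P 2 1 ∈ _ at u1
    change P 2 2 ∈ _ at u2
    change P 0 0 ∈ _ at u3
    change P 0 1 ∈ _ at u4
    change P 1 1 ∈ _ at u5
    change P 0 2 ∈ _ at u6
    change P 1 2 ∈ _ at u7
    change Z 0 0 ∈ _ at u8
    change Z 0 1 ∈ _ at u9
    have p10 : P 1 0 ∈ FF k (Set.range u) := by
      have : P 1 0 = (P 2 0 ^ 2 * P 0 1 + P 2 0 * P 2 1 * P 1 1 - P 2 0 * P 2 1 * P 0 0) /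
          P 2 1 ^ 2 := by
        rw [eq_div_iff (pow_ne_zero 2 h0)]
        linear_combination hw
      rw [this]
      exact div_mem (sub_mem (add_mem (mul_mem (pow_mem u0 2) u4) (mul_mem (mul_mem u0 u1) u5))
        (mul_mem (mul_mem u0 u1) u3)) (pow_mem u1 2)
    have z10 : Z 1 0 ∈ FF k (Set.range u) := by
      have : Z 1 0 = -(P 2 0 * Z 0 0) / P 2 1 := by
        rw [eq_div_iff h0]
        linear_combination G0
      rw [this]
      exact div_mem (neg_mem (mul_mem u0 u8)) u1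
    have z11 : Z 1 1 ∈ FF k (Set.range u) := by
      have : Z 1 1 = -(P 2 0 * Z 0 1) / P 2 1 := by
        rw [eq_div_iff h0]
        linear_combination G1
      rw [this]
      exact div_mem (neg_mem (mul_mem u0 u9)) u1
    have z02 : Z 0 2 ∈ FF k (Set.range u) := by
      have : Z 0 2 = (P 0 0 * Z 0 1 + P 0 1 * Z 1 1 - Z 0 0 * P 0 1 - Z 0 1 * P 1 1) / P 2 1 := by
        rw [eq_div_iff h0]
        linear_combination -a01
      rw [this]
      exact div_mem (sub_mem (sub_mem (add_mem (mul_mem u3 u9) (mul_mem u4 z11)) (mul_mem u8 u4))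
        (mul_mem u9 u5)) u1
    have z12 : Z 1 2 ∈ FF k (Set.range u) := by
      have : Z 1 2 = (P 1 0 * Z 0 1 - Z 1 0 * P 0 1) / P 2 1 := by
        rw [eq_div_iff h0]
        linear_combination -a11
      rw [this]
      exact div_mem (sub_mem (mul_mem p10 u9) (mul_mem z10 u4)) u1
    exact bd_of (n := 10) (b := 3) u rfl hK le_rfl (full _ u3 u4 u6 p10 u5 u7 u0 u1 u2)
      (row_mem hZ u8 u9 z02 z10 z11 z12)

/-- the case of a nonzero coefficient -/
theorem bd_B {P Z : M3 K} (hZ : ∀ j, Z 2 j = 0) (hc : ∀ i, (P * Z) i 0 = (Z * P) i 0)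
    (hc' : ∀ i, (P * Z) i 1 = (Z * P) i 1) : Bd k P Z 13 := by
  by_cases h0 : P 2 0 ≠ 0 ∨ P 2 1 ≠ 0
  · exact bd_B2 hZ hc hc' h0
  · push Not at h0
    exact bd_B1 hZ hc hc' h0.1 h0.2

/-! ### all together -/

variable (k) in
/-- the conclusion about the first level -/
def Key (P P' : M3 K) (c c' : K) (t t' : Fin 3 → K) : Prop :=
  ∃ (s : Set K) (a : ℕ), (∀ i j, P i j ∈ FF k s) ∧ (∀ i j, P' i j ∈ FF k s) ∧ c ∈ FF k s ∧
    c' ∈ FF k s ∧ (∀ i, t i ∈ FF k s) ∧ (∀ i, t' i ∈ FF k s) ∧ rk k s ≤ a ∧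
    a + Module.finrank K (Kc P P') ≤ 19

theorem key_zero [IsAlgClosed K] {P P' : M3 K} (h : P * P' = P' * P) (t t' : Fin 3 → K) :
    Key k P P' 0 0 t t' := by
  obtain ⟨s, a, h1, h2, h3, h4⟩ := bd_comm (k := k) h
  have m : FF k s ≤ FF k (s ∪ Set.range (Sum.elim t t' : Fin 3 ⊕ Fin 3 → K)) :=
    FF_mono Set.subset_union_left
  refine ⟨s ∪ Set.range (Sum.elim t t' : Fin 3 ⊕ Fin 3 → K), a + 6, fun i j => m (h1 i j),
    fun i j => m (h2 i j), zero_mem _, zero_mem _, fun i => mem_FF_self (Or.inr ⟨Sum.inl i, rfl⟩),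
    fun i => mem_FF_self (Or.inr ⟨Sum.inr i, rfl⟩), ?_, by omega⟩
  refine (rk_le_add_card (k := k) (Sum.elim t t' : Fin 3 ⊕ Fin 3 → K) (subset_FF _)).trans ?_
  push_cast
  gcongr
  simp

theorem key_ne {P P' : M3 K} {c c' : K} {t t' : Fin 3 → K} (hc : c ≠ 0)
    (h : P * P' + vecMulVec t ![0, 0, c'] = P' * P + vecMulVec t' ![0, 0, c])
    (h0 : c * P' 2 0 = c' * P 2 0) (h1 : c * P' 2 1 = c' * P 2 1) : Key k P P' c c' t t' := by
  set Z : M3 K := P' - (c' / c) • P - (P' 2 2 - c' / c * P 2 2) • 1 with hZ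
  have hP' : P' = Z + (c' / c) • P + (P' 2 2 - c' / c * P 2 2) • 1 := by
    rw [hZ]
    abel
  have hZ2 : ∀ j, Z 2 j = 0 := by
    intro j
    rw [hZ]
    fin_cases j
    · simp
      field_simp
      linear_combination h0
    · simp
      field_simp
      linear_combination h1
    · simp
  have hcomm : P * Z - Z * P = P * P' - P' * P := by
    rw [hZ]
    simp only [mul_sub, sub_mul, mul_smul_comm, smul_mul_assoc, mul_one, one_mul]
    abel
  have hent : ∀ i j, (P * Z) i j - (Z * P) i j =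
      t' i * (![0, 0, c] : Fin 3 → K) j - t i * (![0, 0, c'] : Fin 3 → K) j := by
    intro i j
    have e1 := congrFun (congrFun hcomm i) j
    have e2 := congrFun (congrFun h i) j
    rw [Matrix.add_apply, Matrix.add_apply, vecMulVec_apply, vecMulVec_apply] at e2
    rw [Matrix.sub_apply, Matrix.sub_apply] at e1
    linear_combination e1 + e2
  obtain ⟨s, a, b1, b2, b3, b4⟩ := bd_B (k := k) (P := P) (Z := Z) hZ2
    (fun i => by have := hent i 0; simpa [sub_eq_zero] using this)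
    (fun i => by have := hent i 1; simpa [sub_eq_zero] using this)
  set u : Fin 6 → K := ![c, c' / c, P' 2 2 - c' / c * P 2 2, t 0, t 1, t 2] with hu
  have m : FF k s ≤ FF k (s ∪ Set.range u) := FF_mono Set.subset_union_left
  have m0 : c ∈ FF k (s ∪ Set.range u) := mem_FF_self (Or.inr ⟨0, rfl⟩)
  have m1 : c' / c ∈ FF k (s ∪ Set.range u) := mem_FF_self (Or.inr ⟨1, rfl⟩)
  have m2 : P' 2 2 - c' / c * P 2 2 ∈ FF k (s ∪ Set.range u) := mem_FF_self (Or.inr ⟨2, rfl⟩)
  have mt : ∀ i, t i ∈ FF k (s ∪ Set.range u) := by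
    intro i
    fin_cases i
    exacts [mem_FF_self (Or.inr ⟨3, rfl⟩), mem_FF_self (Or.inr ⟨4, rfl⟩),
      mem_FF_self (Or.inr ⟨5, rfl⟩)]
  have mc' : c' ∈ FF k (s ∪ Set.range u) := by
    have : c' = c' / c * c := by field_simp
    rw [this]
    exact mul_mem m1 m0
  have mP : ∀ i j, P i j ∈ FF k (s ∪ Set.range u) := fun i j => m (b1 i j)
  have mZ : ∀ i j, Z i j ∈ FF k (s ∪ Set.range u) := fun i j => m (b2 i j)
  have mt' : ∀ i, t' i ∈ FF k (s ∪ Set.range u) := by
    intro i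
    have e1 := hent i 2
    have e2 : (P * Z) i 2 - (Z * P) i 2 = t' i * c - t i * c' := by simpa using e1
    have : t' i = ((P * Z) i 2 - (Z * P) i 2 + t i * c') / c := by
      rw [e2]
      field_simp
      ring
    rw [this]
    exact div_mem (add_mem (sub_mem (mul_mem' mP mZ i 2) (mul_mem' mZ mP i 2))
      (mul_mem (mt i) mc')) m0
  refine ⟨s ∪ Set.range u, a + 6, mP, fun i j => ?_, m0, mc', mt, mt', ?_, ?_⟩
  · rw [hP']
    simp only [Matrix.add_apply, Matrix.smul_apply, smul_eq_mul]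
    exact add_mem (add_mem (mZ i j) (mul_mem m1 (mP i j))) (mul_mem m2 (one_mem' _ i j))
  · refine (rk_le_add_card (k := k) u (subset_FF _)).trans ?_
    push_cast
    gcongr
    simp
  · have h3 : Module.finrank K (Kc P P') ≤ Module.finrank K (Kc P Z) :=
      Kc_mono fun Y y1 y2 => ⟨y1, by
        rw [hZ]
        simp only [mul_sub, sub_mul, mul_smul_comm, smul_mul_assoc, mul_one, one_mul, y1, y2]⟩
    omega

theorem Key.swap {P P' : M3 K} {c c' : K} {t t' : Fin 3 → K} (h : Key k P P' c c' t t') :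
    Key k P' P c' c t' t := by
  obtain ⟨s, a, h1, h2, h3, h4, h5, h6, h7, h8⟩ := h
  exact ⟨s, a, h2, h1, h4, h3, h6, h5, h7, by rwa [Kc_swap]⟩

theorem key_all [IsAlgClosed K] {P P' : M3 K} {c c' : K} {t t' : Fin 3 → K}
    (h : P * P' + vecMulVec t ![0, 0, c'] = P' * P + vecMulVec t' ![0, 0, c])
    (h0 : c * P' 2 0 = c' * P 2 0) (h1 : c * P' 2 1 = c' * P 2 1) : Key k P P' c c' t t' := by
  by_cases hc : c = 0
  · by_cases hc' : c' = 0
    · subst hc hc'
      refine key_zero ?_ t t'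
      have e : (![0, 0, 0] : Fin 3 → K) = 0 := by
        ext i
        fin_cases i <;> rfl
      rwa [e, vecMulVec_zero, vecMulVec_zero, add_zero, add_zero] at h
    · exact (key_ne hc' h.symm h0.symm h1.symm).swap
  · exact key_ne hc h h0 h1

end Cnt

/-- every commuting pair of this form has at most 47 independent coefficients -/
theorem count_4431 (k : Type*) {K : Type*} [Field k] [Field K] [Algebra k K] [IsAlgClosed K]
    {P Q P' Q' : M3 K} {R R' : M32 K} {w w' : Fin 2 → K} {c c' : K} {t t' : Fin 3 → K}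
    (h : Tt !![1, 0; 0, 1; 0, 0] P Q R w ![0, 0, c] t *
        Tt !![1, 0; 0, 1; 0, 0] P' Q' R' w' ![0, 0, c'] t' =
      Tt !![1, 0; 0, 1; 0, 0] P' Q' R' w' ![0, 0, c'] t' *
        Tt !![1, 0; 0, 1; 0, 0] P Q R w ![0, 0, c] t) :
    rk k (Set.range (co ![A5 (!![1, 0; 0, 1; 0, 0] : M32 K),
      Tt !![1, 0; 0, 1; 0, 0] P Q R w ![0, 0, c] t,
      Tt !![1, 0; 0, 1; 0, 0] P' Q' R' w' ![0, 0, c'] t'])) ≤ (47 : ℕ) := by
  obtain ⟨h1, -, h2, h3⟩ := T_comm_iff.1 h
  have e0 := congrFun h3 0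
  have e1 := congrFun h3 1
  simp [vecMul, dotProduct, Fin.sum_univ_three, Matrix.mul_apply] at e0 e1
  obtain ⟨s, a, k1, k2, k3, k4, k5, k6, k7, k8⟩ := Cnt.key_all (k := k) h1 e0 e1
  refine Cnt.count_upper k7 k8 k1 k2 (fun i => ?_) (fun i => ?_) k5 k6 h2
  · fin_cases i
    exacts [zero_mem _, zero_mem _, k3]
  · fin_cases i
    exacts [zero_mem _, zero_mem _, k4]

end Pool.Agent.Lib.D13.P4431
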