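import Pool.Agent.Lib.D13.P4431a
import Pool.Agent.Lib.D13.Frame
import Pool.Agent.Lib.D12.Blk4

/-!
# MP_5dcbc3_ag: type (4, 4, 3, 1), the centralizer of the Jordan matrix
-/

set_option autoImplicit false

namespace Pool.Agent.Lib.D13.P4431

open Matrix Pool.Agent.Lib.Q5dc Pool.Agent.Lib.D7 Pool.Agent.Lib.D8

variable {k : Type*} [Field k] {ρ : ℕ → ℕ}

/-- the inclusion `E → V` -/
def i0 : M32 k := !![1, 0; 0, 1; 0, 0]

/-- block diagonal matrices -/
def D5 (h : M2 k) (g : M3 k) (ν : k) : Matrix I5 I5 k := Matrix.of fun i j => match i, j with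
  | .inl i, .inl j => h i j
  | .inr (.inl i), .inr (.inl j) => g i j
  | .inr (.inr (.inl i)), .inr (.inr (.inl j)) => g i j
  | .inr (.inr (.inr (.inl i))), .inr (.inr (.inr (.inl j))) => g i j
  | .inr (.inr (.inr (.inr _))), .inr (.inr (.inr (.inr _))) => ν
  | _, _ => 0

section eval

variable (h : M2 k) (g : M3 k) (ν : k)

theorem E_00 (i : Fin 2) (j : Fin 2) : D5 h g ν (.inl i) (.inl j) = h i j := rfl

theorem E_01 (i : Fin 2) (j : Fin 3) : D5 h g ν (.inl i) (.inr (.inl j)) = 0 := rfl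

theorem E_02 (i : Fin 2) (j : Fin 3) : D5 h g ν (.inl i) (.inr (.inr (.inl j))) = 0 := rfl

theorem E_03 (i : Fin 2) (j : Fin 3) : D5 h g ν (.inl i) (.inr (.inr (.inr (.inl j)))) = 0 := rfl

theorem E_04 (i : Fin 2) (j : Unit) : D5 h g ν (.inl i) (.inr (.inr (.inr (.inr j)))) = 0 := rfl

theorem E_10 (i : Fin 3) (j : Fin 2) : D5 h g ν (.inr (.inl i)) (.inl j) = 0 := rfl

theorem E_11 (i : Fin 3) (j : Fin 3) : D5 h g ν (.inr (.inl i)) (.inr (.inl j)) = g i j := rfl

theorem E_12 (i : Fin 3) (j : Fin 3) : D5 h g ν (.inr (.inl i)) (.inr (.inr (.inl j))) = 0 := rfl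

theorem E_13 (i : Fin 3) (j : Fin 3) : D5 h g ν (.inr (.inl i)) (.inr (.inr (.inr (.inl j)))) = 0 := rfl

theorem E_14 (i : Fin 3) (j : Unit) : D5 h g ν (.inr (.inl i)) (.inr (.inr (.inr (.inr j)))) = 0 := rfl

theorem E_20 (i : Fin 3) (j : Fin 2) : D5 h g ν (.inr (.inr (.inl i))) (.inl j) = 0 := rfl

theorem E_21 (i : Fin 3) (j : Fin 3) : D5 h g ν (.inr (.inr (.inl i))) (.inr (.inl j)) = 0 := rfl

theorem E_22 (i : Fin 3) (j : Fin 3) : D5 h g ν (.inr (.inr (.inl i))) (.inr (.inr (.inl j))) = g i j := rfl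

theorem E_23 (i : Fin 3) (j : Fin 3) : D5 h g ν (.inr (.inr (.inl i))) (.inr (.inr (.inr (.inl j)))) = 0 := rfl

theorem E_24 (i : Fin 3) (j : Unit) : D5 h g ν (.inr (.inr (.inl i))) (.inr (.inr (.inr (.inr j)))) = 0 := rfl

theorem E_30 (i : Fin 3) (j : Fin 2) : D5 h g ν (.inr (.inr (.inr (.inl i)))) (.inl j) = 0 := rfl

theorem E_31 (i : Fin 3) (j : Fin 3) : D5 h g ν (.inr (.inr (.inr (.inl i)))) (.inr (.inl j)) = 0 := rfl

theorem E_32 (i : Fin 3) (j : Fin 3) : D5 h g ν (.inr (.inr (.inr (.inl i)))) (.inr (.inr (.inl j))) = 0 := rfl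

theorem E_33 (i : Fin 3) (j : Fin 3) : D5 h g ν (.inr (.inr (.inr (.inl i)))) (.inr (.inr (.inr (.inl j)))) = g i j := rfl

theorem E_34 (i : Fin 3) (j : Unit) : D5 h g ν (.inr (.inr (.inr (.inl i)))) (.inr (.inr (.inr (.inr j)))) = 0 := rfl

theorem E_40 (i : Unit) (j : Fin 2) : D5 h g ν (.inr (.inr (.inr (.inr i)))) (.inl j) = 0 := rfl

theorem E_41 (i : Unit) (j : Fin 3) : D5 h g ν (.inr (.inr (.inr (.inr i)))) (.inr (.inl j)) = 0 := rfl

theorem E_42 (i : Unit) (j : Fin 3) : D5 h g ν (.inr (.inr (.inr (.inr i)))) (.inr (.inr (.inl j))) = 0 := rfl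

theorem E_43 (i : Unit) (j : Fin 3) : D5 h g ν (.inr (.inr (.inr (.inr i)))) (.inr (.inr (.inr (.inl j)))) = 0 := rfl

theorem E_44 (i : Unit) (j : Unit) : D5 h g ν (.inr (.inr (.inr (.inr i)))) (.inr (.inr (.inr (.inr j)))) = ν := rfl

end eval

/-! ### products with the Jordan matrix -/

theorem A5_eq (ι : M32 k) : A5 ι = G ι 0 0 1 0 1 0 0 0 := by
  unfold A5 Tt
  rw [Matrix.one_mul, Matrix.zero_mul]

section prod

variable (ι : M32 k) (X : Matrix I5 I5 k)

theorem AX0 (i : Fin 2) (y : I5) : (A5 ι * X) (.inl i) y = 0 := by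
  rw [A5_eq]
  simp [Matrix.mul_apply, Fintype.sum_sum_type, G_00, G_01, G_02, G_03, G_04]

theorem AX1 (i : Fin 3) (y : I5) : (A5 ι * X) (.inr (.inl i)) y = ∑ l, ι i l * X (.inl l) y := by
  rw [A5_eq]
  simp [Matrix.mul_apply, Fintype.sum_sum_type, G_10, G_11, G_12, G_13, G_14]

theorem AX2 (i : Fin 3) (y : I5) : (A5 ι * X) (.inr (.inr (.inl i))) y = X (.inr (.inl i)) y := by
  rw [A5_eq]
  simp [Matrix.mul_apply, Fintype.sum_sum_type, G_20, G_21, G_22, G_23, G_24, Matrix.one_apply]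

theorem AX3 (i : Fin 3) (y : I5) :
    (A5 ι * X) (.inr (.inr (.inr (.inl i)))) y = X (.inr (.inr (.inl i))) y := by
  rw [A5_eq]
  simp [Matrix.mul_apply, Fintype.sum_sum_type, G_30, G_31, G_32, G_33, G_34, Matrix.one_apply]

theorem AX4 (i : Unit) (y : I5) : (A5 ι * X) (.inr (.inr (.inr (.inr i)))) y = 0 := by
  rw [A5_eq]
  simp [Matrix.mul_apply, Fintype.sum_sum_type, G_40, G_41, G_42, G_43, G_44]

theorem XA0 (x : I5) (j : Fin 2) : (X * A5 ι) x (.inl j) = ∑ l, X x (.inr (.inl l)) * ι l j := by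
  rw [A5_eq]
  simp [Matrix.mul_apply, Fintype.sum_sum_type, G_00, G_10, G_20, G_30, G_40]

theorem XA1 (x : I5) (j : Fin 3) :
    (X * A5 ι) x (.inr (.inl j)) = X x (.inr (.inr (.inl j))) := by
  rw [A5_eq]
  simp [Matrix.mul_apply, Fintype.sum_sum_type, G_01, G_11, G_21, G_31, G_41, Matrix.one_apply]

theorem XA2 (x : I5) (j : Fin 3) :
    (X * A5 ι) x (.inr (.inr (.inl j))) = X x (.inr (.inr (.inr (.inl j)))) := by
  rw [A5_eq]
  simp [Matrix.mul_apply, Fintype.sum_sum_type, G_02, G_12, G_22, G_32, G_42, Matrix.one_apply]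

theorem XA3 (x : I5) (j : Fin 3) : (X * A5 ι) x (.inr (.inr (.inr (.inl j)))) = 0 := by
  rw [A5_eq]
  simp [Matrix.mul_apply, Fintype.sum_sum_type, G_03, G_13, G_23, G_33, G_43]

theorem XA4 (x : I5) (j : Unit) : (X * A5 ι) x (.inr (.inr (.inr (.inr j)))) = 0 := by
  rw [A5_eq]
  simp [Matrix.mul_apply, Fintype.sum_sum_type, G_04, G_14, G_24, G_34, G_44]

end prod

/-- centralizer of `A5 ι` -/
theorem comm_shape {ι : M32 k} {l : Matrix (Fin 2) (Fin 3) k} (hl : l * ι = 1)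
    {X : Matrix I5 I5 k} (h : A5 ι * X = X * A5 ι) :
    ∃ (N : M2 k) (Z P Q : M3 k) (R : M32 k) (w : Fin 2 → k) (p t : Fin 3 → k) (ν : k),
      X = D5 N Z ν + Tt ι P Q R w p t ∧ Z * ι = ι * N ∧ p ᵥ* ι = 0 := by
  have H := fun i j => congrFun (congrFun h i) j
  have canc : ∀ f : Fin 2 → k, (∀ i, ∑ a, ι i a * f a = 0) → f = 0 := by
    intro f hf
    have h1 : ι *ᵥ f = 0 := by
      ext i
      exact hf i
    have h2 : l *ᵥ (ι *ᵥ f) = f := by rw [Matrix.mulVec_mulVec, hl, Matrix.one_mulVec]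
    rw [← h2, h1, Matrix.mulVec_zero]
  have z01' : ∀ i j, ∑ a, X (.inl i) (.inr (.inl a)) * ι a j = 0 := fun i j => by
    have := H (.inl i) (.inl j)
    rw [AX0, XA0] at this
    exact this.symm
  have z02 : ∀ i j, X (.inl i) (.inr (.inr (.inl j))) = 0 := fun i j => by
    have := H (.inl i) (.inr (.inl j))
    rw [AX0, XA1] at this
    exact this.symm
  have z03 : ∀ i j, X (.inl i) (.inr (.inr (.inr (.inl j)))) = 0 := fun i j => by
    have := H (.inl i) (.inr (.inr (.inl j)))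
    rw [AX0, XA2] at this
    exact this.symm
  have z40 : ∀ i j, ∑ a, X (.inr (.inr (.inr (.inr i)))) (.inr (.inl a)) * ι a j = 0 :=
      fun i j => by
    have := H (.inr (.inr (.inr (.inr i)))) (.inl j)
    rw [AX4, XA0] at this
    exact this.symm
  have z42 : ∀ i j, X (.inr (.inr (.inr (.inr i)))) (.inr (.inr (.inl j))) = 0 := fun i j => by
    have := H (.inr (.inr (.inr (.inr i)))) (.inr (.inl j))
    rw [AX4, XA1] at this
    exact this.symm
  have z43 : ∀ i j, X (.inr (.inr (.inr (.inr i)))) (.inr (.inr (.inr (.inl j)))) = 0 :=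
      fun i j => by
    have := H (.inr (.inr (.inr (.inr i)))) (.inr (.inr (.inl j)))
    rw [AX4, XA2] at this
    exact this.symm
  have e10 : ∀ i j, ∑ a, ι i a * X (.inl a) (.inl j) =
      ∑ a, X (.inr (.inl i)) (.inr (.inl a)) * ι a j := fun i j => by
    have := H (.inr (.inl i)) (.inl j)
    rwa [AX1, XA0] at this
  have e11 : ∀ i j, ∑ a, ι i a * X (.inl a) (.inr (.inl j)) =
      X (.inr (.inl i)) (.inr (.inr (.inl j))) := fun i j => by
    have := H (.inr (.inl i)) (.inr (.inl j))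
    rwa [AX1, XA1] at this
  have e14 : ∀ i j, ∑ a, ι i a * X (.inl a) (.inr (.inr (.inr (.inr j)))) = 0 := fun i j => by
    have := H (.inr (.inl i)) (.inr (.inr (.inr (.inr j))))
    rwa [AX1, XA4] at this
  have e20 : ∀ i j, X (.inr (.inl i)) (.inl j) =
      ∑ a, X (.inr (.inr (.inl i))) (.inr (.inl a)) * ι a j := fun i j => by
    have := H (.inr (.inr (.inl i))) (.inl j)
    rwa [AX2, XA0] at this
  have e21 : ∀ i j, X (.inr (.inr (.inl i))) (.inr (.inr (.inl j))) =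
      X (.inr (.inl i)) (.inr (.inl j)) := fun i j => by
    have := H (.inr (.inr (.inl i))) (.inr (.inl j))
    rw [AX2, XA1] at this
    exact this.symm
  have e22 : ∀ i j, X (.inr (.inl i)) (.inr (.inr (.inl j))) =
      X (.inr (.inr (.inl i))) (.inr (.inr (.inr (.inl j)))) := fun i j => by
    have := H (.inr (.inr (.inl i))) (.inr (.inr (.inl j)))
    rwa [AX2, XA2] at this
  have e23 : ∀ i j, X (.inr (.inl i)) (.inr (.inr (.inr (.inl j)))) = 0 := fun i j => by
    have := H (.inr (.inr (.inl i))) (.inr (.inr (.inr (.inl j))))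
    rwa [AX2, XA3] at this
  have e24 : ∀ i j, X (.inr (.inl i)) (.inr (.inr (.inr (.inr j)))) = 0 := fun i j => by
    have := H (.inr (.inr (.inl i))) (.inr (.inr (.inr (.inr j))))
    rwa [AX2, XA4] at this
  have e30 : ∀ i j, X (.inr (.inr (.inl i))) (.inl j) =
      ∑ a, X (.inr (.inr (.inr (.inl i)))) (.inr (.inl a)) * ι a j := fun i j => by
    have := H (.inr (.inr (.inr (.inl i)))) (.inl j)
    rwa [AX3, XA0] at this
  have e31 : ∀ i j, X (.inr (.inr (.inr (.inl i)))) (.inr (.inr (.inl j))) =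
      X (.inr (.inr (.inl i))) (.inr (.inl j)) := fun i j => by
    have := H (.inr (.inr (.inr (.inl i)))) (.inr (.inl j))
    rw [AX3, XA1] at this
    exact this.symm
  have e32 : ∀ i j, X (.inr (.inr (.inr (.inl i)))) (.inr (.inr (.inr (.inl j)))) =
      X (.inr (.inr (.inl i))) (.inr (.inr (.inl j))) := fun i j => by
    have := H (.inr (.inr (.inr (.inl i)))) (.inr (.inr (.inl j)))
    rw [AX3, XA2] at this
    exact this.symm
  have e33 : ∀ i j, X (.inr (.inr (.inl i))) (.inr (.inr (.inr (.inl j)))) = 0 := fun i j => by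
    have := H (.inr (.inr (.inr (.inl i)))) (.inr (.inr (.inr (.inl j))))
    rwa [AX3, XA3] at this
  have e34 : ∀ i j, X (.inr (.inr (.inl i))) (.inr (.inr (.inr (.inr j)))) = 0 := fun i j => by
    have := H (.inr (.inr (.inr (.inl i)))) (.inr (.inr (.inr (.inr j))))
    rwa [AX3, XA4] at this
  have z12 : ∀ i j, X (.inr (.inl i)) (.inr (.inr (.inl j))) = 0 := fun i j => by
    rw [e22, e33]
  have z01 : ∀ i j, X (.inl i) (.inr (.inl j)) = 0 := fun i j => by
    have := canc (fun a => X (.inl a) (.inr (.inl j))) fun i => by rw [e11, z12]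
    exact congrFun this i
  have z04 : ∀ i j, X (.inl i) (.inr (.inr (.inr (.inr j)))) = 0 := fun i j => by
    have := canc (fun a => X (.inl a) (.inr (.inr (.inr (.inr j))))) fun i => e14 i j
    exact congrFun this i
  refine ⟨Matrix.of fun i j => X (.inl i) (.inl j),
    Matrix.of fun i j => X (.inr (.inl i)) (.inr (.inl j)),
    Matrix.of fun i j => X (.inr (.inr (.inl i))) (.inr (.inl j)),
    Matrix.of fun i j => X (.inr (.inr (.inr (.inl i)))) (.inr (.inl j)),
    Matrix.of fun i j => X (.inr (.inr (.inr (.inl i)))) (.inl j),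
    fun j => X (.inr (.inr (.inr (.inr ())))) (.inl j),
    fun j => X (.inr (.inr (.inr (.inr ())))) (.inr (.inl j)),
    fun i => X (.inr (.inr (.inr (.inl i)))) (.inr (.inr (.inr (.inr ())))),
    X (.inr (.inr (.inr (.inr ())))) (.inr (.inr (.inr (.inr ())))), ?_, ?_, ?_⟩
  · unfold Tt
    ext i j
    rcases i with i | i | i | i | i <;> rcases j with j | j | j | j | j <;>
      rw [Matrix.add_apply] <;>
      simp only [G_00, G_01, G_02, G_03, G_04, G_10, G_11, G_12, G_13, G_14, G_20, G_21, G_22, G_23, G_24,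
        G_30, G_31, G_32, G_33, G_34, G_40, G_41, G_42, G_43, G_44, E_00, E_01, E_02, E_03, E_04,
        E_10, E_11, E_12, E_13, E_14, E_20, E_21, E_22, E_23, E_24, E_30, E_31, E_32, E_33, E_34,
        E_40, E_41, E_42, E_43, E_44, z01, z02, z03, z04, z12, z42, z43, e20, e21, e23, e24, e30,
        e31, e32, e33, e34, Matrix.mul_apply, Matrix.of_apply, zero_add, add_zero,
        Matrix.zero_apply]
  · ext i j
    rw [Matrix.mul_apply, Matrix.mul_apply]
    exact (e10 i j).symm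
  · ext j
    exact z40 () j

end Pool.Agent.Lib.D13.P4431
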