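import Pool.Agent.Lib.D13.P4431b

/-!
# MP_5dcbc3_ag: type (4, 4, 3, 1), the shape of the maximal bad triples
-/

set_option autoImplicit false

namespace Pool.Agent.Lib.D13.P4431

open Matrix Pool.Agent.Lib.Q5dc Pool.Agent.Lib.D7 Pool.Agent.Lib.D8

variable {k : Type*} [Field k] {ρ : ℕ → ℕ}

section

variable {ι : M32 k} {l : Matrix (Fin 2) (Fin 3) k} (hl : l * ι = 1) {X : Matrix I5 I5 k}
  (h : A5 ι * X = X * A5 ι)

include hl h

theorem z43 (i : Unit) (j : Fin 3) :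
    X (.inr (.inr (.inr (.inr i)))) (.inr (.inr (.inr (.inl j)))) = 0 := by
  obtain ⟨N, Z, P, Q, R, w, p, t, ν, rfl, -, -⟩ := comm_shape hl h
  unfold Tt
  rw [Matrix.add_apply, E_43, G_43, add_zero]

theorem pow_44 (i j : Unit) (m : ℕ) :
    (X ^ m) (.inr (.inr (.inr (.inr i)))) (.inr (.inr (.inr (.inr j)))) =
      (X (.inr (.inr (.inr (.inr i)))) (.inr (.inr (.inr (.inr j))))) ^ m := by
  induction m with
  | zero =>
    rw [pow_zero, pow_zero, Matrix.one_apply, if_pos (by simp)]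
  | succ m ih =>
    have hc : A5 ι * X ^ m = X ^ m * A5 ι := ((show Commute (A5 ι) X from h).pow_right m).eq
    have h0 : ∀ a : Fin 2, X (.inl a) (.inr (.inr (.inr (.inr j)))) = 0 := by
      obtain ⟨N, Z, P, Q, R, w, p, t, ν, rfl, -, -⟩ := comm_shape hl h
      intro a
      unfold Tt
      rw [Matrix.add_apply, E_04, G_04, add_zero]
    have h1 : ∀ a : Fin 3, X (.inr (.inl a)) (.inr (.inr (.inr (.inr j)))) = 0 := by
      obtain ⟨N, Z, P, Q, R, w, p, t, ν, rfl, -, -⟩ := comm_shape hl h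
      intro a
      unfold Tt
      rw [Matrix.add_apply, E_14, G_14, add_zero]
    have h2 : ∀ a : Fin 3, X (.inr (.inr (.inl a))) (.inr (.inr (.inr (.inr j)))) = 0 := by
      obtain ⟨N, Z, P, Q, R, w, p, t, ν, rfl, -, -⟩ := comm_shape hl h
      intro a
      unfold Tt
      rw [Matrix.add_apply, E_24, G_24, add_zero]
    rw [pow_succ, Matrix.mul_apply, pow_succ, ← ih]
    simp only [Fintype.sum_sum_type, h0, h1, h2, z43 hl hc, mul_zero, zero_mul,
      Finset.sum_const_zero, zero_add, Finset.univ_unique, Finset.sum_singleton]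

theorem pow_33 (i j : Fin 3) (m : ℕ) :
    (X ^ m) (.inr (.inr (.inr (.inl i)))) (.inr (.inr (.inr (.inl j)))) =
      ((Matrix.of fun i j => X (.inr (.inr (.inr (.inl i)))) (.inr (.inr (.inr (.inl j)))) :
        M3 k) ^ m) i j := by
  induction m generalizing j with
  | zero =>
    rw [pow_zero, pow_zero, Matrix.one_apply, Matrix.one_apply]
    simp
  | succ m ih =>
    have h0 : ∀ a : Fin 2, X (.inl a) (.inr (.inr (.inr (.inl j)))) = 0 := by
      obtain ⟨N, Z, P, Q, R, w, p, t, ν, rfl, -, -⟩ := comm_shape hl h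
      intro a
      unfold Tt
      rw [Matrix.add_apply, E_03, G_03, add_zero]
    have h1 : ∀ a : Fin 3, X (.inr (.inl a)) (.inr (.inr (.inr (.inl j)))) = 0 := by
      obtain ⟨N, Z, P, Q, R, w, p, t, ν, rfl, -, -⟩ := comm_shape hl h
      intro a
      unfold Tt
      rw [Matrix.add_apply, E_13, G_13, add_zero]
    have h2 : ∀ a : Fin 3, X (.inr (.inr (.inl a))) (.inr (.inr (.inr (.inl j)))) = 0 := by
      obtain ⟨N, Z, P, Q, R, w, p, t, ν, rfl, -, -⟩ := comm_shape hl h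
      intro a
      unfold Tt
      rw [Matrix.add_apply, E_23, G_23, add_zero]
    rw [pow_succ, Matrix.mul_apply, pow_succ, Matrix.mul_apply]
    simp only [Fintype.sum_sum_type, h0, h1, h2, z43 hl h, mul_zero,
      Finset.sum_const_zero, zero_add, add_zero]
    exact Finset.sum_congr rfl fun a _ => by rw [ih]; rfl

end

/-- the entries of a nilpotent matrix in the centralizer -/
theorem nil_shape {ι : M32 k} {l : Matrix (Fin 2) (Fin 3) k} (hl : l * ι = 1) {N : M2 k}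
    {Z P Q : M3 k} {R : M32 k} {w : Fin 2 → k} {p t : Fin 3 → k} {ν : k}
    (h : A5 ι * (D5 N Z ν + Tt ι P Q R w p t) = (D5 N Z ν + Tt ι P Q R w p t) * A5 ι)
    (hn : IsNilpotent (D5 N Z ν + Tt ι P Q R w p t)) : ν = 0 ∧ IsNilpotent Z := by
  obtain ⟨m, hm⟩ := hn
  constructor
  · have h1 := pow_44 hl h () () m
    rw [hm, Matrix.zero_apply] at h1
    have h2 := (show IsNilpotent ((D5 N Z ν + Tt ι P Q R w p t) (.inr (.inr (.inr (.inr ()))))
        (.inr (.inr (.inr (.inr ()))))) from ⟨m, h1.symm⟩).eq_zero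
    unfold Tt at h2
    rwa [Matrix.add_apply, E_44, G_44, add_zero] at h2
  · refine ⟨m, ?_⟩
    ext i j
    have h1 := pow_33 hl h i j m
    rw [hm, Matrix.zero_apply] at h1
    have h2 : (Matrix.of fun i j => (D5 N Z ν + Tt ι P Q R w p t) (.inr (.inr (.inr (.inl i))))
        (.inr (.inr (.inr (.inl j)))) : M3 k) = Z := by
      ext i j
      unfold Tt
      rw [Matrix.of_apply, Matrix.add_apply, E_33, G_33, add_zero]
    rw [h2] at h1
    rw [Matrix.zero_apply, ← h1]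

/-- polarization -/
theorem sq_mul [CharZero k] {T : Fin 3 → Matrix I5 I5 k} (hT : MaxR ρ T) (h4 : ρ 4 = 0)
    {A X Y : Matrix I5 I5 k} (hA : A ∈ adj T) (hX : X ∈ adj T) (hY : Y ∈ adj T) :
    A ^ 2 * X * Y = 0 := by
  have : Infinite k := CharZero.infinite k
  have key : ∀ M ∈ adj T, ∀ Y ∈ adj T, M ^ 3 * Y = 0 := by
    intro M hM Y hY
    refine D12.pow4_line (hT.cn.comm hM hY) fun t => hT.pow_eq_zero ?_ h4
    exact add_mem hM (SMulMemClass.smul_mem t hY)
  have hc : A * X = X * A := hT.cn.comm hA hX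
  have h1 := key (A + X) (add_mem hA hX) Y hY
  have h2 := key (A - X) (sub_mem hA hX) Y hY
  have h3 := key X hX Y hY
  have e1 : (A + X) ^ 3 = A ^ 3 + (3 : k) • (A ^ 2 * X) + (3 : k) • (A * X ^ 2) + X ^ 3 := by
    have : (A + X) ^ 3 = (A + X) * ((A + X) * (A + X)) := by
      rw [pow_succ', pow_two]
    rw [this]
    simp only [mul_add, add_mul, pow_succ, pow_zero, one_mul, ← mul_assoc]
    rw [← hc]
    have e2 : A * X * A = A * A * X := by rw [mul_assoc, ← hc, ← mul_assoc]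
    have e3 : X * X * A = A * X * X := by rw [mul_assoc, ← hc, ← mul_assoc, ← hc]
    rw [e2, e3]
    module
  have e2 : (A - X) ^ 3 = A ^ 3 - (3 : k) • (A ^ 2 * X) + (3 : k) • (A * X ^ 2) - X ^ 3 := by
    have : (A - X) ^ 3 = (A - X) * ((A - X) * (A - X)) := by
      rw [pow_succ', pow_two]
    rw [this]
    simp only [mul_sub, sub_mul, pow_succ, pow_zero, one_mul, ← mul_assoc]
    rw [← hc]
    have e2 : A * X * A = A * A * X := by rw [mul_assoc, ← hc, ← mul_assoc]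
    have e3 : X * X * A = A * X * X := by rw [mul_assoc, ← hc, ← mul_assoc, ← hc]
    rw [e2, e3]
    module
  have e3 : (6 : k) • (A ^ 2 * X * Y) = (A + X) ^ 3 * Y - (A - X) ^ 3 * Y
      - (2 : k) • (X ^ 3 * Y) := by
    rw [e1, e2]
    simp only [add_mul, sub_mul, smul_mul_assoc]
    module
  rw [h1, h2, h3, smul_zero, sub_zero, sub_zero] at e3
  exact (smul_eq_zero.1 e3).resolve_left (by norm_num)

/-- rows of products with powers of the Jordan matrix -/
theorem A3_row (ι : M32 k) (X : Matrix I5 I5 k) (i : Fin 3) (y : I5) :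
    (A5 ι ^ 3 * X) (.inr (.inr (.inr (.inl i)))) y = ∑ a, ι i a * X (.inl a) y := by
  have : A5 ι ^ 3 * X = A5 ι * (A5 ι * (A5 ι * X)) := by
    rw [pow_succ, pow_two, mul_assoc, mul_assoc]
  rw [this, AX3, AX2, AX1]

theorem A2_row (ι : M32 k) (X : Matrix I5 I5 k) (i : Fin 3) (y : I5) :
    (A5 ι ^ 2 * X) (.inr (.inr (.inr (.inl i)))) y = X (.inr (.inl i)) y := by
  rw [pow_two, mul_assoc, AX3, AX2]

/-- the shape of one matrix -/
theorem shape1 [CharZero k] {ι : M32 k} {l : Matrix (Fin 2) (Fin 3) k} (hl : l * ι = 1)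
    {T : Fin 3 → Matrix I5 I5 k} (hT : MaxR ρ T) (h4 : ρ 4 = 0) (h0 : T 0 = A5 ι)
    {X : Matrix I5 I5 k} (hX : X ∈ adj T) :
    ∃ (Z P Q : M3 k) (R : M32 k) (w : Fin 2 → k) (p t : Fin 3 → k),
      X = D5 0 Z 0 + Tt ι P Q R w p t ∧ Z * ι = 0 ∧ p ᵥ* ι = 0 ∧ Z.trace = 0 := by
  have : Infinite k := CharZero.infinite k
  have hA : A5 ι ∈ adj T := h0 ▸ mem_adj T 0
  have hc : A5 ι * X = X * A5 ι := hT.cn.comm hA hX
  obtain ⟨N, Z, P, Q, R, w, p, t, ν, hX', hZ, hp⟩ := comm_shape hl hc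
  have hn := hT.cn.nilp hX
  rw [hX'] at hc hn
  obtain ⟨hν, hZn⟩ := nil_shape hl hc hn
  have h3 : A5 ι ^ 3 * X = 0 := D12.pow4_line (hT.cn.comm hA hX) fun s => hT.pow_eq_zero
    (add_mem hA (SMulMemClass.smul_mem s hX)) h4
  have hN : ι * N = 0 := by
    ext i j
    have h1 := A3_row ι X i (.inl j)
    rw [h3, Matrix.zero_apply, hX'] at h1
    unfold Tt at h1
    simp only [Matrix.add_apply, E_00, G_00, add_zero] at h1
    rw [Matrix.mul_apply, Matrix.zero_apply]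
    exact h1.symm
  have hN0 : N = 0 := by
    have : l * (ι * N) = N := by rw [← Matrix.mul_assoc, hl, Matrix.one_mul]
    rw [← this, hN, Matrix.mul_zero]
  refine ⟨Z, P, Q, R, w, p, t, ?_, ?_, hp, ?_⟩
  · rw [hX', hN0, hν]
  · rw [hZ, hN]
  · exact (Matrix.isNilpotent_trace_of_isNilpotent hZn).eq_zero

/-- products -/
theorem ZP_zero [CharZero k] {ι : M32 k} {T : Fin 3 → Matrix I5 I5 k} (hT : MaxR ρ T)
    (h4 : ρ 4 = 0) (h0 : T 0 = A5 ι) {Z P Q : M3 k} {R : M32 k} {w : Fin 2 → k} {p t : Fin 3 → k}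
    (hX : D5 0 Z 0 + Tt ι P Q R w p t ∈ adj T) {Z' P' Q' : M3 k} {R' : M32 k} {w' : Fin 2 → k}
    {p' t' : Fin 3 → k} (hY : D5 0 Z' 0 + Tt ι P' Q' R' w' p' t' ∈ adj T) :
    Z * (P' * ι) = 0 := by
  have hA : A5 ι ∈ adj T := h0 ▸ mem_adj T 0
  have h1 := sq_mul hT h4 hA hX hY
  rw [mul_assoc] at h1
  ext i j
  have h2 := A2_row ι ((D5 0 Z 0 + Tt ι P Q R w p t) * (D5 0 Z' 0 + Tt ι P' Q' R' w' p' t')) i
    (.inl j)
  rw [h1, Matrix.zero_apply, Matrix.mul_apply] at h2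
  unfold Tt at h2
  simp only [Fintype.sum_sum_type, Matrix.add_apply, E_10, E_11, E_12, E_13, E_14, E_00, E_20,
    E_30, E_40, G_10, G_11, G_12, G_13, G_14, G_00, G_20, G_30, G_40, add_zero, zero_add,
    Matrix.zero_apply, zero_mul, mul_zero, Finset.sum_const_zero] at h2
  rw [Matrix.mul_apply, Matrix.zero_apply]
  exact h2.symm

/-- `N = 0`, `ν = 0`, `Z ι = 0`, and all products `Z_i P_j ι` vanish -/
theorem max_shape [CharZero k] {ι : M32 k} {l : Matrix (Fin 2) (Fin 3) k} (hl : l * ι = 1)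
    {T : Fin 3 → Matrix I5 I5 k} (hT : MaxR ρ T) (h4 : ρ 4 = 0) (h0 : T 0 = A5 ι) :
    ∃ (Z P Q : Fin 3 → M3 k) (R : Fin 3 → M32 k) (w : Fin 3 → Fin 2 → k)
      (p t : Fin 3 → Fin 3 → k),
      (∀ i, T i = D5 0 (Z i) 0 + Tt ι (P i) (Q i) (R i) (w i) (p i) (t i)) ∧
      (∀ i, Z i * ι = 0) ∧ (∀ i, p i ᵥ* ι = 0) ∧ (∀ i j, Z i * (P j * ι) = 0) ∧
      ∀ i, (Z i).trace = 0 := by
  have key := fun i => shape1 hl hT h4 h0 (mem_adj T i)
  choose Z P Q R w p t h1 h2 h3 h5 using key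
  refine ⟨Z, P, Q, R, w, p, t, h1, h2, h3, fun i j => ?_, h5⟩
  exact ZP_zero hT h4 h0 (h1 i ▸ mem_adj T i) (h1 j ▸ mem_adj T j)

/-! ### the flip -/

/-- the chains are reversed -/
def fl : I5 → I5
  | .inl i => .inr (.inr (.inr (.inl (if i = 0 then 0 else 1))))
  | .inr (.inl i) => if i = 0 then .inr (.inr (.inl 0)) else if i = 1 then .inr (.inr (.inl 1)) else
    .inr (.inr (.inr (.inl 2)))
  | .inr (.inr (.inl i)) => if i = 0 then .inr (.inl 0) else if i = 1 then .inr (.inl 1) else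
    .inr (.inr (.inl 2))
  | .inr (.inr (.inr (.inl i))) => if i = 0 then .inl 0 else if i = 1 then .inl 1 else
    .inr (.inl 2)
  | .inr (.inr (.inr (.inr i))) => .inr (.inr (.inr (.inr i)))

theorem fl_fl (x : I5) : fl (fl x) = x := by
  revert x
  decide

/-- the flip as a permutation -/
def flE : I5 ≃ I5 := ⟨fl, fl, fl_fl, fl_fl⟩

/-- `x` is the successor of `y` -/
def st : I5 → I5 → Bool
  | .inr (.inl i), .inl j => decide ((i : ℕ) = j)
  | .inr (.inr (.inl i)), .inr (.inl j) => decide (i = j)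
  | .inr (.inr (.inr (.inl i))), .inr (.inr (.inl j)) => decide (i = j)
  | _, _ => false

theorem A5_st (x y : I5) : A5 (i0 : M32 k) x y = if st x y = true then 1 else 0 := by
  rw [A5_eq]
  rcases x with i | i | i | i | i <;> rcases y with j | j | j | j | j
  all_goals first
    | exact (if_neg (show ¬ (false = true) from Bool.false_ne_true)).symm
    | skip
  · rw [G_10]
    fin_cases i <;> fin_cases j <;> simp [i0, st]
  · rw [G_21, Matrix.one_apply]
    simp [st]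
  · rw [G_32, Matrix.one_apply]
    simp [st]

theorem st_flip : ∀ x y : I5, st (fl y) (fl x) = st x y := by
  decide +kernel

theorem A5_flip (x y : I5) : A5 (i0 : M32 k) (fl y) (fl x) = A5 i0 x y := by
  rw [A5_st, A5_st, st_flip]

/-- the boxes of the diagram -/
def bx : I5 → IxL [4, 4, 3, 1]
  | .inl i => if i = 0 then ⟨⟨0, by decide⟩, ⟨0, by decide⟩⟩ else ⟨⟨1, by decide⟩, ⟨0, by decide⟩⟩
  | .inr (.inl i) => if i = 0 then ⟨⟨0, by decide⟩, ⟨1, by decide⟩⟩ else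
    if i = 1 then ⟨⟨1, by decide⟩, ⟨1, by decide⟩⟩ else ⟨⟨2, by decide⟩, ⟨0, by decide⟩⟩
  | .inr (.inr (.inl i)) => if i = 0 then ⟨⟨0, by decide⟩, ⟨2, by decide⟩⟩ else
    if i = 1 then ⟨⟨1, by decide⟩, ⟨2, by decide⟩⟩ else ⟨⟨2, by decide⟩, ⟨1, by decide⟩⟩
  | .inr (.inr (.inr (.inl i))) => if i = 0 then ⟨⟨0, by decide⟩, ⟨3, by decide⟩⟩ else
    if i = 1 then ⟨⟨1, by decide⟩, ⟨3, by decide⟩⟩ else ⟨⟨2, by decide⟩, ⟨2, by decide⟩⟩
  | .inr (.inr (.inr (.inr _))) => ⟨⟨3, by decide⟩, ⟨0, by decide⟩⟩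

theorem bx_st : ∀ x y : I5, (st x y = true ↔
    (bx x).1 = (bx y).1 ∧ ((bx x).2 : ℕ) = (bx y).2 + 1) := by
  decide +kernel

theorem bx_inj : Function.Injective bx := by
  have h : ∀ x y : I5, ¬ ((bx x).1 = (bx y).1 ∧ ((bx x).2 : ℕ) = ((bx y).2 : ℕ)) ∨ x = y := by
    decide +kernel
  intro x y hxy
  exact (h x y).resolve_left (by rw [hxy, not_not]; exact ⟨rfl, rfl⟩)

/-- the type `(4, 4, 3, 1)` on the index type `I5` -/
theorem not_bad_of_I5 [Infinite k] (h : ∀ (ρ : ℕ → ℕ) (T : Fin 3 → Matrix I5 I5 k), MaxR ρ T →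
    (∀ i, ρ i = (A5 (i0 : M32 k) ^ i).rank) → T 0 = A5 i0 → False) : ¬ Bad k [4, 4, 3, 1] := by
  refine not_bad_of (A5 (i0 : M32 k)) bx bx_inj (by decide +kernel) (fun x y => ?_) h
  rw [A5_st]
  exact if_congr (bx_st x y) rfl rfl

/-- the flipped transpose -/
theorem max_flip [Infinite k] {T : Fin 3 → Matrix I5 I5 k} (hT : MaxR ρ T) :
    MaxR ρ fun i => Matrix.of fun x y => T i (fl y) (fl x) :=
  D9.MaxR.reindex flE hT.transpose

theorem four_zero (hρ : ∀ i, ρ i = (A5 (i0 : M32 k) ^ i).rank) : ρ 4 = 0 := by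
  rw [hρ, show (4 : ℕ) = 2 + 2 from rfl, pow_add, pow_two, A5_eq, G_mul, G_mul]
  simp [G_zero]

theorem p_eq {p : Fin 3 → k} (hp : p ᵥ* (i0 : M32 k) = 0) : p = ![0, 0, p 2] := by
  have h0 := congrFun hp 0
  have h1 := congrFun hp 1
  simp [vecMul, dotProduct, Fin.sum_univ_three, i0] at h0 h1
  funext i
  fin_cases i
  · exact h0
  · exact h1
  · rfl

theorem D5_zero : D5 (0 : M2 k) 0 0 = 0 := by
  ext i j
  rcases i with i | i | i | i | i <;> rcases j with j | j | j | j | j <;> rfl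

/-- a triple or its flipped transpose has the normal form -/
theorem shape_or [CharZero k] {T : Fin 3 → Matrix I5 I5 k} (hT : MaxR ρ T)
    (h4 : ρ 4 = 0) (h0 : T 0 = A5 i0) :
    ∃ (T' : Fin 3 → Matrix I5 I5 k) (P Q P' Q' : M3 k) (R R' : M32 k) (w w' : Fin 2 → k)
      (c c' : k) (t t' : Fin 3 → k), MaxR ρ T' ∧ Set.range (co T') = Set.range (co T) ∧
      T' = ![A5 i0, Tt i0 P Q R w ![0, 0, c] t, Tt i0 P' Q' R' w' ![0, 0, c'] t'] := by
  have : Infinite k := CharZero.infinite k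
  have hl : (!![1, 0, 0; 0, 1, 0] : Matrix (Fin 2) (Fin 3) k) * (i0 : M32 k) = 1 := by
    ext i j
    fin_cases i <;> fin_cases j <;> simp [i0, Matrix.mul_apply, Fin.sum_univ_three]
  -- columns of `Z`
  have col : ∀ Z : M3 k, Z * (i0 : M32 k) = 0 → (∀ a, Z a 0 = 0) ∧ ∀ a, Z a 1 = 0 := by
    intro Z hZ
    constructor
    · intro a
      have := congrFun (congrFun hZ a) 0
      simpa [Matrix.mul_apply, Fin.sum_univ_three, i0] using this
    · intro a
      have := congrFun (congrFun hZ a) 1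
      simpa [Matrix.mul_apply, Fin.sum_univ_three, i0] using this
  have fin : ∀ T : Fin 3 → Matrix I5 I5 k, MaxR ρ T → T 0 = A5 i0 →
      ∀ (Z P Q : Fin 3 → M3 k) (R : Fin 3 → M32 k) (w : Fin 3 → Fin 2 → k)
      (p t : Fin 3 → Fin 3 → k),
      (∀ i, T i = D5 0 (Z i) 0 + Tt i0 (P i) (Q i) (R i) (w i) (p i) (t i)) →
      (∀ i, p i ᵥ* (i0 : M32 k) = 0) → (∀ i, Z i = 0) →
      ∃ (P Q P' Q' : M3 k) (R R' : M32 k) (w w' : Fin 2 → k)
      (c c' : k) (t t' : Fin 3 → k),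
      T = ![A5 i0, Tt i0 P Q R w ![0, 0, c] t, Tt i0 P' Q' R' w' ![0, 0, c'] t'] := by
    intro T hT h0 Z P Q R w p t h1 h2 h3
    refine ⟨P 1, Q 1, P 2, Q 2, R 1, R 2, w 1, w 2, p 1 2, p 2 2, t 1, t 2, ?_⟩
    rw [← p_eq (h2 1), ← p_eq (h2 2)]
    funext i
    fin_cases i
    · exact h0
    · change T 1 = _
      rw [h1, h3, D5_zero, zero_add]
      rfl
    · change T 2 = _
      rw [h1, h3, D5_zero, zero_add]
      rfl
  obtain ⟨Z, P, Q, R, w, p, t, h1, h2, h3, h5, h6⟩ := max_shape hl hT h4 h0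
  by_cases hZ : ∀ i, Z i = 0
  · obtain ⟨P, Q, P', Q', R, R', w, w', c, c', t, t', he⟩ := fin T hT h0 Z P Q R w p t h1 h3 hZ
    exact ⟨T, P, Q, P', Q', R, R', w, w', c, c', t, t', hT, rfl, he⟩
  push Not at hZ
  obtain ⟨i, hi⟩ := hZ
  -- the rows `al0` vanish
  have hP : ∀ j, P j 2 0 = 0 ∧ P j 2 1 = 0 := by
    obtain ⟨a, ha⟩ : ∃ a, Z i a 2 ≠ 0 := by
      by_contra hne
      push Not at hne
      apply hi
      ext a b
      fin_cases b
      · exact (col _ (h2 i)).1 a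
      · exact (col _ (h2 i)).2 a
      · exact hne a
    intro j
    have hj := h5 i j
    constructor
    · have := congrFun (congrFun hj a) 0
      simp [Matrix.mul_apply, Fin.sum_univ_three, i0, (col _ (h2 i)).1 a,
        (col _ (h2 i)).2 a] at this
      exact this.resolve_left ha
    · have := congrFun (congrFun hj a) 1
      simp [Matrix.mul_apply, Fin.sum_univ_three, i0, (col _ (h2 i)).1 a,
        (col _ (h2 i)).2 a] at this
      exact this.resolve_left ha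
  have hT' := max_flip hT
  have h0' : (Matrix.of fun x y => T 0 (fl y) (fl x) : Matrix I5 I5 k) = A5 i0 := by
    ext x y
    rw [Matrix.of_apply, h0, A5_flip]
  obtain ⟨Z', P', Q', R', w', p', t', h1', h2', h3', h5', h6'⟩ := max_shape hl hT' h4 h0'
  have hZ' : ∀ i, Z' i = 0 := by
    intro i
    have e : ∀ a : Fin 3, Z' i a 2 = T i (fl (.inr (.inl 2))) (fl (.inr (.inl a))) := by
      intro a
      have := congrFun (congrFun (h1' i) (.inr (.inl a))) (.inr (.inl 2))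
      unfold Tt at this
      rw [Matrix.of_apply, Matrix.add_apply, E_11, G_11, add_zero] at this
      exact this.symm
    have e0 : Z' i 0 2 = 0 := by
      rw [e]
      change T i (.inr (.inr (.inr (.inl 2)))) (.inr (.inr (.inl 0))) = 0
      rw [h1]
      unfold Tt
      rw [Matrix.add_apply, E_32, G_32, zero_add, (hP i).1]
    have e1 : Z' i 1 2 = 0 := by
      rw [e]
      change T i (.inr (.inr (.inr (.inl 2)))) (.inr (.inr (.inl 1))) = 0
      rw [h1]
      unfold Tt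
      rw [Matrix.add_apply, E_32, G_32, zero_add, (hP i).2]
    have e2 : Z' i 2 2 = 0 := by
      have := h6' i
      rw [Matrix.trace_fin_three, (col _ (h2' i)).1, (col _ (h2' i)).2, zero_add,
        zero_add] at this
      exact this
    ext a b
    fin_cases b
    · exact (col _ (h2' i)).1 a
    · exact (col _ (h2' i)).2 a
    · fin_cases a
      · exact e0
      · exact e1
      · exact e2
  obtain ⟨P, Q, P', Q', R, R', w, w', c, c', t, t', he⟩ :=
    fin _ hT' h0' Z' P' Q' R' w' p' t' h1' h3' hZ'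
  refine ⟨_, P, Q, P', Q', R, R', w, w', c, c', t, t', hT', ?_, he⟩
  ext z
  constructor
  · rintro ⟨⟨i, x, y⟩, rfl⟩
    exact ⟨(i, fl y, fl x), rfl⟩
  · rintro ⟨⟨i, x, y⟩, rfl⟩
    refine ⟨(i, fl y, fl x), ?_⟩
    change T i (fl (fl x)) (fl (fl y)) = T i x y
    rw [fl_fl, fl_fl]

end Pool.Agent.Lib.D13.P4431
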