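import Pool.Agent.Lib.D8.Two
import Pool.Agent.Lib.D8.Corank

/-!
# MP_5dcbc3_ag: nilpotent matrices with any Jordan blocks: the matrices commuting with them as
matrices of polynomials
-/

namespace Pool.Agent.Lib.D13

open Matrix Polynomial Pool.Agent.Lib.Q5dc Pool.Agent.Lib.D7 Pool.Agent.Lib.D8

namespace PB

variable {k : Type*} [Field k] {N r : ℕ}

/-- `∑ i, (z i)(A) w i` -/
noncomputable def pi (A : Matrix (Fin N) (Fin N) k) (w : Fin r → Fin N → k) (z : Fin r → k[X]) :
    Fin N → k :=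
  ∑ i, aeval A (z i) *ᵥ w i

/-- `A` has Jordan blocks of sizes `l i`, generated by `w i` -/
structure BlkB (A : Matrix (Fin N) (Fin N) k) (w : Fin r → Fin N → k) (l : Fin r → ℕ) : Prop where
  card : N = ∑ i, l i
  ann : ∀ i, A ^ l i *ᵥ w i = 0
  span : ∀ x, ∃ z, x = pi A w z

variable {A : Matrix (Fin N) (Fin N) k} {w : Fin r → Fin N → k} {l : Fin r → ℕ}

theorem pi_add (z z' : Fin r → k[X]) : pi A w (z + z') = pi A w z + pi A w z' := by
  simp only [pi, Pi.add_apply, map_add, Matrix.add_mulVec, Finset.sum_add_distrib]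

theorem pi_smul (p : k[X]) (z : Fin r → k[X]) : pi A w (p • z) = aeval A p *ᵥ pi A w z := by
  unfold pi
  rw [Matrix.mulVec_sum]
  refine Finset.sum_congr rfl fun i _ => ?_
  rw [Pi.smul_apply, smul_eq_mul, map_mul, ← Matrix.mulVec_mulVec]

theorem pi_csmul (c : k) (z : Fin r → k[X]) : pi A w (c • z) = c • pi A w z := by
  unfold pi
  rw [Finset.smul_sum]
  refine Finset.sum_congr rfl fun i _ => ?_
  rw [Pi.smul_apply, map_smul, Matrix.smul_mulVec]

theorem pi_zero : pi A w 0 = 0 := by
  simp [pi]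

theorem pi_neg (z : Fin r → k[X]) : pi A w (-z) = -pi A w z := by
  have := pi_csmul (A := A) (w := w) (-1) z
  rwa [neg_one_smul, neg_one_smul] at this

theorem pi_sub (z z' : Fin r → k[X]) : pi A w (z - z') = pi A w z - pi A w z' := by
  rw [sub_eq_add_neg, pi_add, pi_neg, ← sub_eq_add_neg]

theorem pi_sum {ι : Type*} (s : Finset ι) (z : ι → Fin r → k[X]) :
    pi A w (∑ j ∈ s, z j) = ∑ j ∈ s, pi A w (z j) := by
  classical
  induction s using Finset.induction_on with
  | empty => rw [Finset.sum_empty, Finset.sum_empty, pi_zero]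
  | insert a s ha ih => rw [Finset.sum_insert ha, Finset.sum_insert ha, pi_add, ih]

theorem pi_single (i : Fin r) (p : k[X]) : pi A w (Pi.single i p) = aeval A p *ᵥ w i := by
  unfold pi
  rw [Finset.sum_eq_single i]
  · rw [Pi.single_eq_same]
  · intro j _ hj
    rw [Pi.single_eq_of_ne hj, map_zero, Matrix.zero_mulVec]
  · intro h
    exact absurd (Finset.mem_univ i) h

theorem act_of_dvd {e : ℕ} {x : Fin N → k} (hw : A ^ e *ᵥ x = 0) {p : k[X]} (hp : X ^ e ∣ p) :
    aeval A p *ᵥ x = 0 := by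
  obtain ⟨q, rfl⟩ := hp
  rw [mul_comm, map_mul, map_pow, aeval_X, ← Matrix.mulVec_mulVec, hw, Matrix.mulVec_zero]

theorem pi_eq_zero_of_dvd (h : ∀ i, A ^ l i *ᵥ w i = 0) {z : Fin r → k[X]}
    (hz : ∀ i, X ^ l i ∣ z i) : pi A w z = 0 := by
  unfold pi
  exact Finset.sum_eq_zero fun i _ => act_of_dvd (h i) (hz i)

theorem pi_eq_zero (h : BlkB A w l) (z : Fin r → k[X]) :
    pi A w z = 0 ↔ ∀ i, X ^ l i ∣ z i := by
  constructor
  · intro hz
    -- the map from tuples of polynomials of small degree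
    let f : ((i : Fin r) → degreeLT k (l i)) →ₗ[k] (Fin N → k) :=
      { toFun := fun p => pi A w fun i => (p i : k[X])
        map_add' := by
          intro p q
          rw [← pi_add]
          rfl
        map_smul' := by
          intro c p
          rw [RingHom.id_apply, ← pi_csmul]
          rfl }
    have hmod : ∀ z : Fin r → k[X], ∃ p : (i : Fin r) → degreeLT k (l i),
        ∀ i, X ^ l i ∣ z i - (p i : k[X]) := by
      intro z
      have hm : ∀ i, (X ^ l i : k[X]).Monic := fun i => monic_X_pow _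
      refine ⟨fun i => ⟨z i %ₘ X ^ l i, ?_⟩, fun i => ?_⟩
      · rw [mem_degreeLT]
        have := degree_modByMonic_lt (z i) (hm i)
        rwa [degree_X_pow] at this
      · refine ⟨z i /ₘ X ^ l i, ?_⟩
        have := modByMonic_add_div (z i) (X ^ l i : k[X])
        show z i - z i %ₘ X ^ l i = _
        linear_combination -this
    have hpi : ∀ (z : Fin r → k[X]) (p : (i : Fin r) → degreeLT k (l i)),
        (∀ i, X ^ l i ∣ z i - (p i : k[X])) → pi A w z = f p := by
      intro z p h0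
      have h2 : pi A w (z - fun i => (p i : k[X])) = 0 := pi_eq_zero_of_dvd h.ann h0
      rw [pi_sub, sub_eq_zero] at h2
      exact h2
    have hsurj : Function.Surjective f := by
      intro x
      obtain ⟨z, rfl⟩ := h.span x
      obtain ⟨p, h0⟩ := hmod z
      exact ⟨p, (hpi z p h0).symm⟩
    have hfd : ∀ i, Module.finrank k (degreeLT k (l i)) = l i := fun i => by
      rw [(degreeLTEquiv k (l i)).finrank_eq, Module.finrank_fin_fun]
    have : ∀ i, Module.Finite k (degreeLT k (l i)) := fun i =>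
      Module.Finite.equiv (degreeLTEquiv k (l i)).symm
    have : ∀ i, Module.Free k (degreeLT k (l i)) := fun i => Module.Free.of_divisionRing k _
    have hinj : Function.Injective f := by
      refine (LinearMap.injective_iff_surjective_of_finrank_eq_finrank ?_).2 hsurj
      rw [Module.finrank_pi_fintype, Module.finrank_fin_fun, h.card]
      exact Finset.sum_congr rfl fun i _ => hfd i
    obtain ⟨p, h0⟩ := hmod z
    have h2 : f p = 0 := by rw [← hpi z p h0, hz]
    have h3 : p = 0 := hinj (by rw [h2, map_zero])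
    rw [h3] at h0
    intro i
    simpa using h0 i
  · exact pi_eq_zero_of_dvd h.ann

/-- `B` acts as the matrix `P` of polynomials -/
def Rep (A : Matrix (Fin N) (Fin N) k) (w : Fin r → Fin N → k) (B : Matrix (Fin N) (Fin N) k)
    (P : Matrix (Fin r) (Fin r) k[X]) : Prop :=
  ∀ z, B *ᵥ pi A w z = pi A w (P *ᵥ z)

theorem Rep.mul {B C : Matrix (Fin N) (Fin N) k} {P Q : Matrix (Fin r) (Fin r) k[X]}
    (hB : Rep A w B P) (hC : Rep A w C Q) : Rep A w (B * C) (P * Q) := by
  intro z
  rw [← Matrix.mulVec_mulVec, hC z, hB, Matrix.mulVec_mulVec]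

theorem Rep.add {B C : Matrix (Fin N) (Fin N) k} {P Q : Matrix (Fin r) (Fin r) k[X]}
    (hB : Rep A w B P) (hC : Rep A w C Q) : Rep A w (B + C) (P + Q) := by
  intro z
  rw [Matrix.add_mulVec, hC z, hB, Matrix.add_mulVec, pi_add]

theorem Rep.sub {B C : Matrix (Fin N) (Fin N) k} {P Q : Matrix (Fin r) (Fin r) k[X]}
    (hB : Rep A w B P) (hC : Rep A w C Q) : Rep A w (B - C) (P - Q) := by
  intro z
  rw [Matrix.sub_mulVec, hC z, hB, Matrix.sub_mulVec, pi_sub]

theorem Rep.neg {B : Matrix (Fin N) (Fin N) k} {P : Matrix (Fin r) (Fin r) k[X]}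
    (hB : Rep A w B P) : Rep A w (-B) (-P) := by
  intro z
  rw [Matrix.neg_mulVec, hB z, Matrix.neg_mulVec, pi_neg]

theorem Rep.smul {B : Matrix (Fin N) (Fin N) k} {P : Matrix (Fin r) (Fin r) k[X]}
    (hB : Rep A w B P) (c : k) : Rep A w (c • B) (c • P) := by
  intro z
  rw [Matrix.smul_mulVec, hB, Matrix.smul_mulVec, pi_csmul]

theorem Rep.one : Rep A w 1 1 := by
  intro z
  rw [Matrix.one_mulVec, Matrix.one_mulVec]

theorem Rep.zero : Rep A w 0 0 := by
  intro z
  rw [Matrix.zero_mulVec, Matrix.zero_mulVec, pi_zero]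

theorem Rep.pow {B : Matrix (Fin N) (Fin N) k} {P : Matrix (Fin r) (Fin r) k[X]}
    (hB : Rep A w B P) (i : ℕ) : Rep A w (B ^ i) (P ^ i) := by
  induction i with
  | zero => rw [pow_zero, pow_zero]; exact Rep.one
  | succ i ih => rw [pow_succ, pow_succ]; exact ih.mul hB

/-- polynomials in `A` -/
theorem Rep.aeval (p : k[X]) : Rep A w (aeval A p) (p • (1 : Matrix (Fin r) (Fin r) k[X])) := by
  intro z
  rw [Matrix.smul_mulVec, Matrix.one_mulVec, pi_smul]

theorem Rep.polysmul {B : Matrix (Fin N) (Fin N) k} {P : Matrix (Fin r) (Fin r) k[X]}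
    (hB : Rep A w B P) (p : k[X]) : Rep A w (Polynomial.aeval A p * B) (p • P) := by
  have := (Rep.aeval (A := A) (w := w) p).mul hB
  rwa [smul_mul_assoc, one_mul] at this

theorem repA : Rep A w A ((X : k[X]) • (1 : Matrix (Fin r) (Fin r) k[X])) := by
  have := Rep.aeval (A := A) (w := w) X
  rwa [aeval_X] at this

theorem Rep.congr {B : Matrix (Fin N) (Fin N) k} {P Q : Matrix (Fin r) (Fin r) k[X]}
    (hB : Rep A w B P) (h : P = Q) : Rep A w B Q := h ▸ hB

/-- divisibility of all entries by the kernel -/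
def Ker (l : Fin r → ℕ) (P : Matrix (Fin r) (Fin r) k[X]) : Prop :=
  ∀ i j, X ^ l i ∣ P i j

/-- the matrices of polynomials which act -/
def Adm (l : Fin r → ℕ) (P : Matrix (Fin r) (Fin r) k[X]) : Prop :=
  ∀ i j, X ^ l i ∣ X ^ l j * P i j

theorem mulVec_single_one' (P : Matrix (Fin r) (Fin r) k[X]) (j : Fin r) :
    P *ᵥ Pi.single j 1 = fun i => P i j := by
  exact Matrix.mulVec_single_one P j

theorem Rep.apply {B : Matrix (Fin N) (Fin N) k} {P : Matrix (Fin r) (Fin r) k[X]}
    (hB : Rep A w B P) (j : Fin r) : B *ᵥ w j = pi A w fun i => P i j := by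
  have h1 := hB (Pi.single j 1)
  rwa [pi_single, map_one, Matrix.one_mulVec, mulVec_single_one'] at h1

theorem rep_of_apply {B : Matrix (Fin N) (Fin N) k} {P : Matrix (Fin r) (Fin r) k[X]}
    (hAB : A * B = B * A) (h : ∀ j, B *ᵥ w j = pi A w fun i => P i j) : Rep A w B P := by
  have hcomm : ∀ p : k[X], B * Polynomial.aeval A p = Polynomial.aeval A p * B := by
    intro p
    rw [Polynomial.aeval_eq_sum_range, Finset.mul_sum, Finset.sum_mul]
    refine Finset.sum_congr rfl fun i _ => ?_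
    rw [mul_smul_comm, smul_mul_assoc, (Commute.pow_right (show Commute B A from hAB.symm) i).eq]
  intro z
  have e : P *ᵥ z = ∑ j, z j • fun i => P i j := by
    funext i
    rw [Matrix.mulVec, dotProduct, Finset.sum_apply]
    refine Finset.sum_congr rfl fun j _ => ?_
    rw [Pi.smul_apply, smul_eq_mul, mul_comm]
  rw [e, pi_sum]
  conv_lhs => unfold pi
  rw [Matrix.mulVec_sum]
  refine Finset.sum_congr rfl fun j _ => ?_
  rw [pi_smul, ← h, Matrix.mulVec_mulVec, Matrix.mulVec_mulVec, hcomm]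

theorem Rep.eq_zero_iff (h : BlkB A w l) {B : Matrix (Fin N) (Fin N) k}
    {P : Matrix (Fin r) (Fin r) k[X]} (hB : Rep A w B P) : B = 0 ↔ Ker l P := by
  constructor
  · rintro rfl i j
    have h0 := hB.apply j
    rw [Matrix.zero_mulVec] at h0
    exact (pi_eq_zero h _).1 h0.symm i
  · intro hP
    have h6 : ∀ x, B *ᵥ x = 0 := by
      intro x
      obtain ⟨z, rfl⟩ := h.span x
      rw [hB, pi_eq_zero h]
      intro i
      rw [Matrix.mulVec, dotProduct]
      exact Finset.dvd_sum fun j _ => (hP i j).mul_right _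
    have h8 : Matrix.toLin' B = Matrix.toLin' 0 := by
      rw [map_zero]
      exact LinearMap.ext h6
    exact Matrix.toLin'.injective h8

theorem Rep.eq_iff (h : BlkB A w l) {B C : Matrix (Fin N) (Fin N) k}
    {P Q : Matrix (Fin r) (Fin r) k[X]} (hB : Rep A w B P) (hC : Rep A w C Q) :
    B = C ↔ Ker l (P - Q) := by
  rw [← sub_eq_zero, (hB.sub hC).eq_zero_iff h]

theorem Rep.eq (h : BlkB A w l) {B C : Matrix (Fin N) (Fin N) k}
    {P : Matrix (Fin r) (Fin r) k[X]} (hB : Rep A w B P) (hC : Rep A w C P) : B = C := by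
  rw [hB.eq_iff h hC, sub_self]
  exact fun _ _ => dvd_zero _

/-- the entries matter only modulo the kernel -/
theorem Rep.of_ker (h : BlkB A w l) {B : Matrix (Fin N) (Fin N) k}
    {P Q : Matrix (Fin r) (Fin r) k[X]} (hB : Rep A w B P) (hPQ : Ker l (P - Q)) :
    Rep A w B Q := by
  intro z
  rw [hB z, ← sub_eq_zero, ← pi_sub, ← Matrix.sub_mulVec, pi_eq_zero h]
  intro i
  rw [Matrix.mulVec, dotProduct]
  exact Finset.dvd_sum fun j _ => (hPQ i j).mul_right _

/-- existence of the matrix -/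
theorem exists_of_rep (h : BlkB A w l) (P : Matrix (Fin r) (Fin r) k[X]) (hP : Adm l P) :
    ∃ B, Rep A w B P := by
  let f : (Fin r → k[X]) →ₗ[k] (Fin N → k) :=
    { toFun := pi A w
      map_add' := pi_add
      map_smul' := pi_csmul }
  have hf : Function.Surjective f := fun x => by
    obtain ⟨z, hz⟩ := h.span x
    exact ⟨z, hz.symm⟩
  obtain ⟨g, hg⟩ := f.exists_rightInverse_of_surjective (LinearMap.range_eq_top.2 hf)
  let M : (Fin N → k) →ₗ[k] (Fin N → k) :=
    { toFun := fun x => f (P *ᵥ g x)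
      map_add' := by
        intro x x'
        rw [map_add, Matrix.mulVec_add, map_add]
      map_smul' := by
        intro c x
        rw [map_smul, RingHom.id_apply, ← map_smul f]
        congr 1
        rw [Matrix.mulVec_smul] }
  refine ⟨LinearMap.toMatrix' M, fun z => ?_⟩
  have h1 : LinearMap.toMatrix' M *ᵥ pi A w z = M (pi A w z) := by
    rw [← Matrix.toLin'_apply, Matrix.toLin'_toMatrix']
  rw [h1]
  show f (P *ᵥ g (f z)) = f (P *ᵥ z)
  rw [← sub_eq_zero, ← map_sub, ← Matrix.mulVec_sub]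
  have h2 : f (g (f z) - z) = 0 := by
    rw [map_sub]
    have : f (g (f z)) = f z := by
      have := LinearMap.congr_fun hg (f z)
      exact this
    rw [this, sub_self]
  set z' := g (f z) - z with hz'
  have h3 : pi A w z' = 0 := h2
  show pi A w (P *ᵥ z') = 0
  rw [pi_eq_zero h] at h3 ⊢
  intro i
  rw [Matrix.mulVec, dotProduct]
  refine Finset.dvd_sum fun j _ => ?_
  obtain ⟨c, hc⟩ := h3 j
  rw [hc, ← mul_assoc, mul_comm (P i j)]
  exact (hP i j).mul_right _

/-- the matrices commuting with `A` -/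
theorem rep_of_comm (h : BlkB A w l) {B : Matrix (Fin N) (Fin N) k} (hB : A * B = B * A) :
    ∃ P, Rep A w B P ∧ Adm l P := by
  choose z hz using fun j => h.span (B *ᵥ w j)
  refine ⟨Matrix.of fun i j => z j i, rep_of_apply hB hz, fun i j => ?_⟩
  have h2 : pi A w ((X : k[X]) ^ l j • z j) = 0 := by
    rw [pi_smul, ← hz, map_pow, aeval_X, Matrix.mulVec_mulVec]
    have h3 : A ^ l j * B = B * A ^ l j := (Commute.pow_left (show Commute A B from hB) (l j))
    rw [h3, ← Matrix.mulVec_mulVec, h.ann, Matrix.mulVec_zero]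
  exact (pi_eq_zero h _).1 h2 i

theorem comm_A (h : BlkB A w l) {B : Matrix (Fin N) (Fin N) k}
    {P : Matrix (Fin r) (Fin r) k[X]} (hB : Rep A w B P) : A * B = B * A := by
  refine Rep.eq h (P := (X : k[X]) • P) ?_ ?_
  · have := repA.mul hB
    rwa [smul_mul_assoc, one_mul] at this
  · have := hB.mul repA
    rwa [mul_smul_comm, mul_one] at this

theorem comm_iff (h : BlkB A w l) {B C : Matrix (Fin N) (Fin N) k}
    {P Q : Matrix (Fin r) (Fin r) k[X]} (hB : Rep A w B P) (hC : Rep A w C Q) :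
    B * C = C * B ↔ Ker l (P * Q - Q * P) :=
  (hB.mul hC).eq_iff h (hC.mul hB)

/-- nilpotency, from a power divisible by `X` -/
theorem nilp (h : BlkB A w l) {B : Matrix (Fin N) (Fin N) k}
    {P P' : Matrix (Fin r) (Fin r) k[X]} (hB : Rep A w B P) {e : ℕ}
    (hP : P ^ e = (X : k[X]) • P') : IsNilpotent B := by
  refine ⟨e * N, ?_⟩
  have h1 := hB.pow (e * N)
  rw [h1.eq_zero_iff h]
  have h2 : P ^ (e * N) = (X : k[X]) ^ N • P' ^ N := by
    rw [pow_mul, hP, _root_.smul_pow]
  rw [h2]
  intro i j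
  have h3 : ((X : k[X]) ^ N • P' ^ N) i j = X ^ N * (P' ^ N) i j := rfl
  rw [h3]
  refine Dvd.dvd.mul_right (pow_dvd_pow X ?_) _
  rw [h.card]
  exact Finset.single_le_sum (f := l) (fun _ _ => Nat.zero_le _) (Finset.mem_univ i)

/-- nilpotency, from the constant terms -/
theorem nilp_const (h : BlkB A w l) {B : Matrix (Fin N) (Fin N) k}
    {P : Matrix (Fin r) (Fin r) k[X]} (hB : Rep A w B P) {e : ℕ}
    (hP : ∀ i j, X ∣ (P ^ e) i j) : IsNilpotent B := by
  choose P' hP' using hP
  refine nilp h hB (e := e) (P' := Matrix.of P') ?_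
  refine Matrix.ext fun i j => ?_
  rw [hP']
  rfl

theorem nilp_A (h : BlkB A w l) : IsNilpotent A :=
  nilp h repA (e := 1) (P' := 1) (by rw [pow_one])

/-- new generators -/
theorem BlkB.change (h : BlkB A w l) {G H : Matrix (Fin r) (Fin r) k[X]} (hG : Adm l G)
    (hGH : Ker l (G * H - 1)) :
    BlkB A (fun j => pi A w fun i => G i j) l := by
  have hpi : ∀ z, pi A (fun j => pi A w fun i => G i j) z = pi A w (G *ᵥ z) := by
    intro z
    have e : G *ᵥ z = ∑ j, z j • fun i => G i j := by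
      funext i
      rw [Matrix.mulVec, dotProduct, Finset.sum_apply]
      refine Finset.sum_congr rfl fun j _ => ?_
      rw [Pi.smul_apply, smul_eq_mul, mul_comm]
    rw [e, pi_sum]
    conv_lhs => unfold pi
    refine Finset.sum_congr rfl fun j _ => ?_
    rw [pi_smul]
    rfl
  refine ⟨h.card, fun j => ?_, fun x => ?_⟩
  · show A ^ l j *ᵥ pi A w (fun i => G i j) = 0
    have h1 : A ^ l j = aeval A ((X : k[X]) ^ l j) := by rw [map_pow, aeval_X]
    rw [h1, ← pi_smul, pi_eq_zero h]
    exact fun i => hG i j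
  · obtain ⟨z, rfl⟩ := h.span x
    refine ⟨H *ᵥ z, ?_⟩
    rw [hpi, Matrix.mulVec_mulVec, ← sub_eq_zero, ← pi_sub, pi_eq_zero h]
    intro i
    have e : z - (G * H) *ᵥ z = -((G * H - 1) *ᵥ z) := by
      rw [Matrix.sub_mulVec, Matrix.one_mulVec]
      abel
    rw [e, Pi.neg_apply, dvd_neg, Matrix.mulVec, dotProduct]
    exact Finset.dvd_sum fun j _ => (hGH i j).mul_right _

theorem pi_change (G : Matrix (Fin r) (Fin r) k[X]) (z : Fin r → k[X]) :
    pi A (fun j => pi A w fun i => G i j) z = pi A w (G *ᵥ z) := by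
  have e : G *ᵥ z = ∑ j, z j • fun i => G i j := by
    funext i
    rw [Matrix.mulVec, dotProduct, Finset.sum_apply]
    refine Finset.sum_congr rfl fun j _ => ?_
    rw [Pi.smul_apply, smul_eq_mul, mul_comm]
  rw [e, pi_sum]
  conv_lhs => unfold pi
  refine Finset.sum_congr rfl fun j _ => ?_
  rw [pi_smul]
  rfl

theorem Rep.change (h : BlkB A w l) {G : Matrix (Fin r) (Fin r) k[X]}
    {B : Matrix (Fin N) (Fin N) k} {P Q : Matrix (Fin r) (Fin r) k[X]} (hB : Rep A w B P)
    (hPQ : Ker l (P * G - G * Q)) : Rep A (fun j => pi A w fun i => G i j) B Q := by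
  intro z
  rw [pi_change, pi_change, hB, Matrix.mulVec_mulVec, Matrix.mulVec_mulVec, ← sub_eq_zero,
    ← pi_sub, ← Matrix.sub_mulVec, pi_eq_zero h]
  intro i
  rw [Matrix.mulVec, dotProduct]
  exact Finset.dvd_sum fun j _ => (hPQ i j).mul_right _

/-- the commuting nilpotent triple -/
theorem cn3 (h : BlkB A w l) {B C : Matrix (Fin N) (Fin N) k}
    (hAB : A * B = B * A) (hAC : A * C = C * A) (hBC : B * C = C * B) (hB : IsNilpotent B)
    (hC : IsNilpotent C) : CN ![A, B, C] := by
  refine ⟨fun i j => ?_, fun i => ?_⟩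
  · fin_cases i <;> fin_cases j
    · rfl
    · exact hAB
    · exact hAC
    · exact hAB.symm
    · rfl
    · exact hBC
    · exact hAC.symm
    · exact hBC.symm
    · rfl
  · fin_cases i
    · exact nilp_A h
    · exact hB
    · exact hC

end PB

end Pool.Agent.Lib.D13
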