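import Pool.Agent.Lib.D13.Ab1S

/-!
# MP_5dcbc3_ag: polynomial matrices: transposition
-/

namespace Pool.Agent.Lib.D13

open Matrix Polynomial Pool.Agent.Lib.Q5dc Pool.Agent.Lib.D7 Pool.Agent.Lib.D8

namespace PB

variable {k : Type*} [Field k] {N r : ℕ}

theorem aeval_transpose (A : Matrix (Fin N) (Fin N) k) (p : k[X]) :
    aeval Aᵀ p = (aeval A p)ᵀ := by
  rw [aeval_eq_sum_range, aeval_eq_sum_range, Matrix.transpose_sum]
  refine Finset.sum_congr rfl fun i _ => ?_
  rw [Matrix.transpose_smul, Matrix.transpose_pow]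

variable {A : Matrix (Fin N) (Fin N) k} {w : Fin r → Fin N → k} {l : Fin r → ℕ}

theorem dual_aux (h : BlkB A w l) (hl : ∀ i, 1 ≤ l i) : ∃ w' : Fin r → Fin N → k,
    ∀ i z, w' i ⬝ᵥ pi A w z = (z i).coeff (l i - 1) := by
  let f : (Fin r → k[X]) →ₗ[k] (Fin N → k) :=
    { toFun := pi A w
      map_add' := pi_add
      map_smul' := pi_csmul }
  have hf : Function.Surjective f := fun x => by
    obtain ⟨z, hz⟩ := h.span x
    exact ⟨z, hz.symm⟩
  obtain ⟨g, hg⟩ := f.exists_rightInverse_of_surjective (LinearMap.range_eq_top.2 hf)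
  have hg' : ∀ z, ∀ i, X ^ l i ∣ g (pi A w z) i - z i := by
    intro z
    have h1 : pi A w (g (pi A w z) - z) = 0 := by
      rw [pi_sub, sub_eq_zero]
      have := LinearMap.congr_fun hg (pi A w z)
      exact this
    exact (pi_eq_zero h _).1 h1
  let φ : Fin r → (Fin N → k) →ₗ[k] k := fun i =>
    (lcoeff k (l i - 1)).comp ((LinearMap.proj i).comp g)
  refine ⟨fun i m => φ i (Pi.single m 1), fun i z => ?_⟩
  have h1 : ∀ x, (fun m => φ i (Pi.single m 1)) ⬝ᵥ x = φ i x := by
    intro x
    have hx : x = ∑ m, x m • (Pi.single m 1 : Fin N → k) := by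
      funext m
      rw [Finset.sum_apply, Finset.sum_eq_single m]
      · simp
      · intro m' _ hm'
        simp [Pi.single_apply, hm'.symm]
      · intro hm
        exact absurd (Finset.mem_univ m) hm
    conv_rhs => rw [hx]
    rw [map_sum, dotProduct]
    refine Finset.sum_congr rfl fun m _ => ?_
    rw [map_smul, smul_eq_mul, mul_comm]
  rw [h1]
  show (g (pi A w z) i).coeff (l i - 1) = _
  obtain ⟨c, hc⟩ := hg' z i
  have h2 : g (pi A w z) i = z i + X ^ l i * c := by linear_combination hc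
  rw [h2, coeff_add, coeff_X_pow_mul', if_neg (by have := hl i; omega), add_zero]

theorem dot_ext {x y : Fin N → k} (h : BlkB A w l)
    (hxy : ∀ z, x ⬝ᵥ pi A w z = y ⬝ᵥ pi A w z) : x = y := by
  funext m
  obtain ⟨z, hz⟩ := h.span (Pi.single m 1)
  have := hxy z
  rw [← hz] at this
  simpa using this

/-- the dual generators -/
theorem BlkB.dual (h : BlkB A w l) (hl : ∀ i, 1 ≤ l i) :
    ∃ w' : Fin r → Fin N → k, BlkB Aᵀ w' l ∧
      ∀ (B : Matrix (Fin N) (Fin N) k) (P Q : Matrix (Fin r) (Fin r) k[X]), Rep A w B P →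
        (∀ i j, X ^ (l i + l j) ∣ X ^ l j * P i j - X ^ l i * Q j i) → Rep Aᵀ w' Bᵀ Q := by
  obtain ⟨w', hw'⟩ := dual_aux h hl
  -- the pairing
  have hmv : ∀ (M : Matrix (Fin N) (Fin N) k) (x y : Fin N → k),
      (Mᵀ *ᵥ x) ⬝ᵥ y = x ⬝ᵥ (M *ᵥ y) := by
    intro M x y
    rw [Matrix.mulVec_transpose, Matrix.dotProduct_mulVec]
  have hp1 : ∀ (p : k[X]) (i : Fin r) (z : Fin r → k[X]),
      (aeval Aᵀ p *ᵥ w' i) ⬝ᵥ pi A w z = (p * z i).coeff (l i - 1) := by
    intro p i z
    rw [aeval_transpose, hmv, ← pi_smul, hw']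
    rfl
  have hpair : ∀ z z', pi Aᵀ w' z ⬝ᵥ pi A w z' = ∑ i, (z i * z' i).coeff (l i - 1) := by
    intro z z'
    conv_lhs => rw [pi.eq_def Aᵀ w' z]
    rw [sum_dotProduct]
    exact Finset.sum_congr rfl fun i _ => hp1 _ _ _
  have hann : ∀ i, Aᵀ ^ l i *ᵥ w' i = 0 := by
    intro i
    refine dot_ext h fun z => ?_
    have h1 : Aᵀ ^ l i = aeval Aᵀ ((X : k[X]) ^ l i) := by rw [map_pow, aeval_X]
    rw [h1, hp1, zero_dotProduct, coeff_X_pow_mul', if_neg (by have := hl i; omega)]
  refine ⟨w', ⟨h.card, hann, ?_⟩, ?_⟩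
  · -- surjectivity
    let f : ((i : Fin r) → degreeLT k (l i)) →ₗ[k] (Fin N → k) :=
      { toFun := fun p => pi Aᵀ w' fun i => (p i : k[X])
        map_add' := by
          intro p q
          rw [← pi_add]
          rfl
        map_smul' := by
          intro c p
          rw [RingHom.id_apply, ← pi_csmul]
          rfl }
    have hfd : ∀ i, Module.finrank k (degreeLT k (l i)) = l i := fun i => by
      rw [(degreeLTEquiv k (l i)).finrank_eq, Module.finrank_fin_fun]
    have : ∀ i, Module.Finite k (degreeLT k (l i)) := fun i =>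
      Module.Finite.equiv (degreeLTEquiv k (l i)).symm
    have : ∀ i, Module.Free k (degreeLT k (l i)) := fun i => Module.Free.of_divisionRing k _
    have hinj : Function.Injective f := by
      rw [← LinearMap.ker_eq_bot, LinearMap.ker_eq_bot']
      intro p hp
      funext i
      refine Subtype.ext ?_
      show (p i : k[X]) = 0
      have h0 : pi Aᵀ w' (fun i => (p i : k[X])) = 0 := hp
      have hdeg : (p i : k[X]).degree < l i := mem_degreeLT.1 (p i).2
      ext m
      rw [coeff_zero]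
      by_cases hm : m < l i
      · have h1 := hpair (fun i => (p i : k[X])) (Pi.single i (X ^ (l i - 1 - m)))
        rw [h0, zero_dotProduct, Finset.sum_eq_single i] at h1
        · rw [Pi.single_eq_same, coeff_mul_X_pow', if_pos (by omega)] at h1
          have h2 : l i - 1 - (l i - 1 - m) = m := by omega
          rw [h2] at h1
          exact h1.symm
        · intro j _ hj
          rw [Pi.single_eq_of_ne hj, mul_zero, coeff_zero]
        · intro hi
          exact absurd (Finset.mem_univ i) hi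
      · refine coeff_eq_zero_of_degree_lt (lt_of_lt_of_le hdeg ?_)
        exact_mod_cast (not_lt.1 hm)
    have hsurj : Function.Surjective f := by
      refine (LinearMap.injective_iff_surjective_of_finrank_eq_finrank ?_).1 hinj
      rw [Module.finrank_pi_fintype, Module.finrank_fin_fun, h.card]
      exact Finset.sum_congr rfl fun i _ => hfd i
    intro x
    obtain ⟨p, hp⟩ := hsurj x
    exact ⟨fun i => (p i : k[X]), hp.symm⟩
  · intro B P Q hB hPQ z
    refine dot_ext h fun z' => ?_
    rw [hmv, hB, hpair, hpair]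
    have e1 : ∀ i, (z i * (P *ᵥ z') i).coeff (l i - 1) =
        ∑ j, (z i * (P i j * z' j)).coeff (l i - 1) := by
      intro i
      rw [Matrix.mulVec, dotProduct, Finset.mul_sum, finsetSum_coeff]
    have e2 : ∀ j, ((Q *ᵥ z) j * z' j).coeff (l j - 1) =
        ∑ i, (Q j i * z i * z' j).coeff (l j - 1) := by
      intro j
      rw [Matrix.mulVec, dotProduct, Finset.sum_mul, finsetSum_coeff]
    simp only [e1, e2]
    rw [Finset.sum_comm]
    refine Finset.sum_congr rfl fun j _ => Finset.sum_congr rfl fun i _ => ?_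
    have hi := hl i
    have hj := hl j
    have c1 : (z i * (P i j * z' j)).coeff (l i - 1) =
        (X ^ l j * P i j * (z i * z' j)).coeff (l i + l j - 1) := by
      have : X ^ l j * P i j * (z i * z' j) = X ^ l j * (z i * (P i j * z' j)) := by ring
      rw [this, coeff_X_pow_mul', if_pos (by omega)]
      congr 1
      omega
    have c2 : (Q j i * z i * z' j).coeff (l j - 1) =
        (X ^ l i * Q j i * (z i * z' j)).coeff (l i + l j - 1) := by
      have : X ^ l i * Q j i * (z i * z' j) = X ^ l i * (Q j i * z i * z' j) := by ring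
      rw [this, coeff_X_pow_mul', if_pos (by omega)]
      congr 1
      omega
    obtain ⟨c, hc⟩ := hPQ i j
    rw [c1, c2, ← sub_eq_zero, ← coeff_sub, ← sub_mul, hc, mul_assoc, coeff_X_pow_mul',
      if_neg (by omega)]

/-- the transposed of a matrix of the form `Mx` -/
theorem mx_dual {w : Fin 3 → Fin N → k} {b δ : ℕ} (hA : Bl A w b δ) (hb : 1 ≤ b) :
    ∃ w' : Fin 3 → Fin N → k, Bl Aᵀ w' b δ ∧
      ∀ (B : Matrix (Fin N) (Fin N) k) (c f q r : k[X]) (t u g h : k),
        Rep A w B (Mx b δ c f q r t u g h) → Rep Aᵀ w' Bᵀ (Mx b δ c r q f g h t u) := by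
  obtain ⟨w', h1, h2⟩ := BlkB.dual hA (by
    intro i
    fin_cases i
    · show 1 ≤ b + δ
      omega
    · exact hb
    · exact le_rfl)
  refine ⟨w', h1, fun B c f q r t u g h hB => h2 B _ _ hB ?_⟩
  have e1 : (X : k[X]) ^ 1 * X ^ (b + δ - 1) = X ^ (b + δ) := by
    rw [← pow_add]
    congr 1
    omega
  have e2 : (X : k[X]) ^ 1 * X ^ (b - 1) = X ^ b := by
    rw [← pow_add]
    congr 1
    omega
  have key : ∀ i j : Fin 3, (X : k[X]) ^ (![b + δ, b, 1] j) * Mx b δ c f q r t u g h i j -
      X ^ (![b + δ, b, 1] i) * Mx b δ c r q f g h t u j i = 0 := by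
    intro i j
    fin_cases i <;> fin_cases j
    · show (X : k[X]) ^ (b + δ) * c - X ^ (b + δ) * c = 0
      ring
    · show (X : k[X]) ^ b * (X ^ δ * f) - X ^ (b + δ) * f = 0
      ring
    · show (X : k[X]) ^ 1 * (X ^ (b + δ - 1) * C g) - X ^ (b + δ) * C g = 0
      rw [← mul_assoc, e1, sub_self]
    · show (X : k[X]) ^ (b + δ) * r - X ^ b * (X ^ δ * r) = 0
      ring
    · show (X : k[X]) ^ b * q - X ^ b * q = 0
      ring
    · show (X : k[X]) ^ 1 * (X ^ (b - 1) * C h) - X ^ b * C h = 0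
      rw [← mul_assoc, e2, sub_self]
    · show (X : k[X]) ^ (b + δ) * C t - X ^ 1 * (X ^ (b + δ - 1) * C t) = 0
      rw [← mul_assoc, e1, sub_self]
    · show (X : k[X]) ^ b * C u - X ^ 1 * (X ^ (b - 1) * C u) = 0
      rw [← mul_assoc, e2, sub_self]
    · show (X : k[X]) ^ 1 * 0 - X ^ 1 * 0 = 0
      ring
  intro i j
  rw [key]
  exact dvd_zero _

end PB

end Pool.Agent.Lib.D13
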