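import Pool.Agent.Lib.D13.PB

/-!
# MP_5dcbc3_ag: polynomial families of matrices given by polynomial families of matrices of
polynomials
-/

namespace Pool.Agent.Lib.D13

open Matrix Polynomial Pool.Agent.Lib.Q5dc Pool.Agent.Lib.D7 Pool.Agent.Lib.D8

namespace PB

variable {k : Type*} [Field k] {N r : ℕ} {A : Matrix (Fin N) (Fin N) k}
  {w : Fin r → Fin N → k} {l : Fin r → ℕ}

theorem Rep.sum {ι : Type*} (t : Finset ι) {B : ι → Matrix (Fin N) (Fin N) k}
    {P : ι → Matrix (Fin r) (Fin r) k[X]} (h : ∀ i ∈ t, Rep A w (B i) (P i)) :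
    Rep A w (∑ i ∈ t, B i) (∑ i ∈ t, P i) := by
  classical
  induction t using Finset.induction_on with
  | empty => simpa using Rep.zero (A := A) (w := w)
  | insert a t ha ih =>
    rw [Finset.sum_insert ha, Finset.sum_insert ha]
    exact (h a (Finset.mem_insert_self a t)).add (ih fun i hi => h i (Finset.mem_insert_of_mem hi))

theorem isPoly_sum' {ι : Type*} (t : Finset ι) {f : ι → k → k} (h : ∀ i ∈ t, IsPoly (f i)) :
    IsPoly fun s => ∑ i ∈ t, f i s := by
  classical
  induction t using Finset.induction_on with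
  | empty => simpa using D7.IsPoly.const (0 : k)
  | insert a t ha ih =>
    simp only [Finset.sum_insert ha]
    exact (h a (Finset.mem_insert_self a t)).add
      (ih fun i hi => h i (Finset.mem_insert_of_mem hi))

/-- the coefficients which vanish by admissibility -/
theorem Adm.coeff {P : Matrix (Fin r) (Fin r) k[X]} (hP : Adm l P) {i j : Fin r} {m : ℕ}
    (hm : l j + m < l i) : (P i j).coeff m = 0 := by
  have h1 := X_pow_dvd_iff.1 (hP i j) (l j + m) hm
  rwa [add_comm, coeff_X_pow_mul] at h1

/-- a polynomial family of matrices -/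
theorem exists_family (h : BlkB A w l) (P : k → Matrix (Fin r) (Fin r) k[X])
    (hP : ∀ s, Adm l (P s)) (hpoly : ∀ i j m, IsPoly fun s => (P s i j).coeff m) :
    ∃ B : k → Matrix (Fin N) (Fin N) k, (∀ x y, IsPoly fun s => B s x y) ∧
      ∀ s, Rep A w (B s) (P s) := by
  classical
  have hE : ∀ (i j : Fin r) (m : ℕ), ∃ E : Matrix (Fin N) (Fin N) k,
      l i ≤ l j + m → Rep A w E (Matrix.single i j (X ^ m)) := by
    intro i j m
    by_cases hm : l i ≤ l j + m
    · obtain ⟨E, hE⟩ := exists_of_rep h (Matrix.single i j ((X : k[X]) ^ m)) (by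
        intro a b
        by_cases hab : i = a ∧ j = b
        · obtain ⟨rfl, rfl⟩ := hab
          rw [Matrix.single_apply_same, ← pow_add]
          exact pow_dvd_pow X hm
        · rw [Matrix.single_apply_of_ne _ _ _ _ _ hab, mul_zero]
          exact dvd_zero _)
      exact ⟨E, fun _ => hE⟩
    · exact ⟨0, fun h => absurd h hm⟩
  choose E hE using hE
  refine ⟨fun s => ∑ i, ∑ j, ∑ m ∈ Finset.range (l i), (P s i j).coeff m • E i j m, ?_, ?_⟩
  · intro x y
    have e : (fun s => (∑ i, ∑ j, ∑ m ∈ Finset.range (l i), (P s i j).coeff m • E i j m) x y) =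
        fun s => ∑ i, ∑ j, ∑ m ∈ Finset.range (l i), (P s i j).coeff m * E i j m x y := by
      funext s
      simp only [Matrix.sum_apply, Matrix.smul_apply, smul_eq_mul]
    rw [e]
    exact isPoly_sum' _ fun i _ => isPoly_sum' _ fun j _ => isPoly_sum' _ fun m _ =>
      (hpoly i j m).mul (D7.IsPoly.const _)
  · intro s
    have h1 : Rep A w (∑ i, ∑ j, ∑ m ∈ Finset.range (l i), (P s i j).coeff m • E i j m)
        (∑ i, ∑ j, ∑ m ∈ Finset.range (l i), (P s i j).coeff m • Matrix.single i j (X ^ m)) := by
      refine Rep.sum _ fun i _ => Rep.sum _ fun j _ => Rep.sum _ fun m _ => ?_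
      by_cases hm : l i ≤ l j + m
      · exact (hE i j m hm).smul _
      · rw [(hP s).coeff (by omega), zero_smul, zero_smul]
        exact Rep.zero
    refine h1.of_ker h fun a b => ?_
    have e : (∑ i, ∑ j, ∑ m ∈ Finset.range (l i), (P s i j).coeff m •
        Matrix.single i j ((X : k[X]) ^ m)) a b =
        ∑ m ∈ Finset.range (l a), (P s a b).coeff m • (X : k[X]) ^ m := by
      rw [Matrix.sum_apply, Finset.sum_eq_single a]
      · rw [Matrix.sum_apply, Finset.sum_eq_single b]
        · rw [Matrix.sum_apply]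
          refine Finset.sum_congr rfl fun m _ => ?_
          rw [Matrix.smul_apply, Matrix.single_apply_same]
        · intro j _ hj
          rw [Matrix.sum_apply]
          refine Finset.sum_eq_zero fun m _ => ?_
          rw [Matrix.smul_apply, Matrix.single_apply_of_ne _ _ _ _ _ (fun h => hj h.2), smul_zero]
        · intro hb
          exact absurd (Finset.mem_univ b) hb
      · intro i _ hi
        rw [Matrix.sum_apply]
        refine Finset.sum_eq_zero fun j _ => ?_
        rw [Matrix.sum_apply]
        refine Finset.sum_eq_zero fun m _ => ?_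
        rw [Matrix.smul_apply, Matrix.single_apply_of_ne _ _ _ _ _ (fun h => hi h.1), smul_zero]
      · intro ha
        exact absurd (Finset.mem_univ a) ha
    rw [Matrix.sub_apply, e, X_pow_dvd_iff]
    intro d hd
    rw [coeff_sub, finsetSum_coeff, Finset.sum_eq_single d]
    · rw [coeff_smul, coeff_X_pow_self, smul_eq_mul, mul_one, sub_self]
    · intro m _ hm
      rw [coeff_smul, coeff_X_pow, if_neg hm.symm, smul_zero]
    · intro hm
      exact absurd (Finset.mem_range.2 hd) hm

/-- a polynomial family through a given matrix -/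
theorem exists_family_at (h : BlkB A w l) (P : k → Matrix (Fin r) (Fin r) k[X])
    (hP : ∀ s, Adm l (P s)) (hpoly : ∀ i j m, IsPoly fun s => (P s i j).coeff m)
    {B₀ : Matrix (Fin N) (Fin N) k} (h0 : Rep A w B₀ (P 0)) :
    ∃ B : k → Matrix (Fin N) (Fin N) k, (∀ x y, IsPoly fun s => B s x y) ∧
      (∀ s, Rep A w (B s) (P s)) ∧ B 0 = B₀ := by
  obtain ⟨B, h1, h2⟩ := exists_family h P hP hpoly
  exact ⟨B, h1, h2, (h2 0).eq h h0⟩

end PB

end Pool.Agent.Lib.D13
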