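import Pool.Agent.Lib.D13.Axis

/-!
# MP_5dcbc3_ag: deformations of rank two which commute with a pair

`X + s K` with `K = r ⊗ (l Z) + (Z r) ⊗ l`, where `Y r = 0`, `Z Z r = 0`, `l Y = 0`, `l Z Z = 0`:
`K` commutes with `Y` and `Z` (it factors through `k[Z] / Z ^ 2`).
-/

namespace Pool.Agent.Lib.D13

open Matrix Pool.Agent.Lib.Q5dc Pool.Agent.Lib.D7

variable {k n : Type*} [Field k] [Fintype n] [DecidableEq n] {ρ : ℕ → ℕ}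

/-- the matrix `K` of the pair `(Y, Z)` -/
def pairK (Z : Matrix n n k) (r l : n → k) : Matrix n n k :=
  vecMulVec r (l ᵥ* Z) + vecMulVec (Z *ᵥ r) l

theorem pairK_comm_Y {Y Z : Matrix n n k} {r l : n → k} (hYZ : Y * Z = Z * Y)
    (hYr : Y *ᵥ r = 0) (hlY : l ᵥ* Y = 0) : Y * pairK Z r l = pairK Z r l * Y := by
  have h1 : Y *ᵥ (Z *ᵥ r) = 0 := by
    rw [Matrix.mulVec_mulVec, hYZ, ← Matrix.mulVec_mulVec, hYr, Matrix.mulVec_zero]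
  have h2 : (l ᵥ* Z) ᵥ* Y = 0 := by
    rw [Matrix.vecMul_vecMul, ← hYZ, ← Matrix.vecMul_vecMul, hlY, Matrix.zero_vecMul]
  rw [pairK, mul_add, add_mul, mvm, mvm, vmm, vmm, hYr, h1, hlY, h2]
  simp

theorem pairK_comm_Z {Z : Matrix n n k} {r l : n → k}
    (hZr : Z *ᵥ (Z *ᵥ r) = 0) (hlZ : (l ᵥ* Z) ᵥ* Z = 0) :
    Z * pairK Z r l = pairK Z r l * Z := by
  rw [pairK, mul_add, add_mul, mvm, mvm, vmm, vmm, hZr, hlZ]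
  simp

theorem pairK_mulVec (X Z : Matrix n n k) (r l : n → k) (s : k) (x : n → k) :
    (X + s • pairK Z r l) *ᵥ x =
      X *ᵥ x + (s * ((l ᵥ* Z) ⬝ᵥ x)) • r + (s * (l ⬝ᵥ x)) • (Z *ᵥ r) := by
  rw [pairK, Matrix.add_mulVec, Matrix.smul_mulVec, Matrix.add_mulVec, vmv, vmv, smul_add,
    smul_smul, smul_smul, add_assoc]

/-- the powers of `X + s K` under the hypotheses of `pair_raise` -/
theorem pair_pow {X Z : Matrix n n k} {r l : n → k}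
    (hXZ : X * Z = Z * X)
    (hZr : Z *ᵥ (Z *ᵥ r) = 0) (h1 : l ⬝ᵥ r = 0) (h2 : l ⬝ᵥ (Z *ᵥ r) = 0)
    (hXe : X *ᵥ (Z *ᵥ r) = 0) (hXXr : X *ᵥ (X *ᵥ r) = 0)
    (hm : ((l ᵥ* Z) ᵥ* X) ᵥ* X = 0) (hl : ((l ᵥ* X) ᵥ* X) ᵥ* X = 0) (hX : X ^ 4 = 0)
    (s : k) (x : n → k) :
    (X + s • pairK Z r l) ^ 4 *ᵥ x =
      (s ^ 2 * (l ⬝ᵥ (X *ᵥ r)) * ((l ᵥ* Z) ⬝ᵥ (X *ᵥ x))) • (Z *ᵥ r) ∧
    (X + s • pairK Z r l) ^ 5 *ᵥ x = 0 := by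
  set μ := l ᵥ* Z with hμ
  set ε := Z *ᵥ r with hε
  set κ := l ⬝ᵥ (X *ᵥ r) with hκ
  have m1 : μ ⬝ᵥ r = 0 := by rw [hμ, ← Matrix.dotProduct_mulVec]; exact h2
  have m2 : μ ⬝ᵥ ε = 0 := by
    rw [hμ, ← Matrix.dotProduct_mulVec, hZr, dotProduct_zero]
  have m3 : μ ⬝ᵥ (X *ᵥ r) = 0 := by
    rw [hμ, ← Matrix.dotProduct_mulVec, Matrix.mulVec_mulVec, ← hXZ, ← Matrix.mulVec_mulVec,
      hXe, dotProduct_zero]
  have m4 : ∀ y, μ ⬝ᵥ (X *ᵥ (X *ᵥ y)) = 0 := by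
    intro y
    rw [Matrix.dotProduct_mulVec, Matrix.dotProduct_mulVec, hm, zero_dotProduct]
  have m5 : ∀ y, l ⬝ᵥ (X *ᵥ (X *ᵥ (X *ᵥ y))) = 0 := by
    intro y
    rw [Matrix.dotProduct_mulVec, Matrix.dotProduct_mulVec, Matrix.dotProduct_mulVec, hl,
      zero_dotProduct]
  have m6 : X *ᵥ (X *ᵥ (X *ᵥ (X *ᵥ x))) = 0 := by
    have : X * (X * (X * X)) = 0 := by
      rw [← hX]
      noncomm_ring
    rw [Matrix.mulVec_mulVec, Matrix.mulVec_mulVec, Matrix.mulVec_mulVec, Matrix.mul_assoc,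
      Matrix.mul_assoc, this, Matrix.zero_mulVec]
  have F : ∀ y, (X + s • pairK Z r l) *ᵥ y = X *ᵥ y + (s * (μ ⬝ᵥ y)) • r + (s * (l ⬝ᵥ y)) • ε :=
    fun y => pairK_mulVec X Z r l s y
  set F0 := X + s • pairK Z r l with hF0
  have e2 : F0 *ᵥ (F0 *ᵥ x) = X *ᵥ (X *ᵥ x) + (s * (μ ⬝ᵥ x)) • (X *ᵥ r) +
      (s * (μ ⬝ᵥ (X *ᵥ x))) • r + (s * (l ⬝ᵥ (X *ᵥ x))) • ε := by
    rw [F (F0 *ᵥ x), F x]
    simp only [Matrix.mulVec_add, Matrix.mulVec_smul, dotProduct_add, dotProduct_smul, hXe, m1, m2,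
      h1, h2, smul_zero, add_zero, smul_eq_mul, mul_zero]
  have e3 : F0 *ᵥ (F0 *ᵥ (F0 *ᵥ x)) = X *ᵥ (X *ᵥ (X *ᵥ x)) +
      (s * (μ ⬝ᵥ (X *ᵥ x))) • (X *ᵥ r) +
      (s * (l ⬝ᵥ (X *ᵥ (X *ᵥ x))) + s ^ 2 * κ * (μ ⬝ᵥ x)) • ε := by
    rw [F (F0 *ᵥ (F0 *ᵥ x)), e2]
    simp only [Matrix.mulVec_add, Matrix.mulVec_smul, dotProduct_add, dotProduct_smul, hXe, hXXr,
      m1, m2, m3, m4, h1, h2, smul_zero, add_zero, smul_eq_mul, mul_zero, zero_add, zero_smul,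
      ← hκ]
    congr 2
    ring
  have e4 : F0 *ᵥ (F0 *ᵥ (F0 *ᵥ (F0 *ᵥ x))) = (s ^ 2 * κ * (μ ⬝ᵥ (X *ᵥ x))) • ε := by
    rw [F (F0 *ᵥ (F0 *ᵥ (F0 *ᵥ x))), e3]
    simp only [Matrix.mulVec_add, Matrix.mulVec_smul, dotProduct_add, dotProduct_smul, hXe, hXXr,
      m1, m2, m3, m4, m5, m6, h1, h2, smul_zero, add_zero, smul_eq_mul, mul_zero, zero_add,
      zero_smul, ← hκ]
    congr 1
    ring
  have e5 : F0 *ᵥ (F0 *ᵥ (F0 *ᵥ (F0 *ᵥ (F0 *ᵥ x)))) = 0 := by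
    rw [F (F0 *ᵥ (F0 *ᵥ (F0 *ᵥ (F0 *ᵥ x)))), e4]
    simp only [Matrix.mulVec_smul, dotProduct_smul, hXe, m2, h2, smul_zero, add_zero,
      smul_eq_mul, mul_zero, zero_smul]
  refine ⟨?_, ?_⟩
  · rw [← e4]
    simp only [pow_succ', pow_zero, mul_one, Matrix.mulVec_mulVec]
  · rw [← e5]
    simp only [pow_succ', pow_zero, mul_one, Matrix.mulVec_mulVec]

/-- PAIR LEMMA: `X, Y, Z` a coordinate system of `adj T`, `r` and `l` generate modules over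
`k[Y, Z]` killed by `Y, Z ^ 2`; then `X + s K` is a deformation, and its fourth power is not `0`. -/
theorem pair_raise [Infinite k] {T : Fin 3 → Matrix n n k} (hT : MaxR ρ T) {X Y Z : Matrix n n k}
    (hcn : CN ![X, Y, Z]) (hadj : ∀ i, T i ∈ adj ![X, Y, Z]) {r l : n → k}
    (hYr : Y *ᵥ r = 0) (hZr : Z *ᵥ (Z *ᵥ r) = 0) (hlY : l ᵥ* Y = 0) (hlZ : (l ᵥ* Z) ᵥ* Z = 0)
    (h1 : l ⬝ᵥ r = 0) (h2 : l ⬝ᵥ (Z *ᵥ r) = 0)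
    (hXe : X *ᵥ (Z *ᵥ r) = 0) (hXXr : X *ᵥ (X *ᵥ r) = 0)
    (hm : ((l ᵥ* Z) ᵥ* X) ᵥ* X = 0) (hl : ((l ᵥ* X) ᵥ* X) ᵥ* X = 0)
    (hκ : l ⬝ᵥ (X *ᵥ r) ≠ 0) (hε : Z *ᵥ r ≠ 0) (v : n → k)
    (hμ : (l ᵥ* Z) ⬝ᵥ (X *ᵥ v) ≠ 0) (hρ : ρ 4 = 0) : False := by
  have hT' : MaxR ρ ![X, Y, Z] := hT.change hcn hadj
  have hX4 : X ^ 4 = 0 := hT'.pow_eq_zero (D8.mem0 X Y Z) hρ
  have hXY : X * Y = Y * X := hcn.1 0 1
  have hXZ : X * Z = Z * X := hcn.1 0 2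
  have hYZ : Y * Z = Z * Y := hcn.1 1 2
  have hp := fun (s : k) (x : n → k) => pair_pow hXZ hZr h1 h2 hXe hXXr hm hl hX4 s x
  have hcnK : ∀ s : k, CN ![X + s • pairK Z r l, Y, Z] := by
    intro s
    refine D8.cn3 ?_ ?_ hYZ ⟨5, eq_zero_of_mulVec fun x => (hp s x).2⟩ (hcn.2 1) (hcn.2 2)
    · rw [add_mul, mul_add, hXY, smul_mul_assoc, mul_smul_comm, pairK_comm_Y hYZ hYr hlY]
    · rw [add_mul, mul_add, hXZ, smul_mul_assoc, mul_smul_comm, pairK_comm_Z hZr hlZ]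
  refine D8.MaxR.raise0 hT' (pairK Z r l) 0 0 (fun s => by simpa using hcnK s) 4 hρ 1 0 0 ?_
  refine (Set.finite_singleton (0 : k)).infinite_compl.mono fun s hs => ?_
  have hs0 : s ≠ 0 := hs
  intro h0
  have h3 := (hp s v).1
  have h4 : (1 : k) • (X + s • pairK Z r l) + (0 : k) • (Y + s • (0 : Matrix n n k)) +
      (0 : k) • (Z + s • (0 : Matrix n n k)) = X + s • pairK Z r l := by
    simp
  rw [h4] at h0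
  rw [h0, Matrix.zero_mulVec] at h3
  have h5 := (smul_eq_zero.1 h3.symm).resolve_right hε
  exact (mul_ne_zero (mul_ne_zero (pow_ne_zero 2 hs0) hκ) hμ) h5

end Pool.Agent.Lib.D13
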