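import Pool.Agent.Lib.D13.CUB

/-!
Module PiZero (3h). `e = 2`, `u = 2`, `b = b' = 0`, `(a, a') ≠ 0`, `p` arbitrary: then `pi = pi' = 0`.
Tools: BlkRankAux.sq_rank (order conditions O0, O1, O2 for arbitrary N), D8.mul3 (products of three elements of adj T vanish; BX_mul), BX_comm (relations r1..r7), MaxR.conjX, D8.MaxR.lin / swap / line2, D9.kap0, E1bAux.

PROOF. With b = b' = 0: r4: pi a' = pi' a. r5: th pi' = th' pi. r6: et pi' = et' pi. O0 for B, C, B + C: all et_i pi_j = 0.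
mul3 (entries E_0 -> E_2): th_X pi_Y a_Z = 0 for all X, Y, Z in {B, C} (b = 0). O1 for X: a_X th_X pi_X = 0. O2 for X: et_X w_X th_X pi_X = 3 a_X N_X th_X pi_X (use a_X th_X pi_X = 0).
(D1) CLAIM all th_i pi_j = 0. Suppose not. D_XY := th_X pi_Y is symmetric (r5). u = 2 and D_XY a_Z = 0: there are al in U, psi on U, psi al = 0, both nonzero, with a_Z = al phi_Z (phi_Z rows on E, not both 0) and D_XY = tau_XY psi. Choose g in U, row al* with psi g = 1, al* al = 1, al* g = 0.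
 (al1) phi_B, phi_C dependent: after D8.MaxR.lin/swap a' = 0, a = al phi, phi ≠ 0. a_X D_XX = 0 for X = B + tC, all t: phi tau_XX = 0, so tau_XX in ker phi = k tau: D_XY = q_XY tau psi.
   (al1a) (q_BC, q_CC) ≠ 0: replace B by B + tC (a' = 0 stays) such that q_BB = 0 (k algebraically closed; quadratic or linear equation 0 = q_BB + 2 t q_BC + t^2 q_CC: if q_CC = 0 it is linear with q_BC ≠ 0). Let eps = row on P with eps pi = 0, eps w tau = - phi N tau. It exists: if phi N tau = 0: eps = 0. Otherwise: O2 for X = xB + yC divided by the nonzero polynomial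
     q_XX: (x et + y et')(x w + y w') tau = 3 x al phi (x N + y N') tau; the coefficient of x^2: et w tau = 3 al phi N tau ≠ 0; take eps = - (1/3)... : eps := - (1/3) al* et: eps pi = 0 and eps w tau = - phi N tau. (So eps := -(1/3) al* et ALWAYS works.)
     K := BX 0 0 (g phi) 0 0 0 ((d g) al*) (x al*) ((pi g) al*) 0 (g eps), where x in U: x phi = nu g phi - g (phi N + eps w); possible since (phi N + eps w) tau = 0, so phi N + eps w = mu phi, x := nu g - mu g. B K = K B (check the seven relations; th pi g al* = q_BB tau al* = 0). C_s := C + s K: MaxR for some s ≠ 0 (D8.MaxR.line2).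
     mul3 with X = B, Y = Z = C_s: th (pi' + s pi_K)(s g phi) = s q_BC tau phi (pi_K g = 0; th_K = 0): q_BC = 0. mul3 with X = Y = Z = C_s: q_CC = 0. Contradiction.
   (al1b) q_BC = q_CC = 0, q_BB ≠ 0: B_s := B + s BX(pi-part (pi g) al*), exact since a' = 0, th' pi g = 0, et' pi = 0: mul3 for B_s: th (pi + s (pi g) al*) al phi = s q_BB tau phi ≠ 0. Contradiction.
 (al2) phi_B, phi_C independent. r4: pi al = pi' al = 0. phi_X tau_XX = 0 for all X: tau_XX = l(X) tau_X, tau_X := the vector with phi_X tau_X = 0, linear in X (coordinates dual to phi_B, phi_C: X = xB + yC: tau_X = (y, -x)), l linear form ≠ 0. After lin/swap: l(C) = 0, l(B) = 1: so th' pi' = 0, tau_BB = tau_B = -e2, 2 tau_BC = e1 = tau_C.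
     O2 divided by l(X): et_X w_X tau_X = 3 al phi_X N_X tau_X for all X, so for C: et' w' tau_C = 3 al phi_C N' tau_C. eps := -(1/3) al* et': eps pi' = 0, eps w' tau_C = - phi_C N' tau_C.
     K := BX 0 0 (g phi_C) 0 0 0 ((d' g) al*) (x al*) ((pi' g) al*) 0 (g eps), x = nu' g - mu g, phi_C N' + eps w' = mu phi_C. C K = K C. B_s := B + s K. mul3 for B_s (X = Y = Z = B_s): s (tau_BB phi_C + tau_BC phi_B) = s (- e2 e2* + (1/2) e1 e1*) ≠ 0. Contradiction.
(D2) So all th_i pi_j = 0, et_i pi_j = 0. Suppose (pi, pi') ≠ 0. If no row psi ≠ 0 on P kills pi and pi': then th = th' = 0, et = et' = 0 (their rows kill pi, pi'), and no_III2 gives False (p > 0 because pi or pi' ≠ 0).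
   Otherwise psi1 ≠ 0 with psi1 pi = psi1 pi' = 0, p1 := a nonzero column of pi or pi' (th_i p1 = 0, et_i p1 = 0, psi1 p1 = 0). Find (z, z') ≠ 0 and rows chi, chi' on U with chi a' - chi' a + z psi1 w' - z' psi1 w = 0 in E* (2 equations; since (a, a') ≠ 0 the rows chi a' - chi' a fill a subspace of dimension ≥ 1, so (z, z') has to satisfy at most one linear equation).
   B + s (KX (z p1 psi1) + BX(pi-part p1 chi)), C + s (KX (z' p1 psi1) + BX(pi-part p1 chi')): CN for all s (see D9/E1b main2 for the same computation and nilpotency, E1bAux.nil_add), contradicts kap0.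
-/

namespace Pool.Agent.Lib.D13

open Matrix Pool.Agent.Lib.Q5dc Pool.Agent.Lib.D7 Pool.Agent.Lib.D9

namespace PiZeroAux

/-! ### small matrices -/

section Small

variable {k : Type*} [Field k]

/-- cancel a nonzero row -/
theorem cancel_row {m n : ℕ} {v : Matrix (Fin m) (Fin 1) k} {φ : Matrix (Fin 1) (Fin n) k}
    (hφ : φ ≠ 0) (h : v * φ = 0) : v = 0 := by
  obtain ⟨i, j, hij⟩ := E1bAux.exists_entry hφ
  have hi : i = 0 := Subsingleton.elim _ _
  subst hi
  ext x y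
  have hy : y = 0 := Subsingleton.elim _ _
  subst hy
  have h1 := congrFun (congrFun h x) j
  rw [Matrix.mul_apply, Fin.sum_univ_one] at h1
  exact (mul_eq_zero.1 h1).resolve_right hij

/-- cancel a nonzero column -/
theorem cancel_col {m n : ℕ} {v : Matrix (Fin m) (Fin 1) k} {φ : Matrix (Fin 1) (Fin n) k}
    (hv : v ≠ 0) (h : v * φ = 0) : φ = 0 := by
  obtain ⟨i, j, hij⟩ := E1bAux.exists_entry hv
  have hi : j = 0 := Subsingleton.elim _ _
  subst hi
  ext x y
  have hy : x = 0 := Subsingleton.elim _ _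
  subst hy
  have h1 := congrFun (congrFun h i) y
  rw [Matrix.mul_apply, Fin.sum_univ_one] at h1
  exact (mul_eq_zero.1 h1).resolve_left hij

/-- determinant of two rows -/
def dt (φ φ' : Matrix (Fin 1) (Fin 2) k) : k := φ 0 0 * φ' 0 1 - φ 0 1 * φ' 0 0

/-- the kernel of a row -/
def kr (φ : Matrix (Fin 1) (Fin 2) k) : Matrix (Fin 2) (Fin 1) k := !![φ 0 1; -φ 0 0]

theorem row_kr (φ : Matrix (Fin 1) (Fin 2) k) : φ * kr φ = 0 := by
  ext i j
  fin_cases i
  fin_cases j
  simp [kr, Matrix.mul_apply, Fin.sum_univ_two]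
  ring

theorem kr_ne {φ : Matrix (Fin 1) (Fin 2) k} (h : φ ≠ 0) : kr φ ≠ 0 := by
  intro h0
  apply h
  have h1 := congrFun (congrFun h0 0) 0
  have h2 := congrFun (congrFun h0 1) 0
  simp [kr] at h1 h2
  ext i j
  fin_cases i
  fin_cases j
  · simpa using h2
  · simpa using h1

/-- a matrix killed by a nonzero row factors through the kernel -/
theorem fac_kr {n : ℕ} {φ : Matrix (Fin 1) (Fin 2) k} (h : φ ≠ 0) {V : Matrix (Fin 2) (Fin n) k}
    (hV : φ * V = 0) : ∃ r : Matrix (Fin 1) (Fin n) k, V = kr φ * r := by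
  have e : ∀ j, φ 0 0 * V 0 j + φ 0 1 * V 1 j = 0 := by
    intro j
    have h1 := congrFun (congrFun hV 0) j
    simpa [Matrix.mul_apply, Fin.sum_univ_two] using h1
  by_cases h1 : φ 0 1 = 0
  · have h0 : φ 0 0 ≠ 0 := by
      intro h0
      apply h
      ext i j
      fin_cases i
      fin_cases j
      · simpa using h0
      · simpa using h1
    refine ⟨Matrix.of fun _ j => -((φ 0 0)⁻¹ * V 1 j), ?_⟩
    ext i j
    have e1 := e j
    rw [h1, zero_mul, add_zero] at e1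
    have e2 : V 0 j = 0 := (mul_eq_zero.1 e1).resolve_left h0
    fin_cases i
    · simp [kr, Matrix.mul_apply, h1, e2]
    · simp only [kr, Matrix.mul_apply, Fin.sum_univ_one, Matrix.of_apply]
      simp
      field_simp
  · refine ⟨Matrix.of fun _ j => (φ 0 1)⁻¹ * V 0 j, ?_⟩
    ext i j
    have e1 := e j
    fin_cases i
    · simp only [kr, Matrix.mul_apply, Fin.sum_univ_one, Matrix.of_apply]
      simp
      field_simp
    · simp only [kr, Matrix.mul_apply, Fin.sum_univ_one, Matrix.of_apply]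
      simp
      field_simp
      linear_combination e1

/-- a row killing a nonzero vector of the kernel of a nonzero row is a multiple of it -/
theorem row_mul {φ r : Matrix (Fin 1) (Fin 2) k} (h : φ ≠ 0) {v : Matrix (Fin 2) (Fin 1) k}
    (hv : v ≠ 0) (h1 : φ * v = 0) (h2 : r * v = 0) : ∃ μ : k, r = μ • φ := by
  have e1 : φ 0 0 * v 0 0 + φ 0 1 * v 1 0 = 0 := by
    have h1 := congrFun (congrFun h1 0) 0
    simpa [Matrix.mul_apply, Fin.sum_univ_two] using h1
  have e2 : r 0 0 * v 0 0 + r 0 1 * v 1 0 = 0 := by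
    have h1 := congrFun (congrFun h2 0) 0
    simpa [Matrix.mul_apply, Fin.sum_univ_two] using h1
  have hd : r 0 0 * φ 0 1 = r 0 1 * φ 0 0 := by
    obtain ⟨i, j, hij⟩ := E1bAux.exists_entry hv
    have hj : j = 0 := Subsingleton.elim _ _
    subst hj
    fin_cases i
    · have h3 : v 0 0 * (r 0 0 * φ 0 1 - r 0 1 * φ 0 0) = 0 := by
        linear_combination φ 0 1 * e2 - r 0 1 * e1
      have h4 := (mul_eq_zero.1 h3).resolve_left hij
      linear_combination h4
    · have h3 : v 1 0 * (r 0 0 * φ 0 1 - r 0 1 * φ 0 0) = 0 := by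
        linear_combination r 0 0 * e1 - φ 0 0 * e2
      have h4 := (mul_eq_zero.1 h3).resolve_left hij
      linear_combination h4
  obtain ⟨i, j, hij⟩ := E1bAux.exists_entry h
  have hi : i = 0 := Subsingleton.elim _ _
  subst hi
  fin_cases j
  · refine ⟨r 0 0 / φ 0 0, ?_⟩
    have hij' : φ 0 0 ≠ 0 := hij
    ext x y
    fin_cases x
    fin_cases y
    · simp only [Fin.zero_eta, Matrix.smul_apply, smul_eq_mul]
      field_simp
    · simp only [Fin.zero_eta, Fin.mk_one, Matrix.smul_apply, smul_eq_mul]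
      field_simp
      linear_combination -hd
  · refine ⟨r 0 1 / φ 0 1, ?_⟩
    have hij' : φ 0 1 ≠ 0 := hij
    ext x y
    fin_cases x
    fin_cases y
    · simp only [Fin.zero_eta, Matrix.smul_apply, smul_eq_mul]
      field_simp
      linear_combination hd
    · simp only [Fin.zero_eta, Fin.mk_one, Matrix.smul_apply, smul_eq_mul]
      field_simp

/-- two independent rows -/
theorem both_zero {n : ℕ} {φ φ' : Matrix (Fin 1) (Fin 2) k} (h : dt φ φ' ≠ 0)
    {V : Matrix (Fin 2) (Fin n) k} (h1 : φ * V = 0) (h2 : φ' * V = 0) : V = 0 := by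
  ext i j
  have e1 := congrFun (congrFun h1 0) j
  have e2 := congrFun (congrFun h2 0) j
  simp only [Matrix.mul_apply, Fin.sum_univ_two, Matrix.zero_apply] at e1 e2
  have e3 : dt φ φ' * V 0 j = 0 := by
    unfold dt
    linear_combination φ' 0 1 * e1 - φ 0 1 * e2
  have e4 : dt φ φ' * V 1 j = 0 := by
    unfold dt
    linear_combination φ 0 0 * e2 - φ' 0 0 * e1
  fin_cases i
  · exact (mul_eq_zero.1 e3).resolve_left h
  · exact (mul_eq_zero.1 e4).resolve_left h

/-- quadratic matrix polynomials with infinitely many zeros -/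
theorem quad_zero {m n : Type*} {S : Set k} (hS : S.Infinite) (A B C : Matrix m n k)
    (h : ∀ t ∈ S, A + t • B + (t ^ 2) • C = 0) : A = 0 ∧ B = 0 ∧ C = 0 := by
  by_contra hc
  have : ∃ i j, A i j ≠ 0 ∨ B i j ≠ 0 ∨ C i j ≠ 0 := by
    by_contra h0
    push Not at h0
    exact hc ⟨by ext i j; exact (h0 i j).1, by ext i j; exact (h0 i j).2.1,
      by ext i j; exact (h0 i j).2.2⟩
  obtain ⟨i, j, hij⟩ := this
  refine hS ((D8.finite_quad hij).subset fun t ht => ?_)
  have h1 := congrFun (congrFun (h t ht) i) j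
  simp only [Matrix.add_apply, Matrix.smul_apply, smul_eq_mul, Matrix.zero_apply] at h1
  show A i j + B i j * t + C i j * t ^ 2 = 0
  linear_combination h1

/-- cubic ones: the constant coefficient -/
theorem cub_zero {m n : Type*} {S : Set k} (hS : S.Infinite) (A B C D : Matrix m n k)
    (h : ∀ t ∈ S, A + t • B + (t ^ 2) • C + (t ^ 3) • D = 0) : A = 0 ∧ B = 0 ∧ C = 0 ∧ D = 0 := by
  have key : ∀ i j, A i j = 0 ∧ B i j = 0 ∧ C i j = 0 ∧ D i j = 0 := by
    intro i j
    set P : Polynomial k := Polynomial.C (A i j) + Polynomial.C (B i j) * Polynomial.X +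
      Polynomial.C (C i j) * Polynomial.X ^ 2 + Polynomial.C (D i j) * Polynomial.X ^ 3 with hP
    have h0 : P = 0 := by
      refine Polynomial.eq_zero_of_infinite_isRoot _ (hS.mono fun t ht => ?_)
      have h1 := congrFun (congrFun (h t ht) i) j
      simp only [Matrix.add_apply, Matrix.smul_apply, smul_eq_mul, Matrix.zero_apply] at h1
      show P.eval t = 0
      rw [hP]
      simp only [Polynomial.eval_add, Polynomial.eval_mul, Polynomial.eval_C, Polynomial.eval_X,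
        Polynomial.eval_pow]
      linear_combination h1
    have c0 := congrArg (fun q => Polynomial.coeff q 0) h0
    have c1 := congrArg (fun q => Polynomial.coeff q 1) h0
    have c2 := congrArg (fun q => Polynomial.coeff q 2) h0
    have c3 := congrArg (fun q => Polynomial.coeff q 3) h0
    simp [hP, Polynomial.coeff_X, Polynomial.coeff_X_pow, Polynomial.coeff_C] at c0 c1 c2 c3
    exact ⟨c0, c1, c2, c3⟩
  exact ⟨by ext i j; exact (key i j).1, by ext i j; exact (key i j).2.1,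
    by ext i j; exact (key i j).2.2.1, by ext i j; exact (key i j).2.2.2⟩

/-- an adapted basis -/
theorem adapt {ψ : Matrix (Fin 1) (Fin 2) k} (h : ψ ≠ 0) :
    ∃ (g : Matrix (Fin 2) (Fin 1) k) (l : Matrix (Fin 1) (Fin 2) k), l * kr ψ = 1 ∧ ψ * g = 1 ∧
      l * g = 0 ∧ ψ * kr ψ = 0 ∧ kr ψ * l + g * ψ = 1 := by
  obtain ⟨g0, g1, hg⟩ : ∃ g0 g1 : k, ψ 0 0 * g0 + ψ 0 1 * g1 = 1 := by
    obtain ⟨i, j, hij⟩ := E1bAux.exists_entry h
    have hi : i = 0 := Subsingleton.elim _ _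
    subst hi
    fin_cases j
    · exact ⟨(ψ 0 0)⁻¹, 0, by rw [mul_zero, add_zero]; exact mul_inv_cancel₀ hij⟩
    · exact ⟨0, (ψ 0 1)⁻¹, by rw [mul_zero, zero_add]; exact mul_inv_cancel₀ hij⟩
  refine ⟨!![g0; g1], !![g1, -g0], ?_, ?_, ?_, row_kr ψ, ?_⟩
  · ext i j
    fin_cases i
    fin_cases j
    simp [kr, Matrix.mul_apply, Fin.sum_univ_two]
    linear_combination hg
  · ext i j
    fin_cases i
    fin_cases j
    simp [Matrix.mul_apply, Fin.sum_univ_two]
    linear_combination hg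
  · ext i j
    fin_cases i
    fin_cases j
    simp [Matrix.mul_apply, Fin.sum_univ_two]
    ring
  · ext i j
    rw [Matrix.add_apply, Matrix.mul_apply, Matrix.mul_apply, Fin.sum_univ_one, Fin.sum_univ_one]
    fin_cases i <;> fin_cases j
    · simp [kr]
      linear_combination hg
    · simp [kr]
      ring
    · simp [kr]
      ring
    · simp [kr]
      linear_combination hg

end Small

/-! ### conditions for elements of the pencil -/

section Cond

variable {k : Type*} [Field k] [CharZero k] {e u p : ℕ} {ρ : ℕ → ℕ}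
  {T : Fin 3 → Matrix (Ix e u p) (Ix e u p) k}
  {N M N' M' N'' M'' : Matrix (Fin e) (Fin e) k} {a c a' c' a'' c'' : Matrix (Fin u) (Fin e) k}
  {w w' w'' : Matrix (Fin p) (Fin e) k} {d d' d'' : Matrix (Fin e) (Fin u) k}
  {nu nu' nu'' : Matrix (Fin u) (Fin u) k} {pi pi' pi'' : Matrix (Fin p) (Fin u) k}
  {th th' th'' : Matrix (Fin e) (Fin p) k} {et et' et'' : Matrix (Fin u) (Fin p) k}

theorem m3X (hT : MaxR ρ T) (h3 : ρ 3 = 0) (hX : BX N M a c w 0 d nu pi th et ∈ adj T)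
    (hY : BX N' M' a' c' w' 0 d' nu' pi' th' et' ∈ adj T)
    (hZ : BX N'' M'' a'' c'' w'' 0 d'' nu'' pi'' th'' et'' ∈ adj T) : th * pi' * a'' = 0 := by
  have h := D8.mul3 hT h3 hX hY hZ
  rw [BX_mul, BX_mul, ← BX_zero, BX_inj] at h
  have h1 := h.2.1
  simpa using h1

theorem o0X (hT : MaxR ρ T) (h2 : ρ 2 ≤ e) (hA : JX k e u p ∈ adj T)
    (hX : BX N M a c w 0 d nu pi th et ∈ adj T) : et * pi = 0 := by
  have h := R1X hT h2 hA hX
  simpa using h

theorem o1X (hT : MaxR ρ T) (h2 : ρ 2 ≤ e) (hA : JX k e u p ∈ adj T)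
    (hX : BX N M a c w 0 d nu pi th et ∈ adj T) : a * (th * pi) = 0 := by
  have h := (BlkRankAux.sq_rank hT h2 hA hX).2.1
  simp only [Matrix.mul_zero, Matrix.zero_mul, zero_add, smul_zero, add_zero,
    Matrix.smul_mul] at h
  exact (smul_eq_zero.1 h).resolve_left two_ne_zero

theorem o2X (hT : MaxR ρ T) (h2 : ρ 2 ≤ e) (hA : JX k e u p ∈ adj T)
    (hX : BX N M a c w 0 d nu pi th et ∈ adj T) :
    et * w * (th * pi) = (3 : k) • (a * N * (th * pi)) := by
  have h := (BlkRankAux.sq_rank hT h2 hA hX).2.2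
  have h0 := o1X hT h2 hA hX
  simp only [Matrix.mul_zero, Matrix.zero_mul, zero_add, smul_zero, add_zero,
    Matrix.smul_mul, Matrix.mul_smul, smul_smul, Matrix.add_mul] at h
  rw [Matrix.mul_assoc nu, h0, Matrix.mul_zero, add_zero] at h
  have h1 : et * w * (th * pi) = (a * N * (th * pi) + et * w * (th * pi)) -
      a * N * (th * pi) := by abel
  rw [h1, h]
  module

end Cond

section Main

variable {k : Type*} [Field k] [CharZero k] {p : ℕ} {ρ : ℕ → ℕ}
  {N M N' M' : Matrix (Fin 2) (Fin 2) k} {a c a' c' : Matrix (Fin 2) (Fin 2) k}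
  {w w' : Matrix (Fin p) (Fin 2) k} {d d' : Matrix (Fin 2) (Fin 2) k}
  {nu nu' : Matrix (Fin 2) (Fin 2) k} {pi pi' : Matrix (Fin p) (Fin 2) k}
  {th th' : Matrix (Fin 2) (Fin p) k} {et et' : Matrix (Fin 2) (Fin p) k}
  {al g : Matrix (Fin 2) (Fin 1) k} {φ φ' l ψ : Matrix (Fin 1) (Fin 2) k}

theorem lint (t : k) : BX N M a c w 0 d nu pi th et + t • BX N' M' a' c' w' 0 d' nu' pi' th' et' =
    BX (N + t • N') (M + t • M') (a + t • a') (c + t • c') (w + t • w') 0 (d + t • d')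
      (nu + t • nu') (pi + t • pi') (th + t • th') (et + t • et') := by
  rw [BX_smul, BX_add, smul_zero, add_zero]

theorem memt (t : k) : BX (N + t • N') (M + t • M') (a + t • a') (c + t • c') (w + t • w') 0
    (d + t • d') (nu + t • nu') (pi + t • pi') (th + t • th') (et + t • et') ∈
    adj ![JX k 2 2 p, BX N M a c w 0 d nu pi th et, BX N' M' a' c' w' 0 d' nu' pi' th' et'] := by
  rw [← lint]
  exact add_mem (D8.mem1 _ _ _) (SMulMemClass.smul_mem t (D8.mem2 _ _ _))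

theorem addl {n : Type*} [Fintype n] [DecidableEq n] {A B C : Matrix n n k}
    (hT : MaxR ρ ![A, B, C]) (t : k) : MaxR ρ ![A, B + t • C, C] := by
  have h := D8.MaxR.lin hT 1 t 0 1 0 0 0 0 (by simp)
  simpa using h

theorem addr {n : Type*} [Fintype n] [DecidableEq n] {A B C : Matrix n n k}
    (hT : MaxR ρ ![A, B, C]) (t : k) : MaxR ρ ![A, B, C + t • B] :=
  D8.MaxR.swap (addl (D8.MaxR.swap hT) t)

theorem et_pi (h2 : ρ 2 ≤ 2)
    (hT : MaxR ρ ![JX k 2 2 p, BX N M a c w 0 d nu pi th et,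
      BX N' M' a' c' w' 0 d' nu' pi' th' et']) :
    et * pi = 0 ∧ et * pi' = 0 ∧ et' * pi = 0 ∧ et' * pi' = 0 := by
  have hA := D8.mem0 (JX k 2 2 p) (BX N M a c w 0 d nu pi th et)
    (BX N' M' a' c' w' 0 d' nu' pi' th' et')
  have e1 := o0X hT h2 hA (D8.mem1 _ _ _)
  have e2 := o0X hT h2 hA (D8.mem2 _ _ _)
  have e3 := o0X hT h2 hA (memt 1)
  have e4 := ((BX_comm ..).1 (hT.cn.1 1 2)).2.2.2.2.2.1
  simp only [Matrix.mul_zero, zero_add] at e4
  rw [one_smul, one_smul, Matrix.add_mul, Matrix.mul_add, Matrix.mul_add, e1, e2, e4, zero_add,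
    add_zero, ← two_smul k] at e3
  have e5 : et' * pi = 0 := (smul_eq_zero.1 e3).resolve_left two_ne_zero
  exact ⟨e1, e4.trans e5, e5, e2⟩

/-- the expansion of `th_X pi_X` -/
theorem D_exp (h5 : th * pi' = th' * pi) (t : k) : (th + t • th') * (pi + t • pi') =
    th * pi + t • ((2 : k) • (th * pi')) + (t ^ 2) • (th' * pi') := by
  rw [Matrix.add_mul, Matrix.mul_add, Matrix.mul_add, Matrix.smul_mul, Matrix.smul_mul,
    Matrix.mul_smul, Matrix.mul_smul, ← h5]
  module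

/-- the element used for raising -/
theorem kcomm {eps : Matrix (Fin 1) (Fin p) k} {μ : k} (f1 : l * al = 1)
    (q0 : th * pi * g = 0) (q1 : et * pi = 0) (q2 : eps * pi = 0)
    (q3 : φ * N + eps * w = μ • φ) :
    BX N M (al * φ) c w 0 d nu pi th et *
      BX 0 0 (g * φ) 0 0 0 (d * g * l) ((nu * g - μ • g) * l) (pi * g * l) 0 (g * eps) =
    BX 0 0 (g * φ) 0 0 0 (d * g * l) ((nu * g - μ • g) * l) (pi * g * l) 0 (g * eps) *
      BX N M (al * φ) c w 0 d nu pi th et := by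
  have hl : ∀ {m : ℕ} (V : Matrix (Fin m) (Fin 1) k), V * l * (al * φ) = V * φ := by
    intro m V
    rw [Matrix.mul_assoc, ← Matrix.mul_assoc l, f1, Matrix.one_mul]
  rw [BX_comm]
  simp only [Matrix.mul_zero, Matrix.zero_mul, zero_add, add_zero, hl]
  refine ⟨trivial, ?_, ?_, ?_, ?_, ?_, trivial⟩
  · rw [Matrix.mul_assoc]
  · have e1 : g * φ * N + (nu * g - μ • g) * φ + g * eps * w =
        nu * g * φ + g * (φ * N + eps * w) - μ • (g * φ) := by
      rw [Matrix.sub_mul, Matrix.smul_mul, Matrix.mul_add, Matrix.mul_assoc g φ N,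
        Matrix.mul_assoc g eps w]
      abel
    rw [e1, q3, Matrix.mul_smul, add_sub_cancel_right, Matrix.mul_assoc]
  · rw [Matrix.mul_assoc]
  · rw [← Matrix.mul_assoc, ← Matrix.mul_assoc, q0, Matrix.zero_mul]
  · rw [← Matrix.mul_assoc, ← Matrix.mul_assoc, q1, Matrix.mul_assoc g, q2]
    simp

/-- what is killed by the kernel vector -/
theorem D_al (h3 : ρ 3 = 0)
    (hT : MaxR ρ ![JX k 2 2 p, BX N M (al * φ) c w 0 d nu pi th et,
      BX N' M' (al * φ') c' w' 0 d' nu' pi' th' et']) (hφ : φ ≠ 0) :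
    th * pi * al = 0 ∧ th * pi' * al = 0 ∧ th' * pi' * al = 0 := by
  refine ⟨?_, ?_, ?_⟩
  · have h := m3X hT h3 (D8.mem1 _ _ _) (D8.mem1 _ _ _) (D8.mem1 _ _ _)
    rw [← Matrix.mul_assoc] at h
    exact cancel_row hφ h
  · have h := m3X hT h3 (D8.mem1 _ _ _) (D8.mem2 _ _ _) (D8.mem1 _ _ _)
    rw [← Matrix.mul_assoc] at h
    exact cancel_row hφ h
  · have h := m3X hT h3 (D8.mem2 _ _ _) (D8.mem2 _ _ _) (D8.mem1 _ _ _)
    rw [← Matrix.mul_assoc] at h
    exact cancel_row hφ h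

/-- a matrix killed by both vectors of the basis is zero -/
theorem zero_of {m : ℕ} {V : Matrix (Fin m) (Fin 2) k} (f5 : al * l + g * ψ = 1)
    (h1 : V * al = 0) (h2 : V * g = 0) : V = 0 := by
  rw [← Matrix.mul_one V, ← f5, Matrix.mul_add, ← Matrix.mul_assoc, ← Matrix.mul_assoc, h1, h2]
  simp

/-- first sub-case: `a' = 0`, `th pi = 0` -/
theorem al1_zero (h2 : ρ 2 ≤ 2) (h3 : ρ 3 = 0)
    (hT : MaxR ρ ![JX k 2 2 p, BX N M (al * φ) c w 0 d nu pi th et,
      BX N' M' 0 c' w' 0 d' nu' pi' th' et']) (hφ : φ ≠ 0) (f1 : l * al = 1)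
    (f3 : l * g = 0) (f5 : al * l + g * ψ = 1) (q0 : th * pi = 0) :
    th * pi' = 0 ∧ th' * pi' = 0 := by
  have hinf : Infinite k := inferInstance
  have hA := D8.mem0 (JX k 2 2 p) (BX N M (al * φ) c w 0 d nu pi th et)
    (BX N' M' 0 c' w' 0 d' nu' pi' th' et')
  obtain ⟨r1, r2, r3, r4, r5, r6, r7⟩ := (BX_comm ..).1 (hT.cn.1 1 2)
  simp only [Matrix.mul_zero, Matrix.zero_mul, zero_add, add_zero] at r5 r6
  obtain ⟨p1, p2, p3, p4⟩ := et_pi h2 hT
  have hT0 : MaxR ρ ![JX k 2 2 p, BX N M (al * φ) c w 0 d nu pi th et,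
      BX N' M' (al * (0 : Matrix (Fin 1) (Fin 2) k)) c' w' 0 d' nu' pi' th' et'] := by
    rw [Matrix.mul_zero]
    exact hT
  obtain ⟨-, a1, a2⟩ := D_al h3 hT0 hφ
  -- the conditions `φ D = 0`
  have hO1 : ∀ t : k, φ * (th * pi) + t • (φ * ((2 : k) • (th * pi'))) +
      (t ^ 2) • (φ * (th' * pi')) = 0 := by
    intro t
    have h := o1X hT h2 hA (memt t)
    rw [D_exp r5, smul_zero, add_zero, Matrix.mul_assoc] at h
    have h1 := congrArg (fun V => l * V) h
    simp only [Matrix.mul_zero] at h1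
    rw [← Matrix.mul_assoc, f1, Matrix.one_mul] at h1
    rw [← h1]
    simp only [Matrix.mul_add, Matrix.mul_smul]
  obtain ⟨-, b1, b2⟩ := quad_zero Set.infinite_univ _ _ _ (fun t _ => hO1 t)
  have b1' : φ * (th * pi') = 0 := by
    rw [Matrix.mul_smul] at b1
    exact (smul_eq_zero.1 b1).resolve_left two_ne_zero
  obtain ⟨x1, hx1⟩ := fac_kr hφ b1'
  obtain ⟨x2, hx2⟩ := fac_kr hφ b2
  by_contra hne
  have hbad : {t : k | (0 : Matrix (Fin 1) (Fin 2) k) + t • ((2 : k) • x1) + (t ^ 2) • x2 =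
      0}.Finite := by
    by_contra hinf2
    obtain ⟨-, c1, c2⟩ := quad_zero (Set.not_finite.1 hinf2) _ _ _ (fun t ht => ht)
    apply hne
    rw [hx1, hx2, (smul_eq_zero.1 c1).resolve_left two_ne_zero, c2]
    simp
  have hF : ∀ t ∈ {t : k | (0 : Matrix (Fin 1) (Fin 2) k) + t • ((2 : k) • x1) + (t ^ 2) • x2 =
      0}ᶜ, (et * w * kr φ - (3 : k) • (al * φ * N * kr φ)) +
      t • ((et * w' + et' * w) * kr φ - (3 : k) • (al * φ * N' * kr φ)) +
      (t ^ 2) • (et' * w' * kr φ) = 0 := by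
    intro t ht
    have h := o2X hT h2 hA (memt t)
    rw [D_exp r5, smul_zero, add_zero, q0, hx1, hx2] at h
    have e1 : (0 : Matrix (Fin 2) (Fin 2) k) + t • ((2 : k) • (kr φ * x1)) + t ^ 2 • (kr φ * x2) =
        kr φ * ((0 : Matrix (Fin 1) (Fin 2) k) + t • ((2 : k) • x1) + (t ^ 2) • x2) := by
      simp only [Matrix.mul_add, Matrix.mul_smul, Matrix.mul_zero]
    rw [e1] at h
    refine cancel_row (φ := (0 : Matrix (Fin 1) (Fin 2) k) + t • ((2 : k) • x1) + (t ^ 2) • x2)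
      ht ?_
    rw [← sub_eq_zero] at h
    rw [← h]
    simp only [Matrix.add_mul, Matrix.mul_add, Matrix.sub_mul, Matrix.smul_mul, Matrix.mul_smul,
      Matrix.mul_assoc, Matrix.zero_mul, Matrix.mul_zero, smul_add, smul_sub, zero_add]
    module
  obtain ⟨g0, -, -⟩ := quad_zero hbad.infinite_compl _ _ _ hF
  -- the row `eps`
  obtain ⟨eps, heps⟩ : ∃ eps : Matrix (Fin 1) (Fin p) k, eps = (-(1 / 3) : k) • (l * et) :=
    ⟨_, rfl⟩
  have e1 : eps * pi = 0 := by
    rw [heps, Matrix.smul_mul, Matrix.mul_assoc, p1, Matrix.mul_zero, smul_zero]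
  have e2 : (φ * N + eps * w) * kr φ = 0 := by
    have h : l * (et * w * kr φ - (3 : k) • (al * φ * N * kr φ)) = 0 := by
      rw [g0, Matrix.mul_zero]
    have h' : l * (al * φ * N * kr φ) = φ * N * kr φ := by
      simp only [← Matrix.mul_assoc]
      rw [f1, Matrix.one_mul]
    rw [Matrix.mul_sub, Matrix.mul_smul, h'] at h
    rw [heps, Matrix.add_mul, Matrix.smul_mul, Matrix.smul_mul, Matrix.mul_assoc l et w,
      Matrix.mul_assoc l]
    have h'' : l * (et * w * kr φ) = (3 : k) • (φ * N * kr φ) := by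
      rw [sub_eq_zero] at h
      exact h
    rw [h'']
    module
  obtain ⟨μ, hμ⟩ := row_mul hφ (kr_ne hφ) (row_kr φ) e2
  have hK := kcomm (M := M) (c := c) (d := d) (nu := nu) (th := th) (et := et) f1
    (by rw [q0, Matrix.zero_mul] : th * pi * g = 0) p1 e1 hμ
  obtain ⟨s, hs, hTs⟩ := D8.MaxR.line2 hT 0
    (BX 0 0 (g * φ) 0 0 0 (d * g * l) ((nu * g - μ • g) * l) (pi * g * l) 0 (g * eps))
    (fun s => by
      rw [smul_zero, add_zero, lint]
      refine D8.cn3 (JX_comm ..) (JX_comm ..) ?_ JX_nil (BX_nil ..) (BX_nil ..)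
      rw [← lint, Matrix.mul_add, Matrix.add_mul, Matrix.mul_smul, Matrix.smul_mul, hK]
      congr 1
      exact hT.cn.1 1 2) (Set.finite_singleton (0 : k))
  rw [smul_zero, add_zero, lint] at hTs
  have key : ∀ V : Matrix (Fin 2) (Fin p) k,
      V * (pi' + s • (pi * g * l)) * (0 + s • (g * φ)) = 0 → V * pi' * g = 0 := by
    intro V h
    have h1 : V * (pi' + s • (pi * g * l)) * (0 + s • (g * φ)) = s • (V * pi' * g * φ) := by
      rw [zero_add, Matrix.mul_smul, Matrix.mul_add, Matrix.add_mul, Matrix.mul_smul,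
        Matrix.smul_mul]
      have h2 : V * (pi * g * l) * (g * φ) = 0 := by
        rw [← Matrix.mul_assoc V, Matrix.mul_assoc _ l, ← Matrix.mul_assoc l, f3,
          Matrix.zero_mul, Matrix.mul_zero]
      rw [h2, smul_zero, add_zero, Matrix.mul_assoc (V * pi')]
    rw [h1] at h
    exact cancel_row hφ ((smul_eq_zero.1 h).resolve_left hs)
  apply hne
  constructor
  · refine zero_of f5 a1 (key th ?_)
    have h := m3X hTs h3 (D8.mem1 _ _ _) (D8.mem2 _ _ _) (D8.mem2 _ _ _)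
    exact h
  · refine zero_of f5 a2 (key th' ?_)
    have h := m3X hTs h3 (D8.mem2 _ _ _) (D8.mem2 _ _ _) (D8.mem2 _ _ _)
    rw [smul_zero, add_zero] at h
    exact h

/-- second sub-case: `a' = 0`, `th pi' = 0` -/
theorem al1_b (h2 : ρ 2 ≤ 2) (h3 : ρ 3 = 0)
    (hT : MaxR ρ ![JX k 2 2 p, BX N M (al * φ) c w 0 d nu pi th et,
      BX N' M' 0 c' w' 0 d' nu' pi' th' et']) (hφ : φ ≠ 0) (f1 : l * al = 1)
    (f5 : al * l + g * ψ = 1) (q1 : th * pi' = 0) : th * pi = 0 := by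
  have hinf : Infinite k := inferInstance
  obtain ⟨r1, r2, r3, r4, r5, r6, r7⟩ := (BX_comm ..).1 (hT.cn.1 1 2)
  simp only [Matrix.mul_zero, Matrix.zero_mul, zero_add, add_zero] at r5 r6
  obtain ⟨p1, p2, p3, p4⟩ := et_pi h2 hT
  have hT0 : MaxR ρ ![JX k 2 2 p, BX N M (al * φ) c w 0 d nu pi th et,
      BX N' M' (al * (0 : Matrix (Fin 1) (Fin 2) k)) c' w' 0 d' nu' pi' th' et'] := by
    rw [Matrix.mul_zero]
    exact hT
  obtain ⟨a0, -, -⟩ := D_al h3 hT0 hφ
  have hK : BX 0 0 0 0 0 0 0 0 (pi * g * l) 0 0 * BX N' M' 0 c' w' 0 d' nu' pi' th' et' =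
      BX N' M' 0 c' w' 0 d' nu' pi' th' et' * BX 0 0 0 0 0 0 0 0 (pi * g * l) 0 0 := by
    rw [BX_comm]
    simp only [Matrix.mul_zero, Matrix.zero_mul, zero_add, add_zero, true_and]
    refine ⟨?_, ?_, trivial⟩
    · rw [← Matrix.mul_assoc, ← Matrix.mul_assoc, ← r5, q1]
      simp
    · rw [← Matrix.mul_assoc, ← Matrix.mul_assoc, p3]
      simp
  obtain ⟨s, hs, hTs⟩ := D8.MaxR.line2 hT (BX 0 0 0 0 0 0 0 0 (pi * g * l) 0 0) 0
    (fun s => by
      rw [smul_zero, add_zero, lint]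
      refine D8.cn3 (JX_comm ..) (JX_comm ..) ?_ JX_nil (BX_nil ..) (BX_nil ..)
      rw [← lint, Matrix.mul_add, Matrix.add_mul, Matrix.mul_smul, Matrix.smul_mul, hK]
      congr 1
      exact hT.cn.1 1 2) (Set.finite_singleton (0 : k))
  rw [smul_zero, add_zero, lint] at hTs
  have h := m3X hTs h3 (D8.mem1 _ _ _) (D8.mem1 _ _ _) (D8.mem1 _ _ _)
  have h1 : (th + s • 0) * (pi + s • (pi * g * l)) * (al * φ + s • 0) =
      s • (th * pi * g * φ) := by
    rw [smul_zero, smul_zero, add_zero, add_zero, Matrix.mul_add, Matrix.add_mul,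
      ← Matrix.mul_assoc (th * pi), a0, Matrix.zero_mul, zero_add, Matrix.mul_smul,
      Matrix.smul_mul, ← Matrix.mul_assoc th, Matrix.mul_assoc _ l, ← Matrix.mul_assoc l, f1,
      Matrix.one_mul, ← Matrix.mul_assoc th]
  rw [h1] at h
  exact zero_of f5 a0 (cancel_row hφ ((smul_eq_zero.1 h).resolve_left hs))

/-- a root of `q0 + 2 q1 t + q2 t ^ 2` -/
theorem root2 {F : Type*} [Field F] [IsAlgClosed F] [CharZero F] {q0 q1 q2 : F}
    (h : ¬ (q1 = 0 ∧ q2 = 0)) : ∃ t : F, q0 + t * (2 * q1) + t ^ 2 * q2 = 0 := by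
  by_cases h2 : q2 = 0
  · have h1 : q1 ≠ 0 := fun h1 => h ⟨h1, h2⟩
    refine ⟨-(q0 / (2 * q1)), ?_⟩
    rw [h2]
    field_simp
    ring
  · obtain ⟨r, hr⟩ := IsAlgClosed.exists_pow_nat_eq (q1 ^ 2 - q0 * q2) (n := 2) (by norm_num)
    refine ⟨(-q1 + r) / q2, ?_⟩
    field_simp
    linear_combination hr

/-- case `a' = 0` -/
theorem al1 [IsAlgClosed k] (h2 : ρ 2 ≤ 2) (h3 : ρ 3 = 0)
    (hT : MaxR ρ ![JX k 2 2 p, BX N M (al * φ) c w 0 d nu pi th et,
      BX N' M' 0 c' w' 0 d' nu' pi' th' et']) (hφ : φ ≠ 0) (f1 : l * al = 1)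
    (f3 : l * g = 0) (f5 : al * l + g * ψ = 1) :
    th * pi = 0 ∧ th * pi' = 0 ∧ th' * pi' = 0 := by
  have hinf : Infinite k := inferInstance
  have hA := D8.mem0 (JX k 2 2 p) (BX N M (al * φ) c w 0 d nu pi th et)
    (BX N' M' 0 c' w' 0 d' nu' pi' th' et')
  obtain ⟨r1, r2, r3, r4, r5, r6, r7⟩ := (BX_comm ..).1 (hT.cn.1 1 2)
  simp only [Matrix.mul_zero, Matrix.zero_mul, zero_add, add_zero] at r5 r6
  have hT0 : MaxR ρ ![JX k 2 2 p, BX N M (al * φ) c w 0 d nu pi th et,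
      BX N' M' (al * (0 : Matrix (Fin 1) (Fin 2) k)) c' w' 0 d' nu' pi' th' et'] := by
    rw [Matrix.mul_zero]
    exact hT
  obtain ⟨a0, a1, a2⟩ := D_al h3 hT0 hφ
  by_cases hq : th * pi' = 0
  · have h0 := al1_b h2 h3 hT hφ f1 f5 hq
    have h1 := al1_zero h2 h3 hT hφ f1 f3 f5 h0
    exact ⟨h0, h1.1, h1.2⟩
  · exfalso
    have hO1 : ∀ t : k, φ * (th * pi) + t • (φ * ((2 : k) • (th * pi'))) +
        (t ^ 2) • (φ * (th' * pi')) = 0 := by
      intro t
      have h := o1X hT h2 hA (memt t)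
      rw [D_exp r5, smul_zero, add_zero, Matrix.mul_assoc] at h
      have h1 := congrArg (fun V => l * V) h
      simp only [Matrix.mul_zero] at h1
      rw [← Matrix.mul_assoc, f1, Matrix.one_mul] at h1
      rw [← h1]
      simp only [Matrix.mul_add, Matrix.mul_smul]
    obtain ⟨b0, b1, b2⟩ := quad_zero Set.infinite_univ _ _ _ (fun t _ => hO1 t)
    have b1' : φ * (th * pi') = 0 := by
      rw [Matrix.mul_smul] at b1
      exact (smul_eq_zero.1 b1).resolve_left two_ne_zero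
    obtain ⟨x0, hx0⟩ := fac_kr hφ b0
    obtain ⟨x1, hx1⟩ := fac_kr hφ b1'
    obtain ⟨x2, hx2⟩ := fac_kr hφ b2
    -- the scalars
    have hsc : ∀ {V : Matrix (Fin 2) (Fin 2) k} {x : Matrix (Fin 1) (Fin 2) k}, V = kr φ * x →
        V * al = 0 → V = (x * g) 0 0 • (kr φ * ψ) := by
      intro V x hV hal
      have e1 : x * al = 0 := by
        rw [hV, Matrix.mul_assoc] at hal
        exact cancel_col (kr_ne hφ) hal
      have e2 : x = (x * g) 0 0 • ψ := by
        have e3 : x = x * g * ψ := by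
          conv_lhs => rw [← Matrix.mul_one x, ← f5, Matrix.mul_add, ← Matrix.mul_assoc,
            ← Matrix.mul_assoc, e1, Matrix.zero_mul, zero_add]
        conv_lhs => rw [e3]
        ext i j
        fin_cases i
        rw [Matrix.mul_apply, Fin.sum_univ_one]
        rfl
      rw [← Matrix.mul_smul, ← e2, hV]
    have s0 := hsc hx0 a0
    have s1 := hsc hx1 a1
    have s2 := hsc hx2 a2
    have hq' : ¬ ((x1 * g) 0 0 = 0 ∧ (x2 * g) 0 0 = 0) := by
      rintro ⟨h, -⟩
      rw [h, zero_smul] at s1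
      exact hq s1
    obtain ⟨t, ht⟩ := root2 (q0 := (x0 * g) 0 0) hq'
    have hTt := addl hT t
    rw [lint, smul_zero, add_zero] at hTt
    have hD : (th + t • th') * (pi + t • pi') = 0 := by
      rw [D_exp r5, s0, s1, s2, smul_smul, smul_smul, smul_smul, ← add_smul, ← add_smul]
      have h9 : (x0 * g) 0 0 + t * 2 * (x1 * g) 0 0 + t ^ 2 * (x2 * g) 0 0 = 0 := by
        linear_combination ht
      rw [h9, zero_smul]
    obtain ⟨z1, z2⟩ := al1_zero h2 h3 hTt hφ f1 f3 f5 hD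
    rw [Matrix.add_mul, Matrix.smul_mul, z2, smul_zero, add_zero] at z1
    exact hq z1

/-- two independent rows, `th' pi' = 0` -/
theorem al2_z (h2 : ρ 2 ≤ 2) (h3 : ρ 3 = 0)
    (hT : MaxR ρ ![JX k 2 2 p, BX N M (al * φ) c w 0 d nu pi th et,
      BX N' M' (al * φ') c' w' 0 d' nu' pi' th' et']) (hd : dt φ φ' ≠ 0) (f1 : l * al = 1)
    (f3 : l * g = 0) (f5 : al * l + g * ψ = 1) (q2 : th' * pi' = 0) :
    th * pi = 0 ∧ th * pi' = 0 := by
  have hinf : Infinite k := inferInstance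
  have hφ : φ ≠ 0 := by
    rintro rfl
    exact hd (by simp [dt])
  have hφ' : φ' ≠ 0 := by
    rintro rfl
    exact hd (by simp [dt])
  have hA := D8.mem0 (JX k 2 2 p) (BX N M (al * φ) c w 0 d nu pi th et)
    (BX N' M' (al * φ') c' w' 0 d' nu' pi' th' et')
  obtain ⟨r1, r2, r3, r4, r5, r6, r7⟩ := (BX_comm ..).1 (hT.cn.1 1 2)
  simp only [Matrix.mul_zero, Matrix.zero_mul, zero_add, add_zero] at r5 r6
  obtain ⟨p1, p2, p3, p4⟩ := et_pi h2 hT
  obtain ⟨a0, a1, a2⟩ := D_al h3 hT hφ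
  have hO1 : ∀ t : k, φ * (th * pi) +
      t • (φ * ((2 : k) • (th * pi')) + φ' * (th * pi)) +
      (t ^ 2) • (φ' * ((2 : k) • (th * pi')) + φ * (th' * pi')) +
      (t ^ 3) • (φ' * (th' * pi')) = 0 := by
    intro t
    have h := o1X hT h2 hA (memt t)
    rw [D_exp r5] at h
    have h1 := congrArg (fun V => l * V) h
    simp only [Matrix.mul_zero] at h1
    have h4 : l * ((al * φ + t • (al * φ')) * (th * pi + t • ((2 : k) • (th * pi')) +
        (t ^ 2) • (th' * pi'))) = (φ + t • φ') * (th * pi + t • ((2 : k) • (th * pi')) +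
        (t ^ 2) • (th' * pi')) := by
      rw [← Matrix.mul_assoc]
      congr 1
      rw [Matrix.mul_add, Matrix.mul_smul, ← Matrix.mul_assoc, ← Matrix.mul_assoc, f1,
        Matrix.one_mul, Matrix.one_mul]
    rw [h4] at h1
    rw [← h1]
    simp only [Matrix.mul_add, Matrix.add_mul, Matrix.mul_smul, Matrix.smul_mul]
    module
  obtain ⟨b0, b1, b2, b3⟩ := cub_zero Set.infinite_univ _ _ _ _ (fun t _ => hO1 t)
  rw [q2, Matrix.mul_zero, add_zero, Matrix.mul_smul] at b2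
  have b2' : φ' * (th * pi') = 0 := (smul_eq_zero.1 b2).resolve_left two_ne_zero
  have suf : th * pi = 0 → th * pi' = 0 := by
    intro h
    rw [h, Matrix.mul_zero, add_zero, Matrix.mul_smul] at b1
    exact both_zero hd ((smul_eq_zero.1 b1).resolve_left two_ne_zero) b2'
  have main : φ * (th * pi') = 0 := by
    by_contra hne
    -- order two condition, divided by `t`
    have hF : ∀ t ∈ ({0} : Set k)ᶜ,
        (et' * w' * ((2 : k) • (th * pi')) - (3 : k) • (al * φ' * N' * ((2 : k) • (th * pi')))) +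
        t • ((et' * w + et * w') * ((2 : k) • (th * pi')) + et' * w' * (th * pi) -
          (3 : k) • ((al * φ * N' + al * φ' * N) * ((2 : k) • (th * pi')) +
            al * φ' * N' * (th * pi))) +
        (t ^ 2) • (et * w * ((2 : k) • (th * pi')) + (et' * w + et * w') * (th * pi) -
          (3 : k) • (al * φ * N * ((2 : k) • (th * pi')) +
            (al * φ * N' + al * φ' * N) * (th * pi))) +
        (t ^ 3) • (et * w * (th * pi) - (3 : k) • (al * φ * N * (th * pi))) = 0 := by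
      intro t ht
      have h := o2X (D8.MaxR.swap hT) h2 (D8.mem0 _ _ _) (memt t)
      rw [D_exp r5.symm, ← r5, q2] at h
      have ht0 : t ≠ 0 := ht
      rw [← sub_eq_zero] at h
      refine (smul_eq_zero.1 (?_ : t • _ = (0 : Matrix (Fin 2) (Fin 2) k))).resolve_left ht0
      rw [← h]
      simp only [Matrix.add_mul, Matrix.mul_add, Matrix.sub_mul, Matrix.smul_mul, Matrix.mul_smul,
        Matrix.mul_assoc, Matrix.zero_mul, Matrix.mul_zero, smul_add, smul_sub, zero_add]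
      module
    obtain ⟨g0, -, -, -⟩ := cub_zero (Set.finite_singleton (0 : k)).infinite_compl _ _ _ _ hF
    have g0' : et' * w' * (th * pi') = (3 : k) • (al * φ' * N' * (th * pi')) := by
      rw [Matrix.mul_smul, Matrix.mul_smul, smul_comm (3 : k) (2 : k), ← smul_sub] at g0
      exact sub_eq_zero.1 ((smul_eq_zero.1 g0).resolve_left two_ne_zero)
    set τ : Matrix (Fin 2) (Fin 1) k := th * pi' * g with hτ
    have hτ0 : τ ≠ 0 := by
      intro h
      apply hne
      rw [zero_of f5 a1 h, Matrix.mul_zero]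
    have t1 : φ' * τ = 0 := by rw [hτ, ← Matrix.mul_assoc, b2', Matrix.zero_mul]
    obtain ⟨eps, heps⟩ : ∃ eps : Matrix (Fin 1) (Fin p) k, eps = (-(1 / 3) : k) • (l * et') :=
      ⟨_, rfl⟩
    have e1 : eps * pi' = 0 := by
      rw [heps, Matrix.smul_mul, Matrix.mul_assoc, p4, Matrix.mul_zero, smul_zero]
    have e2 : (φ' * N' + eps * w') * τ = 0 := by
      have h : l * (et' * w' * (th * pi')) = (3 : k) • (φ' * N' * (th * pi')) := by
        rw [g0', Matrix.mul_smul]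
        congr 1
        simp only [← Matrix.mul_assoc]
        rw [f1, Matrix.one_mul]
      rw [hτ, ← Matrix.mul_assoc, heps, Matrix.add_mul, Matrix.smul_mul, Matrix.smul_mul,
        Matrix.mul_assoc l et' w', Matrix.mul_assoc l, h]
      have h9 : φ' * N' * (th * pi') + (-(1 / 3) : k) • ((3 : k) • (φ' * N' * (th * pi'))) = 0 := by
        module
      rw [h9, Matrix.zero_mul]
    obtain ⟨μ, hμ⟩ := row_mul hφ' hτ0 t1 e2
    have hK := kcomm (M := M') (c := c') (d := d') (nu := nu') (th := th') (et := et') f1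
      (by rw [q2, Matrix.zero_mul] : th' * pi' * g = 0) p4 e1 hμ
    obtain ⟨s, hs, hTs⟩ := D8.MaxR.line2 hT
      (BX 0 0 (g * φ') 0 0 0 (d' * g * l) ((nu' * g - μ • g) * l) (pi' * g * l) 0 (g * eps)) 0
      (fun s => by
        rw [smul_zero, add_zero, lint]
        refine D8.cn3 (JX_comm ..) (JX_comm ..) ?_ JX_nil (BX_nil ..) (BX_nil ..)
        rw [← lint, Matrix.add_mul, Matrix.mul_add, Matrix.smul_mul, Matrix.mul_smul, hK]
        congr 1
        exact hT.cn.1 1 2) (Set.finite_singleton (0 : k))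
    rw [smul_zero, add_zero, lint] at hTs
    have h := m3X hTs h3 (D8.mem1 _ _ _) (D8.mem1 _ _ _) (D8.mem1 _ _ _)
    have h1 : (th + s • 0) * (pi + s • (pi' * g * l)) * (al * φ + s • (g * φ')) =
        s • (th * pi * g * φ' + τ * φ) := by
      have k1 : th * pi * (al * φ) = 0 := by
        rw [← Matrix.mul_assoc, a0, Matrix.zero_mul]
      have k2 : th * (pi' * g * l) * (al * φ) = τ * φ := by
        rw [← Matrix.mul_assoc th, Matrix.mul_assoc _ l, ← Matrix.mul_assoc l, f1,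
          Matrix.one_mul, ← Matrix.mul_assoc th]
      have k3 : th * (pi' * g * l) * (g * φ') = 0 := by
        rw [← Matrix.mul_assoc th, Matrix.mul_assoc _ l, ← Matrix.mul_assoc l, f3,
          Matrix.zero_mul, Matrix.mul_zero]
      simp only [smul_zero, add_zero, Matrix.mul_add, Matrix.add_mul, Matrix.mul_smul,
        Matrix.smul_mul, k1, k2, k3]
      rw [← Matrix.mul_assoc (th * pi) g φ']
      module
    rw [h1] at h
    have h4 := (smul_eq_zero.1 h).resolve_left hs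
    have h5 : (th * pi * g * φ' + τ * φ) * τ = 0 := by rw [h4, Matrix.zero_mul]
    rw [Matrix.add_mul, Matrix.mul_assoc _ φ', t1, Matrix.mul_zero, zero_add,
      Matrix.mul_assoc] at h5
    have h6 := cancel_col hτ0 h5
    apply hne
    refine zero_of f5 ?_ ?_
    · rw [Matrix.mul_assoc, a1, Matrix.mul_zero]
    · rw [Matrix.mul_assoc]
      exact h6
  have h9 : th * pi' = 0 := both_zero hd main b2'
  refine ⟨?_, h9⟩
  rw [h9] at b1
  rw [smul_zero, Matrix.mul_zero, zero_add] at b1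
  exact both_zero hd b0 b1

/-- two independent rows -/
theorem al2 (h2 : ρ 2 ≤ 2) (h3 : ρ 3 = 0)
    (hT : MaxR ρ ![JX k 2 2 p, BX N M (al * φ) c w 0 d nu pi th et,
      BX N' M' (al * φ') c' w' 0 d' nu' pi' th' et']) (hd : dt φ φ' ≠ 0) (f1 : l * al = 1)
    (f3 : l * g = 0) (f5 : al * l + g * ψ = 1) :
    th * pi = 0 ∧ th * pi' = 0 ∧ th' * pi' = 0 := by
  have hinf : Infinite k := inferInstance
  have hφ : φ ≠ 0 := by
    rintro rfl
    exact hd (by simp [dt])
  have hA := D8.mem0 (JX k 2 2 p) (BX N M (al * φ) c w 0 d nu pi th et)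
    (BX N' M' (al * φ') c' w' 0 d' nu' pi' th' et')
  obtain ⟨r1, r2, r3, r4, r5, r6, r7⟩ := (BX_comm ..).1 (hT.cn.1 1 2)
  simp only [Matrix.mul_zero, Matrix.zero_mul, zero_add, add_zero] at r5 r6
  obtain ⟨a0, a1, a2⟩ := D_al h3 hT hφ
  have hO1 : ∀ t : k, φ * (th * pi) +
      t • (φ * ((2 : k) • (th * pi')) + φ' * (th * pi)) +
      (t ^ 2) • (φ' * ((2 : k) • (th * pi')) + φ * (th' * pi')) +
      (t ^ 3) • (φ' * (th' * pi')) = 0 := by
    intro t
    have h := o1X hT h2 hA (memt t)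
    rw [D_exp r5] at h
    have h1 := congrArg (fun V => l * V) h
    simp only [Matrix.mul_zero] at h1
    have h4 : l * ((al * φ + t • (al * φ')) * (th * pi + t • ((2 : k) • (th * pi')) +
        (t ^ 2) • (th' * pi'))) = (φ + t • φ') * (th * pi + t • ((2 : k) • (th * pi')) +
        (t ^ 2) • (th' * pi')) := by
      rw [← Matrix.mul_assoc]
      congr 1
      rw [Matrix.mul_add, Matrix.mul_smul, ← Matrix.mul_assoc, ← Matrix.mul_assoc, f1,
        Matrix.one_mul, Matrix.one_mul]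
    rw [h4] at h1
    rw [← h1]
    simp only [Matrix.mul_add, Matrix.add_mul, Matrix.mul_smul, Matrix.smul_mul]
    module
  obtain ⟨b0, b1, b2, b3⟩ := cub_zero Set.infinite_univ _ _ _ _ (fun t _ => hO1 t)
  by_cases hm : th * pi = 0
  · -- swap
    have hd' : dt φ' φ ≠ 0 := by
      intro h
      apply hd
      unfold dt at h ⊢
      linear_combination -h
    have h := al2_z h2 h3 (D8.MaxR.swap hT) hd' f1 f3 f5 hm
    exact ⟨hm, r5.trans h.2, h.1⟩
  · exfalso
    -- the scalars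
    have hm' : φ' * (th * pi) ≠ 0 := fun h => hm (both_zero hd b0 h)
    have hm2 : (φ' * (th * pi) * g) 0 0 ≠ 0 := by
      intro h
      apply hm'
      refine zero_of f5 ?_ ?_
      · rw [Matrix.mul_assoc, a0, Matrix.mul_zero]
      · ext i j
        fin_cases i
        fin_cases j
        exact h
    have row_of : ∀ {x : Matrix (Fin 1) (Fin 2) k}, x * al = 0 → x = (x * g) 0 0 • ψ := by
      intro x hx
      have e3 : x = x * g * ψ := by
        conv_lhs => rw [← Matrix.mul_one x, ← f5, Matrix.mul_add, ← Matrix.mul_assoc,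
          ← Matrix.mul_assoc, hx, Matrix.zero_mul, zero_add]
      conv_lhs => rw [e3]
      ext i j
      fin_cases i
      rw [Matrix.mul_apply, Fin.sum_univ_one]
      rfl
    set m : k := (φ' * (th * pi) * g) 0 0 with hmdef
    set n : k := (φ * (th' * pi') * g) 0 0 with hndef
    have s0 : φ' * (th * pi) = m • ψ := row_of (by rw [Matrix.mul_assoc, a0, Matrix.mul_zero])
    have s2 : φ * (th' * pi') = n • ψ := row_of (by rw [Matrix.mul_assoc, a2, Matrix.mul_zero])
    have s1 : (2 : k) • (φ * (th * pi')) = -(m • ψ) := by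
      rw [← s0, ← Matrix.mul_smul]
      exact eq_neg_of_add_eq_zero_left b1
    have s3 : (2 : k) • (φ' * (th * pi')) = -(n • ψ) := by
      rw [← s2, ← Matrix.mul_smul]
      exact eq_neg_of_add_eq_zero_left b2
    set t : k := n / m with ht
    have hTt := addr hT t
    rw [lint] at hTt
    have hD : (th' + t • th) * (pi' + t • pi) = 0 := by
      rw [D_exp r5.symm, ← r5]
      refine both_zero hd ?_ ?_
      · rw [Matrix.mul_add, Matrix.mul_add, Matrix.mul_smul, Matrix.mul_smul, Matrix.mul_smul, s2,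
          s1, b0, smul_zero, add_zero, smul_neg, smul_smul, ht, div_mul_cancel₀ _ hm2,
          add_neg_cancel]
      · rw [Matrix.mul_add, Matrix.mul_add, Matrix.mul_smul, Matrix.mul_smul, Matrix.mul_smul, b3,
          s3, s0, zero_add, smul_neg, smul_smul, smul_smul, ← sub_eq_neg_add, ← sub_smul]
        have : t ^ 2 * m - t * n = 0 := by
          rw [ht]
          field_simp
          ring
        rw [this, zero_smul]
    have hal : al * φ' + t • (al * φ) = al * (φ' + t • φ) := by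
      rw [Matrix.mul_add, Matrix.mul_smul]
    rw [hal] at hTt
    have hd' : dt φ (φ' + t • φ) ≠ 0 := by
      intro h
      apply hd
      unfold dt at h ⊢
      simp only [Matrix.add_apply, Matrix.smul_apply, smul_eq_mul] at h
      linear_combination h
    exact hm (al2_z h2 h3 hTt hd' f1 f3 f5 hD).1

/-- a common factorisation -/
theorem exists_fac {D : Matrix (Fin 2) (Fin 2) k} (hD : D ≠ 0) (h1 : D * a = 0) (h2 : D * a' = 0) :
    ∃ (ψ φ φ' : Matrix (Fin 1) (Fin 2) k), ψ ≠ 0 ∧ a = kr ψ * φ ∧ a' = kr ψ * φ' := by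
  obtain ⟨E, hE⟩ := E1bAux.exists_row hD
  obtain ⟨φ, hφ⟩ := fac_kr hE (by rw [Matrix.mul_assoc, h1, Matrix.mul_zero] : E * D * a = 0)
  obtain ⟨φ', hφ'⟩ := fac_kr hE (by rw [Matrix.mul_assoc, h2, Matrix.mul_zero] : E * D * a' = 0)
  exact ⟨_, φ, φ', hE, hφ, hφ'⟩

/-- the first part of the proof -/
theorem D1 [IsAlgClosed k] (h2 : ρ 2 ≤ 2) (h3 : ρ 3 = 0)
    (hT : MaxR ρ ![JX k 2 2 p, BX N M a c w 0 d nu pi th et,
      BX N' M' a' c' w' 0 d' nu' pi' th' et']) (ha : ¬ (a = 0 ∧ a' = 0)) :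
    th * pi = 0 ∧ th * pi' = 0 ∧ th' * pi = 0 ∧ th' * pi' = 0 := by
  obtain ⟨r1, r2, r3, r4, r5, r6, r7⟩ := (BX_comm ..).1 (hT.cn.1 1 2)
  simp only [Matrix.mul_zero, Matrix.zero_mul, zero_add, add_zero] at r5 r6
  suffices h : th * pi = 0 ∧ th * pi' = 0 ∧ th' * pi' = 0 from
    ⟨h.1, h.2.1, r5.symm.trans h.2.1, h.2.2⟩
  by_contra hne
  obtain ⟨D, hD, hDa, hDa'⟩ : ∃ D : Matrix (Fin 2) (Fin 2) k, D ≠ 0 ∧ D * a = 0 ∧ D * a' = 0 := by
    by_cases e0 : th * pi = 0
    · by_cases e1 : th * pi' = 0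
      · exact ⟨th' * pi', fun e2 => hne ⟨e0, e1, e2⟩,
          m3X hT h3 (D8.mem2 _ _ _) (D8.mem2 _ _ _) (D8.mem1 _ _ _),
          m3X hT h3 (D8.mem2 _ _ _) (D8.mem2 _ _ _) (D8.mem2 _ _ _)⟩
      · exact ⟨th * pi', e1, m3X hT h3 (D8.mem1 _ _ _) (D8.mem2 _ _ _) (D8.mem1 _ _ _),
          m3X hT h3 (D8.mem1 _ _ _) (D8.mem2 _ _ _) (D8.mem2 _ _ _)⟩
    · exact ⟨th * pi, e0, m3X hT h3 (D8.mem1 _ _ _) (D8.mem1 _ _ _) (D8.mem1 _ _ _),
        m3X hT h3 (D8.mem1 _ _ _) (D8.mem1 _ _ _) (D8.mem2 _ _ _)⟩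
  obtain ⟨ψ, φ, φ', hψ, rfl, rfl⟩ := exists_fac hD hDa hDa'
  obtain ⟨g, l, f1, -, f3, -, f5⟩ := adapt hψ
  by_cases hd : dt φ φ' = 0
  · by_cases hφ' : φ' = 0
    · subst hφ'
      have hφ : φ ≠ 0 := by
        rintro rfl
        exact ha ⟨Matrix.mul_zero _, Matrix.mul_zero _⟩
      rw [Matrix.mul_zero] at hT
      exact hne (al1 h2 h3 hT hφ f1 f3 f5)
    · -- `φ = μ φ'`
      obtain ⟨μ, hμ⟩ := row_mul hφ' (kr_ne hφ') (row_kr φ') (r := φ) (by
        ext i j
        fin_cases i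
        fin_cases j
        unfold dt at hd
        simp [kr, Matrix.mul_apply, Fin.sum_univ_two]
        linear_combination hd)
      have hTt := addl hT (-μ)
      rw [lint] at hTt
      have hz : kr ψ * φ + (-μ) • (kr ψ * φ') = 0 := by
        rw [hμ, Matrix.mul_smul, neg_smul, add_neg_cancel]
      rw [hz] at hTt
      obtain ⟨z0, z1, z2⟩ := al1 h2 h3 (D8.MaxR.swap hTt) hφ' f1 f3 f5
      have y1 : th' * pi = 0 := by
        rw [Matrix.mul_add, Matrix.mul_smul, z0, smul_zero, add_zero] at z1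
        exact z1
      have y2 : th * pi' = 0 := r5.trans y1
      apply hne
      refine ⟨?_, y2, z0⟩
      rw [Matrix.add_mul, Matrix.mul_add, Matrix.mul_add, Matrix.smul_mul, Matrix.smul_mul,
        Matrix.mul_smul, Matrix.mul_smul, z0, y1, y2] at z2
      simpa using z2
  · exact hne (al2 h2 h3 hT hd f1 f3 f5)

/-- a nontrivial relation -/
theorem exists_rel {r r' v : Matrix (Fin 1) (Fin 2) k} (hv : v ≠ 0) :
    ∃ z z' μ : k, (z ≠ 0 ∨ z' ≠ 0) ∧ z • r + z' • r' + μ • v = 0 := by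
  by_cases h : dt r' v = 0
  · obtain ⟨μ, hμ⟩ := row_mul hv (kr_ne hv) (row_kr v) (r := r') (by
      ext i j
      fin_cases i
      fin_cases j
      unfold dt at h
      simp [kr, Matrix.mul_apply, Fin.sum_univ_two]
      linear_combination h)
    refine ⟨0, 1, -μ, Or.inr one_ne_zero, ?_⟩
    rw [hμ]
    module
  · refine ⟨dt r' v, dt v r, dt r r', Or.inl h, ?_⟩
    ext i j
    fin_cases i
    fin_cases j
    · simp only [Fin.zero_eta, Matrix.add_apply, Matrix.smul_apply, smul_eq_mul, dt,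
        Matrix.zero_apply]
      ring
    · simp only [Fin.zero_eta, Fin.mk_one, Matrix.add_apply, Matrix.smul_apply, smul_eq_mul, dt,
        Matrix.zero_apply]
      ring

/-- the second part of the proof -/
theorem D2 (h1 : ρ 1 ≤ 6)
    (hT : MaxR ρ ![JX k 2 2 p, BX N M a c w 0 d nu pi th et,
      BX N' M' a' c' w' 0 d' nu' pi' th' et']) (ha : ¬ (a = 0 ∧ a' = 0))
    {p1 : Matrix (Fin p) (Fin 1) k} {ψ : Matrix (Fin 1) (Fin p) k}
    (g1 : th * p1 = 0) (g2 : et * p1 = 0) (g3 : th' * p1 = 0) (g4 : et' * p1 = 0)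
    (g5 : ψ * pi = 0) (g6 : ψ * pi' = 0) (g7 : ψ * p1 = 0) (hp : p1 ≠ 0) (hψ : ψ ≠ 0) : False := by
  have hinf : Infinite k := inferInstance
  -- rows with `χ a' - χ' a` nonzero
  obtain ⟨χ, χ', hv⟩ : ∃ χ χ' : Matrix (Fin 1) (Fin 2) k, χ * a' - χ' * a ≠ 0 := by
    by_cases h : a = 0
    · obtain ⟨E, hE⟩ := E1bAux.exists_row (fun h' => ha ⟨h, h'⟩ : a' ≠ 0)
      exact ⟨E, 0, by simpa using hE⟩
    · obtain ⟨E, hE⟩ := E1bAux.exists_row h
      exact ⟨0, E, by simpa using hE⟩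
  obtain ⟨z, z', μ, hz, hrel⟩ := exists_rel (r := ψ * w') (r' := -(ψ * w)) hv
  obtain ⟨x, hx⟩ : ∃ x, x = μ • χ := ⟨_, rfl⟩
  obtain ⟨x', hx'⟩ : ∃ x', x' = μ • χ' := ⟨_, rfl⟩
  have hrel' : z • (ψ * w') + x * a' = z' • (ψ * w) + x' * a := by
    rw [hx, hx', Matrix.smul_mul, Matrix.smul_mul, ← sub_eq_zero, ← hrel]
    module
  have hBs : ∀ (s y : k) (v : Matrix (Fin 1) (Fin 2) k),
      BX N M a c w 0 d nu pi th et + s • (BX 0 0 0 0 0 0 0 0 (p1 * v) 0 0 + KX 2 2 (y • (p1 * ψ))) =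
      BX N M a c w 0 d nu (pi + s • (p1 * v)) th et + KX 2 2 (s • (y • (p1 * ψ))) := by
    intro s y v
    rw [smul_add, ← add_assoc, lint, E1bAux.KX_smul]
    simp
  have hBs' : ∀ (s y : k) (v : Matrix (Fin 1) (Fin 2) k),
      BX N' M' a' c' w' 0 d' nu' pi' th' et' +
        s • (BX 0 0 0 0 0 0 0 0 (p1 * v) 0 0 + KX 2 2 (y • (p1 * ψ))) =
      BX N' M' a' c' w' 0 d' nu' (pi' + s • (p1 * v)) th' et' +
        KX 2 2 (s • (y • (p1 * ψ))) := by
    intro s y v
    rw [smul_add, ← add_assoc, lint, E1bAux.KX_smul]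
    simp
  obtain ⟨b1, b2, b3, b4, b5, b6, b7⟩ := (BX_comm ..).1 (hT.cn.1 1 2)
  have hpp : ∀ y y' : k, (y • (p1 * ψ)) * (y' • (p1 * ψ)) = 0 := by
    intro y y'
    rw [Matrix.smul_mul, Matrix.mul_smul, Matrix.mul_assoc, ← Matrix.mul_assoc ψ, g7]
    simp
  have hpv : ∀ (y : k) (v : Matrix (Fin 1) (Fin 2) k), (y • (p1 * ψ)) * (p1 * v) = 0 := by
    intro y v
    rw [Matrix.smul_mul, Matrix.mul_assoc, ← Matrix.mul_assoc ψ, g7]
    simp
  have hcomm : ∀ s : k,
      (BX N M a c w 0 d nu (pi + s • (p1 * x)) th et + KX 2 2 (s • (z • (p1 * ψ)))) *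
        (BX N' M' a' c' w' 0 d' nu' (pi' + s • (p1 * x')) th' et' +
          KX 2 2 (s • (z' • (p1 * ψ)))) =
      (BX N' M' a' c' w' 0 d' nu' (pi' + s • (p1 * x')) th' et' +
          KX 2 2 (s • (z' • (p1 * ψ)))) *
        (BX N M a c w 0 d nu (pi + s • (p1 * x)) th et + KX 2 2 (s • (z • (p1 * ψ)))) := by
    intro s
    have k1 : ∀ (y : k) (R : Matrix (Fin 2) (Fin p) k), R * p1 = 0 →
        R * (s • (y • (p1 * ψ))) = 0 := by
      intro y R hR
      rw [Matrix.mul_smul, Matrix.mul_smul, ← Matrix.mul_assoc, hR]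
      simp
    have k2 : ∀ (v : Matrix (Fin 1) (Fin 2) k) (R : Matrix (Fin 2) (Fin p) k)
        (Q : Matrix (Fin p) (Fin 2) k), R * p1 = 0 → R * (Q + s • (p1 * v)) = R * Q := by
      intro v R Q hR
      rw [Matrix.mul_add, Matrix.mul_smul, ← Matrix.mul_assoc, hR]
      simp
    have k3 : ∀ (y : k) (v : Matrix (Fin 1) (Fin 2) k) (Q : Matrix (Fin p) (Fin 2) k), ψ * Q = 0 →
        (s • (y • (p1 * ψ))) * (Q + s • (p1 * v)) = 0 := by
      intro y v Q hQ
      rw [Matrix.smul_mul, Matrix.mul_add, Matrix.mul_smul, hpv, Matrix.smul_mul,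
        Matrix.mul_assoc, hQ]
      simp
    have k4 : (s • (z • (p1 * ψ))) * (s • (z' • (p1 * ψ))) = 0 := by
      rw [Matrix.smul_mul, Matrix.mul_smul, hpp]
      simp
    have k5 : (s • (z' • (p1 * ψ))) * (s • (z • (p1 * ψ))) = 0 := by
      rw [Matrix.smul_mul, Matrix.mul_smul, hpp]
      simp
    simp only [Matrix.add_mul, Matrix.mul_add]
    rw [E1bAux.KX_mul_KX, E1bAux.KX_mul_KX, k4, k5, E1bAux.KX_zero]
    simp only [E1bAux.KX_mul_BX, E1bAux.BX_mul_KX, BX_mul, BX_add, add_zero]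
    rw [BX_inj]
    rw [k1 z' th g1, k1 z' et g2, k1 z th' g3, k1 z et' g4, k3 z x' pi' g6, k3 z' x pi g5,
      k2 x' th pi' g1, k2 x' et pi' g2, k2 x th' pi g3, k2 x et' pi g4]
    simp only [Matrix.mul_zero, Matrix.zero_mul, zero_add, add_zero] at b2 b3 b5 b6 ⊢
    refine ⟨trivial, b2, trivial, b3, ?_, trivial, b5, b6, trivial, trivial, trivial⟩
    have e1 : (pi + s • (p1 * x)) * a' + s • z • (p1 * ψ) * w' =
        pi * a' + s • (p1 * (z • (ψ * w') + x * a')) := by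
      rw [Matrix.add_mul, Matrix.smul_mul, Matrix.smul_mul, Matrix.smul_mul, Matrix.mul_add,
        Matrix.mul_smul, Matrix.mul_assoc p1 x, Matrix.mul_assoc p1 ψ]
      module
    have e2 : (pi' + s • (p1 * x')) * a + s • z' • (p1 * ψ) * w =
        pi' * a + s • (p1 * (z' • (ψ * w) + x' * a)) := by
      rw [Matrix.add_mul, Matrix.smul_mul, Matrix.smul_mul, Matrix.smul_mul, Matrix.mul_add,
        Matrix.mul_smul, Matrix.mul_assoc p1 x', Matrix.mul_assoc p1 ψ]
      module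
    rw [e1, e2, hrel', b4]
  have hnil : ∀ (s y : k) (v : Matrix (Fin 1) (Fin 2) k), IsNilpotent
      (BX N M a c w 0 d nu (pi + s • (p1 * v)) th et + KX 2 2 (s • (y • (p1 * ψ)))) := by
    intro s y v
    refine E1bAux.nil_add (BX_nil ..) ?_ ?_
    · rw [E1bAux.BX_mul_KX]
      simp only [Matrix.mul_smul, ← Matrix.mul_assoc]
      rw [g1, g2]
      simp [BX_zero]
    · rw [E1bAux.KX_mul_KX, Matrix.smul_mul, Matrix.mul_smul, hpp]
      simp [E1bAux.KX_zero]
  have hnil' : ∀ (s y : k) (v : Matrix (Fin 1) (Fin 2) k), IsNilpotent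
      (BX N' M' a' c' w' 0 d' nu' (pi' + s • (p1 * v)) th' et' + KX 2 2 (s • (y • (p1 * ψ)))) := by
    intro s y v
    refine E1bAux.nil_add (BX_nil ..) ?_ ?_
    · rw [E1bAux.BX_mul_KX]
      simp only [Matrix.mul_smul, ← Matrix.mul_assoc]
      rw [g3, g4]
      simp [BX_zero]
    · rw [E1bAux.KX_mul_KX, Matrix.smul_mul, Matrix.mul_smul, hpp]
      simp [E1bAux.KX_zero]
  have hJ : ∀ (X : Matrix (Ix 2 2 p) (Ix 2 2 p) k) (κ : Matrix (Fin p) (Fin p) k),
      JX k 2 2 p * X = X * JX k 2 2 p →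
      JX k 2 2 p * (X + KX 2 2 κ) = (X + KX 2 2 κ) * JX k 2 2 p := by
    intro X κ hX
    rw [Matrix.mul_add, Matrix.add_mul, hX]
    congr 1
    rw [JX, E1bAux.BX_mul_KX, E1bAux.KX_mul_BX]
    simp
  obtain ⟨s, hs, hTs⟩ := D8.MaxR.line2 hT (BX 0 0 0 0 0 0 0 0 (p1 * x) 0 0 + KX 2 2 (z • (p1 * ψ)))
    (BX 0 0 0 0 0 0 0 0 (p1 * x') 0 0 + KX 2 2 (z' • (p1 * ψ))) (fun s => by
      rw [hBs, hBs']
      exact D8.cn3 (hJ _ _ (JX_comm ..)) (hJ _ _ (JX_comm ..)) (hcomm s) JX_nil (hnil s z x)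
        (hnil' s z' x')) (Set.finite_singleton (0 : k))
  rw [hBs, hBs'] at hTs
  have hp1 : p1 * ψ ≠ 0 := by
    intro h6
    obtain ⟨i, y, hi⟩ := E1bAux.exists_entry hp
    obtain ⟨y', j, hj⟩ := E1bAux.exists_entry hψ
    have hy : y = 0 := Subsingleton.elim _ _
    have hy' : y' = 0 := Subsingleton.elim _ _
    subst hy hy'
    have h7 := congrFun (congrFun h6 i) j
    rw [Matrix.mul_apply, Fin.sum_univ_one] at h7
    exact (mul_ne_zero hi hj) h7
  have h5 := kap0 hTs (by omega) (D8.mem0 _ _ _) (D8.mem1 _ _ _)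
  have h6 := kap0 hTs (by omega) (D8.mem0 _ _ _) (D8.mem2 _ _ _)
  have h7 : z = 0 := (smul_eq_zero.1 ((smul_eq_zero.1 h5).resolve_left hs)).resolve_right hp1
  have h8 : z' = 0 := (smul_eq_zero.1 ((smul_eq_zero.1 h6).resolve_left hs)).resolve_right hp1
  rcases hz with hz | hz
  · exact hz h7
  · exact hz h8

end Main

end PiZeroAux

open PiZeroAux

theorem piZero {k : Type*} [Field k] [IsAlgClosed k] [CharZero k] {p : ℕ} {ρ : ℕ → ℕ}
    (h1 : ρ 1 ≤ 6) (h2 : ρ 2 ≤ 2) (h3 : ρ 3 = 0)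
    {N M N' M' : Matrix (Fin 2) (Fin 2) k} {a c a' c' : Matrix (Fin 2) (Fin 2) k}
    {w w' : Matrix (Fin p) (Fin 2) k} {d d' : Matrix (Fin 2) (Fin 2) k}
    {nu nu' : Matrix (Fin 2) (Fin 2) k} {pi pi' : Matrix (Fin p) (Fin 2) k}
    {th th' : Matrix (Fin 2) (Fin p) k} {et et' : Matrix (Fin 2) (Fin p) k}
    (hT : MaxR ρ ![JX k 2 2 p, BX N M a c w 0 d nu pi th et, BX N' M' a' c' w' 0 d' nu' pi' th' et'])
    (ha : ¬ (a = 0 ∧ a' = 0)) : pi = 0 ∧ pi' = 0 := by
  by_contra hne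
  obtain ⟨r1, r2, r3, r4⟩ := D1 h2 h3 hT ha
  obtain ⟨q1, q2, q3, q4⟩ := et_pi h2 hT
  obtain ⟨p1, hp, hp1⟩ := E1bAux.exists_p1 hne
  by_cases hP : ∀ x : Fin p → k, x ᵥ* pi = 0 → x ᵥ* pi' = 0 → x = 0
  · have hz : ∀ {m : ℕ} (R : Matrix (Fin m) (Fin p) k), R * pi = 0 → R * pi' = 0 → R = 0 := by
      intro m R h5 h6
      ext i j
      have h7 := hP (R i) (by
        funext l
        exact congrFun (congrFun h5 i) l) (by
        funext l
        exact congrFun (congrFun h6 i) l)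
      exact congrFun h7 j
    have e1 := hz th r1 r2
    have e2 := hz th' r3 r4
    have e3 := hz et q1 q2
    have e4 := hz et' q3 q4
    subst e1 e2 e3 e4
    have hp0 : 0 < p := by
      rcases Nat.eq_zero_or_pos p with h | h
      · subst h
        exact (hp (by ext i j; exact i.elim0)).elim
      · exact h
    exact no_III2 hp0 h2 hT hP ha
  · push Not at hP
    obtain ⟨x, h5, h6, h7⟩ := hP
    have g5 : (Matrix.of fun (_ : Fin 1) j => x j) * pi = 0 := by
      ext i j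
      exact congrFun h5 j
    have g6 : (Matrix.of fun (_ : Fin 1) j => x j) * pi' = 0 := by
      ext i j
      exact congrFun h6 j
    refine D2 h1 hT ha (hp1 th r1 r2) (hp1 et q1 q2) (hp1 th' r3 r4) (hp1 et' q3 q4) g5 g6
      (hp1 _ g5 g6) hp ?_
    intro h8
    apply h7
    funext j
    exact congrFun (congrFun h8 0) j

end Pool.Agent.Lib.D13
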