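import Pool.Agent.Lib.D13.PlRed
import Pool.Agent.Lib.D13.PlPerm

/-!
# MP_5dcbc3_ag: planar commuting nilpotent triples of corank at most 3: assembly
-/

namespace Pool.Agent.Lib.D13.Pl

open Matrix Polynomial Pool.Agent.Lib.Q5dc Pool.Agent.Lib.D7 Pool.Agent.Lib.D8

variable {k : Type*} [Field k] {N : ℕ}

/-- the classification of the pairs with three lines (statement) -/
def LinesNF (k : Type*) [Field k] (N : ℕ) : Prop :=
  ∀ (X Y : Matrix (Fin N) (Fin N) k) (v ψ : Fin N → k), Lines X Y v ψ →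
    (∃ M ∈ adj ![X, Y, 0], N ≤ M.rank + 2) ∨
    ∃ (X' Y' : Matrix (Fin N) (Fin N) k) (v' : Fin N → k) (a b c e : k) (p1 p2 p3 : ℕ),
      NF p1 p2 p3 X' Y' v' a b c ∧ X' = X + e • (X * (X + (2 : k) • Y)) ∧
        Y' = Y - e • (Y * ((2 : k) • X + Y))

/-- the sorted normal forms are in the closure (statement) -/
def SortedCl (k : Type*) [Field k] (N : ℕ) : Prop :=
  ∀ (p1 p2 p3 : ℕ) (X Y : Matrix (Fin N) (Fin N) k) (v : Fin N → k) (a b c : k),
    NF p1 p2 p3 X Y v a b c → p3 ≤ p2 → p2 ≤ p1 → Cl ![X, Y, 0]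

theorem cl_planar_of [IsAlgClosed k] [CharZero k] (hN : 0 < N) (h3 : LinesNF k N)
    (h4 : SortedCl k N) {A B : Matrix (Fin N) (Fin N) k} (hT : CN ![A, B, 0])
    (hr : N ≤ A.rank + 3) : Cl ![A, B, 0] := by
  refine planar_reduce hN (fun A B v ψ a0 a1 a2 t0 t1 t2 hG => ?_) hT hr
  obtain ⟨X, Y, mX, mY, mA, mB, hL⟩ := good_lines hG
  have hXY : Cl ![X, Y, 0] := by
    have hc : CN ![X, Y, 0] := cn_of hL.comm hL.nilX hL.nilY
    rcases h3 X Y v ψ hL with ⟨M, hM, hr⟩ | ⟨X', Y', v', a, b, c, e, p1, p2, p3, hNF, hX', hY'⟩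
    · exact cl_corank hN hc hM hr
    · have m0 : X ∈ adj ![X, Y, 0] := mem_adj ![X, Y, 0] 0
      have m1 : Y ∈ adj ![X, Y, 0] := mem_adj ![X, Y, 0] 1
      have n0 : X + (2 : k) • Y ∈ adj ![X, Y, 0] := add_mem m0 (SMulMemClass.smul_mem _ m1)
      have n1 : (2 : k) • X + Y ∈ adj ![X, Y, 0] := add_mem (SMulMemClass.smul_mem _ m0) m1
      refine cl_of_mod hc ?_ ?_ ?_ ?_ (nf_sort h4 hNF)
      · rw [hX']
        exact add_mem m0 (SMulMemClass.smul_mem _ (mul_mem m0 n0))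
      · rw [hY']
        exact sub_mem m1 (SMulMemClass.smul_mem _ (mul_mem m1 n1))
      · have : X - X' = (-e) • (X * (X + (2 : k) • Y)) := by rw [hX']; module
        rw [this]
        exact Submodule.smul_mem _ _ (Submodule.subset_span ⟨_, m0, _, n0, rfl⟩)
      · have : Y - Y' = e • (Y * ((2 : k) • X + Y)) := by rw [hY']; module
        rw [this]
        exact Submodule.smul_mem _ _ (Submodule.subset_span ⟨_, m1, _, n1, rfl⟩)
  refine cl_of_adj (fun i => ?_) hXY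
  fin_cases i
  · exact mA
  · exact mB
  · exact zero_mem _

end Pool.Agent.Lib.D13.Pl
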