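import Pool.Agent.Lib.D13.PlR

/-!
# MP_5dcbc3_ag: planar commuting nilpotent triples: two structural theorems (raising with a fixed
first matrix `X` of type `(a + e, a, ..., a)` or `(a, a, 1)`)
-/

namespace Pool.Agent.Lib.D13.Pl

open Matrix Pool.Agent.Lib.Q5dc Pool.Agent.Lib.D7 Pool.Agent.Lib.D8

variable {k : Type*} [Field k] {N : ℕ}

theorem mm (P Q : Matrix (Fin N) (Fin N) k) (w : Fin N → k) : P *ᵥ Q *ᵥ w = (P * Q) *ᵥ w :=
  Matrix.mulVec_mulVec w P Q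

theorem mat_ext {ι : Type*} (B : Module.Basis ι k (Fin N → k)) {P Q : Matrix (Fin N) (Fin N) k}
    (h : ∀ x, P *ᵥ B x = Q *ᵥ B x) : P = Q := by
  refine Matrix.toLin'.injective (B.ext fun x => ?_)
  rw [Matrix.toLin'_apply, Matrix.toLin'_apply, h]

/-- a family of `N` vectors whose span `S` is stable under the nilpotent `X` and satisfies
`S + X M = M` is a basis -/
theorem top_of_nak {X : Matrix (Fin N) (Fin N) k} (hX : IsNilpotent X)
    {S : Submodule k (Fin N → k)} (hS : ∀ w ∈ S, X *ᵥ w ∈ S)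
    (h : ∀ w, ∃ s ∈ S, ∃ u, w = s + X *ᵥ u) : ⊤ ≤ S := by
  obtain ⟨p, hp⟩ := hX
  have h1 : ∀ j : ℕ, ∀ w, ∃ s ∈ S, ∃ u, w = s + X ^ j *ᵥ u := by
    intro j
    induction j with
    | zero => exact fun w => ⟨0, zero_mem _, w, by rw [pow_zero, Matrix.one_mulVec, zero_add]⟩
    | succ j ih =>
      intro w
      obtain ⟨s, hs, u, hu⟩ := ih w
      obtain ⟨s', hs', u', hu'⟩ := h u
      refine ⟨s + X ^ j *ᵥ s', add_mem hs (pow_mem hS j hs'), u', ?_⟩
      rw [hu, hu', Matrix.mulVec_add, Matrix.mulVec_mulVec, ← pow_succ, add_assoc]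
  intro w _
  obtain ⟨s, hs, u, hu⟩ := h1 p w
  rw [hu, hp, Matrix.zero_mulVec, add_zero]
  exact hs

/-- congruence of powers modulo `X - Z` -/
theorem pow_congr' {X Z : Matrix (Fin N) (Fin N) k} (hc : X * Z = Z * X) (i : ℕ)
    (w : Fin N → k) : ∃ u, X ^ i *ᵥ w = Z ^ i *ᵥ w + (X - Z) *ᵥ u := by
  induction i with
  | zero => exact ⟨0, by rw [Matrix.mulVec_zero, add_zero, pow_zero, pow_zero]⟩
  | succ i ih =>
    obtain ⟨u, hu⟩ := ih
    refine ⟨X *ᵥ u + Z ^ i *ᵥ w, ?_⟩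
    have h1 : X * (X - Z) = (X - Z) * X := by rw [mul_sub, sub_mul, hc]
    rw [pow_succ', ← Matrix.mulVec_mulVec, hu, Matrix.mulVec_add, mm X (X - Z),
      h1, ← Matrix.mulVec_mulVec, Matrix.mulVec_add, pow_succ', ← Matrix.mulVec_mulVec,
      Matrix.sub_mulVec X Z (Z ^ i *ᵥ w)]
    abel

/-- if two vectors agree modulo `(X - Z) M + Z^3 M` for all basis vectors then for all vectors -/
theorem functional {ι : Type*} [Finite ι] (B : Module.Basis ι k (Fin N → k))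
    {X Z : Matrix (Fin N) (Fin N) k} {v : Fin N → k} (P : Matrix (Fin N) (Fin N) k)
    (α β : (Fin N → k) →ₗ[k] k)
    (h : ∀ x, ∃ w₁ w₂, P *ᵥ B x = α (B x) • Z *ᵥ v + β (B x) • Z ^ 2 *ᵥ v +
      ((X - Z) *ᵥ w₁ + Z ^ 3 *ᵥ w₂)) (w : Fin N → k) :
    ∃ w₁ w₂, P *ᵥ w = α w • Z *ᵥ v + β w • Z ^ 2 *ᵥ v + ((X - Z) *ᵥ w₁ + Z ^ 3 *ᵥ w₂) := by
  have h1 : w ∈ Submodule.span k (Set.range B) := by rw [B.span_eq]; trivial
  induction h1 using Submodule.span_induction with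
  | mem x hx =>
    obtain ⟨y, rfl⟩ := hx
    exact h y
  | zero => exact ⟨0, 0, by simp⟩
  | add x y _ _ hx hy =>
    obtain ⟨a, b, hab⟩ := hx
    obtain ⟨a', b', hab'⟩ := hy
    refine ⟨a + a', b + b', ?_⟩
    rw [Matrix.mulVec_add, hab, hab', map_add, map_add, add_smul, add_smul, Matrix.mulVec_add,
      Matrix.mulVec_add]
    abel
  | smul c x _ hx =>
    obtain ⟨a, b, hab⟩ := hx
    refine ⟨c • a, c • b, ?_⟩
    rw [Matrix.mulVec_smul, hab, map_smul, map_smul, Matrix.mulVec_smul, Matrix.mulVec_smul,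
      smul_add, smul_add, smul_add, smul_eq_mul, smul_eq_mul, mul_smul, mul_smul]

/-- **Theorem B.** `X` of type `(a + e, a, ..., a)` (`b` blocks) -/
theorem cl_B [IsAlgClosed k] [CharZero k] {X Y : Matrix (Fin N) (Fin N) k} {v : Fin N → k}
    {a b e : ℕ} (ha : 2 ≤ a) (hb : 2 ≤ b) (hN : a * (b + 1) + e = N) (hc : X * Y = Y * X)
    (hX : X ^ (a + e) = 0) (hY : IsNilpotent Y) (hg : Gen X Y v) (hXY : X ^ a * Y = 0)
    (hYb : ∀ w, ∃ u, Y ^ (b + 1) *ᵥ w = X *ᵥ u) : Cl ![X, Y, 0] := by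
  classical
  have hXn : IsNilpotent X := ⟨_, hX⟩
  have hN0 : 0 < N := by
    rw [← hN]
    positivity
  -- the vectors
  let f : Fin (a + e) ⊕ Fin a × Fin b → (Fin N → k) := Sum.elim (fun i => X ^ (i : ℕ) *ᵥ v)
    (fun p => X ^ (p.1 : ℕ) *ᵥ Y ^ ((p.2 : ℕ) + 1) *ᵥ v)
  have hf1 : ∀ i : ℕ, X ^ i *ᵥ v ∈ Submodule.span k (Set.range f) := by
    intro i
    by_cases hi : i < a + e
    · exact Submodule.subset_span ⟨Sum.inl ⟨i, hi⟩, rfl⟩
    · obtain ⟨j, rfl⟩ : ∃ j, i = a + e + j := ⟨i - (a + e), by omega⟩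
      rw [pow_add, hX, zero_mul, Matrix.zero_mulVec]
      exact zero_mem _
  have hf2 : ∀ i j : ℕ, j < b → X ^ i *ᵥ Y ^ (j + 1) *ᵥ v ∈ Submodule.span k (Set.range f) := by
    intro i j hj
    by_cases hi : i < a
    · exact Submodule.subset_span ⟨Sum.inr (⟨i, hi⟩, ⟨j, hj⟩), rfl⟩
    · obtain ⟨l, rfl⟩ : ∃ l, i = l + a := ⟨i - a, by omega⟩
      rw [pow_add, Matrix.mulVec_mulVec, mul_assoc, pow_succ', ← mul_assoc (X ^ a), hXY, zero_mul,
        mul_zero, Matrix.zero_mulVec]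
      exact zero_mem _
  have hS : ∀ w ∈ Submodule.span k (Set.range f), X *ᵥ w ∈ Submodule.span k (Set.range f) := by
    intro w hw
    induction hw using Submodule.span_induction with
    | mem x hx =>
      obtain ⟨y, rfl⟩ := hx
      rcases y with i | ⟨i, j⟩
      · show X *ᵥ X ^ (i : ℕ) *ᵥ v ∈ _
        rw [Matrix.mulVec_mulVec, ← pow_succ']
        exact hf1 _
      · show X *ᵥ X ^ (i : ℕ) *ᵥ Y ^ ((j : ℕ) + 1) *ᵥ v ∈ _
        rw [mm X, ← pow_succ']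
        exact hf2 _ _ j.2
    | zero => rw [Matrix.mulVec_zero]; exact zero_mem _
    | add x y _ _ hx hy => rw [Matrix.mulVec_add]; exact add_mem hx hy
    | smul c x _ hx => rw [Matrix.mulVec_smul]; exact Submodule.smul_mem _ _ hx
  have hdec : ∀ w, ∃ s ∈ Submodule.span k (Set.range f), ∃ u, w = s + X *ᵥ u := by
    let S' : Submodule k (Fin N → k) :=
      Submodule.span k (Set.range f) ⊔ LinearMap.range X.mulVecLin
    have hr : ∀ u, X *ᵥ u ∈ S' := fun u => Submodule.mem_sup_right ⟨u, rfl⟩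
    have hall := hg S' (Submodule.mem_sup_left (by
      have := hf1 0
      rwa [pow_zero, Matrix.one_mulVec] at this)) (fun w _ => hr w) (fun w hw => by
      obtain ⟨s, hs, z, ⟨u, rfl⟩, rfl⟩ := Submodule.mem_sup.1 hw
      rw [Matrix.mulVec_add]
      refine add_mem ?_ ?_
      · clear hw
        induction hs using Submodule.span_induction with
        | mem x hx =>
          obtain ⟨y, rfl⟩ := hx
          rcases y with i | ⟨i, j⟩
          · show Y *ᵥ X ^ (i : ℕ) *ᵥ v ∈ _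
            have h1 : Y * X ^ (i : ℕ) = X ^ (i : ℕ) * Y :=
              (((show Commute X Y from hc).pow_left _).eq).symm
            rw [Matrix.mulVec_mulVec, h1, ← Matrix.mulVec_mulVec]
            refine Submodule.mem_sup_left ?_
            have h2 := hf2 i 0 (by omega)
            rwa [zero_add, pow_one] at h2
          · show Y *ᵥ X ^ (i : ℕ) *ᵥ Y ^ ((j : ℕ) + 1) *ᵥ v ∈ _
            have h1 : Y * X ^ (i : ℕ) = X ^ (i : ℕ) * Y :=
              (((show Commute X Y from hc).pow_left _).eq).symm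
            rw [mm Y, h1, ← Matrix.mulVec_mulVec, mm Y,
              ← pow_succ']
            by_cases hj : (j : ℕ) + 1 < b
            · exact Submodule.mem_sup_left (hf2 _ _ hj)
            · obtain ⟨u', hu'⟩ := hYb v
              have h3 : (j : ℕ) + 1 + 1 = b + 1 := by have := j.2; omega
              rw [h3, hu', Matrix.mulVec_mulVec, ← pow_succ, pow_succ', ← Matrix.mulVec_mulVec]
              exact hr _
        | zero => rw [Matrix.mulVec_zero]; exact zero_mem _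
        | add x y _ _ hx hy => rw [Matrix.mulVec_add]; exact add_mem hx hy
        | smul c x _ hx => rw [Matrix.mulVec_smul]; exact Submodule.smul_mem _ _ hx
      · rw [Matrix.mulVecLin_apply, Matrix.mulVec_mulVec, ← hc, ← Matrix.mulVec_mulVec]
        exact hr _)
    intro w
    obtain ⟨s, hs, z, ⟨u, rfl⟩, hz⟩ := Submodule.mem_sup.1 (hall w)
    exact ⟨s, hs, u, hz.symm⟩
  have htop := top_of_nak hXn hS hdec
  have hcard : Fintype.card (Fin (a + e) ⊕ Fin a × Fin b) = Module.finrank k (Fin N → k) := by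
    rw [Module.finrank_fin_fun, Fintype.card_sum, Fintype.card_prod, Fintype.card_fin,
      Fintype.card_fin, Fintype.card_fin, ← hN]
    ring
  let B := basisOfTopLeSpanOfCardEqFinrank f htop hcard
  have hB : ∀ x, B x = f x := fun x => by
    rw [show B = basisOfTopLeSpanOfCardEqFinrank f htop hcard from rfl,
      coe_basisOfTopLeSpanOfCardEqFinrank]
  -- the direction
  let κ : Fin (a + e) ⊕ Fin a × Fin b → (Fin N → k) := Sum.elim (fun _ => 0)
    (fun p => if (p.2 : ℕ) + 1 = b then X ^ (p.1 : ℕ) *ᵥ Y *ᵥ v else 0)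
  let K' : Matrix (Fin N) (Fin N) k := LinearMap.toMatrix' (B.constr k κ)
  have hK' : ∀ x, K' *ᵥ f x = κ x := by
    intro x
    rw [← hB, show K' *ᵥ B x = Matrix.toLin' K' (B x) from (Matrix.toLin'_apply _ _).symm,
      Matrix.toLin'_toMatrix', Module.Basis.constr_basis]
  have hK'1 : ∀ i : ℕ, K' *ᵥ X ^ i *ᵥ v = 0 := by
    intro i
    by_cases hi : i < a + e
    · exact hK' (Sum.inl ⟨i, hi⟩)
    · obtain ⟨j, rfl⟩ : ∃ j, i = a + e + j := ⟨i - (a + e), by omega⟩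
      rw [pow_add, hX, zero_mul, Matrix.zero_mulVec, Matrix.mulVec_zero]
  have hXa : ∀ (i : ℕ) (w : Fin N → k), a ≤ i → X ^ i *ᵥ Y *ᵥ w = 0 := by
    intro i w hi
    obtain ⟨l, rfl⟩ : ∃ l, i = l + a := ⟨i - a, by omega⟩
    rw [Matrix.mulVec_mulVec, pow_add, mul_assoc, hXY, mul_zero, Matrix.zero_mulVec]
  have hK'2 : ∀ i j : ℕ, j + 1 < b → K' *ᵥ X ^ i *ᵥ Y ^ (j + 1) *ᵥ v = 0 := by
    intro i j hj
    by_cases hi : i < a
    · refine (hK' (Sum.inr (⟨i, hi⟩, ⟨j, by omega⟩))).trans ?_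
      show (if j + 1 = b then _ else _) = _
      rw [if_neg (by omega)]
    · rw [pow_succ', ← Matrix.mulVec_mulVec, hXa _ _ (by omega), Matrix.mulVec_zero]
  have hK'3 : ∀ i : ℕ, K' *ᵥ X ^ i *ᵥ Y ^ b *ᵥ v = X ^ i *ᵥ Y *ᵥ v := by
    intro i
    obtain ⟨b', rfl⟩ : ∃ b', b = b' + 1 := ⟨b - 1, by omega⟩
    by_cases hi : i < a
    · refine (hK' (Sum.inr (⟨i, hi⟩, ⟨b', by omega⟩))).trans ?_
      show (if b' + 1 = b' + 1 then _ else _) = _
      rw [if_pos rfl]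
    · rw [hXa _ _ (by omega), pow_succ', ← Matrix.mulVec_mulVec, hXa _ _ (by omega),
        Matrix.mulVec_zero]
  have hcK' : X * K' = K' * X := by
    refine mat_ext B fun x => ?_
    rw [hB]
    rcases x with i | ⟨i, j⟩
    · show (X * K') *ᵥ X ^ (i : ℕ) *ᵥ v = (K' * X) *ᵥ X ^ (i : ℕ) *ᵥ v
      rw [← Matrix.mulVec_mulVec, ← Matrix.mulVec_mulVec, hK'1, mm X,
        ← pow_succ', hK'1, Matrix.mulVec_zero]
    · show (X * K') *ᵥ X ^ (i : ℕ) *ᵥ Y ^ ((j : ℕ) + 1) *ᵥ v =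
        (K' * X) *ᵥ X ^ (i : ℕ) *ᵥ Y ^ ((j : ℕ) + 1) *ᵥ v
      rw [← Matrix.mulVec_mulVec, ← Matrix.mulVec_mulVec, mm X (X ^ (i : ℕ)),
        ← pow_succ']
      by_cases hj : (j : ℕ) + 1 < b
      · rw [hK'2 _ _ hj, hK'2 _ _ hj, Matrix.mulVec_zero]
      · have h1 : (j : ℕ) + 1 = b := by have := j.2; omega
        rw [h1, hK'3, hK'3, mm X, ← pow_succ']
  set K : Matrix (Fin N) (Fin N) k := X * K' with hKdef
  have hcK : X * K = K * X := by rw [hKdef, mul_assoc, ← hcK']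
  have hKX : ∀ w, ∃ u, K *ᵥ w = X *ᵥ u := fun w => ⟨K' *ᵥ w, (Matrix.mulVec_mulVec _ _ _).symm⟩
  -- the functionals
  have h0 : 0 < a + e := by omega
  have h1 : 1 < a + e := by omega
  have h0a : 0 < a := by omega
  have h0b : 0 < b := by omega
  let α : (Fin N → k) →ₗ[k] k := B.coord (Sum.inl ⟨0, h0⟩)
  let β : (Fin N → k) →ₗ[k] k := B.coord (Sum.inl ⟨1, h1⟩) +
    B.coord (Sum.inr (⟨0, h0a⟩, ⟨0, h0b⟩))
  obtain ⟨u₀, hu₀⟩ := hYb v
  refine cl_raise hN0 hc hXn hY hcK hKX (E := {s | β u₀ + s = 0}) ?_ ?_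
  · refine (Set.finite_singleton (-β u₀)).subset fun s hs => ?_
    rw [Set.mem_ofPred_eq] at hs
    rw [Set.mem_singleton_iff]
    linear_combination hs
  intro s hs
  rw [Set.mem_ofPred_eq] at hs
  set Z : Matrix (Fin N) (Fin N) k := Y + s • K with hZ
  have hKs : X * (s • K) = s • K * X := by rw [mul_smul_comm, hcK, smul_mul_assoc]
  have hcZ : X * Z = Z * X := by rw [hZ, mul_add, add_mul, hc, hKs]
  have hnZ : IsNilpotent Z := nilp_add hc hXn hY hKs fun w => by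
    obtain ⟨u, hu⟩ := hKX w
    exact ⟨s • u, by rw [Matrix.smul_mulVec, hu, Matrix.mulVec_smul]⟩
  have hZw : ∀ w, Z *ᵥ w = Y *ᵥ w + s • X *ᵥ K' *ᵥ w := by
    intro w
    rw [hZ, Matrix.add_mulVec, Matrix.smul_mulVec, hKdef, Matrix.mulVec_mulVec]
  have hZpow : ∀ j : ℕ, j ≤ b → Z ^ j *ᵥ v = Y ^ j *ᵥ v := by
    intro j
    induction j with
    | zero => intro _; rw [pow_zero, pow_zero]
    | succ j ih =>
      intro hj
      rw [pow_succ', ← Matrix.mulVec_mulVec, ih (by omega), hZw, mm Y,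
        ← pow_succ']
      have h2 : K' *ᵥ Y ^ j *ᵥ v = 0 := by
        rcases j with _ | j
        · have := hK'1 0
          rw [pow_zero, Matrix.one_mulVec] at this
          rw [pow_zero, Matrix.one_mulVec, this]
        · have := hK'2 0 j (by omega)
          rw [pow_zero, Matrix.one_mulVec] at this
          exact this
      rw [h2, Matrix.mulVec_zero, smul_zero, add_zero]
  have hgZ : Gen X Z v := by
    intro S hv hSX hSZ w
    have h2 : (⊤ : Submodule k (Fin N → k)) ≤ S := by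
      refine htop.trans (Submodule.span_le.2 ?_)
      rintro _ ⟨x, rfl⟩
      rcases x with i | ⟨i, j⟩
      · exact pow_mem hSX _ hv
      · refine pow_mem hSX _ ?_
        rw [← hZpow _ (by have := j.2; omega)]
        exact pow_mem hSZ _ hv
    exact h2 trivial
  refine rank_of_rel hcZ hnZ hgZ (α := α u₀) (β := β u₀ + s) (Or.inr hs) ?_
  -- the relation
  have hbase : ∀ i j : ℕ, ∃ u, X ^ i *ᵥ Z ^ j *ᵥ v = Z ^ (i + j) *ᵥ v + (X - Z) *ᵥ u := by
    intro i j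
    obtain ⟨u, hu⟩ := pow_congr' hcZ i (Z ^ j *ᵥ v)
    exact ⟨u, by rw [hu, mm (w := v), ← pow_add]⟩
  have hcoord : ∀ x y, B.coord y (B x) = if x = y then 1 else 0 := by
    intro x y
    rw [Module.Basis.coord_apply, Module.Basis.repr_self, Finsupp.single_apply]
  have hall := functional B (X := X) (Z := Z) (v := v) X α β (fun x => by
    rw [hB]
    have hα : α (f x) = if x = Sum.inl ⟨0, h0⟩ then 1 else 0 := by rw [← hB]; exact hcoord _ _
    have hβ : β (f x) = (if x = Sum.inl ⟨1, h1⟩ then 1 else 0) +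
        (if x = Sum.inr (⟨0, h0a⟩, ⟨0, h0b⟩) then 1 else 0) := by
      rw [← hB]
      show B.coord _ (B x) + B.coord _ (B x) = _
      rw [hcoord, hcoord]
    rw [hα, hβ]
    rcases x with ⟨i, hi⟩ | ⟨⟨i, hi⟩, ⟨j, hj⟩⟩
    · have hfx : X *ᵥ f (Sum.inl ⟨i, hi⟩) = X ^ (i + 1) *ᵥ Z ^ 0 *ᵥ v := by
        show X *ᵥ X ^ i *ᵥ v = _
        rw [Matrix.mulVec_mulVec, ← pow_succ', pow_zero, Matrix.one_mulVec]
      obtain ⟨u, hu⟩ := hbase (i + 1) 0
      rw [hfx, hu, add_zero]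
      rcases i with _ | _ | i
      · refine ⟨u, 0, ?_⟩
        simp
      · refine ⟨u, 0, ?_⟩
        simp
      · refine ⟨u, Z ^ i *ᵥ v, ?_⟩
        have h3 : Z ^ 3 *ᵥ Z ^ i *ᵥ v = Z ^ (i + 1 + 1 + 1) *ᵥ v := by
          rw [Matrix.mulVec_mulVec, ← pow_add]
          congr 2
          ring
        rw [h3]
        have h4 : ¬ (i + 1 + 1 = 0) := by omega
        have h5 : ¬ (i + 1 + 1 = 1) := by omega
        simp only [Sum.inl.injEq, Fin.mk.injEq, reduceCtorEq, if_false, h4, h5, zero_smul, add_zero,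
          zero_add]
        abel
    · have hfx : X *ᵥ f (Sum.inr (⟨i, hi⟩, ⟨j, hj⟩)) = X ^ (i + 1) *ᵥ Z ^ (j + 1) *ᵥ v := by
        show X *ᵥ X ^ i *ᵥ Y ^ (j + 1) *ᵥ v = _
        rw [hZpow (j + 1) (by omega), mm X (X ^ i), ← pow_succ']
      obtain ⟨u, hu⟩ := hbase (i + 1) (j + 1)
      rw [hfx, hu]
      by_cases hij : i = 0 ∧ j = 0
      · obtain ⟨rfl, rfl⟩ := hij
        refine ⟨u, 0, ?_⟩
        simp
      · refine ⟨u, Z ^ (i + j - 1) *ᵥ v, ?_⟩
        have h3 : Z ^ 3 *ᵥ Z ^ (i + j - 1) *ᵥ v = Z ^ (i + 1 + (j + 1)) *ᵥ v := by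
          rw [Matrix.mulVec_mulVec, ← pow_add]
          congr 2
          omega
        rw [h3]
        simp only [Sum.inr.injEq, Prod.mk.injEq, Fin.mk.injEq, reduceCtorEq, if_false]
        rw [if_neg hij]
        simp only [zero_smul, add_zero, zero_add]
        abel)
  obtain ⟨w₁, w₂, hw⟩ := hall u₀
  -- the top power
  have htopZ : Z ^ (b + 1) *ᵥ v = X *ᵥ u₀ + s • X *ᵥ Z *ᵥ v := by
    rw [pow_succ', ← Matrix.mulVec_mulVec, hZpow b le_rfl, hZw, mm Y,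
      ← pow_succ', hu₀]
    have h2 := hK'3 0
    rw [pow_zero, Matrix.one_mulVec, Matrix.one_mulVec] at h2
    have h3 := hZpow 1 (by omega)
    rw [pow_one, pow_one] at h3
    rw [h2, h3]
  obtain ⟨u₁, hu₁⟩ : ∃ u, X *ᵥ Z *ᵥ v = Z ^ 2 *ᵥ v + (X - Z) *ᵥ u := by
    obtain ⟨u₁, hu₁⟩ := hbase 1 1
    rw [pow_one, pow_one] at hu₁
    exact ⟨u₁, hu₁⟩
  refine ⟨-w₁ - s • u₁, Z ^ (b - 2) *ᵥ v - w₂, ?_⟩
  have h3 : Z ^ 3 *ᵥ Z ^ (b - 2) *ᵥ v = Z ^ (b + 1) *ᵥ v := by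
    rw [Matrix.mulVec_mulVec, ← pow_add]
    congr 2
    omega
  rw [Matrix.mulVec_sub, Matrix.mulVec_sub, Matrix.mulVec_neg, Matrix.mulVec_smul, h3, htopZ, hw,
    hu₁, add_smul, smul_add]
  abel

/-- **Theorem D.** `X` of type `(a, a, 1)` -/
theorem cl_D [IsAlgClosed k] [CharZero k] {X Y : Matrix (Fin N) (Fin N) k} {v : Fin N → k}
    {a : ℕ} (ha : 2 ≤ a) (hN : a + a + 1 = N) (hc : X * Y = Y * X)
    (hX : X ^ a = 0) (hY : IsNilpotent Y) (hg : Gen X Y v)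
    (h2 : ∃ u, X *ᵥ Y ^ 2 *ᵥ v = X ^ 2 *ᵥ u)
    (h3 : ∀ w, ∃ u, Y ^ 3 *ᵥ w = X *ᵥ u) : Cl ![X, Y, 0] := by
  classical
  have hXn : IsNilpotent X := ⟨_, hX⟩
  have hN0 : 0 < N := by omega
  obtain ⟨u₀, hu₀⟩ := h2
  set w₀ : Fin N → k := Y ^ 2 *ᵥ v - X *ᵥ u₀ with hw₀
  have hXw₀ : X *ᵥ w₀ = 0 := by
    rw [hw₀, Matrix.mulVec_sub, hu₀, mm X X, pow_two, sub_self]
  -- the vectors
  let f : (Fin a ⊕ Fin a) ⊕ Unit → (Fin N → k) := Sum.elim (Sum.elim (fun i => X ^ (i : ℕ) *ᵥ v)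
    (fun i => X ^ (i : ℕ) *ᵥ Y *ᵥ v)) (fun _ => w₀)
  have hf1 : ∀ i : ℕ, X ^ i *ᵥ v ∈ Submodule.span k (Set.range f) := by
    intro i
    by_cases hi : i < a
    · exact Submodule.subset_span ⟨Sum.inl (Sum.inl ⟨i, hi⟩), rfl⟩
    · obtain ⟨j, rfl⟩ : ∃ j, i = a + j := ⟨i - a, by omega⟩
      rw [pow_add, hX, zero_mul, Matrix.zero_mulVec]
      exact zero_mem _
  have hf2 : ∀ i : ℕ, X ^ i *ᵥ Y *ᵥ v ∈ Submodule.span k (Set.range f) := by
    intro i
    by_cases hi : i < a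
    · exact Submodule.subset_span ⟨Sum.inl (Sum.inr ⟨i, hi⟩), rfl⟩
    · obtain ⟨j, rfl⟩ : ∃ j, i = a + j := ⟨i - a, by omega⟩
      rw [pow_add, hX, zero_mul, Matrix.zero_mulVec]
      exact zero_mem _
  have hf3 : w₀ ∈ Submodule.span k (Set.range f) := Submodule.subset_span ⟨Sum.inr (), rfl⟩
  have hS : ∀ w ∈ Submodule.span k (Set.range f), X *ᵥ w ∈ Submodule.span k (Set.range f) := by
    intro w hw
    induction hw using Submodule.span_induction with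
    | mem x hx =>
      obtain ⟨y, rfl⟩ := hx
      rcases y with (i | i) | _
      · show X *ᵥ X ^ (i : ℕ) *ᵥ v ∈ _
        rw [Matrix.mulVec_mulVec, ← pow_succ']
        exact hf1 _
      · show X *ᵥ X ^ (i : ℕ) *ᵥ Y *ᵥ v ∈ _
        rw [mm X, ← pow_succ']
        exact hf2 _
      · show X *ᵥ w₀ ∈ _
        rw [hXw₀]
        exact zero_mem _
    | zero => rw [Matrix.mulVec_zero]; exact zero_mem _
    | add x y _ _ hx hy => rw [Matrix.mulVec_add]; exact add_mem hx hy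
    | smul c x _ hx => rw [Matrix.mulVec_smul]; exact Submodule.smul_mem _ _ hx
  have hdec : ∀ w, ∃ s ∈ Submodule.span k (Set.range f), ∃ u, w = s + X *ᵥ u := by
    let S' : Submodule k (Fin N → k) :=
      Submodule.span k (Set.range f) ⊔ LinearMap.range X.mulVecLin
    have hr : ∀ u, X *ᵥ u ∈ S' := fun u => Submodule.mem_sup_right ⟨u, rfl⟩
    have hXi : ∀ (i : ℕ) (w : Fin N → k), w ∈ S' → X ^ i *ᵥ w ∈ S' := by
      intro i w hw
      rcases i with _ | i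
      · rw [pow_zero, Matrix.one_mulVec]; exact hw
      · rw [pow_succ', ← Matrix.mulVec_mulVec]; exact hr _
    have hcY : ∀ i : ℕ, Y * X ^ i = X ^ i * Y := fun i =>
      (((show Commute X Y from hc).pow_left _).eq).symm
    have hall := hg S' (Submodule.mem_sup_left (by
      have := hf1 0
      rwa [pow_zero, Matrix.one_mulVec] at this)) (fun w _ => hr w) (fun w hw => by
      obtain ⟨s, hs, z, ⟨u, rfl⟩, rfl⟩ := Submodule.mem_sup.1 hw
      rw [Matrix.mulVec_add]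
      refine add_mem ?_ ?_
      · clear hw
        induction hs using Submodule.span_induction with
        | mem x hx =>
          obtain ⟨y, rfl⟩ := hx
          rcases y with (i | i) | _
          · show Y *ᵥ X ^ (i : ℕ) *ᵥ v ∈ _
            rw [Matrix.mulVec_mulVec, hcY, ← Matrix.mulVec_mulVec]
            exact Submodule.mem_sup_left (hf2 i)
          · show Y *ᵥ X ^ (i : ℕ) *ᵥ Y *ᵥ v ∈ _
            rw [mm Y, hcY, ← Matrix.mulVec_mulVec]
            refine hXi _ _ ?_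
            have h4 : Y *ᵥ Y *ᵥ v = w₀ + X *ᵥ u₀ := by
              rw [hw₀, sub_add_cancel, mm Y Y, pow_two]
            rw [h4]
            exact add_mem (Submodule.mem_sup_left hf3) (hr _)
          · show Y *ᵥ w₀ ∈ _
            obtain ⟨u', hu'⟩ := h3 v
            rw [hw₀, Matrix.mulVec_sub, mm Y, ← pow_succ', hu', mm Y X, ← hc,
              ← Matrix.mulVec_mulVec]
            exact sub_mem (hr _) (hr _)
        | zero => rw [Matrix.mulVec_zero]; exact zero_mem _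
        | add x y _ _ hx hy => rw [Matrix.mulVec_add]; exact add_mem hx hy
        | smul c x _ hx => rw [Matrix.mulVec_smul]; exact Submodule.smul_mem _ _ hx
      · rw [Matrix.mulVecLin_apply, Matrix.mulVec_mulVec, ← hc, ← Matrix.mulVec_mulVec]
        exact hr _)
    intro w
    obtain ⟨s, hs, z, ⟨u, rfl⟩, hz⟩ := Submodule.mem_sup.1 (hall w)
    exact ⟨s, hs, u, hz.symm⟩
  have htop := top_of_nak hXn hS hdec
  have hcard : Fintype.card ((Fin a ⊕ Fin a) ⊕ Unit) = Module.finrank k (Fin N → k) := by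
    rw [Module.finrank_fin_fun, Fintype.card_sum, Fintype.card_sum, Fintype.card_fin,
      Fintype.card_unit, hN]
  let B := basisOfTopLeSpanOfCardEqFinrank f htop hcard
  have hB : ∀ x, B x = f x := fun x => by
    rw [show B = basisOfTopLeSpanOfCardEqFinrank f htop hcard from rfl,
      coe_basisOfTopLeSpanOfCardEqFinrank]
  -- the direction
  let κ : (Fin a ⊕ Fin a) ⊕ Unit → (Fin N → k) := Sum.elim (Sum.elim (fun _ => 0)
    (fun i => X ^ (i : ℕ) *ᵥ v)) (fun _ => 0)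
  let K' : Matrix (Fin N) (Fin N) k := LinearMap.toMatrix' (B.constr k κ)
  have hK' : ∀ x, K' *ᵥ f x = κ x := by
    intro x
    rw [← hB, show K' *ᵥ B x = Matrix.toLin' K' (B x) from (Matrix.toLin'_apply _ _).symm,
      Matrix.toLin'_toMatrix', Module.Basis.constr_basis]
  have hK'1 : ∀ i : ℕ, K' *ᵥ X ^ i *ᵥ v = 0 := by
    intro i
    by_cases hi : i < a
    · exact hK' (Sum.inl (Sum.inl ⟨i, hi⟩))
    · obtain ⟨j, rfl⟩ : ∃ j, i = a + j := ⟨i - a, by omega⟩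
      rw [pow_add, hX, zero_mul, Matrix.zero_mulVec, Matrix.mulVec_zero]
  have hK'2 : ∀ i : ℕ, K' *ᵥ X ^ i *ᵥ Y *ᵥ v = X ^ i *ᵥ v := by
    intro i
    by_cases hi : i < a
    · exact hK' (Sum.inl (Sum.inr ⟨i, hi⟩))
    · obtain ⟨j, rfl⟩ : ∃ j, i = a + j := ⟨i - a, by omega⟩
      rw [pow_add, hX, zero_mul, Matrix.zero_mulVec, Matrix.mulVec_zero, Matrix.zero_mulVec]
  have hK'3 : K' *ᵥ w₀ = 0 := hK' (Sum.inr ())
  have hcK' : X * K' = K' * X := by
    refine mat_ext B fun x => ?_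
    rw [hB]
    rcases x with (i | i) | _
    · show (X * K') *ᵥ X ^ (i : ℕ) *ᵥ v = (K' * X) *ᵥ X ^ (i : ℕ) *ᵥ v
      rw [← Matrix.mulVec_mulVec, ← Matrix.mulVec_mulVec, hK'1, mm X, ← pow_succ', hK'1,
        Matrix.mulVec_zero]
    · show (X * K') *ᵥ X ^ (i : ℕ) *ᵥ Y *ᵥ v = (K' * X) *ᵥ X ^ (i : ℕ) *ᵥ Y *ᵥ v
      rw [← Matrix.mulVec_mulVec, ← Matrix.mulVec_mulVec, hK'2, mm X (X ^ (i : ℕ)),
        mm X (X ^ (i : ℕ)), ← pow_succ', hK'2]
    · show (X * K') *ᵥ w₀ = (K' * X) *ᵥ w₀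
      rw [← Matrix.mulVec_mulVec, ← Matrix.mulVec_mulVec, hK'3, hXw₀, Matrix.mulVec_zero,
        Matrix.mulVec_zero]
  set K : Matrix (Fin N) (Fin N) k := X * K' with hKdef
  have hcK : X * K = K * X := by rw [hKdef, mul_assoc, ← hcK']
  have hKX : ∀ w, ∃ u, K *ᵥ w = X *ᵥ u := fun w => ⟨K' *ᵥ w, (Matrix.mulVec_mulVec _ _ _).symm⟩
  -- the functionals
  have h0 : 0 < a := by omega
  let β : (Fin N → k) →ₗ[k] k := B.coord (Sum.inl (Sum.inl ⟨0, h0⟩))
  refine cl_raise hN0 hc hXn hY hcK hKX (E := {s | β u₀ + s = 0}) ?_ ?_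
  · refine (Set.finite_singleton (-β u₀)).subset fun s hs => ?_
    rw [Set.mem_ofPred_eq] at hs
    rw [Set.mem_singleton_iff]
    linear_combination hs
  intro s hs
  rw [Set.mem_ofPred_eq] at hs
  set Z : Matrix (Fin N) (Fin N) k := Y + s • K with hZ
  have hKs : X * (s • K) = s • K * X := by rw [mul_smul_comm, hcK, smul_mul_assoc]
  have hcZ : X * Z = Z * X := by rw [hZ, mul_add, add_mul, hc, hKs]
  have hnZ : IsNilpotent Z := nilp_add hc hXn hY hKs fun w => by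
    obtain ⟨u, hu⟩ := hKX w
    exact ⟨s • u, by rw [Matrix.smul_mulVec, hu, Matrix.mulVec_smul]⟩
  have hZw : ∀ w, Z *ᵥ w = Y *ᵥ w + s • X *ᵥ K' *ᵥ w := by
    intro w
    rw [hZ, Matrix.add_mulVec, Matrix.smul_mulVec, hKdef, Matrix.mulVec_mulVec]
  have hZ1 : Z *ᵥ v = Y *ᵥ v := by
    have := hK'1 0
    rw [pow_zero, Matrix.one_mulVec] at this
    rw [hZw, this, Matrix.mulVec_zero, smul_zero, add_zero]
  have hZ2 : Z ^ 2 *ᵥ v = w₀ + X *ᵥ u₀ + s • X *ᵥ v := by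
    have := hK'2 0
    rw [pow_zero, Matrix.one_mulVec, Matrix.one_mulVec] at this
    rw [pow_two, ← Matrix.mulVec_mulVec, hZ1, hZw, this, hw₀, sub_add_cancel, mm Y Y, pow_two]
  have hgZ : Gen X Z v := by
    intro S hv hSX hSZ w
    have hYv : Y *ᵥ v ∈ S := by rw [← hZ1]; exact hSZ _ hv
    have hXS : ∀ u, X *ᵥ u ∈ S := by
      intro u
      have h4 : u ∈ Submodule.span k (Set.range f) := htop trivial
      induction h4 using Submodule.span_induction with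
      | mem x hx =>
        obtain ⟨y, rfl⟩ := hx
        rcases y with (i | i) | _
        · show X *ᵥ X ^ (i : ℕ) *ᵥ v ∈ S
          exact hSX _ (pow_mem hSX _ hv)
        · show X *ᵥ X ^ (i : ℕ) *ᵥ Y *ᵥ v ∈ S
          exact hSX _ (pow_mem hSX _ hYv)
        · show X *ᵥ w₀ ∈ S
          rw [hXw₀]
          exact zero_mem _
      | zero => rw [Matrix.mulVec_zero]; exact zero_mem _
      | add x y _ _ hx hy => rw [Matrix.mulVec_add]; exact add_mem hx hy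
      | smul c x _ hx => rw [Matrix.mulVec_smul]; exact Submodule.smul_mem _ _ hx
    have h5 : (⊤ : Submodule k (Fin N → k)) ≤ S := by
      refine htop.trans (Submodule.span_le.2 ?_)
      rintro _ ⟨x, rfl⟩
      rcases x with (i | i) | _
      · exact pow_mem hSX _ hv
      · exact pow_mem hSX _ hYv
      · show w₀ ∈ S
        have h6 : w₀ = Z ^ 2 *ᵥ v - X *ᵥ u₀ - s • X *ᵥ v := by
          rw [hZ2]
          abel
        rw [h6]
        exact sub_mem (sub_mem (pow_mem hSZ 2 hv) (hXS _)) (Submodule.smul_mem _ _ (hXS _))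
    exact h5 trivial
  refine rank_of_rel hcZ hnZ hgZ (α := 0) (β := β u₀ + s) (Or.inr hs) ?_
  -- the relation
  have hbase : ∀ i j : ℕ, ∃ u, X ^ i *ᵥ Z ^ j *ᵥ v = Z ^ (i + j) *ᵥ v + (X - Z) *ᵥ u := by
    intro i j
    obtain ⟨u, hu⟩ := pow_congr' hcZ i (Z ^ j *ᵥ v)
    exact ⟨u, by rw [hu, mm (w := v), ← pow_add]⟩
  have hcoord : ∀ x y, B.coord y (B x) = if x = y then 1 else 0 := by
    intro x y
    rw [Module.Basis.coord_apply, Module.Basis.repr_self, Finsupp.single_apply]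
  have hall := functional B (X := X) (Z := Z) (v := v) (X ^ 2) 0 β (fun x => by
    rw [hB]
    have hβ : β (f x) = if x = Sum.inl (Sum.inl ⟨0, h0⟩) then 1 else 0 := by
      rw [← hB]
      exact hcoord _ _
    rw [hβ]
    rcases x with (⟨i, hi⟩ | ⟨i, hi⟩) | _
    · have hfx : X ^ 2 *ᵥ f (Sum.inl (Sum.inl ⟨i, hi⟩)) = X ^ (i + 2) *ᵥ Z ^ 0 *ᵥ v := by
        show X ^ 2 *ᵥ X ^ i *ᵥ v = _
        rw [Matrix.mulVec_mulVec, ← pow_add, pow_zero, Matrix.one_mulVec, add_comm 2 i]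
      obtain ⟨u, hu⟩ := hbase (i + 2) 0
      rw [hfx, hu, add_zero]
      rcases i with _ | i
      · refine ⟨u, 0, ?_⟩
        simp
      · refine ⟨u, Z ^ i *ᵥ v, ?_⟩
        have h3 : Z ^ 3 *ᵥ Z ^ i *ᵥ v = Z ^ (i + 1 + 2) *ᵥ v := by
          rw [Matrix.mulVec_mulVec, ← pow_add]
          congr 2
          ring
        rw [h3]
        have h4 : ¬ (i + 1 = 0) := by omega
        simp only [Sum.inl.injEq, Fin.mk.injEq, if_false, h4, zero_smul, add_zero,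
          zero_add, LinearMap.zero_apply]
        abel
    · have hfx : X ^ 2 *ᵥ f (Sum.inl (Sum.inr ⟨i, hi⟩)) = X ^ (i + 2) *ᵥ Z ^ 1 *ᵥ v := by
        show X ^ 2 *ᵥ X ^ i *ᵥ Y *ᵥ v = _
        rw [mm (X ^ 2), ← pow_add, pow_one, hZ1, add_comm 2 i]
      obtain ⟨u, hu⟩ := hbase (i + 2) 1
      rw [hfx, hu]
      refine ⟨u, Z ^ i *ᵥ v, ?_⟩
      have h3 : Z ^ 3 *ᵥ Z ^ i *ᵥ v = Z ^ (i + 2 + 1) *ᵥ v := by
        rw [Matrix.mulVec_mulVec, ← pow_add]
        congr 2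
        ring
      rw [h3]
      simp only [Sum.inl.injEq, reduceCtorEq, if_false, zero_smul, add_zero, zero_add,
        LinearMap.zero_apply]
      abel
    · refine ⟨0, 0, ?_⟩
      show X ^ 2 *ᵥ w₀ = _
      rw [pow_two, ← Matrix.mulVec_mulVec, hXw₀]
      simp)
  obtain ⟨w₁, w₂, hw⟩ := hall u₀
  obtain ⟨u₂, hu₂⟩ := hbase 1 2
  obtain ⟨u₃, hu₃⟩ := hbase 2 0
  have h4 : X *ᵥ Z ^ 2 *ᵥ v = X ^ 2 *ᵥ u₀ + s • X ^ 2 *ᵥ v := by
    rw [hZ2, Matrix.mulVec_add, Matrix.mulVec_add, hXw₀, Matrix.mulVec_smul, zero_add, mm X X,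
      mm X X, ← pow_two]
  rw [pow_one] at hu₂
  rw [pow_zero, Matrix.one_mulVec, add_zero] at hu₃
  rw [hu₃, hw, hu₂, LinearMap.zero_apply, zero_smul, zero_add] at h4
  refine ⟨u₂ - w₁ - s • u₃, v - w₂, ?_⟩
  have h5 : Z ^ (1 + 2) *ᵥ v = Z ^ 3 *ᵥ v := rfl
  rw [h5] at h4
  have h6 : Z ^ 3 *ᵥ v = β u₀ • Z ^ 2 *ᵥ v + ((X - Z) *ᵥ w₁ + Z ^ 3 *ᵥ w₂) +
      s • (Z ^ 2 *ᵥ v + (X - Z) *ᵥ u₃) - (X - Z) *ᵥ u₂ := by
    rw [← h4]
    abel
  rw [Matrix.mulVec_sub, Matrix.mulVec_sub, Matrix.mulVec_sub, Matrix.mulVec_smul, h6, zero_smul,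
    zero_add, add_smul, smul_add]
  abel

end Pool.Agent.Lib.D13.Pl
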