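import Pool.Agent.Lib.D13.PlDefs
import Pool.Agent.Lib.P166ae0.JordanBasis

/-!
# MP_5dcbc3_ag: nilpotent matrices with `r` Jordan blocks: the matrices commuting with them as
r x r matrices of polynomials; Jordan bases adapted to a commuting nilpotent matrix
-/

namespace Pool.Agent.Lib.D13.Pl

open Matrix Polynomial Pool.Agent.Lib.Q5dc Pool.Agent.Lib.D7

variable {k : Type*} [Field k] {N r : ℕ}

namespace Blk

/-- `sum_j (z j)(A) (v j)` -/
noncomputable def pi (A : Matrix (Fin N) (Fin N) k) (v : Fin r → Fin N → k) (z : Fin r → k[X]) :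
    Fin N → k :=
  ∑ j, aeval A (z j) *ᵥ v j

/-- `A` has Jordan blocks of sizes `a j`, generated by `v j` -/
structure BlkB (A : Matrix (Fin N) (Fin N) k) (v : Fin r → Fin N → k) (a : Fin r → ℕ) : Prop where
  card : ∑ j, a j = N
  hv : ∀ j, A ^ (a j) *ᵥ v j = 0
  span : ∀ w, ∃ z, w = pi A v z

variable {A : Matrix (Fin N) (Fin N) k} {v : Fin r → Fin N → k} {a : Fin r → ℕ}

theorem pi_add (z z' : Fin r → k[X]) : pi A v (z + z') = pi A v z + pi A v z' := by
  simp only [pi, Pi.add_apply, map_add, Matrix.add_mulVec, Finset.sum_add_distrib]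

theorem pi_smul (p : k[X]) (z : Fin r → k[X]) : pi A v (p • z) = aeval A p *ᵥ pi A v z := by
  simp only [pi, Pi.smul_apply, smul_eq_mul, map_mul, ← Matrix.mulVec_mulVec, Matrix.mulVec_sum]

theorem pi_csmul (t : k) (z : Fin r → k[X]) : pi A v (t • z) = t • pi A v z := by
  simp only [pi, Pi.smul_apply, map_smul, Matrix.smul_mulVec, Finset.smul_sum]

theorem pi_zero : pi A v 0 = 0 := by
  simp [pi]

theorem pi_neg (z : Fin r → k[X]) : pi A v (-z) = -pi A v z := by
  have := pi_csmul (A := A) (v := v) (-1) z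
  rwa [neg_one_smul, neg_one_smul] at this

theorem pi_sub (z z' : Fin r → k[X]) : pi A v (z - z') = pi A v z - pi A v z' := by
  rw [sub_eq_add_neg, pi_add, pi_neg, ← sub_eq_add_neg]

theorem pi_single (j : Fin r) (p : k[X]) : pi A v (Pi.single j p) = aeval A p *ᵥ v j := by
  classical
  unfold pi
  rw [Finset.sum_eq_single_of_mem j (Finset.mem_univ j)]
  · rw [Pi.single_eq_same]
  · intro i _ hi
    rw [Pi.single_eq_of_ne hi, map_zero, Matrix.zero_mulVec]

theorem pi_single_one (j : Fin r) : pi A v (Pi.single j 1) = v j := by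
  rw [pi_single, map_one, Matrix.one_mulVec]

theorem act_of_dvd {e : ℕ} {w : Fin N → k} (hw : A ^ e *ᵥ w = 0) {p : k[X]} (hp : X ^ e ∣ p) :
    aeval A p *ᵥ w = 0 := by
  obtain ⟨q, rfl⟩ := hp
  rw [mul_comm, map_mul, map_pow, aeval_X, ← Matrix.mulVec_mulVec, hw, Matrix.mulVec_zero]

theorem pi_of_dvd (hv : ∀ j, A ^ (a j) *ᵥ v j = 0) {z : Fin r → k[X]} (h : ∀ j, X ^ (a j) ∣ z j) :
    pi A v z = 0 := by
  unfold pi
  exact Finset.sum_eq_zero fun j _ => act_of_dvd (hv j) (h j)

theorem pi_eq_zero (h : BlkB A v a) (z : Fin r → k[X]) :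
    pi A v z = 0 ↔ ∀ j, X ^ (a j) ∣ z j := by
  constructor
  · intro hz
    let f : (∀ j, degreeLT k (a j)) →ₗ[k] (Fin N → k) :=
      { toFun := fun p => pi A v fun j => (p j : k[X])
        map_add' := by
          intro p q
          rw [← pi_add]
          rfl
        map_smul' := by
          intro t p
          rw [RingHom.id_apply, ← pi_csmul]
          rfl }
    have hmod : ∀ z : Fin r → k[X], ∃ p : (∀ j, degreeLT k (a j)),
        ∀ j, X ^ (a j) ∣ z j - (p j : k[X]) := by
      intro z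
      refine ⟨fun j => ⟨z j %ₘ X ^ (a j), ?_⟩, fun j => ?_⟩
      · rw [mem_degreeLT]
        have := degree_modByMonic_lt (z j) (monic_X_pow (R := k) (a j))
        rwa [degree_X_pow] at this
      · refine ⟨z j /ₘ X ^ (a j), ?_⟩
        have := modByMonic_add_div (z j) (X ^ (a j) : k[X])
        show z j - z j %ₘ X ^ (a j) = _
        linear_combination -this
    have hpi : ∀ (z : Fin r → k[X]) (p : ∀ j, degreeLT k (a j)),
        (∀ j, X ^ (a j) ∣ z j - (p j : k[X])) → pi A v z = f p := by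
      intro z p h0
      have h2 : pi A v (z - fun j => (p j : k[X])) = 0 := pi_of_dvd h.hv h0
      rw [pi_sub, sub_eq_zero] at h2
      exact h2
    have hsurj : Function.Surjective f := by
      intro w
      obtain ⟨z, rfl⟩ := h.span w
      obtain ⟨p, h0⟩ := hmod z
      exact ⟨p, (hpi z p h0).symm⟩
    have hfd : ∀ j, Module.finrank k (degreeLT k (a j)) = a j := by
      intro j
      rw [(degreeLTEquiv k (a j)).finrank_eq, Module.finrank_fin_fun]
    have hfin : ∀ j, Module.Finite k (degreeLT k (a j)) := fun j =>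
      Module.Finite.equiv (degreeLTEquiv k (a j)).symm
    have hinj : Function.Injective f := by
      refine (LinearMap.injective_iff_surjective_of_finrank_eq_finrank ?_).2 hsurj
      rw [Module.finrank_pi_fintype, Module.finrank_fin_fun]
      simp only [hfd]
      exact h.card
    obtain ⟨p, h0⟩ := hmod z
    have h2 : f p = 0 := by rw [← hpi z p h0, hz]
    have h3 : p = 0 := hinj (by rw [h2, map_zero])
    intro j
    have h4 := h0 j
    rw [h3] at h4
    simpa using h4
  · exact pi_of_dvd h.hv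

/-- `B` acts as the r x r matrix `P` of polynomials -/
def Rep (A : Matrix (Fin N) (Fin N) k) (v : Fin r → Fin N → k) (B : Matrix (Fin N) (Fin N) k)
    (P : Matrix (Fin r) (Fin r) k[X]) : Prop :=
  ∀ z, B *ᵥ pi A v z = pi A v (P *ᵥ z)

theorem Rep.mul {B C : Matrix (Fin N) (Fin N) k} {P Q : Matrix (Fin r) (Fin r) k[X]}
    (hB : Rep A v B P) (hC : Rep A v C Q) : Rep A v (B * C) (P * Q) := by
  intro z
  rw [← Matrix.mulVec_mulVec, hC z, hB, Matrix.mulVec_mulVec]

theorem Rep.add {B C : Matrix (Fin N) (Fin N) k} {P Q : Matrix (Fin r) (Fin r) k[X]}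
    (hB : Rep A v B P) (hC : Rep A v C Q) : Rep A v (B + C) (P + Q) := by
  intro z
  rw [Matrix.add_mulVec, hC z, hB, Matrix.add_mulVec, pi_add]

theorem Rep.sub {B C : Matrix (Fin N) (Fin N) k} {P Q : Matrix (Fin r) (Fin r) k[X]}
    (hB : Rep A v B P) (hC : Rep A v C Q) : Rep A v (B - C) (P - Q) := by
  intro z
  rw [Matrix.sub_mulVec, hC z, hB, Matrix.sub_mulVec, pi_sub]

theorem Rep.smul {B : Matrix (Fin N) (Fin N) k} {P : Matrix (Fin r) (Fin r) k[X]}
    (hB : Rep A v B P) (t : k) : Rep A v (t • B) (t • P) := by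
  intro z
  rw [Matrix.smul_mulVec, hB, Matrix.smul_mulVec, pi_csmul]

theorem Rep.one : Rep A v 1 1 := by
  intro z
  rw [Matrix.one_mulVec, Matrix.one_mulVec]

theorem Rep.zero : Rep A v 0 0 := by
  intro z
  rw [Matrix.zero_mulVec, Matrix.zero_mulVec, pi_zero]

theorem Rep.pow {B : Matrix (Fin N) (Fin N) k} {P : Matrix (Fin r) (Fin r) k[X]}
    (hB : Rep A v B P) (i : ℕ) : Rep A v (B ^ i) (P ^ i) := by
  induction i with
  | zero => rw [pow_zero, pow_zero]; exact Rep.one
  | succ i ih => rw [pow_succ, pow_succ]; exact ih.mul hB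

/-- polynomials in `A` -/
theorem Rep.aeval (p : k[X]) : Rep A v (aeval A p) (p • (1 : Matrix (Fin r) (Fin r) k[X])) := by
  intro z
  rw [Matrix.smul_mulVec, Matrix.one_mulVec, pi_smul]

theorem Rep.polysmul {B : Matrix (Fin N) (Fin N) k} {P : Matrix (Fin r) (Fin r) k[X]}
    (hB : Rep A v B P) (p : k[X]) : Rep A v (Polynomial.aeval A p * B) (p • P) := by
  have := (Rep.aeval (A := A) (v := v) p).mul hB
  rwa [smul_mul_assoc, one_mul] at this

theorem repA : Rep A v A ((X : k[X]) • (1 : Matrix (Fin r) (Fin r) k[X])) := by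
  have := Rep.aeval (A := A) (v := v) X
  rwa [aeval_X] at this

theorem Rep.apply_v {B : Matrix (Fin N) (Fin N) k} {P : Matrix (Fin r) (Fin r) k[X]}
    (hB : Rep A v B P) (j : Fin r) : B *ᵥ v j = pi A v fun i => P i j := by
  rw [← pi_single_one (A := A) (v := v) j, hB, Matrix.mulVec_single_one]
  rfl

theorem Rep.eq_zero_iff (h : BlkB A v a) {B : Matrix (Fin N) (Fin N) k}
    {P : Matrix (Fin r) (Fin r) k[X]} (hB : Rep A v B P) : B = 0 ↔ ∀ i j, X ^ (a i) ∣ P i j := by
  constructor
  · rintro rfl i j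
    have h0 := hB.apply_v j
    rw [Matrix.zero_mulVec] at h0
    exact (pi_eq_zero h _).1 h0.symm i
  · intro hP
    have h6 : ∀ w, B *ᵥ w = 0 := by
      intro w
      obtain ⟨z, rfl⟩ := h.span w
      rw [hB, pi_eq_zero h]
      intro i
      show X ^ (a i) ∣ ∑ j, P i j * z j
      exact Finset.dvd_sum fun j _ => (hP i j).mul_right _
    have h8 : Matrix.toLin' B = Matrix.toLin' 0 := by
      rw [map_zero]
      exact LinearMap.ext h6
    exact Matrix.toLin'.injective h8

theorem Rep.eq (h : BlkB A v a) {B C : Matrix (Fin N) (Fin N) k}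
    {P : Matrix (Fin r) (Fin r) k[X]} (hB : Rep A v B P) (hC : Rep A v C P) : B = C := by
  rw [← sub_eq_zero, (hB.sub hC).eq_zero_iff h, sub_self]
  exact fun _ _ => dvd_zero _

/-- existence of the matrix -/
theorem exists_of_rep (h : BlkB A v a) (P : Matrix (Fin r) (Fin r) k[X])
    (hP : ∀ i j, X ^ (a i) ∣ P i j * X ^ (a j)) : ∃ B, Rep A v B P := by
  let f : (Fin r → k[X]) →ₗ[k] (Fin N → k) :=
    { toFun := pi A v
      map_add' := pi_add
      map_smul' := pi_csmul }
  have hf : Function.Surjective f := fun w => by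
    obtain ⟨z, hz⟩ := h.span w
    exact ⟨z, hz.symm⟩
  obtain ⟨g, hg⟩ := f.exists_rightInverse_of_surjective (LinearMap.range_eq_top.2 hf)
  let M : (Fin N → k) →ₗ[k] (Fin N → k) :=
    { toFun := fun w => f (P *ᵥ g w)
      map_add' := by
        intro w w'
        rw [map_add, Matrix.mulVec_add, map_add]
      map_smul' := by
        intro t w
        rw [map_smul, RingHom.id_apply, ← map_smul f]
        congr 1
        rw [Matrix.mulVec_smul] }
  refine ⟨LinearMap.toMatrix' M, fun z => ?_⟩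
  have h1 : LinearMap.toMatrix' M *ᵥ pi A v z = M (pi A v z) := by
    rw [← Matrix.toLin'_apply, Matrix.toLin'_toMatrix']
  rw [h1]
  show f (P *ᵥ g (f z)) = f (P *ᵥ z)
  rw [← sub_eq_zero, ← map_sub, ← Matrix.mulVec_sub]
  have h2 : f (g (f z) - z) = 0 := by
    rw [map_sub]
    have : f (g (f z)) = f z := by
      have := LinearMap.congr_fun hg (f z)
      exact this
    rw [this, sub_self]
  set z' := g (f z) - z with hz'
  have h3 : pi A v z' = 0 := h2
  show pi A v (P *ᵥ z') = 0
  rw [pi_eq_zero h] at h3 ⊢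
  intro i
  show X ^ (a i) ∣ ∑ j, P i j * z' j
  refine Finset.dvd_sum fun j _ => ?_
  obtain ⟨q, hq⟩ := h3 j
  rw [hq, ← mul_assoc]
  exact (hP i j).mul_right _

/-- the matrices commuting with `A` -/
theorem rep_of_comm (h : BlkB A v a) {B : Matrix (Fin N) (Fin N) k} (hB : A * B = B * A) :
    ∃ P, Rep A v B P ∧ ∀ i j, X ^ (a i) ∣ P i j * X ^ (a j) := by
  choose z hz using fun j => h.span (B *ᵥ v j)
  have hcomm : ∀ p : k[X], B * Polynomial.aeval A p = Polynomial.aeval A p * B := by
    intro p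
    rw [Polynomial.aeval_eq_sum_range, Finset.mul_sum, Finset.sum_mul]
    refine Finset.sum_congr rfl fun i _ => ?_
    rw [mul_smul_comm, smul_mul_assoc, (Commute.pow_right (show Commute B A from hB.symm) i).eq]
  have hrep : Rep A v B (Matrix.of fun i j => z j i) := by
    intro w
    have e : (Matrix.of fun i j => z j i) *ᵥ w = ∑ j, w j • z j := by
      funext i
      rw [Finset.sum_apply]
      simp only [Matrix.mulVec, dotProduct, Matrix.of_apply, Pi.smul_apply, smul_eq_mul]
      exact Finset.sum_congr rfl fun j _ => mul_comm _ _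
    have e2 : ∀ s : Finset (Fin r), pi A v (∑ j ∈ s, w j • z j) =
        ∑ j ∈ s, Polynomial.aeval A (w j) *ᵥ (B *ᵥ v j) := by
      classical
      intro s
      induction s using Finset.induction_on with
      | empty => rw [Finset.sum_empty, Finset.sum_empty, pi_zero]
      | insert j s hj ih =>
        rw [Finset.sum_insert hj, Finset.sum_insert hj, pi_add, ih, pi_smul, ← hz]
    rw [e, e2]
    unfold pi
    rw [Matrix.mulVec_sum]
    refine Finset.sum_congr rfl fun j _ => ?_
    rw [Matrix.mulVec_mulVec, Matrix.mulVec_mulVec, hcomm]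
  refine ⟨_, hrep, fun i j => ?_⟩
  have h2 : pi A v ((X : k[X]) ^ (a j) • z j) = 0 := by
    rw [pi_smul, ← hz, map_pow, aeval_X, Matrix.mulVec_mulVec]
    have h3 : A ^ (a j) * B = B * A ^ (a j) := (Commute.pow_left (show Commute A B from hB) (a j))
    rw [h3, ← Matrix.mulVec_mulVec, h.hv, Matrix.mulVec_zero]
  have h3 := (pi_eq_zero h _).1 h2 i
  rw [Pi.smul_apply, smul_eq_mul, mul_comm] at h3
  exact h3

theorem comm_A (h : BlkB A v a) {B : Matrix (Fin N) (Fin N) k}
    {P : Matrix (Fin r) (Fin r) k[X]} (hB : Rep A v B P) : A * B = B * A := by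
  refine Rep.eq h (P := (X : k[X]) • P) ?_ ?_
  · have := repA.mul hB
    rwa [smul_mul_assoc, one_mul] at this
  · have := hB.mul repA
    rwa [mul_smul_comm, mul_one] at this

theorem le_N (h : BlkB A v a) (i : Fin r) : a i ≤ N := by
  rw [← h.card]
  exact Finset.single_le_sum (fun j _ => Nat.zero_le _) (Finset.mem_univ i)

theorem nilp (h : BlkB A v a) {B : Matrix (Fin N) (Fin N) k} {e : ℕ}
    {P P' : Matrix (Fin r) (Fin r) k[X]} (hB : Rep A v B P) (hP : P ^ e = (X : k[X]) • P') :
    IsNilpotent B := by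
  refine ⟨e * N, ?_⟩
  have h1 := hB.pow (e * N)
  rw [h1.eq_zero_iff h]
  have h2 : P ^ (e * N) = (X : k[X]) ^ N • P' ^ N := by
    rw [pow_mul, hP, _root_.smul_pow]
  intro i j
  rw [h2]
  show X ^ (a i) ∣ X ^ N * (P' ^ N) i j
  exact (pow_dvd_pow X (le_N h i)).trans (dvd_mul_right _ _)

theorem nilp_A (h : BlkB A v a) : IsNilpotent A :=
  nilp h (e := 1) repA (P' := 1) (pow_one _)

end Blk

end Pool.Agent.Lib.D13.Pl
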