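import Pool.Agent.Lib.D13.PlR
import Pool.Agent.Lib.D13.PlPerm
import Pool.Agent.Lib.D9.CycAx

/-!
# MP_5dcbc3_ag: planar pairs in normal form: the sum of the exponents is the size
-/

namespace Pool.Agent.Lib.D13.Pl

open Matrix Polynomial Pool.Agent.Lib.Q5dc Pool.Agent.Lib.D7

variable {k : Type*} [Field k]

namespace Count

variable {R : Type*} [CommRing R] [Algebra k R]

/-- a chain under multiplication by `y` -/
theorem chain {y u : R} {m : ℕ} (h0 : y ^ m * u ≠ 0) (h1 : y ^ (m + 1) * u = 0) {n : ℕ}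
    (α : Fin n → k) (h : ∑ i, α i • (y ^ (i : ℕ) * u) = 0) : ∀ i : Fin n, (i : ℕ) ≤ m → α i = 0 := by
  have key : ∀ l : ℕ, ∀ i : Fin n, (i : ℕ) = l → (i : ℕ) ≤ m → α i = 0 := by
    intro l
    induction l using Nat.strong_induction_on with
    | _ l ih =>
      intro i hi him
      have h2 := congrArg (fun w => y ^ (m - (i : ℕ)) * w) h
      simp only [mul_zero, Finset.mul_sum, mul_smul_comm] at h2
      rw [Finset.sum_eq_single i] at h2
      · rw [← mul_assoc, ← pow_add, Nat.sub_add_cancel him] at h2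
        exact (smul_eq_zero.1 h2).resolve_right h0
      · intro j _ hj
        rcases lt_or_gt_of_ne (fun h3 : (j : ℕ) = i => hj (Fin.ext h3)) with h3 | h3
        · rw [ih j (by omega) j rfl (by omega), zero_smul]
        · obtain ⟨e, he⟩ : ∃ e, m - (i : ℕ) + j = e + (m + 1) := ⟨m - i + j - (m + 1), by omega⟩
          rw [← mul_assoc, ← pow_add, he, pow_add, mul_assoc, h1, mul_zero, smul_zero]
      · intro h3
        exact absurd (Finset.mem_univ i) h3
  exact fun i hi => key i i rfl hi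

variable {x y : R} {m1 m2 m3 : ℕ} {a b c d : k}

/-- consequences of the relation -/
theorem facts (hf : x * y * (x + y) = 0) (hy : IsNilpotent y)
    (hrel : a • (y ^ (m1 + 1) * (x + y)) + b • (x ^ (m2 + 1) * (x + y)) + c • (x ^ (m3 + 1) * y) +
      d • (y ^ (m1 + 2) * (x + y)) = 0) (ha : a ≠ 0) (hb : b ≠ 0) (hc : c ≠ 0) :
    y ^ (m1 + 3) * (x + y) = 0 ∧ x ^ (m2 + 3) * (x + y) = 0 ∧ x ^ (m3 + 3) * y = 0 ∧
      b • (x ^ (m2 + 2) * (x + y)) + c • (x ^ (m3 + 2) * y) = 0 ∧
      a • (y ^ (m1 + 2) * (x + y)) = c • (x ^ (m3 + 2) * y) := by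
  simp only [Algebra.smul_def] at hrel ⊢
  set α := algebraMap k R with hα
  have hi : ∀ s : k, s ≠ 0 → α s⁻¹ * α s = 1 := by
    intro s hs
    rw [← map_mul, inv_mul_cancel₀ hs, map_one]
  have h1 : α b * (x ^ (m2 + 2) * (x + y)) + α c * (x ^ (m3 + 2) * y) = 0 := by
    linear_combination x * hrel - (α a * y ^ m1 + α d * y ^ (m1 + 1)) * hf
  have h2 : x ^ (m3 + 3) * y = 0 := by
    linear_combination (-α c⁻¹ * y) * h1 + (α c⁻¹ * α b * x ^ (m2 + 1)) * hf
      + (x ^ (m3 + 1)) * hf - (x ^ (m3 + 2) * y ^ 2) * (-1 : R) * hi c hc * 1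
  have h3 : x ^ (m2 + 3) * (x + y) = 0 := by
    linear_combination (α b⁻¹ * x) * h1 - (α b⁻¹ * α c) * h2 - (x ^ (m2 + 3) * (x + y)) * hi b hb
  have h4 : y ^ (m1 + 3) * (x + y) = 0 := by
    set u := y ^ (m1 + 3) * (x + y) with hu
    have h5 : u = (-(α a⁻¹ * α d) * y) * u := by
      rw [hu]
      linear_combination (α a⁻¹ * y ^ 2) * hrel - (α a⁻¹ * α b * x ^ m2 * y) * hf
        - (α a⁻¹ * α c * x ^ m3 * y) * hf + (α a⁻¹ * α c * x ^ (m3 + 1)) * hf
        - (α a⁻¹ * α c) * h2 - (y ^ (m1 + 3) * (x + y)) * hi a ha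
    have h6 : ∀ n : ℕ, u = (-(α a⁻¹ * α d) * y) ^ n * u := by
      intro n
      induction n with
      | zero => rw [pow_zero, one_mul]
      | succ n ih =>
        rw [pow_succ, mul_assoc, ← h5]
        exact ih
    obtain ⟨n, hn⟩ := hy
    rw [h6 n, mul_pow, hn, mul_zero, zero_mul]
  refine ⟨h4, h3, h2, h1, ?_⟩
  linear_combination y * hrel - (α b * x ^ m2) * hf - (α c * x ^ m3) * hf - α d * h4

/-- the index set of the basis -/
abbrev Ix (m1 m2 m3 : ℕ) : Type := Fin 3 ⊕ (Fin (m1 + 2) ⊕ (Fin (m2 + 1) ⊕ Fin m3))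

/-- the basis -/
def w (x y : R) (m1 m2 m3 : ℕ) : Ix m1 m2 m3 → R :=
  Sum.elim ![1, y, x] (Sum.elim (fun i => y ^ (i : ℕ) * (y * (x + y)))
    (Sum.elim (fun i => x ^ (i : ℕ) * (x * (x + y))) fun i => x ^ (i : ℕ) * (x * y)))

theorem span_w (hf : x * y * (x + y) = 0) (hy : IsNilpotent y)
    (hrel : a • (y ^ (m1 + 1) * (x + y)) + b • (x ^ (m2 + 1) * (x + y)) + c • (x ^ (m3 + 1) * y) +
      d • (y ^ (m1 + 2) * (x + y)) = 0) (ha : a ≠ 0) (hb : b ≠ 0) (hc : c ≠ 0) :
    ∀ P ∈ Submodule.span k (Set.range (w x y m1 m2 m3)),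
      x * P ∈ Submodule.span k (Set.range (w x y m1 m2 m3)) ∧
      y * P ∈ Submodule.span k (Set.range (w x y m1 m2 m3)) := by
  obtain ⟨h1, h2, h3, h4, h5⟩ := facts hf hy hrel ha hb hc
  set S := Submodule.span k (Set.range (w x y m1 m2 m3)) with hS
  have g : ∀ i, w x y m1 m2 m3 i ∈ S := fun i => Submodule.subset_span ⟨i, rfl⟩
  have c1 : ∀ i : ℕ, y ^ i * (y * (x + y)) ∈ S := by
    intro i
    by_cases hi : i < m1 + 2
    · exact g (Sum.inr (Sum.inl ⟨i, hi⟩))
    · obtain ⟨e, rfl⟩ : ∃ e, i = e + (m1 + 2) := ⟨i - (m1 + 2), by omega⟩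
      have h6 : y ^ (e + (m1 + 2)) * (y * (x + y)) = 0 := by linear_combination y ^ e * h1
      rw [h6]
      exact zero_mem _
  have hσ : y ^ (m1 + 2) * (x + y) ∈ S := by
    have h6 := c1 (m1 + 1)
    have h7 : y ^ (m1 + 2) * (x + y) = y ^ (m1 + 1) * (y * (x + y)) := by ring
    rwa [← h7] at h6
  have hσ3 : x ^ (m3 + 2) * y ∈ S := by
    have h6 : x ^ (m3 + 2) * y = c⁻¹ • a • (y ^ (m1 + 2) * (x + y)) := by
      rw [h5, smul_smul, inv_mul_cancel₀ hc, one_smul]
    rw [h6]
    exact S.smul_mem _ (S.smul_mem _ hσ)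
  have c2 : ∀ i : ℕ, x ^ i * (x * (x + y)) ∈ S := by
    intro i
    by_cases hi : i < m2 + 1
    · exact g (Sum.inr (Sum.inr (Sum.inl ⟨i, hi⟩)))
    · by_cases hi2 : i = m2 + 1
      · subst hi2
        have h6 : x ^ (m2 + 1) * (x * (x + y)) = -(b⁻¹ • c • (x ^ (m3 + 2) * y)) := by
          have h7 : c • (x ^ (m3 + 2) * y) = -(b • (x ^ (m2 + 2) * (x + y))) :=
            eq_neg_of_add_eq_zero_right h4
          rw [h7, smul_neg, smul_smul, inv_mul_cancel₀ hb, one_smul, neg_neg]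
          ring
        rw [h6]
        exact S.neg_mem (S.smul_mem _ (S.smul_mem _ hσ3))
      · obtain ⟨e, rfl⟩ : ∃ e, i = e + (m2 + 2) := ⟨i - (m2 + 2), by omega⟩
        have h6 : x ^ (e + (m2 + 2)) * (x * (x + y)) = 0 := by linear_combination x ^ e * h2
        rw [h6]
        exact zero_mem _
  have c3 : ∀ i : ℕ, x ^ i * (x * y) ∈ S := by
    intro i
    rcases lt_trichotomy i m3 with hi | hi | hi
    · exact g (Sum.inr (Sum.inr (Sum.inr ⟨i, hi⟩)))
    · subst hi
      have h6 : x ^ i * (x * y) = c⁻¹ • (-(a • (y ^ m1 * (y * (x + y))) +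
          b • (x ^ m2 * (x * (x + y))) + d • (y ^ (m1 + 2) * (x + y)))) := by
        have h7 : c • (x ^ i * (x * y)) = -(a • (y ^ m1 * (y * (x + y))) +
          b • (x ^ m2 * (x * (x + y))) + d • (y ^ (m1 + 2) * (x + y))) := by
          rw [eq_neg_iff_add_eq_zero, ← hrel]
          have e1 : x ^ i * (x * y) = x ^ (i + 1) * y := by ring
          have e2 : y ^ m1 * (y * (x + y)) = y ^ (m1 + 1) * (x + y) := by ring
          have e3 : x ^ m2 * (x * (x + y)) = x ^ (m2 + 1) * (x + y) := by ring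
          rw [e1, e2, e3]
          abel
        rw [← h7, smul_smul, inv_mul_cancel₀ hc, one_smul]
      rw [h6]
      exact S.smul_mem _ (S.neg_mem (S.add_mem (S.add_mem (S.smul_mem _ (c1 _))
        (S.smul_mem _ (c2 _))) (S.smul_mem _ hσ)))
    · by_cases hi2 : i = m3 + 1
      · subst hi2
        have h6 : x ^ (m3 + 1) * (x * y) = x ^ (m3 + 2) * y := by ring
        rw [h6]
        exact hσ3
      · obtain ⟨e, rfl⟩ : ∃ e, i = e + (m3 + 2) := ⟨i - (m3 + 2), by omega⟩
        have h6 : x ^ (e + (m3 + 2)) * (x * y) = 0 := by linear_combination x ^ e * h3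
        rw [h6]
        exact zero_mem _
  intro P hP
  induction hP using Submodule.span_induction with
  | mem P hP =>
    obtain ⟨i, rfl⟩ := hP
    rcases i with i | i | i | i
    · fin_cases i
      · show x * 1 ∈ S ∧ y * 1 ∈ S
        rw [mul_one, mul_one]
        exact ⟨g (Sum.inl 2), g (Sum.inl 1)⟩
      · show x * y ∈ S ∧ y * y ∈ S
        have h6 := c3 0
        have h7 := c1 0
        rw [pow_zero, one_mul] at h6 h7
        refine ⟨h6, ?_⟩
        have h8 : y * y = y * (x + y) - x * y := by ring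
        rw [h8]
        exact S.sub_mem h7 h6
      · show x * x ∈ S ∧ y * x ∈ S
        have h6 := c3 0
        have h7 := c2 0
        rw [pow_zero, one_mul] at h6 h7
        refine ⟨?_, by rw [mul_comm]; exact h6⟩
        have h8 : x * x = x * (x + y) - x * y := by ring
        rw [h8]
        exact S.sub_mem h7 h6
    · show x * (y ^ (i : ℕ) * (y * (x + y))) ∈ S ∧ y * (y ^ (i : ℕ) * (y * (x + y))) ∈ S
      refine ⟨?_, ?_⟩
      · have h6 : x * (y ^ (i : ℕ) * (y * (x + y))) = 0 := by linear_combination y ^ (i : ℕ) * hf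
        rw [h6]
        exact zero_mem _
      · have h6 := c1 (i + 1)
        rwa [pow_succ', mul_assoc] at h6
    · show x * (x ^ (i : ℕ) * (x * (x + y))) ∈ S ∧ y * (x ^ (i : ℕ) * (x * (x + y))) ∈ S
      refine ⟨?_, ?_⟩
      · have h6 := c2 (i + 1)
        rwa [pow_succ', mul_assoc] at h6
      · have h6 : y * (x ^ (i : ℕ) * (x * (x + y))) = 0 := by linear_combination x ^ (i : ℕ) * hf
        rw [h6]
        exact zero_mem _
    · show x * (x ^ (i : ℕ) * (x * y)) ∈ S ∧ y * (x ^ (i : ℕ) * (x * y)) ∈ S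
      have h6 := c3 (i + 1)
      rw [pow_succ', mul_assoc] at h6
      refine ⟨h6, ?_⟩
      have h7 : y * (x ^ (i : ℕ) * (x * y)) = -(x * (x ^ (i : ℕ) * (x * y))) := by
        linear_combination x ^ (i : ℕ) * hf
      rw [h7]
      exact S.neg_mem h6
  | zero => rw [mul_zero, mul_zero]; exact ⟨zero_mem _, zero_mem _⟩
  | add P Q _ _ hP hQ =>
    rw [mul_add, mul_add]
    exact ⟨S.add_mem hP.1 hQ.1, S.add_mem hP.2 hQ.2⟩
  | smul r P _ hP =>
    rw [mul_smul_comm, mul_smul_comm]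
    exact ⟨S.smul_mem _ hP.1, S.smul_mem _ hP.2⟩

theorem indep_w (hf : x * y * (x + y) = 0) (hy : IsNilpotent y)
    (hrel : a • (y ^ (m1 + 1) * (x + y)) + b • (x ^ (m2 + 1) * (x + y)) + c • (x ^ (m3 + 1) * y) +
      d • (y ^ (m1 + 2) * (x + y)) = 0) (ha : a ≠ 0) (hb : b ≠ 0) (hc : c ≠ 0)
    (hσ : y ^ (m1 + 2) * (x + y) ≠ 0) : LinearIndependent k (w x y m1 m2 m3) := by
  obtain ⟨h1, h2, h3, h4, h5⟩ := facts hf hy hrel ha hb hc
  -- the other two forms of the socle element
  have hσ3 : x ^ (m3 + 2) * y ≠ 0 := by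
    intro h6
    rw [h6, smul_zero] at h5
    exact hσ ((smul_eq_zero.1 h5).resolve_left ha)
  have hσ2 : x ^ (m2 + 2) * (x + y) ≠ 0 := by
    intro h6
    rw [h6, smul_zero, zero_add] at h4
    exact hσ3 ((smul_eq_zero.1 h4).resolve_left hc)
  rw [Fintype.linearIndependent_iff]
  intro g hg
  rw [Fintype.sum_sum_type, Fintype.sum_sum_type, Fintype.sum_sum_type, Fin.sum_univ_three] at hg
  simp only [w, Sum.elim_inl, Sum.elim_inr, Matrix.cons_val_zero, Matrix.cons_val_one,
    Matrix.cons_val] at hg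
  set SA := ∑ i : Fin (m1 + 2), g (Sum.inr (Sum.inl i)) • (y ^ (i : ℕ) * (y * (x + y))) with hSA
  set SB := ∑ i : Fin (m2 + 1), g (Sum.inr (Sum.inr (Sum.inl i))) •
    (x ^ (i : ℕ) * (x * (x + y))) with hSB
  set SC := ∑ i : Fin m3, g (Sum.inr (Sum.inr (Sum.inr i))) • (x ^ (i : ℕ) * (x * y)) with hSC
  -- multiplication of the sums
  have kA : ∀ r : R, (∀ i : ℕ, r * (y ^ i * (y * (x + y))) = 0) → r * SA = 0 := by
    intro r hr
    rw [hSA, Finset.mul_sum]
    refine Finset.sum_eq_zero fun i _ => ?_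
    rw [mul_smul_comm, hr, smul_zero]
  have kB : ∀ r : R, (∀ i : ℕ, r * (x ^ i * (x * (x + y))) = 0) → r * SB = 0 := by
    intro r hr
    rw [hSB, Finset.mul_sum]
    refine Finset.sum_eq_zero fun i _ => ?_
    rw [mul_smul_comm, hr, smul_zero]
  have kC : ∀ r : R, (∀ i : ℕ, r * (x ^ i * (x * y)) = 0) → r * SC = 0 := by
    intro r hr
    rw [hSC, Finset.mul_sum]
    refine Finset.sum_eq_zero fun i _ => ?_
    rw [mul_smul_comm, hr, smul_zero]
  set α := algebraMap k R with hα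
  have hG : α (g (Sum.inl 0)) + α (g (Sum.inl 1)) * y + α (g (Sum.inl 2)) * x + SA + SB + SC = 0 := by
    rw [← hg, Algebra.smul_def, Algebra.smul_def, Algebra.smul_def]
    ring
  clear hg
  have e0 : g (Sum.inl 0) = 0 := by
    have h6 : g (Sum.inl 0) • (y ^ (m1 + 2) * (x + y)) = 0 := by
      rw [Algebra.smul_def]
      linear_combination (y ^ (m1 + 2) * (x + y)) * hG - α (g (Sum.inl 1)) * h1
        - α (g (Sum.inl 2)) * y ^ (m1 + 1) * hf
        - kA (y ^ (m1 + 2) * (x + y)) (fun i => by linear_combination (y ^ i * (x + y)) * h1)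
        - kB (y ^ (m1 + 2) * (x + y)) (fun i => by
            linear_combination (y ^ (m1 + 1) * x ^ i * (x + y)) * hf)
        - kC (y ^ (m1 + 2) * (x + y)) (fun i => by linear_combination (y ^ (m1 + 2) * x ^ i) * hf)
    exact (smul_eq_zero.1 h6).resolve_right hσ
  rw [e0, map_zero, zero_add] at hG
  have e1 : g (Sum.inl 1) = 0 := by
    have h6 : g (Sum.inl 1) • (y ^ (m1 + 2) * (x + y)) = 0 := by
      rw [Algebra.smul_def]
      linear_combination (y ^ (m1 + 1) * (x + y)) * hG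
        - α (g (Sum.inl 2)) * y ^ m1 * hf
        - kA (y ^ (m1 + 1) * (x + y)) (fun i => by
            linear_combination (y ^ (m1 + 1) * y ^ i) * hf + y ^ i * h1)
        - kB (y ^ (m1 + 1) * (x + y)) (fun i => by
            linear_combination (y ^ m1 * x ^ i * (x + y)) * hf)
        - kC (y ^ (m1 + 1) * (x + y)) (fun i => by linear_combination (y ^ (m1 + 1) * x ^ i) * hf)
    exact (smul_eq_zero.1 h6).resolve_right hσ
  rw [e1, map_zero, zero_mul, zero_add] at hG
  have e2 : g (Sum.inl 2) = 0 := by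
    have h6 : g (Sum.inl 2) • (x ^ (m2 + 2) * (x + y)) = 0 := by
      rw [Algebra.smul_def]
      linear_combination (x ^ (m2 + 1) * (x + y)) * hG
        - kA (x ^ (m2 + 1) * (x + y)) (fun i => by
            linear_combination (x ^ m2 * y ^ i * (x + y)) * hf)
        - kB (x ^ (m2 + 1) * (x + y)) (fun i => by
            linear_combination (x ^ (m2 + 1) * x ^ i) * hf + x ^ i * h2)
        - kC (x ^ (m2 + 1) * (x + y)) (fun i => by
            linear_combination (x ^ (m2 + 1) * x ^ i) * hf)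
    exact (smul_eq_zero.1 h6).resolve_right hσ2
  rw [e2, map_zero, zero_mul, zero_add] at hG
  -- the three chains
  have fA : ∀ i : Fin (m1 + 2), (i : ℕ) < m1 → g (Sum.inr (Sum.inl i)) = 0 := by
    intro i hi
    obtain ⟨m, rfl⟩ : ∃ m, m1 = m + 1 := ⟨m1 - 1, by omega⟩
    refine chain (y := y) (u := y ^ 3 * (x + y)) (m := m) ?_ ?_
      (fun i => g (Sum.inr (Sum.inl i))) ?_ i (by omega)
    · rw [← mul_assoc, ← pow_add]
      exact hσ
    · rw [← mul_assoc, ← pow_add]
      exact h1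
    · have h6 : (y * (x + y)) * SA = 0 := by
        linear_combination (y * (x + y)) * hG
          - kB (y * (x + y)) (fun i => by linear_combination (x ^ i * (x + y)) * hf)
          - kC (y * (x + y)) (fun i => by linear_combination (x ^ i * y) * hf)
      rw [hSA, Finset.mul_sum] at h6
      rw [← h6]
      refine Finset.sum_congr rfl fun j _ => ?_
      rw [mul_smul_comm]
      congr 1
      linear_combination (-(y ^ (j : ℕ) * y)) * hf
  have fB : ∀ i : Fin (m2 + 1), (i : ℕ) < m2 → g (Sum.inr (Sum.inr (Sum.inl i))) = 0 := by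
    intro i hi
    obtain ⟨m, rfl⟩ : ∃ m, m2 = m + 1 := ⟨m2 - 1, by omega⟩
    refine chain (y := x) (u := x ^ 3 * (x + y)) (m := m) ?_ ?_
      (fun i => g (Sum.inr (Sum.inr (Sum.inl i)))) ?_ i (by omega)
    · rw [← mul_assoc, ← pow_add]
      exact hσ2
    · rw [← mul_assoc, ← pow_add]
      exact h2
    · have h6 : (x * (x + y)) * SB = 0 := by
        linear_combination (x * (x + y)) * hG
          - kA (x * (x + y)) (fun i => by linear_combination (y ^ i * (x + y)) * hf)
          - kC (x * (x + y)) (fun i => by linear_combination (x ^ i * x) * hf)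
      rw [hSB, Finset.mul_sum] at h6
      rw [← h6]
      refine Finset.sum_congr rfl fun j _ => ?_
      rw [mul_smul_comm]
      congr 1
      linear_combination (-(x ^ (j : ℕ) * x)) * hf
  have fC : ∀ i : Fin m3, g (Sum.inr (Sum.inr (Sum.inr i))) = 0 := by
    intro i
    obtain ⟨m, rfl⟩ : ∃ m, m3 = m + 1 := ⟨m3 - 1, by have := i.2; omega⟩
    refine chain (y := x) (u := x ^ 3 * y) (m := m) ?_ ?_
      (fun i => g (Sum.inr (Sum.inr (Sum.inr i)))) ?_ i (by have := i.2; omega)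
    · rw [← mul_assoc, ← pow_add]
      exact hσ3
    · rw [← mul_assoc, ← pow_add]
      exact h3
    · have h6 : (x * y) * SC = 0 := by
        linear_combination (x * y) * hG
          - kA (x * y) (fun i => by linear_combination (y ^ i * y) * hf)
          - kB (x * y) (fun i => by linear_combination (x ^ i * x) * hf)
      rw [hSC, Finset.mul_sum] at h6
      rw [← neg_eq_zero, ← h6, ← Finset.sum_neg_distrib]
      refine Finset.sum_congr rfl fun j _ => ?_
      rw [mul_smul_comm, ← smul_neg]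
      congr 1
      linear_combination (-(x ^ (j : ℕ) * x)) * hf
  have sC : SC = 0 := by
    rw [hSC]
    exact Finset.sum_eq_zero fun i _ => by rw [fC i, zero_smul]
  have sB : SB = g (Sum.inr (Sum.inr (Sum.inl (Fin.last m2)))) • (x ^ m2 * (x * (x + y))) := by
    rw [hSB, Fin.sum_univ_castSucc, Finset.sum_eq_zero (fun i _ => by
      rw [fB _ (by rw [Fin.val_castSucc]; exact i.2), zero_smul]), zero_add, Fin.val_last]
  have sA : SA = g (Sum.inr (Sum.inl (Fin.last m1).castSucc)) • (y ^ m1 * (y * (x + y))) +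
      g (Sum.inr (Sum.inl (Fin.last (m1 + 1)))) • (y ^ (m1 + 1) * (y * (x + y))) := by
    rw [hSA, Fin.sum_univ_castSucc, Fin.sum_univ_castSucc, Finset.sum_eq_zero (fun i _ => by
      rw [fA _ (by rw [Fin.val_castSucc, Fin.val_castSucc]; exact i.2), zero_smul]), zero_add,
      Fin.val_castSucc, Fin.val_last, Fin.val_last]
  rw [sC, sB, sA, add_zero, Algebra.smul_def, Algebra.smul_def, Algebra.smul_def] at hG
  have eA : g (Sum.inr (Sum.inl (Fin.last m1).castSucc)) = 0 := by
    have h6 : g (Sum.inr (Sum.inl (Fin.last m1).castSucc)) • (y ^ (m1 + 2) * (x + y)) = 0 := by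
      rw [Algebra.smul_def]
      linear_combination y * hG - α (g (Sum.inr (Sum.inl (Fin.last (m1 + 1))))) * h1
        - α (g (Sum.inr (Sum.inr (Sum.inl (Fin.last m2))))) * x ^ m2 * hf
    exact (smul_eq_zero.1 h6).resolve_right hσ
  rw [eA, map_zero, zero_mul, zero_add] at hG
  have eB : g (Sum.inr (Sum.inr (Sum.inl (Fin.last m2)))) = 0 := by
    have h6 : g (Sum.inr (Sum.inr (Sum.inl (Fin.last m2)))) • (x ^ (m2 + 2) * (x + y)) = 0 := by
      rw [Algebra.smul_def]
      linear_combination x * hG - α (g (Sum.inr (Sum.inl (Fin.last (m1 + 1))))) * y ^ (m1 + 1) * hf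
    exact (smul_eq_zero.1 h6).resolve_right hσ2
  rw [eB, map_zero, zero_mul, add_zero] at hG
  have eD : g (Sum.inr (Sum.inl (Fin.last (m1 + 1)))) = 0 := by
    have h6 : g (Sum.inr (Sum.inl (Fin.last (m1 + 1)))) • (y ^ (m1 + 2) * (x + y)) = 0 := by
      rw [Algebra.smul_def]
      linear_combination hG
    exact (smul_eq_zero.1 h6).resolve_right hσ
  rintro (i | i | i | i)
  · fin_cases i
    · exact e0
    · exact e1
    · exact e2
  · rcases lt_trichotomy (i : ℕ) m1 with h6 | h6 | h6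
    · exact fA i h6
    · have h7 : i = (Fin.last m1).castSucc := Fin.ext (by rw [Fin.val_castSucc, Fin.val_last, h6])
      rw [h7]
      exact eA
    · have h7 : i = Fin.last (m1 + 1) := Fin.ext (by have := i.2; rw [Fin.val_last]; omega)
      rw [h7]
      exact eD
  · rcases lt_or_ge (i : ℕ) m2 with h6 | h6
    · exact fB i h6
    · have h7 : i = Fin.last m2 := Fin.ext (by have := i.2; rw [Fin.val_last]; omega)
      rw [h7]
      exact eB
  · exact fC i

end Count

/-- the size is the sum of the exponents -/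
theorem card_eq {N : ℕ} {X Y : Matrix (Fin N) (Fin N) k} {v : Fin N → k} {p1 p2 p3 : ℕ}
    {a b c d : k} (hc : X * Y = Y * X) (hf : X * Y * (X + Y) = 0) (hX : IsNilpotent X)
    (hY : IsNilpotent Y) (hg : Gen X Y v) (h1 : 2 ≤ p1) (h2 : 2 ≤ p2) (h3 : 2 ≤ p3)
    (hrel : a • (Y ^ (p1 - 1) * (X + Y)) + b • (X ^ (p2 - 1) * (X + Y)) + c • (X ^ (p3 - 1) * Y) +
      d • (Y ^ p1 * (X + Y)) = 0) (ha : a ≠ 0) (hb : b ≠ 0) (hc' : c ≠ 0)
    (hσ : Y ^ p1 * (X + Y) ≠ 0) : p1 + p2 + p3 = N := by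
  obtain ⟨m1, rfl⟩ : ∃ m, p1 = m + 2 := ⟨p1 - 2, by omega⟩
  obtain ⟨m2, rfl⟩ : ∃ m, p2 = m + 2 := ⟨p2 - 2, by omega⟩
  obtain ⟨m3, rfl⟩ : ∃ m, p3 = m + 2 := ⟨p3 - 2, by omega⟩
  obtain ⟨R, _, _, ρ, x, y, z, hρ, rfl, rfl, -⟩ := D9.exists_ring (cn_of hc hX hY)
  have hf' : x * y * (x + y) = 0 := by
    apply hρ
    rw [map_mul, map_mul, map_add, map_zero]
    exact hf
  have hy : IsNilpotent y := by
    obtain ⟨n, hn⟩ := hY
    exact ⟨n, hρ (by rw [map_pow, hn, map_zero])⟩
  have hrel' : a • (y ^ (m1 + 1) * (x + y)) + b • (x ^ (m2 + 1) * (x + y)) +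
      c • (x ^ (m3 + 1) * y) + d • (y ^ (m1 + 2) * (x + y)) = 0 := by
    apply hρ
    simp only [map_add, map_smul, map_mul, map_pow, map_zero]
    exact hrel
  have hσ' : y ^ (m1 + 2) * (x + y) ≠ 0 := by
    intro h
    apply hσ
    have := congrArg ρ h
    rwa [map_mul, map_pow, map_add, map_zero] at this
  have hind := Count.indep_w hf' hy hrel' ha hb hc' hσ'
  have hspan := Count.span_w hf' hy hrel' ha hb hc'
  -- the evaluation at `v`
  let T : R →ₗ[k] (Fin N → k) :=
    { toFun := fun P => ρ P *ᵥ v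
      map_add' := fun P Q => by rw [map_add, Matrix.add_mulVec]
      map_smul' := fun r P => by rw [map_smul, Matrix.smul_mulVec, RingHom.id_apply] }
  have hT : ∀ P, T P = ρ P *ᵥ v := fun P => rfl
  have hTinj : Function.Injective T := by
    rw [injective_iff_map_eq_zero]
    intro P hP
    apply hρ
    rw [map_zero]
    rw [hT] at hP
    have h4 := hg (LinearMap.ker (ρ P).mulVecLin) (by rw [LinearMap.mem_ker]; exact hP)
      (fun u hu => by
        rw [LinearMap.mem_ker, Matrix.mulVecLin_apply] at hu ⊢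
        rw [Matrix.mulVec_mulVec, ← map_mul, mul_comm P x, map_mul, ← Matrix.mulVec_mulVec, hu,
          Matrix.mulVec_zero])
      (fun u hu => by
        rw [LinearMap.mem_ker, Matrix.mulVecLin_apply] at hu ⊢
        rw [Matrix.mulVec_mulVec, ← map_mul, mul_comm P y, map_mul, ← Matrix.mulVec_mulVec, hu,
          Matrix.mulVec_zero])
    ext i j
    have h5 := h4 (Pi.single j 1)
    rw [LinearMap.mem_ker, Matrix.mulVecLin_apply, Matrix.mulVec_single_one] at h5
    exact congrFun h5 i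
  have hi2 : LinearIndependent k (T ∘ Count.w x y m1 m2 m3) :=
    hind.map' T (LinearMap.ker_eq_bot.2 hTinj)
  have hs2 : ⊤ ≤ Submodule.span k (Set.range (T ∘ Count.w x y m1 m2 m3)) := by
    rw [Set.range_comp, Submodule.span_image]
    intro u _
    refine hg _ ?_ ?_ ?_ u
    · refine ⟨1, ?_, ?_⟩
      · exact Submodule.subset_span ⟨Sum.inl 0, rfl⟩
      · rw [hT, map_one, Matrix.one_mulVec]
    · rintro _ ⟨P, hP, rfl⟩
      refine ⟨x * P, (hspan P hP).1, ?_⟩
      rw [hT, hT, map_mul, Matrix.mulVec_mulVec]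
    · rintro _ ⟨P, hP, rfl⟩
      refine ⟨y * P, (hspan P hP).2, ?_⟩
      rw [hT, hT, map_mul, Matrix.mulVec_mulVec]
  have hb2 := Module.finrank_eq_card_basis (Module.Basis.mk hi2 hs2)
  rw [Module.finrank_fin_fun] at hb2
  rw [hb2]
  simp only [Count.Ix, Fintype.card_sum, Fintype.card_fin]
  omega

end Pool.Agent.Lib.D13.Pl
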