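import Pool.Agent.Lib.D13.PlQuad
import Pool.Agent.Lib.D13.PlCount
import Pool.Agent.Lib.D13.PlAsm

/-!
# MP_5dcbc3_ag: planar pairs with three lines: normal form
-/

namespace Pool.Agent.Lib.D13.Pl

open Matrix Polynomial Pool.Agent.Lib.Q5dc Pool.Agent.Lib.D7

variable {k : Type*} [Field k] {N : ℕ}

theorem socle_zero {X Y : Matrix (Fin N) (Fin N) k} {ψ w : Fin N → k} (h : CoCyc X Y ψ)
    (hX : X *ᵥ w = 0) (hY : Y *ᵥ w = 0) (hψ : ψ ⬝ᵥ w = 0) : w = 0 := by
  have h1 : ∀ φ : Fin N → k, φ ⬝ᵥ w = 0 := by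
    intro φ
    have h2 : φ ∈ Submodule.span k (Set.range fun p : ℕ × ℕ => ψ ᵥ* (X ^ p.1 * Y ^ p.2)) := by
      rw [show Submodule.span k (Set.range fun p : ℕ × ℕ => ψ ᵥ* (X ^ p.1 * Y ^ p.2)) = ⊤ from h]
      trivial
    induction h2 using Submodule.span_induction with
    | mem φ hφ =>
      obtain ⟨⟨i, j⟩, rfl⟩ := hφ
      show (ψ ᵥ* (X ^ i * Y ^ j)) ⬝ᵥ w = 0
      rw [← Matrix.dotProduct_mulVec, ← Matrix.mulVec_mulVec]
      rcases j with _ | j
      · rw [pow_zero, Matrix.one_mulVec]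
        rcases i with _ | i
        · rw [pow_zero, Matrix.one_mulVec, hψ]
        · rw [pow_succ, ← Matrix.mulVec_mulVec, hX, Matrix.mulVec_zero, dotProduct_zero]
      · rw [pow_succ, ← Matrix.mulVec_mulVec, hY, Matrix.mulVec_zero, Matrix.mulVec_zero,
          dotProduct_zero]
    | zero => exact zero_dotProduct w
    | add a b _ _ ha hb => rw [add_dotProduct, ha, hb, add_zero]
    | smul r a _ ha => rw [smul_dotProduct, ha, smul_zero]
  funext i
  have h2 := h1 (Pi.single i 1)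
  rwa [single_one_dotProduct] at h2

namespace Class

variable {R : Type*} [CommRing R] [Algebra k R] {x y : R}

/-- elements of order at least three -/
def Q3 (x y P : R) : Prop :=
  ∃ P0 P1 P2 P3, P = x ^ 3 * P0 + x ^ 2 * y * P1 + x * y ^ 2 * P2 + y ^ 3 * P3

theorem Q3.add {P Q : R} (hP : Q3 x y P) (hQ : Q3 x y Q) : Q3 x y (P + Q) := by
  obtain ⟨P0, P1, P2, P3, rfl⟩ := hP
  obtain ⟨Q0, Q1, Q2, Q3, rfl⟩ := hQ
  exact ⟨P0 + Q0, P1 + Q1, P2 + Q2, P3 + Q3, by ring⟩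

theorem Q3.smul {P : R} (hP : Q3 x y P) (r : k) : Q3 x y (r • P) := by
  obtain ⟨P0, P1, P2, P3, rfl⟩ := hP
  refine ⟨r • P0, r • P1, r • P2, r • P3, ?_⟩
  simp only [Algebra.smul_def]
  ring

theorem Q3.zero : Q3 x y (0 : R) := ⟨0, 0, 0, 0, by ring⟩

theorem Q3.yz {n : ℕ} (hn : 2 ≤ n) : Q3 x y (y ^ n * (x + y)) := by
  obtain ⟨m, rfl⟩ : ∃ m, n = m + 2 := ⟨n - 2, by omega⟩
  exact ⟨0, 0, y ^ m, y ^ m, by ring⟩

theorem Q3.xz {n : ℕ} (hn : 2 ≤ n) : Q3 x y (x ^ n * (x + y)) := by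
  obtain ⟨m, rfl⟩ : ∃ m, n = m + 2 := ⟨n - 2, by omega⟩
  exact ⟨x ^ m, x ^ m, 0, 0, by ring⟩

theorem Q3.xy {n : ℕ} (hn : 2 ≤ n) : Q3 x y (x ^ n * y) := by
  obtain ⟨m, rfl⟩ : ∃ m, n = m + 2 := ⟨n - 2, by omega⟩
  exact ⟨0, x ^ m, 0, 0, by ring⟩

theorem left_of_quad [CharZero k] (ρ : R →ₐ[k] Matrix (Fin N) (Fin N) k) {v : Fin N → k}
    (hX : IsNilpotent (ρ x)) (hY : IsNilpotent (ρ y)) (hg : Gen (ρ x) (ρ y) v) {q0 q1 q2 : k}
    (hq : q0 ≠ 0 ∨ q1 ≠ 0 ∨ q2 ≠ 0) {P : R} (hP : Q3 x y P)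
    (hr : q0 • x ^ 2 + q1 • (x * y) + q2 • y ^ 2 = P) :
    ∃ M ∈ adj ![ρ x, ρ y, 0], N ≤ M.rank + 2 := by
  obtain ⟨P0, P1, P2, P3, rfl⟩ := hP
  refine quad_corank (v := v) ?_ hX hY hg hq
    ⟨ρ P0 *ᵥ v, ρ P1 *ᵥ v, ρ P2 *ᵥ v, ρ P3 *ᵥ v, ?_⟩
  · rw [← map_mul, mul_comm, map_mul]
  · have h := congrArg (fun Q => ρ Q *ᵥ v) hr
    simp only [map_add, map_smul, map_mul, map_pow, Matrix.add_mulVec] at h
    simp only [Matrix.mulVec_mulVec, Matrix.add_mulVec]
    exact h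

/-- the largest exponent -/
theorem exists_max {y u : R} (hy : IsNilpotent y) (h : y * u ≠ 0) :
    ∃ p, 1 ≤ p ∧ y ^ p * u ≠ 0 ∧ y ^ (p + 1) * u = 0 := by
  classical
  have hex : ∃ n, y ^ n * u = 0 := by
    obtain ⟨n, hn⟩ := hy
    exact ⟨n, by rw [hn, zero_mul]⟩
  have h1 := Nat.find_spec hex
  set n := Nat.find hex with hn
  have h2 : 2 ≤ n := by
    by_contra hcon
    apply h
    have h3 : n = 0 ∨ n = 1 := by omega
    rcases h3 with h3 | h3
    · rw [h3, pow_zero, one_mul] at h1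
      rw [h1, mul_zero]
    · rw [h3, pow_one] at h1
      exact h1
  refine ⟨n - 1, by omega, ?_, ?_⟩
  · exact Nat.find_min hex (by omega)
  · rw [Nat.sub_add_cancel (by omega)]
    exact h1

theorem exp1 (e y : R) (m : ℕ) : ∃ r, (1 + e * y) ^ m = 1 + m * e * y + y ^ 2 * r := by
  induction m with
  | zero => exact ⟨0, by simp⟩
  | succ m ih =>
    obtain ⟨r, hr⟩ := ih
    refine ⟨m * e ^ 2 + r * (1 + e * y), ?_⟩
    rw [pow_succ, hr]
    push_cast
    ring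

/-- powers multiplied by an element on which the factor acts in a simple way -/
theorem pow_act {u t s : R} (h : u * t = u * s) (n : ℕ) : u * t ^ n = u * s ^ n := by
  induction n with
  | zero => rw [pow_zero, pow_zero]
  | succ n ih => rw [pow_succ', ← mul_assoc, h, mul_assoc, mul_comm s, ← mul_assoc, ih, mul_assoc,
      ← pow_succ]

/-- the three terms after the change of coordinates -/
theorem term {u t t' e w : R} (h : w * u * t = w * u * (1 + e * w))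
    (h' : w * u * t' = w * u * (1 + e * w)) {n : ℕ} (hz : w ^ (n + 3) * u = 0) :
    (w * t) ^ (n + 1) * (u * t') = w ^ (n + 1) * u + (n + 2 : ℕ) * e * (w ^ (n + 2) * u) := by
  obtain ⟨r, hr⟩ := exp1 e w (n + 2)
  have h1 := pow_act h (n + 1)
  have h2 : w * u * (t ^ (n + 1) * t') = w * u * (1 + e * w) ^ (n + 2) := by
    rw [pow_succ (1 + e * w) (n + 1), ← mul_assoc, ← mul_assoc, ← h1]
    linear_combination t ^ (n + 1) * h'
  rw [hr] at h2
  rw [mul_pow]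
  linear_combination w ^ n * h2 + r * hz

/-- splitting of the terms of order two -/
theorem split1 (y u : R) (n : ℕ) (h : ∀ m, 2 ≤ m → Q3 x y (y ^ m * u)) :
    ∃ Q, Q3 x y Q ∧ y ^ (n + 1) * u = (if n = 0 then (1 : k) else 0) • (y * u) + Q := by
  by_cases hn : n = 0
  · subst hn
    exact ⟨0, Q3.zero, by simp⟩
  · exact ⟨_, h (n + 1) (by omega), by simp [hn]⟩

theorem split2 (x y u : R) (n : ℕ) (h : ∀ m, 2 ≤ m → Q3 x y (x ^ m * u)) :
    ∃ Q, Q3 x y Q ∧ x ^ (n + 1) * u = (if n = 0 then (1 : k) else 0) • (x * u) + Q := by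
  by_cases hn : n = 0
  · subst hn
    exact ⟨0, Q3.zero, by simp⟩
  · exact ⟨_, h (n + 1) (by omega), by simp [hn]⟩

end Class

theorem mem_of_mod {X Y X' Y' : Matrix (Fin N) (Fin N) k} (hT : CN ![X, Y, 0])
    (mX : X' ∈ adj ![X, Y, 0]) (mY : Y' ∈ adj ![X, Y, 0])
    (h1 : X - X' ∈ Submodule.span k {M : Matrix (Fin N) (Fin N) k |
        ∃ P ∈ adj ![X, Y, 0], ∃ Q ∈ adj ![X, Y, 0], M = P * Q})
    (h2 : Y - Y' ∈ Submodule.span k {M : Matrix (Fin N) (Fin N) k |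
        ∃ P ∈ adj ![X, Y, 0], ∃ Q ∈ adj ![X, Y, 0], M = P * Q}) :
    X ∈ adj ![X', Y', 0] ∧ Y ∈ adj ![X', Y', 0] := by
  have hnak := adj_nak (T := ![X, Y, 0]) (T' := ![X', Y', 0]) hT (by
    intro i
    fin_cases i
    · exact mX
    · exact mY
    · exact zero_mem _) (by
    intro i
    fin_cases i
    · exact ⟨X', mem_adj ![X', Y', 0] 0, h1⟩
    · exact ⟨Y', mem_adj ![X', Y', 0] 1, h2⟩
    · refine ⟨0, zero_mem _, ?_⟩
      show (0 : Matrix (Fin N) (Fin N) k) - 0 ∈ _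
      rw [sub_zero]
      exact zero_mem _)
  exact ⟨hnak 0, hnak 1⟩

open Pool.Agent.Lib.D13.Pl.Class in
theorem linesNF [CharZero k] (hN : 0 < N) : LinesNF k N := by
  intro X Y v ψ h
  have hT : CN ![X, Y, 0] := cn_of h.comm h.nilX h.nilY
  obtain ⟨R, _, _, ρ, x, y, z0, hρ, rfl, rfl, -⟩ := D9.exists_ring hT
  have hgen : Gen (ρ x) (ρ y) v := h.cyc.gen
  have hf : x * y * (x + y) = 0 := by
    apply hρ
    rw [map_mul, map_mul, map_add, map_zero]
    exact h.rel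
  have hx : IsNilpotent x := by
    obtain ⟨n, hn⟩ := h.nilX
    exact ⟨n, hρ (by rw [map_pow, hn, map_zero])⟩
  have hy : IsNilpotent y := by
    obtain ⟨n, hn⟩ := h.nilY
    exact ⟨n, hρ (by rw [map_pow, hn, map_zero])⟩
  -- the functional
  let s : R →ₗ[k] k :=
    { toFun := fun P => ψ ⬝ᵥ (ρ P *ᵥ v)
      map_add' := fun P Q => by rw [map_add, Matrix.add_mulVec, dotProduct_add]
      map_smul' := fun r P => by
        rw [map_smul, Matrix.smul_mulVec, dotProduct_smul, RingHom.id_apply] }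
  have hinj : ∀ P : R, ρ P *ᵥ v = 0 → P = 0 := by
    intro P hP
    apply hρ
    rw [map_zero]
    have h4 := hgen (LinearMap.ker (ρ P).mulVecLin) (by rw [LinearMap.mem_ker]; exact hP)
      (fun u hu => by
        rw [LinearMap.mem_ker, Matrix.mulVecLin_apply] at hu ⊢
        rw [Matrix.mulVec_mulVec, ← map_mul, mul_comm P x, map_mul, ← Matrix.mulVec_mulVec, hu,
          Matrix.mulVec_zero])
      (fun u hu => by
        rw [LinearMap.mem_ker, Matrix.mulVecLin_apply] at hu ⊢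
        rw [Matrix.mulVec_mulVec, ← map_mul, mul_comm P y, map_mul, ← Matrix.mulVec_mulVec, hu,
          Matrix.mulVec_zero])
    ext i j
    have h5 := h4 (Pi.single j 1)
    rw [LinearMap.mem_ker, Matrix.mulVecLin_apply, Matrix.mulVec_single_one] at h5
    exact congrFun h5 i
  have soc : ∀ P : R, x * P = 0 → y * P = 0 → s P = 0 → P = 0 := by
    intro P h1 h2 h3
    apply hinj
    refine socle_zero h.cocyc ?_ ?_ h3
    · rw [Matrix.mulVec_mulVec, ← map_mul, h1, map_zero, Matrix.zero_mulVec]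
    · rw [Matrix.mulVec_mulVec, ← map_mul, h2, map_zero, Matrix.zero_mulVec]
  have prop : ∀ P Q : R, x * P = 0 → y * P = 0 → x * Q = 0 → y * Q = 0 → s Q • P = s P • Q := by
    intro P Q h1 h2 h3 h4
    rw [← sub_eq_zero]
    apply soc
    · rw [mul_sub, mul_smul_comm, mul_smul_comm, h1, h3, smul_zero, smul_zero, sub_zero]
    · rw [mul_sub, mul_smul_comm, mul_smul_comm, h2, h4, smul_zero, smul_zero, sub_zero]
    · rw [map_sub, map_smul, map_smul, smul_eq_mul, smul_eq_mul, mul_comm, sub_self]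
  -- a quadratic relation is enough for the first alternative
  have left : ∀ {q0 q1 q2 : k} {P : R}, (q0 ≠ 0 ∨ q1 ≠ 0 ∨ q2 ≠ 0) → Q3 x y P →
      q0 • x ^ 2 + q1 • (x * y) + q2 • y ^ 2 = P →
      ∃ M ∈ adj ![ρ x, ρ y, 0], N ≤ M.rank + 2 :=
    fun hq hP hr => left_of_quad ρ h.nilX h.nilY hgen hq hP hr
  by_cases hyz : y * (x + y) = 0
  · refine Or.inl (left (q0 := 0) (q1 := 1) (q2 := 1) (by simp) Q3.zero ?_)
    simp only [zero_smul, one_smul]
    linear_combination hyz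
  by_cases hxz : x * (x + y) = 0
  · refine Or.inl (left (q0 := 1) (q1 := 1) (q2 := 0) (by simp) Q3.zero ?_)
    simp only [zero_smul, one_smul]
    linear_combination hxz
  by_cases hxy : x * y = 0
  · refine Or.inl (left (q0 := 0) (q1 := 1) (q2 := 0) (by simp) Q3.zero ?_)
    simp only [zero_smul, one_smul]
    linear_combination hxy
  obtain ⟨p1, hp1, a1, b1⟩ := exists_max hy hyz
  obtain ⟨p2, hp2, a2, b2⟩ := exists_max hx hxz
  obtain ⟨p3, hp3, a3, b3⟩ := exists_max hx hxy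
  -- the socle elements
  have k1x : x * (y ^ p1 * (x + y)) = 0 := by
    obtain ⟨m, rfl⟩ : ∃ m, p1 = m + 1 := ⟨p1 - 1, by omega⟩
    linear_combination y ^ m * hf
  have k1y : y * (y ^ p1 * (x + y)) = 0 := by linear_combination b1
  have k2x : x * (x ^ p2 * (x + y)) = 0 := by linear_combination b2
  have k2y : y * (x ^ p2 * (x + y)) = 0 := by
    obtain ⟨m, rfl⟩ : ∃ m, p2 = m + 1 := ⟨p2 - 1, by omega⟩
    linear_combination x ^ m * hf
  have k3x : x * (x ^ p3 * y) = 0 := by linear_combination b3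
  have k3y : y * (x ^ p3 * y) = 0 := by
    obtain ⟨m, rfl⟩ : ∃ m, p3 = m + 1 := ⟨p3 - 1, by omega⟩
    linear_combination x ^ m * hf - b3
  have s1 : s (y ^ p1 * (x + y)) ≠ 0 := fun h0 => a1 (soc _ k1x k1y h0)
  have s2 : s (x ^ p2 * (x + y)) ≠ 0 := fun h0 => a2 (soc _ k2x k2y h0)
  have s3 : s (x ^ p3 * y) ≠ 0 := fun h0 => a3 (soc _ k3x k3y h0)
  have r12 := prop _ _ k1x k1y k2x k2y
  have r13 := prop _ _ k1x k1y k3x k3y
  set S1 := s (y ^ p1 * (x + y)) with hS1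
  set S2 := s (x ^ p2 * (x + y)) with hS2
  set S3 := s (x ^ p3 * y) with hS3
  by_cases e1 : p1 = 1
  · subst e1
    by_cases e2 : p2 = 1
    · subst e2
      refine Or.inl (left (q0 := -S1) (q1 := S2 - S1) (q2 := S2) (Or.inr (Or.inr s2)) Q3.zero ?_)
      simp only [Algebra.smul_def, map_neg, map_sub] at r12 ⊢
      linear_combination r12
    · refine Or.inl (left (q0 := 0) (q1 := S2) (q2 := S2) (Or.inr (Or.inr s2))
        ((Q3.xz (show 2 ≤ p2 by omega)).smul S1) ?_)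
      rw [← r12]
      simp only [Algebra.smul_def, map_zero]
      ring
  by_cases e2 : p2 = 1
  · subst e2
    refine Or.inl (left (q0 := S1) (q1 := S1) (q2 := 0) (Or.inl s1)
      ((Q3.yz (show 2 ≤ p1 by omega)).smul S2) ?_)
    rw [r12]
    simp only [Algebra.smul_def, map_zero]
    ring
  by_cases e3 : p3 = 1
  · subst e3
    refine Or.inl (left (q0 := 0) (q1 := S1) (q2 := 0) (Or.inr (Or.inl s1))
      ((Q3.yz (show 2 ≤ p1 by omega)).smul S3) ?_)
    rw [r13]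
    simp only [Algebra.smul_def, map_zero]
    ring
  obtain ⟨n1, rfl⟩ : ∃ m, p1 = m + 2 := ⟨p1 - 2, by omega⟩
  obtain ⟨n2, rfl⟩ : ∃ m, p2 = m + 2 := ⟨p2 - 2, by omega⟩
  obtain ⟨n3, rfl⟩ : ∃ m, p3 = m + 2 := ⟨p3 - 2, by omega⟩
  set α := algebraMap k R with hα
  have hi : ∀ t : k, t ≠ 0 → α t⁻¹ * α t = 1 := by
    intro t ht
    rw [← map_mul, inv_mul_cancel₀ ht, map_one]
  simp only [Algebra.smul_def] at r12 r13
  have t2 : α S2⁻¹ * (x ^ (n2 + 2) * (x + y)) = α S1⁻¹ * (y ^ (n1 + 2) * (x + y)) := by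
    linear_combination (-α S1⁻¹ * α S2⁻¹) * r12 - (α S2⁻¹ * (x ^ (n2 + 2) * (x + y))) * hi S1 s1
      + (α S1⁻¹ * (y ^ (n1 + 2) * (x + y))) * hi S2 s2
  have t3 : α S3⁻¹ * (x ^ (n3 + 2) * y) = α S1⁻¹ * (y ^ (n1 + 2) * (x + y)) := by
    linear_combination (-α S1⁻¹ * α S3⁻¹) * r13 - (α S3⁻¹ * (x ^ (n3 + 2) * y)) * hi S1 s1
      + (α S1⁻¹ * (y ^ (n1 + 2) * (x + y))) * hi S3 s3
  -- the relation up to the socle
  set g0 : R := α S1⁻¹ * (y ^ (n1 + 1) * (x + y)) - α S2⁻¹ * (x ^ (n2 + 1) * (x + y)) +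
    α S3⁻¹ * (x ^ (n3 + 1) * y) with hg0
  have gx : x * g0 = 0 := by
    rw [hg0]
    linear_combination (α S1⁻¹ * y ^ n1) * hf - t2 + t3
  have gy : y * g0 = 0 := by
    rw [hg0]
    linear_combination (-α S2⁻¹ * x ^ n2) * hf + (α S3⁻¹ * x ^ n3) * hf - t3
  have r0 := prop _ _ gx gy k1x k1y
  rw [← hS1] at r0
  simp only [Algebra.smul_def] at r0
  have hgσ : g0 = α (s g0) * (α S1⁻¹ * (y ^ (n1 + 2) * (x + y))) := by
    linear_combination α S1⁻¹ * r0 - g0 * hi S1 s1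
  by_cases hq : n1 = 0 ∨ n2 = 0 ∨ n3 = 0
  · left
    obtain ⟨Q1, hQ1, f1⟩ := split1 (k := k) (x := x) y (x + y) n1 (fun m hm => Q3.yz hm)
    obtain ⟨Q2, hQ2, f2⟩ := split2 (k := k) x y (x + y) n2 (fun m hm => Q3.xz hm)
    obtain ⟨Q3', hQ3, f3⟩ := split2 (k := k) x y y n3 (fun m hm => Q3.xy hm)
    set ε1 : k := if n1 = 0 then 1 else 0 with hε1
    set ε2 : k := if n2 = 0 then 1 else 0 with hε2
    set ε3 : k := if n3 = 0 then 1 else 0 with hε3
    refine left (q0 := -(S2⁻¹ * ε2)) (q1 := S1⁻¹ * ε1 - S2⁻¹ * ε2 + S3⁻¹ * ε3)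
      (q2 := S1⁻¹ * ε1) (P := (-S1⁻¹) • Q1 + S2⁻¹ • Q2 + (-S3⁻¹) • Q3' +
        (s g0 * S1⁻¹) • (y ^ (n1 + 2) * (x + y))) ?_ ?_ ?_
    · by_cases c1 : n1 = 0
      · right; right
        rw [hε1, if_pos c1, mul_one]
        exact inv_ne_zero s1
      · by_cases c2 : n2 = 0
        · left
          rw [hε2, if_pos c2, mul_one]
          exact neg_ne_zero.2 (inv_ne_zero s2)
        · right; left
          have c3 : n3 = 0 := by tauto
          rw [hε1, hε2, hε3, if_neg c1, if_neg c2, if_pos c3, mul_zero, mul_zero, sub_zero,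
            zero_add, mul_one]
          exact inv_ne_zero s3
    · exact (((hQ1.smul _).add (hQ2.smul _)).add (hQ3.smul _)).add
        ((Q3.yz (show 2 ≤ n1 + 2 by omega)).smul _)
    · simp only [Algebra.smul_def, map_neg, map_mul, map_sub, map_add] at f1 f2 f3 ⊢
      linear_combination hgσ - hg0 - α S1⁻¹ * f1 + α S2⁻¹ * f2 - α S3⁻¹ * f3
  right
  push Not at hq
  obtain ⟨c1, c2, c3⟩ := hq
  -- the size
  have hcard : (n1 + 2) + (n2 + 2) + (n3 + 2) = N := by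
    refine card_eq (a := S1⁻¹) (b := -S2⁻¹) (c := S3⁻¹) (d := -(s g0 * S1⁻¹)) h.comm h.rel h.nilX
      h.nilY hgen (by omega) (by omega) (by omega) ?_ (inv_ne_zero s1)
      (neg_ne_zero.2 (inv_ne_zero s2)) (inv_ne_zero s3) ?_
    · have h1 : S1⁻¹ • (y ^ (n1 + 1) * (x + y)) + (-S2⁻¹) • (x ^ (n2 + 1) * (x + y)) +
          S3⁻¹ • (x ^ (n3 + 1) * y) + (-(s g0 * S1⁻¹)) • (y ^ (n1 + 2) * (x + y)) = 0 := by
        simp only [Algebra.smul_def, map_neg, map_mul]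
        linear_combination hgσ - hg0
      have h2 := congrArg ρ h1
      simp only [map_add, map_smul, map_mul, map_pow, map_zero] at h2
      exact h2
    · intro h0
      apply a1
      apply hρ
      rw [map_mul, map_pow, map_add, map_zero]
      exact h0
  -- the change of coordinates
  set e : k := s g0 / (N : k) with he
  have hN' : (N : k) ≠ 0 := by exact_mod_cast hN.ne'
  have heN : α e * ((n1 + 2 : ℕ) + (n2 + 2 : ℕ) + (n3 + 2 : ℕ) : R) = α (s g0) := by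
    have h1 : e * (N : k) = s g0 := div_mul_cancel₀ _ hN'
    rw [← h1, map_mul, map_natCast, ← hcard]
    push_cast
    ring
  set x' : R := x + e • (x * (x + (2 : k) • y)) with hx'
  set y' : R := y - e • (y * ((2 : k) • x + y)) with hy'
  have two : α 2 = 2 := map_ofNat α 2
  have ex : x' = x * (1 + α e * (x + 2 * y)) := by
    rw [hx', Algebra.smul_def, Algebra.smul_def, ← hα, two]
    ring
  have ey : y' = y * (1 - α e * (2 * x + y)) := by
    rw [hy', Algebra.smul_def, Algebra.smul_def, ← hα, two]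
    ring
  have ez : x' + y' = (x + y) * (1 + α e * (x - y)) := by
    rw [ex, ey]
    ring
  have T1 := term (u := x + y) (w := y) (e := -α e) (t := 1 - α e * (2 * x + y))
    (t' := 1 + α e * (x - y)) (n := n1) (by linear_combination (-2 * α e) * hf)
    (by linear_combination α e * hf) b1
  have T2 := term (u := x + y) (w := x) (e := α e) (t := 1 + α e * (x + 2 * y))
    (t' := 1 + α e * (x - y)) (n := n2) (by linear_combination (2 * α e) * hf)
    (by linear_combination (-α e) * hf) b2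
  have T3 := term (u := y) (w := x) (e := -α e) (t := 1 + α e * (x + 2 * y))
    (t' := 1 - α e * (2 * x + y)) (n := n3) (by linear_combination (2 * α e) * hf)
    (by linear_combination (-α e) * hf) b3
  rw [← ey, ← ez] at T1
  rw [← ex, ← ez] at T2
  rw [← ex, ← ey] at T3
  have hX' : ρ x' = ρ x + e • (ρ x * (ρ x + (2 : k) • ρ y)) := by
    rw [hx']
    simp only [map_add, map_smul, map_mul]
  have hY' : ρ y' = ρ y - e • (ρ y * ((2 : k) • ρ x + ρ y)) := by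
    rw [hy']
    simp only [map_add, map_sub, map_smul, map_mul]
  have m0 : ρ x ∈ adj ![ρ x, ρ y, 0] := mem_adj ![ρ x, ρ y, 0] 0
  have m1 : ρ y ∈ adj ![ρ x, ρ y, 0] := mem_adj ![ρ x, ρ y, 0] 1
  have l0 : ρ x + (2 : k) • ρ y ∈ adj ![ρ x, ρ y, 0] := add_mem m0 (SMulMemClass.smul_mem _ m1)
  have l1 : (2 : k) • ρ x + ρ y ∈ adj ![ρ x, ρ y, 0] := add_mem (SMulMemClass.smul_mem _ m0) m1
  have mX' : ρ x' ∈ adj ![ρ x, ρ y, 0] := by
    rw [hX']
    exact add_mem m0 (SMulMemClass.smul_mem _ (mul_mem m0 l0))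
  have mY' : ρ y' ∈ adj ![ρ x, ρ y, 0] := by
    rw [hY']
    exact sub_mem m1 (SMulMemClass.smul_mem _ (mul_mem m1 l1))
  obtain ⟨n0, n0'⟩ := mem_of_mod hT mX' mY' (by
      have : ρ x - ρ x' = (-e) • (ρ x * (ρ x + (2 : k) • ρ y)) := by rw [hX']; module
      rw [this]
      exact Submodule.smul_mem _ _ (Submodule.subset_span ⟨_, m0, _, l0, rfl⟩)) (by
      have : ρ y - ρ y' = e • (ρ y * ((2 : k) • ρ x + ρ y)) := by rw [hY']; module
      rw [this]
      exact Submodule.smul_mem _ _ (Submodule.subset_span ⟨_, m1, _, l1, rfl⟩))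
  have hcomm : ρ x' * ρ y' = ρ y' * ρ x' := by rw [← map_mul, mul_comm, map_mul]
  refine ⟨ρ x', ρ y', v, S1⁻¹, -S2⁻¹, S3⁻¹, e, n1 + 2, n2 + 2, n3 + 2,
    ⟨hcomm, hT.nilp mX', hT.nilp mY', cyc_of_adj hcomm n0 n0' h.cyc, ?_, ?_, inv_ne_zero s1,
      neg_ne_zero.2 (inv_ne_zero s2), inv_ne_zero s3, by omega, by omega, by omega, hcard⟩,
    hX', hY'⟩
  · rw [← map_mul, ← map_add, ← map_mul, ez, ex, ey]
    have h1 : x * (1 + α e * (x + 2 * y)) * (y * (1 - α e * (2 * x + y))) *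
        ((x + y) * (1 + α e * (x - y))) = 0 := by
      linear_combination ((1 + α e * (x + 2 * y)) * (1 - α e * (2 * x + y)) *
        (1 + α e * (x - y))) * hf
    rw [h1, map_zero]
  · have h1 : S1⁻¹ • (y' ^ (n1 + 1) * (x' + y')) + (-S2⁻¹) • (x' ^ (n2 + 1) * (x' + y')) +
        S3⁻¹ • (x' ^ (n3 + 1) * y') = 0 := by
      simp only [Algebra.smul_def, map_neg]
      linear_combination α S1⁻¹ * T1 - α S2⁻¹ * T2 + α S3⁻¹ * T3 - hg0 + hgσ
        - ((n2 + 2 : ℕ) : R) * α e * t2 - ((n3 + 2 : ℕ) : R) * α e * t3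
        - (α S1⁻¹ * (y ^ (n1 + 2) * (x + y))) * heN
    have h2 := congrArg ρ h1
    simp only [map_add, map_smul, map_mul, map_pow, map_zero] at h2
    exact h2

end Pool.Agent.Lib.D13.Pl
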