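import Pool.Agent.Lib.D13.PlCyc

/-!
# MP_5dcbc3_ag: three Jordan blocks: cocyclic functionals
-/

namespace Pool.Agent.Lib.D13.Pl

open Matrix Polynomial Pool.Agent.Lib.Q5dc Pool.Agent.Lib.D7

variable {k : Type*} [Field k] {N : ℕ}

namespace Blk

variable {A B : Matrix (Fin N) (Fin N) k} {v : Fin 3 → Fin N → k} {a : Fin 3 → ℕ}

theorem apply_eq_sum (f : (Fin N → k) →ₗ[k] k) (x : Fin N → k) :
    f x = ∑ i, x i * f (Pi.single i 1) := by
  rw [LinearMap.pi_apply_eq_sum_univ f x]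
  refine Finset.sum_congr rfl fun i _ => ?_
  rw [smul_eq_mul]
  congr 2
  funext j
  rw [Pi.single_apply]
  by_cases h : i = j
  · rw [if_pos h, if_pos h.symm]
  · rw [if_neg h, if_neg (Ne.symm h)]

/-- a row vector `ψ` is cocyclic if it does not vanish on the common kernel, more precisely if every
vector killed by `A`, `B` and `ψ` is zero -/
theorem cocyc_of_ker (hA : IsNilpotent A) (hB : IsNilpotent B) (hAB : A * B = B * A)
    (ψ : Fin N → k) (hk : ∀ w, A *ᵥ w = 0 → B *ᵥ w = 0 → ψ ⬝ᵥ w = 0 → w = 0) :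
    CoCyc A B ψ := by
  classical
  unfold CoCyc
  by_contra hne
  obtain ⟨f, hf, hf'⟩ := Submodule.exists_le_ker_of_lt_top _ (lt_top_iff_ne_top.2 hne)
  let w : Fin N → k := fun i => f (Pi.single i 1)
  have hfw : ∀ x, f x = x ⬝ᵥ w := by
    intro x
    exact apply_eq_sum f x
  have hw0 : w ≠ 0 := by
    intro h0
    apply hf
    ext x
    simp only [LinearMap.comp_apply, LinearMap.coe_single, LinearMap.zero_apply]
    exact congrFun h0 x
  have hw : ∀ p q : ℕ, ψ ⬝ᵥ ((A ^ p * B ^ q) *ᵥ w) = 0 := by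
    intro p q
    have h1 := hf' (Submodule.subset_span ⟨(p, q), rfl⟩)
    rw [LinearMap.mem_ker, hfw] at h1
    rw [Matrix.dotProduct_mulVec]
    exact h1
  -- a power of A
  obtain ⟨n, hn1, hn2⟩ : ∃ n : ℕ, A ^ n *ᵥ w ≠ 0 ∧ A ^ (n + 1) *ᵥ w = 0 := by
    by_contra hcon
    push Not at hcon
    have : ∀ n : ℕ, A ^ n *ᵥ w ≠ 0 := by
      intro n
      induction n with
      | zero => rwa [pow_zero, Matrix.one_mulVec]
      | succ n ih => exact hcon n ih
    obtain ⟨e, he⟩ := hA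
    exact this e (by rw [he, Matrix.zero_mulVec])
  obtain ⟨m, hm1, hm2⟩ : ∃ m : ℕ, B ^ m *ᵥ (A ^ n *ᵥ w) ≠ 0 ∧ B ^ (m + 1) *ᵥ (A ^ n *ᵥ w) = 0 := by
    by_contra hcon
    push Not at hcon
    have : ∀ m : ℕ, B ^ m *ᵥ (A ^ n *ᵥ w) ≠ 0 := by
      intro m
      induction m with
      | zero => rwa [pow_zero, Matrix.one_mulVec]
      | succ m ih => exact hcon m ih
    obtain ⟨e, he⟩ := hB
    exact this e (by rw [he, Matrix.zero_mulVec])
  refine hm1 (hk _ ?_ ?_ ?_)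
  · have h1 : A * B ^ m = B ^ m * A := (Commute.pow_right (show Commute A B from hAB) m)
    rw [Matrix.mulVec_mulVec, h1, ← Matrix.mulVec_mulVec, Matrix.mulVec_mulVec w A, ← pow_succ', hn2,
      Matrix.mulVec_zero]
  · rw [Matrix.mulVec_mulVec, ← pow_succ', hm2]
  · have h1 : A ^ n * B ^ m = B ^ m * A ^ n :=
      (Commute.pow_pow (show Commute A B from hAB) n m)
    rw [Matrix.mulVec_mulVec, ← h1]
    exact hw n m

theorem exists_functional (h : BlkB A v a) (h0 : 0 < a 0) :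
    ∃ ψ : Fin N → k, ∀ z, ψ ⬝ᵥ pi A v z = (z 0).coeff (a 0 - 1) := by
  classical
  let f : (Fin 3 → k[X]) →ₗ[k] (Fin N → k) :=
    { toFun := pi A v
      map_add' := pi_add
      map_smul' := pi_csmul }
  have hf : Function.Surjective f := fun w => by
    obtain ⟨z, hz⟩ := h.span w
    exact ⟨z, hz.symm⟩
  obtain ⟨g, hg⟩ := f.exists_rightInverse_of_surjective (LinearMap.range_eq_top.2 hf)
  let φ : (Fin N → k) →ₗ[k] k :=
    { toFun := fun w => ((g w) 0).coeff (a 0 - 1)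
      map_add' := by
        intro x y
        rw [map_add, Pi.add_apply, coeff_add]
      map_smul' := by
        intro c x
        rw [map_smul, Pi.smul_apply, coeff_smul, RingHom.id_apply] }
  refine ⟨fun i => φ (Pi.single i 1), fun z => ?_⟩
  have h1 : (fun i => φ (Pi.single i 1)) ⬝ᵥ pi A v z = φ (pi A v z) := by
    rw [apply_eq_sum φ (pi A v z)]
    exact Finset.sum_congr rfl fun i _ => mul_comm _ _
  rw [h1]
  show ((g (f z)) 0).coeff (a 0 - 1) = (z 0).coeff (a 0 - 1)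
  have h2 : f (g (f z)) = f z := LinearMap.congr_fun hg (f z)
  have h3 : pi A v (g (f z) - z) = 0 := by
    rw [pi_sub]
    exact sub_eq_zero.2 h2
  obtain ⟨q, hq⟩ := (pi_eq_zero h _).1 h3 0
  have h4 : ((g (f z)) 0 - z 0).coeff (a 0 - 1) = 0 := by
    have h5 : (g (f z)) 0 - z 0 = X ^ a 0 * q := hq
    rw [h5, coeff_X_pow_mul', if_neg (by omega)]
  rw [coeff_sub, sub_eq_zero] at h4
  exact h4

theorem cocyc_of_rep (h : BlkB A v a) (hpos : ∀ j, 0 < a j) (h01 : a 1 < a 0) (h12 : a 2 < a 1)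
    {P : Matrix (Fin 3) (Fin 3) k[X]} (hB : Rep A v B P) (hP : ∀ i j, i ≤ j → X ∣ P i j)
    {p01 p02 p12 : k[X]} (e01 : P 0 1 = X ^ (a 0 - a 1) * p01) (e02 : P 0 2 = X ^ (a 0 - a 2) * p02)
    (e12 : P 1 2 = X ^ (a 1 - a 2) * p12) (h1 : p01.coeff 0 ≠ 0) (h2 : p12.coeff 0 ≠ 0) :
    ∃ ψ, CoCyc A B ψ := by
  obtain ⟨ψ, hψ⟩ := exists_functional h (hpos 0)
  refine ⟨ψ, cocyc_of_ker (nilp_A h) (nilp_low h hB hP) (comm_A h hB) ψ fun w hAw hBw hw => ?_⟩
  obtain ⟨z, rfl⟩ := h.span w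
  have hX : (X : k[X]) ≠ 0 := X_ne_zero
  -- A w = 0
  have hA : ∀ j, (X : k[X]) ^ (a j - 1) ∣ z j := by
    intro j
    have h3 : pi A v ((X : k[X]) • z) = 0 := by rw [pi_smul, aeval_X, hAw]
    have h4 := (pi_eq_zero h _).1 h3 j
    have h5 : (X : k[X]) ^ a j = X * X ^ (a j - 1) := by
      rw [← pow_succ']
      congr 1
      have := hpos j
      omega
    rw [h5] at h4
    exact (mul_dvd_mul_iff_left hX).1 h4
  obtain ⟨c0, hc0⟩ := hA 0
  obtain ⟨c1, hc1⟩ := hA 1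
  obtain ⟨c2, hc2⟩ := hA 2
  have hψ0 : c0.coeff 0 = 0 := by
    rw [hψ, hc0, coeff_X_pow_mul', if_pos le_rfl, Nat.sub_self] at hw
    exact hw
  rw [hB] at hBw
  have hBz := (pi_eq_zero h _).1 hBw
  have hrow : ∀ i, (P *ᵥ z) i = P i 0 * z 0 + P i 1 * z 1 + P i 2 * z 2 := by
    intro i
    show ∑ j, P i j * z j = _
    rw [Fin.sum_univ_three]
  have hp0 := hpos 0
  have hp1 := hpos 1
  have hp2 := hpos 2
  -- row 1
  have k2 : c2.coeff 0 = 0 := by
    have h3 := hBz 1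
    rw [hrow] at h3
    have h4 : X ^ a 1 ∣ P 1 0 * z 0 := by
      rw [hc0]
      exact ((pow_dvd_pow X (by omega)).trans (dvd_mul_right _ c0)).mul_left _
    have h5 : X ^ a 1 ∣ P 1 1 * z 1 := by
      obtain ⟨q, hq⟩ := hP 1 1 le_rfl
      refine ⟨q * c1, ?_⟩
      rw [hq, hc1]
      have h6 : (X : k[X]) ^ a 1 = X * X ^ (a 1 - 1) := by
        rw [← pow_succ']
        congr 1
        omega
      rw [h6]
      ring
    have h7 : X ^ a 1 ∣ P 1 2 * z 2 := (dvd_add_right (dvd_add h4 h5)).1 h3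
    have h8 : P 1 2 * z 2 = X ^ (a 1 - 1) * (p12 * c2) := by
      rw [e12, hc2]
      have h9 : (X : k[X]) ^ (a 1 - 1) = X ^ (a 1 - a 2) * X ^ (a 2 - 1) := by
        rw [← pow_add]
        congr 1
        omega
      rw [h9]
      ring
    rw [h8] at h7
    have h10 : (X : k[X]) ^ a 1 = X ^ (a 1 - 1) * X := by
      rw [← pow_succ]
      congr 1
      omega
    rw [h10] at h7
    have h11 := (mul_dvd_mul_iff_left (pow_ne_zero _ hX)).1 h7
    rw [X_dvd_iff, mul_coeff_zero] at h11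
    exact (mul_eq_zero.1 h11).resolve_left h2
  have k1 : c1.coeff 0 = 0 := by
    have h3 := hBz 0
    rw [hrow] at h3
    have h6 : (X : k[X]) ^ a 0 = X ^ (a 0 - 1) * X := by
      rw [← pow_succ]
      congr 1
      omega
    have h4 : X ^ a 0 ∣ P 0 0 * z 0 := by
      obtain ⟨q, hq⟩ := hP 0 0 le_rfl
      refine ⟨q * c0, ?_⟩
      rw [hq, hc0, h6]
      ring
    have h5 : X ^ a 0 ∣ P 0 2 * z 2 := by
      obtain ⟨q, hq⟩ := X_dvd_iff.2 k2
      refine ⟨p02 * q, ?_⟩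
      rw [e02, hc2, hq, h6]
      have h9 : (X : k[X]) ^ (a 0 - 1) = X ^ (a 0 - a 2) * X ^ (a 2 - 1) := by
        rw [← pow_add]
        congr 1
        omega
      rw [h9]
      ring
    have h7 : X ^ a 0 ∣ P 0 1 * z 1 := (dvd_add_right h4).1 ((dvd_add_left h5).1 h3)
    have h8 : P 0 1 * z 1 = X ^ (a 0 - 1) * (p01 * c1) := by
      rw [e01, hc1]
      have h9 : (X : k[X]) ^ (a 0 - 1) = X ^ (a 0 - a 1) * X ^ (a 1 - 1) := by
        rw [← pow_add]
        congr 1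
        omega
      rw [h9]
      ring
    rw [h8, h6] at h7
    have h11 := (mul_dvd_mul_iff_left (pow_ne_zero _ hX)).1 h7
    rw [X_dvd_iff, mul_coeff_zero] at h11
    exact (mul_eq_zero.1 h11).resolve_left h1
  rw [pi_eq_zero h]
  have hfin : ∀ (j : Fin 3) (c : k[X]), z j = X ^ (a j - 1) * c → c.coeff 0 = 0 → X ^ a j ∣ z j := by
    intro j c hc hc'
    obtain ⟨q, hq⟩ := X_dvd_iff.2 hc'
    refine ⟨q, ?_⟩
    rw [hc, hq, ← mul_assoc, ← pow_succ]
    congr 2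
    have := hpos j
    omega
  intro j
  fin_cases j
  · exact hfin 0 c0 hc0 hψ0
  · exact hfin 1 c1 hc1 k1
  · exact hfin 2 c2 hc2 k2

end Blk

end Pool.Agent.Lib.D13.Pl
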