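import Pool.Agent.Lib.D13.PlJord

/-!
# MP_5dcbc3_ag: three Jordan blocks: cyclic and cocyclic vectors, the cubic relation
-/

namespace Pool.Agent.Lib.D13.Pl

open Matrix Polynomial Pool.Agent.Lib.Q5dc Pool.Agent.Lib.D7

variable {k : Type*} [Field k] {N : ℕ}

namespace Blk

variable {A B : Matrix (Fin N) (Fin N) k} {v : Fin 3 → Fin N → k} {a : Fin 3 → ℕ}

/-- strictly lower triangular modulo `X` -/
theorem nilp_low (h : BlkB A v a) {P : Matrix (Fin 3) (Fin 3) k[X]} (hB : Rep A v B P)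
    (hP : ∀ i j, i ≤ j → X ∣ P i j) : IsNilpotent B := by
  have h1 : ∀ i j, X ∣ (P ^ 3) i j := by
    have h00 := hP 0 0 le_rfl
    have h01 := hP 0 1 (by decide)
    have h02 := hP 0 2 (by decide)
    have h11 := hP 1 1 le_rfl
    have h12 := hP 1 2 (by decide)
    have h22 := hP 2 2 le_rfl
    obtain ⟨p00, h00⟩ := h00
    obtain ⟨p01, h01⟩ := h01
    obtain ⟨p02, h02⟩ := h02
    obtain ⟨p11, h11⟩ := h11
    obtain ⟨p12, h12⟩ := h12
    obtain ⟨p22, h22⟩ := h22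
    intro i j
    have e : (P ^ 3) i j = ∑ x, ∑ y, P i x * P x y * P y j := by
      rw [pow_succ, pow_two, Matrix.mul_apply]
      simp only [Matrix.mul_apply, Finset.sum_mul]
      rw [Finset.sum_comm]
    rw [e]
    refine Finset.dvd_sum fun x _ => Finset.dvd_sum fun y _ => ?_
    rcases le_or_gt i x with hx | hx
    · exact ((hP i x hx).mul_right _).mul_right _
    · rcases le_or_gt x y with hy | hy
      · exact ((hP x y hy).mul_left _).mul_right _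
      · refine (hP y j ?_).mul_left _
        have h1 : (i : ℕ) < 3 := i.2
        have h2 : (x : ℕ) < i := hx
        have h3 : (y : ℕ) < x := hy
        show (y : ℕ) ≤ j
        omega
  choose Q hQ using h1
  refine nilp h hB (e := 3) (P' := Matrix.of Q) ?_
  ext1 i j
  rw [hQ]
  rfl

/-- vectors modulo a stable subspace: Nakayama -/
theorem nakayama {A : Matrix (Fin N) (Fin N) k} (hA : IsNilpotent A)
    (S : Submodule k (Fin N → k)) (hS : ∀ x ∈ S, A *ᵥ x ∈ S)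
    (h : ∀ x, ∃ y, x - A *ᵥ y ∈ S) : S = ⊤ := by
  obtain ⟨e, he⟩ := hA
  have key : ∀ n : ℕ, ∀ x, ∃ y, x - A ^ n *ᵥ y ∈ S := by
    intro n
    induction n with
    | zero =>
      intro x
      exact ⟨x, by rw [pow_zero, Matrix.one_mulVec, sub_self]; exact zero_mem _⟩
    | succ n ih =>
      intro x
      obtain ⟨y, hy⟩ := ih x
      obtain ⟨z, hz⟩ := h y
      refine ⟨z, ?_⟩
      have hSn : ∀ n : ℕ, ∀ x ∈ S, A ^ n *ᵥ x ∈ S := by
        intro n
        induction n with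
        | zero => intro x hx; rwa [pow_zero, Matrix.one_mulVec]
        | succ n ih =>
          intro x hx
          rw [pow_succ', ← Matrix.mulVec_mulVec]
          exact hS _ (ih x hx)
      have h1 := add_mem hy (hSn n _ hz)
      rw [Matrix.mulVec_sub, Matrix.mulVec_mulVec, ← pow_succ, sub_add_sub_cancel] at h1
      exact h1
  rw [eq_top_iff]
  intro x _
  obtain ⟨y, hy⟩ := key e x
  rwa [he, Matrix.zero_mulVec, sub_zero] at hy

/-- the span of `A ^ p B ^ q v` is stable under `A` and `B` -/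
theorem cyc_stable (hAB : A * B = B * A) (w : Fin N → k) {x : Fin N → k}
    (hx : x ∈ Submodule.span k (Set.range fun p : ℕ × ℕ => (A ^ p.1 * B ^ p.2) *ᵥ w)) :
    A *ᵥ x ∈ Submodule.span k (Set.range fun p : ℕ × ℕ => (A ^ p.1 * B ^ p.2) *ᵥ w) ∧
    B *ᵥ x ∈ Submodule.span k (Set.range fun p : ℕ × ℕ => (A ^ p.1 * B ^ p.2) *ᵥ w) := by
  induction hx using Submodule.span_induction with
  | mem y hy =>
    obtain ⟨⟨p, q⟩, rfl⟩ := hy
    constructor
    · refine Submodule.subset_span ⟨(p + 1, q), ?_⟩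
      show (A ^ (p + 1) * B ^ q) *ᵥ w = A *ᵥ ((A ^ p * B ^ q) *ᵥ w)
      rw [Matrix.mulVec_mulVec, pow_succ', Matrix.mul_assoc]
    · refine Submodule.subset_span ⟨(p, q + 1), ?_⟩
      show (A ^ p * B ^ (q + 1)) *ᵥ w = B *ᵥ ((A ^ p * B ^ q) *ᵥ w)
      have h1 : A ^ p * B = B * A ^ p := (Commute.pow_left (show Commute A B from hAB) p)
      rw [Matrix.mulVec_mulVec, pow_succ', ← Matrix.mul_assoc, h1, Matrix.mul_assoc]
  | zero =>
    rw [Matrix.mulVec_zero, Matrix.mulVec_zero]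
    exact ⟨zero_mem _, zero_mem _⟩
  | add y z _ _ hy hz =>
    rw [Matrix.mulVec_add, Matrix.mulVec_add]
    exact ⟨add_mem hy.1 hz.1, add_mem hy.2 hz.2⟩
  | smul c y _ hy =>
    rw [Matrix.mulVec_smul, Matrix.mulVec_smul]
    exact ⟨Submodule.smul_mem _ _ hy.1, Submodule.smul_mem _ _ hy.2⟩

/-- an element is congruent to its constant part -/
theorem pi_mod (z : Fin 3 → k[X]) : ∃ y, pi A v z -
    ((z 0).coeff 0 • v 0 + (z 1).coeff 0 • v 1 + (z 2).coeff 0 • v 2) = A *ᵥ y := by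
  refine ⟨pi A v fun j => (z j).divX, ?_⟩
  have h1 : (z 0).coeff 0 • v 0 + (z 1).coeff 0 • v 1 + (z 2).coeff 0 • v 2 =
      pi A v (fun j => C ((z j).coeff 0)) := by
    rw [pi_C, Fin.sum_univ_three]
  have h2 : A *ᵥ pi A v (fun j => (z j).divX) = pi A v ((X : k[X]) • fun j => (z j).divX) := by
    rw [pi_smul, aeval_X]
  rw [h1, h2, ← pi_sub]
  congr 1
  funext j
  show z j - C ((z j).coeff 0) = X * (z j).divX
  have := divX_mul_X_add (z j)
  linear_combination -this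

theorem cyc_of_rep (h : BlkB A v a) {P : Matrix (Fin 3) (Fin 3) k[X]} (hB : Rep A v B P)
    (hP : ∀ i j, i ≤ j → X ∣ P i j) (h1 : (P 1 0).coeff 0 ≠ 0) (h2 : (P 2 1).coeff 0 ≠ 0) :
    Cyc A B (v 0) := by
  have hAB := comm_A h hB
  unfold Cyc
  set S := Submodule.span k (Set.range fun p : ℕ × ℕ => (A ^ p.1 * B ^ p.2) *ᵥ v 0) with hS
  have hSA : ∀ x ∈ S, A *ᵥ x ∈ S := fun x hx => (cyc_stable hAB _ hx).1
  have hSB : ∀ x ∈ S, B *ᵥ x ∈ S := fun x hx => (cyc_stable hAB _ hx).2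
  have hv0 : v 0 ∈ S := Submodule.subset_span ⟨(0, 0), by
    show (A ^ 0 * B ^ 0) *ᵥ v 0 = v 0
    rw [pow_zero, pow_zero, Matrix.one_mul, Matrix.one_mulVec]⟩
  have hc : ∀ i j, i ≤ j → (P i j).coeff 0 = 0 := fun i j hij => X_dvd_iff.1 (hP i j hij)
  -- the images of the generators modulo A
  obtain ⟨y0, hy0⟩ := pi_mod (A := A) (v := v) (fun i => P i 0)
  obtain ⟨y1, hy1⟩ := pi_mod (A := A) (v := v) (fun i => P i 1)
  obtain ⟨y2, hy2⟩ := pi_mod (A := A) (v := v) (fun i => P i 2)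
  rw [← hB.apply_v] at hy0 hy1 hy2
  simp only [hc 0 0 le_rfl, hc 0 1 (by decide), hc 1 1 le_rfl, hc 0 2 (by decide),
    hc 1 2 (by decide), hc 2 2 le_rfl, zero_smul, zero_add, add_zero, sub_zero] at hy0 hy1 hy2
  set c := (P 1 0).coeff 0 with hcdef
  set d := (P 2 0).coeff 0 with hddef
  set e := (P 2 1).coeff 0 with hedef
  -- B v0 = c v1 + d v2 + A y0, B v1 = e v2 + A y1, B v2 = A y2
  have hBA : ∀ x, B *ᵥ (A *ᵥ x) = A *ᵥ (B *ᵥ x) := by
    intro x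
    rw [Matrix.mulVec_mulVec, Matrix.mulVec_mulVec, hAB]
  have e0 : B *ᵥ v 0 = c • v 1 + d • v 2 + A *ᵥ y0 := by
    rw [← hy0]; abel
  have e1 : B *ᵥ v 1 = e • v 2 + A *ᵥ y1 := by
    rw [← hy1]; abel
  have e2 : B *ᵥ v 2 = A *ᵥ y2 := hy2
  have e3 : B *ᵥ (B *ᵥ v 0) = (c * e) • v 2 + A *ᵥ (c • y1 + d • y2 + B *ᵥ y0) := by
    rw [e0, Matrix.mulVec_add, Matrix.mulVec_add, Matrix.mulVec_smul, Matrix.mulVec_smul, e1, e2,
      hBA, Matrix.mulVec_add, Matrix.mulVec_add, Matrix.mulVec_smul, Matrix.mulVec_smul, smul_add,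
      smul_smul]
    abel
  -- v2 modulo A
  have f2 : ∃ y, v 2 - A *ᵥ y ∈ S := by
    refine ⟨-((c * e)⁻¹ • (c • y1 + d • y2 + B *ᵥ y0)), ?_⟩
    have h3 : v 2 - A *ᵥ (-((c * e)⁻¹ • (c • y1 + d • y2 + B *ᵥ y0))) =
        (c * e)⁻¹ • (B *ᵥ (B *ᵥ v 0)) := by
      rw [e3, Matrix.mulVec_neg, Matrix.mulVec_smul, smul_add, smul_smul,
        inv_mul_cancel₀ (mul_ne_zero h1 h2), one_smul, sub_neg_eq_add]
    rw [h3]
    exact Submodule.smul_mem _ _ (hSB _ (hSB _ hv0))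
  obtain ⟨z2, hz2⟩ := f2
  have f1 : ∃ y, v 1 - A *ᵥ y ∈ S := by
    refine ⟨-(c⁻¹ • y0) - c⁻¹ • d • z2, ?_⟩
    have h3 : v 1 - A *ᵥ (-(c⁻¹ • y0) - c⁻¹ • d • z2) =
        c⁻¹ • (B *ᵥ v 0) - c⁻¹ • d • (v 2 - A *ᵥ z2) := by
      rw [e0, Matrix.mulVec_sub, Matrix.mulVec_neg, Matrix.mulVec_smul, Matrix.mulVec_smul,
        Matrix.mulVec_smul, smul_add, smul_add, smul_smul c⁻¹ c, inv_mul_cancel₀ h1, one_smul,
        smul_sub, smul_sub]
      abel
    rw [h3]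
    exact sub_mem (Submodule.smul_mem _ _ (hSB _ hv0))
      (Submodule.smul_mem _ _ (Submodule.smul_mem _ _ hz2))
  obtain ⟨z1, hz1⟩ := f1
  refine nakayama (nilp_A h) S hSA fun x => ?_
  obtain ⟨z, rfl⟩ := h.span x
  obtain ⟨y, hy⟩ := pi_mod (A := A) (v := v) z
  refine ⟨y + (z 1).coeff 0 • z1 + (z 2).coeff 0 • z2, ?_⟩
  have h3 : pi A v z - A *ᵥ (y + (z 1).coeff 0 • z1 + (z 2).coeff 0 • z2) =
      (z 0).coeff 0 • v 0 + (z 1).coeff 0 • (v 1 - A *ᵥ z1) +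
        (z 2).coeff 0 • (v 2 - A *ᵥ z2) := by
    rw [Matrix.mulVec_add, Matrix.mulVec_add, ← hy, Matrix.mulVec_smul, Matrix.mulVec_smul,
      smul_sub, smul_sub]
    abel
  rw [h3]
  exact add_mem (add_mem (Submodule.smul_mem _ _ hv0) (Submodule.smul_mem _ _ hz1))
    (Submodule.smul_mem _ _ hz2)

end Blk

end Pool.Agent.Lib.D13.Pl
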