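import Pool.Agent.Lib.D7.Api
import Pool.Agent.Lib.D8.Corank

/-!
# MP_5dcbc3_ag: planar commuting nilpotent triples (A, B, 0) of corank at most 3: definitions
-/

namespace Pool.Agent.Lib.D13.Pl

open Matrix Polynomial Pool.Agent.Lib.Q5dc Pool.Agent.Lib.D7

variable {k : Type*} [Field k] {N : ℕ}

/-- `v` is a cyclic vector of the pair `(X, Y)` -/
def Cyc (X Y : Matrix (Fin N) (Fin N) k) (v : Fin N → k) : Prop :=
  Submodule.span k (Set.range fun p : ℕ × ℕ => (X ^ p.1 * Y ^ p.2) *ᵥ v) = ⊤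

/-- `ψ` is a cyclic row vector of the pair `(X, Y)` -/
def CoCyc (X Y : Matrix (Fin N) (Fin N) k) (ψ : Fin N → k) : Prop :=
  Submodule.span k (Set.range fun p : ℕ × ℕ => ψ ᵥ* (X ^ p.1 * Y ^ p.2)) = ⊤

/-- good planar pair: commuting, nilpotent, cyclic, cocyclic, and the cubic equation of `B` over
`k[A]` has leading form with three distinct roots (`a0, a1, a2` are the coefficients of
`F(t) = t^3 - a2 t^2 + a1 t - a0` over `k[x]`, the equation is `x^3 F(y/x) = 0`) -/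
structure Good (A B : Matrix (Fin N) (Fin N) k) (v ψ : Fin N → k) (a0 a1 a2 : k[X]) (t0 t1 t2 : k) :
    Prop where
  comm : A * B = B * A
  nilA : IsNilpotent A
  nilB : IsNilpotent B
  cyc : Cyc A B v
  cocyc : CoCyc A B ψ
  rel : B ^ 3 - A * aeval A a2 * B ^ 2 + A ^ 2 * aeval A a1 * B - A ^ 3 * aeval A a0 = 0
  roots : (X ^ 3 - C (a2.eval 0) * X ^ 2 + C (a1.eval 0) * X - C (a0.eval 0) : k[X]) =
    (X - C t0) * (X - C t1) * (X - C t2)
  ne01 : t0 ≠ t1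
  ne02 : t0 ≠ t2
  ne12 : t1 ≠ t2

/-- three lines: `X Y (X + Y) = 0`, cyclic and cocyclic -/
structure Lines (X Y : Matrix (Fin N) (Fin N) k) (v ψ : Fin N → k) : Prop where
  comm : X * Y = Y * X
  nilX : IsNilpotent X
  nilY : IsNilpotent Y
  cyc : Cyc X Y v
  cocyc : CoCyc X Y ψ
  rel : X * Y * (X + Y) = 0

/-- the normal form with exponents `p1, p2, p3` (all `≥ 3`, sum `N`) -/
structure NF (p1 p2 p3 : ℕ) (X Y : Matrix (Fin N) (Fin N) k) (v : Fin N → k) (a b c : k) : Prop where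
  comm : X * Y = Y * X
  nilX : IsNilpotent X
  nilY : IsNilpotent Y
  cyc : Cyc X Y v
  rel : X * Y * (X + Y) = 0
  relg : a • (Y ^ (p1 - 1) * (X + Y)) + b • (X ^ (p2 - 1) * (X + Y)) + c • (X ^ (p3 - 1) * Y) = 0
  ha : a ≠ 0
  hb : b ≠ 0
  hc : c ≠ 0
  h1 : 3 ≤ p1
  h2 : 3 ≤ p2
  h3 : 3 ≤ p3
  sum : p1 + p2 + p3 = N

end Pool.Agent.Lib.D13.Pl
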