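import Pool.Agent.Lib.D13.PlB

/-!
# MP_5dcbc3_ag: planar commuting nilpotent triples: polynomial identities in two commuting matrices
-/

namespace Pool.Agent.Lib.D13.Pl

open Matrix Pool.Agent.Lib.Q5dc Pool.Agent.Lib.D7 Pool.Agent.Lib.D8

variable {k : Type*} [Field k] {N : ℕ}

/-- evaluation of polynomials in two commuting matrices -/
theorem exists_ev {X Y : Matrix (Fin N) (Fin N) k} (hc : X * Y = Y * X) :
    ∃ φ : MvPolynomial (Fin 2) k →ₐ[k] Matrix (Fin N) (Fin N) k,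
      φ (MvPolynomial.X 0) = X ∧ φ (MvPolynomial.X 1) = Y := by
  have hcomm : ∀ a ∈ ({X, Y} : Set (Matrix (Fin N) (Fin N) k)), ∀ b ∈ ({X, Y} :
      Set (Matrix (Fin N) (Fin N) k)), a * b = b * a := by
    intro a ha b hb
    simp only [Set.mem_insert_iff, Set.mem_singleton_iff] at ha hb
    rcases ha with rfl | rfl <;> rcases hb with rfl | rfl
    · rfl
    · exact hc
    · exact hc.symm
    · rfl
  let _i : CommRing (Algebra.adjoin k ({X, Y} : Set (Matrix (Fin N) (Fin N) k))) :=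
    { (inferInstance : Ring (Algebra.adjoin k ({X, Y} : Set (Matrix (Fin N) (Fin N) k)))) with
      mul_comm := (Algebra.isMulCommutative_adjoin k hcomm).is_comm.comm }
  refine ⟨(Algebra.adjoin k ({X, Y} : Set (Matrix (Fin N) (Fin N) k))).val.comp
    (MvPolynomial.aeval ![⟨X, Algebra.subset_adjoin (by simp)⟩,
      ⟨Y, Algebra.subset_adjoin (by simp)⟩]), ?_, ?_⟩
  · rw [AlgHom.comp_apply, MvPolynomial.aeval_X]
    rfl
  · rw [AlgHom.comp_apply, MvPolynomial.aeval_X]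
    rfl

/-- commuting nilpotent pairs give commuting nilpotent triples -/
theorem cn_pair {X Y : Matrix (Fin N) (Fin N) k} (hc : X * Y = Y * X)
    (hX : IsNilpotent X) (hY : IsNilpotent Y) : CN ![X, Y, 0] := by
  constructor
  · intro i j
    fin_cases i <;> fin_cases j
    · rfl
    · exact hc
    · show X * 0 = 0 * X
      rw [mul_zero, zero_mul]
    · exact hc.symm
    · rfl
    · show Y * 0 = 0 * Y
      rw [mul_zero, zero_mul]
    · show 0 * X = X * 0
      rw [mul_zero, zero_mul]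
    · show 0 * Y = Y * 0
      rw [mul_zero, zero_mul]
    · rfl
  · intro i
    fin_cases i
    · exact hX
    · exact hY
    · exact IsNilpotent.zero

/-- a generating vector generates for the algebra of the pair -/
theorem Gen.of_adj {X Y A B : Matrix (Fin N) (Fin N) k} {v : Fin N → k} (hg : Gen X Y v)
    (hX : X ∈ adj ![A, B, 0]) (hY : Y ∈ adj ![A, B, 0]) : Gen A B v := by
  intro S hv hA hB
  have h1 : ∀ M ∈ adj ![A, B, 0], ∀ w ∈ S, M *ᵥ w ∈ S := by
    intro M hM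
    refine adj_induction (p := fun M => ∀ w ∈ S, M *ᵥ w ∈ S) (fun i => ?_) ?_ ?_ ?_ ?_ hM
    · fin_cases i
      · exact hA
      · exact hB
      · intro w _
        show (0 : Matrix (Fin N) (Fin N) k) *ᵥ w ∈ S
        rw [Matrix.zero_mulVec]
        exact zero_mem _
    · intro w _
      rw [Matrix.zero_mulVec]
      exact zero_mem _
    · intro x _ y _ hx hy w hw
      rw [Matrix.add_mulVec]
      exact add_mem (hx w hw) (hy w hw)
    · intro x _ y _ hx hy w hw
      rw [← Matrix.mulVec_mulVec]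
      exact hx _ (hy w hw)
    · intro r x _ hx w hw
      rw [Matrix.smul_mulVec]
      exact Submodule.smul_mem _ _ (hx w hw)
  exact hg S hv (h1 X hX) (h1 Y hY)

section ev

variable (φ : MvPolynomial (Fin 2) k →ₐ[k] Matrix (Fin N) (Fin N) k)

/-- values of polynomials up to constants -/
theorem ev_sub_mem (P : MvPolynomial (Fin 2) k) :
    φ P - MvPolynomial.constantCoeff P • 1 ∈
      adj ![φ (MvPolynomial.X 0), φ (MvPolynomial.X 1), 0] := by
  induction P using MvPolynomial.induction_on with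
  | C a =>
    have h1 : φ (MvPolynomial.C a) = a • (1 : Matrix (Fin N) (Fin N) k) := by
      rw [show (MvPolynomial.C a : MvPolynomial (Fin 2) k) = algebraMap k _ a from rfl,
        AlgHom.commutes, Algebra.algebraMap_eq_smul_one]
    rw [h1, MvPolynomial.constantCoeff_C, sub_self]
    exact zero_mem _
  | add p q hp hq =>
    have h1 : φ (p + q) - MvPolynomial.constantCoeff (p + q) • (1 : Matrix (Fin N) (Fin N) k) =
        (φ p - MvPolynomial.constantCoeff p • 1) + (φ q - MvPolynomial.constantCoeff q • 1) := by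
      rw [map_add, map_add, add_smul]
      abel
    rw [h1]
    exact add_mem hp hq
  | mul_X p i hp =>
    have hi : φ (MvPolynomial.X i) ∈ adj ![φ (MvPolynomial.X 0), φ (MvPolynomial.X 1), 0] := by
      fin_cases i
      · exact mem_adj ![φ (MvPolynomial.X 0), φ (MvPolynomial.X 1), 0] 0
      · exact mem_adj ![φ (MvPolynomial.X 0), φ (MvPolynomial.X 1), 0] 1
    have h1 : φ (p * MvPolynomial.X i) -
        MvPolynomial.constantCoeff (p * MvPolynomial.X i) • (1 : Matrix (Fin N) (Fin N) k) =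
        (φ p - MvPolynomial.constantCoeff p • 1) * φ (MvPolynomial.X i) +
          MvPolynomial.constantCoeff p • φ (MvPolynomial.X i) := by
      rw [map_mul, map_mul, MvPolynomial.constantCoeff_X, mul_zero, zero_smul, sub_zero, sub_mul,
        smul_mul_assoc, one_mul, sub_add_cancel]
    rw [h1]
    exact add_mem (mul_mem hp hi) (SMulMemClass.smul_mem _ hi)

theorem ev_mem {P : MvPolynomial (Fin 2) k} (hP : MvPolynomial.constantCoeff P = 0) :
    φ P ∈ adj ![φ (MvPolynomial.X 0), φ (MvPolynomial.X 1), 0] := by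
  have h1 := ev_sub_mem φ P
  rwa [hP, zero_smul, sub_zero] at h1

theorem ev_C (a : k) (P : MvPolynomial (Fin 2) k) : φ (MvPolynomial.C a * P) = a • φ P := by
  rw [map_mul, show (MvPolynomial.C a : MvPolynomial (Fin 2) k) = algebraMap k _ a from rfl,
    AlgHom.commutes, Algebra.algebraMap_eq_smul_one, smul_mul_assoc, one_mul]

theorem ev_comm (P Q : MvPolynomial (Fin 2) k) : φ P * φ Q = φ Q * φ P := by
  rw [← map_mul, ← map_mul, mul_comm]

/-- a combination of two polynomials with value zero has value zero -/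
theorem ev_zero {f g P : MvPolynomial (Fin 2) k} (hf : φ f = 0) (hg : φ g = 0)
    (A B : MvPolynomial (Fin 2) k) (h : P = A * f + B * g) : φ P = 0 := by
  rw [h, map_add, map_mul, map_mul, hf, hg, mul_zero, mul_zero, add_zero]

/-- change of generators: `A = a1 x + a2 y + (order 2)`, `B = b1 x + b2 y + (order 2)`, the
determinant not zero -/
theorem ev_gens (hT : CN ![φ (MvPolynomial.X 0), φ (MvPolynomial.X 1), 0])
    {A B : MvPolynomial (Fin 2) k} {a₁ a₂ b₁ b₂ : k} (R₁ R₂ S₁ S₂ : MvPolynomial (Fin 2) k)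
    (hR₁ : MvPolynomial.constantCoeff R₁ = 0) (hR₂ : MvPolynomial.constantCoeff R₂ = 0)
    (hS₁ : MvPolynomial.constantCoeff S₁ = 0) (hS₂ : MvPolynomial.constantCoeff S₂ = 0)
    (hA : A = MvPolynomial.C a₁ * MvPolynomial.X 0 + MvPolynomial.C a₂ * MvPolynomial.X 1 +
      (MvPolynomial.X 0 * R₁ + MvPolynomial.X 1 * R₂))
    (hB : B = MvPolynomial.C b₁ * MvPolynomial.X 0 + MvPolynomial.C b₂ * MvPolynomial.X 1 +
      (MvPolynomial.X 0 * S₁ + MvPolynomial.X 1 * S₂))
    (hd : a₁ * b₂ - a₂ * b₁ ≠ 0) :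
    (∀ i, ![φ (MvPolynomial.X 0), φ (MvPolynomial.X 1), 0] i ∈ adj ![φ A, φ B, 0]) ∧
      φ A ∈ adj ![φ (MvPolynomial.X 0), φ (MvPolynomial.X 1), 0] ∧
      φ B ∈ adj ![φ (MvPolynomial.X 0), φ (MvPolynomial.X 1), 0] := by
  have hxm := mem_adj ![φ (MvPolynomial.X 0), φ (MvPolynomial.X 1), 0] 0
  have hym := mem_adj ![φ (MvPolynomial.X 0), φ (MvPolynomial.X 1), 0] 1
  have hAm : φ A ∈ adj ![φ (MvPolynomial.X 0), φ (MvPolynomial.X 1), 0] :=
    ev_mem φ (by rw [hA]; simp [hR₁, hR₂])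
  have hBm : φ B ∈ adj ![φ (MvPolynomial.X 0), φ (MvPolynomial.X 1), 0] :=
    ev_mem φ (by rw [hB]; simp [hS₁, hS₂])
  refine ⟨adj_nak hT ?_ ?_, hAm, hBm⟩
  · intro i
    fin_cases i
    · exact hAm
    · exact hBm
    · exact zero_mem _
  · set d := a₁ * b₂ - a₂ * b₁ with hdef
    have hA1 : φ A = a₁ • φ (MvPolynomial.X 0) + a₂ • φ (MvPolynomial.X 1) +
        (φ (MvPolynomial.X 0) * φ R₁ + φ (MvPolynomial.X 1) * φ R₂) := by
      rw [hA, map_add, map_add, map_add, ev_C, ev_C, map_mul, map_mul]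
    have hB1 : φ B = b₁ • φ (MvPolynomial.X 0) + b₂ • φ (MvPolynomial.X 1) +
        (φ (MvPolynomial.X 0) * φ S₁ + φ (MvPolynomial.X 1) * φ S₂) := by
      rw [hB, map_add, map_add, map_add, ev_C, ev_C, map_mul, map_mul]
    have hsp1 : φ (MvPolynomial.X 0) * φ R₁ + φ (MvPolynomial.X 1) * φ R₂ ∈
        Submodule.span k {M : Matrix (Fin N) (Fin N) k | ∃ P ∈
          adj ![φ (MvPolynomial.X 0), φ (MvPolynomial.X 1), 0], ∃ Q ∈
          adj ![φ (MvPolynomial.X 0), φ (MvPolynomial.X 1), 0], M = P * Q} :=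
      add_mem (Submodule.subset_span ⟨_, hxm, _, ev_mem φ hR₁, rfl⟩)
        (Submodule.subset_span ⟨_, hym, _, ev_mem φ hR₂, rfl⟩)
    have hsp2 : φ (MvPolynomial.X 0) * φ S₁ + φ (MvPolynomial.X 1) * φ S₂ ∈
        Submodule.span k {M : Matrix (Fin N) (Fin N) k | ∃ P ∈
          adj ![φ (MvPolynomial.X 0), φ (MvPolynomial.X 1), 0], ∃ Q ∈
          adj ![φ (MvPolynomial.X 0), φ (MvPolynomial.X 1), 0], M = P * Q} :=
      add_mem (Submodule.subset_span ⟨_, hxm, _, ev_mem φ hS₁, rfl⟩)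
        (Submodule.subset_span ⟨_, hym, _, ev_mem φ hS₂, rfl⟩)
    have hA' := mem_adj ![φ A, φ B, 0] 0
    have hB' := mem_adj ![φ A, φ B, 0] 1
    intro i
    fin_cases i
    · refine ⟨d⁻¹ • (b₂ • φ A - a₂ • φ B), SMulMemClass.smul_mem _ (sub_mem
        (SMulMemClass.smul_mem _ hA') (SMulMemClass.smul_mem _ hB')), ?_⟩
      have h1 : φ (MvPolynomial.X 0) - d⁻¹ • (b₂ • φ A - a₂ • φ B) =
          (d⁻¹ * a₂) • (φ (MvPolynomial.X 0) * φ S₁ + φ (MvPolynomial.X 1) * φ S₂) -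
          (d⁻¹ * b₂) • (φ (MvPolynomial.X 0) * φ R₁ + φ (MvPolynomial.X 1) * φ R₂) := by
        have h2 : φ (MvPolynomial.X 0) = (d⁻¹ * d) • φ (MvPolynomial.X 0) := by
          rw [inv_mul_cancel₀ hd, one_smul]
        rw [hA1, hB1]
        nth_rw 1 [h2]
        rw [hdef]
        module
      show φ (MvPolynomial.X 0) - d⁻¹ • (b₂ • φ A - a₂ • φ B) ∈ _
      rw [h1]
      exact sub_mem (Submodule.smul_mem _ _ hsp2) (Submodule.smul_mem _ _ hsp1)
    · refine ⟨d⁻¹ • (a₁ • φ B - b₁ • φ A), SMulMemClass.smul_mem _ (sub_mem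
        (SMulMemClass.smul_mem _ hB') (SMulMemClass.smul_mem _ hA')), ?_⟩
      have h1 : φ (MvPolynomial.X 1) - d⁻¹ • (a₁ • φ B - b₁ • φ A) =
          (d⁻¹ * b₁) • (φ (MvPolynomial.X 0) * φ R₁ + φ (MvPolynomial.X 1) * φ R₂) -
          (d⁻¹ * a₁) • (φ (MvPolynomial.X 0) * φ S₁ + φ (MvPolynomial.X 1) * φ S₂) := by
        have h2 : φ (MvPolynomial.X 1) = (d⁻¹ * d) • φ (MvPolynomial.X 1) := by
          rw [inv_mul_cancel₀ hd, one_smul]
        rw [hA1, hB1]
        nth_rw 1 [h2]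
        rw [hdef]
        module
      show φ (MvPolynomial.X 1) - d⁻¹ • (a₁ • φ B - b₁ • φ A) ∈ _
      rw [h1]
      exact sub_mem (Submodule.smul_mem _ _ hsp1) (Submodule.smul_mem _ _ hsp2)
    · refine ⟨0, zero_mem _, ?_⟩
      show (0 : Matrix (Fin N) (Fin N) k) - 0 ∈ _
      rw [sub_zero]
      exact zero_mem _

end ev

/-- the setting for the normal forms -/
theorem NF.ev {p₁ p₂ p₃ : ℕ} {X Y : Matrix (Fin N) (Fin N) k} {v : Fin N → k} {a b c : k}
    (h : NF p₁ p₂ p₃ X Y v a b c) :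
    ∃ φ : MvPolynomial (Fin 2) k →ₐ[k] Matrix (Fin N) (Fin N) k,
      φ (MvPolynomial.X 0) = X ∧ φ (MvPolynomial.X 1) = Y ∧
      φ (MvPolynomial.X 0 * MvPolynomial.X 1 * (MvPolynomial.X 0 + MvPolynomial.X 1)) = 0 ∧
      φ (MvPolynomial.C a * (MvPolynomial.X 1 ^ (p₁ - 1) *
          (MvPolynomial.X 0 + MvPolynomial.X 1)) +
        MvPolynomial.C b * (MvPolynomial.X 0 ^ (p₂ - 1) *
          (MvPolynomial.X 0 + MvPolynomial.X 1)) +
        MvPolynomial.C c * (MvPolynomial.X 0 ^ (p₃ - 1) * MvPolynomial.X 1)) = 0 := by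
  obtain ⟨φ, h1, h2⟩ := exists_ev h.comm
  refine ⟨φ, h1, h2, ?_, ?_⟩
  · rw [map_mul, map_mul, map_add, h1, h2]
    exact h.rel
  · rw [map_add, map_add, ev_C, ev_C, ev_C, map_mul, map_mul, map_mul, map_pow, map_pow, map_pow,
      map_add, h1, h2]
    exact h.relg

section soc

variable {R : Type*} [CommRing R] {M : Type*} [Ring M] (φ : R →+* M) (x y a b c a' b' c' : R)
  {r₁ r₂ r₃ : ℕ}

/-- the monomials of high degree vanish -/
theorem soc (hf : φ (x * y * (x + y)) = 0)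
    (hg : φ (a * (y ^ (r₁ + 1) * (x + y)) + b * (x ^ (r₂ + 1) * (x + y)) +
      c * (x ^ (r₃ + 1) * y)) = 0) (ha : a' * a = 1) (hb : b' * b = 1) (hc : c' * c = 1) :
    φ (y ^ (r₁ + 3) * (x + y)) = 0 ∧ φ (x ^ (r₂ + 3) * (x + y)) = 0 ∧
      φ (x ^ (r₃ + 3) * y) = 0 := by
  have h3 : φ (x ^ (r₃ + 3) * y) = 0 := by
    have h1 : x ^ (r₃ + 3) * y = (c' * (c * x ^ (r₃ + 1) + a * y ^ (r₁ + 1) + b * x ^ (r₂ + 1))) *
        (x * y * (x + y)) + (-c' * x * y) * (a * (y ^ (r₁ + 1) * (x + y)) +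
          b * (x ^ (r₂ + 1) * (x + y)) + c * (x ^ (r₃ + 1) * y)) := by
      linear_combination (-(x ^ (r₃ + 3) * y)) * hc
    rw [h1, map_add, map_mul φ _ (x * y * (x + y)), map_mul φ (-c' * x * y), hf, hg, mul_zero,
      mul_zero, add_zero]
  have h2 : φ (x ^ (r₂ + 3) * (x + y)) = 0 := by
    have h1 : x ^ (r₂ + 3) * (x + y) = (b' * x ^ 2) * (a * (y ^ (r₁ + 1) * (x + y)) +
          b * (x ^ (r₂ + 1) * (x + y)) + c * (x ^ (r₃ + 1) * y)) +
        (-b' * a * x * y ^ r₁) * (x * y * (x + y)) + (-b' * c) * (x ^ (r₃ + 3) * y) := by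
      linear_combination (-(x ^ (r₂ + 3) * (x + y))) * hb
    rw [h1, map_add, map_add, map_mul φ _ (x * y * (x + y)), map_mul φ (b' * x ^ 2),
      map_mul φ (-b' * c), hf, hg, h3, mul_zero, mul_zero, mul_zero, add_zero, add_zero]
  refine ⟨?_, h2, h3⟩
  have h1 : y ^ (r₁ + 3) * (x + y) = (a' * y ^ 2) * (a * (y ^ (r₁ + 1) * (x + y)) +
        b * (x ^ (r₂ + 1) * (x + y)) + c * (x ^ (r₃ + 1) * y)) +
      (a' * (-b * x ^ r₂ * y - c * x ^ r₃ * y + c * x ^ (r₃ + 1))) * (x * y * (x + y)) +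
      (-a' * c) * (x ^ (r₃ + 3) * y) := by
    linear_combination (-(y ^ (r₁ + 3) * (x + y))) * ha
  rw [h1, map_add, map_add, map_mul φ _ (x * y * (x + y)), map_mul φ (a' * y ^ 2),
    map_mul φ (-a' * c), hf, hg, h3, mul_zero, mul_zero, mul_zero, add_zero, add_zero]

/-- powers of linear forms modulo `x y (x + y)` -/
theorem lin_pow (l m : R) (n : ℕ) : ∃ V, (l * x + m * y) ^ (n + 2) =
    m ^ (n + 2) * (y ^ (n + 1) * (x + y)) + l ^ (n + 2) * (x ^ (n + 1) * (x + y)) -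
      (l - m) ^ (n + 2) * (x ^ (n + 1) * y) + V * (x * y * (x + y)) := by
  induction n with
  | zero => exact ⟨0, by ring⟩
  | succ n ih =>
    obtain ⟨V, hV⟩ := ih
    refine ⟨(l * x + m * y) * V + m ^ (n + 2) * l * y ^ n + l ^ (n + 2) * m * x ^ n -
      (l - m) ^ (n + 2) * m * x ^ n, ?_⟩
    rw [show n + 1 + 2 = (n + 2) + 1 by ring, pow_succ, hV]
    ring

end soc

end Pool.Agent.Lib.D13.Pl
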