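import Pool.Agent.Lib.D13.PlBlk

/-!
# MP_5dcbc3_ag: Jordan bases of a nilpotent matrix adapted to a commuting nilpotent matrix
-/

namespace Pool.Agent.Lib.D13.Pl

open Matrix Polynomial Pool.Agent.Lib.Q5dc Pool.Agent.Lib.D7

variable {k : Type*} [Field k] {N r : ℕ}

namespace Blk

variable {A : Matrix (Fin N) (Fin N) k} {v : Fin r → Fin N → k} {a : Fin r → ℕ}

theorem exists_blk (hA : IsNilpotent A) :
    ∃ (r : ℕ) (v : Fin r → Fin N → k) (a : Fin r → ℕ), BlkB A v a ∧ (∀ j, 0 < a j) ∧
      Antitone a ∧ N = A.rank + r := by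
  classical
  obtain ⟨p, hp⟩ := hA
  set D : (Fin N → k) →ₗ[k] (Fin N → k) := Matrix.toLin' A with hD
  have hDp : D ^ p = 0 := by
    have h1 : D ^ p = Matrix.toLin' (A ^ p) := by
      rw [hD]
      exact (map_pow (Matrix.toLinAlgEquiv' : Matrix (Fin N) (Fin N) k ≃ₐ[k] _) A p).symm
    rw [h1, hp, map_zero]
  obtain ⟨r, m, b, hm, hb⟩ := Pool.Agent.P166ae0.exists_jordan_basis D p hDp
  have hcard : ∑ a, m a = N := by
    have h1 := Module.finrank_eq_card_basis b
    rw [Module.finrank_fin_fun, Fintype.card_sigma] at h1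
    simp only [Fintype.card_fin] at h1
    exact h1.symm
  have hMD : ∀ w, A *ᵥ w = D w := fun w => (Matrix.toLin'_apply A w).symm
  have hpow : ∀ (a : Fin r) (i : ℕ) (hi : i < m a),
      A ^ i *ᵥ b ⟨a, ⟨0, (hm a).1⟩⟩ = b ⟨a, ⟨i, hi⟩⟩ := by
    intro a i
    induction i with
    | zero => intro hi; rw [pow_zero, Matrix.one_mulVec]
    | succ i ih =>
      intro hi
      rw [pow_succ', ← Matrix.mulVec_mulVec, ih (by omega), hMD, hb, dif_pos hi]
  have hend : ∀ a : Fin r, A ^ m a *ᵥ b ⟨a, ⟨0, (hm a).1⟩⟩ = 0 := by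
    intro a
    have h1 : A ^ m a = A * A ^ (m a - 1) := by
      rw [← pow_succ']
      congr 1
      have := (hm a).1
      omega
    rw [h1, ← Matrix.mulVec_mulVec, hpow a (m a - 1) (by have := (hm a).1; omega), hMD, hb,
      dif_neg]
    show ¬ (m a - 1 + 1 < m a)
    omega
  let σ : Equiv.Perm (Fin r) := Tuple.sort (fun i => OrderDual.toDual (m i))
  have hσ : Antitone (fun i => m (σ i)) := by
    have h1 := Tuple.monotone_sort (fun i => OrderDual.toDual (m i))
    intro i j hij
    exact h1 hij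
  have hBlk : BlkB A (fun j => b ⟨σ j, ⟨0, (hm (σ j)).1⟩⟩) (fun j => m (σ j)) := by
    refine ⟨?_, fun j => hend (σ j), ?_⟩
    · rw [← hcard]
      exact Equiv.sum_comp σ m
    · intro w
      let S : Submodule k (Fin N → k) :=
        { carrier := {w | ∃ z, w = pi A (fun j => b ⟨σ j, ⟨0, (hm (σ j)).1⟩⟩) z}
          zero_mem' := ⟨0, pi_zero.symm⟩
          add_mem' := by
            rintro _ _ ⟨z, rfl⟩ ⟨z', rfl⟩
            exact ⟨z + z', (pi_add z z').symm⟩
          smul_mem' := by
            rintro t _ ⟨z, rfl⟩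
            exact ⟨t • z, (pi_csmul t z).symm⟩ }
      have hbS : ∀ x, b x ∈ S := by
        rintro ⟨j, i⟩
        refine ⟨Pi.single (σ.symm j) (X ^ (i : ℕ)), ?_⟩
        rw [pi_single, map_pow, aeval_X]
        have h1 := hpow j i i.2
        have h2 : ∀ j' : Fin r, j' = j → A ^ (i : ℕ) *ᵥ b ⟨j', ⟨0, (hm j').1⟩⟩ = b ⟨j, i⟩ := by
          rintro j' rfl
          exact h1
        exact (h2 _ (Equiv.apply_symm_apply σ j)).symm
      have h2 : (⊤ : Submodule k (Fin N → k)) ≤ S := by
        rw [← b.span_eq]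
        refine Submodule.span_le.2 ?_
        rintro _ ⟨x, rfl⟩
        exact hbS x
      exact h2 trivial
  refine ⟨r, _, _, hBlk, fun j => (hm (σ j)).1, hσ, ?_⟩
  -- the rank
  have h2 := LinearMap.finrank_range_add_finrank_ker D
  rw [Module.finrank_fin_fun] at h2
  have h3 : Module.finrank k (LinearMap.range D) = A.rank := rfl
  rw [h3] at h2
  have hr1 : r ≤ Module.finrank k (LinearMap.ker D) := by
    let f : Fin r → LinearMap.ker D := fun a => ⟨b ⟨a, ⟨m a - 1, by have := (hm a).1; omega⟩⟩, by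
      rw [LinearMap.mem_ker, hb, dif_neg]
      show ¬ (m a - 1 + 1 < m a)
      omega⟩
    have hf : LinearIndependent k f := by
      have h1 : LinearIndependent k (fun a : Fin r => (f a : Fin N → k)) := by
        refine b.linearIndependent.comp (fun a : Fin r => (⟨a, ⟨m a - 1, by
          have := (hm a).1; omega⟩⟩ : Σ a : Fin r, Fin (m a))) ?_
        intro a a' h
        exact congrArg Sigma.fst h
      exact LinearIndependent.of_comp (LinearMap.ker D).subtype h1
    have h1 := hf.fintype_card_le_finrank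
    rwa [Fintype.card_fin] at h1
  have hr2 : N ≤ A.rank + r := by
    set v' : Fin r → Fin N → k := fun j => b ⟨σ j, ⟨0, (hm (σ j)).1⟩⟩ with hv'
    have htop : (⊤ : Submodule k (Fin N → k)) ≤
        LinearMap.range D ⊔ Submodule.span k (Set.range v') := by
      intro w _
      obtain ⟨z, rfl⟩ := hBlk.span w
      unfold pi
      refine sum_mem fun j _ => ?_
      rw [← divX_mul_X_add (z j), map_add, Matrix.add_mulVec, aeval_C]
      refine add_mem ?_ ?_
      · refine Submodule.mem_sup_left ⟨aeval A (z j).divX *ᵥ v' j, ?_⟩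
        rw [hD, Matrix.toLin'_apply, Matrix.mulVec_mulVec, mul_comm (z j).divX, map_mul, aeval_X]
      · refine Submodule.mem_sup_right ?_
        have h5 : (algebraMap k (Matrix (Fin N) (Fin N) k)) ((z j).coeff 0) *ᵥ v' j =
            (z j).coeff 0 • v' j := by
          rw [Algebra.algebraMap_eq_smul_one, Matrix.smul_mulVec, Matrix.one_mulVec]
        rw [h5]
        exact Submodule.smul_mem _ _ (Submodule.subset_span ⟨j, rfl⟩)
    have h6 := Submodule.finrank_mono htop
    rw [finrank_top, Module.finrank_fin_fun] at h6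
    have h7 := Submodule.finrank_add_le_finrank_add_finrank (LinearMap.range D)
      (Submodule.span k (Set.range v'))
    have h8 := finrank_range_le_card (R := k) v'
    rw [Fintype.card_fin] at h8
    have h9 : (Set.range v').finrank k = Module.finrank k (Submodule.span k (Set.range v')) := rfl
    omega
  omega

/-- the vectors with components in `X` at the indices `≤ t` -/
def U (A : Matrix (Fin N) (Fin N) k) (v : Fin r → Fin N → k) (t : Fin r) (x : Fin N → k) : Prop :=
  ∃ z, x = pi A v z ∧ ∀ i, i ≤ t → X ∣ z i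

theorem u_pi (h : BlkB A v a) (hpos : ∀ j, 0 < a j) (t : Fin r) (z : Fin r → k[X]) :
    U A v t (pi A v z) ↔ ∀ i, i ≤ t → X ∣ z i := by
  constructor
  · rintro ⟨z', h1, h2⟩ i hi
    have h3 : pi A v (z - z') = 0 := by rw [pi_sub, h1, sub_self]
    have h4 := (pi_eq_zero h _).1 h3 i
    have h5 : X ∣ z i - z' i := (dvd_pow_self X (hpos i).ne').trans h4
    have h6 := dvd_add h5 (h2 i hi)
    rwa [sub_add_cancel] at h6
  · intro h1
    exact ⟨z, rfl, h1⟩

theorem U.add {t : Fin r} {x y : Fin N → k} (hx : U A v t x) (hy : U A v t y) :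
    U A v t (x + y) := by
  obtain ⟨z, rfl, h1⟩ := hx
  obtain ⟨z', rfl, h2⟩ := hy
  exact ⟨z + z', (pi_add z z').symm, fun i hi => dvd_add (h1 i hi) (h2 i hi)⟩

theorem U.sub {t : Fin r} {x y : Fin N → k} (hx : U A v t x) (hy : U A v t y) :
    U A v t (x - y) := by
  obtain ⟨z, rfl, h1⟩ := hx
  obtain ⟨z', rfl, h2⟩ := hy
  exact ⟨z - z', (pi_sub z z').symm, fun i hi => dvd_sub (h1 i hi) (h2 i hi)⟩

theorem U.congr {v' : Fin r → Fin N → k} {t : Fin r} {x : Fin N → k} (hv : ∀ i, t < i → v i = v' i)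
    (h : BlkB A v' a) (hx : U A v t x) : U A v' t x := by
  obtain ⟨z, rfl, h1⟩ := hx
  -- the part at the indices > t, and a multiple of A
  have h2 : ∀ i, ∃ w, aeval A (z i) *ᵥ v i = pi A v' w ∧ ∀ j, j ≤ t → X ∣ w j := by
    intro i
    rcases le_or_gt i t with hi | hi
    · obtain ⟨q, hq⟩ := h1 i hi
      obtain ⟨w, hw⟩ := h.span (aeval A q *ᵥ v i)
      refine ⟨(X : k[X]) • w, ?_, fun j _ => ?_⟩
      · rw [pi_smul, ← hw, hq, map_mul, ← Matrix.mulVec_mulVec]
      · exact dvd_mul_right _ _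
    · refine ⟨Pi.single i (z i), ?_, fun j hj => ?_⟩
      · rw [pi_single, hv i hi]
      · rw [Pi.single_eq_of_ne (by rintro rfl; exact absurd hi (not_lt.2 hj))]
        exact dvd_zero _
  choose w hw hw' using h2
  refine ⟨∑ i, w i, ?_, fun j hj => ?_⟩
  · have e2 : ∀ s : Finset (Fin r), pi A v' (∑ j ∈ s, w j) = ∑ j ∈ s, pi A v' (w j) := by
      classical
      intro s
      induction s using Finset.induction_on with
      | empty => rw [Finset.sum_empty, Finset.sum_empty, pi_zero]
      | insert j s hj ih => rw [Finset.sum_insert hj, Finset.sum_insert hj, pi_add, ih]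
    rw [e2]
    show ∑ i, aeval A (z i) *ᵥ v i = _
    exact Finset.sum_congr rfl fun i _ => hw i
  · rw [Finset.sum_apply]
    exact Finset.dvd_sum fun i _ => hw' i j hj

theorem U.map (h : BlkB A v a) (hpos : ∀ j, 0 < a j) {B : Matrix (Fin N) (Fin N) k}
    (hAB : A * B = B * A) {t : Fin r} (hC : ∀ j, t < j → U A v j (B *ᵥ v j)) {x : Fin N → k}
    (hx : U A v t x) : U A v t (B *ᵥ x) := by
  obtain ⟨P, hP, -⟩ := rep_of_comm h hAB
  obtain ⟨z, rfl, h1⟩ := hx
  refine ⟨P *ᵥ z, hP z, fun i hi => ?_⟩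
  show X ∣ ∑ j, P i j * z j
  refine Finset.dvd_sum fun j _ => ?_
  rcases le_or_gt j t with hj | hj
  · exact (h1 j hj).mul_left _
  · have h2 := hC j hj
    rw [hP.apply_v, u_pi h hpos] at h2
    exact (h2 i (hi.trans hj.le)).mul_right _

/-- combinations of the generators of indices `≤ t` and of the same size as `v t` -/
def E (v : Fin r → Fin N → k) (a : Fin r → ℕ) (t : Fin r) (x : Fin N → k) : Prop :=
  ∃ w : Fin r → k, x = ∑ i, w i • v i ∧ ∀ i, w i ≠ 0 → i ≤ t ∧ a i = a t

theorem pi_C (w : Fin r → k) : pi A v (fun i => C (w i)) = ∑ i, w i • v i := by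
  unfold pi
  refine Finset.sum_congr rfl fun i _ => ?_
  rw [aeval_C, Algebra.algebraMap_eq_smul_one, Matrix.smul_mulVec, Matrix.one_mulVec]

theorem E.map (h : BlkB A v a) (hanti : Antitone a)
    {B : Matrix (Fin N) (Fin N) k} (hAB : A * B = B * A) {t : Fin r} {x : Fin N → k}
    (hx : E v a t x) : ∃ x', E v a t x' ∧ U A v t (B *ᵥ x - x') := by
  classical
  obtain ⟨P, hP, hPd⟩ := rep_of_comm h hAB
  obtain ⟨w, rfl, h1⟩ := hx
  set q : Fin r → k[X] := P *ᵥ (fun i => C (w i)) with hq
  have hB : B *ᵥ (∑ i, w i • v i) = pi A v q := by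
    rw [← pi_C (A := A)]
    exact hP _
  let w' : Fin r → k := fun j => if j ≤ t ∧ a j = a t then (q j).coeff 0 else 0
  refine ⟨∑ i, w' i • v i, ⟨w', rfl, fun i hi => ?_⟩, ?_⟩
  · by_contra h2
    exact hi (if_neg h2)
  · rw [hB, ← pi_C (A := A) w', ← pi_sub]
    refine ⟨_, rfl, fun i hi => ?_⟩
    show X ∣ q i - C (w' i)
    by_cases h2 : a i = a t
    · have h3 : w' i = (q i).coeff 0 := if_pos ⟨hi, h2⟩
      rw [h3, X_dvd_iff, coeff_sub, coeff_C_zero, sub_self]
    · have h3 : w' i = 0 := if_neg fun h4 => h2 h4.2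
      rw [h3, C_0, sub_zero]
      show X ∣ ∑ j, P i j * C (w j)
      refine Finset.dvd_sum fun j _ => ?_
      by_cases h4 : w j = 0
      · rw [h4, C_0, mul_zero]
        exact dvd_zero _
      · obtain ⟨h5, h6⟩ := h1 j h4
        have h7 : a t < a i := lt_of_le_of_ne (hanti hi) (Ne.symm h2)
        have h8 := hPd i j
        rw [h6] at h8
        obtain ⟨d, hd⟩ : ∃ d, a i = (d + 1) + a t := ⟨a i - a t - 1, by omega⟩
        rw [hd, pow_add] at h8
        have h9 := (mul_dvd_mul_iff_right (pow_ne_zero (a t) (X_ne_zero : (X : k[X]) ≠ 0))).1 h8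
        exact ((dvd_pow_self X (Nat.succ_ne_zero d)).trans h9).mul_right _

/-- one step of the adaptation -/
theorem adapt_step (h : BlkB A v a) (hpos : ∀ j, 0 < a j) (hanti : Antitone a)
    {B : Matrix (Fin N) (Fin N) k} (hAB : A * B = B * A) (hB : IsNilpotent B) (t : Fin r)
    (hC : ∀ j, t < j → U A v j (B *ᵥ v j)) :
    ∃ v' : Fin r → Fin N → k, BlkB A v' a ∧ ∀ j, t ≤ j → U A v' j (B *ᵥ v' j) := by
  classical
  -- the vector W
  obtain ⟨W, hWE, hWU, hBW⟩ : ∃ W, E v a t W ∧ ¬ U A v t W ∧ U A v t (B *ᵥ W) := by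
    by_contra hcon
    push Not at hcon
    have key : ∀ n : ℕ, ∃ x, E v a t x ∧ ¬ U A v t x ∧ U A v t (B ^ n *ᵥ v t - x) := by
      intro n
      induction n with
      | zero =>
        refine ⟨v t, ⟨Pi.single t 1, ?_, fun i hi => ?_⟩, ?_, ?_⟩
        · rw [Finset.sum_eq_single_of_mem t (Finset.mem_univ t), Pi.single_eq_same, one_smul]
          intro i _ hi
          rw [Pi.single_eq_of_ne hi, zero_smul]
        · have : i = t := by
            by_contra hne
            exact hi (Pi.single_eq_of_ne hne 1)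
          exact ⟨this.le, by rw [this]⟩
        · rw [← pi_single_one (A := A) (v := v) t, u_pi h hpos]
          intro h1
          have h2 := h1 t le_rfl
          rw [Pi.single_eq_same] at h2
          exact Polynomial.not_isUnit_X (isUnit_of_dvd_one h2)
        · rw [pow_zero, Matrix.one_mulVec, sub_self]
          exact ⟨0, pi_zero.symm, fun i _ => dvd_zero _⟩
      | succ n ih =>
        obtain ⟨x, hx1, hx2, hx3⟩ := ih
        obtain ⟨x', hx1', hx3'⟩ := hx1.map h hanti hAB
        have h1 := hcon x hx1 hx2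
        refine ⟨x', hx1', fun h2 => h1 ?_, ?_⟩
        · have h3 := hx3'.add h2
          rwa [sub_add_cancel] at h3
        · have h3 := (U.map h hpos hAB hC hx3).add hx3'
          rw [Matrix.mulVec_sub, Matrix.mulVec_mulVec, ← pow_succ'] at h3
          rwa [sub_add_sub_cancel] at h3
    obtain ⟨e, he⟩ := hB
    obtain ⟨x, -, hx2, hx3⟩ := key e
    apply hx2
    rw [he, Matrix.zero_mulVec] at hx3
    have h1 : U A v t 0 := ⟨0, pi_zero.symm, fun i _ => dvd_zero _⟩
    have h2 := h1.sub hx3
    rwa [sub_sub_cancel] at h2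
  obtain ⟨w, rfl, hw⟩ := hWE
  obtain ⟨i₀, hi₀⟩ : ∃ i, w i ≠ 0 := by
    by_contra h1
    push Not at h1
    apply hWU
    rw [Finset.sum_eq_zero fun i _ => by rw [h1 i, zero_smul]]
    exact ⟨0, pi_zero.symm, fun i _ => dvd_zero _⟩
  obtain ⟨hi₀t, hai₀⟩ := hw i₀ hi₀
  set W := ∑ i, w i • v i with hW
  let v' : Fin r → Fin N → k := fun j => if j = t then W else if j = i₀ then v t else v j
  have hv't : v' t = W := if_pos rfl
  have hv'gt : ∀ j, t < j → v' j = v j := by
    intro j hj
    show (if j = t then W else if j = i₀ then v t else v j) = v j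
    rw [if_neg hj.ne', if_neg (fun h1 : j = i₀ => absurd (h1.le.trans hi₀t) (not_le.2 hj))]
  have hBlk : BlkB A v' a := by
    refine ⟨h.card, fun j => ?_, ?_⟩
    · show A ^ a j *ᵥ (if j = t then W else if j = i₀ then v t else v j) = 0
      by_cases h1 : j = t
      · rw [if_pos h1, hW, Matrix.mulVec_sum]
        refine Finset.sum_eq_zero fun i _ => ?_
        by_cases h2 : w i = 0
        · rw [h2, zero_smul, Matrix.mulVec_zero]
        · rw [Matrix.mulVec_smul, h1, ← (hw i h2).2, h.hv, smul_zero]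
      · rw [if_neg h1]
        by_cases h2 : j = i₀
        · rw [if_pos h2, h2, hai₀]
          exact h.hv t
        · rw [if_neg h2]
          exact h.hv j
    · -- spanning
      let S : Submodule k (Fin N → k) :=
        { carrier := {x | ∃ z, x = pi A v' z}
          zero_mem' := ⟨0, pi_zero.symm⟩
          add_mem' := by
            rintro _ _ ⟨z, rfl⟩ ⟨z', rfl⟩
            exact ⟨z + z', (pi_add z z').symm⟩
          smul_mem' := by
            rintro c _ ⟨z, rfl⟩
            exact ⟨c • z, (pi_csmul c z).symm⟩ }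
      have hS : ∀ (p : k[X]) (x), x ∈ S → aeval A p *ᵥ x ∈ S := by
        rintro p _ ⟨z, rfl⟩
        exact ⟨p • z, (pi_smul p z).symm⟩
      have hS1 : ∀ j, v' j ∈ S := fun j => ⟨Pi.single j 1, (pi_single_one j).symm⟩
      have hS2 : ∀ j, j ≠ i₀ → v j ∈ S := by
        intro j hj
        by_cases h1 : j = t
        · have h2 : v' i₀ = v t := by
            show (if i₀ = t then W else if i₀ = i₀ then v t else v i₀) = v t
            rw [if_neg (fun h3 => hj (h1.trans h3.symm)), if_pos rfl]
          rw [h1, ← h2]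
          exact hS1 i₀
        · have h2 : v' j = v j := by
            show (if j = t then W else if j = i₀ then v t else v j) = v j
            rw [if_neg h1, if_neg hj]
          rw [← h2]
          exact hS1 j
      have hS3 : v i₀ ∈ S := by
        have h1 : w i₀ • v i₀ ∈ S := by
          have h2 : w i₀ • v i₀ = W - ∑ i ∈ Finset.univ.erase i₀, w i • v i := by
            rw [hW, ← Finset.add_sum_erase _ _ (Finset.mem_univ i₀), add_sub_cancel_right]
          rw [h2]
          refine sub_mem ?_ (sum_mem fun i hi => Submodule.smul_mem _ _ (hS2 i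
            (Finset.ne_of_mem_erase hi)))
          rw [← hv't]
          exact hS1 t
        have h2 := S.smul_mem (w i₀)⁻¹ h1
        rwa [smul_smul, inv_mul_cancel₀ hi₀, one_smul] at h2
      intro x
      obtain ⟨z, rfl⟩ := h.span x
      have h3 : pi A v z ∈ S := by
        unfold pi
        refine sum_mem fun j _ => hS _ _ ?_
        by_cases h4 : j = i₀
        · rw [h4]
          exact hS3
        · exact hS2 j h4
      exact h3
  refine ⟨v', hBlk, fun j hj => ?_⟩
  rcases hj.lt_or_eq with h1 | h1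
  · rw [hv'gt j h1]
    exact (hC j h1).congr (fun i hi => (hv'gt i (h1.trans hi)).symm) hBlk
  · rw [← h1, hv't]
    exact hBW.congr (fun i hi => (hv'gt i hi).symm) hBlk

/-- a Jordan basis of `A` adapted to `B` -/
theorem adapt (h : BlkB A v a) (hpos : ∀ j, 0 < a j) (hanti : Antitone a)
    {B : Matrix (Fin N) (Fin N) k} (hAB : A * B = B * A) (hB : IsNilpotent B) :
    ∃ v' : Fin r → Fin N → k, BlkB A v' a ∧ ∃ P, Rep A v' B P ∧
      (∀ i j, X ^ (a i) ∣ P i j * X ^ (a j)) ∧ ∀ i j, i ≤ j → X ∣ P i j := by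
  have key : ∀ n : ℕ, ∃ v' : Fin r → Fin N → k, BlkB A v' a ∧
      ∀ j : Fin r, r ≤ j + n → U A v' j (B *ᵥ v' j) := by
    intro n
    induction n with
    | zero => exact ⟨v, h, fun j hj => absurd j.2 (not_lt.2 hj)⟩
    | succ n ih =>
      obtain ⟨v', h', hC⟩ := ih
      rcases Nat.lt_or_ge n r with hn | hn
      · obtain ⟨v'', h'', hC''⟩ := adapt_step h' hpos hanti hAB hB
          (⟨r - n - 1, by omega⟩ : Fin r) (fun j hj => hC j (by
            have : r - n - 1 < (j : ℕ) := hj
            omega))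
        refine ⟨v'', h'', fun j hj => hC'' j ?_⟩
        show r - n - 1 ≤ (j : ℕ)
        omega
      · exact ⟨v', h', fun j _ => hC j (by omega)⟩
  obtain ⟨v', h', hC⟩ := key r
  obtain ⟨P, hP, hPd⟩ := rep_of_comm h' hAB
  refine ⟨v', h', P, hP, hPd, fun i j hij => ?_⟩
  have h1 := hC j (by omega)
  rw [hP.apply_v, u_pi h' hpos] at h1
  exact h1 i hij

end Blk

end Pool.Agent.Lib.D13.Pl
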