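import Pool.Agent.Lib.D13.PlDefs

/-!
# MP_5dcbc3_ag: planar pairs with three distinct tangent lines: coordinates `X, Y` with
`X Y (X + Y) = 0`
-/

namespace Pool.Agent.Lib.D13.Pl

open Matrix Polynomial Pool.Agent.Lib.Q5dc Pool.Agent.Lib.D7 Pool.Agent.Lib.D8.Two

variable {k : Type*} [Field k] {N : ℕ}

/-! ### Hensel lemma for cubics -/

theorem hensel3 (a2 a1 a0 : k[X]) (t : k)
    (h0 : t ^ 3 - a2.coeff 0 * t ^ 2 + a1.coeff 0 * t - a0.coeff 0 = 0)
    (h1 : 3 * t ^ 2 - 2 * a2.coeff 0 * t + a1.coeff 0 ≠ 0) (M : ℕ) :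
    ∃ b : k[X], b.coeff 0 = t ∧ X ^ M ∣ b ^ 3 - a2 * b ^ 2 + a1 * b - a0 := by
  have key : ∀ M : ℕ, ∃ b : k[X], b.coeff 0 = t ∧
      X ^ (M + 1) ∣ b ^ 3 - a2 * b ^ 2 + a1 * b - a0 := by
    intro M
    induction M with
    | zero =>
      refine ⟨C t, coeff_C_zero, ?_⟩
      rw [zero_add, pow_one, X_dvd_iff]
      simp only [coeff_sub, coeff_add, mul_coeff_zero, ← C_pow, coeff_C_zero]
      exact h0
    | succ M ih =>
      obtain ⟨b, hb, h, hh⟩ := ih
      set D := 3 * t ^ 2 - 2 * a2.coeff 0 * t + a1.coeff 0 with hD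
      refine ⟨b + C (-(h.coeff 0) / D) * X ^ (M + 1), ?_, ?_⟩
      · rw [coeff_add, mul_coeff_zero, coeff_X_pow]
        simp [hb]
      · set e := -(h.coeff 0) / D with he
        have h2 : (b + C e * X ^ (M + 1)) ^ 3 - a2 * (b + C e * X ^ (M + 1)) ^ 2 +
            a1 * (b + C e * X ^ (M + 1)) - a0 =
            X ^ (M + 1) * (h + C e * (3 * b ^ 2 - 2 * a2 * b + a1) +
              C e ^ 2 * X ^ (M + 1) * (3 * b - a2) + C e ^ 3 * X ^ (M + 1) * X ^ (M + 1)) := by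
          linear_combination hh
        rw [h2, pow_succ X (M + 1)]
        refine mul_dvd_mul_left _ ?_
        rw [X_dvd_iff]
        have h3 : ((3 : k[X]).coeff 0 : k) = 3 := by
          have : (3 : k[X]) = C 3 := (map_ofNat C 3).symm
          rw [this, coeff_C_zero]
        have h4 : ((2 : k[X]).coeff 0 : k) = 2 := by
          have : (2 : k[X]) = C 2 := (map_ofNat C 2).symm
          rw [this, coeff_C_zero]
        have h5 : (b ^ 2).coeff 0 = t ^ 2 := by rw [pow_two, mul_coeff_zero, hb, pow_two]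
        have h6 : e * D = -(h.coeff 0) := div_mul_cancel₀ _ h1
        simp only [coeff_add, coeff_sub, mul_coeff_zero, coeff_X_pow, coeff_C_zero, hb, h3, h4, h5,
          Nat.zero_ne_add_one, if_false, mul_zero, add_zero, zero_mul]
        rw [hD] at h6
        linear_combination h6
  obtain ⟨b, h2, h3⟩ := key M
  exact ⟨b, h2, (pow_dvd_pow X (Nat.le_succ M)).trans h3⟩

theorem dvd_of_mul {M : ℕ} {p q : k[X]} (hp : p.coeff 0 ≠ 0) (h : X ^ M ∣ p * q) : X ^ M ∣ q := by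
  have h1 : IsCoprime (X ^ M : k[X]) p := by
    refine IsCoprime.pow_left ?_
    rw [Polynomial.irreducible_X.coprime_iff_not_dvd, X_dvd_iff]
    exact hp
  exact h1.dvd_of_dvd_mul_left h

/-- factorisation of a cubic polynomial with distinct roots modulo `x` -/
theorem factor3 (a2 a1 a0 : k[X]) (t0 t1 t2 : k)
    (hr : (X ^ 3 - C (a2.eval 0) * X ^ 2 + C (a1.eval 0) * X - C (a0.eval 0) : k[X]) =
      (X - C t0) * (X - C t1) * (X - C t2))
    (h01 : t0 ≠ t1) (h02 : t0 ≠ t2) (h12 : t1 ≠ t2) (M : ℕ) :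
    ∃ b0 b1 b2 : k[X], b0.coeff 0 = t0 ∧ b1.coeff 0 = t1 ∧ b2.coeff 0 = t2 ∧
      X ^ M ∣ a2 - (b0 + b1 + b2) ∧ X ^ M ∣ a1 - (b0 * b1 + b0 * b2 + b1 * b2) ∧
      X ^ M ∣ a0 - b0 * b1 * b2 := by
  have hev : ∀ t : k, t ^ 3 - a2.coeff 0 * t ^ 2 + a1.coeff 0 * t - a0.coeff 0 =
      (t - t0) * (t - t1) * (t - t2) := by
    intro t
    have h := congrArg (eval t) hr
    simp only [eval_sub, eval_add, eval_mul, eval_pow, eval_X, eval_C] at h
    rw [coeff_zero_eq_eval_zero, coeff_zero_eq_eval_zero, coeff_zero_eq_eval_zero]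
    exact h
  have hde : ∀ t : k, 3 * t ^ 2 - 2 * a2.coeff 0 * t + a1.coeff 0 =
      (t - t1) * (t - t2) + (t - t0) * (t - t2) + (t - t0) * (t - t1) := by
    intro t
    have h := congrArg (fun p => eval t (derivative p)) hr
    simp only [derivative_sub, derivative_add, derivative_mul, derivative_pow, derivative_X,
      derivative_C, eval_sub, eval_add, eval_mul, eval_pow, eval_X, eval_C, eval_one, eval_zero,
      Nat.cast_ofNat, eval_natCast, eval_ofNat] at h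
    rw [coeff_zero_eq_eval_zero, coeff_zero_eq_eval_zero]
    linear_combination h
  obtain ⟨b0, c0, d0⟩ := hensel3 a2 a1 a0 t0 (by rw [hev]; ring) (by
    rw [hde]
    have : (t0 - t1) * (t0 - t2) ≠ 0 := mul_ne_zero (sub_ne_zero.2 h01) (sub_ne_zero.2 h02)
    intro h
    apply this
    linear_combination h) M
  obtain ⟨b1, c1, d1⟩ := hensel3 a2 a1 a0 t1 (by rw [hev]; ring) (by
    rw [hde]
    have : (t1 - t0) * (t1 - t2) ≠ 0 :=
      mul_ne_zero (sub_ne_zero.2 h01.symm) (sub_ne_zero.2 h12)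
    intro h
    apply this
    linear_combination h) M
  obtain ⟨b2, c2, d2⟩ := hensel3 a2 a1 a0 t2 (by rw [hev]; ring) (by
    rw [hde]
    have : (t2 - t0) * (t2 - t1) ≠ 0 :=
      mul_ne_zero (sub_ne_zero.2 h02.symm) (sub_ne_zero.2 h12.symm)
    intro h
    apply this
    linear_combination h) M
  have e01 : (b0 - b1).coeff 0 ≠ 0 := by rw [coeff_sub, c0, c1]; exact sub_ne_zero.2 h01
  have e02 : (b0 - b2).coeff 0 ≠ 0 := by rw [coeff_sub, c0, c2]; exact sub_ne_zero.2 h02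
  have e12 : (b1 - b2).coeff 0 ≠ 0 := by rw [coeff_sub, c1, c2]; exact sub_ne_zero.2 h12
  have g01 : X ^ M ∣ b0 ^ 2 + b0 * b1 + b1 ^ 2 - a2 * (b0 + b1) + a1 := by
    refine dvd_of_mul e01 ?_
    have h := dvd_sub d0 d1
    have h' : (b0 - b1) * (b0 ^ 2 + b0 * b1 + b1 ^ 2 - a2 * (b0 + b1) + a1) =
        b0 ^ 3 - a2 * b0 ^ 2 + a1 * b0 - a0 - (b1 ^ 3 - a2 * b1 ^ 2 + a1 * b1 - a0) := by ring
    rw [h']
    exact h
  have g02 : X ^ M ∣ b0 ^ 2 + b0 * b2 + b2 ^ 2 - a2 * (b0 + b2) + a1 := by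
    refine dvd_of_mul e02 ?_
    have h := dvd_sub d0 d2
    have h' : (b0 - b2) * (b0 ^ 2 + b0 * b2 + b2 ^ 2 - a2 * (b0 + b2) + a1) =
        b0 ^ 3 - a2 * b0 ^ 2 + a1 * b0 - a0 - (b2 ^ 3 - a2 * b2 ^ 2 + a1 * b2 - a0) := by ring
    rw [h']
    exact h
  have s2 : X ^ M ∣ a2 - (b0 + b1 + b2) := by
    refine dvd_of_mul e12 ?_
    have h := dvd_sub g02 g01
    have h' : (b1 - b2) * (a2 - (b0 + b1 + b2)) =
        b0 ^ 2 + b0 * b2 + b2 ^ 2 - a2 * (b0 + b2) + a1 -
          (b0 ^ 2 + b0 * b1 + b1 ^ 2 - a2 * (b0 + b1) + a1) := by ring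
    rw [h']
    exact h
  have s1 : X ^ M ∣ a1 - (b0 * b1 + b0 * b2 + b1 * b2) := by
    have h := dvd_add g01 (Dvd.dvd.mul_right s2 (b0 + b1))
    have h' : a1 - (b0 * b1 + b0 * b2 + b1 * b2) =
        b0 ^ 2 + b0 * b1 + b1 ^ 2 - a2 * (b0 + b1) + a1 +
          (a2 - (b0 + b1 + b2)) * (b0 + b1) := by ring
    rw [h']
    exact h
  have s0 : X ^ M ∣ a0 - b0 * b1 * b2 := by
    have h := dvd_sub (dvd_sub (Dvd.dvd.mul_right s1 b0) (Dvd.dvd.mul_right s2 (b0 ^ 2))) d0
    have h' : a0 - b0 * b1 * b2 =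
        (a1 - (b0 * b1 + b0 * b2 + b1 * b2)) * b0 - (a2 - (b0 + b1 + b2)) * b0 ^ 2 -
          (b0 ^ 3 - a2 * b0 ^ 2 + a1 * b0 - a0) := by ring
    rw [h']
    exact h
  exact ⟨b0, b1, b2, c0, c1, c2, s2, s1, s0⟩

/-! ### cyclic vectors and changes of generators -/

theorem cyc_of_adj {A B X Y : Matrix (Fin N) (Fin N) k} {v : Fin N → k} (hXY : X * Y = Y * X)
    (hA : A ∈ adj ![X, Y, 0]) (hB : B ∈ adj ![X, Y, 0]) (h : Cyc A B v) : Cyc X Y v := by
  unfold Cyc at h ⊢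
  set W := Submodule.span k (Set.range fun p : ℕ × ℕ => (X ^ p.1 * Y ^ p.2) *ᵥ v) with hW
  have hX : ∀ w ∈ W, X *ᵥ w ∈ W := by
    intro w hw
    induction hw using Submodule.span_induction with
    | mem x hx =>
      obtain ⟨p, rfl⟩ := hx
      refine Submodule.subset_span ⟨(p.1 + 1, p.2), ?_⟩
      show (X ^ (p.1 + 1) * Y ^ p.2) *ᵥ v = X *ᵥ ((X ^ p.1 * Y ^ p.2) *ᵥ v)
      rw [Matrix.mulVec_mulVec, pow_succ', mul_assoc]
    | zero => rw [Matrix.mulVec_zero]; exact zero_mem _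
    | add x y _ _ hx hy => rw [Matrix.mulVec_add]; exact add_mem hx hy
    | smul r x _ hx => rw [Matrix.mulVec_smul]; exact Submodule.smul_mem _ _ hx
  have hY : ∀ w ∈ W, Y *ᵥ w ∈ W := by
    intro w hw
    induction hw using Submodule.span_induction with
    | mem x hx =>
      obtain ⟨p, rfl⟩ := hx
      refine Submodule.subset_span ⟨(p.1, p.2 + 1), ?_⟩
      show (X ^ p.1 * Y ^ (p.2 + 1)) *ᵥ v = Y *ᵥ ((X ^ p.1 * Y ^ p.2) *ᵥ v)
      have hc : Commute X Y := hXY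
      rw [Matrix.mulVec_mulVec, pow_succ', ← mul_assoc, ← mul_assoc, (hc.pow_left p.1).eq]
    | zero => rw [Matrix.mulVec_zero]; exact zero_mem _
    | add x y _ _ hx hy => rw [Matrix.mulVec_add]; exact add_mem hx hy
    | smul r x _ hx => rw [Matrix.mulVec_smul]; exact Submodule.smul_mem _ _ hx
  have hadj : ∀ M ∈ adj ![X, Y, 0], ∀ w ∈ W, M *ᵥ w ∈ W := by
    intro M hM
    refine adj_induction (p := fun M => ∀ w ∈ W, M *ᵥ w ∈ W) (fun i => ?_) ?_ ?_ ?_ ?_ hM
    · fin_cases i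
      · exact hX
      · exact hY
      · intro w _
        show (0 : Matrix (Fin N) (Fin N) k) *ᵥ w ∈ W
        rw [Matrix.zero_mulVec]
        exact zero_mem _
    · intro w _
      rw [Matrix.zero_mulVec]
      exact zero_mem _
    · intro x _ y _ hx hy w hw
      rw [Matrix.add_mulVec]
      exact add_mem (hx w hw) (hy w hw)
    · intro x _ y _ hx hy w hw
      rw [← Matrix.mulVec_mulVec]
      exact hx _ (hy w hw)
    · intro r x _ hx w hw
      rw [Matrix.smul_mulVec]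
      exact Submodule.smul_mem _ _ (hx w hw)
  have hpow : ∀ M ∈ adj ![X, Y, 0], ∀ (i : ℕ), ∀ w ∈ W, M ^ i *ᵥ w ∈ W := by
    intro M hM i
    induction i with
    | zero => intro w hw; rw [pow_zero, Matrix.one_mulVec]; exact hw
    | succ i ih =>
      intro w hw
      rw [pow_succ', ← Matrix.mulVec_mulVec]
      exact hadj M hM _ (ih w hw)
  have hv : v ∈ W := Submodule.subset_span ⟨(0, 0), by simp⟩
  rw [eq_top_iff, ← h, Submodule.span_le]
  rintro _ ⟨p, rfl⟩
  show (A ^ p.1 * B ^ p.2) *ᵥ v ∈ W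
  rw [← Matrix.mulVec_mulVec]
  exact hpow A hA _ _ (hpow B hB _ _ hv)

theorem cyc_transpose {X Y : Matrix (Fin N) (Fin N) k} {ψ : Fin N → k} (hXY : X * Y = Y * X) :
    CoCyc X Y ψ ↔ Cyc Xᵀ Yᵀ ψ := by
  unfold CoCyc Cyc
  have h : (fun p : ℕ × ℕ => ψ ᵥ* (X ^ p.1 * Y ^ p.2)) =
      fun p : ℕ × ℕ => (Xᵀ ^ p.1 * Yᵀ ^ p.2) *ᵥ ψ := by
    funext p
    have hc : Commute X Y := hXY
    rw [← Matrix.transpose_pow, ← Matrix.transpose_pow, ← Matrix.transpose_mul,
      Matrix.mulVec_transpose, ((hc.pow_left p.1).pow_right p.2).eq]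
  rw [h]

theorem cocyc_of_adj {A B X Y : Matrix (Fin N) (Fin N) k} {ψ : Fin N → k} (hXY : X * Y = Y * X)
    (hAB : A * B = B * A)
    (hA : A ∈ adj ![X, Y, 0]) (hB : B ∈ adj ![X, Y, 0]) (h : CoCyc A B ψ) : CoCyc X Y ψ := by
  rw [cyc_transpose hAB] at h
  rw [cyc_transpose hXY]
  have ht : (fun i => (![X, Y, 0] i)ᵀ) = ![Xᵀ, Yᵀ, (0 : Matrix (Fin N) (Fin N) k)] := by
    funext i
    fin_cases i
    · rfl
    · rfl
    · exact Matrix.transpose_zero
  have hA' := mem_adj_transpose hA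
  have hB' := mem_adj_transpose hB
  rw [ht] at hA' hB'
  refine cyc_of_adj ?_ hA' hB' h
  rw [← Matrix.transpose_mul, ← Matrix.transpose_mul, hXY]

/-! ### the coordinates -/

theorem aeval_split (A : Matrix (Fin N) (Fin N) k) (b : k[X]) :
    aeval A b = b.coeff 0 • 1 + aeval A (b - C (b.coeff 0)) := by
  rw [map_sub, aeval_C, Algebra.algebraMap_eq_smul_one]
  abel

theorem X_dvd_sub (b : k[X]) : X ∣ b - C (b.coeff 0) := by
  rw [X_dvd_iff, coeff_sub, coeff_C_zero, sub_self]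

/-- congruence of `a(A) (B - A b(A))` with its linear part -/
theorem lin_part {A B : Matrix (Fin N) (Fin N) k} (a b : k[X]) :
    aeval A a * (B - A * aeval A b) - a.coeff 0 • (B - b.coeff 0 • A) ∈
      Submodule.span k {M : Matrix (Fin N) (Fin N) k |
        ∃ P ∈ adj ![A, B, 0], ∃ Q ∈ adj ![A, B, 0], M = P * Q} := by
  have mA : A ∈ adj ![A, B, 0] := mem_adj ![A, B, 0] 0
  have mB : B ∈ adj ![A, B, 0] := mem_adj ![A, B, 0] 1
  have ma : aeval A (a - C (a.coeff 0)) ∈ adj ![A, B, 0] := aeval_mem mA _ (X_dvd_sub a)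
  have mb : aeval A (b - C (b.coeff 0)) ∈ adj ![A, B, 0] := aeval_mem mA _ (X_dvd_sub b)
  set Ra := aeval A (a - C (a.coeff 0)) with hRa
  set Rb := aeval A (b - C (b.coeff 0)) with hRb
  have mL : B - A * aeval A b ∈ adj ![A, B, 0] := by
    refine sub_mem mB ?_
    rw [aeval_split A b, mul_add, mul_smul_comm, mul_one]
    exact add_mem (SMulMemClass.smul_mem _ mA) (mul_mem mA mb)
  have e1 : aeval A a * (B - A * aeval A b) - a.coeff 0 • (B - b.coeff 0 • A) =
      Ra * (B - A * aeval A b) - a.coeff 0 • (A * Rb) := by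
    have h1 : aeval A a = a.coeff 0 • 1 + Ra := aeval_split A a
    have h2 : B - A * aeval A b = B - b.coeff 0 • A - A * Rb := by
      rw [aeval_split A b, mul_add, mul_smul_comm, mul_one]
      abel
    rw [h1, add_mul, smul_mul_assoc, one_mul]
    conv_lhs => rw [h2]
    rw [h2, smul_sub (a.coeff 0) (B - b.coeff 0 • A)]
    abel
  rw [e1]
  refine sub_mem (Submodule.subset_span ⟨Ra, ma, _, mL, rfl⟩) (Submodule.smul_mem _ _ ?_)
  exact Submodule.subset_span ⟨A, mA, Rb, mb, rfl⟩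

theorem good_lines {A B : Matrix (Fin N) (Fin N) k} {v ψ : Fin N → k} {a0 a1 a2 : k[X]}
    {t0 t1 t2 : k} (h : Good A B v ψ a0 a1 a2 t0 t1 t2) :
    ∃ X Y : Matrix (Fin N) (Fin N) k, X ∈ adj ![A, B, 0] ∧ Y ∈ adj ![A, B, 0] ∧
      A ∈ adj ![X, Y, 0] ∧ B ∈ adj ![X, Y, 0] ∧ Lines X Y v ψ := by
  obtain ⟨b0, b1, b2, c0, c1, c2, s2, s1, s0⟩ :=
    factor3 a2 a1 a0 t0 t1 t2 h.roots h.ne01 h.ne02 h.ne12 N
  have hc : Commute A B := h.comm
  have hAN : A ^ N = 0 := by
    have := pow_card_eq_zero h.nilA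
    rwa [Fintype.card_fin] at this
  have hev : ∀ p q : k[X], X ^ N ∣ p - q → aeval A p = aeval A q := by
    rintro p q ⟨r, hr⟩
    have h1 := congrArg (aeval A) hr
    rw [map_sub, map_mul, map_pow, aeval_X, hAN, zero_mul] at h1
    exact sub_eq_zero.1 h1
  have hT : CN ![A, B, 0] := by
    refine ⟨fun i j => ?_, fun i => ?_⟩
    · fin_cases i <;> fin_cases j <;> simp [h.comm]
    · fin_cases i
      · exact h.nilA
      · exact h.nilB
      · exact IsNilpotent.zero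
  have mA : A ∈ adj ![A, B, 0] := mem_adj ![A, B, 0] 0
  have mB : B ∈ adj ![A, B, 0] := mem_adj ![A, B, 0] 1
  have hcp : ∀ p q : k[X], aeval A p * aeval A q = aeval A q * aeval A p := by
    intro p q
    rw [← map_mul, ← map_mul, mul_comm]
  have hcA : ∀ p : k[X], A * aeval A p = aeval A p * A := by
    intro p
    have h1 := hcp X p
    rwa [aeval_X] at h1
  have hcB : ∀ p : k[X], Commute B (aeval A p) := by
    intro p
    rw [aeval_eq_sum_range]
    refine Commute.sum_right _ _ _ fun i _ => ?_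
    exact (hc.symm.pow_right i).smul_right _
  have mL : ∀ b : k[X], B - A * aeval A b ∈ adj ![A, B, 0] := by
    intro b
    refine sub_mem mB ?_
    rw [aeval_split A b, mul_add, mul_smul_comm, mul_one]
    exact add_mem (SMulMemClass.smul_mem _ mA) (mul_mem mA (aeval_mem mA _ (X_dvd_sub b)))
  have mX : ∀ a b : k[X], aeval A a * (B - A * aeval A b) ∈ adj ![A, B, 0] := by
    intro a b
    exact aeval_mul_mem mA (mL b) a
  set L0 := B - A * aeval A b0 with hL0
  set L1 := B - A * aeval A b1 with hL1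
  set L2 := B - A * aeval A b2 with hL2
  -- the product of the three lines
  have hL : L0 * L1 * L2 = 0 := by
    have e2 : aeval A a2 = aeval A (b0 + b1 + b2) := hev _ _ s2
    have e1 : aeval A a1 = aeval A (b0 * b1 + b0 * b2 + b1 * b2) := hev _ _ s1
    have e0 : aeval A a0 = aeval A (b0 * b1 * b2) := hev _ _ s0
    have hrel := h.rel
    rw [e2, e1, e0] at hrel
    simp only [map_add, map_mul] at hrel
    rw [← hrel, hL0, hL1, hL2]
    generalize hβ0 : aeval A b0 = β0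
    generalize hβ1 : aeval A b1 = β1
    generalize hβ2 : aeval A b2 = β2
    have k0 : B * A = A * B := h.comm.symm
    have k1 : β0 * A = A * β0 := by rw [← hβ0]; exact (hcA b0).symm
    have k2 : β1 * A = A * β1 := by rw [← hβ1]; exact (hcA b1).symm
    have k3 : β2 * A = A * β2 := by rw [← hβ2]; exact (hcA b2).symm
    have k4 : B * β0 = β0 * B := by rw [← hβ0]; exact hcB b0
    have k5 : B * β1 = β1 * B := by rw [← hβ1]; exact hcB b1
    have k6 : B * β2 = β2 * B := by rw [← hβ2]; exact hcB b2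
    have k7 : β1 * β0 = β0 * β1 := by rw [← hβ0, ← hβ1]; exact hcp b1 b0
    have k8 : β2 * β0 = β0 * β2 := by rw [← hβ0, ← hβ2]; exact hcp b2 b0
    have k9 : β2 * β1 = β1 * β2 := by rw [← hβ1, ← hβ2]; exact hcp b2 b1
    have r0 : ∀ M, B * (A * M) = A * (B * M) := fun M => by rw [← mul_assoc, k0, mul_assoc]
    have r1 : ∀ M, β0 * (A * M) = A * (β0 * M) := fun M => by rw [← mul_assoc, k1, mul_assoc]
    have r2 : ∀ M, β1 * (A * M) = A * (β1 * M) := fun M => by rw [← mul_assoc, k2, mul_assoc]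
    have r3 : ∀ M, β2 * (A * M) = A * (β2 * M) := fun M => by rw [← mul_assoc, k3, mul_assoc]
    have r4 : ∀ M, B * (β0 * M) = β0 * (B * M) := fun M => by rw [← mul_assoc, k4, mul_assoc]
    have r5 : ∀ M, B * (β1 * M) = β1 * (B * M) := fun M => by rw [← mul_assoc, k5, mul_assoc]
    have r6 : ∀ M, B * (β2 * M) = β2 * (B * M) := fun M => by rw [← mul_assoc, k6, mul_assoc]
    have r7 : ∀ M, β1 * (β0 * M) = β0 * (β1 * M) := fun M => by rw [← mul_assoc, k7, mul_assoc]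
    have r8 : ∀ M, β2 * (β0 * M) = β0 * (β2 * M) := fun M => by rw [← mul_assoc, k8, mul_assoc]
    have r9 : ∀ M, β2 * (β1 * M) = β1 * (β2 * M) := fun M => by rw [← mul_assoc, k9, mul_assoc]
    simp only [pow_succ, pow_zero, one_mul, mul_add, add_mul, mul_sub, sub_mul, mul_assoc,
      k5, k6, r0, r1, r2, r6]
    abel
  -- the coordinates
  set X' := aeval A (b1 - b2) * L0 with hX
  set Y' := aeval A (b2 - b0) * L1 with hY
  have hsum : X' + Y' = -(aeval A (b0 - b1) * L2) := by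
    rw [hX, hY, hL0, hL1, hL2]
    simp only [map_sub, sub_mul, mul_sub]
    have q0 : ∀ p q : k[X], aeval A p * (A * aeval A q) = A * (aeval A p * aeval A q) := by
      intro p q
      rw [← mul_assoc, ← hcA, mul_assoc]
    rw [q0, q0, q0, q0, q0, q0, hcp b1 b0, hcp b2 b0, hcp b2 b1]
    abel
  have m1 : X' ∈ adj ![A, B, 0] := mX _ _
  have m2 : Y' ∈ adj ![A, B, 0] := mX _ _
  have hXY : X' * Y' = Y' * X' := hT.comm m1 m2
  have hrel : X' * Y' * (X' + Y') = 0 := by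
    rw [hsum, hX, hY]
    have cB : ∀ p b : k[X], aeval A p * (B - A * aeval A b) = (B - A * aeval A b) * aeval A p := by
      intro p b
      rw [mul_sub, sub_mul, (hcB p).eq, ← mul_assoc, ← hcA, mul_assoc, mul_assoc, hcp]
    have e : aeval A (b1 - b2) * L0 * (aeval A (b2 - b0) * L1) * -(aeval A (b0 - b1) * L2) =
        -(aeval A (b1 - b2) * aeval A (b2 - b0) * aeval A (b0 - b1) * (L0 * L1 * L2)) := by
      rw [mul_neg]
      congr 1
      have w1 : L0 * (aeval A (b2 - b0) * L1) = aeval A (b2 - b0) * (L0 * L1) := by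
        rw [← mul_assoc, ← cB, mul_assoc]
      have w2 : L0 * L1 * (aeval A (b0 - b1) * L2) = aeval A (b0 - b1) * (L0 * L1 * L2) := by
        rw [mul_assoc L0 L1, ← mul_assoc L1 _ L2, ← cB, mul_assoc _ L1 L2, ← mul_assoc L0,
          ← cB, mul_assoc, mul_assoc]
      calc aeval A (b1 - b2) * L0 * (aeval A (b2 - b0) * L1) * (aeval A (b0 - b1) * L2)
          = aeval A (b1 - b2) * (L0 * (aeval A (b2 - b0) * L1)) * (aeval A (b0 - b1) * L2) := by
            simp only [mul_assoc]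
        _ = aeval A (b1 - b2) * (aeval A (b2 - b0) * (L0 * L1)) * (aeval A (b0 - b1) * L2) := by
            rw [w1]
        _ = aeval A (b1 - b2) * (aeval A (b2 - b0) * (L0 * L1 * (aeval A (b0 - b1) * L2))) := by
            simp only [mul_assoc]
        _ = _ := by rw [w2]; simp only [mul_assoc]
    rw [e, hL, mul_zero, neg_zero]
  -- `A` and `B` are polynomials in `X'`, `Y'`
  have hd0 : (b1 - b2).coeff 0 = t1 - t2 := by rw [coeff_sub, c1, c2]
  have hd1 : (b2 - b0).coeff 0 = t2 - t0 := by rw [coeff_sub, c2, c0]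
  have l0 := lin_part (A := A) (B := B) (b1 - b2) b0
  have l1 := lin_part (A := A) (B := B) (b2 - b0) b1
  rw [hd0, c0] at l0
  rw [hd1, c1] at l1
  have n01 := sub_ne_zero.2 h.ne01
  have n02 := sub_ne_zero.2 h.ne02
  have n12 := sub_ne_zero.2 h.ne12
  have n10 := sub_ne_zero.2 h.ne01.symm
  have n20 := sub_ne_zero.2 h.ne02.symm
  have mX' : X' ∈ adj ![X', Y', 0] := mem_adj ![X', Y', 0] 0
  have mY' : Y' ∈ adj ![X', Y', 0] := mem_adj ![X', Y', 0] 1
  have hnak := adj_nak (T := ![A, B, 0]) (T' := ![X', Y', 0]) hT (by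
    intro i
    fin_cases i
    · exact m1
    · exact m2
    · exact zero_mem _) (by
    intro i
    fin_cases i
    · refine ⟨(t1 - t0)⁻¹ • ((t1 - t2)⁻¹ • X' - (t2 - t0)⁻¹ • Y'),
        SMulMemClass.smul_mem _ (sub_mem (SMulMemClass.smul_mem _ mX')
          (SMulMemClass.smul_mem _ mY')), ?_⟩
      have e : A - (t1 - t0)⁻¹ • ((t1 - t2)⁻¹ • X' - (t2 - t0)⁻¹ • Y') =
          (t1 - t0)⁻¹ • ((t2 - t0)⁻¹ • (Y' - (t2 - t0) • (B - t1 • A)) -
            (t1 - t2)⁻¹ • (X' - (t1 - t2) • (B - t0 • A))) := by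
        ext i j
        simp only [Matrix.sub_apply, Matrix.smul_apply, smul_eq_mul]
        field_simp
        ring
      show A - _ ∈ _
      rw [e]
      exact Submodule.smul_mem _ _ (sub_mem (Submodule.smul_mem _ _ l1) (Submodule.smul_mem _ _ l0))
    · refine ⟨(t1 - t2)⁻¹ • X' + (t0 * (t1 - t0)⁻¹) • ((t1 - t2)⁻¹ • X' - (t2 - t0)⁻¹ • Y'),
        add_mem (SMulMemClass.smul_mem _ mX') (SMulMemClass.smul_mem _
          (sub_mem (SMulMemClass.smul_mem _ mX') (SMulMemClass.smul_mem _ mY'))), ?_⟩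
      have e : B - ((t1 - t2)⁻¹ • X' + (t0 * (t1 - t0)⁻¹) •
            ((t1 - t2)⁻¹ • X' - (t2 - t0)⁻¹ • Y')) =
          -((t1 - t2)⁻¹ • (X' - (t1 - t2) • (B - t0 • A))) +
          (t0 * (t1 - t0)⁻¹) • ((t2 - t0)⁻¹ • (Y' - (t2 - t0) • (B - t1 • A)) -
            (t1 - t2)⁻¹ • (X' - (t1 - t2) • (B - t0 • A))) := by
        ext i j
        simp only [Matrix.sub_apply, Matrix.add_apply, Matrix.neg_apply, Matrix.smul_apply,
          smul_eq_mul]
        field_simp
        ring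
      show B - _ ∈ _
      rw [e]
      exact add_mem (neg_mem (Submodule.smul_mem _ _ l0))
        (Submodule.smul_mem _ _ (sub_mem (Submodule.smul_mem _ _ l1) (Submodule.smul_mem _ _ l0)))
    · refine ⟨0, zero_mem _, ?_⟩
      show (0 : Matrix (Fin N) (Fin N) k) - 0 ∈ _
      rw [sub_zero]
      exact zero_mem _)
  have hA : A ∈ adj ![X', Y', 0] := hnak 0
  have hB : B ∈ adj ![X', Y', 0] := hnak 1
  exact ⟨X', Y', m1, m2, hA, hB, hXY, hT.nilp m1, hT.nilp m2, cyc_of_adj hXY hA hB h.cyc,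
    cocyc_of_adj hXY h.comm hA hB h.cocyc, hrel⟩

end Pool.Agent.Lib.D13.Pl
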