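import Pool.Agent.Lib.D13.PlCoc

/-!
# MP_5dcbc3_ag: planar commuting nilpotent pairs of corank at most 3: reduction to good pairs
-/

namespace Pool.Agent.Lib.D13.Pl

open Matrix Polynomial Pool.Agent.Lib.Q5dc Pool.Agent.Lib.D7

variable {k : Type*} [Field k] {N : ℕ}

namespace Blk

variable {A B : Matrix (Fin N) (Fin N) k} {v : Fin 3 → Fin N → k} {a : Fin 3 → ℕ}

/-- the shape of the matrices, `a 0 = a 1 + 2 + d`, `a 1 = a 2 + 2 + e` -/
noncomputable def shape (d e : ℕ) (b : Matrix (Fin 3) (Fin 3) k[X]) : Matrix (Fin 3) (Fin 3) k[X] :=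
  !![X * b 0 0, X ^ (d + 2) * b 0 1, X ^ (d + e + 4) * b 0 2;
     b 1 0, X * b 1 1, X ^ (e + 2) * b 1 2;
     b 2 0, b 2 1, X * b 2 2]

/-- the coefficients of the cubic relation -/
noncomputable def q2 (b : Matrix (Fin 3) (Fin 3) k[X]) : k[X] := b 0 0 + b 1 1 + b 2 2

noncomputable def q1 (d e : ℕ) (b : Matrix (Fin 3) (Fin 3) k[X]) : k[X] :=
  b 0 0 * b 1 1 + b 0 0 * b 2 2 + b 1 1 * b 2 2 - X ^ d * (b 0 1 * b 1 0) - X ^ e * (b 1 2 * b 2 1) -
    X ^ (d + e + 2) * (b 0 2 * b 2 0)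

noncomputable def q0 (d e : ℕ) (b : Matrix (Fin 3) (Fin 3) k[X]) : k[X] :=
  b 0 0 * b 1 1 * b 2 2 + X ^ (d + e + 1) * (b 0 1 * b 1 2 * b 2 0 + b 0 2 * b 1 0 * b 2 1) -
    X ^ e * (b 0 0 * b 1 2 * b 2 1) - X ^ d * (b 2 2 * b 0 1 * b 1 0) -
    X ^ (d + e + 2) * (b 1 1 * b 0 2 * b 2 0)

theorem cayley (d e : ℕ) (b : Matrix (Fin 3) (Fin 3) k[X]) :
    shape d e b * shape d e b * shape d e b - (X * q2 b) • (shape d e b * shape d e b) +
      (X ^ 2 * q1 d e b) • shape d e b - (X ^ 3 * q0 d e b) • (1 : Matrix (Fin 3) (Fin 3) k[X]) =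
      0 := by
  have e1 : (X : k[X]) ^ (d + 2) = X ^ d * X ^ 2 := pow_add _ _ _
  have e2 : (X : k[X]) ^ (e + 2) = X ^ e * X ^ 2 := pow_add _ _ _
  have e3 : (X : k[X]) ^ (d + e + 4) = X ^ d * X ^ e * X ^ 4 := by rw [pow_add, pow_add]
  have e4 : (X : k[X]) ^ (d + e + 2) = X ^ d * X ^ e * X ^ 2 := by rw [pow_add, pow_add]
  have e5 : (X : k[X]) ^ (d + e + 1) = X ^ d * X ^ e * X := by rw [pow_add, pow_add, pow_one]
  unfold shape q2 q1 q0
  rw [e1, e2, e3, e4, e5]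
  generalize (X : k[X]) ^ d = D
  generalize (X : k[X]) ^ e = F
  ext1 i j
  fin_cases i <;> fin_cases j <;>
    simp [Matrix.mul_apply, Fin.sum_univ_three] <;> ring

theorem rel_of_rep (h : BlkB A v a) {d e : ℕ} {b : Matrix (Fin 3) (Fin 3) k[X]}
    (hB : Rep A v B (shape d e b)) :
    B ^ 3 - A * aeval A (q2 b) * B ^ 2 + A ^ 2 * aeval A (q1 d e b) * B -
      A ^ 3 * aeval A (q0 d e b) = 0 := by
  have h1 : Rep A v (B * B * B - aeval A (X * q2 b) * (B * B) + aeval A (X ^ 2 * q1 d e b) * B -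
      aeval A (X ^ 3 * q0 d e b)) 0 := by
    have h2 := ((((hB.mul hB).mul hB).sub ((hB.mul hB).polysmul (X * q2 b))).add
      (hB.polysmul (X ^ 2 * q1 d e b))).sub (Rep.aeval (A := A) (v := v) (X ^ 3 * q0 d e b))
    rwa [cayley] at h2
  have h2 := Rep.eq h h1 Rep.zero
  rw [map_mul, map_mul, map_mul, map_pow, map_pow, aeval_X] at h2
  rw [pow_succ B 2, pow_two B]
  exact h2

/-- the discriminant -/
def disc (a2 a1 a0 : k) : k :=
  a2 ^ 2 * a1 ^ 2 - 4 * a1 ^ 3 - 4 * a2 ^ 3 * a0 + 18 * a2 * a1 * a0 - 27 * a0 ^ 2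

theorem cubic_roots [IsAlgClosed k] (a2 a1 a0 : k) (hd : disc a2 a1 a0 ≠ 0) :
    ∃ t0 t1 t2 : k, (X ^ 3 - C a2 * X ^ 2 + C a1 * X - C a0 : k[X]) =
      (X - C t0) * (X - C t1) * (X - C t2) ∧ t0 ≠ t1 ∧ t0 ≠ t2 ∧ t1 ≠ t2 := by
  -- first root
  have hdeg : (X ^ 3 - C a2 * X ^ 2 + C a1 * X - C a0 : k[X]).degree = 3 := by
    compute_degree!
  obtain ⟨t0, ht0⟩ := IsAlgClosed.exists_root (X ^ 3 - C a2 * X ^ 2 + C a1 * X - C a0 : k[X])
    (by rw [hdeg]; decide)
  have h0 : t0 ^ 3 - a2 * t0 ^ 2 + a1 * t0 - a0 = 0 := by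
    simpa [IsRoot.def] using ht0
  -- the quadratic factor
  have hdeg2 : (X ^ 2 - C (a2 - t0) * X + C (a1 - t0 * (a2 - t0)) : k[X]).degree = 2 := by
    compute_degree!
  obtain ⟨t1, ht1⟩ := IsAlgClosed.exists_root
    (X ^ 2 - C (a2 - t0) * X + C (a1 - t0 * (a2 - t0)) : k[X]) (by rw [hdeg2]; decide)
  have h1 : t1 ^ 2 - (a2 - t0) * t1 + (a1 - t0 * (a2 - t0)) = 0 := by
    simpa [IsRoot.def] using ht1
  obtain ⟨t2, ht2⟩ : ∃ t2, a2 = t0 + t1 + t2 := ⟨a2 - t0 - t1, by ring⟩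
  have ha1 : a1 = t0 * t1 + t0 * t2 + t1 * t2 := by
    rw [ht2] at h1
    linear_combination h1
  have ha0 : a0 = t0 * t1 * t2 := by
    rw [ht2, ha1] at h0
    linear_combination -h0
  have hdisc : disc a2 a1 a0 = ((t0 - t1) * (t0 - t2) * (t1 - t2)) ^ 2 := by
    rw [ht2, ha1, ha0]
    unfold disc
    ring
  rw [hdisc] at hd
  refine ⟨t0, t1, t2, ?_, ?_, ?_, ?_⟩
  · rw [ht2, ha1, ha0]
    simp only [C_add, C_mul]
    ring
  · rintro rfl
    apply hd
    ring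
  · rintro rfl
    apply hd
    ring
  · rintro rfl
    apply hd
    ring

/-- the path -/
theorem rep_line {P D : Matrix (Fin 3) (Fin 3) k[X]} {B' : Matrix (Fin N) (Fin N) k}
    (hB : Rep A v B P) (hB' : Rep A v B' D) (s : k) :
    Rep A v (B + s • (B' - B)) (P + C s • (D - P)) := by
  have h1 := hB.add ((hB'.sub hB).smul s)
  have h2 : s • (D - P) = C s • (D - P) := by
    ext1 i j
    show s • (D - P) i j = C s * (D - P) i j
    rw [smul_eq_C_mul]
  rwa [h2] at h1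

theorem dvd_line {P D : Matrix (Fin 3) (Fin 3) k[X]} (hP : ∀ i j, i ≤ j → X ∣ P i j)
    (hD : ∀ i j, i ≤ j → X ∣ D i j) (s : k) (i j : Fin 3) (hij : i ≤ j) :
    X ∣ (P + C s • (D - P)) i j := by
  show X ∣ P i j + C s * (D i j - P i j)
  exact dvd_add (hP i j hij) ((dvd_sub (hD i j hij) (hP i j hij)).mul_left _)

theorem cn_line (h : BlkB A v a) {P D : Matrix (Fin 3) (Fin 3) k[X]}
    {B' : Matrix (Fin N) (Fin N) k}
    (hB : Rep A v B P) (hB' : Rep A v B' D) (hP : ∀ i j, i ≤ j → X ∣ P i j)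
    (hD : ∀ i j, i ≤ j → X ∣ D i j) (s : k) : CN ![A, B + s • (B' - B), 0] := by
  have h1 := rep_line hB hB' s
  have hn := nilp_low h h1 (dvd_line hP hD s)
  have hc := comm_A h h1
  refine ⟨fun i j => ?_, fun i => ?_⟩
  · fin_cases i <;> fin_cases j
    · rfl
    · exact hc
    · show A * 0 = 0 * A
      rw [mul_zero, zero_mul]
    · exact hc.symm
    · rfl
    · show _ * 0 = 0 * _
      rw [mul_zero, zero_mul]
    · show 0 * A = A * 0
      rw [mul_zero, zero_mul]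
    · show 0 * _ = _ * 0
      rw [mul_zero, zero_mul]
    · rfl
  · fin_cases i
    · exact nilp_A h
    · exact hn
    · exact ⟨1, pow_one 0⟩

/-- limits along the line -/
theorem cl_line [Infinite k] {B' : Matrix (Fin N) (Fin N) k} {F : Set k} (hF : F.Finite)
    (h : ∀ s ∉ F, Cl ![A, B + s • (B' - B), 0]) : Cl ![A, B, 0] := by
  refine Pool.Agent.Lib.D8.cl_of_line (D := B' - B) (E := 0) hF fun s hs => ?_
  rw [smul_zero, add_zero]
  exact h s hs

/-- the unstable case: the path ends in a matrix of corank at most 2 -/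
theorem cl_unstable [IsAlgClosed k] [CharZero k] (hN : 0 < N) (h : BlkB A v a)
    {P D : Matrix (Fin 3) (Fin 3) k[X]} {B' : Matrix (Fin N) (Fin N) k}
    (hB : Rep A v B P) (hB' : Rep A v B' D) (hP : ∀ i j, i ≤ j → X ∣ P i j)
    (hD : ∀ i j, i ≤ j → X ∣ D i j) (hr : N ≤ B'.rank + 2) : Cl ![A, B, 0] := by
  have : Infinite k := IsAlgClosed.instInfinite
  have hf := rank_semicont (fun s => B + s • (B' - B)) (isPoly_line B (B' - B)) 1
  refine cl_line (B' := B') hf fun s hs => ?_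
  have h1 : B'.rank ≤ (B + s • (B' - B)).rank := by
    have h2 : ¬ (B + s • (B' - B)).rank < (B + (1 : k) • (B' - B)).rank := hs
    rw [one_smul, add_sub_cancel] at h2
    exact not_lt.1 h2
  exact Pool.Agent.Lib.D8.cl_corank hN (cn_line h hB hB' hP hD s)
    (mem_adj ![A, B + s • (B' - B), 0] 1) (hr.trans (Nat.add_le_add_right h1 2))

/-- a lower bound of the rank -/
theorem rank_of_gen (h : BlkB A v a) {D : Matrix (Fin 3) (Fin 3) k[X]}
    {B' : Matrix (Fin N) (Fin N) k} (hB' : Rep A v B' D) (i j : Fin 3)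
    (hgen : ∀ z : Fin 3 → k[X], ∃ (c c' : k) (z' : Fin 3 → k[X]),
      z = Pi.single i (C c) + Pi.single j (C c') + D *ᵥ z') : N ≤ B'.rank + 2 := by
  classical
  set w : Fin 2 → Fin N → k := ![v i, v j] with hw
  have htop : (⊤ : Submodule k (Fin N → k)) ≤
      LinearMap.range (Matrix.toLin' B') ⊔ Submodule.span k (Set.range w) := by
    intro x _
    obtain ⟨z, rfl⟩ := h.span x
    obtain ⟨c, c', z', hz⟩ := hgen z
    rw [hz, pi_add, pi_add, pi_single, pi_single, ← hB', aeval_C, aeval_C,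
      Algebra.algebraMap_eq_smul_one, Algebra.algebraMap_eq_smul_one, Matrix.smul_mulVec,
      Matrix.smul_mulVec, Matrix.one_mulVec, Matrix.one_mulVec]
    refine add_mem (Submodule.mem_sup_right (add_mem (Submodule.smul_mem _ _
      (Submodule.subset_span ⟨0, rfl⟩)) (Submodule.smul_mem _ _
      (Submodule.subset_span ⟨1, rfl⟩)))) (Submodule.mem_sup_left ⟨pi A v z', ?_⟩)
    rw [Matrix.toLin'_apply]
  have h6 := Submodule.finrank_mono htop
  rw [finrank_top, Module.finrank_fin_fun] at h6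
  have h7 := Submodule.finrank_add_le_finrank_add_finrank (LinearMap.range (Matrix.toLin' B'))
    (Submodule.span k (Set.range w))
  have h8 := finrank_range_le_card (R := k) w
  rw [Fintype.card_fin] at h8
  have h9 : (Set.range w).finrank k = Module.finrank k (Submodule.span k (Set.range w)) := rfl
  have h10 : Module.finrank k (LinearMap.range (Matrix.toLin' B')) = B'.rank := rfl
  omega

end Blk

end Pool.Agent.Lib.D13.Pl
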