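import Pool.Agent.Lib.D13.PlR
import Pool.Agent.Lib.D13.PlPerm

/-!
# MP_5dcbc3_ag: planar pairs with a relation of order two have an element of corank at most 2
-/

namespace Pool.Agent.Lib.D13.Pl

open Matrix Polynomial Pool.Agent.Lib.Q5dc Pool.Agent.Lib.D7

variable {k : Type*} [Field k] {N : ℕ}

/-- a relation `q(X, Y) v ∈ m ^ 3 v` with a quadratic form `q ≠ 0` -/
theorem quad_corank [CharZero k] {X Y : Matrix (Fin N) (Fin N) k} {v : Fin N → k}
    (hc : X * Y = Y * X) (hX : IsNilpotent X) (hY : IsNilpotent Y) (hg : Gen X Y v)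
    {q0 q1 q2 : k} (hq : q0 ≠ 0 ∨ q1 ≠ 0 ∨ q2 ≠ 0)
    (hr : ∃ w0 w1 w2 w3, (q0 • X ^ 2 + q1 • (X * Y) + q2 • Y ^ 2) *ᵥ v =
      X ^ 3 *ᵥ w0 + (X ^ 2 * Y) *ᵥ w1 + (X * Y ^ 2) *ᵥ w2 + Y ^ 3 *ᵥ w3) :
    ∃ M ∈ adj ![X, Y, 0], N ≤ M.rank + 2 := by
  -- a value of the quadratic form
  obtain ⟨c, hcq⟩ : ∃ c : k, q0 + q1 * c + q2 * c ^ 2 ≠ 0 := by
    by_contra hcon
    push Not at hcon
    have h0 := hcon 0
    have h1 := hcon 1
    have h2 := hcon (-1)
    have e0 : q0 = 0 := by linear_combination h0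
    have e2 : q2 = 0 := by
      have h3 : (2 : k) * q2 = 0 := by linear_combination h1 + h2 - 2 * h0
      exact (mul_eq_zero.1 h3).resolve_left two_ne_zero
    have e1 : q1 = 0 := by linear_combination h1 - e0 - e2
    rcases hq with h | h | h
    · exact h e0
    · exact h e1
    · exact h e2
  obtain ⟨w0, w1, w2, w3, hr⟩ := hr
  have mX : X ∈ adj ![X, Y, 0] := mem_adj ![X, Y, 0] 0
  have mY : Y ∈ adj ![X, Y, 0] := mem_adj ![X, Y, 0] 1
  set K := Y - c • X with hK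
  have hYK : Y = K + c • X := by rw [hK]; abel
  refine ⟨K, sub_mem mY (SMulMemClass.smul_mem _ mX), ?_⟩
  have hKX : (X + K) - X = K := by abel
  have hcK : Commute X K := by
    have h1 : Commute X Y := hc
    exact h1.sub_right ((Commute.refl X).smul_right c)
  rw [← hKX]
  refine rank_of_rel (v := v) (α := 0) (β := q0 + q1 * c + q2 * c ^ 2) ?_ hX ?_ (Or.inr hcq) ?_
  · exact ((Commute.refl X).add_left hcK.symm).eq
  · intro S hv h1 h2
    refine hg S hv h2 fun w hw => ?_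
    have h3 := h1 w hw
    rw [hYK, Matrix.add_mulVec, Matrix.smul_mulVec]
    rw [Matrix.add_mulVec] at h3
    have h4 := S.sub_mem h3 (h2 w hw)
    rw [add_sub_cancel_left] at h4
    exact S.add_mem h4 (S.smul_mem c (h2 w hw))
  · rw [hKX]
    -- everything modulo `K`
    have key : ∀ (i j : ℕ), ∃ P : Matrix (Fin N) (Fin N) k,
        X ^ i * Y ^ j = K * P + c ^ j • X ^ (i + j) := by
      intro i j
      induction j with
      | zero => exact ⟨0, by simp⟩
      | succ j ih =>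
        obtain ⟨P, hP⟩ := ih
        refine ⟨P * Y + c ^ j • X ^ (i + j), ?_⟩
        have h1 : X ^ (i + j) * Y = K * X ^ (i + j) + c • X ^ (i + (j + 1)) := by
          rw [hYK, mul_add, mul_smul_comm, ← pow_succ, ← (hcK.pow_left (i + j)).eq]
          rfl
        rw [pow_succ Y j, ← mul_assoc, hP, add_mul, smul_mul_assoc, h1, smul_add, smul_smul,
          ← pow_succ, mul_add, mul_smul_comm, mul_assoc]
        abel
    obtain ⟨P11, h11⟩ := key 1 1
    obtain ⟨P02, h02⟩ := key 0 2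
    obtain ⟨P21, h21⟩ := key 2 1
    obtain ⟨P12, h12⟩ := key 1 2
    obtain ⟨P03, h03⟩ := key 0 3
    simp only [pow_one, pow_zero, one_mul, Nat.zero_add, Nat.reduceAdd] at h11 h02 h21 h12 h03
    refine ⟨-((q1 • P11 + q2 • P02) *ᵥ v) + P21 *ᵥ w1 + P12 *ᵥ w2 + P03 *ᵥ w3,
      w0 + c • w1 + c ^ 2 • w2 + c ^ 3 • w3, ?_⟩
    rw [h12, h21, h11, h03, h02] at hr
    simp only [Matrix.add_mulVec, Matrix.smul_mulVec, Matrix.mulVec_add, Matrix.mulVec_neg,
      Matrix.mulVec_smul, ← Matrix.mulVec_mulVec] at hr ⊢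
    linear_combination (norm := module) hr

end Pool.Agent.Lib.D13.Pl
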