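import Pool.Agent.Lib.D13.PlDefs

/-!
# MP_5dcbc3_ag: planar commuting nilpotent triples: corank from one relation, raising with a fixed
first matrix
-/

namespace Pool.Agent.Lib.D13.Pl

open Matrix Pool.Agent.Lib.Q5dc Pool.Agent.Lib.D7 Pool.Agent.Lib.D8

variable {k : Type*} [Field k] {N : ℕ}

/-- `v` generates: a subspace stable under `X` and `Y` which contains `v` is everything -/
def Gen (X Y : Matrix (Fin N) (Fin N) k) (v : Fin N → k) : Prop :=
  ∀ S : Submodule k (Fin N → k), v ∈ S → (∀ w ∈ S, X *ᵥ w ∈ S) → (∀ w ∈ S, Y *ᵥ w ∈ S) →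
    ∀ w, w ∈ S

theorem pow_mem {X : Matrix (Fin N) (Fin N) k} {S : Submodule k (Fin N → k)}
    (hX : ∀ w ∈ S, X *ᵥ w ∈ S) (i : ℕ) {w : Fin N → k} (hw : w ∈ S) : X ^ i *ᵥ w ∈ S := by
  induction i with
  | zero => rw [pow_zero, Matrix.one_mulVec]; exact hw
  | succ i ih => rw [pow_succ', ← Matrix.mulVec_mulVec]; exact hX _ ih

theorem Cyc.gen {X Y : Matrix (Fin N) (Fin N) k} {v : Fin N → k} (h : Cyc X Y v) : Gen X Y v := by
  intro S hv hX hY w
  have h1 : (⊤ : Submodule k (Fin N → k)) ≤ S := by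
    rw [← (show _ = ⊤ from h)]
    refine Submodule.span_le.2 ?_
    rintro _ ⟨p, rfl⟩
    show (X ^ p.1 * Y ^ p.2) *ᵥ v ∈ S
    rw [← Matrix.mulVec_mulVec]
    exact pow_mem hX _ (pow_mem hY _ hv)
  exact h1 trivial

/-- the corank of `X - Y` from one relation -/
theorem rank_of_rel {X Y : Matrix (Fin N) (Fin N) k} {v : Fin N → k} (hc : X * Y = Y * X)
    (hY : IsNilpotent Y) (hg : Gen X Y v) {α β : k} (h : α ≠ 0 ∨ β ≠ 0)
    (hr : ∃ w₁ w₂, α • Y *ᵥ v + β • Y ^ 2 *ᵥ v = (X - Y) *ᵥ w₁ + Y ^ 3 *ᵥ w₂) :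
    N ≤ (X - Y).rank + 2 := by
  classical
  obtain ⟨p, hp⟩ := hY
  set R : Submodule k (Fin N → k) := LinearMap.range (X - Y).mulVecLin with hR
  have hmR : ∀ w, (X - Y) *ᵥ w ∈ R := fun w => ⟨w, rfl⟩
  have hcd : (X - Y) * Y = Y * (X - Y) := by rw [sub_mul, mul_sub, hc]
  have hYR : ∀ w ∈ R, Y *ᵥ w ∈ R := by
    rintro _ ⟨w, rfl⟩
    refine ⟨Y *ᵥ w, ?_⟩
    rw [Matrix.mulVecLin_apply, Matrix.mulVecLin_apply, Matrix.mulVec_mulVec,
      Matrix.mulVec_mulVec, hcd]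
  have hXw : ∀ w, X *ᵥ w = (X - Y) *ᵥ w + Y *ᵥ w := by
    intro w
    rw [Matrix.sub_mulVec, sub_add_cancel]
  -- decomposition of all vectors
  have hdec : ∀ w, ∃ r ∈ R, ∃ c : k, ∃ w', w = r + c • v + Y *ᵥ w' := by
    let S : Submodule k (Fin N → k) := R ⊔ (k ∙ v) ⊔ LinearMap.range Y.mulVecLin
    have hS1 : ∀ w ∈ R, w ∈ S := fun w hw => Submodule.mem_sup_left (Submodule.mem_sup_left hw)
    have hS2 : v ∈ S := Submodule.mem_sup_left (Submodule.mem_sup_right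
      (Submodule.mem_span_singleton_self v))
    have hS3 : ∀ w, Y *ᵥ w ∈ S := fun w => Submodule.mem_sup_right ⟨w, rfl⟩
    have hall := hg S hS2 (fun w hw => by
      rw [hXw]
      exact add_mem (hS1 _ (hmR w)) (hS3 w)) (fun w _ => hS3 w)
    intro w
    obtain ⟨y, hy, z, hz, hyz⟩ := Submodule.mem_sup.1 (hall w)
    obtain ⟨r, hr', c, hc', hrc⟩ := Submodule.mem_sup.1 hy
    obtain ⟨a, rfl⟩ := Submodule.mem_span_singleton.1 hc'
    obtain ⟨w', rfl⟩ := hz
    exact ⟨r, hr', a, w', by rw [← hyz, ← hrc]; rfl⟩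
  -- Nakayama
  have hnak : ∀ m : ℕ, (∀ w, ∃ r ∈ R, ∃ w', Y ^ m *ᵥ w = r + Y ^ (m + 1) *ᵥ w') →
      ∀ w, Y ^ m *ᵥ w ∈ R := by
    intro m hm
    have h1 : ∀ j : ℕ, ∀ w, ∃ r ∈ R, ∃ w', Y ^ m *ᵥ w = r + Y ^ (m + j) *ᵥ w' := by
      intro j
      induction j with
      | zero => exact fun w => ⟨0, zero_mem _, w, by rw [zero_add, add_zero]⟩
      | succ j ih =>
        intro w
        obtain ⟨r, hr1, w', hw'⟩ := ih w
        obtain ⟨r', hr', w'', hw''⟩ := hm w'
        refine ⟨r + Y ^ j *ᵥ r', add_mem hr1 (pow_mem hYR j hr'), w'', ?_⟩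
        rw [hw', show m + j = j + m by ring, pow_add, ← Matrix.mulVec_mulVec, hw'',
          Matrix.mulVec_add, Matrix.mulVec_mulVec, ← pow_add,
          show j + (m + 1) = m + (j + 1) by ring, add_assoc]
    intro w
    obtain ⟨r, hr1, w', hw'⟩ := h1 p w
    rw [hw', pow_add, hp, mul_zero, Matrix.zero_mulVec, add_zero]
    exact hr1
  -- the span of two vectors and `R` is everything
  obtain ⟨w₁, w₂, hrel⟩ := hr
  have hfin : ∀ w, w ∈ R ⊔ Submodule.span k {v, Y *ᵥ v} := by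
    have hv : v ∈ R ⊔ Submodule.span k {v, Y *ᵥ v} :=
      Submodule.mem_sup_right (Submodule.subset_span (by simp))
    have hYv : Y *ᵥ v ∈ R ⊔ Submodule.span k {v, Y *ᵥ v} :=
      Submodule.mem_sup_right (Submodule.subset_span (by simp))
    have hY2 : ∀ w, Y ^ 2 *ᵥ w ∈ R := by
      by_cases hα : α = 0
      · have hβ : β ≠ 0 := h.resolve_left (fun h' => h' hα)
        refine hnak 2 fun w => ?_
        obtain ⟨r, hr1, c, w', rfl⟩ := hdec w
        refine ⟨Y ^ 2 *ᵥ r + c • β⁻¹ • (X - Y) *ᵥ w₁, add_mem (pow_mem hYR 2 hr1)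
          (Submodule.smul_mem _ _ (Submodule.smul_mem _ _ (hmR _))),
          c • β⁻¹ • w₂ + w', ?_⟩
        have h2 : Y ^ 2 *ᵥ v = β⁻¹ • (X - Y) *ᵥ w₁ + β⁻¹ • Y ^ 3 *ᵥ w₂ := by
          rw [← smul_add, ← hrel, hα, zero_smul, zero_add, smul_smul, inv_mul_cancel₀ hβ, one_smul]
        rw [Matrix.mulVec_add, Matrix.mulVec_add, Matrix.mulVec_smul, h2, Matrix.mulVec_mulVec,
          ← pow_succ, Matrix.mulVec_add, Matrix.mulVec_smul, Matrix.mulVec_smul, smul_add]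
        abel
      · have h1 := hnak 1 fun w => by
          obtain ⟨r, hr1, c, w', rfl⟩ := hdec w
          refine ⟨Y *ᵥ r + c • α⁻¹ • (X - Y) *ᵥ w₁, add_mem (hYR _ hr1)
            (Submodule.smul_mem _ _ (Submodule.smul_mem _ _ (hmR _))),
            c • α⁻¹ • (Y *ᵥ w₂ - β • v) + w', ?_⟩
          have h2 : Y *ᵥ v = α⁻¹ • (X - Y) *ᵥ w₁ + α⁻¹ • Y ^ 3 *ᵥ w₂ - α⁻¹ • β • Y ^ 2 *ᵥ v := by
            rw [← smul_add, ← hrel, smul_add, smul_smul, inv_mul_cancel₀ hα, one_smul,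
              add_sub_cancel_right]
          have h3 : Y ^ 2 *ᵥ (Y *ᵥ w₂) = Y ^ 3 *ᵥ w₂ := by
            rw [Matrix.mulVec_mulVec, ← pow_succ]
          show Y ^ 1 *ᵥ (r + c • v + Y *ᵥ w') = Y *ᵥ r + c • α⁻¹ • (X - Y) *ᵥ w₁ +
            Y ^ 2 *ᵥ (c • α⁻¹ • (Y *ᵥ w₂ - β • v) + w')
          have h4 : Y *ᵥ Y *ᵥ w' = Y ^ 2 *ᵥ w' := by rw [Matrix.mulVec_mulVec, pow_two]
          rw [pow_one, Matrix.mulVec_add, Matrix.mulVec_add, Matrix.mulVec_smul, h2, h4,
            Matrix.mulVec_add, Matrix.mulVec_smul, Matrix.mulVec_smul, Matrix.mulVec_sub, h3,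
            Matrix.mulVec_smul]
          simp only [smul_sub, smul_add]
          abel
        intro w
        rw [pow_two, ← Matrix.mulVec_mulVec]
        have h2 := h1 (Y *ᵥ w)
        rwa [pow_one] at h2
    intro w
    obtain ⟨r, hr1, c, w', rfl⟩ := hdec w
    obtain ⟨r', hr', c', w'', rfl⟩ := hdec w'
    rw [Matrix.mulVec_add, Matrix.mulVec_add, Matrix.mulVec_smul, Matrix.mulVec_mulVec, ← pow_two]
    exact add_mem (add_mem (Submodule.mem_sup_left hr1) (Submodule.smul_mem _ _ hv))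
      (add_mem (add_mem (Submodule.mem_sup_left (hYR _ hr')) (Submodule.smul_mem _ _ hYv))
        (Submodule.mem_sup_left (hY2 _)))
  have htop : R ⊔ Submodule.span k {v, Y *ᵥ v} = ⊤ := by
    rw [eq_top_iff]
    exact fun w _ => hfin w
  have h1 := Submodule.finrank_add_le_finrank_add_finrank R (Submodule.span k {v, Y *ᵥ v})
  rw [htop, finrank_top, Module.finrank_fin_fun] at h1
  have h2 : Module.finrank k (Submodule.span k ({v, Y *ᵥ v} : Set (Fin N → k))) ≤ 2 := by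
    have h3 := finrank_span_finset_le_card (R := k) ({v, Y *ᵥ v} : Finset (Fin N → k))
    have h4 : (({v, Y *ᵥ v} : Finset (Fin N → k)) : Set (Fin N → k)) = {v, Y *ᵥ v} := by
      simp
    rw [h4] at h3
    exact h3.trans Finset.card_le_two
  have h3 : Module.finrank k R = (X - Y).rank := rfl
  omega

/-- adding a nilpotent-direction which maps into the image of `X` -/
theorem nilp_add {X Y K : Matrix (Fin N) (Fin N) k} (hc : X * Y = Y * X)
    (hX : IsNilpotent X) (hY : IsNilpotent Y) (hK : X * K = K * X)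
    (hKX : ∀ w, ∃ u, K *ᵥ w = X *ᵥ u) : IsNilpotent (Y + K) := by
  obtain ⟨p, hp⟩ := hX
  obtain ⟨m, hm⟩ := hY
  have hcZ : X * (Y + K) = (Y + K) * X := by rw [mul_add, add_mul, hc, hK]
  have h1 : ∀ j : ℕ, ∀ w, ∃ u, (Y + K) ^ j *ᵥ w = Y ^ j *ᵥ w + X *ᵥ u := by
    intro j
    induction j with
    | zero => exact fun w => ⟨0, by rw [Matrix.mulVec_zero, add_zero, pow_zero, pow_zero]⟩
    | succ j ih =>
      intro w
      obtain ⟨u, hu⟩ := ih w
      obtain ⟨u', hu'⟩ := hKX (Y ^ j *ᵥ w)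
      refine ⟨u' + (Y + K) *ᵥ u, ?_⟩
      rw [pow_succ', ← Matrix.mulVec_mulVec, hu, Matrix.mulVec_add, Matrix.add_mulVec, hu',
        Matrix.mulVec_mulVec _ (Y + K) X, ← hcZ, ← Matrix.mulVec_mulVec, Matrix.mulVec_add,
        Matrix.mulVec_mulVec, ← pow_succ']
      abel
  have h2 : ∀ w, ∃ u, (Y + K) ^ m *ᵥ w = X *ᵥ u := by
    intro w
    obtain ⟨u, hu⟩ := h1 m w
    exact ⟨u, by rw [hu, hm, Matrix.zero_mulVec, zero_add]⟩
  have hcm : X * (Y + K) ^ m = (Y + K) ^ m * X := (show Commute X (Y + K) from hcZ).pow_right m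
  have h3 : ∀ j : ℕ, ∀ w, ∃ u, (Y + K) ^ (m * j) *ᵥ w = X ^ j *ᵥ u := by
    intro j
    induction j with
    | zero => exact fun w => ⟨w, by rw [mul_zero, pow_zero, pow_zero]⟩
    | succ j ih =>
      intro w
      obtain ⟨u, hu⟩ := h2 w
      obtain ⟨u', hu'⟩ := ih u
      refine ⟨u', ?_⟩
      rw [mul_add, mul_one, pow_add, ← Matrix.mulVec_mulVec, hu, Matrix.mulVec_mulVec,
        ← (show Commute X ((Y + K) ^ (m * j)) from
          (show Commute X (Y + K) from hcZ).pow_right (m * j)).eq, ← Matrix.mulVec_mulVec, hu',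
        Matrix.mulVec_mulVec, ← pow_succ']
  refine ⟨m * p, ?_⟩
  refine Matrix.toLin'.injective (LinearMap.ext fun w => ?_)
  obtain ⟨u, hu⟩ := h3 p w
  rw [Matrix.toLin'_apply, hu, hp, map_zero, Matrix.zero_mulVec, LinearMap.zero_apply]

/-- raising with `X` fixed -/
theorem cl_raise [IsAlgClosed k] [CharZero k] {X Y K : Matrix (Fin N) (Fin N) k} (hN : 0 < N)
    (hc : X * Y = Y * X) (hX : IsNilpotent X) (hY : IsNilpotent Y) (hK : X * K = K * X)
    (hKX : ∀ w, ∃ u, K *ᵥ w = X *ᵥ u) {E : Set k} (hE : E.Finite)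
    (h : ∀ s ∉ E, N ≤ (X - (Y + s • K)).rank + 2) : Cl ![X, Y, 0] := by
  have : Infinite k := IsAlgClosed.instInfinite
  by_contra hncl
  let c : k → Fin 3 → Matrix (Fin N) (Fin N) k := fun s => ![X, Y, 0] + s • ![0, K, 0]
  have hce : ∀ s, c s = ![X, Y + s • K, 0] := by
    intro s
    funext i
    fin_cases i
    · show X + s • (0 : Matrix (Fin N) (Fin N) k) = X
      rw [smul_zero, add_zero]
    · rfl
    · show (0 : Matrix (Fin N) (Fin N) k) + s • (0 : Matrix (Fin N) (Fin N) k) = 0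
      rw [smul_zero, add_zero]
  have hcp : PolyFam c := PolyFam.line _ _
  have h0 : ¬ Cl (c 0) := by
    rw [hce, zero_smul, add_zero]
    exact hncl
  have hf := finite_cl c hcp h0
  obtain ⟨s, hs⟩ := (hf.union hE).exists_notMem
  rw [Set.mem_union, not_or] at hs
  apply hs.1
  show Cl (c s)
  rw [hce]
  have hKs : X * (s • K) = s • K * X := by rw [mul_smul_comm, hK, smul_mul_assoc]
  have hcZ : X * (Y + s • K) = (Y + s • K) * X := by rw [mul_add, add_mul, hc, hKs]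
  have hnZ : IsNilpotent (Y + s • K) := nilp_add hc hX hY hKs fun w => by
    obtain ⟨u, hu⟩ := hKX w
    exact ⟨s • u, by rw [Matrix.smul_mulVec, hu, Matrix.mulVec_smul]⟩
  have hcn : CN ![X, Y + s • K, 0] := by
    constructor
    · intro i j
      fin_cases i <;> fin_cases j
      · rfl
      · exact hcZ
      · show X * 0 = 0 * X
        rw [mul_zero, zero_mul]
      · exact hcZ.symm
      · rfl
      · show (Y + s • K) * 0 = 0 * (Y + s • K)
        rw [mul_zero, zero_mul]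
      · show 0 * X = X * 0
        rw [mul_zero, zero_mul]
      · show 0 * (Y + s • K) = (Y + s • K) * 0
        rw [mul_zero, zero_mul]
      · rfl
    · intro i
      fin_cases i
      · exact hX
      · exact hnZ
      · exact IsNilpotent.zero
  refine cl_corank hN hcn (M := X - (Y + s • K)) ?_ (h s hs.2)
  exact sub_mem (mem_adj ![X, Y + s • K, 0] 0) (mem_adj ![X, Y + s • K, 0] 1)

end Pool.Agent.Lib.D13.Pl
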