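import Pool.Agent.Lib.D13.PlPath

/-!
# MP_5dcbc3_ag: planar commuting nilpotent pairs of corank at most 3: reduction to good pairs
-/

namespace Pool.Agent.Lib.D13.Pl

open Matrix Polynomial Pool.Agent.Lib.Q5dc Pool.Agent.Lib.D7

variable {k : Type*} [Field k] {N : ℕ}

namespace Blk

variable {A B : Matrix (Fin N) (Fin N) k} {v : Fin 3 → Fin N → k} {a : Fin 3 → ℕ}

theorem dvd_X_cancel {m n l : ℕ} (h : m = n + l) {p : k[X]} (hp : (X : k[X]) ^ m ∣ p * X ^ l) :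
    X ^ n ∣ p := by
  rw [h, pow_add] at hp
  exact (mul_dvd_mul_iff_right (pow_ne_zero l (X_ne_zero : (X : k[X]) ≠ 0))).1 hp

theorem forall33 {p : Fin 3 → Fin 3 → Prop} (h00 : p 0 0) (h01 : p 0 1) (h02 : p 0 2)
    (h10 : p 1 0) (h11 : p 1 1) (h12 : p 1 2) (h20 : p 2 0) (h21 : p 2 1) (h22 : p 2 2) :
    ∀ i j, p i j := by
  intro i j
  fin_cases i <;> fin_cases j
  · exact h00
  · exact h01
  · exact h02
  · exact h10
  · exact h11
  · exact h12
  · exact h20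
  · exact h21
  · exact h22

theorem mulVec3 (D : Matrix (Fin 3) (Fin 3) k[X]) (z : Fin 3 → k[X]) (i : Fin 3) :
    (D *ᵥ z) i = D i 0 * z 0 + D i 1 * z 1 + D i 2 * z 2 := by
  show ∑ j, D i j * z j = _
  rw [Fin.sum_univ_three]

/-- first and second block of sizes differing by at most 1 -/
theorem cl_unstable01 [IsAlgClosed k] [CharZero k] (hN : 0 < N) (h : BlkB A v a)
    (hanti : Antitone a) {P : Matrix (Fin 3) (Fin 3) k[X]} (hB : Rep A v B P)
    (hP : ∀ i j, i ≤ j → X ∣ P i j) (h01 : a 0 ≤ a 1 + 1) : Cl ![A, B, 0] := by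
  have ha01 : a 1 ≤ a 0 := hanti (by decide)
  obtain ⟨D, d00, d01, d02, d10, d11, d12, d20, d21, d22⟩ :
      ∃ D : Matrix (Fin 3) (Fin 3) k[X], D 0 0 = 0 ∧ D 0 1 = X ∧ D 0 2 = 0 ∧ D 1 0 = 1 ∧
        D 1 1 = 0 ∧ D 1 2 = 0 ∧ D 2 0 = 0 ∧ D 2 1 = 0 ∧ D 2 2 = X :=
    ⟨!![0, X, 0; 1, 0, 0; 0, 0, X], rfl, rfl, rfl, rfl, rfl, rfl, rfl, rfl, rfl⟩
  obtain ⟨B', hB'⟩ := exists_of_rep h D (by
    refine forall33 ?_ ?_ ?_ ?_ ?_ ?_ ?_ ?_ ?_
    · rw [d00, zero_mul]; exact dvd_zero _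
    · rw [d01, ← pow_succ']; exact pow_dvd_pow X h01
    · rw [d02, zero_mul]; exact dvd_zero _
    · rw [d10, one_mul]; exact pow_dvd_pow X ha01
    · rw [d11, zero_mul]; exact dvd_zero _
    · rw [d12, zero_mul]; exact dvd_zero _
    · rw [d20, zero_mul]; exact dvd_zero _
    · rw [d21, zero_mul]; exact dvd_zero _
    · rw [d22]; exact dvd_mul_left _ _)
  have hD : ∀ i j, i ≤ j → X ∣ D i j := by
    refine forall33 ?_ ?_ ?_ ?_ ?_ ?_ ?_ ?_ ?_
    · intro _; rw [d00]; exact dvd_zero _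
    · intro _; rw [d01]
    · intro _; rw [d02]; exact dvd_zero _
    · intro h; exact absurd h (by decide)
    · intro _; rw [d11]; exact dvd_zero _
    · intro _; rw [d12]; exact dvd_zero _
    · intro h; exact absurd h (by decide)
    · intro h; exact absurd h (by decide)
    · intro _; rw [d22]
  refine cl_unstable hN h hB hB' hP hD (rank_of_gen h hB' 0 2 fun z => ?_)
  refine ⟨(z 0).coeff 0, (z 2).coeff 0, ![z 1, (z 0).divX, (z 2).divX], ?_⟩
  have h0 := divX_mul_X_add (z 0)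
  have h2 := divX_mul_X_add (z 2)
  have hall : ∀ i : Fin 3, z i = Pi.single (M := fun _ => k[X]) 0 (C ((z 0).coeff 0)) i +
      Pi.single (M := fun _ => k[X]) 2 (C ((z 2).coeff 0)) i +
      (D *ᵥ ![z 1, (z 0).divX, (z 2).divX]) i := by
    intro i
    rw [mulVec3]
    simp only [Matrix.cons_val_zero, Matrix.cons_val_one, Matrix.cons_val_two, Matrix.head_cons,
      Matrix.tail_cons]
    fin_cases i
    · show z 0 = Pi.single (M := fun _ => k[X]) 0 (C ((z 0).coeff 0)) 0 +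
        Pi.single (M := fun _ => k[X]) 2 (C ((z 2).coeff 0)) 0 +
        (D 0 0 * z 1 + D 0 1 * (z 0).divX + D 0 2 * (z 2).divX)
      rw [d00, d01, d02, Pi.single_eq_same, Pi.single_eq_of_ne (by decide)]
      linear_combination -h0
    · show z 1 = Pi.single (M := fun _ => k[X]) 0 (C ((z 0).coeff 0)) 1 +
        Pi.single (M := fun _ => k[X]) 2 (C ((z 2).coeff 0)) 1 +
        (D 1 0 * z 1 + D 1 1 * (z 0).divX + D 1 2 * (z 2).divX)
      rw [d10, d11, d12, Pi.single_eq_of_ne (by decide), Pi.single_eq_of_ne (by decide)]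
      ring
    · show z 2 = Pi.single (M := fun _ => k[X]) 0 (C ((z 0).coeff 0)) 2 +
        Pi.single (M := fun _ => k[X]) 2 (C ((z 2).coeff 0)) 2 +
        (D 2 0 * z 1 + D 2 1 * (z 0).divX + D 2 2 * (z 2).divX)
      rw [d20, d21, d22, Pi.single_eq_same, Pi.single_eq_of_ne (by decide)]
      linear_combination -h2
  funext i
  exact hall i

/-- second and third block of sizes differing by at most 1 -/
theorem cl_unstable12 [IsAlgClosed k] [CharZero k] (hN : 0 < N) (h : BlkB A v a)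
    (hanti : Antitone a) {P : Matrix (Fin 3) (Fin 3) k[X]} (hB : Rep A v B P)
    (hP : ∀ i j, i ≤ j → X ∣ P i j) (h12 : a 1 ≤ a 2 + 1) : Cl ![A, B, 0] := by
  have ha12 : a 2 ≤ a 1 := hanti (by decide)
  obtain ⟨D, d00, d01, d02, d10, d11, d12, d20, d21, d22⟩ :
      ∃ D : Matrix (Fin 3) (Fin 3) k[X], D 0 0 = X ∧ D 0 1 = 0 ∧ D 0 2 = 0 ∧ D 1 0 = 0 ∧
        D 1 1 = 0 ∧ D 1 2 = X ∧ D 2 0 = 0 ∧ D 2 1 = 1 ∧ D 2 2 = 0 :=
    ⟨!![X, 0, 0; 0, 0, X; 0, 1, 0], rfl, rfl, rfl, rfl, rfl, rfl, rfl, rfl, rfl⟩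
  obtain ⟨B', hB'⟩ := exists_of_rep h D (by
    refine forall33 ?_ ?_ ?_ ?_ ?_ ?_ ?_ ?_ ?_
    · rw [d00]; exact dvd_mul_left _ _
    · rw [d01, zero_mul]; exact dvd_zero _
    · rw [d02, zero_mul]; exact dvd_zero _
    · rw [d10, zero_mul]; exact dvd_zero _
    · rw [d11, zero_mul]; exact dvd_zero _
    · rw [d12, ← pow_succ']; exact pow_dvd_pow X h12
    · rw [d20, zero_mul]; exact dvd_zero _
    · rw [d21, one_mul]; exact pow_dvd_pow X ha12
    · rw [d22, zero_mul]; exact dvd_zero _)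
  have hD : ∀ i j, i ≤ j → X ∣ D i j := by
    refine forall33 ?_ ?_ ?_ ?_ ?_ ?_ ?_ ?_ ?_
    · intro _; rw [d00]
    · intro _; rw [d01]; exact dvd_zero _
    · intro _; rw [d02]; exact dvd_zero _
    · intro h; exact absurd h (by decide)
    · intro _; rw [d11]; exact dvd_zero _
    · intro _; rw [d12]
    · intro h; exact absurd h (by decide)
    · intro h; exact absurd h (by decide)
    · intro _; rw [d22]; exact dvd_zero _
  refine cl_unstable hN h hB hB' hP hD (rank_of_gen h hB' 0 1 fun z => ?_)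
  refine ⟨(z 0).coeff 0, (z 1).coeff 0, ![(z 0).divX, z 2, (z 1).divX], ?_⟩
  have h0 := divX_mul_X_add (z 0)
  have h1 := divX_mul_X_add (z 1)
  have hall : ∀ i : Fin 3, z i = Pi.single (M := fun _ => k[X]) 0 (C ((z 0).coeff 0)) i +
      Pi.single (M := fun _ => k[X]) 1 (C ((z 1).coeff 0)) i +
      (D *ᵥ ![(z 0).divX, z 2, (z 1).divX]) i := by
    intro i
    rw [mulVec3]
    simp only [Matrix.cons_val_zero, Matrix.cons_val_one, Matrix.cons_val_two, Matrix.head_cons,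
      Matrix.tail_cons]
    fin_cases i
    · show z 0 = Pi.single (M := fun _ => k[X]) 0 (C ((z 0).coeff 0)) 0 +
        Pi.single (M := fun _ => k[X]) 1 (C ((z 1).coeff 0)) 0 +
        (D 0 0 * (z 0).divX + D 0 1 * z 2 + D 0 2 * (z 1).divX)
      rw [d00, d01, d02, Pi.single_eq_same, Pi.single_eq_of_ne (by decide)]
      linear_combination -h0
    · show z 1 = Pi.single (M := fun _ => k[X]) 0 (C ((z 0).coeff 0)) 1 +
        Pi.single (M := fun _ => k[X]) 1 (C ((z 1).coeff 0)) 1 +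
        (D 1 0 * (z 0).divX + D 1 1 * z 2 + D 1 2 * (z 1).divX)
      rw [d10, d11, d12, Pi.single_eq_same, Pi.single_eq_of_ne (by decide)]
      linear_combination -h1
    · show z 2 = Pi.single (M := fun _ => k[X]) 0 (C ((z 0).coeff 0)) 2 +
        Pi.single (M := fun _ => k[X]) 1 (C ((z 1).coeff 0)) 2 +
        (D 2 0 * (z 0).divX + D 2 1 * z 2 + D 2 2 * (z 1).divX)
      rw [d20, d21, d22, Pi.single_eq_of_ne (by decide), Pi.single_eq_of_ne (by decide)]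
      ring
  funext i
  exact hall i

/-- the entries of the shape -/
theorem shape_iff (d e : ℕ) (b S : Matrix (Fin 3) (Fin 3) k[X]) :
    S = shape d e b ↔ (S 0 0 = X * b 0 0 ∧ S 0 1 = X ^ (d + 2) * b 0 1 ∧
      S 0 2 = X ^ (d + e + 4) * b 0 2) ∧ (S 1 0 = b 1 0 ∧ S 1 1 = X * b 1 1 ∧
      S 1 2 = X ^ (e + 2) * b 1 2) ∧ (S 2 0 = b 2 0 ∧ S 2 1 = b 2 1 ∧ S 2 2 = X * b 2 2) := by
  constructor
  · rintro rfl
    exact ⟨⟨rfl, rfl, rfl⟩, ⟨rfl, rfl, rfl⟩, ⟨rfl, rfl, rfl⟩⟩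
  · rintro ⟨⟨h00, h01, h02⟩, ⟨h10, h11, h12⟩, ⟨h20, h21, h22⟩⟩
    ext1 i j
    exact forall33 (p := fun i j => S i j = shape d e b i j) h00 h01 h02 h10 h11 h12 h20 h21 h22
      i j

theorem shape_low (d e : ℕ) (b : Matrix (Fin 3) (Fin 3) k[X]) :
    ∀ i j, i ≤ j → X ∣ shape d e b i j := by
  obtain ⟨⟨h00, h01, h02⟩, ⟨-, h11, h12⟩, ⟨-, -, h22⟩⟩ :=
    (shape_iff d e b (shape d e b)).1 rfl
  refine forall33 ?_ ?_ ?_ ?_ ?_ ?_ ?_ ?_ ?_
  · intro _; rw [h00]; exact dvd_mul_right _ _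
  · intro _; rw [h01]; exact (dvd_pow_self X (Nat.succ_ne_zero _)).mul_right _
  · intro _; rw [h02]; exact (dvd_pow_self X (Nat.succ_ne_zero _)).mul_right _
  · intro h; exact absurd h (by decide)
  · intro _; rw [h11]; exact dvd_mul_right _ _
  · intro _; rw [h12]; exact (dvd_pow_self X (Nat.succ_ne_zero _)).mul_right _
  · intro h; exact absurd h (by decide)
  · intro h; exact absurd h (by decide)
  · intro _; rw [h22]; exact dvd_mul_right _ _

theorem shape_exists (h : BlkB A v a) {d e : ℕ} (h01 : a 0 = (d + 2) + a 1)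
    (h12 : a 1 = (e + 2) + a 2) (b : Matrix (Fin 3) (Fin 3) k[X]) :
    ∃ B', Rep A v B' (shape d e b) := by
  obtain ⟨⟨k00, k01, k02⟩, ⟨k10, k11, k12⟩, ⟨k20, k21, k22⟩⟩ :=
    (shape_iff d e b (shape d e b)).1 rfl
  refine exists_of_rep h _ (forall33 ?_ ?_ ?_ ?_ ?_ ?_ ?_ ?_ ?_)
  · exact dvd_mul_left _ _
  · rw [k01, h01, pow_add X (d + 2) (a 1), mul_right_comm]
    exact dvd_mul_right _ _
  · rw [k02, show a 0 = (d + e + 4) + a 2 by omega, pow_add X (d + e + 4) (a 2), mul_right_comm]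
    exact dvd_mul_right _ _
  · exact (pow_dvd_pow X (by omega)).trans (dvd_mul_left _ _)
  · exact dvd_mul_left _ _
  · rw [k12, h12, pow_add X (e + 2) (a 2), mul_right_comm]
    exact dvd_mul_right _ _
  · exact (pow_dvd_pow X (by omega)).trans (dvd_mul_left _ _)
  · exact (pow_dvd_pow X (by omega)).trans (dvd_mul_left _ _)
  · exact dvd_mul_left _ _

theorem shape_of_rep {d e : ℕ} (h01 : a 0 = (d + 2) + a 1)
    (h12 : a 1 = (e + 2) + a 2) {P : Matrix (Fin 3) (Fin 3) k[X]}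
    (hPd : ∀ i j, X ^ (a i) ∣ P i j * X ^ (a j)) (hP : ∀ i j, i ≤ j → X ∣ P i j) :
    ∃ b, P = shape d e b := by
  obtain ⟨b00, h00⟩ := hP 0 0 le_rfl
  obtain ⟨b11, h11⟩ := hP 1 1 le_rfl
  obtain ⟨b22, h22⟩ := hP 2 2 le_rfl
  obtain ⟨b01, hb01⟩ := dvd_X_cancel h01 (hPd 0 1)
  obtain ⟨b12, hb12⟩ := dvd_X_cancel h12 (hPd 1 2)
  obtain ⟨b02, hb02⟩ := dvd_X_cancel (show a 0 = (d + e + 4) + a 2 by omega) (hPd 0 2)
  exact ⟨!![b00, b01, b02; P 1 0, b11, b12; P 2 0, P 2 1, b22],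
    (shape_iff d e _ P).2 ⟨⟨h00, hb01, hb02⟩, ⟨rfl, h11, hb12⟩, ⟨rfl, rfl, h22⟩⟩⟩

theorem shape_line (d e : ℕ) (b c : Matrix (Fin 3) (Fin 3) k[X]) (s : k) :
    shape d e b + C s • (shape d e c - shape d e b) = shape d e (b + C s • (c - b)) := by
  obtain ⟨⟨k00, k01, k02⟩, ⟨k10, k11, k12⟩, ⟨k20, k21, k22⟩⟩ :=
    (shape_iff d e b (shape d e b)).1 rfl
  obtain ⟨⟨l00, l01, l02⟩, ⟨l10, l11, l12⟩, ⟨l20, l21, l22⟩⟩ :=
    (shape_iff d e c (shape d e c)).1 rfl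
  rw [shape_iff]
  simp only [Matrix.add_apply, Matrix.smul_apply, Matrix.sub_apply, smul_eq_mul]
  rw [k00, k01, k02, k10, k11, k12, k20, k21, k22, l00, l01, l02, l10, l11, l12, l20, l21, l22]
  refine ⟨⟨?_, ?_, ?_⟩, ⟨?_, ?_, ?_⟩, ⟨?_, ?_, ?_⟩⟩ <;> ring

/-- the end of the path in the stable case -/
theorem disc_end [CharZero k] (d e : ℕ) {c : Matrix (Fin 3) (Fin 3) k[X]}
    (c00 : c 0 0 = 0) (c01 : c 0 1 = 1) (c02 : c 0 2 = 0) (c10 : c 1 0 = 1) (c11 : c 1 1 = 1)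
    (c12 : c 1 2 = 1) (c20 : c 2 0 = 0) (c21 : c 2 1 = 1) (c22 : c 2 2 = -1) :
    disc ((q2 c).eval 0) ((q1 d e c).eval 0) ((q0 d e c).eval 0) ≠ 0 := by
  have e2 : (q2 c).eval 0 = 0 := by
    rw [q2, c00, c11, c22]
    simp
  have e1 : (q1 d e c).eval 0 = -1 - ((X : k[X]) ^ d).eval 0 - ((X : k[X]) ^ e).eval 0 := by
    rw [q1, c00, c01, c02, c10, c11, c12, c20, c21, c22]
    simp
  have e0 : (q0 d e c).eval 0 = ((X : k[X]) ^ d).eval 0 := by
    rw [q0, c00, c01, c02, c10, c11, c12, c20, c21, c22]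
    simp
  rw [e2, e1, e0]
  unfold disc
  rcases Nat.eq_zero_or_pos d with rfl | hd <;> rcases Nat.eq_zero_or_pos e with rfl | he
  · simp only [pow_zero, eval_one]
    norm_num
  · simp only [pow_zero, eval_one, eval_pow, eval_X, zero_pow he.ne']
    norm_num
  · simp only [pow_zero, eval_one, eval_pow, eval_X, zero_pow hd.ne']
    norm_num
  · simp only [eval_pow, eval_X, zero_pow hd.ne', zero_pow he.ne']
    norm_num

/-- the path and its polynomial dependence -/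
theorem path_finite [CharZero k] (d e : ℕ) (b : Matrix (Fin 3) (Fin 3) k[X]) :
    ∃ c : Matrix (Fin 3) (Fin 3) k[X], ∃ F : Set k, F.Finite ∧ ∀ s ∉ F,
      disc ((q2 (b + C s • (c - b))).eval 0) ((q1 d e (b + C s • (c - b))).eval 0)
        ((q0 d e (b + C s • (c - b))).eval 0) ≠ 0 ∧
      ((b + C s • (c - b)) 1 0).coeff 0 ≠ 0 ∧ ((b + C s • (c - b)) 2 1).coeff 0 ≠ 0 ∧
      ((b + C s • (c - b)) 0 1).coeff 0 ≠ 0 ∧ ((b + C s • (c - b)) 1 2).coeff 0 ≠ 0 := by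
  obtain ⟨c, c00, c01, c02, c10, c11, c12, c20, c21, c22⟩ :
      ∃ c : Matrix (Fin 3) (Fin 3) k[X], c 0 0 = 0 ∧ c 0 1 = 1 ∧ c 0 2 = 0 ∧ c 1 0 = 1 ∧
        c 1 1 = 1 ∧ c 1 2 = 1 ∧ c 2 0 = 0 ∧ c 2 1 = 1 ∧ c 2 2 = -1 :=
    ⟨!![0, 1, 0; 1, 1, 1; 0, 1, -1], rfl, rfl, rfl, rfl, rfl, rfl, rfl, rfl, rfl⟩
  obtain ⟨bs, hbs⟩ : ∃ bs : k → Matrix (Fin 3) (Fin 3) k[X], ∀ s, bs s = b + C s • (c - b) :=
    ⟨_, fun _ => rfl⟩
  have hpij : ∀ i j, D7.IsPoly fun s => (bs s i j).eval 0 := by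
    intro i j
    have h1 : (fun s => (bs s i j).eval 0) =
        fun s => (b i j).eval 0 + s * ((c i j).eval 0 - (b i j).eval 0) := by
      funext s
      rw [hbs]
      show (b i j + C s * (c i j - b i j)).eval 0 = _
      rw [eval_add, eval_mul, eval_C, eval_sub]
    rw [h1]
    exact (D7.IsPoly.const _).add (D7.IsPoly.id.mul (D7.IsPoly.const _))
  have hX : ∀ n : ℕ, D7.IsPoly fun _ : k => ((X : k[X]) ^ n).eval 0 := fun n => D7.IsPoly.const _
  have hq2 : D7.IsPoly fun s => (q2 (bs s)).eval 0 := by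
    simp only [q2, eval_add]
    exact ((hpij 0 0).add (hpij 1 1)).add (hpij 2 2)
  have hq1 : D7.IsPoly fun s => (q1 d e (bs s)).eval 0 := by
    simp only [q1, eval_add, eval_sub, eval_mul]
    exact ((((((hpij 0 0).mul (hpij 1 1)).add ((hpij 0 0).mul (hpij 2 2))).add
      ((hpij 1 1).mul (hpij 2 2))).sub ((hX d).mul ((hpij 0 1).mul (hpij 1 0)))).sub
      ((hX e).mul ((hpij 1 2).mul (hpij 2 1)))).sub
      ((hX (d + e + 2)).mul ((hpij 0 2).mul (hpij 2 0)))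
  have hq0 : D7.IsPoly fun s => (q0 d e (bs s)).eval 0 := by
    simp only [q0, eval_add, eval_sub, eval_mul]
    exact ((((((hpij 0 0).mul (hpij 1 1)).mul (hpij 2 2)).add ((hX (d + e + 1)).mul
      ((((hpij 0 1).mul (hpij 1 2)).mul (hpij 2 0)).add
        (((hpij 0 2).mul (hpij 1 0)).mul (hpij 2 1))))).sub
      ((hX e).mul (((hpij 0 0).mul (hpij 1 2)).mul (hpij 2 1)))).sub
      ((hX d).mul (((hpij 2 2).mul (hpij 0 1)).mul (hpij 1 0)))).sub
      ((hX (d + e + 2)).mul (((hpij 1 1).mul (hpij 0 2)).mul (hpij 2 0)))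
  have hdisc : D7.IsPoly fun s =>
      disc ((q2 (bs s)).eval 0) ((q1 d e (bs s)).eval 0) ((q0 d e (bs s)).eval 0) := by
    unfold disc
    exact (((((hq2.pow 2).mul (hq1.pow 2)).sub ((D7.IsPoly.const 4).mul (hq1.pow 3))).sub
      (((D7.IsPoly.const 4).mul (hq2.pow 3)).mul hq0)).add
      ((((D7.IsPoly.const 18).mul hq2).mul hq1).mul hq0)).sub ((D7.IsPoly.const 27).mul (hq0.pow 2))
  have hb1 : bs 1 = c := by
    rw [hbs, C_1, one_smul, add_sub_cancel]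
  have hgood1 := disc_end (k := k) d e c00 c01 c02 c10 c11 c12 c20 c21 c22
  have hfin := D7.IsPoly.finite ((((hdisc.mul (hpij 1 0)).mul (hpij 2 1)).mul (hpij 0 1)).mul
    (hpij 1 2)) (s₁ := 1) (by
      rw [hb1, c10, c21, c01, c12, eval_one, mul_one, mul_one, mul_one, mul_one]
      exact hgood1)
  refine ⟨c, _, hfin, fun s hs => ?_⟩
  rw [← hbs]
  have hs' : disc ((q2 (bs s)).eval 0) ((q1 d e (bs s)).eval 0)
      ((q0 d e (bs s)).eval 0) * (bs s 1 0).eval 0 * (bs s 2 1).eval 0 * (bs s 0 1).eval 0 *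
      (bs s 1 2).eval 0 ≠ 0 := hs
  obtain ⟨⟨⟨⟨g1, g2⟩, g3⟩, g4⟩, g5⟩ : ((((disc ((q2 (bs s)).eval 0) ((q1 d e (bs s)).eval 0)
      ((q0 d e (bs s)).eval 0) ≠ 0 ∧
      (bs s 1 0).eval 0 ≠ 0) ∧ (bs s 2 1).eval 0 ≠ 0) ∧ (bs s 0 1).eval 0 ≠ 0) ∧
      (bs s 1 2).eval 0 ≠ 0) := by
    simpa only [mul_ne_zero_iff] using hs'
  rw [← coeff_zero_eq_eval_zero] at g2 g3 g4 g5
  exact ⟨g1, g2, g3, g4, g5⟩

/-- the stable case -/
theorem cl_stable [IsAlgClosed k] [CharZero k]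
    (H : ∀ (A B : Matrix (Fin N) (Fin N) k) (v ψ : Fin N → k) (a0 a1 a2 : k[X]) (t0 t1 t2 : k),
      Good A B v ψ a0 a1 a2 t0 t1 t2 → Cl ![A, B, 0])
    (h : BlkB A v a) (hpos : ∀ j, 0 < a j) {P : Matrix (Fin 3) (Fin 3) k[X]} (hB : Rep A v B P)
    (hPd : ∀ i j, X ^ (a i) ∣ P i j * X ^ (a j)) (hP : ∀ i j, i ≤ j → X ∣ P i j) {d e : ℕ}
    (h01 : a 0 = (d + 2) + a 1) (h12 : a 1 = (e + 2) + a 2) : Cl ![A, B, 0] := by
  have : Infinite k := IsAlgClosed.instInfinite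
  obtain ⟨b, rfl⟩ := shape_of_rep h01 h12 hPd hP
  obtain ⟨c, F, hF, hc⟩ := path_finite d e b
  obtain ⟨B', hB'⟩ := shape_exists h h01 h12 c
  refine cl_line (B' := B') hF fun s hs => ?_
  obtain ⟨g1, g2, g3, g4, g5⟩ := hc s hs
  have hR := rep_line hB hB' s
  rw [shape_line] at hR
  generalize hbs : b + C s • (c - b) = bs at *
  obtain ⟨t0, t1, t2, hroots, ht01, ht02, ht12⟩ := cubic_roots _ _ _ g1
  obtain ⟨⟨k00, k01, k02⟩, ⟨k10, k11, k12⟩, ⟨k20, k21, k22⟩⟩ :=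
    (shape_iff d e bs (shape d e bs)).1 rfl
  have e01 : shape d e bs 0 1 = X ^ (a 0 - a 1) * bs 0 1 := by
    rw [show a 0 - a 1 = d + 2 by omega]
    exact k01
  have e02 : shape d e bs 0 2 = X ^ (a 0 - a 2) * bs 0 2 := by
    rw [show a 0 - a 2 = d + e + 4 by omega]
    exact k02
  have e12 : shape d e bs 1 2 = X ^ (a 1 - a 2) * bs 1 2 := by
    rw [show a 1 - a 2 = e + 2 by omega]
    exact k12
  rw [← k10] at g2
  rw [← k21] at g3
  obtain ⟨ψ, hψ⟩ := cocyc_of_rep h hpos (by omega) (by omega) hR (shape_low d e bs) e01 e02 e12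
    g4 g5
  exact H A (B + s • (B' - B)) (v 0) ψ (q0 d e bs) (q1 d e bs) (q2 bs) t0 t1 t2
    { comm := comm_A h hR
      nilA := nilp_A h
      nilB := nilp_low h hR (shape_low d e bs)
      cyc := cyc_of_rep h hR (shape_low d e bs) g2 g3
      cocyc := hψ
      rel := rel_of_rep h hR
      roots := hroots
      ne01 := ht01
      ne02 := ht02
      ne12 := ht12 }

end Blk

open Blk in
/-- planar triples of corank at most 3 are limits of curvilinear ones if the good ones are -/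
theorem planar_reduce [IsAlgClosed k] [CharZero k] (hN : 0 < N)
    (H : ∀ (A B : Matrix (Fin N) (Fin N) k) (v ψ : Fin N → k) (a0 a1 a2 : k[X]) (t0 t1 t2 : k),
      Good A B v ψ a0 a1 a2 t0 t1 t2 → Cl ![A, B, 0])
    {A B : Matrix (Fin N) (Fin N) k} (hT : CN ![A, B, 0]) (hr : N ≤ A.rank + 3) :
    Cl ![A, B, 0] := by
  have hA : IsNilpotent A := hT.2 0
  have hBn : IsNilpotent B := hT.2 1
  have hAB : A * B = B * A := hT.1 0 1
  by_cases hr2 : N ≤ A.rank + 2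
  · exact Pool.Agent.Lib.D8.cl_corank_zero hN hT hr2
  obtain ⟨r, v, a, hblk, hpos, hanti, hrank⟩ := exists_blk hA
  obtain rfl : r = 3 := by omega
  obtain ⟨v', hblk', P, hRep, hPd, hP⟩ := adapt hblk hpos hanti hAB hBn
  by_cases h01 : a 0 ≤ a 1 + 1
  · exact cl_unstable01 hN hblk' hanti hRep hP h01
  by_cases h12 : a 1 ≤ a 2 + 1
  · exact cl_unstable12 hN hblk' hanti hRep hP h12
  exact cl_stable H hblk' hpos hRep hPd hP (d := a 0 - a 1 - 2) (e := a 1 - a 2 - 2) (by omega)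
    (by omega)

end Pool.Agent.Lib.D13.Pl
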