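import Pool.Agent.Lib.D13.PurDim

/-!
# MP_5dcbc3_ag: the dimension formula `dim S/q + ht q = dim S` for finitely generated domains
-/

namespace Pool.Agent.Lib.D13.Pur

open Polynomial

/-- height plus coheight -/
theorem height_add_dim_le {R : Type*} [CommRing R] (p : Ideal R) [hp : p.IsPrime] :
    (p.height : WithBot ℕ∞) + ringKrullDim (R ⧸ p) ≤ ringKrullDim R := by
  let P : PrimeSpectrum R := ⟨p, hp⟩
  have hne : Nonempty (PrimeSpectrum R) := ⟨P⟩
  have h1 : ringKrullDim (R ⧸ p) = (Order.coheight P : WithBot ℕ∞) := by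
    rw [ringKrullDim_quotient, Order.coheight_eq_krullDim_Ici]
    have h2 : PrimeSpectrum.zeroLocus (p : Set R) = Set.Ici P := by
      ext q
      exact Iff.rfl
    rw [h2]
  have h3 : p.height = Order.height P := P.height_eq_orderHeight
  rw [h1, h3, ringKrullDim, Order.krullDim_eq_iSup_height_add_coheight_of_nonempty]
  norm_cast
  exact le_iSup (fun a : PrimeSpectrum R => Order.height a + Order.coheight a) P

/-- the height in a quotient by a nonzero ideal of a domain -/
theorem height_map_add_one_le {R : Type*} [CommRing R] [IsDomain R] [IsNoetherianRing R]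
    {I p : Ideal R} [hp : p.IsPrime] (hI : I ≠ ⊥) (hIp : I ≤ p) :
    (p.map (Ideal.Quotient.mk I)).height + 1 ≤ p.height := by
  have hp' : (p.map (Ideal.Quotient.mk I)).IsPrime := Ideal.isPrime_map_quotientMk_of_isPrime hIp
  obtain ⟨l, hl, hlen⟩ := (p.map (Ideal.Quotient.mk I)).exists_ltSeries_length_eq_height
  let l' : LTSeries (PrimeSpectrum R) := l.map (PrimeSpectrum.comap (Ideal.Quotient.mk I))
    (RingHom.strictMono_comap_of_surjective Ideal.Quotient.mk_surjective)
  have hb : (⟨⊥, Ideal.isPrime_bot⟩ : PrimeSpectrum R) < l'.head := by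
    have h1 : (⊥ : Ideal R) < l'.head.asIdeal := by
      rw [bot_lt_iff_ne_bot]
      intro h2
      apply hI
      rw [eq_bot_iff, ← h2]
      intro x hx
      show (Ideal.Quotient.mk I) x ∈ l.head.asIdeal
      rw [Ideal.Quotient.eq_zero_iff_mem.2 hx]
      exact zero_mem _
    exact h1
  have hlast : l'.last = (⟨p, hp⟩ : PrimeSpectrum R) := by
    apply PrimeSpectrum.ext
    show (l.last.asIdeal).comap (Ideal.Quotient.mk I) = p
    rw [hl]
    show (p.map (Ideal.Quotient.mk I)).comap (Ideal.Quotient.mk I) = p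
    rw [Ideal.comap_map_of_surjective _ Ideal.Quotient.mk_surjective, ← RingHom.ker_eq_comap_bot,
      Ideal.mk_ker, sup_eq_left.2 hIp]
  have h3 : p.height = Order.height (⟨p, hp⟩ : PrimeSpectrum R) :=
    (⟨p, hp⟩ : PrimeSpectrum R).height_eq_orderHeight
  rw [h3, ← hlen]
  have h4 := Order.length_le_height (p := l'.cons _ hb) (x := (⟨p, hp⟩ : PrimeSpectrum R)) (by
    rw [RelSeries.last_cons, hlast])
  refine le_trans ?_ h4
  simp [l']

/-- dimension of the quotient by a prime and by its contraction in an integral extension -/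
theorem dim_quot_comap (k : Type*) {R S : Type*} [Field k] [CommRing R] [Algebra k R]
    [Algebra.FiniteType k R] [CommRing S] [IsNoetherianRing S] [Algebra R S]
    [Algebra.IsIntegral R S] (q : Ideal S) [q.IsPrime] :
    ∃ m : ℕ, (ringKrullDim (R ⧸ q.comap (algebraMap R S)) = m ∧
      ∀ P : Ideal (R ⧸ q.comap (algebraMap R S)), P.IsMaximal → P.height = m) ∧
      (ringKrullDim (S ⧸ q) = m ∧ ∀ P : Ideal (S ⧸ q), P.IsMaximal → P.height = m) := by
  let p : Ideal R := q.comap (algebraMap R S)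
  have hp : p.IsPrime := inferInstanceAs (q.comap (algebraMap R S)).IsPrime
  let φ : (R ⧸ p) →+* (S ⧸ q) := Ideal.quotientMap q (algebraMap R S) le_rfl
  have hφ : Function.Injective φ := Ideal.quotientMap_injective' le_rfl
  have hφi : φ.IsIntegral := by
    refine RingHom.IsIntegral.tower_top (Ideal.Quotient.mk p) φ ?_
    have h1 : φ.comp (Ideal.Quotient.mk p) = (Ideal.Quotient.mk q).comp (algebraMap R S) :=
      Ideal.quotientMap_comp_mk _
    rw [h1]
    exact RingHom.IsIntegral.trans _ _ (algebraMap_isIntegral_iff.2 inferInstance)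
      (RingHom.isIntegral_of_surjective _ Ideal.Quotient.mk_surjective)
  let _ : Algebra (R ⧸ p) (S ⧸ q) := φ.toAlgebra
  have h2 : Algebra.IsIntegral (R ⧸ p) (S ⧸ q) := ⟨hφi⟩
  exact dim_eq_int k (A := R ⧸ p) (B := S ⧸ q) hφ

/-- the formula for polynomial rings -/
theorem mv_catenary {k : Type*} [Field k] (n : ℕ) (p : Ideal (MvPolynomial (Fin n) k))
    [hp : p.IsPrime] : ∃ m h : ℕ, ringKrullDim (MvPolynomial (Fin n) k ⧸ p) = m ∧ p.height = h ∧
      m + h = n := by
  have hdim : ∀ n : ℕ, ringKrullDim (MvPolynomial (Fin n) k) = n := fun n => by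
    rw [MvPolynomial.ringKrullDim_of_isNoetherianRing, ringKrullDim_eq_zero_of_field, zero_add,
      Nat.card_eq_fintype_card, Fintype.card_fin]
  induction n with
  | zero =>
    have hmax : p = ⊥ := by
      rw [← Ideal.height_eq_zero_iff_eq_bot]
      have h1 := Ideal.height_le_ringKrullDim_of_ne_top (I := p) hp.ne_top
      rw [hdim 0] at h1
      have h2 : p.height ≤ 0 := by exact_mod_cast h1
      exact nonpos_iff_eq_zero.1 h2
    refine ⟨0, 0, ?_, ?_, rfl⟩
    · rw [hmax, ringKrullDim_eq_of_ringEquiv (RingEquiv.quotientBot _), hdim 0]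
    · rw [hmax, Ideal.height_bot]
      rfl
  | succ n ih =>
    by_cases hb : p = ⊥
    · refine ⟨n + 1, 0, ?_, ?_, rfl⟩
      · rw [hb, ringKrullDim_eq_of_ringEquiv (RingEquiv.quotientBot _), hdim]
      · rw [hb, Ideal.height_bot]
        rfl
    obtain ⟨π, hπp, hπ⟩ := hp.exists_mem_prime_of_ne_bot hb
    have hple : Ideal.span {π} ≤ p := (Ideal.span_singleton_le_iff_mem _).2 hπp
    have hpp : (Ideal.span {π}).IsPrime := (Ideal.span_singleton_prime hπ.ne_zero).2 hπ
    obtain ⟨s, g, hg, hgi⟩ := exists_integral_inj_algHom_of_fg k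
      (MvPolynomial (Fin (n + 1)) k ⧸ Ideal.span {π})
    let _ : Algebra (MvPolynomial (Fin s) k) (MvPolynomial (Fin (n + 1)) k ⧸ Ideal.span {π}) :=
      g.toRingHom.toAlgebra
    have h1 : Algebra.IsIntegral (MvPolynomial (Fin s) k)
      (MvPolynomial (Fin (n + 1)) k ⧸ Ideal.span {π}) := ⟨hgi⟩
    have hs : s = n := by
      have h2 := (height_maximal (k := k) (n := s)
        (S := MvPolynomial (Fin (n + 1)) k ⧸ Ideal.span {π}) hg).1
      have h3 := dim_quot_prime hπ
      rw [h2] at h3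
      have h4 : s + 1 = n + 1 := by exact_mod_cast h3
      omega
    subst hs
    set pb : Ideal (MvPolynomial (Fin (s + 1)) k ⧸ Ideal.span {π}) :=
      p.map (Ideal.Quotient.mk (Ideal.span {π})) with hpb
    have hpbp : pb.IsPrime := Ideal.isPrime_map_quotientMk_of_isPrime hple
    set p' : Ideal (MvPolynomial (Fin s) k) := pb.comap (algebraMap _ _) with hp'
    obtain ⟨m, h, hm, hh, hmh⟩ := ih p'
    have hfs : FaithfulSMul (MvPolynomial (Fin s) k)
      (MvPolynomial (Fin (s + 1)) k ⧸ Ideal.span {π}) :=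
      (faithfulSMul_iff_algebraMap_injective _ _).2 hg
    have e1 : p'.height ≤ pb.height := height_le_of_goingDown pb
    have e2 : pb.height + 1 ≤ p.height := height_map_add_one_le (by
      rw [Ne, Ideal.span_singleton_eq_bot]
      exact hπ.ne_zero) hple
    have e3 := height_add_dim_le p
    have e4 : ringKrullDim (MvPolynomial (Fin (s + 1)) k ⧸ p) = m := by
      have e5 : ringKrullDim (MvPolynomial (Fin (s + 1)) k ⧸ p) =
          ringKrullDim ((MvPolynomial (Fin (s + 1)) k ⧸ Ideal.span {π}) ⧸ pb) :=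
        ringKrullDim_eq_of_ringEquiv (DoubleQuot.quotQuotEquivQuotOfLE hple).symm
      rw [e5]
      obtain ⟨m', ⟨hm1, -⟩, hm2, -⟩ := dim_quot_comap k (R := MvPolynomial (Fin s) k) pb
      rw [hm2, ← hm1, hm]
    refine ⟨m, h + 1, e4, ?_, by omega⟩
    rw [e4, hdim] at e3
    have hfin : p.height ≠ ⊤ := Ideal.height_ne_top hp.ne_top
    obtain ⟨hp0, hhp0⟩ := ENat.ne_top_iff_exists.1 hfin
    rw [← hhp0] at e3 e2 ⊢
    have e6 : hp0 + m ≤ s + 1 := by exact_mod_cast e3
    have e7 : h + 1 ≤ hp0 := by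
      rw [hh] at e1
      have := (add_le_add_left e1 1).trans e2
      exact_mod_cast this
    have e8 : hp0 = h + 1 := by omega
    rw [e8]

/-- **the dimension formula** -/
theorem catenary (k : Type*) {S : Type*} [Field k] [CommRing S] [IsDomain S] [Algebra k S]
    [Algebra.FiniteType k S] (q : Ideal S) [hq : q.IsPrime] :
    ∃ n m h : ℕ, ringKrullDim S = n ∧ ringKrullDim (S ⧸ q) = m ∧ q.height = h ∧ m + h = n := by
  obtain ⟨n, g, hg, hgi⟩ := exists_integral_inj_algHom_of_fg k S
  let _ : Algebra (MvPolynomial (Fin n) k) S := g.toRingHom.toAlgebra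
  have h1 : Algebra.IsIntegral (MvPolynomial (Fin n) k) S := ⟨hgi⟩
  have h2 : IsNoetherianRing S := Algebra.FiniteType.isNoetherianRing k S
  have hfs : FaithfulSMul (MvPolynomial (Fin n) k) S :=
    (faithfulSMul_iff_algebraMap_injective _ _).2 hg
  have hS := (height_maximal (k := k) (n := n) (S := S) hg).1
  set p : Ideal (MvPolynomial (Fin n) k) := q.comap (algebraMap _ _) with hp
  obtain ⟨m, h, hm, hh, hmh⟩ := mv_catenary n p
  have e1 : p.height ≤ q.height := height_le_of_goingDown q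
  have e3 := height_add_dim_le q
  have e4 : ringKrullDim (S ⧸ q) = m := by
    obtain ⟨m', ⟨hm1, -⟩, hm2, -⟩ := dim_quot_comap k (R := MvPolynomial (Fin n) k) q
    rw [hm2, ← hm1, hm]
  refine ⟨n, m, h, hS, e4, ?_, hmh⟩
  rw [e4, hS] at e3
  have hfin : q.height ≠ ⊤ := Ideal.height_ne_top hq.ne_top
  obtain ⟨hq0, hhq0⟩ := ENat.ne_top_iff_exists.1 hfin
  rw [← hhq0] at e3 e1 ⊢
  have e6 : hq0 + m ≤ n := by exact_mod_cast e3
  have e7 : h ≤ hq0 := by
    rw [hh] at e1
    exact_mod_cast e1
  have e8 : hq0 = h := by omega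
  rw [e8]

end Pool.Agent.Lib.D13.Pur
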