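import Mathlib

/-!
# MP_5dcbc3_ag: extension of points along integral homomorphisms
-/

namespace Pool.Agent.Lib.D13.Pur

/-- `k`-points extend along integral homomorphisms of `k`-algebras, `k` algebraically closed -/
theorem extend_hom {k R S : Type*} [Field k] [IsAlgClosed k] [CommRing R] [CommRing S]
    [Algebra k R] [Algebra k S] (f : R →ₐ[k] S) (hf : (f : R →+* S).IsIntegral)
    (φ : R →ₐ[k] k) (hφ : ∀ r, f r = 0 → φ r = 0) :
    ∃ ψ : S →ₐ[k] k, ∀ r, ψ (f r) = φ r := by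
  let _ : Algebra R S := (f : R →+* S).toAlgebra
  have hint : Algebra.IsIntegral R S := ⟨hf⟩
  have hmax : (RingHom.ker φ).IsMaximal :=
    RingHom.ker_isMaximal_of_surjective φ fun c => ⟨algebraMap k R c, by simp⟩
  obtain ⟨Q, hQ, hQ'⟩ := Ideal.exists_ideal_over_maximal_of_isIntegral (S := S) (RingHom.ker φ)
    (by
      intro r hr
      exact hφ r hr)
  let _ : Field (S ⧸ Q) := Ideal.Quotient.field Q
  have hmem : ∀ r, f r ∈ Q ↔ φ r = 0 := by
    intro r
    have h1 : r ∈ Q.comap (algebraMap R S) ↔ r ∈ RingHom.ker φ := by rw [hQ']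
    exact h1
  have h1 : ∀ r, Ideal.Quotient.mk Q (f r) = algebraMap k (S ⧸ Q) (φ r) := by
    intro r
    have h2 : f (r - algebraMap k R (φ r)) ∈ Q := by
      rw [hmem]
      simp
    rw [map_sub, AlgHom.commutes, ← Ideal.Quotient.eq] at h2
    rw [h2]
    rfl
  have hint2 : Algebra.IsIntegral k (S ⧸ Q) := by
    refine ⟨fun x => ?_⟩
    obtain ⟨s, rfl⟩ := Ideal.Quotient.mk_surjective x
    obtain ⟨p, hp, hps⟩ := hf s
    refine ⟨p.map (φ : R →+* k), hp.map _, ?_⟩
    rw [Polynomial.eval₂_map]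
    have h3 : (algebraMap k (S ⧸ Q)).comp (φ : R →+* k) =
        (Ideal.Quotient.mk Q).comp (f : R →+* S) := by
      ext r
      exact (h1 r).symm
    rw [h3, ← Polynomial.hom_eval₂, hps, map_zero]
  have hbij := IsAlgClosed.algebraMap_bijective_of_isIntegral (k := k) (K := S ⧸ Q)
  let e : k ≃ₐ[k] (S ⧸ Q) := AlgEquiv.ofBijective (Algebra.ofId k (S ⧸ Q)) hbij
  refine ⟨(e.symm : (S ⧸ Q) →ₐ[k] k).comp (Ideal.Quotient.mkₐ k Q), fun r => ?_⟩
  have h4 : e (φ r) = Ideal.Quotient.mk Q (f r) := (h1 r).symm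
  change e.symm (Ideal.Quotient.mk Q (f r)) = φ r
  rw [← h4, AlgEquiv.symm_apply_apply]

end Pool.Agent.Lib.D13.Pur
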