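import Pool.Agent.Lib.D13.PurDefs
import Pool.Agent.Lib.D13.PurDim

/-!
# MP_5dcbc3_ag: from a family with one joint eigenvalue to an irreducible family of commuting
nilpotent triples
-/

set_option autoImplicit false

namespace Pool.Agent.Lib.D13

open Matrix MvPolynomial Pool.Agent.Lib.Q5dc Pool.Agent.Lib.D7

universe u

namespace Pur

section Ev

variable {k : Type*} [Field k] {n : Type*} {S : Type*} [CommRing S] [Algebra k S]

theorem ev_X (A : Fin 3 → Matrix n n S) (x : Fin 3 × n × n) :
    evA (k := k) A (X x) = A x.1 x.2.1 x.2.2 := by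
  unfold evA
  rw [aeval_X]

/-- the generic triple -/
noncomputable def gen (k : Type*) [Field k] (n : Type*) (i : Fin 3) :
    Matrix n n (MvPolynomial (Fin 3 × n × n) k) := Matrix.of fun a b => X (i, a, b)

theorem gen_map (A : Fin 3 → Matrix n n S) (i : Fin 3) :
    (gen k n i).map (evA (k := k) A) = A i := by
  ext a b
  show evA A (X (i, a, b)) = _
  rw [ev_X]

/-- evaluation at a triple over `k` -/
theorem ev_eq_eval (T : Fin 3 → Matrix n n k) (F : MvPolynomial (Fin 3 × n × n) k) :
    evA (k := k) T F = eval (co T) F := by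
  unfold evA
  rw [aeval_eq_eval]
  rfl

theorem ev_comp (A : Fin 3 → Matrix n n S) (φ : S →ₐ[k] k)
    (T : Fin 3 → Matrix n n k) (h : ∀ i, (A i).map φ = T i) (F : MvPolynomial (Fin 3 × n × n) k) :
    φ (evA A F) = eval (co T) F := by
  rw [← ev_eq_eval]
  have h1 : φ.comp (evA A) = evA T := by
    refine MvPolynomial.algHom_ext fun x => ?_
    rw [AlgHom.comp_apply, ev_X, ev_X, ← h]
    rfl
  exact DFunLike.congr_fun h1 F

end Ev

/-- the relations which hold for `A'` hold for the zeros of the kernel -/
theorem cn_of_ker {k : Type*} [Field k] {n : Type*} [Fintype n] [DecidableEq n] {S : Type*}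
    [CommRing S] [Algebra k S] {A : Fin 3 → Matrix n n S} (hc : ∀ i j, A i * A j = A j * A i)
    {m : ℕ} (hm : ∀ i, A i ^ m = 0) {T : Fin 3 → Matrix n n k}
    (hT : ∀ F ∈ RingHom.ker (evA (k := k) A), eval (co T) F = 0) : CN T := by
  have key : ∀ M : Matrix n n (MvPolynomial (Fin 3 × n × n) k),
      M.map (evA (k := k) A) = 0 → M.map (evA (k := k) T) = 0 := by
    intro M hM
    ext a b
    rw [Matrix.map_apply, ev_eq_eval, Matrix.zero_apply]
    refine hT _ ?_
    rw [RingHom.mem_ker]
    exact congrFun (congrFun hM a) b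
  refine ⟨fun i j => ?_, fun i => ⟨m, ?_⟩⟩
  · have h := key (gen k n i * gen k n j - gen k n j * gen k n i) (by
      have : (gen k n i * gen k n j - gen k n j * gen k n i).map (evA (k := k) A) =
          A i * A j - A j * A i := by
        have e : ∀ M : Matrix n n (MvPolynomial (Fin 3 × n × n) k), M.map (evA (k := k) A) =
            (evA (k := k) A).mapMatrix M := fun _ => rfl
        rw [e, map_sub, map_mul, map_mul, ← e, ← e, gen_map, gen_map]
      rw [this, hc i j, sub_self])
    have e : ∀ M : Matrix n n (MvPolynomial (Fin 3 × n × n) k), M.map (evA (k := k) T) =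
        (evA (k := k) T).mapMatrix M := fun _ => rfl
    rw [e, map_sub, map_mul, map_mul, ← e, ← e, gen_map, gen_map, sub_eq_zero] at h
    exact h
  · have h := key (gen k n i ^ m) (by
      have e : ∀ M : Matrix n n (MvPolynomial (Fin 3 × n × n) k), M.map (evA (k := k) A) =
          (evA (k := k) A).mapMatrix M := fun _ => rfl
      rw [e, map_pow, ← e, gen_map, hm])
    have e : ∀ M : Matrix n n (MvPolynomial (Fin 3 × n × n) k), M.map (evA (k := k) T) =
        (evA (k := k) T).mapMatrix M := fun _ => rfl
    rw [e, map_pow, ← e, gen_map] at h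
    exact h

/-- a scalar which is a difference of commuting nilpotent matrices is zero -/
theorem scalar_zero {k : Type*} [Field k] {n : Type*} [Fintype n] [DecidableEq n] [Nonempty n]
    {T : Matrix n n k} (hT : IsNilpotent T) {c : k} {m : ℕ}
    (h : (T - c • (1 : Matrix n n k)) ^ m = 0) : c = 0 := by
  have h1 : IsNilpotent (T - c • (1 : Matrix n n k)) := ⟨m, h⟩
  have hc : Commute T (T - c • (1 : Matrix n n k)) := by
    refine Commute.sub_right (Commute.refl T) ?_
    exact (Commute.one_right T).smul_right c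
  have h2 : IsNilpotent (c • (1 : Matrix n n k)) := by
    have := hc.isNilpotent_sub hT h1
    rwa [sub_sub_cancel] at this
  obtain ⟨e, he⟩ := h2
  rw [smul_pow, one_pow] at he
  have h3 := congrFun (congrFun he (Classical.arbitrary n)) (Classical.arbitrary n)
  rw [Matrix.smul_apply, Matrix.one_apply_eq, Matrix.zero_apply, smul_eq_mul, mul_one] at h3
  exact eq_zero_of_pow_eq_zero h3

/-- three more variables -/
theorem dim_aux {R Q S : Type*} [CommRing R] [CommRing Q] [IsNoetherianRing Q] [CommRing S]
    (φ : R →+* S) (hφ : φ.IsIntegral) (ψ : MvPolynomial (Fin 3) Q →+* S)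
    (g : R →+* MvPolynomial (Fin 3) Q) (h : ψ.comp g = φ) :
    ringKrullDim S ≤ ringKrullDim Q + 3 := by
  have hψ : ψ.IsIntegral := by
    refine RingHom.IsIntegral.tower_top g ψ ?_
    rw [h]
    exact hφ
  refine (dim_le_of_integral ψ hψ).trans ?_
  rw [MvPolynomial.ringKrullDim_of_isNoetherianRing]
  simp

/-- the irreducible family of commuting nilpotent triples -/
theorem of_fam {k : Type*} [Field k] {n : Type*} [Fintype n] [DecidableEq n] [Nonempty n]
    {T : Fin 3 → Matrix n n k} (hT : CN T) {S : Type*} [CommRing S] [IsDomain S] [Algebra k S]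
    (F : Fam T S) (l : Fin 3 → S) (m : ℕ)
    (hm : ∀ i, (F.A i - l i • (1 : Matrix n n S)) ^ m = 0) (N : ℕ)
    (hN : ((N + 3 : ℕ) : WithBot ℕ∞) ≤ ringKrullDim S) :
    ∃ I : Ideal (MvPolynomial (Fin 3 × n × n) k), I.IsPrime ∧ (∀ F ∈ I, eval (co T) F = 0) ∧
      (∀ T' : Fin 3 → Matrix n n k, (∀ F ∈ I, eval (co T') F = 0) → CN T') ∧
      (N : WithBot ℕ∞) ≤ ringKrullDim (MvPolynomial (Fin 3 × n × n) k ⧸ I) := by
  -- the nilpotent triple
  set A : Fin 3 → Matrix n n S := fun i => F.A i - l i • (1 : Matrix n n S) with hA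
  have hc : ∀ i j, A i * A j = A j * A i := by
    intro i j
    have h1 : Commute (F.A i) (F.A j) := F.comm i j
    have h2 : Commute (A i) (A j) := by
      refine Commute.sub_left (Commute.sub_right h1 ?_) (Commute.sub_right ?_ ?_)
      · exact (Commute.one_right _).smul_right _
      · exact (Commute.one_left _).smul_left _
      · exact ((Commute.refl _).smul_left _).smul_right _
    exact h2
  have hφl : ∀ i, F.φ (l i) = 0 := by
    intro i
    have h1 : ((F.A i - l i • (1 : Matrix n n S)).map F.φ) = T i - F.φ (l i) • 1 := by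
      rw [← F.spec i]
      ext a b
      simp only [Matrix.map_apply, Matrix.sub_apply, Matrix.smul_apply, map_sub, smul_eq_mul,
        map_mul]
      by_cases hab : a = b
      · subst hab
        simp
      · simp [hab]
    refine scalar_zero (hT.2 i) (m := m) ?_
    rw [← h1]
    have e : ∀ M : Matrix n n S, M.map F.φ = (F.φ).mapMatrix M := fun _ => rfl
    rw [e, ← map_pow, hm, map_zero]
  have hspec : ∀ i, (A i).map F.φ = T i := by
    intro i
    rw [← F.spec i]
    ext a b
    simp only [hA, Matrix.map_apply, Matrix.sub_apply, Matrix.smul_apply, map_sub, smul_eq_mul,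
      map_mul, hφl, zero_mul, sub_zero]
  refine ⟨RingHom.ker (evA (k := k) A), RingHom.ker_isPrime _, fun G hG => ?_, fun T' hT' => ?_, ?_⟩
  · rw [← ev_comp A F.φ T hspec G]
    rw [RingHom.mem_ker] at hG
    have : evA (k := k) A G = 0 := hG
    rw [this, map_zero]
  · exact cn_of_ker hc hm hT'
  · -- the dimension
    set I := RingHom.ker (evA (k := k) A) with hI
    have hIA : ∀ G ∈ I, ((evA (k := k) A : MvPolynomial (Fin 3 × n × n) k →ₐ[k] S) :
        MvPolynomial (Fin 3 × n × n) k →+* S) G = 0 := fun G hG => hG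
    let ψ : MvPolynomial (Fin 3) (MvPolynomial (Fin 3 × n × n) k ⧸ I) →+* S :=
      eval₂Hom (Ideal.Quotient.lift I _ hIA) l
    let g : MvPolynomial (Fin 3 × n × n) k →+*
        MvPolynomial (Fin 3) (MvPolynomial (Fin 3 × n × n) k ⧸ I) :=
      eval₂Hom (C.comp ((Ideal.Quotient.mk I).comp C))
        fun x => C (Ideal.Quotient.mk I (X x)) + if x.2.1 = x.2.2 then X x.1 else 0
    have hg : ψ.comp g = ((evA F.A : MvPolynomial (Fin 3 × n × n) k →ₐ[k] S) :
        MvPolynomial (Fin 3 × n × n) k →+* S) := by
      refine MvPolynomial.ringHom_ext (fun c => ?_) fun x => ?_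
      · show ψ (g (C c)) = evA F.A (C c)
        rw [show g (C c) = C (Ideal.Quotient.mk I (C c)) from eval₂Hom_C _ _ _]
        rw [show ψ (C (Ideal.Quotient.mk I (C c))) = evA A (C c) from by
          show eval₂Hom _ _ (C _) = _
          rw [eval₂Hom_C, Ideal.Quotient.lift_mk]
          rfl]
        unfold evA
        rw [algHom_C, algHom_C]
      · show ψ (g (X x)) = evA F.A (X x)
        rw [show g (X x) = C (Ideal.Quotient.mk I (X x)) + if x.2.1 = x.2.2 then X x.1 else 0
          from eval₂Hom_X' _ _ _, map_add, ev_X]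
        rw [show ψ (C (Ideal.Quotient.mk I (X x))) = A x.1 x.2.1 x.2.2 from by
          show eval₂Hom _ _ (C _) = _
          rw [eval₂Hom_C, Ideal.Quotient.lift_mk, ← ev_X (k := k) A x]
          rfl]
        by_cases hx : x.2.1 = x.2.2
        · rw [if_pos hx, show ψ (X x.1) = l x.1 from eval₂Hom_X' _ _ _]
          simp only [hA, Matrix.sub_apply, Matrix.smul_apply, hx, Matrix.one_apply_eq, smul_eq_mul,
            mul_one, sub_add_cancel]
        · rw [if_neg hx, map_zero, add_zero]
          simp only [hA, Matrix.sub_apply, Matrix.smul_apply, Matrix.one_apply_ne hx, smul_eq_mul,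
            mul_zero, sub_zero]
    have h1 : ringKrullDim S ≤ ringKrullDim (MvPolynomial (Fin 3 × n × n) k ⧸ I) + 3 :=
      dim_aux _ F.int ψ g hg
    have h2 := hN.trans h1
    generalize ringKrullDim (MvPolynomial (Fin 3 × n × n) k ⧸ I) = x at h2
    push_cast at h2
    induction x with
    | bot => simp at h2
    | coe y =>
      induction y using ENat.recTopCoe with
      | top => exact le_top
      | coe y =>
        have h3 : ((N + 3 : ℕ) : WithBot ℕ∞) ≤ ((y + 3 : ℕ) : WithBot ℕ∞) := by
          push_cast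
          exact h2
        have h4 : N + 3 ≤ y + 3 := Nat.cast_le.1 h3
        have h5 : N ≤ y := by omega
        exact_mod_cast h5

end Pur

end Pool.Agent.Lib.D13
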