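import Pool.Agent.Lib.D13.PurCut
import Pool.Agent.Lib.D13.GenPt
import Pool.Agent.Lib.D13.GenRk

/-!
# MP_5dcbc3_ag: generic points of families of commuting nilpotent triples
-/

namespace Pool.Agent.Lib.D13.Pur

open Matrix MvPolynomial Pool.Agent.Lib.Q5dc Pool.Agent.Lib.D7

universe u

theorem card_le_rk {k : Type*} [Field k] {K : Type*} [Field K] [Algebra k K] {σ : Type*}
    {x : σ → K} {s : Finset σ} (hs : AlgebraicIndependent k (fun i : s => x i.1)) :
    (s.card : ℕ∞) ≤ rk k (Set.range x) := by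
  classical
  have h1 : (AlgebraicIndependent.matroid k K).Indep (Set.range fun i : s => x i.1) := by
    rw [AlgebraicIndependent.matroid_indep_iff]
    exact hs.to_subtype_range
  have h2 : (Set.range fun i : s => x i.1) ⊆ Set.range x := by
    rintro _ ⟨i, rfl⟩
    exact ⟨i.1, rfl⟩
  have h3 := h1.encard_le_eRk_of_subset h2
  have h4 : (Set.range fun i : s => x i.1).encard = s.card := by
    rw [← Set.image_univ, hs.injective.encard_image, Set.encard_univ]
    simp
  rw [h4] at h3
  exact h3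

section

variable {k : Type u} [Field k] {n : Type} [Fintype n] [DecidableEq n]

/-- entries of the powers -/
noncomputable def pwm (i : Fin 3) (m : ℕ) (a b : n) : MvPolynomial (Fin 3 × n × n) k :=
  ((Matrix.of fun a b => X (i, a, b) : Matrix n n (MvPolynomial (Fin 3 × n × n) k)) ^ m) a b

theorem aeval_pwm {K : Type*} [Field K] [Algebra k K] (T : Fin 3 → Matrix n n K) (i : Fin 3)
    (m : ℕ) (a b : n) :
    aeval (co T) (pwm i m a b : MvPolynomial (Fin 3 × n × n) k) = (T i ^ m) a b := by
  have h1 : (aeval (co T) : MvPolynomial (Fin 3 × n × n) k →ₐ[k] K).mapMatrix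
      (Matrix.of fun a b => X (i, a, b)) = T i := by
    ext a b
    simp only [AlgHom.mapMatrix_apply, Matrix.map_apply, Matrix.of_apply, aeval_X]
    rfl
  have h2 := congrArg (fun M : Matrix n n K => (M ^ m) a b) h1
  simp only [← map_pow] at h2
  rw [← h2]
  rfl

omit [DecidableEq n] in
theorem aeval_cmm {K : Type*} [Field K] [Algebra k K] (T : Fin 3 → Matrix n n K) (i j : Fin 3)
    (a b : n) : aeval (co T) (cmm i j a b : MvPolynomial (Fin 3 × n × n) k) =
      (T i * T j - T j * T i) a b := by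
  rw [cmm, map_sub, map_sum, map_sum, Matrix.sub_apply, Matrix.mul_apply, Matrix.mul_apply]
  simp only [map_mul, aeval_X]
  rfl

/-- **the generic point of a family of commuting nilpotent triples** -/
theorem exists_generic [IsAlgClosed k] (q : Ideal (MvPolynomial (Fin 3 × n × n) k))
    [hq : q.IsPrime] (hqC : ∀ T' : Fin 3 → Matrix n n k, (∀ F ∈ q, eval (co T') F = 0) → CN T')
    {N : ℕ} (hN : ((N : ℕ) : WithBot ℕ∞) ≤ ringKrullDim (MvPolynomial (Fin 3 × n × n) k ⧸ q)) :
    ∃ (K : Type u) (_ : Field K) (_ : IsAlgClosed K) (_ : Algebra k K)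
      (T' : Fin 3 → Matrix n n K), CN T' ∧ (N : ℕ∞) ≤ rk k (Set.range (co T')) ∧
      ∀ F : MvPolynomial (Fin 3 × n × n) k, aeval (co T') F = 0 ↔ F ∈ q := by
  obtain ⟨K, i1, i2, i3, x, hx, s, hs, hs'⟩ := point_of_prime q
  have hco : co (tr x) = x := rfl
  refine ⟨K, i1, i2, i3, tr x, ⟨?_, ?_⟩, ?_, ?_⟩
  · intro i j
    ext a b
    have h1 : cmm i j a b ∈ q := by
      refine mem_of_zeros q fun y hy => ?_
      rw [← co_tr y] at hy ⊢
      rw [eval_cmm, ((hqC _ hy).1 i j), sub_self]
      rfl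
    have h2 := (hx _).2 h1
    rw [← hco, aeval_cmm, Matrix.sub_apply, sub_eq_zero] at h2
    exact h2
  · intro i
    refine ⟨Fintype.card n, ?_⟩
    ext a b
    have h1 : pwm i (Fintype.card n) a b ∈ q := by
      refine mem_of_zeros q fun y hy => ?_
      rw [← co_tr y] at hy ⊢
      have h3 := aeval_pwm (k := k) (tr y) i (Fintype.card n) a b
      have h4 : (tr y i) ^ Fintype.card n = 0 := by
        exact pow_card_eq_zero ((hqC _ hy).2 i)
      rw [h4] at h3
      exact h3
    have h2 := (hx _).2 h1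
    rw [← hco, aeval_pwm] at h2
    exact h2
  · refine le_trans ?_ (card_le_rk hs)
    rw [hs'] at hN
    exact_mod_cast hN
  · exact hx

/-- the first matrix of the generic point, if it is constant on the family -/
theorem generic_fst [IsAlgClosed k] {q : Ideal (MvPolynomial (Fin 3 × n × n) k)}
    [hq : q.IsPrime] {T : Fin 3 → Matrix n n k}
    (hqC : ∀ T' : Fin 3 → Matrix n n k, (∀ F ∈ q, eval (co T') F = 0) → CN T' ∧ T' 0 = T 0)
    {K : Type*} [Field K] [Algebra k K] {T' : Fin 3 → Matrix n n K}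
    (hT' : ∀ F : MvPolynomial (Fin 3 × n × n) k, aeval (co T') F = 0 ↔ F ∈ q) :
    T' 0 = (T 0).map (algebraMap k K) := by
  ext a b
  have h1 : (X (0, a, b) - C (T 0 a b) : MvPolynomial (Fin 3 × n × n) k) ∈ q := by
    refine mem_of_zeros q fun x hx => ?_
    rw [← co_tr x] at hx ⊢
    rw [map_sub, eval_X, eval_C, sub_eq_zero]
    exact congrFun (congrFun (hqC _ hx).2 a) b
  have h2 := (hT' _).2 h1
  rw [map_sub, aeval_X, aeval_C, sub_eq_zero] at h2
  exact h2

end

end Pool.Agent.Lib.D13.Pur
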