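import Mathlib

/-!
# MP_5dcbc3_ag: the purity step

If `R` is a UFD with fraction field `F`, `x i` are finitely many elements of an algebraic extension
`K` of `F`, then the radical of the ideal of all `r` with `r x i` integral over `R` is the radical
of a principal ideal.  A minimal prime of the ideal of denominators of the `x i` in the integral
closure lies over a principal prime ideal of `R`.
-/

namespace Pool.Agent.Lib.D13.Pur

open Polynomial

section U

variable {R F K : Type*} [CommRing R] [IsDomain R] [UniqueFactorizationMonoid R] [Field F]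
  [Algebra R F] [IsFractionRing R F] [Field K] [Algebra F K] [Algebra R K] [IsScalarTower R F K]

/-- minimal polynomial of a multiple -/
theorem minpoly_mul {x : K} (hx : IsIntegral F x) {r : F} (hr : r ≠ 0) :
    minpoly F (algebraMap F K r * x) = (minpoly F x).scaleRoots r := by
  have h1 : ∀ (y : K) (s : F), IsIntegral F y →
      minpoly F (algebraMap F K s * y) ∣ (minpoly F y).scaleRoots s := by
    intro y s hy
    exact minpoly.dvd _ _ (scaleRoots_aeval_eq_zero (minpoly.aeval F y))
  have hi : IsIntegral F (algebraMap F K r * x) := (isIntegral_algebraMap).mul hx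
  have h2 := h1 x r hx
  have h3 := h1 (algebraMap F K r * x) r⁻¹ hi
  rw [← mul_assoc, ← map_mul, inv_mul_cancel₀ hr, map_one, one_mul] at h3
  refine Polynomial.eq_of_monic_of_associated (minpoly.monic hi)
    ((monic_scaleRoots_iff r).2 (minpoly.monic hx)) ?_
  refine associated_of_dvd_dvd h2 ?_
  have h4 := scaleRoots_dvd _ _ (r := r) h3
  rwa [← scaleRoots_mul, inv_mul_cancel₀ hr, scaleRoots_one] at h4

/-- `r y` is integral over `R` iff the denominators of the coefficients of the minimal polynomial
of `y` divide the powers of `r` -/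
theorem integral_iff {y : K} (hy : IsIntegral F y) {r : R} (hr : r ≠ 0) :
    IsIntegral R (algebraMap R K r * y) ↔
      ∀ j < (minpoly F y).natDegree, ((IsFractionRing.den R ((minpoly F y).coeff j) : R)) ∣
        r ^ ((minpoly F y).natDegree - j) := by
  have hr' : algebraMap R F r ≠ 0 := by
    rw [Ne, IsFractionRing.to_map_eq_zero_iff]
    exact hr
  have hm := minpoly_mul hy hr'
  rw [← IsScalarTower.algebraMap_apply] at hm
  have hden : ∀ (c : F) (s : R), ((IsFractionRing.den R c : R)) ∣ s ↔
      ∃ t : R, c * algebraMap R F s = algebraMap R F t := by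
    intro c s
    have hc := IsFractionRing.mk'_num_den' R c
    have hd : algebraMap R F (IsFractionRing.den R c : R) ≠ 0 := by
      rw [Ne, IsFractionRing.to_map_eq_zero_iff]
      exact nonZeroDivisors.coe_ne_zero _
    constructor
    · rintro ⟨t, rfl⟩
      refine ⟨IsFractionRing.num R c * t, ?_⟩
      rw [map_mul, map_mul, ← hc]
      simp only [hc]
      rw [div_eq_iff hd] at hc
      rw [← mul_assoc, ← hc]
    · rintro ⟨t, ht⟩
      have h1 : IsFractionRing.num R c * s = (IsFractionRing.den R c : R) * t := by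
        apply IsFractionRing.injective R F
        rw [map_mul, map_mul, ← ht]
        rw [div_eq_iff hd] at hc
        rw [hc]
        ring
      have h2 : IsRelPrime (IsFractionRing.den R c : R) (IsFractionRing.num R c) :=
        (IsFractionRing.num_den_reduced R c).symm
      exact h2.dvd_of_dvd_mul_left ⟨t, h1⟩
  constructor
  · intro hint j hj
    rw [hden]
    have h1 := minpoly.isIntegrallyClosed_eq_field_fractions' F hint
    rw [hm] at h1
    refine ⟨(minpoly R (algebraMap R K r * y)).coeff j, ?_⟩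
    have h2 := congrArg (fun p => p.coeff j) h1
    simp only [coeff_scaleRoots, coeff_map] at h2
    rw [map_pow]
    exact h2
  · intro h
    have h1 : (minpoly F y).scaleRoots (algebraMap R F r) ∈ Polynomial.lifts (algebraMap R F) := by
      rw [lifts_iff_coeff_lifts]
      intro j
      rw [coeff_scaleRoots]
      rcases lt_trichotomy j (minpoly F y).natDegree with hj | hj | hj
      · obtain ⟨t, ht⟩ := (hden _ _).1 (h j hj)
        refine ⟨t, ?_⟩
        rw [← ht, map_pow]
      · refine ⟨1, ?_⟩
        rw [hj, Nat.sub_self, pow_zero, mul_one, map_one]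
        exact (minpoly.monic hy).symm
      · refine ⟨0, ?_⟩
        rw [coeff_eq_zero_of_natDegree_lt hj, zero_mul, map_zero]
    obtain ⟨q, hq1, -, hq3⟩ := lifts_and_natDegree_eq_and_monic h1
      ((monic_scaleRoots_iff _).2 (minpoly.monic hy))
    refine ⟨q, hq3, ?_⟩
    have h2 := minpoly.aeval F (algebraMap R K r * y)
    rw [hm, ← hq1, aeval_map_algebraMap] at h2
    exact h2

/-- **the denominators of finitely many algebraic elements over a UFD** -/
theorem ufd_denoms {ι : Type*} [Finite ι] (x : ι → K) (hx : ∀ i, IsIntegral F (x i)) :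
    ∃ f : R, f ≠ 0 ∧ ∀ r : R, (∃ m : ℕ, ∀ i, IsIntegral R (algebraMap R K r ^ m * x i)) ↔
      ∃ m : ℕ, f ∣ r ^ m := by
  classical
  have := Fintype.ofFinite ι
  let d : (Σ i : ι, Fin (minpoly F (x i)).natDegree) → R :=
    fun p => (IsFractionRing.den R ((minpoly F (x p.1)).coeff p.2) : R)
  refine ⟨∏ p, d p, ?_, ?_⟩
  · refine Finset.prod_ne_zero_iff.2 fun p _ => ?_
    exact nonZeroDivisors.coe_ne_zero _
  intro r
  by_cases hr : r = 0
  · refine ⟨fun _ => ⟨1, ?_⟩, fun _ => ⟨1, fun i => ?_⟩⟩
    · rw [hr, pow_one]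
      exact dvd_zero _
    · rw [hr, map_zero, pow_one, zero_mul]
      exact isIntegral_zero
  constructor
  · rintro ⟨m, hm⟩
    have h1 : ∀ p, d p ∣ r ^ (m * ((minpoly F (x p.1)).natDegree - p.2)) := by
      rintro ⟨i, j⟩
      have h2 := hm i
      rw [← map_pow, integral_iff (hx i) (pow_ne_zero m hr)] at h2
      have h3 := h2 j j.2
      rwa [← pow_mul] at h3
    refine ⟨∑ p : (Σ i : ι, Fin (minpoly F (x i)).natDegree),
      m * ((minpoly F (x p.1)).natDegree - p.2), ?_⟩
    rw [← Finset.prod_pow_eq_pow_sum]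
    exact Finset.prod_dvd_prod_of_dvd _ _ fun p _ => h1 p
  · rintro ⟨m, hm⟩
    refine ⟨m, fun i => ?_⟩
    rw [← map_pow, integral_iff (hx i) (pow_ne_zero m hr)]
    intro j hj
    have h1 : d ⟨i, ⟨j, hj⟩⟩ ∣ ∏ p, d p := Finset.dvd_prod_of_mem _ (Finset.mem_univ _)
    have h2 : d ⟨i, ⟨j, hj⟩⟩ ∣ r ^ m := h1.trans hm
    refine h2.trans ?_
    exact dvd_pow_self _ (by omega)

end U

section V

variable {R F K S ι : Type*} [CommRing R] [IsDomain R] [UniqueFactorizationMonoid R] [Field F]
  [Algebra R F] [IsFractionRing R F] [Field K] [Algebra F K] [Algebra R K] [IsScalarTower R F K]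
  [CommRing S] [IsNoetherianRing S] [Algebra R S] [Algebra S K] [IsScalarTower R S K]
  [IsIntegralClosure S R K]

/-- **the purity step**: a minimal prime of the ideal of denominators lies over a principal
prime -/
theorem purity_step [Finite ι] (x : ι → K) (hx : ∀ i, IsIntegral F (x i)) (D q : Ideal S)
    (hD : ∀ r : S, r ∈ D ↔ ∀ i, ∃ s : S, algebraMap S K r * x i = algebraMap S K s)
    (hq : q ∈ D.minimalPrimes) :
    ∃ π : R, Prime π ∧ q.comap (algebraMap R S) = Ideal.span {π} := by
  classical
  have hqp : q.IsPrime := hq.1.1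
  have hDq : D ≤ q := hq.1.2
  -- an element in all other minimal primes, not in `q`
  have hfin : D.minimalPrimes.Finite := D.finite_minimalPrimes_of_isNoetherianRing S
  obtain ⟨h, hhq, hh⟩ : ∃ h : S, h ∉ q ∧ ∀ p ∈ D.minimalPrimes, p ≠ q → h ∈ p := by
    let s : Finset (Ideal S) := hfin.toFinset.erase q
    have h1 : ¬ s.inf id ≤ q := by
      rw [Ideal.IsPrime.inf_le' hqp]
      rintro ⟨p, hp, hpq⟩
      rw [Finset.mem_erase, Set.Finite.mem_toFinset] at hp
      exact hp.1 (le_antisymm hpq (hq.2 hp.2.1 hpq))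
    obtain ⟨h, hh1, hh2⟩ := SetLike.not_le_iff_exists.1 h1
    refine ⟨h, hh2, fun p hp hpq => ?_⟩
    have h2 : s.inf id ≤ p := Finset.inf_le (f := id) (by
      rw [Finset.mem_erase, Set.Finite.mem_toFinset]
      exact ⟨hpq, hp⟩)
    exact h2 hh1
  obtain ⟨M, hM⟩ := D.exists_radical_pow_le_of_fg (IsNoetherian.noetherian _)
  have hqiff : ∀ r : S, r ∈ q ↔ ∃ m : ℕ, r ^ m * h ^ M ∈ D := by
    intro r
    constructor
    · intro hr
      refine ⟨M, ?_⟩
      rw [← mul_pow]
      refine hM (Ideal.pow_mem_pow ?_ M)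
      rw [← Ideal.sInf_minimalPrimes, Ideal.mem_sInf]
      intro p hp
      by_cases hpq : p = q
      · rw [hpq]
        exact q.mul_mem_right _ hr
      · exact p.mul_mem_left _ (hh p hp hpq)
    · rintro ⟨m, hm⟩
      rcases hqp.mem_or_mem (hDq hm) with h1 | h1
      · exact hqp.mem_of_pow_mem _ h1
      · exact absurd (hqp.mem_of_pow_mem _ h1) hhq
  obtain ⟨f, hf0, hf⟩ := ufd_denoms (R := R) (F := F) (fun i => algebraMap S K (h ^ M) * x i)
    (fun i => by
      refine IsIntegral.mul ?_ (hx i)
      have h1 : IsIntegral R (algebraMap S K (h ^ M)) :=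
        (IsIntegralClosure.isIntegral_iff (A := S)).2 ⟨_, rfl⟩
      exact h1.tower_top)
  have hmem : ∀ r : R, r ∈ q.comap (algebraMap R S) ↔ ∃ m : ℕ, f ∣ r ^ m := by
    intro r
    rw [Ideal.mem_comap, hqiff, ← hf]
    refine exists_congr fun m => ?_
    rw [hD]
    refine forall_congr' fun i => ?_
    have h1 : algebraMap S K (algebraMap R S r ^ m * h ^ M) * x i =
        algebraMap R K r ^ m * (algebraMap S K (h ^ M) * x i) := by
      rw [map_mul, map_pow, ← IsScalarTower.algebraMap_apply, mul_assoc]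
    rw [h1, IsIntegralClosure.isIntegral_iff (A := S)]
    exact exists_congr fun s => eq_comm
  have hcp : (q.comap (algebraMap R S)).IsPrime := hqp.comap _
  have hfm : f ∈ q.comap (algebraMap R S) := (hmem f).2 ⟨1, by rw [pow_one]⟩
  have hnb : q.comap (algebraMap R S) ≠ ⊥ := by
    intro h1
    rw [h1] at hfm
    exact hf0 hfm
  obtain ⟨π, hπ, hπp⟩ := hcp.exists_mem_prime_of_ne_bot hnb
  refine ⟨π, hπp, le_antisymm ?_ ?_⟩
  · intro r hr
    rw [Ideal.mem_span_singleton]
    obtain ⟨m, hm⟩ := (hmem r).1 hr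
    obtain ⟨m', hm'⟩ := (hmem π).1 hπ
    obtain ⟨j, hj, hj'⟩ := (dvd_prime_pow hπp m').1 hm'
    have hj0 : j ≠ 0 := by
      rintro rfl
      rw [pow_zero] at hj'
      exact hcp.ne_top (Ideal.eq_top_of_isUnit_mem _ hfm (associated_one_iff_isUnit.1 hj'))
    have h1 : π ∣ r ^ m := ((dvd_pow_self π hj0).trans hj'.symm.dvd).trans hm
    exact hπp.dvd_of_dvd_pow h1
  · rw [Ideal.span_singleton_le_iff_mem]
    exact hπ

end V

end Pool.Agent.Lib.D13.Pur
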