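import Pool.Agent.Lib.D13.PurDefs
import Pool.Agent.Lib.D13.PurExt
import Pool.Agent.Lib.D13.PurStep
import Pool.Agent.Lib.D13.PurDim

/-!
# MP_5dcbc3_ag: the purity step for a family with a nontrivial generic idempotent
-/

namespace Pool.Agent.Lib.D13.Pur

open Matrix Pool.Agent.Lib.D13

universe u

/-- the trace of an idempotent matrix different from `0` and `1` -/
theorem trace_idem {K : Type*} [Field K] {n : Type*} [Fintype n] [DecidableEq n]
    {e : Matrix n n K} (he : e * e = e) (h0 : e ≠ 0) (h1 : e ≠ 1) :
    ∃ m : ℕ, 0 < m ∧ m < Fintype.card n ∧ e.trace = m := by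
  have h2 : IsIdempotentElem (Matrix.toLin' e) := by
    change Matrix.toLin' e * Matrix.toLin' e = Matrix.toLin' e
    have h3 : Matrix.toLin' (e * e) = Matrix.toLin' e * Matrix.toLin' e := Matrix.toLin'_mul e e
    rw [← h3, he]
  have h3 := (LinearMap.IsIdempotentElem.isProj_range _ h2).trace
  rw [Matrix.trace_toLin'_eq] at h3
  refine ⟨_, ?_, ?_, h3⟩
  · rw [Nat.pos_iff_ne_zero]
    intro h4
    apply h0
    rw [Submodule.finrank_eq_zero, LinearMap.range_eq_bot] at h4
    apply Matrix.toLin'.injective
    rw [h4, map_zero]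
  · have h4 : Module.finrank K (LinearMap.range (Matrix.toLin' e)) ≤ Fintype.card n := by
      have h5 := Submodule.finrank_le (LinearMap.range (Matrix.toLin' e))
      rwa [Module.finrank_fintype_fun_eq_card] at h5
    refine lt_of_le_of_ne h4 fun h5 => h1 ?_
    have h6 : LinearMap.range (Matrix.toLin' e) = ⊤ := by
      apply Submodule.eq_top_of_finrank_eq
      rw [h5, Module.finrank_fintype_fun_eq_card]
    have h7 : Matrix.toLin' e = LinearMap.id := by
      ext1 i
      refine LinearMap.ext fun c => ?_
      obtain ⟨w, hw⟩ : (LinearMap.single K (fun _ : n => K) i c) ∈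
          LinearMap.range (Matrix.toLin' e) := by
        rw [h6]
        trivial
      simp only [LinearMap.comp_apply]
      rw [← hw]
      exact congrArg (fun f : Module.End K (n → K) => f w) h2
    apply Matrix.toLin'.injective
    rw [h7, Matrix.toLin'_one]

/-- the abstract form of the step -/
theorem step_abs {k : Type*} [Field k] [CharZero k] {n : Type*} [Fintype n] [DecidableEq n]
    {T : Fin 3 → Matrix n n k} (hT : Indec T) {N : ℕ} {F S K : Type*} [Field F]
    [Algebra (MvPolynomial (Fin N) k) F] [IsFractionRing (MvPolynomial (Fin N) k) F]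
    [Field K] [Algebra F K] [Algebra (MvPolynomial (Fin N) k) K]
    [IsScalarTower (MvPolynomial (Fin N) k) F K] [CommRing S] [IsDomain S] [IsNoetherianRing S]
    [Algebra (MvPolynomial (Fin N) k) S] [Algebra S K] [IsScalarTower (MvPolynomial (Fin N) k) S K]
    [IsIntegralClosure S (MvPolynomial (Fin N) k) K] [Algebra.IsIntegral F K]
    [Algebra.IsIntegral (MvPolynomial (Fin N) k) S]
    (φ : S →+* k) (A : Fin 3 → Matrix n n S) (hA : ∀ i, (A i).map φ = T i)
    (e : Matrix n n K) (he : e * e = e) (h0 : e ≠ 0) (h1 : e ≠ 1)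
    (hc : ∀ i, e * (A i).map (algebraMap S K) = (A i).map (algebraMap S K) * e) :
    ∃ q : Ideal S, q.IsPrime ∧ q ≤ RingHom.ker φ ∧
      (∀ r : S, (∃ E : Matrix n n S, E.map (algebraMap S K) = algebraMap S K r • e) → r ∈ q) ∧
      ∃ m : ℕ, m + 1 = N ∧ ringKrullDim (S ⧸ q) = m := by
  have hinj : Function.Injective (algebraMap S K) :=
    IsIntegralClosure.algebraMap_injective S (MvPolynomial (Fin N) k) K
  have hinjM : ∀ X Y : Matrix n n S, X.map (algebraMap S K) = Y.map (algebraMap S K) → X = Y :=
    fun X Y h => Matrix.map_injective hinj h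
  let D : Ideal S :=
    { carrier := {r | ∀ x : n × n, ∃ s : S, algebraMap S K r * e x.1 x.2 = algebraMap S K s}
      add_mem' := by
        intro a b ha hb x
        obtain ⟨s, hs⟩ := ha x
        obtain ⟨t, ht⟩ := hb x
        exact ⟨s + t, by rw [map_add, add_mul, hs, ht, map_add]⟩
      zero_mem' := fun x => ⟨0, by simp⟩
      smul_mem' := by
        intro c a ha x
        obtain ⟨s, hs⟩ := ha x
        exact ⟨c * s, by rw [smul_eq_mul, map_mul, mul_assoc, hs, map_mul]⟩ }
  have hD : ∀ r : S, r ∈ D ↔ ∀ x : n × n, ∃ s : S,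
      algebraMap S K r * e x.1 x.2 = algebraMap S K s := fun r => Iff.rfl
  have hDE : ∀ r ∈ D, ∃ E : Matrix n n S, E.map (algebraMap S K) = algebraMap S K r • e := by
    intro r hr
    choose f hf using hr
    refine ⟨Matrix.of fun x y => f (x, y), ?_⟩
    ext x y
    simp only [Matrix.map_apply, Matrix.of_apply, Matrix.smul_apply, smul_eq_mul]
    exact (hf (x, y)).symm
  have hDk : D ≤ RingHom.ker φ := by
    intro r hr
    by_contra hφ
    rw [RingHom.mem_ker] at hφ
    obtain ⟨E, hE⟩ := hDE r hr
    have hEE : E * E = r • E := by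
      apply hinjM
      rw [Matrix.map_mul, hE]
      ext x y
      simp only [Matrix.map_apply, Matrix.smul_apply, smul_eq_mul, map_mul]
      have h2 := congrArg (fun M : Matrix n n K => M x y) hE
      simp only [Matrix.map_apply, Matrix.smul_apply, smul_eq_mul] at h2
      rw [h2, Matrix.smul_mul, Matrix.mul_smul, he]
      simp only [Matrix.smul_apply, smul_eq_mul]
    have hEA : ∀ i, E * A i = A i * E := by
      intro i
      apply hinjM
      rw [Matrix.map_mul, Matrix.map_mul, hE, Matrix.smul_mul, Matrix.mul_smul, hc i]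
    obtain ⟨m, hm0, hm1, hm⟩ := trace_idem he h0 h1
    have htr : E.trace = m * r := by
      apply hinj
      have h2 : algebraMap S K E.trace = (E.map (algebraMap S K)).trace := by
        simp [Matrix.trace, Matrix.map_apply]
      rw [h2, hE, Matrix.trace_smul, hm, map_mul, map_natCast, smul_eq_mul, mul_comm]
    have htr' : (E.map φ).trace = m * φ r := by
      have h2 : φ E.trace = (E.map φ).trace := by
        simp [Matrix.trace, Matrix.map_apply]
      rw [← h2, htr, map_mul, map_natCast]
    have hE1 : E.map φ * E.map φ = φ r • E.map φ := by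
      rw [← Matrix.map_mul, hEE]
      ext x y
      simp
    have h2 : ((φ r)⁻¹ • E.map φ) * ((φ r)⁻¹ • E.map φ) = (φ r)⁻¹ • E.map φ := by
      rw [Matrix.smul_mul, Matrix.mul_smul, hE1, smul_smul, smul_smul, mul_assoc,
        inv_mul_cancel₀ hφ, mul_one]
    have h3 : ∀ i, ((φ r)⁻¹ • E.map φ) * T i = T i * ((φ r)⁻¹ • E.map φ) := by
      intro i
      rw [Matrix.smul_mul, Matrix.mul_smul, ← hA i, ← Matrix.map_mul, ← Matrix.map_mul, hEA i]
    have hk : (m : k) ≠ 0 := Nat.cast_ne_zero.2 hm0.ne'
    rcases hT _ h2 h3 with h4 | h4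
    · have h5 : ((φ r)⁻¹ • E.map φ).trace = 0 := by rw [h4, Matrix.trace_zero]
      rw [Matrix.trace_smul, htr', smul_eq_mul] at h5
      exact (mul_ne_zero (inv_ne_zero hφ) (mul_ne_zero hk hφ)) h5
    · have h5 : ((φ r)⁻¹ • E.map φ).trace = (Fintype.card n : k) := by
        rw [h4, Matrix.trace_one]
      rw [Matrix.trace_smul, htr', smul_eq_mul, mul_comm, mul_assoc, mul_inv_cancel₀ hφ,
        mul_one] at h5
      have h6 : m = Fintype.card n := by exact_mod_cast h5
      omega
  have hker : (RingHom.ker φ).IsPrime := RingHom.ker_isPrime φ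
  obtain ⟨q, hq, hqk⟩ := Ideal.exists_minimalPrimes_le hDk
  have hqp : q.IsPrime := hq.1.1
  obtain ⟨π, hπ, hπq⟩ := purity_step (R := MvPolynomial (Fin N) k) (F := F)
    (fun x : n × n => e x.1 x.2) (fun x => Algebra.IsIntegral.isIntegral _) D q hD hq
  obtain ⟨m, hm, hm', -⟩ := dim_quot_of_comap hπ hπq
  refine ⟨q, hqp, hqk, ?_, m, hm, hm'⟩
  rintro r ⟨E, hE⟩
  apply hq.1.2
  rw [hD]
  intro x
  refine ⟨E x.1 x.2, ?_⟩
  have h2 := congrArg (fun M : Matrix n n K => M x.1 x.2) hE
  simp only [Matrix.map_apply, Matrix.smul_apply, smul_eq_mul] at h2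
  exact h2.symm

/-- the step: a family with a nontrivial idempotent over the fraction field can be cut down by one
dimension such that the denominators of the idempotent vanish -/
theorem pur_step {k : Type u} [Field k] [IsAlgClosed k] [CharZero k] {n : Type} [Fintype n]
    [DecidableEq n] {T : Fin 3 → Matrix n n k} (hT : Indec T) {S : Type u} [CommRing S]
    [IsDomain S] [Algebra k S] [Algebra.FiniteType k S] (F : Fam T S)
    (e : Matrix n n (FractionRing S)) (he : e * e = e) (h0 : e ≠ 0) (h1 : e ≠ 1)
    (hc : ∀ i, e * (F.A i).map (algebraMap S (FractionRing S)) =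
      (F.A i).map (algebraMap S (FractionRing S)) * e) :
    ∃ (S₁ : Type u) (_ : CommRing S₁) (_ : IsDomain S₁) (_ : Algebra k S₁)
      (_ : Algebra.FiniteType k S₁) (F₁ : Fam T S₁) (f : S →ₐ[k] S₁),
      (∀ i, F₁.A i = (F.A i).map f) ∧
      (∀ N : ℕ, ((N + 1 : ℕ) : WithBot ℕ∞) ≤ ringKrullDim S → (N : WithBot ℕ∞) ≤ ringKrullDim S₁) ∧
      ∀ r : S, (∃ E : Matrix n n S, E.map (algebraMap S (FractionRing S)) =
        algebraMap S (FractionRing S) r • e) → f r = 0 := by
  obtain ⟨N, g, hg, hgi⟩ := exists_integral_inj_algHom_of_fg k S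
  let R := MvPolynomial (Fin N) k
  let K := FractionRing S
  let _ : Algebra R S := g.toRingHom.toAlgebra
  have hkRS : IsScalarTower k R S := IsScalarTower.of_algebraMap_eq fun x => (g.commutes x).symm
  have hRSint : Algebra.IsIntegral R S := ⟨hgi⟩
  have hinjRS : Function.Injective (algebraMap R S) := hg
  have hinjSK : Function.Injective (algebraMap S K) := IsFractionRing.injective S K
  have hRSK : IsScalarTower R S K := inferInstance
  have hkRK : IsScalarTower k R K := inferInstance
  have hfs' : FaithfulSMul R S := (faithfulSMul_iff_algebraMap_injective _ _).2 hinjRS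
  have hinjRK : Function.Injective (algebraMap R K) := by
    rw [IsScalarTower.algebraMap_eq R S K]
    exact hinjSK.comp hinjRS
  have hfs : FaithfulSMul R K := (faithfulSMul_iff_algebraMap_injective _ _).2 hinjRK
  let Q := FractionRing R
  let _ : Algebra Q K := FractionRing.liftAlgebra R K
  have hRQK : IsScalarTower R Q K := FractionRing.isScalarTower_liftAlgebra R K
  have hfin : Module.Finite R S := by
    have : Algebra.FiniteType R S := Algebra.FiniteType.of_restrictScalars_finiteType k R S
    exact Algebra.IsIntegral.finite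
  have hloc : IsLocalization (Algebra.algebraMapSubmonoid S (nonZeroDivisors R)) K := inferInstance
  have hfd : FiniteDimensional Q K := Module.Finite.of_isLocalization R S (nonZeroDivisors R)
  have hQ0 : CharZero Q := inferInstance
  let S' := integralClosure R K
  have hSfr : IsFractionRing S' K := integralClosure.isFractionRing_of_finite_extension Q K
  have hnoeth : IsNoetherianRing S' := integralClosure.isNoetherianRing (K := Q) (L := K)
  have hfinS' : Module.Finite R S' := IsIntegralClosure.finite R Q K S'
  have hft : Algebra.FiniteType k S' := by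
    have h2 : Algebra.FiniteType k R := inferInstance
    have h3 : Algebra.FiniteType R S' := inferInstance
    exact Algebra.FiniteType.trans h2 h3
  -- the inclusion of `S`
  have hmem : ∀ s : S, algebraMap S K s ∈ S' := fun s =>
    (Algebra.IsIntegral.isIntegral (R := R) s).algebraMap
  let ι : S →ₐ[k] S' :=
    { toFun := fun s => ⟨algebraMap S K s, hmem s⟩
      map_one' := by
        apply Subtype.ext
        simp
      map_mul' := fun a b => by
        apply Subtype.ext
        simp
      map_zero' := by
        apply Subtype.ext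
        simp
      map_add' := fun a b => by
        apply Subtype.ext
        simp
      commutes' := fun c => by
        apply Subtype.ext
        change algebraMap S K (algebraMap k S c) = algebraMap k K c
        rw [← IsScalarTower.algebraMap_apply] }
  have hι : ∀ s : S, algebraMap S' K (ι s) = algebraMap S K s := fun s => rfl
  have hιint : (ι : S →+* S').IsIntegral := by
    intro x
    have h2 : IsIntegral R x := Algebra.IsIntegral.isIntegral x
    obtain ⟨p, hp, hpx⟩ := h2
    refine ⟨p.map (algebraMap R S), hp.map _, ?_⟩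
    rw [Polynomial.eval₂_map]
    have h3 : (ι : S →+* S').comp (algebraMap R S) = algebraMap R S' := by
      refine RingHom.ext fun r => Subtype.ext ?_
      change algebraMap S K (algebraMap R S r) = algebraMap R K r
      rw [← IsScalarTower.algebraMap_apply]
    rw [h3]
    exact hpx
  obtain ⟨ψ, hψ⟩ := extend_hom ι hιint F.φ (by
    intro r hr
    have h2 : algebraMap S K r = 0 := congrArg (algebraMap S' K) hr
    have h3 : r = 0 := hinjSK (by rw [h2, map_zero])
    rw [h3, map_zero])
  obtain ⟨q, hq, hqψ, hqD, m, hm, hm'⟩ := step_abs (k := k) hT (N := N) (F := Q) (S := S') (K := K)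
    (ψ : S' →+* k) (fun i => (F.A i).map ι) (by
      intro i
      rw [← F.spec i]
      ext x y
      exact hψ _) e he h0 h1 (by
      intro i
      have h2 : ((F.A i).map ι).map (algebraMap S' K) = (F.A i).map (algebraMap S K) := by
        ext x y
        rfl
      rw [h2]
      exact hc i)
  let f : S →ₐ[k] (S' ⧸ q) := (Ideal.Quotient.mkₐ k q).comp ι
  have hdom : IsDomain (S' ⧸ q) := Ideal.Quotient.isDomain q
  have hftq : Algebra.FiniteType k (S' ⧸ q) :=
    Algebra.FiniteType.of_surjective (Ideal.Quotient.mkₐ k q) (Ideal.Quotient.mkₐ_surjective k q)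
  have hev : (evA (fun i => (F.A i).map f) : MvPolynomial (Fin 3 × n × n) k →ₐ[k] (S' ⧸ q)) =
      f.comp (evA F.A) := by
    apply MvPolynomial.algHom_ext
    intro x
    simp [evA, f]
  let F₁ : Fam T (S' ⧸ q) :=
    { A := fun i => (F.A i).map f
      comm := fun i j => by
        have h2 := congrArg (fun M : Matrix n n S => M.map f) (F.comm i j)
        simpa only [Matrix.map_mul] using h2
      φ := Ideal.Quotient.liftₐ q ψ fun a ha => hqψ ha
      spec := fun i => by
        rw [← F.spec i]
        ext x y
        exact hψ _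
      int := by
        rw [hev]
        have h2 : (f : S →+* (S' ⧸ q)).IsIntegral := by
          have h3 : (f : S →+* (S' ⧸ q)) = (Ideal.Quotient.mk q).comp (ι : S →+* S') := rfl
          rw [h3]
          exact hιint.trans _ _ (RingHom.isIntegral_of_surjective _ Ideal.Quotient.mk_surjective)
        have h3 : ((f.comp (evA F.A) : MvPolynomial (Fin 3 × n × n) k →ₐ[k] (S' ⧸ q)) :
            MvPolynomial (Fin 3 × n × n) k →+* (S' ⧸ q)) =
            (f : S →+* (S' ⧸ q)).comp
              ((evA F.A : MvPolynomial (Fin 3 × n × n) k →ₐ[k] S) :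
                MvPolynomial (Fin 3 × n × n) k →+* S) := rfl
        rw [h3]
        exact F.int.trans _ _ h2 }
  refine ⟨S' ⧸ q, inferInstance, hdom, inferInstance, hftq, F₁, f, fun i => rfl, ?_, ?_⟩
  · intro N' hN'
    have h5 : IsNoetherianRing S := Algebra.FiniteType.isNoetherianRing k S
    have h2 : ringKrullDim S = N := (height_maximal (k := k) (n := N) hinjRS).1
    rw [h2] at hN'
    rw [hm']
    have h3 : N' + 1 ≤ N := by exact_mod_cast hN'
    have h4 : N' ≤ m := by omega
    exact_mod_cast h4
  · rintro r ⟨E, hE⟩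
    have h2 : ι r ∈ q := by
      apply hqD
      refine ⟨E.map ι, ?_⟩
      have h3 : (E.map ι).map (algebraMap S' K) = E.map (algebraMap S K) := by
        ext x y
        rfl
      rw [h3, hE, hι]
    exact Ideal.Quotient.eq_zero_iff_mem.2 h2

end Pool.Agent.Lib.D13.Pur
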