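import Pool.Agent.Lib.D7.Api

/-!
# MP_5dcbc3_ag, types `(l, 3, 2, 1)`, `l ≥ 5`: the parameters

`Par k`: the parameters of a matrix commuting with the Jordan matrix, modulo polynomials in it:
`v ↦ (al0 + al1 x + al2 x²) w + (a0 + a1 x) f + om p`,
`w ↦ x^(l-3) (be0 + be1 x + be2 x²) v + (p1 x + p2 x²) w + (q0 + q1 x) f + pi p`,
`f ↦ x^(l-2) (b0 + b1 x) v + x (r0 + r1 x) w + n x f + ka p`,
`p ↦ th x^(l-1) v + et x² w + lam x f`.
`Rel c5 d e`: the two matrices commute (`c5 = 1` for `l = 5`, `0` for `l ≥ 6`).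
`Sys c5 M`: the properties of the relation `M d e`: `(A, X d, X e)` is a maximal bad triple.
-/

namespace Pool.Agent.Lib.D13.Q

open Pool.Agent.Lib.D7

variable {k : Type*} [Field k]

/-- the parameters -/
@[ext] structure Par (k : Type*) where
  (al0 al1 al2 a0 a1 om be0 be1 be2 p1 p2 q0 q1 pi b0 b1 r0 r1 n ka th et lam : k)

namespace Par

/-- linear combinations -/
def comb (a b : k) (d e : Par k) : Par k where
  al0 := a * d.al0 + b * e.al0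
  al1 := a * d.al1 + b * e.al1
  al2 := a * d.al2 + b * e.al2
  a0 := a * d.a0 + b * e.a0
  a1 := a * d.a1 + b * e.a1
  om := a * d.om + b * e.om
  be0 := a * d.be0 + b * e.be0
  be1 := a * d.be1 + b * e.be1
  be2 := a * d.be2 + b * e.be2
  p1 := a * d.p1 + b * e.p1
  p2 := a * d.p2 + b * e.p2
  q0 := a * d.q0 + b * e.q0
  q1 := a * d.q1 + b * e.q1
  pi := a * d.pi + b * e.pi
  b0 := a * d.b0 + b * e.b0
  b1 := a * d.b1 + b * e.b1
  r0 := a * d.r0 + b * e.r0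
  r1 := a * d.r1 + b * e.r1
  n := a * d.n + b * e.n
  ka := a * d.ka + b * e.ka
  th := a * d.th + b * e.th
  et := a * d.et + b * e.et
  lam := a * d.lam + b * e.lam

/-- the transposed matrix -/
def dual (d : Par k) : Par k where
  al0 := d.be0
  al1 := d.be1
  al2 := d.be2
  a0 := d.b0
  a1 := d.b1
  om := d.th
  be0 := d.al0
  be1 := d.al1
  be2 := d.al2
  p1 := d.p1
  p2 := d.p2
  q0 := d.r0
  q1 := d.r1
  pi := d.et
  b0 := d.a0
  b1 := d.a1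
  r0 := d.q0
  r1 := d.q1
  n := d.n
  ka := d.lam
  th := d.om
  et := d.pi
  lam := d.ka

/-- the change of basis `w ↦ w + t f` -/
def beta (t : k) (d : Par k) : Par k where
  al0 := d.al0
  al1 := d.al1
  al2 := d.al2
  a0 := d.a0 - t * d.al0
  a1 := d.a1 - t * d.al1
  om := d.om
  be0 := d.be0
  be1 := d.be1 + t * d.b0
  be2 := d.be2 + t * d.b1
  p1 := d.p1 + t * d.r0
  p2 := d.p2 + t * d.r1
  q0 := d.q0
  q1 := d.q1 + t * (d.n - d.p1) - t ^ 2 * d.r0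
  pi := d.pi + t * d.ka
  b0 := d.b0
  b1 := d.b1
  r0 := d.r0
  r1 := d.r1
  n := d.n - t * d.r0
  ka := d.ka
  th := d.th
  et := d.et
  lam := d.lam

end Par

/-- all parameters are polynomials -/
structure PolyPar (D : k → Par k) : Prop where
  al0 : IsPoly fun s => (D s).al0
  al1 : IsPoly fun s => (D s).al1
  al2 : IsPoly fun s => (D s).al2
  a0 : IsPoly fun s => (D s).a0
  a1 : IsPoly fun s => (D s).a1
  om : IsPoly fun s => (D s).om
  be0 : IsPoly fun s => (D s).be0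
  be1 : IsPoly fun s => (D s).be1
  be2 : IsPoly fun s => (D s).be2
  p1 : IsPoly fun s => (D s).p1
  p2 : IsPoly fun s => (D s).p2
  q0 : IsPoly fun s => (D s).q0
  q1 : IsPoly fun s => (D s).q1
  pi : IsPoly fun s => (D s).pi
  b0 : IsPoly fun s => (D s).b0
  b1 : IsPoly fun s => (D s).b1
  r0 : IsPoly fun s => (D s).r0
  r1 : IsPoly fun s => (D s).r1
  n : IsPoly fun s => (D s).n
  ka : IsPoly fun s => (D s).ka
  th : IsPoly fun s => (D s).th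
  et : IsPoly fun s => (D s).et
  lam : IsPoly fun s => (D s).lam

/-- the relations -/
structure Rel (c5 : k) (d e : Par k) : Prop where
  VV1 : d.be0 * e.al0 = e.be0 * d.al0
  VV2 : d.be0 * e.al1 + d.be1 * e.al0 + d.b0 * e.a0 =
    e.be0 * d.al1 + e.be1 * d.al0 + e.b0 * d.a0
  VV3 : d.be0 * e.al2 + d.be1 * e.al1 + d.be2 * e.al0 + d.b0 * e.a1 + d.b1 * e.a0 + d.th * e.om =
    e.be0 * d.al2 + e.be1 * d.al1 + e.be2 * d.al0 + e.b0 * d.a1 + e.b1 * d.a0 + e.th * d.om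
  VW1 : d.p1 * e.al0 + d.r0 * e.a0 = e.p1 * d.al0 + e.r0 * d.a0
  VW2 : d.p1 * e.al1 + d.p2 * e.al0 + d.r0 * e.a1 + d.r1 * e.a0 + d.et * e.om =
    e.p1 * d.al1 + e.p2 * d.al0 + e.r0 * d.a1 + e.r1 * d.a0 + e.et * d.om
  VF1 : d.q0 * e.al0 = e.q0 * d.al0
  VF2 : d.q0 * e.al1 + d.q1 * e.al0 + d.n * e.a0 + d.lam * e.om =
    e.q0 * d.al1 + e.q1 * d.al0 + e.n * d.a0 + e.lam * d.om
  VP : d.pi * e.al0 + d.ka * e.a0 = e.pi * d.al0 + e.ka * d.a0
  WV1 : d.be0 * e.p1 + d.b0 * e.q0 = e.be0 * d.p1 + e.b0 * d.q0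
  WV2 : d.be0 * e.p2 + d.be1 * e.p1 + d.b0 * e.q1 + d.b1 * e.q0 + d.th * e.pi =
    e.be0 * d.p2 + e.be1 * d.p1 + e.b0 * d.q1 + e.b1 * d.q0 + e.th * d.pi
  WW1 : d.r0 * e.q0 = e.r0 * d.q0
  WW2 : d.r0 * e.q1 + d.r1 * e.q0 + d.et * e.pi + c5 * (d.al0 * e.be0) =
    e.r0 * d.q1 + e.r1 * d.q0 + e.et * d.pi + c5 * (e.al0 * d.be0)
  WF : d.q0 * e.p1 + d.n * e.q0 + d.lam * e.pi = e.q0 * d.p1 + e.n * d.q0 + e.lam * d.pi
  WP : d.ka * e.q0 = e.ka * d.q0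
  FV1 : d.be0 * e.r0 = e.be0 * d.r0
  FV2 : d.be0 * e.r1 + d.be1 * e.r0 + d.b0 * e.n + d.th * e.ka =
    e.be0 * d.r1 + e.be1 * d.r0 + e.b0 * d.n + e.th * d.ka
  FW : d.p1 * e.r0 + d.r0 * e.n + d.et * e.ka = e.p1 * d.r0 + e.r0 * d.n + e.et * d.ka
  FF : d.q0 * e.r0 + d.lam * e.ka = e.q0 * d.r0 + e.lam * d.ka
  PV : d.be0 * e.et + d.b0 * e.lam = e.be0 * d.et + e.b0 * d.lam
  PW : d.r0 * e.lam = e.r0 * d.lam

/-- the properties of the set of the pairs of parameters of maximal bad triples -/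
structure Sys (c5 : k) (M : Par k → Par k → Prop) : Prop where
  rel : ∀ {d e}, M d e → Rel c5 d e
  deform : ∀ {d e} (D E : k → Par k), M d e → PolyPar D → PolyPar E → D 0 = d → E 0 = e →
    (∀ s, Rel c5 (D s) (E s)) → {s | ¬ M (D s) (E s)}.Finite
  lin : ∀ {d e} (a b c c' : k), M d e → a * c' - b * c ≠ 0 →
    M (Par.comb a b d e) (Par.comb c c' d e)
  rk1 : ∀ {d e}, M d e → d.q0 * d.r0 = 0
  rk2 : ∀ {d e}, M d e → d.lam * d.ka = 0
  rk3 : ∀ {d e}, M d e → d.al0 = 0 → e.al0 = 0 → d.be0 = 0 → e.be0 = 0 → d.r0 = 0 → e.r0 = 0 →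
    d.lam = 0 → e.lam = 0 → d.q0 * d.et * d.ka = 0
  beta : ∀ {d e} (t : k), M d e → M (Par.beta t d) (Par.beta t e)
  dual : ∀ {d e}, M d e → M d.dual e.dual

namespace Sys

variable {c5 : k} {M : Par k → Par k → Prop}

theorem move [Infinite k] (S : Sys c5 M) {d e : Par k} (h : M d e) (D E : k → Par k)
    (hD : PolyPar D) (hE : PolyPar E) (h0 : D 0 = d) (h0' : E 0 = e)
    (hr : ∀ s, Rel c5 (D s) (E s)) {F : Set k} (hF : F.Finite) : ∃ s, s ∉ F ∧ M (D s) (E s) := by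
  obtain ⟨s, hs⟩ := (hF.union (S.deform D E h hD hE h0 h0' hr)).exists_notMem
  simp only [Set.mem_union, not_or, Set.mem_ofPred_eq, not_not] at hs
  exact ⟨s, hs.1, hs.2⟩

theorem swap (S : Sys c5 M) {d e : Par k} (h : M d e) : M e d := by
  have h1 := S.lin 0 1 1 0 h (by simp)
  have e1 : Par.comb 0 1 d e = e := by ext <;> simp [Par.comb]
  have e2 : Par.comb 1 0 d e = d := by ext <;> simp [Par.comb]
  rwa [e1, e2] at h1

end Sys

end Pool.Agent.Lib.D13.Q
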