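import Pool.Agent.Lib.D13.Refl

/-!
# MP_5dcbc3_ag: density certificates, levels (1,3,4,4) (type 4332, one common eigenvector), d = 12: `x, y, z = t, t ^ 2, t ^ 3`
-/

namespace Pool.Agent.Lib.D13.R1344

open Refl

/-- the base point -/
def bs : Base where
  lev := [0, 1, 1, 1, 2, 2, 2, 3, 3, 2, 3, 3]
  pw := [[[(0, 1)], [(1, 1)], [(2, 1)], [(3, 1)], [(4, 1)], [(5, 1)], [(6, 1)], [(7, 1)], [(8, 1)],
      [(9, 1)], [(10, 1)], [(11, 1)]],
    [[], [(0, 1)], [(1, 1)], [(2, 1)], [(3, 1)], [(4, 1)], [(5, 1)], [(6, 1)], [(7, 1)], [(8,
      1)], [(9, 1)], [(10, 1)]],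
    [[], [], [(0, 1)], [(1, 1)], [(2, 1)], [(3, 1)], [(4, 1)], [(5, 1)], [(6, 1)], [(7, 1)],
      [(8, 1)], [(9, 1)]],
    [[], [], [], [(0, 1)], [(1, 1)], [(2, 1)], [(3, 1)], [(4, 1)], [(5, 1)], [(6, 1)], [(7,
      1)], [(8, 1)]],
    [[], [], [], [], [(0, 1)], [(1, 1)], [(2, 1)], [(3, 1)], [(4, 1)], [(5, 1)], [(6, 1)], [(7,
      1)]],
    [[], [], [], [], [], [(0, 1)], [(1, 1)], [(2, 1)], [(3, 1)], [(4, 1)], [(5, 1)], [(6, 1)]],
    [[], [], [], [], [], [], [(0, 1)], [(1, 1)], [(2, 1)], [(3, 1)], [(4, 1)], [(5, 1)]],
    [[], [], [], [], [], [], [], [(0, 1)], [(1, 1)], [(2, 1)], [(3, 1)], [(4, 1)]],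
    [[], [], [], [], [], [], [], [], [(0, 1)], [(1, 1)], [(2, 1)], [(3, 1)]],
    [[], [], [], [], [], [], [], [], [], [(0, 1)], [(1, 1)], [(2, 1)]],
    [[], [], [], [], [], [], [], [], [], [], [(0, 1)], [(1, 1)]],
    [[], [], [], [], [], [], [], [], [], [], [], [(0, 1)]]]
  xc := [[(1, 1)], [(2, 1)], [(3, 1)]]
  X := [[[], [(0, 1)], [(1, 1)], [(2, 1)], [(3, 1)], [(4, 1)], [(5, 1)], [(6, 1)], [(7, 1)], [(8,
      1)], [(9, 1)], [(10, 1)]],
    [[], [], [(0, 1)], [(1, 1)], [(2, 1)], [(3, 1)], [(4, 1)], [(5, 1)], [(6, 1)], [(7, 1)],
      [(8, 1)], [(9, 1)]],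
    [[], [], [], [(0, 1)], [(1, 1)], [(2, 1)], [(3, 1)], [(4, 1)], [(5, 1)], [(6, 1)], [(7,
      1)], [(8, 1)]]]

theorem bs_ck : bs.ck 12 = true := by decide +kernel

/-- certificate -/
def ce1 : Cer where
  den := 4
  N := [[[(246, 4), (324, 4), (363, 4), (389, -4)],
      [],
      [],
      [],
      [],
      [],
      [],
      [],
      [],
      [],
      [],
      []],
    [[(50, 4), (102, -4), (180, 4), (219, -4), (232, 4), (245, -4), (375, -8), (388, 8)],
      [(168, -4), (194, -4), (246, 4), (324, 4), (337, 4), (363, 4), (389, -4)],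
      [(195, -4), (312, -4), (338, 4)],
      [(300, -3), (339, 1), (378, 1), (417, 1)],
      [],
      [],
      [],
      [],
      [],
      [],
      [],
      []],
    [[(88, 8), (101, 4), (218, 4), (244, -4), (348, 4), (374, -4)],
      [(219, -4), (232, 8), (245, -4), (349, 4), (375, -8), (388, 4)],
      [(168, -4), (246, 4), (324, 4), (363, 4), (389, -4)],
      [(312, -3), (351, 1), (390, 1), (429, 1)],
      [],
      [],
      [],
      [],
      [],
      [],
      [],
      []],
    [[(74, 4), (87, 4), (100, 4), (204, 4), (243, -4)],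
      [(49, 4), (62, 4)],
      [(50, 4), (102, -4), (375, -4), (388, 4)],
      [(246, 4), (363, 4), (389, -4)],
      [],
      [],
      [],
      [],
      [],
      [],
      [],
      []],
    [[(60, 4), (73, 4)],
      [(61, 4), (74, 4)],
      [(62, 4)],
      [],
      [(168, -4), (194, -4), (246, 4), (324, 4), (363, 4), (389, -4)],
      [(195, -4), (312, -3), (351, 1), (390, 1), (429, 1)],
      [(300, -2), (339, -2), (378, 2), (417, 2)],
      [],
      [],
      [(381, 4)],
      [],
      []],
    [[(85, 4), (98, 4), (228, 4), (241, -4)],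
      [(73, 4)],
      [(74, 4)],
      [],
      [],
      [],
      [(312, -2), (351, -2), (390, 2), (429, 2)],
      [],
      [],
      [(393, 4)],
      [],
      []],
    [[(110, 4), (123, 8), (136, 4), (396, 4), (422, -4)],
      [(85, 4)],
      [],
      [],
      [(62, 4), (88, -4), (101, -4), (218, -4), (244, 4)],
      [(232, -4), (245, 4), (375, 4), (388, -4)],
      [(246, 4), (389, -4)],
      [],
      [],
      [],
      [],
      []],
    [[(96, 4), (109, 8), (252, -4), (278, 4), (408, 4), (421, -4)],
      [(110, 4), (123, 4), (136, 4), (409, 4), (422, -4)],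
      [],
      [(86, -4)],
      [(87, -4)],
      [(62, 4), (88, -8), (101, -4), (218, -4), (244, 4)],
      [(219, 4), (232, -8), (245, 4), (375, 4), (388, -4)],
      [(168, -4), (194, -4), (246, 4), (324, 4), (363, 4), (376, -4), (389, -4)],
      [(234, -4), (312, -2), (351, -2), (390, 2), (429, 2)],
      [(300, -1), (339, -1), (378, -1), (417, 3)],
      [(93, -4)],
      [(237, -4), (393, 4)]],
    [[(108, 4)],
      [(109, 8), (252, -4), (278, 4), (408, 4), (421, -4)],
      [(110, 4), (123, 4)],
      [(98, -4)],
      [(86, -4), (99, -4)],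
      [(87, -4), (100, -4)],
      [(62, 4), (88, -8), (101, -8), (218, -4), (244, 4)],
      [(219, 4), (232, -8), (245, 4), (375, 8), (388, -8)],
      [(389, -4)],
      [(312, -1), (351, -1), (390, -1), (429, 3)],
      [(105, -4), (300, -1), (339, -1), (378, -1), (417, 3)],
      [(249, -4)]],
    [[(120, 4), (133, 4)],
      [],
      [(109, 4), (252, -4), (278, 4), (408, 4), (421, -4)],
      [(123, 4)],
      [(85, -4), (98, -4), (241, 4), (254, -4)],
      [(73, -4), (86, -4), (138, -4), (229, 4), (268, -4), (398, -4), (424, 4)],
      [(61, -4), (74, -4), (87, -4), (373, 4), (399, -4)],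
      [],
      [],
      [(285, 4)],
      [],
      []],
    [[],
      [(133, 4)],
      [(121, -4)],
      [],
      [],
      [(85, -8), (98, -8), (137, 4), (241, 8), (254, -4), (280, -4)],
      [(73, -4), (86, -8), (99, -4), (229, 4), (268, -4)],
      [(61, -4), (74, -4), (87, -8), (373, 4), (412, -4)],
      [(62, 4), (88, -16), (101, -8), (218, -8), (244, 8), (374, 4), (413, -4)],
      [(219, 8), (232, -16), (245, 8), (375, 12), (388, -8), (414, -4)],
      [(90, 4), (129, -4), (168, -4), (194, -4), (285, 4), (324, 4), (363, 4), (376, -4)],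
      [(273, -4), (312, -1), (351, -1), (390, -1), (429, 3)]],
    [[],
      [(132, -4)],
      [],
      [(121, -4), (134, -4)],
      [(96, -4), (408, 4), (421, -4)],
      [(136, -4)],
      [(85, -8), (98, -8), (241, 8), (254, -4), (280, -4)],
      [(73, -4), (86, -8), (99, -4), (138, -4), (229, 4), (268, -4)],
      [(61, -4), (74, -4), (87, -8), (100, -4), (373, 4), (425, -4)],
      [(62, 4), (88, -16), (101, -12), (218, -8), (244, 8), (374, 4), (426, -4)],
      [(102, 4), (141, -4), (219, 8), (232, -16), (245, 8), (375, 16), (388, -12), (414, -4)],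
      []]]
  A := [[[(90, 4), (168, -4), (194, -4), (324, 4), (363, 4), (376, -4)],
      [(102, 4), (375, 4), (388, -4)],
      [],
      [],
      [],
      [],
      [],
      [],
      [],
      [],
      []],
    [[],
      [],
      [(219, 4), (232, -4), (245, 4), (375, 4), (388, -4)],
      [(88, -4), (101, -4), (244, 4)],
      [(87, -4), (100, -4), (243, 4)],
      [(73, -4), (86, -4), (229, 4)],
      [(85, -4), (98, -4), (241, 4)],
      [(110, -4), (136, -4), (253, 4), (409, -4), (422, 4)],
      [(96, -4), (109, -4), (252, 4)],
      [(121, -4), (134, -4), (277, 4)],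
      [(120, -4), (133, -4), (276, 4)]],
    [[(300, 1), (339, 1), (378, 1), (417, 1)],
      [(312, 1), (351, 1), (390, 1), (429, 1)],
      [],
      [(219, 4), (232, -8), (245, 4), (375, 8), (388, -4)],
      [(88, -8), (101, -4), (218, -4), (244, 4), (374, 4)],
      [(61, -4), (74, -4), (87, -4), (373, 4)],
      [(73, -4), (86, -4), (138, -4), (229, 4), (268, -4), (424, 4)],
      [(85, -8), (98, -4), (241, 4), (254, -4), (397, 4)],
      [(110, -4), (123, -4), (136, -4), (422, 4)],
      [(96, -4), (109, -8), (252, 4), (278, -4), (421, 4)],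
      [(108, -4), (121, -4), (134, -4), (420, 4)]]]
  W := [[[],
      [[(192, -4), (231, -4)]],
      [[(87, -4), (204, -4), (230, 4), (360, 4)]],
      [[(86, -4), (99, -4), (216, -4), (229, -4)]],
      [[(72, -4), (85, -4), (98, -4)],
       [],
       [],
       [(231, -4)]],
      [[],
       [],
       [],
       [(243, -4)]],
      [[(96, -4)],
       [],
       [],
       [(86, -4), (99, -4)]],
      [[(264, -4)],
       [],
       [],
       [],
       [],
       [(87, 4), (243, -4)]],
      [[],
       [(277, -4)]],
      [[],
       [],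
       [],
       [(96, -4), (122, -4), (252, 4), (265, 4), (408, -4)]],
      [[],
       [],
       [(120, 4), (133, 4), (276, -4)],
       [],
       [(96, -4), (135, 4), (252, 4), (265, 4), (408, -4)],
       [(266, 4), (279, 4)],
       [(267, 4)]],
      [[],
       [],
       [],
       [(276, 4)]]],
    [[],
      [[(336, -4)]],
      [],
      [],
      [[(86, -4), (372, -4)],
       [(48, -4), (87, 4), (204, 4), (230, -4), (360, -4)]],
      [[],
       [(60, -4), (99, 4), (216, 4), (229, 4), (372, -4)],
       [(87, -4), (230, 4), (243, 4), (386, -4)],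
       [(387, -4)]],
      [[(84, 4)],
       [(85, 4), (98, 4)]],
      [[],
       [],
       [(98, 4)],
       [(86, -4)],
       [],
       [(348, 4), (374, 4), (387, 4)]],
      [[(108, 4), (264, -4)],
       [],
       [(97, -4)]],
      [[],
       [],
       [],
       [(123, 4), (266, -4), (279, -4)]],
      [[(132, 4)],
       [(133, 4), (276, -4)],
       [(121, -4), (277, 4)],
       [(96, -4), (122, -4), (135, 4), (252, 4), (265, 4), (408, -4)],
       [],
       [(98, 4), (241, 4), (410, 4)],
       [(86, -4), (242, 4), (411, 4)]],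
      [[],
       [],
       [],
       [(121, -4), (134, -4), (277, 4)],
       [],
       [(97, -4), (422, 4)],
       [(423, 4)]]],
    [[],
      [],
      [],
      [],
      [[(87, -4), (230, 4), (243, 4), (360, 4)]],
      [[],
       [],
       [(348, -4), (387, -4)]],
      [[(72, -4), (85, -4), (98, -4), (228, 4)],
       [(229, 4)],
       [(87, -4), (230, 4), (243, 4)]],
      [[(84, 4), (123, -4), (266, 4), (279, 4), (396, 4)],
       [],
       [],
       [],
       [],
       [(375, -4)]],
      [[(122, 4), (265, -4), (408, 4)],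
       [(84, 4), (123, -4), (240, -4), (266, 4), (279, 4), (396, 4)],
       [(241, -4)],
       [(242, -4)]],
      [],
      [[],
       [],
       [(96, -4), (135, 4), (252, 4), (408, -4)],
       [(279, 4)]],
      [[],
       [],
       [],
       [(96, -4), (135, 4), (252, 4), (278, -4), (408, -4)]]]]

theorem ce1_ck : ce1.ck bs 12 1 = true := by decide +kernel

/-- certificate -/
def ce2 : Cer where
  den := 1
  N := [[],
    [[(336, 1), (375, -1)],
      [],
      [],
      [],
      [],
      [],
      [],
      [],
      [],
      [],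
      [],
      []],
    [],
    [],
    [[(60, 1), (86, -2), (99, 1), (229, 1), (242, -1)],
      [(204, 1), (230, -1), (360, -1), (373, 1)],
      [],
      [],
      [],
      [],
      [],
      [],
      [],
      [],
      [],
      []],
    [[(72, 1), (85, 1)],
      [(86, -1), (99, 1), (229, 1), (242, -1)],
      [],
      [(192, -1), (231, 1)],
      [],
      [],
      [],
      [],
      [],
      [],
      [],
      []],
    [[],
      [(85, 1)],
      [],
      [],
      [],
      [],
      [],
      [],
      [],
      [],
      [],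
      []],
    [[(122, 2), (135, -2), (252, 1), (278, -1)],
      [],
      [],
      [],
      [(204, 1), (230, -1)],
      [],
      [],
      [],
      [],
      [],
      [],
      []],
    [[(108, 1), (121, 1)],
      [(122, 2), (135, -2), (252, 1), (278, -1), (408, -1), (421, 1)],
      [(84, 1), (97, -1)],
      [(98, -1)],
      [(86, 1), (99, -1)],
      [(360, 1), (386, -1)],
      [(192, -1), (231, 1), (374, 1), (387, -1)],
      [],
      [],
      [],
      [],
      []],
    [[],
      [(121, 1)],
      [(122, 1), (135, -1)],
      [(84, 2), (97, -2), (240, 1), (266, -1), (396, -1), (409, 1)],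
      [],
      [],
      [],
      [],
      [],
      [],
      [],
      []],
    [[],
      [(120, -1)],
      [],
      [],
      [(84, 2), (97, -2), (240, 1), (266, -1)],
      [(85, -1), (98, -2), (241, 1), (267, -1)],
      [(60, -1), (86, 2), (99, -1), (229, -1), (242, 1), (372, 1), (411, -1)],
      [],
      [],
      [],
      [],
      []],
    [[],
      [(132, -1)],
      [(120, -1), (133, -1)],
      [(134, -1)],
      [],
      [(84, 3), (97, -3), (240, 2), (266, -1), (279, -1), (396, -1), (409, 1)],
      [(72, -1), (85, -1), (98, -2), (384, 1), (423, -1)],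
      [],
      [],
      [],
      [],
      []]]
  A := [[[],
      [],
      [],
      [(87, 1), (204, 1), (230, -1)],
      [(86, 1)],
      [],
      [(84, 1)],
      [(135, 1)],
      [],
      [],
      []],
    [[],
      [],
      [],
      [(192, 1)],
      [(204, 1)],
      [(86, 1), (99, -1), (242, 1)],
      [(85, -1), (98, -1), (241, 1)],
      [(84, 1), (97, -1), (240, 1)],
      [(122, -1), (135, 1), (278, 1)],
      [(121, -1), (134, -1), (277, 1)],
      [(120, -1), (133, -1), (276, 1)]],
    [[],
      [],
      [],
      [(375, 1)],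
      [(374, 1)],
      [(360, 1)],
      [(60, -1), (86, 2), (99, -1), (229, -1), (242, 1), (372, 1)],
      [(72, -1), (85, -1), (98, -1), (384, 1)],
      [(84, 2), (97, -2), (240, 1), (266, -1), (409, 1)],
      [(122, -2), (135, 2), (252, -1), (278, 1), (408, 1)],
      [(108, -1), (121, -1), (134, -1), (420, 1)]]]
  W := [[[],
      [],
      [],
      [],
      [[(228, -1)]],
      [],
      [],
      [],
      [[(276, -1)]],
      [],
      [[],
       [],
       [],
       [(264, 1)]],
      []],
    [[],
      [],
      [],
      [],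
      [],
      [],
      [[(84, 1)]],
      [[(96, 1)]],
      [[],
       [],
       [],
       [(384, 1)]],
      [],
      [[(132, 1)],
       [(120, -1), (276, 1)]],
      []],
    [[],
      [],
      [],
      [],
      [],
      [[(372, 1)]],
      [],
      [],
      [[],
       [(240, -1)]],
      [],
      [[],
       [],
       [(96, -1), (408, -1)]],
      [[],
       [],
       [(420, -1)]]]]

theorem ce2_ck : ce2.ck bs 12 2 = true := by decide +kernel

/-- certificate -/
def ce3 : Cer where
  den := 1
  N := [[],
    [],
    [],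
    [],
    [],
    [],
    [],
    [[],
      [],
      [(228, -1)],
      [],
      [],
      [],
      [],
      [],
      [],
      [],
      [],
      []],
    [[],
      [(96, -1)],
      [],
      [],
      [],
      [],
      [],
      [],
      [],
      [],
      [],
      []],
    [],
    [[],
      [],
      [(264, -1)],
      [(408, -1)],
      [],
      [],
      [],
      [],
      [],
      [],
      [],
      []],
    [[],
      [(132, -1)],
      [],
      [],
      [],
      [],
      [],
      [],
      [],
      [],
      [],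
      []]]
  A := [[[],
      [],
      [],
      [],
      [],
      [],
      [(84, 1)],
      [],
      [],
      [(120, 1)],
      []],
    [[],
      [],
      [],
      [],
      [],
      [],
      [],
      [(240, 1)],
      [],
      [],
      [(276, 1)]],
    [[],
      [],
      [],
      [],
      [],
      [],
      [(372, 1)],
      [(384, 1)],
      [],
      [],
      [(420, 1)]]]
  W := [[[],
      [],
      [],
      [],
      [],
      [],
      [],
      [],
      [],
      [],
      [],
      []],
    [[],
      [],
      [],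
      [],
      [],
      [],
      [],
      [],
      [],
      [],
      [],
      []],
    [[],
      [],
      [],
      [],
      [],
      [],
      [],
      [],
      [],
      [],
      [],
      []]]

theorem ce3_ck : ce3.ck bs 12 3 = true := by decide +kernel

/-- all certificates -/
theorem cert {k : Type*} [Field k] [CharZero k] (κ : ℕ) (hκ : 1 ≤ κ) :
    Cert (fun x : Fin 12 => bs.w x) (Mt k 12 (nth [] bs.pw 1)) (XX k bs 12) κ := by
  have hB : bs.ckPow 12 = true := by
    have h := bs_ck
    simp only [Base.ck, Bool.and_eq_true] at h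
    exact h.1.1
  rcases Nat.lt_or_ge 3 κ with h | h
  · exact cert_large (L := 3) (by decide) h
  · interval_cases κ
    · exact cert_of_ck bs (by norm_num) hB ce1 ce1_ck
    · exact cert_of_ck bs (by norm_num) hB ce2 ce2_ck
    · exact cert_of_ck bs (by norm_num) hB ce3 ce3_ck

end Pool.Agent.Lib.D13.R1344
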