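import Pool.Agent.Lib.D13.TowerCk

/-!
# MP_5dcbc3_ag: density certificates, levels (1,3,5,2), d = 11: `x, y, z = t + 2 t ^ 6, t ^ 2, t ^ 4 + 2 t ^ 7`
-/

namespace Pool.Agent.Lib.D13.R1352

open Refl Pool.Agent.Lib.Q5dc

/-- the base point -/
def bs : Base where
  lev := [0, 1, 1, 1, 2, 2, 2, 2, 2, 3, 3]
  pw := [[[(0, 1)], [(1, 1)], [(2, 1)], [(3, 1)], [(4, 1)], [(5, 1)], [(6, 1)], [(7, 1)], [(8, 1)],
      [(9, 1)], [(10, 1)]],
    [[], [(2, 1)], [(0, 1)], [(4, 1)], [(1, 1)], [(2, 2), (4, -2), (8, 1)], [(3, 2), (5, 1)],
      [(3, 1)], [(0, -2), (7, 1)], [(0, 4), (6, 1), (7, -2)], [(3, -2), (8, 2), (9, 1)]],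
    [[], [(0, 1)], [], [(1, 1)], [(2, 1)], [(1, -2), (7, 1)], [(2, 2), (8, 1)], [(4, 1)], [(3,
      1)], [(5, 1)], [(4, -2), (6, 1)]],
    [[], [], [], [(2, 1)], [(0, 1)], [(2, -2), (3, 1)], [(7, 1)], [(1, 1)], [(4, 1)], [(2, 2),
      (4, -2), (8, 1)], [(1, -2), (3, 2), (5, 1)]],
    [[], [], [], [(0, 1)], [], [(0, -2), (4, 1)], [(3, 1)], [(2, 1)], [(1, 1)], [(1, -2), (7,
      1)], [(8, 1)]],
    [[], [], [], [], [], [(1, 1)], [(4, 1)], [(0, 1)], [(2, 1)], [(2, -2), (3, 1)], [(0, -2),
      (7, 1)]],
    [[], [], [], [], [], [(2, 1)], [(1, 1)], [], [(0, 1)], [(0, -2), (4, 1)], [(3, 1)]],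
    [[], [], [], [], [], [(0, 1)], [(2, 1)], [], [], [(1, 1)], [(4, 1)]],
    [[], [], [], [], [], [], [(0, 1)], [], [], [(2, 1)], [(1, 1)]],
    [[], [], [], [], [], [], [], [], [], [(0, 1)], [(2, 1)]],
    [[], [], [], [], [], [], [], [], [], [], [(0, 1)]]]
  xc := [[(1, 1), (6, 2)], [(2, 1)], [(4, 1), (7, 2)]]
  X := [[[], [(2, 1)], [(0, 1)], [(4, 1)], [(1, 1)], [(2, 4), (4, -2), (8, 1)], [(1, 2), (3, 2),
      (5, 1)], [(3, 1)], [(7, 1)], [(4, 2), (6, 1), (7, -2)], [(8, 2), (9, 1)]],
    [[], [(0, 1)], [], [(1, 1)], [(2, 1)], [(1, -2), (7, 1)], [(2, 2), (8, 1)], [(4, 1)], [(3,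
      1)], [(5, 1)], [(4, -2), (6, 1)]],
    [[], [], [], [(0, 1)], [], [(4, 1)], [(2, 2), (3, 1)], [(2, 1)], [(1, 1)], [(7, 1)], [(4,
      2), (8, 1)]]]

theorem bs_ck : bs.ck 11 = true := by decide +kernel

/-- certificate -/
def ce1 : Cer where
  den := 24
  N := [[[(22, 24), (105, -24), (168, -16), (287, 16), (289, -48), (321, 24), (322, 16), (347, 16),
      (348, 24)],
      [],
      [],
      [],
      [],
      [],
      [],
      [],
      [],
      [],
      []],
    [[],
      [(168, 32), (237, -24), (287, 16), (289, 48), (322, -32), (331, 24), (347, -32), (360,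
      24)],
      [(46, 6), (47, -4), (91, -18), (104, 6), (116, 6), (199, 6), (236, -6), (288, 4), (289,
      -16), (332, 18), (333, 4), (344, -18), (358, -8)],
      [(47, 16), (288, -16), (289, 16), (333, 8), (358, 8)],
      [],
      [],
      [],
      [],
      [],
      [],
      []],
    [[(11, 24), (91, -24), (332, 24), (344, -24)],
      [(11, 3), (46, 3), (104, -3), (116, -3), (143, -12), (165, -3), (166, 12), (236, 3), (286,
      -12), (289, 12), (346, -6), (358, 6)],
      [],
      [(168, 16), (287, -16), (322, 8), (347, 8)],
      [],
      [],
      [],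
      [],
      [],
      [],
      []],
    [[(11, -24), (46, -12), (47, -40), (56, -72), (77, 24), (90, 24), (91, 60), (104, -204),
      (116, 36), (117, 24), (165, 24), (166, 96), (188, 96), (199, -132), (224, -72), (226,
      -144), (234, -24), (236, 12), (286, -48), (288, 40), (289, 128), (332, -12), (333, 40),
      (344, 12), (346, -144), (357, 96), (358, 64)],
      [(154, -24)],
      [(47, -80), (69, 48), (79, 24), (105, -240), (106, -72), (168, 64), (177, 24), (223, -24),
      (225, -48), (237, -48), (287, 32), (288, -64), (289, -128), (311, -96), (321, 288), (322,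
      128), (331, 48), (333, -16), (346, 96), (347, 224), (348, 144), (358, -16), (360, 48)],
      [(168, -16), (287, 16), (311, 24), (322, -32), (347, -32)],
      [],
      [],
      [],
      [],
      [],
      [],
      []],
    [[(47, -144), (69, 72), (79, 24), (105, -336), (106, -96), (168, 64), (177, 24), (223, -24),
      (225, -48), (237, -48), (287, 32), (288, -48), (289, -192), (297, 24), (310, -24), (311,
      -144), (321, 384), (322, 224), (331, 48), (346, 96), (347, 320), (348, 192), (360, 48)],
      [(11, 12), (47, -8), (91, -12), (165, -12), (199, 12), (288, 8), (289, 16), (332, 12),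
      (333, 8), (344, -12), (346, -24), (358, 8)],
      [(11, 3), (44, -24), (46, 3), (104, -3), (107, 12), (115, 12), (116, -3), (143, 36), (165,
      -3), (166, 36), (168, 16), (201, -24), (226, -24), (236, 3), (239, -12), (286, -84), (287,
      32), (289, 12), (300, -24), (322, -16), (346, -6), (347, -16), (357, -24), (358, 6)],
      [(286, -24)],
      [(167, -24), (289, 48)],
      [(11, -3), (46, -3), (104, 3), (116, 3), (165, 3), (236, -3), (289, -12), (346, 6), (358,
      -6)],
      [(289, -24)],
      [(47, -8), (288, -16), (289, 64), (333, 8), (358, 8)],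
      [(168, -8), (287, -16), (322, 8), (347, 8)],
      [],
      []],
    [[(11, 144), (44, 48), (46, 120), (47, 80), (56, 96), (91, -216), (104, 312), (111, 24),
      (116, -168), (117, -96), (165, -144), (166, -96), (188, -144), (199, 168), (220, 24), (224,
      96), (226, 192), (233, -24), (234, 96), (236, -24), (286, -96), (288, -80), (289, -256),
      (332, 24), (333, -80), (344, -24), (346, 288), (358, -128)],
      [(11, -12), (44, 48), (46, -12), (57, -24), (104, 12), (105, 48), (107, -48), (115, -48),
      (116, 12), (143, -144), (165, 12), (166, -144), (168, -32), (201, 96), (225, -96), (226,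
      96), (236, -12), (239, 48), (286, 336), (287, -160), (289, 48), (300, 96), (321, 48), (322,
      32), (346, 24), (347, 224), (348, 48), (357, 96), (358, -24)],
      [(11, 48), (46, -24), (47, 400), (55, -24), (68, 24), (69, -192), (79, -96), (91, -24),
      (104, 24), (105, 864), (106, 240), (116, -72), (168, -256), (177, -96), (187, 24), (199,
      -24), (222, -24), (223, 48), (225, 192), (236, 72), (237, 192), (287, -128), (288, 80),
      (289, 640), (297, -48), (310, 48), (311, 384), (321, -1056), (322, -512), (331, -192),
      (332, 24), (333, -16), (344, -24), (346, -288), (347, -896), (348, -576), (358, 128), (360,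
      -192)],
      [(47, -48), (69, 24), (105, -96), (106, -24), (289, -96), (311, -48), (321, 96), (322, 96),
      (347, 96), (348, 48)],
      [(11, -60), (46, -36), (47, -16), (56, -24), (91, 72), (104, -60), (116, 36), (117, 24),
      (143, -48), (165, 60), (188, 24), (199, -24), (234, -24), (236, 12), (286, 96), (288, 16),
      (289, 80), (300, 48), (332, -24), (333, 16), (344, 24), (346, -72), (358, 40)],
      [(225, 24), (321, -24), (347, -48), (348, -24)],
      [(286, -24), (300, -24)],
      [(11, 15), (46, 15), (104, -15), (107, -12), (115, 12), (116, -15), (143, 36), (154, -24),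
      (165, -15), (166, 36), (168, 32), (190, -24), (201, 24), (210, -24), (226, 24), (227, 24),
      (236, 15), (239, -12), (286, 12), (287, -32), (289, 60), (300, 24), (322, 16), (346, -30),
      (347, 16), (357, 24), (358, 30)],
      [(11, 12), (47, 8), (91, -12), (165, -12), (199, -12), (228, 24), (288, -8), (289, -16),
      (332, 12), (333, -8), (344, -12), (346, 24), (358, -8)],
      [],
      []],
    [[(44, 96), (47, 288), (57, -48), (67, 48), (69, -144), (79, -48), (99, 24), (103, 48),
      (105, 672), (106, 192), (107, -96), (143, -192), (167, 96), (168, -320), (176, 48), (177,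
      -48), (201, 192), (221, -48), (223, 48), (225, -96), (237, 192), (286, 192), (287, -256),
      (288, 96), (297, -48), (309, -96), (310, 48), (311, 288), (321, -672), (322, -256), (331,
      -192), (345, 96), (346, -192), (347, -256), (348, -288), (360, -192)],
      [],
      [],
      [],
      [(11, -12), (44, 48), (46, -12), (57, -24), (67, -24), (104, 12), (105, 48), (107, -48),
      (115, -48), (116, 12), (143, -144), (154, -48), (165, 12), (166, -144), (168, 32), (201,
      96), (225, -96), (226, 96), (236, -12), (237, -48), (239, 48), (286, 336), (287, -128),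
      (289, 144), (300, 96), (321, 48), (322, -32), (331, 48), (346, 24), (347, 160), (348, 48),
      (357, 96), (358, -24), (360, 48)],
      [(11, 6), (47, 20), (91, -6), (104, 12), (116, -12), (165, -6), (199, -6), (236, 12), (288,
      -20), (289, 8), (332, 6), (333, -20), (344, -6), (346, 36), (358, 4)],
      [],
      [],
      [(11, 18), (46, 18), (104, -18), (116, -18), (143, 24), (154, -24), (165, -18), (166, 24),
      (168, 32), (190, -24), (210, -24), (236, 18), (286, -24), (287, -32), (289, 72), (322, 16),
      (346, -36), (347, 16), (357, 48), (358, 36)],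
      [],
      []],
    [[(44, 48), (57, -24), (67, 24), (103, 24), (105, 48), (107, -48), (143, -96), (167, 48),
      (168, -64), (176, 24), (201, 96), (221, -24), (225, -96), (237, 48), (286, 96), (287,
      -128), (289, -96), (309, -48), (322, 64), (331, -48), (345, 48), (347, 160), (360, -48)],
      [(47, -96), (69, 48), (105, -192), (106, -48), (168, 64), (177, 24), (223, -24), (225,
      -48), (237, -48), (287, 32), (289, -96), (311, -96), (321, 240), (322, 128), (331, 48),
      (347, 224), (348, 144), (360, 48)],
      [(11, -24), (46, -12), (47, -40), (56, -48), (90, 24), (91, 60), (104, -156), (116, 36),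
      (117, 24), (165, 24), (166, 48), (188, 72), (199, -84), (224, -48), (226, -96), (234, -24),
      (236, 12), (288, 40), (289, 128), (332, -12), (333, 40), (344, 12), (346, -144), (357, 96),
      (358, 64)],
      [],
      [(11, 3), (46, 3), (104, -3), (107, -12), (115, 12), (116, -3), (143, -12), (154, -24),
      (165, -3), (166, 36), (201, 24), (226, -24), (236, 3), (239, -12), (286, -36), (289, 12),
      (300, -24), (309, -24), (345, 24), (346, -6), (357, -24), (358, 6)],
      [(47, 8), (288, -8), (289, -16), (333, -8), (346, 24), (358, -8)],
      [(168, 8), (287, -8), (322, -8), (347, 16)],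
      [(168, -16), (287, 16), (321, -24), (322, 16), (347, -32)],
      [(11, 3), (46, 3), (104, -3), (116, -3), (143, 12), (165, -3), (166, 12), (201, -24), (236,
      3), (286, -36), (289, 12), (346, -6), (358, 6)],
      [],
      []],
    [[(11, -24), (46, -24), (47, 288), (55, -24), (68, 24), (69, -144), (79, -96), (91, 48),
      (104, 24), (105, 672), (106, 192), (116, -72), (165, 24), (168, -256), (177, -96), (187,
      48), (222, -48), (225, 192), (236, 72), (237, 192), (287, -128), (288, 96), (289, 480),
      (297, -48), (310, 48), (311, 288), (321, -864), (322, -320), (331, -192), (332, -48), (344,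
      48), (346, -336), (347, -704), (348, -480), (358, 144), (360, -192)],
      [(11, -48), (46, -36), (47, -40), (56, -24), (91, 60), (104, -84), (116, 60), (117, 24),
      (165, 48), (188, 48), (199, -36), (224, -24), (226, -48), (234, -24), (236, -12), (286,
      48), (288, 40), (289, 32), (332, -12), (333, 40), (344, 12), (346, -96), (358, 16)],
      [],
      [(11, 12), (46, 12), (104, -12), (116, -12), (154, -24), (165, -12), (210, -24), (236, 12),
      (289, 48), (346, -24), (357, 48), (358, 24)],
      [(47, -48), (69, 24), (79, 24), (105, -144), (106, -48), (168, 64), (177, 24), (211, -24),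
      (225, -48), (237, -48), (287, 32), (288, -48), (289, -96), (311, -48), (321, 192), (322,
      32), (331, 48), (346, 96), (347, 128), (348, 96), (358, -48), (360, 48)],
      [(11, 6), (46, 6), (104, -6), (116, -6), (165, -6), (236, 6), (289, 24), (346, -12), (357,
      24), (358, 12)],
      [(47, 8), (288, -8), (289, 32), (333, -8), (358, 16)],
      [(46, 6), (47, -20), (91, -18), (104, 6), (116, 6), (199, 6), (236, -6), (288, 20), (289,
      -80), (332, -6), (333, 20), (344, 6), (358, -40)],
      [(168, 32), (237, -24), (287, 16), (289, 48), (322, -32), (347, -32), (360, 24)],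
      [],
      []],
    [[(11, 48), (46, 48), (47, -576), (55, 48), (56, 48), (68, -48), (69, 288), (79, 192), (91,
      -96), (104, 48), (105, -1344), (106, -384), (110, 24), (116, 144), (165, -48), (166, -96),
      (168, 512), (177, 192), (187, -96), (188, -48), (199, 96), (222, 96), (224, 48), (225,
      -384), (226, 96), (236, -144), (237, -384), (286, 96), (287, 256), (288, -192), (289,
      -960), (297, 96), (310, -96), (311, -576), (321, 1728), (322, 640), (331, 384), (332, 96),
      (344, -96), (346, 672), (347, 1408), (348, 960), (358, -288), (360, 384)],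
      [(11, 24), (44, -48), (47, 80), (56, 48), (90, -48), (91, -120), (101, -24), (104, 240),
      (107, 96), (116, -48), (117, -48), (143, 96), (154, 96), (165, -24), (166, 96), (168, -64),
      (188, -96), (190, 96), (199, 72), (201, -192), (210, 96), (224, 48), (226, -96), (234, 48),
      (236, -48), (286, -576), (287, 256), (288, -80), (289, -352), (300, -192), (322, -128),
      (332, 24), (333, -80), (344, -24), (346, 336), (347, -128), (357, -384), (358, -176)],
      [],
      [(11, -6), (44, 48), (46, -6), (57, -24), (67, -24), (103, -24), (104, 6), (105, 48), (107,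
      -72), (115, -72), (116, 6), (143, -168), (154, -48), (165, 6), (166, -264), (167, -48),
      (168, 64), (190, -48), (201, 144), (210, -48), (225, -96), (226, 240), (236, -6), (237,
      -48), (239, 72), (286, 648), (287, -256), (289, 264), (300, 240), (309, 48), (321, 96),
      (322, 32), (331, 48), (345, -48), (346, 12), (347, 320), (348, 96), (357, 240), (358, -12),
      (360, 48)],
      [],
      [(11, 9), (46, 9), (104, -9), (107, -12), (115, 12), (116, -9), (143, 12), (154, -24),
      (165, -9), (166, 12), (168, 32), (190, -24), (201, 24), (210, -24), (226, 24), (236, 9),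
      (239, -12), (286, 36), (287, -32), (289, 36), (300, 24), (322, 16), (346, -18), (347, 16),
      (357, 24), (358, 18)],
      [],
      [],
      [],
      [(321, -24), (347, -48), (348, -24)],
      [(11, 3), (46, 3), (104, -3), (116, -3), (143, 12), (165, -3), (166, 12), (226, -24), (236,
      3), (286, -36), (289, 12), (300, -24), (346, -6), (358, 6)]],
    [[],
      [(47, -256), (69, 96), (105, -384), (106, -96), (112, -24), (167, 192), (211, 96), (223,
      -96), (237, -192), (288, 64), (289, 128), (310, -96), (311, -192), (321, 384), (322, 384),
      (333, 64), (347, 384), (348, 192), (356, 96), (358, 256)],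
      [],
      [(11, -24), (46, 24), (47, -128), (55, 24), (68, -24), (69, 96), (79, 96), (104, -24),
      (105, -480), (106, -144), (116, 72), (165, -24), (167, -96), (168, 256), (177, 96), (187,
      -24), (199, -48), (211, -48), (222, 48), (223, 48), (225, -192), (232, -24), (236, -72),
      (237, -96), (287, 128), (288, -160), (289, -608), (297, 48), (311, -192), (321, 672), (322,
      128), (331, 192), (333, -64), (346, 432), (347, 512), (348, 384), (356, -48), (358, -304),
      (360, 192)],
      [(11, -126), (44, -48), (46, -126), (90, -48), (101, -24), (104, 126), (107, 72), (111,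
      -24), (115, -24), (116, 126), (143, -72), (154, 144), (165, 126), (166, -72), (168, -192),
      (190, 144), (201, -144), (210, 144), (226, -144), (236, -126), (239, 72), (286, -216),
      (287, 192), (289, -504), (300, -144), (322, -96), (346, 252), (347, -96), (357, -432),
      (358, -252)],
      [(47, 64), (69, -24), (105, 96), (106, 24), (167, -48), (211, -24), (223, 24), (237, 48),
      (288, -16), (289, -32), (310, 24), (311, 48), (321, -96), (322, -96), (333, -16), (347,
      -96), (348, -48), (356, -24), (358, -64)],
      [(11, 24), (46, 24), (104, -24), (116, -24), (143, 48), (154, -24), (165, -24), (166, 48),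
      (168, 48), (190, -24), (210, -24), (236, 24), (239, -24), (286, -48), (289, 96), (346,
      -48), (357, 48), (358, 48)],
      [(11, -24), (44, 48), (46, -24), (57, -24), (67, -24), (103, -24), (104, 24), (107, -48),
      (113, -24), (115, -48), (116, 24), (143, -192), (154, -48), (165, 24), (166, -288), (167,
      -48), (168, -32), (201, 96), (210, -48), (225, -96), (226, 192), (236, -24), (237, -48),
      (239, 96), (286, 576), (287, -160), (289, 96), (300, 192), (309, 48), (321, 144), (322,
      32), (331, 48), (345, -48), (346, 48), (347, 320), (348, 144), (357, 192), (358, -48),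
      (360, 48)],
      [(46, 24), (47, -16), (56, 24), (91, -24), (104, 72), (116, -24), (117, -24), (166, -48),
      (188, -24), (199, 72), (224, 24), (226, 48), (236, -24), (286, 48), (288, 16), (289, -64),
      (332, -24), (333, 16), (344, 24), (358, -32)],
      [(46, 6), (47, 12), (91, 6), (104, 6), (116, -18), (199, 6), (236, -6), (288, -12), (289,
      48), (332, -6), (333, -12), (344, 6), (358, 24)],
      [(237, -24), (289, 48)]]]
  A := [[[(105, 24), (168, 16), (287, -16), (289, 48), (321, -24), (322, -16), (347, -16), (348,
      -24)],
      [(46, 6), (47, -4), (91, 6), (104, 6), (116, 6), (199, 6), (236, -6), (288, 4), (289, -16),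
      (332, -6), (333, 4), (344, 6), (358, -8)],
      [(11, 3), (46, 3), (104, -3), (107, 12), (115, 12), (116, -3), (143, 36), (165, -3), (166,
      36), (168, 16), (201, -24), (226, -24), (236, 3), (239, -12), (286, -84), (287, 32), (289,
      12), (300, -24), (322, -16), (346, -6), (347, -16), (357, -24), (358, 6)],
      [(47, 16), (105, 48), (106, 24), (288, 32), (289, -32), (321, -48), (333, -16), (358,
      -16)],
      [(56, 24), (104, 48), (166, -48), (188, -24), (199, 48), (224, 24), (226, 48), (286, 48)],
      [],
      [(11, -24), (47, -144), (55, 24), (69, 96), (79, 48), (91, 24), (105, -384), (106, -96),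
      (165, -24), (168, 128), (177, 48), (187, -24), (199, -24), (222, 24), (225, -96), (237,
      -96), (287, 64), (288, -48), (289, -288), (297, 48), (310, -48), (311, -192), (321, 480),
      (322, 256), (331, 96), (332, -24), (333, -48), (344, 24), (346, 240), (347, 448), (348,
      288), (358, -48), (360, 96)],
      [],
      [],
      []],
    [[(11, 3), (46, 3), (104, -3), (116, -3), (143, 12), (165, -3), (166, 12), (236, 3), (286,
      -12), (289, 12), (346, -6), (358, 6)],
      [],
      [(11, -12), (47, -8), (91, 12), (165, 12), (199, 12), (288, 8), (289, 16), (332, -12),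
      (333, 8), (344, 12), (346, -24), (358, 8)],
      [],
      [(47, 48), (69, -24), (105, 96), (106, 24), (223, 24), (289, 96), (311, 48), (321, -96),
      (322, -96), (347, -96), (348, -48)],
      [(11, 30), (46, 30), (56, 24), (91, -48), (104, 66), (116, -30), (117, -24), (143, 24),
      (165, -30), (166, -24), (188, -24), (199, 48), (224, 24), (226, 48), (234, 24), (236, -18),
      (286, -24), (289, -72), (346, 36), (358, -36)],
      [(11, -12), (46, -12), (67, -24), (103, -24), (104, 12), (115, -48), (116, 12), (143, -48),
      (165, 12), (166, -144), (167, -48), (168, 32), (221, 24), (226, 96), (236, -12), (237,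
      -48), (239, 48), (286, 240), (287, -32), (289, 144), (300, 96), (309, 48), (321, 48), (322,
      -32), (331, 48), (345, -48), (346, 24), (347, 64), (348, 48), (357, 96), (358, -24), (360,
      48)],
      [(11, -24), (46, 24), (47, -288), (55, 24), (68, -24), (69, 144), (79, 96), (104, -24),
      (105, -672), (106, -192), (116, 72), (165, -24), (168, 256), (177, 96), (187, -24), (222,
      48), (225, -192), (236, -72), (237, -192), (287, 128), (288, -96), (289, -480), (297, 48),
      (310, -48), (311, -288), (321, 864), (322, 320), (331, 192), (346, 336), (347, 704), (348,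
      480), (358, -144), (360, 192)],
      [(11, -72), (44, -96), (46, -72), (90, -48), (101, -24), (104, 72), (107, 96), (111, -24),
      (116, 72), (143, 96), (154, 96), (165, 72), (166, 96), (168, -64), (190, 96), (201, -192),
      (210, 96), (226, -192), (233, 24), (236, -72), (286, -480), (287, 256), (289, -288), (300,
      -192), (322, -128), (346, 144), (347, -128), (357, -384), (358, -144)],
      [(44, -96), (47, -736), (57, 48), (67, -48), (69, 336), (79, 96), (99, -24), (103, -48),
      (105, -1536), (106, -432), (107, 96), (112, -24), (143, 192), (167, 96), (168, 448), (176,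
      -48), (177, 96), (201, -192), (211, 96), (221, 48), (223, -144), (231, 24), (237, -480),
      (286, -192), (287, 320), (288, -128), (289, -64), (297, 96), (309, 96), (310, -192), (311,
      -672), (321, 1632), (322, 896), (331, 288), (333, 64), (345, -96), (346, 384), (347, 1088),
      (348, 768), (356, 96), (358, 256), (360, 288)]],
    [[(168, -8), (287, 8), (322, 8), (347, 8)],
      [(47, -8), (288, 8), (289, 16), (333, 8), (358, 8)],
      [],
      [],
      [(344, 24)],
      [(11, 12), (46, 12), (104, -12), (116, -12), (143, 48), (165, -12), (168, 32), (190, -24),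
      (210, -24), (236, 12), (287, -32), (289, 48), (309, 24), (322, 16), (346, -24), (347, 16),
      (357, 48), (358, 24)],
      [(47, 96), (69, -48), (79, -24), (105, 240), (106, 72), (168, -64), (177, -24), (223, 24),
      (225, 48), (237, 48), (287, -32), (288, 48), (289, 96), (310, 24), (311, 96), (321, -288),
      (322, -128), (331, -48), (346, -96), (347, -224), (348, -144), (360, -48)],
      [(11, -24), (46, 12), (47, 40), (56, 72), (77, -24), (90, -24), (91, -12), (104, 204),
      (116, -36), (117, -24), (165, -24), (166, -96), (188, -96), (199, 132), (224, 72), (226,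
      144), (234, 24), (236, -12), (286, 48), (288, -40), (289, -128), (308, 24), (332, -36),
      (333, -40), (344, 36), (346, 144), (357, -96), (358, -64)],
      [(11, 18), (46, 18), (67, -48), (103, -48), (104, -18), (107, -24), (115, -72), (116, -18),
      (143, 24), (154, -48), (165, -18), (166, -264), (167, -96), (168, 224), (176, -24), (190,
      -96), (201, 48), (210, -96), (221, 24), (226, 240), (236, 18), (237, -96), (239, 72), (286,
      552), (287, -224), (289, 456), (300, 240), (309, 144), (321, 96), (322, -32), (331, 96),
      (341, 24), (345, -96), (346, -36), (347, 160), (348, 96), (357, 336), (358, 36), (360,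
      96)],
      [(46, 48), (47, -128), (55, 48), (68, -48), (69, 96), (79, 144), (91, -48), (104, -48),
      (105, -480), (106, -144), (116, 144), (165, -48), (167, -96), (168, 384), (177, 144), (187,
      -72), (199, -48), (211, -48), (222, 96), (223, 96), (225, -288), (232, -24), (236, -144),
      (237, -192), (287, 192), (288, -160), (289, -704), (297, 48), (311, -192), (321, 768),
      (331, 288), (332, 48), (333, -64), (346, 576), (347, 576), (348, 480), (352, 24), (356,
      -48), (358, -448), (360, 288)]]]
  W := [[[],
      [],
      [],
      [[(165, 48), (187, -24), (198, 48), (223, 48)]],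
      [[],
       [(44, 24), (198, -24), (223, -24), (330, 24), (355, 24)]],
      [[],
       [],
       [],
       [(102, -24)]],
      [[(100, -48), (110, -24), (209, 96), (220, 48), (233, 48), (352, -48)]],
      [[],
       [(77, 24), (102, -24), (176, -24), (286, 48), (308, 24), (343, -24)],
       [],
       [(223, -24)]],
      [[(66, -24), (101, -24), (102, 48), (176, 48), (198, 48), (223, 48), (286, -96), (308, -48),
      (330, -48), (343, 48), (355, -48)],
       [(88, 24), (165, 48), (187, -24), (198, 48), (222, -24), (223, 48), (341, 24)]],
      [[],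
       [(99, 24), (222, 48), (341, -48)],
       [],
       [(100, 24)]],
      [[],
       [],
       [],
       [],
       [(112, 24)],
       [],
       [],
       [],
       [(44, 48), (88, 24), (165, 48), (187, -24), (232, 24), (330, 48), (341, 24), (355, 48)]]],
    [[],
      [[(198, 24), (223, 24), (330, -24), (355, -24)]],
      [],
      [],
      [],
      [[],
       [],
       [(55, -24), (100, -24), (209, 48), (220, 24), (233, 24), (352, -24)],
       [(165, 48), (209, -24), (297, 24), (342, 24)]],
      [[],
       [],
       [(101, 24), (102, -48), (176, -48), (286, 96), (308, 48), (343, -48)]],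
      [[(222, 24), (341, -24)],
       [],
       [(102, -24), (176, -24), (286, 48), (308, 24), (343, -24)]],
      [[(100, -24), (209, 48), (220, 24), (233, 24), (352, -24)],
       [],
       [],
       [(355, -24)]],
      [],
      [[],
       [],
       [],
       [],
       [(44, 48), (111, -24), (198, -48), (223, -48), (330, 48), (355, 48)],
       [],
       [],
       [(44, 48), (88, 24), (113, -24), (165, 48), (187, -24), (232, 24), (330, 48), (341, 24)]]],
    [[],
      [[(165, 24)]],
      [[(286, 24)]],
      [[(198, 24), (223, 24)]],
      [],
      [[],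
       [(342, 24)],
       [(102, -24), (176, -24), (286, 48), (308, 24)]],
      [],
      [[(209, 24)],
       [(319, -24)]],
      [[(286, -48), (308, 24)]],
      [[],
       [(222, -24)],
       [(100, 24), (209, -48), (220, -24)],
       [],
       [],
       [],
       [],
       [],
       [(344, -24)]],
      [[],
       [(100, 24), (209, -48), (220, -24), (233, -24)],
       [(66, 24), (101, 24), (102, -48), (176, -48), (198, -48), (223, -48), (231, -24), (308,
      96), (330, 48), (343, -48), (355, 48)],
       [(353, -24)],
       [],
       [],
       [],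
       [(234, -24)]]]]

theorem ce1_ck : ce1.ck bs 11 1 = true := by decide +kernel

/-- certificate -/
def ce2 : Cer where
  den := 4
  N := [[],
    [[(44, 4)],
      [],
      [],
      [],
      [],
      [],
      [],
      [],
      [],
      [],
      []],
    [],
    [],
    [[],
      [(165, -4)],
      [],
      [(44, -1), (286, -2), (330, 1), (355, 1)],
      [],
      [],
      [],
      [],
      [],
      [],
      []],
    [[(44, -8), (66, 4), (77, 8), (101, 4)],
      [(44, -8), (113, 2), (176, -2), (221, 2), (330, 4)],
      [(55, -4), (187, 4)],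
      [(198, -4), (223, 4), (342, -4)],
      [],
      [],
      [],
      [],
      [],
      [],
      []],
    [[(99, 4)],
      [],
      [(77, 8), (101, 4)],
      [],
      [],
      [],
      [],
      [],
      [],
      [],
      []],
    [[],
      [],
      [],
      [(319, -2), (344, 2)],
      [],
      [],
      [],
      [],
      [],
      [],
      []],
    [[(187, 4)],
      [(209, -4)],
      [(88, -4)],
      [(44, 4), (330, -4)],
      [],
      [],
      [],
      [],
      [],
      [],
      []],
    [[],
      [],
      [],
      [(44, -8), (113, 4), (330, 8)],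
      [(55, -4), (187, 4), (198, -8), (222, -4)],
      [],
      [],
      [(44, -2), (77, 4), (102, -4), (286, -4), (319, 4), (330, 2), (344, -4), (355, 2)],
      [(342, -4)],
      [],
      []],
    [[],
      [(88, -8), (112, -4)],
      [(77, -8), (110, -4), (187, 8)],
      [(165, 8), (232, -4)],
      [(111, -4), (209, -8)],
      [],
      [],
      [],
      [(44, 2), (234, -4), (286, 4), (330, -2), (355, -2)],
      [],
      []]]
  A := [[[],
      [],
      [],
      [],
      [(77, 4)],
      [],
      [],
      [],
      [],
      []],
    [[],
      [],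
      [],
      [(113, -1), (176, -1), (221, -1), (330, -2)],
      [(198, 4)],
      [],
      [],
      [],
      [(77, -8), (101, -4), (111, -4), (209, -8), (233, 4)],
      [(88, -8), (99, -4), (112, -4), (198, 8), (231, 4)]],
    [[],
      [],
      [(44, -1), (286, 2), (330, 1), (355, 1)],
      [],
      [(319, 2), (344, 2)],
      [],
      [],
      [(308, 4)],
      [(44, -8), (113, 4), (330, 8), (341, 4)],
      [(165, 8), (187, -4), (232, -4), (319, 4), (344, 4), (352, 4)]]]
  W := [[[],
      [],
      [],
      [],
      [],
      [],
      [],
      [],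
      [],
      [[],
       [(99, 4)]],
      []],
    [[],
      [],
      [],
      [],
      [],
      [],
      [],
      [],
      [],
      [[(110, 4)]],
      []],
    [[],
      [],
      [],
      [],
      [],
      [[(341, 4)]],
      [],
      [],
      [],
      [[],
       [],
       [(220, -4)]],
      [[],
       [(352, -4)],
       [(231, -4)]]]]

theorem ce2_ck : ce2.ck bs 11 2 = true := by decide +kernel

/-- certificate -/
def ce3 : Cer where
  den := 1
  N := [[],
    [],
    [],
    [],
    [],
    [],
    [],
    [],
    [],
    [[],
      [],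
      [(99, -1)],
      [(341, -1)],
      [],
      [],
      [],
      [],
      [],
      [],
      []],
    [[],
      [],
      [(110, -1)],
      [],
      [],
      [],
      [],
      [],
      [],
      [],
      []]]
  A := [[],
    [[],
      [],
      [],
      [],
      [],
      [],
      [],
      [],
      [(220, 1)],
      [(231, 1)]],
    [[],
      [],
      [],
      [],
      [],
      [],
      [],
      [],
      [],
      [(352, 1)]]]
  W := [[[],
      [],
      [],
      [],
      [],
      [],
      [],
      [],
      [],
      [],
      []],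
    [[],
      [],
      [],
      [],
      [],
      [],
      [],
      [],
      [],
      [],
      []],
    [[],
      [],
      [],
      [],
      [],
      [],
      [],
      [],
      [],
      [],
      []]]

theorem ce3_ck : ce3.ck bs 11 3 = true := by decide +kernel

/-- exactness on the level `0` -/
def ex0 : TowerCk.EC where
  den := 1
  F := [[[],
      [(22, 1)],
      [],
      [(11, -1)]],
    [[],
      [],
      [],
      [(0, 1)]],
    []]
  W := [[],
    [],
    []]

theorem ex0_ck : ex0.ck bs 11 0 = true := by decide +kernel

/-- exactness on the level `1` -/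
def ex1 : TowerCk.EC where
  den := 2
  F := [[[],
      [],
      [],
      [],
      [(14, 4), (24, 2)],
      [(3, -2), (23, -1)],
      [(14, -2)],
      [(13, -2), (14, 4)],
      [(12, -2)]],
    [[],
      [],
      [],
      [],
      [],
      [],
      [(3, 2)],
      [(3, -4), (12, -2), (25, -2)],
      [(1, 2)]],
    []]
  W := [[[],
      [],
      [(0, 2)]],
    [],
    []]

theorem ex1_ck : ex1.ck bs 11 1 = true := by decide +kernel

/-- all certificates -/
theorem cert {k : Type*} [Field k] [CharZero k] (κ : ℕ) (hκ : 1 ≤ κ) :
    Cert (fun x : Fin 11 => bs.w x) (Mt k 11 (nth [] bs.pw 1)) (XX k bs 11) κ := by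
  have hB : bs.ckPow 11 = true := by
    have h := bs_ck
    simp only [Base.ck, Bool.and_eq_true] at h
    exact h.1.1
  rcases Nat.lt_or_ge 3 κ with h | h
  · exact cert_large (L := 3) (by decide) h
  · interval_cases κ
    · exact cert_of_ck bs (by norm_num) hB ce1 ce1_ck
    · exact cert_of_ck bs (by norm_num) hB ce2 ce2_ck
    · exact cert_of_ck bs (by norm_num) hB ce3 ce3_ck

/-- exactness of the base point -/
theorem ex {k : Type*} [Field k] [CharZero k] (a : ℕ) (ha : a + 2 ≤ 3) :
    EXr (fun x : Fin 11 => bs.w x) (XX k bs 11) a := by
  have h : a < 2 := by omega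
  interval_cases a
  · exact TowerCk.exr_of_ck bs (by norm_num) ex0 ex0_ck
  · exact TowerCk.exr_of_ck bs (by norm_num) ex1 ex1_ck

/-- **Levels of sizes `1, 3, 5, 2`.** -/
theorem cl {k : Type*} [Field k] [CharZero k] {ι : Type*} [Fintype ι] [DecidableEq ι] (w : ι → ℕ)
    (hle : ∀ x, w x ≤ 3) (hn : ∀ a : Fin 4, Fintype.card {x // w x = (a : ℕ)} = ![1, 3, 5, 2] a)
    {T : Fin 3 → Matrix ι ι k} (hT : ∀ i j, T i * T j = T j * T i)
    (hlow : ∀ i x y, w x ≤ w y → T i x y = 0) (eT : ∀ a, a + 2 ≤ 3 → EXr w T a) : Cl T := by
  refine TowerCk.cl_tower_ck (by norm_num) bs_ck cert 3 (by decide) ex w hle ?_ hT hlow eT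
  intro a ha
  have h : ∀ a : Fin 4, Fintype.card {x : Fin 11 // bs.w x = (a : ℕ)} = ![1, 3, 5, 2] a := by decide
  exact (hn ⟨a, by omega⟩).trans (h ⟨a, by omega⟩).symm

end Pool.Agent.Lib.D13.R1352
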