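import Pool.Agent.Lib.D13.TowerCk

/-!
# MP_5dcbc3_ag: density certificates, levels (1,3,5,3), d = 12: `x, y, z = t, t ^ 3, t ^ 4`
-/

namespace Pool.Agent.Lib.D13.R1353

open Refl Pool.Agent.Lib.Q5dc

/-- the base point -/
def bs : Base where
  lev := [0, 1, 1, 1, 2, 2, 2, 2, 2, 3, 3, 3]
  pw := [[[(0, 1)], [(1, 1)], [(2, 1)], [(3, 1)], [(4, 1)], [(5, 1)], [(6, 1)], [(7, 1)], [(8, 1)],
      [(9, 1)], [(10, 1)], [(11, 1)]],
    [[], [(0, 1)], [(4, 1)], [(2, 1)], [(1, 1)], [(3, 1)], [(5, 1)], [(6, 1)], [(7, 1)], [(8,
      1)], [(9, 1)], [(10, 1)]],
    [[], [], [(1, 1)], [(4, 1)], [(0, 1)], [(2, 1)], [(3, 1)], [(5, 1)], [(6, 1)], [(7, 1)],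
      [(8, 1)], [(9, 1)]],
    [[], [], [(0, 1)], [(1, 1)], [], [(4, 1)], [(2, 1)], [(3, 1)], [(5, 1)], [(6, 1)], [(7,
      1)], [(8, 1)]],
    [[], [], [], [(0, 1)], [], [(1, 1)], [(4, 1)], [(2, 1)], [(3, 1)], [(5, 1)], [(6, 1)], [(7,
      1)]],
    [[], [], [], [], [], [(0, 1)], [(1, 1)], [(4, 1)], [(2, 1)], [(3, 1)], [(5, 1)], [(6, 1)]],
    [[], [], [], [], [], [], [(0, 1)], [(1, 1)], [(4, 1)], [(2, 1)], [(3, 1)], [(5, 1)]],
    [[], [], [], [], [], [], [], [(0, 1)], [(1, 1)], [(4, 1)], [(2, 1)], [(3, 1)]],
    [[], [], [], [], [], [], [], [], [(0, 1)], [(1, 1)], [(4, 1)], [(2, 1)]],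
    [[], [], [], [], [], [], [], [], [], [(0, 1)], [(1, 1)], [(4, 1)]],
    [[], [], [], [], [], [], [], [], [], [], [(0, 1)], [(1, 1)]],
    [[], [], [], [], [], [], [], [], [], [], [], [(0, 1)]]]
  xc := [[(1, 1)], [(3, 1)], [(4, 1)]]
  X := [[[], [(0, 1)], [(4, 1)], [(2, 1)], [(1, 1)], [(3, 1)], [(5, 1)], [(6, 1)], [(7, 1)], [(8,
      1)], [(9, 1)], [(10, 1)]],
    [[], [], [(0, 1)], [(1, 1)], [], [(4, 1)], [(2, 1)], [(3, 1)], [(5, 1)], [(6, 1)], [(7,
      1)], [(8, 1)]],
    [[], [], [], [(0, 1)], [], [(1, 1)], [(4, 1)], [(2, 1)], [(3, 1)], [(5, 1)], [(6, 1)], [(7,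
      1)]]]

theorem bs_ck : bs.ck 12 = true := by decide +kernel

/-- certificate -/
def ce1 : Cer where
  den := 12
  N := [[],
    [[(348, 12), (399, 12)],
      [(12, -12), (116, 12), (168, 36), (218, 36), (231, -12), (258, -12), (271, -48), (387, 12),
      (414, 48)],
      [(193, 12), (260, -12), (336, -20), (350, 12), (363, -8), (403, 12), (416, 4)],
      [(300, -8), (351, 4), (404, 4)],
      [],
      [],
      [],
      [],
      [],
      [],
      [],
      []],
    [[(86, 24), (99, 12), (113, 12), (216, 12), (254, -12)],
      [(87, 36), (114, 24), (140, 24), (217, 12), (255, -24), (269, 36), (282, -24)],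
      [(218, 12), (271, -12), (414, 12)],
      [(192, -8), (206, -8), (259, 8), (272, 8), (375, 12), (402, -8), (415, -8), (428, 4)],
      [],
      [],
      [],
      [],
      [],
      [],
      [],
      []],
    [[(73, 12), (138, 36), (241, -12), (266, 24), (279, -12), (384, 12), (412, 12), (422, -24)],
      [(36, -12), (86, 24), (99, 12), (113, 12), (216, 12), (254, -12)],
      [(62, 9), (115, -6), (128, -3), (230, 3), (243, -6), (270, 3), (399, 15)],
      [(168, -12), (218, -12), (231, 12), (271, 12), (414, -12)],
      [],
      [],
      [],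
      [],
      [],
      [],
      [],
      []],
    [[(87, 48), (114, 24), (140, 24), (217, 12), (255, -24), (269, 36), (282, -24), (360, 12),
      (373, -12)],
      [(48, -12), (62, 3), (115, 6), (128, 3), (230, -3), (243, 6), (270, -3), (348, 12), (399,
      9)],
      [(192, -12)],
      [(336, -8), (363, 4), (416, 4)],
      [(12, -12), (49, -12), (116, 24), (168, 72), (218, 72), (231, -24), (258, -24), (271, -96),
      (387, 24), (414, 96)],
      [(51, -12), (300, -8), (351, 4), (404, 4)],
      [(194, -12)],
      [(195, -12)],
      [(339, -12)],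
      [],
      [],
      []],
    [[(72, 24), (85, 24), (137, 12), (240, -12), (268, 24), (278, -12)],
      [(73, 12), (138, 24), (266, 12), (279, -12), (412, 12), (422, -12)],
      [(87, 36), (114, 12), (140, 12), (204, -12), (217, 12), (255, -12), (269, 24), (282, -12),
      (360, 12), (373, -12)],
      [(399, 12)],
      [(36, -12), (61, -12), (86, 24), (99, 12), (113, 12), (216, 12), (254, -12)],
      [(63, -12), (116, 12), (168, 24), (218, 24), (258, -12), (271, -36), (387, 12), (414, 36)],
      [(192, -12), (206, -12)],
      [(193, 12), (260, -12), (336, -16), (363, -4), (403, 12), (416, 8)],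
      [(300, -4), (351, -4), (404, 8)],
      [],
      [],
      []],
    [[(97, -12), (122, 12), (135, 12), (252, 12), (280, -12)],
      [(72, 12), (85, 24), (137, 12), (240, -12), (268, 24), (278, -12)],
      [(86, 12)],
      [(87, 24), (114, 12), (140, 12), (255, -12), (269, 24), (282, -12)],
      [(138, 24), (266, 12), (279, -12), (412, 12), (422, -12)],
      [(62, 3), (115, 6), (128, -9), (230, -3), (243, 6), (270, -3), (399, -3), (413, 12)],
      [(168, 12), (218, 12), (271, -24), (414, 24)],
      [(192, -8), (206, -8), (259, 8), (272, -4), (402, -8), (415, 4), (428, 4)],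
      [(336, -4), (363, -4), (416, 8)],
      [],
      [],
      []],
    [[(96, 12)],
      [],
      [(138, 12), (266, 12), (279, -12)],
      [],
      [(72, 12), (85, 12), (137, 12), (240, -12), (268, 24), (278, -12)],
      [(87, 12), (114, 12), (140, 12), (255, -12), (269, 24), (282, -12)],
      [(62, 6), (128, -6), (230, -6), (270, 6), (399, 6)],
      [],
      [(192, -4), (206, -4), (259, 4), (272, 4), (402, -4), (415, -4), (428, 8)],
      [],
      [],
      []],
    [[(108, 12), (121, 12), (136, 12)],
      [],
      [(72, 12), (85, 12), (240, -12), (268, 12)],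
      [],
      [(97, -12)],
      [(99, -12)],
      [(87, 12), (114, 12), (255, -12), (269, 12)],
      [(62, -3), (115, 6), (128, -3), (230, 3), (243, -6), (270, 3), (399, 3)],
      [(168, -12), (218, -12), (231, 12), (271, 12), (387, -12), (414, -12)],
      [],
      [],
      []],
    [[(120, 12), (133, -12)],
      [(121, 12), (136, 12)],
      [(97, -12), (112, -12)],
      [(123, 12)],
      [(109, -12)],
      [(73, -12), (241, 12), (256, -12)],
      [(99, -12), (113, -12)],
      [(87, 12), (255, -12), (269, 12)],
      [],
      [(168, 24), (218, 24), (258, -12), (271, -36), (414, 36)],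
      [(192, -8), (206, -8), (259, -4), (272, -4), (402, -8), (415, 4), (428, 4)],
      [(193, 12), (260, -12), (336, -12), (416, 12)]],
    [[],
      [],
      [(109, -12), (124, -12)],
      [(97, -12), (112, -12), (122, -12)],
      [(136, 12)],
      [],
      [(73, -12), (138, -12), (241, 12), (266, -12), (412, -12), (422, 12)],
      [(99, -12), (113, -12), (126, -12)],
      [],
      [(62, 3), (115, 6), (128, -9), (230, -3), (243, 6), (270, -3), (399, -3)],
      [(168, 12), (218, 12), (271, -24), (414, 12)],
      [(192, -4), (206, -4), (259, 4), (272, -8), (402, -4), (415, -4), (428, 8)]],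
    [[],
      [],
      [],
      [(96, -12), (109, -12), (124, -12), (264, 12), (277, -12)],
      [],
      [(97, -12), (112, -12), (122, -12), (135, -12)],
      [(137, -12)],
      [(73, -12), (138, -24), (241, 12), (266, -12), (412, -12), (422, 12)],
      [(36, 12), (86, -24), (99, -24), (113, -12), (216, -12), (254, 12), (385, 12), (423, -12)],
      [(140, -12)],
      [(62, 6), (128, -6), (230, -6), (270, 6), (399, 6), (426, -12)],
      [(427, -12)]]]
  A := [[[(116, 12), (168, 36), (218, 36), (231, -12), (258, -12), (271, -48), (387, 12), (414,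
      48)],
      [(62, 3), (115, 6), (128, 3), (230, -3), (243, 6), (270, -3), (399, -3)],
      [],
      [],
      [],
      [],
      [],
      [],
      [],
      [(133, 12)],
      [(132, 12)]],
    [[(193, 12), (336, -8), (363, 4), (416, 4)],
      [],
      [(168, 12), (218, 12), (271, -12), (414, 12)],
      [(62, -3), (115, 6), (128, -3), (230, 3), (243, 6), (270, 3), (399, -9)],
      [(87, -12), (114, -12), (140, -12), (255, 12), (269, -12), (282, 12)],
      [(86, -12), (99, -12), (113, -12), (254, 12)],
      [(73, -12), (138, -24), (241, 12), (266, -12), (279, 12), (412, -12), (422, 12)],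
      [(72, -12), (85, -12), (137, -12), (240, 12), (268, -12), (278, 12)],
      [(112, -12), (122, -12), (135, -12), (280, 12)],
      [(96, -12), (109, -12), (124, -12), (264, 12)],
      [(108, -12), (121, -12), (136, -12), (276, 12)]],
    [[(300, 4), (351, 4), (404, 4)],
      [(336, 4), (363, 4), (416, 4)],
      [(192, 4), (206, 4), (259, -4), (272, -4), (402, 4), (415, 4), (428, 4)],
      [],
      [],
      [(87, -24), (114, -12), (140, -12), (217, -12), (255, 12), (269, -12), (282, 12), (373,
      12)],
      [(36, 12), (86, -24), (99, -24), (113, -12), (216, -12), (254, 12), (385, 12)],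
      [(73, -12), (138, -36), (241, 12), (266, -24), (279, 12), (412, -12), (422, 24)],
      [(72, -12), (85, -24), (137, -12), (240, 12), (268, -24), (278, 12), (409, 12)],
      [(97, -12), (112, -12), (122, -12), (135, -12), (421, 12)],
      [(96, -24), (109, -12), (124, -12), (264, 12), (277, -12), (420, 12)]]]
  W := [[[],
      [],
      [[(228, -12)]],
      [],
      [[],
       [],
       [(48, 12), (348, 12), (399, 12)]],
      [[(96, -12), (134, -12), (420, -12)]],
      [[],
       [],
       [(72, 12), (228, -12)],
       [(267, -12)]],
      [[(120, -12), (133, -12)]],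
      [[],
       [],
       [(134, -12)]],
      [[],
       [],
       [(108, 12), (121, 12)],
       [(109, 12)]],
      [[],
       [],
       [],
       [],
       [],
       [(96, -12), (109, -12), (134, -12), (252, 12), (265, 12), (420, -12)],
       [],
       [(123, 12)]],
      [[],
       [],
       [(132, 12)],
       [],
       [],
       [],
       [],
       [(122, 12), (240, -12), (278, 12), (408, 12)]]],
    [[],
      [[(348, -12), (399, -12)]],
      [],
      [[(254, -12), (384, -12)]],
      [],
      [[],
       [(60, -12), (254, -12), (384, -12)],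
       [],
       [(399, -12)]],
      [[],
       [],
       [],
       [(411, -12)]],
      [[(420, -12)],
       [(84, -12)]],
      [[],
       [],
       [(72, 12), (110, 12), (228, -12)]],
      [[],
       [(121, 12)],
       [],
       [],
       [],
       [(111, -12), (267, 12)]],
      [[],
       [(133, 12)],
       [],
       [(122, -12)]],
      [[],
       [],
       [],
       [],
       [],
       [(135, -12), (240, -12), (278, 12), (408, 12)],
       [],
       [(254, -12), (422, 12)],
       [(423, 12)]]],
    [[],
      [],
      [[(360, 12), (398, 12), (411, 12)]],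
      [[(372, 12), (410, 12)]],
      [[],
       [(192, -12)],
       [(336, -12)]],
      [[],
       [(204, -12), (372, 12), (410, 12)]],
      [[],
       [(216, -12), (267, -12)],
       [(398, 12)]],
      [[(240, 12)],
       [],
       [(410, 12)]],
      [[],
       [],
       [(254, 12)]],
      [[(264, 12)],
       [(96, 12), (109, 12), (134, 12), (252, -12), (420, 12)],
       [(396, -12)],
       [],
       [(253, -12)],
       [(255, -12)]],
      [[(120, -12), (133, -12), (276, 12)],
       [],
       [(122, -12), (240, 12), (408, -12)],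
       [(72, -12), (123, 12), (228, 12), (266, -12), (396, -12)]],
      [[],
       [],
       [],
       [],
       [(277, -12)],
       [(72, -12), (123, 12), (228, 12), (266, -12), (279, -12), (396, -12)]]]]

theorem ce1_ck : ce1.ck bs 12 1 = true := by decide +kernel

/-- certificate -/
def ce2 : Cer where
  den := 1
  N := [[],
    [],
    [[(372, 1)],
      [],
      [],
      [],
      [],
      [],
      [],
      [],
      [],
      [],
      [],
      []],
    [[(384, 1)],
      [],
      [],
      [],
      [],
      [],
      [],
      [],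
      [],
      [],
      [],
      []],
    [[],
      [],
      [(192, -1)],
      [],
      [],
      [],
      [],
      [],
      [],
      [],
      [],
      []],
    [[],
      [(60, -1), (384, 1)],
      [],
      [(348, -1)],
      [],
      [],
      [],
      [],
      [],
      [],
      [],
      []],
    [[],
      [(72, -1)],
      [(267, -1), (410, 1)],
      [],
      [],
      [],
      [],
      [],
      [],
      [],
      [],
      []],
    [[],
      [],
      [(279, -1), (422, 1)],
      [],
      [],
      [],
      [],
      [],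
      [],
      [],
      [],
      []],
    [[(108, 1), (121, -1)],
      [],
      [(110, 1)],
      [],
      [],
      [],
      [],
      [],
      [],
      [],
      [],
      []],
    [[(120, 1)],
      [],
      [(122, 1), (135, -1), (408, -2), (421, 2)],
      [],
      [(96, 1), (109, -1)],
      [(60, -1), (384, 1), (397, -1)],
      [(254, -1), (267, -1), (410, 1)],
      [(204, 1), (255, -1)],
      [(348, -1), (399, -1)],
      [],
      [],
      []],
    [[],
      [],
      [(96, -1), (134, 1)],
      [(408, -1), (421, 1)],
      [],
      [(123, -1)],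
      [(266, -1), (279, -1), (422, 1)],
      [(267, -1)],
      [(360, 1), (411, -1)],
      [],
      [],
      []],
    [[],
      [],
      [],
      [],
      [(133, -1)],
      [],
      [(110, 2), (240, 1), (278, -1)],
      [(279, -1)],
      [(423, -1)],
      [],
      [],
      []]]
  A := [[[],
      [(48, 1)],
      [],
      [],
      [],
      [],
      [(135, 1), (408, 1), (421, -1)],
      [(96, 1)],
      [(121, 1)],
      [],
      [(132, 1)]],
    [[],
      [],
      [],
      [],
      [(204, 1)],
      [],
      [],
      [(110, 1), (240, 1)],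
      [(265, 1), (408, -1), (421, 1)],
      [(277, 1)],
      [(108, -1), (121, 1), (276, 1)]],
    [[],
      [(336, 1)],
      [],
      [],
      [],
      [(360, 1)],
      [],
      [],
      [(396, 1)],
      [(421, 1)],
      [(420, 1)]]]
  W := [[[],
      [],
      [],
      [],
      [],
      [],
      [],
      [[(276, -1)]],
      [],
      [[],
       [],
       [],
       [(252, 1)]],
      [],
      []],
    [[],
      [],
      [],
      [],
      [],
      [],
      [[(408, -1)]],
      [[(420, -1)]],
      [],
      [[(120, 1), (276, -1)],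
       [(108, -1)]],
      [[(132, 1)]],
      []],
    [[],
      [],
      [],
      [],
      [],
      [],
      [],
      [],
      [],
      [[],
       [],
       [(396, -1)]],
      [[],
       [(264, -1)]],
      []]]

theorem ce2_ck : ce2.ck bs 12 2 = true := by decide +kernel

/-- certificate -/
def ce3 : Cer where
  den := 1
  N := [[],
    [],
    [],
    [],
    [],
    [[(396, 1)],
      [],
      [],
      [],
      [],
      [],
      [],
      [],
      [],
      [],
      [],
      []],
    [],
    [],
    [],
    [],
    [[],
      [],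
      [(264, -1)],
      [(408, -1)],
      [],
      [],
      [],
      [],
      [],
      [],
      [],
      []],
    [[],
      [(132, -1)],
      [],
      [],
      [],
      [],
      [],
      [],
      [],
      [],
      [],
      []]]
  A := [[[],
      [],
      [],
      [],
      [],
      [],
      [],
      [],
      [(108, 1)],
      [(120, 1)],
      []],
    [[],
      [],
      [],
      [],
      [],
      [],
      [],
      [],
      [(252, 1)],
      [],
      [(276, 1)]],
    [[],
      [],
      [],
      [],
      [],
      [],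
      [],
      [],
      [],
      [],
      [(420, 1)]]]
  W := [[[],
      [],
      [],
      [],
      [],
      [],
      [],
      [],
      [],
      [],
      [],
      []],
    [[],
      [],
      [],
      [],
      [],
      [],
      [],
      [],
      [],
      [],
      [],
      []],
    [[],
      [],
      [],
      [],
      [],
      [],
      [],
      [],
      [],
      [],
      [],
      []]]

theorem ce3_ck : ce3.ck bs 12 3 = true := by decide +kernel

/-- exactness on the level `0` -/
def ex0 : TowerCk.EC where
  den := 1
  F := [[[],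
      [],
      [(24, 1)],
      [(12, -1)]],
    [[],
      [],
      [],
      [(0, 1)]],
    []]
  W := [[],
    [],
    []]

theorem ex0_ck : ex0.ck bs 12 0 = true := by decide +kernel

/-- exactness on the level `1` -/
def ex1 : TowerCk.EC where
  den := 1
  F := [[[],
      [],
      [],
      [],
      [],
      [(13, -1)],
      [(26, 1)],
      [(14, -1)],
      [(15, -1)]],
    [[],
      [],
      [],
      [],
      [(25, -1)],
      [(14, -1), (27, -1)],
      [],
      [(2, 1)],
      [(3, 1)]],
    []]
  W := [[[],
      [(0, 1)]],
    [],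
    []]

theorem ex1_ck : ex1.ck bs 12 1 = true := by decide +kernel

/-- all certificates -/
theorem cert {k : Type*} [Field k] [CharZero k] (κ : ℕ) (hκ : 1 ≤ κ) :
    Cert (fun x : Fin 12 => bs.w x) (Mt k 12 (nth [] bs.pw 1)) (XX k bs 12) κ := by
  have hB : bs.ckPow 12 = true := by
    have h := bs_ck
    simp only [Base.ck, Bool.and_eq_true] at h
    exact h.1.1
  rcases Nat.lt_or_ge 3 κ with h | h
  · exact cert_large (L := 3) (by decide) h
  · interval_cases κ
    · exact cert_of_ck bs (by norm_num) hB ce1 ce1_ck
    · exact cert_of_ck bs (by norm_num) hB ce2 ce2_ck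
    · exact cert_of_ck bs (by norm_num) hB ce3 ce3_ck

/-- exactness of the base point -/
theorem ex {k : Type*} [Field k] [CharZero k] (a : ℕ) (ha : a + 2 ≤ 3) :
    EXr (fun x : Fin 12 => bs.w x) (XX k bs 12) a := by
  have h : a < 2 := by omega
  interval_cases a
  · exact TowerCk.exr_of_ck bs (by norm_num) ex0 ex0_ck
  · exact TowerCk.exr_of_ck bs (by norm_num) ex1 ex1_ck

/-- **Levels of sizes `1, 3, 5, 3`.** -/
theorem cl {k : Type*} [Field k] [CharZero k] {ι : Type*} [Fintype ι] [DecidableEq ι] (w : ι → ℕ)
    (hle : ∀ x, w x ≤ 3) (hn : ∀ a : Fin 4, Fintype.card {x // w x = (a : ℕ)} = ![1, 3, 5, 3] a)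
    {T : Fin 3 → Matrix ι ι k} (hT : ∀ i j, T i * T j = T j * T i)
    (hlow : ∀ i x y, w x ≤ w y → T i x y = 0) (eT : ∀ a, a + 2 ≤ 3 → EXr w T a) : Cl T := by
  refine TowerCk.cl_tower_ck (by norm_num) bs_ck cert 3 (by decide) ex w hle ?_ hT hlow eT
  intro a ha
  have h : ∀ a : Fin 4, Fintype.card {x : Fin 12 // bs.w x = (a : ℕ)} = ![1, 3, 5, 3] a := by decide
  exact (hn ⟨a, by omega⟩).trans (h ⟨a, by omega⟩).symm

end Pool.Agent.Lib.D13.R1353
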