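import Pool.Agent.Lib.D13.Refl

/-!
# MP_5dcbc3_ag: density certificates, h = (2,4,4,2) (type 4422, conic), d = 12: `x, y, z = t, -t ^ 3 - t ^ 9, t ^ 4 + t ^ 10`
-/

namespace Pool.Agent.Lib.D13.R2442b

open Refl

/-- the base point -/
def bs : Base where
  lev := [0, 0, 1, 1, 1, 1, 2, 2, 2, 2, 3, 3]
  pw := [[[(0, 1)], [(1, 1)], [(2, 1)], [(3, 1)], [(4, 1)], [(5, 1)], [(6, 1)], [(7, 1)], [(8, 1)],
      [(9, 1)], [(10, 1)], [(11, 1)]],
    [[], [(0, 1)], [(1, 1)], [(9, 1)], [(3, 1)], [(4, 1)], [(2, 1), (9, -1)], [(5, 1), (11,
      1)], [(7, 1)], [(8, 1)], [(6, 1)], [(10, 1)]],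
    [[], [], [(0, 1)], [(8, 1)], [(9, 1)], [(3, 1)], [(1, 1), (8, -1)], [(4, 1), (10, 1)], [(5,
      1), (11, 1)], [(7, 1)], [(2, 1), (9, -1)], [(6, 1)]],
    [[], [], [], [(7, 1)], [(8, 1)], [(9, 1)], [(0, 1), (7, -1)], [(3, 1), (6, 1)], [(4, 1),
      (10, 1)], [(5, 1), (11, 1)], [(1, 1), (8, -1)], [(2, 1), (9, -1)]],
    [[], [], [], [(5, 1), (11, 1)], [(7, 1)], [(8, 1)], [(5, -1), (11, -1)], [(2, 1)], [(3, 1),
      (6, 1)], [(4, 1), (10, 1)], [(0, 1), (7, -1)], [(1, 1), (8, -1)]],
    [[], [], [], [(4, 1), (10, 1)], [(5, 1), (11, 1)], [(7, 1)], [(4, -1), (10, -1)], [(1, 1)],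
      [(2, 1)], [(3, 1), (6, 1)], [(5, -1), (11, -1)], [(0, 1), (7, -1)]],
    [[], [], [], [(3, 1), (6, 1)], [(4, 1), (10, 1)], [(5, 1), (11, 1)], [(3, -1), (6, -1)],
      [(0, 1)], [(1, 1)], [(2, 1)], [(4, -1), (10, -1)], [(5, -1), (11, -1)]],
    [[], [], [], [(2, 1)], [(3, 1), (6, 1)], [(4, 1), (10, 1)], [(2, -1)], [], [(0, 1)], [(1,
      1)], [(3, -1), (6, -1)], [(4, -1), (10, -1)]],
    [[], [], [], [(1, 1)], [(2, 1)], [(3, 1), (6, 1)], [(1, -1)], [], [], [(0, 1)], [(2, -1)],
      [(3, -1), (6, -1)]],
    [[], [], [], [(0, 1)], [(1, 1)], [(2, 1)], [(0, -1)], [], [], [], [(1, -1)], [(2, -1)]],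
    [[], [], [], [], [(0, 1)], [(1, 1)], [], [], [], [], [(0, -1)], [(1, -1)]],
    [[], [], [], [], [], [(0, 1)], [], [], [], [], [], [(0, -1)]]]
  xc := [[(1, 1)], [(3, -1), (9, -1)], [(4, 1), (10, 1)]]
  X := [[[], [(0, 1)], [(1, 1)], [(9, 1)], [(3, 1)], [(4, 1)], [(2, 1), (9, -1)], [(5, 1), (11,
      1)], [(7, 1)], [(8, 1)], [(6, 1)], [(10, 1)]],
    [[], [], [], [(0, -1), (7, -1)], [(1, -1), (8, -1)], [(2, -1), (9, -1)], [(7, 1)], [(3,
      -1), (6, -1)], [(4, -1), (10, -1)], [(5, -1), (11, -1)], [(8, 1)], [(9, 1)]],
    [[], [], [], [(5, 1), (11, 1)], [(0, 1), (7, 1)], [(1, 1), (8, 1)], [(5, -1), (11, -1)],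
      [(2, 1)], [(3, 1), (6, 1)], [(4, 1), (10, 1)], [(7, -1)], [(8, -1)]]]

theorem bs_ck : bs.ck 12 = true := by decide +kernel

/-- certificate -/
def ce1 : Cer where
  den := 3
  N := [[[(96, -3), (136, -3), (257, 3), (336, 3), (349, -3), (400, 3)],
      [(84, 3), (124, 3), (245, -3), (324, -2), (337, 3), (360, 1), (388, -2), (429, -1)],
      [],
      [],
      [],
      [],
      [],
      [],
      [],
      [],
      [],
      []],
    [[(24, 12), (37, 6), (73, 6), (101, -3), (205, -6), (243, 3), (256, 3), (277, -6), (348,
      -9), (386, 6), (399, 3), (420, -9)],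
      [],
      [],
      [],
      [],
      [],
      [],
      [],
      [],
      [],
      [],
      []],
    [[(36, 6), (72, 6), (113, 9), (204, 3), (242, -6), (255, 3), (276, 3), (385, 6), (398, -6)],
      [(24, 9), (37, 6), (73, 6), (101, -3), (205, -6), (243, 3), (256, 3), (277, -6), (348, -9),
      (386, 6), (399, 3), (420, -9)],
      [(123, 3), (136, -3), (180, 3), (193, -3), (257, 6), (272, -3), (336, 3), (349, -6), (374,
      3), (387, -3), (400, 6), (415, -3), (421, -3)],
      [(168, 3)],
      [(312, -2), (376, 1), (417, -1)],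
      [(77, 2), (112, 1), (127, -1), (219, 1), (241, -1), (254, 2), (362, -2), (377, 1), (397,
      -1), (414, 1)],
      [],
      [],
      [],
      [],
      [],
      []],
    [[(48, 3), (77, 1), (112, -4), (127, 4), (133, 3), (219, -1), (241, 4), (254, -2), (268, 3),
      (362, 2), (377, -1), (397, 1), (414, -1)],
      [(49, 3), (87, -3), (113, -9), (134, 3), (141, 3), (242, 6), (255, -6), (398, 3), (412,
      3)],
      [(24, 3), (101, -3), (108, -3), (122, -3), (129, 3), (192, -3), (205, -3), (221, -3), (256,
      3), (277, -6), (348, -6), (386, 3), (399, 3), (420, -6)],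
      [(180, 3), (193, -3), (257, 6), (336, 3), (349, -9), (400, 6), (421, -6)],
      [(124, 3), (181, 3), (245, -3), (252, -3), (324, -2), (337, 3), (360, 1), (388, -2), (429,
      -1)],
      [(85, 3), (98, 3), (139, 3), (312, 1), (325, -3), (376, 1), (417, -1), (426, -3)],
      [],
      [],
      [],
      [],
      [],
      []],
    [[(60, 3), (76, -3), (85, 6), (98, 6), (111, 3), (132, 3), (139, 3), (169, -3), (233, 3),
      (312, -1), (325, -3), (376, 5), (417, -2), (423, 3), (426, -6)],
      [],
      [],
      [(101, -3), (129, 3), (221, -3), (243, -3)],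
      [(257, 3), (349, -3), (400, 3), (421, -3)],
      [(124, 6), (181, 3), (245, -6), (252, -3), (324, -1), (337, 3), (360, 2), (388, -4), (429,
      -2)],
      [],
      [],
      [],
      [],
      [],
      []],
    [[],
      [(76, -3), (85, 6), (98, 6), (111, 3), (139, 3), (169, -3), (233, 3), (312, -1), (325, -3),
      (376, 5), (417, -2), (423, 3), (426, -6)],
      [(77, -1), (112, 1), (127, -4), (219, 1), (241, -1), (254, -1), (268, -3), (362, -2), (377,
      1), (397, -1), (414, 1)],
      [],
      [(24, 3), (37, 3), (73, 3), (101, -3), (348, -3), (386, 3), (420, -3)],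
      [],
      [],
      [],
      [],
      [],
      [],
      []],
    [[(48, -3), (77, -2), (112, 11), (127, -8), (133, -3), (219, 2), (241, -8), (254, 4), (268,
      -6), (362, -4), (377, 2), (384, 3), (397, -5), (414, 2)],
      [(36, 3), (49, -3), (72, 3), (87, 3), (113, 18), (134, -3), (141, -3), (204, 3), (242,
      -12), (255, 9), (276, 3), (385, 6), (398, -9), (412, -3)],
      [(24, 6), (37, 3), (73, 3), (108, 3), (122, 3), (129, -3), (192, 3), (205, -3), (221, 3),
      (243, 3), (348, -3), (386, 3), (420, -3)],
      [(123, 3), (136, -3), (349, 3), (421, 3)],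
      [(124, -3), (181, -3), (245, 3), (252, 3), (337, -3), (360, -3), (388, 3)],
      [(85, -3), (98, -3), (139, -3), (169, 3), (233, -3), (325, 3), (376, -3), (426, 3)],
      [(25, -3), (126, 3), (136, -3), (349, 3), (374, -3), (415, 3), (421, 3)],
      [(77, -1), (112, 4), (127, -1), (219, 1), (241, -1), (254, 2), (362, -2), (377, 1), (397,
      -1), (414, 1)],
      [(113, 6), (242, -3), (255, 3), (363, -3), (398, -3)],
      [(24, 6), (37, 3), (73, 3), (205, -3), (221, 3), (243, 3), (256, 3), (277, -3), (348, -6),
      (386, 3), (399, 3), (420, -6)],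
      [],
      []],
    [[(25, 6), (74, -3), (96, 3), (123, 6), (126, -3), (136, 3), (180, 6), (193, -9), (257, 15),
      (272, -6), (278, -3), (336, 6), (349, -27), (374, 9), (387, -6), (400, 15), (415, -9),
      (421, -21)],
      [(97, 3), (124, -3), (181, -3), (245, 3), (279, -3), (337, -3), (388, 3), (422, -3)],
      [(76, -3), (85, 3), (98, 6), (111, 3), (139, 3), (169, -3), (233, 3), (312, -1), (325, -3),
      (376, 5), (417, -2), (423, 3), (426, -6)],
      [(127, -3), (219, 3), (268, -3)],
      [(36, 3), (72, 3), (87, -3), (113, 3), (204, 3), (242, -3), (276, 3), (385, 3), (398, -3)],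
      [],
      [(77, -1), (112, 1), (127, -1), (219, 1), (241, -1), (254, -1), (268, -3), (362, 1), (377,
      1), (397, -1), (414, -2)],
      [(123, 3), (136, -3), (180, 3), (193, -3), (257, 6), (272, -3), (336, 3), (349, -6), (387,
      -3), (400, 6), (415, -3), (421, -3)],
      [(232, 3), (324, -2), (360, -2), (388, 1), (429, -1)],
      [(312, -1), (376, -1), (417, -2)],
      [],
      []],
    [[(24, -9), (37, -3), (73, -6), (101, -3), (108, -6), (122, -3), (129, 9), (192, -9), (205,
      3), (221, -9), (243, -6), (256, 3), (277, -6), (386, -3), (399, 3)],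
      [(25, 6), (74, -3), (123, 6), (126, -3), (180, 6), (193, -9), (257, 15), (272, -6), (278,
      -3), (336, 6), (349, -24), (374, 9), (387, -6), (400, 15), (415, -9), (421, -18)],
      [(124, -3), (181, -3), (245, 3), (279, -3), (337, -3), (388, 3), (422, -3)],
      [(76, -3), (85, 3), (98, 3), (111, 3), (139, 3), (169, -3), (233, 3), (312, -2), (325, -3),
      (376, 4), (417, -1), (426, -3)],
      [],
      [],
      [(76, -3), (85, 3), (98, 3), (111, 3), (139, 3), (169, -3), (233, 3), (312, -1), (325, -3),
      (376, 5), (417, -2), (423, 3), (426, -6)],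
      [(101, -3)],
      [(123, 3), (136, -3), (180, 3), (193, -3), (257, 6), (336, 3), (349, -6), (387, -3), (400,
      6), (421, -3)],
      [(324, -1), (360, -1), (388, -1), (429, -2)],
      [],
      []],
    [[(36, 3), (49, 3), (87, -6), (113, -18), (134, 6), (141, 6), (242, 12), (255, -12), (398,
      6), (412, 6)],
      [(24, -3), (73, -3), (101, -3), (108, -6), (122, -3), (129, 6), (192, -6), (221, -6), (243,
      -3), (256, 3), (277, -6), (348, -3), (399, 3), (420, -3)],
      [(25, 6), (74, -3), (123, 6), (126, -3), (180, 6), (193, -6), (257, 12), (272, -6), (336,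
      6), (349, -18), (374, 9), (387, -6), (400, 12), (415, -9), (421, -12)],
      [],
      [(76, -3), (85, 3), (98, 3), (139, 3), (169, -3), (233, 3), (312, -2), (325, -3), (376, 4),
      (417, -1), (426, -3)],
      [(112, -3)],
      [(245, 3), (401, 3), (429, 3)],
      [(113, -3)],
      [(24, -3), (101, -3), (205, 3), (243, -3), (277, 3), (348, 3), (399, -3), (420, 3)],
      [(257, 3), (349, -3), (421, -3)],
      [],
      []],
    [[],
      [(77, -1), (112, 4), (127, -4), (219, 1), (241, -4), (254, 2), (268, -3), (362, -2), (377,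
      1), (397, -1), (414, 1)],
      [(36, 3), (72, 3), (113, 6), (204, 3), (242, -6), (255, 3), (276, 3), (385, 3), (398, -3)],
      [(24, 6), (37, 3), (73, 3), (129, -3), (205, -3), (221, 3), (243, 3), (256, 3), (277, -3),
      (348, -6), (386, 3), (399, 3), (420, -6)],
      [],
      [(124, -6), (181, -3), (245, 3), (252, 3), (337, -3), (360, -3), (388, 3)],
      [],
      [],
      [(77, -1), (112, 4), (127, -4), (219, 1), (241, -1), (254, 2), (362, -2), (377, 1), (397,
      -1), (414, 1)],
      [(87, 3), (113, 6), (242, -3), (255, 3), (398, -3), (412, -3)],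
      [(123, 3), (136, -3), (180, 3), (193, -3), (257, 6), (272, -3), (336, 3), (349, -6), (387,
      -3), (400, 6), (421, -3)],
      [(124, -6), (181, -3), (232, 3), (245, 3), (252, 3), (324, -1), (337, -3), (360, -4), (388,
      5), (416, 3), (429, -2)]],
    [[(84, 3), (97, 3), (124, -3), (181, -3), (245, 3), (279, -3), (337, -3), (388, 3), (422,
      -3)],
      [],
      [],
      [(36, 3), (72, 3), (113, 3), (204, 3), (242, -3), (276, 3), (385, 3), (398, -3)],
      [],
      [(349, -3), (421, -3)],
      [(36, 3), (72, 3), (87, -3), (113, -3), (141, 3), (204, 3), (255, -3), (276, 3), (385, 3),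
      (412, 3)],
      [(84, 3), (97, 3), (124, -3), (181, -3), (245, 3), (252, 3), (337, -3), (388, 3), (422,
      -3)],
      [(139, -3)],
      [(77, -1), (112, 7), (127, -4), (219, 1), (241, -1), (254, 2), (268, -3), (281, 3), (362,
      -2), (377, 1), (397, -1), (414, 1)],
      [(24, -6), (37, -3), (73, -3), (108, -3), (129, 3), (138, -3), (192, -3), (205, 3), (221,
      -3), (243, -3), (348, 3), (386, -3), (420, 3)],
      [(257, 3), (285, -3), (349, -6), (421, -6)]]]
  A := [[[(25, 3), (123, 3), (136, -3), (180, 3), (193, -3), (257, 6), (272, -3), (336, 3), (349,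
      -6), (374, 3), (387, -3), (400, 6), (415, -3), (421, -3)],
      [],
      [],
      [],
      [],
      [],
      [(136, -3), (349, 3), (421, 3)],
      [(24, 6), (37, 3), (73, 3), (108, 3), (129, -3), (192, 3), (205, -3), (221, 3), (243, 3),
      (348, -3), (386, 3), (420, -3)],
      [(87, 3), (113, 9), (134, -3), (141, -3), (242, -6), (255, 6), (398, -3), (412, -3)],
      [(77, -1), (112, 4), (127, -4), (133, -3), (219, 1), (241, -4), (254, 2), (268, -3), (362,
      -2), (377, 1), (397, -1), (414, 1)],
      [(132, -3)]],
    [[(169, 3), (312, 2), (376, -1), (417, 1)],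
      [],
      [],
      [(24, 6), (37, 3), (73, 3), (205, -3), (243, 3), (256, 3), (277, -3), (348, -6), (386, 3),
      (399, 3), (420, -6)],
      [(36, 3), (72, 3), (113, 6), (204, 3), (242, -3), (255, 3), (276, 3), (385, 3), (398, -3)],
      [(77, -1), (112, 4), (127, -4), (219, 1), (241, -1), (254, 2), (268, -3), (362, -2), (377,
      1), (397, -1), (414, 1)],
      [(76, -3), (85, 3), (98, 3), (111, 3), (139, 3), (233, 3), (270, -3), (312, 1), (325, -3),
      (376, 4), (417, -1), (423, 3), (426, -6)],
      [(84, 3), (97, 3), (124, -3), (181, -3), (245, 3), (252, 3), (279, -3), (337, -3), (388,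
      3), (422, -3)],
      [(25, 6), (74, -3), (123, 6), (126, -3), (180, 6), (193, -6), (257, 12), (272, -6), (278,
      -3), (336, 6), (349, -21), (374, 9), (387, -6), (400, 12), (415, -9), (421, -15)],
      [(24, 3), (37, 3), (101, -3), (108, -6), (122, -3), (129, 6), (192, -6), (205, -3), (221,
      -6), (256, 6), (277, -12), (348, -9), (386, 3), (399, 6), (420, -9)],
      [(36, 9), (49, 3), (72, 6), (87, -6), (113, -9), (134, 6), (141, 6), (204, 6), (242, 6),
      (255, -9), (276, 3), (385, 6), (412, 6)]],
    [[(77, -1), (112, -2), (127, -1), (219, 1), (241, 2), (254, -1), (362, 1), (377, 1), (397,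
      2), (414, 1)],
      [(312, 1), (376, 1), (417, -1)],
      [(324, 1), (360, 1), (388, 1), (429, -1)],
      [],
      [(24, -9), (37, -3), (73, -3), (205, 6), (243, -3), (256, -3), (277, 6), (348, 9), (386,
      -3), (399, -3), (420, 9)],
      [(36, -3), (72, -3), (113, -9), (204, -3), (242, 6), (255, -3), (276, -3), (385, -3), (398,
      6)],
      [(77, 1), (112, -7), (127, 4), (219, -1), (241, 4), (254, -2), (268, 3), (362, 2), (377,
      -1), (397, 4), (414, -1)],
      [(76, 3), (85, -3), (98, -3), (111, -3), (169, 3), (233, -3), (312, 2), (325, 3), (376,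
      -4), (417, 1), (423, -3), (426, 3)],
      [(84, -3), (97, -3), (124, 6), (181, 6), (245, -6), (252, -3), (279, 3), (324, 1), (337,
      6), (360, 1), (388, -5), (422, 3), (429, -1)],
      [(25, -6), (74, 3), (123, -6), (126, 3), (180, -6), (193, 9), (257, -15), (272, 6), (278,
      3), (336, -6), (349, 27), (374, -9), (387, 6), (400, -15), (415, 9), (421, 18)],
      [(73, 3), (101, 3), (108, 6), (122, 3), (129, -9), (192, 9), (205, 3), (221, 9), (243, 3),
      (256, -6), (277, 12), (348, 9), (399, -6), (420, 6)]]]
  W := [[[],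
      [],
      [],
      [],
      [],
      [[],
       [(109, 3)]],
      [[],
       [],
       [],
       [(72, -3), (264, -3), (385, 3)]],
      [[],
       [],
       [(266, 3)],
       [],
       [(228, 3), (241, 3)],
       [(229, 3)]],
      [[],
       [],
       [],
       [(123, -3)],
       [(124, 3), (137, 3), (240, 3), (267, 3), (280, 3), (360, -3), (422, 3)]],
      [[],
       [(133, -3), (397, -3)],
       [(121, -3), (134, -3), (277, -3), (385, -3), (425, 3)]],
      [[(96, 3), (136, 3), (279, 3), (408, -3), (421, 3)],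
       [(97, 3), (137, 3), (280, 3), (409, -3), (422, 3)],
       [],
       [],
       [],
       [(265, 3), (278, 3), (373, 3)],
       [],
       [],
       [(267, 3)]],
      [[],
       [],
       [],
       [(132, -3), (396, -3)],
       [],
       [(264, 3), (277, 3)],
       [],
       [],
       [(136, -3)]]],
    [[],
      [],
      [],
      [],
      [],
      [],
      [[(120, 3), (397, -3)],
       [(264, 3), (385, -3)],
       [(122, 3), (265, 3), (278, 3), (373, 3)],
       [],
       [(124, 3), (137, 3), (267, 3), (280, 3), (422, 3)]],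
      [[(123, -3), (136, -3), (279, -3), (408, 3), (421, -3)],
       [(124, 3), (240, 3), (267, 3), (360, -3), (409, 3)],
       [(125, 3), (228, -3), (268, 3), (361, -3), (410, 3)],
       [(411, 3)]],
      [[(73, -3), (108, 3), (122, -3), (265, -3), (278, -3), (373, -3)],
       [],
       [],
       [],
       [(120, 3), (276, 3), (384, 3), (397, -3)]],
      [[],
       [(73, -3), (122, -3), (265, -3), (278, -3), (373, -3)]],
      [[(396, -3)],
       [(397, -3)],
       [(121, -3), (264, 3), (385, -3)],
       [(73, 3), (108, -3), (122, 3), (135, 3), (216, 3), (265, 3), (278, 3), (420, 3)],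
       [],
       [(124, -3), (240, -3), (267, -3), (360, 3)],
       [],
       [(125, -3)],
       [],
       [(412, 3)]],
      [[],
       [],
       [],
       [],
       [(73, 3), (108, -3), (122, 3), (216, 3), (265, 3), (278, 3), (420, 3)],
       [],
       [(425, -3)],
       [(124, -3), (137, -3), (240, -3), (267, -3), (360, 3)],
       [(132, 3), (228, -3), (268, 3), (281, 3), (361, -3), (396, 3), (423, 3)]]],
    [[],
      [],
      [[],
       [(109, -3), (217, 3)]],
      [],
      [],
      [],
      [[],
       [(373, -3)],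
       [],
       [],
       [(241, -3), (361, 3)],
       [(229, -3), (269, 3)]],
      [[(124, -3), (137, -3), (267, -3), (280, -3), (360, 3), (422, -3)],
       [(241, 3)],
       [],
       [(372, 3)]],
      [[],
       [],
       [],
       [],
       [],
       [(73, -3), (108, 3), (122, -3), (135, -3), (216, -3), (265, -3), (278, -3), (413, 3), (420,
      -3)]],
      [[(216, -3), (373, 3)]],
      [[(276, 3)],
       [(264, -3)],
       [(278, 3)],
       [(123, 3), (136, 3), (279, 3), (421, 3)],
       [],
       [(228, 3), (268, -3), (361, 3)]],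
      [[],
       [],
       [],
       [],
       [(421, 3)],
       [(124, 3), (137, 3), (240, 3), (267, 3), (360, -3), (422, 3)],
       [],
       [(132, -3), (228, 3), (268, -3), (281, -3), (361, 3), (396, -3)],
       [(120, -3), (276, -3), (384, -3), (397, 3), (424, 3)]]]]

theorem ce1_ck : ce1.ck bs 12 1 = true := by decide +kernel

/-- certificate -/
def ce2 : Cer where
  den := 2
  N := [[],
    [],
    [[(72, 2)],
      [(73, 2)],
      [],
      [],
      [],
      [],
      [],
      [],
      [],
      [],
      [],
      []],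
    [[],
      [(229, -2)],
      [],
      [],
      [],
      [],
      [],
      [],
      [],
      [],
      [],
      []],
    [],
    [],
    [[(384, 2)],
      [],
      [],
      [(123, 2)],
      [(124, 2)],
      [],
      [],
      [],
      [],
      [],
      [],
      []],
    [[(109, -2), (123, -2), (136, -2), (216, 2), (278, -2)],
      [(409, -2)],
      [(85, -2), (125, -2), (253, -4), (267, -2), (280, -2), (423, -2)],
      [(228, 2), (384, 2)],
      [],
      [(73, 1), (108, 1), (122, -1), (264, -1), (373, -1), (413, -1)],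
      [],
      [],
      [],
      [],
      [],
      []],
    [[(108, 2)],
      [],
      [(137, 2), (422, -2)],
      [(253, -2), (280, -2), (423, -2)],
      [],
      [(72, -2), (229, -2), (372, 2), (385, -2)],
      [],
      [],
      [],
      [],
      [],
      []],
    [[],
      [],
      [(109, -2)],
      [(84, 1), (137, 1), (252, 1), (279, 1), (409, -1)],
      [],
      [(241, -2), (397, -2)],
      [],
      [],
      [],
      [],
      [],
      []],
    [[(396, 2)],
      [(241, -2)],
      [(121, -2)],
      [(108, -2), (264, 2)],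
      [],
      [],
      [(122, -2)],
      [(253, 4), (267, 2), (280, 2), (423, 2)],
      [(228, -2), (384, -2), (411, -2)],
      [(72, 2), (229, 2), (269, 2), (372, -2), (385, 2)],
      [],
      []],
    [[(84, 2), (409, -2)],
      [],
      [(120, 2), (133, -2), (241, -4), (384, -2)],
      [(72, 4), (121, -2), (134, -2), (229, 2), (372, -4), (385, 2), (425, -2)],
      [(108, -2), (135, -2), (264, 2)],
      [(136, -2)],
      [(121, -2), (134, -2)],
      [(137, -2)],
      [(253, 2), (280, 2)],
      [(241, 2), (281, 2), (397, 2)],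
      [],
      []]]
  A := [[[],
      [],
      [],
      [],
      [(125, -2), (253, -4), (267, -2), (280, -2), (423, -2)],
      [],
      [],
      [],
      [],
      [(120, -2), (241, 2), (384, 2)],
      [(125, -2), (132, -2), (253, -4), (267, -2), (280, -2), (396, 2), (423, -2)]],
    [[],
      [(84, 1), (137, -3), (252, 1), (266, 2), (279, -1), (409, -1), (422, 2)],
      [(109, 2), (136, 2), (278, 2)],
      [],
      [],
      [],
      [(253, 2)],
      [(84, 1), (137, -1), (252, 1), (279, -1), (409, -1)],
      [],
      [],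
      [(72, 4), (121, -2), (134, -2), (229, 2), (276, -2), (372, -4), (385, 2), (425, -2)]],
    [[],
      [(361, 2)],
      [],
      [],
      [(73, -1), (108, 1), (122, -1), (264, -1), (373, 1), (413, -1)],
      [(72, -2), (372, 2)],
      [],
      [],
      [],
      [(136, 2), (421, -2)],
      [(73, -1), (108, 1), (122, -1), (135, 2), (264, -3), (373, 1), (413, -1), (420, -2)]]]
  W := [[[],
      [],
      [],
      [],
      [],
      [],
      [],
      [],
      [[(120, -2), (133, -2)],
       [(277, 2)]],
      [],
      [],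
      []],
    [[],
      [],
      [],
      [],
      [],
      [],
      [[],
       [(121, 2), (277, 2)]],
      [],
      [[(420, 2)]],
      [],
      [[],
       [(133, 2)],
       [],
       [],
       [(408, 2)]],
      [[],
       [(132, -2)]]],
    [[],
      [],
      [],
      [],
      [],
      [],
      [[(264, 2)]],
      [],
      [],
      [],
      [[(120, 2), (133, 2), (276, 2)],
       [],
       [(265, -2)],
       [],
       [(409, 2)]],
      [[],
       [],
       [],
       [],
       [(421, 2)]]]]

theorem ce2_ck : ce2.ck bs 12 2 = true := by decide +kernel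

/-- certificate -/
def ce3 : Cer where
  den := 1
  N := [[],
    [],
    [],
    [],
    [],
    [],
    [],
    [[(408, -1), (421, 1)],
      [(409, -1)],
      [],
      [],
      [],
      [],
      [],
      [],
      [],
      [],
      [],
      []],
    [],
    [[],
      [(277, 1)],
      [],
      [],
      [],
      [],
      [],
      [],
      [],
      [],
      [],
      []],
    [[],
      [],
      [],
      [(264, 1)],
      [],
      [],
      [],
      [],
      [],
      [],
      [],
      []],
    [[],
      [(132, -1)],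
      [(120, 1), (133, -1)],
      [(276, 1)],
      [],
      [],
      [],
      [],
      [],
      [],
      [],
      []]]
  A := [[[],
      [],
      [(121, 1)],
      [],
      [],
      [],
      [],
      [],
      [],
      [(120, -1)],
      []],
    [[],
      [],
      [],
      [],
      [],
      [],
      [],
      [],
      [(265, -1)],
      [],
      []],
    [[],
      [],
      [],
      [(421, 1)],
      [],
      [],
      [],
      [],
      [],
      [],
      [(420, -1)]]]
  W := [[[],
      [],
      [],
      [],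
      [],
      [],
      [],
      [],
      [],
      [],
      [],
      []],
    [[],
      [],
      [],
      [],
      [],
      [],
      [],
      [],
      [],
      [],
      [],
      []],
    [[],
      [],
      [],
      [],
      [],
      [],
      [],
      [],
      [],
      [],
      [],
      []]]

theorem ce3_ck : ce3.ck bs 12 3 = true := by decide +kernel

/-- all certificates -/
theorem cert {k : Type*} [Field k] [CharZero k] (κ : ℕ) (hκ : 1 ≤ κ) :
    Cert (fun x : Fin 12 => bs.w x) (Mt k 12 (nth [] bs.pw 1)) (XX k bs 12) κ := by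
  have hB : bs.ckPow 12 = true := by
    have h := bs_ck
    simp only [Base.ck, Bool.and_eq_true] at h
    exact h.1.1
  rcases Nat.lt_or_ge 3 κ with h | h
  · exact cert_large (L := 3) (by decide) h
  · interval_cases κ
    · exact cert_of_ck bs (by norm_num) hB ce1 ce1_ck
    · exact cert_of_ck bs (by norm_num) hB ce2 ce2_ck
    · exact cert_of_ck bs (by norm_num) hB ce3 ce3_ck

end Pool.Agent.Lib.D13.R2442b
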