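import Pool.Agent.Lib.D7.Api

/-!
# MP_5dcbc3_ag: type `(5, 3, 2, 1, 1)`: matrices and relations

Basis `v0, .., v4, w0, w1, w2, f0, f1, e0, e1` (`Fin 12`).
-/

set_option autoImplicit false

namespace Pool.Agent.Lib.D13.R53211

open Matrix Pool.Agent.Lib.Q5dc Pool.Agent.Lib.D7

/-- names of the coordinates of a matrix commuting with the Jordan matrix, modulo polynomials:
`v ↦ (al0 + al1 x + al2 x²) w + (a0 + a1 x) f + om`,
`w ↦ x² (be0 + be1 x + be2 x²) v + (p1 x + p2 x²) w + (q0 + q1 x) f + pi`,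
`f ↦ x³ (b0 + b1 x) v + x (r0 + r1 x) w + n x f + ka`,
`e ↦ th x⁴ v + et x² w + lam x f`. -/
inductive Co
  | al0 | al1 | al2 | a0 | a1 | om0 | om1
  | be0 | be1 | be2 | p1 | p2 | q0 | q1 | pi0 | pi1
  | b0 | b1 | r0 | r1 | n | ka0 | ka1
  | th0 | th1 | et0 | et1 | lam0 | lam1
  deriving DecidableEq

open Co

/-- all names -/
def Co.all : List Co :=
  [al0, al1, al2, a0, a1, om0, om1, be0, be1, be2, p1, p2, q0, q1, pi0, pi1, b0, b1, r0, r1, n,
    ka0, ka1, th0, th1, et0, et1, lam0, lam1]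

instance : Fintype Co := ⟨⟨Co.all, by decide⟩, fun x => by cases x <;> decide⟩

theorem card_Co : Fintype.card Co = 29 := rfl

variable {k : Type*} [Field k]

/-- the Jordan matrix of type `(5, 3, 2, 1, 1)` -/
def J (k : Type*) [Field k] : Matrix (Fin 12) (Fin 12) k :=
  !![0, 0, 0, 0, 0, 0, 0, 0, 0, 0, 0, 0;
     1, 0, 0, 0, 0, 0, 0, 0, 0, 0, 0, 0;
     0, 1, 0, 0, 0, 0, 0, 0, 0, 0, 0, 0;
     0, 0, 1, 0, 0, 0, 0, 0, 0, 0, 0, 0;
     0, 0, 0, 1, 0, 0, 0, 0, 0, 0, 0, 0;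
     0, 0, 0, 0, 0, 0, 0, 0, 0, 0, 0, 0;
     0, 0, 0, 0, 0, 1, 0, 0, 0, 0, 0, 0;
     0, 0, 0, 0, 0, 0, 1, 0, 0, 0, 0, 0;
     0, 0, 0, 0, 0, 0, 0, 0, 0, 0, 0, 0;
     0, 0, 0, 0, 0, 0, 0, 0, 1, 0, 0, 0;
     0, 0, 0, 0, 0, 0, 0, 0, 0, 0, 0, 0;
     0, 0, 0, 0, 0, 0, 0, 0, 0, 0, 0, 0]

/-- the matrix with given coordinates -/
def X (c : Co → k) : Matrix (Fin 12) (Fin 12) k :=
  !![0, 0, 0, 0, 0, 0, 0, 0, 0, 0, 0, 0;
     0, 0, 0, 0, 0, 0, 0, 0, 0, 0, 0, 0;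
     0, 0, 0, 0, 0, c be0, 0, 0, 0, 0, 0, 0;
     0, 0, 0, 0, 0, c be1, c be0, 0, c b0, 0, 0, 0;
     0, 0, 0, 0, 0, c be2, c be1, c be0, c b1, c b0, c th0, c th1;
     c al0, 0, 0, 0, 0, 0, 0, 0, 0, 0, 0, 0;
     c al1, c al0, 0, 0, 0, c p1, 0, 0, c r0, 0, 0, 0;
     c al2, c al1, c al0, 0, 0, c p2, c p1, 0, c r1, c r0, c et0, c et1;
     c a0, 0, 0, 0, 0, c q0, 0, 0, 0, 0, 0, 0;
     c a1, c a0, 0, 0, 0, c q1, c q0, 0, c n, 0, c lam0, c lam1;
     c om0, 0, 0, 0, 0, c pi0, 0, 0, c ka0, 0, 0, 0;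
     c om1, 0, 0, 0, 0, c pi1, 0, 0, c ka1, 0, 0, 0]

/-- the relations of a commuting pair -/
structure Rel (B C : Co → k) : Prop where
  VV1 : B be0 * C al0 = C be0 * B al0
  VV2 : B be0 * C al1 + B be1 * C al0 + B b0 * C a0 =
    C be0 * B al1 + C be1 * B al0 + C b0 * B a0
  VV3 : B be0 * C al2 + B be1 * C al1 + B be2 * C al0 + B b0 * C a1 + B b1 * C a0 +
    B th0 * C om0 + B th1 * C om1 =
    C be0 * B al2 + C be1 * B al1 + C be2 * B al0 + C b0 * B a1 + C b1 * B a0 +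
    C th0 * B om0 + C th1 * B om1
  VW1 : B p1 * C al0 + B r0 * C a0 = C p1 * B al0 + C r0 * B a0
  VW2 : B p1 * C al1 + B p2 * C al0 + B r0 * C a1 + B r1 * C a0 + B et0 * C om0 + B et1 * C om1 =
    C p1 * B al1 + C p2 * B al0 + C r0 * B a1 + C r1 * B a0 + C et0 * B om0 + C et1 * B om1
  VF1 : B q0 * C al0 = C q0 * B al0
  VF2 : B q0 * C al1 + B q1 * C al0 + B n * C a0 + B lam0 * C om0 + B lam1 * C om1 =
    C q0 * B al1 + C q1 * B al0 + C n * B a0 + C lam0 * B om0 + C lam1 * B om1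
  VP0 : B pi0 * C al0 + B ka0 * C a0 = C pi0 * B al0 + C ka0 * B a0
  VP1 : B pi1 * C al0 + B ka1 * C a0 = C pi1 * B al0 + C ka1 * B a0
  WV1 : B be0 * C p1 + B b0 * C q0 = C be0 * B p1 + C b0 * B q0
  WV2 : B be0 * C p2 + B be1 * C p1 + B b0 * C q1 + B b1 * C q0 + B th0 * C pi0 + B th1 * C pi1 =
    C be0 * B p2 + C be1 * B p1 + C b0 * B q1 + C b1 * B q0 + C th0 * B pi0 + C th1 * B pi1
  WW1 : B r0 * C q0 = C r0 * B q0
  WW2 : B al0 * C be0 + B r0 * C q1 + B r1 * C q0 + B et0 * C pi0 + B et1 * C pi1 =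
    C al0 * B be0 + C r0 * B q1 + C r1 * B q0 + C et0 * B pi0 + C et1 * B pi1
  WF : B q0 * C p1 + B n * C q0 + B lam0 * C pi0 + B lam1 * C pi1 =
    C q0 * B p1 + C n * B q0 + C lam0 * B pi0 + C lam1 * B pi1
  WP0 : B ka0 * C q0 = C ka0 * B q0
  WP1 : B ka1 * C q0 = C ka1 * B q0
  FV1 : B be0 * C r0 = C be0 * B r0
  FV2 : B be0 * C r1 + B be1 * C r0 + B b0 * C n + B th0 * C ka0 + B th1 * C ka1 =
    C be0 * B r1 + C be1 * B r0 + C b0 * B n + C th0 * B ka0 + C th1 * B ka1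
  FW : B p1 * C r0 + B r0 * C n + B et0 * C ka0 + B et1 * C ka1 =
    C p1 * B r0 + C r0 * B n + C et0 * B ka0 + C et1 * B ka1
  FF : B q0 * C r0 + B lam0 * C ka0 + B lam1 * C ka1 =
    C q0 * B r0 + C lam0 * B ka0 + C lam1 * B ka1
  PV0 : B be0 * C et0 + B b0 * C lam0 = C be0 * B et0 + C b0 * B lam0
  PV1 : B be0 * C et1 + B b0 * C lam1 = C be0 * B et1 + C b0 * B lam1
  PW0 : B r0 * C lam0 = C r0 * B lam0
  PW1 : B r0 * C lam1 = C r0 * B lam1

/-- `J` on vectors -/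
def actJ (m : Fin 12 → k) : Fin 12 → k :=
  ![0, m 0, m 1, m 2, m 3, 0, m 5, m 6, 0, m 8, 0, 0]

/-- `X c` on vectors -/
def act (c : Co → k) (m : Fin 12 → k) : Fin 12 → k :=
  ![0, 0, c be0 * m 5, c be1 * m 5 + c be0 * m 6 + c b0 * m 8,
    c be2 * m 5 + c be1 * m 6 + c be0 * m 7 + c b1 * m 8 + c b0 * m 9 + c th0 * m 10 +
      c th1 * m 11,
    c al0 * m 0, c al1 * m 0 + c al0 * m 1 + c p1 * m 5 + c r0 * m 8,
    c al2 * m 0 + c al1 * m 1 + c al0 * m 2 + c p2 * m 5 + c p1 * m 6 + c r1 * m 8 + c r0 * m 9 +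
      c et0 * m 10 + c et1 * m 11,
    c a0 * m 0 + c q0 * m 5,
    c a1 * m 0 + c a0 * m 1 + c q1 * m 5 + c q0 * m 6 + c n * m 8 + c lam0 * m 10 + c lam1 * m 11,
    c om0 * m 0 + c pi0 * m 5 + c ka0 * m 8, c om1 * m 0 + c pi1 * m 5 + c ka1 * m 8]

theorem J_mulVec (m : Fin 12 → k) : J k *ᵥ m = actJ m := by
  funext i
  fin_cases i <;> simp [J, actJ, Matrix.mulVec, dotProduct, Fin.sum_univ_succ]

theorem X_mulVec (c : Co → k) (m : Fin 12 → k) : X c *ᵥ m = act c m := by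
  funext i
  fin_cases i <;> simp [X, act, Matrix.mulVec, dotProduct, Fin.sum_univ_succ] <;> ring

theorem rel_of_act {B C : Co → k} (h : ∀ m, act B (act C m) = act C (act B m)) : Rel B C := by
  have H : ∀ (m : Fin 12 → k) (i : Fin 12), act B (act C m) i = act C (act B m) i :=
    fun m i => congrFun (h m) i
  have h0 := H ![1, 0, 0, 0, 0, 0, 0, 0, 0, 0, 0, 0]
  have h5 := H ![0, 0, 0, 0, 0, 1, 0, 0, 0, 0, 0, 0]
  have h8 := H ![0, 0, 0, 0, 0, 0, 0, 0, 1, 0, 0, 0]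
  have h10 := H ![0, 0, 0, 0, 0, 0, 0, 0, 0, 0, 1, 0]
  have h11 := H ![0, 0, 0, 0, 0, 0, 0, 0, 0, 0, 0, 1]
  have e1 := h0 2
  have e2 := h0 3
  have e3 := h0 4
  have e4 := h0 6
  have e5 := h0 7
  have e6 := h0 8
  have e7 := h0 9
  have e8 := h0 10
  have e8' := h0 11
  have e9 := h5 3
  have e10 := h5 4
  have e11 := h5 6
  have e12 := h5 7
  have e13 := h5 9
  have e14 := h5 10
  have e14' := h5 11
  have e15 := h8 3
  have e16 := h8 4
  have e17 := h8 7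
  have e18 := h8 9
  have e19 := h10 4
  have e20 := h10 7
  have e19' := h11 4
  have e20' := h11 7
  clear h0 h5 h8 h10 h11 H h
  simp [act] at e1 e2 e3 e4 e5 e6 e7 e8 e8' e9 e10 e11 e12 e13 e14 e14' e15 e16 e17 e18 e19 e20 e19' e20'
  constructor
  · linear_combination e1
  · linear_combination e2
  · linear_combination e3
  · linear_combination e4
  · linear_combination e5
  · linear_combination e6
  · linear_combination e7
  · linear_combination e8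
  · linear_combination e8'
  · linear_combination e9
  · linear_combination e10
  · linear_combination e11
  · linear_combination e12
  · linear_combination e13
  · linear_combination e14
  · linear_combination e14'
  · linear_combination e15
  · linear_combination e16
  · linear_combination e17
  · linear_combination e18
  · linear_combination e19
  · linear_combination e19'
  · linear_combination e20
  · linear_combination e20'

/-- commuting matrices satisfy the relations -/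
theorem rel_of_comm {B C : Co → k} (h : X B * X C = X C * X B) : Rel B C := by
  refine rel_of_act fun m => ?_
  rw [← X_mulVec, ← X_mulVec, ← X_mulVec, ← X_mulVec, mulVec_mulVec, mulVec_mulVec, h]

theorem J_comm (c : Co → k) : J k * X c = X c * J k := by
  have h : ∀ m, J k *ᵥ (X c *ᵥ m) = X c *ᵥ (J k *ᵥ m) := by
    intro m
    rw [X_mulVec, X_mulVec, J_mulVec, J_mulVec]
    funext i
    fin_cases i <;> simp [act, actJ]
  ext i j
  have h1 := congrFun (h (Pi.single j 1)) i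
  rw [mulVec_mulVec, mulVec_mulVec, mulVec_single_one, mulVec_single_one] at h1
  exact h1

end Pool.Agent.Lib.D13.R53211
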