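import Pool.Agent.Lib.D7.Api
import Mathlib.LinearAlgebra.Matrix.Kronecker

/-!
# MP_5dcbc3_ag: Jordan type (5, 5, 2): the matrices commuting with the Jordan matrix
-/

namespace Pool.Agent.Lib.D13

open Matrix Pool.Agent.Lib.Q5dc Pool.Agent.Lib.D7
open scoped Kronecker

namespace R552

variable {k : Type*} [Field k]

/-- the index type -/
abbrev Ix := (Fin 5 × Fin 2) ⊕ (Fin 2 × Unit)

/-- shift of length 5 -/
def S (k : Type*) [Field k] : Matrix (Fin 5) (Fin 5) k :=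
  !![0, 0, 0, 0, 0; 1, 0, 0, 0, 0; 0, 1, 0, 0, 0; 0, 0, 1, 0, 0; 0, 0, 0, 1, 0]

def S2 (k : Type*) [Field k] : Matrix (Fin 5) (Fin 5) k :=
  !![0, 0, 0, 0, 0; 0, 0, 0, 0, 0; 1, 0, 0, 0, 0; 0, 1, 0, 0, 0; 0, 0, 1, 0, 0]

def S3 (k : Type*) [Field k] : Matrix (Fin 5) (Fin 5) k :=
  !![0, 0, 0, 0, 0; 0, 0, 0, 0, 0; 0, 0, 0, 0, 0; 1, 0, 0, 0, 0; 0, 1, 0, 0, 0]

def S4 (k : Type*) [Field k] : Matrix (Fin 5) (Fin 5) k :=
  !![0, 0, 0, 0, 0; 0, 0, 0, 0, 0; 0, 0, 0, 0, 0; 0, 0, 0, 0, 0; 1, 0, 0, 0, 0]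

/-- shift of length 2 -/
def s (k : Type*) [Field k] : Matrix (Fin 2) (Fin 2) k := !![0, 0; 1, 0]

/-- `x^i e -> x^i p` -/
def Q (k : Type*) [Field k] : Matrix (Fin 2) (Fin 5) k := !![1, 0, 0, 0, 0; 0, 1, 0, 0, 0]

/-- `x^i e -> x^(i+1) p` -/
def Q1 (k : Type*) [Field k] : Matrix (Fin 2) (Fin 5) k := !![0, 0, 0, 0, 0; 1, 0, 0, 0, 0]

/-- `x^i p -> x^(i+3) e` -/
def P (k : Type*) [Field k] : Matrix (Fin 5) (Fin 2) k := !![0, 0; 0, 0; 0, 0; 1, 0; 0, 1]

/-- `x^i p -> x^(i+4) e` -/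
def P1 (k : Type*) [Field k] : Matrix (Fin 5) (Fin 2) k := !![0, 0; 0, 0; 0, 0; 0, 0; 1, 0]

/-- the parameters -/
structure Dt (k : Type*) where
  L : Matrix (Fin 2) (Fin 2) k
  N1 : Matrix (Fin 2) (Fin 2) k
  N2 : Matrix (Fin 2) (Fin 2) k
  N3 : Matrix (Fin 2) (Fin 2) k
  a : Matrix Unit (Fin 2) k
  a1 : Matrix Unit (Fin 2) k
  b : Matrix (Fin 2) Unit k
  b1 : Matrix (Fin 2) Unit k

/-- the matrix `e -> x L e + x^2 N1 e + x^3 N2 e + x^4 N3 e + (a + x a1)(e) p`,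
`p -> x^3 b + x^4 b1` -/
def Bm (D : Dt k) : Matrix Ix Ix k :=
  fromBlocks (S k ⊗ₖ D.L + S2 k ⊗ₖ D.N1 + S3 k ⊗ₖ D.N2 + S4 k ⊗ₖ D.N3)
    (P k ⊗ₖ D.b + P1 k ⊗ₖ D.b1) (Q k ⊗ₖ D.a + Q1 k ⊗ₖ D.a1) 0

/-- the Jordan matrix -/
def J (k : Type*) [Field k] : Matrix Ix Ix k :=
  fromBlocks (S k ⊗ₖ (1 : Matrix (Fin 2) (Fin 2) k)) 0 0 (s k ⊗ₖ (1 : Matrix Unit Unit k))

/-- the relations -/
structure Rel (D D' : Dt k) : Prop where
  r1 : D.L * D'.L = D'.L * D.L
  r2 : D.L * D'.N1 + D.N1 * D'.L + D.b * D'.a = D'.L * D.N1 + D'.N1 * D.L + D'.b * D.a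
  r3 : D.L * D'.N2 + D.N1 * D'.N1 + D.N2 * D'.L + D.b1 * D'.a + D.b * D'.a1 =
    D'.L * D.N2 + D'.N1 * D.N1 + D'.N2 * D.L + D'.b1 * D.a + D'.b * D.a1
  r4 : D.a * D'.L = D'.a * D.L
  r5 : D.L * D'.b = D'.L * D.b

section mul

theorem S_S : S k * S k = S2 k := by
  ext i j; fin_cases i <;> fin_cases j <;> simp [S, S2, Matrix.mul_apply, Fin.sum_univ_five]
theorem S_S2 : S k * S2 k = S3 k := by
  ext i j; fin_cases i <;> fin_cases j <;> simp [S, S2, S3, Matrix.mul_apply, Fin.sum_univ_five]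
theorem S2_S : S2 k * S k = S3 k := by
  ext i j; fin_cases i <;> fin_cases j <;> simp [S, S2, S3, Matrix.mul_apply, Fin.sum_univ_five]
theorem S_S3 : S k * S3 k = S4 k := by
  ext i j; fin_cases i <;> fin_cases j <;> simp [S, S4, S3, Matrix.mul_apply, Fin.sum_univ_five]
theorem S3_S : S3 k * S k = S4 k := by
  ext i j; fin_cases i <;> fin_cases j <;> simp [S, S4, S3, Matrix.mul_apply, Fin.sum_univ_five]
theorem S2_S2 : S2 k * S2 k = S4 k := by
  ext i j; fin_cases i <;> fin_cases j <;> simp [S2, S4, Matrix.mul_apply, Fin.sum_univ_five]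
theorem S_S4 : S k * S4 k = 0 := by
  ext i j; fin_cases i <;> fin_cases j <;> simp [S, S4, Matrix.mul_apply, Fin.sum_univ_five]
theorem S4_S : S4 k * S k = 0 := by
  ext i j; fin_cases i <;> fin_cases j <;> simp [S, S4, Matrix.mul_apply, Fin.sum_univ_five]
theorem S2_S3 : S2 k * S3 k = 0 := by
  ext i j; fin_cases i <;> fin_cases j <;> simp [S2, S3, Matrix.mul_apply, Fin.sum_univ_five]
theorem S3_S2 : S3 k * S2 k = 0 := by
  ext i j; fin_cases i <;> fin_cases j <;> simp [S2, S3, Matrix.mul_apply, Fin.sum_univ_five]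
theorem S2_S4 : S2 k * S4 k = 0 := by
  ext i j; fin_cases i <;> fin_cases j <;> simp [S2, S4, Matrix.mul_apply, Fin.sum_univ_five]
theorem S4_S2 : S4 k * S2 k = 0 := by
  ext i j; fin_cases i <;> fin_cases j <;> simp [S2, S4, Matrix.mul_apply, Fin.sum_univ_five]
theorem S3_S3 : S3 k * S3 k = 0 := by
  ext i j; fin_cases i <;> fin_cases j <;> simp [S3, Matrix.mul_apply, Fin.sum_univ_five]
theorem S3_S4 : S3 k * S4 k = 0 := by
  ext i j; fin_cases i <;> fin_cases j <;> simp [S3, S4, Matrix.mul_apply, Fin.sum_univ_five]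
theorem S4_S3 : S4 k * S3 k = 0 := by
  ext i j; fin_cases i <;> fin_cases j <;> simp [S3, S4, Matrix.mul_apply, Fin.sum_univ_five]
theorem S4_S4 : S4 k * S4 k = 0 := by
  ext i j; fin_cases i <;> fin_cases j <;> simp [S4, Matrix.mul_apply, Fin.sum_univ_five]

theorem P_Q : P k * Q k = S3 k := by
  ext i j; fin_cases i <;> fin_cases j <;> simp [P, Q, S3, Matrix.mul_apply, Fin.sum_univ_two]
theorem P_Q1 : P k * Q1 k = S4 k := by
  ext i j; fin_cases i <;> fin_cases j <;> simp [P, Q1, S4, Matrix.mul_apply, Fin.sum_univ_two]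
theorem P1_Q : P1 k * Q k = S4 k := by
  ext i j; fin_cases i <;> fin_cases j <;> simp [P1, Q, S4, Matrix.mul_apply, Fin.sum_univ_two]
theorem P1_Q1 : P1 k * Q1 k = 0 := by
  ext i j; fin_cases i <;> fin_cases j <;> simp [P1, Q1, Matrix.mul_apply, Fin.sum_univ_two]
theorem Q_P : Q k * P k = 0 := by
  ext i j; fin_cases i <;> fin_cases j <;> simp [P, Q, Matrix.mul_apply, Fin.sum_univ_five]
theorem Q_P1 : Q k * P1 k = 0 := by
  ext i j; fin_cases i <;> fin_cases j <;> simp [P1, Q, Matrix.mul_apply, Fin.sum_univ_five]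
theorem Q1_P : Q1 k * P k = 0 := by
  ext i j; fin_cases i <;> fin_cases j <;> simp [P, Q1, Matrix.mul_apply, Fin.sum_univ_five]
theorem Q1_P1 : Q1 k * P1 k = 0 := by
  ext i j; fin_cases i <;> fin_cases j <;> simp [P1, Q1, Matrix.mul_apply, Fin.sum_univ_five]

theorem S_P : S k * P k = P1 k := by
  ext i j; fin_cases i <;> fin_cases j <;> simp [P, S, P1, Matrix.mul_apply, Fin.sum_univ_five]
theorem S_P1 : S k * P1 k = 0 := by
  ext i j; fin_cases i <;> fin_cases j <;> simp [S, P1, Matrix.mul_apply, Fin.sum_univ_five]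
theorem S2_P : S2 k * P k = 0 := by
  ext i j; fin_cases i <;> fin_cases j <;> simp [S2, P, Matrix.mul_apply, Fin.sum_univ_five]
theorem S2_P1 : S2 k * P1 k = 0 := by
  ext i j; fin_cases i <;> fin_cases j <;> simp [S2, P1, Matrix.mul_apply, Fin.sum_univ_five]
theorem S3_P : S3 k * P k = 0 := by
  ext i j; fin_cases i <;> fin_cases j <;> simp [S3, P, Matrix.mul_apply, Fin.sum_univ_five]
theorem S3_P1 : S3 k * P1 k = 0 := by
  ext i j; fin_cases i <;> fin_cases j <;> simp [S3, P1, Matrix.mul_apply, Fin.sum_univ_five]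
theorem S4_P : S4 k * P k = 0 := by
  ext i j; fin_cases i <;> fin_cases j <;> simp [S4, P, Matrix.mul_apply, Fin.sum_univ_five]
theorem S4_P1 : S4 k * P1 k = 0 := by
  ext i j; fin_cases i <;> fin_cases j <;> simp [S4, P1, Matrix.mul_apply, Fin.sum_univ_five]

theorem Q_S : Q k * S k = Q1 k := by
  ext i j; fin_cases i <;> fin_cases j <;> simp [Q, S, Q1, Matrix.mul_apply, Fin.sum_univ_five]
theorem Q1_S : Q1 k * S k = 0 := by
  ext i j; fin_cases i <;> fin_cases j <;> simp [S, Q1, Matrix.mul_apply, Fin.sum_univ_five]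
theorem Q_S2 : Q k * S2 k = 0 := by
  ext i j; fin_cases i <;> fin_cases j <;> simp [Q, S2, Matrix.mul_apply, Fin.sum_univ_five]
theorem Q1_S2 : Q1 k * S2 k = 0 := by
  ext i j; fin_cases i <;> fin_cases j <;> simp [Q1, S2, Matrix.mul_apply, Fin.sum_univ_five]
theorem Q_S3 : Q k * S3 k = 0 := by
  ext i j; fin_cases i <;> fin_cases j <;> simp [Q, S3, Matrix.mul_apply, Fin.sum_univ_five]
theorem Q1_S3 : Q1 k * S3 k = 0 := by
  ext i j; fin_cases i <;> fin_cases j <;> simp [Q1, S3, Matrix.mul_apply, Fin.sum_univ_five]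
theorem Q_S4 : Q k * S4 k = 0 := by
  ext i j; fin_cases i <;> fin_cases j <;> simp [Q, S4, Matrix.mul_apply, Fin.sum_univ_five]
theorem Q1_S4 : Q1 k * S4 k = 0 := by
  ext i j; fin_cases i <;> fin_cases j <;> simp [Q1, S4, Matrix.mul_apply, Fin.sum_univ_five]
theorem s_Q : s k * Q k = Q1 k := by
  ext i j; fin_cases i <;> fin_cases j <;> simp [Q, s, Q1, Matrix.mul_apply, Fin.sum_univ_two]
theorem s_Q1 : s k * Q1 k = 0 := by
  ext i j; fin_cases i <;> fin_cases j <;> simp [s, Q1, Matrix.mul_apply, Fin.sum_univ_two]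
theorem P_s : P k * s k = P1 k := by
  ext i j; fin_cases i <;> fin_cases j <;> simp [P, s, P1, Matrix.mul_apply, Fin.sum_univ_two]
theorem P1_s : P1 k * s k = 0 := by
  ext i j; fin_cases i <;> fin_cases j <;> simp [s, P1, Matrix.mul_apply, Fin.sum_univ_two]
theorem s_s : s k * s k = 0 := by
  ext i j; fin_cases i <;> fin_cases j <;> simp [s, Matrix.mul_apply, Fin.sum_univ_two]

end mul

/-- products -/
theorem Bm_mul (D D' : Dt k) : Bm D * Bm D' =
    fromBlocks (S2 k ⊗ₖ (D.L * D'.L) + S3 k ⊗ₖ (D.L * D'.N1 + D.N1 * D'.L + D.b * D'.a) +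
      S4 k ⊗ₖ (D.L * D'.N2 + D.N1 * D'.N1 + D.N2 * D'.L + D.b1 * D'.a + D.b * D'.a1))
      (P1 k ⊗ₖ (D.L * D'.b)) (Q1 k ⊗ₖ (D.a * D'.L)) 0 := by
  unfold Bm
  rw [fromBlocks_multiply]
  congr 1
  · simp only [Matrix.add_mul, Matrix.mul_add, ← mul_kronecker_mul, S_S, S_S2, S2_S, S_S3, S3_S,
      S2_S2, S_S4, S4_S, S2_S3, S3_S2, S2_S4, S4_S2, S3_S3, S3_S4, S4_S3, S4_S4, P_Q, P_Q1, P1_Q,
      P1_Q1, zero_kronecker, kronecker_add, add_zero, zero_add]
    abel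
  · simp only [Matrix.add_mul, Matrix.mul_add, ← mul_kronecker_mul, S_P, S_P1, S2_P, S2_P1, S3_P,
      S3_P1, S4_P, S4_P1, zero_kronecker, add_zero, Matrix.mul_zero]
  · simp only [Matrix.add_mul, Matrix.mul_add, ← mul_kronecker_mul, Q_S, Q1_S, Q_S2, Q1_S2, Q_S3,
      Q1_S3, Q_S4, Q1_S4, zero_kronecker, add_zero, Matrix.zero_mul]
  · simp only [Matrix.add_mul, Matrix.mul_add, ← mul_kronecker_mul, Q_P, Q1_P, Q_P1, Q1_P1,
      zero_kronecker, add_zero, Matrix.zero_mul]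

theorem J_Bm (D : Dt k) : J k * Bm D = Bm D * J k := by
  unfold J Bm
  rw [fromBlocks_multiply, fromBlocks_multiply]
  congr 1
  · simp only [Matrix.add_mul, Matrix.mul_add, ← mul_kronecker_mul, S_S, S_S2, S2_S, S_S3, S3_S,
      S_S4, S4_S, Matrix.one_mul, Matrix.mul_one, Matrix.zero_mul, Matrix.mul_zero,
      zero_kronecker, add_zero]
  · simp only [Matrix.add_mul, Matrix.mul_add, ← mul_kronecker_mul, S_P, S_P1, P_s, P1_s,
      Matrix.one_mul, Matrix.mul_one, Matrix.zero_mul, Matrix.mul_zero, zero_kronecker, add_zero,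
      zero_add]
  · simp only [Matrix.add_mul, Matrix.mul_add, ← mul_kronecker_mul, Q_S, Q1_S, s_Q, s_Q1,
      Matrix.one_mul, Matrix.mul_one, Matrix.zero_mul, Matrix.mul_zero, zero_kronecker, add_zero,
      zero_add]
  · simp only [Matrix.zero_mul, Matrix.mul_zero]

theorem comm_iff (D D' : Dt k) : Bm D * Bm D' = Bm D' * Bm D ↔ Rel D D' := by
  constructor
  · intro h
    rw [Bm_mul, Bm_mul, fromBlocks_inj] at h
    obtain ⟨h1, h2, h3, -⟩ := h
    refine ⟨?_, ?_, ?_, ?_, ?_⟩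
    · ext i j
      have := congrFun (congrFun h1 (2, i)) (0, j)
      simpa [kroneckerMap_apply, S2, S3, S4] using this
    · ext i j
      have := congrFun (congrFun h1 (3, i)) (0, j)
      simpa [kroneckerMap_apply, S2, S3, S4] using this
    · ext i j
      have := congrFun (congrFun h1 (4, i)) (0, j)
      simpa [kroneckerMap_apply, S2, S3, S4] using this
    · ext i j
      have := congrFun (congrFun h3 (1, i)) (0, j)
      simpa [kroneckerMap_apply, Q1] using this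
    · ext i j
      have := congrFun (congrFun h2 (4, i)) (0, j)
      simpa [kroneckerMap_apply, P1] using this
  · rintro ⟨h1, h2, h3, h4, h5⟩
    rw [Bm_mul, Bm_mul, h1, h2, h3, h4, h5]

/-! ### the shape -/

theorem toeplitz {M : Matrix (Fin 5) (Fin 5) k} (h : S k * M = M * S k) :
    M = M 0 0 • 1 + M 1 0 • S k + M 2 0 • S2 k + M 3 0 • S3 k + M 4 0 • S4 k := by
  have e : ∀ i j, (S k * M) i j = (M * S k) i j := fun i j => by rw [h]
  have e00 := e 0 0
  have e01 := e 0 1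
  have e02 := e 0 2
  have e03 := e 0 3
  have e10 := e 1 0
  have e11 := e 1 1
  have e12 := e 1 2
  have e13 := e 1 3
  have e20 := e 2 0
  have e21 := e 2 1
  have e22 := e 2 2
  have e23 := e 2 3
  have e30 := e 3 0
  have e31 := e 3 1
  have e32 := e 3 2
  have e33 := e 3 3
  have e40 := e 4 0
  have e41 := e 4 1
  have e42 := e 4 2
  have e43 := e 4 3
  simp [S, Matrix.mul_apply, Fin.sum_univ_five] at e00 e01 e02 e03 e10 e11 e12 e13 e20 e21 e22 e23 e30 e31 e32 e33 e40 e41 e42 e43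
  ext i j
  fin_cases i <;> fin_cases j <;>
    simp [S, S2, S3, S4, ← e00, ← e01, ← e02, ← e03, ← e10, ← e11, ← e12, ← e13, ← e20, ← e21, ← e22, ← e23, ← e30, ← e31, ← e32, ← e33, ← e40, ← e41, ← e42, ← e43]

theorem tall {M : Matrix (Fin 5) (Fin 2) k} (h : S k * M = M * s k) :
    M = M 3 0 • P k + M 4 0 • P1 k := by
  have e : ∀ i j, (S k * M) i j = (M * s k) i j := fun i j => by rw [h]
  have e00 := e 0 0
  have e10 := e 1 0
  have e11 := e 1 1
  have e20 := e 2 0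
  have e21 := e 2 1
  have e30 := e 3 0
  have e31 := e 3 1
  have e40 := e 4 0
  have e41 := e 4 1
  simp [S, s, Matrix.mul_apply, Fin.sum_univ_five, Fin.sum_univ_two] at e00 e10 e11 e20 e21 e30 e31 e40 e41
  ext i j
  fin_cases i <;> fin_cases j <;>
    simp [P, P1, e10, e11, e20, e21, e30, e31, ← e40, e41]

theorem wide {M : Matrix (Fin 2) (Fin 5) k} (h : s k * M = M * S k) :
    M = M 0 0 • Q k + M 1 0 • Q1 k := by
  have e : ∀ i j, (s k * M) i j = (M * S k) i j := fun i j => by rw [h]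
  have e00 := e 0 0
  have e01 := e 0 1
  have e02 := e 0 2
  have e03 := e 0 3
  have e10 := e 1 0
  have e11 := e 1 1
  have e12 := e 1 2
  have e13 := e 1 3
  simp [S, s, Matrix.mul_apply, Fin.sum_univ_five, Fin.sum_univ_two] at e00 e01 e02 e03 e10 e11 e12 e13
  ext i j
  fin_cases i <;> fin_cases j <;>
    simp [Q, Q1, ← e00, ← e01, ← e02, ← e03, ← e10, ← e11, ← e12, ← e13]

theorem small {M : Matrix (Fin 2) (Fin 2) k} (h : s k * M = M * s k) :
    M = M 0 0 • 1 + M 1 0 • s k := by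
  have e : ∀ i j, (s k * M) i j = (M * s k) i j := fun i j => by rw [h]
  have e00 := e 0 0
  have e10 := e 1 0
  simp [s, Matrix.mul_apply, Fin.sum_univ_two] at e00 e10
  ext i j
  fin_cases i <;> fin_cases j <;>
    simp [s, ← e00, ← e10]

end R552

end Pool.Agent.Lib.D13
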