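import Pool.Agent.Lib.D13.R552

/-!
# MP_5dcbc3_ag: Jordan type (5, 5, 2): changes of the triple and polynomial families
-/

namespace Pool.Agent.Lib.D13

open Matrix Pool.Agent.Lib.Q5dc Pool.Agent.Lib.D7
open scoped Kronecker

namespace R552

variable {k : Type*} [Field k]

/-- the triple is a limit of curvilinear triples -/
def G (D D' : Dt k) : Prop := Cl ![J k, Bm D, Bm D']

/-- linear combinations -/
def lc (x : k) (D : Dt k) (y : k) (E : Dt k) : Dt k :=
  ⟨x • D.L + y • E.L, x • D.N1 + y • E.N1, x • D.N2 + y • E.N2, x • D.N3 + y • E.N3,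
    x • D.a + y • E.a, x • D.a1 + y • E.a1, x • D.b + y • E.b, x • D.b1 + y • E.b1⟩

theorem Bm_lc (x : k) (D : Dt k) (y : k) (E : Dt k) :
    Bm (lc x D y E) = x • Bm D + y • Bm E := by
  unfold Bm lc
  rw [fromBlocks_smul, fromBlocks_smul, fromBlocks_add]
  simp only [kronecker_add, kronecker_smul, smul_add, smul_zero, add_zero]
  congr 1 <;> abel

theorem G.of_adj {D D' E E' : Dt k} (h : G E E') (h1 : Bm D ∈ adj ![J k, Bm E, Bm E'])
    (h2 : Bm D' ∈ adj ![J k, Bm E, Bm E']) : G D D' := by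
  refine cl_of_adj (T' := ![J k, Bm E, Bm E']) (fun i => ?_) h
  fin_cases i
  · exact mem_adj ![J k, Bm E, Bm E'] 0
  · exact h1
  · exact h2

theorem G.lin {D D' E E' : Dt k} (h : G E E') {x y z w : k} (h1 : Bm D = x • Bm E + y • Bm E')
    (h2 : Bm D' = z • Bm E + w • Bm E') : G D D' := by
  have m1 : Bm E ∈ adj ![J k, Bm E, Bm E'] := mem_adj ![J k, Bm E, Bm E'] 1
  have m2 : Bm E' ∈ adj ![J k, Bm E, Bm E'] := mem_adj ![J k, Bm E, Bm E'] 2
  refine h.of_adj ?_ ?_
  · rw [h1]
    exact add_mem (SMulMemClass.smul_mem x m1) (SMulMemClass.smul_mem y m2)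
  · rw [h2]
    exact add_mem (SMulMemClass.smul_mem z m1) (SMulMemClass.smul_mem w m2)

theorem G.swap {D D' : Dt k} (h : G D' D) : G D D' :=
  h.lin (x := 0) (y := 1) (z := 1) (w := 0) (by simp) (by simp)

theorem G.sub_left {D D' : Dt k} {c : k} (h : G (lc 1 D (-c) D') D') : G D D' :=
  h.lin (x := 1) (y := c) (z := 0) (w := 1) (by rw [Bm_lc]; module) (by simp)

theorem G.sub_right {D D' : Dt k} {c : k} (h : G D (lc 1 D' (-c) D)) : G D D' :=
  h.lin (x := 1) (y := 0) (z := c) (w := 1) (by simp) (by rw [Bm_lc]; module)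

theorem G.smul_right {D D' : Dt k} {c : k} (hc : c ≠ 0) (h : G D (lc c D' 0 D)) : G D D' := by
  refine h.lin (x := 1) (y := 0) (z := 0) (w := c⁻¹) (by simp) ?_
  rw [Bm_lc, zero_smul, add_zero, smul_smul, inv_mul_cancel₀ hc, one_smul]
  simp

theorem Rel.swap {D D' : Dt k} (h : Rel D D') : Rel D' D :=
  (comm_iff D' D).1 ((comm_iff D D').2 h).symm

theorem Rel.sub_left {D D' : Dt k} (h : Rel D D') (c : k) : Rel (lc 1 D (-c) D') D' := by
  have h1 := (comm_iff D D').2 h
  rw [← comm_iff, Bm_lc, add_mul, mul_add, smul_mul_assoc, smul_mul_assoc, mul_smul_comm,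
    mul_smul_comm, h1]

theorem Rel.sub_right {D D' : Dt k} (h : Rel D D') (c : k) : Rel D (lc 1 D' (-c) D) := by
  have h1 := (comm_iff D D').2 h
  rw [← comm_iff, Bm_lc, add_mul, mul_add, smul_mul_assoc, smul_mul_assoc, mul_smul_comm,
    mul_smul_comm, h1]

theorem Rel.smul_right {D D' : Dt k} (h : Rel D D') (c : k) : Rel D (lc c D' 0 D) := by
  have h1 := (comm_iff D D').2 h
  rw [← comm_iff, Bm_lc, add_mul, mul_add, smul_mul_assoc, smul_mul_assoc, mul_smul_comm,
    mul_smul_comm, h1]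

/-! ### conjugation -/

/-- conjugation by `g`, `h = g⁻¹` -/
def cj (g h : Matrix (Fin 2) (Fin 2) k) (D : Dt k) : Dt k :=
  ⟨g * D.L * h, g * D.N1 * h, g * D.N2 * h, g * D.N3 * h, D.a * h, D.a1 * h, g * D.b, g * D.b1⟩

/-- the conjugating matrix -/
def cg (g : Matrix (Fin 2) (Fin 2) k) : Matrix Ix Ix k :=
  fromBlocks ((1 : Matrix (Fin 5) (Fin 5) k) ⊗ₖ g) 0 0 1

theorem cg_mul (g h : Matrix (Fin 2) (Fin 2) k) (hg : g * h = 1) :
    cg (k := k) g * cg h = 1 := by
  unfold cg
  rw [fromBlocks_multiply, ← mul_kronecker_mul, hg]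
  simp

theorem cg_J (g h : Matrix (Fin 2) (Fin 2) k) (hg : g * h = 1) :
    cg g * J k * cg h = J k := by
  unfold cg J
  rw [fromBlocks_multiply, fromBlocks_multiply]
  congr 1
  · simp only [Matrix.mul_zero, Matrix.zero_mul, add_zero, ← mul_kronecker_mul, Matrix.one_mul,
      Matrix.mul_one, hg]
  · simp
  · simp
  · simp

theorem cg_Bm (g h : Matrix (Fin 2) (Fin 2) k) (D : Dt k) :
    cg g * Bm D * cg h = Bm (cj g h D) := by
  unfold cg Bm cj
  rw [fromBlocks_multiply, fromBlocks_multiply]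
  have e : (1 : Matrix (Fin 2 × Unit) (Fin 2 × Unit) k) =
      (1 : Matrix (Fin 2) (Fin 2) k) ⊗ₖ (1 : Matrix Unit Unit k) := one_kronecker_one.symm
  congr 1
  · simp only [Matrix.mul_zero, Matrix.zero_mul, add_zero, ← mul_kronecker_mul, Matrix.one_mul,
      Matrix.mul_one, Matrix.mul_add, Matrix.add_mul]
  · simp only [Matrix.mul_zero, Matrix.zero_mul, add_zero, zero_add, e, ← mul_kronecker_mul,
      Matrix.one_mul, Matrix.mul_one, Matrix.mul_add, Matrix.add_mul]
  · simp only [Matrix.mul_zero, Matrix.zero_mul, add_zero, zero_add, e, ← mul_kronecker_mul,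
      Matrix.one_mul, Matrix.mul_one, Matrix.mul_add, Matrix.add_mul]
  · simp

theorem G.of_cj {D D' : Dt k} (g h : Matrix (Fin 2) (Fin 2) k) (hg : g * h = 1) (hh : h * g = 1)
    (H : G (cj g h D) (cj g h D')) : G D D' := by
  have h1 := Cl.conj (cg h) (cg g) (cg_mul h g hh) (cg_mul g h hg) H
  have e : ∀ E : Dt k, cg h * Bm (cj g h E) * cg g = Bm E := by
    intro E
    rw [cg_Bm]
    congr 1
    unfold cj
    cases E
    simp only [Dt.mk.injEq]
    have e1 : ∀ A : Matrix (Fin 2) (Fin 2) k, h * (g * A * h) * g = A := fun A => by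
      calc h * (g * A * h) * g = (h * g) * A * (h * g) := by simp only [Matrix.mul_assoc]
        _ = A := by rw [hh, Matrix.one_mul, Matrix.mul_one]
    have e2 : ∀ A : Matrix Unit (Fin 2) k, A * h * g = A := fun A => by
      rw [Matrix.mul_assoc, hh, Matrix.mul_one]
    have e3 : ∀ A : Matrix (Fin 2) Unit k, h * (g * A) = A := fun A => by
      rw [← Matrix.mul_assoc, hh, Matrix.one_mul]
    exact ⟨e1 _, e1 _, e1 _, e1 _, e2 _, e2 _, e3 _, e3 _⟩
  have e2 : (fun i => cg h * (![J k, Bm (cj g h D), Bm (cj g h D')] : Fin 3 → Matrix Ix Ix k) i *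
      cg g) = ![J k, Bm D, Bm D'] := by
    funext i
    fin_cases i
    · exact cg_J h g hh
    · exact e D
    · exact e D'
  rw [e2] at h1
  exact h1

theorem Rel.cj {D D' : Dt k} (H : Rel D D') (g h : Matrix (Fin 2) (Fin 2) k) (hh : h * g = 1) :
    Rel (cj g h D) (cj g h D') := by
  rw [← comm_iff, ← cg_Bm, ← cg_Bm]
  have h1 := (comm_iff D D').2 H
  have h2 : cg h * cg g = (1 : Matrix Ix Ix k) := cg_mul h g hh
  calc cg g * Bm D * cg h * (cg g * Bm D' * cg h)
      = cg g * Bm D * (cg h * cg g) * Bm D' * cg h := by simp only [Matrix.mul_assoc]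
    _ = cg g * (Bm D * Bm D') * cg h := by rw [h2, Matrix.mul_one]; simp only [Matrix.mul_assoc]
    _ = cg g * (Bm D' * Bm D) * cg h := by rw [h1]
    _ = cg g * Bm D' * (cg h * cg g) * Bm D * cg h := by
        rw [h2, Matrix.mul_one]; simp only [Matrix.mul_assoc]
    _ = _ := by simp only [Matrix.mul_assoc]

/-! ### duality -/

/-- the dual parameters -/
def du (D : Dt k) : Dt k :=
  ⟨D.Lᵀ, D.N1ᵀ, D.N2ᵀ, D.N3ᵀ, D.bᵀ, D.b1ᵀ, D.aᵀ, D.a1ᵀ⟩

/-- the reversing matrices -/
def w5 (k : Type*) [Field k] : Matrix (Fin 5) (Fin 5) k :=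
  !![0, 0, 0, 0, 1; 0, 0, 0, 1, 0; 0, 0, 1, 0, 0; 0, 1, 0, 0, 0; 1, 0, 0, 0, 0]

def w2 (k : Type*) [Field k] : Matrix (Fin 2) (Fin 2) k := !![0, 1; 1, 0]

def W (k : Type*) [Field k] : Matrix Ix Ix k :=
  fromBlocks (w5 k ⊗ₖ (1 : Matrix (Fin 2) (Fin 2) k)) 0 0 (w2 k ⊗ₖ (1 : Matrix Unit Unit k))

theorem w5_w5 : w5 k * w5 k = 1 := by
  ext i j; fin_cases i <;> fin_cases j <;> simp [w5, Matrix.mul_apply, Fin.sum_univ_five]
theorem w2_w2 : w2 k * w2 k = 1 := by
  ext i j; fin_cases i <;> fin_cases j <;> simp [w2, Matrix.mul_apply, Fin.sum_univ_two]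

theorem W_W : W k * W k = 1 := by
  unfold W
  rw [fromBlocks_multiply, ← mul_kronecker_mul, ← mul_kronecker_mul, w5_w5, w2_w2]
  simp

theorem wS : w5 k * (S k)ᵀ * w5 k = S k := by
  ext i j
  simp only [Matrix.mul_apply, Matrix.transpose_apply, Fin.sum_univ_five]
  fin_cases i <;> fin_cases j <;> simp [w5, S]
theorem wS2 : w5 k * (S2 k)ᵀ * w5 k = S2 k := by
  ext i j
  simp only [Matrix.mul_apply, Matrix.transpose_apply, Fin.sum_univ_five]
  fin_cases i <;> fin_cases j <;> simp [w5, S2]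
theorem wS3 : w5 k * (S3 k)ᵀ * w5 k = S3 k := by
  ext i j
  simp only [Matrix.mul_apply, Matrix.transpose_apply, Fin.sum_univ_five]
  fin_cases i <;> fin_cases j <;> simp [w5, S3]
theorem wS4 : w5 k * (S4 k)ᵀ * w5 k = S4 k := by
  ext i j
  simp only [Matrix.mul_apply, Matrix.transpose_apply, Fin.sum_univ_five]
  fin_cases i <;> fin_cases j <;> simp [w5, S4]
theorem ws : w2 k * (s k)ᵀ * w2 k = s k := by
  ext i j
  simp only [Matrix.mul_apply, Matrix.transpose_apply, Fin.sum_univ_two]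
  fin_cases i <;> fin_cases j <;> simp [w2, s]
theorem wQ : w5 k * (Q k)ᵀ * w2 k = P k := by
  ext i j
  simp only [Matrix.mul_apply, Matrix.transpose_apply, Fin.sum_univ_two, Fin.sum_univ_five]
  fin_cases i <;> fin_cases j <;> simp [w2, w5, Q, P]
theorem wQ1 : w5 k * (Q1 k)ᵀ * w2 k = P1 k := by
  ext i j
  simp only [Matrix.mul_apply, Matrix.transpose_apply, Fin.sum_univ_two, Fin.sum_univ_five]
  fin_cases i <;> fin_cases j <;> simp [w2, w5, Q1, P1]
theorem wP : w2 k * (P k)ᵀ * w5 k = Q k := by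
  ext i j
  simp only [Matrix.mul_apply, Matrix.transpose_apply, Fin.sum_univ_two, Fin.sum_univ_five]
  fin_cases i <;> fin_cases j <;> simp [w2, w5, Q, P]
theorem wP1 : w2 k * (P1 k)ᵀ * w5 k = Q1 k := by
  ext i j
  simp only [Matrix.mul_apply, Matrix.transpose_apply, Fin.sum_univ_two, Fin.sum_univ_five]
  fin_cases i <;> fin_cases j <;> simp [w2, w5, Q1, P1]

theorem W_Bm (D : Dt k) : W k * (Bm D)ᵀ * W k = Bm (du D) := by
  unfold W Bm du
  rw [fromBlocks_transpose, fromBlocks_multiply, fromBlocks_multiply]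
  simp only [Matrix.mul_zero, Matrix.zero_mul, add_zero, zero_add, transpose_add,
    ← kroneckerMap_transpose, transpose_zero]
  congr 1
  · simp only [Matrix.mul_add, Matrix.add_mul, ← mul_kronecker_mul, Matrix.one_mul,
      Matrix.mul_one, wS, wS2, wS3, wS4]
  · simp only [Matrix.mul_add, Matrix.add_mul, ← mul_kronecker_mul, Matrix.one_mul,
      Matrix.mul_one, wQ, wQ1]
  · simp only [Matrix.mul_add, Matrix.add_mul, ← mul_kronecker_mul, Matrix.one_mul,
      Matrix.mul_one, wP, wP1]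

theorem W_J : W k * (J k)ᵀ * W k = J k := by
  unfold W J
  rw [fromBlocks_transpose, fromBlocks_multiply, fromBlocks_multiply]
  simp only [Matrix.mul_zero, Matrix.zero_mul, add_zero, zero_add,
    ← kroneckerMap_transpose, transpose_zero, transpose_one]
  congr 1
  · simp only [← mul_kronecker_mul, Matrix.one_mul, Matrix.mul_one, wS]
  · simp only [← mul_kronecker_mul, Matrix.one_mul, Matrix.mul_one, ws]

theorem du_du (D : Dt k) : du (du D) = D := by
  cases D
  simp [du]

theorem G.of_du {D D' : Dt k} (H : G (du D) (du D')) : G D D' := by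
  have h1 := Cl.conj (W k) (W k) W_W W_W H.transpose
  have e2 : (fun i => W k * ((![J k, Bm (du D), Bm (du D')] : Fin 3 → Matrix Ix Ix k) i)ᵀ *
      W k) = ![J k, Bm D, Bm D'] := by
    funext i
    fin_cases i
    · exact W_J
    · show W k * (Bm (du D))ᵀ * W k = Bm D
      rw [W_Bm, du_du]
    · show W k * (Bm (du D'))ᵀ * W k = Bm D'
      rw [W_Bm, du_du]
  rw [e2] at h1
  exact h1

theorem Rel.du {D D' : Dt k} (H : Rel D D') : Rel (du D) (du D') := by
  rw [← comm_iff, ← W_Bm, ← W_Bm]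
  have h1 := (comm_iff D D').2 H
  have h3 : (Bm D)ᵀ * (Bm D')ᵀ = (Bm D')ᵀ * (Bm D)ᵀ := by
    rw [← Matrix.transpose_mul, ← Matrix.transpose_mul, h1]
  calc W k * (Bm D)ᵀ * W k * (W k * (Bm D')ᵀ * W k)
      = W k * (Bm D)ᵀ * (W k * W k) * (Bm D')ᵀ * W k := by simp only [Matrix.mul_assoc]
    _ = W k * ((Bm D)ᵀ * (Bm D')ᵀ) * W k := by
        rw [W_W, Matrix.mul_one]; simp only [Matrix.mul_assoc]
    _ = W k * ((Bm D')ᵀ * (Bm D)ᵀ) * W k := by rw [h3]
    _ = W k * (Bm D')ᵀ * (W k * W k) * (Bm D)ᵀ * W k := by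
        rw [W_W, Matrix.mul_one]; simp only [Matrix.mul_assoc]
    _ = _ := by simp only [Matrix.mul_assoc]

/-! ### polynomial families -/

/-- matrices with polynomial entries -/
def PM {m n : Type*} (f : k → Matrix m n k) : Prop := ∀ i j, D7.IsPoly fun s => f s i j

section PM

variable {m n o : Type*}

theorem PM.const (A : Matrix m n k) : PM fun _ : k => A := fun i j => D7.IsPoly.const (A i j)

theorem PM.add {f g : k → Matrix m n k} (hf : PM f) (hg : PM g) : PM fun s => f s + g s :=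
  fun i j => (hf i j).add (hg i j)

theorem PM.sub {f g : k → Matrix m n k} (hf : PM f) (hg : PM g) : PM fun s => f s - g s :=
  fun i j => (hf i j).sub (hg i j)

theorem PM.neg {f : k → Matrix m n k} (hf : PM f) : PM fun s => - f s :=
  fun i j => (hf i j).neg

theorem PM.smul {f : k → k} {g : k → Matrix m n k} (hf : D7.IsPoly f) (hg : PM g) :
    PM fun s => f s • g s :=
  fun i j => hf.mul (hg i j)

theorem isPoly_sum {ι : Type*} (t : Finset ι) {f : ι → k → k} (hf : ∀ i, D7.IsPoly (f i)) :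
    D7.IsPoly fun s => ∑ i ∈ t, f i s := by
  choose p hp using hf
  refine ⟨∑ i ∈ t, p i, fun s => ?_⟩
  rw [Polynomial.eval_finsetSum]
  exact Finset.sum_congr rfl fun i _ => hp i s

theorem PM.mul [Fintype n] {f : k → Matrix m n k} {g : k → Matrix n o k} (hf : PM f)
    (hg : PM g) : PM fun s => f s * g s := by
  intro i j
  have : (fun s => (f s * g s) i j) = fun s => ∑ l, f s i l * g s l j := by
    funext s
    rw [Matrix.mul_apply]
  rw [this]
  exact isPoly_sum _ fun l => (hf i l).mul (hg l j)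

theorem PM.kron {m' n' : Type*} {g : k → Matrix m' n' k} (A : Matrix m n k) (hg : PM g) :
    PM fun s => A ⊗ₖ g s := fun i j => (D7.IsPoly.const _).mul (hg i.2 j.2)

end PM

/-- polynomial families of parameters -/
structure PD (f : k → Dt k) : Prop where
  L : PM fun s => (f s).L
  N1 : PM fun s => (f s).N1
  N2 : PM fun s => (f s).N2
  N3 : PM fun s => (f s).N3
  a : PM fun s => (f s).a
  a1 : PM fun s => (f s).a1
  b : PM fun s => (f s).b
  b1 : PM fun s => (f s).b1

theorem PD.const (D : Dt k) : PD fun _ : k => D :=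
  ⟨PM.const _, PM.const _, PM.const _, PM.const _, PM.const _, PM.const _, PM.const _, PM.const _⟩

theorem PD.line (D E : Dt k) : PD fun s : k => lc 1 D s E :=
  ⟨((PM.const (1 • D.L)).add (PM.smul D7.IsPoly.id (PM.const _))),
   ((PM.const _).add (PM.smul D7.IsPoly.id (PM.const _))),
   ((PM.const _).add (PM.smul D7.IsPoly.id (PM.const _))),
   ((PM.const _).add (PM.smul D7.IsPoly.id (PM.const _))),
   ((PM.const _).add (PM.smul D7.IsPoly.id (PM.const _))),
   ((PM.const _).add (PM.smul D7.IsPoly.id (PM.const _))),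
   ((PM.const _).add (PM.smul D7.IsPoly.id (PM.const _))),
   ((PM.const _).add (PM.smul D7.IsPoly.id (PM.const _)))⟩

theorem PD.Bm {f : k → Dt k} (h : PD f) : PM fun s => Bm (f s) := by
  intro i j
  rcases i with i | i <;> rcases j with j | j
  · exact ((((PM.kron (S k) h.L).add (PM.kron (S2 k) h.N1)).add (PM.kron (S3 k) h.N2)).add
      (PM.kron (S4 k) h.N3)) i j
  · exact ((PM.kron (P k) h.b).add (PM.kron (P1 k) h.b1)) i j
  · exact ((PM.kron (Q k) h.a).add (PM.kron (Q1 k) h.a1)) i j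
  · exact D7.IsPoly.const 0

/-- a polynomial family with limits outside of finitely many parameters -/
theorem fam [Infinite k] {f f' : k → Dt k} (hf : PD f) (hf' : PD f') {E : Set k} (hE : E.Finite)
    (h : ∀ s ∉ E, G (f s) (f' s)) : G (f 0) (f' 0) := by
  by_contra h0
  have h1 : PolyFam fun s => (![J k, Bm (f s), Bm (f' s)] : Fin 3 → Matrix Ix Ix k) := by
    intro i
    fin_cases i
    · exact fun x y => D7.IsPoly.const _
    · exact fun x y => hf.Bm x y
    · exact fun x y => hf'.Bm x y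
  have h2 := finite_cl _ h1 h0
  obtain ⟨s, hs⟩ := (h2.union hE).exists_notMem
  rw [Set.mem_union, not_or] at hs
  exact hs.1 (h s hs.2)

end R552

end Pool.Agent.Lib.D13
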