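import Pool.Agent.Lib.D13.R552b

/-!
# MP_5dcbc3_ag: Jordan type (5, 5, 2): the triples with `L' = 1`: parameters
-/

namespace Pool.Agent.Lib.D13

open Matrix Pool.Agent.Lib.Q5dc Pool.Agent.Lib.D7
open scoped Kronecker

namespace R552

variable {k : Type*} [Field k]

/-- the parameters for `L' = 1` -/
structure Pm (k : Type*) where
  L : Matrix (Fin 2) (Fin 2) k
  M : Matrix (Fin 2) (Fin 2) k
  N1 : Matrix (Fin 2) (Fin 2) k
  K : Matrix (Fin 2) (Fin 2) k
  a : Matrix Unit (Fin 2) k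
  al : Matrix Unit (Fin 2) k
  b : Matrix (Fin 2) Unit k
  be : Matrix (Fin 2) Unit k

/-- the free parameters for `L' = 1` -/
structure Fr (k : Type*) where
  N2 : Matrix (Fin 2) (Fin 2) k
  N3 : Matrix (Fin 2) (Fin 2) k
  N3' : Matrix (Fin 2) (Fin 2) k
  a1 : Matrix Unit (Fin 2) k
  b1 : Matrix (Fin 2) Unit k

def m1 (p : Pm k) (f : Fr k) : Dt k :=
  ⟨p.L, p.N1, f.N2, f.N3, p.a * p.L, p.a * p.N1 - p.al + f.a1 * p.L, p.L * p.b,
    p.be + p.N1 * p.b + p.L * f.b1⟩

def m2 (p : Pm k) (f : Fr k) : Dt k :=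
  ⟨1, p.M - p.b * p.a, p.K - p.b * f.a1 - f.b1 * p.a, f.N3', p.a, f.a1, p.b, f.b1⟩

/-- the equations for `L' = 1` -/
structure EQ (p : Pm k) : Prop where
  e1 : p.L * p.M = p.M * p.L
  e2 : p.L * p.K - p.K * p.L + (p.N1 * p.M - p.M * p.N1) + p.be * p.a + p.b * p.al = 0

theorem rel_m (p : Pm k) (f : Fr k) (h : EQ p) : Rel (m1 p f) (m2 p f) := by
  refine ⟨?_, ?_, ?_, ?_, ?_⟩
  · simp [m1, m2]
  · have := h.e1
    simp only [m1, m2, Matrix.mul_one, Matrix.one_mul, Matrix.mul_sub, Matrix.sub_mul,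
      Matrix.mul_assoc, this]
    abel
  · rw [← sub_eq_zero]
    refine Eq.trans ?_ h.e2
    simp only [m1, m2, Matrix.mul_one, Matrix.one_mul, Matrix.mul_sub, Matrix.sub_mul,
      Matrix.mul_add, Matrix.add_mul, Matrix.mul_assoc]
    abel
  · simp [m1, m2]
  · simp [m1, m2]

theorem exists_m {D D' : Dt k} (h : Rel D D') (h1 : D'.L = 1) :
    ∃ (p : Pm k) (f : Fr k), EQ p ∧ D = m1 p f ∧ D' = m2 p f := by
  obtain ⟨L, N1, N2, N3, a, a1, b, b1⟩ := D
  obtain ⟨L', N1', N2', N3', a', a1', b', b1'⟩ := D'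
  obtain ⟨-, r2, r3, r4, r5⟩ := h
  simp only at h1 r2 r3 r4 r5
  subst h1
  rw [Matrix.mul_one] at r4
  rw [Matrix.one_mul] at r5
  subst r4
  subst r5
  refine ⟨⟨L, N1' + b' * a', N1, N2' + b' * a1' + b1' * a', a', a' * N1 - a1 + a1' * L, b',
    b1 - N1 * b' - L * b1'⟩, ⟨N2, N3, N3', a1', b1'⟩, ⟨?_, ?_⟩, ?_, ?_⟩
  · rw [← sub_eq_zero] at r2 ⊢
    refine Eq.trans ?_ r2
    simp only [Matrix.mul_one, Matrix.one_mul, Matrix.mul_add, Matrix.add_mul, Matrix.mul_assoc]
    abel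
  · rw [← sub_eq_zero] at r3
    refine Eq.trans ?_ r3
    simp only [Matrix.mul_one, Matrix.one_mul, Matrix.mul_sub, Matrix.sub_mul, Matrix.mul_add,
      Matrix.add_mul, Matrix.mul_assoc]
    abel
  · simp only [m1, Dt.mk.injEq, true_and]
    constructor
    · module
    · module
  · simp only [m2, Dt.mk.injEq, true_and, and_true]
    constructor
    · module
    · module

/-- all triples with these parameters are limits -/
def GG (p : Pm k) : Prop := ∀ f : Fr k, G (m1 p f) (m2 p f)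

def Pm.cj (g h : Matrix (Fin 2) (Fin 2) k) (p : Pm k) : Pm k :=
  ⟨g * p.L * h, g * p.M * h, g * p.N1 * h, g * p.K * h, p.a * h, p.al * h, g * p.b, g * p.be⟩

theorem cj_mul {g h : Matrix (Fin 2) (Fin 2) k} (hh : h * g = 1) (X Y : Matrix (Fin 2) (Fin 2) k) :
    g * X * h * (g * Y * h) = g * (X * Y) * h := by
  calc g * X * h * (g * Y * h) = g * X * (h * g) * Y * h := by simp only [Matrix.mul_assoc]
    _ = _ := by rw [hh, Matrix.mul_one]; simp only [Matrix.mul_assoc]

theorem cj_mul2 {g h : Matrix (Fin 2) (Fin 2) k} (hh : h * g = 1) (X : Matrix Unit (Fin 2) k)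
    (Y : Matrix (Fin 2) (Fin 2) k) :
    X * h * (g * Y * h) = (X * Y) * h := by
  calc X * h * (g * Y * h) = X * (h * g) * Y * h := by simp only [Matrix.mul_assoc]
    _ = _ := by rw [hh, Matrix.mul_one]

theorem cj_mul3 {g h : Matrix (Fin 2) (Fin 2) k} (hh : h * g = 1) (X : Matrix (Fin 2) Unit k)
    (Y : Matrix (Fin 2) (Fin 2) k) :
    g * Y * h * (g * X) = g * (Y * X) := by
  calc g * Y * h * (g * X) = g * Y * (h * g) * X := by simp only [Matrix.mul_assoc]
    _ = _ := by rw [hh, Matrix.mul_one]; simp only [Matrix.mul_assoc]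

theorem cj_mul4 {g h : Matrix (Fin 2) (Fin 2) k} (X : Matrix (Fin 2) Unit k)
    (Y : Matrix Unit (Fin 2) k) : g * X * (Y * h) = g * (X * Y) * h := by
  simp only [Matrix.mul_assoc]

theorem GG.of_cj {p : Pm k} (g h : Matrix (Fin 2) (Fin 2) k) (hg : g * h = 1) (hh : h * g = 1)
    (H : GG (p.cj g h)) : GG p := by
  intro f
  refine G.of_cj g h hg hh ?_
  have := H ⟨g * f.N2 * h, g * f.N3 * h, g * f.N3' * h, f.a1 * h, g * f.b1⟩
  have e1 : m1 (p.cj g h) ⟨g * f.N2 * h, g * f.N3 * h, g * f.N3' * h, f.a1 * h, g * f.b1⟩ =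
      R552.cj g h (m1 p f) := by
    simp only [m1, Pm.cj, R552.cj, cj_mul2 hh, cj_mul3 hh, Matrix.add_mul, Matrix.sub_mul,
      Matrix.mul_add]
  have e2 : m2 (p.cj g h) ⟨g * f.N2 * h, g * f.N3 * h, g * f.N3' * h, f.a1 * h, g * f.b1⟩ =
      R552.cj g h (m2 p f) := by
    simp only [m2, Pm.cj, R552.cj, cj_mul4, Matrix.sub_mul, Matrix.mul_sub, Matrix.mul_one, hg]
  rwa [e1, e2] at this

theorem EQ.cj {p : Pm k} (H : EQ p) (g h : Matrix (Fin 2) (Fin 2) k) (hh : h * g = 1) :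
    EQ (p.cj g h) := by
  refine ⟨?_, ?_⟩
  · simp only [Pm.cj, cj_mul hh, H.e1]
  · have : g * (p.L * p.K - p.K * p.L + (p.N1 * p.M - p.M * p.N1) + p.be * p.a + p.b * p.al) * h =
        0 := by rw [H.e2]; simp
    simp only [Pm.cj, cj_mul hh, cj_mul4]
    rw [← this]
    simp only [Matrix.mul_add, Matrix.add_mul, Matrix.mul_sub, Matrix.sub_mul]

/-- polynomial families of parameters -/
structure PP (f : k → Pm k) : Prop where
  L : PM fun s => (f s).L
  M : PM fun s => (f s).M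
  N1 : PM fun s => (f s).N1
  K : PM fun s => (f s).K
  a : PM fun s => (f s).a
  al : PM fun s => (f s).al
  b : PM fun s => (f s).b
  be : PM fun s => (f s).be

theorem famP [Infinite k] {c : k → Pm k} (hc : PP c) {E : Set k} (hE : E.Finite)
    (h : ∀ s ∉ E, GG (c s)) : GG (c 0) := by
  intro f
  refine fam (f := fun s => m1 (c s) f) (f' := fun s => m2 (c s) f) ?_ ?_ hE
    (fun s hs => h s hs f)
  · exact ⟨hc.L, hc.N1, PM.const _, PM.const _, hc.a.mul hc.L,
      ((hc.a.mul hc.N1).sub hc.al).add ((PM.const _).mul hc.L), hc.L.mul hc.b,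
      (hc.be.add (hc.N1.mul hc.b)).add (hc.L.mul (PM.const _))⟩
  · exact ⟨PM.const _, hc.M.sub (hc.b.mul hc.a), (hc.K.sub (hc.b.mul (PM.const _))).sub
      ((PM.const _).mul hc.a), PM.const _, hc.a, PM.const _, hc.b, PM.const _⟩

/-! ### `M` a polynomial in `L` -/

/-- the remaining equation -/
def E2 (L K : Matrix (Fin 2) (Fin 2) k) (a al : Matrix Unit (Fin 2) k)
    (b be : Matrix (Fin 2) Unit k) : Prop := L * K - K * L + be * a + b * al = 0

def ex (L K : Matrix (Fin 2) (Fin 2) k) (a al : Matrix Unit (Fin 2) k)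
    (b be : Matrix (Fin 2) Unit k) (x y : k) (N : Matrix (Fin 2) (Fin 2) k) : Pm k :=
  ⟨L, x • 1 + y • L, N, K + y • N, a, al, b, be⟩

/-- all triples with these parameters are limits -/
def G2 (L K : Matrix (Fin 2) (Fin 2) k) (a al : Matrix Unit (Fin 2) k)
    (b be : Matrix (Fin 2) Unit k) : Prop :=
  ∀ (x y : k) (N : Matrix (Fin 2) (Fin 2) k), GG (ex L K a al b be x y N)

theorem EQ_ex {L K : Matrix (Fin 2) (Fin 2) k} {a al : Matrix Unit (Fin 2) k}
    {b be : Matrix (Fin 2) Unit k} {x y : k} {N : Matrix (Fin 2) (Fin 2) k} :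
    EQ (ex L K a al b be x y N) ↔ E2 L K a al b be := by
  have e : L * (K + y • N) - (K + y • N) * L + (N * (x • 1 + y • L) - (x • 1 + y • L) * N) +
      be * a + b * al = L * K - K * L + be * a + b * al := by
    simp only [Matrix.mul_add, Matrix.add_mul, Matrix.mul_smul, Matrix.smul_mul, Matrix.mul_one,
      Matrix.one_mul]
    abel
  constructor
  · intro h
    have := h.e2
    simp only [ex] at this
    rwa [e] at this
  · intro h
    refine ⟨?_, ?_⟩
    · simp only [ex, Matrix.mul_add, Matrix.add_mul, Matrix.mul_smul, Matrix.smul_mul,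
        Matrix.mul_one, Matrix.one_mul]
    · simp only [ex]
      rw [e]
      exact h

theorem E2.cj {L K : Matrix (Fin 2) (Fin 2) k} {a al : Matrix Unit (Fin 2) k}
    {b be : Matrix (Fin 2) Unit k} (H : E2 L K a al b be) (g h : Matrix (Fin 2) (Fin 2) k)
    (hh : h * g = 1) : E2 (g * L * h) (g * K * h) (a * h) (al * h) (g * b) (g * be) := by
  have : g * (L * K - K * L + be * a + b * al) * h = 0 := by
    have h1 : L * K - K * L + be * a + b * al = 0 := H
    rw [h1]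
    simp
  unfold E2
  rw [cj_mul hh, cj_mul hh, cj_mul4, cj_mul4, ← this]
  simp only [Matrix.mul_add, Matrix.add_mul, Matrix.mul_sub, Matrix.sub_mul]

theorem G2.of_cj {L K : Matrix (Fin 2) (Fin 2) k} {a al : Matrix Unit (Fin 2) k}
    {b be : Matrix (Fin 2) Unit k} (g h : Matrix (Fin 2) (Fin 2) k) (hg : g * h = 1)
    (hh : h * g = 1) (H : G2 (g * L * h) (g * K * h) (a * h) (al * h) (g * b) (g * be)) :
    G2 L K a al b be := by
  intro x y N
  refine GG.of_cj g h hg hh ?_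
  have := H x y (g * N * h)
  have e : ex (g * L * h) (g * K * h) (a * h) (al * h) (g * b) (g * be) x y (g * N * h) =
      (ex L K a al b be x y N).cj g h := by
    simp only [ex, Pm.cj, Matrix.mul_add, Matrix.add_mul, Matrix.mul_smul, Matrix.smul_mul,
      Matrix.mul_one, hg]
  rwa [e] at this

theorem fam2 [Infinite k] {L K : k → Matrix (Fin 2) (Fin 2) k} {a al : k → Matrix Unit (Fin 2) k}
    {b be : k → Matrix (Fin 2) Unit k} (hL : PM L) (hK : PM K) (ha : PM a) (hal : PM al)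
    (hb : PM b) (hbe : PM be) {E : Set k} (hE : E.Finite)
    (h : ∀ s ∉ E, G2 (L s) (K s) (a s) (al s) (b s) (be s)) :
    G2 (L 0) (K 0) (a 0) (al 0) (b 0) (be 0) := by
  intro x y N
  refine famP (c := fun s => ex (L s) (K s) (a s) (al s) (b s) (be s) x y N) ?_ hE
    (fun s hs => h s hs x y N)
  exact ⟨hL, (PM.const _).add (PM.smul (D7.IsPoly.const y) hL), PM.const _, hK.add (PM.const _),
    ha, hal, hb, hbe⟩

end R552

end Pool.Agent.Lib.D13
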