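import Pool.Agent.Lib.D13.R552c

/-!
# MP_5dcbc3_ag: Jordan type (5, 5, 2): the triples with `L' = 1`: curves
-/

namespace Pool.Agent.Lib.D13

open Matrix Pool.Agent.Lib.Q5dc Pool.Agent.Lib.D7
open scoped Kronecker

namespace R552

variable {k : Type*} [Field k]

/-- the generic case -/
def Gen (k : Type*) [Field k] : Prop := ∀ (D D' : Dt k), Rel D D' → ∀ l1 l2 : k, l1 ≠ l2 →
  D.L = !![l1, 0; 0, l2] → D'.L = 1 → D'.a () 0 ≠ 0 → D'.a () 1 ≠ 0 → D'.b 0 () ≠ 0 →
  D'.b 1 () ≠ 0 → Cl ![J k, Bm D, Bm D']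

def row (x y : k) : Matrix Unit (Fin 2) k := Matrix.of fun _ => ![x, y]
def col (x y : k) : Matrix (Fin 2) Unit k := Matrix.of fun i _ => ![x, y] i

theorem row_eta (a : Matrix Unit (Fin 2) k) : a = row (a () 0) (a () 1) := by
  ext i j; fin_cases j <;> simp [row]
theorem col_eta (a : Matrix (Fin 2) Unit k) : a = col (a 0 ()) (a 1 ()) := by
  ext i j; fin_cases i <;> simp [col]
@[simp] theorem row_0 (x y : k) (i : Unit) : row x y i 0 = x := rfl
@[simp] theorem row_1 (x y : k) (i : Unit) : row x y i 1 = y := rfl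
@[simp] theorem col_0 (x y : k) (i : Unit) : col x y 0 i = x := rfl
@[simp] theorem col_1 (x y : k) (i : Unit) : col x y 1 i = y := rfl

theorem E2_iff {l00 l01 l10 l11 k00 k01 k10 k11 a0 a1 al0 al1 b0 b1 be0 be1 : k} :
    E2 !![l00, l01; l10, l11] !![k00, k01; k10, k11] (row a0 a1) (row al0 al1) (col b0 b1)
      (col be0 be1) ↔
    (l01 * k10 - k01 * l10 + be0 * a0 + b0 * al0 = 0 ∧
      l00 * k01 + l01 * k11 - k00 * l01 - k01 * l11 + be0 * a1 + b0 * al1 = 0) ∧
    l10 * k00 + l11 * k10 - k10 * l00 - k11 * l10 + be1 * a0 + b1 * al0 = 0 ∧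
      l10 * k01 - k10 * l01 + be1 * a1 + b1 * al1 = 0 := by
  unfold E2
  constructor
  · intro h
    have e : ∀ i j, (!![l00, l01; l10, l11] * !![k00, k01; k10, k11] -
        !![k00, k01; k10, k11] * !![l00, l01; l10, l11] + col be0 be1 * row a0 a1 +
        col b0 b1 * row al0 al1) i j = 0 := fun i j => by rw [h]; rfl
    have e00 := e 0 0
    have e01 := e 0 1
    have e10 := e 1 0
    have e11 := e 1 1
    simp [Matrix.mul_apply, Fin.sum_univ_two] at e00 e01 e10 e11
    refine ⟨⟨?_, ?_⟩, ?_, ?_⟩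
    · linear_combination e00
    · linear_combination e01
    · linear_combination e10
    · linear_combination e11
  · rintro ⟨⟨e00, e01⟩, e10, e11⟩
    ext i j
    fin_cases i <;> fin_cases j <;> simp [Matrix.mul_apply, Fin.sum_univ_two]
    · linear_combination e00
    · linear_combination e01
    · linear_combination e10
    · linear_combination e11

theorem PM.two {a b c d : k → k} (ha : D7.IsPoly a) (hb : D7.IsPoly b) (hc : D7.IsPoly c)
    (hd : D7.IsPoly d) : PM fun s => !![a s, b s; c s, d s] := by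
  intro i j
  fin_cases i <;> fin_cases j
  · exact ha
  · exact hb
  · exact hc
  · exact hd

theorem PM.row {a b : k → k} (ha : D7.IsPoly a) (hb : D7.IsPoly b) :
    PM fun s => R552.row (a s) (b s) := by
  intro i j
  fin_cases j
  · exact ha
  · exact hb

theorem PM.col {a b : k → k} (ha : D7.IsPoly a) (hb : D7.IsPoly b) :
    PM fun s => R552.col (a s) (b s) := by
  intro i j
  fin_cases i
  · exact ha
  · exact hb

/-- singular matrices are products -/
theorem fac {a al b be : k} (h : be * a + b * al = 0) :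
    ∃ x y z w : k, a = x * z ∧ al = x * w ∧ b = y * z ∧ be = -(y * w) := by
  by_cases ha : a = 0
  · by_cases hal : al = 0
    · exact ⟨0, 1, b, -be, by simp [ha], by simp [hal], by simp, by simp⟩
    · have hb : b = 0 := by
        rw [ha, mul_zero, zero_add] at h
        exact (mul_eq_zero.1 h).resolve_right hal
      refine ⟨1, -(be / al), a, al, by simp, by simp, by simp [ha, hb], ?_⟩
      field_simp
  · refine ⟨1, b / a, a, al, by simp, by simp, by field_simp, ?_⟩
    field_simp
    linear_combination h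

section

variable [Infinite k] (hgen : Gen k)
include hgen

theorem stepA {l1 l2 : k} (hl : l1 ≠ l2) {K : Matrix (Fin 2) (Fin 2) k}
    {a al : Matrix Unit (Fin 2) k} {b be : Matrix (Fin 2) Unit k}
    (H : E2 !![l1, 0; 0, l2] K a al b be) : G2 !![l1, 0; 0, l2] K a al b be := by
  rw [Matrix.eta_fin_two K, row_eta a, row_eta al, col_eta b, col_eta be] at H ⊢
  generalize K 0 0 = k00 at *
  generalize K 0 1 = k01 at *
  generalize K 1 0 = k10 at *
  generalize K 1 1 = k11 at *
  generalize a () 0 = a0 at *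
  generalize a () 1 = a1 at *
  generalize al () 0 = al0 at *
  generalize al () 1 = al1 at *
  generalize b 0 () = b0 at *
  generalize b 1 () = b1 at *
  generalize be 0 () = be0 at *
  generalize be 1 () = be1 at *
  rw [E2_iff] at H
  obtain ⟨⟨h00, h01⟩, h10, h11⟩ := H
  obtain ⟨x0, y0, z0, w0, rfl, rfl, rfl, rfl⟩ := fac (a := a0) (al := al0) (b := b0) (be := be0)
    (by linear_combination h00)
  obtain ⟨x1, y1, z1, w1, rfl, rfl, rfl, rfl⟩ := fac (a := a1) (al := al1) (b := b1) (be := be1)
    (by linear_combination h11)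
  have hl' : l1 - l2 ≠ 0 := sub_ne_zero.2 hl
  obtain rfl : k01 = -(l1 - l2)⁻¹ * (-(y0 * w0) * (x1 * z1) + y0 * z0 * (x1 * w1)) := by
    field_simp
    linear_combination h01
  obtain rfl : k10 = (l1 - l2)⁻¹ * (-(y1 * w1) * (x0 * z0) + y1 * z1 * (x0 * w0)) := by
    field_simp
    linear_combination -h10
  have key := fam2 (L := fun _ => !![l1, 0; 0, l2])
    (K := fun s => !![k00, -(l1 - l2)⁻¹ * (-((y0 + s) * w0) * ((x1 + s) * (z1 + s)) +
      (y0 + s) * (z0 + s) * ((x1 + s) * w1));
      (l1 - l2)⁻¹ * (-((y1 + s) * w1) * ((x0 + s) * (z0 + s)) +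
      (y1 + s) * (z1 + s) * ((x0 + s) * w0)), k11])
    (a := fun s => row ((x0 + s) * (z0 + s)) ((x1 + s) * (z1 + s)))
    (al := fun s => row ((x0 + s) * w0) ((x1 + s) * w1))
    (b := fun s => col ((y0 + s) * (z0 + s)) ((y1 + s) * (z1 + s)))
    (be := fun s => col (-((y0 + s) * w0)) (-((y1 + s) * w1)))
    (PM.const _) (PM.two (by
      repeat' (first
        | exact D7.IsPoly.const _ | exact D7.IsPoly.id | apply D7.IsPoly.add
        | apply D7.IsPoly.sub | apply D7.IsPoly.mul | apply D7.IsPoly.neg)) (by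
      repeat' (first
        | exact D7.IsPoly.const _ | exact D7.IsPoly.id | apply D7.IsPoly.add
        | apply D7.IsPoly.sub | apply D7.IsPoly.mul | apply D7.IsPoly.neg)) (by
      repeat' (first
        | exact D7.IsPoly.const _ | exact D7.IsPoly.id | apply D7.IsPoly.add
        | apply D7.IsPoly.sub | apply D7.IsPoly.mul | apply D7.IsPoly.neg)) (by
      repeat' (first
        | exact D7.IsPoly.const _ | exact D7.IsPoly.id | apply D7.IsPoly.add
        | apply D7.IsPoly.sub | apply D7.IsPoly.mul | apply D7.IsPoly.neg))) (PM.row (by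
      repeat' (first
        | exact D7.IsPoly.const _ | exact D7.IsPoly.id | apply D7.IsPoly.add
        | apply D7.IsPoly.sub | apply D7.IsPoly.mul | apply D7.IsPoly.neg)) (by
      repeat' (first
        | exact D7.IsPoly.const _ | exact D7.IsPoly.id | apply D7.IsPoly.add
        | apply D7.IsPoly.sub | apply D7.IsPoly.mul | apply D7.IsPoly.neg)))
    (PM.row (by
      repeat' (first
        | exact D7.IsPoly.const _ | exact D7.IsPoly.id | apply D7.IsPoly.add
        | apply D7.IsPoly.sub | apply D7.IsPoly.mul | apply D7.IsPoly.neg)) (by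
      repeat' (first
        | exact D7.IsPoly.const _ | exact D7.IsPoly.id | apply D7.IsPoly.add
        | apply D7.IsPoly.sub | apply D7.IsPoly.mul | apply D7.IsPoly.neg))) (PM.col (by
      repeat' (first
        | exact D7.IsPoly.const _ | exact D7.IsPoly.id | apply D7.IsPoly.add
        | apply D7.IsPoly.sub | apply D7.IsPoly.mul | apply D7.IsPoly.neg)) (by
      repeat' (first
        | exact D7.IsPoly.const _ | exact D7.IsPoly.id | apply D7.IsPoly.add
        | apply D7.IsPoly.sub | apply D7.IsPoly.mul | apply D7.IsPoly.neg))) (PM.col (by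
      repeat' (first
        | exact D7.IsPoly.const _ | exact D7.IsPoly.id | apply D7.IsPoly.add
        | apply D7.IsPoly.sub | apply D7.IsPoly.mul | apply D7.IsPoly.neg)) (by
      repeat' (first
        | exact D7.IsPoly.const _ | exact D7.IsPoly.id | apply D7.IsPoly.add
        | apply D7.IsPoly.sub | apply D7.IsPoly.mul | apply D7.IsPoly.neg)))
    (E := {-x0, -x1, -y0, -y1, -z0, -z1}) (Set.toFinite _) ?_
  · simpa only [add_zero] using key
  · intro s hs
    simp only [Set.mem_insert_iff, Set.mem_singleton_iff, not_or] at hs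
    obtain ⟨h1, h2, h3, h4, h5, h6⟩ := hs
    have n : ∀ {x : k}, s ≠ -x → x + s ≠ 0 := fun {x} h h' => h (by linear_combination h')
    intro x y N f
    refine hgen _ _ (rel_m _ f (EQ_ex.2 ?_)) l1 l2 hl rfl rfl ?_ ?_ ?_ ?_
    · rw [E2_iff]
      refine ⟨⟨?_, ?_⟩, ?_, ?_⟩
      · ring
      · field_simp
        ring
      · field_simp
        ring
      · ring
    · exact mul_ne_zero (n h1) (n h5)
    · exact mul_ne_zero (n h2) (n h6)
    · exact mul_ne_zero (n h3) (n h5)
    · exact mul_ne_zero (n h4) (n h6)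

end

/-! ### normal forms -/

/-- similar matrices -/
def Sim (L L' : Matrix (Fin 2) (Fin 2) k) : Prop :=
  ∃ g h : Matrix (Fin 2) (Fin 2) k, g * h = 1 ∧ h * g = 1 ∧ g * L * h = L'

theorem Sim.trans {L L' L'' : Matrix (Fin 2) (Fin 2) k} (h1 : Sim L L') (h2 : Sim L' L'') :
    Sim L L'' := by
  obtain ⟨g, h, gh, hg, rfl⟩ := h1
  obtain ⟨g', h', gh', hg', rfl⟩ := h2
  refine ⟨g' * g, h * h', ?_, ?_, ?_⟩
  · calc g' * g * (h * h') = g' * (g * h) * h' := by simp only [Matrix.mul_assoc]
      _ = 1 := by rw [gh, Matrix.mul_one, gh']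
  · calc h * h' * (g' * g) = h * (h' * g') * g := by simp only [Matrix.mul_assoc]
      _ = 1 := by rw [hg', Matrix.mul_one, hg]
  · simp only [Matrix.mul_assoc]

theorem sim_low {p q r t m l : k} (hr : r ≠ 0) (h1 : m + l = p + t) (h2 : m * l = p * t - q * r) :
    Sim !![p, q; r, t] !![m, 0; 1, l] := by
  refine ⟨!![1, -(p - m) / r; 0, 1 / r], !![1, p - m; 0, r], ?_, ?_, ?_⟩
  · ext i j
    fin_cases i <;> fin_cases j <;> simp [Matrix.mul_apply, Fin.sum_univ_two] <;> field_simp
    ring
  · ext i j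
    fin_cases i <;> fin_cases j <;> simp [Matrix.mul_apply, Fin.sum_univ_two] <;> field_simp
    ring
  · have hl : l = p + t - m := by linear_combination h1
    subst hl
    ext i j
    fin_cases i <;> fin_cases j <;> simp [Matrix.mul_apply, Fin.sum_univ_two] <;> field_simp
    · ring
    · linear_combination h2
    · ring

theorem sim_diag {m l : k} (h : m ≠ l) : Sim !![m, 0; 1, l] !![m, 0; 0, l] := by
  have h' : m - l ≠ 0 := sub_ne_zero.2 h
  refine ⟨!![1, 0; -(m - l)⁻¹, 1], !![1, 0; (m - l)⁻¹, 1], ?_, ?_, ?_⟩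
  · ext i j
    fin_cases i <;> fin_cases j <;> simp [Matrix.mul_apply, Fin.sum_univ_two]
  · ext i j
    fin_cases i <;> fin_cases j <;> simp [Matrix.mul_apply, Fin.sum_univ_two]
  · ext i j
    fin_cases i <;> fin_cases j <;> simp [Matrix.mul_apply, Fin.sum_univ_two]
    field_simp
    ring

theorem sim_swap {p q r t : k} : Sim !![p, q; r, t] !![t, r; q, p] := by
  refine ⟨!![0, 1; 1, 0], !![0, 1; 1, 0], ?_, ?_, ?_⟩ <;>
  · ext i j
    fin_cases i <;> fin_cases j <;> simp [Matrix.mul_apply, Fin.sum_univ_two]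

theorem nf [IsAlgClosed k] (L : Matrix (Fin 2) (Fin 2) k) : (∃ c : k, L = c • 1) ∨
    (∃ l1 l2 : k, l1 ≠ l2 ∧ Sim L !![l1, 0; 0, l2]) ∨ ∃ l : k, Sim L !![l, 0; 1, l] := by
  have key : ∀ p q r t : k, r ≠ 0 → (∃ l1 l2 : k, l1 ≠ l2 ∧ Sim !![p, q; r, t] !![l1, 0; 0, l2]) ∨
      ∃ l : k, Sim !![p, q; r, t] !![l, 0; 1, l] := by
    intro p q r t hr
    obtain ⟨m, hm⟩ : ∃ m : k, m * (p + t - m) = p * t - q * r := by
      obtain ⟨z, hz⟩ := IsAlgClosed.exists_pow_nat_eq ((p + t) ^ 2 - 4 * (p * t - q * r))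
        (n := 2) (by norm_num)
      by_cases h2 : (2 : k) = 0
      · -- characteristic two: use an algebraically closed field in general
        obtain ⟨m, hm⟩ := IsAlgClosed.exists_root
          (Polynomial.X ^ 2 - Polynomial.C (p + t) * Polynomial.X + Polynomial.C (p * t - q * r)) (by
            have : (Polynomial.X ^ 2 - Polynomial.C (p + t) * Polynomial.X +
                Polynomial.C (p * t - q * r) : Polynomial k).degree = 2 := by
              compute_degree!
            rw [this]
            norm_num)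
        refine ⟨m, ?_⟩
        simp only [Polynomial.IsRoot.def, Polynomial.eval_add, Polynomial.eval_sub,
          Polynomial.eval_mul, Polynomial.eval_pow, Polynomial.eval_X, Polynomial.eval_C] at hm
        linear_combination (-1 : k) * hm
      · refine ⟨(p + t + z) / 2, ?_⟩
        field_simp
        linear_combination (-1 : k) * hz
    have h1 := sim_low (p := p) (q := q) (r := r) (t := t) (m := m) (l := p + t - m) hr (by ring) hm
    by_cases hml : m = p + t - m
    · right
      refine ⟨m, ?_⟩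
      rwa [← hml] at h1
    · left
      exact ⟨m, p + t - m, hml, h1.trans (sim_diag hml)⟩
  rw [Matrix.eta_fin_two L]
  generalize L 0 0 = p
  generalize L 0 1 = q
  generalize L 1 0 = r
  generalize L 1 1 = t
  by_cases hr : r = 0
  · by_cases hq : q = 0
    · subst hr hq
      by_cases hpt : p = t
      · left
        refine ⟨p, ?_⟩
        ext i j
        fin_cases i <;> fin_cases j <;> simp [hpt]
      · right; left
        exact ⟨p, t, hpt, 1, 1, by simp, by simp, by simp⟩
    · right
      rcases key t r q p hq with ⟨l1, l2, h, h'⟩ | ⟨l, h⟩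
      · exact Or.inl ⟨l1, l2, h, sim_swap.trans h'⟩
      · exact Or.inr ⟨l, sim_swap.trans h⟩
  · right
    exact key p q r t hr

/-- the discriminant -/
def disc (L : Matrix (Fin 2) (Fin 2) k) : k := L.trace ^ 2 - 4 * L.det

theorem Sim.disc {L L' : Matrix (Fin 2) (Fin 2) k} (h : Sim L L') : disc L = disc L' := by
  obtain ⟨g, h, gh, hg, rfl⟩ := h
  unfold R552.disc
  have h1 : (g * L * h).trace = L.trace := by
    rw [Matrix.trace_mul_comm, ← Matrix.mul_assoc, hg, Matrix.one_mul]
  have h2 : (g * L * h).det = L.det := by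
    rw [Matrix.det_mul, Matrix.det_mul]
    have : g.det * h.det = 1 := by rw [← Matrix.det_mul, gh, Matrix.det_one]
    linear_combination L.det * this
  rw [h1, h2]

theorem Sim.G2 {L L' : Matrix (Fin 2) (Fin 2) k} (hs : Sim L L')
    (H : ∀ K a al b be, E2 L' K a al b be → G2 L' K a al b be)
    {K : Matrix (Fin 2) (Fin 2) k} {a al : Matrix Unit (Fin 2) k} {b be : Matrix (Fin 2) Unit k}
    (h : E2 L K a al b be) : G2 L K a al b be := by
  obtain ⟨g, h', gh, hg, rfl⟩ := hs
  exact G2.of_cj g h' gh hg (H _ _ _ _ _ (h.cj g h' hg))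

end R552

end Pool.Agent.Lib.D13
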