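import Pool.Agent.Lib.D13.R552d

/-!
# MP_5dcbc3_ag: Jordan type (5, 5, 2): the triples with `L' = 1`
-/

namespace Pool.Agent.Lib.D13

open Matrix Pool.Agent.Lib.Q5dc Pool.Agent.Lib.D7
open scoped Kronecker

namespace R552

variable {k : Type*} [Field k]

/-- the determinant of the rows `a`, `a L` -/
def cyc (a : Matrix Unit (Fin 2) k) (L : Matrix (Fin 2) (Fin 2) k) : k :=
  a () 0 * (a * L) () 1 - a () 1 * (a * L) () 0

theorem isPoly_entry {m n : Type*} {f : k → Matrix m n k} (hf : PM f) (i : m) (j : n) :
    D7.IsPoly fun s => f s i j := hf i j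

theorem isPoly_cyc {a : k → Matrix Unit (Fin 2) k} {L : k → Matrix (Fin 2) (Fin 2) k}
    (ha : PM a) (hL : PM L) : D7.IsPoly fun s => cyc (a s) (L s) :=
  (((ha () 0).mul ((ha.mul hL) () 1)).sub ((ha () 1).mul ((ha.mul hL) () 0)))

/-- the matrices commuting with a nonscalar one -/
theorem commutant {L M : Matrix (Fin 2) (Fin 2) k} (hL : ∀ c : k, L ≠ c • 1) (h : L * M = M * L) :
    ∃ x y : k, M = x • 1 + y • L := by
  rw [Matrix.eta_fin_two L] at *
  rw [Matrix.eta_fin_two M] at *
  generalize L 0 0 = p at *
  generalize L 0 1 = q at *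
  generalize L 1 0 = r at *
  generalize L 1 1 = t at *
  generalize M 0 0 = a at *
  generalize M 0 1 = b at *
  generalize M 1 0 = c at *
  generalize M 1 1 = d at *
  have e : ∀ i j, (!![p, q; r, t] * !![a, b; c, d] - !![a, b; c, d] * !![p, q; r, t]) i j = 0 :=
    fun i j => by rw [h, sub_self]; rfl
  have e00 := e 0 0
  have e01 := e 0 1
  have e10 := e 1 0
  simp [Matrix.mul_apply, Fin.sum_univ_two] at e00 e01 e10
  by_cases hq : q = 0
  · by_cases hr : r = 0
    · subst hq hr
      have hpt : p - t ≠ 0 := by
        intro hpt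
        apply hL p
        have : t = p := by linear_combination -hpt
        subst this
        ext i j
        fin_cases i <;> fin_cases j <;> simp
      have hb : b = 0 := by
        have : (p - t) * b = 0 := by linear_combination e01
        exact (mul_eq_zero.1 this).resolve_left hpt
      have hc : c = 0 := by
        have : (p - t) * c = 0 := by linear_combination -e10
        exact (mul_eq_zero.1 this).resolve_left hpt
      subst hb hc
      refine ⟨a - (a - d) / (p - t) * p, (a - d) / (p - t), ?_⟩
      ext i j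
      fin_cases i <;> fin_cases j <;> simp
      field_simp
      ring
    · refine ⟨a - c / r * p, c / r, ?_⟩
      ext i j
      fin_cases i <;> fin_cases j <;> simp <;> field_simp
      · linear_combination -e00
      · linear_combination -e10
  · refine ⟨a - b / q * p, b / q, ?_⟩
    ext i j
    fin_cases i <;> fin_cases j <;> simp <;> field_simp
    · linear_combination e00
    · linear_combination e01

section

variable [IsAlgClosed k] [CharZero k] (hgen : Gen k)
include hgen

theorem stepDisc {L K : Matrix (Fin 2) (Fin 2) k} {a al : Matrix Unit (Fin 2) k}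
    {b be : Matrix (Fin 2) Unit k} (hd : disc L ≠ 0) (H : E2 L K a al b be) :
    G2 L K a al b be := by
  rcases nf L with ⟨c, hc⟩ | ⟨l1, l2, hl, hs⟩ | ⟨l, hs⟩
  · exfalso
    apply hd
    rw [hc, disc]
    simp [Matrix.trace_fin_two, Matrix.det_fin_two]
    ring
  · exact hs.G2 (fun K a al b be h => stepA hgen hl h) H
  · exfalso
    apply hd
    rw [hs.disc, disc]
    simp [Matrix.trace_fin_two, Matrix.det_fin_two]
    ring

theorem stepComp {d t : k} {K : Matrix (Fin 2) (Fin 2) k} {al : Matrix Unit (Fin 2) k}
    {b be : Matrix (Fin 2) Unit k} (H : E2 !![0, 1; -d, t] K (row 1 0) al b be) :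
    G2 !![0, 1; -d, t] K (row 1 0) al b be := by
  rw [Matrix.eta_fin_two K, row_eta al, col_eta b, col_eta be] at H ⊢
  generalize K 0 0 = k00 at *
  generalize K 0 1 = k01 at *
  generalize K 1 0 = k10 at *
  generalize K 1 1 = k11 at *
  generalize al () 0 = al0 at *
  generalize al () 1 = al1 at *
  generalize b 0 () = b0 at *
  generalize b 1 () = b1 at *
  generalize be 0 () = be0 at *
  generalize be 1 () = be1 at *
  rw [E2_iff] at H
  obtain ⟨⟨h00, h01⟩, h10, h11⟩ := H
  have key := fam2 (L := fun s => !![0, 1; -d, t + s])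
    (K := fun s => !![k00, k01; k10, k11 + s * k01])
    (a := fun s => row 1 0) (al := fun s => row al0 al1) (b := fun s => col b0 b1)
    (be := fun s => col be0 (be1 - s * (k10 + d * k01)))
    (PM.two (by
      repeat' (first
        | exact D7.IsPoly.const _ | exact D7.IsPoly.id | apply D7.IsPoly.add
        | apply D7.IsPoly.sub | apply D7.IsPoly.mul | apply D7.IsPoly.neg)) (by
      repeat' (first
        | exact D7.IsPoly.const _ | exact D7.IsPoly.id | apply D7.IsPoly.add
        | apply D7.IsPoly.sub | apply D7.IsPoly.mul | apply D7.IsPoly.neg)) (by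
      repeat' (first
        | exact D7.IsPoly.const _ | exact D7.IsPoly.id | apply D7.IsPoly.add
        | apply D7.IsPoly.sub | apply D7.IsPoly.mul | apply D7.IsPoly.neg)) (by
      repeat' (first
        | exact D7.IsPoly.const _ | exact D7.IsPoly.id | apply D7.IsPoly.add
        | apply D7.IsPoly.sub | apply D7.IsPoly.mul | apply D7.IsPoly.neg)))
    (PM.two (by
      repeat' (first
        | exact D7.IsPoly.const _ | exact D7.IsPoly.id | apply D7.IsPoly.add
        | apply D7.IsPoly.sub | apply D7.IsPoly.mul | apply D7.IsPoly.neg)) (by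
      repeat' (first
        | exact D7.IsPoly.const _ | exact D7.IsPoly.id | apply D7.IsPoly.add
        | apply D7.IsPoly.sub | apply D7.IsPoly.mul | apply D7.IsPoly.neg)) (by
      repeat' (first
        | exact D7.IsPoly.const _ | exact D7.IsPoly.id | apply D7.IsPoly.add
        | apply D7.IsPoly.sub | apply D7.IsPoly.mul | apply D7.IsPoly.neg)) (by
      repeat' (first
        | exact D7.IsPoly.const _ | exact D7.IsPoly.id | apply D7.IsPoly.add
        | apply D7.IsPoly.sub | apply D7.IsPoly.mul | apply D7.IsPoly.neg))) (PM.const _)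
    (PM.const _) (PM.const _) (PM.col (by
      repeat' (first
        | exact D7.IsPoly.const _ | exact D7.IsPoly.id | apply D7.IsPoly.add
        | apply D7.IsPoly.sub | apply D7.IsPoly.mul | apply D7.IsPoly.neg)) (by
      repeat' (first
        | exact D7.IsPoly.const _ | exact D7.IsPoly.id | apply D7.IsPoly.add
        | apply D7.IsPoly.sub | apply D7.IsPoly.mul | apply D7.IsPoly.neg)))
    (E := {s | (t + s) * (t + s) - 4 * d = 0}) ?_ ?_
  · simpa only [add_zero, zero_mul, sub_zero] using key
  · have hp : D7.IsPoly fun s : k => (t + s) * (t + s) - 4 * d := by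
      repeat' (first
        | exact D7.IsPoly.const _ | exact D7.IsPoly.id | apply D7.IsPoly.add
        | apply D7.IsPoly.sub | apply D7.IsPoly.mul | apply D7.IsPoly.neg)
    by_cases hd : d = 0
    · refine hp.finite (s₁ := 1 - t) ?_
      subst hd
      simp
    · refine hp.finite (s₁ := -t) ?_
      simp [hd]
  · intro s hs
    refine stepDisc hgen (L := !![0, 1; -d, t + s]) ?_ ?_
    · intro h
      apply hs
      rw [disc] at h
      simp [Matrix.trace_fin_two, Matrix.det_fin_two] at h
      show (t + s) * (t + s) - 4 * d = 0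
      linear_combination h
    · rw [E2_iff]
      refine ⟨⟨?_, ?_⟩, ?_, ?_⟩
      · linear_combination h00
      · linear_combination h01
      · linear_combination h10
      · linear_combination h11

theorem stepBa {L K : Matrix (Fin 2) (Fin 2) k} {a al : Matrix Unit (Fin 2) k}
    {b be : Matrix (Fin 2) Unit k} (hc : cyc a L ≠ 0) (H : E2 L K a al b be) :
    G2 L K a al b be := by
  obtain ⟨g, hg⟩ : ∃ g : Matrix (Fin 2) (Fin 2) k,
      g = !![a () 0, a () 1; (a * L) () 0, (a * L) () 1] := ⟨_, rfl⟩
  have hu : IsUnit g.det := by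
    rw [hg, Matrix.det_fin_two]
    simpa [cyc] using hc
  have gh : g * g⁻¹ = 1 := Matrix.mul_nonsing_inv g hu
  have hg' : g⁻¹ * g = 1 := Matrix.nonsing_inv_mul g hu
  refine G2.of_cj g g⁻¹ gh hg' ?_
  have H' := H.cj g g⁻¹ hg'
  have e1 : a * g⁻¹ = row 1 0 := by
    ext i j
    have h1 : (a * g⁻¹) i j = (g * g⁻¹) 0 j := by
      rw [Matrix.mul_apply, Matrix.mul_apply, Fin.sum_univ_two, Fin.sum_univ_two]
      have g0 : g 0 0 = a () 0 := by rw [hg]; rfl
      have g1 : g 0 1 = a () 1 := by rw [hg]; rfl
      rw [g0, g1]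
    rw [h1, gh]
    fin_cases j
    · exact Matrix.one_apply_eq _
    · exact Matrix.one_apply_ne (by decide)
  have e2 : ∀ j, (g * L * g⁻¹) 0 j = (1 : Matrix (Fin 2) (Fin 2) k) 1 j := by
    intro j
    rw [← gh, Matrix.mul_apply, Matrix.mul_apply, Fin.sum_univ_two, Fin.sum_univ_two]
    have g0 : (g * L) 0 0 = g 1 0 := by
      rw [Matrix.mul_apply, Fin.sum_univ_two, hg]
      simp [Matrix.mul_apply, Fin.sum_univ_two]
    have g1 : (g * L) 0 1 = g 1 1 := by
      rw [Matrix.mul_apply, Fin.sum_univ_two, hg]
      simp [Matrix.mul_apply, Fin.sum_univ_two]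
    rw [g0, g1]
  have e3 : g * L * g⁻¹ = !![0, 1; -(-(g * L * g⁻¹) 1 0), (g * L * g⁻¹) 1 1] := by
    ext i j
    fin_cases i
    · fin_cases j
      · simpa using e2 0
      · simpa using e2 1
    · fin_cases j <;> simp
  rw [e1] at H' ⊢
  rw [e3] at H' ⊢
  exact stepComp hgen H'

theorem stepBb {L K : Matrix (Fin 2) (Fin 2) k} {a al : Matrix Unit (Fin 2) k}
    {b be : Matrix (Fin 2) Unit k} {s₁ : k} (hc : cyc (a + s₁ • al) L ≠ 0)
    (H : E2 L K a al b be) : G2 L K a al b be := by
  have key := fam2 (L := fun _ => L) (K := fun _ => K) (a := fun s => a + s • al)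
    (al := fun _ => al) (b := fun s => b - s • be) (be := fun _ => be)
    (PM.const _) (PM.const _) ((PM.const _).add (PM.smul D7.IsPoly.id (PM.const _)))
    (PM.const _) ((PM.const _).sub (PM.smul D7.IsPoly.id (PM.const _))) (PM.const _)
    (E := {s | cyc (a + s • al) L = 0}) ?_ ?_
  · simpa using key
  · exact (isPoly_cyc ((PM.const _).add (PM.smul D7.IsPoly.id (PM.const _)))
      (PM.const L)).finite hc
  · intro s hs
    refine stepBa hgen hs ?_
    have h1 : L * K - K * L + be * a + b * al = 0 := H
    show L * K - K * L + be * (a + s • al) + (b - s • be) * al = 0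
    rw [← h1]
    simp only [Matrix.mul_add, Matrix.sub_mul, Matrix.mul_smul, Matrix.smul_mul]
    abel

theorem stepBc {l : k} {K : Matrix (Fin 2) (Fin 2) k} {a al : Matrix Unit (Fin 2) k}
    {b be : Matrix (Fin 2) Unit k} (H : E2 !![l, 0; 1, l] K a al b be) :
    G2 !![l, 0; 1, l] K a al b be := by
  by_cases hc : ∃ s₁ : k, cyc (a + s₁ • al) !![l, 0; 1, l] ≠ 0
  · obtain ⟨s₁, hs⟩ := hc
    exact stepBb hgen hs H
  push Not at hc
  rw [Matrix.eta_fin_two K, row_eta a, row_eta al, col_eta b, col_eta be] at H ⊢
  have c0 := hc 0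
  have c1 := hc 1
  simp [cyc, Matrix.mul_apply, Fin.sum_univ_two] at c0 c1
  generalize K 0 0 = k00 at *
  generalize K 0 1 = k01 at *
  generalize K 1 0 = k10 at *
  generalize K 1 1 = k11 at *
  generalize a () 0 = a0 at *
  generalize a () 1 = a1 at *
  generalize al () 0 = al0 at *
  generalize al () 1 = al1 at *
  generalize b 0 () = b0 at *
  generalize b 1 () = b1 at *
  generalize be 0 () = be0 at *
  generalize be 1 () = be1 at *
  obtain rfl : a1 = 0 := by
    have : a1 * a1 = 0 := by linear_combination -c0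
    exact mul_self_eq_zero.1 this
  obtain rfl : al1 = 0 := by
    have : al1 * al1 = 0 := by linear_combination -c1
    exact mul_self_eq_zero.1 this
  rw [E2_iff] at H
  obtain ⟨⟨h00, h01⟩, h10, h11⟩ := H
  have hk : k01 = 0 := by linear_combination h11
  subst hk
  have key := fam2 (L := fun s => !![l + s, 0; 1, l])
    (K := fun s => !![k00 + s * k10, 0; k10, k11])
    (a := fun s => row a0 0) (al := fun s => row al0 0) (b := fun s => col b0 b1)
    (be := fun s => col be0 be1)
    (PM.two (by
      repeat' (first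
        | exact D7.IsPoly.const _ | exact D7.IsPoly.id | apply D7.IsPoly.add
        | apply D7.IsPoly.sub | apply D7.IsPoly.mul | apply D7.IsPoly.neg)) (by
      repeat' (first
        | exact D7.IsPoly.const _ | exact D7.IsPoly.id | apply D7.IsPoly.add
        | apply D7.IsPoly.sub | apply D7.IsPoly.mul | apply D7.IsPoly.neg)) (by
      repeat' (first
        | exact D7.IsPoly.const _ | exact D7.IsPoly.id | apply D7.IsPoly.add
        | apply D7.IsPoly.sub | apply D7.IsPoly.mul | apply D7.IsPoly.neg)) (by
      repeat' (first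
        | exact D7.IsPoly.const _ | exact D7.IsPoly.id | apply D7.IsPoly.add
        | apply D7.IsPoly.sub | apply D7.IsPoly.mul | apply D7.IsPoly.neg)))
    (PM.two (by
      repeat' (first
        | exact D7.IsPoly.const _ | exact D7.IsPoly.id | apply D7.IsPoly.add
        | apply D7.IsPoly.sub | apply D7.IsPoly.mul | apply D7.IsPoly.neg)) (by
      repeat' (first
        | exact D7.IsPoly.const _ | exact D7.IsPoly.id | apply D7.IsPoly.add
        | apply D7.IsPoly.sub | apply D7.IsPoly.mul | apply D7.IsPoly.neg)) (by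
      repeat' (first
        | exact D7.IsPoly.const _ | exact D7.IsPoly.id | apply D7.IsPoly.add
        | apply D7.IsPoly.sub | apply D7.IsPoly.mul | apply D7.IsPoly.neg)) (by
      repeat' (first
        | exact D7.IsPoly.const _ | exact D7.IsPoly.id | apply D7.IsPoly.add
        | apply D7.IsPoly.sub | apply D7.IsPoly.mul | apply D7.IsPoly.neg))) (PM.const _)
    (PM.const _) (PM.const _) (PM.const _)
    (E := {0}) (Set.finite_singleton _) ?_
  · simpa only [add_zero, zero_mul, sub_zero] using key
  · intro s hs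
    refine stepDisc hgen (L := !![l + s, 0; 1, l]) ?_ ?_
    · intro h
      apply hs
      rw [disc] at h
      simp [Matrix.trace_fin_two, Matrix.det_fin_two] at h
      have : s * s = 0 := by linear_combination h
      exact mul_self_eq_zero.1 this
    · rw [E2_iff]
      refine ⟨⟨?_, ?_⟩, ?_, ?_⟩
      · linear_combination h00
      · linear_combination h01
      · linear_combination h10
      · linear_combination h11

theorem stepNS {L K : Matrix (Fin 2) (Fin 2) k} {a al : Matrix Unit (Fin 2) k}
    {b be : Matrix (Fin 2) Unit k} (hL : ∀ c : k, L ≠ c • 1) (H : E2 L K a al b be) :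
    G2 L K a al b be := by
  rcases nf L with ⟨c, hc⟩ | ⟨l1, l2, hl, hs⟩ | ⟨l, hs⟩
  · exact absurd hc (hL c)
  · exact hs.G2 (fun K a al b be h => stepA hgen hl h) H
  · exact hs.G2 (fun K a al b be h => stepBc hgen h) H

theorem step2 {L K : Matrix (Fin 2) (Fin 2) k} {a al : Matrix Unit (Fin 2) k}
    {b be : Matrix (Fin 2) Unit k} (H : E2 L K a al b be) : G2 L K a al b be := by
  by_cases hL : ∃ c : k, L = c • 1
  · obtain ⟨c, rfl⟩ := hL
    obtain ⟨D, hD, hDK⟩ : ∃ D : Matrix (Fin 2) (Fin 2) k, (∀ x : k, D ≠ x • 1) ∧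
        D * K = K * D := by
      by_cases hK : ∃ x : k, K = x • 1
      · obtain ⟨x, rfl⟩ := hK
        refine ⟨!![1, 0; 0, 0], fun x hx => ?_, by simp⟩
        have h0 := congrFun (congrFun hx 0) 0
        have h1 := congrFun (congrFun hx 1) 1
        simp at h0 h1
        rw [← h1] at h0
        exact one_ne_zero h0
      · push Not at hK
        exact ⟨K, hK, rfl⟩
    have key := fam2 (L := fun s => c • 1 + s • D) (K := fun _ => K) (a := fun _ => a)
      (al := fun _ => al) (b := fun _ => b) (be := fun _ => be)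
      ((PM.const _).add (PM.smul D7.IsPoly.id (PM.const _))) (PM.const _) (PM.const _)
      (PM.const _) (PM.const _) (PM.const _) (E := {0}) (Set.finite_singleton _) ?_
    · simpa using key
    · intro s hs
      refine stepNS hgen (fun x hx => hD (s⁻¹ * (x - c)) ?_) ?_
      · have hs' : s ≠ 0 := hs
        have : s • D = (x - c) • 1 := by
          rw [sub_smul, ← hx]
          abel
        rw [mul_smul, ← this, smul_smul, inv_mul_cancel₀ hs', one_smul]
      · have h1 : (c • (1 : Matrix (Fin 2) (Fin 2) k)) * K - K * (c • 1) + be * a + b * al = 0 := H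
        show (c • 1 + s • D) * K - K * (c • 1 + s • D) + be * a + b * al = 0
        rw [← h1]
        simp only [Matrix.mul_add, Matrix.add_mul, Matrix.mul_smul, Matrix.smul_mul, hDK]
        abel
  · push Not at hL
    exact stepNS hgen hL H

theorem stepR {p : Pm k} (H : EQ p) : GG p := by
  have key : ∀ p : Pm k, (∀ c : k, p.L ≠ c • 1) → EQ p → GG p := by
    intro p hL H
    obtain ⟨x, y, h⟩ := commutant hL H.e1
    have e : p = ex p.L (p.K - y • p.N1) p.a p.al p.b p.be x y p.N1 := by
      obtain ⟨L, M, N1, K, a, al, b, be⟩ := p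
      simp only at h
      simp only [ex, Pm.mk.injEq, true_and, and_true]
      refine ⟨h, ?_⟩
      abel
    rw [e] at H ⊢
    exact step2 hgen (EQ_ex.1 H) x y _
  by_cases hL : ∃ c : k, p.L = c • 1
  · obtain ⟨c, hc⟩ := hL
    by_cases hM : ∃ x : k, p.M = x • 1
    · obtain ⟨x, hx⟩ := hM
      have e : p = ex p.L p.K p.a p.al p.b p.be x 0 p.N1 := by
        obtain ⟨L, M, N1, K, a, al, b, be⟩ := p
        simp only at hx
        simp [ex, hx]
      rw [e] at H ⊢
      exact step2 hgen (EQ_ex.1 H) x 0 _
    · push Not at hM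
      have k2 := famP (c := fun s => ⟨p.L + s • p.M, p.M, p.N1 + s • p.K, p.K, p.a, p.al, p.b,
        p.be⟩) ⟨((PM.const _).add (PM.smul D7.IsPoly.id (PM.const _))), PM.const _,
          ((PM.const _).add (PM.smul D7.IsPoly.id (PM.const _))), PM.const _, PM.const _,
          PM.const _, PM.const _, PM.const _⟩ (E := {0}) (Set.finite_singleton _) ?_
      · simpa using k2
      · intro s hs
        refine key _ ?_ ⟨?_, ?_⟩
        · intro x hx
          have hs' : s ≠ 0 := hs
          simp only at hx
          apply hM (s⁻¹ * (x - c))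
          have : s • p.M = (x - c) • 1 := by
            rw [sub_smul, ← hx, hc]
            abel
          rw [mul_smul, ← this, smul_smul, inv_mul_cancel₀ hs', one_smul]
        · simp only [Matrix.mul_add, Matrix.add_mul, Matrix.mul_smul, Matrix.smul_mul, H.e1]
        · refine Eq.trans ?_ H.e2
          simp only [Matrix.mul_add, Matrix.add_mul, Matrix.mul_smul, Matrix.smul_mul]
          abel
  · push Not at hL
    exact key p hL H

/-- the case `L' = 1` -/
theorem reg1 {D D' : Dt k} (h : Rel D D') (h1 : D'.L = 1) : G D D' := by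
  obtain ⟨p, f, hp, rfl, rfl⟩ := exists_m h h1
  exact stepR hgen hp f

/-- the case `L' = c`, `c ≠ 0` -/
theorem reg {D D' : Dt k} (h : Rel D D') {c : k} (hc : c ≠ 0) (h1 : D'.L = c • 1) : G D D' := by
  refine G.smul_right (c := c⁻¹) (inv_ne_zero hc) (reg1 hgen (h.smul_right _) ?_)
  show c⁻¹ • D'.L + (0 : k) • D.L = 1
  rw [h1, smul_smul, inv_mul_cancel₀ hc, one_smul, zero_smul, add_zero]

end

end R552

end Pool.Agent.Lib.D13
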