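import Pool.Agent.Lib.D13.R552e

/-!
# MP_5dcbc3_ag: Jordan type (5, 5, 2): the remaining triples
-/

namespace Pool.Agent.Lib.D13

open Matrix Pool.Agent.Lib.Q5dc Pool.Agent.Lib.D7
open scoped Kronecker

namespace R552

variable {k : Type*} [Field k]

section

variable [IsAlgClosed k] [CharZero k] (hgen : Gen k)
include hgen

/-- `L' = 0`, `a' = 0`, `b' = 0`, `L` invertible -/
theorem caseZ1 {D D' : Dt k} (h : Rel D D') (hL : D'.L = 0) (ha : D'.a = 0) (hb : D'.b = 0)
    (hu : IsUnit D.L.det) : G D D' := by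
  obtain ⟨L, N1, N2, N3, a, a1, b, b1⟩ := D
  obtain ⟨L', N1', N2', N3', a', a1', b', b1'⟩ := D'
  simp only at hL ha hb hu
  subst hL ha hb
  have u1 : L * L⁻¹ = 1 := Matrix.mul_nonsing_inv L hu
  have u2 : L⁻¹ * L = 1 := Matrix.nonsing_inv_mul L hu
  obtain ⟨q, rfl⟩ : ∃ q : Matrix Unit (Fin 2) k, a = q * L :=
    ⟨a * L⁻¹, by rw [Matrix.mul_assoc, u2, Matrix.mul_one]⟩
  obtain ⟨p, rfl⟩ : ∃ p : Matrix (Fin 2) Unit k, b = L * p :=
    ⟨L⁻¹ * b, by rw [← Matrix.mul_assoc, u1, Matrix.one_mul]⟩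
  obtain ⟨x, rfl⟩ : ∃ x : Matrix Unit (Fin 2) k, a1 = x * L + q * N1 :=
    ⟨(a1 - q * N1) * L⁻¹, by rw [Matrix.mul_assoc, u2, Matrix.mul_one]; abel⟩
  obtain ⟨y, rfl⟩ : ∃ y : Matrix (Fin 2) Unit k, b1 = L * y + N1 * p :=
    ⟨L⁻¹ * (b1 - N1 * p), by rw [← Matrix.mul_assoc, u1, Matrix.one_mul]; abel⟩
  have key := fam (PD.const (⟨L, N1, N2, N3, q * L, x * L + q * N1, L * p, L * y + N1 * p⟩ : Dt k))
    (PD.line (⟨0, N1', N2', N3', 0, a1', 0, b1'⟩ : Dt k)
      ⟨1, -(p * q), -(p * x + y * q), 0, q, x, p, y⟩) (E := {0}) (Set.finite_singleton _) ?_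
  · simpa [lc] using key
  · intro s hs
    have hs' : s ≠ 0 := hs
    refine reg hgen ?_ hs' (by simp [lc])
    have h2 := h.r2
    have h3 := h.r3
    simp only [Matrix.mul_zero, Matrix.zero_mul, add_zero, zero_add] at h2 h3
    refine ⟨?_, ?_, ?_, ?_, ?_⟩
    · simp [lc]
    · simp only [lc, one_smul, smul_zero, zero_add, Matrix.mul_add, Matrix.add_mul,
        Matrix.mul_smul, Matrix.smul_mul, Matrix.mul_neg, Matrix.neg_mul, Matrix.mul_one,
        Matrix.one_mul, h2, smul_neg, Matrix.mul_assoc]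
      abel
    · rw [← sub_eq_zero] at h3 ⊢
      refine Eq.trans ?_ h3
      simp only [lc, one_smul, smul_zero, zero_add, add_zero, Matrix.mul_add, Matrix.add_mul,
        Matrix.mul_smul, Matrix.smul_mul, Matrix.mul_neg, Matrix.neg_mul, Matrix.mul_one,
        Matrix.one_mul, smul_neg, smul_add, Matrix.mul_assoc, neg_add_rev, Matrix.zero_mul,
        Matrix.mul_zero]
      abel
    · simp [lc]
    · simp [lc]

/-- `L' = 0`, `a' = 0`, `b' = 0` -/
theorem caseZ {D D' : Dt k} (h : Rel D D') (hL : D'.L = 0) (ha : D'.a = 0) (hb : D'.b = 0) :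
    G D D' := by
  obtain ⟨L, N1, N2, N3, a, a1, b, b1⟩ := D
  obtain ⟨L', N1', N2', N3', a', a1', b', b1'⟩ := D'
  simp only at hL ha hb
  subst hL ha hb
  have key := fam (PD.line (⟨L, N1, N2, N3, a, a1, b, b1⟩ : Dt k) ⟨1, 0, 0, 0, 0, 0, 0, 0⟩)
    (PD.const (⟨0, N1', N2', N3', 0, a1', 0, b1'⟩ : Dt k))
    (E := {s | (L 0 0 + s) * (L 1 1 + s) - L 0 1 * L 1 0 = 0}) ?_ ?_
  · simpa [lc] using key
  · have hp : D7.IsPoly fun s : k => (L 0 0 + s) * (L 1 1 + s) - L 0 1 * L 1 0 := by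
      repeat' (first
        | exact D7.IsPoly.const _ | exact D7.IsPoly.id | apply D7.IsPoly.add
        | apply D7.IsPoly.sub | apply D7.IsPoly.mul | apply D7.IsPoly.neg)
    obtain ⟨s₁, hs⟩ : ∃ s₁ : k, (L 0 0 + s₁) * (L 1 1 + s₁) - L 0 1 * L 1 0 ≠ 0 := by
      by_contra hc
      push Not at hc
      have h1 := hc (-L 0 0)
      have h2 := hc (1 - L 0 0)
      have h3 := hc (2 - L 0 0)
      have : (2 : k) = 0 := by linear_combination h3 - 2 * h2 + h1
      exact two_ne_zero this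
    exact hp.finite hs
  · intro s hs
    refine caseZ1 hgen ?_ rfl rfl rfl ?_
    · have h2 := h.r2
      have h3 := h.r3
      simp only [Matrix.mul_zero, Matrix.zero_mul, add_zero, zero_add] at h2 h3
      refine ⟨?_, ?_, ?_, ?_, ?_⟩
      · simp [lc]
      · simp only [lc, one_smul, smul_zero, add_zero, Matrix.mul_add, Matrix.add_mul,
          Matrix.mul_smul, Matrix.smul_mul, Matrix.mul_one, Matrix.one_mul, h2, Matrix.mul_zero,
          Matrix.zero_mul]
        abel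
      · rw [← sub_eq_zero] at h3 ⊢
        refine Eq.trans ?_ h3
        simp only [lc, one_smul, smul_zero, zero_add, add_zero, Matrix.mul_add, Matrix.add_mul,
          Matrix.mul_smul, Matrix.smul_mul, Matrix.mul_one, Matrix.one_mul, Matrix.zero_mul,
          Matrix.mul_zero]
        abel
      · simp [lc]
      · simp [lc]
    · have hs' : (L 0 0 + s) * (L 1 1 + s) - L 0 1 * L 1 0 ≠ 0 := hs
      rw [isUnit_iff_ne_zero, Matrix.det_fin_two]
      simpa [lc] using hs'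

/-- `L = 0`, `L' = 0`, `a`, `a'` linearly independent, in normal form -/
theorem caseR1 {N1 N2 N3 N1' N2' N3' : Matrix (Fin 2) (Fin 2) k} {a1 a1' : Matrix Unit (Fin 2) k}
    {b1 b1' : Matrix (Fin 2) Unit k}
    (h : Rel ⟨0, N1, N2, N3, row 1 0, a1, 0, b1⟩ ⟨0, N1', N2', N3', row 0 1, a1', 0, b1'⟩) :
    G ⟨0, N1, N2, N3, row 1 0, a1, 0, b1⟩ ⟨0, N1', N2', N3', row 0 1, a1', 0, b1'⟩ := by
  have key := fam (PD.line (⟨0, N1, N2, N3, row 1 0, a1, 0, b1⟩ : Dt k)
      ⟨!![0, 0; 1, 0], 0, 0, 0, 0, 0, col 0 (-N1' 0 1),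
        -(col 0 (N2' 0 1) + a1' () 1 • col 0 (-N1' 0 1) -
          a1 () 1 • col (-N1' 0 1) (N1' 0 0 - N1' 1 1))⟩)
    (PD.line (⟨0, N1', N2', N3', row 0 1, a1', 0, b1'⟩ : Dt k)
      ⟨1, 0, 0, 0, 0, 0, col (-N1' 0 1) (N1' 0 0 - N1' 1 1),
        col (-N2' 0 1) (N2' 0 0 - N2' 1 1) + a1' () 0 • col 0 (-N1' 0 1) -
          a1 () 0 • col (-N1' 0 1) (N1' 0 0 - N1' 1 1)⟩) (E := {0}) (Set.finite_singleton _) ?_
  · simpa [lc] using key
  · intro s hs
    have hs' : s ≠ 0 := hs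
    refine reg hgen ?_ hs' (by simp [lc])
    have h3 := h.r3
    simp only [Matrix.mul_zero, Matrix.zero_mul, add_zero, zero_add] at h3
    rw [← sub_eq_zero] at h3
    have e : ∀ i j, (N1 * N1' + b1 * row (0 : k) 1 - (N1' * N1 + b1' * row (1 : k) 0)) i j = 0 :=
      fun i j => by rw [h3]; rfl
    have e00 := e 0 0
    have e01 := e 0 1
    have e10 := e 1 0
    have e11 := e 1 1
    simp [Matrix.mul_apply, Fin.sum_univ_two] at e00 e01 e10 e11
    refine ⟨?_, ?_, ?_, ?_, ?_⟩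
    · simp [lc]
    · ext i j
      fin_cases i <;> fin_cases j <;>
        simp [lc, Matrix.mul_apply, Fin.sum_univ_two, Matrix.vecMul, dotProduct] <;> ring
    · ext i j
      fin_cases i <;> fin_cases j <;>
        simp [lc, Matrix.mul_apply, Fin.sum_univ_two, Matrix.vecMul, dotProduct]
      · linear_combination e00
      · linear_combination e01
      · linear_combination e10
      · linear_combination e11
    · ext i j
      fin_cases j <;> simp [lc, Matrix.mul_apply, Fin.sum_univ_two]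
    · ext i j
      fin_cases i <;> simp [lc, Matrix.mul_apply, Fin.sum_univ_two]

/-- `L = 0`, `L' = 0`, `a`, `a'` linearly independent -/
theorem caseR {D D' : Dt k} (h : Rel D D') (hL : D.L = 0) (hL' : D'.L = 0)
    (hd : D.a () 0 * D'.a () 1 - D.a () 1 * D'.a () 0 ≠ 0) : G D D' := by
  have r2 := h.r2
  rw [hL, hL'] at r2
  simp only [Matrix.mul_zero, Matrix.zero_mul, add_zero, zero_add] at r2
  have e : ∀ i j, (D.b * D'.a) i j = (D'.b * D.a) i j := fun i j => by rw [r2]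
  have hb : D.b = 0 := by
    ext i j
    have h0 := e i 0
    have h1 := e i 1
    simp [Matrix.mul_apply] at h0 h1
    have : D.b i () * (D.a () 0 * D'.a () 1 - D.a () 1 * D'.a () 0) = 0 := by
      linear_combination D.a () 0 * h1 - D.a () 1 * h0
    exact (mul_eq_zero.1 this).resolve_right hd
  have hb' : D'.b = 0 := by
    ext i j
    have h0 := e i 0
    have h1 := e i 1
    simp [Matrix.mul_apply] at h0 h1
    have : D'.b i () * (D.a () 0 * D'.a () 1 - D.a () 1 * D'.a () 0) = 0 := by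
      linear_combination D'.a () 0 * h1 - D'.a () 1 * h0
    exact (mul_eq_zero.1 this).resolve_right hd
  obtain ⟨g, hg⟩ : ∃ g : Matrix (Fin 2) (Fin 2) k,
      g = !![D.a () 0, D.a () 1; D'.a () 0, D'.a () 1] := ⟨_, rfl⟩
  have hu : IsUnit g.det := by
    rw [hg, Matrix.det_fin_two, isUnit_iff_ne_zero]
    simpa using hd
  have gh : g * g⁻¹ = 1 := Matrix.mul_nonsing_inv g hu
  have hg' : g⁻¹ * g = 1 := Matrix.nonsing_inv_mul g hu
  refine G.of_cj g g⁻¹ gh hg' ?_
  have h' := h.cj g g⁻¹ hg'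
  have e1 : D.a * g⁻¹ = row 1 0 := by
    ext i j
    have h1 : (D.a * g⁻¹) i j = (g * g⁻¹) 0 j := by
      rw [Matrix.mul_apply, Matrix.mul_apply, Fin.sum_univ_two, Fin.sum_univ_two]
      have g0 : g 0 0 = D.a () 0 := by rw [hg]; rfl
      have g1 : g 0 1 = D.a () 1 := by rw [hg]; rfl
      rw [g0, g1]
    rw [h1, gh]
    fin_cases j
    · exact Matrix.one_apply_eq _
    · exact Matrix.one_apply_ne (by decide)
  have e2 : D'.a * g⁻¹ = row 0 1 := by
    ext i j
    have h1 : (D'.a * g⁻¹) i j = (g * g⁻¹) 1 j := by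
      rw [Matrix.mul_apply, Matrix.mul_apply, Fin.sum_univ_two, Fin.sum_univ_two]
      have g0 : g 1 0 = D'.a () 0 := by rw [hg]; rfl
      have g1 : g 1 1 = D'.a () 1 := by rw [hg]; rfl
      rw [g0, g1]
    rw [h1, gh]
    fin_cases j
    · exact Matrix.one_apply_ne (by decide)
    · exact Matrix.one_apply_eq _
  have f1 : cj g g⁻¹ D = ⟨0, g * D.N1 * g⁻¹, g * D.N2 * g⁻¹, g * D.N3 * g⁻¹, row 1 0,
      D.a1 * g⁻¹, 0, g * D.b1⟩ := by
    simp only [cj, hL, hb, e1, Matrix.mul_zero, Matrix.zero_mul]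
  have f2 : cj g g⁻¹ D' = ⟨0, g * D'.N1 * g⁻¹, g * D'.N2 * g⁻¹, g * D'.N3 * g⁻¹, row 0 1,
      D'.a1 * g⁻¹, 0, g * D'.b1⟩ := by
    simp only [cj, hL', hb', e2, Matrix.mul_zero, Matrix.zero_mul]
  rw [f1, f2] at h' ⊢
  exact caseR1 hgen h'

/-- `L = 0`, `L' = 0`, `a ≠ 0`, `a'` a multiple of `a` -/
theorem caseO1 {D D' : Dt k} (h : Rel D D') (hL : D.L = 0) (hL' : D'.L = 0)
    (hd : D.a () 0 * D'.a () 1 - D.a () 1 * D'.a () 0 = 0) (ha : D.a ≠ 0) : G D D' := by
  obtain ⟨c, hc⟩ : ∃ c : k, D'.a = c • D.a := by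
    by_cases h0 : D.a () 0 = 0
    · have h1 : D.a () 1 ≠ 0 := by
        intro h1
        apply ha
        ext i j
        fin_cases j
        · exact h0
        · exact h1
      refine ⟨D'.a () 1 / D.a () 1, ?_⟩
      ext i j
      rw [h0] at hd
      have h2 : D'.a () 0 = 0 := by
        have : D.a () 1 * D'.a () 0 = 0 := by linear_combination -hd
        exact (mul_eq_zero.1 this).resolve_left h1
      fin_cases j
      · show D'.a () 0 = D'.a () 1 / D.a () 1 * D.a () 0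
        rw [h0, h2, mul_zero]
      · show D'.a () 1 = D'.a () 1 / D.a () 1 * D.a () 1
        field_simp
    · refine ⟨D'.a () 0 / D.a () 0, ?_⟩
      ext i j
      fin_cases j
      · show D'.a () 0 = D'.a () 0 / D.a () 0 * D.a () 0
        field_simp
      · show D'.a () 1 = D'.a () 0 / D.a () 0 * D.a () 1
        field_simp
        linear_combination hd
  refine G.sub_right (c := c) ?_
  have h' := h.sub_right c
  have eL : (lc 1 D' (-c) D).L = 0 := by simp [lc, hL, hL']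
  have ea : (lc 1 D' (-c) D).a = 0 := by simp [lc, hc]
  refine caseZ hgen h' eL ea ?_
  have r2 := h'.r2
  rw [eL, ea, hL] at r2
  simp only [Matrix.mul_zero, Matrix.zero_mul, add_zero, zero_add] at r2
  have e : ∀ i j, ((lc 1 D' (-c) D).b * D.a) i j = 0 := fun i j => by rw [← r2]; rfl
  ext i j
  by_contra hb
  apply ha
  ext i' j'
  have := e i j'
  simp [Matrix.mul_apply] at this
  rcases this with h1 | h1
  · exact absurd h1 hb
  · exact h1

/-- `L = 0`, `L' = 0` -/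
theorem caseO {D D' : Dt k} (h : Rel D D') (hL : D.L = 0) (hL' : D'.L = 0) : G D D' := by
  have main : ∀ {D D' : Dt k}, Rel D D' → D.L = 0 → D'.L = 0 → (D.a ≠ 0 ∨ D'.a ≠ 0) →
      G D D' := by
    intro D D' h hL hL' ha
    by_cases hd : D.a () 0 * D'.a () 1 - D.a () 1 * D'.a () 0 = 0
    · rcases ha with ha | ha
      · exact caseO1 hgen h hL hL' hd ha
      · exact (caseO1 hgen h.swap hL' hL (by linear_combination -hd) ha).swap
    · exact caseR hgen h hL hL' hd
  by_cases ha : D.a ≠ 0 ∨ D'.a ≠ 0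
  · exact main h hL hL' ha
  by_cases hb : D.b ≠ 0 ∨ D'.b ≠ 0
  · refine G.of_du (main h.du (by simp [du, hL]) (by simp [du, hL']) ?_)
    simpa [du] using hb
  push Not at ha hb
  exact caseZ hgen h hL' ha.2 hb.2

end

end R552

end Pool.Agent.Lib.D13
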