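import Pool.Agent.Lib.D13.R552f

/-!
# MP_5dcbc3_ag: Jordan type (5, 5, 2): all triples are limits
-/

namespace Pool.Agent.Lib.D13

open Matrix Pool.Agent.Lib.Q5dc Pool.Agent.Lib.D7
open scoped Kronecker

namespace R552

variable {k : Type*} [Field k]

section

variable [IsAlgClosed k] [CharZero k] (hgen : Gen k)
include hgen

/-- `L' = 0`, `a' ≠ 0`, `L ≠ 0` in normal form -/
theorem caseN1 {t σ b0 κ : k} {U N2 N3 N M N3' : Matrix (Fin 2) (Fin 2) k}
    {A A' : Matrix Unit (Fin 2) k} {b' c c' : Matrix (Fin 2) Unit k}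
    (h : Rel ⟨!![0, 0; 1, t], U, N2, N3, row 0 σ, A, col b0 κ, c⟩
      ⟨0, N, M, N3', row 1 0, A', b', c'⟩) :
    G ⟨!![0, 0; 1, t], U, N2, N3, row 0 σ, A, col b0 κ, c⟩
      ⟨0, N, M, N3', row 1 0, A', b', c'⟩ := by
  have key := fam (PD.line (⟨!![0, 0; 1, t], U, N2, N3, row 0 σ, A, col b0 κ, c⟩ : Dt k)
      ⟨!![0, σ; 0, 0], !![0, A () 1; 0, 0], 0, 0, 0, 0, 0, col (κ * A () 0) 0⟩)
    (PD.line (⟨0, N, M, N3', row 1 0, A', b', c'⟩ : Dt k)
      ⟨1, !![0, σ * N 1 0; 0, 0], !![0, σ * M 1 0 - U 1 0 * σ * N 1 0 + N 1 0 * A () 1; 0, 0], 0,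
        0, 0, col κ 0, col (N 1 0 * (U 0 0 - U 1 1 + t * U 1 0) + M 1 1 - M 0 0 - t * M 1 0) 0⟩)
    (E := {0}) (Set.finite_singleton _) ?_
  · simpa [lc] using key
  · intro s hs
    have hs' : s ≠ 0 := hs
    refine reg hgen ?_ hs' (by simp [lc])
    have h2 := h.r2
    have h3 := h.r3
    have h5 := h.r5
    simp only [Matrix.mul_zero, Matrix.zero_mul, add_zero, zero_add] at h2 h3 h5
    have e2 : ∀ i j, (!![0, 0; 1, t] * N + col b0 κ * row (1 : k) 0) i j =
        (N * !![0, 0; 1, t] + b' * row (0 : k) σ) i j := fun i j => by rw [h2]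
    have e20 := e2 0 0
    have e21 := e2 0 1
    have e22 := e2 1 0
    have e23 := e2 1 1
    have e3 : ∀ i j, (!![0, 0; 1, t] * M + U * N + c * row (1 : k) 0 + col b0 κ * A') i j =
        (N * U + M * !![0, 0; 1, t] + c' * row (0 : k) σ + b' * A) i j := fun i j => by rw [h3]
    have e30 := e3 0 0
    have e31 := e3 0 1
    have e32 := e3 1 0
    have e33 := e3 1 1
    have e5 : ∀ i, (!![0, 0; 1, t] * b') i () = 0 := fun i => by rw [h5]; rfl
    have e51 := e5 1
    simp [Matrix.mul_apply, Fin.sum_univ_two, Matrix.vecMul, dotProduct] at e20 e21 e22 e23 e30 e31 e32 e33 e51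
    refine ⟨?_, ?_, ?_, ?_, ?_⟩
    · simp [lc]
    · ext i j
      fin_cases i <;> fin_cases j <;>
        simp [lc, Matrix.mul_apply, Fin.sum_univ_two, Matrix.vecMul, dotProduct]
      · linear_combination e20
      · linear_combination e21 - s * σ * e22
      · linear_combination e22
      · linear_combination e23
    · ext i j
      fin_cases i <;> fin_cases j <;>
        simp [lc, Matrix.mul_apply, Fin.sum_univ_two, Matrix.vecMul, dotProduct]
      · linear_combination e30
      · linear_combination e31 - s * A () 1 * e22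
      · linear_combination e32
      · linear_combination e33
    · ext i j
      fin_cases j <;> simp [lc, Matrix.mul_apply, Fin.sum_univ_two]
      ring
    · ext i j
      cases j
      fin_cases i <;> simp [lc, Matrix.mul_apply, Fin.sum_univ_two]
      · linear_combination -s * e23 - s * e20
      · linear_combination e51

/-- `L' = 0`, `a' ≠ 0`, `L ≠ 0` -/
theorem caseN {D D' : Dt k} (h : Rel D D') (hL' : D'.L = 0) (hL : D.L ≠ 0) (ha : D'.a ≠ 0) :
    G D D' := by
  have r4 := h.r4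
  rw [hL', Matrix.mul_zero] at r4
  -- a vector `e` with `a' e = 1`, `L e ≠ 0`
  obtain ⟨e, he, hLe⟩ : ∃ e : Matrix (Fin 2) Unit k, D'.a * e = 1 ∧ D.L * e ≠ 0 := by
    by_contra hc
    push Not at hc
    apply hL
    have h1 : ∀ e : Matrix (Fin 2) Unit k, (D'.a * e) () () ≠ 0 → D.L * e = 0 := by
      intro e he
      have h2 := hc (((D'.a * e) () ())⁻¹ • e) (by
        rw [Matrix.mul_smul]
        ext i j
        cases i
        cases j
        rw [Matrix.smul_apply, smul_eq_mul, inv_mul_cancel₀ he]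
        rfl)
      rw [Matrix.mul_smul] at h2
      exact (smul_eq_zero.1 h2).resolve_left (inv_ne_zero he)
    have h3 : ∃ f : Matrix (Fin 2) Unit k, (D'.a * f) () () ≠ 0 := by
      by_contra hf
      push Not at hf
      apply ha
      ext i j
      cases i
      have := hf (Matrix.of fun i _ => if i = j then 1 else 0)
      simpa [Matrix.mul_apply] using this
    obtain ⟨f, hf⟩ := h3
    have h4 : ∀ e : Matrix (Fin 2) Unit k, D.L * e = 0 := by
      intro e
      by_cases he : (D'.a * e) () () = 0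
      · have h5 := h1 (e + f) (by rwa [Matrix.mul_add, Matrix.add_apply, he, zero_add])
        rwa [Matrix.mul_add, h1 f hf, add_zero] at h5
      · exact h1 e he
    ext i j
    have := congrFun (congrFun (h4 (Matrix.of fun i _ => if i = j then 1 else 0)) i) ()
    simpa [Matrix.mul_apply] using this
  obtain ⟨w, hw⟩ : ∃ w : Matrix (Fin 2) Unit k, w = D.L * e := ⟨_, rfl⟩
  have haw : D'.a * w = 0 := by rw [hw, ← Matrix.mul_assoc, ← r4, Matrix.zero_mul]
  rw [← hw] at hLe
  obtain ⟨g, hg⟩ : ∃ g : Matrix (Fin 2) (Fin 2) k,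
      g = !![e 0 (), w 0 (); e 1 (), w 1 ()] := ⟨_, rfl⟩
  have ae : D'.a () 0 * e 0 () + D'.a () 1 * e 1 () = 1 := by
    have := congrFun (congrFun he ()) ()
    simpa [Matrix.mul_apply, Fin.sum_univ_two] using this
  have aw : D'.a () 0 * w 0 () + D'.a () 1 * w 1 () = 0 := by
    have := congrFun (congrFun haw ()) ()
    simpa [Matrix.mul_apply, Fin.sum_univ_two] using this
  have hu : IsUnit g.det := by
    rw [hg, Matrix.det_fin_two, isUnit_iff_ne_zero]
    intro hd
    simp only [Matrix.of_apply, Matrix.cons_val', Matrix.cons_val_zero, Matrix.cons_val_one,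
      Matrix.empty_val', Matrix.cons_val_fin_one] at hd
    apply hLe
    ext i j
    cases j
    fin_cases i
    · show w 0 () = 0
      linear_combination (-D'.a () 1) * hd + (-w 0 ()) * ae + (e 0 ()) * aw
    · show w 1 () = 0
      linear_combination (D'.a () 0) * hd + (-w 1 ()) * ae + (e 1 ()) * aw
  have gh : g * g⁻¹ = 1 := Matrix.mul_nonsing_inv g hu
  have hg' : g⁻¹ * g = 1 := Matrix.nonsing_inv_mul g hu
  refine G.of_cj g⁻¹ g hg' gh ?_
  have h' := h.cj g⁻¹ g gh
  -- first: `a' g = (1, 0)`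
  have e1 : D'.a * g = row 1 0 := by
    ext i j
    cases i
    rw [Matrix.mul_apply, Fin.sum_univ_two, hg]
    fin_cases j
    · simpa using ae
    · simpa using aw
  have eg0 : ∀ i, g i 0 = e i () := by
    intro i
    rw [hg]
    fin_cases i <;> rfl
  have eg1 : ∀ i, g i 1 = w i () := by
    intro i
    rw [hg]
    fin_cases i <;> rfl
  have e2 : ∀ i, (g⁻¹ * D.L * g) i 0 = (1 : Matrix (Fin 2) (Fin 2) k) i 1 := by
    intro i
    rw [← hg', Matrix.mul_assoc, Matrix.mul_apply, Matrix.mul_apply, Fin.sum_univ_two,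
      Fin.sum_univ_two, eg1, eg1]
    have f : ∀ i, (D.L * g) i 0 = w i () := by
      intro i
      rw [hw, Matrix.mul_apply, Matrix.mul_apply, Fin.sum_univ_two, Fin.sum_univ_two, eg0, eg0]
    rw [f, f]
  have e3 : ∀ j, (g⁻¹ * D.L * g) 0 j = 0 := by
    intro j
    have f1 : ∀ i, g⁻¹ 0 i = D'.a () i := by
      intro i
      have f2 : row (1 : k) 0 * g⁻¹ = D'.a := by
        rw [← e1, Matrix.mul_assoc, gh, Matrix.mul_one]
      rw [← f2, Matrix.mul_apply, Fin.sum_univ_two]
      simp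
    have f3 : ∀ i, (g⁻¹ * D.L) 0 i = 0 := by
      intro i
      rw [Matrix.mul_apply]
      have f4 : (D'.a * D.L) () i = 0 := by rw [← r4]; rfl
      rw [Matrix.mul_apply] at f4
      simpa only [f1] using f4
    rw [Matrix.mul_apply]
    refine Finset.sum_eq_zero fun i _ => ?_
    rw [f3, zero_mul]
  have e4 : g⁻¹ * D.L * g = !![0, 0; 1, (g⁻¹ * D.L * g) 1 1] := by
    ext i j
    fin_cases i
    · fin_cases j
      · exact e3 0
      · exact e3 1
    · fin_cases j
      · exact e2 1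
      · rfl
  have f2 : cj g⁻¹ g D' = ⟨0, g⁻¹ * D'.N1 * g, g⁻¹ * D'.N2 * g, g⁻¹ * D'.N3 * g, row 1 0,
      D'.a1 * g, g⁻¹ * D'.b, g⁻¹ * D'.b1⟩ := by
    simp only [cj, hL', e1, Matrix.mul_zero, Matrix.zero_mul]
  have f1 : (cj g⁻¹ g D).L = !![0, 0; 1, (g⁻¹ * D.L * g) 1 1] := e4
  rw [f2] at h' ⊢
  generalize (g⁻¹ * D.L * g) 1 1 = t at f1
  generalize cj g⁻¹ g D = E at h' f1 ⊢
  generalize g⁻¹ * D'.N1 * g = N at h' ⊢
  generalize g⁻¹ * D'.N2 * g = M at h' ⊢
  generalize g⁻¹ * D'.N3 * g = N3' at h' ⊢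
  generalize D'.a1 * g = A' at h' ⊢
  generalize g⁻¹ * D'.b = b' at h' ⊢
  generalize g⁻¹ * D'.b1 = c' at h' ⊢
  refine G.sub_left (c := E.a () 0) ?_
  have h'' := h'.sub_left (E.a () 0)
  have key : ∃ (σ b0 κ : k) (U N2 N3 : Matrix (Fin 2) (Fin 2) k) (A : Matrix Unit (Fin 2) k)
      (c : Matrix (Fin 2) Unit k), lc 1 E (-E.a () 0) ⟨0, N, M, N3', row 1 0, A', b', c'⟩ =
      ⟨!![0, 0; 1, t], U, N2, N3, row 0 σ, A, col b0 κ, c⟩ := by
    refine ⟨E.a () 1, ((1 : k) • E.b + (-E.a () 0) • b') 0 (),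
      ((1 : k) • E.b + (-E.a () 0) • b') 1 (), (1 : k) • E.N1 + (-E.a () 0) • N,
      (1 : k) • E.N2 + (-E.a () 0) • M, (1 : k) • E.N3 + (-E.a () 0) • N3',
      (1 : k) • E.a1 + (-E.a () 0) • A', (1 : k) • E.b1 + (-E.a () 0) • c', ?_⟩
    unfold lc
    rw [Dt.mk.injEq]
    refine ⟨?_, rfl, rfl, rfl, ?_, rfl, ?_, rfl⟩
    · rw [f1]
      simp
    · ext i j
      cases i
      fin_cases j <;> simp
    · exact col_eta _
  obtain ⟨σ, b0, κ, U, N2, N3, A, c, hk⟩ := key
  rw [hk] at h'' ⊢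
  exact caseN1 hgen h''

/-- all triples are limits -/
theorem all {D D' : Dt k} (h : Rel D D') : G D D' := by
  -- `L'` a scalar
  have k1 : ∀ {D D' : Dt k}, Rel D D' → D.L ≠ 0 → ∀ c : k, D'.L = c • 1 → G D D' := by
    intro D D' h hL c hc
    by_cases h0 : c = 0
    · subst h0
      rw [zero_smul] at hc
      by_cases ha : D'.a = 0
      · by_cases hb : D'.b = 0
        · exact caseZ hgen h hc ha hb
        · refine G.of_du (caseN hgen h.du (by simp [du, hc]) ?_ ?_)
          · simpa [du] using hL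
          · simpa [du] using hb
      · exact caseN hgen h hc hL ha
    · exact reg hgen h h0 hc
  -- `L` nonscalar
  have k2 : ∀ {D D' : Dt k}, Rel D D' → (∀ c : k, D.L ≠ c • 1) → G D D' := by
    intro D D' h hL
    obtain ⟨x, y, hxy⟩ := commutant hL h.r1
    refine G.sub_right (c := y) (k1 (h.sub_right y) ?_ x ?_)
    · have := hL 0
      rwa [zero_smul] at this
    · show (1 : k) • D'.L + (-y) • D.L = x • 1
      rw [hxy]
      module
  by_cases h1 : ∃ c : k, D.L = c • 1
  · obtain ⟨c, hc⟩ := h1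
    by_cases h2 : ∃ c : k, D'.L = c • 1
    · obtain ⟨c', hc'⟩ := h2
      by_cases h0 : c' = 0
      · by_cases h3 : c = 0
        · subst h0 h3
          rw [zero_smul] at hc hc'
          exact caseO hgen h hc hc'
        · exact (reg hgen h.swap h3 hc).swap
      · exact reg hgen h h0 hc'
    · push Not at h2
      exact (k2 h.swap h2).swap
  · push Not at h1
    exact k2 h h1

end

end R552

end Pool.Agent.Lib.D13
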