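import Pool.Agent.Lib.D13.R552
import Pool.Agent.Lib.D13.Lead

/-!
# MP_5dcbc3_ag: Jordan type (5, 5, 2): the generic triples are in the closure
-/

namespace Pool.Agent.Lib.D13

open Matrix Pool.Agent.Lib.Q5dc Pool.Agent.Lib.D7
open scoped Kronecker

namespace R552

variable {k : Type*} [Field k]

/-- the level -/
def lev : Ix → ℕ
  | .inl (j, _) => 3 * (j : ℕ)
  | .inr (j, _) => 4 * ((j : ℕ) + 1)

/-- the filtration -/
def Fl (k : Type*) [Field k] (m : ℕ) : Submodule k (Ix → k) where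
  carrier := {w | ∀ y, lev y < m → w y = 0}
  add_mem' := by
    intro a b ha hb y hy
    rw [Pi.add_apply, ha y hy, hb y hy, add_zero]
  zero_mem' := fun _ _ => rfl
  smul_mem' := by
    intro c a ha y hy
    rw [Pi.smul_apply, ha y hy, smul_zero]

theorem mem_Fl {m : ℕ} {w : Ix → k} : w ∈ Fl k m ↔ ∀ y, lev y < m → w y = 0 := Iff.rfl

theorem Fl_act {M : Matrix Ix Ix k} {d : ℕ} (hM : ∀ y z, lev y < lev z + d → M y z = 0) {m : ℕ}
    {w : Ix → k} (hw : w ∈ Fl k m) : M *ᵥ w ∈ Fl k (m + d) := by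
  intro y hy
  rw [mulVec, dotProduct]
  refine Finset.sum_eq_zero fun z _ => ?_
  by_cases hz : lev z < m
  · rw [hw z hz, mul_zero]
  · rw [hM y z (by omega), zero_mul]

theorem Fl_mono {m m' : ℕ} (h : m ≤ m') : Fl k m' ≤ Fl k m :=
  fun _ hw y hy => hw y (by omega)

/-- the coordinates of the image -/
theorem Bm_apply (D : Dt k) (w : Ix → k) :
    (∀ i, (Bm D *ᵥ w) (.inl (0, i)) = 0) ∧
    (∀ i, (Bm D *ᵥ w) (.inl (1, i)) = D.L i 0 * w (.inl (0, 0)) + D.L i 1 * w (.inl (0, 1))) ∧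
    (∀ i, (Bm D *ᵥ w) (.inl (2, i)) = D.L i 0 * w (.inl (1, 0)) + D.L i 1 * w (.inl (1, 1)) +
      (D.N1 i 0 * w (.inl (0, 0)) + D.N1 i 1 * w (.inl (0, 1)))) ∧
    (∀ i, (Bm D *ᵥ w) (.inl (3, i)) = D.L i 0 * w (.inl (2, 0)) + D.L i 1 * w (.inl (2, 1)) +
      (D.N1 i 0 * w (.inl (1, 0)) + D.N1 i 1 * w (.inl (1, 1))) +
      (D.N2 i 0 * w (.inl (0, 0)) + D.N2 i 1 * w (.inl (0, 1))) + D.b i () * w (.inr (0, ()))) ∧
    (∀ i, (Bm D *ᵥ w) (.inl (4, i)) = D.L i 0 * w (.inl (3, 0)) + D.L i 1 * w (.inl (3, 1)) +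
      (D.N1 i 0 * w (.inl (2, 0)) + D.N1 i 1 * w (.inl (2, 1))) +
      (D.N2 i 0 * w (.inl (1, 0)) + D.N2 i 1 * w (.inl (1, 1))) +
      (D.N3 i 0 * w (.inl (0, 0)) + D.N3 i 1 * w (.inl (0, 1))) +
      D.b i () * w (.inr (1, ())) + D.b1 i () * w (.inr (0, ()))) ∧
    ((Bm D *ᵥ w) (.inr (0, ())) = D.a () 0 * w (.inl (0, 0)) + D.a () 1 * w (.inl (0, 1))) ∧
    ((Bm D *ᵥ w) (.inr (1, ())) = D.a () 0 * w (.inl (1, 0)) + D.a () 1 * w (.inl (1, 1)) +
      (D.a1 () 0 * w (.inl (0, 0)) + D.a1 () 1 * w (.inl (0, 1)))) := by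
  refine ⟨fun i => ?_, fun i => ?_, fun i => ?_, fun i => ?_, fun i => ?_, ?_, ?_⟩ <;>
    simp [Bm, mulVec, dotProduct, Fintype.sum_sum_type, Fintype.sum_prod_type, Fin.sum_univ_five,
      Fin.sum_univ_two, kroneckerMap_apply, S, S2, S3, S4, P, P1, Q, Q1] <;> ring

theorem J_apply (w : Ix → k) :
    (∀ i, (J k *ᵥ w) (.inl (0, i)) = 0) ∧
    (∀ i, (J k *ᵥ w) (.inl (1, i)) = w (.inl (0, i))) ∧
    (∀ i, (J k *ᵥ w) (.inl (2, i)) = w (.inl (1, i))) ∧
    (∀ i, (J k *ᵥ w) (.inl (3, i)) = w (.inl (2, i))) ∧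
    (∀ i, (J k *ᵥ w) (.inl (4, i)) = w (.inl (3, i))) ∧
    ((J k *ᵥ w) (.inr (0, ())) = 0) ∧
    ((J k *ᵥ w) (.inr (1, ())) = w (.inr (0, ()))) := by
  refine ⟨fun i => ?_, fun i => ?_, fun i => ?_, fun i => ?_, fun i => ?_, ?_, ?_⟩
  all_goals try fin_cases i
  all_goals simp [J, mulVec, dotProduct, Fintype.sum_sum_type, Fintype.sum_prod_type,
      Fin.sum_univ_five, Fin.sum_univ_two, kroneckerMap_apply, S, s, Matrix.one_apply]

theorem Bm_act (D : Dt k) {m : ℕ} {w : Ix → k} (hw : w ∈ Fl k m) : Bm D *ᵥ w ∈ Fl k (m + 3) := by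
  obtain ⟨h0, h1, h2, h3, h4, h5, h6⟩ := Bm_apply D w
  have hz : ∀ (j : Fin 5) (i : Fin 2), 3 * (j : ℕ) < m → w (.inl (j, i)) = 0 := fun j i h => hw _ h
  have hp : ∀ j : Fin 2, 4 * ((j : ℕ) + 1) < m → w (.inr (j, ())) = 0 := fun j h => hw _ h
  rintro (⟨j, i⟩ | ⟨j, ⟨⟩⟩) hy
  · simp only [lev] at hy
    fin_cases j
    · exact h0 i
    · simp at hy
      have e1 : ∀ i, w (.inl (0, i)) = 0 := fun i => hz 0 i (by simp; omega)
      refine (h1 i).trans ?_
      rw [e1, e1]; ring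
    · simp at hy
      have e1 : ∀ i, w (.inl (0, i)) = 0 := fun i => hz 0 i (by simp; omega)
      have e2 : ∀ i, w (.inl (1, i)) = 0 := fun i => hz 1 i (by simp; omega)
      refine (h2 i).trans ?_
      simp only [e1, e2]; ring
    · simp at hy
      have e1 : ∀ i, w (.inl (0, i)) = 0 := fun i => hz 0 i (by simp; omega)
      have e2 : ∀ i, w (.inl (1, i)) = 0 := fun i => hz 1 i (by simp; omega)
      have e3 : ∀ i, w (.inl (2, i)) = 0 := fun i => hz 2 i (by simp; omega)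
      have e4 := hp 0 (by simp; omega)
      refine (h3 i).trans ?_
      simp only [e1, e2, e3, e4]; ring
    · simp at hy
      have e1 : ∀ i, w (.inl (0, i)) = 0 := fun i => hz 0 i (by simp; omega)
      have e2 : ∀ i, w (.inl (1, i)) = 0 := fun i => hz 1 i (by simp; omega)
      have e3 : ∀ i, w (.inl (2, i)) = 0 := fun i => hz 2 i (by simp; omega)
      have e5 : ∀ i, w (.inl (3, i)) = 0 := fun i => hz 3 i (by simp; omega)
      have e4 := hp 0 (by simp; omega)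
      have e6 := hp 1 (by simp; omega)
      refine (h4 i).trans ?_
      simp only [e1, e2, e3, e4, e5, e6]; ring
  · simp only [lev] at hy
    fin_cases j
    · simp at hy
      have e1 : ∀ i, w (.inl (0, i)) = 0 := fun i => hz 0 i (by simp; omega)
      refine h5.trans ?_
      simp only [e1]; ring
    · simp at hy
      have e1 : ∀ i, w (.inl (0, i)) = 0 := fun i => hz 0 i (by simp; omega)
      have e2 : ∀ i, w (.inl (1, i)) = 0 := fun i => hz 1 i (by simp; omega)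
      refine h6.trans ?_
      simp only [e1, e2]; ring

/-- the third axis -/
theorem Z_act (D : Dt k) (hD : D.L = 1) {m : ℕ} {w : Ix → k} (hw : w ∈ Fl k m) :
    (J k - Bm D) *ᵥ w ∈ Fl k (m + 4) := by
  obtain ⟨h0, h1, h2, h3, h4, h5, h6⟩ := Bm_apply D w
  obtain ⟨g0, g1, g2, g3, g4, g5, g6⟩ := J_apply w
  have hz : ∀ (j : Fin 5) (i : Fin 2), 3 * (j : ℕ) < m → w (.inl (j, i)) = 0 := fun j i h => hw _ h
  have hp : ∀ j : Fin 2, 4 * ((j : ℕ) + 1) < m → w (.inr (j, ())) = 0 := fun j h => hw _ h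
  have hL : ∀ i x y, D.L i 0 * x + D.L i 1 * y = ![x, y] i := by
    intro i x y
    rw [hD]
    fin_cases i <;> simp [Matrix.one_apply]
  have hv : ∀ i j, ![w (.inl (j, 0)), w (.inl (j, 1))] i = w (.inl (j, i)) := by
    intro i j
    fin_cases i <;> rfl
  rintro (⟨j, i⟩ | ⟨j, ⟨⟩⟩) hy
  · simp only [lev] at hy
    rw [sub_mulVec, Pi.sub_apply]
    fin_cases j
    · change (J k *ᵥ w) (.inl (0, i)) - (Bm D *ᵥ w) (.inl (0, i)) = 0
      rw [g0, h0, sub_zero]
    · change (J k *ᵥ w) (.inl (1, i)) - (Bm D *ᵥ w) (.inl (1, i)) = 0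
      rw [g1, h1, hL, hv, sub_self]
    · simp at hy
      have e1 : ∀ i, w (.inl (0, i)) = 0 := fun i => hz 0 i (by simp; omega)
      change (J k *ᵥ w) (.inl (2, i)) - (Bm D *ᵥ w) (.inl (2, i)) = 0
      rw [g2, h2, hL, hv, e1, e1]; ring
    · simp at hy
      have e1 : ∀ i, w (.inl (0, i)) = 0 := fun i => hz 0 i (by simp; omega)
      have e2 : ∀ i, w (.inl (1, i)) = 0 := fun i => hz 1 i (by simp; omega)
      have e4 := hp 0 (by simp; omega)
      change (J k *ᵥ w) (.inl (3, i)) - (Bm D *ᵥ w) (.inl (3, i)) = 0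
      rw [g3, h3, hL, hv, e1, e1, e2, e2, e4]; ring
    · simp at hy
      have e1 : ∀ i, w (.inl (0, i)) = 0 := fun i => hz 0 i (by simp; omega)
      have e2 : ∀ i, w (.inl (1, i)) = 0 := fun i => hz 1 i (by simp; omega)
      have e3 : ∀ i, w (.inl (2, i)) = 0 := fun i => hz 2 i (by simp; omega)
      have e4 := hp 0 (by simp; omega)
      have e6 := hp 1 (by simp; omega)
      change (J k *ᵥ w) (.inl (4, i)) - (Bm D *ᵥ w) (.inl (4, i)) = 0
      rw [g4, h4, hL, hv, e1, e1, e2, e2, e3, e3, e4, e6]; ring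
  · simp only [lev] at hy
    rw [sub_mulVec, Pi.sub_apply]
    fin_cases j
    · simp at hy
      have e1 : ∀ i, w (.inl (0, i)) = 0 := fun i => hz 0 i (by simp; omega)
      change (J k *ᵥ w) (.inr (0, ())) - (Bm D *ᵥ w) (.inr (0, ())) = 0
      rw [g5, h5, e1, e1]; ring
    · simp at hy
      have e1 : ∀ i, w (.inl (0, i)) = 0 := fun i => hz 0 i (by simp; omega)
      have e2 : ∀ i, w (.inl (1, i)) = 0 := fun i => hz 1 i (by simp; omega)
      have e4 := hp 0 (by simp; omega)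
      change (J k *ᵥ w) (.inr (1, ())) - (Bm D *ᵥ w) (.inr (1, ())) = 0
      rw [g6, h6, e1, e1, e2, e2, e4]; ring

theorem sub_smul_act (D D' : Dt k) (c : k) {m : ℕ} {w : Ix → k} (hw : w ∈ Fl k m) :
    (Bm D - c • Bm D') *ᵥ w ∈ Fl k (m + 3) := by
  rw [sub_mulVec, smul_mulVec]
  exact sub_mem (Bm_act D hw) (Submodule.smul_mem _ _ (Bm_act D' hw))

theorem Fl_succ {m : ℕ} {w : Ix → k} (hw : w ∈ Fl k m) (h : ∀ y, lev y = m → w y = 0) :
    w ∈ Fl k (m + 1) := by
  intro y hy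
  by_cases h1 : lev y = m
  · exact h y h1
  · exact hw y (by omega)

omit [Field k] in
theorem pair_eq (w : Ix → k) (i : Fin 2) (j : Fin 5) :
    ![w (.inl (j, 0)), w (.inl (j, 1))] i = w (.inl (j, i)) := by
  fin_cases i <;> rfl

/-- the leading part on the first two axes -/
theorem lead_step (D D' : Dt k) (c : k) {l : Fin 2 → k}
    (hL : ∀ i x y, D.L i 0 * x + D.L i 1 * y - c * (D'.L i 0 * x + D'.L i 1 * y) =
      l i * ![x, y] i) {w : Ix → k} (j : ℕ) (hj : j < 4) (hw : w ∈ Fl k (3 * j)) (i : Fin 2) :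
    ((Bm D - c • Bm D') *ᵥ w) (.inl (⟨j + 1, by omega⟩, i)) =
      l i * w (.inl (⟨j, by omega⟩, i)) := by
  have hz : ∀ (j' : Fin 5) (i : Fin 2), 3 * (j' : ℕ) < 3 * j → w (.inl (j', i)) = 0 :=
    fun j' i h => hw _ h
  have hp : ∀ j' : Fin 2, 4 * ((j' : ℕ) + 1) < 3 * j → w (.inr (j', ())) = 0 :=
    fun j' h => hw _ h
  obtain ⟨h0, h1, h2, h3, h4, h5, h6⟩ := Bm_apply D w
  obtain ⟨g0, g1, g2, g3, g4, g5, g6⟩ := Bm_apply D' w
  rw [sub_mulVec, smul_mulVec, Pi.sub_apply, Pi.smul_apply, smul_eq_mul]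
  interval_cases j
  · change (Bm D *ᵥ w) (.inl (1, i)) - c * (Bm D' *ᵥ w) (.inl (1, i)) = l i * w (.inl (0, i))
    rw [h1, g1, hL, pair_eq]
  · change (Bm D *ᵥ w) (.inl (2, i)) - c * (Bm D' *ᵥ w) (.inl (2, i)) = l i * w (.inl (1, i))
    have e1 : ∀ i, w (.inl (0, i)) = 0 := fun i => hz 0 i (by simp)
    have h9 := hL i (w (.inl (1, 0))) (w (.inl (1, 1)))
    rw [pair_eq] at h9
    rw [h2, g2, e1, e1]
    linear_combination h9
  · change (Bm D *ᵥ w) (.inl (3, i)) - c * (Bm D' *ᵥ w) (.inl (3, i)) = l i * w (.inl (2, i))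
    have e1 : ∀ i, w (.inl (0, i)) = 0 := fun i => hz 0 i (by simp)
    have e2 : ∀ i, w (.inl (1, i)) = 0 := fun i => hz 1 i (by simp)
    have e4 := hp 0 (by simp)
    have h9 := hL i (w (.inl (2, 0))) (w (.inl (2, 1)))
    rw [pair_eq] at h9
    rw [h3, g3, e1, e1, e2, e2, e4]
    linear_combination h9
  · change (Bm D *ᵥ w) (.inl (4, i)) - c * (Bm D' *ᵥ w) (.inl (4, i)) = l i * w (.inl (3, i))
    have e1 : ∀ i, w (.inl (0, i)) = 0 := fun i => hz 0 i (by simp)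
    have e2 : ∀ i, w (.inl (1, i)) = 0 := fun i => hz 1 i (by simp)
    have e3 : ∀ i, w (.inl (2, i)) = 0 := fun i => hz 2 i (by simp)
    have e4 := hp 0 (by simp)
    have e6 := hp 1 (by simp)
    have h9 := hL i (w (.inl (3, 0))) (w (.inl (3, 1)))
    rw [pair_eq] at h9
    rw [h4, g4, e1, e1, e2, e2, e3, e3, e4, e6]
    linear_combination h9

/-- the leading coefficients of the powers on the first two axes -/
theorem lead_pow (D D' : Dt k) (c : k) {l : Fin 2 → k}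
    (hL : ∀ i x y, D.L i 0 * x + D.L i 1 * y - c * (D'.L i 0 * x + D'.L i 1 * y) =
      l i * ![x, y] i) (v : Ix → k) (j : ℕ) (hj : j < 5) :
    ((Bm D - c • Bm D') ^ j *ᵥ v) ∈ Fl k (3 * j) ∧
      ∀ i, ((Bm D - c • Bm D') ^ j *ᵥ v) (.inl (⟨j, hj⟩, i)) = l i ^ j * v (.inl (0, i)) := by
  induction j with
  | zero =>
    rw [pow_zero, one_mulVec]
    refine ⟨fun y hy => absurd hy (by omega), fun i => ?_⟩
    rw [pow_zero, one_mul]
    rfl
  | succ j ih =>
    obtain ⟨ih1, ih2⟩ := ih (by omega)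
    rw [pow_succ', ← mulVec_mulVec]
    refine ⟨by
      have := sub_smul_act D D' c ih1
      rwa [show 3 * (j + 1) = 3 * j + 3 by ring], fun i => ?_⟩
    rw [lead_step D D' c hL j (by omega) ih1 i, ih2 i]
    ring

/-- the leading coefficients of the powers on the third axis -/
theorem lead_Z (D : Dt k) (hD : D.L = 1) (v : Ix → k) {lam : k}
    (hlam : D.a () 0 * v (.inl (0, 0)) + D.a () 1 * v (.inl (0, 1)) = lam) :
    ((J k - Bm D) ^ 1 *ᵥ v ∈ Fl k 4 ∧ ((J k - Bm D) ^ 1 *ᵥ v) (.inr (0, ())) = -lam) ∧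
    ((J k - Bm D) ^ 2 *ᵥ v ∈ Fl k 8 ∧ ((J k - Bm D) ^ 2 *ᵥ v) (.inr (1, ())) = -lam) ∧
    ((J k - Bm D) ^ 3 *ᵥ v ∈ Fl k 12 ∧
      ∀ i, ((J k - Bm D) ^ 3 *ᵥ v) (.inl (4, i)) = lam * D.b i ()) := by
  have hv0 : v ∈ Fl k 0 := fun y hy => absurd hy (by omega)
  have a1 := Z_act D hD hv0
  have a2 := Z_act D hD a1
  have a3 := Z_act D hD a2
  have e1 : (J k - Bm D) ^ 1 *ᵥ v = (J k - Bm D) *ᵥ v := by rw [pow_one]
  have e2 : (J k - Bm D) ^ 2 *ᵥ v = (J k - Bm D) *ᵥ ((J k - Bm D) *ᵥ v) := by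
    rw [pow_two, ← mulVec_mulVec]
  have e3 : (J k - Bm D) ^ 3 *ᵥ v = (J k - Bm D) *ᵥ ((J k - Bm D) *ᵥ ((J k - Bm D) *ᵥ v)) := by
    rw [pow_succ', ← mulVec_mulVec, e2]
  rw [e1, e2, e3]
  set y := (J k - Bm D) *ᵥ v with hy
  have y0 : y (.inr (0, ())) = -lam := by
    obtain ⟨h0, h1, h2, h3, h4, h5, h6⟩ := Bm_apply D v
    obtain ⟨g0, g1, g2, g3, g4, g5, g6⟩ := J_apply v
    rw [hy, sub_mulVec, Pi.sub_apply, g5, h5, hlam, zero_sub]
  set z := (J k - Bm D) *ᵥ y with hz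
  have z1 : z (.inr (1, ())) = -lam := by
    obtain ⟨h0, h1, h2, h3, h4, h5, h6⟩ := Bm_apply D y
    obtain ⟨g0, g1, g2, g3, g4, g5, g6⟩ := J_apply y
    have e1 : ∀ i, y (.inl (0, i)) = 0 := fun i => a1 _ (by simp [lev])
    have e2 : ∀ i, y (.inl (1, i)) = 0 := fun i => a1 _ (by simp [lev])
    rw [hz, sub_mulVec, Pi.sub_apply, g6, h6, e1, e1, e2, e2, y0]
    ring
  refine ⟨⟨a1, y0⟩, ⟨a2, z1⟩, a3, fun i => ?_⟩
  obtain ⟨h0, h1, h2, h3, h4, h5, h6⟩ := Bm_apply D z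
  obtain ⟨g0, g1, g2, g3, g4, g5, g6⟩ := J_apply z
  have e1 : ∀ i, z (.inl (0, i)) = 0 := fun i => a2 _ (by simp [lev])
  have e2 : ∀ i, z (.inl (1, i)) = 0 := fun i => a2 _ (by simp [lev])
  have e3 : ∀ i, z (.inl (2, i)) = 0 := fun i => a2 _ (by simp [lev])
  have e4 : z (.inr (0, ())) = 0 := a2 _ (by simp [lev])
  have hL : ∀ x y, D.L i 0 * x + D.L i 1 * y = ![x, y] i := by
    intro x y
    rw [hD]
    fin_cases i <;> simp [Matrix.one_apply]
  rw [sub_mulVec, Pi.sub_apply, g4, h4, hL, pair_eq, e1, e1, e2, e2, e3, e3, e4, z1]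
  ring

/-- the generic triples are in the closure -/
theorem gen552 {k : Type*} [Field k] [IsAlgClosed k] {D D' : Dt k} (h : Rel D D') {l1 l2 : k}
    (hl : l1 ≠ l2) (hL : D.L = !![l1, 0; 0, l2]) (hL' : D'.L = 1) (ha1 : D'.a () 0 ≠ 0)
    (ha2 : D'.a () 1 ≠ 0) (hb1 : D'.b 0 () ≠ 0) (hb2 : D'.b 1 () ≠ 0) :
    Cl ![J k, Bm D, Bm D'] := by
  have hδ : l1 - l2 ≠ 0 := sub_ne_zero.2 hl
  have hδ' : l2 - l1 ≠ 0 := sub_ne_zero.2 hl.symm
  -- the generic vector
  obtain ⟨c, hc0, hc⟩ : ∃ c : k, c ≠ 0 ∧ D'.a () 0 + c * D'.a () 1 ≠ 0 := by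
    classical
    have : Infinite k := IsAlgClosed.instInfinite
    obtain ⟨c, hc⟩ := Infinite.exists_notMem_finset ({0, -(D'.a () 0 / D'.a () 1)} : Finset k)
    simp only [Finset.mem_insert, Finset.mem_singleton, not_or] at hc
    refine ⟨c, hc.1, fun h0 => hc.2 ?_⟩
    field_simp
    linear_combination h0
  set lam := D'.a () 0 + c * D'.a () 1 with hlam
  let v : Ix → k := Pi.single (.inl (0, 0)) 1 + c • Pi.single (.inl (0, 1)) 1
  have v0 : v (.inl (0, 0)) = 1 := by simp [v]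
  have v1 : v (.inl (0, 1)) = c := by simp [v]
  have hlv : D'.a () 0 * v (.inl (0, 0)) + D'.a () 1 * v (.inl (0, 1)) = lam := by
    rw [v0, v1, hlam]; ring
  have hX0 : ∀ i x y, D.L i 0 * x + D.L i 1 * y - l2 * (D'.L i 0 * x + D'.L i 1 * y) =
      (![l1 - l2, 0] : Fin 2 → k) i * ![x, y] i := by
    intro i x y
    rw [hL, hL']
    fin_cases i
    · simp [Matrix.one_apply]; ring
    · simp [Matrix.one_apply]
  have hX1 : ∀ i x y, D.L i 0 * x + D.L i 1 * y - l1 * (D'.L i 0 * x + D'.L i 1 * y) =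
      (![0, l2 - l1] : Fin 2 → k) i * ![x, y] i := by
    intro i x y
    rw [hL, hL']
    fin_cases i
    · simp [Matrix.one_apply]
    · simp [Matrix.one_apply]; ring
  set X0 : Matrix Ix Ix k := Bm D - l2 • Bm D' with hX0d
  set X1 : Matrix Ix Ix k := Bm D - l1 • Bm D' with hX1d
  set X2 : Matrix Ix Ix k := J k - Bm D' with hX2d
  have hv0 : v ∈ Fl k 0 := fun y hy => absurd hy (by omega)
  have act0 : ∀ m w, w ∈ Fl k m → X0 *ᵥ w ∈ Fl k (m + 3) := fun m w hw => sub_smul_act D D' l2 hw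
  have act1 : ∀ m w, w ∈ Fl k m → X1 *ᵥ w ∈ Fl k (m + 3) := fun m w hw => sub_smul_act D D' l1 hw
  have act2 : ∀ m w, w ∈ Fl k m → X2 *ᵥ w ∈ Fl k (m + 4) := fun m w hw => Z_act D' hL' hw
  have p0 := fun j hj => lead_pow D D' l2 hX0 v j hj
  have p1 := fun j hj => lead_pow D D' l1 hX1 v j hj
  obtain ⟨⟨z1, z1'⟩, ⟨z2, z2'⟩, ⟨z3, z3'⟩⟩ := lead_Z D' hL' v hlv
  rw [← hX0d] at p0
  rw [← hX1d] at p1
  rw [← hX2d] at z1 z1' z2 z2' z3 z3'
  -- commutation
  have cBC : Bm D * Bm D' = Bm D' * Bm D := (comm_iff D D').2 h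
  have cJB := J_Bm D
  have cJC := J_Bm D'
  have c01 : X0 * X1 = X1 * X0 := by
    simp only [hX0d, hX1d, sub_mul, mul_sub, smul_mul_assoc, mul_smul_comm, cBC]
    module
  have c02 : X0 * X2 = X2 * X0 := by
    simp only [hX0d, hX2d, sub_mul, mul_sub, smul_mul_assoc, mul_smul_comm, cBC, cJB, cJC]
    module
  have c12 : X1 * X2 = X2 * X1 := by
    simp only [hX1d, hX2d, sub_mul, mul_sub, smul_mul_assoc, mul_smul_comm, cBC, cJB, cJC]
    module
  -- levels
  have Fl7 : ∀ w : Ix → k, w ∈ Fl k 7 → w ∈ Fl k 8 := fun w hw => Fl_succ hw (by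
    rintro (⟨j, i⟩ | ⟨j, ⟨⟩⟩) hy <;> simp only [lev] at hy <;> omega)
  have Fl12 : ∀ w : Ix → k, w ∈ Fl k 12 → (∀ i, w (.inl (4, i)) = 0) → w = 0 := by
    intro w hw h0
    funext y
    by_cases hy : lev y < 12
    · exact hw y hy
    · rcases y with ⟨j, i⟩ | ⟨j, ⟨⟩⟩
      · simp only [lev] at hy
        have : j = 4 := by
          apply Fin.ext
          show (j : ℕ) = 4
          omega
        rw [this, h0]
        rfl
      · simp only [lev] at hy
        omega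
  clear_value X0 X1 X2 v lam
  -- the top coefficients
  have q0 := (p0 4 (by omega)).2
  have q1 := (p1 4 (by omega)).2
  have r0 : (X0 ^ 4 *ᵥ v) (.inl (4, 0)) = (l1 - l2) ^ 4 := by
    have := q0 0
    rw [v0, mul_one] at this
    exact this
  have r0' : (X0 ^ 4 *ᵥ v) (.inl (4, 1)) = 0 := by
    have := q0 1
    simpa using this
  have r1 : (X1 ^ 4 *ᵥ v) (.inl (4, 0)) = 0 := by
    have := q1 0
    simpa using this
  have r1' : (X1 ^ 4 *ᵥ v) (.inl (4, 1)) = (l2 - l1) ^ 4 * c := by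
    have := q1 1
    rw [v1] at this
    exact this
  have f0 : X0 ^ 4 *ᵥ v ∈ Fl k 12 := (p0 4 (by omega)).1
  have f1 : X1 ^ 4 *ᵥ v ∈ Fl k 12 := (p1 4 (by omega)).1
  have hd4 : (l1 - l2) ^ 4 ≠ 0 := pow_ne_zero 4 hδ
  have hd4' : (l2 - l1) ^ 4 * c ≠ 0 := mul_ne_zero (pow_ne_zero 4 hδ') hc0
  let X : Fin 3 → Matrix Ix Ix k := ![X0, X1, X2]
  let d : Fin 3 → ℕ := ![3, 3, 4]
  let pp : Fin 3 → ℕ := ![4, 4, 3]
  let cc : Fin 3 → k := ![-(lam * D'.b 0 ()) / (l1 - l2) ^ 4,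
    -(lam * D'.b 1 ()) / ((l2 - l1) ^ 4 * c), 1]
  have hLD : Lead.LD (Fl k) X v d pp 12 cc 1 := by
    refine ⟨?_, ?_, ?_, ?_, ?_, ?_, ?_, ?_, ?_, ?_, ?_, ?_⟩
    · intro i j
      fin_cases i <;> fin_cases j
      · rfl
      · exact c01
      · exact c02
      · exact c01.symm
      · rfl
      · exact c12
      · exact c02.symm
      · exact c12.symm
      · rfl
    · exact fun m => Fl_mono (by omega)
    · rw [eq_bot_iff]
      intro w hw
      rw [Submodule.mem_bot]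
      exact Fl12 w (Fl_mono (by omega) hw) fun i => hw _ (by simp [lev])
    · intro i m w hw
      fin_cases i
      · exact act0 m w hw
      · exact act1 m w hw
      · exact act2 m w hw
    · intro i
      fin_cases i
      · change X0 *ᵥ v ∈ Fl k 3
        simpa using act0 0 v hv0
      · change X1 *ᵥ v ∈ Fl k 3
        simpa using act1 0 v hv0
      · change X2 *ᵥ v ∈ Fl k 4
        simpa using act2 0 v hv0
    · intro m hm1 hm2 w hw
      have sv : ∀ i a, 1 ≤ a → a * d i = m → ∀ c : k, c • (X i ^ a *ᵥ v) ∈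
          Submodule.span k {w | ∃ i a, 1 ≤ a ∧ a * d i = m ∧ w = X i ^ a *ᵥ v} :=
        fun i a ha hd c => Submodule.smul_mem _ _ (Submodule.subset_span ⟨i, a, ha, hd, rfl⟩)
      have none : (∀ y, lev y ≠ m) → w ∈ Submodule.span k {w | ∃ i a, 1 ≤ a ∧ a * d i = m ∧
          w = X i ^ a *ᵥ v} ⊔ Fl k (m + 1) := fun hn =>
        Submodule.mem_sup_right (Fl_succ hw fun y hy => absurd hy (hn y))
      have ax : ∀ j : ℕ, 1 ≤ j → (hj : j < 5) → 3 * j = m →
          w ∈ Submodule.span k {w | ∃ i a, 1 ≤ a ∧ a * d i = m ∧ w = X i ^ a *ᵥ v} ⊔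
            Fl k (m + 1) := by
        intro j hj1 hj hm
        obtain ⟨a1, a2⟩ := p0 j hj
        obtain ⟨b1, b2⟩ := p1 j hj
        set x : k := w (.inl (⟨j, hj⟩, 0)) / (l1 - l2) ^ j with hx
        set y : k := w (.inl (⟨j, hj⟩, 1)) / ((l2 - l1) ^ j * c) with hy
        have hw' : w = (x • (X0 ^ j *ᵥ v) + y • (X1 ^ j *ᵥ v)) +
            (w - (x • (X0 ^ j *ᵥ v) + y • (X1 ^ j *ᵥ v))) := by abel
        rw [hw']
        refine Submodule.add_mem_sup (add_mem (sv 0 j hj1 (by simp [d]; omega) x)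
          (sv 1 j hj1 (by simp [d]; omega) y)) (Fl_succ (sub_mem hw (add_mem
          (Submodule.smul_mem _ _ (by rw [← hm]; exact a1))
          (Submodule.smul_mem _ _ (by rw [← hm]; exact b1)))) ?_)
        rintro (⟨j', i⟩ | ⟨j', ⟨⟩⟩) hlev
        · simp only [lev] at hlev
          have hjj : j' = ⟨j, hj⟩ := Fin.ext (by show (j' : ℕ) = j; omega)
          subst hjj
          simp only [Pi.sub_apply, Pi.add_apply, Pi.smul_apply, smul_eq_mul, a2, b2]
          have hd1 : (l1 - l2) ^ j ≠ 0 := pow_ne_zero j hδ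
          have hd2 : (l2 - l1) ^ j * c ≠ 0 := mul_ne_zero (pow_ne_zero j hδ') hc0
          have hj0 : j ≠ 0 := by omega
          fin_cases i
          · simp [v0, hj0, hx, div_mul_cancel₀ _ hd1]
          · simp [v1, hj0, hy, div_mul_cancel₀ _ hd2]
        · simp only [lev] at hlev
          omega
      have az : ∀ (j : Fin 2) (a : ℕ), 1 ≤ a → a = (j : ℕ) + 1 → 4 * a = m →
          X2 ^ a *ᵥ v ∈ Fl k (4 * a) → (X2 ^ a *ᵥ v) (.inr (j, ())) = -lam →
          w ∈ Submodule.span k {w | ∃ i a, 1 ≤ a ∧ a * d i = m ∧ w = X i ^ a *ᵥ v} ⊔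
            Fl k (m + 1) := by
        intro j a ha1 ha hm b1 b2
        set x : k := w (.inr (j, ())) / (-lam) with hx
        have hw' : w = x • (X2 ^ a *ᵥ v) + (w - x • (X2 ^ a *ᵥ v)) := by abel
        rw [hw']
        refine Submodule.add_mem_sup (sv 2 a ha1 (by simp [d]; omega) x)
          (Fl_succ (sub_mem hw (Submodule.smul_mem _ _ (by rw [← hm]; exact b1))) ?_)
        rintro (⟨j', i⟩ | ⟨j', ⟨⟩⟩) hlev
        · simp only [lev] at hlev
          omega
        · simp only [lev] at hlev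
          have hjj : j' = j := Fin.ext (by omega)
          subst hjj
          simp only [Pi.sub_apply, Pi.smul_apply, smul_eq_mul, b2, hx]
          rw [div_mul_cancel₀ _ (neg_ne_zero.2 hc), sub_self]
      interval_cases m
      · exact none (by rintro (⟨j, i⟩ | ⟨j, ⟨⟩⟩) <;> simp only [lev] <;> omega)
      · exact none (by rintro (⟨j, i⟩ | ⟨j, ⟨⟩⟩) <;> simp only [lev] <;> omega)
      · exact ax 1 (by omega) (by omega) (by omega)
      · exact az 0 1 (by omega) (by simp) (by omega) z1 z1'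
      · exact none (by rintro (⟨j, i⟩ | ⟨j, ⟨⟩⟩) <;> simp only [lev] <;> omega)
      · exact ax 2 (by omega) (by omega) (by omega)
      · exact none (by rintro (⟨j, i⟩ | ⟨j, ⟨⟩⟩) <;> simp only [lev] <;> omega)
      · exact az 1 2 (by omega) (by simp) (by omega) z2 z2'
      · exact ax 3 (by omega) (by omega) (by omega)
      · exact none (by rintro (⟨j, i⟩ | ⟨j, ⟨⟩⟩) <;> simp only [lev] <;> omega)
      · exact none (by rintro (⟨j, i⟩ | ⟨j, ⟨⟩⟩) <;> simp only [lev] <;> omega)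
      · exact ax 4 (by omega) (by omega) (by omega)
    · intro i
      fin_cases i <;> simp [d]
    · intro i
      fin_cases i <;> simp [d, pp]
    · rw [Fin.sum_univ_three]
      change cc 0 • (X0 ^ 4 *ᵥ v) + cc 1 • (X1 ^ 4 *ᵥ v) + cc 2 • (X2 ^ 3 *ᵥ v) = 0
      refine Fl12 _ (add_mem (add_mem (Submodule.smul_mem _ _ f0) (Submodule.smul_mem _ _ f1))
        (Submodule.smul_mem _ _ z3)) fun i => ?_
      simp only [Pi.add_apply, Pi.smul_apply, smul_eq_mul, z3']
      fin_cases i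
      · change cc 0 * (X0 ^ 4 *ᵥ v) (.inl (4, 0)) + cc 1 * (X1 ^ 4 *ᵥ v) (.inl (4, 0)) +
          cc 2 * (lam * D'.b 0 ()) = 0
        rw [r0, r1]
        simp only [cc, Matrix.cons_val_zero, Matrix.cons_val_one, Matrix.cons_val_two,
          Matrix.head_cons, Matrix.tail_cons]
        field_simp
        ring
      · change cc 0 * (X0 ^ 4 *ᵥ v) (.inl (4, 1)) + cc 1 * (X1 ^ 4 *ᵥ v) (.inl (4, 1)) +
          cc 2 * (lam * D'.b 1 ()) = 0
        rw [r0', r1']
        simp only [cc, Matrix.cons_val_zero, Matrix.cons_val_one, Matrix.cons_val_two,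
          Matrix.head_cons, Matrix.tail_cons]
        field_simp
        ring
    · intro i
      fin_cases i
      · exact div_ne_zero (neg_ne_zero.2 (mul_ne_zero hc hb1)) hd4
      · exact div_ne_zero (neg_ne_zero.2 (mul_ne_zero hc hb2)) hd4'
      · exact one_ne_zero
    · intro i j hij a b hab
      have hh : ∀ y, a * (X i ^ pp i *ᵥ v) y = b * (X j ^ pp j *ᵥ v) y := fun y => congrFun hab y
      have z30 := z3' 0
      have z31 := z3' 1
      have hb1' := mul_ne_zero hc hb1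
      have hb2' := mul_ne_zero hc hb2
      have t0 := hh (.inl (4, 0))
      have t1 := hh (.inl (4, 1))
      fin_cases i <;> fin_cases j
      · exact absurd rfl hij
      · change a * (X0 ^ 4 *ᵥ v) (.inl (4, 0)) = b * (X1 ^ 4 *ᵥ v) (.inl (4, 0)) at t0
        rw [r0, r1, mul_zero] at t0
        exact (mul_eq_zero.1 t0).resolve_right hd4
      · change a * (X0 ^ 4 *ᵥ v) (.inl (4, 0)) = b * (X2 ^ 3 *ᵥ v) (.inl (4, 0)) at t0
        change a * (X0 ^ 4 *ᵥ v) (.inl (4, 1)) = b * (X2 ^ 3 *ᵥ v) (.inl (4, 1)) at t1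
        rw [r0', z31, mul_zero] at t1
        rw [(mul_eq_zero.1 t1.symm).resolve_right hb2', r0, zero_mul] at t0
        exact (mul_eq_zero.1 t0).resolve_right hd4
      · change a * (X1 ^ 4 *ᵥ v) (.inl (4, 1)) = b * (X0 ^ 4 *ᵥ v) (.inl (4, 1)) at t1
        rw [r0', r1', mul_zero] at t1
        exact (mul_eq_zero.1 t1).resolve_right hd4'
      · exact absurd rfl hij
      · change a * (X1 ^ 4 *ᵥ v) (.inl (4, 0)) = b * (X2 ^ 3 *ᵥ v) (.inl (4, 0)) at t0
        change a * (X1 ^ 4 *ᵥ v) (.inl (4, 1)) = b * (X2 ^ 3 *ᵥ v) (.inl (4, 1)) at t1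
        rw [r1, z30, mul_zero] at t0
        rw [(mul_eq_zero.1 t0.symm).resolve_right hb1', r1', zero_mul] at t1
        exact (mul_eq_zero.1 t1).resolve_right hd4'
      · change a * (X2 ^ 3 *ᵥ v) (.inl (4, 1)) = b * (X0 ^ 4 *ᵥ v) (.inl (4, 1)) at t1
        rw [r0', z31, mul_zero] at t1
        exact (mul_eq_zero.1 t1).resolve_right hb2'
      · change a * (X2 ^ 3 *ᵥ v) (.inl (4, 0)) = b * (X1 ^ 4 *ᵥ v) (.inl (4, 0)) at t0
        rw [r1, z30, mul_zero] at t0
        exact (mul_eq_zero.1 t0).resolve_right hb1'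
      · exact absurd rfl hij
    · have hX0v : X0 *ᵥ v ∈ Fl k 3 := by simpa using act0 0 v hv0
      have hX1v : X1 *ᵥ v ∈ Fl k 3 := by simpa using act1 0 v hv0
      have hX2v : X2 *ᵥ v ∈ Fl k 4 := by simpa using act2 0 v hv0
      have e0 : (X0 *ᵥ v) (.inl (1, 1)) = 0 := by
        have := (p0 1 (by omega)).2 1
        simpa using this
      have e1 : (X1 *ᵥ v) (.inl (1, 0)) = 0 := by
        have := (p1 1 (by omega)).2 0
        simpa using this
      have lev6 : ∀ w : Ix → k, (∀ i, w (.inl (2, i)) = 0) → ∀ y, lev y = 6 → w y = 0 := by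
        intro w hw
        rintro (⟨j, i⟩ | ⟨j, ⟨⟩⟩) hy
        · simp only [lev] at hy
          have : j = 2 := Fin.ext (by show (j : ℕ) = 2; omega)
          rw [this, hw]
        · simp only [lev] at hy
          omega
      have k01 : X0 *ᵥ (X1 *ᵥ v) ∈ Fl k 7 := by
        refine Fl_succ (act0 3 _ hX1v) (lev6 _ fun i => ?_)
        have := lead_step D D' l2 hX0 1 (by omega) hX1v i
        rw [← hX0d] at this
        refine this.trans ?_
        fin_cases i
        · change _ * (X1 *ᵥ v) (.inl (1, 0)) = 0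
          rw [e1, mul_zero]
        · simp
      have k02 : X0 *ᵥ (X2 *ᵥ v) ∈ Fl k 8 := Fl7 _ (act0 4 _ hX2v)
      have k12 : X1 *ᵥ (X2 *ᵥ v) ∈ Fl k 8 := Fl7 _ (act1 4 _ hX2v)
      intro i j hij
      fin_cases i <;> fin_cases j
      · exact absurd rfl hij
      · exact k01
      · exact k02
      · change X1 *ᵥ (X0 *ᵥ v) ∈ Fl k 7
        rw [mulVec_mulVec, ← c01, ← mulVec_mulVec]
        exact k01
      · exact absurd rfl hij
      · exact k12
      · change X2 *ᵥ (X0 *ᵥ v) ∈ Fl k 8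
        rw [mulVec_mulVec, ← c02, ← mulVec_mulVec]
        exact k02
      · change X2 *ᵥ (X1 *ᵥ v) ∈ Fl k 8
        rw [mulVec_mulVec, ← c12, ← mulVec_mulVec]
        exact k12
      · exact absurd rfl hij
  -- the second generator
  let u : Ix → k := Pi.single (.inl (0, 0)) 1
  have u0 : u (.inl (0, 0)) = 1 := by simp [u]
  have u1 : u (.inl (0, 1)) = 0 := by simp [u]
  clear_value u
  have hu0 : u ∈ Fl k 0 := fun y hy => absurd hy (by omega)
  have lev3 : ∀ w : Ix → k, (∀ i, w (.inl (1, i)) = 0) → ∀ y, lev y = 3 → w y = 0 := by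
    intro w hw
    rintro (⟨j, i⟩ | ⟨j, ⟨⟩⟩) hy
    · simp only [lev] at hy
      have : j = 1 := Fin.ext (by show (j : ℕ) = 1; omega)
      rw [this, hw]
    · simp only [lev] at hy
      omega
  have lev4 : ∀ w : Ix → k, w (.inr (0, ())) = 0 → ∀ y, lev y = 4 → w y = 0 := by
    intro w hw
    rintro (⟨j, i⟩ | ⟨j, ⟨⟩⟩) hy
    · simp only [lev] at hy
      omega
    · simp only [lev] at hy
      have : j = 0 := Fin.ext (by show (j : ℕ) = 0; omega)
      rw [this, hw]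
  let l : Fin 3 → k := ![1, 0, D'.a () 0 / lam]
  have hla : D'.a () 0 / lam ≠ 0 := div_ne_zero ha1 hc
  have hla' : D'.a () 0 / lam ≠ 1 := by
    rw [Ne, div_eq_one_iff_eq hc, hlam]
    intro h0
    have : c * D'.a () 1 = 0 := by linear_combination -h0
    exact mul_ne_zero hc0 ha2 this
  have hli : Function.Injective l := by
    intro i j hij
    fin_cases i <;> fin_cases j
    · rfl
    · exact absurd hij one_ne_zero
    · exact absurd hij.symm hla'
    · exact absurd hij.symm one_ne_zero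
    · rfl
    · exact absurd hij.symm hla
    · exact absurd hij hla'
    · exact absurd hij hla
    · rfl
  have hu : ∀ i, X i *ᵥ u - l i • (X i *ᵥ v) ∈ Fl k (d i + 1) := by
    intro i
    rw [← mulVec_smul, ← mulVec_sub]
    fin_cases i
    · change X0 *ᵥ (u - (1 : k) • v) ∈ Fl k 4
      have h0 : u - (1 : k) • v ∈ Fl k (3 * 0) := fun y hy => absurd hy (by omega)
      refine Fl_succ (m := 3) (act0 0 _ h0) (lev3 _ fun i => ?_)
      have := lead_step D D' l2 hX0 0 (by omega) h0 i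
      rw [← hX0d] at this
      refine this.trans ?_
      fin_cases i
      · change _ * (u - (1 : k) • v) (.inl (0, 0)) = 0
        rw [Pi.sub_apply, Pi.smul_apply, u0, v0]
        simp
      · simp
    · change X1 *ᵥ (u - (0 : k) • v) ∈ Fl k 4
      have h0 : u - (0 : k) • v ∈ Fl k (3 * 0) := fun y hy => absurd hy (by omega)
      refine Fl_succ (m := 3) (act1 0 _ h0) (lev3 _ fun i => ?_)
      have := lead_step D D' l1 hX1 0 (by omega) h0 i
      rw [← hX1d] at this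
      refine this.trans ?_
      fin_cases i
      · simp
      · change _ * (u - (0 : k) • v) (.inl (0, 1)) = 0
        rw [Pi.sub_apply, Pi.smul_apply, u1, v1]
        simp
    · change X2 *ᵥ (u - (D'.a () 0 / lam) • v) ∈ Fl k 5
      have h0 : u - (D'.a () 0 / lam) • v ∈ Fl k 0 := fun y hy => absurd hy (by omega)
      refine Fl_succ (m := 4) (act2 0 _ h0) (lev4 _ ?_)
      have h5 := (lead_Z D' hL' (u - (D'.a () 0 / lam) • v) (lam := 0) (by
        rw [Pi.sub_apply, Pi.smul_apply, Pi.sub_apply, Pi.smul_apply, u0, u1, v0, v1, smul_eq_mul,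
          smul_eq_mul]
        have h6 : D'.a () 0 / lam * lam = D'.a () 0 := div_mul_cancel₀ _ hc
        rw [hlam] at h6 ⊢
        linear_combination -h6)).1.2
      rw [← hX2d, pow_one, neg_zero] at h5
      exact h5
  have tot : (⊤ : Submodule k (Ix → k)) ≤
      Submodule.span k {v} ⊔ Submodule.span k {u} ⊔ Fl k 1 := by
    intro w _
    set y : k := w (.inl (0, 1)) / c with hy
    have hw' : w = (y • v + (w (.inl (0, 0)) - y) • u) +
        (w - (y • v + (w (.inl (0, 0)) - y) • u)) := by abel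
    rw [hw']
    refine Submodule.add_mem_sup (Submodule.add_mem_sup
      (Submodule.smul_mem _ _ (Submodule.mem_span_singleton_self v))
      (Submodule.smul_mem _ _ (Submodule.mem_span_singleton_self u))) ?_
    refine Fl_succ (m := 0) (fun y hy => absurd hy (by omega)) ?_
    rintro (⟨j, i⟩ | ⟨j, ⟨⟩⟩) hlev
    · simp only [lev] at hlev
      have : j = 0 := Fin.ext (by show (j : ℕ) = 0; omega)
      subst this
      fin_cases i
      · change w (.inl (0, 0)) - (y * v (.inl (0, 0)) + (w (.inl (0, 0)) - y) * u (.inl (0, 0))) = 0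
        rw [u0, v0]
        ring
      · change w (.inl (0, 1)) - (y * v (.inl (0, 1)) + (w (.inl (0, 0)) - y) * u (.inl (0, 1))) = 0
        rw [u1, v1, hy, div_mul_cancel₀ _ hc0]
        ring
    · simp only [lev] at hlev
      omega
  have hcl : Cl X := cl_lead2 hLD le_rfl (fun i => by fin_cases i <;> simp [pp])
    (by simp [pp, Ix]) hli hu tot
  have m0 : X0 ∈ adj X := mem_adj X 0
  have m1 : X1 ∈ adj X := mem_adj X 1
  have m2 : X2 ∈ adj X := mem_adj X 2
  have mC : Bm D' ∈ adj X := by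
    have h1 := SMulMemClass.smul_mem (l1 - l2)⁻¹ (sub_mem m0 m1)
    have h2 : (l1 - l2)⁻¹ • (X0 - X1) = Bm D' := by
      rw [hX0d, hX1d, sub_sub_sub_cancel_left, ← sub_smul, smul_smul, inv_mul_cancel₀ hδ, one_smul]
    rwa [h2] at h1
  have mB : Bm D ∈ adj X := by
    have h1 := add_mem m0 (SMulMemClass.smul_mem l2 mC)
    have h2 : X0 + l2 • Bm D' = Bm D := by
      rw [hX0d, sub_add_cancel]
    rwa [h2] at h1
  have mJ : J k ∈ adj X := by
    have h1 := add_mem m2 mC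
    have h2 : X2 + Bm D' = J k := by
      rw [hX2d, sub_add_cancel]
    rwa [h2] at h1
  refine cl_of_adj (T' := X) (fun i => ?_) hcl
  fin_cases i
  · exact mJ
  · exact mB
  · exact mC

end R552

end Pool.Agent.Lib.D13
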