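import Pool.Agent.Lib.D13.R552g
import Pool.Agent.Lib.D13.T552g
import Pool.Agent.Lib.D13.Frame

/-!
# MP_5dcbc3_ag: there is no maximal bad triple of the Jordan type `(5, 5, 2)`
-/

namespace Pool.Agent.Lib.D13

open Matrix Pool.Agent.Lib.Q5dc Pool.Agent.Lib.D7
open scoped Kronecker

namespace R552

variable {k : Type*} [Field k]

/-- polarization of the power `N + 1` -/
theorem polar {n : Type*} [Fintype n] [DecidableEq n] [CharZero k] {A B : Matrix n n k}
    (h : A * B = B * A) (N : ℕ) (H : ∀ s : k, (A + s • B) ^ (N + 1) = 0) : A ^ N * B = 0 := by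
  have hc : Commute A B := h
  ext x y
  obtain ⟨p, hp⟩ : ∃ p : Polynomial k, p = ∑ m ∈ Finset.range (N + 2),
      Polynomial.C ((A ^ m * B ^ (N + 1 - m)) x y * ((N + 1).choose m : k)) *
        Polynomial.X ^ (N + 1 - m) := ⟨_, rfl⟩
  have hp0 : p = 0 := by
    refine Polynomial.funext fun s => ?_
    have h1 := congrFun (congrFun (H s) x) y
    rw [(hc.smul_right s).add_pow, Matrix.sum_apply] at h1
    rw [hp, Polynomial.eval_finsetSum, Polynomial.eval_zero]
    refine Eq.trans (Finset.sum_congr rfl fun m _ => ?_) h1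
    have e : A ^ m * (s • B) ^ (N + 1 - m) * (((N + 1).choose m : ℕ) : Matrix n n k) =
        (((N + 1).choose m : k) * s ^ (N + 1 - m)) • (A ^ m * B ^ (N + 1 - m)) := by
      rw [smul_pow, mul_smul_comm, smul_mul_assoc, ← nsmul_eq_mul', ← Nat.cast_smul_eq_nsmul k,
        smul_smul, mul_comm]
    rw [e, Polynomial.eval_mul, Polynomial.eval_C, Polynomial.eval_pow, Polynomial.eval_X,
      Matrix.smul_apply, smul_eq_mul]
    ring
  have h2 : p.coeff 1 = (A ^ N * B) x y * ((N + 1 : ℕ) : k) := by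
    rw [hp, Polynomial.finsetSum_coeff, Finset.sum_eq_single N]
    · rw [Polynomial.coeff_C_mul, Polynomial.coeff_X_pow]
      have e1 : N + 1 - N = 1 := by omega
      rw [e1, pow_one, if_pos rfl, mul_one]
      simp
    · intro m hm hmN
      rw [Finset.mem_range] at hm
      rw [Polynomial.coeff_C_mul, Polynomial.coeff_X_pow, if_neg (by omega), mul_zero]
    · intro h3
      exact absurd (Finset.mem_range.2 (by omega)) h3
  rw [hp0, Polynomial.coeff_zero] at h2
  have h3 : ((N + 1 : ℕ) : k) ≠ 0 := Nat.cast_ne_zero.2 (Nat.succ_ne_zero N)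
  exact (mul_eq_zero.1 h2.symm).resolve_right h3

/-- the shape of the matrices -/
theorem shape [CharZero k] {B : Matrix Ix Ix k} (hc : J k * B = B * J k) (h4 : J k ^ 4 * B = 0)
    (hn : IsNilpotent B) : ∃ (ν : k) (D : Dt k), B = ν • J k + Bm D := by
  obtain ⟨X, Y, Z, V, rfl⟩ : ∃ X Y Z V, B = fromBlocks X Y Z V :=
    ⟨_, _, _, _, (Matrix.fromBlocks_toBlocks B).symm⟩
  unfold J at hc
  rw [fromBlocks_multiply, fromBlocks_multiply, fromBlocks_inj] at hc
  simp only [Matrix.zero_mul, Matrix.mul_zero, add_zero, zero_add] at hc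
  obtain ⟨hX, hY, hZ, hV⟩ := hc
  have cX : ∀ i j, S k * (Matrix.of fun a b => X (a, i) (b, j)) =
      (Matrix.of fun a b => X (a, i) (b, j)) * S k := by
    intro i j
    ext a b
    have := congrFun (congrFun hX (a, i)) (b, j)
    simp only [Matrix.mul_apply, Fintype.sum_prod_type, kroneckerMap_apply, Matrix.of_apply] at this ⊢
    simpa [Matrix.one_apply, Finset.sum_ite_eq, mul_ite, ite_mul] using this
  have cY : ∀ i j, S k * (Matrix.of fun a b => Y (a, i) (b, j)) =
      (Matrix.of fun a b => Y (a, i) (b, j)) * s k := by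
    intro i j
    ext a b
    have := congrFun (congrFun hY (a, i)) (b, j)
    simp only [Matrix.mul_apply, Fintype.sum_prod_type, kroneckerMap_apply, Matrix.of_apply] at this ⊢
    simpa [Matrix.one_apply, Finset.sum_ite_eq, mul_ite, ite_mul] using this
  have cZ : ∀ i j, s k * (Matrix.of fun a b => Z (a, i) (b, j)) =
      (Matrix.of fun a b => Z (a, i) (b, j)) * S k := by
    intro i j
    ext a b
    have := congrFun (congrFun hZ (a, i)) (b, j)
    simp only [Matrix.mul_apply, Fintype.sum_prod_type, kroneckerMap_apply, Matrix.of_apply] at this ⊢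
    simpa [Matrix.one_apply, Finset.sum_ite_eq, mul_ite, ite_mul] using this
  have cV : ∀ i j, s k * (Matrix.of fun a b => V (a, i) (b, j)) =
      (Matrix.of fun a b => V (a, i) (b, j)) * s k := by
    intro i j
    ext a b
    have := congrFun (congrFun hV (a, i)) (b, j)
    simp only [Matrix.mul_apply, Fintype.sum_prod_type, kroneckerMap_apply, Matrix.of_apply] at this ⊢
    simpa [Matrix.one_apply, Finset.sum_ite_eq, mul_ite, ite_mul] using this
  have tX := fun i j => toeplitz (cX i j)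
  have tY := fun i j => tall (cY i j)
  have tZ := fun i j => wide (cZ i j)
  have tV := fun i j => small (cV i j)
  have eX : X = (1 : Matrix (Fin 5) (Fin 5) k) ⊗ₖ (Matrix.of fun i j => X (0, i) (0, j)) +
      S k ⊗ₖ (Matrix.of fun i j => X (1, i) (0, j)) +
      S2 k ⊗ₖ (Matrix.of fun i j => X (2, i) (0, j)) +
      S3 k ⊗ₖ (Matrix.of fun i j => X (3, i) (0, j)) +
      S4 k ⊗ₖ (Matrix.of fun i j => X (4, i) (0, j)) := by
    ext ⟨a, i⟩ ⟨b, j⟩
    have := congrFun (congrFun (tX i j) a) b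
    simp only [Matrix.of_apply, Matrix.add_apply, Matrix.smul_apply, smul_eq_mul] at this
    simp only [Matrix.add_apply, kroneckerMap_apply, Matrix.of_apply]
    rw [this]
    ring
  have eY : Y = P k ⊗ₖ (Matrix.of fun i j => Y (3, i) (0, j)) +
      P1 k ⊗ₖ (Matrix.of fun i j => Y (4, i) (0, j)) := by
    ext ⟨a, i⟩ ⟨b, j⟩
    have := congrFun (congrFun (tY i j) a) b
    simp only [Matrix.of_apply, Matrix.add_apply, Matrix.smul_apply, smul_eq_mul] at this
    simp only [Matrix.add_apply, kroneckerMap_apply, Matrix.of_apply]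
    rw [this]
    ring
  have eZ : Z = Q k ⊗ₖ (Matrix.of fun i j => Z (0, i) (0, j)) +
      Q1 k ⊗ₖ (Matrix.of fun i j => Z (1, i) (0, j)) := by
    ext ⟨a, i⟩ ⟨b, j⟩
    have := congrFun (congrFun (tZ i j) a) b
    simp only [Matrix.of_apply, Matrix.add_apply, Matrix.smul_apply, smul_eq_mul] at this
    simp only [Matrix.add_apply, kroneckerMap_apply, Matrix.of_apply]
    rw [this]
    ring
  have eV : V = (1 : Matrix (Fin 2) (Fin 2) k) ⊗ₖ (Matrix.of fun i j => V (0, i) (0, j)) +
      s k ⊗ₖ (Matrix.of fun i j => V (1, i) (0, j)) := by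
    ext ⟨a, i⟩ ⟨b, j⟩
    have := congrFun (congrFun (tV i j) a) b
    simp only [Matrix.of_apply, Matrix.add_apply, Matrix.smul_apply, smul_eq_mul] at this
    simp only [Matrix.add_apply, kroneckerMap_apply, Matrix.of_apply]
    rw [this]
    ring
  generalize (Matrix.of fun i j => X (0, i) (0, j) : Matrix (Fin 2) (Fin 2) k) = N0 at eX
  generalize (Matrix.of fun i j => X (1, i) (0, j) : Matrix (Fin 2) (Fin 2) k) = L at eX
  generalize (Matrix.of fun i j => X (2, i) (0, j) : Matrix (Fin 2) (Fin 2) k) = N1 at eX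
  generalize (Matrix.of fun i j => X (3, i) (0, j) : Matrix (Fin 2) (Fin 2) k) = N2 at eX
  generalize (Matrix.of fun i j => X (4, i) (0, j) : Matrix (Fin 2) (Fin 2) k) = N3 at eX
  generalize (Matrix.of fun i j => Y (3, i) (0, j) : Matrix (Fin 2) Unit k) = b at eY
  generalize (Matrix.of fun i j => Y (4, i) (0, j) : Matrix (Fin 2) Unit k) = b1 at eY
  generalize (Matrix.of fun i j => Z (0, i) (0, j) : Matrix Unit (Fin 2) k) = a at eZ
  generalize (Matrix.of fun i j => Z (1, i) (0, j) : Matrix Unit (Fin 2) k) = a1 at eZ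
  generalize (Matrix.of fun i j => V (0, i) (0, j) : Matrix Unit Unit k) = w0 at eV
  generalize (Matrix.of fun i j => V (1, i) (0, j) : Matrix Unit Unit k) = w1 at eV
  -- `N0 = 0`
  have hJ4 : J k ^ 4 = fromBlocks (S4 k ⊗ₖ (1 : Matrix (Fin 2) (Fin 2) k)) 0 0 0 := by
    have e : J k ^ 4 = (J k * J k) * (J k * J k) := by
      rw [pow_succ, pow_succ, pow_two]
      simp only [Matrix.mul_assoc]
    rw [e]
    unfold J
    rw [fromBlocks_multiply, fromBlocks_multiply]
    simp only [Matrix.mul_zero, Matrix.zero_mul, add_zero, zero_add, ← mul_kronecker_mul, S_S,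
      S2_S2, s_s, Matrix.mul_one, zero_kronecker]
  have hN0 : N0 = 0 := by
    rw [hJ4, fromBlocks_multiply] at h4
    have h6 := congrArg Matrix.toBlocks₁₁ h4
    rw [toBlocks_fromBlocks₁₁, eX] at h6
    simp only [Matrix.mul_add, ← mul_kronecker_mul, Matrix.mul_one, Matrix.one_mul, S4_S, S4_S2,
      S4_S3, S4_S4, zero_kronecker, add_zero, Matrix.zero_mul] at h6
    have h7 : S4 k ⊗ₖ N0 = 0 := h6
    ext i j
    have := congrFun (congrFun h7 (4, i)) (0, j)
    simpa [kroneckerMap_apply, S4] using this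
  subst hN0
  -- the trace
  have hw0 : w0 = 0 := by
    have h5 : (fromBlocks X Y Z V).trace = 0 :=
      (Matrix.isNilpotent_trace_of_isNilpotent hn).eq_zero
    have h6 : (fromBlocks X Y Z V).trace = X.trace + V.trace := by
      simp [Matrix.trace, Fintype.sum_sum_type]
    have tS : (S k).trace = 0 := by simp [Matrix.trace, Fin.sum_univ_five, S]
    have tS2 : (S2 k).trace = 0 := by simp [Matrix.trace, Fin.sum_univ_five, S2]
    have tS3 : (S3 k).trace = 0 := by simp [Matrix.trace, Fin.sum_univ_five, S3]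
    have tS4 : (S4 k).trace = 0 := by simp [Matrix.trace, Fin.sum_univ_five, S4]
    have ts : (s k).trace = 0 := by simp [Matrix.trace, Fin.sum_univ_two, s]
    rw [h5, eX, eV] at h6
    simp only [Matrix.trace_add, Matrix.trace_kronecker, tS, tS2, tS3, tS4, ts, zero_mul,
      add_zero, Matrix.trace_zero, mul_zero, zero_add, Matrix.trace_one, Fintype.card_fin] at h6
    ext i j
    cases i
    cases j
    have h7 : (2 : k) * w0.trace = 0 := by
      rw [h6]
      norm_num
    have h8 := (mul_eq_zero.1 h7).resolve_left two_ne_zero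
    simpa [Matrix.trace] using h8
  subst hw0
  obtain ⟨ν, rfl⟩ : ∃ ν : k, w1 = ν • (1 : Matrix Unit Unit k) := by
    refine ⟨w1 () (), ?_⟩
    ext i j
    cases i
    cases j
    simp
  refine ⟨ν, ⟨L - ν • 1, N1, N2, N3, a, a1, b, b1⟩, ?_⟩
  unfold Bm J
  rw [fromBlocks_smul, fromBlocks_add, fromBlocks_inj]
  refine ⟨?_, ?_, ?_, ?_⟩
  · rw [eX, kronecker_zero]
    have : S k ⊗ₖ (L - ν • (1 : Matrix (Fin 2) (Fin 2) k)) =
        S k ⊗ₖ L - ν • (S k ⊗ₖ (1 : Matrix (Fin 2) (Fin 2) k)) := by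
      ext i j
      simp only [kroneckerMap_apply, Matrix.sub_apply, Matrix.smul_apply, smul_eq_mul]
      ring
    simp only [this]
    abel
  · rw [eY, smul_zero, zero_add]
  · rw [eZ, smul_zero, zero_add]
  · rw [eV, kronecker_zero, zero_add, add_zero, kronecker_smul]

theorem gen (k : Type*) [Field k] [IsAlgClosed k] : Gen k :=
  fun _ _ h _ _ hl hL hL' ha1 ha2 hb1 hb2 => gen552 h hl hL hL' ha1 ha2 hb1 hb2

/-- there is no maximal bad triple of the Jordan type `(5, 5, 2)` -/
theorem no_552 [IsAlgClosed k] [CharZero k] {ρ : ℕ → ℕ} {T : Fin 3 → Matrix Ix Ix k}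
    (hT : MaxR ρ T) (hρ : ∀ i, ρ i = (J k ^ i).rank) (h0 : T 0 = J k) : False := by
  have hJ5 : J k ^ 5 = 0 := by
    have e : J k ^ 5 = (J k * J k) * (J k * J k) * J k := by
      rw [pow_succ, pow_succ, pow_succ, pow_two]
      simp only [Matrix.mul_assoc]
    rw [e]
    unfold J
    rw [fromBlocks_multiply, fromBlocks_multiply, fromBlocks_multiply]
    simp only [Matrix.mul_zero, Matrix.zero_mul, add_zero, zero_add, ← mul_kronecker_mul, S_S,
      S2_S2, S4_S, s_s, Matrix.mul_one, zero_kronecker, fromBlocks_zero]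
  have h5 : ρ 5 = 0 := by rw [hρ, hJ5, Matrix.rank_zero]
  have key : ∀ i, ∃ (ν : k) (D : Dt k), T i = ν • J k + Bm D := by
    intro i
    refine shape ?_ ?_ (hT.cn.2 i)
    · rw [← h0]
      exact hT.cn.1 0 i
    · rw [← h0]
      refine polar (hT.cn.1 0 i) 4 fun s => ?_
      exact hT.pow_eq_zero (add_mem (mem_adj T 0) (SMulMemClass.smul_mem s (mem_adj T i))) h5
  obtain ⟨ν, D, h1⟩ := key 1
  obtain ⟨ν', D', h2⟩ := key 2
  have hrel : Rel D D' := by
    rw [← comm_iff]
    have h3 := hT.cn.1 1 2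
    rw [h1, h2] at h3
    have h4 : Bm D = (ν • J k + Bm D) - ν • J k := by abel
    have h5 : Bm D' = (ν' • J k + Bm D') - ν' • J k := by abel
    have c1 := J_Bm D
    have c2 := J_Bm D'
    simp only [Matrix.add_mul, Matrix.mul_add, Matrix.smul_mul, Matrix.mul_smul, c1, c2,
      smul_comm ν ν'] at h3
    linear_combination (norm := module) h3
  have hG : Cl ![J k, Bm D, Bm D'] := all (gen k) hrel
  refine hT.ncl (cl_of_adj (T' := ![J k, Bm D, Bm D']) (fun i => ?_) hG)
  have m0 : J k ∈ adj ![J k, Bm D, Bm D'] := mem_adj ![J k, Bm D, Bm D'] 0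
  have m1 : Bm D ∈ adj ![J k, Bm D, Bm D'] := mem_adj ![J k, Bm D, Bm D'] 1
  have m2 : Bm D' ∈ adj ![J k, Bm D, Bm D'] := mem_adj ![J k, Bm D, Bm D'] 2
  fin_cases i
  · show T 0 ∈ _
    rw [h0]
    exact m0
  · show T 1 ∈ _
    rw [h1]
    exact add_mem (SMulMemClass.smul_mem ν m0) m1
  · show T 2 ∈ _
    rw [h2]
    exact add_mem (SMulMemClass.smul_mem ν' m0) m2

end R552

end Pool.Agent.Lib.D13
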