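import Pool.Agent.Lib.D13.ReflW

/-!
# MP_5dcbc3_ag: density certificates, type 4321, h = (2,4,3,1), h* = (3,4,2,1), d = 10, weights (2,3,3): `x = t, y = t / (1 + t ^ 3), z = t ^ 2 / (1 + t ^ 3)`, levels `v : 0, 2, 4, 6; u : 0, 3, 6; w : 3, 6; p : 3`
-/

namespace Pool.Agent.Lib.D13.RW4321a

open Refl

/-- the base point -/
def bs : Base where
  lev := [0, 0, 2, 3, 3, 3, 4, 6, 6, 6]
  pw := [[[(0, 1)], [(1, 1)], [(2, 1)], [(3, 1)], [(4, 1)], [(5, 1)], [(6, 1)], [(7, 1)], [(8, 1)],
      [(9, 1)]],
    [[], [(0, 1)], [(1, 1)], [(5, -1)], [(3, 1), (9, -1)], [(4, 1)], [(2, 1), (5, 1)], [(6, 1),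
      (9, 1)], [(7, 1)], [(8, 1)]],
    [[], [], [(0, 1)], [(4, -1)], [(5, -1), (8, -1)], [(3, 1), (9, -1)], [(1, 1), (4, 1)], [(2,
      1), (5, 1), (8, 1)], [(6, 1), (9, 1)], [(7, 1)]],
    [[], [], [], [(3, -1), (9, 1)], [(4, -1), (7, -1)], [(5, -1), (8, -1)], [(0, 1), (3, 1),
      (9, -1)], [(1, 1), (4, 1), (7, 1)], [(2, 1), (5, 1), (8, 1)], [(6, 1), (9, 1)]],
    [[], [], [], [(5, 1), (8, 1)], [(3, -1), (6, -1)], [(4, -1), (7, -1)], [(5, -1), (8, -1)],
      [(0, 1), (3, 1), (6, 1)], [(1, 1), (4, 1), (7, 1)], [(2, 1), (5, 1), (8, 1)]],
    [[], [], [], [(4, 1), (7, 1)], [(2, -1)], [(3, -1), (6, -1)], [(4, -1), (7, -1)], [(2, 1)],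
      [(0, 1), (3, 1), (6, 1)], [(1, 1), (4, 1), (7, 1)]],
    [[], [], [], [(3, 1), (6, 1)], [(1, -1)], [(2, -1)], [(3, -1), (6, -1)], [(1, 1)], [(2,
      1)], [(0, 1), (3, 1), (6, 1)]],
    [[], [], [], [(2, 1)], [(0, -1)], [(1, -1)], [(2, -1)], [(0, 1)], [(1, 1)], [(2, 1)]],
    [[], [], [], [(1, 1)], [], [(0, -1)], [(1, -1)], [], [(0, 1)], [(1, 1)]],
    [[], [], [], [(0, 1)], [], [], [(0, -1)], [], [], [(0, 1)]]]
  xc := [[(1, 1)], [(1, 1), (4, -1), (7, 1)], [(2, 1), (5, -1), (8, 1)]]
  X := [[[], [(0, 1)], [(1, 1)], [(5, -1)], [(3, 1), (9, -1)], [(4, 1)], [(2, 1), (5, 1)], [(6, 1),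
      (9, 1)], [(7, 1)], [(8, 1)]],
    [[], [(0, 1)], [(1, 1)], [(2, 1), (5, -2), (8, -1)], [(0, -1), (3, 2), (6, 1), (9, -1)],
      [(1, -1), (4, 2), (7, 1)], [(5, 2), (8, 1)], [(3, -1), (9, 1)], [(4, -1)], [(5, -1)]],
    [[], [], [(0, 1)], [(1, 1), (4, -2), (7, -1)], [(2, 1), (5, -1), (8, -1)], [(0, -1), (3,
      2), (6, 1), (9, -1)], [(4, 2), (7, 1)], [(5, 1), (8, 1)], [(3, -1), (9, 1)], [(4, -1)]]]

/-- degrees -/
def dl : List ℕ := [2, 3, 3]

theorem bs_ck : bs.ckW dl 10 = true := by decide +kernel

/-- certificate -/
def ce0 : Cer where
  den := 12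
  N := [[[(40, 12), (70, 12), (84, -12), (140, -12), (170, -12), (173, -24), (184, -24), (195, -12),
      (275, -24), (283, 24), (294, 12)],
      [(30, -21), (41, 8), (60, -9), (74, 3), (82, 3), (90, 12), (96, 3), (130, -9), (141, -7),
      (160, -3), (171, 3), (174, 2), (182, -13), (185, 11), (193, 3), (240, 18), (251, -5), (273,
      -2), (281, 11), (284, -11), (292, 2)],
      [],
      [],
      [],
      [],
      [],
      [],
      [],
      []],
    [[(20, 12)],
      [(40, -12), (51, 12), (151, -12), (170, -12), (173, -12), (184, -12), (195, -12), (275,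
      -12), (283, 12), (294, 12)],
      [],
      [],
      [],
      [],
      [],
      [],
      [],
      []],
    [[(30, -12), (41, -4), (90, 12), (130, 24), (141, -4), (174, 8), (182, 8), (185, -16), (193,
      -12), (240, -12), (251, 4), (273, -8), (281, -16), (284, 16), (292, 8)],
      [],
      [(21, -8), (40, -8), (51, 4), (62, 4), (76, 4), (84, -8), (95, 4), (151, -4), (170, -8),
      (173, -20), (184, -16), (192, 4), (195, -16), (231, 4), (275, -24), (283, 16), (291, -4),
      (294, 16)],
      [],
      [],
      [],
      [],
      [],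
      [],
      []],
    [[(151, 12), (184, 12), (192, -12), (195, 12), (231, 12), (280, -12), (283, -12), (294,
      -12)],
      [(41, 12)],
      [(83, 12), (271, 12), (282, -12)],
      [(40, 12), (51, -12), (151, 12), (184, 24), (195, 24), (231, 12), (280, 12), (283, -24),
      (291, -24), (294, -24)],
      [(41, 4), (130, -12), (141, 4), (174, -8), (182, -8), (185, 16), (193, 12), (240, 12),
      (251, -4), (273, 8), (281, 16), (284, -16), (292, -8)],
      [(20, 66), (50, -12), (61, 6), (72, -60), (75, 66), (83, 12), (86, 6), (91, -6), (172, 24),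
      (175, -24), (180, -12), (183, -48), (191, 12), (194, 24), (230, -66), (241, 72), (260,
      -66), (271, 54), (274, 24), (282, 42), (285, -54), (293, -24)],
      [],
      [],
      [],
      []],
    [[(50, 12), (91, 12)],
      [(40, -12), (51, 12), (192, -12), (280, -12), (291, 12)],
      [],
      [(20, -42), (61, -6), (72, 36), (75, -42), (86, -6), (91, -6), (172, -12), (175, 12), (183,
      24), (194, -12), (230, 42), (241, -48), (260, 42), (271, -30), (274, -12), (282, -30),
      (285, 30), (293, 12)],
      [(195, 12), (294, -12)],
      [(41, -4), (130, -12), (141, 8), (174, -4), (182, -4), (185, 8), (193, 12), (240, 12),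
      (251, -8), (273, 4), (281, 8), (284, -8), (292, -4)],
      [],
      [],
      [],
      []],
    [[],
      [],
      [(40, -12), (51, 12), (151, -12), (184, -12), (192, -12), (195, -12), (231, -12), (280,
      -12), (283, 12), (291, 24), (294, 12)],
      [(130, 12), (182, 12), (185, -12), (193, -12), (240, -12), (281, -12), (284, 12)],
      [(20, -54), (61, -6), (72, 48), (75, -54), (86, -6), (91, -6), (172, -12), (175, 12), (183,
      36), (194, -24), (230, 54), (241, -60), (260, 54), (271, -42), (274, -12), (282, -42),
      (285, 42), (293, 24)],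
      [],
      [],
      [],
      [],
      []],
    [[(51, 12), (70, 12), (84, -12), (151, -24), (170, -12), (173, -24), (184, -48), (192, 12),
      (195, -48), (231, -24), (275, -24), (280, 12), (283, 48), (291, 12), (294, 48)],
      [(30, -21), (41, -12), (60, -9), (74, 3), (82, 3), (90, 12), (96, 3), (130, 15), (141, -3),
      (160, -3), (171, 3), (174, 6), (182, 3), (185, -9), (193, -9), (240, -6), (251, 3), (273,
      -6), (281, -9), (284, 9), (292, 6)],
      [(61, -12), (91, -12)],
      [(40, -12), (51, 12), (73, 12), (84, -12), (151, -12), (173, -24), (184, -36), (195, -36),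
      (231, -12), (275, -24), (280, -12), (283, 36), (291, 24), (294, 36)],
      [(30, -9), (41, 12), (60, -9), (74, 3), (82, 3), (96, 3), (130, 27), (141, -3), (160, 9),
      (171, 3), (174, 6), (182, 3), (185, -21), (193, -9), (240, -18), (251, 3), (273, -6), (281,
      -9), (284, 21), (292, -6)],
      [(20, -72), (50, 12), (61, -12), (72, 60), (75, -60), (83, -12), (172, -24), (175, 24),
      (180, 12), (183, 48), (191, -12), (194, -24), (230, 72), (241, -72), (260, 72), (271, -48),
      (274, -24), (282, -48), (285, 48), (293, 24)],
      [(21, -4), (40, -16), (51, 20), (62, -4), (76, 8), (84, -16), (95, 8), (151, -20), (170,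
      -4), (173, -28), (184, -44), (192, -4), (195, -44), (231, -16), (275, -36), (280, -12),
      (283, 44), (291, 28), (294, 44)],
      [],
      [],
      []],
    [[(80, 12), (91, -12)],
      [(151, -12), (170, -12), (173, -12), (184, -24), (192, 12), (195, -24), (231, -12), (275,
      -12), (280, 12), (283, 24), (294, 24)],
      [(30, -6), (41, -8), (60, -6), (74, -6), (82, 6), (96, 6), (130, 18), (141, -2), (160, 6),
      (171, -6), (174, 4), (182, 10), (185, -14), (193, -6), (240, -12), (251, 2), (273, -4),
      (281, -14), (284, 14), (292, 4)],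
      [(20, 36), (72, -36), (75, 36), (83, 12), (172, 12), (175, -12), (183, -24), (194, 12),
      (230, -36), (241, 36), (260, -36), (271, 24), (274, 12), (282, 24), (285, -24), (293,
      -12)],
      [(173, -12), (184, -12), (195, -12), (275, -12), (283, 12), (294, 12)],
      [(30, -6), (41, 16), (60, -6), (74, -6), (82, 6), (96, 6), (130, 18), (141, -2), (160, 6),
      (171, 6), (174, 4), (182, -2), (185, -14), (193, -6), (240, -12), (251, 2), (273, -4),
      (281, -2), (284, 14), (292, -8)],
      [(61, -12), (72, -12), (91, -12)],
      [(173, -12), (184, -12), (195, -12), (275, -24), (283, 12), (294, 12)],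
      [(30, -12), (41, 48), (60, -12), (74, -12), (82, 12), (96, 12), (130, 36), (160, 12), (171,
      12), (174, 12), (182, -12), (185, -24), (240, -24), (281, 12), (284, 24), (292, -36)],
      [(20, -48), (61, -12), (72, 36), (75, -48), (83, -36), (86, 12), (91, -12), (172, -24),
      (175, 24), (183, 36), (194, -12), (230, 48), (241, -48), (260, 48), (271, -36), (274, -12),
      (282, -24), (285, 24), (293, 12)]],
    [[(30, -12), (41, -12), (90, 12)],
      [],
      [],
      [(41, -12), (281, -12), (292, 12)],
      [(20, 36), (72, -36), (75, 36), (172, 12), (175, -12), (183, -24), (194, 12), (230, -36),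
      (241, 36), (260, -36), (271, 24), (274, 12), (282, 24), (285, -24), (293, -12)],
      [],
      [(30, -3), (41, -4), (60, -3), (74, -3), (82, -3), (96, 9), (130, 9), (141, -1), (160, 3),
      (171, -3), (174, 2), (182, 5), (185, -7), (193, -3), (240, -6), (251, 1), (273, -2), (281,
      -7), (284, 7), (292, 2)],
      [(61, -12), (72, -12), (86, -12), (91, -12)],
      [(184, 12), (195, 12), (294, -12)],
      [(30, -6), (41, 24), (60, -6), (74, -6), (82, -6), (96, 18), (130, 18), (141, 6), (160, 6),
      (171, -6), (182, 6), (185, -6), (193, 6), (240, -12), (251, -6), (281, 18), (284, 18),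
      (292, -36)]],
    [[],
      [],
      [],
      [(40, 12), (51, -12), (151, 12), (184, 12), (195, 12), (231, 12), (280, 12), (283, -12),
      (291, -24), (294, -12)],
      [],
      [(20, 36), (50, -12), (72, -36), (75, 36), (91, -12), (172, 12), (175, -12), (180, -12),
      (183, -24), (191, 12), (194, 12), (230, -36), (241, 36), (260, -36), (271, 24), (274, 12),
      (282, 24), (285, -24), (293, -12)],
      [(40, 12), (51, -12), (84, 12), (95, -12), (151, 12), (173, 12), (184, 24), (195, 24),
      (231, 12), (275, 12), (280, 12), (283, -24), (291, -24), (294, -24)],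
      [],
      [(20, -12), (50, -24), (61, -12), (75, -12), (86, -12), (91, -36), (180, -24), (191, 24),
      (230, 12), (241, -12), (260, 12), (271, -12), (282, -12), (285, 12), (293, 12)],
      [(84, 24), (95, -24), (173, 24), (184, 24), (195, 36), (275, 24), (283, -24), (294, -24)]]]
  A := [[[(21, 4), (40, 4), (51, -8), (62, 4), (76, 4), (84, -8), (95, 4), (151, 8), (170, 4), (173,
      -8), (184, -4), (192, 4), (195, -4), (231, 4), (275, -12), (283, 4), (291, -4), (294, 4)],
      [],
      [(30, 3), (41, 4), (60, 3), (74, 3), (82, 3), (96, 3), (130, -9), (141, 1), (160, -3),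
      (171, 3), (174, -2), (182, -5), (185, 7), (193, 3), (240, 6), (251, -1), (273, 2), (281,
      7), (284, -7), (292, -2)],
      [(84, 12), (173, 12), (184, 12), (195, 12), (275, 12), (283, -12), (294, -12)],
      [],
      [],
      [(51, -12), (151, 12), (184, 12), (195, 12), (231, 12), (283, -12), (291, -12), (294,
      -12)],
      [(91, 12)],
      [(30, 12), (41, 12)]],
    [[],
      [(20, 6), (61, -6), (72, -12), (75, 6), (83, 24), (86, -6), (91, -6), (172, 12), (183,
      -12), (230, -6), (241, 12), (260, -6), (271, 18), (282, -6), (285, -6)],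
      [(41, -12), (130, -12), (185, 12), (240, 12), (284, -12), (292, 12)],
      [],
      [(20, 30), (61, 6), (72, -24), (75, 30), (86, 6), (91, 6), (172, 12), (175, -12), (183,
      -12), (194, 12), (230, -30), (241, 24), (260, -30), (271, 18), (274, 12), (282, 18), (285,
      -18), (293, -12)],
      [(130, 12), (182, 12), (185, -12), (240, -12), (281, -12), (284, 12)],
      [],
      [(20, -66), (50, 12), (61, -6), (72, 60), (75, -66), (86, -6), (91, 6), (172, -24), (175,
      24), (180, 12), (183, 36), (194, -24), (230, 66), (241, -60), (260, 66), (271, -42), (274,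
      -24), (282, -42), (285, 42), (293, 24)],
      []],
    [[],
      [],
      [(20, -6), (61, -6), (75, -6), (83, 12), (86, -6), (91, -6), (230, 6), (260, 6), (271, 6),
      (282, -6), (285, 6)],
      [(41, -4), (130, -12), (141, -4), (174, -4), (182, -4), (185, 8), (240, 12), (251, 4),
      (273, 4), (281, 8), (284, -8), (292, 8)],
      [],
      [(20, 42), (61, 6), (72, -36), (75, 42), (86, 6), (91, 6), (172, 12), (175, -12), (183,
      -24), (194, 12), (230, -42), (241, 36), (260, -42), (271, 30), (274, 12), (282, 30), (285,
      -30), (293, -12)],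
      [(41, 4), (130, 12), (141, 4), (174, 4), (182, 4), (185, -8), (240, -12), (251, -4), (273,
      -4), (281, -8), (284, 8), (292, 4)],
      [(151, 12), (184, 12), (192, -12), (195, 12), (231, 12), (283, -12), (294, -12)],
      [(20, -78), (50, 36), (61, -6), (72, 60), (75, -66), (80, 12), (86, -6), (91, 18), (172,
      -24), (175, 24), (180, 12), (183, 48), (191, -12), (194, -24), (230, 78), (241, -72), (260,
      66), (271, -42), (274, -24), (282, -54), (285, 54), (293, 24)]]]
  W := [[[],
      [],
      [],
      [[],
       [(181, 12)]],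
      [],
      [],
      [],
      [[],
       [(70, 12), (280, 12)]],
      [[],
       [(80, 12), (91, 12), (190, -12)],
       [],
       [],
       [],
       [(81, -12)]],
      [[],
       [],
       [(190, 12)],
       [(191, 12)],
       [(90, -12)]]],
    [[],
      [],
      [],
      [[],
       [(281, 12)]],
      [],
      [[(170, 12), (270, -12)]],
      [[],
       [(71, 12), (181, -12)]],
      [],
      [[],
       [(91, 12), (190, -12)]],
      [[(280, -12)]]],
    [[],
      [],
      [],
      [],
      [],
      [[(290, -12)]],
      [[],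
       [(80, 12), (171, 12), (271, -12)]],
      [[(81, -12), (180, 12)],
       [],
       [(91, -12), (190, 12), (271, -12)]],
      [],
      [[(170, 12)],
       [],
       [],
       [],
       [],
       [(291, 12)]]]]

theorem ce0_ck : ce0.ckW bs dl 10 0 = true := by decide +kernel

/-- certificate -/
def ce1 : Cer where
  den := 1
  N := [[],
    [],
    [[(30, 1), (60, 1), (71, 1), (82, -1), (85, 1), (171, -1), (182, 1)],
      [(61, 1), (83, -1), (91, 1), (94, -1), (191, -1)],
      [],
      [],
      [],
      [],
      [],
      [],
      [],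
      []],
    [[],
      [],
      [(72, 1), (75, -1), (83, -1), (94, -1), (161, 1), (172, -1)],
      [],
      [],
      [],
      [],
      [],
      [],
      []],
    [[(83, -1), (180, -1)],
      [],
      [],
      [],
      [],
      [],
      [],
      [],
      [],
      []],
    [[],
      [],
      [(92, 1), (95, -1), (181, 1), (192, -1)],
      [],
      [],
      [],
      [],
      [],
      [],
      []],
    [[(40, 1), (70, 1), (81, 1), (84, -2)],
      [(71, 1), (82, -1), (85, 1), (171, -1), (182, 1)],
      [],
      [(81, 1), (84, -1), (181, -1), (192, 1), (261, -1), (272, 1), (291, -1)],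
      [(74, 1), (82, 1), (85, -1), (93, 1)],
      [(72, -1), (75, 1), (191, -1)],
      [],
      [],
      [],
      []],
    [[(72, 1), (75, -1), (83, 1), (180, 1), (260, 1), (271, -1), (290, 1)],
      [(81, 1), (84, -1)],
      [],
      [],
      [],
      [],
      [(72, -1), (83, -1), (94, -1), (191, -1)],
      [],
      [],
      []],
    [[(82, 2), (85, -2), (171, 1), (182, -1), (270, 1), (281, -1)],
      [],
      [],
      [(82, -1), (85, 1)],
      [(83, -1)],
      [],
      [(82, -1)],
      [],
      [],
      []],
    [[(40, -1)],
      [(82, 1), (85, -1), (171, 1), (182, -1)],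
      [(83, -1), (94, -1), (191, -1)],
      [(92, -1), (95, 1)],
      [(82, -1), (85, 1), (93, -1)],
      [(83, -1), (94, -1)],
      [(84, 1), (92, -1)],
      [],
      [],
      []]]
  A := [[[],
      [],
      [],
      [(84, 1)],
      [],
      [],
      [],
      [(83, -1), (91, 1), (94, -1), (191, -1)],
      [(30, 1)]],
    [[],
      [(72, 1), (75, -1), (161, 1), (191, 1)],
      [(82, -1), (85, 1), (182, 1)],
      [],
      [],
      [],
      [(181, 1)],
      [],
      [(82, 2), (85, -2), (93, 1), (171, 1), (182, -1), (190, 1)]],
    [[],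
      [(181, -1), (192, 1), (272, 1), (291, -1)],
      [(271, 1)],
      [(82, -2), (85, 2), (171, -1), (182, 1), (281, 1)],
      [(92, -1), (95, 1), (291, 1)],
      [],
      [],
      [],
      [(83, -1), (180, -1), (191, -1), (290, 1)]]]
  W := [[[],
      [],
      [],
      [[],
       [(71, 1)]],
      [[],
       [(81, 1)]],
      [[(90, 1)],
       [(91, 1)]],
      [],
      [[],
       [],
       [],
       [(91, 1), (171, 1)]],
      [[(90, -1), (170, -1)]],
      [[(180, -1)]]],
    [[],
      [],
      [],
      [],
      [],
      [],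
      [[(70, 1), (180, -1)]],
      [[(80, 1)]],
      [],
      []],
    [[],
      [],
      [],
      [],
      [],
      [],
      [],
      [],
      [[(190, 1)],
       [],
       [(71, 1), (181, -1)]],
      [[],
       [],
       [(81, 1), (191, -1)]]]]

theorem ce1_ck : ce1.ckW bs dl 10 1 = true := by decide +kernel

/-- certificate -/
def ce2 : Cer where
  den := 1
  N := [[],
    [],
    [[(60, 1), (71, 1), (90, 1)],
      [],
      [],
      [],
      [],
      [],
      [],
      [],
      [],
      []],
    [[(170, -1)],
      [],
      [],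
      [],
      [],
      [],
      [],
      [],
      [],
      []],
    [[(180, -1)],
      [(170, -1), (181, -1), (280, 1)],
      [],
      [],
      [],
      [],
      [],
      [],
      [],
      []],
    [],
    [[(70, 1), (81, -1)],
      [(71, 1)],
      [(61, -1)],
      [],
      [],
      [],
      [],
      [],
      [],
      []],
    [[(80, 1), (91, -1)],
      [],
      [],
      [(271, -1)],
      [],
      [],
      [(61, -1), (72, -1), (91, 1)],
      [],
      [],
      []],
    [[],
      [],
      [],
      [(270, 1), (281, -1)],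
      [],
      [(170, -1), (280, 1)],
      [(82, -1)],
      [],
      [],
      []],
    [[],
      [],
      [],
      [(170, 1), (181, 1), (280, -1), (291, -1)],
      [(190, 1)],
      [(191, 1)],
      [(81, 1), (92, -1)],
      [],
      [],
      []]]
  A := [[[],
      [],
      [],
      [(81, 1)],
      [(91, 1)],
      [],
      [],
      [],
      [(90, 1)]],
    [[],
      [],
      [(171, 1)],
      [],
      [],
      [],
      [],
      [],
      []],
    [[],
      [],
      [],
      [(270, 1)],
      [],
      [],
      [],
      [],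
      [(180, -1), (191, -1), (290, 1)]]]
  W := [[[],
      [],
      [],
      [],
      [],
      [],
      [],
      [],
      [],
      []],
    [[],
      [],
      [],
      [],
      [],
      [],
      [],
      [],
      [],
      []],
    [[],
      [],
      [],
      [],
      [],
      [],
      [],
      [],
      [],
      []]]

theorem ce2_ck : ce2.ckW bs dl 10 2 = true := by decide +kernel

/-- certificate -/
def ce3 : Cer where
  den := 1
  N := [[],
    [],
    [],
    [],
    [[(180, -1)],
      [(181, -1)],
      [],
      [],
      [],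
      [],
      [],
      [],
      [],
      []],
    [[],
      [(191, -1)],
      [],
      [],
      [],
      [],
      [],
      [],
      [],
      []],
    [[(70, 1), (81, -1)],
      [],
      [],
      [],
      [],
      [],
      [],
      [],
      [],
      []],
    [[(80, 1), (91, -1)],
      [],
      [],
      [(180, -1), (191, -1), (271, -1), (290, 1)],
      [(170, 1)],
      [],
      [],
      [],
      [],
      []],
    [[],
      [],
      [],
      [(270, 1), (281, -1)],
      [],
      [],
      [],
      [],
      [],
      []],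
    [[],
      [],
      [],
      [(181, 1), (280, 1), (291, -1)],
      [(190, 1)],
      [],
      [],
      [],
      [],
      []]]
  A := [[[],
      [],
      [(71, 1)],
      [(81, 1)],
      [],
      [],
      [],
      [(91, 1)],
      [(90, 1)]],
    [[],
      [],
      [(171, 1)],
      [],
      [],
      [],
      [],
      [],
      []],
    [[],
      [],
      [],
      [(270, 1)],
      [(280, 1)],
      [(180, -1), (290, 1)],
      [],
      [],
      []]]
  W := [[[],
      [],
      [],
      [],
      [],
      [],
      [],
      [],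
      [],
      []],
    [[],
      [],
      [],
      [],
      [],
      [],
      [],
      [],
      [],
      []],
    [[],
      [],
      [],
      [],
      [],
      [],
      [],
      [],
      [],
      []]]

theorem ce3_ck : ce3.ckW bs dl 10 3 = true := by decide +kernel

/-- certificate -/
def ce4 : Cer where
  den := 1
  N := [[],
    [],
    [],
    [],
    [],
    [],
    [],
    [[(80, 1)],
      [],
      [(71, -1)],
      [],
      [],
      [],
      [],
      [],
      [],
      []],
    [[(90, 1)],
      [],
      [(81, -1)],
      [],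
      [],
      [],
      [],
      [],
      [],
      []],
    [[(70, 1)],
      [],
      [(91, -1)],
      [],
      [],
      [],
      [],
      [],
      [],
      []]]
  A := [[],
    [],
    []]
  W := [[[],
      [],
      [],
      [],
      [],
      [],
      [],
      [],
      [],
      []],
    [[],
      [],
      [],
      [],
      [],
      [],
      [],
      [],
      [],
      []],
    [[],
      [],
      [],
      [],
      [],
      [],
      [],
      [],
      [],
      []]]

theorem ce4_ck : ce4.ckW bs dl 10 4 = true := by decide +kernel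

/-- all certificates -/
theorem cert {k : Type*} [Field k] [CharZero k] (κ : ℕ) :
    CertW (fun x : Fin 10 => bs.w x) (fun i : Fin 3 => nth 0 dl i) (Mt k 10 (nth [] bs.pw 1))
      (XX k bs 10) κ := by
  have hB : bs.ckPow 10 = true := by
    have h := bs_ck
    simp only [Base.ckW, Bool.and_eq_true] at h
    exact h.1.1
  rcases Nat.lt_or_ge κ 5 with h | h
  · interval_cases κ
    · exact certW_of_ck bs dl (by norm_num) hB ce0 ce0_ck
    · exact certW_of_ck bs dl (by norm_num) hB ce1 ce1_ck
    · exact certW_of_ck bs dl (by norm_num) hB ce2 ce2_ck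
    · exact certW_of_ck bs dl (by norm_num) hB ce3 ce3_ck
    · exact certW_of_ck bs dl (by norm_num) hB ce4 ce4_ck
  · refine certW_top fun i x => ?_
    have h1 : ∀ (i : Fin 3) (x : Fin 10), bs.w x < nth 0 dl i + 5 := by decide
    have h2 := h1 i x
    omega

end Pool.Agent.Lib.D13.RW4321a
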