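import Pool.Agent.Lib.D13.ReflW

/-!
# MP_5dcbc3_ag: density certificates, levels (2,4,2,2)-type, d = 10, weighted (1,1,2)
-/

namespace Pool.Agent.Lib.D13.RW4411

open Refl

/-- the base point -/
def bs : Base where
  lev := [0, 0, 1, 1, 2, 2, 2, 3, 2, 3]
  pw := [[[(0, 1)], [(1, 1)], [(2, 1)], [(3, 1)], [(4, 1)], [(5, 1)], [(6, 1)], [(7, 1)], [(8, 1)],
      [(9, 1)]],
    [[], [(0, 1)], [(1, 1)], [(2, 1)], [(3, 1)], [(4, 1)], [(5, 1)], [(6, 1)], [(7, 1)], [(8,
      1)]],
    [[], [], [(0, 1)], [(1, 1)], [(2, 1)], [(3, 1)], [(4, 1)], [(5, 1)], [(6, 1)], [(7, 1)]],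
    [[], [], [], [(0, 1)], [(1, 1)], [(2, 1)], [(3, 1)], [(4, 1)], [(5, 1)], [(6, 1)]],
    [[], [], [], [], [(0, 1)], [(1, 1)], [(2, 1)], [(3, 1)], [(4, 1)], [(5, 1)]],
    [[], [], [], [], [], [(0, 1)], [(1, 1)], [(2, 1)], [(3, 1)], [(4, 1)]],
    [[], [], [], [], [], [], [(0, 1)], [(1, 1)], [(2, 1)], [(3, 1)]],
    [[], [], [], [], [], [], [], [(0, 1)], [(1, 1)], [(2, 1)]],
    [[], [], [], [], [], [], [], [], [(0, 1)], [(1, 1)]],
    [[], [], [], [], [], [], [], [], [], [(0, 1)]]]
  xc := [[(1, 1)], [(2, 1)], [(5, 1)]]
  X := [[[], [(0, 1)], [(1, 1)], [(2, 1)], [(3, 1)], [(4, 1)], [(5, 1)], [(6, 1)], [(7, 1)], [(8,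
      1)]],
    [[], [], [(0, 1)], [(1, 1)], [(2, 1)], [(3, 1)], [(4, 1)], [(5, 1)], [(6, 1)], [(7, 1)]],
    [[], [], [], [], [], [(0, 1)], [(1, 1)], [(2, 1)], [(3, 1)], [(4, 1)]]]

/-- degrees -/
def dl : List ℕ := [1, 1, 2]

theorem bs_ck : bs.ckW dl 10 = true := by decide +kernel

/-- certificate -/
def ce0 : Cer where
  den := 2
  N := [[[(120, 2)],
      [(143, 1), (176, 2), (198, 1), (240, -1), (251, 2), (273, -1)],
      [],
      [],
      [],
      [],
      [],
      [],
      [],
      []],
    [[(31, 2), (42, 2), (130, 2), (196, -2), (271, -2), (293, 2)],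
      [],
      [],
      [],
      [],
      [],
      [],
      [],
      [],
      []],
    [[(30, 2), (63, 2), (151, 2), (162, -2)],
      [(31, 2)],
      [],
      [(143, 1), (198, 1), (240, -1), (273, 1)],
      [],
      [],
      [],
      [],
      [],
      []],
    [[(62, 4), (73, 2), (150, 2), (172, -2)],
      [(63, 2), (151, 2), (162, -2)],
      [],
      [(131, -2)],
      [],
      [],
      [],
      [],
      [],
      []],
    [[(72, 2), (83, 2), (94, 2), (160, 2), (193, -2)],
      [(62, 2), (73, 2), (161, 2), (172, -2)],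
      [],
      [(42, -2)],
      [(43, -2), (76, 2), (131, -2), (261, 2), (272, -2)],
      [(143, -1), (198, 1), (240, -1), (273, 1)],
      [],
      [],
      [],
      []],
    [[(82, 2), (93, 2), (170, 2), (192, -2)],
      [(61, 2), (72, 2)],
      [(62, 2)],
      [(30, -2), (140, 2), (151, -2)],
      [(31, -2), (42, -2), (152, -2), (196, 2), (271, 2), (293, -2)],
      [(131, -2), (153, -2)],
      [(176, 2), (198, 2)],
      [],
      [(178, 2)],
      []],
    [[(92, 2), (180, 2), (191, -2)],
      [(93, 2), (181, 2), (192, -2)],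
      [(72, 2)],
      [],
      [(30, -2), (63, -2), (140, 2), (151, -2)],
      [(31, -4), (42, -4), (75, 2), (152, -2), (174, -2), (196, 4), (271, 4), (293, -4)],
      [(120, -2), (131, -2), (153, -2), (250, 2), (261, -2)],
      [],
      [],
      []],
    [[(80, 2), (91, 2)],
      [],
      [],
      [],
      [(73, -2)],
      [(30, -4), (63, -2), (140, 4), (151, -4), (162, 2), (173, -2)],
      [(31, -4), (42, -4), (152, -2), (174, -2), (196, 4), (271, 4), (293, -4)],
      [(120, -2), (131, -2), (153, -2), (250, 2), (272, -2)],
      [(198, 2)],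
      [(78, -2)]],
    [[],
      [(91, 2)],
      [(81, -2)],
      [(82, -2)],
      [(83, -2)],
      [(62, -2), (73, -2), (172, 2), (183, -2)],
      [(30, -6), (63, -2), (140, 6), (151, -4), (162, 2), (173, -2), (195, -2), (281, -2), (292,
      2)],
      [],
      [],
      []],
    [[],
      [(90, -2)],
      [],
      [(81, -2), (92, -2)],
      [(82, -2), (93, -2)],
      [(83, -2), (94, -2)],
      [(62, -2), (73, -4), (172, 2), (194, -2)],
      [(30, -6), (63, -4), (140, 6), (151, -6), (162, 4), (173, -2), (195, -2)],
      [(31, -6), (42, -6), (152, -2), (174, -2), (196, 4), (271, 6), (293, -6)],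
      [(76, 2), (98, -2), (261, 2), (272, -2)]]]
  A := [[[(76, 2), (261, 2), (272, -2)],
      [],
      [],
      [],
      [],
      [],
      [],
      [],
      []],
    [[],
      [],
      [(31, -2), (42, -2), (196, 2), (271, 2), (293, -2)],
      [(30, -2), (63, -2), (140, 2), (151, -2), (162, 2)],
      [(62, -2), (73, -2), (172, 2)],
      [(83, -2), (94, -2), (193, 2)],
      [(82, -2), (93, -2), (192, 2)],
      [(81, -2), (92, -2), (191, 2)],
      [(80, -2), (91, -2), (190, 2)]],
    [[],
      [],
      [(241, 2)],
      [(143, -1), (198, 1), (240, 1), (273, 1)],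
      [(120, -2), (131, -2), (153, -2), (250, 2)],
      [(31, -6), (42, -4), (152, -2), (174, -2), (196, 4), (271, 6), (293, -4)],
      [(30, -6), (63, -4), (140, 6), (151, -6), (162, 4), (173, -2), (195, -2), (292, 2)],
      [(62, -4), (73, -6), (161, -2), (172, 4), (194, -2), (291, 2)],
      [(72, -2), (83, -4), (94, -4), (160, -2), (193, 2), (290, 2)]]]
  W := [[[],
      [],
      [[(40, -2), (291, 2)],
       [(171, -2)]],
      [],
      [[(60, -2)],
       [(61, -2)]],
      [[(70, -2), (81, -2), (92, -2)],
       [(71, -2)],
       [(50, 2)],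
       [(51, 2), (291, 2)]],
      [[(80, -2)]],
      [[(90, -2)],
       [(91, -2)],
       [],
       [],
       [(50, 2), (72, 2)]],
      [],
      [[],
       [],
       [],
       [],
       [],
       [(93, 2)],
       [(61, -2), (191, 2)]]],
    [[],
      [],
      [[],
       [(271, -2)]],
      [],
      [[],
       [(291, -2)],
       [(41, -2), (171, 2)]],
      [],
      [[],
       [],
       [],
       [(51, 2), (73, 2), (291, 2)]],
      [[],
       [(81, 2), (92, 2)],
       [],
       [],
       [],
       [(270, 2)]],
      [[],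
       [],
       [(92, 2)]],
      []],
    [[],
      [],
      [],
      [],
      [],
      [],
      [[(40, -2), (170, 2), (291, 2)]],
      [[(290, 2)]],
      [[(60, -2), (93, -2), (190, 2)]],
      []]]

theorem ce0_ck : ce0.ckW bs dl 10 0 = true := by decide +kernel

/-- certificate -/
def ce1 : Cer where
  den := 1
  N := [[],
    [],
    [[(41, -1), (140, 1), (151, 1), (173, 1)],
      [],
      [],
      [],
      [],
      [],
      [],
      [],
      [],
      []],
    [[(40, 1)],
      [(151, 1), (173, 1)],
      [],
      [],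
      [],
      [],
      [],
      [],
      [],
      []],
    [[(50, 1)],
      [],
      [(41, -1), (151, 1), (173, 1)],
      [(141, -1)],
      [],
      [],
      [],
      [],
      [],
      []],
    [[(60, 1), (71, 1)],
      [],
      [(51, -1)],
      [(173, 1)],
      [],
      [],
      [],
      [],
      [],
      []],
    [[],
      [(71, 1)],
      [(61, -1)],
      [(40, -1), (51, -2), (73, 1), (150, 1), (172, -1)],
      [],
      [],
      [],
      [],
      [],
      []],
    [[(80, 1)],
      [],
      [],
      [(61, -1), (72, -1)],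
      [(40, -1), (51, -2), (150, 1), (172, -1)],
      [],
      [(271, -1)],
      [],
      [],
      []],
    [[],
      [],
      [(70, 1), (81, -1)],
      [(60, -1), (71, -1), (93, 1), (170, 1), (192, -1)],
      [],
      [],
      [],
      [],
      [],
      []],
    [[],
      [],
      [(91, -1)],
      [(70, 2), (81, -1), (92, -1)],
      [(60, -1), (71, -1), (170, 1), (192, -1)],
      [(61, -2), (72, -2), (171, 1), (193, -1)],
      [],
      [],
      [],
      []]]
  A := [[[],
      [],
      [],
      [],
      [],
      [],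
      [(70, 1)],
      [],
      [(90, 1)]],
    [[],
      [],
      [],
      [],
      [(40, -1), (51, -1), (150, 1)],
      [(61, -1), (72, -1), (171, 1)],
      [(60, -1), (71, -1), (170, 1)],
      [(70, 1), (81, -1), (180, 1)],
      [(80, -1), (91, -1), (190, 1)]],
    [[],
      [],
      [],
      [],
      [],
      [],
      [(41, 1), (140, -1), (151, -1), (173, -1), (270, 1)],
      [(291, 1)],
      [(50, -1), (61, -2), (72, -2), (171, 1), (193, -1), (290, 1)]]]
  W := [[[],
      [],
      [],
      [],
      [],
      [],
      [],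
      [],
      [],
      []],
    [[],
      [],
      [],
      [],
      [],
      [],
      [[(70, 1)],
       [(71, 1)]],
      [],
      [[],
       [(91, 1)]],
      [[],
       [(90, -1)]]],
    [[],
      [],
      [],
      [],
      [],
      [],
      [],
      [],
      [],
      []]]

theorem ce1_ck : ce1.ckW bs dl 10 1 = true := by decide +kernel

/-- certificate -/
def ce2 : Cer where
  den := 1
  N := [[],
    [],
    [],
    [],
    [],
    [[(170, 1)],
      [],
      [],
      [],
      [],
      [],
      [],
      [],
      [],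
      []],
    [],
    [],
    [[],
      [(91, 1)],
      [],
      [],
      [],
      [],
      [],
      [],
      [],
      []],
    [[],
      [(90, -1)],
      [],
      [],
      [],
      [],
      [],
      [],
      [],
      []]]
  A := [[[],
      [],
      [],
      [],
      [],
      [(71, 1)],
      [(70, 1)],
      [],
      []],
    [[],
      [],
      [],
      [],
      [],
      [(171, 1)],
      [],
      [(191, 1)],
      [(190, 1)]],
    []]
  W := [[[],
      [],
      [],
      [],
      [],
      [],
      [],
      [],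
      [],
      []],
    [[],
      [],
      [],
      [],
      [],
      [],
      [],
      [],
      [],
      []],
    [[],
      [],
      [],
      [],
      [],
      [],
      [],
      [],
      [],
      []]]

theorem ce2_ck : ce2.ckW bs dl 10 2 = true := by decide +kernel

end Pool.Agent.Lib.D13.RW4411
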