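import Pool.Agent.Lib.D13.Fdc

/-!
# MP_5dcbc3_ag: a checker for density certificates

Sparse integer tables; everything is checked by evaluation in the kernel.
-/

namespace Pool.Agent.Lib.D13

open Matrix Pool.Agent.Lib.Q5dc Pool.Agent.Lib.D7

namespace Refl

/-- linear forms and sparse rows -/
abbrev LF := List (ℕ × ℤ)

/-- is zero -/
def isz : ℤ → Bool
  | .ofNat n => Nat.beq n 0
  | .negSucc _ => false

theorem isz_iff {a : ℤ} (h : isz a = true) : a = 0 := by
  cases a with
  | ofNat n =>
    have h1 : n = 0 := Nat.eq_of_beq_eq_true h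
    rw [h1]
    rfl
  | negSucc n => exact absurd h (by simp [isz])

/-- merge one term and a continuation -/
def addA (p : ℕ × ℤ) (g : LF → LF) : LF → LF
  | [] => p :: g []
  | q :: m =>
    bif Nat.beq p.1 q.1 then
      (bif isz (p.2 + q.2) then g m else (p.1, p.2 + q.2) :: g m)
    else (bif Nat.blt p.1 q.1 then p :: g (q :: m) else q :: addA p g m)

/-- sum of two sorted forms -/
def add : LF → LF → LF
  | [] => fun m => m
  | p :: l => addA p (add l)

/-- multiple of a form -/
def scl (c : ℤ) : LF → LF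
  | [] => []
  | p :: l => (p.1, c * p.2) :: scl c l

/-- `n`-th entry -/
def nth {α : Type} (d : α) : List α → ℕ → α
  | [], _ => d
  | a :: _, 0 => a
  | _ :: l, n + 1 => nth d l n

/-- coefficient in a sparse row -/
def cf : LF → ℕ → ℤ
  | [], _ => 0
  | p :: l, y => bif Nat.beq p.1 y then p.2 else cf l y

/-- entry of a sparse matrix -/
def en (M : List LF) (x y : ℕ) : ℤ := cf (nth [] M x) y

/-- `∑ u < n, c u • F u` -/
def sm (c : ℕ → ℤ) (F : ℕ → LF) : ℕ → LF
  | 0 => []
  | u + 1 => bif isz (c u) then sm c F u else add (scl (c u) (F u)) (sm c F u)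

/-- `∑ u < n, c u * F u` -/
def smi (c F : ℕ → ℤ) : ℕ → ℤ
  | 0 => 0
  | u + 1 => bif isz (c u) then smi c F u else c u * F u + smi c F u

/-- `∑ c • F m` over the terms of a sparse row -/
def sml (F : ℕ → LF) : LF → LF
  | [] => []
  | p :: l => add (scl p.2 (F p.1)) (sml F l)

/-- for all `x < n` -/
def allb (f : ℕ → Bool) : ℕ → Bool
  | 0 => true
  | u + 1 => bif f u then allb f u else false

theorem allb_iff {f : ℕ → Bool} {n : ℕ} (h : allb f n = true) : ∀ x, x < n → f x = true := by
  induction n with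
  | zero => intro x hx; exact absurd hx (Nat.not_lt_zero x)
  | succ n ih =>
    rw [allb] at h
    cases h1 : f n with
    | false => rw [h1] at h; exact absurd h (by simp)
    | true =>
      rw [h1] at h
      intro x hx
      rcases Nat.lt_succ_iff_lt_or_eq.1 hx with h2 | h2
      · exact ih h x h2
      · rw [h2]; exact h1

variable {k : Type*} [Field k]

/-- evaluation -/
def ev (v : ℕ → k) : LF → k
  | [] => 0
  | p :: l => (p.2 : k) * v p.1 + ev v l

theorem ev_addA (v : ℕ → k) (p : ℕ × ℤ) (g : LF → LF) (E : k) (hg : ∀ m, ev v (g m) = E + ev v m)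
    (m : LF) : ev v (addA p g m) = (p.2 : k) * v p.1 + E + ev v m := by
  induction m with
  | nil =>
    simp only [addA, ev, hg]
    ring
  | cons q m ih =>
    rw [addA]
    cases h1 : Nat.beq p.1 q.1 with
    | true =>
      have h2 : p.1 = q.1 := Nat.eq_of_beq_eq_true h1
      rw [cond_true]
      cases h3 : isz (p.2 + q.2) with
      | true =>
        have h4 := isz_iff h3
        have h5 : (p.2 : k) + (q.2 : k) = 0 := by rw [← Int.cast_add, h4, Int.cast_zero]
        rw [cond_true, hg, ev, h2]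
        linear_combination (-(v q.1)) * h5
      | false =>
        rw [cond_false, ev, hg, ev, h2]
        push_cast
        ring
    | false =>
      rw [cond_false]
      cases h3 : Nat.blt p.1 q.1 with
      | true =>
        rw [cond_true, ev, hg]
        ring
      | false =>
        rw [cond_false, ev, ih, ev]
        ring

theorem ev_add (v : ℕ → k) (l m : LF) : ev v (add l m) = ev v l + ev v m := by
  induction l generalizing m with
  | nil => rw [add, ev, zero_add]
  | cons p l ih => rw [add, ev_addA v p (add l) (ev v l) ih, ev]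

theorem ev_scl (v : ℕ → k) (c : ℤ) (l : LF) : ev v (scl c l) = (c : k) * ev v l := by
  induction l with
  | nil => rw [scl, ev, mul_zero]
  | cons p l ih =>
    rw [scl, ev, ih, ev]
    push_cast
    ring

theorem ev_sm (v : ℕ → k) (c : ℕ → ℤ) (F : ℕ → LF) (n : ℕ) :
    ev v (sm c F n) = ∑ u : Fin n, (c u : k) * ev v (F u) := by
  induction n with
  | zero => rw [sm, ev]; simp
  | succ n ih =>
    rw [sm, Fin.sum_univ_castSucc]
    cases h1 : isz (c n) with
    | true =>
      have h2 : (c n : k) = 0 := by rw [isz_iff h1, Int.cast_zero]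
      rw [cond_true, ih]
      simp [h2]
    | false =>
      rw [cond_false, ev_add, ev_scl, ih, add_comm]
      simp

theorem smi_eq (c F : ℕ → ℤ) (n : ℕ) : smi c F n = ∑ u : Fin n, c u * F u := by
  induction n with
  | zero => rw [smi]; simp
  | succ n ih =>
    rw [smi, Fin.sum_univ_castSucc]
    cases h1 : isz (c n) with
    | true =>
      have h2 : c n = 0 := isz_iff h1
      rw [cond_true, ih]
      simp [h2]
    | false =>
      rw [cond_false, ih, add_comm]
      simp

theorem ev_sml (v : ℕ → k) (F : ℕ → LF) (hF : ∀ m, ev v (F m) = 0) (l : LF) :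
    ev v (sml F l) = 0 := by
  induction l with
  | nil => rw [sml, ev]
  | cons p l ih => rw [sml, ev_add, ev_scl, hF, ih, mul_zero, add_zero]

/-- the matrix of a table -/
def Mt (k : Type*) [Field k] (D : ℕ) (M : List LF) : Matrix (Fin D) (Fin D) k :=
  Matrix.of fun x y => (en M x y : k)

/-! ### the tables -/

/-- a base point: levels, `N₀`, its powers, the coefficients of `X i`, the matrices `X i` -/
structure Base where
  /-- levels -/
  lev : List ℕ
  /-- powers of the nilpotent matrix (`0, 1, 2, ...`) -/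
  pw : List (List LF)
  /-- coefficients of the polynomials -/
  xc : List LF
  /-- the matrices -/
  X : List (List LF)

namespace Base

variable (B : Base)

/-- level -/
def w (x : ℕ) : ℕ := nth 0 B.lev x

/-- entry of a power -/
def P (m x y : ℕ) : ℤ := en (nth [] B.pw m) x y

/-- entry of `X i` -/
def Xe (i x y : ℕ) : ℤ := en (nth [] B.X i) x y

/-- integer equality -/
def eqz (a b : ℤ) : Bool := isz (a - b)

theorem eqz_iff {a b : ℤ} (h : eqz a b = true) : a = b := by
  have h1 := isz_iff h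
  omega

/-- power table -/
def ckPow (D : ℕ) : Bool :=
  allb (fun x => allb (fun y => eqz (B.P 0 x y) (bif Nat.beq x y then 1 else 0)) D) D &&
  allb (fun m => allb (fun x => allb (fun y =>
    eqz (B.P (m + 1) x y) (smi (fun u => B.P 1 x u) (fun u => B.P m u y) D)) D) D) (D - 1) &&
  allb (fun x => allb (fun y => isz (smi (fun u => B.P 1 x u) (fun u => B.P (D - 1) u y) D)) D) D &&
  !(allb (fun x => allb (fun y => isz (B.P (D - 1) x y)) D) D)

/-- the matrices `X i` -/
def ckX (D : ℕ) : Bool :=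
  allb (fun i => allb (fun x => allb (fun y =>
    eqz (B.Xe i x y) (smi (fun m => cf (nth [] B.xc i) (m + 1)) (fun m => B.P (m + 1) x y) (D - 1)))
      D) D) 3

/-- no parts of degree at least two -/
def ckDeg (D : ℕ) : Bool :=
  allb (fun i => allb (fun x => allb (fun y =>
    bif Nat.blt (B.w y + 1) (B.w x) then isz (B.Xe i x y) else true) D) D) 3

/-- all checks of the base point -/
def ck (D : ℕ) : Bool := B.ckPow D && B.ckX D && B.ckDeg D

/-- code of an unknown -/
def code (D i x y : ℕ) : ℕ := (i * D + x) * D + y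

/-- the unknown `e i x y` -/
def es (D κ i x y : ℕ) : LF :=
  bif Nat.blt (B.w x) (B.w y + κ) then [] else [(code D i x y, 1)]

/-- a constraint -/
def con (D κ i j x z : ℕ) : LF :=
  bif Nat.blt (B.w x) (B.w z + κ + 1) then [] else
    add (add (sm (fun u => B.Xe i x u) (fun u => B.es D κ j u z) D)
      (sm (fun u => B.Xe j u z) (fun u => B.es D κ i x u) D))
      (scl (-1) (add (sm (fun u => B.Xe j x u) (fun u => B.es D κ i u z) D)
      (sm (fun u => B.Xe i u z) (fun u => B.es D κ j x u) D)))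

/-- a constraint by its code -/
def conc (D κ c : ℕ) : LF :=
  B.con D κ (nth 0 [0, 0, 1] (c / (D * D))) (nth 0 [1, 2, 2] (c / (D * D))) (c / D % D) (c % D)

end Base

/-- a certificate -/
structure Cer where
  /-- common denominator -/
  den : ℤ
  /-- the entries of `N` -/
  N : List (List LF)
  /-- the coefficients of `a i` (power `m + 1`) -/
  A : List (List LF)
  /-- combinations of the constraints -/
  W : List (List (List LF))

namespace Cer

variable (C : Cer) (B : Base)

/-- entry of `N` -/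
def Ne (x y : ℕ) : LF := nth [] (nth [] C.N x) y

/-- coefficient of `a i` -/
def Ae (i m : ℕ) : LF := nth [] (nth [] C.A i) m

/-- combination -/
def We (i x y : ℕ) : LF := nth [] (nth [] (nth [] C.W i) x) y

/-- the left-hand side -/
def lhs (D i x y : ℕ) : LF :=
  add (add (sm (fun u => B.Xe i x u) (fun u => C.Ne u y) D)
    (scl (-1) (sm (fun u => B.Xe i u y) (fun u => C.Ne x u) D)))
    (sm (fun m => B.P (m + 1) x y) (fun m => C.Ae i m) (D - 1))

/-- one equation -/
def eqn (D κ i x y : ℕ) : LF :=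
  add (add (C.lhs B D i x y) (sml (fun c => B.conc D κ c) (C.We i x y)))
    (scl (-C.den) [(Base.code D i x y, 1)])

/-- the check -/
def ck (D κ : ℕ) : Bool :=
  !(isz C.den) &&
  allb (fun i => allb (fun x => allb (fun y =>
    bif Nat.blt (B.w x) (B.w y + κ) then true else (C.eqn B D κ i x y).isEmpty) D) D) 3

end Cer

/-! ### soundness -/

section Sound

variable {D : ℕ}

/-- the values of the unknowns -/
def vv (D : ℕ) (e : Fin 3 → Matrix (Fin D) (Fin D) k) (c : ℕ) : k :=
  if h : c % D < D ∧ c / D % D < D ∧ c / (D * D) < 3 then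
    e ⟨c / (D * D), h.2.2⟩ ⟨c / D % D, h.2.1⟩ ⟨c % D, h.1⟩ else 0

theorem vv_code (e : Fin 3 → Matrix (Fin D) (Fin D) k) (i : Fin 3) (x y : Fin D) :
    vv D e (Base.code D i x y) = e i x y := by
  have hD : 0 < D := lt_of_le_of_lt (Nat.zero_le _) x.2
  have h1 : Base.code D i x y % D = y := by
    rw [Base.code, Nat.add_comm, Nat.add_mul_mod_self_right, Nat.mod_eq_of_lt y.2]
  have h2 : Base.code D i x y / D = i * D + x := by
    rw [Base.code, Nat.add_comm, Nat.add_mul_div_right _ _ hD, Nat.div_eq_of_lt y.2, zero_add]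
  have h3 : Base.code D i x y / D % D = x := by
    rw [h2, Nat.add_comm, Nat.add_mul_mod_self_right, Nat.mod_eq_of_lt x.2]
  have h4 : Base.code D i x y / (D * D) = i := by
    rw [← Nat.div_div_eq_div_mul, h2, Nat.add_comm, Nat.add_mul_div_right _ _ hD,
      Nat.div_eq_of_lt x.2, zero_add]
  have h5 : Base.code D i x y % D < D ∧ Base.code D i x y / D % D < D ∧
      Base.code D i x y / (D * D) < 3 := by
    rw [h1, h3, h4]
    exact ⟨y.2, x.2, i.2⟩
  have h6 : ∀ (a b c : ℕ) (ha : a < 3) (hb : b < D) (hc : c < D), a = i → b = x → c = y →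
      e ⟨a, ha⟩ ⟨b, hb⟩ ⟨c, hc⟩ = e i x y := by
    intro a b c ha hb hc h1 h2 h3
    subst h1 h2 h3
    rfl
  rw [vv, dif_pos h5]
  exact h6 _ _ _ _ _ _ h4 h3 h1

theorem blt_true {a b : ℕ} (h : Nat.blt a b = true) : a < b := by simpa using h

theorem blt_false {a b : ℕ} (h : Nat.blt a b = false) : b ≤ a := by
  by_contra h1
  have h2 : Nat.blt a b = true := by simpa using not_le.1 h1
  rw [h2] at h
  exact absurd h (by simp)

variable (B : Base) {κ : ℕ}

theorem ev_es {e : Fin 3 → Matrix (Fin D) (Fin D) k}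
    (he : ∀ (i : Fin 3) (x y : Fin D), B.w x < B.w y + κ → e i x y = 0) (i : Fin 3) (x y : Fin D) :
    ev (vv D e) (B.es D κ i x y) = e i x y := by
  rw [Base.es]
  cases h1 : Nat.blt (B.w x) (B.w y + κ) with
  | true =>
    rw [cond_true, he i x y (blt_true h1), ev]
  | false =>
    rw [cond_false, ev, ev, vv_code]
    simp

/-- the matrices -/
def XX (k : Type*) [Field k] (B : Base) (D : ℕ) (i : Fin 3) : Matrix (Fin D) (Fin D) k :=
  Mt k D (nth [] B.X i)

theorem ev_con {e : Fin 3 → Matrix (Fin D) (Fin D) k}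
    (he : ∀ (i : Fin 3) (x y : Fin D), B.w x < B.w y + κ → e i x y = 0)
    (hc : ∀ (i j : Fin 3) (x z : Fin D), B.w z + κ + 1 ≤ B.w x →
      (XX k B D i * e j + e i * XX k B D j - XX k B D j * e i - e j * XX k B D i) x z = 0)
    (i j : Fin 3) (x z : Fin D) : ev (vv D e) (B.con D κ i j x z) = 0 := by
  rw [Base.con]
  cases h1 : Nat.blt (B.w x) (B.w z + κ + 1) with
  | true => rw [cond_true, ev]
  | false =>
    have h3 := hc i j x z (blt_false h1)
    rw [cond_false, ev_add, ev_add, ev_scl, ev_add, ev_sm, ev_sm, ev_sm, ev_sm]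
    simp only [ev_es B he]
    rw [← h3, Matrix.sub_apply, Matrix.sub_apply, Matrix.add_apply, Matrix.mul_apply,
      Matrix.mul_apply, Matrix.mul_apply, Matrix.mul_apply]
    have e1 : ∀ (a b : Fin 3) (p q : Fin D),
        ∑ u, XX k B D a p u * e b u q = ∑ u : Fin D, (B.Xe a p u : k) * e b u q :=
      fun a b p q => rfl
    have e2 : ∀ (a b : Fin 3) (p q : Fin D),
        ∑ u, e b p u * XX k B D a u q = ∑ u : Fin D, (B.Xe a u q : k) * e b p u :=
      fun a b p q => Finset.sum_congr rfl fun u _ => mul_comm _ _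
    rw [e1, e1, e2, e2]
    push_cast
    ring

theorem ev_conc (hD : 0 < D) {e : Fin 3 → Matrix (Fin D) (Fin D) k}
    (he : ∀ (i : Fin 3) (x y : Fin D), B.w x < B.w y + κ → e i x y = 0)
    (hc : ∀ (i j : Fin 3) (x z : Fin D), B.w z + κ + 1 ≤ B.w x →
      (XX k B D i * e j + e i * XX k B D j - XX k B D j * e i - e j * XX k B D i) x z = 0)
    (c : ℕ) : ev (vv D e) (B.conc D κ c) = 0 := by
  have h1 : ∀ m, nth 0 [0, 0, 1] m < 3 := by
    intro m
    rcases m with _ | _ | _ | m <;> simp [nth]
  have h2 : ∀ m, nth 0 [1, 2, 2] m < 3 := by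
    intro m
    rcases m with _ | _ | _ | m <;> simp [nth]
  exact ev_con B he hc ⟨_, h1 (c / (D * D))⟩ ⟨_, h2 (c / (D * D))⟩ ⟨c / D % D, Nat.mod_lt _ hD⟩
    ⟨c % D, Nat.mod_lt _ hD⟩

theorem pw_eq (hB : B.ckPow D = true) (m : ℕ) (hm : m < D) :
    Mt k D (nth [] B.pw m) = Mt k D (nth [] B.pw 1) ^ m := by
  simp only [Base.ckPow, Bool.and_eq_true] at hB
  obtain ⟨⟨⟨h1, h2⟩, -⟩, -⟩ := hB
  induction m with
  | zero =>
    rw [pow_zero]
    ext x y
    have h3 := Base.eqz_iff (allb_iff (allb_iff h1 x x.2) y y.2)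
    have h4 : Mt k D (nth [] B.pw 0) x y = (B.P 0 x y : k) := rfl
    rw [h4, h3, Matrix.one_apply]
    by_cases h : x = y
    · subst h
      simp
    · have h5 : Nat.beq x y = false := by
        cases h7 : Nat.beq x y with
        | false => rfl
        | true => exact absurd (Fin.ext (Nat.eq_of_beq_eq_true h7)) h
      rw [h5, if_neg h]
      simp
  | succ m ih =>
    have h3 := ih (Nat.lt_of_succ_lt hm)
    rw [pow_succ', ← h3]
    ext x y
    have h4 := Base.eqz_iff (allb_iff (allb_iff (allb_iff h2 m (by omega)) x x.2) y y.2)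
    have h5 : Mt k D (nth [] B.pw (m + 1)) x y = (B.P (m + 1) x y : k) := rfl
    rw [h5, h4, smi_eq, Matrix.mul_apply]
    push_cast
    rfl

theorem pw_top (hB : B.ckPow D = true) (hD : 0 < D) : Mt k D (nth [] B.pw 1) ^ D = 0 := by
  obtain ⟨d, rfl⟩ : ∃ d, D = d + 1 := ⟨D - 1, by omega⟩
  have h0 := pw_eq (k := k) B hB d (by omega)
  simp only [Base.ckPow, Bool.and_eq_true] at hB
  obtain ⟨⟨-, h2⟩, -⟩ := hB
  rw [pow_succ', ← h0]
  ext x y
  have h4 := isz_iff (allb_iff (allb_iff h2 x x.2) y y.2)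
  rw [smi_eq] at h4
  have h5 := congrArg (fun z : ℤ => (z : k)) h4
  simp only [Int.cast_zero] at h5
  rw [Matrix.mul_apply, Matrix.zero_apply, ← h5]
  push_cast
  rfl

theorem allb_not {f : ℕ → Bool} {n : ℕ} (h : allb f n = false) : ∃ x, x < n ∧ f x = false := by
  induction n with
  | zero => exact absurd h (by simp [allb])
  | succ n ih =>
    rw [allb] at h
    cases h1 : f n with
    | false => exact ⟨n, Nat.lt_succ_self n, h1⟩
    | true =>
      rw [h1, cond_true] at h
      obtain ⟨x, hx, h2⟩ := ih h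
      exact ⟨x, Nat.lt_succ_of_lt hx, h2⟩

theorem pw_ne [CharZero k] (hB : B.ckPow D = true) (hD : 0 < D) :
    Mt k D (nth [] B.pw 1) ^ (D - 1) ≠ 0 := by
  rw [← pw_eq (k := k) B hB (D - 1) (by omega)]
  simp only [Base.ckPow, Bool.and_eq_true, Bool.not_eq_true'] at hB
  obtain ⟨-, h2⟩ := hB
  obtain ⟨x, hx, h3⟩ := allb_not h2
  obtain ⟨y, hy, h4⟩ := allb_not h3
  intro h5
  have h6 := congrFun (congrFun h5 ⟨x, hx⟩) ⟨y, hy⟩
  have h7 : ((B.P (D - 1) x y : ℤ) : k) = 0 := h6
  have h8 : B.P (D - 1) x y = 0 := by exact_mod_cast h7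
  rw [h8] at h4
  exact absurd h4 (by simp [isz])

theorem X_poly (hB : B.ckPow D = true) (hX : B.ckX D = true) (i : Fin 3) :
    ∃ p : Polynomial k, p.coeff 0 = 0 ∧
      XX k B D i = Polynomial.aeval (Mt k D (nth [] B.pw 1)) p := by
  refine ⟨∑ m : Fin (D - 1), Polynomial.C ((cf (nth [] B.xc i) (m + 1) : ℤ) : k) *
    Polynomial.X ^ ((m : ℕ) + 1), ?_, ?_⟩
  · rw [Polynomial.finsetSum_coeff]
    refine Finset.sum_eq_zero fun m _ => ?_
    rw [Polynomial.coeff_C_mul, Polynomial.coeff_X_pow, if_neg (by omega), mul_zero]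
  · rw [map_sum]
    ext x y
    have h4 := Base.eqz_iff (allb_iff (allb_iff (allb_iff hX i i.2) x x.2) y y.2)
    rw [smi_eq] at h4
    have h5 : XX k B D i x y = ((B.Xe i x y : ℤ) : k) := rfl
    rw [h5, h4, Matrix.sum_apply]
    push_cast
    refine Finset.sum_congr rfl fun m _ => ?_
    rw [map_mul, Polynomial.aeval_C, map_pow, Polynomial.aeval_X, ← pw_eq B hB _ (by omega),
      ← Algebra.smul_def, Matrix.smul_apply, smul_eq_mul]
    rfl

/-- soundness of the check -/
theorem cert_of_ck [CharZero k] (hD : 0 < D) (hB : B.ckPow D = true) (C : Cer)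
    (hC : C.ck B D κ = true) :
    Cert (fun x : Fin D => B.w x) (Mt k D (nth [] B.pw 1)) (XX k B D) κ := by
  intro e he hc
  simp only [Cer.ck, Bool.and_eq_true, Bool.not_eq_true'] at hC
  obtain ⟨hden, h2⟩ := hC
  have hden' : (C.den : k) ≠ 0 := by
    intro h
    have h1 : C.den = 0 := by exact_mod_cast h
    rw [h1] at hden
    exact absurd hden (by simp [isz])
  refine ⟨Matrix.of fun x y => (C.den : k)⁻¹ * ev (vv D e) (C.Ne x y), fun i =>
    ∑ m : Fin (D - 1), ((C.den : k)⁻¹ * ev (vv D e) (C.Ae i m)) •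
      Mt k D (nth [] B.pw 1) ^ ((m : ℕ) + 1), ?_, ?_⟩
  · intro i
    refine ⟨∑ m : Fin (D - 1), Polynomial.C ((C.den : k)⁻¹ * ev (vv D e) (C.Ae i m)) *
      Polynomial.X ^ ((m : ℕ) + 1), ?_, ?_⟩
    · rw [Polynomial.finsetSum_coeff]
      refine Finset.sum_eq_zero fun m _ => ?_
      rw [Polynomial.coeff_C_mul, Polynomial.coeff_X_pow, if_neg (by omega), mul_zero]
    · rw [map_sum]
      refine Finset.sum_congr rfl fun m _ => ?_
      rw [map_mul, Polynomial.aeval_C, map_pow, Polynomial.aeval_X, ← Algebra.smul_def]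
  · intro i x y hxy
    replace hxy : B.w y + κ ≤ B.w x := hxy
    have h3 := allb_iff (allb_iff (allb_iff h2 i i.2) x x.2) y y.2
    have h4 : Nat.blt (B.w x) (B.w y + κ) = false := by
      cases h5 : Nat.blt (B.w x) (B.w y + κ) with
      | false => rfl
      | true =>
        have h6 := blt_true h5
        omega
    rw [h4, cond_false, List.isEmpty_iff] at h3
    have h5 : ev (vv D e) (C.eqn B D κ i x y) = 0 := by rw [h3, ev]
    rw [Cer.eqn, ev_add, ev_add, ev_scl, ev_sml _ _ (fun c => ev_conc B hD he hc c), ev, ev,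
      vv_code, Cer.lhs, ev_add, ev_add, ev_scl, ev_sm, ev_sm, ev_sm] at h5
    have h6 : (C.den : k) * e i x y = (∑ u : Fin D, (B.Xe i x u : k) * ev (vv D e) (C.Ne u y)) -
        (∑ u : Fin D, (B.Xe i u y : k) * ev (vv D e) (C.Ne x u)) +
        ∑ m : Fin (D - 1), (B.P (m + 1) x y : k) * ev (vv D e) (C.Ae i m) := by
      push_cast at h5
      linear_combination -h5
    have h7 : e i x y = (C.den : k)⁻¹ * ((C.den : k) * e i x y) := by
      rw [inv_mul_cancel_left₀ hden']
    beta_reduce
    rw [h7, h6, Matrix.add_apply, Matrix.sub_apply, Matrix.mul_apply, Matrix.mul_apply,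
      Matrix.sum_apply, mul_add, mul_sub, Finset.mul_sum, Finset.mul_sum, Finset.mul_sum]
    congr 1
    · congr 1
      · refine Finset.sum_congr rfl fun u _ => ?_
        rw [Matrix.of_apply]
        change (B.Xe i x u : k) * _ = _
        ring
      · refine Finset.sum_congr rfl fun u _ => ?_
        rw [Matrix.of_apply]
        change _ * (B.Xe i u y : k) = _
        ring
    · refine Finset.sum_congr rfl fun m _ => ?_
      rw [← pw_eq B hB _ (by omega), Matrix.smul_apply, smul_eq_mul]
      change _ * (B.P (m + 1) x y : k) = _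
      ring

theorem X_deg (hX : B.ckDeg D = true) (i : Fin 3) (x y : Fin D) (h : B.w y + 2 ≤ B.w x) :
    XX k B D i x y = 0 := by
  have h1 := allb_iff (allb_iff (allb_iff hX i i.2) x x.2) y y.2
  cases h2 : Nat.blt (B.w y + 1) (B.w x) with
  | false =>
    have h3 := blt_false h2
    omega
  | true =>
    rw [h2, cond_true] at h1
    have h3 : XX k B D i x y = ((B.Xe i x y : ℤ) : k) := rfl
    rw [h3, isz_iff h1, Int.cast_zero]

/-- for large `κ` there is nothing to prove -/
theorem cert_large {w : Fin D → ℕ} {N0 : Matrix (Fin D) (Fin D) k}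
    {X : Fin 3 → Matrix (Fin D) (Fin D) k} {L : ℕ} (hL : ∀ x, w x ≤ L) (hκ : L < κ) :
    Cert w N0 X κ := by
  intro e he hc
  refine ⟨0, 0, fun i => ⟨0, by simp, by simp⟩, fun i x y h => ?_⟩
  have h1 := hL x
  omega

/-- the density criterion with checked tables -/
theorem fdc_ck [CharZero k] (hD : 0 < D) (hB : B.ck D = true)
    (cert : ∀ κ, 1 ≤ κ → Cert (fun x : Fin D => B.w x) (Mt k D (nth [] B.pw 1)) (XX k B D) κ)
    (c : k → Fin 3 → Matrix (Fin D) (Fin D) k) (hc : PolyFam c)
    (hcomm : ∀ s i j, c s i * c s j = c s j * c s i)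
    (hlow : ∀ s i (x y : Fin D), B.w x ≤ B.w y → c s i x y = 0)
    (h0 : ∀ i (x y : Fin D), B.w x = B.w y + 1 → c 0 i x y = XX k B D i x y) (s : k) : Cl (c s) := by
  have hinf : Infinite k := inferInstance
  simp only [Base.ck, Bool.and_eq_true] at hB
  obtain ⟨⟨h1, h2⟩, h3⟩ := hB
  refine fdc (w := fun x : Fin D => B.w x) (N0 := Mt k D (nth [] B.pw 1)) ?_ ?_
    (X := XX k B D) (X_poly B h1 h2) (X_deg B h3) cert c hc hcomm hlow h0 s
  · rw [Fintype.card_fin]
    exact pw_top B h1 hD
  · rw [Fintype.card_fin]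
    exact pw_ne B h1 hD

/-- the graded density criterion with checked tables -/
theorem fdc_graded_ck [CharZero k] (hD : 0 < D) (hB : B.ck D = true)
    (cert : Cert (fun x : Fin D => B.w x) (Mt k D (nth [] B.pw 1)) (XX k B D) 1)
    (c : k → Fin 3 → Matrix (Fin D) (Fin D) k) (hc : PolyFam c)
    (hcomm : ∀ s i j, c s i * c s j = c s j * c s i)
    (hgr : ∀ s i (x y : Fin D), B.w x ≠ B.w y + 1 → c s i x y = 0)
    (h0 : ∀ i (x y : Fin D), B.w x = B.w y + 1 → c 0 i x y = XX k B D i x y) (s : k) : Cl (c s) := by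
  have hinf : Infinite k := inferInstance
  simp only [Base.ck, Bool.and_eq_true] at hB
  obtain ⟨⟨h1, h2⟩, h3⟩ := hB
  refine fdc_graded (w := fun x : Fin D => B.w x) (N0 := Mt k D (nth [] B.pw 1)) ?_ ?_
    (X := XX k B D) (X_poly B h1 h2) (X_deg B h3) cert c hc hcomm hgr h0 s
  · rw [Fintype.card_fin]
    exact pw_top B h1 hD
  · rw [Fintype.card_fin]
    exact pw_ne B h1 hD

end Sound

end Refl

end Pool.Agent.Lib.D13
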