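import Pool.Agent.Lib.D13.Refl
import Pool.Agent.Lib.D13.FdcMono

/-!
# MP_5dcbc3_ag: checked certificates at monomial base points
-/

namespace Pool.Agent.Lib.D13

open Matrix Pool.Agent.Lib.Q5dc Pool.Agent.Lib.D7 Pool.Agent.Lib.D9.DensX

namespace Refl

/-- the tables are those of the operators `t ^ a` on the powers of `t` -/
def Base.ckMono (B : Base) (D : ℕ) (a : List ℕ) : Bool :=
  allb (fun x => allb (fun y => Base.eqz (B.P 1 x y) (bif Nat.beq x (y + 1) then 1 else 0)) D) D &&
  allb (fun i => allb (fun x => allb (fun y =>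
    Base.eqz (B.Xe i x y) (bif Nat.beq x (y + nth 0 a i) then 1 else 0)) D) D) 3

variable {k : Type*} [Field k]

theorem cast_beq (x y : ℕ) : (((bif Nat.beq x y then (1 : ℤ) else 0) : ℤ) : k) =
    if x = y then 1 else 0 := by
  by_cases h : x = y
  · subst h
    simp
  · have h1 : Nat.beq x y = false := by
      cases h2 : Nat.beq x y with
      | false => rfl
      | true => exact absurd (Nat.eq_of_beq_eq_true h2) h
    rw [h1, if_neg h]
    simp

/-- certificates at monomial base points from checked tables -/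
theorem cert_mono_ck [CharZero k] {n κ : ℕ} {B : Base} {a : List ℕ}
    (hB : B.ckPow (n + 1) = true) (hM : B.ckMono (n + 1) a = true) (C : Cer)
    (hC : C.ck B (n + 1) κ = true) {w : Fin (n + 1) → ℕ} {av : Fin 3 → ℕ}
    (hw : ∀ x, w x = B.w x) (hav : ∀ i, av i = nth 0 a i) :
    Cert w (Sh k n) (fun i => Sh k n ^ av i) κ := by
  have h := cert_of_ck (k := k) B (Nat.succ_pos n) hB C hC
  simp only [Base.ckMono, Bool.and_eq_true] at hM
  obtain ⟨hM1, hM2⟩ := hM
  have e1 : (fun x : Fin (n + 1) => B.w x) = w := funext fun x => (hw x).symm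
  have e2 : Mt k (n + 1) (nth [] B.pw 1) = Sh k n := by
    ext x y
    have h1 := Base.eqz_iff (allb_iff (allb_iff hM1 x x.2) y y.2)
    have h2 : Mt k (n + 1) (nth [] B.pw 1) x y = (B.P 1 x y : k) := rfl
    have h3 : Sh k n x y = (Sh k n ^ 1) x y := by rw [pow_one]
    rw [h2, h1, h3, Sh_pow, Matrix.of_apply, cast_beq]
  have e3 : XX k B (n + 1) = fun i => Sh k n ^ av i := by
    funext i
    ext x y
    have h1 := Base.eqz_iff (allb_iff (allb_iff (allb_iff hM2 i i.2) x x.2) y y.2)
    have h2 : XX k B (n + 1) i x y = (B.Xe i x y : k) := rfl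
    rw [h2, h1, Sh_pow, Matrix.of_apply, cast_beq, hav]
  rw [e1, e2, e3] at h
  exact h

end Refl

end Pool.Agent.Lib.D13
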