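import Pool.Agent.Lib.D13.Row322

/-!
# MP_5dcbc3_ag: the type `(5, 3, 2, 2)`: the relations
-/

namespace Pool.Agent.Lib.D13

open Matrix Pool.Agent.Lib.Q5dc Pool.Agent.Lib.D7

namespace Row322

open L322

variable {K : Type*} [Field K] {δ : Type*} [Fintype δ] [DecidableEq δ] {o : δ}

/-- the relations of the type `(5, 3, 2, 2)` -/
structure Rel5 (o : δ) (X X' : XD K δ) : Prop where
  r1 : X'.t • (fun i => X.N i o) = X.t • (fun i => X'.N i o)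
  r2 : X'.t • X.g + X.N *ᵥ X'.a = X.t • X'.g + X'.N *ᵥ X.a
  r3 : X.th o * X'.t = X'.th o * X.t
  r4 : X.h o * X'.t + X.th ⬝ᵥ X'.a = X'.h o * X.t + X'.th ⬝ᵥ X.a
  r5 : X.s * X'.t + (X.h ⬝ᵥ X'.a + X.th ⬝ᵥ X'.c) = X'.s * X.t + (X'.h ⬝ᵥ X.a + X'.th ⬝ᵥ X.c)
  r6 : X.th ᵥ* X'.N = X'.th ᵥ* X.N
  r7 : X.h ⬝ᵥ (fun i => X'.N i o) + X.th ⬝ᵥ X'.g = X'.h ⬝ᵥ (fun i => X.N i o) + X'.th ⬝ᵥ X.g
  r8 : X.N *ᵥ (fun i => X'.N i o) = X'.N *ᵥ (fun i => X.N i o)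

theorem Wn_eq5 {t s : K} {u v y z : δ → K} : Wn 5 (xR o) (vR t u v) (vR s y z) =
    gR o 0 0 ((t * z o) • ee K o) := by
  have x3 : (xR o : Matrix (Unit ⊕ (δ ⊕ δ)) (Unit ⊕ (δ ⊕ δ)) K) ^ 3 = 0 := xR_cube
  have x4 : (xR o : Matrix (Unit ⊕ (δ ⊕ δ)) (Unit ⊕ (δ ⊕ δ)) K) ^ 4 = 0 :=
    pow_eq_zero_of_le (by omega) xR_cube
  have a2 : xR o ^ 2 *ᵥ vR t u v = vR 0 0 (t • ee K o) := by
    rw [pow_two, ← mulVec_mulVec, xx_mulVec]
  have b2 : vR s y z ᵥ* xR o ^ 2 = vR (z o) 0 0 := by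
    rw [pow_two, ← vecMul_vecMul, vecMul_xR, vecMul_xR, vR_inj]
    simp
  ext i j
  rw [Wn, Matrix.mul_apply, Fin.sum_univ_five]
  simp only [LN.Lcn_apply, LN.Lbn_apply]
  have c0 : (((0 : Fin 5) : ℕ)) = 0 := rfl
  have c1 : (((1 : Fin 5) : ℕ)) = 1 := rfl
  have c2 : (((2 : Fin 5) : ℕ)) = 2 := rfl
  have c3 : (((3 : Fin 5) : ℕ)) = 3 := rfl
  have c4 : (((4 : Fin 5) : ℕ)) = 4 := rfl
  rw [c0, c1, c2, c3, c4]
  simp only [Nat.reduceSub, Nat.sub_self, tsub_zero]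
  rw [x3, x4, a2, b2]
  rcases i with i | i | i <;> rcases j with j | j | j
  · simp [vR, gR]
  · simp [vR, gR]
  · simp [vR, gR]
  · simp [vR, gR]
  · simp [vR, gR]
  · simp [vR, gR]
  · simp [vR, gR]
    ring
  · simp [vR, gR]
  · simp [vR, gR]

theorem rel5_of_comm {X X' : XD K δ} (h : matn o 5 X * matn o 5 X' = matn o 5 X' * matn o 5 X) :
    Rel5 o X X' := by
  obtain ⟨h1, h2, h3, h4⟩ := LN.rel (pow_eq_zero_of_le (by omega) xR_cube) (by omega) h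
  rw [Wn_eq5, Wn_eq5, gR_mul0, gR_mul0, gR_add, gR_add, gR_inj] at h1
  rw [gR_mulVec, gR_mulVec, vR_inj] at h2
  rw [vecMul_gR, vecMul_gR, vR_inj] at h3
  have h40 := h4 0
  have h41 := h4 1
  have h42 := h4 2
  rw [pow_zero, one_mulVec, one_mulVec, vR_dot, vR_dot] at h40
  rw [pow_one, xR_mulVec, xR_mulVec, vR_dot, vR_dot] at h41
  rw [pow_two, ← mulVec_mulVec, ← mulVec_mulVec, xx_mulVec, xx_mulVec, vR_dot, vR_dot] at h42
  obtain ⟨-, -, h13⟩ := h1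
  obtain ⟨-, h22, h23⟩ := h2
  obtain ⟨h31, h32, -⟩ := h3
  have e3 : X.th o * X'.t = X'.th o * X.t := by
    simp only [dotProduct_smul, dotProduct_single, mul_one, mul_zero, zero_add, smul_eq_mul,
      dotProduct_zero] at h42
    linear_combination h42
  refine ⟨?_, ?_, e3, ?_, h40, ?_, h31, ?_⟩
  · simpa using h22
  · simp only [zero_mulVec, add_zero] at h23
    exact h23
  · simp only [dotProduct_smul, dotProduct_single, mul_one, mul_zero, zero_add, smul_eq_mul] at h41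
    linear_combination h41
  · simpa using h32
  · have e4 : (X.t * X'.th o) • ee K o = (X'.t * X.th o) • ee K o := by
      rw [show X.t * X'.th o = X'.t * X.th o by linear_combination -e3]
    rw [e4] at h13
    exact add_left_cancel h13

end Row322

end Pool.Agent.Lib.D13
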