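import Pool.Agent.Lib.D13.L322b
import Pool.Agent.Lib.D13.GenCnt
import Pool.Agent.Lib.D13.GenTr

/-!
# MP_5dcbc3_ag: the types `(l, 3, 2, 2)`, `l ≥ 4`: the coordinates of a maximal bad triple

A maximal bad triple `T` over `K` with `T 0 = LAn n (xR o)`: the entries of `T 1` and `T 2` are
algebraic over the field generated by `2 (n - 1)` coefficients of polynomials in `T 0` and the
coordinates `cx X`, `cx X'` of two matrices of the normal form `K = 0`.
-/

namespace Pool.Agent.Lib.D13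

open Matrix Pool.Agent.Lib.Q5dc Pool.Agent.Lib.D7

namespace Row322

/-! ### entries in a subfield -/

section Ent

variable {k K : Type*} [Field k] [Field K] [Algebra k K] (F : IntermediateField k K)

/-- all entries in `F` -/
def Ent {m n : Type*} (M : Matrix m n K) : Prop := ∀ i j, M i j ∈ F

variable {F} {l m n p : Type*}

theorem Ent.zero : Ent F (0 : Matrix m n K) := fun _ _ => F.zero_mem

theorem Ent.one [DecidableEq n] : Ent F (1 : Matrix n n K) := by
  intro i j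
  rw [Matrix.one_apply]
  split_ifs
  · exact F.one_mem
  · exact F.zero_mem

theorem Ent.mul [Fintype m] {M : Matrix l m K} {N : Matrix m n K} (hM : Ent F M) (hN : Ent F N) :
    Ent F (M * N) := fun i j => by
  rw [Matrix.mul_apply]
  exact sum_mem fun x _ => mul_mem (hM i x) (hN x j)

theorem Ent.add {M N : Matrix m n K} (hM : Ent F M) (hN : Ent F N) : Ent F (M + N) := fun i j =>
  add_mem (hM i j) (hN i j)

theorem Ent.smul {M : Matrix m n K} {r : K} (hr : r ∈ F) (hM : Ent F M) : Ent F (r • M) :=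
  fun i j => mul_mem hr (hM i j)

theorem Ent.sum {ι : Type*} (s : Finset ι) {M : ι → Matrix m n K} (h : ∀ i ∈ s, Ent F (M i)) :
    Ent F (∑ i ∈ s, M i) := fun a b => by
  rw [Matrix.sum_apply]
  exact sum_mem fun i hi => h i hi a b

theorem Ent.pow [Fintype n] [DecidableEq n] {M : Matrix n n K} (hM : Ent F M) (i : ℕ) :
    Ent F (M ^ i) := by
  induction i with
  | zero => rw [pow_zero]; exact Ent.one
  | succ i ih => rw [pow_succ]; exact ih.mul hM

theorem Ent.mulVec [Fintype n] {M : Matrix m n K} {v : n → K} (hM : Ent F M) (hv : ∀ i, v i ∈ F)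
    (i : m) : (M *ᵥ v) i ∈ F := sum_mem fun j _ => mul_mem (hM i j) (hv j)

theorem Ent.vecMul [Fintype m] {M : Matrix m n K} {v : m → K} (hM : Ent F M) (hv : ∀ i, v i ∈ F)
    (j : n) : (v ᵥ* M) j ∈ F := sum_mem fun i _ => mul_mem (hv i) (hM i j)

theorem Ent.blocks {A : Matrix l m K} {B : Matrix l n K} {C : Matrix p m K} {D : Matrix p n K}
    (hA : Ent F A) (hB : Ent F B) (hC : Ent F C) (hD : Ent F D) : Ent F (fromBlocks A B C D) := by
  intro i j
  rcases i with i | i <;> rcases j with j | j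
  · exact hA i j
  · exact hB i j
  · exact hC i j
  · exact hD i j

theorem ent_ShF (n : ℕ) : Ent F (ShF K n) := by
  intro i j
  rw [LN.ShF_apply]
  split_ifs
  · exact F.one_mem
  · exact F.zero_mem

theorem ent_LAn {ι : Type*} [Fintype ι] [DecidableEq ι] {x : Matrix ι ι K} (hx : Ent F x) (n : ℕ) :
    Ent F (LAn n x) := (ent_ShF n).blocks Ent.zero Ent.zero hx

theorem ent_LXn {ι : Type*} [Fintype ι] [DecidableEq ι] {x G : Matrix ι ι K} {a b : ι → K}
    (hx : Ent F x) (hG : Ent F G) (ha : ∀ i, a i ∈ F) (hb : ∀ i, b i ∈ F) (n : ℕ) :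
    Ent F (LXn n x G a b) :=
  Ent.zero.blocks (fun i j => (hx.pow _).vecMul hb j) (fun i j => (hx.pow _).mulVec ha i) hG

variable {δ : Type*} [Fintype δ] [DecidableEq δ] {o : δ}

theorem ent_gR {A N : Matrix δ δ K} {g : δ → K} (hA : Ent F A) (hN : Ent F N)
    (hg : ∀ i, g i ∈ F) : Ent F (gR o A N g) := by
  refine Ent.zero.blocks Ent.zero (fun i _ => ?_) (hA.blocks Ent.zero hN hA)
  rcases i with i | i
  · exact hN i o
  · exact hg i

theorem ent_xR : Ent F (xR o : Matrix (Unit ⊕ (δ ⊕ δ)) (Unit ⊕ (δ ⊕ δ)) K) :=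
  ent_gR Ent.zero Ent.one fun _ => F.zero_mem

theorem mem_vR {t : K} {u v : δ → K} (ht : t ∈ F) (hu : ∀ i, u i ∈ F) (hv : ∀ i, v i ∈ F) (i) :
    vR t u v i ∈ F := by
  rcases i with i | i | i
  · exact ht
  · exact hu i
  · exact hv i

end Ent

/-! ### the decomposition -/

section Shape

variable {k : Type*} [Field k]

/-- a maximal bad triple with `T 0 = LAn n x` -/
theorem shape {ι : Type*} [Fintype ι] [DecidableEq ι] {ρ : ℕ → ℕ} {m : ℕ} {x : Matrix ι ι k}
    {T : Fin 3 → Matrix (Fin (m + 1) ⊕ ι) (Fin (m + 1) ⊕ ι) k}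
    (hT : MaxR ρ T) (h0 : T 0 = LAn (m + 1) x) (hx : x ^ m = 0) :
    ∃ (f f' : Fin m → k) (G G' : Matrix ι ι k) (a b a' b' : ι → k),
      T 1 = LXn (m + 1) x G a b + ∑ j, f j • LAn (m + 1) x ^ ((j : ℕ) + 1) ∧
      T 2 = LXn (m + 1) x G' a' b' + ∑ j, f' j • LAn (m + 1) x ^ ((j : ℕ) + 1) ∧
      MaxR ρ ![LAn (m + 1) x, LXn (m + 1) x G a b, LXn (m + 1) x G' a' b'] ∧ x * G = G * x ∧
        x * G' = G' * x := by
  have hc1 : LAn (m + 1) x * T 1 = T 1 * LAn (m + 1) x := by rw [← h0]; exact hT.cn.1 0 1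
  have hc2 : LAn (m + 1) x * T 2 = T 2 * LAn (m + 1) x := by rw [← h0]; exact hT.cn.1 0 2
  obtain ⟨f, G, a, b, hB, hG⟩ := LN.decomp m hx hc1 (hT.cn.2 1)
  obtain ⟨f', G', a', b', hC, hG'⟩ := LN.decomp m hx hc2 (hT.cn.2 2)
  have hA : LAn (m + 1) x ∈ adj T := by rw [← h0]; exact mem_adj T 0
  have hsum : ∀ {S : Fin 3 → Matrix (Fin (m + 1) ⊕ ι) (Fin (m + 1) ⊕ ι) k} (g : Fin m → k),
      LAn (m + 1) x ∈ adj S → ∑ j, g j • LAn (m + 1) x ^ ((j : ℕ) + 1) ∈ adj S := by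
    intro S g hS
    exact sum_mem fun j _ => SMulMemClass.smul_mem _ (L2.pow_mem_adj hS _)
  have hX : LXn (m + 1) x G a b ∈ adj T := by
    have : LXn (m + 1) x G a b = T 1 - ∑ j, f j • LAn (m + 1) x ^ ((j : ℕ) + 1) := by rw [hB]; simp
    rw [this]
    exact sub_mem (mem_adj T 1) (hsum f hA)
  have hX' : LXn (m + 1) x G' a' b' ∈ adj T := by
    have : LXn (m + 1) x G' a' b' = T 2 - ∑ j, f' j • LAn (m + 1) x ^ ((j : ℕ) + 1) := by
      rw [hC]; simp
    rw [this]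
    exact sub_mem (mem_adj T 2) (hsum f' hA)
  refine ⟨f, f', G, G', a, b, a', b', hB, hC, ?_, hG, hG'⟩
  refine MaxR.change hT (hT.cn.of_adj fun i => ?_) fun i => ?_
  · fin_cases i
    exacts [hA, hX, hX']
  · have h1 := D8.mem0 (LAn (m + 1) x) (LXn (m + 1) x G a b) (LXn (m + 1) x G' a' b')
    fin_cases i
    · show T 0 ∈ _
      rw [h0]
      exact h1
    · show T 1 ∈ _
      rw [hB]
      exact add_mem (D8.mem1 _ _ _) (hsum f h1)
    · show T 2 ∈ _
      rw [hC]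
      exact add_mem (D8.mem2 _ _ _) (hsum f' h1)

variable {δ : Type*} [Fintype δ] [DecidableEq δ] {o : δ} {ρ : ℕ → ℕ}

open L322

/-- the shape of a maximal bad triple, with both cases -/
theorem shape322 [CharZero k] {m : ℕ}
    {T : Fin 3 → Matrix (Fin (m + 3 + 1) ⊕ (Unit ⊕ (δ ⊕ δ))) (Fin (m + 3 + 1) ⊕ (Unit ⊕ (δ ⊕ δ))) k}
    (hT : MaxR ρ T) (h0 : T 0 = LAn (m + 3 + 1) (xR o))
    (hρ : ρ 2 ≤ (LAn (m + 3 + 1) (xR o : Matrix (Unit ⊕ (δ ⊕ δ)) (Unit ⊕ (δ ⊕ δ)) k) ^ 2).rank) :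
    ∃ (f f' : Fin (m + 3) → k) (A N A' N' : Matrix δ δ k) (g g' u v y z u' v' y' z' : δ → k)
      (t s t' s' : k),
      T 1 = LXn (m + 3 + 1) (xR o) (gR o A N g) (vR t u v) (vR s y z) +
        ∑ j, f j • LAn (m + 3 + 1) (xR o) ^ ((j : ℕ) + 1) ∧
      T 2 = LXn (m + 3 + 1) (xR o) (gR o A' N' g') (vR t' u' v') (vR s' y' z') +
        ∑ j, f' j • LAn (m + 3 + 1) (xR o) ^ ((j : ℕ) + 1) ∧
      MaxR ρ ![LAn (m + 3 + 1) (xR o), LXn (m + 3 + 1) (xR o) (gR o A N g) (vR t u v) (vR s y z),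
        LXn (m + 3 + 1) (xR o) (gR o A' N' g') (vR t' u' v') (vR s' y' z')] ∧
      Ke o A ∧ Ke o A' ∧ (∀ i, i ≠ o → ∀ j, A i j = 0) ∧ (∀ i, i ≠ o → ∀ j, A' i j = 0) ∧
      (((∀ j, A o j = 0) ∧ ∀ j, A' o j = 0) ∨
        ((∀ i, i ≠ o → N i o = 0) ∧ ∀ i, i ≠ o → N' i o = 0)) := by
  have hx3 : (xR o : Matrix (Unit ⊕ (δ ⊕ δ)) (Unit ⊕ (δ ⊕ δ)) k) ^ (m + 3) = 0 :=
    pow_eq_zero_of_le (by omega) xR_cube
  obtain ⟨f, f', G, G', a, b, a', b', hB, hC, hT1, hG, hG'⟩ := shape (m := m + 3) hT h0 hx3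
  have hn : IsNilpotent G := LN.nil_of_LXn hx3 hG (hT1.cn.2 1)
  have hn' : IsNilpotent G' := LN.nil_of_LXn hx3 hG' (hT1.cn.2 2)
  obtain ⟨K, N, g, rfl, hK⟩ := gR_of_comm hG hn
  obtain ⟨K', N', g', rfl, hK'⟩ := gR_of_comm hG' hn'
  obtain ⟨t, u, v, rfl⟩ := exists_vR a
  obtain ⟨t', u', v', rfl⟩ := exists_vR a'
  obtain ⟨s, y, z, rfl⟩ := exists_vR b
  obtain ⟨s', y', z', rfl⟩ := exists_vR b'
  have hr : ∀ p q r : k, ((LAn (m + 3 + 1) (xR o) + r • LXn (m + 3 + 1) (xR o)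
      (gR o (p • K + q • K') (p • N + q • N') (p • g + q • g'))
      (vR (p * t + q * t') (p • u + q • u') (p • v + q • v'))
      (vR (p * s + q * s') (p • y + q • y') (p • z + q • z'))) ^ 2).rank ≤
      (LAn (m + 3 + 1) (xR o : Matrix (Unit ⊕ (δ ⊕ δ)) (Unit ⊕ (δ ⊕ δ)) k) ^ 2).rank := by
    intro p q r
    have e : LXn (m + 3 + 1) (xR o)
      (gR o (p • K + q • K') (p • N + q • N') (p • g + q • g'))
      (vR (p * t + q * t') (p • u + q • u') (p • v + q • v'))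
      (vR (p * s + q * s') (p • y + q • y') (p • z + q • z')) =
      p • LXn (m + 3 + 1) (xR o) (gR o K N g) (vR t u v) (vR s y z) +
      q • LXn (m + 3 + 1) (xR o) (gR o K' N' g') (vR t' u' v') (vR s' y' z') := by
      rw [LN.LXn_smul, LN.LXn_smul, LN.LXn_add, gR_smul, gR_smul, gR_add, vR_smul, vR_smul,
        vR_add, vR_smul, vR_smul, vR_add]
    rw [e]
    refine (hT1.rank_le ?_ 2).trans hρ
    exact add_mem (D8.mem0 _ _ _) (SMulMemClass.smul_mem _ (add_mem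
      (SMulMemClass.smul_mem _ (D8.mem1 _ _ _)) (SMulMemClass.smul_mem _ (D8.mem2 _ _ _))))
  have hKpq : ∀ p q : k, Ke o (p • K + q • K') := by
    intro p q i
    simp [hK i, hK' i]
  have row : ∀ i, i ≠ o → ∀ j, K i j = 0 := by
    intro i hi j
    have := K_row (by omega) (hKpq 1 0) (hr 1 0) hi j
    simpa using this
  have row' : ∀ i, i ≠ o → ∀ j, K' i j = 0 := by
    intro i hi j
    have := K_row (by omega) (hKpq 0 1) (hr 0 1) hi j
    simpa using this
  have hkq : ∀ p q : k, ∀ (j : δ) (i : {i : δ // i ≠ o}),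
      (p * K o j + q * K' o j) * (p * N i o + q * N' i o) = 0 := by
    intro p q j i
    exact kq (by omega) (hKpq p q) (hr p q) i.2 j
  refine ⟨f, f', K, N, K', N', g, g', u, v, y, z, u', v', y', z', t, s, t', s', hB, hC, hT1, hK,
    hK', row, row', ?_⟩
  rcases pencil_or hkq with h1 | h1
  · exact Or.inl ⟨fun j => (h1 j).1, fun j => (h1 j).2⟩
  · exact Or.inr ⟨fun i hi => (h1 ⟨i, hi⟩).1, fun i hi => (h1 ⟨i, hi⟩).2⟩

end Shape

/-! ### the normal form -/

section Normal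

open L322

variable {K : Type*} [Field K] {δ : Type*} [Fintype δ] [DecidableEq δ] {o : δ} {ρ : ℕ → ℕ}

/-- the matrix of the normal form -/
def matn (o : δ) (n : ℕ) (X : XD K δ) :
    Matrix (Fin n ⊕ (Unit ⊕ (δ ⊕ δ))) (Fin n ⊕ (Unit ⊕ (δ ⊕ δ))) K :=
  LXn n (xR o) (gR o 0 X.N X.g) (vR X.t X.a X.c) (vR X.s X.h X.th)

/-- all coordinates of `X` in `F` -/
structure InX {k : Type*} [Field k] [Algebra k K] (F : IntermediateField k K) (X : XD K δ) :
    Prop where
  N : ∀ i j, X.N i j ∈ F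
  g : ∀ i, X.g i ∈ F
  t : X.t ∈ F
  a : ∀ i, X.a i ∈ F
  c : ∀ i, X.c i ∈ F
  s : X.s ∈ F
  h : ∀ i, X.h i ∈ F
  th : ∀ i, X.th i ∈ F

/-- the dual coordinates -/
def dualX (o : δ) (A N : Matrix δ δ K) (g : δ → K) (t s : K) (u v y z : δ → K) : XD K δ :=
  ⟨dN o A N g, dg o N g, z o, fun i => if i = o then y o else z i,
    fun i => if i = o then s else y i, v o, fun i => if i = o then u o else v i,
    fun i => if i = o then t else u i⟩

theorem dK_zero {A N : Matrix δ δ K} (h1 : ∀ i, i ≠ o → ∀ j, A i j = 0)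
    (h2 : ∀ i, i ≠ o → N i o = 0) : dK o A N = 0 := by
  ext i j
  by_cases hj : j = o
  · simp [dK, hj]
  · by_cases hi : i = o
    · simp [dK, hj, hi, h2 j hj]
    · simp [dK, hj, hi, h1 j hj i]

theorem ent_of_dual {k : Type*} [Field k] [Algebra k K] {F : IntermediateField k K}
    {A N : Matrix δ δ K} {g : δ → K} {t s : K} {u v y z : δ → K} (hA : Ke o A)
    (h1 : ∀ i, i ≠ o → ∀ j, A i j = 0) (h2 : ∀ i, i ≠ o → N i o = 0)
    (hX : InX F (dualX o A N g t s u v y z)) (n : ℕ) :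
    Ent F (LXn n (xR o) (gR o A N g) (vR t u v) (vR s y z)) := by
  have eN : ∀ i j, dN o A N g i j ∈ F := hX.N
  have eg : ∀ i, dg o N g i ∈ F := hX.g
  have ea : ∀ i, (if i = o then y o else z i) ∈ F := hX.a
  have ec : ∀ i, (if i = o then s else y i) ∈ F := hX.c
  have eh : ∀ i, (if i = o then u o else v i) ∈ F := hX.h
  have et : ∀ i, (if i = o then t else u i) ∈ F := hX.th
  have es : v o ∈ F := hX.s
  have ez : z o ∈ F := hX.t
  refine ent_LXn ent_xR (ent_gR ?_ ?_ ?_) (mem_vR ?_ ?_ ?_) (mem_vR ?_ ?_ ?_) n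
  · intro i j
    by_cases hi : i = o
    · by_cases hj : j = o
      · rw [hj, hA i]
        exact F.zero_mem
      · have := eN j o
        simpa [dN, hj, hi] using this
    · rw [h1 i hi]
      exact F.zero_mem
  · intro i j
    by_cases hj : j = o
    · by_cases hi : i = o
      · have := eN o o
        simpa [dN, hj, hi] using this
      · rw [hj, h2 i hi]
        exact F.zero_mem
    · by_cases hi : i = o
      · have := eg j
        simpa [dg, hj, hi] using this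
      · have := eN j i
        simpa [dN, hj, hi] using this
  · intro j
    by_cases hj : j = o
    · have := eg o
      simpa [dg, hj] using this
    · have := eN o j
      simpa [dN, hj] using this
  · simpa using et o
  · intro i
    by_cases hi : i = o
    · have := eh o
      simpa [hi] using this
    · have := et i
      simpa [hi] using this
  · intro i
    by_cases hi : i = o
    · rw [hi]
      exact es
    · have := eh i
      simpa [hi] using this
  · simpa using ec o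
  · intro i
    by_cases hi : i = o
    · have := ea o
      simpa [hi] using this
    · have := ec i
      simpa [hi] using this
  · intro i
    by_cases hi : i = o
    · rw [hi]
      exact ez
    · have := ea i
      simpa [hi] using this

/-- the normal form of a maximal bad triple -/
theorem normal322 {k : Type*} [Field k] [Algebra k K] [CharZero K] {m : ℕ}
    {T : Fin 3 → Matrix (Fin (m + 3 + 1) ⊕ (Unit ⊕ (δ ⊕ δ))) (Fin (m + 3 + 1) ⊕ (Unit ⊕ (δ ⊕ δ))) K}
    (hT : MaxR ρ T) (h0 : T 0 = LAn (m + 3 + 1) (xR o))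
    (hρ : ρ 2 ≤ (LAn (m + 3 + 1) (xR o : Matrix (Unit ⊕ (δ ⊕ δ)) (Unit ⊕ (δ ⊕ δ)) K) ^ 2).rank) :
    ∃ (f f' : Fin (m + 3) → K) (X X' : XD K δ),
      MaxR ρ ![LAn (m + 3 + 1) (xR o), matn o (m + 3 + 1) X, matn o (m + 3 + 1) X'] ∧
      ∀ F : IntermediateField k K, (∀ i, f i ∈ F) → (∀ i, f' i ∈ F) → InX F X → InX F X' →
        Ent F (T 1) ∧ Ent F (T 2) := by
  obtain ⟨f, f', A, N, A', N', g, g', u, v, y, z, u', v', y', z', t, s, t', s', e1, e2, hT1, hA,
    hA', row, row', h⟩ := shape322 hT h0 hρ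
  have key : ∀ F : IntermediateField k K, ∀ (f : Fin (m + 3) → K) (M), (∀ i, f i ∈ F) → Ent F M →
      Ent F (M + ∑ j, f j • LAn (m + 3 + 1) (xR o : Matrix (Unit ⊕ (δ ⊕ δ)) (Unit ⊕ (δ ⊕ δ)) K) ^
        ((j : ℕ) + 1)) := fun F f M hf hM =>
    hM.add (Ent.sum _ fun j _ => ((ent_LAn ent_xR _).pow _).smul (hf j))
  rcases h with ⟨h1, h1'⟩ | ⟨h1, h1'⟩
  · have eA : A = 0 := by
      ext i j
      by_cases hi : i = o
      · rw [hi]
        exact h1 j
      · exact row i hi j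
    have eA' : A' = 0 := by
      ext i j
      by_cases hi : i = o
      · rw [hi]
        exact h1' j
      · exact row' i hi j
    subst eA eA'
    refine ⟨f, f', ⟨N, g, t, u, v, s, y, z⟩, ⟨N', g', t', u', v', s', y', z'⟩, hT1, ?_⟩
    intro F hf hf' hX hX'
    rw [e1, e2]
    refine ⟨key F f _ hf ?_, key F f' _ hf' ?_⟩
    · exact ent_LXn ent_xR (ent_gR Ent.zero hX.N hX.g) (mem_vR hX.t hX.a hX.c)
        (mem_vR hX.s hX.h hX.th) _
    · exact ent_LXn ent_xR (ent_gR Ent.zero hX'.N hX'.g) (mem_vR hX'.t hX'.a hX'.c)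
        (mem_vR hX'.s hX'.h hX'.th) _
  · have h2 := dualR hA hA' hT1
    rw [dK_zero row h1, dK_zero row' h1'] at h2
    refine ⟨f, f', dualX o A N g t s u v y z, dualX o A' N' g' t' s' u' v' y' z', h2, ?_⟩
    intro F hf hf' hX hX'
    rw [e1, e2]
    exact ⟨key F f _ hf (ent_of_dual hA row h1 hX _), key F f' _ hf' (ent_of_dual hA' row' h1' hX' _)⟩

end Normal

end Row322

end Pool.Agent.Lib.D13
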