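import Pool.Agent.Lib.D13.Row322
import Pool.Agent.Lib.D13.PurCut
import Pool.Agent.Lib.D13.JordanU

/-!
# MP_5dcbc3_ag: the types `(l, 3, 2, 2)`: the dimension of the centralizer, the Jordan type
-/

namespace Pool.Agent.Lib.D13

open Matrix Pool.Agent.Lib.Q5dc Pool.Agent.Lib.D7

namespace Row322

open L322

variable {k : Type*} [Field k]

/-- index type of `R` -/
abbrev IR : Type := Unit ⊕ (Fin 3 ⊕ Fin 3)

/-- the Jordan matrix -/
abbrev JJ (k : Type*) [Field k] (n : ℕ) : Matrix (Fin n ⊕ IR) (Fin n ⊕ IR) k :=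
  LAn n (xR (0 : Fin 3))

/-- matrices with first column zero -/
def Kc (κ : Fin 2 → Fin 3 → k) : Matrix (Fin 3) (Fin 3) k :=
  Matrix.of fun i j => Fin.cases (motive := fun _ => k) 0 (fun j' => κ j' i) j

theorem Ke_Kc (κ : Fin 2 → Fin 3 → k) : Ke 0 (Kc κ) := fun _ => rfl

theorem Kc_add (κ κ' : Fin 2 → Fin 3 → k) : Kc (κ + κ') = Kc κ + Kc κ' := by
  ext i j
  refine Fin.cases ?_ (fun j => ?_) j
  · simp [Kc]
  · simp [Kc]

theorem Kc_smul (r : k) (κ : Fin 2 → Fin 3 → k) : Kc (r • κ) = r • Kc κ := by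
  ext i j
  refine Fin.cases ?_ (fun j => ?_) j
  · simp [Kc]
  · simp [Kc]

theorem Kc_eq_zero {κ : Fin 2 → Fin 3 → k} (h : Kc κ = 0) : κ = 0 := by
  funext j i
  have := congrFun (congrFun h i) j.succ
  simpa [Kc] using this

/-- the parameters of the centralizer of `x` -/
abbrev EC (k : Type*) : Type _ := k × (Fin 2 → Fin 3 → k) × Matrix (Fin 3) (Fin 3) k × (Fin 3 → k)

/-- the centralizer of `x` -/
def φR : EC k →ₗ[k] Matrix IR IR k where
  toFun p := p.1 • 1 + gR 0 (Kc p.2.1) p.2.2.1 p.2.2.2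
  map_add' p q := by
    simp only [Prod.fst_add, Prod.snd_add]
    rw [Kc_add, ← gR_add, add_smul]
    abel
  map_smul' r p := by
    simp only [Prod.smul_fst, Prod.smul_snd, RingHom.id_apply]
    rw [Kc_smul, ← gR_smul, smul_add, smul_assoc]

theorem φR_inj {p : EC k} (h : φR p = 0) : p = 0 := by
  have h1 : p.1 = 0 := by
    have := congrFun (congrFun h (Sum.inl ())) (Sum.inl ())
    simpa [φR, gR] using this
  have h2 : gR 0 (Kc p.2.1) p.2.2.1 p.2.2.2 = gR 0 0 0 0 := by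
    have h3 : φR p = p.1 • 1 + gR 0 (Kc p.2.1) p.2.2.1 p.2.2.2 := rfl
    rw [h, h1, zero_smul, zero_add] at h3
    rw [← h3]
    ext i j
    rcases i with i | i | i <;> rcases j with j | j | j <;> simp [gR]
  rw [gR_inj] at h2
  obtain ⟨h3, h4, h5⟩ := h2
  exact Prod.ext h1 (Prod.ext (Kc_eq_zero h3) (Prod.ext h4 h5))

theorem x_comm_φR (p : EC k) : xR (0 : Fin 3) * φR p = φR p * xR 0 := by
  show xR (0 : Fin 3) * (p.1 • 1 + gR 0 (Kc p.2.1) p.2.2.1 p.2.2.2) =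
    (p.1 • 1 + gR 0 (Kc p.2.1) p.2.2.1 p.2.2.2) * xR 0
  rw [mul_add, add_mul, xR_comm_gR (Ke_Kc _), mul_smul_comm, smul_mul_assoc, mul_one, one_mul]

/-- the parameters of the centralizer of the Jordan matrix -/
abbrev EJ (k : Type*) (n : ℕ) : Type _ := (Fin n → k) × (IR → k) × (IR → k) × EC k

/-- the centralizer of the Jordan matrix -/
def φJ (n : ℕ) : EJ k n →ₗ[k] Matrix (Fin n ⊕ IR) (Fin n ⊕ IR) k where
  toFun p := ∑ j, p.1 j • JJ k n ^ (j : ℕ) + LXn n (xR 0) (φR p.2.2.2) p.2.1 p.2.2.1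
  map_add' p q := by
    simp only [Prod.fst_add, Prod.snd_add, Pi.add_apply, map_add]
    rw [← LN.LXn_add]
    simp only [add_smul, Finset.sum_add_distrib]
    abel
  map_smul' r p := by
    simp only [Prod.smul_fst, Prod.smul_snd, RingHom.id_apply, Pi.smul_apply, map_smul]
    rw [← LN.LXn_smul, smul_add, Finset.smul_sum]
    simp only [smul_smul, smul_eq_mul]

theorem x_pow {n : ℕ} (hn : 3 ≤ n) : (xR (0 : Fin 3) : Matrix IR IR k) ^ n = 0 :=
  pow_eq_zero_of_le hn xR_cube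

theorem φJ_mem {n : ℕ} (hn : 3 ≤ n) (p : EJ k n) : φJ n p ∈ Pur.cen (JJ k n) := by
  show JJ k n * φJ n p = φJ n p * JJ k n
  show JJ k n * (∑ j, p.1 j • JJ k n ^ (j : ℕ) + LXn n (xR 0) (φR p.2.2.2) p.2.1 p.2.2.1) =
    (∑ j, p.1 j • JJ k n ^ (j : ℕ) + LXn n (xR 0) (φR p.2.2.2) p.2.1 p.2.2.1) * JJ k n
  rw [mul_add, add_mul, LN.LAn_comm_LXn (x_pow hn) (x_comm_φR _), Finset.mul_sum, Finset.sum_mul]
  congr 1
  refine Finset.sum_congr rfl fun j _ => ?_
  rw [mul_smul_comm, smul_mul_assoc, ← pow_succ', ← pow_succ]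

theorem ShF_pow_zero_col {n : ℕ} (hn : 0 < n) (j : ℕ) (i : Fin n) :
    (ShF k n ^ j) i ⟨0, hn⟩ = if (i : ℕ) = j then 1 else 0 := by
  induction j generalizing i with
  | zero =>
    rw [pow_zero, Matrix.one_apply]
    by_cases h : (i : ℕ) = 0
    · rw [if_pos h, if_pos (Fin.ext h)]
    · rw [if_neg h, if_neg (fun h' => h (by rw [h']))]
  | succ j ih =>
    rw [pow_succ', LN.ShF_mul_apply]
    by_cases h : 0 < (i : ℕ)
    · rw [dif_pos h, ih]
      by_cases h' : (i : ℕ) = j + 1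
      · rw [if_pos h', if_pos (by simp only; omega)]
      · rw [if_neg h', if_neg (by simp only; omega)]
    · rw [dif_neg h, if_neg (by omega)]

theorem φJ_inj {n : ℕ} (hn : 4 ≤ n) {p : EJ k n} (h : φJ n p = 0) : p = 0 := by
  have h' : ∑ j, p.1 j • JJ k n ^ (j : ℕ) + LXn n (xR 0) (φR p.2.2.2) p.2.1 p.2.2.1 = 0 := h
  have h1 : p.1 = 0 := by
    funext i
    have h2 := congrFun (congrFun h' (Sum.inl i)) (Sum.inl ⟨0, by omega⟩)
    rw [Matrix.add_apply, Matrix.sum_apply] at h2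
    have h3 : LXn n (xR 0) (φR p.2.2.2) p.2.1 p.2.2.1 (Sum.inl i) (Sum.inl ⟨0, by omega⟩) = 0 := rfl
    rw [h3, add_zero] at h2
    have h4 : ∀ j : Fin n, (p.1 j • JJ k n ^ (j : ℕ)) (Sum.inl i) (Sum.inl ⟨0, by omega⟩) =
        if j = i then p.1 j else 0 := by
      intro j
      rw [Matrix.smul_apply, LN.LAn_pow, fromBlocks_apply₁₁, ShF_pow_zero_col (by omega)]
      by_cases hij : j = i
      · simp [hij]
      · have : ¬ ((i : ℕ) = (j : ℕ)) := fun e => hij (Fin.ext e.symm)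
        simp [hij, this]
    simp only [h4] at h2
    simpa using h2
  have h2 : LXn n (xR 0) (φR p.2.2.2) p.2.1 p.2.2.1 = 0 := by
    simpa [h1] using h'
  have h3 : φR p.2.2.2 = 0 := by
    ext i j
    exact congrFun (congrFun h2 (Sum.inr i)) (Sum.inr j)
  have h4 : p.2.1 = 0 := by
    funext r
    have := congrFun (congrFun h2 (Sum.inr r)) (Sum.inl ⟨0, by omega⟩)
    have e : LXn n (xR 0) (φR p.2.2.2) p.2.1 p.2.2.1 (Sum.inr r) (Sum.inl ⟨0, by omega⟩) =
        Lcn n (xR 0) p.2.1 r ⟨0, by omega⟩ := rfl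
    rw [e, LN.Lcn_apply, pow_zero, one_mulVec] at this
    exact this
  have h5 : p.2.2.1 = 0 := by
    funext r
    have := congrFun (congrFun h2 (Sum.inl ⟨n - 1, by omega⟩)) (Sum.inr r)
    have e : LXn n (xR 0) (φR p.2.2.2) p.2.1 p.2.2.1 (Sum.inl ⟨n - 1, by omega⟩) (Sum.inr r) =
        Lbn n (xR 0) p.2.2.1 ⟨n - 1, by omega⟩ r := rfl
    rw [e, LN.Lbn_apply] at this
    simpa using this
  exact Prod.ext h1 (Prod.ext h4 (Prod.ext h5 (φR_inj h3)))

/-- the dimension of the centralizer -/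
theorem finrank_cen {n : ℕ} (hn : 4 ≤ n) : n + 33 ≤ Module.finrank k (Pur.cen (JJ k n)) := by
  have h := LinearMap.finrank_le_finrank_of_injective
    (f := LinearMap.codRestrict (Pur.cen (JJ k n)) (φJ n) fun p => φJ_mem (by omega) p) (by
      rw [← LinearMap.ker_eq_bot, LinearMap.ker_eq_bot']
      intro p hp
      exact φJ_inj hn (congrArg Subtype.val hp))
  have e : Module.finrank k (EJ k n) = n + 33 := by
    simp only [Module.finrank_prod, Module.finrank_pi, Module.finrank_matrix, Fintype.card_sum,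
      Fintype.card_fin, Fintype.card_unit, Module.finrank_self, Module.finrank_pi_fintype,
      Finset.sum_const, Finset.card_univ, smul_eq_mul]
  omega

/-! ### the Jordan type -/

/-- the boxes -/
def tau (n : ℕ) : Fin n ⊕ IR → IxL [n, 3, 2, 2]
  | .inl i => ⟨(0 : Fin 4), i⟩
  | .inr (.inl ()) => ⟨(1 : Fin 4), (0 : Fin 3)⟩
  | .inr (.inr (.inl 0)) => ⟨(1 : Fin 4), (1 : Fin 3)⟩
  | .inr (.inr (.inl 1)) => ⟨(2 : Fin 4), (0 : Fin 2)⟩
  | .inr (.inr (.inl 2)) => ⟨(3 : Fin 4), (0 : Fin 2)⟩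
  | .inr (.inr (.inr 0)) => ⟨(1 : Fin 4), (2 : Fin 3)⟩
  | .inr (.inr (.inr 1)) => ⟨(2 : Fin 4), (1 : Fin 2)⟩
  | .inr (.inr (.inr 2)) => ⟨(3 : Fin 4), (1 : Fin 2)⟩

end Row322

end Pool.Agent.Lib.D13
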