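import Pool.Agent.Lib.D13.Row322b
import Pool.Agent.Lib.D13.Auto
import Pool.Agent.Lib.D13.Frame

/-!
# MP_5dcbc3_ag: the types `(l, 3, 2, 2)`, `l ≥ 4`: the row is excluded by a count of parameters
-/

namespace Pool.Agent.Lib.D13

open Matrix MvPolynomial Pool.Agent.Lib.Q5dc Pool.Agent.Lib.D7

universe u

namespace Row322

open L322

section

variable {k : Type*} [Field k]

/-- the pair of the numbers of a box -/
def num (n : ℕ) (x : Fin n ⊕ IR) : ℕ × ℕ := (((tau n x).1 : ℕ), ((tau n x).2 : ℕ))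

/-- the numbers of the boxes of the blocks `3, 2, 2` -/
def numR : IR → ℕ × ℕ
  | .inl () => (1, 0)
  | .inr (.inl 0) => (1, 1)
  | .inr (.inl 1) => (2, 0)
  | .inr (.inl 2) => (3, 0)
  | .inr (.inr 0) => (1, 2)
  | .inr (.inr 1) => (2, 1)
  | .inr (.inr 2) => (3, 1)

theorem num_inr (n : ℕ) (r : IR) : num n (Sum.inr r) = numR r := by
  rcases r with ⟨⟩ | i | i
  · rfl
  · fin_cases i <;> rfl
  · fin_cases i <;> rfl

theorem num_inl (n : ℕ) (i : Fin n) : num n (Sum.inl i) = (0, (i : ℕ)) := rfl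

theorem numR_pos : ∀ r : IR, 1 ≤ (numR r).1 := by decide

theorem numR_inj : ∀ r r' : IR, numR r = numR r' → r = r' := by decide

theorem tau_inj (n : ℕ) : Function.Injective (tau n) := by
  intro x y h
  have h1 : num n x = num n y := by rw [num, num, h]
  rcases x with i | r <;> rcases y with j | r'
  · have h2 : (i : ℕ) = (j : ℕ) := congrArg Prod.snd h1
    rw [Fin.ext h2]
  · rw [num_inl, num_inr] at h1
    have h2 := numR_pos r'
    rw [← h1] at h2
    simp at h2
  · rw [num_inl, num_inr] at h1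
    have h2 := numR_pos r
    rw [h1] at h2
    simp at h2
  · rw [num_inr, num_inr] at h1
    rw [numR_inj _ _ h1]

theorem xR_spec (r r' : IR) : (xR (0 : Fin 3) : Matrix IR IR k) r r' =
    if (numR r).1 = (numR r').1 ∧ (numR r).2 = (numR r').2 + 1 then 1 else 0 := by
  rcases r with ⟨⟩ | i | i <;> rcases r' with ⟨⟩ | j | j
  · simp [xR, gR, numR]
  · fin_cases j <;> simp [xR, gR, numR]
  · fin_cases j <;> simp [xR, gR, numR]
  · fin_cases i
    · show (1 : Matrix (Fin 3) (Fin 3) k) 0 0 = _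
      simp [numR]
    · show (1 : Matrix (Fin 3) (Fin 3) k) 1 0 = _
      simp [numR]
    · show (1 : Matrix (Fin 3) (Fin 3) k) 2 0 = _
      simp [numR]
  · fin_cases i <;> fin_cases j <;> simp [xR, gR, numR]
  · fin_cases i <;> fin_cases j <;> simp [xR, gR, numR]
  · fin_cases i <;> simp [xR, gR, numR]
  · fin_cases i <;> fin_cases j <;> simp [xR, gR, numR]
  · fin_cases i <;> fin_cases j <;> simp [xR, gR, numR]

theorem tau_spec (n : ℕ) (x y : Fin n ⊕ IR) : JJ k n x y =
    if (tau n x).1 = (tau n y).1 ∧ ((tau n x).2 : ℕ) = (tau n y).2 + 1 then 1 else 0 := by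
  have e : ((tau n x).1 = (tau n y).1 ∧ ((tau n x).2 : ℕ) = (tau n y).2 + 1) ↔
      ((num n x).1 = (num n y).1 ∧ (num n x).2 = (num n y).2 + 1) :=
    ⟨fun h => ⟨congrArg Fin.val h.1, h.2⟩, fun h => ⟨Fin.ext h.1, h.2⟩⟩
  simp only [e]
  rcases x with i | r <;> rcases y with j | r'
  · simp only [num_inl, true_and]
    exact LN.ShF_apply i j
  · have h2 := numR_pos r'
    rw [num_inl, num_inr, if_neg (fun h => by simp only at h; omega)]
    rfl
  · have h2 := numR_pos r
    rw [num_inl, num_inr, if_neg (fun h => by simp only at h; omega)]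
    rfl
  · rw [num_inr, num_inr]
    exact xR_spec r r'

theorem card_ix (m : ℕ) : Fintype.card (Fin (m + 4) ⊕ IR) = m + 11 := by
  simp only [Fintype.card_sum, Fintype.card_fin, Fintype.card_unit]

theorem rank_JJ (m : ℕ) : m + 7 ≤ (JJ k (m + 4)).rank := by
  have hb : Function.Bijective (tau (m + 4)) := by
    refine (Fintype.bijective_iff_injective_and_card _).2 ⟨tau_inj _, ?_⟩
    rw [card_IxL, card_ix]
    simp
  have e : JJ k (m + 4) = (JU k [m + 4, 3, 2, 2]).submatrix (Equiv.ofBijective _ hb)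
      (Equiv.ofBijective _ hb) := by
    ext x y
    rw [tau_spec]
    rfl
  have h := rank_JU (k := k) [m + 4, 3, 2, 2]
  rw [e, Matrix.rank_submatrix]
  simp at h
  omega

end

theorem map_JJ {k K : Type*} [Field k] [Field K] (θ : k →+* K) (n : ℕ) :
    (JJ k n).map θ = JJ K n := by
  ext x y
  rw [Matrix.map_apply, tau_spec, tau_spec]
  split_ifs
  · exact map_one θ
  · exact map_zero θ

theorem rank_map_le {k K : Type u} [Field k] [Field K] (θ : k →+* K) {n : Type*} [Fintype n]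
    [DecidableEq n] (A : Matrix n n k) : A.rank ≤ (A.map θ).rank := by
  obtain ⟨h, h1, h2⟩ := GenAux.exists_rank A (RingHom.id k)
  have h3 := h2 θ (by
    intro h0
    apply h1
    rw [RingHom.id_apply]
    exact θ.injective (h0.trans (map_zero θ).symm))
  have e : (RingHom.id k).mapMatrix A = A := by
    ext i j
    rfl
  rw [e] at h3
  exact h3

/-- the row `(m + 4, 3, 2, 2)` from a count of parameters -/
theorem row322 {k : Type u} [Field k] [IsAlgClosed k] [CharZero k] (m : ℕ)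
    (hall : HALL k (m + 11))
    (count : ∀ (K : Type u) [Field K] [IsAlgClosed K] [CharZero K] [Algebra k K] (ρ : ℕ → ℕ)
      (X X' : XD K (Fin 3)), (∀ i, ρ i = (JJ k (m + 4) ^ i).rank) →
      MaxR ρ ![JJ K (m + 4), matn 0 (m + 4) X, matn 0 (m + 4) X'] →
      ∃ S : Set K, rk k S ≤ 39 ∧ InX (FF k S) X ∧ InX (FF k S) X') :
    ¬ Bad k [m + 4, 3, 2, 2] := by
  have : Infinite k := IsAlgClosed.instInfinite
  refine not_bad_of (JJ k (m + 4)) (tau (m + 4)) (tau_inj _) ?_ (tau_spec _) ?_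
  · rw [card_ix]
    simp
  intro ρ T hT hρ h0
  have hcard := card_ix m
  have hr1 := rank_JJ (k := k) m
  obtain ⟨K, iK, iA, iC, iAl, T', hT', h0', hs, hrk⟩ := auto_maxR (by rw [hcard]; exact hall) hT
    (fun i => by rw [h0, hρ]) (by rw [hcard]; omega) (by rw [hcard, hρ 1, pow_one]; omega)
  have h00 : T' 0 = JJ K (m + 3 + 1) := by rw [h0', h0, map_JJ]
  have hρ2 : ρ 2 ≤ (JJ K (m + 3 + 1) ^ 2).rank := by
    rw [hρ 2]
    refine (rank_map_le (algebraMap k K) _).trans (le_of_eq ?_)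
    have : ((JJ k (m + 4)) ^ 2).map (algebraMap k K) = ((JJ k (m + 4)).map (algebraMap k K)) ^ 2 :=
      map_pow (algebraMap k K).mapMatrix (JJ k (m + 4)) 2
    rw [this, map_JJ]
  obtain ⟨f, f', X, X', hM, hent⟩ := normal322 (k := k) (T := T') hT' h00 hρ2
  obtain ⟨S, hS, hX, hX'⟩ := count K ρ X X' hρ hM
  -- the entries
  let w : Fin (m + 3) ⊕ Fin (m + 3) → K := Sum.elim f f'
  have hmono : ∀ {a : K}, a ∈ FF k S → a ∈ FF k (S ∪ Set.range w) := fun {a} h =>
    FF_mono Set.subset_union_left h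
  have hmonoX : ∀ {X : XD K (Fin 3)}, InX (FF k S) X → InX (FF k (S ∪ Set.range w)) X :=
    fun {X} h => ⟨fun i j => hmono (h.N i j), fun i => hmono (h.g i), hmono h.t,
      fun i => hmono (h.a i), fun i => hmono (h.c i), hmono h.s, fun i => hmono (h.h i),
      fun i => hmono (h.th i)⟩
  obtain ⟨h1, h2⟩ := hent (FF k (S ∪ Set.range w))
    (fun i => mem_FF_self (Set.mem_union_right _ ⟨Sum.inl i, rfl⟩))
    (fun i => mem_FF_self (Set.mem_union_right _ ⟨Sum.inr i, rfl⟩)) (hmonoX hX) (hmonoX hX')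
  have h3 : Set.range (co T') ⊆ FF k (S ∪ Set.range w) := by
    rintro _ ⟨⟨i, a, b⟩, rfl⟩
    show T' i a b ∈ FF k (S ∪ Set.range w)
    fin_cases i
    · show T' 0 a b ∈ _
      rw [h00, tau_spec]
      split_ifs
      · exact one_mem _
      · exact zero_mem _
    · exact h1 a b
    · exact h2 a b
  have h4 : rk k (Set.range (co T')) ≤ rk k S + (Fintype.card (Fin (m + 3) ⊕ Fin (m + 3)) : ℕ) :=
    rk_le_add_card w h3
  have h5 := finrank_cen (k := k) (n := m + 4) (by omega)
  rw [h0, hcard] at hrk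
  have h6 : ((Module.finrank k (Pur.cen (JJ k (m + 4))) + (m + 11) - 2 : ℕ) : ℕ∞) ≤
      ((39 + (m + 3 + (m + 3)) : ℕ) : ℕ∞) := by
    refine hrk.trans (h4.trans ?_)
    rw [Fintype.card_sum, Fintype.card_fin]
    push_cast
    gcongr
  have h7 := ENat.natCast_le_natCast.1 h6
  omega

end Row322

end Pool.Agent.Lib.D13
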