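import Pool.Agent.Lib.D13.Row322c
import Pool.Agent.Lib.D13.Cnt4322

/-!
# MP_5dcbc3_ag: the type `(4, 3, 2, 2)`
-/

namespace Pool.Agent.Lib.D13

open Matrix Pool.Agent.Lib.Q5dc Pool.Agent.Lib.D7

universe u

/-- the type `(4, 3, 2, 2)` -/
theorem not_bad_4322 {k : Type u} [Field k] [IsAlgClosed k] [CharZero k] (hall : HALL k 11) :
    ¬ Bad k [4, 3, 2, 2] := by
  refine Row322.row322 0 hall fun K _ _ _ _ ρ X X' hρ hT => ?_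
  have h4 : ρ 4 = 0 := by
    rw [hρ, LN.LAn_nil (pow_eq_zero_of_le (by omega) L322.xR_cube), Matrix.rank_zero]
  obtain ⟨S, hS, h1, h2⟩ := L322.cnt4322 (k := k) (L322.rel hT) (L322.t_or hT h4)
  exact ⟨S, hS, ⟨h1.N, h1.g, h1.t, h1.a, h1.c, h1.s, h1.h, h1.th⟩,
    ⟨h2.N, h2.g, h2.t, h2.a, h2.c, h2.s, h2.h, h2.th⟩⟩

end Pool.Agent.Lib.D13
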