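import Pool.Agent.Lib.D13.Row322c
import Pool.Agent.Lib.D13.Rel5322
import Pool.Agent.Lib.D13.Cnt322

/-!
# MP_5dcbc3_ag: the type `(5, 3, 2, 2)`
-/

namespace Pool.Agent.Lib.D13

open Matrix Pool.Agent.Lib.Q5dc Pool.Agent.Lib.D7

universe u

namespace Row322

open L322

/-- the coordinates as `C322.Dat` -/
def toDat {K : Type*} (X : XD K (Fin 3)) : C322.Dat K := ⟨X.t, X.s, X.a, X.c, X.g, X.th, X.h, X.N⟩

theorem toRel {K : Type*} [Field K] {X X' : XD K (Fin 3)} (h : Rel5 0 X X') :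
    C322.Rel (toDat X) (toDat X') where
  r1 i := congrFun h.r1 i
  r2 i := congrFun h.r2 i
  r3 := by
    have := h.r3
    show X'.t * X.th 0 = X.t * X'.th 0
    linear_combination this
  r4 := by
    have := h.r4
    simp only [dotProduct] at this
    show X'.t * X.h 0 + ∑ j, X.th j * X'.a j = X.t * X'.h 0 + ∑ j, X'.th j * X.a j
    linear_combination this
  r5 := by
    have := h.r5
    simp only [dotProduct] at this
    show X'.t * X.s + ∑ j, X.h j * X'.a j + ∑ j, X.th j * X'.c j =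
      X.t * X'.s + ∑ j, X'.h j * X.a j + ∑ j, X'.th j * X.c j
    linear_combination this
  r6 m := congrFun h.r6 m
  r7 := h.r7
  r8 i := congrFun h.r8 i

theorem count5 {k K : Type*} [Field k] [Field K] [Algebra k K] {ρ : ℕ → ℕ} {X X' : XD K (Fin 3)}
    (hT : MaxR ρ ![JJ K 5, matn 0 5 X, matn 0 5 X']) :
    ∃ S : Set K, rk k S ≤ 39 ∧ InX (FF k S) X ∧ InX (FF k S) X' := by
  have hR := toRel (rel5_of_comm (hT.cn.1 1 2))
  refine ⟨Set.range (C322.crd (toDat X) (toDat X')), C322.cnt322 hR, ?_, ?_⟩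
  · have h : ∀ i, (toDat X).get i ∈ FF k (Set.range (C322.crd (toDat X) (toDat X'))) := fun i =>
      mem_FF_self ⟨.inl i, rfl⟩
    exact ⟨fun i j => h (.N i j), fun i => h (.g i), h .al, fun i => h (.a i), fun i => h (.c i),
      h .be, fun i => h (.th1 i), fun i => h (.th i)⟩
  · have h : ∀ i, (toDat X').get i ∈ FF k (Set.range (C322.crd (toDat X) (toDat X'))) := fun i =>
      mem_FF_self ⟨.inr i, rfl⟩
    exact ⟨fun i j => h (.N i j), fun i => h (.g i), h .al, fun i => h (.a i), fun i => h (.c i),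
      h .be, fun i => h (.th1 i), fun i => h (.th i)⟩

end Row322

/-- the type `(5, 3, 2, 2)` -/
theorem not_bad_5322 {k : Type u} [Field k] [IsAlgClosed k] [CharZero k] (hall : HALL k 12) :
    ¬ Bad k [5, 3, 2, 2] :=
  Row322.row322 1 hall fun _ _ _ _ _ _ _ _ _ hT => Row322.count5 hT

end Pool.Agent.Lib.D13
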