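import Pool.Agent.Lib.D13.KW

/-!
# MP_5dcbc3_ag: type (3,3,3,2), the normal forms with `s >= 1` are excluded
-/

set_option autoImplicit false

namespace Pool.Agent.Lib.D13

open Matrix Pool.Agent.Lib.Q5dc Pool.Agent.Lib.D7

namespace S3332Aux

variable {k : Type*} [Field k] {ρ : ℕ → ℕ}

/-- subtracting multiples of the first matrix -/
theorem max_subW {e w : ℕ} (x y : k) {io M M' : Matrix (Fin w) (Fin e) k}
    {P Q : Matrix (Fin w) (Fin w) k} (hT : MaxR ρ (TW io P Q M M')) :
    MaxR ρ (TW io (P - x • 1) (Q - y • 1) M M') := by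
  have e1 : ∀ (x : k) (P : Matrix (Fin w) (Fin w) k) (M : Matrix (Fin w) (Fin e) k),
      Wm ((P - x • 1) * io) M (P - x • 1) = Wm (P * io) M P - x • Wm io 0 1 := by
    intro x P M
    rw [Wm_smul, sub_eq_add_neg (Wm (P * io) M P), ← neg_one_smul k (Wm (x • io) _ _), Wm_smul,
      Wm_add]
    congr 1
    · rw [Matrix.sub_mul, Matrix.smul_mul, Matrix.one_mul, neg_one_smul, sub_eq_add_neg]
    · simp
    · rw [neg_one_smul, sub_eq_add_neg]
  have e2 : TW io (P - x • 1) (Q - y • 1) M M' =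
      ![Wm io 0 1, Wm (P * io) M P - x • Wm io 0 1, Wm (Q * io) M' Q - y • Wm io 0 1] := by
    rw [TW, e1, e1]
  rw [e2]
  have h : MaxR ρ ![Wm io 0 1, Wm (P * io) M P, Wm (Q * io) M' Q] := hT
  have h1 := D8.MaxR.lin h 1 0 0 1 (-x) 0 (-y) 0 (by simp)
  simpa [sub_eq_add_neg] using h1

theorem isPoly_bid {a : k → Fin 4 → k} (ha : ∀ i, IsPoly fun s => a s i) (i j : Fin 4) :
    IsPoly fun s => bid (a s) i j := by
  fin_cases i <;> fin_cases j <;>
    first
    | exact ha _
    | exact D7.IsPoly.const _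

theorem isPoly_pol {f : k → Fin 4 → k} {P : k → Matrix (Fin 4) (Fin 4) k}
    (hf : ∀ i, IsPoly fun s => f s i) (hP : ∀ i j, IsPoly fun s => P s i j) (i j : Fin 4) :
    IsPoly fun s => pol (f s) (P s) i j := by
  have h2 := isPoly_mul hP hP
  have h3 := isPoly_mul h2 hP
  exact ((((hf 0).mul (D7.IsPoly.const _)).add ((hf 1).mul (hP i j))).add
    ((hf 2).mul (h2 i j))).add ((hf 3).mul (h3 i j))

theorem isPoly_Qz (s : Fin 4) {a z : k → Fin 4 → k} (ha : ∀ i, IsPoly fun s => a s i)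
    (hz : ∀ i, IsPoly fun s => z s i) (i j : Fin 4) : IsPoly fun t => Qz s (a t) (z t) i j := by
  have h1 := ((hz 0).mul ((ha 2).sub (ha 1))).add (hz 1)
  have h2 := ((hz 0).mul ((ha 3).sub (ha 1))).add (hz 1)
  have h3 := ((((hz 0).mul ((ha 3).sub (ha 1))).mul ((ha 3).sub (ha 2))).add
    ((hz 1).mul ((ha 3).sub (ha 2)))).add (hz 2)
  fin_cases s
  · exact D7.IsPoly.const _
  · fin_cases i <;> fin_cases j <;>
      first
      | exact hz _
      | exact D7.IsPoly.const _
  · fin_cases i <;> fin_cases j <;>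
      first
      | exact hz _
      | exact h1
      | exact h2
      | exact D7.IsPoly.const _
  · fin_cases i <;> fin_cases j <;>
      first
      | exact hz _
      | exact h2
      | exact h3
      | exact D7.IsPoly.const _

theorem pol_comm (f : Fin 4 → k) (P : Matrix (Fin 4) (Fin 4) k) : P * pol f P = pol f P * P := by
  rw [pol]
  simp only [Matrix.mul_add, Matrix.add_mul, Matrix.mul_smul, Matrix.smul_mul, Matrix.mul_one,
    Matrix.one_mul, Matrix.mul_assoc]

theorem nf_comm (s : Fin 4) (a f z : Fin 4 → k) (hz : ∀ i, s ≤ i → z i = 0) :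
    bid a * (pol f (bid a) + Qz s a z) - (pol f (bid a) + Qz s a z) * bid a =
      vecMulVec z (Pi.single s 1) := by
  rw [← Qz_comm s a z hz, Matrix.mul_add, Matrix.add_mul, pol_comm]
  abel

theorem single_inc (s : Fin 4) : (Pi.single s 1 : Fin 4 → k) ᵥ* inc k s = 0 := by
  ext j
  rw [Matrix.single_one_vecMul]
  simp [inc, Matrix.row, Fin.succAbove_ne, (Fin.succAbove_ne s j).symm]

theorem nf_rel (s : Fin 4) (a f z : Fin 4 → k) (hz : ∀ i, s ≤ i → z i = 0) :
    bid a * (pol f (bid a) + Qz s a z) * inc k s =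
      (pol f (bid a) + Qz s a z) * bid a * inc k s := by
  have h1 := nf_comm s a f z hz
  have h2 : (bid a * (pol f (bid a) + Qz s a z) - (pol f (bid a) + Qz s a z) * bid a) *
      inc k s = 0 := by
    rw [h1, vecMulVec_mul, single_inc]
    ext i j
    simp [vecMulVec_apply]
  rw [Matrix.sub_mul] at h2
  exact sub_eq_zero.1 h2

/-- the last row of the normal form -/
theorem nf_row (s : Fin 4) (a f z : Fin 4 → k) :
    ∃ y : k, ∀ j, (pol f (bid a) + Qz s a z) 3 j = y * (1 : Matrix (Fin 4) (Fin 4) k) 3 j := by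
  refine ⟨(pol f (bid a) + Qz s a z) 3 3, fun j => ?_⟩
  fin_cases s <;> fin_cases j <;>
    simp [pol, Qz, bid, Matrix.mul_apply, Fin.sum_univ_four, Matrix.one_apply]

/-- the generic member is excluded -/
theorem no_gen [Infinite k] {s : Fin 4} (hs : s ≠ 0) {a f z : Fin 4 → k}
    {M M' : Matrix (Fin 4) (Fin 3) k}
    (hT : MaxR ρ (TW (inc k s) (bid a) (pol f (bid a) + Qz s a z) M M')) (h3 : ρ 3 = 0)
    (hz : ∀ i, s ≤ i → z i = 0) (hz0 : z 0 ≠ 0) (h0 : a 0 - a 3 ≠ 0) (h1 : a 1 - a 3 ≠ 0)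
    (h2 : a 2 - a 3 ≠ 0) : False := by
  obtain ⟨y, hy⟩ := nf_row s a f z
  set Q := pol f (bid a) + Qz s a z with hQ
  have hc : bid a * Q - Q * bid a = vecMulVec z (Pi.single s 1) := nf_comm s a f z hz
  -- translation
  have key : ∀ M' : Matrix (Fin 4) (Fin 3) k, MaxR ρ (TW (inc k s) (bid a - a 3 • 1)
      (Q - y • 1) M M') → ∀ eta : Fin 4 → k,
      (eta ᵥ* (bid a - a 3 • 1)) ᵥ* inc k s = -((Pi.single 3 1 : Fin 4 → k) ᵥ* M) →
      ((Pi.single 3 1 : Fin 4 → k) ᵥ* inc k s ≠ 0 ∨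
        (Pi.single 3 1 : Fin 4 → k) ᵥ* M' + (eta ᵥ* (Q - y • 1)) ᵥ* inc k s ≠ 0) → False := by
    intro M' hT eta heta hx
    set u : Fin 4 → k := ![1, -(a 0 - a 3), (a 0 - a 3) * (a 1 - a 3),
      -((a 0 - a 3) * (a 1 - a 3) * (a 2 - a 3))] with hu
    have hPu : (bid a - a 3 • 1) *ᵥ u = 0 := by
      ext i
      fin_cases i <;>
        simp [hu, bid, Matrix.mulVec, dotProduct, Fin.sum_univ_four, Matrix.one_apply] <;> ring
    have hcP : (Pi.single 3 1 : Fin 4 → k) ᵥ* (bid a - a 3 • 1) = 0 := by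
      rw [Matrix.single_one_vecMul]
      ext j
      fin_cases j <;> simp [bid, Matrix.row, Matrix.one_apply]
    have hcQ : (Pi.single 3 1 : Fin 4 → k) ᵥ* (Q - y • 1) = 0 := by
      rw [Matrix.single_one_vecMul]
      ext j
      show Q 3 j - y • (1 : Matrix (Fin 4) (Fin 4) k) 3 j = 0
      rw [hy j, smul_eq_mul, sub_self]
    have hus : u s ≠ 0 := by
      fin_cases s
      · exact one_ne_zero
      · exact neg_ne_zero.2 h0
      · exact mul_ne_zero h0 h1
      · exact neg_ne_zero.2 (mul_ne_zero (mul_ne_zero h0 h1) h2)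
    have hd : (Q - y • 1) *ᵥ u ≠ 0 := by
      intro hd
      have e1 : (bid a - a 3 • 1) * (Q - y • 1) - (Q - y • 1) * (bid a - a 3 • 1) =
          vecMulVec z (Pi.single s 1) := by
        rw [← hc]
        simp only [Matrix.sub_mul, Matrix.mul_sub, Matrix.smul_mul, Matrix.mul_smul,
          Matrix.one_mul, Matrix.mul_one, smul_sub]
        module
      have e2 := congrArg (fun X => X *ᵥ u) e1
      rw [Matrix.sub_mulVec, ← Matrix.mulVec_mulVec,
        ← Matrix.mulVec_mulVec, hd, hPu, Matrix.mulVec_zero, Matrix.mulVec_zero, sub_zero, vecMulVec_mulVec] at e2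
      have e3 := congrFun e2 0
      simp only [Pi.zero_apply, Pi.smul_apply, MulOpposite.smul_eq_mul_unop,
        MulOpposite.unop_op, single_one_dotProduct] at e3
      rcases mul_eq_zero.1 e3.symm with h | h
      · exact hz0 h
      · exact hus h
    refine MaxR.kw hT h3 hcP hcQ hPu heta hd ?_
    rcases hx with hx | hx
    · exact Or.inl hx
    · right
      intro h
      rcases smul_eq_zero.1 h with h | h
      · rw [single_one_dotProduct] at h
        exact neg_ne_zero.2 (mul_ne_zero (mul_ne_zero h0 h1) h2) h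
      · exact hx h
  -- the row eta
  obtain ⟨eta, heta⟩ : ∃ eta : Fin 4 → k,
      (eta ᵥ* (bid a - a 3 • 1)) ᵥ* inc k s = -((Pi.single 3 1 : Fin 4 → k) ᵥ* M) := by
    set m : Fin 3 → k := (Pi.single 3 1 : Fin 4 → k) ᵥ* M with hm
    have e0 : ∀ (X : Matrix (Fin 4) (Fin 4) k) (eta : Fin 4 → k) (j : Fin 3),
        ((eta ᵥ* X) ᵥ* inc k s) j = (eta ᵥ* X) (s.succAbove j) := by
      intro X eta j
      simp [inc, Matrix.vecMul, dotProduct]
    fin_cases s
    · exact absurd rfl hs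
    · refine ⟨![-(m 0) / (a 0 - a 3), -(m 1) + (a 2 - a 3) * m 2, -(m 2), 0], ?_⟩
      ext j
      rw [e0]
      fin_cases j
      · show (_ ᵥ* (bid a - a 3 • 1)) 0 = _
        simp [bid, Matrix.vecMul, dotProduct, Fin.sum_univ_four, Matrix.one_apply]
        field_simp
      · show (_ ᵥ* (bid a - a 3 • 1)) 2 = _
        simp [bid, Matrix.vecMul, dotProduct, Fin.sum_univ_four, Matrix.one_apply]
        ring
      · show (_ ᵥ* (bid a - a 3 • 1)) 3 = _
        simp [bid, Matrix.vecMul, dotProduct, Fin.sum_univ_four, Matrix.one_apply]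
    · refine ⟨![-(m 0) / (a 0 - a 3), (-(m 1) - -(m 0) / (a 0 - a 3)) / (a 1 - a 3), -(m 2), 0], ?_⟩
      ext j
      rw [e0]
      fin_cases j
      · show (_ ᵥ* (bid a - a 3 • 1)) 0 = _
        simp [bid, Matrix.vecMul, dotProduct, Fin.sum_univ_four, Matrix.one_apply]
        field_simp
      · show (_ ᵥ* (bid a - a 3 • 1)) 1 = _
        simp [bid, Matrix.vecMul, dotProduct, Fin.sum_univ_four, Matrix.one_apply]
        field_simp
        ring
      · show (_ ᵥ* (bid a - a 3 • 1)) 3 = _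
        simp [bid, Matrix.vecMul, dotProduct, Fin.sum_univ_four, Matrix.one_apply]
    · refine ⟨![-(m 0) / (a 0 - a 3), (-(m 1) - -(m 0) / (a 0 - a 3)) / (a 1 - a 3),
        (-(m 2) - (-(m 1) - -(m 0) / (a 0 - a 3)) / (a 1 - a 3)) / (a 2 - a 3), 0], ?_⟩
      ext j
      rw [e0]
      fin_cases j
      · show (_ ᵥ* (bid a - a 3 • 1)) 0 = _
        simp [bid, Matrix.vecMul, dotProduct, Fin.sum_univ_four, Matrix.one_apply]
        field_simp
      · show (_ ᵥ* (bid a - a 3 • 1)) 1 = _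
        simp [bid, Matrix.vecMul, dotProduct, Fin.sum_univ_four, Matrix.one_apply]
        field_simp
        ring
      · show (_ ᵥ* (bid a - a 3 • 1)) 2 = _
        simp [bid, Matrix.vecMul, dotProduct, Fin.sum_univ_four, Matrix.one_apply]
        field_simp
        ring
  have hT1 := max_subW (a 3) y hT
  by_cases hx : (Pi.single 3 1 : Fin 4 → k) ᵥ* inc k s ≠ 0 ∨
      (Pi.single 3 1 : Fin 4 → k) ᵥ* M' + (eta ᵥ* (Q - y • 1)) ᵥ* inc k s ≠ 0
  · exact key M' hT1 eta heta hx
  · rw [not_or, not_not, not_not] at hx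
    have hrel : (bid a - a 3 • 1) * (Q - y • 1) * inc k s =
        (Q - y • 1) * (bid a - a 3 • 1) * inc k s := by
      have e1 := nf_rel s a f z hz
      rw [← hQ] at e1
      simp only [Matrix.sub_mul, Matrix.mul_sub, Matrix.smul_mul, Matrix.mul_smul,
        Matrix.one_mul, Matrix.mul_one, smul_sub, e1]
      module
    obtain ⟨E, hE, h5⟩ := hT1.deform (fun t => TW (inc k s) (bid a - a 3 • 1) (Q - y • 1) M
      (M' + t • Matrix.single 3 0 1)) (polyFam_TW _ (fun _ _ => D7.IsPoly.const _)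
        (fun _ _ => D7.IsPoly.const _) (fun _ _ => D7.IsPoly.const _) (fun i j =>
          (D7.IsPoly.const (M' i j)).add (D7.IsPoly.id.mul (D7.IsPoly.const _)))) (by simp)
      Set.finite_empty (fun t _ => TW_cn hrel)
    obtain ⟨t, ht⟩ := (hE.union (Set.finite_singleton 0)).infinite_compl.nonempty
    rw [Set.mem_compl_iff, Set.mem_union, not_or, Set.mem_singleton_iff] at ht
    refine key _ (h5 t ht.1) eta heta (Or.inr ?_)
    intro h6
    apply ht.2
    have h7 : (Pi.single 3 1 : Fin 4 → k) ᵥ* (M' + t • Matrix.single 3 0 1) =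
        (Pi.single 3 1 : Fin 4 → k) ᵥ* M' + t • Pi.single 0 1 := by
      rw [Matrix.vecMul_add, Matrix.vecMul_smul]
      congr 2
      ext j
      rw [Matrix.single_one_vecMul]
      fin_cases j <;> simp [Matrix.row, Matrix.single]
    rw [h7, add_right_comm, hx.2, zero_add] at h6
    have h8 := congrFun h6 0
    simpa using h8

theorem finite_lin' (a b : k) (hb : b ≠ 0) : {s : k | a + s * b = 0}.Finite := by
  refine (Set.finite_singleton (-a / b)).subset fun s hs => ?_
  rw [Set.mem_singleton_iff, eq_div_iff hb]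
  have h : a + s * b = 0 := hs
  linear_combination h

/-- the normal forms with `s >= 1` are excluded -/
theorem no_nf [CharZero k] {s : Fin 4} (hs : s ≠ 0) {a f z : Fin 4 → k}
    {M M' : Matrix (Fin 4) (Fin 3) k}
    (hT : MaxR ρ (TW (inc k s) (bid a) (pol f (bid a) + Qz s a z) M M')) (h3 : ρ 3 = 0)
    (hz : ∀ i, s ≤ i → z i = 0) : False := by
  have : Infinite k := Infinite.of_injective (Nat.cast : ℕ → k) Nat.cast_injective
  set a1 : Fin 4 → k := ![1, 2, 3, 0] with ha1
  set z1 : Fin 4 → k := Pi.single 0 1 with hz1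
  have hzs : ∀ (t : k) (i : Fin 4), s ≤ i → (z + t • z1) i = 0 := by
    intro t i hi
    have h1 : i ≠ 0 := by
      rintro rfl
      exact hs (le_antisymm hi (Fin.zero_le s))
    rw [Pi.add_apply, hz i hi, Pi.smul_apply, hz1, Pi.single_eq_of_ne h1, smul_zero, add_zero]
  have hpa : ∀ i, IsPoly fun t : k => (a + t • a1) i := fun i =>
    (D7.IsPoly.const (a i)).add (D7.IsPoly.id.mul (D7.IsPoly.const (a1 i)))
  have hpz : ∀ i, IsPoly fun t : k => (z + t • z1) i := fun i =>
    (D7.IsPoly.const (z i)).add (D7.IsPoly.id.mul (D7.IsPoly.const (z1 i)))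
  obtain ⟨E, hE, h5⟩ := hT.deform (fun t => TW (inc k s) (bid (a + t • a1))
    (pol f (bid (a + t • a1)) + Qz s (a + t • a1) (z + t • z1)) M M')
    (polyFam_TW _ (isPoly_bid hpa) (fun i j => (isPoly_pol (f := fun _ => f)
      (fun _ => D7.IsPoly.const _) (isPoly_bid hpa) i j).add (isPoly_Qz s hpa hpz i j)) (fun _ _ => D7.IsPoly.const _)
      (fun _ _ => D7.IsPoly.const _)) (by simp) Set.finite_empty
    (fun t _ => TW_cn (nf_rel s _ f _ (hzs t)))
  obtain ⟨t, ht⟩ := ((((hE.union (finite_lin' (z 0) 1 one_ne_zero)).union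
    (finite_lin' (a 0 - a 3) 1 one_ne_zero)).union
    (finite_lin' (a 1 - a 3) 2 two_ne_zero)).union
    (finite_lin' (a 2 - a 3) 3 three_ne_zero)).infinite_compl.nonempty
  simp only [Set.mem_compl_iff, Set.mem_union, Set.mem_ofPred_eq, not_or] at ht
  obtain ⟨⟨⟨⟨t1, t2⟩, t3⟩, t4⟩, t5⟩ := ht
  refine no_gen hs (h5 t t1) h3 (hzs t) ?_ ?_ ?_ ?_
  · intro h
    apply t2
    rw [← h]
    simp [hz1]
  · intro h
    apply t3
    rw [← h]
    simp [ha1]
    ring
  · intro h
    apply t4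
    rw [← h]
    simp [ha1]
    ring
  · intro h
    apply t5
    rw [← h]
    simp [ha1]
    ring

end S3332Aux

end Pool.Agent.Lib.D13
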