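import Pool.Agent.Lib.D13.S42

/-!
# MP_5dcbc3_ag: Jordan types `(4^e, 2^q, 1^p)`: shape of the matrices

`E`, `F`, `P` are finite types with `e`, `q`, `p` elements; index type `I4 E F ⊕ P`. The matrix
`TP a b c om pi et th` has the block `TT a b c`, `om : P × E` (from the level 0 to `P`),
`pi : P × F` (from the `F`-part of the level 1), `et : F × P` (to the `F`-part of the level 2) and
`th : E × P` (to the level 3). `JP = TP 1 0 0 0 0 0 0` has the Jordan type `(4^e, 2^q, 1^p)`.

`CCP` are the relations which say that two such matrices commute.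
-/

namespace Pool.Agent.Lib.D13.S42

open Matrix Pool.Agent.Lib.Q5dc Pool.Agent.Lib.D7

variable {k : Type*} [Field k] {E F P : Type*} [Fintype E] [DecidableEq E] [Fintype F]
  [DecidableEq F] [Fintype P] [DecidableEq P]

/-- `k^F → k^(E ⊕ F)` -/
def ioF (k E F : Type*) [Field k] [DecidableEq F] : Matrix (E ⊕ F) F k := fromRows 0 1

/-- `k^(E ⊕ F) → k^F` -/
def roF (k E F : Type*) [Field k] [DecidableEq F] : Matrix F (E ⊕ F) k := fromCols 0 1

/-- the columns of `P` -/
def up (et : Matrix F P k) (th : Matrix E P k) : Matrix (I4 E F) P k :=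
  fromRows 0 (fromRows (ioF k E F * et) th)

/-- the rows of `P` -/
def dn (om : Matrix P E k) (pi : Matrix P F k) : Matrix P (I4 E F) k :=
  fromCols (fromCols om (pi * roF k E F)) 0

/-- the matrices -/
def TP (a b : Matrix (E ⊕ F) (E ⊕ F) k) (c : Matrix E E k) (om : Matrix P E k) (pi : Matrix P F k)
    (et : Matrix F P k) (th : Matrix E P k) : Matrix (I4 E F ⊕ P) (I4 E F ⊕ P) k :=
  fromBlocks (TT a b c) (up et th) (dn om pi) 0

/-- the Jordan matrix -/
def JP (k E F P : Type*) [Field k] [Fintype E] [DecidableEq E] [Fintype F] [DecidableEq F] :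
    Matrix (I4 E F ⊕ P) (I4 E F ⊕ P) k := fromBlocks (J k E F) 0 0 0

theorem po_ioF : po k E F * ioF k E F = 0 := by
  rw [po, ioF, fromCols_mul_fromRows, Matrix.mul_zero, Matrix.zero_mul, add_zero]

theorem roF_io : roF k E F * io k E F = 0 := by
  rw [roF, io, fromCols_mul_fromRows, Matrix.mul_zero, Matrix.zero_mul, add_zero]

theorem roF_ioF : roF k E F * ioF k E F = 1 := by
  rw [roF, ioF, fromCols_mul_fromRows, Matrix.mul_zero, zero_add, Matrix.one_mul]

theorem split_one : io k E F * po k E F + ioF k E F * roF k E F = 1 := by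
  ext (i | i) (j | j) <;>
    simp [io, po, ioF, roF, Matrix.mul_apply, Matrix.one_apply]

theorem up_zero : (up 0 0 : Matrix (I4 E F) P k) = 0 := by
  rw [up, Matrix.mul_zero]
  ext (i | (i | i)) j <;> rfl

theorem dn_zero : (dn 0 0 : Matrix P (I4 E F) k) = 0 := by
  rw [dn, Matrix.zero_mul]
  ext i ((j | j) | j) <;> rfl

theorem JP_eq : JP k E F P = TP 1 0 0 0 0 0 0 := by
  rw [JP, TP, up_zero, dn_zero, J]

theorem TT_mul_up (a b : Matrix (E ⊕ F) (E ⊕ F) k) (c : Matrix E E k) (et : Matrix F P k)
    (th : Matrix E P k) : TT a b c * up et th =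
      fromRows 0 (fromRows 0 (po k E F * a * ioF k E F * et)) := by
  rw [TT, up, fromBlocks_mul_fromRows, fromBlocks_mul_fromRows]
  simp only [Matrix.mul_zero, Matrix.zero_mul, add_zero, zero_add, Matrix.mul_assoc]

theorem dn_mul_TT (a b : Matrix (E ⊕ F) (E ⊕ F) k) (c : Matrix E E k) (om : Matrix P E k)
    (pi : Matrix P F k) : dn om pi * TT a b c =
      fromCols (fromCols (pi * roF k E F * a * io k E F) 0) 0 := by
  rw [TT, dn, fromCols_mul_fromBlocks, fromCols_mul_fromBlocks]
  simp only [Matrix.mul_zero, Matrix.zero_mul, add_zero, zero_add, Matrix.mul_assoc]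

theorem up_mul_dn (et : Matrix F P k) (th : Matrix E P k) (om : Matrix P E k) (pi : Matrix P F k) :
    up et th * dn om pi = fromBlocks 0 0 (fromBlocks (ioF k E F * et * om)
      (ioF k E F * et * pi * roF k E F) (th * om) (th * pi * roF k E F)) 0 := by
  rw [up, dn, fromRows_mul_fromCols]
  rw [fromRows_mul_fromCols]
  simp only [Matrix.mul_zero, Matrix.zero_mul, Matrix.mul_assoc]

theorem dn_mul_up (et : Matrix F P k) (th : Matrix E P k) (om : Matrix P E k) (pi : Matrix P F k) :
    dn om pi * up et th = 0 := by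
  rw [up, dn, fromCols_mul_fromRows, Matrix.mul_zero, Matrix.zero_mul, add_zero]

/-- the relations -/
def CCP (a b : Matrix (E ⊕ F) (E ⊕ F) k) (om : Matrix P E k) (pi : Matrix P F k)
    (et : Matrix F P k) (th : Matrix E P k) (a' b' : Matrix (E ⊕ F) (E ⊕ F) k)
    (om' : Matrix P E k) (pi' : Matrix P F k) (et' : Matrix F P k) (th' : Matrix E P k) : Prop :=
  (a * a' - a' * a) * io k E F + ioF k E F * (et * om' - et' * om) = 0 ∧
  po k E F * (a * a' - a' * a) + (th * pi' - th' * pi) * roF k E F = 0 ∧
  po k E F * (a * b' - b' * a + (b * a' - a' * b)) * io k E F + (th * om' - th' * om) = 0 ∧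
  et * pi' = et' * pi ∧
  po k E F * a * ioF k E F * et' = po k E F * a' * ioF k E F * et ∧
  pi * roF k E F * a' * io k E F = pi' * roF k E F * a * io k E F

theorem TP_mul (a b : Matrix (E ⊕ F) (E ⊕ F) k) (c : Matrix E E k) (om : Matrix P E k)
    (pi : Matrix P F k) (et : Matrix F P k) (th : Matrix E P k)
    (a' b' : Matrix (E ⊕ F) (E ⊕ F) k) (c' : Matrix E E k) (om' : Matrix P E k)
    (pi' : Matrix P F k) (et' : Matrix F P k) (th' : Matrix E P k) :
    TP a b c om pi et th * TP a' b' c' om' pi' et' th' = fromBlocks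
      (fromBlocks 0 0 (fromBlocks (a * a' * io k E F + ioF k E F * et * om')
        (ioF k E F * et * pi' * roF k E F)
        (po k E F * (a * b' + b * a') * io k E F + th * om')
        (po k E F * (a * a') + th * pi' * roF k E F)) 0)
      (fromRows 0 (fromRows 0 (po k E F * a * ioF k E F * et')))
      (fromCols (fromCols (pi * roF k E F * a' * io k E F) 0) 0) 0 := by
  rw [TP, TP, fromBlocks_multiply, TT_mul, up_mul_dn, TT_mul_up, dn_mul_TT, dn_mul_up]
  simp only [Matrix.mul_zero, Matrix.zero_mul, add_zero, zero_add, fromBlocks_add]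

theorem fromRows_inj' {m₁ m₂ n R : Type*} {A A' : Matrix m₁ n R} {B B' : Matrix m₂ n R} :
    fromRows A B = fromRows A' B' ↔ A = A' ∧ B = B' := by
  constructor
  · intro h
    constructor
    · ext i j
      exact congrFun (congrFun h (.inl i)) j
    · ext i j
      exact congrFun (congrFun h (.inr i)) j
  · rintro ⟨rfl, rfl⟩
    rfl

theorem fromCols_inj' {m n₁ n₂ R : Type*} {A A' : Matrix m n₁ R} {B B' : Matrix m n₂ R} :
    fromCols A B = fromCols A' B' ↔ A = A' ∧ B = B' := by
  constructor
  · intro h
    constructor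
    · ext i j
      exact congrFun (congrFun h i) (.inl j)
    · ext i j
      exact congrFun (congrFun h i) (.inr j)
  · rintro ⟨rfl, rfl⟩
    rfl

theorem commP_iff {a b : Matrix (E ⊕ F) (E ⊕ F) k} {c : Matrix E E k} {om : Matrix P E k}
    {pi : Matrix P F k} {et : Matrix F P k} {th : Matrix E P k}
    {a' b' : Matrix (E ⊕ F) (E ⊕ F) k} {c' : Matrix E E k} {om' : Matrix P E k}
    {pi' : Matrix P F k} {et' : Matrix F P k} {th' : Matrix E P k} :
    TP a b c om pi et th * TP a' b' c' om' pi' et' th' =
      TP a' b' c' om' pi' et' th' * TP a b c om pi et th ↔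
    CCP a b om pi et th a' b' om' pi' et' th' := by
  have g1 : (a * a' * io k E F + ioF k E F * et * om' = a' * a * io k E F + ioF k E F * et' * om)
      ↔ (a * a' - a' * a) * io k E F + ioF k E F * (et * om' - et' * om) = 0 := by
    rw [← sub_eq_zero]
    have e : a * a' * io k E F + ioF k E F * et * om' -
        (a' * a * io k E F + ioF k E F * et' * om) =
        (a * a' - a' * a) * io k E F + ioF k E F * (et * om' - et' * om) := by
      rw [Matrix.sub_mul, Matrix.mul_sub, ← Matrix.mul_assoc, ← Matrix.mul_assoc]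
      abel
    rw [e]
  have g2 : (po k E F * (a * a') + th * pi' * roF k E F =
      po k E F * (a' * a) + th' * pi * roF k E F) ↔
      po k E F * (a * a' - a' * a) + (th * pi' - th' * pi) * roF k E F = 0 := by
    rw [← sub_eq_zero]
    have e : po k E F * (a * a') + th * pi' * roF k E F -
        (po k E F * (a' * a) + th' * pi * roF k E F) =
        po k E F * (a * a' - a' * a) + (th * pi' - th' * pi) * roF k E F := by
      rw [Matrix.mul_sub, Matrix.sub_mul]
      abel
    rw [e]
  have g3 : (po k E F * (a * b' + b * a') * io k E F + th * om' =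
      po k E F * (a' * b + b' * a) * io k E F + th' * om) ↔
      po k E F * (a * b' - b' * a + (b * a' - a' * b)) * io k E F + (th * om' - th' * om) = 0 := by
    rw [← sub_eq_zero]
    have e : po k E F * (a * b' + b * a') * io k E F + th * om' -
        (po k E F * (a' * b + b' * a) * io k E F + th' * om) =
        po k E F * (a * b' - b' * a + (b * a' - a' * b)) * io k E F +
          (th * om' - th' * om) := by
      rw [add_sub_add_comm, ← Matrix.sub_mul, ← Matrix.mul_sub]
      congr 3
      abel
    rw [e]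
  have g4 : (ioF k E F * et * pi' * roF k E F = ioF k E F * et' * pi * roF k E F) ↔
      et * pi' = et' * pi := by
    constructor
    · intro h
      have h1 := congrArg (fun X => roF k E F * X * ioF k E F) h
      simp only [← Matrix.mul_assoc, roF_ioF, Matrix.one_mul] at h1
      simpa only [Matrix.mul_assoc, roF_ioF, Matrix.mul_one] using h1
    · intro h
      rw [Matrix.mul_assoc (ioF k E F), h, ← Matrix.mul_assoc]
  rw [TP_mul, TP_mul, fromBlocks_inj, fromBlocks_inj, fromBlocks_inj, fromRows_inj',
    fromRows_inj', fromCols_inj', fromCols_inj', CCP, g1, g2, g3, g4]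
  tauto

theorem JP_commP (a b : Matrix (E ⊕ F) (E ⊕ F) k) (c : Matrix E E k) (om : Matrix P E k)
    (pi : Matrix P F k) (et : Matrix F P k) (th : Matrix E P k) :
    JP k E F P * TP a b c om pi et th = TP a b c om pi et th * JP k E F P := by
  rw [JP_eq, commP_iff, CCP]
  simp only [Matrix.one_mul, Matrix.mul_one, sub_self, Matrix.zero_mul, Matrix.mul_zero, po_ioF,
    add_zero, sub_zero, Matrix.mul_assoc, roF_io, and_self, and_true, true_and]

/-! ### shape -/

/-- a matrix which commutes with `JP`, is killed by `JP ^ 3` and satisfies the conditions of first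
order on `ker JP` and `ker JP ^ 2` -/
theorem shapeP [CharZero k] {B : Matrix (I4 E F ⊕ P) (I4 E F ⊕ P) k}
    (h : JP k E F P * B = B * JP k E F P)
    (h3 : JP k E F P * JP k E F P * JP k E F P * B = 0)
    (h2 : ∀ q, (JP k E F P * JP k E F P) *ᵥ q = 0 →
      ∃ m, (JP k E F P * B + B * JP k E F P) *ᵥ q = (JP k E F P * JP k E F P) *ᵥ m)
    (h1 : ∀ q, JP k E F P *ᵥ q = 0 → ∃ m, B *ᵥ q = JP k E F P *ᵥ m) :
    ∃ a b c om pi et th, B = TP a b c om pi et th := by
  obtain ⟨X, u, d, de, rfl⟩ : ∃ X u d de, B = fromBlocks X u d de :=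
    ⟨_, _, _, _, (fromBlocks_toBlocks B).symm⟩
  have hde : de = 0 := by
    ext i j
    obtain ⟨m, hm⟩ := h1 (Pi.single (.inr j) 1) (by
      rw [Matrix.mulVec_single_one]
      ext (x | x) <;> simp [JP])
    rw [Matrix.mulVec_single_one] at hm
    have h5 := congrFun hm (.inr i)
    have h6 : (JP k E F P *ᵥ m) (.inr i) = 0 := by
      simp [JP, Matrix.mulVec, dotProduct]
    rw [h6] at h5
    simpa using h5
  subst hde
  have hc := h
  simp only [JP, fromBlocks_multiply, Matrix.zero_mul, Matrix.mul_zero, add_zero,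
    fromBlocks_inj, and_true] at h
  obtain ⟨hX, hu, hd⟩ := h
  obtain ⟨a, b, c, rfl⟩ := shape hX (by
      simp only [JP, fromBlocks_multiply, Matrix.zero_mul, Matrix.mul_zero, add_zero] at h3
      have h4 := congrArg toBlocks₁₁ h3
      rw [toBlocks_fromBlocks₁₁] at h4
      exact h4) (by
      intro q hq
      obtain ⟨m, hm⟩ := h2 (Sum.elim q 0) (by
        simp only [JP, fromBlocks_multiply, Matrix.zero_mul, Matrix.mul_zero, add_zero,
          fromBlocks_mulVec]
        ext (x | x)
        · simp [Function.comp_def, hq]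
        · simp)
      refine ⟨m ∘ Sum.inl, ?_⟩
      simp only [JP, fromBlocks_multiply, Matrix.zero_mul, Matrix.mul_zero, add_zero,
          fromBlocks_mulVec, fromBlocks_add] at hm
      have e0 : (Sum.elim q 0 : I4 E F ⊕ P → k) ∘ Sum.inr = 0 := rfl
      have e1 : (Sum.elim q 0 : I4 E F ⊕ P → k) ∘ Sum.inl = q := rfl
      rw [e0, e1, Matrix.mulVec_zero] at hm
      funext x
      have h5 := congrFun hm (.inl x)
      simpa using h5)
  have hu' : ∃ et th, u = up et th := by
    refine ⟨of fun i j => u (.inr (.inl (.inr i))) j, of fun i j => u (.inr (.inr i)) j, ?_⟩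
    have hu2 : ∀ i j, ∑ x, J k E F i x * u x j = 0 := fun i j => by
      have := congrFun (congrFun hu i) j
      rwa [Matrix.mul_apply] at this
    ext ((i | (i | i)) | ((i | i) | i)) j
    · have := hu2 (.inl (.inr (.inl i))) j
      simpa [J, TT, io, Matrix.one_apply, up] using this
    · have := hu2 (.inr (.inl (.inl i))) j
      simpa [J, TT, io, Matrix.one_apply, up] using this
    · have := hu2 (.inr (.inl (.inr i))) j
      simpa [J, TT, io, Matrix.one_apply, up] using this
    · have := hu2 (.inr (.inr i)) j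
      simpa [J, TT, po, ioF, Matrix.one_apply, up] using this
    · simp [up, ioF]
    · simp [up]
  have hd' : ∃ om pi, d = dn om pi := by
    refine ⟨of fun i j => d i (.inl (.inl j)), of fun i j => d i (.inl (.inr (.inr j))), ?_⟩
    have hd2 : ∀ i j, ∑ x, d i x * J k E F x j = 0 := fun i j => by
      have := (congrFun (congrFun hd i) j).symm
      rwa [Matrix.mul_apply] at this
    ext i ((j | (j | j)) | ((j | j) | j))
    · simp [dn]
    · have := hd2 i (.inl (.inl j))
      simpa [J, TT, io, roF, Matrix.one_apply, dn] using this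
    · simp [dn, roF]
    · have := hd2 i (.inl (.inr (.inl j)))
      simpa [J, TT, po, Matrix.one_apply, dn] using this
    · have := hd2 i (.inl (.inr (.inr j)))
      simpa [J, TT, po, Matrix.one_apply, dn] using this
    · have := hd2 i (.inr (.inl (.inl j)))
      simpa [J, TT, po, Matrix.one_apply, dn] using this
  obtain ⟨et, th, rfl⟩ := hu'
  obtain ⟨om, pi, rfl⟩ := hd'
  exact ⟨a, b, c, om, pi, et, th, rfl⟩

end Pool.Agent.Lib.D13.S42
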