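import Pool.Agent.Lib.D13.N4321

/-!
# MP_5dcbc3_ag: type `(4, 3, 2, 1)`: moves of maximal bad triples
-/

set_option autoImplicit false

namespace Pool.Agent.Lib.D13.T4321

open Matrix Pool.Agent.Lib.Q5dc

variable {k : Type*} [Field k] {P P' : Par k}

theorem MR.rel (h : MR P P') : Rel P P' := MaxR.rel h

theorem MR.swap (h : MR P P') : MR P' P := D8.MaxR.swap h

theorem X_comb (a : k) (P : Par k) (b : k) (P' : Par k) :
    X (comb a P b P') = a • X P + b • X P' := by
  refine ext_mulVec fun m => ?_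
  rw [add_mulVec, smul_mulVec, smul_mulVec, X_mulVec, X_mulVec, X_mulVec]
  funext i
  fin_cases i <;> simp [act, comb] <;> ring

/-- linear changes of the pencil -/
theorem MR.gl (h : MR P P') (a b c d : k) (hd : a * d - b * c ≠ 0) :
    MR (comb a P b P') (comb c P d P') := by
  have h1 := D8.MaxR.lin h a b c d 0 0 0 0 hd
  unfold MR
  rw [X_comb, X_comb]
  simpa using h1

/-- evaluation of parameters that are polynomials -/
def ev (s : k) (q : Par (Polynomial k)) : Par k where
  al0 := q.al0.eval s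
  al1 := q.al1.eval s
  al2 := q.al2.eval s
  g0 := q.g0.eval s
  g1 := q.g1.eval s
  pi := q.pi.eval s
  be0 := q.be0.eval s
  be1 := q.be1.eval s
  be2 := q.be2.eval s
  q1 := q.q1.eval s
  q2 := q.q2.eval s
  e0 := q.e0.eval s
  e1 := q.e1.eval s
  ph := q.ph.eval s
  de0 := q.de0.eval s
  de1 := q.de1.eval s
  f0 := q.f0.eval s
  f1 := q.f1.eval s
  z := q.z.eval s
  rho := q.rho.eval s
  th := q.th.eval s
  eta := q.eta.eval s
  zeta := q.zeta.eval s

theorem X_ev (q : Par (Polynomial k)) (i j : Fin 10) : D7.IsPoly fun s => X (ev s q) i j := by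
  have h0 : D7.IsPoly fun _ : k => (0 : k) := ⟨0, by simp⟩
  have h1 : ∀ p : Polynomial k, D7.IsPoly fun s => p.eval s := fun p => ⟨p, fun _ => rfl⟩
  fin_cases i <;> fin_cases j <;> first | exact h0 | exact h1 _

/-- a polynomial move of the parameters -/
theorem MR.curve [Infinite k] (q q' : Par (Polynomial k)) (h : MR (ev 0 q) (ev 0 q'))
    (hr : ∀ s, Rel (ev s q) (ev s q')) {F : Set k} (hF : F.Finite) :
    ∃ s, s ∉ F ∧ MR (ev s q) (ev s q') := by
  obtain ⟨E', hE', h1⟩ := D7.MaxR.deform h (fun s => ![J k, X (ev s q), X (ev s q')])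
    (by
      intro i a b
      fin_cases i
      · exact ⟨Polynomial.C (J k a b), fun s => by simp⟩
      · exact X_ev q a b
      · exact X_ev q' a b) rfl Set.finite_empty (fun s _ => cn (hr s))
  obtain ⟨s, hs⟩ := (hE'.union hF).infinite_compl.nonempty
  rw [Set.mem_compl_iff, Set.mem_union, not_or] at hs
  exact ⟨s, hs.2, h1 s hs.1⟩

/-- a linear move of the parameters -/
theorem MR.move [Infinite k] (h : MR P P') (Q Q' : Par k)
    (hr : ∀ s, Rel (line P Q s) (line P' Q' s)) {F : Set k} (hF : F.Finite) :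
    ∃ s, s ∉ F ∧ MR (line P Q s) (line P' Q' s) := MaxR.move h Q Q' hr hF

/-- a pair of scalars that is not zero may be normalised to `(1, 0)` -/
theorem exists_norm {x y : k} (h : ¬ (x = 0 ∧ y = 0)) :
    ∃ a b c d : k, a * d - b * c ≠ 0 ∧ a * x + b * y = 1 ∧ c * x + d * y = 0 := by
  by_cases hx : x = 0
  · have hy : y ≠ 0 := fun hy => h ⟨hx, hy⟩
    exact ⟨0, y⁻¹, 1, 0, by simp [hy], by simp [hy], by simp [hx]⟩
  · exact ⟨x⁻¹, 0, -y * x⁻¹, 1, by simp [hx], by simp [hx], by field_simp; ring⟩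

theorem Zr.gl {s : Par k → k} (hs : ∀ (a : k) (Q : Par k) (b : k) (Q' : Par k),
    s (comb a Q b Q') = a * s Q + b * s Q') (h : Zr P P' s) (a b c d : k) :
    Zr (comb a P b P') (comb c P d P') s := by
  constructor <;> rw [hs, h.1, h.2] <;> ring

theorem Zr.of_gl {s : Par k → k} (hs : ∀ (a : k) (Q : Par k) (b : k) (Q' : Par k),
    s (comb a Q b Q') = a * s Q + b * s Q') {a b c d : k} (hd : a * d - b * c ≠ 0)
    (h : Zr (comb a P b P') (comb c P d P') s) : Zr P P' s := by
  obtain ⟨u1, u2⟩ := h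
  rw [hs] at u1 u2
  constructor
  · have : (a * d - b * c) * s P = 0 := by linear_combination d * u1 - b * u2
    exact (mul_eq_zero.1 this).resolve_left hd
  · have : (a * d - b * c) * s P' = 0 := by linear_combination a * u2 - c * u1
    exact (mul_eq_zero.1 this).resolve_left hd

/-- constant polynomials -/
noncomputable def cst (P : Par k) : Par (Polynomial k) where
  al0 := Polynomial.C P.al0
  al1 := Polynomial.C P.al1
  al2 := Polynomial.C P.al2
  g0 := Polynomial.C P.g0
  g1 := Polynomial.C P.g1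
  pi := Polynomial.C P.pi
  be0 := Polynomial.C P.be0
  be1 := Polynomial.C P.be1
  be2 := Polynomial.C P.be2
  q1 := Polynomial.C P.q1
  q2 := Polynomial.C P.q2
  e0 := Polynomial.C P.e0
  e1 := Polynomial.C P.e1
  ph := Polynomial.C P.ph
  de0 := Polynomial.C P.de0
  de1 := Polynomial.C P.de1
  f0 := Polynomial.C P.f0
  f1 := Polynomial.C P.f1
  z := Polynomial.C P.z
  rho := Polynomial.C P.rho
  th := Polynomial.C P.th
  eta := Polynomial.C P.eta
  zeta := Polynomial.C P.zeta

theorem ev_cst (P : Par k) (s : k) : ev s (cst P) = P := by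
  cases P
  simp [ev, cst]

end Pool.Agent.Lib.D13.T4321
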