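import Pool.Agent.Lib.D13.M5321

/-!
# MP_5dcbc3_ag: type `(5, 3, 2, 1)`: nilpotent matrices commuting with `J`
-/

set_option autoImplicit false

namespace Pool.Agent.Lib.D13.Q.L5

open Matrix Pool.Agent.Lib.Q5dc Pool.Agent.Lib.D7

variable {k : Type*} [Field k]

/-- the rows of `M * J` -/
def coJ (m : Fin 11 → k) : Fin 11 → k :=
  ![m 1, m 2, m 3, m 4, 0, m 6, m 7, 0, m 9, 0, 0]

theorem mul_J (M : Matrix (Fin 11) (Fin 11) k) (i j : Fin 11) :
    (M * J k) i j = coJ (fun b => M i b) j := by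
  rw [Matrix.mul_apply]
  fin_cases j <;> simp [J, coJ, Fin.sum_univ_succ]

theorem J_mul (M : Matrix (Fin 11) (Fin 11) k) (i j : Fin 11) :
    (J k * M) i j = actJ (fun a => M a j) i := by
  rw [← J_mulVec]
  rfl

theorem zeros {M : Matrix (Fin 11) (Fin 11) k} (hc : J k * M = M * J k) :
    M 0 1 = 0 ∧ M 0 2 = 0 ∧ M 0 3 = 0 ∧ M 0 4 = 0 ∧ M 0 5 = 0 ∧ M 0 6 = 0 ∧ M 0 7 = 0 ∧ M 0 8 = 0
      ∧ M 0 9 = 0 ∧ M 0 10 = 0 ∧ M 1 5 = 0 ∧ M 1 8 = 0 ∧ M 1 10 = 0 ∧ M 2 8 = 0 ∧ M 2 10 = 0 ∧ M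
      3 10 = 0 ∧ M 5 1 = 0 ∧ M 5 2 = 0 ∧ M 5 3 = 0 ∧ M 5 4 = 0 ∧ M 5 6 = 0 ∧ M 5 7 = 0 ∧ M 5 8 =
      0 ∧ M 5 9 = 0 ∧ M 5 10 = 0 ∧ M 6 10 = 0 ∧ M 8 1 = 0 ∧ M 8 2 = 0 ∧ M 8 3 = 0 ∧ M 8 4 = 0 ∧ M
      8 6 = 0 ∧ M 8 7 = 0 ∧ M 8 9 = 0 ∧ M 8 10 = 0 ∧ M 10 1 = 0 ∧ M 10 2 = 0 ∧ M 10 3 = 0 ∧ M 10
      4 = 0 ∧ M 10 6 = 0 ∧ M 10 7 = 0 ∧ M 10 9 = 0 := by
  have key : ∀ i j, actJ (fun a => M a j) i = coJ (fun b => M i b) j := by
    intro i j
    rw [← J_mul, ← mul_J, hc]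
  have z0_1 : M 0 1 = 0 := by
    have := key 0 0
    simp [actJ, coJ] at this
    exact this.symm
  have z0_2 : M 0 2 = 0 := by
    have := key 0 1
    simp [actJ, coJ] at this
    exact this.symm
  have z0_3 : M 0 3 = 0 := by
    have := key 0 2
    simp [actJ, coJ] at this
    exact this.symm
  have z0_4 : M 0 4 = 0 := by
    have := key 0 3
    simp [actJ, coJ] at this
    exact this.symm
  have z0_6 : M 0 6 = 0 := by
    have := key 0 5
    simp [actJ, coJ] at this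
    exact this.symm
  have z0_7 : M 0 7 = 0 := by
    have := key 0 6
    simp [actJ, coJ] at this
    exact this.symm
  have z0_9 : M 0 9 = 0 := by
    have := key 0 8
    simp [actJ, coJ] at this
    exact this.symm
  have z5_1 : M 5 1 = 0 := by
    have := key 5 0
    simp [actJ, coJ] at this
    exact this.symm
  have z5_2 : M 5 2 = 0 := by
    have := key 5 1
    simp [actJ, coJ] at this
    exact this.symm
  have z5_3 : M 5 3 = 0 := by
    have := key 5 2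
    simp [actJ, coJ] at this
    exact this.symm
  have z5_4 : M 5 4 = 0 := by
    have := key 5 3
    simp [actJ, coJ] at this
    exact this.symm
  have z5_6 : M 5 6 = 0 := by
    have := key 5 5
    simp [actJ, coJ] at this
    exact this.symm
  have z5_7 : M 5 7 = 0 := by
    have := key 5 6
    simp [actJ, coJ] at this
    exact this.symm
  have z5_9 : M 5 9 = 0 := by
    have := key 5 8
    simp [actJ, coJ] at this
    exact this.symm
  have z8_1 : M 8 1 = 0 := by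
    have := key 8 0
    simp [actJ, coJ] at this
    exact this.symm
  have z8_2 : M 8 2 = 0 := by
    have := key 8 1
    simp [actJ, coJ] at this
    exact this.symm
  have z8_3 : M 8 3 = 0 := by
    have := key 8 2
    simp [actJ, coJ] at this
    exact this.symm
  have z8_4 : M 8 4 = 0 := by
    have := key 8 3
    simp [actJ, coJ] at this
    exact this.symm
  have z8_6 : M 8 6 = 0 := by
    have := key 8 5
    simp [actJ, coJ] at this
    exact this.symm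
  have z8_7 : M 8 7 = 0 := by
    have := key 8 6
    simp [actJ, coJ] at this
    exact this.symm
  have z8_9 : M 8 9 = 0 := by
    have := key 8 8
    simp [actJ, coJ] at this
    exact this.symm
  have z10_1 : M 10 1 = 0 := by
    have := key 10 0
    simp [actJ, coJ] at this
    exact this.symm
  have z10_2 : M 10 2 = 0 := by
    have := key 10 1
    simp [actJ, coJ] at this
    exact this.symm
  have z10_3 : M 10 3 = 0 := by
    have := key 10 2
    simp [actJ, coJ] at this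
    exact this.symm
  have z10_4 : M 10 4 = 0 := by
    have := key 10 3
    simp [actJ, coJ] at this
    exact this.symm
  have z10_6 : M 10 6 = 0 := by
    have := key 10 5
    simp [actJ, coJ] at this
    exact this.symm
  have z10_7 : M 10 7 = 0 := by
    have := key 10 6
    simp [actJ, coJ] at this
    exact this.symm
  have z10_9 : M 10 9 = 0 := by
    have := key 10 8
    simp [actJ, coJ] at this
    exact this.symm
  have z0_5 : M 0 5 = 0 := by
    have h0 := key 1 5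
    have h1 := key 2 6
    have h2 := key 3 7
    simp [actJ, coJ] at h0 h1 h2
    linear_combination h0 + h1 + h2
  have z1_5 : M 1 5 = 0 := by
    have h0 := key 2 5
    have h1 := key 3 6
    have h2 := key 4 7
    simp [actJ, coJ] at h0 h1 h2
    linear_combination h0 + h1 + h2
  have z0_8 : M 0 8 = 0 := by
    have h0 := key 1 8
    have h1 := key 2 9
    simp [actJ, coJ] at h0 h1
    linear_combination h0 + h1
  have z1_8 : M 1 8 = 0 := by
    have h0 := key 2 8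
    have h1 := key 3 9
    simp [actJ, coJ] at h0 h1
    linear_combination h0 + h1
  have z2_8 : M 2 8 = 0 := by
    have h0 := key 3 8
    have h1 := key 4 9
    simp [actJ, coJ] at h0 h1
    linear_combination h0 + h1
  have z5_8 : M 5 8 = 0 := by
    have h0 := key 6 8
    have h1 := key 7 9
    simp [actJ, coJ] at h0 h1
    linear_combination h0 + h1
  have z0_10 : M 0 10 = 0 := by
    have h0 := key 1 10
    simp [actJ, coJ] at h0
    linear_combination h0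
  have z1_10 : M 1 10 = 0 := by
    have h0 := key 2 10
    simp [actJ, coJ] at h0
    linear_combination h0
  have z2_10 : M 2 10 = 0 := by
    have h0 := key 3 10
    simp [actJ, coJ] at h0
    linear_combination h0
  have z3_10 : M 3 10 = 0 := by
    have h0 := key 4 10
    simp [actJ, coJ] at h0
    linear_combination h0
  have z5_10 : M 5 10 = 0 := by
    have h0 := key 6 10
    simp [actJ, coJ] at h0
    linear_combination h0
  have z6_10 : M 6 10 = 0 := by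
    have h0 := key 7 10
    simp [actJ, coJ] at h0
    linear_combination h0
  have z8_10 : M 8 10 = 0 := by
    have h0 := key 9 10
    simp [actJ, coJ] at h0
    linear_combination h0
  exact ⟨z0_1, z0_2, z0_3, z0_4, z0_5, z0_6, z0_7, z0_8, z0_9, z0_10, z1_5, z1_8, z1_10, z2_8,
    z2_10, z3_10, z5_1, z5_2, z5_3, z5_4, z5_6, z5_7, z5_8, z5_9, z5_10, z6_10, z8_1, z8_2, z8_3,
    z8_4, z8_6, z8_7, z8_9, z8_10, z10_1, z10_2, z10_3, z10_4, z10_6, z10_7, z10_9⟩

theorem eq_zero_of_pow_eq_zero' {a : k} {m : ℕ} (h : a ^ m = 0) : a = 0 := by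
  by_contra ha
  exact pow_ne_zero m ha h

theorem diag_zero {M : Matrix (Fin 11) (Fin 11) k} (hc : J k * M = M * J k)
    (hn : IsNilpotent M) : M 0 0 = 0 ∧ M 5 5 = 0 ∧ M 8 8 = 0 ∧ M 10 10 = 0 := by
  obtain ⟨z0_1, z0_2, z0_3, z0_4, z0_5, z0_6, z0_7, z0_8, z0_9, z0_10, z1_5, z1_8, z1_10, z2_8,
    z2_10, z3_10, z5_1, z5_2, z5_3, z5_4, z5_6, z5_7, z5_8, z5_9, z5_10, z6_10, z8_1, z8_2, z8_3,
    z8_4, z8_6, z8_7, z8_9, z8_10, z10_1, z10_2, z10_3, z10_4, z10_6, z10_7, z10_9⟩ := zeros hc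
  have key : ∀ m : ℕ, (M ^ m) 0 5 = 0 ∧ (M ^ m) 0 8 = 0 ∧ (M ^ m) 0 10 = 0 ∧ (M ^ m) 5 8 = 0 ∧ (M
    ^ m) 5 10 = 0 ∧ (M ^ m) 8 10 = 0 ∧ (M ^ m) 0 0 = M 0 0 ^ m ∧ (M ^ m) 5 5 = M 5 5 ^ m ∧ (M ^
    m) 8 8 = M 8 8 ^ m ∧ (M ^ m) 10 10 = M 10 10 ^ m := by
    intro m
    induction m with
    | zero => simp
    | succ m ih =>
      obtain ⟨u0_5, u0_8, u0_10, u5_8, u5_10, u8_10, d0, d5, d8, d10⟩ := ih
      simp only [pow_succ' M, Matrix.mul_apply, Fin.sum_univ_succ]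
      simp [z0_1, z0_10, z0_2, z0_3, z0_4, z0_5, z0_6, z0_7, z0_8, z0_9, z10_1, z10_2, z10_3,
        z10_4, z10_6, z10_7, z10_9, z5_1, z5_10, z5_2, z5_3, z5_4, z5_6, z5_7, z5_8, z5_9, z8_1,
        z8_10, z8_2, z8_3, z8_4, z8_6, z8_7, z8_9, u0_5, u0_8, u0_10, u5_8, u5_10, u8_10, d0, d5,
        d8, d10, pow_succ']
  obtain ⟨m, hm⟩ := hn
  obtain ⟨-, -, -, -, -, -, d0, d5, d8, d10⟩ := key m
  rw [hm, Matrix.zero_apply] at d0 d5 d8 d10
  exact ⟨eq_zero_of_pow_eq_zero' d0.symm, eq_zero_of_pow_eq_zero' d5.symm,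
    eq_zero_of_pow_eq_zero' d8.symm, eq_zero_of_pow_eq_zero' d10.symm⟩

/-- two matrices commuting with `J` are equal if they agree on the four generators -/
theorem ext_gen {M M' : Matrix (Fin 11) (Fin 11) k} (hM : J k * M = M * J k)
    (hM' : J k * M' = M' * J k)
    (h0 : ∀ i, M i 0 = M' i 0) (h5 : ∀ i, M i 5 = M' i 5)
    (h8 : ∀ i, M i 8 = M' i 8) (h10 : ∀ i, M i 10 = M' i 10) :
    M = M' := by
  have key : ∀ i j, actJ (fun a => M a j) i = coJ (fun b => M i b) j := by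
    intro i j
    rw [← J_mul, ← mul_J, hM]
  have key' : ∀ i j, actJ (fun a => M' a j) i = coJ (fun b => M' i b) j := by
    intro i j
    rw [← J_mul, ← mul_J, hM']
  have step : ∀ j, (∀ i, M i j = M' i j) → ∀ i, coJ (fun b => M i b) j = coJ (fun b => M' i b) j
    := by
    intro j hj i
    rw [← key, ← key']
    congr 1
    funext a
    exact hj a
  have h1 : ∀ i, M i 1 = M' i 1 := fun i => step 0 h0 i
  have h2 : ∀ i, M i 2 = M' i 2 := fun i => step 1 h1 i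
  have h3 : ∀ i, M i 3 = M' i 3 := fun i => step 2 h2 i
  have h4 : ∀ i, M i 4 = M' i 4 := fun i => step 3 h3 i
  have h6 : ∀ i, M i 6 = M' i 6 := fun i => step 5 h5 i
  have h7 : ∀ i, M i 7 = M' i 7 := fun i => step 6 h6 i
  have h9 : ∀ i, M i 9 = M' i 9 := fun i => step 8 h8 i
  ext i j
  fin_cases j
  exacts [h0 i, h1 i, h2 i, h3 i, h4 i, h5 i, h6 i, h7 i, h8 i, h9 i, h10 i]

/-- `X d` plus a polynomial in `J` without constant term -/
def XP (d : Par k) (t : Fin 4 → k) : Matrix (Fin 11) (Fin 11) k :=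
  X d + ∑ i : Fin 4, t i • J k ^ ((i : ℕ) + 1)

theorem J_comm_XP (d : Par k) (t : Fin 4 → k) : J k * XP d t = XP d t * J k := by
  rw [XP, mul_add, add_mul, J_comm, Finset.mul_sum, Finset.sum_mul]
  congr 1
  refine Finset.sum_congr rfl fun i _ => ?_
  rw [mul_smul_comm, smul_mul_assoc, ← pow_succ, ← pow_succ']

/-- `XP d t` on vectors -/
theorem XP_mulVec (d : Par k) (t : Fin 4 → k) (m : Fin 11 → k) :
    XP d t *ᵥ m = act d m + (t 0 • actJ (m) + t 1 • actJ (actJ (m)) + t 2 • actJ (actJ (actJ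
      (m))) + t 3 • actJ (actJ (actJ (actJ (m))))) := by
  rw [XP, Fin.sum_univ_four, add_mulVec, X_mulVec]
  congr 1
  simp only [add_mulVec, smul_mulVec]
  have h : ∀ i : ℕ, J k ^ (i + 1) *ᵥ m = actJ (J k ^ i *ᵥ m) := by
    intro i
    rw [pow_succ', ← mulVec_mulVec, J_mulVec]
  simp [h, J_mulVec]

theorem XP_col (d : Par k) (t : Fin 4 → k) (i j : Fin 11) :
    XP d t i j = (XP d t *ᵥ Pi.single j 1) i := by
  rw [mulVec_single_one]
  rfl

/-- **the shape**: nilpotent matrices commuting with `J` -/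
theorem shape {M : Matrix (Fin 11) (Fin 11) k} (hc : J k * M = M * J k)
    (hn : IsNilpotent M) : ∃ (d : Par k) (t : Fin 4 → k), M = XP d t := by
  obtain ⟨z0_1, z0_2, z0_3, z0_4, z0_5, z0_6, z0_7, z0_8, z0_9, z0_10, z1_5, z1_8, z1_10, z2_8,
    z2_10, z3_10, z5_1, z5_2, z5_3, z5_4, z5_6, z5_7, z5_8, z5_9, z5_10, z6_10, z8_1, z8_2, z8_3,
    z8_4, z8_6, z8_7, z8_9, z8_10, z10_1, z10_2, z10_3, z10_4, z10_6, z10_7, z10_9⟩ := zeros hc
  obtain ⟨d0, d5, d8, d10⟩ := diag_zero hc hn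
  refine ⟨⟨M 5 0, M 6 0, M 7 0, M 8 0, M 9 0, M 10 0, M 2 5, M 3 5, M 4 5, M 6 5 - M 1 0, M 7 5 -
    M 2 0, M 8 5, M 9 5, M 10 5, M 3 8, M 4 8, M 6 8, M 7 8, M 9 8 - M 1 0, M 10 8, M 4 10, M 7
    10, M 9 10⟩,
    ![M 1 0, M 2 0, M 3 0, M 4 0], ext_gen hc (J_comm_XP _ _) ?_ ?_ ?_ ?_⟩
  · intro i
    rw [XP_col, XP_mulVec]
    fin_cases i <;> simp [act, actJ, d0]
  · intro i
    rw [XP_col, XP_mulVec]
    fin_cases i <;> simp [act, actJ, z0_5, z1_5, d5]
  · intro i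
    rw [XP_col, XP_mulVec]
    fin_cases i <;> simp [act, actJ, z0_8, z1_8, z2_8, z5_8, d8]
  · intro i
    rw [XP_col, XP_mulVec]
    fin_cases i <;> simp [act, actJ, z0_10, z1_10, z2_10, z3_10, z5_10, z6_10, z8_10, d10]

theorem poly_mem {T : Fin 3 → Matrix (Fin 11) (Fin 11) k} (h : J k ∈ adj T) (t : Fin 4 → k) :
    (∑ i : Fin 4, t i • J k ^ ((i : ℕ) + 1)) ∈ adj T := by
  refine sum_mem fun i _ => SMulMemClass.smul_mem _ ?_
  have h1 : ∀ j : ℕ, J k ^ (j + 1) ∈ adj T := by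
    intro j
    induction j with
    | zero => simpa using h
    | succ j ih =>
      rw [pow_succ]
      exact mul_mem ih h
  exact h1 i

/-- the polynomials in `J` may be removed -/
theorem MaxR.toX {ρ : ℕ → ℕ} {d e : Par k} {t t' : Fin 4 → k}
    (hT : MaxR ρ ![J k, XP d t, XP e t']) : MaxR ρ ![J k, X d, X e] := by
  refine D8.MaxR.change3 hT ?_ ?_ ?_ ?_
  · have h1 : X d = XP d t - ∑ i : Fin 4, t i • J k ^ ((i : ℕ) + 1) := by rw [XP,
    add_sub_cancel_right]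
    rw [h1]
    exact sub_mem (D8.mem1 _ _ _) (poly_mem (D8.mem0 _ _ _) t)
  · have h1 : X e = XP e t' - ∑ i : Fin 4, t' i • J k ^ ((i : ℕ) + 1) := by rw [XP,
    add_sub_cancel_right]
    rw [h1]
    exact sub_mem (D8.mem2 _ _ _) (poly_mem (D8.mem0 _ _ _) t')
  · exact add_mem (D8.mem1 _ _ _) (poly_mem (D8.mem0 _ _ _) t)
  · exact add_mem (D8.mem2 _ _ _) (poly_mem (D8.mem0 _ _ _) t')

/-- **the shape of maximal bad triples** -/
theorem MaxR.shape {ρ : ℕ → ℕ} {T : Fin 3 → Matrix (Fin 11) (Fin 11) k} (hT : MaxR ρ T)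
    (h0 : T 0 = J k) : ∃ (d e : Par k) (t t' : Fin 4 → k), T = ![J k, XP d t, XP e t'] ∧
      MaxR ρ ![J k, X d, X e] ∧ Rel (1 : k) d e := by
  obtain ⟨d, t, h1⟩ := L5.shape (M := T 1) (by rw [← h0]; exact hT.cn.1 0 1) (hT.cn.2 1)
  obtain ⟨e, t', h2⟩ := L5.shape (M := T 2) (by rw [← h0]; exact hT.cn.1 0 2) (hT.cn.2 2)
  have h3 : T = ![J k, XP d t, XP e t'] := by
    funext i
    fin_cases i
    exacts [h0, h1, h2]
  rw [h3] at hT
  exact ⟨d, e, t, t', h3, MaxR.toX hT, MaxR.rel (MaxR.toX hT)⟩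

end Pool.Agent.Lib.D13.Q.L5
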