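import Pool.Agent.Lib.D13.M5421
import Pool.Agent.Lib.D13.GrRank
import Pool.Agent.Lib.D13.LimR

/-!
# MP_5dcbc3_ag: type `(5, 4, 2, 1)`: shape, rank conditions
-/

set_option autoImplicit false

namespace Pool.Agent.Lib.D13.T5421

open Matrix Pool.Agent.Lib.Q5dc Pool.Agent.Lib.D7

variable {k : Type*} [Field k]

/-- the diagonal of a nilpotent lower triangular matrix is zero -/
theorem diag_zero {n : ℕ} {M : Matrix (Fin n) (Fin n) k} (h : ∀ i j, i < j → M i j = 0)
    (hN : IsNilpotent M) (i : Fin n) : M i i = 0 := by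
  have key : ∀ m : ℕ, (∀ i j, i < j → (M ^ m) i j = 0) ∧ ∀ i, (M ^ m) i i = M i i ^ m := by
    intro m
    induction m with
    | zero =>
      refine ⟨fun i j hij => ?_, fun i => ?_⟩
      · rw [pow_zero, Matrix.one_apply_ne (ne_of_lt hij)]
      · rw [pow_zero, pow_zero, Matrix.one_apply_eq]
    | succ m ih =>
      obtain ⟨h1, h2⟩ := ih
      refine ⟨fun i j hij => ?_, fun i => ?_⟩
      · rw [pow_succ, Matrix.mul_apply]
        refine Finset.sum_eq_zero fun x _ => ?_
        rcases lt_or_ge i x with hx | hx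
        · rw [h1 i x hx, zero_mul]
        · rw [h x j (lt_of_le_of_lt hx hij), mul_zero]
      · rw [pow_succ, Matrix.mul_apply, Finset.sum_eq_single i]
        · rw [h2, pow_succ]
        · intro x _ hx
          rcases lt_or_ge i x with hx' | hx'
          · rw [h1 i x hx', zero_mul]
          · rw [h x i (lt_of_le_of_ne hx' hx), mul_zero]
        · intro hi
          exact absurd (Finset.mem_univ i) hi
  obtain ⟨m, hm⟩ := hN
  have h1 := (key m).2 i
  rw [hm, Matrix.zero_apply] at h1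
  by_contra hne
  exact pow_ne_zero m hne h1.symm

theorem mul_e {n : Type*} [Fintype n] [DecidableEq n] (B : Matrix n n k) (j : n) :
    B *ᵥ (Pi.single j 1) = fun i => B i j := Matrix.mulVec_single_one B j

section cols

variable {B : Matrix (Fin 12) (Fin 12) k}

theorem comm_act (h : J k * B = B * J k) (m : Fin 12 → k) : B *ᵥ actJ m = actJ (B *ᵥ m) := by
  rw [← J_mulVec, ← J_mulVec, mulVec_mulVec, mulVec_mulVec, h]

theorem col_step (h : J k * B = B * J k) (i j : Fin 12)
    (hij : actJ (Pi.single i 1 : Fin 12 → k) = Pi.single j 1) :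
    (fun x => B x j) = actJ fun x => B x i := by
  rw [← mul_e, ← mul_e, ← hij, comm_act h]

theorem col_end (h : J k * B = B * J k) (i : Fin 12)
    (hi : actJ (Pi.single i 1 : Fin 12 → k) = 0) : (actJ fun x => B x i) = 0 := by
  rw [← mul_e, ← comm_act h, hi, mulVec_zero]

theorem s0 : actJ (Pi.single 0 1 : Fin 12 → k) = Pi.single 3 1 := by
  funext i
  fin_cases i <;> simp [actJ]
theorem s3 : actJ (Pi.single 3 1 : Fin 12 → k) = Pi.single 7 1 := by
  funext i
  fin_cases i <;> simp [actJ]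
theorem s7 : actJ (Pi.single 7 1 : Fin 12 → k) = Pi.single 9 1 := by
  funext i
  fin_cases i <;> simp [actJ]
theorem s9 : actJ (Pi.single 9 1 : Fin 12 → k) = Pi.single 11 1 := by
  funext i
  fin_cases i <;> simp [actJ]
theorem s1 : actJ (Pi.single 1 1 : Fin 12 → k) = Pi.single 4 1 := by
  funext i
  fin_cases i <;> simp [actJ]
theorem s4 : actJ (Pi.single 4 1 : Fin 12 → k) = Pi.single 8 1 := by
  funext i
  fin_cases i <;> simp [actJ]
theorem s8 : actJ (Pi.single 8 1 : Fin 12 → k) = Pi.single 10 1 := by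
  funext i
  fin_cases i <;> simp [actJ]
theorem s10 : actJ (Pi.single 10 1 : Fin 12 → k) = 0 := by
  funext i
  fin_cases i <;> simp [actJ]
theorem s2 : actJ (Pi.single 2 1 : Fin 12 → k) = Pi.single 6 1 := by
  funext i
  fin_cases i <;> simp [actJ]
theorem s6 : actJ (Pi.single 6 1 : Fin 12 → k) = 0 := by
  funext i
  fin_cases i <;> simp [actJ]
theorem s5 : actJ (Pi.single 5 1 : Fin 12 → k) = 0 := by
  funext i
  fin_cases i <;> simp [actJ]

/-- a nilpotent matrix commuting with `J` -/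
theorem exists_par (h : J k * B = B * J k) (hB : IsNilpotent B) :
    ∃ (P : Par k) (a b c d : k),
      B = X P + (a • J k + b • J k ^ 2 + c • J k ^ 3 + d • J k ^ 4) := by
  have c3 := col_step h 0 3 s0
  have c7 := col_step h 3 7 s3
  have c9 := col_step h 7 9 s7
  have c11 := col_step h 9 11 s9
  have c4 := col_step h 1 4 s1
  have c8 := col_step h 4 8 s4
  have c10 := col_step h 8 10 s8
  have z10 := col_end h 10 s10
  have c6 := col_step h 2 6 s2
  have z6 := col_end h 6 s6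
  have z5 := col_end h 5 s5
  rw [c3] at c7
  rw [c7] at c9
  rw [c9] at c11
  rw [c4] at c8
  rw [c8] at c10
  rw [c10] at z10
  rw [c6] at z6
  -- zeros
  have d0 : B 0 1 = 0 := congrFun z10 11
  have e0 : B 0 2 = 0 := congrFun z6 7
  have e1 : B 1 2 = 0 := congrFun z6 8
  have e3 : B 3 2 = 0 := congrFun z6 9
  have e4 : B 4 2 = 0 := congrFun z6 10
  have e7 : B 7 2 = 0 := congrFun z6 11
  have f0 : B 0 5 = 0 := congrFun z5 3
  have f1 : B 1 5 = 0 := congrFun z5 4
  have f2 : B 2 5 = 0 := congrFun z5 6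
  have f3 : B 3 5 = 0 := congrFun z5 7
  have f4 : B 4 5 = 0 := congrFun z5 8
  have f7 : B 7 5 = 0 := congrFun z5 9
  have f8 : B 8 5 = 0 := congrFun z5 10
  have f9 : B 9 5 = 0 := congrFun z5 11
  -- lower triangular
  have hlow : ∀ i j, i < j → B i j = 0 := by
    intro i j hij
    have k3 : ∀ i, B i 3 = actJ (fun x => B x 0) i := fun i => congrFun c3 i
    have k7 : ∀ i, B i 7 = actJ (actJ (fun x => B x 0)) i := fun i => congrFun c7 i
    have k9 : ∀ i, B i 9 = actJ (actJ (actJ (fun x => B x 0))) i := fun i => congrFun c9 i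
    have k11 : ∀ i, B i 11 = actJ (actJ (actJ (actJ (fun x => B x 0)))) i :=
      fun i => congrFun c11 i
    have k4 : ∀ i, B i 4 = actJ (fun x => B x 1) i := fun i => congrFun c4 i
    have k8 : ∀ i, B i 8 = actJ (actJ (fun x => B x 1)) i := fun i => congrFun c8 i
    have k10 : ∀ i, B i 10 = actJ (actJ (actJ (fun x => B x 1))) i := fun i => congrFun c10 i
    have k6 : ∀ i, B i 6 = actJ (fun x => B x 2) i := fun i => congrFun c6 i
    revert hij
    fin_cases j
    · intro hij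
      exact absurd hij (Fin.not_lt_zero i)
    · fin_cases i <;> intro hij <;> first | exact d0 | (exfalso; revert hij; decide)
    · fin_cases i <;> intro hij <;> first | exact e0 | exact e1 | (exfalso; revert hij; decide)
    · show i < 3 → B i 3 = 0
      rw [k3]
      fin_cases i <;> intro hij <;> first | rfl | (exfalso; revert hij; decide)
    · show i < 4 → B i 4 = 0
      rw [k4]
      fin_cases i <;> intro hij <;> first | rfl | exact d0 | (exfalso; revert hij; decide)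
    · fin_cases i <;> intro hij <;>
        first | exact f0 | exact f1 | exact f2 | exact f3 | exact f4 | (exfalso; revert hij; decide)
    · show i < 6 → B i 6 = 0
      rw [k6]
      fin_cases i <;> intro hij <;>
        first | rfl | exact e0 | exact e1 | (exfalso; revert hij; decide)
    · show i < 7 → B i 7 = 0
      rw [k7]
      fin_cases i <;> intro hij <;> first | rfl | (exfalso; revert hij; decide)
    · show i < 8 → B i 8 = 0
      rw [k8]
      fin_cases i <;> intro hij <;> first | rfl | exact d0 | (exfalso; revert hij; decide)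
    · show i < 9 → B i 9 = 0
      rw [k9]
      fin_cases i <;> intro hij <;> first | rfl | (exfalso; revert hij; decide)
    · show i < 10 → B i 10 = 0
      rw [k10]
      fin_cases i <;> intro hij <;> first | rfl | exact d0 | (exfalso; revert hij; decide)
    · show i < 11 → B i 11 = 0
      rw [k11]
      fin_cases i <;> intro hij <;> first | rfl | (exfalso; revert hij; decide)
  have g0 : B 0 0 = 0 := diag_zero hlow hB 0
  have g1 : B 1 1 = 0 := diag_zero hlow hB 1
  have g2 : B 2 2 = 0 := diag_zero hlow hB 2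
  have g5 : B 5 5 = 0 := diag_zero hlow hB 5
  let P : Par k :=
    { al0 := B 1 0, al1 := B 4 0, al2 := B 8 0, al3 := B 10 0, g0 := B 2 0, g1 := B 6 0,
      pi := B 5 0, be0 := B 3 1, be1 := B 7 1, be2 := B 9 1, be3 := B 11 1, q1 := B 4 1 - B 3 0,
      q2 := B 8 1 - B 7 0, q3 := B 10 1 - B 9 0, e0 := B 2 1, e1 := B 6 1, ph := B 5 1,
      c0 := B 9 2, c1 := B 11 2, f0 := B 8 2, f1 := B 10 2, z := B 6 2 - B 3 0, rho := B 5 2,
      th := B 11 5, eta := B 10 5, zeta := B 6 5 }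
  refine ⟨P, B 3 0, B 7 0, B 9 0, B 11 0, ?_⟩
  obtain ⟨D, hD⟩ : ∃ D, D = X P + (B 3 0 • J k + B 7 0 • J k ^ 2 + B 9 0 • J k ^ 3 +
      B 11 0 • J k ^ 4) := ⟨_, rfl⟩
  rw [← hD]
  have hDc : J k * D = D * J k := by
    rw [hD]
    simp only [mul_add, add_mul, mul_smul_comm, smul_mul_assoc, J_comm P, ← pow_succ, ← pow_succ']
  have hDv : ∀ m, D *ᵥ m = act P m + (B 3 0 • actJ m + B 7 0 • actJ (actJ m) +
      B 9 0 • actJ (actJ (actJ m)) + B 11 0 • actJ (actJ (actJ (actJ m)))) := by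
    intro m
    rw [hD]
    simp only [add_mulVec, smul_mulVec, pow_succ, pow_zero, one_mul, ← mulVec_mulVec, X_mulVec,
      J_mulVec]
  have q0 : (fun x => D x 0) = fun x => B x 0 := by
    rw [← mul_e, hDv, s0, s3, s7, s9]
    funext i
    fin_cases i
    all_goals simp [act, P, g0]
  have q1 : (fun x => D x 1) = fun x => B x 1 := by
    rw [← mul_e, hDv, s1, s4, s8, s10]
    funext i
    fin_cases i
    all_goals simp [act, P, g1, d0]
  have q2 : (fun x => D x 2) = fun x => B x 2 := by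
    have z0 : actJ (0 : Fin 12 → k) = 0 := by
      funext i
      fin_cases i <;> rfl
    rw [← mul_e, hDv, s2, s6, z0, z0]
    funext i
    fin_cases i
    all_goals simp [act, P, g2, e0, e1, e3, e4, e7]
  have q5 : (fun x => D x 5) = fun x => B x 5 := by
    have z0 : actJ (0 : Fin 12 → k) = 0 := by
      funext i
      fin_cases i <;> rfl
    rw [← mul_e, hDv, s5, z0, z0, z0]
    funext i
    fin_cases i
    all_goals simp [act, P, g5, f0, f1, f2, f3, f4, f7, f8, f9]
  have q3 : (fun x => D x 3) = fun x => B x 3 := by rw [col_step hDc 0 3 s0, q0, c3]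
  have q7 : (fun x => D x 7) = fun x => B x 7 := by rw [col_step hDc 3 7 s3, q3, c7, c3]
  have q9 : (fun x => D x 9) = fun x => B x 9 := by rw [col_step hDc 7 9 s7, q7, c9, c7]
  have q11 : (fun x => D x 11) = fun x => B x 11 := by rw [col_step hDc 9 11 s9, q9, c11, c9]
  have q4 : (fun x => D x 4) = fun x => B x 4 := by rw [col_step hDc 1 4 s1, q1, c4]
  have q8 : (fun x => D x 8) = fun x => B x 8 := by rw [col_step hDc 4 8 s4, q4, c8, c4]
  have q10 : (fun x => D x 10) = fun x => B x 10 := by rw [col_step hDc 8 10 s8, q8, c10, c8]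
  have q6 : (fun x => D x 6) = fun x => B x 6 := by rw [col_step hDc 2 6 s2, q2, c6]
  ext i j
  fin_cases j
  exacts [(congrFun q0 i).symm, (congrFun q1 i).symm, (congrFun q2 i).symm, (congrFun q3 i).symm,
    (congrFun q4 i).symm, (congrFun q5 i).symm, (congrFun q6 i).symm, (congrFun q7 i).symm,
    (congrFun q8 i).symm, (congrFun q9 i).symm, (congrFun q10 i).symm, (congrFun q11 i).symm]

end cols

variable {ρ : ℕ → ℕ} {P P' : Par k}

theorem cn3' {T : Fin 3 → Matrix (Fin 12) (Fin 12) k} (hT : CN T) : T = ![T 0, T 1, T 2] := by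
  funext i
  fin_cases i <;> rfl

/-- polynomials in `J` -/
theorem pol_mem {T : Fin 3 → Matrix (Fin 12) (Fin 12) k} (h : J k ∈ adj T) (a b c d : k) :
    a • J k + b • J k ^ 2 + c • J k ^ 3 + d • J k ^ 4 ∈ adj T := by
  have h2 : J k ^ 2 ∈ adj T := by rw [pow_two]; exact mul_mem h h
  have h3 : J k ^ 3 ∈ adj T := by rw [pow_succ]; exact mul_mem h2 h
  have h4 : J k ^ 4 ∈ adj T := by rw [pow_succ]; exact mul_mem h3 h
  exact add_mem (add_mem (add_mem (SMulMemClass.smul_mem _ h) (SMulMemClass.smul_mem _ h2))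
    (SMulMemClass.smul_mem _ h3)) (SMulMemClass.smul_mem _ h4)

theorem pol_comm {M : Matrix (Fin 12) (Fin 12) k} (h : J k * M = M * J k) (a b c d : k) :
    (a • J k + b • J k ^ 2 + c • J k ^ 3 + d • J k ^ 4) * M =
      M * (a • J k + b • J k ^ 2 + c • J k ^ 3 + d • J k ^ 4) := by
  have hc : Commute (J k) M := h
  have h2 := (hc.pow_left 2).eq
  have h3 := (hc.pow_left 3).eq
  have h4 := (hc.pow_left 4).eq
  simp only [add_mul, mul_add, smul_mul_assoc, mul_smul_comm, h, h2, h3, h4]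

/-- the shape of a maximal bad triple -/
theorem shape {T : Fin 3 → Matrix (Fin 12) (Fin 12) k} (hT : MaxR ρ T) (h0 : T 0 = J k) :
    ∃ (P P' : Par k) (a a' : Fin 4 → k),
      T 1 = X P + (a 0 • J k + a 1 • J k ^ 2 + a 2 • J k ^ 3 + a 3 • J k ^ 4) ∧
      T 2 = X P' + (a' 0 • J k + a' 1 • J k ^ 2 + a' 2 • J k ^ 3 + a' 3 • J k ^ 4) ∧
      MaxR ρ ![J k, X P, X P'] := by
  obtain ⟨P, a, b, c, d, h1⟩ := exists_par (B := T 1) (by rw [← h0]; exact hT.cn.1 0 1) (hT.cn.2 1)
  obtain ⟨P', a', b', c', d', h2⟩ := exists_par (B := T 2) (by rw [← h0]; exact hT.cn.1 0 2)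
    (hT.cn.2 2)
  have hm : ∀ i, T i ∈ adj ![J k, X P, X P'] := by
    have m0 : J k ∈ adj ![J k, X P, X P'] := mem_adj ![J k, X P, X P'] 0
    have m1 : X P ∈ adj ![J k, X P, X P'] := mem_adj ![J k, X P, X P'] 1
    have m2 : X P' ∈ adj ![J k, X P, X P'] := mem_adj ![J k, X P, X P'] 2
    intro i
    fin_cases i
    · show T 0 ∈ _
      rw [h0]
      exact m0
    · show T 1 ∈ _
      rw [h1]
      exact add_mem m1 (pol_mem m0 _ _ _ _)
    · show T 2 ∈ _
      rw [h2]
      exact add_mem m2 (pol_mem m0 _ _ _ _)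
  have hc : X P * X P' = X P' * X P := by
    have h3 := hT.cn.1 1 2
    have e1 : X P = T 1 - (a • J k + b • J k ^ 2 + c • J k ^ 3 + d • J k ^ 4) := by
      rw [h1]; abel
    have e2 : X P' = T 2 - (a' • J k + b' • J k ^ 2 + c' • J k ^ 3 + d' • J k ^ 4) := by
      rw [h2]; abel
    have c1 := pol_comm (M := T 2) (by rw [← h0]; exact hT.cn.1 0 2) a b c d
    have c2 := pol_comm (M := T 1) (by rw [← h0]; exact hT.cn.1 0 1) a' b' c' d'
    have c3 := pol_comm (M := a' • J k + b' • J k ^ 2 + c' • J k ^ 3 + d' • J k ^ 4)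
      (pol_comm (M := J k) rfl a' b' c' d').symm a b c d
    rw [e1, e2, sub_mul, mul_sub, mul_sub, sub_mul, mul_sub, mul_sub, h3, c1, c2, c3]
    abel
  exact ⟨P, P', ![a, b, c, d], ![a', b', c', d'], h1, h2, hT.change (cn (X_comm.1 hc)) hm⟩

/-! ### rank conditions -/

/-- the weights -/
def wt : Fin 12 → ℕ := ![0, 1, 3, 2, 3, 4, 5, 4, 5, 6, 7, 8]

/-- the leading part -/
def lead (P : Par k) : Par k :=
  { al0 := P.al0, al1 := 0, al2 := 0, al3 := 0, g0 := 0, g1 := 0, pi := 0, be0 := P.be0,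
    be1 := 0, be2 := 0, be3 := 0, q1 := 0, q2 := 0, q3 := 0, e0 := 0, e1 := 0, ph := 0, c0 := 0,
    c1 := 0, f0 := 0, f1 := 0, z := 0, rho := P.rho, th := 0, eta := 0, zeta := P.zeta }

theorem wt_J (i j : Fin 12) (h : J k i j ≠ 0) : wt i = wt j + 2 := by
  revert h
  fin_cases i <;> fin_cases j <;> intro h <;> first | rfl | exact absurd rfl h

theorem wt_X (P : Par k) (i j : Fin 12) (h : X P i j ≠ 0) : wt j + 1 ≤ wt i := by
  revert h
  fin_cases i <;> fin_cases j <;> intro h <;> first | exact absurd rfl h | decide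

theorem inPart_X (P : Par k) : inPart wt 1 (X P) = X (lead P) := by
  ext i j
  fin_cases i <;> fin_cases j <;> rfl

theorem graded [Infinite k] {T : Fin 3 → Matrix (Fin 12) (Fin 12) k} (hT : MaxR ρ T)
    (hJ : J k ∈ adj T) (hP : X P ∈ adj T) (e : ℕ) : ((J k + X (lead P)) ^ e).rank ≤ ρ e := by
  have h := MaxR.graded hT hJ hP wt 2 1 (by norm_num) wt_J (wt_X P) e
  rwa [inPart_X] at h

theorem eq_zero_of_rank {n : Type*} [Fintype n] [DecidableEq n] {M : Matrix n n k}
    (h : M.rank ≤ 0) : M = 0 := by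
  rw [Nat.le_zero, Matrix.rank, Submodule.finrank_eq_zero, LinearMap.range_eq_bot] at h
  have h2 : Matrix.mulVecLin M = Matrix.mulVecLin 0 := by rw [h, Matrix.mulVecLin_zero]
  exact Matrix.toLin'.injective h2

/-- `al0 be0 = 0` -/
theorem al_be [Infinite k] [CharZero k] {T : Fin 3 → Matrix (Fin 12) (Fin 12) k} (hT : MaxR ρ T)
    (hρ : ρ 5 = 0) (hJ : J k ∈ adj T) (hP : X P ∈ adj T) : P.al0 * P.be0 = 0 := by
  have h := graded hT hJ hP 5
  rw [hρ] at h
  have h1 := eq_zero_of_rank h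
  have hv : ∀ m, (J k + X (lead P)) *ᵥ m = actJ m + act (lead P) m := by
    intro m
    rw [add_mulVec, J_mulVec, X_mulVec]
  have h2 : (J k + X (lead P)) ^ 5 *ᵥ (![1, 0, 0, 0, 0, 0, 0, 0, 0, 0, 0, 0] : Fin 12 → k) = 0 := by
    rw [h1, zero_mulVec]
  have h3 : ∀ m : Fin 12 → k, (J k + X (lead P)) ^ 5 *ᵥ m =
      (J k + X (lead P)) *ᵥ ((J k + X (lead P)) *ᵥ ((J k + X (lead P)) *ᵥ
        ((J k + X (lead P)) *ᵥ ((J k + X (lead P)) *ᵥ m)))) := by
    intro m
    simp only [mulVec_mulVec, pow_succ, pow_zero, one_mul, mul_assoc]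
  rw [h3] at h2
  simp only [hv] at h2
  have h4 := congrFun h2 11
  simp [act, actJ, lead] at h4
  have h5 : (10 : k) * (P.al0 * P.be0) = 0 := by linear_combination h4
  exact (mul_eq_zero.1 h5).resolve_left (by norm_num)

/-- `rho zeta = 0` -/
theorem rho_zeta [Infinite k] {T : Fin 3 → Matrix (Fin 12) (Fin 12) k}
    (hT : MaxR ρ T) (h1 : ρ 1 ≤ (J k).rank) (hJ : J k ∈ adj T) (hP : X P ∈ adj T) :
    P.rho * P.zeta = 0 := by
  have hx : J k *ᵥ (![0, 0, 0, 0, 0, 1, 0, 0, 0, 0, 0, 0] : Fin 12 → k) = 0 := by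
    rw [J_mulVec]
    funext i
    fin_cases i <;> rfl
  have hy : J k *ᵥ (![0, 0, P.zeta, 0, 0, 0, 0, 0, P.eta, P.th, 0, 0] : Fin 12 → k) =
      X P *ᵥ (![0, 0, 0, 0, 0, 1, 0, 0, 0, 0, 0, 0] : Fin 12 → k) := by
    rw [J_mulVec, X_mulVec]
    funext i
    fin_cases i <;> simp [act, actJ]
  obtain ⟨v, hv⟩ := second_order (A := J k) (B := X P) (C := 0) (fun _ => 0)
    (fun _ _ => D7.IsPoly.const 0) (fun s => by
      have h := hT.rank_le (add_mem hJ (SMulMemClass.smul_mem s hP)) 1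
      rw [pow_one] at h
      simpa using h.trans h1) hx hy
  rw [J_mulVec, X_mulVec, zero_mulVec] at hv
  have h5 := congrFun hv 5
  simp [act, actJ] at h5
  rw [mul_comm]
  rcases h5 with h5 | h5 <;> simp [h5]

theorem J_five : J k ^ 5 = 0 := by
  refine ext_mulVec fun m => ?_
  rw [zero_mulVec]
  have h3 : J k ^ 5 *ᵥ m = actJ (actJ (actJ (actJ (actJ m)))) := by
    simp only [← J_mulVec, mulVec_mulVec, pow_succ, pow_zero, one_mul, mul_assoc]
  rw [h3]
  funext i
  fin_cases i <;> rfl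

theorem rho5 (hρ : ∀ i, ρ i = (J k ^ i).rank) : ρ 5 = 0 := by
  rw [hρ, J_five, Matrix.rank_zero]

theorem rho1 (hρ : ∀ i, ρ i = (J k ^ i).rank) : ρ 1 ≤ (J k).rank := by
  rw [hρ, pow_one]

/-- two products of linear forms -/
theorem two_forms {a b a' b' : k} (h1 : a * b = 0) (h2 : a' * b' = 0)
    (h3 : (a + a') * (b + b') = 0) : (a = 0 ∧ a' = 0) ∨ (b = 0 ∧ b' = 0) := by
  by_cases ha : a = 0
  · by_cases ha' : a' = 0
    · exact Or.inl ⟨ha, ha'⟩
    · right
      have hb' : b' = 0 := (mul_eq_zero.1 h2).resolve_left ha'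
      rw [ha, hb', zero_add, add_zero] at h3
      exact ⟨(mul_eq_zero.1 h3).resolve_left ha', hb'⟩
  · right
    have hb : b = 0 := (mul_eq_zero.1 h1).resolve_left ha
    rw [hb, zero_add] at h3
    refine ⟨hb, ?_⟩
    have h4 : a * b' = 0 := by linear_combination h3 - h2
    exact (mul_eq_zero.1 h4).resolve_left ha

/-- the rank conditions -/
theorem conds [Infinite k] [CharZero k] (hρ : ∀ i, ρ i = (J k ^ i).rank)
    (hT : MaxR ρ ![J k, X P, X P']) :
    ((P.al0 = 0 ∧ P'.al0 = 0) ∨ (P.be0 = 0 ∧ P'.be0 = 0)) ∧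
      ((P.rho = 0 ∧ P'.rho = 0) ∨ (P.zeta = 0 ∧ P'.zeta = 0)) := by
  have m0 : J k ∈ adj ![J k, X P, X P'] := mem_adj ![J k, X P, X P'] 0
  have m1 : X P ∈ adj ![J k, X P, X P'] := mem_adj ![J k, X P, X P'] 1
  have m2 : X P' ∈ adj ![J k, X P, X P'] := mem_adj ![J k, X P, X P'] 2
  have m3 : X (line P P' 1) ∈ adj ![J k, X P, X P'] := by
    rw [← X_line, one_smul]
    exact add_mem m1 m2
  have a1 := al_be hT (rho5 hρ) m0 m1
  have a2 := al_be hT (rho5 hρ) m0 m2
  have a3 := al_be hT (rho5 hρ) m0 m3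
  have r1 := rho_zeta hT (rho1 hρ) m0 m1
  have r2 := rho_zeta hT (rho1 hρ) m0 m2
  have r3 := rho_zeta hT (rho1 hρ) m0 m3
  simp only [line, one_mul] at a3 r3
  exact ⟨two_forms a1 a2 a3, two_forms r1 r2 r3⟩

/-- the shape of a maximal bad triple of type `(5, 4, 2, 1)` -/
theorem shape' [Infinite k] [CharZero k] {T : Fin 3 → Matrix (Fin 12) (Fin 12) k}
    (hρ : ∀ i, ρ i = (J k ^ i).rank) (hT : MaxR ρ T) (h0 : T 0 = J k) :
    ∃ (P P' : Par k) (a a' : Fin 4 → k),
      T 1 = X P + (a 0 • J k + a 1 • J k ^ 2 + a 2 • J k ^ 3 + a 3 • J k ^ 4) ∧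
      T 2 = X P' + (a' 0 • J k + a' 1 • J k ^ 2 + a' 2 • J k ^ 3 + a' 3 • J k ^ 4) ∧
      Rel P P' ∧ ((P.al0 = 0 ∧ P'.al0 = 0) ∨ (P.be0 = 0 ∧ P'.be0 = 0)) ∧
      ((P.rho = 0 ∧ P'.rho = 0) ∨ (P.zeta = 0 ∧ P'.zeta = 0)) := by
  obtain ⟨P, P', a, a', h1, h2, h⟩ := shape hT h0
  obtain ⟨c1, c2⟩ := conds hρ h
  exact ⟨P, P', a, a', h1, h2, MaxR.rel h, c1, c2⟩

end Pool.Agent.Lib.D13.T5421
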