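import Pool.Agent.Lib.D13.Refl
import Pool.Agent.Lib.D7.Poly
import Pool.Agent.Lib.Q5dc.Sum2

/-!
# MP_5dcbc3_ag: straight lines to a base point

`fdc_line`: if `T i - T₀ i` multiply to zero (`T₀` is the part of degree `1` of the base point), the
line through `T₀` and `T` consists of commuting triples, and `T` is in the closure.

`cl_1mn1`: levels of sizes `1, m, n, 1`: only the independence of the three vectors `T i v₀` modulo
levels `≥ 2` and of the three functionals from level `2` to level `3` is needed.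
-/

namespace Pool.Agent.Lib.D13

open Matrix Pool.Agent.Lib.Q5dc Pool.Agent.Lib.D7 Module

namespace Seg

variable {k : Type*} [Field k]

/-- two independent families are exchanged by an invertible matrix -/
theorem exists_mat_indep {μ κ : Type*} [Fintype μ] [DecidableEq μ] {u u' : κ → μ → k}
    (hu : LinearIndependent k u) (hu' : LinearIndependent k u') :
    ∃ M M' : Matrix μ μ k, M * M' = 1 ∧ M' * M = 1 ∧ ∀ i, M *ᵥ u i = u' i := by
  classical
  obtain ⟨C, hC⟩ := Submodule.exists_isCompl (Submodule.span k (Set.range u))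
  obtain ⟨C', hC'⟩ := Submodule.exists_isCompl (Submodule.span k (Set.range u'))
  let e1 : Submodule.span k (Set.range u) ≃ₗ[k] Submodule.span k (Set.range u') :=
    (Basis.span hu).equiv (Basis.span hu') (Equiv.refl κ)
  have hfr : finrank k C = finrank k C' := by
    have h1 := Submodule.finrank_add_eq_of_isCompl hC
    have h2 := Submodule.finrank_add_eq_of_isCompl hC'
    have h3 := e1.finrank_eq
    omega
  let e2 : C ≃ₗ[k] C' := LinearEquiv.ofFinrankEq _ _ hfr
  let f : (μ → k) ≃ₗ[k] (μ → k) := (Submodule.prodEquivOfIsCompl _ _ hC).symm ≪≫ₗ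
    (e1.prodCongr e2) ≪≫ₗ (Submodule.prodEquivOfIsCompl _ _ hC')
  have hfu : ∀ i, f (u i) = u' i := by
    intro i
    have h4 : u i = ((Basis.span hu i : Submodule.span k (Set.range u)) : μ → k) := by
      rw [Basis.span_apply]
    have h5 : e1 (Basis.span hu i) = Basis.span hu' i :=
      (Basis.span hu).equiv_apply i (Basis.span hu') (Equiv.refl κ)
    simp only [f, LinearEquiv.trans_apply]
    rw [h4, Submodule.prodEquivOfIsCompl_symm_apply_left, LinearEquiv.prodCongr_apply]
    simp only [map_zero]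
    rw [h5, Submodule.coe_prodEquivOfIsCompl', Basis.span_apply]
    simp
  refine ⟨LinearMap.toMatrix' f.toLinearMap, LinearMap.toMatrix' f.symm.toLinearMap, ?_, ?_, ?_⟩
  · rw [← LinearMap.toMatrix'_comp]
    simp
  · rw [← LinearMap.toMatrix'_comp]
    simp
  · intro i
    rw [LinearMap.toMatrix'_mulVec]
    exact hfu i

variable {ι : Type*} [Fintype ι] [DecidableEq ι]

/-- extension of a matrix by the identity -/
theorem ext_one (p : ι → Prop) [DecidablePred p] (M M' : Matrix {x // p x} {x // p x} k)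
    (hM : M * M' = 1) (hM' : M' * M = 1) :
    ∃ G G' : Matrix ι ι k, G * G' = 1 ∧ G' * G = 1 ∧
      (∀ x y, ¬ (p x ∧ p y) → G x y = (1 : Matrix ι ι k) x y) ∧
      (∀ x y, ¬ (p x ∧ p y) → G' x y = (1 : Matrix ι ι k) x y) ∧
      ∀ (u : ι → k) (x : ι) (hx : p x),
        (G *ᵥ u) x = (M *ᵥ fun y => u y) ⟨x, hx⟩ := by
  have key : ∀ M : Matrix {x // p x} {x // p x} k, ∀ x y, ¬ (p x ∧ p y) →
      ((Matrix.fromBlocks M 0 0 (1 : Matrix {x // ¬ p x} {x // ¬ p x} k)).submatrix
        (Equiv.sumCompl p).symm (Equiv.sumCompl p).symm) x y = (1 : Matrix ι ι k) x y := by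
    intro M x y hxy
    rw [Matrix.submatrix_apply]
    by_cases hx : p x
    · have hy : ¬ p y := fun h => hxy ⟨hx, h⟩
      rw [Equiv.sumCompl_symm_apply_of_pos hx, Equiv.sumCompl_symm_apply_of_neg hy,
        Matrix.fromBlocks_apply₁₂, Matrix.one_apply_ne (fun h : x = y => hy (h ▸ hx)),
        Matrix.zero_apply]
    · by_cases hy : p y
      · rw [Equiv.sumCompl_symm_apply_of_neg hx, Equiv.sumCompl_symm_apply_of_pos hy,
          Matrix.fromBlocks_apply₂₁, Matrix.one_apply_ne (fun h : x = y => hx (h ▸ hy)),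
          Matrix.zero_apply]
      · rw [Equiv.sumCompl_symm_apply_of_neg hx, Equiv.sumCompl_symm_apply_of_neg hy,
          Matrix.fromBlocks_apply₂₂, Matrix.one_apply, Matrix.one_apply]
        simp only [Subtype.mk.injEq]
  refine ⟨_, _, ?_, ?_, key M, key M', ?_⟩
  · rw [Matrix.submatrix_mul_equiv, Matrix.fromBlocks_multiply]
    simp only [Matrix.mul_zero, Matrix.zero_mul, Matrix.one_mul, add_zero, zero_add, hM,
      Matrix.fromBlocks_one, Matrix.submatrix_one_equiv]
  · rw [Matrix.submatrix_mul_equiv, Matrix.fromBlocks_multiply]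
    simp only [Matrix.mul_zero, Matrix.zero_mul, Matrix.one_mul, add_zero, zero_add, hM',
      Matrix.fromBlocks_one, Matrix.submatrix_one_equiv]
  · intro u x hx
    rw [Matrix.mulVec, dotProduct, ← Equiv.sum_comp (Equiv.sumCompl p), Fintype.sum_sum_type]
    simp only [Matrix.submatrix_apply, Equiv.symm_apply_apply,
      Equiv.sumCompl_symm_apply_of_pos hx, Matrix.fromBlocks_apply₁₂,
      Matrix.zero_apply, zero_mul, Finset.sum_const_zero, add_zero, Equiv.sumCompl_apply_inl]
    rw [Matrix.mulVec, dotProduct]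
    refine Finset.sum_congr rfl fun a _ => ?_
    rw [Equiv.sumCompl_symm_apply_of_pos a.2, Matrix.fromBlocks_apply₁₁]

/-- two families which are independent on a set of indices are exchanged there -/
theorem exists_level (p : ι → Prop) [DecidablePred p] (u u' : Fin 3 → ι → k)
    (hu : ∀ c : Fin 3 → k, (∀ x, p x → ∑ i, c i * u i x = 0) → c = 0)
    (hu' : ∀ c : Fin 3 → k, (∀ x, p x → ∑ i, c i * u' i x = 0) → c = 0) :
    ∃ G G' : Matrix ι ι k, G * G' = 1 ∧ G' * G = 1 ∧
      (∀ x y, ¬ (p x ∧ p y) → G x y = (1 : Matrix ι ι k) x y) ∧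
      (∀ x y, ¬ (p x ∧ p y) → G' x y = (1 : Matrix ι ι k) x y) ∧
      ∀ i x, p x → (G *ᵥ u i) x = u' i x := by
  have hl : ∀ u : Fin 3 → ι → k, (∀ c : Fin 3 → k, (∀ x, p x → ∑ i, c i * u i x = 0) → c = 0) →
      LinearIndependent k (fun (i : Fin 3) (x : {x // p x}) => u i x) := by
    intro u hu
    rw [Fintype.linearIndependent_iff]
    intro c hc i
    have h1 := hu c fun x hx => by
      have h2 := congrFun hc ⟨x, hx⟩
      rw [Finset.sum_apply] at h2
      exact h2
    rw [h1, Pi.zero_apply]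
  obtain ⟨M, M', h1, h2, h3⟩ := exists_mat_indep (hl u hu) (hl u' hu')
  obtain ⟨G, G', h4, h5, h6, h7, h8⟩ := ext_one p M M' h1 h2
  refine ⟨G, G', h4, h5, h6, h7, fun i x hx => ?_⟩
  rw [h8 (u i) x hx, h3 i]

omit [Fintype ι] in
theorem one_symm (x y : ι) : (1 : Matrix ι ι k) x y = (1 : Matrix ι ι k) y x := by
  rw [Matrix.one_apply, Matrix.one_apply]
  simp only [eq_comm]

omit [DecidableEq ι] in
/-- conjugation by level preserving matrices -/
theorem conj_low {w : ι → ℕ} {G G' T : Matrix ι ι k} (hG : ∀ x y, w x ≠ w y → G x y = 0)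
    (hG' : ∀ x y, w x ≠ w y → G' x y = 0) (hT : ∀ x y, w x ≤ w y → T x y = 0) (x y : ι)
    (h : w x ≤ w y) : (G * T * G') x y = 0 := by
  rw [Matrix.mul_apply]
  refine Finset.sum_eq_zero fun b _ => ?_
  by_cases hb : w b = w y
  · rw [Matrix.mul_apply, Finset.sum_eq_zero, zero_mul]
    intro a _
    by_cases ha : w x = w a
    · rw [hT a b (by omega), mul_zero]
    · rw [hG x a ha, zero_mul]
  · rw [hG' b y hb, mul_zero]

/-- a matrix with a row of the identity -/
theorem mul_row {G T : Matrix ι ι k} {x : ι} (h : ∀ a, G x a = (1 : Matrix ι ι k) x a) (y : ι) :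
    (G * T) x y = T x y := by
  rw [Matrix.mul_apply]
  simp only [h]
  rw [← Matrix.mul_apply, Matrix.one_mul]

/-- a matrix with a column of the identity -/
theorem mul_col {G T : Matrix ι ι k} {y : ι} (h : ∀ b, G b y = (1 : Matrix ι ι k) b y) (x : ι) :
    (T * G) x y = T x y := by
  rw [Matrix.mul_apply]
  simp only [h]
  rw [← Matrix.mul_apply, Matrix.mul_one]

/-- conjugate triples commute -/
theorem conj_comm {G G' : Matrix ι ι k} (h : G' * G = 1) {T : Fin 3 → Matrix ι ι k}
    (hT : ∀ i j, T i * T j = T j * T i) (i j : Fin 3) :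
    G * T i * G' * (G * T j * G') = G * T j * G' * (G * T i * G') := by
  have e : ∀ i j, G * T i * G' * (G * T j * G') = G * (T i * T j) * G' := by
    intro i j
    calc G * T i * G' * (G * T j * G') = G * T i * (G' * G) * T j * G' := by
          simp only [Matrix.mul_assoc]
      _ = G * (T i * T j) * G' := by
          rw [h, Matrix.mul_one]
          simp only [Matrix.mul_assoc]
  rw [e, e, hT]

/-- **Normalisation** of the maps from the lowest level and into the highest level. -/
theorem normalise (w : ι → ℕ) (v0 s3 : ι) (hv : w v0 = 0) (hs : w s3 = 3)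
    (T : Fin 3 → Matrix ι ι k)
    (hT : ∀ i j, T i * T j = T j * T i) (hlow : ∀ i x y, w x ≤ w y → T i x y = 0)
    (hu : ∀ c : Fin 3 → k, (∀ x, w x = 1 → ∑ i, c i * T i x v0 = 0) → c = 0)
    (hf : ∀ c : Fin 3 → k, (∀ y, w y = 2 → ∑ i, c i * T i s3 y = 0) → c = 0)
    (u f : Fin 3 → ι → k)
    (hu' : ∀ c : Fin 3 → k, (∀ x, w x = 1 → ∑ i, c i * u i x = 0) → c = 0)
    (hf' : ∀ c : Fin 3 → k, (∀ y, w y = 2 → ∑ i, c i * f i y = 0) → c = 0)
    (hcl : ∀ T' : Fin 3 → Matrix ι ι k, (∀ i j, T' i * T' j = T' j * T' i) →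
      (∀ i x y, w x ≤ w y → T' i x y = 0) → (∀ i x, w x = 1 → T' i x v0 = u i x) →
      (∀ i y, w y = 2 → T' i s3 y = f i y) → Cl T') : Cl T := by
  obtain ⟨G, G', h1, h2, h3, h4, h5⟩ := exists_level (fun x => w x = 1)
    (fun i x => T i x v0) u hu hu'
  obtain ⟨H, H', g1, g2, g3, g4, g5⟩ := exists_level (fun x => w x = 2)
    (fun i y => T i s3 y) f hf hf'
  have lev : ∀ (a : ℕ) (G : Matrix ι ι k), (∀ x y, ¬ (w x = a ∧ w y = a) →
      G x y = (1 : Matrix ι ι k) x y) → ∀ x y, w x ≠ w y → G x y = 0 := by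
    intro a G hG x y hxy
    rw [hG x y (by omega), Matrix.one_apply_ne (fun h => hxy (congrArg w h))]
  have c1 : Cl (fun i => H'.transpose * (G * T i * G') * H.transpose) := by
    refine hcl _ ?_ ?_ ?_ ?_
    · refine conj_comm ?_ (conj_comm h2 hT)
      rw [← Matrix.transpose_mul, g2, Matrix.transpose_one]
    · intro i
      refine conj_low ?_ ?_ (conj_low (lev 1 G h3) (lev 1 G' h4) (hlow i))
      · exact fun x y h => lev 2 H' g4 y x (Ne.symm h)
      · exact fun x y h => lev 2 H g3 y x (Ne.symm h)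
    · intro i x hx
      rw [mul_col (fun b => ?_), mul_row (fun a => ?_), mul_col (fun b => ?_)]
      · exact h5 i x hx
      · exact h4 b v0 (by omega)
      · rw [Matrix.transpose_apply, g4 a x (by omega), one_symm]
      · rw [Matrix.transpose_apply, g3 v0 b (by omega), one_symm]
    · intro i y hy
      rw [Matrix.mul_assoc, mul_row (fun a => ?_), Matrix.mul_apply]
      · rw [← g5 i y hy, Matrix.mulVec, dotProduct]
        refine Finset.sum_congr rfl fun b _ => ?_
        rw [Matrix.transpose_apply, mul_comm]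
        by_cases hb : w b = 2
        · congr 1
          rw [mul_col (fun a => h4 a b (by omega)), mul_row (fun a => h3 s3 a (by omega))]
        · rw [lev 2 H g3 y b (by omega), zero_mul, zero_mul]
      · rw [Matrix.transpose_apply, g4 a s3 (by omega), one_symm]
  have c2 := Cl.conj G' G h2 h1 (Cl.conj H.transpose H'.transpose
    (by rw [← Matrix.transpose_mul, g2, Matrix.transpose_one])
    (by rw [← Matrix.transpose_mul, g1, Matrix.transpose_one]) c1)
  have e : (fun i => G' * (H.transpose * (H'.transpose * (G * T i * G') * H.transpose) *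
      H'.transpose) * G) = T := by
    funext i
    have a1 : H.transpose * H'.transpose = 1 := by
      rw [← Matrix.transpose_mul, g2, Matrix.transpose_one]
    calc G' * (H.transpose * (H'.transpose * (G * T i * G') * H.transpose) * H'.transpose) * G
        = G' * ((H.transpose * H'.transpose) * (G * T i * G') * (H.transpose * H'.transpose)) * G
          := by simp only [Matrix.mul_assoc]
      _ = (G' * G) * T i * (G' * G) := by
          rw [a1]
          simp only [Matrix.one_mul, Matrix.mul_one, Matrix.mul_assoc]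
      _ = T i := by rw [h2, Matrix.one_mul, Matrix.mul_one]
  rwa [e] at c2

section Line

variable {B : Refl.Base} {D : ℕ}

/-- the part of degree one of the base point -/
def T0 (k : Type*) [Field k] (B : Refl.Base) (D : ℕ) (i : Fin 3) : Matrix (Fin D) (Fin D) k :=
  Matrix.of fun x y => if B.w x = B.w y + 1 then Refl.XX k B D i x y else 0

theorem T0_apply (i : Fin 3) (x y : Fin D) :
    T0 k B D i x y = if B.w x = B.w y + 1 then Refl.XX k B D i x y else 0 := rfl

theorem T0_mul (hB : B.ckDeg D = true) (i j : Fin 3) (x z : Fin D) :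
    (T0 k B D i * T0 k B D j) x z =
      if B.w x = B.w z + 2 then (Refl.XX k B D i * Refl.XX k B D j) x z else 0 := by
  rw [Matrix.mul_apply]
  split_ifs with h
  · rw [Matrix.mul_apply]
    refine Finset.sum_congr rfl fun y _ => ?_
    rw [T0_apply, T0_apply]
    by_cases h1 : B.w x = B.w y + 1
    · rw [if_pos h1, if_pos (by omega)]
    · rw [if_neg h1, zero_mul]
      rcases Nat.lt_or_gt_of_ne h1 with h2 | h2
      · rw [Refl.X_deg B hB j y z (by omega), mul_zero]
      · rw [Refl.X_deg B hB i x y (by omega), zero_mul]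
  · refine Finset.sum_eq_zero fun y _ => ?_
    rw [T0_apply, T0_apply]
    by_cases h1 : B.w x = B.w y + 1
    · rw [if_neg (by omega : ¬ B.w y = B.w z + 1), mul_zero]
    · rw [if_neg h1, zero_mul]

theorem T0_comm (hB : B.ck D = true) (i j : Fin 3) :
    T0 k B D i * T0 k B D j = T0 k B D j * T0 k B D i := by
  simp only [Refl.Base.ck, Bool.and_eq_true] at hB
  obtain ⟨⟨h1, h2⟩, h3⟩ := hB
  obtain ⟨p, -, hp⟩ := Refl.X_poly (k := k) B h1 h2 i
  obtain ⟨q, -, hq⟩ := Refl.X_poly (k := k) B h1 h2 j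
  have h4 : Refl.XX k B D i * Refl.XX k B D j = Refl.XX k B D j * Refl.XX k B D i := by
    rw [hp, hq, ← map_mul, mul_comm, map_mul]
  ext x z
  rw [T0_mul h3, T0_mul h3, h4]

/-- **The line through the base point.** -/
theorem fdc_line [CharZero k] (hD : 0 < D) (hB : B.ck D = true)
    (cert : ∀ κ, 1 ≤ κ → Cert (fun x : Fin D => B.w x) (Refl.Mt k D (Refl.nth [] B.pw 1))
      (Refl.XX k B D) κ)
    (T : Fin 3 → Matrix (Fin D) (Fin D) k) (hT : ∀ i j, T i * T j = T j * T i)
    (hlow : ∀ i (x y : Fin D), B.w x ≤ B.w y → T i x y = 0)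
    (hΔ : ∀ i j, (T i - T0 k B D i) * (T j - T0 k B D j) = 0) : Cl T := by
  have key := Refl.fdc_ck B hD hB cert (fun s => T0 k B D + s • (T - T0 k B D))
    (PolyFam.line _ _) ?_ ?_ ?_ 1
  · rw [one_smul, add_sub_cancel] at key
    exact key
  · intro s i j
    have e : ∀ i j, (T0 k B D + s • (T - T0 k B D)) i * (T0 k B D + s • (T - T0 k B D)) j =
        T0 k B D i * T0 k B D j + s • (T i * T j - T0 k B D i * T0 k B D j) := by
      intro i j
      have h1 : T i * T j - T0 k B D i * T0 k B D j =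
          T0 k B D i * (T j - T0 k B D j) + (T i - T0 k B D i) * T0 k B D j := by
        have h2 := hΔ i j
        have h3 : (T i - T0 k B D i) * (T j - T0 k B D j) =
          (T i * T j - T0 k B D i * T0 k B D j) - (T0 k B D i * (T j - T0 k B D j) +
            (T i - T0 k B D i) * T0 k B D j) := by noncomm_ring
        rw [h2] at h3
        exact (sub_eq_zero.1 h3.symm)
      rw [h1]
      simp only [Pi.add_apply, Pi.smul_apply, Pi.sub_apply, Matrix.add_mul, Matrix.mul_add,
        Matrix.smul_mul, Matrix.mul_smul, hΔ, smul_zero, smul_add, add_zero]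
      abel
    rw [e, e, hT i j, T0_comm hB i j]
  · intro s i x y hxy
    show T0 k B D i x y + s * (T i x y - T0 k B D i x y) = 0
    rw [hlow i x y hxy, T0_apply, if_neg (by omega)]
    ring
  · intro i x y hxy
    show T0 k B D i x y + 0 * (T i x y - T0 k B D i x y) = _
    rw [T0_apply, if_pos hxy]
    ring

/-- **Levels `0, 1, 2, 3`; only one vector in level `0` and one in level `3`.** -/
theorem cl_1mn1_fin [CharZero k] (hD : 0 < D) (hB : B.ck D = true)
    (cert : ∀ κ, 1 ≤ κ → Cert (fun x : Fin D => B.w x) (Refl.Mt k D (Refl.nth [] B.pw 1))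
      (Refl.XX k B D) κ) (hle : ∀ x : Fin D, B.w x ≤ 3) (v0 s3 : Fin D)
    (hv0 : ∀ x : Fin D, B.w x = 0 ↔ x = v0) (hs3 : ∀ x : Fin D, B.w x = 3 ↔ x = s3)
    (hXu : ∀ c : Fin 3 → k, (∀ x : Fin D, B.w x = 1 → ∑ i, c i * Refl.XX k B D i x v0 = 0) → c = 0)
    (hXf : ∀ c : Fin 3 → k, (∀ y : Fin D, B.w y = 2 → ∑ i, c i * Refl.XX k B D i s3 y = 0) → c = 0)
    (T : Fin 3 → Matrix (Fin D) (Fin D) k) (hT : ∀ i j, T i * T j = T j * T i)
    (hlow : ∀ i (x y : Fin D), B.w x ≤ B.w y → T i x y = 0)
    (hu : ∀ c : Fin 3 → k, (∀ x : Fin D, B.w x = 1 → ∑ i, c i * T i x v0 = 0) → c = 0)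
    (hf : ∀ c : Fin 3 → k, (∀ y : Fin D, B.w y = 2 → ∑ i, c i * T i s3 y = 0) → c = 0) :
    Cl T := by
  refine normalise (fun x : Fin D => B.w x) v0 s3 ((hv0 v0).2 rfl) ((hs3 s3).2 rfl) T hT hlow hu hf
    (fun i x => Refl.XX k B D i x v0) (fun i y => Refl.XX k B D i s3 y) hXu hXf ?_
  intro T' hT' hlow' h1 h2
  refine fdc_line hD hB cert T' hT' hlow' fun i j => ?_
  ext x z
  rw [Matrix.mul_apply, Matrix.zero_apply]
  refine Finset.sum_eq_zero fun y _ => ?_
  rw [Matrix.sub_apply, Matrix.sub_apply, T0_apply, T0_apply]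
  by_cases hxy : B.w x ≤ B.w y
  · rw [hlow' i x y hxy, if_neg (by omega : ¬ B.w x = B.w y + 1), sub_zero, zero_mul]
  by_cases hyz : B.w y ≤ B.w z
  · rw [hlow' j y z hyz, if_neg (by omega : ¬ B.w y = B.w z + 1), sub_zero, mul_zero]
  have hx := hle x
  rcases Nat.lt_or_ge (B.w y) 2 with hy | hy
  · -- `w z = 0`, `w y = 1`
    have hz := (hv0 z).1 (by omega)
    rw [if_pos (by omega : B.w y = B.w z + 1), hz, h1 j y (by omega), sub_self, mul_zero]
  · have hx3 := (hs3 x).1 (by omega)
    rw [if_pos (by omega : B.w x = B.w y + 1), hx3, h2 i y (by omega), sub_self, zero_mul]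

/-- **Levels of sizes `1, m, n, 1`**, any index type. -/
theorem cl_1mn1 [CharZero k] (hD : 0 < D) (hB : B.ck D = true)
    (cert : ∀ κ, 1 ≤ κ → Cert (fun x : Fin D => B.w x) (Refl.Mt k D (Refl.nth [] B.pw 1))
      (Refl.XX k B D) κ) (hle : ∀ x : Fin D, B.w x ≤ 3) (v0' s3' : Fin D)
    (hv0 : ∀ x : Fin D, B.w x = 0 ↔ x = v0') (hs3 : ∀ x : Fin D, B.w x = 3 ↔ x = s3')
    (hXu : ∀ c : Fin 3 → k, (∀ x : Fin D, B.w x = 1 → ∑ i, c i * Refl.XX k B D i x v0' = 0) → c = 0)
    (hXf : ∀ c : Fin 3 → k, (∀ y : Fin D, B.w y = 2 → ∑ i, c i * Refl.XX k B D i s3' y = 0) → c = 0)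
    (e : ι ≃ Fin D) (w : ι → ℕ) (he : ∀ x, B.w (e x) = w x)
    (T : Fin 3 → Matrix ι ι k) (hT : ∀ i j, T i * T j = T j * T i)
    (hlow : ∀ i x y, w x ≤ w y → T i x y = 0) (v0 s3 : ι) (hv : w v0 = 0) (hs : w s3 = 3)
    (hu : ∀ c : Fin 3 → k, (∀ x, w x = 1 → ∑ i, c i * T i x v0 = 0) → c = 0)
    (hf : ∀ c : Fin 3 → k, (∀ y, w y = 2 → ∑ i, c i * T i s3 y = 0) → c = 0) : Cl T := by
  have he' : ∀ a : Fin D, w (e.symm a) = B.w a := fun a => by
    rw [← he, Equiv.apply_symm_apply]
  have hv' : e.symm v0' = v0 := by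
    rw [Equiv.symm_apply_eq]
    exact ((hv0 _).1 (by rw [he, hv])).symm
  have hs' : e.symm s3' = s3 := by
    rw [Equiv.symm_apply_eq]
    exact ((hs3 _).1 (by rw [he, hs])).symm
  have key : Cl (fun i => (T i).submatrix e.symm e.symm) := by
    refine cl_1mn1_fin hD hB cert hle v0' s3' hv0 hs3 hXu hXf _ ?_ ?_ ?_ ?_
    · intro i j
      rw [Matrix.submatrix_mul_equiv, Matrix.submatrix_mul_equiv, hT]
    · intro i x y hxy
      exact hlow i _ _ (by rw [he', he']; exact hxy)
    · intro c hc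
      refine hu c fun x hx => ?_
      have h1 := hc (e x) (by rw [he, hx])
      simp only [Matrix.submatrix_apply, Equiv.symm_apply_apply, hv'] at h1
      exact h1
    · intro c hc
      refine hf c fun y hy => ?_
      have h1 := hc (e y) (by rw [he, hy])
      simp only [Matrix.submatrix_apply, Equiv.symm_apply_apply, hs'] at h1
      exact h1
  have h2 := Cl.mapEquiv (Matrix.reindexAlgEquiv k k e.symm) (Fintype.card_congr e.symm) key
  have e3 : (fun i => Matrix.reindexAlgEquiv k k e.symm ((T i).submatrix e.symm e.symm)) = T := by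
    funext i
    ext x y
    simp [Matrix.coe_reindexAlgEquiv, Matrix.reindex_apply]
  rwa [e3] at h2

end Line

end Seg

end Pool.Agent.Lib.D13
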