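import Pool.Agent.Lib.D13.Kill

/-!
# MP_5dcbc3_ag: transfer of the Jordan types `(3^e, 2^u, 1^p)` and `(a, 2, 1)` to the index types of
the theorems about them
-/

namespace Pool.Agent.Lib.D13

open Matrix Pool.Agent.Lib.Q5dc Pool.Agent.Lib.D7

variable {k : Type*} [Field k]

/-- the type `(3^e, 2^u, 1^p)` -/
def L321 (e u p : ℕ) : List ℕ :=
  List.replicate e 3 ++ (List.replicate u 2 ++ List.replicate p 1)

theorem L321_length (e u p : ℕ) : (L321 e u p).length = e + u + p := by
  simp [L321, add_assoc]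

theorem L321_sum (e u p : ℕ) : (L321 e u p).sum = 3 * e + 2 * u + p := by
  simp [L321, mul_comm, add_assoc]

theorem L321_get3 {e u p i : ℕ} (hi : i < e) (h : i < (L321 e u p).length) :
    (L321 e u p).get ⟨i, h⟩ = 3 := by
  simp [L321, hi]

theorem L321_get2 {e u p i : ℕ} (hi : i < u) (h : e + i < (L321 e u p).length) :
    (L321 e u p).get ⟨e + i, h⟩ = 2 := by
  simp [L321, hi]

theorem L321_get1 {e u p i : ℕ} (h : e + u + i < (L321 e u p).length) :
    (L321 e u p).get ⟨e + u + i, h⟩ = 1 := by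
  simp [L321, add_assoc]

namespace ShapesAux

/-- the box of a basis vector -/
def tau (e u p : ℕ) : D9.Ix e u p → IxL (L321 e u p)
  | .inl (.inl i) => ⟨⟨i, by rw [L321_length]; omega⟩, ⟨0, by rw [L321_get3 i.2]; omega⟩⟩
  | .inl (.inr (.inl i)) => ⟨⟨i, by rw [L321_length]; omega⟩, ⟨1, by rw [L321_get3 i.2]; omega⟩⟩
  | .inl (.inr (.inr i)) => ⟨⟨i, by rw [L321_length]; omega⟩, ⟨2, by rw [L321_get3 i.2]; omega⟩⟩
  | .inr (.inl (.inl i)) => ⟨⟨e + i, by rw [L321_length]; omega⟩, ⟨0, by rw [L321_get2 i.2]; omega⟩⟩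
  | .inr (.inl (.inr i)) => ⟨⟨e + i, by rw [L321_length]; omega⟩, ⟨1, by rw [L321_get2 i.2]; omega⟩⟩
  | .inr (.inr i) => ⟨⟨e + u + i, by rw [L321_length]; omega⟩, ⟨0, by rw [L321_get1]; omega⟩⟩

theorem tau_inj (e u p : ℕ) : Function.Injective (tau e u p) := by
  intro x y h
  have h1 := congrArg (fun x : IxL (L321 e u p) => (x.1 : ℕ)) h
  have h2 := congrArg (fun x : IxL (L321 e u p) => (x.2 : ℕ)) h
  rcases x with (i | i | i) | ((i | i) | i) <;> rcases y with (j | j | j) | ((j | j) | j) <;>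
    simp only [tau] at h1 h2 <;>
    first
      | (exfalso; omega)
      | (have h3 : i = j := Fin.ext (by omega)
         rw [h3])

theorem JX_apply (e u p : ℕ) (x y : D9.Ix e u p) :
    D9.JX k e u p x y =
      if (tau e u p x).1 = (tau e u p y).1 ∧ ((tau e u p x).2 : ℕ) = (tau e u p y).2 + 1
        then 1 else 0 := by
  rcases x with (i | i | i) | ((i | i) | i) <;> rcases y with (j | j | j) | ((j | j) | j) <;>
    simp only [D9.JX, D9.BX, tau, Matrix.of_apply, Matrix.zero_apply, Matrix.one_apply,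
      Fin.ext_iff] <;>
    first
      | rfl
      | (rw [if_neg]; rintro ⟨-, h⟩; omega)
      | (rw [if_neg]; rintro ⟨h, -⟩; omega)
      | (by_cases h : (i : ℕ) = (j : ℕ)
         · rw [if_pos h, if_pos ⟨by omega, trivial⟩]
         · rw [if_neg h, if_neg]
           rintro ⟨h', -⟩
           omega)

end ShapesAux

open ShapesAux

/-- transfer of the type `(3^e, 2^u, 1^p)` -/
theorem bridge321 [Infinite k] {e u p : ℕ} (hb : Bad k (L321 e u p)) : BadM (D9.JX k e u p) := by
  refine hb.bridge _ (tau e u p) (tau_inj e u p) ?_ (JX_apply e u p)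
  rw [L321_sum]
  simp only [Fintype.card_sum, Fintype.card_fin]
  omega

/-- the type `(a, 2, 1)` with `a` at least `5` -/
theorem not_bad_a21 [IsAlgClosed k] [CharZero k] {m : ℕ} : ¬ Bad k [m + 5, 2, 1] := by
  have : Infinite k := IsAlgClosed.instInfinite
  intro hb
  obtain ⟨ρ, T, hT, hρ, h0⟩ := hb.bridge (D8.Ta21.J : Matrix (Fin (m + 8)) (Fin (m + 8)) k)
    (fun i : Fin (m + 8) => if h : (i : ℕ) < m + 5 then ⟨0, ⟨i, h⟩⟩ else
      if h' : (i : ℕ) < m + 7 then ⟨1, ⟨(i : ℕ) - (m + 5), by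
        show (i : ℕ) - (m + 5) < 2
        omega⟩⟩ else ⟨2, ⟨0, one_pos⟩⟩)
    (by
      intro i j hij
      dsimp only at hij
      by_cases h1 : (i : ℕ) < m + 5 <;> by_cases h2 : (j : ℕ) < m + 5
      · rw [dif_pos h1, dif_pos h2] at hij
        exact Fin.ext (congrArg (fun x : IxL [m + 5, 2, 1] => (x.2 : ℕ)) hij)
      · exfalso
        rw [dif_pos h1, dif_neg h2] at hij
        have h3 := congrArg (fun x : IxL [m + 5, 2, 1] => (x.1 : ℕ)) hij
        by_cases h4 : (j : ℕ) < m + 7
        · rw [dif_pos h4] at h3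
          exact absurd h3 (show ¬ ((0 : ℕ) = 1) by decide)
        · rw [dif_neg h4] at h3
          exact absurd h3 (show ¬ ((0 : ℕ) = 2) by decide)
      · exfalso
        rw [dif_neg h1, dif_pos h2] at hij
        have h3 := congrArg (fun x : IxL [m + 5, 2, 1] => (x.1 : ℕ)) hij
        by_cases h4 : (i : ℕ) < m + 7
        · rw [dif_pos h4] at h3
          exact absurd h3 (show ¬ ((1 : ℕ) = 0) by decide)
        · rw [dif_neg h4] at h3
          exact absurd h3 (show ¬ ((2 : ℕ) = 0) by decide)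
      · rw [dif_neg h1, dif_neg h2] at hij
        have h3 := congrArg (fun x : IxL [m + 5, 2, 1] => (x.1 : ℕ)) hij
        have h3' := congrArg (fun x : IxL [m + 5, 2, 1] => (x.2 : ℕ)) hij
        by_cases h4 : (i : ℕ) < m + 7 <;> by_cases h5 : (j : ℕ) < m + 7
        · rw [dif_pos h4, dif_pos h5] at h3'
          simp only at h3'
          exact Fin.ext (by omega)
        · rw [dif_pos h4, dif_neg h5] at h3
          exact absurd h3 (show ¬ ((1 : ℕ) = 2) by decide)
        · rw [dif_neg h4, dif_pos h5] at h3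
          exact absurd h3 (show ¬ ((2 : ℕ) = 1) by decide)
        · exact Fin.ext (by omega))
    (by simp)
    (by
      intro i j
      show (if (i : ℕ) = j + 1 ∧ (i : ℕ) ≠ m + 5 ∧ (i : ℕ) ≠ m + 7 then (1 : k) else 0) = _
      by_cases h1 : (i : ℕ) < m + 5 <;> by_cases h2 : (j : ℕ) < m + 5
      · rw [dif_pos h1, dif_pos h2]
        by_cases h3 : (i : ℕ) = j + 1
        · rw [if_pos ⟨h3, by omega, by omega⟩, if_pos ⟨rfl, h3⟩]
        · rw [if_neg (fun h => h3 h.1), if_neg (fun h => h3 h.2)]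
      · rw [dif_pos h1, dif_neg h2, if_neg (by omega), if_neg]
        rintro ⟨h3, -⟩
        by_cases h4 : (j : ℕ) < m + 7
        · rw [dif_pos h4] at h3
          exact absurd (congrArg Fin.val h3) (show ¬ ((0 : ℕ) = 1) by decide)
        · rw [dif_neg h4] at h3
          exact absurd (congrArg Fin.val h3) (show ¬ ((0 : ℕ) = 2) by decide)
      · rw [dif_neg h1, dif_pos h2, if_neg (by omega), if_neg]
        rintro ⟨h3, -⟩
        by_cases h4 : (i : ℕ) < m + 7
        · rw [dif_pos h4] at h3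
          exact absurd (congrArg Fin.val h3) (show ¬ ((1 : ℕ) = 0) by decide)
        · rw [dif_neg h4] at h3
          exact absurd (congrArg Fin.val h3) (show ¬ ((2 : ℕ) = 0) by decide)
      · rw [dif_neg h1, dif_neg h2]
        by_cases h4 : (i : ℕ) < m + 7 <;> by_cases h5 : (j : ℕ) < m + 7
        · rw [dif_pos h4, dif_pos h5]
          by_cases h3 : (i : ℕ) = j + 1
          · rw [if_pos ⟨h3, by omega, by omega⟩, if_pos ⟨rfl, by simp only; omega⟩]
          · rw [if_neg (fun h => h3 h.1), if_neg]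
            rintro ⟨-, h6⟩
            simp only at h6
            omega
        · rw [dif_pos h4, dif_neg h5, if_neg (by omega), if_neg]
          rintro ⟨h3, -⟩
          exact absurd (congrArg Fin.val h3) (show ¬ ((1 : ℕ) = 2) by decide)
        · rw [dif_neg h4, dif_pos h5, if_neg (by omega), if_neg]
          rintro ⟨h3, -⟩
          exact absurd (congrArg Fin.val h3) (show ¬ ((2 : ℕ) = 1) by decide)
        · rw [dif_neg h4, dif_neg h5, if_neg (by omega), if_neg]
          rintro ⟨-, h3⟩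
          exact absurd h3 (show ¬ ((0 : ℕ) = 0 + 1) by decide))
  exact D8.no_a21 hT h0

end Pool.Agent.Lib.D13
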