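import Pool.Agent.Lib.D13.SurjD
import Pool.Agent.Lib.D13.Refl

/-!
# MP_5dcbc3_ag: graded triples with a surjective commutation map, checked base points

`cl_GRD_of_ck`: a checked base point (`D13/Refl.lean`) with levels `0, 1, 2`, certificates in degrees
`1` and `2` and an integral solution table for the commutation map give the density theorem for all
three-level triples with tails whose commutation map is onto, over arbitrary index types.
-/

namespace Pool.Agent.Lib.D13

open Matrix Pool.Agent.Lib.Q5dc Pool.Agent.Lib.D7 Refl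

variable {k : Type*} [Field k]

section

variable {I J I' J' : Type*} [Fintype I] [Fintype J] [Fintype I'] [Fintype J']

omit [Fintype I] [Fintype I'] in
theorem Sj.submatrix {al : Fin 3 → Matrix J I k} (h : Sj al) (eJ : J' ≃ J) (eI : I' ≃ I) :
    Sj fun i => (al i).submatrix eJ eI := by
  intro g
  obtain ⟨d, hd⟩ := h fun i a => g i (eI.symm a)
  refine ⟨fun i b => d i (eJ b), fun i => ?_⟩
  funext a
  have h1 := congrFun (hd i) (eI a)
  rw [Equiv.symm_apply_apply] at h1
  rw [← h1]
  simp only [Pi.sub_apply, Matrix.vecMul, dotProduct, Matrix.submatrix_apply]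
  congr 1
  · exact Equiv.sum_comp eJ fun b => d (i + 1) b * al (i + 2) b (eI a)
  · exact Equiv.sum_comp eJ fun b => d (i + 2) b * al (i + 1) b (eI a)

end

/-- solutions of the commutation equations for the unit vectors, up to the factor `den` -/
theorem sj_of_table [CharZero k] {a b : ℕ} {al : Fin 3 → Matrix (Fin b) (Fin a) k}
    {Xz : Fin 3 → Fin b → Fin a → ℤ} (hX : ∀ i x y, al i x y = ((Xz i x y : ℤ) : k))
    (S : Fin 3 → Fin a → Fin 3 → Fin b → ℤ) {den : ℤ} (hden : den ≠ 0)
    (hS : ∀ (i : Fin 3) (x : Fin a) (j : Fin 3) (y : Fin a),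
      (∑ z, S i x (j + 1) z * Xz (j + 2) z y) - (∑ z, S i x (j + 2) z * Xz (j + 1) z y) =
        if i = j ∧ x = y then den else 0) : Sj al := by
  intro g
  have hden' : (den : k) ≠ 0 := by exact_mod_cast hden
  have hS' : ∀ (i : Fin 3) (x : Fin a) (j : Fin 3) (y : Fin a),
      (∑ z, (S i x (j + 1) z : k) * al (j + 2) z y) - (∑ z, (S i x (j + 2) z : k) * al (j + 1) z y) =
        if i = j ∧ x = y then (den : k) else 0 := by
    intro i x j y
    have h := congrArg (fun n : ℤ => (n : k)) (hS i x j y)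
    simp only [Int.cast_sub, Int.cast_sum, Int.cast_mul, Int.cast_ite, Int.cast_zero, ← hX] at h
    exact h
  refine ⟨fun j z => (den : k)⁻¹ * ∑ i, ∑ x, g i x * (S i x j z : k), fun j => ?_⟩
  funext y
  have e : ∀ (j' j'' : Fin 3), ((fun z => (den : k)⁻¹ * ∑ i, ∑ x, g i x * (S i x j' z : k)) ᵥ*
      al j'') y = (den : k)⁻¹ * ∑ i, ∑ x, g i x * ∑ z, (S i x j' z : k) * al j'' z y := by
    intro j' j''
    simp only [Matrix.vecMul, dotProduct, Finset.mul_sum, Finset.sum_mul]
    rw [Finset.sum_comm]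
    refine Finset.sum_congr rfl fun i _ => ?_
    rw [Finset.sum_comm]
    refine Finset.sum_congr rfl fun x _ => ?_
    refine Finset.sum_congr rfl fun z _ => ?_
    ring
  rw [Pi.sub_apply, e, e, ← mul_sub, ← Finset.sum_sub_distrib]
  have e2 : ∀ i, (∑ x, g i x * ∑ z, (S i x (j + 1) z : k) * al (j + 2) z y) -
      (∑ x, g i x * ∑ z, (S i x (j + 2) z : k) * al (j + 1) z y) =
      ∑ x, g i x * (if i = j ∧ x = y then (den : k) else 0) := by
    intro i
    rw [← Finset.sum_sub_distrib]
    refine Finset.sum_congr rfl fun x _ => ?_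
    rw [← mul_sub, hS']
  rw [Finset.sum_congr rfl fun i _ => e2 i, Finset.sum_eq_single j, Finset.sum_eq_single y]
  · rw [if_pos ⟨rfl, rfl⟩]
    field_simp
  · intro x _ hx
    rw [if_neg fun h => hx h.2, mul_zero]
  · intro h
    exact absurd (Finset.mem_univ y) h
  · intro i _ hi
    refine Finset.sum_eq_zero fun x _ => ?_
    rw [if_neg fun h => hi h.1, mul_zero]
  · intro h
    exact absurd (Finset.mem_univ j) h

/-- the standard numbering of three levels -/
def eqF (a b c : ℕ) : Fin a ⊕ (Fin b ⊕ Fin c) ≃ Fin (a + (b + c)) :=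
  (Equiv.sumCongr (Equiv.refl _) finSumFinEquiv).trans finSumFinEquiv

/-- checked base point on three levels with tables: all triples with tails whose commutation map is
onto are limits of curvilinear triples -/
theorem cl_GRD_of_ck [CharZero k] {B : Base} {a b c : ℕ} (hD : 0 < a + (b + c))
    (hB : B.ck (a + (b + c)) = true) {C1 C2 : Cer} (h1 : C1.ck B (a + (b + c)) 1 = true)
    (h2 : C2.ck B (a + (b + c)) 2 = true) (hw : ∀ x, B.w (eqF a b c x) = lv3 x)
    (S : Fin 3 → Fin a → Fin 3 → Fin b → ℤ) {den : ℤ} (hden : den ≠ 0)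
    (hS : ∀ (i : Fin 3) (x : Fin a) (j : Fin 3) (y : Fin a),
      (∑ z : Fin b, S i x (j + 1) z * B.Xe (j + 2 : Fin 3) (a + z) y) -
        (∑ z : Fin b, S i x (j + 2) z * B.Xe (j + 1 : Fin 3) (a + z) y) =
          if i = j ∧ x = y then den else 0)
    {I J L : Type*} [Fintype I] [Fintype J] [Fintype L] [DecidableEq I] [DecidableEq J]
    [DecidableEq L] (hI : Fintype.card I = a) (hJ : Fintype.card J = b) (hL : Fintype.card L = c)
    (al : Fin 3 → Matrix J I k) (be : Fin 3 → Matrix L J k) (D : Fin 3 → Matrix L I k)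
    (hc : ∀ i j, be i * al j = be j * al i) (hs : Sj al) :
    Cl (fun i => GR al be i + TL D i) := by
  have hinf : Infinite k := inferInstance
  have hB' := hB
  simp only [Base.ck, Bool.and_eq_true] at hB'
  obtain ⟨⟨hP, hX⟩, hdg⟩ := hB'
  set eI := Fintype.equivFinOfCardEq hI
  set eJ := Fintype.equivFinOfCardEq hJ
  set eL := Fintype.equivFinOfCardEq hL
  have hs0 : Sj fun i => Matrix.of fun (y : Fin b) (x : Fin a) =>
      XX k B (a + (b + c)) i (eqF a b c (.inr (.inl y))) (eqF a b c (.inl x)) := by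
    refine sj_of_table (Xz := fun i y x => B.Xe i (a + y) x) (fun i y x => ?_) S hden hS
    rw [Matrix.of_apply]
    change ((B.Xe i ((eqF a b c (.inr (.inl y)) : Fin (a + (b + c))) : ℕ)
      ((eqF a b c (.inl x) : Fin (a + (b + c))) : ℕ) : ℤ) : k) = _
    have e1 : ((eqF a b c (.inr (.inl y)) : Fin (a + (b + c))) : ℕ) = a + y := by
      simp [eqF]
    have e2 : ((eqF a b c (.inl x) : Fin (a + (b + c))) : ℕ) = x := by
      simp [eqF]
    rw [e1, e2]
  refine cl_GRD_of_cert' ((Equiv.sumCongr eI (Equiv.sumCongr eJ eL)).trans (eqF a b c))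
    (w := fun x : Fin (a + (b + c)) => B.w x) ?_ (N0 := Mt k (a + (b + c)) (nth [] B.pw 1)) ?_ ?_
    (X := XX k B (a + (b + c))) (X_poly B hP hX) (X_deg B hdg) (cert_of_ck B hD hP C1 h1)
    (cert_of_ck B hD hP C2 h2) ?_ al be D hc hs
  · intro x
    have h3 : ∀ x : I ⊕ (J ⊕ L), lv3 (Equiv.sumCongr eI (Equiv.sumCongr eJ eL) x) = lv3 x := by
      rintro (x | (x | x)) <;> rfl
    rw [← h3 x, ← hw]
    rfl
  · rw [Fintype.card_fin]
    exact pw_top B hP hD
  · rw [Fintype.card_fin]
    exact pw_ne B hP hD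
  · exact hs0.submatrix eJ eI

end Pool.Agent.Lib.D13
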