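import Pool.Agent.Lib.D7.Api

/-!
# MP_5dcbc3_ag: type `(4, 3, 3)`, the stratum `(1,3,3,3 | 3,3,3,1)`

Three axes: basis `1, x, x^2, x^3, y, y^2, y^3, z, z^2, z^3` (in this order on `Fin 10`) with
`x y = c z^3`, `x z = b y^3`, `y z = a x^3`. The matrices of `y` and `z` are moved by
`Y + s (b c x^2 (z)^* + c x^3 (y^3)^*)` and `Z + s (b c x^2 (y)^* + b x^3 (z^3)^*)`; the fourth power of
the first one is `s c x^3 (1)^*`.
-/

namespace Pool.Agent.Lib.D13

open Matrix Pool.Agent.Lib.Q5dc Pool.Agent.Lib.D7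

variable {k : Type*} [Field k]

namespace T1333

/-- the matrix of `x` -/
def X (b c : k) : Matrix (Fin 10) (Fin 10) k :=
  !![0, 0, 0, 0, 0, 0, 0, 0, 0, 0;
     1, 0, 0, 0, 0, 0, 0, 0, 0, 0;
     0, 1, 0, 0, 0, 0, 0, 0, 0, 0;
     0, 0, 1, 0, 0, 0, 0, 0, 0, 0;
     0, 0, 0, 0, 0, 0, 0, 0, 0, 0;
     0, 0, 0, 0, 0, 0, 0, 0, 0, 0;
     0, 0, 0, 0, 0, 0, 0, b, 0, 0;
     0, 0, 0, 0, 0, 0, 0, 0, 0, 0;
     0, 0, 0, 0, 0, 0, 0, 0, 0, 0;
     0, 0, 0, 0, c, 0, 0, 0, 0, 0]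

/-- the matrix of `y`; `p` and `q` are the moved entries -/
def Y (a c p q : k) : Matrix (Fin 10) (Fin 10) k :=
  !![0, 0, 0, 0, 0, 0, 0, 0, 0, 0;
     0, 0, 0, 0, 0, 0, 0, 0, 0, 0;
     0, 0, 0, 0, 0, 0, 0, p, 0, 0;
     0, 0, 0, 0, 0, 0, q, a, 0, 0;
     1, 0, 0, 0, 0, 0, 0, 0, 0, 0;
     0, 0, 0, 0, 1, 0, 0, 0, 0, 0;
     0, 0, 0, 0, 0, 1, 0, 0, 0, 0;
     0, 0, 0, 0, 0, 0, 0, 0, 0, 0;
     0, 0, 0, 0, 0, 0, 0, 0, 0, 0;
     0, c, 0, 0, 0, 0, 0, 0, 0, 0]

/-- the matrix of `z`; `p` and `q` are the moved entries -/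
def Z (a b p q : k) : Matrix (Fin 10) (Fin 10) k :=
  !![0, 0, 0, 0, 0, 0, 0, 0, 0, 0;
     0, 0, 0, 0, 0, 0, 0, 0, 0, 0;
     0, 0, 0, 0, p, 0, 0, 0, 0, 0;
     0, 0, 0, 0, a, 0, 0, 0, 0, q;
     0, 0, 0, 0, 0, 0, 0, 0, 0, 0;
     0, 0, 0, 0, 0, 0, 0, 0, 0, 0;
     0, b, 0, 0, 0, 0, 0, 0, 0, 0;
     1, 0, 0, 0, 0, 0, 0, 0, 0, 0;
     0, 0, 0, 0, 0, 0, 0, 1, 0, 0;
     0, 0, 0, 0, 0, 0, 0, 0, 1, 0]

/-- the triples; `s` is the parameter of the move -/
def T (a b c s : k) : Fin 3 → Matrix (Fin 10) (Fin 10) k :=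
  ![X b c, Y a c (s * (b * c)) (s * c), Z a b (s * (b * c)) (s * b)]

theorem comm01 (a b c s : k) : X b c * Y a c (s * (b * c)) (s * c) =
    Y a c (s * (b * c)) (s * c) * X b c := by
  ext i j
  fin_cases i <;> fin_cases j <;>
    simp [X, Y, Matrix.mul_apply, Fin.sum_univ_succ] <;> ring

theorem comm02 (a b c s : k) : X b c * Z a b (s * (b * c)) (s * b) =
    Z a b (s * (b * c)) (s * b) * X b c := by
  ext i j
  fin_cases i <;> fin_cases j <;>
    simp [X, Z, Matrix.mul_apply, Fin.sum_univ_succ] <;> ring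

theorem comm12 (a b c s : k) : Y a c (s * (b * c)) (s * c) * Z a b (s * (b * c)) (s * b) =
    Z a b (s * (b * c)) (s * b) * Y a c (s * (b * c)) (s * c) := by
  ext i j
  fin_cases i <;> fin_cases j <;>
    simp [Y, Z, Matrix.mul_apply, Fin.sum_univ_succ] <;> ring

theorem comm (a b c s : k) : ∀ i j, T a b c s i * T a b c s j = T a b c s j * T a b c s i := by
  intro i j
  fin_cases i <;> fin_cases j
  · rfl
  · exact comm01 a b c s
  · exact comm02 a b c s
  · exact (comm01 a b c s).symm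
  · rfl
  · exact comm12 a b c s
  · exact (comm02 a b c s).symm
  · exact (comm12 a b c s).symm
  · rfl

theorem nilp_of_wt {n : Type*} [Fintype n] [DecidableEq n] (w : n → ℕ) {M : Matrix n n k}
    (h : ∀ x y, w x ≤ w y → M x y = 0) : IsNilpotent M := by
  have key : ∀ m x y, w x < w y + m → (M ^ m) x y = 0 := by
    intro m
    induction m with
    | zero =>
      intro x y hxy
      rw [pow_zero, Matrix.one_apply_ne]
      rintro rfl
      omega
    | succ m ih =>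
      intro x y hxy
      rw [pow_succ, Matrix.mul_apply]
      refine Finset.sum_eq_zero fun z _ => ?_
      by_cases hz : w z ≤ w y
      · rw [h z y hz, mul_zero]
      · rw [ih x z (by omega), zero_mul]
  refine ⟨Finset.univ.sup w + 1, ?_⟩
  ext x y
  rw [Matrix.zero_apply]
  refine key _ x y ?_
  have : w x ≤ Finset.univ.sup w := Finset.le_sup (Finset.mem_univ x)
  omega

/-- degrees of the basis vectors -/
def wt : Fin 10 → ℕ := ![0, 1, 3, 6, 1, 2, 4, 1, 2, 4]

theorem nilp (a b c s : k) : ∀ i, IsNilpotent (T a b c s i) := by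
  intro i
  refine nilp_of_wt wt ?_
  intro x y hxy
  fin_cases i
  · show X b c x y = 0
    revert hxy
    fin_cases x <;> fin_cases y <;> simp [X, wt]
  · show Y a c (s * (b * c)) (s * c) x y = 0
    revert hxy
    fin_cases x <;> fin_cases y <;> simp [Y, wt]
  · show Z a b (s * (b * c)) (s * b) x y = 0
    revert hxy
    fin_cases x <;> fin_cases y <;> simp [Z, wt]

theorem cn (a b c s : k) : CN (T a b c s) := ⟨comm a b c s, nilp a b c s⟩

theorem line_b (a b c s : k) : T a (b + s) c 0 = T a b c 0 + s • (T 0 1 0 0 - T 0 0 0 0) := by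
  funext i
  ext x y
  fin_cases i
  · show X (b + s) c x y = X b c x y + s * (X 1 0 x y - X 0 0 x y)
    fin_cases x <;> fin_cases y <;> simp [X]
  · show Y a c (0 * ((b + s) * c)) (0 * c) x y =
      Y a c (0 * (b * c)) (0 * c) x y + s * (Y 0 0 (0 * (1 * 0)) (0 * 0) x y -
        Y 0 0 (0 * (0 * 0)) (0 * 0) x y)
    simp
  · show Z a (b + s) (0 * ((b + s) * c)) (0 * (b + s)) x y =
      Z a b (0 * (b * c)) (0 * b) x y + s * (Z 0 1 (0 * (1 * 0)) (0 * 1) x y -
        Z 0 0 (0 * (0 * 0)) (0 * 0) x y)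
    simp only [zero_mul]
    fin_cases x <;> fin_cases y <;> simp [Z]

theorem line_s (a b c s : k) : T a b c s = T a b c 0 + s • (T a b c 1 - T a b c 0) := by
  funext i
  ext x y
  fin_cases i
  · show X b c x y = X b c x y + s * (X b c x y - X b c x y)
    simp
  · show Y a c (s * (b * c)) (s * c) x y =
      Y a c (0 * (b * c)) (0 * c) x y + s * (Y a c (1 * (b * c)) (1 * c) x y -
        Y a c (0 * (b * c)) (0 * c) x y)
    simp only [zero_mul, one_mul]
    fin_cases x <;> fin_cases y <;> simp [Y]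
  · show Z a b (s * (b * c)) (s * b) x y =
      Z a b (0 * (b * c)) (0 * b) x y + s * (Z a b (1 * (b * c)) (1 * b) x y -
        Z a b (0 * (b * c)) (0 * b) x y)
    simp only [zero_mul, one_mul]
    fin_cases x <;> fin_cases y <;> simp [Z]

theorem Z_pow (a b p q : k) : (Z a b p q ^ 4) 3 0 = q := by
  have h0 : ∀ M : Matrix (Fin 10) (Fin 10) k, (M * Z a b p q) 3 0 = M 3 7 := by
    intro M
    simp [Z, Matrix.mul_apply, Fin.sum_univ_succ]
  have h1 : ∀ M : Matrix (Fin 10) (Fin 10) k, (M * Z a b p q) 3 7 = M 3 8 := by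
    intro M
    simp [Z, Matrix.mul_apply, Fin.sum_univ_succ]
  have h2 : ∀ M : Matrix (Fin 10) (Fin 10) k, (M * Z a b p q) 3 8 = M 3 9 := by
    intro M
    simp [Z, Matrix.mul_apply, Fin.sum_univ_succ]
  rw [pow_succ, h0, pow_succ, h1, pow_succ, h2, pow_one]
  simp [Z]

/-- the case `b` nonzero -/
theorem no_b [Infinite k] {ρ : ℕ → ℕ} (h4 : ρ 4 = 0) {a b c : k} (hb : b ≠ 0)
    (hT : MaxR ρ (T a b c 0)) : False := by
  obtain ⟨E, hE, h⟩ := hT.deform (fun s => T a b c s)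
    (by
      have h1 : (fun s : k => T a b c s) = fun s => T a b c 0 + s • (T a b c 1 - T a b c 0) := by
        funext s
        exact line_s a b c s
      rw [h1]
      exact PolyFam.line _ _) rfl Set.finite_empty fun s _ => cn a b c s
  obtain ⟨s, hs⟩ := (hE.union (Set.finite_singleton (0 : k))).exists_notMem
  simp only [Set.mem_union, not_or, Set.mem_singleton_iff] at hs
  have h1 := (h s hs.1).pow_eq_zero (mem_adj (T a b c s) 2) h4
  have h2 := congrFun (congrFun h1 3) 0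
  rw [show T a b c s 2 = Z a b (s * (b * c)) (s * b) from rfl, Z_pow, Matrix.zero_apply] at h2
  exact (mul_ne_zero hs.2 hb) h2

/-- no maximal bad triple with `ρ 4 = 0` has this form -/
theorem no_T [Infinite k] {ρ : ℕ → ℕ} (h4 : ρ 4 = 0) {a b c : k}
    (hT : MaxR ρ (T a b c 0)) : False := by
  obtain ⟨E, hE, h⟩ := hT.deform (fun s => T a (b + s) c 0)
    (by
      have h1 : (fun s : k => T a (b + s) c 0) =
          fun s => T a b c 0 + s • (T 0 1 0 0 - T 0 0 0 0) := by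
        funext s
        exact line_b a b c s
      rw [h1]
      exact PolyFam.line _ _) (by
      show T a (b + 0) c 0 = T a b c 0
      rw [add_zero]) Set.finite_empty fun s _ => cn a (b + s) c 0
  obtain ⟨s, hs⟩ := (hE.union (Set.finite_singleton (-b))).exists_notMem
  simp only [Set.mem_union, not_or, Set.mem_singleton_iff] at hs
  refine no_b h4 (fun h0 => hs.2 ?_) (h s hs.1)
  linear_combination h0

end T1333

end Pool.Agent.Lib.D13
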