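import Pool.Agent.Lib.D13.E2R
import Pool.Agent.Lib.D13.CaseI2

/-!
# MP_5dcbc3_ag: no maximal bad triple of type `(3, 3, 2, 2)`

`mixP0`: case I or its dual. `caseI2_inj`: then there is one with `a` injective, hence bijective.
`raiseR`: impossible.
-/

namespace Pool.Agent.Lib.D13

open Matrix Pool.Agent.Lib.Q5dc Pool.Agent.Lib.D7 Pool.Agent.Lib.D9

/-- `p = 0`: reduction to case I -/
theorem caseI0 {k : Type*} [Field k] [CharZero k] {u : ℕ} {ρ : ℕ → ℕ}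
    {T : Fin 3 → Matrix (Ix 2 u 0) (Ix 2 u 0) k} (hT : MaxR ρ T)
    (hρ : ∀ i, ρ i = (JX k 2 u 0 ^ i).rank) (h0 : T 0 = JX k 2 u 0) :
    ∃ (N M N' M' : Matrix (Fin 2) (Fin 2) k) (a c a' c' : Matrix (Fin u) (Fin 2) k)
      (d d' : Matrix (Fin 2) (Fin u) k) (nu nu' : Matrix (Fin u) (Fin u) k),
      MaxR ρ ![JX k 2 u 0, BZ N M a c 0 d nu, BZ N' M' a' c' 0 d' nu'] := by
  have h2 : ρ 2 ≤ 2 := by
    rw [hρ]
    exact JX_rank_sq
  have h3 : ρ 3 = 0 := by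
    rw [hρ, JX_cube, rank_zero]
  obtain ⟨N, M, a, c, b, d, nu, N', M', a', c', b', d', nu', h⟩ := shapeZ hT hρ h0
  rcases mixP0 h2 h3 (w := 0) (w' := 0) (pi := 0) (pi' := 0) (th := 0) (th' := 0) (et := 0)
    (et' := 0) h with hh | hh
  · obtain ⟨rfl, rfl⟩ := hh
    have h' := dualZ h
    simp only [transpose_zero] at h'
    exact ⟨_, _, _, _, _, _, _, _, _, _, _, _, h'⟩
  · obtain ⟨rfl, rfl⟩ := hh
    exact ⟨_, _, _, _, _, _, _, _, _, _, _, _, h⟩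

theorem no_3322 {k : Type*} [Field k] [IsAlgClosed k] [CharZero k] {ρ : ℕ → ℕ}
    {T : Fin 3 → Matrix (Ix 2 2 0) (Ix 2 2 0) k} (hT : MaxR ρ T)
    (hρ : ∀ i, ρ i = (JX k 2 2 0 ^ i).rank) (h0 : T 0 = JX k 2 2 0) : False := by
  obtain ⟨N, M, N', M', a, c, a', c', d, d', nu, nu', h⟩ := caseI0 hT hρ h0
  have h3 : ρ 3 = 0 := by
    rw [hρ, JX_cube, rank_zero]
  refine caseI2_inj (u := 2) (p := 0) (by norm_num) (by norm_num) ?_ (w := 0) (w' := 0) (th := 0)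
    (th' := 0) (et := 0) (et' := 0) h
  intro N M a c w d nu th et N' M' a' c' w' d' nu' th' et' h1 hinj
  have h2 : MaxR ρ ![JX k 2 2 0, BZ N M a c 0 d nu, BZ N' M' a' c' 0 d' nu'] := by
    have h5 := h1
    unfold D10.Tr at h5
    rw [BZ_eq, BZ_eq] at h5
    exact h5
  refine raiseR le_rfl h3 h2 fun q hq _ => ?_
  have h4 : IsUnit a.det := by
    rw [isUnit_iff_ne_zero]
    intro hd
    obtain ⟨v, hv0, hv⟩ := Matrix.exists_mulVec_eq_zero_iff.2 hd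
    exact hv0 (hinj v hv (Subsingleton.elim _ _))
  have h5 : q ᵥ* (a * a⁻¹) = 0 := by rw [← vecMul_vecMul, hq, zero_vecMul]
  rwa [Matrix.mul_nonsing_inv _ h4, vecMul_one] at h5

end Pool.Agent.Lib.D13
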