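import Pool.Agent.Lib.D13.PiZero
import Pool.Agent.Lib.D13.Mix2
import Pool.Agent.Lib.D13.MixP0

/-!
# MP_5dcbc3_ag: reduction of the types `(3,3,2^u,1^p)` to `b = b' = 0`, `pi = pi' = 0`
-/

namespace Pool.Agent.Lib.D13

open Matrix Pool.Agent.Lib.Q5dc Pool.Agent.Lib.D7 Pool.Agent.Lib.D9

variable {k : Type*} [Field k] [IsAlgClosed k] [CharZero k] {ρ : ℕ → ℕ}

namespace ToIAux

section

omit [IsAlgClosed k]

variable {e u p : ℕ}

theorem lin_eq' {N M N' M' : Matrix (Fin e) (Fin e) k} {a c a' c' : Matrix (Fin u) (Fin e) k}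
    {w w' : Matrix (Fin p) (Fin e) k} {b d b' d' : Matrix (Fin e) (Fin u) k}
    {nu nu' : Matrix (Fin u) (Fin u) k} {pi pi' : Matrix (Fin p) (Fin u) k}
    {th th' : Matrix (Fin e) (Fin p) k} {et et' : Matrix (Fin u) (Fin p) k} (s : k) :
    BX N M a c w b d nu pi th et + s • BX N' M' a' c' w' b' d' nu' pi' th' et' =
      BX (N + s • N') (M + s • M') (a + s • a') (c + s • c') (w + s • w') (b + s • b')
        (d + s • d') (nu + s • nu') (pi + s • pi') (th + s • th') (et + s • et') := by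
  rw [BX_smul, BX_add]

/-- `a = a' = b = b' = 0`: `pi = pi' = 0` or `et = et' = 0` -/
theorem case01' (h1 : ρ 1 ≤ 2 * e + u) {N M N' M' : Matrix (Fin e) (Fin e) k}
    {c c' : Matrix (Fin u) (Fin e) k}
    {w w' : Matrix (Fin p) (Fin e) k} {d d' : Matrix (Fin e) (Fin u) k}
    {nu nu' : Matrix (Fin u) (Fin u) k} {pi pi' : Matrix (Fin p) (Fin u) k}
    {th th' : Matrix (Fin e) (Fin p) k} {et et' : Matrix (Fin u) (Fin p) k}
    (hT : MaxR ρ ![JX k e u p, BX N M 0 c w 0 d nu pi th et,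
      BX N' M' 0 c' w' 0 d' nu' pi' th' et']) :
    (pi = 0 ∧ pi' = 0) ∨ (et = 0 ∧ et' = 0) := by
  have hinf : Infinite k := inferInstance
  have hlin : ∀ {nu nu' : Matrix (Fin u) (Fin u) k} (s : k), BX (N + s • N') (M + s • M') 0
      (c + s • c') (w + s • w') 0 (d + s • d') (nu + s • nu') (pi + s • pi') (th + s • th')
      (et + s • et') ∈ adj ![JX k e u p, BX N M 0 c w 0 d nu pi th et,
        BX N' M' 0 c' w' 0 d' nu' pi' th' et'] := by
    intro nu nu' s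
    have h := add_mem (D8.mem1 (JX k e u p) (BX N M 0 c w 0 d nu pi th et)
      (BX N' M' 0 c' w' 0 d' nu' pi' th' et')) (SMulMemClass.smul_mem s (D8.mem2 (JX k e u p)
      (BX N M 0 c w 0 d nu pi th et) (BX N' M' 0 c' w' 0 d' nu' pi' th' et')))
    rw [lin_eq'] at h
    simpa only [smul_zero, add_zero] using h
  have key : ∀ (s : k) (D : Matrix (Fin u) (Fin u) k), (pi + s • pi') * D * (et + s • et') = 0 := by
    intro s D
    have g0 := R3X hT h1 (D8.mem0 _ _ _) (hlin s)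
    simp only [Matrix.mul_zero, Matrix.zero_mul, zero_add] at g0
    obtain ⟨b1, b2, b3, b4, b5, b6, b7⟩ := (BX_comm ..).1 (hT.cn.1 1 2)
    have hB : ∀ t : k, BX N M 0 c w 0 d nu pi th et +
        t • (BX 0 0 0 0 0 0 0 D 0 0 0 : Matrix (Ix e u p) (Ix e u p) k) =
        BX N M 0 c w 0 d (nu + t • D) pi th et := by
      intro t
      rw [lin_eq']
      simp
    obtain ⟨t, ht, hTs⟩ := D8.MaxR.line2 hT (BX 0 0 0 0 0 0 0 D 0 0 0) 0 (fun t => by
      rw [smul_zero, add_zero, hB]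
      refine cnX _ _ _ _ _ _ _ _ _ _ _ _ _ _ _ _ _ _ _ _ _ _ b1 b2 ?_ b4 ?_ b6 b7
      · simpa using b3
      · simpa using b5) (Set.finite_singleton (0 : k))
    rw [smul_zero, add_zero, hB] at hTs
    have g1 := R3X hTs h1 (D8.mem0 _ _ _) (hlin s)
    simp only [Matrix.mul_zero, Matrix.zero_mul, zero_add] at g1
    have g2 : t • ((pi + s • pi') * D * (et + s • et')) = 0 := by
      have g3 : t • ((pi + s • pi') * D * (et + s • et')) =
          (pi + s • pi') * (nu + t • D + s • nu') * (et + s • et') -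
            (pi + s • pi') * (nu + s • nu') * (et + s • et') := by
        rw [← Matrix.sub_mul, ← Matrix.mul_sub, ← Matrix.smul_mul, ← Matrix.mul_smul]
        congr 2
        abel
      rw [g3, g0, g1, sub_zero]
    exact (smul_eq_zero.1 g2).resolve_left ht
  by_contra hc
  rw [not_or] at hc
  obtain ⟨s, hs⟩ := ((E1bAux.fin_line hc.1).union (E1bAux.fin_line hc.2)).infinite_compl.nonempty
  rw [Set.mem_compl_iff, Set.mem_union, not_or] at hs
  obtain ⟨x, i, hi⟩ := E1bAux.exists_entry hs.1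
  obtain ⟨j, y, hj⟩ := E1bAux.exists_entry hs.2
  have h3 := congrFun (congrFun (key s (Matrix.of fun i' j' => if i' = i ∧ j' = j then 1 else 0)) x) y
  have h4 : ((pi + s • pi') * (Matrix.of fun i' j' => if i' = i ∧ j' = j then (1 : k) else 0) *
      (et + s • et')) x y = (pi + s • pi') x i * (et + s • et') j y := by
    rw [Matrix.mul_apply, Finset.sum_eq_single j]
    · congr 1
      rw [Matrix.mul_apply, Finset.sum_eq_single i]
      · simp
      · intro b _ hb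
        simp [hb]
      · simp
    · intro b _ hb
      rw [Matrix.mul_apply, Finset.sum_eq_zero, zero_mul]
      intro b' _
      simp [hb]
    · simp
  rw [h4] at h3
  exact (mul_ne_zero hi hj) h3

end

/-- `b = b' = 0` -/
theorem caseA {p : ℕ} (h1 : ρ 1 ≤ 6) (h2 : ρ 2 ≤ 2) (h3 : ρ 3 = 0)
    {N M N' M' : Matrix (Fin 2) (Fin 2) k} {a c a' c' : Matrix (Fin 2) (Fin 2) k}
    {w w' : Matrix (Fin p) (Fin 2) k} {d d' : Matrix (Fin 2) (Fin 2) k}
    {nu nu' : Matrix (Fin 2) (Fin 2) k} {pi pi' : Matrix (Fin p) (Fin 2) k}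
    {th th' : Matrix (Fin 2) (Fin p) k} {et et' : Matrix (Fin 2) (Fin p) k}
    (hT : MaxR ρ ![JX k 2 2 p, BX N M a c w 0 d nu pi th et,
      BX N' M' a' c' w' 0 d' nu' pi' th' et']) :
    ∃ (N M N' M' : Matrix (Fin 2) (Fin 2) k) (a c a' c' : Matrix (Fin 2) (Fin 2) k)
      (w w' : Matrix (Fin p) (Fin 2) k) (d d' : Matrix (Fin 2) (Fin 2) k)
      (nu nu' : Matrix (Fin 2) (Fin 2) k) (th th' : Matrix (Fin 2) (Fin p) k)
      (et et' : Matrix (Fin 2) (Fin p) k),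
      MaxR ρ ![JX k 2 2 p, BX N M a c w 0 d nu 0 th et, BX N' M' a' c' w' 0 d' nu' 0 th' et'] := by
  by_cases ha : a = 0 ∧ a' = 0
  · obtain ⟨rfl, rfl⟩ := ha
    rcases case01' (e := 2) (u := 2) (by omega) hT with ⟨rfl, rfl⟩ | ⟨rfl, rfl⟩
    · exact ⟨_, _, _, _, _, _, _, _, _, _, _, _, _, _, _, _, _, _, hT⟩
    · have h := MaxR.dualX hT
      simp only [Matrix.transpose_zero] at h
      exact ⟨_, _, _, _, _, _, _, _, _, _, _, _, _, _, _, _, _, _, h⟩
  · obtain ⟨rfl, rfl⟩ := piZero h1 h2 h3 hT ha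
    exact ⟨_, _, _, _, _, _, _, _, _, _, _, _, _, _, _, _, _, _, hT⟩

end ToIAux

open ToIAux

theorem toI2 {p : ℕ} {T : Fin 3 → Matrix (Ix 2 2 p) (Ix 2 2 p) k} (hT : MaxR ρ T)
    (hρ : ∀ i, ρ i = (JX k 2 2 p ^ i).rank) (h0 : T 0 = JX k 2 2 p) :
    ∃ (N M N' M' : Matrix (Fin 2) (Fin 2) k) (a c a' c' : Matrix (Fin 2) (Fin 2) k)
      (w w' : Matrix (Fin p) (Fin 2) k) (d d' : Matrix (Fin 2) (Fin 2) k)
      (nu nu' : Matrix (Fin 2) (Fin 2) k) (th th' : Matrix (Fin 2) (Fin p) k)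
      (et et' : Matrix (Fin 2) (Fin p) k),
      MaxR ρ ![JX k 2 2 p, BX N M a c w 0 d nu 0 th et, BX N' M' a' c' w' 0 d' nu' 0 th' et'] := by
  have h1 : ρ 1 ≤ 6 := by
    rw [hρ, pow_one]
    exact JX_rank
  have h2 : ρ 2 ≤ 2 := by
    rw [hρ]
    exact JX_rank_sq
  have h3 : ρ 3 = 0 := by
    rw [hρ, JX_cube, Matrix.rank_zero]
  obtain ⟨N, M, a, c, w, b, d, nu, pi, th, et, N', M', a', c', w', b', d', nu', pi', th', et', hS⟩ :=
    shapeX hT hρ h0
  rcases mix2 h1 h2 h3 hS with ⟨rfl, rfl⟩ | ⟨rfl, rfl⟩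
  · have h := MaxR.dualX hS
    simp only [Matrix.transpose_zero] at h
    exact caseA h1 h2 h3 h
  · exact caseA h1 h2 h3 hS

theorem toIP0 {u : ℕ} {T : Fin 3 → Matrix (Ix 2 u 0) (Ix 2 u 0) k} (hT : MaxR ρ T)
    (hρ : ∀ i, ρ i = (JX k 2 u 0 ^ i).rank) (h0 : T 0 = JX k 2 u 0) :
    ∃ (N M N' M' : Matrix (Fin 2) (Fin 2) k) (a c a' c' : Matrix (Fin u) (Fin 2) k)
      (d d' : Matrix (Fin 2) (Fin u) k) (nu nu' : Matrix (Fin u) (Fin u) k),
      MaxR ρ ![JX k 2 u 0, BX N M a c 0 0 d nu 0 0 0, BX N' M' a' c' 0 0 d' nu' 0 0 0] := by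
  have h2 : ρ 2 ≤ 2 := by
    rw [hρ]
    exact JX_rank_sq
  have h3 : ρ 3 = 0 := by
    rw [hρ, JX_cube, Matrix.rank_zero]
  obtain ⟨N, M, a, c, w, b, d, nu, pi, th, et, N', M', a', c', w', b', d', nu', pi', th', et', hS⟩ :=
    shapeX hT hρ h0
  have e1 : ∀ w : Matrix (Fin 0) (Fin 2) k, w = 0 := fun w => Subsingleton.elim _ _
  have e2 : ∀ pi : Matrix (Fin 0) (Fin u) k, pi = 0 := fun w => Subsingleton.elim _ _
  have e3 : ∀ th : Matrix (Fin 2) (Fin 0) k, th = 0 := fun w => by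
    ext i j
    exact j.elim0
  have e4 : ∀ et : Matrix (Fin u) (Fin 0) k, et = 0 := fun w => by
    ext i j
    exact j.elim0
  rw [e1 w, e1 w', e2 pi, e2 pi', e3 th, e3 th', e4 et, e4 et'] at hS
  rcases mixP0 h2 h3 hS with ⟨rfl, rfl⟩ | ⟨rfl, rfl⟩
  · have h := MaxR.dualX hS
    simp only [Matrix.transpose_zero] at h
    exact ⟨_, _, _, _, _, _, _, _, _, _, _, _, h⟩
  · exact ⟨_, _, _, _, _, _, _, _, _, _, _, _, hS⟩

end Pool.Agent.Lib.D13
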