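import Pool.Agent.Lib.D13.ToI
import Pool.Agent.Lib.D13.CaseI2
import Pool.Agent.Lib.D13.LastF
import Pool.Agent.Lib.D12.ClTF204

/-!
# MP_5dcbc3_ag: type `(3, 3, 2, 2, 1, 1)`
-/

namespace Pool.Agent.Lib.D13

open Matrix Pool.Agent.Lib.Q5dc Pool.Agent.Lib.D7 Pool.Agent.Lib.D9 Pool.Agent.Lib.D10

variable {k : Type*} [Field k] [IsAlgClosed k] [CharZero k] {ρ : ℕ → ℕ}

theorem no_332211_of (hcl : ∀ r g, Cl (TF (k := k) 2 0 4 r g))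
    {T : Fin 3 → Matrix (Ix 2 2 2) (Ix 2 2 2) k} (hT : MaxR ρ T)
    (hρ : ∀ i, ρ i = (JX k 2 2 2 ^ i).rank) (h0 : T 0 = JX k 2 2 2) : False := by
  have : Infinite k := IsAlgClosed.instInfinite
  obtain ⟨N, M, N', M', a, c, a', c', w, w', d, d', nu, nu', th, th', et, et', h⟩ := toI2 hT hρ h0
  exact caseI2_inj (by omega) (by omega)
    (fun _ _ _ _ _ _ _ _ _ _ _ _ _ _ _ _ _ _ hT hal => last_F rfl hcl hT hal) h

/-- **type `(3, 3, 2, 2, 1, 1)`** -/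
theorem no_332211 {T : Fin 3 → Matrix (Ix 2 2 2) (Ix 2 2 2) k} (hT : MaxR ρ T)
    (hρ : ∀ i, ρ i = (JX k 2 2 2 ^ i).rank) (h0 : T 0 = JX k 2 2 2) : False :=
  no_332211_of (fun r g => D12.cl_TF204 r g) hT hρ h0

end Pool.Agent.Lib.D13
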