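import Pool.Agent.Lib.D12.ClTR5
import Pool.Agent.Lib.D13.LastR
import Pool.Agent.Lib.D13.T3322

/-!
# MP_5dcbc3_ag: no maximal bad triple of type `(3, 3, 2, 2, 2)`
-/

namespace Pool.Agent.Lib.D13

open Matrix Pool.Agent.Lib.Q5dc Pool.Agent.Lib.D7 Pool.Agent.Lib.D9

theorem no_33222 {k : Type*} [Field k] [IsAlgClosed k] [CharZero k] {ρ : ℕ → ℕ}
    {T : Fin 3 → Matrix (Ix 2 3 0) (Ix 2 3 0) k} (hT : MaxR ρ T)
    (hρ : ∀ i, ρ i = (JX k 2 3 0 ^ i).rank) (h0 : T 0 = JX k 2 3 0) : False := by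
  obtain ⟨N, M, N', M', a, c, a', c', d, d', nu, nu', h⟩ := caseI0 hT hρ h0
  refine caseI2_inj (u := 3) (p := 0) (by norm_num) (by norm_num) ?_ (w := 0) (w' := 0) (th := 0)
    (th' := 0) (et := 0) (et' := 0) h
  intro N M a c w d nu th et N' M' a' c' w' d' nu' th' et' h1 hinj
  exact last_R (u := 3) (p := 0) rfl (fun R => D12.cl_TR5 R) h1 hinj

end Pool.Agent.Lib.D13
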