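import Pool.Agent.Lib.D9.Blk
import Pool.Agent.Lib.D13.FdcVia

/-!
# MP_5dcbc3_ag: type (3,3,3,1), the block form and the chart

`B31 N M w th` is the general matrix commuting with the Jordan matrix in the shape given by `shapeX`
(`e = 3`, `u = 0`, `p = 1`). Two of them commute iff `N N' + th w' = N' N + th' w`.
-/

set_option autoImplicit false

namespace Pool.Agent.Lib.D13

open Matrix Pool.Agent.Lib.Q5dc Pool.Agent.Lib.D7 Pool.Agent.Lib.D9

namespace T3331Aux

variable {k : Type*} [Field k]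

/-- blocks of type (3,3,3,1) -/
def B31 (N M : Matrix (Fin 3) (Fin 3) k) (w th : Fin 3 → k) : Matrix (Ix 3 0 1) (Ix 3 0 1) k :=
  BX N M 0 0 (Matrix.of fun _ j => w j) 0 0 0 0 (Matrix.of fun i _ => th i) 0

theorem JX_eq : JX k 3 0 1 = B31 1 0 0 0 := by
  rw [JX, B31]
  congr 1
  exact Subsingleton.elim _ _

theorem B31_add (N M N' M' : Matrix (Fin 3) (Fin 3) k) (w th w' th' : Fin 3 → k) :
    B31 N M w th + B31 N' M' w' th' = B31 (N + N') (M + M') (w + w') (th + th') := by
  rw [B31, B31, BX_add, B31]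
  congr 1 <;> first | rfl | simp

theorem B31_smul (s : k) (N M : Matrix (Fin 3) (Fin 3) k) (w th : Fin 3 → k) :
    s • B31 N M w th = B31 (s • N) (s • M) (s • w) (s • th) := by
  rw [B31, BX_smul, B31]
  congr 1 <;> first | rfl | simp

theorem B31_comm {N M N' M' : Matrix (Fin 3) (Fin 3) k} {w th w' th' : Fin 3 → k} :
    B31 N M w th * B31 N' M' w' th' = B31 N' M' w' th' * B31 N M w th ↔
      N * N' + vecMulVec th w' = N' * N + vecMulVec th' w := by
  rw [B31, B31, BX_comm]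
  have e : ∀ (th w : Fin 3 → k), (Matrix.of fun (i : Fin 3) (_ : Fin 1) => th i) *
      (Matrix.of fun (_ : Fin 1) (j : Fin 3) => w j) = vecMulVec th w := by
    intro th w
    ext i j
    simp [Matrix.mul_apply, vecMulVec_apply]
  simp only [Matrix.mul_zero, Matrix.zero_mul, add_zero, e, true_and, and_true]

theorem isPoly_B31 {N M : k → Matrix (Fin 3) (Fin 3) k} {w th : k → Fin 3 → k}
    (hN : ∀ i j, IsPoly fun s => N s i j) (hM : ∀ i j, IsPoly fun s => M s i j)
    (hw : ∀ i, IsPoly fun s => w s i) (hth : ∀ i, IsPoly fun s => th s i) :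
    ∀ x y, IsPoly fun s => B31 (N s) (M s) (w s) (th s) x y := by
  intro x y
  rcases x with (x | x | x) | ((x | x) | x) <;> rcases y with (y | y | y) | ((y | y) | y) <;>
    first
    | exact hN _ _
    | exact hM _ _
    | exact hw _
    | exact hth _
    | exact D7.IsPoly.const _

/-- the triple -/
def T31 (N M : Matrix (Fin 3) (Fin 3) k) (w th : Fin 3 → k) (N' M' : Matrix (Fin 3) (Fin 3) k)
    (w' th' : Fin 3 → k) : Fin 3 → Matrix (Ix 3 0 1) (Ix 3 0 1) k :=
  ![JX k 3 0 1, B31 N M w th, B31 N' M' w' th']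

theorem polyFam_T31 {N M : k → Matrix (Fin 3) (Fin 3) k} {w th : k → Fin 3 → k}
    {N' M' : k → Matrix (Fin 3) (Fin 3) k} {w' th' : k → Fin 3 → k}
    (hN : ∀ i j, IsPoly fun s => N s i j) (hM : ∀ i j, IsPoly fun s => M s i j)
    (hw : ∀ i, IsPoly fun s => w s i) (hth : ∀ i, IsPoly fun s => th s i)
    (hN' : ∀ i j, IsPoly fun s => N' s i j) (hM' : ∀ i j, IsPoly fun s => M' s i j)
    (hw' : ∀ i, IsPoly fun s => w' s i) (hth' : ∀ i, IsPoly fun s => th' s i) :
    PolyFam fun s => T31 (N s) (M s) (w s) (th s) (N' s) (M' s) (w' s) (th' s) := by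
  intro i
  fin_cases i
  · exact fun x y => D7.IsPoly.const _
  · exact isPoly_B31 hN hM hw hth
  · exact isPoly_B31 hN' hM' hw' hth'

theorem comm_T31 {N M N' M' : Matrix (Fin 3) (Fin 3) k} {w th w' th' : Fin 3 → k}
    (h : N * N' + vecMulVec th w' = N' * N + vecMulVec th' w) (i j : Fin 3) :
    T31 N M w th N' M' w' th' i * T31 N M w th N' M' w' th' j =
      T31 N M w th N' M' w' th' j * T31 N M w th N' M' w' th' i := by
  have hJ : ∀ (N M : Matrix (Fin 3) (Fin 3) k) (w th : Fin 3 → k),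
      JX k 3 0 1 * B31 N M w th = B31 N M w th * JX k 3 0 1 := fun N M w th => JX_comm ..
  have hB := (B31_comm (M := M) (M' := M')).2 h
  fin_cases i <;> fin_cases j
  · rfl
  · exact hJ ..
  · exact hJ ..
  · exact (hJ ..).symm
  · rfl
  · exact hB
  · exact (hJ ..).symm
  · exact hB.symm
  · rfl

/-- the limit of a family of limits is a limit -/
theorem cl_close [Infinite k] {m : Type*} [Fintype m] [DecidableEq m]
    {c : k → Fin 3 → Matrix m m k} (hc : PolyFam c) {E : Set k} (hE : E.Finite)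
    (h : ∀ s ∉ E, Cl (c s)) : Cl (c 0) := by
  by_contra h0
  have h1 := (finite_cl c hc h0).union hE
  obtain ⟨s, hs⟩ := h1.infinite_compl.nonempty
  rw [Set.mem_compl_iff, Set.mem_union, not_or] at hs
  exact hs.1 (h s hs.2)

/-! ### the chart -/

/-- commutator -/
def com (N N' : Matrix (Fin 3) (Fin 3) k) : Matrix (Fin 3) (Fin 3) k := N * N' - N' * N

/-- the triple with `th = e_1`, `th' = e_2` determined by `N`, `N'` -/
def TA (N N' M M' : Matrix (Fin 3) (Fin 3) k) : Fin 3 → Matrix (Ix 3 0 1) (Ix 3 0 1) k :=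
  T31 N M (com N N' 2) (Pi.single 1 1) N' M' (-com N N' 1) (Pi.single 2 1)

theorem TA_rel {N N' : Matrix (Fin 3) (Fin 3) k} (h : com N N' 0 = 0) :
    N * N' + vecMulVec (Pi.single 1 1) (-com N N' 1) =
      N' * N + vecMulVec (Pi.single 2 1) (com N N' 2) := by
  have h' : ∀ j, (N * N') 0 j = (N' * N) 0 j := by
    intro j
    have h1 := congrFun h j
    rw [com, Matrix.sub_apply, Pi.zero_apply] at h1
    exact sub_eq_zero.1 h1
  ext i j
  fin_cases i
  · simpa [vecMulVec_apply] using h' j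
  · simp [vecMulVec_apply, com]
  · simp [vecMulVec_apply, com]

theorem TA_comm {N N' M M' : Matrix (Fin 3) (Fin 3) k} (h : com N N' 0 = 0) (i j : Fin 3) :
    TA N N' M M' i * TA N N' M M' j = TA N N' M M' j * TA N N' M M' i :=
  comm_T31 (TA_rel h) i j

theorem isPoly_com {N N' : k → Matrix (Fin 3) (Fin 3) k} (hN : ∀ i j, IsPoly fun s => N s i j)
    (hN' : ∀ i j, IsPoly fun s => N' s i j) (i j : Fin 3) :
    IsPoly fun s => com (N s) (N' s) i j :=
  (isPoly_mul hN hN' i j).sub (isPoly_mul hN' hN i j)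

theorem polyFam_TA {N N' M M' : k → Matrix (Fin 3) (Fin 3) k}
    (hN : ∀ i j, IsPoly fun s => N s i j) (hN' : ∀ i j, IsPoly fun s => N' s i j)
    (hM : ∀ i j, IsPoly fun s => M s i j) (hM' : ∀ i j, IsPoly fun s => M' s i j) :
    PolyFam fun s => TA (N s) (N' s) (M s) (M' s) :=
  polyFam_T31 hN hM (fun i => isPoly_com hN hN' 2 i) (fun _ => D7.IsPoly.const _) hN' hM'
    (fun i => (isPoly_com hN hN' 1 i).neg) (fun _ => D7.IsPoly.const _)

/-- the second matrix of the chart -/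
def chN (N : Matrix (Fin 3) (Fin 3) k) (n0 n2 : Fin 3 → k) : Matrix (Fin 3) (Fin 3) k :=
  Matrix.of ![N 0 1 • n0, n0 ᵥ* N - N 0 0 • n0 - N 0 2 • n2, N 0 1 • n2]

theorem com_chN (N : Matrix (Fin 3) (Fin 3) k) (n0 n2 : Fin 3 → k) : com N (chN N n0 n2) 0 = 0 := by
  ext j
  simp only [com, chN, Matrix.sub_apply, Matrix.mul_apply, Fin.sum_univ_three, Matrix.of_apply,
    Matrix.cons_val_zero, Matrix.cons_val_one, Matrix.cons_val_two, Matrix.head_cons,
    Matrix.tail_cons, Pi.smul_apply, Pi.sub_apply, smul_eq_mul, Matrix.vecMul, dotProduct,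
    Pi.zero_apply]
  ring

theorem isPoly_chN {N : k → Matrix (Fin 3) (Fin 3) k} {n0 n2 : k → Fin 3 → k}
    (hN : ∀ i j, IsPoly fun s => N s i j) (h0 : ∀ i, IsPoly fun s => n0 s i)
    (h2 : ∀ i, IsPoly fun s => n2 s i) (i j : Fin 3) :
    IsPoly fun s => chN (N s) (n0 s) (n2 s) i j := by
  have hv : IsPoly fun s => (n0 s ᵥ* N s) j := by
    have e : (fun s => (n0 s ᵥ* N s) j) = fun s => n0 s 0 * N s 0 j + n0 s 1 * N s 1 j +
        n0 s 2 * N s 2 j := by
      funext s
      simp [Matrix.vecMul, dotProduct, Fin.sum_univ_three]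
    rw [e]
    exact (((h0 0).mul (hN 0 j)).add ((h0 1).mul (hN 1 j))).add ((h0 2).mul (hN 2 j))
  fin_cases i
  · exact (hN 0 1).mul (h0 j)
  · exact (hv.sub ((hN 0 0).mul (h0 j))).sub ((hN 0 2).mul (h2 j))
  · exact (hN 0 1).mul (h2 j)

end T3331Aux

end Pool.Agent.Lib.D13
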