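import Pool.Agent.Lib.D13.T3331D
import Pool.Agent.Lib.D9.BlkMap

/-!
# MP_5dcbc3_ag: type (3,3,3,1), reduction to the chart, part 1

`qa_all`: the triples `TA N N' M M'` with `com N N' 0 = 0` are limits of curvilinear triples.
-/

set_option autoImplicit false

namespace Pool.Agent.Lib.D13

open Matrix Pool.Agent.Lib.Q5dc Pool.Agent.Lib.D7 Pool.Agent.Lib.D9

namespace T3331Aux

variable {k : Type*} [Field k]

theorem row_of_com {N N' : Matrix (Fin 3) (Fin 3) k} (h : com N N' 0 = 0) (j : Fin 3) :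
    N 0 0 * N' 0 j + N 0 1 * N' 1 j + N 0 2 * N' 2 j =
      N' 0 0 * N 0 j + N' 0 1 * N 1 j + N' 0 2 * N 2 j := by
  have h1 := congrFun h j
  rw [com, Matrix.sub_apply, Pi.zero_apply, Matrix.mul_apply, Matrix.mul_apply,
    Fin.sum_univ_three, Fin.sum_univ_three] at h1
  exact sub_eq_zero.1 h1

theorem com_of_row {N N' : Matrix (Fin 3) (Fin 3) k}
    (h : ∀ j, N 0 0 * N' 0 j + N 0 1 * N' 1 j + N 0 2 * N' 2 j =
      N' 0 0 * N 0 j + N' 0 1 * N 1 j + N' 0 2 * N 2 j) : com N N' 0 = 0 := by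
  ext j
  rw [com, Matrix.sub_apply, Pi.zero_apply, Matrix.mul_apply, Matrix.mul_apply,
    Fin.sum_univ_three, Fin.sum_univ_three]
  exact sub_eq_zero.2 (h j)

/-- the chart covers `N 0 1 ≠ 0` -/
theorem qa_01 [CharZero k] {N N' : Matrix (Fin 3) (Fin 3) k} (h : com N N' 0 = 0)
    (hb : N 0 1 ≠ 0) (M M' : Matrix (Fin 3) (Fin 3) k) : Cl (TA N N' M M') := by
  have e : N' = chN N ((N 0 1)⁻¹ • N' 0) ((N 0 1)⁻¹ • N' 2) := by
    ext i j
    have h1 := row_of_com h j
    fin_cases i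
    · simp only [chN, Matrix.of_apply, Fin.zero_eta, Matrix.cons_val_zero, smul_smul, Pi.smul_apply,
        smul_eq_mul]
      rw [mul_inv_cancel₀ hb, one_mul]
    · have e2 : (((N 0 1)⁻¹ • N' 0) ᵥ* N) j =
          (N 0 1)⁻¹ * (N' 0 0 * N 0 j + N' 0 1 * N 1 j + N' 0 2 * N 2 j) := by
        simp only [Matrix.vecMul, dotProduct, Fin.sum_univ_three, Pi.smul_apply, smul_eq_mul]
        ring
      show N' 1 j = (((N 0 1)⁻¹ • N' 0) ᵥ* N) j - N 0 0 * ((N 0 1)⁻¹ * N' 0 j) -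
        N 0 2 * ((N 0 1)⁻¹ * N' 2 j)
      rw [e2, ← h1]
      field_simp
      ring
    · show N' 2 j = N 0 1 * ((N 0 1)⁻¹ * N' 2 j)
      rw [← mul_assoc, mul_inv_cancel₀ hb, one_mul]
  rw [e]
  exact cl_chart N M M' _ _

theorem isPoly_line3 (A B : Matrix (Fin 3) (Fin 3) k) (i j : Fin 3) :
    IsPoly fun s : k => (A + s • B) i j :=
  (D7.IsPoly.const (A i j)).add (D7.IsPoly.id.mul (D7.IsPoly.const (B i j)))

/-- lines through `TA N N' M M'` -/
theorem qa_line [CharZero k] {N N' R R' : Matrix (Fin 3) (Fin 3) k}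
    (M M' : Matrix (Fin 3) (Fin 3) k) {E : Set k} (hE : E.Finite)
    (h : ∀ s ∉ E, Cl (TA (N + s • R) (N' + s • R') M M')) : Cl (TA N N' M M') := by
  have : Infinite k := Infinite.of_injective (Nat.cast : ℕ → k) Nat.cast_injective
  have h1 := cl_close (c := fun s => TA (N + s • R) (N' + s • R') M M')
    (polyFam_TA (isPoly_line3 N R) (isPoly_line3 N' R') (fun _ _ => D7.IsPoly.const _)
      (fun _ _ => D7.IsPoly.const _)) hE h
  simpa using h1

theorem qa_02 [CharZero k] {N N' : Matrix (Fin 3) (Fin 3) k} (h : com N N' 0 = 0)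
    (hb : N 0 2 ≠ 0) (M M' : Matrix (Fin 3) (Fin 3) k) : Cl (TA N N' M M') := by
  have hrow := row_of_com h
  refine qa_line (R := Matrix.of ![![0, 1, 0], 0, 0])
    (R' := Matrix.of ![0, 0, (N 0 2)⁻¹ • (Pi.single 1 (N' 0 0) - N' 1)]) M M'
    (Set.finite_singleton (-N 0 1)) fun s hs => ?_
  refine qa_01 (com_of_row fun j => ?_) (fun h0 => hs ?_) M M'
  · have h1 := hrow j
    have h2 : N 0 2 * (s * ((N 0 2)⁻¹ * ((Pi.single 1 (N' 0 0) : Fin 3 → k) j - N' 1 j))) =
        s * ((Pi.single 1 (N' 0 0) : Fin 3 → k) j - N' 1 j) := by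
      field_simp
    have h3 : (Pi.single 1 (N' 0 0) : Fin 3 → k) j = N' 0 0 * (![0, 1, 0] : Fin 3 → k) j := by
      fin_cases j <;> simp
    rw [h3] at h2
    simp only [Matrix.add_apply, Matrix.smul_apply, Matrix.of_apply, Matrix.cons_val_zero,
      Matrix.cons_val_one, Matrix.cons_val_two, Matrix.head_cons, Matrix.tail_cons, smul_eq_mul,
      Pi.zero_apply, Pi.smul_apply, Pi.sub_apply, h3]
    linear_combination h1 + h2
  · have h1 : N 0 1 + s = 0 := by
      simpa using h0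
    rw [Set.mem_singleton_iff]
    linear_combination h1

/-- conjugation of the triples -/
theorem cl_conj31 {N M N' M' : Matrix (Fin 3) (Fin 3) k} {w th w' th' : Fin 3 → k}
    {g h : Matrix (Fin 3) (Fin 3) k} (hg : g * h = 1)
    (H : Cl (T31 (g * N * h) (g * M * h) (w ᵥ* h) (g *ᵥ th) (g * N' * h) (g * M' * h) (w' ᵥ* h)
      (g *ᵥ th'))) : Cl (T31 N M w th N' M' w' th') := by
  have hh : h * g = 1 := mul_eq_one_comm.1 hg
  have e1 : GX h (1 : Matrix (Fin 0) (Fin 0) k) (1 : Matrix (Fin 1) (Fin 1) k) *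
      GX g (1 : Matrix (Fin 0) (Fin 0) k) (1 : Matrix (Fin 1) (Fin 1) k) = 1 := by
    rw [GX_mul, hh, mul_one, mul_one, GX_one]
  have e2 : GX g (1 : Matrix (Fin 0) (Fin 0) k) (1 : Matrix (Fin 1) (Fin 1) k) *
      GX h (1 : Matrix (Fin 0) (Fin 0) k) (1 : Matrix (Fin 1) (Fin 1) k) = 1 := by
    rw [GX_mul, hg, mul_one, mul_one, GX_one]
  have key : ∀ (N M : Matrix (Fin 3) (Fin 3) k) (w th : Fin 3 → k),
      GX h (1 : Matrix (Fin 0) (Fin 0) k) (1 : Matrix (Fin 1) (Fin 1) k) *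
        B31 (g * N * h) (g * M * h) (w ᵥ* h) (g *ᵥ th) *
        GX g (1 : Matrix (Fin 0) (Fin 0) k) (1 : Matrix (Fin 1) (Fin 1) k) = B31 N M w th := by
    intro N M w th
    have a1 : ∀ X : Matrix (Fin 3) (Fin 3) k, h * (g * X * h) * g = X := by
      intro X
      calc h * (g * X * h) * g = (h * g) * X * (h * g) := by simp only [Matrix.mul_assoc]
        _ = X := by rw [hh, one_mul, mul_one]
    have a2 : (Matrix.of fun (_ : Fin 1) (j : Fin 3) => (w ᵥ* h) j) * g =
        Matrix.of fun (_ : Fin 1) (j : Fin 3) => w j := by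
      ext i j
      have h5 : ((w ᵥ* h) ᵥ* g) j = w j := by rw [vecMul_vecMul, hh, vecMul_one]
      exact h5
    have a3 : h * (Matrix.of fun (i : Fin 3) (_ : Fin 1) => (g *ᵥ th) i) =
        Matrix.of fun (i : Fin 3) (_ : Fin 1) => th i := by
      ext i j
      have h5 : (h *ᵥ (g *ᵥ th)) i = th i := by rw [mulVec_mulVec, hh, one_mulVec]
      exact h5
    rw [B31, GX_conj, a1, a1, B31]
    simp only [Matrix.one_mul, Matrix.mul_one, a2, a3]
    congr 1 <;> exact Subsingleton.elim _ _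
  have h1 := Cl.conj _ _ e1 e2 H
  have h2 : (fun i => GX h (1 : Matrix (Fin 0) (Fin 0) k) (1 : Matrix (Fin 1) (Fin 1) k) *
      (T31 (g * N * h) (g * M * h) (w ᵥ* h) (g *ᵥ th) (g * N' * h) (g * M' * h) (w' ᵥ* h)
      (g *ᵥ th')) i * GX g (1 : Matrix (Fin 0) (Fin 0) k) (1 : Matrix (Fin 1) (Fin 1) k)) =
      T31 N M w th N' M' w' th' := by
    funext i
    fin_cases i
    · exact GX_JX (hg := hh) (hh := one_mul 1) (l := 1) (l' := 1)
    · exact key N M w th
    · exact key N' M' w' th'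
  rwa [h2] at h1

/-- exchange of the second and third matrix -/
theorem cl_swap31 {N M N' M' : Matrix (Fin 3) (Fin 3) k} {w th w' th' : Fin 3 → k}
    (H : Cl (T31 N' M' w' th' N M w th)) : Cl (T31 N M w th N' M' w' th') := by
  refine cl_of_adj (T' := T31 N' M' w' th' N M w th) (fun i => ?_) H
  fin_cases i
  · exact mem_adj _ 0
  · exact mem_adj _ 2
  · exact mem_adj _ 1

/-- the permutation matrix which exchanges `e_1` and `e_2` -/
def sg (k : Type*) [Field k] : Matrix (Fin 3) (Fin 3) k := !![1, 0, 0; 0, 0, 1; 0, 1, 0]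

theorem sg_sg : sg k * sg k = 1 := by
  ext i j
  fin_cases i <;> fin_cases j <;> simp [sg, Matrix.mul_apply, Fin.sum_univ_three]

theorem com_sg (N N' : Matrix (Fin 3) (Fin 3) k) :
    com (sg k * N' * sg k) (sg k * N * sg k) = -(sg k * com N N' * sg k) := by
  have a : ∀ X Y : Matrix (Fin 3) (Fin 3) k,
      sg k * X * sg k * (sg k * Y * sg k) = sg k * (X * Y) * sg k := by
    intro X Y
    calc sg k * X * sg k * (sg k * Y * sg k) = sg k * X * (sg k * sg k) * Y * sg k := by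
          simp only [Matrix.mul_assoc]
      _ = _ := by rw [sg_sg, Matrix.mul_one]; simp only [Matrix.mul_assoc]
  rw [com, a, a, com, Matrix.mul_sub, Matrix.sub_mul, neg_sub]

theorem sg_row (X : Matrix (Fin 3) (Fin 3) k) (j : Fin 3) :
    (sg k * X * sg k) 0 j = (X 0 ᵥ* sg k) j ∧ (sg k * X * sg k) 1 j = (X 2 ᵥ* sg k) j ∧
      (sg k * X * sg k) 2 j = (X 1 ᵥ* sg k) j := by
  fin_cases j <;>
    simp [sg, Matrix.mul_apply, Fin.sum_univ_three, Matrix.vecMul, dotProduct]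

theorem qa_sg {N N' M M' : Matrix (Fin 3) (Fin 3) k}
    (H : Cl (TA (sg k * N' * sg k) (sg k * N * sg k) (sg k * M' * sg k) (sg k * M * sg k))) :
    Cl (TA N N' M M') := by
  refine cl_swap31 (cl_conj31 (g := sg k) (h := sg k) sg_sg ?_)
  have e1 : sg k *ᵥ (Pi.single 2 1 : Fin 3 → k) = Pi.single 1 1 := by
    ext i
    fin_cases i <;> simp [sg, Matrix.mulVec, dotProduct, Fin.sum_univ_three]
  have e2 : sg k *ᵥ (Pi.single 1 1 : Fin 3 → k) = Pi.single 2 1 := by
    ext i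
    fin_cases i <;> simp [sg, Matrix.mulVec, dotProduct, Fin.sum_univ_three]
  have e3 : (-com N N' 1) ᵥ* sg k = com (sg k * N' * sg k) (sg k * N * sg k) 2 := by
    ext j
    rw [com_sg, Matrix.neg_apply, (sg_row _ j).2.2, neg_vecMul, Pi.neg_apply]
  have e4 : com N N' 2 ᵥ* sg k = -com (sg k * N' * sg k) (sg k * N * sg k) 1 := by
    ext j
    rw [com_sg, Pi.neg_apply, Matrix.neg_apply, (sg_row _ j).2.1, neg_neg]
  rw [e1, e2, e3, e4]
  exact H

theorem com_sg0 {N N' : Matrix (Fin 3) (Fin 3) k} (h : com N N' 0 = 0) :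
    com (sg k * N' * sg k) (sg k * N * sg k) 0 = 0 := by
  ext j
  rw [com_sg, Matrix.neg_apply, (sg_row _ j).1, h, zero_vecMul, Pi.zero_apply, neg_zero]

theorem qa_0102 [CharZero k] {N N' : Matrix (Fin 3) (Fin 3) k} (h : com N N' 0 = 0)
    (hb : N 0 1 ≠ 0 ∨ N 0 2 ≠ 0 ∨ N' 0 1 ≠ 0 ∨ N' 0 2 ≠ 0) (M M' : Matrix (Fin 3) (Fin 3) k) :
    Cl (TA N N' M M') := by
  rcases hb with hb | hb | hb | hb
  · exact qa_01 h hb M M'
  · exact qa_02 h hb M M'
  · refine qa_sg (qa_02 (com_sg0 h) ?_ _ _)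
    rw [(sg_row _ _).1]
    simpa [sg, Matrix.vecMul, dotProduct, Fin.sum_univ_three] using hb
  · refine qa_sg (qa_01 (com_sg0 h) ?_ _ _)
    rw [(sg_row _ _).1]
    simpa [sg, Matrix.vecMul, dotProduct, Fin.sum_univ_three] using hb

/-- subtracting multiples of the first matrix -/
theorem cl_sub31 (x y : k) {N M N' M' : Matrix (Fin 3) (Fin 3) k} {w th w' th' : Fin 3 → k}
    (H : Cl (T31 (N - x • 1) M w th (N' - y • 1) M' w' th')) :
    Cl (T31 N M w th N' M' w' th') := by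
  refine cl_of_adj (T' := T31 (N - x • 1) M w th (N' - y • 1) M' w' th') (fun i => ?_) H
  have h0 := mem_adj (T31 (N - x • 1) M w th (N' - y • 1) M' w' th') 0
  have h1 := mem_adj (T31 (N - x • 1) M w th (N' - y • 1) M' w' th') 1
  have h2 := mem_adj (T31 (N - x • 1) M w th (N' - y • 1) M' w' th') 2
  have e : ∀ (x : k) (N M : Matrix (Fin 3) (Fin 3) k) (w th : Fin 3 → k),
      B31 N M w th = B31 (N - x • 1) M w th + x • JX k 3 0 1 := by
    intro x N M w th
    rw [JX_eq, B31_smul, B31_add, smul_zero, smul_zero, add_zero, add_zero, add_zero,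
      sub_add_cancel]
  fin_cases i
  · exact h0
  · show B31 N M w th ∈ _
    rw [e x]
    exact add_mem h1 (SMulMemClass.smul_mem x h0)
  · show B31 N' M' w' th' ∈ _
    rw [e y]
    exact add_mem h2 (SMulMemClass.smul_mem y h0)

theorem com_sub (x y : k) (N N' : Matrix (Fin 3) (Fin 3) k) :
    com (N - x • 1) (N' - y • 1) = com N N' := by
  rw [com, com]
  simp only [sub_mul, mul_sub, smul_mul_assoc, mul_smul_comm, one_mul, mul_one, smul_sub]
  module

theorem qa_sub (x y : k) {N N' M M' : Matrix (Fin 3) (Fin 3) k}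
    (H : Cl (TA (N - x • 1) (N' - y • 1) M M')) : Cl (TA N N' M M') := by
  refine cl_sub31 x y ?_
  rw [TA, com_sub] at H
  exact H

/-- all triples `TA N N' M M'` which commute are limits of curvilinear triples -/
theorem qa_all [CharZero k] {N N' : Matrix (Fin 3) (Fin 3) k} (h : com N N' 0 = 0)
    (M M' : Matrix (Fin 3) (Fin 3) k) : Cl (TA N N' M M') := by
  by_cases hb : N 0 1 ≠ 0 ∨ N 0 2 ≠ 0 ∨ N' 0 1 ≠ 0 ∨ N' 0 2 ≠ 0
  · exact qa_0102 h hb M M'
  simp only [not_or, not_not] at hb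
  obtain ⟨h1, h2, h3, h4⟩ := hb
  refine qa_sub (N 0 0) (N' 0 0) ?_
  set X := N - N 0 0 • (1 : Matrix (Fin 3) (Fin 3) k) with hX
  set X' := N' - N' 0 0 • (1 : Matrix (Fin 3) (Fin 3) k) with hX'
  have x0 : ∀ j, X 0 j = 0 := by
    intro j
    rw [hX]
    fin_cases j
    · simp
    · simp [h1]
    · simp [h2]
  have x0' : ∀ j, X' 0 j = 0 := by
    intro j
    rw [hX']
    fin_cases j
    · simp
    · simp [h3]
    · simp [h4]
  -- four unknowns, three equations
  obtain ⟨v, hv0, hv⟩ : ∃ v : Fin 4 → k, v ≠ 0 ∧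
      ∀ j, v 0 * X' 1 j + v 1 * X' 2 j = v 2 * X 1 j + v 3 * X 2 j := by
    let L : (Fin 4 → k) →ₗ[k] (Fin 3 → k) :=
      (Matrix.of ![X' 1, X' 2, -X 1, -X 2] : Matrix (Fin 4) (Fin 3) k).vecMulLinear
    have hL : LinearMap.ker L ≠ ⊥ := LinearMap.ker_ne_bot_of_finrank_lt (by simp)
    obtain ⟨v, hv, hv0⟩ := (Submodule.ne_bot_iff _).1 hL
    refine ⟨v, hv0, fun j => ?_⟩
    have h5 := congrFun (LinearMap.mem_ker.1 hv) j
    have h7 : L v j = v 0 * X' 1 j + v 1 * X' 2 j + v 2 * (-X 1 j) + v 3 * (-X 2 j) := by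
      simp [L, Matrix.vecMul, dotProduct, Fin.sum_univ_four]
    have h6 : v 0 * X' 1 j + v 1 * X' 2 j + v 2 * (-X 1 j) + v 3 * (-X 2 j) = 0 := by
      rw [← h7]
      exact h5
    linear_combination h6
  refine qa_line (R := Matrix.of ![![0, v 0, v 1], 0, 0]) (R' := Matrix.of ![![0, v 2, v 3], 0, 0])
    M M' (Set.finite_singleton 0) fun s hs => ?_
  have hs' : s ≠ 0 := by simpa using hs
  refine qa_0102 (com_of_row fun j => ?_) ?_ M M'
  · have h5 := hv j
    have h6 := x0 j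
    have h7 := x0' j
    have h8 := x0 0
    have h9 := x0 1
    have h10 := x0 2
    have h11 := x0' 0
    have h12 := x0' 1
    have h13 := x0' 2
    simp only [Matrix.add_apply, Matrix.smul_apply, Matrix.of_apply, Matrix.cons_val_zero,
      Matrix.cons_val_one, Matrix.cons_val_two, Matrix.head_cons, Matrix.tail_cons, smul_eq_mul,
      Pi.zero_apply, h6, h7, h8, h9, h10, h11, h12, h13, mul_zero, add_zero, zero_add, zero_mul]
    linear_combination s * h5
  · by_contra hcon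
    simp only [not_or, not_not] at hcon
    obtain ⟨c1, c2, c3, c4⟩ := hcon
    apply hv0
    ext i
    simp only [Matrix.add_apply, Matrix.smul_apply, Matrix.of_apply, Matrix.cons_val_zero,
      Matrix.cons_val_one, Matrix.cons_val_two, Matrix.head_cons, Matrix.tail_cons, smul_eq_mul,
      x0, x0', zero_add, mul_eq_zero, hs', false_or] at c1 c2 c3 c4
    fin_cases i
    · exact c1
    · exact c2
    · exact c3
    · exact c4

end T3331Aux

end Pool.Agent.Lib.D13
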