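import Pool.Agent.Lib.D13.T3331A
import Pool.Agent.Lib.D13.C343

/-!
# MP_5dcbc3_ag: type (3,3,3,1), the chart consists of limits of curvilinear triples

The base point is `k[t] / t ^ 10` with the operators `t ^ 4 + t`, `- t ^ 3`, `- 2 t`. Bases:
`E_0`: 1, t, t^2; `E_1`: t^4, t^5, t^3 + t^6; `P`: t^3 - t^6; `E_2`: t^8, t^9, 2 t^7.
-/

set_option autoImplicit false

namespace Pool.Agent.Lib.D13

open Matrix Pool.Agent.Lib.Q5dc Pool.Agent.Lib.D7 Pool.Agent.Lib.D9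

namespace T3331Aux

open Pool.Agent.Lib.D9.DensX

variable {k : Type*} [Field k]

/-- the levels of the blocks -/
def lev : Ix 3 0 1 → ℕ
  | .inl (.inl _) => 0
  | .inl (.inr (.inl _)) => 1
  | .inl (.inr (.inr _)) => 2
  | .inr (.inl (.inl _)) => 0
  | .inr (.inl (.inr _)) => 0
  | .inr (.inr _) => 1

/-- the powers of `t` in the bases of the blocks -/
def Pm (k : Type*) [Field k] : Matrix (Ix 3 0 1) (Fin (9 + 1)) k :=
  Matrix.of fun i => match i with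
    | .inl (.inl i) => (![![1, 0, 0, 0, 0, 0, 0, 0, 0, 0], ![0, 1, 0, 0, 0, 0, 0, 0, 0, 0],
        ![0, 0, 1, 0, 0, 0, 0, 0, 0, 0]] : Fin 3 → Fin 10 → k) i
    | .inl (.inr (.inl i)) => (![![0, 0, 0, 0, 1, 0, 0, 0, 0, 0], ![0, 0, 0, 0, 0, 1, 0, 0, 0, 0],
        ![0, 0, 0, 1 / 2, 0, 0, 1 / 2, 0, 0, 0]] : Fin 3 → Fin 10 → k) i
    | .inl (.inr (.inr i)) => (![![0, 0, 0, 0, 0, 0, 0, 0, 1, 0], ![0, 0, 0, 0, 0, 0, 0, 0, 0, 1],
        ![0, 0, 0, 0, 0, 0, 0, 1 / 2, 0, 0]] : Fin 3 → Fin 10 → k) i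
    | .inr (.inl (.inl i)) => i.elim0
    | .inr (.inl (.inr i)) => i.elim0
    | .inr (.inr _) => (![0, 0, 0, 1 / 2, 0, 0, -(1 / 2), 0, 0, 0] : Fin 10 → k)

/-- the inverse -/
def Qm (k : Type*) [Field k] : Matrix (Fin (9 + 1)) (Ix 3 0 1) k :=
  Matrix.of fun x i => match i with
    | .inl (.inl i) => (![![1, 0, 0, 0, 0, 0, 0, 0, 0, 0], ![0, 1, 0, 0, 0, 0, 0, 0, 0, 0],
        ![0, 0, 1, 0, 0, 0, 0, 0, 0, 0]] : Fin 3 → Fin 10 → k) i x
    | .inl (.inr (.inl i)) => (![![0, 0, 0, 0, 1, 0, 0, 0, 0, 0], ![0, 0, 0, 0, 0, 1, 0, 0, 0, 0],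
        ![0, 0, 0, 1, 0, 0, 1, 0, 0, 0]] : Fin 3 → Fin 10 → k) i x
    | .inl (.inr (.inr i)) => (![![0, 0, 0, 0, 0, 0, 0, 0, 1, 0], ![0, 0, 0, 0, 0, 0, 0, 0, 0, 1],
        ![0, 0, 0, 0, 0, 0, 0, 2, 0, 0]] : Fin 3 → Fin 10 → k) i x
    | .inr (.inl (.inl i)) => i.elim0
    | .inr (.inl (.inr i)) => i.elim0
    | .inr (.inr _) => (![0, 0, 0, 1, 0, 0, -1, 0, 0, 0] : Fin 10 → k) x

theorem PQ [CharZero k] : Pm k * Qm k = 1 := by
  ext i j
  rcases i with (i | i | i) | ((i | i) | i) <;> rcases j with (j | j | j) | ((j | j) | j) <;>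
    first
    | exact i.elim0
    | exact j.elim0
    | (fin_cases i <;> fin_cases j <;>
        simp [Pm, Qm, Matrix.mul_apply, Fin.sum_univ_succ, Matrix.one_apply] <;> norm_num)

theorem QP [CharZero k] : Qm k * Pm k = 1 := mul_eq_one_comm_of_card_eq _ _ _ (by simp) |>.1 PQ

theorem cert343 [CharZero k] (κ : ℕ) (hκ : 1 ≤ κ) :
    Cert C343.w (Sh k 9) (fun i => Sh k 9 ^ C343.av i) κ := by
  rcases Nat.lt_or_ge κ 3 with h | h
  · interval_cases κ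
    · exact C343.cert1
    · exact C343.cert2
  · refine cert_top fun x => ?_
    have : C343.w x ≤ 2 := by
      fin_cases x <;> decide
    omega

end T3331Aux

end Pool.Agent.Lib.D13
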