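import Pool.Agent.Lib.D13.T3331C

/-!
# MP_5dcbc3_ag: type (3,3,3,1), the chart theorem
-/

set_option autoImplicit false

namespace Pool.Agent.Lib.D13

open Matrix Pool.Agent.Lib.Q5dc Pool.Agent.Lib.D7 Pool.Agent.Lib.D9

namespace T3331Aux

open Pool.Agent.Lib.D9.DensX

variable {k : Type*} [Field k]

/-- the matrix `N` of the base point -/
def Nb (k : Type*) [Field k] : Matrix (Fin 3) (Fin 3) k :=
  !![0, -1, 0; 0, 0, -1; -(1 / 2), 0, 0]

theorem chN_b : chN (Nb k) 0 ![0, 0, 1] = !![0, 0, 0; 0, 0, 0; 0, 0, -1] := by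
  ext i j
  fin_cases i <;> fin_cases j <;> simp [chN, Nb]

theorem com_b [CharZero k] : com (Nb k) !![0, 0, 0; 0, 0, 0; 0, 0, -1] =
    !![0, 0, 0; 0, 0, 1; -(1 / 2), 0, 0] := by
  ext i j
  fin_cases i <;> fin_cases j <;>
    simp [com, Nb, Matrix.mul_apply, Fin.sum_univ_three]

theorem B31_low {N M : Matrix (Fin 3) (Fin 3) k} {w th : Fin 3 → k} {a b : Ix 3 0 1}
    (h : lev a ≤ lev b) : B31 N M w th a b = 0 := by
  rcases a with (a | a | a) | ((a | a) | a) <;> rcases b with (b | b | b) | ((b | b) | b) <;>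
    first
    | rfl
    | exact a.elim0
    | exact b.elim0
    | (exfalso; revert h; simp [lev])

/-- the recombined triple -/
def rc (T : Fin 3 → Matrix (Ix 3 0 1) (Ix 3 0 1) k) : Fin 3 → Matrix (Ix 3 0 1) (Ix 3 0 1) k :=
  ![(-(1 / 2) : k) • T 2, (-1 : k) • T 1, T 0 + (1 / 2 : k) • T 2]

theorem rc_comm {T : Fin 3 → Matrix (Ix 3 0 1) (Ix 3 0 1) k} (h : ∀ i j, T i * T j = T j * T i)
    (i j : Fin 3) : rc T i * rc T j = rc T j * rc T i := by
  fin_cases i <;> fin_cases j <;>
    simp [rc, Matrix.mul_add, Matrix.add_mul, h 2 0, h 2 1, h 1 0]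

theorem rc_poly {T : k → Fin 3 → Matrix (Ix 3 0 1) (Ix 3 0 1) k} (h : PolyFam T) :
    PolyFam fun s => rc (T s) := by
  intro i x y
  fin_cases i
  · exact (D7.IsPoly.const _).mul (h 2 x y)
  · exact (D7.IsPoly.const _).mul (h 1 x y)
  · exact D7.IsPoly.add (f := fun s => T s 0 x y) (h 0 x y) ((D7.IsPoly.const _).mul (h 2 x y))

theorem rc_zero {T : Fin 3 → Matrix (Ix 3 0 1) (Ix 3 0 1) k} {a b : Ix 3 0 1}
    (h : ∀ i, T i a b = 0) (i : Fin 3) : rc T i a b = 0 := by
  fin_cases i <;> simp [rc, h]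

theorem cl_rc [CharZero k] {T : Fin 3 → Matrix (Ix 3 0 1) (Ix 3 0 1) k} (h : Cl (rc T)) :
    Cl T := by
  refine cl_of_adj (T' := rc T) (fun i => ?_) h
  have h0 := mem_adj (rc T) 0
  have h1 := mem_adj (rc T) 1
  have h2 := mem_adj (rc T) 2
  fin_cases i
  · have e : T 0 = rc T 0 + rc T 2 := by
      simp only [rc, Matrix.cons_val_zero, Matrix.cons_val_two, Matrix.tail_cons, Matrix.head_cons]
      rw [neg_smul]
      abel
    show T 0 ∈ _
    rw [e]
    exact add_mem h0 h2
  · have e : T 1 = (-1 : k) • rc T 1 := by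
      simp [rc]
    show T 1 ∈ _
    rw [e]
    exact SMulMemClass.smul_mem _ h1
  · have e : T 2 = (-2 : k) • rc T 0 := by
      simp only [rc, Matrix.cons_val_zero, smul_smul]
      norm_num
    show T 2 ∈ _
    rw [e]
    exact SMulMemClass.smul_mem _ h0

/-- the part of degree one of the base point -/
def Yb (k : Type*) [Field k] (i : Fin 3) : Matrix (Fin (9 + 1)) (Fin (9 + 1)) k :=
  Matrix.of fun x y => if (x : ℕ) = (y : ℕ) + C343.av i ∧ C343.w x = C343.w y + 1 then 1 else 0

theorem base0 [CharZero k] : ((-(1 / 2) : k) •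
    B31 !![0, 0, 0; 0, 0, 0; 0, 0, -1] 0 (-(![0, 0, 1] : Fin 3 → k)) (Pi.single 2 1)) * Pm k =
      Pm k * Yb k 0 := by
  ext a y
  rcases a with (a | a | a) | ((a | a) | a)
  · fin_cases a <;> fin_cases y <;>
      simp [Pm, Yb, B31, BX, Nb, Matrix.mul_apply, Fin.sum_univ_succ, C343.av,
        C343.w] <;> norm_num
  · fin_cases a <;> fin_cases y <;>
      simp [Pm, Yb, B31, BX, Nb, Matrix.mul_apply, Fin.sum_univ_succ, C343.av,
        C343.w] <;> norm_num
  · fin_cases a <;> fin_cases y <;>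
      simp [Pm, Yb, B31, BX, Nb, Matrix.mul_apply, Fin.sum_univ_succ, C343.av,
        C343.w] <;> norm_num
  · exact a.elim0
  · exact a.elim0
  · fin_cases a <;> fin_cases y <;>
      simp [Pm, Yb, B31, BX, Nb, Matrix.mul_apply, Fin.sum_univ_succ, C343.av,
        C343.w] <;> norm_num

theorem base1 [CharZero k] : ((-1 : k) • B31 (Nb k) 0 ![-(1 / 2), 0, 0] (Pi.single 1 1)) * Pm k =
      Pm k * Yb k 1 := by
  ext a y
  rcases a with (a | a | a) | ((a | a) | a)
  · fin_cases a <;> fin_cases y <;>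
      simp [Pm, Yb, B31, BX, Nb, Matrix.mul_apply, Fin.sum_univ_succ, C343.av,
        C343.w] <;> norm_num
  · fin_cases a <;> fin_cases y <;>
      simp [Pm, Yb, B31, BX, Nb, Matrix.mul_apply, Fin.sum_univ_succ, C343.av,
        C343.w] <;> norm_num
  · fin_cases a <;> fin_cases y <;>
      simp [Pm, Yb, B31, BX, Nb, Matrix.mul_apply, Fin.sum_univ_succ, C343.av,
        C343.w] <;> norm_num
  · exact a.elim0
  · exact a.elim0
  · fin_cases a <;> fin_cases y <;>
      simp [Pm, Yb, B31, BX, Nb, Matrix.mul_apply, Fin.sum_univ_succ, C343.av,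
        C343.w] <;> norm_num

theorem base2 [CharZero k] : (JX k 3 0 1 + (1 / 2 : k) •
    B31 !![0, 0, 0; 0, 0, 0; 0, 0, -1] 0 (-(![0, 0, 1] : Fin 3 → k)) (Pi.single 2 1)) * Pm k =
      Pm k * Yb k 2 := by
  rw [JX_eq, Matrix.one_fin_three]
  ext a y
  rcases a with (a | a | a) | ((a | a) | a)
  · fin_cases a <;> fin_cases y <;>
      simp [Pm, Yb, B31, BX, Nb, Matrix.mul_apply, Fin.sum_univ_succ, C343.av,
        C343.w] <;> norm_num
  · fin_cases a <;> fin_cases y <;>
      simp [Pm, Yb, B31, BX, Nb, Matrix.mul_apply, Fin.sum_univ_succ, C343.av,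
        C343.w] <;> norm_num
  · fin_cases a <;> fin_cases y <;>
      simp [Pm, Yb, B31, BX, Nb, Matrix.mul_apply, Fin.sum_univ_succ, C343.av,
        C343.w] <;> norm_num
  · exact a.elim0
  · exact a.elim0
  · fin_cases a <;> fin_cases y <;>
      simp [Pm, Yb, B31, BX, Nb, Matrix.mul_apply, Fin.sum_univ_succ, C343.av,
        C343.w] <;> norm_num

theorem isPoly_seg (a b : Matrix (Fin 3) (Fin 3) k) (i j : Fin 3) :
    IsPoly fun s : k => (a + s • (b - a)) i j :=
  (D7.IsPoly.const (a i j)).add (D7.IsPoly.id.mul (D7.IsPoly.const ((b - a) i j)))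

theorem isPoly_segv (a b : Fin 3 → k) (i : Fin 3) :
    IsPoly fun s : k => (a + s • (b - a)) i :=
  (D7.IsPoly.const (a i)).add (D7.IsPoly.id.mul (D7.IsPoly.const ((b - a) i)))

theorem isPoly_smul (b : Matrix (Fin 3) (Fin 3) k) (i j : Fin 3) :
    IsPoly fun s : k => (s • b) i j := D7.IsPoly.id.mul (D7.IsPoly.const (b i j))

/-- all members of the chart are limits of curvilinear triples -/
theorem cl_chart [CharZero k] (N M M' : Matrix (Fin 3) (Fin 3) k) (n0 n2 : Fin 3 → k) :
    Cl (TA N (chN N n0 n2) M M') := by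
  have : Infinite k := Infinite.of_injective (Nat.cast : ℕ → k) Nat.cast_injective
  set Ns : k → Matrix (Fin 3) (Fin 3) k := fun s => Nb k + s • (N - Nb k) with hNs
  set n0s : k → Fin 3 → k := fun s => 0 + s • (n0 - 0) with hn0
  set n2s : k → Fin 3 → k := fun s => ![0, 0, 1] + s • (n2 - ![0, 0, 1]) with hn2
  set c : k → Fin 3 → Matrix (Ix 3 0 1) (Ix 3 0 1) k :=
    fun s => TA (Ns s) (chN (Ns s) (n0s s) (n2s s)) (s • M) (s • M') with hc
  have hpoly : PolyFam c := by
    refine polyFam_TA (isPoly_seg _ _) ?_ (isPoly_smul _) (isPoly_smul _)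
    exact isPoly_chN (isPoly_seg _ _) (isPoly_segv _ _) (isPoly_segv _ _)
  have h1 : c 1 = TA N (chN N n0 n2) M M' := by
    simp only [hc, hNs, hn0, hn2, one_smul, add_sub_cancel]
  have h0 : c 0 = T31 (Nb k) 0 ![-(1 / 2), 0, 0] (Pi.single 1 1)
      !![0, 0, 0; 0, 0, 0; 0, 0, -1] 0 (-(![0, 0, 1] : Fin 3 → k)) (Pi.single 2 1) := by
    simp only [hc, hNs, hn0, hn2, zero_smul, add_zero]
    rw [chN_b, TA, com_b]
    rfl
  rw [← h1]
  refine cl_rc ?_
  refine fdc_via (w := C343.w) (N0 := Sh k 9) sh_card sh_card'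
    (X := fun i => Sh k 9 ^ C343.av i) (fun i => ⟨Polynomial.X ^ C343.av i, ?_, by simp⟩) ?_
    cert343 (Pm k) (Qm k) PQ QP (by simp) lev ?_ ?_ (fun s => rc (c s)) (rc_poly hpoly) ?_ ?_
    (Yb k) ?_ ?_ 1
  · rw [Polynomial.coeff_X_pow, if_neg]
    fin_cases i <;> decide
  · intro i x y hxy
    rw [Sh_pow, Matrix.of_apply, if_neg]
    revert hxy
    revert x y
    fin_cases i <;> decide
  · intro a x hax
    rcases a with (a | a | a) | ((a | a) | a)
    · fin_cases a <;> fin_cases x <;> first | rfl | exact absurd rfl hax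
    · fin_cases a <;> fin_cases x <;> first | rfl | exact absurd rfl hax
    · fin_cases a <;> fin_cases x <;> first | rfl | exact absurd rfl hax
    · exact a.elim0
    · exact a.elim0
    · fin_cases a <;> fin_cases x <;> first | rfl | exact absurd rfl hax
  · intro x a hax
    rcases a with (a | a | a) | ((a | a) | a)
    · fin_cases a <;> fin_cases x <;> first | rfl | exact absurd rfl hax
    · fin_cases a <;> fin_cases x <;> first | rfl | exact absurd rfl hax
    · fin_cases a <;> fin_cases x <;> first | rfl | exact absurd rfl hax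
    · exact a.elim0
    · exact a.elim0
    · fin_cases a <;> fin_cases x <;> first | rfl | exact absurd rfl hax
  · intro s i j
    exact rc_comm (TA_comm (com_chN _ _ _)) i j
  · intro s i a b hab
    refine rc_zero (fun i => ?_) i
    fin_cases i
    · show JX k 3 0 1 a b = 0
      rw [JX_eq]
      exact B31_low hab
    · exact B31_low hab
    · exact B31_low hab
  · intro i
    show rc (c 0) i * Pm k = Pm k * Yb k i
    rw [h0]
    fin_cases i
    · exact base0
    · exact base1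
    · exact base2
  · intro i x y hxy
    rw [Sh_pow, Yb, Matrix.of_apply, Matrix.of_apply]
    congr 1
    exact propext ⟨fun h => h.1, fun h => ⟨h, hxy⟩⟩

end T3331Aux

end Pool.Agent.Lib.D13
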