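import Pool.Agent.Lib.D13.T3331B
import Pool.Agent.Lib.D9.BlkShape

/-!
# MP_5dcbc3_ag: type (3,3,3,1), reduction to the chart, part 2
-/

set_option autoImplicit false

namespace Pool.Agent.Lib.D13

open Matrix Pool.Agent.Lib.Q5dc Pool.Agent.Lib.D7 Pool.Agent.Lib.D9

namespace T3331Aux

variable {k : Type*} [Field k]

/-- the vector product -/
def cr (u v : Fin 3 → k) : Fin 3 → k :=
  ![u 1 * v 2 - u 2 * v 1, u 2 * v 0 - u 0 * v 2, u 0 * v 1 - u 1 * v 0]

theorem cr_add (u v v' : Fin 3 → k) (s : k) : cr u (v + s • v') = cr u v + s • cr u v' := by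
  ext i
  fin_cases i <;> simp [cr] <;> ring

theorem cr_self (u : Fin 3 → k) : cr u u = 0 := by
  ext i
  fin_cases i <;> simp [cr] <;> ring

theorem cr_smul (u v : Fin 3 → k) (s : k) : cr u (s • v) = s • cr u v := by
  ext i
  fin_cases i <;> simp [cr] <;> ring

theorem cr_anti (u v : Fin 3 → k) : cr v u = -cr u v := by
  ext i
  fin_cases i <;> simp [cr] <;> ring

/-- proportional vectors -/
theorem prop_of_cr {u v : Fin 3 → k} (hu : u ≠ 0) (h : cr u v = 0) : ∃ m : k, v = m • u := by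
  obtain ⟨i, hi⟩ : ∃ i, u i ≠ 0 := by
    by_contra hcon
    push Not at hcon
    exact hu (funext hcon)
  have h0 : u 1 * v 2 - u 2 * v 1 = 0 := congrFun h 0
  have h1 : u 2 * v 0 - u 0 * v 2 = 0 := congrFun h 1
  have h2 : u 0 * v 1 - u 1 * v 0 = 0 := congrFun h 2
  refine ⟨v i / u i, ?_⟩
  ext j
  rw [Pi.smul_apply, smul_eq_mul, div_mul_eq_mul_div, eq_div_iff hi]
  fin_cases i <;> fin_cases j
  · rfl
  · show v 1 * u 0 = v 0 * u 1
    linear_combination h2
  · show v 2 * u 0 = v 0 * u 2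
    linear_combination -h1
  · show v 0 * u 1 = v 1 * u 0
    linear_combination -h2
  · rfl
  · show v 2 * u 1 = v 1 * u 2
    linear_combination h0
  · show v 0 * u 2 = v 2 * u 0
    linear_combination h1
  · show v 1 * u 2 = v 2 * u 1
    linear_combination -h0
  · rfl

theorem exists_cr {u : Fin 3 → k} (hu : u ≠ 0) : ∃ v, cr u v ≠ 0 := by
  by_contra hcon
  push Not at hcon
  apply hu
  have h0 := hcon ![1, 0, 0]
  have h1 := hcon ![0, 1, 0]
  ext i
  fin_cases i
  · have := congrFun h1 2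
    simpa [cr] using this
  · have := congrFun h0 2
    simpa [cr] using this
  · have := congrFun h0 1
    simpa [cr] using this

theorem ne_comp {v : Fin 3 → k} (hv : v ≠ 0) : ∃ i, v i ≠ 0 := by
  by_contra hcon
  push Not at hcon
  exact hv (funext hcon)

theorem finite_lin (a b : k) (hb : b ≠ 0) : {s : k | a + s * b = 0}.Finite := by
  refine (Set.finite_singleton (-a / b)).subset fun s hs => ?_
  rw [Set.mem_singleton_iff, eq_div_iff hb]
  have h : a + s * b = 0 := hs
  linear_combination h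

/-- case A: `th`, `th'` independent -/
theorem cl_A [CharZero k] {N M N' M' : Matrix (Fin 3) (Fin 3) k} {w th w' th' : Fin 3 → k}
    (h : N * N' + vecMulVec th w' = N' * N + vecMulVec th' w) (hc : cr th th' ≠ 0) :
    Cl (T31 N M w th N' M' w' th') := by
  obtain ⟨i0, hi0⟩ := ne_comp hc
  set H : Matrix (Fin 3) (Fin 3) k := Matrix.of fun i j =>
    (![(Pi.single i0 1 : Fin 3 → k) i, th i, th' i] : Fin 3 → k) j with hH
  have hdet : H.det = cr th th' i0 := by
    rw [Matrix.det_fin_three]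
    fin_cases i0 <;> simp [hH, cr] <;> ring
  have hu : IsUnit H.det := by
    rw [hdet]
    exact isUnit_iff_ne_zero.2 hi0
  have hg : H⁻¹ * H = 1 := Matrix.nonsing_inv_mul H hu
  have hh : H * H⁻¹ = 1 := Matrix.mul_nonsing_inv H hu
  have e1 : H *ᵥ (Pi.single 1 1 : Fin 3 → k) = th := by
    ext i
    rw [Matrix.mulVec_single_one]
    rfl
  have e2 : H *ᵥ (Pi.single 2 1 : Fin 3 → k) = th' := by
    ext i
    rw [Matrix.mulVec_single_one]
    rfl
  have e3 : H⁻¹ *ᵥ th = Pi.single 1 1 := by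
    rw [← e1, mulVec_mulVec, hg, one_mulVec]
  have e4 : H⁻¹ *ᵥ th' = Pi.single 2 1 := by
    rw [← e2, mulVec_mulVec, hg, one_mulVec]
  refine cl_conj31 (g := H⁻¹) (h := H) hg ?_
  rw [e3, e4]
  have a1 : ∀ X Y : Matrix (Fin 3) (Fin 3) k,
      H⁻¹ * X * H * (H⁻¹ * Y * H) = H⁻¹ * (X * Y) * H := by
    intro X Y
    calc H⁻¹ * X * H * (H⁻¹ * Y * H) = H⁻¹ * X * (H * H⁻¹) * Y * H := by
          simp only [Matrix.mul_assoc]
      _ = _ := by rw [hh, Matrix.mul_one]; simp only [Matrix.mul_assoc]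
  have a2 : com (H⁻¹ * N * H) (H⁻¹ * N' * H) =
      vecMulVec (Pi.single 2 1) (w ᵥ* H) - vecMulVec (Pi.single 1 1) (w' ᵥ* H) := by
    have h2 : N * N' - N' * N = vecMulVec th' w - vecMulVec th w' := by
      rw [sub_eq_sub_iff_add_eq_add, h]
      abel
    rw [com, a1, a1, ← Matrix.sub_mul, ← Matrix.mul_sub, h2, Matrix.mul_sub, Matrix.sub_mul,
      mul_vecMulVec, mul_vecMulVec, vecMulVec_mul, vecMulVec_mul, e3, e4]
  have a3 : com (H⁻¹ * N * H) (H⁻¹ * N' * H) 0 = 0 := by
    rw [a2]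
    ext j
    simp [vecMulVec_apply]
  have a4 : w ᵥ* H = com (H⁻¹ * N * H) (H⁻¹ * N' * H) 2 := by
    rw [a2]
    ext j
    simp [vecMulVec_apply]
  have a5 : w' ᵥ* H = -com (H⁻¹ * N * H) (H⁻¹ * N' * H) 1 := by
    rw [a2]
    ext j
    simp [vecMulVec_apply]
  rw [a4, a5]
  exact qa_all a3 _ _

/-- closing a polynomial family of triples `T31` with constant `M`, `M'` -/
theorem cl_close31 [CharZero k] {N N' : k → Matrix (Fin 3) (Fin 3) k} {w th w' th' : k → Fin 3 → k}
    (M M' : Matrix (Fin 3) (Fin 3) k)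
    (hN : ∀ i j, IsPoly fun s => N s i j) (hN' : ∀ i j, IsPoly fun s => N' s i j)
    (hw : ∀ i, IsPoly fun s => w s i) (hth : ∀ i, IsPoly fun s => th s i)
    (hw' : ∀ i, IsPoly fun s => w' s i) (hth' : ∀ i, IsPoly fun s => th' s i)
    {E : Set k} (hE : E.Finite)
    (h : ∀ s ∉ E, Cl (T31 (N s) M (w s) (th s) (N' s) M' (w' s) (th' s))) :
    Cl (T31 (N 0) M (w 0) (th 0) (N' 0) M' (w' 0) (th' 0)) := by
  have : Infinite k := Infinite.of_injective (Nat.cast : ℕ → k) Nat.cast_injective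
  exact cl_close (c := fun s => T31 (N s) M (w s) (th s) (N' s) M' (w' s) (th' s))
    (polyFam_T31 hN (fun _ _ => D7.IsPoly.const _) hw hth hN' (fun _ _ => D7.IsPoly.const _)
      hw' hth') hE h

theorem isPoly_linev (a b : Fin 3 → k) (i : Fin 3) : IsPoly fun s : k => (a + s • b) i :=
  (D7.IsPoly.const (a i)).add (D7.IsPoly.id.mul (D7.IsPoly.const (b i)))

theorem isPoly_sv (b : Fin 3 → k) (i : Fin 3) : IsPoly fun s : k => (s • b) i :=
  D7.IsPoly.id.mul (D7.IsPoly.const (b i))

/-- `w = 0`, `th ≠ 0` -/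
theorem cl_w0 [CharZero k] {N M N' M' : Matrix (Fin 3) (Fin 3) k} {th w' th' : Fin 3 → k}
    (h : N * N' + vecMulVec th w' = N' * N) (hth : th ≠ 0) :
    Cl (T31 N M 0 th N' M' w' th') := by
  obtain ⟨v, hv⟩ := exists_cr hth
  obtain ⟨i, hi⟩ := ne_comp hv
  have h1 := cl_close31 (N := fun _ => N) (N' := fun _ => N') (w := fun _ => 0)
    (th := fun _ => th) (w' := fun _ => w') (th' := fun s => th' + s • v) M M'
    (fun _ _ => D7.IsPoly.const _) (fun _ _ => D7.IsPoly.const _) (fun _ => D7.IsPoly.const _)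
    (fun _ => D7.IsPoly.const _) (fun _ => D7.IsPoly.const _) (isPoly_linev th' v)
    (finite_lin (cr th th' i) (cr th v i) hi) (fun s hs => by
      refine cl_A ?_ (fun h0 => hs ?_)
      · rw [h, vecMulVec_zero, add_zero]
      · have h2 := congrFun h0 i
        rw [cr_add] at h2
        exact h2)
  simpa using h1

/-- `w = w' = 0` -/
theorem cl_ww0 [CharZero k] {N M N' M' : Matrix (Fin 3) (Fin 3) k} {th th' : Fin 3 → k}
    (h : N * N' = N' * N) : Cl (T31 N M 0 th N' M' 0 th') := by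
  by_cases hth : th = 0
  · subst hth
    have h1 := cl_close31 (N := fun _ => N) (N' := fun _ => N') (w := fun _ => 0)
      (th := fun s => s • ![1, 0, 0]) (w' := fun _ => 0) (th' := fun _ => th') M M'
      (fun _ _ => D7.IsPoly.const _) (fun _ _ => D7.IsPoly.const _) (fun _ => D7.IsPoly.const _)
      (isPoly_sv _) (fun _ => D7.IsPoly.const _) (fun _ => D7.IsPoly.const _)
      (Set.finite_singleton 0) (fun s hs => by
        refine cl_w0 ?_ (fun h0 => hs ?_)
        · rw [vecMulVec_zero, add_zero, h]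
        · have h2 := congrFun h0 0
          simpa using h2)
    simpa using h1
  · exact cl_w0 (by rw [vecMulVec_zero, add_zero, h]) hth

/-- `th' = w' = 0`, `th` not an eigenvector -/
theorem cl_eig [CharZero k] {N M N' M' : Matrix (Fin 3) (Fin 3) k} {w th : Fin 3 → k} (a b : k)
    (h : N * N' = N' * N) (hK : cr th ((a • N - b • N') *ᵥ th) ≠ 0) :
    Cl (T31 N M w th N' M' 0 0) := by
  set K : Matrix (Fin 3) (Fin 3) k := a • N - b • N' with hKd
  have h1 := cl_close31 (N := fun s => N + s • (b • vecMulVec th w))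
    (N' := fun s => N' + s • (a • vecMulVec th w)) (w := fun _ => w)
    (th := fun _ => th) (w' := fun s => s • (w ᵥ* K)) (th' := fun s => s • (K *ᵥ th)) M M'
    (isPoly_line3 _ _) (isPoly_line3 _ _) (fun _ => D7.IsPoly.const _)
    (fun _ => D7.IsPoly.const _) (isPoly_sv _) (isPoly_sv _)
    (Set.finite_singleton 0) (fun s hs => by
      have hs' : s ≠ 0 := by simpa using hs
      refine cl_A ?_ ?_
      · have e1 : vecMulVec th (s • (w ᵥ* K)) = s • (vecMulVec th w * K) := by
          rw [vecMulVec_smul, vecMulVec_mul]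
        have e2 : vecMulVec (s • (K *ᵥ th)) w = s • (K * vecMulVec th w) := by
          rw [smul_vecMulVec, mul_vecMulVec]
        rw [e1, e2, hKd]
        simp only [add_mul, mul_add, sub_mul, mul_sub, smul_mul_assoc, mul_smul_comm, smul_smul,
          smul_sub, h]
        have e3 : s * (b * a * s) = s * (a * b * s) := by ring
        module
      · rw [cr_smul]
        intro h0
        rcases smul_eq_zero.1 h0 with h0 | h0
        · exact hs' h0
        · exact hK h0)
  simpa using h1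

theorem quad_cr (u v : Fin 3 → k) (K : Matrix (Fin 3) (Fin 3) k) (i : Fin 3) (s : k) :
    cr (u + s • v) (K *ᵥ (u + s • v)) i = cr u (K *ᵥ u) i +
      (cr u (K *ᵥ v) i + cr v (K *ᵥ u) i) * s + cr v (K *ᵥ v) i * s ^ 2 := by
  rw [mulVec_add, mulVec_smul]
  fin_cases i <;> simp [cr] <;> ring

/-- `th' = w' = 0`, some vector is not an eigenvector -/
theorem cl_eig' [CharZero k] {N M N' M' : Matrix (Fin 3) (Fin 3) k} {w th : Fin 3 → k} (a b : k)
    (h : N * N' = N' * N) {v : Fin 3 → k} (hK : cr v ((a • N - b • N') *ᵥ v) ≠ 0) :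
    Cl (T31 N M w th N' M' 0 0) := by
  obtain ⟨i, hi⟩ := ne_comp hK
  have h1 := cl_close31 (N := fun _ => N) (N' := fun _ => N') (w := fun _ => w)
    (th := fun s => th + s • v) (w' := fun _ => 0) (th' := fun _ => 0) M M'
    (fun _ _ => D7.IsPoly.const _) (fun _ _ => D7.IsPoly.const _) (fun _ => D7.IsPoly.const _)
    (isPoly_linev _ _) (fun _ => D7.IsPoly.const _) (fun _ => D7.IsPoly.const _)
    (D8.finite_quad (a := cr th ((a • N - b • N') *ᵥ th) i)
      (b := cr th ((a • N - b • N') *ᵥ v) i + cr v ((a • N - b • N') *ᵥ th) i)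
      (c := cr v ((a • N - b • N') *ᵥ v) i) (Or.inr (Or.inr hi))) (fun s hs => by
      refine cl_eig a b h (fun h0 => hs ?_)
      have h2 := congrFun h0 i
      rw [quad_cr] at h2
      simpa using h2)
  simpa using h1

theorem scalar_of {N : Matrix (Fin 3) (Fin 3) k} (h : ∀ v, cr v (N *ᵥ v) = 0) :
    ∃ l : k, N = l • 1 := by
  have h0 := h ![1, 0, 0]
  have h1 := h ![0, 1, 0]
  have h2 := h ![0, 0, 1]
  have h3 := h ![1, 1, 0]
  have h4 := h ![1, 0, 1]
  have a1 := congrFun h0 1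
  have a2 := congrFun h0 2
  have b0 := congrFun h1 0
  have b2 := congrFun h1 2
  have c0 := congrFun h2 0
  have c1 := congrFun h2 1
  have d2 := congrFun h3 2
  have e1 := congrFun h4 1
  simp [cr, Matrix.mulVec, dotProduct, Fin.sum_univ_three] at a1 a2 b0 b2 c0 c1 d2 e1
  refine ⟨N 0 0, ?_⟩
  ext i j
  fin_cases i <;> fin_cases j <;> simp
  · exact b2
  · exact c1
  · exact a2
  · linear_combination d2 - a2 + b2
  · exact c0
  · exact a1
  · exact b0
  · linear_combination -e1 + c1 - a1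

/-- `th' = w' = 0` -/
theorem cl_B2 [CharZero k] {N M N' M' : Matrix (Fin 3) (Fin 3) k} {w th : Fin 3 → k}
    (h : N * N' = N' * N) : Cl (T31 N M w th N' M' 0 0) := by
  by_cases h1 : ∃ v, cr v (((1 : k) • N - (0 : k) • N') *ᵥ v) ≠ 0
  · obtain ⟨v, hv⟩ := h1
    exact cl_eig' 1 0 h hv
  by_cases h2 : ∃ v, cr v (((0 : k) • N - (1 : k) • N') *ᵥ v) ≠ 0
  · obtain ⟨v, hv⟩ := h2
    exact cl_eig' 0 1 h hv
  push Not at h1 h2
  simp only [one_smul, zero_smul, sub_zero, zero_sub] at h1 h2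
  obtain ⟨l, hl⟩ := scalar_of h1
  obtain ⟨m, hm⟩ := scalar_of h2
  have hm' : N' = (-m) • 1 := by
    rw [neg_smul, ← hm, neg_neg]
  have h3 := cl_close31 (N := fun s => N + s • !![0, 0, 0; 1, 0, 0; 0, 0, 0])
    (N' := fun _ => N') (w := fun _ => w) (th := fun _ => th) (w' := fun _ => 0)
    (th' := fun _ => 0) M M' (isPoly_line3 _ _) (fun _ _ => D7.IsPoly.const _)
    (fun _ => D7.IsPoly.const _) (fun _ => D7.IsPoly.const _) (fun _ => D7.IsPoly.const _)
    (fun _ => D7.IsPoly.const _) (Set.finite_singleton 0) (fun s hs => by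
      refine cl_eig' (v := ![1, 0, 0]) 1 0 ?_ (fun h0 => hs ?_)
      · rw [hm', mul_smul_comm, smul_mul_assoc, mul_one, one_mul]
      · have h4 := congrFun h0 2
        rw [hl] at h4
        simpa [cr, Matrix.mulVec, dotProduct, Fin.sum_univ_three] using h4)
  simpa using h3

/-- transposition -/
theorem cl_dual31 {N M N' M' : Matrix (Fin 3) (Fin 3) k} {w th w' th' : Fin 3 → k}
    (H : Cl (T31 Nᵀ Mᵀ th w N'ᵀ M'ᵀ th' w')) : Cl (T31 N M w th N' M' w' th') := by
  have h1 := (Cl.transpose H).conj _ _ (PX_mul_PX (k := k) (e := 3) (u := 0) (p := 1)) PX_mul_PX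
  have h2 : (fun i => PX k 3 0 1 * ((T31 Nᵀ Mᵀ th w N'ᵀ M'ᵀ th' w') i)ᵀ * PX k 3 0 1) =
      T31 N M w th N' M' w' th' := by
    have key : ∀ (N M : Matrix (Fin 3) (Fin 3) k) (w th : Fin 3 → k),
        PX k 3 0 1 * (B31 Nᵀ Mᵀ th w)ᵀ * PX k 3 0 1 = B31 N M w th := by
      intro N M w th
      rw [B31]
      refine (PX_BX ..).trans ?_
      rw [B31]
      congr 1
    funext i
    fin_cases i
    · show PX k 3 0 1 * (JX k 3 0 1)ᵀ * PX k 3 0 1 = JX k 3 0 1
      have := key 1 0 0 0
      rw [Matrix.transpose_one, Matrix.transpose_zero, ← JX_eq] at this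
      exact this
    · exact key N M w th
    · exact key N' M' w' th'
  rwa [h2] at h1

/-- `C -> C - m B` -/
theorem cl_lin31 (m : k) {N M N' M' : Matrix (Fin 3) (Fin 3) k} {w th w' th' : Fin 3 → k}
    (H : Cl (T31 N M w th (N' - m • N) (M' - m • M) (w' - m • w) (th' - m • th))) :
    Cl (T31 N M w th N' M' w' th') := by
  refine cl_of_adj (T' := T31 N M w th (N' - m • N) (M' - m • M) (w' - m • w) (th' - m • th))
    (fun i => ?_) H
  have h0 := mem_adj (T31 N M w th (N' - m • N) (M' - m • M) (w' - m • w) (th' - m • th)) 0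
  have h1 := mem_adj (T31 N M w th (N' - m • N) (M' - m • M) (w' - m • w) (th' - m • th)) 1
  have h2 := mem_adj (T31 N M w th (N' - m • N) (M' - m • M) (w' - m • w) (th' - m • th)) 2
  fin_cases i
  · exact h0
  · exact h1
  · have e : B31 N' M' w' th' = B31 (N' - m • N) (M' - m • M) (w' - m • w) (th' - m • th) +
        m • B31 N M w th := by
      rw [B31_smul, B31_add, sub_add_cancel, sub_add_cancel, sub_add_cancel, sub_add_cancel]
    show B31 N' M' w' th' ∈ _
    rw [e]
    exact add_mem h2 (SMulMemClass.smul_mem m h1)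

theorem rel_lin (m : k) {N N' : Matrix (Fin 3) (Fin 3) k} {w th w' th' : Fin 3 → k}
    (h : N * N' + vecMulVec th w' = N' * N + vecMulVec th' w) :
    N * (N' - m • N) + vecMulVec th (w' - m • w) =
      (N' - m • N) * N + vecMulVec (th' - m • th) w := by
  rw [vecMulVec_sub, sub_vecMulVec, vecMulVec_smul, smul_vecMulVec, Matrix.mul_sub, Matrix.sub_mul,
    Matrix.mul_smul, Matrix.smul_mul]
  have h1 : N * N' + vecMulVec th w' - m • (N * N) - m • vecMulVec th w =
      N' * N + vecMulVec th' w - m • (N * N) - m • vecMulVec th w := by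
    rw [h]
  rw [sub_add_sub_comm, sub_add_sub_comm, ← sub_sub, ← sub_sub]
  exact h1

/-- `th ≠ 0`, `th' = 0`, `w`, `w'` dependent -/
theorem cl_th [CharZero k] {N M N' M' : Matrix (Fin 3) (Fin 3) k} {w th w' : Fin 3 → k}
    (h : N * N' + vecMulVec th w' = N' * N + vecMulVec 0 w) (hth : th ≠ 0)
    (hw : cr w w' = 0) : Cl (T31 N M w th N' M' w' 0) := by
  by_cases hw' : w' = 0
  · subst hw'
    refine cl_B2 ?_
    simpa using h
  · obtain ⟨m, hm⟩ := prop_of_cr hw' (v := w) (by rw [cr_anti, hw, neg_zero])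
    refine cl_swap31 (cl_lin31 m (cl_swap31 ?_))
    have h1 := rel_lin (N := N') (N' := N) (w := w') (th := 0) (w' := w) (th' := th) m h.symm
    have e1 : w - m • w' = 0 := by rw [hm, sub_self]
    have e2 : th - m • (0 : Fin 3 → k) = th := by rw [smul_zero, sub_zero]
    rw [e1, e2] at h1 ⊢
    refine cl_w0 ?_ hth
    rw [← h1]
    simp

/-- all commuting triples of this form are limits of curvilinear triples -/
theorem cl_all31 [CharZero k] {N M N' M' : Matrix (Fin 3) (Fin 3) k} {w th w' th' : Fin 3 → k}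
    (h : N * N' + vecMulVec th w' = N' * N + vecMulVec th' w) :
    Cl (T31 N M w th N' M' w' th') := by
  have hd : Nᵀ * N'ᵀ + vecMulVec w th' = N'ᵀ * Nᵀ + vecMulVec w' th := by
    have h1 := congrArg Matrix.transpose h
    simp only [Matrix.transpose_add, Matrix.transpose_mul, Matrix.transpose_vecMulVec] at h1
    exact h1.symm
  by_cases hA : cr th th' = 0
  swap
  · exact cl_A h hA
  by_cases hB : cr w w' = 0
  swap
  · exact cl_dual31 (cl_A hd hB)
  by_cases hth : th = 0
  · by_cases hth' : th' = 0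
    · subst hth hth'
      refine cl_dual31 (cl_ww0 ?_)
      simpa using hd
    · subst hth
      refine cl_swap31 (cl_th ?_ hth' ?_)
      · exact h.symm
      · rw [cr_anti, hB, neg_zero]
  · obtain ⟨m, hm⟩ := prop_of_cr hth hA
    refine cl_lin31 m ?_
    have h1 := rel_lin m h
    have e1 : th' - m • th = 0 := by rw [hm, sub_self]
    rw [e1] at h1 ⊢
    refine cl_th h1 hth ?_
    have e2 : w' - m • w = w' + (-m) • w := by rw [neg_smul, sub_eq_add_neg]
    rw [e2, cr_add, hB, cr_self, smul_zero, add_zero]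

end T3331Aux

open T3331Aux

/-- type (3,3,3,1) is excluded -/
theorem no_3331 {k : Type*} [Field k] [IsAlgClosed k] [CharZero k] {ρ : ℕ → ℕ}
    {T : Fin 3 → Matrix (Ix 3 0 1) (Ix 3 0 1) k} (hT : MaxR ρ T)
    (hρ : ∀ i, ρ i = (JX k 3 0 1 ^ i).rank) (h0 : T 0 = JX k 3 0 1) : False := by
  obtain ⟨N, M, a, c, w, b, d, nu, pi, th, et, N', M', a', c', w', b', d', nu', pi', th', et',
    h⟩ := shapeX hT hρ h0
  rw [Subsingleton.elim a 0, Subsingleton.elim c 0, Subsingleton.elim b 0,
    Subsingleton.elim d 0, Subsingleton.elim nu 0, Subsingleton.elim pi 0,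
    Subsingleton.elim et 0, Subsingleton.elim a' 0, Subsingleton.elim c' 0,
    Subsingleton.elim b' 0, Subsingleton.elim d' 0,
    Subsingleton.elim nu' 0, Subsingleton.elim pi' 0,
    Subsingleton.elim et' 0] at h
  have ew : ∀ w : Matrix (Fin 1) (Fin 3) k, w = Matrix.of fun _ j => w 0 j := by
    intro w
    ext i j
    rw [Subsingleton.elim i 0]
    rfl
  have et : ∀ th : Matrix (Fin 3) (Fin 1) k, th = Matrix.of fun i _ => th i 0 := by
    intro w
    ext i j
    rw [Subsingleton.elim j 0]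
    rfl
  rw [ew w, ew w', et th, et th'] at h
  have h1 : MaxR ρ (T31 N M (w 0) (fun i => th i 0) N' M' (w' 0) (fun i => th' i 0)) := h
  refine h1.ncl (cl_all31 ?_)
  exact B31_comm.1 (h1.cn.1 1 2)

end Pool.Agent.Lib.D13
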