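import Pool.Agent.Lib.D13.S3332
import Pool.Agent.Lib.D13.Cl3332
import Pool.Agent.Lib.D13.NF4
import Pool.Agent.Lib.D13.Good
import Pool.Agent.Lib.D13.Lift
import Pool.Agent.Lib.D9.BlkShape
import Pool.Agent.Lib.D9.BlkMap

/-!
# MP_5dcbc3_ag: type (3,3,3,2) is excluded

The products of three matrices vanish, so all blocks `b` or all blocks `a` vanish; up to
transposition `b = 0`, the triple has the W-form `TW (inc k 3) P Q M M'` with `W = k^4`. After a move
`P` has a cyclic row vector; normal form `nf4`; the case `s = 0` is `cl_3332_0`, the cases `s >= 1`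
are excluded by `no_nf`.
-/

set_option autoImplicit false

namespace Pool.Agent.Lib.D13

open Matrix Pool.Agent.Lib.Q5dc Pool.Agent.Lib.D7 Pool.Agent.Lib.D9

namespace T3332Aux

open S3332Aux

variable {k : Type*} [Field k] {ρ : ℕ → ℕ}

/-- lines `P + t R` -/
theorem finite_cyc {n : ℕ} {P R : Matrix (Fin n) (Fin n) k} {om : Fin n → k}
    (h : (Matrix.of fun i : Fin n => om ᵥ* R ^ (i : ℕ)).det ≠ 0) :
    {t : k | (Matrix.of fun i : Fin n => om ᵥ* (P + t • R) ^ (i : ℕ)).det = 0}.Finite := by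
  have hpol : IsPoly fun x : k =>
      (Matrix.of fun i : Fin n => om ᵥ* (x • P + R) ^ (i : ℕ)).det := by
    refine isPoly_det fun i j => ?_
    have h1 : ∀ x y, IsPoly fun s : k => (s • P + R) x y := fun x y =>
      (D7.IsPoly.id.mul (D7.IsPoly.const _)).add (D7.IsPoly.const _)
    have h2 := isPoly_pow h1 (i : ℕ)
    have h4 : IsPoly fun s : k => ∑ a, om a * ((s • P + R) ^ (i : ℕ)) a j :=
      isPoly_sum _ fun a _ => (D7.IsPoly.const (om a)).mul (h2 a j)
    exact h4
  have hfin := hpol.finite (s₁ := 0) (by simpa using h)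
  have hfin2 := (hfin.preimage (f := fun t : k => t⁻¹) (inv_injective.injOn)).union
    (Set.finite_singleton 0)
  refine hfin2.subset fun t ht => ?_
  by_cases h0 : t = 0
  · exact Or.inr h0
  · left
    show (Matrix.of fun i : Fin n => om ᵥ* (t⁻¹ • P + R) ^ (i : ℕ)).det = 0
    have e : (Matrix.of fun i : Fin n => om ᵥ* (P + t • R) ^ (i : ℕ)) =
        Matrix.of fun (i : Fin n) (j : Fin n) => (t ^ (i : ℕ)) *
          (Matrix.of fun i : Fin n => om ᵥ* (t⁻¹ • P + R) ^ (i : ℕ)) i j := by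
      ext i j
      have h3 : P + t • R = t • (t⁻¹ • P + R) := by
        rw [smul_add, smul_smul, mul_inv_cancel₀ h0, one_smul]
      show (om ᵥ* (P + t • R) ^ (i : ℕ)) j = t ^ (i : ℕ) * (om ᵥ* (t⁻¹ • P + R) ^ (i : ℕ)) j
      rw [h3, smul_pow, Matrix.vecMul_smul]
      rfl
    have ht' : (Matrix.of fun i : Fin n => om ᵥ* (P + t • R) ^ (i : ℕ)).det = 0 := ht
    rw [e, Matrix.det_mul_column] at ht'
    rcases mul_eq_zero.1 ht' with h4 | h4
    · rw [Finset.prod_eq_zero_iff] at h4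
      obtain ⟨i, -, hi⟩ := h4
      exact absurd hi (pow_ne_zero _ h0)
    · exact h4

theorem inc_row (s : Fin 4) (X : Matrix (Fin 3) (Fin 3) k) (j : Fin 3) :
    (inc k s * X) s j = 0 ∧ ∀ l, (inc k s * X) (s.succAbove l) j = X l j := by
  constructor
  · rw [Matrix.mul_apply]
    refine Finset.sum_eq_zero fun l _ => ?_
    simp [inc, (Fin.succAbove_ne s l).symm]
  · intro l
    rw [Matrix.mul_apply, Finset.sum_eq_single l]
    · simp [inc]
    · intro b _ hb
      simp [inc, hb.symm]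
    · simp

theorem inc_left : (inc k 3)ᵀ * inc k 3 = 1 := by
  ext i j
  fin_cases i <;> fin_cases j <;> simp [inc, Matrix.mul_apply, Fin.sum_univ_four] <;> decide

/-- case I -/
theorem no_caseI [IsAlgClosed k] [CharZero k] {P Q : Matrix (Fin 4) (Fin 4) k}
    {M M' : Matrix (Fin 4) (Fin 3) k} (hT : MaxR ρ (TW (inc k 3) P Q M M')) (h3 : ρ 3 = 0) :
    False := by
  have : Infinite k := IsAlgClosed.instInfinite
  have hrel := TW_rel (hT.cn.1 1 2)
  obtain ⟨R, hR, om, hom⟩ := good Q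
  have hrelt : ∀ t : k, (P + t • R) * Q * inc k 3 = Q * (P + t • R) * inc k 3 := by
    intro t
    rw [add_mul, mul_add, Matrix.add_mul, Matrix.add_mul, hrel, smul_mul_assoc, mul_smul_comm, hR]
  obtain ⟨E, hE, h5⟩ := hT.deform (fun t => TW (inc k 3) (P + t • R) Q M M')
    (polyFam_TW _ (fun i j => (D7.IsPoly.const (P i j)).add
      (D7.IsPoly.id.mul (D7.IsPoly.const (R i j)))) (fun _ _ => D7.IsPoly.const _)
      (fun _ _ => D7.IsPoly.const _) (fun _ _ => D7.IsPoly.const _)) (by simp)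
    Set.finite_empty (fun t _ => TW_cn (hrelt t))
  obtain ⟨t, ht⟩ := (hE.union (finite_cyc (P := P) hom)).infinite_compl.nonempty
  rw [Set.mem_compl_iff, Set.mem_union, not_or] at ht
  have hT1 := h5 t ht.1
  have hrel1 := hrelt t
  have hcyc := ht.2
  rw [Set.mem_ofPred_eq] at hcyc
  generalize P + t • R = P1 at hT1 hrel1 hcyc
  -- the commutator
  have hz : P1 * Q - Q * P1 = vecMulVec (fun i => (P1 * Q - Q * P1) i 3) (Pi.single 3 1) := by
    have h6 : (P1 * Q - Q * P1) * inc k 3 = 0 := by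
      rw [Matrix.sub_mul, hrel1, sub_self]
    ext i j
    rw [vecMulVec_apply]
    refine Fin.lastCases ?_ (fun j => ?_) j
    · show _ = _ * (Pi.single 3 1 : Fin 4 → k) 3
      rw [Pi.single_eq_same, mul_one]
      rfl
    · have h7 : ((P1 * Q - Q * P1) * inc k 3) i j = 0 := by
        rw [h6]
        rfl
      have h10 : (Fin.castSucc j) = (3 : Fin 4).succAbove j := (Fin.succAbove_last_apply j).symm
      have h8 : ((P1 * Q - Q * P1) * inc k 3) i j = (P1 * Q - Q * P1) i (Fin.castSucc j) := by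
        rw [Matrix.mul_apply, Finset.sum_eq_single (Fin.castSucc j)]
        · simp [inc, ← h10]
        · intro b _ hb
          simp [inc, ← h10, hb]
        · simp
      have h9 : (Pi.single 3 1 : Fin 4 → k) (Fin.castSucc j) = 0 :=
        Pi.single_eq_of_ne (by fin_cases j <;> decide) _
      rw [← h8, h7, h9, mul_zero]
  have hφ : (Pi.single 3 1 : Fin 4 → k) ≠ 0 := by
    intro h
    have := congrFun h 3
    simp at this
  obtain ⟨g, g', s, a, f, z', hg, hφ', hP, hQ, hz'⟩ := nf4 hcyc hφ hz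
  have hg' : g' * g = 1 := mul_eq_one_comm.1 hg
  -- the inclusion
  set Y := g * inc k 3 with hY
  have hYs : ∀ j, Y s j = 0 := by
    intro j
    have h6 : (Pi.single s 1 : Fin 4 → k) ᵥ* Y = 0 := by
      rw [← hφ', hY, vecMul_vecMul, ← Matrix.mul_assoc, hg', Matrix.one_mul, single_inc]
    have h7 := congrFun h6 j
    rw [Matrix.single_one_vecMul] at h7
    exact h7
  set X : Matrix (Fin 3) (Fin 3) k := Matrix.of fun i j => Y (s.succAbove i) j with hX
  have hYX : inc k s * X = Y := by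
    ext i j
    obtain ⟨h6, h7⟩ := inc_row s X j
    by_cases hi : i = s
    · rw [hi, h6, hYs]
    · obtain ⟨l, rfl⟩ := Fin.exists_succAbove_eq hi
      rw [h7]
      rfl
  set Z := (inc k 3)ᵀ * g' * inc k s with hZ
  have hZX : Z * X = 1 := by
    rw [hZ, Matrix.mul_assoc, hYX, hY, Matrix.mul_assoc, ← Matrix.mul_assoc g', hg',
      Matrix.one_mul, inc_left]
  have hXZ : X * Z = 1 := mul_eq_one_comm.1 hZX
  have hT2 := MaxR.conjW hT1 hXZ hg
  have e1 : g * inc k 3 * Z = inc k s := by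
    rw [← hY, ← hYX, Matrix.mul_assoc, hXZ, Matrix.mul_one]
  rw [e1, hP, hQ] at hT2
  by_cases hs : s = 0
  · subst hs
    have e2 : Qz 0 a z' = 0 := rfl
    rw [e2, add_zero] at hT2
    exact hT2.ncl (cl_3332_0 a f _ _)
  · exact no_nf hs hT2 h3 hz'

/-! ### from the blocks to the W-form -/

/-- the bijection of the indices -/
def eW : Ix 3 1 0 ≃ IW 3 4 where
  toFun
    | .inl (.inl i) => .inl i
    | .inl (.inr (.inl i)) => .inr (.inl i.castSucc)
    | .inl (.inr (.inr i)) => .inr (.inr i.castSucc)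
    | .inr (.inl (.inl _)) => .inr (.inl 3)
    | .inr (.inl (.inr _)) => .inr (.inr 3)
    | .inr (.inr i) => i.elim0
  invFun
    | .inl i => .inl (.inl i)
    | .inr (.inl 0) => .inl (.inr (.inl 0))
    | .inr (.inl 1) => .inl (.inr (.inl 1))
    | .inr (.inl 2) => .inl (.inr (.inl 2))
    | .inr (.inl 3) => .inr (.inl (.inl 0))
    | .inr (.inr 0) => .inl (.inr (.inr 0))
    | .inr (.inr 1) => .inl (.inr (.inr 1))
    | .inr (.inr 2) => .inl (.inr (.inr 2))
    | .inr (.inr 3) => .inr (.inl (.inr 0))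
  left_inv := by decide
  right_inv := by decide

/-- the matrix of `W` -/
def PW (N : Matrix (Fin 3) (Fin 3) k) (a : Matrix (Fin 1) (Fin 3) k)
    (d : Matrix (Fin 3) (Fin 1) k) (nu : Matrix (Fin 1) (Fin 1) k) : Matrix (Fin 4) (Fin 4) k :=
  !![N 0 0, N 0 1, N 0 2, d 0 0; N 1 0, N 1 1, N 1 2, d 1 0; N 2 0, N 2 1, N 2 2, d 2 0;
    a 0 0, a 0 1, a 0 2, nu 0 0]

/-- the part of degree two -/
def MW (M : Matrix (Fin 3) (Fin 3) k) (c : Matrix (Fin 1) (Fin 3) k) : Matrix (Fin 4) (Fin 3) k :=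
  !![M 0 0, M 0 1, M 0 2; M 1 0, M 1 1, M 1 2; M 2 0, M 2 1, M 2 2; c 0 0, c 0 1, c 0 2]

theorem toW (N M : Matrix (Fin 3) (Fin 3) k) (a c : Matrix (Fin 1) (Fin 3) k)
    (w : Matrix (Fin 0) (Fin 3) k) (d : Matrix (Fin 3) (Fin 1) k)
    (nu : Matrix (Fin 1) (Fin 1) k) (pi : Matrix (Fin 0) (Fin 1) k)
    (th : Matrix (Fin 3) (Fin 0) k) (et : Matrix (Fin 1) (Fin 0) k) :
    Matrix.reindexAlgEquiv k k eW (BX N M a c w 0 d nu pi th et) =
      Wm (PW N a d nu * inc k 3) (MW M c) (PW N a d nu) := by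
  have s0 : (3 : Fin 4).succAbove 0 = 0 := rfl
  have s1 : (3 : Fin 4).succAbove 1 = 1 := rfl
  have s2 : (3 : Fin 4).succAbove 2 = 2 := rfl
  ext i j
  show BX N M a c w 0 d nu pi th et (eW.symm i) (eW.symm j) = _
  rcases i with i | i | i <;> rcases j with j | j | j <;> fin_cases i <;> fin_cases j <;>
    simp [eW, BX, Wm, PW, MW, inc, Matrix.mul_apply, Fin.sum_univ_four, s0, s1, s2]

theorem PW_one : PW (1 : Matrix (Fin 3) (Fin 3) k) 0 0 1 = 1 := by
  ext i j
  fin_cases i <;> fin_cases j <;> simp [PW]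

theorem MW_zero : MW (0 : Matrix (Fin 3) (Fin 3) k) 0 = 0 := by
  ext i j
  fin_cases i <;> fin_cases j <;> simp [MW]

/-- the blocks `b` vanish -/
theorem no_b0 [IsAlgClosed k] [CharZero k] {N M N' M' : Matrix (Fin 3) (Fin 3) k}
    {a c a' c' : Matrix (Fin 1) (Fin 3) k}
    {w w' : Matrix (Fin 0) (Fin 3) k} {d d' : Matrix (Fin 3) (Fin 1) k}
    {nu nu' : Matrix (Fin 1) (Fin 1) k} {pi pi' : Matrix (Fin 0) (Fin 1) k}
    {th th' : Matrix (Fin 3) (Fin 0) k} {et et' : Matrix (Fin 1) (Fin 0) k}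
    (hT : MaxR ρ ![JX k 3 1 0, BX N M a c w 0 d nu pi th et,
      BX N' M' a' c' w' 0 d' nu' pi' th' et']) (h3 : ρ 3 = 0) : False := by
  have : Infinite k := IsAlgClosed.instInfinite
  have h1 := D9.MaxR.reindex eW hT
  have h2 : (fun i => Matrix.reindexAlgEquiv k k eW ((![JX k 3 1 0, BX N M a c w 0 d nu pi th et,
      BX N' M' a' c' w' 0 d' nu' pi' th' et'] : Fin 3 → Matrix (Ix 3 1 0) (Ix 3 1 0) k) i)) =
      TW (inc k 3) (PW N a d nu) (PW N' a' d' nu') (MW M c) (MW M' c') := by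
    funext i
    fin_cases i
    · show Matrix.reindexAlgEquiv k k eW (JX k 3 1 0) = Wm (inc k 3) 0 1
      rw [JX, toW, PW_one, MW_zero, Matrix.one_mul]
    · exact toW ..
    · exact toW ..
  rw [h2] at h1
  exact no_caseI h1 h3

theorem col_row_zero {b : Matrix (Fin 3) (Fin 1) k} {a : Matrix (Fin 1) (Fin 3) k}
    (h : b * a = 0) (ha : a ≠ 0) : b = 0 := by
  obtain ⟨j, hj⟩ : ∃ j, a 0 j ≠ 0 := by
    by_contra hcon
    push Not at hcon
    apply ha
    ext i j
    rw [Subsingleton.elim i 0]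
    exact hcon j
  ext i l
  have h1 := congrFun (congrFun h i) j
  rw [Matrix.mul_apply, Fin.sum_univ_one] at h1
  rw [Subsingleton.elim l 0]
  exact (mul_eq_zero.1 h1).resolve_right hj

end T3332Aux

open T3332Aux

/-- type (3,3,3,2) is excluded -/
theorem no_3332 {k : Type*} [Field k] [IsAlgClosed k] [CharZero k] {ρ : ℕ → ℕ}
    {T : Fin 3 → Matrix (Ix 3 1 0) (Ix 3 1 0) k} (hT : MaxR ρ T)
    (hρ : ∀ i, ρ i = (JX k 3 1 0 ^ i).rank) (h0 : T 0 = JX k 3 1 0) : False := by
  obtain ⟨N, M, a, c, w, b, d, nu, pi, th, et, N', M', a', c', w', b', d', nu', pi', th', et',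
    h⟩ := shapeX hT hρ h0
  have h3 : ρ 3 = 0 := by
    rw [hρ, JX_cube, Matrix.rank_zero]
  have m0 := mem_adj ![JX k 3 1 0, BX N M a c w b d nu pi th et,
    BX N' M' a' c' w' b' d' nu' pi' th' et'] 0
  have m1 := mem_adj ![JX k 3 1 0, BX N M a c w b d nu pi th et,
    BX N' M' a' c' w' b' d' nu' pi' th' et'] 1
  have m2 := mem_adj ![JX k 3 1 0, BX N M a c w b d nu pi th et,
    BX N' M' a' c' w' b' d' nu' pi' th' et'] 2
  have b11 := ba0X h h3 m0 m1 m1
  have b12 := ba0X h h3 m0 m1 m2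
  have b21 := ba0X h h3 m0 m2 m1
  have b22 := ba0X h h3 m0 m2 m2
  by_cases ha : a = 0
  · by_cases ha' : a' = 0
    · subst ha ha'
      have h4 := MaxR.dualX h
      rw [Matrix.transpose_zero] at h4
      exact no_b0 h4 h3
    · have e1 := col_row_zero b12 ha'
      have e2 := col_row_zero b22 ha'
      subst e1 e2
      exact no_b0 h h3
  · have e1 := col_row_zero b11 ha
    have e2 := col_row_zero b21 ha
    subst e1 e2
    exact no_b0 h h3

end Pool.Agent.Lib.D13
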