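import Pool.Agent.Lib.D9.BlkShape

/-!
# MP_5dcbc3_ag: commuting nilpotent triples, type (3, 3, 1, ..., 1) with p >= 4 blocks of size 1

`T = (A, BX N M 0 0 w 0 0 0 0 th 0, BX N' M' 0 0 w' 0 0 0 0 th' 0)`, relation
`N N' + th w' = N' N + th' w`.

* `raise`: if `δ = (ε, q)` in `E_1 + P` with `B δ = C δ = 0`, `ε ≠ 0`, and `φ = (α, β)` is a functional on `E_1 + P`
  with `φ B = φ C = 0`, `α ≠ 0`, `φ δ = 0`, then `(A + s δ φ, B, C)` commutes and `(A + s δ φ)^3 ≠ 0`.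
* `inj`: if `w` is injective, all parameters can be moved, and `(w | w')` becomes injective, `(th ; th')` surjective, so
  that `δ, φ` exist.
* general case: deformations of `w, w'` by `(x, x') ⊗ φ` with `th x' = th' x`.
-/

namespace Pool.Agent.Lib.D13

open Matrix Pool.Agent.Lib.Q5dc Pool.Agent.Lib.D7 Pool.Agent.Lib.D9

namespace T33pAux

variable {k : Type*} [Field k] {p : ℕ}

/-- the vector `(ε, q)` of `E_1 + P` -/
def vec (ε : Fin 2 → k) (q : Fin p → k) : Ix 2 0 p → k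
  | .inl (.inr (.inl i)) => ε i
  | .inr (.inr j) => q j
  | _ => 0

theorem BX_vec {N M : Matrix (Fin 2) (Fin 2) k} {w : Matrix (Fin p) (Fin 2) k}
    {th : Matrix (Fin 2) (Fin p) k} {ε : Fin 2 → k} {q : Fin p → k}
    (h : N *ᵥ ε + th *ᵥ q = 0) : BX N M 0 0 w 0 0 0 0 th 0 *ᵥ vec ε q = 0 := by
  ext x
  rcases x with (x | x | x) | ((x | x) | x)
  · simp [BX, vec, Matrix.mulVec, dotProduct, Fintype.sum_sum_type]
  · simp [BX, vec, Matrix.mulVec, dotProduct, Fintype.sum_sum_type]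
  · have h' := congrFun h x
    simp only [Pi.add_apply, Pi.zero_apply, Matrix.mulVec, dotProduct] at h' ⊢
    simpa [BX, vec, Fintype.sum_sum_type, Fin.sum_univ_two] using h'
  · exact x.elim0
  · exact x.elim0
  · simp [BX, vec, Matrix.mulVec, dotProduct, Fintype.sum_sum_type]

theorem vec_BX {N M : Matrix (Fin 2) (Fin 2) k} {w : Matrix (Fin p) (Fin 2) k}
    {th : Matrix (Fin 2) (Fin p) k} {α : Fin 2 → k} {β : Fin p → k}
    (h : α ᵥ* N + β ᵥ* w = 0) : vec α β ᵥ* BX N M 0 0 w 0 0 0 0 th 0 = 0 := by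
  ext x
  rcases x with (x | x | x) | ((x | x) | x)
  · have h' := congrFun h x
    simp only [Pi.add_apply, Pi.zero_apply, Matrix.vecMul, dotProduct] at h' ⊢
    simpa [BX, vec, Fintype.sum_sum_type, Fin.sum_univ_two] using h'
  · simp [BX, vec, Matrix.vecMul, dotProduct, Fintype.sum_sum_type]
  · simp [BX, vec, Matrix.vecMul, dotProduct, Fintype.sum_sum_type]
  · exact x.elim0
  · exact x.elim0
  · simp [BX, vec, Matrix.vecMul, dotProduct, Fintype.sum_sum_type]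

theorem JX_vec (ε : Fin 2 → k) (q : Fin p → k) (x : Ix 2 0 p) :
    (JX k 2 0 p *ᵥ vec ε q) x = match x with
      | .inl (.inr (.inr i)) => ε i
      | _ => 0 := by
  rcases x with (x | x | x) | ((x | x) | x)
  · simp [JX, BX, vec, Matrix.mulVec, dotProduct, Fintype.sum_sum_type]
  · simp [JX, BX, vec, Matrix.mulVec, dotProduct, Fintype.sum_sum_type]
  · simp [JX, BX, vec, Matrix.mulVec, dotProduct, Fintype.sum_sum_type, Matrix.one_apply]
  · exact x.elim0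
  · exact x.elim0
  · simp [JX, BX, vec, Matrix.mulVec, dotProduct, Fintype.sum_sum_type]

theorem vec_JX (α : Fin 2 → k) (β : Fin p → k) (x : Ix 2 0 p) :
    (vec α β ᵥ* JX k 2 0 p) x = match x with
      | .inl (.inl i) => α i
      | _ => 0 := by
  rcases x with (x | x | x) | ((x | x) | x)
  · simp [JX, BX, vec, Matrix.vecMul, dotProduct, Fintype.sum_sum_type, Matrix.one_apply]
  · simp [JX, BX, vec, Matrix.vecMul, dotProduct, Fintype.sum_sum_type]
  · simp [JX, BX, vec, Matrix.vecMul, dotProduct, Fintype.sum_sum_type]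
  · exact x.elim0
  · exact x.elim0
  · simp [JX, BX, vec, Matrix.vecMul, dotProduct, Fintype.sum_sum_type]

theorem vec_dot (α ε : Fin 2 → k) (β q : Fin p → k) :
    vec α β ⬝ᵥ vec ε q = α ⬝ᵥ ε + β ⬝ᵥ q := by
  simp [vec, dotProduct, Fintype.sum_sum_type]

/-- the raise -/
theorem raise [CharZero k] {ρ : ℕ → ℕ} {N M N' M' : Matrix (Fin 2) (Fin 2) k}
    {w w' : Matrix (Fin p) (Fin 2) k} {th th' : Matrix (Fin 2) (Fin p) k} (h3 : ρ 3 = 0)
    (hT : MaxR ρ ![JX k 2 0 p, BX N M 0 0 w 0 0 0 0 th 0, BX N' M' 0 0 w' 0 0 0 0 th' 0])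
    {ε α : Fin 2 → k} {q β : Fin p → k} (hε : ε ≠ 0) (hα : α ≠ 0)
    (d1 : N *ᵥ ε + th *ᵥ q = 0) (d2 : N' *ᵥ ε + th' *ᵥ q = 0)
    (f1 : α ᵥ* N + β ᵥ* w = 0) (f2 : α ᵥ* N' + β ᵥ* w' = 0)
    (h0 : α ⬝ᵥ ε + β ⬝ᵥ q = 0) : False := by
  obtain ⟨B, hB⟩ : ∃ B, B = BX N M 0 0 w 0 0 0 0 th 0 := ⟨_, rfl⟩
  obtain ⟨C, hC⟩ : ∃ C, C = BX N' M' 0 0 w' 0 0 0 0 th' 0 := ⟨_, rfl⟩
  have b1 : B *ᵥ vec ε q = 0 := by rw [hB]; exact BX_vec d1
  have b2 : C *ᵥ vec ε q = 0 := by rw [hC]; exact BX_vec d2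
  have b3 : vec α β ᵥ* B = 0 := by rw [hB]; exact vec_BX f1
  have b4 : vec α β ᵥ* C = 0 := by rw [hC]; exact vec_BX f2
  rw [← hB, ← hC] at hT
  obtain ⟨A, hA⟩ : ∃ A, A = JX k 2 0 p := ⟨_, rfl⟩
  obtain ⟨d, hd⟩ : ∃ d, d = (vec ε q : Ix 2 0 p → k) := ⟨_, rfl⟩
  obtain ⟨f, hf⟩ : ∃ f, f = (vec α β : Ix 2 0 p → k) := ⟨_, rfl⟩
  have a1 : A *ᵥ (A *ᵥ d) = 0 := by
    rw [Matrix.mulVec_mulVec, hA, hd, JX_sq]
    ext x
    rcases x with (x | x | x) | ((x | x) | x)
    · simp [BX, vec, Matrix.mulVec, dotProduct, Fintype.sum_sum_type]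
    · simp [BX, vec, Matrix.mulVec, dotProduct, Fintype.sum_sum_type]
    · simp [BX, vec, Matrix.mulVec, dotProduct, Fintype.sum_sum_type]
    · exact x.elim0
    · exact x.elim0
    · simp [BX, vec, Matrix.mulVec, dotProduct, Fintype.sum_sum_type]
  have a2 : (f ᵥ* A) ᵥ* A = 0 := by
    rw [Matrix.vecMul_vecMul, hA, hf, JX_sq]
    ext x
    rcases x with (x | x | x) | ((x | x) | x)
    · simp [BX, vec, Matrix.vecMul, dotProduct, Fintype.sum_sum_type]
    · simp [BX, vec, Matrix.vecMul, dotProduct, Fintype.sum_sum_type]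
    · simp [BX, vec, Matrix.vecMul, dotProduct, Fintype.sum_sum_type]
    · exact x.elim0
    · exact x.elim0
    · simp [BX, vec, Matrix.vecMul, dotProduct, Fintype.sum_sum_type]
  have a3 : f ⬝ᵥ (A *ᵥ d) = 0 := by
    rw [hA, hd, hf]
    simp only [dotProduct, Fintype.sum_sum_type, JX_vec, vec]
    simp
  have a4 : f ⬝ᵥ d = 0 := by
    rw [hd, hf, vec_dot, h0]
  have a5 : A *ᵥ d ≠ 0 := by
    intro h
    apply hε
    ext i
    have := congrFun h (.inl (.inr (.inr i)))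
    rw [hA, hd, JX_vec] at this
    exact this
  have a6 : f ᵥ* A ≠ 0 := by
    intro h
    apply hα
    ext i
    have := congrFun h (.inl (.inl i))
    rw [hA, hf, vec_JX] at this
    exact this
  have hA3 : A ^ 3 = 0 := by rw [hA, JX_cube]
  rw [← hd] at b1 b2
  rw [← hf] at b3 b4
  rw [← hA] at hT
  obtain ⟨K, hK⟩ : ∃ K, K = vecMulVec d f := ⟨_, rfl⟩
  have k1 : K * K = 0 := by
    rw [hK, Matrix.vecMulVec_mul_vecMulVec, a4, zero_smul, Matrix.vecMulVec_zero]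
  have k2 : K * B = 0 := by rw [hK, Matrix.vecMulVec_mul, b3, Matrix.vecMulVec_zero]
  have k3 : K * C = 0 := by rw [hK, Matrix.vecMulVec_mul, b4, Matrix.vecMulVec_zero]
  have k4 : B * K = 0 := by rw [hK, Matrix.mul_vecMulVec, b1, Matrix.zero_vecMulVec]
  have k5 : C * K = 0 := by rw [hK, Matrix.mul_vecMulVec, b2, Matrix.zero_vecMulVec]
  have k6 : A * (A * K) = 0 := by
    rw [hK, Matrix.mul_vecMulVec, Matrix.mul_vecMulVec, a1, Matrix.zero_vecMulVec]
  have k7 : K * A * A = 0 := by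
    rw [hK, Matrix.vecMulVec_mul, Matrix.vecMulVec_mul, a2, Matrix.vecMulVec_zero]
  have k8 : K * (A * K) = 0 := by
    rw [hK, Matrix.mul_vecMulVec, Matrix.vecMulVec_mul_vecMulVec, a3, zero_smul,
      Matrix.vecMulVec_zero]
  have k9 : A * K * A = vecMulVec (A *ᵥ d) (f ᵥ* A) := by
    rw [hK, Matrix.mul_vecMulVec, Matrix.vecMulVec_mul]
  have k10 : A * K * A ≠ 0 := by
    rw [k9]
    intro h
    obtain ⟨x, hx⟩ := Function.ne_iff.1 a5
    obtain ⟨y, hy⟩ := Function.ne_iff.1 a6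
    have := congrFun (congrFun h x) y
    rw [Matrix.vecMulVec_apply, Matrix.zero_apply] at this
    exact (mul_ne_zero hx hy) this
  have cube : ∀ s : k, (A + s • K) ^ 3 = s • (A * K * A) := by
    intro s
    have e : (A + s • K) ^ 3 = A ^ 3 + s • (A * (A * K)) + s • (A * K * A) + s • (K * A * A) +
        (s * s) • (A * (K * K)) + (s * s) • (K * (A * K)) + (s * s) • (K * K * A) +
        (s * s * s) • (K * K * K) := by
      rw [pow_succ, pow_two, pow_succ, pow_two]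
      simp only [add_mul, mul_add, smul_mul_assoc, mul_smul_comm, smul_add, smul_smul, mul_assoc]
      abel
    rw [e, hA3, k1, k6, k7, k8]
    simp
  have four : ∀ s : k, (A + s • K) ^ 4 = 0 := by
    intro s
    rw [pow_succ, cube, smul_mul_assoc, mul_add, mul_smul_comm]
    have e1 : A * K * A * A = 0 := by rw [mul_assoc A, mul_assoc A, k7, mul_zero]
    have e2 : A * K * A * K = 0 := by rw [mul_assoc A, mul_assoc A, mul_assoc K, k8, mul_zero]
    rw [e1, e2, smul_zero, add_zero, smul_zero]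
  have cAB : A * B = B * A := hT.cn.1 0 1
  have cAC : A * C = C * A := hT.cn.1 0 2
  have cBC : B * C = C * B := hT.cn.1 1 2
  have nB : IsNilpotent B := hT.cn.2 1
  have nC : IsNilpotent C := hT.cn.2 2
  refine D8.MaxR.raise0 hT K 0 0 (fun s => ?_) 3 h3 1 0 0 ?_
  · rw [smul_zero, add_zero, add_zero]
    refine D8.cn3 ?_ ?_ cBC ⟨4, four s⟩ nB nC
    · rw [add_mul, mul_add, smul_mul_assoc, mul_smul_comm, k2, k4, cAB]
    · rw [add_mul, mul_add, smul_mul_assoc, mul_smul_comm, k3, k5, cAC]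
  · refine (Set.finite_singleton (0 : k)).infinite_compl.mono fun s hs => ?_
    have hs0 : s ≠ 0 := hs
    show (1 • (A + s • K) + 0 • (B + s • 0) + 0 • (C + s • 0)) ^ 3 ≠ 0
    rw [one_smul, zero_smul, zero_smul, add_zero, add_zero, cube]
    exact smul_ne_zero hs0 k10


/-- the relation -/
theorem rel {ρ : ℕ → ℕ} {N M N' M' : Matrix (Fin 2) (Fin 2) k}
    {w w' : Matrix (Fin p) (Fin 2) k} {th th' : Matrix (Fin 2) (Fin p) k}
    (hT : MaxR ρ ![JX k 2 0 p, BX N M 0 0 w 0 0 0 0 th 0, BX N' M' 0 0 w' 0 0 0 0 th' 0]) :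
    N * N' + th * w' = N' * N + th' * w := by
  have h := ((BX_comm ..).1 (hT.cn.1 1 2)).2.1
  simpa using h

/-- triples of this shape -/
theorem cn {N M N' M' : Matrix (Fin 2) (Fin 2) k}
    {w w' : Matrix (Fin p) (Fin 2) k} {th th' : Matrix (Fin 2) (Fin p) k}
    (h : N * N' + th * w' = N' * N + th' * w) :
    CN ![JX k 2 0 p, BX N M 0 0 w 0 0 0 0 th 0, BX N' M' 0 0 w' 0 0 0 0 th' 0] := by
  apply cnX
  · simp
  · simpa using h
  all_goals first | exact Subsingleton.elim _ _ | simp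

/-- deformation of `w, w', th, th'` along a line -/
theorem line [CharZero k] {ρ : ℕ → ℕ} {N M N' M' : Matrix (Fin 2) (Fin 2) k}
    {w w' x x' : Matrix (Fin p) (Fin 2) k} {th th' y y' : Matrix (Fin 2) (Fin p) k}
    (hT : MaxR ρ ![JX k 2 0 p, BX N M 0 0 w 0 0 0 0 th 0, BX N' M' 0 0 w' 0 0 0 0 th' 0])
    (h : ∀ s : k, (th + s • y) * (w' + s • x') - th * w' =
      (th' + s • y') * (w + s • x) - th' * w) {F : Set k} (hF : F.Finite) :
    ∃ s, s ∉ F ∧ MaxR ρ ![JX k 2 0 p, BX N M 0 0 (w + s • x) 0 0 0 0 (th + s • y) 0,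
      BX N' M' 0 0 (w' + s • x') 0 0 0 0 (th' + s • y') 0] := by
  have hr := rel hT
  obtain ⟨s, hs, h4⟩ := D8.MaxR.line2 hT
    (BX 0 0 0 0 x 0 0 0 0 y 0) (BX 0 0 0 0 x' 0 0 0 0 y' 0) (fun s => by
      rw [BX_smul, BX_add, BX_smul, BX_add]
      simp only [smul_zero, add_zero]
      refine cn ?_
      have e1 := h s
      rw [sub_eq_sub_iff_add_eq_add] at e1
      have e2 : (N * N' + (th + s • y) * (w' + s • x')) + (th' * w + th * w') =
          (N' * N + (th' + s • y') * (w + s • x)) + (th' * w + th * w') := by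
        calc (N * N' + (th + s • y) * (w' + s • x')) + (th' * w + th * w')
            = ((th + s • y) * (w' + s • x') + th' * w) + (N * N' + th * w') := by abel
          _ = ((th' + s • y') * (w + s • x) + th * w') + (N' * N + th' * w) := by rw [e1, hr]
          _ = _ := by abel
      exact add_right_cancel e2) hF
  rw [BX_smul, BX_add, BX_smul, BX_add] at h4
  simp only [smul_zero, add_zero] at h4
  exact ⟨s, hs, h4⟩

/-- `X + s` is invertible for almost all `s` -/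
theorem fin_det (X : Matrix (Fin 2) (Fin 2) k) :
    {s : k | (X + s • (1 : Matrix (Fin 2) (Fin 2) k)).det = 0}.Finite := by
  refine (D8.finite_quad (a := X.det) (b := X 0 0 + X 1 1) (c := 1)
    (Or.inr (Or.inr one_ne_zero))).subset fun s hs => ?_
  have h : (X + s • (1 : Matrix (Fin 2) (Fin 2) k)).det = 0 := hs
  show X.det + (X 0 0 + X 1 1) * s + 1 * s ^ 2 = 0
  rw [← h, Matrix.det_fin_two, Matrix.det_fin_two]
  simp
  ring

/-- `w` injective, with complement -/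
theorem core [CharZero k] {ρ : ℕ → ℕ} (h3 : ρ 3 = 0) {N M N' M' : Matrix (Fin 2) (Fin 2) k}
    {w w' : Matrix (Fin p) (Fin 2) k} {th th' : Matrix (Fin 2) (Fin p) k}
    (hT : MaxR ρ ![JX k 2 0 p, BX N M 0 0 w 0 0 0 0 th 0, BX N' M' 0 0 w' 0 0 0 0 th' 0])
    {L b : Matrix (Fin 2) (Fin p) k} {c : Matrix (Fin p) (Fin 2) k} (h1 : L * w = 1)
    (h2 : L * c = 0) (h4 : b * w = 0) (h5 : b * c = 1) : False := by
  -- stage 1
  obtain ⟨s1, hs1, hT1⟩ := line hT (x := 0) (x' := c) (y := 0) (y' := (th * c) * L) (fun s => by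
    rw [smul_zero, smul_zero, add_zero, add_zero, Matrix.mul_add, Matrix.add_mul,
      Matrix.mul_smul, Matrix.smul_mul, Matrix.mul_assoc (th * c) L w, h1, Matrix.mul_one]
    abel) (fin_det (b * w'))
  rw [smul_zero, smul_zero, add_zero, add_zero] at hT1
  have g1 : (b * (w' + s1 • c)).det ≠ 0 := by
    rw [Matrix.mul_add, Matrix.mul_smul, h5]
    exact hs1
  clear hT
  obtain ⟨v, hv⟩ : ∃ v, v = w' + s1 • c := ⟨_, rfl⟩
  obtain ⟨th1, hth1⟩ : ∃ t, t = th' + s1 • (th * c * L) := ⟨_, rfl⟩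
  rw [← hv] at g1
  rw [← hv, ← hth1] at hT1
  -- stage 2
  obtain ⟨s2, hs2, hT2⟩ := line hT1 (x := 0) (x' := 0) (y := L) (y' := (L * v) * L) (fun s => by
    rw [smul_zero, add_zero, add_zero, Matrix.add_mul, Matrix.add_mul, Matrix.smul_mul,
      Matrix.smul_mul, Matrix.mul_assoc (L * v) L w, h1, Matrix.mul_one]
    abel) (fin_det (th * w))
  rw [smul_zero, add_zero, add_zero] at hT2
  have g2 : ((th + s2 • L) * w).det ≠ 0 := by
    rw [Matrix.add_mul, Matrix.smul_mul, h1]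
    exact hs2
  clear hT1
  obtain ⟨t, ht⟩ : ∃ t, t = th + s2 • L := ⟨_, rfl⟩
  obtain ⟨th2, hth2⟩ : ∃ t, t = th1 + s2 • (L * v * L) := ⟨_, rfl⟩
  rw [← ht] at g2
  rw [← ht, ← hth2] at hT2
  -- stage 3
  have u2 : IsUnit (t * w).det := isUnit_iff_ne_zero.2 g2
  obtain ⟨c', hc'⟩ : ∃ c', c' = c - w * ((t * w)⁻¹ * (t * c)) := ⟨_, rfl⟩
  have hbc' : b * c' = 1 := by
    rw [hc', Matrix.mul_sub, ← Matrix.mul_assoc b w, h4, Matrix.zero_mul, sub_zero, h5]
  have htc' : t * c' = 0 := by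
    rw [hc', Matrix.mul_sub, ← Matrix.mul_assoc t w, ← Matrix.mul_assoc (t * w),
      Matrix.mul_nonsing_inv _ u2, Matrix.one_mul, sub_self]
  obtain ⟨s3, hs3, hT3⟩ := line hT2 (x := 0) (x' := 0) (y := 0) (y' := b) (fun s => by
    rw [smul_zero, smul_zero, add_zero, add_zero, add_zero, Matrix.add_mul, Matrix.smul_mul, h4]
    simp) (fin_det (th2 * c'))
  rw [smul_zero, smul_zero, add_zero, add_zero, add_zero] at hT3
  have g3 : ((th2 + s3 • b) * c').det ≠ 0 := by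
    rw [Matrix.add_mul, Matrix.smul_mul, hbc']
    exact hs3
  clear hT2
  obtain ⟨t', ht'⟩ : ∃ t', t' = th2 + s3 • b := ⟨_, rfl⟩
  rw [← ht'] at g3 hT3
  have u3 : IsUnit (t' * c').det := isUnit_iff_ne_zero.2 g3
  have u1 : IsUnit (b * v).det := isUnit_iff_ne_zero.2 g1
  -- left inverses of `(w | v)`
  obtain ⟨L2, hL2⟩ : ∃ L2, L2 = (b * v)⁻¹ * b := ⟨_, rfl⟩
  have l1 : L2 * w = 0 := by rw [hL2, Matrix.mul_assoc, h4, Matrix.mul_zero]
  have l2 : L2 * v = 1 := by rw [hL2, Matrix.mul_assoc, Matrix.nonsing_inv_mul _ u1]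
  obtain ⟨L1, hL1⟩ : ∃ L1, L1 = L - (L * v) * L2 := ⟨_, rfl⟩
  have l3 : L1 * w = 1 := by
    rw [hL1, Matrix.sub_mul, Matrix.mul_assoc (L * v), l1, Matrix.mul_zero, sub_zero, h1]
  have l4 : L1 * v = 0 := by
    rw [hL1, Matrix.sub_mul, Matrix.mul_assoc (L * v), l2, Matrix.mul_one, sub_self]
  -- right inverses of `(t ; t')`
  obtain ⟨R2, hR2⟩ : ∃ R2, R2 = c' * (t' * c')⁻¹ := ⟨_, rfl⟩
  have r1 : t * R2 = 0 := by rw [hR2, ← Matrix.mul_assoc, htc', Matrix.zero_mul]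
  have r2 : t' * R2 = 1 := by rw [hR2, ← Matrix.mul_assoc, Matrix.mul_nonsing_inv _ u3]
  obtain ⟨R0, hR0⟩ : ∃ R0, R0 = w * (t * w)⁻¹ := ⟨_, rfl⟩
  have r0 : t * R0 = 1 := by rw [hR0, ← Matrix.mul_assoc, Matrix.mul_nonsing_inv _ u2]
  obtain ⟨R1, hR1⟩ : ∃ R1, R1 = R0 - R2 * (t' * R0) := ⟨_, rfl⟩
  have r3 : t * R1 = 1 := by
    rw [hR1, Matrix.mul_sub, ← Matrix.mul_assoc t R2, r1, Matrix.zero_mul, sub_zero, r0]
  have r4 : t' * R1 = 0 := by
    rw [hR1, Matrix.mul_sub, ← Matrix.mul_assoc t' R2, r2, Matrix.one_mul, sub_self]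
  -- the vectors
  obtain ⟨ε, hε⟩ : ∃ ε : Fin 2 → k, ε ≠ 0 := ⟨![1, 0], fun h => one_ne_zero (congrFun h 0)⟩
  obtain ⟨q, hq⟩ : ∃ q, q = -(R1 *ᵥ (N *ᵥ ε)) - R2 *ᵥ (N' *ᵥ ε) := ⟨_, rfl⟩
  have d1 : N *ᵥ ε + t *ᵥ q = 0 := by
    rw [hq, Matrix.mulVec_sub, Matrix.mulVec_neg, Matrix.mulVec_mulVec (N *ᵥ ε) t R1,
      Matrix.mulVec_mulVec (N' *ᵥ ε) t R2, r3, r1, Matrix.one_mulVec, Matrix.zero_mulVec, sub_zero, add_neg_cancel]
  have d2 : N' *ᵥ ε + t' *ᵥ q = 0 := by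
    rw [hq, Matrix.mulVec_sub, Matrix.mulVec_neg, Matrix.mulVec_mulVec (N *ᵥ ε) t' R1,
      Matrix.mulVec_mulVec (N' *ᵥ ε) t' R2, r4, r2, Matrix.one_mulVec, Matrix.zero_mulVec, neg_zero, zero_sub, add_neg_cancel]
  obtain ⟨z, hz⟩ : ∃ z, z = ε - N *ᵥ (L1 *ᵥ q) - N' *ᵥ (L2 *ᵥ q) := ⟨_, rfl⟩
  obtain ⟨α, hα, hαz⟩ : ∃ α : Fin 2 → k, α ≠ 0 ∧ α ⬝ᵥ z = 0 := by
    by_cases hz0 : z = 0
    · exact ⟨ε, hε, by rw [hz0, dotProduct_zero]⟩
    · refine ⟨![z 1, -z 0], ?_, ?_⟩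
      · intro h
        apply hz0
        have h0 := congrFun h 0
        have h1 := congrFun h 1
        simp at h0 h1
        ext i
        fin_cases i
        · exact h1
        · exact h0
      · simp [dotProduct, Fin.sum_univ_two]
        ring
  obtain ⟨β, hβ⟩ : ∃ β, β = -((α ᵥ* N) ᵥ* L1) - (α ᵥ* N') ᵥ* L2 := ⟨_, rfl⟩
  have f1 : α ᵥ* N + β ᵥ* w = 0 := by
    rw [hβ, Matrix.sub_vecMul, Matrix.neg_vecMul, Matrix.vecMul_vecMul _ L1, Matrix.vecMul_vecMul _ L2,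
      l3, l1, Matrix.vecMul_one, Matrix.vecMul_zero, sub_zero, add_neg_cancel]
  have f2 : α ᵥ* N' + β ᵥ* v = 0 := by
    rw [hβ, Matrix.sub_vecMul, Matrix.neg_vecMul, Matrix.vecMul_vecMul _ L1, Matrix.vecMul_vecMul _ L2,
      l4, l2, Matrix.vecMul_one, Matrix.vecMul_zero, neg_zero, zero_sub, add_neg_cancel]
  refine raise h3 hT3 hε hα d1 d2 f1 f2 ?_
  have e1 : β ⬝ᵥ q = -(α ⬝ᵥ (N *ᵥ (L1 *ᵥ q))) - α ⬝ᵥ (N' *ᵥ (L2 *ᵥ q)) := by
    rw [hβ, sub_dotProduct, neg_dotProduct, ← Matrix.dotProduct_mulVec, ← Matrix.dotProduct_mulVec,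
      ← Matrix.dotProduct_mulVec, ← Matrix.dotProduct_mulVec]
  rw [e1]
  rw [hz, dotProduct_sub, dotProduct_sub] at hαz
  linear_combination hαz

/-- `w` injective -/
theorem inj [CharZero k] (hp : 4 ≤ p) {ρ : ℕ → ℕ} (h3 : ρ 3 = 0)
    {N M N' M' : Matrix (Fin 2) (Fin 2) k}
    {w w' : Matrix (Fin p) (Fin 2) k} {th th' : Matrix (Fin 2) (Fin p) k}
    (hT : MaxR ρ ![JX k 2 0 p, BX N M 0 0 w 0 0 0 0 th 0, BX N' M' 0 0 w' 0 0 0 0 th' 0])
    {i j : Fin p} (hij : w i 0 * w j 1 - w i 1 * w j 0 ≠ 0) : False := by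
  classical
  have hne : i ≠ j := by
    rintro rfl
    apply hij
    ring
  obtain ⟨l, hl⟩ : ∃ l : Fin p, l ∉ ({i, j} : Finset (Fin p)) := by
    by_contra hc
    push Not at hc
    have h1 : (Finset.univ : Finset (Fin p)) ⊆ {i, j} := fun x _ => hc x
    have h2 := Finset.card_le_card h1
    have h3 : ({i, j} : Finset (Fin p)).card ≤ 2 := Finset.card_le_two
    rw [Finset.card_univ, Fintype.card_fin] at h2
    omega
  obtain ⟨m, hm⟩ : ∃ m : Fin p, m ∉ ({i, j, l} : Finset (Fin p)) := by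
    by_contra hc
    push Not at hc
    have h1 : (Finset.univ : Finset (Fin p)) ⊆ {i, j, l} := fun x _ => hc x
    have h2 := Finset.card_le_card h1
    have h3 : ({i, j, l} : Finset (Fin p)).card ≤ 3 := Finset.card_le_three
    rw [Finset.card_univ, Fintype.card_fin] at h2
    omega
  simp only [Finset.mem_insert, Finset.mem_singleton, not_or] at hl hm
  obtain ⟨D, hD⟩ : ∃ D, D = w i 0 * w j 1 - w i 1 * w j 0 := ⟨_, rfl⟩
  rw [← hD] at hij
  -- `L`
  obtain ⟨L, hL⟩ : ∃ L : Matrix (Fin 2) (Fin p) k, L = Matrix.of fun a x =>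
      if x = i then ![w j 1 / D, -w j 0 / D] a else if x = j then ![-w i 1 / D, w i 0 / D] a
      else 0 := ⟨_, rfl⟩
  have hLX : ∀ (Y : Matrix (Fin p) (Fin 2) k) (a c : Fin 2), (L * Y) a c =
      ![w j 1 / D, -w j 0 / D] a * Y i c + ![-w i 1 / D, w i 0 / D] a * Y j c := by
    intro Y a c
    rw [Matrix.mul_apply]
    have e : ∀ x, L a x * Y x c = (if x = i then ![w j 1 / D, -w j 0 / D] a * Y i c else 0) +
        (if x = j then ![-w i 1 / D, w i 0 / D] a * Y j c else 0) := by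
      intro x
      rw [hL, Matrix.of_apply]
      by_cases hx : x = i
      · subst hx
        simp [hne]
      · by_cases hx' : x = j
        · subst hx'
          simp [hx]
        · simp [hx, hx']
    rw [Finset.sum_congr rfl fun x _ => e x, Finset.sum_add_distrib]
    simp
  have h1 : L * w = 1 := by
    ext a c
    rw [hLX]
    fin_cases a <;> fin_cases c <;> simp <;> field_simp <;> rw [hD] <;> ring
  -- `c`
  obtain ⟨c, hc⟩ : ∃ c : Matrix (Fin p) (Fin 2) k, c = Matrix.of fun x a =>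
      if x = l then ![1, 0] a else if x = m then ![0, 1] a else 0 := ⟨_, rfl⟩
  have h2 : L * c = 0 := by
    ext a e
    rw [hLX, hc, Matrix.of_apply, Matrix.of_apply, if_neg (Ne.symm hl.1), if_neg (Ne.symm hm.1),
      if_neg (Ne.symm hl.2), if_neg (Ne.symm hm.2.1)]
    simp
  obtain ⟨b0, hb0⟩ : ∃ b0 : Matrix (Fin 2) (Fin p) k, b0 = Matrix.of fun a x =>
      if x = l then ![1, 0] a else if x = m then ![0, 1] a else 0 := ⟨_, rfl⟩
  have hbX : ∀ (Y : Matrix (Fin p) (Fin 2) k) (a c : Fin 2), (b0 * Y) a c =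
      ![1, 0] a * Y l c + ![0, 1] a * Y m c := by
    intro Y a c
    rw [Matrix.mul_apply]
    have e : ∀ x, b0 a x * Y x c = (if x = l then ![1, 0] a * Y l c else 0) +
        (if x = m then ![0, 1] a * Y m c else 0) := by
      intro x
      rw [hb0, Matrix.of_apply]
      by_cases hx : x = l
      · subst hx
        simp [Ne.symm hm.2.2]
      · by_cases hx' : x = m
        · subst hx'
          simp [hx]
        · simp [hx, hx']
    rw [Finset.sum_congr rfl fun x _ => e x, Finset.sum_add_distrib]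
    simp
  have h5 : b0 * c = 1 := by
    ext a e
    rw [hbX, hc, Matrix.of_apply, Matrix.of_apply, if_pos rfl, if_neg hm.2.2, if_pos rfl]
    fin_cases a <;> fin_cases e <;> simp
  refine core h3 hT (L := L) (b := b0 - (b0 * w) * L) (c := c) h1 h2 ?_ ?_
  · rw [Matrix.sub_mul, Matrix.mul_assoc, h1, Matrix.mul_one, sub_self]
  · rw [Matrix.sub_mul, Matrix.mul_assoc, h2, Matrix.mul_zero, sub_zero, h5]


variable [CharZero k] {ρ : ℕ → ℕ} {N M N' M' : Matrix (Fin 2) (Fin 2) k}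
  {w w' : Matrix (Fin p) (Fin 2) k} {th th' : Matrix (Fin 2) (Fin p) k}

/-- no linear combination of `w, w'` is injective -/
theorem lin (hp : 4 ≤ p) (h3 : ρ 3 = 0) (hT : MaxR ρ ![JX k 2 0 p, BX N M 0 0 w 0 0 0 0 th 0,
    BX N' M' 0 0 w' 0 0 0 0 th' 0]) (x y : k) (i j : Fin p)
    (hd : (x • w + y • w') i 0 * (x • w + y • w') j 1 -
      (x • w + y • w') i 1 * (x • w + y • w') j 0 ≠ 0) : False := by
  have key : ∀ c d : k, x * d - y * c ≠ 0 → False := by
    intro c d h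
    have h1 := D8.MaxR.lin hT x y c d 0 0 0 0 h
    simp only [zero_smul, add_zero, BX_smul, BX_add, smul_zero] at h1
    exact inj hp h3 h1 hd
  by_cases hx : x = 0
  · by_cases hy : y = 0
    · apply hd
      rw [hx, hy]
      simp
    · exact key 1 0 (by simpa using hy)
  · exact key 0 1 (by simpa using hx)

/-- the `2 x 2` minors of `x w + y w'` vanish -/
theorem minors (hp : 4 ≤ p) (h3 : ρ 3 = 0) (hT : MaxR ρ ![JX k 2 0 p, BX N M 0 0 w 0 0 0 0 th 0,
    BX N' M' 0 0 w' 0 0 0 0 th' 0]) (x y : k) (i j : Fin p) :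
    (x * w i 0 + y * w' i 0) * (x * w j 1 + y * w' j 1) -
      (x * w i 1 + y * w' i 1) * (x * w j 0 + y * w' j 0) = 0 := by
  by_contra h
  exact lin hp h3 hT x y i j (by simpa using h)

/-- common image of `w, w'` -/
theorem common (hp : 4 ≤ p) (h3 : ρ 3 = 0) {om : Fin p → k} {ph ps : Fin 2 → k}
    (hT : MaxR ρ ![JX k 2 0 p, BX N M 0 0 (vecMulVec om ph) 0 0 0 0 th 0,
    BX N' M' 0 0 (vecMulVec om ps) 0 0 0 0 th' 0]) (i : Fin p) (hom : om i = 1)
    (hi : ph 0 * ps 1 - ph 1 * ps 0 ≠ 0) : False := by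
  classical
  obtain ⟨j, hj⟩ : ∃ j : Fin p, j ≠ i := by
    have : Nontrivial (Fin p) := Fin.nontrivial_iff_two_le.2 (by omega)
    exact exists_ne i
  obtain ⟨nu, hnu⟩ : ∃ nu : Fin p → k, nu = Pi.single j 1 := ⟨_, rfl⟩
  obtain ⟨pi, hpi⟩ : ∃ pi : Fin p → k, pi = Pi.single i 1 := ⟨_, rfl⟩
  have h1 : pi ⬝ᵥ om = 1 := by
    rw [hpi, single_dotProduct, one_mul, hom]
  obtain ⟨s, hs, h4⟩ := line hT (x := vecMulVec nu ps) (x' := 0)
    (y := vecMulVec (th' *ᵥ nu) pi) (y' := 0) (fun s => by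
      have e1 : (s • vecMulVec (th' *ᵥ nu) pi) * vecMulVec om ps =
          th' * (s • vecMulVec nu ps) := by
        rw [Matrix.smul_mul, Matrix.mul_smul, Matrix.vecMulVec_mul_vecMulVec, h1,
          Matrix.mul_vecMulVec, one_smul]
      rw [smul_zero, add_zero, smul_zero, add_zero, Matrix.add_mul, Matrix.mul_add th', e1,
        add_sub_cancel_left, add_sub_cancel_left]) (Set.finite_singleton (0 : k))
  refine inj hp h3 h4 (i := i) (j := j) ?_
  have n1 : nu i = 0 := by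
    rw [hnu, Pi.single_apply, if_neg (Ne.symm hj)]
  have n2 : nu j = 1 := by
    rw [hnu, Pi.single_apply, if_pos rfl]
  simp only [Matrix.add_apply, Matrix.smul_apply, vecMulVec_apply, hom, n1, n2, smul_eq_mul]
  have hs0 : s ≠ 0 := hs
  have e : (1 * ph 0 + s * (0 * ps 0)) * (om j * ph 1 + s * (1 * ps 1)) -
      (1 * ph 1 + s * (0 * ps 1)) * (om j * ph 0 + s * (1 * ps 0)) =
      s * (ph 0 * ps 1 - ph 1 * ps 0) := by ring
  rw [e]
  exact mul_ne_zero hs0 hi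

/-- `(w, w')` jointly injective -/
theorem joint (hp : 4 ≤ p) (h3 : ρ 3 = 0) (hT : MaxR ρ ![JX k 2 0 p, BX N M 0 0 w 0 0 0 0 th 0,
    BX N' M' 0 0 w' 0 0 0 0 th' 0]) (i j : Fin p)
    (hm : w i 0 * w' j 1 - w i 1 * w' j 0 ≠ 0) : False := by
  have e1 : ∀ l l' : Fin p, w l 0 * w l' 1 = w l 1 * w l' 0 := by
    intro l l'
    have h := minors hp h3 hT 1 0 l l'
    linear_combination h
  have e2 : ∀ l l' : Fin p, w' l 0 * w' l' 1 = w' l 1 * w' l' 0 := by
    intro l l'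
    have h := minors hp h3 hT 0 1 l l'
    linear_combination h
  have e4 : ∀ l l' : Fin p, w l 0 * w' l' 1 + w' l 0 * w l' 1 - w l 1 * w' l' 0 -
      w' l 1 * w l' 0 = 0 := by
    intro l l'
    have h := minors hp h3 hT 1 1 l l'
    linear_combination h - e1 l l' - e2 l l'
  obtain ⟨m, hmd⟩ : ∃ m, m = w i 0 * w' j 1 - w i 1 * w' j 0 := ⟨_, rfl⟩
  rw [← hmd] at hm
  obtain ⟨om, hom⟩ : ∃ om : Fin p → k, ∀ l, om l = (w l 0 * w' j 1 - w l 1 * w' j 0) / m :=
    ⟨fun l => (w l 0 * w' j 1 - w l 1 * w' j 0) / m, fun l => rfl⟩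
  obtain ⟨om', hom'⟩ : ∃ om' : Fin p → k, ∀ l, om' l = (w i 0 * w' l 1 - w i 1 * w' l 0) / m :=
    ⟨fun l => (w i 0 * w' l 1 - w i 1 * w' l 0) / m, fun l => rfl⟩
  have hi : om i = 1 := by rw [hom, ← hmd, div_self hm]
  have hj : om' j = 1 := by rw [hom', ← hmd, div_self hm]
  have hW : ∀ l c, w l c = om l * w i c := by
    intro l c
    rw [hom, div_mul_eq_mul_div, eq_div_iff hm, hmd]
    have h := e1 l i
    fin_cases c
    · show w l 0 * (w i 0 * w' j 1 - w i 1 * w' j 0) = (w l 0 * w' j 1 - w l 1 * w' j 0) * w i 0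
      linear_combination -w' j 0 * h
    · show w l 1 * (w i 0 * w' j 1 - w i 1 * w' j 0) = (w l 0 * w' j 1 - w l 1 * w' j 0) * w i 1
      linear_combination -w' j 1 * h
  have hW' : ∀ l c, w' l c = om' l * w' j c := by
    intro l c
    rw [hom', div_mul_eq_mul_div, eq_div_iff hm, hmd]
    have h := e2 l j
    fin_cases c
    · show w' l 0 * (w i 0 * w' j 1 - w i 1 * w' j 0) =
        (w i 0 * w' l 1 - w i 1 * w' l 0) * w' j 0
      linear_combination w i 0 * h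
    · show w' l 1 * (w i 0 * w' j 1 - w i 1 * w' j 0) =
        (w i 0 * w' l 1 - w i 1 * w' l 0) * w' j 1
      linear_combination w i 1 * h
  have hpar : ∀ l l', om l * om' l' = om l' * om' l := by
    intro l l'
    have h : (om l * om' l' - om l' * om' l) * m = 0 := by
      have h := e4 l l'
      rw [hW l 0, hW l 1, hW l' 0, hW l' 1, hW' l 0, hW' l 1, hW' l' 0, hW' l' 1] at h
      rw [hmd]
      linear_combination h
    exact sub_eq_zero.1 ((mul_eq_zero.1 h).resolve_right hm)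
  have hc : ∀ l, om' l = om' i * om l := by
    intro l
    have h := hpar i l
    rw [hi, one_mul] at h
    rw [h, mul_comm]
  have hci : om' i ≠ 0 := by
    intro h
    have h1 := hc j
    rw [hj, h, zero_mul] at h1
    exact one_ne_zero h1
  have f1 : w = vecMulVec om (w i) := by
    ext l c
    rw [vecMulVec_apply, ← hW]
  have f2 : w' = vecMulVec om (om' i • w' j) := by
    ext l c
    rw [vecMulVec_apply, Pi.smul_apply, smul_eq_mul, hW' l c, hc l]
    ring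
  have e : w i 0 * (om' i • w' j) 1 - w i 1 * (om' i • w' j) 0 = om' i * m := by
    rw [hmd, Pi.smul_apply, Pi.smul_apply, smul_eq_mul, smul_eq_mul]
    ring
  rw [f1, f2] at hT
  refine common hp h3 hT i hi ?_
  rw [e]
  exact mul_ne_zero hci hm

/-- `(w, w')` is not jointly injective -/
theorem notinj (hp : 4 ≤ p) (h3 : ρ 3 = 0) (hT : MaxR ρ ![JX k 2 0 p, BX N M 0 0 w 0 0 0 0 th 0,
    BX N' M' 0 0 w' 0 0 0 0 th' 0]) : ∃ f : Fin 2 → k, f ≠ 0 ∧ w *ᵥ f = 0 ∧ w' *ᵥ f = 0 := by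
  have e1 : ∀ l l' : Fin p, w l 0 * w l' 1 = w l 1 * w l' 0 := by
    intro l l'
    have h := minors hp h3 hT 1 0 l l'
    linear_combination h
  have e2 : ∀ l l' : Fin p, w' l 0 * w' l' 1 = w' l 1 * w' l' 0 := by
    intro l l'
    have h := minors hp h3 hT 0 1 l l'
    linear_combination h
  have e3 : ∀ i j : Fin p, w i 0 * w' j 1 = w i 1 * w' j 0 := by
    intro i j
    by_contra h
    exact joint hp h3 hT i j (sub_ne_zero.2 h)
  have key : ∀ a b : k, (a ≠ 0 ∨ b ≠ 0) → (∀ l, w l 0 * b = w l 1 * a) →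
      (∀ l, w' l 0 * b = w' l 1 * a) →
      ∃ f : Fin 2 → k, f ≠ 0 ∧ w *ᵥ f = 0 ∧ w' *ᵥ f = 0 := by
    intro a b hab h1 h2
    refine ⟨![b, -a], ?_, ?_, ?_⟩
    · intro h
      have g0 := congrFun h 0
      have g1 := congrFun h 1
      simp at g0 g1
      rcases hab with h | h
      · exact h g1
      · exact h g0
    · ext l
      simp [Matrix.mulVec, dotProduct, Fin.sum_univ_two]
      linear_combination h1 l
    · ext l
      simp [Matrix.mulVec, dotProduct, Fin.sum_univ_two]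
      linear_combination h2 l
  by_cases hw : ∃ i c, w i c ≠ 0
  · obtain ⟨i, c, hic⟩ := hw
    refine key (w i 0) (w i 1) ?_ (fun l => e1 l i) (fun l => ?_)
    · fin_cases c
      · exact Or.inl hic
      · exact Or.inr hic
    · linear_combination -e3 i l
  by_cases hw' : ∃ i c, w' i c ≠ 0
  · obtain ⟨i, c, hic⟩ := hw'
    refine key (w' i 0) (w' i 1) ?_ (fun l => e3 l i) (fun l => e2 l i)
    fin_cases c
    · exact Or.inl hic
    · exact Or.inr hic
  push Not at hw hw'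
  exact key 1 0 (Or.inl one_ne_zero) (fun l => by rw [hw, hw]; ring)
    (fun l => by rw [hw', hw']; ring)

/-- solutions of `th x' = th' x` with one more linear condition -/
theorem sol (hp : 4 ≤ p) (th th' : Matrix (Fin 2) (Fin p) k) (r r' : Fin p → k) :
    ∃ x x' : Fin p → k, (x ≠ 0 ∨ x' ≠ 0) ∧ th *ᵥ x' = th' *ᵥ x ∧ r ⬝ᵥ x + r' ⬝ᵥ x' = 0 := by
  set F : ((Fin p → k) × (Fin p → k)) →ₗ[k] ((Fin 2 → k) × k) :=
    { toFun := fun v => (th *ᵥ v.2 - th' *ᵥ v.1, r ⬝ᵥ v.1 + r' ⬝ᵥ v.2)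
      map_add' := fun v v' => by
        ext1
        · simp only [Prod.fst_add, Prod.snd_add, Matrix.mulVec_add]
          abel
        · simp only [Prod.fst_add, Prod.snd_add, dotProduct_add]
          ring
      map_smul' := fun c v => by
        ext1
        · simp only [Prod.smul_fst, Prod.smul_snd, Matrix.mulVec_smul, RingHom.id_apply, smul_sub]
        · simp only [Prod.smul_fst, Prod.smul_snd, dotProduct_smul, RingHom.id_apply, smul_eq_mul]
          ring } with hF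
  have h1 : LinearMap.ker F ≠ ⊥ := by
    refine LinearMap.ker_ne_bot_of_finrank_lt ?_
    simp
    omega
  obtain ⟨v, hv, hv0⟩ := (Submodule.ne_bot_iff _).1 h1
  rw [LinearMap.mem_ker] at hv
  have hv1 : th *ᵥ v.2 - th' *ᵥ v.1 = 0 := congrArg Prod.fst hv
  have hv2 : r ⬝ᵥ v.1 + r' ⬝ᵥ v.2 = 0 := congrArg Prod.snd hv
  refine ⟨v.1, v.2, ?_, sub_eq_zero.1 hv1, hv2⟩
  by_contra hc
  push Not at hc
  exact hv0 (Prod.ext hc.1 hc.2)

/-- the deformation by `(x, x') ⊗ φ` -/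
theorem deform (hT : MaxR ρ ![JX k 2 0 p, BX N M 0 0 w 0 0 0 0 th 0,
    BX N' M' 0 0 w' 0 0 0 0 th' 0]) {x x' : Fin p → k} (h : th *ᵥ x' = th' *ᵥ x)
    (φ : Fin 2 → k) : ∃ s : k, s ≠ 0 ∧ MaxR ρ ![JX k 2 0 p,
      BX N M 0 0 (w + s • vecMulVec x φ) 0 0 0 0 th 0,
      BX N' M' 0 0 (w' + s • vecMulVec x' φ) 0 0 0 0 th' 0] := by
  have hr := rel hT
  obtain ⟨s, hs, h4⟩ := D8.MaxR.line2 hT
    (BX 0 0 0 0 (vecMulVec x φ) 0 0 0 0 0 0)
    (BX 0 0 0 0 (vecMulVec x' φ) 0 0 0 0 0 0) (fun s => by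
      rw [BX_smul, BX_add, BX_smul, BX_add]
      simp only [smul_zero, add_zero]
      refine cn ?_
      rw [Matrix.mul_add, Matrix.mul_add, Matrix.mul_smul, Matrix.mul_smul,
        Matrix.mul_vecMulVec, Matrix.mul_vecMulVec, h, ← add_assoc, hr, add_assoc]) (Set.finite_singleton (0 : k))
  rw [BX_smul, BX_add, BX_smul, BX_add] at h4
  simp only [smul_zero, add_zero] at h4
  exact ⟨s, hs, h4⟩

/-- `(w, w') ≠ 0` -/
theorem nz (hp : 4 ≤ p) (h3 : ρ 3 = 0) (hT : MaxR ρ ![JX k 2 0 p, BX N M 0 0 w 0 0 0 0 th 0,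
    BX N' M' 0 0 w' 0 0 0 0 th' 0]) (r r' : Fin p → k)
    (hw : r ᵥ* w + r' ᵥ* w' ≠ 0) : False := by
  obtain ⟨f, hf0, hf1, hf2⟩ := notinj hp h3 hT
  obtain ⟨c0, hc0⟩ := Function.ne_iff.1 hf0
  obtain ⟨x, x', hx, hx1, hx2⟩ := sol hp th th' r r'
  obtain ⟨s, hs, hT'⟩ := deform hT hx1 (Pi.single c0 (f c0)⁻¹)
  obtain ⟨g, hg0, hg1, hg2⟩ := notinj hp h3 hT'
  set al : k := Pi.single c0 (f c0)⁻¹ ⬝ᵥ g with hal
  have hal' : al = (f c0)⁻¹ * g c0 := by
    rw [hal, single_dotProduct]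
  have g1 : w *ᵥ g = - (s * al) • x := by
    rw [Matrix.add_mulVec, Matrix.smul_mulVec, Matrix.vecMulVec_mulVec] at hg1
    rw [eq_comm, ← sub_eq_zero, ← neg_eq_zero, ← hg1]
    ext l
    simp [hal, mul_assoc, mul_comm]
    try ring
  have g2 : w' *ᵥ g = - (s * al) • x' := by
    rw [Matrix.add_mulVec, Matrix.smul_mulVec, Matrix.vecMulVec_mulVec] at hg2
    rw [eq_comm, ← sub_eq_zero, ← neg_eq_zero, ← hg2]
    ext l
    simp [hal, mul_assoc, mul_comm]
    try ring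
  -- the row `q = r w + r' w'` kills `f` and `g`
  have q1 : (r ᵥ* w + r' ᵥ* w') ⬝ᵥ f = 0 := by
    rw [add_dotProduct, ← Matrix.dotProduct_mulVec, ← Matrix.dotProduct_mulVec, hf1, hf2]
    simp
  have q2 : (r ᵥ* w + r' ᵥ* w') ⬝ᵥ g = 0 := by
    rw [add_dotProduct, ← Matrix.dotProduct_mulVec, ← Matrix.dotProduct_mulVec, g1, g2,
      dotProduct_smul, dotProduct_smul, ← smul_add, hx2, smul_zero]
  set q : Fin 2 → k := r ᵥ* w + r' ᵥ* w' with hq
  have hdet : f 0 * g 1 = f 1 * g 0 := by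
    rw [dotProduct, Fin.sum_univ_two] at q1 q2
    obtain ⟨c, hc⟩ := Function.ne_iff.1 hw
    fin_cases c
    · have hc' : q 0 ≠ 0 := hc
      refine mul_left_cancel₀ hc' ?_
      linear_combination g 1 * q1 - f 1 * q2
    · have hc' : q 1 ≠ 0 := hc
      refine mul_left_cancel₀ hc' ?_
      linear_combination f 0 * q2 - g 0 * q1
  have hfc0 : f c0 ≠ 0 := hc0
  have hg1 : ∀ c, f c0 * g c = g c0 * f c := by
    intro c
    have hd : ∀ c0 c : Fin 2, f c0 * g c = g c0 * f c := by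
      rw [Fin.forall_fin_two]
      constructor <;> rw [Fin.forall_fin_two] <;> constructor
      · ring
      · linear_combination hdet
      · linear_combination -hdet
      · ring
    exact hd c0 c
  have hg : g = al • f := by
    ext c
    rw [Pi.smul_apply, smul_eq_mul, hal', inv_mul_eq_div, div_mul_eq_mul_div, eq_div_iff hfc0,
      mul_comm]
    exact hg1 c
  have hal0 : al = 0 := by
    have k1 : - (s * al) • x = 0 := by
      rw [← g1, hg, Matrix.mulVec_smul, hf1, smul_zero]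
    have k2 : - (s * al) • x' = 0 := by
      rw [← g2, hg, Matrix.mulVec_smul, hf2, smul_zero]
    rcases hx with h | h
    · have k3 := (smul_eq_zero.1 k1).resolve_right h
      rw [neg_eq_zero] at k3
      exact (mul_eq_zero.1 k3).resolve_left hs
    · have k3 := (smul_eq_zero.1 k2).resolve_right h
      rw [neg_eq_zero] at k3
      exact (mul_eq_zero.1 k3).resolve_left hs
  apply hg0
  rw [hg, hal0, zero_smul]

/-- all triples of the shape -/
theorem gen (hp : 4 ≤ p) (h3 : ρ 3 = 0) (hT : MaxR ρ ![JX k 2 0 p, BX N M 0 0 w 0 0 0 0 th 0,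
    BX N' M' 0 0 w' 0 0 0 0 th' 0]) : False := by
  by_cases h : ∃ r r' : Fin p → k, r ᵥ* w + r' ᵥ* w' ≠ 0
  · obtain ⟨r, r', h⟩ := h
    exact nz hp h3 hT r r' h
  push Not at h
  obtain ⟨x, x', hx, hx1, -⟩ := sol hp th th' 0 0
  obtain ⟨s, hs, hT'⟩ := deform hT hx1 ![1, 0]
  have hne : ∃ r r' : Fin p → k, r ⬝ᵥ x + r' ⬝ᵥ x' ≠ 0 := by
    rcases hx with hx | hx
    · obtain ⟨i, hi⟩ := Function.ne_iff.1 hx
      refine ⟨Pi.single i 1, 0, ?_⟩
      rw [zero_dotProduct, add_zero, single_dotProduct, one_mul]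
      exact hi
    · obtain ⟨i, hi⟩ := Function.ne_iff.1 hx
      refine ⟨0, Pi.single i 1, ?_⟩
      rw [zero_dotProduct, zero_add, single_dotProduct, one_mul]
      exact hi
  obtain ⟨r, r', hr⟩ := hne
  refine nz hp h3 hT' r r' ?_
  intro h0
  have h1 := congrFun h0 0
  have h2 := congrFun (h r r') 0
  rw [Pi.add_apply, Pi.zero_apply] at h2
  rw [Matrix.vecMul_add, Matrix.vecMul_add, Pi.add_apply, Pi.add_apply, Pi.add_apply,
    Matrix.vecMul_smul, Matrix.vecMul_smul, Matrix.vecMul_vecMulVec, Matrix.vecMul_vecMulVec,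
    Pi.zero_apply] at h1
  simp at h1
  apply hr
  have h4 : s * (r ⬝ᵥ x + r' ⬝ᵥ x') = 0 := by
    linear_combination h1 - h2
  exact (mul_eq_zero.1 h4).resolve_left hs

end T33pAux

/-- **type (3, 3, 1, ..., 1)**, at least four blocks of size 1 -/
theorem no_33p {k : Type*} [Field k] [CharZero k] {p : ℕ} (hp : 4 ≤ p) {ρ : ℕ → ℕ}
    {T : Fin 3 → Matrix (Ix 2 0 p) (Ix 2 0 p) k} (hT : MaxR ρ T)
    (hρ : ∀ i, ρ i = (JX k 2 0 p ^ i).rank) (h0 : T 0 = JX k 2 0 p) : False := by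
  obtain ⟨N, M, a, c, w, b, d, nu, pi, th, et, N', M', a', c', w', b', d', nu', pi', th', et',
    h4⟩ := shapeX hT hρ h0
  have h5 : ρ 3 = 0 := by
    rw [hρ, JX_cube, Matrix.rank_zero]
  rw [Subsingleton.elim a 0, Subsingleton.elim c 0, Subsingleton.elim b 0,
    Subsingleton.elim d 0, Subsingleton.elim nu 0, Subsingleton.elim pi 0,
    Subsingleton.elim et 0, Subsingleton.elim a' 0, Subsingleton.elim c' 0,
    Subsingleton.elim b' 0, Subsingleton.elim d' 0, Subsingleton.elim nu' 0,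
    Subsingleton.elim pi' 0, Subsingleton.elim et' 0] at h4
  exact T33pAux.gen hp h5 h4

end Pool.Agent.Lib.D13
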