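import Pool.Agent.Lib.D13.TowerWCk

/-!
# MP_5dcbc3_ag: density certificates, type 43211, family (2531|3521), d = 11, degrees (2,3,3)
-/

namespace Pool.Agent.Lib.D13.TW43211

open Refl Pool.Agent.Lib.Q5dc

/-- the base point -/
def bs : Base where
  lev := [0, 0, 2, 3, 3, 3, 3, 4, 6, 6, 6]
  pw := [[[(0, 1)], [(1, 1)], [(2, 1)], [(3, 1)], [(4, 1)], [(5, 1)], [(6, 1)], [(7, 1)], [(8, 1)],
      [(9, 1)], [(10, 1)]],
    [[], [(0, 1)], [(1, 1)], [(6, -1), (10, -1)], [(3, 1)], [(4, 1)], [(5, 1)], [(2, 1), (6,
      1), (10, 1)], [(7, 1)], [(8, 1)], [(9, 1)]],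
    [[], [], [(0, 1)], [(5, -1), (9, -1)], [(6, -1), (10, -1)], [(3, 1)], [(4, 1)], [(1, 1),
      (5, 1), (9, 1)], [(2, 1), (6, 1), (10, 1)], [(7, 1)], [(8, 1)]],
    [[], [], [], [(4, -1), (8, -1)], [(5, -1), (9, -1)], [(6, -1), (10, -1)], [(3, 1)], [(0,
      1), (4, 1), (8, 1)], [(1, 1), (5, 1), (9, 1)], [(2, 1), (6, 1), (10, 1)], [(7, 1)]],
    [[], [], [], [(3, -1), (7, -1)], [(4, -1), (8, -1)], [(5, -1), (9, -1)], [(6, -1), (10,
      -1)], [(3, 1), (7, 1)], [(0, 1), (4, 1), (8, 1)], [(1, 1), (5, 1), (9, 1)], [(2, 1), (6,
      1), (10, 1)]],
    [[], [], [], [(2, -1)], [(3, -1), (7, -1)], [(4, -1), (8, -1)], [(5, -1), (9, -1)], [(2,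
      1)], [(3, 1), (7, 1)], [(0, 1), (4, 1), (8, 1)], [(1, 1), (5, 1), (9, 1)]],
    [[], [], [], [(1, -1)], [(2, -1)], [(3, -1), (7, -1)], [(4, -1), (8, -1)], [(1, 1)], [(2,
      1)], [(3, 1), (7, 1)], [(0, 1), (4, 1), (8, 1)]],
    [[], [], [], [(0, -1)], [(1, -1)], [(2, -1)], [(3, -1), (7, -1)], [(0, 1)], [(1, 1)], [(2,
      1)], [(3, 1), (7, 1)]],
    [[], [], [], [], [(0, -1)], [(1, -1)], [(2, -1)], [], [(0, 1)], [(1, 1)], [(2, 1)]],
    [[], [], [], [], [], [(0, -1)], [(1, -1)], [], [], [(0, 1)], [(1, 1)]],
    [[], [], [], [], [], [], [(0, -1)], [], [], [], [(0, 1)]]]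
  xc := [[(1, 1)], [(1, 1), (5, -1), (9, 1)], [(2, 1), (3, 1), (6, -1), (7, -1), (10, 1)]]
  X := [[[], [(0, 1)], [(1, 1)], [(6, -1), (10, -1)], [(3, 1)], [(4, 1)], [(5, 1)], [(2, 1), (6,
      1), (10, 1)], [(7, 1)], [(8, 1)], [(9, 1)]],
    [[], [(0, 1)], [(1, 1)], [(2, 1), (6, -1), (10, -1)], [(3, 2), (7, 1)], [(0, -1), (4, 2),
      (8, 1)], [(1, -1), (5, 2), (9, 1)], [(6, 1), (10, 1)], [(3, -1)], [(4, -1)], [(5, -1)]],
    [[], [], [(0, 1)], [(0, 1), (1, 1), (4, -1), (5, -1), (8, -1), (9, -1)], [(1, 1), (2, 1),
      (5, -1), (6, -1), (9, -1), (10, -1)], [(2, 1), (3, 2), (6, -1), (7, 1), (10, -1)], [(0,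
      -1), (3, 2), (4, 2), (7, 1), (8, 1)], [(4, 1), (5, 1), (8, 1), (9, 1)], [(5, 1), (6, 1),
      (9, 1), (10, 1)], [(3, -1), (6, 1), (10, 1)], [(3, -1), (4, -1)]]]

/-- degrees -/
def dl : List ℕ := [2, 3, 3]

theorem bs_ck : bs.ckW dl 11 = true := by decide +kernel

/-- certificate -/
def ce0 : Cer where
  den := 24
  N := [[[(22, -24), (34, 12), (55, 36), (66, 24), (67, -12), (78, -12), (90, -12), (99, 24), (102,
      12), (110, 24), (115, -24), (155, -24), (188, 12), (211, -12), (215, 12), (220, 12), (223,
      -12), (224, -12), (275, 24), (287, 12), (331, 36), (347, -12)],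
      [(22, -4), (33, 22), (34, 2), (45, -4), (55, 2), (56, 8), (66, 4), (67, -2), (77, -2), (78,
      2), (88, -16), (90, 2), (100, 8), (102, -14), (106, 8), (110, 4), (112, 16), (113, 18),
      (116, -8), (117, 2), (154, -10), (155, -6), (166, 2), (176, -4), (177, -18), (188, 2),
      (211, -6), (213, -4), (214, -4), (215, 6), (220, -2), (221, -18), (222, -2), (224, -6),
      (225, 6), (226, 6), (234, -6), (236, -4), (237, -8), (275, 2), (276, 2), (286, 2), (297,
      10), (308, 6), (309, -4), (331, -2), (333, 4), (341, 26), (343, 6), (344, -2), (345, -4),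
      (347, -8), (352, 6), (353, -20), (354, 2), (355, -2), (356, 6), (357, -6), (358, -2)],
      [],
      [],
      [],
      [],
      [],
      [],
      [],
      [],
      []],
    [[(22, 24)],
      [(22, -24), (33, -18), (34, -6), (55, -6), (66, 24), (67, 6), (77, -6), (78, -18), (90,
      -18), (102, 18), (106, -12), (110, 24), (113, -18), (117, 6), (154, 6), (155, -18), (166,
      -6), (176, 12), (177, 6), (188, -6), (211, -6), (215, 6), (220, 6), (221, 6), (222, -6),
      (223, -12), (224, -6), (225, -6), (226, 6), (234, 6), (236, 12), (275, 18), (276, 6), (286,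
      6), (287, 12), (297, -6), (308, 6), (331, 30), (341, -6), (343, 6), (344, 6), (352, 6),
      (354, 6), (355, -6), (356, -6), (357, 6), (358, -6)],
      [],
      [],
      [],
      [],
      [],
      [],
      [],
      [],
      []],
    [[(22, -24), (33, 24), (45, -36), (66, 24), (77, 36), (93, 12), (102, -48), (105, 12), (106,
      24), (110, 24), (113, -108), (117, 60), (154, -12), (155, -12), (166, 24), (177, 12), (198,
      -12), (211, -24), (213, -24), (214, -24), (215, 24), (221, 12), (222, -12), (223, 12),
      (225, 12), (226, 48), (234, 36), (275, 12), (276, 12), (286, 12), (287, -12), (297, -12),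
      (308, 12), (333, 24), (341, -12), (343, 12), (344, -12), (347, -12), (352, 12), (354, 12),
      (355, -12), (356, 12), (357, -12), (358, -12)],
      [],
      [(23, -16), (33, 4), (34, 12), (55, 4), (67, -4), (77, 4), (78, -4), (79, 8), (90, -4),
      (95, 8), (102, 28), (106, -8), (113, 4), (115, -16), (117, -4), (154, 4), (155, -12), (166,
      4), (177, 4), (188, 4), (211, 4), (212, 8), (215, -4), (220, 4), (221, 4), (222, 4), (223,
      -16), (224, -12), (225, -4), (226, -4), (234, 4), (275, 4), (276, 4), (286, -4), (287, 16),
      (297, -4), (308, 4), (331, 20), (341, -4), (343, -4), (344, 4), (347, -8), (352, 4), (354,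
      -4), (355, 4), (356, -4), (357, 4), (358, 4)],
      [],
      [],
      [],
      [],
      [],
      [],
      [],
      []],
    [[(33, -24), (112, -24), (113, -24), (116, 24), (341, -24), (353, 24)],
      [(22, -24), (45, -36), (66, 24), (77, 12), (93, 12), (102, -48), (105, 12), (106, 24),
      (110, 24), (113, -108), (117, 60), (154, -12), (155, -12), (166, 24), (177, 12), (198,
      -12), (211, -24), (213, -24), (214, -24), (215, 24), (221, 12), (222, -12), (223, 12),
      (225, 12), (226, 48), (234, 36), (275, 12), (276, 12), (286, 12), (287, -12), (297, -12),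
      (308, 12), (333, 24), (341, -12), (343, 12), (344, -12), (347, -12), (352, 12), (354, 12),
      (355, -12), (356, 12), (357, -12), (358, -12)],
      [(22, -60), (33, -108), (34, -48), (45, -12), (66, 60), (77, -48), (78, -48), (90, -48),
      (102, 48), (106, -36), (110, 60), (113, -120), (114, -24), (117, 48), (154, 12), (155,
      -36), (166, -12), (177, 12), (211, 12), (213, -12), (214, 12), (215, -12), (221, 12), (222,
      -48), (223, -48), (226, 36), (234, 48), (275, 12), (286, 48), (297, -12), (298, -24), (308,
      12), (309, -12), (333, 12), (334, -24), (341, -12), (343, 12), (344, -12), (345, 12), (347,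
      -12), (352, 12), (353, -12), (354, 24)],
      [],
      [(22, 24), (33, 30), (34, 6), (55, 6), (56, 24), (66, -24), (67, -6), (77, 18), (78, 6),
      (90, 6), (102, 30), (106, -12), (110, -24), (112, -24), (113, 30), (116, 24), (117, -18),
      (154, 6), (155, -6), (166, 18), (176, -12), (177, -18), (188, 6), (211, 18), (215, -18),
      (220, -6), (221, -18), (222, 18), (223, -24), (224, -18), (225, -6), (226, -18), (234, 6),
      (236, -12), (237, -24), (275, -6), (276, -18), (286, -18), (287, 24), (297, -6), (308, 6),
      (331, -6), (341, -6), (343, 6), (344, 6), (347, -12), (352, 6), (354, -18), (355, 18),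
      (356, -6), (357, 6), (358, 18)],
      [],
      [(22, 60), (33, 108), (45, 12), (66, -60), (77, 48), (78, 12), (90, 12), (102, -24), (106,
      36), (110, -60), (113, 120), (114, 24), (117, -48), (154, -12), (155, 48), (166, 12), (177,
      -12), (213, 12), (214, -12), (221, -12), (222, 48), (223, 48), (226, -36), (234, -48),
      (275, -12), (286, -48), (297, 12), (298, 24), (308, -12), (309, 12), (333, -12), (334, 24),
      (341, 12), (343, -12), (344, 12), (345, -12), (347, 12), (352, -12), (353, 12), (354,
      -24)],
      [],
      [],
      [],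
      []],
    [[],
      [],
      [(22, -24), (45, -60), (66, 24), (77, 12), (93, 12), (102, -48), (105, 12), (106, 24),
      (110, 24), (113, -108), (117, 60), (154, -12), (155, -12), (166, 24), (177, 12), (198,
      -12), (211, -24), (213, -24), (214, -24), (215, 24), (221, 12), (222, -12), (223, 12),
      (225, 12), (226, 48), (234, 36), (275, 12), (276, 12), (286, 12), (287, -12), (297, -12),
      (308, 12), (333, 24), (341, -12), (343, 12), (344, -12), (347, -12), (352, 12), (354, 12),
      (355, -12), (356, 12), (357, -12), (358, -12)],
      [(22, -60), (33, -108), (34, -24), (45, -12), (66, 60), (77, -48), (78, -36), (90, -36),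
      (102, 72), (106, -60), (110, 60), (113, -120), (114, -24), (117, 48), (154, 12), (155,
      -48), (166, -12), (177, 12), (211, 24), (213, -12), (214, 12), (215, -24), (221, 12), (222,
      -48), (223, -72), (226, 36), (234, 48), (275, 12), (286, 48), (297, -12), (298, -24), (308,
      12), (309, -12), (333, 12), (334, -24), (341, -12), (343, 12), (344, -12), (345, 12), (347,
      -12), (352, 12), (353, -12), (354, 24)],
      [(22, -24), (33, -18), (34, -6), (55, -6), (66, 24), (67, 6), (77, -6), (78, -6), (90, -6),
      (102, -30), (106, 12), (110, 24), (113, -18), (117, 6), (154, 6), (155, -6), (166, -6),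
      (176, 12), (177, 6), (188, -6), (211, -18), (215, 18), (220, 6), (221, 6), (222, -6), (223,
      12), (224, -6), (225, -6), (226, 6), (234, 6), (236, 12), (275, 18), (276, 6), (286, 6),
      (287, -12), (297, -6), (308, 6), (331, 6), (341, -6), (343, 6), (344, 6), (352, 6), (354,
      6), (355, -6), (356, -6), (357, 6), (358, -6)],
      [(22, 30), (33, 27), (34, 9), (45, 6), (55, 9), (56, 24), (66, -30), (67, -9), (77, 15),
      (78, 9), (90, 9), (102, 33), (106, -12), (110, -30), (112, -24), (113, 33), (116, 24),
      (117, -15), (154, 3), (155, -3), (166, 9), (176, -18), (177, -21), (188, 9), (211, 21),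
      (213, 6), (214, 6), (215, -21), (220, -9), (221, -21), (222, 15), (223, -24), (224, -27),
      (225, -21), (226, -21), (234, -3), (236, -18), (237, -24), (275, -15), (276, -15), (286,
      -15), (287, 24), (297, -3), (308, 3), (309, 6), (331, -9), (333, -6), (341, -3), (343, 3),
      (344, 15), (345, 6), (347, -12), (352, 3), (353, 6), (354, -15), (355, 15), (356, 3), (357,
      -3), (358, 15)],
      [(33, 48), (45, -24), (77, 24), (154, -24), (166, 24)],
      [],
      [],
      [],
      []],
    [[],
      [],
      [(56, -24)],
      [(22, -24), (33, -48), (45, -36), (66, 24), (77, -12), (93, 12), (102, -48), (105, 12),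
      (106, 24), (110, 24), (113, -60), (117, 36), (154, 12), (155, -12), (177, 12), (198, -12),
      (211, -24), (213, -24), (214, -24), (215, 24), (221, 12), (222, 12), (223, 12), (225, 12),
      (226, 24), (234, 12), (275, 12), (276, 12), (286, 12), (287, -12), (297, -12), (308, 12),
      (333, 24), (341, -12), (343, 12), (344, -12), (347, -12), (352, 12), (354, 12), (355, -12),
      (356, 12), (357, -12), (358, -12)],
      [(22, -24), (33, -48), (66, 24), (77, -24), (78, -12), (90, -12), (102, 24), (106, -24),
      (110, 24), (113, -48), (117, 24), (155, -12), (211, 12), (215, -12), (222, -24), (223,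
      -24), (226, 24), (234, 24), (286, 24), (298, -24)],
      [(22, -24), (34, -12), (55, -12), (66, 24), (67, 12), (78, -12), (90, -12), (102, -12),
      (110, 24), (176, 24), (188, -12), (211, -12), (215, 12), (220, 12), (223, 12), (224, 12),
      (275, 24), (287, -12), (331, 12), (347, 12)],
      [(22, 24), (33, 12), (34, 12), (55, 12), (56, 24), (66, -24), (67, -12), (77, 12), (78,
      12), (90, 12), (102, 12), (110, -24), (112, -24), (113, 12), (116, 24), (117, -12), (154,
      12), (155, -12), (166, 12), (176, -24), (177, -12), (188, 12), (211, 12), (215, -12), (220,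
      -12), (221, -12), (222, 12), (223, -24), (224, -36), (225, -12), (226, -12), (234, 12),
      (236, -24), (237, -48), (275, -12), (276, -12), (286, -12), (287, 24), (297, -12), (308,
      12), (331, -12), (341, -12), (343, 12), (344, 12), (347, -24), (352, 12), (354, -12), (355,
      12), (356, 12), (357, 12), (358, 12)],
      [],
      [],
      [],
      []],
    [[],
      [(22, 120), (33, 216), (34, 48), (45, 24), (66, -120), (77, 96), (78, 72), (90, 72), (102,
      -96), (106, 72), (110, -120), (113, 240), (114, 48), (117, -96), (154, -24), (155, 72),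
      (166, 24), (177, -24), (211, -24), (213, 24), (214, -24), (215, 24), (221, -24), (222, 96),
      (223, 96), (226, -72), (234, -96), (275, -24), (286, -96), (297, 24), (298, 48), (308,
      -24), (309, 24), (333, -24), (334, 48), (341, 24), (343, -24), (344, 24), (345, -24), (347,
      24), (352, -24), (353, 24), (354, -48)],
      [(55, 24), (67, -24)],
      [(22, -30), (33, -21), (34, -15), (45, -6), (55, -15), (56, -48), (66, 30), (67, 15), (77,
      -21), (78, -15), (90, -15), (102, -15), (110, 30), (112, 48), (113, -27), (116, -48), (117,
      21), (154, -21), (155, 21), (166, -15), (176, 30), (177, 27), (188, -15), (211, -15), (213,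
      -6), (214, -6), (215, 15), (220, 15), (221, 27), (222, -21), (223, 36), (224, 45), (225,
      15), (226, 27), (234, -15), (236, 30), (237, 48), (275, 9), (276, 21), (286, 21), (287,
      -36), (297, 21), (308, -21), (309, -6), (331, 15), (333, 6), (341, 21), (343, -21), (344,
      -9), (345, -6), (347, 36), (352, -21), (353, -6), (354, 21), (355, -21), (356, -9), (357,
      -15), (358, -21)],
      [(22, -12), (33, -72), (45, -24), (66, 12), (77, -24), (93, 12), (102, -24), (105, 12),
      (106, 12), (110, 12), (113, -24), (117, 24), (154, 36), (155, -12), (177, 12), (198, -12),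
      (211, -12), (213, -12), (214, -12), (215, 12), (221, 12), (222, 24), (234, 24), (275, 12),
      (297, -12), (308, 12), (309, -12), (333, 12), (341, -12), (343, 12), (344, -12), (345, 12),
      (347, -12), (352, 12), (353, -12)],
      [(22, 24), (34, 24), (45, 24), (66, -24), (78, 12), (90, 12), (102, -24), (110, -24), (113,
      24), (114, 48), (154, 24), (155, 12), (211, -12), (215, 12), (222, 24), (223, 24), (226,
      -24), (286, -24), (346, 24), (354, -24)],
      [(22, -24), (33, -18), (34, -18), (55, 6), (66, 24), (67, -6), (77, -6), (78, -18), (90,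
      -18), (102, 6), (106, -12), (110, 24), (113, -18), (117, 6), (154, 6), (155, -6), (166,
      -6), (176, 12), (177, 6), (188, 6), (211, -6), (215, 6), (220, 18), (221, 6), (222, -6),
      (224, 6), (225, -6), (226, 6), (234, 6), (236, 12), (275, 18), (276, 6), (286, 6), (297,
      -6), (308, 6), (331, 18), (341, -6), (343, 6), (344, 6), (347, 12), (352, 6), (354, 6),
      (355, -6), (356, -6), (357, 6), (358, -6)],
      [],
      [],
      [],
      []],
    [[(22, -6), (33, 33), (34, 3), (45, -6), (55, 3), (56, -24), (66, 6), (67, -3), (77, -3),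
      (78, 3), (90, 3), (102, -21), (106, 12), (110, 6), (112, 48), (113, 27), (116, -48), (117,
      3), (154, -15), (155, -9), (166, 3), (176, -6), (177, 9), (188, 3), (211, -9), (213, -6),
      (214, -6), (215, 9), (220, -3), (221, 9), (222, -3), (224, -9), (225, 9), (226, 9), (234,
      -9), (236, -6), (237, 24), (275, 3), (276, 3), (286, 3), (297, 15), (308, 9), (309, -6),
      (331, -3), (333, 6), (341, 39), (343, 9), (344, -3), (345, -6), (347, -12), (352, 9), (353,
      -30), (354, 3), (355, -3), (356, 9), (357, -9), (358, -3)],
      [],
      [(22, 60), (33, 108), (34, 24), (45, 12), (66, -60), (77, 48), (78, 24), (90, 48), (102,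
      -48), (106, 36), (110, -60), (113, 120), (114, 24), (117, -48), (154, -12), (155, 36),
      (166, 12), (177, -12), (211, -12), (213, 12), (214, -12), (215, 12), (221, -12), (222, 48),
      (223, 48), (226, -36), (234, -48), (275, -12), (286, -48), (297, 12), (298, 24), (308,
      -12), (309, 12), (333, -12), (334, 24), (341, 12), (343, -12), (344, 12), (345, -12), (347,
      12), (352, -12), (353, 12), (354, -24)],
      [(34, 12), (55, 12), (67, -12), (91, 24), (102, 12), (115, -24), (155, -12), (188, 12),
      (220, 12), (223, -12), (224, -12), (287, 12), (331, 12), (347, -12)],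
      [(22, -30), (33, -3), (34, -9), (45, -6), (55, -33), (56, -24), (66, 30), (67, 33), (77,
      -15), (78, -9), (88, -24), (90, -9), (91, -24), (100, 24), (102, -33), (106, 12), (110,
      30), (112, 24), (113, -9), (115, 24), (116, -24), (117, 15), (154, -27), (155, 3), (166,
      -9), (176, 18), (177, -3), (188, -33), (209, 24), (211, -21), (212, 24), (213, 18), (214,
      -6), (215, 21), (220, -15), (221, -27), (222, -15), (223, 24), (224, 27), (225, 21), (226,
      21), (234, -21), (236, 18), (237, 48), (275, 15), (276, -9), (286, 15), (287, -24), (297,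
      27), (308, -3), (309, -6), (320, -24), (331, 9), (333, 6), (336, 24), (341, 27), (343, -3),
      (344, -15), (345, -6), (347, 12), (352, -3), (353, -6), (354, 15), (355, -15), (356, -3),
      (357, -21), (358, -15)],
      [(33, -36), (45, 12), (77, -24), (93, 12), (105, 12), (154, 24), (166, -12), (198, 12),
      (226, -12)],
      [(22, -60), (33, -108), (34, -24), (45, -12), (55, -24), (66, 36), (77, -48), (78, -24),
      (91, 24), (99, -24), (102, 24), (106, -36), (110, 36), (113, -120), (114, -24), (117, 48),
      (154, 12), (155, -36), (166, -12), (177, 12), (211, 12), (213, -12), (214, 12), (215, -12),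
      (221, 12), (222, -48), (223, -48), (226, 36), (234, 48), (275, 12), (286, 48), (297, -12),
      (298, -24), (308, 12), (309, -12), (319, 24), (331, -24), (333, 12), (334, -24), (341,
      -12), (343, 12), (344, -12), (345, 12), (347, -12), (352, 12), (353, -12), (354, 24)],
      [(22, -24), (23, -8), (33, -22), (34, -6), (55, 2), (66, 24), (67, -2), (77, -10), (78,
      -14), (79, -8), (90, -14), (95, 16), (102, 2), (106, -4), (110, 24), (113, -22), (115, -8),
      (117, 10), (154, 2), (155, -18), (166, -10), (176, 12), (177, 2), (188, 2), (211, -10),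
      (212, 16), (215, 10), (220, 14), (221, 2), (222, -10), (223, -8), (224, -6), (225, -2),
      (226, 10), (234, 2), (236, 12), (275, 14), (276, 2), (286, 10), (287, 8), (297, -2), (308,
      2), (331, 22), (341, -2), (343, 10), (344, 2), (347, -4), (352, 2), (354, 10), (355, -10),
      (356, -2), (357, 2), (358, -10)],
      [],
      [],
      []],
    [[(22, -48), (33, -48), (55, 24), (66, 48), (77, -24), (78, -24), (90, -24), (99, 24), (110,
      48), (113, -48), (115, -24), (117, 24), (155, -24), (166, -24), (176, 24), (211, -24),
      (215, 24), (220, 24), (222, -24), (226, 24), (236, 24), (275, 24), (286, 24), (331, 48),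
      (354, 24), (355, -24), (358, -24)],
      [(22, -4), (33, 22), (34, 2), (45, -4), (55, 2), (56, -16), (66, 4), (67, -2), (77, -2),
      (78, 2), (88, -16), (90, 2), (100, 8), (102, -14), (106, 8), (110, 4), (112, 40), (113,
      18), (116, -32), (117, 2), (154, -10), (155, -6), (166, 2), (176, -4), (177, 6), (188, 2),
      (211, -6), (213, -4), (214, -4), (215, 6), (220, -2), (221, 6), (222, -2), (224, -6), (225,
      6), (226, 6), (234, -6), (236, -4), (237, 16), (275, 2), (276, 2), (286, 2), (297, 10),
      (308, 6), (309, -4), (331, -2), (333, 4), (341, 26), (343, 6), (344, -2), (345, -4), (347,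
      -8), (352, 6), (353, -20), (354, 2), (355, -2), (356, 6), (357, -6), (358, -2)],
      [(34, -24), (66, 24), (93, -24), (102, -24), (110, 24), (113, -24), (114, -24), (198, 24),
      (222, -24), (330, -24), (354, 24)],
      [(22, 60), (33, 108), (34, 24), (45, 12), (66, -60), (77, 48), (78, 24), (90, 24), (102,
      -24), (106, 36), (110, -60), (113, 120), (114, 24), (117, -48), (154, -12), (155, 36),
      (166, 12), (177, -12), (211, -12), (213, 12), (214, -12), (215, 12), (221, -12), (222, 48),
      (223, 48), (226, -36), (234, -48), (275, -12), (286, -48), (297, 12), (298, 24), (308,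
      -12), (309, 12), (333, -12), (334, 24), (341, 12), (343, -12), (344, 12), (345, -12), (347,
      12), (352, -12), (353, 12), (354, -24)],
      [],
      [(22, -28), (33, -14), (34, -10), (45, -4), (55, -10), (56, -40), (66, 28), (67, 10), (77,
      -14), (78, -10), (88, -16), (90, -10), (100, 8), (102, -26), (106, 8), (110, 28), (112,
      16), (113, -18), (116, -8), (117, 14), (154, -22), (155, 6), (166, -10), (176, 20), (177,
      18), (188, -10), (209, 24), (211, -18), (213, -4), (214, -4), (215, 18), (220, 10), (221,
      -6), (222, -14), (223, 24), (224, 30), (225, 18), (226, 18), (234, -18), (236, 20), (237,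
      40), (275, 14), (276, 14), (286, 14), (287, -24), (297, 22), (308, -6), (309, -4), (331,
      10), (333, 4), (341, 14), (343, -6), (344, -14), (345, -4), (347, 16), (352, -6), (353, 4),
      (354, 14), (355, -14), (356, -6), (357, -18), (358, -14)],
      [(33, -36), (45, 12), (77, -24), (93, -12), (105, 12), (154, 24), (166, -12), (198, 12),
      (226, -12)],
      [],
      [(212, 24)],
      [(22, -32), (33, 2), (34, -14), (45, -8), (55, -14), (56, -56), (66, 32), (67, 14), (77,
      -10), (78, -14), (88, -32), (90, -14), (100, 16), (102, -22), (106, 4), (110, 32), (112,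
      8), (113, -6), (116, 8), (117, 10), (154, -38), (155, 6), (166, -2), (176, 28), (177, 18),
      (188, -14), (209, 48), (211, -18), (213, 16), (214, -8), (215, 18), (220, 14), (221, -30),
      (222, -10), (223, 24), (224, 42), (225, 30), (226, 18), (234, -30), (236, 28), (237, 56),
      (275, 22), (276, 10), (286, 10), (287, -24), (297, 38), (308, -6), (309, -8), (331, 14),
      (333, 8), (341, 22), (343, -6), (344, -22), (345, -8), (347, 20), (352, -6), (353, 8),
      (354, 10), (355, -10), (356, -18), (357, -30), (358, -10)],
      [(33, -84), (45, 36), (77, -48), (93, -12), (105, 36), (154, 48), (166, -36), (198, 12),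
      (214, 24), (226, -36)]],
    [[(22, 180), (33, 324), (34, 72), (45, 36), (66, -156), (77, 144), (78, 96), (90, 96), (102,
      -144), (106, 108), (110, -156), (113, 360), (114, 72), (117, -144), (154, -36), (155, 108),
      (166, 36), (177, -36), (211, -36), (213, 36), (214, -36), (215, 36), (221, -36), (222,
      144), (223, 144), (226, -108), (234, -144), (275, -36), (286, -144), (297, 36), (298, 72),
      (308, -36), (309, 36), (333, -36), (334, 72), (341, 36), (343, -36), (344, 36), (345, -36),
      (347, 36), (352, -36), (353, 36), (354, -72)],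
      [(22, -48), (33, -48), (34, -12), (55, -12), (66, 48), (67, 12), (77, -24), (78, -24), (90,
      -24), (102, -12), (110, 48), (113, -48), (117, 24), (155, -12), (166, -24), (176, 24),
      (188, -12), (211, -24), (215, 24), (220, 12), (222, -24), (223, 12), (224, 12), (226, 24),
      (236, 24), (275, 24), (286, 24), (287, -12), (331, 36), (347, 12), (354, 24), (355, -24),
      (358, -24)],
      [(22, -2), (33, 11), (34, 1), (45, -2), (55, 1), (56, -8), (66, 2), (67, -1), (77, -1),
      (78, 1), (88, -8), (90, 1), (100, -8), (102, -7), (106, 4), (110, 2), (112, 32), (113, 9),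
      (116, -16), (117, 1), (154, -5), (155, -3), (166, 1), (176, -2), (177, 3), (188, 1), (211,
      -3), (213, -2), (214, -2), (215, 3), (220, -1), (221, 3), (222, -1), (224, -3), (225, 3),
      (226, 3), (234, -3), (236, -2), (237, 8), (275, 1), (276, 1), (286, 1), (297, 5), (308, 3),
      (309, -2), (331, -1), (333, 2), (341, 13), (343, 3), (344, -1), (345, -2), (347, -4), (352,
      3), (353, -10), (354, 1), (355, -1), (356, 3), (357, -3), (358, -1)],
      [(33, 60), (45, 12), (77, 24), (93, -12), (105, -12), (154, -24), (166, 12), (198, 12),
      (222, -24), (226, 12)],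
      [],
      [(34, 12), (55, 12), (67, -12), (102, 12), (155, -12), (188, 12), (220, 12), (223, -12),
      (224, -12), (287, 12), (331, 12), (347, -12)],
      [(22, -26), (33, -1), (34, -11), (45, -2), (55, -11), (56, -32), (66, 26), (67, 11), (77,
      -13), (78, -11), (88, -8), (90, -11), (100, -8), (102, -19), (106, 4), (110, 26), (112,
      32), (113, -3), (116, -16), (117, 13), (154, -17), (155, 9), (166, -11), (176, 22), (177,
      15), (188, -11), (211, -15), (213, -2), (214, -2), (215, 15), (220, 11), (221, 15), (222,
      -13), (223, 24), (224, 33), (225, 15), (226, 15), (234, -15), (236, 22), (237, 32), (275,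
      13), (276, 13), (286, 13), (287, -24), (297, 17), (308, -9), (309, -2), (331, 11), (333,
      2), (341, 25), (343, -9), (344, -13), (345, -2), (347, 20), (352, -9), (353, -10), (354,
      13), (355, -13), (356, -9), (357, -15), (358, -13)],
      [(33, 24), (45, 24), (93, -24), (105, -24), (198, 24), (222, -24)],
      [(22, -60), (33, -108), (34, -24), (45, -12), (66, 60), (77, -48), (78, -24), (90, -24),
      (102, 48), (106, -60), (110, 60), (113, -120), (114, -24), (117, 48), (154, 12), (155,
      -36), (166, -12), (177, 12), (211, 12), (213, -12), (214, 12), (215, -12), (221, 12), (222,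
      -48), (223, -48), (226, 36), (234, 48), (275, 12), (286, 48), (297, -12), (298, -24), (308,
      12), (309, -12), (333, 12), (334, -24), (341, -12), (343, 12), (344, -12), (345, 12), (347,
      -12), (352, 12), (353, -12), (354, 24)],
      [(22, -24), (33, -18), (34, 18), (55, 18), (66, 24), (67, -18), (77, -6), (78, -6), (90,
      -6), (102, -6), (106, 12), (110, 24), (113, -18), (117, 6), (154, 6), (155, -30), (166,
      -6), (176, 12), (177, 6), (188, 18), (211, -18), (215, 18), (220, 30), (221, 6), (222, -6),
      (223, -12), (224, -6), (225, -6), (226, 6), (234, 6), (236, 12), (275, 18), (276, 6), (286,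
      6), (287, 12), (297, -6), (308, 6), (331, 30), (341, -6), (343, 6), (344, 6), (347, -24),
      (352, 6), (354, 6), (355, -6), (356, -6), (357, 6), (358, -6)],
      [(22, -22), (33, 25), (34, -13), (45, 2), (55, -13), (56, -40), (66, 22), (67, 13), (77,
      -11), (78, -13), (88, -16), (90, -13), (100, -16), (102, -5), (106, -4), (110, 22), (112,
      40), (113, 27), (116, -8), (117, 11), (154, -31), (155, 15), (166, -13), (176, 26), (177,
      9), (188, -13), (211, -9), (213, 2), (214, 2), (215, 9), (220, 13), (221, 9), (222, -11),
      (223, 24), (224, 39), (225, 33), (226, 9), (234, -33), (236, 26), (237, 40), (275, 11),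
      (276, 11), (286, 11), (287, -24), (297, 31), (308, -15), (309, 2), (331, 13), (333, -2),
      (341, 47), (343, -15), (344, -11), (345, 2), (347, 28), (352, -15), (353, -14), (354, 11),
      (355, -11), (356, -15), (357, -33), (358, -11)]],
    [[(22, 24), (33, -24), (45, 36), (66, -24), (77, -12), (93, -12), (102, 48), (105, -12),
      (106, -24), (110, -24), (113, 108), (117, -60), (154, 12), (155, 12), (166, -24), (177,
      -12), (198, 12), (211, 24), (213, 24), (214, 24), (215, -24), (221, -12), (222, 12), (223,
      -12), (225, -12), (226, -48), (234, -36), (275, -12), (276, -12), (286, -12), (287, 12),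
      (297, 12), (308, -12), (333, -24), (341, 12), (343, -12), (344, 12), (347, 12), (352, -12),
      (354, -12), (355, 12), (356, -12), (357, 12), (358, 12)],
      [],
      [(22, -48), (33, -48), (34, -24), (55, -24), (66, 48), (67, 24), (77, -24), (78, -24), (90,
      -24), (102, -24), (110, 48), (113, -48), (117, 24), (155, -24), (166, -24), (176, 24),
      (211, -24), (215, 24), (220, 24), (222, -24), (226, 24), (236, 24), (275, 24), (286, 24),
      (331, 24), (343, 24), (354, 24), (355, -24), (358, -24)],
      [(22, 24), (33, 12), (34, 12), (55, 12), (56, 24), (66, -24), (67, -12), (77, 12), (78,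
      12), (90, 12), (102, 12), (110, -24), (112, -24), (113, 12), (116, 24), (117, -12), (154,
      12), (155, -12), (166, 12), (176, -24), (177, -12), (188, 12), (211, 12), (215, -12), (220,
      -12), (221, -12), (222, 12), (223, -24), (224, -36), (225, -12), (226, -12), (234, 12),
      (236, -24), (237, -24), (275, -12), (276, -12), (286, -12), (287, 24), (297, -12), (308,
      12), (331, -12), (341, -12), (343, 12), (344, 12), (347, -24), (352, 12), (354, -12), (355,
      12), (356, 12), (357, 12), (358, 12)],
      [(33, 60), (45, 12), (77, 24), (93, -12), (105, -12), (113, -24), (154, -24), (166, 12),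
      (198, 12), (222, -24), (226, 12)],
      [(22, -60), (33, -108), (34, -24), (45, -12), (66, 60), (77, -48), (78, -24), (90, -24),
      (102, 48), (106, -36), (110, 60), (113, -120), (114, -48), (117, 48), (154, 12), (155,
      -36), (166, -12), (177, 12), (211, 12), (213, -12), (214, 12), (215, -12), (221, 12), (222,
      -48), (223, -48), (226, 36), (234, 48), (275, 12), (286, 48), (297, -12), (298, -24), (308,
      12), (309, -12), (333, 12), (334, -24), (341, -12), (343, 12), (344, -12), (345, 12), (347,
      -12), (352, 12), (353, -12), (354, 24)],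
      [],
      [],
      [(33, 24), (45, 24), (93, -24), (105, -24), (117, -24), (198, 24), (222, -24)],
      [(22, -144), (33, -264), (34, -48), (45, -24), (66, 144), (77, -120), (78, -48), (90, -48),
      (102, 96), (106, -96), (110, 144), (113, -288), (114, -96), (117, 120), (154, 24), (155,
      -96), (166, -48), (177, 24), (211, 24), (213, -24), (214, 24), (215, -24), (221, 24), (222,
      -120), (223, -120), (226, 96), (234, 96), (275, 24), (286, 120), (297, -24), (298, -48),
      (308, 24), (309, -24), (333, 24), (334, -48), (341, -24), (343, 24), (344, -24), (345, 24),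
      (347, -24), (352, 24), (353, -24), (354, 72), (358, -24)],
      [(22, -24), (34, -12), (55, -12), (66, 24), (67, 12), (78, -12), (90, -12), (102, -12),
      (110, 24), (176, 24), (188, -12), (211, -12), (215, 12), (220, 12), (223, 12), (224, 12),
      (236, 24), (275, 24), (287, -12), (331, 12), (347, 12)]]]
  A := [[[(22, 24), (23, 8), (33, 22), (34, 18), (55, 10), (66, -24), (67, -10), (77, 10), (78, 14),
      (79, 8), (90, 14), (95, 8), (102, 10), (106, 4), (110, -24), (113, 22), (115, -16), (117,
      -10), (154, -2), (155, 6), (166, 10), (176, -12), (177, -2), (188, 10), (211, 10), (212,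
      8), (215, -10), (220, -2), (221, -2), (222, 10), (223, -4), (224, -6), (225, 2), (226,
      -10), (234, -2), (236, -12), (275, -14), (276, -2), (286, -10), (287, 4), (297, 2), (308,
      -2), (331, -10), (341, 2), (343, -10), (344, -2), (347, -8), (352, -2), (354, -10), (355,
      10), (356, 2), (357, -2), (358, 10)],
      [],
      [],
      [(22, 2), (33, -11), (34, -1), (45, 2), (55, -1), (56, 8), (66, -2), (67, 1), (77, 1), (78,
      -1), (88, 8), (90, -1), (100, 8), (102, 7), (106, -4), (110, -2), (112, -8), (113, -9),
      (116, 16), (117, -1), (154, 5), (155, 3), (166, -1), (176, 2), (177, -3), (188, -1), (211,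
      3), (213, 2), (214, 2), (215, -3), (220, 1), (221, -3), (222, 1), (224, 3), (225, -3),
      (226, -3), (234, 3), (236, 2), (237, -8), (275, -1), (276, -1), (286, -1), (297, -5), (308,
      -3), (309, 2), (331, 1), (333, -2), (341, -13), (343, -3), (344, 1), (345, 2), (347, 4),
      (352, -3), (353, 10), (354, -1), (355, 1), (356, -3), (357, 3), (358, 1)],
      [(34, -12), (55, -12), (67, 12), (102, -12), (115, 24), (155, 12), (188, -12), (220, -12),
      (223, 12), (224, 12), (287, -12), (331, -12), (347, 12)],
      [(22, -60), (33, -108), (34, -24), (45, -12), (66, 60), (77, -48), (78, -24), (90, -24),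
      (102, 48), (106, -36), (110, 60), (113, -120), (114, -24), (117, 48), (154, 12), (155,
      -36), (166, -12), (177, 12), (211, 12), (213, -12), (214, 12), (215, -12), (221, 12), (222,
      -48), (223, -48), (226, 36), (234, 48), (275, 12), (286, 48), (297, -12), (298, -24), (308,
      12), (309, -12), (333, 12), (334, -24), (341, -12), (343, 12), (344, -12), (345, 12), (347,
      -12), (352, 12), (353, -12), (354, 24)],
      [],
      [],
      [(55, -24)],
      [(22, -120), (33, -216), (34, -48), (45, -24), (66, 96), (77, -96), (78, -72), (90, -72),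
      (102, 96), (106, -72), (110, 120), (113, -240), (114, -48), (117, 96), (154, 24), (155,
      -72), (166, -24), (177, 24), (211, 24), (213, -24), (214, 24), (215, -24), (221, 24), (222,
      -96), (223, -96), (226, 72), (234, 96), (275, 24), (286, 96), (297, -24), (298, -48), (308,
      24), (309, -24), (333, 24), (334, -48), (341, -24), (343, 24), (344, -24), (345, 24), (347,
      -24), (352, 24), (353, -24), (354, 48)]],
    [[],
      [(34, -24), (78, -12), (90, -12), (155, 12), (211, 12), (215, 12)],
      [(33, 12), (45, -12), (93, -12), (105, -12), (166, 12), (198, 12), (226, 12)],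
      [],
      [],
      [(78, -12), (90, -12), (102, 24), (155, -12), (211, 12), (215, -12)],
      [(22, -24), (33, 48), (45, -36), (66, 24), (77, 36), (93, 12), (102, -48), (105, 12), (106,
      24), (110, 24), (113, -108), (117, 60), (154, -36), (155, -12), (166, 24), (177, 12), (198,
      -12), (211, -24), (213, -24), (214, -24), (215, 24), (221, 12), (222, -12), (223, 12),
      (225, 12), (226, 48), (234, 36), (275, 12), (276, 12), (286, 12), (287, -12), (297, -12),
      (308, 12), (333, 24), (341, -12), (343, 12), (344, -12), (347, -12), (352, 12), (354, 12),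
      (355, -12), (356, 12), (357, -12), (358, -12)],
      [(22, 24), (33, 12), (34, 12), (55, 12), (56, 24), (66, -24), (67, -12), (77, 12), (78,
      12), (90, 12), (102, 12), (110, -24), (113, 12), (117, -12), (154, 12), (155, -12), (166,
      12), (176, -24), (177, -12), (188, 12), (211, 12), (215, -12), (220, -12), (221, 12), (222,
      12), (223, -24), (224, -36), (225, -12), (226, -12), (234, 12), (236, -24), (237, -24),
      (275, -12), (276, -12), (286, -12), (287, 24), (297, -12), (308, 12), (331, -12), (341,
      -12), (343, 12), (344, 12), (347, -24), (352, 12), (354, -12), (355, 12), (356, 12), (357,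
      12), (358, 12)],
      [(22, -48), (33, -48), (34, -24), (55, -24), (66, 48), (67, 24), (77, -24), (78, -24), (90,
      -24), (102, -24), (110, 48), (113, -48), (117, 24), (166, -24), (176, 24), (188, -24),
      (211, -24), (215, 24), (220, 24), (222, -24), (223, 24), (224, 24), (226, 24), (236, 24),
      (275, 24), (286, 24), (287, -24), (331, 24), (347, 24), (354, 24), (355, -24), (358, -24)],
      [(22, 60), (33, 108), (34, 48), (45, 36), (66, -60), (77, 48), (78, 36), (90, 36), (102,
      -72), (106, 36), (110, -60), (113, 144), (114, 72), (117, -48), (154, 12), (155, 48), (166,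
      12), (177, -12), (187, -24), (211, -24), (213, 12), (214, -12), (215, 24), (221, -12),
      (222, 72), (223, 72), (226, -60), (234, -48), (275, -12), (286, -72), (297, 12), (298, 24),
      (308, -12), (309, 12), (333, -12), (334, 24), (341, 12), (343, -12), (344, 12), (345, -12),
      (346, 24), (347, 12), (352, -12), (353, 12), (354, -48)]],
    [[],
      [(22, 22), (33, 23), (34, 13), (45, -2), (55, -11), (56, -8), (66, -22), (67, 11), (77,
      11), (78, 13), (88, -8), (90, 13), (100, 16), (102, 5), (106, 4), (110, -22), (112, -16),
      (113, 21), (116, 8), (117, -11), (154, -17), (155, 9), (166, 13), (176, -2), (177, -9),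
      (188, -11), (209, 24), (211, 9), (212, 24), (213, 22), (214, -2), (215, -9), (220, -13),
      (221, -33), (222, 11), (224, 9), (225, 15), (226, -9), (234, -15), (236, -2), (237, 32),
      (275, -11), (276, -11), (286, -11), (297, 17), (308, -9), (309, -2), (331, -13), (333, 2),
      (336, 24), (341, 1), (343, -9), (344, -13), (345, -2), (347, -4), (352, -9), (353, 14),
      (354, -11), (355, 11), (356, -9), (357, -15), (358, 11)],
      [],
      [(22, -24), (33, -36), (34, -24), (45, -12), (66, 24), (77, -24), (78, -12), (90, -12),
      (93, -12), (102, 24), (105, -12), (106, -24), (110, 24), (113, -24), (114, -24), (155,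
      -12), (166, -12), (198, 12), (211, 12), (215, -12), (222, -24), (223, -24), (226, 12),
      (286, 24), (354, 24)],
      [(22, 6), (33, -21), (34, -3), (45, 18), (55, -3), (66, -6), (67, 3), (77, -21), (78, -3),
      (90, -3), (93, -12), (102, 21), (105, -12), (106, -12), (110, -6), (113, 45), (117, -27),
      (154, 15), (155, 9), (166, -15), (176, 6), (177, -9), (188, -3), (198, 12), (211, 9), (213,
      6), (214, 6), (215, -9), (220, 3), (221, -9), (222, 3), (224, 9), (225, -9), (226, -21),
      (234, -15), (236, 6), (275, -3), (276, -3), (286, -3), (297, 9), (308, -9), (309, 6), (331,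
      3), (333, -6), (341, 9), (343, -9), (344, 3), (345, 6), (347, 12), (352, -9), (353, 6),
      (354, -3), (355, 3), (356, -9), (357, 9), (358, 3)],
      [],
      [(22, -12), (33, -60), (34, -12), (45, -12), (55, 12), (66, 12), (67, -12), (77, -24), (78,
      -24), (90, -24), (102, 84), (106, -36), (110, 12), (113, -72), (114, -24), (117, 24), (154,
      12), (155, -24), (166, 12), (176, -24), (177, 12), (188, 12), (211, 36), (213, -12), (214,
      12), (215, -36), (220, -12), (221, 12), (222, -24), (223, -60), (224, -12), (226, 12),
      (234, 48), (236, -24), (275, -12), (286, 24), (287, 12), (297, -12), (298, -24), (308, 12),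
      (309, -12), (331, -12), (333, 12), (334, -24), (341, -12), (343, 12), (344, -12), (345,
      12), (347, -24), (352, 12), (353, -12), (355, 24), (358, 24)],
      [(22, -120), (33, -120), (34, -48), (45, -60), (66, 120), (77, -36), (78, -60), (90, -60),
      (93, 12), (102, 24), (105, 12), (106, -24), (110, 120), (113, -348), (114, -48), (117,
      156), (154, -12), (155, -72), (166, 24), (177, 36), (198, -12), (211, -12), (213, -48),
      (215, 12), (221, 36), (222, -108), (223, -60), (225, 12), (226, 120), (234, 132), (275,
      36), (276, 12), (286, 84), (287, -12), (297, -36), (298, -48), (308, 36), (309, -24), (333,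
      48), (334, -48), (341, -36), (343, 36), (344, -36), (345, 24), (347, -36), (352, 36), (353,
      -24), (354, 60), (355, -12), (356, 12), (357, -12), (358, -12)],
      [(22, -6), (33, 93), (34, 15), (45, -42), (55, 15), (56, 24), (66, 6), (67, -15), (77, 69),
      (78, 15), (90, 15), (93, 12), (102, -57), (105, 12), (106, 36), (110, 6), (112, -24), (113,
      -165), (116, 24), (117, 75), (154, -39), (155, -33), (166, 63), (176, -30), (177, 9), (188,
      15), (198, -12), (211, -21), (213, -30), (214, -30), (215, 21), (220, -15), (221, 9), (222,
      -27), (223, -12), (224, -45), (225, 9), (226, 69), (234, 63), (236, -30), (237, -24), (275,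
      3), (276, 3), (286, 3), (287, 12), (297, -33), (308, 33), (309, -6), (331, -15), (333, 30),
      (341, -33), (343, 33), (344, -3), (345, -6), (347, -48), (352, 33), (353, 18), (354, 3),
      (355, -3), (356, 33), (357, -9), (358, -3)],
      [(22, -24), (33, -60), (34, -12), (55, -12), (56, 24), (66, 24), (67, 12), (77, -12), (78,
      -12), (90, -12), (102, -12), (110, 24), (112, -48), (113, -60), (116, 48), (117, 12), (154,
      12), (155, -36), (166, -12), (177, -12), (188, 12), (211, -12), (215, 12), (220, 12), (221,
      -12), (222, -12), (223, -24), (224, -36), (225, -12), (226, 12), (234, 12), (237, -24),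
      (275, 12), (276, -12), (286, 12), (287, 24), (297, -12), (308, 12), (331, 12), (341, -36),
      (343, 36), (344, 12), (347, -24), (352, 36), (353, 24), (354, 12), (355, -12), (356, 12),
      (357, 12), (358, -12)]]]
  W := [[[],
      [],
      [],
      [],
      [[(231, 24)]],
      [],
      [],
      [],
      [[],
       [(88, 24), (100, 24), (220, -24), (232, -24)],
       [],
       [],
       [(110, 24), (210, 24), (331, -24)],
       [],
       [(209, -24)]],
      [[],
       [],
       [(220, 24), (232, 24)],
       [],
       [(110, 24), (221, 24), (342, -24)],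
       [(99, -24), (231, 24)]],
      [[],
       [(110, 24), (342, -24)]]],
    [[],
      [],
      [],
      [],
      [[(111, 24), (352, 24)]],
      [],
      [],
      [[],
       [(89, 24), (209, -24)]],
      [[],
       [(100, 24), (220, -24), (232, -24)]],
      [],
      [[(232, -24), (341, -24)],
       [(342, -24)],
       [(111, -24)],
       [],
       [(353, 24)]]],
    [[],
      [],
      [],
      [],
      [],
      [],
      [],
      [],
      [[],
       [],
       [(331, -24), (342, 24)],
       [],
       [],
       [(232, -24), (330, 24), (341, -24)]],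
      [[],
       [(232, 24)]],
      []]]

theorem ce0_ck : ce0.ckW bs dl 11 0 = true := by decide +kernel

/-- certificate -/
def ce1 : Cer where
  den := 1
  N := [[],
    [],
    [[(77, 1), (89, -1)],
      [(78, 1)],
      [],
      [],
      [],
      [],
      [],
      [],
      [],
      [],
      []],
    [[(44, 1)],
      [],
      [(34, -1)],
      [],
      [],
      [],
      [],
      [],
      [],
      [],
      []],
    [[(34, -1), (66, -1), (91, 1), (99, -1), (110, -1), (199, -1), (211, 1), (319, 1), (331,
      -1)],
      [],
      [(34, 1), (44, -1), (56, 1), (114, 1), (221, 1), (233, -1), (341, -1), (342, 1), (353, 1),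
      (354, -1)],
      [],
      [],
      [],
      [],
      [],
      [],
      [],
      []],
    [[(66, 1), (110, 1)],
      [],
      [(56, -1)],
      [],
      [],
      [],
      [],
      [],
      [],
      [],
      []],
    [[],
      [],
      [(67, -1)],
      [],
      [],
      [],
      [],
      [],
      [],
      [],
      []],
    [[(88, 1), (104, -1)],
      [],
      [],
      [(91, 1), (331, -1)],
      [(92, 1), (104, -1)],
      [(33, -1), (66, -1), (89, -1), (93, 1), (102, 1), (110, -1), (330, 1), (342, -1)],
      [(34, 1), (199, 1), (211, -1)],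
      [],
      [],
      [],
      []],
    [[(99, 1)],
      [],
      [],
      [],
      [(331, -1)],
      [],
      [(66, -1), (102, 1), (110, -1), (330, 1), (342, -1)],
      [(90, -1)],
      [],
      [],
      []],
    [[],
      [],
      [(56, 1), (67, 1), (91, -1), (92, -1), (104, 1), (111, 1), (320, -1), (332, 1)],
      [],
      [(102, -1)],
      [(103, -1), (331, -1)],
      [],
      [(33, 1), (66, -1), (89, 1), (102, 1), (105, -1), (110, -1), (330, 1), (342, -1)],
      [],
      [],
      []],
    [[],
      [],
      [(111, -1)],
      [(56, 2), (67, 1), (91, -1), (92, -1), (104, 1), (111, 1), (221, 1), (233, -1), (320, -1),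
      (332, 1)],
      [(44, 1), (56, -1), (221, -1), (233, 1), (341, 1), (353, -1)],
      [(102, -1), (114, -1)],
      [(103, -1), (115, -1), (331, -1)],
      [(56, 1), (67, 1), (91, -1), (92, -1), (104, 2), (111, 1), (112, -1), (320, -1), (332, 1)],
      [],
      [],
      []]]
  A := [[[],
      [],
      [(33, 1), (89, 1)],
      [(104, 1)],
      [],
      [],
      [(33, -1)],
      [],
      [],
      [(110, 1)]],
    [[],
      [(34, -1), (211, 1)],
      [],
      [(56, 1), (67, 1), (91, -1), (92, -1), (104, 1), (111, 1), (221, 1), (320, -1), (332, 1)],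
      [],
      [],
      [(66, 1), (102, -1), (110, 1), (210, 1), (330, -1), (342, 1)],
      [],
      [(103, 1), (111, -1), (115, 1), (232, 1), (331, 1)],
      [(66, 1), (102, 1), (110, 1), (114, 1), (231, 1)]],
    [[],
      [(91, 1), (92, 1), (104, -1), (320, 1), (331, -1)],
      [],
      [],
      [(44, 1), (56, 1), (67, 1), (91, -1), (92, -1), (104, 1), (111, 1), (320, -1), (332, 1),
      (341, 1)],
      [],
      [],
      [(102, -1), (342, 1)],
      [],
      [(34, -1), (44, 1), (56, 2), (66, -1), (67, 1), (92, -1), (99, -1), (103, 1), (104, 1),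
      (110, -1), (115, 1), (199, -1), (211, 1), (221, 1), (233, -1), (319, 1), (320, -1), (332,
      1), (352, 1)]]]
  W := [[[],
      [],
      [],
      [],
      [[],
       [(111, 1), (231, -1), (232, 1)]],
      [[(89, 1), (209, -1)]],
      [],
      [],
      [[],
       [],
       [],
       [],
       [],
       [],
       [(89, -1)]],
      [[],
       [(210, -1)],
       [(220, 1)]],
      [[],
       [],
       [],
       [(111, -1), (231, 1)],
       [],
       [],
       [(111, -1)]]],
    [[],
      [],
      [],
      [],
      [],
      [],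
      [],
      [[(88, 1)]],
      [[(99, 1), (210, 1)]],
      [[(89, -1), (110, 1), (209, 1)],
       [],
       [(100, -1), (111, 1), (220, 1), (231, -1), (232, 1)]],
      []],
    [[],
      [],
      [],
      [],
      [],
      [],
      [],
      [],
      [],
      [[],
       [],
       [(221, -1)]],
      []]]

theorem ce1_ck : ce1.ckW bs dl 11 1 = true := by decide +kernel

/-- certificate -/
def ce2 : Cer where
  den := 1
  N := [[],
    [],
    [[(77, 1), (89, 1), (341, -1), (342, 1)],
      [(78, 1), (110, -1)],
      [],
      [],
      [],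
      [],
      [],
      [],
      [],
      [],
      []],
    [],
    [],
    [],
    [],
    [[(88, 1), (100, 1)],
      [(89, 1)],
      [],
      [],
      [],
      [],
      [],
      [],
      [],
      [],
      []],
    [[(99, 1)],
      [(100, 1)],
      [],
      [(330, -1), (341, 1), (342, -1)],
      [(330, 1), (331, -1), (341, -1), (342, 1)],
      [(100, 1), (209, 1), (221, -1)],
      [],
      [(90, -1), (110, 1)],
      [],
      [],
      []],
    [[],
      [],
      [],
      [(342, -1)],
      [],
      [(220, 1)],
      [],
      [(101, -1)],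
      [],
      [],
      []],
    [[(341, 1), (342, -1)],
      [],
      [(111, -1)],
      [],
      [(353, -1)],
      [],
      [(111, -1), (232, 1)],
      [(112, -1)],
      [],
      [],
      []]]
  A := [[[],
      [],
      [],
      [],
      [],
      [(110, 1)],
      [],
      [],
      [],
      []],
    [[],
      [],
      [],
      [],
      [],
      [],
      [(210, 1)],
      [(221, 1)],
      [],
      [(231, 1)]],
    [[],
      [],
      [],
      [],
      [],
      [],
      [],
      [],
      [],
      [(232, -1), (352, 1)]]]
  W := [[[],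
      [],
      [],
      [],
      [],
      [],
      [],
      [],
      [],
      [],
      []],
    [[],
      [],
      [],
      [],
      [],
      [],
      [],
      [],
      [],
      [],
      []],
    [[],
      [],
      [],
      [],
      [],
      [],
      [],
      [],
      [],
      [],
      []]]

theorem ce2_ck : ce2.ckW bs dl 11 2 = true := by decide +kernel

/-- certificate -/
def ce3 : Cer where
  den := 1
  N := [[],
    [],
    [],
    [[],
      [(353, -1)],
      [],
      [],
      [],
      [],
      [],
      [],
      [],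
      [],
      []],
    [],
    [],
    [],
    [[(88, 1), (100, -1)],
      [(89, 1)],
      [],
      [],
      [],
      [],
      [],
      [],
      [],
      [],
      []],
    [[(99, 1)],
      [],
      [],
      [(330, -1), (341, 1)],
      [],
      [(209, 1), (221, -1)],
      [],
      [],
      [],
      [],
      []],
    [[],
      [],
      [],
      [],
      [(342, -1), (353, 1)],
      [(220, 1)],
      [],
      [],
      [],
      [],
      []],
    [[(341, 1)],
      [],
      [(111, -1)],
      [],
      [],
      [(231, 1)],
      [(111, -1), (232, 1)],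
      [],
      [],
      [],
      []]]
  A := [[[],
      [],
      [],
      [],
      [],
      [(110, 1)],
      [],
      [(100, 1)],
      [],
      []],
    [[],
      [],
      [],
      [(221, 1)],
      [],
      [],
      [(210, 1), (353, -1)],
      [],
      [],
      []],
    [[],
      [],
      [(330, -1), (331, 1), (341, 1)],
      [],
      [],
      [],
      [],
      [],
      [],
      [(232, -1), (352, 1)]]]
  W := [[[],
      [],
      [],
      [],
      [],
      [],
      [],
      [],
      [],
      [],
      []],
    [[],
      [],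
      [],
      [],
      [],
      [],
      [],
      [],
      [],
      [],
      []],
    [[],
      [],
      [],
      [],
      [],
      [],
      [],
      [],
      [],
      [],
      []]]

theorem ce3_ck : ce3.ckW bs dl 11 3 = true := by decide +kernel

/-- certificate -/
def ce4 : Cer where
  den := 1
  N := [[],
    [],
    [],
    [],
    [],
    [],
    [],
    [[(88, 1)],
      [(89, 1)],
      [],
      [],
      [],
      [],
      [],
      [],
      [],
      [],
      []],
    [[(99, 1)],
      [],
      [],
      [],
      [],
      [],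
      [],
      [],
      [],
      [],
      []],
    [[],
      [],
      [(100, -1)],
      [],
      [],
      [],
      [],
      [],
      [],
      [],
      []],
    [[],
      [],
      [(111, -1)],
      [],
      [],
      [],
      [],
      [],
      [],
      [],
      []]]
  A := [[[],
      [],
      [],
      [],
      [],
      [],
      [],
      [],
      [],
      [(110, 1)]],
    [],
    []]
  W := [[[],
      [],
      [],
      [],
      [],
      [],
      [],
      [],
      [],
      [],
      []],
    [[],
      [],
      [],
      [],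
      [],
      [],
      [],
      [],
      [],
      [],
      []],
    [[],
      [],
      [],
      [],
      [],
      [],
      [],
      [],
      [],
      [],
      []]]

theorem ce4_ck : ce4.ckW bs dl 11 4 = true := by decide +kernel

/-- exactness certificates -/
def exs : List TowerCk.EC := [
  ⟨1, [],
    []⟩,
  ⟨1, [],
    []⟩,
  ⟨1, [],
    []⟩,
  ⟨1, [],
    []⟩,
  ⟨1, [],
    []⟩,
  ⟨1, [[[],
      [],
      [],
      [(11, -1), (23, -1)],
      [(11, 1), (12, -1), (23, 1)],
      [(22, -1)],
      [(23, -1)]],
    [],
    []],
    []⟩,
  ⟨1, [[],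
    [[],
      [],
      [],
      [(0, 1)],
      [(0, -1), (1, 1)]],
    []],
    []⟩]

theorem exs_ck : allb (fun c => (nth ⟨1, [], []⟩ exs c).ckW bs dl 11 c) (6 + 1) = true := by
  decide +kernel

/-- all certificates -/
theorem cert {k : Type*} [Field k] [CharZero k] (κ : ℕ) :
    CertW (fun x : Fin 11 => bs.w x) (fun i => nth 0 dl i) (Mt k 11 (nth [] bs.pw 1))
      (XX k bs 11) κ := by
  have hB : bs.ckPow 11 = true := by
    have h := bs_ck
    simp only [Base.ckW, Bool.and_eq_true] at h
    exact h.1.1
  rcases Nat.lt_or_ge κ 5 with h | h
  · interval_cases κ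
    · exact certW_of_ck bs dl (by norm_num) hB ce0 ce0_ck
    · exact certW_of_ck bs dl (by norm_num) hB ce1 ce1_ck
    · exact certW_of_ck bs dl (by norm_num) hB ce2 ce2_ck
    · exact certW_of_ck bs dl (by norm_num) hB ce3 ce3_ck
    · exact certW_of_ck bs dl (by norm_num) hB ce4 ce4_ck
  · have h1 : ∀ x : Fin 11, bs.w x ≤ 6 := by decide
    have h2 : ∀ i : Fin 3, 2 ≤ nth 0 dl i := by decide
    refine certW_top fun i x => ?_
    have h3 := h1 x
    have h4 := h2 i
    show bs.w x < nth 0 dl i + κ
    omega

/-- **Levels of sizes `2, 0, 1, 4, 1, 0, 3`, degrees `2, 3, 3`.** -/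
theorem cl {k : Type*} [Field k] [CharZero k] {ι : Type*} [Fintype ι] [DecidableEq ι] (w : ι → ℕ)
    (hle : ∀ x, w x ≤ 6) (hn : ∀ a : Fin 7, Fintype.card {x // w x = (a : ℕ)} =
      ![2, 0, 1, 4, 1, 0, 3] a)
    {T : Fin 3 → Matrix ι ι k} (hT : ∀ i j, T i * T j = T j * T i)
    (hlow : ∀ i x y, w x < w y + ![2, 3, 3] i → T i x y = 0)
    (eT : ∀ a ≤ 6, EXw w ![2, 3, 3] T a) : Cl T := by
  have hd : (fun i : Fin 3 => nth 0 dl i) = ![2, 3, 3] := by decide
  refine TowerCk.cl_towerW_ck (dl := dl) (by norm_num) (by decide) bs_ck cert 6 (by decide)
    (TowerCk.exw_all bs dl (by norm_num) exs 6 exs_ck) w hle ?_ hT ?_ (by rw [hd]; exact eT)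
  · intro a ha
    have h : ∀ a : Fin 7, Fintype.card {x : Fin 11 // bs.w x = (a : ℕ)} =
        ![2, 0, 1, 4, 1, 0, 3] a := by decide
    exact (hn ⟨a, by omega⟩).trans (h ⟨a, by omega⟩).symm
  · intro i x y hxy
    refine hlow i x y ?_
    rw [← hd]
    exact hxy

end Pool.Agent.Lib.D13.TW43211
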