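import Pool.Agent.Lib.D13.T43211d
import Pool.Agent.Lib.D13.TW43211

/-!
# MP_5dcbc3_ag: type `(4, 3, 2, 1, 1)`: density in the class `al0 = be0 = ga0 = de0 = 0`, `s = 0`

Weights `2, 3, 3`, levels `v 0, 2, 4, 6`, `w 0, 3, 6`, `u 3, 6`, `P 3`.
-/

namespace Pool.Agent.Lib.D13.F432

open Matrix Pool.Agent.Lib.Q5dc Pool.Agent.Lib.D7

variable {k : Type*} [Field k] {ρ : ℕ → ℕ}

namespace Al

/-- levels -/
def lv : Ix 2 → ℕ := Sum.elim ![0, 2, 4, 6, 0, 3, 6, 3, 6] ![3, 3]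

theorem lv_le (x : Ix 2) : lv x ≤ 6 := by
  revert x
  decide

theorem lv_card (a : Fin 7) :
    Fintype.card {x : Ix 2 // lv x = (a : ℕ)} = ![2, 0, 1, 4, 1, 0, 3] a := by
  revert a
  decide

theorem J_low {x y : Ix 2} (h : lv x < lv y + 2) : J k 2 x y = 0 := by
  rcases x with x | x <;> rcases y with y | y <;> fin_cases x <;> fin_cases y <;>
    simp [lv] at h <;> simp [J]

theorem B_low {c : Par k 2} (h1 : c.al0 = 0) (h2 : c.de0 = 0) (h3 : c.s = 0) (h4 : c.be0 = 0)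
    (h5 : c.ga0 = 0) {x y : Ix 2} (h : lv x < lv y + 3) : B c x y = 0 := by
  rcases x with x | x <;> rcases y with y | y <;> fin_cases x <;> fin_cases y <;>
    simp [lv] at h <;> simp [B, h1, h2, h3, h4, h5]

/-- vectors on the lowest level -/
def V0 (x y : k) : Ix 2 → k := V ![x, 0, 0, 0, y, 0, 0, 0, 0] 0

theorem J_V0 (x y : k) : J k 2 *ᵥ V0 x y = V ![0, x, 0, 0, 0, y, 0, 0, 0] 0 := by
  rw [V0, J_V]
  rfl

theorem B_V0 {d : Par k 2} (h1 : d.al0 = 0) (h4 : d.be0 = 0) (x y : k) : B d *ᵥ V0 x y =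
    V ![0, 0, d.be1 * y, d.be2 * y, 0, d.al1 * x + d.m1 * y, d.al2 * x + d.m2 * y,
      d.c0 * x + d.d0 * y, d.c1 * x + d.d1 * y] (x • d.q + y • d.r) := by
  rw [V0, B_V]
  congr 1
  · funext i
    fin_cases i <;> simp [h1, h4]
  · simp

theorem V0_zero : (V0 0 0 : Ix 2 → k) = 0 := by
  funext x
  rcases x with x | x <;> fin_cases x <;> simp [V0, V]

/-- the triple -/
def tt (c c' : Par k 2) : Fin 3 → Matrix (Ix 2) (Ix 2) k := ![J k 2, B c, B c']

theorem ex_low {c c' : Par k 2} {a : ℕ} (ha : a ≤ 4) :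
    TowerCk.EXvw lv ![2, 3, 3] (tt c c') a := by
  intro g hg _
  refine ⟨0, fun _ _ => rfl, fun i z hz => ?_⟩
  exfalso
  fin_cases i <;> simp at hz <;> omega

/-- the leading part of `w0` -/
def EE (c : Par k 2) : Fin 4 → k := ![c.m1, c.d0, c.r 0, c.r 1]

/-- the leading part of `v0` -/
def GG (c : Par k 2) : Fin 4 → k := ![c.al1, c.c0, c.q 0, c.q 1]

theorem ex_five {c c' : Par k 2} (h1 : c.al0 = 0) (h1' : c'.al0 = 0) (h4 : c.be0 = 0)
    (h4' : c'.be0 = 0) (hE : ∀ x y : k, x • EE c + y • EE c' = 0 → x = 0 ∧ y = 0) :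
    TowerCk.EXvw lv ![2, 3, 3] (tt c c') 5 := by
  intro g hg he
  have g0 : g 0 = 0 := by
    funext x
    refine hg 0 x ?_
    simp
  obtain ⟨x1, y1, e1⟩ : ∃ x y : k, g 1 = V0 x y := by
    refine ⟨g 1 (Sum.inl 0), g 1 (Sum.inl 4), ?_⟩
    funext x
    rcases x with x | x <;> fin_cases x <;>
      first | rfl | exact hg 1 _ (by decide)
  obtain ⟨x2, y2, e2⟩ : ∃ x y : k, g 2 = V0 x y := by
    refine ⟨g 2 (Sum.inl 0), g 2 (Sum.inl 4), ?_⟩
    funext x
    rcases x with x | x <;> fin_cases x <;>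
      first | rfl | exact hg 2 _ (by decide)
  have f1 : (B c' *ᵥ g 0) (Sum.inl 1) = (J k 2 *ᵥ g 2) (Sum.inl 1) := he 1 _ (by decide)
  have f2 : (J k 2 *ᵥ g 1) (Sum.inl 1) = (B c *ᵥ g 0) (Sum.inl 1) := he 2 _ (by decide)
  have f0 : ∀ x, lv x = 3 → (B c *ᵥ g 2) x = (B c' *ᵥ g 1) x :=
    fun x hx => he 0 x (by simp [hx])
  rw [g0, mulVec_zero, e2, J_V0] at f1
  rw [g0, mulVec_zero, e1, J_V0] at f2
  have z2 : x2 = 0 := by simpa [V] using f1.symm
  have z1 : x1 = 0 := by simpa [V] using f2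
  subst z1 z2
  rw [e1, e2, B_V0 h1 h4, B_V0 h1' h4'] at f0
  have a0 := f0 (Sum.inl 5) (by decide)
  have a1 := f0 (Sum.inl 7) (by decide)
  have a2 := f0 (Sum.inr 0) (by decide)
  have a3 := f0 (Sum.inr 1) (by decide)
  simp [V] at a0 a1 a2 a3
  obtain ⟨w1, w2⟩ := hE y2 (-y1) (by
    funext i
    fin_cases i
    · simp [EE]
      linear_combination a0
    · simp [EE]
      linear_combination a1
    · simp [EE]
      linear_combination a2
    · simp [EE]
      linear_combination a3)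
  have w3 : y1 = 0 := by simpa using w2
  subst w1 w3
  refine ⟨0, fun _ _ => rfl, fun i z _ => ?_⟩
  rw [mulVec_zero, Pi.zero_apply]
  have : g i = 0 := by
    fin_cases i
    · exact g0
    · exact e1.trans V0_zero
    · exact e2.trans V0_zero
  rw [this, Pi.zero_apply]

theorem ex_six {c c' : Par k 2} (h1 : c.al0 = 0) (h1' : c'.al0 = 0) (h4 : c.be0 = 0)
    (h4' : c'.be0 = 0) (hE : ∀ x y : k, x • GG c + y • EE c = 0 → x • GG c' + y • EE c' = 0 →
      x = 0 ∧ y = 0) : TowerCk.EXvw lv ![2, 3, 3] (tt c c') 6 := by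
  intro g hg he
  have hl : ∀ x : Ix 2, lv x ≠ 1 := by decide
  have g1 : g 1 = 0 := by
    funext x
    refine hg 1 x ?_
    have := hl x
    simp
    omega
  have g2 : g 2 = 0 := by
    funext x
    refine hg 2 x ?_
    have := hl x
    simp
    omega
  obtain ⟨x0, y0, e0⟩ : ∃ x y : k, g 0 = V0 x y := by
    refine ⟨g 0 (Sum.inl 0), g 0 (Sum.inl 4), ?_⟩
    funext x
    rcases x with x | x <;> fin_cases x <;>
      first | rfl | exact hg 0 _ (by decide)
  have f1 : ∀ x, lv x = 3 → (B c' *ᵥ g 0) x = (J k 2 *ᵥ g 2) x :=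
    fun x hx => he 1 x (by simp [hx])
  have f2 : ∀ x, lv x = 3 → (J k 2 *ᵥ g 1) x = (B c *ᵥ g 0) x :=
    fun x hx => he 2 x (by simp [hx])
  rw [g2, mulVec_zero, e0, B_V0 h1' h4'] at f1
  rw [g1, mulVec_zero, e0, B_V0 h1 h4] at f2
  have a0 := f1 (Sum.inl 5) (by decide)
  have a1 := f1 (Sum.inl 7) (by decide)
  have a2 := f1 (Sum.inr 0) (by decide)
  have a3 := f1 (Sum.inr 1) (by decide)
  have b0 := f2 (Sum.inl 5) (by decide)
  have b1 := f2 (Sum.inl 7) (by decide)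
  have b2 := f2 (Sum.inr 0) (by decide)
  have b3 := f2 (Sum.inr 1) (by decide)
  simp [V] at a0 a1 a2 a3 b0 b1 b2 b3
  obtain ⟨w1, w2⟩ := hE x0 y0 (by
    funext i
    fin_cases i
    · simp [EE, GG]
      linear_combination -b0
    · simp [EE, GG]
      linear_combination -b1
    · simp [EE, GG]
      linear_combination -b2
    · simp [EE, GG]
      linear_combination -b3) (by
    funext i
    fin_cases i
    · simp [EE, GG]
      linear_combination a0
    · simp [EE, GG]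
      linear_combination a1
    · simp [EE, GG]
      linear_combination a2
    · simp [EE, GG]
      linear_combination a3)
  subst w1 w2
  refine ⟨0, fun _ _ => rfl, fun i z _ => ?_⟩
  rw [mulVec_zero, Pi.zero_apply]
  have : g i = 0 := by
    fin_cases i
    · exact e0.trans V0_zero
    · exact g1
    · exact g2
  rw [this, Pi.zero_apply]

/-- **Density in the class `al0 = be0 = ga0 = de0 = 0`, `s = 0`.** -/
theorem al_cl [CharZero k] {c c' : Par k 2} (h : Rel c c') (hK : K3 c c') (hb : c.be0 = 0)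
    (hb' : c'.be0 = 0) (hg : c.ga0 = 0) (hg' : c'.ga0 = 0)
    (h1 : ∀ x y : k, x • EE c + y • EE c' = 0 → x = 0 ∧ y = 0)
    (h2 : ∀ x y : k, x • GG c + y • EE c = 0 → x • GG c' + y • EE c' = 0 → x = 0 ∧ y = 0) :
    Cl ![J k 2, B c, B c'] := by
  have hcn := cn_of_rel h
  refine TW43211.cl lv lv_le lv_card hcn.1 ?_ ?_
  · intro i x y hxy
    have g0 : lv x < lv y + 2 → J k 2 x y = 0 := J_low
    have g1 : lv x < lv y + 3 → B c x y = 0 := B_low hK.al0 hK.de0 hK.s hb hg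
    have g2 : lv x < lv y + 3 → B c' x y = 0 := B_low hK.al0' hK.de0' hK.s' hb' hg'
    fin_cases i
    · exact g0 hxy
    · exact g1 hxy
    · exact g2 hxy
  · intro a ha
    have h3 : a ≤ 4 ∨ a = 5 ∨ a = 6 := by omega
    rcases h3 with h3 | rfl | rfl
    · exact (ex_low h3).exw
    · exact (ex_five hK.al0 hK.al0' hb hb' h1).exw
    · exact (ex_six hK.al0 hK.al0' hb hb' h2).exw

end Al

end Pool.Agent.Lib.D13.F432
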