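import Pool.Agent.Lib.D13.T43211a

/-!
# MP_5dcbc3_ag: type `(4, 3, 2, 1, 1)`: the class `al0 = be0 = ga0 = de0 = 0`, `s = 0` is excluded
-/

namespace Pool.Agent.Lib.D13.F432

open Matrix Pool.Agent.Lib.Q5dc Pool.Agent.Lib.D7

variable {k : Type*} [Field k] {ρ : ℕ → ℕ}

/-- a linear move with `t ≠ 0` -/
theorem MaxR.move0 [Infinite k] {p : ℕ} {c c' : Par k p} (hT : MaxR ρ ![J k p, B c, B c'])
    (D D' : Par k p) (h : ∀ t : k, Rel (c + t • D) (c' + t • D')) :
    ∃ t : k, t ≠ 0 ∧ MaxR ρ ![J k p, B (c + t • D), B (c' + t • D')] := by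
  obtain ⟨E, hE, h1⟩ := MaxR.move hT D D' h
  obtain ⟨t, ht⟩ := (hE.union (Set.finite_singleton (0 : k))).infinite_compl.nonempty
  simp only [Set.mem_compl_iff, Set.mem_union, Set.mem_singleton_iff, not_or] at ht
  exact ⟨t, ht.2, h1 t ht.1⟩

namespace Al

/-- the class -/
structure Cla (c c' : Par k 2) : Prop where
  K : K3 c c'
  be0 : c.be0 = 0
  be0' : c'.be0 = 0
  ga0 : c.ga0 = 0
  ga0' : c'.ga0 = 0

theorem Cla.swap {c c' : Par k 2} (h : Cla c c') : Cla c' c :=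
  ⟨h.K.swap, h.be0', h.be0, h.ga0', h.ga0⟩

theorem Cla.lin {c c' : Par k 2} (h : Cla c c') (x y z w : k) :
    Cla (x • c + y • c') (z • c + w • c') :=
  ⟨h.K.lin x y z w, by simp [h.be0, h.be0'], by simp [h.be0, h.be0'], by simp [h.ga0, h.ga0'],
    by simp [h.ga0, h.ga0']⟩

/-- the relations of the class -/
structure RelA (c c' : Par k 2) : Prop where
  e3 : c'.al1 * c.be1 + c'.c0 * c.ga1 + (c.ph 0 * c'.q 0 + c.ph 1 * c'.q 1) =
    c.al1 * c'.be1 + c.c0 * c'.ga1 + (c'.ph 0 * c.q 0 + c'.ph 1 * c.q 1)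
  e5 : c'.al1 * c.m1 + c'.c0 * c.de1 + (c.ch 0 * c'.q 0 + c.ch 1 * c'.q 1) =
    c.al1 * c'.m1 + c.c0 * c'.de1 + (c'.ch 0 * c.q 0 + c'.ch 1 * c.q 1)
  e7 : c'.al1 * c.d0 + c'.c0 * c.n1 + (c.et 0 * c'.q 0 + c.et 1 * c'.q 1) =
    c.al1 * c'.d0 + c.c0 * c'.n1 + (c'.et 0 * c.q 0 + c'.et 1 * c.q 1)
  w3 : c'.m1 * c.be1 + c'.d0 * c.ga1 + (c.ph 0 * c'.r 0 + c.ph 1 * c'.r 1) =
    c.m1 * c'.be1 + c.d0 * c'.ga1 + (c'.ph 0 * c.r 0 + c'.ph 1 * c.r 1)
  w5 : c'.d0 * c.de1 + (c.ch 0 * c'.r 0 + c.ch 1 * c'.r 1) =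
    c.d0 * c'.de1 + (c'.ch 0 * c.r 0 + c'.ch 1 * c.r 1)
  w6 : c'.m1 * c.d0 + c'.d0 * c.n1 + (c.et 0 * c'.r 0 + c.et 1 * c'.r 1) =
    c.m1 * c'.d0 + c.d0 * c'.n1 + (c'.et 0 * c.r 0 + c'.et 1 * c.r 1)

theorem relA_of_rel {c c' : Par k 2} (h : Rel c c') (hc : Cla c c') : RelA c c' := by
  obtain ⟨⟨a1, a2, a3, a4, a5, a6⟩, b1, b2, b3, b4⟩ := hc
  refine ⟨?_, ?_, ?_, ?_, ?_, ?_⟩
  · simpa [a1, a2, a3, a4, a5, a6, b1, b2, b3, b4, dotProduct, Fin.sum_univ_two] using h.e3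
  · simpa [a1, a2, a3, a4, a5, a6, b1, b2, b3, b4, dotProduct, Fin.sum_univ_two] using h.e5
  · simpa [a1, a2, a3, a4, a5, a6, b1, b2, b3, b4, dotProduct, Fin.sum_univ_two] using h.e7
  · simpa [a1, a2, a3, a4, a5, a6, b1, b2, b3, b4, dotProduct, Fin.sum_univ_two] using h.w3
  · simpa [a1, a2, a3, a4, a5, a6, b1, b2, b3, b4, dotProduct, Fin.sum_univ_two] using h.w5
  · simpa [a1, a2, a3, a4, a5, a6, b1, b2, b3, b4, dotProduct, Fin.sum_univ_two] using h.w6

theorem rel_of_relA {c c' : Par k 2} (h : RelA c c') (hc : Cla c c') : Rel c c' := by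
  obtain ⟨⟨a1, a2, a3, a4, a5, a6⟩, b1, b2, b3, b4⟩ := hc
  obtain ⟨h3, h5, h7, g3, g5, g6⟩ := h
  refine ⟨?_, ?_, ?_, ?_, ?_, ?_, ?_, ?_, ?_, ?_, ?_, ?_, ?_, ?_, ?_, ?_, ?_, ?_, ?_, ?_⟩ <;>
    simp only [a1, a2, a3, a4, a5, a6, b1, b2, b3, b4, dotProduct, Fin.sum_univ_two, zero_mul,
      mul_zero, zero_add, add_zero, zero_smul, smul_zero, Pi.zero_apply]
  · exact h3
  · exact h5
  · exact h7
  · exact g3
  · exact g5
  · exact g6

theorem zp_cla : Cla (zp : Par k 2) zp := ⟨⟨rfl, rfl, rfl, rfl, rfl, rfl⟩, rfl, rfl, rfl, rfl⟩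

/-- `E, E'` independent -/
theorem al_two [CharZero k] {c c' : Par k 2} (hT : MaxR ρ ![J k 2, B c, B c']) (hc : Cla c c')
    (h1 : ∀ x y : k, x • EE c + y • EE c' = 0 → x = 0 ∧ y = 0) : False := by
  have hR := MaxR.rel hT
  have hA := relA_of_rel hR hc
  by_cases h2 : ∀ x y : k, x • GG c + y • EE c = 0 → x • GG c' + y • EE c' = 0 → x = 0 ∧ y = 0
  · exact hT.ncl (al_cl hR hc.K hc.be0 hc.be0' hc.ga0 hc.ga0' h1 h2)
  push Not at h2
  obtain ⟨x, y, hx1, hx2, hxy⟩ := h2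
  have hx : x ≠ 0 := by
    rintro rfl
    have hy := hxy rfl
    rw [zero_smul, zero_add] at hx1
    have := (h1 y 0 (by rw [hx1, zero_smul, add_zero])).1
    exact hy this
  obtain ⟨i, hi⟩ : ∃ i, EE c i ≠ 0 := by
    by_contra hne
    push Not at hne
    have : EE c = 0 := funext hne
    have := (h1 1 0 (by rw [this]; simp)).1
    exact one_ne_zero this
  obtain ⟨v, hv0, hv⟩ := exists_ker (show 4 < 8 by norm_num) (Matrix.of ![
    ![-c'.be1, -c'.ga1, -c'.ph 0, -c'.ph 1, c.be1, c.ga1, c.ph 0, c.ph 1],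
    ![-c'.m1, -c'.de1, -c'.ch 0, -c'.ch 1, c.m1, c.de1, c.ch 0, c.ch 1],
    ![-c'.d0, -c'.n1, -c'.et 0, -c'.et 1, c.d0, c.n1, c.et 0, c.et 1],
    Pi.single (Fin.castLE (by norm_num) i) 1])
  have v0 := congrFun hv 0
  have v1 := congrFun hv 1
  have v2 := congrFun hv 2
  have v3 := congrFun hv 3
  simp [mulVec, dotProduct, Fin.sum_univ_succ] at v0 v1 v2
  have v3' : v (Fin.castLE (by norm_num) i) = 0 := by
    simpa [mulVec, dotProduct, Pi.single_apply] using v3
  set D : Par k 2 := { (zp : Par k 2) with al1 := v 0, c0 := v 1, q := ![v 2, v 3] } with hD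
  set D' : Par k 2 := { (zp : Par k 2) with al1 := v 4, c0 := v 5, q := ![v 6, v 7] } with hD'
  have hcD : ∀ t : k, Cla (c + t • D) (c' + t • D') := by
    intro t
    exact ⟨⟨by simp [hD, zp, hc.K.al0], by simp [hD', zp, hc.K.al0'], by simp [hD, zp, hc.K.de0],
      by simp [hD', zp, hc.K.de0'], by simp [hD, zp, hc.K.s], by simp [hD', zp, hc.K.s']⟩,
      by simp [hD, zp, hc.be0], by simp [hD', zp, hc.be0'], by simp [hD, zp, hc.ga0],
      by simp [hD', zp, hc.ga0']⟩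
  obtain ⟨t, ht, hTt⟩ := MaxR.move0 hT D D' (fun t => rel_of_relA (by
    refine ⟨?_, ?_, ?_, ?_, ?_, ?_⟩ <;> simp [hD, hD', zp]
    · linear_combination hA.e3 + t * v0
    · linear_combination hA.e5 + t * v1
    · linear_combination hA.e7 + t * v2
    · linear_combination hA.w3
    · linear_combination hA.w5
    · linear_combination hA.w6) (hcD t))
  have e1 : EE (c + t • D) = EE c := by
    funext j
    fin_cases j <;> simp [EE, hD, zp]
  have e2 : EE (c' + t • D') = EE c' := by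
    funext j
    fin_cases j <;> simp [EE, hD', zp]
  have g1 : GG (c + t • D) = GG c + t • ![v 0, v 1, v 2, v 3] := by
    funext j
    fin_cases j <;> simp [GG, hD, zp]
  have g2 : GG (c' + t • D') = GG c' + t • ![v 4, v 5, v 6, v 7] := by
    funext j
    fin_cases j <;> simp [GG, hD', zp]
  have hR2 := MaxR.rel hTt
  have hc2 := hcD t
  refine hTt.ncl (al_cl hR2 hc2.K hc2.be0 hc2.be0' hc2.ga0 hc2.ga0' (by rw [e1, e2]; exact h1)
    ?_)
  intro a b
  rw [e1, e2, g1, g2]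
  intro ha1 ha2
  -- `x G = - y E`
  have k1 : (x * b - a * y) • EE c + (a * x * t) • ![v 0, v 1, v 2, v 3] = 0 := by
    have : (x * b - a * y) • EE c + (a * x * t) • ![v 0, v 1, v 2, v 3] =
      x • (a • (GG c + t • ![v 0, v 1, v 2, v 3]) + b • EE c) - a • (x • GG c + y • EE c) := by
      module
    rw [this, ha1, hx1, smul_zero, smul_zero, sub_zero]
  have k2 : (x * b - a * y) • EE c' + (a * x * t) • ![v 4, v 5, v 6, v 7] = 0 := by
    have : (x * b - a * y) • EE c' + (a * x * t) • ![v 4, v 5, v 6, v 7] =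
      x • (a • (GG c' + t • ![v 4, v 5, v 6, v 7]) + b • EE c') - a • (x • GG c' + y • EE c') := by
      module
    rw [this, ha2, hx2, smul_zero, smul_zero, sub_zero]
  have k3 : x * b - a * y = 0 := by
    have := congrFun k1 i
    have hz : (![v 0, v 1, v 2, v 3] : Fin 4 → k) i = 0 := by
      rw [← v3']
      fin_cases i <;> rfl
    simp only [Pi.add_apply, Pi.smul_apply, smul_eq_mul, hz, mul_zero, add_zero,
      Pi.zero_apply] at this
    exact (mul_eq_zero.1 this).resolve_right hi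
  rw [k3, zero_smul, zero_add] at k1 k2
  have k4 : a = 0 := by
    by_contra ha
    have hne : a * x * t ≠ 0 := mul_ne_zero (mul_ne_zero ha hx) ht
    have z1 := (smul_eq_zero.1 k1).resolve_left hne
    have z2 := (smul_eq_zero.1 k2).resolve_left hne
    apply hv0
    funext j
    fin_cases j
    · exact congrFun z1 0
    · exact congrFun z1 1
    · exact congrFun z1 2
    · exact congrFun z1 3
    · exact congrFun z2 0
    · exact congrFun z2 1
    · exact congrFun z2 2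
    · exact congrFun z2 3
  subst k4
  refine ⟨rfl, ?_⟩
  rw [zero_mul, sub_zero] at k3
  exact (mul_eq_zero.1 k3).resolve_left hx

/-- a row `θ` with `θ (u, r) = 1` -/
theorem exists_theta {u : k} {r : Fin 2 → k} (h : u ≠ 0 ∨ r ≠ 0) :
    ∃ a b0 b1 : k, a * u + (b0 * r 0 + b1 * r 1) = 1 := by
  by_cases hu : u = 0
  · have hr := h.resolve_left (not_not.2 hu)
    by_cases h0 : r 0 = 0
    · have h1 : r 1 ≠ 0 := by
        intro h1
        apply hr
        funext j
        fin_cases j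
        · exact h0
        · exact h1
      exact ⟨0, 0, (r 1)⁻¹, by simp [h1]⟩
    · exact ⟨0, (r 0)⁻¹, 0, by simp [h0]⟩
  · exact ⟨u⁻¹, 0, 0, by simp [hu]⟩

/-- `E' = 0` and `(d0, r) ≠ 0` -/
theorem al_one [CharZero k] {c c' : Par k 2} (hT : MaxR ρ ![J k 2, B c, B c']) (hc : Cla c c')
    (h1 : c'.m1 = 0) (h2 : c'.d0 = 0) (h3 : c'.r = 0) (h4 : c.d0 ≠ 0 ∨ c.r ≠ 0) : False := by
  have hA := relA_of_rel (MaxR.rel hT) hc
  obtain ⟨a, b0, b1, hth⟩ := exists_theta h4
  obtain ⟨ν₀, ν₁, hn⟩ : ∃ ν₀ ν₁ : k, (c.r ≠ 0 → c.r 0 * ν₁ - c.r 1 * ν₀ ≠ 0) ∧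
      (ν₀ ≠ 0 ∨ ν₁ ≠ 0) := by
    by_cases h0 : c.r 0 = 0
    · refine ⟨1, 0, fun hr h => hr ?_, Or.inl one_ne_zero⟩
      funext j
      fin_cases j
      · exact h0
      · simpa using h
    · exact ⟨0, 1, fun _ => by simpa using h0, Or.inr one_ne_zero⟩
  set g : k := a * c.c0 + (b0 * c.q 0 + b1 * c.q 1) with hg
  set x : k := c.ph 0 * ν₀ + c.ph 1 * ν₁ with hx
  set y : k := c.ch 0 * ν₀ + c.ch 1 * ν₁ with hy
  set z : k := c.et 0 * ν₀ + c.et 1 * ν₁ with hz
  set D' : Par k 2 := { (zp : Par k 2) with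
    r := ![ν₀, ν₁], q := ![g * ν₀, g * ν₁], ga1 := x * a, ph := ![x * b0, x * b1]
    de1 := y * a, ch := ![y * b0, y * b1], n1 := z * a, et := ![z * b0, z * b1] } with hD'
  have hcD : ∀ t : k, Cla (c + t • (zp : Par k 2)) (c' + t • D') := by
    intro t
    exact ⟨⟨by simp [zp, hc.K.al0], by simp [hD', zp, hc.K.al0'], by simp [zp, hc.K.de0],
      by simp [hD', zp, hc.K.de0'], by simp [zp, hc.K.s], by simp [hD', zp, hc.K.s']⟩,
      by simp [zp, hc.be0], by simp [hD', zp, hc.be0'], by simp [zp, hc.ga0],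
      by simp [hD', zp, hc.ga0']⟩
  obtain ⟨t, ht, hTt⟩ := MaxR.move0 hT zp D' (fun t => rel_of_relA (by
    refine ⟨?_, ?_, ?_, ?_, ?_, ?_⟩ <;> simp [hD', zp]
    · linear_combination hA.e3 + t * x * hg - t * g * hx
    · linear_combination hA.e5 + t * y * hg - t * g * hy
    · linear_combination hA.e7 + t * z * hg - t * g * hz
    · linear_combination hA.w3 - t * x * hth - t * hx
    · linear_combination hA.w5 - t * y * hth - t * hy
    · linear_combination hA.w6 - t * z * hth - t * hz) (hcD t))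
  refine al_two hTt (hcD t) ?_
  intro u v huv
  have g0 := congrFun huv 0
  have g1 := congrFun huv 1
  have g2 := congrFun huv 2
  have g3 := congrFun huv 3
  simp [EE, hD', zp, h1, h2, h3] at g0 g1 g2 g3
  have hv : u = 0 ∧ v = 0 := by
    by_cases hr : c.r = 0
    · have hd := h4.resolve_right (not_not.2 hr)
      have hu := g1.resolve_right hd
      refine ⟨hu, ?_⟩
      rw [hu] at g2 g3
      simp at g2 g3
      rcases hn.2 with h | h
      · rcases g2 with g | g | g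
        · exact g
        · exact absurd g ht
        · exact absurd g h
      · rcases g3 with g | g | g
        · exact g
        · exact absurd g ht
        · exact absurd g h
    · have hdet := hn.1 hr
      have e1 : u * (c.r 0 * ν₁ - c.r 1 * ν₀) = 0 := by linear_combination ν₁ * g2 - ν₀ * g3
      have e2 : v * t * (c.r 0 * ν₁ - c.r 1 * ν₀) = 0 := by
        linear_combination c.r 0 * g3 - c.r 1 * g2
      refine ⟨(mul_eq_zero.1 e1).resolve_right hdet, ?_⟩
      have := (mul_eq_zero.1 e2).resolve_right hdet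
      exact (mul_eq_zero.1 this).resolve_right ht
  exact hv

/-- `(d0, r) ≠ 0` -/
theorem al_c [CharZero k] {c c' : Par k 2} (hT : MaxR ρ ![J k 2, B c, B c']) (hc : Cla c c')
    (h4 : c.d0 ≠ 0 ∨ c.r ≠ 0) : False := by
  by_cases h : ∀ x y : k, x • EE c + y • EE c' = 0 → x = 0 ∧ y = 0
  · exact al_two hT hc h
  push Not at h
  obtain ⟨x, y, hxy, hne⟩ := h
  have g0 := congrFun hxy 0
  have g1 := congrFun hxy 1
  have g2 := congrFun hxy 2
  have g3 := congrFun hxy 3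
  simp [EE] at g0 g1 g2 g3
  have hy : y ≠ 0 := by
    rintro rfl
    have hx : x ≠ 0 := fun h => hne h rfl
    simp [hx] at g0 g1 g2 g3
    rcases h4 with h | h
    · exact h g1
    · apply h
      funext j
      fin_cases j
      · exact g2
      · exact g3
  have hTl := MaxR.lin hT 1 0 x y (by simpa using hy)
  refine al_one hTl (hc.lin 1 0 x y) ?_ ?_ ?_ ?_
  · simpa using g0
  · simpa using g1
  · funext j
    fin_cases j
    · simpa using g2
    · simpa using g3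
  · rcases h4 with h | h
    · left
      simpa using h
    · right
      simpa using h

/-- **The class `al0 = be0 = ga0 = de0 = 0`, `s = 0` is excluded.** -/
theorem al_false [CharZero k] {c c' : Par k 2} (hT : MaxR ρ ![J k 2, B c, B c'])
    (hc : Cla c c') : False := by
  by_cases h4 : c.d0 ≠ 0 ∨ c.r ≠ 0
  · exact al_c hT hc h4
  by_cases h4' : c'.d0 ≠ 0 ∨ c'.r ≠ 0
  · exact al_c (MaxR.swap' hT) hc.swap h4'
  push Not at h4 h4'
  have hA := relA_of_rel (MaxR.rel hT) hc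
  obtain ⟨v, hv0, hv⟩ := exists_ker (show 3 < 4 by norm_num) (Matrix.of ![
    ![-c'.ph 0, -c'.ph 1, c.ph 0, c.ph 1],
    ![-c'.ch 0, -c'.ch 1, c.ch 0, c.ch 1],
    ![-c'.et 0, -c'.et 1, c.et 0, c.et 1]])
  have v0 := congrFun hv 0
  have v1 := congrFun hv 1
  have v2 := congrFun hv 2
  simp [mulVec, dotProduct, Fin.sum_univ_succ] at v0 v1 v2
  set D : Par k 2 := { (zp : Par k 2) with r := ![v 0, v 1] } with hD
  set D' : Par k 2 := { (zp : Par k 2) with r := ![v 2, v 3] } with hD'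
  have hcD : ∀ t : k, Cla (c + t • D) (c' + t • D') := by
    intro t
    exact ⟨⟨by simp [hD, zp, hc.K.al0], by simp [hD', zp, hc.K.al0'], by simp [hD, zp, hc.K.de0],
      by simp [hD', zp, hc.K.de0'], by simp [hD, zp, hc.K.s], by simp [hD', zp, hc.K.s']⟩,
      by simp [hD, zp, hc.be0], by simp [hD', zp, hc.be0'], by simp [hD, zp, hc.ga0],
      by simp [hD', zp, hc.ga0']⟩
  obtain ⟨t, ht, hTt⟩ := MaxR.move0 hT D D' (fun t => rel_of_relA (by
    refine ⟨?_, ?_, ?_, ?_, ?_, ?_⟩ <;> simp [hD, hD', zp]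
    · linear_combination hA.e3
    · linear_combination hA.e5
    · linear_combination hA.e7
    · linear_combination hA.w3 + t * v0
    · linear_combination hA.w5 + t * v1
    · linear_combination hA.w6 + t * v2) (hcD t))
  by_cases h5 : v 0 = 0 ∧ v 1 = 0
  · refine al_c (MaxR.swap' hTt) (hcD t).swap (Or.inr fun hr => hv0 ?_)
    have r0 := congrFun hr 0
    have r1 := congrFun hr 1
    simp [hD', zp, h4'.2, ht] at r0 r1
    funext j
    fin_cases j
    · exact h5.1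
    · exact h5.2
    · exact r0
    · exact r1
  · refine al_c hTt (hcD t) (Or.inr fun hr => h5 ?_)
    have r0 := congrFun hr 0
    have r1 := congrFun hr 1
    simp [hD, zp, h4.2, ht] at r0 r1
    exact ⟨r0, r1⟩

end Al

end Pool.Agent.Lib.D13.F432
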