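import Pool.Agent.Lib.D13.T43211d
import Pool.Agent.Lib.D13.R1352

/-!
# MP_5dcbc3_ag: type `(4, 3, 2, 1, 1)`: density in the class `K3`

Weights `1, 1, 1`, levels of the transposed triple `v3 | v2, w2, u1 | v1, w1, u0, P | v0, w0`.
-/

namespace Pool.Agent.Lib.D13.F432

open Matrix Pool.Agent.Lib.Q5dc Pool.Agent.Lib.D7

variable {k : Type*} [Field k] {ρ : ℕ → ℕ}

/-- levels of the transposed triple -/
def lv : Ix 2 → ℕ := Sum.elim ![3, 2, 1, 0, 3, 2, 1, 2, 1] ![2, 2]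

theorem lv_le (x : Ix 2) : lv x ≤ 3 := by
  revert x
  decide

theorem lv_card (a : Fin 4) : Fintype.card {x : Ix 2 // lv x = (a : ℕ)} = ![1, 3, 5, 2] a := by
  revert a
  decide

theorem J_low {x y : Ix 2} (h : lv x ≤ lv y) : J k 2 y x = 0 := by
  rcases x with x | x <;> rcases y with y | y <;> fin_cases x <;> fin_cases y <;>
    simp [lv] at h <;> simp [J]

theorem B_low {c : Par k 2} (h1 : c.al0 = 0) (h2 : c.de0 = 0) (h3 : c.s = 0) {x y : Ix 2}
    (h : lv x ≤ lv y) : B c y x = 0 := by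
  rcases x with x | x <;> rcases y with y | y <;> fin_cases x <;> fin_cases y <;>
    simp [lv] at h <;> simp [B, h1, h2, h3]

/-- the transposed triple -/
def tt (c c' : Par k 2) : Fin 3 → Matrix (Ix 2) (Ix 2) k := fun i => (![J k 2, B c, B c'] i)ᵀ

/-- vectors on the level zero -/
def V0 (z : k) : Ix 2 → k := V ![0, 0, 0, z, 0, 0, 0, 0, 0] 0

/-- vectors on the level one -/
def V1 (a b e : k) : Ix 2 → k := V ![0, 0, a, 0, 0, 0, b, 0, e] 0

theorem V0_J (z : k) : (J k 2)ᵀ *ᵥ V0 z = V ![0, 0, z, 0, 0, 0, 0, 0, 0] 0 := by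
  rw [mulVec_transpose, V0, V_J]
  rfl

theorem V1_J (a b e : k) : (J k 2)ᵀ *ᵥ V1 a b e = V ![0, a, 0, 0, 0, b, 0, e, 0] 0 := by
  rw [mulVec_transpose, V1, V_J]
  rfl

theorem V0_B (d : Par k 2) (z : k) : (B d)ᵀ *ᵥ V0 z =
    V ![0, 0, 0, 0, d.be2 * z, d.be1 * z, d.be0 * z, d.ga1 * z, d.ga0 * z] (z • d.ph) := by
  rw [mulVec_transpose, V0, V_B]
  congr 1
  · funext i
    fin_cases i <;> simp
  · simp

theorem V1_B {d : Par k 2} (h1 : d.al0 = 0) (h2 : d.de0 = 0) (a b e : k) :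
    (B d)ᵀ *ᵥ V1 a b e =
    V ![d.al2 * b + d.c1 * e, d.al1 * b + d.c0 * e, 0, 0, d.be1 * a + d.m2 * b + d.d1 * e,
      d.be0 * a + d.m1 * b + d.d0 * e, 0, d.ga0 * a + d.de1 * b + d.n1 * e, 0]
      (b • d.ch + e • d.et) := by
  rw [mulVec_transpose, V1, V_B]
  congr 1
  · funext i
    fin_cases i <;> simp [h1, h2]
  · simp

/-- exactness on the lowest level -/
theorem ex_zero {c c' : Par k 2}
    (h0 : c.be0 ≠ 0 ∨ c'.be0 ≠ 0 ∨ c.ga0 ≠ 0 ∨ c'.ga0 ≠ 0) : TowerCk.EXv lv (tt c c') 0 := by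
  intro g hg he
  obtain ⟨z, rfl⟩ : ∃ z : Fin 3 → k, g = fun i => V0 (z i) := by
    refine ⟨fun i => g i (Sum.inl 3), funext fun i => ?_⟩
    funext x
    rcases x with x | x <;> fin_cases x <;>
      first | rfl | exact hg i _ (by decide)
  have f2 : ∀ x, lv x = 1 → ((J k 2)ᵀ *ᵥ V0 (z 1)) x = ((B c)ᵀ *ᵥ V0 (z 0)) x :=
    fun x hx => he 2 x hx
  have f1 : ∀ x, lv x = 1 → ((B c')ᵀ *ᵥ V0 (z 0)) x = ((J k 2)ᵀ *ᵥ V0 (z 2)) x :=
    fun x hx => he 1 x hx
  simp only [V0_J, V0_B] at f1 f2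
  have a1 := f2 (Sum.inl 2) (by decide)
  have a2 := f2 (Sum.inl 6) (by decide)
  have a3 := f2 (Sum.inl 8) (by decide)
  have b1 := f1 (Sum.inl 2) (by decide)
  have b2 := f1 (Sum.inl 6) (by decide)
  have b3 := f1 (Sum.inl 8) (by decide)
  simp [V] at a1 a2 a3 b1 b2 b3
  have z0 : z 0 = 0 := by
    rcases h0 with h | h | h | h
    · exact a2.resolve_left h
    · exact b2.resolve_left h
    · exact a3.resolve_left h
    · exact b3.resolve_left h
  refine ⟨0, fun _ _ => rfl, fun i x _ => ?_⟩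
  rw [mulVec_zero, Pi.zero_apply]
  have hz : z i = 0 := by
    fin_cases i
    · exact z0
    · exact a1
    · exact b1.symm
  show V0 (z i) x = 0
  rw [hz]
  rcases x with x | x <;> fin_cases x <;> rfl

/-- exactness on the level one -/
theorem ex_one {c c' : Par k 2} (hK : K3 c c')
    (h1 : ∀ b e : k, b • c.ch + e • c.et = 0 → b • c'.ch + e • c'.et = 0 → b = 0 ∧ e = 0) :
    TowerCk.EXv lv (tt c c') 1 := by
  intro g hg he
  obtain ⟨a, b, e, rfl⟩ : ∃ a b e : Fin 3 → k, g = fun i => V1 (a i) (b i) (e i) := by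
    refine ⟨fun i => g i (Sum.inl 2), fun i => g i (Sum.inl 6), fun i => g i (Sum.inl 8),
      funext fun i => ?_⟩
    funext x
    rcases x with x | x <;> fin_cases x <;>
      first | rfl | exact hg i _ (by decide)
  have f2 : ∀ x, lv x = 2 → ((J k 2)ᵀ *ᵥ V1 (a 1) (b 1) (e 1)) x =
      ((B c)ᵀ *ᵥ V1 (a 0) (b 0) (e 0)) x := fun x hx => he 2 x hx
  have f1 : ∀ x, lv x = 2 → ((B c')ᵀ *ᵥ V1 (a 0) (b 0) (e 0)) x =
      ((J k 2)ᵀ *ᵥ V1 (a 2) (b 2) (e 2)) x := fun x hx => he 1 x hx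
  simp only [V1_J, V1_B hK.al0 hK.de0, V1_B hK.al0' hK.de0'] at f1 f2
  have p1 : b 0 • c.ch + e 0 • c.et = 0 := by
    funext j
    exact (f2 (Sum.inr j) (by fin_cases j <;> rfl)).symm
  have p2 : b 0 • c'.ch + e 0 • c'.et = 0 := by
    funext j
    exact f1 (Sum.inr j) (by fin_cases j <;> rfl)
  obtain ⟨hb, he0⟩ := h1 _ _ p1 p2
  have a1 := f2 (Sum.inl 1) (by decide)
  have a2 := f2 (Sum.inl 5) (by decide)
  have a3 := f2 (Sum.inl 7) (by decide)
  have b1 := f1 (Sum.inl 1) (by decide)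
  have b2 := f1 (Sum.inl 5) (by decide)
  have b3 := f1 (Sum.inl 7) (by decide)
  simp [V, hb, he0] at a1 a2 a3 b1 b2 b3
  refine ⟨V0 (a 0), ?_, ?_⟩
  · intro y hy
    rcases y with y | y <;> fin_cases y <;> simp [lv] at hy <;> simp [V0, V]
  · intro i x hx
    have hJ : ((tt c c' 0) *ᵥ V0 (a 0)) = V ![0, 0, a 0, 0, 0, 0, 0, 0, 0] 0 := V0_J _
    have hB : ((tt c c' 1) *ᵥ V0 (a 0)) = _ := V0_B c (a 0)
    have hC : ((tt c c' 2) *ᵥ V0 (a 0)) = _ := V0_B c' (a 0)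
    have g0 : V1 (a 0) (b 0) (e 0) x = ((tt c c' 0) *ᵥ V0 (a 0)) x := by
      rw [hJ, hb, he0]
      rcases x with x | x <;> fin_cases x <;> simp [V1, V]
    have g1 : V1 (a 1) (b 1) (e 1) x = ((tt c c' 1) *ᵥ V0 (a 0)) x := by
      rw [hB, a1, a2, a3]
      rcases x with x | x <;> fin_cases x <;> simp [lv] at hx <;> simp [V1, V]
    have g2 : V1 (a 2) (b 2) (e 2) x = ((tt c c' 2) *ᵥ V0 (a 0)) x := by
      rw [hC, ← b1, ← b2, ← b3]
      rcases x with x | x <;> fin_cases x <;> simp [lv] at hx <;> simp [V1, V]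
    fin_cases i
    · exact g0
    · exact g1
    · exact g2

/-- **Density in the class `K3`.** -/
theorem kgood_cl [CharZero k] {c c' : Par k 2} (h : Rel c c') (hK : K3 c c')
    (h0 : c.be0 ≠ 0 ∨ c'.be0 ≠ 0 ∨ c.ga0 ≠ 0 ∨ c'.ga0 ≠ 0)
    (h1 : ∀ b e : k, b • c.ch + e • c.et = 0 → b • c'.ch + e • c'.et = 0 → b = 0 ∧ e = 0) :
    Cl ![J k 2, B c, B c'] := by
  have hcn := cn_of_rel h
  have hcl : Cl (tt c c') := by
    refine R1352.cl lv lv_le lv_card ?_ ?_ ?_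
    · intro i j
      simp only [tt]
      rw [← transpose_mul, ← transpose_mul, hcn.1 i j]
    · intro i x y hxy
      have g0 : tt c c' 0 x y = 0 := J_low hxy
      have g1 : tt c c' 1 x y = 0 := B_low hK.al0 hK.de0 hK.s hxy
      have g2 : tt c c' 2 x y = 0 := B_low hK.al0' hK.de0' hK.s' hxy
      fin_cases i
      · exact g0
      · exact g1
      · exact g2
    · intro a ha
      have : a = 0 ∨ a = 1 := by omega
      rcases this with rfl | rfl
      · exact (ex_zero h0).exr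
      · exact (ex_one hK h1).exr
  have h2 := hcl.transpose
  have e : (fun i => (tt c c' i)ᵀ) = ![J k 2, B c, B c'] := by
    funext i
    simp [tt]
  rwa [e] at h2

end Pool.Agent.Lib.D13.F432
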