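import Pool.Agent.Lib.D13.F43L

/-!
# MP_5dcbc3_ag: type `(4, 3, 2, 1, 1)`: Lemma B (the reduction `toK3` to the class `K3` is in `F43L`)
-/

namespace Pool.Agent.Lib.D13.F432

open Matrix Pool.Agent.Lib.Q5dc Pool.Agent.Lib.D7

variable {k : Type*} [Field k] {ρ : ℕ → ℕ}

/-- Lemma B -/
theorem lemmaB [CharZero k] {c c' : Par k 2} (hT : MaxR ρ ![J k 2, B c, B c'])
    (hρ : (J k 2).rank = ρ 1) (hs : c.s = 0) (hs' : c'.s = 0) (hr : c.de0 • c'.r = c'.de0 • c.r)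
    {z4 z7 : k} {ζ : Fin 2 → k} (hζ : ζ ≠ 0)
    (h1 : c.al0 * z4 + c.c0 * z7 + c.q ⬝ᵥ ζ = 0) (h2 : c'.al0 * z4 + c'.c0 * z7 + c'.q ⬝ᵥ ζ = 0)
    (h3 : c.d0 * z7 + c.r ⬝ᵥ ζ = 0) (h4 : c'.d0 * z7 + c'.r ⬝ᵥ ζ = 0) : False :=
  lemmaB0 hT hρ.symm hs hs' hr.symm (zw := z4) (zu := z7) hζ
    (by rw [dotProduct_comm]; exact h1) (by rw [dotProduct_comm]; exact h2)
    (by rw [dotProduct_comm]; exact h3) (by rw [dotProduct_comm]; exact h4)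

end Pool.Agent.Lib.D13.F432
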