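import Pool.Agent.Lib.D13.F43M1
import Pool.Agent.Lib.D13.T43211g

/-!
# MP_5dcbc3_ag: type `(4, 3, 2, 1^2)`: the class `al0 = de0 = s = 0`
-/

namespace Pool.Agent.Lib.D13.F432

open Matrix Pool.Agent.Lib.Q5dc Pool.Agent.Lib.D7 A3

variable {k : Type*} [Field k] {ρ : ℕ → ℕ}

/-! ### `be0 = (1, 0)`, `ga0 = (0, 1)` -/

/-- normal form -/
structure Nd (a a' : A3 k) : Prop where
  be0 : a.be0 = 1
  be0' : a'.be0 = 0
  ga0 : a.ga0 = 0
  ga0' : a'.ga0 = 1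

theorem Nd.zero {a a' : A3 k} (hn : Nd a a') (hr : Rel3 a a') :
    a'.al1 = a.g 0 ∧ a'.m1 = a.e 0 ∧ a'.F = a.Z := by
  refine ⟨?_, ?_, ?_⟩
  · have := hr.e2
    rw [hn.be0, hn.be0', hn.ga0, hn.ga0'] at this
    linear_combination this
  · have := hr.w2
    rw [hn.be0, hn.be0', hn.ga0, hn.ga0'] at this
    linear_combination this
  · have := hr.up
    rw [hn.be0, hn.be0', hn.ga0, hn.ga0'] at this
    simpa using this

theorem sd_quad (A B C : k) (hC : C ≠ 0) : {t : k | A + t * B + t ^ 2 * C = 0}.Finite := by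
  have h0 : (Polynomial.C A + Polynomial.X * Polynomial.C B +
      Polynomial.X ^ 2 * Polynomial.C C : Polynomial k) ≠ 0 := by
    intro h
    have h1 := congrArg (fun p => Polynomial.coeff p 2) h
    simp at h1
    exact hC h1
  refine (Polynomial.finite_setOfPred_isRoot h0).subset fun t ht => ?_
  simp only [Set.mem_ofPred_eq, Polynomial.IsRoot.def] at ht ⊢
  simp
  linear_combination ht

theorem sd_minor {x1 y1 x2 y2 : k} (hδ : x1 * y2 - x2 * y1 ≠ 0) {μ ν : Fin 3 → k}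
    (hμ : μ 1 ≠ 0 ∨ μ 2 ≠ 0) (hν : ν 1 ≠ 0 ∨ ν 2 ≠ 0) : ∃ j l : Fin 3, (j = 1 ∨ j = 2) ∧
      (l = 1 ∨ l = 2) ∧ x1 * y2 * (μ j * ν l) - x2 * y1 * (ν j * μ l) ≠ 0 := by
  by_contra hc
  push Not at hc
  have h11 := hc 1 1 (Or.inl rfl) (Or.inl rfl)
  have h22 := hc 2 2 (Or.inr rfl) (Or.inr rfl)
  have h12 := hc 1 2 (Or.inl rfl) (Or.inr rfl)
  have h21 := hc 2 1 (Or.inr rfl) (Or.inl rfl)
  have k11 : μ 1 * ν 1 = 0 :=
    (mul_eq_zero.1 (show (x1 * y2 - x2 * y1) * (μ 1 * ν 1) = 0 by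
      linear_combination h11)).resolve_left hδ
  have k22 : μ 2 * ν 2 = 0 :=
    (mul_eq_zero.1 (show (x1 * y2 - x2 * y1) * (μ 2 * ν 2) = 0 by
      linear_combination h22)).resolve_left hδ
  have hx : x1 * y2 ≠ 0 ∨ x2 * y1 ≠ 0 := by
    by_contra hx
    push Not at hx
    apply hδ
    rw [hx.1, hx.2, sub_zero]
  by_cases m1 : μ 1 = 0
  · have m2 : μ 2 ≠ 0 := hμ.resolve_left (not_not.2 m1)
    have n2 : ν 2 = 0 := (mul_eq_zero.1 k22).resolve_left m2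
    have n1 : ν 1 ≠ 0 := hν.resolve_right (not_not.2 n2)
    simp [m1, n2, m2, n1] at h12 h21
    rcases hx with hx | hx
    · exact hx (by rcases h21 with h | h <;> simp [h])
    · exact hx (by rcases h12 with h | h <;> simp [h])
  · have n1 : ν 1 = 0 := (mul_eq_zero.1 k11).resolve_left m1
    have n2 : ν 2 ≠ 0 := hν.resolve_left (not_not.2 n1)
    have m2 : μ 2 = 0 := (mul_eq_zero.1 k22).resolve_right n2
    simp [m1, n2, m2, n1] at h12 h21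
    rcases hx with hx | hx
    · exact hx (by rcases h12 with h | h <;> simp [h])
    · exact hx (by rcases h21 with h | h <;> simp [h])

variable [Infinite k] {a a' : A3 k}

omit [Infinite k] in
theorem sd_pt {x y : k} (h : ¬ (x * a'.g 0 - y * a.g 0 = 0 ∧ x * a'.e 0 - y * a.e 0 = 0)) :
    ∃ mu : Fin 3 → k, mu ⬝ᵥ (x • a'.g - y • a.g) = 0 ∧ mu ⬝ᵥ (x • a'.e - y • a.e) = 0 ∧
      (mu 1 ≠ 0 ∨ mu 2 ≠ 0) := by
  rcases sm_exQ (x • a'.g - y • a.g) (x • a'.e - y • a.e) with h1 | ⟨h1, h2, -⟩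
  · exact h1
  · exact absurd ⟨by simpa using h1, by simpa using h2⟩ h

theorem sd_two (G : GH k ρ) (h : M3 ρ a a') (hn : Nd a a') {x1 y1 x2 y2 : k}
    (hδ : x1 * y2 - x2 * y1 ≠ 0) {μ ν : Fin 3 → k}
    (hμ1 : μ ⬝ᵥ (x1 • a'.g - y1 • a.g) = 0) (hμ2 : μ ⬝ᵥ (x1 • a'.e - y1 • a.e) = 0)
    (hν1 : ν ⬝ᵥ (x2 • a'.g - y2 • a.g) = 0) (hν2 : ν ⬝ᵥ (x2 • a'.e - y2 • a.e) = 0)
    (hμ : μ 1 ≠ 0 ∨ μ 2 ≠ 0) (hν : ν 1 ≠ 0 ∨ ν 2 ≠ 0) : False := by
  obtain ⟨j, l, hj, hl, hm⟩ := sd_minor hδ hμ hν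
  obtain ⟨al1', m1', F'⟩ := hn.zero h.rel
  simp only [dotProduct_sub, dotProduct_smul, smul_eq_mul] at hμ1 hμ2 hν1 hν2
  have hS := sd_quad (a.F j * a'.Z l - a'.F l * a.Z j)
    ((x1 ^ 2 * μ j + x2 ^ 2 * ν j) * a'.Z l + a.F j * (y1 ^ 2 * μ l + y2 ^ 2 * ν l) -
      (x1 * y1 * μ l + x2 * y2 * ν l) * a.Z j - a'.F l * (x1 * y1 * μ j + x2 * y2 * ν j))
    ((x1 * y2 - x2 * y1) * (x1 * y2 * (μ j * ν l) - x2 * y1 * (ν j * μ l)))
    (mul_ne_zero hδ hm)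
  obtain ⟨t, ht, -, h2⟩ := h.move
    { (z3 k) with
      F := x1 ^ 2 • μ + x2 ^ 2 • ν
      Z := (x1 * y1) • μ + (x2 * y2) • ν }
    { (z3 k) with
      F := (x1 * y1) • μ + (x2 * y2) • ν
      Z := y1 ^ 2 • μ + y2 ^ 2 • ν } (fun t => by
      obtain ⟨e2, e3, e5, e7, w2, w3, w5, w6, up⟩ := h.rel
      refine ⟨?_, ?_, ?_, ?_, ?_, ?_, ?_, ?_, ?_⟩
      · simpa [z3] using e2
      · simpa [z3] using e3
      · simp [z3] at e5 ⊢
        linear_combination e5 + t * x1 * hμ1 + t * x2 * hν1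
      · simp [z3] at e7 ⊢
        linear_combination e7 + t * y1 * hμ1 + t * y2 * hν1
      · simpa [z3] using w2
      · simpa [z3] using w3
      · simp [z3] at w5 ⊢
        linear_combination w5 + t * x1 * hμ2 + t * x2 * hν2
      · simp [z3] at w6 ⊢
        linear_combination w6 + t * y1 * hμ2 + t * y2 * hν2
      · simp [z3, hn.be0, hn.be0', hn.ga0, hn.ga0', F']) hS
  refine G _ _ h2 (Or.inl (by simp [z3, hn.be0])) ?_
  intro b c k1 k2 k3 k4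
  have k5 : b * (a.F j + t * (x1 ^ 2 * μ j + x2 ^ 2 * ν j)) +
      c * (a.Z j + t * (x1 * y1 * μ j + x2 * y2 * ν j)) = 0 := by
    rcases hj with rfl | rfl
    · simp [z3] at k1
      linear_combination k1
    · simp [z3] at k2
      linear_combination k2
  have k6 : b * (a'.F l + t * (x1 * y1 * μ l + x2 * y2 * ν l)) +
      c * (a'.Z l + t * (y1 ^ 2 * μ l + y2 ^ 2 * ν l)) = 0 := by
    rcases hl with rfl | rfl
    · simp [z3] at k3
      linear_combination k3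
    · simp [z3] at k4
      linear_combination k4
  refine sm_det ?_ k5 k6
  intro hd
  apply ht
  simp only [Set.mem_ofPred_eq]
  linear_combination hd

theorem sd_i (G : GH k ρ) (h : M3 ρ a a') (hn : Nd a a')
    (h0 : ¬ (a.g 0 = 0 ∧ a.e 0 = 0 ∧ a'.g 0 = 0 ∧ a'.e 0 = 0)) : False := by
  by_cases h1 : a.g 0 = 0 ∧ a.e 0 = 0
  · obtain ⟨μ, m1, m2, m3⟩ := sd_pt (a := a) (a' := a') (x := 1) (y := 0) (by
      intro h2
      simp at h2
      exact h0 ⟨h1.1, h1.2, h2.1, h2.2⟩)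
    obtain ⟨ν, n1, n2, n3⟩ := sd_pt (a := a) (a' := a') (x := 1) (y := 1) (by
      intro h2
      simp [h1.1, h1.2] at h2
      exact h0 ⟨h1.1, h1.2, h2.1, h2.2⟩)
    exact sd_two G h hn (by simp) m1 m2 n1 n2 m3 n3
  · obtain ⟨μ, m1, m2, m3⟩ := sd_pt (a := a) (a' := a') (x := 0) (y := 1) (by
      intro h2
      simp at h2
      exact h1 h2)
    by_cases h3 : a'.g 0 = 0 ∧ a'.e 0 = 0
    · obtain ⟨ν, n1, n2, n3⟩ := sd_pt (a := a) (a' := a') (x := 1) (y := 1) (by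
        intro h2
        simp [h3.1, h3.2] at h2
        exact h1 h2)
      exact sd_two G h hn (by simp) m1 m2 n1 n2 m3 n3
    · obtain ⟨ν, n1, n2, n3⟩ := sd_pt (a := a) (a' := a') (x := 1) (y := 0) (by
        intro h2
        simp at h2
        exact h3 h2)
      exact sd_two G h hn (by simp) m1 m2 n1 n2 m3 n3

omit [Infinite k] in
theorem sd_line {u v r s : k} (h : u ≠ 0 ∨ v ≠ 0) (h1 : v * r - u * s = 0) :
    ∃ z, r = z * u ∧ s = z * v := by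
  rcases h with h | h
  · exact ⟨r / u, by field_simp, by field_simp; linear_combination -h1⟩
  · exact ⟨s / v, by field_simp; linear_combination h1, by field_simp⟩

theorem sd_ii (G : GH k ρ) (h : M3 ρ a a') (hn : Nd a a') (g0 : a.g 0 = 0) (e0 : a.e 0 = 0)
    (g0' : a'.g 0 = 0) (e0' : a'.e 0 = 0)
    (h0 : a.F 1 ≠ 0 ∨ a.F 2 ≠ 0 ∨ a.Z 1 ≠ 0 ∨ a.Z 2 ≠ 0 ∨ a'.Z 1 ≠ 0 ∨ a'.Z 2 ≠ 0) : False := by
  obtain ⟨al1', m1', F'⟩ := hn.zero h.rel
  rw [g0] at al1'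
  rw [e0] at m1'
  obtain ⟨x1, x2, y1, y2, u, v, huv, hu, hv⟩ : ∃ x1 x2 y1 y2 u v : k, (u ≠ 0 ∨ v ≠ 0) ∧
      a.F 1 * y1 + a.F 2 * y2 - a.Z 1 * x1 - a.Z 2 * x2 = u ∧
      a.Z 1 * y1 + a.Z 2 * y2 - a'.Z 1 * x1 - a'.Z 2 * x2 = v := by
    rcases h0 with h0 | h0 | h0 | h0 | h0 | h0
    · exact ⟨0, 0, 1, 0, _, _, Or.inl (by simpa using h0), rfl, rfl⟩
    · exact ⟨0, 0, 0, 1, _, _, Or.inl (by simpa using h0), rfl, rfl⟩
    · exact ⟨0, 0, 1, 0, _, _, Or.inr (by simpa using h0), rfl, rfl⟩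
    · exact ⟨0, 0, 0, 1, _, _, Or.inr (by simpa using h0), rfl, rfl⟩
    · exact ⟨1, 0, 0, 0, _, _, Or.inr (by simpa using h0), rfl, rfl⟩
    · exact ⟨0, 1, 0, 0, _, _, Or.inr (by simpa using h0), rfl, rfl⟩
  obtain ⟨w, hw, w1, w2⟩ := ker2 ![v, -u, -(v * a.F 0) - u * (a.m1 - a.Z 0)]
    ![v * (a.Z 0 - a.m1) - u * a'.Z 0, -(v * a.F 0) + u * a.Z 0, -(u * a.al1)]
  obtain ⟨α, β, δ, rfl⟩ : ∃ α β δ : k, w = ![α, β, δ] := ⟨w 0, w 1, w 2, by
    funext i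
    fin_cases i <;> rfl⟩
  simp [dotProduct, Fin.sum_univ_three] at w1 w2
  obtain ⟨z, hz1, hz2⟩ := sd_line (r := α - a.F 0 * δ) (s := β + a.m1 * δ - a.Z 0 * δ) huv (by
    linear_combination w1)
  obtain ⟨y, hy1, hy2⟩ := sd_line (r := a.Z 0 * α - a.F 0 * β - a.m1 * α)
    (s := a.al1 * δ + a'.Z 0 * α - a.Z 0 * β) huv (by
    linear_combination w2)
  obtain ⟨t, -, ht, h2⟩ := h.move
    { (z3 k) with
      g := ![α, y * x1, y * x2]
      e := ![0, z * x1, z * x2] }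
    { (z3 k) with
      al1 := α
      g := ![β, y * y1, y * y2]
      e := ![δ, z * y1, z * y2]
      al2 := a'.D 0 * α + a'.D 1 * (y * x1) + a'.D 2 * (y * x2) - (a.D 0 * β + a.D 1 * (y * y1) +
        a.D 2 * (y * y2)) - α * a.be1
      m2 := a'.D 1 * (z * x1) + a'.D 2 * (z * x2) - (a.D 0 * δ + a.D 1 * (z * y1) +
        a.D 2 * (z * y2)) } (fun t => by
      obtain ⟨e2, e3, e5, e7, w2, w3, w5, w6, up⟩ := h.rel
      refine ⟨?_, ?_, ?_, ?_, ?_, ?_, ?_, ?_, ?_⟩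
      · simp [z3, hn.be0, hn.be0', hn.ga0, hn.ga0', al1', g0, g0']
      · simp [z3, dotProduct, Fin.sum_univ_three, hn.be0, hn.be0', hn.ga0, hn.ga0',
          al1', g0, g0'] at e3 ⊢
        linear_combination e3
      · simp [z3, dotProduct, Fin.sum_univ_three, al1', m1', g0, g0', F'] at e5 ⊢
        linear_combination e5 - t * hy1 + t * y * hu
      · simp [z3, dotProduct, Fin.sum_univ_three, al1', e0, e0', g0, g0'] at e7 ⊢
        linear_combination e7 - t * hy2 + t * y * hv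
      · simp [z3, hn.be0, hn.be0', hn.ga0, hn.ga0', m1', e0, e0']
      · simp [z3, dotProduct, Fin.sum_univ_three, hn.be0, hn.be0', hn.ga0, hn.ga0', m1', e0,
          e0'] at w3 ⊢
        linear_combination w3
      · simp [z3, dotProduct, Fin.sum_univ_three, hn.be0, hn.be0', al1', e0, e0', F'] at w5 ⊢
        linear_combination w5 - t * hz1 + t * z * hu
      · simp [z3, dotProduct, Fin.sum_univ_three, hn.be0, hn.be0', m1', e0, e0', g0, g0'] at w6 ⊢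
        linear_combination w6 - t * hz2 + t * z * hv
      · simp [z3, hn.be0, hn.be0', hn.ga0, hn.ga0', F']) Set.finite_empty
  refine sd_i G h2 ⟨by simp [z3, hn.be0], by simp [z3, hn.be0'], by simp [z3, hn.ga0],
    by simp [z3, hn.ga0']⟩ ?_
  rintro ⟨q1, q2, q3, q4⟩
  simp [z3, g0, e0, g0', e0', ht] at q1 q2 q3 q4
  apply hw
  rw [q1, q3, q4]
  funext i
  fin_cases i <;> rfl

theorem sd_iii (G : GH k ρ) (h : M3 ρ a a') (hn : Nd a a') (g0 : a.g 0 = 0) (e0 : a.e 0 = 0)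
    (g0' : a'.g 0 = 0) (e0' : a'.e 0 = 0) : False := by
  obtain ⟨al1', m1', F'⟩ := hn.zero h.rel
  by_cases h0 : a.F 1 ≠ 0 ∨ a.F 2 ≠ 0 ∨ a.Z 1 ≠ 0 ∨ a.Z 2 ≠ 0 ∨ a'.Z 1 ≠ 0 ∨ a'.Z 2 ≠ 0
  · exact sd_ii G h hn g0 e0 g0' e0' h0
  push Not at h0
  obtain ⟨f1, f2, z1, z2, z1', z2'⟩ := h0
  obtain ⟨x, hx, hk⟩ := exists_ker (by norm_num) (![
    ![a'.e 1, a'.e 2, -a.e 1, -a.e 2, 0, 0],
    ![0, 0, a'.e 1, a'.e 2, -a.e 1, -a.e 2],
    ![a'.g 1, a'.g 2, -a.g 1, -a.g 2, 0, 0],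
    ![0, 0, a'.g 1, a'.g 2, -a.g 1, -a.g 2]] : Matrix (Fin 4) (Fin 6) k)
  have k0 := congrFun hk 0
  have k1 := congrFun hk 1
  have k2 := congrFun hk 2
  have k3 := congrFun hk 3
  simp [mulVec, dotProduct, Fin.sum_univ_succ] at k0 k1 k2 k3
  obtain ⟨t, -, ht, h2⟩ := h.move
    { (z3 k) with
      F := ![0, x 0, x 1]
      Z := ![0, x 2, x 3] }
    { (z3 k) with
      F := ![0, x 2, x 3]
      Z := ![0, x 4, x 5] } (fun t => by
      obtain ⟨e2, e3, e5, e7, w2, w3, w5, w6, up⟩ := h.rel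
      refine ⟨?_, ?_, ?_, ?_, ?_, ?_, ?_, ?_, ?_⟩
      · simpa [z3] using e2
      · simpa [z3] using e3
      · simp [z3, dotProduct, Fin.sum_univ_three] at e5 ⊢
        linear_combination e5 + t * k2
      · simp [z3, dotProduct, Fin.sum_univ_three] at e7 ⊢
        linear_combination e7 + t * k3
      · simpa [z3] using w2
      · simpa [z3] using w3
      · simp [z3, dotProduct, Fin.sum_univ_three] at w5 ⊢
        linear_combination w5 + t * k0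
      · simp [z3, dotProduct, Fin.sum_univ_three] at w6 ⊢
        linear_combination w6 + t * k1
      · simp [z3, hn.be0, hn.be0', hn.ga0, hn.ga0', F']) Set.finite_empty
  refine sd_ii G h2 ⟨by simp [z3, hn.be0], by simp [z3, hn.be0'], by simp [z3, hn.ga0],
    by simp [z3, hn.ga0']⟩ (by simp [z3, g0]) (by simp [z3, e0]) (by simp [z3, g0'])
    (by simp [z3, e0']) ?_
  by_contra hc
  push Not at hc
  simp [z3, f1, f2, z1, z2, z1', z2', ht] at hc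
  apply hx
  funext i
  fin_cases i
  · exact hc.1
  · exact hc.2.1
  · exact hc.2.2.1
  · exact hc.2.2.2.1
  · exact hc.2.2.2.2.1
  · exact hc.2.2.2.2.2

theorem sd (G : GH k ρ) (h : M3 ρ a a') (hn : Nd a a') : False := by
  by_cases h0 : a.g 0 = 0 ∧ a.e 0 = 0 ∧ a'.g 0 = 0 ∧ a'.e 0 = 0
  · exact sd_iii G h hn h0.1 h0.2.1 h0.2.2.1 h0.2.2.2
  · exact sd_i G h hn h0

/-! ### the class -/

theorem sk (G : GH k ρ) (h : M3 ρ a a')
    (h0 : a.be0 ≠ 0 ∨ a'.be0 ≠ 0 ∨ a.ga0 ≠ 0 ∨ a'.ga0 ≠ 0) : False := by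
  -- `be0 = (1, 0)`
  have A : ∀ a a' : A3 k, M3 ρ a a' → a.be0 = 1 → a'.be0 = 0 → False := by
    intro a a' h hb hb'
    by_cases hg : a'.ga0 = 0
    · refine sc G (h.ub a.ga0) ⟨?_, ?_, ?_, ?_⟩
      · exact hb
      · exact hb'
      · show a.ga0 - a.ga0 * a.be0 = 0
        rw [hb, mul_one, sub_self]
      · show a'.ga0 - a.ga0 * a'.be0 = 0
        rw [hb', hg, mul_zero, sub_zero]
    · refine sd G (h.lin 1 (-(a.ga0 / a'.ga0)) 0 (a'.ga0)⁻¹ (by simpa using hg))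
        ⟨?_, ?_, ?_, ?_⟩
      · simp [hb, hb']
      · simp [hb']
      · simp only [A3.add_ga0, A3.smul_ga0]
        field_simp
        ring
      · simp [hg]
  by_cases hb : a.be0 = 0 ∧ a'.be0 = 0
  · have B : ∀ a a' : A3 k, M3 ρ a a' → a.be0 = 0 → a'.be0 = 0 → a.ga0 ≠ 0 → False := by
      intro a a' h hb hb' hg
      refine sb G (h.lin (a.ga0)⁻¹ 0 (-(a'.ga0 / a.ga0)) 1 (by simpa using hg)) ⟨?_, ?_, ?_, ?_⟩
      · simp [hb]
      · simp [hb, hb']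
      · simp [hg]
      · simp only [A3.add_ga0, A3.smul_ga0]
        field_simp
        ring
    rcases h0 with h0 | h0 | h0 | h0
    · exact h0 hb.1
    · exact h0 hb.2
    · exact B a a' h hb.1 hb.2 h0
    · have h1 := h.lin 0 1 1 0 (by simp)
      exact B _ _ h1 (by simp [hb.2]) (by simp [hb.1]) (by simpa using h0)
  · by_cases h1 : a.be0 = 0
    · have h2 : a'.be0 ≠ 0 := fun h2 => hb ⟨h1, h2⟩
      refine A _ _ (h.lin 0 (a'.be0)⁻¹ 1 0 (by simpa using h2)) (by simp [h2]) (by simp [h1])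
    · refine A _ _ (h.lin (a.be0)⁻¹ 0 (-(a'.be0 / a.be0)) 1 (by simpa using h1)) (by simp [h1]) ?_
      simp only [A3.add_be0, A3.smul_be0]
      field_simp
      ring

omit [Infinite k] in
theorem gh [CharZero k] : GH k ρ := by
  intro a a' h h0 hg
  refine h.ncl (kgood_cl (MaxR.rel h) ⟨rfl, rfl, rfl, rfl, rfl, rfl⟩ h0 fun b e k1 k2 => ?_)
  have p1 := congrFun k1 0
  have p2 := congrFun k1 1
  have p3 := congrFun k2 0
  have p4 := congrFun k2 1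
  simp [par] at p1 p2 p3 p4
  exact hg b e p1 p2 p3 p4

/-- class K3 outside class al -/
theorem k3_false [CharZero k] {c c' : Par k 2} (hT : MaxR ρ ![J k 2, B c, B c'])
    (_hρ : (J k 2).rank = ρ 1) (hK : K3 c c')
    (h0 : c.be0 ≠ 0 ∨ c'.be0 ≠ 0 ∨ c.ga0 ≠ 0 ∨ c'.ga0 ≠ 0) : False := by
  have h : M3 ρ (of c) (of c') := by
    unfold M3
    rw [par_of hK.al0 hK.de0 hK.s, par_of hK.al0' hK.de0' hK.s']
    exact hT
  exact sk gh h h0

end Pool.Agent.Lib.D13.F432
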