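import Pool.Agent.Lib.D13.T432L
import Pool.Agent.Lib.D13.Psi

/-!
# MP_5dcbc3_ag: type `(4, 3, 2, 1^3)`: the rank one moves, the extension lemma, the case `al0 ≠ 0`
-/

namespace Pool.Agent.Lib.D13.F432

open Matrix Pool.Agent.Lib.Q5dc Pool.Agent.Lib.D7

variable {k : Type*} [Field k] {p : ℕ} {ρ : ℕ → ℕ}

theorem low_B (c : Par k p) (a b e : k) :
    B c *ᵥ V ![0, 0, 0, a, 0, 0, b, 0, e] 0 =
      V ![0, 0, 0, c.be0 * b + c.ga0 * e, 0, 0, c.de0 * e, 0, 0] 0 := by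
  rw [B_V]
  congr 1
  · funext i
    fin_cases i <;> simp
  · simp

theorem low_g (c : Par k p) (ε : k) (π : Fin p → k) :
    B c *ᵥ V ![0, 0, 0, 0, 0, 0, 0, 0, ε] π = V ![0, 0, 0, c.ga0 * ε + c.ph ⬝ᵥ π, 0, 0,
      c.de0 * ε + c.ch ⬝ᵥ π, 0, c.et ⬝ᵥ π] 0 := by
  rw [B_V]
  congr 1
  · funext i
    fin_cases i <;> simp
  · simp

theorem low_pow (c : Par k p) (ε : k) (π : Fin p → k) (j : ℕ) :
    ∃ a b e : k, B c ^ (j + 1) *ᵥ V ![0, 0, 0, 0, 0, 0, 0, 0, ε] π =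
      V ![0, 0, 0, a, 0, 0, b, 0, e] 0 := by
  induction j with
  | zero =>
    rw [zero_add, pow_one, low_g]
    exact ⟨_, _, _, rfl⟩
  | succ j ih =>
    obtain ⟨a, b, e, h⟩ := ih
    rw [pow_succ', ← mulVec_mulVec, h, low_B]
    exact ⟨_, _, _, rfl⟩

theorem low_dot (c : Par k p) (ε : k) (π ζ : Fin p → k) (z1 z5 z7 : k) (h : ζ ⬝ᵥ π = 0) (j : ℕ) :
    V ![0, z1, 0, 0, 0, z5, 0, z7, 0] ζ ⬝ᵥ
      (B c ^ j *ᵥ V ![0, 0, 0, 0, 0, 0, 0, 0, ε] π) = 0 := by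
  cases j with
  | zero =>
    rw [pow_zero, one_mulVec, V_dot, h]
    simp [dotProduct, Fin.sum_univ_succ]
  | succ j =>
    obtain ⟨a, b, e, h⟩ := low_pow c ε π j
    rw [h, V_dot]
    simp [dotProduct, Fin.sum_univ_succ]

theorem J_g (ε : k) (π : Fin p → k) : J k p *ᵥ V ![0, 0, 0, 0, 0, 0, 0, 0, ε] π = 0 := by
  rw [J_V, ← V_zero]
  congr 1
  funext i
  fin_cases i <;> simp

/-- moves of `c'` by `g ⊗ ζ`, `g = ε u1 + π`, `ζ = z7 u0* + ζ` -/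
theorem MaxR.klc [Infinite k] {c c' : Par k p} (hT : MaxR ρ ![J k p, B c, B c'])
    (h1 : (J k p).rank = ρ 1) {ε z7 : k} {π ζ : Fin p → k}
    (g1 : c.ga0 * ε + c.ph ⬝ᵥ π = 0) (g2 : c.de0 * ε + c.ch ⬝ᵥ π = 0) (g3 : c.et ⬝ᵥ π = 0)
    (f1 : c.c0 * z7 + ζ ⬝ᵥ c.q = 0) (f2 : c.d0 * z7 + ζ ⬝ᵥ c.r = 0) (f3 : ζ ⬝ᵥ c.s = 0)
    (h : ζ ⬝ᵥ π = 0) (hζ : ζ ≠ 0) : π = 0 := by
  obtain ⟨j, hj⟩ := Function.ne_iff.1 hζ
  obtain ⟨x, hx⟩ := MaxR.kl hT h1 (g := V ![0, 0, 0, 0, 0, 0, 0, 0, ε] π)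
    (ζ := V ![0, 0, 0, 0, 0, 0, 0, z7, 0] ζ) (J_g ε π) (by
      rw [low_g, g1, g2, g3, ← V_zero]
      congr 1
      funext i
      fin_cases i <;> simp) (by
      rw [V_J, ← V_zero]
      congr 1
      funext i
      fin_cases i <;> simp) (by
      rw [V_B, ← V_zero]
      congr 1
      · funext i
        fin_cases i <;> simp
        · exact f1
        · exact f2
        · exact f3
      · simp) (fun j => low_dot c' ε π ζ 0 0 z7 h j) (u := V 0 (Pi.single j 1)) (ker_P _) (by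
      rw [V_dot]
      simpa using hj)
  rw [V_eta x, J_V] at hx
  exact (V_inj hx).2.symm

/-- the matrix `ζ : P -> u1` -/
def zet (ζ : Fin p → k) : Par k p := { (zp : Par k p) with et := ζ }

theorem zet_B (ζ : Fin p → k) : vecMulVec (V ![0, 0, 0, 0, 0, 0, 0, 0, 1] 0) (V 0 ζ) =
    B (zet ζ) := by
  refine ext_V fun x π => ?_
  rw [vmv, B_V, V_dot, V_smul]
  congr 1
  · funext i
    fin_cases i <;> simp [zet, zp]
  · simp [zet, zp]

/-- moves of `c'` by `u1 ⊗ ζ` -/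
theorem MaxR.kl_et [Infinite k] {c c' : Par k p} (hT : MaxR ρ ![J k p, B c, B c'])
    {ζ : Fin p → k} (g1 : c.ga0 = 0) (g2 : c.de0 = 0)
    (f1 : ζ ⬝ᵥ c.q = 0) (f2 : ζ ⬝ᵥ c.r = 0) (f3 : ζ ⬝ᵥ c.s = 0) :
    ∃ E : Set k, E.Finite ∧ ∀ t ∉ E, MaxR ρ ![J k p, B c, B (c' + t • zet ζ)] := by
  obtain ⟨E, hE, h⟩ := MaxR.kl_move hT (g := V ![0, 0, 0, 0, 0, 0, 0, 0, 1] 0)
    (ζ := V 0 ζ) (J_g 1 0) (by
      rw [low_g, g1, g2, ← V_zero]
      congr 1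
      funext i
      fin_cases i <;> simp) (by
      rw [V_J, ← V_zero]
      congr 1
      funext i
      fin_cases i <;> simp) (by
      rw [V_B, ← V_zero]
      congr 1
      · funext i
        fin_cases i <;> simp
        · exact f1
        · exact f2
        · exact f3
      · simp) (fun j => by
        have h2 := low_dot c' 1 0 ζ 0 0 0 (by simp) j
        have e : (![0, 0, 0, 0, 0, 0, 0, 0, 0] : Fin 9 → k) = 0 := by
          funext i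
          fin_cases i <;> rfl
        rwa [e] at h2)
  refine ⟨E, hE, fun t ht => ?_⟩
  rw [B_add, B_smul, ← zet_B]
  exact h t ht

/-- extension lemma: `f0 = ε u0 + π` -/
theorem MaxR.psx [Infinite k] {c c' : Par k 3} (hT : MaxR ρ ![J k 3, B c, B c'])
    (h1 : (J k 3).rank = ρ 1)
    (b0 : c.be0 = 0) (b0' : c'.be0 = 0) (a0' : c'.al0 = 0)
    (g0 : c.ga0 = 0) (g0' : c'.ga0 = 0) (e0 : c.de0 = 0) (e0' : c'.de0 = 0)
    (s0 : c.s = 0) (s0' : c'.s = 0)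
    (hM : ∀ π, c.ph ⬝ᵥ π = 0 → c.ch ⬝ᵥ π = 0 → c.et ⬝ᵥ π = 0 → π = 0)
    {z : k} {ψ : Fin 3 → k} (hψ : ψ ≠ 0)
    (f1 : c.c0 * z + ψ ⬝ᵥ c.q = 0) (f2 : c.d0 * z + ψ ⬝ᵥ c.r = 0)
    (f1' : c'.c0 * z + ψ ⬝ᵥ c'.q = 0) (f2' : c'.d0 * z + ψ ⬝ᵥ c'.r = 0) : False := by
  obtain ⟨x1, x2, x3, hx⟩ := comb3 hM ψ
  -- `Θ = ga1 ε + ph π`, `Ξ = de1 ε + ch π`, `H = n1 ε + et π`
  -- the right-hand sides for `g'`
  obtain ⟨ε, π, hne, k1, k2, k3⟩ := ker3 z (z * c.n1)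
    (z * c'.n1 +
      (x1 * (c'.be1 * c.de1 + c'.ga1 * c.n1 - c.be1 * c'.de1 - c.ga1 * c'.n1) +
       x2 * (c'.m1 * c.de1 + c'.de1 * c.n1 - c.al0 * c'.ga1 - c.m1 * c'.de1 - c.de1 * c'.n1) +
       x3 * (c'.d0 * c.de1 + c'.n1 * c.n1 - c.d0 * c'.de1 - c.n1 * c'.n1)))
    ψ (z • c.et)
    (z • c'.et +
      (x1 • (c'.be1 • c.ch + c'.ga1 • c.et - c.be1 • c'.ch - c.ga1 • c'.et) +
       x2 • (c'.m1 • c.ch + c'.de1 • c.et - c.al0 • c'.ph - c.m1 • c'.ch - c.de1 • c'.et) +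
       x3 • (c'.d0 • c.ch + c'.n1 • c.et - c.d0 • c'.ch - c.n1 • c'.et)))
  set Θ := c.ga1 * ε + c.ph ⬝ᵥ π with hΘ
  set Ξ := c.de1 * ε + c.ch ⬝ᵥ π with hΞ
  set H := c.n1 * ε + c.et ⬝ᵥ π with hH
  set Θ' := c'.ga1 * ε + c'.ph ⬝ᵥ π with hΘ'
  set Ξ' := c'.de1 * ε + c'.ch ⬝ᵥ π with hΞ'
  set H' := c'.n1 * ε + c'.et ⬝ᵥ π with hH'
  obtain ⟨g, q1, q2, q3⟩ := onto3 hM
    (c'.be1 * Ξ + c'.ga1 * H - c.be1 * Ξ' - c.ga1 * H')
    (c'.m1 * Ξ + c'.de1 * H - c.al0 * Θ' - c.m1 * Ξ' - c.de1 * H')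
    (c'.d0 * Ξ + c'.n1 * H - c.d0 * Ξ' - c.n1 * H')
  have hzH : z * H = 0 := by
    rw [hH]
    simp only [smul_dotProduct, smul_eq_mul] at k2
    linear_combination k2
  have hψg : z * H' + ψ ⬝ᵥ g = 0 := by
    rw [hx]
    simp only [add_dotProduct, sub_dotProduct, smul_dotProduct, smul_eq_mul] at k3 ⊢
    rw [q1, q2, q3]
    simp only [hH', hΘ', hΞ', hH, hΞ]
    linear_combination k3
  obtain ⟨j, hj⟩ := Function.ne_iff.1 hψ
  obtain ⟨m, hm⟩ := MaxR.psi0 hT 0 (by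
      rw [zero_add, pow_one]
      exact h1.ge) (V ![0, 0, 0, 0, 0, 0, 0, z, 0] ψ) (by
      intro i
      fin_cases i
      · show V ![0, 0, 0, 0, 0, 0, 0, z, 0] ψ ᵥ* J k 3 = 0
        rw [V_J, ← V_zero]
        congr 1
        funext i
        fin_cases i <;> simp
      · show V ![0, 0, 0, 0, 0, 0, 0, z, 0] ψ ᵥ* B c = 0
        rw [V_B, ← V_zero]
        congr 1
        · funext i
          fin_cases i <;> simp [s0]
          · exact f1
          · exact f2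
        · simp
      · show V ![0, 0, 0, 0, 0, 0, 0, z, 0] ψ ᵥ* B c' = 0
        rw [V_B, ← V_zero]
        congr 1
        · funext i
          fin_cases i <;> simp [s0']
          · exact f1'
          · exact f2'
        · simp)
    ![V ![0, 0, 0, 0, 0, 0, 0, ε, 0] π, V ![0, 0, Θ, 0, 0, Ξ, 0, H, 0] 0,
      V ![0, 0, Θ', 0, 0, Ξ', 0, H', 0] g] (by
      intro i
      fin_cases i
      · show V _ ψ ⬝ᵥ V _ π = 0
        rw [V_dot]
        simp [dotProduct, Fin.sum_univ_succ]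
        simpa [dotProduct, Fin.sum_univ_succ] using k1
      · show V _ ψ ⬝ᵥ V _ 0 = 0
        rw [V_dot]
        simpa [dotProduct, Fin.sum_univ_succ] using hzH
      · show V _ ψ ⬝ᵥ V _ g = 0
        rw [V_dot]
        simpa [dotProduct, Fin.sum_univ_succ] using hψg) (by
      have t01 : J k 3 *ᵥ V ![0, 0, Θ, 0, 0, Ξ, 0, H, 0] 0 =
          B c *ᵥ V ![0, 0, 0, 0, 0, 0, 0, ε, 0] π := by
        rw [J_V, B_V]
        congr 1
        · funext i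
          fin_cases i <;> simp [g0, e0, hΘ, hΞ, hH]
        · simp [s0]
      have t02 : J k 3 *ᵥ V ![0, 0, Θ', 0, 0, Ξ', 0, H', 0] g =
          B c' *ᵥ V ![0, 0, 0, 0, 0, 0, 0, ε, 0] π := by
        rw [J_V, B_V]
        congr 1
        · funext i
          fin_cases i <;> simp [g0', e0', hΘ', hΞ', hH']
        · simp [s0']
      have t12 : B c *ᵥ V ![0, 0, Θ', 0, 0, Ξ', 0, H', 0] g =
          B c' *ᵥ V ![0, 0, Θ, 0, 0, Ξ, 0, H, 0] 0 := by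
        rw [B_V, B_V]
        congr 1
        · funext i
          fin_cases i <;> simp [g0, g0', e0, e0', b0, b0', a0', q1, q2, q3]
        · simp [s0, s0']
      intro a b
      fin_cases a <;> fin_cases b
      · rfl
      · exact t01
      · exact t02
      · exact t01.symm
      · rfl
      · exact t12
      · exact t02.symm
      · exact t12.symm
      · rfl) (V 0 (Pi.single j 1)) (by
      rw [zero_add, pow_one]
      exact ker_P _) (by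
      rw [V_dot]
      simpa using hj)
  rw [zero_add, pow_one, pow_zero, one_mulVec] at hm
  have hm' : V ![0, 0, 0, 0, 0, 0, 0, ε, 0] π = J k 3 *ᵥ m := hm
  rw [V_eta m, J_V] at hm'
  obtain ⟨r1, r2⟩ := V_inj hm'
  have r3 := congrFun r1 7
  simp at r3
  rcases hne with h | h
  · exact h r3
  · exact h r2

/-- the case `al0 ≠ 0` -/
theorem caseA [CharZero k] {c c' : Par k 3} (hT : MaxR ρ ![J k 3, B c, B c'])
    (h1 : (J k 3).rank = ρ 1) (h4 : ρ 4 = 0) (ha : c.al0 ≠ 0 ∨ c'.al0 ≠ 0) : False := by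
  obtain ⟨c, c', hT, a0, a1, a2, a3, a4, a5, b0, a0', a1', a2', b0'⟩ :=
    MaxR.normA hT h1 h4 ha
  have hR := MaxR.rel hT
  -- rank one moves
  have KL : ∀ (ε : k) (π ζ : Fin 3 → k), c.ga0 * ε + c.ph ⬝ᵥ π = 0 →
      c.de0 * ε + c.ch ⬝ᵥ π = 0 → c.et ⬝ᵥ π = 0 → ζ ⬝ᵥ c.r = 0 → ζ ⬝ᵥ c.s = 0 →
      ζ ⬝ᵥ π = 0 → ζ ≠ 0 → π = 0 := by
    intro ε π ζ g1 g2 g3 f2 f3 h hζ
    exact MaxR.klc hT h1 g1 g2 g3 (z7 := 0) (by simp [a5]) (by simpa using f2) f3 h hζ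
  by_cases he : c.et = 0
  · -- `et = 0`
    obtain ⟨ζ, hζ, z1, z2⟩ := ker2 c.r c.s
    rw [dotProduct_comm] at z1 z2
    obtain ⟨ε, π, hne, k1, k2, k3⟩ := ker3 c.ga0 c.de0 0 c.ph c.ch ζ
    rw [zero_mul, zero_add] at k3
    have hπ : π = 0 := KL ε π ζ k1 k2 (by simp [he]) z1 z2 k3 hζ
    have hε : ε ≠ 0 := hne.resolve_right (not_not.2 hπ)
    have g0 : c.ga0 = 0 := by
      rw [hπ] at k1
      simpa [hε] using k1
    have e0 : c.de0 = 0 := by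
      rw [hπ] at k2
      simpa [hε] using k2
    obtain ⟨E, hE, h5⟩ := MaxR.kl_et hT (ζ := ζ) g0 e0 (by simp [a5]) z1 z2
    obtain ⟨j, hj⟩ := Function.ne_iff.1 hζ
    obtain ⟨t, ht⟩ := (hE.union (Set.finite_singleton (-(c'.et j) / ζ j))).exists_notMem
    simp only [Set.mem_union, not_or, Set.mem_singleton_iff] at ht
    have hs : c.s = 0 := by
      rcases MaxR.rc3 (h5 t ht.1) h1 with h | h
      · exact h.1
      · exfalso
        have h6 := congrFun h.2 j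
        simp [zet] at h6
        apply ht.2
        rw [eq_div_iff hj]
        linear_combination h6
    obtain ⟨π, hπ0, p1, p2⟩ := ker2 c.ph c.ch
    obtain ⟨ζ', hζ', z1', z2'⟩ := ker2 c.r π
    rw [dotProduct_comm] at z1' z2'
    exact hπ0 (KL 0 π ζ' (by rw [p1]; simp) (by rw [p2]; simp) (by simp [he]) z1'
      (by simp [hs]) z2' hζ')
  · -- `et ≠ 0`
    have hs : c.s = 0 ∧ c'.s = 0 := (MaxR.rc3 hT h1).resolve_right fun h => he h.1
    have KL' : ∀ (ε : k) (π : Fin 3 → k), c.ga0 * ε + c.ph ⬝ᵥ π = 0 →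
        c.de0 * ε + c.ch ⬝ᵥ π = 0 → c.et ⬝ᵥ π = 0 → π = 0 := by
      intro ε π g1 g2 g3
      obtain ⟨ζ, hζ, z1, z2⟩ := ker2 c.r π
      rw [dotProduct_comm] at z1 z2
      exact KL ε π ζ g1 g2 g3 z1 (by simp [hs.1]) z2 hζ
    obtain ⟨ε, π, hne, k1, k2, k3⟩ := ker3 c.ga0 c.de0 0 c.ph c.ch c.et
    have hπ : π = 0 := KL' ε π k1 k2 (by simpa using k3)
    have hε : ε ≠ 0 := hne.resolve_right (not_not.2 hπ)
    have g0 : c.ga0 = 0 := by
      rw [hπ] at k1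
      simpa [hε] using k1
    have e0 : c.de0 = 0 := by
      rw [hπ] at k2
      simpa [hε] using k2
    have g0' : c'.ga0 = 0 := by
      have h := hR.p1
      rw [b0, b0', g0, zero_smul, zero_smul, zero_smul, zero_add, zero_add] at h
      exact (smul_eq_zero.1 h.symm).resolve_right he
    have e0' : c'.de0 = 0 := by
      have h := hR.p2
      rw [e0, zero_smul] at h
      exact (smul_eq_zero.1 h.symm).resolve_right he
    have d0' : c'.d0 = 0 := by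
      have h := hR.e6
      rw [a0, a0'] at h
      linear_combination -h
    have r0' : c'.r = 0 := by
      have h := hR.e8
      rw [a0, a0', a3, hs.1] at h
      simpa using h.symm
    obtain ⟨ψ, hψ, y1, y2⟩ := ker2 c'.q c.r
    rw [dotProduct_comm] at y1 y2
    exact MaxR.psx hT h1 b0 b0' a0' g0 g0' e0 e0' hs.1 hs.2
      (fun π p1 p2 p3 => KL' 0 π (by rw [p1]; simp) (by rw [p2]; simp) p3) (z := 0) hψ
      (by simp [a5]) (by simpa using y2) (by simpa using y1) (by simp [r0'])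

end Pool.Agent.Lib.D13.F432
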