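import Pool.Agent.Lib.D13.T432A

/-!
# MP_5dcbc3_ag: type `(4, 3, 2, 1^3)`: the special pencil
-/

namespace Pool.Agent.Lib.D13.F432

open Matrix Pool.Agent.Lib.Q5dc Pool.Agent.Lib.D7

variable {k : Type*} [Field k] {p : ℕ} {ρ : ℕ → ℕ}

structure Zb (c : Par k p) : Prop where
  al0 : c.al0 = 0
  be0 : c.be0 = 0
  s : c.s = 0

theorem Zb.add {c d : Par k p} (hc : Zb c) (hd : Zb d) : Zb (c + d) :=
  ⟨by simp [hc.al0, hd.al0], by simp [hc.be0, hd.be0], by simp [hc.s, hd.s]⟩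

theorem Zb.smul {c : Par k p} (t : k) (hc : Zb c) : Zb (t • c) :=
  ⟨by simp [hc.al0], by simp [hc.be0], by simp [hc.s]⟩

/-- polynomial families of parameters -/
theorem MaxR.move [Infinite k] {c c' : Par k p} (hT : MaxR ρ ![J k p, B c, B c'])
    (D D' : Par k p) (h : ∀ t : k, Rel (c + t • D) (c' + t • D')) :
    ∃ E : Set k, E.Finite ∧ ∀ t ∉ E, MaxR ρ ![J k p, B (c + t • D), B (c' + t • D')] := by
  have hfam : ∀ t : k, ![J k p, B c, B c'] + t • ![0, B D, B D'] =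
      ![J k p, B (c + t • D), B (c' + t • D')] := by
    intro t
    rw [D8.line3_eq, B_add, B_add, B_smul, B_smul]
    simp
  obtain ⟨E, hE, h1⟩ := hT.deform (fun t => ![J k p, B c, B c'] + t • ![0, B D, B D'])
    (PolyFam.line _ _) (by simp) Set.finite_empty (fun t _ => by
      rw [hfam]
      exact cn_of_rel (h t))
  exact ⟨E, hE, fun t ht => by
    have h2 := h1 t ht
    rwa [hfam] at h2⟩

/-- first consequences of `(c0, d0) ≠ 0` -/
theorem b1a [CharZero k] {c c' : Par k 3} (hT : MaxR ρ ![J k 3, B c, B c'])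
    (h1 : (J k 3).rank = ρ 1) (hc : Zb c) (hc' : Zb c') (h0 : c.c0 ≠ 0 ∨ c.d0 ≠ 0) :
    c.ga0 = 0 ∧ c.de0 = 0 ∧ c'.ga0 = 0 ∧ c'.de0 = 0 ∧
      ∀ π, c.ph ⬝ᵥ π = 0 → c.ch ⬝ᵥ π = 0 → c.et ⬝ᵥ π = 0 → π = 0 := by
  have hR := MaxR.rel hT
  have KL : ∀ (ε : k) (π : Fin 3 → k), c.ga0 * ε + c.ph ⬝ᵥ π = 0 →
      c.de0 * ε + c.ch ⬝ᵥ π = 0 → c.et ⬝ᵥ π = 0 → π = 0 := by
    intro ε π g1 g2 g3
    obtain ⟨z, ζ, hne, k1, k2, k3⟩ := ker3 c.c0 c.d0 0 c.q c.r π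
    rw [zero_mul, zero_add] at k3
    refine MaxR.klc hT h1 g1 g2 g3 (z7 := z) (ζ := ζ) ?_ ?_ (by simp [hc.s]) ?_ ?_
    · rw [dotProduct_comm]
      exact k1
    · rw [dotProduct_comm]
      exact k2
    · rw [dotProduct_comm]
      exact k3
    · rintro rfl
      have hz : z ≠ 0 := by
        rcases hne with h | h
        · exact h
        · exact absurd rfl h
      simp [hz] at k1 k2
      rcases h0 with h | h
      · exact h k1
      · exact h k2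
  obtain ⟨ε, π, hne, k1, k2, k3⟩ := ker3 c.ga0 c.de0 0 c.ph c.ch c.et
  have hπ : π = 0 := KL ε π k1 k2 (by simpa using k3)
  have hε : ε ≠ 0 := hne.resolve_right (not_not.2 hπ)
  have g0 : c.ga0 = 0 := by
    rw [hπ] at k1
    simpa [hε] using k1
  have e0 : c.de0 = 0 := by
    rw [hπ] at k2
    simpa [hε] using k2
  have hM : ∀ π, c.ph ⬝ᵥ π = 0 → c.ch ⬝ᵥ π = 0 → c.et ⬝ᵥ π = 0 → π = 0 :=
    fun π p1 p2 p3 => KL 0 π (by rw [p1]; simp) (by rw [p2]; simp) p3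
  have he : c.et ≠ 0 := by
    intro h
    obtain ⟨π, hπ0, p1, p2⟩ := ker2 c.ph c.ch
    exact hπ0 (hM π p1 p2 (by simp [h]))
  refine ⟨g0, e0, ?_, ?_, hM⟩
  · have h := hR.p1
    rw [hc.be0, hc'.be0, g0, zero_smul, zero_smul, zero_smul, zero_add, zero_add] at h
    exact (smul_eq_zero.1 h.symm).resolve_right he
  · have h := hR.p2
    rw [e0, zero_smul] at h
    exact (smul_eq_zero.1 h.symm).resolve_right he

/-- four functionals on `k + k^3`: a common zero or a dual basis -/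
theorem dual4 (a1 a2 a3 a4 : k) (v1 v2 v3 v4 : Fin 3 → k) :
    (∃ (ε : k) (π : Fin 3 → k), (ε ≠ 0 ∨ π ≠ 0) ∧ a1 * ε + π ⬝ᵥ v1 = 0 ∧ a2 * ε + π ⬝ᵥ v2 = 0 ∧
      a3 * ε + π ⬝ᵥ v3 = 0 ∧ a4 * ε + π ⬝ᵥ v4 = 0) ∨
    ∃ (f1 f2 f3 f4 : k) (F1 F2 F3 F4 : Fin 3 → k),
      (a1 * f1 + F1 ⬝ᵥ v1 = 1 ∧ a2 * f1 + F1 ⬝ᵥ v2 = 0 ∧ a3 * f1 + F1 ⬝ᵥ v3 = 0 ∧
        a4 * f1 + F1 ⬝ᵥ v4 = 0) ∧
      (a1 * f2 + F2 ⬝ᵥ v1 = 0 ∧ a2 * f2 + F2 ⬝ᵥ v2 = 1 ∧ a3 * f2 + F2 ⬝ᵥ v3 = 0 ∧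
        a4 * f2 + F2 ⬝ᵥ v4 = 0) ∧
      (a1 * f3 + F3 ⬝ᵥ v1 = 0 ∧ a2 * f3 + F3 ⬝ᵥ v2 = 0 ∧ a3 * f3 + F3 ⬝ᵥ v3 = 1 ∧
        a4 * f3 + F3 ⬝ᵥ v4 = 0) ∧
      (a1 * f4 + F4 ⬝ᵥ v1 = 0 ∧ a2 * f4 + F4 ⬝ᵥ v2 = 0 ∧ a3 * f4 + F4 ⬝ᵥ v3 = 0 ∧
        a4 * f4 + F4 ⬝ᵥ v4 = 1) ∧
      ∀ (ε : k) (π : Fin 3 → k), f1 * ε + F1 ⬝ᵥ π = 0 → f2 * ε + F2 ⬝ᵥ π = 0 →
        f3 * ε + F3 ⬝ᵥ π = 0 → f4 * ε + F4 ⬝ᵥ π = 0 → ε = 0 ∧ π = 0 := by
  rcases dich4 a1 a2 a3 a4 v1 v2 v3 v4 with ⟨ε, π, h0, h1, h2, h3, h4⟩ | h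
  · refine Or.inl ⟨ε, π, h0, ?_, ?_, ?_, ?_⟩
    · rw [dotProduct_comm]; exact h1
    · rw [dotProduct_comm]; exact h2
    · rw [dotProduct_comm]; exact h3
    · rw [dotProduct_comm]; exact h4
  · obtain ⟨f1, F1, h11, h12, h13, h14⟩ := h 1 0 0 0
    obtain ⟨f2, F2, h21, h22, h23, h24⟩ := h 0 1 0 0
    obtain ⟨f3, F3, h31, h32, h33, h34⟩ := h 0 0 1 0
    obtain ⟨f4, F4, h41, h42, h43, h44⟩ := h 0 0 0 1
    rw [dotProduct_comm] at h11 h12 h13 h14 h21 h22 h23 h24 h31 h32 h33 h34 h41 h42 h43 h44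
    refine Or.inr ⟨f1, f2, f3, f4, F1, F2, F3, F4, ⟨h11, h12, h13, h14⟩, ⟨h21, h22, h23, h24⟩,
      ⟨h31, h32, h33, h34⟩, ⟨h41, h42, h43, h44⟩, fun ε π e1 e2 e3 e4 => ?_⟩
    have hX : Matrix.of ![vecCons f1 F1, vecCons f2 F2, vecCons f3 F3, vecCons f4 F4] *
        (Matrix.of ![vecCons a1 v1, vecCons a2 v2, vecCons a3 v3, vecCons a4 v4])ᵀ = 1 := by
      ext i j
      rw [mul_apply']
      change (![vecCons f1 F1, vecCons f2 F2, vecCons f3 F3, vecCons f4 F4] i) ⬝ᵥ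
        (![vecCons a1 v1, vecCons a2 v2, vecCons a3 v3, vecCons a4 v4] j) = _
      fin_cases i <;> fin_cases j <;> simp <;>
        first
          | linear_combination h11
          | linear_combination h12
          | linear_combination h13
          | linear_combination h14
          | linear_combination h21
          | linear_combination h22
          | linear_combination h23
          | linear_combination h24
          | linear_combination h31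
          | linear_combination h32
          | linear_combination h33
          | linear_combination h34
          | linear_combination h41
          | linear_combination h42
          | linear_combination h43
          | linear_combination h44
    have hX2 := mul_eq_one_comm.1 hX
    have e : Matrix.of ![vecCons f1 F1, vecCons f2 F2, vecCons f3 F3, vecCons f4 F4] *ᵥ
        vecCons ε π = 0 := by
      funext i
      change (![vecCons f1 F1, vecCons f2 F2, vecCons f3 F3, vecCons f4 F4] i) ⬝ᵥ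
        vecCons ε π = 0
      fin_cases i <;> simp
      · exact e1
      · exact e2
      · exact e3
      · exact e4
    have e5 : vecCons ε π = 0 := by
      rw [← one_mulVec (vecCons ε π), ← hX2, ← mulVec_mulVec, e, mulVec_zero]
    refine ⟨congrFun e5 0, ?_⟩
    funext i
    exact congrFun e5 i.succ

end Pool.Agent.Lib.D13.F432
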