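import Pool.Agent.Lib.D13.T432B

/-!
# MP_5dcbc3_ag: type `(4, 3, 2, 1^3)`: the raise at a special pencil
-/

namespace Pool.Agent.Lib.D13.F432

open Matrix Pool.Agent.Lib.Q5dc Pool.Agent.Lib.D7

variable {k : Type*} [Field k] {ρ : ℕ → ℕ}

/-- the matrix of the equations `X (mu w1 + eps u0 + π) = ...` -/
def GM (c c' : Par k 3) : Matrix (Fin 5) (Fin 5) k :=
  Matrix.of ![vecCons c.be1 (vecCons c.ga1 c.ph), vecCons c.m1 (vecCons c.de1 c.ch),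
    vecCons c'.m1 (vecCons c'.de1 c'.ch), vecCons c.d0 (vecCons c.n1 c.et),
    vecCons c'.d0 (vecCons c'.n1 c'.et)]

theorem GM_line (c c' D D' : Par k 3) (t : k) :
    GM (c + t • D) (c' + t • D') = GM c c' + t • GM D D' := by
  ext i j
  fin_cases i <;> fin_cases j <;> simp [GM]

theorem GM_vec (c c' : Par k 3) (μ ε : k) (π : Fin 3 → k) :
    GM c c' *ᵥ vecCons μ (vecCons ε π) = ![c.be1 * μ + (c.ga1 * ε + c.ph ⬝ᵥ π),
      c.m1 * μ + (c.de1 * ε + c.ch ⬝ᵥ π), c'.m1 * μ + (c'.de1 * ε + c'.ch ⬝ᵥ π),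
      c.d0 * μ + (c.n1 * ε + c.et ⬝ᵥ π), c'.d0 * μ + (c'.n1 * ε + c'.et ⬝ᵥ π)] := by
  funext i
  change (![vecCons c.be1 (vecCons c.ga1 c.ph), vecCons c.m1 (vecCons c.de1 c.ch),
    vecCons c'.m1 (vecCons c'.de1 c'.ch), vecCons c.d0 (vecCons c.n1 c.et),
    vecCons c'.d0 (vecCons c'.n1 c'.et)] i) ⬝ᵥ vecCons μ (vecCons ε π) = _
  fin_cases i <;> simp

/-- the raise -/
theorem special [IsAlgClosed k] [CharZero k] {c c' : Par k 3}
    (hT : MaxR ρ ![J k 3, B c, B c']) (h1 : (J k 3).rank = ρ 1) (hc : Zb c) (hc' : Zb c')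
    (g0 : c.ga0 = 0) (e0 : c.de0 = 0) (g0' : c'.ga0 = 0) (e0' : c'.de0 = 0)
    (hM : ∀ π, c.ph ⬝ᵥ π = 0 → c.ch ⬝ᵥ π = 0 → c.et ⬝ᵥ π = 0 → π = 0)
    {f1 f2 f3 f4 : k} {F1 F2 F3 F4 : Fin 3 → k}
    (p1 : c.c0 * f1 + F1 ⬝ᵥ c.q = 1 ∧ c.d0 * f1 + F1 ⬝ᵥ c.r = 0 ∧
      c'.c0 * f1 + F1 ⬝ᵥ c'.q = 0 ∧ c'.d0 * f1 + F1 ⬝ᵥ c'.r = 0)
    (p2 : c.c0 * f2 + F2 ⬝ᵥ c.q = 0 ∧ c.d0 * f2 + F2 ⬝ᵥ c.r = 1 ∧
      c'.c0 * f2 + F2 ⬝ᵥ c'.q = 0 ∧ c'.d0 * f2 + F2 ⬝ᵥ c'.r = 0)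
    (p3 : c.c0 * f3 + F3 ⬝ᵥ c.q = 0 ∧ c.d0 * f3 + F3 ⬝ᵥ c.r = 0 ∧
      c'.c0 * f3 + F3 ⬝ᵥ c'.q = 1 ∧ c'.d0 * f3 + F3 ⬝ᵥ c'.r = 0)
    (p4 : c.c0 * f4 + F4 ⬝ᵥ c.q = 0 ∧ c.d0 * f4 + F4 ⬝ᵥ c.r = 0 ∧
      c'.c0 * f4 + F4 ⬝ᵥ c'.q = 0 ∧ c'.d0 * f4 + F4 ⬝ᵥ c'.r = 1)
    (hdet : c.al1 * c.d0 - c.c0 * c.m1 ≠ 0)
    (hG : ∀ x, GM c c' *ᵥ x = 0 → x = 0) : False := by
  -- the kernel of `B c` on `k w1 + k u0 + P`
  obtain ⟨πm, m1, m2, m3⟩ := onto3 hM (-c.be1) (-c.m1) (-c.d0)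
  obtain ⟨πe, n1, n2, n3⟩ := onto3 hM (-c.ga1) (-c.de1) (-c.n1)
  obtain ⟨τ, μ, ε, hne, ev1, ev2⟩ := eig2 (c'.m1 + c'.ch ⬝ᵥ πm) (c'.de1 + c'.ch ⬝ᵥ πe)
    (c'.d0 + c'.et ⬝ᵥ πm) (c'.n1 + c'.et ⬝ᵥ πe)
  obtain ⟨π, hπ⟩ : ∃ π, π = μ • πm + ε • πe := ⟨_, rfl⟩
  have y1 : c.be1 * μ + (c.ga1 * ε + c.ph ⬝ᵥ π) = 0 := by
    rw [hπ, dotProduct_add, dotProduct_smul, dotProduct_smul, m1, n1]
    simp only [smul_eq_mul]
    ring
  have y2 : c.m1 * μ + (c.de1 * ε + c.ch ⬝ᵥ π) = 0 := by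
    rw [hπ, dotProduct_add, dotProduct_smul, dotProduct_smul, m2, n2]
    simp only [smul_eq_mul]
    ring
  have y3 : c.d0 * μ + (c.n1 * ε + c.et ⬝ᵥ π) = 0 := by
    rw [hπ, dotProduct_add, dotProduct_smul, dotProduct_smul, m3, n3]
    simp only [smul_eq_mul]
    ring
  have z1 : c'.m1 * μ + (c'.de1 * ε + c'.ch ⬝ᵥ π) = τ * μ := by
    rw [hπ, dotProduct_add, dotProduct_smul, dotProduct_smul]
    simp only [smul_eq_mul]
    linear_combination ev1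
  have z2 : c'.d0 * μ + (c'.n1 * ε + c'.et ⬝ᵥ π) = τ * ε := by
    rw [hπ, dotProduct_add, dotProduct_smul, dotProduct_smul]
    simp only [smul_eq_mul]
    linear_combination ev2
  have hτ : τ ≠ 0 := by
    rintro rfl
    rw [zero_mul] at z1 z2
    have h := hG (vecCons μ (vecCons ε π)) (by
      rw [GM_vec, y1, y2, y3, z1, z2]
      funext i
      fin_cases i <;> rfl)
    have h2 : μ = 0 := congrFun h 0
    have h3 : ε = 0 := congrFun h 1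
    rcases hne with h | h
    · exact h h2
    · exact h h3
  -- the vector `m`
  set w := c'.be1 * μ + (c'.ga1 * ε + c'.ph ⬝ᵥ π) with hw
  have hεπ : ε ≠ 0 ∨ π ≠ 0 := by
    by_contra hno
    push Not at hno
    rw [hno.1, hno.2] at y2 y3
    have hμ : μ ≠ 0 := by
      rcases hne with h | h
      · exact h
      · exact absurd hno.1 h
    simp [hμ] at y2 y3
    apply hdet
    rw [y2, y3]
    ring
  have hT2 : MaxR ρ ![J k 3, B c, B c' - τ • J k 3] := by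
    have hm : B c' - τ • J k 3 ∈ adj ![J k 3, B c, B c'] :=
      sub_mem (D8.mem2 _ _ _) (SMulMemClass.smul_mem _ (D8.mem0 _ _ _))
    refine D8.MaxR.change3 hT (D8.mem1 _ _ _) hm (D8.mem1 _ _ _) ?_
    have h2 := add_mem (D8.mem2 (J k 3) (B c) (B c' - τ • J k 3))
      (SMulMemClass.smul_mem τ (D8.mem0 (J k 3) (B c) (B c' - τ • J k 3)))
    rwa [sub_add_cancel] at h2
  have hBm : B c *ᵥ V ![0, 0, w / τ, 0, 0, μ, 0, ε, 0] π = 0 := by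
    rw [B_V, ← V_zero]
    congr 1
    · funext i
      fin_cases i <;> simp [hc.al0, hc.be0, g0, e0]
      · linear_combination y1
      · linear_combination y2
      · linear_combination y3
    · simp [hc.s]
  have hCm : (B c' - τ • J k 3) *ᵥ V ![0, 0, w / τ, 0, 0, μ, 0, ε, 0] π = 0 := by
    rw [sub_mulVec, smul_mulVec, B_V, J_V, V_smul, V_sub, ← V_zero]
    congr 1
    · funext i
      fin_cases i <;> simp [hc'.al0, hc'.be0, g0', e0']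
      · field_simp
        rw [hw]
        ring
      · linear_combination z1
      · linear_combination z2
    · simp [hc'.s]
  -- the functional
  obtain ⟨x1, x5, hx, hx0⟩ : ∃ x1 x5 : k, (x1 ≠ 0 ∨ x5 ≠ 0) ∧
      x5 * (μ - c.al1 * (f1 * ε + F1 ⬝ᵥ π) - c.m1 * (f2 * ε + F2 ⬝ᵥ π) -
        c'.al1 * (f3 * ε + F3 ⬝ᵥ π) - (c'.m1 - τ) * (f4 * ε + F4 ⬝ᵥ π)) +
        x1 * (τ * (f3 * ε + F3 ⬝ᵥ π)) = 0 := by
    set A := μ - c.al1 * (f1 * ε + F1 ⬝ᵥ π) - c.m1 * (f2 * ε + F2 ⬝ᵥ π) -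
        c'.al1 * (f3 * ε + F3 ⬝ᵥ π) - (c'.m1 - τ) * (f4 * ε + F4 ⬝ᵥ π)
    set A' := τ * (f3 * ε + F3 ⬝ᵥ π)
    by_cases hA : A = 0
    · by_cases hA' : A' = 0
      · exact ⟨1, 0, Or.inl one_ne_zero, by rw [hA']; ring⟩
      · exact ⟨-A, A', Or.inr hA', by ring⟩
    · exact ⟨-A, A', Or.inl (neg_ne_zero.2 hA), by ring⟩
  obtain ⟨z, hz⟩ : ∃ z, z = -(c.al1 * x5) * f1 - c.m1 * x5 * f2 - (c'.al1 * x5 - τ * x1) * f3 -
      (c'.m1 - τ) * x5 * f4 := ⟨_, rfl⟩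
  obtain ⟨ζ, hζ⟩ : ∃ ζ : Fin 3 → k, ζ = (-(c.al1 * x5)) • F1 - (c.m1 * x5) • F2 -
      (c'.al1 * x5 - τ * x1) • F3 - ((c'.m1 - τ) * x5) • F4 := ⟨_, rfl⟩
  obtain ⟨p11, p12, p13, p14⟩ := p1
  obtain ⟨p21, p22, p23, p24⟩ := p2
  obtain ⟨p31, p32, p33, p34⟩ := p3
  obtain ⟨p41, p42, p43, p44⟩ := p4
  have t1 : c.al1 * x5 + c.c0 * z + ζ ⬝ᵥ c.q = 0 := by
    rw [hζ, hz]
    simp only [sub_dotProduct, smul_dotProduct, smul_eq_mul]
    linear_combination (-(c.al1 * x5)) * p11 - c.m1 * x5 * p21 - (c'.al1 * x5 - τ * x1) * p31 -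
      (c'.m1 - τ) * x5 * p41
  have t2 : c.m1 * x5 + c.d0 * z + ζ ⬝ᵥ c.r = 0 := by
    rw [hζ, hz]
    simp only [sub_dotProduct, smul_dotProduct, smul_eq_mul]
    linear_combination (-(c.al1 * x5)) * p12 - c.m1 * x5 * p22 - (c'.al1 * x5 - τ * x1) * p32 -
      (c'.m1 - τ) * x5 * p42
  have t3 : c'.al1 * x5 + c'.c0 * z + ζ ⬝ᵥ c'.q - τ * x1 = 0 := by
    rw [hζ, hz]
    simp only [sub_dotProduct, smul_dotProduct, smul_eq_mul]
    linear_combination (-(c.al1 * x5)) * p13 - c.m1 * x5 * p23 - (c'.al1 * x5 - τ * x1) * p33 -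
      (c'.m1 - τ) * x5 * p43
  have t4 : c'.m1 * x5 + c'.d0 * z + ζ ⬝ᵥ c'.r - τ * x5 = 0 := by
    rw [hζ, hz]
    simp only [sub_dotProduct, smul_dotProduct, smul_eq_mul]
    linear_combination (-(c.al1 * x5)) * p14 - c.m1 * x5 * p24 - (c'.al1 * x5 - τ * x1) * p34 -
      (c'.m1 - τ) * x5 * p44
  have t5 : x5 * μ + z * ε + ζ ⬝ᵥ π = 0 := by
    rw [hζ, hz]
    simp only [sub_dotProduct, smul_dotProduct, smul_eq_mul]
    linear_combination hx0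
  have hζ0 : ζ ≠ 0 := by
    intro h
    rw [h] at t1 t2 t3
    simp only [zero_dotProduct, add_zero] at t1 t2 t3
    have h5 : x5 = 0 := by
      have : (c.al1 * c.d0 - c.c0 * c.m1) * x5 = 0 := by linear_combination c.d0 * t1 - c.c0 * t2
      exact (mul_eq_zero.1 this).resolve_left hdet
    have hz0 : z = 0 := by
      have : (c.al1 * c.d0 - c.c0 * c.m1) * z = 0 := by linear_combination c.al1 * t2 - c.m1 * t1
      exact (mul_eq_zero.1 this).resolve_left hdet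
    rw [h5, hz0] at t3
    have h6 : x1 = 0 := by
      have : τ * x1 = 0 := by linear_combination -t3
      exact (mul_eq_zero.1 this).resolve_left hτ
    rcases hx with h | h
    · exact h h6
    · exact h h5
  obtain ⟨j, hj⟩ := Function.ne_iff.1 hζ0
  refine axis_rank hT2 (X := J k 3) (Y := B c) (Z := B c' - τ • J k 3) hT2.cn
    (fun i => mem_adj _ i) (g := V ![0, 0, w / τ, 0, 0, μ, 0, ε, 0] π)
    (φ := V ![0, x1, 0, 0, 0, x5, 0, z, 0] ζ) hBm hCm ?_ ?_ ?_ h1 (u := V 0 (Pi.single j 1))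
    (ker_P _) ?_ ?_
  · rw [V_B, ← V_zero]
    congr 1
    · funext i
      fin_cases i <;> simp [hc.al0, hc.be0, g0, e0, hc.s]
      · linear_combination t1
      · linear_combination t2
    · simp
  · rw [vecMul_sub, vecMul_smul, V_B, V_J, V_smul, V_sub, ← V_zero]
    congr 1
    · funext i
      fin_cases i <;> simp [hc'.al0, hc'.be0, g0', e0', hc'.s]
      · linear_combination t3
      · linear_combination t4
    · simp
  · intro i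
    rcases i with _ | _ | i
    · rw [pow_zero, one_mulVec, V_dot]
      simp [dotProduct, Fin.sum_univ_succ]
      simpa [dotProduct, Fin.sum_univ_succ, add_assoc] using t5
    · rw [zero_add, pow_one, J_V, V_dot]
      simp [dotProduct, Fin.sum_univ_succ]
    · have e : J k 3 *ᵥ (J k 3 *ᵥ V ![0, 0, w / τ, 0, 0, μ, 0, ε, 0] π) = 0 := by
        rw [J_V, J_V, ← V_zero]
        congr 1
        funext i
        fin_cases i <;> simp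
      rw [pow_succ, pow_succ, ← mulVec_mulVec, ← mulVec_mulVec, e, mulVec_zero, dotProduct_zero]
  · rw [V_dot]
    simpa using hj
  · intro x hx
    rw [V_eta x, J_V] at hx
    obtain ⟨r1, r2⟩ := V_inj hx
    have r3 := congrFun r1 7
    simp at r3
    rcases hεπ with h | h
    · exact h r3.symm
    · exact h r2.symm

end Pool.Agent.Lib.D13.F432
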