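import Pool.Agent.Lib.D13.T432C

/-!
# MP_5dcbc3_ag: type `(4, 3, 2, 1^3)`: the case `al0 = be0 = 0`, `s = 0`, `(c0, d0) ≠ 0`
-/

namespace Pool.Agent.Lib.D13.F432

open Matrix Pool.Agent.Lib.Q5dc Pool.Agent.Lib.D7

variable {k : Type*} [Field k] {ρ : ℕ → ℕ}

theorem rank_of_inj {n : ℕ} {A : Matrix (Fin n) (Fin n) k} (h : ∀ x, A *ᵥ x = 0 → x = 0) :
    A.rank = n := by
  have h1 : LinearMap.ker A.mulVecLin = ⊥ := LinearMap.ker_eq_bot'.2 h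
  have h2 := LinearMap.finrank_range_add_finrank_ker A.mulVecLin
  rw [h1, finrank_bot, add_zero] at h2
  rw [Matrix.rank, h2]
  simp

theorem inj_of_rank {n : ℕ} {A : Matrix (Fin n) (Fin n) k} (h : n ≤ A.rank) :
    ∀ x, A *ᵥ x = 0 → x = 0 := by
  have h2 := LinearMap.finrank_range_add_finrank_ker A.mulVecLin
  have h3 : Module.finrank k (Fin n → k) = n := by simp
  rw [h3] at h2
  unfold Matrix.rank at h
  have h4 : Module.finrank k (LinearMap.ker A.mulVecLin) = 0 := by omega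
  have h5 : LinearMap.ker A.mulVecLin = ⊥ := Submodule.finrank_eq_zero.1 h4
  exact LinearMap.ker_eq_bot'.1 h5

/-- the direction of the deformation, first matrix -/
def D1 (x1 x2 f1 f2 : k) (F1 F2 : Fin 3 → k) : Par k 3 :=
  { (zp : Par k 3) with al1 := x1, m1 := x2, be1 := 1, de1 := f1, ch := F1, n1 := f2, et := F2 }

/-- the direction of the deformation, second matrix -/
def D2 (A1 A2 C1 X1 X2 f1 f2 f3 f4 : k) (F1 F2 F3 F4 : Fin 3 → k) : Par k 3 :=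
  { (zp : Par k 3) with ga1 := A1 * f1 + A2 * f2, ph := A1 • F1 + A2 • F2, de1 := C1 * f1 + f3,
                        ch := C1 • F1 + F3, n1 := f4 - X1 * f1 - X2 * f2,
                        et := F4 - X1 • F1 - X2 • F2 }

theorem D_rel {c c' : Par k 3} (hR : Rel c c') (hc : Zb c) (hc' : Zb c')
    (g0 : c.ga0 = 0) (e0 : c.de0 = 0) (g0' : c'.ga0 = 0) (e0' : c'.de0 = 0)
    {f1 f2 f3 f4 : k} {F1 F2 F3 F4 : Fin 3 → k}
    (p1 : c.c0 * f1 + F1 ⬝ᵥ c.q = 1 ∧ c.d0 * f1 + F1 ⬝ᵥ c.r = 0 ∧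
      c'.c0 * f1 + F1 ⬝ᵥ c'.q = 0 ∧ c'.d0 * f1 + F1 ⬝ᵥ c'.r = 0)
    (p2 : c.c0 * f2 + F2 ⬝ᵥ c.q = 0 ∧ c.d0 * f2 + F2 ⬝ᵥ c.r = 1 ∧
      c'.c0 * f2 + F2 ⬝ᵥ c'.q = 0 ∧ c'.d0 * f2 + F2 ⬝ᵥ c'.r = 0)
    (p3 : c.c0 * f3 + F3 ⬝ᵥ c.q = 0 ∧ c.d0 * f3 + F3 ⬝ᵥ c.r = 0 ∧
      c'.c0 * f3 + F3 ⬝ᵥ c'.q = 1 ∧ c'.d0 * f3 + F3 ⬝ᵥ c'.r = 0)
    (p4 : c.c0 * f4 + F4 ⬝ᵥ c.q = 0 ∧ c.d0 * f4 + F4 ⬝ᵥ c.r = 0 ∧
      c'.c0 * f4 + F4 ⬝ᵥ c'.q = 0 ∧ c'.d0 * f4 + F4 ⬝ᵥ c'.r = 1) (x1 x2 t : k) :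
    Rel (c + t • D1 x1 x2 f1 f2 F1 F2)
      (c' + t • D2 (c'.al1 - x1 * c'.be1) (c'.m1 - x2 * c'.be1) (c'.al1 * x2 - x1 * c'.m1)
        (x1 * c'.d0) (x2 * c'.d0) f1 f2 f3 f4 F1 F2 F3 F4) := by
  obtain ⟨p11, p12, p13, p14⟩ := p1
  obtain ⟨p21, p22, p23, p24⟩ := p2
  obtain ⟨p31, p32, p33, p34⟩ := p3
  obtain ⟨p41, p42, p43, p44⟩ := p4
  have k3 := hR.e3
  have k5 := hR.e5
  have k7 := hR.e7
  have l3 := hR.w3
  have l5 := hR.w5
  have l6 := hR.w6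
  simp only [hc.al0, hc.be0, hc'.al0, hc'.be0, g0, e0, g0', e0', zero_mul, mul_zero, add_zero,
    zero_add] at k3 k5 k7 l3 l5 l6
  refine ⟨?_, ?_, ?_, ?_, ?_, ?_, ?_, ?_, ?_, ?_, ?_, ?_, ?_, ?_, ?_, ?_, ?_, ?_, ?_, ?_⟩
  · simp [D1, D2, zp, hc.al0, hc.be0, hc'.al0, hc'.be0]
  · simp [D1, D2, zp, hc.al0, hc.be0, hc'.al0, hc'.be0, g0, g0']
  · simp [D1, D2, zp, hc.al0, hc.be0, hc'.al0, hc'.be0, g0, g0', add_dotProduct]
    linear_combination k3 - t * (c'.al1 - x1 * c'.be1) * p11 - t * (c'.m1 - x2 * c'.be1) * p21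
  · simp [D1, D2, zp, hc.al0, hc'.al0, e0, e0']
  · simp [D1, D2, zp, hc.al0, hc'.al0, e0, e0', add_dotProduct]
    linear_combination k5 + t * p13 - t * (c'.al1 * x2 - x1 * c'.m1) * p11 - t * p31
  · simp [D1, D2, zp, hc.al0, hc'.al0]
  · simp [D1, D2, zp, hc.al0, hc'.al0, add_dotProduct, sub_dotProduct]
    linear_combination k7 + t * p23 - t * p41 + t * (x1 * c'.d0) * p11 + t * (x2 * c'.d0) * p21
  · simp [D1, D2, zp, hc.al0, hc'.al0, hc.s, hc'.s]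
  · simp [D1, D2, zp, hc.be0, hc'.be0, g0, g0']
  · simp [D1, D2, zp, hc.be0, hc'.be0, g0, g0', add_dotProduct]
    linear_combination l3 - t * (c'.al1 - x1 * c'.be1) * p12 - t * (c'.m1 - x2 * c'.be1) * p22
  · simp [D1, D2, zp, hc.al0, hc.be0, hc'.al0, hc'.be0, e0, e0']
  · simp [D1, D2, zp, hc.al0, hc.be0, hc'.al0, hc'.be0, e0, e0', add_dotProduct]
    linear_combination l5 + t * p14 - t * (c'.al1 * x2 - x1 * c'.m1) * p12 - t * p32
  · simp [D1, D2, zp, hc.be0, hc'.be0, add_dotProduct, sub_dotProduct]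
    linear_combination l6 + t * p24 - t * p42 + t * (x1 * c'.d0) * p12 + t * (x2 * c'.d0) * p22
  · simp [D1, D2, zp, hc.s, hc'.s]
  · simp [D1, D2, zp, hc.be0, hc'.be0]
  · simp [D1, D2, zp, hc.be0, hc'.be0, g0, g0', e0, e0', hc.s, hc'.s]
  · simp [D1, D2, zp, hc.al0, hc'.al0, g0, g0', e0, e0', hc.s, hc'.s]
  · simp [D1, D2, zp, e0, e0', hc.s, hc'.s]
  · simp [D1, D2, zp, hc.be0, hc'.be0, g0, g0']
  · simp [D1, D2, zp, e0, e0']

/-- the case `(c0, d0) ≠ 0` -/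
theorem b1 [IsAlgClosed k] [CharZero k] {c c' : Par k 3} (hT : MaxR ρ ![J k 3, B c, B c'])
    (h1 : (J k 3).rank = ρ 1) (hc : Zb c) (hc' : Zb c') (h0 : c.c0 ≠ 0 ∨ c.d0 ≠ 0) : False := by
  obtain ⟨g0, e0, g0', e0', hM⟩ := b1a hT h1 hc hc' h0
  rcases dual4 c.c0 c.d0 c'.c0 c'.d0 c.q c.r c'.q c'.r with
    ⟨z, ψ, hne, q1, q2, q3, q4⟩ | ⟨f1, f2, f3, f4, F1, F2, F3, F4, p1, p2, p3, p4, hnd⟩
  · refine MaxR.psx hT h1 hc.be0 hc'.be0 hc'.al0 g0 g0' e0 e0' hc.s hc'.s hM (z := z) (ψ := ψ)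
      ?_ q1 q2 q3 q4
    rintro rfl
    have hz : z ≠ 0 := by
      rcases hne with h | h
      · exact h
      · exact absurd rfl h
    simp [hz] at q1 q2
    rcases h0 with h | h
    · exact h q1
    · exact h q2
  · obtain ⟨x1, x2, hx⟩ : ∃ x1 x2 : k, x1 * c.d0 - c.c0 * x2 = 1 := by
      rcases h0 with h | h
      · exact ⟨0, -(c.c0)⁻¹, by field_simp; ring⟩
      · exact ⟨(c.d0)⁻¹, 0, by field_simp; ring⟩
    obtain ⟨E, hE, hm⟩ := MaxR.move hT _ _ (D_rel (MaxR.rel hT) hc hc' g0 e0 g0' e0' p1 p2 p3 p4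
      x1 x2)
    set D := D1 x1 x2 f1 f2 F1 F2 with hD
    set D' := D2 (c'.al1 - x1 * c'.be1) (c'.m1 - x2 * c'.be1) (c'.al1 * x2 - x1 * c'.m1)
        (x1 * c'.d0) (x2 * c'.d0) f1 f2 f3 f4 F1 F2 F3 F4 with hD'
    have hinj : ∀ x, GM D D' *ᵥ x = 0 → x = 0 := by
      intro x hx0
      have ex : x = vecCons (x 0) (vecCons (x 1) (fun i => x (i.succ.succ))) := by
        funext i
        fin_cases i <;> rfl
      generalize x 0 = μ at ex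
      generalize x 1 = ε at ex
      generalize (fun i : Fin 3 => x (i.succ.succ)) = π at ex
      rw [ex, GM_vec] at hx0
      have r0 := congrFun hx0 0
      have r1 := congrFun hx0 1
      have r2 := congrFun hx0 2
      have r3 := congrFun hx0 3
      have r4 := congrFun hx0 4
      simp [hD, hD', D1, D2, zp, add_dotProduct, sub_dotProduct] at r0 r1 r2 r3 r4
      rw [r0] at r1
      have s1 : f1 * ε + F1 ⬝ᵥ π = 0 := by linear_combination r1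
      have s2 : f2 * ε + F2 ⬝ᵥ π = 0 := by linear_combination r3
      have s3 : f3 * ε + F3 ⬝ᵥ π = 0 := by
        linear_combination r2 - (c'.al1 * x2 - x1 * c'.m1) * s1
      have s4 : f4 * ε + F4 ⬝ᵥ π = 0 := by
        linear_combination r4 + x1 * c'.d0 * s1 + x2 * c'.d0 * s2
      obtain ⟨u1, u2⟩ := hnd ε π s1 s2 s3 s4
      rw [ex, r0, u1, u2]
      simp
    have hrk := rank_of_inj hinj
    have hfin := CommAux.rank_line_inf (GM c c') (GM D D') 1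
    obtain ⟨t, ht⟩ := ((hE.union hfin).union
      (Set.finite_singleton (-(c.al1 * c.d0 - c.c0 * c.m1)))).exists_notMem
    simp only [Set.mem_union, not_or, Set.mem_ofPred_eq, not_lt, Set.mem_singleton_iff,
      pow_one] at ht
    obtain ⟨⟨ht1, ht2⟩, ht3⟩ := ht
    have hT2 := hm t ht1
    have hz : Zb (c + t • D) := hc.add (Zb.smul t ⟨rfl, rfl, rfl⟩)
    have hz' : Zb (c' + t • D') := hc'.add (Zb.smul t ⟨rfl, rfl, rfl⟩)
    have w1 : (c + t • D).c0 = c.c0 := by simp [hD, D1, zp]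
    have w2 : (c + t • D).d0 = c.d0 := by simp [hD, D1, zp]
    have w3 : (c + t • D).q = c.q := by simp [hD, D1, zp]
    have w4 : (c + t • D).r = c.r := by simp [hD, D1, zp]
    have w1' : (c' + t • D').c0 = c'.c0 := by simp [hD', D2, zp]
    have w2' : (c' + t • D').d0 = c'.d0 := by simp [hD', D2, zp]
    have w3' : (c' + t • D').q = c'.q := by simp [hD', D2, zp]
    have w4' : (c' + t • D').r = c'.r := by simp [hD', D2, zp]
    obtain ⟨a1, a2, a3, a4, hM2⟩ := b1a hT2 h1 hz hz' (by rw [w1, w2]; exact h0)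
    refine special hT2 h1 hz hz' a1 a2 a3 a4 hM2 (f1 := f1) (f2 := f2) (f3 := f3) (f4 := f4)
      (F1 := F1) (F2 := F2) (F3 := F3) (F4 := F4) ?_ ?_ ?_ ?_ ?_ ?_
    · rw [w1, w2, w3, w4, w1', w2', w3', w4']; exact p1
    · rw [w1, w2, w3, w4, w1', w2', w3', w4']; exact p2
    · rw [w1, w2, w3, w4, w1', w2', w3', w4']; exact p3
    · rw [w1, w2, w3, w4, w1', w2', w3', w4']; exact p4
    · rw [w1, w2]
      intro h
      apply ht3
      simp [hD, D1, zp] at h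
      linear_combination h - t * hx
    · refine inj_of_rank ?_
      rw [GM_line]
      rw [hrk] at ht2
      exact ht2

end Pool.Agent.Lib.D13.F432
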