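import Pool.Agent.Lib.D13.T432D

/-!
# MP_5dcbc3_ag: type `(4, 3, 2, 1^3)`: conclusion
-/

namespace Pool.Agent.Lib.D13.F432

open Matrix Pool.Agent.Lib.Q5dc Pool.Agent.Lib.D7

variable {k : Type*} [Field k] {p : ℕ} {ρ : ℕ → ℕ}

/-- the second matrix may be moved by matrices commuting with the first one -/
theorem MaxR.moveK [Infinite k] {c c' K : Par k p} (hT : MaxR ρ ![J k p, B c, B c'])
    (hK : Rel c K) :
    ∃ E : Set k, E.Finite ∧ ∀ t ∉ E, MaxR ρ ![J k p, B c, B (c' + t • K)] := by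
  have hfam : ∀ t : k, ![J k p, B c, B c'] + t • ![0, 0, B K] =
      ![J k p, B c, B (c' + t • K)] := by
    intro t
    rw [D8.line3_eq, B_add, B_smul]
    simp
  obtain ⟨E, hE, h1⟩ := hT.deform (fun t => ![J k p, B c, B c'] + t • ![0, 0, B K])
    (PolyFam.line _ _) (by simp) Set.finite_empty (fun t _ => by
      rw [hfam]
      refine cn_of_rel (rel_of_comm ?_)
      rw [B_add, B_smul, mul_add, add_mul, mul_smul_comm, smul_mul_assoc, comm_of_rel hK,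
        comm_of_rel (MaxR.rel hT)])
  exact ⟨E, hE, fun t ht => by
    have h2 := h1 t ht
    rwa [hfam] at h2⟩

theorem Zb.dual {c : Par k p} (h : Zb c) (he : c.et = 0) : Zb (dual c) :=
  ⟨h.be0, h.al0, he⟩

/-- `c0 = d0 = 0`, `(ga0, de0) ≠ 0` -/
theorem b02 [IsAlgClosed k] [CharZero k] {c c' : Par k 3} (hT : MaxR ρ ![J k 3, B c, B c'])
    (h1 : (J k 3).rank = ρ 1) (hc : Zb c) (hc' : Zb c') (c0 : c.c0 = 0) (d0 : c.d0 = 0)
    (h0 : c.ga0 ≠ 0 ∨ c.de0 ≠ 0) : False := by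
  by_cases het : c.et = 0 ∧ c'.et = 0
  · exact b1 (MaxR.dual hT) h1 (hc.dual het.1) (hc'.dual het.2) h0
  · obtain ⟨ε, π, hne, k1, k2, k3⟩ := ker3 c.ga0 c.de0 0 c.ph c.ch c.et
    rw [zero_mul, zero_add] at k3
    have hπ : π ≠ 0 := by
      rintro rfl
      have hε : ε ≠ 0 := by
        rcases hne with h | h
        · exact h
        · exact absurd rfl h
      simp [hε] at k1 k2
      rcases h0 with h | h
      · exact h k1
      · exact h k2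
    have hI : ∀ ζ, c.q ⬝ᵥ ζ = 0 → c.r ⬝ᵥ ζ = 0 → π ⬝ᵥ ζ = 0 → ζ = 0 := by
      intro ζ z1 z2 z3
      by_contra hζ
      rw [dotProduct_comm] at z1 z2 z3
      exact hπ (MaxR.klc hT h1 k1 k2 k3 (z7 := 0) (by simpa using z1) (by simpa using z2)
        (by simp [hc.s]) z3 hζ)
    obtain ⟨σ, ν, b, μ, hσ, s1, s2, s3⟩ : ∃ (σ : Fin 3 → k) (ν b μ : k), σ ≠ 0 ∧
        c.et ⬝ᵥ σ = 0 ∧ ν * c.ga0 + c.ph ⬝ᵥ σ = c.de0 * b ∧ ν * c.de0 + c.ch ⬝ᵥ σ = c.de0 * μ := by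
      by_cases hd : c.de0 = 0
      · have hg : c.ga0 ≠ 0 := h0.resolve_right (not_not.2 hd)
        obtain ⟨σ, hσ, t1, t2⟩ := ker2 c.et c.ch
        exact ⟨σ, -(c.ph ⬝ᵥ σ) / c.ga0, 0, 0, hσ, t1, by field_simp; ring, by rw [hd, t2]; ring⟩
      · obtain ⟨σ, hσ, t1, t2⟩ := ker2 c.et c.et
        exact ⟨σ, 0, (c.ph ⬝ᵥ σ) / c.de0, (c.ch ⬝ᵥ σ) / c.de0, hσ, t1, by field_simp; ring,
          by field_simp; ring⟩
    obtain ⟨φ, a1, a2, -⟩ := onto3 hI (-(c.al1 * b)) (μ * c.be1 - c.m1 * b) 0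
    obtain ⟨χ, b1, b2, -⟩ := onto3 hI (-(c.al1 * μ)) 0 0
    rw [dotProduct_comm] at a1 a2 b1 b2
    obtain ⟨K, hK⟩ : ∃ K : Par k 3, K =
        { (zp : Par k 3) with s := σ, n1 := ν, be1 := b, m1 := μ, ph := φ, ch := χ } := ⟨_, rfl⟩
    have hRK : Rel c K := by
      refine ⟨?_, ?_, ?_, ?_, ?_, ?_, ?_, ?_, ?_, ?_, ?_, ?_, ?_, ?_, ?_, ?_, ?_, ?_, ?_, ?_⟩
      · simp [hK, zp, hc.al0]
      · simp [hK, zp, hc.al0]
      · simp [hK, zp, hc.al0]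
        linear_combination -a1
      · simp [hK, zp, hc.al0]
      · simp [hK, zp, hc.al0]
        linear_combination -b1
      · simp [hK, zp, hc.al0]
      · simp [hK, zp, hc.al0, c0]
      · simp [hK, zp, hc.al0, c0]
      · simp [hK, zp, hc.be0]
      · simp [hK, zp, hc.be0]
        linear_combination -a2
      · simp [hK, zp]
      · simp [hK, zp, hc.al0]
        linear_combination -b2
      · simp [hK, zp, hc.be0, d0]
      · simp [hK, zp, d0]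
      · simp [hK, zp]
      · simp [hK, zp, hc.s]
        linear_combination s2
      · simp [hK, zp, hc.s]
        linear_combination s3
      · simp [hK, zp, s1]
      · simp [hK, zp, hc.be0]
      · simp [hK, zp]
    obtain ⟨E, hE, hm⟩ := MaxR.moveK hT hRK
    obtain ⟨t, ht⟩ := (hE.union (Set.finite_singleton 0)).exists_notMem
    simp only [Set.mem_union, not_or, Set.mem_singleton_iff] at ht
    rcases MaxR.rc3 (hm t ht.1) h1 with h | h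
    · have h2 := h.2
      simp [hK, zp, hc'.s] at h2
      rcases h2 with h2 | h2
      · exact ht.2 h2
      · exact hσ h2
    · refine het ⟨h.1, ?_⟩
      have h2 := h.2
      simpa [hK, zp] using h2

/-- `c0 = d0 = ga0 = de0 = 0`: the first matrix is injective on `P` -/
theorem b01_inj [IsAlgClosed k] [CharZero k] {c c' : Par k 3}
    (hT : MaxR ρ ![J k 3, B c, B c']) (h1 : (J k 3).rank = ρ 1) (hc : Zb c) (hc' : Zb c')
    (c0 : c.c0 = 0) (d0 : c.d0 = 0) (g0 : c.ga0 = 0) (e0 : c.de0 = 0) (c0' : c'.c0 = 0)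
    {π : Fin 3 → k} (k1 : c.ph ⬝ᵥ π = 0) (k2 : c.ch ⬝ᵥ π = 0) (k3 : c.et ⬝ᵥ π = 0) : π = 0 := by
  by_cases hl : ∃ l : Fin 3 → k, l ⬝ᵥ c.r = 0 ∧ l ⬝ᵥ c.q = 1
  · exfalso
    obtain ⟨l, l1, l2⟩ := hl
    obtain ⟨K, hK⟩ : ∃ K : Par k 3, K =
        { (zp : Par k 3) with c0 := 1, ph := c.ga1 • l, ch := c.de1 • l, et := c.n1 • l } :=
      ⟨_, rfl⟩
    have hRK : Rel c K := by
      refine ⟨?_, ?_, ?_, ?_, ?_, ?_, ?_, ?_, ?_, ?_, ?_, ?_, ?_, ?_, ?_, ?_, ?_, ?_, ?_, ?_⟩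
      · simp [hK, zp]
      · simp [hK, zp, g0]
      · simp [hK, zp, l2]
      · simp [hK, zp, e0]
      · simp [hK, zp, l2]
      · simp [hK, zp]
      · simp [hK, zp, l2]
      · simp [hK, zp, hc.s]
      · simp [hK, zp]
      · simp [hK, zp, l1]
      · simp [hK, zp]
      · simp [hK, zp, l1]
      · simp [hK, zp, hc.be0, l1]
      · simp [hK, zp]
      · simp [hK, zp]
      · simp [hK, zp, hc.s]
      · simp [hK, zp, hc.s]
      · simp [hK, zp, hc.s]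
      · simp [hK, zp, hc.be0, g0]
      · simp [hK, zp, e0]
    obtain ⟨E, hE, hm⟩ := MaxR.moveK hT hRK
    obtain ⟨t, ht⟩ := (hE.union (Set.finite_singleton 0)).exists_notMem
    simp only [Set.mem_union, not_or, Set.mem_singleton_iff] at ht
    refine b1 (MaxR.swap' (hm t ht.1)) h1 (hc'.add (Zb.smul t ?_)) hc (Or.inl ?_)
    · rw [hK]
      exact ⟨rfl, rfl, rfl⟩
    · simp [hK, c0', ht.2]
  · by_contra hπ
    obtain ⟨ζ, hζ, z1, z2⟩ := ker2 c.r π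
    rw [dotProduct_comm] at z1 z2
    have z3 : ζ ⬝ᵥ c.q = 0 := by
      by_contra hne
      refine hl ⟨(ζ ⬝ᵥ c.q)⁻¹ • ζ, ?_, ?_⟩
      · rw [smul_dotProduct, z1, smul_zero]
      · rw [smul_dotProduct, smul_eq_mul, inv_mul_cancel₀ hne]
    exact hπ (MaxR.klc hT h1 (ε := 0) (by rw [k1]; simp) (by rw [k2]; simp) k3 (z7 := 0)
      (by simpa using z3) (by simpa using z1) (by simp [hc.s]) z2 hζ)

/-- `c0 = d0 = 0` -/
theorem b0 [IsAlgClosed k] [CharZero k] {c c' : Par k 3}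
    (hT : MaxR ρ ![J k 3, B c, B c']) (h1 : (J k 3).rank = ρ 1) (hc : Zb c) (hc' : Zb c')
    (c0 : c.c0 = 0) (d0 : c.d0 = 0) (c0' : c'.c0 = 0) (d0' : c'.d0 = 0) : False := by
  by_cases hg : c.ga0 ≠ 0 ∨ c.de0 ≠ 0
  · exact b02 hT h1 hc hc' c0 d0 hg
  by_cases hg' : c'.ga0 ≠ 0 ∨ c'.de0 ≠ 0
  · exact b02 (MaxR.swap' hT) h1 hc' hc c0' d0' hg'
  push Not at hg hg'
  obtain ⟨x, y, π, hxy, hπ, k1, k2, k3⟩ := pencil3 c.ph c.ch c.et c'.ph c'.ch c'.et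
  rcases hxy with hx | hy
  · refine hπ (b01_inj (MaxR.lin hT x y 0 1 (by simpa using hx)) h1
      ((hc.smul x).add (hc'.smul y)) ((hc.smul 0).add (hc'.smul 1)) ?_ ?_ ?_ ?_ ?_ k1 k2 k3)
    · simp [c0, c0']
    · simp [d0, d0']
    · simp [hg.1, hg'.1]
    · simp [hg.2, hg'.2]
    · simp [c0, c0']
  · refine hπ (b01_inj (MaxR.lin hT x y 1 0 (by simpa using hy)) h1
      ((hc.smul x).add (hc'.smul y)) ((hc.smul 1).add (hc'.smul 0)) ?_ ?_ ?_ ?_ ?_ k1 k2 k3)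
    · simp [c0, c0']
    · simp [d0, d0']
    · simp [hg.1, hg'.1]
    · simp [hg.2, hg'.2]
    · simp [c0, c0']

/-- `al0 = be0 = 0`, `s = 0` -/
theorem bs [IsAlgClosed k] [CharZero k] {c c' : Par k 3}
    (hT : MaxR ρ ![J k 3, B c, B c']) (h1 : (J k 3).rank = ρ 1) (hc : Zb c) (hc' : Zb c') :
    False := by
  by_cases h : c.c0 ≠ 0 ∨ c.d0 ≠ 0
  · exact b1 hT h1 hc hc' h
  by_cases h' : c'.c0 ≠ 0 ∨ c'.d0 ≠ 0
  · exact b1 (MaxR.swap' hT) h1 hc' hc h'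
  push Not at h h'
  exact b0 hT h1 hc hc' h.1 h.2 h'.1 h'.2

theorem J_four : J k p ^ 4 = 0 := by
  refine ext_V fun x π => ?_
  rw [pow_succ, pow_succ, pow_succ, pow_succ, pow_zero, one_mul, ← mulVec_mulVec,
    ← mulVec_mulVec, ← mulVec_mulVec, J_V, J_V, J_V, J_V, zero_mulVec, ← V_zero]
  congr 1
  funext i
  fin_cases i <;> simp

/-- there are no maximal bad triples of type `(4, 3, 2, 1, 1, 1)` -/
theorem no_432111 [IsAlgClosed k] [CharZero k] {T : Fin 3 → Matrix (Ix 3) (Ix 3) k}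
    (hT : MaxR ρ T) (hρ : ∀ i, ρ i = (J k 3 ^ i).rank) (h0 : T 0 = J k 3) : False := by
  have h1 : (J k 3).rank = ρ 1 := by rw [hρ, pow_one]
  have h4 : ρ 4 = 0 := by rw [hρ, J_four, rank_zero]
  obtain ⟨c, c', hT⟩ := norm hT h1 h0
  by_cases ha : c.al0 ≠ 0 ∨ c'.al0 ≠ 0
  · exact caseA hT h1 h4 ha
  by_cases hb : c.be0 ≠ 0 ∨ c'.be0 ≠ 0
  · exact caseA (MaxR.dual hT) h1 h4 hb
  push Not at ha hb
  rcases MaxR.rc3 hT h1 with h | h
  · exact bs hT h1 ⟨ha.1, hb.1, h.1⟩ ⟨ha.2, hb.2, h.2⟩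
  · exact bs (MaxR.dual hT) h1 ⟨hb.1, ha.1, h.1⟩ ⟨hb.2, ha.2, h.2⟩

end Pool.Agent.Lib.D13.F432
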