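import Pool.Agent.Lib.D13.F432N

/-!
# MP_5dcbc3_ag: linear algebra in dimension three and four for the type `(4, 3, 2, 1^3)`
-/

namespace Pool.Agent.Lib.D13.F432

open Matrix

variable {k : Type*} [Field k]

theorem exists_ker {m n : ℕ} (h : m < n) (A : Matrix (Fin m) (Fin n) k) :
    ∃ x : Fin n → k, x ≠ 0 ∧ A *ᵥ x = 0 := by
  have h1 : LinearMap.ker A.mulVecLin ≠ ⊥ :=
    LinearMap.ker_ne_bot_of_finrank_lt (by simpa using h)
  obtain ⟨x, hx, hx0⟩ := Submodule.exists_mem_ne_zero_of_ne_bot h1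
  exact ⟨x, hx0, hx⟩

/-- two functionals on `k^3` -/
theorem ker2 (v1 v2 : Fin 3 → k) : ∃ π : Fin 3 → k, π ≠ 0 ∧ v1 ⬝ᵥ π = 0 ∧ v2 ⬝ᵥ π = 0 := by
  obtain ⟨x, hx, h⟩ := exists_ker (by norm_num) (![v1, v2] : Matrix (Fin 2) (Fin 3) k)
  exact ⟨x, hx, congrFun h 0, congrFun h 1⟩

/-- three functionals on `k + k^3` -/
theorem ker3 (a1 a2 a3 : k) (v1 v2 v3 : Fin 3 → k) : ∃ (ε : k) (π : Fin 3 → k),
    (ε ≠ 0 ∨ π ≠ 0) ∧ a1 * ε + v1 ⬝ᵥ π = 0 ∧ a2 * ε + v2 ⬝ᵥ π = 0 ∧ a3 * ε + v3 ⬝ᵥ π = 0 := by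
  obtain ⟨x, hx, h⟩ := exists_ker (by norm_num)
    (![vecCons a1 v1, vecCons a2 v2, vecCons a3 v3] : Matrix (Fin 3) (Fin 4) k)
  have e : x = vecCons (vecHead x) (vecTail x) := (cons_head_tail x).symm
  have h1 : vecCons a1 v1 ⬝ᵥ x = 0 := congrFun h 0
  have h2 : vecCons a2 v2 ⬝ᵥ x = 0 := congrFun h 1
  have h3 : vecCons a3 v3 ⬝ᵥ x = 0 := congrFun h 2
  rw [e, cons_dotProduct_cons] at h1 h2 h3
  refine ⟨vecHead x, vecTail x, ?_, h1, h2, h3⟩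
  by_contra hne
  push Not at hne
  apply hx
  rw [e, hne.1, hne.2]
  simp

/-- three functionals on `k^3` without common zero take all values -/
theorem onto3 {v1 v2 v3 : Fin 3 → k}
    (h : ∀ π, v1 ⬝ᵥ π = 0 → v2 ⬝ᵥ π = 0 → v3 ⬝ᵥ π = 0 → π = 0) (b1 b2 b3 : k) :
    ∃ π, v1 ⬝ᵥ π = b1 ∧ v2 ⬝ᵥ π = b2 ∧ v3 ⬝ᵥ π = b3 := by
  have hinj : Function.Injective (Matrix.of ![v1, v2, v3]).mulVecLin := by
    rw [← LinearMap.ker_eq_bot, LinearMap.ker_eq_bot']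
    intro π hπ
    exact h π (congrFun hπ 0) (congrFun hπ 1) (congrFun hπ 2)
  obtain ⟨π, hπ⟩ := LinearMap.injective_iff_surjective.1 hinj ![b1, b2, b3]
  exact ⟨π, congrFun hπ 0, congrFun hπ 1, congrFun hπ 2⟩

/-- three functionals on `k^3` without common zero: every functional is a combination -/
theorem comb3 {v1 v2 v3 : Fin 3 → k}
    (h : ∀ π, v1 ⬝ᵥ π = 0 → v2 ⬝ᵥ π = 0 → v3 ⬝ᵥ π = 0 → π = 0) (w : Fin 3 → k) :
    ∃ x y z : k, w = x • v1 + y • v2 + z • v3 := by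
  have hinj : Function.Injective (Matrix.of ![v1, v2, v3]).mulVecLin := by
    rw [← LinearMap.ker_eq_bot, LinearMap.ker_eq_bot']
    intro π hπ
    exact h π (congrFun hπ 0) (congrFun hπ 1) (congrFun hπ 2)
  have hu : IsUnit (Matrix.of ![v1, v2, v3]) := by
    rw [← Matrix.mulVec_injective_iff_isUnit]
    exact hinj
  obtain ⟨x, hx⟩ := Matrix.vecMul_surjective_iff_isUnit.2 hu w
  refine ⟨x 0, x 1, x 2, ?_⟩
  simp only at hx
  rw [← hx]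
  funext i
  simp [vecMul, dotProduct, Fin.sum_univ_three]

/-- four functionals on `k + k^3` -/
theorem dich4 (a1 a2 a3 a4 : k) (v1 v2 v3 v4 : Fin 3 → k) :
    (∃ (ε : k) (π : Fin 3 → k), (ε ≠ 0 ∨ π ≠ 0) ∧ a1 * ε + v1 ⬝ᵥ π = 0 ∧ a2 * ε + v2 ⬝ᵥ π = 0 ∧
      a3 * ε + v3 ⬝ᵥ π = 0 ∧ a4 * ε + v4 ⬝ᵥ π = 0) ∨
    ∀ b1 b2 b3 b4 : k, ∃ (ε : k) (π : Fin 3 → k), a1 * ε + v1 ⬝ᵥ π = b1 ∧
      a2 * ε + v2 ⬝ᵥ π = b2 ∧ a3 * ε + v3 ⬝ᵥ π = b3 ∧ a4 * ε + v4 ⬝ᵥ π = b4 := by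
  set A : Matrix (Fin 4) (Fin 4) k := ![vecCons a1 v1, vecCons a2 v2, vecCons a3 v3,
    vecCons a4 v4] with hA
  by_cases hinj : Function.Injective A.mulVecLin
  · right
    intro b1 b2 b3 b4
    obtain ⟨x, hx⟩ := LinearMap.injective_iff_surjective.1 hinj ![b1, b2, b3, b4]
    have e : x = vecCons (vecHead x) (vecTail x) := (cons_head_tail x).symm
    have h1 : vecCons a1 v1 ⬝ᵥ x = b1 := congrFun hx 0
    have h2 : vecCons a2 v2 ⬝ᵥ x = b2 := congrFun hx 1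
    have h3 : vecCons a3 v3 ⬝ᵥ x = b3 := congrFun hx 2
    have h4 : vecCons a4 v4 ⬝ᵥ x = b4 := congrFun hx 3
    rw [e, cons_dotProduct_cons] at h1 h2 h3 h4
    exact ⟨vecHead x, vecTail x, h1, h2, h3, h4⟩
  · left
    rw [← LinearMap.ker_eq_bot, LinearMap.ker_eq_bot'] at hinj
    push Not at hinj
    obtain ⟨x, h, hx⟩ := hinj
    have e : x = vecCons (vecHead x) (vecTail x) := (cons_head_tail x).symm
    have h1 : vecCons a1 v1 ⬝ᵥ x = 0 := congrFun h 0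
    have h2 : vecCons a2 v2 ⬝ᵥ x = 0 := congrFun h 1
    have h3 : vecCons a3 v3 ⬝ᵥ x = 0 := congrFun h 2
    have h4 : vecCons a4 v4 ⬝ᵥ x = 0 := congrFun h 3
    rw [e, cons_dotProduct_cons] at h1 h2 h3 h4
    refine ⟨vecHead x, vecTail x, ?_, h1, h2, h3, h4⟩
    by_contra hne
    push Not at hne
    apply hx
    rw [e, hne.1, hne.2]
    simp

/-- a pencil of `3 × 3` matrices contains a singular one -/
theorem pencil3 [IsAlgClosed k] (v1 v2 v3 w1 w2 w3 : Fin 3 → k) :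
    ∃ (x y : k) (π : Fin 3 → k), (x ≠ 0 ∨ y ≠ 0) ∧ π ≠ 0 ∧ (x • v1 + y • w1) ⬝ᵥ π = 0 ∧
      (x • v2 + y • w2) ⬝ᵥ π = 0 ∧ (x • v3 + y • w3) ⬝ᵥ π = 0 := by
  by_cases h : ∀ π, w1 ⬝ᵥ π = 0 → w2 ⬝ᵥ π = 0 → w3 ⬝ᵥ π = 0 → π = 0
  · -- `w` is invertible
    have hinj : Function.Injective (Matrix.of ![w1, w2, w3]).mulVecLin := by
      rw [← LinearMap.ker_eq_bot, LinearMap.ker_eq_bot']
      intro π hπ
      exact h π (congrFun hπ 0) (congrFun hπ 1) (congrFun hπ 2)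
    let e : (Fin 3 → k) ≃ₗ[k] (Fin 3 → k) := LinearEquiv.ofInjectiveEndo _ hinj
    obtain ⟨c, hc⟩ := Module.End.exists_eigenvalue
      ((e.symm : (Fin 3 → k) →ₗ[k] (Fin 3 → k)) ∘ₗ
        (Matrix.of ![v1, v2, v3]).mulVecLin : Module.End k (Fin 3 → k))
    obtain ⟨π, hπ⟩ := hc.exists_hasEigenvector
    have h1 := hπ.apply_eq_smul
    rw [LinearMap.comp_apply] at h1
    have h2 := congrArg e h1
    rw [LinearEquiv.coe_coe, LinearEquiv.apply_symm_apply, map_smul] at h2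
    have h3 : (Matrix.of ![v1, v2, v3]) *ᵥ π =
        c • ((Matrix.of ![w1, w2, w3]) *ᵥ π) := h2
    have g1 : v1 ⬝ᵥ π = c * (w1 ⬝ᵥ π) := congrFun h3 0
    have g2 : v2 ⬝ᵥ π = c * (w2 ⬝ᵥ π) := congrFun h3 1
    have g3 : v3 ⬝ᵥ π = c * (w3 ⬝ᵥ π) := congrFun h3 2
    refine ⟨1, -c, π, Or.inl one_ne_zero, hπ.2, ?_, ?_, ?_⟩
    · rw [add_dotProduct, smul_dotProduct, smul_dotProduct, g1]
      simp
    · rw [add_dotProduct, smul_dotProduct, smul_dotProduct, g2]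
      simp
    · rw [add_dotProduct, smul_dotProduct, smul_dotProduct, g3]
      simp
  · push Not at h
    obtain ⟨π, h1, h2, h3, h0⟩ := h
    refine ⟨0, 1, π, Or.inr one_ne_zero, h0, ?_, ?_, ?_⟩ <;> simp [h1, h2, h3]

/-- eigenvectors of `2 × 2` matrices -/
theorem eig2 [IsAlgClosed k] (a b c d : k) : ∃ (t x y : k), (x ≠ 0 ∨ y ≠ 0) ∧
    a * x + b * y = t * x ∧ c * x + d * y = t * y := by
  obtain ⟨t, ht⟩ := Module.End.exists_eigenvalue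
    ((!![a, b; c, d] : Matrix (Fin 2) (Fin 2) k).mulVecLin : Module.End k (Fin 2 → k))
  obtain ⟨v, hv⟩ := ht.exists_hasEigenvector
  have h1 := hv.apply_eq_smul
  have g0 := congrFun h1 0
  have g1 := congrFun h1 1
  simp [mulVec, dotProduct, Fin.sum_univ_two] at g0 g1
  refine ⟨t, v 0, v 1, ?_, g0, g1⟩
  by_contra hne
  push Not at hne
  apply hv.2
  funext i
  fin_cases i
  · exact hne.1
  · exact hne.2

end Pool.Agent.Lib.D13.F432
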