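import Pool.Agent.Lib.D13.T433a
import Pool.Agent.Lib.D12.Blk4
import Pool.Agent.Lib.D9.BlkMap

/-!
# MP_5dcbc3_ag, type (4, 3, 3): the shape of the triple

Let `J = A4 i0` be the Jordan matrix of type `(4, 3, 3)` and let `![J, B, C]` be a maximal triple.
Up to transposition the matrices `B` and `C` raise the level.
-/

set_option autoImplicit false

namespace Pool.Agent.Lib.D13.T433

open Matrix Pool.Agent.Lib.Q5dc Pool.Agent.Lib.D7 Pool.Agent.Lib.D8

variable {k : Type*} [Field k] {ρ : ℕ → ℕ}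

/-- the column `e_0` -/
abbrev i0 (k : Type*) [Field k] : M31 k := !![1; 0; 0]

/-- the Jordan matrix -/
abbrev JJ (k : Type*) [Field k] : Matrix I4 I4 k := A4 (i0 k)

/-! ### products with the Jordan matrix -/

theorem J_mul0 (B : Matrix I4 I4 k) (y : I4) (i : Fin 1) : (JJ k * B) (.inl i) y = 0 := by
  simp [T, G, Matrix.mul_apply, Fintype.sum_sum_type]

theorem J_mul1 (B : Matrix I4 I4 k) (y : I4) (i : Fin 3) :
    (JJ k * B) (.inr (.inl i)) y = i0 k i 0 * B (.inl 0) y := by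
  fin_cases i <;> simp [T, G, Matrix.mul_apply, Fintype.sum_sum_type, Matrix.one_apply]

theorem J_mul2 (B : Matrix I4 I4 k) (y : I4) (i : Fin 3) :
    (JJ k * B) (.inr (.inr (.inl i))) y = B (.inr (.inl i)) y := by
  simp [T, G, Matrix.mul_apply, Fintype.sum_sum_type, Matrix.one_apply]

theorem J_mul3 (B : Matrix I4 I4 k) (y : I4) (i : Fin 3) :
    (JJ k * B) (.inr (.inr (.inr i))) y = B (.inr (.inr (.inl i))) y := by
  simp [T, G, Matrix.mul_apply, Fintype.sum_sum_type, Matrix.one_apply]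

theorem mul_J0 (B : Matrix I4 I4 k) (x : I4) (i : Fin 1) :
    (B * JJ k) x (.inl i) = B x (.inr (.inl 0)) := by
  fin_cases i
  simp [T, G, Matrix.mul_apply, Fintype.sum_sum_type, Fin.sum_univ_three]

theorem mul_J1 (B : Matrix I4 I4 k) (x : I4) (i : Fin 3) :
    (B * JJ k) x (.inr (.inl i)) = B x (.inr (.inr (.inl i))) := by
  simp [T, G, Matrix.mul_apply, Fintype.sum_sum_type, Matrix.one_apply]

theorem mul_J2 (B : Matrix I4 I4 k) (x : I4) (i : Fin 3) :
    (B * JJ k) x (.inr (.inr (.inl i))) = B x (.inr (.inr (.inr i))) := by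
  simp [T, G, Matrix.mul_apply, Fintype.sum_sum_type, Matrix.one_apply]

theorem mul_J3 (B : Matrix I4 I4 k) (x : I4) (i : Fin 3) :
    (B * JJ k) x (.inr (.inr (.inr i))) = 0 := by
  simp [T, G, Matrix.mul_apply, Fintype.sum_sum_type]

/-- the matrices commuting with the Jordan matrix -/
def F (a : k) (N P Q : M3 k) (R : M31 k) : Matrix I4 I4 k :=
  Matrix.of fun i j => match i, j with
  | .inl _, .inl _ => a
  | .inr (.inl i), .inl _ => P i 0
  | .inr (.inr (.inl i)), .inl _ => Q i 0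
  | .inr (.inr (.inr i)), .inl j => R i j
  | .inr (.inl i), .inr (.inl j) => N i j
  | .inr (.inr (.inl i)), .inr (.inl j) => P i j
  | .inr (.inr (.inr i)), .inr (.inl j) => Q i j
  | .inr (.inr (.inl i)), .inr (.inr (.inl j)) => N i j
  | .inr (.inr (.inr i)), .inr (.inr (.inl j)) => P i j
  | .inr (.inr (.inr i)), .inr (.inr (.inr j)) => N i j
  | _, _ => 0

theorem F_eq_T (P Q : M3 k) (R : M31 k) : F 0 0 P Q R = T (i0 k) P Q R := by
  ext x y
  rcases x with x | x | x | x <;> rcases y with y | y | y | y <;>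
    simp [F, T, G, Matrix.mul_apply, Fin.sum_univ_three]

/-- the form of the matrices commuting with the Jordan matrix -/
theorem form {B : Matrix I4 I4 k} (h : JJ k * B = B * JJ k) :
    ∃ (a : k) (N P Q : M3 k) (R : M31 k), B = F a N P Q R ∧ ∀ i, N i 0 = i0 k i 0 * a := by
  have H : ∀ x y, (JJ k * B) x y = (B * JJ k) x y := fun x y => by rw [h]
  have r0 : ∀ (i : Fin 1) (j : Fin 3), B (.inl i) (.inr (.inr (.inl j))) = 0 := fun i j => by
    have := H (.inl i) (.inr (.inl j))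
    rw [J_mul0, mul_J1] at this
    exact this.symm
  have r0' : ∀ (i : Fin 1) (j : Fin 3), B (.inl i) (.inr (.inr (.inr j))) = 0 := fun i j => by
    have := H (.inl i) (.inr (.inr (.inl j)))
    rw [J_mul0, mul_J2] at this
    exact this.symm
  have c3 : ∀ (i : Fin 3) (j : Fin 3), B (.inr (.inl i)) (.inr (.inr (.inr j))) = 0 :=
    fun i j => by
    have := H (.inr (.inr (.inl i))) (.inr (.inr (.inr j)))
    rw [J_mul2, mul_J3] at this
    exact this
  have c3' : ∀ (i : Fin 3) (j : Fin 3), B (.inr (.inr (.inl i))) (.inr (.inr (.inr j))) = 0 :=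
    fun i j => by
    have := H (.inr (.inr (.inr i))) (.inr (.inr (.inr j)))
    rw [J_mul3, mul_J3] at this
    exact this
  have c2 : ∀ (i : Fin 3) (j : Fin 3), B (.inr (.inl i)) (.inr (.inr (.inl j))) = 0 :=
    fun i j => by
    have := H (.inr (.inr (.inl i))) (.inr (.inr (.inl j)))
    rw [J_mul2, mul_J2, c3'] at this
    exact this
  have r1 : ∀ (j : Fin 3), B (.inl 0) (.inr (.inl j)) = 0 := fun j => by
    have := H (.inr (.inl 0)) (.inr (.inl j))
    rw [J_mul1, mul_J1, c2] at this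
    simpa using this
  refine ⟨B (.inl 0) (.inl 0), Matrix.of fun i j => B (.inr (.inl i)) (.inr (.inl j)),
    Matrix.of fun i j => B (.inr (.inr (.inl i))) (.inr (.inl j)),
    Matrix.of fun i j => B (.inr (.inr (.inr i))) (.inr (.inl j)),
    Matrix.of fun i j => B (.inr (.inr (.inr i))) (.inl j), ?_, ?_⟩
  · ext x y
    rcases x with x | x | x | x <;> rcases y with y | y | y | y
    · fin_cases x
      fin_cases y
      rfl
    · fin_cases x
      exact r1 y
    · exact r0 x y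
    · exact r0' x y
    · -- (1, v)
      have := H (.inr (.inr (.inl x))) (.inl y)
      rw [J_mul2, mul_J0] at this
      exact this
    · rfl
    · exact c2 x y
    · exact c3 x y
    · have := H (.inr (.inr (.inr x))) (.inl y)
      rw [J_mul3, mul_J0] at this
      exact this
    · rfl
    · have := H (.inr (.inr (.inl x))) (.inr (.inl y))
      rw [J_mul2, mul_J1] at this
      exact this.symm
    · exact c3' x y
    · rfl
    · rfl
    · have := H (.inr (.inr (.inr x))) (.inr (.inl y))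
      rw [J_mul3, mul_J1] at this
      exact this.symm
    · have h1 := H (.inr (.inr (.inr x))) (.inr (.inr (.inl y)))
      rw [J_mul3, mul_J2] at h1
      have h2 := H (.inr (.inr (.inl x))) (.inr (.inl y))
      rw [J_mul2, mul_J1] at h2
      exact h1.symm.trans h2.symm
  · intro i
    have := H (.inr (.inl i)) (.inl 0)
    rw [J_mul1, mul_J0] at this
    exact this.symm

/-! ### coefficients of polynomial identities -/

theorem poly_div [CharZero k] {g : k → k} (hg : D7.IsPoly g) (h : ∀ t, t * g t = 0) : g 0 = 0 := by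
  by_contra h0
  have hf := hg.finite h0
  refine (Set.infinite_univ (α := k)) ((hf.union (Set.finite_singleton 0)).subset fun s _ => ?_)
  by_cases hs : s = 0
  · exact Or.inr hs
  · left
    exact (mul_eq_zero.1 (h s)).resolve_left hs

theorem coefs [CharZero k] {a1 a2 a3 b1 b2 b3 c1 c2 c3 d1 d2 d3 : k}
    (h : ∀ t : k, (1 + t * a1 + t ^ 2 * a2 + t ^ 3 * a3) * (t * b1 + t ^ 2 * b2 + t ^ 3 * b3) =
      (t * c1 + t ^ 2 * c2 + t ^ 3 * c3) * (t * d1 + t ^ 2 * d2 + t ^ 3 * d3)) :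
    b1 = 0 ∧ b2 = c1 * d1 := by
  have id : D7.IsPoly fun t : k => t := D7.IsPoly.id
  have cc : ∀ c : k, D7.IsPoly fun _ : k => c := fun c => D7.IsPoly.const c
  have e1 : b1 = 0 := by
    have := poly_div (k := k) (g := fun t => (1 + t * a1 + t ^ 2 * a2 + t ^ 3 * a3) *
      (b1 + t * b2 + t ^ 2 * b3) -
        t * ((c1 + t * c2 + t ^ 2 * c3) * (d1 + t * d2 + t ^ 2 * d3))) ?_ ?_
    · simpa using this
    · refine D7.IsPoly.sub (D7.IsPoly.mul ?_ ?_) (D7.IsPoly.mul id (D7.IsPoly.mul ?_ ?_))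
      · exact (((cc 1).add (id.mul (cc a1))).add ((id.pow 2).mul (cc a2))).add
          ((id.pow 3).mul (cc a3))
      · exact ((cc b1).add (id.mul (cc b2))).add ((id.pow 2).mul (cc b3))
      · exact ((cc c1).add (id.mul (cc c2))).add ((id.pow 2).mul (cc c3))
      · exact ((cc d1).add (id.mul (cc d2))).add ((id.pow 2).mul (cc d3))
    · intro t
      linear_combination h t
  subst e1
  refine ⟨rfl, ?_⟩
  have := poly_div (k := k) (g := fun t => (1 + t * a1 + t ^ 2 * a2 + t ^ 3 * a3) *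
      (b2 + t * b3) -
        ((c1 + t * c2 + t ^ 2 * c3) * (d1 + t * d2 + t ^ 2 * d3))) ?_ ?_
  · simpa [sub_eq_zero] using this
  · refine D7.IsPoly.sub (D7.IsPoly.mul ?_ ?_) (D7.IsPoly.mul ?_ ?_)
    · exact (((cc 1).add (id.mul (cc a1))).add ((id.pow 2).mul (cc a2))).add
        ((id.pow 3).mul (cc a3))
    · exact (cc b2).add (id.mul (cc b3))
    · exact ((cc c1).add (id.mul (cc c2))).add ((id.pow 2).mul (cc c3))
    · exact ((cc d1).add (id.mul (cc d2))).add ((id.pow 2).mul (cc d3))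
  · intro t
    by_cases ht : t = 0
    · rw [ht, zero_mul]
    · have h1 := h t
      have h2 : t * (t * ((1 + t * a1 + t ^ 2 * a2 + t ^ 3 * a3) *
      (b2 + t * b3) -
        ((c1 + t * c2 + t ^ 2 * c3) * (d1 + t * d2 + t ^ 2 * d3)))) = 0 := by
        linear_combination h1
      exact (mul_eq_zero.1 h2).resolve_left ht

theorem cube_line {n : Type*} [Fintype n] [DecidableEq n] {A X : Matrix n n k}
    (hc : A * X = X * A) (t : k) : (A + t • X) ^ 3 =
      A * (A * A) + (3 * t) • (A * (A * X)) + (3 * t ^ 2) • (A * (X * X)) + t ^ 3 • X ^ 3 := by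
  have hc' : Commute A X := hc
  have sq : (A + t • X) * (A + t • X) = A * A + (2 * t) • (A * X) + (t ^ 2) • (X * X) := by
    rw [add_mul, mul_add, mul_add, smul_mul_assoc, smul_mul_assoc, mul_smul_comm, mul_smul_comm,
      ← hc]
    module
  have c1 : A * A * X = A * (A * X) := mul_assoc ..
  have c2 : A * X * A = A * (A * X) := by rw [mul_assoc, ← hc]
  have c3 : A * X * X = A * (X * X) := mul_assoc ..
  have c4 : X * X * A = A * (X * X) := by rw [mul_assoc, ← hc, ← mul_assoc, ← hc, mul_assoc]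
  have c5 : X * X * X = X ^ 3 := by rw [pow_succ, pow_two]
  have c6 : A * A * A = A * (A * A) := mul_assoc ..
  rw [pow_succ, pow_two, sq]
  simp only [add_mul, mul_add, smul_mul_assoc, mul_smul_comm, c1, c2, c3, c4, c5, c6]
  module

/-! ### the diagonal blocks -/

section Diag

variable [CharZero k]

theorem alpha_zero (h4 : ρ 4 = 0) {S : Fin 3 → Matrix I4 I4 k} (hT : MaxR ρ S)
    (hJ : JJ k ∈ adj S) {B : Matrix I4 I4 k} (hB : B ∈ adj S) (hc : JJ k * B = B * JJ k) :
    B (.inl 0) (.inl 0) = 0 := by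
  have h := D12.pow4_line hc fun t => hT.pow_eq_zero
    (add_mem hJ (Submodule.smul_mem (adj S).toSubmodule t hB)) h4
  have h1 := congrFun (congrFun h (.inr (.inr (.inr 0)))) (.inl 0)
  rw [show (JJ k ^ 3 * B) = JJ k * (JJ k * (JJ k * B)) by rw [pow_succ, pow_two]; simp only
    [mul_assoc], J_mul3, J_mul2, J_mul1] at h1
  simpa using h1

theorem diag (h4 : ρ 4 = 0) (h3 : ρ 3 = 1) {S : Fin 3 → Matrix I4 I4 k} (hT : MaxR ρ S)
    (hJ : JJ k ∈ adj S) {B : Matrix I4 I4 k} (hB : B ∈ adj S) (hc : JJ k * B = B * JJ k) :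
    ∃ (N P Q : M3 k) (R : M31 k), B = F 0 N P Q R ∧ (∀ i, N i 0 = 0) ∧
      (∀ j, N 1 j = 0) ∧ (∀ j, N 2 j = 0) ∧ (∀ j, N 0 j * P 1 0 = 0) ∧
      ∀ j, N 0 j * P 2 0 = 0 := by
  obtain ⟨a, N, P, Q, R, rfl, hN⟩ := form hc
  have ha : a = 0 := alpha_zero h4 hT hJ hB hc
  subst ha
  have hN0 : ∀ i, N i 0 = 0 := fun i => by rw [hN, mul_zero]
  set B := F 0 N P Q R with hBd
  have hr : ∀ t : k, ((JJ k + t • B) ^ 3).rank ≤ 1 := fun t =>
    (hT.rank_le (add_mem hJ (Submodule.smul_mem (adj S).toSubmodule t hB)) 3).trans h3.le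
  -- the entries of the cube
  have ev : ∀ (t : k) (i : Fin 3), ((JJ k + t • B) ^ 3) (.inr (.inr (.inr i))) (.inl 0) =
      i0 k i 0 + t * (3 * P i 0) + t ^ 2 * (3 * (B * B) (.inr (.inr (.inl i))) (.inl 0)) +
        t ^ 3 * (B ^ 3) (.inr (.inr (.inr i))) (.inl 0) := by
    intro t i
    rw [cube_line hc]
    simp only [Matrix.add_apply, Matrix.smul_apply, smul_eq_mul, J_mul3, J_mul2]
    have e1 : JJ k (.inr (.inl i)) (.inl 0) = i0 k i 0 := by
      simp [T, G]
    have e2 : B (.inr (.inl i)) (.inl 0) = P i 0 := rfl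
    rw [e1, e2]
    ring
  have em : ∀ (i j : Fin 3), (B * B) (.inr (.inr (.inl i))) (.inr (.inl j)) =
      (P * N + N * P) i j := by
    intro i j
    simp [hBd, F, Matrix.mul_apply, Fintype.sum_sum_type]
  have e1 : ∀ (t : k) (i j : Fin 3), ((JJ k + t • B) ^ 3) (.inr (.inr (.inr i))) (.inr (.inl j)) =
      t * (3 * N i j) + t ^ 2 * (3 * (P * N + N * P) i j) +
        t ^ 3 * (B ^ 3) (.inr (.inr (.inr i))) (.inr (.inl j)) := by
    intro t i j
    rw [cube_line hc]
    simp only [Matrix.add_apply, Matrix.smul_apply, smul_eq_mul, J_mul3, J_mul2]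
    have e1 : JJ k (.inr (.inl i)) (.inr (.inl j)) = 0 := by
      simp [T, G]
    have e2 : B (.inr (.inl i)) (.inr (.inl j)) = N i j := rfl
    rw [e1, e2, em]
    simp only [Matrix.add_apply]
    ring
  have key : ∀ i j : Fin 3, i0 k i 0 = 0 → 3 * N i j = 0 ∧
      3 * (P * N + N * P) i j = 3 * N 0 j * (3 * P i 0) := by
    intro i j hi
    refine coefs (a1 := 3 * P 0 0) (a2 := 3 * (B * B) (.inr (.inr (.inl 0))) (.inl 0))
      (a3 := (B ^ 3) (.inr (.inr (.inr 0))) (.inl 0))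
      (b3 := (B ^ 3) (.inr (.inr (.inr i))) (.inr (.inl j)))
      (c2 := 3 * (P * N + N * P) 0 j) (c3 := (B ^ 3) (.inr (.inr (.inr 0))) (.inr (.inl j)))
      (d2 := 3 * (B * B) (.inr (.inr (.inl i))) (.inl 0))
      (d3 := (B ^ 3) (.inr (.inr (.inr i))) (.inl 0)) fun t => ?_
    have h := minor_zero (hr t) (.inr (.inr (.inr 0))) (.inr (.inr (.inr i))) (.inl 0)
      (.inr (.inl j))
    rw [ev, ev, e1, e1, hi] at h
    have hi0 : i0 k 0 0 = 1 := rfl
    rw [hi0] at h
    linear_combination h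
  have three : (3 : k) ≠ 0 := by norm_num
  have h1 : ∀ j, N 1 j = 0 := fun j =>
    (mul_eq_zero.1 (key 1 j rfl).1).resolve_left three
  have h2 : ∀ j, N 2 j = 0 := fun j =>
    (mul_eq_zero.1 (key 2 j rfl).1).resolve_left three
  have hNN : N 0 0 = 0 := hN0 0
  refine ⟨N, P, Q, R, rfl, hN0, h1, h2, fun j => ?_, fun j => ?_⟩
  · have h := (key 1 j rfl).2
    simp only [Matrix.add_apply, Matrix.mul_apply, Fin.sum_univ_three, h1, h2] at h
    have h6 : (6 : k) * (N 0 j * P 1 0) = 0 := by linear_combination -h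
    exact (mul_eq_zero.1 h6).resolve_left (by norm_num)
  · have h := (key 2 j rfl).2
    simp only [Matrix.add_apply, Matrix.mul_apply, Fin.sum_univ_three, h1, h2] at h
    have h6 : (6 : k) * (N 0 j * P 2 0) = 0 := by linear_combination -h
    exact (mul_eq_zero.1 h6).resolve_left (by norm_num)

/-! ### transposition -/

/-- the symmetry of the Jordan matrix -/
def sg : I4 → I4
  | .inl _ => .inr (.inr (.inr 0))
  | .inr (.inl i) => if i = 0 then .inr (.inr (.inl 0)) else .inr (.inr (.inr i))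
  | .inr (.inr (.inl i)) => if i = 0 then .inr (.inl 0) else .inr (.inr (.inl i))
  | .inr (.inr (.inr i)) => if i = 0 then .inl 0 else .inr (.inl i)

theorem sg_sg (x : I4) : sg (sg x) = x := by
  revert x
  decide

/-- the symmetry of the Jordan matrix -/
def sgE : I4 ≃ I4 := ⟨sg, sg, sg_sg, sg_sg⟩

omit [CharZero k] in
theorem J_flip (x y : I4) : JJ k (sg y) (sg x) = JJ k x y := by
  rw [show JJ k = F 0 0 1 0 0 from (F_eq_T ..).symm]
  rcases x with x | x | x | x <;> rcases y with y | y | y | y <;> fin_cases x <;> fin_cases y <;>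
    simp [F, sg]

theorem flip (h4 : ρ 4 = 0) (h3 : ρ 3 = 1) {B C : Matrix I4 I4 k} (hT : MaxR ρ ![JJ k, B, C])
    (hB : ∀ i : Fin 3, i ≠ 0 → B (.inr (.inr (.inr i))) (.inr (.inr (.inl 0))) = 0)
    (hC : ∀ i : Fin 3, i ≠ 0 → C (.inr (.inr (.inr i))) (.inr (.inr (.inl 0))) = 0) :
    ∃ (P Q : M3 k) (R : M31 k) (P' Q' : M3 k) (R' : M31 k),
      MaxR ρ ![JJ k, T (i0 k) P Q R, T (i0 k) P' Q' R'] := by
  have h1 := D9.MaxR.reindex sgE hT.transpose
  set B' : Matrix I4 I4 k := Matrix.of fun x y => B (sg y) (sg x) with hB'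
  set C' : Matrix I4 I4 k := Matrix.of fun x y => C (sg y) (sg x) with hC'
  have h2 : (fun i => Matrix.reindexAlgEquiv k k sgE ((![JJ k, B, C] :
      Fin 3 → Matrix I4 I4 k) i)ᵀ) = ![JJ k, B', C'] := by
    funext i
    fin_cases i
    · ext x y
      exact J_flip x y
    · rfl
    · rfl
  rw [h2] at h1
  have key : ∀ {X : Matrix I4 I4 k}, X ∈ adj ![JJ k, B', C'] → JJ k * X = X * JJ k →
      (∀ i : Fin 3, i ≠ 0 → X (.inr (.inl 0)) (.inr (.inl i)) = 0) →
      ∃ (P Q : M3 k) (R : M31 k), X = T (i0 k) P Q R := by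
    intro X hX hc h0
    obtain ⟨N, P, Q, R, rfl, e0, e1, e2, -⟩ := diag h4 h3 h1 (mem0 (JJ k) B' C') hX hc
    refine ⟨P, Q, R, ?_⟩
    have hN : N = 0 := by
      ext i j
      fin_cases i
      · by_cases hj : j = 0
        · rw [hj]
          exact e0 0
        · exact h0 j hj
      · exact e1 j
      · exact e2 j
    rw [hN, F_eq_T]
  obtain ⟨P, Q, R, e1⟩ := key (mem1 (JJ k) B' C') (h1.cn.1 0 1) fun i hi => by
    show B (sg (.inr (.inl i))) (sg (.inr (.inl 0))) = 0
    simp only [sg, if_neg hi, if_true]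
    exact hB i hi
  obtain ⟨P', Q', R', e2⟩ := key (mem2 (JJ k) B' C') (h1.cn.1 0 2) fun i hi => by
    show C (sg (.inr (.inl i))) (sg (.inr (.inl 0))) = 0
    simp only [sg, if_neg hi, if_true]
    exact hC i hi
  have e1' : B' = T (i0 k) P Q R := e1
  have e2' : C' = T (i0 k) P' Q' R' := e2
  rw [e1', e2'] at h1
  exact ⟨P, Q, R, P', Q', R', h1⟩

/-- the shape of the triple -/
theorem shape (h4 : ρ 4 = 0) (h3 : ρ 3 = 1) {B C : Matrix I4 I4 k}
    (hT : MaxR ρ ![JJ k, B, C]) :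
    ∃ (P Q : M3 k) (R : M31 k) (P' Q' : M3 k) (R' : M31 k),
      MaxR ρ ![JJ k, T (i0 k) P Q R, T (i0 k) P' Q' R'] := by
  obtain ⟨N, P, Q, R, eB', b0, b1, b2, b3, b4⟩ := diag h4 h3 hT (mem0 (JJ k) B C) (mem1 (JJ k) B C)
    (hT.cn.1 0 1)
  have eB : B = F 0 N P Q R := eB'
  clear eB'
  obtain ⟨N', P', Q', R', eC', c0, c1, c2, c3, c4⟩ := diag h4 h3 hT (mem0 (JJ k) B C) (mem2 (JJ k) B C)
    (hT.cn.1 0 2)
  have eC : C = F 0 N' P' Q' R' := eC'
  clear eC'
  have e01 : JJ k * B = B * JJ k := hT.cn.1 0 1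
  have e02 : JJ k * C = C * JJ k := hT.cn.1 0 2
  obtain ⟨N2, P2, Q2, R2, eD, -, -, -, d3, d4⟩ := diag h4 h3 hT (mem0 (JJ k) B C)
    (add_mem (mem1 (JJ k) B C) (mem2 (JJ k) B C)) (by rw [mul_add, add_mul, e01, e02])
  rw [eB, eC] at eD
  have dN : ∀ i j, N2 i j = N i j + N' i j := fun i j =>
    (congrFun (congrFun eD (.inr (.inl i))) (.inr (.inl j))).symm
  have dP : ∀ i j, P2 i j = P i j + P' i j := fun i j =>
    (congrFun (congrFun eD (.inr (.inr (.inl i)))) (.inr (.inl j))).symm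
  have fl : (P 1 0 = 0 ∧ P 2 0 = 0 ∧ P' 1 0 = 0 ∧ P' 2 0 = 0) →
    ∃ (P Q : M3 k) (R : M31 k) (P' Q' : M3 k) (R' : M31 k),
      MaxR ρ ![JJ k, T (i0 k) P Q R, T (i0 k) P' Q' R'] := by
    rintro ⟨p1, p2, p3, p4⟩
    refine flip h4 h3 hT (fun i hi => ?_) fun i hi => ?_
    · rw [eB]
      show P i 0 = 0
      fin_cases i
      · exact absurd rfl hi
      · exact p1
      · exact p2
    · rw [eC]
      show P' i 0 = 0
      fin_cases i
      · exact absurd rfl hi
      · exact p3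
      · exact p4
  by_cases hN : ∀ j, N 0 j = 0
  · by_cases hN' : ∀ j, N' 0 j = 0
    · have z : N = 0 := by
        ext i j
        fin_cases i
        exacts [hN j, b1 j, b2 j]
      have z' : N' = 0 := by
        ext i j
        fin_cases i
        exacts [hN' j, c1 j, c2 j]
      refine ⟨P, Q, R, P', Q', R', ?_⟩
      rw [← F_eq_T, ← F_eq_T]
      rw [z] at eB
      rw [z'] at eC
      rwa [← eB, ← eC]
    · push Not at hN'
      obtain ⟨j, hj⟩ := hN'
      have p3 : P' 1 0 = 0 := (mul_eq_zero.1 (c3 j)).resolve_left hj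
      have p4 : P' 2 0 = 0 := (mul_eq_zero.1 (c4 j)).resolve_left hj
      have h1 := d3 j
      have h2 := d4 j
      rw [dN, dP, p3, hN j, zero_add, add_zero] at h1
      rw [dN, dP, p4, hN j, zero_add, add_zero] at h2
      exact fl ⟨(mul_eq_zero.1 h1).resolve_left hj, (mul_eq_zero.1 h2).resolve_left hj, p3, p4⟩
  · push Not at hN
    obtain ⟨j, hj⟩ := hN
    have p1 : P 1 0 = 0 := (mul_eq_zero.1 (b3 j)).resolve_left hj
    have p2 : P 2 0 = 0 := (mul_eq_zero.1 (b4 j)).resolve_left hj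
    have h1 := d3 j
    have h2 := d4 j
    rw [dN, dP, p1, zero_add, add_mul, c3 j, add_zero] at h1
    rw [dN, dP, p2, zero_add, add_mul, c4 j, add_zero] at h2
    exact fl ⟨p1, p2, (mul_eq_zero.1 h1).resolve_left hj, (mul_eq_zero.1 h2).resolve_left hj⟩

end Diag

end Pool.Agent.Lib.D13.T433
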