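import Pool.Agent.Lib.D13.T433r

/-!
# MP_5dcbc3_ag, type (4, 3, 3): different eigenvalues

`B = T ι P Q R` with `P` diagonal with different eigenvalues, `ι = (1, 1, 1)`: three axes.
-/

set_option autoImplicit false

namespace Pool.Agent.Lib.D13.T433

open Matrix Pool.Agent.Lib.Q5dc Pool.Agent.Lib.D7 Pool.Agent.Lib.D8

variable {k : Type*} [Field k] {ρ : ℕ → ℕ}

/-- the column `(1, 1, 1)` -/
def i1 : M31 k := Matrix.of fun _ _ => 1

theorem vand {p : Fin 3 → k} (hp : Function.Injective p) (q : Fin 3 → k) :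
    ∃ x y z : k, x • (1 : M3 k) + y • diagonal p + z • (diagonal p * diagonal p) = diagonal q := by
  have h01 : p 0 - p 1 ≠ 0 := sub_ne_zero.2 (hp.ne (by decide))
  have h02 : p 0 - p 2 ≠ 0 := sub_ne_zero.2 (hp.ne (by decide))
  have h12 : p 1 - p 2 ≠ 0 := sub_ne_zero.2 (hp.ne (by decide))
  refine ⟨q 0 * (p 1 * p 2) / ((p 0 - p 1) * (p 0 - p 2)) -
    q 1 * (p 0 * p 2) / ((p 0 - p 1) * (p 1 - p 2)) +
    q 2 * (p 0 * p 1) / ((p 0 - p 2) * (p 1 - p 2)),
    -(q 0 * (p 1 + p 2) / ((p 0 - p 1) * (p 0 - p 2))) +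
    q 1 * (p 0 + p 2) / ((p 0 - p 1) * (p 1 - p 2)) -
    q 2 * (p 0 + p 1) / ((p 0 - p 2) * (p 1 - p 2)),
    q 0 / ((p 0 - p 1) * (p 0 - p 2)) -
    q 1 / ((p 0 - p 1) * (p 1 - p 2)) +
    q 2 / ((p 0 - p 2) * (p 1 - p 2)), ?_⟩
  ext i j
  by_cases hij : i = j
  · subst hij
    simp only [Matrix.add_apply, Matrix.smul_apply, diagonal_mul_diagonal, diagonal_apply_eq,
      one_apply_eq, smul_eq_mul]
    fin_cases i
    · simp only [Fin.zero_eta]
      field_simp
      ring
    · simp only [Fin.mk_one]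
      field_simp
      ring
    · simp only [Fin.reduceFinMk]
      field_simp
      ring
  · simp [hij]

/-- the three axes -/
def Xd (D : M3 k) (e : Fin 3 → k) (i : Fin 3) : Matrix I4 I4 k := T i1 (pj i) (e i • D) 0

theorem pj_i1 (i : Fin 3) : (pj i : M3 k) * (i1 : M31 k) = ec i := by
  have h : ∀ a b, (i1 : M31 k) a b = 1 := fun _ _ => rfl
  ext a b
  rw [Subsingleton.elim b 0, Matrix.mul_apply, Fin.sum_univ_three]
  simp only [h]
  fin_cases i <;> fin_cases a <;> simp [pj, ec]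

/-- the blocks of the change of basis -/
def n21 (D : M3 k) (e : Fin 3 → k) : M3 k :=
  Matrix.of fun a b => -(e b * (D a 0 + D a 1 + D a 2))

def n32 (D : M3 k) (e : Fin 3 → k) : M3 k :=
  Matrix.of fun a b => -(e b * D a b) - if a = b then e b * (D a 0 + D a 1 + D a 2) else 0

theorem n21_ec (D : M3 k) (e : Fin 3 → k) (i : Fin 3) :
    n21 D e * (ec i : M31 k) = -(e i • (D * (i1 : M31 k))) := by
  have h : ∀ a b, (i1 : M31 k) a b = 1 := fun _ _ => rfl
  ext a b
  rw [Subsingleton.elim b 0, Matrix.mul_apply, Fin.sum_univ_three, Matrix.neg_apply,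
    Matrix.smul_apply, Matrix.mul_apply, Fin.sum_univ_three]
  simp only [h]
  fin_cases i <;> simp [n21, ec] <;> ring

theorem Xd_conj {D : M3 k} {e w : Fin 3 → k} (hD : ∀ i, D i i = 0)
    (r01 : e 0 * D 0 1 + e 1 * (D 0 1 + D 0 2) = 0) (r02 : e 0 * D 0 2 + e 2 * (D 0 1 + D 0 2) = 0)
    (r10 : e 1 * D 1 0 + e 0 * (D 1 0 + D 1 2) = 0) (r12 : e 1 * D 1 2 + e 2 * (D 1 0 + D 1 2) = 0)
    (r20 : e 2 * D 2 0 + e 0 * (D 2 0 + D 2 1) = 0) (r21 : e 2 * D 2 1 + e 1 * (D 2 0 + D 2 1) = 0)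
    (w0 : w 0 = e 1 * D 0 2) (w0' : w 0 = e 2 * D 0 1) (w1 : w 1 = e 0 * D 1 2)
    (w1' : w 1 = e 2 * D 1 0) (w2 : w 2 = e 0 * D 2 1) (w2' : w 2 = e 1 * D 2 0) (i : Fin 3) :
    (1 + G 0 0 0 (n21 D e) (n32 D e * n21 D e) (n32 D e)) * Xd D e i = XX w i *
      (1 + G 0 0 0 (n21 D e) (n32 D e * n21 D e) (n32 D e)) := by
  have d0 := hD 0
  have d1 := hD 1
  have d2 := hD 2
  unfold Xd XX T
  rw [add_mul, mul_add, one_mul, mul_one, G_mul, G_mul, G_add, G_add, pj_i1]
  refine G_ext ?_ ?_ ?_ ?_ ?_ ?_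
  · simp
  · rw [n21_ec, Matrix.mul_zero, Matrix.smul_mul]
    simp
  · rw [Matrix.mul_assoc, n21_ec, Matrix.smul_mul]
    simp
  · simp
  · ext a b
    fin_cases i <;> fin_cases a <;> fin_cases b <;>
      simp [pj, W, n21, n32, Matrix.mul_apply, Fin.sum_univ_three, d0, d1, d2, vecHead,
        vecTail] <;>
      first
      | linear_combination r01
      | linear_combination r02
      | linear_combination r10
      | linear_combination r12
      | linear_combination r20
      | linear_combination r21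
      | linear_combination -w0
      | linear_combination -w0'
      | linear_combination -w1
      | linear_combination -w1'
      | linear_combination -w2
      | linear_combination -w2'
  · simp

theorem axes_no [CharZero k] (h4 : ρ 4 = 0) {D : M3 k} {e w : Fin 3 → k} (hD : ∀ i, D i i = 0)
    (r01 : e 0 * D 0 1 + e 1 * (D 0 1 + D 0 2) = 0) (r02 : e 0 * D 0 2 + e 2 * (D 0 1 + D 0 2) = 0)
    (r10 : e 1 * D 1 0 + e 0 * (D 1 0 + D 1 2) = 0) (r12 : e 1 * D 1 2 + e 2 * (D 1 0 + D 1 2) = 0)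
    (r20 : e 2 * D 2 0 + e 0 * (D 2 0 + D 2 1) = 0) (r21 : e 2 * D 2 1 + e 1 * (D 2 0 + D 2 1) = 0)
    (w0 : w 0 = e 1 * D 0 2) (w0' : w 0 = e 2 * D 0 1) (w1 : w 1 = e 0 * D 1 2)
    (w1' : w 1 = e 2 * D 1 0) (w2 : w 2 = e 0 * D 2 1) (w2' : w 2 = e 1 * D 2 0)
    (hT : MaxR ρ ![Xd D e 0, Xd D e 1, Xd D e 2]) : False := by
  set N : Matrix I4 I4 k := G 0 0 0 (n21 D e) (n32 D e * n21 D e) (n32 D e) with hN
  have hN3 : N * N * N = 0 := by
    rw [hN, G_mul, G_mul]
    simp [G_zero]
  have e1 : (1 + N) * (1 - N + N * N) = 1 := by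
    have : (1 + N) * (1 - N + N * N) = 1 + N * N * N := by noncomm_ring
    rw [this, hN3, add_zero]
  have e2 : (1 - N + N * N) * (1 + N) = 1 := by
    have : (1 - N + N * N) * (1 + N) = 1 + N * N * N := by noncomm_ring
    rw [this, hN3, add_zero]
  have key : ∀ i, (1 + N) * Xd D e i * (1 - N + N * N) = XX w i := by
    intro i
    rw [hN, Xd_conj hD r01 r02 r10 r12 r20 r21 w0 w0' w1 w1' w2 w2' i, ← hN, mul_assoc, e1,
      mul_one]
  have h1 := hT.conj _ _ e1 e2
  have h2 : (fun i => (1 + N) * (![Xd D e 0, Xd D e 1, Xd D e 2] : Fin 3 → Matrix I4 I4 k) i *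
      (1 - N + N * N)) = ![XX w 0, XX w 1, XX w 2] := by
    funext i
    fin_cases i
    · exact key 0
    · exact key 1
    · exact key 2
  rw [h2] at h1
  exact raise h4 h1

theorem diag_final [CharZero k] (h4 : ρ 4 = 0) {p : Fin 3 → k} (hp : Function.Injective p) {D : M3 k}
    (hD : ∀ i, D i i = 0)
    (hT : MaxR ρ ![A4 i1, T i1 (diagonal p) 0 0, T i1 (diagonal p * diagonal p) D 0]) :
    False := by
  have h01 : p 0 - p 1 ≠ 0 := sub_ne_zero.2 (hp.ne (by decide))
  have h02 : p 0 - p 2 ≠ 0 := sub_ne_zero.2 (hp.ne (by decide))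
  have h12 : p 1 - p 2 ≠ 0 := sub_ne_zero.2 (hp.ne (by decide))
  have hrel := (max_rel hT).2
  have h1 : ∀ a b, (i1 : M31 k) a b = 1 := fun _ _ => rfl
  have rel : ∀ i, D i 0 * (p 0 - p i) + D i 1 * (p 1 - p i) + D i 2 * (p 2 - p i) = 0 := by
    intro i
    have h := congrFun (congrFun hrel i) 0
    simp only [zero_mul, mul_zero, zero_add, add_zero, Matrix.mul_apply (M := diagonal p * D),
      Matrix.mul_apply (M := D * diagonal p), diagonal_mul, mul_diagonal, h1,
      Fin.sum_univ_three, mul_one] at h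
    linear_combination -h
  have rel0 := rel 0
  have rel1 := rel 1
  have rel2 := rel 2
  rw [hD 0] at rel0
  rw [hD 1] at rel1
  rw [hD 2] at rel2
  obtain ⟨e, e0, e1, e2⟩ : ∃ e : Fin 3 → k, e 0 = 1 / ((p 0 - p 1) * (p 0 - p 2)) ∧
      e 1 = -(1 / ((p 0 - p 1) * (p 1 - p 2))) ∧ e 2 = 1 / ((p 0 - p 2) * (p 1 - p 2)) :=
    ⟨![1 / ((p 0 - p 1) * (p 0 - p 2)), -(1 / ((p 0 - p 1) * (p 1 - p 2))),
      1 / ((p 0 - p 2) * (p 1 - p 2))], rfl, rfl, rfl⟩
  have hX : ∀ i, Xd D e i ∈ adj ![A4 i1, T i1 (diagonal p) 0 0,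
      T i1 (diagonal p * diagonal p) D 0] := by
    have key : ∀ (i : Fin 3) (x y : k), x • (1 : M3 k) + y • diagonal p +
        e i • (diagonal p * diagonal p) = pj i → Xd D e i ∈ adj ![A4 i1, T i1 (diagonal p) 0 0,
        T i1 (diagonal p * diagonal p) D 0] := by
      intro i x y h
      have h2 : Xd D e i = x • A4 i1 + y • T i1 (diagonal p) 0 0 +
          e i • T i1 (diagonal p * diagonal p) D 0 := by
        rw [T_smul, T_smul, T_smul, T_add, T_add, h, Xd]
        simp
      rw [h2]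
      exact add_mem (add_mem (SMulMemClass.smul_mem _ (mem0 _ _ _))
        (SMulMemClass.smul_mem _ (mem1 _ _ _))) (SMulMemClass.smul_mem _ (mem2 _ _ _))
    intro i
    fin_cases i
    · refine key 0 (e 0 * (p 1 * p 2)) (-(e 0 * (p 1 + p 2))) ?_
      rw [e0]
      ext a b
      fin_cases a <;> fin_cases b <;> simp [pj] <;> field_simp <;> ring
    · refine key 1 (e 1 * (p 0 * p 2)) (-(e 1 * (p 0 + p 2))) ?_
      rw [e1]
      ext a b
      fin_cases a <;> fin_cases b <;> simp [pj] <;> field_simp <;> ring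
    · refine key 2 (e 2 * (p 0 * p 1)) (-(e 2 * (p 0 + p 1))) ?_
      rw [e2]
      ext a b
      fin_cases a <;> fin_cases b <;> simp [pj] <;> field_simp <;> ring
  have hX' : MaxR ρ ![Xd D e 0, Xd D e 1, Xd D e 2] := by
    refine MaxR.change hT (hT.cn.of_adj fun i => ?_) fun i => ?_
    · fin_cases i
      exacts [hX 0, hX 1, hX 2]
    · have key : ∀ (x y z : k) (P Q : M3 k), x • pj 0 + y • pj 1 + z • pj 2 = P →
          (x * e 0 + y * e 1 + z * e 2) • D = Q →
          T i1 P Q 0 ∈ adj ![Xd D e 0, Xd D e 1, Xd D e 2] := by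
        intro x y z P Q hP hQ
        have h2 : T i1 P Q 0 = x • Xd D e 0 + y • Xd D e 1 + z • Xd D e 2 := by
          unfold Xd
          rw [T_smul, T_smul, T_smul, T_add, T_add, hP, ← hQ, smul_smul, smul_smul, smul_smul,
            ← add_smul, ← add_smul]
          simp
        rw [h2]
        exact add_mem (add_mem (SMulMemClass.smul_mem _ (mem0 _ _ _))
          (SMulMemClass.smul_mem _ (mem1 _ _ _))) (SMulMemClass.smul_mem _ (mem2 _ _ _))
      fin_cases i
      · refine key 1 1 1 1 0 ?_ ?_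
        · ext a b
          fin_cases a <;> fin_cases b <;> simp [pj]
        · have : 1 * e 0 + 1 * e 1 + 1 * e 2 = 0 := by
            rw [e0, e1, e2]
            field_simp
            ring
          rw [this, zero_smul]
      · refine key (p 0) (p 1) (p 2) (diagonal p) 0 ?_ ?_
        · ext a b
          fin_cases a <;> fin_cases b <;> simp [pj]
        · have : p 0 * e 0 + p 1 * e 1 + p 2 * e 2 = 0 := by
            rw [e0, e1, e2]
            field_simp
            ring
          rw [this, zero_smul]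
      · refine key (p 0 * p 0) (p 1 * p 1) (p 2 * p 2) (diagonal p * diagonal p) D ?_ ?_
        · ext a b
          fin_cases a <;> fin_cases b <;> simp [pj]
        · have : p 0 * p 0 * e 0 + p 1 * p 1 * e 1 + p 2 * p 2 * e 2 = 1 := by
            rw [e0, e1, e2]
            field_simp
            ring
          rw [this, one_smul]
  refine axes_no h4 (w := ![e 1 * D 0 2, e 0 * D 1 2, e 0 * D 2 1]) hD ?_ ?_ ?_ ?_ ?_ ?_ rfl ?_ rfl
    ?_ rfl ?_ hX'
  · rw [e0, e1]
    field_simp
    linear_combination rel0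
  · rw [e0, e2]
    field_simp
    linear_combination -rel0
  · rw [e0, e1]
    field_simp
    linear_combination -rel1
  · rw [e1, e2]
    field_simp
    linear_combination rel1
  · rw [e0, e2]
    field_simp
    linear_combination rel2
  · rw [e1, e2]
    field_simp
    linear_combination -rel2
  · show e 1 * D 0 2 = e 2 * D 0 1
    rw [e1, e2]
    field_simp
    linear_combination rel0
  · show e 0 * D 1 2 = e 2 * D 1 0
    rw [e0, e2]
    field_simp
    linear_combination -rel1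
  · show e 0 * D 2 1 = e 1 * D 2 0
    rw [e0, e1]
    field_simp
    linear_combination rel2

theorem exM {p : Fin 3 → k} (hp : Function.Injective p) (R R' : M31 k) {P P' : M3 k}
    (hP : P = diagonal p) (hP' : P' = diagonal p * diagonal p) :
    ∃ M : M3 k, R + (M * P - P * M) * (i1 : M31 k) = 0 ∧
      R' + (M * P' - P' * M) * (i1 : M31 k) = 0 := by
  have hne : ∀ i j, i ≠ j → p j - p i ≠ 0 := fun i j hij => sub_ne_zero.2 (hp.ne hij.symm)
  have a01 := hne 0 1 (by decide)
  have a02 := hne 0 2 (by decide)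
  have a12 := hne 1 2 (by decide)
  have a10 := hne 1 0 (by decide)
  have a20 := hne 2 0 (by decide)
  have a21 := hne 2 1 (by decide)
  rw [diagonal_mul_diagonal] at hP'
  subst hP hP'
  refine ⟨!![0,
      (-R' 0 0 + (p 0 + p 2) * R 0 0) / ((p 1 - p 2) * (p 1 - p 0)),
      (-R' 0 0 + (p 0 + p 1) * R 0 0) / ((p 2 - p 1) * (p 2 - p 0));
      (-R' 1 0 + (p 1 + p 2) * R 1 0) / ((p 0 - p 2) * (p 0 - p 1)), 0,
      (-R' 1 0 + (p 1 + p 0) * R 1 0) / ((p 2 - p 0) * (p 2 - p 1));
      (-R' 2 0 + (p 2 + p 1) * R 2 0) / ((p 0 - p 1) * (p 0 - p 2)),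
      (-R' 2 0 + (p 2 + p 0) * R 2 0) / ((p 1 - p 0) * (p 1 - p 2)), 0], ?_, ?_⟩
  · ext i j
    rw [Subsingleton.elim j 0, Matrix.add_apply, Matrix.mul_apply, Fin.sum_univ_three]
    simp only [Matrix.sub_apply, mul_diagonal, diagonal_mul, i1, of_apply, mul_one,
      Matrix.zero_apply]
    fin_cases i
    · simp
      field_simp
      ring
    · simp
      field_simp
      ring
    · simp
      field_simp
      ring
  · ext i j
    rw [Subsingleton.elim j 0, Matrix.add_apply, Matrix.mul_apply, Fin.sum_univ_three]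
    simp only [Matrix.sub_apply, mul_diagonal, diagonal_mul, i1, of_apply, mul_one,
      Matrix.zero_apply]
    fin_cases i
    · simp
      field_simp
      ring
    · simp
      field_simp
      ring
    · simp
      field_simp
      ring

theorem diag_no [CharZero k] (h4 : ρ 4 = 0) {p : Fin 3 → k} (hp : Function.Injective p)
    {Q D : M3 k} {R R' : M31 k} (hT : MaxR ρ ![A4 i1, T i1 (diagonal p) Q R,
      T i1 (diagonal p * diagonal p) (diagonal p * Q + Q * diagonal p + D) R']) : False := by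
  have hne : ∀ i j, i ≠ j → p j - p i ≠ 0 := fun i j hij => sub_ne_zero.2 (hp.ne hij.symm)
  -- `Q` becomes diagonal
  set L : M3 k := Matrix.of fun i j => if i = j then 0 else -(Q i j / (p j - p i)) with hL
  have h1 := max_unip1 L hT
  have hQ : Q + L * diagonal p - diagonal p * L = diagonal fun i => Q i i := by
    ext i j
    rw [Matrix.sub_apply, Matrix.add_apply, mul_diagonal, diagonal_mul, hL, of_apply]
    by_cases hij : i = j
    · subst hij
      simp
    · rw [if_neg hij, diagonal_apply_ne _ hij]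
      have := hne i j hij
      field_simp
      ring
  have hQ' : diagonal p * Q + Q * diagonal p + D + L * (diagonal p * diagonal p) -
      diagonal p * diagonal p * L = diagonal p * (Q + L * diagonal p - diagonal p * L) +
      (Q + L * diagonal p - diagonal p * L) * diagonal p + D := by
    noncomm_ring
  rw [hQ', hQ] at h1
  obtain ⟨R₁, R₁', h1⟩ : ∃ R₁ R₁' : M31 k, MaxR ρ ![A4 i1,
      T i1 (diagonal p) (diagonal fun i => Q i i) R₁, T i1 (diagonal p * diagonal p)
        (diagonal p * diagonal (fun i => Q i i) + diagonal (fun i => Q i i) * diagonal p + D)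
        R₁'] := ⟨_, _, h1⟩
  -- `Q = 0`, the diagonal of `D` is zero
  obtain ⟨x, y, z, hxyz⟩ := vand hp fun i => Q i i
  obtain ⟨x', y', z', hxyz'⟩ := vand hp fun i => 2 * p i * Q i i + D i i
  have h2 := max_sub2 x y z x' y' z' h1
  rw [hxyz, hxyz', sub_self] at h2
  obtain ⟨D', hD'⟩ : ∃ D', D' = D - diagonal fun i => D i i := ⟨_, rfl⟩
  have hDD : ∀ i, D' i i = 0 := fun i => by rw [hD', Matrix.sub_apply, diagonal_apply_eq, sub_self]
  have e2 : (diagonal p * diagonal (fun i => Q i i) + diagonal (fun i => Q i i) * diagonal p + D -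
      diagonal fun i => 2 * p i * Q i i + D i i) = D' := by
    rw [hD']
    ext i j
    by_cases hij : i = j
    · subst hij
      simp
      ring
    · simp [hij]
  rw [e2] at h2
  obtain ⟨R₂, R₂', h2⟩ : ∃ R₂ R₂' : M31 k, MaxR ρ ![A4 i1, T i1 (diagonal p) 0 R₂,
      T i1 (diagonal p * diagonal p) D' R₂'] := ⟨_, _, h2⟩
  -- `R = R' = 0`
  obtain ⟨M, hM1, hM2⟩ := exM hp R₂ R₂' rfl rfl
  have h3 := max_unip2 M h2
  rw [hM1, hM2] at h3
  exact diag_final h4 hp hDD h3

end Pool.Agent.Lib.D13.T433
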