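import Pool.Agent.Lib.D13.T433c
import Pool.Agent.Lib.D13.T433d

/-!
# MP_5dcbc3_ag: type (4, 3, 3), the cyclic case
-/

set_option autoImplicit false

namespace Pool.Agent.Lib.D13.T433

open Matrix Pool.Agent.Lib.Q5dc Pool.Agent.Lib.D7 Pool.Agent.Lib.D8
open Pool.Agent.Lib.D9.T333Aux (D3 Cyc comp)
open Pool.Agent.Lib.D13.JetsAux (cr)

variable {k : Type*} [Field k] {ρ : ℕ → ℕ}

/-- distinct eigenvalues -/
theorem comp_no' [CharZero k] (h4 : ρ 4 = 0) {l0 l1 l2 : k} (h01 : l0 ≠ l1) (h02 : l0 ≠ l2)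
    (h12 : l1 ≠ l2) {Q D : M3 k} (hT : NF ρ ![1, 0, 0] (comp l0 l1 l2) Q D) : False := by
  set V : Matrix (Fin 3) (Fin 3) k := !![1, l0, l0 ^ 2; 1, l1, l1 ^ 2; 1, l2, l2 ^ 2] with hV
  have hdet : V.det ≠ 0 := by
    have e : V.det = (l1 - l0) * (l2 - l0) * (l2 - l1) := by
      rw [hV, Matrix.det_fin_three]
      simp
      ring
    rw [e]
    exact mul_ne_zero (mul_ne_zero (sub_ne_zero.2 h01.symm) (sub_ne_zero.2 h02.symm))
      (sub_ne_zero.2 h12.symm)
  have hg : V * V⁻¹ = 1 := Matrix.mul_nonsing_inv _ (isUnit_iff_ne_zero.2 hdet)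
  have hc : V * comp l0 l1 l2 * V⁻¹ = diagonal ![l0, l1, l2] := by
    rw [hV, D9.T333Aux.vander_comp, ← hV, mul_assoc, hg, mul_one]
    ext i j
    fin_cases i <;> fin_cases j <;> rfl
  have h := hT.conj hg (a := 1) (a' := 1) (by simp)
  rw [hc] at h
  have hv : cl ((1 : k) • V *ᵥ ![1, 0, 0]) = i1 := by
    ext i j
    fin_cases i <;> simp [cl, i1, hV, Matrix.mulVec, dotProduct, Fin.sum_univ_three]
  obtain ⟨R, R', h⟩ := h
  rw [hv] at h
  refine diag_no h4 ?_ h
  intro i j hij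
  fin_cases i <;> fin_cases j <;> simp at hij ⊢
  exacts [h01 hij, h02 hij, h01 hij.symm, h12 hij, h02 hij.symm, h12 hij.symm]

theorem comp_no [CharZero k] (h4 : ρ 4 = 0) {a b c : k} {Q D : M3 k}
    (hT : NF ρ ![1, 0, 0] (comp a b c) Q D) : False := by
  have hinf : Infinite k := CharZero.infinite k
  -- `D e_1 = P (D e_0)`
  set u : Fin 3 → k := D *ᵥ ![1, 0, 0] with hu
  set Ps : k → M3 k := fun s => comp (a + s) b (c - s) with hPs
  set Ds : k → M3 k := fun s => Matrix.of fun i j => ![u i, (Ps s *ᵥ u) i, D i 2] j with hDs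
  have hPp : ∀ i j, IsPoly fun s => Ps s i j := D9.T333Aux.isPoly_comp a b c
  have hPu : ∀ i, IsPoly fun s => (Ps s *ᵥ u) i := by
    intro i
    simp only [Matrix.mulVec, dotProduct, Fin.sum_univ_three]
    exact (((hPp i 0).mul (D7.IsPoly.const _)).add ((hPp i 1).mul (D7.IsPoly.const _))).add
      ((hPp i 2).mul (D7.IsPoly.const _))
  have hDp : ∀ i j, IsPoly fun s => Ds s i j := by
    intro i j
    fin_cases j
    · exact D7.IsPoly.const _
    · exact hPu i
    · exact D7.IsPoly.const _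
  have hP0 : Ps 0 = comp a b c := by simp [hPs]
  have he1 : ∀ s, Ps s *ᵥ ![1, 0, 0] = ![0, 1, 0] := by
    intro s
    funext i
    fin_cases i <;> simp [hPs, D9.T333Aux.comp, Matrix.mulVec, dotProduct, Fin.sum_univ_three]
  have hrel := hT.rel
  have hD0 : Ds 0 = D := by
    rw [← hu, ← hP0, he1] at hrel
    ext i j
    fin_cases j
    · simp [hDs, hu, Matrix.mulVec, dotProduct, Fin.sum_univ_three]
    · have := congrFun hrel i
      simp only [hDs]
      refine this.trans ?_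
      simp [Matrix.mulVec, dotProduct, Fin.sum_univ_three]
    · rfl
  obtain ⟨s, hs, h⟩ := hT.deform hPp hDp hP0 hD0 (fun s => by
    rw [he1]
    have e1 : Ds s *ᵥ ![1, 0, 0] = u := by
      funext i
      simp [hDs, Matrix.mulVec, dotProduct, Fin.sum_univ_three]
    have e2 : Ds s *ᵥ ![0, 1, 0] = Ps s *ᵥ u := by
      funext i
      simp [hDs, Matrix.mulVec, dotProduct, Fin.sum_univ_three]
    rw [e1, e2]) (((Set.finite_singleton (b - a)).union
    (Set.finite_singleton (c - b))).union (Set.finite_singleton ((c - a) / 2)))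
  simp only [Set.mem_union, Set.mem_singleton_iff, not_or] at hs
  obtain ⟨⟨hs2, hs3⟩, hs4⟩ := hs
  refine comp_no' h4 (l0 := a + s) (l1 := b) (l2 := c - s) ?_ ?_ ?_ h
  · intro h0
    exact hs2 (by linear_combination h0)
  · intro h0
    refine hs4 ?_
    rw [eq_div_iff two_ne_zero]
    linear_combination h0
  · intro h0
    exact hs3 (by linear_combination h0)

/-- `ι` is a cyclic vector -/
theorem cycv_no [CharZero k] [IsAlgClosed k] (h4 : ρ 4 = 0) {v : Fin 3 → k} {P Q D : M3 k}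
    (hv : Cyc P v) (hT : NF ρ v P Q D) : False := by
  obtain ⟨g, g', p, q, r, hg, hP, hw⟩ := to_comp hv
  obtain ⟨a, b, c, ha, hb, hc⟩ := D9.T333Aux.exists_roots p q r
  have h := hT.conj hg (a := 1) (a' := 1) (by simp)
  rw [hP, hw, one_smul, ha, hb, hc] at h
  exact comp_no h4 h

/-- `ι` is not an eigenvector -/
theorem ind_no [CharZero k] [IsAlgClosed k] (h4 : ρ 4 = 0) {v : Fin 3 → k} {P Q D : M3 k}
    (hv : cr v (P *ᵥ v) ≠ 0) (hT : NF ρ v P Q D) : False := by
  have hinf : Infinite k := CharZero.infinite k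
  obtain ⟨i, hi⟩ : ∃ i, cr v (P *ᵥ v) i ≠ 0 := by
    by_contra h
    push Not at h
    exact hv (funext h)
  set c := cr v (P *ᵥ v) i with hc
  set x : Fin 3 → k := Pi.single i 1 with hx
  set ε : Fin 3 → k := c⁻¹ • cr x v with hε
  have e1 : ε ⬝ᵥ v = 0 := by
    rw [hε, smul_dotProduct]
    simp [cr, dotProduct, Fin.sum_univ_three]
    right
    ring
  have e2 : ε ⬝ᵥ (P *ᵥ v) = 1 := by
    rw [hε, smul_dotProduct]
    have : cr x v ⬝ᵥ (P *ᵥ v) = c := by
      have h1 : cr x v ⬝ᵥ (P *ᵥ v) = x ⬝ᵥ cr v (P *ᵥ v) := by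
        simp only [cr, dotProduct, Fin.sum_univ_three]
        simp
        ring
      rw [h1, hx, single_dotProduct, one_mul]
    rw [this, smul_eq_mul, inv_mul_cancel₀ hi]
  have hrel := hT.rel
  set t : k := ε ⬝ᵥ (D *ᵥ v) with ht
  have hp1 : ∀ (M : M3 k) (a : k) (i j : Fin 3), IsPoly fun s : k =>
      (M + (s * a) • vecMulVec x ε) i j := by
    intro M a i j
    simp only [Matrix.add_apply, Matrix.smul_apply, smul_eq_mul]
    exact (D7.IsPoly.const _).add ((D7.IsPoly.id.mul (D7.IsPoly.const _)).mul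
      (D7.IsPoly.const _))
  have hmv : ∀ (M : M3 k) (a : k) (w : Fin 3 → k), (M + a • vecMulVec x ε) *ᵥ w =
      M *ᵥ w + (a * (ε ⬝ᵥ w)) • x := by
    intro M a w
    rw [Matrix.add_mulVec, Matrix.smul_mulVec, Matrix.vecMulVec_mulVec]
    ext l
    simp
    ring
  have hfin : {s : k | ¬ Cyc (P + (s * 1) • vecMulVec x ε) v}.Finite := by
    refine (Set.finite_singleton (-(D3 v (P *ᵥ v) (P *ᵥ (P *ᵥ v))) / c)).subset fun s hs => ?_
    have hs' : D3 v ((P + (s * 1) • vecMulVec x ε) *ᵥ v)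
        ((P + (s * 1) • vecMulVec x ε) *ᵥ ((P + (s * 1) • vecMulVec x ε) *ᵥ v)) = 0 := by
      by_contra h0
      exact hs h0
    have h1 : (P + (s * 1) • vecMulVec x ε) *ᵥ v = P *ᵥ v := by
      rw [hmv, e1, mul_zero, zero_smul, add_zero]
    have h2 : D3 v (P *ᵥ v) x = c := by
      have h4 : D3 v (P *ᵥ v) x = x ⬝ᵥ cr v (P *ᵥ v) := by
        simp only [D3, cr, dotProduct, Fin.sum_univ_three]
        simp
        ring
      rw [h4, hx, single_dotProduct, one_mul]
    rw [h1, hmv, e2] at hs'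
    have h3 : D3 v (P *ᵥ v) (P *ᵥ (P *ᵥ v) + (s * 1 * 1) • x) =
        D3 v (P *ᵥ v) (P *ᵥ (P *ᵥ v)) + s * D3 v (P *ᵥ v) x := by
      simp only [D3, Pi.add_apply, Pi.smul_apply, smul_eq_mul]
      ring
    rw [h3, h2] at hs'
    rw [Set.mem_singleton_iff, eq_div_iff hi]
    linear_combination hs'
  obtain ⟨s, hs, h⟩ := hT.deform (Ps := fun s => P + (s * 1) • vecMulVec x ε)
    (Ds := fun s => D + (s * t) • vecMulVec x ε) (hp1 P 1) (hp1 D t) (by simp) (by simp)
    (fun s => by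
      rw [hmv D, hmv P _ v, e1, mul_zero, mul_zero, zero_smul, add_zero, add_zero, hmv, hmv, e2,
        hrel, ← ht]
      congr 2
      ring) hfin
  exact cycv_no h4 (not_not.1 hs) h

/-- `ι` is an eigenvector, normal form -/
theorem eig_no' [CharZero k] [IsAlgClosed k] (h4 : ρ 4 = 0) {q r : k} {Q D : M3 k}
    (hD : D *ᵥ ![-q, -r, 1] = 0)
    (hT : NF ρ ![-q, -r, 1] !![0, 0, 0; 1, 0, q; 0, 1, r] Q D) : False := by
  have hinf : Infinite k := CharZero.infinite k
  set v : Fin 3 → k := ![-q, -r, 1] with hv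
  set P : M3 k := !![0, 0, 0; 1, 0, q; 0, 1, r] with hP
  obtain ⟨g0, g1, hg, hg'⟩ : ∃ g0 g1 : k, (g0 ≠ 0 ∨ g1 ≠ 0) ∧ D 0 0 * g0 + D 0 1 * g1 = 0 := by
    by_cases h : D 0 0 = 0
    · exact ⟨1, 0, Or.inl one_ne_zero, by rw [h]; ring⟩
    · exact ⟨D 0 1, -D 0 0, Or.inr (neg_ne_zero.2 h), by ring⟩
  set g : Fin 3 → k := ![g0, g1, 0] with hgd
  set δ : Fin 3 → k := ![(D *ᵥ g) 1, (D *ᵥ g) 2, 0] with hδ
  set ε : Fin 3 → k := ![0, 0, 1] with hε
  have ev : ε ⬝ᵥ v = 1 := by simp [hε, hv, dotProduct, Fin.sum_univ_three]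
  have eg : ε ⬝ᵥ g = 0 := by simp [hε, hgd, dotProduct, Fin.sum_univ_three]
  have ed : ε ⬝ᵥ δ = 0 := by simp [hε, hδ, dotProduct, Fin.sum_univ_three]
  have hPv : P *ᵥ v = 0 := by
    funext i
    fin_cases i <;> simp [hP, hv, Matrix.mulVec, dotProduct, Fin.sum_univ_three]
  have hPd : P *ᵥ δ = D *ᵥ g := by
    funext i
    fin_cases i
    · have : (D *ᵥ g) 0 = 0 := by
        simp only [hgd, Matrix.mulVec, dotProduct, Fin.sum_univ_three]
        simp
        exact hg'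
      refine Eq.trans ?_ this.symm
      simp [hP, hδ, Matrix.mulVec, dotProduct, Fin.sum_univ_three]
    · simp only [hP, hδ, Matrix.mulVec, dotProduct, Fin.sum_univ_three]
      simp
    · simp only [hP, hδ, Matrix.mulVec, dotProduct, Fin.sum_univ_three]
      simp
  have hp1 : ∀ (M : M3 k) (x : Fin 3 → k) (i j : Fin 3), IsPoly fun s : k =>
      (M + s • vecMulVec x ε) i j := by
    intro M x i j
    simp only [Matrix.add_apply, Matrix.smul_apply, smul_eq_mul]
    exact (D7.IsPoly.const _).add (D7.IsPoly.id.mul (D7.IsPoly.const _))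
  have hmv : ∀ (M : M3 k) (a : k) (x w : Fin 3 → k), (M + a • vecMulVec x ε) *ᵥ w =
      M *ᵥ w + (a * (ε ⬝ᵥ w)) • x := by
    intro M a x w
    rw [Matrix.add_mulVec, Matrix.smul_mulVec, Matrix.vecMulVec_mulVec]
    ext l
    simp
    ring
  obtain ⟨s, hs, h⟩ := hT.deform (Ps := fun s => P + s • vecMulVec g ε)
    (Ds := fun s => D + s • vecMulVec δ ε) (hp1 P g) (hp1 D δ) (by simp) (by simp)
    (fun s => by
      rw [hmv D, hmv P _ _ v, ev, hD, hPv, zero_add, zero_add, hmv, hmv, Matrix.mulVec_smul,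
        Matrix.mulVec_smul, dotProduct_smul, dotProduct_smul, ed, eg, smul_zero, mul_zero,
        zero_smul, zero_smul, add_zero, add_zero, hPd]) (Set.finite_singleton 0)
  refine ind_no h4 ?_ h
  rw [hmv, ev, hPv, zero_add, mul_one]
  intro h0
  have h1 := congrFun h0 0
  have h2 := congrFun h0 1
  simp [cr, hv, hgd] at h1 h2
  rcases hg with hg | hg
  · rcases h2 with h2 | h2
    exacts [hs h2, hg h2]
  · rcases h1 with h1 | h1
    exacts [hs h1, hg h1]

/-- `ι` is an eigenvector -/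
theorem eig_no [CharZero k] [IsAlgClosed k] (h4 : ρ 4 = 0) {v w : Fin 3 → k} {P Q D : M3 k}
    (hv : v ≠ 0) (hw : Cyc P w) {l : k} (hl : P *ᵥ v = l • v) (hT : NF ρ v P Q D) : False := by
  have h1 := hT.shift l
  have hw1 : Cyc (P - l • 1) w := by
    refine JetsAux.cyc_add (l := -l) ?_
    rwa [sub_sub, ← add_smul, add_neg_cancel, zero_smul, sub_zero]
  obtain ⟨g, g', p, q, r, hg, hP, -⟩ := to_comp hw1
  have hg' : g' * g = 1 := mul_eq_one_comm.1 hg
  set v1 : Fin 3 → k := g *ᵥ v with hv1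
  have hv10 : v1 ≠ 0 := by
    intro h0
    apply hv
    have : g' *ᵥ v1 = v := by rw [hv1, Matrix.mulVec_mulVec, hg', Matrix.one_mulVec]
    rw [← this, h0, Matrix.mulVec_zero]
  have hPv : !![0, 0, p; 1, 0, q; 0, 1, r] *ᵥ v1 = 0 := by
    rw [← hP, hv1, Matrix.mulVec_mulVec, mul_assoc, hg', mul_one, ← Matrix.mulVec_mulVec,
      Matrix.sub_mulVec, hl, Matrix.smul_mulVec, Matrix.one_mulVec, sub_self, Matrix.mulVec_zero]
  have a0 := congrFun hPv 0
  have a1 := congrFun hPv 1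
  have a2 := congrFun hPv 2
  simp [Matrix.mulVec, dotProduct, Fin.sum_univ_three] at a0 a1 a2
  have hv2 : v1 2 ≠ 0 := by
    intro h0
    apply hv10
    rw [h0, mul_zero, add_zero] at a1 a2
    funext i
    fin_cases i
    exacts [a1, a2, h0]
  have hp : p = 0 := a0.resolve_right hv2
  subst hp
  have h2 := h1.conj hg (a := v1 2) (a' := (v1 2)⁻¹) (mul_inv_cancel₀ hv2)
  have hvv : (v1 2)⁻¹ • v1 = ![-q, -r, 1] := by
    funext i
    rw [Pi.smul_apply, smul_eq_mul]
    fin_cases i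
    · change (v1 2)⁻¹ * v1 0 = -q
      rw [inv_mul_eq_iff_eq_mul₀ hv2]
      linear_combination a1
    · change (v1 2)⁻¹ * v1 1 = -r
      rw [inv_mul_eq_iff_eq_mul₀ hv2]
      linear_combination a2
    · exact inv_mul_cancel₀ hv2
  rw [hP, ← hv1, hvv] at h2
  set D1 : M3 k := g * D * g' with hD1
  have h3 := h2.rel
  have hPv' : !![0, 0, 0; 1, 0, q; 0, 1, r] *ᵥ ![-q, -r, 1] = (0 : Fin 3 → k) := by
    funext i
    fin_cases i <;> simp [Matrix.mulVec, dotProduct, Fin.sum_univ_three]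
  rw [hPv', Matrix.mulVec_zero] at h3
  refine eig_no' h4 ?_ (h2.sub ((D1 *ᵥ ![-q, -r, 1]) 2))
  have b1 := congrFun h3 1
  have b2 := congrFun h3 2
  rw [Matrix.sub_mulVec, Matrix.smul_mulVec, Matrix.one_mulVec]
  set y := D1 *ᵥ ![-q, -r, 1] with hy
  simp [Matrix.mulVec, dotProduct, Fin.sum_univ_three] at b1 b2
  funext i
  fin_cases i
  · change y 0 - y 2 * -q = 0
    linear_combination b1
  · change y 1 - y 2 * -r = 0
    linear_combination b2
  · change y 2 - y 2 * 1 = 0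
    ring

/-- the normal form is impossible -/
theorem nf_no [CharZero k] [IsAlgClosed k] (h4 : ρ 4 = 0) {v w : Fin 3 → k} {P Q D : M3 k}
    (hv : v ≠ 0) (hw : Cyc P w) (hT : NF ρ v P Q D) : False := by
  by_cases h : cr v (P *ᵥ v) = 0
  · obtain ⟨i, hi⟩ : ∃ i, v i ≠ 0 := by
      by_contra h'
      push Not at h'
      exact hv (funext h')
    refine eig_no h4 hv hw (l := (P *ᵥ v) i / v i) ?_ hT
    have a0 := congrFun h 0
    have a1 := congrFun h 1
    have a2 := congrFun h 2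
    set y := P *ᵥ v with hy
    simp [cr] at a0 a1 a2
    clear_value y
    funext j
    rw [Pi.smul_apply, smul_eq_mul, div_mul_eq_mul_div, eq_div_iff hi]
    fin_cases i <;> fin_cases j <;> simp <;>
      first
      | ring1
      | linear_combination a0
      | linear_combination a1
      | linear_combination a2
      | linear_combination -a0
      | linear_combination -a1
      | linear_combination -a2
  · exact ind_no h4 h hT

/-- the case where `P` has a cyclic vector -/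
theorem cyc_no [CharZero k] [IsAlgClosed k] (h4 : ρ 4 = 0) {ι : M31 k} {P Q P' Q' : M3 k}
    {R R' : M31 k} {w : Fin 3 → k} (hι : ι ≠ 0) (hw : Cyc P w)
    (hT : MaxR ρ ![A4 ι, T ι P Q R, T ι P' Q' R']) : False := by
  have hinf : Infinite k := CharZero.infinite k
  obtain ⟨g, g', p, q, r, hg, hP, hgw⟩ := to_comp hw
  have h1 := max_conj (h := 1) (h' := 1) (one_mul 1) hg hT
  rw [hP] at h1
  set C : M3 k := !![0, 0, p; 1, 0, q; 0, 1, r] with hC
  have hcyc : Cyc C ![1, 0, 0] := by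
    simp [Cyc, D3, hC, Matrix.mulVec, dotProduct, Fin.sum_univ_three]
  have hι1 : g * ι * (1 : Matrix (Fin 1) (Fin 1) k) ≠ 0 := by
    intro h0
    apply hι
    have : g' * (g * ι * (1 : Matrix (Fin 1) (Fin 1) k)) = ι := by
      rw [Matrix.mul_one, ← Matrix.mul_assoc, mul_eq_one_comm.1 hg, Matrix.one_mul]
    rw [← this, h0, Matrix.mul_zero]
  generalize g * ι * (1 : Matrix (Fin 1) (Fin 1) k) = ι1 at h1 hι1
  generalize g * Q * g' = Q1 at h1
  generalize g * P' * g' = P1 at h1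
  generalize g * Q' * g' = Q1' at h1
  generalize g * R * (1 : Matrix (Fin 1) (Fin 1) k) = R1 at h1
  generalize g * R' * (1 : Matrix (Fin 1) (Fin 1) k) = R1' at h1
  have hr := max_rel h1
  obtain ⟨s, hs, h2⟩ := max_line h1 0 0 (C * C) (C * Q1 + Q1 * C) 0 0 (fun s => by
    simp only [smul_zero, add_zero, mul_add, add_mul, mul_smul_comm, smul_mul_assoc, hr.1,
      mul_assoc]) (fun s => by
    have h3 := hr.2
    simp only [smul_zero, add_zero]
    have e1 : Q1 * (P1 + s • (C * C)) + C * (Q1' + s • (C * Q1 + Q1 * C)) =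
        (Q1 * P1 + C * Q1') + s • (Q1 * C * C + C * C * Q1 + C * Q1 * C) := by
      simp only [mul_add, mul_smul_comm, smul_add, mul_assoc]
      abel
    have e2 : (Q1' + s • (C * Q1 + Q1 * C)) * C + (P1 + s • (C * C)) * Q1 =
        (Q1' * C + P1 * Q1) + s • (Q1 * C * C + C * C * Q1 + C * Q1 * C) := by
      simp only [add_mul, smul_mul_assoc, smul_add, mul_assoc]
      abel
    rw [e1, e2, Matrix.add_mul (Q1 * P1 + C * Q1'), Matrix.add_mul (Q1' * C + P1 * Q1), h3]) (Set.finite_singleton (-P1 2 0))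
  simp only [smul_zero, add_zero] at h2
  have hN := D9.T333Aux.comm_comp hr.1.symm
  set z : k := P1 2 0 + s with hz
  have hz0 : z ≠ 0 := by
    intro h0
    exact hs (by rw [Set.mem_singleton_iff]; linear_combination h0)
  have h3 := max_lin 1 0 (-P1 1 0 / z) z⁻¹ 0 (-P1 0 0 / z) (by simpa using hz0) h2
  have e1 : (1 : k) • C + (0 : k) • (P1 + s • (C * C)) + (0 : k) • (1 : M3 k) = C := by module
  have e2 : (1 : k) • Q1 + (0 : k) • (Q1' + s • (C * Q1 + Q1 * C)) = Q1 := by module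
  have e3 : (-P1 1 0 / z) • C + z⁻¹ • (P1 + s • (C * C)) + (-P1 0 0 / z) • (1 : M3 k) = C * C := by
    have : (C * C) = z⁻¹ • (z • (C * C)) := by rw [smul_smul, inv_mul_cancel₀ hz0, one_smul]
    rw [this]
    have e4 : (-P1 1 0 / z) • C = z⁻¹ • (-P1 1 0 • C) := by
      rw [smul_smul]
      congr 1
      ring
    have e5 : (-P1 0 0 / z) • (1 : M3 k) = z⁻¹ • (-P1 0 0 • (1 : M3 k)) := by
      rw [smul_smul]
      congr 1
      ring
    rw [e4, e5, ← smul_add, ← smul_add]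
    congr 1
    have hN' : P1 = P1 0 0 • (1 : M3 k) + P1 1 0 • C + P1 2 0 • (C * C) := hN
    nth_rewrite 2 [hN']
    rw [← this, hz]
    module
  rw [e1, e2, e3] at h3
  set Q2 : M3 k := (-P1 1 0 / z) • Q1 + z⁻¹ • (Q1' + s • (C * Q1 + Q1 * C)) with hQ2
  have h5 : NF ρ (fun i => ι1 i 0) C Q1 (Q2 - (C * Q1 + Q1 * C)) := by
    refine ⟨(1 : k) • R1 + (0 : k) • R1', (-P1 1 0 / z) • R1 + z⁻¹ • R1', ?_⟩
    rw [add_sub_cancel, ← eq_cl]
    exact h3
  refine nf_no h4 ?_ hcyc h5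
  intro h0
  apply hι1
  refine (eq_cl ι1).trans ?_
  rw [h0]
  rfl

/-- the type `(4, 3, 3)` in the block form is impossible -/
theorem block_no [CharZero k] [IsAlgClosed k] (h4 : ρ 4 = 0) {ι : M31 k} {P Q P' Q' : M3 k}
    {R R' : M31 k} (hι : ι ≠ 0) (hT : MaxR ρ ![A4 ι, T ι P Q R, T ι P' Q' R']) : False := by
  have hinf : Infinite k := CharZero.infinite k
  refine jets (B := fun ι P Q P' Q' => ι ≠ 0 ∧ ∃ R R' : M31 k,
    MaxR ρ ![A4 ι, T ι P Q R, T ι P' Q' R']) ?_ ⟨hι, R, R', hT⟩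
  refine ⟨?_, ?_, ?_, ?_, ?_⟩
  · rintro ι P Q P' Q' ⟨-, R, R', h⟩
    exact max_rel h
  · rintro g g' hg ι P Q P' Q' ⟨hι, R, R', h⟩
    refine ⟨?_, g * R, g * R', ?_⟩
    · intro h0
      apply hι
      have : g' * (g * ι) = ι := by
        rw [← Matrix.mul_assoc, mul_eq_one_comm.1 hg, Matrix.one_mul]
      rw [← this, h0, Matrix.mul_zero]
    · have h1 := max_conj (h := 1) (h' := 1) (one_mul 1) hg h
      simpa only [Matrix.mul_one] using h1
  · rintro a b c d x z hd ι P Q P' Q' ⟨hι, R, R', h⟩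
    exact ⟨hι, _, _, max_lin a b c d x z hd h⟩
  · rintro ι P Q P' Q' ⟨hι, R, R', h⟩ P1 Q1 P1' Q1' h1 h2 F hF
    obtain ⟨s, hs, h3⟩ := max_line h P1 Q1 P1' Q1' 0 0 h1 h2 hF
    exact ⟨s, hs, hι, _, _, h3⟩
  · rintro ι P Q P' Q' v hv ⟨hι, R, R', h⟩
    exact cyc_no h4 hι hv h

end Pool.Agent.Lib.D13.T433
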