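import Pool.Agent.Lib.D13.Frame
import Pool.Agent.Lib.D13.T433b
import Pool.Agent.Lib.D13.T433e

/-!
# MP_5dcbc3_ag: the type `(4, 3, 3)` is not bad
-/

set_option autoImplicit false

namespace Pool.Agent.Lib.D13

open Matrix Pool.Agent.Lib.Q5dc Pool.Agent.Lib.D7 T433

theorem no_433 {k : Type*} [Field k] [IsAlgClosed k] [CharZero k] {ρ : ℕ → ℕ}
    {T : Fin 3 → Matrix I4 I4 k} (hT : MaxR ρ T) (hρ : ∀ i, ρ i = (JJ k ^ i).rank)
    (h0 : T 0 = JJ k) : False := by
  have hA2 : JJ k ^ 2 = G 0 (i0 k) 0 0 1 0 := by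
    rw [pow_two]
    simp only [JJ, A4, T433.T, G_mul]
    congr 1 <;> simp
  have h4 : ρ 4 = 0 := by
    have : JJ k ^ 4 = 0 := by
      rw [show (4 : ℕ) = 2 + 2 from rfl, pow_add, hA2, G_mul]
      simp [G_zero]
    rw [hρ, this, Matrix.rank_zero]
  have h3 : ρ 3 = 1 := by
    have e : JJ k ^ 3 = G 0 0 (i0 k) 0 0 0 := by
      rw [pow_succ, hA2]
      simp only [JJ, A4, T433.T, G_mul]
      congr 1 <;> simp
    have e2 : G 0 0 (i0 k) 0 0 0 = vecMulVec
        (fun i => match i with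
          | .inr (.inr (.inr i)) => if i = 0 then 1 else 0
          | _ => 0)
        (fun i => match i with
          | .inl _ => 1
          | _ => 0) := by
      ext i j
      rcases i with i | i | i | i <;> rcases j with j | j | j | j <;>
        simp [G, vecMulVec_apply]
      fin_cases i <;> simp [i0]
    rw [hρ, e, e2]
    refine le_antisymm (Matrix.rank_vecMulVec_le _ _) (Nat.one_le_iff_ne_zero.2 fun h => ?_)
    rw [Matrix.rank, Submodule.finrank_eq_zero, LinearMap.range_eq_bot] at h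
    have := congrFun (LinearMap.congr_fun h (Pi.single (.inl 0) 1)) (.inr (.inr (.inr 0)))
    simp at this
    rw [vecMulVec_apply] at this
    simp at this
  have hT' : T = ![JJ k, T 1, T 2] := by
    funext i
    fin_cases i
    · exact h0
    · rfl
    · rfl
  rw [hT'] at hT
  obtain ⟨P, Q, R, P', Q', R', h⟩ := shape h4 h3 hT
  refine block_no h4 (fun h0 => ?_) h
  have := congrFun (congrFun h0 0) 0
  simp at this

variable {k : Type*} [Field k] [IsAlgClosed k] [CharZero k]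

theorem not_bad_433 : ¬ Bad k [4, 3, 3] := by
  have : Infinite k := IsAlgClosed.instInfinite
  refine not_bad_of (JJ k)
    (Sum.elim ![⟨0, (0 : Fin 4)⟩]
      (Sum.elim ![⟨0, (1 : Fin 4)⟩, ⟨1, (0 : Fin 3)⟩, ⟨2, (0 : Fin 3)⟩]
      (Sum.elim ![⟨0, (2 : Fin 4)⟩, ⟨1, (1 : Fin 3)⟩, ⟨2, (1 : Fin 3)⟩]
      ![⟨0, (3 : Fin 4)⟩, ⟨1, (2 : Fin 3)⟩, ⟨2, (2 : Fin 3)⟩])))
    (by decide) (by decide) ?_ fun ρ T hT hρ h0 => no_433 hT hρ h0
  rintro (i | i | i | i) (j | j | j | j) <;> fin_cases i <;> fin_cases j <;>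
    simp [JJ, A4, T433.T, G, i0] <;> rfl

end Pool.Agent.Lib.D13
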