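import Pool.Agent.Lib.D13.Lift
import Pool.Agent.Lib.D8.UtilB

/-!
# MP_5dcbc3_ag: type (4, 3, 3, 1), block matrices

Levels `k`, `L = k ^ 3`, `L ⊕ k p`, `L`.  `BM i D` (`D = (P, Q, w, h, o, R)`) maps
* level 0 to `(P i, (Q i, o), R)`,
* level 1 to level 2 by `(P, w)` and to level 3 by `Q`,
* level 2 to level 3 by `(P, h)`.
The first matrix is `X i = BM i (1, 0, 0, 0, 0, 0)`.  Everything here is for arbitrary `i`.
-/

set_option autoImplicit false

namespace Pool.Agent.Lib.D13.T4331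

open Matrix Pool.Agent.Lib.Q5dc Pool.Agent.Lib.D7 Pool.Agent.Lib.D8

variable {k : Type*} [Field k]

abbrev Ix := Fin 1 ⊕ (Fin 3 ⊕ ((Fin 3 ⊕ Fin 1) ⊕ Fin 3))
abbrev V3 (k : Type*) := Fin 3 → k
abbrev M3 (k : Type*) := Matrix (Fin 3) (Fin 3) k

/-- block strictly lower triangular matrices -/
def G (a10 a20 : V3 k) (o : k) (a30 : V3 k) (a21 : M3 k) (w : V3 k) (a31 a32 : M3 k) (h : V3 k) :
    Matrix Ix Ix k :=
  Matrix.of fun a b => match a, b with
  | .inr (.inl a), .inl _ => a10 a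
  | .inr (.inr (.inl (.inl a))), .inl _ => a20 a
  | .inr (.inr (.inl (.inr _))), .inl _ => o
  | .inr (.inr (.inr a)), .inl _ => a30 a
  | .inr (.inr (.inl (.inl a))), .inr (.inl b) => a21 a b
  | .inr (.inr (.inl (.inr _))), .inr (.inl b) => w b
  | .inr (.inr (.inr a)), .inr (.inl b) => a31 a b
  | .inr (.inr (.inr a)), .inr (.inr (.inl (.inl b))) => a32 a b
  | .inr (.inr (.inr a)), .inr (.inr (.inl (.inr _))) => h a
  | _, _ => 0

theorem G_mul (a10 a20 a30 b10 b20 b30 w w' h h' : V3 k) (o o' : k)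
    (a21 a31 a32 b21 b31 b32 : M3 k) :
    G a10 a20 o a30 a21 w a31 a32 h * G b10 b20 o' b30 b21 w' b31 b32 h' =
      G 0 (a21 *ᵥ b10) (w ⬝ᵥ b10) (a31 *ᵥ b10 + a32 *ᵥ b20 + o' • h) 0 0
        (a32 * b21 + vecMulVec h w') 0 0 := by
  ext i j
  rcases i with i | i | (i | i) | i <;> rcases j with j | j | (j | j) | j <;>
    simp [G, Matrix.mul_apply, Fintype.sum_sum_type, Matrix.mulVec, dotProduct, vecMulVec_apply] <;>
    ring

theorem G_add (a10 a20 a30 b10 b20 b30 w w' h h' : V3 k) (o o' : k)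
    (a21 a31 a32 b21 b31 b32 : M3 k) :
    G a10 a20 o a30 a21 w a31 a32 h + G b10 b20 o' b30 b21 w' b31 b32 h' =
      G (a10 + b10) (a20 + b20) (o + o') (a30 + b30) (a21 + b21) (w + w') (a31 + b31)
        (a32 + b32) (h + h') := by
  ext i j
  rcases i with i | i | (i | i) | i <;> rcases j with j | j | (j | j) | j <;> simp [G]

theorem G_smul (s : k) (a10 a20 a30 w h : V3 k) (o : k) (a21 a31 a32 : M3 k) :
    s • G a10 a20 o a30 a21 w a31 a32 h =
      G (s • a10) (s • a20) (s * o) (s • a30) (s • a21) (s • w) (s • a31) (s • a32) (s • h) := by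
  ext i j
  rcases i with i | i | (i | i) | i <;> rcases j with j | j | (j | j) | j <;> simp [G]

theorem G_zero : G (0 : V3 k) 0 0 0 0 0 0 0 0 = 0 := by
  ext i j
  rcases i with i | i | (i | i) | i <;> rcases j with j | j | (j | j) | j <;> simp [G]

theorem G_inj {a10 a20 a30 b10 b20 b30 w w' h h' : V3 k} {o o' : k}
    {a21 a31 a32 b21 b31 b32 : M3 k}
    (H : G a10 a20 o a30 a21 w a31 a32 h = G b10 b20 o' b30 b21 w' b31 b32 h') :
    a10 = b10 ∧ a20 = b20 ∧ o = o' ∧ a30 = b30 ∧ a21 = b21 ∧ w = w' ∧ a31 = b31 ∧ a32 = b32 ∧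
      h = h' := by
  have H := fun i j => congrFun (congrFun H i) j
  refine ⟨?_, ?_, ?_, ?_, ?_, ?_, ?_, ?_, ?_⟩
  · ext i; exact H (.inr (.inl i)) (.inl 0)
  · ext i; exact H (.inr (.inr (.inl (.inl i)))) (.inl 0)
  · exact H (.inr (.inr (.inl (.inr 0)))) (.inl 0)
  · ext i; exact H (.inr (.inr (.inr i))) (.inl 0)
  · ext i j; exact H (.inr (.inr (.inl (.inl i)))) (.inr (.inl j))
  · ext j; exact H (.inr (.inr (.inl (.inr 0)))) (.inr (.inl j))
  · ext i j; exact H (.inr (.inr (.inr i))) (.inr (.inl j))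
  · ext i j; exact H (.inr (.inr (.inr i))) (.inr (.inr (.inl (.inl j))))
  · ext i; exact H (.inr (.inr (.inr i))) (.inr (.inr (.inl (.inr 0))))

theorem G_ext {a10 a20 a30 b10 b20 b30 w w' h h' : V3 k} {o o' : k}
    {a21 a31 a32 b21 b31 b32 : M3 k} (h1 : a10 = b10) (h2 : a20 = b20) (h3 : o = o')
    (h4 : a30 = b30) (h5 : a21 = b21) (h6 : w = w') (h7 : a31 = b31) (h8 : a32 = b32)
    (h9 : h = h') :
    G a10 a20 o a30 a21 w a31 a32 h = G b10 b20 o' b30 b21 w' b31 b32 h' := by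
  rw [h1, h2, h3, h4, h5, h6, h7, h8, h9]

theorem G_nil (a10 a20 a30 w h : V3 k) (o : k) (a21 a31 a32 : M3 k) :
    IsNilpotent (G a10 a20 o a30 a21 w a31 a32 h) := by
  refine ⟨4, ?_⟩
  rw [show (4 : ℕ) = 2 + 2 from rfl, pow_add, pow_two, G_mul, G_mul]
  simp [G_zero]

/-- the data of a matrix commuting with `X i` (up to `w ⬝ᵥ i = 0`) -/
@[ext]
structure Dt (k : Type*) where
  P : M3 k
  Q : M3 k
  w : V3 k
  h : V3 k
  o : k
  R : V3 k

namespace Dt

instance : Zero (Dt k) := ⟨⟨0, 0, 0, 0, 0, 0⟩⟩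
instance : One (Dt k) := ⟨⟨1, 0, 0, 0, 0, 0⟩⟩
instance : Add (Dt k) := ⟨fun D E => ⟨D.P + E.P, D.Q + E.Q, D.w + E.w, D.h + E.h, D.o + E.o,
  D.R + E.R⟩⟩
instance : SMul k (Dt k) := ⟨fun s D => ⟨s • D.P, s • D.Q, s • D.w, s • D.h, s * D.o, s • D.R⟩⟩

@[simp] theorem add_P (D E : Dt k) : (D + E).P = D.P + E.P := rfl
@[simp] theorem add_Q (D E : Dt k) : (D + E).Q = D.Q + E.Q := rfl
@[simp] theorem add_w (D E : Dt k) : (D + E).w = D.w + E.w := rfl
@[simp] theorem add_h (D E : Dt k) : (D + E).h = D.h + E.h := rfl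
@[simp] theorem add_o (D E : Dt k) : (D + E).o = D.o + E.o := rfl
@[simp] theorem add_R (D E : Dt k) : (D + E).R = D.R + E.R := rfl
@[simp] theorem smul_P (s : k) (D : Dt k) : (s • D).P = s • D.P := rfl
@[simp] theorem smul_Q (s : k) (D : Dt k) : (s • D).Q = s • D.Q := rfl
@[simp] theorem smul_w (s : k) (D : Dt k) : (s • D).w = s • D.w := rfl
@[simp] theorem smul_h (s : k) (D : Dt k) : (s • D).h = s • D.h := rfl
@[simp] theorem smul_o (s : k) (D : Dt k) : (s • D).o = s * D.o := rfl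
@[simp] theorem smul_R (s : k) (D : Dt k) : (s • D).R = s • D.R := rfl
@[simp] theorem one_P : (1 : Dt k).P = 1 := rfl
@[simp] theorem one_Q : (1 : Dt k).Q = 0 := rfl
@[simp] theorem one_w : (1 : Dt k).w = 0 := rfl
@[simp] theorem one_h : (1 : Dt k).h = 0 := rfl
@[simp] theorem one_o : (1 : Dt k).o = 0 := rfl
@[simp] theorem one_R : (1 : Dt k).R = 0 := rfl
@[simp] theorem zero_P : (0 : Dt k).P = 0 := rfl
@[simp] theorem zero_Q : (0 : Dt k).Q = 0 := rfl
@[simp] theorem zero_w : (0 : Dt k).w = 0 := rfl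
@[simp] theorem zero_h : (0 : Dt k).h = 0 := rfl
@[simp] theorem zero_o : (0 : Dt k).o = 0 := rfl
@[simp] theorem zero_R : (0 : Dt k).R = 0 := rfl

end Dt

/-- the matrices commuting with `X i` -/
def BM (i : V3 k) (D : Dt k) : Matrix Ix Ix k :=
  G (D.P *ᵥ i) (D.Q *ᵥ i) D.o D.R D.P D.w D.Q D.P D.h

/-- the first matrix -/
abbrev X (i : V3 k) : Matrix Ix Ix k := BM i 1

/-- the triple -/
abbrev T (i : V3 k) (D E : Dt k) : Fin 3 → Matrix Ix Ix k := ![X i, BM i D, BM i E]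

theorem BM_mul (i : V3 k) (D E : Dt k) : BM i D * BM i E =
    G 0 (D.P *ᵥ (E.P *ᵥ i)) (D.w ⬝ᵥ (E.P *ᵥ i))
      (D.Q *ᵥ (E.P *ᵥ i) + D.P *ᵥ (E.Q *ᵥ i) + E.o • D.h) 0 0
      (D.P * E.P + vecMulVec D.h E.w) 0 0 := by
  unfold BM
  rw [G_mul]

theorem BM_add (i : V3 k) (D E : Dt k) : BM i D + BM i E = BM i (D + E) := by
  unfold BM
  rw [G_add]
  simp only [Dt.add_P, Dt.add_Q, Dt.add_w, Dt.add_h, Dt.add_o, Dt.add_R, Matrix.add_mulVec]

theorem BM_smul (i : V3 k) (s : k) (D : Dt k) : s • BM i D = BM i (s • D) := by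
  unfold BM
  rw [G_smul]
  simp only [Dt.smul_P, Dt.smul_Q, Dt.smul_w, Dt.smul_h, Dt.smul_o, Dt.smul_R, Matrix.smul_mulVec]

theorem BM_nil (i : V3 k) (D : Dt k) : IsNilpotent (BM i D) := G_nil ..

/-- the relations -/
structure Rel (i : V3 k) (D E : Dt k) : Prop where
  wi : D.w ⬝ᵥ i = 0
  wi' : E.w ⬝ᵥ i = 0
  al : D.P * E.P + vecMulVec D.h E.w = E.P * D.P + vecMulVec E.h D.w
  be : D.w ⬝ᵥ (E.P *ᵥ i) = E.w ⬝ᵥ (D.P *ᵥ i)
  ga : D.Q *ᵥ (E.P *ᵥ i) + D.P *ᵥ (E.Q *ᵥ i) + E.o • D.h =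
    E.Q *ᵥ (D.P *ᵥ i) + E.P *ᵥ (D.Q *ᵥ i) + D.o • E.h

theorem vm (h w i : V3 k) : vecMulVec h w *ᵥ i = (w ⬝ᵥ i) • h := by
  ext j
  simp [Matrix.mulVec, dotProduct, vecMulVec_apply, Finset.mul_sum, mul_comm, mul_left_comm]

/-- `P P' i = P' P i` follows from the other relations -/
theorem al0 {i : V3 k} {P P' : M3 k} {w w' h h' : V3 k} (wi : w ⬝ᵥ i = 0) (wi' : w' ⬝ᵥ i = 0)
    (al : P * P' + vecMulVec h w' = P' * P + vecMulVec h' w) :
    P *ᵥ (P' *ᵥ i) = P' *ᵥ (P *ᵥ i) := by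
  have := congrArg (fun M : M3 k => M *ᵥ i) al
  simpa [Matrix.add_mulVec, vm, wi, wi', Matrix.mulVec_mulVec] using this

theorem comm_iff {i : V3 k} {D E : Dt k} (wi : D.w ⬝ᵥ i = 0) (wi' : E.w ⬝ᵥ i = 0) :
    BM i D * BM i E = BM i E * BM i D ↔ Rel i D E := by
  rw [BM_mul, BM_mul]
  constructor
  · intro h
    obtain ⟨-, -, h1, h2, -, -, h3, -, -⟩ := G_inj h
    exact ⟨wi, wi', h3, h1, h2⟩
  · rintro ⟨-, -, h3, h1, h2⟩
    rw [h1, h2, h3, al0 wi wi' h3]

theorem commX_iff {i : V3 k} {D : Dt k} : X i * BM i D = BM i D * X i ↔ D.w ⬝ᵥ i = 0 := by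
  rw [BM_mul, BM_mul]
  constructor
  · intro h
    obtain ⟨-, -, h1, -, -, -, -, -, -⟩ := G_inj h
    simpa using h1.symm
  · intro h
    simp [h, vecMulVec]

theorem cn_iff {i : V3 k} {D E : Dt k} : CN (T i D E) ↔ Rel i D E := by
  constructor
  · intro h
    have h1 := commX_iff.1 (h.1 0 1)
    have h2 := commX_iff.1 (h.1 0 2)
    exact (comm_iff h1 h2).1 (h.1 1 2)
  · intro h
    exact cn3 (commX_iff.2 h.wi) (commX_iff.2 h.wi') ((comm_iff h.wi h.wi').2 h) (BM_nil _ _)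
      (BM_nil _ _) (BM_nil _ _)

theorem Rel.symm {i : V3 k} {D E : Dt k} (h : Rel i D E) : Rel i E D :=
  ⟨h.wi', h.wi, h.al.symm, h.be.symm, h.ga.symm⟩

variable {ρ : ℕ → ℕ}

theorem max_rel {i : V3 k} {D E : Dt k} (hT : MaxR ρ (T i D E)) : Rel i D E := cn_iff.1 hT.cn

/-! ### polynomial families -/

/-- polynomial families of data -/
structure PD (D : k → Dt k) : Prop where
  P : ∀ a b, IsPoly fun s => (D s).P a b
  Q : ∀ a b, IsPoly fun s => (D s).Q a b
  w : ∀ a, IsPoly fun s => (D s).w a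
  h : ∀ a, IsPoly fun s => (D s).h a
  o : IsPoly fun s => (D s).o
  R : ∀ a, IsPoly fun s => (D s).R a

theorem isPoly_mulVec {A : k → M3 k} {v : k → V3 k} (hA : ∀ a b, IsPoly fun s => A s a b)
    (hv : ∀ a, IsPoly fun s => v s a) (a : Fin 3) : IsPoly fun s => (A s *ᵥ v s) a := by
  simp only [Matrix.mulVec, dotProduct]
  exact isPoly_sum _ fun b _ => (hA a b).mul (hv b)

theorem isPoly_dot {u v : k → V3 k} (hu : ∀ a, IsPoly fun s => u s a)
    (hv : ∀ a, IsPoly fun s => v s a) : IsPoly fun s => u s ⬝ᵥ v s := by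
  simp only [dotProduct]
  exact isPoly_sum _ fun b _ => (hu b).mul (hv b)

theorem isPoly_mul3 {A B : k → M3 k} (hA : ∀ a b, IsPoly fun s => A s a b)
    (hB : ∀ a b, IsPoly fun s => B s a b) (a b : Fin 3) : IsPoly fun s => (A s * B s) a b :=
  isPoly_mul hA hB a b

theorem polyFam_T {i : k → V3 k} {D E : k → Dt k} (hi : ∀ a, IsPoly fun s => i s a) (hD : PD D)
    (hE : PD E) : PolyFam fun s => T (i s) (D s) (E s) := by
  have key : ∀ {D : k → Dt k}, PD D → ∀ x y, IsPoly fun s => BM (i s) (D s) x y := by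
    intro D hD x y
    rcases x with x | x | (x | x) | x <;> rcases y with y | y | (y | y) | y <;>
      first
        | exact D7.IsPoly.const (0 : k)
        | exact isPoly_mulVec hD.P hi x
        | exact isPoly_mulVec hD.Q hi x
        | exact hD.o
        | exact hD.R x
        | exact hD.P x y
        | exact hD.w y
        | exact hD.Q x y
        | exact hD.h x
  have h1 : PD fun _ : k => (1 : Dt k) :=
    ⟨fun _ _ => D7.IsPoly.const _, fun _ _ => D7.IsPoly.const _, fun _ => D7.IsPoly.const _,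
      fun _ => D7.IsPoly.const _, D7.IsPoly.const _, fun _ => D7.IsPoly.const _⟩
  intro j x y
  fin_cases j
  · exact key h1 x y
  · exact key hD x y
  · exact key hE x y

theorem move [Infinite k] {i : V3 k} {D E : Dt k} (hT : MaxR ρ (T i D E)) (i' : k → V3 k)
    (D' E' : k → Dt k) (hi : ∀ a, IsPoly fun s => i' s a) (hD : PD D') (hE : PD E')
    (hi0 : i' 0 = i) (hD0 : D' 0 = D) (hE0 : E' 0 = E) {F : Set k} (hF : F.Finite)
    (hR : ∀ s ∉ F, Rel (i' s) (D' s) (E' s)) :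
    ∃ F' : Set k, F'.Finite ∧ ∀ s ∉ F', MaxR ρ (T (i' s) (D' s) (E' s)) :=
  hT.deform (fun s => T (i' s) (D' s) (E' s)) (polyFam_T hi hD hE)
    (by simp only [hi0, hD0, hE0]) hF fun s hs => cn_iff.2 (hR s hs)

/-! ### changes of the generators -/

theorem max_lin (a b c d x z : k) (hd : a * d - b * c ≠ 0) {i : V3 k} {D E : Dt k}
    (hT : MaxR ρ (T i D E)) :
    MaxR ρ (T i (a • D + b • E + x • 1) (c • D + d • E + z • 1)) := by
  have h := MaxR.lin hT a b c d x 0 z 0 hd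
  have e : ∀ a b x : k, a • BM i D + b • BM i E + x • X i + (0 : k) • (X i * X i) =
      BM i (a • D + b • E + x • 1) := by
    intro a b x
    rw [zero_smul, add_zero, BM_smul, BM_smul, BM_smul, BM_add, BM_add]
  rw [e, e] at h
  exact h

theorem max_swap {i : V3 k} {D E : Dt k} (hT : MaxR ρ (T i D E)) : MaxR ρ (T i E D) :=
  MaxR.swap hT

/-! ### block diagonal changes of basis -/

/-- `t` on level 0, `g` on `L` (levels 1, 2, 3), `c` on `p` -/
def Dg (t : k) (g : M3 k) (c : k) : Matrix Ix Ix k :=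
  Matrix.of fun a b => match a, b with
  | .inl _, .inl _ => t
  | .inr (.inl a), .inr (.inl b) => g a b
  | .inr (.inr (.inl (.inl a))), .inr (.inr (.inl (.inl b))) => g a b
  | .inr (.inr (.inl (.inr _))), .inr (.inr (.inl (.inr _))) => c
  | .inr (.inr (.inr a)), .inr (.inr (.inr b)) => g a b
  | _, _ => 0

theorem Dg_mul (t t' c c' : k) (g g' : M3 k) :
    Dg t g c * Dg t' g' c' = Dg (t * t') (g * g') (c * c') := by
  ext i j
  rcases i with i | i | (i | i) | i <;> rcases j with j | j | (j | j) | j <;>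
    simp [Dg, Matrix.mul_apply, Fintype.sum_sum_type]

theorem Dg_one : Dg (1 : k) (1 : M3 k) 1 = 1 := by
  ext i j
  rcases i with i | i | (i | i) | i <;> rcases j with j | j | (j | j) | j <;>
    first
      | (simp [Dg, Matrix.one_apply]; done)
      | (simp [Dg, Matrix.one_apply]; exact Subsingleton.elim _ _)

theorem Dg_G (t c : k) (g : M3 k) (a10 a20 a30 w h : V3 k) (o : k) (a21 a31 a32 : M3 k) :
    Dg t g c * G a10 a20 o a30 a21 w a31 a32 h =
      G (g *ᵥ a10) (g *ᵥ a20) (c * o) (g *ᵥ a30) (g * a21) (c • w) (g * a31) (g * a32)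
        (g *ᵥ h) := by
  ext i j
  rcases i with i | i | (i | i) | i <;> rcases j with j | j | (j | j) | j <;>
    simp [Dg, G, Matrix.mul_apply, Fintype.sum_sum_type, Matrix.mulVec, dotProduct]

theorem G_Dg (t c : k) (g : M3 k) (a10 a20 a30 w h : V3 k) (o : k) (a21 a31 a32 : M3 k) :
    G a10 a20 o a30 a21 w a31 a32 h * Dg t g c =
      G (t • a10) (t • a20) (t * o) (t • a30) (a21 * g) (w ᵥ* g) (a31 * g) (a32 * g)
        (c • h) := by
  ext i j
  rcases i with i | i | (i | i) | i <;> rcases j with j | j | (j | j) | j <;>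
    simp [Dg, G, Matrix.mul_apply, Fintype.sum_sum_type, Matrix.vecMul, dotProduct, mul_comm]

/-- the data after the change of basis (`g'` inverse to `g`) -/
def Dt.cj (t' : k) (g g' : M3 k) (c c' : k) (D : Dt k) : Dt k :=
  ⟨g * D.P * g', g * D.Q * g', c • (D.w ᵥ* g'), c' • (g *ᵥ D.h), c * t' * D.o, t' • (g *ᵥ D.R)⟩

theorem conjBM {t t' c c' : k} {g g' : M3 k} (hg : g' * g = 1) (i : V3 k) (D : Dt k) :
    Dg t g c * BM i D * Dg t' g' c' = BM (t' • (g *ᵥ i)) (D.cj t' g g' c c') := by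
  unfold BM Dt.cj
  rw [Dg_G, G_Dg]
  have e : ∀ X : M3 k, t' • (g *ᵥ (X *ᵥ i)) = (g * X * g') *ᵥ (t' • (g *ᵥ i)) := by
    intro X
    rw [Matrix.mulVec_smul, Matrix.mulVec_mulVec, Matrix.mulVec_mulVec]
    congr 2
    rw [Matrix.mul_assoc (g * X), hg, Matrix.mul_one]
  refine G_ext (e _) (e _) (by ring) rfl rfl ?_ rfl rfl rfl
  rw [Matrix.smul_vecMul]

theorem max_conj {t t' c c' : k} {g g' : M3 k} (ht : t * t' = 1) (hc : c * c' = 1)
    (hg : g * g' = 1) {i : V3 k} {D E : Dt k} (hT : MaxR ρ (T i D E)) :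
    MaxR ρ (T (t' • (g *ᵥ i)) (D.cj t' g g' c c') (E.cj t' g g' c c')) := by
  have hg' : g' * g = 1 := mul_eq_one_comm.1 hg
  have ht' : t' * t = 1 := by rw [mul_comm]; exact ht
  have hc' : c' * c = 1 := by rw [mul_comm]; exact hc
  have h1 := hT.conj (Dg t g c) (Dg t' g' c') (by rw [Dg_mul, ht, hg, hc, Dg_one])
    (by rw [Dg_mul, ht', hg', hc', Dg_one])
  have h2 : (fun j => Dg t g c * (T i D E) j * Dg t' g' c') =
      T (t' • (g *ᵥ i)) (D.cj t' g g' c c') (E.cj t' g g' c c') := by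
    funext j
    fin_cases j
    · refine (conjBM hg' i 1).trans ?_
      change BM _ _ = BM _ _
      congr 1
      ext <;> simp [Dt.cj, hg]
    · exact conjBM hg' ..
    · exact conjBM hg' ..
  rwa [h2] at h1

end Pool.Agent.Lib.D13.T4331
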