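import Pool.Agent.Lib.D13.T4331a

/-!
# MP_5dcbc3_ag: type (4, 3, 3, 1), graded data

`MG ρ i P P' w w' h h'` : some triple with this graded part is maximal bad.  If `P i` (or `P' i`) is
not a multiple of `i`, every polynomial path of graded data satisfying the graded relations `Gr`
can be followed (`MG.move`).  `MZ ρ i P P' w w' h h' a a' o o'` : the same for `P i = P' i = 0`,
with `a = Q i`, `a' = Q' i` (`MZ.move`).
-/

set_option autoImplicit false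

namespace Pool.Agent.Lib.D13.T4331

open Matrix Pool.Agent.Lib.Q5dc Pool.Agent.Lib.D7 Pool.Agent.Lib.D8

variable {k : Type*} [Field k] {ρ : ℕ → ℕ}

theorem tail {V : Type*} [AddCommGroup V] [Module k V] {f : k → V} (hf : PolyV f) :
    ∃ e : k → V, PolyV e ∧ ∀ s, f s = f 0 + s • e s := by
  obtain ⟨d, a, h⟩ := hf
  rcases d with _ | d
  · exact ⟨fun _ => 0, PolyV.zero, fun s => by simp [h]⟩
  · refine ⟨fun s => ∑ i ∈ Finset.range d, s ^ i • a (i + 1), ⟨d, fun i => a (i + 1), fun s => rfl⟩,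
      fun s => ?_⟩
    rw [h s, h 0, Finset.sum_range_succ', Finset.sum_range_succ' (n := d) (f := fun i => 0 ^ i • a i)]
    have e1 : ∑ i ∈ Finset.range d, (0 : k) ^ (i + 1) • a (i + 1) = 0 :=
      Finset.sum_eq_zero fun i _ => by rw [zero_pow (by omega), zero_smul]
    rw [e1, zero_add, Finset.smul_sum]
    simp only [pow_zero, pow_succ', mul_smul]
    rw [add_comm]

/-- the graded relations -/
structure Gr (i : V3 k) (P P' : M3 k) (w w' h h' : V3 k) : Prop where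
  wi : w ⬝ᵥ i = 0
  wi' : w' ⬝ᵥ i = 0
  al : P * P' + vecMulVec h w' = P' * P + vecMulVec h' w
  be : w ⬝ᵥ (P' *ᵥ i) = w' ⬝ᵥ (P *ᵥ i)

theorem Gr.symm {i : V3 k} {P P' : M3 k} {w w' h h' : V3 k} (g : Gr i P P' w w' h h') :
    Gr i P' P w' w h' h := ⟨g.wi', g.wi, g.al.symm, g.be.symm⟩

theorem Gr.al0 {i : V3 k} {P P' : M3 k} {w w' h h' : V3 k} (g : Gr i P P' w w' h h') :
    P *ᵥ (P' *ᵥ i) = P' *ᵥ (P *ᵥ i) := T4331.al0 g.wi g.wi' g.al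

theorem Gr.refl {i : V3 k} (P : M3 k) {w : V3 k} (h : V3 k) (wi : w ⬝ᵥ i = 0) :
    Gr i P P w w h h := ⟨wi, wi, rfl, rfl⟩

/-- `C + s K` -/
theorem Gr.add {i : V3 k} {P P' Pk : M3 k} {w w' wk h h' hk : V3 k}
    (g : Gr i P P' w w' h h') (g' : Gr i P Pk w wk h hk) (s : k) :
    Gr i P (P' + s • Pk) w (w' + s • wk) h (h' + s • hk) where
  wi := g.wi
  wi' := by rw [add_dotProduct, smul_dotProduct, g.wi', g'.wi', smul_zero, add_zero]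
  al := by
    have e1 : ∀ u v v' : V3 k, vecMulVec u (v + s • v') = vecMulVec u v + s • vecMulVec u v' := by
      intro u v v'
      ext a b
      simp [vecMulVec_apply]; ring
    have e2 : ∀ u u' v : V3 k, vecMulVec (u + s • u') v = vecMulVec u v + s • vecMulVec u' v := by
      intro u u' v
      ext a b
      simp [vecMulVec_apply]; ring
    rw [e1, e2, mul_add, add_mul, mul_smul_comm, smul_mul_assoc]
    have h1 := g.al
    have h2 := g'.al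
    calc P * P' + s • (P * Pk) + (vecMulVec h w' + s • vecMulVec h wk)
        = (P * P' + vecMulVec h w') + s • (P * Pk + vecMulVec h wk) := by module
      _ = (P' * P + vecMulVec h' w) + s • (Pk * P + vecMulVec hk w) := by rw [h1, h2]
      _ = _ := by module
  be := by
    rw [Matrix.add_mulVec, Matrix.smul_mulVec, dotProduct_add, dotProduct_smul, add_dotProduct,
      smul_dotProduct, g.be, g'.be]

/-- the universal `K = y ^ 2 / x` -/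
theorem Gr.sq {i : V3 k} (P : M3 k) {w : V3 k} (h : V3 k) (wi : w ⬝ᵥ i = 0)
    (wP : w ⬝ᵥ (P *ᵥ i) = 0) :
    Gr i P (P * P + vecMulVec h w) w (w ᵥ* P) h (P *ᵥ h) where
  wi := wi
  wi' := by rw [← Matrix.dotProduct_mulVec, wP]
  al := by
    rw [mul_add, add_mul, mul_assoc]
    have e1 : P * vecMulVec h w = vecMulVec (P *ᵥ h) w := Matrix.mul_vecMulVec _ _ _
    have e2 : vecMulVec h w * P = vecMulVec h (w ᵥ* P) := Matrix.vecMulVec_mul _ _ _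
    rw [e1, e2]
    abel
  be := by
    rw [Matrix.add_mulVec, dotProduct_add, vm, wi, zero_smul, dotProduct_zero, add_zero,
      ← Matrix.mulVec_mulVec, ← Matrix.dotProduct_mulVec]

/-- some maximal bad triple has this graded part -/
def MG (ρ : ℕ → ℕ) (i : V3 k) (P P' : M3 k) (w w' h h' : V3 k) : Prop :=
  ∃ (Q Q' : M3 k) (o o' : k) (R R' : V3 k),
    MaxR ρ (T i ⟨P, Q, w, h, o, R⟩ ⟨P', Q', w', h', o', R'⟩)

theorem MG.gr {i : V3 k} {P P' : M3 k} {w w' h h' : V3 k} (hM : MG ρ i P P' w w' h h') :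
    Gr i P P' w w' h h' := by
  obtain ⟨Q, Q', o, o', R, R', hM⟩ := hM
  have h := max_rel hM
  exact ⟨h.wi, h.wi', h.al, h.be⟩

theorem MG.swap {i : V3 k} {P P' : M3 k} {w w' h h' : V3 k} (hM : MG ρ i P P' w w' h h') :
    MG ρ i P' P w' w h' h := by
  obtain ⟨Q, Q', o, o', R, R', hM⟩ := hM
  exact ⟨Q', Q, o', o, R', R, max_swap hM⟩

theorem MG.lin {i : V3 k} {P P' : M3 k} {w w' h h' : V3 k} (hM : MG ρ i P P' w w' h h')
    (a b c d x z : k) (hd : a * d - b * c ≠ 0) :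
    MG ρ i (a • P + b • P' + x • 1) (c • P + d • P' + z • 1) (a • w + b • w') (c • w + d • w')
      (a • h + b • h') (c • h + d • h') := by
  obtain ⟨Q, Q', o, o', R, R', hM⟩ := hM
  refine ⟨a • Q + b • Q', c • Q + d • Q', a * o + b * o', c * o + d * o', a • R + b • R',
    c • R + d • R', ?_⟩
  have := max_lin a b c d x z hd hM
  have e : ∀ (a b x : k), (a • (⟨P, Q, w, h, o, R⟩ : Dt k) + b • ⟨P', Q', w', h', o', R'⟩ +
      x • 1 : Dt k) = ⟨a • P + b • P' + x • 1, a • Q + b • Q', a • w + b • w', a • h + b • h',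
        a * o + b * o', a • R + b • R'⟩ := by
    intro a b x
    ext <;> simp
  rw [e, e] at this
  exact this

/-- `g` on `L`, `t'` scales `v₀`, `c` scales `p` -/
theorem MG.conj {i : V3 k} {P P' : M3 k} {w w' h h' : V3 k} (hM : MG ρ i P P' w w' h h')
    {t t' c c' : k} {g g' : M3 k} (ht : t * t' = 1) (hc : c * c' = 1) (hg : g * g' = 1) :
    MG ρ (t' • (g *ᵥ i)) (g * P * g') (g * P' * g') (c • (w ᵥ* g')) (c • (w' ᵥ* g'))
      (c' • (g *ᵥ h)) (c' • (g *ᵥ h')) := by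
  obtain ⟨Q, Q', o, o', R, R', hM⟩ := hM
  have := max_conj ht hc hg hM
  exact ⟨g * Q * g', g * Q' * g', c * t' * o, c * t' * o', t' • (g *ᵥ R), t' • (g *ᵥ R'), this⟩

/-- the degree two relation as a linear map in `(Q, Q', o, o')` -/
def Lg (i : V3 k) (P P' : M3 k) (h h' : V3 k) : (M3 k × M3 k × k × k) →ₗ[k] V3 k where
  toFun v := (v.1 *ᵥ (P' *ᵥ i) + P *ᵥ (v.2.1 *ᵥ i) + v.2.2.2 • h) -
    (v.2.1 *ᵥ (P *ᵥ i) + P' *ᵥ (v.1 *ᵥ i) + v.2.2.1 • h')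
  map_add' u v := by
    simp only [Prod.fst_add, Prod.snd_add, Matrix.add_mulVec, Matrix.mulVec_add, add_smul]
    abel
  map_smul' r v := by
    simp only [Prod.smul_fst, Prod.smul_snd, Matrix.smul_mulVec, Matrix.mulVec_smul,
      RingHom.id_apply, smul_eq_mul, mul_smul]
    module

theorem Lg_poly {i h h' : k → V3 k} {P P' : k → M3 k} (hi : ∀ a, IsPoly fun s => i s a)
    (hh : ∀ a, IsPoly fun s => h s a) (hh' : ∀ a, IsPoly fun s => h' s a)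
    (hP : ∀ a b, IsPoly fun s => P s a b) (hP' : ∀ a b, IsPoly fun s => P' s a b)
    (v : M3 k × M3 k × k × k) : PolyV fun s => Lg (i s) (P s) (P' s) (h s) (h' s) v := by
  obtain ⟨Q, Q', o, o'⟩ := v
  refine PolyV.of_pi fun a => ?_
  have hQ : ∀ a b, IsPoly fun _ : k => Q a b := fun _ _ => D7.IsPoly.const _
  have hQ' : ∀ a b, IsPoly fun _ : k => Q' a b := fun _ _ => D7.IsPoly.const _
  have h1 := isPoly_mulVec hQ (isPoly_mulVec hP' hi) a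
  have h2 := isPoly_mulVec hP (isPoly_mulVec hQ' hi) a
  have h3 := isPoly_mulVec hQ' (isPoly_mulVec hP hi) a
  have h4 := isPoly_mulVec hP' (isPoly_mulVec hQ hi) a
  have h5 : IsPoly fun s => (o' • h s) a := (D7.IsPoly.const o').mul (hh a)
  have h6 : IsPoly fun s => (o • h' s) a := (D7.IsPoly.const o).mul (hh' a)
  exact ((h1.add h2).add h5).sub ((h3.add h4).add h6)

theorem MG.move [Infinite k] {i : V3 k} {P P' : M3 k} {w w' h h' : V3 k}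
    (hM : MG ρ i P P' w w' h h')
    (hr : ∃ ψ : V3 k, ψ ⬝ᵥ i = 0 ∧ (ψ ⬝ᵥ (P *ᵥ i) ≠ 0 ∨ ψ ⬝ᵥ (P' *ᵥ i) ≠ 0))
    (i1 w1 w1' h1 h1' : k → V3 k) (P1 P1' : k → M3 k) (hi : ∀ a, IsPoly fun s => i1 s a)
    (hP : ∀ a b, IsPoly fun s => P1 s a b) (hP' : ∀ a b, IsPoly fun s => P1' s a b)
    (hw : ∀ a, IsPoly fun s => w1 s a) (hw' : ∀ a, IsPoly fun s => w1' s a)
    (hh : ∀ a, IsPoly fun s => h1 s a) (hh' : ∀ a, IsPoly fun s => h1' s a)
    (i0 : i1 0 = i) (P0 : P1 0 = P) (P0' : P1' 0 = P') (w0 : w1 0 = w) (w0' : w1' 0 = w')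
    (h0 : h1 0 = h) (h0' : h1' 0 = h') {F : Set k} (hF : F.Finite)
    (hG : ∀ s ∉ F, Gr (i1 s) (P1 s) (P1' s) (w1 s) (w1' s) (h1 s) (h1' s)) :
    ∃ F' : Set k, F'.Finite ∧
      ∀ s ∉ F', MG ρ (i1 s) (P1 s) (P1' s) (w1 s) (w1' s) (h1 s) (h1' s) := by
  obtain ⟨Q, Q', o, o', R, R', hM⟩ := hM
  have hsurj : ∀ r : V3 k, ∃ v, Lg i P P' h h' v = r := by
    intro r
    obtain ⟨ψ, hψ, hψ' | hψ'⟩ := hr
    · refine ⟨(0, vecMulVec (-(ψ ⬝ᵥ (P *ᵥ i))⁻¹ • r) ψ, 0, 0), ?_⟩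
      change ((0 : M3 k) *ᵥ (P' *ᵥ i) + P *ᵥ (vecMulVec (-(ψ ⬝ᵥ (P *ᵥ i))⁻¹ • r) ψ *ᵥ i) +
        (0 : k) • h) - (vecMulVec (-(ψ ⬝ᵥ (P *ᵥ i))⁻¹ • r) ψ *ᵥ (P *ᵥ i) +
        P' *ᵥ ((0 : M3 k) *ᵥ i) + (0 : k) • h') = r
      rw [vm, vm, hψ, smul_smul (ψ ⬝ᵥ (P *ᵥ i)), mul_neg, mul_inv_cancel₀ hψ']
      simp
    · refine ⟨(vecMulVec ((ψ ⬝ᵥ (P' *ᵥ i))⁻¹ • r) ψ, 0, 0, 0), ?_⟩
      change (vecMulVec ((ψ ⬝ᵥ (P' *ᵥ i))⁻¹ • r) ψ *ᵥ (P' *ᵥ i) + P *ᵥ ((0 : M3 k) *ᵥ i) +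
        (0 : k) • h) - ((0 : M3 k) *ᵥ (P *ᵥ i) +
        P' *ᵥ (vecMulVec ((ψ ⬝ᵥ (P' *ᵥ i))⁻¹ • r) ψ *ᵥ i) + (0 : k) • h') = r
      rw [vm, vm, hψ, smul_smul (ψ ⬝ᵥ (P' *ᵥ i)), mul_inv_cancel₀ hψ']
      simp
  have hg := (max_rel hM).ga
  obtain ⟨e0, he0, hes0⟩ := tail (Lg_poly hi hh hh' hP hP' (Q, Q', o, o'))
  obtain ⟨v, hv, hv0, hvL⟩ := liftV (fun s => Lg (i1 s) (P1 s) (P1' s) (h1 s) (h1' s)) 0
    (fun r => by
      obtain ⟨v, hv⟩ := hsurj r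
      obtain ⟨e, he, hes⟩ := tail (Lg_poly hi hh hh' hP hP' v)
      refine ⟨fun _ => v, PolyV.const v, e, he, fun s => ?_⟩
      rw [pow_zero, one_smul, hes s, i0, P0, P0', h0, h0', hv])
    (fun _ => (Q, Q', o, o')) (PolyV.const _) e0 he0
    (fun s => by
      rw [zero_add, pow_one]
      refine (hes0 s).trans ?_
      rw [i0, P0, P0', h0, h0']
      have h3 : Lg i P P' h h' (Q, Q', o, o') = 0 := by
        change (Q *ᵥ (P' *ᵥ i) + P *ᵥ (Q' *ᵥ i) + o' • h) -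
          (Q' *ᵥ (P *ᵥ i) + P' *ᵥ (Q *ᵥ i) + o • h') = 0
        rw [sub_eq_zero]
        exact hg
      rw [h3, zero_add])
  have q1 : ∀ a b, IsPoly fun s => (v s).1 a b := (hv.map (LinearMap.fst k _ _)).entry
  have q2 : ∀ a b, IsPoly fun s => (v s).2.1 a b :=
    (hv.map (LinearMap.fst k _ _ ∘ₗ LinearMap.snd k _ _)).entry
  have q3 : IsPoly fun s => (v s).2.2.1 :=
    (hv.map (LinearMap.fst k _ _ ∘ₗ LinearMap.snd k _ _ ∘ₗ LinearMap.snd k _ _)).isPoly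
  have q4 : IsPoly fun s => (v s).2.2.2 :=
    (hv.map (LinearMap.snd k _ _ ∘ₗ LinearMap.snd k _ _ ∘ₗ LinearMap.snd k _ _)).isPoly
  obtain ⟨F', hF', hm⟩ := T4331.move hM i1
    (fun s => ⟨P1 s, (v s).1, w1 s, h1 s, (v s).2.2.1, R⟩)
    (fun s => ⟨P1' s, (v s).2.1, w1' s, h1' s, (v s).2.2.2, R'⟩) hi
    ⟨hP, q1, hw, hh, q3, fun _ => D7.IsPoly.const _⟩
    ⟨hP', q2, hw', hh', q4, fun _ => D7.IsPoly.const _⟩ i0
    (by simp only [P0, w0, h0, hv0]) (by simp only [P0', w0', h0', hv0]) hF (fun s hs => by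
      have g := hG s hs
      refine ⟨g.wi, g.wi', g.al, g.be, ?_⟩
      have := hvL s
      change (_ - _ : V3 k) = 0 at this
      rw [sub_eq_zero] at this
      exact this)
  exact ⟨F', hF', fun s hs => ⟨_, _, _, _, _, _, hm s hs⟩⟩

/-- `C + s K` with `K` commuting with `x`, `B` (graded parts) -/
theorem MG.addK [Infinite k] {i : V3 k} {P P' Pk : M3 k} {w w' wk h h' hk : V3 k}
    (hM : MG ρ i P P' w w' h h')
    (hr : ∃ ψ : V3 k, ψ ⬝ᵥ i = 0 ∧ (ψ ⬝ᵥ (P *ᵥ i) ≠ 0 ∨ ψ ⬝ᵥ (P' *ᵥ i) ≠ 0))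
    (hK : Gr i P Pk w wk h hk) :
    ∃ F' : Set k, F'.Finite ∧
      ∀ s ∉ F', MG ρ i P (P' + s • Pk) w (w' + s • wk) h (h' + s • hk) := by
  have lv : ∀ u v : V3 k, ∀ a, IsPoly fun s : k => (u + s • v) a := fun u v a =>
    (D7.IsPoly.const _).add (D7.IsPoly.id.mul (D7.IsPoly.const _))
  have lm : ∀ u v : M3 k, ∀ a b, IsPoly fun s : k => (u + s • v) a b := fun u v a b =>
    (D7.IsPoly.const _).add (D7.IsPoly.id.mul (D7.IsPoly.const _))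
  exact hM.move hr (fun _ => i) (fun _ => w) (fun s => w' + s • wk) (fun _ => h)
    (fun s => h' + s • hk) (fun _ => P) (fun s => P' + s • Pk) (fun _ => D7.IsPoly.const _)
    (fun _ _ => D7.IsPoly.const _) (lm _ _) (fun _ => D7.IsPoly.const _) (lv _ _)
    (fun _ => D7.IsPoly.const _) (lv _ _) rfl rfl (by simp) rfl (by simp) rfl (by simp)
    Set.finite_empty fun s _ => hM.gr.add hK s

/-! ### the case `P i = P' i = 0` -/

/-- the relations when `P i = P' i = 0`; `a = Q i`, `a' = Q' i` -/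
structure Zr (i : V3 k) (P P' : M3 k) (w w' h h' a a' : V3 k) (o o' : k) : Prop where
  Pi : P *ᵥ i = 0
  Pi' : P' *ᵥ i = 0
  wi : w ⬝ᵥ i = 0
  wi' : w' ⬝ᵥ i = 0
  al : P * P' + vecMulVec h w' = P' * P + vecMulVec h' w
  ga : P *ᵥ a' + o' • h = P' *ᵥ a + o • h'

/-- some maximal bad triple has these data, `P i = P' i = 0` -/
def MZ (ρ : ℕ → ℕ) (i : V3 k) (P P' : M3 k) (w w' h h' a a' : V3 k) (o o' : k) : Prop :=
  P *ᵥ i = 0 ∧ P' *ᵥ i = 0 ∧ ∃ (Q Q' : M3 k) (R R' : V3 k), Q *ᵥ i = a ∧ Q' *ᵥ i = a' ∧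
    MaxR ρ (T i ⟨P, Q, w, h, o, R⟩ ⟨P', Q', w', h', o', R'⟩)

theorem MZ.zr {i : V3 k} {P P' : M3 k} {w w' h h' a a' : V3 k} {o o' : k}
    (hM : MZ ρ i P P' w w' h h' a a' o o') : Zr i P P' w w' h h' a a' o o' := by
  obtain ⟨h1, h2, Q, Q', R, R', rfl, rfl, hM⟩ := hM
  have h := max_rel hM
  refine ⟨h1, h2, h.wi, h.wi', h.al, ?_⟩
  have := h.ga
  simpa [h1, h2] using this

theorem MZ.swap {i : V3 k} {P P' : M3 k} {w w' h h' a a' : V3 k} {o o' : k}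
    (hM : MZ ρ i P P' w w' h h' a a' o o') : MZ ρ i P' P w' w h' h a' a o' o := by
  obtain ⟨h1, h2, Q, Q', R, R', h3, h4, hM⟩ := hM
  exact ⟨h2, h1, Q', Q, R', R, h4, h3, max_swap hM⟩

theorem MZ.lin {i : V3 k} {P P' : M3 k} {w w' h h' a a' : V3 k} {o o' : k}
    (hM : MZ ρ i P P' w w' h h' a a' o o') (α β γ δ : k) (hd : α * δ - β * γ ≠ 0) :
    MZ ρ i (α • P + β • P') (γ • P + δ • P') (α • w + β • w') (γ • w + δ • w')
      (α • h + β • h') (γ • h + δ • h') (α • a + β • a') (γ • a + δ • a') (α * o + β * o')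
      (γ * o + δ * o') := by
  obtain ⟨h1, h2, Q, Q', R, R', rfl, rfl, hM⟩ := hM
  refine ⟨?_, ?_, α • Q + β • Q', γ • Q + δ • Q', α • R + β • R', γ • R + δ • R', ?_, ?_, ?_⟩
  · simp [Matrix.add_mulVec, Matrix.smul_mulVec, h1, h2]
  · simp [Matrix.add_mulVec, Matrix.smul_mulVec, h1, h2]
  · simp [Matrix.add_mulVec, Matrix.smul_mulVec]
  · simp [Matrix.add_mulVec, Matrix.smul_mulVec]
  have := max_lin α β γ δ 0 0 hd hM
  have e : ∀ (α β : k), (α • (⟨P, Q, w, h, o, R⟩ : Dt k) + β • ⟨P', Q', w', h', o', R'⟩ +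
      (0 : k) • 1 : Dt k) = ⟨α • P + β • P', α • Q + β • Q', α • w + β • w', α • h + β • h',
        α * o + β * o', α • R + β • R'⟩ := by
    intro a b
    ext <;> simp
  rw [e, e] at this
  exact this

theorem MZ.conj {i : V3 k} {P P' : M3 k} {w w' h h' a a' : V3 k} {o o' : k}
    (hM : MZ ρ i P P' w w' h h' a a' o o')
    {t t' c c' : k} {g g' : M3 k} (ht : t * t' = 1) (hc : c * c' = 1) (hg : g * g' = 1) :
    MZ ρ (t' • (g *ᵥ i)) (g * P * g') (g * P' * g') (c • (w ᵥ* g')) (c • (w' ᵥ* g'))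
      (c' • (g *ᵥ h)) (c' • (g *ᵥ h')) (t' • (g *ᵥ a)) (t' • (g *ᵥ a')) (c * t' * o)
      (c * t' * o') := by
  obtain ⟨h1, h2, Q, Q', R, R', rfl, rfl, hM⟩ := hM
  have hg' : g' * g = 1 := mul_eq_one_comm.1 hg
  have e : ∀ X : M3 k, (g * X * g') *ᵥ (t' • (g *ᵥ i)) = t' • (g *ᵥ (X *ᵥ i)) := by
    intro X
    rw [Matrix.mulVec_smul, Matrix.mulVec_mulVec, Matrix.mulVec_mulVec]
    congr 2
    rw [Matrix.mul_assoc (g * X), hg', Matrix.mul_one]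
  have := max_conj ht hc hg hM
  refine ⟨?_, ?_, g * Q * g', g * Q' * g', t' • (g *ᵥ R), t' • (g *ᵥ R'), ?_, ?_, this⟩
  · rw [e, h1]; simp
  · rw [e, h2]; simp
  · exact e Q
  · exact e Q'

theorem MZ.move [Infinite k] {i : V3 k} {P P' : M3 k} {w w' h h' a a' : V3 k} {o o' : k}
    (hM : MZ ρ i P P' w w' h h' a a' o o') (hi : i ≠ 0)
    (w1 w1' h1 h1' a1 a1' : k → V3 k) (P1 P1' : k → M3 k) (o1 o1' : k → k)
    (hP : ∀ a b, IsPoly fun s => P1 s a b) (hP' : ∀ a b, IsPoly fun s => P1' s a b)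
    (hw : ∀ a, IsPoly fun s => w1 s a) (hw' : ∀ a, IsPoly fun s => w1' s a)
    (hh : ∀ a, IsPoly fun s => h1 s a) (hh' : ∀ a, IsPoly fun s => h1' s a)
    (ha : ∀ x, IsPoly fun s => a1 s x) (ha' : ∀ x, IsPoly fun s => a1' s x)
    (ho : IsPoly o1) (ho' : IsPoly o1')
    (P0 : P1 0 = P) (P0' : P1' 0 = P') (w0 : w1 0 = w) (w0' : w1' 0 = w')
    (h0 : h1 0 = h) (h0' : h1' 0 = h') (a0 : a1 0 = a) (a0' : a1' 0 = a') (o0 : o1 0 = o)
    (o0' : o1' 0 = o') {F : Set k} (hF : F.Finite)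
    (hG : ∀ s ∉ F, Zr i (P1 s) (P1' s) (w1 s) (w1' s) (h1 s) (h1' s) (a1 s) (a1' s) (o1 s)
      (o1' s)) :
    ∃ F' : Set k, F'.Finite ∧ ∀ s ∉ F', MZ ρ i (P1 s) (P1' s) (w1 s) (w1' s) (h1 s) (h1' s)
      (a1 s) (a1' s) (o1 s) (o1' s) := by
  obtain ⟨e1, e2, Q, Q', R, R', rfl, rfl, hM⟩ := hM
  obtain ⟨φ, hφ⟩ : ∃ φ : V3 k, φ ⬝ᵥ i = 1 := by
    obtain ⟨j, hj⟩ := Function.ne_iff.1 hi
    refine ⟨Pi.single j (i j)⁻¹, ?_⟩
    rw [single_dotProduct, inv_mul_cancel₀ hj]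
  have key : ∀ {a1 : k → V3 k} (Q : M3 k), (∀ x, IsPoly fun s => a1 s x) →
      ∀ x y, IsPoly fun s => (Q + vecMulVec (a1 s - Q *ᵥ i) φ) x y := fun {a1} Q h x y =>
    (D7.IsPoly.const _).add (((h x).sub (D7.IsPoly.const _)).mul (D7.IsPoly.const _))
  have key2 : ∀ (Q : M3 k) (a : V3 k), (Q + vecMulVec (a - Q *ᵥ i) φ) *ᵥ i = a := by
    intro Q a
    rw [Matrix.add_mulVec, vm, hφ, one_smul]
    abel
  obtain ⟨F', hF', hm⟩ := T4331.move hM (fun _ => i)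
    (fun s => ⟨P1 s, Q + vecMulVec (a1 s - Q *ᵥ i) φ, w1 s, h1 s, o1 s, R⟩)
    (fun s => ⟨P1' s, Q' + vecMulVec (a1' s - Q' *ᵥ i) φ, w1' s, h1' s, o1' s, R'⟩)
    (fun _ => D7.IsPoly.const _)
    ⟨hP, key Q ha, hw, hh, ho, fun _ => D7.IsPoly.const _⟩
    ⟨hP', key Q' ha', hw', hh', ho', fun _ => D7.IsPoly.const _⟩ rfl
    (by simp [P0, w0, h0, o0, a0]) (by simp [P0', w0', h0', o0', a0']) hF
    (fun s hs => by
      have g := hG s hs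
      refine ⟨g.wi, g.wi', g.al, ?_, ?_⟩
      · change w1 s ⬝ᵥ (P1' s *ᵥ i) = w1' s ⬝ᵥ (P1 s *ᵥ i)
        rw [g.Pi, g.Pi', dotProduct_zero, dotProduct_zero]
      · change (Q + vecMulVec (a1 s - Q *ᵥ i) φ) *ᵥ (P1' s *ᵥ i) +
          P1 s *ᵥ ((Q' + vecMulVec (a1' s - Q' *ᵥ i) φ) *ᵥ i) + o1' s • h1 s =
          (Q' + vecMulVec (a1' s - Q' *ᵥ i) φ) *ᵥ (P1 s *ᵥ i) +
          P1' s *ᵥ ((Q + vecMulVec (a1 s - Q *ᵥ i) φ) *ᵥ i) + o1 s • h1' s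
        rw [g.Pi, g.Pi', key2, key2, Matrix.mulVec_zero, Matrix.mulVec_zero, zero_add, zero_add]
        exact g.ga)
  refine ⟨F' ∪ F, hF'.union hF, fun s hs => ?_⟩
  rw [Set.mem_union, not_or] at hs
  have g := hG s hs.2
  exact ⟨g.Pi, g.Pi', _, _, _, _, key2 Q (a1 s), key2 Q' (a1' s), hm s hs.1⟩

/-! ### unipotent changes of basis -/

/-- conjugation by `1 + BM i K` -/
def Dt.un (i : V3 k) (K D : Dt k) : Dt k :=
  let Q' := D.Q + K.P * D.P + vecMulVec K.h D.w - D.P * K.P - vecMulVec D.h K.w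
  ⟨D.P, Q', D.w, D.h, D.o + K.w ⬝ᵥ (D.P *ᵥ i) - D.w ⬝ᵥ (K.P *ᵥ i),
    D.R + (K.Q *ᵥ (D.P *ᵥ i) + K.P *ᵥ (D.Q *ᵥ i) + D.o • K.h) -
      (Q' *ᵥ (K.P *ᵥ i) + D.P *ᵥ (K.Q *ᵥ i) + K.o • D.h)⟩

theorem un_key (i : V3 k) (K D : Dt k) (hK : K.w ⬝ᵥ i = 0) (hD : D.w ⬝ᵥ i = 0) :
    (1 + BM i K) * BM i D = BM i (Dt.un i K D) * (1 + BM i K) := by
  rw [add_mul, mul_add, one_mul, mul_one, BM_mul, BM_mul]
  unfold BM
  rw [G_add, G_add]
  refine G_ext (by simp [Dt.un]) ?_ ?_ ?_ (by simp [Dt.un]) (by simp [Dt.un]) ?_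
    (by simp [Dt.un]) (by simp [Dt.un])
  · simp only [Dt.un, Matrix.add_mulVec, Matrix.sub_mulVec, ← Matrix.mulVec_mulVec, vm, hK, hD,
      zero_smul]
    abel
  · simp only [Dt.un]
    ring
  · simp only [Dt.un]
    abel
  · simp only [Dt.un]
    abel

theorem max_unip {i : V3 k} (K : Dt k) (hK : K.w ⬝ᵥ i = 0) {D E : Dt k}
    (hT : MaxR ρ (T i D E)) : MaxR ρ (T i (Dt.un i K D) (Dt.un i K E)) := by
  set N : Matrix Ix Ix k := BM i K with hN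
  have hN4 : N * N * (N * N) = 0 := by
    rw [hN, BM_mul, G_mul]
    simp [G_zero]
  have e1 : (1 + N) * (1 - N + N * N - N * N * N) = 1 := by
    have : (1 + N) * (1 - N + N * N - N * N * N) = 1 - N * N * (N * N) := by noncomm_ring
    rw [this, hN4, sub_zero]
  have e2 : (1 - N + N * N - N * N * N) * (1 + N) = 1 := by
    have : (1 - N + N * N - N * N * N) * (1 + N) = 1 - N * N * (N * N) := by noncomm_ring
    rw [this, hN4, sub_zero]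
  have hR := max_rel hT
  have h1 := hT.conj _ _ e1 e2
  have h2 : (fun j => (1 + N) * (T i D E) j * (1 - N + N * N - N * N * N)) =
      T i (Dt.un i K D) (Dt.un i K E) := by
    have key : ∀ D : Dt k, D.w ⬝ᵥ i = 0 →
        (1 + N) * BM i D * (1 - N + N * N - N * N * N) = BM i (Dt.un i K D) := by
      intro D hD
      rw [hN, un_key i K D hK hD, ← hN, mul_assoc, e1, mul_one]
    funext j
    fin_cases j
    · refine (key 1 (by simp)).trans ?_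
      congr 1
      ext <;> simp [Dt.un, hK]
    · exact key D hR.wi
    · exact key E hR.wi'
  rwa [h2] at h1

/-- `v₀ - e` instead of `v₀` -/
theorem MZ.gauge {i : V3 k} {P P' : M3 k} {w w' h h' a a' : V3 k} {o o' : k}
    (hM : MZ ρ i P P' w w' h h' a a' o o') (hi : i ≠ 0) (e : V3 k) :
    MZ ρ i P P' w w' h h' (a - P *ᵥ e) (a' - P' *ᵥ e) (o - w ⬝ᵥ e) (o' - w' ⬝ᵥ e) := by
  obtain ⟨e1, e2, Q, Q', R, R', rfl, rfl, hM⟩ := hM
  obtain ⟨φ, hφ⟩ : ∃ φ : V3 k, φ ⬝ᵥ i = 1 := by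
    obtain ⟨j, hj⟩ := Function.ne_iff.1 hi
    refine ⟨Pi.single j (i j)⁻¹, ?_⟩
    rw [single_dotProduct, inv_mul_cancel₀ hj]
  have h1 := max_unip ⟨vecMulVec e φ, 0, 0, 0, 0, 0⟩ (by simp) hM
  have key : ∀ P Q : M3 k, P *ᵥ i = 0 →
      (Q + vecMulVec e φ * P - P * vecMulVec e φ) *ᵥ i = Q *ᵥ i - P *ᵥ e := by
    intro P Q hP
    rw [Matrix.sub_mulVec, Matrix.add_mulVec, ← Matrix.mulVec_mulVec, ← Matrix.mulVec_mulVec, hP,
      Matrix.mulVec_zero, add_zero, vm, hφ, one_smul]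
  have h2 : ∀ (P Q : M3 k) (w h : V3 k) (o : k) (R : V3 k), P *ᵥ i = 0 →
      ∃ R₁, Dt.un i ⟨vecMulVec e φ, 0, 0, 0, 0, 0⟩ ⟨P, Q, w, h, o, R⟩ =
      ⟨P, Q + vecMulVec e φ * P - P * vecMulVec e φ, w, h, o - w ⬝ᵥ e, R₁⟩ := by
    intro P Q w h o R hP
    refine ⟨_, Dt.ext rfl ?_ rfl rfl ?_ rfl⟩
    · ext a b
      simp [Dt.un, vecMulVec_apply]
    · simp [Dt.un, vm, hφ]
  obtain ⟨R₁, r1⟩ := h2 P Q w h o R e1
  obtain ⟨R₂, r2⟩ := h2 P' Q' w' h' o' R' e2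
  rw [r1, r2] at h1
  exact ⟨e1, e2, _, _, R₁, R₂, key P Q e1, key P' Q' e2, h1⟩

end Pool.Agent.Lib.D13.T4331
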