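import Pool.Agent.Lib.D13.F4332C
import Pool.Agent.Lib.D13.A1no2b

/-!
# MP_5dcbc3_ag: type `(4, 3, 3, 2)`: the case (A1) in the basis of the levels 1, 4, 4, 3; assembly
-/

namespace Pool.Agent.Lib.D13.N4332

open Matrix Pool.Agent.Lib.Q5dc Pool.Agent.Lib.D7 Pool.Agent.Lib.D13

variable {k : Type*} [Field k] {ρ : ℕ → ℕ}

/-- from the Jordan basis to the basis of levels 1, 4, 4, 3 -/
def fB : I2 2 1 → A1.IB
  | .inl 0 => .inl ()
  | .inl 1 => .inr (.inl 0)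
  | .inl 2 => .inr (.inr (.inl 0))
  | .inl 3 => .inr (.inr (.inr 0))
  | .inr (.inl (0, s)) => .inr (.inl ⟨s + 1, by omega⟩)
  | .inr (.inl (1, s)) => .inr (.inr (.inl ⟨s + 1, by omega⟩))
  | .inr (.inl (2, s)) => .inr (.inr (.inr s.succ))
  | .inr (.inr (0, _)) => .inr (.inl 3)
  | .inr (.inr (1, _)) => .inr (.inr (.inl 3))

/-- the inverse -/
def gB : A1.IB → I2 2 1
  | .inl _ => .inl 0
  | .inr (.inl 0) => .inl 1
  | .inr (.inl 1) => .inr (.inl (0, 0))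
  | .inr (.inl 2) => .inr (.inl (0, 1))
  | .inr (.inl 3) => .inr (.inr (0, 0))
  | .inr (.inr (.inl 0)) => .inl 2
  | .inr (.inr (.inl 1)) => .inr (.inl (1, 0))
  | .inr (.inr (.inl 2)) => .inr (.inl (1, 1))
  | .inr (.inr (.inl 3)) => .inr (.inr (1, 0))
  | .inr (.inr (.inr 0)) => .inl 3
  | .inr (.inr (.inr 1)) => .inr (.inl (2, 0))
  | .inr (.inr (.inr 2)) => .inr (.inl (2, 1))

/-- the bijection -/
def eB : I2 2 1 ≃ A1.IB where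
  toFun := fB
  invFun := gB
  left_inv := by decide
  right_inv := by decide

/-- `Y` -/
def yB (x : PN k 2 1) : Matrix (Fin 4) (Fin 4) k :=
  !![0, x.b1 0, x.b1 1, x.g0 0;
     x.a0 0, x.N1 0 0, x.N1 0 1, x.Q0 0 0;
     x.a0 1, x.N1 1 0, x.N1 1 1, x.Q0 1 0;
     x.c0 0, x.P1 0 0, x.P1 0 1, x.V1 0 0]

/-- `B` -/
def bB (x : PN k 2 1) : Matrix (Fin 3) (Fin 4) k :=
  !![0, x.b2 0, x.b2 1, x.g1 0;
     x.a1 0, x.N2 0 0, x.N2 0 1, x.Q1 0 0;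
     x.a1 1, x.N2 1 0, x.N2 1 1, x.Q1 1 0]

theorem J_B : Matrix.reindexAlgEquiv k k eB (J2 k 2 1) = A1.mk (A1.e0 k) 0 0 1 0 (A1.P1 k) := by
  ext i j
  show J2 k 2 1 (gB i) (gB j) = A1.mk (A1.e0 k) 0 0 1 0 (A1.P1 k) i j
  rcases i with i | i | i | i <;> rcases j with j | j | j | j
  · simp [gB, J2, A1.mk]
  · fin_cases j <;> simp [gB, J2, A1.mk]
  · fin_cases j <;> simp [gB, J2, A1.mk]
  · fin_cases j <;> simp [gB, J2, A1.mk]
  · fin_cases i <;> simp [gB, J2, A1.mk, A1.e0]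
  · fin_cases i <;> fin_cases j <;> simp [gB, J2, A1.mk]
  · fin_cases i <;> fin_cases j <;> simp [gB, J2, A1.mk]
  · fin_cases i <;> fin_cases j <;> simp [gB, J2, A1.mk]
  · fin_cases i <;> simp [gB, J2, A1.mk]
  · fin_cases i <;> fin_cases j <;> simp [gB, J2, A1.mk]
  · fin_cases i <;> fin_cases j <;> simp [gB, J2, A1.mk]
  · fin_cases i <;> fin_cases j <;> simp [gB, J2, A1.mk]
  · fin_cases i <;> simp [gB, J2, A1.mk]
  · fin_cases i <;> fin_cases j <;> simp [gB, J2, A1.mk]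
  · fin_cases i <;> fin_cases j <;> simp [gB, J2, A1.mk, A1.P1]
  · fin_cases i <;> fin_cases j <;> simp [gB, J2, A1.mk]

theorem B_B {x : PN k 2 1} (hb : x.b0 = 0) (hP : x.P0 = 0) :
    Matrix.reindexAlgEquiv k k eB (B2 x) =
      A1.mk (yB x *ᵥ A1.e0 k) ![0, x.a1 0, x.a1 1, x.c1 0] ![0, x.a2 0, x.a2 1] (yB x) (bB x)
        (A1.P1 k * yB x) := by
  rw [A1.mulVec_e0]
  ext i j
  show B2 x (gB i) (gB j) = A1.mk _ ![0, x.a1 0, x.a1 1, x.c1 0] ![0, x.a2 0, x.a2 1] (yB x)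
    (bB x) (A1.P1 k * yB x) i j
  rcases i with i | i | i | i <;> rcases j with j | j | j | j
  · simp [gB, B2, A1.mk]
  · fin_cases j <;> simp [gB, B2, A1.mk]
  · fin_cases j <;> simp [gB, B2, A1.mk]
  · fin_cases j <;> simp [gB, B2, A1.mk]
  · fin_cases i <;> simp [gB, B2, A1.mk, yB]
  · fin_cases i <;> fin_cases j <;> simp [gB, B2, A1.mk, hb, hP]
  · fin_cases i <;> fin_cases j <;> simp [gB, B2, A1.mk]
  · fin_cases i <;> fin_cases j <;> simp [gB, B2, A1.mk]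
  · fin_cases i <;> simp [gB, B2, A1.mk]
  · fin_cases i <;> fin_cases j <;> simp [gB, B2, A1.mk, yB]
  · fin_cases i <;> fin_cases j <;> simp [gB, B2, A1.mk, hb, hP]
  · fin_cases i <;> fin_cases j <;> simp [gB, B2, A1.mk]
  · fin_cases i <;> simp [gB, B2, A1.mk]
  · fin_cases i <;> fin_cases j <;> simp [gB, B2, A1.mk, bB]
  · fin_cases i <;> fin_cases j <;> simp [gB, B2, A1.mk, A1.P1_mul, yB]
  · fin_cases i <;> fin_cases j <;> simp [gB, B2, A1.mk, hb]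

/-- the case (A1) in the form of the levels 1, 4, 4, 3 -/
theorem bad_A1 [Infinite k] {x y : PN k 2 1} (hT : MaxR ρ ![J2 k 2 1, B2 x, B2 y])
    (hbx : x.b0 = 0) (hby : y.b0 = 0) (hPx : x.P0 = 0) (hPy : y.P0 = 0) :
    A1.Bad ρ (yB x) (yB y) ![0, x.a1 0, x.a1 1, x.c1 0] ![0, y.a1 0, y.a1 1, y.c1 0]
      (bB x) (bB y) := by
  refine ⟨![0, x.a2 0, x.a2 1], ![0, y.a2 0, y.a2 1], ?_⟩
  have h1 := D9.MaxR.reindex eB hT
  have h2 : (fun i => Matrix.reindexAlgEquiv k k eB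
      ((![J2 k 2 1, B2 x, B2 y] : Fin 3 → Matrix (I2 2 1) (I2 2 1) k) i)) =
      A1.Tr (yB x) (yB y) (A1.P1 k) ![0, x.a1 0, x.a1 1, x.c1 0] ![0, y.a1 0, y.a1 1, y.c1 0]
        ![0, x.a2 0, x.a2 1] ![0, y.a2 0, y.a2 1] (bB x) (bB y) := by
    funext i
    fin_cases i
    exacts [J_B, B_B hbx hPx, B_B hby hPy]
  rwa [h2] at h1

/-- type `(4, 3, 3, 2)`: reduction to the noncommuting case of (A1) with `Y e₀` or `Z e₀` not in
`k e₀` -/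
theorem not_bad_of [IsAlgClosed k] [CharZero k]
    (h : ∀ (ρ : ℕ → ℕ), (∀ i, ρ i = (J2 k 2 1 ^ i).rank) → ρ 3 ≤ 1 → ρ 4 = 0 →
      ∀ (Y Z : Matrix (Fin 4) (Fin 4) k) (b b' : Fin 4 → k) (B B' : Matrix (Fin 3) (Fin 4) k)
      (i : Fin 4), A1.Bad ρ Y Z b b' B B' → Y * Z ≠ Z * Y → i ≠ 0 → (Y i 0 ≠ 0 ∨ Z i 0 ≠ 0) →
        False) : ¬ Bad k [4, 3, 3, 2] := by
  have hinf : Infinite k := CharZero.infinite k
  exact not_bad_of_A1 fun ρ hρ h3 h4 _ _ hT hbx hby hPx hPy =>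
    A1.no_bad_of (h ρ hρ h3 h4) (bad_A1 hT hbx hby hPx hPy)

end Pool.Agent.Lib.D13.N4332
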