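import Pool.Agent.Lib.D13.T433a
import Pool.Agent.Lib.D13.Jets
import Pool.Agent.Lib.D9.T333

/-!
# MP_5dcbc3_ag: type (4, 3, 3), `P` cyclic

`NF v P Q D`: the triple is `A`, `T P Q R`, `T (P ^ 2) (P Q + Q P + D) R'`.
-/

set_option autoImplicit false

namespace Pool.Agent.Lib.D13.T433

open Matrix Pool.Agent.Lib.Q5dc Pool.Agent.Lib.D7 Pool.Agent.Lib.D8
open Pool.Agent.Lib.D9.T333Aux (D3 Cyc comp)
open Pool.Agent.Lib.D13.JetsAux (cr)

variable {k : Type*} [Field k] {ρ : ℕ → ℕ}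

/-- columns -/
def cl (v : Fin 3 → k) : M31 k := Matrix.of fun i _ => v i

theorem mul_cl (M : M3 k) (v : Fin 3 → k) : M * cl v = cl (M *ᵥ v) := by
  ext i j
  simp [cl, Matrix.mul_apply, Matrix.mulVec, dotProduct]

theorem cl_inj {v w : Fin 3 → k} (h : cl v = cl w) : v = w := by
  funext i
  exact congrFun (congrFun h i) 0

theorem eq_cl (ι : M31 k) : ι = cl fun i => ι i 0 := by
  ext i j
  rw [Subsingleton.elim j 0]
  rfl

/-- normal form -/
def NF (ρ : ℕ → ℕ) (v : Fin 3 → k) (P Q D : M3 k) : Prop :=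
  ∃ R R' : M31 k, MaxR ρ ![A4 (cl v), T (cl v) P Q R, T (cl v) (P * P) (P * Q + Q * P + D) R']

theorem NF.rel {v : Fin 3 → k} {P Q D : M3 k} (h : NF ρ v P Q D) :
    P *ᵥ (D *ᵥ v) = D *ᵥ (P *ᵥ v) := by
  obtain ⟨R, R', h⟩ := h
  have h1 := (max_rel h).2
  have e1 : Q * (P * P) + P * (P * Q + Q * P + D) =
      (P * Q + Q * P + D) * P + P * P * Q + (P * D - D * P) := by noncomm_ring
  rw [e1, Matrix.add_mul _ (P * D - D * P), Matrix.sub_mul, mul_cl (P * D), mul_cl (D * P)] at h1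
  have h2 : cl ((P * D) *ᵥ v) - cl ((D * P) *ᵥ v) = 0 := by
    have := h1
    rwa [add_eq_left] at this
  rw [Matrix.mulVec_mulVec, Matrix.mulVec_mulVec]
  exact cl_inj (sub_eq_zero.1 h2)

theorem nf_cn {v : Fin 3 → k} {P Q D : M3 k} {R R' : M31 k}
    (h : P *ᵥ (D *ᵥ v) = D *ᵥ (P *ᵥ v)) :
    CN ![A4 (cl v), T (cl v) P Q R, T (cl v) (P * P) (P * Q + Q * P + D) R'] := by
  refine cnT (by rw [mul_assoc]) ?_
  have e1 : Q * (P * P) + P * (P * Q + Q * P + D) =
      (P * Q + Q * P + D) * P + P * P * Q + (P * D - D * P) := by noncomm_ring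
  rw [e1, Matrix.add_mul _ (P * D - D * P), Matrix.sub_mul, mul_cl (P * D), mul_cl (D * P),
    ← Matrix.mulVec_mulVec, ← Matrix.mulVec_mulVec, h, sub_self, add_zero]

theorem NF.conj {v : Fin 3 → k} {P Q D : M3 k} (h : NF ρ v P Q D)
    {g g' : M3 k} (hg : g * g' = 1) {a a' : k} (ha : a * a' = 1) :
    NF ρ (a' • g *ᵥ v) (g * P * g') (g * Q * g') (g * D * g') := by
  obtain ⟨R, R', h⟩ := h
  have hg' : g' * g = 1 := mul_eq_one_comm.1 hg
  have h1 := max_conj (h := a • (1 : Matrix (Fin 1) (Fin 1) k))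
    (h' := a' • (1 : Matrix (Fin 1) (Fin 1) k)) (by
    rw [smul_mul_smul_comm, ha, one_smul, mul_one]) hg h
  have e1 : g * cl v * (a' • (1 : Matrix (Fin 1) (Fin 1) k)) = cl (a' • g *ᵥ v) := by
    rw [mul_cl, Matrix.mul_smul, Matrix.mul_one]
    ext i j
    simp [cl]
  have e2 : g * (P * P) * g' = g * P * g' * (g * P * g') := by
    calc g * (P * P) * g' = g * P * 1 * P * g' := by noncomm_ring
      _ = g * P * (g' * g) * P * g' := by rw [hg']
      _ = _ := by noncomm_ring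
  have e3 : g * (P * Q + Q * P + D) * g' =
      g * P * g' * (g * Q * g') + g * Q * g' * (g * P * g') + g * D * g' := by
    calc g * (P * Q + Q * P + D) * g' = g * P * 1 * Q * g' + g * Q * 1 * P * g' + g * D * g' := by
          noncomm_ring
      _ = g * P * (g' * g) * Q * g' + g * Q * (g' * g) * P * g' + g * D * g' := by rw [hg']
      _ = _ := by noncomm_ring
  rw [e1, e2, e3] at h1
  exact ⟨_, _, h1⟩

theorem isPoly_T (v : Fin 3 → k) {P Q : k → M3 k} (R : M31 k)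
    (hP : ∀ i j, IsPoly fun s => P s i j) (hQ : ∀ i j, IsPoly fun s => Q s i j) :
    ∀ x y, IsPoly fun s => T (cl v) (P s) (Q s) R x y := by
  have h : ∀ {M : k → M3 k}, (∀ i j, IsPoly fun s => M s i j) →
      ∀ i (j : Fin 1), IsPoly fun s => (M s * cl v) i j := by
    intro M hM i j
    simp only [Matrix.mul_apply, Fin.sum_univ_three]
    exact (((hM i 0).mul (D7.IsPoly.const _)).add ((hM i 1).mul (D7.IsPoly.const _))).add
      ((hM i 2).mul (D7.IsPoly.const _))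
  intro x y
  rcases x with x | x | x | x <;> rcases y with y | y | y | y <;>
    first
    | exact D7.IsPoly.const _
    | exact hP _ _
    | exact hQ _ _
    | exact h hP _ _
    | exact h hQ _ _

/-- deformations of `P` and `D` -/
theorem NF.deform [Infinite k] {v : Fin 3 → k} {P Q D : M3 k}
    (h : NF ρ v P Q D) {Ps Ds : k → M3 k} (hP : ∀ i j, IsPoly fun s => Ps s i j)
    (hD : ∀ i j, IsPoly fun s => Ds s i j) (P0 : Ps 0 = P) (D0 : Ds 0 = D)
    (hr : ∀ s, Ps s *ᵥ (Ds s *ᵥ v) = Ds s *ᵥ (Ps s *ᵥ v)) {F : Set k} (hF : F.Finite) :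
    ∃ s, s ∉ F ∧ NF ρ v (Ps s) Q (Ds s) := by
  obtain ⟨R, R', h⟩ := h
  have hQ : ∀ i j, IsPoly fun _ : k => Q i j := fun i j => D7.IsPoly.const _
  obtain ⟨E, hE, h1⟩ := MaxR.deform h (fun s => ![A4 (cl v), T (cl v) (Ps s) Q R,
    T (cl v) (Ps s * Ps s) (Ps s * Q + Q * Ps s + Ds s) R']) (by
      intro i
      fin_cases i
      · exact fun x y => D7.IsPoly.const _
      · exact isPoly_T v R hP hQ
      · exact isPoly_T v R' (isPoly_mul hP hP) fun i j =>
          ((isPoly_mul hP hQ i j).add (isPoly_mul hQ hP i j)).add (hD i j))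
    (by rw [P0, D0]) Set.finite_empty fun s _ => nf_cn (hr s)
  obtain ⟨s, hs⟩ := (hE.union hF).infinite_compl.nonempty
  rw [Set.mem_compl_iff, Set.mem_union, not_or] at hs
  exact ⟨s, hs.2, R, R', h1 s hs.1⟩

/-- subtracting a scalar from `P` -/
theorem NF.shift {v : Fin 3 → k} {P Q D : M3 k} (h : NF ρ v P Q D) (l : k) :
    NF ρ v (P - l • 1) Q D := by
  obtain ⟨R, R', h⟩ := h
  have h1 := max_lin 1 0 (-(2 * l)) 1 (-l) (l ^ 2) (by simp) h
  have e1 : (1 : k) • P + (0 : k) • (P * P) + -l • (1 : M3 k) = P - l • 1 := by module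
  have e2 : (1 : k) • Q + (0 : k) • (P * Q + Q * P + D) = Q := by module
  have e3 : (1 : k) • R + (0 : k) • R' = R := by module
  have e4 : -(2 * l) • P + (1 : k) • (P * P) + l ^ 2 • (1 : M3 k) = (P - l • 1) * (P - l • 1) := by
    simp only [sub_mul, mul_sub, smul_mul_assoc, mul_smul_comm, one_mul, mul_one]
    module
  have e5 : -(2 * l) • Q + (1 : k) • (P * Q + Q * P + D) =
      (P - l • 1) * Q + Q * (P - l • 1) + D := by
    simp only [sub_mul, mul_sub, smul_mul_assoc, mul_smul_comm, one_mul, mul_one]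
    module
  have e6 : -(2 * l) • R + (1 : k) • R' = R' - (2 * l) • R := by module
  rw [e1, e2, e3, e4, e5, e6] at h1
  exact ⟨_, _, h1⟩

/-- subtracting a scalar from `D` -/
theorem NF.sub {v : Fin 3 → k} {P Q D : M3 k} (h : NF ρ v P Q D) (l : k) :
    NF ρ v P Q (D - l • 1) := by
  obtain ⟨R, R', h⟩ := h
  have h1 := max_sub2 0 0 0 l 0 0 h
  have e1 : Q - ((0 : k) • (1 : M3 k) + (0 : k) • P + (0 : k) • (P * P)) = Q := by module
  have e2 : P * Q + Q * P + D - (l • (1 : M3 k) + (0 : k) • P + (0 : k) • (P * P)) =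
      P * Q + Q * P + (D - l • 1) := by module
  have e3 : ∀ X : M31 k, X - ((0 : k) • Q + (0 : k) • (P * Q + Q * P + D)) * cl v = X := by
    intro X
    simp
  rw [e1, e2, e3, e3] at h1
  exact ⟨_, _, h1⟩

/-- companion form of a matrix with a cyclic vector -/
theorem to_comp {P : M3 k} {w : Fin 3 → k} (hw : Cyc P w) : ∃ (g g' : M3 k) (p q r : k),
    g * g' = 1 ∧ g * P * g' = !![0, 0, p; 1, 0, q; 0, 1, r] ∧ g *ᵥ w = ![1, 0, 0] := by
  let K : M3 k := Matrix.of fun i j => ![w i, (P *ᵥ w) i, (P *ᵥ (P *ᵥ w)) i] j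
  have hK : K.det ≠ 0 := by
    have e : K.det = D3 w (P *ᵥ w) (P *ᵥ (P *ᵥ w)) := by
      rw [Matrix.det_fin_three]
      simp [K, D3]
      ring
    rw [e]
    exact hw
  have hg : K⁻¹ * K = 1 := Matrix.nonsing_inv_mul _ (isUnit_iff_ne_zero.2 hK)
  have c0 : ∀ i, (P * K) i 0 = K i 1 := by
    intro i
    simp [K, Matrix.mul_apply, Matrix.mulVec, dotProduct]
  have c1 : ∀ i, (P * K) i 1 = K i 2 := by
    intro i
    simp [K, Matrix.mul_apply, Matrix.mulVec, dotProduct]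
  have d0 : ∀ i, (K⁻¹ * P * K) i 0 = (1 : M3 k) i 1 := by
    intro i
    rw [mul_assoc, Matrix.mul_apply, ← hg, Matrix.mul_apply]
    exact Finset.sum_congr rfl fun j _ => by rw [c0]
  have d1 : ∀ i, (K⁻¹ * P * K) i 1 = (1 : M3 k) i 2 := by
    intro i
    rw [mul_assoc, Matrix.mul_apply, ← hg, Matrix.mul_apply]
    exact Finset.sum_congr rfl fun j _ => by rw [c1]
  have e0 : ∀ i, (K⁻¹ *ᵥ w) i = (1 : M3 k) i 0 := by
    intro i
    rw [← hg, Matrix.mul_apply]
    rfl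
  refine ⟨K⁻¹, K, (K⁻¹ * P * K) 0 2, (K⁻¹ * P * K) 1 2, (K⁻¹ * P * K) 2 2, hg, ?_, ?_⟩
  · ext i j
    fin_cases j
    · fin_cases i
      · exact (d0 0).trans rfl
      · exact (d0 1).trans rfl
      · exact (d0 2).trans rfl
    · fin_cases i
      · exact (d1 0).trans rfl
      · exact (d1 1).trans rfl
      · exact (d1 2).trans rfl
    · fin_cases i <;> rfl
  · funext i
    fin_cases i
    · exact (e0 0).trans rfl
    · exact (e0 1).trans rfl
    · exact (e0 2).trans rfl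

end Pool.Agent.Lib.D13.T433
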