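import Pool.Agent.Lib.D13.T433a

/-!
# MP_5dcbc3_ag, type (4, 3, 3): three axes can be raised

`XX w i`: `v ↦ f_i`, `f_i ↦ f_i' ↦ f_i''`, `X_i f_j = w_k f_k''` for `{i, j, k} = {0, 1, 2}`.
-/

set_option autoImplicit false

namespace Pool.Agent.Lib.D13.T433

open Matrix Pool.Agent.Lib.Q5dc Pool.Agent.Lib.D7 Pool.Agent.Lib.D8

variable {k : Type*} [Field k] {ρ : ℕ → ℕ}

/-- block lower triangular matrices, nonzero diagonal only on the last level -/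
def H (a10 a20 a30 : M31 k) (a21 a31 a32 a33 : M3 k) : Matrix I4 I4 k :=
  Matrix.of fun i j => match i, j with
  | .inr (.inl i), .inl j => a10 i j
  | .inr (.inr (.inl i)), .inl j => a20 i j
  | .inr (.inr (.inr i)), .inl j => a30 i j
  | .inr (.inr (.inl i)), .inr (.inl j) => a21 i j
  | .inr (.inr (.inr i)), .inr (.inl j) => a31 i j
  | .inr (.inr (.inr i)), .inr (.inr (.inl j)) => a32 i j
  | .inr (.inr (.inr i)), .inr (.inr (.inr j)) => a33 i j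
  | _, _ => 0

theorem H_mul (a10 a20 a30 b10 b20 b30 : M31 k) (a21 a31 a32 a33 b21 b31 b32 b33 : M3 k) :
    H a10 a20 a30 a21 a31 a32 a33 * H b10 b20 b30 b21 b31 b32 b33 =
      H 0 (a21 * b10) (a31 * b10 + a32 * b20 + a33 * b30) 0 (a32 * b21 + a33 * b31)
        (a33 * b32) (a33 * b33) := by
  ext i j
  rcases i with i | i | i | i <;> rcases j with j | j | j | j <;>
    simp [H, Matrix.mul_apply, Fintype.sum_sum_type, add_assoc]

theorem H_add (a10 a20 a30 b10 b20 b30 : M31 k) (a21 a31 a32 a33 b21 b31 b32 b33 : M3 k) :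
    H a10 a20 a30 a21 a31 a32 a33 + H b10 b20 b30 b21 b31 b32 b33 =
      H (a10 + b10) (a20 + b20) (a30 + b30) (a21 + b21) (a31 + b31) (a32 + b32) (a33 + b33) := by
  ext i j
  rcases i with i | i | i | i <;> rcases j with j | j | j | j <;> simp [H]

theorem H_smul (s : k) (a10 a20 a30 : M31 k) (a21 a31 a32 a33 : M3 k) :
    s • H a10 a20 a30 a21 a31 a32 a33 =
      H (s • a10) (s • a20) (s • a30) (s • a21) (s • a31) (s • a32) (s • a33) := by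
  ext i j
  rcases i with i | i | i | i <;> rcases j with j | j | j | j <;> simp [H]

theorem H_zero : H (0 : M31 k) 0 0 0 0 0 0 = 0 := by
  ext i j
  rcases i with i | i | i | i <;> rcases j with j | j | j | j <;> simp [H]

theorem G_eq_H (a10 a20 a30 : M31 k) (a21 a31 a32 : M3 k) :
    G a10 a20 a30 a21 a31 a32 = H a10 a20 a30 a21 a31 a32 0 := by
  ext i j
  rcases i with i | i | i | i <;> rcases j with j | j | j | j <;> simp [G, H]

theorem H_nil (a10 a20 a30 : M31 k) (a21 a31 a32 a33 : M3 k) (h : a33 * a33 = 0) :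
    IsNilpotent (H a10 a20 a30 a21 a31 a32 a33) := by
  refine ⟨8, ?_⟩
  have h2 : H a10 a20 a30 a21 a31 a32 a33 ^ 2 = H 0 (a21 * a10)
      (a31 * a10 + a32 * a20 + a33 * a30) 0 (a32 * a21 + a33 * a31) (a33 * a32) 0 := by
    rw [pow_two, H_mul, h]
  rw [show (8 : ℕ) = 2 * 4 from rfl, pow_mul, h2, show (4 : ℕ) = 2 + 2 from rfl, pow_add, pow_two,
    H_mul, H_mul]
  simp [H_zero]

/-- coordinate columns -/
def ec (i : Fin 3) : M31 k := (![!![1; 0; 0], !![0; 1; 0], !![0; 0; 1]] : Fin 3 → M31 k) i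

/-- coordinate projections -/
def pj (i : Fin 3) : M3 k := (![!![1, 0, 0; 0, 0, 0; 0, 0, 0], !![0, 0, 0; 0, 1, 0; 0, 0, 0],
  !![0, 0, 0; 0, 0, 0; 0, 0, 1]] : Fin 3 → M3 k) i

/-- the products of the axes -/
def W (w : Fin 3 → k) (i : Fin 3) : M3 k := (![!![0, 0, 0; 0, 0, w 1; 0, w 2, 0],
  !![0, 0, w 0; 0, 0, 0; w 2, 0, 0], !![0, w 0, 0; w 1, 0, 0; 0, 0, 0]] : Fin 3 → M3 k) i

/-- three axes -/
def XX (w : Fin 3 → k) (i : Fin 3) : Matrix I4 I4 k := G (ec i) 0 0 (pj i) (W w i) (pj i)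

/-- the deformed axes -/
def YY (w : Fin 3 → k) (t1 t2 t s : k) : Fin 3 → Matrix I4 I4 k :=
  ![H (ec 0) 0 0 !![1, 0, 0; 0, 0, 0; 0, s * t, 0] (W w 0) (pj 0) !![0, 0, 0; 0, 0, 0; s * t1, 0, 0],
    H (ec 1) 0 0 !![0, 0, 0; 0, 1, 0; s * t, 0, 0] (W w 1) (pj 1) !![0, 0, 0; 0, 0, 0; 0, s * t2, 0],
    H (ec 2) 0 0 (pj 2) (W w 2) (pj 2) 0]

theorem YY_cn (w : Fin 3 → k) {t1 t2 t : k} (h1 : w 0 * t1 = t) (h2 : w 1 * t2 = t) (s : k) :
    CN (YY w t1 t2 t s) := by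
  have c01 : YY w t1 t2 t s 0 * YY w t1 t2 t s 1 = YY w t1 t2 t s 1 * YY w t1 t2 t s 0 := by
    show H _ _ _ _ _ _ _ * H _ _ _ _ _ _ _ = H _ _ _ _ _ _ _ * H _ _ _ _ _ _ _
    rw [H_mul, H_mul]
    congr 1 <;> ext i j <;> fin_cases i <;> fin_cases j <;>
      simp [ec, pj, W, Matrix.mul_apply, Fin.sum_univ_three] <;>
      linear_combination s * h1 - s * h2
  have c02 : YY w t1 t2 t s 0 * YY w t1 t2 t s 2 = YY w t1 t2 t s 2 * YY w t1 t2 t s 0 := by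
    show H _ _ _ _ _ _ _ * H _ _ _ _ _ _ _ = H _ _ _ _ _ _ _ * H _ _ _ _ _ _ _
    rw [H_mul, H_mul]
    congr 1 <;> ext i j <;> fin_cases i <;> fin_cases j <;>
      simp [ec, pj, W, Matrix.mul_apply, Fin.sum_univ_three] <;>
      linear_combination s * h1
  have c12 : YY w t1 t2 t s 1 * YY w t1 t2 t s 2 = YY w t1 t2 t s 2 * YY w t1 t2 t s 1 := by
    show H _ _ _ _ _ _ _ * H _ _ _ _ _ _ _ = H _ _ _ _ _ _ _ * H _ _ _ _ _ _ _
    rw [H_mul, H_mul]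
    congr 1 <;> ext i j <;> fin_cases i <;> fin_cases j <;>
      simp [ec, pj, W, Matrix.mul_apply, Fin.sum_univ_three] <;>
      linear_combination s * h2
  have h : YY w t1 t2 t s = ![YY w t1 t2 t s 0, YY w t1 t2 t s 1, YY w t1 t2 t s 2] := by
    funext i
    fin_cases i <;> rfl
  rw [h]
  refine cn3 c01 c02 c12 ?_ ?_ ?_
  · refine H_nil _ _ _ _ _ _ _ ?_
    ext i j
    fin_cases i <;> fin_cases j <;> simp [Matrix.mul_apply, Fin.sum_univ_three]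
  · refine H_nil _ _ _ _ _ _ _ ?_
    ext i j
    fin_cases i <;> fin_cases j <;> simp [Matrix.mul_apply, Fin.sum_univ_three]
  · exact H_nil _ _ _ _ _ _ _ (mul_zero _)

/-- the directions -/
def DD (t1 t2 t : k) : Fin 3 → Matrix I4 I4 k :=
  ![H 0 0 0 !![0, 0, 0; 0, 0, 0; 0, t, 0] 0 0 !![0, 0, 0; 0, 0, 0; t1, 0, 0],
    H 0 0 0 !![0, 0, 0; 0, 0, 0; t, 0, 0] 0 0 !![0, 0, 0; 0, 0, 0; 0, t2, 0], 0]

theorem YY_line (w : Fin 3 → k) (t1 t2 t s : k) :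
    YY w t1 t2 t s = ![XX w 0 + s • DD t1 t2 t 0, XX w 1 + s • DD t1 t2 t 1,
      XX w 2 + s • DD t1 t2 t 2] := by
  unfold XX
  simp only [G_eq_H]
  funext i
  fin_cases i
  · show H _ _ _ _ _ _ _ = H _ _ _ _ _ _ _ + s • H _ _ _ _ _ _ _
    rw [H_smul, H_add]
    congr 1 <;> ext i j <;> fin_cases i <;> fin_cases j <;> simp [pj]
  · show H _ _ _ _ _ _ _ = H _ _ _ _ _ _ _ + s • H _ _ _ _ _ _ _
    rw [H_smul, H_add]
    congr 1 <;> ext i j <;> fin_cases i <;> fin_cases j <;> simp [pj]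
  · show H _ _ _ _ _ _ _ = H _ _ _ _ _ _ _ + s • (0 : Matrix I4 I4 k)
    rw [smul_zero, add_zero]

theorem pow4 (a10 a20 a30 : M31 k) (a21 a31 a32 a33 : M3 k) (h : a33 * a33 = 0) :
    H a10 a20 a30 a21 a31 a32 a33 ^ 4 = H 0 0 (a33 * a32 * (a21 * a10)) 0 0 0 0 := by
  rw [show (4 : ℕ) = 2 + 2 from rfl, pow_add, pow_two, H_mul, H_mul, h]
  simp [← Matrix.mul_assoc]

/-- the raise -/
theorem raise [CharZero k] (h4 : ρ 4 = 0) {w : Fin 3 → k} (hT : MaxR ρ ![XX w 0, XX w 1, XX w 2]) :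
    False := by
  have hinf : Infinite k := CharZero.infinite k
  obtain ⟨t1, t2, t, h1, h2, h3⟩ : ∃ t1 t2 t : k, w 0 * t1 = t ∧ w 1 * t2 = t ∧
      (t1 ≠ 0 ∨ t2 ≠ 0) := by
    by_cases c0 : w 0 = 0
    · by_cases c1 : w 1 = 0
      · exact ⟨1, 0, 0, by rw [c0]; ring, by ring, Or.inl one_ne_zero⟩
      · exact ⟨w 1, w 0, w 0 * w 1, rfl, by ring, Or.inl c1⟩
    · exact ⟨w 1, w 0, w 0 * w 1, rfl, by ring, Or.inr c0⟩
  have hcn : ∀ s : k, CN ![XX w 0 + s • DD t1 t2 t 0, XX w 1 + s • DD t1 t2 t 1,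
      XX w 2 + s • DD t1 t2 t 2] := by
    intro s
    rw [← YY_line]
    exact YY_cn w h1 h2 s
  have hinf0 : ({0}ᶜ : Set k).Infinite := (Set.finite_singleton (0 : k)).infinite_compl
  rcases h3 with h3 | h3
  · refine MaxR.raise0 hT _ _ _ hcn 4 h4 1 0 0 (hinf0.mono fun s hs => ?_)
    have hs' : s ≠ 0 := hs
    have e := congrFun (YY_line w t1 t2 t s) 0
    have e' : XX w 0 + s • DD t1 t2 t 0 = H (ec 0) 0 0 !![1, 0, 0; 0, 0, 0; 0, s * t, 0] (W w 0)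
        (pj 0) !![0, 0, 0; 0, 0, 0; s * t1, 0, 0] := e.symm
    show ((1 : k) • (XX w 0 + s • DD t1 t2 t 0) + (0 : k) • (XX w 1 + s • DD t1 t2 t 1) +
      (0 : k) • (XX w 2 + s • DD t1 t2 t 2)) ^ 4 ≠ 0
    rw [one_smul, zero_smul, zero_smul, add_zero, add_zero, e', pow4 _ _ _ _ _ _ _ (by
      ext i j
      fin_cases i <;> fin_cases j <;> simp [Matrix.mul_apply, Fin.sum_univ_three])]
    intro h0
    have h5 := congrFun (congrFun h0 (.inr (.inr (.inr 2)))) (.inl 0)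
    simp [H, pj, ec, Matrix.mul_apply, Fin.sum_univ_three] at h5
    exact h5.elim hs' h3
  · refine MaxR.raise0 hT _ _ _ hcn 4 h4 0 1 0 (hinf0.mono fun s hs => ?_)
    have hs' : s ≠ 0 := hs
    have e := congrFun (YY_line w t1 t2 t s) 1
    have e' : XX w 1 + s • DD t1 t2 t 1 = H (ec 1) 0 0 !![0, 0, 0; 0, 1, 0; s * t, 0, 0] (W w 1)
        (pj 1) !![0, 0, 0; 0, 0, 0; 0, s * t2, 0] := e.symm
    show ((0 : k) • (XX w 0 + s • DD t1 t2 t 0) + (1 : k) • (XX w 1 + s • DD t1 t2 t 1) +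
      (0 : k) • (XX w 2 + s • DD t1 t2 t 2)) ^ 4 ≠ 0
    rw [one_smul, zero_smul, zero_smul, add_zero, zero_add, e', pow4 _ _ _ _ _ _ _ (by
      ext i j
      fin_cases i <;> fin_cases j <;> simp [Matrix.mul_apply, Fin.sum_univ_three])]
    intro h0
    have h5 := congrFun (congrFun h0 (.inr (.inr (.inr 2)))) (.inl 0)
    simp [H, pj, ec, Matrix.mul_apply, Fin.sum_univ_three] at h5
    exact h5.elim hs' h3

end Pool.Agent.Lib.D13.T433
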