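import Pool.Agent.Lib.D13.K4421
import Pool.Agent.Lib.D13.F42Z
import Pool.Agent.Lib.D13.Auto
import Pool.Agent.Lib.D13.JordanU

/-!
# MP_5dcbc3_ag: there is no maximal bad triple of type `(4, 4, 2, 1)`
-/

namespace Pool.Agent.Lib.D13.F42

open Matrix Pool.Agent.Lib.Q5dc Pool.Agent.Lib.D7

universe u

/-- the Jordan matrix over an extension -/
theorem JX_map {k K : Type*} [Field k] [Field K] [Algebra k K] {q r p : ℕ} :
    (JX k q r p).map (algebraMap k K) = JX K q r p := by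
  ext i j
  rcases i with (i | i | i | i) | ((i | i) | i) <;> rcases j with (j | j | j | j) | ((j | j) | j) <;>
    simp [JX, BX, Matrix.one_apply, apply_ite]

/-- the entries of `BX x` are in `FF k t` -/
theorem In.mem {k K : Type*} [Field k] [Field K] [Algebra k K] {q r p : ℕ} {t : Set K}
    {x : Par K q r p} (h : In k t x) (i j : Ix q r p) : BX x i j ∈ FF k t := by
  obtain ⟨h1, h2, h3, h4, h5, h6, h7, h8, h9, h10, h11, h12⟩ := h
  rcases i with (i | i | i | i) | ((i | i) | i) <;> rcases j with (j | j | j | j) | ((j | j) | j) <;>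
    first | exact zero_mem _ | exact h1.mem _ _ | exact h2.mem _ _ | exact h3.mem _ _ |
      exact h4.mem _ _ | exact h5.mem _ _ | exact h6.mem _ _ | exact h7.mem _ _ |
      exact h8.mem _ _ | exact h9.mem _ _ | exact h10.mem _ _ | exact h11.mem _ _ |
      exact h12.mem _ _

/-- the entries of the Jordan matrix are constants -/
theorem JX_mem {k K : Type*} [Field k] [Field K] [Algebra k K] {q r p : ℕ} {t : Set K}
    (i j : Ix q r p) : JX K q r p i j ∈ FF k t := by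
  refine In.mem (x := Par.J K q r p) ?_ i j
  constructor <;> (unfold Par.J; dsimp only; infer_instance)

/-- a count of the parameters excludes the maximal bad triples of the type `(4^q, 2^r, 1^p)` -/
theorem no_of_count {k : Type u} [Field k] [IsAlgClosed k] [CharZero k] {q r p : ℕ}
    (hall : HALL k (4 * q + 2 * r + p)) (hb : p ≤ 2 * q) (h2 : 2 ≤ 4 * q + 2 * r + p)
    (hcount : ∀ (K : Type u) [Field K] [IsAlgClosed K] [CharZero K] [Algebra k K] (ρ : ℕ → ℕ)
      (x y : Par K q r p), MaxR ρ ![JX K q r p, BX x, BX y] → (JX K q r p).rank = ρ 1 →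
      ∃ (t : Set K) (N : ℕ), N + 3 ≤ 4 * (q * q) + 4 * (q * r) + 2 * (q * p) + 2 * (r * r) +
        2 * (r * p) + p * p + (4 * q + 2 * r + p) ∧ Bd k t N ∧ In k t x ∧ In k t y)
    {ρ : ℕ → ℕ} {T : Fin 3 → Matrix (Ix q r p) (Ix q r p) k} (hT : MaxR ρ T)
    (hρ : ∀ i, ρ i = (JX k q r p ^ i).rank) (h0 : T 0 = JX k q r p) : False := by
  have hcard : Fintype.card (Ix q r p) = 4 * q + 2 * r + p := by
    simp only [Fintype.card_sum, Fintype.card_fin]
    omega
  have hρ1 : ρ 1 = 3 * q + r := by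
    rw [hρ, pow_one, JX_rank_eq]
  obtain ⟨K, i1, i2, i3, i4, T', hT', h0', -, hd⟩ := auto_maxR (k := k) (T := T) (ρ := ρ)
    (by rw [hcard]; exact hall) hT (fun i => by rw [h0, hρ]) (by rw [hcard]; exact h2)
    (by rw [hcard, hρ1]; omega)
  have h00 : T' 0 = JX K q r p := by rw [h0', h0, JX_map]
  have hA : JX K q r p ∈ adj T' := h00 ▸ mem_adj T' 0
  have hρ2 : ρ 2 ≤ 2 * q := by
    rw [hρ]
    exact JX_rank_sq
  have hρ4 : ρ 4 = 0 := by
    rw [hρ, JX_four, Matrix.rank_zero]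
  obtain ⟨x, e1⟩ := shape2 hT' hρ1.le hρ2 hρ4 hA (mem_adj T' 1)
  obtain ⟨y, e2⟩ := shape2 hT' hρ1.le hρ2 hρ4 hA (mem_adj T' 2)
  have e : T' = ![JX K q r p, BX x, BX y] := by
    funext i
    fin_cases i
    · exact h00
    · exact e1
    · exact e2
  subst e
  obtain ⟨t, N, hN, Bt, ix, iy⟩ := hcount K ρ x y hT' (by rw [JX_rank_eq, hρ1])
  have h1 : rk k (Set.range (co ![JX K q r p, BX x, BX y])) ≤ rk k t := by
    refine rk_le ?_
    rintro _ ⟨⟨i, a, b⟩, rfl⟩
    fin_cases i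
    · exact JX_mem a b
    · exact ix.mem a b
    · exact iy.mem a b
  have h3 := (hd.trans h1).trans Bt
  rw [hcard, h0] at h3
  have h4 := finrank_cen (k := k) (q := q) (r := r) (p := p)
  have h5 : Module.finrank k (Pur.cen (JX k q r p)) + (4 * q + 2 * r + p) - 2 ≤ N := by
    exact_mod_cast h3
  omega

/-- there is no maximal bad triple of type `(4, 4, 2, 1)` -/
theorem no_4421 {k : Type u} [Field k] [IsAlgClosed k] [CharZero k] (hall : HALL k 11)
    {ρ : ℕ → ℕ} {T : Fin 3 → Matrix (Ix 2 1 1) (Ix 2 1 1) k} (hT : MaxR ρ T)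
    (hρ : ∀ i, ρ i = (JX k 2 1 1 ^ i).rank) (h0 : T 0 = JX k 2 1 1) : False := by
  refine no_of_count (q := 2) (r := 1) (p := 1) hall (by omega) (by omega) ?_ hT hρ h0
  intro K _ _ _ _ ρ x y h hr
  obtain ⟨h1, h2, h3⟩ := pe0' h hr
  obtain ⟨t, Bt, hx, hy⟩ := count (k := k) (h.cn.1 1 2) (pe_cases h1 h2 h3)
  exact ⟨t, 41, by norm_num, Bt, hx, hy⟩

/-- the place of the basis vectors in the boxes of `(4, 4, 2, 1)` -/
def box4421 : Ix 2 1 1 → IxL [4, 4, 2, 1]
  | .inl (.inl 0) => ⟨0, (0 : Fin 4)⟩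
  | .inl (.inl 1) => ⟨1, (0 : Fin 4)⟩
  | .inl (.inr (.inl 0)) => ⟨0, (1 : Fin 4)⟩
  | .inl (.inr (.inl 1)) => ⟨1, (1 : Fin 4)⟩
  | .inl (.inr (.inr (.inl 0))) => ⟨0, (2 : Fin 4)⟩
  | .inl (.inr (.inr (.inl 1))) => ⟨1, (2 : Fin 4)⟩
  | .inl (.inr (.inr (.inr 0))) => ⟨0, (3 : Fin 4)⟩
  | .inl (.inr (.inr (.inr 1))) => ⟨1, (3 : Fin 4)⟩
  | .inr (.inl (.inl _)) => ⟨2, (0 : Fin 2)⟩
  | .inr (.inl (.inr _)) => ⟨2, (1 : Fin 2)⟩
  | .inr (.inr _) => ⟨3, (0 : Fin 1)⟩

end Pool.Agent.Lib.D13.F42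

namespace Pool.Agent.Lib.D13

open Matrix Pool.Agent.Lib.Q5dc Pool.Agent.Lib.D7

universe u

/-- the list `(4, 4, 2, 1)` is not bad -/
theorem not_bad_4421 {k : Type u} [Field k] [IsAlgClosed k] [CharZero k] (hall : HALL k 11) :
    ¬ Bad k [4, 4, 2, 1] := by
  intro hb
  have hinf : Infinite k := IsAlgClosed.instInfinite
  obtain ⟨ρ, T, hT, hρ, h0⟩ := hb.bridge (F42.JX k 2 1 1) F42.box4421 (by decide +kernel) rfl (by
    intro i j
    rcases i with (i | i | i | i) | ((i | i) | i) <;>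
      rcases j with (j | j | j | j) | ((j | j) | j) <;> fin_cases i <;> fin_cases j <;>
      simp [F42.JX, F42.BX, F42.box4421, Matrix.one_apply])
  exact F42.no_4421 hall hT hρ h0

end Pool.Agent.Lib.D13
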