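import Pool.Agent.Lib.D8.UtilB

/-!
# MP_5dcbc3_ag: type (4, 4, 3), block matrices

`T ι P Q R`: levels `E = k ^ 2`, `V`, `V`, `V` (`V = k ^ 3`, `ι : E → V`); `P` raises the level by
one, `Q` by two, `R : E → V` by three.  `A = T ι 1 0 0`.
-/

set_option autoImplicit false

namespace Pool.Agent.Lib.D13.T443

open Matrix Pool.Agent.Lib.Q5dc Pool.Agent.Lib.D7 Pool.Agent.Lib.D8

variable {k : Type*} [Field k]

abbrev I4 := Fin 2 ⊕ (Fin 3 ⊕ (Fin 3 ⊕ Fin 3))
abbrev M3 (k : Type*) := Matrix (Fin 3) (Fin 3) k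
abbrev M32 (k : Type*) := Matrix (Fin 3) (Fin 2) k

/-- block strictly lower triangular matrices -/
def G (a10 a20 a30 : M32 k) (a21 a31 a32 : M3 k) : Matrix I4 I4 k :=
  Matrix.of fun i j => match i, j with
  | .inr (.inl i), .inl j => a10 i j
  | .inr (.inr (.inl i)), .inl j => a20 i j
  | .inr (.inr (.inr i)), .inl j => a30 i j
  | .inr (.inr (.inl i)), .inr (.inl j) => a21 i j
  | .inr (.inr (.inr i)), .inr (.inl j) => a31 i j
  | .inr (.inr (.inr i)), .inr (.inr (.inl j)) => a32 i j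
  | _, _ => 0

theorem G_mul (a10 a20 a30 b10 b20 b30 : M32 k) (a21 a31 a32 b21 b31 b32 : M3 k) :
    G a10 a20 a30 a21 a31 a32 * G b10 b20 b30 b21 b31 b32 =
      G 0 (a21 * b10) (a31 * b10 + a32 * b20) 0 (a32 * b21) 0 := by
  ext i j
  rcases i with i | i | i | i <;> rcases j with j | j | j | j <;>
    simp [G, Matrix.mul_apply, Fintype.sum_sum_type]

theorem G_add (a10 a20 a30 b10 b20 b30 : M32 k) (a21 a31 a32 b21 b31 b32 : M3 k) :
    G a10 a20 a30 a21 a31 a32 + G b10 b20 b30 b21 b31 b32 =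
      G (a10 + b10) (a20 + b20) (a30 + b30) (a21 + b21) (a31 + b31) (a32 + b32) := by
  ext i j
  rcases i with i | i | i | i <;> rcases j with j | j | j | j <;> simp [G]

theorem G_smul (s : k) (a10 a20 a30 : M32 k) (a21 a31 a32 : M3 k) :
    s • G a10 a20 a30 a21 a31 a32 =
      G (s • a10) (s • a20) (s • a30) (s • a21) (s • a31) (s • a32) := by
  ext i j
  rcases i with i | i | i | i <;> rcases j with j | j | j | j <;> simp [G]

theorem G_zero : G (0 : M32 k) 0 0 0 0 0 = 0 := by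
  ext i j
  rcases i with i | i | i | i <;> rcases j with j | j | j | j <;> simp [G]

theorem G_inj {a10 a20 a30 b10 b20 b30 : M32 k} {a21 a31 a32 b21 b31 b32 : M3 k}
    (h : G a10 a20 a30 a21 a31 a32 = G b10 b20 b30 b21 b31 b32) :
    a10 = b10 ∧ a20 = b20 ∧ a30 = b30 ∧ a21 = b21 ∧ a31 = b31 ∧ a32 = b32 := by
  have H := fun i j => congrFun (congrFun h i) j
  refine ⟨?_, ?_, ?_, ?_, ?_, ?_⟩ <;> ext i j
  · exact H (.inr (.inl i)) (.inl j)
  · exact H (.inr (.inr (.inl i))) (.inl j)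
  · exact H (.inr (.inr (.inr i))) (.inl j)
  · exact H (.inr (.inr (.inl i))) (.inr (.inl j))
  · exact H (.inr (.inr (.inr i))) (.inr (.inl j))
  · exact H (.inr (.inr (.inr i))) (.inr (.inr (.inl j)))

theorem G_ext {a10 a20 a30 b10 b20 b30 : M32 k} {a21 a31 a32 b21 b31 b32 : M3 k}
    (h1 : a10 = b10) (h2 : a20 = b20) (h3 : a30 = b30) (h4 : a21 = b21) (h5 : a31 = b31)
    (h6 : a32 = b32) : G a10 a20 a30 a21 a31 a32 = G b10 b20 b30 b21 b31 b32 := by
  rw [h1, h2, h3, h4, h5, h6]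

theorem G_nil (a10 a20 a30 : M32 k) (a21 a31 a32 : M3 k) :
    IsNilpotent (G a10 a20 a30 a21 a31 a32) := by
  refine ⟨4, ?_⟩
  rw [show (4 : ℕ) = 2 + 2 from rfl, pow_add, pow_two, G_mul, G_mul]
  simp [G_zero]

/-- the matrices which raise the level -/
def T (ι : M32 k) (P Q : M3 k) (R : M32 k) : Matrix I4 I4 k := G (P * ι) (Q * ι) R P Q P

theorem T_mul (ι : M32 k) (P Q P' Q' : M3 k) (R R' : M32 k) :
    T ι P Q R * T ι P' Q' R' = G 0 (P * P' * ι) ((Q * P' + P * Q') * ι) 0 (P * P') 0 := by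
  unfold T
  rw [G_mul]
  congr 1
  · rw [Matrix.mul_assoc]
  · rw [Matrix.add_mul, Matrix.mul_assoc, Matrix.mul_assoc]

theorem T_add (ι : M32 k) (P Q P' Q' : M3 k) (R R' : M32 k) :
    T ι P Q R + T ι P' Q' R' = T ι (P + P') (Q + Q') (R + R') := by
  unfold T
  rw [G_add, Matrix.add_mul, Matrix.add_mul]

theorem T_smul (ι : M32 k) (s : k) (P Q : M3 k) (R : M32 k) :
    s • T ι P Q R = T ι (s • P) (s • Q) (s • R) := by
  unfold T
  rw [G_smul, Matrix.smul_mul, Matrix.smul_mul]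

theorem T_zero (ι : M32 k) : T ι 0 0 0 = 0 := by
  unfold T
  rw [Matrix.zero_mul, G_zero]

theorem T_nil (ι : M32 k) (P Q : M3 k) (R : M32 k) : IsNilpotent (T ι P Q R) := G_nil ..

theorem T_comm_iff {ι : M32 k} {P Q P' Q' : M3 k} {R R' : M32 k} :
    T ι P Q R * T ι P' Q' R' = T ι P' Q' R' * T ι P Q R ↔
      P * P' = P' * P ∧ (Q * P' + P * Q') * ι = (Q' * P + P' * Q) * ι := by
  rw [T_mul, T_mul]
  constructor
  · intro h
    obtain ⟨-, -, h1, -, h2, -⟩ := G_inj h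
    exact ⟨h2, h1⟩
  · rintro ⟨h1, h2⟩
    rw [h1, h2]

/-- the first matrix -/
abbrev A4 (ι : M32 k) : Matrix I4 I4 k := T ι 1 0 0

theorem A4_comm (ι : M32 k) (P Q : M3 k) (R : M32 k) : A4 ι * T ι P Q R = T ι P Q R * A4 ι := by
  rw [T_comm_iff]
  simp

theorem cnT {ι : M32 k} {P Q P' Q' : M3 k} {R R' : M32 k} (h1 : P * P' = P' * P)
    (h2 : (Q * P' + P * Q') * ι = (Q' * P + P' * Q) * ι) :
    CN ![A4 ι, T ι P Q R, T ι P' Q' R'] :=
  cn3 (A4_comm ..) (A4_comm ..) (T_comm_iff.2 ⟨h1, h2⟩) (T_nil ..) (T_nil ..) (T_nil ..)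

variable {ρ : ℕ → ℕ}

theorem max_rel {ι : M32 k} {P Q P' Q' : M3 k} {R R' : M32 k}
    (hT : MaxR ρ ![A4 ι, T ι P Q R, T ι P' Q' R']) :
    P * P' = P' * P ∧ (Q * P' + P * Q') * ι = (Q' * P + P' * Q) * ι :=
  T_comm_iff.1 (hT.cn.1 1 2)

/-! ### block diagonal changes of basis -/

/-- `h` on level 0, `g` on the levels 1, 2, 3 -/
def Dg (h : Matrix (Fin 2) (Fin 2) k) (g : M3 k) : Matrix I4 I4 k :=
  Matrix.of fun i j => match i, j with
  | .inl i, .inl j => h i j
  | .inr (.inl i), .inr (.inl j) => g i j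
  | .inr (.inr (.inl i)), .inr (.inr (.inl j)) => g i j
  | .inr (.inr (.inr i)), .inr (.inr (.inr j)) => g i j
  | _, _ => 0

theorem Dg_mul (h h' : Matrix (Fin 2) (Fin 2) k) (g g' : M3 k) :
    Dg h g * Dg h' g' = Dg (h * h') (g * g') := by
  ext i j
  rcases i with i | i | i | i <;> rcases j with j | j | j | j <;>
    simp [Dg, Matrix.mul_apply, Fintype.sum_sum_type]

theorem Dg_one : Dg (1 : Matrix (Fin 2) (Fin 2) k) (1 : M3 k) = 1 := by
  ext i j
  rcases i with i | i | i | i <;> rcases j with j | j | j | j <;>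
    simp [Dg, Matrix.one_apply]

theorem Dg_G (h : Matrix (Fin 2) (Fin 2) k) (g : M3 k) (a10 a20 a30 : M32 k) (a21 a31 a32 : M3 k) :
    Dg h g * G a10 a20 a30 a21 a31 a32 =
      G (g * a10) (g * a20) (g * a30) (g * a21) (g * a31) (g * a32) := by
  ext i j
  rcases i with i | i | i | i <;> rcases j with j | j | j | j <;>
    simp [Dg, G, Matrix.mul_apply, Fintype.sum_sum_type]

theorem G_Dg (h : Matrix (Fin 2) (Fin 2) k) (g : M3 k) (a10 a20 a30 : M32 k) (a21 a31 a32 : M3 k) :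
    G a10 a20 a30 a21 a31 a32 * Dg h g =
      G (a10 * h) (a20 * h) (a30 * h) (a21 * g) (a31 * g) (a32 * g) := by
  ext i j
  rcases i with i | i | i | i <;> rcases j with j | j | j | j <;>
    simp [Dg, G, Matrix.mul_apply, Fintype.sum_sum_type]

theorem conjT {h h' : Matrix (Fin 2) (Fin 2) k} {g g' : M3 k} (hg : g' * g = 1)
    (ι : M32 k) (P Q : M3 k) (R : M32 k) :
    Dg h g * T ι P Q R * Dg h' g' =
      T (g * ι * h') (g * P * g') (g * Q * g') (g * R * h') := by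
  unfold T
  rw [Dg_G, G_Dg]
  have e : ∀ X : M3 k, g * (X * ι) * h' = g * X * g' * (g * ι * h') := by
    intro X
    calc g * (X * ι) * h' = g * X * 1 * ι * h' := by simp only [Matrix.mul_assoc, Matrix.one_mul]
      _ = g * X * (g' * g) * ι * h' := by rw [hg]
      _ = g * X * g' * (g * ι * h') := by simp only [Matrix.mul_assoc]
  rw [e, e]

theorem max_conj {h h' : Matrix (Fin 2) (Fin 2) k} {g g' : M3 k} (hh : h * h' = 1)
    (hg : g * g' = 1) {ι : M32 k} {P Q P' Q' : M3 k} {R R' : M32 k}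
    (hT : MaxR ρ ![A4 ι, T ι P Q R, T ι P' Q' R']) :
    MaxR ρ ![A4 (g * ι * h'), T (g * ι * h') (g * P * g') (g * Q * g') (g * R * h'),
      T (g * ι * h') (g * P' * g') (g * Q' * g') (g * R' * h')] := by
  have hg' : g' * g = 1 := mul_eq_one_comm.1 hg
  have hh' : h' * h = 1 := mul_eq_one_comm.1 hh
  have h1 := hT.conj (Dg h g) (Dg h' g') (by rw [Dg_mul, hh, hg, Dg_one])
    (by rw [Dg_mul, hh', hg', Dg_one])
  have h2 : (fun i => Dg h g * (![A4 ι, T ι P Q R, T ι P' Q' R'] :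
      Fin 3 → Matrix I4 I4 k) i * Dg h' g') =
      ![A4 (g * ι * h'), T (g * ι * h') (g * P * g') (g * Q * g') (g * R * h'),
      T (g * ι * h') (g * P' * g') (g * Q' * g') (g * R' * h')] := by
    funext i
    fin_cases i
    · refine (conjT hg' ι 1 0 0).trans ?_
      change _ = T _ _ _ _
      congr 1
      · rw [mul_one, hg]
      · rw [mul_zero, zero_mul]
      · rw [Matrix.mul_zero, Matrix.zero_mul]
    · exact conjT hg' ..
    · exact conjT hg' ..
  rwa [h2] at h1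

/-! ### unipotent changes of basis -/

theorem max_unip1 (L : M3 k) {ι : M32 k} {P Q P' Q' : M3 k} {R R' : M32 k}
    (hT : MaxR ρ ![A4 ι, T ι P Q R, T ι P' Q' R']) :
    MaxR ρ ![A4 ι, T ι P (Q + L * P - P * L) (R + L * Q * ι - (Q + L * P - P * L) * L * ι),
      T ι P' (Q' + L * P' - P' * L) (R' + L * Q' * ι - (Q' + L * P' - P' * L) * L * ι)] := by
  set N : Matrix I4 I4 k := T ι L 0 0 with hN
  have hN4 : N * N * (N * N) = 0 := by
    rw [hN, T_mul, G_mul]
    simp [G_zero]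
  have e1 : (1 + N) * (1 - N + N * N - N * N * N) = 1 := by
    have : (1 + N) * (1 - N + N * N - N * N * N) = 1 - N * N * (N * N) := by noncomm_ring
    rw [this, hN4, sub_zero]
  have e2 : (1 - N + N * N - N * N * N) * (1 + N) = 1 := by
    have : (1 - N + N * N - N * N * N) * (1 + N) = 1 - N * N * (N * N) := by noncomm_ring
    rw [this, hN4, sub_zero]
  have key : ∀ (P Q : M3 k) (R : M32 k), (1 + N) * T ι P Q R * (1 - N + N * N - N * N * N) =
      T ι P (Q + L * P - P * L) (R + L * Q * ι - (Q + L * P - P * L) * L * ι) := by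
    intro P Q R
    have h : (1 + N) * T ι P Q R =
        T ι P (Q + L * P - P * L) (R + L * Q * ι - (Q + L * P - P * L) * L * ι) * (1 + N) := by
      rw [add_mul, mul_add, one_mul, mul_one, hN, T_mul, T_mul]
      unfold T
      rw [G_add, G_add]
      refine G_ext rfl ?_ ?_ rfl ?_ rfl
      · simp only [Matrix.add_mul, Matrix.sub_mul]
        abel
      · simp only [zero_mul, mul_zero, zero_add, add_zero]
        abel
      · abel
    rw [h, mul_assoc, e1, mul_one]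
  have h1 := hT.conj _ _ e1 e2
  have h2 : (fun i => (1 + N) * (![A4 ι, T ι P Q R, T ι P' Q' R'] :
      Fin 3 → Matrix I4 I4 k) i * (1 - N + N * N - N * N * N)) =
      ![A4 ι, T ι P (Q + L * P - P * L) (R + L * Q * ι - (Q + L * P - P * L) * L * ι),
      T ι P' (Q' + L * P' - P' * L) (R' + L * Q' * ι - (Q' + L * P' - P' * L) * L * ι)] := by
    funext i
    fin_cases i
    · refine (key 1 0 0).trans ?_
      change _ = T _ _ _ _
      congr 1
      · simp
      · simp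
    · exact key ..
    · exact key ..
  rwa [h2] at h1

theorem max_unip2 (L : M3 k) {ι : M32 k} {P Q P' Q' : M3 k} {R R' : M32 k}
    (hT : MaxR ρ ![A4 ι, T ι P Q R, T ι P' Q' R']) :
    MaxR ρ ![A4 ι, T ι P Q (R + (L * P - P * L) * ι),
      T ι P' Q' (R' + (L * P' - P' * L) * ι)] := by
  set N : Matrix I4 I4 k := T ι 0 L 0 with hN
  have hN2 : N * N = 0 := by
    rw [hN, T_mul]
    simp [G_zero]
  have e1 : (1 + N) * (1 - N) = 1 := by
    have : (1 + N) * (1 - N) = 1 - N * N := by noncomm_ring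
    rw [this, hN2, sub_zero]
  have e2 : (1 - N) * (1 + N) = 1 := by
    have : (1 - N) * (1 + N) = 1 - N * N := by noncomm_ring
    rw [this, hN2, sub_zero]
  have key : ∀ (P Q : M3 k) (R : M32 k), (1 + N) * T ι P Q R * (1 - N) =
      T ι P Q (R + (L * P - P * L) * ι) := by
    intro P Q R
    have h : (1 + N) * T ι P Q R = T ι P Q (R + (L * P - P * L) * ι) * (1 + N) := by
      rw [add_mul, mul_add, one_mul, mul_one, hN, T_mul, T_mul]
      unfold T
      rw [G_add, G_add]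
      refine G_ext (by simp) (by simp) ?_ (by simp) (by simp) (by simp)
      simp only [zero_mul, mul_zero, zero_add, add_zero, Matrix.sub_mul]
      abel
    rw [h, mul_assoc, e1, mul_one]
  have h1 := hT.conj _ _ e1 e2
  have h2 : (fun i => (1 + N) * (![A4 ι, T ι P Q R, T ι P' Q' R'] :
      Fin 3 → Matrix I4 I4 k) i * (1 - N)) =
      ![A4 ι, T ι P Q (R + (L * P - P * L) * ι), T ι P' Q' (R' + (L * P' - P' * L) * ι)] := by
    funext i
    fin_cases i
    · refine (key 1 0 0).trans ?_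
      change _ = T _ _ _ _
      congr 1
      simp
    · exact key ..
    · exact key ..
  rwa [h2] at h1

/-! ### changes of the generators -/

theorem max_lin (a b c d x z : k) (hd : a * d - b * c ≠ 0)
    {ι : M32 k} {P Q P' Q' : M3 k} {R R' : M32 k}
    (hT : MaxR ρ ![A4 ι, T ι P Q R, T ι P' Q' R']) :
    MaxR ρ ![A4 ι, T ι (a • P + b • P' + x • 1) (a • Q + b • Q') (a • R + b • R'),
      T ι (c • P + d • P' + z • 1) (c • Q + d • Q') (c • R + d • R')] := by
  have h := MaxR.lin hT a b c d x 0 z 0 hd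
  have e : ∀ a b x : k, a • T ι P Q R + b • T ι P' Q' R' + x • A4 ι +
      (0 : k) • (A4 ι * A4 ι) =
      T ι (a • P + b • P' + x • 1) (a • Q + b • Q') (a • R + b • R') := by
    intro a b x
    rw [zero_smul, add_zero, T_smul, T_smul, T_smul, T_add, T_add, smul_zero, smul_zero, add_zero,
      add_zero]
  rw [e, e] at h
  exact h

/-- changes by products -/
theorem max_nak {A B C B' C' : Matrix I4 I4 k} (hT : MaxR ρ ![A, B, C])
    (h1 : B - B' ∈ Submodule.span k {M : Matrix I4 I4 k | ∃ P ∈ adj ![A, B, C],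
      ∃ Q ∈ adj ![A, B, C], M = P * Q})
    (h2 : C - C' ∈ Submodule.span k {M : Matrix I4 I4 k | ∃ P ∈ adj ![A, B, C],
      ∃ Q ∈ adj ![A, B, C], M = P * Q}) : MaxR ρ ![A, B', C'] := by
  have hle : Submodule.span k {M : Matrix I4 I4 k | ∃ P ∈ adj ![A, B, C],
      ∃ Q ∈ adj ![A, B, C], M = P * Q} ≤ (adj ![A, B, C]).toSubmodule := by
    rw [Submodule.span_le]
    rintro _ ⟨P, hP, Q, hQ, rfl⟩
    change P * Q ∈ adj ![A, B, C]
    exact mul_mem hP hQ
  have m1 : B' ∈ adj ![A, B, C] := by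
    have : B' = B - (B - B') := by abel
    rw [this]
    exact sub_mem (mem1 A B C) (hle h1)
  have m2 : C' ∈ adj ![A, B, C] := by
    have : C' = C - (C - C') := by abel
    rw [this]
    exact sub_mem (mem2 A B C) (hle h2)
  have h' : ∀ i, (![A, B', C'] : Fin 3 → Matrix I4 I4 k) i ∈ adj ![A, B, C] := by
    intro i
    fin_cases i
    exacts [mem0 A B C, m1, m2]
  have hn := adj_nak hT.cn h' (by
    intro i
    fin_cases i
    · exact ⟨A, mem0 A B' C', by
        change A - A ∈ _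
        rw [sub_self]
        exact zero_mem _⟩
    · exact ⟨B', mem1 A B' C', h1⟩
    · exact ⟨C', mem2 A B' C', h2⟩)
  exact MaxR.change3 hT m1 m2 (hn 1) (hn 2)

/-- subtracting multiples of `A ^ 2`, `A B`, `A C` -/
theorem max_sub2 (x y z x' y' z' : k) {ι : M32 k} {P Q P' Q' : M3 k} {R R' : M32 k}
    (hT : MaxR ρ ![A4 ι, T ι P Q R, T ι P' Q' R']) :
    MaxR ρ ![A4 ι, T ι P (Q - (x • 1 + y • P + z • P')) (R - (y • Q + z • Q') * ι),
      T ι P' (Q' - (x' • 1 + y' • P + z' • P')) (R' - (y' • Q + z' • Q') * ι)] := by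
  have key : ∀ (x y z : k), T ι 0 (x • 1 + y • P + z • P') ((y • Q + z • Q') * ι) ∈
      Submodule.span k {M : Matrix I4 I4 k | ∃ X ∈ adj ![A4 ι, T ι P Q R, T ι P' Q' R'],
      ∃ Y ∈ adj ![A4 ι, T ι P Q R, T ι P' Q' R'], M = X * Y} := by
    intro x y z
    have m0 := mem0 (A4 ι) (T ι P Q R) (T ι P' Q' R')
    have m1 := mem1 (A4 ι) (T ι P Q R) (T ι P' Q' R')
    have m2 := mem2 (A4 ι) (T ι P Q R) (T ι P' Q' R')
    have e : T ι 0 (x • 1 + y • P + z • P') ((y • Q + z • Q') * ι) =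
        x • (A4 ι * A4 ι) + y • (A4 ι * T ι P Q R) + z • (A4 ι * T ι P' Q' R') := by
      simp only [A4, T, G_mul, G_smul, G_add]
      refine G_ext ?_ ?_ ?_ ?_ ?_ ?_ <;> simp [Matrix.add_mul]
    rw [e]
    exact add_mem (add_mem (Submodule.smul_mem _ _ (Submodule.subset_span ⟨_, m0, _, m0, rfl⟩))
      (Submodule.smul_mem _ _ (Submodule.subset_span ⟨_, m0, _, m1, rfl⟩)))
      (Submodule.smul_mem _ _ (Submodule.subset_span ⟨_, m0, _, m2, rfl⟩))
  have e : ∀ (P Q S : M3 k) (R S' : M32 k), T ι P Q R - T ι P (Q - S) (R - S') = T ι 0 S S' := by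
    intro P Q S R S'
    rw [sub_eq_iff_eq_add, T_add, zero_add, add_sub_cancel, add_sub_cancel]
  refine max_nak hT ?_ ?_
  · rw [e]
    exact key x y z
  · rw [e]
    exact key x' y' z'

/-- subtracting multiples of `A ^ 3`, `A ^ 2 B`, `A ^ 2 C` -/
theorem max_sub3 (x y z x' y' z' : k) {ι : M32 k} {P Q P' Q' : M3 k} {R R' : M32 k}
    (hT : MaxR ρ ![A4 ι, T ι P Q R, T ι P' Q' R']) :
    MaxR ρ ![A4 ι, T ι P Q (R - (x • 1 + y • P + z • P') * ι),
      T ι P' Q' (R' - (x' • 1 + y' • P + z' • P') * ι)] := by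
  have key : ∀ (x y z : k), T ι 0 0 ((x • 1 + y • P + z • P') * ι) ∈
      Submodule.span k {M : Matrix I4 I4 k | ∃ X ∈ adj ![A4 ι, T ι P Q R, T ι P' Q' R'],
      ∃ Y ∈ adj ![A4 ι, T ι P Q R, T ι P' Q' R'], M = X * Y} := by
    intro x y z
    have m0 := mem0 (A4 ι) (T ι P Q R) (T ι P' Q' R')
    have m1 := mem1 (A4 ι) (T ι P Q R) (T ι P' Q' R')
    have m2 := mem2 (A4 ι) (T ι P Q R) (T ι P' Q' R')
    have e : T ι 0 0 ((x • 1 + y • P + z • P') * ι) =
        x • (A4 ι * A4 ι * A4 ι) + y • (A4 ι * A4 ι * T ι P Q R) +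
          z • (A4 ι * A4 ι * T ι P' Q' R') := by
      simp only [A4, T, G_mul, G_smul, G_add]
      refine G_ext ?_ ?_ ?_ ?_ ?_ ?_ <;> simp [Matrix.add_mul]
    rw [e]
    exact add_mem (add_mem
      (Submodule.smul_mem _ _ (Submodule.subset_span ⟨_, mul_mem m0 m0, _, m0, rfl⟩))
      (Submodule.smul_mem _ _ (Submodule.subset_span ⟨_, mul_mem m0 m0, _, m1, rfl⟩)))
      (Submodule.smul_mem _ _ (Submodule.subset_span ⟨_, mul_mem m0 m0, _, m2, rfl⟩))
  have e : ∀ (P Q : M3 k) (R S' : M32 k), T ι P Q R - T ι P Q (R - S') = T ι 0 0 S' := by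
    intro P Q R S'
    rw [sub_eq_iff_eq_add, T_add, zero_add, zero_add, add_sub_cancel]
  refine max_nak hT ?_ ?_
  · rw [e]
    exact key x y z
  · rw [e]
    exact key x' y' z'

/-- linear families -/
theorem max_line [Infinite k] {ι : M32 k} {P Q P' Q' : M3 k} {R R' : M32 k}
    (hT : MaxR ρ ![A4 ι, T ι P Q R, T ι P' Q' R']) (P1 Q1 P1' Q1' : M3 k) (R1 R1' : M32 k)
    (h1 : ∀ s : k, (P + s • P1) * (P' + s • P1') = (P' + s • P1') * (P + s • P1))
    (h2 : ∀ s : k, ((Q + s • Q1) * (P' + s • P1') + (P + s • P1) * (Q' + s • Q1')) * ι =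
      ((Q' + s • Q1') * (P + s • P1) + (P' + s • P1') * (Q + s • Q1)) * ι)
    {F : Set k} (hF : F.Finite) :
    ∃ s, s ∉ F ∧ MaxR ρ ![A4 ι, T ι (P + s • P1) (Q + s • Q1) (R + s • R1),
      T ι (P' + s • P1') (Q' + s • Q1') (R' + s • R1')] := by
  have e : ∀ (s : k) (P Q P1 Q1 : M3 k) (R R1 : M32 k), T ι P Q R + s • T ι P1 Q1 R1 =
      T ι (P + s • P1) (Q + s • Q1) (R + s • R1) := by
    intro s P Q P1 Q1 R R1
    rw [T_smul, T_add]
  obtain ⟨s, hs, h⟩ := MaxR.line2 hT (T ι P1 Q1 R1) (T ι P1' Q1' R1') (fun s => by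
    rw [e, e]
    exact cnT (h1 s) (h2 s)) hF
  rw [e, e] at h
  exact ⟨s, hs, h⟩

end Pool.Agent.Lib.D13.T443
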