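import Pool.Agent.Lib.D13.T443a

/-!
# MP_5dcbc3_ag: type (4, 4, 3), the three raises
-/

set_option autoImplicit false

namespace Pool.Agent.Lib.D13.T443

open Matrix Pool.Agent.Lib.Q5dc Pool.Agent.Lib.D7 Pool.Agent.Lib.D8

variable {k : Type*} [Field k]

/-- block lower triangular matrices with diagonal blocks on the levels 0 and 3 -/
def H (a00 : Matrix (Fin 2) (Fin 2) k) (a33 : M3 k) (a10 a20 a30 : M32 k) (a21 a31 a32 : M3 k) :
    Matrix I4 I4 k :=
  Matrix.of fun i j => match i, j with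
  | .inl i, .inl j => a00 i j
  | .inr (.inr (.inr i)), .inr (.inr (.inr j)) => a33 i j
  | .inr (.inl i), .inl j => a10 i j
  | .inr (.inr (.inl i)), .inl j => a20 i j
  | .inr (.inr (.inr i)), .inl j => a30 i j
  | .inr (.inr (.inl i)), .inr (.inl j) => a21 i j
  | .inr (.inr (.inr i)), .inr (.inl j) => a31 i j
  | .inr (.inr (.inr i)), .inr (.inr (.inl j)) => a32 i j
  | _, _ => 0

theorem G_eq_H (a10 a20 a30 : M32 k) (a21 a31 a32 : M3 k) :
    G a10 a20 a30 a21 a31 a32 = H 0 0 a10 a20 a30 a21 a31 a32 := by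
  ext i j
  rcases i with i | i | i | i <;> rcases j with j | j | j | j <;> simp [G, H]

theorem H_mul (a00 b00 : Matrix (Fin 2) (Fin 2) k) (a33 b33 : M3 k) (a10 a20 a30 b10 b20 b30 : M32 k)
    (a21 a31 a32 b21 b31 b32 : M3 k) :
    H a00 a33 a10 a20 a30 a21 a31 a32 * H b00 b33 b10 b20 b30 b21 b31 b32 =
      H (a00 * b00) (a33 * b33) (a10 * b00) (a20 * b00 + a21 * b10)
        (a30 * b00 + a31 * b10 + a32 * b20 + a33 * b30) 0 (a32 * b21 + a33 * b31)
        (a32 * 0 + a33 * b32) := by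
  ext i j
  rcases i with i | i | i | i <;> rcases j with j | j | j | j <;>
    simp [H, Matrix.mul_apply, Fintype.sum_sum_type, add_assoc]

theorem H_add (a00 b00 : Matrix (Fin 2) (Fin 2) k) (a33 b33 : M3 k) (a10 a20 a30 b10 b20 b30 : M32 k)
    (a21 a31 a32 b21 b31 b32 : M3 k) :
    H a00 a33 a10 a20 a30 a21 a31 a32 + H b00 b33 b10 b20 b30 b21 b31 b32 =
      H (a00 + b00) (a33 + b33) (a10 + b10) (a20 + b20) (a30 + b30) (a21 + b21) (a31 + b31)
        (a32 + b32) := by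
  ext i j
  rcases i with i | i | i | i <;> rcases j with j | j | j | j <;> simp [H]

theorem H_smul (s : k) (a00 : Matrix (Fin 2) (Fin 2) k) (a33 : M3 k) (a10 a20 a30 : M32 k)
    (a21 a31 a32 : M3 k) :
    s • H a00 a33 a10 a20 a30 a21 a31 a32 =
      H (s • a00) (s • a33) (s • a10) (s • a20) (s • a30) (s • a21) (s • a31) (s • a32) := by
  ext i j
  rcases i with i | i | i | i <;> rcases j with j | j | j | j <;> simp [H]

theorem H_ext {a00 b00 : Matrix (Fin 2) (Fin 2) k} {a33 b33 : M3 k} {a10 a20 a30 b10 b20 b30 : M32 k}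
    {a21 a31 a32 b21 b31 b32 : M3 k} (h1 : a00 = b00) (h2 : a33 = b33) (h3 : a10 = b10)
    (h4 : a20 = b20) (h5 : a30 = b30) (h6 : a21 = b21) (h7 : a31 = b31) (h8 : a32 = b32) :
    H a00 a33 a10 a20 a30 a21 a31 a32 = H b00 b33 b10 b20 b30 b21 b31 b32 := by
  rw [h1, h2, h3, h4, h5, h6, h7, h8]

theorem H_nil {a00 : Matrix (Fin 2) (Fin 2) k} {a33 : M3 k} (a10 a20 a30 : M32 k)
    (a21 a31 a32 : M3 k) (h0 : a00 * a00 = 0) (h3 : a33 * a33 = 0) :
    IsNilpotent (H a00 a33 a10 a20 a30 a21 a31 a32) := by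
  have h : IsNilpotent (H a00 a33 a10 a20 a30 a21 a31 a32 ^ 2) := by
    rw [pow_two, H_mul, h0, h3, ← G_eq_H]
    exact G_nil ..
  obtain ⟨n, hn⟩ := h
  exact ⟨2 * n, by rw [pow_mul, hn]⟩

theorem H30 (a00 : Matrix (Fin 2) (Fin 2) k) (a33 : M3 k) (a10 a20 a30 : M32 k)
    (a21 a31 a32 : M3 k) (i : Fin 3) (j : Fin 2) :
    H a00 a33 a10 a20 a30 a21 a31 a32 (.inr (.inr (.inr i))) (.inl j) = a30 i j := rfl

/-- the matrices used in the raises -/
abbrev K0 (k00 : Matrix (Fin 2) (Fin 2) k) (k33 k21 k31 k32 : M3 k) : Matrix I4 I4 k :=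
  H k00 k33 0 0 0 k21 k31 k32

theorem K0_comm {ι : M32 k} {P Q : M3 k} {R : M32 k} {k00 : Matrix (Fin 2) (Fin 2) k}
    {k33 k21 k31 k32 : M3 k} (h1 : P * ι * k00 = 0) (h2 : k21 * (P * ι) = Q * ι * k00)
    (h3 : k31 * (P * ι) + k32 * (Q * ι) + k33 * R = R * k00)
    (h4 : k32 * P + k33 * Q = P * k21) (h5 : k33 * P = 0) :
    K0 k00 k33 k21 k31 k32 * T ι P Q R = T ι P Q R * K0 k00 k33 k21 k31 k32 := by
  unfold T
  rw [G_eq_H, H_mul, H_mul]
  refine H_ext ?_ ?_ ?_ ?_ ?_ ?_ ?_ ?_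
  · simp
  · simp
  · rw [h1]; simp
  · rw [h2]; simp
  · simp only [Matrix.zero_mul, zero_add, Matrix.mul_zero, add_zero]
    exact h3
  · rfl
  · simp only [Matrix.zero_mul, add_zero]
    exact h4
  · simp only [Matrix.zero_mul, Matrix.mul_zero, zero_add]
    exact h5

variable {ρ : ℕ → ℕ}

theorem raise1 [Infinite k] {ι : M32 k} {P Q P' Q' : M3 k} {R R' : M32 k}
    (hT : MaxR ρ ![A4 ι, T ι P Q R, T ι P' Q' R']) (h4 : ρ 4 = 0)
    (k00 : Matrix (Fin 2) (Fin 2) k) (k33 k21 k31 k32 : M3 k) (y : k)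
    (h00 : k00 * k00 = 0) (h33 : k33 * k33 = 0)
    (h1 : K0 k00 k33 k21 k31 k32 * T ι (P - y • 1) Q R =
      T ι (P - y • 1) Q R * K0 k00 k33 k21 k31 k32)
    (h2 : K0 k00 k33 k21 k31 k32 * T ι P' Q' R' = T ι P' Q' R' * K0 k00 k33 k21 k31 k32)
    (x1 x2 : k) (hx : ∀ s : k, s ≠ 0 → (x1 • (A4 ι + s • K0 k00 k33 k21 k31 k32) +
      x2 • (T ι P Q R + s • y • K0 k00 k33 k21 k31 k32)) ^ 4 ≠ 0) : False := by
  set K := K0 k00 k33 k21 k31 k32 with hK
  have hc : T ι P Q R * T ι P' Q' R' = T ι P' Q' R' * T ι P Q R := T_comm_iff.2 (max_rel hT)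
  have e1 : T ι (P - y • 1) Q R = T ι P Q R - y • A4 ι := by
    rw [eq_sub_iff_add_eq, T_smul, T_add]
    simp
  rw [e1] at h1
  have hA : A4 ι = H 0 0 ι 0 0 1 0 1 := by
    unfold A4 T
    rw [G_eq_H]
    simp
  have hcAB := A4_comm ι P Q R
  have hcAC := A4_comm ι P' Q' R'
  refine MaxR.raise0 hT K (y • K) 0 (fun s => ?_) 4 h4 x1 x2 0 ?_
  · have hBK : (A4 ι + s • K) * (T ι P Q R + s • y • K) =
        (T ι P Q R + s • y • K) * (A4 ι + s • K) := by
      have h1' : K * T ι P Q R = y • (K * A4 ι) + T ι P Q R * K - y • (A4 ι * K) := by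
        rw [mul_sub, sub_mul, sub_eq_iff_eq_add] at h1
        rw [h1, mul_smul_comm, smul_mul_assoc]
        abel
      simp only [add_mul, mul_add, smul_mul_assoc, mul_smul_comm, h1', hcAB]
      module
    have hCK : (A4 ι + s • K) * (T ι P' Q' R' + s • 0) =
        (T ι P' Q' R' + s • 0) * (A4 ι + s • K) := by
      simp only [smul_zero, add_zero, add_mul, mul_add, smul_mul_assoc, mul_smul_comm, h2, hcAC]
    have hBC : (T ι P Q R + s • y • K) * (T ι P' Q' R' + s • 0) =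
        (T ι P' Q' R' + s • 0) * (T ι P Q R + s • y • K) := by
      simp only [smul_zero, add_zero, add_mul, mul_add, smul_mul_assoc, mul_smul_comm, h2, hc]
    refine cn3 hBK hCK hBC ?_ ?_ ?_
    · rw [hA, hK, H_smul, H_add]
      exact H_nil _ _ _ _ _ _ (by simp [h00]) (by simp [h33])
    · rw [hK, H_smul, H_smul]
      unfold T
      rw [G_eq_H, H_add]
      exact H_nil _ _ _ _ _ _ (by simp [h00]) (by simp [h33])
    · rw [smul_zero, add_zero]
      exact T_nil ..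
  · refine (Set.finite_singleton (0 : k)).infinite_compl.mono fun s hs => ?_
    have hs0 : s ≠ 0 := fun h => hs (by rw [h]; rfl)
    have := hx s hs0
    simpa using this

/-- all three functionals are different from zero -/
theorem raiseK1 [Infinite k] {ι : M32 k} (hι : ι 0 0 = 1)
    (hT : MaxR ρ ![A4 ι, T ι !![1, 0, 0; 0, 0, 0; 0, 0, 0] 0 0,
      T ι !![0, 0, 0; 0, 1, 0; 0, 0, 0] 0 0]) (h4 : ρ 4 = 0) : False := by
  refine raise1 hT h4 0 !![0, 0, 0; 1, 0, 0; 0, 0, 0] 0 0 0 1 (by simp) ?_ ?_ ?_ 1 0 ?_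
  · ext i j
    fin_cases i <;> fin_cases j <;> simp [Matrix.mul_apply, Fin.sum_univ_three]
  · refine K0_comm ?_ ?_ ?_ ?_ ?_
    · simp
    · simp
    · simp
    · simp
    · ext i j
      fin_cases i <;> fin_cases j <;> simp [Matrix.mul_apply, Fin.sum_univ_three]
  · refine K0_comm ?_ ?_ ?_ ?_ ?_
    · simp
    · simp
    · simp
    · simp
    · ext i j
      fin_cases i <;> fin_cases j <;> simp [Matrix.mul_apply, Fin.sum_univ_three]
  · intro s hs h0
    apply hs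
    have hA : A4 ι = H 0 0 ι 0 0 1 0 1 := by
      unfold A4 T
      rw [G_eq_H]
      simp
    rw [show (4 : ℕ) = 2 + 2 from rfl, pow_add, pow_two, zero_smul, add_zero, one_smul, hA,
      H_smul, H_add, H_mul, H_mul] at h0
    have h1 := congrFun (congrFun h0 (.inr (.inr (.inr 1)))) (.inl 0)
    rw [H30] at h1
    simpa [Matrix.mul_apply, Fin.sum_univ_three, Matrix.one_apply, Matrix.vecMul, dotProduct,
      hι] using h1

/-- one functional vanishes -/
theorem raiseK2 [Infinite k] {m n n' : k}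
    (hT : MaxR ρ ![A4 !![0, 1; 0, 1; 1, 0], T !![0, 1; 0, 1; 1, 0] !![1, 0, 0; 0, 0, 0; 0, 0, 0]
      !![0, 0, 0; 0, 0, 0; 0, m, 0] !![0, 0; n', 0; 0, 0],
      T !![0, 1; 0, 1; 1, 0] !![0, 0, 0; 0, 1, 0; 0, 0, 0]
      !![0, 0, 0; 0, 0, 0; m, 0, 0] !![n, 0; 0, 0; 0, 0]]) (h4 : ρ 4 = 0) : False := by
  refine raise1 hT h4 !![0, 1; 0, 0] 0 0 !![0, n, 0; n', 0, 0; 0, 0, 0] 0 0 ?_ (by simp) ?_ ?_
    1 0 ?_
  · ext i j
    fin_cases i <;> fin_cases j <;> simp [Matrix.mul_apply]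
  · refine K0_comm ?_ ?_ ?_ ?_ ?_
    · ext i j
      fin_cases i <;> fin_cases j <;> simp [Matrix.mul_apply, Fin.sum_univ_three]
    · ext i j
      fin_cases i <;> fin_cases j <;> simp [Matrix.mul_apply, Fin.sum_univ_three]
    · ext i j
      fin_cases i <;> fin_cases j <;> simp [Matrix.mul_apply, Fin.sum_univ_three]
    · simp
    · simp
  · refine K0_comm ?_ ?_ ?_ ?_ ?_
    · ext i j
      fin_cases i <;> fin_cases j <;> simp [Matrix.mul_apply, Fin.sum_univ_three]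
    · ext i j
      fin_cases i <;> fin_cases j <;> simp [Matrix.mul_apply, Fin.sum_univ_three]
    · ext i j
      fin_cases i <;> fin_cases j <;> simp [Matrix.mul_apply, Fin.sum_univ_three]
    · simp
    · simp
  · intro s hs h0
    apply hs
    have hA : A4 (!![0, 1; 0, 1; 1, 0] : M32 k) = H 0 0 !![0, 1; 0, 1; 1, 0] 0 0 1 0 1 := by
      unfold A4 T
      rw [G_eq_H]
      simp
    rw [show (4 : ℕ) = 2 + 2 from rfl, pow_add, pow_two, zero_smul, add_zero, one_smul, hA,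
      H_smul, H_add, H_mul, H_mul] at h0
    have h1 := congrFun (congrFun h0 (.inr (.inr (.inr 2)))) (.inl 1)
    rw [H30] at h1
    simpa [Matrix.mul_apply, Fin.sum_univ_three, Matrix.one_apply] using h1

theorem E11_sub : (!![1, 0, 0; 0, 0, 0; 0, 0, 0] - (1 : k) • 1 : M3 k) =
    !![0, 0, 0; 0, -1, 0; 0, 0, -1] := by
  ext i j
  fin_cases i <;> fin_cases j <;> simp

/-- two functionals vanish -/
theorem raiseK3 [Infinite k] {n12 n21 n13 n31 n23 n32 : k} (hn : n21 ≠ 0)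
    (hT : MaxR ρ ![A4 !![1, 0; 0, 1; 0, 0], T !![1, 0; 0, 1; 0, 0] !![1, 0, 0; 0, 0, 0; 0, 0, 0]
      !![0, 0, 0; 0, 0, n23; 0, 0, 0] !![0, 0; -n21, 0; -n31, n32],
      T !![1, 0; 0, 1; 0, 0] !![0, 0, 0; 0, 1, 0; 0, 0, 0]
      !![0, 0, n13; 0, 0, 0; 0, 0, 0] !![0, -n12; 0, 0; n31, -n32]]) (h4 : ρ 4 = 0) : False := by
  refine raise1 hT h4 !![0, n12; 0, 0] !![0, 0, 0; n21, 0, 0; 0, 0, 0]
    !![0, 0, 0; 0, 0, n21 * n13; 0, 0, 0] !![0, 0, 0; 0, n12 * n21, 0; 0, n12 * n31, 0]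
    !![0, 0, 0; 0, 0, n21 * n13; 0, 0, 0] 1 ?_ ?_ ?_ ?_ 0 1 ?_
  · ext i j
    fin_cases i <;> fin_cases j <;> simp [Matrix.mul_apply]
  · ext i j
    fin_cases i <;> fin_cases j <;> simp [Matrix.mul_apply, Fin.sum_univ_three]
  · rw [E11_sub]
    refine K0_comm ?_ ?_ ?_ ?_ ?_
    all_goals
      ext i j
      fin_cases i <;> fin_cases j <;>
        simp [Matrix.mul_apply, Fin.sum_univ_three, Matrix.one_apply] <;> try ring
  · refine K0_comm ?_ ?_ ?_ ?_ ?_
    all_goals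
      ext i j
      fin_cases i <;> fin_cases j <;>
        simp [Matrix.mul_apply, Fin.sum_univ_three, Matrix.one_apply] <;> try ring
  · intro s hs h0
    have hB : T !![1, 0; 0, 1; 0, 0] !![1, 0, 0; 0, 0, 0; 0, 0, 0]
      !![0, 0, 0; 0, 0, n23; 0, 0, 0] !![0, 0; -n21, 0; -n31, n32] =
      H 0 0 !![1, 0; 0, 0; 0, 0] 0 !![0, 0; -n21, 0; -n31, n32] !![1, 0, 0; 0, 0, 0; 0, 0, 0]
        !![0, 0, 0; 0, 0, n23; 0, 0, 0] !![1, 0, 0; 0, 0, 0; 0, 0, 0] := by
      unfold T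
      rw [G_eq_H]
      refine H_ext rfl rfl ?_ ?_ rfl rfl rfl rfl
      · ext i j
        fin_cases i <;> fin_cases j <;> simp [Matrix.mul_apply, Fin.sum_univ_three]
      · ext i j
        fin_cases i <;> fin_cases j <;> simp [Matrix.mul_apply, Fin.sum_univ_three]
    rw [show (4 : ℕ) = 2 + 2 from rfl, pow_add, pow_two, zero_smul, zero_add, one_smul, hB,
      one_smul, H_smul, H_add, H_mul, H_mul] at h0
    have h1 := congrFun (congrFun h0 (.inr (.inr (.inr 1)))) (.inl 0)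
    rw [H30] at h1
    have h2 : s * n21 = 0 := by
      simpa [Matrix.mul_apply, Fin.sum_univ_three, Matrix.one_apply, hs, hn] using h1
    exact mul_ne_zero hs hn h2

end Pool.Agent.Lib.D13.T443
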