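import Pool.Agent.Lib.D13.T443b

/-!
# MP_5dcbc3_ag: type (4, 4, 3), normal forms for diagonal matrices
-/

set_option autoImplicit false

namespace Pool.Agent.Lib.D13.T443

open Matrix Pool.Agent.Lib.Q5dc Pool.Agent.Lib.D7 Pool.Agent.Lib.D8

variable {k : Type*} [Field k] {ρ : ℕ → ℕ}

/-- the idempotents -/
abbrev E11 (k : Type*) [Field k] : M3 k := !![1, 0, 0; 0, 0, 0; 0, 0, 0]
abbrev E22 (k : Type*) [Field k] : M3 k := !![0, 0, 0; 0, 1, 0; 0, 0, 0]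

/-- a maximal triple with diagonal leading part -/
def DG (ρ : ℕ → ℕ) (ι : M32 k) : Prop :=
  ∃ (Q Q' : M3 k) (R R' : M32 k), MaxR ρ ![A4 ι, T ι (E11 k) Q R, T ι (E22 k) Q' R']

theorem DG.norm {ι : M32 k} (h : DG ρ ι) : ∃ (q23 q32 a b c d : k) (R R' : M32 k),
    MaxR ρ ![A4 ι, T ι (E11 k) !![0, 0, 0; 0, 0, q23; 0, q32, 0] R,
      T ι (E22 k) !![0, a, b; c, 0, 0; d, 0, 0] R'] ∧
    (!![0, a, b; -c, 0, -q23; -d, q32, 0] : M3 k) * ι = 0 := by
  obtain ⟨Q, Q', R, R', hT⟩ := h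
  have h1 := max_unip1 !![0, Q 0 1, Q 0 2; -Q 1 0, 0, Q' 1 2; -Q 2 0, -Q' 2 1, 0] hT
  have h2 := max_sub2 (Q 2 2) (Q 0 0 - Q 2 2) (Q 1 1 - Q 2 2) (Q' 2 2) (Q' 0 0 - Q' 2 2)
    (Q' 1 1 - Q' 2 2) h1
  have e1 : Q + !![0, Q 0 1, Q 0 2; -Q 1 0, 0, Q' 1 2; -Q 2 0, -Q' 2 1, 0] * E11 k -
      E11 k * !![0, Q 0 1, Q 0 2; -Q 1 0, 0, Q' 1 2; -Q 2 0, -Q' 2 1, 0] -
      ((Q 2 2) • (1 : M3 k) + (Q 0 0 - Q 2 2) • E11 k + (Q 1 1 - Q 2 2) • E22 k) =
      !![0, 0, 0; 0, 0, Q 1 2; 0, Q 2 1, 0] := by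
    ext i j
    fin_cases i <;> fin_cases j <;> simp [Matrix.mul_apply, Fin.sum_univ_three]
  have e2 : Q' + !![0, Q 0 1, Q 0 2; -Q 1 0, 0, Q' 1 2; -Q 2 0, -Q' 2 1, 0] * E22 k -
      E22 k * !![0, Q 0 1, Q 0 2; -Q 1 0, 0, Q' 1 2; -Q 2 0, -Q' 2 1, 0] -
      ((Q' 2 2) • (1 : M3 k) + (Q' 0 0 - Q' 2 2) • E11 k + (Q' 1 1 - Q' 2 2) • E22 k) =
      !![0, Q' 0 1 + Q 0 1, Q' 0 2; Q' 1 0 + Q 1 0, 0, 0; Q' 2 0, 0, 0] := by
    ext i j
    fin_cases i <;> fin_cases j <;> simp [Matrix.mul_apply, Fin.sum_univ_three]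
  rw [e1, e2] at h2
  refine ⟨_, _, _, _, _, _, _, _, h2, ?_⟩
  have h3 := (max_rel h2).2
  have h4 := sub_eq_zero.2 h3
  rw [← Matrix.sub_mul] at h4
  rw [← h4]
  congr 1
  ext i j
  fin_cases i <;> fin_cases j <;> simp [Matrix.mul_apply, Fin.sum_univ_three]

theorem K1 [Infinite k] (h4 : ρ 4 = 0) {x y : k} (hx : x ≠ 0) (hy : y ≠ 0)
    (h : DG ρ (!![1, 0; 0, 1; x, y] : M32 k)) : False := by
  obtain ⟨q23, q32, a, b, c, d, R, R', hT, hr⟩ := h.norm
  have H := fun i j => congrFun (congrFun hr i) j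
  have h00 := H 0 0
  have h01 := H 0 1
  have h10 := H 1 0
  have h11 := H 1 1
  have h20 := H 2 0
  have h21 := H 2 1
  simp [Matrix.mul_apply, Fin.sum_univ_three, hx, hy] at h00 h01 h10 h11 h20 h21
  rw [h00] at h01
  rw [h11] at h10
  simp at h01 h10
  subst h00 h01 h10 h11 h20 h21
  set L : M3 k := !![0, -R' 0 1, (R 0 1 + R' 0 1) / y; -R 1 0, 0, (R 1 0 + R' 1 0) / x;
    R 2 1 * x / y - R 2 0, R' 2 0 * y / x - R' 2 1, 0] with hL
  have h1 := max_unip2 L hT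
  have h2 := max_sub3 (R 2 1 / y) (R 0 0 - (R 0 1 + R' 0 1) / y * x - R 2 1 / y)
    (R 1 1 - R 2 1 / y) (R' 2 0 / x) (R' 0 0 - R' 2 0 / x)
    (R' 1 1 - (R 1 0 + R' 1 0) / x * y - R' 2 0 / x) h1
  have e1 : R + (L * E11 k - E11 k * L) * !![1, 0; 0, 1; x, y] -
      ((R 2 1 / y) • (1 : M3 k) + (R 0 0 - (R 0 1 + R' 0 1) / y * x - R 2 1 / y) • E11 k +
      (R 1 1 - R 2 1 / y) • E22 k) * !![1, 0; 0, 1; x, y] = 0 := by
    rw [hL]
    ext i j
    fin_cases i <;> fin_cases j <;> simp [Matrix.mul_apply, Fin.sum_univ_three] <;>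
      field_simp <;> ring
  have e2 : R' + (L * E22 k - E22 k * L) * !![1, 0; 0, 1; x, y] -
      ((R' 2 0 / x) • (1 : M3 k) + (R' 0 0 - R' 2 0 / x) • E11 k +
      (R' 1 1 - (R 1 0 + R' 1 0) / x * y - R' 2 0 / x) • E22 k) * !![1, 0; 0, 1; x, y] = 0 := by
    rw [hL]
    ext i j
    fin_cases i <;> fin_cases j <;> simp [Matrix.mul_apply, Fin.sum_univ_three] <;>
      field_simp <;> ring
  rw [e1, e2] at h2
  have z1 : (!![0, 0, 0; 0, 0, 0; 0, 0, 0] : M3 k) = 0 := by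
    ext i j
    fin_cases i <;> fin_cases j <;> rfl
  rw [z1] at h2
  exact raiseK1 rfl h2 h4

theorem K2 [Infinite k] (h4 : ρ 4 = 0) (h : DG ρ (!![0, 1; 0, 1; 1, 0] : M32 k)) : False := by
  obtain ⟨q23, q32, a, b, c, d, R, R', hT, hr⟩ := h.norm
  have H := fun i j => congrFun (congrFun hr i) j
  have h00 := H 0 0
  have h01 := H 0 1
  have h10 := H 1 0
  have h11 := H 1 1
  have h21 := H 2 1
  simp [Matrix.mul_apply, Fin.sum_univ_three] at h00 h01 h10 h11 h21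
  have h21' : q32 = d := by linear_combination h21
  subst h00 h01 h10 h11 h21'
  set L : M3 k := !![0, 0, R 0 0; 0, 0, R' 1 0; -R 2 1, -R' 2 1, 0] with hL
  have h1 := max_unip2 L hT
  have h2 := max_sub3 (R 2 0) (R 0 1 - R 2 0) (R 1 1 - R 2 0) (R' 2 0) (R' 0 1 - R' 2 0)
    (R' 1 1 - R' 2 0) h1
  have e1 : R + (L * E11 k - E11 k * L) * (!![0, 1; 0, 1; 1, 0] : M32 k) -
      ((R 2 0) • (1 : M3 k) + (R 0 1 - R 2 0) • E11 k + (R 1 1 - R 2 0) • E22 k) *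
      (!![0, 1; 0, 1; 1, 0] : M32 k) = !![0, 0; R 1 0, 0; 0, 0] := by
    rw [hL]
    ext i j
    fin_cases i <;> fin_cases j <;> simp [Matrix.mul_apply, Fin.sum_univ_three]
  have e2 : R' + (L * E22 k - E22 k * L) * (!![0, 1; 0, 1; 1, 0] : M32 k) -
      ((R' 2 0) • (1 : M3 k) + (R' 0 1 - R' 2 0) • E11 k + (R' 1 1 - R' 2 0) • E22 k) *
      (!![0, 1; 0, 1; 1, 0] : M32 k) = !![R' 0 0, 0; 0, 0; 0, 0] := by
    rw [hL]
    ext i j
    fin_cases i <;> fin_cases j <;> simp [Matrix.mul_apply, Fin.sum_univ_three]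
  rw [e1, e2] at h2
  exact raiseK2 h2 h4

theorem K3 [Infinite k] (h4 : ρ 4 = 0) (h : DG ρ (!![1, 0; 0, 1; 0, 0] : M32 k)) : False := by
  obtain ⟨q23, q32, a, b, c, d, R0, R', hT0, hr⟩ := h.norm
  have H := fun i j => congrFun (congrFun hr i) j
  have h01 := H 0 1
  have h10 := H 1 0
  have h20 := H 2 0
  have h21 := H 2 1
  simp [Matrix.mul_apply, Fin.sum_univ_three] at h01 h10 h20 h21
  subst h01 h10 h20 h21
  obtain ⟨s, hs, hT⟩ := max_line hT0 0 0 0 0 !![0, 0; 1, 0; 0, 0] 0 (fun s => by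
    simpa using (max_rel hT0).1) (fun s => by simpa using (max_rel hT0).2)
    (Set.finite_singleton (-(R0 1 0 + R' 1 0)))
  simp only [smul_zero, add_zero] at hT
  set R : M32 k := R0 + s • !![0, 0; 1, 0; 0, 0] with hR
  have hn : R 1 0 + R' 1 0 ≠ 0 := by
    intro h0
    apply hs
    rw [hR] at h0
    simp at h0
    rw [Set.mem_singleton_iff]
    linear_combination h0
  set L : M3 k := !![0, R 0 1, 0; R' 1 0, 0, 0; -R 2 0 - R' 2 0, -R' 2 1 - R 2 1, 0] with hL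
  have h1 := max_unip2 L hT
  have h2 := max_sub3 0 (R 0 0) (R 1 1) 0 (R' 0 0) (R' 1 1) h1
  have e1 : R + (L * E11 k - E11 k * L) * (!![1, 0; 0, 1; 0, 0] : M32 k) -
      ((0 : k) • (1 : M3 k) + (R 0 0) • E11 k + (R 1 1) • E22 k) *
      (!![1, 0; 0, 1; 0, 0] : M32 k) = !![0, 0; -(-(R 1 0 + R' 1 0)), 0; -R' 2 0, R 2 1] := by
    rw [hL]
    ext i j
    fin_cases i <;> fin_cases j <;> simp [Matrix.mul_apply, Fin.sum_univ_three] <;> ring
  have e2 : R' + (L * E22 k - E22 k * L) * (!![1, 0; 0, 1; 0, 0] : M32 k) -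
      ((0 : k) • (1 : M3 k) + (R' 0 0) • E11 k + (R' 1 1) • E22 k) *
      (!![1, 0; 0, 1; 0, 0] : M32 k) = !![0, -(-(R' 0 1 + R 0 1)); 0, 0; R' 2 0, -R 2 1] := by
    rw [hL]
    ext i j
    fin_cases i <;> fin_cases j <;> simp [Matrix.mul_apply, Fin.sum_univ_three] <;> ring
  rw [e1, e2] at h2
  exact raiseK3 (neg_ne_zero.2 hn) h2 h4

theorem DG.act {ι : M32 k} (h : DG ρ ι) (d d' : Fin 3 → k) (hd : ∀ i, d i * d' i = 1)
    {u u' : Matrix (Fin 2) (Fin 2) k} (hu : u * u' = 1) :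
    DG ρ (Matrix.diagonal d * ι * u') := by
  obtain ⟨Q, Q', R, R', hT⟩ := h
  have hg : Matrix.diagonal d * Matrix.diagonal d' = (1 : M3 k) := by
    rw [Matrix.diagonal_mul_diagonal, ← Matrix.diagonal_one]
    congr 1
    funext i
    exact hd i
  have h1 := max_conj hu hg hT
  have e1 : Matrix.diagonal d * E11 k * Matrix.diagonal d' = E11 k := by
    ext i j
    fin_cases i <;> fin_cases j <;> simp [Matrix.mul_apply, Fin.sum_univ_three,
      Matrix.diagonal_apply, hd]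
  have e2 : Matrix.diagonal d * E22 k * Matrix.diagonal d' = E22 k := by
    ext i j
    fin_cases i <;> fin_cases j <;> simp [Matrix.mul_apply, Fin.sum_univ_three,
      Matrix.diagonal_apply, hd]
  rw [e1, e2] at h1
  exact ⟨_, _, _, _, h1⟩

/-- exchange of the first two coordinates -/
abbrev s12 (k : Type*) [Field k] : M3 k := !![0, 1, 0; 1, 0, 0; 0, 0, 1]
/-- exchange of the first and the last coordinate -/
abbrev s13 (k : Type*) [Field k] : M3 k := !![0, 0, 1; 0, 1, 0; 1, 0, 0]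

theorem DG.swap {ι : M32 k} (h : DG ρ ι) : DG ρ (s12 k * ι) := by
  obtain ⟨Q, Q', R, R', hT⟩ := h
  have hg : s12 k * s12 k = 1 := by
    ext i j
    fin_cases i <;> fin_cases j <;> simp [Matrix.mul_apply, Fin.sum_univ_three]
  have h1 := MaxR.swap (max_conj (h := 1) (h' := 1) (by simp) hg hT)
  have e1 : s12 k * E11 k * s12 k = E22 k := by
    ext i j
    fin_cases i <;> fin_cases j <;> simp [Matrix.mul_apply, Fin.sum_univ_three]
  have e2 : s12 k * E22 k * s12 k = E11 k := by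
    ext i j
    fin_cases i <;> fin_cases j <;> simp [Matrix.mul_apply, Fin.sum_univ_three]
  rw [e1, e2, Matrix.mul_one] at h1
  exact ⟨_, _, _, _, h1⟩

theorem DG.swap13 {ι : M32 k} (h : DG ρ ι) : DG ρ (s13 k * ι) := by
  obtain ⟨Q, Q', R, R', hT⟩ := h
  have hg : s13 k * s13 k = 1 := by
    ext i j
    fin_cases i <;> fin_cases j <;> simp [Matrix.mul_apply, Fin.sum_univ_three]
  have h1 := max_lin (-1) (-1) 0 1 1 0 (by simp)
    (max_conj (h := 1) (h' := 1) (by simp) hg hT)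
  have e1 : (-1 : k) • (s13 k * E11 k * s13 k) + (-1 : k) • (s13 k * E22 k * s13 k) +
      (1 : k) • (1 : M3 k) = E11 k := by
    ext i j
    fin_cases i <;> fin_cases j <;> simp [Matrix.mul_apply, Fin.sum_univ_three]
  have e2 : (0 : k) • (s13 k * E11 k * s13 k) + (1 : k) • (s13 k * E22 k * s13 k) +
      (0 : k) • (1 : M3 k) = E22 k := by
    ext i j
    fin_cases i <;> fin_cases j <;> simp [Matrix.mul_apply, Fin.sum_univ_three]
  rw [e1, e2, Matrix.mul_one] at h1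
  exact ⟨_, _, _, _, h1⟩

theorem DG.step1 [Infinite k] (h4 : ρ 4 = 0) {x y : k} (h : DG ρ (!![1, 0; 0, 1; x, y] : M32 k)) :
    False := by
  by_cases hx : x = 0
  · by_cases hy : y = 0
    · subst hx hy
      exact K3 h4 h
    · subst hx
      have h1 := (h.swap13).act ![1, y, 1] ![1, y⁻¹, 1] (by
        intro i
        fin_cases i <;> simp [hy]) (u := !![1, 0; 0, y]) (u' := !![1, 0; 0, y⁻¹]) (by
        ext i j
        fin_cases i <;> fin_cases j <;> simp [hy])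
      refine K2 (k := k) h4 ?_
      convert h1 using 1
      ext i j
      fin_cases i <;> fin_cases j <;> simp [Matrix.mul_apply, Fin.sum_univ_three,
        Matrix.diagonal_apply, hy]
  · by_cases hy : y = 0
    · subst hy
      have h1 := (h.swap.swap13).act ![1, x, 1] ![1, x⁻¹, 1] (by
        intro i
        fin_cases i <;> simp [hx]) (u := !![0, 1; x, 0]) (u' := !![0, x⁻¹; 1, 0]) (by
        ext i j
        fin_cases i <;> fin_cases j <;> simp [hx])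
      refine K2 (k := k) h4 ?_
      convert h1 using 1
      ext i j
      fin_cases i <;> fin_cases j <;> simp [Matrix.mul_apply, Fin.sum_univ_three,
        Matrix.diagonal_apply, hx]
    · exact K1 h4 hx hy h

theorem DG.step2 [Infinite k] (h4 : ρ 4 = 0) {ι : M32 k}
    (hd : ι 0 0 * ι 1 1 - ι 0 1 * ι 1 0 ≠ 0) (h : DG ρ ι) : False := by
  set D := ι 0 0 * ι 1 1 - ι 0 1 * ι 1 0 with hD
  have h1 := h.act 1 1 (by simp) (u := !![ι 0 0, ι 0 1; ι 1 0, ι 1 1])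
    (u' := !![ι 1 1 / D, -ι 0 1 / D; -ι 1 0 / D, ι 0 0 / D]) (by
      ext i j
      fin_cases i <;> fin_cases j <;> simp <;> field_simp <;> rw [hD] <;> ring)
  refine DG.step1 h4 (x := ι 2 0 * (ι 1 1 / D) + ι 2 1 * (-ι 1 0 / D))
    (y := ι 2 0 * (-ι 0 1 / D) + ι 2 1 * (ι 0 0 / D)) ?_
  convert h1 using 1
  ext i j
  fin_cases i <;> fin_cases j <;> simp [Matrix.mul_apply, Fin.sum_univ_two] <;> field_simp <;>
    rw [hD] <;> ring

theorem DG.false [Infinite k] (h4 : ρ 4 = 0) {ι : M32 k} {κ : Matrix (Fin 2) (Fin 3) k}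
    (hκ : κ * ι = 1) (h : DG ρ ι) : False := by
  by_cases h12 : ι 0 0 * ι 1 1 - ι 0 1 * ι 1 0 = 0
  · by_cases h23 : ι 2 0 * ι 1 1 - ι 2 1 * ι 1 0 = 0
    · by_cases h13 : ι 2 0 * ι 0 1 - ι 2 1 * ι 0 0 = 0
      · have hdet : (κ * ι).det = 1 := by rw [hκ, Matrix.det_one]
        rw [Matrix.det_fin_two] at hdet
        simp only [Matrix.mul_apply, Fin.sum_univ_three] at hdet
        apply one_ne_zero (α := k)
        rw [← hdet]
        linear_combination (κ 0 0 * κ 1 1 - κ 0 1 * κ 1 0) * h12 +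
          (κ 0 2 * κ 1 1 - κ 0 1 * κ 1 2) * h23 + (κ 0 2 * κ 1 0 - κ 0 0 * κ 1 2) * h13
      · refine DG.step2 h4 ?_ (h.swap.swap13)
        simpa [Matrix.mul_apply, Fin.sum_univ_three, Matrix.vecMul, dotProduct] using h13
    · refine DG.step2 h4 ?_ (h.swap13)
      simpa [Matrix.mul_apply, Fin.sum_univ_three, Matrix.vecMul, dotProduct] using h23
  · exact DG.step2 h4 h12 h

end Pool.Agent.Lib.D13.T443
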