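import Pool.Agent.Lib.D13.T443c
import Pool.Agent.Lib.D13.Jets

/-!
# MP_5dcbc3_ag: type (4, 4, 3), reduction to diagonal matrices
-/

set_option autoImplicit false

namespace Pool.Agent.Lib.D13.T443

open Matrix Pool.Agent.Lib.Q5dc Pool.Agent.Lib.D7 Pool.Agent.Lib.D8
open Pool.Agent.Lib.D9.T333Aux (D3 Cyc)

variable {k : Type*} [Field k] {ρ : ℕ → ℕ}

/-- three distinct eigenvalues -/
theorem diag3 {P : M3 k} {l : Fin 3 → k} (hl : Function.Injective l)
    (hd : ∀ i, (P - l i • (1 : M3 k)).det = 0) :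
    ∃ g g' : M3 k, g * g' = 1 ∧ g * P * g' = Matrix.diagonal l := by
  have h1 : ∀ i, ∃ v : Fin 3 → k, v ≠ 0 ∧ P *ᵥ v = l i • v := by
    intro i
    obtain ⟨v, hv, h⟩ := Matrix.exists_mulVec_eq_zero_iff.2 (hd i)
    refine ⟨v, hv, ?_⟩
    rw [Matrix.sub_mulVec, Matrix.smul_mulVec, Matrix.one_mulVec] at h
    exact sub_eq_zero.1 h
  choose v hv hP using h1
  have hli : LinearIndependent k v := by
    refine Module.End.eigenvectors_linearIndependent' (Matrix.toLin' P) l hl v fun i => ?_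
    refine ⟨?_, hv i⟩
    rw [Module.End.mem_eigenspace_iff, Matrix.toLin'_apply]
    exact hP i
  set K : M3 k := Matrix.of fun i j => v j i with hK
  have hcol : K.col = v := by
    funext j
    funext i
    rfl
  have hu : IsUnit K := by
    rw [← Matrix.linearIndependent_cols_iff_isUnit, hcol]
    exact hli
  have hdet := (Matrix.isUnit_iff_isUnit_det K).1 hu
  have hKK : K⁻¹ * K = 1 := Matrix.nonsing_inv_mul _ hdet
  refine ⟨K⁻¹, K, hKK, ?_⟩
  have e : P * K = K * Matrix.diagonal l := by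
    ext i j
    rw [Matrix.mul_diagonal, Matrix.mul_apply]
    have := congrFun (hP j) i
    rw [Matrix.mulVec, dotProduct] at this
    rw [hK]
    simp only [Matrix.of_apply]
    rw [this, Pi.smul_apply, smul_eq_mul, mul_comm]
  rw [mul_assoc, e, ← mul_assoc, hKK, one_mul]

/-- the second matrix is `c P ^ 2`, its jet is `c (P Q + Q P) + D` -/
def CD (ρ : ℕ → ℕ) (ι : M32 k) (P Q D : M3 k) (c : k) : Prop :=
  ∃ R R' : M32 k, MaxR ρ ![A4 ι, T ι P Q R, T ι (c • (P * P)) (c • (P * Q + Q * P) + D) R']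

variable {ι : M32 k} {P Q D : M3 k} {c : k}

theorem CD.rel (h : CD ρ ι P Q D c) : (P * D - D * P) * ι = 0 := by
  obtain ⟨R, R', hT⟩ := h
  have h1 := sub_eq_zero.2 (max_rel hT).2
  rw [← Matrix.sub_mul] at h1
  rw [← h1]
  congr 1
  simp only [mul_add, add_mul, mul_smul_comm, smul_mul_assoc, smul_add, mul_assoc]
  abel

theorem CD.conj (h : CD ρ ι P Q D c) {g g' : M3 k} (hg : g * g' = 1)
    {u u' : Matrix (Fin 2) (Fin 2) k} (hu : u * u' = 1) :
    CD ρ (g * ι * u') (g * P * g') (g * Q * g') (g * D * g') c := by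
  obtain ⟨R, R', hT⟩ := h
  have h1 := max_conj hu hg hT
  have hg' : g' * g = 1 := mul_eq_one_comm.1 hg
  have e : ∀ X Y : M3 k, g * (X * Y) * g' = (g * X * g') * (g * Y * g') := by
    intro X Y
    calc g * (X * Y) * g' = g * X * 1 * Y * g' := by simp only [mul_assoc, one_mul]
      _ = g * X * (g' * g) * Y * g' := by rw [hg']
      _ = (g * X * g') * (g * Y * g') := by simp only [mul_assoc]
  have e1 : g * (c • (P * P)) * g' = c • ((g * P * g') * (g * P * g')) := by
    rw [mul_smul_comm, smul_mul_assoc, e]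
  have e2 : g * (c • (P * Q + Q * P) + D) * g' =
      c • ((g * P * g') * (g * Q * g') + (g * Q * g') * (g * P * g')) + g * D * g' := by
    rw [mul_add, add_mul, mul_smul_comm, smul_mul_assoc, mul_add, add_mul, e, e]
  rw [e1, e2] at h1
  exact ⟨_, _, h1⟩

theorem CD.shift (h : CD ρ ι P Q D c) (x : k) : CD ρ ι (P + x • 1) Q D c := by
  obtain ⟨R, R', hT⟩ := h
  have h1 := max_lin 1 0 (2 * c * x) 1 x (c * x ^ 2) (by simp) hT
  have e1 : (1 : k) • P + (0 : k) • (c • (P * P)) + x • (1 : M3 k) = P + x • 1 := by module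
  have e2 : (1 : k) • Q + (0 : k) • (c • (P * Q + Q * P) + D) = Q := by module
  have e3 : (2 * c * x) • P + (1 : k) • (c • (P * P)) + (c * x ^ 2) • (1 : M3 k) =
      c • ((P + x • 1) * (P + x • 1)) := by
    simp only [mul_add, add_mul, mul_smul_comm, smul_mul_assoc, mul_one, one_mul]
    module
  have e4 : (2 * c * x) • Q + (1 : k) • (c • (P * Q + Q * P) + D) =
      c • ((P + x • 1) * Q + Q * (P + x • 1)) + D := by
    simp only [mul_add, add_mul, mul_smul_comm, smul_mul_assoc, mul_one, one_mul]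
    module
  rw [e1, e2, e3, e4] at h1
  exact ⟨_, _, h1⟩

theorem CD.sub (h : CD ρ ι P Q D c) (x y : k) : CD ρ ι P Q (D - (x • 1 + y • P)) c := by
  obtain ⟨R, R', hT⟩ := h
  have h1 := max_sub2 0 0 0 x y 0 hT
  have e1 : Q - ((0 : k) • (1 : M3 k) + (0 : k) • P + (0 : k) • (c • (P * P))) = Q := by
    simp
  have e2 : c • (P * Q + Q * P) + D - (x • (1 : M3 k) + y • P + (0 : k) • (c • (P * P))) =
      c • (P * Q + Q * P) + (D - (x • 1 + y • P)) := by
    rw [zero_smul, add_zero]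
    abel
  rw [e1, e2] at h1
  exact ⟨_, _, h1⟩

theorem isPoly_mulm {p q r : Type*} [Fintype q] {M : k → Matrix p q k} {N : k → Matrix q r k}
    (hM : ∀ i j, IsPoly fun s => M s i j) (hN : ∀ i j, IsPoly fun s => N s i j) :
    ∀ i j, IsPoly fun s => (M s * N s) i j := by
  intro i j
  have e : (fun s => (M s * N s) i j) = fun s => ∑ x, M s i x * N s x j := by
    funext s
    rw [Matrix.mul_apply]
  rw [e]
  classical
  induction (Finset.univ : Finset q) using Finset.induction_on with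
  | empty => simpa using D7.IsPoly.const 0
  | insert a s ha ih =>
    simp only [Finset.sum_insert ha]
    exact ((hM i a).mul (hN a j)).add ih

theorem isPoly_T {ι : k → M32 k} {P Q : k → M3 k} {R : k → M32 k}
    (hι : ∀ i j, IsPoly fun s => ι s i j) (hP : ∀ i j, IsPoly fun s => P s i j)
    (hQ : ∀ i j, IsPoly fun s => Q s i j) (hR : ∀ i j, IsPoly fun s => R s i j) :
    ∀ x y, IsPoly fun s => T (ι s) (P s) (Q s) (R s) x y := by
  intro x y
  have h1 := isPoly_mulm hP hι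
  have h2 := isPoly_mulm hQ hι
  rcases x with x | x | x | x <;> rcases y with y | y | y | y <;>
    first
    | exact h1 _ _
    | exact h2 _ _
    | exact hP _ _
    | exact hQ _ _
    | exact hR _ _
    | exact D7.IsPoly.const _

theorem CD.deform [Infinite k] (h : CD ρ ι P Q D c) (p d : k → M3 k) (hp0 : p 0 = P)
    (hd0 : d 0 = D) (hp : ∀ i j, IsPoly fun s => p s i j) (hd : ∀ i j, IsPoly fun s => d s i j)
    (hr : ∀ s, (p s * d s - d s * p s) * ι = 0) :
    ∃ F : Set k, F.Finite ∧ ∀ s ∉ F, CD ρ ι (p s) Q (d s) (c + s) := by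
  obtain ⟨R, R', hT⟩ := h
  obtain ⟨F, hF, h⟩ := hT.deform (fun s => ![A4 ι, T ι (p s) Q R,
    T ι ((c + s) • (p s * p s)) ((c + s) • (p s * Q + Q * p s) + d s) R']) (by
      have hι : ∀ i j, IsPoly fun _ : k => ι i j := fun i j => D7.IsPoly.const _
      have hQ : ∀ i j, IsPoly fun _ : k => Q i j := fun i j => D7.IsPoly.const _
      have hR : ∀ i j, IsPoly fun _ : k => R i j := fun i j => D7.IsPoly.const _
      have hR' : ∀ i j, IsPoly fun _ : k => R' i j := fun i j => D7.IsPoly.const _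
      have hc : IsPoly fun s => c + s := (D7.IsPoly.const c).add D7.IsPoly.id
      intro i
      fin_cases i
      · exact fun x y => D7.IsPoly.const _
      · exact isPoly_T hι hp hQ hR
      · refine isPoly_T hι ?_ ?_ hR'
        · intro i j
          exact hc.mul (isPoly_mulm hp hp i j)
        · intro i j
          exact (hc.mul ((isPoly_mulm hp hQ i j).add (isPoly_mulm hQ hp i j))).add (hd i j))
    (by simp [hp0, hd0]) Set.finite_empty (by
      intro s _
      refine cnT ?_ ?_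
      · rw [mul_smul_comm, smul_mul_assoc, mul_assoc]
      · rw [← sub_eq_zero, ← Matrix.sub_mul, ← hr s]
        congr 1
        simp only [mul_add, add_mul, mul_smul_comm, smul_mul_assoc, smul_add, mul_assoc]
        abel)
  exact ⟨F, hF, fun s hs => ⟨_, _, h s hs⟩⟩

theorem CD.diag [Infinite k] (h4 : ρ 4 = 0) {κ : Matrix (Fin 2) (Fin 3) k} (hκ : κ * ι = 1)
    (h : CD ρ ι P Q D c) (hc : c ≠ 0) {l : Fin 3 → k} (h01 : l 0 ≠ l 1) (h02 : l 0 ≠ l 2)
    (h12 : l 1 ≠ l 2) (hd : ∀ i, (P - l i • (1 : M3 k)).det = 0) : False := by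
  have hl : Function.Injective l := by
    intro i j hij
    fin_cases i <;> fin_cases j <;> simp_all
  obtain ⟨g, g', hg, hgP⟩ := diag3 hl hd
  have hg' : g' * g = 1 := mul_eq_one_comm.1 hg
  obtain ⟨R, R', hT⟩ := h.conj hg (u := 1) (u' := 1) (by simp)
  rw [hgP] at hT
  have e01 : l 0 - l 1 ≠ 0 := sub_ne_zero.2 h01
  have e02 : l 0 - l 2 ≠ 0 := sub_ne_zero.2 h02
  have e12 : l 1 - l 2 ≠ 0 := sub_ne_zero.2 h12
  have e10 : l 1 - l 0 ≠ 0 := sub_ne_zero.2 h01.symm
  have h1 := max_lin (-(l 1 + l 2) / ((l 0 - l 1) * (l 0 - l 2)))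
    (1 / (c * ((l 0 - l 1) * (l 0 - l 2)))) (-(l 0 + l 2) / ((l 1 - l 0) * (l 1 - l 2)))
    (1 / (c * ((l 1 - l 0) * (l 1 - l 2))))
    (l 1 * l 2 / ((l 0 - l 1) * (l 0 - l 2))) (l 0 * l 2 / ((l 1 - l 0) * (l 1 - l 2))) (by
      have e : -(l 1 + l 2) / ((l 0 - l 1) * (l 0 - l 2)) * (1 / (c * ((l 1 - l 0) * (l 1 - l 2)))) -
          1 / (c * ((l 0 - l 1) * (l 0 - l 2))) * (-(l 0 + l 2) / ((l 1 - l 0) * (l 1 - l 2))) =
          (l 0 - l 1) / (c * ((l 0 - l 1) * (l 0 - l 2)) * ((l 1 - l 0) * (l 1 - l 2))) := by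
        field_simp
        ring
      rw [e]
      exact div_ne_zero e01 (mul_ne_zero (mul_ne_zero hc (mul_ne_zero e01 e02))
        (mul_ne_zero e10 e12))) hT
  have a1 : (-(l 1 + l 2) / ((l 0 - l 1) * (l 0 - l 2))) • Matrix.diagonal l +
      (1 / (c * ((l 0 - l 1) * (l 0 - l 2)))) • c • (Matrix.diagonal l * Matrix.diagonal l) +
      (l 1 * l 2 / ((l 0 - l 1) * (l 0 - l 2))) • (1 : M3 k) = E11 k := by
    rw [Matrix.diagonal_mul_diagonal]
    ext i j
    fin_cases i <;> fin_cases j <;> simp <;> field_simp <;> ring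
  have a2 : (-(l 0 + l 2) / ((l 1 - l 0) * (l 1 - l 2))) • Matrix.diagonal l +
      (1 / (c * ((l 1 - l 0) * (l 1 - l 2)))) • c • (Matrix.diagonal l * Matrix.diagonal l) +
      (l 0 * l 2 / ((l 1 - l 0) * (l 1 - l 2))) • (1 : M3 k) = E22 k := by
    rw [Matrix.diagonal_mul_diagonal]
    ext i j
    fin_cases i <;> fin_cases j <;> simp <;> field_simp <;> ring
  rw [a1, a2] at h1
  refine DG.false h4 (κ := κ * g') (ι := g * ι * 1) ?_ ⟨_, _, _, _, h1⟩
  rw [Matrix.mul_one, Matrix.mul_assoc, ← Matrix.mul_assoc g', hg', Matrix.one_mul, hκ]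

end Pool.Agent.Lib.D13.T443
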