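import Pool.Agent.Lib.D13.T443d
import Pool.Agent.Lib.D9.T333

/-!
# MP_5dcbc3_ag: type (4, 4, 3), the first matrix has a cyclic vector
-/

set_option autoImplicit false

namespace Pool.Agent.Lib.D13.T443

open Matrix Pool.Agent.Lib.Q5dc Pool.Agent.Lib.D7 Pool.Agent.Lib.D8
open Pool.Agent.Lib.D9.T333Aux (D3 Cyc comm_comp exists_roots exists_quad isPoly_comp)

variable {k : Type*} [Field k] {ρ : ℕ → ℕ} {ι : M32 k} {P Q D : M3 k} {c : k}

theorem cyc_comp [IsAlgClosed k] {v : Fin 3 → k} (hv : Cyc P v) :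
    ∃ (g g' : M3 k) (a b e : k), g * g' = 1 ∧ g * P * g' = D9.T333Aux.comp a b e := by
  let K : M3 k := Matrix.of fun i j => ![v i, (P *ᵥ v) i, (P *ᵥ (P *ᵥ v)) i] j
  have hK : K.det ≠ 0 := by
    have e : K.det = D3 v (P *ᵥ v) (P *ᵥ (P *ᵥ v)) := by
      rw [Matrix.det_fin_three]
      simp [K, D3]
      ring
    rw [e]
    exact hv
  have hg : K⁻¹ * K = 1 := Matrix.nonsing_inv_mul _ (isUnit_iff_ne_zero.2 hK)
  have c0 : ∀ i, (P * K) i 0 = K i 1 := by
    intro i
    simp [K, Matrix.mul_apply, Matrix.mulVec, dotProduct]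
  have c1 : ∀ i, (P * K) i 1 = K i 2 := by
    intro i
    simp [K, Matrix.mul_apply, Matrix.mulVec, dotProduct]
  have d0 : ∀ i, (K⁻¹ * P * K) i 0 = (1 : M3 k) i 1 := by
    intro i
    rw [mul_assoc, Matrix.mul_apply, ← hg, Matrix.mul_apply]
    exact Finset.sum_congr rfl fun j _ => by rw [c0]
  have d1 : ∀ i, (K⁻¹ * P * K) i 1 = (1 : M3 k) i 2 := by
    intro i
    rw [mul_assoc, Matrix.mul_apply, ← hg, Matrix.mul_apply]
    exact Finset.sum_congr rfl fun j _ => by rw [c1]
  obtain ⟨a, b, c, ha, hb, hc⟩ := exists_roots ((K⁻¹ * P * K) 0 2) ((K⁻¹ * P * K) 1 2)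
    ((K⁻¹ * P * K) 2 2)
  refine ⟨K⁻¹, K, a, b, c, hg, ?_⟩
  ext i j
  fin_cases j
  · fin_cases i
    · exact (d0 0).trans rfl
    · exact (d0 1).trans rfl
    · exact (d0 2).trans rfl
  · fin_cases i
    · exact (d1 0).trans rfl
    · exact (d1 1).trans rfl
    · exact (d1 2).trans rfl
  · fin_cases i
    · exact ha
    · exact hb
    · exact hc

/-- a generic parameter -/
theorem generic [CharZero k] {F : Set k} (hF : F.Finite) (a b e c : k) :
    ∃ s, s ∉ F ∧ c + s ≠ 0 ∧ a + s ≠ b ∧ a + s ≠ e - s ∧ b ≠ e - s ∧ a + s ≠ 0 ∧ e - s ≠ 0 := by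
  have hinf : Infinite k := CharZero.infinite k
  obtain ⟨s, hs⟩ := ((((((hF.union (Set.finite_singleton (-c))).union
    (Set.finite_singleton (b - a))).union (Set.finite_singleton (e - b))).union
    (Set.finite_singleton ((e - a) / 2))).union (Set.finite_singleton (-a))).union
    (Set.finite_singleton e)).infinite_compl.nonempty
  simp only [Set.mem_compl_iff, Set.mem_union, Set.mem_singleton_iff, not_or] at hs
  obtain ⟨⟨⟨⟨⟨⟨hs0, hs1⟩, hs2⟩, hs3⟩, hs4⟩, hs5⟩, hs6⟩ := hs
  refine ⟨s, hs0, ?_, ?_, ?_, ?_, ?_, ?_⟩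
  · intro h0
    exact hs1 (by linear_combination h0)
  · intro h0
    exact hs2 (by linear_combination h0)
  · intro h0
    refine hs4 ?_
    rw [eq_div_iff two_ne_zero]
    linear_combination h0
  · intro h0
    exact hs3 (by linear_combination h0)
  · intro h0
    exact hs5 (by linear_combination h0)
  · intro h0
    exact hs6 (by linear_combination -h0)

theorem CD.comm_false [CharZero k] [IsAlgClosed k] (h4 : ρ 4 = 0)
    {κ : Matrix (Fin 2) (Fin 3) k} (hκ : κ * ι = 1) {v : Fin 3 → k} (hv : Cyc P v)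
    (h : CD ρ ι P Q D c) (hPD : P * D = D * P) : False := by
  have hinf : Infinite k := CharZero.infinite k
  obtain ⟨g, g', a, b, e, hg, hP⟩ := cyc_comp hv
  have hg' : g' * g = 1 := mul_eq_one_comm.1 hg
  have h1 := h.conj hg (u := 1) (u' := 1) (by simp)
  have hc : g * D * g' * D9.T333Aux.comp a b e = D9.T333Aux.comp a b e * (g * D * g') := by
    rw [← hP]
    calc g * D * g' * (g * P * g') = g * D * (g' * g) * P * g' := by simp only [mul_assoc]
      _ = g * (D * P) * g' := by rw [hg', mul_one]; simp only [mul_assoc]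
      _ = g * (P * D) * g' := by rw [hPD]
      _ = g * P * (g' * g) * D * g' := by rw [hg', mul_one]; simp only [mul_assoc]
      _ = g * P * g' * (g * D * g') := by simp only [mul_assoc]
  rw [hP] at h1
  set D1 := g * D * g' with hD1
  have hD := comm_comp hc
  have h2 := h1.sub (D1 0 0) (D1 1 0)
  have e2 : D1 - (D1 0 0 • 1 + D1 1 0 • D9.T333Aux.comp a b e) = D1 2 0 • (D9.T333Aux.comp a b e * D9.T333Aux.comp a b e) := by
    nth_rewrite 1 [hD]
    unfold D9.T333Aux.comp
    module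
  rw [e2] at h2
  obtain ⟨F, hF, h3⟩ := h2.deform (fun s => D9.T333Aux.comp (a + s) b (e - s))
    (fun s => D1 2 0 • (D9.T333Aux.comp (a + s) b (e - s) * D9.T333Aux.comp (a + s) b (e - s))) (by simp) (by simp)
    (isPoly_comp a b e) (by
      intro i j
      exact (D7.IsPoly.const _).mul (isPoly_mulm (isPoly_comp a b e) (isPoly_comp a b e) i j))
    (by
      intro s
      rw [mul_smul_comm, smul_mul_assoc, mul_assoc, sub_self, Matrix.zero_mul])
  obtain ⟨s, hs, hs1, hs2, hs3, hs4, -, -⟩ := generic hF a b e c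
  refine CD.diag h4 (κ := κ * g') ?_ (h3 s hs) hs1 (l := ![a + s, b, e - s]) hs2 hs3 hs4 ?_
  · rw [Matrix.mul_one, Matrix.mul_assoc, ← Matrix.mul_assoc g', hg', Matrix.one_mul, hκ]
  · intro i
    rw [Matrix.det_fin_three]
    fin_cases i <;> simp [D9.T333Aux.comp] <;> ring

/-- the second vector is not mapped into the plane -/
theorem CD.line_false [CharZero k] [IsAlgClosed k] (h4 : ρ 4 = 0) {p3 p5 p7 : k}
    {v : Fin 3 → k} (hv : Cyc (!![0, 0, p3; 0, 0, p5; 0, 1, p7] : M3 k) v)
    (h : CD ρ (!![1, 0; 0, 1; 0, 0] : M32 k) !![0, 0, p3; 0, 0, p5; 0, 1, p7] Q D c) : False := by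
  have hinf : Infinite k := CharZero.infinite k
  have H := fun i j => congrFun (congrFun h.rel i) j
  have h00 := H 0 0
  have h01 := H 0 1
  have h10 := H 1 0
  have h11 := H 1 1
  have h20 := H 2 0
  have h21 := H 2 1
  simp [Matrix.mul_apply, Fin.sum_univ_three, Matrix.vecMul, dotProduct] at h00 h01 h10 h11 h20 h21
  have hz : D 2 0 = 0 := by
    by_contra hz
    have h3 : p3 = 0 := by
      rcases h00 with h | h
      · exact h
      · exact absurd h hz
    have h5 : p5 = 0 := by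
      rcases h10 with h | h
      · exact h
      · exact absurd h hz
    subst h3 h5
    apply hv
    simp [D3, Matrix.mulVec, dotProduct, Fin.sum_univ_three]
  have hy : D 1 0 = 0 := by
    rw [hz] at h20
    simpa using h20
  obtain ⟨a, ha⟩ := exists_quad p5 p7
  have hD : D = !![D 0 0, D 0 1, p3 * D 2 1; 0, D 1 1, p5 * D 2 1; 0, D 2 1, D 1 1 + p7 * D 2 1] := by
    ext i j
    fin_cases i <;> fin_cases j
    · rfl
    · rfl
    · simp; linear_combination -h01
    · exact hy
    · rfl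
    · simp; linear_combination -h11
    · exact hz
    · rfl
    · simp; linear_combination -h21
  have hp5 : p5 = -(a * (p7 - a)) := by linear_combination -ha
  rw [hD] at h
  obtain ⟨F, hF, h3⟩ := h.deform
    (fun s => !![0, 0, p3; 0, 0, -((a + s) * (p7 - a - s)); 0, 1, p7])
    (fun s => !![D 0 0, D 0 1, p3 * D 2 1; 0, D 1 1, -((a + s) * (p7 - a - s)) * D 2 1;
      0, D 2 1, D 1 1 + p7 * D 2 1]) (by simp [← hp5]) (by simp [← hp5]) (by
        have hb : IsPoly fun s => -((a + s) * (p7 - a - s)) :=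
          (((D7.IsPoly.const a).add D7.IsPoly.id).mul
            ((D7.IsPoly.const (p7 - a)).sub D7.IsPoly.id)).neg
        intro i j
        fin_cases i <;> fin_cases j <;> first | exact D7.IsPoly.const _ | exact hb) (by
        have hb : IsPoly fun s => -((a + s) * (p7 - a - s)) * D 2 1 :=
          ((((D7.IsPoly.const a).add D7.IsPoly.id).mul
            ((D7.IsPoly.const (p7 - a)).sub D7.IsPoly.id)).neg).mul (D7.IsPoly.const _)
        intro i j
        fin_cases i <;> fin_cases j <;> first | exact D7.IsPoly.const _ | exact hb) (by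
        intro s
        ext i j
        fin_cases i <;> fin_cases j <;> simp [Matrix.mul_apply, Fin.sum_univ_three] <;> ring)
  obtain ⟨s, hs, hs1, -, hs3, -, hs5, hs6⟩ := generic hF a 0 (p7 - a) c
  refine CD.diag h4 (κ := !![1, 0, 0; 0, 1, 0]) ?_ (h3 s hs) hs1 (l := ![0, a + s, p7 - a - s])
    (Ne.symm hs5) (Ne.symm hs6) hs3 ?_
  · ext i j
    fin_cases i <;> fin_cases j <;> simp [Matrix.mul_apply, Fin.sum_univ_three]
  · intro i
    rw [Matrix.det_fin_three]
    fin_cases i <;> simp <;> ring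

/-- the plane is invariant -/
theorem CD.plane_false [CharZero k] [IsAlgClosed k] (h4 : ρ 4 = 0) {p2 p3 p4 p5 p7 : k}
    {v : Fin 3 → k} (hv : Cyc (!![0, p2, p3; 0, p4, p5; 0, 0, p7] : M3 k) v)
    (h : CD ρ (!![1, 0; 0, 1; 0, 0] : M32 k) !![0, p2, p3; 0, p4, p5; 0, 0, p7] Q D c) :
    False := by
  have hinf : Infinite k := CharZero.infinite k
  have H := fun i j => congrFun (congrFun h.rel i) j
  have h00 := H 0 0
  have h01 := H 0 1
  have h10 := H 1 0
  have h11 := H 1 1
  have h20 := H 2 0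
  have h21 := H 2 1
  simp [Matrix.mul_apply, Fin.sum_univ_three, Matrix.vecMul, dotProduct] at h00 h01 h10 h11 h20 h21
  have hcyc : (v 2 * ((p7 - p4) * v 1 - p5 * v 2)) *
      (p4 * p7 * v 0 - p2 * p7 * v 1 + (p2 * p5 - p3 * p4) * v 2) ≠ 0 := by
    intro h0
    apply hv
    refine Eq.trans ?_ h0
    simp [D3, Matrix.mulVec, dotProduct, Fin.sum_univ_three]
    ring
  have hc1 := left_ne_zero_of_mul hcyc
  have hc2 := right_ne_zero_of_mul hcyc
  have h20' : p7 * D 2 0 = 0 := by
    rcases h20 with h | h <;> rw [h] <;> simp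
  have hz : D 2 0 = 0 := by
    have e : D 2 0 * (p4 * p7 * v 0 - p2 * p7 * v 1 + (p2 * p5 - p3 * p4) * v 2) = 0 := by
      linear_combination v 0 * p4 * h20' - v 1 * p2 * h20' + v 2 * (p2 * h10 - p4 * h00)
    exact (mul_eq_zero.1 e).resolve_right hc2
  have hy : D 1 0 = 0 := by
    have e : D 1 0 * (p4 * p7 * v 0 - p2 * p7 * v 1 + (p2 * p5 - p3 * p4) * v 2) = 0 := by
      linear_combination v 0 * (p7 * h10 - p5 * h20') - v 1 * (p7 * h00 - p3 * h20') +
        v 2 * (p5 * h00 - p3 * h10)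
    exact (mul_eq_zero.1 e).resolve_right hc2
  rw [hy] at h11
  rw [hz] at h21
  have hu3 : D 2 1 = 0 := by
    have e : D 2 1 * (v 2 * ((p7 - p4) * v 1 - p5 * v 2)) = 0 := by
      linear_combination v 2 * v 1 * h21 - v 2 * v 2 * h11
    exact (mul_eq_zero.1 e).resolve_right hc1
  rw [hu3] at h01
  obtain ⟨g1, hg1, hg2⟩ : ∃ g1 : k, D 0 1 = g1 * p2 ∧ D 1 1 = D 0 0 + g1 * p4 := by
    by_cases h2 : p2 = 0
    · by_cases h4 : p4 = 0
      · exfalso
        apply hc2
        rw [h2, h4]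
        ring
      · refine ⟨(D 1 1 - D 0 0) / p4, ?_, ?_⟩
        · rw [h2] at h01 ⊢
          have : D 0 1 * p4 = 0 := by linear_combination -h01
          rw [(mul_eq_zero.1 this).resolve_right h4, mul_zero]
        · field_simp
          ring
    · refine ⟨D 0 1 / p2, ?_, ?_⟩
      · field_simp
      · field_simp
        linear_combination h01
  have h1 := h.sub (D 0 0) g1
  have e1 : D - (D 0 0 • (1 : M3 k) + g1 • !![0, p2, p3; 0, p4, p5; 0, 0, p7]) =
      !![0, 0, D 0 2 - g1 * p3; 0, 0, D 1 2 - g1 * p5; 0, 0, D 2 2 - D 0 0 - g1 * p7] := by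
    ext i j
    fin_cases i <;> fin_cases j
    · simp
    · simp [hg1]
    · simp
    · simp [hy]
    · simp [hg2]
    · simp
    · simp [hz]
    · simp [hu3]
    · simp
      ring
  rw [e1] at h1
  obtain ⟨F, hF, h3⟩ := h1.deform
    (fun s => !![0, p2, p3; 0, p4 + s, p5; 0, 0, p7 - s])
    (fun s => !![0, 0, D 0 2 - g1 * p3; 0, 0, D 1 2 - g1 * p5; 0, 0, D 2 2 - D 0 0 - g1 * p7])
    (by simp) (by simp) (by
        have hb : IsPoly fun s => p4 + s := (D7.IsPoly.const _).add D7.IsPoly.id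
        have hb' : IsPoly fun s => p7 - s := (D7.IsPoly.const _).sub D7.IsPoly.id
        intro i j
        fin_cases i <;> fin_cases j <;> first | exact D7.IsPoly.const _ | exact hb | exact hb') (by
        intro i j
        exact D7.IsPoly.const _) (by
        intro s
        ext i j
        fin_cases i <;> fin_cases j <;> simp [Matrix.mul_apply, Fin.sum_univ_three])
  obtain ⟨s, hs, hs1, -, hs3, -, hs5, hs6⟩ := generic hF p4 0 p7 c
  refine CD.diag h4 (κ := !![1, 0, 0; 0, 1, 0]) ?_ (h3 s hs) hs1 (l := ![0, p4 + s, p7 - s])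
    (Ne.symm hs5) (Ne.symm hs6) hs3 ?_
  · ext i j
    fin_cases i <;> fin_cases j <;> simp [Matrix.mul_apply, Fin.sum_univ_three]
  · intro i
    rw [Matrix.det_fin_three]
    fin_cases i <;> simp

end Pool.Agent.Lib.D13.T443
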