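import Pool.Agent.Lib.D13.T443e

/-!
# MP_5dcbc3_ag: type (4, 4, 3), triples of the shape `A4 ι, T ι P Q R, T ι P' Q' R'`
-/

set_option autoImplicit false

namespace Pool.Agent.Lib.D13.T443

open Matrix Pool.Agent.Lib.Q5dc Pool.Agent.Lib.D7 Pool.Agent.Lib.D8
open Pool.Agent.Lib.D9.T333Aux (D3 Cyc comm_comp exists_quad)
open Pool.Agent.Lib.D13.JetsAux (cyc_conj cyc_add)

variable {k : Type*} [Field k] {ρ : ℕ → ℕ} {ι : M32 k} {P Q D : M3 k} {c : k}

theorem minor_ne {κ : Matrix (Fin 2) (Fin 3) k} (hκ : κ * ι = 1) :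
    ι 0 0 * ι 1 1 - ι 0 1 * ι 1 0 ≠ 0 ∨ ι 2 0 * ι 1 1 - ι 2 1 * ι 1 0 ≠ 0 ∨
    ι 2 0 * ι 0 1 - ι 2 1 * ι 0 0 ≠ 0 := by
  by_contra h
  push Not at h
  obtain ⟨h12, h23, h13⟩ := h
  have hdet : (κ * ι).det = 1 := by rw [hκ, Matrix.det_one]
  rw [Matrix.det_fin_two] at hdet
  simp only [Matrix.mul_apply, Fin.sum_univ_three] at hdet
  apply one_ne_zero (α := k)
  rw [← hdet]
  linear_combination (κ 0 0 * κ 1 1 - κ 0 1 * κ 1 0) * h12 +
    (κ 0 2 * κ 1 1 - κ 0 1 * κ 1 2) * h23 + (κ 0 2 * κ 1 0 - κ 0 0 * κ 1 2) * h13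

/-- the standard embedding -/
abbrev std (k : Type*) [Field k] : M32 k := !![1, 0; 0, 1; 0, 0]

theorem exists_std {κ : Matrix (Fin 2) (Fin 3) k} (hκ : κ * ι = 1) :
    ∃ g g' : M3 k, g * g' = 1 ∧ g * ι = std k := by
  obtain ⟨x, hx⟩ : ∃ x : Fin 3 → k,
      (!![ι 0 0, ι 0 1, x 0; ι 1 0, ι 1 1, x 1; ι 2 0, ι 2 1, x 2] : M3 k).det ≠ 0 := by
    rcases minor_ne hκ with h | h | h
    · refine ⟨![0, 0, 1], fun h0 => h ?_⟩
      rw [Matrix.det_fin_three] at h0
      simp at h0
      linear_combination h0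
    · refine ⟨![1, 0, 0], fun h0 => h ?_⟩
      rw [Matrix.det_fin_three] at h0
      simp at h0
      linear_combination -h0
    · refine ⟨![0, 1, 0], fun h0 => h ?_⟩
      rw [Matrix.det_fin_three] at h0
      simp at h0
      linear_combination h0
  set K : M3 k := !![ι 0 0, ι 0 1, x 0; ι 1 0, ι 1 1, x 1; ι 2 0, ι 2 1, x 2] with hK
  have hKK : K⁻¹ * K = 1 := Matrix.nonsing_inv_mul _ (isUnit_iff_ne_zero.2 hx)
  refine ⟨K⁻¹, K, hKK, ?_⟩
  have e : K * std k = ι := by
    rw [hK]
    ext i j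
    fin_cases i <;> fin_cases j <;> simp [Matrix.mul_apply, Fin.sum_univ_three]
  rw [← e, ← Matrix.mul_assoc, hKK, Matrix.one_mul]

theorem cyc_conj' {g g' : M3 k} {v : Fin 3 → k} (hg : g * g' = 1) (hv : Cyc P v) :
    Cyc (g * P * g') (g *ᵥ v) := by
  have hg' : g' * g = 1 := mul_eq_one_comm.1 hg
  refine cyc_conj hg' ?_
  have e : g' * (g * P * g') * g = P := by
    calc g' * (g * P * g') * g = (g' * g) * P * (g' * g) := by simp only [mul_assoc]
      _ = P := by rw [hg', one_mul, mul_one]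
  rw [e]
  exact hv

/-- an invariant subspace of the plane contains an eigenvector -/
theorem eig [IsAlgClosed k] {w : Fin 3 → k} (hw : w ≠ 0) (h0 : w 2 = 0) (h1 : (P *ᵥ w) 2 = 0)
    (h2 : (P *ᵥ (P *ᵥ w)) 2 = 0) :
    ∃ x y l : k, (x ≠ 0 ∨ y ≠ 0) ∧ P *ᵥ ![x, y, 0] = l • ![x, y, 0] := by
  classical
  have hw01 : w 0 ≠ 0 ∨ w 1 ≠ 0 := by
    by_contra h
    push Not at h
    apply hw
    funext i
    fin_cases i
    exacts [h.1, h.2, h0]
  have ew : w = ![w 0, w 1, 0] := by
    funext i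
    fin_cases i
    exacts [rfl, rfl, h0]
  set y := P *ᵥ w with hy
  set z := P *ᵥ y with hz
  have ey : y = ![y 0, y 1, 0] := by
    funext i
    fin_cases i
    exacts [rfl, rfl, h1]
  by_cases hd : w 0 * y 1 - w 1 * y 0 = 0
  · refine ⟨w 0, w 1, if w 0 = 0 then y 1 / w 1 else y 0 / w 0, hw01, ?_⟩
    rw [← ew, ← hy]
    split_ifs with h00
    · have h11 : w 1 ≠ 0 := by
        rcases hw01 with h | h
        · exact absurd h00 h
        · exact h
      have hy0 : y 0 = 0 := by
        rw [h00] at hd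
        have : w 1 * y 0 = 0 := by linear_combination -hd
        exact (mul_eq_zero.1 this).resolve_left h11
      funext i
      fin_cases i
      · simp [h00, hy0]
      · simp [h11]
      · simp [h0, h1]
    · funext i
      fin_cases i
      · simp [h00]
      · simp
        field_simp
        linear_combination hd
      · simp [h0, h1]
  · set d := w 0 * y 1 - w 1 * y 0 with hdd
    obtain ⟨a, ha⟩ := exists_quad ((z 0 * y 1 - z 1 * y 0) / d) ((w 0 * z 1 - w 1 * z 0) / d)
    set r := (w 0 * z 1 - w 1 * z 0) / d with hr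
    set q := (z 0 * y 1 - z 1 * y 0) / d with hq
    have hz0 : z = r • y + q • w := by
      funext i
      fin_cases i
      · simp only [Fin.zero_eta, Pi.add_apply, Pi.smul_apply, smul_eq_mul]
        rw [hr, hq]
        field_simp
        rw [hdd]
        ring
      · simp only [Fin.mk_one, Pi.add_apply, Pi.smul_apply, smul_eq_mul]
        rw [hr, hq]
        field_simp
        rw [hdd]
        ring
      · simp only [Fin.reduceFinMk, Pi.add_apply, Pi.smul_apply, smul_eq_mul, h0, h1, h2]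
        ring
    refine ⟨y 0 - (r - a) * w 0, y 1 - (r - a) * w 1, a, ?_, ?_⟩
    · by_contra h
      push Not at h
      apply hd
      rw [hdd]
      linear_combination w 0 * h.2 - w 1 * h.1
    · have e : (![y 0 - (r - a) * w 0, y 1 - (r - a) * w 1, 0] : Fin 3 → k) =
          y - (r - a) • w := by
        rw [ew, ey]
        funext i
        fin_cases i <;> simp
      rw [e, Matrix.mulVec_sub, Matrix.mulVec_smul, ← hy, ← hz, hz0]
      have e2 : r • y + q • w - (r - a) • y - a • (y - (r - a) • w) =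
          (q + r * a - a ^ 2) • w := by module
      rw [← sub_eq_zero, e2, ha]
      have e3 : q + r * a - (r * a + q) = 0 := by ring
      rw [e3, zero_smul]

theorem CD.col_false [CharZero k] [IsAlgClosed k] (h4 : ρ 4 = 0) {v : Fin 3 → k} (hv : Cyc P v)
    (h : CD ρ (std k) P Q D c) (hP : ∀ i, P i 0 = 0) : False := by
  by_cases h6 : P 2 1 = 0
  · have e : P = !![0, P 0 1, P 0 2; 0, P 1 1, P 1 2; 0, 0, P 2 2] := by
      ext i j
      fin_cases i <;> fin_cases j
      exacts [hP 0, rfl, rfl, hP 1, rfl, rfl, hP 2, h6, rfl]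
    rw [e] at h hv
    exact CD.plane_false h4 hv h
  · set K : M3 k := !![1, 0, P 0 1; 0, 1, P 1 1; 0, 0, P 2 1] with hK
    set L : M3 k := !![1, 0, -P 0 1 / P 2 1; 0, 1, -P 1 1 / P 2 1; 0, 0, 1 / P 2 1] with hL
    have hLK : L * K = 1 := by
      rw [hL, hK]
      ext i j
      fin_cases i <;> fin_cases j <;> simp [Matrix.mul_apply, Fin.sum_univ_three, h6] <;>
        field_simp <;> ring
    have h1 := h.conj hLK (u := 1) (u' := 1) (by simp)
    have hv1 := cyc_conj' hLK hv
    have e0 : L * std k * (1 : Matrix (Fin 2) (Fin 2) k) = std k := by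
      rw [hL]
      ext i j
      fin_cases i <;> fin_cases j <;> simp [Matrix.mul_apply, Fin.sum_univ_three]
    have ePK0 : ∀ i, (P * K) i 0 = 0 := by
      intro i
      rw [hK]
      simp [Matrix.mul_apply, Fin.sum_univ_three, hP]
    have ePK1 : ∀ i, (P * K) i 1 = K i 2 := by
      intro i
      rw [hK]
      fin_cases i <;> simp [Matrix.mul_apply, Fin.sum_univ_three]
    have e1 : ∀ i, (L * P * K) i 0 = 0 := by
      intro i
      rw [mul_assoc, Matrix.mul_apply]
      exact Finset.sum_eq_zero fun j _ => by rw [ePK0, mul_zero]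
    have e2 : ∀ i, (L * P * K) i 1 = (1 : M3 k) i 2 := by
      intro i
      rw [mul_assoc, Matrix.mul_apply, ← hLK, Matrix.mul_apply]
      exact Finset.sum_congr rfl fun j _ => by rw [ePK1]
    have e3 : L * P * K = !![0, 0, (L * P * K) 0 2; 0, 0, (L * P * K) 1 2;
        0, 1, (L * P * K) 2 2] := by
      ext i j
      fin_cases i <;> fin_cases j
      exacts [e1 0, e2 0, rfl, e1 1, e2 1, rfl, e1 2, e2 2, rfl]
    rw [e0] at h1
    rw [e3] at h1 hv1
    exact CD.line_false h4 hv1 h1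

theorem CD.eig_false [CharZero k] [IsAlgClosed k] (h4 : ρ 4 = 0) {v : Fin 3 → k} (hv : Cyc P v)
    (h : CD ρ (std k) P Q D c) {x y l : k} (hxy : x ≠ 0 ∨ y ≠ 0)
    (he : P *ᵥ ![x, y, 0] = l • ![x, y, 0]) : False := by
  -- an invertible matrix with first column `(x, y, 0)` which preserves the plane
  obtain ⟨K, K', u, u', hK, hu, h0, h1⟩ : ∃ (K K' : M3 k) (u u' : Matrix (Fin 2) (Fin 2) k),
      K * K' = 1 ∧ u * u' = 1 ∧ K * std k * u' = std k ∧ ∀ i, K' i 0 = ![x, y, 0] i := by
    by_cases hx : x = 0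
    · have hy : y ≠ 0 := by
        rcases hxy with h | h
        · exact absurd hx h
        · exact h
      refine ⟨!![0, 1 / y, 0; 1, 0, 0; 0, 0, 1], !![0, 1, 0; y, 0, 0; 0, 0, 1], !![0, 1 / y; 1, 0],
        !![0, 1; y, 0], ?_, ?_, ?_, ?_⟩
      · ext i j
        fin_cases i <;> fin_cases j <;> simp [Matrix.mul_apply, Fin.sum_univ_three, hy]
      · ext i j
        fin_cases i <;> fin_cases j <;> simp [hy]
      · ext i j
        fin_cases i <;> fin_cases j <;> simp [Matrix.mul_apply, Fin.sum_univ_three, hy]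
      · intro i
        fin_cases i <;> simp [hx]
    · refine ⟨!![1 / x, 0, 0; -y / x, 1, 0; 0, 0, 1], !![x, 0, 0; y, 1, 0; 0, 0, 1],
        !![1 / x, 0; -y / x, 1], !![x, 0; y, 1], ?_, ?_, ?_, ?_⟩
      · ext i j
        fin_cases i <;> fin_cases j <;> simp [Matrix.mul_apply, Fin.sum_univ_three, hx]
      · ext i j
        fin_cases i <;> fin_cases j <;> simp [hx]
      · ext i j
        fin_cases i <;> fin_cases j <;> simp [Matrix.mul_apply, Fin.sum_univ_three, hx]
      · intro i
        fin_cases i <;> simp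
  have h2 := h.conj hK hu
  have hv2 := cyc_conj' hK hv
  rw [h0] at h2
  have h3 := h2.shift (-l)
  have hv3 : Cyc (K * P * K' + (-l) • 1) (K *ᵥ v) := by
    refine cyc_add (l := -l) ?_
    rw [add_sub_cancel_right]
    exact hv2
  refine CD.col_false h4 hv3 h3 fun i => ?_
  have e1 : (K * P * K') i 0 = l * (1 : M3 k) i 0 := by
    have e2 : ∀ j, (P * K') j 0 = l * K' j 0 := by
      intro j
      have := congrFun he j
      rw [Matrix.mulVec, dotProduct] at this
      rw [Matrix.mul_apply, h1 j]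
      simp only [h1]
      exact this
    rw [mul_assoc, Matrix.mul_apply, ← hK, Matrix.mul_apply, Finset.mul_sum]
    exact Finset.sum_congr rfl fun j _ => by rw [e2]; ring
  rw [Matrix.add_apply, e1, Matrix.smul_apply, smul_eq_mul]
  ring

theorem CD.std_false [CharZero k] [IsAlgClosed k] (h4 : ρ 4 = 0) {v : Fin 3 → k} (hv : Cyc P v)
    (h : CD ρ (std k) P Q D c) : False := by
  by_cases hPD : P * D = D * P
  · refine CD.comm_false h4 (κ := !![1, 0, 0; 0, 1, 0]) ?_ hv h hPD
    ext i j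
    fin_cases i <;> fin_cases j <;> simp [Matrix.mul_apply, Fin.sum_univ_three]
  · have hr := h.rel
    set N := P * D - D * P with hN
    have hN0 : ∀ i, N i 0 = 0 := by
      intro i
      have := congrFun (congrFun hr i) 0
      simpa [Matrix.mul_apply, Fin.sum_univ_three] using this
    have hN1 : ∀ i, N i 1 = 0 := by
      intro i
      have := congrFun (congrFun hr i) 1
      simpa [Matrix.mul_apply, Fin.sum_univ_three] using this
    have t0 : N.trace = 0 := by
      rw [hN, Matrix.trace_sub, Matrix.trace_mul_comm, sub_self]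
    have t1 : (P * N).trace = 0 := by
      rw [hN, mul_sub, Matrix.trace_sub, Matrix.trace_mul_comm, mul_assoc, sub_self]
    have t2 : (P * (P * N)).trace = 0 := by
      rw [hN, mul_sub, mul_sub, Matrix.trace_sub, Matrix.trace_mul_comm]
      have e : P * (P * D) * P = P * (P * (D * P)) := by simp only [mul_assoc]
      rw [e, sub_self]
    rw [Matrix.trace_fin_three] at t0 t1 t2
    obtain ⟨x, y, l, hxy, he⟩ := eig (P := P) (w := fun i => N i 2) (by
      intro h0
      apply hPD
      rw [← sub_eq_zero, ← hN]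
      ext i j
      fin_cases j
      · exact hN0 i
      · exact hN1 i
      · exact congrFun h0 i) (by
      simpa [hN0, hN1] using t0) (by
      have e : (P *ᵥ fun i => N i 2) 2 = (P * N) 0 0 + (P * N) 1 1 + (P * N) 2 2 := by
        simp [Matrix.mul_apply, Matrix.mulVec, dotProduct, hN0, hN1]
      rw [e, t1]) (by
      have e : (P *ᵥ (P *ᵥ fun i => N i 2)) 2 = (P * (P * N)) 0 0 + (P * (P * N)) 1 1 +
          (P * (P * N)) 2 2 := by
        simp [Matrix.mul_apply, Matrix.mulVec, dotProduct, hN0, hN1]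
      rw [e, t2])
    exact CD.eig_false h4 hv h hxy he

theorem CD.false [CharZero k] [IsAlgClosed k] (h4 : ρ 4 = 0) {κ : Matrix (Fin 2) (Fin 3) k}
    (hκ : κ * ι = 1) {v : Fin 3 → k} (hv : Cyc P v) (h : CD ρ ι P Q D c) : False := by
  obtain ⟨g, g', hg, hs⟩ := exists_std hκ
  have h1 := h.conj hg (u := 1) (u' := 1) (by simp)
  rw [hs, Matrix.mul_one] at h1
  exact CD.std_false h4 (cyc_conj' hg hv) h1

end Pool.Agent.Lib.D13.T443
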