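import Pool.Agent.Lib.D13.S5321
import Pool.Agent.Lib.D13.Cnt321
import Pool.Agent.Lib.D13.PurCut

/-!
# MP_5dcbc3_ag: type `(5, 3, 2, 1)`: the dimension of the centralizer, the rank of `J`
-/

set_option autoImplicit false

namespace Pool.Agent.Lib.D13.Q.L5

open Matrix Pool.Agent.Lib.Q5dc Pool.Agent.Lib.D7 Pur

variable {k : Type*} [Field k]

/-- the matrices commuting with `J`, on vectors -/
def zact (c : Fin 31 → k) (m : Fin 11 → k) : Fin 11 → k :=
  ![
    c 0 * m 0,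
    c 1 * m 0 + c 0 * m 1,
    c 2 * m 0 + c 1 * m 1 + c 0 * m 2 + c 11 * m 5,
    c 3 * m 0 + c 2 * m 1 + c 1 * m 2 + c 0 * m 3 + c 12 * m 5 + c 11 * m 6 + c 20 * m 8,
    c 4 * m 0 + c 3 * m 1 + c 2 * m 2 + c 1 * m 3 + c 0 * m 4 + c 13 * m 5 + c 12 * m 6 + c 11 * m 7 + c 21 * m 8 + c 20 * m 9 + c 27 * m 10,
    c 5 * m 0 + c 14 * m 5,
    c 6 * m 0 + c 5 * m 1 + c 15 * m 5 + c 14 * m 6 + c 22 * m 8,
    c 7 * m 0 + c 6 * m 1 + c 5 * m 2 + c 16 * m 5 + c 15 * m 6 + c 14 * m 7 + c 23 * m 8 + c 22 * m 9 + c 28 * m 10,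
    c 8 * m 0 + c 17 * m 5 + c 24 * m 8,
    c 9 * m 0 + c 8 * m 1 + c 18 * m 5 + c 17 * m 6 + c 25 * m 8 + c 24 * m 9 + c 29 * m 10,
    c 10 * m 0 + c 19 * m 5 + c 26 * m 8 + c 30 * m 10]

theorem actJ_zact (c : Fin 31 → k) (m : Fin 11 → k) : actJ (zact c m) = zact c (actJ m) := by
  funext i
  fin_cases i <;> simp [actJ, zact]

/-- the matrices commuting with `J` -/
def zmat (c : Fin 31 → k) : Matrix (Fin 11) (Fin 11) k :=
  Matrix.of fun i j => zact c (Pi.single j 1) i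

theorem zmat_mulVec (c : Fin 31 → k) (m : Fin 11 → k) : zmat c *ᵥ m = zact c m := by
  funext i
  have h : ∀ j, zmat c i j = zact c (Pi.single j 1) i := fun _ => rfl
  simp only [Matrix.mulVec, dotProduct, h, Fin.sum_univ_succ]
  fin_cases i <;> simp [zact] <;> ring

/-- the parametrization of the centralizer -/
def zlin : (Fin 31 → k) →ₗ[k] Matrix (Fin 11) (Fin 11) k where
  toFun c := zmat c
  map_add' c c' := by
    refine ext_mulVec fun m => ?_
    rw [add_mulVec, zmat_mulVec, zmat_mulVec, zmat_mulVec]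
    funext i
    fin_cases i <;> simp [zact] <;> ring
  map_smul' a c := by
    refine ext_mulVec fun m => ?_
    rw [RingHom.id_apply, smul_mulVec, zmat_mulVec, zmat_mulVec]
    funext i
    fin_cases i <;> simp [zact] <;> ring

theorem zlin_mem (c : Fin 31 → k) : zlin c ∈ cen (J k) := by
  show J k * zmat c = zmat c * J k
  refine ext_mulVec fun m => ?_
  rw [← mulVec_mulVec, ← mulVec_mulVec, J_mulVec, J_mulVec, zmat_mulVec, zmat_mulVec, actJ_zact]

theorem zlin_inj : Function.Injective (zlin (k := k)) := by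
  rw [injective_iff_map_eq_zero]
  intro c h
  have key : ∀ (m : Fin 11 → k) (i : Fin 11), zact c m i = 0 := by
    intro m i
    rw [← zmat_mulVec]
    have h1 : zmat c = 0 := h
    rw [h1, zero_mulVec]
    rfl
  have h0 : c 0 = 0 := by
    have h1 := key ![1, 0, 0, 0, 0, 0, 0, 0, 0, 0, 0] 0
    simpa [zact] using h1
  have h1 : c 1 = 0 := by
    have h1 := key ![1, 0, 0, 0, 0, 0, 0, 0, 0, 0, 0] 1
    simpa [zact] using h1
  have h2 : c 2 = 0 := by
    have h1 := key ![1, 0, 0, 0, 0, 0, 0, 0, 0, 0, 0] 2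
    simpa [zact] using h1
  have h3 : c 3 = 0 := by
    have h1 := key ![1, 0, 0, 0, 0, 0, 0, 0, 0, 0, 0] 3
    simpa [zact] using h1
  have h4 : c 4 = 0 := by
    have h1 := key ![1, 0, 0, 0, 0, 0, 0, 0, 0, 0, 0] 4
    simpa [zact] using h1
  have h5 : c 5 = 0 := by
    have h1 := key ![1, 0, 0, 0, 0, 0, 0, 0, 0, 0, 0] 5
    simpa [zact] using h1
  have h6 : c 6 = 0 := by
    have h1 := key ![1, 0, 0, 0, 0, 0, 0, 0, 0, 0, 0] 6
    simpa [zact] using h1
  have h7 : c 7 = 0 := by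
    have h1 := key ![1, 0, 0, 0, 0, 0, 0, 0, 0, 0, 0] 7
    simpa [zact] using h1
  have h8 : c 8 = 0 := by
    have h1 := key ![1, 0, 0, 0, 0, 0, 0, 0, 0, 0, 0] 8
    simpa [zact] using h1
  have h9 : c 9 = 0 := by
    have h1 := key ![1, 0, 0, 0, 0, 0, 0, 0, 0, 0, 0] 9
    simpa [zact] using h1
  have h10 : c 10 = 0 := by
    have h1 := key ![1, 0, 0, 0, 0, 0, 0, 0, 0, 0, 0] 10
    simpa [zact] using h1
  have h11 : c 11 = 0 := by
    have h1 := key ![0, 0, 0, 0, 0, 1, 0, 0, 0, 0, 0] 2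
    simpa [zact] using h1
  have h12 : c 12 = 0 := by
    have h1 := key ![0, 0, 0, 0, 0, 1, 0, 0, 0, 0, 0] 3
    simpa [zact] using h1
  have h13 : c 13 = 0 := by
    have h1 := key ![0, 0, 0, 0, 0, 1, 0, 0, 0, 0, 0] 4
    simpa [zact] using h1
  have h14 : c 14 = 0 := by
    have h1 := key ![0, 0, 0, 0, 0, 1, 0, 0, 0, 0, 0] 5
    simpa [zact] using h1
  have h15 : c 15 = 0 := by
    have h1 := key ![0, 0, 0, 0, 0, 1, 0, 0, 0, 0, 0] 6
    simpa [zact] using h1
  have h16 : c 16 = 0 := by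
    have h1 := key ![0, 0, 0, 0, 0, 1, 0, 0, 0, 0, 0] 7
    simpa [zact] using h1
  have h17 : c 17 = 0 := by
    have h1 := key ![0, 0, 0, 0, 0, 1, 0, 0, 0, 0, 0] 8
    simpa [zact] using h1
  have h18 : c 18 = 0 := by
    have h1 := key ![0, 0, 0, 0, 0, 1, 0, 0, 0, 0, 0] 9
    simpa [zact] using h1
  have h19 : c 19 = 0 := by
    have h1 := key ![0, 0, 0, 0, 0, 1, 0, 0, 0, 0, 0] 10
    simpa [zact] using h1
  have h20 : c 20 = 0 := by
    have h1 := key ![0, 0, 0, 0, 0, 0, 0, 0, 1, 0, 0] 3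
    simpa [zact] using h1
  have h21 : c 21 = 0 := by
    have h1 := key ![0, 0, 0, 0, 0, 0, 0, 0, 1, 0, 0] 4
    simpa [zact] using h1
  have h22 : c 22 = 0 := by
    have h1 := key ![0, 0, 0, 0, 0, 0, 0, 0, 1, 0, 0] 6
    simpa [zact] using h1
  have h23 : c 23 = 0 := by
    have h1 := key ![0, 0, 0, 0, 0, 0, 0, 0, 1, 0, 0] 7
    simpa [zact] using h1
  have h24 : c 24 = 0 := by
    have h1 := key ![0, 0, 0, 0, 0, 0, 0, 0, 1, 0, 0] 8
    simpa [zact] using h1
  have h25 : c 25 = 0 := by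
    have h1 := key ![0, 0, 0, 0, 0, 0, 0, 0, 1, 0, 0] 9
    simpa [zact] using h1
  have h26 : c 26 = 0 := by
    have h1 := key ![0, 0, 0, 0, 0, 0, 0, 0, 1, 0, 0] 10
    simpa [zact] using h1
  have h27 : c 27 = 0 := by
    have h1 := key ![0, 0, 0, 0, 0, 0, 0, 0, 0, 0, 1] 4
    simpa [zact] using h1
  have h28 : c 28 = 0 := by
    have h1 := key ![0, 0, 0, 0, 0, 0, 0, 0, 0, 0, 1] 7
    simpa [zact] using h1
  have h29 : c 29 = 0 := by
    have h1 := key ![0, 0, 0, 0, 0, 0, 0, 0, 0, 0, 1] 9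
    simpa [zact] using h1
  have h30 : c 30 = 0 := by
    have h1 := key ![0, 0, 0, 0, 0, 0, 0, 0, 0, 0, 1] 10
    simpa [zact] using h1
  funext i
  fin_cases i
  · exact h0
  · exact h1
  · exact h2
  · exact h3
  · exact h4
  · exact h5
  · exact h6
  · exact h7
  · exact h8
  · exact h9
  · exact h10
  · exact h11
  · exact h12
  · exact h13
  · exact h14
  · exact h15
  · exact h16
  · exact h17
  · exact h18
  · exact h19
  · exact h20
  · exact h21
  · exact h22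
  · exact h23
  · exact h24
  · exact h25
  · exact h26
  · exact h27
  · exact h28
  · exact h29
  · exact h30

theorem le_finrank : 31 ≤ Module.finrank k (cen (J k)) := by
  have h1 := LinearMap.finrank_le_finrank_of_injective (f := (zlin (k := k)).codRestrict
    (cen (J k)) zlin_mem) (fun a b h => zlin_inj (congrArg Subtype.val h))
  rwa [Module.finrank_fintype_fun_eq_card, Fintype.card_fin] at h1

/-- the rank of `J` -/
theorem le_rank : 7 ≤ (J k).rank := by
  let f : Fin 7 → Fin 11 := ![1, 2, 3, 4, 6, 7, 9]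
  let g : Fin 7 → Fin 11 := ![0, 1, 2, 3, 5, 6, 8]
  have h1 : ((1 : Matrix (Fin 11) (Fin 11) k).submatrix f id) * J k *
      ((1 : Matrix (Fin 11) (Fin 11) k).submatrix id g) = 1 := by
    have h2 : ((1 : Matrix (Fin 11) (Fin 11) k).submatrix f id) * J k = (J k).submatrix f id := by
      ext i j
      simp [Matrix.mul_apply, Matrix.one_apply]
    have h3 : ((J k).submatrix f id) * ((1 : Matrix (Fin 11) (Fin 11) k).submatrix id g) =
        (J k).submatrix f g := by
      ext i j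
      simp [Matrix.mul_apply, Matrix.one_apply]
    rw [h2, h3]
    ext i j
    fin_cases i <;> fin_cases j <;> simp [f, g, J]
  have h4 := Matrix.rank_mul_le_left (((1 : Matrix (Fin 11) (Fin 11) k).submatrix f id) * J k)
    ((1 : Matrix (Fin 11) (Fin 11) k).submatrix id g)
  have h5 := Matrix.rank_mul_le_right ((1 : Matrix (Fin 11) (Fin 11) k).submatrix f id) (J k)
  rw [h1, Matrix.rank_one, Fintype.card_fin] at h4
  exact h4.trans h5

end Pool.Agent.Lib.D13.Q.L5
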