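import Pool.Agent.Lib.D8.UtilB

/-!
# MP_5dcbc3_ag: type (5, 3, 3), block matrices

`T ι π P Q R S t`: levels `k`, `V`, `V`, `V`, `k` (`V = k ^ 3`, `ι : k → V`, `π : V → k`); `P`
raises the level by one, `Q` by two, `R`, `S` by three, `t` by four.  `A5 ι π = T ι π 1 0 0 0 0`.
-/

set_option autoImplicit false

namespace Pool.Agent.Lib.D13.T533

open Matrix Pool.Agent.Lib.Q5dc Pool.Agent.Lib.D7 Pool.Agent.Lib.D8

variable {k : Type*} [Field k]

abbrev I5 := Fin 1 ⊕ (Fin 3 ⊕ (Fin 3 ⊕ (Fin 3 ⊕ Fin 1)))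
abbrev M3 (k : Type*) := Matrix (Fin 3) (Fin 3) k
abbrev M31 (k : Type*) := Matrix (Fin 3) (Fin 1) k
abbrev M13 (k : Type*) := Matrix (Fin 1) (Fin 3) k
abbrev M11 (k : Type*) := Matrix (Fin 1) (Fin 1) k

/-- block strictly lower triangular matrices -/
def G (a10 a20 a30 : M31 k) (a40 : M11 k) (a21 a31 : M3 k) (a41 : M13 k) (a32 : M3 k)
    (a42 a43 : M13 k) : Matrix I5 I5 k :=
  Matrix.of fun i j => match i, j with
  | .inr (.inl i), .inl j => a10 i j
  | .inr (.inr (.inl i)), .inl j => a20 i j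
  | .inr (.inr (.inr (.inl i))), .inl j => a30 i j
  | .inr (.inr (.inr (.inr i))), .inl j => a40 i j
  | .inr (.inr (.inl i)), .inr (.inl j) => a21 i j
  | .inr (.inr (.inr (.inl i))), .inr (.inl j) => a31 i j
  | .inr (.inr (.inr (.inr i))), .inr (.inl j) => a41 i j
  | .inr (.inr (.inr (.inl i))), .inr (.inr (.inl j)) => a32 i j
  | .inr (.inr (.inr (.inr i))), .inr (.inr (.inl j)) => a42 i j
  | .inr (.inr (.inr (.inr i))), .inr (.inr (.inr (.inl j))) => a43 i j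
  | _, _ => 0

theorem G_mul (a10 a20 a30 b10 b20 b30 : M31 k) (a40 b40 : M11 k) (a21 a31 b21 b31 : M3 k)
    (a41 b41 : M13 k) (a32 b32 : M3 k) (a42 a43 b42 b43 : M13 k) :
    G a10 a20 a30 a40 a21 a31 a41 a32 a42 a43 * G b10 b20 b30 b40 b21 b31 b41 b32 b42 b43 =
      G 0 (a21 * b10) (a31 * b10 + a32 * b20) (a41 * b10 + a42 * b20 + a43 * b30)
        0 (a32 * b21) (a42 * b21 + a43 * b31) 0 (a43 * b32) 0 := by
  ext i j
  rcases i with i | i | i | i | i <;> rcases j with j | j | j | j | j <;>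
    simp [G, Matrix.mul_apply, Fintype.sum_sum_type, add_assoc]

theorem G_add (a10 a20 a30 b10 b20 b30 : M31 k) (a40 b40 : M11 k) (a21 a31 b21 b31 : M3 k)
    (a41 b41 : M13 k) (a32 b32 : M3 k) (a42 a43 b42 b43 : M13 k) :
    G a10 a20 a30 a40 a21 a31 a41 a32 a42 a43 + G b10 b20 b30 b40 b21 b31 b41 b32 b42 b43 =
      G (a10 + b10) (a20 + b20) (a30 + b30) (a40 + b40) (a21 + b21) (a31 + b31) (a41 + b41)
        (a32 + b32) (a42 + b42) (a43 + b43) := by
  ext i j
  rcases i with i | i | i | i | i <;> rcases j with j | j | j | j | j <;> simp [G]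

theorem G_smul (s : k) (a10 a20 a30 : M31 k) (a40 : M11 k) (a21 a31 : M3 k)
    (a41 : M13 k) (a32 : M3 k) (a42 a43 : M13 k) :
    s • G a10 a20 a30 a40 a21 a31 a41 a32 a42 a43 =
      G (s • a10) (s • a20) (s • a30) (s • a40) (s • a21) (s • a31) (s • a41) (s • a32)
        (s • a42) (s • a43) := by
  ext i j
  rcases i with i | i | i | i | i <;> rcases j with j | j | j | j | j <;> simp [G]

theorem G_zero : G (0 : M31 k) 0 0 0 0 0 0 0 0 0 = 0 := by
  ext i j
  rcases i with i | i | i | i | i <;> rcases j with j | j | j | j | j <;> simp [G]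

theorem G_inj {a10 a20 a30 b10 b20 b30 : M31 k} {a40 b40 : M11 k} {a21 a31 b21 b31 : M3 k}
    {a41 b41 : M13 k} {a32 b32 : M3 k} {a42 a43 b42 b43 : M13 k}
    (h : G a10 a20 a30 a40 a21 a31 a41 a32 a42 a43 = G b10 b20 b30 b40 b21 b31 b41 b32 b42 b43) :
    a10 = b10 ∧ a20 = b20 ∧ a30 = b30 ∧ a40 = b40 ∧ a21 = b21 ∧ a31 = b31 ∧ a41 = b41 ∧
      a32 = b32 ∧ a42 = b42 ∧ a43 = b43 := by
  have H := fun i j => congrFun (congrFun h i) j
  refine ⟨?_, ?_, ?_, ?_, ?_, ?_, ?_, ?_, ?_, ?_⟩ <;> ext i j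
  · exact H (.inr (.inl i)) (.inl j)
  · exact H (.inr (.inr (.inl i))) (.inl j)
  · exact H (.inr (.inr (.inr (.inl i)))) (.inl j)
  · exact H (.inr (.inr (.inr (.inr i)))) (.inl j)
  · exact H (.inr (.inr (.inl i))) (.inr (.inl j))
  · exact H (.inr (.inr (.inr (.inl i)))) (.inr (.inl j))
  · exact H (.inr (.inr (.inr (.inr i)))) (.inr (.inl j))
  · exact H (.inr (.inr (.inr (.inl i)))) (.inr (.inr (.inl j)))
  · exact H (.inr (.inr (.inr (.inr i)))) (.inr (.inr (.inl j)))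
  · exact H (.inr (.inr (.inr (.inr i)))) (.inr (.inr (.inr (.inl j))))

theorem G_ext {a10 a20 a30 b10 b20 b30 : M31 k} {a40 b40 : M11 k} {a21 a31 b21 b31 : M3 k}
    {a41 b41 : M13 k} {a32 b32 : M3 k} {a42 a43 b42 b43 : M13 k}
    (h1 : a10 = b10) (h2 : a20 = b20) (h3 : a30 = b30) (h4 : a40 = b40) (h5 : a21 = b21)
    (h6 : a31 = b31) (h7 : a41 = b41) (h8 : a32 = b32) (h9 : a42 = b42) (h10 : a43 = b43) :
    G a10 a20 a30 a40 a21 a31 a41 a32 a42 a43 = G b10 b20 b30 b40 b21 b31 b41 b32 b42 b43 := by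
  rw [h1, h2, h3, h4, h5, h6, h7, h8, h9, h10]

theorem G_nil (a10 a20 a30 : M31 k) (a40 : M11 k) (a21 a31 : M3 k)
    (a41 : M13 k) (a32 : M3 k) (a42 a43 : M13 k) :
    IsNilpotent (G a10 a20 a30 a40 a21 a31 a41 a32 a42 a43) := by
  refine ⟨2 + 2 + 1, ?_⟩
  rw [pow_add, pow_add, pow_two, pow_one, G_mul, G_mul, G_mul]
  simp [G_zero]

/-- the matrices which raise the level -/
def T (ι : M31 k) (π : M13 k) (P Q : M3 k) (R : M31 k) (S : M13 k) (t : M11 k) :
    Matrix I5 I5 k := G (P * ι) (Q * ι) R t P Q S P (π * Q) (π * P)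

theorem T_mul (ι : M31 k) (π : M13 k) (P Q P' Q' : M3 k) (R R' : M31 k) (S S' : M13 k)
    (t t' : M11 k) :
    T ι π P Q R S t * T ι π P' Q' R' S' t' =
      G 0 (P * P' * ι) ((Q * P' + P * Q') * ι) (S * P' * ι + π * Q * Q' * ι + π * P * R') 0
        (P * P') (π * (Q * P' + P * Q')) 0 (π * P * P') 0 := by
  unfold T
  rw [G_mul]
  refine G_ext rfl ?_ ?_ ?_ rfl rfl ?_ rfl rfl rfl
  · rw [Matrix.mul_assoc]
  · rw [Matrix.add_mul, Matrix.mul_assoc, Matrix.mul_assoc]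
  · simp only [Matrix.mul_assoc]
  · rw [Matrix.mul_add, Matrix.mul_assoc, Matrix.mul_assoc]

theorem T_add (ι : M31 k) (π : M13 k) (P Q P' Q' : M3 k) (R R' : M31 k) (S S' : M13 k)
    (t t' : M11 k) :
    T ι π P Q R S t + T ι π P' Q' R' S' t' =
      T ι π (P + P') (Q + Q') (R + R') (S + S') (t + t') := by
  unfold T
  rw [G_add]
  simp only [Matrix.add_mul, Matrix.mul_add]

theorem T_smul (ι : M31 k) (π : M13 k) (s : k) (P Q : M3 k) (R : M31 k) (S : M13 k) (t : M11 k) :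
    s • T ι π P Q R S t = T ι π (s • P) (s • Q) (s • R) (s • S) (s • t) := by
  unfold T
  rw [G_smul]
  simp only [Matrix.smul_mul, Matrix.mul_smul]

theorem T_zero (ι : M31 k) (π : M13 k) : T ι π 0 0 0 0 0 = 0 := by
  unfold T
  rw [Matrix.zero_mul, Matrix.mul_zero, G_zero]

theorem T_nil (ι : M31 k) (π : M13 k) (P Q : M3 k) (R : M31 k) (S : M13 k) (t : M11 k) :
    IsNilpotent (T ι π P Q R S t) := G_nil ..

theorem T_comm_iff {ι : M31 k} {π : M13 k} {P Q P' Q' : M3 k} {R R' : M31 k} {S S' : M13 k}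
    {t t' : M11 k} :
    T ι π P Q R S t * T ι π P' Q' R' S' t' = T ι π P' Q' R' S' t' * T ι π P Q R S t ↔
      P * P' = P' * P ∧ (Q * P' + P * Q') * ι = (Q' * P + P' * Q) * ι ∧
        π * (Q * P' + P * Q') = π * (Q' * P + P' * Q) ∧
        S * P' * ι + π * Q * Q' * ι + π * P * R' = S' * P * ι + π * Q' * Q * ι + π * P' * R := by
  rw [T_mul, T_mul]
  constructor
  · intro h
    obtain ⟨-, -, h1, h2, -, h3, h4, -, -, -⟩ := G_inj h
    exact ⟨h3, h1, h4, h2⟩
  · rintro ⟨h1, h2, h3, h4⟩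
    rw [Matrix.mul_assoc π P P', Matrix.mul_assoc π P' P, h1, h2, h3, h4]

/-- the first matrix -/
abbrev A5 (ι : M31 k) (π : M13 k) : Matrix I5 I5 k := T ι π 1 0 0 0 0

theorem A5_comm_iff {ι : M31 k} {π : M13 k} {P Q : M3 k} {R : M31 k} {S : M13 k} {t : M11 k} :
    A5 ι π * T ι π P Q R S t = T ι π P Q R S t * A5 ι π ↔ π * R = S * ι := by
  rw [T_comm_iff]
  simp

/-- the fourth relation -/
def E4 (ι : M31 k) (π : M13 k) (P Q P' Q' : M3 k) (R R' : M31 k) (S S' : M13 k) : M11 k :=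
  S * P' * ι + π * Q * Q' * ι + π * P * R' - (S' * P * ι + π * Q' * Q * ι + π * P' * R)

/-- all relations -/
structure Rel (ι : M31 k) (π : M13 k) (P Q P' Q' : M3 k) (R R' : M31 k) (S S' : M13 k) :
    Prop where
  comm : P * P' = P' * P
  ri : (Q * P' + P * Q') * ι = (Q' * P + P' * Q) * ι
  rp : π * (Q * P' + P * Q') = π * (Q' * P + P' * Q)
  e4 : E4 ι π P Q P' Q' R R' S S' = 0
  rs : π * R = S * ι
  rs' : π * R' = S' * ι

theorem cnT {ι : M31 k} {π : M13 k} {P Q P' Q' : M3 k} {R R' : M31 k} {S S' : M13 k}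
    {t t' : M11 k} (h : Rel ι π P Q P' Q' R R' S S') :
    CN ![A5 ι π, T ι π P Q R S t, T ι π P' Q' R' S' t'] :=
  cn3 (A5_comm_iff.2 h.rs) (A5_comm_iff.2 h.rs') (T_comm_iff.2 ⟨h.comm, h.ri, h.rp,
    sub_eq_zero.1 h.e4⟩) (T_nil ..) (T_nil ..) (T_nil ..)

variable {ρ : ℕ → ℕ}

theorem max_rel {ι : M31 k} {π : M13 k} {P Q P' Q' : M3 k} {R R' : M31 k} {S S' : M13 k}
    {t t' : M11 k} (hT : MaxR ρ ![A5 ι π, T ι π P Q R S t, T ι π P' Q' R' S' t']) :
    Rel ι π P Q P' Q' R R' S S' := by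
  obtain ⟨h1, h2, h3, h4⟩ := T_comm_iff.1 (hT.cn.1 1 2)
  exact ⟨h1, h2, h3, sub_eq_zero.2 h4, A5_comm_iff.1 (hT.cn.1 0 1), A5_comm_iff.1 (hT.cn.1 0 2)⟩

/-! ### block diagonal changes of basis -/

/-- `h` on level 0, `g` on the levels 1, 2, 3, `l` on level 4 -/
def Dg (h : M11 k) (g : M3 k) (l : M11 k) : Matrix I5 I5 k :=
  Matrix.of fun i j => match i, j with
  | .inl i, .inl j => h i j
  | .inr (.inl i), .inr (.inl j) => g i j
  | .inr (.inr (.inl i)), .inr (.inr (.inl j)) => g i j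
  | .inr (.inr (.inr (.inl i))), .inr (.inr (.inr (.inl j))) => g i j
  | .inr (.inr (.inr (.inr i))), .inr (.inr (.inr (.inr j))) => l i j
  | _, _ => 0

theorem Dg_mul (h h' : M11 k) (g g' : M3 k) (l l' : M11 k) :
    Dg h g l * Dg h' g' l' = Dg (h * h') (g * g') (l * l') := by
  ext i j
  rcases i with i | i | i | i | i <;> rcases j with j | j | j | j | j <;>
    simp [Dg, Matrix.mul_apply, Fintype.sum_sum_type]

theorem Dg_one : Dg (1 : M11 k) (1 : M3 k) (1 : M11 k) = 1 := by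
  ext i j
  rcases i with i | i | i | i | i <;> rcases j with j | j | j | j | j <;>
    simp [Dg, Matrix.one_apply]

theorem Dg_G (h : M11 k) (g : M3 k) (l : M11 k) (a10 a20 a30 : M31 k) (a40 : M11 k)
    (a21 a31 : M3 k) (a41 : M13 k) (a32 : M3 k) (a42 a43 : M13 k) :
    Dg h g l * G a10 a20 a30 a40 a21 a31 a41 a32 a42 a43 =
      G (g * a10) (g * a20) (g * a30) (l * a40) (g * a21) (g * a31) (l * a41) (g * a32)
        (l * a42) (l * a43) := by
  ext i j
  rcases i with i | i | i | i | i <;> rcases j with j | j | j | j | j <;>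
    simp [Dg, G, Matrix.mul_apply, Fintype.sum_sum_type]

theorem G_Dg (h : M11 k) (g : M3 k) (l : M11 k) (a10 a20 a30 : M31 k) (a40 : M11 k)
    (a21 a31 : M3 k) (a41 : M13 k) (a32 : M3 k) (a42 a43 : M13 k) :
    G a10 a20 a30 a40 a21 a31 a41 a32 a42 a43 * Dg h g l =
      G (a10 * h) (a20 * h) (a30 * h) (a40 * h) (a21 * g) (a31 * g) (a41 * g) (a32 * g)
        (a42 * g) (a43 * g) := by
  ext i j
  rcases i with i | i | i | i | i <;> rcases j with j | j | j | j | j <;>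
    simp [Dg, G, Matrix.mul_apply, Fintype.sum_sum_type]

theorem conjT {h h' l l' : M11 k} {g g' : M3 k} (hg : g' * g = 1)
    (ι : M31 k) (π : M13 k) (P Q : M3 k) (R : M31 k) (S : M13 k) (t : M11 k) :
    Dg h g l * T ι π P Q R S t * Dg h' g' l' =
      T (g * ι * h') (l * π * g') (g * P * g') (g * Q * g') (g * R * h') (l * S * g')
        (l * t * h') := by
  unfold T
  rw [Dg_G, G_Dg]
  have e : ∀ X : M3 k, g * (X * ι) * h' = g * X * g' * (g * ι * h') := by
    intro X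
    calc g * (X * ι) * h' = g * X * (1 : M3 k) * ι * h' := by
          rw [Matrix.mul_one, Matrix.mul_assoc g X ι]
      _ = g * X * (g' * g) * ι * h' := by rw [hg]
      _ = g * X * g' * (g * ι * h') := by simp only [Matrix.mul_assoc]
  have e' : ∀ X : M3 k, l * (π * X) * g' = l * π * g' * (g * X * g') := by
    intro X
    calc l * (π * X) * g' = l * π * (1 : M3 k) * X * g' := by
          rw [Matrix.mul_one, Matrix.mul_assoc l π X]
      _ = l * π * (g' * g) * X * g' := by rw [hg]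
      _ = l * π * g' * (g * X * g') := by simp only [Matrix.mul_assoc]
  rw [e, e, e', e']

theorem max_conj {h h' l l' : M11 k} {g g' : M3 k} (hh : h * h' = 1) (hl : l * l' = 1)
    (hg : g * g' = 1) {ι : M31 k} {π : M13 k} {P Q P' Q' : M3 k} {R R' : M31 k} {S S' : M13 k}
    {t t' : M11 k} (hT : MaxR ρ ![A5 ι π, T ι π P Q R S t, T ι π P' Q' R' S' t']) :
    MaxR ρ ![A5 (g * ι * h') (l * π * g'),
      T (g * ι * h') (l * π * g') (g * P * g') (g * Q * g') (g * R * h') (l * S * g')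
        (l * t * h'),
      T (g * ι * h') (l * π * g') (g * P' * g') (g * Q' * g') (g * R' * h') (l * S' * g')
        (l * t' * h')] := by
  have hg' : g' * g = 1 := mul_eq_one_comm.1 hg
  have hh' : h' * h = 1 := mul_eq_one_comm.1 hh
  have hl' : l' * l = 1 := mul_eq_one_comm.1 hl
  have h1 := hT.conj (Dg h g l) (Dg h' g' l') (by rw [Dg_mul, hh, hg, hl, Dg_one])
    (by rw [Dg_mul, hh', hg', hl', Dg_one])
  have h2 : (fun i => Dg h g l * (![A5 ι π, T ι π P Q R S t, T ι π P' Q' R' S' t'] :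
      Fin 3 → Matrix I5 I5 k) i * Dg h' g' l') =
      ![A5 (g * ι * h') (l * π * g'),
      T (g * ι * h') (l * π * g') (g * P * g') (g * Q * g') (g * R * h') (l * S * g')
        (l * t * h'),
      T (g * ι * h') (l * π * g') (g * P' * g') (g * Q' * g') (g * R' * h') (l * S' * g')
        (l * t' * h')] := by
    funext i
    fin_cases i
    · refine (conjT hg' ι π 1 0 0 0 0).trans ?_
      change _ = T _ _ _ _ _ _ _
      congr 1
      · rw [mul_one, hg]
      · rw [mul_zero, zero_mul]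
      · rw [Matrix.mul_zero, Matrix.zero_mul]
      · rw [Matrix.mul_zero, Matrix.zero_mul]
      · rw [Matrix.mul_zero, Matrix.zero_mul]
    · exact conjT hg' ..
    · exact conjT hg' ..
  rwa [h2] at h1

/-! ### changes of the generators -/

theorem max_lin (a b c d x z : k) (hd : a * d - b * c ≠ 0)
    {ι : M31 k} {π : M13 k} {P Q P' Q' : M3 k} {R R' : M31 k} {S S' : M13 k} {t t' : M11 k}
    (hT : MaxR ρ ![A5 ι π, T ι π P Q R S t, T ι π P' Q' R' S' t']) :
    MaxR ρ ![A5 ι π, T ι π (a • P + b • P' + x • 1) (a • Q + b • Q') (a • R + b • R')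
        (a • S + b • S') (a • t + b • t'),
      T ι π (c • P + d • P' + z • 1) (c • Q + d • Q') (c • R + d • R')
        (c • S + d • S') (c • t + d • t')] := by
  have h := MaxR.lin hT a b c d x 0 z 0 hd
  have e : ∀ a b x : k, a • T ι π P Q R S t + b • T ι π P' Q' R' S' t' + x • A5 ι π +
      (0 : k) • (A5 ι π * A5 ι π) =
      T ι π (a • P + b • P' + x • 1) (a • Q + b • Q') (a • R + b • R')
        (a • S + b • S') (a • t + b • t') := by
    intro a b x
    rw [zero_smul, add_zero, T_smul, T_smul, T_smul, T_add, T_add]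
    simp only [smul_zero, add_zero]
  rw [e, e] at h
  exact h

theorem max_swap {ι : M31 k} {π : M13 k} {P Q P' Q' : M3 k} {R R' : M31 k} {S S' : M13 k}
    {t t' : M11 k} (hT : MaxR ρ ![A5 ι π, T ι π P Q R S t, T ι π P' Q' R' S' t']) :
    MaxR ρ ![A5 ι π, T ι π P' Q' R' S' t', T ι π P Q R S t] := by
  have h := max_lin 0 1 1 0 0 0 (by simp) hT
  simpa using h

/-- subtracting a multiple of `A ^ 2` from the third matrix -/
theorem max_sq (z : k) {ι : M31 k} {π : M13 k} {P Q P' Q' : M3 k} {R R' : M31 k} {S S' : M13 k}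
    {t t' : M11 k} (hT : MaxR ρ ![A5 ι π, T ι π P Q R S t, T ι π P' Q' R' S' t']) :
    MaxR ρ ![A5 ι π, T ι π P Q R S t, T ι π P' (Q' + z • 1) R' S' t'] := by
  have h := MaxR.lin hT 1 0 0 1 0 0 0 z (by simp)
  have e1 : (1 : k) • T ι π P Q R S t + (0 : k) • T ι π P' Q' R' S' t' + (0 : k) • A5 ι π +
      (0 : k) • (A5 ι π * A5 ι π) = T ι π P Q R S t := by
    simp only [one_smul, zero_smul, add_zero]
  have e2 : (0 : k) • T ι π P Q R S t + (1 : k) • T ι π P' Q' R' S' t' + (0 : k) • A5 ι π +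
      z • (A5 ι π * A5 ι π) = T ι π P' (Q' + z • 1) R' S' t' := by
    simp only [one_smul, zero_smul, add_zero, zero_add]
    rw [T_mul]
    unfold T
    rw [G_smul, G_add]
    refine G_ext ?_ ?_ ?_ ?_ ?_ ?_ ?_ ?_ ?_ ?_ <;>
      simp [Matrix.add_mul, Matrix.mul_add]
  rw [e1, e2] at h
  exact h

/-! ### polynomial families -/

theorem isPoly_T {ι : M31 k} {π : M13 k} {P Q : k → M3 k} {R : k → M31 k} {S : k → M13 k}
    {t : k → M11 k} (hP : ∀ i j, IsPoly fun s => P s i j) (hQ : ∀ i j, IsPoly fun s => Q s i j)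
    (hR : ∀ i j, IsPoly fun s => R s i j) (hS : ∀ i j, IsPoly fun s => S s i j)
    (ht : ∀ i j, IsPoly fun s => t s i j) :
    ∀ x y, IsPoly fun s => T ι π (P s) (Q s) (R s) (S s) (t s) x y := by
  have h : ∀ {M : k → M3 k}, (∀ i j, IsPoly fun s => M s i j) →
      ∀ i (j : Fin 1), IsPoly fun s => (M s * ι) i j := by
    intro M hM i j
    simp only [Matrix.mul_apply, Fin.sum_univ_three]
    exact (((hM i 0).mul (D7.IsPoly.const _)).add ((hM i 1).mul (D7.IsPoly.const _))).add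
      ((hM i 2).mul (D7.IsPoly.const _))
  have h' : ∀ {M : k → M3 k}, (∀ i j, IsPoly fun s => M s i j) →
      ∀ (i : Fin 1) j, IsPoly fun s => (π * M s) i j := by
    intro M hM i j
    simp only [Matrix.mul_apply, Fin.sum_univ_three]
    exact (((D7.IsPoly.const _).mul (hM 0 j)).add ((D7.IsPoly.const _).mul (hM 1 j))).add
      ((D7.IsPoly.const _).mul (hM 2 j))
  intro x y
  rcases x with x | x | x | x | x <;> rcases y with y | y | y | y | y <;>
    first
    | exact D7.IsPoly.const _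
    | exact hP _ _
    | exact hQ _ _
    | exact hR _ _
    | exact hS _ _
    | exact ht _ _
    | exact h hP _ _
    | exact h hQ _ _
    | exact h' hP _ _
    | exact h' hQ _ _

/-- deformations -/
theorem max_deform [Infinite k] {ι : M31 k} {π : M13 k} {P Q P' Q' : M3 k} {R R' : M31 k}
    {S S' : M13 k} {t t' : M11 k}
    (hT : MaxR ρ ![A5 ι π, T ι π P Q R S t, T ι π P' Q' R' S' t'])
    {Ps Qs Ps' Qs' : k → M3 k} {Rs Rs' : k → M31 k} {Ss Ss' : k → M13 k}
    (hP : ∀ i j, IsPoly fun s => Ps s i j) (hQ : ∀ i j, IsPoly fun s => Qs s i j)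
    (hP' : ∀ i j, IsPoly fun s => Ps' s i j) (hQ' : ∀ i j, IsPoly fun s => Qs' s i j)
    (hR : ∀ i j, IsPoly fun s => Rs s i j) (hR' : ∀ i j, IsPoly fun s => Rs' s i j)
    (hS : ∀ i j, IsPoly fun s => Ss s i j) (hS' : ∀ i j, IsPoly fun s => Ss' s i j)
    (P0 : Ps 0 = P) (Q0 : Qs 0 = Q) (P0' : Ps' 0 = P') (Q0' : Qs' 0 = Q')
    (R0 : Rs 0 = R) (R0' : Rs' 0 = R') (S0 : Ss 0 = S) (S0' : Ss' 0 = S')
    {E : Set k} (hE : E.Finite)
    (hr : ∀ s ∉ E, Rel ι π (Ps s) (Qs s) (Ps' s) (Qs' s) (Rs s) (Rs' s) (Ss s) (Ss' s))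
    {F : Set k} (hF : F.Finite) :
    ∃ s, s ∉ F ∧ MaxR ρ ![A5 ι π, T ι π (Ps s) (Qs s) (Rs s) (Ss s) t,
      T ι π (Ps' s) (Qs' s) (Rs' s) (Ss' s) t'] := by
  obtain ⟨E', hE', h1⟩ := MaxR.deform hT (fun s => ![A5 ι π,
    T ι π (Ps s) (Qs s) (Rs s) (Ss s) t, T ι π (Ps' s) (Qs' s) (Rs' s) (Ss' s) t']) (by
      intro i
      fin_cases i
      · exact fun x y => D7.IsPoly.const _
      · exact isPoly_T hP hQ hR hS fun _ _ => D7.IsPoly.const _
      · exact isPoly_T hP' hQ' hR' hS' fun _ _ => D7.IsPoly.const _)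
    (by rw [P0, Q0, P0', Q0', R0, R0', S0, S0']) hE fun s hs => cnT (hr s hs)
  obtain ⟨s, hs⟩ := (hE'.union hF).infinite_compl.nonempty
  rw [Set.mem_compl_iff, Set.mem_union, not_or] at hs
  exact ⟨s, hs.2, h1 s hs.1⟩

end Pool.Agent.Lib.D13.T533
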