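import Pool.Agent.Lib.D13.T533a

/-!
# MP_5dcbc3_ag, type (5, 3, 3): the shape of the triple

Let `J = A5 i0 p0` be the Jordan matrix of type `(5, 3, 3)` and let `![J, B, C]` be a maximal
triple.  Then the matrices `B` and `C` raise the level.
-/

set_option autoImplicit false

namespace Pool.Agent.Lib.D13.T533

open Matrix Pool.Agent.Lib.Q5dc Pool.Agent.Lib.D7 Pool.Agent.Lib.D8

variable {k : Type*} [Field k] {ρ : ℕ → ℕ}

/-- the column `e_0` -/
abbrev i0 (k : Type*) [Field k] : M31 k := !![1; 0; 0]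

/-- the row `e_0` -/
abbrev p0 (k : Type*) [Field k] : M13 k := !![1, 0, 0]

/-- the Jordan matrix -/
abbrev JJ (k : Type*) [Field k] : Matrix I5 I5 k := A5 (i0 k) (p0 k)

/-! ### products with the Jordan matrix -/

theorem J_mul0 (B : Matrix I5 I5 k) (y : I5) (i : Fin 1) : (JJ k * B) (.inl i) y = 0 := by
  simp [T, G, Matrix.mul_apply, Fintype.sum_sum_type]

theorem J_mul1 (B : Matrix I5 I5 k) (y : I5) (i : Fin 3) :
    (JJ k * B) (.inr (.inl i)) y = i0 k i 0 * B (.inl 0) y := by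
  fin_cases i <;> simp [T, G, Matrix.mul_apply, Fintype.sum_sum_type, Matrix.one_apply]

theorem J_mul2 (B : Matrix I5 I5 k) (y : I5) (i : Fin 3) :
    (JJ k * B) (.inr (.inr (.inl i))) y = B (.inr (.inl i)) y := by
  simp [T, G, Matrix.mul_apply, Fintype.sum_sum_type, Matrix.one_apply]

theorem J_mul3 (B : Matrix I5 I5 k) (y : I5) (i : Fin 3) :
    (JJ k * B) (.inr (.inr (.inr (.inl i)))) y = B (.inr (.inr (.inl i))) y := by
  simp [T, G, Matrix.mul_apply, Fintype.sum_sum_type, Matrix.one_apply]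

theorem J_mul4 (B : Matrix I5 I5 k) (y : I5) (i : Fin 1) :
    (JJ k * B) (.inr (.inr (.inr (.inr i)))) y = B (.inr (.inr (.inr (.inl 0)))) y := by
  fin_cases i
  simp [T, G, Matrix.mul_apply, Fintype.sum_sum_type, Fin.sum_univ_three, Matrix.one_apply]

theorem mul_J0 (B : Matrix I5 I5 k) (x : I5) (i : Fin 1) :
    (B * JJ k) x (.inl i) = B x (.inr (.inl 0)) := by
  fin_cases i
  simp [T, G, Matrix.mul_apply, Fintype.sum_sum_type, Fin.sum_univ_three, Matrix.one_apply]

theorem mul_J1 (B : Matrix I5 I5 k) (x : I5) (i : Fin 3) :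
    (B * JJ k) x (.inr (.inl i)) = B x (.inr (.inr (.inl i))) := by
  simp [T, G, Matrix.mul_apply, Fintype.sum_sum_type, Matrix.one_apply]

theorem mul_J2 (B : Matrix I5 I5 k) (x : I5) (i : Fin 3) :
    (B * JJ k) x (.inr (.inr (.inl i))) = B x (.inr (.inr (.inr (.inl i)))) := by
  simp [T, G, Matrix.mul_apply, Fintype.sum_sum_type, Matrix.one_apply]

theorem mul_J3 (B : Matrix I5 I5 k) (x : I5) (i : Fin 3) :
    (B * JJ k) x (.inr (.inr (.inr (.inl i)))) =
      B x (.inr (.inr (.inr (.inr 0)))) * p0 k 0 i := by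
  fin_cases i <;> simp [T, G, Matrix.mul_apply, Fintype.sum_sum_type, Matrix.one_apply]

theorem mul_J4 (B : Matrix I5 I5 k) (x : I5) (i : Fin 1) :
    (B * JJ k) x (.inr (.inr (.inr (.inr i)))) = 0 := by
  simp [T, G, Matrix.mul_apply, Fintype.sum_sum_type]

/-- the matrices commuting with the Jordan matrix -/
def F (a : k) (N P Q : M3 k) (R : M31 k) (S : M13 k) (t : M11 k) : Matrix I5 I5 k :=
  Matrix.of fun i j => match i, j with
  | .inl _, .inl _ => a
  | .inr (.inl i), .inl _ => P i 0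
  | .inr (.inr (.inl i)), .inl _ => Q i 0
  | .inr (.inr (.inr (.inl i))), .inl j => R i j
  | .inr (.inr (.inr (.inr i))), .inl j => t i j
  | .inr (.inl i), .inr (.inl j) => N i j
  | .inr (.inr (.inl i)), .inr (.inl j) => P i j
  | .inr (.inr (.inr (.inl i))), .inr (.inl j) => Q i j
  | .inr (.inr (.inr (.inr i))), .inr (.inl j) => S i j
  | .inr (.inr (.inl i)), .inr (.inr (.inl j)) => N i j
  | .inr (.inr (.inr (.inl i))), .inr (.inr (.inl j)) => P i j
  | .inr (.inr (.inr (.inr _))), .inr (.inr (.inl j)) => Q 0 j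
  | .inr (.inr (.inr (.inl i))), .inr (.inr (.inr (.inl j))) => N i j
  | .inr (.inr (.inr (.inr _))), .inr (.inr (.inr (.inl j))) => P 0 j
  | .inr (.inr (.inr (.inr _))), .inr (.inr (.inr (.inr _))) => a
  | _, _ => 0

theorem F_eq_T (P Q : M3 k) (R : M31 k) (S : M13 k) (t : M11 k) :
    F 0 0 P Q R S t = T (i0 k) (p0 k) P Q R S t := by
  ext x y
  rcases x with x | x | x | x | x <;> rcases y with y | y | y | y | y <;>
    simp [F, T, G, Matrix.mul_apply, Fin.sum_univ_three]

/-- the form of the matrices commuting with the Jordan matrix -/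
theorem form {B : Matrix I5 I5 k} (h : JJ k * B = B * JJ k) :
    ∃ (a : k) (N P Q : M3 k) (R : M31 k) (S : M13 k) (t : M11 k), B = F a N P Q R S t ∧
      (∀ i, N i 0 = i0 k i 0 * a) ∧ ∀ j, N 0 j = a * p0 k 0 j := by
  have H : ∀ x y, (JJ k * B) x y = (B * JJ k) x y := fun x y => by rw [h]
  -- row 0
  have z02 : ∀ j : Fin 3, B (.inl 0) (.inr (.inr (.inl j))) = 0 := fun j => by
    have := H (.inl 0) (.inr (.inl j))
    rw [J_mul0, mul_J1] at this
    exact this.symm
  have z03 : ∀ j : Fin 3, B (.inl 0) (.inr (.inr (.inr (.inl j)))) = 0 := fun j => by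
    have := H (.inl 0) (.inr (.inr (.inl j)))
    rw [J_mul0, mul_J2] at this
    exact this.symm
  have z04 : B (.inl 0) (.inr (.inr (.inr (.inr 0)))) = 0 := by
    have := H (.inl 0) (.inr (.inr (.inr (.inl 0))))
    rw [J_mul0, mul_J3] at this
    simpa using this.symm
  have y01 : B (.inl 0) (.inr (.inl 0)) = 0 := by
    have := H (.inl 0) (.inl 0)
    rw [J_mul0, mul_J0] at this
    exact this.symm
  -- blocks (1,2), (2,3), (3,4)
  have e1 : ∀ i j : Fin 3, i0 k i 0 * B (.inl 0) (.inr (.inl j)) =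
      B (.inr (.inl i)) (.inr (.inr (.inl j))) := fun i j => by
    have := H (.inr (.inl i)) (.inr (.inl j))
    rwa [J_mul1, mul_J1] at this
  have e2 : ∀ i j : Fin 3, B (.inr (.inl i)) (.inr (.inr (.inl j))) =
      B (.inr (.inr (.inl i))) (.inr (.inr (.inr (.inl j)))) := fun i j => by
    have := H (.inr (.inr (.inl i))) (.inr (.inr (.inl j)))
    rwa [J_mul2, mul_J2] at this
  have e3 : ∀ i j : Fin 3, B (.inr (.inr (.inl i))) (.inr (.inr (.inr (.inl j)))) =
      B (.inr (.inr (.inr (.inl i)))) (.inr (.inr (.inr (.inr 0)))) * p0 k 0 j := fun i j => by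
    have := H (.inr (.inr (.inr (.inl i)))) (.inr (.inr (.inr (.inl j))))
    rwa [J_mul3, mul_J3] at this
  have z12 : ∀ i j : Fin 3, B (.inr (.inl i)) (.inr (.inr (.inl j))) = 0 := fun i j => by
    by_cases hj : j = 0
    · subst hj
      rw [← e1, y01, mul_zero]
    · rw [e2, e3]
      fin_cases j
      · exact absurd rfl hj
      · simp
      · simp
  have z01 : ∀ j : Fin 3, B (.inl 0) (.inr (.inl j)) = 0 := fun j => by
    have := e1 0 j
    rw [z12] at this
    simpa using this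
  have z23 : ∀ i j : Fin 3, B (.inr (.inr (.inl i))) (.inr (.inr (.inr (.inl j)))) = 0 :=
    fun i j => by rw [← e2, z12]
  have z34 : ∀ i : Fin 3, B (.inr (.inr (.inr (.inl i)))) (.inr (.inr (.inr (.inr 0)))) = 0 :=
    fun i => by
    have := e3 i 0
    rw [z23] at this
    simpa using this.symm
  have z13 : ∀ i j : Fin 3, B (.inr (.inl i)) (.inr (.inr (.inr (.inl j)))) = 0 := fun i j => by
    have := H (.inr (.inl i)) (.inr (.inr (.inl j)))
    rw [J_mul1, mul_J2, z02, mul_zero] at this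
    exact this.symm
  have z24 : ∀ i : Fin 3, B (.inr (.inr (.inl i))) (.inr (.inr (.inr (.inr 0)))) = 0 :=
    fun i => by
    have := H (.inr (.inr (.inl i))) (.inr (.inr (.inr (.inl 0))))
    rw [J_mul2, mul_J3, z13] at this
    simpa using this.symm
  have z14 : ∀ i : Fin 3, B (.inr (.inl i)) (.inr (.inr (.inr (.inr 0)))) = 0 := fun i => by
    have := H (.inr (.inl i)) (.inr (.inr (.inr (.inl 0))))
    rw [J_mul1, mul_J3, z03, mul_zero] at this
    simpa using this.symm
  have n1 : ∀ i, B (.inr (.inl i)) (.inr (.inl 0)) = i0 k i 0 * B (.inl 0) (.inl 0) := fun i => by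
    have := H (.inr (.inl i)) (.inl 0)
    rw [J_mul1, mul_J0] at this
    exact this.symm
  have n2 : ∀ i j : Fin 3, B (.inr (.inl i)) (.inr (.inl j)) =
      B (.inr (.inr (.inl i))) (.inr (.inr (.inl j))) := fun i j => by
    have := H (.inr (.inr (.inl i))) (.inr (.inl j))
    rwa [J_mul2, mul_J1] at this
  have n3 : ∀ i j : Fin 3, B (.inr (.inr (.inl i))) (.inr (.inr (.inl j))) =
      B (.inr (.inr (.inr (.inl i)))) (.inr (.inr (.inr (.inl j)))) := fun i j => by
    have := H (.inr (.inr (.inr (.inl i)))) (.inr (.inr (.inl j)))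
    rwa [J_mul3, mul_J2] at this
  have n4 : ∀ j : Fin 3, B (.inr (.inr (.inr (.inl 0)))) (.inr (.inr (.inr (.inl j)))) =
      B (.inr (.inr (.inr (.inr 0)))) (.inr (.inr (.inr (.inr 0)))) * p0 k 0 j := fun j => by
    have := H (.inr (.inr (.inr (.inr 0)))) (.inr (.inr (.inr (.inl j))))
    rwa [J_mul4, mul_J3] at this
  have n5 : B (.inr (.inr (.inr (.inr 0)))) (.inr (.inr (.inr (.inr 0)))) =
      B (.inl 0) (.inl 0) := by
    have h1 := n4 0
    rw [← n3, ← n2, n1] at h1
    simpa using h1.symm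
  refine ⟨B (.inl 0) (.inl 0), Matrix.of fun i j => B (.inr (.inl i)) (.inr (.inl j)),
    Matrix.of fun i j => B (.inr (.inr (.inl i))) (.inr (.inl j)),
    Matrix.of fun i j => B (.inr (.inr (.inr (.inl i)))) (.inr (.inl j)),
    Matrix.of fun i j => B (.inr (.inr (.inr (.inl i)))) (.inl j),
    Matrix.of fun i j => B (.inr (.inr (.inr (.inr i)))) (.inr (.inl j)),
    Matrix.of fun i j => B (.inr (.inr (.inr (.inr i)))) (.inl j), ?_, n1, ?_⟩
  · ext x y
    rcases x with x | x | x | x | x <;> rcases y with y | y | y | y | y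
    · fin_cases x
      fin_cases y
      rfl
    · fin_cases x
      exact z01 y
    · fin_cases x
      exact z02 y
    · fin_cases x
      exact z03 y
    · fin_cases x
      fin_cases y
      exact z04
    · have := H (.inr (.inr (.inl x))) (.inl y)
      rw [J_mul2, mul_J0] at this
      exact this
    · rfl
    · exact z12 x y
    · exact z13 x y
    · fin_cases y
      exact z14 x
    · have := H (.inr (.inr (.inr (.inl x)))) (.inl y)
      rw [J_mul3, mul_J0] at this
      exact this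
    · rfl
    · exact (n2 x y).symm
    · exact z23 x y
    · fin_cases y
      exact z24 x
    · rfl
    · rfl
    · have := H (.inr (.inr (.inr (.inl x)))) (.inr (.inl y))
      rw [J_mul3, mul_J1] at this
      exact this.symm
    · exact ((n2 x y).trans (n3 x y)).symm
    · fin_cases y
      exact z34 x
    · rfl
    · rfl
    · have := H (.inr (.inr (.inr (.inr x)))) (.inr (.inl y))
      rw [J_mul4, mul_J1] at this
      exact this.symm
    · have h1 := H (.inr (.inr (.inr (.inr x)))) (.inr (.inr (.inl y)))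
      rw [J_mul4, mul_J2] at h1
      have h2 := H (.inr (.inr (.inr (.inl 0)))) (.inr (.inl y))
      rw [J_mul3, mul_J1] at h2
      exact h1.symm.trans h2.symm
    · fin_cases x
      fin_cases y
      exact n5
  · intro j
    show B (.inr (.inl 0)) (.inr (.inl j)) = _
    rw [n2, n3, n4, n5]

/-! ### coefficients of polynomial identities -/

theorem poly_div [CharZero k] {g : k → k} (hg : D7.IsPoly g) (h : ∀ t, t * g t = 0) :
    g 0 = 0 := by
  by_contra h0
  have hf := hg.finite h0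
  refine (Set.infinite_univ (α := k)) ((hf.union (Set.finite_singleton 0)).subset fun s _ => ?_)
  by_cases hs : s = 0
  · exact Or.inr hs
  · left
    exact (mul_eq_zero.1 (h s)).resolve_left hs

theorem isPoly_congr {f g : k → k} (hf : D7.IsPoly f) (h : ∀ t, g t = f t) : D7.IsPoly g := by
  obtain ⟨p, hp⟩ := hf
  exact ⟨p, fun t => by rw [h, hp]⟩

theorem coef3 [CharZero k] {r0 r1 r2 : Fin 3 → k → k} (h0 : ∀ i, D7.IsPoly (r0 i))
    (h1 : ∀ i, D7.IsPoly (r1 i)) (h2 : ∀ i, D7.IsPoly (r2 i))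
    (h : ∀ t, r0 0 t * r1 1 t * (t * r2 2 t) - r0 0 t * r1 2 t * (t * r2 1 t) -
      r0 1 t * r1 0 t * (t * r2 2 t) + r0 1 t * r1 2 t * (t * r2 0 t) +
      r0 2 t * r1 0 t * (t * r2 1 t) - r0 2 t * r1 1 t * (t * r2 0 t) = 0)
    (a0 : r0 0 0 = 1) (a1 : r0 1 0 = 0) (a2 : r0 2 0 = 0) (b1 : r1 1 0 = 1)
    (b2 : r1 2 0 = 0) : r2 2 0 = 0 := by
  have := poly_div (k := k) (g := fun t => r0 0 t * r1 1 t * r2 2 t - r0 0 t * r1 2 t * r2 1 t -
      r0 1 t * r1 0 t * r2 2 t + r0 1 t * r1 2 t * r2 0 t +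
      r0 2 t * r1 0 t * r2 1 t - r0 2 t * r1 1 t * r2 0 t) ?_ ?_
  · simp only [a0, a1, a2, b1, b2] at this
    simpa using this
  · exact ((((((h0 0).mul (h1 1)).mul (h2 2)).sub (((h0 0).mul (h1 2)).mul (h2 1))).sub
      (((h0 1).mul (h1 0)).mul (h2 2))).add (((h0 1).mul (h1 2)).mul (h2 0))).add
      (((h0 2).mul (h1 0)).mul (h2 1)) |>.sub (((h0 2).mul (h1 1)).mul (h2 0))
  · intro t
    linear_combination h t

theorem cube_line {n : Type*} [Fintype n] [DecidableEq n] {A X : Matrix n n k}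
    (hc : A * X = X * A) (t : k) : (A + t • X) ^ 3 =
      A * (A * A) + (3 * t) • (A * (A * X)) + (3 * t ^ 2) • (A * (X * X)) + t ^ 3 • X ^ 3 := by
  have sq : (A + t • X) * (A + t • X) = A * A + (2 * t) • (A * X) + (t ^ 2) • (X * X) := by
    rw [add_mul, mul_add, mul_add, smul_mul_assoc, smul_mul_assoc, mul_smul_comm, mul_smul_comm,
      ← hc]
    module
  have c1 : A * A * X = A * (A * X) := mul_assoc ..
  have c2 : A * X * A = A * (A * X) := by rw [mul_assoc, ← hc]
  have c3 : A * X * X = A * (X * X) := mul_assoc ..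
  have c4 : X * X * A = A * (X * X) := by rw [mul_assoc, ← hc, ← mul_assoc, ← hc, mul_assoc]
  have c5 : X * X * X = X ^ 3 := by rw [pow_succ, pow_two]
  have c6 : A * A * A = A * (A * A) := mul_assoc ..
  rw [pow_succ, pow_two, sq]
  simp only [add_mul, mul_add, smul_mul_assoc, mul_smul_comm, c1, c2, c3, c4, c5, c6]
  module

theorem F_nil0 {a : k} {N P Q : M3 k} {R : M31 k} {S : M13 k} {t : M11 k}
    (h : IsNilpotent (F a N P Q R S t)) : a = 0 := by
  obtain ⟨m, hm⟩ := h
  have key : ∀ m : ℕ, (F a N P Q R S t ^ m) (.inl 0) (.inl 0) = a ^ m := by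
    intro m
    induction m with
    | zero => simp
    | succ m ih =>
      rw [pow_succ', Matrix.mul_apply, Fintype.sum_sum_type]
      have h1 : ∀ y : Fin 3 ⊕ (Fin 3 ⊕ (Fin 3 ⊕ Fin 1)),
          F a N P Q R S t (.inl 0) (.inr y) = 0 := by
        intro y
        rcases y with y | y | y | y <;> rfl
      have h2 : F a N P Q R S t (.inl 0) (.inl 0) = a := rfl
      simp only [h1, zero_mul, Finset.sum_const_zero, add_zero, Fin.isValue]
      rw [Fin.sum_univ_one, h2, ih, pow_succ']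
  have h1 := key m
  rw [hm, Matrix.zero_apply] at h1
  exact (pow_eq_zero_iff (n := m + 1) (by omega)).1 (by rw [pow_succ, ← h1, zero_mul])

/-- the diagonal blocks are zero -/
theorem diag [CharZero k] (h3 : ρ 3 = 2) {S' : Fin 3 → Matrix I5 I5 k}
    (hT : MaxR ρ S') (hJ : JJ k ∈ adj S') {B : Matrix I5 I5 k} (hB : B ∈ adj S')
    (hn : IsNilpotent B) (hc : JJ k * B = B * JJ k) :
    ∃ (P Q : M3 k) (R : M31 k) (S : M13 k) (t : M11 k), B = T (i0 k) (p0 k) P Q R S t := by
  obtain ⟨a, N, P, Q, R, S, u, rfl, hN, hN'⟩ := form hc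
  have ha : a = 0 := F_nil0 hn
  subst ha
  have hN0 : ∀ i, N i 0 = 0 := fun i => by rw [hN, mul_zero]
  have hN1 : ∀ j, N 0 j = 0 := fun j => by rw [hN', zero_mul]
  set B := F 0 N P Q R S u with hBd
  have hr : ∀ t : k, ((JJ k + t • B) ^ 3).rank ≤ 2 := fun t =>
    (hT.rank_le (add_mem hJ (Submodule.smul_mem (adj S').toSubmodule t hB)) 3).trans h3.le
  have det0 : ∀ (t : k) (f g : Fin 3 → I5), (((JJ k + t • B) ^ 3).submatrix f g).det = 0 := by
    intro t f g
    by_contra hne
    have := le_rank_of_minor _ f g hne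
    have := hr t
    omega
  -- the entries of the cube
  have ev3 : ∀ (t : k) (i : Fin 3), ((JJ k + t • B) ^ 3) (.inr (.inr (.inr (.inl i)))) (.inl 0) =
      i0 k i 0 + t * (3 * P i 0 + t * (3 * (B * B) (.inr (.inr (.inl i))) (.inl 0)) +
        t ^ 2 * (B ^ 3) (.inr (.inr (.inr (.inl i)))) (.inl 0)) := by
    intro t i
    rw [cube_line hc]
    simp only [Matrix.add_apply, Matrix.smul_apply, smul_eq_mul, J_mul3, J_mul2]
    have e1 : JJ k (.inr (.inl i)) (.inl 0) = i0 k i 0 := by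
      simp [T, G]
    have e2 : B (.inr (.inl i)) (.inl 0) = P i 0 := rfl
    rw [e1, e2]
    ring
  have ev4 : ∀ t : k, ((JJ k + t • B) ^ 3) (.inr (.inr (.inr (.inr 0)))) (.inl 0) =
      t * (3 * Q 0 0) + t ^ 2 * (3 * (B * B) (.inr (.inr (.inr (.inl 0)))) (.inl 0)) +
        t ^ 3 * (B ^ 3) (.inr (.inr (.inr (.inr 0)))) (.inl 0) := by
    intro t
    rw [cube_line hc]
    simp only [Matrix.add_apply, Matrix.smul_apply, smul_eq_mul, J_mul4, J_mul3]
    have e1 : JJ k (.inr (.inr (.inl 0))) (.inl 0) = 0 := by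
      simp [T, G]
    have e2 : B (.inr (.inr (.inl 0))) (.inl 0) = Q 0 0 := rfl
    rw [e1, e2]
    ring
  have e13 : ∀ (t : k) (i j : Fin 3), ((JJ k + t • B) ^ 3) (.inr (.inr (.inr (.inl i))))
      (.inr (.inl j)) = t * (3 * N i j +
        t * (3 * (B * B) (.inr (.inr (.inl i))) (.inr (.inl j))) +
        t ^ 2 * (B ^ 3) (.inr (.inr (.inr (.inl i)))) (.inr (.inl j))) := by
    intro t i j
    rw [cube_line hc]
    simp only [Matrix.add_apply, Matrix.smul_apply, smul_eq_mul, J_mul3, J_mul2]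
    have e1 : JJ k (.inr (.inl i)) (.inr (.inl j)) = 0 := by
      simp [T, G]
    have e2 : B (.inr (.inl i)) (.inr (.inl j)) = N i j := rfl
    rw [e1, e2]
    ring
  have e14 : ∀ (t : k) (j : Fin 3), ((JJ k + t • B) ^ 3) (.inr (.inr (.inr (.inr 0))))
      (.inr (.inl j)) = (1 : M3 k) 0 j + t * (3 * P 0 j) +
        t ^ 2 * (3 * (B * B) (.inr (.inr (.inr (.inl 0)))) (.inr (.inl j))) +
        t ^ 3 * (B ^ 3) (.inr (.inr (.inr (.inr 0)))) (.inr (.inl j)) := by
    intro t j
    rw [cube_line hc]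
    simp only [Matrix.add_apply, Matrix.smul_apply, smul_eq_mul, J_mul4, J_mul3]
    have e1 : JJ k (.inr (.inr (.inl 0))) (.inr (.inl j)) = (1 : M3 k) 0 j := by
      simp [T, G]
    have e2 : B (.inr (.inr (.inl 0))) (.inr (.inl j)) = P 0 j := rfl
    rw [e1, e2]
    ring
  have pid : D7.IsPoly fun t : k => t := D7.IsPoly.id
  have pcc : ∀ c : k, D7.IsPoly fun _ : k => c := fun c => D7.IsPoly.const c
  have p3 : ∀ a b c d : k, D7.IsPoly fun t : k => a + t * b + t ^ 2 * c + t ^ 3 * d :=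
    fun a b c d => (((pcc a).add (pid.mul (pcc b))).add ((pid.pow 2).mul (pcc c))).add
      ((pid.pow 3).mul (pcc d))
  have p3' : ∀ b c d : k, D7.IsPoly fun t : k => t * b + t ^ 2 * c + t ^ 3 * d :=
    fun b c d => ((pid.mul (pcc b)).add ((pid.pow 2).mul (pcc c))).add ((pid.pow 3).mul (pcc d))
  have p2 : ∀ b c d : k, D7.IsPoly fun t : k => b + t * c + t ^ 2 * d :=
    fun b c d => ((pcc b).add (pid.mul (pcc c))).add ((pid.pow 2).mul (pcc d))
  have p2' : ∀ a b c d : k, D7.IsPoly fun t : k => a + t * (b + t * c + t ^ 2 * d) :=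
    fun a b c d => (pcc a).add (pid.mul (p2 b c d))
  have three : (3 : k) ≠ 0 := by norm_num
  have hNN : ∀ i j : Fin 3, i ≠ 0 → j ≠ 0 → N i j = 0 := by
    intro i j hi hj
    have hi0 : i0 k i 0 = 0 := by
      fin_cases i
      · exact absurd rfl hi
      · rfl
      · rfl
    have hj0 : (1 : M3 k) 0 j = 0 := Matrix.one_apply_ne (Ne.symm hj)
    have h := coef3 (k := k)
      (r0 := ![fun t => ((JJ k + t • B) ^ 3) (.inr (.inr (.inr (.inr 0)))) (.inr (.inl 0)),
        fun t => ((JJ k + t • B) ^ 3) (.inr (.inr (.inr (.inr 0)))) (.inl 0),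
        fun t => ((JJ k + t • B) ^ 3) (.inr (.inr (.inr (.inr 0)))) (.inr (.inl j))])
      (r1 := ![fun t => ((JJ k + t • B) ^ 3) (.inr (.inr (.inr (.inl 0)))) (.inr (.inl 0)),
        fun t => ((JJ k + t • B) ^ 3) (.inr (.inr (.inr (.inl 0)))) (.inl 0),
        fun t => ((JJ k + t • B) ^ 3) (.inr (.inr (.inr (.inl 0)))) (.inr (.inl j))])
      (r2 := ![fun t => 3 * N i 0 + t * (3 * (B * B) (.inr (.inr (.inl i))) (.inr (.inl 0))) +
        t ^ 2 * (B ^ 3) (.inr (.inr (.inr (.inl i)))) (.inr (.inl 0)),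
        fun t => 3 * P i 0 + t * (3 * (B * B) (.inr (.inr (.inl i))) (.inl 0)) +
        t ^ 2 * (B ^ 3) (.inr (.inr (.inr (.inl i)))) (.inl 0),
        fun t => 3 * N i j + t * (3 * (B * B) (.inr (.inr (.inl i))) (.inr (.inl j))) +
        t ^ 2 * (B ^ 3) (.inr (.inr (.inr (.inl i)))) (.inr (.inl j))]) ?_ ?_ ?_ ?_ ?_ ?_ ?_ ?_ ?_
    · have h' : 3 * N i j = 0 := by simpa using h
      exact (mul_eq_zero.1 h').resolve_left three
    · intro l
      fin_cases l
      · exact isPoly_congr (p3 _ _ _ _) fun t => e14 t 0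
      · exact isPoly_congr (p3' _ _ _) fun t => ev4 t
      · exact isPoly_congr (p3 _ _ _ _) fun t => e14 t j
    · intro l
      fin_cases l
      · exact isPoly_congr (pid.mul (p2 _ _ _)) fun t => e13 t 0 0
      · exact isPoly_congr (p2' _ _ _ _) fun t => ev3 t 0
      · exact isPoly_congr (pid.mul (p2 _ _ _)) fun t => e13 t 0 j
    · intro l
      fin_cases l <;> exact p2 _ _ _
    · intro t
      have h1 := det0 t ![.inr (.inr (.inr (.inr 0))), .inr (.inr (.inr (.inl 0))),
        .inr (.inr (.inr (.inl i)))] ![.inr (.inl 0), .inl 0, .inr (.inl j)]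
      rw [Matrix.det_fin_three] at h1
      simp only [Matrix.submatrix_apply, Matrix.cons_val_zero, Matrix.cons_val_one,
        Matrix.cons_val] at h1 ⊢
      rw [ev3 t i, e13 t i 0, e13 t i j, hi0, zero_add] at h1
      linear_combination h1
    · show ((JJ k + (0 : k) • B) ^ 3) _ _ = 1
      rw [e14]
      simp
    · show ((JJ k + (0 : k) • B) ^ 3) _ _ = 0
      rw [ev4]
      simp
    · show ((JJ k + (0 : k) • B) ^ 3) _ _ = 0
      rw [e14, hj0]
      simp
    · show ((JJ k + (0 : k) • B) ^ 3) _ _ = 1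
      rw [ev3]
      simp
    · show ((JJ k + (0 : k) • B) ^ 3) _ _ = 0
      rw [e13]
      simp
  have hz : N = 0 := by
    ext i j
    by_cases hi : i = 0
    · subst hi
      exact hN1 j
    · by_cases hj : j = 0
      · subst hj
        exact hN0 i
      · exact hNN i j hi hj
  exact ⟨P, Q, R, S, u, by rw [hBd, hz, F_eq_T]⟩

/-- the shape of the triple -/
theorem shape [CharZero k] (h3 : ρ 3 = 2) {B C : Matrix I5 I5 k}
    (hT : MaxR ρ ![JJ k, B, C]) :
    ∃ (P Q : M3 k) (R : M31 k) (S : M13 k) (t : M11 k) (P' Q' : M3 k) (R' : M31 k) (S' : M13 k)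
      (t' : M11 k), MaxR ρ ![JJ k, T (i0 k) (p0 k) P Q R S t, T (i0 k) (p0 k) P' Q' R' S' t'] := by
  obtain ⟨P, Q, R, S, t, e1⟩ := diag h3 hT (mem0 (JJ k) B C) (mem1 (JJ k) B C) (hT.cn.2 1)
    (hT.cn.1 0 1)
  obtain ⟨P', Q', R', S', t', e2⟩ := diag h3 hT (mem0 (JJ k) B C) (mem2 (JJ k) B C) (hT.cn.2 2)
    (hT.cn.1 0 2)
  refine ⟨P, Q, R, S, t, P', Q', R', S', t', ?_⟩
  have e1' : B = T (i0 k) (p0 k) P Q R S t := e1
  have e2' : C = T (i0 k) (p0 k) P' Q' R' S' t' := e2
  rwa [← e1', ← e2']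

end Pool.Agent.Lib.D13.T533
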