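import Pool.Agent.Lib.D13.T533a
import Pool.Agent.Lib.D13.Lift

/-!
# MP_5dcbc3_ag: type (5, 3, 3), families of first jets
-/

set_option autoImplicit false

namespace Pool.Agent.Lib.D13.T533

open Matrix Pool.Agent.Lib.Q5dc Pool.Agent.Lib.D7 Pool.Agent.Lib.D8

variable {k : Type*} [Field k]

/-! ### polynomial families of matrices -/

/-- polynomial families of matrices -/
abbrev PM {m n : Type*} (M : k → Matrix m n k) : Prop := ∀ i j, IsPoly fun s => M s i j

theorem PM.const {m n : Type*} (M : Matrix m n k) : PM fun _ : k => M :=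
  fun _ _ => D7.IsPoly.const _

theorem PM.add {m n : Type*} {M N : k → Matrix m n k} (hM : PM M) (hN : PM N) :
    PM fun s => M s + N s := fun i j => (hM i j).add (hN i j)

theorem PM.sub {m n : Type*} {M N : k → Matrix m n k} (hM : PM M) (hN : PM N) :
    PM fun s => M s - N s := fun i j => (hM i j).sub (hN i j)

theorem PM.smul {m n : Type*} {f : k → k} {M : k → Matrix m n k} (hf : IsPoly f) (hM : PM M) :
    PM fun s => f s • M s := fun i j => hf.mul (hM i j)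

theorem PM.mul {m n p : Type*} [Fintype n] {M : k → Matrix m n k} {N : k → Matrix n p k}
    (hM : PM M) (hN : PM N) : PM fun s => M s * N s := fun i j => by
  simp only [Matrix.mul_apply]
  exact isPoly_sum _ fun l _ => (hM i l).mul (hN l j)

theorem PM.line {m n : Type*} (M N : Matrix m n k) : PM fun s : k => M + s • N :=
  (PM.const M).add (PM.smul D7.IsPoly.id (PM.const N))

/-! ### first jets -/

variable {ρ : ℕ → ℕ}

/-- a maximal triple with given first jets -/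
def Mx (ρ : ℕ → ℕ) (ι : M31 k) (π : M13 k) (P Q P' Q' : M3 k) : Prop :=
  ∃ (R : M31 k) (S : M13 k) (t : M11 k) (R' : M31 k) (S' : M13 k) (t' : M11 k),
    MaxR ρ ![A5 ι π, T ι π P Q R S t, T ι π P' Q' R' S' t']

/-- relations between the jets -/
structure RJ (ι : M31 k) (π : M13 k) (P Q P' Q' : M3 k) : Prop where
  comm : P * P' = P' * P
  ri : (Q * P' + P * Q') * ι = (Q' * P + P' * Q) * ι
  rp : π * (Q * P' + P * Q') = π * (Q' * P + P' * Q)

theorem Mx.rj {ι : M31 k} {π : M13 k} {P Q P' Q' : M3 k} (hT : Mx ρ ι π P Q P' Q') :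
    RJ ι π P Q P' Q' := by
  obtain ⟨R, S, t, R', S', t', h⟩ := hT
  have hr := max_rel h
  exact ⟨hr.comm, hr.ri, hr.rp⟩

theorem Mx.swap {ι : M31 k} {π : M13 k} {P Q P' Q' : M3 k} (hT : Mx ρ ι π P Q P' Q') :
    Mx ρ ι π P' Q' P Q := by
  obtain ⟨R, S, t, R', S', t', h⟩ := hT
  exact ⟨_, _, _, _, _, _, max_swap h⟩

theorem Mx.lin (a b c d x z : k) (hd : a * d - b * c ≠ 0) {ι : M31 k} {π : M13 k}
    {P Q P' Q' : M3 k} (hT : Mx ρ ι π P Q P' Q') :
    Mx ρ ι π (a • P + b • P' + x • 1) (a • Q + b • Q') (c • P + d • P' + z • 1)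
      (c • Q + d • Q') := by
  obtain ⟨R, S, t, R', S', t', h⟩ := hT
  exact ⟨_, _, _, _, _, _, max_lin a b c d x z hd h⟩

theorem Mx.sq (z : k) {ι : M31 k} {π : M13 k} {P Q P' Q' : M3 k} (hT : Mx ρ ι π P Q P' Q') :
    Mx ρ ι π P Q P' (Q' + z • 1) := by
  obtain ⟨R, S, t, R', S', t', h⟩ := hT
  exact ⟨_, _, _, _, _, _, max_sq z h⟩

theorem Mx.conj {h h' l l' : M11 k} {g g' : M3 k} (hh : h * h' = 1) (hl : l * l' = 1)
    (hg : g * g' = 1) {ι : M31 k} {π : M13 k} {P Q P' Q' : M3 k}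
    (hT : Mx ρ ι π P Q P' Q') : Mx ρ (g * ι * h') (l * π * g') (g * P * g') (g * Q * g')
      (g * P' * g') (g * Q' * g') := by
  obtain ⟨R, S, t, R', S', t', h⟩ := hT
  exact ⟨_, _, _, _, _, _, max_conj hh hl hg h⟩

/-- `P` is not decomposable -/
def ND (ι : M31 k) (π : M13 k) (P : M3 k) : Prop :=
  ∃ (x : M31 k) (y : M13 k), π * x = y * ι ∧ (π * P * x - y * P * ι) 0 0 ≠ 0

omit [Field k] in
theorem m11_ext {a b : M11 k} (h : a 0 0 = b 0 0) : a = b := by
  ext i j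
  fin_cases i
  fin_cases j
  exact h

theorem fam [Infinite k] {ι : M31 k} {π : M13 k} {P Q P' Q' : M3 k}
    (hT : Mx ρ ι π P Q P' Q') (hP : ND ι π P) {Ps Qs Ps' Qs' : k → M3 k}
    (pP : PM Ps) (pQ : PM Qs) (pP' : PM Ps') (pQ' : PM Qs')
    (P0 : Ps 0 = P) (Q0 : Qs 0 = Q) (P0' : Ps' 0 = P') (Q0' : Qs' 0 = Q')
    (hr : ∀ s, RJ ι π (Ps s) (Qs s) (Ps' s) (Qs' s)) {F : Set k} (hF : F.Finite) :
    ∃ s, s ∉ F ∧ Mx ρ ι π (Ps s) (Qs s) (Ps' s) (Qs' s) := by
  obtain ⟨R, S, t, R', S', t', h⟩ := hT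
  obtain ⟨x, y, hxy, hne⟩ := hP
  have hrel := max_rel h
  set L : k → k := fun s => (π * Ps s * x - y * Ps s * ι) 0 0 with hL
  set e : k → k := fun s => (E4 ι π (Ps s) (Qs s) (Ps' s) (Qs' s) R R' S S') 0 0 with he
  have pL : IsPoly L := (((PM.const π).mul pP).mul (PM.const x)).sub
    (((PM.const y).mul pP).mul (PM.const ι)) 0 0
  have pe : IsPoly e := by
    have h1 : PM fun s => S * Ps' s * ι := ((PM.const S).mul pP').mul (PM.const ι)
    have h2 : PM fun s => π * Qs s * Qs' s * ι := (((PM.const π).mul pQ).mul pQ').mul (PM.const ι)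
    have h3 : PM fun s => π * Ps s * R' := ((PM.const π).mul pP).mul (PM.const R')
    have h4 : PM fun s => S' * Ps s * ι := ((PM.const S').mul pP).mul (PM.const ι)
    have h5 : PM fun s => π * Qs' s * Qs s * ι := (((PM.const π).mul pQ').mul pQ).mul (PM.const ι)
    have h6 : PM fun s => π * Ps' s * R := ((PM.const π).mul pP').mul (PM.const R)
    exact ((h1.add h2).add h3).sub ((h4.add h5).add h6) 0 0
  have L0 : L 0 = (π * P * x - y * P * ι) 0 0 := by rw [hL]; simp only [P0]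
  have L0ne : L 0 ≠ 0 := by rw [L0]; exact hne
  have e0 : e 0 = 0 := by
    rw [he]
    simp only [P0, Q0, P0', Q0', hrel.e4]
    rfl
  have pl : IsPoly fun s => (L 0)⁻¹ * L s := (D7.IsPoly.const _).mul pL
  have pf : IsPoly fun s => (L 0)⁻¹ * e s := (D7.IsPoly.const _).mul pe
  have l0 : (L 0)⁻¹ * L 0 = 1 := inv_mul_cancel₀ L0ne
  obtain ⟨s, hs, h1⟩ := max_deform h (Ps := Ps) (Qs := Qs)
    (Ps' := fun s => ((L 0)⁻¹ * L s) • Ps' s) (Qs' := fun s => ((L 0)⁻¹ * L s) • Qs' s)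
    (Rs := fun _ => R) (Ss := fun _ => S)
    (Rs' := fun s => ((L 0)⁻¹ * L s) • R' - ((L 0)⁻¹ * e s) • x)
    (Ss' := fun s => ((L 0)⁻¹ * L s) • S' - ((L 0)⁻¹ * e s) • y)
    pP pQ (PM.smul pl pP') (PM.smul pl pQ') (PM.const R)
    ((PM.smul pl (PM.const R')).sub (PM.smul pf (PM.const x))) (PM.const S)
    ((PM.smul pl (PM.const S')).sub (PM.smul pf (PM.const y)))
    P0 Q0 (by simp only [l0, one_smul, P0']) (by simp only [l0, one_smul, Q0']) rfl
    (by simp only [l0, one_smul, e0, mul_zero, zero_smul, sub_zero]) rfl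
    (by simp only [l0, one_smul, e0, mul_zero, zero_smul, sub_zero])
    (E := ∅) Set.finite_empty (by
      intro s _
      obtain ⟨r1, r2, r3⟩ := hr s
      refine ⟨?_, ?_, ?_, ?_, hrel.rs, ?_⟩
      · simp only [Matrix.mul_smul, Matrix.smul_mul, r1]
      · simp only [Matrix.mul_smul, Matrix.smul_mul, ← smul_add, r2]
      · simp only [Matrix.mul_smul, Matrix.smul_mul, ← smul_add, r3]
      · refine m11_ext ?_
        have k1 : E4 ι π (Ps s) (Qs s) (((L 0)⁻¹ * L s) • Ps' s) (((L 0)⁻¹ * L s) • Qs' s) R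
            (((L 0)⁻¹ * L s) • R' - ((L 0)⁻¹ * e s) • x) S
            (((L 0)⁻¹ * L s) • S' - ((L 0)⁻¹ * e s) • y) =
            ((L 0)⁻¹ * L s) • E4 ι π (Ps s) (Qs s) (Ps' s) (Qs' s) R R' S S' -
              ((L 0)⁻¹ * e s) • (π * Ps s * x - y * Ps s * ι) := by
          unfold E4
          simp only [Matrix.mul_smul, Matrix.smul_mul, Matrix.mul_sub, Matrix.sub_mul]
          module
        rw [k1]
        simp only [Matrix.sub_apply, Matrix.smul_apply, smul_eq_mul, Matrix.zero_apply]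
        change (L 0)⁻¹ * L s * e s - (L 0)⁻¹ * e s * L s = 0
        ring
      · rw [Matrix.mul_sub, Matrix.sub_mul, Matrix.mul_smul, Matrix.mul_smul, Matrix.smul_mul,
          Matrix.smul_mul, hrel.rs', hxy])
    (hF.union (pL.finite L0ne))
  rw [Set.mem_union, not_or] at hs
  refine ⟨s, hs.1, ?_⟩
  have hne' : (L 0)⁻¹ * L s ≠ 0 := mul_ne_zero (inv_ne_zero L0ne) hs.2
  have h2 := Mx.lin 1 0 0 ((L 0)⁻¹ * L s)⁻¹ 0 0
    (by rw [one_mul, mul_zero, sub_zero]; exact inv_ne_zero hne')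
    ⟨_, _, _, _, _, _, h1⟩
  simpa only [one_smul, zero_smul, add_zero, zero_add, inv_smul_smul₀ hne'] using h2

end Pool.Agent.Lib.D13.T533
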