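import Pool.Agent.Lib.D13.T533a
import Pool.Agent.Lib.D13.TpqrCl

/-!
# MP_5dcbc3_ag: type (5, 3, 3), the generic triples are limits of curvilinear ones
-/

set_option autoImplicit false

namespace Pool.Agent.Lib.D13.T533

open Matrix Pool.Agent.Lib.Q5dc Pool.Agent.Lib.D7 Pool.Agent.Lib.D8

variable {k : Type*} [Field k] {ρ : ℕ → ℕ}

/-- vectors -/
def vc (x : k) (a b c : Fin 3 → k) (y : k) : I5 → k := fun i => match i with
  | .inl _ => x
  | .inr (.inl i) => a i
  | .inr (.inr (.inl i)) => b i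
  | .inr (.inr (.inr (.inl i))) => c i
  | .inr (.inr (.inr (.inr _))) => y

theorem eq_vc (u : I5 → k) : u = vc (u (.inl 0)) (fun i => u (.inr (.inl i)))
    (fun i => u (.inr (.inr (.inl i)))) (fun i => u (.inr (.inr (.inr (.inl i)))))
    (u (.inr (.inr (.inr (.inr 0))))) := by
  funext i
  rcases i with i | i | i | i | i
  · rw [Subsingleton.elim i 0]
    rfl
  · rfl
  · rfl
  · rfl
  · rw [Subsingleton.elim i 0]
    rfl

theorem G_vc (a10 a20 a30 : M31 k) (a40 : M11 k) (a21 a31 : M3 k) (a41 : M13 k) (a32 : M3 k)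
    (a42 a43 : M13 k) (x : k) (a b c : Fin 3 → k) (y : k) :
    G a10 a20 a30 a40 a21 a31 a41 a32 a42 a43 *ᵥ vc x a b c y =
      vc 0 (x • fun i => a10 i 0) ((x • fun i => a20 i 0) + a21 *ᵥ a)
        ((x • fun i => a30 i 0) + a31 *ᵥ a + a32 *ᵥ b)
        (x * a40 0 0 + (a41 *ᵥ a) 0 + (a42 *ᵥ b) 0 + (a43 *ᵥ c) 0) := by
  funext i
  rcases i with i | i | i | i | i
  · simp [G, vc, Matrix.mulVec, dotProduct, Fintype.sum_sum_type]
  · simp [G, vc, Matrix.mulVec, dotProduct, Fintype.sum_sum_type, mul_comm]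
  · simp [G, vc, Matrix.mulVec, dotProduct, Fintype.sum_sum_type, mul_comm]
  · simp [G, vc, Matrix.mulVec, dotProduct, Fintype.sum_sum_type, mul_comm, add_assoc]
  · rw [Subsingleton.elim i 0]
    simp [G, vc, Matrix.mulVec, dotProduct, Fintype.sum_sum_type, mul_comm, add_assoc]

theorem vc_add (x x' : k) (a b c a' b' c' : Fin 3 → k) (y y' : k) :
    vc x a b c y + vc x' a' b' c' y' = vc (x + x') (a + a') (b + b') (c + c') (y + y') := by
  funext i
  rcases i with i | i | i | i | i <;> rfl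

theorem vc_sub (x x' : k) (a b c a' b' c' : Fin 3 → k) (y y' : k) :
    vc x a b c y - vc x' a' b' c' y' = vc (x - x') (a - a') (b - b') (c - c') (y - y') := by
  funext i
  rcases i with i | i | i | i | i <;> rfl

theorem vc_smul (s x : k) (a b c : Fin 3 → k) (y : k) :
    s • vc x a b c y = vc (s * x) (s • a) (s • b) (s • c) (s * y) := by
  funext i
  rcases i with i | i | i | i | i <;> rfl

/-- coordinate matrices -/
def pr (i : Fin 3) : M3 k := diagonal (Pi.single i 1)

theorem pr_mulVec (i : Fin 3) (a : Fin 3 → k) : pr i *ᵥ a = Pi.single i (a i) := by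
  funext j
  rw [pr, Matrix.mulVec_diagonal]
  by_cases h : j = i
  · subst h
    simp
  · simp [h]

/-- the generic triple in adapted generators -/
theorem good_cl [CharZero k] [IsAlgClosed k] {ι : M31 k} {π : M13 k} (hι : ∀ i, ι i 0 ≠ 0)
    (hπ : ∀ i, π 0 i ≠ 0) {Q : Fin 3 → M3 k} {R : Fin 3 → M31 k} {S : Fin 3 → M13 k}
    {t : Fin 3 → M11 k} (hcomm : ∀ i j, T ι π (pr i) (Q i) (R i) (S i) (t i) *
      T ι π (pr j) (Q j) (R j) (S j) (t j) = T ι π (pr j) (Q j) (R j) (S j) (t j) *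
      T ι π (pr i) (Q i) (R i) (S i) (t i)) :
    Cl fun i => T ι π (pr i) (Q i) (R i) (S i) (t i) := by
  set X : Fin 3 → Matrix I5 I5 k := fun i => T ι π (pr i) (Q i) (R i) (S i) (t i) with hX
  set v : I5 → k := vc 1 0 0 0 0 with hv
  set s : I5 → k := vc 0 0 0 0 1 with hs
  have hstep : ∀ (i : Fin 3) (x : k) (a b c : Fin 3 → k) (y : k), X i *ᵥ vc x a b c y =
      vc 0 (x • fun l => ((pr i : M3 k) * ι) l 0) ((x • fun l => (Q i * ι) l 0) + pr i *ᵥ a)
        ((x • fun l => R i l 0) + Q i *ᵥ a + pr i *ᵥ b)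
        (x * t i 0 0 + (S i *ᵥ a) 0 + ((π * Q i) *ᵥ b) 0 +
          ((π * (pr i : M3 k)) *ᵥ c) 0) := by
    intro i x a b c y
    exact G_vc ..
  have hpi : ∀ i, (fun l => ((pr i : M3 k) * ι) l 0) = (Pi.single i (ι i 0) : Fin 3 → k) := by
    intro i
    have : (fun l => ((pr i : M3 k) * ι) l 0) = pr i *ᵥ fun l => ι l 0 := by
      funext l
      simp [Matrix.mul_apply, Matrix.mulVec, dotProduct]
    rw [this, pr_mulVec]
  have hpp : ∀ i (c : Fin 3 → k), ((π * (pr i : M3 k)) *ᵥ c) 0 = π 0 i * c i := by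
    intro i c
    rw [← Matrix.mulVec_mulVec, pr_mulVec]
    simp [Matrix.mulVec, dotProduct, Pi.single_apply]
  -- powers
  have h1 : ∀ i, ∃ b c y, X i *ᵥ v = vc 0 (Pi.single i (ι i 0)) b c y := by
    intro i
    rw [hv, hstep, one_smul, hpi]
    exact ⟨_, _, _, rfl⟩
  have hn : ∀ i (a b c : Fin 3 → k) (y : k), ∃ b' c' y', X i *ᵥ vc 0 a b c y =
      vc 0 0 (Pi.single i (a i)) b' y' ∧ (a = 0 → b' = Pi.single i (b i)) ∧
        (a = 0 → b = 0 → y' = π 0 i * c i) ∧ c' = (0 : k) := by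
    intro i a b c y
    refine ⟨Q i *ᵥ a + pr i *ᵥ b, 0, (S i *ᵥ a) 0 + ((π * Q i) *ᵥ b) 0 +
      ((π * (pr i : M3 k)) *ᵥ c) 0,
      ?_, ?_, ?_, rfl⟩
    · rw [hstep, zero_smul, zero_smul, zero_smul, zero_mul, zero_add, zero_add, zero_add,
        pr_mulVec]
    · rintro rfl
      rw [Matrix.mulVec_zero, zero_add, pr_mulVec]
    · rintro rfl rfl
      rw [Matrix.mulVec_zero, Matrix.mulVec_zero, hpp]
      simp
  have h2 : ∀ i, ∃ c y, X i ^ 2 *ᵥ v = vc 0 0 (Pi.single i (ι i 0)) c y := by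
    intro i
    obtain ⟨b, c, y, e⟩ := h1 i
    obtain ⟨b', c', y', e', -⟩ := hn i (Pi.single i (ι i 0)) b c y
    rw [pow_two, ← Matrix.mulVec_mulVec, e, e', Pi.single_eq_same]
    exact ⟨_, _, rfl⟩
  have h3 : ∀ i, ∃ y, X i ^ 3 *ᵥ v = vc 0 0 0 (Pi.single i (ι i 0)) y := by
    intro i
    obtain ⟨c, y, e⟩ := h2 i
    obtain ⟨b', c', y', e', e2, -⟩ := hn i 0 (Pi.single i (ι i 0)) c y
    rw [pow_succ' _ 2, ← Matrix.mulVec_mulVec, e, e', e2 rfl, Pi.single_eq_same, Pi.zero_apply,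
      Pi.single_zero]
    exact ⟨_, rfl⟩
  have h4 : ∀ i, X i ^ 4 *ᵥ v = (π 0 i * ι i 0) • s := by
    intro i
    obtain ⟨y, e⟩ := h3 i
    obtain ⟨b', c', y', e', e2, e3, -⟩ := hn i 0 0 (Pi.single i (ι i 0)) y
    rw [pow_succ' _ 3, ← Matrix.mulVec_mulVec, e, e', e2 rfl, e3 rfl rfl, Pi.single_eq_same,
      Pi.zero_apply, Pi.single_zero, hs, vc_smul]
    simp
  -- spans
  set W : Submodule k (I5 → k) := Submodule.span k ({v} ∪ {s} ∪ {y | ∃ i m, 1 ≤ m ∧
    m < (![4, 4, 4] : Fin 3 → ℕ) i ∧ y = X i ^ m *ᵥ v}) with hW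
  have w4 : ∀ y, vc 0 0 0 0 y ∈ W := by
    intro y
    have : vc 0 0 0 0 y = y • s := by
      rw [hs, vc_smul]
      simp
    rw [this]
    exact Submodule.smul_mem _ _ (Submodule.subset_span (Or.inl (Or.inr rfl)))
  have h44 : ∀ i : Fin 3, (![4, 4, 4] : Fin 3 → ℕ) i = 4 := by
    intro i
    fin_cases i <;> rfl
  have key : ∀ (a : Fin 3 → k), a = ∑ i, (a i / ι i 0) • (Pi.single i (ι i 0) : Fin 3 → k) := by
    intro a
    funext j
    rw [Finset.sum_apply, Finset.sum_eq_single j]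
    · simp [div_mul_cancel₀ _ (hι j)]
    · intro b _ hb
      simp [hb.symm]
    · simp
  -- level three
  have lev3 : ∀ (U : Submodule k (I5 → k)), s ∈ U → (∀ i, X i ^ 3 *ᵥ v ∈ U) → ∀ c y,
      vc 0 0 0 c y ∈ U := by
    intro U hsU h3U c y
    choose y3 hy3 using h3
    have e : vc 0 0 0 c y = ∑ i, (c i / ι i 0) • (X i ^ 3 *ᵥ v) +
        (y - ∑ i, (c i / ι i 0) * y3 i) • s := by
      have e1 : ∑ i, (c i / ι i 0) • (X i ^ 3 *ᵥ v) = vc 0 0 0 c (∑ i, (c i / ι i 0) * y3 i) := by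
        simp only [hy3, vc_smul, Fin.sum_univ_three, vc_add]
        congr 1
        · ring
        · simp
        · simp
        · have := key c
          rw [Fin.sum_univ_three] at this
          exact this.symm
      rw [e1, hs, vc_smul, vc_add]
      congr 1
      · ring
      · simp
      · simp
      · simp
      · ring
    rw [e]
    exact add_mem (sum_mem fun i _ => Submodule.smul_mem _ _ (h3U i)) (Submodule.smul_mem _ _ hsU)
  have hsW : s ∈ W := Submodule.subset_span (Or.inl (Or.inr rfl))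
  have hmW : ∀ i m, 1 ≤ m → m < 4 → X i ^ m *ᵥ v ∈ W := fun i m hm hm' =>
    Submodule.subset_span (Or.inr ⟨i, m, hm, by rw [h44]; exact hm', rfl⟩)
  have w3 : ∀ c y, vc 0 0 0 c y ∈ W := lev3 W hsW fun i => hmW i 3 (by norm_num) (by norm_num)
  have w2 : ∀ b c y, vc 0 0 b c y ∈ W := by
    intro b c y
    choose c2 y2 h2' using h2
    have e : vc 0 0 b c y = ∑ i, (b i / ι i 0) • (X i ^ 2 *ᵥ v) +
        vc 0 0 0 (c - ∑ i, (b i / ι i 0) • c2 i) (y - ∑ i, (b i / ι i 0) * y2 i) := by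
      have e1 : ∑ i, (b i / ι i 0) • (X i ^ 2 *ᵥ v) =
          vc 0 0 b (∑ i, (b i / ι i 0) • c2 i) (∑ i, (b i / ι i 0) * y2 i) := by
        simp only [h2', vc_smul, Fin.sum_univ_three, vc_add]
        congr 1
        · ring
        · simp
        · have := key b
          rw [Fin.sum_univ_three] at this
          exact this.symm
      rw [e1, vc_add]
      congr 1
      · ring
      · simp
      · simp
      · simp
      · ring
    rw [e]
    exact add_mem (sum_mem fun i _ => Submodule.smul_mem _ _ (hmW i 2 (by norm_num)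
      (by norm_num))) (w3 _ _)
  have w1 : ∀ a b c y, vc 0 a b c y ∈ W := by
    intro a b c y
    choose b1 c1 y1 h1' using h1
    have e : vc 0 a b c y = ∑ i, (a i / ι i 0) • (X i *ᵥ v) +
        vc 0 0 (b - ∑ i, (a i / ι i 0) • b1 i) (c - ∑ i, (a i / ι i 0) • c1 i)
          (y - ∑ i, (a i / ι i 0) * y1 i) := by
      have e1 : ∑ i, (a i / ι i 0) • (X i *ᵥ v) =
          vc 0 a (∑ i, (a i / ι i 0) • b1 i) (∑ i, (a i / ι i 0) • c1 i)
            (∑ i, (a i / ι i 0) * y1 i) := by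
        simp only [h1', vc_smul, Fin.sum_univ_three, vc_add]
        congr 1
        · ring
        · have := key a
          rw [Fin.sum_univ_three] at this
          exact this.symm
      rw [e1, vc_add]
      congr 1
      · ring
      · simp
      · simp
      · simp
      · ring
    rw [e]
    refine add_mem (sum_mem fun i _ => Submodule.smul_mem _ _ ?_) (w2 _ _ _)
    have := hmW i 1 le_rfl (by norm_num)
    rwa [pow_one] at this
  refine cl_tpqr ![4, 4, 4] 1 4 (fun i => by rw [h44]; norm_num) (fun i => le_rfl)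
    (fun i => by rw [h44]; rfl) (by decide) hcomm v s ?_ ?_ ?_ ?_
  · intro u _
    rw [eq_vc u]
    have e : ∀ (x : k) (a b c : Fin 3 → k) (y : k), vc x a b c y = x • v + vc 0 a b c y := by
      intro x a b c y
      rw [hv, vc_smul, vc_add]
      congr 1
      · ring
      · simp
      · simp
      · simp
      · ring
    rw [e]
    exact add_mem (Submodule.smul_mem _ _ (Submodule.subset_span (Or.inl (Or.inl rfl))))
      (w1 _ _ _ _)
  · intro i
    rw [hs]
    change X i *ᵥ vc 0 0 0 0 1 = 0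
    rw [hstep]
    simp only [zero_smul, Matrix.mulVec_zero, zero_add, zero_mul, Pi.zero_apply, add_zero]
    funext j
    rcases j with j | j | j | j | j <;> rfl
  · intro i
    refine ⟨π 0 i * ι i 0, mul_ne_zero (hπ i) (hι i), ?_⟩
    rw [h44]
    exact h4 i
  · intro i j hij
    obtain ⟨b, c, y, e⟩ := h1 j
    obtain ⟨b', c', y', e', -⟩ := hn i (Pi.single j (ι j 0)) b c y
    change X i *ᵥ (X j *ᵥ v) ∈ _
    rw [e, e', Pi.single_eq_of_ne hij, Pi.single_zero]
    refine lev3 _ (Submodule.subset_span (Or.inl rfl)) (fun l => Submodule.subset_span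
      (Or.inr ⟨l, 3, by rw [h44]; norm_num, ?_, rfl⟩)) _ _
    simp

/-- the sum of the two other values -/
def sg (p : Fin 3 → k) (i : Fin 3) : k := (![p 1 + p 2, p 0 + p 2, p 0 + p 1] : Fin 3 → k) i

/-- the product of the two other values -/
def pg (p : Fin 3 → k) (i : Fin 3) : k := (![p 1 * p 2, p 0 * p 2, p 0 * p 1] : Fin 3 → k) i

theorem s0 (p : Fin 3 → k) : sg p 0 = p 1 + p 2 := rfl
theorem s1 (p : Fin 3 → k) : sg p 1 = p 0 + p 2 := rfl
theorem s2 (p : Fin 3 → k) : sg p 2 = p 0 + p 1 := rfl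
theorem q0 (p : Fin 3 → k) : pg p 0 = p 1 * p 2 := rfl
theorem q1 (p : Fin 3 → k) : pg p 1 = p 0 * p 2 := rfl
theorem q2 (p : Fin 3 → k) : pg p 2 = p 0 * p 1 := rfl

/-- the normalisation -/
def eg (p : Fin 3 → k) (i : Fin 3) : k := (p i ^ 2 - sg p i * p i + pg p i)⁻¹

theorem eg_ne {p : Fin 3 → k} (hp : Function.Injective p) (i : Fin 3) :
    p i ^ 2 - sg p i * p i + pg p i ≠ 0 := by
  have h01 : p 0 - p 1 ≠ 0 := sub_ne_zero.2 (hp.ne (by decide))
  have h02 : p 0 - p 2 ≠ 0 := sub_ne_zero.2 (hp.ne (by decide))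
  have h12 : p 1 - p 2 ≠ 0 := sub_ne_zero.2 (hp.ne (by decide))
  fin_cases i
  · have : p 0 ^ 2 - sg p 0 * p 0 + pg p 0 = (p 0 - p 1) * (p 0 - p 2) := by
      rw [s0, q0]
      ring
    exact this.trans_ne (mul_ne_zero h01 h02)
  · have : p 1 ^ 2 - sg p 1 * p 1 + pg p 1 = -((p 0 - p 1) * (p 1 - p 2)) := by
      rw [s1, q1]
      ring
    exact this.trans_ne (neg_ne_zero.2 (mul_ne_zero h01 h12))
  · have : p 2 ^ 2 - sg p 2 * p 2 + pg p 2 = (p 0 - p 2) * (p 1 - p 2) := by
      rw [s2, q2]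
      ring
    exact this.trans_ne (mul_ne_zero h02 h12)

theorem lagr {p : Fin 3 → k} (hp : Function.Injective p) (i : Fin 3) :
    eg p i • (diagonal p * diagonal p - sg p i • diagonal p + pg p i • (1 : M3 k)) = pr i := by
  have h := eg_ne hp i
  rw [Matrix.diagonal_mul_diagonal, pr]
  ext a b
  by_cases hab : a = b
  · subst hab
    simp only [Matrix.smul_apply, Matrix.sub_apply, Matrix.add_apply, Matrix.diagonal_apply_eq,
      Matrix.one_apply_eq, smul_eq_mul, eg]
    by_cases ha : a = i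
    · subst ha
      rw [Pi.single_eq_same, inv_mul_eq_iff_eq_mul₀ h]
      ring
    · rw [Pi.single_eq_of_ne ha]
      refine mul_eq_zero_of_right _ ?_
      fin_cases i <;> fin_cases a <;> simp [sg, pg] at ha ⊢ <;> ring
  · simp [hab]

/-- **the generic triples of the type `(5, 3, 3)` are limits of curvilinear ones** -/
theorem good_no [CharZero k] [IsAlgClosed k] {ι : M31 k} {π : M13 k} {p : Fin 3 → k}
    (hp : Function.Injective p) (hι : ∀ i, ι i 0 ≠ 0) (hπ : ∀ i, π 0 i ≠ 0) {Q Q' : M3 k}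
    {R R' : M31 k} {S S' : M13 k} {t t' : M11 k}
    (hT : MaxR ρ ![A5 ι π, T ι π (diagonal p) Q R S t,
      T ι π (diagonal p * diagonal p) Q' R' S' t']) : False := by
  set A := A5 ι π with hA
  set B := T ι π (diagonal p) Q R S t with hB
  set C := T ι π (diagonal p * diagonal p) Q' R' S' t' with hC
  set X : Fin 3 → Matrix I5 I5 k := fun i => eg p i • (C - sg p i • B + pg p i • A) with hX
  have hXT : ∀ i, X i = T ι π (pr i) (eg p i • (Q' - sg p i • Q)) (eg p i • (R' - sg p i • R))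
      (eg p i • (S' - sg p i • S)) (eg p i • (t' - sg p i • t)) := by
    intro i
    have e : X i = eg p i • C + -(eg p i * sg p i) • B + (eg p i * pg p i) • A := by
      simp only [hX]
      module
    rw [e, hA, hB, hC, T_smul, T_smul, T_smul, T_add, T_add, ← lagr hp i]
    congr 1
    · module
    · rw [smul_zero, add_zero]
      module
    · rw [smul_zero, add_zero]
      module
    · rw [smul_zero, add_zero]
      module
    · rw [smul_zero, add_zero]
      module
  have m0 := mem0 A B C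
  have m1 := mem1 A B C
  have m2 := mem2 A B C
  have sm : ∀ {U : Fin 3 → Matrix I5 I5 k} (a : k) {M : Matrix I5 I5 k}, M ∈ adj U →
      a • M ∈ adj U := by
    intro U a M hM
    exact SMulMemClass.smul_mem a hM
  have hmem : ∀ i, X i ∈ adj ![A, B, C] := fun i =>
    sm _ (add_mem (sub_mem m2 (sm _ m1)) (sm _ m0))
  have hcn : CN X := hT.cn.of_adj hmem
  have n0 : ∀ i, X i ∈ adj X := fun i => mem_adj _ i
  have h0 := eg_ne hp 0
  have h1 := eg_ne hp 1
  have h2 := eg_ne hp 2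
  have h01 : p 0 - p 1 ≠ 0 := sub_ne_zero.2 (hp.ne (by decide))
  have h02 : p 0 - p 2 ≠ 0 := sub_ne_zero.2 (hp.ne (by decide))
  have h12 : p 1 - p 2 ≠ 0 := sub_ne_zero.2 (hp.ne (by decide))
  have f0 : p 0 ^ 2 - sg p 0 * p 0 + pg p 0 = (p 0 - p 1) * (p 0 - p 2) := by
    rw [s0, q0]
    ring
  have f1 : p 1 ^ 2 - sg p 1 * p 1 + pg p 1 = -((p 0 - p 1) * (p 1 - p 2)) := by
    rw [s1, q1]
    ring
  have f2 : p 2 ^ 2 - sg p 2 * p 2 + pg p 2 = (p 0 - p 2) * (p 1 - p 2) := by
    rw [s2, q2]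
    ring
  have hco : ∀ a0 a1 a2 : k, a0 • X 0 + a1 • X 1 + a2 • X 2 ∈ adj X := fun a0 a1 a2 =>
    add_mem (add_mem (sm _ (n0 0)) (sm _ (n0 1))) (sm _ (n0 2))
  have hM : MaxR ρ X := by
    refine MaxR.change hT hcn fun i => ?_
    have key : ∀ (a0 a1 a2 x y z : k),
        a0 * eg p 0 * (p 1 * p 2) + a1 * eg p 1 * (p 0 * p 2) + a2 * eg p 2 * (p 0 * p 1) = x →
        -(a0 * eg p 0 * (p 1 + p 2) + a1 * eg p 1 * (p 0 + p 2) + a2 * eg p 2 * (p 0 + p 1)) = y →
        a0 * eg p 0 + a1 * eg p 1 + a2 * eg p 2 = z →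
        a0 • X 0 + a1 • X 1 + a2 • X 2 = x • A + y • B + z • C := by
      rintro a0 a1 a2 x y z rfl rfl rfl
      simp only [hX, s0, s1, s2, q0, q1, q2]
      module
    fin_cases i
    · have := hco 1 1 1
      rw [key 1 1 1 1 0 0] at this
      · change A ∈ _
        simpa using this
      · simp only [eg, f0, f1, f2]
        field_simp
        ring
      · simp only [eg, f0, f1, f2]
        field_simp
        ring
      · simp only [eg, f0, f1, f2]
        field_simp
        ring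
    · have := hco (p 0) (p 1) (p 2)
      rw [key (p 0) (p 1) (p 2) 0 1 0] at this
      · change B ∈ _
        simpa using this
      · simp only [eg, f0, f1, f2]
        field_simp
        ring
      · simp only [eg, f0, f1, f2]
        field_simp
        ring
      · simp only [eg, f0, f1, f2]
        field_simp
        ring
    · have := hco (p 0 ^ 2) (p 1 ^ 2) (p 2 ^ 2)
      rw [key (p 0 ^ 2) (p 1 ^ 2) (p 2 ^ 2) 0 0 1] at this
      · change C ∈ _
        simpa using this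
      · simp only [eg, f0, f1, f2]
        field_simp
        ring
      · simp only [eg, f0, f1, f2]
        field_simp
        ring
      · simp only [eg, f0, f1, f2]
        field_simp
        ring
  have hX' : X = fun i => T ι π (pr i) (eg p i • (Q' - sg p i • Q))
      (eg p i • (R' - sg p i • R)) (eg p i • (S' - sg p i • S)) (eg p i • (t' - sg p i • t)) :=
    funext hXT
  refine hM.ncl ?_
  have hc := hcn.1
  rw [hX'] at hc ⊢
  exact good_cl hι hπ hc

end Pool.Agent.Lib.D13.T533
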