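import Pool.Agent.Lib.D13.T533b
import Pool.Agent.Lib.D13.T533c
import Pool.Agent.Lib.D13.Jets

/-!
# MP_5dcbc3_ag: type (5, 3, 3), the decomposable first order parts

If `P = p ⊕ N` and `P' = p' ⊕ N'`, then the maximal triple can be changed such that `P` has a cyclic
vector.
-/

set_option autoImplicit false

namespace Pool.Agent.Lib.D13.T533

open Matrix Pool.Agent.Lib.Q5dc Pool.Agent.Lib.D7 Pool.Agent.Lib.D8
open Pool.Agent.Lib.D9.T333Aux (D3 Cyc)

variable {k : Type*} [Field k] {ρ : ℕ → ℕ}

namespace SpecAux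

/-- `p ⊕ N` -/
def bl (p a b c d : k) : M3 k := !![p, 0, 0; 0, a, b; 0, c, d]

theorem not_nd {P : M3 k} (h : ¬ ND (i0 k) (p0 k) P) :
    P = bl (P 0 0) (P 1 1) (P 1 2) (P 2 1) (P 2 2) := by
  have h1 : ∀ (x : M31 k) (y : M13 k), x 0 0 = y 0 0 →
      P 0 0 * x 0 0 + P 0 1 * x 1 0 + P 0 2 * x 2 0 -
        (y 0 0 * P 0 0 + y 0 1 * P 1 0 + y 0 2 * P 2 0) = 0 := by
    intro x y hxy
    by_contra h2
    apply h
    refine ⟨x, y, ?_, ?_⟩
    · ext i j
      fin_cases i
      fin_cases j
      simp [Matrix.mul_apply, Fin.sum_univ_three, hxy]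
    · intro h3
      apply h2
      rw [← h3]
      simp only [Matrix.sub_apply, Matrix.mul_apply, Fin.sum_univ_three]
      simp
  have a1 := h1 !![0; 1; 0] 0 rfl
  have a2 := h1 !![0; 0; 1] 0 rfl
  have a3 := h1 0 !![0, 1, 0] rfl
  have a4 := h1 0 !![0, 0, 1] rfl
  simp at a1 a2 a3 a4
  ext i j
  fin_cases i <;> fin_cases j
  exacts [rfl, a1, a2, a3, rfl, rfl, a4, rfl, rfl]

theorem cyc_bl {a b c d : k} (hdet : a * d - b * c ≠ 0) (hn : b ≠ 0 ∨ c ≠ 0 ∨ a ≠ d) :
    ∃ v, Cyc (bl 0 a b c d) v := by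
  have key : ∀ x y : k, D3 ![1, x, y] (bl 0 a b c d *ᵥ ![1, x, y])
      (bl 0 a b c d *ᵥ (bl 0 a b c d *ᵥ ![1, x, y])) =
      (a * d - b * c) * (x * (c * x + d * y) - y * (a * x + b * y)) := by
    intro x y
    simp [D3, bl, Matrix.mulVec, dotProduct, Fin.sum_univ_three]
    ring
  by_cases hc : c = 0
  · by_cases hb : b = 0
    · have had : d - a ≠ 0 := by
        rcases hn with h | h | h
        exacts [absurd hb h, absurd hc h, sub_ne_zero.2 h.symm]
      refine ⟨![1, 1, 1], ?_⟩
      unfold Cyc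
      rw [key]
      refine mul_ne_zero hdet ?_
      rw [hb, hc]
      intro h0
      exact had (by linear_combination h0)
    · refine ⟨![1, 0, 1], ?_⟩
      unfold Cyc
      rw [key]
      refine mul_ne_zero hdet ?_
      intro h0
      exact hb (by linear_combination -h0)
  · refine ⟨![1, 1, 0], ?_⟩
    unfold Cyc
    rw [key]
    refine mul_ne_zero hdet ?_
    intro h0
    exact hc (by linear_combination h0)

/-- a member of a pencil of commuting `2 x 2` matrices -/
theorem pencil [CharZero k] {a b c d a' b' c' d' : k} (h1 : b * c' = b' * c)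
    (h2 : (a - d) * b' = (a' - d') * b) (h3 : (a - d) * c' = (a' - d') * c) :
    (∃ s t : k, (s * a + t * a') * (s * d + t * d') - (s * b + t * b') * (s * c + t * c') ≠ 0 ∧
      (s * b + t * b' ≠ 0 ∨ s * c + t * c' ≠ 0 ∨ s * a + t * a' ≠ s * d + t * d')) ∨
    ∃ s t : k, (s ≠ 0 ∨ t ≠ 0) ∧ s * a + t * a' = 0 ∧ s * b + t * b' = 0 ∧ s * c + t * c' = 0 ∧
      s * d + t * d' = 0 := by
  -- `N` not scalar
  have key : ∀ {a b c d a' b' c' d' : k}, b * c' = b' * c → (a - d) * b' = (a' - d') * b →
      (a - d) * c' = (a' - d') * c → (b ≠ 0 ∨ c ≠ 0 ∨ a ≠ d) →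
      (∃ s t : k, (s * a + t * a') * (s * d + t * d') - (s * b + t * b') * (s * c + t * c') ≠ 0 ∧
        (s * b + t * b' ≠ 0 ∨ s * c + t * c' ≠ 0 ∨ s * a + t * a' ≠ s * d + t * d')) ∨
      ∃ s t : k, (s ≠ 0 ∨ t ≠ 0) ∧ s * a + t * a' = 0 ∧ s * b + t * b' = 0 ∧
        s * c + t * c' = 0 ∧ s * d + t * d' = 0 := by
    intro a b c d a' b' c' d' h1 h2 h3 hn
    by_cases hdet : a * d - b * c = 0
    · obtain ⟨β, α, e1, e2, e3, e4⟩ : ∃ β α : k, a' = β * a + α ∧ b' = β * b ∧ c' = β * c ∧
          d' = β * d + α := by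
        by_cases hb : b = 0
        · by_cases hc : c = 0
          · have had : a - d ≠ 0 := by
              rcases hn with h | h | h
              exacts [absurd hb h, absurd hc h, sub_ne_zero.2 h]
            refine ⟨(a' - d') / (a - d), a' - (a' - d') / (a - d) * a, by ring, ?_, ?_, ?_⟩
            · rw [hb, mul_zero] at h2 ⊢
              exact (mul_eq_zero.1 h2).resolve_left had
            · rw [hc, mul_zero] at h3 ⊢
              exact (mul_eq_zero.1 h3).resolve_left had
            · field_simp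
              ring
          · refine ⟨c' / c, a' - c' / c * a, by ring, ?_, by field_simp, ?_⟩
            · field_simp
              linear_combination -h1
            · field_simp
              linear_combination h3
        · refine ⟨b' / b, a' - b' / b * a, by ring, by field_simp, ?_, ?_⟩
          · field_simp
            linear_combination h1
          · field_simp
            linear_combination h2
      by_cases hα : α = 0
      · right
        refine ⟨-β, 1, Or.inr one_ne_zero, ?_, ?_, ?_, ?_⟩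
        · rw [e1, hα]; ring
        · rw [e2]; ring
        · rw [e3]; ring
        · rw [e4, hα]; ring
      · left
        obtain ⟨ε, hε, hε'⟩ : ∃ ε : k, ε ≠ 0 ∧ α + ε * (a + d) ≠ 0 := by
          by_cases h5 : α + (a + d) = 0
          · refine ⟨2, two_ne_zero, fun h6 => hα ?_⟩
            linear_combination 2 * h5 - h6
          · exact ⟨1, one_ne_zero, by rwa [one_mul]⟩
        refine ⟨-β + ε, 1, ?_, ?_⟩
        · have : ((-β + ε) * a + 1 * a') * ((-β + ε) * d + 1 * d') -
              ((-β + ε) * b + 1 * b') * ((-β + ε) * c + 1 * c') =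
              α * (α + ε * (a + d)) + ε ^ 2 * (a * d - b * c) := by
            rw [e1, e2, e3, e4]
            ring
          rw [this, hdet, mul_zero, add_zero]
          exact mul_ne_zero hα hε'
        · rcases hn with h | h | h
          · left
            have : (-β + ε) * b + 1 * b' = ε * b := by rw [e2]; ring
            rw [this]
            exact mul_ne_zero hε h
          · right; left
            have : (-β + ε) * c + 1 * c' = ε * c := by rw [e3]; ring
            rw [this]
            exact mul_ne_zero hε h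
          · right; right
            intro h7
            have : ε * (a - d) = 0 := by
              rw [e1, e4] at h7
              linear_combination h7
            exact (mul_ne_zero hε (sub_ne_zero.2 h)) this
    · left
      refine ⟨1, 0, ?_, ?_⟩
      · simpa using hdet
      · simpa using hn
  by_cases hn : b ≠ 0 ∨ c ≠ 0 ∨ a ≠ d
  · exact key h1 h2 h3 hn
  by_cases hn' : b' ≠ 0 ∨ c' ≠ 0 ∨ a' ≠ d'
  · rcases key h1.symm h2.symm h3.symm hn' with ⟨s, t, h4, h5⟩ | ⟨s, t, h4, h5, h6, h7, h8⟩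
    · left
      refine ⟨t, s, ?_, ?_⟩
      · rwa [add_comm (t * a), add_comm (t * d), add_comm (t * b), add_comm (t * c)]
      · rwa [add_comm (t * a), add_comm (t * d), add_comm (t * b), add_comm (t * c)]
    · right
      refine ⟨t, s, h4.symm, ?_, ?_, ?_, ?_⟩
      · rwa [add_comm]
      · rwa [add_comm]
      · rwa [add_comm]
      · rwa [add_comm]
  push Not at hn hn'
  obtain ⟨hb, hc, had⟩ := hn
  obtain ⟨hb', hc', had'⟩ := hn'
  right
  by_cases ha : a = 0
  · refine ⟨1, 0, Or.inl one_ne_zero, ?_, ?_, ?_, ?_⟩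
    · rw [ha]; ring
    · rw [hb]; ring
    · rw [hc]; ring
    · rw [← had, ha]; ring
  · refine ⟨-a', a, Or.inr ha, by ring, ?_, ?_, ?_⟩
    · rw [hb, hb']; ring
    · rw [hc, hc']; ring
    · rw [← had, ← had']; ring

end SpecAux

open SpecAux

/-- members of the pencil -/
theorem Mx.member {ι : M31 k} {π : M13 k} {P Q P' Q' : M3 k} (hT : Mx ρ ι π P Q P' Q') {s t : k}
    (hst : s ≠ 0 ∨ t ≠ 0) (z : k) : ∃ P1 Q1 Q2, Mx ρ ι π P1 Q1 (s • P + t • P' + z • 1) Q2 := by
  rcases hst with h | h
  · have h1 := hT.lin 0 1 s t 0 z (by simpa using h)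
    exact ⟨_, _, _, h1⟩
  · have h1 := hT.lin 1 0 s t 0 z (by simpa using h)
    exact ⟨_, _, _, h1⟩

/-- the second matrix is zero -/
theorem spec_zero [CharZero k] {p a b c d : k} {Q Q' : M3 k}
    (hT : Mx ρ (i0 k) (p0 k) (bl p a b c d) Q 0 Q') :
    ∃ P Q P' Q' v, Cyc P v ∧ Mx ρ (i0 k) (p0 k) P Q P' Q' := by
  have hinf : Infinite k := CharZero.infinite k
  -- a cyclic matrix commuting with `P`
  obtain ⟨R0, v, r, hc, hv, hι, hπ⟩ : ∃ (R0 : M3 k) (v : Fin 3 → k) (r : k),
      bl p a b c d * R0 = R0 * bl p a b c d ∧ Cyc R0 v ∧ R0 * i0 k = r • i0 k ∧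
        p0 k * R0 = r • p0 k := by
    have hR : ∀ (r a1 b1 c1 d1 : k), bl r a1 b1 c1 d1 * i0 k = r • i0 k ∧
        p0 k * bl r a1 b1 c1 d1 = r • p0 k := by
      intro r a1 b1 c1 d1
      constructor
      · ext i j
        fin_cases i <;> fin_cases j <;> simp [bl, Matrix.mul_apply, Fin.sum_univ_three]
      · ext i j
        fin_cases i <;> fin_cases j <;> simp [bl, Matrix.mul_apply, Fin.sum_univ_three]
    have hcy : ∀ (a1 b1 c1 d1 : k), (b1 ≠ 0 ∨ c1 ≠ 0 ∨ a1 ≠ d1) → ∃ (r : k) (v : Fin 3 → k),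
        Cyc (bl r a1 b1 c1 d1) v := by
      intro a1 b1 c1 d1 hn
      obtain ⟨r, hr⟩ : ∃ r : k, (a1 - r) * (d1 - r) - b1 * c1 ≠ 0 := by
        by_contra h
        push Not at h
        have e0 := h 0
        have e1 := h 1
        have e2 := h 2
        have : (2 : k) = 0 := by linear_combination e2 - 2 * e1 + e0
        exact two_ne_zero this
      obtain ⟨v, hv⟩ := cyc_bl (a := a1 - r) (b := b1) (c := c1) (d := d1 - r) hr (by
        rcases hn with h | h | h
        · exact Or.inl h
        · exact Or.inr (Or.inl h)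
        · exact Or.inr (Or.inr fun h' => h (sub_left_injective h')))
      refine ⟨r, v, JetsAux.cyc_add (l := r) ?_⟩
      have : bl r a1 b1 c1 d1 - r • (1 : M3 k) = bl 0 (a1 - r) b1 c1 (d1 - r) := by
        ext i j
        fin_cases i <;> fin_cases j <;> simp [bl]
      rwa [this]
    by_cases hn : b ≠ 0 ∨ c ≠ 0 ∨ a ≠ d
    · obtain ⟨r, v, hv⟩ := hcy a b c d hn
      refine ⟨bl r a b c d, v, r, ?_, hv, (hR _ _ _ _ _).1, (hR _ _ _ _ _).2⟩
      ext i j
      fin_cases i <;> fin_cases j <;> simp [bl, Matrix.mul_apply, Fin.sum_univ_three] <;> ring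
    · push Not at hn
      obtain ⟨hb, hc, had⟩ := hn
      obtain ⟨r, v, hv⟩ := hcy 0 1 0 0 (Or.inl one_ne_zero)
      refine ⟨bl r 0 1 0 0, v, r, ?_, hv, (hR _ _ _ _ _).1, (hR _ _ _ _ _).2⟩
      rw [hb, hc, ← had]
      ext i j
      fin_cases i <;> fin_cases j <;> simp [bl, Matrix.mul_apply, Fin.sum_univ_three] <;> ring
  set P : M3 k := bl p a b c d with hP
  -- make `Q'` cyclic
  obtain ⟨R, S, t, R', S', t', h⟩ := hT
  have hrel := max_rel h
  obtain ⟨s, hs, h1⟩ := max_deform h (Ps := fun _ => P) (Qs := fun _ => Q) (Ps' := fun _ => 0)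
    (Qs' := fun s => Q' + s • R0) (Rs := fun _ => R) (Ss := fun _ => S) (Rs' := fun _ => R')
    (Ss' := fun _ => S') (PM.const P) (PM.const Q) (PM.const 0) (PM.line Q' R0) (PM.const R)
    (PM.const R') (PM.const S) (PM.const S') rfl rfl rfl (by simp) rfl rfl rfl rfl
    (E := ∅) Set.finite_empty (by
      intro s _
      refine ⟨hrel.comm, ?_, ?_, ?_, hrel.rs, hrel.rs'⟩
      · have := hrel.ri
        simp only [mul_zero, zero_mul, zero_add, add_zero] at this ⊢
        rw [mul_add, add_mul, Matrix.add_mul, Matrix.add_mul, this, mul_smul_comm,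
          smul_mul_assoc, hc]
      · have := hrel.rp
        simp only [mul_zero, zero_mul, zero_add, add_zero] at this ⊢
        rw [mul_add, add_mul, Matrix.mul_add, Matrix.mul_add, this, mul_smul_comm,
          smul_mul_assoc, hc]
      · have h4 := hrel.e4
        unfold E4 at h4 ⊢
        have e1 : p0 k * Q * (Q' + s • R0) * i0 k = p0 k * Q * Q' * i0 k +
            (s * r) • (p0 k * Q * i0 k) := by
          rw [Matrix.mul_add, Matrix.add_mul, Matrix.mul_smul, Matrix.smul_mul,
            Matrix.mul_assoc (p0 k * Q) R0, hι, Matrix.mul_smul, smul_smul]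
        have e2 : p0 k * (Q' + s • R0) * Q * i0 k = p0 k * Q' * Q * i0 k +
            (s * r) • (p0 k * Q * i0 k) := by
          rw [Matrix.mul_add, Matrix.add_mul, Matrix.add_mul, Matrix.mul_smul, hπ,
            Matrix.smul_mul, Matrix.smul_mul, Matrix.smul_mul, Matrix.smul_mul, smul_smul]
        rw [e1, e2, ← h4]
        abel) (JetsAux.finite_cyc (X := Q') hv)
  have hcq : Cyc (Q' + s • R0) v := not_not.1 hs
  generalize Q' + s • R0 = Q1 at h1 hcq
  clear h hrel hs hv hc hι hπ
  -- make `P` cyclic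
  have hrel := max_rel h1
  set K : M3 k := i0 k * S' + R' * p0 k with hK
  have hπι : p0 k * i0 k = (1 : M11 k) := by
    ext i j
    fin_cases i
    fin_cases j
    simp [Matrix.mul_apply, Fin.sum_univ_three]
  obtain ⟨u, hu, h2⟩ := max_deform h1 (Ps := fun s => P + s • Q1) (Qs := fun s => Q + s • K)
    (Ps' := fun _ => 0)
    (Qs' := fun _ => Q1) (Rs := fun _ => R) (Ss := fun _ => S) (Rs' := fun _ => R')
    (Ss' := fun _ => S') (PM.line P Q1) (PM.line Q K) (PM.const 0) (PM.const Q1) (PM.const R)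
    (PM.const R') (PM.const S) (PM.const S') (by simp) (by simp) rfl rfl rfl rfl rfl rfl
    (E := ∅) Set.finite_empty (by
      intro s _
      refine ⟨by simp, ?_, ?_, ?_, hrel.rs, hrel.rs'⟩
      · have := hrel.ri
        simp only [mul_zero, zero_mul, zero_add, add_zero] at this ⊢
        rw [mul_add, add_mul, Matrix.add_mul, Matrix.add_mul, this, mul_smul_comm,
          smul_mul_assoc]
      · have := hrel.rp
        simp only [mul_zero, zero_mul, zero_add, add_zero] at this ⊢
        rw [mul_add, add_mul, Matrix.mul_add, Matrix.mul_add, this, mul_smul_comm,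
          smul_mul_assoc]
      · have h4 := hrel.e4
        have h5 := hrel.rs'
        unfold E4 at h4 ⊢
        have e1 : p0 k * K * Q1 * i0 k = S' * Q1 * i0 k + p0 k * R' * (p0 k * Q1 * i0 k) := by
          rw [hK, Matrix.mul_add, Matrix.add_mul, Matrix.add_mul, ← Matrix.mul_assoc, hπι,
            Matrix.one_mul]
          simp only [Matrix.mul_assoc]
        have e2 : p0 k * Q1 * K * i0 k = p0 k * Q1 * i0 k * (S' * i0 k) + p0 k * Q1 * R' := by
          rw [hK, Matrix.mul_add, Matrix.add_mul, Matrix.mul_assoc (p0 k * Q1) (R' * p0 k),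
            Matrix.mul_assoc R', hπι, Matrix.mul_one]
          simp only [Matrix.mul_assoc]
        have e3 : p0 k * R' * (p0 k * Q1 * i0 k) = p0 k * Q1 * i0 k * (S' * i0 k) := by
          rw [h5]
          ext i j
          rw [Subsingleton.elim i 0, Subsingleton.elim j 0, Matrix.mul_apply, Matrix.mul_apply]
          simp only [Finset.univ_unique, Fin.default_eq_zero, Finset.sum_singleton]
          exact mul_comm _ _
        have f1 : p0 k * (Q + s • K) * Q1 * i0 k = p0 k * Q * Q1 * i0 k +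
            s • (p0 k * K * Q1 * i0 k) := by
          rw [Matrix.mul_add, Matrix.add_mul, Matrix.add_mul, Matrix.mul_smul, Matrix.smul_mul,
            Matrix.smul_mul]
        have f2 : p0 k * Q1 * (Q + s • K) * i0 k = p0 k * Q1 * Q * i0 k +
            s • (p0 k * Q1 * K * i0 k) := by
          rw [Matrix.mul_add, Matrix.add_mul, Matrix.mul_smul, Matrix.smul_mul]
        have f3 : p0 k * (P + s • Q1) * R' = p0 k * P * R' + s • (p0 k * Q1 * R') := by
          rw [Matrix.mul_add, Matrix.add_mul, Matrix.mul_smul, Matrix.smul_mul]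
        have f4 : S' * (P + s • Q1) * i0 k = S' * P * i0 k + s • (S' * Q1 * i0 k) := by
          rw [Matrix.mul_add, Matrix.add_mul, Matrix.mul_smul, Matrix.smul_mul]
        rw [f1, f2, f3, f4, e1, e2, e3, ← h4]
        module) (JetsAux.finite_cyc (X := P) hcq)
  exact ⟨_, _, _, _, v, not_not.1 hu, _, _, _, _, _, _, h2⟩

theorem special' [CharZero k] {a b c d a' b' c' d' : k} {Q Q' : M3 k}
    (hT : Mx ρ (i0 k) (p0 k) (bl 0 a b c d) Q (bl 0 a' b' c' d') Q') :
    ∃ P Q P' Q' v, Cyc P v ∧ Mx ρ (i0 k) (p0 k) P Q P' Q' := by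
  have hc := hT.rj.comm
  have H := fun i j => congrFun (congrFun hc i) j
  have h11 := H 1 1
  have h12 := H 1 2
  have h21 := H 2 1
  simp [bl, Matrix.mul_apply, Fin.sum_univ_three] at h11 h12 h21
  rcases pencil (a := a) (b := b) (c := c) (d := d) (a' := a') (b' := b') (c' := c') (d' := d')
    (by linear_combination h11) (by linear_combination h12) (by linear_combination -h21) with
    ⟨s, t, h3, h4⟩ | ⟨s, t, h3, h4, h5, h6, h7⟩
  · have hst : s ≠ 0 ∨ t ≠ 0 := by
      by_contra h
      push Not at h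
      apply h3
      rw [h.1, h.2]
      ring
    obtain ⟨P1, Q1, Q2, h5⟩ := hT.member hst 0
    obtain ⟨v, hv⟩ := cyc_bl h3 h4
    refine ⟨_, _, _, _, v, ?_, h5.swap⟩
    have e : s • bl 0 a b c d + t • bl 0 a' b' c' d' + (0 : k) • (1 : M3 k) =
        bl 0 (s * a + t * a') (s * b + t * b') (s * c + t * c') (s * d + t * d') := by
      ext i j
      fin_cases i <;> fin_cases j <;> simp [bl]
    rwa [e]
  · have e : s • bl 0 a b c d + t • bl 0 a' b' c' d' = 0 := by
      ext i j
      fin_cases i <;> fin_cases j <;> simp [bl, h4, h5, h6, h7]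
    rcases h3 with h3 | h3
    · have h8 := hT.lin 0 1 s t 0 0 (by simpa using h3)
      rw [e] at h8
      simp only [zero_smul, one_smul, zero_add, add_zero] at h8
      exact spec_zero h8
    · have h8 := hT.lin 1 0 s t 0 0 (by simpa using h3)
      rw [e] at h8
      simp only [zero_smul, one_smul, zero_add, add_zero] at h8
      exact spec_zero h8

/-- **the decomposable first order parts** -/
theorem special [CharZero k] {P Q P' Q' : M3 k} (hT : Mx ρ (i0 k) (p0 k) P Q P' Q')
    (h1 : ¬ ND (i0 k) (p0 k) P) (h2 : ¬ ND (i0 k) (p0 k) P') :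
    ∃ P Q P' Q' v, Cyc P v ∧ Mx ρ (i0 k) (p0 k) P Q P' Q' := by
  have e1 := not_nd h1
  have e2 := not_nd h2
  have h := hT.lin 1 0 0 1 (-(P 0 0)) (-(P' 0 0)) (by simp)
  have f1 : (1 : k) • P + (0 : k) • P' + -(P 0 0) • (1 : M3 k) =
      bl 0 (P 1 1 - P 0 0) (P 1 2) (P 2 1) (P 2 2 - P 0 0) := by
    rw [zero_smul, add_zero, one_smul]
    nth_rewrite 1 [e1]
    ext i j
    fin_cases i <;> fin_cases j <;> simp [bl, sub_eq_add_neg]
  have f2 : (0 : k) • P + (1 : k) • P' + -(P' 0 0) • (1 : M3 k) =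
      bl 0 (P' 1 1 - P' 0 0) (P' 1 2) (P' 2 1) (P' 2 2 - P' 0 0) := by
    rw [zero_smul, zero_add, one_smul]
    nth_rewrite 1 [e2]
    ext i j
    fin_cases i <;> fin_cases j <;> simp [bl, sub_eq_add_neg]
  rw [f1, f2] at h
  exact special' h

end Pool.Agent.Lib.D13.T533
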