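import Pool.Agent.Lib.D13.K6321
import Pool.Agent.Lib.D13.Z6321
import Pool.Agent.Lib.D13.Auto

/-!
# MP_5dcbc3_ag: there is no maximal bad triple of type `(6, 3, 2, 1)`
-/

set_option autoImplicit false

namespace Pool.Agent.Lib.D13.Q.L6

open Matrix Pool.Agent.Lib.Q5dc Pool.Agent.Lib.D7 Pur

universe u

section

variable {k K : Type*} [Field k] [Field K] [Algebra k K] {L : IntermediateField k K}

theorem act_mem {d : Par K} (hd : InL L d) {m : Fin 12 → K} (hm : ∀ i, m i ∈ L) (i : Fin 12) :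
    act d m i ∈ L := by
  fin_cases i
  · exact zero_mem L
  · exact zero_mem L
  · exact zero_mem L
  · exact mul_mem hd.be0 (hm 6)
  · exact add_mem (add_mem (mul_mem hd.be1 (hm 6)) (mul_mem hd.be0 (hm 7))) (mul_mem hd.b0 (hm 9))
  · exact add_mem (add_mem (add_mem (add_mem (add_mem (mul_mem hd.be2 (hm 6)) (mul_mem hd.be1 (hm 7))) (mul_mem hd.be0 (hm 8))) (mul_mem hd.b1 (hm 9))) (mul_mem hd.b0 (hm 10))) (mul_mem hd.th (hm 11))
  · exact mul_mem hd.al0 (hm 0)
  · exact add_mem (add_mem (add_mem (mul_mem hd.al1 (hm 0)) (mul_mem hd.al0 (hm 1))) (mul_mem hd.p1 (hm 6))) (mul_mem hd.r0 (hm 9))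
  · exact add_mem (add_mem (add_mem (add_mem (add_mem (add_mem (add_mem (mul_mem hd.al2 (hm 0)) (mul_mem hd.al1 (hm 1))) (mul_mem hd.al0 (hm 2))) (mul_mem hd.p2 (hm 6))) (mul_mem hd.p1 (hm 7))) (mul_mem hd.r1 (hm 9))) (mul_mem hd.r0 (hm 10))) (mul_mem hd.et (hm 11))
  · exact add_mem (mul_mem hd.a0 (hm 0)) (mul_mem hd.q0 (hm 6))
  · exact add_mem (add_mem (add_mem (add_mem (add_mem (mul_mem hd.a1 (hm 0)) (mul_mem hd.a0 (hm 1))) (mul_mem hd.q1 (hm 6))) (mul_mem hd.q0 (hm 7))) (mul_mem hd.n (hm 9))) (mul_mem hd.lam (hm 11))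
  · exact add_mem (add_mem (mul_mem hd.om (hm 0)) (mul_mem hd.pi (hm 6))) (mul_mem hd.ka (hm 9))

theorem actJ_mem {m : Fin 12 → K} (hm : ∀ i, m i ∈ L) (i : Fin 12) : actJ m i ∈ L := by
  fin_cases i
  · exact zero_mem L
  · exact hm 0
  · exact hm 1
  · exact hm 2
  · exact hm 3
  · exact hm 4
  · exact zero_mem L
  · exact hm 6
  · exact hm 7
  · exact zero_mem L
  · exact hm 9
  · exact zero_mem L

theorem XP_mem {d : Par K} (hd : InL L d) {t : Fin 5 → K} (ht : ∀ i, t i ∈ L)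
    (i j : Fin 12) : XP d t i j ∈ L := by
  have hm : ∀ a, (Pi.single j 1 : Fin 12 → K) a ∈ L := by
    intro a
    rw [Pi.single_apply]
    split_ifs
    · exact one_mem L
    · exact zero_mem L
  have h1 := actJ_mem hm
  have h2 := actJ_mem h1
  have h3 := actJ_mem h2
  have h4 := actJ_mem h3
  have h5 := actJ_mem h4
  rw [XP_col, XP_mulVec]
  exact add_mem (act_mem hd hm i) (add_mem (add_mem (add_mem (add_mem (mul_mem (ht 0) (h1 i)) (mul_mem (ht 1) (h2 i))) (mul_mem (ht 2) (h3 i))) (mul_mem (ht 3) (h4 i))) (mul_mem (ht 4) (h5 i)))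

theorem J_map : (J k).map (algebraMap k K) = J K := by
  ext i j
  fin_cases i <;> fin_cases j <;> simp [J]

theorem J_mem (i j : Fin 12) : J K i j ∈ L := by
  rw [← J_map (k := k)]
  exact L.algebraMap_mem _

end

/-- **there is no maximal bad triple of type `(6, 3, 2, 1)`** -/
theorem no_6321 {k : Type u} [Field k] [IsAlgClosed k] [CharZero k] (hall : HALL k 12)
    {ρ : ℕ → ℕ} {T : Fin 3 → Matrix (Fin 12) (Fin 12) k} (hT : MaxR ρ T)
    (hρ : ∀ i, ρ i = (J k ^ i).rank) (h0 : T 0 = J k) : False := by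
  have hr : ∀ i, (T 0 ^ i).rank = ρ i := fun i => by rw [h0, hρ]
  have hr1 : 8 ≤ ρ 1 := by
    rw [hρ, pow_one]
    exact le_rank
  obtain ⟨K, i1, i2, i3, i4, T', hT', h0', -, hrk⟩ := auto_maxR (n := Fin 12)
    (by rw [Fintype.card_fin]; exact hall) hT hr (by simp) (by rw [Fintype.card_fin]; omega)
  rw [h0, J_map] at h0'
  have hρ' : ∀ i, ρ i = (J K ^ i).rank := by
    intro i
    rw [hρ, ← J_map (k := k) (K := K)]
    have h1 : ((J k).map (algebraMap k K)) ^ i = (J k ^ i).map (algebraMap k K) :=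
      (map_pow (algebraMap k K).mapMatrix (J k) i).symm
    rw [h1]
    exact (rank_map_eq (J k ^ i)).symm
  have : Infinite K := IsAlgClosed.instInfinite
  obtain ⟨d, e, t, t', hTe, hM, hR⟩ := MaxR.shape hT' h0'
  obtain ⟨u, hu⟩ := few (k := k) (Or.inl rfl) hR (rk1 hM hρ') (rk2 hM hρ')
  let w : Fin 31 ⊕ Fin 5 ⊕ Fin 5 → K := Sum.elim u (Sum.elim t t')
  have hw : ∀ a, w a ∈ FF k (Set.range w) := fun a => mem_FF_self ⟨a, rfl⟩
  obtain ⟨hd, he⟩ := hu (FF k (Set.range w)) fun i => hw (Sum.inl i)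
  have h1 : rk k (Set.range (co T')) ≤ Fintype.card (Fin 31 ⊕ Fin 5 ⊕ Fin 5) := by
    refine rk_le_card (k := k) w ?_
    rintro _ ⟨⟨i, a, b⟩, rfl⟩
    show T' i a b ∈ FF k (Set.range w)
    rw [hTe]
    fin_cases i
    · exact J_mem a b
    · exact XP_mem hd (fun i => hw (Sum.inr (Sum.inl i))) a b
    · exact XP_mem he (fun i => hw (Sum.inr (Sum.inr i))) a b
  have h2 := hrk.trans h1
  have h3 : 32 ≤ Module.finrank k (cen (T 0)) := by
    rw [h0]
    exact le_finrank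
  have h4 : Module.finrank k (cen (T 0)) + Fintype.card (Fin 12) - 2 ≤
      Fintype.card (Fin 31 ⊕ Fin 5 ⊕ Fin 5) := by exact_mod_cast h2
  simp only [Fintype.card_sum, Fintype.card_fin] at h4
  omega

end Pool.Agent.Lib.D13.Q.L6
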