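import Pool.Agent.Lib.D13.Cell

/-!
# MP_5dcbc3_ag: the base point of the algebras `T(p, q, r)`

`K = k[t] / t ^ n`, `n = p 0 + p 1 + p 2 - 1`; `x l = t / (c l - t)` for distinct nonzero `c l`;
basis `1, t, x l ^ m` (`1 ≤ m < p l`).
-/

set_option autoImplicit false

namespace Pool.Agent.Lib.D13.TM

open Matrix Pool.Agent.Lib.Q5dc Pool.Agent.Lib.D7

/-- index type of the basis: `none` is `1`, `some none` is `t` (the top level),
`some (some ⟨l, m⟩)` is `x l ^ (m + 1)` -/
abbrev Ix (p : Fin 3 → ℕ) := Option (Option (Σ l : Fin 3, Fin (p l - 1)))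

/-- levels -/
def lev (p δ : Fin 3 → ℕ) (L : ℕ) : Ix p → ℕ
  | none => 0
  | some none => L
  | some (some a) => ((a.2 : ℕ) + 1) * δ a.1

/-- the leading matrix of `x i` -/
def Ld {k : Type*} [Field k] (p : Fin 3 → ℕ) (lam : Fin 3 → k) (i : Fin 3) (x y : Ix p) : k :=
  match x, y with
  | some (some a), none => if a.1 = i ∧ (a.2 : ℕ) = 0 then 1 else 0
  | some (some a), some (some b) => if a.1 = i ∧ b.1 = i ∧ (a.2 : ℕ) = (b.2 : ℕ) + 1 then 1 else 0
  | some none, some (some b) => if b.1 = i ∧ (b.2 : ℕ) + 2 = p i then lam i else 0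
  | _, _ => 0

/-! ### the base algebra, abstractly -/

/-- the base algebra with its basis -/
structure Bs {k K : Type*} [Field k] [CommRing K] [Algebra k K] (p δ : Fin 3 → ℕ) (L : ℕ)
    (c : Fin 3 → k) (t : K) (Q : Fin 3 → K) (b : Module.Basis (Ix p) k K) : Prop where
  hp : ∀ i, 2 ≤ p i
  hδ : ∀ i, 1 ≤ δ i
  hL : ∀ i, p i * δ i = L
  c0 : ∀ i, c i ≠ 0
  cne : ∀ i j, i ≠ j → c j - c i ≠ 0
  hQ : ∀ l, (algebraMap k K (c l) - t) * Q l = 1
  b1 : b none = 1
  bt : b (some none) = t
  bx : ∀ a, b (some (some a)) = (t * Q a.1) ^ ((a.2 : ℕ) + 1)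
  nil : ∃ n, t ^ n = 0

section abs

variable {k K : Type*} [Field k] [CommRing K] [Algebra k K] {p δ : Fin 3 → ℕ} {L : ℕ}
  {c : Fin 3 → k} {t : K} {Q : Fin 3 → K}

/-- `x j * x i = α i j x i + α j i x j` -/
def al (c : Fin 3 → k) (i j : Fin 3) : k := c i / (c j - c i)

theorem r2 {i : Fin 3} (hQ : (algebraMap k K (c i) - t) * Q i = 1) :
    algebraMap k K (c i) * Q i = 1 + t * Q i := by
  linear_combination hQ

theorem r4 {i j : Fin 3} (hi : (algebraMap k K (c i) - t) * Q i = 1)
    (hj : (algebraMap k K (c j) - t) * Q j = 1) :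
    (algebraMap k K (c j) - algebraMap k K (c i)) * (t * Q i * (t * Q j)) =
      algebraMap k K (c i) * (t * Q i) - algebraMap k K (c j) * (t * Q j) := by
  linear_combination t * (t * Q i) * hj - t * (t * Q j) * hi - t * hi + t * hj

theorem mulx {i j : Fin 3} (hi : (algebraMap k K (c i) - t) * Q i = 1)
    (hj : (algebraMap k K (c j) - t) * Q j = 1) (h : c j - c i ≠ 0) :
    t * Q i * (t * Q j) = al c i j • (t * Q i) + al c j i • (t * Q j) := by
  have h' : c i - c j ≠ 0 := by
    intro h1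
    exact h (by linear_combination -h1)
  have h1 : al c i j * (c j - c i) = c i := div_mul_cancel₀ _ h
  have h2 : al c j i * (c j - c i) = - c j := by
    have : al c j i * (c i - c j) = c j := div_mul_cancel₀ _ h'
    linear_combination -this
  have e1 := congrArg (algebraMap k K) h1
  have e2 := congrArg (algebraMap k K) h2
  simp only [map_mul, map_sub, map_neg] at e1 e2
  have hu : algebraMap k K ((c j - c i)⁻¹) * (algebraMap k K (c j) - algebraMap k K (c i)) = 1 := by
    rw [← map_sub, ← map_mul, inv_mul_cancel₀ h, map_one]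
  simp only [Algebra.smul_def]
  have r := r4 hi hj
  linear_combination (algebraMap k K ((c j - c i)⁻¹)) * r
    - (t * Q i * (t * Q j) - algebraMap k K (al c i j) * (t * Q i)
        - algebraMap k K (al c j i) * (t * Q j)) * hu
    - (algebraMap k K ((c j - c i)⁻¹)) * (t * Q i) * e1
    - (algebraMap k K ((c j - c i)⁻¹)) * (t * Q j) * e2

theorem tx {i : Fin 3} (hi : (algebraMap k K (c i) - t) * Q i = 1) (m : ℕ) :
    t * (t * Q i) ^ (m + 1) = c i • (t * Q i) ^ (m + 1) - t * (t * Q i) ^ m := by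
  simp only [Algebra.smul_def]
  linear_combination -(t * (t * Q i) ^ m) * hi

theorem tx_mem {i : Fin 3} (hi : (algebraMap k K (c i) - t) * Q i = 1) (W : Submodule k K)
    (m : ℕ) (ht : t ∈ W) (h : ∀ a, 1 ≤ a → a ≤ m → (t * Q i) ^ a ∈ W) :
    t * (t * Q i) ^ m ∈ W := by
  induction m with
  | zero => simpa using ht
  | succ m ih =>
    rw [tx hi]
    exact W.sub_mem (W.smul_mem _ (h _ (by omega) le_rfl))
      (ih fun a h1 h2 => h a h1 (by omega))

theorem ttx_mem {i : Fin 3} (hi : (algebraMap k K (c i) - t) * Q i = 1) (W : Submodule k K)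
    (m : ℕ) (ht : t ∈ W) (htt : t * t ∈ W) (h : ∀ a, 1 ≤ a → a ≤ m → (t * Q i) ^ a ∈ W) :
    t * (t * (t * Q i) ^ m) ∈ W := by
  have := tx_mem hi (W.comap (LinearMap.mulLeft k t)) m htt (by
    intro a h1 h2
    exact tx_mem hi W a ht fun a' h3 h4 => h a' h3 (by omega))
  exact this

/-- `x i * x j ^ m` lies in the span of `x i` and the `x j ^ a` -/
theorem xx_mem {i j : Fin 3} (hi : (algebraMap k K (c i) - t) * Q i = 1)
    (hj : (algebraMap k K (c j) - t) * Q j = 1) (h : c j - c i ≠ 0) (W : Submodule k K)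
    (m : ℕ) (hx : t * Q i ∈ W) (hm : ∀ a, 1 ≤ a → a ≤ m → (t * Q j) ^ a ∈ W) :
    t * Q i * (t * Q j) ^ m ∈ W := by
  induction m with
  | zero => simpa using hx
  | succ m ih =>
    have e : t * Q i * (t * Q j) ^ (m + 1) =
        al c i j • (t * Q i * (t * Q j) ^ m) + al c j i • (t * Q j) ^ (m + 1) := by
      have := mulx hi hj h
      simp only [Algebra.smul_def] at this ⊢
      linear_combination (t * Q j) ^ m * this
    rw [e]
    exact W.add_mem (W.smul_mem _ (ih fun a h1 h2 => hm a h1 (by omega)))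
      (W.smul_mem _ (hm _ (by omega) le_rfl))

/-- the same for three different elements -/
theorem xxx_mem {i j l : Fin 3} (hi : (algebraMap k K (c i) - t) * Q i = 1)
    (hj : (algebraMap k K (c j) - t) * Q j = 1) (hl : (algebraMap k K (c l) - t) * Q l = 1)
    (h : c j - c i ≠ 0) (h1 : c l - c i ≠ 0) (h2 : c l - c j ≠ 0) (W : Submodule k K)
    (m : ℕ) (hx : t * Q i ∈ W) (hy : t * Q j ∈ W)
    (hm : ∀ a, 1 ≤ a → a ≤ m → (t * Q l) ^ a ∈ W) :
    t * Q i * (t * Q j * (t * Q l) ^ m) ∈ W := by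
  have := xx_mem hj hl h2 (W.comap (LinearMap.mulLeft k (t * Q i))) m (by
      change t * Q i * (t * Q j) ∈ W
      rw [mulx hi hj h]
      exact W.add_mem (W.smul_mem _ hx) (W.smul_mem _ hy)) (by
    intro a h3 h4
    exact xx_mem hi hl h1 W a hx fun a' h5 h6 => hm a' h5 (by omega))
  exact this

/-- (6) -/
theorem r6 {i j : Fin 3} (hi : (algebraMap k K (c i) - t) * Q i = 1)
    (h : c j - c i ≠ 0) :
    t * Q i - algebraMap k K (al c j i) =
      algebraMap k K (al c i j) * ((algebraMap k K (c j) - t) * Q i) := by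
  have h' : c i - c j ≠ 0 := by
    intro h1
    exact h (by linear_combination -h1)
  have h1 : al c i j * (c j - c i) = c i := div_mul_cancel₀ _ h
  have h2 : al c j i * (c j - c i) = - c j := by
    have : al c j i * (c i - c j) = c j := div_mul_cancel₀ _ h'
    linear_combination -this
  have e1 := congrArg (algebraMap k K) h1
  have e2 := congrArg (algebraMap k K) h2
  simp only [map_mul, map_sub, map_neg] at e1 e2
  have hu : algebraMap k K ((c j - c i)⁻¹) * (algebraMap k K (c j) - algebraMap k K (c i)) = 1 := by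
    rw [← map_sub, ← map_mul, inv_mul_cancel₀ h, map_one]
  linear_combination (-1 : K) * (t * Q i - algebraMap k K (al c j i)
      - algebraMap k K (al c i j) * ((algebraMap k K (c j) - t) * Q i)) * hu
    - algebraMap k K ((c j - c i)⁻¹) * e2
    - algebraMap k K ((c j - c i)⁻¹) * ((algebraMap k K (c j) - t) * Q i) * e1
    - algebraMap k K ((c j - c i)⁻¹) * algebraMap k K (c j) * hi

end abs

namespace Bs

variable {k K : Type*} [Field k] [CommRing K] [Algebra k K] {p δ : Fin 3 → ℕ} {L : ℕ}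
  {c : Fin 3 → k} {t : K} {Q : Fin 3 → K} {b : Module.Basis (Ix p) k K}

/-- elements supported on a set of basis elements -/
def Sp (b : Module.Basis (Ix p) k K) (S : Ix p → Prop) : Submodule k K where
  carrier := {a | ∀ y, ¬ S y → b.repr a y = 0}
  add_mem' := by
    intro a a' h h' y hy
    rw [map_add, Finsupp.add_apply, h y hy, h' y hy, add_zero]
  zero_mem' := by
    intro y _
    rw [map_zero, Finsupp.zero_apply]
  smul_mem' := by
    intro r a h y hy
    rw [map_smul, Finsupp.smul_apply, h y hy, smul_zero]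

theorem mem_Sp {S : Ix p → Prop} {a : K} : a ∈ Sp b S ↔ ∀ y, ¬ S y → b.repr a y = 0 := Iff.rfl

theorem b_mem {S : Ix p → Prop} {y : Ix p} (h : S y) : b y ∈ Sp b S := by
  intro z hz
  rw [Module.Basis.repr_self, Finsupp.single_apply, if_neg]
  rintro rfl
  exact hz h

theorem Sp_le {S : Ix p → Prop} {W : Submodule k K} (h : ∀ y, S y → b y ∈ W) {a : K}
    (ha : a ∈ Sp b S) : a ∈ W := by
  rw [← b.sum_repr a]
  refine W.sum_mem fun y _ => ?_
  by_cases hy : S y
  · exact W.smul_mem _ (h y hy)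
  · rw [ha y hy, zero_smul]
    exact W.zero_mem

theorem Sp_mono {S S' : Ix p → Prop} (h : ∀ y, S y → S' y) {a : K} (ha : a ∈ Sp b S) :
    a ∈ Sp b S' := fun y hy => ha y fun h1 => hy (h y h1)

/-- the elements of level `≤ d` -/
abbrev D (δ : Fin 3 → ℕ) (L : ℕ) (b : Module.Basis (Ix p) k K) (d : ℕ) : Submodule k K :=
  Sp b fun y => lev p δ L y ≤ d

theorem D_mono {d d' : ℕ} (h : d ≤ d') {a : K} (ha : a ∈ D δ L b d) : a ∈ D δ L b d' :=
  Sp_mono (fun _ hy => hy.trans h) ha

theorem lev_le (B : Bs p δ L c t Q b) (y : Ix p) : lev p δ L y ≤ L := by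
  rcases y with _ | _ | ⟨l, m⟩
  · exact Nat.zero_le _
  · exact le_rfl
  · have h1 : (m : ℕ) < p l - 1 := m.2
    change ((m : ℕ) + 1) * δ l ≤ L
    rw [← B.hL l]
    exact Nat.mul_le_mul_right _ (by omega)

theorem D_top (B : Bs p δ L c t Q b) {d : ℕ} (h : L ≤ d) (a : K) : a ∈ D δ L b d := by
  intro y hy
  exact absurd ((B.lev_le y).trans h) hy

theorem pow_mem (B : Bs p δ L c t Q b) (l : Fin 3) (a : ℕ) {d : ℕ} (h : a * δ l ≤ d) :
    (t * Q l) ^ a ∈ D δ L b d := by
  rcases Nat.eq_zero_or_pos a with rfl | ha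
  · rw [pow_zero, ← B.b1]
    exact b_mem (Nat.zero_le _)
  · by_cases h1 : a < p l
    · have h2 : b (some (some ⟨l, ⟨a - 1, by omega⟩⟩)) = (t * Q l) ^ a := by
        rw [B.bx]
        congr 1
        simp only
        omega
      rw [← h2]
      refine b_mem ?_
      simp only [lev]
      have : a - 1 + 1 = a := by omega
      rw [this]
      exact h
    · refine B.D_top ?_ _
      rw [← B.hL l]
      exact (Nat.mul_le_mul_right _ (by omega)).trans h

theorem t_mem (B : Bs p δ L c t Q b) {d : ℕ} (h : L ≤ d) : t ∈ D δ L b d := B.D_top h _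

theorem x_mem (B : Bs p δ L c t Q b) (l : Fin 3) {d : ℕ} (h : δ l ≤ d) :
    t * Q l ∈ D δ L b d := by
  simpa using B.pow_mem l 1 (d := d) (by simpa using h)

theorem xpow_mem (B : Bs p δ L c t Q b) {i l : Fin 3} (hil : i ≠ l) (a : ℕ) {d : ℕ}
    (hi : δ i ≤ d) (h : a * δ l ≤ d) : t * Q i * (t * Q l) ^ a ∈ D δ L b d :=
  xx_mem (B.hQ i) (B.hQ l) (B.cne _ _ hil) _ a (B.x_mem i hi) fun a' _ h2 =>
    B.pow_mem l a' ((Nat.mul_le_mul_right _ h2).trans h)

theorem xxpow_mem (B : Bs p δ L c t Q b) {i j l : Fin 3} (hij : i ≠ j) (hil : i ≠ l)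
    (hjl : j ≠ l) (a : ℕ) {d : ℕ}
    (hi : δ i ≤ d) (hj : δ j ≤ d) (h : a * δ l ≤ d) :
    t * Q i * (t * Q j * (t * Q l) ^ a) ∈ D δ L b d :=
  xxx_mem (B.hQ i) (B.hQ j) (B.hQ l) (B.cne _ _ hij) (B.cne _ _ hil) (B.cne _ _ hjl) _ a
    (B.x_mem i hi) (B.x_mem j hj) fun a' _ h2 =>
    B.pow_mem l a' ((Nat.mul_le_mul_right _ h2).trans h)

/-- (7), different index -/
theorem step_ne (B : Bs p δ L c t Q b) {i j : Fin 3} (hij : i ≠ j) (m : ℕ) (hm : 1 ≤ m) {d : ℕ}
    (h : m * δ j + δ i ≤ d + 1) : t * Q i * (t * Q j) ^ m ∈ D δ L b d := by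
  have h1 := B.hδ i
  have h2 := B.hδ j
  have h3 : 1 * 1 ≤ m * δ j := Nat.mul_le_mul hm h2
  exact B.xpow_mem hij m (by omega) (by omega)

/-- (7) -/
theorem step (B : Bs p δ L c t Q b) (i : Fin 3) (y : Ix p) {d : ℕ} (h : lev p δ L y + δ i ≤ d) :
    t * Q i * b y ∈ D δ L b d := by
  rcases y with _ | _ | ⟨l, m⟩
  · rw [B.b1, mul_one]
    exact B.x_mem i (by simpa [lev] using h)
  · exact B.D_top (by simp only [lev] at h; omega) _
  · replace h : ((m : ℕ) + 1) * δ l + δ i ≤ d := h
    rw [B.bx]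
    change t * Q i * (t * Q l) ^ ((m : ℕ) + 1) ∈ _
    by_cases hil : i = l
    · subst hil
      rw [← pow_succ']
      refine B.pow_mem _ _ ?_
      have : ((m : ℕ) + 1 + 1) * δ i = ((m : ℕ) + 1) * δ i + δ i := by ring
      rw [this]
      exact h
    · exact B.step_ne hil _ (by omega) (by omega)

/-- multiplication by `x i` raises the level by at most `δ i` -/
theorem xD (B : Bs p δ L c t Q b) (i : Fin 3) {d d' : ℕ} (h : d + δ i ≤ d') {a : K}
    (ha : a ∈ D δ L b d) : t * Q i * a ∈ D δ L b d' := by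
  have : a ∈ (D δ L b d').comap (LinearMap.mulLeft k (t * Q i)) :=
    Sp_le (fun y hy => B.step i y (by
      have : lev p δ L y ≤ d := hy
      omega)) ha
  exact this

end Bs

namespace Bs

variable {k K : Type*} [Field k] [CommRing K] [Algebra k K] {p δ : Fin 3 → ℕ} {L : ℕ}
  {c : Fin 3 → k} {t : K} {Q : Fin 3 → K} {b : Module.Basis (Ix p) k K}

theorem Qeq (B : Bs p δ L c t Q b) (i : Fin 3) : Q i = (c i)⁻¹ • (1 + t * Q i) := by
  rw [← r2 (B.hQ i), ← Algebra.smul_def, smul_smul, inv_mul_cancel₀ (B.c0 i), one_smul]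

theorem QQ_mem (B : Bs p δ L c t Q b) (i j : Fin 3) (W : Submodule k K) {u : K} (h0 : u ∈ W)
    (h1 : t * Q i * u ∈ W) (h2 : t * Q j * u ∈ W) (h3 : t * Q i * (t * Q j * u) ∈ W) :
    Q i * Q j * u ∈ W := by
  have e : Q i * Q j * u = ((c i)⁻¹ * (c j)⁻¹) •
      (u + t * Q i * u + t * Q j * u + t * Q i * (t * Q j * u)) := by
    have hi := B.Qeq i
    have hj := B.Qeq j
    simp only [Algebra.smul_def, map_mul] at hi hj ⊢
    linear_combination (Q j * u) * hi +
      (algebraMap k K (c i)⁻¹ * (1 + t * Q i) * u) * hj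
  rw [e]
  exact W.smul_mem _ (W.add_mem (W.add_mem (W.add_mem h0 h1) h2) h3)

/-- the elements `z` with `Q i Q j z` of low level -/
abbrev Zs (δ : Fin 3 → ℕ) (L : ℕ) (b : Module.Basis (Ix p) k K) (Q : Fin 3 → K) (q : ℕ)
    (i j : Fin 3) : Submodule k K :=
  (D δ L b (δ i + δ j + q)).comap (LinearMap.mulLeft k (Q i * Q j))

theorem mem_Zs {q : ℕ} {i j : Fin 3} {z : K} :
    z ∈ Zs δ L b Q q i j ↔ Q i * Q j * z ∈ D δ L b (δ i + δ j + q) := Iff.rfl

theorem one_Zs (B : Bs p δ L c t Q b) {q : ℕ} {i j : Fin 3} (hij : i ≠ j) :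
    (1 : K) ∈ Zs δ L b Q q i j := by
  rw [mem_Zs]
  refine B.QQ_mem i j _ ?_ ?_ ?_ ?_
  · simpa using B.pow_mem i 0 (d := δ i + δ j + q) (by omega)
  · simpa using B.x_mem i (d := δ i + δ j + q) (by omega)
  · simpa using B.x_mem j (d := δ i + δ j + q) (by omega)
  · simpa using B.xpow_mem hij 1 (d := δ i + δ j + q) (by omega) (by omega)

theorem t_Zs (B : Bs p δ L c t Q b) {q : ℕ} {i j : Fin 3} (hij : i ≠ j) :
    t ∈ Zs δ L b Q q i j := by
  rw [mem_Zs]
  have e : Q i * Q j * t = (c i)⁻¹ • (t * Q j + t * Q i * (t * Q j) ^ 1) := by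
    have hi := B.Qeq i
    simp only [Algebra.smul_def] at hi ⊢
    linear_combination (Q j * t) * hi
  rw [e]
  exact Submodule.smul_mem _ _ (Submodule.add_mem _ (B.x_mem j (by omega))
    (B.xpow_mem hij 1 (by omega) (by omega)))

theorem tt_Zs (B : Bs p δ L c t Q b) {q : ℕ} {i j : Fin 3} (hij : i ≠ j) :
    t * t ∈ Zs δ L b Q q i j := by
  rw [mem_Zs]
  have e : Q i * Q j * (t * t) = t * Q i * (t * Q j) ^ 1 := by ring
  rw [e]
  exact B.xpow_mem hij 1 (by omega) (by omega)

theorem x_Zs (B : Bs p δ L c t Q b) {q : ℕ} {i j l : Fin 3} (hij : i ≠ j) (hil : i ≠ l)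
    (hjl : j ≠ l) (m : ℕ) (hm : m * δ l ≤ δ i + δ j + q) :
    (t * Q l) ^ m ∈ Zs δ L b Q q i j := by
  rw [mem_Zs]
  exact B.QQ_mem i j _ (B.pow_mem l m hm) (B.xpow_mem hil m (by omega) hm)
    (B.xpow_mem hjl m (by omega) hm) (B.xxpow_mem hij hil hjl m (by omega) (by omega) hm)

/-- the sum of the three spaces -/
abbrev Wz (δ : Fin 3 → ℕ) (L : ℕ) (b : Module.Basis (Ix p) k K) (Q : Fin 3 → K) (q : ℕ) :
    Submodule k K :=
  Zs δ L b Q q 0 1 ⊔ Zs δ L b Q q 1 2 ⊔ Zs δ L b Q q 2 0

theorem Wz01 {q : ℕ} {z : K} (h : z ∈ Zs δ L b Q q 0 1) : z ∈ Wz δ L b Q q :=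
  Submodule.mem_sup_left (Submodule.mem_sup_left h)

theorem Wz12 {q : ℕ} {z : K} (h : z ∈ Zs δ L b Q q 1 2) : z ∈ Wz δ L b Q q :=
  Submodule.mem_sup_left (Submodule.mem_sup_right h)

theorem Wz20 {q : ℕ} {z : K} (h : z ∈ Zs δ L b Q q 2 0) : z ∈ Wz δ L b Q q :=
  Submodule.mem_sup_right h

theorem xW (B : Bs p δ L c t Q b) {q : ℕ} (l : Fin 3) (m : ℕ)
    (h : m * δ l + δ l ≤ δ 0 + δ 1 + δ 2 + q) : (t * Q l) ^ m ∈ Wz δ L b Q q := by
  fin_cases l
  · replace h : m * δ 0 + δ 0 ≤ δ 0 + δ 1 + δ 2 + q := h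
    exact Wz12 (B.x_Zs (by decide) (by decide) (by decide) m (by change m * δ 0 ≤ _; omega))
  · replace h : m * δ 1 + δ 1 ≤ δ 0 + δ 1 + δ 2 + q := h
    exact Wz20 (B.x_Zs (by decide) (by decide) (by decide) m (by change m * δ 1 ≤ _; omega))
  · replace h : m * δ 2 + δ 2 ≤ δ 0 + δ 1 + δ 2 + q := h
    exact Wz01 (B.x_Zs (by decide) (by decide) (by decide) m (by change m * δ 2 ≤ _; omega))

/-- products with `P i` -/
theorem PxW (B : Bs p δ L c t Q b) {q : ℕ} (i l : Fin 3) (m : ℕ)
    (h : m * δ l + δ l ≤ δ 0 + δ 1 + δ 2 + q) :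
    (algebraMap k K (c i) - t) * (t * (t * Q l) ^ m) ∈ Wz δ L b Q q := by
  have hx : ∀ a, 1 ≤ a → a ≤ m → (t * Q l) ^ a ∈ Wz δ L b Q q := fun a _ h2 =>
    B.xW l a ((Nat.add_le_add_right (Nat.mul_le_mul_right _ h2) _).trans h)
  have ht : t ∈ Wz δ L b Q q := Wz01 (B.t_Zs (by decide))
  have htt : t * t ∈ Wz δ L b Q q := Wz01 (B.tt_Zs (by decide))
  rw [sub_mul, ← Algebra.smul_def]
  exact Submodule.sub_mem _ (Submodule.smul_mem _ _ (tx_mem (B.hQ l) _ m ht hx))
    (ttx_mem (B.hQ l) _ m ht htt hx)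

theorem PPxW (B : Bs p δ L c t Q b) {q : ℕ} (i j l : Fin 3) (m : ℕ)
    (h : m * δ l + δ l ≤ δ 0 + δ 1 + δ 2 + q) :
    (algebraMap k K (c i) - t) * ((algebraMap k K (c j) - t) * (t * Q l) ^ m) ∈
      Wz δ L b Q q := by
  have e : (algebraMap k K (c i) - t) * ((algebraMap k K (c j) - t) * (t * Q l) ^ m) =
      c j • (c i • (t * Q l) ^ m - t * (t * Q l) ^ m) -
        (algebraMap k K (c i) - t) * (t * (t * Q l) ^ m) := by
    simp only [Algebra.smul_def]
    ring
  have hx : ∀ a, 1 ≤ a → a ≤ m → (t * Q l) ^ a ∈ Wz δ L b Q q := fun a _ h2 =>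
    B.xW l a ((Nat.add_le_add_right (Nat.mul_le_mul_right _ h2) _).trans h)
  have ht : t ∈ Wz δ L b Q q := Wz01 (B.t_Zs (by decide))
  rw [e]
  exact Submodule.sub_mem _ (Submodule.smul_mem _ _ (Submodule.sub_mem _
    (Submodule.smul_mem _ _ (B.xW l m h)) (tx_mem (B.hQ l) _ m ht hx))) (B.PxW i l m h)

/-- the decomposition -/
theorem claim (B : Bs p δ L c t Q b) {q : ℕ} {Z d2 d0 : K}
    (hZ2 : Z = (algebraMap k K (c 0) - t) * ((algebraMap k K (c 1) - t) * d2))
    (hZ0 : Z = (algebraMap k K (c 1) - t) * ((algebraMap k K (c 2) - t) * d0))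
    (h2 : d2 ∈ D δ L b (δ 0 + δ 1 + δ 2 + q)) (h0 : d0 ∈ D δ L b (δ 0 + δ 1 + δ 2 + q)) :
    Z ∈ Wz δ L b Q q := by
  classical
  have hδ := B.hδ
  by_cases hsg : L ≤ δ 0 + δ 1 + δ 2 + q
  · have hall : Z ∈ Sp b fun _ => True := fun y hy => absurd trivial hy
    refine Sp_le (fun y _ => ?_) hall
    rcases y with _ | _ | ⟨l, m⟩
    · rw [B.b1]
      exact Wz01 (B.one_Zs (by decide))
    · rw [B.bt]
      exact Wz01 (B.t_Zs (by decide))
    · rw [B.bx]
      have h1 : (m : ℕ) < p l - 1 := m.2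
      refine B.xW l _ (le_trans ?_ hsg)
      have h3 : ((m : ℕ) + 1) * δ l + δ l = ((m : ℕ) + 2) * δ l := by ring
      rw [h3, ← B.hL l]
      exact Nat.mul_le_mul_right _ (by omega)
  · set sg := δ 0 + δ 1 + δ 2 + q with hsgd
    have hd2 : 0 < δ 2 := hδ 2
    obtain ⟨mu, hmu⟩ : ∃ mu, mu = sg / δ 2 := ⟨_, rfl⟩
    have h3 : mu * δ 2 ≤ sg := by rw [hmu]; exact Nat.div_mul_le_self _ _
    have h4 : ∀ a, a * δ 2 ≤ sg → a ≤ mu := fun a ha => by
      rw [hmu]; exact (Nat.le_div_iff_mul_le hd2).2 ha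
    have h5 : 1 ≤ mu := h4 1 (by omega)
    have h6 : mu < p 2 := by
      by_contra h
      have : p 2 * δ 2 ≤ mu * δ 2 := Nat.mul_le_mul_right _ (by omega)
      rw [B.hL 2] at this
      omega
    obtain ⟨Y, hY⟩ : ∃ Y : Ix p, Y = some (some ⟨2, ⟨mu - 1, by omega⟩⟩) := ⟨_, rfl⟩
    set V : Submodule k K := Sp b fun y => y ≠ Y with hV
    have hrho : ∀ a : K, a ∈ V ↔ b.repr a Y = 0 := by
      intro a
      rw [hV, mem_Sp]
      constructor
      · intro h
        exact h Y (by simp)
      · intro h y hy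
        have : y = Y := by
          by_contra h'
          exact hy h'
        rw [this, h]
    have htV : t ∈ V := by
      rw [← B.bt]
      exact b_mem (by rw [hY]; simp)
    have hxV : ∀ l m, (h : m + 1 < p l) → ((l : Fin 3) ≠ 2 ∨ m + 1 ≠ mu) →
        (t * Q l) ^ (m + 1) ∈ V := by
      intro l m h hlm
      have e : (t * Q l) ^ (m + 1) = b (some (some ⟨l, ⟨m, by omega⟩⟩)) :=
        (B.bx ⟨l, ⟨m, by omega⟩⟩).symm
      rw [e]
      refine b_mem ?_
      rw [hY]
      intro h'
      simp only [Option.some.injEq, Sigma.mk.inj_iff] at h'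
      obtain ⟨h8, h9⟩ := h'
      subst h8
      simp only [heq_eq_eq, Fin.mk.injEq] at h9
      rcases hlm with h10 | h10
      · exact h10 rfl
      · omega
    -- the coordinate of `t * d`
    have hrt : ∀ d ∈ D δ L b sg, b.repr (t * d) Y = c 2 * b.repr d Y := by
      intro d hd
      have hd' : d ∈ LinearMap.ker (((Finsupp.lapply Y : (Ix p →₀ k) →ₗ[k] k) ∘ₗ
          (b.repr : K →ₗ[k] (Ix p →₀ k))) ∘ₗ (LinearMap.mulLeft k t) -
          c 2 • ((Finsupp.lapply Y : (Ix p →₀ k) →ₗ[k] k) ∘ₗ (b.repr : K →ₗ[k] (Ix p →₀ k)))) := by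
        refine Sp_le (fun y hy => ?_) hd
        replace hy : lev p δ L y ≤ sg := hy
        rw [LinearMap.mem_ker]
        change b.repr (t * b y) Y - c 2 * b.repr (b y) Y = 0
        rcases y with _ | _ | ⟨l, m⟩
        · rw [B.b1, mul_one, (hrho t).1 htV, ← B.b1, Module.Basis.repr_self,
            Finsupp.single_apply, if_neg (by rw [hY]; simp)]
          simp
        · exact absurd hy (by change ¬ L ≤ sg; omega)
        · replace hy : ((m : ℕ) + 1) * δ l ≤ sg := hy
          have h1 : (m : ℕ) < p l - 1 := m.2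
          rw [B.bx]
          change b.repr (t * (t * Q l) ^ ((m : ℕ) + 1)) Y - c 2 * b.repr ((t * Q l) ^ ((m : ℕ) + 1)) Y = 0
          by_cases hl : l = 2
          · subst hl
            have h7 := h4 _ hy
            have h8 : t * (t * Q 2) ^ (m : ℕ) ∈ V := by
              refine tx_mem (B.hQ 2) V m htV fun a ha1 ha2 => ?_
              obtain ⟨a', rfl⟩ : ∃ a', a = a' + 1 := ⟨a - 1, by omega⟩
              exact hxV 2 a' (by omega) (Or.inr (by omega))
            rw [tx (B.hQ 2), map_sub, map_smul, Finsupp.sub_apply, Finsupp.smul_apply,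
              (hrho _).1 h8, smul_eq_mul, sub_zero, sub_self]
          · have h8 : t * (t * Q l) ^ ((m : ℕ) + 1) ∈ V := by
              refine tx_mem (B.hQ l) V _ htV fun a ha1 ha2 => ?_
              obtain ⟨a', rfl⟩ : ∃ a', a = a' + 1 := ⟨a - 1, by omega⟩
              exact hxV l a' (by omega) (Or.inl hl)
            rw [(hrho _).1 h8, (hrho _).1 (hxV l m (by omega) (Or.inl hl))]
            simp
      rw [LinearMap.mem_ker] at hd'
      change b.repr (t * d) Y - c 2 * b.repr d Y = 0 at hd'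
      exact sub_eq_zero.1 hd'
    have h7 : (algebraMap k K (c 0) - t) * d2 = (algebraMap k K (c 2) - t) * d0 := by
      linear_combination (-(algebraMap k K (c 0) - t) * d2 + (algebraMap k K (c 2) - t) * d0) *
        B.hQ 1 - Q 1 * hZ2 + Q 1 * hZ0
    have h8 : b.repr d2 Y = 0 := by
      have h9 := congrArg (fun a => b.repr a Y) h7
      simp only [sub_mul, ← Algebra.smul_def, map_sub, map_smul, Finsupp.sub_apply,
        Finsupp.smul_apply, smul_eq_mul] at h9
      rw [hrt d2 h2, hrt d0 h0] at h9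
      have h10 : (c 2 - c 0) * b.repr d2 Y = 0 := by linear_combination -h9
      exact (mul_eq_zero.1 h10).resolve_left (B.cne 0 2 (by decide))
    have h9 : d2 ∈ Sp b fun y => lev p δ L y ≤ sg ∧ y ≠ Y := by
      intro y hy
      by_cases h10 : y = Y
      · rw [h10, h8]
      · exact h2 y fun h11 => hy ⟨h11, h10⟩
    have h10 : d2 ∈ (Wz δ L b Q q).comap (LinearMap.mulLeft k
        ((algebraMap k K (c 0) - t) * (algebraMap k K (c 1) - t))) := by
      refine Sp_le (fun y hy => ?_) h9
      obtain ⟨hy1, hy2⟩ := hy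
      change (algebraMap k K (c 0) - t) * (algebraMap k K (c 1) - t) * b y ∈ Wz δ L b Q q
      rw [mul_assoc]
      rcases y with _ | _ | ⟨l, m⟩
      · rw [B.b1]
        have := B.PPxW 0 1 0 0 (q := q) (by omega)
        simpa using this
      · exact absurd hy1 (by change ¬ L ≤ sg; omega)
      · replace hy1 : ((m : ℕ) + 1) * δ l ≤ sg := hy1
        have h1 : (m : ℕ) < p l - 1 := m.2
        rw [B.bx]
        change (algebraMap k K (c 0) - t) * ((algebraMap k K (c 1) - t) *
          (t * Q l) ^ ((m : ℕ) + 1)) ∈ Wz δ L b Q q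
        have h11 : (m : ℕ) * δ l + δ l ≤ δ 0 + δ 1 + δ 2 + q := by
          have : (m : ℕ) * δ l + δ l = ((m : ℕ) + 1) * δ l := by ring
          omega
        by_cases hl0 : l = 0
        · subst hl0
          have e : (algebraMap k K (c 0) - t) * ((algebraMap k K (c 1) - t) *
              (t * Q 0) ^ ((m : ℕ) + 1)) = (algebraMap k K (c 1) - t) * (t * (t * Q 0) ^ (m : ℕ)) := by
            linear_combination ((algebraMap k K (c 1) - t) * t * (t * Q 0) ^ (m : ℕ)) * B.hQ 0
          rw [e]
          exact B.PxW 1 0 _ h11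
        · by_cases hl1 : l = 1
          · subst hl1
            have e : (algebraMap k K (c 0) - t) * ((algebraMap k K (c 1) - t) *
                (t * Q 1) ^ ((m : ℕ) + 1)) =
                (algebraMap k K (c 0) - t) * (t * (t * Q 1) ^ (m : ℕ)) := by
              linear_combination ((algebraMap k K (c 0) - t) * t * (t * Q 1) ^ (m : ℕ)) * B.hQ 1
            rw [e]
            exact B.PxW 0 1 _ h11
          · have hl2 : l = 2 := by omega
            subst hl2
            have h12 := h4 _ hy1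
            have h13 : (m : ℕ) + 1 ≠ mu := by
              intro h14
              apply hy2
              rw [hY]
              have : m = ⟨mu - 1, by omega⟩ := Fin.ext (by simp only; omega)
              rw [this]
            refine B.PPxW 0 1 2 _ ?_
            have h14 : ((m : ℕ) + 2) * δ 2 ≤ mu * δ 2 := Nat.mul_le_mul_right _ (by omega)
            have h15 : ((m : ℕ) + 1) * δ 2 + δ 2 = ((m : ℕ) + 2) * δ 2 := by ring
            omega
    have h11 : (algebraMap k K (c 0) - t) * (algebraMap k K (c 1) - t) * d2 ∈ Wz δ L b Q q := h10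
    rw [hZ2, ← mul_assoc]
    exact h11

end Bs

/-- a nonzero scalar -/
def th {k : Type*} [Field k] (c : Fin 3 → k) (i j : Fin 3) : k := (c j - c i) / (c i * c j)

/-- a scalar -/
def kap {k : Type*} [Field k] (c : Fin 3 → k) (i j l : Fin 3) : k :=
  (c l - c j) * (c l - c i) / (c i * c j * c l)

namespace Bs

variable {k K : Type*} [Field k] [CommRing K] [Algebra k K] {p δ : Fin 3 → ℕ} {L : ℕ}
  {c : Fin 3 → k} {t : K} {Q : Fin 3 → K} {b : Module.Basis (Ix p) k K}

theorem dvd_of_repr (B : Bs p δ L c t Q b) {a : K} (h : b.repr a none = 0) : t ∣ a := by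
  have h1 : a ∈ Sp b fun y => y ≠ none := by
    intro y hy
    have : y = none := by
      by_contra h'
      exact hy h'
    rw [this, h]
  have h2 : a ∈ (Ideal.span {t}).restrictScalars k := by
    refine Sp_le (fun y hy => ?_) h1
    rw [Submodule.restrictScalars_mem, Ideal.mem_span_singleton]
    rcases y with _ | _ | a
    · exact absurd rfl hy
    · rw [B.bt]
    · rw [B.bx, mul_pow, pow_succ t]
      exact ⟨t ^ (a.2 : ℕ) * Q a.1 ^ ((a.2 : ℕ) + 1), by ring⟩
  rwa [Submodule.restrictScalars_mem, Ideal.mem_span_singleton] at h2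

theorem exists_const (B : Bs p δ L c t Q b) (z : K) : ∃ r : k, t ∣ z - r • (1 : K) := by
  refine ⟨b.repr z none, B.dvd_of_repr ?_⟩
  rw [map_sub, map_smul, Finsupp.sub_apply, Finsupp.smul_apply, ← B.b1, Module.Basis.repr_self,
    Finsupp.single_eq_same, smul_eq_mul, mul_one, sub_self]

theorem Zid (B : Bs p δ L c t Q b) {i j l : Fin 3} (hil : i ≠ l) (hjl : j ≠ l)
    (x y z : K) :
    th c i j • ((algebraMap k K (c i) - t) * (algebraMap k K (c j) - t) * x) +
      th c j l • ((algebraMap k K (c j) - t) * (algebraMap k K (c l) - t) * y) +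
      th c l i • ((algebraMap k K (c l) - t) * (algebraMap k K (c i) - t) * z) =
    (algebraMap k K (c i) - t) * ((algebraMap k K (c j) - t) * (kap c i j l •
      ((t * Q i - algebraMap k K (al c l i)) * y - (t * Q j - algebraMap k K (al c l j)) * z -
        (al c i l - al c j l) • x))) := by
  have n1 := B.c0 i
  have n2 := B.c0 j
  have n3 := B.c0 l
  have n4 : c l - c i ≠ 0 := B.cne i l hil
  have n5 : c l - c j ≠ 0 := B.cne j l hjl
  have s1 : kap c i j l * al c i l = th c j l := by
    simp only [kap, al, th]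
    field_simp
  have s2 : kap c i j l * al c j l = - th c l i := by
    simp only [kap, al, th]
    field_simp
    ring
  have s3 : kap c i j l * (al c i l - al c j l) = - th c i j := by
    simp only [kap, al, th]
    field_simp
    ring
  have e1 := r6 (B.hQ i) n4
  have e2 := r6 (B.hQ j) n5
  have f1 := congrArg (algebraMap k K) s1
  have f2 := congrArg (algebraMap k K) s2
  have f3 := congrArg (algebraMap k K) s3
  have hi := B.hQ i
  have hj := B.hQ j
  simp only [map_mul, map_neg, map_sub] at f1 f2 f3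
  simp only [Algebra.smul_def, map_sub]
  linear_combination
    -(algebraMap k K (kap c i j l) * (algebraMap k K (c i) - t) * (algebraMap k K (c j) - t) * y) * e1
    + (algebraMap k K (kap c i j l) * (algebraMap k K (c i) - t) * (algebraMap k K (c j) - t) * z) * e2
    - (algebraMap k K (kap c i j l) * algebraMap k K (al c i l) * (algebraMap k K (c l) - t) *
        (algebraMap k K (c j) - t) * y) * hi
    + (algebraMap k K (kap c i j l) * algebraMap k K (al c j l) * (algebraMap k K (c l) - t) *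
        (algebraMap k K (c i) - t) * z) * hj
    - ((algebraMap k K (c l) - t) * (algebraMap k K (c j) - t) * y) * f1
    + ((algebraMap k K (c l) - t) * (algebraMap k K (c i) - t) * z) * f2
    + ((algebraMap k K (c i) - t) * (algebraMap k K (c j) - t) * x) * f3

/-- commutation defect -/
def cc (t : K) (Q : Fin 3 → K) (E : Fin 3 → K →ₗ[k] K) (i j : Fin 3) (u : K) : K :=
  t * Q i * E j u + E i (t * Q j * u) - t * Q j * E i u - E j (t * Q i * u)

/-- first defect -/
def psi (t : K) (Q : Fin 3 → K) (E : Fin 3 → K →ₗ[k] K) (i j : Fin 3) : K :=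
  E i (t * Q j) - t * Q j * E i 1

theorem cc_one (E : Fin 3 → K →ₗ[k] K) (i j : Fin 3) :
    cc t Q E i j 1 = psi t Q E i j - psi t Q E j i := by
  simp only [cc, psi, mul_one]
  ring

theorem cc_x (B : Bs p δ L c t Q b) (E : Fin 3 → K →ₗ[k] K) {i j l : Fin 3} (hil : i ≠ l)
    (hjl : j ≠ l) :
    cc t Q E i j (t * Q l) + (t * Q j - algebraMap k K (al c l j)) * cc t Q E i l 1 -
      al c i l • cc t Q E i j 1 =
    (t * Q i - algebraMap k K (al c l i)) * psi t Q E j l -
      (t * Q j - algebraMap k K (al c l j)) * psi t Q E l i - (al c i l - al c j l) • psi t Q E i j := by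
  have e1 := mulx (B.hQ i) (B.hQ l) (B.cne i l hil)
  have e2 := mulx (B.hQ j) (B.hQ l) (B.cne j l hjl)
  rw [cc_one, cc_one]
  simp only [cc]
  rw [e1, e2, map_add, map_smul, map_smul, map_add, map_smul, map_smul]
  simp only [psi, Algebra.smul_def, map_sub] at e1 e2 ⊢
  linear_combination (E j 1) * e1 - (E i 1) * e2

/-- LEMMA S -/
theorem lemS (B : Bs p δ L c t Q b) (E : Fin 3 → K →ₗ[k] K) {q : ℕ}
    (H1 : ∀ i y, b.repr (E i (b y)) none = 0)
    (H2 : ∀ i j z, cc t Q E i j (b z) ∈ D δ L b (lev p δ L z + δ i + δ j + q)) :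
    ∃ a : Fin 3 → K, (∀ i, t ∣ a i) ∧ ∀ i j, i ≠ j →
      (t * Q i - algebraMap k K (al c j i)) * a j + (t * Q j - algebraMap k K (al c i j)) * a i -
        psi t Q E i j ∈ D δ L b (δ i + δ j + q) := by
  have hx : ∀ l, b (some (some ⟨l, ⟨0, by have := B.hp l; omega⟩⟩)) = t * Q l := by
    intro l
    rw [B.bx]
    simp
  have hpsi : ∀ i j, t ∣ psi t Q E i j := by
    intro i j
    rw [psi]
    refine dvd_sub ?_ ?_
    · rw [← hx j]
      exact B.dvd_of_repr (H1 i _)
    · exact ⟨Q j * E i 1, by ring⟩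
  have hc1 : ∀ i j, cc t Q E i j 1 ∈ D δ L b (δ i + δ j + q) := by
    intro i j
    have := H2 i j none
    rw [B.b1] at this
    simpa [lev] using this
  have hcx : ∀ i j l, cc t Q E i j (t * Q l) ∈ D δ L b (δ l + δ i + δ j + q) := by
    intro i j l
    have := H2 i j (some (some ⟨l, ⟨0, by have := B.hp l; omega⟩⟩))
    rw [hx] at this
    simpa [lev] using this
  have hF : ∀ i j l, i ≠ l → j ≠ l →
      (t * Q i - algebraMap k K (al c l i)) * psi t Q E j l -
      (t * Q j - algebraMap k K (al c l j)) * psi t Q E l i -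
      (al c i l - al c j l) • psi t Q E i j ∈ D δ L b (δ l + δ i + δ j + q) := by
    intro i j l hil hjl
    rw [← B.cc_x E hil hjl, sub_mul, ← Algebra.smul_def]
    refine Submodule.sub_mem _ (Submodule.add_mem _ (hcx i j l) (Submodule.sub_mem _ ?_ ?_)) ?_
    · exact B.xD j (d := δ i + δ l + q) (by omega) (hc1 i l)
    · exact Submodule.smul_mem _ _ (D_mono (by omega) (hc1 i l))
    · exact Submodule.smul_mem _ _ (D_mono (by omega) (hc1 i j))
  set P : Fin 3 → K := fun i => algebraMap k K (c i) - t with hP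
  set Ps : Fin 3 → Fin 3 → K := fun i j => th c i j • (P i * P j * psi t Q E i j) with hPs
  have hPsd : ∀ i j, t ∣ Ps i j := by
    intro i j
    obtain ⟨w, hw⟩ := hpsi i j
    refine ⟨th c i j • (P i * P j * w), ?_⟩
    simp only [hPs, hw, Algebra.smul_def]
    ring
  set Z : K := Ps 0 1 + Ps 1 2 + Ps 2 0 with hZ
  have hZd : t ∣ Z := dvd_add (dvd_add (hPsd _ _) (hPsd _ _)) (hPsd _ _)
  have hZW : Z ∈ Wz δ L b Q q := by
    have g1 := B.Zid (i := 0) (j := 1) (l := 2) (by decide) (by decide)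
      (psi t Q E 0 1) (psi t Q E 1 2) (psi t Q E 2 0)
    have g2 := B.Zid (i := 1) (j := 2) (l := 0) (by decide) (by decide)
      (psi t Q E 1 2) (psi t Q E 2 0) (psi t Q E 0 1)
    have g1' : Z = _ := g1
    have g2' := Eq.trans (show Z = _ by
      simp only [hZ, hPs, hP]
      ring) g2
    refine B.claim g1' g2' (Submodule.smul_mem _ _ (D_mono ?_ (hF 0 1 2 (by decide) (by decide))))
      (Submodule.smul_mem _ _ (D_mono ?_ (hF 1 2 0 (by decide) (by decide))))
    · omega
    · omega
  obtain ⟨w, hw, z20, hz20, hw2⟩ := Submodule.mem_sup.1 hZW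
  obtain ⟨z01, hz01, z12, hz12, hw3⟩ := Submodule.mem_sup.1 hw
  obtain ⟨r01, h01⟩ := B.exists_const z01
  obtain ⟨r12, h12⟩ := B.exists_const z12
  -- the elements `A i`
  set A : Fin 3 → K := ![0, Ps 0 1 - (z01 - r01 • 1), Ps 0 1 - (z01 - r01 • 1) + Ps 1 2 -
    (z12 - r12 • 1)] with hA
  have hAd : ∀ i, t ∣ A i := by
    intro i
    fin_cases i
    · exact dvd_zero _
    · exact dvd_sub (hPsd _ _) h01
    · exact dvd_sub (dvd_add (dvd_sub (hPsd _ _) h01) (hPsd _ _)) h12
  have hAD : ∀ i j, (i = 0 ∧ j = 1 ∨ i = 1 ∧ j = 2 ∨ i = 2 ∧ j = 0) →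
      A j - A i - Ps i j ∈ Zs δ L b Q q i j := by
    rintro i j (⟨rfl, rfl⟩ | ⟨rfl, rfl⟩ | ⟨rfl, rfl⟩)
    · have e : A 1 - A 0 - Ps 0 1 = r01 • 1 - z01 := by
        change Ps 0 1 - (z01 - r01 • 1) - 0 - Ps 0 1 = _
        ring
      rw [e]
      exact Submodule.sub_mem _ (Submodule.smul_mem _ _ (B.one_Zs (by decide))) hz01
    · have e : A 2 - A 1 - Ps 1 2 = r12 • 1 - z12 := by
        change Ps 0 1 - (z01 - r01 • 1) + Ps 1 2 - (z12 - r12 • 1) -
          (Ps 0 1 - (z01 - r01 • 1)) - Ps 1 2 = _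
        ring
      rw [e]
      exact Submodule.sub_mem _ (Submodule.smul_mem _ _ (B.one_Zs (by decide))) hz12
    · have e : A 0 - A 2 - Ps 2 0 = - (z20 + r01 • 1 + r12 • 1) := by
        change 0 - (Ps 0 1 - (z01 - r01 • 1) + Ps 1 2 - (z12 - r12 • 1)) - Ps 2 0 = _
        have h5 : z01 + z12 + z20 = Ps 0 1 + Ps 1 2 + Ps 2 0 := by rw [hw3, hw2]
        linear_combination h5
      rw [e]
      exact Submodule.neg_mem _ (Submodule.add_mem _ (Submodule.add_mem _ hz20
        (Submodule.smul_mem _ _ (B.one_Zs (by decide))))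
        (Submodule.smul_mem _ _ (B.one_Zs (by decide))))
  refine ⟨fun i => c i • (Q i * Q i * A i), fun i => ?_, ?_⟩
  · obtain ⟨w, hw⟩ := hAd i
    refine ⟨c i • (Q i * Q i * w), ?_⟩
    simp only [hw, Algebra.smul_def]
    ring
  · have key : ∀ i j, i ≠ j → A j - A i - Ps i j ∈ Zs δ L b Q q i j →
        (t * Q i - algebraMap k K (al c j i)) * (c j • (Q j * Q j * A j)) +
          (t * Q j - algebraMap k K (al c i j)) * (c i • (Q i * Q i * A i)) -
        psi t Q E i j ∈ D δ L b (δ i + δ j + q) := by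
      intro i j hij h
      rw [mem_Zs] at h
      have n1 := B.c0 i
      have n2 := B.c0 j
      have n4 : c j - c i ≠ 0 := B.cne i j hij
      have n5 : c i - c j ≠ 0 := B.cne j i hij.symm
      have e : (t * Q i - algebraMap k K (al c j i)) * (c j • (Q j * Q j * A j)) +
          (t * Q j - algebraMap k K (al c i j)) * (c i • (Q i * Q i * A i)) -
          psi t Q E i j = (th c i j)⁻¹ • (Q i * Q j * (A j - A i - Ps i j)) := by
        have s1 : al c i j * c j = (th c i j)⁻¹ := by
          simp only [al, th]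
          field_simp
        have s2 : al c j i * c i = - (th c i j)⁻¹ := by
          simp only [al, th]
          field_simp
          ring
        have s3 : (th c i j)⁻¹ * th c i j = 1 := by
          simp only [th]
          field_simp
        have e1 := r6 (B.hQ i) n4
        have e2 := r6 (B.hQ j) n5
        have f1 := congrArg (algebraMap k K) s1
        have f2 := congrArg (algebraMap k K) s2
        have f3 := congrArg (algebraMap k K) s3
        have hi := B.hQ i
        have hj := B.hQ j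
        simp only [map_mul, map_neg, map_one] at f1 f2 f3
        rw [e1, e2]
        simp only [hPs, hP, Algebra.smul_def]
        have hj' : (algebraMap k K (c j) - t) * Q j * Q j = Q j := by rw [hj, one_mul]
        have hi' : (algebraMap k K (c i) - t) * Q i * Q i = Q i := by rw [hi, one_mul]
        linear_combination
          (algebraMap k K (al c i j) * algebraMap k K (c j) * Q i * A j) * hj' +
          (algebraMap k K (al c j i) * algebraMap k K (c i) * Q j * A i) * hi' +
          (Q i * Q j * A j) * f1 + (Q i * Q j * A i) * f2 +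
          ((algebraMap k K (c i) - t) * Q i * ((algebraMap k K (c j) - t) * Q j) *
            psi t Q E i j) * f3 +
          (((algebraMap k K (c j) - t) * Q j) * psi t Q E i j) * hi +
          (psi t Q E i j) * hj
      rw [e]
      exact Submodule.smul_mem _ _ h
    have sym : ∀ i j, (t * Q i - algebraMap k K (al c j i)) * (c j • (Q j * Q j * A j)) +
          (t * Q j - algebraMap k K (al c i j)) * (c i • (Q i * Q i * A i)) -
        psi t Q E i j ∈ D δ L b (δ i + δ j + q) →
        (t * Q j - algebraMap k K (al c i j)) * (c i • (Q i * Q i * A i)) +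
          (t * Q i - algebraMap k K (al c j i)) * (c j • (Q j * Q j * A j)) -
        psi t Q E j i ∈ D δ L b (δ j + δ i + q) := by
      intro i j h
      have h1 := Submodule.add_mem _ h (hc1 i j)
      rw [cc_one] at h1
      have h2 : (t * Q j - algebraMap k K (al c i j)) * (c i • (Q i * Q i * A i)) +
          (t * Q i - algebraMap k K (al c j i)) * (c j • (Q j * Q j * A j)) -
        psi t Q E j i = (t * Q i - algebraMap k K (al c j i)) * (c j • (Q j * Q j * A j)) +
          (t * Q j - algebraMap k K (al c i j)) * (c i • (Q i * Q i * A i)) -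
        psi t Q E i j + (psi t Q E i j - psi t Q E j i) := by ring
      rw [h2, add_comm (δ j)]
      exact h1
    intro i j hij
    have k01 := key 0 1 (by decide) (hAD 0 1 (by simp))
    have k12 := key 1 2 (by decide) (hAD 1 2 (by simp))
    have k20 := key 2 0 (by decide) (hAD 2 0 (by simp))
    have : (i = 0 ∧ j = 1) ∨ (i = 1 ∧ j = 2) ∨ (i = 2 ∧ j = 0) ∨ (i = 1 ∧ j = 0) ∨
        (i = 2 ∧ j = 1) ∨ (i = 0 ∧ j = 2) := by omega
    rcases this with ⟨rfl, rfl⟩ | ⟨rfl, rfl⟩ | ⟨rfl, rfl⟩ | ⟨rfl, rfl⟩ | ⟨rfl, rfl⟩ | ⟨rfl, rfl⟩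
    · exact k01
    · exact k12
    · exact k20
    · exact sym 0 1 k01
    · exact sym 1 2 k12
    · exact sym 2 0 k20

end Bs

namespace Bs

variable {k K : Type*} [Field k] [CommRing K] [Algebra k K] {p δ : Fin 3 → ℕ} {L : ℕ}
  {c : Fin 3 → k} {t : K} {Q : Fin 3 → K} {b : Module.Basis (Ix p) k K}

/-- the values of `N` -/
noncomputable def nu (t : K) (Q : Fin 3 → K) (E : Fin 3 → K →ₗ[k] K) (a : Fin 3 → K) (i : Fin 3) :
    ℕ → K
  | 0 => 0
  | m + 1 => t * Q i * nu t Q E a i m + a i * (t * Q i) ^ m - E i ((t * Q i) ^ m)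

/-- the certificate for operators -/
theorem cert_op (B : Bs p δ L c t Q b) (E : Fin 3 → K →ₗ[k] K) {q : ℕ}
    (H1 : ∀ i y, b.repr (E i (b y)) none = 0)
    (H2 : ∀ i j z, cc t Q E i j (b z) ∈ D δ L b (lev p δ L z + δ i + δ j + q)) :
    ∃ (N : K →ₗ[k] K) (a : Fin 3 → K), (∀ i, t ∣ a i) ∧ ∀ i y,
      t * Q i * N (b y) - N (t * Q i * b y) + a i * b y - E i (b y) ∈
        D δ L b (lev p δ L y + δ i + q) := by
  obtain ⟨a', ha', hS⟩ := B.lemS E H1 H2
  have hE1 : ∀ i, t ∣ E i 1 := by
    intro i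
    rw [← B.b1]
    exact B.dvd_of_repr (H1 i _)
  set a : Fin 3 → K := fun i => a' i + E i 1 with ha
  set ν : Fin 3 → ℕ → K := nu t Q E a with hν
  set N : K →ₗ[k] K := b.constr k (fun y : Ix p => match y with
    | none => (0 : K)
    | some none => 0
    | some (some u) => ν u.1 ((u.2 : ℕ) + 1)) with hN
  have N1 : N 1 = 0 := by
    rw [← B.b1, hN, Module.Basis.constr_basis]
  have Nx : ∀ i m, m < p i → N ((t * Q i) ^ m) = ν i m := by
    intro i m hm
    rcases m with _ | m
    · rw [pow_zero, N1]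
      rfl
    · have e : (t * Q i) ^ (m + 1) = b (some (some ⟨i, ⟨m, by omega⟩⟩)) :=
        (B.bx ⟨i, ⟨m, by omega⟩⟩).symm
      rw [e, hN, Module.Basis.constr_basis]
  set G : Fin 3 → K →ₗ[k] K := fun i =>
    (LinearMap.mulLeft k (t * Q i)) ∘ₗ N - N ∘ₗ (LinearMap.mulLeft k (t * Q i)) +
      LinearMap.mulLeft k (a i) - E i with hG
  have hGa : ∀ i u, G i u = t * Q i * N u - N (t * Q i * u) + a i * u - E i u := fun i u => rfl
  have G0 : ∀ i m, m + 1 < p i → G i ((t * Q i) ^ m) = 0 := by
    intro i m hm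
    rw [hGa, ← pow_succ', Nx i _ hm, Nx i m (by omega)]
    have e : ν i (m + 1) = t * Q i * ν i m + a i * (t * Q i) ^ m - E i ((t * Q i) ^ m) := rfl
    rw [e]
    ring
  have hcom : ∀ i j u, G i (t * Q j * u) = t * Q j * G i u - t * Q i * G j u +
      G j (t * Q i * u) - cc t Q E i j u := by
    intro i j u
    simp only [hGa, cc]
    have e : t * Q i * (t * Q j * u) = t * Q j * (t * Q i * u) := by ring
    rw [e]
    ring
  have hcc : ∀ i j l m, m < p l → cc t Q E i j ((t * Q l) ^ m) ∈
      D δ L b (m * δ l + δ i + δ j + q) := by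
    intro i j l m hm
    rcases m with _ | m
    · have := H2 i j none
      rw [B.b1] at this
      simpa [lev] using this
    · have e : (t * Q l) ^ (m + 1) = b (some (some ⟨l, ⟨m, by omega⟩⟩)) :=
        (B.bx ⟨l, ⟨m, by omega⟩⟩).symm
      rw [e]
      exact H2 i j (some (some ⟨l, ⟨m, by omega⟩⟩))
  have Gx1 : ∀ i j, i ≠ j → G i (t * Q j) ∈ D δ L b (δ i + δ j + q) := by
    intro i j hij
    have h2i := B.hp i
    have h2j := B.hp j
    have e1 := Nx i 1 (by omega)
    have e2 := Nx j 1 (by omega)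
    have e3 : ∀ l, ν l 1 = a' l := by
      intro l
      have : ν l 1 = t * Q l * 0 + a l * (t * Q l) ^ 0 - E l ((t * Q l) ^ 0) := rfl
      rw [this, ha]
      simp
    rw [e3, pow_one] at e1 e2
    have e4 : G i (t * Q j) = (t * Q i - algebraMap k K (al c j i)) * a' j +
        (t * Q j - algebraMap k K (al c i j)) * a' i - psi t Q E i j := by
      rw [hGa, mulx (B.hQ i) (B.hQ j) (B.cne i j hij), map_add, map_smul,
        map_smul, e1, e2, ha, psi]
      simp only [Algebra.smul_def]
      ring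
    rw [e4]
    exact hS i j hij
  -- the mixed case
  have Gx : ∀ i j, i ≠ j → ∀ m, m + 1 < p j →
      G i ((t * Q j) ^ (m + 1)) ∈ D δ L b ((m + 1) * δ j + δ i + q) := by
    intro i j hij m
    induction m with
    | zero =>
      intro _
      rw [zero_add, pow_one]
      exact D_mono (by omega) (Gx1 i j hij)
    | succ m ih =>
      intro hm
      have ih' := ih (by omega)
      have e : (t * Q j) ^ (m + 1 + 1) = t * Q j * (t * Q j) ^ (m + 1) := pow_succ' _ _
      rw [e, hcom, G0 j (m + 1) (by omega), mul_zero, sub_zero]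
      have e5 : (m + 1 + 1) * δ j = (m + 1) * δ j + δ j := by ring
      refine Submodule.sub_mem _ (Submodule.add_mem _ ?_ ?_) ?_
      · exact B.xD j (by omega) ih'
      · have := xx_mem (B.hQ i) (B.hQ j) (B.cne i j hij)
          ((D δ L b ((m + 1 + 1) * δ j + δ i + q)).comap (G j)) (m + 1) (by
            rw [Submodule.mem_comap]
            refine D_mono ?_ (Gx1 j i hij.symm)
            omega) (by
            intro a0 h3 h4
            rw [Submodule.mem_comap, G0 j a0 (by omega)]
            exact Submodule.zero_mem _)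
        exact this
      · refine D_mono ?_ (hcc i j j (m + 1) (by omega))
        omega
  refine ⟨N, a, fun i => dvd_add (ha' i) (hE1 i), fun i y => ?_⟩
  rw [← hGa]
  rcases y with _ | _ | ⟨l, m⟩
  · rw [B.b1]
    have := G0 i 0 (by have := B.hp i; omega)
    rw [pow_zero] at this
    rw [this]
    exact Submodule.zero_mem _
  · exact B.D_top (by change L ≤ L + δ i + q; omega) _
  · rw [B.bx]
    change G i ((t * Q l) ^ ((m : ℕ) + 1)) ∈ D δ L b (((m : ℕ) + 1) * δ l + δ i + q)
    have hm : (m : ℕ) < p l - 1 := m.2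
    by_cases hil : i = l
    · subst hil
      by_cases hm2 : (m : ℕ) + 1 + 1 < p i
      · rw [G0 i _ hm2]
        exact Submodule.zero_mem _
      · refine B.D_top ?_ _
        rw [← B.hL i]
        have h7 : p i = (m : ℕ) + 1 + 1 := by omega
        have h9 : p i * δ i = ((m : ℕ) + 1 + 1) * δ i := congrArg (· * δ i) h7
        have h8 : ((m : ℕ) + 1 + 1) * δ i = ((m : ℕ) + 1) * δ i + δ i := by ring
        omega
    · exact Gx i l hil m (by omega)

end Bs

namespace Bs

variable {k K : Type*} [Field k] [CommRing K] [Algebra k K] {p δ : Fin 3 → ℕ} {L : ℕ}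
  {c : Fin 3 → k} {t : K} {Q : Fin 3 → K} {b : Module.Basis (Ix p) k K}

theorem repr_toLin (b : Module.Basis (Ix p) k K) (M : Matrix (Ix p) (Ix p) k) (x y : Ix p) :
    b.repr (Matrix.toLinAlgEquiv b M (b y)) x = M x y := by
  rw [← LinearMap.toMatrixAlgEquiv_apply, LinearMap.toMatrixAlgEquiv_toLinAlgEquiv]

theorem toLin_lm (b : Module.Basis (Ix p) k K) (a u : K) :
    Matrix.toLinAlgEquiv b (Algebra.leftMulMatrix b a) u = a * u := by
  have h : LinearMap.toMatrixAlgEquiv b (LinearMap.mulLeft k a) = Algebra.leftMulMatrix b a := rfl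
  rw [← h, Matrix.toLinAlgEquiv_toMatrixAlgEquiv]
  rfl

theorem poly_lm (b : Module.Basis (Ix p) k K) (hg : ∀ z : K, ∃ g : Polynomial k, z = Polynomial.aeval t g)
    {a : K} (ha : t ∣ a) : ∃ q : Polynomial k, q.coeff 0 = 0 ∧
      Algebra.leftMulMatrix b a = Polynomial.aeval (Algebra.leftMulMatrix b t) q := by
  obtain ⟨w, rfl⟩ := ha
  obtain ⟨g, rfl⟩ := hg w
  refine ⟨Polynomial.X * g, by simp, ?_⟩
  rw [Polynomial.aeval_algHom_apply, map_mul (Polynomial.aeval t), Polynomial.aeval_X]

theorem lam_ne (B : Bs p δ L c t Q b) (i : Fin 3) :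
    b.repr ((t * Q i) ^ p i) (some none) ≠ 0 := by
  intro h0
  set W : Submodule k K := Sp b fun y => y ≠ some none with hW
  have hmem : ∀ a : K, a ∈ W ↔ b.repr a (some none) = 0 := by
    intro a
    rw [hW, mem_Sp]
    constructor
    · intro h
      exact h _ (by simp)
    · intro h y hy
      have : y = some none := by
        by_contra h'
        exact hy h'
      rw [this, h]
  have hxp : ∀ l a, a < p l → (t * Q l) ^ a ∈ W := by
    intro l a ha
    rcases a with _ | a
    · rw [pow_zero, ← B.b1]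
      exact b_mem (by simp)
    · have e : (t * Q l) ^ (a + 1) = b (some (some ⟨l, ⟨a, by omega⟩⟩)) :=
        (B.bx ⟨l, ⟨a, by omega⟩⟩).symm
      rw [e]
      exact b_mem (by simp)
  have hxW : ∀ a ∈ W, t * Q i * a ∈ W := by
    intro a ha
    have : a ∈ W.comap (LinearMap.mulLeft k (t * Q i)) := by
      refine Sp_le (fun y hy => ?_) ha
      change t * Q i * b y ∈ W
      rcases y with _ | _ | ⟨l, m⟩
      · rw [B.b1, mul_one]
        simpa using hxp i 1 (by have := B.hp i; omega)
      · exact absurd rfl hy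
      · have hm : (m : ℕ) < p l - 1 := m.2
        rw [B.bx]
        change t * Q i * (t * Q l) ^ ((m : ℕ) + 1) ∈ W
        by_cases hil : i = l
        · subst hil
          rw [← pow_succ']
          by_cases h1 : (m : ℕ) + 1 + 1 < p i
          · exact hxp i _ h1
          · have h2 : (m : ℕ) + 1 + 1 = p i := by omega
            rw [h2]
            exact (hmem _).2 h0
        · refine xx_mem (B.hQ i) (B.hQ l) (B.cne i l hil) W _ ?_ fun a _ h2 => hxp l a (by omega)
          simpa using hxp i 1 (by have := B.hp i; omega)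
    exact this
  have hpow : ∀ N, (t * Q i) ^ N ∈ W := by
    intro N
    induction N with
    | zero => exact hxp i 0 (by have := B.hp i; omega)
    | succ N ih =>
      rw [pow_succ']
      exact hxW _ ih
  have ht : ∀ N, t - (-(t * Q i)) ^ N * t ∈ W := by
    intro N
    induction N with
    | zero => simp
    | succ N ih =>
      have e : t - (-(t * Q i)) ^ (N + 1) * t =
          (t - (-(t * Q i)) ^ N * t) + c i • ((-1 : k) ^ N • (t * Q i) ^ (N + 1)) := by
        have h := B.hQ i
        have e1 : (-(t * Q i)) ^ N = algebraMap k K ((-1) ^ N) * (t * Q i) ^ N := by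
          rw [map_pow, map_neg, map_one, ← mul_pow, neg_one_mul]
        rw [pow_succ, e1]
        simp only [Algebra.smul_def]
        linear_combination -(algebraMap k K ((-1) ^ N) * (t * Q i) ^ N * t) * h
      rw [e]
      exact W.add_mem ih (W.smul_mem _ (W.smul_mem _ (hpow _)))
  obtain ⟨n, hn⟩ := B.nil
  have h1 := ht n
  rw [neg_pow, mul_pow t, hn, zero_mul, mul_zero, zero_mul, sub_zero, hmem, ← B.bt,
    Module.Basis.repr_self, Finsupp.single_eq_same] at h1
  exact one_ne_zero h1

/-- everything from the basis -/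
theorem all (B : Bs p δ L c t Q b) (hg : ∀ z : K, ∃ g : Polynomial k, z = Polynomial.aeval t g)
    (ht1 : t ^ Fintype.card (Ix p) = 0) (ht2 : t ^ (Fintype.card (Ix p) - 1) ≠ 0) :
    ∃ (N0 : Matrix (Ix p) (Ix p) k) (X : Fin 3 → Matrix (Ix p) (Ix p) k) (lam : Fin 3 → k),
      N0 ^ Fintype.card (Ix p) = 0 ∧ N0 ^ (Fintype.card (Ix p) - 1) ≠ 0 ∧
      (∀ i, ∃ q : Polynomial k, q.coeff 0 = 0 ∧ X i = Polynomial.aeval N0 q) ∧
      (∀ i x y, lev p δ L y + δ i < lev p δ L x → X i x y = 0) ∧
      (∀ i, lam i ≠ 0) ∧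
      (∀ i x y, lev p δ L x = lev p δ L y + δ i → X i x y = Ld p lam i x y) ∧
      ∀ κ, 1 ≤ κ → CertC (lev p δ L) δ N0 X κ := by
  classical
  refine ⟨Algebra.leftMulMatrix b t, fun i => Algebra.leftMulMatrix b (t * Q i),
    fun i => b.repr ((t * Q i) ^ p i) (some none), ?_, ?_, ?_, ?_, fun i => B.lam_ne i, ?_, ?_⟩
  · rw [← map_pow, ht1, map_zero]
  · rw [← map_pow]
    intro h
    exact ht2 (Algebra.leftMulMatrix_injective b (h.trans (map_zero _).symm))
  · intro i
    exact poly_lm b hg ⟨Q i, rfl⟩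
  · intro i x y h
    change Algebra.leftMulMatrix b (t * Q i) x y = 0
    rw [Algebra.leftMulMatrix_eq_repr_mul]
    exact B.step i y le_rfl x (by
      change ¬ lev p δ L x ≤ _
      omega)
  · intro i x y h
    change Algebra.leftMulMatrix b (t * Q i) x y = _
    rw [Algebra.leftMulMatrix_eq_repr_mul]
    have hp2 := B.hp
    have hd := B.hδ
    rcases y with _ | _ | ⟨l, m⟩
    · rw [B.b1, mul_one]
      have e : t * Q i = b (some (some ⟨i, ⟨0, by have := hp2 i; omega⟩⟩)) := by
        rw [B.bx]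
        simp
      rw [e, Module.Basis.repr_self, Finsupp.single_apply]
      rcases x with _ | _ | ⟨l, m⟩
      · simp [Ld]
      · simp [Ld]
      · simp only [Ld]
        by_cases h1 : l = i
        · subst h1
          by_cases h2 : (m : ℕ) = 0
          · have : m = ⟨0, by have := hp2 l; omega⟩ := Fin.ext h2
            rw [this]
            simp
          · rw [if_neg, if_neg]
            · rintro ⟨-, h3⟩
              exact h2 h3
            · intro h3
              simp only [Option.some.injEq, Sigma.mk.inj_iff, heq_eq_eq, true_and] at h3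
              rw [← h3] at h2
              exact h2 rfl
        · rw [if_neg, if_neg]
          · rintro ⟨h3, -⟩
            exact h1 h3
          · intro h3
            simp only [Option.some.injEq, Sigma.mk.inj_iff] at h3
            exact h1 h3.1.symm
    · exfalso
      have h1 := B.lev_le x
      have h2 := hd i
      change lev p δ L x = L + δ i at h
      omega
    · have hm : (m : ℕ) < p l - 1 := m.2
      rw [B.bx]
      change lev p δ L x = ((m : ℕ) + 1) * δ l + δ i at h
      change b.repr (t * Q i * (t * Q l) ^ ((m : ℕ) + 1)) x = _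
      by_cases hil : i = l
      · subst hil
        rw [← pow_succ']
        by_cases h1 : (m : ℕ) + 1 + 1 < p i
        · have e : (t * Q i) ^ ((m : ℕ) + 1 + 1) = b (some (some ⟨i, ⟨(m : ℕ) + 1, by omega⟩⟩)) :=
            (B.bx ⟨i, ⟨(m : ℕ) + 1, by omega⟩⟩).symm
          rw [e, Module.Basis.repr_self, Finsupp.single_apply]
          rcases x with _ | _ | ⟨l', m'⟩
          · simp [Ld]
          · simp only [Ld]
            rw [if_neg, if_neg]
            · rintro ⟨-, h3⟩
              omega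
            · simp
          · simp only [Ld]
            by_cases h2 : l' = i
            · subst h2
              by_cases h3 : (m' : ℕ) = (m : ℕ) + 1
              · have : m' = ⟨(m : ℕ) + 1, by omega⟩ := Fin.ext h3
                rw [this]
                simp
              · rw [if_neg, if_neg]
                · rintro ⟨-, -, h4⟩
                  exact h3 h4
                · intro h4
                  simp only [Option.some.injEq, Sigma.mk.inj_iff, heq_eq_eq, true_and] at h4
                  rw [← h4] at h3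
                  exact h3 rfl
            · rw [if_neg, if_neg]
              · rintro ⟨h4, -⟩
                exact h2 h4
              · intro h4
                simp only [Option.some.injEq, Sigma.mk.inj_iff] at h4
                exact h2 h4.1.symm
        · have h2 : (m : ℕ) + 1 + 1 = p i := by omega
          have h3 : lev p δ L x = L := by
            rw [h, ← B.hL i]
            have h4 : p i * δ i = ((m : ℕ) + 1 + 1) * δ i := congrArg (· * δ i) h2.symm
            rw [h4]
            ring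
          rw [h2]
          rcases x with _ | _ | ⟨l', m'⟩
          · exfalso
            have h4 := B.hL i
            have h5 : 1 * 1 ≤ p i * δ i := Nat.mul_le_mul (by have := hp2 i; omega) (hd i)
            change 0 = L at h3
            omega
          · simp only [Ld]
            rw [if_pos]
            exact ⟨trivial, by omega⟩
          · exfalso
            have hm' : (m' : ℕ) < p l' - 1 := m'.2
            change ((m' : ℕ) + 1) * δ l' = L at h3
            rw [← B.hL l'] at h3
            have := Nat.eq_of_mul_eq_mul_right (hd l') h3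
            omega
      · have h1 : b.repr (t * Q i * (t * Q l) ^ ((m : ℕ) + 1)) x = 0 := by
          refine B.step_ne hil ((m : ℕ) + 1) (by omega)
            (d := ((m : ℕ) + 1) * δ l + δ i - 1) (by omega) x ?_
          change ¬ lev p δ L x ≤ _
          have := hd i
          omega
        rw [h1]
        rcases x with _ | _ | ⟨l', m'⟩
        · simp [Ld]
        · simp only [Ld]
          rw [if_neg]
          rintro ⟨h2, -⟩
          exact hil h2.symm
        · simp only [Ld]
          rw [if_neg]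
          rintro ⟨-, h2, -⟩
          exact hil h2.symm
  · intro κ hκ e h1 h2
    obtain ⟨q, rfl⟩ : ∃ q, κ = q + 1 := ⟨κ - 1, by omega⟩
    set E : Fin 3 → K →ₗ[k] K := fun i => Matrix.toLinAlgEquiv b (e i) with hE
    have hEe : ∀ i x y, b.repr (E i (b y)) x = e i x y := fun i x y => repr_toLin b (e i) x y
    obtain ⟨N, a, ha, hN⟩ := B.cert_op E (q := q) (by
        intro i y
        rw [hEe]
        refine h1 i none y ?_
        change 0 < _
        omega) (by
        intro i j z x hx
        replace hx : ¬ lev p δ L x ≤ lev p δ L z + δ i + δ j + q := hx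
        refine Eq.trans ?_ (h2 i j x z (by omega))
        refine Eq.trans ?_ (repr_toLin b _ x z)
        congr 2
        simp only [cc, hE, map_sub, map_add, map_mul, LinearMap.sub_apply, LinearMap.add_apply,
          Module.End.mul_apply, toLin_lm, mul_assoc])
    refine ⟨LinearMap.toMatrixAlgEquiv b N, fun i => Algebra.leftMulMatrix b (a i),
      fun i => poly_lm b hg (ha i), fun i x y hxy => ?_⟩
    have h3 := hN i y x (by
      change ¬ lev p δ L x ≤ _
      omega)
    rw [map_sub, Finsupp.sub_apply, sub_eq_zero, hEe] at h3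
    refine Eq.trans ?_ h3
    refine Eq.trans (repr_toLin b _ x y).symm ?_
    congr 2
    simp only [map_sub, map_add, map_mul, LinearMap.sub_apply, LinearMap.add_apply,
      Module.End.mul_apply, toLin_lm, Matrix.toLinAlgEquiv_toMatrixAlgEquiv, mul_assoc]

end Bs

/-! ### the base algebra -/

section base

variable {k K : Type*} [Field k] [CommRing K] [Algebra k K] {c : Fin 3 → k} {t : K}
  {Q : Fin 3 → K}

/-- one family of partial fractions -/
theorem pf_step (hQ : ∀ l, (algebraMap k K (c l) - t) * Q l = 1) (W : Submodule k K) (R : K)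
    (l : Fin 3) (d : ℕ)
    (h0 : ∀ g : Polynomial k, g.natDegree ≤ d → Polynomial.aeval t g * R ∈ W) (m : ℕ)
    (h : ∀ a, 1 ≤ a → a ≤ m → R * Q l ^ a ∈ W) :
    ∀ g : Polynomial k, g.natDegree ≤ d + m → Polynomial.aeval t g * (R * Q l ^ m) ∈ W := by
  induction m with
  | zero => simpa using h0
  | succ m ih =>
    intro g hg
    have ih' := ih fun a h1 h2 => h a h1 (by omega)
    -- division by `X - c l`
    set h' := g /ₘ (Polynomial.X - Polynomial.C (c l)) with hh'
    have h1 : (Polynomial.X - Polynomial.C (c l)) * h' + Polynomial.C (g.eval (c l)) = g := by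
      rw [hh', add_comm]
      have := Polynomial.modByMonic_add_div g (Polynomial.X - Polynomial.C (c l))
      rwa [Polynomial.modByMonic_X_sub_C_eq_C_eval] at this
    have h2 : h'.natDegree ≤ d + m := by
      rw [hh', Polynomial.natDegree_divByMonic _ (Polynomial.monic_X_sub_C _),
        Polynomial.natDegree_X_sub_C]
      omega
    have e : Polynomial.aeval t g * (R * Q l ^ (m + 1)) =
        - (Polynomial.aeval t h' * (R * Q l ^ m)) + g.eval (c l) • (R * Q l ^ (m + 1)) := by
      have h3 := congrArg (Polynomial.aeval t) h1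
      simp only [map_add, map_mul, map_sub, Polynomial.aeval_X, Polynomial.aeval_C] at h3
      rw [← h3, Algebra.smul_def]
      linear_combination -(Polynomial.aeval t h' * (R * Q l ^ m)) * hQ l
    rw [e]
    exact W.add_mem (W.neg_mem (ih' h' h2)) (W.smul_mem _ (h _ (by omega) le_rfl))

/-- the span of `1` and powers of the `x l` -/
def Sp1 (t : K) (Q : Fin 3 → K) (k : Type*) [Field k] [Algebra k K] (m : Fin 3 → ℕ) :
    Submodule k K :=
  Submodule.span k ({1} ∪ {y | ∃ l a, 1 ≤ a ∧ a ≤ m l ∧ y = (t * Q l) ^ a})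

theorem Q_Sp1 (hc0 : ∀ i, c i ≠ 0) (hcne : ∀ i j, i ≠ j → c j - c i ≠ 0)
    (hQ : ∀ l, (algebraMap k K (c l) - t) * Q l = 1) {m m' : Fin 3 → ℕ}
    (hm : ∀ l, m l ≤ m' l) (i : Fin 3) (hi : m i + 1 ≤ m' i) {u : K} (hu : u ∈ Sp1 t Q k m) :
    Q i * u ∈ Sp1 t Q k m' := by
  have hx : ∀ l a, a ≤ m' l → (t * Q l) ^ a ∈ Sp1 t Q k m' := by
    intro l a ha
    rcases Nat.eq_zero_or_pos a with rfl | h
    · rw [pow_zero]
      exact Submodule.subset_span (Or.inl rfl)
    · exact Submodule.subset_span (Or.inr ⟨l, a, h, ha, rfl⟩)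
  have e : ∀ y : K, Q i * y = (c i)⁻¹ • (y + t * Q i * y) := by
    intro y
    have h1 := r2 (hQ i)
    have h2 : Q i = (c i)⁻¹ • (1 + t * Q i) := by
      rw [← h1, ← Algebra.smul_def, smul_smul, inv_mul_cancel₀ (hc0 i), one_smul]
    simp only [Algebra.smul_def] at h2 ⊢
    linear_combination y * h2
  have h1 : u ∈ (Sp1 t Q k m').comap (LinearMap.mulLeft k (Q i)) := by
    refine (Submodule.span_le.2 ?_) hu
    rintro y (rfl | ⟨l, a, h2, h3, rfl⟩)
    · change Q i * 1 ∈ Sp1 t Q k m'
      rw [e, mul_one]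
      refine Submodule.smul_mem _ _ (Submodule.add_mem _ ?_ ?_)
      · simpa using hx i 0 (Nat.zero_le _)
      · simpa using hx i 1 (by omega)
    · change Q i * (t * Q l) ^ a ∈ Sp1 t Q k m'
      rw [e]
      refine Submodule.smul_mem _ _ (Submodule.add_mem _ (hx l a (h3.trans (hm l))) ?_)
      by_cases hil : i = l
      · subst hil
        rw [← pow_succ']
        exact hx i _ (by omega)
      · refine xx_mem (hQ i) (hQ l) (hcne i l hil) _ a ?_ fun a' _ h5 =>
          hx l a' ((h5.trans h3).trans (hm l))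
        simpa using hx i 1 (by omega)
  exact h1

theorem Qpow_Sp1 (hc0 : ∀ i, c i ≠ 0) (hcne : ∀ i j, i ≠ j → c j - c i ≠ 0)
    (hQ : ∀ l, (algebraMap k K (c l) - t) * Q l = 1) (i : Fin 3) (n : ℕ) :
    ∀ {m m' : Fin 3 → ℕ}, (∀ l, m l ≤ m' l) → m i + n ≤ m' i → ∀ {u : K}, u ∈ Sp1 t Q k m →
    Q i ^ n * u ∈ Sp1 t Q k m' := by
  induction n with
  | zero =>
    intro m m' hm _ u hu
    rw [pow_zero, one_mul]
    refine Submodule.span_mono ?_ hu
    rintro y (rfl | ⟨l, a, h2, h3, rfl⟩)
    · exact Or.inl rfl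
    · exact Or.inr ⟨l, a, h2, h3.trans (hm l), rfl⟩
  | succ n ih =>
    intro m m' hm hi u hu
    have h1 := Q_Sp1 (k := k) hc0 hcne hQ (m := m) (m' := fun l => if l = i then m i + 1 else m l)
      (by intro l; by_cases h : l = i <;> simp [h]) i (by simp) hu
    have h2 := ih (m := fun l => if l = i then m i + 1 else m l) (m' := m')
      (by
        intro l
        by_cases h : l = i
        · subst h
          simp only [if_true]
          omega
        · simp only [h, if_false]
          exact hm l) (by simp only [if_true]; omega) h1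
    rw [pow_succ, mul_assoc]
    exact h2

/-- partial fractions: everything is in the span -/
theorem span_all (hc0 : ∀ i, c i ≠ 0) (hcne : ∀ i j, i ≠ j → c j - c i ≠ 0)
    (hQ : ∀ l, (algebraMap k K (c l) - t) * Q l = 1) (m : Fin 3 → ℕ)
    (hg : ∀ z : K, ∃ g : Polynomial k, g.natDegree ≤ 1 + m 0 + m 1 + m 2 ∧
      z = Polynomial.aeval t g) (z : K) : z ∈ Sp1 t Q k m ⊔ Submodule.span k {t} := by
  set W := Sp1 t Q k m ⊔ Submodule.span k {t} with hW
  have hone : ∀ m', (1 : K) ∈ Sp1 t Q k m' := fun m' => Submodule.subset_span (Or.inl rfl)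
  have hSW : ∀ {u : K}, u ∈ Sp1 t Q k m → u ∈ W := fun h => Submodule.mem_sup_left h
  have htW : t ∈ W := Submodule.mem_sup_right (Submodule.subset_span rfl)
  have s0 : ∀ g : Polynomial k, g.natDegree ≤ 1 → Polynomial.aeval t g * 1 ∈ W := by
    intro g hg
    rw [mul_one, Polynomial.aeval_eq_sum_range' (n := 2) (by omega), Finset.sum_range_succ,
      Finset.sum_range_one, pow_zero, pow_one]
    exact W.add_mem (W.smul_mem _ (hSW (hone _))) (W.smul_mem _ htW)
  have s1 := pf_step hQ W 1 0 1 s0 (m 0) (by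
    intro a _ h2
    have := Qpow_Sp1 (k := k) hc0 hcne hQ 0 a (m := fun _ => 0) (m' := m)
      (fun l => Nat.zero_le _) (by omega) (hone _)
    rw [mul_one] at this
    rw [one_mul]
    exact hSW this)
  have s2 := pf_step hQ W _ 1 _ s1 (m 1) (by
    intro a _ h2
    have g1 := Qpow_Sp1 (k := k) hc0 hcne hQ 0 (m 0) (m := fun _ => 0)
      (m' := fun l => if l = 0 then m 0 else 0)
      (fun l => Nat.zero_le _) (by simp) (hone _)
    have g2 := Qpow_Sp1 (k := k) hc0 hcne hQ 1 a (m' := m) (by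
      intro l
      by_cases h : l = 0
      · subst h; simp
      · simp [h]) (by simpa using h2) g1
    have e : (1 : K) * Q 0 ^ m 0 * Q 1 ^ a = Q 1 ^ a * (Q 0 ^ m 0 * 1) := by ring
    rw [e]
    exact hSW g2)
  have s3 := pf_step hQ W _ 2 _ s2 (m 2) (by
    intro a _ h2
    have g1 := Qpow_Sp1 (k := k) hc0 hcne hQ 0 (m 0) (m := fun _ => 0)
      (m' := fun l => if l = 0 then m 0 else 0)
      (fun l => Nat.zero_le _) (by simp) (hone _)
    have g2 := Qpow_Sp1 (k := k) hc0 hcne hQ 1 (m 1)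
      (m' := fun l => if l = 2 then 0 else m l) (by
      intro l
      by_cases h : l = 0
      · subst h; simp
      · simp [h]) (by simp) g1
    have g3 := Qpow_Sp1 (k := k) hc0 hcne hQ 2 a (m' := m) (by
      intro l
      by_cases h : l = 2
      · subst h; simp
      · simp [h]) (by simpa using h2) g2
    have e : (1 : K) * Q 0 ^ m 0 * Q 1 ^ m 1 * Q 2 ^ a =
      Q 2 ^ a * (Q 1 ^ m 1 * (Q 0 ^ m 0 * 1)) := by ring
    rw [e]
    exact hSW g3)
  -- now divide
  obtain ⟨g, hg1, hg2⟩ := hg (z * ((algebraMap k K (c 0) - t) ^ m 0 *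
    (algebraMap k K (c 1) - t) ^ m 1 * (algebraMap k K (c 2) - t) ^ m 2))
  have h4 := s3 g hg1
  have e : Polynomial.aeval t g * (1 * Q 0 ^ m 0 * Q 1 ^ m 1 * Q 2 ^ m 2) = z := by
    rw [← hg2]
    have e0 : (algebraMap k K (c 0) - t) ^ m 0 * Q 0 ^ m 0 = 1 := by
      rw [← mul_pow, hQ, one_pow]
    have e1 : (algebraMap k K (c 1) - t) ^ m 1 * Q 1 ^ m 1 = 1 := by
      rw [← mul_pow, hQ, one_pow]
    have e2 : (algebraMap k K (c 2) - t) ^ m 2 * Q 2 ^ m 2 = 1 := by
      rw [← mul_pow, hQ, one_pow]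
    calc _ = z * ((algebraMap k K (c 0) - t) ^ m 0 * Q 0 ^ m 0) *
          ((algebraMap k K (c 1) - t) ^ m 1 * Q 1 ^ m 1) *
          ((algebraMap k K (c 2) - t) ^ m 2 * Q 2 ^ m 2) := by ring
      _ = z := by rw [e0, e1, e2, mul_one, mul_one, mul_one]
  rwa [e] at h4

end base

/-- the base point and its certificates -/
theorem exists_base {k : Type*} [Field k] [CharZero k] (p δ : Fin 3 → ℕ) (L : ℕ)
    (hp : ∀ i, 2 ≤ p i) (hδ : ∀ i, 1 ≤ δ i) (hL : ∀ i, p i * δ i = L) :
    ∃ (N0 : Matrix (Ix p) (Ix p) k) (X : Fin 3 → Matrix (Ix p) (Ix p) k) (lam : Fin 3 → k),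
      N0 ^ Fintype.card (Ix p) = 0 ∧ N0 ^ (Fintype.card (Ix p) - 1) ≠ 0 ∧
      (∀ i, ∃ q : Polynomial k, q.coeff 0 = 0 ∧ X i = Polynomial.aeval N0 q) ∧
      (∀ i x y, lev p δ L y + δ i < lev p δ L x → X i x y = 0) ∧
      (∀ i, lam i ≠ 0) ∧
      (∀ i x y, lev p δ L x = lev p δ L y + δ i → X i x y = Ld p lam i x y) ∧
      ∀ κ, 1 ≤ κ → CertC (lev p δ L) δ N0 X κ := by
  classical
  have hcard : Fintype.card (Ix p) = 2 + ((p 0 - 1) + (p 1 - 1) + (p 2 - 1)) := by
    simp only [Ix, Fintype.card_option, Fintype.card_sigma, Fintype.card_fin, Fin.sum_univ_three]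
    omega
  obtain ⟨n, hn⟩ : ∃ n, n = Fintype.card (Ix p) := ⟨_, rfl⟩
  have hmon : (Polynomial.X ^ n : Polynomial k).Monic := Polynomial.monic_X_pow n
  have hne : (Polynomial.X ^ n : Polynomial k) ≠ 0 := hmon.ne_zero
  let K := AdjoinRoot (Polynomial.X ^ n : Polynomial k)
  let t : K := AdjoinRoot.root _
  have htn : t ^ n = 0 := by
    have := AdjoinRoot.eval₂_root (Polynomial.X ^ n : Polynomial k)
    simpa using this
  have htn' : t ^ (n - 1) ≠ 0 := by
    intro h
    have h1 : AdjoinRoot.mk (Polynomial.X ^ n : Polynomial k) (Polynomial.X ^ (n - 1)) = 0 := by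
      rw [map_pow, AdjoinRoot.mk_X]
      exact h
    rw [AdjoinRoot.mk_eq_zero] at h1
    have h2 := Polynomial.natDegree_le_of_dvd h1 (pow_ne_zero _ Polynomial.X_ne_zero)
    rw [Polynomial.natDegree_X_pow, Polynomial.natDegree_X_pow] at h2
    omega
  have hfin : Module.finrank k K = n := by
    have := (AdjoinRoot.powerBasis hne).finrank
    rw [this, AdjoinRoot.powerBasis_dim, Polynomial.natDegree_X_pow]
  have hae : ∀ g : Polynomial k, Polynomial.aeval t g = AdjoinRoot.mk (Polynomial.X ^ n) g :=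
    fun g => AdjoinRoot.aeval_eq g
  let c : Fin 3 → k := fun i => ((i : ℕ) : k) + 1
  have hc0 : ∀ i, c i ≠ 0 := fun i => Nat.cast_add_one_ne_zero _
  have hcne : ∀ i j, i ≠ j → c j - c i ≠ 0 := by
    intro i j hij h
    have h1 : ((j : ℕ) : k) = ((i : ℕ) : k) := by
      simp only [c] at h
      linear_combination h
    exact hij (Fin.ext (Nat.cast_injective h1.symm))
  have hunit : ∀ i, IsUnit (algebraMap k K (c i) - t) := by
    intro i
    have hu : IsUnit (algebraMap k K (c i)) := (IsUnit.mk0 _ (hc0 i)).map (algebraMap k K)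
    have hnil : IsNilpotent t := ⟨n, htn⟩
    rw [sub_eq_add_neg]
    exact hnil.neg.isUnit_add_left_of_commute hu (Commute.all _ _)
  choose Q' hQ' using fun i => (hunit i).exists_right_inv
  have hspan : ∀ z : K, z ∈ Sp1 t Q' k (fun l => p l - 1) ⊔ Submodule.span k {t} := by
    refine span_all hc0 hcne hQ' _ fun z => ?_
    obtain ⟨g, hg⟩ := AdjoinRoot.mk_surjective z
    refine ⟨g %ₘ (Polynomial.X ^ n), ?_, ?_⟩
    · have h1 := Polynomial.natDegree_modByMonic_lt g hmon (by
        intro h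
        have h2 := congrArg Polynomial.natDegree h
        rw [Polynomial.natDegree_X_pow, Polynomial.natDegree_one] at h2
        omega)
      rw [Polynomial.natDegree_X_pow] at h1
      omega
    · rw [hae, ← hg, eq_comm]
      rw [← sub_eq_zero, ← map_sub, AdjoinRoot.mk_eq_zero]
      refine ⟨- (g /ₘ (Polynomial.X ^ n)), ?_⟩
      have h1 := Polynomial.modByMonic_add_div g (Polynomial.X ^ n)
      linear_combination h1
  let bf : Ix p → K := fun y => match y with
    | none => 1
    | some none => t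
    | some (some a) => (t * Q' a.1) ^ ((a.2 : ℕ) + 1)
  have htop : ⊤ ≤ Submodule.span k (Set.range bf) := by
    suffices hle : Sp1 t Q' k (fun l => p l - 1) ⊔ Submodule.span k {t} ≤
        Submodule.span k (Set.range bf) by
      intro z _
      exact hle (hspan z)
    refine sup_le (Submodule.span_le.2 ?_) (Submodule.span_le.2 ?_)
    · rintro y (rfl | ⟨l, a, h1, h2, rfl⟩)
      · exact Submodule.subset_span ⟨none, rfl⟩
      · refine Submodule.subset_span ⟨some (some ⟨l, ⟨a - 1, by simp only at h2; omega⟩⟩), ?_⟩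
        change (t * Q' l) ^ (a - 1 + 1) = (t * Q' l) ^ a
        congr 1
        omega
    · rintro y rfl
      exact Submodule.subset_span ⟨some none, rfl⟩
  let b : Module.Basis (Ix p) k K := basisOfTopLeSpanOfCardEqFinrank bf htop (by rw [hfin, hn])
  have hb : ∀ y, b y = bf y := fun y => congrFun (coe_basisOfTopLeSpanOfCardEqFinrank bf htop _) y
  have B : Bs p δ L c t Q' b :=
    { hp := hp
      hδ := hδ
      hL := hL
      c0 := hc0
      cne := hcne
      hQ := hQ'
      b1 := hb none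
      bt := hb (some none)
      bx := fun a => hb (some (some a))
      nil := ⟨n, htn⟩ }
  refine B.all (fun z => ?_) (by rw [← hn]; exact htn) (by rw [← hn]; exact htn')
  obtain ⟨g, hg⟩ := AdjoinRoot.mk_surjective z
  exact ⟨g, by rw [hae, hg]⟩

end Pool.Agent.Lib.D13.TM
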