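import Pool.Agent.Lib.D13.TowerWCk

/-!
# MP_5dcbc3_ag: density certificates, type 4321, family (2431|3421), d = 10, degrees (2,3,3)
-/

namespace Pool.Agent.Lib.D13.TW4321

open Refl Pool.Agent.Lib.Q5dc

/-- the base point -/
def bs : Base where
  lev := [0, 0, 2, 3, 3, 3, 4, 6, 6, 6]
  pw := [[[(0, 1)], [(1, 1)], [(2, 1)], [(3, 1)], [(4, 1)], [(5, 1)], [(6, 1)], [(7, 1)], [(8, 1)],
      [(9, 1)]],
    [[], [(0, 1)], [(1, 1)], [(5, 1), (9, -1)], [(3, 1)], [(4, -1)], [(2, 1), (4, 1)], [(6, 1),
      (9, 1)], [(7, 1)], [(8, 1)]],
    [[], [], [(0, 1)], [(4, -1), (8, -1)], [(5, 1), (9, -1)], [(3, -1)], [(1, 1), (3, 1)], [(2,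
      1), (4, 1), (8, 1)], [(6, 1), (9, 1)], [(7, 1)]],
    [[], [], [], [(3, -1), (7, -1)], [(4, -1), (8, -1)], [(5, -1), (9, 1)], [(0, 1), (5, 1),
      (9, -1)], [(1, 1), (3, 1), (7, 1)], [(2, 1), (4, 1), (8, 1)], [(6, 1), (9, 1)]],
    [[], [], [], [(5, -1), (6, -1)], [(3, -1), (7, -1)], [(4, 1), (8, 1)], [(4, -1), (8, -1)],
      [(0, 1), (5, 1), (6, 1)], [(1, 1), (3, 1), (7, 1)], [(2, 1), (4, 1), (8, 1)]],
    [[], [], [], [(2, -1)], [(5, -1), (6, -1)], [(3, 1), (7, 1)], [(3, -1), (7, -1)], [(2, 1)],
      [(0, 1), (5, 1), (6, 1)], [(1, 1), (3, 1), (7, 1)]],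
    [[], [], [], [(1, -1)], [(2, -1)], [(5, 1), (6, 1)], [(5, -1), (6, -1)], [(1, 1)], [(2,
      1)], [(0, 1), (5, 1), (6, 1)]],
    [[], [], [], [(0, -1)], [(1, -1)], [(2, 1)], [(2, -1)], [(0, 1)], [(1, 1)], [(2, 1)]],
    [[], [], [], [], [(0, -1)], [(1, 1)], [(1, -1)], [], [(0, 1)], [(1, 1)]],
    [[], [], [], [], [], [(0, 1)], [(0, -1)], [], [], [(0, 1)]]]
  xc := [[(1, 1)], [(1, 1), (4, -1), (7, 1)], [(2, 1), (5, -1), (8, 1)]]
  X := [[[], [(0, 1)], [(1, 1)], [(5, 1), (9, -1)], [(3, 1)], [(4, -1)], [(2, 1), (4, 1)], [(6, 1),
      (9, 1)], [(7, 1)], [(8, 1)]],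
    [[], [(0, 1)], [(1, 1)], [(0, -1), (5, 2), (6, 1), (9, -1)], [(1, -1), (3, 2), (7, 1)],
      [(2, 1), (4, -2), (8, -1)], [(4, 2), (8, 1)], [(5, -1), (9, 1)], [(3, -1)], [(4, -1)]],
    [[], [], [(0, 1)], [(2, 1), (4, -1), (8, -1)], [(0, -1), (5, 2), (6, 1), (9, -1)], [(1, 1),
      (3, -2), (7, -1)], [(3, 2), (7, 1)], [(4, 1), (8, 1)], [(5, -1), (9, 1)], [(3, -1)]]]

/-- degrees -/
def dl : List ℕ := [2, 3, 3]

theorem bs_ck : bs.ckW dl 10 = true := by decide +kernel

/-- certificate -/
def ce0 : Cer where
  den := 6
  N := [[[(41, 18), (70, 6), (75, -6), (92, 12), (94, -12), (141, -12), (170, -12), (175, 6), (183,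
      -12), (194, -12), (240, -6), (251, -12), (261, -6), (274, 6), (285, 12), (293, 12)],
      [(50, -16), (60, -7), (71, -3), (73, 2), (82, -3), (84, 2), (90, 9), (95, 2), (96, -1),
      (131, -5), (150, 2), (160, -2), (173, 2), (190, -4), (195, -1), (230, 5), (241, -1), (275,
      -2), (281, 2)],
      [],
      [],
      [],
      [],
      [],
      [],
      [],
      []],
    [[(20, -18), (40, 24), (61, 6), (72, 6), (80, 24), (86, 6), (91, 6), (140, -8), (151, -16),
      (180, -8), (191, 16), (193, -8), (231, -8), (250, 16), (290, -16), (295, 8)],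
      [(30, -6), (41, 12), (92, 6), (94, -6), (141, -6), (170, -6), (175, -6), (183, -12), (194,
      -12), (272, 6), (274, -6), (285, 12), (293, 12)],
      [],
      [],
      [],
      [],
      [],
      [],
      [],
      []],
    [[(71, 6), (73, -6), (82, 6), (84, -6), (160, 6), (182, -6), (190, 6), (230, 6)],
      [(20, -18), (40, 18), (61, 6), (72, 6), (80, 18), (86, 6), (91, 6), (140, -6), (151, -12),
      (180, -6), (191, 12), (193, -6), (231, -6), (250, 12), (290, -12), (295, 6)],
      [(21, -4), (30, -8), (41, 14), (62, 2), (75, -4), (76, 2), (92, 8), (94, -6), (141, -8),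
      (170, -8), (175, 2), (183, -8), (194, -8), (251, -4), (261, -4), (272, 4), (285, 8), (293,
      8)],
      [],
      [],
      [],
      [],
      [],
      [],
      []],
    [[(40, 6), (91, 6)],
      [],
      [(50, 6), (71, 6), (73, -6), (82, 6), (84, -6), (90, -6), (160, 6), (182, -6), (190, 6)],
      [(41, 6), (92, 6), (94, -6), (175, -6), (183, -12), (194, -6), (272, 6), (274, -6), (285,
      12), (293, 6)],
      [],
      [(20, -9), (40, 12), (61, 3), (72, 3), (80, 12), (85, -3), (86, 3), (91, 3), (140, -2),
      (151, -4), (161, 3), (172, -3), (180, -2), (191, 7), (193, -2), (231, -8), (250, 7), (260,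
      -3), (284, 3), (290, -10), (295, 2)],
      [],
      [],
      [],
      []],
    [[(50, -6), (90, 6)],
      [],
      [(175, -6), (183, -6), (194, -6), (272, 6), (274, -6), (285, 6), (293, 6)],
      [(20, -9), (40, 12), (61, 3), (72, 3), (80, 12), (85, -3), (86, 3), (91, 3), (151, -6),
      (161, 3), (172, -3), (191, 9), (193, -6), (231, -6), (250, 9), (260, -3), (284, 3), (290,
      -12), (295, 6)],
      [(41, 6), (92, 6), (94, -6), (175, -6), (183, -12), (194, -12), (272, 6), (274, -6), (285,
      12), (293, 12)],
      [(50, 10), (60, 1), (71, 9), (73, -8), (82, 9), (84, -8), (90, -9), (95, -2), (96, 1),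
      (131, 5), (150, -2), (160, 8), (173, -2), (182, -6), (190, 10), (195, 1), (230, 1), (241,
      -5), (275, 2), (281, -2)],
      [],
      [],
      [],
      []],
    [[],
      [],
      [(40, 6), (80, 6), (140, -6), (161, 6), (174, -6), (180, -6), (191, 6), (250, -6), (260,
      -6), (273, 6)],
      [(50, -8), (60, -2), (71, -6), (73, 4), (82, -6), (84, 4), (90, 6), (95, -2), (96, -2),
      (131, -4), (150, 4), (160, -4), (173, -2), (182, 6), (190, -8), (195, -2), (230, -2), (241,
      4), (275, 2), (281, -2)],
      [(20, 9), (40, -12), (61, -3), (72, -3), (80, -6), (85, 3), (86, -3), (91, -9), (140, -2),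
      (151, 8), (161, 3), (172, 3), (174, -6), (180, -8), (191, 1), (193, 4), (231, 4), (250,
      -11), (260, -3), (273, 6), (284, -3), (290, 8), (295, -4)],
      [],
      [],
      [],
      [],
      []],
    [[(41, 12), (70, 6), (75, -6), (92, 6), (94, -6), (141, -12), (170, -12), (175, 6), (183,
      -6), (194, -6), (251, -12), (261, -6), (274, 6), (280, 6), (285, 6), (293, 6)],
      [(50, -6), (60, -6), (71, 6), (73, -6), (82, 6), (84, -6), (160, 6), (182, -6), (190, 6),
      (230, 6)],
      [(20, -12), (40, 12), (72, 6), (80, 12), (86, 6), (140, -4), (151, -8), (180, -4), (191,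
      8), (193, -4), (231, -4), (250, 8), (290, -8), (295, 4)],
      [(50, 6), (71, 6), (82, 6), (90, -6), (95, -6), (96, 6), (131, 6), (160, 6), (182, -6),
      (190, 6), (195, 6), (241, -6)],
      [(20, -12), (40, 12), (72, 6), (80, 6), (85, -6), (86, 6), (91, 6), (140, 2), (151, -8),
      (172, -6), (174, 6), (180, 8), (191, 2), (193, -4), (231, -4), (250, 14), (260, 6), (273,
      -6), (290, -8), (295, 4)],
      [(30, -6), (41, 12), (92, 6), (94, -6), (141, -6), (170, -6), (183, -6), (194, -6), (251,
      -6), (261, -6), (272, 6), (285, 6), (293, 6)],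
      [(21, -2), (30, -10), (41, 22), (62, -2), (75, -8), (76, 4), (92, 10), (94, -6), (141,
      -10), (170, -10), (175, -2), (183, -16), (194, -16), (251, -8), (261, -8), (272, 14), (274,
      -6), (285, 16), (293, 16)],
      [],
      [],
      []],
    [[(80, 6), (91, -6)],
      [(41, 6), (92, 6), (94, -6), (141, -6), (170, -6), (183, -6), (194, -6), (251, -6), (280,
      6), (285, 6), (293, 6)],
      [(50, -6), (60, -6), (73, -6), (82, 6), (84, -6), (160, 6), (182, -6), (190, 6), (230, 6)],
      [],
      [(60, -3), (71, 3), (73, -6), (82, 3), (90, -3), (95, -6), (96, 3), (131, 3), (160, 6),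
      (182, -6), (190, 6), (195, 3), (230, 3), (241, -3)],
      [(85, 6)],
      [(20, -6), (40, 6), (80, 6), (86, 6), (140, -2), (151, -4), (180, -2), (191, 4), (193, -2),
      (231, -2), (250, 4), (290, -4), (295, 2)],
      [(41, 6), (92, 6), (94, -6), (183, -6), (194, -6), (272, 6), (274, -6), (285, 6), (293,
      6)],
      [(50, 2), (60, -1), (71, 3), (73, -4), (82, 3), (84, 8), (90, -3), (95, -22), (96, 11),
      (131, 7), (150, 2), (160, 4), (173, 2), (182, -6), (190, 2), (195, 11), (230, -1), (241,
      -7), (275, 4), (281, -4)],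
      [(20, -12), (40, 6), (80, 6), (85, -12), (86, 12), (140, -2), (151, -10), (161, -6), (174,
      6), (180, -2), (191, 4), (193, -2), (231, -2), (250, 10), (260, 6), (284, -6), (290, -4),
      (295, 2)]],
    [[],
      [],
      [],
      [],
      [],
      [(50, -6), (60, -3), (71, -3), (82, -3), (90, 3), (95, 6), (96, -3), (131, -3), (195, -3),
      (230, 3), (241, 3)],
      [(50, -6), (60, -6), (73, -6), (84, -6), (160, 6), (182, -6), (190, 6), (230, 6)],
      [],
      [(41, 6), (92, 6), (94, -6), (175, -6), (183, -6), (194, -6), (272, 6), (274, -6), (285,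
      12), (293, 6)],
      [(50, 4), (60, -2), (71, 6), (73, -8), (82, 6), (84, -8), (90, -6), (95, -20), (96, 10),
      (131, 8), (150, -2), (160, 8), (173, -2), (182, -12), (184, 6), (190, 10), (195, 10), (230,
      4), (241, -8), (275, 2), (281, -2)]],
    [[(30, -6), (41, 6), (175, -6), (183, -6), (194, -6), (272, 6), (274, -6), (285, 6), (293,
      6)],
      [],
      [],
      [(50, -6), (60, -3), (71, -3), (82, -3), (90, 3), (96, -3), (131, -3), (195, -3), (230, 3),
      (241, 3)],
      [(40, -6), (91, -6), (180, -6), (191, 6)],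
      [(41, -6), (92, -6), (94, 6), (175, 6), (183, 6), (194, 6), (272, -6), (274, 6), (285, -6),
      (293, -6)],
      [(30, 6), (41, -12), (75, 6), (92, -6), (141, 6), (170, 6), (183, 6), (194, 6), (251, 6),
      (261, 6), (272, -6), (285, -6), (293, -6)],
      [(50, -6), (60, -6), (73, -6), (84, -6), (96, -6), (160, 6), (182, -6), (190, 6), (230,
      6)],
      [(40, -6), (80, 6), (85, -6), (91, -12), (140, 2), (151, 4), (161, 6), (172, -6), (180,
      -10), (191, 14), (193, 2), (231, -4), (250, 2), (260, -6), (284, 6), (290, -8), (295, 4)],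
      [(30, 12), (41, -6), (75, 12), (92, 6), (94, -18), (141, 12), (170, 12), (175, -18), (183,
      -12), (194, -6), (251, 12), (261, 12), (272, 6), (274, -18), (285, 12), (293, 12)]]]
  A := [[[(21, 2), (30, -2), (41, 2), (62, 2), (75, -4), (76, 2), (92, 2), (141, -2), (170, -2),
      (175, 8), (183, 4), (194, 4), (251, -4), (261, -4), (272, -2), (274, 6), (285, -4), (293,
      -4)],
      [(20, 6), (40, -6), (80, -6), (140, 2), (151, 4), (180, 2), (191, -4), (193, 2), (231, 2),
      (250, -4), (290, 4), (295, -2)],
      [],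
      [(30, 6), (41, -6), (75, 6), (141, 6), (170, 6), (175, -6), (251, 6), (261, 6), (274, -6)],
      [],
      [],
      [(41, -6), (175, 6), (183, 6), (194, 6), (272, -6), (274, 6), (285, -6), (293, -6)],
      [(91, 6)],
      [(90, 6)]],
    [[],
      [(20, 9), (61, -3), (72, -3), (85, 3), (86, -3), (91, -3), (140, -4), (151, 10), (161, 9),
      (172, 3), (174, -6), (180, -4), (191, -1), (193, 2), (231, 2), (250, -13), (260, -9), (273,
      6), (284, 3), (290, 4), (295, -2)],
      [(50, -4), (60, -4), (73, -4), (84, -4), (95, 8), (96, -4), (131, -2), (150, 2), (160, 4),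
      (173, 2), (190, 2), (195, -4), (230, 2), (241, 2), (275, -2), (281, 2)],
      [],
      [(20, -9), (40, 6), (61, 3), (72, 3), (80, 6), (85, 3), (86, 3), (91, 3), (140, -2), (151,
      -10), (161, -3), (172, 3), (180, -2), (191, 7), (193, -2), (231, -2), (250, 7), (260, 3),
      (284, -3), (290, -4), (295, 2)],
      [(50, 4), (60, 1), (71, 3), (73, -2), (82, 3), (84, -2), (90, -3), (95, -2), (96, 1), (131,
      -1), (150, -2), (160, 2), (173, -2), (190, 4), (195, 1), (230, 1), (241, 1), (275, 2),
      (281, -2)],
      [(30, 6), (92, 6), (94, -6), (141, -6), (175, 6), (251, -6), (272, -6), (274, 6), (280,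
      6)],
      [(20, 9), (61, -3), (72, -3), (80, -6), (85, -3), (86, -3), (91, 3), (140, 2), (151, 10),
      (161, 3), (172, -3), (180, 8), (191, -7), (193, 2), (231, 2), (250, -7), (260, -3), (284,
      3), (290, 4), (295, -2)],
      [(50, -4), (60, 2), (73, 2), (84, 2), (90, 6), (95, 2), (96, 2), (131, 4), (150, 2), (160,
      -2), (173, 2), (190, 2), (195, 2), (230, -4), (241, -4), (275, -2), (281, 2)]],
    [[],
      [(175, 6), (183, 6), (194, 6), (274, 6), (285, -6), (293, -6)],
      [(20, 9), (40, -6), (61, -3), (72, -3), (80, -6), (85, 3), (86, -3), (91, -3), (140, -2),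
      (151, 8), (161, 3), (172, 3), (174, -6), (180, -2), (191, -5), (193, 4), (231, 4), (250,
      -11), (260, -3), (273, 6), (284, 3), (290, 8), (295, -4)],
      [(50, -6), (60, -3), (71, -3), (82, -3), (90, 3), (95, 6), (96, -3), (131, -3), (195, -3),
      (230, 3), (241, 3), (281, 6)],
      [],
      [(20, -9), (40, 6), (61, 3), (72, 3), (80, 6), (85, 3), (86, 3), (91, 3), (140, -4), (151,
      -8), (161, -3), (172, 3), (180, -4), (191, 5), (193, -4), (231, -4), (250, 5), (260, 3),
      (284, -3), (290, -2), (295, 4)],
      [],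
      [(30, 6), (41, -6), (175, 6), (183, 6), (194, 6), (272, -6), (274, 6), (280, 6), (285, -6),
      (293, -6)],
      [(20, 9), (40, 6), (61, -3), (72, -3), (80, -6), (85, -3), (86, -3), (91, 9), (140, 4),
      (151, 8), (161, 3), (172, -3), (180, 10), (191, -11), (193, 4), (231, 4), (250, -5), (260,
      -3), (284, 3), (290, 8), (295, -4)]]]
  W := [[[],
      [],
      [],
      [[],
       [(70, 6), (81, 6)]],
      [],
      [[],
       [(71, 6), (170, -6), (270, 6)]],
      [],
      [[],
       [],
       [],
       [],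
       [(170, -6), (270, 6)]],
      [[],
       [(171, -6), (190, -6)],
       [],
       [(80, -6), (171, -6), (271, 6)]],
      [[],
       [],
       [],
       [(90, -6)]]],
    [[],
      [],
      [],
      [[(91, 6), (271, 6), (290, 6)]],
      [],
      [],
      [],
      [[],
       [(70, -6)]],
      [[],
       [(190, -6), (271, -6)],
       [],
       [],
       [],
       [(71, 6), (170, -6), (181, -6), (281, 6)]],
      [[],
       [],
       [(91, -6), (190, -6), (271, -6)]]],
    [[],
      [],
      [],
      [],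
      [],
      [],
      [],
      [[(180, 6)],
       [(270, -6)]],
      [[],
       [],
       [(71, 6), (170, -6), (181, -6)],
       [(280, 6)]],
      [[],
       [(190, -6)],
       [(70, 6), (81, 6), (191, -6)],
       [],
       [(70, 6), (81, 6), (191, -6), (291, 6)]]]]

theorem ce0_ck : ce0.ckW bs dl 10 0 = true := by decide +kernel

/-- certificate -/
def ce1 : Cer where
  den := 1
  N := [[],
    [],
    [[(31, 2), (60, 1), (73, -1), (90, 1), (95, -2), (160, -1), (171, 3), (182, -2), (190, -1)],
      [(40, -1), (61, 1), (161, -1), (172, 1), (180, -1)],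
      [],
      [],
      [],
      [],
      [],
      [],
      [],
      []],
    [[(40, 1), (51, 1)],
      [],
      [(31, -1)],
      [],
      [],
      [],
      [],
      [],
      [],
      []],
    [[],
      [],
      [(41, -1)],
      [],
      [],
      [],
      [],
      [],
      [],
      []],
    [[(30, 1)],
      [],
      [],
      [],
      [],
      [],
      [],
      [],
      [],
      []],
    [[(70, 1), (81, 1)],
      [(31, 1), (50, -1), (90, 1), (95, -1), (160, -1), (171, 2), (182, -1), (190, -1)],
      [(40, -1), (51, -1), (161, -1), (172, 1), (180, -1)],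
      [],
      [],
      [(41, 1), (81, 2), (170, 1), (181, -1), (261, -1), (272, 1), (280, -1)],
      [],
      [],
      [],
      []],
    [[(80, 1), (91, -1), (271, 2), (282, -2)],
      [(81, 1)],
      [],
      [(30, 1), (81, 1), (170, 1), (181, -1)],
      [],
      [],
      [(51, -1), (74, -1), (91, 1), (93, -1), (271, -1), (282, 1)],
      [],
      [],
      []],
    [[(50, -1), (90, 1)],
      [(271, 1), (282, -1)],
      [],
      [],
      [],
      [(31, 1), (171, 1), (182, -1)],
      [(73, 1), (84, -1), (95, 1)],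
      [],
      [],
      []],
    [[],
      [],
      [],
      [(31, 1), (95, -1), (171, 1), (182, -1)],
      [(51, -1), (91, 1), (93, -1), (271, -1), (282, 1)],
      [(30, 1), (280, 1), (291, -1)],
      [(92, -1)],
      [],
      [],
      []]]
  A := [[[],
      [],
      [(31, -1), (73, 1), (95, 1), (171, -1), (182, 1)],
      [],
      [(51, -1), (91, 1), (271, -1), (282, 1)],
      [],
      [],
      [(51, 1)],
      [(50, 1)]],
    [[],
      [(40, -1), (51, -1), (172, 1), (180, -1), (271, -1), (282, 1)],
      [(171, 1)],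
      [],
      [(40, 1), (51, 1), (180, 1), (271, 1), (282, -1)],
      [],
      [(181, 1)],
      [],
      [(31, -1), (95, 1), (171, -1), (182, 1), (190, 1)]],
    [[],
      [(41, 1), (81, 1), (170, 1), (181, -1), (272, 1), (280, -1)],
      [],
      [(31, 1), (171, 1), (182, -1), (281, 1)],
      [(30, 1), (280, 1)],
      [(282, 1)],
      [],
      [],
      [(40, 1), (51, 2), (91, -1), (93, 1), (271, 1), (282, -2), (290, 1)]]]
  W := [[[],
      [],
      [],
      [],
      [],
      [],
      [],
      [[],
       [(70, 1)],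
       [(71, 1), (90, 1)],
       [],
       [],
       [(171, 1)]],
      [[],
       [],
       [(81, 1)],
       [(80, -1)],
       [],
       [(181, 1)]],
      [[],
       [],
       [],
       [],
       [(190, -1)]]],
    [[],
      [],
      [],
      [],
      [],
      [],
      [],
      [],
      [],
      [[],
       [(90, -1)],
       [(91, -1), (190, 1)]]],
    [[],
      [],
      [],
      [],
      [],
      [],
      [[(71, -1), (90, -1), (170, 1)]],
      [[(81, -1), (180, 1)]],
      [],
      [[],
       [],
       [(191, -1)]]]]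

theorem ce1_ck : ce1.ckW bs dl 10 1 = true := by decide +kernel

/-- certificate -/
def ce2 : Cer where
  den := 1
  N := [[],
    [],
    [[(60, 1), (71, 1)],
      [],
      [],
      [],
      [],
      [],
      [],
      [],
      [],
      []],
    [[],
      [(170, -1), (181, -1), (280, 1)],
      [],
      [],
      [],
      [],
      [],
      [],
      [],
      []],
    [[],
      [(191, -1)],
      [],
      [],
      [],
      [],
      [],
      [],
      [],
      []],
    [],
    [[(70, 1), (81, -1), (170, -1)],
      [(71, 1)],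
      [(61, -1), (191, -1)],
      [],
      [],
      [],
      [],
      [],
      [],
      []],
    [[(80, 1), (91, -1)],
      [],
      [],
      [],
      [],
      [(191, -1), (271, -1)],
      [(61, -1), (72, -1), (91, 1), (191, -1)],
      [],
      [],
      []],
    [[(90, 1)],
      [],
      [],
      [(180, 1)],
      [(170, -1), (280, 1)],
      [(90, -1), (270, 1), (281, -1)],
      [(82, -1)],
      [],
      [],
      []],
    [[(170, 1)],
      [],
      [],
      [],
      [],
      [(170, 1), (181, 1), (280, -1), (291, -1)],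
      [(81, 1), (92, -1)],
      [],
      [],
      []]]
  A := [[[],
      [],
      [],
      [],
      [(91, 1)],
      [],
      [(81, 1)],
      [],
      []],
    [[],
      [],
      [(171, 1), (190, -1)],
      [],
      [],
      [(190, 1)],
      [],
      [],
      []],
    [[],
      [],
      [],
      [(90, -1), (270, 1)],
      [],
      [],
      [],
      [],
      [(290, 1)]]]
  W := [[[],
      [],
      [],
      [],
      [],
      [],
      [],
      [],
      [],
      []],
    [[],
      [],
      [],
      [],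
      [],
      [],
      [],
      [],
      [],
      []],
    [[],
      [],
      [],
      [],
      [],
      [],
      [],
      [],
      [],
      []]]

theorem ce2_ck : ce2.ckW bs dl 10 2 = true := by decide +kernel

/-- certificate -/
def ce3 : Cer where
  den := 1
  N := [[],
    [],
    [],
    [[(180, -1), (191, 1)],
      [],
      [],
      [],
      [],
      [],
      [],
      [],
      [],
      []],
    [],
    [],
    [[(70, 1), (81, -1)],
      [],
      [],
      [],
      [],
      [],
      [],
      [],
      [],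
      []],
    [[(80, 1), (91, -1)],
      [],
      [],
      [(170, 1)],
      [],
      [],
      [],
      [],
      [],
      []],
    [[],
      [],
      [],
      [],
      [(181, 1)],
      [(270, 1), (281, -1)],
      [],
      [],
      [],
      []],
    [[],
      [],
      [],
      [(190, 1)],
      [],
      [(181, -1), (280, 1), (291, -1)],
      [],
      [],
      [],
      []]]
  A := [[[],
      [],
      [(71, 1), (90, -1)],
      [],
      [(91, 1)],
      [(90, 1)],
      [(81, 1)],
      [],
      []],
    [[],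
      [],
      [(171, 1)],
      [],
      [(191, 1)],
      [],
      [],
      [],
      []],
    [[],
      [],
      [(271, 1)],
      [],
      [(181, -1), (280, 1)],
      [],
      [(270, 1)],
      [],
      [(180, -1), (191, 1), (290, 1)]]]
  W := [[[],
      [],
      [],
      [],
      [],
      [],
      [],
      [],
      [],
      []],
    [[],
      [],
      [],
      [],
      [],
      [],
      [],
      [],
      [],
      []],
    [[],
      [],
      [],
      [],
      [],
      [],
      [],
      [],
      [],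
      []]]

theorem ce3_ck : ce3.ckW bs dl 10 3 = true := by decide +kernel

/-- certificate -/
def ce4 : Cer where
  den := 1
  N := [[],
    [],
    [],
    [],
    [],
    [],
    [[(70, 1)],
      [],
      [],
      [],
      [],
      [],
      [],
      [],
      [],
      []],
    [[(80, 1), (91, -1)],
      [],
      [(71, -1)],
      [],
      [],
      [],
      [],
      [],
      [],
      []],
    [[],
      [],
      [(81, -1)],
      [],
      [],
      [],
      [],
      [],
      [],
      []],
    []]
  A := [[[],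
      [],
      [],
      [],
      [],
      [],
      [],
      [(91, 1)],
      [(90, 1)]],
    [],
    []]
  W := [[[],
      [],
      [],
      [],
      [],
      [],
      [],
      [],
      [],
      []],
    [[],
      [],
      [],
      [],
      [],
      [],
      [],
      [],
      [],
      []],
    [[],
      [],
      [],
      [],
      [],
      [],
      [],
      [],
      [],
      []]]

theorem ce4_ck : ce4.ckW bs dl 10 4 = true := by decide +kernel

/-- exactness certificates -/
def exs : List TowerCk.EC := [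
  ⟨1, [],
    []⟩,
  ⟨1, [],
    []⟩,
  ⟨1, [],
    []⟩,
  ⟨1, [],
    []⟩,
  ⟨1, [],
    []⟩,
  ⟨1, [[[],
      [],
      [],
      [(20, -1)],
      [(10, 1)],
      [(11, -1)]],
    [[],
      [],
      [(10, -1), (21, -1)]],
    []],
    []⟩,
  ⟨1, [[],
    [[],
      [],
      [],
      [],
      [(0, -1)],
      [(1, 1)]],
    []],
    []⟩]

theorem exs_ck : allb (fun c => (nth ⟨1, [], []⟩ exs c).ckW bs dl 10 c) (6 + 1) = true := by
  decide +kernel

/-- all certificates -/
theorem cert {k : Type*} [Field k] [CharZero k] (κ : ℕ) :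
    CertW (fun x : Fin 10 => bs.w x) (fun i => nth 0 dl i) (Mt k 10 (nth [] bs.pw 1))
      (XX k bs 10) κ := by
  have hB : bs.ckPow 10 = true := by
    have h := bs_ck
    simp only [Base.ckW, Bool.and_eq_true] at h
    exact h.1.1
  rcases Nat.lt_or_ge κ 5 with h | h
  · interval_cases κ
    · exact certW_of_ck bs dl (by norm_num) hB ce0 ce0_ck
    · exact certW_of_ck bs dl (by norm_num) hB ce1 ce1_ck
    · exact certW_of_ck bs dl (by norm_num) hB ce2 ce2_ck
    · exact certW_of_ck bs dl (by norm_num) hB ce3 ce3_ck
    · exact certW_of_ck bs dl (by norm_num) hB ce4 ce4_ck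
  · have h1 : ∀ x : Fin 10, bs.w x ≤ 6 := by decide
    have h2 : ∀ i : Fin 3, 2 ≤ nth 0 dl i := by decide
    refine certW_top fun i x => ?_
    have h3 := h1 x
    have h4 := h2 i
    show bs.w x < nth 0 dl i + κ
    omega

/-- **Levels of sizes `2, 0, 1, 3, 1, 0, 3`, degrees `2, 3, 3`.** -/
theorem cl {k : Type*} [Field k] [CharZero k] {ι : Type*} [Fintype ι] [DecidableEq ι] (w : ι → ℕ)
    (hle : ∀ x, w x ≤ 6) (hn : ∀ a : Fin 7, Fintype.card {x // w x = (a : ℕ)} =
      ![2, 0, 1, 3, 1, 0, 3] a)
    {T : Fin 3 → Matrix ι ι k} (hT : ∀ i j, T i * T j = T j * T i)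
    (hlow : ∀ i x y, w x < w y + ![2, 3, 3] i → T i x y = 0)
    (eT : ∀ a ≤ 6, EXw w ![2, 3, 3] T a) : Cl T := by
  have hd : (fun i : Fin 3 => nth 0 dl i) = ![2, 3, 3] := by decide
  refine TowerCk.cl_towerW_ck (dl := dl) (by norm_num) (by decide) bs_ck cert 6 (by decide)
    (TowerCk.exw_all bs dl (by norm_num) exs 6 exs_ck) w hle ?_ hT ?_ (by rw [hd]; exact eT)
  · intro a ha
    have h : ∀ a : Fin 7, Fintype.card {x : Fin 10 // bs.w x = (a : ℕ)} =
        ![2, 0, 1, 3, 1, 0, 3] a := by decide
    exact (hn ⟨a, by omega⟩).trans (h ⟨a, by omega⟩).symm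
  · intro i x y hxy
    refine hlow i x y ?_
    rw [← hd]
    exact hxy

end Pool.Agent.Lib.D13.TW4321
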