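import Pool.Agent.Lib.D13.TowerWCk

/-!
# MP_5dcbc3_ag: density certificates, type 5221, family (23311|34111), d = 10, degrees (1,2,2)
-/

namespace Pool.Agent.Lib.D13.TW5221

open Refl Pool.Agent.Lib.Q5dc

/-- the base point -/
def bs : Base where
  lev := [0, 1, 2, 2, 2, 2, 3, 4, 4, 4]
  pw := [[[(0, 1)], [(1, 1)], [(2, 1)], [(3, 1)], [(4, 1)], [(5, 1)], [(6, 1)], [(7, 1)], [(8, 1)],
      [(9, 1)]],
    [[], [(0, 1)], [(1, 1)], [(5, 1), (9, -1)], [(3, 1)], [(4, -1)], [(2, 1), (4, 1)], [(6, 1),
      (9, 1)], [(7, 1)], [(8, 1)]],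
    [[], [], [(0, 1)], [(4, -1), (8, -1)], [(5, 1), (9, -1)], [(3, -1)], [(1, 1), (3, 1)], [(2,
      1), (4, 1), (8, 1)], [(6, 1), (9, 1)], [(7, 1)]],
    [[], [], [], [(3, -1), (7, -1)], [(4, -1), (8, -1)], [(5, -1), (9, 1)], [(0, 1), (5, 1),
      (9, -1)], [(1, 1), (3, 1), (7, 1)], [(2, 1), (4, 1), (8, 1)], [(6, 1), (9, 1)]],
    [[], [], [], [(5, -1), (6, -1)], [(3, -1), (7, -1)], [(4, 1), (8, 1)], [(4, -1), (8, -1)],
      [(0, 1), (5, 1), (6, 1)], [(1, 1), (3, 1), (7, 1)], [(2, 1), (4, 1), (8, 1)]],
    [[], [], [], [(2, -1)], [(5, -1), (6, -1)], [(3, 1), (7, 1)], [(3, -1), (7, -1)], [(2, 1)],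
      [(0, 1), (5, 1), (6, 1)], [(1, 1), (3, 1), (7, 1)]],
    [[], [], [], [(1, -1)], [(2, -1)], [(5, 1), (6, 1)], [(5, -1), (6, -1)], [(1, 1)], [(2,
      1)], [(0, 1), (5, 1), (6, 1)]],
    [[], [], [], [(0, -1)], [(1, -1)], [(2, 1)], [(2, -1)], [(0, 1)], [(1, 1)], [(2, 1)]],
    [[], [], [], [], [(0, -1)], [(1, 1)], [(1, -1)], [], [(0, 1)], [(1, 1)]],
    [[], [], [], [], [], [(0, 1)], [(0, -1)], [], [], [(0, 1)]]]
  xc := [[(1, 1)], [(1, 1), (4, -1), (7, 1)], [(2, 1), (5, -1), (8, 1)]]
  X := [[[], [(0, 1)], [(1, 1)], [(5, 1), (9, -1)], [(3, 1)], [(4, -1)], [(2, 1), (4, 1)], [(6, 1),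
      (9, 1)], [(7, 1)], [(8, 1)]],
    [[], [(0, 1)], [(1, 1)], [(0, -1), (5, 2), (6, 1), (9, -1)], [(1, -1), (3, 2), (7, 1)],
      [(2, 1), (4, -2), (8, -1)], [(4, 2), (8, 1)], [(5, -1), (9, 1)], [(3, -1)], [(4, -1)]],
    [[], [], [(0, 1)], [(2, 1), (4, -1), (8, -1)], [(0, -1), (5, 2), (6, 1), (9, -1)], [(1, 1),
      (3, -2), (7, -1)], [(3, 2), (7, 1)], [(4, 1), (8, 1)], [(5, -1), (9, 1)], [(3, -1)]]]

/-- degrees -/
def dl : List ℕ := [1, 2, 2]

theorem bs_ck : bs.ckW dl 10 = true := by decide +kernel

/-- certificate -/
def ce0 : Cer where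
  den := 12
  N := [[[(62, 12), (64, -12), (75, 12), (81, -12), (92, 24), (94, -24), (170, -12), (181, 12),
      (220, 12), (272, -12), (280, 12), (291, -12)],
      [],
      [],
      [],
      [],
      [],
      [],
      [],
      [],
      []],
    [[(20, 12), (61, 12), (91, 12)],
      [(10, -9), (21, 3), (62, 12), (64, -9), (75, 9), (76, 3), (81, -12), (92, 24), (94, -21),
      (170, -12), (181, 12), (220, 9), (272, -12), (274, -3), (280, 12), (291, -12)],
      [],
      [],
      [],
      [],
      [],
      [],
      [],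
      []],
    [[(31, -4), (50, 6), (60, 6), (71, 6), (82, -6), (95, 2), (96, -6), (171, -6), (173, 4),
      (182, -2), (184, 4), (195, -4), (230, 6), (270, 6), (275, -4), (283, -4), (294, 2)],
      [(61, 12), (91, 12)],
      [(10, -6), (21, -6), (62, 12), (64, -6), (75, 6), (76, 6), (81, -12), (92, 24), (94, -18),
      (170, -12), (181, 12), (220, 6), (272, -12), (274, -6), (280, 12), (291, -12)],
      [(20, -6), (40, 6), (51, 24), (63, 6), (72, 6), (86, 6), (91, -18), (120, 6), (140, -14),
      (161, 6), (174, -12), (180, -8), (185, 4), (193, 4), (250, -14), (273, 12), (282, -10),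
      (284, -2), (290, 14), (295, -4)],
      [(10, -6), (21, -6), (64, 6), (75, -6), (76, 6), (94, 6), (220, 6), (274, -6)],
      [(31, 16), (50, -12), (60, -12), (65, 12), (95, -8), (150, 12), (160, 12), (173, 8), (182,
      -16), (184, -4), (195, 4), (275, -8), (283, 4), (294, 4)],
      [],
      [],
      [],
      []],
    [[(40, 12), (91, 12)],
      [(41, 12), (81, -12), (92, 24), (94, -24), (170, -12), (181, 12), (272, 12), (280, 12),
      (291, -12)],
      [(31, -12)],
      [(41, 8), (81, -4), (92, 12), (94, -12), (130, 8), (170, -4), (175, -4), (181, 12), (183,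
      -4), (240, -8), (274, -4), (280, 4), (285, 4), (291, -12)],
      [(31, -12), (50, -6), (60, -6), (71, -6), (82, 6), (95, 6), (96, 6), (171, -6), (182, 6),
      (230, 6), (270, 6), (294, -6)],
      [(20, 6), (40, 6), (63, 6), (72, -6), (86, -6), (91, 6), (120, -6), (140, -2), (161, 6),
      (180, 4), (185, -8), (193, 4), (250, -2), (282, 2), (284, -2), (290, 2), (295, -4)],
      [],
      [],
      [],
      []],
    [[(50, -12), (90, 12)],
      [],
      [(272, 12)],
      [(20, 6), (40, 6), (63, 6), (72, -6), (86, -6), (91, 6), (120, -6), (140, 2), (161, 6),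
      (180, 8), (185, -4), (193, -4), (250, 2), (282, -2), (284, 2), (290, -2), (295, 4)],
      [],
      [(31, 4), (50, 6), (60, 6), (71, 6), (82, -6), (95, -2), (96, -6), (171, 6), (173, -4),
      (182, 2), (184, -4), (195, -8), (230, -6), (270, -6), (275, 4), (283, 4), (294, -2)],
      [],
      [],
      [],
      []],
    [[(41, 12), (81, -24), (92, 36), (94, -36), (170, -24), (181, 24), (272, 12), (280, 12),
      (291, -12)],
      [],
      [(51, -12), (91, 12)],
      [(31, -8), (50, -6), (60, -6), (71, -6), (82, 6), (95, -2), (96, 6), (171, -6), (173, -4),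
      (182, 2), (184, 8), (195, 4), (230, 6), (270, 6), (275, 4), (283, -8), (294, -2)],
      [(20, -6), (40, -6), (51, -12), (63, -6), (72, 6), (86, 6), (91, 6), (93, -12), (120, 6),
      (140, 6), (161, -6), (250, 6), (282, 6), (284, -6), (290, -6)],
      [(41, 4), (81, -8), (92, 12), (94, -12), (130, 4), (170, -8), (175, -8), (181, 12), (183,
      4), (240, -4), (274, -8), (280, 8), (285, -4), (291, -12)],
      [],
      [],
      [],
      []],
    [[(41, -12), (62, 12), (64, -12), (75, 12), (81, 24), (92, -24), (94, 24), (170, 24), (181,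
      -24), (220, 12), (240, 12), (272, -12), (291, 12)],
      [(31, -2), (50, -3), (60, -3), (71, 9), (82, -3), (95, 1), (96, -3), (171, -3), (173, 2),
      (182, -1), (184, 2), (195, -2), (230, 3), (270, 3), (275, -2), (283, -2), (294, 1)],
      [],
      [(31, 22), (50, -3), (60, -3), (71, 9), (82, -3), (95, -11), (96, -3), (150, 12), (160,
      12), (171, 9), (173, 2), (182, -13), (184, -10), (195, -2), (230, -9), (270, -9), (275,
      -2), (283, 10), (294, 1)],
      [(40, 12), (51, 24), (91, -12), (140, -12), (161, 12), (174, -12), (250, -12), (273, 12),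
      (282, -12), (290, 12)],
      [(75, 12)],
      [(10, -3), (21, -3), (64, -3), (75, 3), (76, 9), (94, 9), (220, 3), (274, -9)],
      [],
      [],
      []],
    [[(40, -24), (61, 12), (63, -12), (91, -12), (120, 12), (140, 12), (161, -12)],
      [(81, 24), (92, -24), (94, 24), (170, 12), (181, -12), (280, -12), (291, 12)],
      [],
      [],
      [(31, 12), (95, -12), (171, 12), (182, -12)],
      [(51, -12), (91, 12), (271, -12), (282, 12)],
      [(72, -12)],
      [(81, -12), (92, 12), (94, -12), (170, -12), (181, 12), (274, -12), (280, 12), (291, -12)],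
      [(31, 28), (50, -6), (60, -6), (71, -6), (82, 6), (95, -38), (96, 6), (171, 18), (173, 8),
      (182, -34), (184, 8), (195, 4), (230, 6), (270, 6), (275, 4), (283, -8), (294, -2)],
      [(51, 36), (72, -12), (86, 12), (91, -36), (140, -8), (180, -8), (185, 4), (193, 4), (250,
      -8), (271, 24), (273, 12), (282, -28), (284, -8), (290, 8), (295, -4)]],
    [[],
      [],
      [],
      [],
      [(81, -12), (92, 12), (94, -12), (170, -12), (181, 12), (280, 12), (291, -12)],
      [(95, 12)],
      [(31, 2), (50, 3), (60, 3), (71, 3), (82, -9), (95, -1), (96, 3), (171, 3), (173, -2),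
      (182, 1), (184, -2), (195, 2), (230, -3), (270, -3), (275, 2), (283, 2), (294, -1)],
      [(72, -12), (86, -12)],
      [(41, 4), (81, -32), (92, 36), (94, -36), (130, 4), (170, -32), (175, -8), (181, 36), (183,
      4), (240, -4), (274, -8), (280, 32), (285, 8), (291, -36)],
      [(31, 4), (82, -12), (95, -32), (96, 12), (173, -4), (182, -4), (184, 8), (195, 4), (275,
      4), (283, 4), (294, -8)]],
    [[],
      [],
      [],
      [],
      [(93, -12)],
      [],
      [(81, -12), (92, 12), (94, -24), (170, -12), (181, 12), (280, 12), (291, -12)],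
      [(31, 4), (50, 6), (60, 6), (71, 6), (82, -6), (95, -2), (96, -6), (171, 6), (173, -4),
      (182, 2), (184, -4), (195, 4), (230, -6), (270, -6), (275, 4), (283, 4), (294, -2)],
      [(72, -12), (86, -12), (93, -24), (140, 4), (180, 4), (185, -8), (193, 4), (250, 4), (282,
      -4), (284, 4), (290, -4), (295, 8)],
      [(41, -4), (81, -28), (92, 24), (94, -48), (130, -4), (170, -28), (175, -4), (181, 24),
      (183, -4), (194, 12), (240, 4), (274, -4), (280, 28), (285, 4), (291, -24)]]]
  A := [[[(10, 3), (21, 3), (64, 3), (75, -3), (76, 3), (94, 3), (220, -3), (274, -3)],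
      [],
      [(31, 2), (50, 3), (60, 3), (71, 3), (82, 3), (95, -1), (96, 3), (171, 3), (173, -2), (182,
      1), (184, -2), (195, 2), (230, -3), (270, -3), (275, 2), (283, 2), (294, -1)],
      [],
      [],
      [],
      [(81, -12), (92, 24), (94, -24), (170, -12), (181, 12), (280, 12), (291, -12)],
      [(91, 12)],
      [(90, 12)]],
    [[],
      [(20, -6), (40, -6), (51, -24), (63, -6), (72, -6), (86, -6), (91, 18), (120, 6), (140,
      14), (161, -6), (174, 12), (180, 8), (185, -4), (193, -4), (250, 14), (273, -12), (282,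
      10), (284, 2), (290, -14), (295, 4)],
      [(31, -12), (95, 12), (182, 12)],
      [(41, 4), (81, 4), (130, 4), (170, 4), (175, 4), (183, 4), (240, -4), (274, 4), (280, -4),
      (285, -4)],
      [(20, 6), (40, 6), (63, 6), (72, 6), (86, 6), (91, 6), (120, -6), (140, -2), (161, 6),
      (180, 4), (185, 4), (193, 4), (250, -2), (282, 2), (284, -2), (290, 2), (295, -4)],
      [],
      [(41, 8), (81, -4), (92, 12), (94, -12), (130, -4), (170, -4), (175, -4), (181, 12), (183,
      -4), (240, 4), (272, 12), (274, -4), (280, 4), (285, 4)],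
      [(20, -6), (40, 6), (63, -6), (72, -6), (86, -6), (91, 6), (120, 6), (140, 2), (161, -6),
      (180, 8), (185, -4), (193, -4), (250, 2), (282, -2), (284, 2), (290, -2), (295, 4)],
      [(31, 12), (50, -24), (90, 24), (150, 12), (171, 12), (184, -12), (230, -12), (270, -12),
      (283, 12)]],
    [[],
      [],
      [(20, -6), (40, -6), (51, -12), (63, -6), (72, -6), (86, -6), (91, 6), (120, 6), (140, 6),
      (161, -6), (250, 6), (282, 6), (284, 6), (290, -6)],
      [(31, -8), (95, 4), (173, -4), (182, 8), (184, -4), (195, 4), (275, 4), (283, 4), (294,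
      4)],
      [],
      [(20, 6), (40, 6), (63, 6), (72, 6), (86, 6), (91, 6), (120, -6), (140, -6), (161, 6),
      (250, -6), (282, 6), (284, -6), (290, 6)],
      [(31, -4), (50, 12), (90, -12), (95, 8), (171, -12), (173, 4), (182, 4), (184, 4), (195,
      -4), (270, 12), (275, -4), (283, -4), (294, -4)],
      [(41, 12), (81, -12), (92, 24), (94, -24), (170, -12), (181, 12), (272, 12), (280, 12)],
      [(20, -6), (40, 6), (63, -6), (72, -6), (86, -6), (91, 6), (93, 12), (120, 6), (140, 6),
      (161, -6), (250, 6), (282, -6), (284, 6), (290, 6)]]]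
  W := [[[],
      [],
      [],
      [[(190, 12)]],
      [],
      [],
      [],
      [[(160, -12), (171, -12), (190, -24)],
       [],
       [],
       [(70, -12), (81, -12), (180, 12), (280, -12)],
       [(71, -12), (90, -12), (270, -12)]],
      [[(60, -12)],
       [],
       [],
       [(80, -12), (190, 12)],
       [(81, -12)],
       [(181, 12)]],
      []],
    [[],
      [],
      [],
      [],
      [],
      [],
      [],
      [[],
       [],
       [(270, 12)]],
      [],
      [[(81, -12), (180, 12), (280, -12)],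
       [(90, -12)],
       [(91, -12)]]],
    [[],
      [],
      [],
      [],
      [],
      [],
      [[(60, -12), (71, -12), (90, -12), (170, 12), (270, -12)],
       [(171, 12)]],
      [],
      [[],
       [(81, 12), (180, -12)]],
      [[],
       [],
       [(81, 12), (180, -12), (191, -12)],
       [(91, 12), (290, 12)]]]]

theorem ce0_ck : ce0.ckW bs dl 10 0 = true := by decide +kernel

/-- certificate -/
def ce1 : Cer where
  den := 1
  N := [[],
    [[(20, 1), (40, 1), (61, 1)],
      [],
      [],
      [],
      [],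
      [],
      [],
      [],
      [],
      []],
    [[(50, 2), (60, 1), (71, 1), (90, -1), (270, -1), (281, 1)],
      [(40, 1), (61, 1)],
      [],
      [],
      [],
      [],
      [],
      [],
      [],
      []],
    [],
    [[],
      [(40, -1)],
      [],
      [],
      [],
      [],
      [],
      [],
      [],
      []],
    [[(30, 1)],
      [],
      [],
      [],
      [],
      [],
      [],
      [],
      [],
      []],
    [[(30, 1), (70, 1), (83, -1), (170, 1), (181, -1)],
      [(50, 1), (71, 1), (90, -1), (270, -1), (281, 1)],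
      [],
      [(50, 1), (73, 1), (90, -1), (95, 1)],
      [(72, -1), (74, 1), (85, -1), (91, -1), (93, 1)],
      [(30, 1), (75, 1), (83, -1), (170, 2), (181, -2), (280, -1), (291, 1)],
      [],
      [],
      [],
      []],
    [[(80, 1)],
      [],
      [(270, -1), (281, 1)],
      [(30, 1), (170, 1), (181, -1)],
      [],
      [(85, 1)],
      [(72, -1), (91, -1)],
      [],
      [],
      []],
    [[],
      [],
      [],
      [],
      [],
      [],
      [(84, -1)],
      [],
      [],
      []],
    [[],
      [],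
      [(91, -1)],
      [(50, -1), (90, 1), (95, -1)],
      [(93, -1)],
      [(30, 1), (280, 1), (291, -1)],
      [(83, 1), (94, -1), (170, -1), (181, 1), (280, 1), (291, -1)],
      [],
      [],
      []]]
  A := [[[],
      [],
      [],
      [(30, -1), (83, 1), (170, -1), (181, 1)],
      [],
      [(50, -1), (90, 1)],
      [],
      [],
      [(50, 1)]],
    [[],
      [],
      [(71, 1), (73, -1), (95, -1), (160, 1), (270, -1), (281, 1)],
      [],
      [(180, 1)],
      [(71, -1), (73, 1), (95, 1), (160, -1), (171, 1)],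
      [(181, 1)],
      [],
      []],
    [[],
      [],
      [],
      [],
      [],
      [(72, 1), (74, -1), (80, -1), (85, 1), (260, 1), (290, 1)],
      [(281, 1)],
      [(30, 1), (280, 1)],
      [(72, -1), (74, 1), (80, 1), (85, -1), (91, -1), (93, 1), (260, -1)]]]
  W := [[[],
      [],
      [],
      [],
      [],
      [],
      [],
      [],
      [[],
       [(80, 1)],
       [(180, 1)]],
      [[],
       [],
       [(190, 1)]]],
    [[],
      [],
      [],
      [],
      [],
      [],
      [],
      [],
      [],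
      [[(70, 1)],
       [(90, -1)]]],
    [[],
      [],
      [],
      [],
      [],
      [],
      [],
      [[],
       [(170, -1)]],
      [],
      []]]

theorem ce1_ck : ce1.ckW bs dl 10 1 = true := by decide +kernel

/-- certificate -/
def ce2 : Cer where
  den := 1
  N := [[],
    [],
    [[(60, 1), (71, 1)],
      [],
      [],
      [],
      [],
      [],
      [],
      [],
      [],
      []],
    [],
    [],
    [[(280, -1)],
      [],
      [],
      [],
      [],
      [],
      [],
      [],
      [],
      []],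
    [[(70, 1), (81, -1)],
      [(71, 1)],
      [],
      [],
      [],
      [],
      [],
      [],
      [],
      []],
    [[(80, 1), (91, -1)],
      [],
      [],
      [(170, 1), (280, -1)],
      [(90, -1), (270, 1)],
      [],
      [],
      [],
      [],
      []],
    [[(90, 1)],
      [],
      [],
      [(180, 1)],
      [],
      [],
      [],
      [],
      [],
      []],
    []]
  A := [[[],
      [],
      [],
      [(81, 1)],
      [],
      [],
      [],
      [(91, 1)],
      []],
    [[],
      [],
      [],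
      [],
      [],
      [],
      [],
      [],
      [(190, 1)]],
    [[],
      [],
      [],
      [],
      [],
      [(290, 1)],
      [],
      [],
      []]]
  W := [[[],
      [],
      [],
      [],
      [],
      [],
      [],
      [],
      [],
      []],
    [[],
      [],
      [],
      [],
      [],
      [],
      [],
      [],
      [],
      []],
    [[],
      [],
      [],
      [],
      [],
      [],
      [],
      [],
      [],
      []]]

theorem ce2_ck : ce2.ckW bs dl 10 2 = true := by decide +kernel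

/-- certificate -/
def ce3 : Cer where
  den := 1
  N := [[],
    [],
    [],
    [],
    [],
    [],
    [],
    [],
    [],
    []]
  A := [[[],
      [],
      [],
      [],
      [],
      [],
      [(70, 1)],
      [(80, 1)],
      [(90, 1)]],
    [],
    []]
  W := [[[],
      [],
      [],
      [],
      [],
      [],
      [],
      [],
      [],
      []],
    [[],
      [],
      [],
      [],
      [],
      [],
      [],
      [],
      [],
      []],
    [[],
      [],
      [],
      [],
      [],
      [],
      [],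
      [],
      [],
      []]]

theorem ce3_ck : ce3.ckW bs dl 10 3 = true := by decide +kernel

/-- exactness certificates -/
def exs : List TowerCk.EC := [
  ⟨1, [],
    []⟩,
  ⟨1, [],
    []⟩,
  ⟨1, [],
    []⟩,
  ⟨1, [[[],
      [],
      [(10, -1)],
      [(20, -1)]],
    [],
    []],
    []⟩,
  ⟨1, [[],
    [[],
      [],
      [(21, -1)],
      [],
      [(0, -1), (21, -1)]],
    [[],
      [],
      [(11, 1)]]],
    []⟩]

theorem exs_ck : allb (fun c => (nth ⟨1, [], []⟩ exs c).ckW bs dl 10 c) (4 + 1) = true := by
  decide +kernel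

/-- all certificates -/
theorem cert {k : Type*} [Field k] [CharZero k] (κ : ℕ) :
    CertW (fun x : Fin 10 => bs.w x) (fun i => nth 0 dl i) (Mt k 10 (nth [] bs.pw 1))
      (XX k bs 10) κ := by
  have hB : bs.ckPow 10 = true := by
    have h := bs_ck
    simp only [Base.ckW, Bool.and_eq_true] at h
    exact h.1.1
  rcases Nat.lt_or_ge κ 4 with h | h
  · interval_cases κ
    · exact certW_of_ck bs dl (by norm_num) hB ce0 ce0_ck
    · exact certW_of_ck bs dl (by norm_num) hB ce1 ce1_ck
    · exact certW_of_ck bs dl (by norm_num) hB ce2 ce2_ck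
    · exact certW_of_ck bs dl (by norm_num) hB ce3 ce3_ck
  · have h1 : ∀ x : Fin 10, bs.w x ≤ 4 := by decide
    have h2 : ∀ i : Fin 3, 1 ≤ nth 0 dl i := by decide
    refine certW_top fun i x => ?_
    have h3 := h1 x
    have h4 := h2 i
    show bs.w x < nth 0 dl i + κ
    omega

/-- **Levels of sizes `1, 1, 4, 1, 3`, degrees `1, 2, 2`.** -/
theorem cl {k : Type*} [Field k] [CharZero k] {ι : Type*} [Fintype ι] [DecidableEq ι] (w : ι → ℕ)
    (hle : ∀ x, w x ≤ 4) (hn : ∀ a : Fin 5, Fintype.card {x // w x = (a : ℕ)} =
      ![1, 1, 4, 1, 3] a)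
    {T : Fin 3 → Matrix ι ι k} (hT : ∀ i j, T i * T j = T j * T i)
    (hlow : ∀ i x y, w x < w y + ![1, 2, 2] i → T i x y = 0)
    (eT : ∀ a ≤ 4, EXw w ![1, 2, 2] T a) : Cl T := by
  have hd : (fun i : Fin 3 => nth 0 dl i) = ![1, 2, 2] := by decide
  refine TowerCk.cl_towerW_ck (dl := dl) (by norm_num) (by decide) bs_ck cert 4 (by decide)
    (TowerCk.exw_all bs dl (by norm_num) exs 4 exs_ck) w hle ?_ hT ?_ (by rw [hd]; exact eT)
  · intro a ha
    have h : ∀ a : Fin 5, Fintype.card {x : Fin 10 // bs.w x = (a : ℕ)} =
        ![1, 1, 4, 1, 3] a := by decide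
    exact (hn ⟨a, by omega⟩).trans (h ⟨a, by omega⟩).symm
  · intro i x y hxy
    refine hlow i x y ?_
    rw [← hd]
    exact hxy

end Pool.Agent.Lib.D13.TW5221
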