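import Pool.Agent.Lib.D13.TowerWCk

/-!
# MP_5dcbc3_ag: density certificates, type 5321, family (24311|34211), d = 11, degrees (1,2,2)
-/

namespace Pool.Agent.Lib.D13.TW5321

open Refl Pool.Agent.Lib.Q5dc

/-- the base point -/
def bs : Base where
  lev := [0, 0, 1, 2, 2, 2, 2, 3, 4, 4, 4]
  pw := [[[(0, 1)], [(1, 1)], [(2, 1)], [(3, 1)], [(4, 1)], [(5, 1)], [(6, 1)], [(7, 1)], [(8, 1)],
      [(9, 1)], [(10, 1)]],
    [[], [(0, 1)], [(1, 1)], [(2, 1)], [(6, 1), (10, -1)], [(4, 1)], [(5, -1)], [(3, 1), (5,
      1)], [(7, 1), (10, 1)], [(8, 1)], [(9, 1)]],
    [[], [], [(0, 1)], [(1, 1)], [(5, -1), (9, -1)], [(6, 1), (10, -1)], [(4, -1)], [(2, 1),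
      (4, 1)], [(3, 1), (5, 1), (9, 1)], [(7, 1), (10, 1)], [(8, 1)]],
    [[], [], [], [(0, 1)], [(4, -1), (8, -1)], [(5, -1), (9, -1)], [(6, -1), (10, 1)], [(1, 1),
      (6, 1), (10, -1)], [(2, 1), (4, 1), (8, 1)], [(3, 1), (5, 1), (9, 1)], [(7, 1), (10, 1)]],
    [[], [], [], [], [(6, -1), (7, -1)], [(4, -1), (8, -1)], [(5, 1), (9, 1)], [(0, 1), (5,
      -1), (9, -1)], [(1, 1), (6, 1), (7, 1)], [(2, 1), (4, 1), (8, 1)], [(3, 1), (5, 1), (9,
      1)]],
    [[], [], [], [], [(3, -1)], [(6, -1), (7, -1)], [(4, 1), (8, 1)], [(4, -1), (8, -1)], [(0,
      1), (3, 1)], [(1, 1), (6, 1), (7, 1)], [(2, 1), (4, 1), (8, 1)]],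
    [[], [], [], [], [(2, -1)], [(3, -1)], [(6, 1), (7, 1)], [(6, -1), (7, -1)], [(2, 1)], [(0,
      1), (3, 1)], [(1, 1), (6, 1), (7, 1)]],
    [[], [], [], [], [(1, -1)], [(2, -1)], [(3, 1)], [(3, -1)], [(1, 1)], [(2, 1)], [(0, 1),
      (3, 1)]],
    [[], [], [], [], [(0, -1)], [(1, -1)], [(2, 1)], [(2, -1)], [(0, 1)], [(1, 1)], [(2, 1)]],
    [[], [], [], [], [], [(0, -1)], [(1, 1)], [(1, -1)], [], [(0, 1)], [(1, 1)]],
    [[], [], [], [], [], [], [(0, 1)], [(0, -1)], [], [], [(0, 1)]]]
  xc := [[(1, 1)], [(1, 1), (4, -1), (7, 1), (10, -1)], [(2, 1), (5, -1), (8, 1)]]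
  X := [[[], [(0, 1)], [(1, 1)], [(2, 1)], [(6, 1), (10, -1)], [(4, 1)], [(5, -1)], [(3, 1), (5,
      1)], [(7, 1), (10, 1)], [(8, 1)], [(9, 1)]],
    [[], [(0, 1)], [(1, 1)], [(2, 1)], [(1, -1), (6, 2), (7, 1), (10, -1)], [(2, -1), (4, 2),
      (8, 1)], [(0, -1), (3, 1), (5, -2), (9, -1)], [(5, 2), (9, 1)], [(6, -1), (10, 1)], [(4,
      -1)], [(5, -1)]],
    [[], [], [(0, 1)], [(1, 1)], [(0, -1), (3, 1), (5, -1), (9, -1)], [(1, -1), (6, 2), (7, 1),
      (10, -1)], [(2, 1), (4, -2), (8, -1)], [(4, 2), (8, 1)], [(5, 1), (9, 1)], [(6, -1), (10,
      1)], [(4, -1)]]]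

/-- degrees -/
def dl : List ℕ := [1, 2, 2]

theorem bs_ck : bs.ckW dl 11 = true := by decide +kernel

/-- certificate -/
def ce0 : Cer where
  den := 120
  N := [[[(57, 240), (66, 120), (77, 120), (80, -120), (82, 120), (89, 120), (103, -120), (166,
      120), (187, -360), (198, -120), (210, -120), (215, -360), (231, 240), (236, -360), (276,
      -120), (286, 240), (298, -240), (333, 120), (335, -360), (342, 120), (354, -120), (356,
      360)],
      [(33, -96), (55, 120), (83, 24), (92, 24), (99, 120), (102, -120), (104, 144), (116, 16),
      (117, 24), (154, -24), (211, -120), (213, 40), (223, 120), (225, -80), (237, -16), (287,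
      -120), (308, 120), (336, -40), (345, 80), (352, -120), (357, -40)],
      [],
      [],
      [],
      [],
      [],
      [],
      [],
      [],
      []],
    [[(68, 120), (79, 120), (81, -120), (91, 240), (93, -240), (114, -120), (165, -120), (200,
      120), (212, -120), (226, -120), (275, 120), (297, 120), (332, -120), (353, 120)],
      [(45, -120), (57, 240), (89, 120), (103, -120), (166, 120), (187, -240), (210, -120), (215,
      -240), (231, 240), (236, -360), (286, 240), (298, -240), (335, -240), (356, 360)],
      [],
      [],
      [],
      [],
      [],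
      [],
      [],
      [],
      []],
    [[(33, 72), (83, 72), (92, -48), (102, 120), (104, -168), (116, 168), (117, -48), (154,
      -72), (176, -120), (188, -120), (211, 120), (220, -120), (223, -120), (225, 120), (232,
      120), (237, -48), (287, 120), (319, 120), (345, -120), (352, 120)],
      [(22, -60), (34, 15), (68, 105), (79, 105), (81, -90), (91, 210), (93, -195), (105, -15),
      (106, 15), (114, -90), (155, 30), (165, -90), (200, 90), (212, -120), (226, -90), (275,
      60), (297, 90), (309, 15), (320, 15), (332, -90), (346, 15), (353, 90)],
      [(23, -90), (35, 30), (45, -180), (57, 240), (80, 30), (89, 90), (95, 30), (103, -150),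
      (115, 30), (166, 150), (187, -240), (210, -90), (215, -240), (231, 240), (236, -390), (286,
      240), (298, -240), (333, -30), (335, -270), (342, -30), (354, 30), (356, 390)],
      [],
      [],
      [],
      [],
      [],
      [],
      [],
      []],
    [[(45, -360), (57, 480), (66, 120), (77, 120), (89, 120), (103, -240), (166, 360), (187,
      -480), (210, -120), (215, -480), (231, 480), (236, -840), (286, 480), (298, -360), (333,
      120), (335, -480), (342, 120), (356, 840)],
      [(33, -24), (83, 96), (92, -24), (102, 120), (104, -144), (116, 144), (117, -24), (154,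
      -96), (176, -120), (188, -120), (211, 120), (220, -120), (223, -120), (225, 120), (232,
      120), (237, -24), (287, 120), (319, 120), (345, -120), (352, 120)],
      [(34, -90), (68, 90), (79, 90), (81, -60), (91, 180), (93, -150), (105, -30), (106, 30),
      (114, -60), (155, 60), (165, -60), (200, 60), (212, -120), (226, -60), (297, 60), (309,
      30), (320, 30), (332, -60), (346, 30), (353, 60)],
      [(23, -60), (35, -60), (45, -240), (57, 240), (80, 60), (89, 60), (95, 60), (103, -180),
      (115, 60), (166, 180), (187, -240), (210, -60), (215, -240), (231, 240), (236, -420), (286,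
      240), (298, -240), (333, -60), (335, -300), (342, -60), (354, 60), (356, 420)],
      [(22, -120), (34, -60), (68, 60), (79, 60), (93, 60), (105, -60), (106, 60), (275, 120),
      (309, -60), (320, -60), (346, -60)],
      [(23, -60), (35, -60), (45, -120), (80, 60), (89, -60), (95, 60), (103, -60), (115, 60),
      (166, 60), (210, 60), (236, -60), (276, 120), (333, -60), (335, -60), (342, -60), (354,
      60), (356, 60)],
      [(33, -96), (83, 24), (92, 24), (104, 24), (116, -24), (117, 24), (154, 96), (237, 24)],
      [],
      [],
      [],
      []],
    [[(116, 120), (220, -120), (232, 120)],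
      [(22, -180), (34, 45), (56, 120), (68, -45), (79, 75), (81, -30), (91, 30), (93, 15), (105,
      75), (106, 45), (114, -30), (155, -150), (165, -30), (200, 30), (212, 120), (226, -30),
      (275, 180), (297, 30), (309, -75), (320, -75), (332, -30), (346, -75), (353, 30)],
      [],
      [(102, 240), (104, -240), (176, -120), (188, -120), (211, 240), (213, -120), (220, -120),
      (223, -240), (225, 120), (232, 120), (287, 120), (308, -120), (336, 120), (345, -120),
      (352, 120)],
      [(236, 120), (356, -120)],
      [(33, -72), (55, 120), (83, -72), (92, 48), (99, 120), (102, -120), (104, 168), (116, -88),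
      (117, 48), (154, 72), (188, 120), (211, -120), (213, -40), (223, 120), (225, -160), (232,
      -120), (237, -32), (287, -120), (319, -120), (336, 40), (345, 160), (352, -120), (357,
      -80)],
      [(226, -120)],
      [],
      [],
      [],
      []],
    [[(45, -360), (80, 120), (82, -120), (103, -120), (166, 120), (198, 120), (231, 120), (236,
      -120), (276, 120), (333, -120), (342, -120), (354, 120), (356, 120)],
      [],
      [(22, -180), (34, 45), (68, -45), (79, 75), (81, -30), (91, 30), (93, 15), (105, 75), (106,
      45), (114, -30), (155, -150), (165, -30), (200, 30), (212, 120), (226, -30), (275, 180),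
      (297, 30), (309, -75), (320, -75), (332, -30), (346, -75), (353, 30)],
      [(57, -120)],
      [(22, -60), (34, 15), (68, -15), (79, -15), (81, 30), (91, 90), (93, -75), (105, -15),
      (106, 15), (114, 30), (155, -90), (165, -90), (200, 90), (226, -90), (275, 60), (297, 90),
      (309, 15), (320, 15), (332, -90), (346, 15), (353, 90)],
      [],
      [(33, 72), (55, -120), (83, 72), (92, -48), (99, -120), (102, 360), (104, -408), (116,
      168), (117, -48), (154, -72), (176, -120), (188, -240), (211, 360), (213, -120), (220,
      -120), (223, -240), (225, 240), (232, 240), (237, -48), (287, 240), (308, -120), (319,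
      120), (336, 120), (345, -240), (352, 240)],
      [],
      [],
      [],
      []],
    [[(22, -180), (34, 45), (56, 120), (68, -165), (79, 75), (81, -30), (91, -90), (93, 135),
      (105, 75), (106, 45), (114, 90), (155, -150), (165, -30), (200, -90), (212, 240), (226,
      -30), (233, -120), (275, 180), (297, 30), (309, -75), (320, -75), (332, -30), (341, -120),
      (346, -75), (353, 150)],
      [],
      [(102, 120), (104, -120), (176, -120), (188, -120), (211, 120), (213, -120), (220, -120),
      (223, -120), (225, 120), (232, 120), (287, 120), (308, -120), (336, 120), (345, -120),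
      (352, 120)],
      [(22, 180), (34, -45), (68, -75), (79, -75), (81, 30), (91, -30), (93, -15), (105, -75),
      (106, -45), (114, 30), (155, 150), (165, 30), (200, -30), (212, -120), (226, 30), (275,
      -180), (297, -30), (309, 75), (320, 75), (332, 30), (346, 75), (353, -30)],
      [(33, -72), (55, 120), (83, -72), (92, 48), (99, 120), (102, -360), (104, 408), (116,
      -248), (117, 48), (154, 72), (176, 120), (188, 240), (211, -360), (213, 40), (220, 120),
      (223, 240), (225, -200), (232, -240), (237, 8), (287, -240), (308, 120), (319, -120), (336,
      -40), (345, 200), (352, -240), (357, -40)],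
      [(22, 120), (34, -30), (68, -90), (79, -90), (81, 60), (91, -60), (93, 30), (105, 30),
      (106, -30), (114, -60), (155, 60), (165, 60), (200, -60), (226, 60), (275, -120), (297,
      -60), (309, 90), (320, 90), (332, 60), (346, -30), (353, -60)],
      [(45, 120), (57, 120), (215, -120), (333, 120), (335, -120), (342, 120), (354, -120)],
      [],
      [],
      [],
      []],
    [[(56, -120), (68, 360), (79, 120), (81, -120), (91, 480), (93, -480), (114, -240), (200,
      360), (212, -360), (233, 360), (275, 120), (297, 120), (332, -120), (341, 240), (353,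
      -120)],
      [(45, -240), (57, 360), (89, 120), (103, -120), (166, 240), (187, -360), (210, -120), (215,
      -360), (231, 360), (236, -600), (286, 360), (298, -240), (333, 120), (335, -360), (342,
      120), (356, 600)],
      [],
      [(22, -120), (34, -30), (68, 30), (79, 30), (81, -60), (91, 180), (93, -90), (105, 30),
      (106, 90), (114, -60), (155, -60), (165, -60), (200, 60), (226, -60), (275, 120), (297,
      60), (309, -30), (320, -30), (332, -60), (346, -30), (353, 60)],
      [(55, -120), (99, -120), (102, 360), (104, -360), (116, 120), (176, -120), (188, -240),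
      (211, 360), (213, -120), (220, -120), (223, -240), (225, 240), (232, 240), (287, 240),
      (308, -120), (319, 120), (336, 120), (345, -240), (352, 240)],
      [(22, -120), (34, -30), (68, 30), (79, 30), (81, -60), (91, 60), (93, 30), (105, -90),
      (106, 90), (114, 60), (155, -60), (165, -60), (200, 60), (226, -60), (275, 120), (297, 60),
      (309, -30), (320, -30), (332, -60), (346, -30), (353, 60)],
      [(80, -120), (82, 120), (89, 120), (187, -120), (210, -120), (215, -120), (231, 120), (236,
      -120), (276, -120), (286, 120), (298, -120), (335, -120), (356, 120)],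
      [(23, -30), (35, -30), (45, -300), (57, 120), (80, -30), (89, 30), (95, 90), (103, -210),
      (115, 90), (166, 210), (187, -240), (210, -30), (215, -240), (231, 240), (236, -450), (286,
      240), (298, -240), (333, -90), (335, -330), (342, -90), (354, 90), (356, 450)],
      [],
      [],
      []],
    [[(55, 120), (99, 120), (116, -120), (220, 120), (232, -120)],
      [(56, -120), (68, 120), (91, 240), (93, -240), (200, 120), (212, -120), (233, 120), (320,
      120), (332, -120), (353, 120)],
      [(45, -240), (57, 240), (166, 120), (187, -240), (210, -120), (215, -240), (231, 240),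
      (236, -360), (286, 240), (298, -120), (333, 120), (335, -240), (342, 120), (356, 360)],
      [(33, 24), (55, -120), (83, 24), (92, -96), (99, -120), (104, 24), (116, -24), (117, 24),
      (154, -24), (176, 120), (211, -120), (213, 120), (220, 120), (237, 24), (308, 120), (319,
      120), (336, -120)],
      [(45, -120), (57, 120), (166, 120), (187, -120), (215, -120), (231, 120), (236, -240),
      (286, 120), (298, -120), (335, -120), (356, 240)],
      [(33, 24), (55, -120), (83, 24), (92, -96), (99, -120), (102, 120), (104, -96), (116, -24),
      (117, 24), (154, -24), (188, -120), (211, 120), (223, -120), (225, 120), (232, 120), (237,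
      24), (287, 120), (319, 120), (345, -120), (352, 120)],
      [(105, 120)],
      [(22, -60), (34, -15), (68, 15), (79, 15), (81, -30), (91, 30), (93, -45), (105, 15), (106,
      105), (114, -30), (155, -30), (165, -30), (200, 30), (226, -30), (275, 60), (297, 30),
      (309, -15), (320, -15), (332, -30), (346, -15), (353, 30)],
      [(45, -120), (57, 120), (166, 120), (187, -120), (215, -120), (231, 120), (236, -240),
      (286, 120), (298, -120), (335, -240), (356, 240)],
      [(33, -24), (55, -120), (83, -24), (92, -144), (99, -120), (102, 120), (104, -24), (116,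
      -176), (117, 96), (154, 24), (188, -120), (211, 120), (213, 40), (223, -120), (225, 160),
      (232, 120), (237, 56), (287, 120), (319, 120), (336, 80), (345, -160), (352, 120), (357,
      -40)],
      [(22, -180), (34, -15), (68, 15), (79, 15), (81, -30), (91, 30), (93, -45), (105, -225),
      (106, 225), (114, -30), (155, -150), (165, -30), (200, 30), (214, 120), (226, -30), (275,
      180), (297, 30), (309, -15), (320, -15), (332, -30), (346, -135), (353, 30)]],
    [[],
      [],
      [(68, 120), (91, 120), (93, -120), (200, 120), (212, -120), (233, 120)],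
      [(45, -120), (57, 240), (166, 120), (187, -120), (215, -120), (231, 120), (236, -240),
      (286, 120), (298, -120), (333, 120), (335, -120), (356, 240)],
      [],
      [],
      [(102, -240), (104, 240), (176, 120), (188, 120), (211, -240), (213, 120), (220, 120),
      (223, 120), (225, -120), (232, -120), (287, -120), (308, 120), (336, -120), (345, 120),
      (352, -120)],
      [(33, 48), (55, -120), (83, 48), (92, -72), (99, -120), (102, -120), (104, 48), (116, -48),
      (117, 48), (154, -48), (176, 120), (211, -120), (213, 120), (220, 120), (237, 48), (308,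
      120), (319, 120), (336, -120)],
      [],
      [(45, 120), (57, -120), (166, -120), (187, 120), (231, -120), (236, 240), (286, -120),
      (298, 120), (347, 120), (356, -240)],
      [(33, 24), (55, -120), (83, 24), (92, -96), (99, -120), (102, 120), (104, -216), (116,
      -184), (117, 144), (154, -24), (188, -120), (211, 120), (213, -40), (223, -120), (225,
      200), (232, 120), (237, 64), (287, 120), (319, 120), (336, 40), (345, -80), (352, 120),
      (357, -80)]],
    [[],
      [(45, -120)],
      [],
      [],
      [(102, -240), (104, 240), (116, -120), (176, 120), (188, 120), (211, -240), (213, 120),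
      (220, 120), (223, 120), (225, -120), (232, -120), (287, -120), (308, 120), (336, -120),
      (345, 120), (352, -120)],
      [(114, -120)],
      [(57, 240), (166, 120), (187, -120), (215, -120), (231, 120), (236, -240), (286, 120),
      (298, -120), (333, 120), (335, -120), (342, 120), (354, -120), (356, 240)],
      [(45, 120), (57, 120), (103, 120), (115, -120), (333, 120), (342, 120), (354, -120)],
      [(33, 72), (55, -120), (83, 72), (92, -48), (99, -120), (102, -120), (104, 72), (116, -72),
      (117, -48), (154, -72), (176, 120), (211, -120), (213, 120), (220, 120), (237, 72), (308,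
      120), (319, 120), (336, -120)],
      [(22, -60), (34, 15), (68, -15), (79, -15), (81, 30), (91, 90), (93, -75), (105, -15),
      (106, 15), (114, -210), (155, -90), (165, -90), (200, 90), (226, -90), (235, 120), (275,
      60), (297, 90), (309, 15), (320, 15), (332, -90), (346, 15), (353, 90)],
      [(45, 240), (57, -240), (103, 240), (115, -240), (166, -240), (187, 240), (215, 240), (231,
      -240), (236, 600), (286, -240), (298, 240), (335, 240), (356, -480)]]]
  A := [[[(23, 30), (35, 30), (45, -60), (80, 30), (89, -30), (95, 30), (103, -30), (115, 30), (166,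
      30), (210, 30), (236, -30), (333, -30), (335, -30), (342, -30), (354, 30), (356, 30)],
      [(22, 60), (34, 15), (68, -15), (79, -15), (81, 30), (91, -30), (93, 45), (105, -15), (106,
      15), (114, 30), (155, 30), (165, 30), (200, -30), (226, 30), (275, -60), (297, -30), (309,
      15), (320, 15), (332, 30), (346, 15), (353, -30)],
      [(33, 24), (83, 24), (92, 24), (104, 24), (116, -24), (117, 24), (154, -24), (237, 24)],
      [(45, 120), (57, -120), (103, 120), (166, -120), (187, 120), (215, 120), (231, -120), (236,
      240), (286, -120), (298, 120), (335, 120), (356, -240)],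
      [],
      [],
      [],
      [],
      [(55, -120), (116, 120), (220, -120), (232, 120)],
      [(45, -360), (66, 120), (80, 120), (82, -120), (103, -120), (166, 120), (198, 120), (231,
      120), (236, -120), (276, 120), (333, -120), (342, -120), (354, 120), (356, 120)]],
    [[],
      [(22, 180), (34, -45), (68, -75), (79, -75), (81, 30), (91, -30), (93, -15), (105, 45),
      (106, -45), (114, 30), (155, 150), (165, 30), (200, -30), (226, 30), (275, -180), (297,
      -30), (309, 75), (320, 75), (332, 30), (346, 75), (353, -30)],
      [],
      [],
      [],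
      [],
      [(57, 120), (187, -120), (215, -120), (231, 120), (236, -120), (286, 120), (333, 120),
      (335, -120), (342, 120), (356, 120)],
      [(22, -180), (34, 45), (68, -45), (79, 75), (81, -30), (91, 30), (93, 15), (105, 75), (106,
      45), (114, 90), (155, -150), (165, -30), (200, 30), (212, 120), (226, -30), (233, 120),
      (275, 180), (297, 30), (309, -75), (320, -75), (332, -30), (346, -75), (353, 30)],
      [(102, 240), (104, -240), (116, 120), (176, -120), (188, -120), (211, 240), (213, -120),
      (220, -120), (223, -120), (225, 120), (232, 240), (287, 120), (308, -120), (336, 120),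
      (345, -120), (352, 120)],
      [(45, -480), (57, -360), (80, 120), (82, -120), (103, -120), (187, 240), (198, 120), (215,
      240), (236, 240), (276, 120), (286, -240), (298, 120), (333, -360), (335, 240), (342,
      -360), (354, 240), (356, -240)]],
    [[],
      [],
      [(22, 120), (34, -30), (68, -90), (79, -90), (81, 60), (91, -60), (93, 30), (105, 30),
      (106, -30), (114, 60), (155, 60), (165, 60), (200, -60), (226, 60), (275, -120), (297,
      -60), (309, 90), (320, 90), (332, 60), (346, 90), (353, -60)],
      [(116, -40), (213, -40), (225, -40), (237, 40), (336, 40), (345, 40), (357, 40)],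
      [],
      [(22, 60), (34, -15), (68, 15), (79, 15), (81, -30), (91, -90), (93, 75), (105, 15), (106,
      -15), (114, -30), (155, 90), (165, -30), (200, -90), (226, -30), (233, -120), (275, -60),
      (297, 30), (309, -15), (320, -15), (332, 90), (346, -15), (353, 30)],
      [(102, -120), (104, 120), (116, 40), (188, 120), (211, -120), (213, 40), (223, 120), (225,
      -80), (232, -120), (237, -40), (287, -120), (336, -40), (345, 80), (357, -40)],
      [(57, 240), (166, 120), (187, -120), (215, -120), (231, 120), (236, -240), (286, 120),
      (298, -120), (333, 120), (335, -120), (342, 120), (356, 240)],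
      [(22, -240), (34, 60), (56, 120), (68, -60), (79, 60), (91, 120), (93, -60), (105, 60),
      (106, 60), (114, 120), (155, -240), (200, 120), (212, 120), (233, 120), (275, 240), (309,
      -60), (320, -60), (332, -120), (346, -60), (353, 120)],
      [(102, 360), (104, -360), (116, 200), (176, -120), (188, -240), (211, 360), (213, -160),
      (220, -240), (223, -240), (225, 200), (232, 360), (237, 40), (287, 240), (308, -120), (336,
      160), (345, -200), (352, 240), (357, 40)]]]
  W := [[[],
      [],
      [],
      [],
      [[(90, 120), (231, 120)],
       [],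
       [(101, 120)]],
      [],
      [[],
       [(110, 120), (221, 120), (330, 120), (342, -120)]],
      [[],
       [(77, 120), (89, 120), (209, -120), (221, -120), (342, 120)]],
      [[(90, -240), (198, -120), (231, -240)],
       [],
       [(209, 120), (330, -120)],
       [],
       [],
       [],
       [(100, 120), (112, 120), (199, 120), (211, 120), (232, -120), (353, 120)]],
      [[],
       [(210, -120)],
       [(100, 120), (112, 120), (232, -120), (353, 120)]],
      [[(88, -120), (100, -120), (112, -120), (199, -120), (211, -120), (232, 120), (353, -120)],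
       [(110, 120)],
       [(90, -120)],
       [(232, 120)]]],
    [[],
      [],
      [],
      [],
      [],
      [[],
       [(78, 120), (210, -120)]],
      [],
      [[],
       [(89, 120), (209, -120), (221, -120), (342, 120)]],
      [[(99, 120), (111, 120), (210, 120), (231, -120)]],
      [[],
       [(90, 120), (111, 120)],
       [(112, 120), (232, -120), (353, 120)],
       [],
       [(112, 120), (232, -120), (341, -120), (353, 120)]],
      [[],
       [],
       [],
       [(353, 120)]]],
    [[],
      [],
      [],
      [],
      [],
      [],
      [],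
      [[],
       [],
       [(199, -120)]],
      [[(88, -120), (100, -240), (112, -240), (199, -120), (211, -120), (220, 120), (232, 240),
      (353, -240)],
       [(330, -120)],
       [],
       [],
       [(78, 120), (90, 120), (111, 120), (210, -120), (331, 120)]],
      [[],
       [],
       [(342, -120)],
       [(90, 120), (222, -120)]],
      [[],
       [],
       [],
       [(101, 120), (233, -120), (342, -120)],
       [],
       [],
       [(352, 120)]]]]

theorem ce0_ck : ce0.ckW bs dl 11 0 = true := by decide +kernel

/-- certificate -/
def ce1 : Cer where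
  den := 1
  N := [[],
    [],
    [[(33, 1), (67, 2), (78, 1), (90, -2), (111, -1), (116, -2), (331, 2), (343, -2)],
      [(34, 1), (79, 1), (91, 1), (93, -1), (100, -1), (320, 1), (332, -1), (353, 1)],
      [],
      [],
      [],
      [],
      [],
      [],
      [],
      [],
      []],
    [[(77, 1), (89, 1), (101, -2), (110, 1), (330, -1)],
      [(67, 1), (78, 1), (90, -1), (116, -1), (331, 1), (343, -1)],
      [(79, 1), (91, 1), (93, -1), (100, -1), (320, 1), (332, -1), (353, 1)],
      [],
      [],
      [],
      [],
      [],
      [],
      [],
      []],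
    [[(90, 1), (92, -1), (99, -1), (111, 1), (319, 1), (331, -1), (352, 1)],
      [],
      [(45, -1), (66, 1), (110, -1), (210, -2), (330, 1)],
      [],
      [],
      [],
      [],
      [],
      [],
      [],
      []],
    [[(330, 1)],
      [],
      [(91, -1), (93, 1), (100, 1), (320, -1), (332, 1), (353, -1)],
      [],
      [],
      [],
      [],
      [],
      [],
      [],
      []],
    [[(44, 1)],
      [],
      [(67, -1), (111, 1)],
      [],
      [],
      [],
      [],
      [],
      [],
      [],
      []],
    [[(88, 1), (100, 1), (114, -2)],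
      [(89, 1), (101, -1), (210, -1)],
      [],
      [],
      [(67, 1), (90, -1), (92, 1), (111, -1), (116, -1), (331, 1), (343, -1)],
      [(44, 1), (91, -2), (93, 2), (114, 2), (209, -1), (233, 1), (320, -1), (332, 1), (341, 2),
      (353, -3)],
      [(66, 1), (89, 1), (101, -1), (110, -1), (113, 1), (115, -1), (198, 1), (210, -2), (231,
      1), (342, 1)],
      [],
      [],
      [],
      []],
    [[(99, 1), (111, -1)],
      [(100, 1), (114, -1)],
      [],
      [(67, -1), (111, 1), (116, 1), (331, -1), (343, 1)],
      [],
      [],
      [(91, 1), (93, -1), (114, -1), (209, 1), (233, -1), (320, 1), (332, -1), (341, -1), (353,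
      2)],
      [(44, 1), (91, -1), (114, 1), (341, 1), (353, -1)],
      [],
      [],
      []],
    [[],
      [],
      [],
      [],
      [],
      [(210, -1), (342, 1)],
      [(116, 1)],
      [(67, -2), (90, 1), (102, -1), (111, 2), (116, 2), (331, -2), (343, 2)],
      [],
      [],
      []],
    [[],
      [(210, 1)],
      [],
      [(44, 1), (341, 1), (353, -1)],
      [],
      [],
      [(66, -1), (110, 1), (113, -1), (115, 1), (210, 2), (330, -1), (342, -1)],
      [(101, 1), (113, -1)],
      [],
      [],
      []]]
  A := [[[],
      [],
      [(67, -1), (90, 1), (111, 1), (116, 1), (331, -1), (343, 1)],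
      [(66, 1), (101, 1), (110, -1), (210, -1), (330, 1)],
      [(114, 1)],
      [],
      [(66, -1), (110, 1), (210, 1), (330, -1)],
      [],
      [(111, 1)],
      [(66, 1), (330, 1)]],
    [[],
      [],
      [(67, -1), (90, 1), (92, -1), (111, 1), (116, 1), (199, 1), (232, 1), (331, -1), (343, 1)],
      [],
      [(44, 1), (91, -1), (93, 1), (100, 1), (233, 1), (320, -1), (332, 1), (341, 1), (353, -2)],
      [],
      [],
      [],
      [(232, 1)],
      [(66, 1), (110, -1), (113, 1), (115, -1), (210, -1), (231, 1), (330, 2), (342, 1)]],
    [[],
      [],
      [(44, -1), (91, 2), (93, -2), (100, -1), (114, -1), (209, 1), (233, -1), (320, 2), (332,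
      -1), (341, -2), (353, 3)],
      [],
      [],
      [(44, 1), (341, 1)],
      [(67, -1), (111, 1), (116, 1), (343, 1)],
      [],
      [],
      [(67, 1), (90, 1), (92, -1), (99, -1), (116, -1), (319, 1), (331, -1), (343, -1), (352,
      2)]]]
  W := [[[],
      [],
      [],
      [],
      [],
      [[(209, -1)],
       [(210, -1)]],
      [],
      [],
      [[],
       [],
       [],
       [],
       [],
       [],
       [(88, -1)]],
      [[],
       [],
       [],
       [],
       [(220, -1)],
       [(221, -1)],
       [(99, -1), (111, -1), (210, -1), (231, 1)]],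
      [[],
       [],
       [(231, 1)]]],
    [[],
      [],
      [],
      [],
      [],
      [],
      [],
      [],
      [[],
       [],
       [(89, -1)]],
      [[(110, 1), (209, 1)],
       [(111, 1), (210, 1), (231, -1)],
       [(100, -1), (220, 1)]],
      []],
    [[],
      [],
      [],
      [],
      [],
      [],
      [],
      [],
      [],
      [],
      [[],
       [],
       [(232, -1)]]]]

theorem ce1_ck : ce1.ckW bs dl 11 1 = true := by decide +kernel

/-- certificate -/
def ce2 : Cer where
  den := 1
  N := [[],
    [],
    [],
    [[(77, 1), (89, 1), (101, 1)],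
      [(78, 1), (90, 1), (111, 1)],
      [],
      [],
      [],
      [],
      [],
      [],
      [],
      [],
      []],
    [[],
      [(353, -1)],
      [],
      [],
      [],
      [],
      [],
      [],
      [],
      [],
      []],
    [],
    [[(341, -1)],
      [],
      [],
      [],
      [],
      [],
      [],
      [],
      [],
      [],
      []],
    [[(88, 1), (100, 1), (112, -2)],
      [(89, 1), (101, 1)],
      [(90, 1)],
      [],
      [],
      [],
      [],
      [],
      [],
      [],
      []],
    [[(99, 1), (111, -1)],
      [(100, 1), (112, -1)],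
      [(101, 1)],
      [],
      [(101, 1), (110, -1), (330, 1)],
      [(331, 1)],
      [(100, 1), (112, -1), (209, 1), (221, -1), (341, -1), (353, 1)],
      [],
      [],
      [],
      []],
    [[(110, 1)],
      [],
      [],
      [],
      [],
      [(342, 1)],
      [(220, 1), (232, -1)],
      [],
      [],
      [],
      []],
    [[],
      [],
      [],
      [],
      [],
      [],
      [(231, 1)],
      [],
      [],
      [],
      []]]
  A := [[[],
      [],
      [],
      [],
      [],
      [],
      [],
      [(112, 1)],
      [(111, 1)],
      []],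
    [[],
      [],
      [],
      [(110, 1), (210, 1), (330, -1)],
      [],
      [(232, 1)],
      [],
      [(221, 1), (353, -1)],
      [],
      []],
    [[],
      [],
      [],
      [],
      [],
      [],
      [],
      [],
      [],
      [(352, 1)]]]
  W := [[[],
      [],
      [],
      [],
      [],
      [],
      [],
      [],
      [],
      [],
      []],
    [[],
      [],
      [],
      [],
      [],
      [],
      [],
      [],
      [],
      [],
      []],
    [[],
      [],
      [],
      [],
      [],
      [],
      [],
      [],
      [],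
      [],
      []]]

theorem ce2_ck : ce2.ckW bs dl 11 2 = true := by decide +kernel

/-- certificate -/
def ce3 : Cer where
  den := 1
  N := [[],
    [],
    [],
    [],
    [],
    [],
    [],
    [[(88, 1)],
      [],
      [],
      [],
      [],
      [],
      [],
      [],
      [],
      [],
      []],
    [[(99, 1), (111, -1)],
      [],
      [(89, -1)],
      [],
      [],
      [],
      [],
      [],
      [],
      [],
      []],
    [[],
      [],
      [(100, -1)],
      [],
      [],
      [],
      [],
      [],
      [],
      [],
      []],
    []]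
  A := [[[],
      [],
      [],
      [],
      [],
      [],
      [],
      [],
      [(111, 1)],
      [(110, 1)]],
    [],
    []]
  W := [[[],
      [],
      [],
      [],
      [],
      [],
      [],
      [],
      [],
      [],
      []],
    [[],
      [],
      [],
      [],
      [],
      [],
      [],
      [],
      [],
      [],
      []],
    [[],
      [],
      [],
      [],
      [],
      [],
      [],
      [],
      [],
      [],
      []]]

theorem ce3_ck : ce3.ckW bs dl 11 3 = true := by decide +kernel

/-- exactness certificates -/
def exs : List TowerCk.EC := [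
  ⟨1, [],
    []⟩,
  ⟨1, [],
    []⟩,
  ⟨1, [],
    []⟩,
  ⟨1, [[[],
      [],
      [],
      [(12, -1)],
      [(11, 1)],
      [],
      [(22, -1)]],
    [[],
      [],
      [(11, -1), (23, -1)]],
    []],
    []⟩,
  ⟨1, [[],
    [[],
      [],
      [],
      [(24, -1)],
      [(0, -1)],
      [(1, -1), (24, -1)]],
    [[],
      [],
      [],
      [(13, 1)]]],
    []⟩]

theorem exs_ck : allb (fun c => (nth ⟨1, [], []⟩ exs c).ckW bs dl 11 c) (4 + 1) = true := by
  decide +kernel

/-- all certificates -/
theorem cert {k : Type*} [Field k] [CharZero k] (κ : ℕ) :
    CertW (fun x : Fin 11 => bs.w x) (fun i => nth 0 dl i) (Mt k 11 (nth [] bs.pw 1))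
      (XX k bs 11) κ := by
  have hB : bs.ckPow 11 = true := by
    have h := bs_ck
    simp only [Base.ckW, Bool.and_eq_true] at h
    exact h.1.1
  rcases Nat.lt_or_ge κ 4 with h | h
  · interval_cases κ
    · exact certW_of_ck bs dl (by norm_num) hB ce0 ce0_ck
    · exact certW_of_ck bs dl (by norm_num) hB ce1 ce1_ck
    · exact certW_of_ck bs dl (by norm_num) hB ce2 ce2_ck
    · exact certW_of_ck bs dl (by norm_num) hB ce3 ce3_ck
  · have h1 : ∀ x : Fin 11, bs.w x ≤ 4 := by decide
    have h2 : ∀ i : Fin 3, 1 ≤ nth 0 dl i := by decide
    refine certW_top fun i x => ?_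
    have h3 := h1 x
    have h4 := h2 i
    show bs.w x < nth 0 dl i + κ
    omega

/-- **Levels of sizes `2, 1, 4, 1, 3`, degrees `1, 2, 2`.** -/
theorem cl {k : Type*} [Field k] [CharZero k] {ι : Type*} [Fintype ι] [DecidableEq ι] (w : ι → ℕ)
    (hle : ∀ x, w x ≤ 4) (hn : ∀ a : Fin 5, Fintype.card {x // w x = (a : ℕ)} =
      ![2, 1, 4, 1, 3] a)
    {T : Fin 3 → Matrix ι ι k} (hT : ∀ i j, T i * T j = T j * T i)
    (hlow : ∀ i x y, w x < w y + ![1, 2, 2] i → T i x y = 0)
    (eT : ∀ a ≤ 4, EXw w ![1, 2, 2] T a) : Cl T := by
  have hd : (fun i : Fin 3 => nth 0 dl i) = ![1, 2, 2] := by decide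
  refine TowerCk.cl_towerW_ck (dl := dl) (by norm_num) (by decide) bs_ck cert 4 (by decide)
    (TowerCk.exw_all bs dl (by norm_num) exs 4 exs_ck) w hle ?_ hT ?_ (by rw [hd]; exact eT)
  · intro a ha
    have h : ∀ a : Fin 5, Fintype.card {x : Fin 11 // bs.w x = (a : ℕ)} =
        ![2, 1, 4, 1, 3] a := by decide
    exact (hn ⟨a, by omega⟩).trans (h ⟨a, by omega⟩).symm
  · intro i x y hxy
    refine hlow i x y ?_
    rw [← hd]
    exact hxy

end Pool.Agent.Lib.D13.TW5321
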