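import Pool.Agent.Lib.D13.TowerWCk

/-!
# MP_5dcbc3_ag: density certificates, type 53211, family (25311|35211), d = 12, degrees (1,2,2)
-/

namespace Pool.Agent.Lib.D13.TW53211

open Refl Pool.Agent.Lib.Q5dc

/-- the base point -/
def bs : Base where
  lev := [0, 0, 1, 2, 2, 2, 2, 2, 3, 4, 4, 4]
  pw := [[[(0, 1)], [(1, 1)], [(2, 1)], [(3, 1)], [(4, 1)], [(5, 1)], [(6, 1)], [(7, 1)], [(8, 1)],
      [(9, 1)], [(10, 1)], [(11, 1)]],
    [[], [(0, 1)], [(1, 1)], [(2, 1)], [(7, -1), (11, -1)], [(4, 1)], [(5, 1)], [(6, 1)], [(3,
      1), (7, 1), (11, 1)], [(8, 1)], [(9, 1)], [(10, 1)]],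
    [[], [], [(0, 1)], [(1, 1)], [(6, -1), (10, -1)], [(7, -1), (11, -1)], [(4, 1)], [(5, 1)],
      [(2, 1), (6, 1), (10, 1)], [(3, 1), (7, 1), (11, 1)], [(8, 1)], [(9, 1)]],
    [[], [], [], [(0, 1)], [(5, -1), (9, -1)], [(6, -1), (10, -1)], [(7, -1), (11, -1)], [(4,
      1)], [(1, 1), (5, 1), (9, 1)], [(2, 1), (6, 1), (10, 1)], [(3, 1), (7, 1), (11, 1)], [(8,
      1)]],
    [[], [], [], [], [(4, -1), (8, -1)], [(5, -1), (9, -1)], [(6, -1), (10, -1)], [(7, -1),
      (11, -1)], [(0, 1), (4, 1), (8, 1)], [(1, 1), (5, 1), (9, 1)], [(2, 1), (6, 1), (10, 1)],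
      [(3, 1), (7, 1), (11, 1)]],
    [[], [], [], [], [(3, -1)], [(4, -1), (8, -1)], [(5, -1), (9, -1)], [(6, -1), (10, -1)],
      [(3, 1)], [(0, 1), (4, 1), (8, 1)], [(1, 1), (5, 1), (9, 1)], [(2, 1), (6, 1), (10, 1)]],
    [[], [], [], [], [(2, -1)], [(3, -1)], [(4, -1), (8, -1)], [(5, -1), (9, -1)], [(2, 1)],
      [(3, 1)], [(0, 1), (4, 1), (8, 1)], [(1, 1), (5, 1), (9, 1)]],
    [[], [], [], [], [(1, -1)], [(2, -1)], [(3, -1)], [(4, -1), (8, -1)], [(1, 1)], [(2, 1)],
      [(3, 1)], [(0, 1), (4, 1), (8, 1)]],
    [[], [], [], [], [(0, -1)], [(1, -1)], [(2, -1)], [(3, -1)], [(0, 1)], [(1, 1)], [(2, 1)],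
      [(3, 1)]],
    [[], [], [], [], [], [(0, -1)], [(1, -1)], [(2, -1)], [], [(0, 1)], [(1, 1)], [(2, 1)]],
    [[], [], [], [], [], [], [(0, -1)], [(1, -1)], [], [], [(0, 1)], [(1, 1)]],
    [[], [], [], [], [], [], [], [(0, -1)], [], [], [], [(0, 1)]]]
  xc := [[(1, 1)], [(1, 1), (5, -1), (9, 1)], [(2, 1), (3, 1), (6, -1), (7, -1), (10, 1), (11, 1)]]
  X := [[[], [(0, 1)], [(1, 1)], [(2, 1)], [(7, -1), (11, -1)], [(4, 1)], [(5, 1)], [(6, 1)], [(3,
      1), (7, 1), (11, 1)], [(8, 1)], [(9, 1)], [(10, 1)]],
    [[], [(0, 1)], [(1, 1)], [(2, 1)], [(3, 1), (7, -1), (11, -1)], [(0, -1), (4, 2), (8, 1)],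
      [(1, -1), (5, 2), (9, 1)], [(2, -1), (6, 2), (10, 1)], [(7, 1), (11, 1)], [(4, -1)], [(5,
      -1)], [(6, -1)]],
    [[], [], [(0, 1)], [(0, 1), (1, 1)], [(1, 1), (2, 1), (5, -1), (6, -1), (9, -1), (10, -1)],
      [(2, 1), (3, 1), (6, -1), (7, -1), (10, -1), (11, -1)], [(0, -1), (3, 1), (4, 2), (7, -1),
      (8, 1), (11, -1)], [(0, -1), (1, -1), (4, 2), (5, 2), (8, 1), (9, 1)], [(5, 1), (6, 1), (9,
      1), (10, 1)], [(6, 1), (7, 1), (10, 1), (11, 1)], [(4, -1), (7, 1), (11, 1)], [(4, -1), (5,
      -1)]]]

/-- degrees -/
def dl : List ℕ := [1, 2, 2]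

theorem bs_ck : bs.ckW dl 12 = true := by decide +kernel

set_option maxRecDepth 100000 in
/-- certificate -/
def ce0 : Cer where
  den := 16
  N := [[[(24, -40), (36, 12), (37, 32), (48, 16), (60, -52), (61, 16), (62, -28), (73, 4), (74,
      -32), (84, -32), (98, 20), (99, 40), (102, 12), (103, -40), (108, -24), (111, 32), (112,
      40), (121, -24), (124, 68), (125, -12), (128, -56), (132, -32), (136, 16), (137, -40),
      (140, -12), (181, -52), (192, 16), (204, 28), (205, -40), (242, 12), (253, -20), (256,
      -32), (257, 4), (258, 12), (259, -40), (265, 28), (267, 36), (269, 28), (270, -16), (271,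
      -48), (279, -4), (280, -36), (281, -12), (282, -24), (283, 36), (324, 40), (337, 4), (348,
      -12), (349, -24), (360, -4), (361, 36), (373, 4), (396, 20), (397, -20), (399, -4), (401,
      -12), (402, -36), (403, 4), (408, -4), (410, -32), (411, -32), (412, 4), (413, 12), (414,
      24), (415, 32), (421, 4), (422, 4), (423, 28), (424, 24), (426, -36), (427, 12)],
      [(24, -10), (36, -5), (37, 8), (48, -16), (49, -4), (60, -17), (61, 8), (62, -7), (73, -3),
      (96, -12), (98, 5), (99, 10), (102, 3), (103, -10), (108, -10), (109, 4), (111, 8), (112,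
      10), (121, -10), (124, 17), (125, 1), (126, 4), (128, -14), (136, -16), (137, -10), (139,
      4), (140, 5), (181, -13), (192, 4), (204, 7), (205, -18), (242, 3), (253, -9), (256, -8),
      (257, 1), (258, 3), (259, -10), (265, 7), (267, 1), (269, 7), (270, -4), (271, -4), (279,
      -5), (280, -1), (281, -3), (282, -6), (283, 5), (324, 10), (337, 1), (348, 5), (349, -6),
      (360, 3), (361, 1), (373, 1), (396, 5), (397, -5), (399, -1), (401, -3), (402, -9), (403,
      1), (408, 3), (409, -4), (410, -8), (411, -8), (412, 1), (413, 3), (414, 6), (415, 8),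
      (421, 1), (422, 5), (423, 7), (424, 6), (426, -9), (427, 3)],
      [],
      [],
      [],
      [],
      [],
      [],
      [],
      [],
      [],
      []],
    [[(24, 48), (36, -32), (37, -48), (48, -48), (49, -16), (60, 96), (61, -32), (62, 64), (74,
      80), (84, 80), (97, -16), (98, -48), (99, -48), (101, 16), (103, 48), (108, 48), (111,
      -48), (112, -48), (121, 48), (124, -112), (128, 96), (132, 80), (136, -48), (137, 96),
      (140, 32), (180, -16), (181, 48), (192, -32), (204, -48), (205, 80), (242, -16), (253, 48),
      (256, 48), (258, -16), (259, 96), (265, -48), (267, -80), (269, -48), (270, 32), (271,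
      112), (280, 80), (281, 16), (282, 48), (283, -80), (324, -48), (336, 16), (348, 32), (349,
      48), (361, -80), (384, 16), (396, -48), (397, 48), (401, 16), (402, 48), (410, 64), (411,
      48), (413, -32), (414, -48), (415, -48), (423, -64), (424, -48), (426, 80), (427, -32)],
      [(24, -24), (36, 12), (37, 24), (48, 16), (49, 8), (60, -60), (61, 16), (62, -12), (74,
      -32), (84, -28), (97, 8), (98, 12), (99, 32), (101, -8), (102, 12), (103, -32), (108, -32),
      (111, 24), (112, 44), (121, -28), (124, 56), (125, -8), (128, -48), (132, -28), (136, 28),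
      (137, -28), (140, -12), (180, 8), (181, -44), (192, 16), (204, 28), (205, -32), (242, 8),
      (253, -16), (256, -36), (258, 8), (259, -28), (265, 28), (267, 32), (269, 28), (270, -16),
      (271, -48), (280, -32), (281, -8), (282, -20), (283, 32), (324, 32), (336, -4), (337, 16),
      (348, -16), (349, -20), (361, 32), (372, 4), (384, -8), (385, 12), (396, 16), (397, -16),
      (401, -8), (402, -36), (410, -16), (411, -28), (413, 16), (414, 20), (415, 28), (420, 4),
      (423, 16), (424, 20), (426, -32), (427, 12)],
      [],
      [],
      [],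
      [],
      [],
      [],
      [],
      [],
      [],
      []],
    [[(36, 16), (49, -16), (61, -16), (62, -16), (74, 16), (84, 16), (101, 16), (114, 16), (127,
      16), (132, 16), (136, -16), (180, -16), (192, -16), (270, 16), (271, 16), (279, -16), (348,
      16), (413, -16), (422, 16)],
      [(24, 32), (36, -28), (37, -40), (48, -40), (49, -16), (60, 92), (61, -32), (62, 52), (74,
      72), (84, 68), (97, -16), (98, -44), (99, -48), (101, 16), (102, 4), (103, 48), (108, 48),
      (111, -40), (112, -44), (121, 44), (124, -104), (128, 88), (132, 68), (136, -44), (137,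
      84), (140, 28), (180, -16), (181, 44), (192, -32), (204, -44), (205, 72), (242, -16), (253,
      40), (256, 44), (258, -16), (259, 84), (265, -44), (267, -72), (269, -44), (270, 32), (271,
      104), (280, 72), (281, 16), (282, 44), (283, -72), (324, -48), (336, 12), (348, 32), (349,
      44), (361, -72), (372, -4), (384, 16), (385, 4), (396, -40), (397, 40), (401, 16), (402,
      44), (410, 56), (411, 44), (413, -32), (414, -44), (415, -44), (420, -4), (423, -56), (424,
      -44), (426, 72), (427, -28)],
      [(24, -26), (25, -12), (36, 10), (37, 24), (38, 4), (48, 14), (49, 6), (60, -58), (61, 16),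
      (62, -12), (74, -30), (84, -24), (97, 6), (98, 14), (99, 36), (101, -6), (102, 10), (103,
      -32), (108, -32), (111, 24), (112, 38), (116, 4), (121, -26), (124, 56), (125, -6), (128,
      -46), (132, -24), (136, 22), (137, -28), (140, -10), (180, 6), (181, -42), (192, 16), (204,
      26), (205, -30), (242, 10), (253, -14), (256, -32), (258, 10), (259, -24), (265, 26), (267,
      30), (269, 26), (270, -16), (271, -46), (280, -30), (281, -10), (282, -20), (283, 30),
      (324, 32), (337, 12), (348, -16), (349, -20), (361, 30), (372, 6), (384, -6), (385, 6),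
      (396, 14), (397, -14), (401, -10), (402, -36), (410, -18), (411, -30), (413, 16), (414,
      20), (415, 26), (420, 6), (423, 18), (424, 20), (426, -30), (427, 10)],
      [],
      [],
      [],
      [],
      [],
      [],
      [],
      [],
      []],
    [[(24, -84), (36, 38), (37, 80), (48, 64), (49, 8), (60, -178), (61, 48), (62, -78), (73,
      -14), (74, -96), (84, -88), (96, 8), (97, 16), (98, 74), (99, 100), (101, -16), (102, 6),
      (103, -100), (108, -100), (109, 8), (111, 80), (112, 92), (121, -92), (124, 186), (125,
      10), (126, -8), (128, -156), (132, -88), (136, 40), (137, -124), (139, -8), (140, -38),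
      (180, 16), (181, -106), (192, 40), (204, 78), (205, -116), (242, 30), (253, -58), (256,
      -88), (257, -6), (258, 30), (259, -124), (265, 78), (267, 106), (269, 78), (270, -56),
      (271, -152), (279, -18), (280, -106), (281, -30), (282, -68), (283, 114), (324, 100), (336,
      -8), (337, 10), (348, -46), (349, -68), (360, 14), (361, 106), (372, 8), (373, 10), (384,
      -16), (385, -8), (396, 50), (397, -50), (399, 6), (401, -30), (402, -82), (403, -6), (408,
      14), (409, -8), (410, -96), (411, -88), (412, 10), (413, 46), (414, 68), (415, 88), (420,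
      8), (421, 10), (422, 18), (423, 86), (424, 68), (426, -106), (427, 38)],
      [(49, -16), (61, -16), (62, -16), (74, 16), (84, 16), (101, 16), (114, 16), (127, 16),
      (132, 16), (136, -16), (180, -16), (192, -16), (270, 16), (271, 16), (279, -16), (348, 16),
      (413, -16), (422, 16)],
      [(24, 32), (36, -24), (37, -48), (48, -32), (49, -16), (60, 88), (61, -32), (62, 40), (74,
      64), (84, 56), (97, -16), (98, -40), (99, -48), (101, 16), (102, 8), (103, 48), (108, 48),
      (111, -32), (112, -40), (121, 40), (124, -96), (128, 80), (132, 56), (136, -40), (137, 72),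
      (140, 24), (180, -16), (181, 40), (192, -32), (204, -40), (205, 64), (242, -16), (253, 32),
      (256, 40), (258, -16), (259, 72), (265, -40), (267, -64), (269, -40), (270, 32), (271, 96),
      (280, 64), (281, 16), (282, 40), (283, -64), (324, -48), (336, 8), (348, 32), (349, 40),
      (361, -64), (372, -8), (384, 16), (385, 8), (396, -32), (397, 32), (401, 16), (402, 40),
      (410, 48), (411, 40), (413, -32), (414, -40), (415, -40), (420, -8), (423, -48), (424,
      -40), (426, 64), (427, -24)],
      [(24, -28), (25, -8), (36, 8), (37, 24), (38, -8), (48, 12), (49, 4), (60, -56), (61, 16),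
      (62, -12), (74, -28), (84, -20), (97, 4), (98, 16), (99, 40), (101, -4), (102, 8), (103,
      -32), (108, -32), (111, 24), (112, 32), (116, 8), (121, -24), (124, 56), (125, -4), (128,
      -44), (132, -20), (136, 16), (137, -28), (140, -8), (180, 4), (181, -40), (192, 16), (204,
      24), (205, -28), (242, 12), (253, -12), (256, -28), (258, 12), (259, -20), (265, 24), (267,
      28), (269, 24), (270, -16), (271, -44), (280, -28), (281, -12), (282, -20), (283, 28),
      (324, 32), (336, 4), (337, 8), (348, -16), (349, -20), (361, 28), (372, 8), (384, -4),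
      (396, 12), (397, -12), (401, -12), (402, -36), (410, -20), (411, -32), (413, 16), (414,
      20), (415, 24), (420, 8), (423, 20), (424, 20), (426, -28), (427, 8)],
      [(24, 12), (36, -14), (37, -16), (48, -40), (49, -16), (60, 34), (61, -24), (62, 22), (73,
      -2), (74, 32), (84, 24), (96, -16), (97, -8), (98, -26), (99, -20), (100, 16), (101, 8),
      (102, 10), (103, 20), (108, 20), (109, -16), (111, -16), (112, -12), (113, 16), (121, 12),
      (124, -42), (125, -2), (128, 36), (132, 24), (136, -24), (137, 36), (140, 14), (180, -8),
      (181, 10), (192, -8), (204, -14), (205, 20), (242, -6), (253, 26), (256, 16), (257, 6),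
      (258, -6), (259, 36), (265, -14), (267, -26), (269, -14), (270, 24), (271, 40), (279, -14),
      (280, 26), (281, 6), (282, 12), (283, -18), (324, -20), (337, 6), (348, 22), (349, 12),
      (360, 2), (361, -26), (372, -8), (373, 6), (384, 8), (385, 8), (396, -10), (397, 10), (399,
      -6), (401, 6), (402, 10), (403, 6), (408, 2), (409, -8), (410, 24), (411, 24), (412, -10),
      (413, -14), (414, -12), (415, -24), (420, -8), (421, 6), (422, 14), (423, -30), (424, -12),
      (426, 18), (427, -6)],
      [(24, -8), (36, -24), (49, -8), (61, -16), (62, 8), (74, 16), (84, 16), (97, -8), (98, -8),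
      (101, 16), (102, 8), (114, 8), (124, -8), (127, 8), (128, 8), (132, 16), (136, -8), (137,
      8), (181, -8), (192, -16), (205, 16), (259, 8), (267, -16), (270, 16), (271, 16), (280,
      16), (283, -16), (336, 8), (348, 16), (361, -16), (384, 8), (410, 8), (413, -16), (414,
      -8), (423, -8), (426, 16)],
      [(36, 4), (37, -8), (48, 8), (60, -4), (62, -12), (74, -8), (84, -12), (98, 4), (102, 4),
      (111, 8), (112, 4), (121, -4), (124, 8), (128, -8), (132, -12), (136, 4), (137, -12), (140,
      -4), (181, 12), (204, 4), (205, -8), (253, -8), (256, -4), (259, -12), (265, 4), (267, 8),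
      (269, 4), (271, -8), (280, -8), (282, -4), (283, 8), (336, -4), (349, -4), (361, 8), (372,
      -4), (385, 4), (396, 8), (397, -8), (402, -4), (410, -8), (411, -4), (414, 4), (415, 4),
      (420, -4), (423, 8), (424, 4), (426, -8), (427, 4)],
      [(24, -4), (25, -8), (38, -8), (48, 4), (49, 4), (60, -8), (62, 4), (73, -4), (74, -4),
      (97, 4), (101, -4), (103, 8), (108, -8), (112, -4), (116, 8), (121, -4), (124, -4), (125,
      8), (128, 4), (136, 4), (180, 4), (181, -8), (205, 4), (257, -4), (259, 8), (271, -4),
      (279, 4), (324, 8), (337, 4), (348, -4), (360, 4), (372, 4), (373, -4), (384, -4), (385,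
      4), (399, 4), (402, -4), (403, -4), (408, 4), (410, 4), (411, -4), (412, -4), (413, 4),
      (415, -4), (420, 4), (421, -4), (422, -4)],
      [],
      [],
      [],
      []],
    [[(48, -8), (60, 16), (74, 8), (97, -8), (98, -8), (99, -8), (101, 8), (102, 8), (103, 8),
      (108, 8), (112, -8), (121, 8), (125, -8), (136, 8), (137, 8), (138, 8), (180, -8), (192,
      -8), (270, 8), (271, 8), (279, -8), (324, -8), (348, 8), (372, -8), (384, 8), (408, -8),
      (409, 8), (411, 8), (413, -8), (420, -8), (421, 8), (423, -8)],
      [(61, 16)],
      [],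
      [(24, 32), (36, -16), (37, -32), (48, -16), (49, -16), (60, 80), (61, -32), (62, 32), (74,
      48), (84, 32), (97, -16), (98, -48), (99, -48), (101, 16), (102, 16), (103, 48), (108, 48),
      (111, -32), (112, -32), (121, 32), (124, -80), (128, 64), (132, 32), (136, -16), (137, 64),
      (140, 16), (180, -16), (181, 32), (192, -32), (204, -32), (205, 48), (242, -16), (253, 16),
      (256, 32), (258, -16), (259, 48), (265, -32), (267, -48), (269, -32), (270, 32), (271, 80),
      (280, 48), (281, 16), (282, 32), (283, -48), (324, -48), (348, 32), (349, 32), (361, -48),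
      (372, -16), (384, 16), (385, 16), (396, -16), (397, 16), (401, 16), (402, 32), (410, 48),
      (411, 32), (413, -32), (414, -32), (415, -32), (420, -16), (423, -48), (424, -32), (426,
      48), (427, -16)],
      [(24, -24), (37, 16), (48, 8), (49, -8), (60, -32), (62, -8), (74, -8), (84, -8), (97, -8),
      (99, 16), (101, 8), (102, 16), (103, -16), (108, -16), (111, 16), (112, 16), (121, -16),
      (124, 32), (125, -8), (128, -24), (132, -8), (137, -8), (180, -8), (181, -32), (204, 16),
      (205, -8), (242, 8), (253, -8), (256, -24), (258, 8), (259, -8), (265, 16), (267, 8), (269,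
      16), (271, -8), (280, -8), (281, -8), (282, -8), (283, 8), (324, 16), (336, 8), (349, -8),
      (361, 8), (384, 8), (396, 8), (397, -8), (401, -8), (402, -24), (410, -8), (411, -16),
      (414, 8), (415, 16), (423, 8), (424, 8), (426, -8)],
      [(24, 20), (36, -6), (37, -16), (48, -32), (49, 8), (60, 34), (62, 14), (73, 6), (74, 16),
      (84, 16), (96, -8), (98, -10), (99, -20), (102, -6), (103, 20), (108, 20), (109, -8), (111,
      -16), (112, -20), (121, 20), (124, -34), (125, -2), (126, 8), (128, 28), (132, 16), (137,
      20), (139, 8), (140, 6), (181, 26), (192, 8), (204, -14), (205, 20), (242, -6), (253, 18),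
      (256, 16), (257, -2), (258, -6), (259, 20), (265, -14), (267, -18), (269, -14), (270, 8),
      (271, 24), (279, 10), (280, 18), (281, 6), (282, 12), (283, -26), (324, -20), (337, -2),
      (348, 6), (349, 12), (360, -6), (361, -18), (373, -2), (396, -10), (397, 10), (399, 2),
      (401, 6), (402, 18), (403, -2), (408, -6), (409, 8), (410, 16), (411, 16), (412, -2), (413,
      -6), (414, -12), (415, -16), (421, -2), (422, -10), (423, -14), (424, -12), (426, 18),
      (427, -6)],
      [(24, 16), (36, 24), (48, 8), (61, 16), (73, -8), (74, -24), (84, -32), (97, 16), (98, 8),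
      (101, -24), (102, -8), (112, 8), (114, -8), (121, -8), (124, 16), (127, -8), (128, -16),
      (132, -32), (136, -48), (137, -8), (140, 32), (180, 24), (181, 8), (192, 16), (205, -40),
      (257, -8), (258, -16), (259, -8), (267, 16), (270, -16), (271, -24), (279, -24), (280,
      -16), (283, 48), (336, -24), (337, 8), (348, -24), (360, 8), (361, 32), (372, -8), (373,
      8), (384, -16), (385, 8), (399, -8), (400, 16), (402, -8), (403, 8), (408, 8), (409, -16),
      (410, -16), (411, 8), (412, -8), (413, 24), (414, 24), (415, -8), (420, -8), (421, 8),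
      (422, 24), (423, 8), (426, -48)],
      [(124, 16), (259, -16)],
      [],
      [],
      [],
      []],
    [[(24, -32), (36, 16), (37, 32), (48, -16), (60, -64), (61, 32), (74, -16), (98, 16), (99,
      32), (102, 16), (103, -32), (108, -32), (111, 32), (112, 32), (121, -32), (124, 112), (128,
      -64), (136, 16), (137, -16), (140, -16), (181, -48), (192, 32), (204, 32), (205, -48),
      (216, 16), (229, -16), (242, 16), (253, 16), (256, -32), (258, 32), (259, -32), (265, 32),
      (267, 48), (269, 32), (270, -32), (271, -80), (279, -32), (280, -48), (281, -16), (282,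
      -32), (283, 48), (324, 32), (336, 16), (348, -32), (349, -32), (361, 48), (396, -16), (397,
      16), (401, -32), (402, -32), (410, -48), (411, -32), (413, 32), (414, 32), (415, 32), (422,
      32), (423, 16), (424, 32), (426, -48), (427, 16)],
      [],
      [],
      [(62, -16)],
      [(24, 32), (36, -12), (37, -24), (48, -8), (60, 60), (61, -16), (62, 20), (74, 24), (84,
      20), (98, -12), (99, -32), (102, -12), (103, 32), (108, 32), (111, -24), (112, -28), (121,
      28), (124, -72), (128, 40), (132, 20), (136, -12), (137, 36), (140, 12), (181, 44), (192,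
      -16), (204, -28), (205, 24), (242, -16), (253, 8), (256, 28), (258, -16), (259, 36), (265,
      -28), (267, -24), (269, -28), (270, 16), (271, 40), (280, 24), (281, 16), (282, 28), (283,
      -24), (324, -32), (336, -4), (348, 16), (349, 12), (361, -24), (372, -4), (385, 4), (396,
      -8), (397, 8), (401, 16), (402, 28), (410, 24), (411, 28), (413, -16), (414, -12), (415,
      -28), (420, -4), (423, -24), (424, -28), (426, 24), (427, -12)],
      [(24, -16), (37, 8), (49, -8), (60, -24), (73, 4), (84, -4), (97, -8), (98, -8), (99, 8),
      (101, 8), (102, 16), (103, -8), (108, -8), (111, 8), (112, 12), (121, -12), (124, 12),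
      (125, -4), (128, -8), (132, -4), (136, 4), (137, 4), (180, -8), (181, -24), (204, 16),
      (205, -8), (242, 4), (253, -4), (256, -12), (257, 4), (258, 4), (259, 4), (265, 16), (267,
      4), (279, -4), (280, -4), (281, -4), (282, -4), (283, 4), (324, 8), (336, 4), (337, 4),
      (348, 4), (349, -4), (360, -4), (361, 4), (372, -4), (373, 4), (384, 8), (385, 4), (396,
      4), (397, -4), (399, -4), (401, -4), (402, -16), (403, 4), (408, -4), (411, -4), (412, 4),
      (413, -4), (414, 4), (415, 4), (420, -4), (421, 4), (422, 4), (423, -4), (424, 4), (426,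
      -4)],
      [(36, -8), (48, -16), (61, -8), (74, 8), (84, 8), (96, -8), (109, -8), (126, 8), (132, 8),
      (136, -16), (139, 8), (140, 8), (205, 8), (253, 8), (267, -8), (271, 8), (280, 8), (283,
      -8), (348, 8), (361, -8)],
      [(24, 32), (36, 40), (48, 8), (49, 16), (61, 32), (62, -16), (73, -8), (74, -40), (84,
      -48), (97, 32), (98, 24), (101, -40), (102, -24), (112, 8), (114, -8), (121, -8), (124,
      32), (127, -8), (128, -32), (132, -48), (136, -48), (137, -24), (140, 32), (180, 40), (181,
      24), (192, 32), (205, -56), (257, -8), (258, -16), (259, -24), (267, 32), (270, -32), (271,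
      -56), (279, -24), (280, -32), (283, 64), (336, -40), (337, 8), (348, -40), (360, 8), (361,
      48), (372, -8), (373, 8), (384, -32), (385, 8), (399, -8), (400, 16), (402, -8), (403, 8),
      (408, 8), (409, -16), (410, -32), (411, 8), (412, -8), (413, 40), (414, 40), (415, -8),
      (420, -8), (421, 8), (422, 24), (423, 24), (426, -64)],
      [],
      [],
      [],
      []],
    [[(49, -16), (84, 16), (132, 16)],
      [(24, -32), (36, 16), (37, 32), (49, 16), (60, -80), (61, 32), (62, -16), (74, -32), (84,
      -16), (97, 16), (98, 48), (99, 48), (101, -16), (102, -16), (103, -48), (108, -48), (111,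
      32), (112, 32), (121, -32), (124, 96), (128, -64), (132, -16), (136, 16), (137, -48), (140,
      -16), (180, 16), (181, -32), (192, 32), (204, 32), (205, -48), (242, 16), (256, -32), (258,
      16), (259, -48), (265, 32), (267, 48), (269, 32), (270, -32), (271, -80), (279, -16), (280,
      -48), (281, -16), (282, -32), (283, 48), (324, 48), (348, -32), (349, -32), (361, 48),
      (372, 16), (384, -16), (385, -16), (401, -16), (402, -32), (410, -48), (411, -32), (413,
      32), (414, 32), (415, 32), (420, 16), (422, 16), (423, 32), (424, 32), (426, -48), (427,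
      16)],
      [(48, 8), (73, -16), (74, -8), (97, 8), (98, 8), (99, 8), (101, -8), (102, -8), (103, -8),
      (108, -8), (112, 8), (121, -8), (125, 8), (136, -8), (137, -8), (138, -8), (180, 8), (192,
      8), (270, -8), (271, -8), (279, 8), (324, 8), (348, -8), (372, 8), (384, -8), (408, 8),
      (409, -8), (411, -8), (413, 8), (420, 8), (421, -8), (423, 8)],
      [(74, -16)],
      [(24, -32), (36, -40), (48, -8), (49, -16), (61, -32), (73, 8), (74, 40), (84, 48), (97,
      -32), (98, -24), (101, 40), (102, 24), (112, -8), (114, 8), (121, 8), (124, -32), (127, 8),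
      (128, 32), (132, 48), (136, 80), (137, 24), (140, -48), (180, -40), (181, -24), (192, -32),
      (205, 56), (257, 8), (258, 16), (259, 24), (267, -16), (270, 32), (271, 40), (279, 24),
      (280, 16), (283, -64), (336, 40), (337, -8), (348, 40), (360, -8), (361, -48), (372, 8),
      (373, -8), (384, 32), (385, -8), (399, 8), (400, -16), (402, 8), (403, -8), (408, -8),
      (409, 16), (410, 32), (411, -8), (412, 8), (413, -40), (414, -40), (415, 8), (420, 8),
      (421, -8), (422, -24), (423, -24), (426, 64)],
      [(24, 16), (36, -16), (37, -16), (48, -16), (60, 32), (61, -16), (62, 16), (74, 32), (84,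
      32), (98, -16), (99, -16), (103, 16), (108, 16), (111, -16), (112, -16), (121, 16), (124,
      -48), (128, 32), (132, 32), (136, -32), (137, 32), (140, 16), (181, 16), (192, -16), (204,
      -16), (205, 32), (253, 16), (256, 16), (258, -16), (259, 32), (265, -16), (267, -32), (269,
      -16), (270, 16), (271, 48), (280, 32), (282, 16), (283, -32), (324, -16), (348, 16), (349,
      16), (361, -32), (396, -16), (397, 16), (401, 16), (402, 16), (410, 16), (411, 16), (413,
      -16), (414, -16), (415, -16), (423, -16), (424, -16), (426, 32), (427, -16)],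
      [],
      [(24, -20), (36, 6), (37, 16), (49, -8), (60, -34), (62, -14), (73, -6), (74, -16), (84,
      -16), (96, -8), (98, 10), (99, 20), (102, 6), (103, -20), (108, -20), (109, -8), (111, 16),
      (112, 20), (121, -20), (124, 34), (125, 2), (126, 8), (128, -28), (132, -16), (137, -20),
      (139, 8), (140, -6), (181, -26), (192, 8), (204, 14), (205, -20), (242, 6), (253, -2),
      (256, -16), (257, 2), (258, 6), (259, -20), (265, 14), (267, 18), (269, 14), (270, -8),
      (271, -24), (279, -10), (280, -18), (281, -6), (282, -12), (283, 10), (324, 20), (337, 2),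
      (348, -6), (349, -12), (360, 6), (361, 18), (373, 2), (396, 10), (397, -10), (399, -2),
      (401, -6), (402, -18), (403, 2), (408, 6), (409, -8), (410, -16), (411, -16), (412, 2),
      (413, 6), (414, 12), (415, 16), (421, 2), (422, 10), (423, 14), (424, 12), (426, -18),
      (427, 6)],
      [],
      [],
      [],
      []],
    [[(48, -16), (61, -16)],
      [],
      [(24, -32), (36, 16), (37, 32), (48, 16), (49, 16), (60, -80), (61, 32), (62, -16), (74,
      -48), (84, -32), (97, 16), (98, 48), (99, 48), (101, -16), (102, -16), (103, -48), (108,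
      -48), (111, 32), (112, 32), (121, -32), (124, 80), (128, -64), (132, -32), (136, 32), (137,
      -48), (140, -16), (180, 16), (181, -32), (192, 32), (204, 32), (205, -48), (242, 16), (253,
      -16), (256, -32), (258, 16), (259, -48), (265, 32), (267, 48), (269, 32), (270, -32), (271,
      -80), (280, -48), (281, -16), (282, -32), (283, 48), (324, 48), (348, -32), (349, -32),
      (361, 48), (372, 16), (384, -16), (385, -16), (396, 16), (397, -16), (401, -16), (402,
      -32), (410, -32), (411, -32), (413, 32), (414, 32), (415, 32), (420, 16), (423, 32), (424,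
      32), (426, -48), (427, 16)],
      [],
      [(24, 32), (36, -12), (37, -32), (48, -8), (49, -8), (60, 76), (61, -24), (62, 28), (73,
      4), (74, 16), (84, 32), (96, 8), (97, -8), (98, -28), (99, -40), (101, 8), (102, -4), (103,
      40), (108, 40), (109, 8), (111, -32), (112, -40), (121, 40), (124, -76), (125, -4), (126,
      -8), (128, 64), (132, 32), (136, -16), (137, 48), (139, -8), (140, 12), (180, -8), (181,
      44), (192, -16), (204, -36), (205, 56), (242, -12), (253, 12), (256, 40), (257, 4), (258,
      -12), (259, 48), (265, -36), (267, -44), (269, -36), (270, 16), (271, 64), (279, 28), (280,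
      44), (281, 12), (282, 32), (283, -44), (324, -40), (336, 8), (337, -12), (348, 12), (349,
      32), (360, -4), (361, -44), (373, -12), (384, 8), (396, -20), (397, 20), (399, -4), (401,
      12), (402, 36), (403, 4), (408, -4), (410, 40), (411, 32), (412, 4), (413, -20), (414,
      -32), (415, -32), (421, -12), (422, -12), (423, -28), (424, -32), (426, 52), (427, -20)],
      [(24, -40), (36, -40), (48, -16), (49, -8), (61, -16), (62, 8), (73, 16), (74, 32), (84,
      48), (97, -40), (98, -24), (101, 48), (102, 24), (112, -16), (114, 8), (121, 16), (124,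
      -40), (127, 8), (128, 40), (132, 48), (136, 136), (137, 24), (140, -64), (180, -48), (181,
      -24), (192, -16), (205, 64), (257, 16), (258, 32), (259, 24), (267, -16), (270, 16), (271,
      32), (279, 48), (280, 16), (283, -80), (336, 56), (337, -16), (348, 32), (360, -16), (361,
      -48), (372, 16), (373, -16), (384, 40), (385, -16), (399, 16), (400, -32), (402, 16), (403,
      -16), (408, -16), (409, 32), (410, 40), (411, -16), (412, 16), (413, -32), (414, -56),
      (415, 16), (420, 16), (421, -16), (422, -48), (423, -24), (426, 80)],
      [(36, -12), (37, -8), (48, -8), (49, -16), (60, 28), (61, -16), (62, 20), (74, 24), (84,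
      20), (97, -16), (98, -28), (99, -16), (101, 16), (102, 20), (103, 16), (108, 16), (111,
      -8), (112, -12), (121, 12), (124, -40), (128, 24), (132, 20), (136, -12), (137, 52), (140,
      12), (180, -16), (181, -4), (192, -16), (204, -12), (205, 24), (253, 8), (256, 12), (259,
      36), (265, -12), (267, -24), (269, -12), (270, 16), (271, 40), (280, 24), (282, 12), (283,
      -24), (324, -16), (336, 12), (348, 16), (349, 12), (361, -24), (372, -4), (384, 16), (385,
      4), (396, -8), (397, 8), (402, 12), (410, 24), (411, 12), (413, -16), (414, -12), (415,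
      -12), (420, -4), (423, -24), (424, -12), (426, 24), (427, -12)],
      [(24, 8), (36, -8), (37, -8), (48, -8), (49, -16), (60, 32), (61, -16), (62, 16), (73, 4),
      (74, 24), (84, 12), (97, -16), (98, -32), (99, -24), (101, 16), (102, 24), (103, 24), (108,
      24), (111, -8), (112, -12), (121, 12), (124, -20), (125, -12), (128, 16), (132, 12), (136,
      -4), (137, 36), (138, 16), (140, 8), (180, -16), (192, -16), (204, -8), (205, 16), (242,
      -4), (253, 4), (256, 4), (257, 4), (258, -4), (259, 20), (265, -8), (267, -20), (269, -8),
      (270, 16), (271, 40), (279, -4), (280, 20), (281, 4), (282, 12), (283, -20), (324, -24),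
      (336, 4), (337, 4), (348, 20), (349, 12), (360, -4), (361, -20), (372, -12), (373, 4),
      (384, 16), (385, 12), (396, -4), (397, 4), (399, -4), (401, 4), (403, 4), (408, -4), (410,
      24), (411, 20), (412, 4), (413, -20), (414, -12), (415, -4), (420, -12), (421, 4), (422,
      4), (423, -28), (424, -12), (426, 20), (427, -8)],
      [],
      [],
      [],
      []],
    [[(24, 32), (36, -16), (37, -32), (48, -8), (60, 64), (61, -16), (62, 32), (74, 24), (84,
      32), (97, 8), (98, -24), (99, -24), (101, -8), (102, -8), (103, 24), (108, 40), (111, -32),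
      (112, -8), (121, 24), (124, -80), (125, 8), (128, 64), (132, 32), (136, -24), (137, 40),
      (138, -8), (140, 16), (180, 8), (181, 32), (192, -8), (204, -32), (205, 48), (242, -16),
      (253, 16), (256, 32), (258, -16), (259, 48), (265, -32), (267, -48), (269, -32), (270, 8),
      (271, 56), (279, 24), (280, 48), (281, 16), (282, 32), (283, -48), (324, -24), (348, 8),
      (349, 32), (361, -48), (372, 8), (384, -8), (385, 16), (396, -16), (397, 16), (401, 16),
      (402, 32), (408, 8), (409, -8), (410, 48), (411, 24), (413, -8), (414, -32), (415, -32),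
      (420, 8), (421, -8), (422, -16), (423, -24), (424, -32), (426, 48), (427, -16)],
      [(24, -74), (36, 35), (37, 72), (48, 48), (49, 12), (60, -161), (61, 32), (62, -71), (73,
      -11), (74, -88), (84, -80), (96, -4), (97, 16), (98, 69), (99, 90), (101, -16), (102, 3),
      (103, -90), (108, -90), (109, 12), (111, 72), (112, 82), (121, -82), (124, 169), (125, 9),
      (126, -4), (128, -142), (132, -80), (136, 40), (137, -114), (139, -4), (140, -35), (180,
      16), (181, -93), (192, 36), (204, 71), (205, -106), (242, 27), (253, -57), (256, -80),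
      (257, -7), (258, 27), (259, -114), (265, 71), (267, 97), (269, 71), (270, -52), (271,
      -140), (279, -13), (280, -97), (281, -27), (282, -62), (283, 101), (324, 90), (336, -8),
      (337, 9), (348, -43), (349, -62), (360, 11), (361, 97), (372, 8), (373, 9), (384, -16),
      (385, -8), (396, 45), (397, -45), (399, 7), (401, -27), (402, -73), (403, -7), (408, 11),
      (409, -4), (410, -88), (411, -80), (412, 9), (413, 43), (414, 62), (415, 80), (420, 8),
      (421, 9), (422, 13), (423, 79), (424, 62), (426, -97), (427, 35)],
      [(49, -32), (61, -16), (62, -16), (74, 16), (84, 16), (97, -16), (101, 16), (114, 16),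
      (127, 16), (132, 16), (136, -16), (180, -16), (192, -16), (270, 16), (271, 16), (279, -16),
      (348, 16), (413, -16), (422, 16)],
      [(36, -4), (37, -8), (48, -8), (60, 4), (62, 12), (74, 8), (84, 12), (98, -4), (102, -4),
      (111, 8), (112, -4), (121, 4), (124, -8), (128, 8), (132, 12), (136, -4), (137, 12), (140,
      4), (181, 4), (204, -4), (205, 8), (253, 8), (256, 4), (259, 12), (265, -4), (267, -8),
      (269, -4), (271, 8), (280, 8), (282, 4), (283, -8), (336, 4), (349, 4), (361, -8), (372,
      4), (385, -4), (396, -8), (397, 8), (402, 4), (410, 8), (411, 4), (414, -4), (415, -4),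
      (420, 4), (423, -8), (424, -4), (426, 8), (427, -4)],
      [(112, 16)],
      [(24, -10), (36, 3), (37, 8), (49, -4), (60, -17), (62, -7), (73, -3), (74, -8), (84, -8),
      (96, -4), (98, 5), (99, 10), (102, 3), (103, -10), (108, -10), (109, -4), (111, 8), (112,
      10), (113, 16), (121, -10), (124, 17), (125, 1), (126, -4), (128, -14), (132, -8), (137,
      -10), (139, -4), (140, -3), (181, -13), (192, 4), (204, 7), (205, -10), (242, 3), (253,
      -1), (256, -8), (257, 1), (258, 3), (259, -10), (265, 7), (267, 9), (269, 7), (270, -4),
      (271, -12), (279, -5), (280, -9), (281, -3), (282, -6), (283, 13), (324, 10), (337, 1),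
      (348, -3), (349, -6), (360, 3), (361, 9), (373, 1), (396, 5), (397, -5), (399, -1), (401,
      -3), (402, -9), (403, 1), (408, 3), (409, -4), (410, -8), (411, -8), (412, 1), (413, 3),
      (414, 6), (415, 8), (421, 1), (422, 5), (423, 7), (424, 6), (426, -9), (427, 3)],
      [(24, -24), (36, -32), (48, -8), (49, -8), (61, -16), (62, 8), (73, 8), (74, 24), (84, 32),
      (97, -24), (98, -16), (101, 24), (102, 16), (112, -8), (114, 16), (121, 8), (124, -24),
      (127, 16), (128, 24), (132, 32), (136, 56), (137, 16), (140, -32), (180, -24), (181, -16),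
      (192, -16), (205, 40), (257, 8), (258, 16), (259, 16), (267, -16), (270, 16), (271, 24),
      (279, 24), (280, 16), (283, -48), (336, 32), (337, -8), (348, 24), (360, -8), (361, -32),
      (372, 8), (373, -8), (384, 24), (385, -8), (399, 8), (400, -16), (402, 8), (403, -8), (408,
      -8), (409, 16), (410, 24), (411, -8), (412, 8), (413, -24), (414, -32), (415, 8), (420, 8),
      (421, -8), (422, -24), (423, -16), (426, 48)],
      [(36, -4), (37, -8), (48, 8), (49, -16), (60, 20), (61, -16), (62, -4), (74, 8), (84, -4),
      (97, -16), (98, -20), (99, -16), (101, 16), (102, 12), (103, 16), (108, 16), (111, 8),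
      (112, -4), (121, 4), (124, -24), (128, 8), (132, -4), (136, -4), (137, 12), (140, 4), (180,
      -16), (181, 4), (192, -16), (204, -4), (205, 8), (253, -8), (256, 4), (259, 12), (265, -4),
      (267, -8), (269, -4), (270, 16), (271, 24), (280, 8), (282, 4), (283, -8), (324, -16),
      (336, 4), (348, 16), (349, 4), (361, -8), (372, -12), (384, 16), (385, 12), (396, 8), (397,
      -8), (402, 4), (410, 8), (411, 4), (413, -16), (414, -4), (415, -4), (420, -12), (423, -8),
      (424, -4), (426, 8), (427, -4)],
      [(24, 2), (25, -4), (36, -10), (37, -8), (38, -4), (48, -6), (49, -14), (60, 26), (61,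
      -16), (62, 20), (74, 22), (84, 16), (97, -14), (98, -30), (99, -20), (101, 14), (102, 22),
      (103, 16), (108, 16), (111, -8), (112, -6), (116, 12), (121, 10), (124, -24), (125, -18),
      (128, 22), (132, 16), (136, -6), (137, 36), (140, 10), (180, -14), (181, -6), (192, -16),
      (204, -10), (205, 22), (242, -2), (253, 6), (256, 8), (258, -2), (259, 32), (265, -10),
      (267, -22), (269, -10), (270, 16), (271, 38), (280, 22), (281, 2), (282, 12), (283, -22),
      (324, -16), (336, 8), (337, 4), (348, 16), (349, 12), (361, -22), (372, -6), (384, 14),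
      (385, 10), (396, -6), (397, 6), (401, 2), (402, -4), (410, 26), (411, 14), (413, -16),
      (414, -12), (415, -10), (420, -6), (423, -26), (424, -12), (426, 22), (427, -10)],
      [],
      [],
      []],
    [[(48, 16), (49, 16), (60, -32), (62, -16), (74, -16), (84, -16), (97, 16), (98, 48), (99,
      32), (101, -16), (102, -48), (103, -32), (108, -32), (124, -16), (132, -16), (137, -32),
      (180, 16), (181, 16), (216, -16), (229, 16), (253, -16), (258, -16), (259, -16), (279, 16),
      (324, 32), (336, -16), (372, 32), (384, -16), (385, -32), (396, 16), (397, -16), (401, 16),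
      (420, 32), (422, -16), (423, 16)],
      [(24, 32), (36, -16), (37, -32), (48, -16), (60, 64), (61, -16), (62, 32), (74, 32), (84,
      32), (98, -32), (99, -32), (103, 32), (108, 32), (111, -32), (112, -16), (121, 32), (124,
      -80), (128, 64), (132, 32), (136, -16), (137, 48), (140, 16), (181, 32), (192, -16), (204,
      -32), (205, 48), (242, -16), (253, 16), (256, 32), (258, -16), (259, 48), (265, -32), (267,
      -48), (269, -32), (270, 16), (271, 64), (279, 16), (280, 48), (281, 16), (282, 32), (283,
      -48), (324, -32), (348, 16), (349, 32), (361, -48), (385, 16), (396, -16), (397, 16), (401,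
      16), (402, 32), (410, 48), (411, 32), (413, -16), (414, -32), (415, -32), (422, -16), (423,
      -32), (424, -32), (426, 48), (427, -16)],
      [(24, -64), (36, 32), (37, 64), (48, 48), (49, 16), (60, -144), (61, 32), (62, -64), (73,
      -8), (74, -80), (84, -72), (97, 16), (98, 64), (99, 80), (101, -16), (103, -80), (108,
      -80), (111, 64), (112, 72), (121, -72), (124, 152), (125, 8), (128, -128), (132, -72),
      (136, 40), (137, -104), (140, -32), (180, 16), (181, -80), (192, 32), (204, 64), (205,
      -96), (242, 24), (253, -56), (256, -72), (257, -8), (258, 24), (259, -104), (265, 64),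
      (267, 88), (269, 64), (270, -48), (271, -128), (279, -8), (280, -88), (281, -24), (282,
      -56), (283, 88), (324, 80), (336, -8), (337, 8), (348, -40), (349, -56), (360, 8), (361,
      88), (372, 8), (373, 8), (384, -16), (385, -8), (396, 40), (397, -40), (399, 8), (401,
      -24), (402, -64), (403, -8), (408, 8), (410, -80), (411, -72), (412, 8), (413, 40), (414,
      56), (415, 72), (420, 8), (421, 8), (422, 8), (423, 72), (424, 56), (426, -88), (427, 32)],
      [(48, -16), (49, -16), (74, 16), (84, 16), (127, 16), (132, 16), (136, -16), (253, 16),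
      (279, -16), (396, -16), (422, 16)],
      [(124, 16)],
      [],
      [],
      [(24, -24), (36, -32), (48, -8), (49, -8), (61, -16), (62, 8), (73, 8), (74, 24), (84, 32),
      (97, -24), (98, -16), (101, 24), (102, 16), (112, -8), (121, 8), (124, -24), (127, 16),
      (128, 24), (132, 32), (136, 56), (137, 16), (140, -32), (180, -24), (181, -16), (192, -16),
      (205, 40), (257, 8), (258, 16), (259, 16), (267, -16), (270, 16), (271, 24), (279, 24),
      (280, 16), (283, -48), (336, 32), (337, -8), (348, 24), (360, -8), (361, -32), (372, 8),
      (373, -8), (384, 24), (385, -8), (399, 8), (400, -16), (402, 8), (403, -8), (408, -8),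
      (409, 16), (410, 24), (411, -8), (412, 8), (413, -24), (414, -32), (415, 8), (420, 8),
      (421, -8), (422, -24), (423, -16), (426, 48)],
      [],
      [(36, -12), (37, -8), (48, -8), (49, -16), (60, 28), (61, -16), (62, 20), (74, 24), (84,
      20), (97, -16), (98, -28), (99, -16), (101, 16), (102, 20), (103, 16), (108, 16), (111,
      -8), (112, -12), (121, 12), (124, -24), (125, -16), (128, 24), (132, 20), (136, -12), (137,
      36), (140, 12), (180, -16), (181, -4), (192, -16), (204, -12), (205, 24), (253, 8), (256,
      12), (259, 36), (265, -12), (267, -24), (269, -12), (270, 16), (271, 40), (280, 24), (282,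
      12), (283, -24), (324, -16), (336, 12), (348, 16), (349, 12), (361, -24), (372, -4), (384,
      16), (385, 4), (396, -8), (397, 8), (402, -4), (410, 24), (411, 12), (413, -16), (414,
      -12), (415, -12), (420, -4), (423, -24), (424, -12), (426, 24), (427, -12)],
      [(24, 20), (36, -6), (37, -16), (48, -32), (49, 8), (60, 34), (62, 14), (73, 6), (74, 16),
      (84, 16), (96, -8), (98, -10), (99, -20), (102, -6), (103, 20), (108, 20), (109, -8), (111,
      -16), (112, -20), (121, 20), (124, -34), (125, -2), (126, 8), (128, 28), (132, 16), (137,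
      20), (139, 8), (140, 6), (181, 26), (192, 8), (204, -14), (205, 20), (242, -6), (253, 18),
      (256, 16), (257, 14), (258, -6), (259, 20), (265, -14), (267, -18), (269, -14), (270, 8),
      (271, 24), (279, 10), (280, 18), (281, 6), (282, 12), (283, -26), (324, -20), (337, -2),
      (348, 6), (349, 12), (360, -6), (361, -18), (373, -2), (396, -10), (397, 10), (399, 2),
      (401, 6), (402, 18), (403, -2), (408, -6), (409, 8), (410, 16), (411, 16), (412, -2), (413,
      -6), (414, -12), (415, -16), (421, -2), (422, -10), (423, -14), (424, -12), (426, 18),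
      (427, -6)],
      [(24, -40), (36, -48), (48, -8), (49, -24), (61, -32), (62, 24), (73, 8), (74, 40), (84,
      48), (97, -40), (98, -32), (101, 40), (102, 32), (112, -8), (121, 8), (124, -40), (127,
      32), (128, 40), (132, 48), (136, 56), (137, 32), (140, -32), (180, -40), (181, -32), (192,
      -32), (205, 56), (257, 8), (258, 32), (259, 32), (267, -32), (270, 32), (271, 40), (279,
      24), (280, 32), (283, -64), (336, 48), (337, -8), (348, 40), (360, -8), (361, -48), (372,
      8), (373, -8), (384, 40), (385, -8), (399, 8), (400, -16), (402, 8), (403, -8), (408, -8),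
      (409, 16), (410, 40), (411, -8), (412, 8), (413, -40), (414, -48), (415, 8), (420, 8),
      (421, -8), (422, -24), (423, -32), (426, 64)]],
    [[],
      [],
      [(24, 32), (36, -16), (37, -32), (48, -24), (60, 64), (61, -16), (62, 32), (74, 40), (84,
      32), (97, -8), (98, -40), (99, -40), (101, 8), (102, 8), (103, 40), (108, 40), (111, -32),
      (112, -24), (121, 24), (124, -80), (125, -8), (128, 64), (132, 32), (136, -8), (137, 56),
      (138, 8), (140, 16), (180, -8), (181, 32), (192, -24), (204, -32), (205, 48), (242, -16),
      (253, 16), (256, 32), (258, -16), (259, 48), (265, -32), (267, -48), (269, -32), (270, 24),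
      (271, 72), (279, 8), (280, 48), (281, 16), (282, 32), (283, -48), (324, -40), (348, 24),
      (349, 32), (361, -48), (372, -8), (384, 8), (385, 16), (396, -16), (397, 16), (401, 16),
      (402, 32), (408, -8), (409, 8), (410, 48), (411, 40), (413, -24), (414, -32), (415, -32),
      (420, -8), (421, 8), (422, -16), (423, -40), (424, -32), (426, 48), (427, -16)],
      [(24, -54), (36, 29), (37, 56), (48, 48), (49, 4), (60, -127), (61, 32), (62, -57), (73,
      -5), (74, -56), (84, -64), (96, 4), (97, 16), (98, 59), (99, 70), (101, -16), (102, -3),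
      (103, -70), (108, -70), (109, 4), (111, 56), (112, 62), (121, -62), (124, 135), (125, 7),
      (126, -12), (128, -114), (132, -64), (136, 24), (137, -94), (139, 4), (140, -29), (180,
      16), (181, -67), (192, 28), (204, 57), (205, -86), (242, 21), (253, -39), (256, -64), (257,
      -9), (258, 21), (259, -94), (265, 57), (267, 79), (269, 57), (270, -44), (271, -116), (279,
      -19), (280, -79), (281, -21), (282, -50), (283, 75), (324, 70), (336, -8), (337, 7), (348,
      -37), (349, -50), (360, 5), (361, 79), (372, 8), (373, 7), (384, -16), (385, -8), (396,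
      35), (397, -35), (399, 9), (401, -21), (402, -55), (403, -9), (408, 5), (409, -12), (410,
      -72), (411, -64), (412, 7), (413, 37), (414, 50), (415, 64), (420, 8), (421, 7), (422, 19),
      (423, 65), (424, 50), (426, -79), (427, 29)],
      [(24, 24), (36, 32), (48, 8), (49, 8), (61, 16), (62, -8), (73, -8), (74, -24), (84, -32),
      (97, 24), (98, 16), (101, -24), (102, -16), (112, 8), (121, -8), (124, 24), (128, -24),
      (132, -32), (136, -56), (137, -16), (140, 32), (180, 24), (181, 16), (192, 16), (205, -40),
      (257, -8), (258, -16), (259, -16), (267, 16), (270, -16), (271, -24), (279, -24), (280,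
      -16), (283, 48), (336, -32), (337, 8), (348, -24), (360, 8), (361, 32), (372, -8), (373,
      8), (384, -24), (385, 8), (399, -8), (400, 16), (402, -8), (403, 8), (408, 8), (409, -16),
      (410, -24), (411, 8), (412, -8), (413, 24), (414, 32), (415, -8), (420, -8), (421, 8),
      (422, 24), (423, 16), (426, -48)],
      [],
      [(125, -16)],
      [(24, 10), (36, -3), (37, -8), (49, 4), (60, 17), (62, 7), (73, 3), (74, 8), (84, 8), (96,
      4), (98, -5), (99, -10), (102, -3), (103, 10), (108, 10), (109, 4), (111, -8), (112, -10),
      (121, 10), (124, -17), (125, -1), (126, -12), (128, 14), (132, 8), (137, 10), (139, 4),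
      (140, 3), (181, 13), (192, -4), (204, -7), (205, 10), (242, -3), (253, 1), (256, 8), (257,
      -1), (258, -3), (259, 10), (265, -7), (267, -9), (269, -7), (270, 4), (271, 12), (279, 5),
      (280, 9), (281, 3), (282, 6), (283, -13), (324, -10), (337, -1), (348, 3), (349, 6), (360,
      -3), (361, -9), (373, -1), (396, -5), (397, 5), (399, 1), (401, 3), (402, 9), (403, -1),
      (408, -3), (409, 4), (410, 8), (411, 8), (412, -1), (413, -3), (414, -6), (415, -8), (421,
      -1), (422, -5), (423, -7), (424, -6), (426, 9), (427, -3)],
      [],
      [(36, 4), (37, 8), (48, 8), (60, -4), (62, -12), (74, -8), (84, -12), (98, 4), (102, 4),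
      (111, 8), (112, 4), (121, -4), (124, 8), (128, -24), (132, -12), (136, 4), (137, -12),
      (140, -4), (181, -4), (204, 4), (205, -8), (253, -8), (256, -4), (259, -12), (265, 4),
      (267, 8), (269, 4), (271, -8), (280, -8), (282, -4), (283, 8), (336, -4), (349, -4), (361,
      8), (372, -4), (385, 4), (396, 8), (397, -8), (402, -4), (410, -8), (411, -4), (414, 4),
      (415, 4), (420, -4), (423, 8), (424, 4), (426, -8), (427, 4)],
      [(24, 8), (36, -12), (37, -16), (48, -16), (49, -16), (60, 36), (61, -16), (62, 28), (73,
      4), (74, 32), (84, 24), (97, -16), (98, -36), (99, -24), (101, 16), (102, 20), (103, 24),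
      (108, 24), (111, -16), (112, -16), (121, 16), (124, -44), (125, -44), (128, 40), (132, 24),
      (136, -8), (137, 48), (140, 12), (180, -16), (181, 4), (192, -16), (204, -12), (205, 24),
      (242, -4), (253, 12), (256, 8), (257, 4), (258, -4), (259, 48), (265, -12), (267, -28),
      (269, -12), (270, 16), (271, 48), (279, -4), (280, 28), (281, 4), (282, 16), (283, -28),
      (324, -24), (336, 8), (337, 4), (348, 20), (349, 16), (360, -4), (361, -28), (372, -8),
      (373, 4), (384, 16), (385, 8), (396, -12), (397, 12), (399, -4), (401, 4), (402, 4), (403,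
      4), (408, -4), (410, 32), (411, 24), (412, 4), (413, -20), (414, -16), (415, -24), (420,
      -8), (421, 4), (422, 4), (423, -36), (424, -16), (426, 28), (427, -12)],
      [(24, 20), (36, -14), (37, -16), (48, -16), (49, 8), (60, 34), (61, -8), (62, 14), (73, 6),
      (74, 24), (84, 24), (98, -10), (99, -20), (102, -6), (103, 20), (108, 20), (111, -16),
      (112, -20), (121, 20), (124, -34), (125, -2), (126, -16), (128, 28), (132, 24), (136, -16),
      (137, 20), (139, 16), (140, 14), (181, 26), (192, -8), (204, -14), (205, 28), (242, -6),
      (253, 10), (256, 16), (257, -2), (258, -6), (259, 20), (265, -14), (267, -26), (269, -14),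
      (270, 24), (271, 32), (279, 10), (280, 26), (281, 6), (282, 12), (283, -34), (324, -20),
      (337, -2), (348, 14), (349, 12), (360, -6), (361, -26), (373, -2), (396, -10), (397, 10),
      (399, 2), (401, 6), (402, 18), (403, -2), (408, -6), (409, 8), (410, 16), (411, 16), (412,
      -2), (413, -6), (414, -12), (415, -16), (421, -2), (422, -10), (423, -14), (424, -12),
      (426, 18), (427, -6)]],
    [[],
      [(49, -16)],
      [],
      [(24, 32), (36, -16), (37, -32), (48, -16), (49, -16), (60, 80), (61, -32), (62, 32), (74,
      48), (84, 32), (97, -16), (98, -48), (99, -48), (101, 16), (102, 16), (103, 48), (108, 48),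
      (111, -32), (112, -32), (121, 32), (124, -80), (125, -16), (128, 64), (132, 32), (136,
      -16), (137, 64), (140, 16), (180, -16), (181, 32), (192, -32), (204, -32), (205, 48), (242,
      -16), (253, 16), (256, 32), (258, -16), (259, 48), (265, -32), (267, -48), (269, -32),
      (270, 32), (271, 80), (280, 48), (281, 16), (282, 32), (283, -48), (324, -48), (348, 32),
      (349, 32), (361, -48), (372, -16), (384, 16), (385, 16), (396, -16), (397, 16), (401, 16),
      (402, 32), (410, 48), (411, 48), (413, -32), (414, -32), (415, -32), (420, -16), (423,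
      -48), (424, -32), (426, 48), (427, -16)],
      [(24, -64), (36, 32), (37, 64), (48, 48), (49, 16), (60, -144), (61, 48), (62, -64), (73,
      -8), (74, -64), (84, -72), (97, 16), (98, 64), (99, 80), (101, -16), (103, -80), (108,
      -80), (111, 64), (112, 72), (121, -72), (124, 152), (125, 8), (128, -128), (132, -72),
      (136, 40), (137, -104), (140, -32), (180, 16), (181, -80), (192, 32), (204, 64), (205,
      -96), (242, 24), (253, -40), (256, -72), (257, -8), (258, 24), (259, -104), (265, 64),
      (267, 88), (269, 64), (270, -48), (271, -128), (279, -24), (280, -88), (281, -24), (282,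
      -56), (283, 88), (324, 80), (336, -8), (337, 8), (348, -40), (349, -56), (360, 8), (361,
      88), (372, 8), (373, 8), (384, -16), (385, -8), (396, 40), (397, -40), (399, 8), (401,
      -24), (402, -64), (403, -8), (408, 8), (410, -80), (411, -72), (412, 8), (413, 40), (414,
      56), (415, 72), (420, 8), (421, 8), (422, 8), (423, 72), (424, 56), (426, -88), (427, 32)],
      [(24, 24), (36, 32), (48, 8), (49, 8), (61, 16), (62, -8), (73, -8), (74, -24), (84, -32),
      (97, 24), (98, 16), (101, -24), (102, -16), (112, 8), (121, -8), (124, 24), (128, -24),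
      (132, -32), (136, -72), (137, -16), (140, 32), (180, 24), (181, 16), (192, 16), (205, -40),
      (257, -8), (258, -16), (259, -16), (267, 16), (270, -16), (271, -24), (279, -24), (280,
      -16), (283, 48), (336, -32), (337, 8), (348, -24), (360, 8), (361, 32), (372, -8), (373,
      8), (384, -24), (385, 8), (399, -8), (400, 16), (402, -8), (403, 8), (408, 8), (409, -16),
      (410, -24), (411, 8), (412, -8), (413, 24), (414, 32), (415, -8), (420, -8), (421, 8),
      (422, 24), (423, 16), (426, -48)],
      [(137, -16)],
      [(125, -16), (138, -16)],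
      [(24, -44), (36, 26), (37, 48), (48, 48), (49, 24), (60, -110), (61, 48), (62, -50), (73,
      -2), (74, -48), (84, -56), (96, 8), (97, 16), (98, 54), (99, 60), (101, -16), (102, -6),
      (103, -60), (108, -60), (109, 8), (111, 48), (112, 52), (121, -52), (124, 118), (125, 6),
      (126, -8), (128, -100), (132, -56), (136, 40), (137, -84), (139, -8), (140, -26), (180,
      16), (181, -54), (192, 24), (204, 50), (205, -76), (242, 18), (253, -38), (256, -56), (257,
      -10), (258, 18), (259, -84), (265, 50), (267, 70), (269, 50), (270, -40), (271, -104),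
      (279, -14), (280, -70), (281, -18), (282, -44), (283, 62), (324, 60), (336, -8), (337, 6),
      (348, -34), (349, -44), (360, 2), (361, 70), (372, 8), (373, 6), (384, -16), (385, -8),
      (396, 30), (397, -30), (399, 10), (401, -18), (402, -46), (403, -10), (408, 2), (409, 8),
      (410, -64), (411, -56), (412, 6), (413, 34), (414, 44), (415, 56), (420, 8), (421, 6),
      (422, -2), (423, 58), (424, 44), (426, -70), (427, 26)],
      [(140, -16)],
      [(24, -16), (37, 16), (48, 16), (60, -32), (62, -16), (74, -16), (84, -16), (98, 16), (99,
      16), (103, -16), (108, -16), (111, 16), (112, 16), (121, -16), (124, 16), (128, -32), (132,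
      -16), (137, -48), (181, -16), (204, 16), (205, -16), (253, -16), (256, -16), (259, -16),
      (265, 16), (267, 16), (269, 16), (271, -16), (280, -16), (282, -16), (283, 16), (324, 16),
      (349, -16), (361, 16), (396, 16), (397, -16), (402, -16), (410, -16), (411, -16), (414,
      16), (415, 16), (423, 16), (424, 16), (426, -16)],
      [(24, 24), (36, -12), (37, -24), (48, -16), (49, -8), (60, 60), (61, -16), (62, 28), (74,
      32), (84, 28), (97, -8), (98, -28), (99, -32), (101, 8), (102, 4), (103, 32), (108, 32),
      (111, -24), (112, -28), (121, 28), (124, -56), (125, -40), (128, 48), (132, 28), (136,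
      -12), (137, 44), (138, -32), (140, 12), (180, -8), (181, 28), (192, -16), (204, -28), (205,
      32), (242, -8), (253, 16), (256, 20), (258, -8), (259, 44), (265, -28), (267, -32), (269,
      -28), (270, 16), (271, 48), (280, 32), (281, 8), (282, 36), (283, -32), (324, -32), (336,
      4), (348, 16), (349, 20), (361, -32), (372, -4), (384, 8), (385, 4), (396, -16), (397, 16),
      (401, 8), (402, 20), (410, 32), (411, 28), (413, -16), (414, -20), (415, -28), (420, -4),
      (423, -32), (424, -20), (426, 32), (427, -12)]]]
  A := [[[(24, -2), (25, 4), (36, -2), (38, 4), (48, -2), (49, -2), (60, 2), (74, 2), (84, 4), (97,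
      -2), (98, 2), (99, 4), (101, 2), (102, -2), (112, -6), (116, 4), (121, 2), (125, 2), (128,
      2), (132, 4), (136, -6), (140, 2), (180, -2), (181, 2), (204, -2), (205, 2), (242, 2),
      (253, 2), (256, 4), (258, 2), (259, 4), (265, -2), (267, -2), (269, -2), (271, 2), (280,
      2), (281, -2), (283, -2), (336, 4), (337, -4), (361, -2), (372, 2), (384, 2), (385, -6),
      (396, -2), (397, 2), (401, -2), (410, -2), (411, -2), (415, -2), (420, 2), (423, 2), (426,
      2), (427, -2)],
      [(36, 4), (37, 8), (48, 8), (60, -4), (62, -12), (74, -8), (84, -12), (98, 4), (102, 4),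
      (111, 8), (112, 4), (121, -4), (124, 8), (128, -8), (132, -12), (136, 4), (137, -12), (140,
      -4), (181, -4), (204, 4), (205, -8), (253, -8), (256, -4), (259, -12), (265, 4), (267, 8),
      (269, 4), (271, -8), (280, -8), (282, -4), (283, 8), (336, -4), (349, -4), (361, 8), (372,
      -4), (385, 4), (396, 8), (397, -8), (402, -4), (410, -8), (411, -4), (414, 4), (415, 4),
      (420, -4), (423, 8), (424, 4), (426, -8), (427, 4)],
      [],
      [(24, 10), (36, -3), (37, -8), (49, 4), (60, 17), (62, 7), (73, 3), (74, 8), (84, 8), (96,
      4), (98, -5), (99, -10), (102, -3), (103, 10), (108, 10), (109, 4), (111, -8), (112, -10),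
      (121, 10), (124, -17), (125, -1), (126, 4), (128, 14), (132, 8), (137, 10), (139, 4), (140,
      3), (181, 13), (192, -4), (204, -7), (205, 10), (242, -3), (253, 1), (256, 8), (257, -1),
      (258, -3), (259, 10), (265, -7), (267, -9), (269, -7), (270, 4), (271, 12), (279, 5), (280,
      9), (281, 3), (282, 6), (283, -13), (324, -10), (337, -1), (348, 3), (349, 6), (360, -3),
      (361, -9), (373, -1), (396, -5), (397, 5), (399, 1), (401, 3), (402, 9), (403, -1), (408,
      -3), (409, 4), (410, 8), (411, 8), (412, -1), (413, -3), (414, -6), (415, -8), (421, -1),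
      (422, -5), (423, -7), (424, -6), (426, 9), (427, -3)],
      [],
      [],
      [],
      [],
      [(48, -8), (74, 8), (97, -8), (98, -8), (99, -8), (101, 8), (102, 8), (103, 8), (108, 8),
      (112, -8), (121, 8), (125, -8), (136, 8), (137, 8), (138, 8), (180, -8), (192, -8), (270,
      8), (271, 8), (279, -8), (324, -8), (348, 8), (372, -8), (384, 8), (408, -8), (409, 8),
      (411, 8), (413, -8), (420, -8), (421, 8), (423, -8)],
      [(48, -16), (74, 16), (84, 16), (85, -16), (124, 16), (132, 16), (136, -16), (253, 16),
      (279, -16), (396, -16), (397, 16), (410, -16), (422, 16)],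
      [(49, -16), (132, 16)]],
    [[],
      [],
      [(24, 8), (36, 8), (49, 8), (61, 16), (62, -8), (74, -16), (84, -16), (97, 8), (98, 8),
      (101, -16), (102, -8), (114, -8), (124, 8), (127, -8), (128, -8), (132, -16), (136, 8),
      (137, -8), (180, 16), (181, 8), (192, 16), (205, -16), (259, -8), (267, 16), (270, -16),
      (271, -16), (280, -16), (283, 16), (336, -8), (348, -16), (361, 16), (384, -8), (410, -8),
      (413, 16), (414, 8), (423, 8), (426, -16)],
      [],
      [(24, -24), (36, 12), (37, 24), (48, 16), (49, 8), (60, -60), (61, 16), (62, -28), (74,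
      -32), (84, -28), (97, 8), (98, 28), (99, 32), (101, -8), (102, -4), (103, -32), (108, -32),
      (111, 24), (112, 28), (121, -28), (124, 56), (125, 8), (128, -48), (132, -28), (136, 12),
      (137, -44), (140, -12), (180, 8), (181, -28), (192, 16), (204, 28), (205, -32), (242, 8),
      (253, -16), (256, -20), (258, 8), (259, -44), (265, 28), (267, 32), (269, 28), (270, -16),
      (271, -48), (280, -32), (281, -8), (282, -20), (283, 32), (324, 32), (336, -4), (348, -16),
      (349, -20), (361, 32), (372, 4), (384, -8), (385, -4), (396, 16), (397, -16), (401, -8),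
      (402, -20), (410, -32), (411, -28), (413, 16), (414, 20), (415, 28), (420, 4), (423, 32),
      (424, 20), (426, -32), (427, 12)],
      [(24, 32), (36, -16), (37, -32), (48, -32), (60, 64), (61, -16), (62, 32), (74, 48), (84,
      48), (98, -32), (99, -32), (103, 32), (108, 32), (111, -32), (112, -32), (121, 32), (124,
      -64), (128, 64), (132, 48), (136, -32), (137, 48), (140, 16), (181, 32), (192, -16), (204,
      -32), (205, 48), (253, 32), (256, 32), (258, -16), (259, 48), (265, -32), (267, -48), (269,
      -32), (270, 16), (271, 64), (280, 48), (281, 16), (282, 32), (283, -48), (324, -32), (348,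
      16), (349, 32), (361, -48), (396, -32), (397, 32), (401, 16), (402, 32), (410, 32), (411,
      32), (413, -16), (414, -32), (415, -32), (423, -32), (424, -32), (426, 48), (427, -16)],
      [(24, 16), (36, 24), (48, 8), (62, -16), (73, -8), (74, -8), (84, -16), (97, 16), (98, 8),
      (101, -8), (102, -8), (112, 8), (114, 8), (121, -8), (124, 16), (127, 8), (128, -16), (132,
      -16), (136, -64), (137, -8), (140, 32), (180, 8), (181, 8), (205, -24), (257, -8), (258,
      -16), (259, -8), (267, 16), (271, -8), (279, -24), (283, 32), (336, -24), (337, 8), (348,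
      -8), (360, 8), (361, 16), (372, -8), (373, 8), (384, -16), (385, 8), (399, -8), (400, 16),
      (402, -8), (403, 8), (408, 8), (409, -16), (410, -16), (411, 8), (412, -8), (413, 8), (414,
      24), (415, -8), (420, -8), (421, 8), (422, 24), (423, 8), (426, -32)],
      [(24, -64), (36, 32), (37, 64), (48, 48), (49, 16), (60, -144), (61, 48), (62, -64), (73,
      -8), (74, -80), (84, -72), (97, 16), (98, 64), (99, 80), (101, -16), (103, -80), (108,
      -80), (111, 64), (112, 72), (121, -72), (124, 152), (125, 8), (128, -128), (132, -72),
      (136, 40), (137, -104), (140, -32), (180, 16), (181, -80), (192, 32), (204, 64), (205,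
      -96), (242, 24), (253, -40), (256, -72), (257, -8), (258, 24), (259, -104), (265, 64),
      (267, 88), (269, 64), (270, -48), (271, -128), (279, -8), (280, -88), (281, -24), (282,
      -56), (283, 88), (324, 80), (336, -8), (337, 8), (348, -40), (349, -56), (360, 8), (361,
      88), (372, 8), (373, 8), (384, -16), (385, -8), (396, 40), (397, -40), (399, 8), (401,
      -24), (402, -64), (403, -8), (408, 8), (410, -80), (411, -72), (412, 8), (413, 40), (414,
      56), (415, 72), (420, 8), (421, 8), (422, 8), (423, 72), (424, 56), (426, -88), (427, 32)],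
      [(24, 56), (36, -28), (37, -56), (48, -40), (49, -8), (60, 124), (61, -32), (62, 60), (74,
      72), (84, 60), (97, -16), (98, -68), (99, -72), (101, 16), (102, 12), (103, 72), (108, 72),
      (111, -56), (112, -52), (121, 52), (124, -136), (128, 112), (132, 60), (136, -20), (137,
      100), (138, 8), (140, 28), (180, -16), (181, 60), (192, -40), (204, -60), (205, 80), (242,
      -24), (253, 32), (256, 52), (258, -24), (259, 92), (265, -44), (267, -80), (269, -60),
      (270, 40), (271, 120), (279, 8), (280, 80), (281, 24), (282, 52), (283, -80), (324, -72),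
      (336, 4), (348, 40), (349, 52), (361, -80), (372, -12), (384, 16), (385, 20), (396, -32),
      (397, 32), (401, 24), (402, 52), (408, -8), (409, 8), (410, 80), (411, 68), (413, -40),
      (414, -52), (415, -60), (420, -12), (421, 8), (422, -16), (423, -72), (424, -52), (426,
      80), (427, -28)],
      [(24, -64), (36, 32), (37, 64), (48, 16), (49, 16), (60, -144), (61, 48), (62, -48), (74,
      -64), (84, -48), (97, 16), (98, 64), (99, 80), (101, -16), (103, -80), (108, -80), (111,
      64), (112, 64), (121, -64), (124, 176), (128, -128), (132, -48), (136, 32), (137, -80),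
      (140, -32), (180, 16), (181, -80), (192, 48), (204, 64), (205, -96), (229, -16), (242, 32),
      (253, -16), (256, -64), (258, 32), (259, -96), (265, 64), (267, 96), (269, 64), (270, -48),
      (271, -144), (279, -32), (280, -96), (281, -32), (282, -64), (283, 96), (324, 80), (348,
      -48), (349, -64), (361, 96), (372, 16), (384, -16), (385, -16), (396, 16), (397, -16),
      (401, -32), (402, -64), (410, -96), (411, -64), (413, 48), (414, 64), (415, 64), (420, 16),
      (422, 32), (423, 64), (424, 64), (426, -96), (427, 32)],
      [(24, -40), (36, -56), (48, -16), (49, -24), (62, 24), (73, 16), (74, 16), (84, 64), (97,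
      -40), (98, -24), (101, 32), (102, 24), (112, -16), (114, -8), (121, 16), (124, -40), (127,
      -8), (128, 40), (132, 64), (136, 152), (137, 24), (140, -64), (180, -32), (181, -24), (205,
      64), (228, -16), (257, 16), (258, 32), (259, 24), (267, -16), (271, 16), (279, 64), (280,
      16), (283, -80), (336, 56), (337, -16), (348, 16), (360, -16), (361, -48), (372, 16), (373,
      -16), (384, 40), (385, -16), (399, 16), (400, -32), (402, 16), (403, -16), (408, -16),
      (409, 32), (410, 40), (411, -16), (412, 16), (413, -16), (414, -56), (415, 16), (420, 16),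
      (421, -16), (422, -64), (423, -24), (426, 80)]],
    [[],
      [(24, 22), (36, -13), (37, -24), (48, -32), (49, 12), (60, 47), (62, 25), (73, 5), (74,
      24), (84, 32), (96, -4), (98, -11), (99, -22), (102, -13), (103, 22), (108, 22), (109, -4),
      (111, -24), (112, -30), (121, 30), (124, -55), (125, 9), (126, 12), (128, 50), (132, 32),
      (136, -8), (137, 30), (139, -4), (140, 13), (181, 35), (192, 4), (204, -25), (205, 38),
      (242, -5), (253, 23), (256, 32), (257, 9), (258, -5), (259, 46), (265, -25), (267, -31),
      (269, -25), (270, 12), (271, 36), (279, 19), (280, 31), (281, 5), (282, 18), (283, -27),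
      (324, -22), (336, 8), (337, -7), (348, 5), (349, 18), (360, -5), (361, -31), (372, 8),
      (373, -7), (385, -8), (396, -19), (397, 19), (399, 7), (401, 5), (402, 23), (403, 9), (408,
      -5), (409, 12), (410, 24), (411, 16), (412, -7), (413, -5), (414, -18), (415, -32), (420,
      8), (421, -7), (422, -19), (423, -17), (424, -18), (426, 31), (427, -13)],
      [],
      [(24, -8), (36, 8), (37, 16), (48, 16), (49, 8), (60, -32), (61, 16), (62, -24), (74, -32),
      (84, -32), (97, 8), (98, 24), (99, 16), (101, -16), (102, -8), (103, -16), (108, -16),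
      (111, 16), (112, 16), (114, -8), (121, -16), (124, 40), (127, -8), (128, -40), (132, -32),
      (136, 24), (137, -40), (140, -16), (180, 16), (181, -8), (192, 16), (204, 16), (205, -32),
      (253, -16), (256, -16), (259, -40), (265, 16), (267, 32), (269, 16), (270, -16), (271,
      -48), (280, -32), (282, -16), (283, 32), (324, 16), (336, -8), (348, -16), (349, -16),
      (361, 32), (384, -8), (396, 16), (397, -16), (402, -16), (410, -24), (411, -16), (413, 16),
      (414, 24), (415, 16), (423, 24), (424, 16), (426, -32), (427, 16)],
      [(24, 12), (36, -22), (37, -16), (48, -16), (60, 34), (61, -8), (62, 22), (73, 6), (74,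
      24), (84, 24), (97, -8), (98, -18), (99, -20), (102, 2), (103, 20), (108, 20), (111, -16),
      (112, -20), (114, -8), (121, 20), (124, -42), (125, -2), (127, -8), (128, 36), (132, 24),
      (136, 8), (137, 28), (140, -2), (181, 18), (192, -8), (204, -14), (205, 28), (242, -6),
      (253, 10), (256, 16), (257, -2), (258, -6), (259, 28), (265, -14), (267, -26), (269, -14),
      (270, 8), (271, 32), (279, 10), (280, 26), (281, 6), (282, 12), (283, -34), (324, -20),
      (336, 8), (337, -2), (348, 14), (349, 12), (360, -6), (361, -26), (373, -2), (384, 8),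
      (396, -10), (397, 10), (399, 2), (401, 6), (402, 18), (403, -2), (408, -6), (409, 8), (410,
      24), (411, 16), (412, -2), (413, -6), (414, -20), (415, -16), (421, -2), (422, -10), (423,
      -22), (424, -12), (426, 34), (427, -6)],
      [],
      [],
      [(24, 64), (36, 8), (37, -48), (48, -24), (49, -16), (60, 112), (61, -32), (62, 32), (73,
      -8), (74, 56), (84, 32), (98, -56), (99, -64), (101, 8), (102, 8), (103, 64), (108, 64),
      (111, -48), (112, -40), (114, 8), (121, 40), (124, -96), (127, 8), (128, 80), (132, 32),
      (136, -112), (137, 72), (140, 64), (180, -8), (181, 56), (192, -32), (204, -48), (205, 40),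
      (242, -16), (253, 32), (256, 48), (257, -8), (258, -32), (259, 72), (265, -48), (267, -64),
      (269, -48), (270, 32), (271, 104), (279, -24), (280, 64), (281, 16), (282, 48), (283, -32),
      (324, -64), (336, -24), (337, 8), (348, 24), (349, 48), (360, 8), (361, -48), (372, -24),
      (373, 8), (385, 24), (396, -32), (397, 32), (399, -8), (400, 16), (401, 16), (402, 40),
      (403, 8), (408, 8), (409, -16), (410, 48), (411, 56), (412, -8), (413, -24), (414, -24),
      (415, -56), (420, -24), (421, 8), (422, 24), (423, -40), (424, -48), (426, 32), (427,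
      -32)],
      [(24, -52), (36, 86), (37, 80), (48, 72), (49, 24), (60, -178), (61, 72), (62, -94), (73,
      -22), (74, -112), (84, -128), (97, 48), (98, 98), (99, 100), (101, -40), (102, -18), (103,
      -100), (108, -100), (111, 80), (112, 100), (114, 8), (121, -100), (124, 218), (125, 10),
      (127, 8), (128, -188), (132, -128), (136, -40), (137, -148), (140, 2), (180, 40), (181,
      -82), (192, 56), (204, 78), (205, -164), (242, 30), (253, -50), (256, -88), (257, -14),
      (258, 14), (259, -148), (265, 78), (267, 130), (269, 78), (270, -72), (271, -184), (279,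
      -58), (280, -130), (281, -30), (282, -68), (283, 170), (324, 100), (336, -48), (337, 18),
      (348, -78), (349, -68), (360, 22), (361, 146), (373, 18), (384, -48), (396, 50), (397,
      -50), (399, -2), (400, 16), (401, -30), (402, -90), (403, 2), (408, 22), (409, -24), (410,
      -128), (411, -80), (412, 2), (413, 70), (414, 108), (415, 80), (421, 18), (422, 58), (423,
      110), (424, 68), (426, -170), (427, 38)],
      [(24, -32), (36, 16), (37, 32), (48, 32), (60, -64), (61, 32), (62, -32), (73, -8), (74,
      -16), (84, -40), (98, 16), (99, 32), (102, 16), (103, -32), (108, -32), (111, 32), (112,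
      40), (121, -40), (124, 72), (125, 8), (128, -64), (132, -40), (136, 24), (137, -40), (138,
      16), (140, -16), (181, -48), (204, 32), (205, -48), (242, 8), (253, -24), (256, -40), (257,
      -8), (258, 8), (259, -56), (265, 32), (267, 40), (269, 32), (270, -16), (271, -48), (279,
      -24), (280, -40), (281, -8), (282, -24), (283, 40), (324, 32), (336, -8), (337, 8), (348,
      -8), (349, -24), (360, 8), (361, 40), (372, -8), (373, 8), (385, 8), (396, 24), (397, -24),
      (399, 8), (401, -8), (402, -32), (403, -8), (408, 8), (410, -32), (411, -24), (412, 8),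
      (413, 8), (414, 24), (415, 40), (420, -8), (421, 24), (422, 8), (423, 24), (424, 24), (426,
      -40), (427, 16)],
      [(48, -40), (49, -16), (60, 32), (62, 32), (74, 40), (84, 32), (97, -24), (98, -40), (99,
      -24), (101, 24), (102, 40), (103, 24), (108, 24), (112, -8), (121, 8), (124, 32), (125,
      -8), (132, 32), (136, 8), (137, 72), (138, 24), (180, -24), (181, -16), (192, -8), (216,
      16), (229, -16), (253, 32), (258, 16), (259, 16), (270, 8), (271, 8), (279, -40), (324,
      -24), (336, 16), (348, 8), (372, -24), (384, 24), (385, 16), (396, -32), (397, 32), (401,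
      -16), (408, -8), (409, 8), (411, 24), (413, -8), (420, -8), (421, 8), (422, 32), (423,
      -40)]]]
  W := [[[],
      [],
      [],
      [],
      [[],
       [],
       [(278, 16)]],
      [],
      [[(96, 16), (97, 16), (109, 16), (110, 16), (132, 16), (240, 16), (252, -16), (278, -16),
      (396, 16)]],
      [[],
       [],
       [(96, -16), (109, -16), (122, -16), (134, 16), (240, -16), (252, 16), (253, -16), (265,
      16), (266, -16), (276, -16), (278, 16), (408, -16)]],
      [],
      [[],
       [],
       [(96, 16), (109, 16), (121, 16), (122, 16), (264, -16), (408, 16)],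
       [],
       [],
       [],
       [],
       [(96, 16), (109, 16), (121, 16), (122, 16), (240, 16), (252, -16), (264, -16), (408, 16)]],
      [[(96, -16), (97, -16), (109, -16), (110, -16), (132, -16), (240, -32), (252, 16), (278,
      16), (396, -16)],
       [],
       [(121, 16), (134, 16), (277, -16)],
       [(121, -16), (134, -16), (264, 16), (277, 16)]],
      [[],
       [(121, -16), (134, -16), (264, 16), (265, -16), (277, 16)],
       [(276, 16), (277, -16)],
       [(277, 16)]]],
    [[],
      [],
      [],
      [],
      [[],
       [(421, 16)]],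
      [],
      [[],
       [(97, -16), (110, -16), (253, 16), (278, 16), (397, -16)]],
      [],
      [[(108, 16)],
       [(96, -16), (134, 16), (277, -16), (408, -16)]],
      [[(120, 16)],
       [],
       [(121, 16), (122, 16), (134, 16), (264, -16), (277, -16)],
       [(96, -16), (109, -16), (110, -16), (121, -16), (122, -16), (240, -16), (252, 16), (264,
      16), (278, 16), (408, -16)]],
      [[(96, -16), (109, -16), (110, -16), (240, -16), (252, 16), (278, 16), (396, -16)],
       [],
       [(134, 16), (277, -16)],
       [],
       [(97, 16), (121, -16), (134, -16), (264, 16), (265, -16), (277, 16), (409, 16), (421,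
      -16)]],
      [[(134, 16), (277, -16), (408, -16)],
       [(97, 16), (121, -16), (134, -16), (264, 16), (265, -16), (277, 16)],
       [(133, -16), (276, 16), (277, -16)]]],
    [[],
      [],
      [],
      [[],
       [(96, -16), (109, -16), (121, 16), (122, -16), (134, 32), (240, -16), (241, 16), (252, 16),
      (253, -16), (254, 16), (265, 16), (266, -16), (277, -32), (278, 16), (408, -16)]],
      [],
      [],
      [],
      [],
      [[],
       [],
       [(96, -16), (109, -16), (121, 16), (122, -16), (134, 32), (240, -16), (252, 16), (253,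
      -16), (254, 16), (265, 16), (266, -16), (277, -32), (278, 16), (408, -16)]],
      [[],
       [],
       [(96, -16), (109, -16), (122, -16), (134, 16), (240, -16), (252, 16), (253, -16), (265,
      16), (277, -16), (408, -16)]],
      [],
      [[],
       [],
       [],
       [],
       [],
       [(133, 16), (276, -16), (277, 16), (420, 16)]]]]

theorem ce0_ck : ce0.ckW bs dl 12 0 = true := by decide +kernel

/-- certificate -/
def ce1 : Cer where
  den := 1
  N := [[],
    [],
    [[(36, 1), (97, 1), (110, 1), (123, -2), (127, 2), (409, 2)],
      [(37, 1), (73, 1), (85, 2), (98, 1), (111, -1), (112, -1), (115, 1), (121, 1), (385, -1),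
      (398, 1)],
      [],
      [],
      [],
      [],
      [],
      [],
      [],
      [],
      [],
      []],
    [[(96, 1), (113, 1), (122, 1), (126, -3), (240, -1), (253, 1)],
      [(97, 1), (110, 1), (123, -2), (127, 2), (409, 2)],
      [(73, 1), (85, 2), (98, 1), (111, -1), (112, -1), (115, 1), (121, 1), (385, -1), (398, 1)],
      [],
      [],
      [],
      [],
      [],
      [],
      [],
      [],
      []],
    [[(60, 1)],
      [],
      [(73, 1), (111, -1), (112, -1), (115, 1), (121, 1), (124, 1), (385, -1), (397, 1), (398,
      1), (409, 1), (410, -1)],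
      [],
      [],
      [],
      [],
      [],
      [],
      [],
      [],
      []],
    [[(84, -1), (110, 1), (111, 1), (114, -1), (115, -1), (120, -1), (132, -1), (384, 1), (397,
      -1)],
      [],
      [(61, -1)],
      [],
      [],
      [],
      [],
      [],
      [],
      [],
      [],
      []],
    [[],
      [],
      [(73, -1)],
      [],
      [],
      [],
      [],
      [],
      [],
      [],
      [],
      []],
    [[(84, -1), (122, 1), (123, 1), (126, -1), (127, -1), (132, -1), (396, 1), (409, -1)],
      [],
      [(85, -1)],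
      [],
      [],
      [],
      [],
      [],
      [],
      [],
      [],
      []],
    [[(108, 1), (121, 1)],
      [(84, -1), (113, 1), (122, 2), (123, 1), (126, -3), (127, -1), (132, -1), (240, -1), (253,
      1), (396, 1), (409, -1)],
      [(110, 1), (123, -1), (127, 1), (409, 1)],
      [],
      [(60, 1), (112, 1), (121, 1), (252, 1)],
      [(113, 1), (126, -1)],
      [(114, 1)],
      [(73, -1), (85, -1), (112, 1), (121, -1), (385, 1), (397, 1), (398, -1)],
      [],
      [],
      [],
      []],
    [[(73, 1), (85, 1), (111, -1), (112, -1), (115, 1), (120, 1), (121, 1), (385, -1), (398,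
      1)],
      [(121, 1)],
      [(122, 1), (126, -1)],
      [],
      [(397, -1)],
      [(60, 1), (121, 1), (252, 1)],
      [],
      [],
      [(73, -1), (85, -1), (112, 1), (115, -1), (121, -1), (385, 1), (398, -1)],
      [],
      [],
      []],
    [[(84, 1), (123, -1), (127, 1), (132, 1), (409, 1)],
      [],
      [],
      [],
      [(409, -1)],
      [(73, -1), (85, -1), (111, 1), (112, 1), (115, -1), (121, -1), (124, -1), (385, 1), (397,
      -1), (398, -1)],
      [(60, 1), (121, 1), (125, -1), (252, 1)],
      [],
      [(127, -1), (409, -1)],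
      [],
      [],
      []],
    [[],
      [],
      [],
      [(134, -1)],
      [(60, 1), (84, 1), (122, -1), (123, -1), (126, 1), (127, 1), (132, 1), (134, 1), (138, -1),
      (396, -1), (408, 1), (409, 1), (421, -1)],
      [(123, 1), (127, -1), (136, -1), (409, -2)],
      [(73, -2), (85, -2), (111, 2), (112, 2), (115, -2), (121, -2), (124, -1), (137, -1), (385,
      2), (397, -1), (398, -2)],
      [(60, 1), (121, 1), (125, -1), (138, -1), (252, 1)],
      [(60, 1), (84, 1), (122, -1), (123, -1), (126, 2), (127, 1), (132, 1), (134, 1), (138, -1),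
      (139, -1), (396, -1), (408, 1), (409, 1), (421, -1)],
      [],
      [],
      []]]
  A := [[[],
      [],
      [],
      [(126, 1)],
      [],
      [(73, -1), (85, -1), (111, 1), (112, 1), (115, -1), (121, -1), (385, 1), (398, -1)],
      [(123, 1), (127, -1), (409, -1)],
      [],
      [],
      [],
      [(84, -1)]],
    [[],
      [],
      [],
      [(122, 1), (126, -1), (253, 1)],
      [],
      [(73, 2), (85, 2), (111, -2), (112, -2), (115, 2), (121, 2), (124, 1), (137, 1), (277, 1),
      (385, -2), (397, 1), (398, 2)],
      [(110, 1), (114, -1), (123, -1), (127, 1), (241, 1), (409, 1)],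
      [],
      [],
      [],
      [(110, -1), (114, 1), (136, 1), (241, -1), (276, 1), (409, 1)]],
    [[],
      [],
      [],
      [],
      [],
      [(84, 1), (121, -1), (122, -1), (123, -1), (125, 1), (126, 1), (127, 1), (132, 1), (252,
      -1), (396, -1), (408, 1), (409, 1)],
      [(60, 1), (73, 1), (85, 1), (121, 1), (252, 1), (397, -1), (398, 1)],
      [],
      [],
      [],
      [(60, -1), (73, 1), (84, -1), (85, 1), (110, 1), (111, -1), (112, -2), (114, -1), (115, 1),
      (120, -1), (124, 1), (125, 1), (132, -1), (134, -1), (137, 1), (138, 1), (252, -2), (384,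
      1), (385, -2), (397, 1), (398, 1), (420, 1)]]]
  W := [[[],
      [],
      [],
      [],
      [[(264, 1)],
       [(253, -1), (265, 1)]],
      [],
      [[(252, -1)]],
      [],
      [],
      [[],
       [(108, 1), (264, -1)]],
      [],
      [[],
       [(253, -1)],
       [],
       [(264, -1), (276, 1)]]],
    [[],
      [],
      [],
      [],
      [],
      [],
      [],
      [],
      [],
      [[],
       [],
       [(109, -1), (253, -1), (265, 1)]],
      [[(132, 1), (252, 1), (253, 1)],
       [(120, -1)],
       [(121, -1)]],
      [[],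
       [],
       [(120, -1), (133, -1)]]],
    [[],
      [],
      [],
      [],
      [],
      [],
      [],
      [],
      [],
      [],
      [],
      [[],
       [],
       [(253, -1), (264, -1), (265, 1), (276, 1), (277, -1)]]]]

theorem ce1_ck : ce1.ckW bs dl 12 1 = true := by decide +kernel

/-- certificate -/
def ce2 : Cer where
  den := 1
  N := [[],
    [],
    [],
    [[(96, 1), (109, 1), (122, -2), (408, -1)],
      [(97, 1), (110, -1), (265, -1), (409, -1), (421, 1)],
      [],
      [],
      [],
      [],
      [],
      [],
      [],
      [],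
      [],
      []],
    [[],
      [(265, 1), (421, -1)],
      [],
      [],
      [],
      [],
      [],
      [],
      [],
      [],
      [],
      []],
    [[(420, -1)],
      [(265, -1)],
      [],
      [],
      [],
      [],
      [],
      [],
      [],
      [],
      [],
      []],
    [],
    [[],
      [(265, 1), (409, 1), (421, -1)],
      [],
      [],
      [],
      [],
      [],
      [],
      [],
      [],
      [],
      []],
    [[(108, 1), (121, 1), (134, -2)],
      [(109, 1), (122, -1)],
      [],
      [],
      [],
      [],
      [],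
      [],
      [],
      [],
      [],
      []],
    [[(120, 1), (133, -1)],
      [(121, 1), (134, -1)],
      [],
      [],
      [],
      [(121, 1), (134, -1), (252, 1)],
      [(396, 1), (408, -1)],
      [],
      [],
      [],
      [],
      []],
    [[],
      [],
      [],
      [],
      [],
      [(264, 1), (277, -1), (420, -1)],
      [],
      [],
      [],
      [],
      [],
      []],
    [[(408, 1)],
      [],
      [],
      [],
      [],
      [(276, 1)],
      [],
      [],
      [],
      [],
      [],
      []]]
  A := [[[],
      [],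
      [],
      [(122, 1)],
      [(134, 1)],
      [(133, 1)],
      [(110, 1)],
      [],
      [],
      [],
      [(110, -1), (132, 1)]],
    [[],
      [],
      [],
      [],
      [],
      [(277, 1)],
      [],
      [(253, 1), (265, 1), (396, -1), (408, 1), (421, -1)],
      [],
      [],
      []],
    [[],
      [],
      [],
      [],
      [],
      [],
      [],
      [(265, -1), (397, 1), (409, -1), (421, 1)],
      [],
      [],
      []]]
  W := [[[],
      [],
      [],
      [],
      [],
      [],
      [],
      [],
      [],
      [],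
      [],
      []],
    [[],
      [],
      [],
      [],
      [],
      [],
      [],
      [],
      [],
      [],
      [],
      []],
    [[],
      [],
      [],
      [],
      [],
      [],
      [],
      [],
      [],
      [],
      [],
      []]]

theorem ce2_ck : ce2.ckW bs dl 12 2 = true := by decide +kernel

/-- certificate -/
def ce3 : Cer where
  den := 1
  N := [[],
    [],
    [],
    [],
    [],
    [],
    [],
    [],
    [],
    [[(120, 1)],
      [],
      [(109, -1)],
      [],
      [],
      [],
      [],
      [],
      [],
      [],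
      [],
      []],
    [[],
      [],
      [(108, 1), (121, -1)],
      [],
      [],
      [],
      [],
      [],
      [],
      [],
      [],
      []],
    [[],
      [(132, -1)],
      [(133, -1)],
      [],
      [],
      [],
      [],
      [],
      [],
      [],
      [],
      []]]
  A := [[[],
      [],
      [],
      [],
      [],
      [],
      [],
      [],
      [(108, 1)],
      [],
      []],
    [],
    []]
  W := [[[],
      [],
      [],
      [],
      [],
      [],
      [],
      [],
      [],
      [],
      [],
      []],
    [[],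
      [],
      [],
      [],
      [],
      [],
      [],
      [],
      [],
      [],
      [],
      []],
    [[],
      [],
      [],
      [],
      [],
      [],
      [],
      [],
      [],
      [],
      [],
      []]]

theorem ce3_ck : ce3.ckW bs dl 12 3 = true := by decide +kernel

/-- exactness certificates -/
def exs : List TowerCk.EC := [
  ⟨1, [],
    []⟩,
  ⟨1, [],
    []⟩,
  ⟨1, [],
    []⟩,
  ⟨1, [[[],
      [],
      [],
      [(12, -1), (25, -1)],
      [(12, 1), (13, -1), (25, 1)],
      [(24, -1)],
      [(25, -1)]],
    [],
    []],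
    []⟩,
  ⟨1, [[],
    [[],
      [],
      [],
      [(26, -1)],
      [(1, 1), (26, 1)],
      [],
      [(0, -1), (26, -1)]],
    [[],
      [],
      [],
      [(14, 1)]]],
    []⟩]

theorem exs_ck : allb (fun c => (nth ⟨1, [], []⟩ exs c).ckW bs dl 12 c) (4 + 1) = true := by
  decide +kernel

/-- all certificates -/
theorem cert {k : Type*} [Field k] [CharZero k] (κ : ℕ) :
    CertW (fun x : Fin 12 => bs.w x) (fun i => nth 0 dl i) (Mt k 12 (nth [] bs.pw 1))
      (XX k bs 12) κ := by
  have hB : bs.ckPow 12 = true := by
    have h := bs_ck
    simp only [Base.ckW, Bool.and_eq_true] at h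
    exact h.1.1
  rcases Nat.lt_or_ge κ 4 with h | h
  · interval_cases κ
    · exact certW_of_ck bs dl (by norm_num) hB ce0 ce0_ck
    · exact certW_of_ck bs dl (by norm_num) hB ce1 ce1_ck
    · exact certW_of_ck bs dl (by norm_num) hB ce2 ce2_ck
    · exact certW_of_ck bs dl (by norm_num) hB ce3 ce3_ck
  · have h1 : ∀ x : Fin 12, bs.w x ≤ 4 := by decide
    have h2 : ∀ i : Fin 3, 1 ≤ nth 0 dl i := by decide
    refine certW_top fun i x => ?_
    have h3 := h1 x
    have h4 := h2 i
    show bs.w x < nth 0 dl i + κ
    omega

/-- **Levels of sizes `2, 1, 5, 1, 3`, degrees `1, 2, 2`.** -/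
theorem cl {k : Type*} [Field k] [CharZero k] {ι : Type*} [Fintype ι] [DecidableEq ι] (w : ι → ℕ)
    (hle : ∀ x, w x ≤ 4) (hn : ∀ a : Fin 5, Fintype.card {x // w x = (a : ℕ)} =
      ![2, 1, 5, 1, 3] a)
    {T : Fin 3 → Matrix ι ι k} (hT : ∀ i j, T i * T j = T j * T i)
    (hlow : ∀ i x y, w x < w y + ![1, 2, 2] i → T i x y = 0)
    (eT : ∀ a ≤ 4, EXw w ![1, 2, 2] T a) : Cl T := by
  have hd : (fun i : Fin 3 => nth 0 dl i) = ![1, 2, 2] := by decide
  refine TowerCk.cl_towerW_ck (dl := dl) (by norm_num) (by decide) bs_ck cert 4 (by decide)
    (TowerCk.exw_all bs dl (by norm_num) exs 4 exs_ck) w hle ?_ hT ?_ (by rw [hd]; exact eT)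
  · intro a ha
    have h : ∀ a : Fin 5, Fintype.card {x : Fin 12 // bs.w x = (a : ℕ)} =
        ![2, 1, 5, 1, 3] a := by decide
    exact (hn ⟨a, by omega⟩).trans (h ⟨a, by omega⟩).symm
  · intro i x y hxy
    refine hlow i x y ?_
    rw [← hd]
    exact hxy

end Pool.Agent.Lib.D13.TW53211
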