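import Pool.Agent.Lib.D13.TowerWCk

/-!
# MP_5dcbc3_ag: density certificates, type 6221, family (233111|341111), d = 11, degrees (2,5,5)
-/

namespace Pool.Agent.Lib.D13.TW6221

open Refl Pool.Agent.Lib.Q5dc

/-- the base point -/
def bs : Base where
  lev := [0, 2, 4, 5, 5, 5, 6, 8, 10, 10, 10]
  pw := [[[(0, 1)], [(1, 1)], [(2, 1)], [(3, 1)], [(4, 1)], [(5, 1)], [(6, 1)], [(7, 1)], [(8, 1)],
      [(9, 1)], [(10, 1)]],
    [[], [(0, 1)], [(1, 1)], [(5, 1), (10, -1)], [(3, -1)], [(4, 1)], [(2, 1), (3, 1)], [(6,
      1)], [(7, 1), (10, 1)], [(8, 1)], [(9, 1)]],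
    [[], [], [(0, 1)], [(4, 1), (9, -1)], [(5, -1), (10, 1)], [(3, -1)], [(1, 1), (5, 1), (10,
      -1)], [(2, 1), (3, 1)], [(6, 1), (9, 1)], [(7, 1), (10, 1)], [(8, 1)]],
    [[], [], [], [(3, -1), (8, -1)], [(4, -1), (9, 1)], [(5, -1), (10, 1)], [(0, 1), (4, 1),
      (9, -1)], [(1, 1), (5, 1), (10, -1)], [(2, 1), (3, 1), (8, 1)], [(6, 1), (9, 1)], [(7, 1),
      (10, 1)]],
    [[], [], [], [(5, -1), (7, -1)], [(3, 1), (8, 1)], [(4, -1), (9, 1)], [(3, -1), (8, -1)],
      [(0, 1), (4, 1), (9, -1)], [(1, 1), (5, 1), (7, 1)], [(2, 1), (3, 1), (8, 1)], [(6, 1), (9,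
      1)]],
    [[], [], [], [(4, -1), (6, -1)], [(5, 1), (7, 1)], [(3, 1), (8, 1)], [(5, -1), (7, -1)],
      [(3, -1), (8, -1)], [(0, 1), (4, 1), (6, 1)], [(1, 1), (5, 1), (7, 1)], [(2, 1), (3, 1),
      (8, 1)]],
    [[], [], [], [(2, -1)], [(4, 1), (6, 1)], [(5, 1), (7, 1)], [(4, -1), (6, -1)], [(5, -1),
      (7, -1)], [(2, 1)], [(0, 1), (4, 1), (6, 1)], [(1, 1), (5, 1), (7, 1)]],
    [[], [], [], [(1, -1)], [(2, 1)], [(4, 1), (6, 1)], [(2, -1)], [(4, -1), (6, -1)], [(1,
      1)], [(2, 1)], [(0, 1), (4, 1), (6, 1)]],
    [[], [], [], [(0, -1)], [(1, 1)], [(2, 1)], [(1, -1)], [(2, -1)], [(0, 1)], [(1, 1)], [(2,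
      1)]],
    [[], [], [], [], [(0, 1)], [(1, 1)], [(0, -1)], [(1, -1)], [], [(0, 1)], [(1, 1)]],
    [[], [], [], [], [], [(0, 1)], [], [(0, -1)], [], [], [(0, 1)]]]
  xc := [[(1, 1)], [(1, 1), (4, -1), (7, 1), (10, -1)], [(2, 1), (5, -1), (8, 1)]]
  X := [[[], [(0, 1)], [(1, 1)], [(5, 1), (10, -1)], [(3, -1)], [(4, 1)], [(2, 1), (3, 1)], [(6,
      1)], [(7, 1), (10, 1)], [(8, 1)], [(9, 1)]],
    [[], [(0, 1)], [(1, 1)], [(1, -1), (5, 2), (7, 1), (10, -1)], [(2, 1), (3, -2), (8, -1)],
      [(0, -1), (4, 3), (6, 1), (9, -1)], [(3, 2), (8, 1)], [(4, -2), (9, 1)], [(5, -1), (10,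
      1)], [(3, -1)], [(4, 1)]],
    [[], [], [(0, 1)], [(0, -1), (4, 2), (6, 1), (9, -1)], [(1, 1), (5, -2), (7, -1), (10, 1)],
      [(2, 1), (3, -2), (8, -1)], [(5, 2), (7, 1), (10, -1)], [(3, 2), (8, 1)], [(4, -1), (9,
      1)], [(5, -1), (10, 1)], [(3, -1)]]]

/-- degrees -/
def dl : List ℕ := [2, 5, 5]

theorem bs_ck : bs.ckW dl 11 = true := by decide +kernel

/-- certificate -/
def ce0 : Cer where
  den := 30
  N := [[[(55, 60), (77, 30), (93, 30), (110, -30), (114, 30), (198, -30), (222, 30), (231, -30),
      (275, -30), (330, 30), (342, -60)],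
      [],
      [],
      [],
      [],
      [],
      [],
      [],
      [],
      [],
      []],
    [[],
      [(11, -24), (23, 6), (55, 54), (68, 6), (77, 24), (83, 6), (93, 24), (95, 6), (102, 6),
      (110, -30), (114, 36), (116, 6), (198, -24), (214, 12), (222, 30), (223, 12), (231, -24),
      (235, -6), (275, -24), (330, 30), (334, -6), (342, -54), (346, -12), (355, -6)],
      [],
      [],
      [],
      [],
      [],
      [],
      [],
      [],
      []],
    [[(44, -12), (56, -18), (66, 18), (78, 18), (91, -12), (103, 18), (105, -12), (111, 30),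
      (117, -12), (211, 6), (212, 12), (220, 30), (232, -24), (236, -12), (297, 12), (319, 12),
      (335, -12)],
      [(22, -24), (33, 8), (45, -4), (67, 6), (80, 6), (92, 4), (94, 6), (104, -16), (106, 6),
      (112, -2), (113, 8), (209, 10), (213, -4), (225, 2), (233, -10), (234, 2), (286, -6), (308,
      -6), (320, 10), (333, -4), (341, -2), (345, 4), (357, -2)],
      [(11, -18), (23, -18), (55, 48), (68, 12), (77, 18), (83, 12), (93, 18), (95, 12), (102,
      12), (110, -30), (114, 42), (116, 12), (198, -18), (214, 24), (222, 30), (223, 24), (231,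
      -18), (235, -12), (275, -18), (330, 30), (334, -12), (342, -48), (346, -24), (355, -12)],
      [],
      [],
      [],
      [],
      [],
      [],
      [],
      []],
    [[(44, -30)],
      [],
      [(214, -30), (222, -30), (223, -30), (235, 30), (334, 30), (346, 30), (355, 30)],
      [],
      [(44, 13), (56, 7), (66, 18), (78, 18), (91, -12), (103, 3), (105, -12), (111, -25), (117,
      -12), (199, 30), (211, -9), (212, -8), (220, 5), (224, -10), (232, 6), (236, 8), (297,
      -18), (319, -18), (335, 8), (343, 20), (344, -10), (356, -20)],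
      [(33, 50), (45, -10), (79, -30), (80, 30), (92, 10), (104, 20), (112, 10), (113, -10),
      (209, 40), (213, -10), (225, -10), (233, -40), (234, 20), (286, -30), (308, -30), (320,
      40), (333, -10), (341, 10), (345, 10), (357, -20)],
      [],
      [],
      [],
      [],
      []],
    [[(55, 30), (89, -30), (93, 30), (110, -30), (114, 60), (198, -30), (214, -30), (223, -30),
      (231, -30), (235, 30), (330, 30), (334, 30), (342, -30), (346, 30), (355, 30)],
      [],
      [(45, -30)],
      [(33, -30), (79, 30), (80, -30), (104, -30), (209, -30), (233, 30), (286, 30), (308, 30),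
      (320, -30)],
      [(214, 30), (223, 30), (334, -30), (346, -30)],
      [(44, -18), (56, -12), (66, -18), (78, -18), (91, 12), (103, -18), (105, 12), (111, 30),
      (117, 12), (199, -30), (211, -6), (212, 18), (232, -6), (236, 12), (297, 18), (319, 18),
      (335, -18)],
      [],
      [],
      [],
      [],
      []],
    [[(33, 30)],
      [],
      [(56, -30)],
      [(44, 7), (56, -17), (66, -18), (78, -18), (91, 12), (103, -3), (105, 12), (111, 5), (117,
      12), (199, -30), (211, 9), (212, -2), (220, -25), (224, -10), (232, 24), (236, 2), (297,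
      18), (319, 18), (335, 2), (343, -10), (344, -10), (356, 10)],
      [(33, 70), (45, -20), (79, -30), (80, 30), (92, 20), (104, 10), (112, 20), (113, -20),
      (209, 50), (213, -20), (225, 10), (233, -50), (234, 10), (286, -30), (308, -30), (320, 50),
      (333, -20), (341, 20), (345, -10), (357, -10)],
      [(223, 30), (346, -30)],
      [],
      [],
      [],
      [],
      []],
    [[(77, 30), (89, 30), (110, 30), (114, -60)],
      [(44, -21), (56, -9), (66, -6), (78, 24), (91, -6), (103, 9), (105, -6), (111, 15), (117,
      -6), (211, 3), (212, 6), (220, 15), (232, -12), (236, -6), (297, 6), (319, 6), (335, -6)],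
      [(22, -18), (33, 16), (45, -8), (67, -18), (80, 12), (92, 8), (94, 12), (104, -32), (106,
      12), (112, -4), (113, 16), (209, 20), (213, -8), (225, 4), (233, -20), (234, 4), (286,
      -12), (308, -12), (320, 20), (333, -8), (341, -4), (345, 8), (357, -4)],
      [(22, -18), (33, 16), (45, -8), (67, -18), (79, -30), (80, 42), (92, -22), (94, 12), (104,
      28), (106, 12), (112, -4), (113, 16), (209, 20), (213, -8), (225, 4), (233, -20), (234, 4),
      (286, -12), (308, -12), (320, 20), (333, -8), (341, -4), (345, 8), (357, -4)],
      [(55, 30), (81, 30), (93, 30), (110, -30), (114, 60), (330, 30), (342, -30)],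
      [(44, 9), (56, 21), (66, -6), (78, 24), (91, -6), (103, 9), (105, -6), (111, -45), (117,
      -6), (165, 30), (187, 30), (199, 30), (211, 3), (212, -24), (220, -15), (232, 18), (236,
      -6), (297, -24), (319, -24), (335, 24)],
      [(11, -12), (23, -12), (55, 42), (68, -12), (77, 12), (83, 18), (93, 12), (95, 18), (102,
      18), (110, -30), (114, 18), (116, 18), (198, -12), (214, 6), (223, 6), (231, -12), (235,
      12), (275, -12), (330, 30), (334, 12), (342, -42), (346, -6), (355, 12)],
      [],
      [],
      [],
      []],
    [[(33, -90), (45, 30), (79, 30), (80, -30), (104, -30), (209, -30), (233, 30), (308, 30),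
      (320, -30)],
      [(93, 30), (198, -30), (214, -30), (223, -30), (231, -30), (235, 30), (330, 30), (334, 30),
      (342, -30), (346, 30), (355, 30)],
      [],
      [(111, -30), (199, 30)],
      [(92, 30), (104, -30)],
      [(55, 30), (93, 30), (110, -30), (114, 30), (330, 30), (342, -30)],
      [(22, -12), (33, 24), (45, -12), (67, -12), (79, -30), (80, 18), (92, 12), (94, 18), (104,
      -48), (106, 18), (112, -6), (113, 24), (209, 30), (213, -12), (225, 6), (233, -30), (234,
      6), (286, -18), (308, -18), (320, 30), (333, -12), (341, -6), (345, 12), (357, -6)],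
      [(11, -6), (23, -6), (55, 36), (68, -6), (77, 6), (83, -6), (93, 6), (95, 24), (102, 24),
      (110, -30), (114, -6), (116, 24), (198, -6), (214, 18), (223, 18), (231, -6), (235, 6),
      (275, -6), (330, 30), (334, 6), (342, -36), (346, -18), (355, 6)],
      [],
      [],
      []],
    [[(44, 30), (56, -30), (111, 60), (165, -30), (199, -30), (212, 30), (220, 30), (232, -30),
      (297, 30), (319, 30), (335, -30)],
      [(33, -30), (45, 30), (209, -30), (233, 30)],
      [],
      [(55, 30), (110, -30), (114, 30), (330, 30), (342, -30)],
      [(44, -15), (56, 15), (103, 15), (111, 15), (211, -15), (220, 15)],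
      [],
      [(44, 21), (56, 39), (66, 6), (78, 6), (91, -24), (103, -9), (105, 6), (111, -45), (117,
      6), (199, 30), (211, -33), (212, -6), (220, -15), (232, 42), (236, 6), (297, -6), (319,
      -6), (335, 6)],
      [(22, -6), (33, 32), (45, -16), (67, -6), (79, -30), (80, 24), (92, 16), (94, -6), (104,
      -4), (106, 24), (112, -8), (113, 2), (209, 40), (213, -16), (225, 8), (233, -40), (234, 8),
      (286, -24), (308, -24), (320, 40), (333, -16), (341, -8), (345, 16), (357, -8)],
      [(55, 60), (110, -60), (114, 60), (214, 30), (223, 30), (330, 60), (342, -60), (346, -30)],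
      [(44, 64), (56, 16), (66, -6), (78, -6), (91, -36), (103, -36), (105, 24), (111, -100),
      (117, 24), (199, 30), (211, -12), (212, 16), (220, -70), (224, -10), (232, 78), (236, 14),
      (297, 6), (319, 6), (335, 14), (343, -10), (344, -10), (356, 10)],
      [(22, -12), (33, 4), (45, -2), (67, -12), (79, -30), (80, 18), (92, 2), (94, -12), (104,
      -8), (106, 48), (112, -16), (113, 4), (209, 20), (213, -32), (225, 16), (233, -20), (234,
      16), (286, -18), (308, -18), (320, 20), (333, -2), (341, -16), (345, 32), (357, -16)]],
    [[],
      [(111, 30)],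
      [(112, 30), (113, -30)],
      [],
      [],
      [(44, -15), (56, 15), (103, -15), (111, 15), (211, -15), (220, 15)],
      [(55, 30), (102, -30), (110, -30), (114, 30), (330, 30), (342, -30)],
      [(44, 42), (56, 48), (66, 12), (78, 12), (91, -18), (103, -18), (105, -18), (111, -60),
      (117, 12), (199, 30), (211, -36), (212, -12), (220, -30), (232, 54), (236, 12), (297, -12),
      (319, -12), (335, 12)],
      [(33, 40), (45, -20), (79, -30), (80, 30), (92, 20), (104, 10), (112, -10), (113, 10),
      (209, 50), (213, -20), (225, 10), (233, -50), (234, 10), (286, -30), (308, -30), (320, 50),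
      (333, -20), (341, -10), (345, 20), (357, -10)],
      [(55, 60), (102, -60), (110, -60), (114, 60), (223, 30), (330, 60), (342, -60)],
      [(44, 101), (56, 29), (66, 6), (78, 6), (91, -24), (103, 21), (105, -24), (111, -125),
      (117, 36), (199, 30), (211, -3), (212, -16), (220, -95), (224, -20), (232, 102), (236, 16),
      (297, -6), (319, -6), (335, 16), (343, -20), (344, 10), (356, 20)]],
    [[],
      [(89, 30), (93, -30), (114, -30), (198, 30), (214, 30), (223, 30), (231, 30), (235, -30),
      (330, -30), (334, -30), (342, 30), (346, -30), (355, -30)],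
      [],
      [(44, 15), (56, 15), (103, -15), (111, -15), (211, -15), (220, -15), (232, 30)],
      [],
      [],
      [(104, 30), (113, -30)],
      [(55, 30), (102, -30), (110, -30), (114, 60), (116, -30), (330, 30), (342, -30)],
      [(44, 63), (56, 57), (66, 18), (78, 18), (91, -12), (103, -27), (105, -12), (111, -75),
      (117, -12), (199, 30), (211, -39), (212, -18), (220, -45), (232, 66), (236, 18), (297,
      -18), (319, -18), (335, 18)],
      [(33, 20), (45, -10), (79, -30), (80, 30), (92, 10), (104, 80), (112, -20), (113, -40),
      (209, 40), (213, -10), (225, -10), (233, -40), (234, 20), (286, -30), (308, -30), (320,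
      40), (333, -10), (341, -20), (345, 10), (357, 10)],
      [(55, 60), (102, -60), (110, -60), (114, 120), (116, -60), (330, 60), (342, -60), (355,
      30)]]]
  A := [[[(11, 6), (23, 6), (55, -6), (68, 6), (77, -6), (83, 6), (93, -6), (95, 6), (102, 6), (114,
      6), (116, 6), (198, 6), (214, 12), (223, 12), (231, 6), (235, -6), (275, 6), (334, -6),
      (342, 6), (346, -12), (355, -6)],
      [(22, 6), (33, 8), (45, -4), (67, 6), (80, 6), (92, 4), (94, 6), (104, -16), (106, 6),
      (112, -2), (113, 8), (209, 10), (213, -4), (225, 2), (233, -10), (234, 2), (286, -6), (308,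
      -6), (320, 10), (333, -4), (341, -2), (345, 4), (357, -2)],
      [(44, 21), (56, 9), (66, 6), (78, 6), (91, 6), (103, -9), (105, 6), (111, -15), (117, 6),
      (211, -3), (212, -6), (220, -15), (232, 12), (236, 6), (297, -6), (319, -6), (335, 6)],
      [],
      [(104, 30)],
      [],
      [(114, 30)],
      [],
      [],
      [(89, 30), (93, -30), (110, 30), (114, -60), (198, 30), (214, 30), (223, 30), (231, 30),
      (235, -30), (330, -30), (334, -30), (342, 30), (346, -30), (355, -30)]],
    [[],
      [],
      [],
      [],
      [(33, 10), (45, 10), (92, -10), (104, 10), (112, 20), (113, -20), (209, -10), (213, 10),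
      (225, 10), (233, 10), (234, 10), (320, -10), (333, 10), (341, 20), (345, -10), (357, -10)],
      [(44, -15), (56, -15), (103, 15), (111, 15), (211, 15), (220, 15)],
      [(214, -30), (223, -30), (235, 30), (334, 30), (346, 30), (355, 30)],
      [(33, -10), (45, 20), (92, 10), (104, -10), (112, -20), (113, 20), (209, 10), (213, -10),
      (225, -10), (233, 20), (234, -10), (320, 10), (333, -10), (341, -20), (345, 10), (357,
      10)],
      [],
      [(55, -30), (89, 60), (93, -60), (110, 30), (114, -90), (198, 60), (214, 90), (223, 90),
      (231, 90), (235, -90), (330, -60), (334, -90), (342, 60), (346, -90), (355, -90)]],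
    [[],
      [],
      [(33, 30), (45, -30), (92, 30), (104, -30), (209, 30), (233, -30), (320, 30)],
      [(44, 5), (56, 5), (103, -15), (111, -5), (211, -15), (212, -10), (220, -5), (224, 10),
      (236, 10), (335, 10), (343, 10), (344, 10), (356, -10)],
      [],
      [(33, 30), (112, 30), (113, -30), (341, 30)],
      [(44, -20), (56, -20), (111, 20), (212, 10), (220, 20), (224, -10), (236, -10), (335, -10),
      (343, 20), (344, -10), (356, 10)],
      [(89, -30), (93, 30), (114, 30), (198, -30), (214, -30), (223, -30), (231, -30), (235, 30),
      (330, 30), (334, 30), (346, 30), (355, 30)],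
      [],
      [(44, -25), (56, -25), (103, -15), (111, 25), (165, -30), (211, -15), (212, 20), (220, 25),
      (224, 10), (232, -30), (236, 10), (297, 30), (335, -20), (343, 10), (344, 10), (356, -10)]]]
  W := [[[],
      [],
      [],
      [[],
       [(88, 30), (100, 30), (220, -30)]],
      [],
      [],
      [],
      [[],
       [],
       [],
       [],
       [],
       [(77, -30), (89, -30), (209, 30), (330, -30)]],
      [[(198, -30)],
       [],
       [(89, 30)]],
      [[(89, 30), (209, -30), (330, 30)],
       [(99, 30), (111, 30)],
       [(220, 30)]],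
      [[],
       [],
       [],
       [],
       [],
       [(110, -30)]]],
    [[],
      [],
      [],
      [[(231, -30), (352, 30)]],
      [],
      [[(341, 30)]],
      [],
      [],
      [[],
       [(88, -30)]],
      [[],
       [(111, 30)]],
      []],
    [[],
      [],
      [],
      [],
      [],
      [],
      [],
      [],
      [[],
       [(221, 30)],
       [(99, -30), (111, -30), (210, -30), (231, -30)]],
      [],
      [[(221, 30), (330, 30)],
       [(231, -30)],
       [(88, 30), (100, 30), (220, -30), (232, -30)]]]]

theorem ce0_ck : ce0.ckW bs dl 11 0 = true := by decide +kernel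

/-- certificate -/
def ce1 : Cer where
  den := 1
  N := [[],
    [[(22, 1), (67, 1), (79, 1)],
      [],
      [],
      [],
      [],
      [],
      [],
      [],
      [],
      [],
      []],
    [[(66, 1), (82, 1), (99, 2), (111, -3), (115, 2), (187, -1), (199, 1), (220, -3), (232, 3),
      (319, -1), (331, 1), (352, -1)],
      [(67, 1), (79, 1)],
      [],
      [],
      [],
      [],
      [],
      [],
      [],
      [],
      []],
    [[],
      [],
      [(34, -1)],
      [],
      [],
      [],
      [],
      [],
      [],
      [],
      []],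
    [[],
      [(111, -1), (115, 1), (220, -1), (232, 1)],
      [(45, -1)],
      [],
      [],
      [],
      [],
      [],
      [],
      [],
      []],
    [[],
      [],
      [(99, 1), (111, -3), (115, 2), (199, 1), (211, -1), (220, -2), (232, 3), (319, -1), (331,
      1), (352, -1)],
      [],
      [],
      [],
      [],
      [],
      [],
      [],
      []],
    [[(34, -1), (55, 1), (77, 1), (89, 1), (210, -1), (222, 1)],
      [(82, 1), (99, 2), (111, -3), (115, 2), (187, -1), (199, 1), (220, -3), (232, 3), (319,
      -1), (331, 1), (352, -1)],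
      [(79, 1)],
      [(80, 1), (92, -1), (100, 1), (104, 1), (112, -1), (113, 1)],
      [(81, 1), (93, 1), (114, 1)],
      [(82, 1), (103, 1)],
      [],
      [],
      [],
      [],
      []],
    [[(45, 1), (88, 1), (100, -2), (104, 1), (112, -1), (113, 1), (209, -1), (233, 1)],
      [(34, -1), (89, 1), (210, -1), (222, 1)],
      [(99, 1), (111, -1), (220, -1), (232, 1), (319, -1), (331, 1), (352, -1)],
      [],
      [(92, 1), (104, -1), (112, 1), (113, -1)],
      [(93, 1), (114, 1)],
      [],
      [],
      [],
      [],
      []],
    [[(99, 1), (103, -2), (111, 1)],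
      [],
      [(34, -1), (210, -1), (222, 1)],
      [],
      [],
      [],
      [(90, -1), (99, 1), (103, 1), (111, -1), (220, -1), (232, 1), (319, -1), (331, 1), (352,
      -1)],
      [(94, -1), (100, 2), (112, -1)],
      [],
      [],
      []],
    [[(55, -1), (110, 1)],
      [(103, -1), (111, 1)],
      [],
      [(100, 1), (104, -1)],
      [],
      [],
      [(34, -1), (101, -1), (210, -1), (222, 1)],
      [(90, -1), (99, 1), (103, 2), (105, -1), (111, -1), (220, -1), (232, 1), (319, -1), (331,
      1), (352, -1)],
      [],
      [],
      []],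
    [[(45, -1), (100, 1), (104, -1), (112, 1), (113, -1), (209, 1), (233, -1)],
      [],
      [],
      [(103, 1), (115, -1)],
      [(100, -1), (104, 1), (112, -1), (113, 1)],
      [(114, -1)],
      [(100, 1), (112, -1)],
      [(34, -1), (101, -1), (116, -1), (210, -1), (222, 1)],
      [],
      [],
      []]]
  A := [[[],
      [],
      [],
      [],
      [(100, 1)],
      [(103, 1)],
      [],
      [],
      [],
      [(55, 1)]],
    [[],
      [],
      [],
      [(34, -1), (222, 1)],
      [],
      [(99, 1), (111, -3), (115, 2), (199, 1), (220, -2), (232, 3), (319, -1), (331, 1), (352,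
      -1)],
      [],
      [(45, 1), (100, -1), (104, 1), (112, -1), (113, 1), (233, 1)],
      [(99, -1), (103, -1), (111, 4), (115, -2), (199, -1), (220, 3), (232, -3), (319, 1), (331,
      -1), (352, 1)],
      [(55, -1), (89, -1), (93, 1), (110, 1), (114, 1), (198, -1), (210, 1)]],
    [[],
      [],
      [(92, 1), (104, -1), (112, 1), (113, -1), (320, 1)],
      [],
      [(34, -1), (55, 1), (110, -1), (210, -1), (222, 1), (330, 1)],
      [(45, -1), (92, -1), (104, 1), (112, -1), (113, 1), (320, -1), (332, 1)],
      [(103, 1), (111, -2), (115, 1), (220, -1), (232, 1), (331, 1)],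
      [],
      [],
      [(103, -2), (111, 2), (220, 1), (232, -1), (331, -1), (352, 1)]]]
  W := [[[],
      [],
      [],
      [[(99, 1), (111, 1)]],
      [[(110, -1)]],
      [[],
       [(89, 1), (110, -1), (209, -1)]],
      [],
      [[],
       [(77, 1), (110, 2)]],
      [[],
       [],
       [],
       [(110, -1), (209, -1)]],
      [[],
       [],
       [],
       [(100, -1)]],
      []],
    [[],
      [],
      [],
      [],
      [],
      [],
      [],
      [],
      [],
      [[],
       [(111, 1)]],
      [[(88, 1)]]],
    [[],
      [],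
      [],
      [],
      [],
      [],
      [[(99, 2), (111, 2), (198, 1)]],
      [],
      [],
      [[(99, -1), (111, -1), (210, 1), (231, 1)],
       [(100, 1), (220, -1)],
       [(89, 1), (110, -1), (209, -1), (221, -1)]],
      [[],
       [(210, 1)],
       [(100, 1), (220, -1), (232, -1)]]]]

theorem ce1_ck : ce1.ckW bs dl 11 1 = true := by decide +kernel

/-- certificate -/
def ce2 : Cer where
  den := 1
  N := [[],
    [[(22, 1), (67, 1), (79, 1), (94, 1), (112, 2), (113, -1), (341, 1), (353, -1)],
      [],
      [],
      [],
      [],
      [],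
      [],
      [],
      [],
      [],
      []],
    [[(66, 1), (78, 1), (90, -2)],
      [(67, 1), (79, 1), (94, 1), (112, 2), (113, -1), (341, 1), (353, -1)],
      [],
      [],
      [],
      [],
      [],
      [],
      [],
      [],
      []],
    [],
    [[],
      [(90, 1), (91, -1), (99, -1), (319, 1), (331, -1), (352, 1)],
      [],
      [],
      [],
      [],
      [],
      [],
      [],
      [],
      []],
    [],
    [[(77, 1), (89, 1), (110, 1)],
      [(78, 1), (90, -1)],
      [(79, 1), (94, 1), (112, 1)],
      [],
      [],
      [],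
      [],
      [],
      [],
      [],
      []],
    [[(88, 1), (100, 1), (112, -2), (113, 2), (341, -2), (353, 2)],
      [(55, -1), (89, 1), (110, 1)],
      [],
      [(90, -1), (91, 1), (103, 1), (115, 1)],
      [(92, 1), (104, 1), (341, -1), (353, 1)],
      [(93, 1), (101, -1), (102, 1), (114, -1)],
      [(94, 1), (113, 1), (341, -1), (353, 1)],
      [],
      [],
      [],
      []],
    [[(99, 1), (111, 1)],
      [(100, 1), (112, -1), (113, 1), (341, -1), (353, 1)],
      [],
      [(101, -1), (102, 1), (114, -1)],
      [],
      [(104, 1)],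
      [],
      [],
      [],
      [],
      []],
    [[],
      [(111, 1)],
      [],
      [],
      [(114, 1)],
      [(103, -1)],
      [(101, -1)],
      [(90, 1), (105, -1)],
      [],
      [],
      []],
    [[],
      [(55, 1), (110, -1)],
      [],
      [(103, -1), (115, -1)],
      [(341, 1), (353, -1)],
      [],
      [(113, -1), (341, 1), (353, -1)],
      [(101, -1), (116, -1)],
      [],
      [],
      []]]
  A := [[[],
      [],
      [(90, 1)],
      [],
      [],
      [],
      [],
      [(112, 1), (113, -1), (341, 1), (353, -1)],
      [],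
      [(55, 1)]],
    [[],
      [],
      [],
      [],
      [],
      [(90, -1), (91, 1), (99, 1), (103, 1), (115, 1), (232, 1), (319, -1), (331, 1), (352, -1)],
      [(55, -1), (101, 1), (102, -1), (110, 1), (114, 1), (210, 1)],
      [(221, 1)],
      [],
      [(55, 2), (101, -1), (102, 1), (110, -2), (114, -1), (210, -1), (231, 1)]],
    [[],
      [],
      [],
      [],
      [],
      [(341, 1)],
      [(90, 1), (91, -1), (99, -1), (111, -1), (319, 1), (352, 1)],
      [(55, -1), (110, 1), (114, 1), (342, 1)],
      [],
      [(90, -1), (91, 1), (99, 1), (103, 1), (111, 1), (115, 1), (319, -1)]]]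
  W := [[[],
      [],
      [],
      [[(231, 1)]],
      [[(209, 1)]],
      [],
      [],
      [],
      [],
      [],
      []],
    [[],
      [],
      [],
      [],
      [],
      [],
      [],
      [[(88, 1)]],
      [[(99, 1), (231, -1)]],
      [[(110, 1), (209, 1)]],
      []],
    [[],
      [],
      [],
      [],
      [],
      [],
      [],
      [],
      [[(220, 1)]],
      [],
      []]]

theorem ce2_ck : ce2.ckW bs dl 11 2 = true := by decide +kernel

/-- certificate -/
def ce3 : Cer where
  den := 1
  N := [[],
    [],
    [[(44, 1), (66, 1), (78, 1), (90, 1), (91, -3), (103, 3), (115, -4)],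
      [],
      [],
      [],
      [],
      [],
      [],
      [],
      [],
      [],
      []],
    [[(44, -1)],
      [],
      [],
      [],
      [],
      [],
      [],
      [],
      [],
      [],
      []],
    [],
    [],
    [[(55, 1), (77, 1), (89, 1), (93, -2), (101, -2), (102, 2), (114, -2)],
      [(78, 1), (90, 1), (91, -2), (103, 2), (115, -3)],
      [],
      [],
      [],
      [],
      [],
      [],
      [],
      [],
      []],
    [[(88, 1), (104, 1), (209, -1), (221, 1)],
      [(89, 1), (93, -1), (101, -1), (102, 1), (114, -1)],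
      [(90, 1), (91, -1), (103, 1), (115, -2)],
      [],
      [(33, 1), (92, 1), (104, 1), (341, 1), (353, 1)],
      [],
      [],
      [],
      [],
      [],
      []],
    [[(99, 1), (111, 1), (115, -2)],
      [(33, -1), (104, 1), (209, -1), (221, 1)],
      [],
      [],
      [(103, 1), (115, -1)],
      [(33, 1), (104, 1), (341, 1)],
      [],
      [],
      [],
      [],
      []],
    [[(55, -1), (110, 1)],
      [(111, 1), (115, -1)],
      [],
      [(33, 1), (341, 1)],
      [(101, -1), (102, 1)],
      [],
      [(93, 1), (102, -1), (114, 1)],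
      [],
      [],
      [],
      []],
    [[(33, -1)],
      [],
      [],
      [],
      [(353, -1)],
      [(101, -1), (102, 1), (114, -1)],
      [(33, 1), (113, -1), (341, 1), (353, -1)],
      [],
      [],
      [],
      []]]
  A := [[[],
      [],
      [(91, 1), (103, -1), (115, 1)],
      [(93, 1), (101, 1), (102, -1), (114, 1)],
      [],
      [(115, 1)],
      [],
      [],
      [],
      [(55, 1)]],
    [[],
      [],
      [],
      [],
      [(33, -1), (221, 1), (341, -1)],
      [(44, -1), (111, 1), (115, -1), (220, 1)],
      [(210, 1)],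
      [],
      [],
      [(101, 1), (102, -1), (114, 1), (210, -1), (231, 1)]],
    [[],
      [],
      [],
      [(103, 1), (111, -1), (331, 1)],
      [],
      [],
      [],
      [(55, 1), (110, -1), (330, 1)],
      [],
      [(44, -1), (352, 1)]]]
  W := [[[],
      [],
      [],
      [],
      [],
      [],
      [],
      [],
      [],
      [[],
       [(99, 1)]],
      [[],
       [],
       [(231, 1)]]],
    [[],
      [],
      [],
      [],
      [],
      [],
      [],
      [[(88, 1)]],
      [],
      [],
      [[],
       [(110, -1)]]],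
    [[],
      [],
      [],
      [],
      [],
      [],
      [],
      [[(209, 1)]],
      [],
      [[],
       [(220, -1)]],
      []]]

theorem ce3_ck : ce3.ckW bs dl 11 3 = true := by decide +kernel

/-- certificate -/
def ce4 : Cer where
  den := 1
  N := [[],
    [],
    [[(66, 1), (78, 1), (90, 1), (111, 1)],
      [],
      [],
      [],
      [],
      [],
      [],
      [],
      [],
      [],
      []],
    [],
    [],
    [],
    [[(77, 1), (89, 1), (110, 1)],
      [(78, 1), (90, 1), (111, 1)],
      [],
      [],
      [],
      [],
      [],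
      [],
      [],
      [],
      []],
    [[(88, 1), (100, 1), (112, -2)],
      [(89, 1)],
      [(90, 1), (111, 1)],
      [],
      [],
      [],
      [],
      [],
      [],
      [],
      []],
    [[(99, 1)],
      [(100, 1), (112, -1)],
      [],
      [],
      [],
      [],
      [],
      [],
      [],
      [],
      []],
    [[],
      [],
      [],
      [(341, 1)],
      [],
      [],
      [(101, -1)],
      [],
      [],
      [],
      []],
    [[],
      [],
      [(111, -1)],
      [],
      [],
      [],
      [],
      [],
      [],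
      [],
      []]]
  A := [[[],
      [],
      [],
      [],
      [(112, 1)],
      [],
      [],
      [],
      [],
      [(110, 1)]],
    [[],
      [],
      [],
      [],
      [],
      [],
      [(231, 1)],
      [(100, 1), (112, -1), (209, 1)],
      [(220, 1)],
      []],
    [[],
      [],
      [],
      [],
      [(330, 1)],
      [],
      [(111, -1), (352, 1)],
      [],
      [],
      []]]
  W := [[[],
      [],
      [],
      [],
      [],
      [],
      [],
      [],
      [],
      [],
      []],
    [[],
      [],
      [],
      [],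
      [],
      [],
      [],
      [],
      [],
      [],
      []],
    [[],
      [],
      [],
      [],
      [],
      [],
      [],
      [],
      [],
      [],
      []]]

theorem ce4_ck : ce4.ckW bs dl 11 4 = true := by decide +kernel

/-- certificate -/
def ce5 : Cer where
  den := 1
  N := [[],
    [],
    [],
    [],
    [],
    [[(341, -1)],
      [],
      [],
      [],
      [],
      [],
      [],
      [],
      [],
      [],
      []],
    [[(77, 1), (89, -1), (110, 1)],
      [],
      [],
      [],
      [],
      [],
      [],
      [],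
      [],
      [],
      []],
    [[(88, 1), (100, -1)],
      [],
      [],
      [],
      [],
      [],
      [],
      [],
      [],
      [],
      []],
    [[(99, 1), (111, -1)],
      [],
      [],
      [],
      [],
      [],
      [],
      [],
      [],
      [],
      []],
    [[],
      [],
      [],
      [],
      [],
      [(220, 1)],
      [],
      [],
      [],
      [],
      []],
    []]
  A := [[[],
      [],
      [],
      [(89, 1)],
      [(100, 1)],
      [],
      [],
      [],
      [(111, 1)],
      [(110, 1)]],
    [[],
      [],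
      [],
      [],
      [(209, 1), (341, -1)],
      [],
      [(231, 1)],
      [],
      [],
      []],
    [[],
      [],
      [],
      [],
      [(330, 1)],
      [],
      [(352, 1)],
      [],
      [],
      []]]
  W := [[[],
      [],
      [],
      [],
      [],
      [],
      [],
      [],
      [],
      [],
      []],
    [[],
      [],
      [],
      [],
      [],
      [],
      [],
      [],
      [],
      [],
      []],
    [[],
      [],
      [],
      [],
      [],
      [],
      [],
      [],
      [],
      [],
      []]]

theorem ce5_ck : ce5.ckW bs dl 11 5 = true := by decide +kernel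

/-- certificate -/
def ce6 : Cer where
  den := 1
  N := [[],
    [],
    [],
    [],
    [],
    [],
    [],
    [[(88, 1)],
      [],
      [],
      [],
      [],
      [],
      [],
      [],
      [],
      [],
      []],
    [[(99, 1)],
      [],
      [(77, 1), (89, -1), (110, 1)],
      [],
      [],
      [],
      [],
      [],
      [],
      [],
      []],
    [[],
      [],
      [(100, -1)],
      [],
      [],
      [],
      [],
      [],
      [],
      [],
      []],
    [[],
      [],
      [(111, -1)],
      [],
      [],
      [],
      [],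
      [],
      [],
      [],
      []]]
  A := [[[],
      [],
      [],
      [(77, 1)],
      [],
      [],
      [(110, 1)],
      [],
      [],
      []],
    [],
    []]
  W := [[[],
      [],
      [],
      [],
      [],
      [],
      [],
      [],
      [],
      [],
      []],
    [[],
      [],
      [],
      [],
      [],
      [],
      [],
      [],
      [],
      [],
      []],
    [[],
      [],
      [],
      [],
      [],
      [],
      [],
      [],
      [],
      [],
      []]]

theorem ce6_ck : ce6.ckW bs dl 11 6 = true := by decide +kernel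

/-- certificate -/
def ce7 : Cer where
  den := 1
  N := [[],
    [],
    [],
    [],
    [],
    [],
    [],
    [],
    [],
    [],
    []]
  A := [[[],
      [],
      [],
      [],
      [(88, 1)],
      [(99, 1)],
      [],
      [],
      [],
      [(110, 1)]],
    [],
    []]
  W := [[[],
      [],
      [],
      [],
      [],
      [],
      [],
      [],
      [],
      [],
      []],
    [[],
      [],
      [],
      [],
      [],
      [],
      [],
      [],
      [],
      [],
      []],
    [[],
      [],
      [],
      [],
      [],
      [],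
      [],
      [],
      [],
      [],
      []]]

theorem ce7_ck : ce7.ckW bs dl 11 7 = true := by decide +kernel

/-- certificate -/
def ce8 : Cer where
  den := 1
  N := [[],
    [],
    [],
    [],
    [],
    [],
    [],
    [],
    [],
    [],
    []]
  A := [[[],
      [],
      [],
      [],
      [(88, 1)],
      [(99, 1)],
      [],
      [],
      [],
      [(110, 1)]],
    [],
    []]
  W := [[[],
      [],
      [],
      [],
      [],
      [],
      [],
      [],
      [],
      [],
      []],
    [[],
      [],
      [],
      [],
      [],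
      [],
      [],
      [],
      [],
      [],
      []],
    [[],
      [],
      [],
      [],
      [],
      [],
      [],
      [],
      [],
      [],
      []]]

theorem ce8_ck : ce8.ckW bs dl 11 8 = true := by decide +kernel

/-- exactness certificates -/
def exs : List TowerCk.EC := [
  ⟨1, [],
    []⟩,
  ⟨1, [],
    []⟩,
  ⟨1, [],
    []⟩,
  ⟨1, [],
    []⟩,
  ⟨1, [],
    []⟩,
  ⟨1, [],
    []⟩,
  ⟨1, [],
    []⟩,
  ⟨1, [[[],
      [],
      [],
      [(11, 1)],
      [],
      [(22, -1)]],
    [],
    []],
    []⟩,
  ⟨1, [],
    []⟩,
  ⟨1, [[],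
    [[],
      [],
      [(23, -1)]],
    [[],
      [],
      [(12, 1)]]],
    []⟩,
  ⟨1, [[],
    [[],
      [],
      [],
      [(0, -1)]],
    []],
    []⟩]

theorem exs_ck : allb (fun c => (nth ⟨1, [], []⟩ exs c).ckW bs dl 11 c) (10 + 1) = true := by
  decide +kernel

/-- all certificates -/
theorem cert {k : Type*} [Field k] [CharZero k] (κ : ℕ) :
    CertW (fun x : Fin 11 => bs.w x) (fun i => nth 0 dl i) (Mt k 11 (nth [] bs.pw 1))
      (XX k bs 11) κ := by
  have hB : bs.ckPow 11 = true := by
    have h := bs_ck
    simp only [Base.ckW, Bool.and_eq_true] at h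
    exact h.1.1
  rcases Nat.lt_or_ge κ 9 with h | h
  · interval_cases κ
    · exact certW_of_ck bs dl (by norm_num) hB ce0 ce0_ck
    · exact certW_of_ck bs dl (by norm_num) hB ce1 ce1_ck
    · exact certW_of_ck bs dl (by norm_num) hB ce2 ce2_ck
    · exact certW_of_ck bs dl (by norm_num) hB ce3 ce3_ck
    · exact certW_of_ck bs dl (by norm_num) hB ce4 ce4_ck
    · exact certW_of_ck bs dl (by norm_num) hB ce5 ce5_ck
    · exact certW_of_ck bs dl (by norm_num) hB ce6 ce6_ck
    · exact certW_of_ck bs dl (by norm_num) hB ce7 ce7_ck
    · exact certW_of_ck bs dl (by norm_num) hB ce8 ce8_ck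
  · have h1 : ∀ x : Fin 11, bs.w x ≤ 10 := by decide
    have h2 : ∀ i : Fin 3, 2 ≤ nth 0 dl i := by decide
    refine certW_top fun i x => ?_
    have h3 := h1 x
    have h4 := h2 i
    show bs.w x < nth 0 dl i + κ
    omega

/-- **Levels of sizes `1, 0, 1, 0, 1, 3, 1, 0, 1, 0, 3`, degrees `2, 5, 5`.** -/
theorem cl {k : Type*} [Field k] [CharZero k] {ι : Type*} [Fintype ι] [DecidableEq ι] (w : ι → ℕ)
    (hle : ∀ x, w x ≤ 10) (hn : ∀ a : Fin 11, Fintype.card {x // w x = (a : ℕ)} =
      ![1, 0, 1, 0, 1, 3, 1, 0, 1, 0, 3] a)
    {T : Fin 3 → Matrix ι ι k} (hT : ∀ i j, T i * T j = T j * T i)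
    (hlow : ∀ i x y, w x < w y + ![2, 5, 5] i → T i x y = 0)
    (eT : ∀ a ≤ 10, EXw w ![2, 5, 5] T a) : Cl T := by
  have hd : (fun i : Fin 3 => nth 0 dl i) = ![2, 5, 5] := by decide
  refine TowerCk.cl_towerW_ck (dl := dl) (by norm_num) (by decide) bs_ck cert 10 (by decide)
    (TowerCk.exw_all bs dl (by norm_num) exs 10 exs_ck) w hle ?_ hT ?_ (by rw [hd]; exact eT)
  · intro a ha
    have h : ∀ a : Fin 11, Fintype.card {x : Fin 11 // bs.w x = (a : ℕ)} =
        ![1, 0, 1, 0, 1, 3, 1, 0, 1, 0, 3] a := by decide
    exact (hn ⟨a, by omega⟩).trans (h ⟨a, by omega⟩).symm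
  · intro i x y hxy
    refine hlow i x y ?_
    rw [← hd]
    exact hxy

end Pool.Agent.Lib.D13.TW6221
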