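import Pool.Agent.Lib.D13.TowerWCk

/-!
# MP_5dcbc3_ag: density certificates, type 6321, family (243111|342111), d = 12, degrees (2,5,5)
-/

namespace Pool.Agent.Lib.D13.TW6321

open Refl Pool.Agent.Lib.Q5dc

/-- the base point -/
def bs : Base where
  lev := [0, 0, 2, 4, 5, 5, 5, 6, 8, 10, 10, 10]
  pw := [[[(0, 1)], [(1, 1)], [(2, 1)], [(3, 1)], [(4, 1)], [(5, 1)], [(6, 1)], [(7, 1)], [(8, 1)],
      [(9, 1)], [(10, 1)], [(11, 1)]],
    [[], [(0, 1)], [(1, 1)], [(2, 1)], [(6, 1), (11, -1)], [(4, -1)], [(5, 1)], [(3, 1), (4,
      1)], [(7, 1)], [(8, 1), (11, 1)], [(9, 1)], [(10, 1)]],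
    [[], [], [(0, 1)], [(1, 1)], [(5, 1), (10, -1)], [(6, -1), (11, 1)], [(4, -1)], [(2, 1),
      (6, 1), (11, -1)], [(3, 1), (4, 1)], [(7, 1), (10, 1)], [(8, 1), (11, 1)], [(9, 1)]],
    [[], [], [], [(0, 1)], [(4, -1), (9, -1)], [(5, -1), (10, 1)], [(6, -1), (11, 1)], [(1, 1),
      (5, 1), (10, -1)], [(2, 1), (6, 1), (11, -1)], [(3, 1), (4, 1), (9, 1)], [(7, 1), (10, 1)],
      [(8, 1), (11, 1)]],
    [[], [], [], [], [(6, -1), (8, -1)], [(4, 1), (9, 1)], [(5, -1), (10, 1)], [(0, 1), (4,
      -1), (9, -1)], [(1, 1), (5, 1), (10, -1)], [(2, 1), (6, 1), (8, 1)], [(3, 1), (4, 1), (9,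
      1)], [(7, 1), (10, 1)]],
    [[], [], [], [], [(5, -1), (7, -1)], [(6, 1), (8, 1)], [(4, 1), (9, 1)], [(6, -1), (8,
      -1)], [(0, 1), (4, -1), (9, -1)], [(1, 1), (5, 1), (7, 1)], [(2, 1), (6, 1), (8, 1)], [(3,
      1), (4, 1), (9, 1)]],
    [[], [], [], [], [(3, -1)], [(5, 1), (7, 1)], [(6, 1), (8, 1)], [(5, -1), (7, -1)], [(6,
      -1), (8, -1)], [(0, 1), (3, 1)], [(1, 1), (5, 1), (7, 1)], [(2, 1), (6, 1), (8, 1)]],
    [[], [], [], [], [(2, -1)], [(3, 1)], [(5, 1), (7, 1)], [(3, -1)], [(5, -1), (7, -1)], [(2,
      1)], [(0, 1), (3, 1)], [(1, 1), (5, 1), (7, 1)]],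
    [[], [], [], [], [(1, -1)], [(2, 1)], [(3, 1)], [(2, -1)], [(3, -1)], [(1, 1)], [(2, 1)],
      [(0, 1), (3, 1)]],
    [[], [], [], [], [(0, -1)], [(1, 1)], [(2, 1)], [(1, -1)], [(2, -1)], [(0, 1)], [(1, 1)],
      [(2, 1)]],
    [[], [], [], [], [], [(0, 1)], [(1, 1)], [(0, -1)], [(1, -1)], [], [(0, 1)], [(1, 1)]],
    [[], [], [], [], [], [], [(0, 1)], [], [(0, -1)], [], [], [(0, 1)]]]
  xc := [[(1, 1)], [(1, 1), (4, -1), (7, 1), (10, -1)], [(2, 1), (5, -1), (8, 1), (11, -1)]]
  X := [[[], [(0, 1)], [(1, 1)], [(2, 1)], [(6, 1), (11, -1)], [(4, -1)], [(5, 1)], [(3, 1), (4,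
      1)], [(7, 1)], [(8, 1), (11, 1)], [(9, 1)], [(10, 1)]],
    [[], [(0, 1)], [(1, 1)], [(2, 1)], [(2, -1), (6, 2), (8, 1), (11, -1)], [(0, -1), (3, 1),
      (4, -2), (9, -1)], [(1, -1), (5, 3), (7, 1), (10, -1)], [(4, 2), (9, 1)], [(5, -2), (10,
      1)], [(6, -1), (11, 1)], [(4, -1)], [(5, 1)]],
    [[], [], [(0, 1)], [(1, 1)], [(1, -1), (5, 2), (7, 1), (10, -1)], [(2, 1), (6, -2), (8,
      -1), (11, 1)], [(0, -1), (3, 1), (4, -2), (9, -1)], [(6, 2), (8, 1), (11, -1)], [(4, 2),
      (9, 1)], [(5, -1), (10, 1)], [(6, -1), (11, 1)], [(4, -1)]]]

/-- degrees -/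
def dl : List ℕ := [2, 5, 5]

theorem bs_ck : bs.ckW dl 12 = true := by decide +kernel

/-- certificate -/
def ce0 : Cer where
  den := 30
  N := [[[(60, 30), (73, 30), (84, 30), (97, 30), (110, 30), (114, -90), (137, -30), (241, 30),
      (258, -30), (277, 30), (360, -30), (384, -30), (397, -30), (401, 30), (410, 30)],
      [(36, -15), (85, 15), (98, 15), (108, 15), (112, 15), (121, -30), (127, 15), (134, 45),
      (138, -60), (140, 15), (205, -15), (252, -30), (265, 60), (269, -15), (278, -15), (348,
      15), (361, -15), (385, -15), (398, -15), (411, 15), (412, -15), (421, -15), (425, 15)],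
      [],
      [],
      [],
      [],
      [],
      [],
      [],
      [],
      [],
      []],
    [[(62, 40), (72, 70), (96, 30), (113, 20), (132, -40), (216, -10), (240, -10), (253, -10),
      (257, -10), (279, 10), (280, 20), (336, -20), (349, -30), (386, 10), (396, 20), (400, -10),
      (426, -20)],
      [(73, 30), (97, 30), (110, 40), (114, -70), (137, -40), (217, -30), (241, 10), (258, -20),
      (268, 10), (277, 40), (281, -10), (397, -40), (401, 20), (410, 40), (414, -10), (424,
      -10)],
      [],
      [],
      [],
      [],
      [],
      [],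
      [],
      [],
      [],
      []],
    [[(36, 75), (85, 75), (98, 75), (108, -45), (112, 45), (121, -45), (127, 45), (134, 240),
      (138, -285), (140, 45), (205, 15), (252, -75), (265, 120), (269, -15), (278, -60), (282,
      30), (348, -45), (361, -15), (385, -75), (398, -30), (408, 165), (411, 15), (412, -15),
      (421, -165), (425, 15)],
      [],
      [(25, -24), (38, 6), (73, 30), (87, 6), (97, 24), (103, 6), (110, 22), (114, -64), (116,
      6), (123, 6), (133, -6), (137, -16), (139, 6), (217, -24), (241, -2), (258, -14), (267, 6),
      (268, 10), (277, 22), (281, -10), (397, -16), (401, 20), (410, 16), (414, -10), (424,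
      -10)],
      [],
      [],
      [],
      [],
      [],
      [],
      [],
      [],
      []],
    [[(60, 30), (84, 30), (97, 30), (110, 30), (114, -90), (133, 30), (137, -60), (397, -30),
      (410, 30)],
      [(36, 45), (85, 75), (98, 75), (108, -45), (112, 45), (121, -45), (127, 45), (134, 240),
      (138, -285), (140, 45), (205, 15), (252, -75), (265, 120), (269, -15), (278, -60), (282,
      30), (348, -45), (361, -15), (385, -75), (398, -30), (408, 165), (411, 15), (412, -15),
      (421, -165), (425, 15)],
      [(24, 30), (37, -30), (62, -40), (72, -70), (96, -30), (113, -20), (132, 40), (216, 10),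
      (240, 10), (253, 10), (257, 10), (279, -10), (280, -20), (336, 20), (349, 30), (386, -10),
      (396, -20), (400, 10), (426, 20)],
      [(25, -18), (38, -18), (73, 30), (87, 12), (97, 18), (103, 12), (110, 4), (114, -58), (116,
      12), (123, 12), (133, -12), (137, 8), (139, 12), (217, -18), (241, -14), (258, -8), (267,
      12), (268, 10), (277, 4), (281, -10), (397, 8), (401, 20), (410, -8), (414, -10), (424,
      -10)],
      [],
      [],
      [],
      [],
      [],
      [],
      [],
      []],
    [[(60, -30), (73, 30), (277, -60)],
      [],
      [],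
      [(110, 30), (114, -30), (137, -30), (241, 30), (267, -30), (277, 30), (397, -30), (410,
      30)],
      [(110, 20), (114, -20), (137, -20), (241, 20), (258, -10), (268, -10), (277, 20), (281,
      -20), (397, -20), (401, 10), (410, 20), (414, 10), (424, -20)],
      [(36, 45), (85, 45), (98, 45), (108, -45), (112, 15), (121, -30), (127, 15), (134, 165),
      (138, -180), (140, 15), (205, 15), (252, -30), (265, 60), (269, -15), (278, -45), (282,
      30), (348, -45), (361, -15), (385, -45), (398, -15), (408, 120), (411, 15), (412, -15),
      (421, -105), (425, -15)],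
      [(24, 75), (37, -15), (62, -160), (72, -190), (86, -15), (96, -75), (99, -15), (109, 15),
      (113, -125), (115, -15), (128, -15), (132, 115), (136, -15), (216, 70), (240, 70), (253,
      40), (257, 25), (266, 30), (270, -60), (279, -70), (280, -35), (336, 5), (349, 60), (386,
      -55), (396, -110), (399, 30), (400, 25), (413, 45), (426, 35)],
      [],
      [],
      [],
      [],
      []],
    [[],
      [(277, 30)],
      [(36, 45), (85, 45), (98, 45), (108, -45), (112, 45), (121, -75), (127, 45), (134, 210),
      (138, -255), (140, 45), (205, 15), (252, -75), (265, 90), (269, -15), (278, -30), (282,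
      30), (348, -45), (361, -15), (385, -45), (398, -30), (408, 165), (411, 15), (412, -15),
      (421, -165), (425, 15)],
      [(62, -30)],
      [(24, -75), (37, 15), (62, 170), (72, 200), (86, 15), (96, 75), (99, 15), (109, -15), (113,
      145), (115, 15), (128, 15), (132, -125), (136, 15), (216, -80), (240, -80), (253, -50),
      (257, -35), (266, -30), (270, 60), (279, 80), (280, 55), (336, 5), (349, -60), (386, 65),
      (396, 130), (399, -30), (400, -35), (413, -45), (426, -55)],
      [],
      [(36, -30), (85, -30), (98, -30), (108, 30), (134, -90), (138, 90), (265, -30), (278, 30),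
      (348, 30), (385, 30), (408, -60), (421, 60)],
      [],
      [],
      [],
      [],
      []],
    [[],
      [],
      [],
      [(36, 90), (85, 90), (98, 90), (108, -90), (112, 90), (121, -120), (127, 90), (134, 390),
      (138, -510), (140, 90), (205, 30), (252, -120), (265, 180), (269, -30), (278, -90), (282,
      60), (348, -90), (361, -30), (385, -90), (398, -30), (408, 300), (412, -30), (421, -300),
      (425, 30)],
      [(36, -15), (85, -15), (98, -15), (108, 15), (112, 15), (127, 15), (134, -45), (140, 15),
      (205, -15), (269, -15), (278, 15), (348, 15), (361, 15), (385, 15), (398, 15), (408, -30),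
      (411, -15), (412, -15), (421, 15), (425, 15)],
      [(24, 75), (37, -15), (62, -240), (72, -210), (86, -15), (96, -75), (99, -15), (109, 15),
      (113, -165), (115, -15), (128, -15), (132, 135), (136, -15), (216, 90), (240, 90), (253,
      60), (257, 15), (266, 60), (270, -60), (279, -120), (280, -45), (336, -15), (349, 60),
      (386, -75), (396, -150), (399, 60), (400, 15), (413, 45), (426, 45)],
      [(110, 10), (114, -10), (137, -10), (241, 10), (258, -20), (268, 10), (277, 10), (281,
      -10), (397, -10), (401, 20), (410, 10), (414, -10), (424, -10)],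
      [],
      [],
      [],
      [],
      []],
    [[(72, 30), (96, 30)],
      [(97, 30), (110, 30), (114, -60), (133, 30), (137, -60), (277, -30), (397, -30), (410,
      30)],
      [(98, 30), (121, 30), (385, -30)],
      [(24, 60), (37, -30), (62, -80), (72, -140), (86, -30), (96, -60), (113, -40), (132, 80),
      (216, 20), (240, 20), (253, 20), (257, 20), (279, -20), (280, -40), (336, 40), (349, 60),
      (386, -20), (396, -40), (400, 20), (426, 40)],
      [(24, 60), (37, -30), (62, -230), (72, -200), (86, -30), (96, -60), (99, -30), (100, 30),
      (109, 30), (113, -190), (132, 140), (216, 80), (240, 80), (253, 50), (257, 20), (266, 60),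
      (270, -60), (279, -110), (280, -40), (336, -20), (349, 60), (386, -80), (396, -160), (399,
      60), (400, 20), (413, 60), (426, 40)],
      [(101, 30), (114, -30), (137, 30)],
      [(98, 30), (121, -30), (134, 60), (138, -60), (229, 30), (252, -30), (255, -30), (265, 60),
      (385, -30), (408, 30), (411, 30), (421, -60)],
      [(25, -12), (38, -12), (73, 30), (87, -12), (97, 12), (103, 18), (110, 16), (114, -82),
      (116, 18), (123, 18), (133, -18), (137, -28), (139, 18), (217, -12), (241, 4), (258, -2),
      (267, -12), (268, 10), (277, 16), (281, -10), (397, 2), (401, 20), (410, -2), (414, -10),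
      (424, -10)],
      [],
      [],
      [],
      []],
    [[(36, -45), (85, -45), (98, -45), (108, 75), (112, -45), (121, 105), (127, -45), (134,
      -270), (138, 315), (140, -45), (205, -15), (252, 75), (265, -120), (269, 15), (278, 60),
      (282, -30), (348, 45), (361, 15), (385, 45), (398, 30), (408, -195), (411, -15), (412, 15),
      (421, 195), (425, -15)],
      [],
      [(73, -30), (110, 30), (114, -30), (133, 30), (137, -60), (397, -30), (410, 30)],
      [(36, -45), (85, -45), (98, -45), (108, 45), (112, -45), (121, 105), (127, -45), (134,
      -240), (138, 285), (140, -45), (205, -15), (252, 75), (265, -120), (269, 15), (278, 60),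
      (282, -30), (348, 45), (361, 15), (385, 15), (398, 30), (408, -165), (411, -15), (412, 15),
      (421, 165), (425, -15)],
      [],
      [(62, 150), (72, 60), (109, -30), (113, 150), (132, -60), (216, -60), (240, -60), (253,
      -30), (266, -60), (270, 60), (279, 90), (336, 60), (386, 60), (396, 120), (399, -60), (413,
      -60)],
      [],
      [(24, 90), (37, -30), (62, -120), (72, -210), (86, -30), (96, -90), (99, -30), (113, -60),
      (132, 120), (216, 30), (240, 30), (253, 30), (257, 30), (279, -30), (280, -60), (336, 60),
      (349, 90), (386, -30), (396, -60), (400, 30), (426, 60)],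
      [(25, -6), (38, -6), (73, 30), (87, -6), (97, 6), (103, -6), (110, -2), (114, -76), (116,
      24), (123, 24), (133, -24), (137, -34), (139, 24), (217, -6), (241, -8), (258, 4), (267,
      -6), (268, 10), (277, -2), (281, -10), (397, 26), (401, 20), (410, -26), (414, -10), (424,
      -10)],
      [],
      [],
      []],
    [[(60, 60), (73, -60), (97, 30), (101, -30), (133, 30), (137, -60), (228, 30), (241, -30),
      (277, 60)],
      [(36, -45), (85, -45), (98, -45), (108, 45), (112, -45), (121, 105), (127, -45), (134,
      -240), (138, 285), (140, -45), (205, -15), (252, 75), (265, -120), (269, 15), (278, 60),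
      (282, -30), (348, 45), (361, 15), (385, 45), (398, 30), (408, -165), (411, -15), (412, 15),
      (421, 165), (425, -15)],
      [(113, -30), (216, 30), (240, 30), (270, -30), (336, -30), (396, -30), (413, 30)],
      [(73, -30), (133, 30), (137, -30), (397, -30), (410, 30)],
      [],
      [(121, 15), (134, -15), (138, 15), (252, 15), (278, -15), (398, -15), (408, -15), (421,
      30)],
      [(62, 60), (72, 30), (109, -30), (113, 60), (132, -30), (216, -30), (240, -30), (266, -30),
      (270, 30), (279, 30), (336, 30), (386, 30), (396, 60), (399, -30), (413, -30)],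
      [(112, -30), (138, -30), (265, 30), (278, -30), (398, -30), (421, 30)],
      [(24, 120), (37, -30), (62, -250), (72, -310), (86, -30), (96, -120), (99, -30), (113,
      -140), (115, -30), (132, 190), (136, -30), (216, 70), (240, 70), (253, 70), (257, 40),
      (266, 30), (270, -30), (279, -100), (280, -80), (336, 50), (349, 120), (386, -70), (396,
      -140), (399, 30), (400, 40), (413, 30), (426, 80)],
      [(110, -20), (114, 20), (137, 20), (241, -20), (258, 10), (268, 10), (277, -20), (281,
      -10), (397, 20), (401, 20), (410, -20), (414, -10), (424, -10)],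
      [(36, -30), (85, -30), (98, -30), (108, 30), (112, -60), (121, -15), (134, -75), (138, 15),
      (205, -30), (252, -15), (255, -30), (256, 30), (265, 30), (278, 15), (348, 30), (361, 30),
      (385, 30), (398, 15), (408, -45), (421, 30)],
      [(24, 90), (37, -30), (62, -400), (72, -340), (86, -30), (96, -90), (99, -30), (109, 90),
      (113, -320), (115, -30), (128, 30), (132, 250), (136, -30), (216, 160), (240, 160), (253,
      70), (257, 10), (266, 120), (270, -120), (279, -190), (280, -50), (336, -70), (349, 90),
      (386, -160), (396, -320), (399, 120), (400, 40), (413, 150), (426, 50)]],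
    [[(72, -30), (109, 30), (113, -30), (132, 30), (216, 30), (240, 30), (270, -30), (336, -30),
      (396, -30), (413, 30)],
      [(73, -30), (133, 30), (137, -30), (277, 30)],
      [],
      [(62, -60), (72, -30), (113, -60), (132, 30), (216, 30), (240, 30), (253, 30), (270, -30),
      (279, -30), (336, -30), (386, -30), (396, -60), (399, 30), (413, 30)],
      [],
      [],
      [(121, -15), (134, 15), (138, -15), (252, -15), (265, 30), (278, -15), (398, -15), (408,
      15)],
      [(73, -30), (114, 30), (123, -30), (133, 30), (397, -30), (410, 30)],
      [(112, -30), (127, -30), (138, -30), (265, 30), (278, -30), (398, -30), (421, 30)],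
      [(24, 150), (37, -30), (62, -290), (72, -380), (86, -30), (96, -150), (99, -30), (113,
      -160), (115, -30), (128, -30), (132, 230), (136, -30), (216, 80), (240, 80), (253, 80),
      (257, 50), (266, 30), (270, -30), (279, -110), (280, -100), (336, 70), (349, 150), (386,
      -80), (396, -160), (399, 30), (400, 50), (413, 30), (426, 100)],
      [(73, -60), (110, -10), (114, 70), (123, -60), (133, 60), (137, 10), (241, -10), (258,
      -10), (268, 20), (277, -10), (281, -20), (397, -50), (401, 10), (410, 50), (414, 10), (424,
      -20)],
      [(36, -15), (85, -15), (98, -15), (108, 15), (112, -45), (121, 45), (127, -45), (134, -90),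
      (138, 15), (140, 15), (205, -15), (252, 45), (265, -30), (269, -15), (348, 15), (361, 15),
      (385, 15), (408, -75), (411, -15), (412, 15), (421, 75), (425, 15)]],
    [[(36, -45), (85, -45), (98, -45), (108, 45), (112, -45), (121, 75), (127, -45), (134,
      -210), (138, 255), (140, -45), (205, -15), (252, 75), (265, -120), (269, 15), (278, 60),
      (282, -30), (348, 45), (361, 15), (385, 45), (398, 30), (408, -135), (411, -15), (412, 15),
      (421, 135), (425, -15)],
      [(109, 30), (113, -30), (216, 30), (240, 30), (270, -30), (336, -30), (396, -30), (413,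
      30)],
      [],
      [(36, 45), (85, 45), (98, 45), (108, -45), (112, 45), (121, -75), (127, 45), (134, 210),
      (138, -285), (140, 45), (205, 15), (252, -75), (265, 120), (269, -15), (278, -60), (282,
      30), (348, -45), (361, -15), (385, -45), (398, -30), (408, 165), (411, 15), (412, -15),
      (421, -165), (425, 15)],
      [(121, -15), (134, 15), (138, -45), (252, -15), (265, 30), (278, -15), (398, -15), (408,
      15)],
      [(62, -90), (72, -30), (113, -60), (132, 30), (216, 30), (240, 30), (253, 30), (266, 30),
      (270, -30), (279, -60), (336, -30), (386, -30), (396, -60), (399, 30), (413, 30)],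
      [],
      [(62, -90), (72, -30), (113, -60), (132, 30), (136, -30), (216, 30), (240, 30), (253, 30),
      (266, 30), (270, -30), (279, -60), (336, -30), (386, -30), (396, -60), (399, 30), (413,
      30)],
      [(73, -30), (114, 60), (123, -30), (133, 30), (137, 30), (139, -30), (397, -30), (410,
      30)],
      [(112, -30), (127, -30), (138, -30), (140, -30), (265, 30), (278, -30), (398, -30), (421,
      30)],
      [(24, 150), (37, -30), (62, -300), (72, -390), (86, -30), (96, -150), (99, -30), (113,
      -180), (115, -30), (128, -30), (132, 240), (136, -90), (216, 90), (240, 90), (253, 90),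
      (257, 60), (266, 30), (270, -60), (279, -120), (280, -90), (336, 60), (349, 150), (386,
      -90), (396, -180), (399, 30), (400, 60), (413, 30), (426, 120)],
      [(73, -60), (114, 120), (123, -60), (133, 60), (137, 60), (139, -60), (281, -30), (397,
      -60), (410, 60)]]]
  A := [[[(25, 6), (38, 6), (87, 6), (97, -6), (103, 6), (110, -18), (114, 6), (116, 6), (123, 6),
      (133, -6), (137, 24), (139, 6), (217, 6), (241, -12), (258, 6), (267, 6), (277, -18), (397,
      24), (410, -24)],
      [(24, 30), (62, -40), (72, -70), (96, -30), (113, -20), (132, 40), (216, 10), (240, 10),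
      (253, 10), (257, 10), (279, -10), (280, -20), (336, 20), (349, 30), (386, -10), (396, -20),
      (400, 10), (426, 20)],
      [],
      [(114, 30)],
      [],
      [],
      [(137, 30)],
      [],
      [(36, 45), (85, 45), (98, 45), (108, -45), (112, 45), (121, -75), (127, 45), (134, 240),
      (138, -285), (140, 45), (205, 15), (252, -75), (265, 120), (269, -15), (278, -60), (282,
      30), (348, -45), (361, -15), (385, -45), (398, -30), (408, 165), (411, 15), (412, -15),
      (421, -165), (425, 15)],
      [(73, 30), (277, -30)],
      [(72, 30)]],
    [[],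
      [],
      [(36, 15), (85, 15), (98, 15), (108, -15), (112, 15), (127, 15), (134, 45), (138, -60),
      (140, 15), (205, 15), (255, 30), (269, -15), (278, -15), (348, -15), (361, -15), (385,
      -15), (398, -15), (408, 30), (411, -15), (412, -15), (421, -15), (425, 15)],
      [(110, 30), (114, -30), (137, -30), (241, 30), (277, 30), (397, -30), (410, 30)],
      [(24, -75), (37, 15), (62, 130), (72, 190), (86, 15), (96, 75), (99, 15), (109, 15), (113,
      35), (115, 15), (128, 15), (132, -115), (136, 15), (216, -10), (240, -10), (253, -40),
      (257, -25), (279, 40), (280, 65), (336, -65), (349, -90), (386, 25), (396, 50), (400, -25),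
      (413, 15), (426, -65)],
      [(36, 30), (85, 30), (98, 30), (108, -30), (112, 30), (121, -30), (127, 30), (134, 120),
      (138, -150), (140, 30), (252, -30), (265, 60), (278, -30), (282, 30), (348, -30), (385,
      -30), (408, 90), (421, -90)],
      [],
      [(24, 75), (37, -15), (62, -190), (72, -220), (86, -15), (96, -75), (99, -15), (109, -15),
      (113, -95), (115, -15), (128, -15), (132, 145), (136, -15), (216, 40), (240, 40), (253,
      70), (257, 25), (266, 30), (270, -30), (279, -70), (280, -65), (336, 35), (349, 90), (386,
      -55), (396, -110), (399, 30), (400, 25), (413, 15), (426, 65)],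
      [(36, -30), (85, -30), (98, -30), (108, 30), (112, -30), (121, 45), (127, -30), (134,
      -135), (138, 165), (140, -30), (252, 45), (265, -60), (278, 45), (282, -30), (348, 30),
      (385, 30), (398, 15), (408, -105), (421, 90)],
      [],
      [(24, -75), (37, 15), (62, 280), (72, 220), (86, 15), (96, 75), (99, 15), (109, 15), (113,
      155), (115, 15), (128, 15), (132, -145), (136, 15), (216, -40), (240, -70), (253, -70),
      (257, -25), (266, -60), (270, 30), (279, 130), (280, 65), (336, -35), (349, -90), (386,
      85), (396, 140), (399, -60), (400, -25), (413, -15), (426, -65)]],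
    [[],
      [],
      [(24, 75), (37, -15), (62, -50), (72, -140), (86, -15), (96, -75), (99, -15), (109, -45),
      (113, 65), (115, -15), (128, -15), (132, 65), (136, -15), (216, -40), (240, -40), (253,
      20), (257, 35), (266, -30), (270, 60), (279, 10), (280, -55), (336, 115), (349, 90), (386,
      25), (396, 50), (399, -30), (400, 35), (413, -75), (426, 55)],
      [],
      [(110, 20), (114, -20), (137, -20), (241, 20), (258, -10), (268, -10), (277, 20), (281,
      10), (397, -20), (401, 10), (410, 20), (414, 10), (424, 10)],
      [(24, -75), (37, 15), (62, 140), (72, 200), (86, 15), (96, 75), (99, 15), (109, 15), (113,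
      55), (115, 15), (128, 15), (132, -125), (136, 15), (216, -20), (240, -20), (253, -50),
      (257, -35), (279, 50), (280, 55), (336, -55), (349, -90), (386, 35), (396, 70), (400, -35),
      (413, 15), (426, -55)],
      [(36, 45), (85, 45), (98, 45), (108, -45), (112, 45), (121, -60), (127, 45), (134, 195),
      (138, -240), (140, 45), (205, 15), (252, -60), (265, 90), (269, -15), (278, -45), (282,
      30), (348, -45), (361, -15), (385, -45), (398, -15), (408, 150), (411, 15), (412, -15),
      (421, -135), (425, 15)],
      [(110, -20), (114, 20), (137, 20), (241, -20), (258, 10), (268, 10), (277, -20), (281,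
      -10), (397, 20), (401, -10), (410, 10), (414, -10), (424, -10)],
      [(24, 75), (37, -15), (62, -200), (72, -200), (86, -15), (96, -75), (99, -15), (109, -15),
      (113, -115), (115, -15), (128, -15), (132, 125), (136, -15), (216, 50), (240, 50), (253,
      50), (257, 35), (266, 30), (270, -30), (279, -80), (280, -55), (336, 25), (349, 90), (386,
      -65), (396, -100), (399, 30), (400, 35), (413, 15), (426, 55)],
      [],
      [(73, 30), (97, 30), (101, -30), (110, -10), (114, 10), (137, -20), (228, 30), (241, -10),
      (258, -10), (268, -10), (277, -40), (281, 10), (384, -30), (397, 10), (401, 10), (410,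
      -10), (414, 10), (424, 10)]]]
  W := [[[],
      [],
      [],
      [],
      [[(276, 30)],
       [(108, 30), (121, 30), (264, -30), (408, 30)],
       [(109, 30), (122, 30), (265, -30)]],
      [[],
       [(133, -30)]],
      [[],
       [],
       [(120, 30), (266, 30), (276, -30)]],
      [],
      [[],
       [],
       [],
       [],
       [],
       [],
       [(97, -30), (110, -30), (120, 30), (133, -30), (253, 30), (266, 30), (276, -30)]],
      [[],
       [],
       [],
       [(133, 30), (253, 30)]],
      [[(96, -30)],
       [],
       [(121, 30), (134, 30), (254, -30), (264, -30), (277, -30)],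
       [],
       [(265, -30)],
       [(120, -30), (276, 30)],
       [(108, 30), (121, 30), (134, 30), (254, -30), (264, -60), (277, -30), (408, 30)]],
      [[],
       [],
       [],
       [(134, 30)]]],
    [[],
      [],
      [],
      [],
      [[(420, 30)],
       [(121, 30), (134, 30), (264, -30), (277, -30), (421, 30)]],
      [[(96, 30), (109, 30), (132, 30), (252, -30), (396, 30)]],
      [],
      [],
      [[],
       [],
       [(110, 30), (120, -30), (133, -30), (253, -30), (266, -30), (276, 30)]],
      [[],
       [],
       [(109, -30)]],
      [[(132, 30)]],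
      [[(108, 30)]]],
    [[],
      [],
      [],
      [],
      [[],
       [(409, -30)]],
      [],
      [],
      [[(97, -30), (110, -30), (120, 30), (133, -30), (240, 30), (253, 30), (266, 30), (276, 30)],
       [(108, 60), (121, 60), (241, 30), (264, -60), (408, 60)]],
      [],
      [[],
       [],
       [],
       [],
       [],
       [],
       [(397, 30)]],
      [[],
       [(108, -30), (408, -30)]],
      [[(96, -30), (252, 30)],
       [],
       [(121, 30), (134, 30), (264, -30), (277, -30)],
       [(109, 30), (122, 30), (265, -30), (278, -30)]]]]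

theorem ce0_ck : ce0.ckW bs dl 12 0 = true := by decide +kernel

/-- certificate -/
def ce1 : Cer where
  den := 1
  N := [[],
    [],
    [[(36, 1), (85, 1), (98, -2)],
      [(37, 1), (49, 1), (86, 1), (99, 2), (100, -2), (135, 1), (136, -1), (240, 1), (253, 1),
      (266, -2), (276, 1), (373, 1), (386, -1), (396, -1), (409, 3)],
      [],
      [],
      [],
      [],
      [],
      [],
      [],
      [],
      [],
      []],
    [[(60, 1), (84, 1), (97, 1), (110, 1), (114, -3), (123, 3), (124, -3), (133, 1), (137, 3)],
      [(85, 1), (98, -1)],
      [(49, 1), (86, 1), (99, 2), (100, -2), (135, 1), (136, -1), (240, 1), (253, 1), (266, -2),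
      (276, 1), (373, 1), (386, -1), (396, -1), (409, 3)],
      [],
      [],
      [],
      [],
      [],
      [],
      [],
      [],
      []],
    [[(60, -1), (133, 1)],
      [],
      [(49, -1)],
      [(50, -1), (73, -1), (133, 1)],
      [],
      [],
      [],
      [],
      [],
      [],
      [],
      []],
    [[(49, 1), (253, 1), (266, -1), (396, -1), (409, 1)],
      [],
      [(61, -1)],
      [(49, 1), (99, 1), (100, -1), (122, -1), (135, 1), (136, -1), (240, 1), (266, -1), (276,
      1), (373, 1), (396, -1), (399, -1), (409, 2)],
      [],
      [],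
      [],
      [],
      [],
      [],
      [],
      []],
    [[],
      [],
      [(73, -1), (133, 1)],
      [(61, -3), (121, 1), (138, -1), (242, 1), (255, -1), (265, 1), (385, -1), (398, 1), (421,
      -1)],
      [],
      [],
      [],
      [],
      [],
      [],
      [],
      []],
    [[(49, -3), (72, 1), (96, 1), (99, 1), (100, -1), (253, -1), (266, 1), (373, 1), (386, -1),
      (396, 1), (409, -1)],
      [(97, 1), (110, 1), (114, -2), (123, 2), (124, -2), (133, 1), (137, 2)],
      [],
      [(99, 2), (100, -2), (135, 1), (136, -1), (240, 1), (253, 1), (266, -2), (276, 1), (373,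
      1), (386, -1), (396, -1), (409, 3)],
      [],
      [(101, 1), (114, -1), (123, 1), (124, -1), (137, 1)],
      [(108, -1), (134, 2), (138, -2), (372, 1), (385, -1), (408, 2), (421, -2)],
      [],
      [],
      [],
      [],
      []],
    [[(61, -1), (108, 1), (121, 3), (134, -1), (138, 1), (252, 1), (265, -1), (385, -1), (398,
      1), (408, -2), (421, 1)],
      [(49, -2), (99, 1), (100, -1), (373, 1), (386, -1)],
      [(110, 1), (114, -1), (123, 1), (124, -1), (137, 1)],
      [],
      [],
      [(99, 1), (100, -1), (135, 1), (136, -1), (240, 1), (253, 1), (266, -2), (276, 1), (373,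
      1), (386, -1), (396, -1), (409, 3)],
      [],
      [(99, 1), (100, -2), (135, 1), (136, -1), (240, 1), (253, 1), (266, -2), (276, 1), (373,
      1), (386, -1), (396, -1), (409, 3)],
      [],
      [],
      [],
      []],
    [[(50, 1), (60, 1), (73, 1), (110, 1), (114, -1), (123, 1), (124, -1), (133, -2), (137, 1),
      (384, 1), (420, 1), (423, -1)],
      [(61, -1), (121, 3), (252, 1), (265, -1), (385, -1), (398, 1), (408, -1)],
      [],
      [],
      [(123, -1), (124, 1), (137, -1)],
      [(121, 1), (134, -1), (138, 1), (252, 1), (265, -1), (408, -1), (421, 1)],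
      [(49, 1), (253, 1), (266, -1), (409, 1)],
      [(61, -1), (98, 1), (111, -1), (121, 2), (134, -1), (252, 1), (265, -1), (385, -1), (398,
      1), (408, -1)],
      [(99, 1), (100, -2), (115, -1), (122, -1), (136, -1), (240, 1), (253, 1), (266, -2), (276,
      1), (373, 1), (386, -1), (396, -1), (409, 3)],
      [],
      [],
      []],
    [[],
      [],
      [(61, -1), (121, 2), (252, 1), (265, -1), (385, -1), (398, 1), (408, -1)],
      [(122, -1)],
      [(122, -1), (409, 1)],
      [(137, 1)],
      [],
      [(114, 1), (123, -2), (124, 1), (137, -1)],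
      [(61, -1), (98, 2), (111, -1), (121, 2), (127, -1), (134, -1), (252, 1), (265, -1), (385,
      -1), (398, 1), (408, -1)],
      [],
      [],
      []],
    [[(134, 1), (138, -1), (408, 1), (421, -1)],
      [],
      [],
      [(61, -1), (121, 2), (134, -1), (252, 1), (265, -1), (385, -1), (398, 1), (408, -1)],
      [(138, -1)],
      [(135, -1), (136, 1), (409, -1)],
      [],
      [(122, -1), (135, -1)],
      [(114, 2), (123, -3), (124, 2), (137, -2), (139, -1)],
      [],
      [],
      []]]
  A := [[[],
      [],
      [(98, 1)],
      [(114, 1), (123, -1), (124, 1), (137, -1)],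
      [],
      [],
      [],
      [],
      [],
      [(133, 1)],
      [(49, -1), (72, 1), (253, -1), (266, 1), (396, 1), (409, -1)]],
    [[],
      [],
      [(61, -1), (121, -2), (242, 1), (252, -1), (265, 1), (385, 1), (398, -1), (408, 1)],
      [],
      [(49, -1), (266, 1), (409, -1)],
      [(61, -1), (121, 2), (252, 1), (385, -1), (398, 1), (408, -1)],
      [(73, -1), (123, 1), (124, -1), (133, 1), (137, 1), (254, 1)],
      [],
      [],
      [(60, -1), (73, 1), (123, -1), (124, 1), (137, -2), (254, -1), (264, 1)],
      [(49, -1), (135, 1), (136, -1), (253, -1), (266, 1), (276, 1), (396, 1)]],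
    [[],
      [],
      [(49, 2), (99, 1), (100, -1), (135, 1), (136, -1), (240, 1), (253, 1), (266, -2), (276, 1),
      (373, 1), (396, -1), (409, 3)],
      [(61, 1), (121, -3), (252, -1), (265, 1), (385, 2), (398, -1), (408, 1)],
      [],
      [],
      [(61, -1), (121, 2), (134, -1), (138, 1), (252, 1), (265, -1), (385, -1), (398, 1), (408,
      -1), (421, 1)],
      [(50, -1), (73, -1), (133, 1), (423, 1)],
      [],
      [],
      [(50, 1), (60, -1), (73, 1), (420, 1), (423, -1)]]]
  W := [[[],
      [],
      [],
      [],
      [[(276, 1)]],
      [[],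
       [],
       [(108, 1), (121, 1), (241, 1), (254, 1), (264, -1), (277, 1)]],
      [[],
       [],
       [(110, 1), (133, 1), (253, -1)]],
      [],
      [[],
       [],
       [],
       [],
       [],
       [],
       [(240, -1), (276, -2)]],
      [[],
       [(241, -1)],
       [],
       [],
       [(253, -1)],
       [(108, -1), (121, -1), (241, -1), (264, 1)]],
      [[(252, -1), (265, -1), (278, -1)],
       [],
       [],
       [],
       [],
       [(120, -1), (276, 1)],
       [(121, -1)]],
      [[(121, 1), (264, -1)]]],
    [[],
      [],
      [],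
      [],
      [],
      [],
      [],
      [[(96, 1), (109, 1), (132, 1), (252, -1), (265, -1), (278, -1)],
       [(97, 1), (240, -1), (276, -2)]],
      [[],
       [(109, 1), (132, 1)]],
      [],
      [[],
       [],
       [],
       [(122, -1)]],
      [[],
       [(132, -1)],
       [(133, -1)],
       [(108, -1), (121, -1), (134, -1), (241, -1), (254, -1), (264, 1), (277, -1)]]],
    [[],
      [],
      [],
      [],
      [],
      [],
      [],
      [],
      [],
      [[],
       [(265, 1), (278, 1)]],
      [[],
       [],
       [(278, 1)],
       [(110, 1), (120, -1), (133, 1), (253, -1), (266, -1), (276, 1)]],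
      [[],
       [],
       [(277, -1)]]]]

theorem ce1_ck : ce1.ckW bs dl 12 1 = true := by decide +kernel

/-- certificate -/
def ce2 : Cer where
  den := 1
  N := [[],
    [],
    [[(36, 1), (48, -1), (85, 1), (98, 1), (111, 1), (112, -1), (125, 1), (134, 1), (138, -3),
      (408, -1)],
      [(37, 1), (72, 1), (86, 1), (99, 1), (132, -1), (266, 1), (396, 1), (409, -1)],
      [],
      [],
      [],
      [],
      [],
      [],
      [],
      [],
      [],
      []],
    [[(73, 1), (84, 1), (97, 1), (110, 1), (114, -3), (120, 1), (123, -3), (124, 3), (137, -3),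
      (241, 1), (254, -1), (277, 1), (384, -1), (397, 1), (420, -1)],
      [(48, -1), (85, 1), (98, 1), (111, 1), (112, -1), (125, 1), (134, 1), (138, -3), (408,
      -1)],
      [(72, 1), (86, 1), (99, 1), (132, -1), (266, 1), (396, 1), (409, -1)],
      [],
      [],
      [],
      [],
      [],
      [],
      [],
      [],
      []],
    [[(73, 1), (110, 2), (114, -2), (120, -1), (241, 1), (254, -1), (277, 1), (384, 1), (397,
      -1), (420, 1)],
      [],
      [(72, -1), (132, 1), (266, -1), (396, -1), (409, 1)],
      [],
      [],
      [],
      [],
      [],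
      [],
      [],
      [],
      []],
    [[(109, -1), (113, 1), (240, -1), (276, -1)],
      [],
      [(48, -1), (61, -1), (408, -1)],
      [],
      [],
      [],
      [],
      [],
      [],
      [],
      [],
      []],
    [[(408, -1)],
      [(72, -1), (109, -1), (113, 1), (132, 1), (240, -1), (276, -1)],
      [(110, 1), (114, -1), (241, 1), (254, -1), (277, 1)],
      [],
      [],
      [],
      [],
      [],
      [],
      [],
      [],
      []],
    [[(96, 1), (109, 1), (126, -2), (132, 1)],
      [(73, 1), (97, 1), (110, 2), (114, -3), (123, -2), (124, 2), (137, -2), (241, 1), (254,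
      -1), (277, 1)],
      [(98, 1), (111, 1), (112, -1), (125, 1), (134, 1), (138, -3)],
      [(99, 1)],
      [],
      [],
      [],
      [],
      [],
      [],
      [],
      []],
    [[(48, 2), (108, 1), (121, 1), (138, -2), (408, 2)],
      [(109, 1), (126, -1)],
      [(110, 1), (114, -1), (123, -1), (124, 1), (137, -1)],
      [(48, 1), (111, 1), (112, -1), (125, 1), (134, 1), (138, -3), (408, 1)],
      [],
      [(72, -1), (113, 1), (126, -1), (132, 1), (135, 1), (136, -1), (396, -1), (409, 1)],
      [],
      [],
      [],
      [],
      [],
      []],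
    [[(73, -1), (110, -1), (114, 1), (120, 1), (241, -1), (254, 1), (277, -1)],
      [(48, 1), (121, 1), (138, -1), (408, 1)],
      [],
      [],
      [],
      [(125, 1), (138, -1)],
      [],
      [(112, -1), (125, 1), (138, -1)],
      [(72, 1), (115, -1), (126, 2), (132, -1), (135, -1), (396, 1), (409, -1)],
      [],
      [],
      []],
    [[],
      [],
      [],
      [(72, 1), (132, -1), (396, 1), (409, -1)],
      [],
      [(123, -1), (124, 1)],
      [],
      [(114, 1), (124, -1), (137, 1)],
      [(112, -1), (125, 1), (127, -1)],
      [],
      [],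
      []],
    [[],
      [],
      [],
      [(48, -1), (134, -1), (138, 1), (408, -1)],
      [],
      [(72, 1), (132, -1), (135, -1), (136, 1), (396, 1), (409, -1)],
      [(123, -1), (124, 1), (137, -1)],
      [(72, 1), (126, 1), (132, -1), (135, -1), (396, 1), (409, -1)],
      [(114, 2), (123, 1), (124, -2), (137, 2), (139, -1)],
      [],
      [],
      []]]
  A := [[[],
      [],
      [],
      [(114, 1), (123, 1), (124, -1), (137, 1)],
      [(126, 1)],
      [(138, 1)],
      [],
      [],
      [(48, -1), (408, -1)],
      [(73, 1), (110, 1), (114, -1), (241, 1), (254, -1), (277, 1)],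
      [(132, 1)]],
    [[],
      [],
      [],
      [(110, 1), (114, -1), (241, 1), (277, 1)],
      [],
      [(61, 1), (134, -1), (138, 1), (278, 1)],
      [],
      [],
      [],
      [(123, 1), (124, -1), (137, 1), (277, 1)],
      [(72, -1), (109, 1), (113, -1), (132, 1), (135, 1), (136, -1), (240, 1), (276, 2), (396,
      -1), (409, 1)]],
    [[],
      [],
      [],
      [(48, -1), (61, -1), (125, 1), (138, -1), (398, 1), (408, -1)],
      [(397, 1)],
      [(109, -1), (113, 1), (240, -1), (276, -1), (396, 1)],
      [],
      [],
      [],
      [],
      [(73, 1), (110, 2), (114, -2), (120, -1), (123, 1), (124, -1), (137, 1), (241, 1), (254,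
      -1), (277, 1), (384, 1), (397, -1), (420, 2)]]]
  W := [[[],
      [],
      [],
      [],
      [[],
       [(108, 1), (121, 1), (264, -1)]],
      [[(252, 1)]],
      [],
      [],
      [],
      [],
      [[],
       [],
       [(264, 1)]],
      [[],
       [(109, -1)]]],
    [[],
      [],
      [],
      [],
      [],
      [],
      [],
      [],
      [],
      [[(120, 1), (133, 1)],
       [(108, -1)]],
      [[(109, 1), (132, 1), (252, 1)],
       [(133, 1)]],
      []],
    [[],
      [],
      [],
      [],
      [],
      [],
      [],
      [],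
      [[],
       [(253, 1), (276, 1)]],
      [],
      [[],
       [],
       [(109, 1), (265, -1)]],
      [[],
       [(276, -1)],
       [(108, 1), (121, 1), (264, -1), (277, -1)]]]]

theorem ce2_ck : ce2.ckW bs dl 12 2 = true := by decide +kernel

/-- certificate -/
def ce3 : Cer where
  den := 1
  N := [[],
    [],
    [],
    [[(60, 1), (73, 2), (84, 1), (97, 1), (114, -2), (241, 2), (254, -2), (277, 2)],
      [(85, 1), (98, 1)],
      [],
      [],
      [],
      [],
      [],
      [],
      [],
      [],
      [],
      []],
    [[(60, -1)],
      [],
      [(266, -1)],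
      [],
      [],
      [],
      [],
      [],
      [],
      [],
      [],
      []],
    [[],
      [],
      [(61, -1)],
      [],
      [],
      [],
      [],
      [],
      [],
      [],
      [],
      []],
    [[],
      [],
      [(73, -1)],
      [],
      [],
      [],
      [],
      [],
      [],
      [],
      [],
      []],
    [[(72, -1), (96, 1), (109, 1), (122, -2), (132, 2), (135, -1), (136, 1), (266, -1), (396,
      -2), (409, 1), (422, 1)],
      [(73, 1), (97, 1), (114, -1), (241, 1), (254, -1), (277, 1)],
      [(98, 1)],
      [],
      [],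
      [],
      [],
      [],
      [],
      [],
      [],
      []],
    [[(48, 1), (108, 1), (121, 1), (134, -2)],
      [(72, -1), (109, 1), (122, -1), (132, 1), (135, -1), (136, 1), (266, -1), (396, -1), (422,
      1)],
      [],
      [],
      [(111, -1), (112, 1), (125, -1), (134, 3), (138, -1)],
      [(113, 1), (122, -1), (135, 1), (136, -1)],
      [(60, -1), (73, 2), (110, 1), (114, -1), (123, -1), (124, 1), (241, 2), (254, -2), (264,
      1), (277, 1)],
      [],
      [],
      [],
      [],
      []],
    [[(60, 1), (73, -1), (241, -1), (254, 1), (277, -1), (384, 1), (397, -1), (420, 1)],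
      [(121, 1), (134, -1)],
      [],
      [],
      [(73, 1), (110, 1), (114, -1), (123, -1), (124, 1), (241, 1), (254, -1), (277, 1)],
      [(125, 1), (134, -2), (138, 1)],
      [],
      [(111, -1), (134, 1)],
      [],
      [],
      [],
      []],
    [[(72, 1), (132, -1), (135, 1), (136, -1), (266, 1), (396, 2), (409, -1), (422, -1)],
      [],
      [],
      [],
      [],
      [],
      [(134, -1), (138, 1)],
      [(110, 1), (123, -1)],
      [],
      [],
      [],
      []],
    [[(48, -1)],
      [(72, 1), (132, -1), (135, 1), (136, -1), (266, 1), (396, 1), (422, -1)],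
      [],
      [],
      [],
      [(72, -1), (132, 1), (135, -1), (136, 1), (396, -1), (409, 1)],
      [(60, 1), (264, -1), (277, 1)],
      [(122, 1), (135, -1)],
      [],
      [],
      [],
      []]]
  A := [[[],
      [],
      [],
      [(73, -1), (114, 1), (241, -1), (254, 1), (277, -1)],
      [(72, 1), (122, 1), (132, -1), (396, 1), (409, -1)],
      [(134, 1)],
      [(73, 1), (110, 1), (114, -1), (241, 1), (254, -1), (277, 1)],
      [(72, -1), (132, 1), (396, -1), (409, 1)],
      [],
      [],
      [(72, 1)]],
    [[],
      [],
      [],
      [(60, 1), (73, -2), (110, -1), (114, 1), (123, 1), (124, -1), (241, -1), (254, 2), (264,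
      -1), (277, -1)],
      [],
      [(134, 1), (138, -1), (265, 1)],
      [(60, -1), (264, 1)],
      [],
      [],
      [],
      [(72, 2), (132, -2), (135, 2), (136, -2), (266, 1), (276, 1), (396, 2), (409, -1), (422,
      -1)]],
    [[],
      [],
      [],
      [(111, 1), (112, -1), (121, -1), (125, 1), (134, -2), (138, 1), (385, 1)],
      [],
      [],
      [(421, 1)],
      [(73, -1), (110, -1), (114, 1), (123, 1), (124, -1), (241, -1), (254, 1), (277, -1), (397,
      1)],
      [(72, -1), (132, 1), (135, -1), (136, 1), (266, -1), (396, -1), (409, 1), (422, 1)],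
      [],
      [(60, -2), (73, 1), (110, 1), (114, -1), (123, -1), (124, 1), (241, 1), (254, -1), (264,
      1), (397, -1), (420, 1)]]]
  W := [[[],
      [],
      [],
      [],
      [[],
       [(277, 1)]],
      [],
      [],
      [],
      [],
      [],
      [[(252, -1)],
       [],
       [],
       [],
       [],
       [],
       [(264, -1)]],
      [[],
       [(109, -1)],
       [],
       [],
       [],
       [(109, -1), (132, -1)]]],
    [[],
      [],
      [],
      [],
      [],
      [],
      [],
      [],
      [[(108, 1), (121, 1), (264, -1), (277, -1)]],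
      [[(120, 1)],
       [(121, 1), (264, -1), (277, -1)]],
      [],
      [[],
       [],
       [(133, -1)]]],
    [[],
      [],
      [],
      [],
      [],
      [],
      [],
      [],
      [],
      [[],
       [],
       [(253, -1)]],
      [[(276, 1)],
       [],
       [(109, 1), (265, -1)]],
      []]]

theorem ce3_ck : ce3.ckW bs dl 12 3 = true := by decide +kernel

/-- certificate -/
def ce4 : Cer where
  den := 1
  N := [[],
    [],
    [],
    [[(84, 1), (97, 1), (110, -2), (133, 2)],
      [(85, 1), (98, 1), (252, -1), (265, 1)],
      [],
      [],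
      [],
      [],
      [],
      [],
      [],
      [],
      [],
      []],
    [[],
      [(252, 1), (265, -1)],
      [],
      [],
      [],
      [],
      [],
      [],
      [],
      [],
      [],
      []],
    [[(253, -1), (396, -1), (409, 1)],
      [],
      [],
      [],
      [],
      [],
      [],
      [],
      [],
      [],
      [],
      []],
    [[],
      [(253, -1)],
      [],
      [],
      [],
      [],
      [],
      [],
      [],
      [],
      [],
      []],
    [[(96, 1), (109, 1), (122, -2), (132, 1)],
      [(97, 1), (110, -1), (133, 1)],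
      [(98, 1)],
      [],
      [],
      [],
      [],
      [],
      [],
      [],
      [],
      []],
    [[(108, 1), (121, -1)],
      [(109, 1), (122, -1)],
      [],
      [],
      [],
      [],
      [],
      [],
      [],
      [],
      [],
      []],
    [[(120, 1), (133, -1)],
      [],
      [],
      [],
      [],
      [],
      [],
      [(111, -1), (121, 2), (134, -1)],
      [],
      [],
      [],
      []],
    [[],
      [],
      [],
      [],
      [],
      [(264, 1), (277, -1)],
      [],
      [(110, 1), (123, -1)],
      [],
      [],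
      [],
      []],
    [[],
      [],
      [],
      [(121, 1), (134, -1)],
      [(121, 1), (134, -1), (252, 1), (265, -1), (408, -1), (421, 1)],
      [(253, 1), (276, 1), (396, 1), (409, -1)],
      [],
      [(122, 1), (135, -1)],
      [],
      [],
      [],
      []]]
  A := [[[],
      [],
      [],
      [(110, 1)],
      [(122, 1)],
      [(121, 1)],
      [],
      [],
      [],
      [(133, 1)],
      [(132, 1)]],
    [[],
      [],
      [],
      [],
      [],
      [],
      [],
      [],
      [(252, 1)],
      [(277, 1)],
      []],
    [[],
      [],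
      [],
      [],
      [(397, 1)],
      [],
      [(408, 1)],
      [],
      [(253, -1), (409, 1)],
      [],
      [(420, 1)]]]
  W := [[[],
      [],
      [],
      [],
      [],
      [],
      [],
      [],
      [],
      [],
      [],
      []],
    [[],
      [],
      [],
      [],
      [],
      [],
      [],
      [],
      [],
      [],
      [],
      []],
    [[],
      [],
      [],
      [],
      [],
      [],
      [],
      [],
      [],
      [],
      [],
      []]]

theorem ce4_ck : ce4.ckW bs dl 12 4 = true := by decide +kernel

/-- certificate -/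
def ce5 : Cer where
  den := 1
  N := [[],
    [],
    [],
    [],
    [],
    [],
    [],
    [[(96, 1), (109, 1), (132, 1), (396, -1)],
      [(97, 1), (110, -1), (133, 1)],
      [],
      [],
      [],
      [],
      [],
      [],
      [],
      [],
      [],
      []],
    [[(108, 1), (121, -1)],
      [(109, 1), (253, -1)],
      [],
      [],
      [],
      [],
      [],
      [],
      [],
      [],
      [],
      []],
    [[(120, 1), (133, -1)],
      [],
      [],
      [],
      [(397, 1)],
      [],
      [],
      [],
      [],
      [],
      [],
      []],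
    [[(396, 1)],
      [],
      [],
      [(122, -1)],
      [(122, -1), (253, -1), (409, 1)],
      [(264, 1), (277, -1), (420, 1)],
      [(252, -1), (265, 1)],
      [],
      [],
      [],
      [],
      []],
    [[],
      [(253, 1)],
      [],
      [(121, 1), (134, -1)],
      [(121, 1), (134, -1), (252, -1), (265, 1), (408, -1), (421, 1)],
      [(253, 1), (276, 1)],
      [(420, 1)],
      [],
      [],
      [],
      [],
      []]]
  A := [[[],
      [],
      [],
      [(110, 1)],
      [],
      [(121, 1)],
      [],
      [],
      [],
      [(133, 1)],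
      [(132, 1), (253, 1), (396, -1)]],
    [[],
      [],
      [],
      [],
      [],
      [],
      [(277, 1), (420, -1)],
      [],
      [(252, 1)],
      [],
      []],
    [[],
      [],
      [],
      [],
      [],
      [],
      [(252, 1), (265, -1), (408, 1)],
      [],
      [],
      [],
      []]]
  W := [[[],
      [],
      [],
      [],
      [],
      [],
      [],
      [],
      [],
      [],
      [],
      []],
    [[],
      [],
      [],
      [],
      [],
      [],
      [],
      [],
      [],
      [],
      [],
      []],
    [[],
      [],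
      [],
      [],
      [],
      [],
      [],
      [],
      [],
      [],
      [],
      []]]

theorem ce5_ck : ce5.ckW bs dl 12 5 = true := by decide +kernel

/-- certificate -/
def ce6 : Cer where
  den := 1
  N := [[],
    [],
    [],
    [],
    [],
    [],
    [],
    [[(96, 1), (109, 1), (132, 1)],
      [(97, 1), (110, -1)],
      [],
      [],
      [],
      [],
      [],
      [],
      [],
      [],
      [],
      []],
    [[],
      [(109, 1)],
      [],
      [],
      [],
      [],
      [],
      [],
      [],
      [],
      [],
      []],
    [[(120, 1), (133, 1)],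
      [(121, 1)],
      [],
      [],
      [],
      [],
      [],
      [],
      [],
      [],
      [],
      []],
    [[],
      [(133, 1)],
      [],
      [(122, -1)],
      [],
      [],
      [],
      [],
      [],
      [],
      [],
      []],
    [[(108, 1), (121, 1)],
      [],
      [],
      [(134, -1)],
      [],
      [],
      [],
      [],
      [],
      [],
      [],
      []]]
  A := [[[],
      [],
      [],
      [(110, 1)],
      [],
      [],
      [],
      [],
      [],
      [],
      [(132, 1)]],
    [],
    []]
  W := [[[],
      [],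
      [],
      [],
      [],
      [],
      [],
      [],
      [],
      [],
      [],
      []],
    [[],
      [],
      [],
      [],
      [],
      [],
      [],
      [],
      [],
      [],
      [],
      []],
    [[],
      [],
      [],
      [],
      [],
      [],
      [],
      [],
      [],
      [],
      [],
      []]]

theorem ce6_ck : ce6.ckW bs dl 12 6 = true := by decide +kernel

/-- certificate -/
def ce7 : Cer where
  den := 1
  N := [[],
    [],
    [],
    [],
    [],
    [],
    [],
    [],
    [],
    [[(120, 1)],
      [],
      [],
      [],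
      [],
      [],
      [],
      [],
      [],
      [],
      [],
      []],
    [[],
      [],
      [(108, 1), (121, -1)],
      [],
      [],
      [],
      [],
      [],
      [],
      [],
      [],
      []],
    [[],
      [],
      [(133, -1)],
      [],
      [],
      [],
      [],
      [],
      [],
      [],
      [],
      []]]
  A := [[[],
      [],
      [],
      [],
      [(109, 1)],
      [],
      [],
      [],
      [(108, 1)],
      [],
      [(132, 1)]],
    [],
    []]
  W := [[[],
      [],
      [],
      [],
      [],
      [],
      [],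
      [],
      [],
      [],
      [],
      []],
    [[],
      [],
      [],
      [],
      [],
      [],
      [],
      [],
      [],
      [],
      [],
      []],
    [[],
      [],
      [],
      [],
      [],
      [],
      [],
      [],
      [],
      [],
      [],
      []]]

theorem ce7_ck : ce7.ckW bs dl 12 7 = true := by decide +kernel

/-- certificate -/
def ce8 : Cer where
  den := 1
  N := [[],
    [],
    [],
    [],
    [],
    [],
    [],
    [],
    [],
    [[(120, 1)],
      [],
      [],
      [],
      [],
      [],
      [],
      [],
      [],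
      [],
      [],
      []],
    [[],
      [],
      [(108, 1), (121, -1)],
      [],
      [],
      [],
      [],
      [],
      [],
      [],
      [],
      []],
    [[],
      [],
      [(133, -1)],
      [],
      [],
      [],
      [],
      [],
      [],
      [],
      [],
      []]]
  A := [[[],
      [],
      [],
      [],
      [(109, 1)],
      [],
      [],
      [],
      [(108, 1)],
      [],
      [(132, 1)]],
    [],
    []]
  W := [[[],
      [],
      [],
      [],
      [],
      [],
      [],
      [],
      [],
      [],
      [],
      []],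
    [[],
      [],
      [],
      [],
      [],
      [],
      [],
      [],
      [],
      [],
      [],
      []],
    [[],
      [],
      [],
      [],
      [],
      [],
      [],
      [],
      [],
      [],
      [],
      []]]

theorem ce8_ck : ce8.ckW bs dl 12 8 = true := by decide +kernel

/-- exactness certificates -/
def exs : List TowerCk.EC := [
  ⟨1, [],
    []⟩,
  ⟨1, [],
    []⟩,
  ⟨1, [],
    []⟩,
  ⟨1, [],
    []⟩,
  ⟨1, [],
    []⟩,
  ⟨1, [],
    []⟩,
  ⟨1, [],
    []⟩,
  ⟨1, [[[],
      [],
      [],
      [],
      [(13, 1)],
      [(24, -1)],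
      [(12, 1)]],
    [[],
      [],
      [(12, -1), (25, -1)]],
    []],
    []⟩,
  ⟨1, [],
    []⟩,
  ⟨1, [[],
    [[],
      [],
      [],
      [(26, -1)]],
    [[],
      [],
      [],
      [(14, 1)]]],
    []⟩,
  ⟨1, [[],
    [[],
      [],
      [],
      [],
      [(1, -1)],
      [],
      [(0, -1)]],
    []],
    []⟩]

theorem exs_ck : allb (fun c => (nth ⟨1, [], []⟩ exs c).ckW bs dl 12 c) (10 + 1) = true := by
  decide +kernel

/-- all certificates -/
theorem cert {k : Type*} [Field k] [CharZero k] (κ : ℕ) :
    CertW (fun x : Fin 12 => bs.w x) (fun i => nth 0 dl i) (Mt k 12 (nth [] bs.pw 1))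
      (XX k bs 12) κ := by
  have hB : bs.ckPow 12 = true := by
    have h := bs_ck
    simp only [Base.ckW, Bool.and_eq_true] at h
    exact h.1.1
  rcases Nat.lt_or_ge κ 9 with h | h
  · interval_cases κ
    · exact certW_of_ck bs dl (by norm_num) hB ce0 ce0_ck
    · exact certW_of_ck bs dl (by norm_num) hB ce1 ce1_ck
    · exact certW_of_ck bs dl (by norm_num) hB ce2 ce2_ck
    · exact certW_of_ck bs dl (by norm_num) hB ce3 ce3_ck
    · exact certW_of_ck bs dl (by norm_num) hB ce4 ce4_ck
    · exact certW_of_ck bs dl (by norm_num) hB ce5 ce5_ck
    · exact certW_of_ck bs dl (by norm_num) hB ce6 ce6_ck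
    · exact certW_of_ck bs dl (by norm_num) hB ce7 ce7_ck
    · exact certW_of_ck bs dl (by norm_num) hB ce8 ce8_ck
  · have h1 : ∀ x : Fin 12, bs.w x ≤ 10 := by decide
    have h2 : ∀ i : Fin 3, 2 ≤ nth 0 dl i := by decide
    refine certW_top fun i x => ?_
    have h3 := h1 x
    have h4 := h2 i
    show bs.w x < nth 0 dl i + κ
    omega

/-- **Levels of sizes `2, 0, 1, 0, 1, 3, 1, 0, 1, 0, 3`, degrees `2, 5, 5`.** -/
theorem cl {k : Type*} [Field k] [CharZero k] {ι : Type*} [Fintype ι] [DecidableEq ι] (w : ι → ℕ)
    (hle : ∀ x, w x ≤ 10) (hn : ∀ a : Fin 11, Fintype.card {x // w x = (a : ℕ)} =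
      ![2, 0, 1, 0, 1, 3, 1, 0, 1, 0, 3] a)
    {T : Fin 3 → Matrix ι ι k} (hT : ∀ i j, T i * T j = T j * T i)
    (hlow : ∀ i x y, w x < w y + ![2, 5, 5] i → T i x y = 0)
    (eT : ∀ a ≤ 10, EXw w ![2, 5, 5] T a) : Cl T := by
  have hd : (fun i : Fin 3 => nth 0 dl i) = ![2, 5, 5] := by decide
  refine TowerCk.cl_towerW_ck (dl := dl) (by norm_num) (by decide) bs_ck cert 10 (by decide)
    (TowerCk.exw_all bs dl (by norm_num) exs 10 exs_ck) w hle ?_ hT ?_ (by rw [hd]; exact eT)
  · intro a ha
    have h : ∀ a : Fin 11, Fintype.card {x : Fin 12 // bs.w x = (a : ℕ)} =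
        ![2, 0, 1, 0, 1, 3, 1, 0, 1, 0, 3] a := by decide
    exact (hn ⟨a, by omega⟩).trans (h ⟨a, by omega⟩).symm
  · intro i x y hxy
    refine hlow i x y ?_
    rw [← hd]
    exact hxy

end Pool.Agent.Lib.D13.TW6321
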