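import Pool.Agent.Lib.D13.TowerWCk

/-!
# MP_5dcbc3_ag: density certificates, type 7221, family (2331111|3411111), d = 12, degrees (1,3,3)
-/

namespace Pool.Agent.Lib.D13.TW7221

open Refl Pool.Agent.Lib.Q5dc

/-- the base point -/
def bs : Base where
  lev := [0, 1, 2, 3, 3, 3, 3, 4, 5, 6, 6, 6]
  pw := [[[(0, 1)], [(1, 1)], [(2, 1)], [(3, 1)], [(4, 1)], [(5, 1)], [(6, 1)], [(7, 1)], [(8, 1)],
      [(9, 1)], [(10, 1)], [(11, 1)]],
    [[], [(0, 1)], [(1, 1)], [(2, 1)], [(6, 1), (11, -1)], [(4, -1)], [(5, 1)], [(3, 1), (4,
      1)], [(7, 1)], [(8, 1), (11, 1)], [(9, 1)], [(10, 1)]],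
    [[], [], [(0, 1)], [(1, 1)], [(5, 1), (10, -1)], [(6, -1), (11, 1)], [(4, -1)], [(2, 1),
      (6, 1), (11, -1)], [(3, 1), (4, 1)], [(7, 1), (10, 1)], [(8, 1), (11, 1)], [(9, 1)]],
    [[], [], [], [(0, 1)], [(4, -1), (9, -1)], [(5, -1), (10, 1)], [(6, -1), (11, 1)], [(1, 1),
      (5, 1), (10, -1)], [(2, 1), (6, 1), (11, -1)], [(3, 1), (4, 1), (9, 1)], [(7, 1), (10, 1)],
      [(8, 1), (11, 1)]],
    [[], [], [], [], [(6, -1), (8, -1)], [(4, 1), (9, 1)], [(5, -1), (10, 1)], [(0, 1), (4,
      -1), (9, -1)], [(1, 1), (5, 1), (10, -1)], [(2, 1), (6, 1), (8, 1)], [(3, 1), (4, 1), (9,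
      1)], [(7, 1), (10, 1)]],
    [[], [], [], [], [(5, -1), (7, -1)], [(6, 1), (8, 1)], [(4, 1), (9, 1)], [(6, -1), (8,
      -1)], [(0, 1), (4, -1), (9, -1)], [(1, 1), (5, 1), (7, 1)], [(2, 1), (6, 1), (8, 1)], [(3,
      1), (4, 1), (9, 1)]],
    [[], [], [], [], [(3, -1)], [(5, 1), (7, 1)], [(6, 1), (8, 1)], [(5, -1), (7, -1)], [(6,
      -1), (8, -1)], [(0, 1), (3, 1)], [(1, 1), (5, 1), (7, 1)], [(2, 1), (6, 1), (8, 1)]],
    [[], [], [], [], [(2, -1)], [(3, 1)], [(5, 1), (7, 1)], [(3, -1)], [(5, -1), (7, -1)], [(2,
      1)], [(0, 1), (3, 1)], [(1, 1), (5, 1), (7, 1)]],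
    [[], [], [], [], [(1, -1)], [(2, 1)], [(3, 1)], [(2, -1)], [(3, -1)], [(1, 1)], [(2, 1)],
      [(0, 1), (3, 1)]],
    [[], [], [], [], [(0, -1)], [(1, 1)], [(2, 1)], [(1, -1)], [(2, -1)], [(0, 1)], [(1, 1)],
      [(2, 1)]],
    [[], [], [], [], [], [(0, 1)], [(1, 1)], [(0, -1)], [(1, -1)], [], [(0, 1)], [(1, 1)]],
    [[], [], [], [], [], [], [(0, 1)], [], [(0, -1)], [], [], [(0, 1)]]]
  xc := [[(1, 1)], [(1, 1), (4, -1), (7, 1), (10, -1)], [(2, 1), (5, -1), (8, 1), (11, -1)]]
  X := [[[], [(0, 1)], [(1, 1)], [(2, 1)], [(6, 1), (11, -1)], [(4, -1)], [(5, 1)], [(3, 1), (4,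
      1)], [(7, 1)], [(8, 1), (11, 1)], [(9, 1)], [(10, 1)]],
    [[], [(0, 1)], [(1, 1)], [(2, 1)], [(2, -1), (6, 2), (8, 1), (11, -1)], [(0, -1), (3, 1),
      (4, -2), (9, -1)], [(1, -1), (5, 3), (7, 1), (10, -1)], [(4, 2), (9, 1)], [(5, -2), (10,
      1)], [(6, -1), (11, 1)], [(4, -1)], [(5, 1)]],
    [[], [], [(0, 1)], [(1, 1)], [(1, -1), (5, 2), (7, 1), (10, -1)], [(2, 1), (6, -2), (8,
      -1), (11, 1)], [(0, -1), (3, 1), (4, -2), (9, -1)], [(6, 2), (8, 1), (11, -1)], [(4, 2),
      (9, 1)], [(5, -1), (10, 1)], [(6, -1), (11, 1)], [(4, -1)]]]

/-- degrees -/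
def dl : List ℕ := [1, 3, 3]

theorem bs_ck : bs.ckW dl 12 = true := by decide +kernel

/-- certificate -/
def ce0 : Cer where
  den := 18
  N := [[[(60, 54), (73, -144), (84, 18), (101, 18), (110, -36), (133, 108), (204, -18), (228, -18),
      (241, -36), (254, 108), (264, -36), (267, -72), (397, -108), (410, 36), (423, 72)],
      [],
      [],
      [],
      [],
      [],
      [],
      [],
      [],
      [],
      [],
      []],
    [[(49, -36), (86, 18), (90, -18), (99, 18), (100, -18), (216, -18), (270, 18), (276, 18),
      (324, 18), (336, 18), (386, -18), (413, -18)],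
      [(12, -15), (25, 3), (38, 3), (60, 54), (73, -148), (84, 15), (87, 3), (101, 15), (103, 3),
      (110, -39), (116, 3), (124, 3), (133, 109), (139, 3), (204, -15), (228, -15), (241, -39),
      (254, 112), (258, 1), (264, -39), (267, -70), (268, 1), (281, -1), (397, -109), (401, 2),
      (410, 36), (414, -1), (423, 73), (424, -1)],
      [],
      [],
      [],
      [],
      [],
      [],
      [],
      [],
      [],
      []],
    [[(36, 9), (61, 36), (74, 9), (85, 36), (89, -27), (98, 9), (111, -9), (127, -9), (140, -9),
      (180, 27), (192, 24), (229, -9), (242, -9), (255, -12), (256, 3), (265, -9), (269, -3),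
      (278, -3), (282, -9), (348, 6), (372, -18), (385, 9), (398, 12), (402, -3), (411, 3), (412,
      -3), (421, -15)],
      [(24, -15), (37, 3), (49, -36), (86, 18), (90, -15), (99, 18), (100, -15), (113, -3), (115,
      3), (128, 3), (136, 3), (216, -18), (257, 3), (270, 24), (276, 18), (280, 3), (324, 15),
      (336, 18), (386, -18), (400, 3), (413, -21), (426, -3)],
      [(12, -12), (25, -12), (38, 6), (60, 54), (73, -152), (84, 12), (87, 6), (101, 12), (103,
      6), (110, -42), (116, 6), (124, 6), (133, 110), (139, 6), (204, -12), (228, -12), (241,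
      -42), (254, 116), (258, 2), (264, -42), (267, -68), (268, 2), (281, -2), (397, -110), (401,
      4), (410, 36), (414, -2), (423, 74), (424, -2)],
      [],
      [],
      [],
      [],
      [],
      [],
      [],
      [],
      []],
    [[(60, 72), (73, -162), (84, 18), (97, 18), (110, -36), (133, 126), (241, -54), (254, 126),
      (264, -54), (267, -90), (397, -126), (410, 36), (423, 90)],
      [(36, -6), (61, 36), (74, 6), (85, 30), (89, -18), (98, 12), (111, -6), (127, -6), (140,
      -6), (180, 18), (192, 16), (229, -6), (242, -6), (255, -8), (256, 2), (265, -12), (269,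
      -2), (278, -2), (282, -6), (348, 4), (372, -12), (385, 6), (398, 8), (402, -2), (411, 2),
      (412, -2), (421, -10)],
      [(24, -12), (37, -12), (49, -36), (86, 18), (90, -12), (99, 18), (100, -12), (113, -6),
      (115, 6), (128, 6), (136, 6), (216, -18), (257, 6), (270, 30), (276, 18), (280, 6), (324,
      12), (336, 18), (386, -18), (400, 6), (413, -24), (426, -6)],
      [(12, -9), (25, -9), (38, -9), (60, 54), (73, -156), (84, 9), (87, 9), (101, 9), (103, 9),
      (110, -45), (116, 9), (124, 9), (133, 111), (139, 9), (204, -9), (228, -9), (241, -45),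
      (254, 120), (258, 3), (264, -45), (267, -66), (268, 3), (281, -3), (397, -111), (401, 6),
      (410, 36), (414, -3), (423, 75), (424, -3)],
      [(12, -9), (25, -9), (38, -9), (60, 18), (84, 9), (87, -9), (88, 18), (101, -9), (103, 9),
      (110, -9), (116, 9), (124, 9), (133, -9), (139, 9), (204, -9), (228, -9), (241, -9), (258,
      9), (264, -9), (268, 9), (281, 9), (397, 9), (414, -9), (423, -9), (424, 9)],
      [(36, -15), (61, -36), (74, 33), (85, -6), (89, 9), (98, 3), (111, 3), (127, 3), (140, 3),
      (180, 9), (192, -8), (229, 3), (242, 3), (255, -14), (256, -1), (265, 33), (269, 1), (278,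
      1), (282, 3), (348, -2), (372, 6), (385, -3), (398, 14), (402, 1), (411, -19), (412, 1),
      (421, 5)],
      [(24, -12), (37, -12), (90, 6), (100, 6), (113, -6), (115, 6), (126, -18), (128, 6), (136,
      6), (257, -12), (270, -6), (280, -12), (324, 12), (400, -12), (413, 12), (426, 12)],
      [],
      [],
      [],
      [],
      []],
    [[],
      [(265, -18)],
      [(113, 18), (122, -18), (135, 18), (136, -18), (216, -18), (257, -18), (276, 18), (280,
      -18), (336, 18), (386, 18), (400, -18), (409, 36), (426, 18)],
      [(73, 18), (133, -18), (254, -18), (397, 18), (423, -18)],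
      [(73, 6), (133, -6), (254, -6), (258, -6), (267, 6), (268, -6), (281, -12), (397, 6), (401,
      6), (414, 6), (423, -6), (424, -12)],
      [(36, 9), (74, 45), (85, 36), (89, -27), (98, 9), (111, -9), (127, -9), (140, -9), (180,
      27), (192, 42), (229, 9), (242, 9), (255, -48), (256, 3), (265, 45), (269, -3), (278, 33),
      (282, -9), (348, 6), (372, -36), (385, -9), (398, 48), (402, -3), (411, 3), (412, -3),
      (421, -51)],
      [],
      [],
      [],
      [],
      [],
      []],
    [[(49, -36), (109, -18), (126, 18), (135, -18), (136, 18), (240, -18), (257, 18), (270, 18),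
      (276, -18), (280, 18), (386, -18), (400, 18), (409, -18), (413, -18), (426, -18)],
      [],
      [],
      [(49, -18), (113, -36), (122, 36), (135, -54), (136, 54), (216, 54), (257, 36), (270, -18),
      (276, -54), (279, 18), (280, 36), (336, -54), (386, -36), (400, 36), (409, -90), (413, 18),
      (426, -36)],
      [(280, 18), (426, -18)],
      [],
      [(36, -9), (74, -45), (85, -36), (89, 27), (98, -9), (111, 9), (127, 9), (140, 9), (180,
      -27), (192, -30), (229, -9), (242, -9), (255, 42), (256, 3), (265, -45), (269, -3), (278,
      -21), (282, 9), (348, 6), (372, 36), (385, 9), (398, -42), (402, -3), (411, 3), (412, -3),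
      (421, 39)],
      [],
      [],
      [],
      [],
      []],
    [[],
      [],
      [(60, 18), (73, -18)],
      [(61, 18), (74, -18), (265, -18)],
      [(36, -9), (61, 18), (74, -63), (85, -36), (89, 27), (98, -9), (111, 9), (127, 9), (140,
      9), (180, -27), (192, -36), (229, -9), (242, -9), (255, 54), (256, -9), (265, -63), (269,
      -9), (278, -9), (282, 9), (372, 36), (385, 9), (398, -54), (402, 9), (411, 9), (412, -9),
      (421, 45)],
      [(49, -18), (113, -36), (122, 36), (135, -54), (136, 54), (216, 54), (257, 36), (276, -54),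
      (280, 36), (336, -54), (386, -36), (400, 36), (409, -90), (426, -36)],
      [(73, 12), (133, -12), (254, -12), (258, -12), (267, 12), (268, 6), (281, -6), (397, 12),
      (401, 12), (414, -6), (423, -12), (424, -6)],
      [],
      [],
      [],
      [],
      []],
    [[(49, 36), (86, 18), (90, -18), (99, 18), (100, -18), (109, 36), (126, -36), (135, 36),
      (136, -36), (240, 36), (257, -36), (270, -36), (276, 36), (280, -36), (324, 18), (336, 18),
      (386, 18), (400, -36), (409, 36), (413, 36), (426, 36)],
      [(60, 36), (73, -90), (97, 18), (110, -18), (133, 72), (241, -36), (254, 72), (264, -36),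
      (267, -54), (397, -72), (410, 18), (423, 54)],
      [(36, -3), (61, 18), (74, 3), (85, 6), (89, -9), (98, 15), (111, -3), (127, -3), (140, -3),
      (180, 9), (192, 8), (229, -3), (242, -3), (255, -4), (256, 1), (265, -15), (269, -1), (278,
      -1), (282, -3), (348, 2), (372, -6), (385, 3), (398, 4), (402, -1), (411, 1), (412, -1),
      (421, -5)],
      [(24, -9), (37, -9), (49, -18), (90, -9), (99, 18), (100, -9), (113, 27), (115, 9), (122,
      -36), (128, 9), (135, 36), (136, -27), (216, -54), (257, -27), (270, 36), (276, 54), (280,
      -27), (324, 9), (336, 54), (386, 18), (400, -27), (409, 72), (413, -27), (426, 27)],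
      [(24, -9), (37, -9), (90, -9), (100, 9), (113, -9), (115, 9), (126, -18), (128, 9), (136,
      9), (257, -9), (280, -9), (324, 9), (400, -9), (413, 9), (426, 9)],
      [(60, 18), (73, -72), (101, 18), (110, -18), (133, 54), (241, -18), (254, 54), (264, -18),
      (267, -36), (397, -54), (410, 18), (423, 36)],
      [(36, -3), (61, -36), (74, 57), (85, 6), (89, -9), (98, 15), (111, -3), (127, -3), (140,
      -3), (180, 9), (192, 8), (229, 15), (242, 15), (255, -40), (256, 1), (265, 57), (269, -1),
      (278, 17), (282, -3), (348, 2), (372, -6), (385, -15), (398, 40), (402, -1), (411, -17),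
      (412, -1), (421, -23)],
      [(12, -6), (25, -6), (38, -6), (60, 54), (73, -142), (84, 6), (87, -6), (101, 6), (103,
      12), (110, -48), (116, 12), (124, 12), (133, 94), (139, 12), (204, -6), (228, -6), (241,
      -48), (254, 106), (258, 4), (264, -48), (267, -64), (268, 4), (281, -4), (397, -94), (401,
      8), (410, 36), (414, -4), (423, 58), (424, -4)],
      [],
      [],
      [],
      []],
    [[(61, 36), (74, -36), (229, -18), (242, -36), (252, 18), (255, 54), (265, -54), (278, -54),
      (372, 18), (385, 36), (398, -36), (411, -18), (421, 54)],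
      [(49, 18), (109, 18), (113, 18), (122, -18), (135, 18), (136, -18), (216, -18), (257, -18),
      (276, 18), (280, -18), (336, 18), (386, 18), (400, -18), (409, 36), (426, 18)],
      [(73, -18), (133, 18), (241, -18), (254, 18), (264, -18), (267, -18), (397, -18), (423,
      18)],
      [],
      [(61, -36), (74, 36), (242, 18), (255, -18), (265, 36), (398, 18), (411, -18)],
      [(113, 54), (122, -54), (126, 18), (135, 54), (136, -54), (216, -72), (257, -36), (270,
      36), (276, 72), (280, -36), (336, 72), (386, 36), (400, -36), (409, 108), (413, -36), (426,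
      36)],
      [],
      [(24, -6), (37, -6), (90, -6), (100, -6), (113, 42), (115, 12), (122, -54), (128, 12),
      (135, 54), (136, -42), (216, -72), (257, -42), (270, 42), (276, 72), (280, -42), (324, 6),
      (336, 72), (386, 36), (400, -42), (409, 108), (413, -30), (426, 42)],
      [(12, -3), (25, -3), (38, -3), (60, 54), (73, -146), (84, 3), (87, -3), (101, 3), (103,
      -3), (110, -51), (116, 15), (124, 15), (133, 95), (139, 15), (204, -3), (228, -3), (241,
      -51), (254, 110), (258, 5), (264, -51), (267, -62), (268, 5), (281, -5), (397, -95), (401,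
      10), (410, 36), (414, -5), (423, 59), (424, -5)],
      [],
      [],
      []],
    [[(60, 18), (73, -54), (97, 18), (101, -18), (133, 54), (228, 18), (241, -18), (254, 36),
      (267, -18), (397, -36), (410, 18), (423, 18)],
      [(61, 18), (74, -18), (242, -18), (255, 18), (278, -18), (385, 18), (398, -18), (421, 18)],
      [],
      [],
      [(73, 36), (133, -36), (254, -18), (267, 18), (397, 36), (410, -18), (423, -18)],
      [(61, 18), (74, -18), (265, -18), (398, -18), (411, 18)],
      [(49, -18), (122, -18), (126, 18), (216, -18), (270, 18), (276, 18), (336, 18), (409, 18),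
      (413, -18)],
      [(36, 3), (74, 15), (85, 12), (89, -9), (98, 3), (111, -15), (127, 3), (140, 3), (180, 9),
      (192, 10), (229, 3), (242, 3), (255, -14), (256, -1), (265, 15), (269, 1), (278, 19), (282,
      3), (348, -2), (372, -12), (385, -3), (398, 14), (402, 1), (411, -1), (412, 1), (421,
      -13)],
      [(24, -3), (37, -3), (49, -36), (90, -3), (100, -3), (113, 3), (115, -3), (122, -36), (128,
      15), (136, -3), (216, -36), (257, -3), (270, 48), (276, 36), (280, -3), (324, 3), (336,
      36), (400, -3), (409, 36), (413, -33), (426, 3)],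
      [(73, 84), (133, -84), (254, -48), (258, 6), (267, 48), (268, 6), (281, -6), (397, 84),
      (401, 12), (410, -36), (414, -6), (423, -48), (424, -6)],
      [(36, -3), (61, -54), (74, 39), (85, -12), (89, 9), (98, -3), (111, -21), (127, 15), (140,
      15), (180, -9), (192, -16), (229, -3), (242, -3), (255, 8), (256, 7), (265, 39), (269, -7),
      (278, 11), (282, 15), (348, -4), (372, 12), (385, 3), (398, 28), (402, 11), (411, -47),
      (412, -7), (421, 19)],
      [(24, -6), (37, -6), (49, -18), (90, -6), (100, -6), (113, 6), (115, -6), (122, -18), (126,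
      -54), (128, 30), (136, -6), (216, -18), (257, -24), (270, 24), (276, 18), (280, -6), (324,
      6), (336, 18), (400, -6), (409, 18), (413, 6), (426, 6)]],
    [[],
      [(73, -54), (133, 54), (254, 36), (267, -18), (397, -36), (410, 18), (423, 18)],
      [],
      [(49, -18), (113, -18), (135, -18), (136, 18), (216, 18), (257, 18), (276, -18), (280, 18),
      (336, -18), (386, -18), (400, 18), (409, -36), (426, -18)],
      [(49, -18), (122, -18), (216, -18), (270, 18), (276, 18), (336, 18), (409, 18), (413,
      -18)],
      [(73, -18), (133, 18), (254, 18), (267, -18), (397, -18), (423, 18)],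
      [],
      [(60, -18), (73, 90), (110, 18), (124, -18), (133, -72), (241, 18), (254, -54), (264, 18),
      (267, 36), (397, 72), (410, -36), (423, -36)],
      [(36, 6), (74, 30), (85, 24), (89, -18), (98, 6), (111, -12), (127, -12), (140, 6), (180,
      18), (192, 20), (229, 6), (242, 6), (255, -28), (256, -2), (265, 30), (269, 2), (278, 38),
      (282, 6), (348, -4), (372, -24), (385, -6), (398, 28), (402, 2), (411, -2), (412, 2), (421,
      -26)],
      [(49, -36), (122, -36), (216, -36), (270, 54), (276, 36), (336, 36), (409, 36), (413,
      -36)],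
      [(60, -36), (73, 222), (110, 36), (124, -36), (133, -186), (241, 36), (254, -150), (258,
      -6), (264, 36), (267, 114), (268, 12), (281, -12), (397, 186), (401, 6), (410, -72), (414,
      6), (423, -114), (424, -12)],
      [(36, 3), (74, 15), (85, 12), (89, -9), (98, 3), (111, -15), (127, -15), (140, 21), (180,
      9), (192, -2), (229, 3), (242, 3), (255, -8), (256, -7), (265, 15), (269, -11), (278, 43),
      (282, 21), (348, -14), (372, -12), (385, -3), (398, 8), (402, 7), (411, -7), (412, 7),
      (421, -1)]],
    [[(242, -18), (252, 18), (255, 18), (265, 18), (278, -18), (385, 18), (411, -18), (421,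
      18)],
      [],
      [(60, 18), (73, -54), (133, 36), (254, 36), (267, -18), (397, -36), (410, 18), (423, 18)],
      [],
      [(278, 18)],
      [(49, -18), (113, -36), (122, 36), (135, -54), (136, 54), (216, 54), (257, 36), (270, -18),
      (276, -54), (280, 36), (336, -54), (386, -36), (400, 36), (409, -90), (413, 18), (426,
      -36)],
      [],
      [(49, -36), (113, -36), (122, 18), (135, -54), (136, 36), (216, 36), (257, 36), (276, -36),
      (280, 36), (336, -36), (386, -36), (400, 36), (409, -72), (426, -36)],
      [(60, -36), (73, 162), (110, 36), (124, -18), (133, -126), (139, -18), (241, 36), (254,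
      -108), (264, 36), (267, 72), (397, 126), (410, -54), (423, -72)],
      [(36, 9), (74, 45), (85, 36), (89, -27), (98, 9), (111, -9), (127, -9), (140, -9), (180,
      27), (192, 30), (229, 9), (242, 9), (255, -42), (256, -3), (265, 45), (269, 3), (278, 57),
      (282, 9), (348, -6), (372, -36), (385, -9), (398, 42), (402, 3), (411, -3), (412, 3), (421,
      -39)],
      [(49, -36), (122, -36), (136, -36), (216, -36), (270, 36), (276, 36), (336, 36), (409, 36),
      (413, -36), (426, 18)],
      [(60, -72), (73, 324), (110, 72), (124, -36), (133, -252), (139, -36), (241, 72), (254,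
      -216), (264, 72), (267, 144), (281, -18), (397, 252), (410, -108), (423, -144)]]]
  A := [[[(12, 3), (25, 3), (38, 3), (73, -4), (84, -3), (87, 3), (101, -3), (103, 3), (110, -3),
      (116, 3), (124, 3), (133, 1), (139, 3), (204, 3), (228, 3), (241, -3), (254, 4), (258, 1),
      (264, -3), (267, 2), (268, 1), (281, -1), (397, -1), (401, 2), (414, -1), (423, 1), (424,
      -1)],
      [(24, 3), (37, 3), (90, 3), (100, 3), (113, -3), (115, 3), (128, 3), (136, 3), (257, 3),
      (270, 6), (280, 3), (324, -3), (400, 3), (413, -3), (426, -3)],
      [(36, 3), (74, -3), (85, -6), (89, 9), (98, 3), (111, 3), (127, 3), (140, 3), (180, -9),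
      (192, -8), (229, 3), (242, 3), (255, 4), (256, -1), (265, -3), (269, 1), (278, 1), (282,
      3), (348, -2), (372, 6), (385, -3), (398, -4), (402, 1), (411, -1), (412, 1), (421, 5)],
      [(60, -18), (73, 72), (110, 18), (133, -54), (241, 18), (254, -54), (264, 18), (267, 36),
      (397, 54), (410, -18), (423, -36)],
      [],
      [(74, 18), (85, 18), (89, -18), (180, 18), (192, 18), (255, -18), (265, 18), (278, 18),
      (372, -18), (398, 18), (421, -18)],
      [],
      [(49, -18), (113, -18), (122, 18), (135, -18), (136, 18), (216, 18), (257, 18), (276, -18),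
      (280, 18), (336, -18), (386, -18), (400, 18), (409, -36), (426, -18)],
      [(61, 18), (265, -18)],
      [(60, 18)],
      [(49, 36), (72, 18), (109, 18), (126, -18), (135, 18), (136, -18), (240, 18), (257, -18),
      (270, -18), (276, 18), (280, -18), (386, 18), (400, -18), (409, 18), (413, 18), (426, 18)]],
    [[],
      [],
      [(61, 36), (74, -36), (255, 18), (265, -36), (398, -18), (411, 18)],
      [],
      [],
      [],
      [],
      [],
      [],
      [(73, -36), (133, 36), (254, 18), (264, 18), (397, -18), (410, 18)],
      [(49, 54), (109, 18), (113, 36), (122, -36), (126, -18), (135, 72), (136, -72), (216, -54),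
      (240, 18), (257, -54), (276, 90), (280, -54), (336, 54), (386, 54), (400, -54), (409, 108),
      (426, 54)]],
    [[],
      [],
      [(126, 18), (257, 18), (270, 18), (280, 18), (400, 18), (413, -18), (426, -18)],
      [(61, 18), (74, -18), (192, 6), (255, 6), (256, -6), (265, -18), (269, 6), (278, 6), (348,
      6), (398, -6), (402, 6), (411, 12), (412, 6), (421, -6)],
      [(73, 6), (133, -6), (254, -6), (258, -6), (267, 6), (268, -6), (281, 6), (397, 6), (401,
      6), (414, 6), (423, -6), (424, 6)],
      [],
      [(192, -6), (255, -6), (256, 6), (269, -6), (278, -6), (348, -6), (398, 6), (402, -6),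
      (411, 6), (412, -6), (421, 6)],
      [(73, 12), (133, -12), (254, -12), (258, 6), (267, -6), (268, 6), (281, -6), (397, 12),
      (401, -6), (414, -6), (423, 6), (424, -6)],
      [(113, -18), (122, 18), (135, -18), (136, 18), (216, 36), (257, 18), (270, -18), (276,
      -36), (280, 18), (336, -36), (386, -18), (400, 18), (409, -36), (413, 18), (426, -18)],
      [(192, 6), (255, 6), (256, -6), (265, -18), (269, 6), (278, -12), (348, 6), (398, -6),
      (402, 6), (411, -6), (412, 6), (421, 12)],
      [(60, 18), (73, -66), (133, 48), (204, -18), (254, 30), (258, 12), (264, 18), (267, -12),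
      (268, -6), (281, 6), (360, 18), (397, -30), (401, -12), (410, 18), (414, 6), (423, 12),
      (424, 6)]]]
  W := [[[],
      [],
      [],
      [],
      [[(110, -18), (120, 18), (253, 18), (266, 18)],
       [],
       [(122, 18), (265, -18)]],
      [[],
       [],
       [(134, -18), (408, 18)]],
      [],
      [],
      [[(108, -18), (121, -18), (228, -18), (241, -18), (408, -18)],
       [],
       [],
       [],
       [],
       [],
       [(84, 18), (240, -18)]],
      [[(84, -18), (110, 36), (120, -36), (253, -36), (266, -36)],
       [],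
       [],
       [],
       [(84, 18), (97, 18), (240, -18), (253, -18)],
       [],
       [(109, -18), (122, 18), (132, -18), (265, -18), (278, -18)]],
      [[(96, -18)],
       [(84, -18), (97, -18), (240, 18)],
       [],
       [(265, 18)],
       [],
       [(84, -18), (97, -18), (110, -18), (240, 18), (253, 18), (266, 18)]],
      [[(108, -18), (121, -18), (408, -18)],
       [],
       [(84, -18), (97, -18), (110, -18), (240, 18), (253, 18)],
       [],
       [],
       [(122, -18), (265, 18), (278, 18)],
       [(84, -18), (97, -18), (110, -18), (133, -18), (240, 18), (253, 18)]]],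
    [[],
      [],
      [],
      [],
      [],
      [],
      [],
      [],
      [],
      [[],
       [(121, 18), (408, 18)]],
      [[],
       [],
       [(408, 18)]],
      [[],
       [(122, 18), (132, -18), (265, -18), (278, -18)]]],
    [[],
      [],
      [],
      [],
      [],
      [],
      [],
      [[],
       [(241, 18)]],
      [[(96, -18), (109, -18), (122, 18), (132, -18), (252, 18), (265, -18), (278, -18), (396,
      -18)]],
      [[(108, -18), (121, -18), (264, 18), (408, -18)],
       [],
       [],
       [(134, -18), (254, -18), (277, -18), (408, 18)]],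
      [[(110, 18), (120, -18), (133, -18), (253, -18), (266, -18), (276, 18)]],
      [[(396, 18)],
       [],
       [(277, -18)],
       [],
       [],
       [(420, 18)]]]]

theorem ce0_ck : ce0.ckW bs dl 12 0 = true := by decide +kernel

/-- certificate -/
def ce1 : Cer where
  den := 1
  N := [[],
    [[(24, 1), (37, 1), (49, -2), (86, 1), (99, 1), (115, -4), (126, 8), (136, -4), (266, 7),
      (409, -7), (422, -4)],
      [],
      [],
      [],
      [],
      [],
      [],
      [],
      [],
      [],
      [],
      []],
    [[(36, 1), (85, 1), (98, 1), (111, 1), (112, -1), (125, 1), (134, 1), (138, -1)],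
      [(37, 1), (49, -2), (86, 1), (99, 1), (115, -3), (126, 6), (136, -3), (266, 6), (409, -6),
      (422, -3)],
      [],
      [],
      [],
      [],
      [],
      [],
      [],
      [],
      [],
      []],
    [[(73, 1), (84, 1), (97, 1), (110, -1), (114, -1), (137, -3), (241, -1), (254, 1), (264, 1),
      (277, -2), (397, 2), (410, -2)],
      [(85, 1), (98, 1), (111, 1), (112, -1), (125, 1), (134, 1), (138, -1)],
      [(49, -2), (86, 1), (99, 1), (115, -2), (126, 4), (136, -2), (266, 5), (409, -5), (422,
      -2)],
      [],
      [],
      [],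
      [],
      [],
      [],
      [],
      [],
      []],
    [[(73, -1), (110, -1), (114, 1), (137, 1), (241, -1), (254, 1), (264, -1)],
      [],
      [(266, -1), (409, 1)],
      [],
      [],
      [],
      [],
      [],
      [],
      [],
      [],
      []],
    [[],
      [],
      [(61, -1)],
      [],
      [],
      [],
      [],
      [],
      [],
      [],
      [],
      []],
    [[],
      [],
      [(73, -1)],
      [],
      [],
      [],
      [],
      [],
      [],
      [],
      [],
      []],
    [[(49, 2), (72, 1), (96, 1), (109, 1), (122, 1), (126, -3), (266, -2), (409, 1)],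
      [(97, 1), (110, -1), (137, -1), (241, -1), (254, 1), (277, -1), (397, 1), (410, -1)],
      [(98, 1), (111, 1), (112, -1), (125, 1), (134, 1), (138, -1)],
      [(49, -1), (99, 1), (115, -1), (126, 2), (136, -1), (266, 2), (409, -2), (422, -1)],
      [(100, 1), (113, -1), (115, -1), (126, 4), (136, -1), (266, 2), (409, -2), (422, -2)],
      [(73, 2), (97, 1), (110, 1), (114, -2), (120, -1), (137, -3), (228, 1), (254, -1), (264,
      2), (277, -1), (397, 1), (410, -1)],
      [(48, -2), (98, 1), (108, -1), (372, 1), (385, -1)],
      [],
      [],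
      [],
      [],
      []],
    [[(48, 2), (61, 1), (108, 1), (111, 1), (112, -1), (134, 1), (138, -1), (385, 1), (398, -1),
      (408, 1)],
      [(49, 2), (109, 1), (122, 1), (126, -2), (266, -2), (409, 1)],
      [],
      [(111, 1), (112, -1), (125, 1), (134, 1), (138, -1)],
      [],
      [(113, 1), (126, -1), (266, -1), (409, 1), (422, 1)],
      [],
      [],
      [],
      [],
      [],
      []],
    [[(73, 1), (110, 1), (114, -1), (120, 1), (137, -1), (397, 1), (410, -1)],
      [(48, 1), (61, 1), (111, 1), (112, -1), (134, 1), (138, -1), (385, 1), (398, -1), (408,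
      1)],
      [(49, 1), (122, 1), (126, -1), (266, -1)],
      [],
      [],
      [(125, 1)],
      [],
      [(112, -1), (125, 1), (138, -1)],
      [],
      [],
      [],
      []],
    [[(49, 1), (122, 1), (126, -1), (266, -1), (396, 1)],
      [(73, 1), (110, 1), (114, -1), (137, -1), (397, 1), (410, -1)],
      [],
      [(409, -1)],
      [],
      [(110, -1), (114, 1), (241, -1), (254, 1), (277, -1), (397, 1), (410, -1)],
      [],
      [(114, 1), (124, -1), (137, 1)],
      [(112, -1), (125, 1), (127, -1), (138, -1)],
      [],
      [],
      []],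
    [[(48, -1)],
      [],
      [(137, -1), (241, -1), (254, 1), (277, -1), (397, 1), (410, -1)],
      [(134, -1)],
      [(138, -1)],
      [(266, 1), (409, -1), (422, -1)],
      [(110, -1), (114, 1), (137, -1), (241, -1), (254, 1), (277, -1), (397, 1), (410, -1)],
      [(126, 1), (136, -1), (266, 1), (409, -1), (422, -1)],
      [(110, 1), (114, 1), (124, -1), (137, 2), (139, -1), (241, 1), (254, -1), (277, 1), (397,
      -1), (410, 1)],
      [],
      [],
      []]]
  A := [[[],
      [(115, 1), (126, -2), (136, 1), (266, -1), (409, 1), (422, 1)],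
      [],
      [(110, 1), (137, 1), (241, 1), (254, -1), (277, 1), (397, -1), (410, 1)],
      [(126, 1)],
      [],
      [],
      [(49, -1), (266, 1), (409, -1)],
      [],
      [],
      [(72, 1)]],
    [[],
      [],
      [],
      [],
      [],
      [],
      [(73, -1), (137, 1), (241, 1), (277, 1), (397, -1), (410, 1)],
      [],
      [(61, 1), (134, -1), (138, 1), (278, 1)],
      [(73, 1), (110, 1), (114, -1), (137, -1), (241, -1), (397, 1), (410, -1)],
      [(49, -1), (109, -1), (113, 1), (240, -1), (396, 1), (422, 1)]],
    [[],
      [],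
      [],
      [(61, -1), (125, 1), (398, 1)],
      [],
      [],
      [],
      [(73, -1), (110, -1), (114, 1), (137, 1), (410, 1)],
      [],
      [(48, 1), (408, 1)],
      [(110, 1), (114, -1), (241, -1), (254, 1), (264, -1), (410, -1), (420, 1)]]]
  W := [[[],
      [],
      [],
      [],
      [],
      [[(109, -1), (132, -1)]],
      [],
      [],
      [[],
       [],
       [],
       [],
       [],
       [(96, -1), (109, -2), (132, -2)],
       [(240, -1)]],
      [],
      [[],
       [(253, -1), (276, -1)],
       [],
       [(109, -1), (265, 1)]],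
      [[(264, -1)],
       [(109, -1)],
       [],
       [(277, 1)]]],
    [[],
      [],
      [],
      [],
      [],
      [],
      [],
      [],
      [],
      [[(120, 1), (133, 1), (253, 1), (276, 1)],
       [(121, 1)]],
      [[],
       [(133, 1)]],
      [[(108, 1), (121, 1), (264, -1)]]],
    [[],
      [],
      [],
      [],
      [],
      [],
      [],
      [],
      [[(109, 1), (132, 1), (252, 1)]],
      [],
      [],
      [[],
       [(276, -1)]]]]

theorem ce1_ck : ce1.ckW bs dl 12 1 = true := by decide +kernel

/-- certificate -/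
def ce2 : Cer where
  den := 1
  N := [[],
    [],
    [[(36, 1), (48, 4), (85, 1), (98, 1), (111, 1), (112, -4), (125, 4), (134, -3), (408, 4),
      (421, 4)],
      [],
      [],
      [],
      [],
      [],
      [],
      [],
      [],
      [],
      [],
      []],
    [[(84, 1), (97, 1), (110, -2), (133, 2)],
      [(48, 3), (85, 1), (98, 1), (111, 1), (112, -3), (125, 3), (134, -2), (408, 3), (421, 3)],
      [],
      [],
      [],
      [],
      [],
      [],
      [],
      [],
      [],
      []],
    [],
    [[],
      [(60, -1), (133, 1)],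
      [],
      [],
      [],
      [],
      [],
      [],
      [],
      [],
      [],
      []],
    [[(48, 1)],
      [],
      [],
      [],
      [],
      [],
      [],
      [],
      [],
      [],
      [],
      []],
    [[(72, 2), (96, 1), (109, 1), (126, -2), (132, -1)],
      [(97, 1), (110, -1), (133, 1)],
      [(48, 2), (98, 1), (111, 1), (112, -2), (125, 2), (134, -1), (408, 2), (421, 2)],
      [],
      [],
      [],
      [],
      [],
      [],
      [],
      [],
      []],
    [[(108, 1), (121, 1)],
      [(72, 1), (109, 1), (126, -1), (132, -1)],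
      [],
      [(48, 1), (111, 1), (112, -1), (125, 1), (408, 1), (421, 1)],
      [],
      [(72, 2), (113, 1), (122, 1), (126, -2), (132, -2), (135, 1), (136, -1)],
      [(60, 1), (120, -1), (123, 1), (124, -1), (137, 1), (384, 1), (397, -1), (420, 1)],
      [],
      [],
      [],
      [],
      []],
    [[(120, 1), (133, -1)],
      [(121, 1)],
      [],
      [],
      [],
      [(48, 1), (125, 1), (408, 1)],
      [],
      [],
      [],
      [],
      [],
      []],
    [[],
      [],
      [],
      [(72, -1), (122, -1), (126, 1), (132, 1)],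
      [],
      [(123, -1), (124, 1)],
      [(48, 1), (408, 1)],
      [(110, 1), (123, -1)],
      [],
      [],
      [],
      []],
    [[],
      [],
      [],
      [(134, -1)],
      [(134, -1), (421, 1)],
      [(72, -2), (122, -1), (126, 1), (132, 2), (135, -1), (136, 1)],
      [(123, -1), (124, 1), (137, -1)],
      [(72, -2), (122, -1), (126, 2), (132, 2), (135, -1)],
      [],
      [],
      [],
      []]]
  A := [[[],
      [],
      [(48, -1), (112, 1), (125, -1), (134, 1), (408, -1), (421, -1)],
      [(110, 1)],
      [(126, 1)],
      [],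
      [],
      [(72, -1), (132, 1)],
      [],
      [(133, 1)],
      [(72, 1)]],
    [[],
      [],
      [],
      [],
      [(72, -2), (122, -1), (126, 1), (132, 2), (135, -1), (136, 1), (253, 1), (276, -1)],
      [],
      [],
      [(72, 2), (122, 1), (126, -1), (132, -2), (135, 1), (136, -1), (276, 1)],
      [(48, -1), (265, 1), (408, -1)],
      [(60, 1), (123, 1), (124, -1), (133, -1), (137, 1), (277, 1)],
      []],
    [[],
      [],
      [],
      [],
      [(60, -1), (123, -1), (124, 1), (133, 1), (137, -1), (397, 1), (420, -1)],
      [(72, -1), (122, -1), (126, 1), (132, 1), (409, 1)],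
      [],
      [(123, 1), (124, -1), (137, 1), (420, 1)],
      [],
      [],
      []]]
  W := [[[],
      [],
      [],
      [],
      [],
      [],
      [],
      [],
      [],
      [[],
       [],
       [],
       [],
       [],
       [],
       [(252, -1)]],
      [],
      [[],
       [],
       [],
       [],
       [],
       [],
       [(276, -1)]]],
    [[],
      [],
      [],
      [],
      [],
      [],
      [],
      [],
      [[(108, 1)]],
      [[(120, 1)]],
      [[(132, 1)]],
      []],
    [[],
      [],
      [],
      [],
      [],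
      [],
      [],
      [],
      [],
      [[(264, 1)]],
      [],
      []]]

theorem ce2_ck : ce2.ckW bs dl 12 2 = true := by decide +kernel

/-- certificate -/
def ce3 : Cer where
  den := 1
  N := [[],
    [],
    [],
    [[(84, 1), (97, -1)],
      [],
      [],
      [],
      [],
      [],
      [],
      [],
      [],
      [],
      [],
      []],
    [],
    [],
    [],
    [[(96, 1), (109, 1), (132, 1)],
      [],
      [],
      [],
      [],
      [],
      [],
      [],
      [],
      [],
      [],
      []],
    [[(108, 1), (252, -1)],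
      [],
      [],
      [],
      [],
      [],
      [],
      [],
      [],
      [],
      [],
      []],
    [[(97, 2), (120, 1), (133, 1)],
      [],
      [],
      [(110, -1)],
      [],
      [],
      [],
      [],
      [],
      [],
      [],
      []],
    [[],
      [(97, 1), (133, 1)],
      [(121, -1)],
      [(122, -1)],
      [],
      [],
      [],
      [],
      [],
      [],
      [],
      []],
    [[(252, 1)],
      [(109, 1)],
      [],
      [(121, -1), (134, -1)],
      [],
      [(109, 1), (276, 1)],
      [],
      [],
      [],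
      [],
      [],
      []]]
  A := [[[],
      [],
      [],
      [],
      [],
      [],
      [],
      [],
      [],
      [(97, -1)],
      [(109, 1), (132, 1)]],
    [[],
      [],
      [],
      [],
      [],
      [],
      [],
      [],
      [],
      [(97, 1), (133, 1), (264, 1)],
      []],
    [[],
      [],
      [],
      [],
      [],
      [(396, 1)],
      [],
      [(420, 1)],
      [],
      [(121, -1), (252, -1), (408, 1)],
      []]]
  W := [[[],
      [],
      [],
      [],
      [],
      [],
      [],
      [],
      [],
      [],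
      [],
      []],
    [[],
      [],
      [],
      [],
      [],
      [],
      [],
      [],
      [],
      [],
      [],
      []],
    [[],
      [],
      [],
      [],
      [],
      [],
      [],
      [],
      [],
      [],
      [],
      []]]

theorem ce3_ck : ce3.ckW bs dl 12 3 = true := by decide +kernel

/-- certificate -/
def ce4 : Cer where
  den := 1
  N := [[],
    [],
    [],
    [],
    [],
    [],
    [],
    [[(96, 1)],
      [],
      [],
      [],
      [],
      [],
      [],
      [],
      [],
      [],
      [],
      []],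
    [[(108, 1)],
      [],
      [],
      [],
      [],
      [],
      [],
      [],
      [],
      [],
      [],
      []],
    [[],
      [],
      [(109, -1)],
      [],
      [],
      [],
      [],
      [],
      [],
      [],
      [],
      []],
    [[(132, 1)],
      [],
      [(121, -1)],
      [],
      [],
      [],
      [],
      [],
      [],
      [],
      [],
      []],
    [[],
      [],
      [(120, 1), (133, -1)],
      [],
      [],
      [],
      [],
      [],
      [],
      [],
      [],
      []]]
  A := [[[],
      [],
      [],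
      [],
      [],
      [],
      [],
      [],
      [],
      [(120, 1)],
      []],
    [],
    []]
  W := [[[],
      [],
      [],
      [],
      [],
      [],
      [],
      [],
      [],
      [],
      [],
      []],
    [[],
      [],
      [],
      [],
      [],
      [],
      [],
      [],
      [],
      [],
      [],
      []],
    [[],
      [],
      [],
      [],
      [],
      [],
      [],
      [],
      [],
      [],
      [],
      []]]

theorem ce4_ck : ce4.ckW bs dl 12 4 = true := by decide +kernel

/-- certificate -/
def ce5 : Cer where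
  den := 1
  N := [[],
    [],
    [],
    [],
    [],
    [],
    [],
    [],
    [],
    [],
    [],
    []]
  A := [[[],
      [],
      [],
      [],
      [],
      [],
      [],
      [],
      [(108, 1)],
      [(120, 1)],
      [(132, 1)]],
    [],
    []]
  W := [[[],
      [],
      [],
      [],
      [],
      [],
      [],
      [],
      [],
      [],
      [],
      []],
    [[],
      [],
      [],
      [],
      [],
      [],
      [],
      [],
      [],
      [],
      [],
      []],
    [[],
      [],
      [],
      [],
      [],
      [],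
      [],
      [],
      [],
      [],
      [],
      []]]

theorem ce5_ck : ce5.ckW bs dl 12 5 = true := by decide +kernel

/-- exactness certificates -/
def exs : List TowerCk.EC := [
  ⟨1, [],
    []⟩,
  ⟨1, [],
    []⟩,
  ⟨1, [],
    []⟩,
  ⟨1, [],
    []⟩,
  ⟨1, [[[],
      [],
      [],
      [],
      [],
      [(24, -1)],
      [(12, 1)]],
    [],
    []],
    []⟩,
  ⟨1, [[],
    [[],
      [],
      [(25, -1)]],
    [[],
      [],
      [(13, 1)]]],
    []⟩,
  ⟨1, [[],
    [[],
      [],
      [],
      [(26, -1)],
      [],
      [],
      [(0, -1)]],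
    [[],
      [],
      [],
      [(14, 1)]]],
    []⟩]

theorem exs_ck : allb (fun c => (nth ⟨1, [], []⟩ exs c).ckW bs dl 12 c) (6 + 1) = true := by
  decide +kernel

/-- all certificates -/
theorem cert {k : Type*} [Field k] [CharZero k] (κ : ℕ) :
    CertW (fun x : Fin 12 => bs.w x) (fun i => nth 0 dl i) (Mt k 12 (nth [] bs.pw 1))
      (XX k bs 12) κ := by
  have hB : bs.ckPow 12 = true := by
    have h := bs_ck
    simp only [Base.ckW, Bool.and_eq_true] at h
    exact h.1.1
  rcases Nat.lt_or_ge κ 6 with h | h
  · interval_cases κ
    · exact certW_of_ck bs dl (by norm_num) hB ce0 ce0_ck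
    · exact certW_of_ck bs dl (by norm_num) hB ce1 ce1_ck
    · exact certW_of_ck bs dl (by norm_num) hB ce2 ce2_ck
    · exact certW_of_ck bs dl (by norm_num) hB ce3 ce3_ck
    · exact certW_of_ck bs dl (by norm_num) hB ce4 ce4_ck
    · exact certW_of_ck bs dl (by norm_num) hB ce5 ce5_ck
  · have h1 : ∀ x : Fin 12, bs.w x ≤ 6 := by decide
    have h2 : ∀ i : Fin 3, 1 ≤ nth 0 dl i := by decide
    refine certW_top fun i x => ?_
    have h3 := h1 x
    have h4 := h2 i
    show bs.w x < nth 0 dl i + κ
    omega

/-- **Levels of sizes `1, 1, 1, 4, 1, 1, 3`, degrees `1, 3, 3`.** -/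
theorem cl {k : Type*} [Field k] [CharZero k] {ι : Type*} [Fintype ι] [DecidableEq ι] (w : ι → ℕ)
    (hle : ∀ x, w x ≤ 6) (hn : ∀ a : Fin 7, Fintype.card {x // w x = (a : ℕ)} =
      ![1, 1, 1, 4, 1, 1, 3] a)
    {T : Fin 3 → Matrix ι ι k} (hT : ∀ i j, T i * T j = T j * T i)
    (hlow : ∀ i x y, w x < w y + ![1, 3, 3] i → T i x y = 0)
    (eT : ∀ a ≤ 6, EXw w ![1, 3, 3] T a) : Cl T := by
  have hd : (fun i : Fin 3 => nth 0 dl i) = ![1, 3, 3] := by decide
  refine TowerCk.cl_towerW_ck (dl := dl) (by norm_num) (by decide) bs_ck cert 6 (by decide)
    (TowerCk.exw_all bs dl (by norm_num) exs 6 exs_ck) w hle ?_ hT ?_ (by rw [hd]; exact eT)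
  · intro a ha
    have h : ∀ a : Fin 7, Fintype.card {x : Fin 12 // bs.w x = (a : ℕ)} =
        ![1, 1, 1, 4, 1, 1, 3] a := by decide
    exact (hn ⟨a, by omega⟩).trans (h ⟨a, by omega⟩).symm
  · intro i x y hxy
    refine hlow i x y ?_
    rw [← hd]
    exact hxy

end Pool.Agent.Lib.D13.TW7221
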