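import Pool.Agent.Lib.D13.Tower
import Pool.Agent.Lib.D13.Refl
import Pool.Agent.Lib.Q5dc.Sum2

/-!
# MP_5dcbc3_ag: the tower theorem with checked tables

`TowerCk.exr_of_ck`: a checker for the exactness condition `EXr` of a base point.

`TowerCk.EXv`: the exactness condition in terms of vectors, and `EXv.exr`.

`cl_tower_ck`: the tower theorem for a checked base point and an arbitrary index type.
-/

namespace Pool.Agent.Lib.D13

open Matrix Pool.Agent.Lib.Q5dc Pool.Agent.Lib.D7 Refl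

variable {k : Type*} [Field k]

namespace TowerCk

/-! ### vector form -/

section Vec

variable {ι : Type*} [Fintype ι]

/-- exactness of the Koszul complex of the part of degree `1` on the level `a`, vectors -/
def EXv (w : ι → ℕ) (T : Fin 3 → Matrix ι ι k) (a : ℕ) : Prop :=
  ∀ g : Fin 3 → ι → k, (∀ i z, w z ≠ a → g i z = 0) →
    (∀ i x, w x = a + 1 → (T (i + 1) *ᵥ g (i + 2)) x = (T (i + 2) *ᵥ g (i + 1)) x) →
    ∃ v : ι → k, (∀ y, w y + 1 ≠ a → v y = 0) ∧ ∀ i z, w z = a → g i z = (T i *ᵥ v) z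

theorem EXv.exr {w : ι → ℕ} {T : Fin 3 → Matrix ι ι k} {a : ℕ} (h : EXv w T a) : EXr w T a := by
  classical
  intro ω hω hJω
  let L : Matrix (Fin 3 × ι) ι k := Matrix.of fun r u =>
    if w r.2 = a ∧ w u + 1 = a then T r.1 r.2 u else 0
  let J : Matrix ((Fin 3 × ι) ⊕ (Fin 3 × ι)) (Fin 3 × ι) k := Matrix.of fun q r =>
    Sum.elim (fun q => if w q.2 = a + 1 ∧ w r.2 = a then
      ((if r.1 = q.1 + 2 then T (q.1 + 1) q.2 r.2 else 0) -
        (if r.1 = q.1 + 1 then T (q.1 + 2) q.2 r.2 else 0)) else 0)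
      (fun q => if w q.2 ≠ a ∧ q = r then 1 else 0) q
  have hJ2 : ∀ (g : Fin 3 × ι → k) (q : Fin 3 × ι), w q.2 ≠ a → (J *ᵥ g) (Sum.inr q) = g q := by
    intro g q hq
    simp only [Matrix.mulVec, dotProduct, J, Matrix.of_apply, Sum.elim_inr]
    rw [Finset.sum_eq_single q]
    · rw [if_pos ⟨hq, rfl⟩, one_mul]
    · intro b _ hb
      rw [if_neg (fun h => hb h.2.symm), zero_mul]
    · intro h
      exact absurd (Finset.mem_univ _) h
  have hJ1 : ∀ (g : Fin 3 × ι → k) (i : Fin 3) (y : ι), w y = a + 1 →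
      (∀ i z, w z ≠ a → g (i, z) = 0) → (J *ᵥ g) (Sum.inl (i, y)) =
      (T (i + 1) *ᵥ fun z => g (i + 2, z)) y - (T (i + 2) *ᵥ fun z => g (i + 1, z)) y := by
    intro g i y hy hg
    simp only [Matrix.mulVec, dotProduct, J, Matrix.of_apply, Sum.elim_inl]
    rw [Fintype.sum_prod_type, Finset.sum_comm, ← Finset.sum_sub_distrib]
    refine Finset.sum_congr rfl fun z _ => ?_
    by_cases hz : w z = a
    · simp only [if_pos (And.intro hy hz)]
      fin_cases i <;> simp [Fin.sum_univ_three] <;> ring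
    · simp only [hg _ z hz, mul_zero, Finset.sum_const_zero, sub_zero]
  have hex : ∀ g : Fin 3 × ι → k, J *ᵥ g = 0 → ∃ v : ι → k, L *ᵥ v = g := by
    intro g hg
    have hg0 : ∀ i z, w z ≠ a → g (i, z) = 0 := by
      intro i z hz
      rw [← hJ2 g (i, z) hz, hg, Pi.zero_apply]
    obtain ⟨v, hv, hv'⟩ := h (fun i z => g (i, z)) hg0 (by
      intro i x hx
      have h1 := hJ1 g i x hx hg0
      rw [hg, Pi.zero_apply] at h1
      exact (sub_eq_zero.1 h1.symm))
    refine ⟨v, ?_⟩
    funext r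
    obtain ⟨i, z⟩ := r
    by_cases hz : w z = a
    · have h2 := hv' i z hz
      simp only [Matrix.mulVec, dotProduct, L, Matrix.of_apply] at h2 ⊢
      rw [h2]
      refine Finset.sum_congr rfl fun u _ => ?_
      by_cases hu : w u + 1 = a
      · rw [if_pos ⟨hz, hu⟩]
      · rw [hv u hu, mul_zero, mul_zero]
    · rw [hg0 i z hz]
      simp only [Matrix.mulVec, dotProduct, L, Matrix.of_apply]
      refine Finset.sum_eq_zero fun u _ => ?_
      rw [if_neg (fun h => hz h.1), zero_mul]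
  obtain ⟨χ, hχ⟩ := dual_exact L J hex (fun r => ω r.1 r.2) (by
    funext u
    by_cases hu : w u + 1 = a
    · rw [Pi.zero_apply, ← hJω u hu]
      simp only [Jh, Finset.sum_apply, Matrix.vecMul, dotProduct, L, Matrix.of_apply]
      rw [Fintype.sum_prod_type]
      refine Finset.sum_congr rfl fun i _ => Finset.sum_congr rfl fun z _ => ?_
      by_cases hz : w z = a
      · rw [if_pos ⟨hz, hu⟩]
      · rw [hω i z hz, zero_mul, zero_mul]
    · simp only [Matrix.vecMul, dotProduct, L, Matrix.of_apply]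
      refine Finset.sum_eq_zero fun r _ => ?_
      rw [if_neg (fun h => hu h.2), mul_zero])
  refine ⟨fun i y => if w y = a + 1 then χ (Sum.inl (i, y)) else 0, fun i y hy => if_neg hy, ?_⟩
  intro j z hz
  have h1 := congrFun hχ (j, z)
  simp only [Matrix.vecMul, dotProduct, J, Matrix.of_apply, Fintype.sum_sum_type, Sum.elim_inl,
    Sum.elim_inr] at h1
  rw [show (∑ q : Fin 3 × ι, χ (Sum.inr q) * if w q.2 ≠ a ∧ q = (j, z) then (1 : k) else 0) = 0 by
    refine Finset.sum_eq_zero fun q _ => ?_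
    by_cases hq : q = (j, z)
    · rw [if_neg (fun h => h.1 (by rw [hq]; exact hz)), mul_zero]
    · rw [if_neg (fun h => hq h.2), mul_zero], add_zero, Fintype.sum_prod_type, Finset.sum_comm]
    at h1
  rw [← h1]
  simp only [Ph, Pi.sub_apply, Matrix.vecMul, dotProduct]
  rw [← Finset.sum_sub_distrib]
  refine Finset.sum_congr rfl fun y _ => ?_
  by_cases hy : w y = a + 1
  · simp only [if_pos (And.intro hy hz), if_pos hy]
    fin_cases j <;> simp [Fin.sum_univ_three] <;> ring
  · simp [hy]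

/-- transport along an equivalence -/
theorem _root_.Pool.Agent.Lib.D13.EXr.equiv {κ : Type*} [Fintype κ] {w : ι → ℕ}
    {T : Fin 3 → Matrix ι ι k} {a : ℕ} (h : EXr w T a) (e : ι ≃ κ) (w' : κ → ℕ)
    (he : ∀ x, w' (e x) = w x) : EXr w' (fun i => (T i).submatrix e.symm e.symm) a := by
  have he' : ∀ y, w (e.symm y) = w' y := fun y => by rw [← he, Equiv.apply_symm_apply]
  have key : ∀ (v : κ → k) (i : Fin 3) (y : κ),
      (v ᵥ* (T i).submatrix e.symm e.symm) y = ((fun x => v (e x)) ᵥ* T i) (e.symm y) := by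
    intro v i y
    simp only [Matrix.vecMul, dotProduct, Matrix.submatrix_apply]
    rw [← Equiv.sum_comp e]
    simp only [Equiv.symm_apply_apply]
  intro ω hω hJ
  obtain ⟨φ, h1, h2⟩ := h (fun i x => ω i (e x)) (fun i z hz => hω i (e z) (by rw [he]; exact hz))
    (by
      intro u hu
      have h3 := hJ (e u) (by rw [he]; exact hu)
      simp only [Jh, Finset.sum_apply, key, Equiv.symm_apply_apply] at h3 ⊢
      exact h3)
  refine ⟨fun i y => φ i (e.symm y), fun i y hy => h1 i _ (by rw [he']; exact hy), ?_⟩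
  intro i z hz
  have h3 := h2 i (e.symm z) (by rw [he']; exact hz)
  simp only [Ph, Pi.sub_apply, key, Equiv.symm_apply_apply, Equiv.apply_symm_apply] at h3 ⊢
  exact h3

end Vec

/-! ### the checker -/

/-- certificate of exactness -/
structure EC where
  /-- common denominator -/
  den : ℤ
  /-- the rows `φ` -/
  F : List (List LF)
  /-- combinations of the conditions -/
  W : List (List LF)

namespace EC

variable (C : EC) (B : Base)

/-- the unknown `ω i z` -/
def om (B : Base) (D a i z : ℕ) : LF := bif Nat.beq (B.w z) a then [(i * D + z, 1)] else []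

/-- the condition at `u` -/
def con (B : Base) (D a u : ℕ) : LF :=
  bif Nat.beq (B.w u + 1) a then
    add (sm (fun z => B.Xe 0 z u) (fun z => om B D a 0 z) D)
      (add (sm (fun z => B.Xe 1 z u) (fun z => om B D a 1 z) D)
        (sm (fun z => B.Xe 2 z u) (fun z => om B D a 2 z) D))
  else []

/-- the row `φ i` -/
def Fe (a i y : ℕ) : LF :=
  bif Nat.beq (B.w y) (a + 1) then nth [] (nth [] C.F i) y else []

/-- combination -/
def We (i z : ℕ) : LF := nth [] (nth [] C.W i) z

/-- one equation -/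
def eqn (D a i j l z : ℕ) : LF :=
  add (add (add (sm (fun y => B.Xe l y z) (fun y => C.Fe B a j y) D)
    (scl (-1) (sm (fun y => B.Xe j y z) (fun y => C.Fe B a l y) D)))
    (sml (fun u => con B D a (u % D)) (C.We i z))) (scl (-C.den) [(i * D + z, 1)])

/-- the check -/
def ck (D a : ℕ) : Bool :=
  !(isz C.den) && allb (fun z => bif Nat.beq (B.w z) a then
    ((C.eqn B D a 0 1 2 z).isEmpty && (C.eqn B D a 1 2 0 z).isEmpty &&
      (C.eqn B D a 2 0 1 z).isEmpty) else true) D

end EC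

section Sound

variable {D : ℕ}

/-- the values of the unknowns -/
def vo (D : ℕ) (ω : Fin 3 → Fin D → k) (c : ℕ) : k :=
  if h : c % D < D ∧ c / D < 3 then ω ⟨c / D, h.2⟩ ⟨c % D, h.1⟩ else 0

theorem vo_code (ω : Fin 3 → Fin D → k) (i : Fin 3) (z : Fin D) :
    vo D ω (i * D + z) = ω i z := by
  have hD : 0 < D := lt_of_le_of_lt (Nat.zero_le _) z.2
  have h1 : ((i : ℕ) * D + z) % D = z := by
    rw [Nat.add_comm, Nat.add_mul_mod_self_right, Nat.mod_eq_of_lt z.2]
  have h2 : ((i : ℕ) * D + z) / D = i := by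
    rw [Nat.add_comm, Nat.add_mul_div_right _ _ hD, Nat.div_eq_of_lt z.2, zero_add]
  have h3 : ((i : ℕ) * D + z) % D < D ∧ ((i : ℕ) * D + z) / D < 3 := by
    rw [h1, h2]
    exact ⟨z.2, i.2⟩
  have h4 : ∀ (a b : ℕ) (ha : a < 3) (hb : b < D), a = i → b = z → ω ⟨a, ha⟩ ⟨b, hb⟩ = ω i z := by
    intro a b ha hb h1 h2
    subst h1 h2
    rfl
  rw [vo, dif_pos h3]
  exact h4 _ _ _ _ h2 h1

variable (B : Base) {a : ℕ}

theorem ev_om {ω : Fin 3 → Fin D → k} (hω : ∀ i (z : Fin D), B.w z ≠ a → ω i z = 0) (i : Fin 3)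
    (z : Fin D) : ev (vo D ω) (EC.om B D a i z) = ω i z := by
  rw [EC.om]
  cases h1 : Nat.beq (B.w z) a with
  | true =>
    rw [cond_true, ev, ev, vo_code]
    simp
  | false =>
    have h2 : B.w z ≠ a := fun h => by
      rw [h] at h1
      simp at h1
    rw [cond_false, ev, hω i z h2]

theorem ev_con0 {ω : Fin 3 → Fin D → k} (hω : ∀ i (z : Fin D), B.w z ≠ a → ω i z = 0)
    (hJ : ∀ u : Fin D, B.w u + 1 = a → Jh (XX k B D) ω u = 0) (u : Fin D) :
    ev (vo D ω) (EC.con B D a u) = 0 := by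
  rw [EC.con]
  cases h1 : Nat.beq (B.w u + 1) a with
  | false => rw [cond_false, ev]
  | true =>
    have h2 : B.w u + 1 = a := Nat.eq_of_beq_eq_true h1
    rw [cond_true, ev_add, ev_add, ev_sm, ev_sm, ev_sm, ← hJ u h2]
    have e0 : ∀ z : Fin D, ev (vo D ω) (EC.om B D a 0 z) = ω 0 z := fun z => ev_om B hω 0 z
    have e1 : ∀ z : Fin D, ev (vo D ω) (EC.om B D a 1 z) = ω 1 z := fun z => ev_om B hω 1 z
    have e2 : ∀ z : Fin D, ev (vo D ω) (EC.om B D a 2 z) = ω 2 z := fun z => ev_om B hω 2 z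
    simp only [e0, e1, e2, Jh, Fin.sum_univ_three, Pi.add_apply, Matrix.vecMul, dotProduct]
    have e3 : ∀ (i : Fin 3) (z : Fin D), XX k B D i z u = ((B.Xe i z u : ℤ) : k) := fun _ _ => rfl
    simp only [e3]
    simp only [mul_comm (ω _ _)]
    rw [add_assoc]
    rfl

theorem eqn_sound {C : EC} {ω φ : Fin 3 → Fin D → k} (hD : 0 < D)
    (hω : ∀ i (z : Fin D), B.w z ≠ a → ω i z = 0)
    (hJ : ∀ u : Fin D, B.w u + 1 = a → Jh (XX k B D) ω u = 0)
    (hφ : ∀ (i : Fin 3) (y : Fin D), (C.den : k) * φ i y = ev (vo D ω) (C.Fe B a i y))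
    (i j l : Fin 3) (z : Fin D) (h : (C.eqn B D a i j l z).isEmpty = true) :
    (C.den : k) * ω i z = (C.den : k) * ((φ j ᵥ* XX k B D l) z - (φ l ᵥ* XX k B D j) z) := by
  rw [List.isEmpty_iff] at h
  have h5 : ev (vo D ω) (C.eqn B D a i j l z) = 0 := by rw [h, ev]
  rw [EC.eqn, ev_add, ev_add, ev_add, ev_scl, ev_scl, ev_sm, ev_sm, ev_sml _ _ (fun c =>
    ev_con0 B hω hJ ⟨c % D, Nat.mod_lt _ hD⟩), ev, ev, vo_code] at h5
  simp only [← hφ] at h5
  have e3 : ∀ (p q : Fin 3), (C.den : k) * (φ p ᵥ* XX k B D q) z =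
      ∑ y : Fin D, ((B.Xe q y z : ℤ) : k) * ((C.den : k) * φ p y) := by
    intro p q
    simp only [Matrix.vecMul, dotProduct, Finset.mul_sum]
    refine Finset.sum_congr rfl fun y _ => ?_
    have e4 : XX k B D q y z = ((B.Xe q y z : ℤ) : k) := rfl
    rw [e4]
    ring
  rw [mul_sub, e3, e3]
  push_cast at h5
  linear_combination -h5

theorem exr_of_ck [CharZero k] (hD : 0 < D) (C : EC) (h : C.ck B D a = true) :
    EXr (fun x : Fin D => B.w x) (XX k B D) a := by
  simp only [EC.ck, Bool.and_eq_true, Bool.not_eq_true'] at h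
  obtain ⟨hden, h2⟩ := h
  have hden' : (C.den : k) ≠ 0 := by
    intro h
    have h1 : C.den = 0 := by exact_mod_cast h
    rw [h1] at hden
    exact absurd hden (by simp [isz])
  intro ω hω hJ
  refine ⟨fun i y => (C.den : k)⁻¹ * ev (vo D ω) (C.Fe B a i y), ?_, ?_⟩
  · intro i y hy
    have h3 : Nat.beq (B.w y) (a + 1) = false := by
      cases h4 : Nat.beq (B.w y) (a + 1) with
      | false => rfl
      | true => exact absurd (Nat.eq_of_beq_eq_true h4) hy
    have h5 : C.Fe B a i y = [] := by rw [EC.Fe, h3, cond_false]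
    show (C.den : k)⁻¹ * ev (vo D ω) (C.Fe B a i y) = 0
    rw [h5, ev, mul_zero]
  · intro i z hz
    have hz' : B.w z = a := hz
    have h3 := allb_iff h2 z z.2
    have h4 : Nat.beq (B.w z) a = true := by rw [hz', Nat.beq_refl]
    rw [h4, cond_true, Bool.and_eq_true, Bool.and_eq_true] at h3
    have hφ : ∀ (i : Fin 3) (y : Fin D), (C.den : k) *
        ((C.den : k)⁻¹ * ev (vo D ω) (C.Fe B a i y)) = ev (vo D ω) (C.Fe B a i y) :=
      fun i y => mul_inv_cancel_left₀ hden' _
    have key := eqn_sound B hD hω hJ hφ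
    have h5 : (C.den : k) * ω i z = (C.den : k) * Ph (XX k B D)
        (fun i y => (C.den : k)⁻¹ * ev (vo D ω) (C.Fe B a i y)) i z := by
      fin_cases i
      · exact key 0 1 2 z h3.1.1
      · exact key 1 2 0 z h3.1.2
      · exact key 2 0 1 z h3.2
    exact (mul_left_cancel₀ hden' h5).symm

end Sound

/-! ### any index type -/

section Final

variable {ι : Type*} [Fintype ι]

/-- a level preserving bijection -/
theorem exists_lev {κ : Type*} [Fintype κ] (w : ι → ℕ) (w' : κ → ℕ)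
    (h : ∀ a, Fintype.card {x // w x = a} = Fintype.card {x // w' x = a}) :
    ∃ e : ι ≃ κ, ∀ x, w' (e x) = w x := by
  have f : ∀ a, {x // w x = a} ≃ {x // w' x = a} := fun a =>
    Classical.choice ((Fintype.card_eq).1 (h a))
  refine ⟨(Equiv.sigmaFiberEquiv w).symm.trans
    ((Equiv.sigmaCongrRight f).trans (Equiv.sigmaFiberEquiv w')), fun x => ?_⟩
  show w' ((f (w x) ⟨x, rfl⟩ : {y // w' y = w x}) : κ) = w x
  exact (f (w x) ⟨x, rfl⟩).2

variable [DecidableEq ι] {D : ℕ} {B : Base}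

/-- **Tower theorem with a checked base point.** -/
theorem cl_tower_ck [CharZero k] (hD : 0 < D) (hB : B.ck D = true)
    (cert : ∀ κ, 1 ≤ κ → Cert (fun x : Fin D => B.w x) (Mt k D (nth [] B.pw 1)) (XX k B D) κ)
    (Lm : ℕ) (hle' : ∀ x : Fin D, B.w x ≤ Lm)
    (eX : ∀ a, a + 2 ≤ Lm → EXr (fun x : Fin D => B.w x) (XX k B D) a)
    (w : ι → ℕ) (hle : ∀ x, w x ≤ Lm)
    (hn : ∀ a, a ≤ Lm → Fintype.card {x // w x = a} = Fintype.card {x : Fin D // B.w x = a})
    {T : Fin 3 → Matrix ι ι k} (hT : ∀ i j, T i * T j = T j * T i)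
    (hlow : ∀ i x y, w x ≤ w y → T i x y = 0) (eT : ∀ a, a + 2 ≤ Lm → EXr w T a) : Cl T := by
  obtain ⟨e, he⟩ := exists_lev w (fun x : Fin D => B.w x) (by
    intro a
    rcases Nat.lt_or_ge Lm a with h | h
    · rw [Fintype.card_eq_zero_iff.2, Fintype.card_eq_zero_iff.2]
      · exact ⟨fun x => by have h1 := hle' x.1; have h2 := x.2; omega⟩
      · exact ⟨fun x => by have h1 := hle x.1; have h2 := x.2; omega⟩
    · exact hn a h)
  have he' : ∀ a : Fin D, w (e.symm a) = B.w a := fun a => by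
    rw [← he, Equiv.apply_symm_apply]
  have hinf : Infinite k := inferInstance
  have hB' := hB
  simp only [Base.ck, Bool.and_eq_true] at hB'
  obtain ⟨⟨h1, h2⟩, h3⟩ := hB'
  have key : Cl (fun i => (T i).submatrix e.symm e.symm) := by
    refine cl_tower (w := fun x : Fin D => B.w x) (N0 := Mt k D (nth [] B.pw 1)) ?_ ?_
      (X := XX k B D) (X_poly B h1 h2) (X_deg B h3) cert Lm hle' eX ?_ ?_
      (fun a ha => (eT a ha).equiv e _ he)
    · rw [Fintype.card_fin]
      exact pw_top B h1 hD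
    · rw [Fintype.card_fin]
      exact pw_ne B h1 hD
    · intro i j
      rw [Matrix.submatrix_mul_equiv, Matrix.submatrix_mul_equiv, hT]
    · intro i x y hxy
      exact hlow i _ _ (by rw [he', he']; exact hxy)
  have h2 := Cl.mapEquiv (Matrix.reindexAlgEquiv k k e.symm) (Fintype.card_congr e.symm) key
  have e3 : (fun i => Matrix.reindexAlgEquiv k k e.symm ((T i).submatrix e.symm e.symm)) = T := by
    funext i
    ext x y
    simp [Matrix.coe_reindexAlgEquiv, Matrix.reindex_apply]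
  rwa [e3] at h2

end Final

end TowerCk

end Pool.Agent.Lib.D13
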