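import Pool.Agent.Lib.D13.Tower
import Pool.Agent.Lib.D13.Refl
import Pool.Agent.Lib.D13.S42

/-!
# MP_5dcbc3_ag: `cl_tower` and `fdc` with checked tables, on another index type

`cl_tower_ck`: the tower theorem with a base point given by checked tables (`Refl.Base`), for triples
on an index type `ι ≃ Fin D`. `exr0`, `exr1`: the exactness conditions on the index type `S42.I4 E F`.
-/

namespace Pool.Agent.Lib.D13

open Matrix Pool.Agent.Lib.Q5dc Pool.Agent.Lib.D7

variable {k : Type*} [Field k]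

open Refl

theorem cl_tower_ck [CharZero k] {D : ℕ} (hD : 0 < D) (B : Base) (hB : B.ck D = true)
    (cert : ∀ κ, 1 ≤ κ → Cert (fun x : Fin D => B.w x) (Mt k D (nth [] B.pw 1)) (XX k B D) κ)
    {ι : Type*} [Fintype ι] [DecidableEq ι] (e : ι ≃ Fin D) (lev : ι → ℕ)
    (hw : ∀ x, B.w (e x) = lev x) (Lm : ℕ) (hLm : ∀ x, lev x ≤ Lm)
    (eX : ∀ a, a + 2 ≤ Lm → EXr lev (fun i => (XX k B D i).submatrix e e) a)
    {T : Fin 3 → Matrix ι ι k} (hT : ∀ i j, T i * T j = T j * T i)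
    (hlow : ∀ i x y, lev x ≤ lev y → T i x y = 0) (eT : ∀ a, a + 2 ≤ Lm → EXr lev T a) :
    Cl T := by
  have hinf : Infinite k := inferInstance
  simp only [Base.ck, Bool.and_eq_true] at hB
  obtain ⟨⟨h1, h2⟩, h3⟩ := hB
  have hr : ∀ M : Matrix (Fin D) (Fin D) k,
      (Matrix.reindexAlgEquiv k k e.symm) M = M.submatrix e e := by
    intro M
    rfl
  have hcard : Fintype.card ι = D := by rw [Fintype.card_congr e, Fintype.card_fin]
  have hcert : ∀ κ, 1 ≤ κ → Cert lev ((Mt k D (nth [] B.pw 1)).submatrix e e)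
      (fun i => (XX k B D i).submatrix e e) κ := by
    intro κ hκ
    have h4 := (cert κ hκ).reindex e
    have h5 : (fun x => B.w (e x)) = lev := funext hw
    rwa [h5] at h4
  refine cl_tower (w := lev) (N0 := (Mt k D (nth [] B.pw 1)).submatrix e e) ?_ ?_
    (X := fun i => (XX k B D i).submatrix e e) ?_ ?_ hcert Lm hLm eX hT hlow eT
  · rw [hcard, ← hr, ← map_pow, pw_top B h1 hD, map_zero]
  · rw [hcard, ← hr, ← map_pow]
    intro h
    exact pw_ne B h1 hD ((map_eq_zero_iff _ (Matrix.reindexAlgEquiv k k e.symm).injective).1 h)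
  · intro i
    obtain ⟨p, hp0, hp⟩ := X_poly B h1 h2 (k := k) i
    refine ⟨p, hp0, ?_⟩
    simp only [hp]
    rw [← hr, ← hr, Polynomial.aeval_algEquiv]
    rfl
  · intro i x y hxy
    rw [Matrix.submatrix_apply]
    exact X_deg B h3 i _ _ (by rw [hw, hw]; exact hxy)

namespace S42

variable {E F : Type*} [Fintype E] [Fintype F]

/-- the levels -/
def lev : I4 E F → ℕ :=
  Sum.elim (Sum.elim (fun _ => 0) fun _ => 1) (Sum.elim (fun _ => 2) fun _ => 3)

theorem lev_le (x : I4 E F) : lev x ≤ 3 := by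
  rcases x with (x | x) | (x | x) <;> simp [lev]

theorem exr0 {T : Fin 3 → Matrix (I4 E F) (I4 E F) k} {A : Fin 3 → Matrix (E ⊕ F) E k}
    (hA : ∀ i v e, T i (.inl (.inr v)) (.inl (.inl e)) = A i v e)
    (h : ∀ ω : Fin 3 → E → k, ∃ φ : Fin 3 → E ⊕ F → k,
      ∀ i, φ (i + 1) ᵥ* A (i + 2) - φ (i + 2) ᵥ* A (i + 1) = ω i) : EXr lev T 0 := by
  intro ω _ _
  obtain ⟨φ, hφ⟩ := h fun i e => ω i (.inl (.inl e))
  refine ⟨fun i => Sum.elim (Sum.elim 0 (φ i)) 0, ?_, ?_⟩
  · rintro i ((y | y) | (y | y)) hy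
    · rfl
    · exact absurd rfl hy
    · rfl
    · rfl
  · rintro i ((z | z) | (z | z)) hz
    · have h1 := congrFun (hφ i) z
      rw [← h1]
      simp [Ph, Matrix.vecMul, dotProduct, Fintype.sum_sum_type, hA]
    all_goals exact absurd hz (by simp [lev])

theorem exr1 {T : Fin 3 → Matrix (I4 E F) (I4 E F) k} {A : Fin 3 → Matrix (E ⊕ F) E k}
    {B : Fin 3 → Matrix (E ⊕ F) (E ⊕ F) k}
    (hA : ∀ i v e, T i (.inl (.inr v)) (.inl (.inl e)) = A i v e)
    (hB : ∀ i u v, T i (.inr (.inl u)) (.inl (.inr v)) = B i u v)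
    (h : ∀ ω : Fin 3 → E ⊕ F → k, ω 0 ᵥ* A 0 + ω 1 ᵥ* A 1 + ω 2 ᵥ* A 2 = 0 →
      ∃ φ : Fin 3 → E ⊕ F → k, ∀ i, φ (i + 1) ᵥ* B (i + 2) - φ (i + 2) ᵥ* B (i + 1) = ω i) :
    EXr lev T 1 := by
  intro ω hω hJ
  obtain ⟨φ, hφ⟩ := h (fun i v => ω i (.inl (.inr v))) (by
    funext e
    have h1 := hJ (.inl (.inl e)) rfl
    have h2 : ∀ i, (∑ x, ω i x * T i x (.inl (.inl e))) =
        ∑ v, ω i (.inl (.inr v)) * A i v e := by
      intro i
      have z1 : ∀ x : E, ω i (.inl (.inl x)) = 0 := fun x => hω i _ (by simp [lev])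
      have z2 : ∀ x, ω i (.inr (.inl x)) = 0 := fun x => hω i _ (by simp [lev])
      have z3 : ∀ x : E, ω i (.inr (.inr x)) = 0 := fun x => hω i _ (by simp [lev])
      simp only [Fintype.sum_sum_type, z1, z2, z3, zero_mul, Finset.sum_const_zero, zero_add,
        add_zero, hA]
    simp only [Jh, Fin.sum_univ_three, Pi.add_apply, Matrix.vecMul, dotProduct] at h1 ⊢
    rw [h2, h2, h2] at h1
    simpa [Fintype.sum_sum_type] using h1)
  refine ⟨fun i => Sum.elim 0 (Sum.elim (φ i) 0), ?_, ?_⟩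
  · rintro i ((y | y) | (y | y)) hy
    · rfl
    · rfl
    · exact absurd rfl hy
    · rfl
  · rintro i ((z | z) | (z | z)) hz
    · exact absurd hz (by simp [lev])
    · have h1 := congrFun (hφ i) z
      rw [← h1]
      simp [Ph, Matrix.vecMul, dotProduct, Fintype.sum_sum_type, hB]
    all_goals exact absurd hz (by simp [lev])

end S42

end Pool.Agent.Lib.D13
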