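import Pool.Agent.Lib.D13.Tower
import Pool.Agent.Lib.D13.FdcW

/-!
# MP_5dcbc3_ag: the tower theorem with weights

The matrices `T i` have degrees `≥ de i`. `EXw w de T c`: Koszul exactness of the leading parts in
the total degree `c` (`ω i` on the level `c - de (i + 1) - de (i + 2)`, `φ i` on the level
`c - de i`).

`cl_towerW`: base point with all weighted certificates and exactness in the degrees `c ≤ Lm`, and a
commuting triple `T` of degrees `≥ de` with exactness in the degrees `c ≤ Lm`: then `Cl T`.
-/

namespace Pool.Agent.Lib.D13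

open Matrix Pool.Agent.Lib.Q5dc Pool.Agent.Lib.D7

variable {k : Type*} [Field k]

section TowerW

variable {ι : Type*} [Fintype ι]

/-- exactness of the Koszul complex of the leading parts in the degree `c`, in terms of rows -/
def EXw (w : ι → ℕ) (de : Fin 3 → ℕ) (T : Fin 3 → Matrix ι ι k) (c : ℕ) : Prop :=
  ∀ ω : Fin 3 → ι → k, (∀ i z, w z + de (i + 1) + de (i + 2) ≠ c → ω i z = 0) →
    (∀ u, w u + de 0 + de 1 + de 2 = c → Jh T ω u = 0) →
    ∃ φ : Fin 3 → ι → k, (∀ i y, w y + de i ≠ c → φ i y = 0) ∧
      ∀ i z, w z + de (i + 1) + de (i + 2) = c → Ph T φ i z = ω i z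

theorem de_sum (de : Fin 3 → ℕ) (i : Fin 3) : de i + de (i + 1) + de (i + 2) = de 0 + de 1 + de 2 := by
  fin_cases i
  · rfl
  · show de 1 + de 2 + de 0 = _
    omega
  · show de 2 + de 0 + de 1 = _
    omega

theorem i1 (i : Fin 3) : i + 1 + 1 = i + 2 := by fin_cases i <;> rfl
theorem i2 (i : Fin 3) : i + 1 + 2 = i := by fin_cases i <;> rfl
theorem i3 (i : Fin 3) : i + 2 + 1 = i := by fin_cases i <;> rfl
theorem i4 (i : Fin 3) : i + 2 + 2 = i + 1 := by fin_cases i <;> rfl

theorem EXw.congr {w : ι → ℕ} {de : Fin 3 → ℕ} (hde : ∀ i, 1 ≤ de i) {T T' : Fin 3 → Matrix ι ι k}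
    {c : ℕ} (h : EXw w de T c)
    (hT : ∀ i x y, w x = w y + de i → w x < c → T i x y = T' i x y) : EXw w de T' c := by
  intro ω h1 h2
  obtain ⟨φ, h3, h4⟩ := h ω h1 (by
    intro u hu
    rw [← h2 u hu]
    simp only [Jh, Finset.sum_apply]
    refine Finset.sum_congr rfl fun i _ => ?_
    refine vecMul_congr fun y hy => ?_
    by_cases h5 : w y + de (i + 1) + de (i + 2) = c
    · have h6 := de_sum de i
      have h7 := hde (i + 1)
      exact hT i y u (by omega) (by omega)
    · exact absurd (h1 i y h5) hy)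
  refine ⟨φ, h3, fun i z hz => ?_⟩
  rw [← h4 i z hz]
  simp only [Ph, Pi.sub_apply]
  have key1 : (φ (i + 1) ᵥ* T' (i + 2)) z = (φ (i + 1) ᵥ* T (i + 2)) z := by
    refine vecMul_congr fun y hy => ?_
    by_cases h5 : w y + de (i + 1) = c
    · have h7 := hde (i + 1)
      exact (hT _ y z (by omega) (by omega)).symm
    · exact absurd (h3 _ y h5) hy
  have key2 : (φ (i + 2) ᵥ* T' (i + 1)) z = (φ (i + 2) ᵥ* T (i + 1)) z := by
    refine vecMul_congr fun y hy => ?_
    by_cases h5 : w y + de (i + 2) = c
    · have h7 := hde (i + 2)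
      exact (hT _ y z (by omega) (by omega)).symm
    · exact absurd (h3 _ y h5) hy
  rw [key1, key2]

/-- the defect of rows of degree `≤ b` -/
theorem Ph_zero_of {w : ι → ℕ} {de : Fin 3 → ℕ} {T : Fin 3 → Matrix ι ι k}
    (hlow : ∀ i x y, w x < w y + de i → T i x y = 0) {b : ℕ} {φ : Fin 3 → ι → k}
    (hφ : ∀ i y, b < w y + de i → φ i y = 0) (i : Fin 3) (z : ι)
    (hz : b < w z + de (i + 1) + de (i + 2)) : Ph T φ i z = 0 := by
  have key1 : (φ (i + 1) ᵥ* T (i + 2)) z = 0 := by
    refine vecMul_zero_of fun y => ?_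
    by_cases h5 : b < w y + de (i + 1)
    · exact Or.inl (hφ _ y h5)
    · exact Or.inr (hlow _ y z (by omega))
  have key2 : (φ (i + 2) ᵥ* T (i + 1)) z = 0 := by
    refine vecMul_zero_of fun y => ?_
    by_cases h5 : b < w y + de (i + 2)
    · exact Or.inl (hφ _ y h5)
    · exact Or.inr (hlow _ y z (by omega))
  simp only [Ph, Pi.sub_apply, key1, key2, sub_zero]

/-- exactness of the filtered complex -/
theorem filt_exactW {w : ι → ℕ} {de : Fin 3 → ℕ} (hde : ∀ i, 1 ≤ de i)
    {T : Fin 3 → Matrix ι ι k} (hc : ∀ i j, T i * T j = T j * T i)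
    (hlow : ∀ i x y, w x < w y + de i → T i x y = 0) (l : ℕ) (hex : ∀ c ≤ l, EXw w de T c) :
    ∀ b ≤ l, ∀ ω : Fin 3 → ι → k, (∀ i z, b < w z + de (i + 1) + de (i + 2) → ω i z = 0) →
      Jh T ω = 0 → ∃ φ : Fin 3 → ι → k, (∀ i y, b < w y + de i → φ i y = 0) ∧ Ph T φ = ω := by
  intro b
  induction b with
  | zero =>
    intro _ ω hω _
    refine ⟨0, fun _ _ _ => rfl, ?_⟩
    funext i z
    have h1 := hde (i + 1)
    rw [hω i z (by omega)]
    simp [Ph]
  | succ b ih =>
    intro hb ω hω hJ
    classical
    set ω' : Fin 3 → ι → k := fun i z =>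
      if w z + de (i + 1) + de (i + 2) = b + 1 then ω i z else 0 with hω'
    obtain ⟨φ, h1, h2⟩ := hex (b + 1) hb ω' (fun i z h => by
        rw [hω']
        exact if_neg h) (by
      intro u hu
      have hJu : Jh T ω u = 0 := congrFun hJ u
      rw [← hJu]
      simp only [Jh, Finset.sum_apply]
      refine Finset.sum_congr rfl fun i _ => ?_
      simp only [Matrix.vecMul, dotProduct]
      refine Finset.sum_congr rfl fun z _ => ?_
      rw [hω']
      dsimp only
      by_cases h3 : w z + de (i + 1) + de (i + 2) = b + 1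
      · rw [if_pos h3]
      · rw [if_neg h3, zero_mul]
        by_cases h4 : b + 1 < w z + de (i + 1) + de (i + 2)
        · rw [hω i z h4, zero_mul]
        · have h6 := de_sum de i
          rw [hlow i z u (by omega), mul_zero])
    have hφ : ∀ i y, b + 1 < w y + de i → φ i y = 0 := fun i y hy => h1 i y (by omega)
    have h3 : ∀ i z, b < w z + de (i + 1) + de (i + 2) → (ω - Ph T φ) i z = 0 := by
      intro i z hz
      simp only [Pi.sub_apply]
      by_cases h4 : w z + de (i + 1) + de (i + 2) = b + 1
      · rw [h2 i z h4, hω']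
        dsimp only
        rw [if_pos h4, sub_self]
      · rw [hω i z (by omega), Ph_zero_of hlow hφ i z (by omega), sub_zero]
    obtain ⟨φ', h4, h5⟩ := ih (by omega) (ω - Ph T φ) h3 (by
      rw [Jh_sub, hJ, Jh_Ph hc, sub_zero])
    refine ⟨φ + φ', fun i y hy => ?_, ?_⟩
    · rw [Pi.add_apply, Pi.add_apply, hφ i y (by omega), h4 i y (by omega), add_zero]
    · rw [Ph_add, h5, add_sub_cancel]

variable [DecidableEq ι]

/-- lifting of a row -/
theorem row_liftW [Infinite k] {w : ι → ℕ} {de : Fin 3 → ℕ} (hde : ∀ i, 1 ≤ de i)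
    {c : k → Fin 3 → Matrix ι ι k} (hp : PolyFam c)
    (hcm : ∀ s i j, c s i * c s j = c s j * c s i)
    (hlow : ∀ s i x y, w x < w y + de i → c s i x y = 0) (m : ℕ)
    (hex : ∀ a ≤ m, EXw w de (c 0) a)
    (φ₀ : Fin 3 → ι → k) (hφ₀ : ∀ i y, m < w y + de i → φ₀ i y = 0) (h0 : Ph (c 0) φ₀ = 0) :
    ∃ φ : k → Fin 3 → ι → k, (∀ i y, IsPoly fun s => φ s i y) ∧ φ 0 = φ₀ ∧
      (∀ s i y, m < w y + de i → φ s i y = 0) ∧ ∀ s, Ph (c s) (φ s) = 0 := by
  let mk : (Fin 3 × ι → k) → Fin 3 → ι → k := fun v i y =>
    if w y + de i ≤ m then v (i, y) else 0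
  have hmk0 : ∀ v i y, m < w y + de i → mk v i y = 0 := fun v i y h => if_neg (by omega)
  set L : k → Matrix (Fin 3 × ι) (Fin 3 × ι) k := fun s => Matrix.of fun a b =>
    if w b.2 + de b.1 ≤ m then ((if b.1 = a.1 + 1 then c s (a.1 + 2) b.2 a.2 else 0) -
      (if b.1 = a.1 + 2 then c s (a.1 + 1) b.2 a.2 else 0)) else 0 with hL
  set J : k → Matrix (ι ⊕ (Fin 3 × ι)) (Fin 3 × ι) k := fun s => Matrix.of fun u a =>
    match u with
    | .inl u => c s a.1 a.2 u
    | .inr q => if q = a ∧ m < w q.2 + de (q.1 + 1) + de (q.1 + 2) then 1 else 0 with hJ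
  have hLφ : ∀ s (φ : Fin 3 × ι → k) i z, (L s *ᵥ φ) (i, z) = Ph (c s) (mk φ) i z := by
    intro s φ i z
    have e1 : (L s *ᵥ φ) (i, z) = ∑ j : Fin 3, ∑ y : ι,
        ((if j = i + 1 then c s (i + 2) y z else 0) * mk φ j y -
          (if j = i + 2 then c s (i + 1) y z else 0) * mk φ j y) := by
      simp only [hL, Matrix.mulVec, dotProduct, Matrix.of_apply, Fintype.sum_prod_type]
      refine Finset.sum_congr rfl fun j _ => Finset.sum_congr rfl fun y _ => ?_
      by_cases h : w y + de j ≤ m
      · simp only [if_pos h, mk]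
        ring
      · simp only [if_neg h, mk]
        ring
    rw [e1]
    simp only [Finset.sum_sub_distrib, ite_mul, zero_mul, Ph, Pi.sub_apply, Matrix.vecMul,
      dotProduct]
    congr 1
    · rw [Finset.sum_eq_single (i + 1)]
      · simp [mul_comm]
      · intro j _ hj
        simp [hj]
      · simp
    · rw [Finset.sum_eq_single (i + 2)]
      · simp [mul_comm]
      · intro j _ hj
        simp [hj]
      · simp
  have hJω : ∀ s (ω : Fin 3 × ι → k) u, (J s *ᵥ ω) (.inl u) =
      Jh (c s) (fun i y => ω (i, y)) u := by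
    intro s ω u
    simp only [hJ, Matrix.mulVec, dotProduct, Matrix.of_apply, Fintype.sum_prod_type, Jh,
      Finset.sum_apply, Matrix.vecMul]
    exact Finset.sum_congr rfl fun i _ => Finset.sum_congr rfl fun z _ => mul_comm _ _
  have hJω' : ∀ s (ω : Fin 3 × ι → k) q, (J s *ᵥ ω) (.inr q) =
      if m < w q.2 + de (q.1 + 1) + de (q.1 + 2) then ω q else 0 := by
    intro s ω q
    simp only [hJ, Matrix.mulVec, dotProduct, Matrix.of_apply]
    rw [Finset.sum_eq_single q]
    · by_cases h : m < w q.2 + de (q.1 + 1) + de (q.1 + 2) <;> simp [h]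
    · intro a _ ha
      simp [Ne.symm ha]
    · simp
  obtain ⟨v, hv, hv0, hvs⟩ := lift_exact L J (by
      intro x y
      simp only [hL, Matrix.of_apply]
      by_cases hm : w y.2 + de y.1 ≤ m
      · simp only [if_pos hm]
        refine D7.IsPoly.sub ?_ ?_
        · by_cases h : y.1 = x.1 + 1
          · simpa [h] using hp _ _ _
          · simpa [h] using D7.IsPoly.const (0 : k)
        · by_cases h : y.1 = x.1 + 2
          · simpa [h] using hp _ _ _
          · simpa [h] using D7.IsPoly.const (0 : k)
      · simpa [hm] using D7.IsPoly.const (0 : k)) (by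
      intro x y
      rcases x with x | x
      · exact hp _ _ _
      · exact D7.IsPoly.const _) (by
      intro s
      apply Matrix.ext_of_mulVec_single
      intro q
      rw [← Matrix.mulVec_mulVec, Matrix.zero_mulVec]
      set φ := (Pi.single q 1 : Fin 3 × ι → k)
      funext u
      rcases u with u | ⟨i, z⟩
      · rw [hJω]
        have h1 : (fun i y => (L s *ᵥ φ) (i, y)) = Ph (c s) (mk φ) := by
          funext i y
          exact hLφ s φ i y
        rw [h1, Jh_Ph (hcm s)]
        rfl
      · rw [hJω']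
        by_cases h : m < w z + de (i + 1) + de (i + 2)
        · rw [if_pos h, hLφ, Ph_zero_of (hlow s) (hmk0 φ) i z h]
          rfl
        · rw [if_neg h]
          rfl) (by
      intro ω hω
      have h1 : Jh (c 0) (fun i y => ω (i, y)) = 0 := by
        funext u
        rw [← hJω, hω]
        rfl
      have h2 : ∀ i z, m < w z + de (i + 1) + de (i + 2) → ω (i, z) = 0 := by
        intro i z hz
        have h3 := hJω' 0 ω (i, z)
        rw [hω, if_pos hz] at h3
        exact h3.symm
      obtain ⟨φ, hφm, hφ⟩ := filt_exactW hde (hcm 0) (hlow 0) m hex m le_rfl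
        (fun i y => ω (i, y)) h2 h1
      refine ⟨fun q => φ q.1 q.2, ?_⟩
      funext q
      obtain ⟨i, z⟩ := q
      have h3 : mk (fun q => φ q.1 q.2) = φ := by
        funext i y
        by_cases h : w y + de i ≤ m
        · exact if_pos h
        · exact (if_neg h).trans (hφm i y (by omega)).symm
      rw [hLφ, h3]
      exact congrFun (congrFun hφ i) z) (fun q => φ₀ q.1 q.2) (by
      funext q
      obtain ⟨i, z⟩ := q
      have h3 : mk (fun q => φ₀ q.1 q.2) = φ₀ := by
        funext i y
        by_cases h : w y + de i ≤ m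
        · exact if_pos h
        · exact (if_neg h).trans (hφ₀ i y (by omega)).symm
      rw [hLφ, h3]
      exact congrFun (congrFun h0 i) z)
  refine ⟨fun s => mk (v s), fun i y => ?_, ?_, fun s => hmk0 (v s), fun s => ?_⟩
  · by_cases h : w y + de i ≤ m
    · simpa [mk, h] using hv (i, y)
    · simpa [mk, h] using D7.IsPoly.const (0 : k)
  · funext i y
    by_cases h : w y + de i ≤ m
    · exact (if_pos h).trans (congrFun hv0 (i, y))
    · exact (if_neg h).trans (hφ₀ i y (by omega)).symm
  · funext i z
    rw [← hLφ, hvs]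
    rfl

/-- a commuting triple of degrees `≥ de` is joined with another one by a polynomial family -/
theorem pathW [Infinite k] {w : ι → ℕ} {de : Fin 3 → ℕ} (hde : ∀ i, 1 ≤ de i)
    {T₀ T : Fin 3 → Matrix ι ι k}
    (c0 : ∀ i j, T₀ i * T₀ j = T₀ j * T₀ i) (c1 : ∀ i j, T i * T j = T j * T i)
    (l0 : ∀ i x y, w x < w y + de i → T₀ i x y = 0) (l1 : ∀ i x y, w x < w y + de i → T i x y = 0)
    (Lm : ℕ) (hw : ∀ x, w x ≤ Lm) (e0 : ∀ a ≤ Lm, EXw w de T₀ a)
    (e1 : ∀ a ≤ Lm, EXw w de T a) :
    ∃ c : k → Fin 3 → Matrix ι ι k, PolyFam c ∧ (∀ s i j, c s i * c s j = c s j * c s i) ∧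
      (∀ s i x y, w x < w y + de i → c s i x y = 0) ∧ c 0 = T₀ ∧ c 1 = T := by
  have main : ∀ l, l ≤ Lm → ∃ c : k → Fin 3 → Matrix ι ι k, PolyFam c ∧
      (∀ s i j, c s i * c s j = c s j * c s i) ∧
      (∀ s i x y, w x < w y + de i → c s i x y = 0) ∧
      (∀ s i x y, l < w x → c s i x y = 0) ∧ (∀ i x y, w x ≤ l → c 0 i x y = T₀ i x y) ∧
      (∀ i x y, w x ≤ l → c 1 i x y = T i x y) := by
    intro l
    induction l with
    | zero =>
      intro _
      refine ⟨fun _ _ => 0, fun i x y => D7.IsPoly.const _, fun _ _ _ => rfl, fun _ _ _ _ _ => rfl,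
        fun _ _ _ _ _ => rfl, fun i x y h => ?_, fun i x y h => ?_⟩
      · rw [l0 i x y (by have := hde i; omega)]
        rfl
      · rw [l1 i x y (by have := hde i; omega)]
        rfl
    | succ l ih =>
      intro hl
      obtain ⟨c, hp, hcm, hlow, hrow, h0, h1⟩ := ih (by omega)
      have hx : ∀ x, w x = l + 1 → ∃ v : k → Fin 3 → ι → k, (∀ i y, IsPoly fun s => v s i y) ∧
          v 0 = (fun i => T₀ i x) ∧ v 1 = (fun i => T i x) ∧
          (∀ s i y, l + 1 < w y + de i → v s i y = 0) ∧ ∀ s, Ph (c s) (v s) = 0 := by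
        intro x hx
        have hrowT : ∀ (T' : Fin 3 → Matrix ι ι k) (c' : Fin 3 → Matrix ι ι k)
            (hcT : ∀ i j, T' i * T' j = T' j * T' i)
            (hl' : ∀ i x y, w x < w y + de i → T' i x y = 0)
            (he : ∀ i x y, w x ≤ l → c' i x y = T' i x y), Ph c' (fun i => T' i x) = 0 := by
          intro T' c' hcT hl' he
          funext i z
          have key : ∀ i j, (T' i x ᵥ* c' j) z = (T' i * T' j) x z := by
            intro i j
            rw [Matrix.mul_apply]
            simp only [Matrix.vecMul, dotProduct]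
            refine Finset.sum_congr rfl fun y _ => ?_
            by_cases h3 : w y ≤ l
            · rw [he j y z h3]
            · have h4 := hde i
              rw [hl' i x y (by omega), zero_mul, zero_mul]
          simp only [Ph, Pi.sub_apply, key]
          rw [hcT, sub_self]
          rfl
        obtain ⟨v0, a1, a2, a4, a3⟩ := row_liftW hde hp hcm hlow (l + 1) (fun a ha =>
          (e0 a (by omega)).congr hde fun i x y _ h => (h0 i x y (by omega)).symm) (fun i => T₀ i x)
          (fun i y hy => l0 i x y (by omega)) (hrowT T₀ (c 0) c0 l0 h0)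
        obtain ⟨v1, b1, b2, b4, b3⟩ := row_liftW hde (c := fun s => c (1 - s))
          (fun i x y => isPoly_flip (hp i x y)) (fun s => hcm _) (fun s => hlow _) (l + 1)
          (fun a ha =>
          (e1 a (by omega)).congr hde fun i x y _ h => by
            simp only [sub_zero]
            exact (h1 i x y (by omega)).symm) (fun i => T i x)
          (fun i y hy => l1 i x y (by omega))
          (by
            simp only [sub_zero]
            exact hrowT T (c 1) c1 l1 h1)
        refine ⟨fun s => (1 - s) • v0 s + s • v1 (1 - s), fun i y => ?_, ?_, ?_, ?_, fun s => ?_⟩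
        · exact (((D7.IsPoly.const 1).sub D7.IsPoly.id).mul (a1 i y)).add
            (D7.IsPoly.id.mul (isPoly_flip (b1 i y)))
        · simp [a2]
        · simp [b2]
        · intro s i y hy
          simp [a4 s i y hy, b4 (1 - s) i y hy]
        · have b4 := b3 (1 - s)
          simp only [sub_sub_cancel] at b4
          rw [Ph_add, Ph_smul, Ph_smul, a3, b4, smul_zero, smul_zero, add_zero]
      choose! v hv using hx
      set c' : k → Fin 3 → Matrix ι ι k := fun s i => Matrix.of fun x y =>
        if w x = l + 1 then v x s i y else c s i x y with hc'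
      have hvy : ∀ x, w x = l + 1 → ∀ s i y, l < w y → v x s i y = 0 := by
        intro x hx s i y hy
        have h4 := hde i
        exact (hv x hx).2.2.2.1 s i y (by omega)
      refine ⟨c', ?_, ?_, ?_, ?_, ?_, ?_⟩
      · intro i x y
        simp only [hc', Matrix.of_apply]
        by_cases h3 : w x = l + 1
        · simpa [h3] using (hv x h3).1 i y
        · simpa [h3] using hp i x y
      · intro s i j
        ext x z
        by_cases h3 : w x = l + 1
        · have key : ∀ i j, (c' s i * c' s j) x z = (v x s i ᵥ* c s j) z := by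
            intro i j
            rw [Matrix.mul_apply]
            simp only [Matrix.vecMul, dotProduct]
            refine Finset.sum_congr rfl fun y _ => ?_
            simp only [hc', Matrix.of_apply, if_pos h3]
            by_cases h4 : w y ≤ l
            · rw [if_neg (by omega)]
            · rw [hvy x h3 s i y (by omega), zero_mul, zero_mul]
          rw [key, key]
          have h5 := (hv x h3).2.2.2.2 s
          have h6 : ∀ i, (v x s (i + 1) ᵥ* c s (i + 2)) z = (v x s (i + 2) ᵥ* c s (i + 1)) z := by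
            intro i
            have h7 := congrFun (congrFun h5 i) z
            simp only [Ph, Pi.sub_apply, Pi.zero_apply] at h7
            exact sub_eq_zero.1 h7
          have e0 := h6 0
          have e1 := h6 1
          have e2 := h6 2
          have f0 : (0 : Fin 3) + 1 = 1 := rfl
          have f1 : (0 : Fin 3) + 2 = 2 := rfl
          have f2 : (1 : Fin 3) + 1 = 2 := rfl
          have f3 : (1 : Fin 3) + 2 = 0 := rfl
          have f4 : (2 : Fin 3) + 1 = 0 := rfl
          have f5 : (2 : Fin 3) + 2 = 1 := rfl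
          rw [f0, f1] at e0
          rw [f2, f3] at e1
          rw [f4, f5] at e2
          fin_cases i <;> fin_cases j <;>
            first | rfl | exact e0 | exact e1 | exact e2 | exact e0.symm | exact e1.symm |
              exact e2.symm
        · have key : ∀ i j, (c' s i * c' s j) x z = (c s i * c s j) x z := by
            intro i j
            rw [Matrix.mul_apply, Matrix.mul_apply]
            refine Finset.sum_congr rfl fun y _ => ?_
            simp only [hc', Matrix.of_apply, if_neg h3]
            by_cases h4 : w y < w x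
            · by_cases h5 : l < w x
              · rw [hrow s i x y h5, zero_mul, zero_mul]
              · rw [if_neg (by omega)]
            · have h6 := hde i
              rw [hlow s i x y (by omega), zero_mul, zero_mul]
          rw [key, key, hcm]
      · intro s i x y hxy
        simp only [hc', Matrix.of_apply]
        by_cases h3 : w x = l + 1
        · rw [if_pos h3, (hv x h3).2.2.2.1 s i y (by omega)]
        · rw [if_neg h3, hlow s i x y hxy]
      · intro s i x y hx
        simp only [hc', Matrix.of_apply]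
        rw [if_neg (by omega), hrow s i x y (by omega)]
      · intro i x y hx
        simp only [hc', Matrix.of_apply]
        by_cases h3 : w x = l + 1
        · rw [if_pos h3, (hv x h3).2.1]
        · rw [if_neg h3, h0 i x y (by omega)]
      · intro i x y hx
        simp only [hc', Matrix.of_apply]
        by_cases h3 : w x = l + 1
        · rw [if_pos h3, (hv x h3).2.2.1]
        · rw [if_neg h3, h1 i x y (by omega)]
  obtain ⟨c, hp, hcm, hlow, -, h0, h1⟩ := main Lm le_rfl
  refine ⟨c, hp, hcm, hlow, ?_, ?_⟩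
  · funext i
    ext x y
    exact h0 i x y (hw x)
  · funext i
    ext x y
    exact h1 i x y (hw x)

/-- **one base point is enough**, with weights -/
theorem cl_towerW [Infinite k] {w : ι → ℕ} {de : Fin 3 → ℕ} (hde : ∀ i, 1 ≤ de i)
    {N0 : Matrix ι ι k}
    (h1 : N0 ^ Fintype.card ι = 0) (h2 : N0 ^ (Fintype.card ι - 1) ≠ 0)
    {X : Fin 3 → Matrix ι ι k}
    (hX : ∀ i, ∃ p : Polynomial k, p.coeff 0 = 0 ∧ X i = Polynomial.aeval N0 p)
    (hdeg : ∀ i x y, w y + de i + 1 ≤ w x → X i x y = 0) (cert : ∀ κ, CertW w de N0 X κ)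
    (Lm : ℕ) (hw : ∀ x, w x ≤ Lm) (eX : ∀ a ≤ Lm, EXw w de X a)
    {T : Fin 3 → Matrix ι ι k} (hT : ∀ i j, T i * T j = T j * T i)
    (hlow : ∀ i x y, w x < w y + de i → T i x y = 0) (eT : ∀ a ≤ Lm, EXw w de T a) : Cl T := by
  have hXX : ∀ i j, X i * X j = X j * X i := by
    intro i j
    obtain ⟨p, -, hp⟩ := hX i
    obtain ⟨q, -, hq⟩ := hX j
    rw [hp, hq, ← map_mul, ← map_mul, mul_comm]
  set T₀ : Fin 3 → Matrix ι ι k := fun i => Matrix.of fun x y =>
    if w x = w y + de i then X i x y else 0 with hT₀
  have key : ∀ i j x z, (T₀ i * T₀ j) x z =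
      if w x = w z + (de i + de j) then (X i * X j) x z else 0 := by
    intro i j x z
    rw [Matrix.mul_apply]
    simp only [hT₀, Matrix.of_apply]
    split_ifs with h3
    · rw [Matrix.mul_apply]
      refine Finset.sum_congr rfl fun y _ => ?_
      by_cases h4 : w y = w z + de j
      · rw [if_pos (by omega), if_pos h4]
      · by_cases h5 : w y < w z + de j
        · rw [if_neg (by omega), zero_mul, hdeg i x y (by omega), zero_mul]
        · rw [if_neg h4, mul_zero, hdeg j y z (by omega), mul_zero]
    · refine Finset.sum_eq_zero fun y _ => ?_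
      by_cases h4 : w y = w z + de j
      · rw [if_neg (by omega), zero_mul]
      · rw [if_neg h4, mul_zero]
  obtain ⟨c, hp, hcm, hl, h0, hc1⟩ := pathW hde (w := w) (T₀ := T₀) (T := T) (by
      intro i j
      ext x z
      rw [key, key, hXX, Nat.add_comm (de i) (de j)]) hT (by
      intro i x y hxy
      simp only [hT₀, Matrix.of_apply]
      rw [if_neg (by omega)]) hlow Lm hw (fun a ha => (eX a ha).congr hde fun i x y hxy _ => by
      simp only [hT₀, Matrix.of_apply]
      rw [if_pos hxy]) eT
  have h3 := fdcW hde h1 h2 hX hdeg cert c hp hcm hl (by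
    intro i x y hxy
    rw [h0]
    simp only [hT₀, Matrix.of_apply]
    rw [if_pos hxy]) 1
  rwa [hc1] at h3

end TowerW

end Pool.Agent.Lib.D13
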