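import Pool.Agent.Lib.D13.TowerW
import Pool.Agent.Lib.D13.TowerCk
import Pool.Agent.Lib.D13.ReflW

/-!
# MP_5dcbc3_ag: the tower theorem with weights and checked tables
-/

namespace Pool.Agent.Lib.D13

open Matrix Pool.Agent.Lib.Q5dc Pool.Agent.Lib.D7 Refl

variable {k : Type*} [Field k]

/-- transport along an equivalence -/
theorem EXw.equiv {ι : Type*} [Fintype ι] {κ : Type*} [Fintype κ] {w : ι → ℕ} {de : Fin 3 → ℕ}
    {T : Fin 3 → Matrix ι ι k} {c : ℕ} (h : EXw w de T c) (e : ι ≃ κ) (w' : κ → ℕ)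
    (he : ∀ x, w' (e x) = w x) : EXw w' de (fun i => (T i).submatrix e.symm e.symm) c := by
  have he' : ∀ y, w (e.symm y) = w' y := fun y => by rw [← he, Equiv.apply_symm_apply]
  have key : ∀ (v : κ → k) (i : Fin 3) (y : κ),
      (v ᵥ* (T i).submatrix e.symm e.symm) y = ((fun x => v (e x)) ᵥ* T i) (e.symm y) := by
    intro v i y
    simp only [Matrix.vecMul, dotProduct, Matrix.submatrix_apply]
    rw [← Equiv.sum_comp e]
    simp only [Equiv.symm_apply_apply]
  intro ω hω hJ
  obtain ⟨φ, h1, h2⟩ := h (fun i x => ω i (e x)) (fun i z hz => hω i (e z) (by rw [he]; exact hz))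
    (by
      intro u hu
      have h3 := hJ (e u) (by rw [he]; exact hu)
      simp only [Jh, Finset.sum_apply, key, Equiv.symm_apply_apply] at h3 ⊢
      exact h3)
  refine ⟨fun i y => φ i (e.symm y), fun i y hy => h1 i _ (by rw [he']; exact hy), ?_⟩
  intro i z hz
  have h3 := h2 i (e.symm z) (by rw [he']; exact hz)
  simp only [Ph, Pi.sub_apply, key, Equiv.symm_apply_apply, Equiv.apply_symm_apply] at h3 ⊢
  exact h3

namespace TowerCk

/-- exactness of the Koszul complex of the leading parts in the degree `c`, in terms of vectors -/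
def EXvw {ι : Type*} [Fintype ι] (w : ι → ℕ) (de : Fin 3 → ℕ) (T : Fin 3 → Matrix ι ι k)
    (c : ℕ) : Prop :=
  ∀ g : Fin 3 → ι → k, (∀ i z, w z + de (i + 1) + de (i + 2) ≠ c → g i z = 0) →
    (∀ i x, w x + de i = c → (T (i + 1) *ᵥ g (i + 2)) x = (T (i + 2) *ᵥ g (i + 1)) x) →
    ∃ v : ι → k, (∀ y, w y + de 0 + de 1 + de 2 ≠ c → v y = 0) ∧
      ∀ i z, w z + de (i + 1) + de (i + 2) = c → g i z = (T i *ᵥ v) z

theorem EXvw.exw {ι : Type*} [Fintype ι] {w : ι → ℕ} {de : Fin 3 → ℕ}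
    {T : Fin 3 → Matrix ι ι k} {c : ℕ} (h : EXvw w de T c) : EXw w de T c := by
  classical
  intro ω hω hJω
  let L : Matrix (Fin 3 × ι) ι k := Matrix.of fun r u =>
    if w r.2 + de (r.1 + 1) + de (r.1 + 2) = c ∧ w u + de 0 + de 1 + de 2 = c then T r.1 r.2 u
    else 0
  let J : Matrix ((Fin 3 × ι) ⊕ (Fin 3 × ι)) (Fin 3 × ι) k := Matrix.of fun q r =>
    Sum.elim (fun q => if w q.2 + de q.1 = c ∧ w r.2 + de (r.1 + 1) + de (r.1 + 2) = c then
      ((if r.1 = q.1 + 2 then T (q.1 + 1) q.2 r.2 else 0) -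
        (if r.1 = q.1 + 1 then T (q.1 + 2) q.2 r.2 else 0)) else 0)
      (fun q => if w q.2 + de (q.1 + 1) + de (q.1 + 2) ≠ c ∧ q = r then 1 else 0) q
  have hJ2 : ∀ (g : Fin 3 × ι → k) (q : Fin 3 × ι), w q.2 + de (q.1 + 1) + de (q.1 + 2) ≠ c →
      (J *ᵥ g) (Sum.inr q) = g q := by
    intro g q hq
    simp only [Matrix.mulVec, dotProduct, J, Matrix.of_apply, Sum.elim_inr]
    rw [Finset.sum_eq_single q]
    · rw [if_pos ⟨hq, rfl⟩, one_mul]
    · intro b _ hb
      rw [if_neg (fun h => hb h.2.symm), zero_mul]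
    · intro h
      exact absurd (Finset.mem_univ _) h
  have hJ1 : ∀ (g : Fin 3 × ι → k) (i : Fin 3) (y : ι), w y + de i = c →
      (∀ i z, w z + de (i + 1) + de (i + 2) ≠ c → g (i, z) = 0) → (J *ᵥ g) (Sum.inl (i, y)) =
      (T (i + 1) *ᵥ fun z => g (i + 2, z)) y - (T (i + 2) *ᵥ fun z => g (i + 1, z)) y := by
    intro g i y hy hg
    have e1 : (J *ᵥ g) (Sum.inl (i, y)) = ∑ j : Fin 3, ∑ z : ι,
        ((if j = i + 2 then T (i + 1) y z else 0) * g (j, z) -
          (if j = i + 1 then T (i + 2) y z else 0) * g (j, z)) := by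
      simp only [Matrix.mulVec, dotProduct, J, Matrix.of_apply, Sum.elim_inl,
        Fintype.sum_prod_type]
      refine Finset.sum_congr rfl fun j _ => Finset.sum_congr rfl fun z _ => ?_
      by_cases hz : w z + de (j + 1) + de (j + 2) = c
      · rw [if_pos ⟨hy, hz⟩]
        ring
      · rw [hg j z hz]
        ring
    rw [e1]
    simp only [Finset.sum_sub_distrib, ite_mul, zero_mul, Matrix.mulVec, dotProduct]
    congr 1
    · rw [Finset.sum_eq_single (i + 2)]
      · simp
      · intro j _ hj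
        simp [hj]
      · simp
    · rw [Finset.sum_eq_single (i + 1)]
      · simp
      · intro j _ hj
        simp [hj]
      · simp
  have hex : ∀ g : Fin 3 × ι → k, J *ᵥ g = 0 → ∃ v : ι → k, L *ᵥ v = g := by
    intro g hg
    have hg0 : ∀ i z, w z + de (i + 1) + de (i + 2) ≠ c → g (i, z) = 0 := by
      intro i z hz
      rw [← hJ2 g (i, z) hz, hg, Pi.zero_apply]
    obtain ⟨v, hv, hv'⟩ := h (fun i z => g (i, z)) hg0 (by
      intro i x hx
      have h1 := hJ1 g i x hx hg0
      rw [hg, Pi.zero_apply] at h1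
      exact (sub_eq_zero.1 h1.symm))
    refine ⟨v, ?_⟩
    funext r
    obtain ⟨i, z⟩ := r
    by_cases hz : w z + de (i + 1) + de (i + 2) = c
    · have h2 := hv' i z hz
      simp only [Matrix.mulVec, dotProduct, L, Matrix.of_apply] at h2 ⊢
      rw [h2]
      refine Finset.sum_congr rfl fun u _ => ?_
      by_cases hu : w u + de 0 + de 1 + de 2 = c
      · rw [if_pos ⟨hz, hu⟩]
      · rw [hv u hu, mul_zero, mul_zero]
    · rw [hg0 i z hz]
      simp only [Matrix.mulVec, dotProduct, L, Matrix.of_apply]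
      refine Finset.sum_eq_zero fun u _ => ?_
      rw [if_neg (fun h => hz h.1), zero_mul]
  obtain ⟨χ, hχ⟩ := dual_exact L J hex (fun r => ω r.1 r.2) (by
    funext u
    by_cases hu : w u + de 0 + de 1 + de 2 = c
    · rw [Pi.zero_apply, ← hJω u hu]
      simp only [Jh, Finset.sum_apply, Matrix.vecMul, dotProduct, L, Matrix.of_apply]
      rw [Fintype.sum_prod_type]
      refine Finset.sum_congr rfl fun i _ => Finset.sum_congr rfl fun z _ => ?_
      by_cases hz : w z + de (i + 1) + de (i + 2) = c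
      · rw [if_pos ⟨hz, hu⟩]
      · rw [hω i z hz, zero_mul, zero_mul]
    · simp only [Matrix.vecMul, dotProduct, L, Matrix.of_apply]
      refine Finset.sum_eq_zero fun r _ => ?_
      rw [if_neg (fun h => hu h.2), mul_zero])
  refine ⟨fun i y => if w y + de i = c then χ (Sum.inl (i, y)) else 0, fun i y hy => if_neg hy, ?_⟩
  intro j z hz
  have h1 := congrFun hχ (j, z)
  simp only [Matrix.vecMul, dotProduct, J, Matrix.of_apply, Fintype.sum_sum_type, Sum.elim_inl,
    Sum.elim_inr] at h1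
  rw [show (∑ q : Fin 3 × ι, χ (Sum.inr q) *
      if w q.2 + de (q.1 + 1) + de (q.1 + 2) ≠ c ∧ q = (j, z) then (1 : k) else 0) = 0 by
    refine Finset.sum_eq_zero fun q _ => ?_
    by_cases hq : q = (j, z)
    · rw [if_neg (fun h => h.1 (by rw [hq]; exact hz)), mul_zero]
    · rw [if_neg (fun h => hq h.2), mul_zero], add_zero] at h1
  rw [← h1]
  have e1 : (∑ q : Fin 3 × ι, χ (Sum.inl q) *
      (if w q.2 + de q.1 = c ∧ w z + de (j + 1) + de (j + 2) = c then
        ((if j = q.1 + 2 then T (q.1 + 1) q.2 z else 0) -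
          (if j = q.1 + 1 then T (q.1 + 2) q.2 z else 0)) else 0)) =
      ∑ i : Fin 3, ∑ y : ι, ((if j = i + 2 then (if w y + de i = c then χ (Sum.inl (i, y)) else 0) *
        T (i + 1) y z else 0) -
        (if j = i + 1 then (if w y + de i = c then χ (Sum.inl (i, y)) else 0) *
        T (i + 2) y z else 0)) := by
    rw [Fintype.sum_prod_type]
    refine Finset.sum_congr rfl fun i _ => Finset.sum_congr rfl fun y _ => ?_
    by_cases hy : w y + de i = c
    · rw [if_pos ⟨hy, hz⟩, if_pos hy]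
      split_ifs <;> ring
    · rw [if_neg (fun h => hy h.1), if_neg hy]
      split_ifs <;> ring
  refine Eq.trans ?_ e1.symm
  simp only [Ph, Pi.sub_apply, Matrix.vecMul, dotProduct, Finset.sum_sub_distrib]
  congr 1
  · rw [Finset.sum_eq_single (j + 1)]
    · refine Finset.sum_congr rfl fun y _ => ?_
      rw [if_pos (i2 j).symm, i1]
    · intro i _ hi
      refine Finset.sum_eq_zero fun y _ => if_neg fun h => hi ?_
      rw [h, i3]
    · simp
  · rw [Finset.sum_eq_single (j + 2)]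
    · refine Finset.sum_congr rfl fun y _ => ?_
      rw [if_pos (i3 j).symm, i4]
    · intro i _ hi
      refine Finset.sum_eq_zero fun y _ => if_neg fun h => hi ?_
      rw [h, i2]
    · simp

namespace EC

variable (C : EC) (B : Base) (dl : List ℕ)

/-- the index of `ω i z` minus the level of `z` -/
def ix (dl : List ℕ) (i : ℕ) : ℕ :=
  nth 0 [nth 0 dl 1 + nth 0 dl 2, nth 0 dl 2 + nth 0 dl 0, nth 0 dl 0 + nth 0 dl 1] i

/-- the unknown `ω i z` -/
def omW (B : Base) (dl : List ℕ) (D c i z : ℕ) : LF :=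
  bif Nat.beq (B.w z + ix dl i) c then [(i * D + z, 1)] else []

/-- the condition at `u` -/
def conW (B : Base) (dl : List ℕ) (D c u : ℕ) : LF :=
  bif Nat.beq (B.w u + nth 0 dl 0 + nth 0 dl 1 + nth 0 dl 2) c then
    add (sm (fun z => B.Xe 0 z u) (fun z => omW B dl D c 0 z) D)
      (add (sm (fun z => B.Xe 1 z u) (fun z => omW B dl D c 1 z) D)
        (sm (fun z => B.Xe 2 z u) (fun z => omW B dl D c 2 z) D))
  else []

/-- the row `φ i` -/
def FeW (c i y : ℕ) : LF :=
  bif Nat.beq (B.w y + nth 0 dl i) c then nth [] (nth [] C.F i) y else []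

/-- one equation -/
def eqnW (D c i j l z : ℕ) : LF :=
  add (add (add (sm (fun y => B.Xe l y z) (fun y => C.FeW B dl c j y) D)
    (scl (-1) (sm (fun y => B.Xe j y z) (fun y => C.FeW B dl c l y) D)))
    (sml (fun u => conW B dl D c (u % D)) (C.We i z))) (scl (-C.den) [(i * D + z, 1)])

/-- the check -/
def ckW (D c : ℕ) : Bool :=
  !(isz C.den) && allb (fun z =>
    (bif Nat.beq (B.w z + ix dl 0) c then (C.eqnW B dl D c 0 1 2 z).isEmpty else true) &&
    (bif Nat.beq (B.w z + ix dl 1) c then (C.eqnW B dl D c 1 2 0 z).isEmpty else true) &&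
    (bif Nat.beq (B.w z + ix dl 2) c then (C.eqnW B dl D c 2 0 1 z).isEmpty else true)) D

end EC

section SoundW

variable {D : ℕ}

variable (B : Base) (dl : List ℕ) {c : ℕ}

theorem ix_eq (i : Fin 3) : EC.ix dl i = nth 0 dl (i + 1 : Fin 3) + nth 0 dl (i + 2 : Fin 3) := by
  fin_cases i <;> rfl

theorem ev_omW {ω : Fin 3 → Fin D → k}
    (hω : ∀ (i : Fin 3) (z : Fin D), B.w z + EC.ix dl i ≠ c → ω i z = 0) (i : Fin 3)
    (z : Fin D) : ev (vo D ω) (EC.omW B dl D c i z) = ω i z := by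
  rw [EC.omW]
  cases h1 : Nat.beq (B.w z + EC.ix dl i) c with
  | true =>
    rw [cond_true, ev, ev, vo_code]
    simp
  | false =>
    have h2 : B.w z + EC.ix dl i ≠ c := fun h => by
      rw [h] at h1
      simp at h1
    rw [cond_false, ev, hω i z h2]

theorem ev_conW0 {ω : Fin 3 → Fin D → k}
    (hω : ∀ (i : Fin 3) (z : Fin D), B.w z + EC.ix dl i ≠ c → ω i z = 0)
    (hJ : ∀ u : Fin D, B.w u + nth 0 dl 0 + nth 0 dl 1 + nth 0 dl 2 = c →
      Jh (XX k B D) ω u = 0) (u : Fin D) :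
    ev (vo D ω) (EC.conW B dl D c u) = 0 := by
  rw [EC.conW]
  cases h1 : Nat.beq (B.w u + nth 0 dl 0 + nth 0 dl 1 + nth 0 dl 2) c with
  | false => rw [cond_false, ev]
  | true =>
    have h2 : B.w u + nth 0 dl 0 + nth 0 dl 1 + nth 0 dl 2 = c := Nat.eq_of_beq_eq_true h1
    rw [cond_true, ev_add, ev_add, ev_sm, ev_sm, ev_sm, ← hJ u h2]
    have e0 : ∀ z : Fin D, ev (vo D ω) (EC.omW B dl D c 0 z) = ω 0 z := fun z => ev_omW B dl hω 0 z
    have e1 : ∀ z : Fin D, ev (vo D ω) (EC.omW B dl D c 1 z) = ω 1 z := fun z => ev_omW B dl hω 1 z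
    have e2 : ∀ z : Fin D, ev (vo D ω) (EC.omW B dl D c 2 z) = ω 2 z := fun z => ev_omW B dl hω 2 z
    simp only [e0, e1, e2, Jh, Fin.sum_univ_three, Pi.add_apply, Matrix.vecMul, dotProduct]
    have e3 : ∀ (i : Fin 3) (z : Fin D), XX k B D i z u = ((B.Xe i z u : ℤ) : k) := fun _ _ => rfl
    simp only [e3]
    simp only [mul_comm (ω _ _)]
    rw [add_assoc]
    rfl

theorem eqn_soundW {C : EC} {ω φ : Fin 3 → Fin D → k} (hD : 0 < D)
    (hω : ∀ (i : Fin 3) (z : Fin D), B.w z + EC.ix dl i ≠ c → ω i z = 0)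
    (hJ : ∀ u : Fin D, B.w u + nth 0 dl 0 + nth 0 dl 1 + nth 0 dl 2 = c →
      Jh (XX k B D) ω u = 0)
    (hφ : ∀ (i : Fin 3) (y : Fin D), (C.den : k) * φ i y = ev (vo D ω) (C.FeW B dl c i y))
    (i j l : Fin 3) (z : Fin D) (h : (C.eqnW B dl D c i j l z).isEmpty = true) :
    (C.den : k) * ω i z = (C.den : k) * ((φ j ᵥ* XX k B D l) z - (φ l ᵥ* XX k B D j) z) := by
  rw [List.isEmpty_iff] at h
  have h5 : ev (vo D ω) (C.eqnW B dl D c i j l z) = 0 := by rw [h, ev]
  rw [EC.eqnW, ev_add, ev_add, ev_add, ev_scl, ev_scl, ev_sm, ev_sm, ev_sml _ _ (fun u =>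
    ev_conW0 B dl hω hJ ⟨u % D, Nat.mod_lt _ hD⟩), ev, ev, vo_code] at h5
  simp only [← hφ] at h5
  have e3 : ∀ (p q : Fin 3), (C.den : k) * (φ p ᵥ* XX k B D q) z =
      ∑ y : Fin D, ((B.Xe q y z : ℤ) : k) * ((C.den : k) * φ p y) := by
    intro p q
    simp only [Matrix.vecMul, dotProduct, Finset.mul_sum]
    refine Finset.sum_congr rfl fun y _ => ?_
    have e4 : XX k B D q y z = ((B.Xe q y z : ℤ) : k) := rfl
    rw [e4]
    ring
  rw [mul_sub, e3, e3]
  push_cast at h5
  linear_combination -h5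

theorem exw_of_ck [CharZero k] (hD : 0 < D) (C : EC) (h : C.ckW B dl D c = true) :
    EXw (fun x : Fin D => B.w x) (fun i => nth 0 dl i) (XX k B D) c := by
  simp only [EC.ckW, Bool.and_eq_true, Bool.not_eq_true'] at h
  obtain ⟨hden, h2⟩ := h
  have hden' : (C.den : k) ≠ 0 := by
    intro h
    have h1 : C.den = 0 := by exact_mod_cast h
    rw [h1] at hden
    exact absurd hden (by simp [isz])
  intro ω hω hJ
  have hω' : ∀ (i : Fin 3) (z : Fin D), B.w z + EC.ix dl i ≠ c → ω i z = 0 := by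
    intro i z hz
    refine hω i z fun h3 => hz ?_
    rw [ix_eq]
    rw [← h3]
    show _ = B.w z + nth 0 dl _ + nth 0 dl _
    omega
  refine ⟨fun i y => (C.den : k)⁻¹ * ev (vo D ω) (C.FeW B dl c i y), ?_, ?_⟩
  · intro i y hy
    have h3 : Nat.beq (B.w y + nth 0 dl i) c = false := by
      cases h4 : Nat.beq (B.w y + nth 0 dl i) c with
      | false => rfl
      | true => exact absurd (Nat.eq_of_beq_eq_true h4) hy
    have h5 : C.FeW B dl c i y = [] := by rw [EC.FeW, h3, cond_false]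
    show (C.den : k)⁻¹ * ev (vo D ω) (C.FeW B dl c i y) = 0
    rw [h5, ev, mul_zero]
  · intro i z hz
    have hz' : B.w z + EC.ix dl i = c := by
      rw [ix_eq, ← hz]
      show _ = B.w z + nth 0 dl _ + nth 0 dl _
      omega
    have h3 := allb_iff h2 z z.2
    have h4 : Nat.beq (B.w z + EC.ix dl i) c = true := by rw [hz', Nat.beq_refl]
    simp only [Bool.and_eq_true] at h3
    have hφ : ∀ (i : Fin 3) (y : Fin D), (C.den : k) *
        ((C.den : k)⁻¹ * ev (vo D ω) (C.FeW B dl c i y)) = ev (vo D ω) (C.FeW B dl c i y) :=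
      fun i y => mul_inv_cancel_left₀ hden' _
    have key := eqn_soundW B dl hD hω' hJ hφ
    have h5 : (C.den : k) * ω i z = (C.den : k) * Ph (XX k B D)
        (fun i y => (C.den : k)⁻¹ * ev (vo D ω) (C.FeW B dl c i y)) i z := by
      fin_cases i
      · have h6 := h3.1.1
        rw [show Nat.beq (B.w z + EC.ix dl 0) c = true from h4, cond_true] at h6
        exact key 0 1 2 z h6
      · have h6 := h3.1.2
        rw [show Nat.beq (B.w z + EC.ix dl 1) c = true from h4, cond_true] at h6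
        exact key 1 2 0 z h6
      · have h6 := h3.2
        rw [show Nat.beq (B.w z + EC.ix dl 2) c = true from h4, cond_true] at h6
        exact key 2 0 1 z h6
    exact (mul_left_cancel₀ hden' h5).symm

/-- all degrees at once -/
theorem exw_all [CharZero k] (hD : 0 < D) (E : List EC) (Lm : ℕ)
    (h : allb (fun c => (nth ⟨1, [], []⟩ E c).ckW B dl D c) (Lm + 1) = true) (c : ℕ) (hc : c ≤ Lm) :
    EXw (fun x : Fin D => B.w x) (fun i => nth 0 dl i) (XX k B D) c :=
  exw_of_ck B dl hD _ (allb_iff h c (by omega))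

end SoundW

section FinalW

variable {ι : Type*} [Fintype ι] [DecidableEq ι] {D : ℕ} {B : Base} {dl : List ℕ}

/-- **Weighted tower theorem with a checked base point.** -/
theorem cl_towerW_ck [CharZero k] (hD : 0 < D) (hdl : ∀ i : Fin 3, 1 ≤ nth 0 dl i)
    (hB : B.ckW dl D = true)
    (cert : ∀ κ, CertW (fun x : Fin D => B.w x) (fun i => nth 0 dl i)
      (Mt k D (nth [] B.pw 1)) (XX k B D) κ)
    (Lm : ℕ) (hle' : ∀ x : Fin D, B.w x ≤ Lm)
    (eX : ∀ a ≤ Lm, EXw (fun x : Fin D => B.w x) (fun i => nth 0 dl i) (XX k B D) a)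
    (w : ι → ℕ) (hle : ∀ x, w x ≤ Lm)
    (hn : ∀ a, a ≤ Lm → Fintype.card {x // w x = a} = Fintype.card {x : Fin D // B.w x = a})
    {T : Fin 3 → Matrix ι ι k} (hT : ∀ i j, T i * T j = T j * T i)
    (hlow : ∀ (i : Fin 3) x y, w x < w y + nth 0 dl i → T i x y = 0)
    (eT : ∀ a ≤ Lm, EXw w (fun i => nth 0 dl i) T a) : Cl T := by
  obtain ⟨e, he⟩ := exists_lev w (fun x : Fin D => B.w x) (by
    intro a
    rcases Nat.lt_or_ge Lm a with h | h
    · rw [Fintype.card_eq_zero_iff.2, Fintype.card_eq_zero_iff.2]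
      · exact ⟨fun x => by have h1 := hle' x.1; have h2 := x.2; omega⟩
      · exact ⟨fun x => by have h1 := hle x.1; have h2 := x.2; omega⟩
    · exact hn a h)
  have he' : ∀ a : Fin D, w (e.symm a) = B.w a := fun a => by
    rw [← he, Equiv.apply_symm_apply]
  have hinf : Infinite k := inferInstance
  have hB' := hB
  simp only [Base.ckW, Bool.and_eq_true] at hB'
  obtain ⟨⟨h1, h2⟩, h3⟩ := hB'
  have key : Cl (fun i => (T i).submatrix e.symm e.symm) := by
    refine cl_towerW (w := fun x : Fin D => B.w x) (de := fun i => nth 0 dl i) hdl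
      (N0 := Mt k D (nth [] B.pw 1)) ?_ ?_
      (X := XX k B D) (X_poly B h1 h2) (X_degW B dl h3) cert Lm hle' eX ?_ ?_
      (fun a ha => (eT a ha).equiv e _ he)
    · rw [Fintype.card_fin]
      exact pw_top B h1 hD
    · rw [Fintype.card_fin]
      exact pw_ne B h1 hD
    · intro i j
      rw [Matrix.submatrix_mul_equiv, Matrix.submatrix_mul_equiv, hT]
    · intro i x y hxy
      exact hlow i _ _ (by rw [he', he']; exact hxy)
  have h2 := Cl.mapEquiv (Matrix.reindexAlgEquiv k k e.symm) (Fintype.card_congr e.symm) key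
  have e3 : (fun i => Matrix.reindexAlgEquiv k k e.symm ((T i).submatrix e.symm e.symm)) = T := by
    funext i
    ext x y
    simp [Matrix.coe_reindexAlgEquiv, Matrix.reindex_apply]
  rwa [e3] at h2

end FinalW

end TowerCk

end Pool.Agent.Lib.D13
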