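import Pool.Agent.Lib.D13.TpqrCl

/-!
# MP_5dcbc3_ag: the algebras `T(p, q, r)`: the criterion in terms of a commutative algebra
-/

namespace Pool.Agent.Lib.D13

open Matrix Pool.Agent.Lib.Q5dc Pool.Agent.Lib.D7

section

variable {k R : Type*} [Field k] [CommRing R] [Algebra k R]

/-- membership in a subspace of an algebra, from an identity with an invertible coefficient -/
theorem mem_of_comb {S : Submodule k R} {κ : k} (hκ : κ ≠ 0) {r : R} {n : ℕ} (f : Fin n → k)
    (g : Fin n → R) (hg : ∀ i, g i ∈ S)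
    (h : algebraMap k R κ * r = ∑ i, algebraMap k R (f i) * g i) : r ∈ S := by
  have h1 : κ • r = ∑ i, f i • g i := by
    rw [Algebra.smul_def, h]
    exact Finset.sum_congr rfl fun i _ => (Algebra.smul_def _ _).symm
  have h2 : κ • r ∈ S := by
    rw [h1]
    exact Submodule.sum_mem _ fun i _ => S.smul_mem _ (hg i)
  exact (Submodule.smul_mem_iff S hκ).1 h2

end

/-- the criterion `cl_tpqr`, in terms of a commutative algebra -/
theorem cl_tpqr_ring {k : Type*} [Field k] [CharZero k] [IsAlgClosed k] {n : Type*} [Fintype n]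
    [DecidableEq n] {R : Type*} [CommRing R] [Algebra k R] (ρ : R →ₐ[k] Matrix n n k) (v : n → k)
    (p δ : Fin 3 → ℕ) (L : ℕ)
    (hp : ∀ i, 3 ≤ p i) (hδ : ∀ i, 1 ≤ δ i) (hL : ∀ i, p i * δ i = L)
    (hcard : Fintype.card n + 1 = p 0 + p 1 + p 2) (T : Fin 3 → R) (σ : R)
    (hspan : ∀ u : n → k, ∃ r ∈ Submodule.span k ({1} ∪ {σ} ∪
      {r : R | ∃ i m, 1 ≤ m ∧ m < p i ∧ r = T i ^ m}), ρ r *ᵥ v = u)
    (hs : ∀ i, T i * σ = 0)
    (hps : ∀ i, ∃ mu : k, mu ≠ 0 ∧ T i ^ p i = algebraMap k R mu * σ)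
    (hx' : ∀ i j, i < j → T i * T j ∈ Submodule.span k
      ({σ} ∪ {r : R | ∃ l m, m < p l ∧ δ i + δ j < m * δ l ∧ r = T l ^ m})) :
    Cl fun i => ρ (T i) := by
  have hx : ∀ i j, i ≠ j → T i * T j ∈ Submodule.span k
      ({σ} ∪ {r : R | ∃ l m, m < p l ∧ δ i + δ j < m * δ l ∧ r = T l ^ m}) := by
    intro i j hij
    rcases lt_or_gt_of_ne hij with h | h
    · exact hx' i j h
    · have := hx' j i h
      rwa [mul_comm (T j), add_comm (δ j)] at this
  -- the action on `v`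
  let act : R →ₗ[k] (n → k) :=
    { toFun := fun r => ρ r *ᵥ v
      map_add' := by
        intro r r'
        rw [map_add, Matrix.add_mulVec]
      map_smul' := by
        intro c r
        rw [map_smul, Matrix.smul_mulVec, RingHom.id_apply] }
  have hact : ∀ r, act r = ρ r *ᵥ v := fun _ => rfl
  have hmul : ∀ r r', act (r * r') = ρ r *ᵥ act r' := by
    intro r r'
    rw [hact, hact, map_mul, Matrix.mulVec_mulVec]
  have hpow : ∀ (i : Fin 3) (m : ℕ), act (T i ^ m) = ρ (T i) ^ m *ᵥ v := by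
    intro i m
    rw [hact, map_pow]
  refine cl_tpqr p δ L hp hδ hL hcard (T := fun i => ρ (T i)) ?_ v (act σ) ?_ ?_ ?_ ?_
  · intro i j
    rw [← map_mul, ← map_mul, mul_comm]
  · intro u _
    obtain ⟨r, hr, rfl⟩ := hspan u
    have h1 : act r ∈ Submodule.map act (Submodule.span k ({1} ∪ {σ} ∪
      {r : R | ∃ i m, 1 ≤ m ∧ m < p i ∧ r = T i ^ m})) := Submodule.mem_map_of_mem hr
    rw [Submodule.map_span] at h1
    refine Submodule.span_mono ?_ h1
    rintro _ ⟨r, ((rfl | rfl) | ⟨i, m, h2, h3, rfl⟩), rfl⟩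
    · refine Or.inl (Or.inl ?_)
      show act 1 = v
      rw [hact, map_one, Matrix.one_mulVec]
    · exact Or.inl (Or.inr rfl)
    · exact Or.inr ⟨i, m, h2, h3, hpow i m⟩
  · intro i
    show ρ (T i) *ᵥ act σ = 0
    rw [← hmul, hs, map_zero]
  · intro i
    obtain ⟨mu, h1, h2⟩ := hps i
    refine ⟨mu, h1, ?_⟩
    show ρ (T i) ^ p i *ᵥ v = mu • act σ
    rw [← hpow, h2, ← map_smul, Algebra.smul_def]
  · intro i j hij
    have h1 : act (T i * T j) ∈ Submodule.map act (Submodule.span k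
      ({σ} ∪ {r : R | ∃ l m, m < p l ∧ δ i + δ j < m * δ l ∧ r = T l ^ m})) :=
      Submodule.mem_map_of_mem (hx i j hij)
    rw [Submodule.map_span] at h1
    have h2 : act (T i * T j) = ρ (T i) *ᵥ (ρ (T j) *ᵥ v) := by
      rw [hmul, hact]
    rw [h2] at h1
    refine Submodule.span_mono ?_ h1
    rintro _ ⟨r, (rfl | ⟨l, m, h2, h3, rfl⟩), rfl⟩
    · exact Or.inl rfl
    · exact Or.inr ⟨l, m, h2, h3, hpow l m⟩

end Pool.Agent.Lib.D13
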