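import Pool.Agent.Lib.D13.S4321
import Pool.Agent.Lib.D13.H4321

/-!
# MP_5dcbc3_ag: type `(4, 3, 2, 1)`: duality and base changes
-/

set_option autoImplicit false

namespace Pool.Agent.Lib.D13.T4321

open Matrix Pool.Agent.Lib.Q5dc

variable {k : Type*} [Field k] {P P' : Par k}

/-- duality (transpose, reversed order of the basis) -/
theorem MR.dual (h : MR P P') : MR P.dual P'.dual := MaxR.dual h

theorem MR.wp (h : MR P P') (c : k) : MR (P.wp c) (P'.wp c) := by
  have key : ∀ (P : Par k) (m : Fin 10 → k), pol ![0, 0, 0] m + act (P.wp c) m +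
      act { zero k with rho := c } (pol ![0, 0, 0] m + act (P.wp c) m) =
      act P m + act P (act { zero k with rho := c } m) := by
    intro P m
    funext i
    fin_cases i <;> simp [pol, act, zero, Par.wp] <;> ring
  exact MaxR.base h { zero k with rho := c } _ _ ![0, 0, 0] ![0, 0, 0] (key P) (key P')

theorem MR.up (h : MR P P') (c : k) : MR (P.up c) (P'.up c) := by
  have key : ∀ (P : Par k) (m : Fin 10 → k), pol ![0, 0, 0] m + act (P.up c) m +
      act { zero k with ph := c } (pol ![0, 0, 0] m + act (P.up c) m) =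
      act P m + act P (act { zero k with ph := c } m) := by
    intro P m
    funext i
    fin_cases i <;> simp [pol, act, zero, Par.up] <;> ring
  exact MaxR.base h { zero k with ph := c } _ _ ![0, 0, 0] ![0, 0, 0] (key P) (key P')

theorem MR.pw (h : MR P P') (c : k) : MR (P.pw c) (P'.pw c) := by
  have key : ∀ (P : Par k) (m : Fin 10 → k), pol ![0, 0, 0] m + act (P.pw c) m +
      act { zero k with zeta := c } (pol ![0, 0, 0] m + act (P.pw c) m) =
      act P m + act P (act { zero k with zeta := c } m) := by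
    intro P m
    funext i
    fin_cases i <;> simp [pol, act, zero, Par.pw] <;> ring
  exact MaxR.base h { zero k with zeta := c } _ _ ![0, 0, 0] ![0, 0, 0] (key P) (key P')

theorem MR.uw (h : MR P P') (c : k) : MR (P.uw c) (P'.uw c) := by
  have key : ∀ (P : Par k) (m : Fin 10 → k), pol ![0, 0, 0] m + act (P.uw c) m +
      act { zero k with e0 := c } (pol ![0, 0, 0] m + act (P.uw c) m) =
      act P m + act P (act { zero k with e0 := c } m) := by
    intro P m
    funext i
    fin_cases i <;> simp [pol, act, zero, Par.uw] <;> ring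
  exact MaxR.base h { zero k with e0 := c } _ _ ![0, 0, 0] ![0, 0, 0] (key P) (key P')

/-- shape of one matrix -/
theorem shapeX (M : Matrix (Fin 10) (Fin 10) k) (hc : M * J k = J k * M) (hn : IsNilpotent M) :
    ∃ (Q : Par k) (a b c : k), M = X Q + a • J k + b • J k ^ 2 + c • J k ^ 3 := by
  obtain ⟨Q, c, h⟩ := h14_shape hc.symm hn
  refine ⟨Q, c 0, c 1, c 2, ?_⟩
  rw [h, PJ, pow_succ (J k) 2, pow_two]
  abel

/-- shape -/
theorem exists_MR {ρ : ℕ → ℕ} {T : Fin 3 → Matrix (Fin 10) (Fin 10) k} (hT : D7.MaxR ρ T)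
    (hρ : ∀ i, ρ i = (J k ^ i).rank) (h0 : T 0 = J k) :
    ∃ (P P' : Par k) (a b c a' b' c' : k), MR P P' ∧
      T 1 = X P + a • J k + b • J k ^ 2 + c • J k ^ 3 ∧
      T 2 = X P' + a' • J k + b' • J k ^ 2 + c' • J k ^ 3 := by
  have hρ' : ρ = fun i => (J k ^ i).rank := funext hρ
  subst hρ'
  have hT' : D7.MaxR (fun i => (J k ^ i).rank) ![J k, T 1, T 2] := by
    have e : T = ![J k, T 1, T 2] := by
      funext i
      fin_cases i
      exacts [h0, rfl, rfl]
    rwa [← e]
  have hc : ∀ i, T i * J k = J k * T i := fun i => by rw [← h0]; exact hT.cn.1 i 0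
  obtain ⟨P, c, hB⟩ := h14_shape (hc 1).symm (hT.cn.2 1)
  obtain ⟨P', c', hC⟩ := h14_shape (hc 2).symm (hT.cn.2 2)
  refine ⟨P, P', c 0, c 1, c 2, c' 0, c' 1, c' 2, MaxR.sub_pol hT' hB hC, ?_, ?_⟩
  · rw [hB, PJ, pow_succ (J k) 2, pow_two]
    abel
  · rw [hC, PJ, pow_succ (J k) 2, pow_two]
    abel

end Pool.Agent.Lib.D13.T4321
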