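import Pool.Agent.Lib.D13.M5421
import Pool.Agent.Lib.D13.PurCut

/-!
# MP_5dcbc3_ag: type `(5, 4, 2, 1)`: the centralizer of the Jordan matrix has dimension at least 34
-/

set_option autoImplicit false

namespace Pool.Agent.Lib.D13.T5421

open Matrix Pool.Agent.Lib.Q5dc Pool.Agent.Lib.D7

variable {k : Type*} [Field k]

/-- the general matrix commuting with `J` -/
def cenM (c : Fin 34 → k) : Matrix (Fin 12) (Fin 12) k :=
  !![c 0, 0, 0, 0, 0, 0, 0, 0, 0, 0, 0, 0;
     c 12, c 16, 0, 0, 0, 0, 0, 0, 0, 0, 0, 0;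
     c 23, c 25, c 27, 0, 0, 0, 0, 0, 0, 0, 0, 0;
     c 1, c 5, 0, c 0, 0, 0, 0, 0, 0, 0, 0, 0;
     c 13, c 17, 0, c 12, c 16, 0, 0, 0, 0, 0, 0, 0;
     c 30, c 31, c 32, 0, 0, c 33, 0, 0, 0, 0, 0, 0;
     c 24, c 26, c 28, c 23, c 25, c 29, c 27, 0, 0, 0, 0, 0;
     c 2, c 6, 0, c 1, c 5, 0, 0, c 0, 0, 0, 0, 0;
     c 14, c 18, c 20, c 13, c 17, 0, 0, c 12, c 16, 0, 0, 0;
     c 3, c 7, c 9, c 2, c 6, 0, 0, c 1, c 5, c 0, 0, 0;
     c 15, c 19, c 21, c 14, c 18, c 22, c 20, c 13, c 17, c 12, c 16, 0;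
     c 4, c 8, c 10, c 3, c 7, c 11, c 9, c 2, c 6, c 1, c 5, c 0]

theorem mulVec_e {n : Type*} [Fintype n] [DecidableEq n] (B : Matrix n n k) (j : n) :
    B *ᵥ Pi.single j 1 = fun x => B x j := by
  funext x
  simp

theorem comm_of_cols {B : Matrix (Fin 12) (Fin 12) k}
    (h : ∀ j, actJ (fun x => B x j) = B *ᵥ actJ (Pi.single j 1)) : J k * B = B * J k := by
  ext i j
  have h1 : ((J k * B) *ᵥ Pi.single j 1) i = ((B * J k) *ᵥ Pi.single j 1) i := by
    rw [← mulVec_mulVec, ← mulVec_mulVec, J_mulVec, J_mulVec, mulVec_e, h j]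
  rw [mulVec_e, mulVec_e] at h1
  exact h1

theorem js0 : actJ (Pi.single 0 1 : Fin 12 → k) = Pi.single 3 1 := by
  funext i
  fin_cases i <;> simp [actJ, Pi.single_apply]

theorem js1 : actJ (Pi.single 1 1 : Fin 12 → k) = Pi.single 4 1 := by
  funext i
  fin_cases i <;> simp [actJ, Pi.single_apply]

theorem js2 : actJ (Pi.single 2 1 : Fin 12 → k) = Pi.single 6 1 := by
  funext i
  fin_cases i <;> simp [actJ, Pi.single_apply]

theorem js3 : actJ (Pi.single 3 1 : Fin 12 → k) = Pi.single 7 1 := by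
  funext i
  fin_cases i <;> simp [actJ, Pi.single_apply]

theorem js4 : actJ (Pi.single 4 1 : Fin 12 → k) = Pi.single 8 1 := by
  funext i
  fin_cases i <;> simp [actJ, Pi.single_apply]

theorem js5 : actJ (Pi.single 5 1 : Fin 12 → k) = 0 := by
  funext i
  fin_cases i <;> simp [actJ, Pi.single_apply]

theorem js6 : actJ (Pi.single 6 1 : Fin 12 → k) = 0 := by
  funext i
  fin_cases i <;> simp [actJ, Pi.single_apply]

theorem js7 : actJ (Pi.single 7 1 : Fin 12 → k) = Pi.single 9 1 := by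
  funext i
  fin_cases i <;> simp [actJ, Pi.single_apply]

theorem js8 : actJ (Pi.single 8 1 : Fin 12 → k) = Pi.single 10 1 := by
  funext i
  fin_cases i <;> simp [actJ, Pi.single_apply]

theorem js9 : actJ (Pi.single 9 1 : Fin 12 → k) = Pi.single 11 1 := by
  funext i
  fin_cases i <;> simp [actJ, Pi.single_apply]

theorem js10 : actJ (Pi.single 10 1 : Fin 12 → k) = 0 := by
  funext i
  fin_cases i <;> simp [actJ, Pi.single_apply]

theorem js11 : actJ (Pi.single 11 1 : Fin 12 → k) = 0 := by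
  funext i
  fin_cases i <;> simp [actJ, Pi.single_apply]

theorem cenM_comm (c : Fin 34 → k) : J k * cenM c = cenM c * J k := by
  refine comm_of_cols fun j => ?_
  fin_cases j
  · show _ = cenM c *ᵥ actJ (Pi.single 0 1)
    rw [js0, mulVec_e]
    funext i
    fin_cases i <;> rfl
  · show _ = cenM c *ᵥ actJ (Pi.single 1 1)
    rw [js1, mulVec_e]
    funext i
    fin_cases i <;> rfl
  · show _ = cenM c *ᵥ actJ (Pi.single 2 1)
    rw [js2, mulVec_e]
    funext i
    fin_cases i <;> rfl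
  · show _ = cenM c *ᵥ actJ (Pi.single 3 1)
    rw [js3, mulVec_e]
    funext i
    fin_cases i <;> rfl
  · show _ = cenM c *ᵥ actJ (Pi.single 4 1)
    rw [js4, mulVec_e]
    funext i
    fin_cases i <;> rfl
  · show _ = cenM c *ᵥ actJ (Pi.single 5 1)
    rw [js5, mulVec_zero]
    funext i
    fin_cases i <;> rfl
  · show _ = cenM c *ᵥ actJ (Pi.single 6 1)
    rw [js6, mulVec_zero]
    funext i
    fin_cases i <;> rfl
  · show _ = cenM c *ᵥ actJ (Pi.single 7 1)
    rw [js7, mulVec_e]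
    funext i
    fin_cases i <;> rfl
  · show _ = cenM c *ᵥ actJ (Pi.single 8 1)
    rw [js8, mulVec_e]
    funext i
    fin_cases i <;> rfl
  · show _ = cenM c *ᵥ actJ (Pi.single 9 1)
    rw [js9, mulVec_e]
    funext i
    fin_cases i <;> rfl
  · show _ = cenM c *ᵥ actJ (Pi.single 10 1)
    rw [js10, mulVec_zero]
    funext i
    fin_cases i <;> rfl
  · show _ = cenM c *ᵥ actJ (Pi.single 11 1)
    rw [js11, mulVec_zero]
    funext i
    fin_cases i <;> rfl

/-- the general matrix commuting with `J`, linear form -/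
def cenL : (Fin 34 → k) →ₗ[k] Matrix (Fin 12) (Fin 12) k where
  toFun := cenM
  map_add' c d := by
    ext i j
    fin_cases i <;> fin_cases j <;> first | rfl | exact (add_zero 0).symm
  map_smul' a c := by
    ext i j
    fin_cases i <;> fin_cases j <;> first | rfl | exact (mul_zero a).symm

theorem cenL_inj : Function.Injective (cenL : (Fin 34 → k) →ₗ[k] Matrix (Fin 12) (Fin 12) k) := by
  intro c d h
  have h1 : ∀ i j, cenM c i j = cenM d i j := fun i j => congrFun (congrFun h i) j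
  funext r
  fin_cases r
  exacts [h1 0 0, h1 3 0, h1 7 0, h1 9 0, h1 11 0, h1 3 1, h1 7 1, h1 9 1, h1 11 1, h1 9 2, h1 11 2, h1 11 5, h1 1 0, h1 4 0, h1 8 0, h1 10 0, h1 1 1, h1 4 1, h1 8 1, h1 10 1, h1 8 2, h1 10 2, h1 10 5, h1 2 0, h1 6 0, h1 2 1, h1 6 1, h1 2 2, h1 6 2, h1 6 5, h1 5 0, h1 5 1, h1 5 2, h1 5 5]

theorem le_cen : 34 ≤ Module.finrank k (Pur.cen (J k)) := by
  have h1 := LinearMap.finrank_le_finrank_of_injective
    (f := (cenL : (Fin 34 → k) →ₗ[k] _).codRestrict (Pur.cen (J k)) fun v => cenM_comm v) (by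
      intro v w hvw
      exact cenL_inj (congrArg Subtype.val hvw))
  rwa [Module.finrank_fintype_fun_eq_card, Fintype.card_fin] at h1

end Pool.Agent.Lib.D13.T5421
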