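import Pool.Agent.Lib.D13.N5421
import Pool.Agent.Lib.D13.S5421
import Pool.Agent.Lib.D13.Z5421
import Pool.Agent.Lib.D13.Auto
import Pool.Agent.Lib.D13.Frame

/-!
# MP_5dcbc3_ag: type `(5, 4, 2, 1)`: there is no bad triple
-/

set_option autoImplicit false

namespace Pool.Agent.Lib.D13.T5421

open Matrix Pool.Agent.Lib.Q5dc Pool.Agent.Lib.D7

universe u

section

variable {k K : Type*} [Field k] [Field K] [Algebra k K]

theorem J_entry (L : IntermediateField k K) (i j : Fin 12) : J K i j ∈ L := by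
  have h : J K i j = 0 ∨ J K i j = 1 := by
    fin_cases i <;> fin_cases j <;> first | exact Or.inl rfl | exact Or.inr rfl
  rcases h with h | h
  · rw [h]
    exact L.zero_mem
  · rw [h]
    exact L.one_mem

theorem Jpow_entry (L : IntermediateField k K) (m : ℕ) : ∀ i j : Fin 12, (J K ^ m) i j ∈ L := by
  induction m with
  | zero =>
    intro i j
    rw [pow_zero, Matrix.one_apply]
    split_ifs
    · exact L.one_mem
    · exact L.zero_mem
  | succ m ih =>
    intro i j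
    rw [pow_succ, Matrix.mul_apply]
    exact sum_mem fun x _ => mul_mem (ih i x) (J_entry L x j)

theorem X_entry (L : IntermediateField k K) (P : Par K) (h : ∀ x, P.get x ∈ L) (i j : Fin 12) :
    X P i j ∈ L := by
  fin_cases i
  · fin_cases j
    exacts [L.zero_mem, L.zero_mem, L.zero_mem, L.zero_mem, L.zero_mem, L.zero_mem, L.zero_mem, L.zero_mem, L.zero_mem, L.zero_mem, L.zero_mem, L.zero_mem]
  · fin_cases j
    exacts [h .al0, L.zero_mem, L.zero_mem, L.zero_mem, L.zero_mem, L.zero_mem, L.zero_mem, L.zero_mem, L.zero_mem, L.zero_mem, L.zero_mem, L.zero_mem]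
  · fin_cases j
    exacts [h .g0, h .e0, L.zero_mem, L.zero_mem, L.zero_mem, L.zero_mem, L.zero_mem, L.zero_mem, L.zero_mem, L.zero_mem, L.zero_mem, L.zero_mem]
  · fin_cases j
    exacts [L.zero_mem, h .be0, L.zero_mem, L.zero_mem, L.zero_mem, L.zero_mem, L.zero_mem, L.zero_mem, L.zero_mem, L.zero_mem, L.zero_mem, L.zero_mem]
  · fin_cases j
    exacts [h .al1, h .q1, L.zero_mem, h .al0, L.zero_mem, L.zero_mem, L.zero_mem, L.zero_mem, L.zero_mem, L.zero_mem, L.zero_mem, L.zero_mem]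
  · fin_cases j
    exacts [h .pi, h .ph, h .rho, L.zero_mem, L.zero_mem, L.zero_mem, L.zero_mem, L.zero_mem, L.zero_mem, L.zero_mem, L.zero_mem, L.zero_mem]
  · fin_cases j
    exacts [h .g1, h .e1, h .z, h .g0, h .e0, h .zeta, L.zero_mem, L.zero_mem, L.zero_mem, L.zero_mem, L.zero_mem, L.zero_mem]
  · fin_cases j
    exacts [L.zero_mem, h .be1, L.zero_mem, L.zero_mem, h .be0, L.zero_mem, L.zero_mem, L.zero_mem, L.zero_mem, L.zero_mem, L.zero_mem, L.zero_mem]
  · fin_cases j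
    exacts [h .al2, h .q2, h .f0, h .al1, h .q1, L.zero_mem, L.zero_mem, h .al0, L.zero_mem, L.zero_mem, L.zero_mem, L.zero_mem]
  · fin_cases j
    exacts [L.zero_mem, h .be2, h .c0, L.zero_mem, h .be1, L.zero_mem, L.zero_mem, L.zero_mem, h .be0, L.zero_mem, L.zero_mem, L.zero_mem]
  · fin_cases j
    exacts [h .al3, h .q3, h .f1, h .al2, h .q2, h .eta, h .f0, h .al1, h .q1, h .al0, L.zero_mem, L.zero_mem]
  · fin_cases j
    exacts [L.zero_mem, h .be3, h .c1, L.zero_mem, h .be2, h .th, h .c0, L.zero_mem, h .be1, L.zero_mem, h .be0, L.zero_mem]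

theorem B_entry (L : IntermediateField k K) (P : Par K) (h : ∀ x, P.get x ∈ L) (a : Fin 4 → K)
    (ha : ∀ i, a i ∈ L) (i j : Fin 12) :
    (X P + (a 0 • J K + a 1 • J K ^ 2 + a 2 • J K ^ 3 + a 3 • J K ^ 4)) i j ∈ L := by
  simp only [Matrix.add_apply, Matrix.smul_apply, smul_eq_mul]
  exact add_mem (X_entry L P h i j) (add_mem (add_mem (add_mem (mul_mem (ha 0) (J_entry L i j))
    (mul_mem (ha 1) (Jpow_entry L 2 i j))) (mul_mem (ha 2) (Jpow_entry L 3 i j)))
    (mul_mem (ha 3) (Jpow_entry L 4 i j)))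

/-- the entries of the triple -/
theorem rk_co {T : Fin 3 → Matrix (Fin 12) (Fin 12) K} {P P' : Par K} {a a' : Fin 4 → K}
    (h0 : T 0 = J K)
    (h1 : T 1 = X P + (a 0 • J K + a 1 • J K ^ 2 + a 2 • J K ^ 3 + a 3 • J K ^ 4))
    (h2 : T 2 = X P' + (a' 0 • J K + a' 1 • J K ^ 2 + a' 2 • J K ^ 3 + a' 3 • J K ^ 4)) :
    rk k (Set.range (co T)) ≤ rk k (Set.range (vals P P')) + 8 := by
  have h : Set.range (co T) ⊆ FF k (Set.range (vals P P') ∪
      Set.range (Sum.elim a a' : Fin 4 ⊕ Fin 4 → K)) := by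
    have hp : ∀ x, vals P P' x ∈ FF k (Set.range (vals P P') ∪
        Set.range (Sum.elim a a' : Fin 4 ⊕ Fin 4 → K)) :=
      fun x => subset_FF _ (Or.inl ⟨x, rfl⟩)
    have ha : ∀ x, (Sum.elim a a' : Fin 4 ⊕ Fin 4 → K) x ∈ FF k (Set.range (vals P P') ∪
        Set.range (Sum.elim a a' : Fin 4 ⊕ Fin 4 → K)) :=
      fun x => subset_FF _ (Or.inr ⟨x, rfl⟩)
    rintro _ ⟨⟨i, r, c⟩, rfl⟩
    show T i r c ∈ _
    fin_cases i
    · show T 0 r c ∈ _
      rw [h0]
      exact J_entry _ r c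
    · show T 1 r c ∈ _
      rw [h1]
      exact B_entry _ P (fun x => hp (.inl x)) a (fun i => ha (.inl i)) r c
    · show T 2 r c ∈ _
      rw [h2]
      exact B_entry _ P' (fun x => hp (.inr x)) a' (fun i => ha (.inr i)) r c
  refine (rk_le_add_card _ h).trans ?_
  simp

end

section

variable {k : Type u} [Field k] [IsAlgClosed k] [CharZero k]

omit [IsAlgClosed k] [CharZero k] in
/-- the rank of `J` is at least `6` -/
theorem six_le_rank : 6 ≤ (J k).rank := by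
  refine le_rank_of_minor (J k) ![3, 4, 6, 7, 8, 9] ![0, 1, 2, 3, 4, 7] ?_
  have h : (J k).submatrix ![3, 4, 6, 7, 8, 9] ![0, 1, 2, 3, 4, 7] = 1 := by
    ext i j
    fin_cases i <;> fin_cases j <;> rfl
  rw [h, Matrix.det_one]
  exact one_ne_zero

/-- there is no maximal bad triple with first matrix `J` -/
theorem no_row (hall : HALL k 12) {ρ : ℕ → ℕ} {T : Fin 3 → Matrix (Fin 12) (Fin 12) k}
    (hT : MaxR ρ T) (hρ : ∀ i, ρ i = (J k ^ i).rank) (h0 : T 0 = J k) : False := by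
  have hρ' : ∀ i, (T 0 ^ i).rank = ρ i := by
    intro i
    rw [hρ i, h0]
  have hb : 2 * (Fintype.card (Fin 12) - ρ 1) ≤ Fintype.card (Fin 12) := by
    have h1 : 6 ≤ ρ 1 := by
      rw [hρ 1, pow_one]
      exact six_le_rank
    rw [Fintype.card_fin]
    omega
  obtain ⟨K, _, _, hK, _, T', hM, hT0, -, hrk⟩ := auto_maxR (n := Fin 12)
    (by rw [Fintype.card_fin]; exact hall) hT hρ' (by rw [Fintype.card_fin]; norm_num) hb
  have h1 : T' 0 = J K := by
    rw [hT0, h0]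
    ext r c
    have h : (J k r c = 0 ∧ J K r c = 0) ∨ (J k r c = 1 ∧ J K r c = 1) := by
      fin_cases r <;> fin_cases c <;> first | exact Or.inl ⟨rfl, rfl⟩ | exact Or.inr ⟨rfl, rfl⟩
    rcases h with ⟨h1, h2⟩ | ⟨h1, h2⟩
    · rw [Matrix.map_apply, h1, h2, map_zero]
    · rw [Matrix.map_apply, h1, h2, map_one]
  have h2 : ∀ i, ρ i = (J K ^ i).rank := by
    intro i
    have h3 : T' 0 ^ i = (algebraMap k K).mapMatrix (T 0 ^ i) := by
      rw [hT0, map_pow]
      rfl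
    rw [← h1]
    refine le_antisymm ?_ (hM.rank_le (mem_adj T' 0) i)
    obtain ⟨r, hr, hr'⟩ := GenAux.exists_rank (T 0 ^ i) (RingHom.id k)
    have h4 := hr' (algebraMap k K) (by simpa using hr)
    rw [h3, ← hρ' i]
    simpa using h4
  have hinf : Infinite K := IsAlgClosed.instInfinite
  obtain ⟨P, P', a, a', e1, e2, hR, c1, c2⟩ := shape' h2 hM h1
  have h3 := rk_co (k := k) h1 e1 e2
  have h4 := count (k := k) hR c1 c2
  have h5 : ((Module.finrank k (Pur.cen (T 0)) + Fintype.card (Fin 12) - 2 : ℕ) : ℕ∞) ≤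
      ((35 + 8 : ℕ) : ℕ∞) := by
    refine hrk.trans (h3.trans ?_)
    push_cast
    exact add_le_add h4 le_rfl
  have h6 : Module.finrank k (Pur.cen (T 0)) + Fintype.card (Fin 12) - 2 ≤ 35 + 8 := by
    exact_mod_cast h5
  have h7 := le_cen (k := k)
  rw [Fintype.card_fin, h0] at h6
  omega

/-- the box of a basis vector -/
def box : Fin 12 → IxL [5, 4, 2, 1] :=
  ![⟨⟨0, by decide⟩, ⟨0, by decide⟩⟩,
    ⟨⟨1, by decide⟩, ⟨0, by decide⟩⟩,
    ⟨⟨2, by decide⟩, ⟨0, by decide⟩⟩,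
    ⟨⟨0, by decide⟩, ⟨1, by decide⟩⟩,
    ⟨⟨1, by decide⟩, ⟨1, by decide⟩⟩,
    ⟨⟨3, by decide⟩, ⟨0, by decide⟩⟩,
    ⟨⟨2, by decide⟩, ⟨1, by decide⟩⟩,
    ⟨⟨0, by decide⟩, ⟨2, by decide⟩⟩,
    ⟨⟨1, by decide⟩, ⟨2, by decide⟩⟩,
    ⟨⟨0, by decide⟩, ⟨3, by decide⟩⟩,
    ⟨⟨1, by decide⟩, ⟨3, by decide⟩⟩,
    ⟨⟨0, by decide⟩, ⟨4, by decide⟩⟩]

theorem not_bad_5421 (hall : HALL k 12) : ¬ Bad k [5, 4, 2, 1] := by
  have : Infinite k := IsAlgClosed.instInfinite
  refine not_bad_of (J k) box ?_ rfl ?_ fun ρ T hT hρ h0 => no_row hall hT hρ h0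
  · decide
  · intro i j
    fin_cases i <;> fin_cases j <;> first | exact (if_pos (by decide)).symm | exact (if_neg (by decide)).symm

end

end Pool.Agent.Lib.D13.T5421
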