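import Pool.Agent.Lib.D8.UtilB

/-!
# MP_5dcbc3_ag: Jordan type `(4, 4, 2)`: shape of the matrices

Index type `(Fin 2 ⊕ Fin 3) ⊕ (Fin 3 ⊕ Fin 2)`: four levels of the sizes `2, 3, 3, 2`. With
`io : k^2 → k^3` and `po : k^3 → k^2` the standard maps, `TT η₀ η₁ μ` has the blocks
`η₀ io, η₀, po η₀` (one level up), `η₁ io, po η₁` (two levels up) and `μ` (three levels up).
`J = TT 1 0 0` has the Jordan type `(4, 4, 2)`.
-/

namespace Pool.Agent.Lib.D13.X442

open Matrix Pool.Agent.Lib.Q5dc Pool.Agent.Lib.D7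

/-- the index type -/
abbrev I4 := (Fin 2 ⊕ Fin 3) ⊕ (Fin 3 ⊕ Fin 2)

variable {k : Type*} [Field k]

/-- `k^2 → k^3` -/
def io (k : Type*) [Field k] : Matrix (Fin 3) (Fin 2) k := !![1, 0; 0, 1; 0, 0]

/-- `k^3 → k^2` -/
def po (k : Type*) [Field k] : Matrix (Fin 2) (Fin 3) k := !![1, 0, 0; 0, 1, 0]

/-- the matrices -/
def TT (η₀ η₁ : Matrix (Fin 3) (Fin 3) k) (μ : Matrix (Fin 2) (Fin 2) k) : Matrix I4 I4 k :=
  fromBlocks (fromBlocks 0 0 (η₀ * io k) 0) 0 (fromBlocks (η₁ * io k) η₀ μ (po k * η₁))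
    (fromBlocks 0 0 (po k * η₀) 0)

/-- the Jordan matrix -/
def J (k : Type*) [Field k] : Matrix I4 I4 k := TT 1 0 0

theorem po_io : po k * io k = 1 := by
  ext i j
  fin_cases i <;> fin_cases j <;> simp [po, io, Matrix.mul_apply, Fin.sum_univ_three]

theorem io_t : (io k)ᵀ = po k := by
  ext i j
  fin_cases i <;> fin_cases j <;> rfl

theorem po_t : (po k)ᵀ = io k := by
  ext i j
  fin_cases i <;> fin_cases j <;> rfl

theorem TT_add (a b a' b' : Matrix (Fin 3) (Fin 3) k) (c c' : Matrix (Fin 2) (Fin 2) k) :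
    TT a b c + TT a' b' c' = TT (a + a') (b + b') (c + c') := by
  simp only [TT, fromBlocks_add, add_zero, Matrix.add_mul, Matrix.mul_add]

theorem TT_smul (s : k) (a b : Matrix (Fin 3) (Fin 3) k) (c : Matrix (Fin 2) (Fin 2) k) :
    s • TT a b c = TT (s • a) (s • b) (s • c) := by
  simp only [TT, fromBlocks_smul, smul_zero, Matrix.smul_mul, Matrix.mul_smul]

theorem TT_zero : TT (0 : Matrix (Fin 3) (Fin 3) k) 0 0 = 0 := by
  simp only [TT, Matrix.zero_mul, Matrix.mul_zero, fromBlocks_zero]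

theorem TT_mul (a b a' b' : Matrix (Fin 3) (Fin 3) k) (c c' : Matrix (Fin 2) (Fin 2) k) :
    TT a b c * TT a' b' c' = fromBlocks 0 0 (fromBlocks (a * a' * io k) 0
      (po k * (a * b' + b * a') * io k) (po k * (a * a'))) 0 := by
  simp only [TT, fromBlocks_multiply, Matrix.zero_mul, Matrix.mul_zero, add_zero, zero_add,
    fromBlocks_zero, fromBlocks_add, Matrix.mul_add, Matrix.add_mul, Matrix.mul_assoc]
  congr 2
  abel

/-- the relations -/
def CC (a b a' b' : Matrix (Fin 3) (Fin 3) k) : Prop :=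
  a * a' = a' * a ∧ po k * (a * b' - b' * a + (b * a' - a' * b)) * io k = 0

theorem comm_of_CC {a b a' b' : Matrix (Fin 3) (Fin 3) k} {c c' : Matrix (Fin 2) (Fin 2) k}
    (h : CC a b a' b') : TT a b c * TT a' b' c' = TT a' b' c' * TT a b c := by
  rw [TT_mul, TT_mul, h.1]
  have h2 := h.2
  have e : po k * (a * b' - b' * a + (b * a' - a' * b)) * io k =
      po k * (a * b' + b * a') * io k - po k * (a' * b + b' * a) * io k := by
    rw [← Matrix.sub_mul, ← Matrix.mul_sub]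
    congr 2
    abel
  rw [e, sub_eq_zero] at h2
  rw [h2]

/-- a commutator whose first two columns and rows vanish is zero -/
theorem comm_zero {X Y : Matrix (Fin 3) (Fin 3) k} (h1 : X * Y * io k = Y * X * io k)
    (h2 : po k * (X * Y) = po k * (Y * X)) : X * Y = Y * X := by
  have e1 : ∀ (Z : Matrix (Fin 3) (Fin 3) k) i (j : Fin 2), (Z * io k) i j = Z i j.castSucc := by
    intro Z i j
    fin_cases j <;> simp [io, Matrix.mul_apply, Fin.sum_univ_three]
  have e2 : ∀ (Z : Matrix (Fin 3) (Fin 3) k) (i : Fin 2) j, (po k * Z) i j = Z i.castSucc j := by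
    intro Z i j
    fin_cases i <;> simp [po, Matrix.mul_apply, Fin.sum_univ_three]
  have f1 : ∀ i (j : Fin 2), (X * Y) i j.castSucc = (Y * X) i j.castSucc := fun i j =>
    (e1 (X * Y) i j).symm.trans ((congrFun (congrFun h1 i) j).trans (e1 (Y * X) i j))
  have f2 : ∀ (i : Fin 2) j, (X * Y) i.castSucc j = (Y * X) i.castSucc j := fun i j =>
    (e2 (X * Y) i j).symm.trans ((congrFun (congrFun h2 i) j).trans (e2 (Y * X) i j))
  have f3 : (X * Y) 2 2 = (Y * X) 2 2 := by
    have ht := Matrix.trace_mul_comm X Y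
    rw [Matrix.trace_fin_three, Matrix.trace_fin_three] at ht
    have g0 : (X * Y) 0 0 = (Y * X) 0 0 := f1 0 0
    have g1 : (X * Y) 1 1 = (Y * X) 1 1 := f1 1 1
    rw [g0, g1] at ht
    exact add_left_cancel ht
  ext i j
  rcases Fin.eq_castSucc_or_eq_last j with ⟨j, rfl⟩ | rfl
  · exact f1 i j
  · rcases Fin.eq_castSucc_or_eq_last i with ⟨i, rfl⟩ | rfl
    · exact f2 i _
    · exact f3

theorem CC_of_comm {a b a' b' : Matrix (Fin 3) (Fin 3) k} {c c' : Matrix (Fin 2) (Fin 2) k}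
    (h : TT a b c * TT a' b' c' = TT a' b' c' * TT a b c) : CC a b a' b' := by
  rw [TT_mul, TT_mul, fromBlocks_inj] at h
  obtain ⟨-, -, h, -⟩ := h
  rw [fromBlocks_inj] at h
  obtain ⟨h1, -, h3, h4⟩ := h
  refine ⟨comm_zero h1 h4, ?_⟩
  have e : po k * (a * b' - b' * a + (b * a' - a' * b)) * io k =
      po k * (a * b' + b * a') * io k - po k * (a' * b + b' * a) * io k := by
    rw [← Matrix.sub_mul, ← Matrix.mul_sub]
    congr 2
    abel
  rw [e, h3, sub_self]

theorem J_mul_self : J k * J k = TT 0 1 0 := by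
  rw [J, TT_mul]
  simp [TT]

theorem J_comm (a b : Matrix (Fin 3) (Fin 3) k) (c : Matrix (Fin 2) (Fin 2) k) :
    J k * TT a b c = TT a b c * J k :=
  comm_of_CC ⟨by rw [one_mul, mul_one], by simp⟩

theorem TT_nil (a b : Matrix (Fin 3) (Fin 3) k) (c : Matrix (Fin 2) (Fin 2) k) :
    IsNilpotent (TT a b c) := by
  refine ⟨4, ?_⟩
  have e : TT a b c ^ 4 = (TT a b c * TT a b c) * (TT a b c * TT a b c) := by
    rw [pow_succ, pow_succ, pow_two]
    simp only [Matrix.mul_assoc]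
  rw [e, TT_mul, fromBlocks_multiply]
  simp

theorem TT_cn {a b a' b' : Matrix (Fin 3) (Fin 3) k} {c c' : Matrix (Fin 2) (Fin 2) k}
    (h : CC a b a' b') : CN ![J k, TT a b c, TT a' b' c'] :=
  D8.cn3 (J_comm a b c) (J_comm a' b' c') (comm_of_CC h) (TT_nil _ _ _) (TT_nil _ _ _)
    (TT_nil _ _ _)

/-! ### the dual triple -/

/-- the reversal of the levels -/
def rv : I4 ≃ I4 where
  toFun := Sum.elim (Sum.elim (fun i => .inr (.inr i)) fun i => .inr (.inl i))
    (Sum.elim (fun i => .inl (.inr i)) fun i => .inl (.inl i))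
  invFun := Sum.elim (Sum.elim (fun i => .inr (.inr i)) fun i => .inr (.inl i))
    (Sum.elim (fun i => .inl (.inr i)) fun i => .inl (.inl i))
  left_inv := by rintro ((i | i) | (i | i)) <;> rfl
  right_inv := by rintro ((i | i) | (i | i)) <;> rfl

theorem TT_dual (a b : Matrix (Fin 3) (Fin 3) k) (c : Matrix (Fin 2) (Fin 2) k) :
    ((TT a b c)ᵀ).submatrix rv rv = TT aᵀ bᵀ cᵀ := by
  have e1 : aᵀ * io k = (po k * a)ᵀ := by rw [Matrix.transpose_mul, po_t]
  have e2 : bᵀ * io k = (po k * b)ᵀ := by rw [Matrix.transpose_mul, po_t]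
  have e3 : po k * aᵀ = (a * io k)ᵀ := by rw [Matrix.transpose_mul, io_t]
  have e4 : po k * bᵀ = (b * io k)ᵀ := by rw [Matrix.transpose_mul, io_t]
  simp only [TT, e1, e2, e3, e4]
  ext ((i | i) | (i | i)) ((j | j) | (j | j)) <;> rfl

theorem cl_dual {a b a' b' : Matrix (Fin 3) (Fin 3) k} {c c' : Matrix (Fin 2) (Fin 2) k}
    (h : Cl ![J k, TT aᵀ bᵀ cᵀ, TT a'ᵀ b'ᵀ c'ᵀ]) : Cl ![J k, TT a b c, TT a' b' c'] := by
  have h1 := Cl.mapEquiv (Matrix.reindexAlgEquiv k k rv) rfl h.transpose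
  convert h1 using 1
  funext i
  have key : ∀ (a b : Matrix (Fin 3) (Fin 3) k) (c : Matrix (Fin 2) (Fin 2) k),
      TT a b c = Matrix.reindexAlgEquiv k k rv (TT aᵀ bᵀ cᵀ)ᵀ := by
    intro a b c
    have e := TT_dual aᵀ bᵀ cᵀ
    rw [Matrix.transpose_transpose, Matrix.transpose_transpose, Matrix.transpose_transpose] at e
    rw [← e]
    rfl
  fin_cases i
  · have e := key 1 0 (0 : Matrix (Fin 2) (Fin 2) k)
    rw [Matrix.transpose_one, Matrix.transpose_zero, Matrix.transpose_zero] at e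
    exact e
  · exact key a b c
  · exact key a' b' c'

/-! ### linear changes -/

theorem cl_lin {n : Type*} [Fintype n] [DecidableEq n] {A B C : Matrix n n k}
    (a b c d x y : k) (h : a * d - b * c ≠ 0)
    (H : Cl ![A, a • B + b • C + x • A, c • B + d • C + y • A]) : Cl ![A, B, C] := by
  have sm : ∀ {T : Fin 3 → Matrix n n k} {M : Matrix n n k} (s : k), M ∈ adj T →
      s • M ∈ adj T := fun s hM => SMulMemClass.smul_mem s hM
  refine cl_of_adj ?_ H
  set B' := a • B + b • C + x • A with hB'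
  set C' := c • B + d • C + y • A with hC'
  have n0 := D8.mem0 A B' C'
  have n1 := D8.mem1 A B' C'
  have n2 := D8.mem2 A B' C'
  intro i
  fin_cases i
  · exact n0
  · have e : B = (a * d - b * c)⁻¹ • (d • B' - b • C' - (d * x - b * y) • A) := by
      have e2 : d • B' - b • C' - (d * x - b * y) • A = (a * d - b * c) • B := by
        rw [hB', hC']
        module
      rw [e2, inv_smul_smul₀ h]
    show B ∈ _
    rw [e]
    exact sm _ (sub_mem (sub_mem (sm d n1) (sm b n2)) (sm _ n0))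
  · have e : C = (a * d - b * c)⁻¹ • (a • C' - c • B' - (a * y - c * x) • A) := by
      have e2 : a • C' - c • B' - (a * y - c * x) • A = (a * d - b * c) • C := by
        rw [hB', hC']
        module
      rw [e2, inv_smul_smul₀ h]
    show C ∈ _
    rw [e]
    exact sm _ (sub_mem (sub_mem (sm a n2) (sm c n1)) (sm _ n0))

/-! ### shape -/

omit [Field k] in
theorem blocks (B : Matrix I4 I4 k) : ∃ b00 b01 b10 b11 b02 b03 b12 b13 b20 b21 b30 b31 b22 b23 b32
    b33, B = fromBlocks (fromBlocks b00 b01 b10 b11) (fromBlocks b02 b03 b12 b13)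
      (fromBlocks b20 b21 b30 b31) (fromBlocks b22 b23 b32 b33) := by
  refine ⟨B.toBlocks₁₁.toBlocks₁₁, B.toBlocks₁₁.toBlocks₁₂, B.toBlocks₁₁.toBlocks₂₁,
    B.toBlocks₁₁.toBlocks₂₂, B.toBlocks₁₂.toBlocks₁₁, B.toBlocks₁₂.toBlocks₁₂,
    B.toBlocks₁₂.toBlocks₂₁, B.toBlocks₁₂.toBlocks₂₂, B.toBlocks₂₁.toBlocks₁₁,
    B.toBlocks₂₁.toBlocks₁₂, B.toBlocks₂₁.toBlocks₂₁, B.toBlocks₂₁.toBlocks₂₂,
    B.toBlocks₂₂.toBlocks₁₁, B.toBlocks₂₂.toBlocks₁₂, B.toBlocks₂₂.toBlocks₂₁,
    B.toBlocks₂₂.toBlocks₂₂, ?_⟩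
  rw [fromBlocks_toBlocks, fromBlocks_toBlocks, fromBlocks_toBlocks, fromBlocks_toBlocks,
    fromBlocks_toBlocks]

/-- a nilpotent matrix which commutes with `J` and is killed by `J ^ 3` -/
theorem shape [CharZero k] {B : Matrix I4 I4 k} (h : J k * B = B * J k) (hn : IsNilpotent B)
    (h3 : J k * J k * J k * B = 0) : ∃ a b c, B = TT a b c := by
  obtain ⟨b00, b01, b10, b11, b02, b03, b12, b13, b20, b21, b30, b31, b22, b23, b32, b33, rfl⟩ :=
    blocks B
  have hJ3 : J k * J k * J k = fromBlocks 0 0 (fromBlocks 0 0 1 0) 0 := by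
    rw [J_mul_self, J, TT_mul]
    simp [po_io]
  rw [hJ3, fromBlocks_multiply] at h3
  simp only [Matrix.zero_mul, add_zero, fromBlocks_multiply, Matrix.one_mul] at h3
  have h00 : b00 = 0 := by
    have h4 : (toBlocks₂₁ (0 : Matrix I4 I4 k)).toBlocks₂₁ = 0 := rfl
    rw [← h3, toBlocks_fromBlocks₂₁, toBlocks_fromBlocks₂₁] at h4
    exact h4
  subst h00
  simp only [J, TT, fromBlocks_multiply, Matrix.zero_mul, Matrix.mul_zero, add_zero, zero_add,
    Matrix.one_mul, Matrix.mul_one, fromBlocks_add, fromBlocks_inj] at h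
  obtain ⟨⟨q1, q2, q3, q4⟩, ⟨q5, q6, q7, q8⟩, ⟨q9, q10, q11, q12⟩, q13, q14, q15, q16⟩ := h
  have e3 : b03 = 0 := by
    rw [← Matrix.mul_one b03, ← po_io, ← Matrix.mul_assoc, ← q5, Matrix.zero_mul]
  have e23 : b23 = 0 := by
    rw [← Matrix.mul_one b23, ← po_io, ← Matrix.mul_assoc, ← q13, ← q4, Matrix.mul_assoc, ← q1,
      Matrix.mul_zero]
  subst e23
  rw [Matrix.zero_mul] at q13
  subst q13
  have e01 : b01 = 0 := by
    rw [← Matrix.one_mul b01, ← po_io, Matrix.mul_assoc, q4, Matrix.mul_zero]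
  have e33 : b33 = 0 := by
    rw [← Matrix.mul_one b33, ← po_io, ← Matrix.mul_assoc, ← q15, ← q10, Matrix.mul_assoc, ← q3,
      Matrix.mul_zero]
  subst e3 e01 e33 q2 q9 q10 q12 q14
  rw [Matrix.zero_mul] at q15
  have c1 : ∀ i, b11 i 0 = 0 ∧ b11 i 1 = 0 := by
    intro i
    have h0 := congrFun (congrFun q3 i) 0
    have h1 := congrFun (congrFun q3 i) 1
    simp [io, Matrix.mul_apply, Fin.sum_univ_three] at h0 h1
    exact ⟨h0.symm, h1.symm⟩
  have c2 : ∀ j, b11 0 j = 0 ∧ b11 1 j = 0 := by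
    intro j
    have h0 := congrFun (congrFun q15 0) j
    have h1 := congrFun (congrFun q15 1) j
    simp [po, Matrix.mul_apply, Fin.sum_univ_three] at h0 h1
    exact ⟨h0, h1⟩
  have ht : b11 2 2 = 0 := by
    have h5 := Matrix.isNilpotent_trace_of_isNilpotent hn
    rw [isNilpotent_iff_eq_zero] at h5
    simp only [Matrix.trace, Matrix.diag, Fintype.sum_sum_type, fromBlocks_apply₁₁,
      fromBlocks_apply₂₂, Matrix.zero_apply, Finset.sum_const_zero, zero_add, add_zero,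
      Fin.sum_univ_three, (c1 0).1, (c1 1).2] at h5
    rw [← two_mul] at h5
    exact (mul_eq_zero.1 h5).resolve_left two_ne_zero
  have e11 : b11 = 0 := by
    ext i j
    fin_cases i
    · exact (c2 j).1
    · exact (c2 j).2
    · fin_cases j
      · exact (c1 2).1
      · exact (c1 2).2
      · exact ht
  subst e11
  refine ⟨b21, b20 * po k + io k * b31 * (1 - io k * po k), b30, ?_⟩
  have f1 : (b20 * po k + io k * b31 * (1 - io k * po k)) * io k = b20 := by
    have f0 : (1 - io k * po k) * io k = 0 := by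
      rw [Matrix.sub_mul, Matrix.one_mul, Matrix.mul_assoc, po_io, Matrix.mul_one, sub_self]
    rw [Matrix.add_mul, Matrix.mul_assoc, po_io, Matrix.mul_one, Matrix.mul_assoc (io k * b31), f0,
      Matrix.mul_zero, add_zero]
  have f2 : po k * (b20 * po k + io k * b31 * (1 - io k * po k)) = b31 := by
    rw [Matrix.mul_add, ← Matrix.mul_assoc, q11, ← Matrix.mul_assoc, ← Matrix.mul_assoc, po_io,
      Matrix.one_mul, Matrix.mul_sub, Matrix.mul_one, ← Matrix.mul_assoc]
    abel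
  rw [TT, f1, f2, fromBlocks_zero]

end Pool.Agent.Lib.D13.X442
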