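import Pool.Agent.Lib.D13.C2332
import Pool.Agent.Lib.D13.X442

/-!
# MP_5dcbc3_ag: Jordan type `(4, 4, 2)`: a family of triples in the closure

The density criterion at the base point `k[t] / t ^ 10`, levels `0, 0, 1, 1, 1, 2, 2, 2, 3, 3`,
operators `t ^ 3, t ^ 2, t`.
-/

namespace Pool.Agent.Lib.D13.X442

open Matrix Pool.Agent.Lib.Q5dc Pool.Agent.Lib.D7 Pool.Agent.Lib.D9.DensX

variable {k : Type*} [Field k]

/-! ### the criterion for families on another index type -/

theorem isPoly_sum {m : Type*} (t : Finset m) {f : m → k → k} (h : ∀ i ∈ t, IsPoly (f i)) :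
    IsPoly fun s => ∑ i ∈ t, f i s := by
  classical
  induction t using Finset.induction_on with
  | empty => simpa using D7.IsPoly.const (0 : k)
  | insert a t ha ih =>
    simp only [Finset.sum_insert ha]
    exact (h a (Finset.mem_insert_self a t)).add
      (ih fun i hi => h i (Finset.mem_insert_of_mem hi))

theorem via [Infinite k] {n : ℕ} {m : Type*} [Fintype m] [DecidableEq m]
    (w : Fin (n + 1) → ℕ) (av : Fin 3 → ℕ) (hav : ∀ i, av i ≠ 0)
    (hdeg : ∀ i (x y : Fin (n + 1)), w y + 2 ≤ w x → (x : ℕ) ≠ (y : ℕ) + av i)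
    (cert : ∀ κ, 1 ≤ κ → Cert w (Sh k n) (fun i => Sh k n ^ av i) κ)
    (P : Matrix m (Fin (n + 1)) k) (Q : Matrix (Fin (n + 1)) m k) (hPQ : P * Q = 1)
    (hQP : Q * P = 1) (hcard : Fintype.card (Fin (n + 1)) = Fintype.card m) (lev : m → ℕ)
    (hP : ∀ a x, lev a ≠ w x → P a x = 0) (hQ : ∀ x a, lev a ≠ w x → Q x a = 0)
    (c : k → Fin 3 → Matrix m m k) (hc : PolyFam c)
    (hcomm : ∀ s i j, c s i * c s j = c s j * c s i)
    (hlow : ∀ s i a b, lev a ≤ lev b → c s i a b = 0)
    (Y : Fin 3 → Matrix (Fin (n + 1)) (Fin (n + 1)) k) (hY : ∀ i, Q * c 0 i = Y i * Q)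
    (hYX : ∀ i x y, w x = w y + 1 → Y i x y = if (x : ℕ) = (y : ℕ) + av i then 1 else 0) (s : k) :
    Cl (c s) := by
  have key := fdc_mono w av hav hdeg cert (fun s i => Q * c s i * P) ?_ ?_ ?_ ?_ s
  · have h := Cl.rect P Q hPQ hQP hcard key
    have e : (fun i => P * (Q * c s i * P) * Q) = c s := by
      funext i
      calc P * (Q * c s i * P) * Q = (P * Q) * c s i * (P * Q) := by
            simp only [Matrix.mul_assoc]
        _ = c s i := by rw [hPQ, Matrix.one_mul, Matrix.mul_one]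
    rwa [e] at h
  · intro i x y
    have h : IsPoly fun s => ∑ b, (∑ a, Q x a * c s i a b) * P b y := by
      refine isPoly_sum _ fun b _ => ?_
      refine (isPoly_sum _ fun a _ => ?_).mul (D7.IsPoly.const _)
      exact (D7.IsPoly.const _).mul (hc i a b)
    obtain ⟨p, hp⟩ := h
    exact ⟨p, fun s => by
      rw [← hp s]
      show (Q * c s i * P) x y = _
      rw [Matrix.mul_apply]
      refine Finset.sum_congr rfl fun b _ => ?_
      rw [Matrix.mul_apply]⟩
  · intro s i j
    have e : ∀ i j, Q * c s i * P * (Q * c s j * P) = Q * (c s i * c s j) * P := by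
      intro i j
      calc Q * c s i * P * (Q * c s j * P) = Q * c s i * (P * Q) * c s j * P := by
            simp only [Matrix.mul_assoc]
        _ = Q * (c s i * c s j) * P := by
            rw [hPQ, Matrix.mul_one]
            simp only [Matrix.mul_assoc]
    rw [e, e, hcomm]
  · intro s i x y hxy
    rw [Matrix.mul_apply]
    refine Finset.sum_eq_zero fun b _ => ?_
    by_cases hb : lev b = w y
    · have h : (Q * c s i) x b = 0 := by
        rw [Matrix.mul_apply]
        refine Finset.sum_eq_zero fun a _ => ?_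
        by_cases ha : lev a = w x
        · rw [hlow s i a b (by omega), mul_zero]
        · rw [hQ x a ha, zero_mul]
      rw [h, zero_mul]
    · rw [hP b y hb, mul_zero]
  · intro i x y hxy
    show (Q * c 0 i * P) x y = _
    rw [hY i, Matrix.mul_assoc, hQP, Matrix.mul_one]
    exact hYX i x y hxy

/-! ### polynomial families of small matrices -/

/-- polynomial families of matrices -/
def PM {m n : Type*} (f : k → Matrix m n k) : Prop := ∀ i j, IsPoly fun s => f s i j

theorem PM.const {m n : Type*} (A : Matrix m n k) : PM fun _ : k => A := fun _ _ =>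
  D7.IsPoly.const _

theorem PM.add {m n : Type*} {f g : k → Matrix m n k} (hf : PM f) (hg : PM g) :
    PM fun s => f s + g s := fun i j => (hf i j).add (hg i j)

theorem PM.sub {m n : Type*} {f g : k → Matrix m n k} (hf : PM f) (hg : PM g) :
    PM fun s => f s - g s := fun i j => (hf i j).sub (hg i j)

theorem PM.smul {m n : Type*} {a : k → k} {f : k → Matrix m n k} (ha : IsPoly a) (hf : PM f) :
    PM fun s => a s • f s := fun i j => ha.mul (hf i j)

theorem PM.mul {l m n : Type*} [Fintype m] {f : k → Matrix l m k} {g : k → Matrix m n k}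
    (hf : PM f) (hg : PM g) : PM fun s => f s * g s := by
  intro i j
  have h : IsPoly fun s => ∑ b, f s i b * g s b j := isPoly_sum _ fun b _ => (hf i b).mul (hg b j)
  exact h

theorem PM.TT {a b : k → Matrix (Fin 3) (Fin 3) k} {c : k → Matrix (Fin 2) (Fin 2) k}
    (ha : PM a) (hb : PM b) (hc : PM c) : PM fun s => TT (a s) (b s) (c s) := by
  rintro ((i | i) | (i | i)) ((j | j) | (j | j))
  · exact D7.IsPoly.const _
  · exact D7.IsPoly.const _
  · exact D7.IsPoly.const _
  · exact D7.IsPoly.const _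
  · exact (ha.mul (PM.const (io k))) i j
  · exact D7.IsPoly.const _
  · exact D7.IsPoly.const _
  · exact D7.IsPoly.const _
  · exact (hb.mul (PM.const (io k))) i j
  · exact ha i j
  · exact D7.IsPoly.const _
  · exact D7.IsPoly.const _
  · exact hc i j
  · exact ((PM.const (po k)).mul hb) i j
  · exact ((PM.const (po k)).mul ha) i j
  · exact D7.IsPoly.const _

/-! ### the base point -/

/-- the levels -/
def lev : I4 → ℕ := Sum.elim (Sum.elim (fun _ => 0) fun _ => 1) (Sum.elim (fun _ => 2) fun _ => 3)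

theorem TT_low (a b : Matrix (Fin 3) (Fin 3) k) (c : Matrix (Fin 2) (Fin 2) k) (x y : I4)
    (h : lev x ≤ lev y) : TT a b c x y = 0 := by
  rcases x with ((i | i) | (i | i)) <;> rcases y with ((j | j) | (j | j)) <;>
    first
      | rfl
      | (exfalso; revert h; simp [lev])

/-- exponents of the monomials -/
def mo0 : Fin 2 → ℕ := ![0, 1]
/-- exponents of the monomials -/
def mo1 : Fin 3 → ℕ := ![2, 3, 4]
/-- exponents of the monomials -/
def mo2 : Fin 3 → ℕ := ![5, 6, 7]
/-- exponents of the monomials -/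
def mo3 : Fin 2 → ℕ := ![8, 9]

/-- the order of the basis -/
def ex : I4 ≃ Fin (9 + 1) where
  toFun := Sum.elim (Sum.elim ![0, 1] ![2, 3, 4]) (Sum.elim ![5, 6, 7] ![8, 9])
  invFun := ![.inl (.inl 0), .inl (.inl 1), .inl (.inr 0), .inl (.inr 1), .inl (.inr 2),
    .inr (.inl 0), .inr (.inl 1), .inr (.inl 2), .inr (.inr 0), .inr (.inr 1)]
  left_inv := by
    intro x
    rcases x with ((x | x) | (x | x)) <;> fin_cases x <;> rfl
  right_inv := by
    intro x
    fin_cases x <;> rfl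

theorem ex_val (x : I4) : (ex x : ℕ) =
    Sum.elim (Sum.elim mo0 mo1) (Sum.elim mo2 mo3) x := by
  rcases x with ((x | x) | (x | x)) <;> fin_cases x <;> rfl

theorem w_ex (x : I4) : C2332.w (ex x) = lev x := by
  rcases x with ((x | x) | (x | x)) <;> fin_cases x <;> rfl

/-- blocks of the multiplication by a power -/
def yy (k : Type*) [Field k] {m n : ℕ} (f : Fin m → ℕ) (g : Fin n → ℕ) (a : ℕ) :
    Matrix (Fin m) (Fin n) k := Matrix.of fun i j => if f i = g j + a then 1 else 0

/-- the multiplication by a power, entries between neighbouring levels -/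
def Ys (k : Type*) [Field k] (a : ℕ) : Matrix I4 I4 k :=
  fromBlocks (fromBlocks 0 0 (yy k mo1 mo0 a) 0) 0 (fromBlocks 0 (yy k mo2 mo1 a) 0 0)
    (fromBlocks 0 0 (yy k mo3 mo2 a) 0)

theorem Ys_apply (a : ℕ) (x y : I4) (h : lev x = lev y + 1) :
    Ys k a x y = if (ex x : ℕ) = (ex y : ℕ) + a then 1 else 0 := by
  rw [ex_val, ex_val]
  rcases x with ((i | i) | (i | i)) <;> rcases y with ((j | j) | (j | j)) <;>
    first
      | rfl
      | (exfalso; revert h; simp [lev])

/-- block diagonal matrices -/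
def GG (g0 : Matrix (Fin 2) (Fin 2) k) (g1 g2 : Matrix (Fin 3) (Fin 3) k)
    (g3 : Matrix (Fin 2) (Fin 2) k) : Matrix I4 I4 k :=
  fromBlocks (fromBlocks g0 0 0 g1) 0 0 (fromBlocks g2 0 0 g3)

theorem GG_mul (a0 b0 a3 b3 : Matrix (Fin 2) (Fin 2) k) (a1 b1 a2 b2 : Matrix (Fin 3) (Fin 3) k) :
    GG a0 a1 a2 a3 * GG b0 b1 b2 b3 = GG (a0 * b0) (a1 * b1) (a2 * b2) (a3 * b3) := by
  simp [GG, fromBlocks_multiply]

theorem GG_one : GG (1 : Matrix (Fin 2) (Fin 2) k) 1 1 1 = 1 := by
  simp [GG]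

theorem GG_off (g0 : Matrix (Fin 2) (Fin 2) k) (g1 g2 : Matrix (Fin 3) (Fin 3) k)
    (g3 : Matrix (Fin 2) (Fin 2) k) (x y : I4) (h : lev x ≠ lev y) : GG g0 g1 g2 g3 x y = 0 := by
  rcases x with ((i | i) | (i | i)) <;> rcases y with ((j | j) | (j | j)) <;>
    first
      | rfl
      | (exfalso; revert h; simp [lev])

theorem GG_TT (g0 : Matrix (Fin 2) (Fin 2) k) (g1 g2 a : Matrix (Fin 3) (Fin 3) k)
    (g3 : Matrix (Fin 2) (Fin 2) k) (e : ℕ) (h0 : g1 * a * io k = yy k mo1 mo0 e * g0)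
    (h1 : g2 * a = yy k mo2 mo1 e * g1) (h2 : g3 * po k * a = yy k mo3 mo2 e * g2) :
    GG g0 g1 g2 g3 * TT a 0 0 = Ys k e * GG g0 g1 g2 g3 := by
  rw [Matrix.mul_assoc] at h0 h2
  simp [GG, TT, Ys, fromBlocks_multiply, h0, h1, h2]

section base

variable (k)

/-- the part of the basis change on level 1 -/
def G1 : Matrix (Fin 3) (Fin 3) k := !![1, 0, 3; 1, 1, -2; 0, 1, 1]
/-- the part of the basis change on level 2 -/
def G2 : Matrix (Fin 3) (Fin 3) k := !![2, 1, 1; 1, 2, -1; 0, 1, 1]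
/-- the part of the basis change on level 3 -/
def G3 : Matrix (Fin 2) (Fin 2) k := !![3, 3; 1, 3]
/-- inverse -/
def H1 : Matrix (Fin 3) (Fin 3) k := !![1 / 2, 1 / 2, -1 / 2; -1 / 6, 1 / 6, 5 / 6;
  1 / 6, -1 / 6, 1 / 6]
/-- inverse -/
def H2 : Matrix (Fin 3) (Fin 3) k := !![1 / 2, 0, -1 / 2; -1 / 6, 1 / 3, 1 / 2; 1 / 6, -1 / 3, 1 / 2]
/-- inverse -/
def H3 : Matrix (Fin 2) (Fin 2) k := !![1 / 2, -1 / 2; -1 / 6, 1 / 2]
/-- the first matrix of the base point -/
def M0 : Matrix (Fin 3) (Fin 3) k := !![1 / 2, -1 / 2, 1; 1 / 6, 5 / 6, -2 / 3;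
  -1 / 6, 1 / 6, 5 / 3]
/-- the second matrix of the base point -/
def M1 : Matrix (Fin 3) (Fin 3) k := !![1 / 2, 1 / 2, -1; -1 / 6, 1 / 6, 2 / 3;
  1 / 6, -1 / 6, -2 / 3]
/-- the third matrix of the base point -/
def M2 : Matrix (Fin 3) (Fin 3) k := !![0, 1 / 2, 1 / 2; 0, -1 / 6, -1 / 6; 0, 1 / 6, 1 / 6]

end base

variable [CharZero k]

theorem M1_sq : M1 k * M1 k = M2 k := by
  ext i j
  fin_cases i <;> fin_cases j <;> simp [M1, M2, Matrix.mul_apply, Fin.sum_univ_three] <;> norm_num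

theorem one_sub_M1 : 1 - M1 k = M0 k := by
  ext i j
  fin_cases i <;> fin_cases j <;> simp [M1, M0] <;> norm_num

theorem G1H1 : G1 k * H1 k = 1 := by
  ext i j
  fin_cases i <;> fin_cases j <;> simp [G1, H1, Matrix.mul_apply, Fin.sum_univ_three] <;> norm_num

theorem G2H2 : G2 k * H2 k = 1 := by
  ext i j
  fin_cases i <;> fin_cases j <;> simp [G2, H2, Matrix.mul_apply, Fin.sum_univ_three] <;> norm_num

theorem G3H3 : G3 k * H3 k = 1 := by
  ext i j
  fin_cases i <;> fin_cases j <;> simp [G3, H3, Matrix.mul_apply, Fin.sum_univ_two] <;> norm_num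

theorem base0 : GG 1 (G1 k) (G2 k) (G3 k) * TT (1 - M1 k) 0 0 =
    Ys k 3 * GG 1 (G1 k) (G2 k) (G3 k) := by
  rw [one_sub_M1]
  refine GG_TT _ _ _ _ _ _ ?_ ?_ ?_
  · ext i j
    fin_cases i <;> fin_cases j <;>
      simp [G1, M0, io, yy, mo1, mo0, Matrix.mul_apply, Fin.sum_univ_three, Fin.sum_univ_two] <;>
      norm_num
  · ext i j
    fin_cases i <;> fin_cases j <;>
      simp [G1, G2, M0, yy, mo1, mo2, Matrix.mul_apply, Fin.sum_univ_three] <;> norm_num
  · ext i j
    fin_cases i <;> fin_cases j <;>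
      simp [G2, G3, M0, po, yy, mo3, mo2, Matrix.mul_apply, Fin.sum_univ_three] <;>
      norm_num

theorem base1 : GG 1 (G1 k) (G2 k) (G3 k) * TT (M1 k) 0 0 =
    Ys k 2 * GG 1 (G1 k) (G2 k) (G3 k) := by
  refine GG_TT _ _ _ _ _ _ ?_ ?_ ?_
  · ext i j
    fin_cases i <;> fin_cases j <;>
      simp [G1, M1, io, yy, mo1, mo0, Matrix.mul_apply, Fin.sum_univ_three, Fin.sum_univ_two] <;>
      norm_num
  · ext i j
    fin_cases i <;> fin_cases j <;>
      simp [G1, G2, M1, yy, mo1, mo2, Matrix.mul_apply, Fin.sum_univ_three] <;> norm_num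
  · ext i j
    fin_cases i <;> fin_cases j <;>
      simp [G2, G3, M1, po, yy, mo3, mo2, Matrix.mul_apply, Fin.sum_univ_three] <;>
      norm_num

theorem base2 : GG 1 (G1 k) (G2 k) (G3 k) * TT (M2 k) 0 0 =
    Ys k 1 * GG 1 (G1 k) (G2 k) (G3 k) := by
  refine GG_TT _ _ _ _ _ _ ?_ ?_ ?_
  · ext i j
    fin_cases i <;> fin_cases j <;>
      simp [G1, M2, io, yy, mo1, mo0, Matrix.mul_apply, Fin.sum_univ_three, Fin.sum_univ_two] <;>
      norm_num
  · ext i j
    fin_cases i <;> fin_cases j <;>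
      simp [G1, G2, M2, yy, mo1, mo2, Matrix.mul_apply, Fin.sum_univ_three] <;> norm_num
  · ext i j
    fin_cases i <;> fin_cases j <;>
      simp [G2, G3, M2, po, yy, mo3, mo2, Matrix.mul_apply, Fin.sum_univ_three] <;>
      norm_num

/-! ### the family -/

omit [CharZero k] in
/-- `E_uu` -/
def R2 (k : Type*) [Field k] : Matrix (Fin 3) (Fin 3) k := !![0, 0, 0; 0, 0, 0; 0, 0, 1]

omit [CharZero k] in
theorem R2_io : R2 k * io k = 0 := by
  ext i j
  fin_cases i <;> fin_cases j <;> simp [R2, io, Matrix.mul_apply, Fin.sum_univ_three]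

omit [CharZero k] in
theorem po_R2 : po k * R2 k = 0 := by
  ext i j
  fin_cases i <;> fin_cases j <;> simp [R2, po, Matrix.mul_apply, Fin.sum_univ_three]

omit [CharZero k] in
theorem psi_CC (a b : Matrix (Fin 3) (Fin 3) k) (g0 g1 g2 f0 f1 f2 x y : k) :
    CC a b (g0 • 1 + g1 • a + g2 • (a * a)) (g1 • b + g2 • (a * b + b * a) +
      (f0 • 1 + f1 • a + f2 • (a * a)) + (x • R2 k + y • (a * R2 k + R2 k * a))) := by
  constructor
  · simp only [Matrix.mul_add, Matrix.add_mul, mul_smul_comm, smul_mul_assoc, mul_one, one_mul,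
      Matrix.mul_assoc]
  · have e : a * (g1 • b + g2 • (a * b + b * a) +
        (f0 • 1 + f1 • a + f2 • (a * a)) + (x • R2 k + y • (a * R2 k + R2 k * a))) -
        (g1 • b + g2 • (a * b + b * a) +
        (f0 • 1 + f1 • a + f2 • (a * a)) + (x • R2 k + y • (a * R2 k + R2 k * a))) * a +
        (b * (g0 • 1 + g1 • a + g2 • (a * a)) - (g0 • 1 + g1 • a + g2 • (a * a)) * b) =
        x • (a * R2 k - R2 k * a) + y • (a * a * R2 k - R2 k * (a * a)) := by
      simp only [Matrix.mul_add, Matrix.add_mul, mul_smul_comm, smul_mul_assoc, mul_one, one_mul,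
        Matrix.mul_assoc]
      module
    rw [e, Matrix.mul_add, Matrix.add_mul, Matrix.mul_smul, Matrix.mul_smul, Matrix.smul_mul,
      Matrix.smul_mul, Matrix.mul_sub, Matrix.mul_sub, Matrix.sub_mul, Matrix.sub_mul,
      ← Matrix.mul_assoc (po k) (R2 k), po_R2, ← Matrix.mul_assoc (po k) (R2 k), po_R2]
    simp only [Matrix.mul_assoc, R2_io, Matrix.mul_zero, Matrix.zero_mul, sub_self, smul_zero,
      add_zero]

theorem cert_all (κ : ℕ) (h : 1 ≤ κ) :
    Cert C2332.w (Sh k 9) (fun i => Sh k 9 ^ C2332.av i) κ := by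
  rcases Nat.lt_or_ge 3 κ with h4 | h4
  · refine cert_top fun x => ?_
    have : C2332.w x ≤ 3 := by
      revert x
      decide
    omega
  · interval_cases κ
    · exact C2332.cert1
    · exact C2332.cert2
    · exact C2332.cert3

/-- the family is contained in the closure -/
theorem cl_psi (a b : Matrix (Fin 3) (Fin 3) k) (μ μ' : Matrix (Fin 2) (Fin 2) k)
    (g0 g1 g2 f0 f1 f2 x y : k) :
    Cl ![J k, TT a b μ, TT (g0 • 1 + g1 • a + g2 • (a * a)) (g1 • b + g2 • (a * b + b * a) +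
      (f0 • 1 + f1 • a + f2 • (a * a)) + (x • R2 k + y • (a * R2 k + R2 k * a))) μ'] := by
  -- the parameters as functions of `s`
  let A : k → Matrix (Fin 3) (Fin 3) k := fun s => M1 k + s • (a - M1 k)
  let B : k → Matrix (Fin 3) (Fin 3) k := fun s => s • b
  let A' : k → Matrix (Fin 3) (Fin 3) k := fun s =>
    (s * g0) • 1 + (s * g1) • A s + (1 + s * (g2 - 1)) • (A s * A s)
  let B' : k → Matrix (Fin 3) (Fin 3) k := fun s =>
    (s * g1) • B s + (1 + s * (g2 - 1)) • (A s * B s + B s * A s) +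
      ((s * f0) • 1 + (s * f1) • A s + (s * f2) • (A s * A s)) +
      ((s * x) • R2 k + (s * y) • (A s * R2 k + R2 k * A s))
  have hid : ∀ c : k, IsPoly fun s : k => s * c := fun c => D7.IsPoly.id.mul (D7.IsPoly.const c)
  have hg2 : IsPoly fun s : k => 1 + s * (g2 - 1) := (D7.IsPoly.const 1).add (hid _)
  have hA : PM A := (PM.const _).add (PM.smul D7.IsPoly.id (PM.const _))
  have hB : PM B := PM.smul D7.IsPoly.id (PM.const _)
  have hA' : PM A' := ((PM.smul (hid g0) (PM.const _)).add (PM.smul (hid g1) hA)).add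
    (PM.smul hg2 (hA.mul hA))
  have hB' : PM B' := (((PM.smul (hid g1) hB).add (PM.smul hg2 ((hA.mul hB).add (hB.mul hA)))).add
    (((PM.smul (hid f0) (PM.const _)).add (PM.smul (hid f1) hA)).add
      (PM.smul (hid f2) (hA.mul hA)))).add ((PM.smul (hid x) (PM.const _)).add
      (PM.smul (hid y) ((hA.mul (PM.const _)).add ((PM.const _).mul hA))))
  let c : k → Fin 3 → Matrix I4 I4 k := fun s => ![TT (1 - A s) (-B s) (-(s • μ)),
    TT (A s) (B s) (s • μ), TT (A' s) (B' s) (s • μ')]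
  have hμ : ∀ m : Matrix (Fin 2) (Fin 2) k, PM fun s : k => s • m := fun m =>
    PM.smul D7.IsPoly.id (PM.const m)
  have hCC : ∀ s, CC (A s) (B s) (A' s) (B' s) := fun s => psi_CC _ _ _ _ _ _ _ _ _ _
  have e0 : ∀ s, TT (1 - A s) (-B s) (-(s • μ)) = J k - TT (A s) (B s) (s • μ) := by
    intro s
    have h1 : TT (1 - A s) (-B s) (-(s • μ)) + TT (A s) (B s) (s • μ) = J k := by
      rw [TT_add, J]
      congr 1
      · abel
      · abel
      · abel
    rw [← h1, add_sub_cancel_right]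
  have hcn : ∀ s, CN (c s) := by
    intro s
    have h := TT_cn (c := s • μ) (c' := s • μ') (hCC s)
    refine D8.cn3 ?_ ?_ ?_ (TT_nil _ _ _) (TT_nil _ _ _) (TT_nil _ _ _)
    · rw [e0, Matrix.sub_mul, Matrix.mul_sub, J_comm]
    · rw [e0, Matrix.sub_mul, Matrix.mul_sub, J_comm, comm_of_CC (hCC s)]
    · exact comm_of_CC (hCC s)
  have hH1 : H1 k * G1 k = 1 := mul_eq_one_comm.1 G1H1
  have hH2 : H2 k * G2 k = 1 := mul_eq_one_comm.1 G2H2
  have hH3 : H3 k * G3 k = 1 := mul_eq_one_comm.1 G3H3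
  have key := via (k := k) C2332.w C2332.av (by intro i; fin_cases i <;> decide) (by decide)
    cert_all ((GG 1 (H1 k) (H2 k) (H3 k)).submatrix id ex.symm)
    ((GG 1 (G1 k) (G2 k) (G3 k)).submatrix ex.symm id) (by
      rw [Matrix.submatrix_mul_equiv, GG_mul, hH1, hH2, hH3, Matrix.one_mul, GG_one]
      rfl) (by
      have e := Matrix.submatrix_mul_equiv (GG 1 (G1 k) (G2 k) (G3 k)) (GG 1 (H1 k) (H2 k) (H3 k))
        ex.symm (Equiv.refl I4) ex.symm
      rw [GG_mul, G1H1, G2H2, G3H3, Matrix.one_mul, GG_one] at e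
      rw [show (1 : Matrix (Fin (9 + 1)) (Fin (9 + 1)) k) =
        (1 : Matrix I4 I4 k).submatrix ex.symm ex.symm from
        (Matrix.submatrix_one_equiv ex.symm).symm]
      exact e) (Fintype.card_congr ex).symm lev (by
      intro a x h
      refine GG_off _ _ _ _ _ _ ?_
      rw [← w_ex (ex.symm x), Equiv.apply_symm_apply]
      exact h) (by
      intro x a h
      refine GG_off _ _ _ _ _ _ ?_
      rw [← w_ex (ex.symm x), Equiv.apply_symm_apply]
      exact h.symm) c (by
      intro i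
      fin_cases i
      · exact PM.TT ((PM.const 1).sub hA) (fun i j => (hB i j).neg) (fun i j => (hμ μ i j).neg)
      · exact PM.TT hA hB (hμ μ)
      · exact PM.TT hA' hB' (hμ μ')) (fun s i j => (hcn s).1 i j) (by
      intro s i x y h
      fin_cases i
      · exact TT_low _ _ _ x y h
      · exact TT_low _ _ _ x y h
      · exact TT_low _ _ _ x y h) (fun i => (Ys k (C2332.av i)).submatrix ex.symm ex.symm) (by
      have hA0 : A 0 = M1 k := by simp [A]
      have hB0 : B 0 = 0 := by simp [B]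
      have hA'0 : A' 0 = M2 k := by simp [A', hA0, M1_sq]
      have hB'0 : B' 0 = 0 := by simp [B', hB0]
      have h0 : ∀ (N : Matrix I4 I4 k) (e : ℕ), GG 1 (G1 k) (G2 k) (G3 k) * N =
          Ys k e * GG 1 (G1 k) (G2 k) (G3 k) →
          (GG 1 (G1 k) (G2 k) (G3 k)).submatrix ex.symm id * N =
          (Ys k e).submatrix ex.symm ex.symm * (GG 1 (G1 k) (G2 k) (G3 k)).submatrix ex.symm id := by
        intro N e h
        rw [Matrix.submatrix_mul_equiv, ← h]
        rfl
      intro i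
      fin_cases i
      · refine h0 _ _ ?_
        show _ * TT (1 - A 0) (-B 0) (-((0 : k) • μ)) = _
        rw [hA0, hB0, neg_zero, zero_smul, neg_zero]
        exact base0
      · refine h0 _ _ ?_
        show _ * TT (A 0) (B 0) ((0 : k) • μ) = _
        rw [hA0, hB0, zero_smul]
        exact base1
      · refine h0 _ _ ?_
        show _ * TT (A' 0) (B' 0) ((0 : k) • μ') = _
        rw [hA'0, hB'0, zero_smul]
        exact base2) (by
      intro i x y h
      show Ys k (C2332.av i) (ex.symm x) (ex.symm y) = _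
      rw [Ys_apply, Equiv.apply_symm_apply, Equiv.apply_symm_apply]
      rw [← w_ex, ← w_ex, Equiv.apply_symm_apply, Equiv.apply_symm_apply]
      exact h) 1
  have e1 : c 1 = ![J k - TT a b μ, TT a b μ,
      TT (g0 • 1 + g1 • a + g2 • (a * a)) (g1 • b + g2 • (a * b + b * a) +
      (f0 • 1 + f1 • a + f2 • (a * a)) + (x • R2 k + y • (a * R2 k + R2 k * a))) μ'] := by
    have hA1 : A 1 = a := by simp [A]
    have hB1 : B 1 = b := by simp [B]
    have hA'1 : A' 1 = g0 • 1 + g1 • a + g2 • (a * a) := by simp [A', hA1]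
    have hB'1 : B' 1 = g1 • b + g2 • (a * b + b * a) +
      (f0 • 1 + f1 • a + f2 • (a * a)) + (x • R2 k + y • (a * R2 k + R2 k * a)) := by
      simp [B', hA1, hB1]
    show ![TT (1 - A 1) (-B 1) (-((1 : k) • μ)), TT (A 1) (B 1) ((1 : k) • μ),
      TT (A' 1) (B' 1) ((1 : k) • μ')] = _
    rw [e0, hA1, hB1, hA'1, hB'1, one_smul, one_smul]
  rw [e1] at key
  refine cl_of_adj ?_ key
  intro i
  fin_cases i
  · have h := add_mem (D8.mem0 (J k - TT a b μ) (TT a b μ)
      (TT (g0 • 1 + g1 • a + g2 • (a * a)) (g1 • b + g2 • (a * b + b * a) +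
      (f0 • 1 + f1 • a + f2 • (a * a)) + (x • R2 k + y • (a * R2 k + R2 k * a))) μ'))
      (D8.mem1 (J k - TT a b μ) (TT a b μ) _)
    rw [sub_add_cancel] at h
    exact h
  · exact D8.mem1 _ _ _
  · exact D8.mem2 _ _ _

end Pool.Agent.Lib.D13.X442
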