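import Pool.Agent.Lib.D13.X442F
import Pool.Agent.Lib.D13.M3
import Pool.Agent.Lib.D7.T322
import Pool.Agent.Lib.D9.T333

/-!
# MP_5dcbc3_ag: Jordan type `(4, 4, 2)`: one of the matrices has a cyclic vector

If `η` has a cyclic vector, all commuting triples `J, TT η b μ, TT η' b' μ'` are limits of curvilinear
ones.
-/

namespace Pool.Agent.Lib.D13.X442

open Matrix Pool.Agent.Lib.Q5dc Pool.Agent.Lib.D7 Pool.Agent.Lib.D9.T333Aux
open Pool.Agent.Lib.D13.M3

variable {k : Type*} [Field k]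

/-! ### isotropic subspaces in dimension 4 -/

/-- the symplectic form -/
def om (x y : Fin 4 → k) : k := x 0 * y 2 + x 1 * y 3 - x 2 * y 0 - x 3 * y 1

/-- 2 x 2 minors -/
def mi (x y : Fin 4 → k) (i j : Fin 4) : k := x i * y j - x j * y i

/-- the matrix of the form -/
def Om (k : Type*) [Field k] : Matrix (Fin 4) (Fin 4) k :=
  !![0, 0, 1, 0; 0, 0, 0, 1; -1, 0, 0, 0; 0, -1, 0, 0]

theorem three (x y z : Fin 4 → k) (i j l : Fin 4) :
    x l * mi y z i j - y l * mi x z i j + z l * mi x y i j =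
      Om k i j * (om x y * z l - om x z * y l + om y z * x l) +
      Om k j l * (om x y * z i - om x z * y i + om y z * x i) +
      Om k l i * (om x y * z j - om x z * y j + om y z * x j) := by
  fin_cases i <;> fin_cases j <;> fin_cases l <;> simp [mi, Om, om] <;> ring

theorem lag {x y z : Fin 4 → k} (h1 : om x y = 0) (h2 : om x z = 0) (h3 : om y z = 0)
    (h : ∃ i j, mi y z i j ≠ 0) : ∃ α β : k, ∀ l, x l = α * y l + β * z l := by
  obtain ⟨i, j, hij⟩ := h
  refine ⟨mi x z i j / mi y z i j, -mi x y i j / mi y z i j, fun l => ?_⟩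
  have e := three x y z i j l
  rw [h1, h2, h3] at e
  field_simp
  linear_combination e

/-- off-diagonal entries -/
def od (Z : Matrix (Fin 3) (Fin 3) k) : Fin 4 → k := ![Z 0 2, Z 1 2, Z 2 0, Z 2 1]

/-- off-diagonal entries of `Z R - R Z` -/
def yv (Z : Matrix (Fin 3) (Fin 3) k) : Fin 4 → k := ![Z 0 2, Z 1 2, -Z 2 0, -Z 2 1]

theorem po_io_apply (Z : Matrix (Fin 3) (Fin 3) k) (i j : Fin 2) :
    (po k * Z * io k) i j = Z i.castSucc j.castSucc := by
  have e1 : ∀ (W : Matrix (Fin 2) (Fin 3) k), (W * io k) i j = W i j.castSucc := by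
    intro W
    fin_cases j <;> simp [io, Matrix.mul_apply, Fin.sum_univ_three]
  rw [e1]
  fin_cases i <;> simp [po, Matrix.mul_apply, Fin.sum_univ_three]

theorem mul_R2 (Z : Matrix (Fin 3) (Fin 3) k) :
    Z * R2 k = !![0, 0, Z 0 2; 0, 0, Z 1 2; 0, 0, Z 2 2] := by
  ext i j
  fin_cases j <;> fin_cases i <;> simp [R2, Matrix.mul_apply, Fin.sum_univ_three]

theorem R2_mul (Z : Matrix (Fin 3) (Fin 3) k) :
    R2 k * Z = !![0, 0, 0; 0, 0, 0; Z 2 0, Z 2 1, Z 2 2] := by
  ext i j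
  rw [Matrix.mul_apply, Fin.sum_univ_three]
  fin_cases i <;> fin_cases j <;> simp [R2]

theorem diag_zero {K : Matrix (Fin 3) (Fin 3) k} (h : po k * K * io k = 0) (ht : K.trace = 0) :
    K 0 0 = 0 ∧ K 0 1 = 0 ∧ K 1 0 = 0 ∧ K 1 1 = 0 ∧ K 2 2 = 0 := by
  have h00 : K 0 0 = 0 := by
    have e := po_io_apply K 0 0
    rw [h] at e
    exact e.symm
  have h01 : K 0 1 = 0 := by
    have e := po_io_apply K 0 1
    rw [h] at e
    exact e.symm
  have h10 : K 1 0 = 0 := by
    have e := po_io_apply K 1 0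
    rw [h] at e
    exact e.symm
  have h11 : K 1 1 = 0 := by
    have e := po_io_apply K 1 1
    rw [h] at e
    exact e.symm
  refine ⟨h00, h01, h10, h11, ?_⟩
  rw [trace_fin_three, h00, h11, zero_add, zero_add] at ht
  exact ht

/-- all the triples whose second matrix starts with `η` and whose third matrix starts with a
polynomial in `η` are in the closure -/
def Gd (η : Matrix (Fin 3) (Fin 3) k) : Prop :=
  ∀ (b D : Matrix (Fin 3) (Fin 3) k) (μ μ' : Matrix (Fin 2) (Fin 2) k) (g0 g1 g2 : k),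
    po k * (η * D - D * η) * io k = 0 →
    Cl ![J k, TT η b μ, TT (g0 • 1 + g1 • η + g2 • (η * η)) (g1 • b + g2 • (η * b + b * η) + D) μ']

theorem trace_comm {η D : Matrix (Fin 3) (Fin 3) k} : (η * D - D * η).trace = 0 := by
  rw [trace_sub, trace_mul_comm, sub_self]

theorem trace_comm1 {η D : Matrix (Fin 3) (Fin 3) k} : ((η * D - D * η) * η).trace = 0 := by
  rw [Matrix.sub_mul, trace_sub, Matrix.mul_assoc, trace_mul_comm, sub_self]

theorem trace_comm2 {η D : Matrix (Fin 3) (Fin 3) k} : ((η * D - D * η) * (η * η)).trace = 0 := by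
  rw [Matrix.sub_mul, trace_sub, Matrix.mul_assoc, trace_mul_comm, sub_eq_zero]
  simp only [Matrix.mul_assoc]

theorem trace_K {K : Matrix (Fin 3) (Fin 3) k} (h : K 0 0 = 0 ∧ K 0 1 = 0 ∧ K 1 0 = 0 ∧
    K 1 1 = 0 ∧ K 2 2 = 0) (Z : Matrix (Fin 3) (Fin 3) k) : (K * Z).trace = -om (od K) (yv Z) := by
  obtain ⟨h00, h01, h10, h11, h22⟩ := h
  simp [trace_fin_three, Matrix.mul_apply, Fin.sum_univ_three, h00, h01, h10, h11, h22, om, od, yv]
  ring

variable [CharZero k]

theorem Gd_of_indep {η : Matrix (Fin 3) (Fin 3) k} {v : Fin 3 → k} (hv : Cyc η v)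
    (hi : ∃ i j, mi (yv η) (yv (η * η)) i j ≠ 0) : Gd η := by
  intro b D μ μ' g0 g1 g2 hD
  set K := η * D - D * η with hK
  have hK0 := diag_zero hD trace_comm
  have o1 : om (od K) (yv η) = 0 := by
    rw [← neg_eq_zero, ← trace_K hK0]
    exact trace_comm1
  have o2 : om (od K) (yv (η * η)) = 0 := by
    rw [← neg_eq_zero, ← trace_K hK0]
    exact trace_comm2
  have o3 : om (yv η) (yv (η * η)) = 0 := by
    simp [om, yv, Matrix.mul_apply, Fin.sum_univ_three]
    ring
  obtain ⟨α, β, hαβ⟩ := lag o1 o2 o3 hi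
  obtain ⟨h00, h01, h10, h11, h22⟩ := hK0
  have e1 : K = α • (η * R2 k - R2 k * η) + β • (η * η * R2 k - R2 k * (η * η)) := by
    have q0 := hαβ 0
    have q1 := hαβ 1
    have q2 := hαβ 2
    have q3 := hαβ 3
    simp only [od, yv, cons_val_zero, cons_val_one, cons_val] at q0 q1 q2 q3
    rw [mul_R2, mul_R2, R2_mul, R2_mul]
    ext i j
    fin_cases i <;> fin_cases j
    · simp [h00]
    · simp [h01]
    · simp [q0]
    · simp [h10]
    · simp [h11]
    · simp [q1]
    · simp [q2]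
    · simp [q3]
    · simp [h22]
  have e2 : (D - (α • R2 k + β • (η * R2 k + R2 k * η))) * η =
      η * (D - (α • R2 k + β • (η * R2 k + R2 k * η))) := by
    have e3 : η * (D - (α • R2 k + β • (η * R2 k + R2 k * η))) -
        (D - (α • R2 k + β • (η * R2 k + R2 k * η))) * η =
        K - (α • (η * R2 k - R2 k * η) + β • (η * η * R2 k - R2 k * (η * η))) := by
      rw [hK]
      simp only [Matrix.mul_sub, Matrix.sub_mul, Matrix.mul_add, Matrix.add_mul, mul_smul_comm,
        smul_mul_assoc, Matrix.mul_assoc]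
      module
    rw [← e1, sub_self, sub_eq_zero] at e3
    exact e3.symm
  obtain ⟨f0, f1, f2, hf⟩ := cyc_comm hv e2
  have e4 : D = (f0 • 1 + f1 • η + f2 • (η * η)) + (α • R2 k + β • (η * R2 k + R2 k * η)) := by
    rw [← hf, sub_add_cancel]
  have key := cl_psi η b μ μ' g0 g1 g2 f0 f1 f2 α β
  rw [add_assoc (g1 • b + g2 • (η * b + b * η)), ← e4] at key
  exact key

/-! ### deformations of `η` -/

omit [CharZero k] in
theorem isPoly_D3 {a b c : k → Fin 3 → k} (ha : ∀ i, IsPoly fun s => a s i)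
    (hb : ∀ i, IsPoly fun s => b s i) (hc : ∀ i, IsPoly fun s => c s i) :
    IsPoly fun s => D3 (a s) (b s) (c s) :=
  (((ha 0).mul (((hb 1).mul (hc 2)).sub ((hb 2).mul (hc 1)))).sub
    ((ha 1).mul (((hb 0).mul (hc 2)).sub ((hb 2).mul (hc 0))))).add
    ((ha 2).mul (((hb 0).mul (hc 1)).sub ((hb 1).mul (hc 0))))

omit [CharZero k] in
theorem isPoly_mulVec {M : k → Matrix (Fin 3) (Fin 3) k} {v : k → Fin 3 → k} (hM : PM M)
    (hv : ∀ i, IsPoly fun s => v s i) (i : Fin 3) : IsPoly fun s => (M s *ᵥ v s) i := by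
  have h : IsPoly fun s => ∑ j, M s i j * v s j := isPoly_sum _ fun j _ => (hM i j).mul (hv j)
  exact h

omit [CharZero k] in
theorem isPoly_cr {a b : k → Fin 3 → k} (ha : ∀ i, IsPoly fun s => a s i)
    (hb : ∀ i, IsPoly fun s => b s i) (i : Fin 3) : IsPoly fun s => cr (a s) (b s) i := by
  fin_cases i
  · exact ((ha 1).mul (hb 2)).sub ((ha 2).mul (hb 1))
  · exact ((ha 2).mul (hb 0)).sub ((ha 0).mul (hb 2))
  · exact ((ha 0).mul (hb 1)).sub ((ha 1).mul (hb 0))

omit [CharZero k] in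
theorem isPoly_sol {η : k → Matrix (Fin 3) (Fin 3) k} (hη : PM η) (K : Matrix (Fin 3) (Fin 3) k)
    (v c0 : Fin 3 → k) : PM fun s => sol (η s) K v c0 := by
  have cc : ∀ (u : Fin 3 → k) i, IsPoly fun _ : k => u i := fun u i => D7.IsPoly.const _
  have h1 : ∀ (u : Fin 3 → k) i, IsPoly fun s => (η s *ᵥ u) i := fun u i =>
    isPoly_mulVec hη (cc u) i
  have h2 : ∀ (u : Fin 3 → k) i, IsPoly fun s => (η s *ᵥ (η s *ᵥ u)) i := fun u i =>
    isPoly_mulVec hη (h1 u) i
  have g1 : ∀ i, IsPoly fun s => (η s *ᵥ c0 - K *ᵥ v) i := fun i => (h1 c0 i).sub (cc _ i)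
  have g2 : ∀ i, IsPoly fun s => (η s *ᵥ (η s *ᵥ c0 - K *ᵥ v) - K *ᵥ (η s *ᵥ v)) i := fun i =>
    (isPoly_mulVec hη g1 i).sub (isPoly_mulVec (PM.const K) (h1 v) i)
  intro i j
  exact (((cc c0 i).mul (isPoly_cr (h1 v) (h2 v) j)).add
    ((g1 i).mul (isPoly_cr (h2 v) (cc v) j))).add ((g2 i).mul (isPoly_cr (cc v) (h1 v) j))

omit [CharZero k] in
theorem finite_not_cyc {η : k → Matrix (Fin 3) (Fin 3) k} (hη : PM η) {v : Fin 3 → k} {s0 : k}
    (hv : Cyc (η s0) v) : {s | ¬ Cyc (η s) v}.Finite := by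
  have cc : ∀ (u : Fin 3 → k) i, IsPoly fun _ : k => u i := fun u i => D7.IsPoly.const _
  have h := isPoly_D3 (cc v) (isPoly_mulVec hη (cc v))
    (isPoly_mulVec hη (isPoly_mulVec hη (cc v)))
  refine (h.finite (s₁ := s0) hv).subset fun s hs => ?_
  by_contra h0
  exact hs h0

omit [CharZero k] in
theorem Gd_path [IsAlgClosed k] {η : k → Matrix (Fin 3) (Fin 3) k} (hη : PM η) {v : Fin 3 → k}
    (hv : Cyc (η 0) v) {D : Matrix (Fin 3) (Fin 3) k}
    (hD : po k * (η 0 * D - D * η 0) * io k = 0)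
    (t1 : ∀ s, ((η 0 * D - D * η 0) * η s).trace = 0)
    (t2 : ∀ s, ((η 0 * D - D * η 0) * (η s * η s)).trace = 0)
    (hG : {s | ¬ Gd (η s)}.Finite) (b : Matrix (Fin 3) (Fin 3) k)
    (μ μ' : Matrix (Fin 2) (Fin 2) k) (g0 g1 g2 : k) :
    Cl ![J k, TT (η 0) b μ, TT (g0 • 1 + g1 • η 0 + g2 • (η 0 * η 0))
      (g1 • b + g2 • (η 0 * b + b * η 0) + D) μ'] := by
  have hInf : Infinite k := IsAlgClosed.instInfinite
  set K := η 0 * D - D * η 0 with hK
  have cc : ∀ (u : Fin 3 → k) i, IsPoly fun _ : k => u i := fun u i => D7.IsPoly.const _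
  let d : k → k := fun s => D3 v (η s *ᵥ v) (η s *ᵥ (η s *ᵥ v))
  have hd : IsPoly d := isPoly_D3 (cc v) (isPoly_mulVec hη (cc v))
    (isPoly_mulVec hη (isPoly_mulVec hη (cc v)))
  have hd0 : d 0 ≠ 0 := hv
  let S : k → Matrix (Fin 3) (Fin 3) k := fun s => sol (η s) K v (D *ᵥ v)
  have hS : PM S := isPoly_sol hη K v (D *ᵥ v)
  let c : k → Fin 3 → Matrix I4 I4 k := fun s => ![J k, TT (η s) b μ,
    TT ((d s * g0) • 1 + (d s * g1) • η s + (d s * g2) • (η s * η s))
      ((d s * g1) • b + (d s * g2) • (η s * b + b * η s) + S s) (d s • μ')]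
  have hc : PolyFam c := by
    intro i
    fin_cases i
    · exact PM.const (J k)
    · exact PM.TT hη (PM.const b) (PM.const μ)
    · exact PM.TT (((PM.smul (hd.mul (D7.IsPoly.const _)) (PM.const _)).add
        (PM.smul (hd.mul (D7.IsPoly.const _)) hη)).add
        (PM.smul (hd.mul (D7.IsPoly.const _)) (hη.mul hη)))
        (((PM.smul (hd.mul (D7.IsPoly.const _)) (PM.const _)).add
        (PM.smul (hd.mul (D7.IsPoly.const _)) ((hη.mul (PM.const b)).add
        ((PM.const b).mul hη)))).add hS) (PM.smul hd (PM.const μ'))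
  have hgood : ∀ s ∉ {s | ¬ Gd (η s)} ∪ {s | d s = 0}, Cl (c s) := by
    intro s hs
    simp only [Set.mem_union, Set.mem_ofPred_eq, not_or, not_not] at hs
    refine hs.1 b (S s) μ (d s • μ') (d s * g0) (d s * g1) (d s * g2) ?_
    have e := sol_spec (η := η s) (K := K) (v := v) hs.2 (D *ᵥ v) trace_comm (t1 s) (t2 s)
    show po k * (η s * sol (η s) K v (D *ᵥ v) - sol (η s) K v (D *ᵥ v) * η s) * io k = 0
    rw [e, Matrix.mul_smul, Matrix.smul_mul, hD, smul_zero]
  have h0 := T322Aux.cl_polyFam hc (((hG.union (hd.finite hd0)).infinite_compl).mono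
    fun s hs => hgood s hs) 0
  have hS0 : S 0 = d 0 • D := sol_self hv
  have e0 : c 0 = ![J k, TT (η 0) b μ, (0 : k) • TT (η 0) b μ + d 0 • TT (g0 • 1 + g1 • η 0 +
      g2 • (η 0 * η 0)) (g1 • b + g2 • (η 0 * b + b * η 0) + D) μ' + (0 : k) • J k] := by
    show ![J k, TT (η 0) b μ, TT ((d 0 * g0) • 1 + (d 0 * g1) • η 0 + (d 0 * g2) • (η 0 * η 0))
      ((d 0 * g1) • b + (d 0 * g2) • (η 0 * b + b * η 0) + S 0) (d 0 • μ')] = _
    rw [hS0, zero_smul, zero_smul, zero_add, add_zero, TT_smul]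
    simp only [smul_add, mul_smul]
  rw [e0] at h0
  have e1 : TT (η 0) b μ = (1 : k) • TT (η 0) b μ + (0 : k) • TT (g0 • 1 + g1 • η 0 +
      g2 • (η 0 * η 0)) (g1 • b + g2 • (η 0 * b + b * η 0) + D) μ' + (0 : k) • J k := by
    rw [one_smul, zero_smul, zero_smul, add_zero, add_zero]
  refine cl_lin 1 0 0 (d 0) 0 0 (by simpa using hd0) ?_
  rw [← e1]
  exact h0

/-! ### the upper left block is not scalar -/

omit [CharZero k] in
/-- the action of the upper left block -/
def NN (n00 n01 n10 n11 : k) (z : Fin 4 → k) : Fin 4 → k :=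
  ![n00 * z 0 + n01 * z 1, n10 * z 0 + n11 * z 1, z 2 * n00 + z 3 * n10, z 2 * n01 + z 3 * n11]

omit [CharZero k] in
theorem exists_z {n00 n01 n10 n11 : k} (h : n01 ≠ 0 ∨ n10 ≠ 0 ∨ n00 ≠ n11) (x : Fin 4 → k) :
    ∃ z : Fin 4 → k, om x z = 0 ∧ om x (NN n00 n01 n10 n11 z) = 0 ∧
      ∃ i j, mi z (NN n00 n01 n10 n11 z) i j ≠ 0 := by
  by_cases hx : ∃ i j, mi x (NN n00 n01 n10 n11 x) i j ≠ 0
  · refine ⟨x, ?_, ?_, hx⟩
    · simp only [om]
      ring
    · simp only [om, NN, cons_val_zero, cons_val_one, cons_val]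
      ring
  push Not at hx
  have hl : ∃ l : k, ∀ i, NN n00 n01 n10 n11 x i = l * x i := by
    by_cases h0 : ∃ i, x i ≠ 0
    · obtain ⟨i, hi⟩ := h0
      refine ⟨NN n00 n01 n10 n11 x i / x i, fun j => ?_⟩
      have e := hx i j
      simp only [mi] at e
      field_simp
      linear_combination e
    · push Not at h0
      refine ⟨0, fun i => ?_⟩
      fin_cases i <;> simp [NN, h0]
  obtain ⟨l, hl⟩ := hl
  have hadj : ∀ z, om x (NN n00 n01 n10 n11 z) = l * om x z := by
    intro z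
    have l0 := hl 0
    have l1 := hl 1
    have l2 := hl 2
    have l3 := hl 3
    simp only [NN, cons_val_zero, cons_val_one, cons_val] at l0 l1 l2 l3
    simp only [om, NN, cons_val_zero, cons_val_one, cons_val]
    linear_combination z 2 * l0 + z 3 * l1 - z 0 * l2 - z 1 * l3
  -- vectors `e` with `e, N e` independent
  have he : ∃ e0 e1 : k, e0 * (n10 * e0 + n11 * e1) - e1 * (n00 * e0 + n01 * e1) ≠ 0 := by
    by_cases h1 : n10 = 0
    · by_cases h2 : n01 = 0
      · refine ⟨1, 1, ?_⟩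
        rw [h1, h2]
        intro h3
        refine (h.resolve_left (fun h => h h2)).resolve_left (fun h => h h1) ?_
        linear_combination -h3
      · refine ⟨0, 1, ?_⟩
        intro h3
        exact h2 (by linear_combination -h3)
    · refine ⟨1, 0, ?_⟩
      intro h3
      exact h1 (by linear_combination h3)
  have hf : ∃ f0 f1 : k, f0 * (f0 * n01 + f1 * n11) - f1 * (f0 * n00 + f1 * n10) ≠ 0 := by
    by_cases h1 : n01 = 0
    · by_cases h2 : n10 = 0
      · refine ⟨1, 1, ?_⟩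
        rw [h1, h2]
        intro h3
        refine (h.resolve_left (fun h => h h1)).resolve_left (fun h => h h2) ?_
        linear_combination -h3
      · refine ⟨0, 1, ?_⟩
        intro h3
        exact h2 (by linear_combination -h3)
    · refine ⟨1, 0, ?_⟩
      intro h3
      exact h1 (by linear_combination h3)
  obtain ⟨e0, e1, he⟩ := he
  obtain ⟨f0, f1, hf⟩ := hf
  by_cases h0 : x 0 = 0
  · by_cases h1 : x 1 = 0
    · have hz : om x ![0, 0, f0, f1] = 0 := by
        simp [om, h0, h1]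
      refine ⟨![0, 0, f0, f1], hz, by rw [hadj, hz, mul_zero], 2, 3, ?_⟩
      simpa [mi, NN] using hf
    · have hz : om x ![e0, e1, 0, (x 2 * e0 + x 3 * e1) / x 1] = 0 := by
        simp [om, h0]
        field_simp
        ring
      refine ⟨![e0, e1, 0, (x 2 * e0 + x 3 * e1) / x 1], hz, by rw [hadj, hz, mul_zero], 0, 1, ?_⟩
      simpa [mi, NN] using he
  · have hz : om x ![e0, e1, (x 2 * e0 + x 3 * e1) / x 0, 0] = 0 := by
      simp [om]
      field_simp
      ring
    refine ⟨![e0, e1, (x 2 * e0 + x 3 * e1) / x 0, 0], hz, by rw [hadj, hz, mul_zero], 0, 1, ?_⟩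
    simpa [mi, NN] using he

theorem Gd_nonscalar [IsAlgClosed k] {η : Matrix (Fin 3) (Fin 3) k} {v : Fin 3 → k}
    (hv : Cyc η v) (h : η 0 1 ≠ 0 ∨ η 1 0 ≠ 0 ∨ η 0 0 ≠ η 1 1) : Gd η := by
  intro b D μ μ' g0 g1 g2 hD
  have hK0 := diag_zero hD trace_comm
  set K := η * D - D * η with hK
  obtain ⟨z, hz1, hz2, i, j, hij⟩ := exists_z h (od K)
  let Z : Matrix (Fin 3) (Fin 3) k := !![0, 0, z 0; 0, 0, z 1; -z 2, -z 3, 0]
  let E : k → Matrix (Fin 3) (Fin 3) k := fun s => η + s • Z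
  have hE : PM E := (PM.const η).add (PM.smul D7.IsPoly.id (PM.const Z))
  have hE0 : E 0 = η := by simp [E]
  have o1 : om (od K) (yv η) = 0 := by
    rw [← neg_eq_zero, ← trace_K hK0]
    exact trace_comm1
  have o2 : om (od K) (yv (η * η)) = 0 := by
    rw [← neg_eq_zero, ← trace_K hK0]
    exact trace_comm2
  have y1 : ∀ s i, yv (E s) i = yv η i + s * z i := by
    intro s i
    fin_cases i <;> simp [E, yv, Z, mul_neg]
    · ring
    · ring
  have y2 : ∀ s i, yv (E s * E s) i = yv (η * η) i + s * (NN (η 0 0) (η 0 1) (η 1 0) (η 1 1) z i +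
      η 2 2 * z i) := by
    intro s i
    fin_cases i <;> simp [E, yv, Z, NN, Matrix.mul_apply, Fin.sum_univ_three] <;> ring
  have hT1 : ∀ s, (K * E s).trace = 0 := by
    intro s
    rw [trace_K hK0]
    have e : om (od K) (yv (E s)) = om (od K) (yv η) + s * om (od K) z := by
      simp only [om, y1]
      ring
    rw [e, o1, hz1]
    ring
  have hT2 : ∀ s, (K * (E s * E s)).trace = 0 := by
    intro s
    rw [trace_K hK0]
    have e : om (od K) (yv (E s * E s)) = om (od K) (yv (η * η)) +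
        s * (om (od K) (NN (η 0 0) (η 0 1) (η 1 0) (η 1 1) z) + η 2 2 * om (od K) z) := by
      simp only [om, y2]
      ring
    rw [e, o2, hz1, hz2]
    ring
  have hG : {s | ¬ Gd (E s)}.Finite := by
    have f1 := finite_not_cyc hE (s0 := 0) (v := v) (by rw [hE0]; exact hv)
    have f2 := D8.finite_quad (a := mi (yv η) (yv (η * η)) i j)
      (b := yv η i * (NN (η 0 0) (η 0 1) (η 1 0) (η 1 1) z j + η 2 2 * z j) +
        z i * yv (η * η) j - (yv η j * (NN (η 0 0) (η 0 1) (η 1 0) (η 1 1) z i + η 2 2 * z i) +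
        z j * yv (η * η) i))
      (c := mi z (NN (η 0 0) (η 0 1) (η 1 0) (η 1 1) z) i j) (Or.inr (Or.inr hij))
    refine (f1.union f2).subset fun s hs => ?_
    by_contra hcon
    simp only [Set.mem_union, Set.mem_ofPred_eq, not_or, not_not] at hcon
    refine hs (Gd_of_indep hcon.1 ⟨i, j, fun h0 => hcon.2 ?_⟩)
    rw [← h0]
    simp only [mi, y1, y2]
    ring
  have key := Gd_path hE (v := v) (by rw [hE0]; exact hv) (D := D) (by rw [hE0]; exact hD)
    (by rw [hE0]; exact hT1) (by rw [hE0]; exact hT2) hG b μ μ' g0 g1 g2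
  rw [hE0] at key
  exact key

/-- one of the matrices has a cyclic vector -/
theorem Gd_all [IsAlgClosed k] {η : Matrix (Fin 3) (Fin 3) k} {v : Fin 3 → k}
    (hv : Cyc η v) : Gd η := by
  by_cases h : η 0 1 ≠ 0 ∨ η 1 0 ≠ 0 ∨ η 0 0 ≠ η 1 1
  · exact Gd_nonscalar hv h
  push Not at h
  obtain ⟨n01, n10, n00⟩ := h
  intro b D μ μ' g0 g1 g2 hD
  have hK0 := diag_zero hD trace_comm
  set K := η * D - D * η with hK
  obtain ⟨p, q, hpq, hpq0⟩ : ∃ p q : k, (p ≠ 0 ∨ q ≠ 0) ∧
      p * (K 1 2 * η 2 0 + η 1 2 * K 2 0) + q * (K 0 2 * η 2 1 + η 0 2 * K 2 1) = 0 := by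
    by_cases h0 : K 1 2 * η 2 0 + η 1 2 * K 2 0 = 0
    · exact ⟨1, 0, Or.inl one_ne_zero, by rw [h0]; ring⟩
    · exact ⟨-(K 0 2 * η 2 1 + η 0 2 * K 2 1), K 1 2 * η 2 0 + η 1 2 * K 2 0, Or.inr h0, by ring⟩
  let Z : Matrix (Fin 3) (Fin 3) k := !![0, p, 0; q, 0, 0; 0, 0, 0]
  let E : k → Matrix (Fin 3) (Fin 3) k := fun s => η + s • Z
  have hE : PM E := (PM.const η).add (PM.smul D7.IsPoly.id (PM.const Z))
  have hE0 : E 0 = η := by simp [E]
  have o1 : om (od K) (yv η) = 0 := by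
    rw [← neg_eq_zero, ← trace_K hK0]
    exact trace_comm1
  have o2 : om (od K) (yv (η * η)) = 0 := by
    rw [← neg_eq_zero, ← trace_K hK0]
    exact trace_comm2
  have hT1 : ∀ s, (K * E s).trace = 0 := by
    intro s
    rw [trace_K hK0]
    have e : om (od K) (yv (E s)) = om (od K) (yv η) := by
      simp [om, yv, E, Z]
    rw [e, o1, neg_zero]
  have hT2 : ∀ s, (K * (E s * E s)).trace = 0 := by
    intro s
    rw [trace_K hK0]
    have e : om (od K) (yv (E s * E s)) = om (od K) (yv (η * η)) -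
        s * (p * (K 1 2 * η 2 0 + η 1 2 * K 2 0) + q * (K 0 2 * η 2 1 + η 0 2 * K 2 1)) := by
      simp [om, od, yv, E, Z, Matrix.mul_apply, Fin.sum_univ_three]
      ring
    rw [e, o2, hpq0]
    ring
  have hG : {s | ¬ Gd (E s)}.Finite := by
    have f1 := finite_not_cyc hE (s0 := 0) (v := v) (by rw [hE0]; exact hv)
    refine (f1.union (Set.finite_singleton 0)).subset fun s hs => ?_
    by_contra hcon
    simp only [Set.mem_union, Set.mem_ofPred_eq, Set.mem_singleton_iff, not_or, not_not] at hcon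
    refine hs (Gd_nonscalar hcon.1 ?_)
    rcases hpq with hp | hq
    · left
      simp [E, Z, n01, hp, hcon.2]
    · right
      left
      simp [E, Z, n10, hq, hcon.2]
  have key := Gd_path hE (v := v) (by rw [hE0]; exact hv) (D := D) (by rw [hE0]; exact hD)
    (by rw [hE0]; exact hT1) (by rw [hE0]; exact hT2) hG b μ μ' g0 g1 g2
  rw [hE0] at key
  exact key

/-- the second matrix has a cyclic vector -/
theorem cl_cyc [IsAlgClosed k] {a b a' b' : Matrix (Fin 3) (Fin 3) k}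
    {μ μ' : Matrix (Fin 2) (Fin 2) k} {v : Fin 3 → k} (hv : Cyc a v) (h : CC a b a' b') :
    Cl ![J k, TT a b μ, TT a' b' μ'] := by
  obtain ⟨g0, g1, g2, rfl⟩ := cyc_comm hv h.1.symm
  have key := Gd_all hv b (b' - (g1 • b + g2 • (a * b + b * a))) μ μ' g0 g1 g2 (by
    rw [← h.2]
    congr 2
    simp only [Matrix.mul_sub, Matrix.sub_mul, Matrix.mul_add, Matrix.add_mul, mul_smul_comm,
      smul_mul_assoc, Matrix.mul_assoc, mul_one, one_mul]
    module)
  rw [add_sub_cancel] at key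
  exact key

/-- the third matrix starts with zero -/
theorem cl_zero [IsAlgClosed k] {a b b' : Matrix (Fin 3) (Fin 3) k}
    {μ μ' : Matrix (Fin 2) (Fin 2) k} (h : CC a b 0 b') : Cl ![J k, TT a b μ, TT 0 b' μ'] := by
  have hInf : Infinite k := IsAlgClosed.instInfinite
  obtain ⟨R, v, hR, hv⟩ := good_all a
  have h2 := h.2
  rw [Matrix.mul_zero, Matrix.zero_mul, sub_zero, add_zero] at h2
  refine T322Aux.cl_line (A' := 0) (B' := 0) (C' := TT 0 R 0)
    (Pool.Agent.Lib.D9.T333Aux.finite_cyc (X := b') hv) fun t ht => ?_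
  have ht' : Cyc (b' + t • R) v := by
    by_contra h0
    exact ht h0
  have e1 : TT 0 b' μ' + t • TT 0 R 0 = TT 0 (b' + t • R) μ' := by
    rw [TT_smul, TT_add, smul_zero, smul_zero, add_zero, add_zero]
  rw [smul_zero, add_zero, add_zero, e1]
  refine T322Aux.cl_line (A' := 0) (B' := TT (b' + t • R) 0 0) (C' := 0)
    (Pool.Agent.Lib.D9.T333Aux.finite_cyc (X := a) ht') fun s hs => ?_
  have hs' : Cyc (a + s • (b' + t • R)) v := by
    by_contra h0
    exact hs h0
  have e2 : TT a b μ + s • TT (b' + t • R) 0 0 = TT (a + s • (b' + t • R)) b μ := by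
    rw [TT_smul, TT_add, smul_zero, smul_zero, add_zero, add_zero]
  rw [smul_zero, add_zero, add_zero, e2]
  refine cl_cyc hs' ⟨by rw [Matrix.mul_zero, Matrix.zero_mul], ?_⟩
  rw [← h2]
  congr 2
  simp only [Matrix.mul_sub, Matrix.sub_mul, Matrix.mul_add, Matrix.add_mul, mul_smul_comm,
    smul_mul_assoc, Matrix.mul_assoc, Matrix.mul_zero, Matrix.zero_mul, hR]
  module

end Pool.Agent.Lib.D13.X442
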