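import Pool.Agent.Lib.D13.X442R

/-!
# MP_5dcbc3_ag: Jordan type `(4, 4, 2)`: no linear combination has a cyclic vector

All commuting triples `J, TT a b μ, TT a' b' μ'` are limits of curvilinear ones.
-/

namespace Pool.Agent.Lib.D13.X442

open Matrix Pool.Agent.Lib.Q5dc Pool.Agent.Lib.D7 Pool.Agent.Lib.D9.T333Aux
open Pool.Agent.Lib.D13.M3

variable {k : Type*} [Field k]

theorem CC_lin {a b a' b' : Matrix (Fin 3) (Fin 3) k} (h : CC a b a' b') (p q r s x y : k) :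
    CC (p • a + q • a' + x • 1) (p • b + q • b') (r • a + s • a' + y • 1) (r • b + s • b') := by
  have h1 := h.1
  constructor
  · simp only [Matrix.mul_add, Matrix.add_mul, mul_smul_comm, smul_mul_assoc, mul_one, one_mul, h1]
    module
  · have e : (p • a + q • a' + x • (1 : Matrix (Fin 3) (Fin 3) k)) * (r • b + s • b') -
        (r • b + s • b') * (p • a + q • a' + x • 1) + ((p • b + q • b') *
        (r • a + s • a' + y • 1) - (r • a + s • a' + y • 1) * (p • b + q • b')) =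
        (p * s - q * r) • (a * b' - b' * a + (b * a' - a' * b)) := by
      simp only [Matrix.mul_add, Matrix.add_mul, mul_smul_comm, smul_mul_assoc, mul_one, one_mul]
      module
    rw [e, Matrix.mul_smul, Matrix.smul_mul, h.2, smul_zero]

theorem cl_lin_TT {a b a' b' : Matrix (Fin 3) (Fin 3) k} {μ μ' : Matrix (Fin 2) (Fin 2) k}
    (p q r s x y : k) (h : p * s - q * r ≠ 0)
    (H : Cl ![J k, TT (p • a + q • a' + x • 1) (p • b + q • b') (p • μ + q • μ'),
      TT (r • a + s • a' + y • 1) (r • b + s • b') (r • μ + s • μ')]) :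
    Cl ![J k, TT a b μ, TT a' b' μ'] := by
  refine cl_lin p q r s x y h ?_
  have e : ∀ p q x : k, p • TT a b μ + q • TT a' b' μ' + x • J k =
      TT (p • a + q • a' + x • 1) (p • b + q • b') (p • μ + q • μ') := by
    intro p q x
    rw [J, TT_smul, TT_smul, TT_smul, TT_add, TT_add, smul_zero, smul_zero, add_zero, add_zero]
  rw [e, e]
  exact H

/-! ### vectors -/

theorem tri (a b : Fin 3 → k) : a = 0 ∨ (∃ c : k, b = c • a) ∨ ∃ v, D3 a b v ≠ 0 := by
  by_cases h : ∃ v, D3 a b v ≠ 0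
  · exact Or.inr (Or.inr h)
  push Not at h
  by_cases h0 : a = 0
  · exact Or.inl h0
  right
  left
  have g0 := h ![1, 0, 0]
  have g1 := h ![0, 1, 0]
  have g2 := h ![0, 0, 1]
  simp [D3] at g0 g1 g2
  obtain ⟨i, hi⟩ : ∃ i, a i ≠ 0 := by
    by_contra hcon
    push Not at hcon
    exact h0 (funext hcon)
  refine ⟨b i / a i, ?_⟩
  funext j
  rw [Pi.smul_apply, smul_eq_mul]
  fin_cases i <;> fin_cases j <;> simp only [Fin.zero_eta, Fin.mk_one, Fin.reduceFinMk] at hi ⊢ <;>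
    field_simp
  · linear_combination g2
  · linear_combination -g1
  · linear_combination -g2
  · linear_combination g0
  · linear_combination g1
  · linear_combination -g0

theorem D3_zero {a b : Fin 3 → k} (v : Fin 3 → k) (h : D3 a b v ≠ 0) {p q : k}
    (e : p • a = q • b) : p = 0 ∧ q = 0 := by
  have h1 : D3 (p • a) b v = D3 (q • b) b v := by rw [e]
  have h2 : D3 a (p • a) v = D3 a (q • b) v := by rw [e]
  have e1 : D3 (p • a) b v = p * D3 a b v := by
    simp only [D3, Pi.smul_apply, smul_eq_mul]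
    ring
  have e2 : D3 (q • b) b v = 0 := by
    simp only [D3, Pi.smul_apply, smul_eq_mul]
    ring
  have e3 : D3 a (p • a) v = 0 := by
    simp only [D3, Pi.smul_apply, smul_eq_mul]
    ring
  have e4 : D3 a (q • b) v = q * D3 a b v := by
    simp only [D3, Pi.smul_apply, smul_eq_mul]
    ring
  rw [e1, e2] at h1
  rw [e3, e4] at h2
  exact ⟨(mul_eq_zero.1 h1).resolve_right h, (mul_eq_zero.1 h2.symm).resolve_right h⟩

theorem gen3 [Infinite k] {a b c : Fin 3 → k} (ha : a ≠ 0) (hb : b ≠ 0) (hc : c ≠ 0) :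
    ∃ v : Fin 3 → k, a ⬝ᵥ v ≠ 0 ∧ b ⬝ᵥ v ≠ 0 ∧ c ⬝ᵥ v ≠ 0 := by
  have key : ∀ a : Fin 3 → k, a ≠ 0 → {s : k | a ⬝ᵥ ![1, s, s ^ 2] = 0}.Finite := by
    intro a ha
    have h : a 0 ≠ 0 ∨ a 1 ≠ 0 ∨ a 2 ≠ 0 := by
      by_contra hcon
      push Not at hcon
      refine ha (funext fun i => ?_)
      fin_cases i
      · exact hcon.1
      · exact hcon.2.1
      · exact hcon.2.2
    refine (D8.finite_quad h).subset fun s hs => ?_
    simpa [dotProduct, Fin.sum_univ_three] using hs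
  obtain ⟨s, hs⟩ := (((key a ha).union (key b hb)).union (key c hc)).exists_notMem
  simp only [Set.mem_union, Set.mem_ofPred_eq, not_or] at hs
  exact ⟨_, hs.1.1, hs.1.2, hs.2⟩

theorem vm (u v w x : Fin 3 → k) :
    vecMulVec u v * vecMulVec w x = (v ⬝ᵥ w) • vecMulVec u x := by
  rw [vecMulVec_mul_vecMulVec, vecMulVec_smul]

theorem vmv (u v w : Fin 3 → k) : vecMulVec u v *ᵥ w = (v ⬝ᵥ w) • u := by
  rw [vecMulVec_mulVec]
  ext i
  simp [mul_comm]

section CZ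

variable [CharZero k] [IsAlgClosed k]

/-- the same functional; the second matrix maps `a'` to the span of `a, a'` -/
theorem cl_same {a a' φ v : Fin 3 → k} {b b' : Matrix (Fin 3) (Fin 3) k}
    {μ μ' : Matrix (Fin 2) (Fin 2) k} (hd : D3 a a' v ≠ 0) (ha : φ ⬝ᵥ a = 0) (ha' : φ ⬝ᵥ a' = 0)
    (hv : φ ⬝ᵥ v = 1) (hb : φ ⬝ᵥ (b' *ᵥ a') = 0)
    (h : CC (vecMulVec a φ) b (vecMulVec a' φ) b') :
    Cl ![J k, TT (vecMulVec a φ) b μ, TT (vecMulVec a' φ) b' μ'] := by
  obtain ⟨α, β, γ, hα⟩ := span3 hd (b' *ᵥ a')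
  have hγ : γ = 0 := by
    rw [hα, dotProduct_add, dotProduct_add, dotProduct_smul, dotProduct_smul, dotProduct_smul, ha,
      ha', hv] at hb
    simpa using hb
  rw [hγ, zero_smul, add_zero] at hα
  set u : Fin 3 → k := (D3 a a' v)⁻¹ • cr a' v with hu
  have ua : u ⬝ᵥ a = 1 := by
    rw [hu, smul_dotProduct, cr_dot, smul_eq_mul, inv_mul_cancel₀ hd]
  have ua' : u ⬝ᵥ a' = 0 := by
    rw [hu, smul_dotProduct, cr_dot]
    have e : D3 a' a' v = 0 := by
      simp only [D3]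
      ring
    rw [e, smul_zero]
  have uv : u ⬝ᵥ v = 0 := by
    rw [hu, smul_dotProduct, cr_dot]
    have e : D3 v a' v = 0 := by
      simp only [D3]
      ring
    rw [e, smul_zero]
  set ψ : Fin 3 → k := u ᵥ* b' - β • u with hψ
  have ψa : ψ ⬝ᵥ a' = α := by
    rw [hψ, sub_dotProduct, smul_dotProduct, ua', ← dotProduct_mulVec, hα, dotProduct_add,
      dotProduct_smul, dotProduct_smul, ua, ua']
    simp
  refine T322Aux.cl_line (A' := 0) (B' := TT (vecMulVec a' u) (vecMulVec v ψ) 0)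
    (C' := TT 0 (α • vecMulVec v u) 0) (Set.finite_singleton (0 : k)) fun s hs => ?_
  have hs0 : s ≠ 0 := by simpa using hs
  have e1 : TT (vecMulVec a φ) b μ + s • TT (vecMulVec a' u) (vecMulVec v ψ) 0 =
      TT (vecMulVec a φ + s • vecMulVec a' u) (b + s • vecMulVec v ψ) μ := by
    rw [TT_smul, TT_add, smul_zero, add_zero]
  have e2 : TT (vecMulVec a' φ) b' μ' + s • TT 0 (α • vecMulVec v u) 0 =
      TT (vecMulVec a' φ) (b' + s • (α • vecMulVec v u)) μ' := by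
    rw [TT_smul, TT_add, smul_zero, smul_zero, add_zero, add_zero]
  rw [smul_zero, add_zero, e1, e2]
  refine cl_cyc (v := v) ?_ ⟨?_, ?_⟩
  · unfold Cyc
    have f1 : (vecMulVec a φ + s • vecMulVec a' u) *ᵥ v = a := by
      rw [add_mulVec, smul_mulVec, vmv, vmv, hv, uv, one_smul, zero_smul, smul_zero, add_zero]
    have f2 : (vecMulVec a φ + s • vecMulVec a' u) *ᵥ a = s • a' := by
      rw [add_mulVec, smul_mulVec, vmv, vmv, ha, ua, one_smul, zero_smul, zero_add]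
    rw [f1, f2]
    have f3 : D3 v a (s • a') = s * D3 a a' v := by
      simp only [D3, Pi.smul_apply, smul_eq_mul]
      ring
    rw [f3]
    exact mul_ne_zero hs0 hd
  · simp only [Matrix.mul_add, Matrix.add_mul, mul_smul_comm, smul_mul_assoc, vm, ha, ha', ua',
      zero_smul, smul_zero, add_zero]
  · rw [← h.2]
    congr 2
    have m1 : vecMulVec a φ * vecMulVec v u = vecMulVec a u := by rw [vm, hv, one_smul]
    have m2 : vecMulVec v u * vecMulVec a φ = vecMulVec v φ := by rw [vm, ua, one_smul]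
    have m3 : vecMulVec a' u * vecMulVec v u = 0 := by rw [vm, uv, zero_smul]
    have m4 : vecMulVec v u * vecMulVec a' u = 0 := by rw [vm, ua', zero_smul]
    have m5 : vecMulVec a' u * b' = vecMulVec a' (u ᵥ* b') := by rw [vecMulVec_mul]
    have m6 : b' * vecMulVec a' u = α • vecMulVec a u + β • vecMulVec a' u := by
      rw [mul_vecMulVec, hα, add_vecMulVec, smul_vecMulVec, smul_vecMulVec]
    have m7 : vecMulVec v ψ * vecMulVec a' φ = α • vecMulVec v φ := by rw [vm, ψa]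
    have m8 : vecMulVec a' φ * vecMulVec v ψ = vecMulVec a' (u ᵥ* b') - β • vecMulVec a' u := by
      rw [vm, hv, one_smul, hψ, vecMulVec_sub, vecMulVec_smul]
    simp only [Matrix.mul_add, Matrix.add_mul, mul_smul_comm, smul_mul_assoc, m1, m2, m3, m4, m5,
      m6, m7, m8]
    module

/-- the same functional -/
theorem cl_same' {a a' φ v : Fin 3 → k} {b b' : Matrix (Fin 3) (Fin 3) k}
    {μ μ' : Matrix (Fin 2) (Fin 2) k} (hd : D3 a a' v ≠ 0) (ha : φ ⬝ᵥ a = 0) (ha' : φ ⬝ᵥ a' = 0)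
    (hv : φ ⬝ᵥ v = 1) (h : CC (vecMulVec a φ) b (vecMulVec a' φ) b') :
    Cl ![J k, TT (vecMulVec a φ) b μ, TT (vecMulVec a' φ) b' μ'] := by
  by_cases hb : φ ⬝ᵥ (b' *ᵥ a') = 0
  · exact cl_same hd ha ha' hv hb h
  obtain ⟨β, hβ⟩ := exists_quad (-(φ ⬝ᵥ (b *ᵥ a)) / φ ⬝ᵥ (b' *ᵥ a'))
    (-(φ ⬝ᵥ (b *ᵥ a') + φ ⬝ᵥ (b' *ᵥ a)) / φ ⬝ᵥ (b' *ᵥ a'))
  have hβ' : φ ⬝ᵥ (b *ᵥ a) + β * (φ ⬝ᵥ (b *ᵥ a') + φ ⬝ᵥ (b' *ᵥ a)) +
      β ^ 2 * φ ⬝ᵥ (b' *ᵥ a') = 0 := by
    rw [hβ]
    field_simp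
    ring
  refine cl_lin_TT 0 1 1 β 0 0 (by norm_num) ?_
  have e1 : (0 : k) • vecMulVec a φ + (1 : k) • vecMulVec a' φ + (0 : k) • 1 = vecMulVec a' φ := by
    module
  have e2 : (1 : k) • vecMulVec a φ + β • vecMulVec a' φ + (0 : k) • 1 =
      vecMulVec (a + β • a') φ := by
    rw [add_vecMulVec, smul_vecMulVec]
    module
  have hC := CC_lin h 0 1 1 β 0 0
  rw [e1, e2] at hC ⊢
  refine cl_same (v := v) ?_ ha' ?_ hv ?_ hC
  · have e : D3 a' (a + β • a') v = -D3 a a' v := by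
      simp only [D3, Pi.add_apply, Pi.smul_apply, smul_eq_mul]
      ring
    rw [e]
    exact neg_ne_zero.2 hd
  · rw [dotProduct_add, dotProduct_smul, ha, ha', smul_zero, add_zero]
  · rw [← hβ']
    simp only [one_smul, add_mulVec, mulVec_add, smul_mulVec, mulVec_smul, dotProduct_add,
      dotProduct_smul, smul_eq_mul]
    ring

/-- the same functional, general form -/
theorem cl_same3 {a a' φ v : Fin 3 → k} {b b' : Matrix (Fin 3) (Fin 3) k}
    {μ μ' : Matrix (Fin 2) (Fin 2) k} (hd : D3 a a' v ≠ 0) (hφ : φ ≠ 0)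
    (h : CC (vecMulVec a φ) b (vecMulVec a' φ) b') :
    Cl ![J k, TT (vecMulVec a φ) b μ, TT (vecMulVec a' φ) b' μ'] := by
  obtain ⟨i, hi⟩ : ∃ i, φ i ≠ 0 := by
    by_contra hcon
    push Not at hcon
    exact hφ (funext hcon)
  have h1 := h.1
  rw [vm, vm] at h1
  have h2 : (φ ⬝ᵥ a') • a = (φ ⬝ᵥ a) • a' := by
    funext j
    have h3 := congrFun (congrFun h1 j) i
    simp only [Matrix.smul_apply, vecMulVec_apply, smul_eq_mul] at h3
    rw [Pi.smul_apply, Pi.smul_apply, smul_eq_mul, smul_eq_mul]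
    refine mul_right_cancel₀ hi ?_
    linear_combination h3
  obtain ⟨ha', ha⟩ := D3_zero v hd h2
  have hv : φ ⬝ᵥ v ≠ 0 := by
    intro h0
    refine hφ (funext fun j => ?_)
    obtain ⟨p, q, r, hp⟩ := span3 hd (Pi.single j 1)
    have h4 : φ ⬝ᵥ (Pi.single j 1) = 0 := by
      rw [hp, dotProduct_add, dotProduct_add, dotProduct_smul, dotProduct_smul, dotProduct_smul,
        ha, ha', h0]
      simp
    simpa using h4
  refine cl_same' (v := (φ ⬝ᵥ v)⁻¹ • v) ?_ ha ha' ?_ h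
  · have e : D3 a a' ((φ ⬝ᵥ v)⁻¹ • v) = (φ ⬝ᵥ v)⁻¹ * D3 a a' v := by
      simp only [D3, Pi.smul_apply, smul_eq_mul]
      ring
    rw [e]
    exact mul_ne_zero (inv_ne_zero hv) hd
  · rw [dotProduct_smul, smul_eq_mul, inv_mul_cancel₀ hv]

theorem cl_zero' {b a' b' : Matrix (Fin 3) (Fin 3) k}
    {μ μ' : Matrix (Fin 2) (Fin 2) k} (h : CC 0 b a' b') : Cl ![J k, TT 0 b μ, TT a' b' μ'] := by
  have hC := CC_lin h 0 1 1 0 0 0
  refine cl_lin_TT 0 1 1 0 0 0 (by norm_num) ?_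
  have e : (1 : k) • (0 : Matrix (Fin 3) (Fin 3) k) + (0 : k) • a' + (0 : k) • 1 = 0 := by module
  rw [e] at hC ⊢
  exact cl_zero hC

/-- proportional matrices -/
theorem cl_prop {a b b' : Matrix (Fin 3) (Fin 3) k} {c : k}
    {μ μ' : Matrix (Fin 2) (Fin 2) k} (h : CC a b (c • a) b') :
    Cl ![J k, TT a b μ, TT (c • a) b' μ'] := by
  have hC := CC_lin h 1 0 (-c) 1 0 0
  refine cl_lin_TT 1 0 (-c) 1 0 0 (by norm_num) ?_
  have e : (-c) • a + (1 : k) • (c • a) + (0 : k) • 1 = 0 := by module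
  rw [e] at hC ⊢
  exact cl_zero hC

/-- both matrices have rank one, the same functional -/
theorem cl_col {x x' φ : Fin 3 → k} {b b' : Matrix (Fin 3) (Fin 3) k}
    {μ μ' : Matrix (Fin 2) (Fin 2) k} (h : CC (vecMulVec x φ) b (vecMulVec x' φ) b') :
    Cl ![J k, TT (vecMulVec x φ) b μ, TT (vecMulVec x' φ) b' μ'] := by
  by_cases hφ : φ = 0
  · subst hφ
    rw [vecMulVec_zero] at h ⊢
    exact cl_zero' h
  rcases tri x x' with rfl | ⟨c, rfl⟩ | ⟨v, hv⟩
  · rw [zero_vecMulVec] at h ⊢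
    exact cl_zero' h
  · rw [smul_vecMulVec] at h ⊢
    exact cl_prop h
  · exact cl_same3 hv hφ h

omit [CharZero k] [IsAlgClosed k] in
theorem CC_dual {a b a' b' : Matrix (Fin 3) (Fin 3) k} (h : CC a b a' b') :
    CC aᵀ bᵀ a'ᵀ b'ᵀ := by
  constructor
  · rw [← transpose_mul, ← transpose_mul, h.1]
  · have h2 := congrArg Matrix.transpose h.2
    simp only [transpose_mul, transpose_add, transpose_sub, transpose_zero, io_t, po_t] at h2
    have e : aᵀ * b'ᵀ - b'ᵀ * aᵀ + (bᵀ * a'ᵀ - a'ᵀ * bᵀ) =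
        -(b'ᵀ * aᵀ - aᵀ * b'ᵀ + (a'ᵀ * bᵀ - bᵀ * a'ᵀ)) := by abel
    rw [e, Matrix.mul_neg, Matrix.neg_mul, Matrix.mul_assoc, h2, neg_zero]

/-- both matrices have rank one, the same vector -/
theorem cl_row {x φ φ' : Fin 3 → k} {b b' : Matrix (Fin 3) (Fin 3) k}
    {μ μ' : Matrix (Fin 2) (Fin 2) k} (h : CC (vecMulVec x φ) b (vecMulVec x φ') b') :
    Cl ![J k, TT (vecMulVec x φ) b μ, TT (vecMulVec x φ') b' μ'] := by
  have h2 := CC_dual h
  refine cl_dual ?_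
  rw [transpose_vecMulVec, transpose_vecMulVec] at h2 ⊢
  exact cl_col h2

/-- both matrices have rank one, no linear combination has a cyclic vector -/
theorem cl_rank1 {x x' φ φ' : Fin 3 → k} {b b' : Matrix (Fin 3) (Fin 3) k}
    {μ μ' : Matrix (Fin 2) (Fin 2) k} (h : CC (vecMulVec x φ) b (vecMulVec x' φ') b')
    (hn : ∀ (p q : k) (v : Fin 3 → k), ¬ Cyc (p • vecMulVec x φ + q • vecMulVec x' φ') v) :
    Cl ![J k, TT (vecMulVec x φ) b μ, TT (vecMulVec x' φ') b' μ'] := by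
  have hInf : Infinite k := IsAlgClosed.instInfinite
  rcases tri φ φ' with rfl | ⟨c, rfl⟩ | ⟨w, hw⟩
  · rw [vecMulVec_zero] at h ⊢
    exact cl_zero' h
  · have e : vecMulVec x' (c • φ) = vecMulVec (c • x') φ := by
      rw [vecMulVec_smul, smul_vecMulVec]
    rw [e] at h ⊢
    exact cl_col h
  rcases tri x x' with rfl | ⟨c, rfl⟩ | ⟨y, hy⟩
  · rw [zero_vecMulVec] at h ⊢
    exact cl_zero' h
  · have e : vecMulVec (c • x) φ' = vecMulVec x (c • φ') := by
      rw [vecMulVec_smul, smul_vecMulVec]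
    rw [e] at h ⊢
    exact cl_row h
  -- independent vectors, independent functionals
  exfalso
  have h1 := h.1
  rw [vm, vm] at h1
  have h2 : ∀ z, (φ ⬝ᵥ x') • (φ' ⬝ᵥ z) • x = (φ' ⬝ᵥ x) • (φ ⬝ᵥ z) • x' := by
    intro z
    have h3 := congrArg (fun M => M *ᵥ z) h1
    simpa only [smul_mulVec, vmv] using h3
  have d1 : φ ⬝ᵥ cr φ w = 0 := by
    rw [dotProduct_comm, cr_dot]
    simp only [D3]
    ring
  have d2 : φ' ⬝ᵥ cr φ w ≠ 0 := by
    rw [dotProduct_comm, cr_dot]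
    have e : D3 φ' φ w = -D3 φ φ' w := by
      simp only [D3]
      ring
    rw [e]
    exact neg_ne_zero.2 hw
  have d3 : φ' ⬝ᵥ cr φ' w = 0 := by
    rw [dotProduct_comm, cr_dot]
    simp only [D3]
    ring
  have d4 : φ ⬝ᵥ cr φ' w ≠ 0 := by
    rw [dotProduct_comm, cr_dot]
    exact hw
  have p1 : φ ⬝ᵥ x' = 0 := by
    have h3 := h2 (cr φ w)
    rw [d1, zero_smul, smul_zero, smul_smul] at h3
    have h4 := (D3_zero (p := (φ ⬝ᵥ x') * (φ' ⬝ᵥ cr φ w)) (q := 0) y hy (by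
      rw [h3, zero_smul])).1
    exact (mul_eq_zero.1 h4).resolve_right d2
  have p2 : φ' ⬝ᵥ x = 0 := by
    have h3 := h2 (cr φ' w)
    rw [d3, zero_smul, smul_zero, smul_smul] at h3
    have h4 := (D3_zero (p := 0) (q := (φ' ⬝ᵥ x) * (φ ⬝ᵥ cr φ' w)) y hy (by
      rw [← h3, zero_smul])).2
    exact (mul_eq_zero.1 h4).resolve_right d4
  have n1 : φ ≠ 0 := by
    rintro rfl
    exact hw (by simp [D3])
  have n2 : φ' ≠ 0 := by
    rintro rfl
    exact hw (by simp [D3])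
  have n3 : cr x x' ≠ 0 := by
    intro h0
    have e := cr_dot x x' y
    rw [h0, zero_dotProduct] at e
    have e2 : D3 y x x' = D3 x x' y := by
      simp only [D3]
      ring
    rw [e2] at e
    exact hy e.symm
  obtain ⟨v, v1, v2, v3⟩ := gen3 n1 n2 n3
  rw [cr_dot] at v3
  have key : ∀ p q : k, p * q * (φ ⬝ᵥ v) * (φ' ⬝ᵥ v) * (q * (φ' ⬝ᵥ x') - p * (φ ⬝ᵥ x)) *
      D3 v x x' = 0 := by
    intro p q
    have h3 := hn p q v
    unfold Cyc at h3
    rw [not_not] at h3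
    have f1 : (p • vecMulVec x φ + q • vecMulVec x' φ') *ᵥ v =
        (p * φ ⬝ᵥ v) • x + (q * φ' ⬝ᵥ v) • x' := by
      rw [add_mulVec, smul_mulVec, smul_mulVec, vmv, vmv, smul_smul, smul_smul]
    have f2 : (p • vecMulVec x φ + q • vecMulVec x' φ') *ᵥ
        ((p * φ ⬝ᵥ v) • x + (q * φ' ⬝ᵥ v) • x') =
        (p * (φ ⬝ᵥ x) * (p * φ ⬝ᵥ v)) • x + (q * (φ' ⬝ᵥ x') * (q * φ' ⬝ᵥ v)) • x' := by
      rw [add_mulVec, smul_mulVec, smul_mulVec, vmv, vmv, dotProduct_add, dotProduct_add,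
        dotProduct_smul, dotProduct_smul, dotProduct_smul, dotProduct_smul, p1, p2]
      simp only [smul_eq_mul, mul_zero, add_zero, zero_add]
      module
    rw [f1, f2] at h3
    rw [← h3]
    simp only [D3, Pi.add_apply, Pi.smul_apply, smul_eq_mul]
    ring
  have k1 := key 1 1
  have k2 := key 1 (-1)
  have c0 : (φ ⬝ᵥ v) * (φ' ⬝ᵥ v) * D3 v x x' ≠ 0 := mul_ne_zero (mul_ne_zero v1 v2) v3
  have q1 : φ' ⬝ᵥ x' - φ ⬝ᵥ x = 0 := by
    refine (mul_eq_zero.1 (?_ : (φ' ⬝ᵥ x' - φ ⬝ᵥ x) * ((φ ⬝ᵥ v) * (φ' ⬝ᵥ v) * D3 v x x') = 0)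
      ).resolve_right c0
    linear_combination k1
  have q2 : φ' ⬝ᵥ x' + φ ⬝ᵥ x = 0 := by
    refine (mul_eq_zero.1 (?_ : (φ' ⬝ᵥ x' + φ ⬝ᵥ x) * ((φ ⬝ᵥ v) * (φ' ⬝ᵥ v) * D3 v x x') = 0)
      ).resolve_right c0
    linear_combination k2
  have q3 : φ ⬝ᵥ x = 0 := by
    have e : (2 : k) * (φ ⬝ᵥ x) = 0 := by linear_combination q2 - q1
    exact (mul_eq_zero.1 e).resolve_left two_ne_zero
  have q4 : φ' ⬝ᵥ x' = 0 := by
    rw [q3, add_zero] at q2
    exact q2
  -- now both functionals vanish on `x, x'`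
  have e1 : φ' = ((φ' ⬝ᵥ v) / (φ ⬝ᵥ v)) • φ := by
    funext j
    obtain ⟨p, q, r, hp⟩ := span3 v3 (Pi.single j 1)
    have h4 : φ ⬝ᵥ (Pi.single j 1) = p * (φ ⬝ᵥ v) := by
      rw [hp, dotProduct_add, dotProduct_add, dotProduct_smul, dotProduct_smul, dotProduct_smul,
        q3, p1]
      simp
    have h5 : φ' ⬝ᵥ (Pi.single j 1) = p * (φ' ⬝ᵥ v) := by
      rw [hp, dotProduct_add, dotProduct_add, dotProduct_smul, dotProduct_smul, dotProduct_smul,
        q4, p2]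
      simp
    rw [dotProduct_single_one] at h4 h5
    rw [Pi.smul_apply, smul_eq_mul, h4, h5]
    field_simp
  refine hw ?_
  rw [e1]
  simp only [D3, Pi.smul_apply, smul_eq_mul]
  ring

/-- all triples of this form are in the closure -/
theorem cl_all {a b a' b' : Matrix (Fin 3) (Fin 3) k}
    {μ μ' : Matrix (Fin 2) (Fin 2) k} (h : CC a b a' b') :
    Cl ![J k, TT a b μ, TT a' b' μ'] := by
  by_cases hc : ∃ (p q : k) (v : Fin 3 → k), Cyc (p • a + q • a') v
  · obtain ⟨p, q, v, hv⟩ := hc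
    have e0 : ∀ p q : k, p • a + q • a' + (0 : k) • (1 : Matrix (Fin 3) (Fin 3) k) =
        p • a + q • a' := fun p q => by rw [zero_smul, add_zero]
    by_cases hp : p = 0
    · have hq : q ≠ 0 := by
        rintro rfl
        rw [hp, zero_smul, zero_smul, add_zero] at hv
        exact hv (by simp [D3])
      refine cl_lin_TT p q 1 0 0 0 (by simpa using hq) (cl_cyc (v := v) ?_ (CC_lin h p q 1 0 0 0))
      rw [e0]
      exact hv
    · refine cl_lin_TT p q 0 1 0 0 (by simpa using hp) (cl_cyc (v := v) ?_ (CC_lin h p q 0 1 0 0))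
      rw [e0]
      exact hv
  · push Not at hc
    obtain ⟨l, x, φ, rfl⟩ := sr_all (N := a) (fun v hv => hc 1 0 v (by
      rw [one_smul, zero_smul, add_zero]
      exact hv))
    obtain ⟨l', x', φ', rfl⟩ := sr_all (N := a') (fun v hv => hc 0 1 v (by
      rw [one_smul, zero_smul, zero_add]
      exact hv))
    have hC := CC_lin h 1 0 0 1 (-l) (-l')
    refine cl_lin_TT 1 0 0 1 (-l) (-l') (by norm_num) ?_
    have e1 : (1 : k) • (l • 1 + vecMulVec x φ) + (0 : k) • (l' • 1 + vecMulVec x' φ') +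
        (-l) • (1 : Matrix (Fin 3) (Fin 3) k) = vecMulVec x φ := by module
    have e2 : (0 : k) • (l • 1 + vecMulVec x φ) + (1 : k) • (l' • 1 + vecMulVec x' φ') +
        (-l') • (1 : Matrix (Fin 3) (Fin 3) k) = vecMulVec x' φ' := by module
    rw [e1, e2] at hC ⊢
    refine cl_rank1 hC fun p q v hv => hc p q v ?_
    have e3 : p • vecMulVec x φ + q • vecMulVec x' φ' =
        p • (l • 1 + vecMulVec x φ) + q • (l' • 1 + vecMulVec x' φ') -
        (p * l + q * l') • (1 : Matrix (Fin 3) (Fin 3) k) := by module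
    rw [e3] at hv
    exact cyc_shift _ hv

end CZ

end Pool.Agent.Lib.D13.X442
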